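import Pool.Agent.Strip051.G.I8600_9000.Gn

/-! # Certificates of the corner (1, 1, 2) (generated) -/

set_option linter.all false

namespace Pool.Agent.Strip051.G.I8600_9000.Tab.EW

open Pool.Agent.Strip051.PB

def A113_000p :
    ∃ t, chk3 (onCell 0 16252928 0 1073741824 923417968 42949674 (fA12W 0 3 c0B eng mog .nn true true true gB0q1 gB0q1 gB0q3 gB1q3 dB0q1 dB0q1 dB0q3 dB1q3 67108864 16252928)) t 1 1 1 = true :=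
  ⟨(T.b (T.b (T.l 2) (T.a (T.c (T.l 0) (T.b (T.l 0) (T.l 0))) (T.c (T.l 0) (T.l 0)))) (T.b (T.b (T.b (T.l 0) (T.l 1)) (T.l 1)) (T.l 1))), by decide +kernel⟩

def A113_000m :
    ∃ t, chk3 (onCell 0 16252928 0 1073741824 923417968 42949674 (fA12W 0 3 c0B eng mog .nn false true true gB0q1 gB0q1 gB0q3 gB1q3 dB0q1 dB0q1 dB0q3 dB1q3 67108864 16252928)) t 1 1 1 = true :=
  ⟨(T.b (T.b (T.l 1) (T.b (T.l 1) (T.b (T.l 1) (T.l 0)))) (T.b (T.c (T.a (T.l 0) (T.l 0)) (T.a (T.b (T.l 0) (T.l 0)) (T.l 0))) (T.l 2))), by decide +kernel⟩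

def A113_001p :
    ∃ t, chk3 (onCell 0 228810721 0 1073741824 923417968 42949674 (fA12W 1 3 c0B eng mog .nn true true false gB0q1 gB0q1 gB1q3 gB2q3 dB0q1 dB0q1 dB1q3 dB2q3 67108864 16252928)) t 1 1 1 = true :=
  ⟨(T.b (T.a (T.c (T.b (T.a (T.b (T.c (T.b (T.l 272) (T.l 272)) (T.b (T.a (T.l 272) (T.l 272)) (T.l 272))) (T.l 272)) (T.b (T.c (T.b (T.l 272) (T.l 272)) (T.b (T.a (T.l 272) (T.l 272)) (T.l 272))) (T.b (T.l 272) (T.l 272)))) (T.b (T.l 0) (T.l 1))) (T.b (T.a (T.b (T.c (T.b (T.a (T.b (T.l 272) (T.l 272)) (T.l 272)) (T.l 272)) (T.b (T.a (T.c (T.l 272) (T.l 272)) (T.b (T.l 272) (T.l 272))) (T.l 272))) (T.b (T.l 272) (T.l 272))) (T.b (T.c (T.b (T.a (T.l 272) (T.l 272)) (T.l 272)) (T.b (T.a (T.l 272) (T.l 272)) (T.l 272))) (T.b (T.l 272) (T.l 272)))) (T.b (T.a (T.l 0) (T.l 0)) (T.l 1)))) (T.b (T.c (T.a (T.b (T.c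 (T.b (T.a (T.l 272) (T.l 272)) (T.l 272)) (T.b (T.a (T.l 272) (T.l 272)) (T.l 272))) (T.b (T.l 272) (T.l 272))) (T.b (T.c (T.b (T.a (T.l 272) (T.l 272)) (T.l 272)) (T.b (T.a (T.l 272) (T.l 272)) (T.l 272))) (T.b (T.l 272) (T.l 272)))) (T.a (T.b (T.c (T.b (T.a (T.l 272) (T.l 272)) (T.l 272)) (T.b (T.a (T.l 272) (T.b (T.l 272) (T.l 272))) (T.l 272))) (T.b (T.l 272) (T.l 272))) (T.b (T.c (T.b (T.a (T.l 272) (T.l 272)) (T.l 272)) (T.b (T.a (T.b (T.l 272) (T.l 272)) (T.c (T.l 272) (T.l 272))) (T.a (T.l 272) (T.l 272)))) (T.a (T.l 272) (T.l 272))))) (T.b (T.b (T.c (T.l 0) (T.a (T.l 0) (T.l 272))) (T.l 1)) (T.l 1)))) (T.l 1)), by decide +kernel⟩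

def A113_001m :
    ∃ t, chk3 (onCell 0 228810721 0 1073741824 923417968 42949674 (fA12W 1 3 c0B eng mog .nn false true false gB0q1 gB0q1 gB1q3 gB2q3 dB0q1 dB0q1 dB1q3 dB2q3 67108864 16252928)) t 1 1 1 = true :=
  ⟨(T.b (T.l 1) (T.a (T.c (T.b (T.b (T.l 1) (T.l 0)) (T.b (T.a (T.l 68) (T.l 68)) (T.a (T.c (T.l 68) (T.l 68)) (T.c (T.l 68) (T.l 68))))) (T.b (T.b (T.l 1) (T.a (T.l 0) (T.l 0))) (T.a (T.b (T.l 68) (T.c (T.b (T.l 68) (T.l 68)) (T.a (T.b (T.l 68) (T.l 68)) (T.l 68)))) (T.b (T.l 68) (T.c (T.b (T.l 68) (T.l 68)) (T.a (T.l 68) (T.l 68))))))) (T.b (T.b (T.l 1) (T.c (T.a (T.l 0) (T.l 0)) (T.a (T.l 0) (T.l 0)))) (T.c (T.a (T.b (T.l 68) (T.c (T.l 68) (T.b (T.l 68) (T.l 68)))) (T.b (T.l 68) (T.b (T.l 68) (T.c (T.l 68) (T.l 68))))) (T.a (T.b (T.b (T.l 68) (T.l 68)) (T.c (T.b (T.l 68) (T.l 68)) (T.b (T.l 68) (T.a (T.l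 68) (T.l 68))))) (T.b (T.b (T.l 68) (T.l 68)) (T.c (T.a (T.l 68) (T.b (T.l 68) (T.l 68))) (T.b (T.l 68) (T.a (T.b (T.l 68) (T.l 68)) (T.c (T.l 68) (T.l 68))))))))))), by decide +kernel⟩

def A123_012p :
    ∃ t, chk3 (onCell 0 228810721 0 805306368 923417968 42949674 (fA12W 4 3 c0B eng mog .npn true false false gB0q1 gB1q2 gB2q3 gB3q3 dB0q1 dB1q2 dB2q3 dB3q3 67108864 16252928)) t 1 1 1 = true :=
  ⟨(T.b (T.b (T.b (T.b (T.a (T.l 1) (T.l 1)) (T.a (T.a (T.b (T.l 0) (T.l 0)) (T.b (T.l 0) (T.l 0))) (T.a (T.b (T.l 272) (T.l 272)) (T.c (T.l 272) (T.l 272))))) (T.a (T.a (T.b (T.l 0) (T.l 0)) (T.b (T.l 0) (T.l 0))) (T.b (T.a (T.a (T.l 272) (T.l 272)) (T.a (T.l 272) (T.b (T.l 272) (T.l 272)))) (T.a (T.a (T.l 272) (T.l 0)) (T.a (T.a (T.l 272) (T.l 272)) (T.a (T.l 272) (T.l 272))))))) (T.b (T.b (T.a (T.a (T.l 0) (T.l 0)) (T.b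 (T.b (T.a (T.l 0) (T.a (T.l 272) (T.l 272))) (T.a (T.a (T.l 272) (T.l 2)) (T.l 2))) (T.l 2))) (T.l 2)) (T.l 2))) (T.a (T.l 2) (T.b (T.l 2) (T.a (T.l 2) (T.l 3))))), by decide +kernel⟩

def A123_013p :
    ∃ t, chk3 (onCell 0 228810721 0 805306368 923417968 42949674 (fA12W 4 3 c0B eng mog .npn true false false gB0q1 gB1q2 gB3q3 gB4q3 dB0q1 dB1q2 dB3q3 dB4q3 67108864 16252928)) t 1 1 1 = true :=
  ⟨(T.b (T.b (T.a (T.l 1) (T.b (T.l 1) (T.l 1))) (T.b (T.b (T.b (T.a (T.a (T.l 0) (T.l 0)) (T.a (T.a (T.l 272) (T.l 0)) (T.a (T.l 272) (T.l 272)))) (T.a (T.a (T.l 0) (T.l 0)) (T.a (T.a (T.l 272) (T.l 0)) (T.a (T.l 272) (T.l 272))))) (T.a (T.a (T.l 0) (T.l 0)) (T.a (T.a (T.a (T.l 0) (T.l 0)) (T.l 0)) (T.a (T.l 0) (T.l 272))))) (T.b (T.b (T.a (T.a (T.l 0) (T.l 0)) (T.a (T.a (T.l 0) (T.l 272)) (T.a (T.l 272) (T.l 3)))) (T.a (T.a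 (T.l 0) (T.a (T.l 0) (T.l 0))) (T.a (T.a (T.l 0) (T.l 272)) (T.a (T.l 272) (T.l 3))))) (T.a (T.a (T.l 0) (T.a (T.l 0) (T.l 0))) (T.a (T.a (T.l 0) (T.l 0)) (T.a (T.l 0) (T.l 3))))))) (T.a (T.b (T.b (T.a (T.l 0) (T.b (T.a (T.l 0) (T.l 0)) (T.l 2))) (T.l 2)) (T.l 2)) (T.b (T.b (T.a (T.b (T.a (T.l 0) (T.l 0)) (T.l 2)) (T.l 3)) (T.l 2)) (T.a (T.l 2) (T.l 3))))), by decide +kernel⟩

def B113_010p :
    ∃ t, chk3 (onCell 0 16252928 0 1073741824 923417968 42949674 (fB12W 0 3 c0B eng mog .nn true true true false gB0q1 gB1q3 gB0q1 gB1q1 dB0q1 dB1q3 dB0q1 dB1q1 67108864 16252928)) t 1 1 1 = true :=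
  ⟨(T.b (T.b (T.c (T.l 0) (T.l 0)) (T.b (T.b (T.c (T.l 0) (T.a (T.l 0) (T.l 272))) (T.l 1)) (T.l 1))) (T.l 1)), by decide +kernel⟩

def B123_010p :
    ∃ t, chk3 (onCell 0 67108864 0 1073741824 923417968 42949674 (fB12W 0 3 c0B eng mog .npn true true true true gB0q1 gB1q3 gB0q2 gB1q2 dB0q1 dB1q3 dB0q2 dB1q2 67108864 16252928)) t 1 1 1 = true :=
  ⟨(T.l 2), by decide +kernel⟩

def B123_011p :
    ∃ t, chk3 (onCell 0 67108864 0 1073741824 923417968 42949674 (fB12W 0 3 c0B eng mog .npn true true true false gB0q1 gB1q3 gB1q2 gB2q2 dB0q1 dB1q3 dB1q2 dB2q2 67108864 16252928)) t 1 1 1 = true :=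
  ⟨(T.a (T.b (T.b (T.b (T.l 272) (T.l 272)) (T.l 272)) (T.l 272)) (T.b (T.b (T.l 3) (T.b (T.l 3) (T.l 272))) (T.a (T.l 272) (T.b (T.l 272) (T.l 272))))), by decide +kernel⟩

def B113_010m :
    ∃ t, chk3 (onCell 0 16252928 0 1073741824 923417968 42949674 (fB12W 0 3 c0B eng mog .nn false true true false gB0q1 gB1q3 gB0q1 gB1q1 dB0q1 dB1q3 dB0q1 dB1q1 67108864 16252928)) t 1 1 1 = true :=
  ⟨(T.b (T.b (T.l 272) (T.l 0)) (T.b (T.b (T.l 0) (T.b (T.c (T.l 0) (T.l 0)) (T.b (T.c (T.l 0) (T.b (T.l 0) (T.l 1))) (T.l 1)))) (T.l 1))), by decide +kernel⟩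

def B123_010m :
    ∃ t, chk3 (onCell 0 67108864 0 1073741824 923417968 42949674 (fB12W 0 3 c0B eng mog .npn false true true true gB0q1 gB1q3 gB0q2 gB1q2 dB0q1 dB1q3 dB0q2 dB1q2 67108864 16252928)) t 1 1 1 = true :=
  ⟨(T.l 2), by decide +kernel⟩

def B123_011m :
    ∃ t, chk3 (onCell 0 67108864 0 1073741824 923417968 42949674 (fB12W 0 3 c0B eng mog .npn false true true false gB0q1 gB1q3 gB1q2 gB2q2 dB0q1 dB1q3 dB1q2 dB2q2 67108864 16252928)) t 1 1 1 = true :=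
  ⟨(T.a (T.b (T.b (T.l 272) (T.l 272)) (T.l 272)) (T.a (T.b (T.l 272) (T.l 272)) (T.b (T.l 3) (T.b (T.l 272) (T.l 272))))), by decide +kernel⟩

def B213_010m :
    ∃ t, chk3 (onCell 0 67108864 0 1073741824 923417968 42949674 (fB12W 0 3 c0B eng mog .pnn false true true false gB0q2 gB1q3 gB0q1 gB1q1 dB0q2 dB1q3 dB0q1 dB1q1 67108864 16252928)) t 1 1 1 = true :=
  ⟨(T.l 1), by decide +kernel⟩

def B213_110m :
    ∃ t, chk3 (onCell 0 67108864 0 1073741824 923417968 42949674 (fB12W 0 3 c0B eng mog .pnn false true true false gB1q2 gB1q3 gB0q1 gB1q1 dB1q2 dB1q3 dB0q1 dB1q1 67108864 16252928)) t 1 1 1 = true :=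
  ⟨(T.l 1), by decide +kernel⟩

def B113_020p :
    ∃ t, chk3 (onCell 0 228810721 0 1073741824 923417968 42949674 (fB12W 2 3 c0B eng mog .nn true false true false gB0q1 gB2q3 gB0q1 gB1q1 dB0q1 dB2q3 dB0q1 dB1q1 67108864 16252928)) t 1 1 1 = true :=
  ⟨(T.l 1), by decide +kernel⟩

def B123_020p :
    ∃ t, chk3 (onCell 0 295919585 0 1073741824 923417968 42949674 (fB12uW 3 c0B eng mog .npn true false true true gB0q1 gB2q3 gB0q2 gB1q2 dB0q1 dB2q3 dB0q2 dB1q2 67108864 16252928)) t 1 1 1 = true :=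
  ⟨(T.b (T.b (T.l 0) (T.l 2)) (T.a (T.l 2) (T.b (T.a (T.b (T.l 3) (T.l 3)) (T.l 3)) (T.l 3)))), by decide +kernel⟩

def B123_021p :
    ∃ t, chk3 (onCell 0 295919585 0 1073741824 923417968 42949674 (fB12W 3 3 c0B eng mog .npn true false true false gB0q1 gB2q3 gB1q2 gB2q2 dB0q1 dB2q3 dB1q2 dB2q2 67108864 16252928)) t 1 1 1 = true :=
  ⟨(T.b (T.a (T.b (T.b (T.b (T.b (T.l 1) (T.b (T.l 1) (T.a (T.c (T.l 0) (T.l 0)) (T.a (T.l 0) (T.l 272))))) (T.b (T.a (T.l 0) (T.l 272)) (T.l 0))) (T.a (T.l 0) (T.b (T.l 272) (T.a (T.l 272) (T.l 272))))) (T.a (T.b (T.l 272) (T.l 272)) (T.b (T.a (T.l 0) (T.b (T.l 272) (T.l 272))) (T.a (T.l 0) (T.l 0))))) (T.b (T.b (T.b (T.b (T.l 1) (T.b (T.a (T.l 1) (T.l 1)) (T.a (T.a (T.l 272) (T.l 272)) (T.a (T.l 272) (T.l 3))))) (T.a (T.a (T.l 272) (T.l 272)) (T.b (T.a (T.l 272) (T.l 3)) (T.a (T.l 272)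 (T.l 272))))) (T.b (T.a (T.a (T.l 0) (T.l 0)) (T.a (T.l 0) (T.l 272))) (T.a (T.a (T.l 272) (T.l 272)) (T.a (T.l 272) (T.l 272))))) (T.b (T.a (T.b (T.a (T.l 272) (T.l 272)) (T.a (T.l 272) (T.l 272))) (T.b (T.l 0) (T.l 3))) (T.a (T.a (T.l 0) (T.l 3)) (T.l 3))))) (T.a (T.a (T.a (T.b (T.l 272) (T.l 272)) (T.b (T.a (T.l 0) (T.b (T.l 272) (T.l 272))) (T.a (T.l 0) (T.l 0)))) (T.b (T.a (T.b (T.l 0) (T.l 0)) (T.b (T.l 0) (T.l 3))) (T.a (T.b (T.l 0) (T.l 0)) (T.l 3)))) (T.b (T.a (T.b (T.l 3) (T.l 3)) (T.l 3)) (T.l 3)))), by decide +kernel⟩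

def B113_020m :
    ∃ t, chk3 (onCell 0 228810721 0 1073741824 923417968 42949674 (fB12W 2 3 c0B eng mog .nn false false true false gB0q1 gB2q3 gB0q1 gB1q1 dB0q1 dB2q3 dB0q1 dB1q1 67108864 16252928)) t 1 1 1 = true :=
  ⟨(T.a (T.b (T.l 0) (T.l 68)) (T.b (T.l 0) (T.b (T.l 0) (T.l 68)))), by decide +kernel⟩

def B123_020m :
    ∃ t, chk3 (onCell 0 295919585 0 1073741824 923417968 42949674 (fB12W 3 3 c0B eng mog .npn false false true true gB0q1 gB2q3 gB0q2 gB1q2 dB0q1 dB2q3 dB0q2 dB1q2 67108864 16252928)) t 1 1 1 = true :=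
  ⟨(T.b (T.b (T.l 2) (T.l 2)) (T.a (T.l 2) (T.b (T.a (T.b (T.l 3) (T.l 3)) (T.l 3)) (T.l 3)))), by decide +kernel⟩

def B123_021m :
    ∃ t, chk3 (onCell 0 295919585 0 1073741824 923417968 42949674 (fB12W 3 3 c0B eng mog .npn false false true false gB0q1 gB2q3 gB1q2 gB2q2 dB0q1 dB2q3 dB1q2 dB2q2 67108864 16252928)) t 1 1 1 = true :=
  ⟨(T.a (T.a (T.b (T.b (T.b (T.b (T.l 272) (T.l 272)) (T.l 272)) (T.b (T.l 272) (T.l 272))) (T.a (T.b (T.l 272) (T.l 272)) (T.b (T.a (T.l 0) (T.l 0)) (T.a (T.l 0) (T.l 0))))) (T.b (T.b (T.b (T.a (T.l 272) (T.l 272)) (T.b (T.l 272) (T.l 0))) (T.a (T.b (T.l 0) (T.l 0)) (T.b (T.l 0) (T.l 0)))) (T.a (T.b (T.b (T.l 0) (T.l 0)) (T.b (T.l 0) (T.l 0))) (T.b (T.b (T.l 0) (T.l 3)) (T.l 3))))) (T.b (T.b (T.a (T.b (T.a (T.l 272) (T.l 272)) (T.b (T.a (T.l 272) (T.l 272)) (T.l 0))) (T.b (T.b (T.a (T.l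 272) (T.l 3)) (T.a (T.l 272) (T.l 272))) (T.b (T.l 272) (T.l 272)))) (T.a (T.b (T.b (T.l 0) (T.l 0)) (T.a (T.l 0) (T.l 3))) (T.b (T.a (T.l 272) (T.l 3)) (T.l 3)))) (T.b (T.a (T.b (T.l 3) (T.l 3)) (T.l 3)) (T.l 3)))), by decide +kernel⟩

def B123_022m :
    ∃ t, chk3 (onCell 0 295919585 0 1073741824 923417968 42949674 (fB12W 3 3 c0B eng mog .npn false false false false gB0q1 gB2q3 gB2q2 gB3q2 dB0q1 dB2q3 dB2q2 dB3q2 67108864 16252928)) t 1 1 1 = true :=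
  ⟨(T.a (T.a (T.l 1) (T.b (T.l 1) (T.a (T.b (T.l 1) (T.b (T.l 1) (T.l 0))) (T.b (T.b (T.l 0) (T.l 3)) (T.l 3))))) (T.b (T.b (T.a (T.l 1) (T.b (T.b (T.l 1) (T.a (T.l 1) (T.l 272))) (T.b (T.a (T.l 1) (T.l 272)) (T.l 272)))) (T.a (T.b (T.a (T.l 1) (T.l 272)) (T.a (T.l 0) (T.l 3))) (T.b (T.a (T.l 272) (T.l 3)) (T.l 3)))) (T.a (T.b (T.b (T.l 3) (T.l 3)) (T.l 3)) (T.l 3)))), by decide +kernel⟩

def B213_120m :
    ∃ t, chk3 (onCell 0 295919585 0 1073741824 923417968 42949674 (fB12W 3 3 c0B eng mog .pnn false false true false gB1q2 gB2q3 gB0q1 gB1q1 dB1q2 dB2q3 dB0q1 dB1q1 67108864 16252928)) t 1 1 1 = true :=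
  ⟨(T.b (T.b (T.b (T.b (T.b (T.a (T.l 0) (T.a (T.l 68) (T.l 68))) (T.a (T.b (T.a (T.l 0) (T.l 68)) (T.b (T.a (T.l 0) (T.l 0)) (T.l 1))) (T.b (T.a (T.l 68) (T.l 68)) (T.b (T.a (T.l 68) (T.l 68)) (T.l 1))))) (T.l 1)) (T.l 1)) (T.l 1)) (T.a (T.l 1) (T.b (T.a (T.b (T.l 3) (T.l 3)) (T.l 3)) (T.l 3)))), by decide +kernel⟩

def B113_030p :
    ∃ t, chk3 (onCell 0 228810721 0 1073741824 923417968 42949674 (fB12W 2 3 c0B eng mog .nn true false true false gB0q1 gB3q3 gB0q1 gB1q1 dB0q1 dB3q3 dB0q1 dB1q1 67108864 16252928)) t 1 1 1 = true :=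
  ⟨(T.l 1), by decide +kernel⟩

def B123_030p :
    ∃ t, chk3 (onCell 0 295919585 0 1073741824 923417968 42949674 (fB12uW 3 c0B eng mog .npn true false true true gB0q1 gB3q3 gB0q2 gB1q2 dB0q1 dB3q3 dB0q2 dB1q2 67108864 16252928)) t 1 1 1 = true :=
  ⟨(T.b (T.b (T.l 0) (T.a (T.l 2) (T.l 2))) (T.a (T.l 2) (T.b (T.a (T.b (T.l 3) (T.l 3)) (T.l 3)) (T.l 3)))), by decide +kernel⟩

def B123_031p :
    ∃ t, chk3 (onCell 0 295919585 0 1073741824 923417968 42949674 (fB12W 3 3 c0B eng mog .npn true false true false gB0q1 gB3q3 gB1q2 gB2q2 dB0q1 dB3q3 dB1q2 dB2q2 67108864 16252928)) t 1 1 1 = true :=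
  ⟨(T.b (T.a (T.b (T.b (T.l 1) (T.b (T.b (T.l 1) (T.a (T.c (T.l 0) (T.l 0)) (T.l 0))) (T.b (T.l 0) (T.a (T.l 272) (T.a (T.l 272) (T.l 272)))))) (T.a (T.b (T.l 0) (T.l 0)) (T.b (T.a (T.b (T.l 272) (T.l 0)) (T.b (T.l 0) (T.l 272))) (T.a (T.b (T.l 272) (T.l 272)) (T.b (T.l 272) (T.l 272)))))) (T.b (T.b (T.l 1) (T.b (T.b (T.l 1) (T.a (T.a (T.l 0) (T.a (T.l 0) (T.l 0))) (T.a (T.l 0) (T.l 272)))) (T.a (T.b (T.a (T.l 0) (T.l 272)) (T.l 0)) (T.b (T.l 0) (T.l 0))))) (T.b (T.b (T.a (T.a (T.l 0) (T.l 272)) (T.a (T.l 272) (T.l 3))) (T.a (T.a (T.l 272) (T.l 272)) (T.l 3))) (T.a (T.b (T.a (T.l 272) (T.l 3)) (T.l 0)) (T.l 3))))) (T.a (T.a (T.a (T.b (T.l 0) (T.l 272)) (T.b (T.a (T.l 0) (T.b (T.l 272) (T.l 272))) (T.a (T.l 0) (T.l 0)))) (T.b (T.b (T.a (T.l 0) (T.l 0)) (T.a (T.l 0) (T.l 3))) (T.a (T.b (T.l 0) (T.l 0)) (T.l 3)))) (T.b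 (T.a (T.b (T.l 3) (T.l 3)) (T.l 3)) (T.l 3)))), by decide +kernel⟩

def B113_030m :
    ∃ t, chk3 (onCell 0 228810721 0 1073741824 923417968 42949674 (fB12W 2 3 c0B eng mog .nn false false true false gB0q1 gB3q3 gB0q1 gB1q1 dB0q1 dB3q3 dB0q1 dB1q1 67108864 16252928)) t 1 1 1 = true :=
  ⟨(T.b (T.l 0) (T.l 0)), by decide +kernel⟩

def B123_030m :
    ∃ t, chk3 (onCell 0 295919585 0 1073741824 923417968 42949674 (fB12W 3 3 c0B eng mog .npn false false true true gB0q1 gB3q3 gB0q2 gB1q2 dB0q1 dB3q3 dB0q2 dB1q2 67108864 16252928)) t 1 1 1 = true :=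
  ⟨(T.b (T.a (T.l 2) (T.l 2)) (T.a (T.l 2) (T.b (T.b (T.a (T.l 3) (T.l 3)) (T.l 3)) (T.l 3)))), by decide +kernel⟩

def B123_031m :
    ∃ t, chk3 (onCell 0 295919585 0 1073741824 923417968 42949674 (fB12W 3 3 c0B eng mog .npn false false true false gB0q1 gB3q3 gB1q2 gB2q2 dB0q1 dB3q3 dB1q2 dB2q2 67108864 16252928)) t 1 1 1 = true :=
  ⟨(T.a (T.a (T.a (T.b (T.b (T.l 272) (T.l 272)) (T.b (T.l 272) (T.l 272))) (T.b (T.b (T.l 272) (T.l 272)) (T.a (T.b (T.l 0) (T.l 0)) (T.b (T.l 0) (T.l 0))))) (T.b (T.b (T.a (T.l 272) (T.b (T.l 272) (T.l 0))) (T.a (T.b (T.l 0) (T.l 0)) (T.b (T.l 0) (T.l 0)))) (T.a (T.b (T.b (T.l 0) (T.l 0)) (T.b (T.l 0) (T.l 0))) (T.b (T.b (T.l 0) (T.l 3)) (T.l 3))))) (T.b (T.a (T.b (T.b (T.l 272) (T.a (T.l 0) (T.l 272))) (T.a (T.b (T.l 0) (T.l 272)) (T.l 2))) (T.b (T.b (T.a (T.l 2) (T.l 2)) (T.l 2))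 (T.l 2))) (T.b (T.a (T.b (T.l 3) (T.l 3)) (T.l 3)) (T.l 3)))), by decide +kernel⟩

def B123_032m :
    ∃ t, chk3 (onCell 0 295919585 0 1073741824 923417968 42949674 (fB12W 3 3 c0B eng mog .npn false false false false gB0q1 gB3q3 gB2q2 gB3q2 dB0q1 dB3q3 dB2q2 dB3q2 67108864 16252928)) t 1 1 1 = true :=
  ⟨(T.a (T.a (T.l 1) (T.b (T.b (T.l 1) (T.b (T.l 1) (T.a (T.l 1) (T.l 0)))) (T.a (T.b (T.l 1) (T.b (T.l 0) (T.l 0))) (T.b (T.b (T.l 0) (T.l 3)) (T.l 3))))) (T.b (T.a (T.b (T.a (T.b (T.l 1) (T.b (T.l 272) (T.l 272))) (T.b (T.l 272) (T.l 0))) (T.a (T.b (T.l 0) (T.l 272)) (T.b (T.l 272) (T.l 3)))) (T.b (T.a (T.b (T.b (T.l 272) (T.l 272)) (T.l 0)) (T.b (T.b (T.l 3) (T.l 272)) (T.l 0))) (T.b (T.a (T.l 272) (T.l 3)) (T.l 3)))) (T.a (T.a (T.b (T.l 3) (T.l 3)) (T.l 3)) (T.l 3)))), by decide +kernel⟩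

def B213_130m :
    ∃ t, chk3 (onCell 0 295919585 0 1073741824 923417968 42949674 (fB12W 3 3 c0B eng mog .pnn false false true false gB1q2 gB3q3 gB0q1 gB1q1 dB1q2 dB3q3 dB0q1 dB1q1 67108864 16252928)) t 1 1 1 = true :=
  ⟨(T.b (T.b (T.b (T.a (T.a (T.l 0) (T.l 0)) (T.a (T.a (T.l 0) (T.l 0)) (T.b (T.a (T.l 68) (T.l 3)) (T.a (T.l 0) (T.l 0))))) (T.b (T.a (T.b (T.l 0) (T.a (T.l 0) (T.l 0))) (T.b (T.a (T.a (T.l 68) (T.l 0)) (T.a (T.l 68) (T.l 68))) (T.b (T.a (T.a (T.l 68) (T.l 68)) (T.a (T.l 68) (T.l 68))) (T.l 1)))) (T.l 1))) (T.a (T.l 1) (T.l 1))) (T.a (T.l 1) (T.b (T.a (T.b (T.l 3) (T.l 3)) (T.l 3)) (T.l 3)))), by decide +kernel⟩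

def B113_040p :
    ∃ t, chk3 (onCell 0 228810721 0 1073741824 923417968 42949674 (fB12W 2 3 c0B eng mog .nn true false true false gB0q1 gB4q3 gB0q1 gB1q1 dB0q1 dB4q3 dB0q1 dB1q1 67108864 16252928)) t 1 1 1 = true :=
  ⟨(T.l 1), by decide +kernel⟩

def B123_040p :
    ∃ t, chk3 (onCell 0 295919585 0 1073741824 923417968 42949674 (fB12uW 3 c0B eng mog .npn true false true true gB0q1 gB4q3 gB0q2 gB1q2 dB0q1 dB4q3 dB0q2 dB1q2 67108864 16252928)) t 1 1 1 = true :=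
  ⟨(T.b (T.b (T.l 0) (T.b (T.l 0) (T.l 2))) (T.a (T.l 2) (T.b (T.a (T.b (T.l 3) (T.l 3)) (T.l 3)) (T.l 3)))), by decide +kernel⟩

def B123_041p :
    ∃ t, chk3 (onCell 0 295919585 0 1073741824 923417968 42949674 (fB12W 3 3 c0B eng mog .npn true false true false gB0q1 gB4q3 gB1q2 gB2q2 dB0q1 dB4q3 dB1q2 dB2q2 67108864 16252928)) t 1 1 1 = true :=
  ⟨(T.b (T.b (T.a (T.l 1) (T.l 1)) (T.a (T.b (T.b (T.b (T.l 1) (T.a (T.l 0) (T.a (T.l 0) (T.l 0)))) (T.a (T.l 0) (T.a (T.l 0) (T.l 0)))) (T.a (T.l 0) (T.a (T.b (T.l 0) (T.l 0)) (T.b (T.l 0) (T.l 272))))) (T.b (T.b (T.b (T.a (T.l 1) (T.a (T.a (T.l 0) (T.l 3)) (T.l 3))) (T.a (T.a (T.l 0) (T.l 0)) (T.l 3))) (T.a (T.a (T.l 0) (T.l 0)) (T.l 3))) (T.a (T.a (T.b (T.l 0) (T.l 272)) (T.l 3)) (T.l 3))))) (T.a (T.a (T.a (T.b (T.l 0) (T.l 0)) (T.b (T.a (T.b (T.l 272) (T.l 272)) (T.b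 (T.l 0) (T.l 272))) (T.a (T.l 0) (T.l 0)))) (T.b (T.b (T.a (T.b (T.l 0) (T.l 272)) (T.b (T.l 272) (T.l 272))) (T.a (T.l 0) (T.l 3))) (T.a (T.b (T.l 0) (T.l 0)) (T.l 3)))) (T.b (T.a (T.b (T.l 3) (T.l 3)) (T.l 3)) (T.l 3)))), by decide +kernel⟩

def B113_040m :
    ∃ t, chk3 (onCell 0 228810721 0 1073741824 923417968 42949674 (fB12W 2 3 c0B eng mog .nn false false true false gB0q1 gB4q3 gB0q1 gB1q1 dB0q1 dB4q3 dB0q1 dB1q1 67108864 16252928)) t 1 1 1 = true :=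
  ⟨(T.a (T.a (T.l 68) (T.l 68)) (T.l 0)), by decide +kernel⟩

def B123_040m :
    ∃ t, chk3 (onCell 0 295919585 0 1073741824 923417968 42949674 (fB12W 3 3 c0B eng mog .npn false false true true gB0q1 gB4q3 gB0q2 gB1q2 dB0q1 dB4q3 dB0q2 dB1q2 67108864 16252928)) t 1 1 1 = true :=
  ⟨(T.b (T.l 2) (T.a (T.l 2) (T.b (T.b (T.a (T.l 3) (T.l 3)) (T.l 3)) (T.l 3)))), by decide +kernel⟩

def B123_041m :
    ∃ t, chk3 (onCell 0 295919585 0 1073741824 923417968 42949674 (fB12W 3 3 c0B eng mog .npn false false true false gB0q1 gB4q3 gB1q2 gB2q2 dB0q1 dB4q3 dB1q2 dB2q2 67108864 16252928)) t 1 1 1 = true :=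
  ⟨(T.a (T.a (T.a (T.b (T.b (T.l 272) (T.l 272)) (T.l 0)) (T.b (T.b (T.l 272) (T.l 272)) (T.a (T.b (T.l 0) (T.l 0)) (T.b (T.l 0) (T.l 0))))) (T.b (T.a (T.b (T.l 272) (T.b (T.l 272) (T.l 272))) (T.a (T.b (T.l 272) (T.l 0)) (T.b (T.b (T.l 272) (T.l 2)) (T.l 2)))) (T.a (T.a (T.b (T.l 0) (T.l 0)) (T.b (T.l 0) (T.l 3))) (T.b (T.b (T.l 272) (T.l 3)) (T.l 3))))) (T.b (T.b (T.a (T.l 2) (T.l 2)) (T.l 2)) (T.b (T.l 2) (T.l 3)))), by decide +kernel⟩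

def B123_042m :
    ∃ t, chk3 (onCell 0 295919585 0 1073741824 923417968 42949674 (fB12W 3 3 c0B eng mog .npn false false false false gB0q1 gB4q3 gB2q2 gB3q2 dB0q1 dB4q3 dB2q2 dB3q2 67108864 16252928)) t 1 1 1 = true :=
  ⟨(T.a (T.a (T.l 1) (T.b (T.a (T.b (T.l 1) (T.b (T.l 1) (T.l 1))) (T.b (T.b (T.l 272) (T.l 0)) (T.b (T.l 0) (T.l 0)))) (T.a (T.a (T.l 1) (T.b (T.l 272) (T.l 3))) (T.b (T.b (T.l 0) (T.l 3)) (T.l 3))))) (T.b (T.a (T.a (T.b (T.b (T.l 272) (T.l 0)) (T.b (T.l 0) (T.l 272))) (T.b (T.b (T.l 272) (T.l 0)) (T.b (T.l 0) (T.l 3)))) (T.a (T.b (T.b (T.b (T.l 272) (T.l 272)) (T.l 0)) (T.b (T.l 0) (T.l 3))) (T.b (T.b (T.b (T.l 3) (T.l 272)) (T.l 0)) (T.l 3)))) (T.a (T.a (T.b (T.l 3) (T.l 3)) (T.l 3)) (T.l 3)))), by decide +kernel⟩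

def B213_140m :
    ∃ t, chk3 (onCell 0 295919585 0 1073741824 923417968 42949674 (fB12W 3 3 c0B eng mog .pnn false false true false gB1q2 gB4q3 gB0q1 gB1q1 dB1q2 dB4q3 dB0q1 dB1q1 67108864 16252928)) t 1 1 1 = true :=
  ⟨(T.b (T.b (T.a (T.a (T.b (T.l 68) (T.l 0)) (T.b (T.a (T.l 68) (T.l 0)) (T.a (T.l 0) (T.b (T.l 68) (T.l 0))))) (T.b (T.a (T.l 0) (T.b (T.l 0) (T.l 0))) (T.b (T.a (T.a (T.l 0) (T.l 0)) (T.a (T.l 0) (T.l 0))) (T.a (T.a (T.l 0) (T.l 0)) (T.a (T.l 0) (T.l 0)))))) (T.b (T.b (T.b (T.b (T.a (T.a (T.l 0) (T.a (T.l 68) (T.l 0))) (T.a (T.l 0) (T.l 0))) (T.a (T.a (T.l 0) (T.a (T.l 0) (T.l 0))) (T.a (T.l 0) (T.l 0)))) (T.b (T.a (T.a (T.l 0) (T.a (T.l 0) (T.l 0))) (T.a (T.a (T.l 0) (T.l 0)) (T.l 3))) (T.a (T.l 1) (T.l 1)))) (T.l 1)) (T.l 1))) (T.a (T.l 1) (T.b (T.a (T.b (T.l 3) (T.l 3)) (T.l 3)) (T.l 3)))),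 by decide +kernel⟩

end Pool.Agent.Strip051.G.I8600_9000.Tab.EW
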