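import Pool.Agent.Strip051.G.I8600_9000.Gn
import Pool.Agent.Strip051.PB.Corns
import Pool.Agent.Strip051.PB.CornW

/-! # Certificates of the aligned corners (generated) -/

set_option linter.all false

namespace Pool.Agent.Strip051.G.I8600_9000.Tab.CG

open Pool.Agent.Strip051.PB

def A011E_000 :
    ∃ t, chk3 (onCell 0 67108864 0 1073741824 923417968 42949674 (corT true 1 c0B cA011E gB0q0 gB0q1 gB0q1 gB1q1 true false)) t 1 1 1 = true :=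
  ⟨(T.l 1), by decide +kernel⟩

def A011L_001 :
    ∃ t, chk3 (onCell 0 67108864 0 1073741824 923417968 42949674 (corT true 1 c0B cA011L gB0q0 gB0q1 gB1q1 gB2q1 false true)) t 1 1 1 = true :=
  ⟨(T.l 2), by decide +kernel⟩

def A011L_002 :
    ∃ t, chk3 (onCell 0 67108864 0 1073741824 923417968 42949674 (corT true 1 c0B cA011L gB0q0 gB0q1 gB2q1 gB3q1 true true)) t 1 1 1 = true :=
  ⟨(T.l 2), by decide +kernel⟩

def A011L_003 :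
    ∃ t, chk3 (onCell 0 67108864 0 1073741824 923417968 42949674 (corT true 1 c0B cA011L gB0q0 gB0q1 gB3q1 gB4q1 true true)) t 1 1 1 = true :=
  ⟨(T.l 2), by decide +kernel⟩

def A011R_020 :
    ∃ t, chk3 (onCell 0 67108864 0 1073741824 923417968 42949674 (corT true 1 c0B cA011R gB0q0 gB2q1 gB0q1 gB1q1 true false)) t 1 1 1 = true :=
  ⟨(T.b (T.b (T.b (T.a (T.l 0) (T.l 0)) (T.l 1)) (T.l 1)) (T.l 1)), by decide +kernel⟩

def A011R_030 :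
    ∃ t, chk3 (onCell 0 67108864 0 1073741824 923417968 42949674 (corT true 1 c0B cA011R gB0q0 gB3q1 gB0q1 gB1q1 true false)) t 1 1 1 = true :=
  ⟨(T.b (T.b (T.b (T.l 64) (T.b (T.a (T.l 0) (T.a (T.l 0) (T.l 0))) (T.l 1))) (T.l 1)) (T.l 1)), by decide +kernel⟩

def A011R_040 :
    ∃ t, chk3 (onCell 0 67108864 0 1073741824 923417968 42949674 (corX 1 c0B cA011R tA011R gB0q0 gB4q1 gB0q1 gB1q1 gB0q1 true false)) t 1 1 1 = true :=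
  ⟨(T.b (T.b (T.b (T.l 3) (T.l 3)) (T.b (T.l 3) (T.l 1))) (T.l 1)), by decide +kernel⟩

def A011R_120 :
    ∃ t, chk3 (onCell 0 67108864 0 1073741824 923417968 42949674 (corT true 1 c0B cA011R gB1q0 gB2q1 gB0q1 gB1q1 true false)) t 1 1 1 = true :=
  ⟨(T.l 1), by decide +kernel⟩

def A011R_130 :
    ∃ t, chk3 (onCell 0 67108864 0 1073741824 923417968 42949674 (corT true 1 c0B cA011R gB1q0 gB3q1 gB0q1 gB1q1 true false)) t 1 1 1 = true :=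
  ⟨(T.l 1), by decide +kernel⟩

def A011R_140 :
    ∃ t, chk3 (onCell 0 67108864 0 1073741824 923417968 42949674 (corT true 1 c0B cA011R gB1q0 gB4q1 gB0q1 gB1q1 true false)) t 1 1 1 = true :=
  ⟨(T.b (T.l 1) (T.l 1)), by decide +kernel⟩

def A012E_000_1_2_1 :
    ∃ t, chk3 (onCell 0 67108864 0 1073741824 923417968 42949674 (corX 1 c0B cA012E tA012E gB0q0 gB0q1 gB0q2 gB1q2 gB0q2 true true)) t 1 2 1 = true :=
  ⟨(T.b (T.l 1) (T.b (T.l 1) (T.b (T.l 1) (T.b (T.l 1) (T.b (T.a (T.l 1) (T.a (T.l 3) (T.l 3))) (T.a (T.a (T.c (T.l 207) (T.l 207)) (T.l 3)) (T.a (T.l 3) (T.a (T.l 3) (T.a (T.l 819) (T.b (T.l 819) (T.a (T.l 819) (T.b (T.l 819) (T.c (T.l 816) (T.l 816)))))))))))))), by decide +kernel⟩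

def A012E_000_1_3_1 :
    ∃ t, chk3 (onCell 0 67108864 0 1073741824 923417968 42949674 (corX 1 c0B cA012E tA012E gB0q0 gB0q1 gB0q2 gB1q2 gB0q2 true true)) t 1 3 1 = true :=
  ⟨(T.b (T.b (T.a (T.a (T.a (T.b (T.l 207) (T.l 207)) (T.b (T.l 207) (T.l 207))) (T.a (T.l 3) (T.l 3))) (T.a (T.a (T.l 3) (T.b (T.l 3) (T.l 3))) (T.b (T.a (T.l 3) (T.b (T.a (T.l 819) (T.b (T.a (T.b (T.l 819) (T.c (T.l 816) (T.l 816))) (T.c (T.b (T.l 880) (T.l 816)) (T.b (T.l 816) (T.l 816)))) (T.a (T.c (T.c (T.l 816) (T.l 816)) (T.c (T.l 816) (T.l 816))) (T.c (T.c (T.l 816) (T.l 816)) (T.c (T.l 816) (T.l 816)))))) (T.a (T.b (T.a (T.l 819) (T.c (T.l 816) (T.l 816))) (T.a (T.c (T.l 816) (T.l 816)) (T.c (T.l 816) (T.l 816)))) (T.a (T.b (T.c (T.l 816) (T.l 816)) (T.c (T.l 816) (T.l 816))) (T.b (T.b (T.l 880) (T.c (T.l 816) (T.l 816))) (T.c (T.c (T.l 816) (T.l 816)) (T.c (T.l 816)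 (T.l 816)))))))) (T.b (T.a (T.a (T.l 819) (T.b (T.a (T.l 819) (T.l 880)) (T.a (T.l 816) (T.l 816)))) (T.a (T.b (T.a (T.c (T.l 816) (T.l 816)) (T.c (T.l 816) (T.l 816))) (T.a (T.l 816) (T.c (T.l 816) (T.l 816)))) (T.b (T.a (T.c (T.l 816) (T.l 816)) (T.c (T.c (T.l 816) (T.l 816)) (T.l 816))) (T.a (T.c (T.l 816) (T.l 816)) (T.c (T.l 880) (T.l 816)))))) (T.b (T.a (T.a (T.l 819) (T.c (T.l 880) (T.l 816))) (T.a (T.a (T.c (T.l 816) (T.l 816)) (T.c (T.l 816) (T.l 816))) (T.a (T.c (T.l 816) (T.l 816)) (T.c (T.l 816) (T.l 816))))) (T.l 2)))))) (T.a (T.b (T.a (T.a (T.l 207) (T.l 2)) (T.l 2)) (T.l 2)) (T.l 2))) (T.l 2)), by decide +kernel⟩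

theorem A012E_000 :
    ∃ t, chk3 (onCell 0 67108864 0 1073741824 923417968 42949674 (corX 1 c0B cA012E tA012E gB0q0 gB0q1 gB0q2 gB1q2 gB0q2 true true)) t 1 1 1 = true :=
  ex3_b A012E_000_1_2_1 A012E_000_1_3_1

def A012E_001 :
    ∃ t, chk3 (onCell 0 67108864 0 1073741824 923417968 42949674 (corT true 1 c0B cA012E gB0q0 gB0q1 gB1q2 gB2q2 true false)) t 1 1 1 = true :=
  ⟨(T.b (T.l 1) (T.b (T.b (T.b (T.l 1) (T.b (T.l 1) (T.a (T.b (T.l 1) (T.a (T.b (T.l 1) (T.c (T.l 0) (T.c (T.l 204) (T.a (T.l 204) (T.l 204))))) (T.c (T.l 0) (T.l 0)))) (T.a (T.c (T.l 0) (T.a (T.b (T.l 1) (T.l 0)) (T.l 0))) (T.c (T.a (T.l 816) (T.l 816)) (T.a (T.l 0) (T.l 816))))))) (T.a (T.b (T.a (T.c (T.l 0) (T.b (T.l 0) (T.l 0))) (T.b (T.l 0) (T.l 0))) (T.a (T.l 0) (T.b (T.l 816) (T.l 816)))) (T.b (T.a (T.c (T.l 64) (T.l 0)) (T.c (T.b (T.l 816) (T.l 816)) (T.b (T.l 816) (T.l 816))))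 (T.a (T.b (T.l 816) (T.l 816)) (T.c (T.b (T.l 816) (T.l 816)) (T.l 816)))))) (T.a (T.b (T.a (T.b (T.l 816) (T.l 816)) (T.b (T.l 816) (T.l 816))) (T.a (T.b (T.l 816) (T.l 816)) (T.b (T.l 816) (T.l 816)))) (T.a (T.b (T.c (T.b (T.l 816) (T.l 816)) (T.l 816)) (T.b (T.l 816) (T.l 816))) (T.b (T.b (T.b (T.l 816) (T.l 816)) (T.b (T.l 816) (T.l 816))) (T.a (T.b (T.l 816) (T.l 816)) (T.b (T.l 816) (T.b (T.l 816) (T.l 816))))))))), by decide +kernel⟩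

def A012L_003 :
    ∃ t, chk3 (onCell 0 67108864 0 1073741824 923417968 42949674 (corT true 1 c0B cA012L gB0q0 gB0q1 gB3q2 gB4q2 false true)) t 1 1 1 = true :=
  ⟨(T.l 2), by decide +kernel⟩

def A012R_020 :
    ∃ t, chk3 (onCell 0 67108864 0 1073741824 923417968 42949674 (corT true 1 c0B cA012R gB0q0 gB2q1 gB0q2 gB1q2 true true)) t 1 1 1 = true :=
  ⟨(T.b (T.l 2) (T.l 2)), by decide +kernel⟩

def A012R_021 :
    ∃ t, chk3 (onCell 0 67108864 0 1073741824 923417968 42949674 (corT true 1 c0B cA012R gB0q0 gB2q1 gB1q2 gB2q2 true false)) t 1 1 1 = true :=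
  ⟨(T.b (T.b (T.l 0) (T.b (T.l 816) (T.l 816))) (T.a (T.b (T.l 816) (T.b (T.l 816) (T.l 816))) (T.b (T.b (T.l 816) (T.l 816)) (T.a (T.l 816) (T.b (T.l 816) (T.c (T.l 816) (T.l 816))))))), by decide +kernel⟩

def A012R_030 :
    ∃ t, chk3 (onCell 0 67108864 0 1073741824 923417968 42949674 (corT true 1 c0B cA012R gB0q0 gB3q1 gB0q2 gB1q2 true true)) t 1 1 1 = true :=
  ⟨(T.l 2), by decide +kernel⟩

def A012R_031 :
    ∃ t, chk3 (onCell 0 67108864 0 1073741824 923417968 42949674 (corT true 1 c0B cA012R gB0q0 gB3q1 gB1q2 gB2q2 true false)) t 1 1 1 = true :=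
  ⟨(T.b (T.b (T.l 0) (T.b (T.l 816) (T.l 816))) (T.a (T.b (T.l 816) (T.b (T.l 816) (T.l 816))) (T.b (T.b (T.l 816) (T.l 816)) (T.a (T.l 816) (T.b (T.l 816) (T.c (T.l 816) (T.l 816))))))), by decide +kernel⟩

def A012R_040 :
    ∃ t, chk3 (onCell 0 67108864 0 1073741824 923417968 42949674 (corT true 1 c0B cA012R gB0q0 gB4q1 gB0q2 gB1q2 true true)) t 1 1 1 = true :=
  ⟨(T.l 2), by decide +kernel⟩

def A012R_041 :
    ∃ t, chk3 (onCell 0 67108864 0 1073741824 923417968 42949674 (corT true 1 c0B cA012R gB0q0 gB4q1 gB1q2 gB2q2 true false)) t 1 1 1 = true :=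
  ⟨(T.b (T.b (T.l 0) (T.l 64)) (T.a (T.a (T.l 816) (T.b (T.l 816) (T.l 816))) (T.b (T.l 816) (T.a (T.l 816) (T.b (T.l 816) (T.b (T.l 816) (T.l 816))))))), by decide +kernel⟩

def A012R_120 :
    ∃ t, chk3 (onCell 0 67108864 0 1073741824 923417968 42949674 (corT true 1 c0B cA012R gB1q0 gB2q1 gB0q2 gB1q2 true true)) t 1 1 1 = true :=
  ⟨(T.b (T.b (T.l 1) (T.a (T.l 816) (T.b (T.l 816) (T.a (T.l 816) (T.l 816))))) (T.b (T.a (T.l 816) (T.b (T.a (T.l 816) (T.b (T.l 816) (T.l 2))) (T.l 2))) (T.l 2))), by decide +kernel⟩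

def A012R_121 :
    ∃ t, chk3 (onCell 0 67108864 0 1073741824 923417968 42949674 (corT true 1 c0B cA012R gB1q0 gB2q1 gB1q2 gB2q2 true false)) t 1 1 1 = true :=
  ⟨(T.b (T.l 1) (T.a (T.l 816) (T.a (T.l 816) (T.b (T.l 816) (T.l 816))))), by decide +kernel⟩

def A012R_130 :
    ∃ t, chk3 (onCell 0 67108864 0 1073741824 923417968 42949674 (corT true 1 c0B cA012R gB1q0 gB3q1 gB0q2 gB1q2 true true)) t 1 1 1 = true :=
  ⟨(T.b (T.b (T.a (T.l 0) (T.l 0)) (T.a (T.l 0) (T.b (T.l 0) (T.a (T.l 816) (T.l 816))))) (T.b (T.a (T.l 816) (T.l 2)) (T.l 2))), by decide +kernel⟩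

def A012R_131 :
    ∃ t, chk3 (onCell 0 67108864 0 1073741824 923417968 42949674 (corT true 1 c0B cA012R gB1q0 gB3q1 gB1q2 gB2q2 true false)) t 1 1 1 = true :=
  ⟨(T.a (T.l 0) (T.b (T.l 0) (T.a (T.l 816) (T.b (T.l 816) (T.l 816))))), by decide +kernel⟩

def A012R_140 :
    ∃ t, chk3 (onCell 0 67108864 0 1073741824 923417968 42949674 (corT true 1 c0B cA012R gB1q0 gB4q1 gB0q2 gB1q2 true true)) t 1 1 1 = true :=
  ⟨(T.b (T.a (T.l 0) (T.b (T.l 0) (T.l 2))) (T.l 2)), by decide +kernel⟩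

def A012R_141 :
    ∃ t, chk3 (onCell 0 67108864 0 1073741824 923417968 42949674 (corT true 1 c0B cA012R gB1q0 gB4q1 gB1q2 gB2q2 true false)) t 1 1 1 = true :=
  ⟨(T.a (T.l 0) (T.b (T.l 0) (T.a (T.l 816) (T.b (T.l 816) (T.l 816))))), by decide +kernel⟩

def A022E_000 :
    ∃ t, chk3 (onCell 0 67108864 0 1073741824 923417968 42949674 (corT true 1 c0B cA022E gB0q0 gB0q2 gB0q2 gB1q2 true true)) t 1 1 1 = true :=
  ⟨(T.l 2), by decide +kernel⟩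

def A022E_001 :
    ∃ t, chk3 (onCell 0 67108864 0 1073741824 923417968 42949674 (corT true 1 c0B cA022E gB0q0 gB0q2 gB1q2 gB2q2 true false)) t 1 1 1 = true :=
  ⟨(T.b (T.b (T.a (T.a (T.c (T.a (T.l 204) (T.l 204)) (T.b (T.c (T.l 220) (T.a (T.l 204) (T.l 204))) (T.l 204))) (T.a (T.b (T.c (T.l 204) (T.b (T.l 204) (T.l 204))) (T.l 204)) (T.b (T.a (T.c (T.l 204) (T.l 204)) (T.b (T.c (T.l 204) (T.b (T.l 204) (T.l 204))) (T.l 204))) (T.l 204)))) (T.a (T.a (T.b (T.a (T.b (T.c (T.b (T.l 204) (T.l 204)) (T.b (T.l 204) (T.l 204))) (T.l 220)) (T.b (T.c (T.b (T.l 204) (T.l 204)) (T.b (T.l 204) (T.l 204))) (T.b (T.l 204) (T.l 204)))) (T.a (T.l 204) (T.b (T.l 204) (T.l 204)))) (T.b (T.b (T.a (T.c (T.l 204) (T.l 204)) (T.c (T.l 204) (T.l 204))) (T.a (T.l 220) (T.l 204))) (T.b (T.b (T.l 204) (T.l 204)) (T.l 204)))) (T.b (T.a (T.b (T.a (T.c (T.l 204) (T.l 204))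 (T.c (T.l 204) (T.l 204))) (T.c (T.l 204) (T.l 204))) (T.a (T.b (T.c (T.l 204) (T.l 204)) (T.l 204)) (T.b (T.c (T.l 204) (T.l 204)) (T.b (T.l 204) (T.l 204))))) (T.a (T.b (T.b (T.l 204) (T.l 204)) (T.l 204)) (T.b (T.b (T.l 204) (T.l 204)) (T.l 204)))))) (T.a (T.a (T.b (T.l 204) (T.l 0)) (T.b (T.l 204) (T.l 0))) (T.a (T.b (T.a (T.l 204) (T.b (T.l 204) (T.l 204))) (T.l 204)) (T.b (T.a (T.b (T.l 204) (T.l 204)) (T.b (T.l 204) (T.l 204))) (T.a (T.l 0) (T.l 204)))))) (T.a (T.b (T.l 0) (T.c (T.b (T.l 0) (T.l 816)) (T.l 0))) (T.b (T.a (T.l 0) (T.b (T.b (T.l 204) (T.l 0)) (T.l 0))) (T.a (T.b (T.l 0) (T.l 816)) (T.b (T.l 0) (T.c (T.l 816) (T.l 816))))))), by decide +kernel⟩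

def A022E_010 :
    ∃ t, chk3 (onCell 0 67108864 0 1073741824 923417968 42949674 (corT true 1 c0B cA022E gB0q0 gB1q2 gB0q2 gB1q2 true true)) t 1 1 1 = true :=
  ⟨(T.l 2), by decide +kernel⟩

def A022E_011 :
    ∃ t, chk3 (onCell 0 67108864 0 1073741824 923417968 42949674 (corT true 1 c0B cA022E gB0q0 gB1q2 gB1q2 gB2q2 true false)) t 1 1 1 = true :=
  ⟨(T.a (T.b (T.b (T.a (T.c (T.l 204) (T.l 204)) (T.b (T.l 204) (T.l 204))) (T.b (T.l 204) (T.l 204))) (T.b (T.l 0) (T.a (T.l 0) (T.l 0)))) (T.a (T.b (T.b (T.c (T.l 204) (T.l 204)) (T.l 204)) (T.b (T.l 0) (T.b (T.l 0) (T.l 816)))) (T.b (T.b (T.b (T.a (T.l 204) (T.c (T.l 204) (T.l 204))) (T.l 204)) (T.l 204)) (T.b (T.l 0) (T.a (T.l 0) (T.b (T.l 0) (T.l 816))))))), by decide +kernel⟩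

def A022E_110 :
    ∃ t, chk3 (onCell 0 67108864 0 1073741824 923417968 42949674 (corT true 1 c0B cA022E gB1q0 gB1q2 gB0q2 gB1q2 true true)) t 1 1 1 = true :=
  ⟨(T.l 2), by decide +kernel⟩

def A022E_111 :
    ∃ t, chk3 (onCell 0 67108864 0 1073741824 923417968 42949674 (corT true 1 c0B cA022E gB1q0 gB1q2 gB1q2 gB2q2 true false)) t 1 1 1 = true :=
  ⟨(T.a (T.b (T.b (T.b (T.a (T.c (T.l 204) (T.l 204)) (T.l 204)) (T.l 204)) (T.l 0)) (T.l 0)) (T.a (T.b (T.b (T.c (T.l 204) (T.l 204)) (T.l 204)) (T.l 0)) (T.b (T.b (T.b (T.a (T.l 204) (T.c (T.l 204) (T.l 204))) (T.l 204)) (T.l 204)) (T.b (T.l 0) (T.l 0))))), by decide +kernel⟩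

def A022L_003 :
    ∃ t, chk3 (onCell 0 67108864 0 1073741824 923417968 42949674 (corX 1 c0B cA022L tA022L gB0q0 gB0q2 gB3q2 gB4q2 gB4q2 false true)) t 1 1 1 = true :=
  ⟨(T.b (T.b (T.a (T.a (T.b (T.l 207) (T.l 207)) (T.a (T.l 207) (T.b (T.a (T.l 207) (T.b (T.l 204) (T.l 207))) (T.l 207)))) (T.a (T.a (T.b (T.a (T.b (T.l 204) (T.l 204)) (T.b (T.l 204) (T.l 204))) (T.a (T.l 207) (T.b (T.l 204) (T.l 204)))) (T.b (T.a (T.b (T.l 204) (T.l 204)) (T.b (T.l 204) (T.l 204))) (T.b (T.b (T.l 204) (T.l 204)) (T.b (T.l 204) (T.l 204))))) (T.b (T.a (T.b (T.b (T.l 204) (T.l 204)) (T.b (T.l 204) (T.l 204))) (T.b (T.b (T.l 204) (T.l 204)) (T.b (T.l 204) (T.l 204)))) (T.a (T.b (T.b (T.l 204) (T.l 204)) (T.b (T.l 204) (T.l 204))) (T.b (T.b (T.l 204) (T.l 204)) (T.b (T.l 204) (T.l 204))))))) (T.a (T.a (T.b (T.l 207) (T.l 207)) (T.b (T.l 207) (T.l 207))) (T.b (T.a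 (T.a (T.l 207) (T.b (T.b (T.l 204) (T.l 204)) (T.b (T.l 204) (T.l 207)))) (T.a (T.b (T.b (T.l 204) (T.l 204)) (T.b (T.l 204) (T.l 204))) (T.b (T.b (T.l 204) (T.l 204)) (T.b (T.l 204) (T.l 204))))) (T.a (T.l 207) (T.b (T.a (T.b (T.l 204) (T.l 204)) (T.b (T.l 204) (T.l 220))) (T.a (T.l 207) (T.b (T.l 220) (T.l 204)))))))) (T.b (T.a (T.a (T.b (T.l 207) (T.l 207)) (T.b (T.l 207) (T.l 207))) (T.a (T.b (T.l 207) (T.l 207)) (T.b (T.b (T.a (T.l 207) (T.b (T.l 220) (T.l 207))) (T.l 207)) (T.l 207)))) (T.l 2))), by decide +kernel⟩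

def A022L_013 :
    ∃ t, chk3 (onCell 0 67108864 0 1073741824 923417968 42949674 (corT true 1 c0B cA022L gB0q0 gB1q2 gB3q2 gB4q2 false true)) t 1 1 1 = true :=
  ⟨(T.b (T.b (T.a (T.l 0) (T.a (T.l 204) (T.b (T.l 204) (T.l 204)))) (T.l 0)) (T.l 2)), by decide +kernel⟩

def A022L_113 :
    ∃ t, chk3 (onCell 0 67108864 0 1073741824 923417968 42949674 (corT true 1 c0B cA022L gB1q0 gB1q2 gB3q2 gB4q2 false true)) t 1 1 1 = true :=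
  ⟨(T.b (T.b (T.a (T.l 0) (T.a (T.l 0) (T.l 204))) (T.l 0)) (T.l 2)), by decide +kernel⟩

def A022R_040 :
    ∃ t, chk3 (onCell 0 67108864 0 1073741824 923417968 42949674 (corT true 1 c0B cA022R gB0q0 gB4q2 gB0q2 gB1q2 true true)) t 1 1 1 = true :=
  ⟨(T.l 2), by decide +kernel⟩

def A022R_041 :
    ∃ t, chk3 (onCell 0 67108864 0 1073741824 923417968 42949674 (corT true 1 c0B cA022R gB0q0 gB4q2 gB1q2 gB2q2 true false)) t 1 1 1 = true :=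
  ⟨(T.a (T.b (T.l 0) (T.b (T.l 816) (T.l 816))) (T.b (T.l 0) (T.a (T.l 816) (T.b (T.l 816) (T.l 816))))), by decide +kernel⟩

def A022R_140 :
    ∃ t, chk3 (onCell 0 67108864 0 1073741824 923417968 42949674 (corT true 1 c0B cA022R gB1q0 gB4q2 gB0q2 gB1q2 true true)) t 1 1 1 = true :=
  ⟨(T.l 2), by decide +kernel⟩

def A022R_141 :
    ∃ t, chk3 (onCell 0 67108864 0 1073741824 923417968 42949674 (corT true 1 c0B cA022R gB1q0 gB4q2 gB1q2 gB2q2 true false)) t 1 1 1 = true :=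
  ⟨(T.a (T.l 0) (T.b (T.l 0) (T.b (T.l 816) (T.a (T.l 816) (T.l 816))))), by decide +kernel⟩

def A101E_000 :
    ∃ t, chk3 (onCell 0 67108864 0 1073741824 923417968 42949674 (corT true 1 c0B cA101E gB0q1 gB0q0 gB0q1 gB1q1 true false)) t 1 1 1 = true :=
  ⟨(T.l 1), by decide +kernel⟩

def A101E_010 :
    ∃ t, chk3 (onCell 0 67108864 0 1073741824 923417968 42949674 (corT true 1 c0B cA101E gB0q1 gB1q0 gB0q1 gB1q1 true false)) t 1 1 1 = true :=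
  ⟨(T.l 1), by decide +kernel⟩

def A101R_001 :
    ∃ t, chk3 (onCell 0 67108864 0 1073741824 923417968 42949674 (corT true 1 c0B cA101R gB0q1 gB0q0 gB1q1 gB2q1 false true)) t 1 1 1 = true :=
  ⟨(T.l 2), by decide +kernel⟩

def A101R_002 :
    ∃ t, chk3 (onCell 0 67108864 0 1073741824 923417968 42949674 (corT true 1 c0B cA101R gB0q1 gB0q0 gB2q1 gB3q1 true true)) t 1 1 1 = true :=
  ⟨(T.l 2), by decide +kernel⟩

def A101R_003 :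
    ∃ t, chk3 (onCell 0 67108864 0 1073741824 923417968 42949674 (corT true 1 c0B cA101R gB0q1 gB0q0 gB3q1 gB4q1 true true)) t 1 1 1 = true :=
  ⟨(T.l 2), by decide +kernel⟩

def A101R_011 :
    ∃ t, chk3 (onCell 0 67108864 0 1073741824 923417968 42949674 (corT true 1 c0B cA101R gB0q1 gB1q0 gB1q1 gB2q1 false true)) t 1 1 1 = true :=
  ⟨(T.l 2), by decide +kernel⟩

def A101R_012 :
    ∃ t, chk3 (onCell 0 67108864 0 1073741824 923417968 42949674 (corT true 1 c0B cA101R gB0q1 gB1q0 gB2q1 gB3q1 true true)) t 1 1 1 = true :=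
  ⟨(T.l 2), by decide +kernel⟩

def A101R_013 :
    ∃ t, chk3 (onCell 0 67108864 0 1073741824 923417968 42949674 (corT true 1 c0B cA101R gB0q1 gB1q0 gB3q1 gB4q1 true true)) t 1 1 1 = true :=
  ⟨(T.l 2), by decide +kernel⟩

def A102E_000_1_2_1 :
    ∃ t, chk3 (onCell 0 67108864 0 1073741824 923417968 42949674 (corX 1 c0B cA102E tA102E gB0q1 gB0q0 gB0q2 gB1q2 gB0q2 true true)) t 1 2 1 = true :=
  ⟨(T.b (T.l 2) (T.b (T.a (T.b (T.l 2) (T.a (T.b (T.l 2) (T.a (T.c (T.l 819) (T.l 819)) (T.l 2))) (T.l 2))) (T.l 2)) (T.a (T.b (T.a (T.a (T.c (T.l 819) (T.l 819)) (T.b (T.l 3) (T.l 3))) (T.a (T.l 7) (T.l 3))) (T.a (T.a (T.c (T.l 819) (T.l 819)) (T.b (T.l 819) (T.l 819))) (T.a (T.b (T.l 3) (T.l 3)) (T.l 3)))) (T.a (T.a (T.b (T.l 3) (T.l 3)) (T.b (T.b (T.l 3) (T.l 3)) (T.l 19))) (T.b (T.b (T.b (T.l 2) (T.a (T.a (T.l 207) (T.c (T.l 220) (T.l 204))) (T.a (T.a (T.c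 (T.l 204) (T.l 204)) (T.c (T.l 204) (T.l 204))) (T.a (T.c (T.l 204) (T.l 204)) (T.c (T.l 204) (T.l 204)))))) (T.a (T.a (T.l 207) (T.b (T.a (T.l 204) (T.l 204)) (T.a (T.l 207) (T.l 220)))) (T.a (T.b (T.a (T.l 204) (T.c (T.l 204) (T.l 204))) (T.a (T.c (T.l 204) (T.l 204)) (T.c (T.l 204) (T.l 204)))) (T.b (T.a (T.c (T.l 204) (T.l 204)) (T.c (T.l 220) (T.l 204))) (T.a (T.c (T.l 204) (T.l 204)) (T.c (T.l 220) (T.l 204))))))) (T.a (T.b (T.l 3) (T.l 3)) (T.b (T.a (T.b (T.a (T.c (T.l 204) (T.l 204)) (T.c (T.l 204) (T.l 204))) (T.a (T.l 207) (T.c (T.l 204) (T.l 204)))) (T.a (T.b (T.c (T.l 204) (T.l 204)) (T.c (T.l 204) (T.l 204))) (T.b (T.c (T.c (T.l 204) (T.l 204)) (T.l 220)) (T.b (T.c (T.l 204) (T.l 204)) (T.l 220))))) (T.a (T.l 207) (T.b (T.a (T.c (T.c (T.l 204) (T.l 204)) (T.c (T.l 204) (T.l 204))) (T.c (T.c (T.l 204) (T.l 204)) (T.c (T.l 204) (T.l 204))))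 (T.a (T.b (T.c (T.l 204) (T.l 204)) (T.l 207)) (T.c (T.b (T.l 204) (T.l 220)) (T.b (T.l 204) (T.l 204))))))))))))), by decide +kernel⟩

def A102E_000_1_3_1 :
    ∃ t, chk3 (onCell 0 67108864 0 1073741824 923417968 42949674 (corX 1 c0B cA102E tA102E gB0q1 gB0q0 gB0q2 gB1q2 gB0q2 true true)) t 1 3 1 = true :=
  ⟨(T.b (T.b (T.b (T.b (T.b (T.a (T.a (T.a (T.l 819) (T.l 819)) (T.c (T.l 3) (T.l 3))) (T.a (T.l 3) (T.a (T.l 3) (T.a (T.l 207) (T.b (T.a (T.l 207) (T.b (T.c (T.l 204) (T.l 204)) (T.l 207))) (T.l 207)))))) (T.a (T.l 1) (T.a (T.l 3) (T.c (T.l 3) (T.l 3))))) (T.l 1)) (T.l 1)) (T.l 1)) (T.l 1)), by decide +kernel⟩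

theorem A102E_000 :
    ∃ t, chk3 (onCell 0 67108864 0 1073741824 923417968 42949674 (corX 1 c0B cA102E tA102E gB0q1 gB0q0 gB0q2 gB1q2 gB0q2 true true)) t 1 1 1 = true :=
  ex3_b A102E_000_1_2_1 A102E_000_1_3_1

def A102E_001 :
    ∃ t, chk3 (onCell 0 67108864 0 1073741824 923417968 42949674 (corT true 1 c0B cA102E gB0q1 gB0q0 gB1q2 gB2q2 true false)) t 1 1 1 = true :=
  ⟨(T.b (T.b (T.a (T.b (T.a (T.b (T.l 204) (T.l 204)) (T.b (T.l 204) (T.l 204))) (T.a (T.b (T.l 204) (T.l 204)) (T.b (T.l 204) (T.l 204)))) (T.a (T.b (T.b (T.l 204) (T.l 204)) (T.b (T.l 220) (T.b (T.l 204) (T.l 204)))) (T.b (T.a (T.b (T.l 204) (T.l 204)) (T.b (T.b (T.l 204) (T.l 204)) (T.l 204))) (T.b (T.b (T.l 204) (T.l 204)) (T.b (T.l 204) (T.l 204)))))) (T.b (T.a (T.b (T.a (T.l 0) (T.b (T.l 204) (T.l 204))) (T.a (T.c (T.l 0) (T.b (T.l 0) (T.l 0))) (T.b (T.l 0) (T.l 0)))) (T.b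 (T.a (T.b (T.l 204) (T.l 204)) (T.c (T.b (T.l 204) (T.l 204)) (T.l 204))) (T.a (T.c (T.b (T.l 204) (T.l 204)) (T.l 0)) (T.b (T.c (T.l 204) (T.l 204)) (T.c (T.l 204) (T.l 204)))))) (T.b (T.b (T.a (T.b (T.a (T.b (T.c (T.l 0) (T.a (T.c (T.l 816) (T.l 816)) (T.l 816))) (T.l 1)) (T.c (T.l 0) (T.l 0))) (T.l 1)) (T.a (T.c (T.l 0) (T.a (T.b (T.l 0) (T.l 1)) (T.l 0))) (T.c (T.a (T.l 204) (T.l 204)) (T.a (T.l 0) (T.l 204))))) (T.l 1)) (T.l 1)))) (T.l 1)), by decide +kernel⟩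

def A102E_010_1_2_1 :
    ∃ t, chk3 (onCell 0 67108864 0 1073741824 923417968 42949674 (corT true 1 c0B cA102E gB0q1 gB1q0 gB0q2 gB1q2 true true)) t 1 2 1 = true :=
  ⟨(T.l 2), by decide +kernel⟩

def A102E_010_1_12_1 :
    ∃ t, chk3 (onCell 0 67108864 0 1073741824 923417968 42949674 (corT true 1 c0B cA102E gB0q1 gB1q0 gB0q2 gB1q2 true true)) t 1 12 1 = true :=
  ⟨(T.b (T.l 2) (T.a (T.l 0) (T.a (T.l 2) (T.l 2)))), by decide +kernel⟩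

def A102E_010_1_13_1 :
    ∃ t, chk3 (onCell 0 67108864 0 1073741824 923417968 42949674 (corT true 1 c0B cA102E gB0q1 gB1q0 gB0q2 gB1q2 true true)) t 1 13 1 = true :=
  ⟨(T.b (T.a (T.b (T.l 0) (T.c (T.l 816) (T.a (T.l 816) (T.l 816)))) (T.a (T.c (T.l 816) (T.l 944)) (T.a (T.b (T.l 816) (T.l 944)) (T.b (T.l 816) (T.c (T.l 944) (T.l 944)))))) (T.b (T.b (T.a (T.c (T.a (T.l 816) (T.l 944)) (T.a (T.a (T.l 816) (T.l 944)) (T.c (T.l 944) (T.a (T.l 944) (T.l 944))))) (T.a (T.c (T.l 944) (T.c (T.l 944) (T.a (T.l 944) (T.l 944)))) (T.a (T.c (T.l 944) (T.c (T.l 944) (T.l 944))) (T.c (T.a (T.l 944) (T.l 944)) (T.a (T.l 944) (T.c (T.l 944) (T.l 944))))))) (T.b (T.a (T.a (T.l 1) (T.a (T.l 1) (T.a (T.l 1) (T.b (T.c (T.l 944) (T.c (T.l 944) (T.b (T.l 944) (T.l 1)))) (T.l 1))))) (T.b (T.a (T.b (T.c (T.a (T.l 944) (T.l 944)) (T.c (T.l 944) (T.a (T.l 944) (T.l 944))))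 (T.a (T.l 1) (T.a (T.l 1) (T.c (T.l 944) (T.c (T.l 944) (T.b (T.l 944) (T.l 1))))))) (T.b (T.a (T.c (T.c (T.l 816) (T.l 944)) (T.c (T.l 944) (T.a (T.l 944) (T.l 944)))) (T.c (T.a (T.l 944) (T.l 944)) (T.a (T.l 944) (T.c (T.l 944) (T.l 944))))) (T.a (T.b (T.c (T.c (T.l 944) (T.l 944)) (T.c (T.a (T.l 944) (T.l 944)) (T.a (T.l 944) (T.l 944)))) (T.a (T.l 1) (T.c (T.l 944) (T.c (T.l 944) (T.c (T.l 944) (T.l 944)))))) (T.b (T.a (T.c (T.l 944) (T.c (T.l 944) (T.l 944))) (T.c (T.l 944) (T.c (T.l 944) (T.l 944)))) (T.a (T.c (T.l 944) (T.c (T.l 944) (T.l 944))) (T.c (T.c (T.l 944) (T.l 944)) (T.c (T.l 944) (T.c (T.l 944) (T.l 944))))))))) (T.a (T.l 1) (T.a (T.l 1) (T.a (T.l 1) (T.b (T.b (T.b (T.a (T.c (T.l 944) (T.c (T.l 944) (T.l 944))) (T.c (T.l 944) (T.c (T.l 944) (T.l 944)))) (T.l 1)) (T.l 1)) (T.l 1))))))) (T.l 1))) (T.l 1))), by decide +kernel⟩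

def A102E_010_1_7_1 :
    ∃ t, chk3 (onCell 0 67108864 0 1073741824 923417968 42949674 (corT true 1 c0B cA102E gB0q1 gB1q0 gB0q2 gB1q2 true true)) t 1 7 1 = true :=
  ⟨(T.l 1), by decide +kernel⟩

theorem A102E_010_1_6_1 :
    ∃ t, chk3 (onCell 0 67108864 0 1073741824 923417968 42949674 (corT true 1 c0B cA102E gB0q1 gB1q0 gB0q2 gB1q2 true true)) t 1 6 1 = true :=
  ex3_b A102E_010_1_12_1 A102E_010_1_13_1
theorem A102E_010_1_3_1 :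
    ∃ t, chk3 (onCell 0 67108864 0 1073741824 923417968 42949674 (corT true 1 c0B cA102E gB0q1 gB1q0 gB0q2 gB1q2 true true)) t 1 3 1 = true :=
  ex3_b A102E_010_1_6_1 A102E_010_1_7_1
theorem A102E_010 :
    ∃ t, chk3 (onCell 0 67108864 0 1073741824 923417968 42949674 (corT true 1 c0B cA102E gB0q1 gB1q0 gB0q2 gB1q2 true true)) t 1 1 1 = true :=
  ex3_b A102E_010_1_2_1 A102E_010_1_3_1

def A102E_011 :
    ∃ t, chk3 (onCell 0 67108864 0 1073741824 923417968 42949674 (corT true 1 c0B cA102E gB0q1 gB1q0 gB1q2 gB2q2 true false)) t 1 1 1 = true :=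
  ⟨(T.b (T.a (T.b (T.l 0) (T.l 0)) (T.b (T.a (T.l 0) (T.b (T.l 204) (T.l 0))) (T.a (T.l 0) (T.l 0)))) (T.b (T.b (T.a (T.l 0) (T.a (T.l 0) (T.a (T.l 0) (T.b (T.l 0) (T.l 0))))) (T.b (T.b (T.a (T.l 816) (T.a (T.l 816) (T.c (T.l 0) (T.l 816)))) (T.l 1)) (T.l 1))) (T.l 1))), by decide +kernel⟩

def A102R_003 :
    ∃ t, chk3 (onCell 0 67108864 0 1073741824 923417968 42949674 (corT true 1 c0B cA102R gB0q1 gB0q0 gB3q2 gB4q2 false true)) t 1 1 1 = true :=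
  ⟨(T.l 2), by decide +kernel⟩

def A102R_013 :
    ∃ t, chk3 (onCell 0 67108864 0 1073741824 923417968 42949674 (corT true 1 c0B cA102R gB0q1 gB1q0 gB3q2 gB4q2 false true)) t 1 1 1 = true :=
  ⟨(T.l 2), by decide +kernel⟩

def A202E_000 :
    ∃ t, chk3 (onCell 0 67108864 0 1073741824 923417968 42949674 (corT true 1 c0B cA202E gB0q2 gB0q0 gB0q2 gB1q2 true true)) t 1 1 1 = true :=
  ⟨(T.l 2), by decide +kernel⟩

def A202E_001 :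
    ∃ t, chk3 (onCell 0 67108864 0 1073741824 923417968 42949674 (corT true 1 c0B cA202E gB0q2 gB0q0 gB1q2 gB2q2 true false)) t 1 1 1 = true :=
  ⟨(T.b (T.a (T.b (T.b (T.a (T.l 204) (T.l 204)) (T.l 0)) (T.b (T.l 0) (T.l 0))) (T.b (T.a (T.b (T.l 204) (T.l 0)) (T.b (T.c (T.l 220) (T.l 204)) (T.l 0))) (T.a (T.l 0) (T.b (T.l 0) (T.b (T.l 0) (T.l 816)))))) (T.b (T.a (T.a (T.b (T.l 0) (T.l 816)) (T.b (T.l 0) (T.l 816))) (T.a (T.b (T.l 816) (T.a (T.l 816) (T.b (T.l 816) (T.l 816)))) (T.b (T.a (T.l 0) (T.l 816)) (T.a (T.b (T.l 816) (T.l 816)) (T.b (T.l 816) (T.l 816)))))) (T.b (T.a (T.a (T.c (T.l 816) (T.l 816)) (T.c (T.l 816) (T.l 816))) (T.a (T.a (T.a (T.l 816) (T.b (T.l 816) (T.l 816))) (T.b (T.b (T.l 816) (T.l 816)) (T.b (T.l 816) (T.l 816)))) (T.a (T.b (T.l 816) (T.b (T.l 816) (T.l 816))) (T.b (T.l 816) (T.b (T.l 816) (T.l 816)))))) (T.a (T.a (T.c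 (T.a (T.l 816) (T.l 816)) (T.a (T.b (T.l 816) (T.l 816)) (T.b (T.l 816) (T.l 816)))) (T.a (T.c (T.l 816) (T.b (T.l 816) (T.l 816))) (T.a (T.c (T.l 816) (T.l 816)) (T.b (T.l 816) (T.c (T.l 816) (T.b (T.l 816) (T.l 816))))))) (T.a (T.a (T.a (T.b (T.b (T.l 816) (T.l 816)) (T.c (T.b (T.l 816) (T.l 816)) (T.b (T.l 816) (T.l 816)))) (T.b (T.b (T.l 816) (T.l 816)) (T.c (T.b (T.l 816) (T.l 816)) (T.b (T.l 816) (T.l 816))))) (T.b (T.a (T.b (T.l 816) (T.l 816)) (T.l 816)) (T.a (T.c (T.l 816) (T.b (T.l 816) (T.l 816))) (T.c (T.l 816) (T.l 816))))) (T.a (T.b (T.a (T.l 816) (T.l 816)) (T.a (T.c (T.l 816) (T.l 816)) (T.c (T.l 816) (T.l 816)))) (T.a (T.b (T.l 816) (T.c (T.l 816) (T.l 816))) (T.b (T.b (T.l 816) (T.l 816)) (T.c (T.l 816) (T.l 816)))))))))), by decide +kernel⟩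

def A202E_010 :
    ∃ t, chk3 (onCell 0 67108864 0 1073741824 923417968 42949674 (corT true 1 c0B cA202E gB0q2 gB1q0 gB0q2 gB1q2 true true)) t 1 1 1 = true :=
  ⟨(T.l 2), by decide +kernel⟩

def A202E_011 :
    ∃ t, chk3 (onCell 0 67108864 0 1073741824 923417968 42949674 (corT true 1 c0B cA202E gB0q2 gB1q0 gB1q2 gB2q2 true false)) t 1 1 1 = true :=
  ⟨(T.b (T.a (T.l 0) (T.a (T.l 0) (T.b (T.b (T.l 0) (T.l 0)) (T.b (T.l 0) (T.l 0))))) (T.b (T.a (T.b (T.l 0) (T.l 0)) (T.a (T.b (T.l 0) (T.a (T.l 816) (T.l 816))) (T.b (T.b (T.l 0) (T.l 0)) (T.a (T.l 816) (T.l 816))))) (T.a (T.a (T.b (T.l 816) (T.c (T.b (T.l 816) (T.l 816)) (T.b (T.l 816) (T.a (T.l 816) (T.l 816))))) (T.a (T.b (T.l 816) (T.c (T.l 816) (T.b (T.l 816) (T.l 816)))) (T.b (T.l 816) (T.b (T.l 816) (T.b (T.l 816) (T.a (T.c (T.l 816) (T.l 816)) (T.c (T.l 816) (T.l 816)))))))) (T.a (T.b (T.a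 (T.b (T.l 816) (T.l 816)) (T.b (T.l 816) (T.l 816))) (T.a (T.b (T.a (T.l 816) (T.l 816)) (T.a (T.b (T.l 816) (T.c (T.l 816) (T.l 816))) (T.b (T.l 816) (T.c (T.l 816) (T.l 816))))) (T.b (T.b (T.l 816) (T.l 816)) (T.a (T.c (T.l 816) (T.b (T.l 816) (T.l 816))) (T.c (T.l 816) (T.l 816)))))) (T.b (T.a (T.b (T.l 816) (T.l 816)) (T.b (T.l 816) (T.l 816))) (T.a (T.b (T.b (T.l 816) (T.l 816)) (T.a (T.c (T.l 816) (T.l 816)) (T.c (T.l 816) (T.l 816)))) (T.b (T.c (T.l 816) (T.l 816)) (T.a (T.c (T.l 816) (T.l 816)) (T.c (T.l 816) (T.l 816)))))))))), by decide +kernel⟩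

def A202E_110 :
    ∃ t, chk3 (onCell 0 67108864 0 1073741824 923417968 42949674 (corT true 1 c0B cA202E gB1q2 gB1q0 gB0q2 gB1q2 true true)) t 1 1 1 = true :=
  ⟨(T.l 2), by decide +kernel⟩

def A202E_111 :
    ∃ t, chk3 (onCell 0 67108864 0 1073741824 923417968 42949674 (corT true 1 c0B cA202E gB1q2 gB1q0 gB1q2 gB2q2 true false)) t 1 1 1 = true :=
  ⟨(T.a (T.b (T.l 0) (T.b (T.l 0) (T.b (T.l 816) (T.a (T.c (T.l 816) (T.l 816)) (T.b (T.l 816) (T.l 816)))))) (T.a (T.b (T.l 0) (T.b (T.l 816) (T.c (T.l 816) (T.l 816)))) (T.b (T.b (T.l 0) (T.l 0)) (T.b (T.l 816) (T.b (T.l 816) (T.a (T.l 816) (T.c (T.b (T.l 816) (T.l 816)) (T.l 816)))))))), by decide +kernel⟩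

def A202R_003 :
    ∃ t, chk3 (onCell 0 67108864 0 1073741824 923417968 42949674 (corX 1 c0B cA202R tA202R gB0q2 gB0q0 gB3q2 gB4q2 gB4q2 false true)) t 1 1 1 = true :=
  ⟨(T.b (T.b (T.l 2) (T.a (T.a (T.a (T.l 819) (T.l 819)) (T.a (T.l 819) (T.l 883))) (T.a (T.b (T.b (T.l 2) (T.l 819)) (T.b (T.l 819) (T.l 819))) (T.b (T.l 883) (T.b (T.l 819) (T.a (T.l 819) (T.b (T.l 819) (T.c (T.l 816) (T.l 816))))))))) (T.b (T.a (T.a (T.a (T.l 819) (T.l 819)) (T.a (T.l 883) (T.l 883))) (T.b (T.a (T.b (T.l 819) (T.l 819)) (T.b (T.a (T.l 819) (T.b (T.l 816) (T.c (T.l 816) (T.l 816)))) (T.a (T.b (T.l 816) (T.l 880)) (T.b (T.l 880) (T.l 816))))) (T.a (T.a (T.l 819) (T.b (T.b (T.l 819) (T.l 816)) (T.b (T.l 816) (T.l 816)))) (T.a (T.b (T.b (T.l 816) (T.l 816)) (T.b (T.l 816) (T.l 816))) (T.b (T.b (T.l 816) (T.l 816)) (T.b (T.l 816) (T.l 816))))))) (T.a (T.a (T.a (T.b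 (T.l 819) (T.l 819)) (T.b (T.l 819) (T.l 819))) (T.a (T.b (T.l 819) (T.l 819)) (T.b (T.l 819) (T.a (T.l 819) (T.b (T.l 819) (T.l 816)))))) (T.a (T.a (T.b (T.a (T.l 819) (T.b (T.l 816) (T.l 816))) (T.a (T.b (T.l 816) (T.l 816)) (T.b (T.l 816) (T.l 816)))) (T.b (T.b (T.b (T.l 816) (T.l 816)) (T.b (T.l 816) (T.l 816))) (T.a (T.b (T.l 816) (T.l 816)) (T.b (T.l 816) (T.l 816))))) (T.b (T.a (T.b (T.b (T.l 816) (T.l 816)) (T.b (T.l 816) (T.l 816))) (T.b (T.b (T.l 816) (T.l 816)) (T.b (T.l 816) (T.l 816)))) (T.a (T.b (T.b (T.l 816) (T.l 816)) (T.b (T.l 816) (T.l 816))) (T.b (T.b (T.l 816) (T.l 816)) (T.b (T.l 816) (T.l 816))))))))), by decide +kernel⟩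

def A202R_013 :
    ∃ t, chk3 (onCell 0 67108864 0 1073741824 923417968 42949674 (corT true 1 c0B cA202R gB0q2 gB1q0 gB3q2 gB4q2 false true)) t 1 1 1 = true :=
  ⟨(T.b (T.b (T.l 2) (T.b (T.l 2) (T.a (T.l 2) (T.a (T.l 2) (T.l 0))))) (T.b (T.a (T.l 0) (T.b (T.a (T.l 0) (T.b (T.l 0) (T.l 0))) (T.a (T.a (T.l 816) (T.l 0)) (T.b (T.l 0) (T.l 0))))) (T.b (T.a (T.l 816) (T.a (T.a (T.b (T.l 816) (T.l 816)) (T.b (T.l 816) (T.l 816))) (T.a (T.l 816) (T.l 816)))) (T.b (T.a (T.l 816) (T.a (T.a (T.l 816) (T.l 816)) (T.a (T.l 816) (T.l 816)))) (T.a (T.a (T.l 816) (T.a (T.l 816) (T.b (T.l 816) (T.l 816)))) (T.a (T.a (T.b (T.l 816) (T.l 816)) (T.b (T.l 816) (T.l 816))) (T.a (T.b (T.l 816) (T.l 816)) (T.b (T.l 816) (T.l 816))))))))), by decide +kernel⟩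

def A202R_113 :
    ∃ t, chk3 (onCell 0 67108864 0 1073741824 923417968 42949674 (corT true 1 c0B cA202R gB1q2 gB1q0 gB3q2 gB4q2 false true)) t 1 1 1 = true :=
  ⟨(T.b (T.l 2) (T.b (T.l 0) (T.a (T.l 0) (T.a (T.l 0) (T.l 816))))), by decide +kernel⟩

def B011E_000 :
    ∃ t, chk3 (onCell 0 67108864 0 1073741824 923417968 42949674 (corT true 1 c0B cB011E gB0q0 gB0q1 gB0q1 gB1q1 true false)) t 1 1 1 = true :=
  ⟨(T.l 1), by decide +kernel⟩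

def B011E_100 :
    ∃ t, chk3 (onCell 0 67108864 0 1073741824 923417968 42949674 (corT true 1 c0B cB011E gB1q0 gB0q1 gB0q1 gB1q1 true false)) t 1 1 1 = true :=
  ⟨(T.l 1), by decide +kernel⟩

def B011L_020 :
    ∃ t, chk3 (onCell 0 67108864 0 1073741824 923417968 42949674 (corT true 1 c0B cB011L gB0q0 gB2q1 gB0q1 gB1q1 true false)) t 1 1 1 = true :=
  ⟨(T.l 1), by decide +kernel⟩

def B011L_030 :
    ∃ t, chk3 (onCell 0 67108864 0 1073741824 923417968 42949674 (corT true 1 c0B cB011L gB0q0 gB3q1 gB0q1 gB1q1 true false)) t 1 1 1 = true :=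
  ⟨(T.l 1), by decide +kernel⟩

def B011L_040 :
    ∃ t, chk3 (onCell 0 67108864 0 1073741824 923417968 42949674 (corT true 1 c0B cB011L gB0q0 gB4q1 gB0q1 gB1q1 true false)) t 1 1 1 = true :=
  ⟨(T.l 1), by decide +kernel⟩

def B011L_120 :
    ∃ t, chk3 (onCell 0 67108864 0 1073741824 923417968 42949674 (corT true 1 c0B cB011L gB1q0 gB2q1 gB0q1 gB1q1 true false)) t 1 1 1 = true :=
  ⟨(T.l 1), by decide +kernel⟩

def B011L_130 :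
    ∃ t, chk3 (onCell 0 67108864 0 1073741824 923417968 42949674 (corT true 1 c0B cB011L gB1q0 gB3q1 gB0q1 gB1q1 true false)) t 1 1 1 = true :=
  ⟨(T.l 1), by decide +kernel⟩

def B011L_140 :
    ∃ t, chk3 (onCell 0 67108864 0 1073741824 923417968 42949674 (corT true 1 c0B cB011L gB1q0 gB4q1 gB0q1 gB1q1 true false)) t 1 1 1 = true :=
  ⟨(T.l 1), by decide +kernel⟩

def B011R_001 :
    ∃ t, chk3 (onCell 0 67108864 0 1073741824 923417968 42949674 (corT true 1 c0B cB011R gB0q0 gB0q1 gB1q1 gB2q1 false true)) t 1 1 1 = true :=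
  ⟨(T.b (T.b (T.b (T.b (T.l 0) (T.l 2)) (T.l 2)) (T.l 2)) (T.l 2)), by decide +kernel⟩

def B011R_002 :
    ∃ t, chk3 (onCell 0 67108864 0 1073741824 923417968 42949674 (corT true 1 c0B cB011R gB0q0 gB0q1 gB2q1 gB3q1 true true)) t 1 1 1 = true :=
  ⟨(T.b (T.b (T.b (T.b (T.l 0) (T.l 0)) (T.b (T.b (T.l 0) (T.b (T.l 0) (T.l 2))) (T.l 2))) (T.l 2)) (T.l 2)), by decide +kernel⟩

def B011R_003 :
    ∃ t, chk3 (onCell 0 67108864 0 1073741824 923417968 42949674 (corX 1 c0B cB011R tB011R gB0q0 gB0q1 gB3q1 gB4q1 gB4q1 true true)) t 1 1 1 = true :=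
  ⟨(T.b (T.a (T.b (T.l 3) (T.l 3)) (T.b (T.b (T.l 1) (T.l 3)) (T.l 3))) (T.l 2)), by decide +kernel⟩

def B011R_101 :
    ∃ t, chk3 (onCell 0 67108864 0 1073741824 923417968 42949674 (corT true 1 c0B cB011R gB1q0 gB0q1 gB1q1 gB2q1 false true)) t 1 1 1 = true :=
  ⟨(T.l 2), by decide +kernel⟩

def B011R_102 :
    ∃ t, chk3 (onCell 0 67108864 0 1073741824 923417968 42949674 (corT true 1 c0B cB011R gB1q0 gB0q1 gB2q1 gB3q1 true true)) t 1 1 1 = true :=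
  ⟨(T.l 2), by decide +kernel⟩

def B011R_103 :
    ∃ t, chk3 (onCell 0 67108864 0 1073741824 923417968 42949674 (corT true 1 c0B cB011R gB1q0 gB0q1 gB3q1 gB4q1 true true)) t 1 1 1 = true :=
  ⟨(T.b (T.l 2) (T.l 2)), by decide +kernel⟩

def B012E_000_1_2_1 :
    ∃ t, chk3 (onCell 0 67108864 0 1073741824 923417968 42949674 (corX 1 c0B cB012E tB012E gB0q0 gB0q2 gB0q1 gB1q1 gB0q1 true false)) t 1 2 1 = true :=
  ⟨(T.b (T.l 1) (T.b (T.l 1) (T.b (T.l 1) (T.b (T.l 1) (T.a (T.b (T.l 1) (T.a (T.b (T.l 1) (T.a (T.c (T.l 207) (T.l 207)) (T.l 463))) (T.c (T.l 207) (T.l 207)))) (T.a (T.c (T.l 207) (T.l 207)) (T.b (T.l 207) (T.a (T.l 207) (T.a (T.l 207) (T.b (T.l 207) (T.a (T.l 207) (T.b (T.l 207) (T.c (T.l 204) (T.l 204)))))))))))))), by decide +kernel⟩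

def B012E_000_2_6_1 :
    ∃ t, chk3 (onCell 0 67108864 0 1073741824 923417968 42949674 (corX 1 c0B cB012E tB012E gB0q0 gB0q2 gB0q1 gB1q1 gB0q1 true false)) t 2 6 1 = true :=
  ⟨(T.a (T.a (T.a (T.c (T.l 207) (T.l 207)) (T.c (T.l 207) (T.l 207))) (T.a (T.c (T.l 207) (T.l 207)) (T.b (T.l 207) (T.l 207)))) (T.a (T.b (T.c (T.l 207) (T.l 207)) (T.b (T.l 207) (T.l 207))) (T.b (T.b (T.l 207) (T.l 207)) (T.b (T.l 207) (T.l 207))))), by decide +kernel⟩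

def B012E_000_3_6_1 :
    ∃ t, chk3 (onCell 0 67108864 0 1073741824 923417968 42949674 (corX 1 c0B cB012E tB012E gB0q0 gB0q2 gB0q1 gB1q1 gB0q1 true false)) t 3 6 1 = true :=
  ⟨(T.b (T.a (T.a (T.b (T.l 207) (T.l 207)) (T.l 463)) (T.b (T.a (T.l 207) (T.b (T.a (T.l 207) (T.b (T.c (T.a (T.b (T.l 207) (T.l 204)) (T.b (T.l 460) (T.l 204))) (T.a (T.b (T.l 207) (T.l 204)) (T.b (T.l 460) (T.l 204)))) (T.c (T.a (T.l 460) (T.l 204)) (T.a (T.l 460) (T.l 204))))) (T.a (T.b (T.a (T.l 207) (T.c (T.l 204) (T.l 204))) (T.c (T.l 204) (T.l 204))) (T.b (T.a (T.c (T.l 204) (T.l 204)) (T.c (T.l 204) (T.l 204))) (T.a (T.l 204) (T.c (T.l 204) (T.l 204))))))) (T.a (T.b (T.a (T.l 207) (T.b (T.c (T.l 204) (T.l 204)) (T.c (T.l 204) (T.l 204)))) (T.a (T.b (T.l 207) (T.l 460)) (T.b (T.l 460) (T.c (T.l 204) (T.l 204))))) (T.b (T.a (T.b (T.c (T.l 204) (T.l 204)) (T.c (T.l 204)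 (T.l 204))) (T.b (T.c (T.l 204) (T.l 204)) (T.c (T.l 204) (T.l 204)))) (T.a (T.b (T.c (T.l 204) (T.l 204)) (T.l 460)) (T.b (T.c (T.l 204) (T.l 204)) (T.c (T.l 204) (T.l 204)))))))) (T.a (T.a (T.l 207) (T.b (T.a (T.l 207) (T.b (T.l 207) (T.c (T.l 204) (T.l 204)))) (T.a (T.b (T.l 207) (T.l 460)) (T.b (T.l 460) (T.c (T.l 204) (T.l 204)))))) (T.a (T.b (T.a (T.b (T.c (T.l 204) (T.l 204)) (T.c (T.l 204) (T.l 204))) (T.b (T.c (T.l 460) (T.l 460)) (T.c (T.l 204) (T.l 204)))) (T.a (T.b (T.c (T.l 204) (T.l 204)) (T.l 460)) (T.b (T.l 460) (T.l 204)))) (T.b (T.b (T.a (T.c (T.l 460) (T.l 204)) (T.c (T.l 460) (T.l 460))) (T.a (T.c (T.l 204) (T.l 204)) (T.c (T.l 204) (T.l 204)))) (T.b (T.a (T.l 460) (T.l 460)) (T.a (T.l 204) (T.l 204))))))), by decide +kernel⟩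

def B012E_000_1_7_1 :
    ∃ t, chk3 (onCell 0 67108864 0 1073741824 923417968 42949674 (corX 1 c0B cB012E tB012E gB0q0 gB0q2 gB0q1 gB1q1 gB0q1 true false)) t 1 7 1 = true :=
  ⟨(T.a (T.a (T.a (T.a (T.c (T.l 207) (T.l 207)) (T.c (T.l 207) (T.l 207))) (T.a (T.b (T.l 207) (T.l 207)) (T.b (T.l 207) (T.l 207)))) (T.a (T.b (T.b (T.l 207) (T.l 207)) (T.l 463)) (T.b (T.l 207) (T.a (T.l 207) (T.b (T.l 207) (T.b (T.l 207) (T.l 204))))))) (T.a (T.a (T.b (T.a (T.l 207) (T.b (T.b (T.l 207) (T.l 204)) (T.b (T.l 204) (T.l 204)))) (T.a (T.b (T.b (T.l 204) (T.l 204)) (T.b (T.l 204) (T.l 204))) (T.b (T.b (T.l 204) (T.l 204)) (T.b (T.l 204) (T.l 204))))) (T.b (T.b (T.a (T.b (T.l 204) (T.l 460)) (T.b (T.l 204) (T.l 204))) (T.a (T.b (T.l 204) (T.l 204)) (T.b (T.l 204) (T.l 204)))) (T.b (T.a (T.b (T.l 204) (T.l 204)) (T.b (T.l 204) (T.l 204))) (T.a (T.l 460) (T.l 204)))))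 (T.b (T.a (T.b (T.a (T.b (T.l 204) (T.l 204)) (T.b (T.l 204) (T.l 204))) (T.a (T.b (T.l 204) (T.l 204)) (T.b (T.l 204) (T.l 204)))) (T.b (T.a (T.b (T.l 204) (T.l 204)) (T.b (T.l 204) (T.l 204))) (T.a (T.b (T.l 204) (T.l 204)) (T.b (T.l 204) (T.l 204))))) (T.a (T.b (T.a (T.l 460) (T.l 460)) (T.b (T.l 460) (T.l 460))) (T.b (T.b (T.l 460) (T.l 460)) (T.b (T.l 460) (T.l 204))))))), by decide +kernel⟩

theorem B012E_000_1_6_1 :
    ∃ t, chk3 (onCell 0 67108864 0 1073741824 923417968 42949674 (corX 1 c0B cB012E tB012E gB0q0 gB0q2 gB0q1 gB1q1 gB0q1 true false)) t 1 6 1 = true :=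
  ex3_a B012E_000_2_6_1 B012E_000_3_6_1
theorem B012E_000_1_3_1 :
    ∃ t, chk3 (onCell 0 67108864 0 1073741824 923417968 42949674 (corX 1 c0B cB012E tB012E gB0q0 gB0q2 gB0q1 gB1q1 gB0q1 true false)) t 1 3 1 = true :=
  ex3_b B012E_000_1_6_1 B012E_000_1_7_1
theorem B012E_000 :
    ∃ t, chk3 (onCell 0 67108864 0 1073741824 923417968 42949674 (corX 1 c0B cB012E tB012E gB0q0 gB0q2 gB0q1 gB1q1 gB0q1 true false)) t 1 1 1 = true :=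
  ex3_b B012E_000_1_2_1 B012E_000_1_3_1

def B012E_010 :
    ∃ t, chk3 (onCell 0 67108864 0 1073741824 923417968 42949674 (corT true 1 c0B cB012E gB0q0 gB1q2 gB0q1 gB1q1 true false)) t 1 1 1 = true :=
  ⟨(T.b (T.l 1) (T.b (T.b (T.b (T.l 1) (T.b (T.l 1) (T.a (T.a (T.c (T.l 0) (T.l 204)) (T.l 0)) (T.a (T.c (T.l 0) (T.l 0)) (T.a (T.l 0) (T.c (T.l 816) (T.l 816))))))) (T.a (T.a (T.c (T.b (T.l 0) (T.l 204)) (T.b (T.b (T.l 204) (T.l 204)) (T.l 204))) (T.b (T.b (T.l 0) (T.l 0)) (T.l 0))) (T.b (T.a (T.l 0) (T.b (T.l 0) (T.l 0))) (T.a (T.l 0) (T.l 0))))) (T.a (T.b (T.a (T.c (T.l 460) (T.b (T.l 204) (T.l 204))) (T.b (T.l 204) (T.l 204))) (T.a (T.c (T.l 204) (T.b (T.l 204) (T.l 204))) (T.l 460))) (T.a (T.b (T.b (T.l 0) (T.l 204)) (T.l 204)) (T.b (T.l 0) (T.b (T.l 204) (T.l 460))))))), by decide +kernel⟩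

def B012E_100_1_4_1 :
    ∃ t, chk3 (onCell 0 67108864 0 1073741824 923417968 42949674 (corT true 1 c0B cB012E gB1q0 gB0q2 gB0q1 gB1q1 true false)) t 1 4 1 = true :=
  ⟨(T.l 1), by decide +kernel⟩

def B012E_100_1_5_1 :
    ∃ t, chk3 (onCell 0 67108864 0 1073741824 923417968 42949674 (corT true 1 c0B cB012E gB1q0 gB0q2 gB0q1 gB1q1 true false)) t 1 5 1 = true :=
  ⟨(T.a (T.b (T.b (T.b (T.l 1) (T.b (T.a (T.l 1) (T.a (T.l 1) (T.b (T.l 1) (T.a (T.l 1) (T.b (T.l 1) (T.c (T.l 236) (T.b (T.l 1) (T.c (T.l 236) (T.l 236))))))))) (T.c (T.a (T.l 204) (T.l 236)) (T.b (T.a (T.a (T.l 204) (T.l 236)) (T.c (T.l 236) (T.l 236))) (T.l 236))))) (T.c (T.l 204) (T.a (T.l 204) (T.l 204)))) (T.l 0)) (T.a (T.b (T.b (T.b (T.l 1) (T.b (T.b (T.l 1) (T.b (T.l 1) (T.b (T.a (T.l 1) (T.a (T.l 1) (T.c (T.l 236) (T.c (T.l 236) (T.b (T.l 1) (T.l 236)))))) (T.c (T.l 236) (T.c (T.l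 236) (T.a (T.l 236) (T.l 236))))))) (T.c (T.l 236) (T.c (T.l 236) (T.l 236))))) (T.b (T.l 236) (T.l 204))) (T.l 204)) (T.b (T.b (T.b (T.l 1) (T.b (T.b (T.l 1) (T.b (T.a (T.l 1) (T.a (T.l 1) (T.b (T.l 1) (T.b (T.l 1) (T.b (T.l 1) (T.a (T.c (T.l 236) (T.c (T.l 236) (T.l 236))) (T.c (T.l 236) (T.c (T.l 236) (T.l 236))))))))) (T.b (T.a (T.b (T.a (T.l 1) (T.c (T.l 236) (T.c (T.l 236) (T.c (T.l 236) (T.l 236))))) (T.c (T.c (T.l 204) (T.l 236)) (T.c (T.l 236) (T.a (T.l 236) (T.l 236))))) (T.b (T.a (T.c (T.l 236) (T.c (T.l 236) (T.l 236))) (T.c (T.c (T.l 236) (T.l 236)) (T.c (T.l 236) (T.c (T.l 236) (T.l 236))))) (T.a (T.c (T.l 236) (T.c (T.l 236) (T.l 236))) (T.c (T.l 236) (T.c (T.l 236) (T.l 236)))))) (T.a (T.c (T.l 236) (T.c (T.l 236) (T.l 236))) (T.c (T.a (T.l 236) (T.l 236)) (T.a (T.l 236) (T.c (T.l 236) (T.l 236)))))))) (T.a (T.c (T.l 236) (T.c (T.l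 236) (T.l 236))) (T.c (T.a (T.l 236) (T.l 236)) (T.a (T.l 236) (T.c (T.l 236) (T.l 236))))))) (T.a (T.l 236) (T.a (T.l 748) (T.b (T.l 236) (T.l 204))))) (T.b (T.b (T.l 0) (T.l 204)) (T.l 204))))), by decide +kernel⟩

def B012E_100_1_3_1 :
    ∃ t, chk3 (onCell 0 67108864 0 1073741824 923417968 42949674 (corT true 1 c0B cB012E gB1q0 gB0q2 gB0q1 gB1q1 true false)) t 1 3 1 = true :=
  ⟨(T.b (T.a (T.l 0) (T.a (T.b (T.l 204) (T.b (T.l 204) (T.l 204))) (T.b (T.b (T.l 0) (T.l 0)) (T.b (T.l 204) (T.l 204))))) (T.b (T.a (T.l 204) (T.a (T.b (T.l 460) (T.l 460)) (T.b (T.l 204) (T.l 204)))) (T.a (T.a (T.l 204) (T.a (T.l 204) (T.l 204))) (T.a (T.a (T.l 204) (T.l 204)) (T.b (T.l 204) (T.l 204)))))), by decide +kernel⟩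

theorem B012E_100_1_2_1 :
    ∃ t, chk3 (onCell 0 67108864 0 1073741824 923417968 42949674 (corT true 1 c0B cB012E gB1q0 gB0q2 gB0q1 gB1q1 true false)) t 1 2 1 = true :=
  ex3_b B012E_100_1_4_1 B012E_100_1_5_1
theorem B012E_100 :
    ∃ t, chk3 (onCell 0 67108864 0 1073741824 923417968 42949674 (corT true 1 c0B cB012E gB1q0 gB0q2 gB0q1 gB1q1 true false)) t 1 1 1 = true :=
  ex3_b B012E_100_1_2_1 B012E_100_1_3_1

def B012E_110 :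
    ∃ t, chk3 (onCell 0 67108864 0 1073741824 923417968 42949674 (corT true 1 c0B cB012E gB1q0 gB1q2 gB0q1 gB1q1 true false)) t 1 1 1 = true :=
  ⟨(T.b (T.b (T.l 1) (T.b (T.b (T.l 1) (T.b (T.l 1) (T.a (T.l 204) (T.a (T.l 204) (T.c (T.l 0) (T.l 204)))))) (T.a (T.l 0) (T.a (T.l 204) (T.b (T.l 0) (T.l 0)))))) (T.a (T.b (T.l 0) (T.l 204)) (T.b (T.a (T.l 204) (T.l 0)) (T.a (T.l 204) (T.b (T.l 204) (T.l 204)))))), by decide +kernel⟩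

def B012L_040 :
    ∃ t, chk3 (onCell 0 67108864 0 1073741824 923417968 42949674 (corT true 1 c0B cB012L gB0q0 gB4q2 gB0q1 gB1q1 true false)) t 1 1 1 = true :=
  ⟨(T.l 1), by decide +kernel⟩

def B012L_140 :
    ∃ t, chk3 (onCell 0 67108864 0 1073741824 923417968 42949674 (corT true 1 c0B cB012L gB1q0 gB4q2 gB0q1 gB1q1 true false)) t 1 1 1 = true :=
  ⟨(T.l 1), by decide +kernel⟩

def B012R_001 :
    ∃ t, chk3 (onCell 0 67108864 0 1073741824 923417968 42949674 (corT true 1 c0B cB012R gB0q0 gB0q2 gB1q1 gB2q1 false true)) t 1 1 1 = true :=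
  ⟨(T.b (T.b (T.l 0) (T.b (T.l 0) (T.a (T.l 816) (T.a (T.l 816) (T.b (T.l 816) (T.l 816)))))) (T.b (T.a (T.l 816) (T.a (T.b (T.l 816) (T.a (T.l 816) (T.b (T.l 816) (T.l 816)))) (T.b (T.b (T.l 816) (T.l 816)) (T.a (T.b (T.l 816) (T.l 816)) (T.b (T.l 816) (T.l 816)))))) (T.b (T.a (T.l 816) (T.a (T.a (T.b (T.l 816) (T.l 816)) (T.b (T.l 816) (T.l 816))) (T.a (T.b (T.l 816) (T.l 816)) (T.b (T.l 816) (T.l 816))))) (T.a (T.a (T.l 816) (T.a (T.l 816) (T.b (T.l 816) (T.l 816)))) (T.a (T.a (T.a (T.l 816) (T.b (T.l 816) (T.l 816))) (T.a (T.b (T.l 816) (T.l 816)) (T.l 816))) (T.a (T.b (T.l 816) (T.b (T.l 816) (T.l 816))) (T.b (T.l 816) (T.b (T.l 816) (T.l 816))))))))), by decide +kernel⟩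

def B012R_002 :
    ∃ t, chk3 (onCell 0 67108864 0 1073741824 923417968 42949674 (corT true 1 c0B cB012R gB0q0 gB0q2 gB2q1 gB3q1 true true)) t 1 1 1 = true :=
  ⟨(T.b (T.b (T.l 1) (T.l 1)) (T.l 1)), by decide +kernel⟩

def B012R_003 :
    ∃ t, chk3 (onCell 0 67108864 0 1073741824 923417968 42949674 (corT true 1 c0B cB012R gB0q0 gB0q2 gB3q1 gB4q1 true true)) t 1 1 1 = true :=
  ⟨(T.b (T.l 1) (T.l 1)), by decide +kernel⟩

def B012R_011 :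
    ∃ t, chk3 (onCell 0 67108864 0 1073741824 923417968 42949674 (corT true 1 c0B cB012R gB0q0 gB1q2 gB1q1 gB2q1 false true)) t 1 1 1 = true :=
  ⟨(T.b (T.l 0) (T.b (T.l 816) (T.a (T.l 816) (T.a (T.l 816) (T.l 816))))), by decide +kernel⟩

def B012R_012 :
    ∃ t, chk3 (onCell 0 67108864 0 1073741824 923417968 42949674 (corT true 1 c0B cB012R gB0q0 gB1q2 gB2q1 gB3q1 true true)) t 1 1 1 = true :=
  ⟨(T.b (T.l 1) (T.l 1)), by decide +kernel⟩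

def B012R_013 :
    ∃ t, chk3 (onCell 0 67108864 0 1073741824 923417968 42949674 (corT true 1 c0B cB012R gB0q0 gB1q2 gB3q1 gB4q1 true true)) t 1 1 1 = true :=
  ⟨(T.l 1), by decide +kernel⟩

def B012R_101 :
    ∃ t, chk3 (onCell 0 67108864 0 1073741824 923417968 42949674 (corT true 1 c0B cB012R gB1q0 gB0q2 gB1q1 gB2q1 false true)) t 1 1 1 = true :=
  ⟨(T.b (T.b (T.l 2) (T.a (T.l 816) (T.a (T.l 816) (T.b (T.l 816) (T.l 816))))) (T.b (T.a (T.l 816) (T.a (T.b (T.l 816) (T.l 816)) (T.b (T.l 816) (T.l 816)))) (T.b (T.a (T.l 816) (T.a (T.l 816) (T.l 816))) (T.a (T.a (T.l 816) (T.l 816)) (T.a (T.l 816) (T.l 816)))))), by decide +kernel⟩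

def B012R_102 :
    ∃ t, chk3 (onCell 0 67108864 0 1073741824 923417968 42949674 (corT true 1 c0B cB012R gB1q0 gB0q2 gB2q1 gB3q1 true true)) t 1 1 1 = true :=
  ⟨(T.b (T.b (T.a (T.l 0) (T.l 0)) (T.a (T.l 0) (T.b (T.l 0) (T.l 1)))) (T.l 1)), by decide +kernel⟩

def B012R_103 :
    ∃ t, chk3 (onCell 0 67108864 0 1073741824 923417968 42949674 (corT true 1 c0B cB012R gB1q0 gB0q2 gB3q1 gB4q1 true true)) t 1 1 1 = true :=
  ⟨(T.b (T.b (T.a (T.l 0) (T.l 0)) (T.a (T.l 0) (T.b (T.l 0) (T.l 1)))) (T.l 1)), by decide +kernel⟩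

def B012R_111 :
    ∃ t, chk3 (onCell 0 67108864 0 1073741824 923417968 42949674 (corT true 1 c0B cB012R gB1q0 gB1q2 gB1q1 gB2q1 false true)) t 1 1 1 = true :=
  ⟨(T.b (T.l 2) (T.a (T.l 816) (T.b (T.l 816) (T.b (T.l 816) (T.l 816))))), by decide +kernel⟩

def B012R_112 :
    ∃ t, chk3 (onCell 0 67108864 0 1073741824 923417968 42949674 (corT true 1 c0B cB012R gB1q0 gB1q2 gB2q1 gB3q1 true true)) t 1 1 1 = true :=
  ⟨(T.b (T.a (T.l 0) (T.b (T.l 2) (T.l 0))) (T.a (T.l 816) (T.b (T.l 816) (T.l 1)))), by decide +kernel⟩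

def B012R_113 :
    ∃ t, chk3 (onCell 0 67108864 0 1073741824 923417968 42949674 (corT true 1 c0B cB012R gB1q0 gB1q2 gB3q1 gB4q1 true true)) t 1 1 1 = true :=
  ⟨(T.b (T.a (T.l 0) (T.l 0)) (T.a (T.l 816) (T.b (T.l 1) (T.l 1)))), by decide +kernel⟩

def B022E_000 :
    ∃ t, chk3 (onCell 0 67108864 0 1073741824 923417968 42949674 (corT true 1 c0B cB022E gB0q0 gB0q2 gB0q2 gB1q2 true true)) t 1 1 1 = true :=
  ⟨(T.l 2), by decide +kernel⟩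

def B022E_001 :
    ∃ t, chk3 (onCell 0 67108864 0 1073741824 923417968 42949674 (corT true 1 c0B cB022E gB0q0 gB0q2 gB1q2 gB2q2 true false)) t 1 1 1 = true :=
  ⟨(T.b (T.b (T.a (T.a (T.c (T.a (T.l 204) (T.b (T.l 204) (T.l 204))) (T.b (T.a (T.b (T.l 204) (T.l 204)) (T.b (T.l 204) (T.l 204))) (T.b (T.l 204) (T.l 204)))) (T.a (T.c (T.b (T.l 204) (T.l 204)) (T.b (T.c (T.l 204) (T.l 204)) (T.l 204))) (T.c (T.b (T.a (T.l 204) (T.l 204)) (T.l 204)) (T.b (T.a (T.l 204) (T.b (T.l 204) (T.l 204))) (T.l 204))))) (T.a (T.a (T.b (T.c (T.a (T.l 220) (T.l 204)) (T.a (T.b (T.l 204) (T.l 204)) (T.l 204))) (T.c (T.l 204) (T.b (T.l 204) (T.l 204)))) (T.b (T.c (T.a (T.l 204) (T.l 204)) (T.a (T.l 204) (T.l 204))) (T.c (T.l 204) (T.l 204)))) (T.a (T.b (T.c (T.b (T.l 204) (T.l 204)) (T.b (T.l 204) (T.l 204))) (T.b (T.l 204) (T.l 204))) (T.b (T.a (T.c (T.l 204) (T.l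 204)) (T.c (T.b (T.l 204) (T.l 204)) (T.l 204))) (T.l 204))))) (T.a (T.a (T.c (T.l 0) (T.l 0)) (T.a (T.b (T.l 204) (T.l 0)) (T.c (T.l 0) (T.l 0)))) (T.a (T.a (T.c (T.l 0) (T.l 16)) (T.b (T.l 204) (T.l 0))) (T.a (T.b (T.l 204) (T.l 0)) (T.b (T.l 204) (T.l 0)))))) (T.a (T.a (T.b (T.l 0) (T.b (T.l 816) (T.b (T.l 816) (T.l 816)))) (T.a (T.b (T.l 0) (T.b (T.l 816) (T.l 816))) (T.b (T.l 0) (T.b (T.l 816) (T.a (T.l 816) (T.b (T.l 816) (T.l 816))))))) (T.a (T.b (T.a (T.l 0) (T.l 0)) (T.a (T.b (T.l 816) (T.a (T.c (T.l 816) (T.l 816)) (T.c (T.l 816) (T.l 816)))) (T.b (T.l 816) (T.c (T.l 820) (T.a (T.l 816) (T.l 816)))))) (T.b (T.b (T.l 0) (T.l 4)) (T.b (T.a (T.l 816) (T.l 816)) (T.a (T.c (T.l 816) (T.a (T.l 816) (T.l 816))) (T.b (T.l 816) (T.c (T.l 816) (T.c (T.l 816) (T.l 816)))))))))), by decide +kernel⟩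

def B022E_010 :
    ∃ t, chk3 (onCell 0 67108864 0 1073741824 923417968 42949674 (corT true 1 c0B cB022E gB0q0 gB1q2 gB0q2 gB1q2 true true)) t 1 1 1 = true :=
  ⟨(T.l 2), by decide +kernel⟩

def B022E_011 :
    ∃ t, chk3 (onCell 0 67108864 0 1073741824 923417968 42949674 (corT true 1 c0B cB022E gB0q0 gB1q2 gB1q2 gB2q2 true false)) t 1 1 1 = true :=
  ⟨(T.a (T.b (T.b (T.a (T.b (T.c (T.l 204) (T.l 204)) (T.l 204)) (T.b (T.b (T.l 204) (T.l 204)) (T.l 204))) (T.b (T.l 204) (T.l 204))) (T.b (T.l 0) (T.b (T.l 0) (T.l 816)))) (T.b (T.b (T.a (T.b (T.c (T.l 204) (T.l 204)) (T.l 204)) (T.b (T.a (T.b (T.l 204) (T.l 204)) (T.c (T.b (T.l 204) (T.l 204)) (T.l 204))) (T.b (T.l 204) (T.l 204)))) (T.a (T.l 204) (T.b (T.l 204) (T.l 204)))) (T.b (T.a (T.l 0) (T.l 0)) (T.a (T.b (T.l 0) (T.l 816)) (T.b (T.l 0) (T.l 816)))))), by decide +kernel⟩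

def B022E_100 :
    ∃ t, chk3 (onCell 0 53687091 0 1073741824 923417968 42949674 (corT true 1 c0B cB022E gB1q0 gB0q2 gB0q2 gB1q2 true true)) t 1 1 1 = true :=
  ⟨(T.l 2), by decide +kernel⟩

def B022E_101 :
    ∃ t, chk3 (onCell 0 53687091 0 1073741824 923417968 42949674 (corT true 1 c0B cB022E gB1q0 gB0q2 gB1q2 gB2q2 true false)) t 1 1 1 = true :=
  ⟨(T.a (T.b (T.b (T.a (T.b (T.c (T.l 204) (T.a (T.l 220) (T.b (T.l 204) (T.l 204)))) (T.l 204)) (T.b (T.c (T.a (T.l 204) (T.l 204)) (T.b (T.a (T.l 204) (T.l 204)) (T.l 204))) (T.l 204))) (T.b (T.l 0) (T.l 0))) (T.l 0)) (T.b (T.a (T.b (T.a (T.b (T.b (T.c (T.l 204) (T.c (T.l 204) (T.l 204))) (T.l 204)) (T.l 204)) (T.b (T.c (T.a (T.l 204) (T.l 204)) (T.a (T.l 204) (T.l 204))) (T.l 204))) (T.c (T.l 0) (T.l 0))) (T.b (T.b (T.a (T.b (T.c (T.l 204) (T.l 204)) (T.l 204)) (T.b (T.c (T.l 204) (T.l 204)) (T.l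 204))) (T.c (T.l 204) (T.l 204))) (T.b (T.l 0) (T.l 0)))) (T.a (T.b (T.l 0) (T.l 0)) (T.l 16)))), by decide +kernel⟩

def B022E_110 :
    ∃ t, chk3 (onCell 0 67108864 0 1073741824 923417968 42949674 (corT true 1 c0B cB022E gB1q0 gB1q2 gB0q2 gB1q2 true true)) t 1 1 1 = true :=
  ⟨(T.l 2), by decide +kernel⟩

def B022E_111 :
    ∃ t, chk3 (onCell 0 67108864 0 1073741824 923417968 42949674 (corT true 1 c0B cB022E gB1q0 gB1q2 gB1q2 gB2q2 true false)) t 1 1 1 = true :=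
  ⟨(T.a (T.b (T.b (T.b (T.a (T.c (T.l 204) (T.l 204)) (T.b (T.l 204) (T.l 204))) (T.b (T.l 204) (T.l 204))) (T.l 0)) (T.l 0)) (T.a (T.b (T.b (T.b (T.c (T.l 204) (T.l 204)) (T.l 204)) (T.l 0)) (T.l 0)) (T.b (T.b (T.b (T.a (T.b (T.l 204) (T.l 204)) (T.c (T.b (T.l 204) (T.l 204)) (T.l 204))) (T.l 204)) (T.l 0)) (T.b (T.l 0) (T.l 0))))), by decide +kernel⟩

def B022L_040 :
    ∃ t, chk3 (onCell 0 67108864 0 1073741824 923417968 42949674 (corX 1 c0B cB022L tB022L gB0q0 gB4q2 gB0q2 gB1q2 gB0q2 true true)) t 1 1 1 = true :=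
  ⟨(T.b (T.b (T.l 2) (T.b (T.l 2) (T.a (T.l 3) (T.a (T.l 3) (T.b (T.l 2) (T.a (T.l 3) (T.l 0))))))) (T.b (T.b (T.b (T.b (T.b (T.a (T.l 3) (T.a (T.l 3) (T.l 0))) (T.l 3)) (T.l 3)) (T.l 23)) (T.a (T.l 3) (T.l 3))) (T.l 1))), by decide +kernel⟩

def B022L_041 :
    ∃ t, chk3 (onCell 0 67108864 0 1073741824 923417968 42949674 (corT true 1 c0B cB022L gB0q0 gB4q2 gB1q2 gB2q2 true false)) t 1 1 1 = true :=
  ⟨(T.b (T.b (T.a (T.l 0) (T.a (T.l 0) (T.b (T.l 204) (T.l 204)))) (T.b (T.l 0) (T.l 0))) (T.l 1)), by decide +kernel⟩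

def B022L_140 :
    ∃ t, chk3 (onCell 0 67108864 0 1073741824 923417968 42949674 (corT true 1 c0B cB022L gB1q0 gB4q2 gB0q2 gB1q2 true true)) t 1 1 1 = true :=
  ⟨(T.b (T.b (T.b (T.l 2) (T.l 2)) (T.a (T.l 0) (T.b (T.b (T.a (T.b (T.l 2) (T.l 0)) (T.l 0)) (T.a (T.l 0) (T.l 0))) (T.a (T.l 0) (T.b (T.l 0) (T.l 0)))))) (T.b (T.b (T.a (T.l 1) (T.b (T.a (T.l 1) (T.l 0)) (T.l 1))) (T.l 1)) (T.l 1))), by decide +kernel⟩

def B022L_141 :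
    ∃ t, chk3 (onCell 0 67108864 0 1073741824 923417968 42949674 (corT true 1 c0B cB022L gB1q0 gB4q2 gB1q2 gB2q2 true false)) t 1 1 1 = true :=
  ⟨(T.b (T.b (T.a (T.l 0) (T.a (T.l 0) (T.l 0))) (T.l 0)) (T.l 1)), by decide +kernel⟩

def B022R_003 :
    ∃ t, chk3 (onCell 0 67108864 0 1073741824 923417968 42949674 (corT true 1 c0B cB022R gB0q0 gB0q2 gB3q2 gB4q2 false true)) t 1 1 1 = true :=
  ⟨(T.a (T.a (T.b (T.b (T.l 204) (T.l 0)) (T.l 0)) (T.a (T.b (T.l 0) (T.l 0)) (T.b (T.b (T.l 204) (T.l 0)) (T.l 0)))) (T.a (T.b (T.a (T.b (T.l 204) (T.l 0)) (T.b (T.l 204) (T.l 0))) (T.l 0)) (T.b (T.b (T.a (T.l 204) (T.l 204)) (T.l 0)) (T.l 0)))), by decide +kernel⟩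

def B022R_013 :
    ∃ t, chk3 (onCell 0 67108864 0 1073741824 923417968 42949674 (corT true 1 c0B cB022R gB0q0 gB1q2 gB3q2 gB4q2 false true)) t 1 1 1 = true :=
  ⟨(T.a (T.l 16) (T.b (T.b (T.l 0) (T.l 0)) (T.l 816))), by decide +kernel⟩

def B022R_103 :
    ∃ t, chk3 (onCell 0 67108864 0 1073741824 923417968 42949674 (corT true 1 c0B cB022R gB1q0 gB0q2 gB3q2 gB4q2 false true)) t 1 1 1 = true :=
  ⟨(T.a (T.a (T.b (T.b (T.l 204) (T.l 0)) (T.l 816)) (T.a (T.b (T.l 0) (T.l 816)) (T.b (T.b (T.l 204) (T.l 0)) (T.l 816)))) (T.a (T.b (T.a (T.b (T.l 204) (T.l 0)) (T.b (T.l 204) (T.l 0))) (T.l 0)) (T.b (T.b (T.a (T.l 204) (T.l 204)) (T.l 0)) (T.b (T.l 816) (T.l 816))))), by decide +kernel⟩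

def B022R_113 :
    ∃ t, chk3 (onCell 0 67108864 0 1073741824 923417968 42949674 (corT true 1 c0B cB022R gB1q0 gB1q2 gB3q2 gB4q2 false true)) t 1 1 1 = true :=
  ⟨(T.a (T.l 0) (T.b (T.b (T.l 0) (T.l 816)) (T.b (T.l 816) (T.a (T.l 816) (T.l 816))))), by decide +kernel⟩

def B101E_000 :
    ∃ t, chk3 (onCell 0 33554432 0 1073741824 923417968 42949674 (corT true 1 c0B cB101E gB0q1 gB0q1 gB0q0 gB1q0 true true)) t 1 1 1 = true :=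
  ⟨(T.l 2), by decide +kernel⟩

def B101E_001 :
    ∃ t, chk3 (onCell 0 33554432 0 1073741824 923417968 42949674 (corT true 1 c0B cB101E gB0q1 gB0q1 gB1q0 gB2q0 true false)) t 1 1 1 = true :=
  ⟨(T.b (T.b (T.a (T.c (T.a (T.l 816) (T.b (T.l 816) (T.l 816))) (T.b (T.l 0) (T.l 0))) (T.b (T.c (T.a (T.l 816) (T.b (T.l 816) (T.l 816))) (T.a (T.l 816) (T.b (T.b (T.l 816) (T.l 816)) (T.l 816)))) (T.c (T.l 816) (T.a (T.l 816) (T.l 944))))) (T.a (T.b (T.b (T.l 0) (T.l 0)) (T.b (T.l 0) (T.l 0))) (T.c (T.b (T.l 0) (T.l 0)) (T.b (T.b (T.l 816) (T.l 0)) (T.l 512))))) (T.b (T.a (T.b (T.b (T.l 0) (T.l 0)) (T.c (T.l 0) (T.b (T.l 204) (T.l 204)))) (T.b (T.c (T.l 0) (T.b (T.l 0) (T.l 0))) (T.c (T.l 0) (T.b (T.l 204) (T.l 204))))) (T.a (T.b (T.c (T.b (T.l 204) (T.l 204)) (T.a (T.l 204) (T.l 204))) (T.c (T.a (T.b (T.l 204) (T.c (T.l 204) (T.l 204))) (T.b (T.l 204) (T.b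 (T.l 204) (T.l 204)))) (T.a (T.b (T.l 204) (T.c (T.b (T.l 204) (T.l 204)) (T.a (T.l 204) (T.l 204)))) (T.b (T.l 204) (T.c (T.l 204) (T.b (T.l 204) (T.l 204))))))) (T.b (T.c (T.b (T.l 204) (T.l 204)) (T.b (T.l 204) (T.l 204))) (T.c (T.b (T.l 204) (T.a (T.l 204) (T.l 204))) (T.b (T.b (T.l 204) (T.l 204)) (T.a (T.c (T.l 204) (T.l 204)) (T.c (T.l 204) (T.l 204))))))))), by decide +kernel⟩

def B101L_200 :
    ∃ t, chk3 (onCell 0 67108864 0 1073741824 923417968 42949674 (corT true 1 c0B cB101L gB2q1 gB0q1 gB0q0 gB1q0 true true)) t 1 1 1 = true :=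
  ⟨(T.b (T.l 1) (T.b (T.l 1) (T.b (T.l 1) (T.b (T.l 1) (T.a (T.l 0) (T.a (T.l 0) (T.l 0))))))), by decide +kernel⟩

def B101L_201 :
    ∃ t, chk3 (onCell 0 67108864 0 1073741824 923417968 42949674 (corT true 1 c0B cB101L gB2q1 gB0q1 gB1q0 gB2q0 true false)) t 1 1 1 = true :=
  ⟨(T.l 1), by decide +kernel⟩

def B101L_300 :
    ∃ t, chk3 (onCell 0 67108864 0 1073741824 923417968 42949674 (corT true 1 c0B cB101L gB3q1 gB0q1 gB0q0 gB1q0 true true)) t 1 1 1 = true :=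
  ⟨(T.b (T.l 1) (T.b (T.l 1) (T.b (T.b (T.l 1) (T.b (T.b (T.l 1) (T.a (T.l 0) (T.l 0))) (T.l 0))) (T.a (T.l 0) (T.a (T.l 0) (T.l 0)))))), by decide +kernel⟩

def B101L_301 :
    ∃ t, chk3 (onCell 0 67108864 0 1073741824 923417968 42949674 (corT true 1 c0B cB101L gB3q1 gB0q1 gB1q0 gB2q0 true false)) t 1 1 1 = true :=
  ⟨(T.l 1), by decide +kernel⟩

def B101L_400 :
    ∃ t, chk3 (onCell 0 67108864 0 1073741824 923417968 42949674 (corX 1 c0B cB101L tB101L gB4q1 gB0q1 gB0q0 gB1q0 gB0q0 true true)) t 1 1 1 = true :=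
  ⟨(T.b (T.l 1) (T.b (T.l 3) (T.b (T.l 3) (T.a (T.l 3) (T.l 3))))), by decide +kernel⟩

def B101L_401 :
    ∃ t, chk3 (onCell 0 67108864 0 1073741824 923417968 42949674 (corT true 1 c0B cB101L gB4q1 gB0q1 gB1q0 gB2q0 true false)) t 1 1 1 = true :=
  ⟨(T.b (T.l 1) (T.l 1)), by decide +kernel⟩

def B101R_020 :
    ∃ t, chk3 (onCell 0 67108864 0 1073741824 923417968 42949674 (corT true 1 c0B cB101R gB0q1 gB2q1 gB0q0 gB1q0 true true)) t 1 1 1 = true :=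
  ⟨(T.l 1), by decide +kernel⟩

def B101R_021 :
    ∃ t, chk3 (onCell 0 67108864 0 1073741824 923417968 42949674 (corT true 1 c0B cB101R gB0q1 gB2q1 gB1q0 gB2q0 true false)) t 1 1 1 = true :=
  ⟨(T.l 1), by decide +kernel⟩

def B101R_030 :
    ∃ t, chk3 (onCell 0 67108864 0 1073741824 923417968 42949674 (corT true 1 c0B cB101R gB0q1 gB3q1 gB0q0 gB1q0 true true)) t 1 1 1 = true :=
  ⟨(T.l 1), by decide +kernel⟩

def B101R_031 :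
    ∃ t, chk3 (onCell 0 67108864 0 1073741824 923417968 42949674 (corT true 1 c0B cB101R gB0q1 gB3q1 gB1q0 gB2q0 true false)) t 1 1 1 = true :=
  ⟨(T.l 1), by decide +kernel⟩

def B101R_040 :
    ∃ t, chk3 (onCell 0 67108864 0 1073741824 923417968 42949674 (corT true 1 c0B cB101R gB0q1 gB4q1 gB0q0 gB1q0 true true)) t 1 1 1 = true :=
  ⟨(T.l 1), by decide +kernel⟩

def B101R_041 :
    ∃ t, chk3 (onCell 0 67108864 0 1073741824 923417968 42949674 (corT true 1 c0B cB101R gB0q1 gB4q1 gB1q0 gB2q0 true false)) t 1 1 1 = true :=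
  ⟨(T.l 1), by decide +kernel⟩

def B102E_000_1_2_1 :
    ∃ t, chk3 (onCell 0 53687091 0 1073741824 923417968 42949674 (corX 1 c0B cB102E tB102E gB0q1 gB0q2 gB0q0 gB1q0 gB0q0 true true)) t 1 2 1 = true :=
  ⟨(T.b (T.l 1) (T.b (T.l 1) (T.a (T.b (T.l 1) (T.b (T.l 1) (T.a (T.c (T.l 819) (T.l 819)) (T.l 1)))) (T.l 1)))), by decide +kernel⟩

def B102E_000_1_3_1 :
    ∃ t, chk3 (onCell 0 53687091 0 1073741824 923417968 42949674 (corX 1 c0B cB102E tB102E gB0q1 gB0q2 gB0q0 gB1q0 gB0q0 true true)) t 1 3 1 = true :=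
  ⟨(T.b (T.a (T.a (T.a (T.c (T.b (T.l 819) (T.l 819)) (T.a (T.l 819) (T.l 819))) (T.c (T.b (T.l 819) (T.l 819)) (T.b (T.b (T.l 819) (T.l 819)) (T.c (T.l 819) (T.l 947))))) (T.a (T.c (T.b (T.l 819) (T.b (T.l 819) (T.l 819))) (T.b (T.b (T.l 819) (T.l 947)) (T.c (T.b (T.l 819) (T.l 947)) (T.b (T.l 947) (T.l 947))))) (T.c (T.b (T.l 947) (T.b (T.l 947) (T.l 947))) (T.b (T.c (T.l 947) (T.l 947)) (T.b (T.c (T.l 947) (T.l 947)) (T.c (T.l 947) (T.b (T.l 947) (T.l 2)))))))) (T.a (T.a (T.c (T.b (T.l 947) (T.b (T.l 947) (T.b (T.l 947) (T.l 2)))) (T.b (T.b (T.l 947) (T.b (T.l 947) (T.l 947))) (T.b (T.c (T.l 947) (T.l 947)) (T.b (T.c (T.l 947) (T.l 947)) (T.l 2))))) (T.c (T.b (T.b (T.l 819) (T.l 947)) (T.b (T.l 947) (T.b (T.l 947) (T.l 2)))) (T.b (T.b (T.l 947) (T.b (T.l 947) (T.l 947))) (T.b (T.c (T.l 947) (T.b (T.l 947) (T.l 947))) (T.b (T.c (T.l 947) (T.b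 (T.l 947) (T.l 944))) (T.l 2)))))) (T.b (T.c (T.a (T.b (T.l 819) (T.l 947)) (T.b (T.l 819) (T.l 947))) (T.a (T.b (T.l 947) (T.b (T.l 947) (T.l 947))) (T.b (T.l 947) (T.b (T.l 947) (T.l 947))))) (T.c (T.b (T.a (T.b (T.l 947) (T.l 947)) (T.c (T.l 944) (T.b (T.l 947) (T.l 944)))) (T.b (T.c (T.l 944) (T.b (T.l 944) (T.l 944))) (T.l 2))) (T.b (T.c (T.a (T.l 947) (T.b (T.l 947) (T.l 944))) (T.a (T.b (T.l 947) (T.l 947)) (T.b (T.l 947) (T.b (T.l 947) (T.l 944))))) (T.b (T.c (T.a (T.l 947) (T.b (T.l 944) (T.l 944))) (T.a (T.a (T.l 947) (T.l 947)) (T.c (T.l 944) (T.b (T.l 944) (T.l 944))))) (T.l 2))))))) (T.l 2)), by decide +kernel⟩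

theorem B102E_000 :
    ∃ t, chk3 (onCell 0 53687091 0 1073741824 923417968 42949674 (corX 1 c0B cB102E tB102E gB0q1 gB0q2 gB0q0 gB1q0 gB0q0 true true)) t 1 1 1 = true :=
  ex3_b B102E_000_1_2_1 B102E_000_1_3_1

def B102E_001_1_2_1 :
    ∃ t, chk3 (onCell 0 53687091 0 1073741824 923417968 42949674 (corT true 1 c0B cB102E gB0q1 gB0q2 gB1q0 gB2q0 true false)) t 1 2 1 = true :=
  ⟨(T.l 1), by decide +kernel⟩

def B102E_001_1_6_1 :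
    ∃ t, chk3 (onCell 0 53687091 0 1073741824 923417968 42949674 (corT true 1 c0B cB102E gB0q1 gB0q2 gB1q0 gB2q0 true false)) t 1 6 1 = true :=
  ⟨(T.b (T.l 1) (T.b (T.l 1) (T.a (T.c (T.b (T.b (T.b (T.l 1) (T.a (T.l 816) (T.a (T.l 816) (T.l 944)))) (T.a (T.l 816) (T.l 944))) (T.a (T.l 0) (T.l 0))) (T.b (T.b (T.b (T.l 1) (T.b (T.l 1) (T.a (T.l 944) (T.c (T.l 944) (T.l 944))))) (T.a (T.l 944) (T.c (T.l 944) (T.l 944)))) (T.a (T.l 816) (T.l 944)))) (T.c (T.b (T.b (T.a (T.a (T.b (T.l 1) (T.c (T.l 816) (T.l 944))) (T.l 1)) (T.l 1)) (T.a (T.a (T.l 944) (T.l 944)) (T.c (T.l 944) (T.a (T.l 944) (T.l 944))))) (T.a (T.l 128) (T.b (T.l 944) (T.l 0)))) (T.b (T.b (T.a (T.a (T.b (T.l 1) (T.a (T.c (T.l 944) (T.c (T.l 944) (T.l 944))) (T.l 1))) (T.l 1)) (T.l 1)) (T.a (T.c (T.a (T.l 944) (T.l 944)) (T.a (T.l 944) (T.l 944))) (T.c (T.a (T.l 944) (T.b (T.l 944) (T.l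 944))) (T.b (T.a (T.a (T.l 944) (T.l 944)) (T.c (T.l 944) (T.l 944))) (T.l 944))))) (T.a (T.b (T.l 944) (T.l 816)) (T.c (T.l 944) (T.b (T.l 944) (T.l 816))))))))), by decide +kernel⟩

def B102E_001_1_7_1 :
    ∃ t, chk3 (onCell 0 53687091 0 1073741824 923417968 42949674 (corT true 1 c0B cB102E gB0q1 gB0q2 gB1q0 gB2q0 true false)) t 1 7 1 = true :=
  ⟨(T.a (T.b (T.a (T.c (T.l 0) (T.l 0)) (T.c (T.l 0) (T.b (T.l 0) (T.l 0)))) (T.c (T.a (T.b (T.l 204) (T.a (T.b (T.l 204) (T.l 204)) (T.l 204))) (T.b (T.l 204) (T.b (T.l 204) (T.l 204)))) (T.a (T.b (T.b (T.l 204) (T.l 204)) (T.c (T.a (T.l 204) (T.l 204)) (T.a (T.b (T.l 204) (T.l 204)) (T.l 204)))) (T.b (T.l 204) (T.c (T.l 204) (T.b (T.l 204) (T.l 204))))))) (T.a (T.c (T.b (T.b (T.l 0) (T.l 204)) (T.b (T.l 204) (T.b (T.l 204) (T.l 204)))) (T.b (T.b (T.l 128) (T.l 0)) (T.b (T.l 204) (T.c (T.l 204) (T.b (T.l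 204) (T.l 204)))))) (T.b (T.a (T.b (T.c (T.l 0) (T.l 0)) (T.c (T.l 204) (T.l 0))) (T.b (T.c (T.l 0) (T.b (T.l 128) (T.l 0))) (T.c (T.b (T.l 204) (T.l 204)) (T.b (T.l 0) (T.l 204))))) (T.a (T.b (T.c (T.l 204) (T.l 236)) (T.c (T.a (T.l 204) (T.b (T.l 204) (T.l 204))) (T.a (T.b (T.l 204) (T.l 204)) (T.c (T.l 204) (T.l 236))))) (T.b (T.c (T.b (T.l 204) (T.l 204)) (T.a (T.l 204) (T.l 204))) (T.c (T.b (T.l 716) (T.c (T.l 204) (T.l 204))) (T.b (T.c (T.l 204) (T.l 204)) (T.c (T.b (T.l 204) (T.l 204)) (T.b (T.l 204) (T.l 236)))))))))), by decide +kernel⟩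

theorem B102E_001_1_3_1 :
    ∃ t, chk3 (onCell 0 53687091 0 1073741824 923417968 42949674 (corT true 1 c0B cB102E gB0q1 gB0q2 gB1q0 gB2q0 true false)) t 1 3 1 = true :=
  ex3_b B102E_001_1_6_1 B102E_001_1_7_1
theorem B102E_001 :
    ∃ t, chk3 (onCell 0 53687091 0 1073741824 923417968 42949674 (corT true 1 c0B cB102E gB0q1 gB0q2 gB1q0 gB2q0 true false)) t 1 1 1 = true :=
  ex3_b B102E_001_1_2_1 B102E_001_1_3_1

def B102E_010 :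
    ∃ t, chk3 (onCell 0 53687091 0 1073741824 923417968 42949674 (corT true 1 c0B cB102E gB0q1 gB1q2 gB0q0 gB1q0 true true)) t 1 1 1 = true :=
  ⟨(T.b (T.b (T.l 1) (T.b (T.a (T.b (T.l 1) (T.a (T.b (T.l 1) (T.b (T.l 1) (T.a (T.b (T.l 1) (T.c (T.l 816) (T.b (T.l 1) (T.l 816)))) (T.l 1)))) (T.l 1))) (T.l 1)) (T.b (T.a (T.b (T.b (T.c (T.l 0) (T.a (T.l 816) (T.l 0))) (T.l 0)) (T.l 0)) (T.b (T.b (T.b (T.l 1) (T.a (T.l 0) (T.b (T.l 1) (T.c (T.l 204) (T.l 0))))) (T.a (T.l 0) (T.l 0))) (T.l 0))) (T.a (T.l 0) (T.l 0))))) (T.b (T.b (T.a (T.l 0) (T.l 0)) (T.b (T.a (T.l 0) (T.l 0)) (T.l 2))) (T.l 2))), by decide +kernel⟩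

def B102E_011 :
    ∃ t, chk3 (onCell 0 53687091 0 1073741824 923417968 42949674 (corT true 1 c0B cB102E gB0q1 gB1q2 gB1q0 gB2q0 true false)) t 1 1 1 = true :=
  ⟨(T.b (T.l 1) (T.a (T.b (T.b (T.l 0) (T.l 0)) (T.b (T.c (T.l 0) (T.l 32)) (T.c (T.a (T.b (T.l 204) (T.a (T.b (T.l 204) (T.l 204)) (T.l 204))) (T.c (T.l 204) (T.b (T.l 204) (T.l 204)))) (T.a (T.b (T.l 204) (T.b (T.l 204) (T.c (T.b (T.l 204) (T.l 204)) (T.a (T.l 204) (T.l 204))))) (T.b (T.l 204) (T.c (T.l 204) (T.b (T.l 204) (T.l 204)))))))) (T.b (T.b (T.l 0) (T.l 0)) (T.a (T.b (T.b (T.l 0) (T.l 204)) (T.c (T.b (T.l 204) (T.b (T.l 204) (T.l 204))) (T.b (T.l 204) (T.c (T.l 204) (T.l 236))))) (T.b (T.b (T.l 0) (T.a (T.l 204) (T.b (T.l 204) (T.l 204)))) (T.a (T.b (T.c (T.l 204) (T.l 204)) (T.c (T.a (T.l 204) (T.b (T.l 204) (T.l 204))) (T.a (T.b (T.l 204) (T.l 204)) (T.c (T.l 204) (T.l 236)))))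 (T.b (T.c (T.l 204) (T.l 236)) (T.c (T.b (T.l 204) (T.b (T.l 204) (T.l 236))) (T.b (T.l 236) (T.c (T.b (T.l 204) (T.l 204)) (T.b (T.l 204) (T.l 236)))))))))))), by decide +kernel⟩

def B102L_200 :
    ∃ t, chk3 (onCell 0 67108864 0 1073741824 923417968 42949674 (corT true 1 c0B cB102L gB2q1 gB0q2 gB0q0 gB1q0 true true)) t 1 1 1 = true :=
  ⟨(T.b (T.l 2) (T.a (T.l 16) (T.b (T.b (T.l 2) (T.l 0)) (T.b (T.l 0) (T.l 0))))), by decide +kernel⟩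

def B102L_201 :
    ∃ t, chk3 (onCell 0 67108864 0 1073741824 923417968 42949674 (corT true 1 c0B cB102L gB2q1 gB0q2 gB1q0 gB2q0 true false)) t 1 1 1 = true :=
  ⟨(T.b (T.b (T.b (T.a (T.a (T.l 204) (T.l 204)) (T.a (T.l 204) (T.l 204))) (T.a (T.l 204) (T.a (T.l 204) (T.l 204)))) (T.a (T.l 204) (T.a (T.b (T.l 204) (T.l 204)) (T.b (T.l 204) (T.l 204))))) (T.b (T.a (T.l 204) (T.a (T.l 204) (T.b (T.l 204) (T.l 204)))) (T.l 1))), by decide +kernel⟩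

def B102L_210 :
    ∃ t, chk3 (onCell 0 67108864 0 1073741824 923417968 42949674 (corT true 1 c0B cB102L gB2q1 gB1q2 gB0q0 gB1q0 true true)) t 1 1 1 = true :=
  ⟨(T.a (T.b (T.l 204) (T.l 0)) (T.b (T.b (T.l 2) (T.l 220)) (T.a (T.l 0) (T.l 0)))), by decide +kernel⟩

def B102L_211 :
    ∃ t, chk3 (onCell 0 67108864 0 1073741824 923417968 42949674 (corT true 1 c0B cB102L gB2q1 gB1q2 gB1q0 gB2q0 true false)) t 1 1 1 = true :=
  ⟨(T.b (T.a (T.l 204) (T.a (T.l 204) (T.b (T.l 204) (T.l 204)))) (T.l 1)), by decide +kernel⟩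

def B102L_300 :
    ∃ t, chk3 (onCell 0 67108864 0 1073741824 923417968 42949674 (corT true 1 c0B cB102L gB3q1 gB0q2 gB0q0 gB1q0 true true)) t 1 1 1 = true :=
  ⟨(T.b (T.l 2) (T.a (T.l 0) (T.b (T.b (T.l 2) (T.l 0)) (T.b (T.l 0) (T.l 0))))), by decide +kernel⟩

def B102L_301 :
    ∃ t, chk3 (onCell 0 67108864 0 1073741824 923417968 42949674 (corT true 1 c0B cB102L gB3q1 gB0q2 gB1q0 gB2q0 true false)) t 1 1 1 = true :=
  ⟨(T.b (T.b (T.b (T.a (T.a (T.l 204) (T.l 204)) (T.a (T.l 204) (T.l 204))) (T.a (T.l 204) (T.a (T.l 204) (T.l 204)))) (T.a (T.l 204) (T.a (T.b (T.l 204) (T.l 204)) (T.b (T.l 204) (T.l 204))))) (T.a (T.l 0) (T.a (T.l 0) (T.b (T.b (T.l 204) (T.l 204)) (T.l 0))))), by decide +kernel⟩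

def B102L_310 :
    ∃ t, chk3 (onCell 0 67108864 0 1073741824 923417968 42949674 (corT true 1 c0B cB102L gB3q1 gB1q2 gB0q0 gB1q0 true true)) t 1 1 1 = true :=
  ⟨(T.a (T.l 0) (T.b (T.b (T.l 2) (T.l 2)) (T.b (T.l 0) (T.l 0)))), by decide +kernel⟩

def B102L_311 :
    ∃ t, chk3 (onCell 0 67108864 0 1073741824 923417968 42949674 (corT true 1 c0B cB102L gB3q1 gB1q2 gB1q0 gB2q0 true false)) t 1 1 1 = true :=
  ⟨(T.a (T.l 64) (T.a (T.l 0) (T.b (T.b (T.l 204) (T.l 204)) (T.l 0)))), by decide +kernel⟩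

def B102L_400 :
    ∃ t, chk3 (onCell 0 67108864 0 1073741824 923417968 42949674 (corT true 1 c0B cB102L gB4q1 gB0q2 gB0q0 gB1q0 true true)) t 1 1 1 = true :=
  ⟨(T.b (T.l 2) (T.b (T.l 2) (T.a (T.l 0) (T.l 0)))), by decide +kernel⟩

def B102L_401 :
    ∃ t, chk3 (onCell 0 67108864 0 1073741824 923417968 42949674 (corT true 1 c0B cB102L gB4q1 gB0q2 gB1q0 gB2q0 true false)) t 1 1 1 = true :=
  ⟨(T.b (T.b (T.b (T.a (T.a (T.l 204) (T.l 204)) (T.a (T.l 204) (T.l 204))) (T.a (T.l 204) (T.a (T.l 204) (T.l 204)))) (T.a (T.l 204) (T.a (T.b (T.l 204) (T.l 204)) (T.b (T.l 204) (T.l 204))))) (T.a (T.l 0) (T.b (T.a (T.l 204) (T.b (T.l 204) (T.l 204))) (T.l 0)))), by decide +kernel⟩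

def B102L_410 :
    ∃ t, chk3 (onCell 0 67108864 0 1073741824 923417968 42949674 (corT true 1 c0B cB102L gB4q1 gB1q2 gB0q0 gB1q0 true true)) t 1 1 1 = true :=
  ⟨(T.b (T.l 2) (T.a (T.l 0) (T.l 0))), by decide +kernel⟩

def B102L_411 :
    ∃ t, chk3 (onCell 0 67108864 0 1073741824 923417968 42949674 (corT true 1 c0B cB102L gB4q1 gB1q2 gB1q0 gB2q0 true false)) t 1 1 1 = true :=
  ⟨(T.a (T.l 0) (T.b (T.a (T.l 204) (T.b (T.l 204) (T.l 204))) (T.l 0))), by decide +kernel⟩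

def B102R_040 :
    ∃ t, chk3 (onCell 0 67108864 0 1073741824 923417968 42949674 (corT true 1 c0B cB102R gB0q1 gB4q2 gB0q0 gB1q0 true true)) t 1 1 1 = true :=
  ⟨(T.l 1), by decide +kernel⟩

def B102R_041 :
    ∃ t, chk3 (onCell 0 67108864 0 1073741824 923417968 42949674 (corT true 1 c0B cB102R gB0q1 gB4q2 gB1q0 gB2q0 true false)) t 1 1 1 = true :=
  ⟨(T.l 1), by decide +kernel⟩

def B202E_000 :
    ∃ t, chk3 (onCell 0 67108864 0 1073741824 923417968 42949674 (corT true 1 c0B cB202E gB0q2 gB0q2 gB0q0 gB1q0 true true)) t 1 1 1 = true :=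
  ⟨(T.l 1), by decide +kernel⟩

def B202E_001 :
    ∃ t, chk3 (onCell 0 67108864 0 1073741824 923417968 42949674 (corT true 1 c0B cB202E gB0q2 gB0q2 gB1q0 gB2q0 true false)) t 1 1 1 = true :=
  ⟨(T.l 1), by decide +kernel⟩

def B202E_010 :
    ∃ t, chk3 (onCell 0 67108864 0 1073741824 923417968 42949674 (corT true 1 c0B cB202E gB0q2 gB1q2 gB0q0 gB1q0 true true)) t 1 1 1 = true :=
  ⟨(T.l 1), by decide +kernel⟩

def B202E_011 :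
    ∃ t, chk3 (onCell 0 67108864 0 1073741824 923417968 42949674 (corT true 1 c0B cB202E gB0q2 gB1q2 gB1q0 gB2q0 true false)) t 1 1 1 = true :=
  ⟨(T.l 1), by decide +kernel⟩

def B202E_100 :
    ∃ t, chk3 (onCell 0 67108864 0 1073741824 923417968 42949674 (corT true 1 c0B cB202E gB1q2 gB0q2 gB0q0 gB1q0 true true)) t 1 1 1 = true :=
  ⟨(T.l 1), by decide +kernel⟩

def B202E_101 :
    ∃ t, chk3 (onCell 0 67108864 0 1073741824 923417968 42949674 (corT true 1 c0B cB202E gB1q2 gB0q2 gB1q0 gB2q0 true false)) t 1 1 1 = true :=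
  ⟨(T.l 1), by decide +kernel⟩

def B202E_110 :
    ∃ t, chk3 (onCell 0 67108864 0 1073741824 923417968 42949674 (corT true 1 c0B cB202E gB1q2 gB1q2 gB0q0 gB1q0 true true)) t 1 1 1 = true :=
  ⟨(T.l 1), by decide +kernel⟩

def B202E_111 :
    ∃ t, chk3 (onCell 0 67108864 0 1073741824 923417968 42949674 (corT true 1 c0B cB202E gB1q2 gB1q2 gB1q0 gB2q0 true false)) t 1 1 1 = true :=
  ⟨(T.l 1), by decide +kernel⟩

def B202L_400 :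
    ∃ t, chk3 (onCell 0 67108864 0 1073741824 923417968 42949674 (corT true 1 c0B cB202L gB4q2 gB0q2 gB0q0 gB1q0 true true)) t 1 1 1 = true :=
  ⟨(T.l 2), by decide +kernel⟩

def B202L_401 :
    ∃ t, chk3 (onCell 0 67108864 0 1073741824 923417968 42949674 (corT true 1 c0B cB202L gB4q2 gB0q2 gB1q0 gB2q0 true false)) t 1 1 1 = true :=
  ⟨(T.a (T.a (T.l 0) (T.l 0)) (T.a (T.l 16) (T.b (T.b (T.l 204) (T.l 204)) (T.l 204)))), by decide +kernel⟩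

def B202L_410 :
    ∃ t, chk3 (onCell 0 67108864 0 1073741824 923417968 42949674 (corT true 1 c0B cB202L gB4q2 gB1q2 gB0q0 gB1q0 true true)) t 1 1 1 = true :=
  ⟨(T.l 2), by decide +kernel⟩

def B202L_411 :
    ∃ t, chk3 (onCell 0 67108864 0 1073741824 923417968 42949674 (corT true 1 c0B cB202L gB4q2 gB1q2 gB1q0 gB2q0 true false)) t 1 1 1 = true :=
  ⟨(T.a (T.l 0) (T.b (T.b (T.a (T.l 204) (T.l 204)) (T.l 204)) (T.l 0))), by decide +kernel⟩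

def B202R_040 :
    ∃ t, chk3 (onCell 0 67108864 0 1073741824 923417968 42949674 (corX 1 c0B cB202R tB202R gB0q2 gB4q2 gB0q0 gB1q0 gB0q0 true true)) t 1 1 1 = true :=
  ⟨(T.b (T.b (T.l 1) (T.a (T.l 3) (T.b (T.l 3) (T.a (T.l 3) (T.b (T.l 3) (T.l 0)))))) (T.b (T.a (T.l 0) (T.b (T.a (T.l 0) (T.b (T.l 0) (T.l 2))) (T.l 2))) (T.l 2))), by decide +kernel⟩

def B202R_041 :
    ∃ t, chk3 (onCell 0 67108864 0 1073741824 923417968 42949674 (corT true 1 c0B cB202R gB0q2 gB4q2 gB1q0 gB2q0 true false)) t 1 1 1 = true :=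
  ⟨(T.b (T.b (T.l 1) (T.b (T.l 1) (T.a (T.l 1) (T.b (T.l 1) (T.a (T.l 1) (T.l 0)))))) (T.b (T.a (T.l 0) (T.b (T.a (T.l 0) (T.b (T.l 0) (T.l 0))) (T.a (T.l 0) (T.l 0)))) (T.b (T.a (T.l 0) (T.a (T.l 0) (T.l 0))) (T.a (T.a (T.l 204) (T.l 204)) (T.a (T.l 0) (T.l 204)))))), by decide +kernel⟩

def B202R_140 :
    ∃ t, chk3 (onCell 0 67108864 0 1073741824 923417968 42949674 (corT true 1 c0B cB202R gB1q2 gB4q2 gB0q0 gB1q0 true true)) t 1 1 1 = true :=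
  ⟨(T.b (T.l 1) (T.b (T.b (T.a (T.l 0) (T.l 0)) (T.l 0)) (T.b (T.l 2) (T.l 2)))), by decide +kernel⟩

def B202R_141 :
    ∃ t, chk3 (onCell 0 67108864 0 1073741824 923417968 42949674 (corT true 1 c0B cB202R gB1q2 gB4q2 gB1q0 gB2q0 true false)) t 1 1 1 = true :=
  ⟨(T.b (T.l 1) (T.b (T.b (T.l 1) (T.l 0)) (T.a (T.l 0) (T.b (T.l 0) (T.l 0))))), by decide +kernel⟩

end Pool.Agent.Strip051.G.I8600_9000.Tab.CG
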