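import Pool.Agent.Strip051.G.I8600_9000.DgP

/-! # The corner (1, 1, 2): certificates of the degenerate charts (generated) -/

set_option linter.all false

namespace Pool.Agent.Strip051.G.I8600_9000.Tab.DG

open Pool.Agent.Strip051.PB Pool.Agent.Strip051.PB.Dg Pool.Agent.StripNear Pool.Agent.Strip051.LC

theorem cFA1 : ∃ t, chk3 (onCell 0 228810721 0 1073741824 923417968 42949674 (fdAx false pF (ndUL pF ndF1) (ndUR ndF2) (thLo (ndUL pF ndF1) (ndUR ndF2)))) t 1 1 1 = true :=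
  ⟨(T.b (T.b (T.a (T.b (T.c (T.a (T.b (T.a (T.l 0) (T.l 0)) (T.b (T.l 0) (T.c (T.l 0) (T.l 0)))) (T.b (T.b (T.a (T.l 0) (T.l 1)) (T.l 0)) (T.l 0))) (T.b (T.a (T.b (T.c (T.l 0) (T.l 0)) (T.l 0)) (T.b (T.b (T.l 1) (T.a (T.l 0) (T.l 1))) (T.a (T.l 0) (T.l 0)))) (T.a (T.b (T.l 0) (T.a (T.c (T.l 0) (T.l 0)) (T.l 0))) (T.a (T.l 0) (T.l 0))))) (T.b (T.c (T.a (T.b (T.a (T.b (T.a (T.c (T.a (T.l 0) (T.l 0)) (T.c (T.l 0) (T.l 0))) (T.l 0)) (T.a (T.l 3) (T.c (T.l 0) (T.a (T.l 3) (T.l 0))))) (T.c (T.l 0) (T.l 0))) (T.l 3)) (T.c (T.l 0) (T.a (T.l 0) (T.l 0)))) (T.a (T.b (T.a (T.b (T.c (T.a (T.b (T.l 0) (T.b (T.a (T.l 0) (T.l 0)) (T.l 3))) (T.l 0)) (T.a (T.b (T.l 0) (T.a (T.a (T.l 3) (T.a (T.l 3) (T.l 0))) (T.l 0))) (T.l 0))) (T.a (T.l 3) (T.a (T.l 3)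 (T.c (T.l 0) (T.l 0))))) (T.c (T.l 0) (T.l 0))) (T.l 3)) (T.c (T.a (T.l 0) (T.l 0)) (T.a (T.a (T.l 0) (T.l 0)) (T.l 0))))) (T.l 3))) (T.b (T.b (T.a (T.a (T.b (T.l 1) (T.c (T.l 0) (T.a (T.l 0) (T.l 0)))) (T.l 1)) (T.l 1)) (T.c (T.a (T.a (T.l 0) (T.l 0)) (T.b (T.b (T.l 1) (T.l 0)) (T.l 0))) (T.a (T.c (T.l 0) (T.l 0)) (T.b (T.b (T.l 1) (T.a (T.l 0) (T.l 0))) (T.a (T.l 0) (T.l 0)))))) (T.c (T.a (T.b (T.l 0) (T.a (T.l 3) (T.l 0))) (T.b (T.l 0) (T.l 0))) (T.a (T.b (T.a (T.l 0) (T.l 0)) (T.a (T.l 3) (T.l 0))) (T.b (T.a (T.l 0) (T.l 0)) (T.a (T.l 0) (T.l 0))))))) (T.l 3)) (T.l 3)), by decide +kernel⟩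
theorem cFA2 : ∃ t, chk3 (onCell 0 228810721 0 1073741824 923417968 42949674 (fdAx false pF (ndUR ndF2) (ndUR ndF3) (thLo (ndUR ndF2) (ndUR ndF3)))) t 1 1 1 = true :=
  ⟨(T.a (T.a (T.b (T.b (T.b (T.l 2) (T.c (T.b (T.a (T.c (T.l 0) (T.a (T.l 0) (T.l 0))) (T.l 0)) (T.a (T.l 0) (T.l 0))) (T.b (T.c (T.b (T.a (T.l 0) (T.l 0)) (T.l 0)) (T.b (T.a (T.a (T.l 0) (T.l 0)) (T.l 0)) (T.l 0))) (T.c (T.l 0) (T.l 0))))) (T.b (T.c (T.b (T.l 0) (T.l 0)) (T.b (T.a (T.l 0) (T.l 0)) (T.a (T.l 0) (T.l 0)))) (T.c (T.b (T.l 0) (T.b (T.a (T.l 0) (T.l 0)) (T.c (T.a (T.l 0) (T.l 0)) (T.a (T.l 0) (T.l 0))))) (T.b (T.a (T.l 0) (T.l 0)) (T.c (T.b (T.l 0) (T.a (T.a (T.l 0) (T.l 0)) (T.l 0))) (T.b (T.l 0) (T.a (T.c (T.l 0) (T.l 0)) (T.a (T.l 0) (T.l 0))))))))) (T.b (T.b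 (T.b (T.b (T.c (T.c (T.a (T.b (T.c (T.a (T.l 0) (T.l 0)) (T.a (T.l 0) (T.l 0))) (T.l 3)) (T.b (T.a (T.l 0) (T.l 0)) (T.l 3))) (T.a (T.b (T.c (T.a (T.l 0) (T.l 0)) (T.a (T.l 0) (T.l 0))) (T.l 3)) (T.b (T.a (T.l 0) (T.l 0)) (T.l 3)))) (T.c (T.a (T.b (T.c (T.a (T.a (T.l 0) (T.l 0)) (T.l 0)) (T.a (T.b (T.l 0) (T.l 3)) (T.a (T.l 0) (T.l 0)))) (T.l 3)) (T.b (T.c (T.l 0) (T.a (T.l 0) (T.l 0))) (T.l 3))) (T.a (T.b (T.c (T.a (T.b (T.l 0) (T.l 3)) (T.b (T.l 0) (T.l 3))) (T.a (T.b (T.l 0) (T.l 3)) (T.b (T.l 0) (T.l 3)))) (T.l 3)) (T.b (T.c (T.a (T.l 0) (T.l 0)) (T.a (T.a (T.l 0) (T.l 0)) (T.l 0))) (T.l 3))))) (T.l 3)) (T.l 3)) (T.l 3)) (T.l 3))) (T.b (T.b (T.b (T.l 2) (T.c (T.b (T.l 0) (T.l 0)) (T.b (T.a (T.l 0) (T.l 0)) (T.a (T.l 0) (T.l 0)))))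 (T.b (T.c (T.b (T.l 0) (T.l 0)) (T.b (T.a (T.l 0) (T.l 0)) (T.a (T.l 0) (T.l 0)))) (T.c (T.b (T.l 0) (T.b (T.l 0) (T.c (T.l 0) (T.l 0)))) (T.b (T.a (T.l 0) (T.l 0)) (T.c (T.a (T.a (T.l 0) (T.l 0)) (T.l 0)) (T.a (T.b (T.l 0) (T.l 0)) (T.l 0))))))) (T.b (T.b (T.b (T.b (T.c (T.c (T.a (T.b (T.l 0) (T.a (T.b (T.l 0) (T.l 3)) (T.b (T.l 0) (T.l 3)))) (T.a (T.b (T.l 0) (T.l 0)) (T.l 0))) (T.a (T.b (T.l 0) (T.a (T.b (T.l 0) (T.l 3)) (T.b (T.l 0) (T.l 3)))) (T.a (T.b (T.l 0) (T.l 0)) (T.l 0)))) (T.c (T.a (T.b (T.l 0) (T.a (T.b (T.l 0) (T.l 3)) (T.b (T.l 0) (T.l 3)))) (T.a (T.b (T.l 0) (T.l 0)) (T.l 0))) (T.a (T.b (T.a (T.l 0) (T.l 0)) (T.a (T.b (T.a (T.l 3) (T.l 0)) (T.l 3)) (T.b (T.l 0) (T.l 3)))) (T.a (T.b (T.l 0) (T.l 0)) (T.l 0))))) (T.l 3))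 (T.l 3)) (T.l 3)) (T.l 3)))) (T.b (T.a (T.b (T.b (T.l 2) (T.c (T.b (T.l 0) (T.l 0)) (T.b (T.l 0) (T.a (T.l 0) (T.l 0))))) (T.b (T.c (T.b (T.l 0) (T.a (T.l 0) (T.l 0))) (T.b (T.a (T.l 0) (T.l 0)) (T.c (T.l 0) (T.l 0)))) (T.c (T.b (T.a (T.l 0) (T.l 0)) (T.c (T.l 0) (T.l 0))) (T.b (T.c (T.l 0) (T.a (T.l 0) (T.l 0))) (T.c (T.a (T.l 0) (T.l 0)) (T.a (T.l 0) (T.l 0))))))) (T.b (T.b (T.l 2) (T.b (T.l 2) (T.c (T.l 0) (T.a (T.l 0) (T.l 0))))) (T.b (T.c (T.b (T.l 0) (T.a (T.l 0) (T.l 0))) (T.b (T.b (T.l 0) (T.l 0)) (T.c (T.l 0) (T.a (T.l 0) (T.l 0))))) (T.a (T.c (T.b (T.a (T.l 0) (T.l 0)) (T.a (T.l 0) (T.l 0))) (T.b (T.c (T.l 0) (T.l 0)) (T.c (T.l 0) (T.l 0)))) (T.b (T.c (T.a (T.l 0) (T.l 0)) (T.c (T.l 0) (T.l 0))) (T.c (T.a (T.a (T.l 0) (T.l 0))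 (T.b (T.l 0) (T.l 0))) (T.a (T.b (T.l 0) (T.l 0)) (T.c (T.l 0) (T.a (T.l 0) (T.l 0)))))))))) (T.b (T.b (T.b (T.a (T.c (T.b (T.c (T.a (T.l 0) (T.l 0)) (T.a (T.l 0) (T.l 0))) (T.c (T.a (T.b (T.a (T.l 3) (T.b (T.l 0) (T.l 3))) (T.l 3)) (T.b (T.a (T.l 0) (T.l 0)) (T.l 3))) (T.a (T.b (T.a (T.l 3) (T.l 0)) (T.l 3)) (T.b (T.l 0) (T.l 3))))) (T.c (T.b (T.a (T.l 0) (T.l 0)) (T.a (T.b (T.a (T.l 3) (T.l 0)) (T.l 3)) (T.b (T.l 0) (T.l 3)))) (T.b (T.a (T.l 0) (T.l 0)) (T.a (T.b (T.a (T.l 3) (T.l 0)) (T.l 3)) (T.a (T.l 0) (T.l 0)))))) (T.a (T.c (T.b (T.a (T.l 0) (T.l 0)) (T.b (T.a (T.l 0) (T.l 0)) (T.l 3))) (T.c (T.a (T.l 0) (T.l 0)) (T.l 0))) (T.c (T.b (T.a (T.l 0) (T.l 0)) (T.a (T.c (T.a (T.l 0) (T.l 0)) (T.l 0)) (T.b (T.l 0) (T.l 0)))) (T.b (T.c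 (T.l 0) (T.l 0)) (T.c (T.l 0) (T.a (T.l 0) (T.l 0))))))) (T.l 3)) (T.l 3)) (T.l 3)))), by decide +kernel⟩

end Pool.Agent.Strip051.G.I8600_9000.Tab.DG
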