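import Pool.Agent.Strip051.G.I8600_9000.DgP

/-! # The corner (1, 1, 2): certificates of the degenerate charts (generated) -/

set_option linter.all false

namespace Pool.Agent.Strip051.G.I8600_9000.Tab.DG

open Pool.Agent.Strip051.PB Pool.Agent.Strip051.PB.Dg Pool.Agent.StripNear Pool.Agent.Strip051.LC

theorem cFA3 : ∃ t, chk3 (onCell 0 228810721 0 1073741824 923417968 42949674 (fdAy true pF (ndUR ndF3) (dgSC pF) (thUp (ndUR ndF3) (dgSC pF)))) t 1 1 1 = true :=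
  ⟨(T.a (T.a (T.b (T.a (T.a (T.b (T.l 2) (T.a (T.b (T.l 2) (T.a (T.b (T.l 2) (T.b (T.l 2) (T.b (T.l 2) (T.c (T.a (T.l 96) (T.l 2)) (T.c (T.l 0) (T.l 64)))))) (T.l 2))) (T.l 2))) (T.l 2)) (T.l 2)) (T.c (T.b (T.b (T.a (T.c (T.l 64) (T.a (T.l 64) (T.l 64))) (T.c (T.l 16480) (T.a (T.l 64) (T.l 96)))) (T.l 16448)) (T.a (T.l 349520) (T.a (T.l 357712) (T.l 357712)))) (T.b (T.b (T.a (T.b (T.c (T.l 96) (T.a (T.l 64) (T.l 96))) (T.l 64)) (T.b (T.c (T.l 96) (T.a (T.l 96) (T.l 96))) (T.l 16448))) (T.a (T.l 16448) (T.l 16448))) (T.a (T.l 349520) (T.c (T.l 357712) (T.l 357712)))))) (T.a (T.b (T.l 2) (T.c (T.b (T.b (T.c (T.l 16480) (T.a (T.l 96) (T.l 16480))) (T.l 16448)) (T.b (T.l 286784) (T.c (T.l 357712) (T.l 357712)))) (T.b (T.b (T.b (T.c (T.l 96) (T.l 96)) (T.l 16448)) (T.l 24640)) (T.b (T.a (T.l 286784) (T.l 286784)) (T.c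 (T.a (T.l 357712) (T.l 357712)) (T.a (T.l 357712) (T.l 357712))))))) (T.b (T.l 2) (T.a (T.c (T.b (T.b (T.a (T.l 16480) (T.l 16480)) (T.l 16448)) (T.b (T.l 286784) (T.c (T.l 357712) (T.l 357712)))) (T.b (T.b (T.a (T.l 16480) (T.l 16480)) (T.l 24640)) (T.b (T.l 286784) (T.c (T.l 357712) (T.a (T.l 357712) (T.l 357712)))))) (T.b (T.b (T.c (T.b (T.a (T.b (T.a (T.l 32) (T.l 32)) (T.l 32)) (T.c (T.l 32) (T.l 32))) (T.a (T.l 16416) (T.l 8224))) (T.b (T.a (T.b (T.a (T.l 32) (T.l 32)) (T.l 32)) (T.c (T.l 32) (T.l 32))) (T.a (T.l 8288) (T.l 8224)))) (T.c (T.a (T.l 24640) (T.a (T.l 24640) (T.l 24672))) (T.a (T.a (T.l 16448) (T.l 24640)) (T.a (T.l 24672) (T.b (T.l 24576) (T.l 24576)))))) (T.b (T.c (T.a (T.c (T.l 24640) (T.l 24640)) (T.a (T.c (T.l 24576) (T.l 24576)) (T.c (T.l 24576) (T.l 24576)))) (T.a (T.a (T.l 286784) (T.c (T.l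 24576) (T.l 24576))) (T.a (T.c (T.l 24576) (T.c (T.l 24576) (T.l 24576))) (T.c (T.c (T.l 24576) (T.l 24576)) (T.b (T.l 24576) (T.a (T.l 24576) (T.l 24576))))))) (T.b (T.b (T.c (T.a (T.c (T.l 24576) (T.l 24576)) (T.c (T.a (T.l 24576) (T.l 24576)) (T.a (T.l 24576) (T.a (T.l 24576) (T.l 24576))))) (T.a (T.a (T.l 24576) (T.c (T.l 24576) (T.l 24576))) (T.c (T.a (T.a (T.l 24576) (T.l 24576)) (T.a (T.l 24576) (T.l 24576))) (T.a (T.a (T.l 24576) (T.l 24576)) (T.b (T.l 8192) (T.l 8192)))))) (T.a (T.c (T.a (T.l 24576) (T.a (T.l 24576) (T.l 24576))) (T.a (T.l 24576) (T.a (T.l 24576) (T.c (T.l 24576) (T.l 24576))))) (T.c (T.b (T.c (T.a (T.l 24576) (T.l 8192)) (T.a (T.l 24576) (T.a (T.l 8192) (T.l 8192)))) (T.a (T.a (T.l 24576) (T.l 24576)) (T.c (T.a (T.l 8192) (T.l 8192)) (T.a (T.l 8192) (T.l 8192))))) (T.b (T.c (T.a (T.a (T.l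 24576) (T.l 24576)) (T.a (T.l 8192) (T.l 8192))) (T.a (T.a (T.l 24576) (T.l 24576)) (T.a (T.l 8192) (T.l 8192)))) (T.a (T.c (T.a (T.l 24576) (T.l 24576)) (T.a (T.l 24576) (T.l 24576))) (T.c (T.a (T.l 8192) (T.l 8192)) (T.a (T.l 8192) (T.l 8192)))))))) (T.c (T.a (T.a (T.l 357712) (T.a (T.l 357712) (T.b (T.c (T.l 24576) (T.l 24576)) (T.b (T.c (T.l 24576) (T.l 24576)) (T.c (T.a (T.c (T.l 357712) (T.l 357712)) (T.b (T.b (T.l 24576) (T.l 24576)) (T.b (T.c (T.l 24576) (T.l 24576)) (T.l 357712)))) (T.b (T.a (T.l 24576) (T.b (T.l 24576) (T.c (T.l 24576) (T.a (T.l 24576) (T.l 24576))))) (T.c (T.a (T.l 357712) (T.a (T.l 357712) (T.l 357712))) (T.b (T.a (T.l 24576) (T.a (T.l 24576) (T.l 24576))) (T.a (T.a (T.l 357712) (T.l 357712)) (T.l 357712)))))))))) (T.b (T.c (T.a (T.a (T.l 24576) (T.b (T.l 24576) (T.b (T.a (T.l 8192) (T.l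 8192)) (T.a (T.l 24576) (T.l 16384))))) (T.b (T.b (T.l 8192) (T.a (T.l 8192) (T.l 0))) (T.l 24576))) (T.a (T.a (T.a (T.l 24576) (T.l 24576)) (T.b (T.a (T.l 24576) (T.l 24576)) (T.b (T.a (T.l 8192) (T.l 8192)) (T.b (T.l 8192) (T.l 8192))))) (T.b (T.b (T.l 8192) (T.a (T.l 8192) (T.l 0))) (T.l 24576)))) (T.a (T.a (T.b (T.c (T.b (T.a (T.l 24576) (T.l 24576)) (T.a (T.l 24576) (T.l 24576))) (T.b (T.a (T.l 24576) (T.b (T.l 8192) (T.l 8192))) (T.a (T.b (T.l 24576) (T.c (T.l 8192) (T.l 8192))) (T.l 24576)))) (T.l 357712)) (T.l 357712)) (T.l 349520)))) (T.a (T.a (T.c (T.l 357712) (T.l 357712)) (T.b (T.a (T.l 286784) (T.c (T.l 24576) (T.a (T.l 24576) (T.l 24576)))) (T.b (T.a (T.c (T.l 24576) (T.l 24576)) (T.c (T.a (T.l 24576) (T.l 24576)) (T.a (T.l 24576) (T.l 24576)))) (T.c (T.a (T.l 357712) (T.b (T.a (T.l 24576) (T.b (T.c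 (T.l 24576) (T.l 24576)) (T.c (T.a (T.l 24576) (T.l 24576)) (T.a (T.l 24576) (T.l 24576))))) (T.c (T.b (T.a (T.l 24576) (T.a (T.l 24576) (T.l 24576))) (T.a (T.a (T.l 357712) (T.l 357712)) (T.l 357712))) (T.b (T.a (T.l 24576) (T.a (T.l 24576) (T.l 24576))) (T.a (T.a (T.l 357712) (T.l 357712)) (T.l 357712)))))) (T.a (T.l 357712) (T.b (T.a (T.l 24576) (T.b (T.c (T.a (T.l 24576) (T.l 24576)) (T.a (T.l 24576) (T.l 24576))) (T.c (T.a (T.l 24576) (T.l 24576)) (T.a (T.l 24576) (T.l 24576))))) (T.c (T.b (T.a (T.a (T.l 24576) (T.l 24576)) (T.a (T.l 24576) (T.l 24576))) (T.a (T.a (T.l 357712) (T.l 357712)) (T.l 357712))) (T.b (T.a (T.a (T.l 24576) (T.l 24576)) (T.b (T.a (T.l 24576) (T.l 24576)) (T.l 24576))) (T.a (T.a (T.l 357712) (T.b (T.l 24576) (T.l 357712))) (T.l 357712)))))))))) (T.b (T.a (T.b (T.c (T.a (T.l 24576) (T.a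 (T.l 24576) (T.l 24576))) (T.a (T.l 24576) (T.b (T.l 8192) (T.l 8192)))) (T.c (T.a (T.a (T.l 24576) (T.l 24576)) (T.b (T.a (T.l 8192) (T.l 8192)) (T.b (T.l 8192) (T.l 8192)))) (T.a (T.a (T.l 24576) (T.c (T.l 24576) (T.l 24576))) (T.b (T.a (T.l 8192) (T.l 8192)) (T.b (T.l 8192) (T.l 8192)))))) (T.b (T.a (T.c (T.a (T.l 8192) (T.l 8192)) (T.a (T.l 8192) (T.l 8192))) (T.l 16384)) (T.l 24640))) (T.a (T.a (T.b (T.c (T.b (T.a (T.l 24576) (T.b (T.l 8192) (T.l 8192))) (T.a (T.b (T.c (T.l 8192) (T.l 8192)) (T.c (T.l 8192) (T.a (T.l 8192) (T.l 8192)))) (T.l 24576))) (T.b (T.a (T.c (T.l 24576) (T.l 24576)) (T.b (T.l 8192) (T.l 8192))) (T.a (T.b (T.c (T.l 8192) (T.l 8192)) (T.c (T.a (T.l 8192) (T.l 8192)) (T.a (T.l 8192) (T.l 8192)))) (T.l 24576)))) (T.l 357712)) (T.l 357712)) (T.l 349520)))))))))))) (T.b (T.l 2) (T.c (T.b (T.a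 (T.a (T.a (T.b (T.a (T.b (T.c (T.l 32) (T.l 32)) (T.l 8224)) (T.b (T.b (T.a (T.l 32) (T.l 32)) (T.l 32)) (T.a (T.l 32) (T.l 32)))) (T.a (T.a (T.b (T.l 8192) (T.l 24576)) (T.c (T.l 24576) (T.b (T.l 0) (T.l 8192)))) (T.b (T.a (T.l 8192) (T.l 8192)) (T.b (T.l 8192) (T.l 8192))))) (T.b (T.a (T.b (T.b (T.a (T.l 32) (T.l 32)) (T.l 32)) (T.a (T.l 32) (T.l 32))) (T.b (T.b (T.l 2) (T.a (T.l 32) (T.l 32))) (T.a (T.l 32) (T.l 32)))) (T.b (T.a (T.a (T.l 8192) (T.l 8224)) (T.l 8224)) (T.a (T.a (T.l 8192) (T.l 8224)) (T.a (T.l 8224) (T.l 8224)))))) (T.a (T.b (T.a (T.b (T.c (T.a (T.l 32) (T.l 32)) (T.l 32)) (T.a (T.l 32) (T.l 32))) (T.b (T.c (T.a (T.l 32) (T.l 32)) (T.l 32)) (T.a (T.l 32) (T.l 8224)))) (T.b (T.a (T.a (T.l 32) (T.l 32)) (T.a (T.l 32) (T.l 32))) (T.a (T.b (T.l 32) (T.l 8224)) (T.b (T.l 8224) (T.l 8224))))) (T.b (T.a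 (T.b (T.c (T.a (T.l 32) (T.l 32)) (T.l 32)) (T.a (T.l 8224) (T.l 8224))) (T.b (T.c (T.a (T.l 32) (T.l 32)) (T.l 32)) (T.a (T.l 8224) (T.l 8224)))) (T.b (T.a (T.a (T.l 8224) (T.l 8224)) (T.a (T.l 8224) (T.l 8224))) (T.a (T.b (T.l 8224) (T.l 8224)) (T.c (T.l 8224) (T.l 8224))))))) (T.a (T.a (T.b (T.b (T.b (T.l 2) (T.a (T.a (T.l 32) (T.l 32)) (T.a (T.l 32) (T.l 32)))) (T.a (T.a (T.l 8224) (T.l 8224)) (T.a (T.l 8224) (T.l 8224)))) (T.b (T.a (T.a (T.l 8224) (T.l 8224)) (T.c (T.l 8224) (T.l 8224))) (T.a (T.b (T.a (T.l 8192) (T.l 16384)) (T.l 24640)) (T.a (T.l 24640) (T.l 24640))))) (T.b (T.b (T.b (T.l 2) (T.a (T.a (T.l 32) (T.l 32)) (T.a (T.l 32) (T.l 32)))) (T.a (T.a (T.l 8224) (T.l 8224)) (T.a (T.l 8224) (T.l 8224)))) (T.b (T.a (T.b (T.l 8224) (T.l 24608)) (T.b (T.l 24608) (T.l 24640))) (T.a (T.a (T.l 24640) (T.l 24640))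 (T.a (T.l 24640) (T.l 24640)))))) (T.b (T.a (T.b (T.b (T.l 2) (T.a (T.a (T.l 32) (T.l 32)) (T.a (T.l 8224) (T.l 8224)))) (T.a (T.b (T.l 8224) (T.l 8224)) (T.c (T.l 8224) (T.l 8224)))) (T.b (T.b (T.l 2) (T.b (T.l 2) (T.a (T.l 8224) (T.l 8224)))) (T.a (T.c (T.l 8224) (T.l 8224)) (T.c (T.l 8224) (T.l 8224))))) (T.a (T.b (T.a (T.c (T.l 24608) (T.l 24576)) (T.a (T.l 24608) (T.l 24608))) (T.a (T.a (T.l 24576) (T.l 24576)) (T.a (T.l 24576) (T.l 24576)))) (T.b (T.a (T.c (T.l 24576) (T.l 24576)) (T.a (T.b (T.l 8192) (T.l 24576)) (T.l 24640))) (T.a (T.a (T.l 24576) (T.l 24576)) (T.c (T.l 24576) (T.l 24576)))))))) (T.b (T.b (T.a (T.a (T.a (T.a (T.b (T.a (T.l 8192) (T.l 8192)) (T.c (T.l 8192) (T.l 8192))) (T.c (T.a (T.l 8192) (T.l 0)) (T.a (T.l 0) (T.l 0)))) (T.a (T.b (T.l 8224) (T.a (T.l 0) (T.l 32))) (T.b (T.a (T.l 0) (T.l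 32)) (T.a (T.l 32) (T.l 32))))) (T.a (T.a (T.b (T.a (T.l 32) (T.l 32)) (T.a (T.l 32) (T.l 32))) (T.b (T.a (T.l 32) (T.l 0)) (T.a (T.l 32) (T.l 32)))) (T.a (T.b (T.a (T.l 0) (T.l 8192)) (T.l 16448)) (T.l 24672)))) (T.a (T.a (T.a (T.l 24640) (T.l 24640)) (T.a (T.a (T.l 24576) (T.l 24576)) (T.a (T.l 24576) (T.l 24576)))) (T.a (T.a (T.a (T.l 24576) (T.l 24576)) (T.c (T.l 24576) (T.l 24576))) (T.a (T.c (T.l 24576) (T.l 24576)) (T.c (T.l 24576) (T.l 24576)))))) (T.a (T.a (T.a (T.a (T.b (T.c (T.l 8192) (T.l 8192)) (T.c (T.a (T.l 8192) (T.l 0)) (T.a (T.l 8192) (T.l 0)))) (T.b (T.a (T.l 8192) (T.l 8224)) (T.a (T.l 8256) (T.l 64)))) (T.a (T.a (T.l 24672) (T.a (T.l 24672) (T.l 16480))) (T.b (T.c (T.l 32) (T.a (T.l 32) (T.l 32))) (T.a (T.b (T.l 32) (T.l 32)) (T.b (T.l 32) (T.l 32)))))) (T.a (T.a (T.b (T.c (T.l 32) (T.a (T.l 0)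 (T.l 0))) (T.a (T.a (T.l 32) (T.l 32)) (T.l 16448))) (T.b (T.a (T.l 8224) (T.l 16448)) (T.l 16448))) (T.a (T.l 24640) (T.l 286784)))) (T.a (T.a (T.a (T.l 286784) (T.a (T.l 24640) (T.l 24640))) (T.a (T.a (T.l 24640) (T.l 286784)) (T.a (T.l 286784) (T.l 286784)))) (T.a (T.a (T.a (T.l 286784) (T.l 286784)) (T.c (T.l 24640) (T.l 24576))) (T.a (T.c (T.l 24576) (T.l 286720)) (T.l 4)))))) (T.b (T.a (T.a (T.a (T.a (T.b (T.c (T.a (T.a (T.l 8192) (T.l 8192)) (T.l 8192)) (T.a (T.a (T.l 8192) (T.l 8192)) (T.l 8192))) (T.b (T.a (T.b (T.l 8192) (T.l 8192)) (T.l 16448)) (T.l 24640))) (T.a (T.l 17472) (T.l 17504))) (T.a (T.a (T.a (T.l 17504) (T.l 17504)) (T.b (T.c (T.l 96) (T.a (T.l 96) (T.l 32))) (T.b (T.c (T.l 32) (T.a (T.l 32) (T.l 32))) (T.c (T.a (T.l 32) (T.l 32)) (T.a (T.l 32) (T.l 32)))))) (T.b (T.a (T.c (T.a (T.l 32) (T.l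 32)) (T.a (T.l 32) (T.l 32))) (T.b (T.l 32) (T.a (T.l 32) (T.l 64)))) (T.a (T.b (T.c (T.l 32) (T.l 32)) (T.l 16448)) (T.l 16448))))) (T.a (T.a (T.l 279648) (T.l 287808)) (T.a (T.l 291904) (T.l 291904)))) (T.a (T.a (T.a (T.a (T.l 286784) (T.l 286784)) (T.a (T.l 286784) (T.l 286784))) (T.a (T.c (T.l 286784) (T.l 286784)) (T.c (T.l 286784) (T.l 286784)))) (T.a (T.a (T.c (T.l 286784) (T.l 286784)) (T.l 4)) (T.l 4)))) (T.a (T.a (T.a (T.a (T.l 349520) (T.a (T.l 349552) (T.b (T.l 17504) (T.c (T.l 349552) (T.a (T.l 349552) (T.a (T.l 349552) (T.l 349552))))))) (T.a (T.b (T.a (T.a (T.l 17504) (T.c (T.l 16480) (T.b (T.l 96) (T.b (T.l 32) (T.a (T.l 32) (T.l 64)))))) (T.b (T.a (T.c (T.l 96) (T.a (T.l 32) (T.l 32))) (T.l 64)) (T.l 16480))) (T.a (T.b (T.a (T.c (T.l 16480) (T.a (T.l 96) (T.l 96))) (T.l 17504)) (T.l 349552)) (T.l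 349520))) (T.l 349552))) (T.a (T.a (T.l 349520) (T.l 357712)) (T.a (T.l 357712) (T.a (T.l 357712) (T.l 357712))))) (T.a (T.a (T.a (T.c (T.l 357712) (T.l 357712)) (T.c (T.l 357712) (T.l 357712))) (T.a (T.c (T.l 357712) (T.l 357712)) (T.c (T.l 357712) (T.l 357712)))) (T.l 4)))))) (T.b (T.a (T.a (T.a (T.b (T.a (T.b (T.c (T.l 32) (T.l 32)) (T.l 8224)) (T.b (T.b (T.a (T.l 32) (T.l 32)) (T.l 32)) (T.a (T.l 8224) (T.l 8224)))) (T.a (T.b (T.a (T.l 24576) (T.l 8192)) (T.c (T.l 8192) (T.a (T.l 8192) (T.l 8192)))) (T.b (T.a (T.l 8192) (T.l 8192)) (T.c (T.l 8192) (T.l 8192))))) (T.b (T.a (T.b (T.c (T.l 32) (T.l 32)) (T.a (T.l 8224) (T.l 8224))) (T.b (T.b (T.l 2) (T.l 8224)) (T.a (T.l 32) (T.l 8224)))) (T.a (T.b (T.a (T.l 8224) (T.l 8224)) (T.a (T.l 8224) (T.l 8224))) (T.b (T.a (T.l 8224) (T.l 8224)) (T.a (T.l 8224) (T.l 8224))))))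 (T.a (T.b (T.a (T.b (T.b (T.l 2) (T.l 8224)) (T.a (T.l 8224) (T.l 8224))) (T.b (T.b (T.l 2) (T.l 8224)) (T.a (T.l 8224) (T.l 8224)))) (T.b (T.a (T.a (T.l 8224) (T.l 8224)) (T.a (T.l 8224) (T.l 8224))) (T.a (T.b (T.l 32) (T.a (T.l 32) (T.l 32))) (T.c (T.l 32) (T.l 32))))) (T.b (T.a (T.b (T.b (T.l 2) (T.l 8224)) (T.a (T.l 8224) (T.l 8224))) (T.b (T.b (T.l 2) (T.l 8224)) (T.a (T.l 8224) (T.l 8224)))) (T.b (T.a (T.a (T.l 8224) (T.l 8224)) (T.a (T.l 8224) (T.l 8224))) (T.a (T.b (T.l 8224) (T.l 8224)) (T.b (T.l 8224) (T.a (T.l 8192) (T.l 16384)))))))) (T.a (T.a (T.b (T.b (T.b (T.l 2) (T.a (T.l 8224) (T.l 8224))) (T.a (T.a (T.l 8224) (T.l 8224)) (T.a (T.l 8224) (T.l 8224)))) (T.b (T.a (T.b (T.l 8224) (T.l 8224)) (T.c (T.l 8192) (T.a (T.l 8192) (T.l 8192)))) (T.a (T.b (T.a (T.l 8192) (T.l 8192)) (T.l 24640)) (T.a (T.l 24640)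 (T.l 24640))))) (T.b (T.b (T.b (T.l 2) (T.a (T.l 8224) (T.l 8224))) (T.a (T.b (T.l 8224) (T.l 8224)) (T.c (T.l 8192) (T.l 8192)))) (T.b (T.a (T.a (T.b (T.l 8192) (T.l 8192)) (T.l 24640)) (T.c (T.l 24576) (T.l 24576))) (T.a (T.a (T.l 24576) (T.l 24576)) (T.b (T.l 24576) (T.l 24576)))))) (T.b (T.a (T.b (T.b (T.l 2) (T.a (T.l 8224) (T.l 8224))) (T.a (T.c (T.l 8192) (T.l 8192)) (T.c (T.l 8192) (T.l 8192)))) (T.b (T.b (T.l 2) (T.a (T.l 8224) (T.l 8224))) (T.a (T.c (T.l 8192) (T.l 8192)) (T.c (T.a (T.l 8192) (T.l 8192)) (T.a (T.l 8192) (T.l 8192)))))) (T.a (T.b (T.a (T.c (T.l 24576) (T.a (T.l 8192) (T.l 24576))) (T.c (T.l 24576) (T.l 24576))) (T.a (T.a (T.l 24576) (T.l 24576)) (T.c (T.l 24576) (T.l 24576)))) (T.b (T.a (T.c (T.a (T.l 24576) (T.l 24576)) (T.a (T.l 24576) (T.l 24576))) (T.a (T.b (T.l 8192) (T.l 24576)) (T.l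 24576))) (T.a (T.c (T.l 24576) (T.l 24576)) (T.c (T.l 24576) (T.l 24576)))))))) (T.b (T.b (T.a (T.a (T.a (T.a (T.b (T.a (T.l 8192) (T.l 8192)) (T.c (T.l 8192) (T.l 8192))) (T.c (T.a (T.l 0) (T.l 0)) (T.a (T.l 0) (T.l 0)))) (T.a (T.b (T.l 8224) (T.a (T.l 32) (T.l 32))) (T.b (T.a (T.l 32) (T.l 32)) (T.c (T.l 32) (T.a (T.l 32) (T.l 32)))))) (T.a (T.a (T.b (T.a (T.l 32) (T.l 32)) (T.c (T.l 32) (T.l 32))) (T.b (T.a (T.l 32) (T.l 32)) (T.a (T.l 32) (T.l 32)))) (T.a (T.b (T.a (T.l 0) (T.l 8192)) (T.l 24640)) (T.l 24640)))) (T.a (T.a (T.a (T.a (T.l 24640) (T.l 24640)) (T.a (T.l 24576) (T.l 24576))) (T.a (T.a (T.l 24576) (T.l 24576)) (T.c (T.l 24576) (T.l 24576)))) (T.a (T.a (T.c (T.l 24576) (T.l 24576)) (T.c (T.l 24576) (T.l 24576))) (T.a (T.c (T.l 24576) (T.a (T.l 24576) (T.l 24576))) (T.c (T.l 24576) (T.a (T.l 24576) (T.l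 24576))))))) (T.a (T.a (T.a (T.a (T.b (T.c (T.a (T.l 8192) (T.l 0)) (T.a (T.l 8192) (T.l 0))) (T.c (T.a (T.l 8192) (T.l 0)) (T.a (T.l 8192) (T.l 0)))) (T.b (T.a (T.l 8192) (T.l 8288)) (T.a (T.l 8256) (T.l 96)))) (T.a (T.b (T.a (T.l 96) (T.b (T.l 32) (T.l 32))) (T.a (T.l 96) (T.c (T.a (T.l 32) (T.l 32)) (T.a (T.l 32) (T.l 32))))) (T.b (T.c (T.a (T.l 32) (T.l 32)) (T.a (T.l 32) (T.l 32))) (T.a (T.c (T.l 32) (T.a (T.l 32) (T.l 32))) (T.c (T.l 32) (T.a (T.l 32) (T.l 32))))))) (T.a (T.a (T.b (T.a (T.a (T.l 32) (T.l 32)) (T.a (T.l 32) (T.l 32))) (T.a (T.b (T.l 32) (T.l 32)) (T.l 16448))) (T.b (T.a (T.l 8224) (T.l 16448)) (T.l 16448))) (T.a (T.l 286784) (T.l 286784)))) (T.a (T.a (T.a (T.a (T.l 286784) (T.l 286784)) (T.a (T.l 286784) (T.l 286784))) (T.a (T.c (T.l 286720) (T.l 286720)) (T.c (T.l 286720) (T.l 286720)))) (T.a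 (T.a (T.c (T.l 286720) (T.a (T.l 24576) (T.l 24576))) (T.c (T.a (T.l 24576) (T.l 24576)) (T.a (T.l 24576) (T.l 24576)))) (T.a (T.b (T.c (T.l 24576) (T.l 24576)) (T.l 4)) (T.l 4)))))) (T.b (T.a (T.a (T.a (T.a (T.b (T.a (T.b (T.a (T.l 8192) (T.l 8192)) (T.a (T.l 8192) (T.l 8192))) (T.b (T.l 8192) (T.l 16448))) (T.b (T.a (T.b (T.l 8192) (T.l 8192)) (T.l 16448)) (T.l 24640))) (T.a (T.l 17504) (T.a (T.l 17504) (T.l 17504)))) (T.a (T.b (T.c (T.a (T.l 96) (T.b (T.l 32) (T.l 32))) (T.a (T.a (T.l 96) (T.l 96)) (T.b (T.l 32) (T.a (T.l 32) (T.l 32))))) (T.a (T.b (T.c (T.l 96) (T.a (T.l 96) (T.a (T.l 32) (T.l 32)))) (T.c (T.a (T.l 96) (T.l 96)) (T.a (T.l 96) (T.b (T.l 32) (T.a (T.l 32) (T.l 32)))))) (T.b (T.c (T.a (T.l 32) (T.l 32)) (T.a (T.a (T.l 32) (T.l 32)) (T.l 32))) (T.c (T.a (T.a (T.l 32) (T.l 32)) (T.l 32)) (T.a (T.b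 (T.l 32) (T.l 32)) (T.a (T.l 32) (T.l 32))))))) (T.b (T.a (T.c (T.b (T.l 32) (T.l 32)) (T.b (T.l 32) (T.a (T.l 32) (T.l 32)))) (T.c (T.a (T.l 32) (T.l 32)) (T.b (T.l 32) (T.l 32)))) (T.a (T.b (T.c (T.a (T.l 32) (T.l 32)) (T.a (T.l 32) (T.l 32))) (T.l 16480)) (T.l 16480))))) (T.a (T.a (T.l 279648) (T.l 287808)) (T.a (T.l 291904) (T.a (T.l 287808) (T.l 287808))))) (T.a (T.a (T.a (T.c (T.l 286784) (T.l 287808)) (T.c (T.l 286784) (T.a (T.l 286784) (T.l 286784)))) (T.a (T.c (T.a (T.l 286784) (T.l 286784)) (T.a (T.l 286784) (T.l 286784))) (T.c (T.a (T.l 286784) (T.l 286784)) (T.a (T.l 286784) (T.l 286784))))) (T.a (T.a (T.c (T.a (T.l 286784) (T.l 286784)) (T.a (T.l 286784) (T.l 286784))) (T.l 4)) (T.l 4)))) (T.a (T.a (T.a (T.a (T.l 349552) (T.a (T.b (T.l 17504) (T.l 349552)) (T.b (T.c (T.l 16480) (T.a (T.l 96) (T.a (T.l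 96) (T.l 96)))) (T.b (T.c (T.a (T.l 96) (T.l 16480)) (T.a (T.l 96) (T.a (T.l 96) (T.b (T.c (T.l 96) (T.l 96)) (T.b (T.c (T.l 96) (T.a (T.l 96) (T.b (T.l 32) (T.l 32)))) (T.c (T.a (T.l 96) (T.l 32)) (T.c (T.a (T.l 32) (T.l 32)) (T.a (T.l 32) (T.l 32))))))))) (T.c (T.a (T.l 349552) (T.b (T.c (T.l 96) (T.a (T.l 96) (T.l 96))) (T.a (T.l 349552) (T.l 349552)))) (T.a (T.a (T.l 349552) (T.b (T.l 96) (T.c (T.l 349552) (T.b (T.l 96) (T.a (T.l 349552) (T.b (T.l 96) (T.c (T.l 349552) (T.a (T.l 349552) (T.l 349552))))))))) (T.b (T.b (T.a (T.c (T.l 96) (T.a (T.l 96) (T.l 96))) (T.c (T.a (T.l 96) (T.l 96)) (T.a (T.b (T.l 32) (T.c (T.l 32) (T.l 32))) (T.l 96)))) (T.a (T.c (T.l 96) (T.a (T.l 96) (T.c (T.l 96) (T.a (T.l 96) (T.b (T.l 32) (T.l 32)))))) (T.l 96))) (T.a (T.b (T.c (T.a (T.l 96) (T.l 96)) (T.a (T.c (T.l 96) (T.b (T.l 96)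 (T.a (T.l 96) (T.l 96)))) (T.l 96))) (T.l 349552)) (T.l 349552))))))))) (T.a (T.b (T.a (T.b (T.c (T.a (T.l 96) (T.b (T.l 32) (T.a (T.l 32) (T.l 32)))) (T.a (T.c (T.l 96) (T.b (T.l 32) (T.l 32))) (T.b (T.a (T.l 32) (T.l 32)) (T.c (T.l 32) (T.l 32))))) (T.c (T.a (T.b (T.l 96) (T.c (T.l 32) (T.a (T.l 32) (T.l 32)))) (T.b (T.a (T.l 32) (T.l 32)) (T.b (T.l 32) (T.l 96)))) (T.a (T.b (T.c (T.l 96) (T.a (T.l 32) (T.l 32))) (T.c (T.a (T.l 32) (T.l 32)) (T.a (T.a (T.l 96) (T.l 32)) (T.a (T.l 32) (T.l 32))))) (T.b (T.c (T.l 32) (T.a (T.l 32) (T.l 32))) (T.b (T.a (T.l 32) (T.l 32)) (T.l 96)))))) (T.b (T.a (T.c (T.b (T.l 32) (T.l 32)) (T.b (T.l 32) (T.a (T.l 32) (T.l 32)))) (T.l 96)) (T.l 17504))) (T.a (T.b (T.a (T.c (T.b (T.a (T.l 96) (T.b (T.l 32) (T.l 32))) (T.b (T.a (T.c (T.l 32) (T.l 32)) (T.l 96)) (T.l 96))) (T.b (T.c (T.a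 (T.a (T.l 96) (T.l 32)) (T.a (T.l 32) (T.l 32))) (T.a (T.b (T.l 32) (T.a (T.l 32) (T.l 32))) (T.b (T.l 32) (T.l 32)))) (T.b (T.a (T.c (T.l 32) (T.a (T.l 32) (T.l 32))) (T.l 96)) (T.l 96)))) (T.l 17504)) (T.l 349552)) (T.l 349552))) (T.a (T.l 349552) (T.l 349520)))) (T.a (T.a (T.l 357712) (T.l 357712)) (T.a (T.a (T.l 357712) (T.l 357712)) (T.c (T.l 357712) (T.l 357712))))) (T.a (T.a (T.a (T.c (T.l 357712) (T.a (T.l 357712) (T.l 357712))) (T.c (T.a (T.l 357712) (T.l 357712)) (T.a (T.l 357712) (T.l 357712)))) (T.a (T.c (T.a (T.l 357712) (T.l 357712)) (T.a (T.a (T.l 357712) (T.l 357712)) (T.a (T.l 357712) (T.l 357712)))) (T.a (T.c (T.l 357712) (T.a (T.l 357712) (T.l 357712))) (T.l 4)))) (T.l 4))))))))), by decide +kernel⟩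

end Pool.Agent.Strip051.G.I8600_9000.Tab.DG
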