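import Pool.Agent.Strip051.G.I8600_9000.DgP

/-! # The corner (1, 1, 2): certificates of the degenerate charts (generated) -/

set_option linter.all false

namespace Pool.Agent.Strip051.G.I8600_9000.Tab.DG

open Pool.Agent.Strip051.PB Pool.Agent.Strip051.PB.Dg Pool.Agent.StripNear Pool.Agent.Strip051.LC

theorem cNA3 : ∃ t, chk3 (onCell 0 228810721 0 1073741824 923417968 42949674 (fdAW pN qN (ndUR ndN3) (dgSC pN) (thUp (ndUR ndN3) (dgSC pN)) (tuUp (ndUR ndN3) (dgSC pN) (suR ndN3) (suC qN)))) t 1 1 1 = true :=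
  ⟨(T.a (T.a (T.b (T.a (T.a (T.b (T.l 2) (T.a (T.b (T.l 2) (T.a (T.b (T.l 2) (T.c (T.l 8224) (T.l 32))) (T.l 2))) (T.l 2))) (T.l 2)) (T.l 2)) (T.c (T.b (T.b (T.c (T.a (T.l 8224) (T.l 8224)) (T.l 8224)) (T.c (T.a (T.l 32) (T.l 8224)) (T.l 8224))) (T.b (T.a (T.l 0) (T.l 8192)) (T.a (T.l 0) (T.l 0)))) (T.b (T.c (T.b (T.l 8224) (T.l 0)) (T.b (T.l 8224) (T.l 0))) (T.c (T.l 139808) (T.a (T.l 8224) (T.l 8224)))))) (T.a (T.b (T.l 2) (T.c (T.b (T.b (T.a (T.l 8224) (T.l 8224)) (T.l 8224)) (T.b (T.l 8192) (T.l 8192))) (T.b (T.c (T.b (T.l 8224) (T.l 0)) (T.b (T.l 32) (T.l 0))) (T.b (T.l 0) (T.l 0))))) (T.b (T.l 2) (T.b (T.c (T.a (T.b (T.l 8224) (T.l 8224)) (T.b (T.a (T.l 8224) (T.l 8224)) (T.l 8224))) (T.b (T.a (T.b (T.l 8224) (T.l 0)) (T.c (T.l 8224) (T.l 8224))) (T.c (T.a (T.l 0) (T.l 0)) (T.a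 (T.l 0) (T.l 0))))) (T.b (T.c (T.a (T.l 0) (T.l 8224)) (T.a (T.l 0) (T.l 0))) (T.c (T.a (T.l 0) (T.l 8872)) (T.a (T.l 0) (T.a (T.l 0) (T.l 0))))))))) (T.b (T.l 2) (T.c (T.a (T.a (T.b (T.b (T.a (T.a (T.l 8224) (T.l 8224)) (T.c (T.l 8224) (T.l 8224))) (T.a (T.a (T.l 8224) (T.l 8224)) (T.a (T.l 8224) (T.l 8224)))) (T.a (T.b (T.a (T.l 0) (T.l 8224)) (T.a (T.l 8224) (T.l 174760))) (T.b (T.a (T.l 8224) (T.l 8224)) (T.a (T.l 8872) (T.l 174760))))) (T.b (T.b (T.a (T.c (T.a (T.l 8224) (T.l 8224)) (T.l 8224)) (T.b (T.a (T.l 8224) (T.l 8224)) (T.l 8224))) (T.a (T.a (T.l 8224) (T.l 8224)) (T.b (T.l 8224) (T.l 8224)))) (T.a (T.b (T.b (T.l 8224) (T.l 8224)) (T.a (T.l 174760) (T.l 174760))) (T.b (T.b (T.l 8224) (T.l 8224)) (T.b (T.l 8224) (T.l 174760)))))) (T.a (T.b (T.b (T.a (T.b (T.b (T.l 2) (T.l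 8224)) (T.a (T.l 8224) (T.l 8224))) (T.b (T.b (T.l 2) (T.l 8224)) (T.a (T.l 8224) (T.l 8224)))) (T.a (T.b (T.a (T.l 8224) (T.l 8224)) (T.a (T.l 8224) (T.l 8224))) (T.b (T.a (T.l 8224) (T.l 8224)) (T.a (T.l 8224) (T.l 8224))))) (T.a (T.b (T.b (T.l 8224) (T.l 8224)) (T.c (T.a (T.l 8352) (T.l 8872)) (T.l 174760))) (T.b (T.c (T.a (T.l 8224) (T.l 8224)) (T.l 8224)) (T.c (T.a (T.l 174760) (T.l 174760)) (T.l 174760))))) (T.b (T.b (T.a (T.c (T.a (T.l 8224) (T.l 8224)) (T.b (T.a (T.l 8224) (T.l 8224)) (T.l 8224))) (T.c (T.a (T.l 8224) (T.l 8224)) (T.b (T.a (T.l 8224) (T.l 8224)) (T.l 8224)))) (T.a (T.c (T.a (T.l 8224) (T.l 8224)) (T.l 8224)) (T.c (T.a (T.l 8224) (T.l 8224)) (T.a (T.l 8224) (T.l 8224))))) (T.b (T.a (T.c (T.a (T.l 8224) (T.l 8224)) (T.l 8224)) (T.c (T.a (T.l 8224) (T.l 8224)) (T.l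 8224))) (T.a (T.b (T.a (T.l 0) (T.l 4)) (T.l 4)) (T.l 4)))))) (T.a (T.a (T.b (T.a (T.c (T.b (T.a (T.l 8224) (T.l 8224)) (T.l 8224)) (T.b (T.l 8224) (T.l 8224))) (T.b (T.c (T.a (T.l 8224) (T.l 8224)) (T.l 8224)) (T.c (T.l 8224) (T.l 8224)))) (T.b (T.a (T.b (T.l 0) (T.l 0)) (T.b (T.l 32) (T.l 0))) (T.a (T.b (T.l 0) (T.l 32)) (T.b (T.l 0) (T.l 32))))) (T.b (T.b (T.a (T.c (T.a (T.l 8224) (T.l 8224)) (T.l 8224)) (T.c (T.a (T.l 8224) (T.l 8224)) (T.l 8224))) (T.a (T.c (T.l 8224) (T.l 8224)) (T.c (T.l 8224) (T.l 8224)))) (T.b (T.a (T.b (T.l 8224) (T.l 8224)) (T.c (T.l 8224) (T.l 8224))) (T.a (T.b (T.l 0) (T.l 8224)) (T.b (T.l 8224) (T.l 43688)))))) (T.a (T.b (T.b (T.a (T.b (T.a (T.l 8224) (T.l 8224)) (T.a (T.l 8224) (T.l 8224))) (T.c (T.b (T.l 8224) (T.l 8224)) (T.a (T.l 8224) (T.l 8224))))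 (T.a (T.c (T.a (T.l 8224) (T.l 8224)) (T.l 8224)) (T.c (T.a (T.l 8224) (T.l 8224)) (T.l 8224)))) (T.b (T.a (T.c (T.l 8224) (T.l 8224)) (T.c (T.l 8224) (T.l 8224))) (T.a (T.b (T.l 8224) (T.l 174760)) (T.c (T.l 174760) (T.l 174760))))) (T.b (T.b (T.a (T.c (T.b (T.l 8224) (T.l 8224)) (T.a (T.l 8224) (T.l 8224))) (T.b (T.a (T.l 8224) (T.l 8224)) (T.a (T.l 8224) (T.l 8224)))) (T.a (T.c (T.a (T.l 8224) (T.l 8224)) (T.l 8224)) (T.c (T.a (T.l 8224) (T.l 8224)) (T.l 8224)))) (T.b (T.a (T.c (T.l 8224) (T.l 8224)) (T.c (T.l 8224) (T.l 8224))) (T.a (T.c (T.l 174760) (T.l 174760)) (T.l 4))))))))), by decide +kernel⟩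
theorem cNB2 : ∃ t, chk3 (onCell 0 228810721 0 2684354560 923417968 42949674 (fdBW pN qN (ndUR ndN2) (suR ndN2))) t 1 1 1 = true :=
  ⟨(T.b (T.b (T.b (T.b (T.a (T.b (T.l 2) (T.b (T.l 2) (T.c (T.a (T.c (T.a (T.c (T.b (T.a (T.l 0) (T.l 0)) (T.l 0)) (T.l 0)) (T.l 0)) (T.c (T.a (T.l 0) (T.l 0)) (T.l 0))) (T.a (T.l 0) (T.l 2))) (T.c (T.a (T.a (T.l 0) (T.l 0)) (T.l 0)) (T.a (T.c (T.l 0) (T.l 0)) (T.l 0)))))) (T.l 2)) (T.a (T.b (T.c (T.b (T.a (T.l 8192) (T.a (T.l 0) (T.l 0))) (T.l 8192)) (T.b (T.a (T.a (T.l 8192) (T.l 8192)) (T.c (T.l 0) (T.l 0))) (T.l 8224))) (T.l 4)) (T.c (T.b (T.a (T.a (T.l 0) (T.l 0)) (T.l 0)) (T.a (T.l 4) (T.l 8192))) (T.b (T.c (T.a (T.l 0) (T.l 0)) (T.a (T.l 0) (T.l 0))) (T.a (T.l 4) (T.l 8192)))))) (T.l 4)) (T.l 4)) (T.b (T.l 4) (T.a (T.l 4) (T.a (T.l 4) (T.l 4))))),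 by decide +kernel⟩
theorem cNB3 : ∃ t, chk3 (onCell 0 228810721 0 2684354560 923417968 42949674 (fdBW pN qN (ndUR ndN3) (suR ndN3))) t 1 1 1 = true :=
  ⟨(T.b (T.b (T.a (T.b (T.l 2) (T.b (T.l 2) (T.b (T.c (T.c (T.a (T.b (T.b (T.l 2) (T.b (T.l 2) (T.c (T.a (T.b (T.a (T.b (T.a (T.b (T.l 2) (T.l 32)) (T.l 2)) (T.l 32)) (T.l 2)) (T.a (T.l 32) (T.a (T.l 32) (T.l 32)))) (T.b (T.l 2) (T.a (T.b (T.l 2) (T.a (T.l 32) (T.l 2))) (T.l 2)))) (T.c (T.a (T.a (T.l 0) (T.b (T.l 2) (T.l 32))) (T.a (T.a (T.b (T.l 2) (T.l 32)) (T.l 2)) (T.l 2))) (T.a (T.l 0) (T.l 0)))))) (T.a (T.l 8224) (T.b (T.a (T.l 32) (T.c (T.b (T.a (T.l 32) (T.c (T.a (T.l 32) (T.b (T.b (T.l 2) (T.l 32)) (T.l 32))) (T.l 32))) (T.l 32)) (T.l 32))) (T.l 8224)))) (T.b (T.l 2) (T.b (T.b (T.a (T.b (T.l 2) (T.a (T.l 8224) (T.a (T.l 8224)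 (T.l 2)))) (T.l 2)) (T.a (T.l 8224) (T.a (T.l 8224) (T.b (T.l 2) (T.l 8224))))) (T.l 8224)))) (T.a (T.b (T.a (T.l 0) (T.a (T.l 0) (T.l 2))) (T.a (T.l 32) (T.l 32))) (T.b (T.l 2) (T.b (T.c (T.a (T.l 0) (T.l 0)) (T.l 0)) (T.l 32))))) (T.c (T.a (T.a (T.l 0) (T.l 0)) (T.a (T.l 0) (T.l 0))) (T.a (T.l 0) (T.l 0)))) (T.a (T.l 174760) (T.a (T.l 174760) (T.l 174760)))))) (T.b (T.l 2) (T.b (T.l 2) (T.a (T.b (T.b (T.l 2) (T.b (T.a (T.a (T.a (T.b (T.l 2) (T.c (T.b (T.l 2) (T.l 8224)) (T.l 0))) (T.l 2)) (T.l 2)) (T.l 2)) (T.c (T.a (T.l 8224) (T.c (T.a (T.l 8224) (T.c (T.b (T.a (T.l 8224) (T.l 2)) (T.l 8224)) (T.l 32))) (T.l 0))) (T.a (T.l 32) (T.l 0))))) (T.b (T.c (T.l 8224) (T.l 8224)) (T.l 174760))) (T.b (T.b (T.l 2) (T.b (T.l 2) (T.b (T.l 2) (T.a (T.c (T.l 8224) (T.l 0)) (T.a (T.c (T.l 8224) (T.l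 0)) (T.l 2)))))) (T.b (T.c (T.a (T.l 8224) (T.a (T.l 8224) (T.l 8224))) (T.a (T.l 8224) (T.l 8224))) (T.a (T.l 174760) (T.l 174760)))))))) (T.a (T.a (T.b (T.a (T.l 174760) (T.l 174760)) (T.l 4)) (T.b (T.b (T.l 174760) (T.l 4)) (T.l 4))) (T.b (T.b (T.b (T.a (T.a (T.l 174760) (T.l 174760)) (T.a (T.l 174760) (T.l 174760))) (T.l 4)) (T.l 4)) (T.l 4)))) (T.a (T.l 4) (T.b (T.l 4) (T.a (T.l 4) (T.l 4))))), by decide +kernel⟩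
theorem cNB4 : ∃ t, chk3 (onCell 0 228810721 0 2684354560 923417968 42949674 (fdBW pN qN (dgSC pN) (suC qN))) t 1 1 1 = true :=
  ⟨(T.b (T.b (T.l 2) (T.a (T.a (T.b (T.l 2) (T.b (T.b (T.c (T.l 0) (T.l 0)) (T.c (T.l 34952) (T.l 136))) (T.l 174760))) (T.b (T.l 2) (T.a (T.b (T.b (T.c (T.l 0) (T.l 0)) (T.a (T.l 174760) (T.l 174760))) (T.a (T.l 174760) (T.l 174760))) (T.b (T.b (T.b (T.l 2) (T.a (T.c (T.l 0) (T.l 0)) (T.c (T.l 0) (T.l 0)))) (T.b (T.a (T.l 174760) (T.l 174760)) (T.l 174760))) (T.a (T.l 174760) (T.l 174760)))))) (T.b (T.l 2) (T.a (T.c (T.c (T.a (T.b (T.b (T.a (T.l 0) (T.l 0)) (T.a (T.l 34952) (T.l 35496))) (T.a (T.l 174760) (T.l 174760))) (T.b (T.b (T.a (T.l 0) (T.a (T.l 0) (T.l 0))) (T.a (T.l 35496) (T.l 43688))) (T.a (T.l 174760) (T.l 174760)))) (T.a (T.b (T.b (T.a (T.l 0)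 (T.l 0)) (T.a (T.l 34952) (T.l 34952))) (T.a (T.l 174760) (T.l 174760))) (T.b (T.b (T.a (T.l 0) (T.l 0)) (T.a (T.l 35496) (T.l 35496))) (T.a (T.l 174760) (T.l 174760))))) (T.c (T.a (T.b (T.b (T.a (T.l 0) (T.l 0)) (T.a (T.l 34952) (T.l 34952))) (T.a (T.l 174760) (T.l 174760))) (T.b (T.b (T.a (T.l 0) (T.l 0)) (T.a (T.l 34984) (T.l 35496))) (T.a (T.l 174760) (T.l 174760)))) (T.a (T.b (T.b (T.a (T.l 0) (T.l 0)) (T.a (T.l 34952) (T.l 34952))) (T.a (T.l 174760) (T.l 174760))) (T.b (T.b (T.a (T.l 0) (T.l 0)) (T.a (T.l 34952) (T.l 35496))) (T.a (T.l 174760) (T.l 174760)))))) (T.a (T.b (T.a (T.b (T.b (T.l 2) (T.c (T.a (T.l 0) (T.l 0)) (T.a (T.l 0) (T.l 0)))) (T.c (T.a (T.l 35496) (T.l 43688)) (T.l 174760))) (T.b (T.b (T.l 2) (T.a (T.c (T.l 0) (T.l 0)) (T.l 6))) (T.l 6))) (T.a (T.a (T.b (T.l 174760)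 (T.l 6)) (T.l 6)) (T.l 6))) (T.l 6)))))) (T.b (T.a (T.b (T.a (T.a (T.l 174760) (T.l 174760)) (T.b (T.a (T.l 174760) (T.a (T.l 174760) (T.l 174760))) (T.l 4))) (T.l 4)) (T.a (T.b (T.b (T.b (T.a (T.l 174760) (T.a (T.l 174760) (T.l 6))) (T.l 4)) (T.l 4)) (T.l 4)) (T.l 6))) (T.a (T.l 4) (T.a (T.l 4) (T.l 5))))), by decide +kernel⟩
theorem cNP2 : ∃ t, chk3 (onCell 0 228810721 0 1073741824 923417968 42949674 (fdPW pN qN (ndUR ndN2) (suR ndN2))) t 1 1 1 = true :=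
  ⟨(T.b (T.b (T.b (T.a (T.b (T.l 174760) (T.a (T.c (T.l 8192) (T.a (T.l 8192) (T.l 8192))) (T.l 174760))) (T.a (T.l 174760) (T.l 174760))) (T.a (T.b (T.c (T.a (T.b (T.c (T.a (T.c (T.b (T.l 0) (T.l 0)) (T.l 0)) (T.l 0)) (T.a (T.l 0) (T.l 0))) (T.l 2)) (T.b (T.l 0) (T.l 0))) (T.c (T.a (T.b (T.l 0) (T.l 2)) (T.l 0)) (T.a (T.c (T.l 0) (T.a (T.l 0) (T.l 0))) (T.l 0)))) (T.l 2)) (T.c (T.b (T.a (T.l 0) (T.l 0)) (T.a (T.l 0) (T.l 0))) (T.b (T.c (T.l 0) (T.a (T.l 0) (T.l 0))) (T.c (T.a (T.l 0) (T.l 0)) (T.a (T.l 0) (T.l 0))))))) (T.l 2)) (T.l 2)), by decide +kernel⟩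
theorem cNP3 : ∃ t, chk3 (onCell 0 228810721 0 1073741824 923417968 42949674 (fdPW pN qN (ndUR ndN3) (suR ndN3))) t 1 1 1 = true :=
  ⟨(T.a (T.a (T.b (T.b (T.l 174760) (T.b (T.l 174760) (T.b (T.l 174760) (T.b (T.l 174760) (T.c (T.a (T.l 8224) (T.l 8224)) (T.a (T.l 32) (T.l 32))))))) (T.b (T.b (T.b (T.b (T.c (T.c (T.a (T.b (T.c (T.a (T.b (T.a (T.b (T.a (T.b (T.l 32) (T.l 2)) (T.l 32)) (T.l 2)) (T.b (T.l 32) (T.l 2))) (T.l 2)) (T.b (T.a (T.a (T.c (T.a (T.b (T.l 32) (T.l 2)) (T.l 32)) (T.l 32)) (T.l 32)) (T.l 32)) (T.l 2))) (T.a (T.b (T.c (T.l 0) (T.l 0)) (T.l 2)) (T.b (T.l 32) (T.l 2)))) (T.l 2)) (T.b (T.a (T.b (T.l 32) (T.c (T.a (T.b (T.a (T.l 2) (T.l 32)) (T.l 2)) (T.b (T.l 32) (T.l 2))) (T.c (T.a (T.b (T.l 32) (T.l 2)) (T.l 32)) (T.l 0)))) (T.c (T.a (T.a (T.c (T.a (T.l 32) (T.l 32))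 (T.l 32)) (T.l 32)) (T.l 32)) (T.l 32))) (T.l 2))) (T.a (T.a (T.l 0) (T.l 0)) (T.a (T.l 0) (T.l 0)))) (T.c (T.l 0) (T.l 0))) (T.l 2)) (T.l 2)) (T.l 2)) (T.l 2))) (T.b (T.b (T.l 174760) (T.b (T.l 174760) (T.c (T.l 8224) (T.l 8224)))) (T.b (T.b (T.b (T.b (T.c (T.c (T.a (T.b (T.l 8224) (T.c (T.a (T.b (T.a (T.l 2) (T.b (T.l 32) (T.l 2))) (T.l 2)) (T.b (T.a (T.l 32) (T.l 8224)) (T.l 2))) (T.a (T.b (T.a (T.l 2) (T.l 32)) (T.l 2)) (T.b (T.l 32) (T.l 2))))) (T.b (T.l 8224) (T.a (T.b (T.l 8224) (T.l 2)) (T.c (T.a (T.c (T.b (T.l 8224) (T.b (T.l 8224) (T.l 2))) (T.l 32)) (T.l 8224)) (T.l 32))))) (T.a (T.b (T.l 0) (T.l 0)) (T.c (T.l 0) (T.l 0)))) (T.c (T.l 0) (T.l 0))) (T.l 2)) (T.l 2)) (T.l 2)) (T.l 2)))) (T.b (T.b (T.l 174760) (T.a (T.b (T.l 174760) (T.a (T.l 174760) (T.l 174760))) (T.b (T.l 174760)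 (T.a (T.l 174760) (T.l 174760))))) (T.b (T.b (T.b (T.a (T.c (T.b (T.a (T.l 8224) (T.l 8224)) (T.c (T.a (T.b (T.a (T.l 2) (T.b (T.c (T.a (T.a (T.l 2) (T.l 8224)) (T.l 8224)) (T.l 32)) (T.l 2))) (T.l 2)) (T.b (T.a (T.b (T.l 8224) (T.l 2)) (T.c (T.a (T.b (T.l 8224) (T.l 2)) (T.l 8224)) (T.l 32))) (T.l 2))) (T.a (T.a (T.l 2) (T.l 0)) (T.a (T.l 0) (T.l 0))))) (T.c (T.a (T.l 0) (T.l 0)) (T.l 0))) (T.a (T.c (T.b (T.l 8224) (T.b (T.l 8224) (T.l 2))) (T.c (T.l 0) (T.l 0))) (T.c (T.b (T.l 8224) (T.b (T.l 8224) (T.c (T.a (T.b (T.l 8224) (T.l 2)) (T.b (T.l 8224) (T.l 2))) (T.a (T.l 0) (T.l 0))))) (T.b (T.l 8224) (T.a (T.l 0) (T.l 0)))))) (T.l 2)) (T.l 2)) (T.l 2)))), by decide +kernel⟩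

end Pool.Agent.Strip051.G.I8600_9000.Tab.DG
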