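import Pool.Agent.Strip051.PB.Cuts

/-! # Tables I8600_9000 (generated) -/

namespace Pool.Agent.Strip051.G.I8600_9000.Tab

open Pool.Agent.Strip051.PB

noncomputable def c1g : Fn1 := ⟨_, _, fun h1 => (enc_sqrtg (enc_sub (enc_pnc _ 1) (enc_scale 3 4 (enc_sq h1))))⟩
noncomputable def kcg_3 : Fn2 := ⟨_, _, fun h1 h2 => (enc_subr 22 25 h2)⟩
noncomputable def kcg_6 : Fn2 := ⟨_, _, fun h1 h2 => (enc_add h1 (enc_rat _ 767 2689))⟩
noncomputable def kcg_9 : Fn2 := ⟨_, _, fun h1 h2 => (enc_add h1 (enc_rat _ 83 200))⟩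
noncomputable def kcg_12 : Fn2 := ⟨_, _, fun h1 h2 => (enc_add h1 (enc_rat _ 89 200))⟩
noncomputable def kcg_13 : Fn2 := ⟨_, _, fun h1 h2 => (enc_scale 53298629 13750000 h1)⟩
noncomputable def kcg_18 : Fn2 := ⟨_, _, fun h1 h2 => (enc_scale 44433931 1100000 h1)⟩
noncomputable def kcg_31 : Fn2 := ⟨_, _, fun h1 h2 => (enc_subr 86603 2000 (enc_neg (enc_scale 108253 100 (kcg_3.enc h1 h2))))⟩
noncomputable def kcg_39 : Fn2 := ⟨_, _, fun h1 h2 => (enc_scale 2934547 15000000 h1)⟩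
noncomputable def kcg_44 : Fn2 := ⟨_, _, fun h1 h2 => (enc_scale 57479903 3000000 h1)⟩
noncomputable def kcg_53 : Fn2 := ⟨_, _, fun h1 h2 => (enc_subr 86603 2000 (enc_neg (enc_scale 51 100 (kcg_3.enc h1 h2))))⟩
noncomputable def kcg_61 : Fn2 := ⟨_, _, fun h1 h2 => (enc_add h1 (enc_rat _ 671 1729))⟩
noncomputable def kcg_62 : Fn2 := ⟨_, _, fun h1 h2 => (enc_scale 2575136291 1135000000 h1)⟩
noncomputable def kcg_66 : Fn2 := ⟨_, _, fun h1 h2 => (enc_scale 81348486947 4653500000 h1)⟩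
noncomputable def kcg_73 : Fn2 := ⟨_, _, fun h1 h2 => (enc_subr 86603 2000 (enc_scale 12589 200 (kcg_3.enc h1 h2)))⟩
noncomputable def kcg_78 : Fn2 := ⟨_, _, fun h1 h2 => (enc_scale 17464480110623 4981000000000 h1)⟩
noncomputable def kcg_81 : Fn2 := ⟨_, _, fun h1 h2 => (enc_scale 9283912115569 996200000000 h1)⟩
noncomputable def kcg_90 : Fn2 := ⟨_, _, fun h1 h2 => (enc_subr 1399 2000 (enc_scale 12577 200 (kcg_3.enc h1 h2)))⟩
noncomputable def kcg_99 : Fn2 := ⟨_, _, fun h1 h2 => (enc_add h1 (enc_rat _ 4 25))⟩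
noncomputable def kcg_102 : Fn2 := ⟨_, _, fun h1 h2 => (enc_add h1 (enc_rat _ 6 25))⟩
noncomputable def kcg_103 : Fn2 := ⟨_, _, fun h1 h2 => (enc_scale 196432264767 60820000000 h1)⟩
noncomputable def kcg_106 : Fn2 := ⟨_, _, fun h1 h2 => (enc_scale 337171021 486560000 h1)⟩
noncomputable def kcg_115 : Fn2 := ⟨_, _, fun h1 h2 => (enc_add (enc_scale 1193 25 (kcg_3.enc h1 h2)) (enc_rat _ 3081 400))⟩
noncomputable def kcg_120 : Fn2 := ⟨_, _, fun h1 h2 => (enc_scale 22651 10000 h1)⟩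
noncomputable def kcg_124 : Fn2 := ⟨_, _, fun h1 h2 => (enc_scale 14653 10000 h1)⟩
noncomputable def kcg_135 : Fn2 := ⟨_, _, fun h1 h2 => (enc_sub (enc_rat _ 3081 400) (enc_scale 1 200 (kcg_3.enc h1 h2)))⟩
noncomputable def kcg_144 : Fn2 := ⟨_, _, fun h1 h2 => (enc_scale 22677 10000 h1)⟩
noncomputable def kcg_148 : Fn2 := ⟨_, _, fun h1 h2 => (enc_scale 42351 10000 h1)⟩
noncomputable def kcg_160 : Fn2 := ⟨_, _, fun h1 h2 => (enc_subr 1547 200 (enc_neg (enc_scale 285 4 (kcg_3.enc h1 h2))))⟩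
noncomputable def kcg_165 : Fn2 := ⟨_, _, fun h1 h2 => (enc_scale 5773 2000 h1)⟩
noncomputable def kcg_168 : Fn2 := ⟨_, _, fun h1 h2 => (enc_mul (enc_norm (kcg_3.enc h1 h2)) (enc_scale 99351 10000 h1))⟩
noncomputable def kcg_174 : Fn2 := ⟨_, _, fun h1 h2 => (enc_sub (enc_rat _ 767 2689) h1)⟩
noncomputable def kcg_175 : Fn2 := ⟨_, _, fun h1 h2 => (enc_sub (enc_rat _ 83 200) h1)⟩
noncomputable def kcg_176 : Fn2 := ⟨_, _, fun h1 h2 => (enc_sub (enc_rat _ 89 200) h1)⟩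
noncomputable def kcg_196 : Fn2 := ⟨_, _, fun h1 h2 => (enc_sub (enc_rat _ 671 1729) h1)⟩
noncomputable def kcg_219 : Fn2 := ⟨_, _, fun h1 h2 => (enc_sub (enc_rat _ 4 25) h1)⟩
noncomputable def kcg_220 : Fn2 := ⟨_, _, fun h1 h2 => (enc_sub (enc_rat _ 6 25) h1)⟩
noncomputable def kcg : Fn2 := ⟨_, _, fun h1 h2 => (enc_norm (enc_case h1 (enc_case (kcg_6.enc h1 h2) (enc_case (kcg_9.enc h1 h2) (enc_case (kcg_12.enc h1 h2) (enc_add (enc_add (enc_subr 31684292933 11000000000 (enc_neg (kcg_13.enc h1 h2))) (enc_mul (enc_norm (kcg_3.enc h1 h2)) (enc_norm (enc_subr 5782442887 275000000 (enc_neg (kcg_18.enc h1 h2)))))) (enc_mul (enc_norm (kcg_31.enc h1 h2)) (enc_norm (enc_mul (enc_norm (enc_add h1 (enc_rat _ 1 2))) (enc_norm (enc_sub (enc_neg (enc_rat _ 89 200)) h1)))))) (enc_add (enc_add (enc_subr 186376657 150000000 (enc_neg (kcg_39.enc h1 h2))) (enc_mul (enc_norm (kcg_3.enc h1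 h2)) (enc_norm (enc_add (kcg_44.enc h1 h2) (enc_rat _ 3284799229 600000000))))) (enc_mul (enc_norm (kcg_53.enc h1 h2)) (enc_norm (enc_mul (enc_norm (kcg_12.enc h1 h2)) (enc_norm (enc_sub (enc_neg (enc_rat _ 83 200)) h1))))))) (enc_case (kcg_61.enc h1 h2) (enc_add (enc_add (enc_subr 24941881049 113500000000 (kcg_62.enc h1 h2)) (enc_mul (enc_norm (kcg_3.enc h1 h2)) (enc_norm (enc_add (kcg_66.enc h1 h2) (enc_rat _ 4446839995761 930700000000))))) (enc_mul (enc_norm (kcg_73.enc h1 h2)) (enc_norm (enc_mul (enc_norm (kcg_9.enc h1 h2)) (enc_norm (enc_sub (enc_neg (enc_rat _ 671 1729)) h1)))))) (enc_add (enc_add (enc_add (kcg_78.enc h1 h2) (enc_rat _ 1297331238283 4981000000000)) (enc_mul (enc_norm (kcg_3.enc h1 h2)) (enc_norm (enc_add (kcg_81.enc h1 h2) (enc_rat _ 1604349482557 996200000000))))) (enc_mul (enc_norm (kcg_90.enc h1 h2)) (enc_norm (enc_mul (enc_norm (kcg_61.enc h1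 h2)) (enc_norm (enc_sub (enc_neg (enc_rat _ 767 2689)) h1)))))))) (enc_case (kcg_99.enc h1 h2) (enc_case (kcg_102.enc h1 h2) (enc_add (enc_add (enc_add (kcg_103.enc h1 h2) (enc_rat _ 138054968301 760250000000)) (enc_mul (enc_norm (kcg_3.enc h1 h2)) (enc_norm (enc_subr 5170183081 6082000000 (kcg_106.enc h1 h2))))) (enc_mul (enc_norm (kcg_115.enc h1 h2)) (enc_norm (enc_mul (enc_norm (kcg_6.enc h1 h2)) (enc_norm (enc_sub (enc_neg (enc_rat _ 6 25)) h1)))))) (enc_add (enc_add (enc_subr 156 3125 (kcg_120.enc h1 h2)) (enc_mul (enc_norm (kcg_3.enc h1 h2)) (enc_norm (enc_subr 21376 15625 (enc_neg (kcg_124.enc h1 h2)))))) (enc_mul (enc_norm (kcg_135.enc h1 h2)) (enc_norm (enc_mul (enc_norm (kcg_102.enc h1 h2)) (enc_norm (enc_sub (enc_neg (enc_rat _ 4 25)) h1))))))) (enc_case (enc_add h1 (enc_rat _ 2 25)) (enc_add (enc_add (enc_subr 1547 31250 (kcg_144.enc h1 h2)) (enc_mul (enc_norm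 (kcg_3.enc h1 h2)) (enc_norm (enc_subr 57 125 (kcg_148.enc h1 h2))))) (enc_mul (enc_norm (kcg_160.enc h1 h2)) (enc_norm (enc_mul (enc_norm (kcg_99.enc h1 h2)) (enc_norm (enc_sub (enc_neg (enc_rat _ 2 25)) h1)))))) (enc_add (kcg_165.enc h1 h2) (kcg_168.enc h1 h2))))) (enc_neg (enc_case (kcg_174.enc h1 h2) (enc_case (kcg_175.enc h1 h2) (enc_case (kcg_176.enc h1 h2) (enc_add (enc_add (enc_subr 31684292933 11000000000 (kcg_13.enc h1 h2)) (enc_mul (enc_norm (kcg_3.enc h1 h2)) (enc_norm (enc_subr 5782442887 275000000 (kcg_18.enc h1 h2))))) (enc_mul (enc_norm (kcg_31.enc h1 h2)) (enc_norm (enc_mul (enc_norm (enc_sub (enc_rat _ 1 2) h1)) (enc_norm (enc_subr 89 200 h1)))))) (enc_add (enc_add (enc_subr 186376657 150000000 (kcg_39.enc h1 h2)) (enc_mul (enc_norm (kcg_3.enc h1 h2)) (enc_norm (enc_sub (enc_rat _ 3284799229 600000000) (kcg_44.enc h1 h2))))) (enc_mul (enc_norm (kcg_53.enc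 h1 h2)) (enc_norm (enc_mul (enc_norm (kcg_176.enc h1 h2)) (enc_norm (enc_subr 83 200 h1))))))) (enc_case (kcg_196.enc h1 h2) (enc_add (enc_add (enc_subr 24941881049 113500000000 (enc_neg (kcg_62.enc h1 h2))) (enc_mul (enc_norm (kcg_3.enc h1 h2)) (enc_norm (enc_sub (enc_rat _ 4446839995761 930700000000) (kcg_66.enc h1 h2))))) (enc_mul (enc_norm (kcg_73.enc h1 h2)) (enc_norm (enc_mul (enc_norm (kcg_175.enc h1 h2)) (enc_norm (enc_subr 671 1729 h1)))))) (enc_add (enc_add (enc_sub (enc_rat _ 1297331238283 4981000000000) (kcg_78.enc h1 h2)) (enc_mul (enc_norm (kcg_3.enc h1 h2)) (enc_norm (enc_sub (enc_rat _ 1604349482557 996200000000) (kcg_81.enc h1 h2))))) (enc_mul (enc_norm (kcg_90.enc h1 h2)) (enc_norm (enc_mul (enc_norm (kcg_196.enc h1 h2)) (enc_norm (enc_subr 767 2689 h1)))))))) (enc_case (kcg_219.enc h1 h2) (enc_case (kcg_220.enc h1 h2) (enc_add (enc_add (enc_sub (enc_rat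 _ 138054968301 760250000000) (kcg_103.enc h1 h2)) (enc_mul (enc_norm (kcg_3.enc h1 h2)) (enc_norm (enc_subr 5170183081 6082000000 (enc_neg (kcg_106.enc h1 h2)))))) (enc_mul (enc_norm (kcg_115.enc h1 h2)) (enc_norm (enc_mul (enc_norm (kcg_174.enc h1 h2)) (enc_norm (enc_subr 6 25 h1)))))) (enc_add (enc_add (enc_subr 156 3125 (enc_neg (kcg_120.enc h1 h2))) (enc_mul (enc_norm (kcg_3.enc h1 h2)) (enc_norm (enc_subr 21376 15625 (kcg_124.enc h1 h2))))) (enc_mul (enc_norm (kcg_135.enc h1 h2)) (enc_norm (enc_mul (enc_norm (kcg_220.enc h1 h2)) (enc_norm (enc_subr 4 25 h1))))))) (enc_case (enc_sub (enc_rat _ 2 25) h1) (enc_add (enc_add (enc_subr 1547 31250 (enc_neg (kcg_144.enc h1 h2))) (enc_mul (enc_norm (kcg_3.enc h1 h2)) (enc_norm (enc_subr 57 125 (enc_neg (kcg_148.enc h1 h2)))))) (enc_mul (enc_norm (kcg_160.enc h1 h2)) (enc_norm (enc_mul (enc_norm (kcg_219.enc h1 h2)) (enc_norm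 (enc_subr 2 25 h1)))))) (enc_sub (enc_neg (kcg_165.enc h1 h2)) (kcg_168.enc h1 h2))))))))⟩
noncomputable def kf0q0_9 : Fn2 := ⟨_, _, fun h1 h2 => (enc_scale 3 2 h1)⟩
noncomputable def kf0q0_12 : Fn2 := ⟨_, _, fun h1 h2 => (enc_add (enc_pnc _ 1) (c1g.enc h1))⟩
noncomputable def kf0q0 : Fn2 := ⟨_, _, fun h1 h2 => (enc_norm (enc_add (enc_mul (enc_norm (enc_mul (enc_norm (enc_sub (c1g.enc h1) (kf0q0_9.enc h1 h2))) (enc_norm (kf0q0_12.enc h1 h2)))) (enc_inv (enc_sub (kf0q0_12.enc h1 h2) (kf0q0_9.enc h1 h2)))) (enc_mul h1 (kcg.enc (enc_norm (enc_sub (enc_scale 3 4 h1) (enc_half (c1g.enc h1)))) h2))))⟩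
noncomputable def txg_4 : Fn3 := ⟨_, _, fun h1 h2 h3 => (enc_subr 22 25 h3)⟩
noncomputable def txg_6 : Fn3 := ⟨_, _, fun h1 h2 h3 => (enc_add h1 (enc_half h2))⟩
noncomputable def txg_26 : Fn3 := ⟨_, _, fun h1 h2 h3 => (enc_add h1 (enc_rat _ 1 5))⟩
noncomputable def txg_29 : Fn3 := ⟨_, _, fun h1 h2 h3 => (enc_add h1 (enc_rat _ 7 20))⟩
noncomputable def txg_32 : Fn3 := ⟨_, _, fun h1 h2 h3 => (enc_add h1 (enc_rat _ 9 20))⟩
noncomputable def txg_59 : Fn3 := ⟨_, _, fun h1 h2 h3 => (enc_add h1 (enc_rat _ 2 5))⟩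
noncomputable def txg_98 : Fn3 := ⟨_, _, fun h1 h2 h3 => (enc_add h1 (enc_rat _ 3 10))⟩
noncomputable def txg_122 : Fn3 := ⟨_, _, fun h1 h2 h3 => (enc_add h1 (enc_rat _ 1 4))⟩
noncomputable def txg_167 : Fn3 := ⟨_, _, fun h1 h2 h3 => (enc_subr 1 10 h1)⟩
noncomputable def txg_170 : Fn3 := ⟨_, _, fun h1 h2 h3 => (enc_add h1 (enc_rat _ 3 20))⟩
noncomputable def txg_189 : Fn3 := ⟨_, _, fun h1 h2 h3 => (enc_add h1 (enc_rat _ 1 10))⟩
noncomputable def txg_224 : Fn3 := ⟨_, _, fun h1 h2 h3 => (enc_subr 1 5 h1)⟩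
noncomputable def txg_226 : Fn3 := ⟨_, _, fun h1 h2 h3 => (enc_subr 4 25 h1)⟩
noncomputable def txg_235 : Fn3 := ⟨_, _, fun h1 h2 h3 => (enc_mul (enc_norm (txg_4.enc h1 h2 h3)) (enc_norm (enc_subr 283 20000 (enc_scale 901 2000 h1))))⟩
noncomputable def txg_254 : Fn3 := ⟨_, _, fun h1 h2 h3 => (enc_subr 6 25 h1)⟩
noncomputable def txg_288 : Fn3 := ⟨_, _, fun h1 h2 h3 => (enc_sq (enc_norm (txg_4.enc h1 h2 h3)))⟩
noncomputable def txg_309 : Fn3 := ⟨_, _, fun h1 h2 h3 => (enc_subr 671 1729 h1)⟩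
noncomputable def txg_311 : Fn3 := ⟨_, _, fun h1 h2 h3 => (enc_subr 11 25 h1)⟩
noncomputable def txg : Fn3 := ⟨_, _, fun h1 h2 h3 => (enc_case (enc_subr 767 2689 h1) (enc_case (txg_26.enc h1 h2 h3) (enc_case (txg_29.enc h1 h2 h3) (enc_case (txg_32.enc h1 h2 h3) (enc_add (enc_add (enc_add (enc_scale 15181 40000 h1) (enc_rat _ 15181 80000)) (enc_mul (enc_norm (txg_4.enc h1 h2 h3)) (enc_norm (enc_subr 119 4000 (enc_neg (enc_scale 119 2000 h1)))))) (enc_mul (enc_norm (enc_subr 2513 2000 (enc_neg (enc_scale 312 25 (txg_4.enc h1 h2 h3))))) (enc_norm (enc_mul (enc_norm (enc_add h1 (enc_rat _ 1 2))) (enc_norm (enc_sub (enc_neg (enc_rat _ 9 20)) h1)))))) (enc_case (txg_59.enc h1 h2 h3) (enc_add (enc_add (enc_add (enc_scale 7571 20000 h1) (enc_rat _ 151459 800000)) (enc_mul (enc_norm (txg_4.enc h1 h2 h3)) (enc_norm (enc_add (enc_scale 293 1000 h1) (enc_rat _ 1031 8000))))) (enc_mul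 (enc_norm (enc_add (enc_scale 543 100 (txg_4.enc h1 h2 h3)) (enc_rat _ 319 250))) (enc_norm (enc_mul (enc_norm (txg_32.enc h1 h2 h3)) (enc_norm (enc_sub (enc_neg (enc_rat _ 2 5)) h1)))))) (enc_add (enc_add (enc_add (enc_scale 11387 40000 h1) (enc_rat _ 121419 800000)) (enc_mul (enc_norm (txg_4.enc h1 h2 h3)) (enc_norm (enc_subr 641 1600 (enc_neg (enc_scale 4123 4000 h1)))))) (enc_mul (enc_norm (enc_add (enc_scale 4209 200 (txg_4.enc h1 h2 h3)) (enc_rat _ 1203 2000))) (enc_norm (enc_mul (enc_norm (txg_59.enc h1 h2 h3)) (enc_norm (enc_sub (enc_neg (enc_rat _ 7 20)) h1)))))))) (enc_case (txg_98.enc h1 h2 h3) (enc_add (enc_add (enc_add (enc_scale 1087 4000 h1) (enc_rat _ 589 4000)) (enc_mul (enc_norm (txg_4.enc h1 h2 h3)) (enc_norm (enc_subr 59959 80000 (enc_neg (enc_scale 811 400 h1)))))) (enc_mul (enc_norm (enc_subr 343 1000 (enc_neg (enc_scale 111 100 (txg_4.enc h1 h2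 h3))))) (enc_norm (enc_mul (enc_norm (txg_29.enc h1 h2 h3)) (enc_norm (enc_sub (enc_neg (enc_rat _ 3 10)) h1)))))) (enc_case (txg_122.enc h1 h2 h3) (enc_add (enc_add (enc_add (enc_scale 2451 8000 h1) (enc_rat _ 12611 80000)) (enc_mul (enc_norm (txg_4.enc h1 h2 h3)) (enc_norm (enc_subr 57007 80000 (enc_neg (enc_scale 3809 2000 h1)))))) (enc_mul (enc_norm (enc_subr 699 2000 (enc_neg (enc_scale 27 20 (txg_4.enc h1 h2 h3))))) (enc_norm (enc_mul (enc_norm (txg_98.enc h1 h2 h3)) (enc_norm (enc_sub (enc_neg (enc_rat _ 1 4)) h1)))))) (enc_add (enc_add (enc_add (enc_scale 13653 40000 h1) (enc_rat _ 1331 8000)) (enc_mul (enc_norm (txg_4.enc h1 h2 h3)) (enc_norm (enc_subr 22227 80000 (enc_neg (enc_scale 331 2000 h1)))))) (enc_mul (enc_norm (enc_subr 699 2000 (enc_neg (enc_scale 3343 100 (txg_4.enc h1 h2 h3))))) (enc_norm (enc_mul (enc_norm (txg_122.enc h1 h2 h3)) (enc_norm (enc_sub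 (enc_neg (enc_rat _ 1 5)) h1))))))))) (enc_case (txg_167.enc h1 h2 h3) (enc_case (txg_170.enc h1 h2 h3) (enc_sub (enc_add (enc_add (enc_scale 897 2500 h1) (enc_rat _ 16987 100000)) (enc_mul (enc_norm (txg_4.enc h1 h2 h3)) (enc_norm (enc_add (enc_scale 6077 4000 h1) (enc_rat _ 4729 80000))))) (enc_mul (enc_norm (enc_scale 53 200 (txg_4.enc h1 h2 h3))) (enc_norm (enc_mul (enc_norm (txg_26.enc h1 h2 h3)) (enc_norm (enc_sub (enc_neg (enc_rat _ 3 20)) h1)))))) (enc_case (txg_189.enc h1 h2 h3) (enc_add (enc_add (enc_add (enc_scale 12691 40000 h1) (enc_rat _ 130913 800000)) (enc_mul (enc_norm (txg_4.enc h1 h2 h3)) (enc_norm (enc_add (enc_scale 2463 2000 h1) (enc_rat _ 319 20000))))) (enc_mul (enc_norm (enc_add (enc_scale 301 50 (txg_4.enc h1 h2 h3)) (enc_rat _ 1661 2000))) (enc_norm (enc_mul (enc_norm (txg_170.enc h1 h2 h3)) (enc_norm (enc_sub (enc_neg (enc_rat _ 1 10)) h1))))))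 (enc_add (enc_add (enc_add (enc_scale 2193 20000 h1) (enc_rat _ 114303 800000)) (enc_mul (enc_norm (txg_4.enc h1 h2 h3)) (enc_norm (enc_subr 763 20000 (enc_scale 1381 2000 h1))))) (enc_mul (enc_norm (enc_add (enc_scale 6 5 (txg_4.enc h1 h2 h3)) (enc_rat _ 1661 2000))) (enc_norm (enc_mul (enc_norm (txg_189.enc h1 h2 h3)) (enc_norm (enc_sub (enc_rat _ 1 10) h1)))))))) (enc_case (txg_224.enc h1 h2 h3) (enc_case (txg_226.enc h1 h2 h3) (enc_add (enc_add (enc_sub (enc_rat _ 650843 4000000) (enc_scale 8867 100000 h1)) (txg_235.enc h1 h2 h3)) (enc_scale 537 1000 (enc_mul (enc_norm (txg_167.enc h1 h2 h3)) (enc_norm (enc_sub (enc_rat _ 4 25) h1))))) (enc_add (enc_add (enc_sub (enc_rat _ 3426119 20000000) (enc_scale 14239 100000 h1)) (txg_235.enc h1 h2 h3)) (enc_scale 43 80 (enc_mul (enc_norm (txg_226.enc h1 h2 h3)) (enc_norm (enc_sub (enc_rat _ 1 5) h1)))))) (enc_case (txg_254.enc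 h1 h2 h3) (enc_add (enc_add (enc_sub (enc_rat _ 3598119 20000000) (enc_scale 18539 100000 h1)) (enc_mul (enc_norm (txg_4.enc h1 h2 h3)) (enc_norm (enc_subr 15859 100000 (enc_scale 11727 10000 h1))))) (enc_mul (enc_norm (enc_sub (enc_rat _ 43 80) (enc_scale 3611 200 (txg_4.enc h1 h2 h3)))) (enc_norm (enc_mul (enc_norm (txg_224.enc h1 h2 h3)) (enc_norm (enc_sub (enc_rat _ 6 25) h1)))))) (enc_add (enc_add (enc_add (enc_sub (enc_rat _ 20189507429547069 102215612500000000) (enc_scale 1058041855705449 4088624500000000 h1)) (enc_mul (enc_norm (txg_4.enc h1 h2 h3)) (enc_norm (enc_subr 14323800446699 127769515625000 (enc_scale 40028410129807 40886245000000 h1))))) (enc_mul (txg_288.enc h1 h2 h3) (enc_norm (enc_subr 3608413977 3041000000 (enc_scale 1202804659 243280000 h1))))) (enc_mul (enc_norm (enc_add (enc_mul (enc_norm (enc_sub (enc_rat _ 20247 1000) (enc_scale 1093 10 (txg_4.enc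 h1 h2 h3)))) (enc_norm (txg_4.enc h1 h2 h3))) (enc_rat _ 1147 1000))) (enc_norm (enc_mul (enc_norm (txg_254.enc h1 h2 h3)) (enc_norm (enc_sub (enc_rat _ 767 2689) h1)))))))))) (enc_case (txg_309.enc h1 h2 h3) (enc_sub (enc_mul (enc_norm (enc_sub (enc_pnc _ 1) h2)) (enc_norm (enc_subn 1 (enc_nat 2 h2)))) (enc_mul (enc_norm (enc_nat 2 (enc_sub (enc_scale 4 3 (txg_6.enc h1 h2 h3)) h3))) (enc_norm (enc_mul (enc_norm (enc_subn 1 (enc_add (enc_scale 2 3 (txg_6.enc h1 h2 h3)) h2))) (kcg.enc h1 h3))))) (enc_case (txg_311.enc h1 h2 h3) (enc_add (enc_add (enc_add (enc_sub (enc_rat _ 243946813446447 734825000000000) (enc_scale 212634891441447 323323000000000 h1)) (enc_mul (enc_norm (txg_4.enc h1 h2 h3)) (enc_norm (enc_sub (enc_rat _ 43989582819571 73482500000000) (enc_scale 38966906979571 32332300000000 h1))))) (enc_mul (txg_288.enc h1 h2 h3) (enc_norm (enc_sub (enc_rat _ 7423039049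 3400000000) (enc_scale 7423039049 1496000000 h1))))) (enc_mul (enc_norm (enc_add (enc_mul (enc_norm (enc_sub (enc_rat _ 7293 1000) (enc_scale 4779 50 (txg_4.enc h1 h2 h3)))) (enc_norm (txg_4.enc h1 h2 h3))) (enc_rat _ 14147 10000))) (enc_norm (enc_mul (enc_norm (txg_309.enc h1 h2 h3)) (enc_norm (enc_sub (enc_rat _ 11 25) h1)))))) (enc_add (enc_add (enc_sub (enc_rat _ 71019 200000) (enc_scale 71019 100000 h1)) (enc_mul (enc_norm (txg_4.enc h1 h2 h3)) (enc_norm (enc_sub (enc_rat _ 356 625) (enc_scale 712 625 h1))))) (enc_mul (enc_norm (enc_subr 697 2000 (enc_neg (enc_scale 741 100 (txg_4.enc h1 h2 h3))))) (enc_norm (enc_mul (enc_norm (txg_311.enc h1 h2 h3)) (enc_norm (enc_sub (enc_rat _ 1 2) h1)))))))))⟩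
noncomputable def l0q0 : Fn2 := ⟨_, _, fun h1 h2 => (enc_norm (txg.enc (enc_norm (enc_sub (enc_scale 3 4 h1) (enc_half (c1g.enc h1)))) (c1g.enc h1) h2))⟩
noncomputable def kc0q0_3 : Fn2 := ⟨_, _, fun h1 h2 => (enc_subr 22 25 h2)⟩
noncomputable def kc0q0_8 : Fn2 := ⟨_, _, fun h1 h2 => (enc_sub (enc_scale 3 4 h1) (enc_half (c1g.enc h1)))⟩
noncomputable def kc0q0_15 : Fn2 := ⟨_, _, fun h1 h2 => (enc_scale 2517 1670 (kc0q0_8.enc h1 h2))⟩
noncomputable def kc0q0 : Fn2 := ⟨_, _, fun h1 h2 => (enc_norm (enc_case (enc_add (kc0q0_8.enc h1 h2) (enc_rat _ 167 1000)) (enc_case (enc_add (kc0q0_8.enc h1 h2) (enc_rat _ 333 1000)) (enc_add (enc_add (kc0q0_15.enc h1 h2) (enc_rat _ 2517 3340)) (enc_mul (enc_norm (kc0q0_3.enc h1 h2)) (enc_norm (enc_subr 36843 334 (enc_neg (enc_scale 36843 167 (kc0q0_8.enc h1 h2))))))) (enc_add (enc_add (enc_scale 1251 830 (kc0q0_8.enc h1 h2)) (enc_rat _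 312747 415000)) (enc_mul (enc_norm (kc0q0_3.enc h1 h2)) (enc_norm (enc_subr 3053337 166000 (enc_scale 9197 166 (kc0q0_8.enc h1 h2))))))) (enc_case (kc0q0_8.enc h1 h2) (enc_add (enc_add (kc0q0_15.enc h1 h2) (enc_rat _ 471 625)) (enc_mul (enc_norm (kc0q0_3.enc h1 h2)) (enc_norm (enc_subr 9197 500 (enc_scale 9252 167 (kc0q0_8.enc h1 h2)))))) (enc_case (enc_subr 167 1000 (kc0q0_8.enc h1 h2)) (enc_add (enc_add (enc_scale 1258 835 (kc0q0_8.enc h1 h2)) (enc_rat _ 471 625)) (enc_mul (enc_norm (kc0q0_3.enc h1 h2)) (enc_norm (enc_subr 9197 500 (enc_scale 9253 167 (kc0q0_8.enc h1 h2)))))) (enc_add (enc_add (enc_scale 4792466009447 3179370000000 (kc0q0_8.enc h1 h2)) (enc_rat _ 2395560900422351 3179370000000000)) (enc_mul (enc_norm (kc0q0_3.enc h1 h2)) (enc_norm (enc_subr 58477551483555767 3179370000000000 (enc_scale 176137307266801 3179370000000 (kc0q0_8.enc h1 h2))))))))))⟩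
noncomputable def kf0q1_10 : Fn2 := ⟨_, _, fun h1 h2 => (enc_scale 3 2 h1)⟩
noncomputable def kf0q1 : Fn2 := ⟨_, _, fun h1 h2 => (enc_norm (enc_add (enc_mul (enc_norm (enc_mul (enc_norm (enc_add (enc_pnc _ 1) (enc_nat 2 (c1g.enc h1)))) (enc_norm (enc_sub (kf0q1_10.enc h1 h2) (c1g.enc h1))))) (enc_inv (enc_nat 2 (enc_sub (enc_add (enc_pnc _ 1) (kf0q1_10.enc h1 h2)) (c1g.enc h1))))) (enc_mul (enc_norm (enc_subn 1 h1)) (kcg.enc (enc_norm (enc_sub (enc_scale 3 4 h1) (enc_half (c1g.enc h1)))) h2))))⟩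
noncomputable def l0q1 : Fn2 := ⟨_, _, fun h1 h2 => (enc_norm (txg.enc (enc_norm (enc_sub (enc_scale 3 4 h1) (enc_half (c1g.enc h1)))) (c1g.enc h1) h2))⟩
noncomputable def gsg : Fn1 := ⟨_, _, fun h1 => (enc_sqrt (enc_sub (enc_pnc _ 1) (enc_scale 3 4 (enc_sq h1))))⟩
noncomputable def gug : Fn1 := ⟨_, _, fun h1 => (enc_norm (enc_add (enc_scale 3 4 h1) (enc_scale 3 2 (enc_sub (enc_pnc _ 1) (gsg.enc h1)))))⟩
noncomputable def kc0q1_3 : Fn2 := ⟨_, _, fun h1 h2 => (enc_subr 22 25 h2)⟩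
noncomputable def kc0q1_9 : Fn2 := ⟨_, _, fun h1 h2 => (enc_sub (enc_scale 3 4 h1) (enc_half (c1g.enc h1)))⟩
noncomputable def kc0q1_45 : Fn2 := ⟨_, _, fun h1 h2 => (enc_scale 2517 1670 (kc0q1_9.enc h1 h2))⟩
noncomputable def kc0q1 : Fn2 := ⟨_, _, fun h1 h2 => (enc_norm (enc_case (enc_subr 767 2689 (kc0q1_9.enc h1 h2)) (enc_case (enc_add (kc0q1_9.enc h1 h2) (enc_rat _ 167 1000)) (enc_case (enc_add (kc0q1_9.enc h1 h2) (enc_rat _ 333 1000)) (enc_add (enc_add (kc0q1_45.enc h1 h2) (enc_rat _ 2517 3340)) (enc_mul (enc_norm (kc0q1_3.enc h1 h2)) (enc_norm (enc_subr 36843 334 (enc_neg (enc_scale 36843 167 (kc0q1_9.enc h1 h2))))))) (enc_add (enc_add (enc_scale 1251 830 (kc0q1_9.enc h1 h2)) (enc_rat _ 312747 415000)) (enc_mul (enc_norm (kc0q1_3.enc h1 h2)) (enc_norm (enc_subr 3053337 166000 (enc_scale 9197 166 (kc0q1_9.enc h1 h2))))))) (enc_case (kc0q1_9.enc h1 h2) (enc_add (enc_add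 (kc0q1_45.enc h1 h2) (enc_rat _ 471 625)) (enc_mul (enc_norm (kc0q1_3.enc h1 h2)) (enc_norm (enc_subr 9197 500 (enc_scale 9252 167 (kc0q1_9.enc h1 h2)))))) (enc_case (enc_subr 167 1000 (kc0q1_9.enc h1 h2)) (enc_add (enc_add (enc_scale 1258 835 (kc0q1_9.enc h1 h2)) (enc_rat _ 471 625)) (enc_mul (enc_norm (kc0q1_3.enc h1 h2)) (enc_norm (enc_subr 9197 500 (enc_scale 9253 167 (kc0q1_9.enc h1 h2)))))) (enc_add (enc_add (enc_scale 4792466009447 3179370000000 (kc0q1_9.enc h1 h2)) (enc_rat _ 2395560900422351 3179370000000000)) (enc_mul (enc_norm (kc0q1_3.enc h1 h2)) (enc_norm (enc_subr 58477551483555767 3179370000000000 (enc_scale 176137307266801 3179370000000 (kc0q1_9.enc h1 h2))))))))) (enc_case (enc_subr 671 1729 (kc0q1_9.enc h1 h2)) (enc_sub (enc_add (enc_add (enc_rat _ 3 4) (enc_scale 3 2 h1)) (enc_scale 3 4 (enc_mul (enc_norm (enc_mul h1 (enc_inv (c1g.enc h1)))) (gug.enc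 h1)))) (enc_mul (kcg.enc (enc_norm (kc0q1_9.enc h1 h2)) h2) (enc_norm (enc_add (gug.enc h1) (enc_nat 2 (c1g.enc h1)))))) (enc_add (enc_sub (enc_rat _ 985598020589 258000000000) (enc_scale 985598020589 129000000000 (kc0q1_9.enc h1 h2))) (enc_mul (enc_norm (kc0q1_3.enc h1 h2)) (enc_norm (enc_subr 5763220767941 258000000000 (enc_scale 5763220767941 129000000000 (kc0q1_9.enc h1 h2)))))))))⟩
noncomputable def yag : Fn1 := ⟨_, _, fun h1 => (enc_sqrt (enc_scale 4 3 (enc_sub (enc_pnc _ 1) (enc_sq h1))))⟩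
noncomputable def kfc02 : Fn2 := ⟨_, _, fun h1 h2 => (enc_norm (enc_add h1 (enc_mul (enc_norm (enc_subn 1 (yag.enc h1))) (kcg.enc (enc_neg h1) h2))))⟩
noncomputable def lc02_7 : Fn2 := ⟨_, _, fun h1 h2 => (enc_scale 3 4 (yag.enc h1))⟩
noncomputable def lc02_8 : Fn2 := ⟨_, _, fun h1 h2 => (enc_half h1)⟩
noncomputable def lc02 : Fn2 := ⟨_, _, fun h1 h2 => (enc_norm (enc_sub (txg.enc (enc_neg h1) (enc_norm (enc_add (lc02_7.enc h1 h2) (lc02_8.enc h1 h2))) h2) (txg.enc h1 (enc_norm (enc_sub (lc02_7.enc h1 h2) (lc02_8.enc h1 h2))) h2)))⟩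
noncomputable def kcc02 : Fn2 := ⟨_, _, fun h1 h2 => (enc_pnc _ 0)⟩
noncomputable def swg : Fn1 := ⟨_, _, fun h1 => (enc_sqrt (enc_sub (enc_pnc _ 1) (enc_scale 3 4 (enc_sq (enc_norm (enc_subn 1 h1))))))⟩
noncomputable def cv1m : Fn1 := ⟨_, _, fun h1 => (enc_norm (enc_add (enc_scale 3 5 (c1g.enc h1)) (enc_scale 2 5 (enc_add (swg.enc h1) (enc_rat _ 1 2)))))⟩
noncomputable def bf1q0_3 : Fn2 := ⟨_, _, fun h1 h2 => (enc_subr 22 25 h2)⟩
noncomputable def bf1q0_9 : Fn2 := ⟨_, _, fun h1 h2 => (enc_sub (enc_pnc _ 1) (enc_scale 5682 3125 h1))⟩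
noncomputable def bf1q0 : Fn2 := ⟨_, _, fun h1 h2 => (enc_norm (enc_case (enc_subr 1 16 h1) (enc_add (bf1q0_9.enc h1 h2) (enc_mul (enc_norm (bf1q0_3.enc h1 h2)) (enc_scale 2711 625 h1))) (enc_add (bf1q0_9.enc h1 h2) (enc_mul (enc_norm (bf1q0_3.enc h1 h2)) (enc_norm (enc_add (enc_scale 2248 875 h1) (enc_rat _ 7737 70000)))))))⟩
noncomputable def kf1q0 : Fn2 := ⟨_, _, fun h1 h2 => (enc_norm (enc_mul (cv1m.enc h1) (bf1q0.enc h1 h2)))⟩
noncomputable def bx1q0_3 : Fn2 := ⟨_, _, fun h1 h2 => (enc_subr 22 25 h2)⟩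
noncomputable def bx1q0_26 : Fn2 := ⟨_, _, fun h1 h2 => (enc_scale 27 32 h1)⟩
noncomputable def bx1q0_47 : Fn2 := ⟨_, _, fun h1 h2 => (enc_add (enc_scale 157 1400 h1) (enc_rat _ 18791 350000))⟩
noncomputable def bx1q0 : Fn2 := ⟨_, _, fun h1 h2 => (enc_norm (enc_case (enc_subr 4 25 h1) (enc_case (enc_subr 1 16 h1) (enc_add (enc_scale 129 250 h1) (enc_mul (enc_norm (bx1q0_3.enc h1 h2)) (enc_scale 681 625 h1))) (enc_case (enc_subr 2 25 h1) (enc_add (enc_add (enc_scale 81 175 h1) (enc_rat _ 93 28000)) (enc_mul (enc_norm (bx1q0_3.enc h1 h2)) (enc_norm (enc_add (enc_scale 38 35 h1) (enc_rat _ 17 70000))))) (enc_add (enc_add (enc_scale 391 1000 h1) (enc_rat _ 907 100000)) (enc_mul (enc_norm (bx1q0_3.enc h1 h2)) (enc_norm (enc_add (bx1q0_26.enc h1 h2) (enc_rat _ 49 2500))))))) (enc_case (enc_subr 11 50 h1) (enc_add (enc_add (enc_scale 673 6000 h1) (enc_rat _ 3221 60000)) (enc_mul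 (enc_norm (bx1q0_3.enc h1 h2)) (enc_norm (enc_add (enc_scale 169 200 h1) (enc_rat _ 97 5000))))) (enc_case (enc_subr 69 250 h1) (enc_add (bx1q0_47.enc h1 h2) (enc_mul (enc_norm (bx1q0_3.enc h1 h2)) (enc_norm (enc_add (enc_scale 59 70 h1) (enc_rat _ 1391 70000))))) (enc_add (bx1q0_47.enc h1 h2) (enc_mul (enc_norm (bx1q0_3.enc h1 h2)) (enc_norm (enc_add (bx1q0_26.enc h1 h2) (enc_rat _ 157 8000)))))))))⟩
noncomputable def l1q0 : Fn2 := ⟨_, _, fun h1 h2 => (enc_norm (enc_mul (cv1m.enc h1) (bx1q0.enc h1 h2)))⟩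
noncomputable def bd1q0_3 : Fn2 := ⟨_, _, fun h1 h2 => (enc_subr 22 25 h2)⟩
noncomputable def bd1q0 : Fn2 := ⟨_, _, fun h1 h2 => (enc_norm (enc_case (enc_subr 4 25 h1) (enc_sub (enc_mul (enc_norm (bd1q0_3.enc h1 h2)) (enc_scale 431 80 h1)) (enc_scale 9787 1600 h1)) (enc_add (enc_subr 11 170000 (enc_neg (enc_scale 5199 850 h1))) (enc_mul (enc_norm (bd1q0_3.enc h1 h2)) (enc_norm (enc_add (enc_scale 1831 340 h1) (enc_rat _ 3 8500)))))))⟩
noncomputable def kc1q0 : Fn2 := ⟨_, _, fun h1 h2 => (enc_norm (enc_mul (cv1m.enc h1) (bd1q0.enc h1 h2)))⟩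
noncomputable def bf1q1 : Fn2 := ⟨_, _, fun h1 h2 => (enc_norm (enc_add (enc_sub (enc_rat _ 2056 3125) (enc_scale 4999 50000 h1)) (enc_mul (enc_norm (enc_subr 22 25 h2)) (enc_norm (enc_subr 127907 10000 (enc_scale 56899 5000 h1))))))⟩
noncomputable def kf1q1 : Fn2 := ⟨_, _, fun h1 h2 => (enc_norm (enc_mul (cv1m.enc h1) (bf1q1.enc h1 h2)))⟩
noncomputable def bx1q1_3 : Fn2 := ⟨_, _, fun h1 h2 => (enc_subr 22 25 h2)⟩
noncomputable def bx1q1_29 : Fn2 := ⟨_, _, fun h1 h2 => (enc_add (enc_scale 617 5500 h1) (enc_rat _ 147547 2750000))⟩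
noncomputable def bx1q1 : Fn2 := ⟨_, _, fun h1 h2 => (enc_norm (enc_case (enc_subr 773 1000 h1) (enc_case (enc_subr 719 1000 h1) (enc_add (enc_add (enc_scale 614 5475 h1) (enc_rat _ 36742 684375)) (enc_mul (enc_norm (bx1q1_3.enc h1 h2)) (enc_norm (enc_add (enc_scale 1847 2190 h1) (enc_rat _ 8677 438000))))) (enc_add (enc_add (enc_scale 121 1080 h1) (enc_rat _ 290333 5400000)) (enc_mul (enc_norm (bx1q1_3.enc h1 h2)) (enc_norm (enc_add (enc_scale 38 45 h1) (enc_rat _ 857 45000)))))) (enc_case (enc_subr 207 250 h1) (enc_add (bx1q1_29.enc h1 h2) (enc_mul (enc_norm (bx1q1_3.enc h1 h2)) (enc_norm (enc_add (enc_scale 232 275 h1) (enc_rat _ 5409 275000))))) (enc_case (enc_subr 883 1000 h1) (enc_add (bx1q1_29.enc h1 h2) (enc_mul (enc_norm (bx1q1_3.enc h1 h2)) (enc_norm (enc_subr 14373 11000 (enc_scale 269 110 h1))))) (enc_add (enc_add (enc_scale 184 2925 h1) (enc_rat _ 1136819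 11700000)) (enc_mul (enc_norm (bx1q1_3.enc h1 h2)) (enc_norm (enc_sub (enc_rat _ 252499 45000) (enc_scale 97 18 h1)))))))))⟩
noncomputable def l1q1 : Fn2 := ⟨_, _, fun h1 h2 => (enc_norm (enc_mul (cv1m.enc h1) (bx1q1.enc h1 h2)))⟩
noncomputable def bd1q1 : Fn2 := ⟨_, _, fun h1 h2 => (enc_norm (enc_sub (enc_mul (enc_norm (enc_subr 22 25 h2)) (enc_scale 2693 500 h1)) (enc_scale 30583 5000 h1)))⟩
noncomputable def kc1q1 : Fn2 := ⟨_, _, fun h1 h2 => (enc_norm (enc_mul (cv1m.enc h1) (bd1q1.enc h1 h2)))⟩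
noncomputable def xc12a : Fn1 := ⟨_, _, fun h1 => (enc_norm (enc_add (enc_scale 3 5 h1) (enc_scale 2 5 (enc_subr 1 2 (swg.enc (yag.enc h1))))))⟩
noncomputable def bf1q2_3 : Fn2 := ⟨_, _, fun h1 h2 => (enc_subr 22 25 h2)⟩
noncomputable def bf1q2_9 : Fn2 := ⟨_, _, fun h1 h2 => (enc_sub (enc_rat _ 7773 2000) (enc_scale 5773 2000 h1))⟩
noncomputable def bf1q2_15 : Fn2 := ⟨_, _, fun h1 h2 => (enc_add (bf1q2_9.enc h1 h2) (enc_mul (enc_norm (bf1q2_3.enc h1 h2)) (enc_norm (enc_sub (enc_rat _ 99351 10000) (enc_scale 99351 10000 h1)))))⟩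
noncomputable def bf1q2 : Fn2 := ⟨_, _, fun h1 h2 => (enc_norm (enc_case (enc_subr 577 500 h1) (bf1q2_15.enc h1 h2) (enc_case (enc_subr 231 200 h1) (bf1q2_15.enc h1 h2) (enc_add (bf1q2_9.enc h1 h2) (enc_mul (enc_norm (bf1q2_3.enc h1 h2)) (enc_norm (enc_sub (enc_rat _ 4570223 460000) (enc_scale 6855319 690000 h1))))))))⟩
noncomputable def kfc12a : Fn2 := ⟨_, _, fun h1 h2 => (enc_norm (enc_mul (enc_norm (enc_add (enc_scale 3 5 h1) (enc_scale 2 5 (enc_subr 1 2 (swg.enc (yag.enc h1)))))) (bf1q2.enc (yag.enc h1) h2)))⟩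
noncomputable def bx1q2_3 : Fn2 := ⟨_, _, fun h1 h2 => (enc_subr 22 25 h2)⟩
noncomputable def bx1q2 : Fn2 := ⟨_, _, fun h1 h2 => (enc_norm (enc_case (enc_subr 277 250 h1) (enc_case (enc_subr 17 16 h1) (enc_add (enc_sub (enc_rat _ 4209 6250) (enc_scale 4209 6250 h1)) (enc_mul (enc_norm (bx1q2_3.enc h1 h2)) (enc_norm (enc_sub (enc_rat _ 2181 625) (enc_scale 2181 625 h1))))) (enc_add (enc_sub (enc_rat _ 126739 87500) (enc_scale 491 350 h1)) (enc_mul (enc_norm (bx1q2_3.enc h1 h2)) (enc_norm (enc_sub (enc_rat _ 6043077 455000) (enc_scale 5781 455 h1)))))) (enc_case (enc_subr 577 500 h1) (enc_add (enc_sub (enc_rat _ 1509409 575000) (enc_scale 5669 2300 h1)) (enc_mul (enc_norm (bx1q2_3.enc h1 h2)) (enc_norm (enc_sub (enc_rat _ 1528333 115000) (enc_scale 1462 115 h1))))) (enc_case (enc_subr 231 200 h1) (enc_sub (enc_neg (enc_rat _ 2193 10000)) (enc_scale 1381 1000 (bx1q2_3.enc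 h1 h2))) (enc_add (enc_subr 187589 92000 (enc_scale 10871 6900 h1)) (enc_mul (enc_norm (bx1q2_3.enc h1 h2)) (enc_norm (enc_subr 5539 1000 (enc_scale 18 5 h1)))))))))⟩
noncomputable def lc12a : Fn2 := ⟨_, _, fun h1 h2 => (enc_norm (enc_mul (enc_norm (enc_add (enc_scale 3 5 h1) (enc_scale 2 5 (enc_subr 1 2 (swg.enc (yag.enc h1)))))) (bx1q2.enc (yag.enc h1) h2)))⟩
noncomputable def bd1q2 : Fn2 := ⟨_, _, fun h1 h2 => (enc_norm (enc_case (enc_subr 577 500 h1) (enc_pnc _ 0) (enc_case (enc_subr 231 200 h1) (enc_pnc _ 0) (enc_add (enc_subr 481173 46000 (enc_scale 2083 230 h1)) (enc_mul (enc_norm (enc_subr 22 25 h2)) (enc_norm (enc_subr 310233 2875 (enc_scale 10744 115 h1))))))))⟩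
noncomputable def kcc12a : Fn2 := ⟨_, _, fun h1 h2 => (enc_norm (enc_mul (enc_norm (enc_add (enc_scale 3 5 h1) (enc_scale 2 5 (enc_subr 1 2 (swg.enc (yag.enc h1)))))) (bd1q2.enc (yag.enc h1) h2)))⟩
noncomputable def xc12b : Fn1 := ⟨_, _, fun h1 => (enc_norm (enc_scale 2 5 (enc_subr 1 2 (swg.enc h1))))⟩
noncomputable def kfc12b : Fn2 := ⟨_, _, fun h1 h2 => (enc_norm (enc_mul (enc_norm (enc_scale 2 5 (enc_subr 1 2 (swg.enc h1)))) (bf1q2.enc h1 h2)))⟩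
noncomputable def lc12b : Fn2 := ⟨_, _, fun h1 h2 => (enc_norm (enc_mul (enc_norm (enc_scale 2 5 (enc_subr 1 2 (swg.enc h1)))) (bx1q2.enc h1 h2)))⟩
noncomputable def kcc12b : Fn2 := ⟨_, _, fun h1 h2 => (enc_norm (enc_mul (enc_norm (enc_scale 2 5 (enc_subr 1 2 (swg.enc h1)))) (bd1q2.enc h1 h2)))⟩
noncomputable def cv1r : Fn1 := ⟨_, _, fun h1 => (enc_norm (enc_scale 2 5 (enc_subr 1 2 (swg.enc h1))))⟩
noncomputable def c3g : Fn1 := ⟨_, _, fun h1 => (enc_sqrtg (enc_sub (enc_pnc _ 3) (enc_scale 3 4 (enc_sq h1))))⟩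
noncomputable def kf1q3_4 : Fn2 := ⟨_, _, fun h1 h2 => (enc_subr 22 25 h2)⟩
noncomputable def kf1q3 : Fn2 := ⟨_, _, fun h1 h2 => (enc_norm (enc_mul (cv1r.enc h1) (enc_norm (enc_case (enc_subr 46 25 h1) (enc_add (enc_subr 13798471 1700000 (enc_scale 143987 34000 h1)) (enc_mul (enc_norm (kf1q3_4.enc h1 h2)) (enc_norm (enc_sub (enc_rat _ 445803 4250) (enc_scale 215631 3400 h1))))) (enc_case (enc_subr 48 25 h1) (enc_add (enc_subr 202917 25000 (enc_scale 33879 8000 h1)) (enc_mul (enc_norm (kf1q3_4.enc h1 h2)) (enc_norm (enc_sub (enc_rat _ 262233 2500) (enc_scale 3171 50 h1))))) (enc_add (enc_subr 16623 25000 (enc_scale 339600000 242487113 (c3g.enc h1))) (enc_mul (enc_norm (kf1q3_4.enc h1 h2)) (enc_norm (enc_sub (enc_rat _ 19661 10000) (enc_scale 9419650000 242487113 (c3g.enc h1)))))))))))⟩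
noncomputable def l1q3_4 : Fn2 := ⟨_, _, fun h1 h2 => (enc_subr 22 25 h2)⟩
noncomputable def l1q3 : Fn2 := ⟨_, _, fun h1 h2 => (enc_norm (enc_mul (cv1r.enc h1) (enc_norm (enc_case (enc_subr 48 25 h1) (enc_case (enc_subr 46 25 h1) (enc_add (enc_subr 138679 68000 (enc_scale 6697 4250 h1)) (enc_mul (enc_norm (l1q3_4.enc h1 h2)) (enc_norm (enc_subr 188281 34000 (enc_scale 12237 3400 h1))))) (enc_add (enc_subr 203937 100000 (enc_scale 6303 4000 h1)) (enc_mul (enc_norm (l1q3_4.enc h1 h2)) (enc_norm (enc_subr 55393 10000 (enc_scale 18 5 h1)))))) (enc_case (enc_sub (enc_rat _ 429616471 1000000000) (c3g.enc h1)) (enc_add (enc_sub (enc_rat _ 5530438332733 5535775500000) (enc_scale 296000 11071551 (c3g.enc h1))) (enc_mul (enc_norm (l1q3_4.enc h1 h2)) (enc_norm (enc_subr 49285123213 110715510000 (enc_scale 41500000 11071551 (c3g.enc h1)))))) (enc_add (enc_sub (enc_rat _ 99907 100000)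 (enc_scale 11520000 429616471 (c3g.enc h1))) (enc_mul (enc_norm (l1q3_4.enc h1 h2)) (enc_norm (enc_subr 2223 5000 (enc_scale 1609800000 429616471 (c3g.enc h1)))))))))))⟩
noncomputable def kc1q3_4 : Fn2 := ⟨_, _, fun h1 h2 => (enc_subr 22 25 h2)⟩
noncomputable def kc1q3 : Fn2 := ⟨_, _, fun h1 h2 => (enc_norm (enc_mul (cv1r.enc h1) (enc_norm (enc_case (enc_subr 48 25 h1) (enc_add (enc_subr 73221 7000 (enc_scale 12679 1400 h1)) (enc_mul (enc_norm (kc1q3_4.enc h1 h2)) (enc_norm (enc_subr 377663 3500 (enc_scale 19619 210 h1))))) (enc_add (enc_subr 267 10000 (enc_scale 3477450000 242487113 (c3g.enc h1))) (enc_mul (enc_norm (kc1q3_4.enc h1 h2)) (enc_norm (enc_subr 11 40 (enc_scale 35872500000 242487113 (c3g.enc h1))))))))))⟩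
noncomputable def cv2m : Fn1 := ⟨_, _, fun h1 => (enc_norm (enc_add (enc_scale 87 100 (enc_add (swg.enc h1) (enc_rat _ 1 2))) (enc_scale 13 100 (c3g.enc h1))))⟩
noncomputable def esg : Fn1 := ⟨_, _, fun h1 => (enc_norm (enc_subn 1 (enc_add (enc_half h1) (gsg.enc h1))))⟩
noncomputable def kf2q0_4 : Fn2 := ⟨_, _, fun h1 h2 => (enc_subr 22 25 h2)⟩
noncomputable def kf2q0_44 : Fn2 := ⟨_, _, fun h1 h2 => (enc_sub (enc_pnc _ 1) h1)⟩
noncomputable def kf2q0_45 : Fn2 := ⟨_, _, fun h1 h2 => (gsg.enc (enc_norm (kf2q0_44.enc h1 h2)))⟩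
noncomputable def kf2q0_48 : Fn2 := ⟨_, _, fun h1 h2 => (enc_sub (enc_scale 3 4 (kf2q0_44.enc h1 h2)) (enc_half (kf2q0_45.enc h1 h2)))⟩
noncomputable def kf2q0_66 : Fn2 := ⟨_, _, fun h1 h2 => (enc_mul (cv1m.enc h1) (bf1q0.enc h1 h2))⟩
noncomputable def kf2q0 : Fn2 := ⟨_, _, fun h1 h2 => (enc_norm (enc_case (enc_subr 2 25 h1) (enc_mul (cv2m.enc h1) (enc_norm (enc_case (enc_subr 1 16 h1) (enc_add (enc_sub (enc_rat _ 2743 3125) (enc_scale 24279 6250 h1)) (enc_mul (enc_norm (kf2q0_4.enc h1 h2)) (enc_norm (enc_subr 5269 10000 (enc_neg (enc_scale 1036 625 h1)))))) (enc_add (enc_sub (enc_rat _ 1228891523 1400000000) (enc_scale 339933523 87500000 h1)) (enc_mul (enc_norm (kf2q0_4.enc h1 h2)) (enc_norm (enc_subr 36886413 70000000 (enc_neg (enc_scale 7248587 4375000 h1))))))))) (enc_case (enc_subr 4 25 h1) (enc_add (kf2q0_66.enc h1 h2) (enc_mul (enc_norm (enc_mul (enc_norm (enc_sub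 (enc_mul h1 (enc_norm (enc_sub (enc_mul (enc_norm (enc_sub (kf2q0_48.enc h1 h2) (enc_sub (enc_rat _ 1 4) (enc_scale 3 8 (enc_mul (enc_norm (kf2q0_44.enc h1 h2)) (enc_inv (kf2q0_45.enc h1 h2))))))) (enc_inv (esg.enc (enc_norm (kf2q0_44.enc h1 h2))))) (kcg.enc (enc_norm (kf2q0_48.enc h1 h2)) h2)))) (kf2q0_66.enc h1 h2))) (enc_norm (enc_sub (cv2m.enc h1) (cv1m.enc h1))))) (enc_inv (enc_sub (enc_add (swg.enc h1) (enc_rat _ 1 2)) (cv1m.enc h1))))) (enc_mul (cv2m.enc h1) (enc_norm (enc_add (enc_sub (enc_rat _ 831108719 850000000) (enc_scale 1432432719 425000000 h1)) (enc_mul (enc_norm (kf2q0_4.enc h1 h2)) (enc_norm (enc_sub (enc_rat _ 57561341 170000000) (enc_scale 434621341 85000000 h1))))))))))⟩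
noncomputable def qsg : Fn1 := ⟨_, _, fun h1 => (enc_norm (enc_mul (enc_norm (enc_sub (enc_pnc _ 1) (gsg.enc h1))) (enc_norm (enc_subn 1 (enc_nat 2 (gsg.enc h1))))))⟩
noncomputable def l2q0_4 : Fn2 := ⟨_, _, fun h1 h2 => (enc_subr 22 25 h2)⟩
noncomputable def l2q0_29 : Fn2 := ⟨_, _, fun h1 h2 => (enc_sq (enc_norm (l2q0_4.enc h1 h2)))⟩
noncomputable def l2q0_66 : Fn2 := ⟨_, _, fun h1 h2 => (enc_sub (enc_pnc _ 1) h1)⟩
noncomputable def l2q0_81 : Fn2 := ⟨_, _, fun h1 h2 => (enc_mul (cv1m.enc h1) (bx1q0.enc h1 h2))⟩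
noncomputable def l2q0 : Fn2 := ⟨_, _, fun h1 h2 => (enc_norm (enc_case (enc_subr 2 25 h1) (enc_mul (cv2m.enc h1) (enc_norm (enc_case (enc_subr 1 16 h1) (enc_add (enc_add (enc_scale 1639 3125 h1) (enc_rat _ 157 2500)) (enc_mul (enc_norm (l2q0_4.enc h1 h2)) (enc_norm (enc_subr 573 10000 (enc_scale 2421 625 h1))))) (enc_add (enc_add (enc_add (enc_scale 67209721 175000000 h1) (enc_rat _ 200414279 2800000000)) (enc_mul (enc_norm (l2q0_4.enc h1 h2)) (enc_norm (enc_sub (enc_rat _ 5157249 17500000) (enc_scale 1923249 1093750 h1))))) (enc_mul (l2q0_29.enc h1 h2) (enc_norm (enc_subr 493459 280000 (enc_scale 493459 17500 h1)))))))) (enc_case (enc_subr 4 25 h1) (enc_add (l2q0_81.enc h1 h2) (enc_mul (enc_norm (enc_mul (enc_norm (enc_sub (enc_sub (qsg.enc (enc_norm (l2q0_66.enc h1 h2))) (enc_mul (enc_norm (enc_nat 2 (enc_sub (l2q0_66.enc h1 h2) h2))) (enc_norm (enc_mul (esg.enc (enc_norm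 (l2q0_66.enc h1 h2))) (kcg.enc (enc_norm (enc_sub (enc_scale 3 4 (l2q0_66.enc h1 h2)) (enc_half (gsg.enc (enc_norm (l2q0_66.enc h1 h2)))))) h2))))) (l2q0_81.enc h1 h2))) (enc_norm (enc_sub (cv2m.enc h1) (cv1m.enc h1))))) (enc_inv (enc_sub (enc_add (swg.enc h1) (enc_rat _ 1 2)) (cv1m.enc h1))))) (enc_mul (cv2m.enc h1) (enc_norm (enc_case (enc_subr 11 50 h1) (enc_add (enc_add (enc_sub (enc_rat _ 4293661537 30000000000) (enc_scale 85832867 600000000 h1)) (enc_mul (enc_norm (l2q0_4.enc h1 h2)) (enc_norm (enc_sub (enc_rat _ 82288203 125000000) (enc_scale 8190973 2500000 h1))))) (enc_mul (l2q0_29.enc h1 h2) (enc_norm (enc_sub (enc_rat _ 3126761 3000000) (enc_scale 284251 60000 h1))))) (enc_add (enc_sub (enc_rat _ 100199 700000) (enc_scale 501 3500 h1)) (enc_mul (enc_norm (l2q0_4.enc h1 h2)) (enc_norm (enc_subr 801 10000 (enc_scale 2 25 h1)))))))))))⟩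
noncomputable def kc2q0_4 : Fn2 := ⟨_, _, fun h1 h2 => (enc_subr 22 25 h2)⟩
noncomputable def kc2q0_29 : Fn2 := ⟨_, _, fun h1 h2 => (enc_sub (enc_pnc _ 1) h1)⟩
noncomputable def kc2q0_30 : Fn2 := ⟨_, _, fun h1 h2 => (gsg.enc (enc_norm (kc2q0_29.enc h1 h2)))⟩
noncomputable def kc2q0_34 : Fn2 := ⟨_, _, fun h1 h2 => (esg.enc (enc_norm (kc2q0_29.enc h1 h2)))⟩
noncomputable def kc2q0_38 : Fn2 := ⟨_, _, fun h1 h2 => (gug.enc (enc_norm (kc2q0_29.enc h1 h2)))⟩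
noncomputable def kc2q0_40 : Fn2 := ⟨_, _, fun h1 h2 => (enc_mul (enc_norm (kc2q0_29.enc h1 h2)) (enc_inv (kc2q0_30.enc h1 h2)))⟩
noncomputable def kc2q0_41 : Fn2 := ⟨_, _, fun h1 h2 => (enc_scale 3 4 (kc2q0_40.enc h1 h2))⟩
noncomputable def kc2q0_70 : Fn2 := ⟨_, _, fun h1 h2 => (enc_mul (cv1m.enc h1) (bd1q0.enc h1 h2))⟩
noncomputable def kc2q0 : Fn2 := ⟨_, _, fun h1 h2 => (enc_norm (enc_case (enc_subr 2 25 h1) (enc_mul (cv2m.enc h1) (enc_norm (enc_add (enc_sub (enc_rat _ 11 250) (enc_scale 3474757587 200000000 h1)) (enc_mul (enc_norm (kc2q0_4.enc h1 h2)) (enc_norm (enc_subr 17357 1000 (enc_scale 15136221361 40000000 h1))))))) (enc_case (enc_subr 4 25 h1) (enc_add (kc2q0_70.enc h1 h2) (enc_mul (enc_norm (enc_mul (enc_norm (enc_sub (enc_add (enc_sub (enc_neg (enc_add (enc_add (enc_rat _ 3 4) (enc_scale 3 2 (kc2q0_29.enc h1 h2))) (enc_scale 3 4 (enc_mul (enc_norm (kc2q0_40.enc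 h1 h2)) (kc2q0_38.enc h1 h2))))) (enc_mul (enc_norm (enc_sub (enc_mul (enc_norm (enc_mul (enc_norm (kc2q0_41.enc h1 h2)) (enc_norm (enc_subn 3 (enc_nat 4 (kc2q0_30.enc h1 h2)))))) (kc2q0_34.enc h1 h2)) (enc_mul (qsg.enc (enc_norm (kc2q0_29.enc h1 h2))) (enc_norm (enc_sub (enc_rat _ 1 2) (kc2q0_41.enc h1 h2)))))) (enc_inv (enc_mul (enc_nat 2 (kc2q0_34.enc h1 h2)) (kc2q0_34.enc h1 h2))))) (enc_mul (kcg.enc (enc_norm (enc_sub (enc_scale 3 4 (kc2q0_29.enc h1 h2)) (enc_half (kc2q0_30.enc h1 h2)))) h2) (enc_norm (enc_add (enc_pnc _ 1) (enc_add (kc2q0_38.enc h1 h2) (enc_nat 2 (kc2q0_30.enc h1 h2))))))) (kc2q0_70.enc h1 h2))) (enc_norm (enc_sub (cv2m.enc h1) (cv1m.enc h1))))) (enc_inv (enc_sub (enc_add (swg.enc h1) (enc_rat _ 1 2)) (cv1m.enc h1))))) (enc_mul (cv2m.enc h1) (enc_norm (enc_add (enc_subr 2839433249 1700000000 (enc_scale 1419763249 850000000 h1)) (enc_mul (enc_norm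 (kc2q0_4.enc h1 h2)) (enc_norm (enc_sub (enc_rat _ 3409536477 680000000) (enc_scale 1704776477 340000000 h1))))))))))⟩
noncomputable def bf2q1 : Fn2 := ⟨_, _, fun h1 h2 => (enc_norm (enc_add (enc_subr 9409 50000 (enc_scale 59409 50000 h1)) (enc_mul (enc_norm (enc_subr 22 25 h2)) (enc_norm (enc_sub (enc_rat _ 30327 5000) (enc_scale 30327 5000 h1))))))⟩
noncomputable def kf2q1 : Fn2 := ⟨_, _, fun h1 h2 => (enc_norm (enc_mul (cv2m.enc h1) (bf2q1.enc h1 h2)))⟩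
noncomputable def bx2q1 : Fn2 := ⟨_, _, fun h1 h2 => (enc_norm (enc_add (enc_sub (enc_rat _ 7157 50000) (enc_scale 7157 50000 h1)) (enc_mul (enc_norm (enc_subr 22 25 h2)) (enc_norm (enc_subr 401 5000 (enc_scale 401 5000 h1))))))⟩
noncomputable def l2q1 : Fn2 := ⟨_, _, fun h1 h2 => (enc_norm (enc_mul (cv2m.enc h1) (bx2q1.enc h1 h2)))⟩
noncomputable def bd2q1 : Fn2 := ⟨_, _, fun h1 h2 => (enc_norm (enc_add (enc_subr 8351 5000 (enc_scale 8351 5000 h1)) (enc_mul (enc_norm (enc_subr 22 25 h2)) (enc_norm (enc_sub (enc_rat _ 2507 500) (enc_scale 2507 500 h1))))))⟩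
noncomputable def kc2q1 : Fn2 := ⟨_, _, fun h1 h2 => (enc_norm (enc_mul (cv2m.enc h1) (bd2q1.enc h1 h2)))⟩
noncomputable def cv2p : Fn1 := ⟨_, _, fun h1 => (enc_norm (enc_add (enc_scale 87 100 (enc_subr 1 2 (swg.enc h1))) (enc_scale 13 100 (c3g.enc h1))))⟩
noncomputable def bf2q2 : Fn2 := ⟨_, _, fun h1 h2 => (enc_norm (enc_add (enc_sub (enc_rat _ 425527 100000) (enc_scale 78903 25000 h1)) (enc_mul (enc_norm (enc_subr 22 25 h2)) (enc_norm (enc_sub (enc_rat _ 142923 5000) (enc_scale 145273 5000 h1))))))⟩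
noncomputable def kf2q2 : Fn2 := ⟨_, _, fun h1 h2 => (enc_norm (enc_mul (cv2p.enc h1) (bf2q2.enc h1 h2)))⟩
noncomputable def bx2q2_3 : Fn2 := ⟨_, _, fun h1 h2 => (enc_subr 22 25 h2)⟩
noncomputable def bx2q2_37 : Fn2 := ⟨_, _, fun h1 h2 => (enc_scale 499 580 h1)⟩
noncomputable def bx2q2_47 : Fn2 := ⟨_, _, fun h1 h2 => (enc_scale 82 95 h1)⟩
noncomputable def bx2q2 : Fn2 := ⟨_, _, fun h1 h2 => (enc_norm (enc_case (enc_subr 127 100 h1) (enc_case (enc_subr 231 200 h1) (enc_case (enc_subr 277 250 h1) (enc_add (enc_sub (enc_rat _ 977143 2700000) (enc_scale 661 2700 h1)) (enc_mul (enc_norm (bx2q2_3.enc h1 h2)) (enc_norm (enc_sub (enc_rat _ 17087 1350) (enc_scale 3223 270 h1))))) (enc_add (enc_sub (enc_rat _ 1701363 4700000) (enc_scale 1151 4700 h1)) (enc_mul (enc_norm (bx2q2_3.enc h1 h2)) (enc_norm (enc_subr 89533 58750 (enc_scale 81 94 h1)))))) (enc_case (enc_subr 1213 1000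 h1) (enc_add (enc_subr 172773 5800000 (enc_scale 547 5800 h1)) (enc_mul (enc_norm (bx2q2_3.enc h1 h2)) (enc_norm (enc_subr 882991 580000 (bx2q2_37.enc h1 h2))))) (enc_add (enc_subr 225439 1425000 (enc_scale 1141 5700 h1)) (enc_mul (enc_norm (bx2q2_3.enc h1 h2)) (enc_norm (enc_subr 18119 11875 (bx2q2_47.enc h1 h2))))))) (enc_case (enc_subr 277 200 h1) (enc_case (enc_subr 166 125 h1) (enc_add (enc_subr 30311 90625 (enc_scale 983 2900 h1)) (enc_mul (enc_norm (bx2q2_3.enc h1 h2)) (enc_norm (enc_subr 441449 290000 (bx2q2_37.enc h1 h2))))) (enc_add (enc_subr 201481 356250 (enc_scale 731 1425 h1)) (enc_mul (enc_norm (bx2q2_3.enc h1 h2)) (enc_norm (enc_subr 57987 38000 (bx2q2_47.enc h1 h2)))))) (enc_case (enc_subr 1443 1000 h1) (enc_add (enc_subr 2738917 2900000 (enc_scale 2281 2900 h1)) (enc_mul (enc_norm (bx2q2_3.enc h1 h2)) (enc_norm (enc_subr 176561 116000 (bx2q2_37.enc h1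 h2))))) (enc_add (enc_subr 2658173 1900000 (enc_scale 2093 1900 h1)) (enc_mul (enc_norm (bx2q2_3.enc h1 h2)) (enc_norm (enc_subr 57897 38000 (enc_scale 491 570 h1)))))))))⟩
noncomputable def l2q2 : Fn2 := ⟨_, _, fun h1 h2 => (enc_norm (enc_mul (cv2p.enc h1) (bx2q2.enc h1 h2)))⟩
noncomputable def bd2q2 : Fn2 := ⟨_, _, fun h1 h2 => (enc_norm (enc_add (enc_subr 68237 10000 (enc_scale 30339 5000 h1)) (enc_mul (enc_norm (enc_subr 22 25 h2)) (enc_norm (enc_subr 8151 500 (enc_neg (enc_scale 297 125 h1)))))))⟩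
noncomputable def kc2q2 : Fn2 := ⟨_, _, fun h1 h2 => (enc_norm (enc_mul (cv2p.enc h1) (bd2q2.enc h1 h2)))⟩
noncomputable def ycg : Fn1 := ⟨_, _, fun h1 => (enc_sqrtg (enc_scale 4 3 (enc_sub (enc_pnc _ 3) (enc_sq h1))))⟩
noncomputable def xc23 : Fn1 := ⟨_, _, fun h1 => (enc_norm (enc_add (enc_scale 87 100 (enc_subr 1 2 (swg.enc (ycg.enc h1)))) (enc_scale 13 100 h1)))⟩
noncomputable def kfc23_6 : Fn2 := ⟨_, _, fun h1 h2 => (enc_subr 1 2 (swg.enc (ycg.enc h1)))⟩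
noncomputable def kfc23_9 : Fn2 := ⟨_, _, fun h1 h2 => (enc_add (enc_scale 87 100 (kfc23_6.enc h1 h2)) (enc_scale 13 100 h1))⟩
noncomputable def kfc23_11 : Fn2 := ⟨_, _, fun h1 h2 => (enc_subr 22 25 h2)⟩
noncomputable def kfc23_45 : Fn2 := ⟨_, _, fun h1 h2 => (enc_subn 1 (ycg.enc h1))⟩
noncomputable def kfc23_46 : Fn2 := ⟨_, _, fun h1 h2 => (gsg.enc (enc_norm (kfc23_45.enc h1 h2)))⟩
noncomputable def kfc23_47 : Fn2 := ⟨_, _, fun h1 h2 => (enc_scale 3 4 (kfc23_45.enc h1 h2))⟩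
noncomputable def kfc23_48 : Fn2 := ⟨_, _, fun h1 h2 => (enc_half (kfc23_46.enc h1 h2))⟩
noncomputable def kfc23_65 : Fn2 := ⟨_, _, fun h1 h2 => (cv1r.enc (ycg.enc h1))⟩
noncomputable def kfc23_67 : Fn2 := ⟨_, _, fun h1 h2 => (enc_subr 46 25 (ycg.enc h1))⟩
noncomputable def kfc23_79 : Fn2 := ⟨_, _, fun h1 h2 => (enc_subr 48 25 (ycg.enc h1))⟩
noncomputable def kfc23_102 : Fn2 := ⟨_, _, fun h1 h2 => (enc_mul (kfc23_65.enc h1 h2) (enc_norm (enc_case (kfc23_67.enc h1 h2) (enc_add (enc_subr 13798471 1700000 (enc_scale 143987 34000 (ycg.enc h1))) (enc_mul (enc_norm (kfc23_11.enc h1 h2)) (enc_norm (enc_sub (enc_rat _ 445803 4250) (enc_scale 215631 3400 (ycg.enc h1)))))) (enc_case (kfc23_79.enc h1 h2) (enc_add (enc_subr 202917 25000 (enc_scale 33879 8000 (ycg.enc h1))) (enc_mul (enc_norm (kfc23_11.enc h1 h2)) (enc_norm (enc_sub (enc_rat _ 262233 2500) (enc_scale 3171 50 (ycg.enc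 h1)))))) (enc_add (enc_subr 16623 25000 (enc_scale 339600000 242487113 h1)) (enc_mul (enc_norm (kfc23_11.enc h1 h2)) (enc_norm (enc_sub (enc_rat _ 19661 10000) (enc_scale 9419650000 242487113 h1)))))))))⟩
noncomputable def kfc23 : Fn2 := ⟨_, _, fun h1 h2 => (enc_norm (enc_case (kfc23_67.enc h1 h2) (enc_mul (enc_norm (kfc23_9.enc h1 h2)) (enc_norm (enc_add (enc_subr 260752417 400000000 (enc_scale 75524139 200000000 (ycg.enc h1))) (enc_mul (enc_norm (kfc23_11.enc h1 h2)) (enc_norm (enc_subr 16445686093 340000000 (enc_scale 4557118031 170000000 (ycg.enc h1)))))))) (enc_case (kfc23_79.enc h1 h2) (enc_add (kfc23_102.enc h1 h2) (enc_mul (enc_norm (enc_mul (enc_norm (enc_sub (enc_mul (enc_norm (enc_subn 2 (ycg.enc h1))) (enc_norm (enc_add (enc_mul (enc_norm (enc_sub (enc_sub (kfc23_48.enc h1 h2) (kfc23_47.enc h1 h2)) (enc_sub (enc_rat _ 1 4) (enc_scale 3 8 (enc_mul (enc_norm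 (kfc23_45.enc h1 h2)) (enc_inv (kfc23_46.enc h1 h2))))))) (enc_inv (esg.enc (enc_norm (kfc23_45.enc h1 h2))))) (kcg.enc (enc_norm (enc_sub (kfc23_47.enc h1 h2) (kfc23_48.enc h1 h2))) h2)))) (kfc23_102.enc h1 h2))) (enc_norm (enc_sub (kfc23_9.enc h1 h2) (kfc23_65.enc h1 h2))))) (enc_inv (enc_sub (kfc23_6.enc h1 h2) (kfc23_65.enc h1 h2))))) (enc_mul (enc_norm (kfc23_9.enc h1 h2)) (enc_norm (enc_case (enc_sub (enc_rat _ 429616471 1000000000) h1) (enc_add (enc_subr 1201566083845830193 553577550000000000 (enc_scale 2411896183 553577550 h1)) (enc_mul (enc_norm (kfc23_11.enc h1 h2)) (enc_norm (enc_subr 339689009305713263 55357755000000000 (enc_scale 900669353 55357755 h1))))) (enc_add (enc_sub (enc_rat _ 1 2) (enc_scale 798740000 429616471 h1)) (enc_mul (enc_norm (kfc23_11.enc h1 h2)) (enc_scale 853600000 429616471 h1)))))))))⟩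
noncomputable def lc23_6 : Fn2 := ⟨_, _, fun h1 h2 => (enc_subr 1 2 (swg.enc (ycg.enc h1)))⟩
noncomputable def lc23_9 : Fn2 := ⟨_, _, fun h1 h2 => (enc_add (enc_scale 87 100 (lc23_6.enc h1 h2)) (enc_scale 13 100 h1))⟩
noncomputable def lc23_11 : Fn2 := ⟨_, _, fun h1 h2 => (enc_subr 22 25 h2)⟩
noncomputable def lc23_38 : Fn2 := ⟨_, _, fun h1 h2 => (enc_sq (enc_norm (lc23_11.enc h1 h2)))⟩
noncomputable def lc23_44 : Fn2 := ⟨_, _, fun h1 h2 => (enc_sub (enc_rat _ 429616471 1000000000) h1)⟩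
noncomputable def lc23_72 : Fn2 := ⟨_, _, fun h1 h2 => (enc_subn 1 (ycg.enc h1))⟩
noncomputable def lc23_85 : Fn2 := ⟨_, _, fun h1 h2 => (cv1r.enc (ycg.enc h1))⟩
noncomputable def lc23_87 : Fn2 := ⟨_, _, fun h1 h2 => (enc_subr 48 25 (ycg.enc h1))⟩
noncomputable def lc23_89 : Fn2 := ⟨_, _, fun h1 h2 => (enc_subr 46 25 (ycg.enc h1))⟩
noncomputable def lc23_133 : Fn2 := ⟨_, _, fun h1 h2 => (enc_mul (lc23_85.enc h1 h2) (enc_norm (enc_case (lc23_87.enc h1 h2) (enc_case (lc23_89.enc h1 h2) (enc_add (enc_subr 138679 68000 (enc_scale 6697 4250 (ycg.enc h1))) (enc_mul (enc_norm (lc23_11.enc h1 h2)) (enc_norm (enc_subr 188281 34000 (enc_scale 12237 3400 (ycg.enc h1)))))) (enc_add (enc_subr 203937 100000 (enc_scale 6303 4000 (ycg.enc h1))) (enc_mul (enc_norm (lc23_11.enc h1 h2)) (enc_norm (enc_subr 55393 10000 (enc_scale 18 5 (ycg.enc h1))))))) (enc_case (lc23_44.enc h1 h2) (enc_add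 (enc_sub (enc_rat _ 5530438332733 5535775500000) (enc_scale 296000 11071551 h1)) (enc_mul (enc_norm (lc23_11.enc h1 h2)) (enc_norm (enc_subr 49285123213 110715510000 (enc_scale 41500000 11071551 h1))))) (enc_add (enc_sub (enc_rat _ 99907 100000) (enc_scale 11520000 429616471 h1)) (enc_mul (enc_norm (lc23_11.enc h1 h2)) (enc_norm (enc_subr 2223 5000 (enc_scale 1609800000 429616471 h1)))))))))⟩
noncomputable def lc23 : Fn2 := ⟨_, _, fun h1 h2 => (enc_norm (enc_case (lc23_89.enc h1 h2) (enc_mul (enc_norm (lc23_9.enc h1 h2)) (enc_norm (enc_case (enc_subr 1783 1000 (ycg.enc h1)) (enc_add (enc_subr 39594761 28300000 (enc_scale 7794 7075 (ycg.enc h1))) (enc_mul (enc_norm (lc23_11.enc h1 h2)) (enc_norm (enc_subr 387229 566000 (enc_scale 427 1415 (ycg.enc h1)))))) (enc_add (enc_add (enc_subr 797444911721 570000000000 (enc_scale 627900287 570000000 (ycg.enc h1))) (enc_mul (enc_norm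 (lc23_11.enc h1 h2)) (enc_norm (enc_subr 604703275793 19000000000 (enc_scale 337592471 19000000 (ycg.enc h1)))))) (enc_mul (lc23_38.enc h1 h2) (enc_norm (enc_subr 2506029679 57000000 (enc_scale 1405513 57000 (ycg.enc h1))))))))) (enc_case (lc23_87.enc h1 h2) (enc_add (lc23_133.enc h1 h2) (enc_mul (enc_norm (enc_mul (enc_norm (enc_sub (enc_sub (qsg.enc (enc_norm (lc23_72.enc h1 h2))) (enc_mul (enc_norm (enc_nat 2 (enc_sub (lc23_72.enc h1 h2) h2))) (enc_norm (enc_mul (esg.enc (enc_norm (lc23_72.enc h1 h2))) (kcg.enc (enc_norm (enc_sub (enc_scale 3 4 (lc23_72.enc h1 h2)) (enc_half (gsg.enc (enc_norm (lc23_72.enc h1 h2)))))) h2))))) (lc23_133.enc h1 h2))) (enc_norm (enc_sub (lc23_9.enc h1 h2) (lc23_85.enc h1 h2))))) (enc_inv (enc_sub (lc23_6.enc h1 h2) (lc23_85.enc h1 h2))))) (enc_mul (enc_norm (lc23_9.enc h1 h2)) (enc_norm (enc_case (lc23_44.enc h1 h2) (enc_add (enc_add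 (enc_sub (enc_rat _ 421226102750559247 553577550000000000) (enc_scale 88092457 553577550 h1)) (enc_mul (enc_norm (lc23_11.enc h1 h2)) (enc_norm (enc_sub (enc_rat _ 38463366030162977 18452585000000000) (enc_scale 32430087 18452585 h1))))) (enc_mul (lc23_38.enc h1 h2) (enc_norm (enc_subr 322080460993403 13839438750000 (enc_scale 599754400 11071551 h1))))) (enc_add (enc_add (enc_scale 161620000 429616471 h1) (enc_rat _ 53093 100000)) (enc_mul (enc_norm (lc23_11.enc h1 h2)) (enc_norm (enc_add (enc_scale 293050000 429616471 h1) (enc_rat _ 20727 20000)))))))))))⟩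
noncomputable def kcc23_6 : Fn2 := ⟨_, _, fun h1 h2 => (enc_subr 1 2 (swg.enc (ycg.enc h1)))⟩
noncomputable def kcc23_9 : Fn2 := ⟨_, _, fun h1 h2 => (enc_add (enc_scale 87 100 (kcc23_6.enc h1 h2)) (enc_scale 13 100 h1))⟩
noncomputable def kcc23_11 : Fn2 := ⟨_, _, fun h1 h2 => (enc_subr 22 25 h2)⟩
noncomputable def kcc23_36 : Fn2 := ⟨_, _, fun h1 h2 => (enc_subn 1 (ycg.enc h1))⟩
noncomputable def kcc23_37 : Fn2 := ⟨_, _, fun h1 h2 => (gsg.enc (enc_norm (kcc23_36.enc h1 h2)))⟩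
noncomputable def kcc23_41 : Fn2 := ⟨_, _, fun h1 h2 => (esg.enc (enc_norm (kcc23_36.enc h1 h2)))⟩
noncomputable def kcc23_46 : Fn2 := ⟨_, _, fun h1 h2 => (gug.enc (enc_norm (kcc23_36.enc h1 h2)))⟩
noncomputable def kcc23_48 : Fn2 := ⟨_, _, fun h1 h2 => (enc_mul (enc_norm (kcc23_36.enc h1 h2)) (enc_inv (kcc23_37.enc h1 h2)))⟩
noncomputable def kcc23_49 : Fn2 := ⟨_, _, fun h1 h2 => (enc_scale 3 4 (kcc23_48.enc h1 h2))⟩
noncomputable def kcc23_74 : Fn2 := ⟨_, _, fun h1 h2 => (cv1r.enc (ycg.enc h1))⟩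
noncomputable def kcc23_76 : Fn2 := ⟨_, _, fun h1 h2 => (enc_subr 48 25 (ycg.enc h1))⟩
noncomputable def kcc23_98 : Fn2 := ⟨_, _, fun h1 h2 => (enc_mul (kcc23_74.enc h1 h2) (enc_norm (enc_case (kcc23_76.enc h1 h2) (enc_add (enc_subr 73221 7000 (enc_scale 12679 1400 (ycg.enc h1))) (enc_mul (enc_norm (kcc23_11.enc h1 h2)) (enc_norm (enc_subr 377663 3500 (enc_scale 19619 210 (ycg.enc h1)))))) (enc_add (enc_subr 267 10000 (enc_scale 3477450000 242487113 h1)) (enc_mul (enc_norm (kcc23_11.enc h1 h2)) (enc_norm (enc_subr 11 40 (enc_scale 35872500000 242487113 h1))))))))⟩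
noncomputable def kcc23 : Fn2 := ⟨_, _, fun h1 h2 => (enc_norm (enc_case (enc_subr 46 25 (ycg.enc h1)) (enc_mul (enc_norm (kcc23_9.enc h1 h2)) (enc_norm (enc_add (enc_subr 46399531039 6800000000 (enc_scale 20629977013 3400000000 (ycg.enc h1))) (enc_mul (enc_norm (kcc23_11.enc h1 h2)) (enc_norm (enc_subr 5542395543 340000000 (enc_neg (enc_scale 404014819 170000000 (ycg.enc h1))))))))) (enc_case (kcc23_76.enc h1 h2) (enc_add (kcc23_98.enc h1 h2) (enc_mul (enc_norm (enc_mul (enc_norm (enc_sub (enc_add (enc_sub (enc_add (enc_add (enc_rat _ 3 4) (enc_scale 3 2 (kcc23_36.enc h1 h2))) (enc_scale 3 4 (enc_mul (enc_norm (kcc23_48.enc h1 h2)) (kcc23_46.enc h1 h2)))) (enc_mul (enc_norm (enc_sub (enc_mul (enc_norm (enc_mul (enc_norm (kcc23_49.enc h1 h2)) (enc_norm (enc_subn 3 (enc_nat 4 (kcc23_37.enc h1 h2)))))) (kcc23_41.enc h1 h2)) (enc_mul (qsg.enc (enc_norm (kcc23_36.enc h1 h2)))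 (enc_norm (enc_sub (enc_rat _ 1 2) (kcc23_49.enc h1 h2)))))) (enc_inv (enc_mul (enc_nat 2 (kcc23_41.enc h1 h2)) (kcc23_41.enc h1 h2))))) (enc_mul (kcg.enc (enc_norm (enc_sub (enc_scale 3 4 (kcc23_36.enc h1 h2)) (enc_half (kcc23_37.enc h1 h2)))) h2) (enc_norm (enc_sub (enc_pnc _ 1) (enc_add (kcc23_46.enc h1 h2) (enc_nat 2 (kcc23_37.enc h1 h2))))))) (kcc23_98.enc h1 h2))) (enc_norm (enc_sub (kcc23_9.enc h1 h2) (kcc23_74.enc h1 h2))))) (enc_inv (enc_sub (kcc23_6.enc h1 h2) (kcc23_74.enc h1 h2))))) (enc_mul (enc_norm (kcc23_9.enc h1 h2)) (enc_norm (enc_add (enc_subr 692 167 (enc_scale 4627032324316 202476739355 h1)) (enc_mul (enc_norm (kcc23_11.enc h1 h2)) (enc_norm (enc_sub (enc_rat _ 47747 167) (enc_scale 28058143467104 40495347871 h1))))))))))⟩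
noncomputable def cv3m : Fn1 := ⟨_, _, fun h1 => (enc_norm (enc_add (enc_half (enc_add (swg.enc h1) (enc_rat _ 1 2))) (enc_half (c3g.enc h1))))⟩
noncomputable def bf3q0 : Fn2 := ⟨_, _, fun h1 h2 => (enc_norm (enc_add (enc_sub (enc_rat _ 10873 25000) (enc_scale 97969 50000 h1)) (enc_mul (enc_norm (enc_subr 22 25 h2)) (enc_norm (enc_sub (enc_rat _ 1179 5000) (enc_scale 2507 125 h1))))))⟩
noncomputable def kf3q0 : Fn2 := ⟨_, _, fun h1 h2 => (enc_norm (enc_mul (cv3m.enc h1) (bf3q0.enc h1 h2)))⟩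
noncomputable def bx3q0 : Fn2 := ⟨_, _, fun h1 h2 => (enc_norm (enc_add (enc_sub (enc_rat _ 4741 25000) (enc_scale 4741 25000 h1)) (enc_mul (enc_norm (enc_subr 22 25 h2)) (enc_norm (enc_sub (enc_rat _ 2599 5000) (enc_scale 2599 5000 h1))))))⟩
noncomputable def l3q0 : Fn2 := ⟨_, _, fun h1 h2 => (enc_norm (enc_mul (cv3m.enc h1) (bx3q0.enc h1 h2)))⟩
noncomputable def bd3q0 : Fn2 := ⟨_, _, fun h1 h2 => (enc_norm (enc_add (enc_sub (enc_rat _ 7043 2000) (enc_scale 17607 5000 h1)) (enc_mul (enc_norm (enc_subr 22 25 h2)) (enc_norm (enc_sub (enc_rat _ 24603 500) (enc_scale 24603 500 h1))))))⟩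
noncomputable def kc3q0 : Fn2 := ⟨_, _, fun h1 h2 => (enc_norm (enc_mul (cv3m.enc h1) (bd3q0.enc h1 h2)))⟩
noncomputable def bf3q1 : Fn2 := ⟨_, _, fun h1 h2 => (enc_norm (enc_add (enc_subr 4793 12500 (enc_scale 17293 12500 h1)) (enc_mul (enc_norm (enc_subr 22 25 h2)) (enc_norm (enc_subr 3174 625 (enc_scale 3174 625 h1))))))⟩
noncomputable def kf3q1 : Fn2 := ⟨_, _, fun h1 h2 => (enc_norm (enc_mul (cv3m.enc h1) (bf3q1.enc h1 h2)))⟩
noncomputable def bx3q1 : Fn2 := ⟨_, _, fun h1 h2 => (enc_norm (enc_add (enc_sub (enc_rat _ 4741 25000) (enc_scale 4741 25000 h1)) (enc_mul (enc_norm (enc_subr 22 25 h2)) (enc_norm (enc_sub (enc_rat _ 2599 5000) (enc_scale 2599 5000 h1))))))⟩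
noncomputable def l3q1 : Fn2 := ⟨_, _, fun h1 h2 => (enc_norm (enc_mul (cv3m.enc h1) (bx3q1.enc h1 h2)))⟩
noncomputable def bd3q1 : Fn2 := ⟨_, _, fun h1 h2 => (enc_norm (enc_add (enc_sub (enc_rat _ 2201 625) (enc_scale 2201 625 h1)) (enc_mul (enc_norm (enc_subr 22 25 h2)) (enc_norm (enc_sub (enc_rat _ 24603 500) (enc_scale 24603 500 h1))))))⟩
noncomputable def kc3q1 : Fn2 := ⟨_, _, fun h1 h2 => (enc_norm (enc_mul (cv3m.enc h1) (bd3q1.enc h1 h2)))⟩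
noncomputable def cv3p : Fn1 := ⟨_, _, fun h1 => (enc_norm (enc_add (enc_half (enc_subr 1 2 (swg.enc h1))) (enc_half (c3g.enc h1))))⟩
noncomputable def bf3q2 : Fn2 := ⟨_, _, fun h1 h2 => (enc_norm (enc_add (enc_subr 41617 25000 (enc_scale 109581 50000 h1)) (enc_mul (enc_norm (enc_subr 22 25 h2)) (enc_norm (enc_subr 7323 1250 (enc_scale 25903 5000 h1))))))⟩
noncomputable def kf3q2 : Fn2 := ⟨_, _, fun h1 h2 => (enc_norm (enc_mul (cv3p.enc h1) (bf3q2.enc h1 h2)))⟩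
noncomputable def bx3q2_3 : Fn2 := ⟨_, _, fun h1 h2 => (enc_subr 22 25 h2)⟩
noncomputable def bx3q2 : Fn2 := ⟨_, _, fun h1 h2 => (enc_norm (enc_case (enc_subr 277 200 h1) (enc_add (enc_subr 4570619 7700000 (enc_scale 20833 38500 h1)) (enc_mul (enc_norm (bx3q2_3.enc h1 h2)) (enc_norm (enc_subr 681409 385000 (enc_scale 2977 1925 h1))))) (enc_case (enc_subr 1443 1000 h1) (enc_add (enc_subr 3443527 5800000 (enc_scale 3139 5800 h1)) (enc_mul (enc_norm (bx3q2_3.enc h1 h2)) (enc_norm (enc_subr 205317 116000 (enc_scale 897 580 h1))))) (enc_add (enc_subr 73453 118750 (enc_scale 1061 1900 h1)) (enc_mul (enc_norm (bx3q2_3.enc h1 h2)) (enc_norm (enc_subr 168019 95000 (enc_scale 881 570 h1))))))))⟩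
noncomputable def l3q2 : Fn2 := ⟨_, _, fun h1 h2 => (enc_norm (enc_mul (cv3p.enc h1) (bx3q2.enc h1 h2)))⟩
noncomputable def bd3q2 : Fn2 := ⟨_, _, fun h1 h2 => (enc_norm (enc_add (enc_add (enc_scale 13337 5000 h1) (enc_rat _ 1147 10000)) (enc_mul (enc_norm (enc_subr 22 25 h2)) (enc_norm (enc_subr 253053 1000 (enc_scale 21922 125 h1))))))⟩
noncomputable def kc3q2 : Fn2 := ⟨_, _, fun h1 h2 => (enc_norm (enc_mul (cv3p.enc h1) (bd3q2.enc h1 h2)))⟩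
noncomputable def xc33 : Fn1 := ⟨_, _, fun h1 => (enc_norm (enc_add (enc_half (enc_subr 1 2 (swg.enc (ycg.enc h1)))) (enc_half h1)))⟩
noncomputable def kfc33_11 : Fn2 := ⟨_, _, fun h1 h2 => (enc_subr 22 25 h2)⟩
noncomputable def kfc33 : Fn2 := ⟨_, _, fun h1 h2 => (enc_norm (enc_mul (enc_norm (enc_add (enc_half (enc_subr 1 2 (swg.enc (ycg.enc h1)))) (enc_half h1))) (enc_norm (enc_case (enc_subr 46 25 (ycg.enc h1)) (enc_add (enc_subr 243539 850000 (enc_scale 8759 34000 (ycg.enc h1))) (enc_mul (enc_norm (kfc33_11.enc h1 h2)) (enc_norm (enc_sub (enc_rat _ 16703989 170000) (enc_scale 176527 3400 (ycg.enc h1)))))) (enc_case (enc_subr 48 25 (ycg.enc h1)) (enc_add (enc_subr 28653 100000 (enc_scale 2061 8000 (ycg.enc h1))) (enc_mul (enc_norm (kfc33_11.enc h1 h2)) (enc_norm (enc_sub (enc_rat _ 982593 10000) (enc_scale 1298 25 (ycg.enc h1)))))) (enc_sub (enc_sub (enc_rat _ 1 2)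 (enc_scale 145945000 242487113 h1)) (enc_mul (enc_norm (kfc33_11.enc h1 h2)) (enc_scale 713550000 242487113 h1))))))))⟩
noncomputable def lc33_11 : Fn2 := ⟨_, _, fun h1 h2 => (enc_subr 22 25 h2)⟩
noncomputable def lc33 : Fn2 := ⟨_, _, fun h1 h2 => (enc_norm (enc_mul (enc_norm (enc_add (enc_half (enc_subr 1 2 (swg.enc (ycg.enc h1)))) (enc_half h1))) (enc_norm (enc_case (enc_subr 48 25 (ycg.enc h1)) (enc_case (enc_subr 46 25 (ycg.enc h1)) (enc_add (enc_subr 907207 850000 (enc_scale 14579 17000 (ycg.enc h1))) (enc_mul (enc_norm (lc33_11.enc h1 h2)) (enc_norm (enc_subr 75221 42500 (enc_scale 2629 1700 (ycg.enc h1)))))) (enc_add (enc_subr 106737 100000 (enc_scale 6861 8000 (ycg.enc h1))) (enc_mul (enc_norm (lc33_11.enc h1 h2)) (enc_norm (enc_subr 3539 2000 (enc_scale 1237 800 (ycg.enc h1))))))) (enc_case (enc_sub (enc_rat _ 429616471 1000000000) h1) (enc_add (enc_sub (enc_rat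 _ 3510302539361 5535775500000) (enc_scale 1252000 11071551 h1)) (enc_mul (enc_norm (lc33_11.enc h1 h2)) (enc_norm (enc_add (enc_scale 1240000 3690517 h1) (enc_rat _ 191233449893 184525850000))))) (enc_add (enc_add (enc_scale 54600000 429616471 h1) (enc_rat _ 53093 100000)) (enc_mul (enc_norm (lc33_11.enc h1 h2)) (enc_norm (enc_add (enc_scale 144350000 429616471 h1) (enc_rat _ 20727 20000))))))))))⟩
noncomputable def kcc33_11 : Fn2 := ⟨_, _, fun h1 h2 => (enc_subr 22 25 h2)⟩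
noncomputable def kcc33 : Fn2 := ⟨_, _, fun h1 h2 => (enc_norm (enc_mul (enc_norm (enc_add (enc_half (enc_subr 1 2 (swg.enc (ycg.enc h1)))) (enc_half h1))) (enc_norm (enc_case (enc_subr 46 25 (ycg.enc h1)) (enc_add (enc_add (enc_scale 9069 3400 (ycg.enc h1)) (enc_rat _ 19511 170000)) (enc_mul (enc_norm (kcc33_11.enc h1 h2)) (enc_norm (enc_subr 2150919 8500 (enc_scale 59627 340 (ycg.enc h1)))))) (enc_case (enc_subr 48 25 (ycg.enc h1)) (enc_add (enc_add (enc_scale 1067 400 (ycg.enc h1)) (enc_rat _ 229 2000)) (enc_mul (enc_norm (kcc33_11.enc h1 h2)) (enc_norm (enc_subr 63263 250 (enc_scale 1403 8 (ycg.enc h1)))))) (enc_add (enc_subr 692 167 (enc_scale 783214350000 40495347871 h1)) (enc_mul (enc_norm (kcc33_11.enc h1 h2)) (enc_norm (enc_sub (enc_rat _ 47747 167) (enc_scale 1535202000000 3681395261 h1))))))))))⟩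
noncomputable def kf4q0 : Fn2 := ⟨_, _, fun h1 h2 => (enc_norm (enc_sub (enc_mul h1 (kcg.enc (enc_half h1) h2)) (enc_mul (enc_norm (enc_mul (enc_sq h1) (enc_norm (enc_add (c3g.enc h1) (enc_rat _ 3 2))))) (enc_inv (enc_mul (enc_norm (enc_sub (enc_pnc _ 1) h1)) (enc_norm (enc_add (enc_pnc _ 1) h1)))))))⟩
noncomputable def l4q0_6 : Fn2 := ⟨_, _, fun h1 h2 => (enc_half h1)⟩
noncomputable def l4q0_7 : Fn2 := ⟨_, _, fun h1 h2 => (enc_half (c3g.enc h1))⟩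
noncomputable def l4q0_8 : Fn2 := ⟨_, _, fun h1 h2 => (enc_scale 1 4 h1)⟩
noncomputable def l4q0 : Fn2 := ⟨_, _, fun h1 h2 => (enc_norm (enc_add (txg.enc (l4q0_6.enc h1 h2) (enc_norm (enc_sub (l4q0_7.enc h1 h2) (l4q0_8.enc h1 h2))) h2) (txg.enc (enc_neg (l4q0_6.enc h1 h2)) (enc_norm (enc_add (l4q0_7.enc h1 h2) (l4q0_8.enc h1 h2))) h2)))⟩
noncomputable def kc4q0_3 : Fn2 := ⟨_, _, fun h1 h2 => (enc_subr 22 25 h2)⟩
noncomputable def kc4q0_6 : Fn2 := ⟨_, _, fun h1 h2 => (enc_half h1)⟩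
noncomputable def kc4q0 : Fn2 := ⟨_, _, fun h1 h2 => (enc_norm (enc_case (enc_subr 167 1000 (kc4q0_6.enc h1 h2)) (enc_add (enc_sub (enc_rat _ 29217 5000) (enc_scale 24903 3340 h1)) (enc_mul (enc_norm (kc4q0_3.enc h1 h2)) (enc_norm (enc_subr 2717 1000 (enc_scale 13754 167 h1))))) (enc_case (enc_subr 333 1000 (kc4q0_6.enc h1 h2)) (enc_add (enc_sub (enc_rat _ 9700231 1660000) (enc_scale 4951 664 h1)) (enc_mul (enc_norm (kc4q0_3.enc h1 h2)) (enc_norm (enc_subr 18039 6640 (enc_scale 27343 332 h1))))) (enc_add (enc_sub (enc_rat _ 2194 835) (enc_scale 2194 835 h1)) (enc_mul (enc_norm (kc4q0_3.enc h1 h2)) (enc_norm (enc_sub (enc_rat _ 26067 167) (enc_scale 26067 167 h1))))))))⟩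
noncomputable def kf4q1 : Fn2 := ⟨_, _, fun h1 h2 => (enc_norm (enc_add (enc_mul (enc_norm (enc_mul h1 (enc_norm (enc_add (c3g.enc h1) (enc_rat _ 3 2))))) (enc_inv (enc_add (enc_pnc _ 1) h1))) (enc_mul (enc_norm (enc_subn 1 h1)) (kcg.enc (enc_half h1) h2))))⟩
noncomputable def l4q1_7 : Fn2 := ⟨_, _, fun h1 h2 => (enc_half h1)⟩
noncomputable def l4q1_8 : Fn2 := ⟨_, _, fun h1 h2 => (enc_half (c3g.enc h1))⟩
noncomputable def l4q1_9 : Fn2 := ⟨_, _, fun h1 h2 => (enc_scale 1 4 h1)⟩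
noncomputable def l4q1 : Fn2 := ⟨_, _, fun h1 h2 => (enc_norm (enc_add (txg.enc (l4q1_7.enc h1 h2) (enc_norm (enc_sub (l4q1_8.enc h1 h2) (l4q1_9.enc h1 h2))) h2) (txg.enc (enc_neg (l4q1_7.enc h1 h2)) (enc_norm (enc_add (l4q1_8.enc h1 h2) (l4q1_9.enc h1 h2))) h2)))⟩
noncomputable def kc4q1_3 : Fn2 := ⟨_, _, fun h1 h2 => (enc_subr 22 25 h2)⟩
noncomputable def kc4q1_7 : Fn2 := ⟨_, _, fun h1 h2 => (enc_half h1)⟩
noncomputable def kc4q1 : Fn2 := ⟨_, _, fun h1 h2 => (enc_norm (enc_case (enc_subr 167 1000 (kc4q1_7.enc h1 h2)) (enc_add (enc_sub (enc_rat _ 29217 5000) (enc_scale 24903 3340 h1)) (enc_mul (enc_norm (kc4q1_3.enc h1 h2)) (enc_norm (enc_subr 2717 1000 (enc_scale 13754 167 h1))))) (enc_case (enc_subr 333 1000 (kc4q1_7.enc h1 h2)) (enc_add (enc_sub (enc_rat _ 9700231 1660000) (enc_scale 4951 664 h1)) (enc_mul (enc_norm (kc4q1_3.enc h1 h2)) (enc_norm (enc_subr 18039 6640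 (enc_scale 27343 332 h1))))) (enc_add (enc_sub (enc_rat _ 2194 835) (enc_scale 2194 835 h1)) (enc_mul (enc_norm (kc4q1_3.enc h1 h2)) (enc_norm (enc_sub (enc_rat _ 26067 167) (enc_scale 26067 167 h1))))))))⟩
noncomputable def kf4q2 : Fn2 := ⟨_, _, fun h1 h2 => (enc_norm (enc_add (enc_mul (enc_norm (enc_mul (enc_norm (enc_sub (enc_nat 2 (c3g.enc h1)) h1)) (enc_norm (enc_sub (enc_add (c3g.enc h1) (enc_pnc _ 3)) (enc_scale 3 2 h1))))) (enc_inv (enc_nat 4 (enc_sub (enc_pnc _ 2) h1)))) (enc_mul (enc_norm (enc_subn 1 h1)) (kcg.enc (enc_norm (enc_sub (enc_scale 1 4 h1) (enc_half (c3g.enc h1)))) h2))))⟩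
noncomputable def l4q2_7 : Fn2 := ⟨_, _, fun h1 h2 => (enc_half (c3g.enc h1))⟩
noncomputable def l4q2_8 : Fn2 := ⟨_, _, fun h1 h2 => (enc_scale 1 4 h1)⟩
noncomputable def l4q2_9 : Fn2 := ⟨_, _, fun h1 h2 => (enc_sub (l4q2_7.enc h1 h2) (l4q2_8.enc h1 h2))⟩
noncomputable def l4q2_12 : Fn2 := ⟨_, _, fun h1 h2 => (enc_add (enc_scale 1 4 (c3g.enc h1)) (enc_scale 3 8 h1))⟩
noncomputable def l4q2_14 : Fn2 := ⟨_, _, fun h1 h2 => (enc_half (l4q2_9.enc h1 h2))⟩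
noncomputable def l4q2 : Fn2 := ⟨_, _, fun h1 h2 => (enc_norm (enc_sub (enc_nat 2 (txg.enc (enc_norm (enc_sub (l4q2_8.enc h1 h2) (l4q2_7.enc h1 h2))) (enc_norm (enc_add (l4q2_12.enc h1 h2) (l4q2_14.enc h1 h2))) h2)) (txg.enc (enc_norm (l4q2_9.enc h1 h2)) (enc_norm (enc_sub (l4q2_12.enc h1 h2) (l4q2_14.enc h1 h2))) h2)))⟩
noncomputable def kc4q2_3 : Fn2 := ⟨_, _, fun h1 h2 => (enc_subr 22 25 h2)⟩
noncomputable def kc4q2_9 : Fn2 := ⟨_, _, fun h1 h2 => (enc_sub (enc_half (c3g.enc h1)) (enc_scale 1 4 h1))⟩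
noncomputable def kc4q2_27 : Fn2 := ⟨_, _, fun h1 h2 => (enc_scale 153 1660 (kc4q2_9.enc h1 h2))⟩
noncomputable def kc4q2_31 : Fn2 := ⟨_, _, fun h1 h2 => (enc_scale 25323 166 (kc4q2_9.enc h1 h2))⟩
noncomputable def kc4q2_40 : Fn2 := ⟨_, _, fun h1 h2 => (enc_subr 13533 10000 (enc_scale 77 835 (kc4q2_9.enc h1 h2)))⟩
noncomputable def kc4q2 : Fn2 := ⟨_, _, fun h1 h2 => (enc_norm (enc_case (kc4q2_9.enc h1 h2) (enc_case (enc_add (kc4q2_9.enc h1 h2) (enc_rat _ 333 1000)) (enc_add (enc_subr 692 167 (enc_neg (enc_scale 1384 167 (kc4q2_9.enc h1 h2)))) (enc_mul (enc_norm (kc4q2_3.enc h1 h2)) (enc_norm (enc_add (enc_scale 95494 167 (kc4q2_9.enc h1 h2)) (enc_rat _ 47747 167))))) (enc_case (enc_add (kc4q2_9.enc h1 h2) (enc_rat _ 167 1000)) (enc_add (enc_subr 2246491 1660000 (kc4q2_27.enc h1 h2)) (enc_mul (enc_norm (kc4q2_3.enc h1 h2)) (enc_norm (enc_sub (enc_rat _ 1483889 33200) (kc4q2_31.enc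 h1 h2))))) (enc_add (kc4q2_40.enc h1 h2) (enc_mul (enc_norm (kc4q2_3.enc h1 h2)) (enc_norm (enc_sub (enc_rat _ 8939 200) (enc_scale 25476 167 (kc4q2_9.enc h1 h2)))))))) (enc_case (enc_subr 167 1000 (kc4q2_9.enc h1 h2)) (enc_add (kc4q2_40.enc h1 h2) (enc_mul (enc_norm (kc4q2_3.enc h1 h2)) (enc_norm (enc_sub (enc_rat _ 8939 200) (enc_scale 25475 167 (kc4q2_9.enc h1 h2)))))) (enc_case (enc_subr 333 1000 (kc4q2_9.enc h1 h2)) (enc_add (enc_subr 449293 332000 (kc4q2_27.enc h1 h2)) (enc_mul (enc_norm (kc4q2_3.enc h1 h2)) (enc_norm (enc_sub (enc_rat _ 7419461 166000) (kc4q2_31.enc h1 h2))))) (enc_add (enc_subr 6613 1670 (enc_scale 6613 835 (kc4q2_9.enc h1 h2))) (enc_mul (enc_norm (kc4q2_3.enc h1 h2)) (enc_norm (enc_subr 6103 334 (enc_scale 6103 167 (kc4q2_9.enc h1 h2))))))))))⟩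
noncomputable def kfc43 : Fn2 := ⟨_, _, fun h1 h2 => (enc_norm (enc_sub (enc_mul (enc_norm (enc_subn 2 (ycg.enc h1))) (kcg.enc (enc_norm (enc_sub (enc_scale 1 4 (ycg.enc h1)) (enc_half h1))) h2)) (enc_mul (enc_norm (enc_mul (enc_norm (enc_sub (enc_nat 2 h1) (ycg.enc h1))) (enc_norm (enc_sub (enc_add h1 (enc_pnc _ 3)) (enc_scale 3 2 (ycg.enc h1)))))) (enc_inv (enc_nat 4 (enc_subn 1 (ycg.enc h1)))))))⟩
noncomputable def lc43_7 : Fn2 := ⟨_, _, fun h1 h2 => (enc_half h1)⟩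
noncomputable def lc43_8 : Fn2 := ⟨_, _, fun h1 h2 => (enc_scale 1 4 (ycg.enc h1))⟩
noncomputable def lc43_9 : Fn2 := ⟨_, _, fun h1 h2 => (enc_sub (lc43_7.enc h1 h2) (lc43_8.enc h1 h2))⟩
noncomputable def lc43_12 : Fn2 := ⟨_, _, fun h1 h2 => (enc_add (enc_scale 1 4 h1) (enc_scale 3 8 (ycg.enc h1)))⟩
noncomputable def lc43_14 : Fn2 := ⟨_, _, fun h1 h2 => (enc_half (lc43_9.enc h1 h2))⟩
noncomputable def lc43 : Fn2 := ⟨_, _, fun h1 h2 => (enc_norm (enc_sub (enc_nat 2 (txg.enc (enc_norm (enc_sub (lc43_8.enc h1 h2) (lc43_7.enc h1 h2))) (enc_norm (enc_add (lc43_12.enc h1 h2) (lc43_14.enc h1 h2))) h2)) (txg.enc (enc_norm (lc43_9.enc h1 h2)) (enc_norm (enc_sub (lc43_12.enc h1 h2) (lc43_14.enc h1 h2))) h2)))⟩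
noncomputable def kcc43_4 : Fn2 := ⟨_, _, fun h1 h2 => (enc_subr 22 25 h2)⟩
noncomputable def kcc43_9 : Fn2 := ⟨_, _, fun h1 h2 => (enc_sub (enc_half h1) (enc_scale 1 4 (ycg.enc h1)))⟩
noncomputable def kcc43_27 : Fn2 := ⟨_, _, fun h1 h2 => (enc_scale 153 1660 (kcc43_9.enc h1 h2))⟩
noncomputable def kcc43_31 : Fn2 := ⟨_, _, fun h1 h2 => (enc_scale 25323 166 (kcc43_9.enc h1 h2))⟩
noncomputable def kcc43_40 : Fn2 := ⟨_, _, fun h1 h2 => (enc_subr 13533 10000 (enc_scale 77 835 (kcc43_9.enc h1 h2)))⟩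
noncomputable def kcc43 : Fn2 := ⟨_, _, fun h1 h2 => (enc_norm (enc_case (kcc43_9.enc h1 h2) (enc_case (enc_add (kcc43_9.enc h1 h2) (enc_rat _ 333 1000)) (enc_add (enc_subr 692 167 (enc_neg (enc_scale 1384 167 (kcc43_9.enc h1 h2)))) (enc_mul (enc_norm (kcc43_4.enc h1 h2)) (enc_norm (enc_add (enc_scale 95494 167 (kcc43_9.enc h1 h2)) (enc_rat _ 47747 167))))) (enc_case (enc_add (kcc43_9.enc h1 h2) (enc_rat _ 167 1000)) (enc_add (enc_subr 2246491 1660000 (kcc43_27.enc h1 h2)) (enc_mul (enc_norm (kcc43_4.enc h1 h2)) (enc_norm (enc_sub (enc_rat _ 1483889 33200) (kcc43_31.enc h1 h2))))) (enc_add (kcc43_40.enc h1 h2) (enc_mul (enc_norm (kcc43_4.enc h1 h2)) (enc_norm (enc_sub (enc_rat _ 8939 200) (enc_scale 25476 167 (kcc43_9.enc h1 h2)))))))) (enc_case (enc_subr 167 1000 (kcc43_9.enc h1 h2)) (enc_add (kcc43_40.enc h1 h2) (enc_mul (enc_norm (kcc43_4.enc h1 h2)) (enc_norm (enc_sub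 (enc_rat _ 8939 200) (enc_scale 25475 167 (kcc43_9.enc h1 h2)))))) (enc_case (enc_subr 333 1000 (kcc43_9.enc h1 h2)) (enc_add (enc_subr 449293 332000 (kcc43_27.enc h1 h2)) (enc_mul (enc_norm (kcc43_4.enc h1 h2)) (enc_norm (enc_sub (enc_rat _ 7419461 166000) (kcc43_31.enc h1 h2))))) (enc_add (enc_subr 6613 1670 (enc_scale 6613 835 (kcc43_9.enc h1 h2))) (enc_mul (enc_norm (kcc43_4.enc h1 h2)) (enc_norm (enc_subr 6103 334 (enc_scale 6103 167 (kcc43_9.enc h1 h2))))))))))⟩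
noncomputable def lm3m : Fn2 := ⟨_, _, fun h1 h2 => (enc_lam (enc_norm (enc_sub h1 (cv3m.enc h2))) (enc_sub (c3g.enc h2) (cv3m.enc h2)))⟩
noncomputable def lm2m : Fn2 := ⟨_, _, fun h1 h2 => (enc_lam (enc_norm (enc_sub h1 (cv2m.enc h2))) (enc_sub (cv3m.enc h2) (cv2m.enc h2)))⟩
noncomputable def bf2q0_3 : Fn2 := ⟨_, _, fun h1 h2 => (enc_subr 22 25 h2)⟩
noncomputable def bf2q0 : Fn2 := ⟨_, _, fun h1 h2 => (enc_norm (enc_case (enc_subr 3 25 h1) (enc_case (enc_subr 1 16 h1) (enc_add (enc_sub (enc_rat _ 2743 3125) (enc_scale 24279 6250 h1)) (enc_mul (enc_norm (bf2q0_3.enc h1 h2)) (enc_norm (enc_subr 5269 10000 (enc_neg (enc_scale 1036 625 h1)))))) (enc_add (enc_sub (enc_rat _ 1228891523 1400000000) (enc_scale 339933523 87500000 h1)) (enc_mul (enc_norm (bf2q0_3.enc h1 h2)) (enc_norm (enc_subr 36886413 70000000 (enc_neg (enc_scale 7248587 4375000 h1))))))) (enc_add (enc_sub (enc_rat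 _ 831108719 850000000) (enc_scale 1432432719 425000000 h1)) (enc_mul (enc_norm (bf2q0_3.enc h1 h2)) (enc_norm (enc_sub (enc_rat _ 57561341 170000000) (enc_scale 434621341 85000000 h1)))))))⟩
noncomputable def lm1m : Fn2 := ⟨_, _, fun h1 h2 => (enc_lam (enc_norm (enc_sub h1 (cv1m.enc h2))) (enc_sub (cv2m.enc h2) (cv1m.enc h2)))⟩
noncomputable def lm0m : Fn2 := ⟨_, _, fun h1 h2 => (enc_lam (enc_norm (enc_sub h1 (c1g.enc h2))) (enc_sub (cv1m.enc h2) (c1g.enc h2)))⟩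
noncomputable def rkbq0_35 : Fn3 := ⟨_, _, fun h1 h2 h3 => (enc_add (enc_mul h1 (bf2q0.enc h2 h3)) (enc_mul (enc_norm (enc_mul (enc_norm (enc_sub (enc_pnc _ 1) (lm1m.enc h1 h2))) (cv1m.enc h2))) (enc_norm (enc_sub (bf1q0.enc h2 h3) (bf2q0.enc h2 h3)))))⟩
noncomputable def rkbq0_37 : Fn3 := ⟨_, _, fun h1 h2 h3 => (enc_sub (enc_pnc _ 1) h2)⟩
noncomputable def rkbq0_38 : Fn3 := ⟨_, _, fun h1 h2 h3 => (gsg.enc (enc_norm (rkbq0_37.enc h1 h2 h3)))⟩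
noncomputable def rkbq0_41 : Fn3 := ⟨_, _, fun h1 h2 h3 => (enc_sub (enc_scale 3 4 (rkbq0_37.enc h1 h2 h3)) (enc_half (rkbq0_38.enc h1 h2 h3)))⟩
noncomputable def rkbq0_61 : Fn3 := ⟨_, _, fun h1 h2 h3 => (enc_sub h1 (cv1m.enc h2))⟩
noncomputable def rkbq0 : Fn3 := ⟨_, _, fun h1 h2 h3 => (enc_case (rkbq0_61.enc h1 h2 h3) (enc_add (enc_mul h1 (bf1q0.enc h2 h3)) (enc_mul (enc_norm (enc_sub (enc_pnc _ 1) (lm0m.enc h1 h2))) (enc_norm (enc_sub (kf0q0.enc h2 h3) (enc_mul (c1g.enc h2) (bf1q0.enc h2 h3)))))) (enc_case (enc_sub h1 (cv2m.enc h2)) (enc_case (enc_subr 2 25 h2) (rkbq0_35.enc h1 h2 h3) (enc_case (enc_subr 4 25 h2) (enc_add (kf1q0.enc h2 h3) (enc_mul (enc_norm (enc_mul (enc_norm (rkbq0_61.enc h1 h2 h3)) (enc_inv (enc_sub (enc_add (swg.enc h2) (enc_rat _ 1 2)) (cv1m.enc h2))))) (enc_norm (enc_sub (enc_mul h2 (enc_norm (enc_sub (enc_mul (enc_norm (enc_sub (rkbq0_41.enc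 h1 h2 h3) (enc_sub (enc_rat _ 1 4) (enc_scale 3 8 (enc_mul (enc_norm (rkbq0_37.enc h1 h2 h3)) (enc_inv (rkbq0_38.enc h1 h2 h3))))))) (enc_inv (esg.enc (enc_norm (rkbq0_37.enc h1 h2 h3))))) (kcg.enc (enc_norm (rkbq0_41.enc h1 h2 h3)) h3)))) (kf1q0.enc h2 h3))))) (rkbq0_35.enc h1 h2 h3))) (enc_case (enc_sub h1 (cv3m.enc h2)) (enc_add (enc_mul h1 (bf3q0.enc h2 h3)) (enc_mul (enc_norm (enc_sub (enc_pnc _ 1) (lm2m.enc h1 h2))) (enc_norm (enc_sub (kf2q0.enc h2 h3) (enc_mul (cv2m.enc h2) (bf3q0.enc h2 h3)))))) (enc_add (kf3q0.enc h2 h3) (enc_mul (lm3m.enc h1 h2) (enc_norm (enc_sub (kf4q0.enc h2 h3) (kf3q0.enc h2 h3))))))))⟩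
noncomputable def rsbq0 : Fn3 := ⟨_, _, fun h1 h2 h3 => (enc_case h1 (enc_neg (rkbq0.enc (enc_neg h1) h2 h3)) (rkbq0.enc h1 h2 h3))⟩
noncomputable def rkbq1 : Fn3 := ⟨_, _, fun h1 h2 h3 => (enc_case (enc_sub h1 (cv1m.enc h2)) (enc_add (enc_mul h1 (bf1q1.enc h2 h3)) (enc_mul (enc_norm (enc_sub (enc_pnc _ 1) (lm0m.enc h1 h2))) (enc_norm (enc_sub (kf0q1.enc h2 h3) (enc_mul (c1g.enc h2) (bf1q1.enc h2 h3)))))) (enc_case (enc_sub h1 (cv2m.enc h2)) (enc_add (enc_mul h1 (bf2q1.enc h2 h3)) (enc_mul (enc_norm (enc_mul (enc_norm (enc_sub (enc_pnc _ 1) (lm1m.enc h1 h2))) (cv1m.enc h2))) (enc_norm (enc_sub (bf1q1.enc h2 h3) (bf2q1.enc h2 h3))))) (enc_case (enc_sub h1 (cv3m.enc h2)) (enc_add (enc_mul h1 (bf3q1.enc h2 h3)) (enc_mul (enc_norm (enc_mul (enc_norm (enc_sub (enc_pnc _ 1) (lm2m.enc h1 h2))) (cv2m.enc h2))) (enc_norm (enc_sub (bf2q1.enc h2 h3) (bf3q1.enc h2 h3))))) (enc_add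 (kf3q1.enc h2 h3) (enc_mul (lm3m.enc h1 h2) (enc_norm (enc_sub (kf4q1.enc h2 h3) (kf3q1.enc h2 h3))))))))⟩
noncomputable def rsbq1 : Fn3 := ⟨_, _, fun h1 h2 h3 => (enc_case h1 (enc_neg (rkbq1.enc (enc_neg h1) h2 h3)) (rkbq1.enc h1 h2 h3))⟩
noncomputable def cv1p : Fn1 := ⟨_, _, fun h1 => (enc_norm (enc_add (enc_scale 3 5 (c1g.enc h1)) (enc_scale 2 5 (enc_subr 1 2 (swg.enc h1)))))⟩
noncomputable def lm3p : Fn2 := ⟨_, _, fun h1 h2 => (enc_lam (enc_norm (enc_sub h1 (cv3p.enc h2))) (enc_sub (c3g.enc h2) (cv3p.enc h2)))⟩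
noncomputable def lm2p : Fn2 := ⟨_, _, fun h1 h2 => (enc_lam (enc_norm (enc_sub h1 (cv2p.enc h2))) (enc_sub (cv3p.enc h2) (cv2p.enc h2)))⟩
noncomputable def lm1p : Fn2 := ⟨_, _, fun h1 h2 => (enc_lam (enc_norm (enc_sub h1 (cv1p.enc h2))) (enc_sub (cv2p.enc h2) (cv1p.enc h2)))⟩
noncomputable def kf0q2 : Fn2 := ⟨_, _, fun h1 h2 => (enc_norm (enc_add (c1g.enc h1) (enc_mul (enc_norm (enc_subn 1 h1)) (kcg.enc (enc_neg (c1g.enc h1)) h2))))⟩
noncomputable def lm0p : Fn2 := ⟨_, _, fun h1 h2 => (enc_lam (enc_norm (enc_sub h1 (c1g.enc h2))) (enc_sub (cv1p.enc h2) (c1g.enc h2)))⟩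
noncomputable def n0b : Fn2 := ⟨_, _, fun h1 h2 => (enc_norm (enc_sub (enc_pnc _ 1) (enc_mul (enc_norm (enc_subn 1 h1)) (enc_norm (enc_add (enc_scale 99351 10000 (enc_subr 22 25 h2)) (enc_rat _ 5773 2000))))))⟩
noncomputable def rkbq2_40 : Fn3 := ⟨_, _, fun h1 h2 h3 => (enc_mul h1 (bf1q2.enc h2 h3))⟩
noncomputable def rkbq2_42 : Fn3 := ⟨_, _, fun h1 h2 h3 => (enc_sub (enc_pnc _ 1) (lm0p.enc h1 h2))⟩
noncomputable def rkbq2 : Fn3 := ⟨_, _, fun h1 h2 h3 => (enc_case (enc_sub h1 (cv1p.enc h2)) (enc_case (enc_subr 1151 1000 h2) (enc_add (rkbq2_40.enc h1 h2 h3) (enc_mul (enc_norm (rkbq2_42.enc h1 h2 h3)) (enc_norm (enc_sub (kf0q2.enc h2 h3) (enc_mul (c1g.enc h2) (bf1q2.enc h2 h3)))))) (enc_case (enc_subr 2887 2500 h2) (enc_add (rkbq2_40.enc h1 h2 h3) (enc_mul (enc_norm (rkbq2_42.enc h1 h2 h3)) (enc_norm (enc_mul (c1g.enc h2) (enc_norm (enc_sub (n0b.enc h2 h3) (bf1q2.enc h2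 h3))))))) (rkbq2_40.enc h1 h2 h3))) (enc_case (enc_sub h1 (cv2p.enc h2)) (enc_add (enc_mul h1 (bf2q2.enc h2 h3)) (enc_mul (enc_norm (enc_mul (enc_norm (enc_sub (enc_pnc _ 1) (lm1p.enc h1 h2))) (cv1p.enc h2))) (enc_norm (enc_sub (bf1q2.enc h2 h3) (bf2q2.enc h2 h3))))) (enc_case (enc_sub h1 (cv3p.enc h2)) (enc_add (enc_mul h1 (bf3q2.enc h2 h3)) (enc_mul (enc_norm (enc_mul (enc_norm (enc_sub (enc_pnc _ 1) (lm2p.enc h1 h2))) (cv2p.enc h2))) (enc_norm (enc_sub (bf2q2.enc h2 h3) (bf3q2.enc h2 h3))))) (enc_add (kf3q2.enc h2 h3) (enc_mul (lm3p.enc h1 h2) (enc_norm (enc_sub (kf4q2.enc h2 h3) (kf3q2.enc h2 h3))))))))⟩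
noncomputable def rsbq2 : Fn3 := ⟨_, _, fun h1 h2 h3 => (enc_case h1 (enc_neg (rkbq2.enc (enc_neg h1) h2 h3)) (rkbq2.enc h1 h2 h3))⟩
noncomputable def cv2r : Fn1 := ⟨_, _, fun h1 => (enc_norm (enc_add (enc_scale 87 100 (enc_subr 1 2 (swg.enc h1))) (enc_scale 13 100 (c3g.enc h1))))⟩
noncomputable def cv3r : Fn1 := ⟨_, _, fun h1 => (enc_norm (enc_add (enc_half (enc_subr 1 2 (swg.enc h1))) (enc_half (c3g.enc h1))))⟩
noncomputable def kf3q3_4 : Fn2 := ⟨_, _, fun h1 h2 => (enc_subr 22 25 h2)⟩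
noncomputable def kf3q3 : Fn2 := ⟨_, _, fun h1 h2 => (enc_norm (enc_mul (cv3r.enc h1) (enc_norm (enc_case (enc_subr 46 25 h1) (enc_add (enc_subr 243539 850000 (enc_scale 8759 34000 h1)) (enc_mul (enc_norm (kf3q3_4.enc h1 h2)) (enc_norm (enc_sub (enc_rat _ 16703989 170000) (enc_scale 176527 3400 h1))))) (enc_case (enc_subr 48 25 h1) (enc_add (enc_subr 28653 100000 (enc_scale 2061 8000 h1)) (enc_mul (enc_norm (kf3q3_4.enc h1 h2)) (enc_norm (enc_sub (enc_rat _ 982593 10000) (enc_scale 1298 25 h1))))) (enc_sub (enc_sub (enc_rat _ 1 2) (enc_scale 145945000 242487113 (c3g.enc h1))) (enc_mul (enc_norm (kf3q3_4.enc h1 h2)) (enc_scale 713550000 242487113 (c3g.enc h1)))))))))⟩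
noncomputable def kf4q3 : Fn2 := ⟨_, _, fun h1 h2 => (enc_norm (enc_sub (enc_mul (enc_norm (enc_subn 2 h1)) (kcg.enc (enc_norm (enc_sub (enc_scale 1 4 h1) (enc_half (c3g.enc h1)))) h2)) (enc_mul (enc_norm (enc_mul (enc_norm (enc_sub (enc_nat 2 (c3g.enc h1)) h1)) (enc_norm (enc_sub (enc_add (c3g.enc h1) (enc_pnc _ 3)) (enc_scale 3 2 h1))))) (enc_inv (enc_nat 4 (enc_subn 1 h1))))))⟩
noncomputable def lm3r : Fn2 := ⟨_, _, fun h1 h2 => (enc_lam (enc_norm (enc_sub h1 (cv3r.enc h2))) (enc_sub (c3g.enc h2) (cv3r.enc h2)))⟩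
noncomputable def bf3q3_3 : Fn2 := ⟨_, _, fun h1 h2 => (enc_subr 22 25 h2)⟩
noncomputable def bf3q3 : Fn2 := ⟨_, _, fun h1 h2 => (enc_norm (enc_case (enc_subr 46 25 h1) (enc_add (enc_subr 243539 850000 (enc_scale 8759 34000 h1)) (enc_mul (enc_norm (bf3q3_3.enc h1 h2)) (enc_norm (enc_sub (enc_rat _ 16703989 170000) (enc_scale 176527 3400 h1))))) (enc_case (enc_subr 48 25 h1) (enc_add (enc_subr 28653 100000 (enc_scale 2061 8000 h1)) (enc_mul (enc_norm (bf3q3_3.enc h1 h2)) (enc_norm (enc_sub (enc_rat _ 982593 10000) (enc_scale 1298 25 h1))))) (enc_sub (enc_sub (enc_rat _ 1 2) (enc_scale 145945000 242487113 (c3g.enc h1))) (enc_mul (enc_norm (bf3q3_3.enc h1 h2)) (enc_scale 713550000 242487113 (c3g.enc h1)))))))⟩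
noncomputable def lm2r : Fn2 := ⟨_, _, fun h1 h2 => (enc_lam (enc_norm (enc_sub h1 (cv2r.enc h2))) (enc_sub (cv3r.enc h2) (cv2r.enc h2)))⟩
noncomputable def kf2q3_4 : Fn2 := ⟨_, _, fun h1 h2 => (enc_subr 22 25 h2)⟩
noncomputable def kf2q3_40 : Fn2 := ⟨_, _, fun h1 h2 => (enc_subn 1 h1)⟩
noncomputable def kf2q3_41 : Fn2 := ⟨_, _, fun h1 h2 => (gsg.enc (enc_norm (kf2q3_40.enc h1 h2)))⟩
noncomputable def kf2q3_42 : Fn2 := ⟨_, _, fun h1 h2 => (enc_scale 3 4 (kf2q3_40.enc h1 h2))⟩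
noncomputable def kf2q3_43 : Fn2 := ⟨_, _, fun h1 h2 => (enc_half (kf2q3_41.enc h1 h2))⟩
noncomputable def kf2q3_62 : Fn2 := ⟨_, _, fun h1 h2 => (enc_subr 46 25 h1)⟩
noncomputable def kf2q3_74 : Fn2 := ⟨_, _, fun h1 h2 => (enc_subr 48 25 h1)⟩
noncomputable def kf2q3_97 : Fn2 := ⟨_, _, fun h1 h2 => (enc_mul (cv1r.enc h1) (enc_norm (enc_case (kf2q3_62.enc h1 h2) (enc_add (enc_subr 13798471 1700000 (enc_scale 143987 34000 h1)) (enc_mul (enc_norm (kf2q3_4.enc h1 h2)) (enc_norm (enc_sub (enc_rat _ 445803 4250) (enc_scale 215631 3400 h1))))) (enc_case (kf2q3_74.enc h1 h2) (enc_add (enc_subr 202917 25000 (enc_scale 33879 8000 h1)) (enc_mul (enc_norm (kf2q3_4.enc h1 h2)) (enc_norm (enc_sub (enc_rat _ 262233 2500) (enc_scale 3171 50 h1))))) (enc_add (enc_subr 16623 25000 (enc_scale 339600000 242487113 (c3g.enc h1))) (enc_mul (enc_norm (kf2q3_4.enc h1 h2)) (enc_norm (enc_sub (enc_rat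 _ 19661 10000) (enc_scale 9419650000 242487113 (c3g.enc h1))))))))))⟩
noncomputable def kf2q3 : Fn2 := ⟨_, _, fun h1 h2 => (enc_norm (enc_case (kf2q3_62.enc h1 h2) (enc_mul (cv2r.enc h1) (enc_norm (enc_add (enc_subr 260752417 400000000 (enc_scale 75524139 200000000 h1)) (enc_mul (enc_norm (kf2q3_4.enc h1 h2)) (enc_norm (enc_subr 16445686093 340000000 (enc_scale 4557118031 170000000 h1))))))) (enc_case (kf2q3_74.enc h1 h2) (enc_add (kf2q3_97.enc h1 h2) (enc_mul (enc_norm (enc_mul (enc_norm (enc_sub (enc_mul (enc_norm (enc_subn 2 h1)) (enc_norm (enc_add (enc_mul (enc_norm (enc_sub (enc_sub (kf2q3_43.enc h1 h2) (kf2q3_42.enc h1 h2)) (enc_sub (enc_rat _ 1 4) (enc_scale 3 8 (enc_mul (enc_norm (kf2q3_40.enc h1 h2)) (enc_inv (kf2q3_41.enc h1 h2))))))) (enc_inv (esg.enc (enc_norm (kf2q3_40.enc h1 h2))))) (kcg.enc (enc_norm (enc_sub (kf2q3_42.enc h1 h2) (kf2q3_43.enc h1 h2)))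 h2)))) (kf2q3_97.enc h1 h2))) (enc_norm (enc_sub (cv2r.enc h1) (cv1r.enc h1))))) (enc_inv (enc_sub (enc_subr 1 2 (swg.enc h1)) (cv1r.enc h1))))) (enc_mul (cv2r.enc h1) (enc_norm (enc_case (enc_sub (enc_rat _ 429616471 1000000000) (c3g.enc h1)) (enc_add (enc_subr 1201566083845830193 553577550000000000 (enc_scale 2411896183 553577550 (c3g.enc h1))) (enc_mul (enc_norm (kf2q3_4.enc h1 h2)) (enc_norm (enc_subr 339689009305713263 55357755000000000 (enc_scale 900669353 55357755 (c3g.enc h1)))))) (enc_add (enc_sub (enc_rat _ 1 2) (enc_scale 798740000 429616471 (c3g.enc h1))) (enc_mul (enc_norm (kf2q3_4.enc h1 h2)) (enc_scale 853600000 429616471 (c3g.enc h1))))))))))⟩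
noncomputable def bf2q3_3 : Fn2 := ⟨_, _, fun h1 h2 => (enc_subr 22 25 h2)⟩
noncomputable def bf2q3 : Fn2 := ⟨_, _, fun h1 h2 => (enc_norm (enc_case (enc_subr 47 25 h1) (enc_add (enc_subr 260752417 400000000 (enc_scale 75524139 200000000 h1)) (enc_mul (enc_norm (bf2q3_3.enc h1 h2)) (enc_norm (enc_subr 16445686093 340000000 (enc_scale 4557118031 170000000 h1))))) (enc_case (enc_sub (enc_rat _ 429616471 1000000000) (c3g.enc h1)) (enc_add (enc_subr 1201566083845830193 553577550000000000 (enc_scale 2411896183 553577550 (c3g.enc h1))) (enc_mul (enc_norm (bf2q3_3.enc h1 h2)) (enc_norm (enc_subr 339689009305713263 55357755000000000 (enc_scale 900669353 55357755 (c3g.enc h1)))))) (enc_add (enc_sub (enc_rat _ 1 2) (enc_scale 798740000 429616471 (c3g.enc h1))) (enc_mul (enc_norm (bf2q3_3.enc h1 h2)) (enc_scale 853600000 429616471 (c3g.enc h1)))))))⟩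
noncomputable def lm1r : Fn2 := ⟨_, _, fun h1 h2 => (enc_lam (enc_norm (enc_sub h1 (cv1r.enc h2))) (enc_sub (cv2r.enc h2) (cv1r.enc h2)))⟩
noncomputable def bf1q3_3 : Fn2 := ⟨_, _, fun h1 h2 => (enc_subr 22 25 h2)⟩
noncomputable def bf1q3 : Fn2 := ⟨_, _, fun h1 h2 => (enc_norm (enc_case (enc_subr 46 25 h1) (enc_add (enc_subr 13798471 1700000 (enc_scale 143987 34000 h1)) (enc_mul (enc_norm (bf1q3_3.enc h1 h2)) (enc_norm (enc_sub (enc_rat _ 445803 4250) (enc_scale 215631 3400 h1))))) (enc_case (enc_subr 48 25 h1) (enc_add (enc_subr 202917 25000 (enc_scale 33879 8000 h1)) (enc_mul (enc_norm (bf1q3_3.enc h1 h2)) (enc_norm (enc_sub (enc_rat _ 262233 2500) (enc_scale 3171 50 h1))))) (enc_add (enc_subr 16623 25000 (enc_scale 339600000 242487113 (c3g.enc h1))) (enc_mul (enc_norm (bf1q3_3.enc h1 h2)) (enc_norm (enc_sub (enc_rat _ 19661 10000) (enc_scale 9419650000 242487113 (c3g.enc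 h1)))))))))⟩
noncomputable def rkbq3_35 : Fn3 := ⟨_, _, fun h1 h2 h3 => (enc_add (enc_mul h1 (bf2q3.enc h2 h3)) (enc_mul (enc_norm (enc_mul (enc_norm (enc_sub (enc_pnc _ 1) (lm1r.enc h1 h2))) (cv1r.enc h2))) (enc_norm (enc_sub (bf1q3.enc h2 h3) (bf2q3.enc h2 h3)))))⟩
noncomputable def rkbq3_36 : Fn3 := ⟨_, _, fun h1 h2 h3 => (enc_subn 1 h2)⟩
noncomputable def rkbq3_37 : Fn3 := ⟨_, _, fun h1 h2 h3 => (gsg.enc (enc_norm (rkbq3_36.enc h1 h2 h3)))⟩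
noncomputable def rkbq3_38 : Fn3 := ⟨_, _, fun h1 h2 h3 => (enc_scale 3 4 (rkbq3_36.enc h1 h2 h3))⟩
noncomputable def rkbq3_39 : Fn3 := ⟨_, _, fun h1 h2 h3 => (enc_half (rkbq3_37.enc h1 h2 h3))⟩
noncomputable def rkbq3_61 : Fn3 := ⟨_, _, fun h1 h2 h3 => (enc_sub h1 (cv1r.enc h2))⟩
noncomputable def rkbq3 : Fn3 := ⟨_, _, fun h1 h2 h3 => (enc_case (rkbq3_61.enc h1 h2 h3) (enc_mul h1 (bf1q3.enc h2 h3)) (enc_case (enc_sub h1 (cv2r.enc h2)) (enc_case (enc_subr 46 25 h2) (rkbq3_35.enc h1 h2 h3) (enc_case (enc_subr 48 25 h2) (enc_add (kf1q3.enc h2 h3) (enc_mul (enc_norm (enc_mul (enc_norm (rkbq3_61.enc h1 h2 h3)) (enc_inv (enc_sub (enc_subr 1 2 (swg.enc h2)) (cv1r.enc h2))))) (enc_norm (enc_sub (enc_mul (enc_norm (enc_subn 2 h2)) (enc_norm (enc_add (enc_mul (enc_norm (enc_sub (enc_sub (rkbq3_39.enc h1 h2 h3) (rkbq3_38.enc h1 h2 h3)) (enc_sub (enc_rat _ 1 4) (enc_scale 3 8 (enc_mul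 (enc_norm (rkbq3_36.enc h1 h2 h3)) (enc_inv (rkbq3_37.enc h1 h2 h3))))))) (enc_inv (esg.enc (enc_norm (rkbq3_36.enc h1 h2 h3))))) (kcg.enc (enc_norm (enc_sub (rkbq3_38.enc h1 h2 h3) (rkbq3_39.enc h1 h2 h3))) h3)))) (kf1q3.enc h2 h3))))) (rkbq3_35.enc h1 h2 h3))) (enc_case (enc_sub h1 (cv3r.enc h2)) (enc_add (enc_mul h1 (bf3q3.enc h2 h3)) (enc_mul (enc_norm (enc_sub (enc_pnc _ 1) (lm2r.enc h1 h2))) (enc_norm (enc_sub (kf2q3.enc h2 h3) (enc_mul (cv2r.enc h2) (bf3q3.enc h2 h3)))))) (enc_add (kf3q3.enc h2 h3) (enc_mul (lm3r.enc h1 h2) (enc_norm (enc_sub (kf4q3.enc h2 h3) (kf3q3.enc h2 h3))))))))⟩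
noncomputable def rsbq3 : Fn3 := ⟨_, _, fun h1 h2 h3 => (enc_case h1 (enc_neg (rkbq3.enc (enc_neg h1) h2 h3)) (rkbq3.enc h1 h2 h3))⟩
noncomputable def bx2q0_3 : Fn2 := ⟨_, _, fun h1 h2 => (enc_subr 22 25 h2)⟩
noncomputable def bx2q0_28 : Fn2 := ⟨_, _, fun h1 h2 => (enc_sq (enc_norm (bx2q0_3.enc h1 h2)))⟩
noncomputable def bx2q0 : Fn2 := ⟨_, _, fun h1 h2 => (enc_norm (enc_case (enc_subr 3 25 h1) (enc_case (enc_subr 1 16 h1) (enc_add (enc_add (enc_scale 1639 3125 h1) (enc_rat _ 157 2500)) (enc_mul (enc_norm (bx2q0_3.enc h1 h2)) (enc_norm (enc_subr 573 10000 (enc_scale 2421 625 h1))))) (enc_add (enc_add (enc_add (enc_scale 67209721 175000000 h1) (enc_rat _ 200414279 2800000000)) (enc_mul (enc_norm (bx2q0_3.enc h1 h2)) (enc_norm (enc_sub (enc_rat _ 5157249 17500000) (enc_scale 1923249 1093750 h1))))) (enc_mul (bx2q0_28.enc h1 h2) (enc_norm (enc_subr 493459 280000 (enc_scale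 493459 17500 h1)))))) (enc_case (enc_subr 11 50 h1) (enc_add (enc_add (enc_sub (enc_rat _ 4293661537 30000000000) (enc_scale 85832867 600000000 h1)) (enc_mul (enc_norm (bx2q0_3.enc h1 h2)) (enc_norm (enc_sub (enc_rat _ 82288203 125000000) (enc_scale 8190973 2500000 h1))))) (enc_mul (bx2q0_28.enc h1 h2) (enc_norm (enc_sub (enc_rat _ 3126761 3000000) (enc_scale 284251 60000 h1))))) (enc_add (enc_sub (enc_rat _ 100199 700000) (enc_scale 501 3500 h1)) (enc_mul (enc_norm (bx2q0_3.enc h1 h2)) (enc_norm (enc_subr 801 10000 (enc_scale 2 25 h1))))))))⟩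
noncomputable def rxq0_35 : Fn3 := ⟨_, _, fun h1 h2 h3 => (enc_add (enc_mul h1 (bx2q0.enc h2 h3)) (enc_mul (enc_norm (enc_mul (enc_norm (enc_sub (enc_pnc _ 1) (lm1m.enc h1 h2))) (cv1m.enc h2))) (enc_norm (enc_sub (bx1q0.enc h2 h3) (bx2q0.enc h2 h3)))))⟩
noncomputable def rxq0_37 : Fn3 := ⟨_, _, fun h1 h2 h3 => (enc_sub (enc_pnc _ 1) h2)⟩
noncomputable def rxq0_54 : Fn3 := ⟨_, _, fun h1 h2 h3 => (enc_sub h1 (cv1m.enc h2))⟩
noncomputable def rxq0 : Fn3 := ⟨_, _, fun h1 h2 h3 => (enc_case (rxq0_54.enc h1 h2 h3) (enc_add (enc_mul h1 (bx1q0.enc h2 h3)) (enc_mul (enc_norm (enc_sub (enc_pnc _ 1) (lm0m.enc h1 h2))) (enc_norm (enc_sub (l0q0.enc h2 h3) (enc_mul (c1g.enc h2) (bx1q0.enc h2 h3)))))) (enc_case (enc_sub h1 (cv2m.enc h2)) (enc_case (enc_subr 2 25 h2) (rxq0_35.enc h1 h2 h3) (enc_case (enc_subr 4 25 h2) (enc_add (l1q0.enc h2 h3) (enc_mul (enc_norm (enc_mul (enc_norm (rxq0_54.enc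 h1 h2 h3)) (enc_inv (enc_sub (enc_add (swg.enc h2) (enc_rat _ 1 2)) (cv1m.enc h2))))) (enc_norm (enc_sub (enc_sub (qsg.enc (enc_norm (rxq0_37.enc h1 h2 h3))) (enc_mul (enc_norm (enc_nat 2 (enc_sub (rxq0_37.enc h1 h2 h3) h3))) (enc_norm (enc_mul (esg.enc (enc_norm (rxq0_37.enc h1 h2 h3))) (kcg.enc (enc_norm (enc_sub (enc_scale 3 4 (rxq0_37.enc h1 h2 h3)) (enc_half (gsg.enc (enc_norm (rxq0_37.enc h1 h2 h3)))))) h3))))) (l1q0.enc h2 h3))))) (rxq0_35.enc h1 h2 h3))) (enc_case (enc_sub h1 (cv3m.enc h2)) (enc_add (enc_mul h1 (bx3q0.enc h2 h3)) (enc_mul (enc_norm (enc_sub (enc_pnc _ 1) (lm2m.enc h1 h2))) (enc_norm (enc_sub (l2q0.enc h2 h3) (enc_mul (cv2m.enc h2) (bx3q0.enc h2 h3)))))) (enc_add (l3q0.enc h2 h3) (enc_mul (lm3m.enc h1 h2) (enc_norm (enc_sub (l4q0.enc h2 h3) (l3q0.enc h2 h3))))))))⟩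
noncomputable def rlq0 : Fn3 := ⟨_, _, fun h1 h2 h3 => (enc_case h1 (enc_neg (rxq0.enc (enc_neg h1) h2 h3)) (rxq0.enc h1 h2 h3))⟩
noncomputable def rxq1 : Fn3 := ⟨_, _, fun h1 h2 h3 => (enc_case (enc_sub h1 (cv1m.enc h2)) (enc_add (enc_mul h1 (bx1q1.enc h2 h3)) (enc_mul (enc_norm (enc_sub (enc_pnc _ 1) (lm0m.enc h1 h2))) (enc_norm (enc_sub (l0q1.enc h2 h3) (enc_mul (c1g.enc h2) (bx1q1.enc h2 h3)))))) (enc_case (enc_sub h1 (cv2m.enc h2)) (enc_add (enc_mul h1 (bx2q1.enc h2 h3)) (enc_mul (enc_norm (enc_mul (enc_norm (enc_sub (enc_pnc _ 1) (lm1m.enc h1 h2))) (cv1m.enc h2))) (enc_norm (enc_sub (bx1q1.enc h2 h3) (bx2q1.enc h2 h3))))) (enc_case (enc_sub h1 (cv3m.enc h2)) (enc_add (enc_mul h1 (bx3q1.enc h2 h3)) (enc_mul (enc_norm (enc_mul (enc_norm (enc_sub (enc_pnc _ 1) (lm2m.enc h1 h2))) (cv2m.enc h2))) (enc_norm (enc_sub (bx2q1.enc h2 h3) (bx3q1.enc h2 h3))))) (enc_add (l3q1.enc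 h2 h3) (enc_mul (lm3m.enc h1 h2) (enc_norm (enc_sub (l4q1.enc h2 h3) (l3q1.enc h2 h3))))))))⟩
noncomputable def rlq1 : Fn3 := ⟨_, _, fun h1 h2 h3 => (enc_case h1 (enc_neg (rxq1.enc (enc_neg h1) h2 h3)) (rxq1.enc h1 h2 h3))⟩
noncomputable def l0q2_7 : Fn2 := ⟨_, _, fun h1 h2 => (enc_scale 3 4 h1)⟩
noncomputable def l0q2_8 : Fn2 := ⟨_, _, fun h1 h2 => (enc_half (c1g.enc h1))⟩
noncomputable def l0q2 : Fn2 := ⟨_, _, fun h1 h2 => (enc_norm (enc_sub (txg.enc (enc_neg (c1g.enc h1)) (enc_norm (enc_add (l0q2_7.enc h1 h2) (l0q2_8.enc h1 h2))) h2) (txg.enc (c1g.enc h1) (enc_norm (enc_sub (l0q2_7.enc h1 h2) (l0q2_8.enc h1 h2))) h2)))⟩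
noncomputable def n0x : Fn2 := ⟨_, _, fun h1 h2 => (enc_norm (enc_subr 2193 10000 (enc_neg (enc_scale 1381 1000 (enc_subr 22 25 h2)))))⟩
noncomputable def rxq2_40 : Fn3 := ⟨_, _, fun h1 h2 h3 => (enc_mul h1 (bx1q2.enc h2 h3))⟩
noncomputable def rxq2_42 : Fn3 := ⟨_, _, fun h1 h2 h3 => (enc_sub (enc_pnc _ 1) (lm0p.enc h1 h2))⟩
noncomputable def rxq2 : Fn3 := ⟨_, _, fun h1 h2 h3 => (enc_case (enc_sub h1 (cv1p.enc h2)) (enc_case (enc_subr 1149 1000 h2) (enc_add (rxq2_40.enc h1 h2 h3) (enc_mul (enc_norm (rxq2_42.enc h1 h2 h3)) (enc_norm (enc_sub (l0q2.enc h2 h3) (enc_mul (c1g.enc h2) (bx1q2.enc h2 h3)))))) (enc_case (enc_subr 2887 2500 h2) (enc_add (rxq2_40.enc h1 h2 h3) (enc_mul (enc_norm (rxq2_42.enc h1 h2 h3)) (enc_norm (enc_mul (c1g.enc h2) (enc_norm (enc_sub (n0x.enc h2 h3) (bx1q2.enc h2 h3))))))) (rxq2_40.enc h1 h2 h3))) (enc_case (enc_sub h1 (cv2p.enc h2)) (enc_add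 (enc_mul h1 (bx2q2.enc h2 h3)) (enc_mul (enc_norm (enc_mul (enc_norm (enc_sub (enc_pnc _ 1) (lm1p.enc h1 h2))) (cv1p.enc h2))) (enc_norm (enc_sub (bx1q2.enc h2 h3) (bx2q2.enc h2 h3))))) (enc_case (enc_sub h1 (cv3p.enc h2)) (enc_add (enc_mul h1 (bx3q2.enc h2 h3)) (enc_mul (enc_norm (enc_mul (enc_norm (enc_sub (enc_pnc _ 1) (lm2p.enc h1 h2))) (cv2p.enc h2))) (enc_norm (enc_sub (bx2q2.enc h2 h3) (bx3q2.enc h2 h3))))) (enc_add (l3q2.enc h2 h3) (enc_mul (lm3p.enc h1 h2) (enc_norm (enc_sub (l4q2.enc h2 h3) (l3q2.enc h2 h3))))))))⟩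
noncomputable def rlq2 : Fn3 := ⟨_, _, fun h1 h2 h3 => (enc_case h1 (enc_neg (rxq2.enc (enc_neg h1) h2 h3)) (rxq2.enc h1 h2 h3))⟩
noncomputable def l3q3_4 : Fn2 := ⟨_, _, fun h1 h2 => (enc_subr 22 25 h2)⟩
noncomputable def l3q3 : Fn2 := ⟨_, _, fun h1 h2 => (enc_norm (enc_mul (cv3r.enc h1) (enc_norm (enc_case (enc_subr 48 25 h1) (enc_case (enc_subr 46 25 h1) (enc_add (enc_subr 907207 850000 (enc_scale 14579 17000 h1)) (enc_mul (enc_norm (l3q3_4.enc h1 h2)) (enc_norm (enc_subr 75221 42500 (enc_scale 2629 1700 h1))))) (enc_add (enc_subr 106737 100000 (enc_scale 6861 8000 h1)) (enc_mul (enc_norm (l3q3_4.enc h1 h2)) (enc_norm (enc_subr 3539 2000 (enc_scale 1237 800 h1)))))) (enc_case (enc_sub (enc_rat _ 429616471 1000000000) (c3g.enc h1)) (enc_add (enc_sub (enc_rat _ 3510302539361 5535775500000) (enc_scale 1252000 11071551 (c3g.enc h1))) (enc_mul (enc_norm (l3q3_4.enc h1 h2))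 (enc_norm (enc_add (enc_scale 1240000 3690517 (c3g.enc h1)) (enc_rat _ 191233449893 184525850000))))) (enc_add (enc_add (enc_scale 54600000 429616471 (c3g.enc h1)) (enc_rat _ 53093 100000)) (enc_mul (enc_norm (l3q3_4.enc h1 h2)) (enc_norm (enc_add (enc_scale 144350000 429616471 (c3g.enc h1)) (enc_rat _ 20727 20000))))))))))⟩
noncomputable def l4q3_7 : Fn2 := ⟨_, _, fun h1 h2 => (enc_half (c3g.enc h1))⟩
noncomputable def l4q3_8 : Fn2 := ⟨_, _, fun h1 h2 => (enc_scale 1 4 h1)⟩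
noncomputable def l4q3_9 : Fn2 := ⟨_, _, fun h1 h2 => (enc_sub (l4q3_7.enc h1 h2) (l4q3_8.enc h1 h2))⟩
noncomputable def l4q3_12 : Fn2 := ⟨_, _, fun h1 h2 => (enc_add (enc_scale 1 4 (c3g.enc h1)) (enc_scale 3 8 h1))⟩
noncomputable def l4q3_14 : Fn2 := ⟨_, _, fun h1 h2 => (enc_half (l4q3_9.enc h1 h2))⟩
noncomputable def l4q3 : Fn2 := ⟨_, _, fun h1 h2 => (enc_norm (enc_sub (enc_nat 2 (txg.enc (enc_norm (enc_sub (l4q3_8.enc h1 h2) (l4q3_7.enc h1 h2))) (enc_norm (enc_add (l4q3_12.enc h1 h2) (l4q3_14.enc h1 h2))) h2)) (txg.enc (enc_norm (l4q3_9.enc h1 h2)) (enc_norm (enc_sub (l4q3_12.enc h1 h2) (l4q3_14.enc h1 h2))) h2)))⟩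
noncomputable def bx3q3_3 : Fn2 := ⟨_, _, fun h1 h2 => (enc_subr 22 25 h2)⟩
noncomputable def bx3q3 : Fn2 := ⟨_, _, fun h1 h2 => (enc_norm (enc_case (enc_subr 48 25 h1) (enc_case (enc_subr 46 25 h1) (enc_add (enc_subr 907207 850000 (enc_scale 14579 17000 h1)) (enc_mul (enc_norm (bx3q3_3.enc h1 h2)) (enc_norm (enc_subr 75221 42500 (enc_scale 2629 1700 h1))))) (enc_add (enc_subr 106737 100000 (enc_scale 6861 8000 h1)) (enc_mul (enc_norm (bx3q3_3.enc h1 h2)) (enc_norm (enc_subr 3539 2000 (enc_scale 1237 800 h1)))))) (enc_case (enc_sub (enc_rat _ 429616471 1000000000) (c3g.enc h1)) (enc_add (enc_sub (enc_rat _ 3510302539361 5535775500000) (enc_scale 1252000 11071551 (c3g.enc h1))) (enc_mul (enc_norm (bx3q3_3.enc h1 h2)) (enc_norm (enc_add (enc_scale 1240000 3690517 (c3g.enc h1)) (enc_rat _ 191233449893 184525850000))))) (enc_add (enc_add (enc_scale 54600000 429616471 (c3g.enc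 h1)) (enc_rat _ 53093 100000)) (enc_mul (enc_norm (bx3q3_3.enc h1 h2)) (enc_norm (enc_add (enc_scale 144350000 429616471 (c3g.enc h1)) (enc_rat _ 20727 20000))))))))⟩
noncomputable def l2q3_4 : Fn2 := ⟨_, _, fun h1 h2 => (enc_subr 22 25 h2)⟩
noncomputable def l2q3_31 : Fn2 := ⟨_, _, fun h1 h2 => (enc_sq (enc_norm (l2q3_4.enc h1 h2)))⟩
noncomputable def l2q3_38 : Fn2 := ⟨_, _, fun h1 h2 => (enc_sub (enc_rat _ 429616471 1000000000) (c3g.enc h1))⟩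
noncomputable def l2q3_66 : Fn2 := ⟨_, _, fun h1 h2 => (enc_subn 1 h1)⟩
noncomputable def l2q3_81 : Fn2 := ⟨_, _, fun h1 h2 => (enc_subr 48 25 h1)⟩
noncomputable def l2q3_83 : Fn2 := ⟨_, _, fun h1 h2 => (enc_subr 46 25 h1)⟩
noncomputable def l2q3_127 : Fn2 := ⟨_, _, fun h1 h2 => (enc_mul (cv1r.enc h1) (enc_norm (enc_case (l2q3_81.enc h1 h2) (enc_case (l2q3_83.enc h1 h2) (enc_add (enc_subr 138679 68000 (enc_scale 6697 4250 h1)) (enc_mul (enc_norm (l2q3_4.enc h1 h2)) (enc_norm (enc_subr 188281 34000 (enc_scale 12237 3400 h1))))) (enc_add (enc_subr 203937 100000 (enc_scale 6303 4000 h1)) (enc_mul (enc_norm (l2q3_4.enc h1 h2)) (enc_norm (enc_subr 55393 10000 (enc_scale 18 5 h1)))))) (enc_case (l2q3_38.enc h1 h2) (enc_add (enc_sub (enc_rat _ 5530438332733 5535775500000) (enc_scale 296000 11071551 (c3g.enc h1))) (enc_mul (enc_norm (l2q3_4.enc h1 h2)) (enc_norm (enc_subr 49285123213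 110715510000 (enc_scale 41500000 11071551 (c3g.enc h1)))))) (enc_add (enc_sub (enc_rat _ 99907 100000) (enc_scale 11520000 429616471 (c3g.enc h1))) (enc_mul (enc_norm (l2q3_4.enc h1 h2)) (enc_norm (enc_subr 2223 5000 (enc_scale 1609800000 429616471 (c3g.enc h1))))))))))⟩
noncomputable def l2q3 : Fn2 := ⟨_, _, fun h1 h2 => (enc_norm (enc_case (l2q3_83.enc h1 h2) (enc_mul (cv2r.enc h1) (enc_norm (enc_case (enc_subr 1783 1000 h1) (enc_add (enc_subr 39594761 28300000 (enc_scale 7794 7075 h1)) (enc_mul (enc_norm (l2q3_4.enc h1 h2)) (enc_norm (enc_subr 387229 566000 (enc_scale 427 1415 h1))))) (enc_add (enc_add (enc_subr 797444911721 570000000000 (enc_scale 627900287 570000000 h1)) (enc_mul (enc_norm (l2q3_4.enc h1 h2)) (enc_norm (enc_subr 604703275793 19000000000 (enc_scale 337592471 19000000 h1))))) (enc_mul (l2q3_31.enc h1 h2) (enc_norm (enc_subr 2506029679 57000000 (enc_scale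 1405513 57000 h1)))))))) (enc_case (l2q3_81.enc h1 h2) (enc_add (l2q3_127.enc h1 h2) (enc_mul (enc_norm (enc_mul (enc_norm (enc_sub (enc_sub (qsg.enc (enc_norm (l2q3_66.enc h1 h2))) (enc_mul (enc_norm (enc_nat 2 (enc_sub (l2q3_66.enc h1 h2) h2))) (enc_norm (enc_mul (esg.enc (enc_norm (l2q3_66.enc h1 h2))) (kcg.enc (enc_norm (enc_sub (enc_scale 3 4 (l2q3_66.enc h1 h2)) (enc_half (gsg.enc (enc_norm (l2q3_66.enc h1 h2)))))) h2))))) (l2q3_127.enc h1 h2))) (enc_norm (enc_sub (cv2r.enc h1) (cv1r.enc h1))))) (enc_inv (enc_sub (enc_subr 1 2 (swg.enc h1)) (cv1r.enc h1))))) (enc_mul (cv2r.enc h1) (enc_norm (enc_case (l2q3_38.enc h1 h2) (enc_add (enc_add (enc_sub (enc_rat _ 421226102750559247 553577550000000000) (enc_scale 88092457 553577550 (c3g.enc h1))) (enc_mul (enc_norm (l2q3_4.enc h1 h2)) (enc_norm (enc_sub (enc_rat _ 38463366030162977 18452585000000000) (enc_scale 32430087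 18452585 (c3g.enc h1)))))) (enc_mul (l2q3_31.enc h1 h2) (enc_norm (enc_subr 322080460993403 13839438750000 (enc_scale 599754400 11071551 (c3g.enc h1)))))) (enc_add (enc_add (enc_scale 161620000 429616471 (c3g.enc h1)) (enc_rat _ 53093 100000)) (enc_mul (enc_norm (l2q3_4.enc h1 h2)) (enc_norm (enc_add (enc_scale 293050000 429616471 (c3g.enc h1)) (enc_rat _ 20727 20000)))))))))))⟩
noncomputable def bx2q3_3 : Fn2 := ⟨_, _, fun h1 h2 => (enc_subr 22 25 h2)⟩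
noncomputable def bx2q3_30 : Fn2 := ⟨_, _, fun h1 h2 => (enc_sq (enc_norm (bx2q3_3.enc h1 h2)))⟩
noncomputable def bx2q3 : Fn2 := ⟨_, _, fun h1 h2 => (enc_norm (enc_case (enc_subr 47 25 h1) (enc_case (enc_subr 1783 1000 h1) (enc_add (enc_subr 39594761 28300000 (enc_scale 7794 7075 h1)) (enc_mul (enc_norm (bx2q3_3.enc h1 h2)) (enc_norm (enc_subr 387229 566000 (enc_scale 427 1415 h1))))) (enc_add (enc_add (enc_subr 797444911721 570000000000 (enc_scale 627900287 570000000 h1)) (enc_mul (enc_norm (bx2q3_3.enc h1 h2)) (enc_norm (enc_subr 604703275793 19000000000 (enc_scale 337592471 19000000 h1))))) (enc_mul (bx2q3_30.enc h1 h2) (enc_norm (enc_subr 2506029679 57000000 (enc_scale 1405513 57000 h1)))))) (enc_case (enc_sub (enc_rat _ 429616471 1000000000) (c3g.enc h1)) (enc_add (enc_add (enc_sub (enc_rat _ 421226102750559247 553577550000000000) (enc_scale 88092457 553577550 (c3g.enc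 h1))) (enc_mul (enc_norm (bx2q3_3.enc h1 h2)) (enc_norm (enc_sub (enc_rat _ 38463366030162977 18452585000000000) (enc_scale 32430087 18452585 (c3g.enc h1)))))) (enc_mul (bx2q3_30.enc h1 h2) (enc_norm (enc_subr 322080460993403 13839438750000 (enc_scale 599754400 11071551 (c3g.enc h1)))))) (enc_add (enc_add (enc_scale 161620000 429616471 (c3g.enc h1)) (enc_rat _ 53093 100000)) (enc_mul (enc_norm (bx2q3_3.enc h1 h2)) (enc_norm (enc_add (enc_scale 293050000 429616471 (c3g.enc h1)) (enc_rat _ 20727 20000))))))))⟩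
noncomputable def bx1q3_3 : Fn2 := ⟨_, _, fun h1 h2 => (enc_subr 22 25 h2)⟩
noncomputable def bx1q3 : Fn2 := ⟨_, _, fun h1 h2 => (enc_norm (enc_case (enc_subr 48 25 h1) (enc_case (enc_subr 46 25 h1) (enc_add (enc_subr 138679 68000 (enc_scale 6697 4250 h1)) (enc_mul (enc_norm (bx1q3_3.enc h1 h2)) (enc_norm (enc_subr 188281 34000 (enc_scale 12237 3400 h1))))) (enc_add (enc_subr 203937 100000 (enc_scale 6303 4000 h1)) (enc_mul (enc_norm (bx1q3_3.enc h1 h2)) (enc_norm (enc_subr 55393 10000 (enc_scale 18 5 h1)))))) (enc_case (enc_sub (enc_rat _ 429616471 1000000000) (c3g.enc h1)) (enc_add (enc_sub (enc_rat _ 5530438332733 5535775500000) (enc_scale 296000 11071551 (c3g.enc h1))) (enc_mul (enc_norm (bx1q3_3.enc h1 h2)) (enc_norm (enc_subr 49285123213 110715510000 (enc_scale 41500000 11071551 (c3g.enc h1)))))) (enc_add (enc_sub (enc_rat _ 99907 100000) (enc_scale 11520000 429616471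 (c3g.enc h1))) (enc_mul (enc_norm (bx1q3_3.enc h1 h2)) (enc_norm (enc_subr 2223 5000 (enc_scale 1609800000 429616471 (c3g.enc h1)))))))))⟩
noncomputable def rxq3_35 : Fn3 := ⟨_, _, fun h1 h2 h3 => (enc_add (enc_mul h1 (bx2q3.enc h2 h3)) (enc_mul (enc_norm (enc_mul (enc_norm (enc_sub (enc_pnc _ 1) (lm1r.enc h1 h2))) (cv1r.enc h2))) (enc_norm (enc_sub (bx1q3.enc h2 h3) (bx2q3.enc h2 h3)))))⟩
noncomputable def rxq3_36 : Fn3 := ⟨_, _, fun h1 h2 h3 => (enc_subn 1 h2)⟩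
noncomputable def rxq3_54 : Fn3 := ⟨_, _, fun h1 h2 h3 => (enc_sub h1 (cv1r.enc h2))⟩
noncomputable def rxq3 : Fn3 := ⟨_, _, fun h1 h2 h3 => (enc_case (rxq3_54.enc h1 h2 h3) (enc_mul h1 (bx1q3.enc h2 h3)) (enc_case (enc_sub h1 (cv2r.enc h2)) (enc_case (enc_subr 46 25 h2) (rxq3_35.enc h1 h2 h3) (enc_case (enc_subr 48 25 h2) (enc_add (l1q3.enc h2 h3) (enc_mul (enc_norm (enc_mul (enc_norm (rxq3_54.enc h1 h2 h3)) (enc_inv (enc_sub (enc_subr 1 2 (swg.enc h2)) (cv1r.enc h2))))) (enc_norm (enc_sub (enc_sub (qsg.enc (enc_norm (rxq3_36.enc h1 h2 h3))) (enc_mul (enc_norm (enc_nat 2 (enc_sub (rxq3_36.enc h1 h2 h3) h3))) (enc_norm (enc_mul (esg.enc (enc_norm (rxq3_36.enc h1 h2 h3))) (kcg.enc (enc_norm (enc_sub (enc_scale 3 4 (rxq3_36.enc h1 h2 h3)) (enc_half (gsg.enc (enc_norm (rxq3_36.enc h1 h2 h3)))))) h3))))) (l1q3.enc h2 h3))))) (rxq3_35.enc h1 h2 h3))) (enc_case (enc_sub h1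 (cv3r.enc h2)) (enc_add (enc_mul h1 (bx3q3.enc h2 h3)) (enc_mul (enc_norm (enc_sub (enc_pnc _ 1) (lm2r.enc h1 h2))) (enc_norm (enc_sub (l2q3.enc h2 h3) (enc_mul (cv2r.enc h2) (bx3q3.enc h2 h3)))))) (enc_add (l3q3.enc h2 h3) (enc_mul (lm3r.enc h1 h2) (enc_norm (enc_sub (l4q3.enc h2 h3) (l3q3.enc h2 h3))))))))⟩
noncomputable def rlq3 : Fn3 := ⟨_, _, fun h1 h2 h3 => (enc_case h1 (enc_neg (rxq3.enc (enc_neg h1) h2 h3)) (rxq3.enc h1 h2 h3))⟩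
noncomputable def bd2q0_3 : Fn2 := ⟨_, _, fun h1 h2 => (enc_subr 22 25 h2)⟩
noncomputable def bd2q0 : Fn2 := ⟨_, _, fun h1 h2 => (enc_norm (enc_case (enc_subr 3 25 h1) (enc_add (enc_sub (enc_rat _ 11 250) (enc_scale 3474757587 200000000 h1)) (enc_mul (enc_norm (bd2q0_3.enc h1 h2)) (enc_norm (enc_subr 17357 1000 (enc_scale 15136221361 40000000 h1))))) (enc_add (enc_subr 2839433249 1700000000 (enc_scale 1419763249 850000000 h1)) (enc_mul (enc_norm (bd2q0_3.enc h1 h2)) (enc_norm (enc_sub (enc_rat _ 3409536477 680000000) (enc_scale 1704776477 340000000 h1)))))))⟩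
noncomputable def rcq0_35 : Fn3 := ⟨_, _, fun h1 h2 h3 => (enc_add (enc_mul h1 (bd2q0.enc h2 h3)) (enc_mul (enc_norm (enc_mul (enc_norm (enc_sub (enc_pnc _ 1) (lm1m.enc h1 h2))) (cv1m.enc h2))) (enc_norm (enc_sub (bd1q0.enc h2 h3) (bd2q0.enc h2 h3)))))⟩
noncomputable def rcq0_37 : Fn3 := ⟨_, _, fun h1 h2 h3 => (enc_sub (enc_pnc _ 1) h2)⟩
noncomputable def rcq0_38 : Fn3 := ⟨_, _, fun h1 h2 h3 => (gsg.enc (enc_norm (rcq0_37.enc h1 h2 h3)))⟩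
noncomputable def rcq0_42 : Fn3 := ⟨_, _, fun h1 h2 h3 => (esg.enc (enc_norm (rcq0_37.enc h1 h2 h3)))⟩
noncomputable def rcq0_46 : Fn3 := ⟨_, _, fun h1 h2 h3 => (gug.enc (enc_norm (rcq0_37.enc h1 h2 h3)))⟩
noncomputable def rcq0_48 : Fn3 := ⟨_, _, fun h1 h2 h3 => (enc_mul (enc_norm (rcq0_37.enc h1 h2 h3)) (enc_inv (rcq0_38.enc h1 h2 h3)))⟩
noncomputable def rcq0_49 : Fn3 := ⟨_, _, fun h1 h2 h3 => (enc_scale 3 4 (rcq0_48.enc h1 h2 h3))⟩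
noncomputable def rcq0_79 : Fn3 := ⟨_, _, fun h1 h2 h3 => (enc_sub h1 (cv1m.enc h2))⟩
noncomputable def rcq0 : Fn3 := ⟨_, _, fun h1 h2 h3 => (enc_case (rcq0_79.enc h1 h2 h3) (enc_add (enc_mul h1 (bd1q0.enc h2 h3)) (enc_mul (enc_norm (enc_sub (enc_pnc _ 1) (lm0m.enc h1 h2))) (enc_norm (enc_sub (kc0q0.enc h2 h3) (enc_mul (c1g.enc h2) (bd1q0.enc h2 h3)))))) (enc_case (enc_sub h1 (cv2m.enc h2)) (enc_case (enc_subr 2 25 h2) (rcq0_35.enc h1 h2 h3) (enc_case (enc_subr 4 25 h2) (enc_add (kc1q0.enc h2 h3) (enc_mul (enc_norm (enc_mul (enc_norm (rcq0_79.enc h1 h2 h3)) (enc_inv (enc_sub (enc_add (swg.enc h2) (enc_rat _ 1 2)) (cv1m.enc h2))))) (enc_norm (enc_sub (enc_add (enc_sub (enc_neg (enc_add (enc_add (enc_rat _ 3 4) (enc_scale 3 2 (rcq0_37.enc h1 h2 h3))) (enc_scale 3 4 (enc_mul (enc_norm (rcq0_48.enc h1 h2 h3)) (rcq0_46.enc h1 h2 h3))))) (enc_mul (enc_norm (enc_sub (enc_mul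 (enc_norm (enc_mul (enc_norm (rcq0_49.enc h1 h2 h3)) (enc_norm (enc_subn 3 (enc_nat 4 (rcq0_38.enc h1 h2 h3)))))) (rcq0_42.enc h1 h2 h3)) (enc_mul (qsg.enc (enc_norm (rcq0_37.enc h1 h2 h3))) (enc_norm (enc_sub (enc_rat _ 1 2) (rcq0_49.enc h1 h2 h3)))))) (enc_inv (enc_mul (enc_nat 2 (rcq0_42.enc h1 h2 h3)) (rcq0_42.enc h1 h2 h3))))) (enc_mul (kcg.enc (enc_norm (enc_sub (enc_scale 3 4 (rcq0_37.enc h1 h2 h3)) (enc_half (rcq0_38.enc h1 h2 h3)))) h3) (enc_norm (enc_add (enc_pnc _ 1) (enc_add (rcq0_46.enc h1 h2 h3) (enc_nat 2 (rcq0_38.enc h1 h2 h3))))))) (kc1q0.enc h2 h3))))) (rcq0_35.enc h1 h2 h3))) (enc_case (enc_sub h1 (cv3m.enc h2)) (enc_add (enc_mul h1 (bd3q0.enc h2 h3)) (enc_mul (enc_norm (enc_sub (enc_pnc _ 1) (lm2m.enc h1 h2))) (enc_norm (enc_sub (kc2q0.enc h2 h3) (enc_mul (cv2m.enc h2) (bd3q0.enc h2 h3)))))) (enc_add (kc3q0.enc h2 h3) (enc_mul (lm3m.enc h1 h2) (enc_norm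 (enc_sub (kc4q0.enc h2 h3) (kc3q0.enc h2 h3))))))))⟩
noncomputable def pd0 : Fn3 := ⟨_, _, fun h1 h2 h3 => (enc_case h1 (enc_neg (rcq0.enc (enc_neg h1) h2 h3)) (rcq0.enc h1 h2 h3))⟩
noncomputable def rcq1 : Fn3 := ⟨_, _, fun h1 h2 h3 => (enc_case (enc_sub h1 (cv1m.enc h2)) (enc_add (enc_mul h1 (bd1q1.enc h2 h3)) (enc_mul (enc_norm (enc_sub (enc_pnc _ 1) (lm0m.enc h1 h2))) (enc_norm (enc_sub (kc0q1.enc h2 h3) (enc_mul (c1g.enc h2) (bd1q1.enc h2 h3)))))) (enc_case (enc_sub h1 (cv2m.enc h2)) (enc_add (enc_mul h1 (bd2q1.enc h2 h3)) (enc_mul (enc_norm (enc_mul (enc_norm (enc_sub (enc_pnc _ 1) (lm1m.enc h1 h2))) (cv1m.enc h2))) (enc_norm (enc_sub (bd1q1.enc h2 h3) (bd2q1.enc h2 h3))))) (enc_case (enc_sub h1 (cv3m.enc h2)) (enc_add (enc_mul h1 (bd3q1.enc h2 h3)) (enc_mul (enc_norm (enc_mul (enc_norm (enc_sub (enc_pnc _ 1) (lm2m.enc h1 h2))) (cv2m.enc h2))) (enc_norm (enc_sub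 (bd2q1.enc h2 h3) (bd3q1.enc h2 h3))))) (enc_add (kc3q1.enc h2 h3) (enc_mul (lm3m.enc h1 h2) (enc_norm (enc_sub (kc4q1.enc h2 h3) (kc3q1.enc h2 h3))))))))⟩
noncomputable def pd1 : Fn3 := ⟨_, _, fun h1 h2 h3 => (enc_case h1 (enc_neg (rcq1.enc (enc_neg h1) h2 h3)) (rcq1.enc h1 h2 h3))⟩
noncomputable def kc0q2 : Fn2 := ⟨_, _, fun h1 h2 => (enc_pnc _ 0)⟩
noncomputable def n0d : Fn2 := ⟨_, _, fun h1 h2 => (enc_pnc _ 0)⟩
noncomputable def rcq2_40 : Fn3 := ⟨_, _, fun h1 h2 h3 => (enc_mul h1 (bd1q2.enc h2 h3))⟩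
noncomputable def rcq2_42 : Fn3 := ⟨_, _, fun h1 h2 h3 => (enc_sub (enc_pnc _ 1) (lm0p.enc h1 h2))⟩
noncomputable def rcq2 : Fn3 := ⟨_, _, fun h1 h2 h3 => (enc_case (enc_sub h1 (cv1p.enc h2)) (enc_case (enc_subr 1149 1000 h2) (enc_add (rcq2_40.enc h1 h2 h3) (enc_mul (enc_norm (rcq2_42.enc h1 h2 h3)) (enc_norm (enc_sub (kc0q2.enc h2 h3) (enc_mul (c1g.enc h2) (bd1q2.enc h2 h3)))))) (enc_case (enc_subr 2887 2500 h2) (enc_add (rcq2_40.enc h1 h2 h3) (enc_mul (enc_norm (rcq2_42.enc h1 h2 h3)) (enc_norm (enc_mul (c1g.enc h2) (enc_norm (enc_sub (n0d.enc h2 h3) (bd1q2.enc h2 h3))))))) (rcq2_40.enc h1 h2 h3))) (enc_case (enc_sub h1 (cv2p.enc h2)) (enc_add (enc_mul h1 (bd2q2.enc h2 h3)) (enc_mul (enc_norm (enc_mul (enc_norm (enc_sub (enc_pnc _ 1) (lm1p.enc h1 h2))) (cv1p.enc h2))) (enc_norm (enc_sub (bd1q2.enc h2 h3) (bd2q2.enc h2 h3))))) (enc_case (enc_sub h1 (cv3p.enc h2)) (enc_add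 (enc_mul h1 (bd3q2.enc h2 h3)) (enc_mul (enc_norm (enc_mul (enc_norm (enc_sub (enc_pnc _ 1) (lm2p.enc h1 h2))) (cv2p.enc h2))) (enc_norm (enc_sub (bd2q2.enc h2 h3) (bd3q2.enc h2 h3))))) (enc_add (kc3q2.enc h2 h3) (enc_mul (lm3p.enc h1 h2) (enc_norm (enc_sub (kc4q2.enc h2 h3) (kc3q2.enc h2 h3))))))))⟩
noncomputable def pd2 : Fn3 := ⟨_, _, fun h1 h2 h3 => (enc_case h1 (enc_neg (rcq2.enc (enc_neg h1) h2 h3)) (rcq2.enc h1 h2 h3))⟩
noncomputable def kc3q3_4 : Fn2 := ⟨_, _, fun h1 h2 => (enc_subr 22 25 h2)⟩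
noncomputable def kc3q3 : Fn2 := ⟨_, _, fun h1 h2 => (enc_norm (enc_mul (cv3r.enc h1) (enc_norm (enc_case (enc_subr 46 25 h1) (enc_add (enc_add (enc_scale 9069 3400 h1) (enc_rat _ 19511 170000)) (enc_mul (enc_norm (kc3q3_4.enc h1 h2)) (enc_norm (enc_subr 2150919 8500 (enc_scale 59627 340 h1))))) (enc_case (enc_subr 48 25 h1) (enc_add (enc_add (enc_scale 1067 400 h1) (enc_rat _ 229 2000)) (enc_mul (enc_norm (kc3q3_4.enc h1 h2)) (enc_norm (enc_subr 63263 250 (enc_scale 1403 8 h1))))) (enc_add (enc_subr 692 167 (enc_scale 783214350000 40495347871 (c3g.enc h1))) (enc_mul (enc_norm (kc3q3_4.enc h1 h2)) (enc_norm (enc_sub (enc_rat _ 47747 167) (enc_scale 1535202000000 3681395261 (c3g.enc h1)))))))))))⟩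
noncomputable def kc4q3_3 : Fn2 := ⟨_, _, fun h1 h2 => (enc_subr 22 25 h2)⟩
noncomputable def kc4q3_9 : Fn2 := ⟨_, _, fun h1 h2 => (enc_sub (enc_half (c3g.enc h1)) (enc_scale 1 4 h1))⟩
noncomputable def kc4q3_27 : Fn2 := ⟨_, _, fun h1 h2 => (enc_scale 153 1660 (kc4q3_9.enc h1 h2))⟩
noncomputable def kc4q3_31 : Fn2 := ⟨_, _, fun h1 h2 => (enc_scale 25323 166 (kc4q3_9.enc h1 h2))⟩
noncomputable def kc4q3_40 : Fn2 := ⟨_, _, fun h1 h2 => (enc_subr 13533 10000 (enc_scale 77 835 (kc4q3_9.enc h1 h2)))⟩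
noncomputable def kc4q3 : Fn2 := ⟨_, _, fun h1 h2 => (enc_norm (enc_case (kc4q3_9.enc h1 h2) (enc_case (enc_add (kc4q3_9.enc h1 h2) (enc_rat _ 333 1000)) (enc_add (enc_subr 692 167 (enc_neg (enc_scale 1384 167 (kc4q3_9.enc h1 h2)))) (enc_mul (enc_norm (kc4q3_3.enc h1 h2)) (enc_norm (enc_add (enc_scale 95494 167 (kc4q3_9.enc h1 h2)) (enc_rat _ 47747 167))))) (enc_case (enc_add (kc4q3_9.enc h1 h2) (enc_rat _ 167 1000)) (enc_add (enc_subr 2246491 1660000 (kc4q3_27.enc h1 h2)) (enc_mul (enc_norm (kc4q3_3.enc h1 h2)) (enc_norm (enc_sub (enc_rat _ 1483889 33200) (kc4q3_31.enc h1 h2))))) (enc_add (kc4q3_40.enc h1 h2) (enc_mul (enc_norm (kc4q3_3.enc h1 h2)) (enc_norm (enc_sub (enc_rat _ 8939 200) (enc_scale 25476 167 (kc4q3_9.enc h1 h2)))))))) (enc_case (enc_subr 167 1000 (kc4q3_9.enc h1 h2)) (enc_add (kc4q3_40.enc h1 h2) (enc_mul (enc_norm (kc4q3_3.enc h1 h2)) (enc_norm (enc_sub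 (enc_rat _ 8939 200) (enc_scale 25475 167 (kc4q3_9.enc h1 h2)))))) (enc_case (enc_subr 333 1000 (kc4q3_9.enc h1 h2)) (enc_add (enc_subr 449293 332000 (kc4q3_27.enc h1 h2)) (enc_mul (enc_norm (kc4q3_3.enc h1 h2)) (enc_norm (enc_sub (enc_rat _ 7419461 166000) (kc4q3_31.enc h1 h2))))) (enc_add (enc_subr 6613 1670 (enc_scale 6613 835 (kc4q3_9.enc h1 h2))) (enc_mul (enc_norm (kc4q3_3.enc h1 h2)) (enc_norm (enc_subr 6103 334 (enc_scale 6103 167 (kc4q3_9.enc h1 h2))))))))))⟩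
noncomputable def bd3q3_3 : Fn2 := ⟨_, _, fun h1 h2 => (enc_subr 22 25 h2)⟩
noncomputable def bd3q3 : Fn2 := ⟨_, _, fun h1 h2 => (enc_norm (enc_case (enc_subr 46 25 h1) (enc_add (enc_add (enc_scale 9069 3400 h1) (enc_rat _ 19511 170000)) (enc_mul (enc_norm (bd3q3_3.enc h1 h2)) (enc_norm (enc_subr 2150919 8500 (enc_scale 59627 340 h1))))) (enc_case (enc_subr 48 25 h1) (enc_add (enc_add (enc_scale 1067 400 h1) (enc_rat _ 229 2000)) (enc_mul (enc_norm (bd3q3_3.enc h1 h2)) (enc_norm (enc_subr 63263 250 (enc_scale 1403 8 h1))))) (enc_add (enc_subr 692 167 (enc_scale 783214350000 40495347871 (c3g.enc h1))) (enc_mul (enc_norm (bd3q3_3.enc h1 h2)) (enc_norm (enc_sub (enc_rat _ 47747 167) (enc_scale 1535202000000 3681395261 (c3g.enc h1)))))))))⟩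
noncomputable def kc2q3_4 : Fn2 := ⟨_, _, fun h1 h2 => (enc_subr 22 25 h2)⟩
noncomputable def kc2q3_30 : Fn2 := ⟨_, _, fun h1 h2 => (enc_subn 1 h1)⟩
noncomputable def kc2q3_31 : Fn2 := ⟨_, _, fun h1 h2 => (gsg.enc (enc_norm (kc2q3_30.enc h1 h2)))⟩
noncomputable def kc2q3_35 : Fn2 := ⟨_, _, fun h1 h2 => (esg.enc (enc_norm (kc2q3_30.enc h1 h2)))⟩
noncomputable def kc2q3_40 : Fn2 := ⟨_, _, fun h1 h2 => (gug.enc (enc_norm (kc2q3_30.enc h1 h2)))⟩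
noncomputable def kc2q3_42 : Fn2 := ⟨_, _, fun h1 h2 => (enc_mul (enc_norm (kc2q3_30.enc h1 h2)) (enc_inv (kc2q3_31.enc h1 h2)))⟩
noncomputable def kc2q3_43 : Fn2 := ⟨_, _, fun h1 h2 => (enc_scale 3 4 (kc2q3_42.enc h1 h2))⟩
noncomputable def kc2q3_71 : Fn2 := ⟨_, _, fun h1 h2 => (enc_subr 48 25 h1)⟩
noncomputable def kc2q3_93 : Fn2 := ⟨_, _, fun h1 h2 => (enc_mul (cv1r.enc h1) (enc_norm (enc_case (kc2q3_71.enc h1 h2) (enc_add (enc_subr 73221 7000 (enc_scale 12679 1400 h1)) (enc_mul (enc_norm (kc2q3_4.enc h1 h2)) (enc_norm (enc_subr 377663 3500 (enc_scale 19619 210 h1))))) (enc_add (enc_subr 267 10000 (enc_scale 3477450000 242487113 (c3g.enc h1))) (enc_mul (enc_norm (kc2q3_4.enc h1 h2)) (enc_norm (enc_subr 11 40 (enc_scale 35872500000 242487113 (c3g.enc h1)))))))))⟩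
noncomputable def kc2q3 : Fn2 := ⟨_, _, fun h1 h2 => (enc_norm (enc_case (enc_subr 46 25 h1) (enc_mul (cv2r.enc h1) (enc_norm (enc_add (enc_subr 46399531039 6800000000 (enc_scale 20629977013 3400000000 h1)) (enc_mul (enc_norm (kc2q3_4.enc h1 h2)) (enc_norm (enc_subr 5542395543 340000000 (enc_neg (enc_scale 404014819 170000000 h1)))))))) (enc_case (kc2q3_71.enc h1 h2) (enc_add (kc2q3_93.enc h1 h2) (enc_mul (enc_norm (enc_mul (enc_norm (enc_sub (enc_add (enc_sub (enc_add (enc_add (enc_rat _ 3 4) (enc_scale 3 2 (kc2q3_30.enc h1 h2))) (enc_scale 3 4 (enc_mul (enc_norm (kc2q3_42.enc h1 h2)) (kc2q3_40.enc h1 h2)))) (enc_mul (enc_norm (enc_sub (enc_mul (enc_norm (enc_mul (enc_norm (kc2q3_43.enc h1 h2)) (enc_norm (enc_subn 3 (enc_nat 4 (kc2q3_31.enc h1 h2)))))) (kc2q3_35.enc h1 h2)) (enc_mul (qsg.enc (enc_norm (kc2q3_30.enc h1 h2))) (enc_norm (enc_sub (enc_rat _ 1 2) (kc2q3_43.enc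 h1 h2)))))) (enc_inv (enc_mul (enc_nat 2 (kc2q3_35.enc h1 h2)) (kc2q3_35.enc h1 h2))))) (enc_mul (kcg.enc (enc_norm (enc_sub (enc_scale 3 4 (kc2q3_30.enc h1 h2)) (enc_half (kc2q3_31.enc h1 h2)))) h2) (enc_norm (enc_sub (enc_pnc _ 1) (enc_add (kc2q3_40.enc h1 h2) (enc_nat 2 (kc2q3_31.enc h1 h2))))))) (kc2q3_93.enc h1 h2))) (enc_norm (enc_sub (cv2r.enc h1) (cv1r.enc h1))))) (enc_inv (enc_sub (enc_subr 1 2 (swg.enc h1)) (cv1r.enc h1))))) (enc_mul (cv2r.enc h1) (enc_norm (enc_add (enc_subr 692 167 (enc_scale 4627032324316 202476739355 (c3g.enc h1))) (enc_mul (enc_norm (kc2q3_4.enc h1 h2)) (enc_norm (enc_sub (enc_rat _ 47747 167) (enc_scale 28058143467104 40495347871 (c3g.enc h1)))))))))))⟩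
noncomputable def bd2q3_3 : Fn2 := ⟨_, _, fun h1 h2 => (enc_subr 22 25 h2)⟩
noncomputable def bd2q3 : Fn2 := ⟨_, _, fun h1 h2 => (enc_norm (enc_case (enc_subr 47 25 h1) (enc_add (enc_subr 46399531039 6800000000 (enc_scale 20629977013 3400000000 h1)) (enc_mul (enc_norm (bd2q3_3.enc h1 h2)) (enc_norm (enc_subr 5542395543 340000000 (enc_neg (enc_scale 404014819 170000000 h1)))))) (enc_add (enc_subr 692 167 (enc_scale 4627032324316 202476739355 (c3g.enc h1))) (enc_mul (enc_norm (bd2q3_3.enc h1 h2)) (enc_norm (enc_sub (enc_rat _ 47747 167) (enc_scale 28058143467104 40495347871 (c3g.enc h1))))))))⟩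
noncomputable def bd1q3_3 : Fn2 := ⟨_, _, fun h1 h2 => (enc_subr 22 25 h2)⟩
noncomputable def bd1q3 : Fn2 := ⟨_, _, fun h1 h2 => (enc_norm (enc_case (enc_subr 48 25 h1) (enc_add (enc_subr 73221 7000 (enc_scale 12679 1400 h1)) (enc_mul (enc_norm (bd1q3_3.enc h1 h2)) (enc_norm (enc_subr 377663 3500 (enc_scale 19619 210 h1))))) (enc_add (enc_subr 267 10000 (enc_scale 3477450000 242487113 (c3g.enc h1))) (enc_mul (enc_norm (bd1q3_3.enc h1 h2)) (enc_norm (enc_subr 11 40 (enc_scale 35872500000 242487113 (c3g.enc h1))))))))⟩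
noncomputable def rcq3_35 : Fn3 := ⟨_, _, fun h1 h2 h3 => (enc_add (enc_mul h1 (bd2q3.enc h2 h3)) (enc_mul (enc_norm (enc_mul (enc_norm (enc_sub (enc_pnc _ 1) (lm1r.enc h1 h2))) (cv1r.enc h2))) (enc_norm (enc_sub (bd1q3.enc h2 h3) (bd2q3.enc h2 h3)))))⟩
noncomputable def rcq3_36 : Fn3 := ⟨_, _, fun h1 h2 h3 => (enc_subn 1 h2)⟩
noncomputable def rcq3_37 : Fn3 := ⟨_, _, fun h1 h2 h3 => (gsg.enc (enc_norm (rcq3_36.enc h1 h2 h3)))⟩
noncomputable def rcq3_41 : Fn3 := ⟨_, _, fun h1 h2 h3 => (esg.enc (enc_norm (rcq3_36.enc h1 h2 h3)))⟩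
noncomputable def rcq3_46 : Fn3 := ⟨_, _, fun h1 h2 h3 => (gug.enc (enc_norm (rcq3_36.enc h1 h2 h3)))⟩
noncomputable def rcq3_48 : Fn3 := ⟨_, _, fun h1 h2 h3 => (enc_mul (enc_norm (rcq3_36.enc h1 h2 h3)) (enc_inv (rcq3_37.enc h1 h2 h3)))⟩
noncomputable def rcq3_49 : Fn3 := ⟨_, _, fun h1 h2 h3 => (enc_scale 3 4 (rcq3_48.enc h1 h2 h3))⟩
noncomputable def rcq3_79 : Fn3 := ⟨_, _, fun h1 h2 h3 => (enc_sub h1 (cv1r.enc h2))⟩
noncomputable def rcq3 : Fn3 := ⟨_, _, fun h1 h2 h3 => (enc_case (rcq3_79.enc h1 h2 h3) (enc_mul h1 (bd1q3.enc h2 h3)) (enc_case (enc_sub h1 (cv2r.enc h2)) (enc_case (enc_subr 46 25 h2) (rcq3_35.enc h1 h2 h3) (enc_case (enc_subr 48 25 h2) (enc_add (kc1q3.enc h2 h3) (enc_mul (enc_norm (enc_mul (enc_norm (rcq3_79.enc h1 h2 h3)) (enc_inv (enc_sub (enc_subr 1 2 (swg.enc h2)) (cv1r.enc h2))))) (enc_norm (enc_sub (enc_add (enc_sub (enc_add (enc_add (enc_rat _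 3 4) (enc_scale 3 2 (rcq3_36.enc h1 h2 h3))) (enc_scale 3 4 (enc_mul (enc_norm (rcq3_48.enc h1 h2 h3)) (rcq3_46.enc h1 h2 h3)))) (enc_mul (enc_norm (enc_sub (enc_mul (enc_norm (enc_mul (enc_norm (rcq3_49.enc h1 h2 h3)) (enc_norm (enc_subn 3 (enc_nat 4 (rcq3_37.enc h1 h2 h3)))))) (rcq3_41.enc h1 h2 h3)) (enc_mul (qsg.enc (enc_norm (rcq3_36.enc h1 h2 h3))) (enc_norm (enc_sub (enc_rat _ 1 2) (rcq3_49.enc h1 h2 h3)))))) (enc_inv (enc_mul (enc_nat 2 (rcq3_41.enc h1 h2 h3)) (rcq3_41.enc h1 h2 h3))))) (enc_mul (kcg.enc (enc_norm (enc_sub (enc_scale 3 4 (rcq3_36.enc h1 h2 h3)) (enc_half (rcq3_37.enc h1 h2 h3)))) h3) (enc_norm (enc_sub (enc_pnc _ 1) (enc_add (rcq3_46.enc h1 h2 h3) (enc_nat 2 (rcq3_37.enc h1 h2 h3))))))) (kc1q3.enc h2 h3))))) (rcq3_35.enc h1 h2 h3))) (enc_case (enc_sub h1 (cv3r.enc h2)) (enc_add (enc_mul h1 (bd3q3.enc h2 h3)) (enc_mul (enc_norm (enc_sub (enc_pnc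 _ 1) (lm2r.enc h1 h2))) (enc_norm (enc_sub (kc2q3.enc h2 h3) (enc_mul (cv2r.enc h2) (bd3q3.enc h2 h3)))))) (enc_add (kc3q3.enc h2 h3) (enc_mul (lm3r.enc h1 h2) (enc_norm (enc_sub (kc4q3.enc h2 h3) (kc3q3.enc h2 h3))))))))⟩
noncomputable def pd3 : Fn3 := ⟨_, _, fun h1 h2 h3 => (enc_case h1 (enc_neg (rcq3.enc (enc_neg h1) h2 h3)) (rcq3.enc h1 h2 h3))⟩
noncomputable def mug3 : Fn1 := ⟨_, _, fun h1 => (enc_inv (enc_add (enc_nat 2 (gsg.enc h1)) (enc_pnc _ 3)))⟩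
noncomputable def eng : Fn1 := ⟨_, _, fun h1 => (enc_norm (enc_add (enc_pnc _ 1) (enc_mul (mug3.enc h1) (gug.enc h1))))⟩
noncomputable def mog : Fn1 := ⟨_, _, fun h1 => (enc_norm (enc_scale 1 20 (enc_mul (mug3.enc h1) (esg.enc h1))))⟩
noncomputable def kf1q2 : Fn2 := ⟨_, _, fun h1 h2 => (enc_norm (enc_mul (cv1p.enc h1) (bf1q2.enc h1 h2)))⟩
noncomputable def l1q2 : Fn2 := ⟨_, _, fun h1 h2 => (enc_norm (enc_mul (cv1p.enc h1) (bx1q2.enc h1 h2)))⟩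
noncomputable def kc1q2 : Fn2 := ⟨_, _, fun h1 h2 => (enc_norm (enc_mul (cv1p.enc h1) (bd1q2.enc h1 h2)))⟩

noncomputable def ndB0q0 : Node := ⟨idf, c1g, kf0q0, l0q0⟩
noncomputable def cd0q0 : Fn2 := kc0q0
noncomputable def ndB0q1 : Node := ⟨idf, c1g, kf0q1, l0q1⟩
noncomputable def cd0q1 : Fn2 := kc0q1
noncomputable def ndB0q2 : Node := ⟨yag, idf, kfc02, lc02⟩
noncomputable def cd0q2 : Fn2 := kcc02
noncomputable def ndB1q0 : Node := ⟨idf, cv1m, kf1q0, l1q0⟩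
noncomputable def cd1q0 : Fn2 := kc1q0
noncomputable def ndB1q1 : Node := ⟨idf, cv1m, kf1q1, l1q1⟩
noncomputable def cd1q1 : Fn2 := kc1q1
noncomputable def ndB1q2a : Node := ⟨yag, xc12a, kfc12a, lc12a⟩
noncomputable def cd1q2a : Fn2 := kcc12a
noncomputable def ndB1q2b : Node := ⟨idf, xc12b, kfc12b, lc12b⟩
noncomputable def cd1q2b : Fn2 := kcc12b
noncomputable def ndB1q3 : Node := ⟨idf, cv1r, kf1q3, l1q3⟩
noncomputable def cd1q3 : Fn2 := kc1q3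
noncomputable def ndB2q0 : Node := ⟨idf, cv2m, kf2q0, l2q0⟩
noncomputable def cd2q0 : Fn2 := kc2q0
noncomputable def ndB2q1 : Node := ⟨idf, cv2m, kf2q1, l2q1⟩
noncomputable def cd2q1 : Fn2 := kc2q1
noncomputable def ndB2q2 : Node := ⟨idf, cv2p, kf2q2, l2q2⟩
noncomputable def cd2q2 : Fn2 := kc2q2
noncomputable def ndB2q3 : Node := ⟨ycg, xc23, kfc23, lc23⟩
noncomputable def cd2q3 : Fn2 := kcc23
noncomputable def ndB3q0 : Node := ⟨idf, cv3m, kf3q0, l3q0⟩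
noncomputable def cd3q0 : Fn2 := kc3q0
noncomputable def ndB3q1 : Node := ⟨idf, cv3m, kf3q1, l3q1⟩
noncomputable def cd3q1 : Fn2 := kc3q1
noncomputable def ndB3q2 : Node := ⟨idf, cv3p, kf3q2, l3q2⟩
noncomputable def cd3q2 : Fn2 := kc3q2
noncomputable def ndB3q3 : Node := ⟨ycg, xc33, kfc33, lc33⟩
noncomputable def cd3q3 : Fn2 := kcc33
noncomputable def ndB4q0 : Node := ⟨idf, c3g, kf4q0, l4q0⟩
noncomputable def cd4q0 : Fn2 := kc4q0
noncomputable def ndB4q1 : Node := ⟨idf, c3g, kf4q1, l4q1⟩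
noncomputable def cd4q1 : Fn2 := kc4q1
noncomputable def ndB4q2 : Node := ⟨idf, c3g, kf4q2, l4q2⟩
noncomputable def cd4q2 : Fn2 := kc4q2
noncomputable def ndB4q3 : Node := ⟨ycg, idf, kfc43, lc43⟩
noncomputable def cd4q3 : Fn2 := kcc43
noncomputable def pcB0 : Piece := ⟨rsbq0, rlq0⟩
noncomputable def pcB1 : Piece := ⟨rsbq1, rlq1⟩
noncomputable def pcB2 : Piece := ⟨rsbq2, rlq2⟩
noncomputable def pcB3 : Piece := ⟨rsbq3, rlq3⟩
noncomputable def ndB1q2 : Node := ⟨idf, cv1p, kf1q2, l1q2⟩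
noncomputable def cd1q2 : Fn2 := kc1q2
end Pool.Agent.Strip051.G.I8600_9000.Tab
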