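import Pool.Agent.Strip051.G.I8600_9000.MolD

/-! # The tight charts of a table: certificates (generated) -/

set_option linter.all false
set_option maxRecDepth 100000

namespace Pool.Agent.Strip051.G.I8600_9000.Tab.Mo

open Pool.Agent.Strip051.PB Pool.Agent.Strip051.PB.Mol Pool.Agent.Strip051.PB.T
open Pool.Agent.Strip051.G.I8600_9000.Tab

noncomputable def f0Ap : ℕ → ℕ → ℕ → ℕ → Bool :=
  onCell 0 41943040 0 8388608 923417968 42949674 (c0_Ap.row false 20971520)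

theorem h0_0Ap : ∃ t, chk3 f0Ap t 1 1 2 = true :=
  ⟨(a (a (c (b (a (l 16) (l 8)) (a (l 16) (c (l 8) (l 8)))) (a (b (l 16) (l 16)) (b (c (l 8) (l 8)) (c (l 8) (l 8))))) (c (b (c (l 10) (l 10)) (c (l 10) (a (l 8) (l 10)))) (b (a (c (l 8) (l 8)) (l 10)) (a (c (l 8) (l 8)) (c (l 10) (l 10)))))) (a (c (b (c (l 10) (l 10)) (c (l 2) (l 2))) (b (a (l 10) (l 2)) (c (l 2) (l 2)))) (c (b (c (l 2) (l 2)) (c (l 2) (l 2))) (b (c (l 2) (l 2)) (c (a (l 2) (l 2)) (a (l 2) (l 2))))))), by decide +kernel⟩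

theorem h1_0Ap : ∃ t, chk3 f0Ap t 1 1 3 = true :=
  ⟨(a (a (c (a (b (l 16) (l 16)) (b (c (l 8) (l 8)) (c (l 16) (l 16)))) (a (b (l 16) (c (l 16) (l 16))) (b (c (l 16) (l 16)) (c (l 16) (l 16))))) (c (b (a (c (l 8) (l 8)) (c (l 10) (l 10))) (a (c (l 8) (l 8)) (c (l 10) (l 10)))) (b (a (c (l 8) (l 8)) (c (l 10) (l 10))) (a (c (c (l 8) (l 8)) (c (l 8) (l 8))) (c (l 10) (c (l 10) (l 10))))))) (c (a (b (a (c (l 10) (l 10)) (c (l 2) (l 2))) (c (a (l 2) (l 2)) (a (l 2) (l 2)))) (b (c (a (l 2) (l 2)) (a (l 2) (l 2))) (c (a (l 2) (l 2)) (a (l 2) (l 2))))) (a (b (a (c (l 10) (l 10)) (c (l 2) (l 2))) (c (a (l 2) (l 2)) (a (l 2) (l 2)))) (b (c (a (l 2) (l 2)) (a (l 2) (l 2))) (c (a (l 2) (c (l 2) (l 2))) (a (c (l 2) (l 2)) (c (l 2) (l 2)))))))), by decide +kernel⟩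

theorem h2_0Ap : ∃ t, chk3 f0Ap t 1 1 1 = true := ex3_c h0_0Ap h1_0Ap

theorem ct_0Ap : ∃ t, chk3 f0Ap t 1 1 1 = true := h2_0Ap

noncomputable def f0Apk1 : ℕ → ℕ → ℕ → ℕ → Bool :=
  onCell 0 41943040 0 8388608 923417968 42949674 (c0_Apk1.row false 20971520)

theorem h0_0Apk1 : ∃ t, chk3 f0Apk1 t 1 1 1 = true :=
  ⟨(c (a (c (l 10) (l 10)) (a (l 10) (l 2))) (a (c (l 10) (a (l 8) (l 10))) (a (c (l 10) (l 10)) (c (l 2) (l 2))))), by decide +kernel⟩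

theorem ct_0Apk1 : ∃ t, chk3 f0Apk1 t 1 1 1 = true := h0_0Apk1

noncomputable def f0Am : ℕ → ℕ → ℕ → ℕ → Bool :=
  onCell 0 41943040 0 8388608 923417968 42949674 (c0_Am.row true 20971520)

theorem h0_0Am : ∃ t, chk3 f0Am t 1 1 1 = true :=
  ⟨(c (a (a (c (l 8) (l 8)) (c (l 10) (l 10))) (a (c (c (l 10) (l 10)) (c (l 10) (l 10))) (c (l 2) (c (l 2) (l 2))))) (a (a (c (l 8) (l 8)) (c (c (l 10) (l 10)) (c (l 10) (l 10)))) (a (c (a (l 10) (c (l 10) (l 10))) (b (a (l 10) (l 2)) (a (l 10) (c (l 10) (l 10))))) (c (c (l 2) (l 2)) (b (c (l 2) (l 2)) (c (l 2) (l 2))))))), by decide +kernel⟩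

theorem ct_0Am : ∃ t, chk3 f0Am t 1 1 1 = true := h0_0Am

noncomputable def f0Bp : ℕ → ℕ → ℕ → ℕ → Bool :=
  onCell 0 41943040 0 8388608 923417968 42949674 (c0_Bp.row false 20971520)

theorem h0_0Bp : ∃ t, chk3 f0Bp t 1 1 2 = true :=
  ⟨(a (a (c (c (l 8) (l 8)) (c (l 8) (l 8))) (c (a (l 8) (c (l 10) (l 10))) (b (c (l 10) (l 10)) (c (l 8) (l 8))))) (c (a (b (a (l 10) (l 2)) (a (l 10) (c (l 10) (l 10)))) (b (c (l 2) (l 2)) (c (l 2) (l 2)))) (a (b (a (c (l 10) (l 10)) (l 2)) (a (c (l 10) (l 10)) (c (l 10) (l 10)))) (b (c (l 2) (a (l 2) (l 2))) (c (a (l 2) (l 2)) (a (l 2) (l 2))))))), by decide +kernel⟩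

theorem h1_0Bp : ∃ t, chk3 f0Bp t 1 1 3 = true :=
  ⟨(a (c (a (b (c (l 8) (l 8)) (c (l 8) (l 8))) (b (a (l 8) (c (l 10) (l 10))) (a (l 8) (c (l 8) (l 8))))) (a (b (c (l 8) (l 8)) (a (l 8) (c (l 8) (l 8)))) (b (a (c (l 8) (l 8)) (c (l 10) (l 10))) (a (c (l 8) (l 8)) (c (l 8) (l 8)))))) (c (a (b (a (c (l 10) (l 10)) (c (l 2) (l 2))) (c (a (l 10) (c (l 10) (l 10))) (a (l 10) (c (l 10) (l 10))))) (b (c (a (l 2) (l 2)) (a (l 2) (l 2))) (c (a (l 2) (l 2)) (a (l 2) (l 2))))) (a (b (a (c (l 10) (c (l 10) (l 10))) (c (l 2) (l 2))) (c (a (c (l 10) (l 10)) (a (l 10) (l 2))) (a (c (l 10) (l 10)) (a (c (l 10) (l 10)) (l 2))))) (b (c (a (l 2) (l 2)) (a (l 2) (c (l 2) (l 2)))) (c (a (l 2) (c (l 2) (l 2))) (a (c (l 2) (l 2)) (c (l 2) (l 2)))))))), by decide +kernel⟩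

theorem h2_0Bp : ∃ t, chk3 f0Bp t 1 1 1 = true := ex3_c h0_0Bp h1_0Bp

theorem ct_0Bp : ∃ t, chk3 f0Bp t 1 1 1 = true := h2_0Bp

noncomputable def f0Bpk1 : ℕ → ℕ → ℕ → ℕ → Bool :=
  onCell 0 41943040 0 8388608 923417968 42949674 (c0_Bpk1.row false 20971520)

theorem h0_0Bpk1 : ∃ t, chk3 f0Bpk1 t 1 1 1 = true :=
  ⟨(c (a (a (c (l 8) (l 8)) (c (l 10) (l 10))) (c (a (l 10) (l 2)) (a (c (l 10) (l 10)) (c (l 2) (l 2))))) (a (c (a (l 8) (c (l 10) (l 10))) (a (c (l 8) (l 8)) (c (l 10) (l 10)))) (c (a (a (l 10) (c (l 10) (l 10))) (c (l 2) (a (l 2) (l 2)))) (a (b (c (l 10) (l 10)) (c (l 10) (l 10))) (b (c (l 2) (l 2)) (c (l 2) (l 2))))))), by decide +kernel⟩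

theorem ct_0Bpk1 : ∃ t, chk3 f0Bpk1 t 1 1 1 = true := h0_0Bpk1

noncomputable def f0Bm : ℕ → ℕ → ℕ → ℕ → Bool :=
  onCell 0 41943040 0 8388608 923417968 42949674 (c0_Bm.row true 20971520)

theorem h0_0Bm : ∃ t, chk3 f0Bm t 1 1 2 = true :=
  ⟨(a (a (c (b (a (c (l 16) (l 16)) (c (l 8) (l 8))) (a (c (l 16) (l 16)) (c (l 8) (l 8)))) (b (a (c (l 16) (l 16)) (c (c (l 8) (l 8)) (c (l 8) (l 8)))) (a (c (l 16) (l 16)) (c (l 8) (c (l 8) (l 8)))))) (c (b (a (c (l 8) (l 8)) (c (l 10) (l 10))) (a (c (l 8) (l 8)) (c (l 10) (l 10)))) (b (a (c (l 8) (l 8)) (c (l 10) (l 10))) (a (c (l 8) (l 8)) (c (l 10) (l 10)))))) (c (a (b (a (c (l 10) (l 10)) (c (l 2) (l 2))) (c (a (l 2) (l 2)) (a (l 2) (l 2)))) (b (c (a (l 2) (l 2)) (a (l 2) (l 2))) (c (a (l 2) (l 2)) (a (l 2) (l 2))))) (a (b (a (c (l 10) (l 10)) (c (l 2) (l 2))) (c (a (l 2)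 (l 2)) (a (l 2) (l 2)))) (b (c (a (l 2) (l 2)) (a (l 2) (c (l 2) (l 2)))) (c (a (l 2) (c (l 2) (l 2))) (a (c (l 2) (l 2)) (c (l 2) (l 2)))))))), by decide +kernel⟩

theorem h1_0Bm : ∃ t, chk3 f0Bm t 2 1 3 = true :=
  ⟨(c (a (b (a (c (l 16) (l 16)) (c (c (l 8) (l 8)) (c (l 8) (l 8)))) (a (c (l 16) (l 16)) (c (c (l 8) (l 8)) (c (l 8) (l 8))))) (b (a (c (c (l 8) (l 8)) (c (l 8) (l 8))) (c (c (l 10) (l 10)) (c (l 10) (l 10)))) (a (c (c (l 8) (l 8)) (c (l 8) (l 8))) (c (c (l 10) (l 10)) (c (l 10) (l 10)))))) (a (b (a (c (l 16) (l 16)) (c (c (l 8) (l 8)) (c (l 8) (l 8)))) (a (c (l 16) (l 16)) (c (c (l 8) (l 8)) (c (l 8) (l 8))))) (b (a (c (c (l 8) (l 8)) (c (l 8) (l 8))) (c (c (l 10) (l 10)) (c (l 10) (l 10)))) (a (c (c (l 8) (l 8)) (c (l 8) (l 8))) (c (c (l 10) (l 10)) (c (l 10) (a (l 8) (l 10)))))))), by decide +kernel⟩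

theorem h2_0Bm : ∃ t, chk3 f0Bm t 3 1 6 = true :=
  ⟨(a (b (a (c (c (l 10) (l 10)) (c (l 10) (l 10))) (c (l 2) (c (l 2) (l 2)))) (c (a (l 2) (l 2)) (a (l 2) (c (l 2) (l 2))))) (b (c (a (c (l 2) (l 2)) (c (l 2) (l 2))) (a (c (l 2) (l 2)) (b (c (l 2) (l 2)) (c (l 2) (l 2))))) (c (a (c (l 2) (l 2)) (a (l 2) (l 1))) (a (c (l 2) (a (l 2) (l 2))) (a (c (l 2) (l 2)) (l 1)))))), by decide +kernel⟩

theorem h3_0Bm : ∃ t, chk3 f0Bm t 3 1 7 = true :=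
  ⟨(a (b (a (c (c (l 10) (l 10)) (a (c (l 10) (l 10)) (l 2))) (c (c (l 2) (l 2)) (b (c (l 2) (l 2)) (c (l 2) (l 2))))) (c (a (c (l 2) (l 2)) (c (l 2) (a (l 2) (l 2)))) (a (c (l 2) (l 2)) (c (a (l 2) (l 2)) (a (l 2) (l 2)))))) (b (c (a (b (c (l 2) (l 2)) (c (l 2) (l 2))) (b (c (a (l 2) (l 2)) (a (l 2) (l 2))) (c (a (l 2) (l 2)) (a (l 2) (l 2))))) (a (b (c (a (l 2) (l 2)) (a (l 2) (l 2))) (c (a (l 2) (l 2)) (a (l 2) (l 2)))) (b (c (a (l 2) (c (l 2) (l 2))) (a (c (l 2) (l 2)) (c (l 2) (a (l 2) (l 2))))) (c (a (l 2) (c (l 2) (l 2))) (a (c (l 2) (l 2)) (a (c (l 2) (l 2)) (l 1))))))) (c (a (c (a (l 2) (l 2)) (a (l 2) (l 2))) (a (c (l 2) (b (l 2) (l 1))) (l 1))) (a (c (a (l 2) (b (l 2) (l 2))) (a (b (l 2) (l 2)) (b (l 2) (c (l 2) (l 2))))) (b (a (c (l 2) (c (l 2) (l 2))) (l 1)) (l 1)))))), by decide +kernel⟩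

theorem h4_0Bm : ∃ t, chk3 f0Bm t 3 1 3 = true := ex3_c h2_0Bm h3_0Bm

theorem h5_0Bm : ∃ t, chk3 f0Bm t 1 1 3 = true := ex3_a h1_0Bm h4_0Bm

theorem h6_0Bm : ∃ t, chk3 f0Bm t 1 1 1 = true := ex3_c h0_0Bm h5_0Bm

theorem ct_0Bm : ∃ t, chk3 f0Bm t 1 1 1 = true := h6_0Bm

end Pool.Agent.Strip051.G.I8600_9000.Tab.Mo
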