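import Pool.Agent.Strip051.PB.StripC
import Pool.Agent.Strip051.G.I8600_9000.Fact

/-! # Facts about the strips of a table (generated) -/

set_option linter.all false
set_option maxRecDepth 4000

namespace Pool.Agent.Strip051.G.I8600_9000.Tab.St

open Pool.Agent.Strip051.PB Pool.Agent.StripNear Pool.Agent.Strip051.LC
open Pool.Agent.Strip051.G.I8600_9000.Tab

noncomputable def sl1 : Fn1 := ⟨_, _, fun h1 => (enc_norm (enc_add (enc_scale 270214001 275000 (enc_subr 22 25 h1)) (enc_rat _ 4074801893 110000000)))⟩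
noncomputable def sv1 : Fn1 := ⟨_, _, fun h1 => (enc_norm (enc_add (enc_scale 3778428843 17187500 (enc_subr 22 25 h1)) (enc_rat _ 74296128317 11000000000)))⟩
noncomputable def sw1 : Fn1 := ⟨_, _, fun h1 => (enc_norm (enc_add (enc_scale 108253 100 (enc_subr 22 25 h1)) (enc_rat _ 86603 2000)))⟩
noncomputable def sl2 : Fn1 := ⟨_, _, fun h1 => (enc_norm (enc_add (enc_scale 58795703 3000000 (enc_subr 22 25 h1)) (enc_rat _ 555654803 15000000)))⟩
noncomputable def sv2 : Fn1 := ⟨_, _, fun h1 => (enc_norm (enc_add (enc_scale 3341309779 600000000 (enc_subr 22 25 h1)) (enc_rat _ 8105032159 1200000000)))⟩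
noncomputable def sw2 : Fn1 := ⟨_, _, fun h1 => (enc_norm (enc_add (enc_scale 51 100 (enc_subr 22 25 h1)) (enc_rat _ 86603 2000)))⟩
noncomputable def sl3 : Fn1 := ⟨_, _, fun h1 => (enc_norm (enc_sub (enc_rat _ 145390042940953 3924830000000) (enc_scale 532141162333799 16091803000000 (enc_subr 22 25 h1))))⟩
noncomputable def sv3 : Fn1 := ⟨_, _, fun h1 => (enc_norm (enc_sub (enc_rat _ 1325453062082529 196241500000000) (enc_scale 8624704098176731 1609180300000000 (enc_subr 22 25 h1))))⟩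
noncomputable def sw3 : Fn1 := ⟨_, _, fun h1 => (enc_norm (enc_sub (enc_rat _ 86603 2000) (enc_scale 12589 200 (enc_subr 22 25 h1))))⟩
noncomputable def sl4 : Fn1 := ⟨_, _, fun h1 => (enc_norm (enc_sub (enc_rat _ 92104460992986412063 23158068661000000000) (enc_scale 152947522074509244111 4631613732200000000 (enc_subr 22 25 h1))))⟩
noncomputable def sv4 : Fn1 := ⟨_, _, fun h1 => (enc_norm (enc_sub (enc_rat _ 601910021961317271 1781389897000000000) (enc_scale 1906319222899762191 356277979400000000 (enc_subr 22 25 h1))))⟩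
noncomputable def sw4 : Fn1 := ⟨_, _, fun h1 => (enc_norm (enc_sub (enc_rat _ 1399 2000) (enc_scale 12577 200 (enc_subr 22 25 h1))))⟩
noncomputable def sl5 : Fn1 := ⟨_, _, fun h1 => (enc_norm (enc_subr 133436350419537 163544980000000 (enc_neg (enc_scale 31886430034483 1308359840000 (enc_subr 22 25 h1)))))⟩
noncomputable def sv5 : Fn1 := ⟨_, _, fun h1 => (enc_norm (enc_subr 706710571288611 2044312250000000 (enc_neg (enc_scale 67328720308009 16354498000000 (enc_subr 22 25 h1)))))⟩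
noncomputable def sw5 : Fn1 := ⟨_, _, fun h1 => (enc_norm (enc_subr 3081 400 (enc_neg (enc_scale 1193 25 (enc_subr 22 25 h1)))))⟩
noncomputable def sl6 : Fn1 := ⟨_, _, fun h1 => (enc_norm (enc_subr 8159 10000 (enc_neg (enc_scale 14633 10000 (enc_subr 22 25 h1)))))⟩
noncomputable def sv6 : Fn1 := ⟨_, _, fun h1 => (enc_norm (enc_subr 10803 31250 (enc_neg (enc_scale 21373 15625 (enc_subr 22 25 h1)))))⟩
noncomputable def sw6 : Fn1 := ⟨_, _, fun h1 => (enc_norm (enc_subr 3081 400 (enc_scale 1 200 (enc_subr 22 25 h1))))⟩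
noncomputable def sl7 : Fn1 := ⟨_, _, fun h1 => (enc_norm (enc_add (enc_scale 213351 10000 (enc_subr 22 25 h1)) (enc_rat _ 41241 10000)))⟩
noncomputable def sv7 : Fn1 := ⟨_, _, fun h1 => (enc_norm (enc_add (enc_scale 57 125 (enc_subr 22 25 h1)) (enc_rat _ 1547 31250)))⟩
noncomputable def sw7 : Fn1 := ⟨_, _, fun h1 => (enc_norm (enc_add (enc_scale 285 4 (enc_subr 22 25 h1)) (enc_rat _ 1547 200)))⟩
noncomputable def sl8 : Fn1 := ⟨_, _, fun h1 => (enc_norm (enc_add (enc_scale 99351 10000 (enc_subr 22 25 h1)) (enc_rat _ 5773 2000)))⟩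
noncomputable def sv8 : Fn1 := ⟨_, _, fun h1 => (enc_pnc _ 0)⟩
noncomputable def sl9 : Fn1 := ⟨_, _, fun h1 => (enc_norm (enc_add (enc_scale 213351 10000 (enc_subr 22 25 h1)) (enc_rat _ 41241 10000)))⟩
noncomputable def sv9 : Fn1 := ⟨_, _, fun h1 => (enc_norm (enc_subr 1547 31250 (enc_neg (enc_scale 57 125 (enc_subr 22 25 h1)))))⟩
noncomputable def sw9 : Fn1 := ⟨_, _, fun h1 => (enc_norm (enc_subr 1547 200 (enc_neg (enc_scale 285 4 (enc_subr 22 25 h1)))))⟩
noncomputable def sl10 : Fn1 := ⟨_, _, fun h1 => (enc_norm (enc_subr 8159 10000 (enc_neg (enc_scale 14633 10000 (enc_subr 22 25 h1)))))⟩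
noncomputable def sv10 : Fn1 := ⟨_, _, fun h1 => (enc_norm (enc_add (enc_scale 21373 15625 (enc_subr 22 25 h1)) (enc_rat _ 10803 31250)))⟩
noncomputable def sw10 : Fn1 := ⟨_, _, fun h1 => (enc_norm (enc_sub (enc_rat _ 3081 400) (enc_scale 1 200 (enc_subr 22 25 h1))))⟩
noncomputable def sl11 : Fn1 := ⟨_, _, fun h1 => (enc_norm (enc_subr 133436350419537 163544980000000 (enc_neg (enc_scale 31886430034483 1308359840000 (enc_subr 22 25 h1)))))⟩
noncomputable def sv11 : Fn1 := ⟨_, _, fun h1 => (enc_norm (enc_add (enc_scale 67328720308009 16354498000000 (enc_subr 22 25 h1)) (enc_rat _ 706710571288611 2044312250000000)))⟩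
noncomputable def sw11 : Fn1 := ⟨_, _, fun h1 => (enc_norm (enc_add (enc_scale 1193 25 (enc_subr 22 25 h1)) (enc_rat _ 3081 400)))⟩
noncomputable def sl12 : Fn1 := ⟨_, _, fun h1 => (enc_norm (enc_sub (enc_rat _ 92104460992986412063 23158068661000000000) (enc_scale 152947522074509244111 4631613732200000000 (enc_subr 22 25 h1))))⟩
noncomputable def sv12 : Fn1 := ⟨_, _, fun h1 => (enc_norm (enc_subr 601910021961317271 1781389897000000000 (enc_scale 1906319222899762191 356277979400000000 (enc_subr 22 25 h1))))⟩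
noncomputable def sw12 : Fn1 := ⟨_, _, fun h1 => (enc_norm (enc_subr 1399 2000 (enc_scale 12577 200 (enc_subr 22 25 h1))))⟩
noncomputable def sl13 : Fn1 := ⟨_, _, fun h1 => (enc_norm (enc_sub (enc_rat _ 145390042940953 3924830000000) (enc_scale 532141162333799 16091803000000 (enc_subr 22 25 h1))))⟩
noncomputable def sv13 : Fn1 := ⟨_, _, fun h1 => (enc_norm (enc_subr 1325453062082529 196241500000000 (enc_scale 8624704098176731 1609180300000000 (enc_subr 22 25 h1))))⟩
noncomputable def sw13 : Fn1 := ⟨_, _, fun h1 => (enc_norm (enc_subr 86603 2000 (enc_scale 12589 200 (enc_subr 22 25 h1))))⟩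
noncomputable def sl14 : Fn1 := ⟨_, _, fun h1 => (enc_norm (enc_add (enc_scale 58795703 3000000 (enc_subr 22 25 h1)) (enc_rat _ 555654803 15000000)))⟩
noncomputable def sv14 : Fn1 := ⟨_, _, fun h1 => (enc_norm (enc_subr 8105032159 1200000000 (enc_neg (enc_scale 3341309779 600000000 (enc_subr 22 25 h1)))))⟩
noncomputable def sw14 : Fn1 := ⟨_, _, fun h1 => (enc_norm (enc_subr 86603 2000 (enc_neg (enc_scale 51 100 (enc_subr 22 25 h1)))))⟩
noncomputable def sl15 : Fn1 := ⟨_, _, fun h1 => (enc_norm (enc_add (enc_scale 270214001 275000 (enc_subr 22 25 h1)) (enc_rat _ 4074801893 110000000)))⟩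
noncomputable def sv15 : Fn1 := ⟨_, _, fun h1 => (enc_norm (enc_subr 74296128317 11000000000 (enc_neg (enc_scale 3778428843 17187500 (enc_subr 22 25 h1)))))⟩
noncomputable def sw15 : Fn1 := ⟨_, _, fun h1 => (enc_norm (enc_subr 86603 2000 (enc_neg (enc_scale 108253 100 (enc_subr 22 25 h1)))))⟩
noncomputable def sl30 : Fn1 := ⟨_, _, fun h1 => (enc_norm (enc_add (enc_scale 23593 2000 (enc_subr 22 25 h1)) (enc_rat _ 3933 2500)))⟩
noncomputable def sv30 : Fn1 := ⟨_, _, fun h1 => (enc_norm (enc_add (enc_scale 11113 4000 (enc_subr 22 25 h1)) (enc_rat _ 18899 40000)))⟩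
noncomputable def sw30 : Fn1 := ⟨_, _, fun h1 => (enc_norm (enc_add (enc_scale 312 25 (enc_subr 22 25 h1)) (enc_rat _ 2513 2000)))⟩
noncomputable def sl31 : Fn1 := ⟨_, _, fun h1 => (enc_norm (enc_subr 14121 20000 (enc_neg (enc_scale 1729 400 (enc_subr 22 25 h1)))))⟩
noncomputable def sv31 : Fn1 := ⟨_, _, fun h1 => (enc_norm (enc_subr 6457 160000 (enc_neg (enc_scale 33941 40000 (enc_subr 22 25 h1)))))⟩
noncomputable def sw31 : Fn1 := ⟨_, _, fun h1 => (enc_norm (enc_subr 319 250 (enc_neg (enc_scale 543 100 (enc_subr 22 25 h1)))))⟩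
noncomputable def sl32 : Fn1 := ⟨_, _, fun h1 => (enc_norm (enc_subr 3329 20000 (enc_neg (enc_scale 33629 2000 (enc_subr 22 25 h1)))))⟩
noncomputable def sv32 : Fn1 := ⟨_, _, fun h1 => (enc_norm (enc_sub (enc_rat _ 54051 800000) (enc_scale 133877 40000 (enc_subr 22 25 h1))))⟩
noncomputable def sw32 : Fn1 := ⟨_, _, fun h1 => (enc_norm (enc_subr 1203 2000 (enc_neg (enc_scale 4209 200 (enc_subr 22 25 h1)))))⟩
noncomputable def sl33 : Fn1 := ⟨_, _, fun h1 => (enc_norm (enc_sub (enc_rat _ 4947 10000) (enc_scale 653 500 (enc_subr 22 25 h1))))⟩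
noncomputable def sv33 : Fn1 := ⟨_, _, fun h1 => (enc_norm (enc_sub (enc_rat _ 36653 200000) (enc_scale 10127 16000 (enc_subr 22 25 h1))))⟩
noncomputable def sw33 : Fn1 := ⟨_, _, fun h1 => (enc_norm (enc_add (enc_scale 111 100 (enc_subr 22 25 h1)) (enc_rat _ 343 1000)))⟩
noncomputable def sl34 : Fn1 := ⟨_, _, fun h1 => (enc_norm (enc_sub (enc_rat _ 2493 5000) (enc_scale 581 500 (enc_subr 22 25 h1))))⟩
noncomputable def sv34 : Fn1 := ⟨_, _, fun h1 => (enc_norm (enc_sub (enc_rat _ 3677 20000) (enc_scale 48907 80000 (enc_subr 22 25 h1))))⟩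
noncomputable def sw34 : Fn1 := ⟨_, _, fun h1 => (enc_norm (enc_add (enc_scale 27 20 (enc_subr 22 25 h1)) (enc_rat _ 699 2000)))⟩
noncomputable def sl35 : Fn1 := ⟨_, _, fun h1 => (enc_norm (enc_add (enc_scale 7439 500 (enc_subr 22 25 h1)) (enc_rat _ 2493 5000)))⟩
noncomputable def sv35 : Fn1 := ⟨_, _, fun h1 => (enc_norm (enc_add (enc_scale 111493 80000 (enc_subr 22 25 h1)) (enc_rat _ 3677 20000)))⟩
noncomputable def sw35 : Fn1 := ⟨_, _, fun h1 => (enc_norm (enc_add (enc_scale 3343 100 (enc_subr 22 25 h1)) (enc_rat _ 699 2000)))⟩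
noncomputable def sl36 : Fn1 := ⟨_, _, fun h1 => (enc_norm (enc_add (enc_scale 403 250 (enc_subr 22 25 h1)) (enc_rat _ 897 2500)))⟩
noncomputable def sv36 : Fn1 := ⟨_, _, fun h1 => (enc_norm (enc_add (enc_scale 1073 16000 (enc_subr 22 25 h1)) (enc_rat _ 16987 100000)))⟩
noncomputable def sw36 : Fn1 := ⟨_, _, fun h1 => (enc_norm (enc_scale 53 200 (enc_subr 22 25 h1)))⟩
noncomputable def sl37 : Fn1 := ⟨_, _, fun h1 => (enc_norm (enc_sub (enc_rat _ 2193 20000) (enc_scale 547 2000 (enc_subr 22 25 h1))))⟩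
noncomputable def sv37 : Fn1 := ⟨_, _, fun h1 => (enc_norm (enc_sub (enc_rat _ 120947 800000) (enc_scale 1487 20000 (enc_subr 22 25 h1))))⟩
noncomputable def sw37 : Fn1 := ⟨_, _, fun h1 => (enc_norm (enc_subr 1661 2000 (enc_neg (enc_scale 301 50 (enc_subr 22 25 h1)))))⟩
noncomputable def sl38 : Fn1 := ⟨_, _, fun h1 => (enc_norm (enc_add (enc_scale 1381 2000 (enc_subr 22 25 h1)) (enc_rat _ 2193 20000)))⟩
noncomputable def sv38 : Fn1 := ⟨_, _, fun h1 => (enc_norm (enc_sub (enc_rat _ 120947 800000) (enc_scale 523 20000 (enc_subr 22 25 h1))))⟩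
noncomputable def sw38 : Fn1 := ⟨_, _, fun h1 => (enc_norm (enc_subr 1661 2000 (enc_neg (enc_scale 6 5 (enc_subr 22 25 h1)))))⟩
noncomputable def sl39 : Fn1 := ⟨_, _, fun h1 => (enc_norm (enc_add (enc_scale 901 2000 (enc_subr 22 25 h1)) (enc_rat _ 1019 20000)))⟩
noncomputable def sv39 : Fn1 := ⟨_, _, fun h1 => (enc_norm (enc_sub (enc_rat _ 24659 160000) (enc_scale 283 20000 (enc_subr 22 25 h1))))⟩
noncomputable def sw39 : Fn1 := ⟨_, _, fun h1 => (enc_neg (enc_rat _ 537 1000))⟩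
noncomputable def sl40 : Fn1 := ⟨_, _, fun h1 => (enc_norm (enc_add (enc_scale 901 2000 (enc_subr 22 25 h1)) (enc_rat _ 5111 100000)))⟩
noncomputable def sv40 : Fn1 := ⟨_, _, fun h1 => (enc_norm (enc_sub (enc_rat _ 3082119 20000000) (enc_scale 283 20000 (enc_subr 22 25 h1))))⟩
noncomputable def sw40 : Fn1 := ⟨_, _, fun h1 => (enc_neg (enc_rat _ 43 80))⟩
noncomputable def sl41 : Fn1 := ⟨_, _, fun h1 => (enc_norm (enc_sub (enc_rat _ 5111 100000) (enc_scale 13543 2000 (enc_subr 22 25 h1))))⟩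
noncomputable def sv41 : Fn1 := ⟨_, _, fun h1 => (enc_norm (enc_add (enc_scale 14161 20000 (enc_subr 22 25 h1)) (enc_rat _ 3082119 20000000)))⟩
noncomputable def sw41 : Fn1 := ⟨_, _, fun h1 => (enc_norm (enc_subr 43 80 (enc_scale 3611 200 (enc_subr 22 25 h1))))⟩
noncomputable def sl42_2 : Fn1 := ⟨_, _, fun h1 => (enc_subr 22 25 h1)⟩
noncomputable def sl42 : Fn1 := ⟨_, _, fun h1 => (enc_norm (enc_sub (enc_add (enc_scale 474831394778407 40886245000000 (sl42_2.enc h1)) (enc_rat _ 1405133051154551 4088624500000000)) (enc_scale 34321022501389 654179920000 (enc_sq (enc_norm (sl42_2.enc h1))))))⟩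
noncomputable def sv42_2 : Fn1 := ⟨_, _, fun h1 => (enc_subr 22 25 h1)⟩
noncomputable def sv42 : Fn1 := ⟨_, _, fun h1 => (enc_norm (enc_add (enc_sub (enc_rat _ 12163557302547069 102215612500000000) (enc_scale 191417754480449 127769515625000 (sv42_2.enc h1))) (enc_scale 51481724519847 8177249000000 (enc_sq (enc_norm (sv42_2.enc h1))))))⟩
noncomputable def sw42_2 : Fn1 := ⟨_, _, fun h1 => (enc_subr 22 25 h1)⟩
noncomputable def sw42 : Fn1 := ⟨_, _, fun h1 => (enc_norm (enc_add (enc_subr 1147 1000 (enc_neg (enc_scale 20247 1000 (sw42_2.enc h1)))) (enc_scale 1093 10 (enc_sq (enc_norm (sw42_2.enc h1))))))⟩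
noncomputable def sl44_2 : Fn1 := ⟨_, _, fun h1 => (enc_subr 22 25 h1)⟩
noncomputable def sl44 : Fn1 := ⟨_, _, fun h1 => (enc_norm (enc_sub (enc_add (enc_scale 22327890462347 4618900000000 (sl44_2.enc h1)) (enc_rat _ 166135641622553 323323000000000)) (enc_scale 217558475232521 2586584000000 (enc_sq (enc_norm (sl44_2.enc h1))))))⟩
noncomputable def sv44_2 : Fn1 := ⟨_, _, fun h1 => (enc_subr 22 25 h1)⟩
noncomputable def sv44 : Fn1 := ⟨_, _, fun h1 => (enc_norm (enc_add (enc_sub (enc_rat _ 66434501546447 734825000000000) (enc_scale 6788684754347 10497500000000 (sv44_2.enc h1))) (enc_scale 108779167795721 5878600000000 (enc_sq (enc_norm (sv44_2.enc h1))))))⟩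
noncomputable def sw44_2 : Fn1 := ⟨_, _, fun h1 => (enc_subr 22 25 h1)⟩
noncomputable def sw44 : Fn1 := ⟨_, _, fun h1 => (enc_norm (enc_add (enc_subr 14147 10000 (enc_neg (enc_scale 7293 1000 (sw44_2.enc h1)))) (enc_scale 4779 50 (enc_sq (enc_norm (sw44_2.enc h1))))))⟩
noncomputable def sl45 : Fn1 := ⟨_, _, fun h1 => (enc_norm (enc_subr 51889 50000 (enc_neg (enc_scale 40523 5000 (enc_subr 22 25 h1)))))⟩
noncomputable def sv45 : Fn1 := ⟨_, _, fun h1 => (enc_norm (enc_add (enc_scale 10999 5000 (enc_subr 22 25 h1)) (enc_rat _ 86353 200000)))⟩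
noncomputable def sw45 : Fn1 := ⟨_, _, fun h1 => (enc_norm (enc_add (enc_scale 741 100 (enc_subr 22 25 h1)) (enc_rat _ 697 2000)))⟩
noncomputable def skf0 : Fn2 := ⟨_, _, fun h1 h2 => (enc_norm (enc_add (bf1q0.enc h1 h2) (enc_mul (enc_norm (enc_sub (enc_mul (c1g.enc h1) (bf1q0.enc h1 h2)) (kf0q0.enc h1 h2))) (enc_inv (enc_sub (cv1m.enc h1) (c1g.enc h1))))))⟩
noncomputable def sxf0 : Fn2 := ⟨_, _, fun h1 h2 => (enc_norm (enc_mul (enc_norm (enc_sub (l1q0.enc h1 h2) (l0q0.enc h1 h2))) (enc_inv (enc_sub (cv1m.enc h1) (c1g.enc h1)))))⟩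
noncomputable def skl0 : Fn2 := ⟨_, _, fun h1 h2 => (enc_norm (enc_add (bf3q0.enc h1 h2) (enc_mul (enc_norm (enc_sub (kf4q0.enc h1 h2) (enc_mul (c3g.enc h1) (bf3q0.enc h1 h2)))) (enc_inv (enc_sub (c3g.enc h1) (cv3m.enc h1))))))⟩
noncomputable def sxl0 : Fn2 := ⟨_, _, fun h1 h2 => (enc_norm (enc_mul (enc_norm (enc_sub (l4q0.enc h1 h2) (l3q0.enc h1 h2))) (enc_inv (enc_sub (c3g.enc h1) (cv3m.enc h1)))))⟩
noncomputable def skf1 : Fn2 := ⟨_, _, fun h1 h2 => (enc_norm (enc_add (bf1q1.enc h1 h2) (enc_mul (enc_norm (enc_sub (enc_mul (c1g.enc h1) (bf1q1.enc h1 h2)) (kf0q1.enc h1 h2))) (enc_inv (enc_sub (cv1m.enc h1) (c1g.enc h1))))))⟩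
noncomputable def sxf1 : Fn2 := ⟨_, _, fun h1 h2 => (enc_norm (enc_mul (enc_norm (enc_sub (l1q1.enc h1 h2) (l0q1.enc h1 h2))) (enc_inv (enc_sub (cv1m.enc h1) (c1g.enc h1)))))⟩
noncomputable def skl1 : Fn2 := ⟨_, _, fun h1 h2 => (enc_norm (enc_add (bf3q1.enc h1 h2) (enc_mul (enc_norm (enc_sub (kf4q1.enc h1 h2) (enc_mul (c3g.enc h1) (bf3q1.enc h1 h2)))) (enc_inv (enc_sub (c3g.enc h1) (cv3m.enc h1))))))⟩
noncomputable def sxl1 : Fn2 := ⟨_, _, fun h1 h2 => (enc_norm (enc_mul (enc_norm (enc_sub (l4q1.enc h1 h2) (l3q1.enc h1 h2))) (enc_inv (enc_sub (c3g.enc h1) (cv3m.enc h1)))))⟩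
noncomputable def skf2 : Fn2 := ⟨_, _, fun h1 h2 => (enc_norm (enc_add (bf1q2.enc h1 h2) (enc_mul (enc_norm (enc_add (enc_mul (c1g.enc h1) (enc_norm (enc_subn 1 (bf1q2.enc h1 h2)))) (enc_mul (enc_norm (enc_subn 1 h1)) (kcg.enc (c1g.enc h1) h2)))) (enc_inv (enc_sub (cv1p.enc h1) (c1g.enc h1))))))⟩
noncomputable def sxf2 : Fn2 := ⟨_, _, fun h1 h2 => (enc_norm (enc_mul (enc_norm (enc_sub (l1q2.enc h1 h2) (l0q2.enc h1 h2))) (enc_inv (enc_sub (cv1p.enc h1) (c1g.enc h1)))))⟩
noncomputable def skl2 : Fn2 := ⟨_, _, fun h1 h2 => (enc_norm (enc_add (bf3q2.enc h1 h2) (enc_mul (enc_norm (enc_sub (kf4q2.enc h1 h2) (enc_mul (c3g.enc h1) (bf3q2.enc h1 h2)))) (enc_inv (enc_sub (c3g.enc h1) (cv3p.enc h1))))))⟩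
noncomputable def sxl2 : Fn2 := ⟨_, _, fun h1 h2 => (enc_norm (enc_mul (enc_norm (enc_sub (l4q2.enc h1 h2) (l3q2.enc h1 h2))) (enc_inv (enc_sub (c3g.enc h1) (cv3p.enc h1)))))⟩
noncomputable def skl3 : Fn2 := ⟨_, _, fun h1 h2 => (enc_norm (enc_add (bf3q3.enc h1 h2) (enc_mul (enc_norm (enc_sub (kf4q3.enc h1 h2) (enc_mul (c3g.enc h1) (bf3q3.enc h1 h2)))) (enc_inv (enc_sub (c3g.enc h1) (cv3r.enc h1))))))⟩
noncomputable def sxl3 : Fn2 := ⟨_, _, fun h1 h2 => (enc_norm (enc_mul (enc_norm (enc_sub (l4q3.enc h1 h2) (l3q3.enc h1 h2))) (enc_inv (enc_sub (c3g.enc h1) (cv3r.enc h1)))))⟩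
noncomputable def rhk : Fn2 := ⟨_, _, fun h1 h2 => (enc_norm (enc_mul (enc_norm (enc_sub (bf1q2.enc h1 h2) (n0b.enc h1 h2))) (enc_norm (enc_mul (cv1p.enc h1) (enc_inv (enc_sub (cv1p.enc h1) (c1g.enc h1)))))))⟩
noncomputable def rhx : Fn2 := ⟨_, _, fun h1 h2 => (enc_norm (enc_mul (enc_norm (enc_sub (bx1q2.enc h1 h2) (n0x.enc h1 h2))) (enc_norm (enc_mul (cv1p.enc h1) (enc_inv (enc_sub (cv1p.enc h1) (c1g.enc h1)))))))⟩
noncomputable def sbk : Fn1 := ⟨_, _, fun h1 => (enc_norm (enc_neg (enc_scale 1 6900 (enc_subr 22 25 h1))))⟩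
noncomputable def sbx : Fn1 := ⟨_, _, fun h1 => (enc_norm (enc_add (enc_scale 18 5 (enc_subr 22 25 h1)) (enc_rat _ 10871 6900)))⟩
noncomputable def k0c : Fn1 := ⟨_, _, fun h1 => (enc_norm (enc_add (enc_scale 99351 10000 (enc_subr 22 25 h1)) (enc_rat _ 5773 2000)))⟩
noncomputable def m0c : Fn1 := ⟨_, _, fun h1 => (enc_norm (enc_subr 2193 10000 (enc_neg (enc_scale 1381 1000 (enc_subr 22 25 h1)))))⟩
noncomputable def sl61 : Fn1 := ⟨_, _, fun h1 => (enc_norm (enc_subr 19061 100000 (enc_neg (enc_scale 1363 2000 (enc_subr 22 25 h1)))))⟩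
noncomputable def sv61 : Fn1 := ⟨_, _, fun h1 => (enc_norm (enc_subr 315281 20000000 (enc_neg (enc_scale 6497 80000 (enc_subr 22 25 h1)))))⟩
noncomputable def sw61 : Fn1 := ⟨_, _, fun h1 => (enc_norm (enc_subr 43 80 (enc_neg (enc_scale 53 200 (enc_subr 22 25 h1)))))⟩
noncomputable def sl62 : Fn1 := ⟨_, _, fun h1 => (enc_norm (enc_subr 3809 20000 (enc_neg (enc_scale 1363 2000 (enc_subr 22 25 h1)))))⟩
noncomputable def sv62 : Fn1 := ⟨_, _, fun h1 => (enc_norm (enc_subr 12601 800000 (enc_neg (enc_scale 6497 80000 (enc_subr 22 25 h1)))))⟩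
noncomputable def sw62 : Fn1 := ⟨_, _, fun h1 => (enc_norm (enc_subr 537 1000 (enc_neg (enc_scale 53 200 (enc_subr 22 25 h1)))))⟩
noncomputable def sl63 : Fn1 := ⟨_, _, fun h1 => (enc_norm (enc_add (enc_scale 301 250 (enc_subr 22 25 h1)) (enc_rat _ 587 10000)))⟩
noncomputable def sv63 : Fn1 := ⟨_, _, fun h1 => (enc_norm (enc_add (enc_scale 301 5000 (enc_subr 22 25 h1)) (enc_rat _ 587 200000)))⟩
noncomputable def sw63 : Fn1 := ⟨_, _, fun h1 => (enc_norm (enc_add (enc_scale 301 50 (enc_subr 22 25 h1)) (enc_rat _ 587 2000)))⟩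
noncomputable def sl64 : Fn1 := ⟨_, _, fun h1 => (enc_pnc _ 0)⟩
noncomputable def sv64 : Fn1 := ⟨_, _, fun h1 => (enc_pnc _ 0)⟩
noncomputable def sl65 : Fn1 := ⟨_, _, fun h1 => (enc_norm (enc_add (enc_scale 301 250 (enc_subr 22 25 h1)) (enc_rat _ 587 10000)))⟩
noncomputable def sv65 : Fn1 := ⟨_, _, fun h1 => (enc_norm (enc_subr 587 200000 (enc_neg (enc_scale 301 5000 (enc_subr 22 25 h1)))))⟩
noncomputable def sw65 : Fn1 := ⟨_, _, fun h1 => (enc_norm (enc_subr 587 2000 (enc_neg (enc_scale 301 50 (enc_subr 22 25 h1)))))⟩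
noncomputable def sl66 : Fn1 := ⟨_, _, fun h1 => (enc_norm (enc_subr 3809 20000 (enc_neg (enc_scale 1363 2000 (enc_subr 22 25 h1)))))⟩
noncomputable def sv66 : Fn1 := ⟨_, _, fun h1 => (enc_norm (enc_add (enc_scale 6497 80000 (enc_subr 22 25 h1)) (enc_rat _ 12601 800000)))⟩
noncomputable def sw66 : Fn1 := ⟨_, _, fun h1 => (enc_norm (enc_add (enc_scale 53 200 (enc_subr 22 25 h1)) (enc_rat _ 537 1000)))⟩
noncomputable def sl67 : Fn1 := ⟨_, _, fun h1 => (enc_norm (enc_subr 19061 100000 (enc_neg (enc_scale 1363 2000 (enc_subr 22 25 h1)))))⟩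
noncomputable def sv67 : Fn1 := ⟨_, _, fun h1 => (enc_norm (enc_add (enc_scale 6497 80000 (enc_subr 22 25 h1)) (enc_rat _ 315281 20000000)))⟩
noncomputable def sw67 : Fn1 := ⟨_, _, fun h1 => (enc_norm (enc_add (enc_scale 53 200 (enc_subr 22 25 h1)) (enc_rat _ 43 80)))⟩
noncomputable def kqf : Fn2 := ⟨_, _, fun h1 h2 => (enc_norm (enc_mul (enc_norm (enc_subn 1 h1)) (enc_norm (enc_case (enc_subr 2 25 (c1g.enc h1)) (enc_add (enc_scale 99351 10000 (enc_subr 22 25 h2)) (enc_rat _ 5773 2000)) (enc_mul (kcg.enc (c1g.enc h1) h2) (enc_inv (c1g.enc h1)))))))⟩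
noncomputable def skm : Fn2 := ⟨_, _, fun h1 h2 => (enc_norm (enc_sub (enc_mul (enc_norm (enc_mul (cv1p.enc h1) (enc_inv (enc_sub (cv1p.enc h1) (c1g.enc h1))))) (enc_norm (enc_add (enc_subn 1 (bf1q2.enc h1 h2)) (kqf.enc h1 h2)))) (kqf.enc h1 h2)))⟩
noncomputable def dt1 : DT := .quad sw1 sl1 sv1
noncomputable def dt2 : DT := .quad sw2 sl2 sv2
noncomputable def dt3 : DT := .quad sw3 sl3 sv3
noncomputable def dt4 : DT := .quad sw4 sl4 sv4
noncomputable def dt5 : DT := .quad sw5 sl5 sv5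
noncomputable def dt6 : DT := .quad sw6 sl6 sv6
noncomputable def dt7 : DT := .quad sw7 sl7 sv7
noncomputable def dt8 : DT := .lin sl8 sv8
noncomputable def dt9 : DT := .quad sw9 sl9 sv9
noncomputable def dt10 : DT := .quad sw10 sl10 sv10
noncomputable def dt11 : DT := .quad sw11 sl11 sv11
noncomputable def dt12 : DT := .quad sw12 sl12 sv12
noncomputable def dt13 : DT := .quad sw13 sl13 sv13
noncomputable def dt14 : DT := .quad sw14 sl14 sv14
noncomputable def dt15 : DT := .quad sw15 sl15 sv15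
noncomputable def dt16 : DT := .node ((Cn.rt 83 200).ng) dt2 dt3
noncomputable def dt17 : DT := .node ((Cn.rt 89 200).ng) dt1 dt16
noncomputable def dt18 : DT := .node ((Cn.rt 767 2689).ng) dt4 dt5
noncomputable def dt19 : DT := .node ((Cn.rt 4 25).ng) dt6 dt7
noncomputable def dt20 : DT := .node ((Cn.rt 6 25).ng) dt18 dt19
noncomputable def dt21 : DT := .node ((Cn.rt 671 1729).ng) dt17 dt20
noncomputable def dt22 : DT := .node (Cn.rt 2 25) dt8 dt9
noncomputable def dt23 : DT := .node (Cn.rt 6 25) dt10 dt11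
noncomputable def dt24 : DT := .node (Cn.rt 4 25) dt22 dt23
noncomputable def dt25 : DT := .node (Cn.rt 671 1729) dt12 dt13
noncomputable def dt26 : DT := .node (Cn.rt 89 200) dt14 dt15
noncomputable def dt27 : DT := .node (Cn.rt 83 200) dt25 dt26
noncomputable def dt28 : DT := .node (Cn.rt 767 2689) dt24 dt27
noncomputable def dt29 : DT := .node ((Cn.rt 2 25).ng) dt21 dt28
noncomputable def dt30 : DT := .quad sw30 sl30 sv30
noncomputable def dt31 : DT := .quad sw31 sl31 sv31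
noncomputable def dt32 : DT := .quad sw32 sl32 sv32
noncomputable def dt33 : DT := .quad sw33 sl33 sv33
noncomputable def dt34 : DT := .quad sw34 sl34 sv34
noncomputable def dt35 : DT := .quad sw35 sl35 sv35
noncomputable def dt36 : DT := .quad sw36 sl36 sv36
noncomputable def dt37 : DT := .quad sw37 sl37 sv37
noncomputable def dt38 : DT := .quad sw38 sl38 sv38
noncomputable def dt39 : DT := .quad sw39 sl39 sv39
noncomputable def dt40 : DT := .quad sw40 sl40 sv40
noncomputable def dt41 : DT := .quad sw41 sl41 sv41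
noncomputable def dt42 : DT := .quad sw42 sl42 sv42
noncomputable def dt43 : DT := .clo
noncomputable def dt44 : DT := .quad sw44 sl44 sv44
noncomputable def dt45 : DT := .quad sw45 sl45 sv45
noncomputable def dt46 : DT := .node ((Cn.rt 9 20).ng) dt30 dt31
noncomputable def dt47 : DT := .node ((Cn.rt 7 20).ng) dt32 dt33
noncomputable def dt48 : DT := .node ((Cn.rt 2 5).ng) dt46 dt47
noncomputable def dt49 : DT := .node ((Cn.rt 1 4).ng) dt34 dt35
noncomputable def dt50 : DT := .node ((Cn.rt 3 20).ng) dt36 dt37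
noncomputable def dt51 : DT := .node ((Cn.rt 1 5).ng) dt49 dt50
noncomputable def dt52 : DT := .node ((Cn.rt 3 10).ng) dt48 dt51
noncomputable def dt53 : DT := .node (Cn.rt 1 10) dt38 dt39
noncomputable def dt54 : DT := .node (Cn.rt 1 5) dt40 dt41
noncomputable def dt55 : DT := .node (Cn.rt 4 25) dt53 dt54
noncomputable def dt56 : DT := .node (Cn.rt 767 2689) dt42 dt43
noncomputable def dt57 : DT := .node (Cn.rt 11 25) dt44 dt45
noncomputable def dt58 : DT := .node (Cn.rt 671 1729) dt56 dt57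
noncomputable def dt59 : DT := .node (Cn.rt 6 25) dt55 dt58
noncomputable def dt60 : DT := .node ((Cn.rt 1 10).ng) dt52 dt59
noncomputable def dt61 : DT := .quad sw61 sl61 sv61
noncomputable def dt62 : DT := .quad sw62 sl62 sv62
noncomputable def dt63 : DT := .quad sw63 sl63 sv63
noncomputable def dt64 : DT := .lin sl64 sv64
noncomputable def dt65 : DT := .quad sw65 sl65 sv65
noncomputable def dt66 : DT := .quad sw66 sl66 sv66
noncomputable def dt67 : DT := .quad sw67 sl67 sv67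
noncomputable def dt68 : DT := .node ((Cn.rt 3 20).ng) dt62 dt63
noncomputable def dt69 : DT := .node ((Cn.rt 4 25).ng) dt61 dt68
noncomputable def dt70 : DT := .node (Cn.rt 1 10) dt64 dt65
noncomputable def dt71 : DT := .node (Cn.rt 4 25) dt66 dt67
noncomputable def dt72 : DT := .node (Cn.rt 3 20) dt70 dt71
noncomputable def dt73 : DT := .node ((Cn.rt 1 10).ng) dt69 dt72
noncomputable def dd : SDat := ⟨dt29, kcg, dt60, Kh.T⟩
noncomputable def gf0 : Sg := ⟨cv1m, skf0, sxf0⟩
noncomputable def gf1 : Sg := ⟨cv1m, skf1, sxf1⟩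
noncomputable def gf2 : Sg := ⟨cv1p, skf2, sxf2⟩
noncomputable def gf3 : Sg := ⟨cv1r, skf2, sxf2⟩
noncomputable def gl0 : Sg := ⟨cv3m, skl0, sxl0⟩
noncomputable def gl1 : Sg := ⟨cv3m, skl1, sxl1⟩
noncomputable def gl2 : Sg := ⟨cv3p, skl2, sxl2⟩
noncomputable def gl3 : Sg := ⟨cv3r, skl3, sxl3⟩
noncomputable def vv : Vt := ⟨(Cn.rt 2 25), (Cn.rt 577 500), (Cn.rt 231 200), (Cn.rt 3 2), k0c, m0c, sbk, sbx, rhk, rhx, bf1q2, bx1q2, (Cn.rt 1 5), (Cn.rt 577 500), skm, dt73⟩
noncomputable def ff (q : ℕ) : Sg := match q with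
  | 0 => gf0
  | 1 => gf1
  | 2 => gf2
  | _ => gf3
noncomputable def fl (q : ℕ) : Sg := match q with
  | 0 => gl0
  | 1 => gl1
  | 2 => gl2
  | _ => gl3
noncomputable def tt : STab 4 := ⟨dd, 0, 3, ff, fl, vv⟩
theorem kcl0 {p x : ℝ} (h1 : -1 / 2 ≤ p) (h2 : p ≤ -89 / 200) : kcg.v p x = (74296128317 / 11000000000 + (x - 22 / 25) * (3778428843 / 17187500)) + (4074801893 / 110000000 + (x - 22 / 25) * (270214001 / 275000)) * p + (86603 / 2000 + (x - 22 / 25) * (108253 / 100)) * p ^ 2 := by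
  simp only [kcg, kcg_3, kcg_6, kcg_9, kcg_12, kcg_13, kcg_18, kcg_31, kcg_39, kcg_44, kcg_53, kcg_61, kcg_62, kcg_66, kcg_73, kcg_78, kcg_81, kcg_90, kcg_99, kcg_102, kcg_103, kcg_106, kcg_115, kcg_120, kcg_124, kcg_135, kcg_144, kcg_148, kcg_160, kcg_165, kcg_168, kcg_174, kcg_175, kcg_176, kcg_196, kcg_219, kcg_220]
  rcases eq_or_lt_of_le h1 with h | h1
  · subst h
    ((try push_cast); (repeat first | rw [if_pos (by linarith)] | rw [if_neg (by linarith)] | erw [if_pos (by linarith)] | erw [if_neg (by linarith)]); (try push_cast); (try ring1))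
  rcases eq_or_lt_of_le h2 with h | h2
  · subst h
    ((try push_cast); (repeat first | rw [if_pos (by linarith)] | rw [if_neg (by linarith)] | erw [if_pos (by linarith)] | erw [if_neg (by linarith)]); (try push_cast); (try ring1))
  · ((try push_cast); (repeat first | rw [if_pos (by linarith)] | rw [if_neg (by linarith)] | erw [if_pos (by linarith)] | erw [if_neg (by linarith)]); (try push_cast); (try ring1))
theorem kcl1 {p x : ℝ} (h1 : -89 / 200 ≤ p) (h2 : p ≤ -83 / 200) : kcg.v p x = (8105032159 / 1200000000 + (x - 22 / 25) * (3341309779 / 600000000)) + (555654803 / 15000000 + (x - 22 / 25) * (58795703 / 3000000)) * p + (86603 / 2000 + (x - 22 / 25) * (51 / 100)) * p ^ 2 := by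
  simp only [kcg, kcg_3, kcg_6, kcg_9, kcg_12, kcg_13, kcg_18, kcg_31, kcg_39, kcg_44, kcg_53, kcg_61, kcg_62, kcg_66, kcg_73, kcg_78, kcg_81, kcg_90, kcg_99, kcg_102, kcg_103, kcg_106, kcg_115, kcg_120, kcg_124, kcg_135, kcg_144, kcg_148, kcg_160, kcg_165, kcg_168, kcg_174, kcg_175, kcg_176, kcg_196, kcg_219, kcg_220]
  rcases eq_or_lt_of_le h1 with h | h1
  · subst h
    ((try push_cast); (repeat first | rw [if_pos (by linarith)] | rw [if_neg (by linarith)] | erw [if_pos (by linarith)] | erw [if_neg (by linarith)]); (try push_cast); (try ring1))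
  rcases eq_or_lt_of_le h2 with h | h2
  · subst h
    ((try push_cast); (repeat first | rw [if_pos (by linarith)] | rw [if_neg (by linarith)] | erw [if_pos (by linarith)] | erw [if_neg (by linarith)]); (try push_cast); (try ring1))
  · ((try push_cast); (repeat first | rw [if_pos (by linarith)] | rw [if_neg (by linarith)] | erw [if_pos (by linarith)] | erw [if_neg (by linarith)]); (try push_cast); (try ring1))
theorem kcl2 {p x : ℝ} (h1 : -83 / 200 ≤ p) (h2 : p ≤ -671 / 1729) : kcg.v p x = (1325453062082529 / 196241500000000 + (x - 22 / 25) * (-8624704098176731 / 1609180300000000)) + (145390042940953 / 3924830000000 + (x - 22 / 25) * (-532141162333799 / 16091803000000)) * p + (86603 / 2000 + (x - 22 / 25) * (-12589 / 200)) * p ^ 2 := by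
  simp only [kcg, kcg_3, kcg_6, kcg_9, kcg_12, kcg_13, kcg_18, kcg_31, kcg_39, kcg_44, kcg_53, kcg_61, kcg_62, kcg_66, kcg_73, kcg_78, kcg_81, kcg_90, kcg_99, kcg_102, kcg_103, kcg_106, kcg_115, kcg_120, kcg_124, kcg_135, kcg_144, kcg_148, kcg_160, kcg_165, kcg_168, kcg_174, kcg_175, kcg_176, kcg_196, kcg_219, kcg_220]
  rcases eq_or_lt_of_le h1 with h | h1
  · subst h
    ((try push_cast); (repeat first | rw [if_pos (by linarith)] | rw [if_neg (by linarith)] | erw [if_pos (by linarith)] | erw [if_neg (by linarith)]); (try push_cast); (try ring1))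
  rcases eq_or_lt_of_le h2 with h | h2
  · subst h
    ((try push_cast); (repeat first | rw [if_pos (by linarith)] | rw [if_neg (by linarith)] | erw [if_pos (by linarith)] | erw [if_neg (by linarith)]); (try push_cast); (try ring1))
  · ((try push_cast); (repeat first | rw [if_pos (by linarith)] | rw [if_neg (by linarith)] | erw [if_pos (by linarith)] | erw [if_neg (by linarith)]); (try push_cast); (try ring1))
theorem kcl3 {p x : ℝ} (h1 : -671 / 1729 ≤ p) (h2 : p ≤ -767 / 2689) : kcg.v p x = (601910021961317271 / 1781389897000000000 + (x - 22 / 25) * (-1906319222899762191 / 356277979400000000)) + (92104460992986412063 / 23158068661000000000 + (x - 22 / 25) * (-152947522074509244111 / 4631613732200000000)) * p + (1399 / 2000 + (x - 22 / 25) * (-12577 / 200)) * p ^ 2 := by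
  simp only [kcg, kcg_3, kcg_6, kcg_9, kcg_12, kcg_13, kcg_18, kcg_31, kcg_39, kcg_44, kcg_53, kcg_61, kcg_62, kcg_66, kcg_73, kcg_78, kcg_81, kcg_90, kcg_99, kcg_102, kcg_103, kcg_106, kcg_115, kcg_120, kcg_124, kcg_135, kcg_144, kcg_148, kcg_160, kcg_165, kcg_168, kcg_174, kcg_175, kcg_176, kcg_196, kcg_219, kcg_220]
  rcases eq_or_lt_of_le h1 with h | h1
  · subst h
    ((try push_cast); (repeat first | rw [if_pos (by linarith)] | rw [if_neg (by linarith)] | erw [if_pos (by linarith)] | erw [if_neg (by linarith)]); (try push_cast); (try ring1))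
  rcases eq_or_lt_of_le h2 with h | h2
  · subst h
    ((try push_cast); (repeat first | rw [if_pos (by linarith)] | rw [if_neg (by linarith)] | erw [if_pos (by linarith)] | erw [if_neg (by linarith)]); (try push_cast); (try ring1))
  · ((try push_cast); (repeat first | rw [if_pos (by linarith)] | rw [if_neg (by linarith)] | erw [if_pos (by linarith)] | erw [if_neg (by linarith)]); (try push_cast); (try ring1))
theorem kcl4 {p x : ℝ} (h1 : -767 / 2689 ≤ p) (h2 : p ≤ -6 / 25) : kcg.v p x = (-706710571288611 / 2044312250000000 + (x - 22 / 25) * (-67328720308009 / 16354498000000)) + (-133436350419537 / 163544980000000 + (x - 22 / 25) * (-31886430034483 / 1308359840000)) * p + (-3081 / 400 + (x - 22 / 25) * (-1193 / 25)) * p ^ 2 := by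
  simp only [kcg, kcg_3, kcg_6, kcg_9, kcg_12, kcg_13, kcg_18, kcg_31, kcg_39, kcg_44, kcg_53, kcg_61, kcg_62, kcg_66, kcg_73, kcg_78, kcg_81, kcg_90, kcg_99, kcg_102, kcg_103, kcg_106, kcg_115, kcg_120, kcg_124, kcg_135, kcg_144, kcg_148, kcg_160, kcg_165, kcg_168, kcg_174, kcg_175, kcg_176, kcg_196, kcg_219, kcg_220]
  rcases eq_or_lt_of_le h1 with h | h1
  · subst h
    ((try push_cast); (repeat first | rw [if_pos (by linarith)] | rw [if_neg (by linarith)] | erw [if_pos (by linarith)] | erw [if_neg (by linarith)]); (try push_cast); (try ring1))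
  rcases eq_or_lt_of_le h2 with h | h2
  · subst h
    ((try push_cast); (repeat first | rw [if_pos (by linarith)] | rw [if_neg (by linarith)] | erw [if_pos (by linarith)] | erw [if_neg (by linarith)]); (try push_cast); (try ring1))
  · ((try push_cast); (repeat first | rw [if_pos (by linarith)] | rw [if_neg (by linarith)] | erw [if_pos (by linarith)] | erw [if_neg (by linarith)]); (try push_cast); (try ring1))
theorem kcl5 {p x : ℝ} (h1 : -6 / 25 ≤ p) (h2 : p ≤ -4 / 25) : kcg.v p x = (-10803 / 31250 + (x - 22 / 25) * (-21373 / 15625)) + (-8159 / 10000 + (x - 22 / 25) * (-14633 / 10000)) * p + (-3081 / 400 + (x - 22 / 25) * (1 / 200)) * p ^ 2 := by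
  simp only [kcg, kcg_3, kcg_6, kcg_9, kcg_12, kcg_13, kcg_18, kcg_31, kcg_39, kcg_44, kcg_53, kcg_61, kcg_62, kcg_66, kcg_73, kcg_78, kcg_81, kcg_90, kcg_99, kcg_102, kcg_103, kcg_106, kcg_115, kcg_120, kcg_124, kcg_135, kcg_144, kcg_148, kcg_160, kcg_165, kcg_168, kcg_174, kcg_175, kcg_176, kcg_196, kcg_219, kcg_220]
  rcases eq_or_lt_of_le h1 with h | h1
  · subst h
    ((try push_cast); (repeat first | rw [if_pos (by linarith)] | rw [if_neg (by linarith)] | erw [if_pos (by linarith)] | erw [if_neg (by linarith)]); (try push_cast); (try ring1))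
  rcases eq_or_lt_of_le h2 with h | h2
  · subst h
    ((try push_cast); (repeat first | rw [if_pos (by linarith)] | rw [if_neg (by linarith)] | erw [if_pos (by linarith)] | erw [if_neg (by linarith)]); (try push_cast); (try ring1))
  · ((try push_cast); (repeat first | rw [if_pos (by linarith)] | rw [if_neg (by linarith)] | erw [if_pos (by linarith)] | erw [if_neg (by linarith)]); (try push_cast); (try ring1))
theorem kcl6 {p x : ℝ} (h1 : -4 / 25 ≤ p) (h2 : p ≤ -2 / 25) : kcg.v p x = (1547 / 31250 + (x - 22 / 25) * (57 / 125)) + (41241 / 10000 + (x - 22 / 25) * (213351 / 10000)) * p + (1547 / 200 + (x - 22 / 25) * (285 / 4)) * p ^ 2 := by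
  simp only [kcg, kcg_3, kcg_6, kcg_9, kcg_12, kcg_13, kcg_18, kcg_31, kcg_39, kcg_44, kcg_53, kcg_61, kcg_62, kcg_66, kcg_73, kcg_78, kcg_81, kcg_90, kcg_99, kcg_102, kcg_103, kcg_106, kcg_115, kcg_120, kcg_124, kcg_135, kcg_144, kcg_148, kcg_160, kcg_165, kcg_168, kcg_174, kcg_175, kcg_176, kcg_196, kcg_219, kcg_220]
  rcases eq_or_lt_of_le h1 with h | h1
  · subst h
    ((try push_cast); (repeat first | rw [if_pos (by linarith)] | rw [if_neg (by linarith)] | erw [if_pos (by linarith)] | erw [if_neg (by linarith)]); (try push_cast); (try ring1))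
  rcases eq_or_lt_of_le h2 with h | h2
  · subst h
    ((try push_cast); (repeat first | rw [if_pos (by linarith)] | rw [if_neg (by linarith)] | erw [if_pos (by linarith)] | erw [if_neg (by linarith)]); (try push_cast); (try ring1))
  · ((try push_cast); (repeat first | rw [if_pos (by linarith)] | rw [if_neg (by linarith)] | erw [if_pos (by linarith)] | erw [if_neg (by linarith)]); (try push_cast); (try ring1))
theorem kcl7 {p x : ℝ} (h1 : -2 / 25 ≤ p) (h2 : p ≤ 2 / 25) : kcg.v p x = (0) + (5773 / 2000 + (x - 22 / 25) * (99351 / 10000)) * p := by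
  simp only [kcg, kcg_3, kcg_6, kcg_9, kcg_12, kcg_13, kcg_18, kcg_31, kcg_39, kcg_44, kcg_53, kcg_61, kcg_62, kcg_66, kcg_73, kcg_78, kcg_81, kcg_90, kcg_99, kcg_102, kcg_103, kcg_106, kcg_115, kcg_120, kcg_124, kcg_135, kcg_144, kcg_148, kcg_160, kcg_165, kcg_168, kcg_174, kcg_175, kcg_176, kcg_196, kcg_219, kcg_220]
  rcases eq_or_lt_of_le h1 with h | h1
  · subst h
    ((try push_cast); (repeat first | rw [if_pos (by linarith)] | rw [if_neg (by linarith)] | erw [if_pos (by linarith)] | erw [if_neg (by linarith)]); (try push_cast); (try ring1))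
  rcases eq_or_lt_of_le h2 with h | h2
  · subst h
    ((try push_cast); (repeat first | rw [if_pos (by linarith)] | rw [if_neg (by linarith)] | erw [if_pos (by linarith)] | erw [if_neg (by linarith)]); (try push_cast); (try ring1))
  rcases lt_trichotomy p 0 with h | h | h
  · ((try push_cast); (repeat first | rw [if_pos (by linarith)] | rw [if_neg (by linarith)] | erw [if_pos (by linarith)] | erw [if_neg (by linarith)]); (try push_cast); (try ring1))
  · subst h
    ((try push_cast); (repeat first | rw [if_pos (by linarith)] | rw [if_neg (by linarith)] | erw [if_pos (by linarith)] | erw [if_neg (by linarith)]); (try push_cast); (try ring1))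
  · ((try push_cast); (repeat first | rw [if_pos (by linarith)] | rw [if_neg (by linarith)] | erw [if_pos (by linarith)] | erw [if_neg (by linarith)]); (try push_cast); (try ring1))
theorem kcl8 {p x : ℝ} (h1 : 2 / 25 ≤ p) (h2 : p ≤ 4 / 25) : kcg.v p x = (-1547 / 31250 + (x - 22 / 25) * (-57 / 125)) + (41241 / 10000 + (x - 22 / 25) * (213351 / 10000)) * p + (-1547 / 200 + (x - 22 / 25) * (-285 / 4)) * p ^ 2 := by
  simp only [kcg, kcg_3, kcg_6, kcg_9, kcg_12, kcg_13, kcg_18, kcg_31, kcg_39, kcg_44, kcg_53, kcg_61, kcg_62, kcg_66, kcg_73, kcg_78, kcg_81, kcg_90, kcg_99, kcg_102, kcg_103, kcg_106, kcg_115, kcg_120, kcg_124, kcg_135, kcg_144, kcg_148, kcg_160, kcg_165, kcg_168, kcg_174, kcg_175, kcg_176, kcg_196, kcg_219, kcg_220]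
  rcases eq_or_lt_of_le h1 with h | h1
  · subst h
    ((try push_cast); (repeat first | rw [if_pos (by linarith)] | rw [if_neg (by linarith)] | erw [if_pos (by linarith)] | erw [if_neg (by linarith)]); (try push_cast); (try ring1))
  rcases eq_or_lt_of_le h2 with h | h2
  · subst h
    ((try push_cast); (repeat first | rw [if_pos (by linarith)] | rw [if_neg (by linarith)] | erw [if_pos (by linarith)] | erw [if_neg (by linarith)]); (try push_cast); (try ring1))
  · ((try push_cast); (repeat first | rw [if_pos (by linarith)] | rw [if_neg (by linarith)] | erw [if_pos (by linarith)] | erw [if_neg (by linarith)]); (try push_cast); (try ring1))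
theorem kcl9 {p x : ℝ} (h1 : 4 / 25 ≤ p) (h2 : p ≤ 6 / 25) : kcg.v p x = (10803 / 31250 + (x - 22 / 25) * (21373 / 15625)) + (-8159 / 10000 + (x - 22 / 25) * (-14633 / 10000)) * p + (3081 / 400 + (x - 22 / 25) * (-1 / 200)) * p ^ 2 := by
  simp only [kcg, kcg_3, kcg_6, kcg_9, kcg_12, kcg_13, kcg_18, kcg_31, kcg_39, kcg_44, kcg_53, kcg_61, kcg_62, kcg_66, kcg_73, kcg_78, kcg_81, kcg_90, kcg_99, kcg_102, kcg_103, kcg_106, kcg_115, kcg_120, kcg_124, kcg_135, kcg_144, kcg_148, kcg_160, kcg_165, kcg_168, kcg_174, kcg_175, kcg_176, kcg_196, kcg_219, kcg_220]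
  rcases eq_or_lt_of_le h1 with h | h1
  · subst h
    ((try push_cast); (repeat first | rw [if_pos (by linarith)] | rw [if_neg (by linarith)] | erw [if_pos (by linarith)] | erw [if_neg (by linarith)]); (try push_cast); (try ring1))
  rcases eq_or_lt_of_le h2 with h | h2
  · subst h
    ((try push_cast); (repeat first | rw [if_pos (by linarith)] | rw [if_neg (by linarith)] | erw [if_pos (by linarith)] | erw [if_neg (by linarith)]); (try push_cast); (try ring1))
  · ((try push_cast); (repeat first | rw [if_pos (by linarith)] | rw [if_neg (by linarith)] | erw [if_pos (by linarith)] | erw [if_neg (by linarith)]); (try push_cast); (try ring1))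
theorem kcl10 {p x : ℝ} (h1 : 6 / 25 ≤ p) (h2 : p ≤ 767 / 2689) : kcg.v p x = (706710571288611 / 2044312250000000 + (x - 22 / 25) * (67328720308009 / 16354498000000)) + (-133436350419537 / 163544980000000 + (x - 22 / 25) * (-31886430034483 / 1308359840000)) * p + (3081 / 400 + (x - 22 / 25) * (1193 / 25)) * p ^ 2 := by
  simp only [kcg, kcg_3, kcg_6, kcg_9, kcg_12, kcg_13, kcg_18, kcg_31, kcg_39, kcg_44, kcg_53, kcg_61, kcg_62, kcg_66, kcg_73, kcg_78, kcg_81, kcg_90, kcg_99, kcg_102, kcg_103, kcg_106, kcg_115, kcg_120, kcg_124, kcg_135, kcg_144, kcg_148, kcg_160, kcg_165, kcg_168, kcg_174, kcg_175, kcg_176, kcg_196, kcg_219, kcg_220]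
  rcases eq_or_lt_of_le h1 with h | h1
  · subst h
    ((try push_cast); (repeat first | rw [if_pos (by linarith)] | rw [if_neg (by linarith)] | erw [if_pos (by linarith)] | erw [if_neg (by linarith)]); (try push_cast); (try ring1))
  rcases eq_or_lt_of_le h2 with h | h2
  · subst h
    ((try push_cast); (repeat first | rw [if_pos (by linarith)] | rw [if_neg (by linarith)] | erw [if_pos (by linarith)] | erw [if_neg (by linarith)]); (try push_cast); (try ring1))
  · ((try push_cast); (repeat first | rw [if_pos (by linarith)] | rw [if_neg (by linarith)] | erw [if_pos (by linarith)] | erw [if_neg (by linarith)]); (try push_cast); (try ring1))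
theorem kcl11 {p x : ℝ} (h1 : 767 / 2689 ≤ p) (h2 : p ≤ 671 / 1729) : kcg.v p x = (-601910021961317271 / 1781389897000000000 + (x - 22 / 25) * (1906319222899762191 / 356277979400000000)) + (92104460992986412063 / 23158068661000000000 + (x - 22 / 25) * (-152947522074509244111 / 4631613732200000000)) * p + (-1399 / 2000 + (x - 22 / 25) * (12577 / 200)) * p ^ 2 := by
  simp only [kcg, kcg_3, kcg_6, kcg_9, kcg_12, kcg_13, kcg_18, kcg_31, kcg_39, kcg_44, kcg_53, kcg_61, kcg_62, kcg_66, kcg_73, kcg_78, kcg_81, kcg_90, kcg_99, kcg_102, kcg_103, kcg_106, kcg_115, kcg_120, kcg_124, kcg_135, kcg_144, kcg_148, kcg_160, kcg_165, kcg_168, kcg_174, kcg_175, kcg_176, kcg_196, kcg_219, kcg_220]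
  rcases eq_or_lt_of_le h1 with h | h1
  · subst h
    ((try push_cast); (repeat first | rw [if_pos (by linarith)] | rw [if_neg (by linarith)] | erw [if_pos (by linarith)] | erw [if_neg (by linarith)]); (try push_cast); (try ring1))
  rcases eq_or_lt_of_le h2 with h | h2
  · subst h
    ((try push_cast); (repeat first | rw [if_pos (by linarith)] | rw [if_neg (by linarith)] | erw [if_pos (by linarith)] | erw [if_neg (by linarith)]); (try push_cast); (try ring1))
  · ((try push_cast); (repeat first | rw [if_pos (by linarith)] | rw [if_neg (by linarith)] | erw [if_pos (by linarith)] | erw [if_neg (by linarith)]); (try push_cast); (try ring1))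
theorem kcl12 {p x : ℝ} (h1 : 671 / 1729 ≤ p) (h2 : p ≤ 83 / 200) : kcg.v p x = (-1325453062082529 / 196241500000000 + (x - 22 / 25) * (8624704098176731 / 1609180300000000)) + (145390042940953 / 3924830000000 + (x - 22 / 25) * (-532141162333799 / 16091803000000)) * p + (-86603 / 2000 + (x - 22 / 25) * (12589 / 200)) * p ^ 2 := by
  simp only [kcg, kcg_3, kcg_6, kcg_9, kcg_12, kcg_13, kcg_18, kcg_31, kcg_39, kcg_44, kcg_53, kcg_61, kcg_62, kcg_66, kcg_73, kcg_78, kcg_81, kcg_90, kcg_99, kcg_102, kcg_103, kcg_106, kcg_115, kcg_120, kcg_124, kcg_135, kcg_144, kcg_148, kcg_160, kcg_165, kcg_168, kcg_174, kcg_175, kcg_176, kcg_196, kcg_219, kcg_220]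
  rcases eq_or_lt_of_le h1 with h | h1
  · subst h
    ((try push_cast); (repeat first | rw [if_pos (by linarith)] | rw [if_neg (by linarith)] | erw [if_pos (by linarith)] | erw [if_neg (by linarith)]); (try push_cast); (try ring1))
  rcases eq_or_lt_of_le h2 with h | h2
  · subst h
    ((try push_cast); (repeat first | rw [if_pos (by linarith)] | rw [if_neg (by linarith)] | erw [if_pos (by linarith)] | erw [if_neg (by linarith)]); (try push_cast); (try ring1))
  · ((try push_cast); (repeat first | rw [if_pos (by linarith)] | rw [if_neg (by linarith)] | erw [if_pos (by linarith)] | erw [if_neg (by linarith)]); (try push_cast); (try ring1))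
theorem kcl13 {p x : ℝ} (h1 : 83 / 200 ≤ p) (h2 : p ≤ 89 / 200) : kcg.v p x = (-8105032159 / 1200000000 + (x - 22 / 25) * (-3341309779 / 600000000)) + (555654803 / 15000000 + (x - 22 / 25) * (58795703 / 3000000)) * p + (-86603 / 2000 + (x - 22 / 25) * (-51 / 100)) * p ^ 2 := by
  simp only [kcg, kcg_3, kcg_6, kcg_9, kcg_12, kcg_13, kcg_18, kcg_31, kcg_39, kcg_44, kcg_53, kcg_61, kcg_62, kcg_66, kcg_73, kcg_78, kcg_81, kcg_90, kcg_99, kcg_102, kcg_103, kcg_106, kcg_115, kcg_120, kcg_124, kcg_135, kcg_144, kcg_148, kcg_160, kcg_165, kcg_168, kcg_174, kcg_175, kcg_176, kcg_196, kcg_219, kcg_220]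
  rcases eq_or_lt_of_le h1 with h | h1
  · subst h
    ((try push_cast); (repeat first | rw [if_pos (by linarith)] | rw [if_neg (by linarith)] | erw [if_pos (by linarith)] | erw [if_neg (by linarith)]); (try push_cast); (try ring1))
  rcases eq_or_lt_of_le h2 with h | h2
  · subst h
    ((try push_cast); (repeat first | rw [if_pos (by linarith)] | rw [if_neg (by linarith)] | erw [if_pos (by linarith)] | erw [if_neg (by linarith)]); (try push_cast); (try ring1))
  · ((try push_cast); (repeat first | rw [if_pos (by linarith)] | rw [if_neg (by linarith)] | erw [if_pos (by linarith)] | erw [if_neg (by linarith)]); (try push_cast); (try ring1))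
theorem kcl14 {p x : ℝ} (h1 : 89 / 200 ≤ p) (h2 : p ≤ 1 / 2) : kcg.v p x = (-74296128317 / 11000000000 + (x - 22 / 25) * (-3778428843 / 17187500)) + (4074801893 / 110000000 + (x - 22 / 25) * (270214001 / 275000)) * p + (-86603 / 2000 + (x - 22 / 25) * (-108253 / 100)) * p ^ 2 := by
  simp only [kcg, kcg_3, kcg_6, kcg_9, kcg_12, kcg_13, kcg_18, kcg_31, kcg_39, kcg_44, kcg_53, kcg_61, kcg_62, kcg_66, kcg_73, kcg_78, kcg_81, kcg_90, kcg_99, kcg_102, kcg_103, kcg_106, kcg_115, kcg_120, kcg_124, kcg_135, kcg_144, kcg_148, kcg_160, kcg_165, kcg_168, kcg_174, kcg_175, kcg_176, kcg_196, kcg_219, kcg_220]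
  rcases eq_or_lt_of_le h1 with h | h1
  · subst h
    ((try push_cast); (repeat first | rw [if_pos (by linarith)] | rw [if_neg (by linarith)] | erw [if_pos (by linarith)] | erw [if_neg (by linarith)]); (try push_cast); (try ring1))
  rcases eq_or_lt_of_le h2 with h | h2
  · subst h
    ((try push_cast); (repeat first | rw [if_pos (by linarith)] | rw [if_neg (by linarith)] | erw [if_pos (by linarith)] | erw [if_neg (by linarith)]); (try push_cast); (try ring1))
  · ((try push_cast); (repeat first | rw [if_pos (by linarith)] | rw [if_neg (by linarith)] | erw [if_pos (by linarith)] | erw [if_neg (by linarith)]); (try push_cast); (try ring1))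
theorem kvh0 {p x : ℝ} (h2 : p ≤ -89 / 200) : dt29.kv p x = (74296128317 / 11000000000 + (x - 22 / 25) * (3778428843 / 17187500)) + (4074801893 / 110000000 + (x - 22 / 25) * (270214001 / 275000)) * p + (86603 / 2000 + (x - 22 / 25) * (108253 / 100)) * p ^ 2 := by
  refine (DT.kv_le (by simp only [Cn.rt_v, Cn.ng_v]; push_cast; linarith)).trans ?_
  refine (DT.kv_le (by simp only [Cn.rt_v, Cn.ng_v]; push_cast; linarith)).trans ?_
  refine (DT.kv_le (by simp only [Cn.rt_v, Cn.ng_v]; push_cast; linarith)).trans ?_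
  simp only [dt1, DT.kv, sw1, sl1, sv1]
  ((try push_cast); ring1)
theorem kvh1 {p x : ℝ} (h1 : -89 / 200 < p) (h2 : p ≤ -83 / 200) : dt29.kv p x = (8105032159 / 1200000000 + (x - 22 / 25) * (3341309779 / 600000000)) + (555654803 / 15000000 + (x - 22 / 25) * (58795703 / 3000000)) * p + (86603 / 2000 + (x - 22 / 25) * (51 / 100)) * p ^ 2 := by
  refine (DT.kv_le (by simp only [Cn.rt_v, Cn.ng_v]; push_cast; linarith)).trans ?_
  refine (DT.kv_le (by simp only [Cn.rt_v, Cn.ng_v]; push_cast; linarith)).trans ?_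
  refine (DT.kv_gt (by simp only [Cn.rt_v, Cn.ng_v]; push_cast; linarith)).trans ?_
  refine (DT.kv_le (by simp only [Cn.rt_v, Cn.ng_v]; push_cast; linarith)).trans ?_
  simp only [dt2, DT.kv, sw2, sl2, sv2]
  ((try push_cast); ring1)
theorem kvh2 {p x : ℝ} (h1 : -83 / 200 < p) (h2 : p ≤ -671 / 1729) : dt29.kv p x = (1325453062082529 / 196241500000000 + (x - 22 / 25) * (-8624704098176731 / 1609180300000000)) + (145390042940953 / 3924830000000 + (x - 22 / 25) * (-532141162333799 / 16091803000000)) * p + (86603 / 2000 + (x - 22 / 25) * (-12589 / 200)) * p ^ 2 := by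
  refine (DT.kv_le (by simp only [Cn.rt_v, Cn.ng_v]; push_cast; linarith)).trans ?_
  refine (DT.kv_le (by simp only [Cn.rt_v, Cn.ng_v]; push_cast; linarith)).trans ?_
  refine (DT.kv_gt (by simp only [Cn.rt_v, Cn.ng_v]; push_cast; linarith)).trans ?_
  refine (DT.kv_gt (by simp only [Cn.rt_v, Cn.ng_v]; push_cast; linarith)).trans ?_
  simp only [dt3, DT.kv, sw3, sl3, sv3]
  ((try push_cast); ring1)
theorem kvh3 {p x : ℝ} (h1 : -671 / 1729 < p) (h2 : p ≤ -767 / 2689) : dt29.kv p x = (601910021961317271 / 1781389897000000000 + (x - 22 / 25) * (-1906319222899762191 / 356277979400000000)) + (92104460992986412063 / 23158068661000000000 + (x - 22 / 25) * (-152947522074509244111 / 4631613732200000000)) * p + (1399 / 2000 + (x - 22 / 25) * (-12577 / 200)) * p ^ 2 := by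
  refine (DT.kv_le (by simp only [Cn.rt_v, Cn.ng_v]; push_cast; linarith)).trans ?_
  refine (DT.kv_gt (by simp only [Cn.rt_v, Cn.ng_v]; push_cast; linarith)).trans ?_
  refine (DT.kv_le (by simp only [Cn.rt_v, Cn.ng_v]; push_cast; linarith)).trans ?_
  refine (DT.kv_le (by simp only [Cn.rt_v, Cn.ng_v]; push_cast; linarith)).trans ?_
  simp only [dt4, DT.kv, sw4, sl4, sv4]
  ((try push_cast); ring1)
theorem kvh4 {p x : ℝ} (h1 : -767 / 2689 < p) (h2 : p ≤ -6 / 25) : dt29.kv p x = (-706710571288611 / 2044312250000000 + (x - 22 / 25) * (-67328720308009 / 16354498000000)) + (-133436350419537 / 163544980000000 + (x - 22 / 25) * (-31886430034483 / 1308359840000)) * p + (-3081 / 400 + (x - 22 / 25) * (-1193 / 25)) * p ^ 2 := by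
  refine (DT.kv_le (by simp only [Cn.rt_v, Cn.ng_v]; push_cast; linarith)).trans ?_
  refine (DT.kv_gt (by simp only [Cn.rt_v, Cn.ng_v]; push_cast; linarith)).trans ?_
  refine (DT.kv_le (by simp only [Cn.rt_v, Cn.ng_v]; push_cast; linarith)).trans ?_
  refine (DT.kv_gt (by simp only [Cn.rt_v, Cn.ng_v]; push_cast; linarith)).trans ?_
  simp only [dt5, DT.kv, sw5, sl5, sv5]
  ((try push_cast); ring1)
theorem kvh5 {p x : ℝ} (h1 : -6 / 25 < p) (h2 : p ≤ -4 / 25) : dt29.kv p x = (-10803 / 31250 + (x - 22 / 25) * (-21373 / 15625)) + (-8159 / 10000 + (x - 22 / 25) * (-14633 / 10000)) * p + (-3081 / 400 + (x - 22 / 25) * (1 / 200)) * p ^ 2 := by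
  refine (DT.kv_le (by simp only [Cn.rt_v, Cn.ng_v]; push_cast; linarith)).trans ?_
  refine (DT.kv_gt (by simp only [Cn.rt_v, Cn.ng_v]; push_cast; linarith)).trans ?_
  refine (DT.kv_gt (by simp only [Cn.rt_v, Cn.ng_v]; push_cast; linarith)).trans ?_
  refine (DT.kv_le (by simp only [Cn.rt_v, Cn.ng_v]; push_cast; linarith)).trans ?_
  simp only [dt6, DT.kv, sw6, sl6, sv6]
  ((try push_cast); ring1)
theorem kvh6 {p x : ℝ} (h1 : -4 / 25 < p) (h2 : p ≤ -2 / 25) : dt29.kv p x = (1547 / 31250 + (x - 22 / 25) * (57 / 125)) + (41241 / 10000 + (x - 22 / 25) * (213351 / 10000)) * p + (1547 / 200 + (x - 22 / 25) * (285 / 4)) * p ^ 2 := by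
  refine (DT.kv_le (by simp only [Cn.rt_v, Cn.ng_v]; push_cast; linarith)).trans ?_
  refine (DT.kv_gt (by simp only [Cn.rt_v, Cn.ng_v]; push_cast; linarith)).trans ?_
  refine (DT.kv_gt (by simp only [Cn.rt_v, Cn.ng_v]; push_cast; linarith)).trans ?_
  refine (DT.kv_gt (by simp only [Cn.rt_v, Cn.ng_v]; push_cast; linarith)).trans ?_
  simp only [dt7, DT.kv, sw7, sl7, sv7]
  ((try push_cast); ring1)
theorem kvh7 {p x : ℝ} (h1 : -2 / 25 < p) (h2 : p ≤ 2 / 25) : dt29.kv p x = (0) + (5773 / 2000 + (x - 22 / 25) * (99351 / 10000)) * p := by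
  refine (DT.kv_gt (by simp only [Cn.rt_v, Cn.ng_v]; push_cast; linarith)).trans ?_
  refine (DT.kv_le (by simp only [Cn.rt_v, Cn.ng_v]; push_cast; linarith)).trans ?_
  refine (DT.kv_le (by simp only [Cn.rt_v, Cn.ng_v]; push_cast; linarith)).trans ?_
  refine (DT.kv_le (by simp only [Cn.rt_v, Cn.ng_v]; push_cast; linarith)).trans ?_
  simp only [dt8, DT.kv, sl8, sv8]
  ((try push_cast); ring1)
theorem kvh8 {p x : ℝ} (h1 : 2 / 25 < p) (h2 : p ≤ 4 / 25) : dt29.kv p x = (-1547 / 31250 + (x - 22 / 25) * (-57 / 125)) + (41241 / 10000 + (x - 22 / 25) * (213351 / 10000)) * p + (-1547 / 200 + (x - 22 / 25) * (-285 / 4)) * p ^ 2 := by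
  refine (DT.kv_gt (by simp only [Cn.rt_v, Cn.ng_v]; push_cast; linarith)).trans ?_
  refine (DT.kv_le (by simp only [Cn.rt_v, Cn.ng_v]; push_cast; linarith)).trans ?_
  refine (DT.kv_le (by simp only [Cn.rt_v, Cn.ng_v]; push_cast; linarith)).trans ?_
  refine (DT.kv_gt (by simp only [Cn.rt_v, Cn.ng_v]; push_cast; linarith)).trans ?_
  simp only [dt9, DT.kv, sw9, sl9, sv9]
  ((try push_cast); ring1)
theorem kvh9 {p x : ℝ} (h1 : 4 / 25 < p) (h2 : p ≤ 6 / 25) : dt29.kv p x = (10803 / 31250 + (x - 22 / 25) * (21373 / 15625)) + (-8159 / 10000 + (x - 22 / 25) * (-14633 / 10000)) * p + (3081 / 400 + (x - 22 / 25) * (-1 / 200)) * p ^ 2 := by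
  refine (DT.kv_gt (by simp only [Cn.rt_v, Cn.ng_v]; push_cast; linarith)).trans ?_
  refine (DT.kv_le (by simp only [Cn.rt_v, Cn.ng_v]; push_cast; linarith)).trans ?_
  refine (DT.kv_gt (by simp only [Cn.rt_v, Cn.ng_v]; push_cast; linarith)).trans ?_
  refine (DT.kv_le (by simp only [Cn.rt_v, Cn.ng_v]; push_cast; linarith)).trans ?_
  simp only [dt10, DT.kv, sw10, sl10, sv10]
  ((try push_cast); ring1)
theorem kvh10 {p x : ℝ} (h1 : 6 / 25 < p) (h2 : p ≤ 767 / 2689) : dt29.kv p x = (706710571288611 / 2044312250000000 + (x - 22 / 25) * (67328720308009 / 16354498000000)) + (-133436350419537 / 163544980000000 + (x - 22 / 25) * (-31886430034483 / 1308359840000)) * p + (3081 / 400 + (x - 22 / 25) * (1193 / 25)) * p ^ 2 := by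
  refine (DT.kv_gt (by simp only [Cn.rt_v, Cn.ng_v]; push_cast; linarith)).trans ?_
  refine (DT.kv_le (by simp only [Cn.rt_v, Cn.ng_v]; push_cast; linarith)).trans ?_
  refine (DT.kv_gt (by simp only [Cn.rt_v, Cn.ng_v]; push_cast; linarith)).trans ?_
  refine (DT.kv_gt (by simp only [Cn.rt_v, Cn.ng_v]; push_cast; linarith)).trans ?_
  simp only [dt11, DT.kv, sw11, sl11, sv11]
  ((try push_cast); ring1)
theorem kvh11 {p x : ℝ} (h1 : 767 / 2689 < p) (h2 : p ≤ 671 / 1729) : dt29.kv p x = (-601910021961317271 / 1781389897000000000 + (x - 22 / 25) * (1906319222899762191 / 356277979400000000)) + (92104460992986412063 / 23158068661000000000 + (x - 22 / 25) * (-152947522074509244111 / 4631613732200000000)) * p + (-1399 / 2000 + (x - 22 / 25) * (12577 / 200)) * p ^ 2 := by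
  refine (DT.kv_gt (by simp only [Cn.rt_v, Cn.ng_v]; push_cast; linarith)).trans ?_
  refine (DT.kv_gt (by simp only [Cn.rt_v, Cn.ng_v]; push_cast; linarith)).trans ?_
  refine (DT.kv_le (by simp only [Cn.rt_v, Cn.ng_v]; push_cast; linarith)).trans ?_
  refine (DT.kv_le (by simp only [Cn.rt_v, Cn.ng_v]; push_cast; linarith)).trans ?_
  simp only [dt12, DT.kv, sw12, sl12, sv12]
  ((try push_cast); ring1)
theorem kvh12 {p x : ℝ} (h1 : 671 / 1729 < p) (h2 : p ≤ 83 / 200) : dt29.kv p x = (-1325453062082529 / 196241500000000 + (x - 22 / 25) * (8624704098176731 / 1609180300000000)) + (145390042940953 / 3924830000000 + (x - 22 / 25) * (-532141162333799 / 16091803000000)) * p + (-86603 / 2000 + (x - 22 / 25) * (12589 / 200)) * p ^ 2 := by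
  refine (DT.kv_gt (by simp only [Cn.rt_v, Cn.ng_v]; push_cast; linarith)).trans ?_
  refine (DT.kv_gt (by simp only [Cn.rt_v, Cn.ng_v]; push_cast; linarith)).trans ?_
  refine (DT.kv_le (by simp only [Cn.rt_v, Cn.ng_v]; push_cast; linarith)).trans ?_
  refine (DT.kv_gt (by simp only [Cn.rt_v, Cn.ng_v]; push_cast; linarith)).trans ?_
  simp only [dt13, DT.kv, sw13, sl13, sv13]
  ((try push_cast); ring1)
theorem kvh13 {p x : ℝ} (h1 : 83 / 200 < p) (h2 : p ≤ 89 / 200) : dt29.kv p x = (-8105032159 / 1200000000 + (x - 22 / 25) * (-3341309779 / 600000000)) + (555654803 / 15000000 + (x - 22 / 25) * (58795703 / 3000000)) * p + (-86603 / 2000 + (x - 22 / 25) * (-51 / 100)) * p ^ 2 := by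
  refine (DT.kv_gt (by simp only [Cn.rt_v, Cn.ng_v]; push_cast; linarith)).trans ?_
  refine (DT.kv_gt (by simp only [Cn.rt_v, Cn.ng_v]; push_cast; linarith)).trans ?_
  refine (DT.kv_gt (by simp only [Cn.rt_v, Cn.ng_v]; push_cast; linarith)).trans ?_
  refine (DT.kv_le (by simp only [Cn.rt_v, Cn.ng_v]; push_cast; linarith)).trans ?_
  simp only [dt14, DT.kv, sw14, sl14, sv14]
  ((try push_cast); ring1)
theorem kvh14 {p x : ℝ} (h1 : 89 / 200 < p) (h2 : p ≤ 1 / 2) : dt29.kv p x = (-74296128317 / 11000000000 + (x - 22 / 25) * (-3778428843 / 17187500)) + (4074801893 / 110000000 + (x - 22 / 25) * (270214001 / 275000)) * p + (-86603 / 2000 + (x - 22 / 25) * (-108253 / 100)) * p ^ 2 := by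
  refine (DT.kv_gt (by simp only [Cn.rt_v, Cn.ng_v]; push_cast; linarith)).trans ?_
  refine (DT.kv_gt (by simp only [Cn.rt_v, Cn.ng_v]; push_cast; linarith)).trans ?_
  refine (DT.kv_gt (by simp only [Cn.rt_v, Cn.ng_v]; push_cast; linarith)).trans ?_
  refine (DT.kv_gt (by simp only [Cn.rt_v, Cn.ng_v]; push_cast; linarith)).trans ?_
  simp only [dt15, DT.kv, sw15, sl15, sv15]
  ((try push_cast); ring1)
theorem kvl0 {p x : ℝ} (h1 : -1 / 2 ≤ p) (h2 : p ≤ -89 / 200) : dt29.kv p x = (74296128317 / 11000000000 + (x - 22 / 25) * (3778428843 / 17187500)) + (4074801893 / 110000000 + (x - 22 / 25) * (270214001 / 275000)) * p + (86603 / 2000 + (x - 22 / 25) * (108253 / 100)) * p ^ 2 := by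
  exact kvh0 h2
theorem kvl1 {p x : ℝ} (h1 : -89 / 200 ≤ p) (h2 : p ≤ -83 / 200) : dt29.kv p x = (8105032159 / 1200000000 + (x - 22 / 25) * (3341309779 / 600000000)) + (555654803 / 15000000 + (x - 22 / 25) * (58795703 / 3000000)) * p + (86603 / 2000 + (x - 22 / 25) * (51 / 100)) * p ^ 2 := by
  rcases eq_or_lt_of_le h1 with h | h1
  · subst h
    rw [kvh0 (by norm_num)]
    ring1
  · exact kvh1 h1 h2
theorem kvl2 {p x : ℝ} (h1 : -83 / 200 ≤ p) (h2 : p ≤ -671 / 1729) : dt29.kv p x = (1325453062082529 / 196241500000000 + (x - 22 / 25) * (-8624704098176731 / 1609180300000000)) + (145390042940953 / 3924830000000 + (x - 22 / 25) * (-532141162333799 / 16091803000000)) * p + (86603 / 2000 + (x - 22 / 25) * (-12589 / 200)) * p ^ 2 := by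
  rcases eq_or_lt_of_le h1 with h | h1
  · subst h
    rw [kvh1 (by norm_num) (by norm_num)]
    ring1
  · exact kvh2 h1 h2
theorem kvl3 {p x : ℝ} (h1 : -671 / 1729 ≤ p) (h2 : p ≤ -767 / 2689) : dt29.kv p x = (601910021961317271 / 1781389897000000000 + (x - 22 / 25) * (-1906319222899762191 / 356277979400000000)) + (92104460992986412063 / 23158068661000000000 + (x - 22 / 25) * (-152947522074509244111 / 4631613732200000000)) * p + (1399 / 2000 + (x - 22 / 25) * (-12577 / 200)) * p ^ 2 := by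
  rcases eq_or_lt_of_le h1 with h | h1
  · subst h
    rw [kvh2 (by norm_num) (by norm_num)]
    ring1
  · exact kvh3 h1 h2
theorem kvl4 {p x : ℝ} (h1 : -767 / 2689 ≤ p) (h2 : p ≤ -6 / 25) : dt29.kv p x = (-706710571288611 / 2044312250000000 + (x - 22 / 25) * (-67328720308009 / 16354498000000)) + (-133436350419537 / 163544980000000 + (x - 22 / 25) * (-31886430034483 / 1308359840000)) * p + (-3081 / 400 + (x - 22 / 25) * (-1193 / 25)) * p ^ 2 := by
  rcases eq_or_lt_of_le h1 with h | h1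
  · subst h
    rw [kvh3 (by norm_num) (by norm_num)]
    ring1
  · exact kvh4 h1 h2
theorem kvl5 {p x : ℝ} (h1 : -6 / 25 ≤ p) (h2 : p ≤ -4 / 25) : dt29.kv p x = (-10803 / 31250 + (x - 22 / 25) * (-21373 / 15625)) + (-8159 / 10000 + (x - 22 / 25) * (-14633 / 10000)) * p + (-3081 / 400 + (x - 22 / 25) * (1 / 200)) * p ^ 2 := by
  rcases eq_or_lt_of_le h1 with h | h1
  · subst h
    rw [kvh4 (by norm_num) (by norm_num)]
    ring1
  · exact kvh5 h1 h2
theorem kvl6 {p x : ℝ} (h1 : -4 / 25 ≤ p) (h2 : p ≤ -2 / 25) : dt29.kv p x = (1547 / 31250 + (x - 22 / 25) * (57 / 125)) + (41241 / 10000 + (x - 22 / 25) * (213351 / 10000)) * p + (1547 / 200 + (x - 22 / 25) * (285 / 4)) * p ^ 2 := by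
  rcases eq_or_lt_of_le h1 with h | h1
  · subst h
    rw [kvh5 (by norm_num) (by norm_num)]
    ring1
  · exact kvh6 h1 h2
theorem kvl7 {p x : ℝ} (h1 : -2 / 25 ≤ p) (h2 : p ≤ 2 / 25) : dt29.kv p x = (0) + (5773 / 2000 + (x - 22 / 25) * (99351 / 10000)) * p := by
  rcases eq_or_lt_of_le h1 with h | h1
  · subst h
    rw [kvh6 (by norm_num) (by norm_num)]
    ring1
  · exact kvh7 h1 h2
theorem kvl8 {p x : ℝ} (h1 : 2 / 25 ≤ p) (h2 : p ≤ 4 / 25) : dt29.kv p x = (-1547 / 31250 + (x - 22 / 25) * (-57 / 125)) + (41241 / 10000 + (x - 22 / 25) * (213351 / 10000)) * p + (-1547 / 200 + (x - 22 / 25) * (-285 / 4)) * p ^ 2 := by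
  rcases eq_or_lt_of_le h1 with h | h1
  · subst h
    rw [kvh7 (by norm_num) (by norm_num)]
    ring1
  · exact kvh8 h1 h2
theorem kvl9 {p x : ℝ} (h1 : 4 / 25 ≤ p) (h2 : p ≤ 6 / 25) : dt29.kv p x = (10803 / 31250 + (x - 22 / 25) * (21373 / 15625)) + (-8159 / 10000 + (x - 22 / 25) * (-14633 / 10000)) * p + (3081 / 400 + (x - 22 / 25) * (-1 / 200)) * p ^ 2 := by
  rcases eq_or_lt_of_le h1 with h | h1
  · subst h
    rw [kvh8 (by norm_num) (by norm_num)]
    ring1
  · exact kvh9 h1 h2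
theorem kvl10 {p x : ℝ} (h1 : 6 / 25 ≤ p) (h2 : p ≤ 767 / 2689) : dt29.kv p x = (706710571288611 / 2044312250000000 + (x - 22 / 25) * (67328720308009 / 16354498000000)) + (-133436350419537 / 163544980000000 + (x - 22 / 25) * (-31886430034483 / 1308359840000)) * p + (3081 / 400 + (x - 22 / 25) * (1193 / 25)) * p ^ 2 := by
  rcases eq_or_lt_of_le h1 with h | h1
  · subst h
    rw [kvh9 (by norm_num) (by norm_num)]
    ring1
  · exact kvh10 h1 h2
theorem kvl11 {p x : ℝ} (h1 : 767 / 2689 ≤ p) (h2 : p ≤ 671 / 1729) : dt29.kv p x = (-601910021961317271 / 1781389897000000000 + (x - 22 / 25) * (1906319222899762191 / 356277979400000000)) + (92104460992986412063 / 23158068661000000000 + (x - 22 / 25) * (-152947522074509244111 / 4631613732200000000)) * p + (-1399 / 2000 + (x - 22 / 25) * (12577 / 200)) * p ^ 2 := by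
  rcases eq_or_lt_of_le h1 with h | h1
  · subst h
    rw [kvh10 (by norm_num) (by norm_num)]
    ring1
  · exact kvh11 h1 h2
theorem kvl12 {p x : ℝ} (h1 : 671 / 1729 ≤ p) (h2 : p ≤ 83 / 200) : dt29.kv p x = (-1325453062082529 / 196241500000000 + (x - 22 / 25) * (8624704098176731 / 1609180300000000)) + (145390042940953 / 3924830000000 + (x - 22 / 25) * (-532141162333799 / 16091803000000)) * p + (-86603 / 2000 + (x - 22 / 25) * (12589 / 200)) * p ^ 2 := by
  rcases eq_or_lt_of_le h1 with h | h1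
  · subst h
    rw [kvh11 (by norm_num) (by norm_num)]
    ring1
  · exact kvh12 h1 h2
theorem kvl13 {p x : ℝ} (h1 : 83 / 200 ≤ p) (h2 : p ≤ 89 / 200) : dt29.kv p x = (-8105032159 / 1200000000 + (x - 22 / 25) * (-3341309779 / 600000000)) + (555654803 / 15000000 + (x - 22 / 25) * (58795703 / 3000000)) * p + (-86603 / 2000 + (x - 22 / 25) * (-51 / 100)) * p ^ 2 := by
  rcases eq_or_lt_of_le h1 with h | h1
  · subst h
    rw [kvh12 (by norm_num) (by norm_num)]
    ring1
  · exact kvh13 h1 h2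
theorem kvl14 {p x : ℝ} (h1 : 89 / 200 ≤ p) (h2 : p ≤ 1 / 2) : dt29.kv p x = (-74296128317 / 11000000000 + (x - 22 / 25) * (-3778428843 / 17187500)) + (4074801893 / 110000000 + (x - 22 / 25) * (270214001 / 275000)) * p + (-86603 / 2000 + (x - 22 / 25) * (-108253 / 100)) * p ^ 2 := by
  rcases eq_or_lt_of_le h1 with h | h1
  · subst h
    rw [kvh13 (by norm_num) (by norm_num)]
    ring1
  · exact kvh14 h1 h2
theorem kfe {x p : ℝ} (h : |p| ≤ 1 / 2) : kcg.v p x = dt29.kv p x := by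
  obtain ⟨h1, h2⟩ := abs_le.1 h
  rcases le_total p (-89 / 200) with g0 | g1000
  · rw [kcl0 (by linarith) g0, kvl0 (by linarith) g0]
  rcases le_total p (-83 / 200) with g1 | g1001
  · rw [kcl1 g1000 g1, kvl1 g1000 g1]
  rcases le_total p (-671 / 1729) with g2 | g1002
  · rw [kcl2 g1001 g2, kvl2 g1001 g2]
  rcases le_total p (-767 / 2689) with g3 | g1003
  · rw [kcl3 g1002 g3, kvl3 g1002 g3]
  rcases le_total p (-6 / 25) with g4 | g1004
  · rw [kcl4 g1003 g4, kvl4 g1003 g4]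
  rcases le_total p (-4 / 25) with g5 | g1005
  · rw [kcl5 g1004 g5, kvl5 g1004 g5]
  rcases le_total p (-2 / 25) with g6 | g1006
  · rw [kcl6 g1005 g6, kvl6 g1005 g6]
  rcases le_total p (2 / 25) with g7 | g1007
  · rw [kcl7 g1006 g7, kvl7 g1006 g7]
  rcases le_total p (4 / 25) with g8 | g1008
  · rw [kcl8 g1007 g8, kvl8 g1007 g8]
  rcases le_total p (6 / 25) with g9 | g1009
  · rw [kcl9 g1008 g9, kvl9 g1008 g9]
  rcases le_total p (767 / 2689) with g10 | g1010
  · rw [kcl10 g1009 g10, kvl10 g1009 g10]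
  rcases le_total p (671 / 1729) with g11 | g1011
  · rw [kcl11 g1010 g11, kvl11 g1010 g11]
  rcases le_total p (83 / 200) with g12 | g1012
  · rw [kcl12 g1011 g12, kvl12 g1011 g12]
  rcases le_total p (89 / 200) with g13 | g1013
  · rw [kcl13 g1012 g13, kvl13 g1012 g13]
  · rw [kcl14 g1013 (by linarith), kvl14 g1013 (by linarith)]
theorem odd {x p : ℝ} (h : |p| ≤ 1 / 2) : kcg.v (-p) x = -kcg.v p x := by
  obtain ⟨h1, h2⟩ := abs_le.1 h
  rcases le_total p (-89 / 200) with g0 | g1000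
  · rw [kcl0 (by linarith) g0, kcl14 (p := -p) (by linarith) (by linarith)]; ring
  rcases le_total p (-83 / 200) with g1 | g1001
  · rw [kcl1 g1000 g1, kcl13 (p := -p) (by linarith) (by linarith)]; ring
  rcases le_total p (-671 / 1729) with g2 | g1002
  · rw [kcl2 g1001 g2, kcl12 (p := -p) (by linarith) (by linarith)]; ring
  rcases le_total p (-767 / 2689) with g3 | g1003
  · rw [kcl3 g1002 g3, kcl11 (p := -p) (by linarith) (by linarith)]; ring
  rcases le_total p (-6 / 25) with g4 | g1004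
  · rw [kcl4 g1003 g4, kcl10 (p := -p) (by linarith) (by linarith)]; ring
  rcases le_total p (-4 / 25) with g5 | g1005
  · rw [kcl5 g1004 g5, kcl9 (p := -p) (by linarith) (by linarith)]; ring
  rcases le_total p (-2 / 25) with g6 | g1006
  · rw [kcl6 g1005 g6, kcl8 (p := -p) (by linarith) (by linarith)]; ring
  rcases le_total p (2 / 25) with g7 | g1007
  · rw [kcl7 g1006 g7, kcl7 (p := -p) (by linarith) (by linarith)]; ring
  rcases le_total p (4 / 25) with g8 | g1008
  · rw [kcl8 g1007 g8, kcl6 (p := -p) (by linarith) (by linarith)]; ring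
  rcases le_total p (6 / 25) with g9 | g1009
  · rw [kcl9 g1008 g9, kcl5 (p := -p) (by linarith) (by linarith)]; ring
  rcases le_total p (767 / 2689) with g10 | g1010
  · rw [kcl10 g1009 g10, kcl4 (p := -p) (by linarith) (by linarith)]; ring
  rcases le_total p (671 / 1729) with g11 | g1011
  · rw [kcl11 g1010 g11, kcl3 (p := -p) (by linarith) (by linarith)]; ring
  rcases le_total p (83 / 200) with g12 | g1012
  · rw [kcl12 g1011 g12, kcl2 (p := -p) (by linarith) (by linarith)]; ring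
  rcases le_total p (89 / 200) with g13 | g1013
  · rw [kcl13 g1012 g13, kcl1 (p := -p) (by linarith) (by linarith)]; ring
  · rw [kcl14 g1013 (by linarith), kcl0 (p := -p) (by linarith) (by linarith)]; ring
theorem ctA : cT (767 / 2689) = 3697 / 5378 := by
  unfold cT
  rw [show (3 / 4 * (1 - (767 / 2689 : ℝ) ^ 2)) = (2232 / 2689) ^ 2 by norm_num, Real.sqrt_sq (by norm_num)]
  norm_num
theorem ctB : cT (671 / 1729) = 2089 / 3458 := by
  unfold cT
  rw [show (3 / 4 * (1 - (671 / 1729 : ℝ) ^ 2)) = (1380 / 1729) ^ 2 by norm_num, Real.sqrt_sq (by norm_num)]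
  norm_num
theorem kgA {x : ℝ} : kcg.v (767 / 2689) x = (369822303 / 500000000 + (x - 22 / 25) * (4190957 / 4000000)) := by
  rw [kcl10 (by norm_num) (by norm_num)]
  ring
theorem kgB {x : ℝ} : kcg.v (671 / 1729) x = (550128687 / 500000000 + (x - 22 / 25) * (200622677 / 100000000)) := by
  rw [kcl11 (by norm_num) (by norm_num)]
  ring
theorem ka_dt1 (x : ℝ) : dt1.kv (-1 / 2) x = (-942258303 / 1000000000 + (x - 22 / 25) * (-2593199 / 3125000)) := by
  simp only [dt1, DT.kv, sw1, sl1, sv1]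
  ((try push_cast); ring1)
theorem kb_dt1 (x : ℝ) : dt1.kv (-89 / 200) x = (-1155452819 / 1000000000 + (x - 22 / 25) * (-305152023 / 100000000)) := by
  simp only [dt1, DT.kv, sw1, sl1, sv1]
  ((try push_cast); ring1)
theorem ka_dt2 (x : ℝ) : dt2.kv (-89 / 200) x = (-1155452819 / 1000000000 + (x - 22 / 25) * (-305152023 / 100000000)) := by
  simp only [dt2, DT.kv, sw2, sl2, sv2]
  ((try push_cast); ring1)
theorem kb_dt2 (x : ℝ) : dt2.kv (-83 / 200) x = (-1161321913 / 1000000000 + (x - 22 / 25) * (-6191803 / 2500000)) := by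
  simp only [dt2, DT.kv, sw2, sl2, sv2]
  ((try push_cast); ring1)
theorem ka_dt3 (x : ℝ) : dt3.kv (-83 / 200) x = (-1161321913 / 1000000000 + (x - 22 / 25) * (-6191803 / 2500000)) := by
  simp only [dt3, DT.kv, sw3, sl3, sv3]
  ((try push_cast); ring1)
theorem kb_dt3 (x : ℝ) : dt3.kv (-671 / 1729) x = (-550128687 / 500000000 + (x - 22 / 25) * (-200622677 / 100000000)) := by
  simp only [dt3, DT.kv, sw3, sl3, sv3]
  ((try push_cast); ring1)
theorem ka_dt16 (x : ℝ) : dt16.kv (-89 / 200) x = (-1155452819 / 1000000000 + (x - 22 / 25) * (-305152023 / 100000000)) :=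
  (DT.kv_le (by simp only [Cn.rt_v, Cn.ng_v]; norm_num)).trans (ka_dt2 x)
theorem kb_dt16 (x : ℝ) : dt16.kv (-671 / 1729) x = (-550128687 / 500000000 + (x - 22 / 25) * (-200622677 / 100000000)) :=
  (DT.kv_gt (by simp only [Cn.rt_v, Cn.ng_v]; norm_num)).trans (kb_dt3 x)
theorem ka_dt17 (x : ℝ) : dt17.kv (-1 / 2) x = (-942258303 / 1000000000 + (x - 22 / 25) * (-2593199 / 3125000)) :=
  (DT.kv_le (by simp only [Cn.rt_v, Cn.ng_v]; norm_num)).trans (ka_dt1 x)
theorem kb_dt17 (x : ℝ) : dt17.kv (-671 / 1729) x = (-550128687 / 500000000 + (x - 22 / 25) * (-200622677 / 100000000)) :=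
  (DT.kv_gt (by simp only [Cn.rt_v, Cn.ng_v]; norm_num)).trans (kb_dt16 x)
theorem ka_dt4 (x : ℝ) : dt4.kv (-671 / 1729) x = (-550128687 / 500000000 + (x - 22 / 25) * (-200622677 / 100000000)) := by
  simp only [dt4, DT.kv, sw4, sl4, sv4]
  ((try push_cast); ring1)
theorem kb_dt4 (x : ℝ) : dt4.kv (-767 / 2689) x = (-369822303 / 500000000 + (x - 22 / 25) * (-4190957 / 4000000)) := by
  simp only [dt4, DT.kv, sw4, sl4, sv4]
  ((try push_cast); ring1)
theorem ka_dt5 (x : ℝ) : dt5.kv (-767 / 2689) x = (-369822303 / 500000000 + (x - 22 / 25) * (-4190957 / 4000000)) := by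
  simp only [dt5, DT.kv, sw5, sl5, sv5]
  ((try push_cast); ring1)
theorem kb_dt5 (x : ℝ) : dt5.kv (-6 / 25) x = (-74193 / 125000 + (x - 22 / 25) * (-127049 / 125000)) := by
  simp only [dt5, DT.kv, sw5, sl5, sv5]
  ((try push_cast); ring1)
theorem ka_dt18 (x : ℝ) : dt18.kv (-671 / 1729) x = (-550128687 / 500000000 + (x - 22 / 25) * (-200622677 / 100000000)) :=
  (DT.kv_le (by simp only [Cn.rt_v, Cn.ng_v]; norm_num)).trans (ka_dt4 x)
theorem kb_dt18 (x : ℝ) : dt18.kv (-6 / 25) x = (-74193 / 125000 + (x - 22 / 25) * (-127049 / 125000)) :=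
  (DT.kv_gt (by simp only [Cn.rt_v, Cn.ng_v]; norm_num)).trans (kb_dt5 x)
theorem ka_dt6 (x : ℝ) : dt6.kv (-6 / 25) x = (-74193 / 125000 + (x - 22 / 25) * (-127049 / 125000)) := by
  simp only [dt6, DT.kv, sw6, sl6, sv6]
  ((try push_cast); ring1)
theorem kb_dt6 (x : ℝ) : dt6.kv (-4 / 25) x = (-25771 / 62500 + (x - 22 / 25) * (-70851 / 62500)) := by
  simp only [dt6, DT.kv, sw6, sl6, sv6]
  ((try push_cast); ring1)
theorem ka_dt7 (x : ℝ) : dt7.kv (-4 / 25) x = (-25771 / 62500 + (x - 22 / 25) * (-70851 / 62500)) := by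
  simp only [dt7, DT.kv, sw7, sl7, sv7]
  ((try push_cast); ring1)
theorem kb_dt7 (x : ℝ) : dt7.kv (-2 / 25) x = (-5773 / 25000 + (x - 22 / 25) * (-99351 / 125000)) := by
  simp only [dt7, DT.kv, sw7, sl7, sv7]
  ((try push_cast); ring1)
theorem ka_dt19 (x : ℝ) : dt19.kv (-6 / 25) x = (-74193 / 125000 + (x - 22 / 25) * (-127049 / 125000)) :=
  (DT.kv_le (by simp only [Cn.rt_v, Cn.ng_v]; norm_num)).trans (ka_dt6 x)
theorem kb_dt19 (x : ℝ) : dt19.kv (-2 / 25) x = (-5773 / 25000 + (x - 22 / 25) * (-99351 / 125000)) :=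
  (DT.kv_gt (by simp only [Cn.rt_v, Cn.ng_v]; norm_num)).trans (kb_dt7 x)
theorem ka_dt20 (x : ℝ) : dt20.kv (-671 / 1729) x = (-550128687 / 500000000 + (x - 22 / 25) * (-200622677 / 100000000)) :=
  (DT.kv_le (by simp only [Cn.rt_v, Cn.ng_v]; norm_num)).trans (ka_dt18 x)
theorem kb_dt20 (x : ℝ) : dt20.kv (-2 / 25) x = (-5773 / 25000 + (x - 22 / 25) * (-99351 / 125000)) :=
  (DT.kv_gt (by simp only [Cn.rt_v, Cn.ng_v]; norm_num)).trans (kb_dt19 x)
theorem ka_dt21 (x : ℝ) : dt21.kv (-1 / 2) x = (-942258303 / 1000000000 + (x - 22 / 25) * (-2593199 / 3125000)) :=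
  (DT.kv_le (by simp only [Cn.rt_v, Cn.ng_v]; norm_num)).trans (ka_dt17 x)
theorem kb_dt21 (x : ℝ) : dt21.kv (-2 / 25) x = (-5773 / 25000 + (x - 22 / 25) * (-99351 / 125000)) :=
  (DT.kv_gt (by simp only [Cn.rt_v, Cn.ng_v]; norm_num)).trans (kb_dt20 x)
theorem ka_dt8 (x : ℝ) : dt8.kv (-2 / 25) x = (-5773 / 25000 + (x - 22 / 25) * (-99351 / 125000)) := by
  simp only [dt8, DT.kv, sl8, sv8]
  ((try push_cast); ring1)
theorem kb_dt8 (x : ℝ) : dt8.kv (2 / 25) x = (5773 / 25000 + (x - 22 / 25) * (99351 / 125000)) := by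
  simp only [dt8, DT.kv, sl8, sv8]
  ((try push_cast); ring1)
theorem ka_dt9 (x : ℝ) : dt9.kv (2 / 25) x = (5773 / 25000 + (x - 22 / 25) * (99351 / 125000)) := by
  simp only [dt9, DT.kv, sw9, sl9, sv9]
  ((try push_cast); ring1)
theorem kb_dt9 (x : ℝ) : dt9.kv (4 / 25) x = (25771 / 62500 + (x - 22 / 25) * (70851 / 62500)) := by
  simp only [dt9, DT.kv, sw9, sl9, sv9]
  ((try push_cast); ring1)
theorem ka_dt22 (x : ℝ) : dt22.kv (-2 / 25) x = (-5773 / 25000 + (x - 22 / 25) * (-99351 / 125000)) :=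
  (DT.kv_le (by simp only [Cn.rt_v, Cn.ng_v]; norm_num)).trans (ka_dt8 x)
theorem kb_dt22 (x : ℝ) : dt22.kv (4 / 25) x = (25771 / 62500 + (x - 22 / 25) * (70851 / 62500)) :=
  (DT.kv_gt (by simp only [Cn.rt_v, Cn.ng_v]; norm_num)).trans (kb_dt9 x)
theorem ka_dt10 (x : ℝ) : dt10.kv (4 / 25) x = (25771 / 62500 + (x - 22 / 25) * (70851 / 62500)) := by
  simp only [dt10, DT.kv, sw10, sl10, sv10]
  ((try push_cast); ring1)
theorem kb_dt10 (x : ℝ) : dt10.kv (6 / 25) x = (74193 / 125000 + (x - 22 / 25) * (127049 / 125000)) := by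
  simp only [dt10, DT.kv, sw10, sl10, sv10]
  ((try push_cast); ring1)
theorem ka_dt11 (x : ℝ) : dt11.kv (6 / 25) x = (74193 / 125000 + (x - 22 / 25) * (127049 / 125000)) := by
  simp only [dt11, DT.kv, sw11, sl11, sv11]
  ((try push_cast); ring1)
theorem kb_dt11 (x : ℝ) : dt11.kv (767 / 2689) x = (369822303 / 500000000 + (x - 22 / 25) * (4190957 / 4000000)) := by
  simp only [dt11, DT.kv, sw11, sl11, sv11]
  ((try push_cast); ring1)
theorem ka_dt23 (x : ℝ) : dt23.kv (4 / 25) x = (25771 / 62500 + (x - 22 / 25) * (70851 / 62500)) :=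
  (DT.kv_le (by simp only [Cn.rt_v, Cn.ng_v]; norm_num)).trans (ka_dt10 x)
theorem kb_dt23 (x : ℝ) : dt23.kv (767 / 2689) x = (369822303 / 500000000 + (x - 22 / 25) * (4190957 / 4000000)) :=
  (DT.kv_gt (by simp only [Cn.rt_v, Cn.ng_v]; norm_num)).trans (kb_dt11 x)
theorem ka_dt24 (x : ℝ) : dt24.kv (-2 / 25) x = (-5773 / 25000 + (x - 22 / 25) * (-99351 / 125000)) :=
  (DT.kv_le (by simp only [Cn.rt_v, Cn.ng_v]; norm_num)).trans (ka_dt22 x)
theorem kb_dt24 (x : ℝ) : dt24.kv (767 / 2689) x = (369822303 / 500000000 + (x - 22 / 25) * (4190957 / 4000000)) :=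
  (DT.kv_gt (by simp only [Cn.rt_v, Cn.ng_v]; norm_num)).trans (kb_dt23 x)
theorem ka_dt12 (x : ℝ) : dt12.kv (767 / 2689) x = (369822303 / 500000000 + (x - 22 / 25) * (4190957 / 4000000)) := by
  simp only [dt12, DT.kv, sw12, sl12, sv12]
  ((try push_cast); ring1)
theorem kb_dt12 (x : ℝ) : dt12.kv (671 / 1729) x = (550128687 / 500000000 + (x - 22 / 25) * (200622677 / 100000000)) := by
  simp only [dt12, DT.kv, sw12, sl12, sv12]
  ((try push_cast); ring1)
theorem ka_dt13 (x : ℝ) : dt13.kv (671 / 1729) x = (550128687 / 500000000 + (x - 22 / 25) * (200622677 / 100000000)) := by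
  simp only [dt13, DT.kv, sw13, sl13, sv13]
  ((try push_cast); ring1)
theorem kb_dt13 (x : ℝ) : dt13.kv (83 / 200) x = (1161321913 / 1000000000 + (x - 22 / 25) * (6191803 / 2500000)) := by
  simp only [dt13, DT.kv, sw13, sl13, sv13]
  ((try push_cast); ring1)
theorem ka_dt25 (x : ℝ) : dt25.kv (767 / 2689) x = (369822303 / 500000000 + (x - 22 / 25) * (4190957 / 4000000)) :=
  (DT.kv_le (by simp only [Cn.rt_v, Cn.ng_v]; norm_num)).trans (ka_dt12 x)
theorem kb_dt25 (x : ℝ) : dt25.kv (83 / 200) x = (1161321913 / 1000000000 + (x - 22 / 25) * (6191803 / 2500000)) :=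
  (DT.kv_gt (by simp only [Cn.rt_v, Cn.ng_v]; norm_num)).trans (kb_dt13 x)
theorem ka_dt14 (x : ℝ) : dt14.kv (83 / 200) x = (1161321913 / 1000000000 + (x - 22 / 25) * (6191803 / 2500000)) := by
  simp only [dt14, DT.kv, sw14, sl14, sv14]
  ((try push_cast); ring1)
theorem kb_dt14 (x : ℝ) : dt14.kv (89 / 200) x = (1155452819 / 1000000000 + (x - 22 / 25) * (305152023 / 100000000)) := by
  simp only [dt14, DT.kv, sw14, sl14, sv14]
  ((try push_cast); ring1)
theorem ka_dt15 (x : ℝ) : dt15.kv (89 / 200) x = (1155452819 / 1000000000 + (x - 22 / 25) * (305152023 / 100000000)) := by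
  simp only [dt15, DT.kv, sw15, sl15, sv15]
  ((try push_cast); ring1)
theorem kb_dt15 (x : ℝ) : dt15.kv (1 / 2) x = (942258303 / 1000000000 + (x - 22 / 25) * (2593199 / 3125000)) := by
  simp only [dt15, DT.kv, sw15, sl15, sv15]
  ((try push_cast); ring1)
theorem ka_dt26 (x : ℝ) : dt26.kv (83 / 200) x = (1161321913 / 1000000000 + (x - 22 / 25) * (6191803 / 2500000)) :=
  (DT.kv_le (by simp only [Cn.rt_v, Cn.ng_v]; norm_num)).trans (ka_dt14 x)
theorem kb_dt26 (x : ℝ) : dt26.kv (1 / 2) x = (942258303 / 1000000000 + (x - 22 / 25) * (2593199 / 3125000)) :=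
  (DT.kv_gt (by simp only [Cn.rt_v, Cn.ng_v]; norm_num)).trans (kb_dt15 x)
theorem ka_dt27 (x : ℝ) : dt27.kv (767 / 2689) x = (369822303 / 500000000 + (x - 22 / 25) * (4190957 / 4000000)) :=
  (DT.kv_le (by simp only [Cn.rt_v, Cn.ng_v]; norm_num)).trans (ka_dt25 x)
theorem kb_dt27 (x : ℝ) : dt27.kv (1 / 2) x = (942258303 / 1000000000 + (x - 22 / 25) * (2593199 / 3125000)) :=
  (DT.kv_gt (by simp only [Cn.rt_v, Cn.ng_v]; norm_num)).trans (kb_dt26 x)
theorem ka_dt28 (x : ℝ) : dt28.kv (-2 / 25) x = (-5773 / 25000 + (x - 22 / 25) * (-99351 / 125000)) :=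
  (DT.kv_le (by simp only [Cn.rt_v, Cn.ng_v]; norm_num)).trans (ka_dt24 x)
theorem kb_dt28 (x : ℝ) : dt28.kv (1 / 2) x = (942258303 / 1000000000 + (x - 22 / 25) * (2593199 / 3125000)) :=
  (DT.kv_gt (by simp only [Cn.rt_v, Cn.ng_v]; norm_num)).trans (kb_dt27 x)
theorem ka_dt29 (x : ℝ) : dt29.kv (-1 / 2) x = (-942258303 / 1000000000 + (x - 22 / 25) * (-2593199 / 3125000)) :=
  (DT.kv_le (by simp only [Cn.rt_v, Cn.ng_v]; norm_num)).trans (ka_dt21 x)
theorem kb_dt29 (x : ℝ) : dt29.kv (1 / 2) x = (942258303 / 1000000000 + (x - 22 / 25) * (2593199 / 3125000)) :=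
  (DT.kv_gt (by simp only [Cn.rt_v, Cn.ng_v]; norm_num)).trans (kb_dt28 x)
theorem ko_dt1 (x : ℝ) : dt1.KOk x := trivial
theorem ko_dt2 (x : ℝ) : dt2.KOk x := trivial
theorem ko_dt3 (x : ℝ) : dt3.KOk x := trivial
theorem ko_dt16 (x : ℝ) : dt16.KOk x :=
  DT.kOk_node (v := -83 / 200) (by simp only [Cn.rt_v, Cn.ng_v]; norm_num) (kb_dt2 x) (ka_dt3 x) (by ring1) (ko_dt2 x) (ko_dt3 x)
theorem ko_dt17 (x : ℝ) : dt17.KOk x :=
  DT.kOk_node (v := -89 / 200) (by simp only [Cn.rt_v, Cn.ng_v]; norm_num) (kb_dt1 x) (ka_dt16 x) (by ring1) (ko_dt1 x) (ko_dt16 x)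
theorem ko_dt4 (x : ℝ) : dt4.KOk x := trivial
theorem ko_dt5 (x : ℝ) : dt5.KOk x := trivial
theorem ko_dt18 (x : ℝ) : dt18.KOk x :=
  DT.kOk_node (v := -767 / 2689) (by simp only [Cn.rt_v, Cn.ng_v]; norm_num) (kb_dt4 x) (ka_dt5 x) (by ring1) (ko_dt4 x) (ko_dt5 x)
theorem ko_dt6 (x : ℝ) : dt6.KOk x := trivial
theorem ko_dt7 (x : ℝ) : dt7.KOk x := trivial
theorem ko_dt19 (x : ℝ) : dt19.KOk x :=
  DT.kOk_node (v := -4 / 25) (by simp only [Cn.rt_v, Cn.ng_v]; norm_num) (kb_dt6 x) (ka_dt7 x) (by ring1) (ko_dt6 x) (ko_dt7 x)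
theorem ko_dt20 (x : ℝ) : dt20.KOk x :=
  DT.kOk_node (v := -6 / 25) (by simp only [Cn.rt_v, Cn.ng_v]; norm_num) (kb_dt18 x) (ka_dt19 x) (by ring1) (ko_dt18 x) (ko_dt19 x)
theorem ko_dt21 (x : ℝ) : dt21.KOk x :=
  DT.kOk_node (v := -671 / 1729) (by simp only [Cn.rt_v, Cn.ng_v]; norm_num) (kb_dt17 x) (ka_dt20 x) (by ring1) (ko_dt17 x) (ko_dt20 x)
theorem ko_dt8 (x : ℝ) : dt8.KOk x := trivial
theorem ko_dt9 (x : ℝ) : dt9.KOk x := trivial
theorem ko_dt22 (x : ℝ) : dt22.KOk x :=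
  DT.kOk_node (v := 2 / 25) (by simp only [Cn.rt_v, Cn.ng_v]; norm_num) (kb_dt8 x) (ka_dt9 x) (by ring1) (ko_dt8 x) (ko_dt9 x)
theorem ko_dt10 (x : ℝ) : dt10.KOk x := trivial
theorem ko_dt11 (x : ℝ) : dt11.KOk x := trivial
theorem ko_dt23 (x : ℝ) : dt23.KOk x :=
  DT.kOk_node (v := 6 / 25) (by simp only [Cn.rt_v, Cn.ng_v]; norm_num) (kb_dt10 x) (ka_dt11 x) (by ring1) (ko_dt10 x) (ko_dt11 x)
theorem ko_dt24 (x : ℝ) : dt24.KOk x :=
  DT.kOk_node (v := 4 / 25) (by simp only [Cn.rt_v, Cn.ng_v]; norm_num) (kb_dt22 x) (ka_dt23 x) (by ring1) (ko_dt22 x) (ko_dt23 x)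
theorem ko_dt12 (x : ℝ) : dt12.KOk x := trivial
theorem ko_dt13 (x : ℝ) : dt13.KOk x := trivial
theorem ko_dt25 (x : ℝ) : dt25.KOk x :=
  DT.kOk_node (v := 671 / 1729) (by simp only [Cn.rt_v, Cn.ng_v]; norm_num) (kb_dt12 x) (ka_dt13 x) (by ring1) (ko_dt12 x) (ko_dt13 x)
theorem ko_dt14 (x : ℝ) : dt14.KOk x := trivial
theorem ko_dt15 (x : ℝ) : dt15.KOk x := trivial
theorem ko_dt26 (x : ℝ) : dt26.KOk x :=
  DT.kOk_node (v := 89 / 200) (by simp only [Cn.rt_v, Cn.ng_v]; norm_num) (kb_dt14 x) (ka_dt15 x) (by ring1) (ko_dt14 x) (ko_dt15 x)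
theorem ko_dt27 (x : ℝ) : dt27.KOk x :=
  DT.kOk_node (v := 83 / 200) (by simp only [Cn.rt_v, Cn.ng_v]; norm_num) (kb_dt25 x) (ka_dt26 x) (by ring1) (ko_dt25 x) (ko_dt26 x)
theorem ko_dt28 (x : ℝ) : dt28.KOk x :=
  DT.kOk_node (v := 767 / 2689) (by simp only [Cn.rt_v, Cn.ng_v]; norm_num) (kb_dt24 x) (ka_dt27 x) (by ring1) (ko_dt24 x) (ko_dt27 x)
theorem ko_dt29 (x : ℝ) : dt29.KOk x :=
  DT.kOk_node (v := -2 / 25) (by simp only [Cn.rt_v, Cn.ng_v]; norm_num) (kb_dt21 x) (ka_dt28 x) (by ring1) (ko_dt21 x) (ko_dt28 x)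
theorem txl0 {p c x : ℝ} (h1 : -1 / 2 ≤ p) (h2 : p ≤ -9 / 20) : txg.v p c x = dt60.val (fun p x => kcg.v p x) p c x := by
  symm
  refine (DT.val_le (by simp only [Cn.rt_v, Cn.ng_v]; push_cast; linarith)).trans ?_
  refine (DT.val_le (by simp only [Cn.rt_v, Cn.ng_v]; push_cast; linarith)).trans ?_
  refine (DT.val_le (by simp only [Cn.rt_v, Cn.ng_v]; push_cast; linarith)).trans ?_
  refine (DT.val_le (by simp only [Cn.rt_v, Cn.ng_v]; push_cast; linarith)).trans ?_
  simp only [dt30, DT.val, cloR, sw30, sl30, sv30, txg, txg_4, txg_6, txg_26, txg_29, txg_32, txg_59, txg_98, txg_122, txg_167, txg_170, txg_189, txg_224, txg_226, txg_235, txg_254, txg_288, txg_309, txg_311]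
  rcases eq_or_lt_of_le h1 with h | h1
  · subst h
    ((try push_cast); (repeat first | rw [if_pos (by linarith)] | rw [if_neg (by linarith)] | erw [if_pos (by linarith)] | erw [if_neg (by linarith)]); (try push_cast); (try ring1))
  rcases eq_or_lt_of_le h2 with h | h2
  · subst h
    ((try push_cast); (repeat first | rw [if_pos (by linarith)] | rw [if_neg (by linarith)] | erw [if_pos (by linarith)] | erw [if_neg (by linarith)]); (try push_cast); (try ring1))
  · ((try push_cast); (repeat first | rw [if_pos (by linarith)] | rw [if_neg (by linarith)] | erw [if_pos (by linarith)] | erw [if_neg (by linarith)]); (try push_cast); (try ring1))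
theorem txl1 {p c x : ℝ} (h1 : -9 / 20 < p) (h2 : p ≤ -2 / 5) : txg.v p c x = dt60.val (fun p x => kcg.v p x) p c x := by
  symm
  refine (DT.val_le (by simp only [Cn.rt_v, Cn.ng_v]; push_cast; linarith)).trans ?_
  refine (DT.val_le (by simp only [Cn.rt_v, Cn.ng_v]; push_cast; linarith)).trans ?_
  refine (DT.val_le (by simp only [Cn.rt_v, Cn.ng_v]; push_cast; linarith)).trans ?_
  refine (DT.val_gt (by simp only [Cn.rt_v, Cn.ng_v]; push_cast; linarith)).trans ?_
  simp only [dt31, DT.val, cloR, sw31, sl31, sv31, txg, txg_4, txg_6, txg_26, txg_29, txg_32, txg_59, txg_98, txg_122, txg_167, txg_170, txg_189, txg_224, txg_226, txg_235, txg_254, txg_288, txg_309, txg_311]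
  rcases eq_or_lt_of_le h2 with h | h2
  · subst h
    ((try push_cast); (repeat first | rw [if_pos (by linarith)] | rw [if_neg (by linarith)] | erw [if_pos (by linarith)] | erw [if_neg (by linarith)]); (try push_cast); (try ring1))
  · ((try push_cast); (repeat first | rw [if_pos (by linarith)] | rw [if_neg (by linarith)] | erw [if_pos (by linarith)] | erw [if_neg (by linarith)]); (try push_cast); (try ring1))
theorem txl2 {p c x : ℝ} (h1 : -2 / 5 < p) (h2 : p ≤ -7 / 20) : txg.v p c x = dt60.val (fun p x => kcg.v p x) p c x := by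
  symm
  refine (DT.val_le (by simp only [Cn.rt_v, Cn.ng_v]; push_cast; linarith)).trans ?_
  refine (DT.val_le (by simp only [Cn.rt_v, Cn.ng_v]; push_cast; linarith)).trans ?_
  refine (DT.val_gt (by simp only [Cn.rt_v, Cn.ng_v]; push_cast; linarith)).trans ?_
  refine (DT.val_le (by simp only [Cn.rt_v, Cn.ng_v]; push_cast; linarith)).trans ?_
  simp only [dt32, DT.val, cloR, sw32, sl32, sv32, txg, txg_4, txg_6, txg_26, txg_29, txg_32, txg_59, txg_98, txg_122, txg_167, txg_170, txg_189, txg_224, txg_226, txg_235, txg_254, txg_288, txg_309, txg_311]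
  rcases eq_or_lt_of_le h2 with h | h2
  · subst h
    ((try push_cast); (repeat first | rw [if_pos (by linarith)] | rw [if_neg (by linarith)] | erw [if_pos (by linarith)] | erw [if_neg (by linarith)]); (try push_cast); (try ring1))
  · ((try push_cast); (repeat first | rw [if_pos (by linarith)] | rw [if_neg (by linarith)] | erw [if_pos (by linarith)] | erw [if_neg (by linarith)]); (try push_cast); (try ring1))
theorem txl3 {p c x : ℝ} (h1 : -7 / 20 < p) (h2 : p ≤ -3 / 10) : txg.v p c x = dt60.val (fun p x => kcg.v p x) p c x := by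
  symm
  refine (DT.val_le (by simp only [Cn.rt_v, Cn.ng_v]; push_cast; linarith)).trans ?_
  refine (DT.val_le (by simp only [Cn.rt_v, Cn.ng_v]; push_cast; linarith)).trans ?_
  refine (DT.val_gt (by simp only [Cn.rt_v, Cn.ng_v]; push_cast; linarith)).trans ?_
  refine (DT.val_gt (by simp only [Cn.rt_v, Cn.ng_v]; push_cast; linarith)).trans ?_
  simp only [dt33, DT.val, cloR, sw33, sl33, sv33, txg, txg_4, txg_6, txg_26, txg_29, txg_32, txg_59, txg_98, txg_122, txg_167, txg_170, txg_189, txg_224, txg_226, txg_235, txg_254, txg_288, txg_309, txg_311]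
  rcases eq_or_lt_of_le h2 with h | h2
  · subst h
    ((try push_cast); (repeat first | rw [if_pos (by linarith)] | rw [if_neg (by linarith)] | erw [if_pos (by linarith)] | erw [if_neg (by linarith)]); (try push_cast); (try ring1))
  · ((try push_cast); (repeat first | rw [if_pos (by linarith)] | rw [if_neg (by linarith)] | erw [if_pos (by linarith)] | erw [if_neg (by linarith)]); (try push_cast); (try ring1))
theorem txl4 {p c x : ℝ} (h1 : -3 / 10 < p) (h2 : p ≤ -1 / 4) : txg.v p c x = dt60.val (fun p x => kcg.v p x) p c x := by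
  symm
  refine (DT.val_le (by simp only [Cn.rt_v, Cn.ng_v]; push_cast; linarith)).trans ?_
  refine (DT.val_gt (by simp only [Cn.rt_v, Cn.ng_v]; push_cast; linarith)).trans ?_
  refine (DT.val_le (by simp only [Cn.rt_v, Cn.ng_v]; push_cast; linarith)).trans ?_
  refine (DT.val_le (by simp only [Cn.rt_v, Cn.ng_v]; push_cast; linarith)).trans ?_
  simp only [dt34, DT.val, cloR, sw34, sl34, sv34, txg, txg_4, txg_6, txg_26, txg_29, txg_32, txg_59, txg_98, txg_122, txg_167, txg_170, txg_189, txg_224, txg_226, txg_235, txg_254, txg_288, txg_309, txg_311]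
  rcases eq_or_lt_of_le h2 with h | h2
  · subst h
    ((try push_cast); (repeat first | rw [if_pos (by linarith)] | rw [if_neg (by linarith)] | erw [if_pos (by linarith)] | erw [if_neg (by linarith)]); (try push_cast); (try ring1))
  · ((try push_cast); (repeat first | rw [if_pos (by linarith)] | rw [if_neg (by linarith)] | erw [if_pos (by linarith)] | erw [if_neg (by linarith)]); (try push_cast); (try ring1))
theorem txl5 {p c x : ℝ} (h1 : -1 / 4 < p) (h2 : p ≤ -1 / 5) : txg.v p c x = dt60.val (fun p x => kcg.v p x) p c x := by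
  symm
  refine (DT.val_le (by simp only [Cn.rt_v, Cn.ng_v]; push_cast; linarith)).trans ?_
  refine (DT.val_gt (by simp only [Cn.rt_v, Cn.ng_v]; push_cast; linarith)).trans ?_
  refine (DT.val_le (by simp only [Cn.rt_v, Cn.ng_v]; push_cast; linarith)).trans ?_
  refine (DT.val_gt (by simp only [Cn.rt_v, Cn.ng_v]; push_cast; linarith)).trans ?_
  simp only [dt35, DT.val, cloR, sw35, sl35, sv35, txg, txg_4, txg_6, txg_26, txg_29, txg_32, txg_59, txg_98, txg_122, txg_167, txg_170, txg_189, txg_224, txg_226, txg_235, txg_254, txg_288, txg_309, txg_311]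
  rcases eq_or_lt_of_le h2 with h | h2
  · subst h
    ((try push_cast); (repeat first | rw [if_pos (by linarith)] | rw [if_neg (by linarith)] | erw [if_pos (by linarith)] | erw [if_neg (by linarith)]); (try push_cast); (try ring1))
  · ((try push_cast); (repeat first | rw [if_pos (by linarith)] | rw [if_neg (by linarith)] | erw [if_pos (by linarith)] | erw [if_neg (by linarith)]); (try push_cast); (try ring1))
theorem txl6 {p c x : ℝ} (h1 : -1 / 5 < p) (h2 : p ≤ -3 / 20) : txg.v p c x = dt60.val (fun p x => kcg.v p x) p c x := by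
  symm
  refine (DT.val_le (by simp only [Cn.rt_v, Cn.ng_v]; push_cast; linarith)).trans ?_
  refine (DT.val_gt (by simp only [Cn.rt_v, Cn.ng_v]; push_cast; linarith)).trans ?_
  refine (DT.val_gt (by simp only [Cn.rt_v, Cn.ng_v]; push_cast; linarith)).trans ?_
  refine (DT.val_le (by simp only [Cn.rt_v, Cn.ng_v]; push_cast; linarith)).trans ?_
  simp only [dt36, DT.val, cloR, sw36, sl36, sv36, txg, txg_4, txg_6, txg_26, txg_29, txg_32, txg_59, txg_98, txg_122, txg_167, txg_170, txg_189, txg_224, txg_226, txg_235, txg_254, txg_288, txg_309, txg_311]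
  rcases eq_or_lt_of_le h2 with h | h2
  · subst h
    ((try push_cast); (repeat first | rw [if_pos (by linarith)] | rw [if_neg (by linarith)] | erw [if_pos (by linarith)] | erw [if_neg (by linarith)]); (try push_cast); (try ring1))
  · ((try push_cast); (repeat first | rw [if_pos (by linarith)] | rw [if_neg (by linarith)] | erw [if_pos (by linarith)] | erw [if_neg (by linarith)]); (try push_cast); (try ring1))
theorem txl7 {p c x : ℝ} (h1 : -3 / 20 < p) (h2 : p ≤ -1 / 10) : txg.v p c x = dt60.val (fun p x => kcg.v p x) p c x := by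
  symm
  refine (DT.val_le (by simp only [Cn.rt_v, Cn.ng_v]; push_cast; linarith)).trans ?_
  refine (DT.val_gt (by simp only [Cn.rt_v, Cn.ng_v]; push_cast; linarith)).trans ?_
  refine (DT.val_gt (by simp only [Cn.rt_v, Cn.ng_v]; push_cast; linarith)).trans ?_
  refine (DT.val_gt (by simp only [Cn.rt_v, Cn.ng_v]; push_cast; linarith)).trans ?_
  simp only [dt37, DT.val, cloR, sw37, sl37, sv37, txg, txg_4, txg_6, txg_26, txg_29, txg_32, txg_59, txg_98, txg_122, txg_167, txg_170, txg_189, txg_224, txg_226, txg_235, txg_254, txg_288, txg_309, txg_311]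
  rcases eq_or_lt_of_le h2 with h | h2
  · subst h
    ((try push_cast); (repeat first | rw [if_pos (by linarith)] | rw [if_neg (by linarith)] | erw [if_pos (by linarith)] | erw [if_neg (by linarith)]); (try push_cast); (try ring1))
  · ((try push_cast); (repeat first | rw [if_pos (by linarith)] | rw [if_neg (by linarith)] | erw [if_pos (by linarith)] | erw [if_neg (by linarith)]); (try push_cast); (try ring1))
theorem txl8 {p c x : ℝ} (h1 : -1 / 10 < p) (h2 : p ≤ 1 / 10) : txg.v p c x = dt60.val (fun p x => kcg.v p x) p c x := by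
  symm
  refine (DT.val_gt (by simp only [Cn.rt_v, Cn.ng_v]; push_cast; linarith)).trans ?_
  refine (DT.val_le (by simp only [Cn.rt_v, Cn.ng_v]; push_cast; linarith)).trans ?_
  refine (DT.val_le (by simp only [Cn.rt_v, Cn.ng_v]; push_cast; linarith)).trans ?_
  refine (DT.val_le (by simp only [Cn.rt_v, Cn.ng_v]; push_cast; linarith)).trans ?_
  simp only [dt38, DT.val, cloR, sw38, sl38, sv38, txg, txg_4, txg_6, txg_26, txg_29, txg_32, txg_59, txg_98, txg_122, txg_167, txg_170, txg_189, txg_224, txg_226, txg_235, txg_254, txg_288, txg_309, txg_311]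
  rcases eq_or_lt_of_le h2 with h | h2
  · subst h
    ((try push_cast); (repeat first | rw [if_pos (by linarith)] | rw [if_neg (by linarith)] | erw [if_pos (by linarith)] | erw [if_neg (by linarith)]); (try push_cast); (try ring1))
  · ((try push_cast); (repeat first | rw [if_pos (by linarith)] | rw [if_neg (by linarith)] | erw [if_pos (by linarith)] | erw [if_neg (by linarith)]); (try push_cast); (try ring1))
theorem txl9 {p c x : ℝ} (h1 : 1 / 10 < p) (h2 : p ≤ 4 / 25) : txg.v p c x = dt60.val (fun p x => kcg.v p x) p c x := by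
  symm
  refine (DT.val_gt (by simp only [Cn.rt_v, Cn.ng_v]; push_cast; linarith)).trans ?_
  refine (DT.val_le (by simp only [Cn.rt_v, Cn.ng_v]; push_cast; linarith)).trans ?_
  refine (DT.val_le (by simp only [Cn.rt_v, Cn.ng_v]; push_cast; linarith)).trans ?_
  refine (DT.val_gt (by simp only [Cn.rt_v, Cn.ng_v]; push_cast; linarith)).trans ?_
  simp only [dt39, DT.val, cloR, sw39, sl39, sv39, txg, txg_4, txg_6, txg_26, txg_29, txg_32, txg_59, txg_98, txg_122, txg_167, txg_170, txg_189, txg_224, txg_226, txg_235, txg_254, txg_288, txg_309, txg_311]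
  rcases eq_or_lt_of_le h2 with h | h2
  · subst h
    ((try push_cast); (repeat first | rw [if_pos (by linarith)] | rw [if_neg (by linarith)] | erw [if_pos (by linarith)] | erw [if_neg (by linarith)]); (try push_cast); (try ring1))
  · ((try push_cast); (repeat first | rw [if_pos (by linarith)] | rw [if_neg (by linarith)] | erw [if_pos (by linarith)] | erw [if_neg (by linarith)]); (try push_cast); (try ring1))
theorem txl10 {p c x : ℝ} (h1 : 4 / 25 < p) (h2 : p ≤ 1 / 5) : txg.v p c x = dt60.val (fun p x => kcg.v p x) p c x := by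
  symm
  refine (DT.val_gt (by simp only [Cn.rt_v, Cn.ng_v]; push_cast; linarith)).trans ?_
  refine (DT.val_le (by simp only [Cn.rt_v, Cn.ng_v]; push_cast; linarith)).trans ?_
  refine (DT.val_gt (by simp only [Cn.rt_v, Cn.ng_v]; push_cast; linarith)).trans ?_
  refine (DT.val_le (by simp only [Cn.rt_v, Cn.ng_v]; push_cast; linarith)).trans ?_
  simp only [dt40, DT.val, cloR, sw40, sl40, sv40, txg, txg_4, txg_6, txg_26, txg_29, txg_32, txg_59, txg_98, txg_122, txg_167, txg_170, txg_189, txg_224, txg_226, txg_235, txg_254, txg_288, txg_309, txg_311]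
  rcases eq_or_lt_of_le h2 with h | h2
  · subst h
    ((try push_cast); (repeat first | rw [if_pos (by linarith)] | rw [if_neg (by linarith)] | erw [if_pos (by linarith)] | erw [if_neg (by linarith)]); (try push_cast); (try ring1))
  · ((try push_cast); (repeat first | rw [if_pos (by linarith)] | rw [if_neg (by linarith)] | erw [if_pos (by linarith)] | erw [if_neg (by linarith)]); (try push_cast); (try ring1))
theorem txl11 {p c x : ℝ} (h1 : 1 / 5 < p) (h2 : p ≤ 6 / 25) : txg.v p c x = dt60.val (fun p x => kcg.v p x) p c x := by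
  symm
  refine (DT.val_gt (by simp only [Cn.rt_v, Cn.ng_v]; push_cast; linarith)).trans ?_
  refine (DT.val_le (by simp only [Cn.rt_v, Cn.ng_v]; push_cast; linarith)).trans ?_
  refine (DT.val_gt (by simp only [Cn.rt_v, Cn.ng_v]; push_cast; linarith)).trans ?_
  refine (DT.val_gt (by simp only [Cn.rt_v, Cn.ng_v]; push_cast; linarith)).trans ?_
  simp only [dt41, DT.val, cloR, sw41, sl41, sv41, txg, txg_4, txg_6, txg_26, txg_29, txg_32, txg_59, txg_98, txg_122, txg_167, txg_170, txg_189, txg_224, txg_226, txg_235, txg_254, txg_288, txg_309, txg_311]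
  rcases eq_or_lt_of_le h2 with h | h2
  · subst h
    ((try push_cast); (repeat first | rw [if_pos (by linarith)] | rw [if_neg (by linarith)] | erw [if_pos (by linarith)] | erw [if_neg (by linarith)]); (try push_cast); (try ring1))
  · ((try push_cast); (repeat first | rw [if_pos (by linarith)] | rw [if_neg (by linarith)] | erw [if_pos (by linarith)] | erw [if_neg (by linarith)]); (try push_cast); (try ring1))
theorem txl12 {p c x : ℝ} (h1 : 6 / 25 < p) (h2 : p ≤ 767 / 2689) : txg.v p c x = dt60.val (fun p x => kcg.v p x) p c x := by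
  symm
  refine (DT.val_gt (by simp only [Cn.rt_v, Cn.ng_v]; push_cast; linarith)).trans ?_
  refine (DT.val_gt (by simp only [Cn.rt_v, Cn.ng_v]; push_cast; linarith)).trans ?_
  refine (DT.val_le (by simp only [Cn.rt_v, Cn.ng_v]; push_cast; linarith)).trans ?_
  refine (DT.val_le (by simp only [Cn.rt_v, Cn.ng_v]; push_cast; linarith)).trans ?_
  simp only [dt42, DT.val, cloR, sw42, sw42_2, sl42, sl42_2, sv42, sv42_2, txg, txg_4, txg_6, txg_26, txg_29, txg_32, txg_59, txg_98, txg_122, txg_167, txg_170, txg_189, txg_224, txg_226, txg_235, txg_254, txg_288, txg_309, txg_311]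
  rcases eq_or_lt_of_le h2 with h | h2
  · subst h
    ((try push_cast); (repeat first | rw [if_pos (by linarith)] | rw [if_neg (by linarith)] | erw [if_pos (by linarith)] | erw [if_neg (by linarith)]); (try push_cast); (try ring1))
  · ((try push_cast); (repeat first | rw [if_pos (by linarith)] | rw [if_neg (by linarith)] | erw [if_pos (by linarith)] | erw [if_neg (by linarith)]); (try push_cast); (try ring1))
theorem txl13 {p c x : ℝ} (h1 : 767 / 2689 < p) (h2 : p ≤ 671 / 1729) : txg.v p c x = dt60.val (fun p x => kcg.v p x) p c x := by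
  symm
  refine (DT.val_gt (by simp only [Cn.rt_v, Cn.ng_v]; push_cast; linarith)).trans ?_
  refine (DT.val_gt (by simp only [Cn.rt_v, Cn.ng_v]; push_cast; linarith)).trans ?_
  refine (DT.val_le (by simp only [Cn.rt_v, Cn.ng_v]; push_cast; linarith)).trans ?_
  refine (DT.val_gt (by simp only [Cn.rt_v, Cn.ng_v]; push_cast; linarith)).trans ?_
  simp only [dt43, DT.val, cloR, txg, txg_4, txg_6, txg_26, txg_29, txg_32, txg_59, txg_98, txg_122, txg_167, txg_170, txg_189, txg_224, txg_226, txg_235, txg_254, txg_288, txg_309, txg_311]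
  rcases eq_or_lt_of_le h2 with h | h2
  · subst h
    ((try push_cast); (repeat first | rw [if_pos (by linarith)] | rw [if_neg (by linarith)] | erw [if_pos (by linarith)] | erw [if_neg (by linarith)]); (try push_cast); (try ring1))
  · ((try push_cast); (repeat first | rw [if_pos (by linarith)] | rw [if_neg (by linarith)] | erw [if_pos (by linarith)] | erw [if_neg (by linarith)]); (try push_cast); (try ring1))
theorem txl14 {p c x : ℝ} (h1 : 671 / 1729 < p) (h2 : p ≤ 11 / 25) : txg.v p c x = dt60.val (fun p x => kcg.v p x) p c x := by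
  symm
  refine (DT.val_gt (by simp only [Cn.rt_v, Cn.ng_v]; push_cast; linarith)).trans ?_
  refine (DT.val_gt (by simp only [Cn.rt_v, Cn.ng_v]; push_cast; linarith)).trans ?_
  refine (DT.val_gt (by simp only [Cn.rt_v, Cn.ng_v]; push_cast; linarith)).trans ?_
  refine (DT.val_le (by simp only [Cn.rt_v, Cn.ng_v]; push_cast; linarith)).trans ?_
  simp only [dt44, DT.val, cloR, sw44, sw44_2, sl44, sl44_2, sv44, sv44_2, txg, txg_4, txg_6, txg_26, txg_29, txg_32, txg_59, txg_98, txg_122, txg_167, txg_170, txg_189, txg_224, txg_226, txg_235, txg_254, txg_288, txg_309, txg_311]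
  rcases eq_or_lt_of_le h2 with h | h2
  · subst h
    ((try push_cast); (repeat first | rw [if_pos (by linarith)] | rw [if_neg (by linarith)] | erw [if_pos (by linarith)] | erw [if_neg (by linarith)]); (try push_cast); (try ring1))
  · ((try push_cast); (repeat first | rw [if_pos (by linarith)] | rw [if_neg (by linarith)] | erw [if_pos (by linarith)] | erw [if_neg (by linarith)]); (try push_cast); (try ring1))
theorem txl15 {p c x : ℝ} (h1 : 11 / 25 < p) (h2 : p ≤ 1 / 2) : txg.v p c x = dt60.val (fun p x => kcg.v p x) p c x := by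
  symm
  refine (DT.val_gt (by simp only [Cn.rt_v, Cn.ng_v]; push_cast; linarith)).trans ?_
  refine (DT.val_gt (by simp only [Cn.rt_v, Cn.ng_v]; push_cast; linarith)).trans ?_
  refine (DT.val_gt (by simp only [Cn.rt_v, Cn.ng_v]; push_cast; linarith)).trans ?_
  refine (DT.val_gt (by simp only [Cn.rt_v, Cn.ng_v]; push_cast; linarith)).trans ?_
  simp only [dt45, DT.val, cloR, sw45, sl45, sv45, txg, txg_4, txg_6, txg_26, txg_29, txg_32, txg_59, txg_98, txg_122, txg_167, txg_170, txg_189, txg_224, txg_226, txg_235, txg_254, txg_288, txg_309, txg_311]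
  rcases eq_or_lt_of_le h2 with h | h2
  · subst h
    ((try push_cast); (repeat first | rw [if_pos (by linarith)] | rw [if_neg (by linarith)] | erw [if_pos (by linarith)] | erw [if_neg (by linarith)]); (try push_cast); (try ring1))
  · ((try push_cast); (repeat first | rw [if_pos (by linarith)] | rw [if_neg (by linarith)] | erw [if_pos (by linarith)] | erw [if_neg (by linarith)]); (try push_cast); (try ring1))
theorem txe {x : ℝ} (p c : ℝ) (h : |p| ≤ 1 / 2) : txg.v p c x = dt60.val (fun p x => kcg.v p x) p c x := by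
  obtain ⟨h1, h2⟩ := abs_le.1 h
  rcases le_or_gt p (-9 / 20) with g0 | g1000
  · exact txl0 (by linarith) g0
  rcases le_or_gt p (-2 / 5) with g1 | g1001
  · exact txl1 g1000 g1
  rcases le_or_gt p (-7 / 20) with g2 | g1002
  · exact txl2 g1001 g2
  rcases le_or_gt p (-3 / 10) with g3 | g1003
  · exact txl3 g1002 g3
  rcases le_or_gt p (-1 / 4) with g4 | g1004
  · exact txl4 g1003 g4
  rcases le_or_gt p (-1 / 5) with g5 | g1005
  · exact txl5 g1004 g5
  rcases le_or_gt p (-3 / 20) with g6 | g1006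
  · exact txl6 g1005 g6
  rcases le_or_gt p (-1 / 10) with g7 | g1007
  · exact txl7 g1006 g7
  rcases le_or_gt p (1 / 10) with g8 | g1008
  · exact txl8 g1007 g8
  rcases le_or_gt p (4 / 25) with g9 | g1009
  · exact txl9 g1008 g9
  rcases le_or_gt p (1 / 5) with g10 | g1010
  · exact txl10 g1009 g10
  rcases le_or_gt p (6 / 25) with g11 | g1011
  · exact txl11 g1010 g11
  rcases le_or_gt p (767 / 2689) with g12 | g1012
  · exact txl12 g1011 g12
  rcases le_or_gt p (671 / 1729) with g13 | g1013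
  · exact txl13 g1012 g13
  rcases le_or_gt p (11 / 25) with g14 | g1014
  · exact txl14 g1013 g14
  · exact txl15 g1014 (by linarith)
theorem ta_dt30 (x : ℝ) : dt30.val (fun p x => kcg.v p x) (-1 / 2) (cT (-1 / 2)) x = (0) := by
  simp only [dt30, DT.val, sw30, sl30, sv30]
  ((try push_cast); ring1)
theorem tb_dt30 (x : ℝ) : dt30.val (fun p x => kcg.v p x) (-9 / 20) (cT (-9 / 20)) x = (15181 / 800000 + (x - 22 / 25) * (-119 / 40000)) := by
  simp only [dt30, DT.val, sw30, sl30, sv30]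
  ((try push_cast); ring1)
theorem ta_dt31 (x : ℝ) : dt31.val (fun p x => kcg.v p x) (-9 / 20) (cT (-9 / 20)) x = (15181 / 800000 + (x - 22 / 25) * (-119 / 40000)) := by
  simp only [dt31, DT.val, sw31, sl31, sv31]
  ((try push_cast); ring1)
theorem tb_dt31 (x : ℝ) : dt31.val (fun p x => kcg.v p x) (-2 / 5) (cT (-2 / 5)) x = (30323 / 800000 + (x - 22 / 25) * (467 / 40000)) := by
  simp only [dt31, DT.val, sw31, sl31, sv31]
  ((try push_cast); ring1)
theorem ta_dt46 (x : ℝ) : dt46.val (fun p x => kcg.v p x) (-1 / 2) (cT (-1 / 2)) x = (0) :=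
  (DT.val_le (by simp only [Cn.rt_v, Cn.ng_v]; norm_num)).trans (ta_dt30 x)
theorem tb_dt46 (x : ℝ) : dt46.val (fun p x => kcg.v p x) (-2 / 5) (cT (-2 / 5)) x = (30323 / 800000 + (x - 22 / 25) * (467 / 40000)) :=
  (DT.val_gt (by simp only [Cn.rt_v, Cn.ng_v]; norm_num)).trans (tb_dt31 x)
theorem ta_dt32 (x : ℝ) : dt32.val (fun p x => kcg.v p x) (-2 / 5) (cT (-2 / 5)) x = (30323 / 800000 + (x - 22 / 25) * (467 / 40000)) := by
  simp only [dt32, DT.val, sw32, sl32, sv32]
  ((try push_cast); ring1)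
theorem tb_dt32 (x : ℝ) : dt32.val (fun p x => kcg.v p x) (-7 / 20) (cT (-7 / 20)) x = (4171 / 80000 + (x - 22 / 25) * (-3189 / 80000)) := by
  simp only [dt32, DT.val, sw32, sl32, sv32]
  ((try push_cast); ring1)
theorem ta_dt33 (x : ℝ) : dt33.val (fun p x => kcg.v p x) (-7 / 20) (cT (-7 / 20)) x = (4171 / 80000 + (x - 22 / 25) * (-3189 / 80000)) := by
  simp only [dt33, DT.val, sw33, sl33, sv33]
  ((try push_cast); ring1)
theorem tb_dt33 (x : ℝ) : dt33.val (fun p x => kcg.v p x) (-3 / 10) (cT (-3 / 10)) x = (2629 / 40000 + (x - 22 / 25) * (-11299 / 80000)) := by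
  simp only [dt33, DT.val, sw33, sl33, sv33]
  ((try push_cast); ring1)
theorem ta_dt47 (x : ℝ) : dt47.val (fun p x => kcg.v p x) (-2 / 5) (cT (-2 / 5)) x = (30323 / 800000 + (x - 22 / 25) * (467 / 40000)) :=
  (DT.val_le (by simp only [Cn.rt_v, Cn.ng_v]; norm_num)).trans (ta_dt32 x)
theorem tb_dt47 (x : ℝ) : dt47.val (fun p x => kcg.v p x) (-3 / 10) (cT (-3 / 10)) x = (2629 / 40000 + (x - 22 / 25) * (-11299 / 80000)) :=
  (DT.val_gt (by simp only [Cn.rt_v, Cn.ng_v]; norm_num)).trans (tb_dt33 x)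
theorem ta_dt48 (x : ℝ) : dt48.val (fun p x => kcg.v p x) (-1 / 2) (cT (-1 / 2)) x = (0) :=
  (DT.val_le (by simp only [Cn.rt_v, Cn.ng_v]; norm_num)).trans (ta_dt46 x)
theorem tb_dt48 (x : ℝ) : dt48.val (fun p x => kcg.v p x) (-3 / 10) (cT (-3 / 10)) x = (2629 / 40000 + (x - 22 / 25) * (-11299 / 80000)) :=
  (DT.val_gt (by simp only [Cn.rt_v, Cn.ng_v]; norm_num)).trans (tb_dt47 x)
theorem ta_dt34 (x : ℝ) : dt34.val (fun p x => kcg.v p x) (-3 / 10) (cT (-3 / 10)) x = (2629 / 40000 + (x - 22 / 25) * (-11299 / 80000)) := by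
  simp only [dt34, DT.val, sw34, sl34, sv34]
  ((try push_cast); ring1)
theorem tb_dt34 (x : ℝ) : dt34.val (fun p x => kcg.v p x) (-1 / 4) (cT (-1 / 4)) x = (12967 / 160000 + (x - 22 / 25) * (-18917 / 80000)) := by
  simp only [dt34, DT.val, sw34, sl34, sv34]
  ((try push_cast); ring1)
theorem ta_dt35 (x : ℝ) : dt35.val (fun p x => kcg.v p x) (-1 / 4) (cT (-1 / 4)) x = (12967 / 160000 + (x - 22 / 25) * (-18917 / 80000)) := by
  simp only [dt35, DT.val, sw35, sl35, sv35]
  ((try push_cast); ring1)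
theorem tb_dt35 (x : ℝ) : dt35.val (fun p x => kcg.v p x) (-1 / 5) (cT (-1 / 5)) x = (9811 / 100000 + (x - 22 / 25) * (-19579 / 80000)) := by
  simp only [dt35, DT.val, sw35, sl35, sv35]
  ((try push_cast); ring1)
theorem ta_dt49 (x : ℝ) : dt49.val (fun p x => kcg.v p x) (-3 / 10) (cT (-3 / 10)) x = (2629 / 40000 + (x - 22 / 25) * (-11299 / 80000)) :=
  (DT.val_le (by simp only [Cn.rt_v, Cn.ng_v]; norm_num)).trans (ta_dt34 x)
theorem tb_dt49 (x : ℝ) : dt49.val (fun p x => kcg.v p x) (-1 / 5) (cT (-1 / 5)) x = (9811 / 100000 + (x - 22 / 25) * (-19579 / 80000)) :=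
  (DT.val_gt (by simp only [Cn.rt_v, Cn.ng_v]; norm_num)).trans (tb_dt35 x)
theorem ta_dt36 (x : ℝ) : dt36.val (fun p x => kcg.v p x) (-1 / 5) (cT (-1 / 5)) x = (9811 / 100000 + (x - 22 / 25) * (-19579 / 80000)) := by
  simp only [dt36, DT.val, sw36, sl36, sv36]
  ((try push_cast); ring1)
theorem tb_dt36 (x : ℝ) : dt36.val (fun p x => kcg.v p x) (-3 / 20) (cT (-3 / 20)) x = (2321 / 20000 + (x - 22 / 25) * (-6751 / 40000)) := by
  simp only [dt36, DT.val, sw36, sl36, sv36]
  ((try push_cast); ring1)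
theorem ta_dt37 (x : ℝ) : dt37.val (fun p x => kcg.v p x) (-3 / 20) (cT (-3 / 20)) x = (2321 / 20000 + (x - 22 / 25) * (-6751 / 40000)) := by
  simp only [dt37, DT.val, sw37, sl37, sv37]
  ((try push_cast); ring1)
theorem tb_dt37 (x : ℝ) : dt37.val (fun p x => kcg.v p x) (-1 / 10) (cT (-1 / 10)) x = (105531 / 800000 + (x - 22 / 25) * (-67 / 625)) := by
  simp only [dt37, DT.val, sw37, sl37, sv37]
  ((try push_cast); ring1)
theorem ta_dt50 (x : ℝ) : dt50.val (fun p x => kcg.v p x) (-1 / 5) (cT (-1 / 5)) x = (9811 / 100000 + (x - 22 / 25) * (-19579 / 80000)) :=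
  (DT.val_le (by simp only [Cn.rt_v, Cn.ng_v]; norm_num)).trans (ta_dt36 x)
theorem tb_dt50 (x : ℝ) : dt50.val (fun p x => kcg.v p x) (-1 / 10) (cT (-1 / 10)) x = (105531 / 800000 + (x - 22 / 25) * (-67 / 625)) :=
  (DT.val_gt (by simp only [Cn.rt_v, Cn.ng_v]; norm_num)).trans (tb_dt37 x)
theorem ta_dt51 (x : ℝ) : dt51.val (fun p x => kcg.v p x) (-3 / 10) (cT (-3 / 10)) x = (2629 / 40000 + (x - 22 / 25) * (-11299 / 80000)) :=
  (DT.val_le (by simp only [Cn.rt_v, Cn.ng_v]; norm_num)).trans (ta_dt49 x)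
theorem tb_dt51 (x : ℝ) : dt51.val (fun p x => kcg.v p x) (-1 / 10) (cT (-1 / 10)) x = (105531 / 800000 + (x - 22 / 25) * (-67 / 625)) :=
  (DT.val_gt (by simp only [Cn.rt_v, Cn.ng_v]; norm_num)).trans (tb_dt50 x)
theorem ta_dt52 (x : ℝ) : dt52.val (fun p x => kcg.v p x) (-1 / 2) (cT (-1 / 2)) x = (0) :=
  (DT.val_le (by simp only [Cn.rt_v, Cn.ng_v]; norm_num)).trans (ta_dt48 x)
theorem tb_dt52 (x : ℝ) : dt52.val (fun p x => kcg.v p x) (-1 / 10) (cT (-1 / 10)) x = (105531 / 800000 + (x - 22 / 25) * (-67 / 625)) :=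
  (DT.val_gt (by simp only [Cn.rt_v, Cn.ng_v]; norm_num)).trans (tb_dt51 x)
theorem ta_dt38 (x : ℝ) : dt38.val (fun p x => kcg.v p x) (-1 / 10) (cT (-1 / 10)) x = (105531 / 800000 + (x - 22 / 25) * (-67 / 625)) := by
  simp only [dt38, DT.val, sw38, sl38, sv38]
  ((try push_cast); ring1)
theorem tb_dt38 (x : ℝ) : dt38.val (fun p x => kcg.v p x) (1 / 10) (cT (1 / 10)) x = (4923 / 32000 + (x - 22 / 25) * (309 / 10000)) := by
  simp only [dt38, DT.val, sw38, sl38, sv38]
  ((try push_cast); ring1)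
theorem ta_dt39 (x : ℝ) : dt39.val (fun p x => kcg.v p x) (1 / 10) (cT (1 / 10)) x = (4923 / 32000 + (x - 22 / 25) * (309 / 10000)) := by
  simp only [dt39, DT.val, sw39, sl39, sv39]
  ((try push_cast); ring1)
theorem tb_dt39 (x : ℝ) : dt39.val (fun p x => kcg.v p x) (4 / 25) (cT (4 / 25)) x = (2970471 / 20000000 + (x - 22 / 25) * (5793 / 100000)) := by
  simp only [dt39, DT.val, sw39, sl39, sv39]
  ((try push_cast); ring1)
theorem ta_dt53 (x : ℝ) : dt53.val (fun p x => kcg.v p x) (-1 / 10) (cT (-1 / 10)) x = (105531 / 800000 + (x - 22 / 25) * (-67 / 625)) :=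
  (DT.val_le (by simp only [Cn.rt_v, Cn.ng_v]; norm_num)).trans (ta_dt38 x)
theorem tb_dt53 (x : ℝ) : dt53.val (fun p x => kcg.v p x) (4 / 25) (cT (4 / 25)) x = (2970471 / 20000000 + (x - 22 / 25) * (5793 / 100000)) :=
  (DT.val_gt (by simp only [Cn.rt_v, Cn.ng_v]; norm_num)).trans (tb_dt39 x)
theorem ta_dt40 (x : ℝ) : dt40.val (fun p x => kcg.v p x) (4 / 25) (cT (4 / 25)) x = (2970471 / 20000000 + (x - 22 / 25) * (5793 / 100000)) := by
  simp only [dt40, DT.val, sw40, sl40, sv40]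
  ((try push_cast); ring1)
theorem tb_dt40 (x : ℝ) : dt40.val (fun p x => kcg.v p x) (1 / 5) (cT (1 / 5)) x = (2856559 / 20000000 + (x - 22 / 25) * (1519 / 20000)) := by
  simp only [dt40, DT.val, sw40, sl40, sv40]
  ((try push_cast); ring1)
theorem ta_dt41 (x : ℝ) : dt41.val (fun p x => kcg.v p x) (1 / 5) (cT (1 / 5)) x = (2856559 / 20000000 + (x - 22 / 25) * (1519 / 20000)) := by
  simp only [dt41, DT.val, sw41, sl41, sv41]
  ((try push_cast); ring1)
theorem tb_dt41 (x : ℝ) : dt41.val (fun p x => kcg.v p x) (6 / 25) (cT (6 / 25)) x = (2708247 / 20000000 + (x - 22 / 25) * (61429 / 500000)) := by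
  simp only [dt41, DT.val, sw41, sl41, sv41]
  ((try push_cast); ring1)
theorem ta_dt54 (x : ℝ) : dt54.val (fun p x => kcg.v p x) (4 / 25) (cT (4 / 25)) x = (2970471 / 20000000 + (x - 22 / 25) * (5793 / 100000)) :=
  (DT.val_le (by simp only [Cn.rt_v, Cn.ng_v]; norm_num)).trans (ta_dt40 x)
theorem tb_dt54 (x : ℝ) : dt54.val (fun p x => kcg.v p x) (6 / 25) (cT (6 / 25)) x = (2708247 / 20000000 + (x - 22 / 25) * (61429 / 500000)) :=
  (DT.val_gt (by simp only [Cn.rt_v, Cn.ng_v]; norm_num)).trans (tb_dt41 x)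
theorem ta_dt55 (x : ℝ) : dt55.val (fun p x => kcg.v p x) (-1 / 10) (cT (-1 / 10)) x = (105531 / 800000 + (x - 22 / 25) * (-67 / 625)) :=
  (DT.val_le (by simp only [Cn.rt_v, Cn.ng_v]; norm_num)).trans (ta_dt53 x)
theorem tb_dt55 (x : ℝ) : dt55.val (fun p x => kcg.v p x) (6 / 25) (cT (6 / 25)) x = (2708247 / 20000000 + (x - 22 / 25) * (61429 / 500000)) :=
  (DT.val_gt (by simp only [Cn.rt_v, Cn.ng_v]; norm_num)).trans (tb_dt54 x)
theorem ta_dt42 (x : ℝ) : dt42.val (fun p x => kcg.v p x) (6 / 25) (cT (6 / 25)) x = (2708247 / 20000000 + (x - 22 / 25) * (61429 / 500000)) := by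
  simp only [dt42, DT.val, sw42, sw42_2, sl42, sl42_2, sv42, sv42_2]
  ((try push_cast); ring1)
theorem tb_dt42 (x : ℝ) : dt42.val (fun p x => kcg.v p x) (767 / 2689) (3697 / 5378) x = (5590534839674463 / 45192006250000000 + (x - 22 / 25) * (151072400207057 / 903840125000000) + (x - 22 / 25) ^ 2 * (1202804659 / 5378000000)) := by
  simp only [dt42, DT.val, sw42, sw42_2, sl42, sl42_2, sv42, sv42_2]
  ((try push_cast); ring1)
theorem ta_dt43 (x : ℝ) : dt43.val (fun p x => kcg.v p x) (767 / 2689) (3697 / 5378) x = (5590534839674463 / 45192006250000000 + (x - 22 / 25) * (151072400207057 / 903840125000000) + (x - 22 / 25) ^ 2 * (1202804659 / 5378000000)) := by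
  simp only [dt43, DT.val, cloR, kgA]
  ring1
theorem tb_dt43 (x : ℝ) : dt43.val (fun p x => kcg.v p x) (671 / 1729) (2089 / 3458) x = (1434056338245591 / 18684006250000000 + (x - 22 / 25) * (244609640458713 / 1868400625000000) + (x - 22 / 25) ^ 2 * (22269117147 / 86450000000)) := by
  simp only [dt43, DT.val, cloR, kgB]
  ring1
theorem ta_dt56 (x : ℝ) : dt56.val (fun p x => kcg.v p x) (6 / 25) (cT (6 / 25)) x = (2708247 / 20000000 + (x - 22 / 25) * (61429 / 500000)) :=
  (DT.val_le (by simp only [Cn.rt_v, Cn.ng_v]; norm_num)).trans (ta_dt42 x)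
theorem tb_dt56 (x : ℝ) : dt56.val (fun p x => kcg.v p x) (671 / 1729) (2089 / 3458) x = (1434056338245591 / 18684006250000000 + (x - 22 / 25) * (244609640458713 / 1868400625000000) + (x - 22 / 25) ^ 2 * (22269117147 / 86450000000)) :=
  (DT.val_gt (by simp only [Cn.rt_v, Cn.ng_v]; norm_num)).trans (tb_dt43 x)
theorem ta_dt44 (x : ℝ) : dt44.val (fun p x => kcg.v p x) (671 / 1729) (2089 / 3458) x = (1434056338245591 / 18684006250000000 + (x - 22 / 25) * (244609640458713 / 1868400625000000) + (x - 22 / 25) ^ 2 * (22269117147 / 86450000000)) := by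
  simp only [dt44, DT.val, sw44, sw44_2, sl44, sl44_2, sv44, sv44_2]
  ((try push_cast); ring1)
theorem tb_dt44 (x : ℝ) : dt44.val (fun p x => kcg.v p x) (11 / 25) (cT (11 / 25)) x = (213057 / 5000000 + (x - 22 / 25) * (1068 / 15625)) := by
  simp only [dt44, DT.val, sw44, sw44_2, sl44, sl44_2, sv44, sv44_2]
  ((try push_cast); ring1)
theorem ta_dt45 (x : ℝ) : dt45.val (fun p x => kcg.v p x) (11 / 25) (cT (11 / 25)) x = (213057 / 5000000 + (x - 22 / 25) * (1068 / 15625)) := by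
  simp only [dt45, DT.val, sw45, sl45, sv45]
  ((try push_cast); ring1)
theorem tb_dt45 (x : ℝ) : dt45.val (fun p x => kcg.v p x) (1 / 2) (cT (1 / 2)) x = (0) := by
  simp only [dt45, DT.val, sw45, sl45, sv45]
  ((try push_cast); ring1)
theorem ta_dt57 (x : ℝ) : dt57.val (fun p x => kcg.v p x) (671 / 1729) (2089 / 3458) x = (1434056338245591 / 18684006250000000 + (x - 22 / 25) * (244609640458713 / 1868400625000000) + (x - 22 / 25) ^ 2 * (22269117147 / 86450000000)) :=
  (DT.val_le (by simp only [Cn.rt_v, Cn.ng_v]; norm_num)).trans (ta_dt44 x)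
theorem tb_dt57 (x : ℝ) : dt57.val (fun p x => kcg.v p x) (1 / 2) (cT (1 / 2)) x = (0) :=
  (DT.val_gt (by simp only [Cn.rt_v, Cn.ng_v]; norm_num)).trans (tb_dt45 x)
theorem ta_dt58 (x : ℝ) : dt58.val (fun p x => kcg.v p x) (6 / 25) (cT (6 / 25)) x = (2708247 / 20000000 + (x - 22 / 25) * (61429 / 500000)) :=
  (DT.val_le (by simp only [Cn.rt_v, Cn.ng_v]; norm_num)).trans (ta_dt56 x)
theorem tb_dt58 (x : ℝ) : dt58.val (fun p x => kcg.v p x) (1 / 2) (cT (1 / 2)) x = (0) :=
  (DT.val_gt (by simp only [Cn.rt_v, Cn.ng_v]; norm_num)).trans (tb_dt57 x)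
theorem ta_dt59 (x : ℝ) : dt59.val (fun p x => kcg.v p x) (-1 / 10) (cT (-1 / 10)) x = (105531 / 800000 + (x - 22 / 25) * (-67 / 625)) :=
  (DT.val_le (by simp only [Cn.rt_v, Cn.ng_v]; norm_num)).trans (ta_dt55 x)
theorem tb_dt59 (x : ℝ) : dt59.val (fun p x => kcg.v p x) (1 / 2) (cT (1 / 2)) x = (0) :=
  (DT.val_gt (by simp only [Cn.rt_v, Cn.ng_v]; norm_num)).trans (tb_dt58 x)
theorem ta_dt60 (x : ℝ) : dt60.val (fun p x => kcg.v p x) (-1 / 2) (cT (-1 / 2)) x = (0) :=
  (DT.val_le (by simp only [Cn.rt_v, Cn.ng_v]; norm_num)).trans (ta_dt52 x)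
theorem tb_dt60 (x : ℝ) : dt60.val (fun p x => kcg.v p x) (1 / 2) (cT (1 / 2)) x = (0) :=
  (DT.val_gt (by simp only [Cn.rt_v, Cn.ng_v]; norm_num)).trans (tb_dt59 x)
theorem to_dt30 (x : ℝ) : dt30.Ok (fun p x => kcg.v p x) x := trivial
theorem to_dt31 (x : ℝ) : dt31.Ok (fun p x => kcg.v p x) x := trivial
theorem to_dt46 (x : ℝ) : dt46.Ok (fun p x => kcg.v p x) x :=
  DT.ok_node (v := -9 / 20) (by simp only [Cn.rt_v, Cn.ng_v]; norm_num) (by rw [abs_le]; constructor <;> norm_num) rfl (tb_dt30 x) (ta_dt31 x) (by ring1) (to_dt30 x) (to_dt31 x)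
theorem to_dt32 (x : ℝ) : dt32.Ok (fun p x => kcg.v p x) x := trivial
theorem to_dt33 (x : ℝ) : dt33.Ok (fun p x => kcg.v p x) x := trivial
theorem to_dt47 (x : ℝ) : dt47.Ok (fun p x => kcg.v p x) x :=
  DT.ok_node (v := -7 / 20) (by simp only [Cn.rt_v, Cn.ng_v]; norm_num) (by rw [abs_le]; constructor <;> norm_num) rfl (tb_dt32 x) (ta_dt33 x) (by ring1) (to_dt32 x) (to_dt33 x)
theorem to_dt48 (x : ℝ) : dt48.Ok (fun p x => kcg.v p x) x :=
  DT.ok_node (v := -2 / 5) (by simp only [Cn.rt_v, Cn.ng_v]; norm_num) (by rw [abs_le]; constructor <;> norm_num) rfl (tb_dt46 x) (ta_dt47 x) (by ring1) (to_dt46 x) (to_dt47 x)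
theorem to_dt34 (x : ℝ) : dt34.Ok (fun p x => kcg.v p x) x := trivial
theorem to_dt35 (x : ℝ) : dt35.Ok (fun p x => kcg.v p x) x := trivial
theorem to_dt49 (x : ℝ) : dt49.Ok (fun p x => kcg.v p x) x :=
  DT.ok_node (v := -1 / 4) (by simp only [Cn.rt_v, Cn.ng_v]; norm_num) (by rw [abs_le]; constructor <;> norm_num) rfl (tb_dt34 x) (ta_dt35 x) (by ring1) (to_dt34 x) (to_dt35 x)
theorem to_dt36 (x : ℝ) : dt36.Ok (fun p x => kcg.v p x) x := trivial
theorem to_dt37 (x : ℝ) : dt37.Ok (fun p x => kcg.v p x) x := trivial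
theorem to_dt50 (x : ℝ) : dt50.Ok (fun p x => kcg.v p x) x :=
  DT.ok_node (v := -3 / 20) (by simp only [Cn.rt_v, Cn.ng_v]; norm_num) (by rw [abs_le]; constructor <;> norm_num) rfl (tb_dt36 x) (ta_dt37 x) (by ring1) (to_dt36 x) (to_dt37 x)
theorem to_dt51 (x : ℝ) : dt51.Ok (fun p x => kcg.v p x) x :=
  DT.ok_node (v := -1 / 5) (by simp only [Cn.rt_v, Cn.ng_v]; norm_num) (by rw [abs_le]; constructor <;> norm_num) rfl (tb_dt49 x) (ta_dt50 x) (by ring1) (to_dt49 x) (to_dt50 x)
theorem to_dt52 (x : ℝ) : dt52.Ok (fun p x => kcg.v p x) x :=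
  DT.ok_node (v := -3 / 10) (by simp only [Cn.rt_v, Cn.ng_v]; norm_num) (by rw [abs_le]; constructor <;> norm_num) rfl (tb_dt48 x) (ta_dt51 x) (by ring1) (to_dt48 x) (to_dt51 x)
theorem to_dt38 (x : ℝ) : dt38.Ok (fun p x => kcg.v p x) x := trivial
theorem to_dt39 (x : ℝ) : dt39.Ok (fun p x => kcg.v p x) x := trivial
theorem to_dt53 (x : ℝ) : dt53.Ok (fun p x => kcg.v p x) x :=
  DT.ok_node (v := 1 / 10) (by simp only [Cn.rt_v, Cn.ng_v]; norm_num) (by rw [abs_le]; constructor <;> norm_num) rfl (tb_dt38 x) (ta_dt39 x) (by ring1) (to_dt38 x) (to_dt39 x)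
theorem to_dt40 (x : ℝ) : dt40.Ok (fun p x => kcg.v p x) x := trivial
theorem to_dt41 (x : ℝ) : dt41.Ok (fun p x => kcg.v p x) x := trivial
theorem to_dt54 (x : ℝ) : dt54.Ok (fun p x => kcg.v p x) x :=
  DT.ok_node (v := 1 / 5) (by simp only [Cn.rt_v, Cn.ng_v]; norm_num) (by rw [abs_le]; constructor <;> norm_num) rfl (tb_dt40 x) (ta_dt41 x) (by ring1) (to_dt40 x) (to_dt41 x)
theorem to_dt55 (x : ℝ) : dt55.Ok (fun p x => kcg.v p x) x :=
  DT.ok_node (v := 4 / 25) (by simp only [Cn.rt_v, Cn.ng_v]; norm_num) (by rw [abs_le]; constructor <;> norm_num) rfl (tb_dt53 x) (ta_dt54 x) (by ring1) (to_dt53 x) (to_dt54 x)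
theorem to_dt42 (x : ℝ) : dt42.Ok (fun p x => kcg.v p x) x := trivial
theorem to_dt43 (x : ℝ) : dt43.Ok (fun p x => kcg.v p x) x := trivial
theorem to_dt56 (x : ℝ) : dt56.Ok (fun p x => kcg.v p x) x :=
  DT.ok_node (v := 767 / 2689) (by simp only [Cn.rt_v, Cn.ng_v]; norm_num) (by rw [abs_le]; constructor <;> norm_num) ctA (tb_dt42 x) (ta_dt43 x) (by ring1) (to_dt42 x) (to_dt43 x)
theorem to_dt44 (x : ℝ) : dt44.Ok (fun p x => kcg.v p x) x := trivial
theorem to_dt45 (x : ℝ) : dt45.Ok (fun p x => kcg.v p x) x := trivial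
theorem to_dt57 (x : ℝ) : dt57.Ok (fun p x => kcg.v p x) x :=
  DT.ok_node (v := 11 / 25) (by simp only [Cn.rt_v, Cn.ng_v]; norm_num) (by rw [abs_le]; constructor <;> norm_num) rfl (tb_dt44 x) (ta_dt45 x) (by ring1) (to_dt44 x) (to_dt45 x)
theorem to_dt58 (x : ℝ) : dt58.Ok (fun p x => kcg.v p x) x :=
  DT.ok_node (v := 671 / 1729) (by simp only [Cn.rt_v, Cn.ng_v]; norm_num) (by rw [abs_le]; constructor <;> norm_num) ctB (tb_dt56 x) (ta_dt57 x) (by ring1) (to_dt56 x) (to_dt57 x)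
theorem to_dt59 (x : ℝ) : dt59.Ok (fun p x => kcg.v p x) x :=
  DT.ok_node (v := 6 / 25) (by simp only [Cn.rt_v, Cn.ng_v]; norm_num) (by rw [abs_le]; constructor <;> norm_num) rfl (tb_dt55 x) (ta_dt58 x) (by ring1) (to_dt55 x) (to_dt58 x)
theorem to_dt60 (x : ℝ) : dt60.Ok (fun p x => kcg.v p x) x :=
  DT.ok_node (v := -1 / 10) (by simp only [Cn.rt_v, Cn.ng_v]; norm_num) (by rw [abs_le]; constructor <;> norm_num) rfl (tb_dt52 x) (ta_dt59 x) (by ring1) (to_dt52 x) (to_dt59 x)
theorem dok (x : ℝ) : dd.Ok x := ⟨ko_dt29 x, fun p h => kfe h, to_dt60 x⟩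
theorem K0_ (x : ℝ) : ∀ q y, OnC (0 : Fin 5) q y → TightK (tyO q) q (fun p => dd.kf.v p x) (c1n y) y (tK 0 q y x) := by
  refine K0_of (R := fun q y => tK 0 q y x) (kc := fun p => kcg.v p x) ?_ ?_ ?_
  · intro y h
    show tK 0 0 y x = _
    ·
      rw [← (atB00 h).K]
      show kf0q0.v y x = _
      simp only [kf0q0, kf0q0_9, kf0q0_12, c1g_v]
      ((try push_cast); (try simp only [mul_inv]); (try ring_nf))
  · intro y h
    show tK 0 1 y x = _
    ·
      rw [← (atB01 h).K]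
      show kf0q1.v y x = _
      simp only [kf0q1, kf0q1_10, c1g_v]
      ((try push_cast); (try simp only [mul_inv]); (try ring_nf))
  · intro y h
    show tK 0 2 y x = _
    ·
      have ey := yag_v h.1.nonneg (h.2 rfl)
      rw [← (atB02 h).K]
      show kfc02.v (c1n y) x = _
      simp only [kfc02, c1g_v, ey]
      ((try push_cast); (try simp only [mul_inv]); (try ring_nf))
theorem L0_ (x : ℝ) : ∀ q y, OnC (0 : Fin 5) q y → TightL (tyO q) (fun p c => dd.TX.val dd.kf.v p c x) (c1n y) y (tL 0 q y x) := by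
  refine L0_of (R := fun q y => tL 0 q y x) (tx := fun p c => txg.v p c x) txe ?_ ?_ ?_
  · intro y h
    show tL 0 0 y x = _
    ·
      rw [← (atB00 h).L]
      show l0q0.v y x = _
      simp only [l0q0, c1g_v]
      ((try push_cast); (try simp only [mul_inv]); (try ring_nf))
  · intro y h
    show tL 0 1 y x = _
    ·
      rw [← (atB01 h).L]
      show l0q1.v y x = _
      simp only [l0q1, c1g_v]
      ((try push_cast); (try simp only [mul_inv]); (try ring_nf))
  · intro y h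
    show tL 0 2 y x = _
    ·
      have ey := yag_v h.1.nonneg (h.2 rfl)
      rw [← (atB02 h).L]
      show lc02.v (c1n y) x = _
      simp only [lc02, lc02_7, lc02_8, c1g_v, ey]
      ((try push_cast); (try simp only [mul_inv]); (try ring_nf))
theorem Kn_ (x : ℝ) : ∀ q y, InQ q y → TightK (tyN q) q (fun p => dd.kf.v p x) (c3n y) y (tK (Fin.last 4) q y x) := by
  refine Kn_of (R := fun q y => tK 4 q y x) (kc := fun p => kcg.v p x) ?_ ?_ ?_ ?_
  · intro y h
    show tK 4 0 y x = _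
    ·
      rw [← (atB40 (onc h (by decide))).K]
      show kf4q0.v y x = _
      simp only [kf4q0, c3g_v]
      ((try push_cast); (try simp only [mul_inv]); (try ring_nf))
  · intro y h
    show tK 4 1 y x = _
    ·
      rw [← (atB41 (onc h (by decide))).K]
      show kf4q1.v y x = _
      simp only [kf4q1, c3g_v]
      ((try push_cast); (try simp only [mul_inv]); (try ring_nf))
  · intro y h
    show tK 4 2 y x = _
    ·
      rw [← (atB42 (onc h (by decide))).K]
      show kf4q2.v y x = _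
      simp only [kf4q2, c3g_v]
      ((try push_cast); (try simp only [mul_inv]); (try ring_nf))
  · intro y h
    show tK 4 3 y x = _
    ·
      have ey := ycg_v h.nonneg h.le_two
      rw [← (atB43 (onc h (by decide))).K]
      show kfc43.v (c3n y) x = _
      simp only [kfc43, c3g_v, ey]
      ((try push_cast); (try simp only [mul_inv]); (try ring_nf))
theorem Ln_ (x : ℝ) : ∀ q y, InQ q y → TightL (tyN q) (fun p c => dd.TX.val dd.kf.v p c x) (c3n y) y (tL (Fin.last 4) q y x) := by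
  refine Ln_of (R := fun q y => tL 4 q y x) (tx := fun p c => txg.v p c x) txe ?_ ?_ ?_ ?_
  · intro y h
    show tL 4 0 y x = _
    ·
      rw [← (atB40 (onc h (by decide))).L]
      show l4q0.v y x = _
      simp only [l4q0, l4q0_6, l4q0_7, l4q0_8, c3g_v]
      ((try push_cast); (try simp only [mul_inv]); (try ring_nf))
  · intro y h
    show tL 4 1 y x = _
    ·
      rw [← (atB41 (onc h (by decide))).L]
      show l4q1.v y x = _
      simp only [l4q1, l4q1_7, l4q1_8, l4q1_9, c3g_v]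
      ((try push_cast); (try simp only [mul_inv]); (try ring_nf))
  · intro y h
    show tL 4 2 y x = _
    ·
      rw [← (atB42 (onc h (by decide))).L]
      show l4q2.v y x = _
      simp only [l4q2, l4q2_7, l4q2_8, l4q2_9, l4q2_12, l4q2_14, c3g_v]
      ((try push_cast); (try simp only [mul_inv]); (try ring_nf))
  · intro y h
    show tL 4 3 y x = _
    ·
      have ey := ycg_v h.nonneg h.le_two
      rw [← (atB43 (onc h (by decide))).L]
      show lc43.v (c3n y) x = _
      simp only [lc43, lc43_7, lc43_8, lc43_9, lc43_12, lc43_14, c3g_v, ey]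
      ((try push_cast); (try simp only [mul_inv]); (try ring_nf))
theorem f0_ : ∀ q y, InQ q y → (ff q).f.v y = crv PP 1 q y
  | 0, y, _ => ecv1q0.symm
  | 1, y, _ => ecv1q1.symm
  | 2, y, _ => ecv1q2.symm
  | 3, y, h => (ecv1q3 h.1).symm
theorem fn_ : ∀ q y, InQ q y → (fl q).f.v y = crv PP 3 q y
  | 0, y, _ => ecv3q0.symm
  | 1, y, _ => ecv3q1.symm
  | 2, y, _ => ecv3q2.symm
  | 3, y, h => (ecv3q3 h.1).symm
theorem yK00 {y x : ℝ} (h : OnC (0 : Fin 5) 0 y) : tK 0 0 y x = kf0q0.v y x := (atB00 h).K.symm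
theorem yK10 {y x : ℝ} (h : InQ 0 y) : tK 1 0 y x = kf1q0.v y x := (atB10 (onc h (by decide))).K.symm
theorem yK01 {y x : ℝ} (h : OnC (0 : Fin 5) 1 y) : tK 0 1 y x = kf0q1.v y x := (atB01 h).K.symm
theorem yK11 {y x : ℝ} (h : InQ 1 y) : tK 1 1 y x = kf1q1.v y x := (atB11 (onc h (by decide))).K.symm
theorem yK02 {y x : ℝ} (h : OnC (0 : Fin 5) 2 y) : tK 0 2 y x = kf0q2.v y x := by
  rw [← (atB02 h).K]
  show kfc02.v (c1n y) x = _
  have ey := yag_v h.1.nonneg (h.2 rfl)
  simp only [kfc02, kf0q2, ey, c1g_v, c3g_v, swg_v]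
  ((try push_cast); (try ring_nf))
theorem yK12 {y x : ℝ} (h : InQ 2 y) : tK 1 2 y x = kf1q2.v y x := (atB12 (onc h (by decide))).K.symm
theorem yK40 {y x : ℝ} (h : InQ 0 y) : tK 4 0 y x = kf4q0.v y x := (atB40 (onc h (by decide))).K.symm
theorem yK30 {y x : ℝ} (h : InQ 0 y) : tK 3 0 y x = kf3q0.v y x := (atB30 (onc h (by decide))).K.symm
theorem yK41 {y x : ℝ} (h : InQ 1 y) : tK 4 1 y x = kf4q1.v y x := (atB41 (onc h (by decide))).K.symm
theorem yK31 {y x : ℝ} (h : InQ 1 y) : tK 3 1 y x = kf3q1.v y x := (atB31 (onc h (by decide))).K.symm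
theorem yK42 {y x : ℝ} (h : InQ 2 y) : tK 4 2 y x = kf4q2.v y x := (atB42 (onc h (by decide))).K.symm
theorem yK32 {y x : ℝ} (h : InQ 2 y) : tK 3 2 y x = kf3q2.v y x := (atB32 (onc h (by decide))).K.symm
theorem yK43 {y x : ℝ} (h : InQ 3 y) : tK 4 3 y x = kf4q3.v y x := by
  rw [← (atB43 (onc h (by decide))).K]
  show kfc43.v (c3n y) x = _
  have ey := ycg_v h.nonneg h.le_two
  simp only [kfc43, kf4q3, ey, c1g_v, c3g_v, swg_v]
  ((try push_cast); (try ring_nf))
theorem yK33 {y x : ℝ} (h : InQ 3 y) : tK 3 3 y x = kf3q3.v y x := by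
  rw [← (atB33 (onc h (by decide))).K]
  show kfc33.v (c3n y) x = _
  have ey := ycg_v h.nonneg h.le_two
  simp only [kfc33, kfc33_11, kf3q3, kf3q3_4, cv3r, ey, c1g_v, c3g_v, swg_v]
  ((try push_cast); (try ring_nf))
theorem yL00 {y x : ℝ} (h : OnC (0 : Fin 5) 0 y) : tL 0 0 y x = l0q0.v y x := (atB00 h).L.symm
theorem yL10 {y x : ℝ} (h : InQ 0 y) : tL 1 0 y x = l1q0.v y x := (atB10 (onc h (by decide))).L.symm
theorem yL01 {y x : ℝ} (h : OnC (0 : Fin 5) 1 y) : tL 0 1 y x = l0q1.v y x := (atB01 h).L.symm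
theorem yL11 {y x : ℝ} (h : InQ 1 y) : tL 1 1 y x = l1q1.v y x := (atB11 (onc h (by decide))).L.symm
theorem yL02 {y x : ℝ} (h : OnC (0 : Fin 5) 2 y) : tL 0 2 y x = l0q2.v y x := by
  rw [← (atB02 h).L]
  show lc02.v (c1n y) x = _
  have ey := yag_v h.1.nonneg (h.2 rfl)
  simp only [lc02, lc02_7, lc02_8, l0q2, l0q2_7, l0q2_8, ey, c1g_v, c3g_v, swg_v]
  ((try push_cast); (try ring_nf))
theorem yL12 {y x : ℝ} (h : InQ 2 y) : tL 1 2 y x = l1q2.v y x := (atB12 (onc h (by decide))).L.symm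
theorem yL40 {y x : ℝ} (h : InQ 0 y) : tL 4 0 y x = l4q0.v y x := (atB40 (onc h (by decide))).L.symm
theorem yL30 {y x : ℝ} (h : InQ 0 y) : tL 3 0 y x = l3q0.v y x := (atB30 (onc h (by decide))).L.symm
theorem yL41 {y x : ℝ} (h : InQ 1 y) : tL 4 1 y x = l4q1.v y x := (atB41 (onc h (by decide))).L.symm
theorem yL31 {y x : ℝ} (h : InQ 1 y) : tL 3 1 y x = l3q1.v y x := (atB31 (onc h (by decide))).L.symm
theorem yL42 {y x : ℝ} (h : InQ 2 y) : tL 4 2 y x = l4q2.v y x := (atB42 (onc h (by decide))).L.symm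
theorem yL32 {y x : ℝ} (h : InQ 2 y) : tL 3 2 y x = l3q2.v y x := (atB32 (onc h (by decide))).L.symm
theorem yL43 {y x : ℝ} (h : InQ 3 y) : tL 4 3 y x = l4q3.v y x := by
  rw [← (atB43 (onc h (by decide))).L]
  show lc43.v (c3n y) x = _
  have ey := ycg_v h.nonneg h.le_two
  simp only [lc43, lc43_7, lc43_8, lc43_9, lc43_12, lc43_14, l4q3, l4q3_7, l4q3_8, l4q3_9, l4q3_12, l4q3_14, ey, c1g_v, c3g_v, swg_v]
  ((try push_cast); (try ring_nf))
theorem yL33 {y x : ℝ} (h : InQ 3 y) : tL 3 3 y x = l3q3.v y x := by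
  rw [← (atB33 (onc h (by decide))).L]
  show lc33.v (c3n y) x = _
  have ey := ycg_v h.nonneg h.le_two
  simp only [lc33, lc33_11, l3q3, l3q3_4, cv3r, ey, c1g_v, c3g_v, swg_v]
  ((try push_cast); (try ring_nf))
theorem sK0_ (x : ℝ) : ∀ q y, OnC (0 : Fin 5) q y → c1n y < crv PP 1 q y →
    (ff q).SK.v y x * (crv PP 1 q y - c1n y) = tK 1 q y x - tK 0 q y x := by
  intro q y h hlt
  rcases onC_q h with rfl | rfl | rfl
  · rw [yK10 h.1, yK00 h]
    rw [ecv1q0, ← c1g_v] at hlt ⊢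
    have hd : 0 < cv1m.v y - c1g.v y := sub_pos.2 hlt
    have hi := inv_mul_cancel₀ hd.ne'
    show skf0.v y x * _ = _
    simp only [skf0, kf1q0]
    (try push_cast)
    linear_combination (c1g.v y * bf1q0.v y x - kf0q0.v y x) * hi
  · rw [yK11 h.1, yK01 h]
    rw [ecv1q1, ← c1g_v] at hlt ⊢
    have hd : 0 < cv1m.v y - c1g.v y := sub_pos.2 hlt
    have hi := inv_mul_cancel₀ hd.ne'
    show skf1.v y x * _ = _
    simp only [skf1, kf1q1]
    (try push_cast)
    linear_combination (c1g.v y * bf1q1.v y x - kf0q1.v y x) * hi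
  · rw [yK12 h.1, yK02 h]
    rw [ecv1q2, ← c1g_v] at hlt ⊢
    have hd : 0 < cv1p.v y - c1g.v y := sub_pos.2 hlt
    have hi := inv_mul_cancel₀ hd.ne'
    have hb : |c1g.v y| ≤ 1 / 2 := by rw [c1g_v]; exact bnd_O h
    have eo := odd (x := x) hb
    show skf2.v y x * _ = _
    simp only [skf2, kf1q2, kf0q2, eo]
    (try push_cast)
    linear_combination (c1g.v y * (bf1q2.v y x - 1) + (y - 1) * kcg.v (c1g.v y) x) * hi
theorem sX0_ (x : ℝ) : ∀ q y, OnC (0 : Fin 5) q y → c1n y < crv PP 1 q y →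
    (ff q).SX.v y x * (crv PP 1 q y - c1n y) = tL 1 q y x - tL 0 q y x := by
  intro q y h hlt
  rcases onC_q h with rfl | rfl | rfl
  · rw [yL10 h.1, yL00 h]
    rw [ecv1q0, ← c1g_v] at hlt ⊢
    have hd : 0 < cv1m.v y - c1g.v y := sub_pos.2 hlt
    have hi := inv_mul_cancel₀ hd.ne'
    show sxf0.v y x * _ = _
    simp only [sxf0]
    (try push_cast)
    linear_combination (l1q0.v y x - l0q0.v y x) * hi
  · rw [yL11 h.1, yL01 h]
    rw [ecv1q1, ← c1g_v] at hlt ⊢
    have hd : 0 < cv1m.v y - c1g.v y := sub_pos.2 hlt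
    have hi := inv_mul_cancel₀ hd.ne'
    show sxf1.v y x * _ = _
    simp only [sxf1]
    (try push_cast)
    linear_combination (l1q1.v y x - l0q1.v y x) * hi
  · rw [yL12 h.1, yL02 h]
    rw [ecv1q2, ← c1g_v] at hlt ⊢
    have hd : 0 < cv1p.v y - c1g.v y := sub_pos.2 hlt
    have hi := inv_mul_cancel₀ hd.ne'
    show sxf2.v y x * _ = _
    simp only [sxf2]
    (try push_cast)
    linear_combination (l1q2.v y x - l0q2.v y x) * hi
theorem sKn_ (x : ℝ) : ∀ q y, InQ q y → crv PP 3 q y < c3n y →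
    (fl q).SK.v y x * (c3n y - crv PP 3 q y) = tK 4 q y x - tK 3 q y x := by
  intro q y h hlt
  match q, h with
  | 0, h =>
    rw [yK40 h, yK30 h]
    rw [ecv3q0, ← c3g_v] at hlt ⊢
    have hd : 0 < c3g.v y - cv3m.v y := sub_pos.2 hlt
    have hi := inv_mul_cancel₀ hd.ne'
    show skl0.v y x * _ = _
    simp only [skl0, kf3q0]
    (try push_cast)
    linear_combination (kf4q0.v y x - c3g.v y * bf3q0.v y x) * hi
  | 1, h =>
    rw [yK41 h, yK31 h]
    rw [ecv3q1, ← c3g_v] at hlt ⊢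
    have hd : 0 < c3g.v y - cv3m.v y := sub_pos.2 hlt
    have hi := inv_mul_cancel₀ hd.ne'
    show skl1.v y x * _ = _
    simp only [skl1, kf3q1]
    (try push_cast)
    linear_combination (kf4q1.v y x - c3g.v y * bf3q1.v y x) * hi
  | 2, h =>
    rw [yK42 h, yK32 h]
    rw [ecv3q2, ← c3g_v] at hlt ⊢
    have hd : 0 < c3g.v y - cv3p.v y := sub_pos.2 hlt
    have hi := inv_mul_cancel₀ hd.ne'
    show skl2.v y x * _ = _
    simp only [skl2, kf3q2]
    (try push_cast)
    linear_combination (kf4q2.v y x - c3g.v y * bf3q2.v y x) * hi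
  | 3, h =>
    rw [yK43 h, yK33 h]
    rw [ecv3q3 h.1, ← c3g_v] at hlt ⊢
    have hd : 0 < c3g.v y - cv3r.v y := sub_pos.2 hlt
    have hi := inv_mul_cancel₀ hd.ne'
    have hB : kf3q3.v y x = cv3r.v y * bf3q3.v y x := by
      simp only [kf3q3, kf3q3_4, bf3q3, bf3q3_3]
    show skl3.v y x * _ = _
    simp only [skl3, hB]
    (try push_cast)
    linear_combination (kf4q3.v y x - c3g.v y * bf3q3.v y x) * hi
theorem sXn_ (x : ℝ) : ∀ q y, InQ q y → crv PP 3 q y < c3n y →
    (fl q).SX.v y x * (c3n y - crv PP 3 q y) = tL 4 q y x - tL 3 q y x := by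
  intro q y h hlt
  match q, h with
  | 0, h =>
    rw [yL40 h, yL30 h]
    rw [ecv3q0, ← c3g_v] at hlt ⊢
    have hd : 0 < c3g.v y - cv3m.v y := sub_pos.2 hlt
    have hi := inv_mul_cancel₀ hd.ne'
    show sxl0.v y x * _ = _
    simp only [sxl0]
    (try push_cast)
    linear_combination (l4q0.v y x - l3q0.v y x) * hi
  | 1, h =>
    rw [yL41 h, yL31 h]
    rw [ecv3q1, ← c3g_v] at hlt ⊢
    have hd : 0 < c3g.v y - cv3m.v y := sub_pos.2 hlt
    have hi := inv_mul_cancel₀ hd.ne'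
    show sxl1.v y x * _ = _
    simp only [sxl1]
    (try push_cast)
    linear_combination (l4q1.v y x - l3q1.v y x) * hi
  | 2, h =>
    rw [yL42 h, yL32 h]
    rw [ecv3q2, ← c3g_v] at hlt ⊢
    have hd : 0 < c3g.v y - cv3p.v y := sub_pos.2 hlt
    have hi := inv_mul_cancel₀ hd.ne'
    show sxl2.v y x * _ = _
    simp only [sxl2]
    (try push_cast)
    linear_combination (l4q2.v y x - l3q2.v y x) * hi
  | 3, h =>
    rw [yL43 h, yL33 h]
    rw [ecv3q3 h.1, ← c3g_v] at hlt ⊢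
    have hd : 0 < c3g.v y - cv3r.v y := sub_pos.2 hlt
    have hi := inv_mul_cancel₀ hd.ne'
    show sxl3.v y x * _ = _
    simp only [sxl3]
    (try push_cast)
    linear_combination (l4q3.v y x - l3q3.v y x) * hi
theorem kn_ (x : ℝ) : ∀ X, |X| ≤ vv.k1.v → kcg.v (-X) x = -(k0c.v x * X) := by
  intro X h
  have h : |X| ≤ 2 / 25 := by
    refine h.trans_eq ?_
    show (Cn.rt 2 25).v = _
    rw [Cn.rt_v]
    norm_num
  obtain ⟨h1, h2⟩ := abs_le.1 h
  rw [kcl7 (p := -X) (by linarith) (by linarith)]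
  simp only [k0c]
  push_cast
  ring
theorem tvm {p c x : ℝ} (h1 : -1 / 10 ≤ p) (h2 : p ≤ 1 / 10) : dt60.val (fun p x => kcg.v p x) p c x = (120947 / 800000 + (x - 22 / 25) * (-523 / 20000)) + (2193 / 20000 + (x - 22 / 25) * (1381 / 2000)) * p + (-1661 / 2000 + (x - 22 / 25) * (-6 / 5)) * p ^ 2 := by
  rcases eq_or_lt_of_le h1 with h | h1
  · subst h
    refine (DT.val_le (by simp only [Cn.rt_v, Cn.ng_v]; push_cast; linarith)).trans ?_
    refine (DT.val_gt (by simp only [Cn.rt_v, Cn.ng_v]; push_cast; linarith)).trans ?_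
    refine (DT.val_gt (by simp only [Cn.rt_v, Cn.ng_v]; push_cast; linarith)).trans ?_
    refine (DT.val_gt (by simp only [Cn.rt_v, Cn.ng_v]; push_cast; linarith)).trans ?_
    simp only [dt37, DT.val, sw37, sl37, sv37]
    ((try push_cast); ring1)
  ·
    refine (DT.val_gt (by simp only [Cn.rt_v, Cn.ng_v]; push_cast; linarith)).trans ?_
    refine (DT.val_le (by simp only [Cn.rt_v, Cn.ng_v]; push_cast; linarith)).trans ?_
    refine (DT.val_le (by simp only [Cn.rt_v, Cn.ng_v]; push_cast; linarith)).trans ?_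
    refine (DT.val_le (by simp only [Cn.rt_v, Cn.ng_v]; push_cast; linarith)).trans ?_
    simp only [dt38, DT.val, sw38, sl38, sv38]
    ((try push_cast); ring1)
theorem tn_ (x : ℝ) : ∀ X, |X| ≤ vv.k1.v → dd.tF x (-X) - dd.tF x X = m0c.v x * X := by
  intro X h
  have h : |X| ≤ 2 / 25 := by
    refine h.trans_eq ?_
    show (Cn.rt 2 25).v = _
    rw [Cn.rt_v]
    norm_num
  obtain ⟨h1, h2⟩ := abs_le.1 h
  show dt60.val (fun p x => kcg.v p x) (-X) (cT (-X)) x - dt60.val (fun p x => kcg.v p x) X (cT X) x = _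
  rw [tvm (by linarith) (by linarith), tvm (by linarith) (by linarith)]
  simp only [m0c]
  push_cast
  ring
theorem vK_ (x : ℝ) : ∀ y, InQ 2 y → tK 1 2 y x = crv PP 1 2 y * bf1q2.v y x := by
  intro y h
  rw [yK12 h, ecv1q2]
  simp only [kf1q2]
theorem vX_ (x : ℝ) : ∀ y, InQ 2 y → tL 1 2 y x = crv PP 1 2 y * bx1q2.v y x := by
  intro y h
  rw [yL12 h, ecv1q2]
  simp only [l1q2]
theorem n0_rK (y x : ℝ) : n0b.v y x = (1 - (y - 1) * k0c.v x) := by
  simp only [n0b, k0c]
  all_goals (try push_cast)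
  all_goals (try ring)
theorem rK_ (x : ℝ) : ∀ y, OnC (0 : Fin 5) 2 y → c1n y < crv PP 1 2 y →
    rhk.v y x * (crv PP 1 2 y - c1n y) = crv PP 1 2 y * (bf1q2.v y x - (1 - (y - 1) * k0c.v x)) := by
  intro y h hlt
  rw [ecv1q2, ← c1g_v] at hlt ⊢
  have hd : 0 < cv1p.v y - c1g.v y := sub_pos.2 hlt
  have hi := inv_mul_cancel₀ hd.ne'
  rw [← n0_rK]
  simp only [rhk]
  linear_combination ((bf1q2.v y x - n0b.v y x) * cv1p.v y) * hi
theorem n0_rX (y x : ℝ) : n0x.v y x = m0c.v x := by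
  simp only [n0x, m0c]
  all_goals (try push_cast)
  all_goals (try ring)
theorem rX_ (x : ℝ) : ∀ y, OnC (0 : Fin 5) 2 y → c1n y < crv PP 1 2 y →
    rhx.v y x * (crv PP 1 2 y - c1n y) = crv PP 1 2 y * (bx1q2.v y x - m0c.v x) := by
  intro y h hlt
  rw [ecv1q2, ← c1g_v] at hlt ⊢
  have hd : 0 < cv1p.v y - c1g.v y := sub_pos.2 hlt
  have hi := inv_mul_cancel₀ hd.ne'
  rw [← n0_rX]
  simp only [rhx]
  linear_combination ((bx1q2.v y x - n0x.v y x) * cv1p.v y) * hi
theorem flat_ (x : ℝ) : ∀ y, InQ 2 y → vv.ya.v ≤ y → y ≤ vv.yb.v → bf1q2.v y x = 1 - (y - 1) * k0c.v x ∧ bx1q2.v y x = m0c.v x := by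
  intro y h h1 h2
  have ea : vv.ya.v = 577 / 500 := by
    show (Cn.rt 577 500).v = _
    rw [Cn.rt_v]
    norm_num
  have eb : vv.yb.v = 231 / 200 := by
    show (Cn.rt 231 200).v = _
    rw [Cn.rt_v]
    norm_num
  rw [ea] at h1
  rw [eb] at h2
  constructor
  · simp only [bf1q2, bf1q2_3, bf1q2_9, bf1q2_15, k0c]
    rcases eq_or_lt_of_le h1 with g | h1
    · subst g
      ((try push_cast); (repeat first | rw [if_pos (by linarith)] | rw [if_neg (by linarith)] | erw [if_pos (by linarith)] | erw [if_neg (by linarith)]); (try push_cast); (try ring1))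
    rcases eq_or_lt_of_le h2 with g | h2
    · subst g
      ((try push_cast); (repeat first | rw [if_pos (by linarith)] | rw [if_neg (by linarith)] | erw [if_pos (by linarith)] | erw [if_neg (by linarith)]); (try push_cast); (try ring1))
    · ((try push_cast); (repeat first | rw [if_pos (by linarith)] | rw [if_neg (by linarith)] | erw [if_pos (by linarith)] | erw [if_neg (by linarith)]); (try push_cast); (try ring1))
  · simp only [bx1q2, bx1q2_3, m0c]
    rcases eq_or_lt_of_le h1 with g | h1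
    · subst g
      ((try push_cast); (repeat first | rw [if_pos (by linarith)] | rw [if_neg (by linarith)] | erw [if_pos (by linarith)] | erw [if_neg (by linarith)]); (try push_cast); (try ring1))
    rcases eq_or_lt_of_le h2 with g | h2
    · subst g
      ((try push_cast); (repeat first | rw [if_pos (by linarith)] | rw [if_neg (by linarith)] | erw [if_pos (by linarith)] | erw [if_neg (by linarith)]); (try push_cast); (try ring1))
    · ((try push_cast); (repeat first | rw [if_pos (by linarith)] | rw [if_neg (by linarith)] | erw [if_pos (by linarith)] | erw [if_neg (by linarith)]); (try push_cast); (try ring1))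
theorem abk_ (x : ℝ) : ∀ y, InQ 2 y → vv.yb.v ≤ y → y ≤ vv.yk.v → bf1q2.v y x = 1 - (y - 1) * k0c.v x + sbk.v x * (y - vv.yb.v) ∧
    bx1q2.v y x = m0c.v x + sbx.v x * (y - vv.yb.v) := by
  intro y h h1 h2
  have eb : vv.yb.v = 231 / 200 := by
    show (Cn.rt 231 200).v = _
    rw [Cn.rt_v]
    norm_num
  have ek : vv.yk.v = 3 / 2 := by
    show (Cn.rt 3 2).v = _
    rw [Cn.rt_v]
    norm_num
  rw [eb] at h1 ⊢
  rw [ek] at h2
  constructor
  · simp only [bf1q2, bf1q2_3, bf1q2_9, bf1q2_15, k0c, sbk]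
    rcases eq_or_lt_of_le h1 with g | h1
    · subst g
      ((try push_cast); (repeat first | rw [if_pos (by linarith)] | rw [if_neg (by linarith)] | erw [if_pos (by linarith)] | erw [if_neg (by linarith)]); (try push_cast); (try ring1))
    rcases eq_or_lt_of_le h2 with g | h2
    · subst g
      ((try push_cast); (repeat first | rw [if_pos (by linarith)] | rw [if_neg (by linarith)] | erw [if_pos (by linarith)] | erw [if_neg (by linarith)]); (try push_cast); (try ring1))
    · ((try push_cast); (repeat first | rw [if_pos (by linarith)] | rw [if_neg (by linarith)] | erw [if_pos (by linarith)] | erw [if_neg (by linarith)]); (try push_cast); (try ring1))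
  · simp only [bx1q2, bx1q2_3, m0c, sbx]
    rcases eq_or_lt_of_le h1 with g | h1
    · subst g
      ((try push_cast); (repeat first | rw [if_pos (by linarith)] | rw [if_neg (by linarith)] | erw [if_pos (by linarith)] | erw [if_neg (by linarith)]); (try push_cast); (try ring1))
    rcases eq_or_lt_of_le h2 with g | h2
    · subst g
      ((try push_cast); (repeat first | rw [if_pos (by linarith)] | rw [if_neg (by linarith)] | erw [if_pos (by linarith)] | erw [if_neg (by linarith)]); (try push_cast); (try ring1))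
    · ((try push_cast); (repeat first | rw [if_pos (by linarith)] | rw [if_neg (by linarith)] | erw [if_pos (by linarith)] | erw [if_neg (by linarith)]); (try push_cast); (try ring1))
theorem ka_dt61 (x : ℝ) : dt61.kv (-1 / 5) x = (17159 / 20000000 + (x - 22 / 25) * (3559 / 80000)) := by
  simp only [dt61, DT.kv, sw61, sl61, sv61]
  ((try push_cast); ring1)
theorem kb_dt61 (x : ℝ) : dt61.kv (-4 / 25) x = (19471 / 20000000 + (x - 22 / 25) * (42087 / 2000000)) := by
  simp only [dt61, DT.kv, sw61, sl61, sv61]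
  ((try push_cast); ring1)
theorem ka_dt62 (x : ℝ) : dt62.kv (-4 / 25) x = (19471 / 20000000 + (x - 22 / 25) * (42087 / 2000000)) := by
  simp only [dt62, DT.kv, sw62, sl62, sv62]
  ((try push_cast); ring1)
theorem kb_dt62 (x : ℝ) : dt62.kv (-3 / 20) x = (587 / 800000 + (x - 22 / 25) * (301 / 20000)) := by
  simp only [dt62, DT.kv, sw62, sl62, sv62]
  ((try push_cast); ring1)
theorem ka_dt63 (x : ℝ) : dt63.kv (-3 / 20) x = (587 / 800000 + (x - 22 / 25) * (301 / 20000)) := by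
  simp only [dt63, DT.kv, sw63, sl63, sv63]
  ((try push_cast); ring1)
theorem kb_dt63 (x : ℝ) : dt63.kv (-1 / 10) x = (0) := by
  simp only [dt63, DT.kv, sw63, sl63, sv63]
  ((try push_cast); ring1)
theorem ka_dt68 (x : ℝ) : dt68.kv (-4 / 25) x = (19471 / 20000000 + (x - 22 / 25) * (42087 / 2000000)) :=
  (DT.kv_le (by simp only [Cn.rt_v, Cn.ng_v]; norm_num)).trans (ka_dt62 x)
theorem kb_dt68 (x : ℝ) : dt68.kv (-1 / 10) x = (0) :=
  (DT.kv_gt (by simp only [Cn.rt_v, Cn.ng_v]; norm_num)).trans (kb_dt63 x)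
theorem ka_dt69 (x : ℝ) : dt69.kv (-1 / 5) x = (17159 / 20000000 + (x - 22 / 25) * (3559 / 80000)) :=
  (DT.kv_le (by simp only [Cn.rt_v, Cn.ng_v]; norm_num)).trans (ka_dt61 x)
theorem kb_dt69 (x : ℝ) : dt69.kv (-1 / 10) x = (0) :=
  (DT.kv_gt (by simp only [Cn.rt_v, Cn.ng_v]; norm_num)).trans (kb_dt68 x)
theorem ka_dt64 (x : ℝ) : dt64.kv (-1 / 10) x = (0) := by
  simp only [dt64, DT.kv, sl64, sv64]
  ((try push_cast); ring1)
theorem kb_dt64 (x : ℝ) : dt64.kv (1 / 10) x = (0) := by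
  simp only [dt64, DT.kv, sl64, sv64]
  ((try push_cast); ring1)
theorem ka_dt65 (x : ℝ) : dt65.kv (1 / 10) x = (0) := by
  simp only [dt65, DT.kv, sw65, sl65, sv65]
  ((try push_cast); ring1)
theorem kb_dt65 (x : ℝ) : dt65.kv (3 / 20) x = (-587 / 800000 + (x - 22 / 25) * (-301 / 20000)) := by
  simp only [dt65, DT.kv, sw65, sl65, sv65]
  ((try push_cast); ring1)
theorem ka_dt70 (x : ℝ) : dt70.kv (-1 / 10) x = (0) :=
  (DT.kv_le (by simp only [Cn.rt_v, Cn.ng_v]; norm_num)).trans (ka_dt64 x)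
theorem kb_dt70 (x : ℝ) : dt70.kv (3 / 20) x = (-587 / 800000 + (x - 22 / 25) * (-301 / 20000)) :=
  (DT.kv_gt (by simp only [Cn.rt_v, Cn.ng_v]; norm_num)).trans (kb_dt65 x)
theorem ka_dt66 (x : ℝ) : dt66.kv (3 / 20) x = (-587 / 800000 + (x - 22 / 25) * (-301 / 20000)) := by
  simp only [dt66, DT.kv, sw66, sl66, sv66]
  ((try push_cast); ring1)
theorem kb_dt66 (x : ℝ) : dt66.kv (4 / 25) x = (-19471 / 20000000 + (x - 22 / 25) * (-42087 / 2000000)) := by
  simp only [dt66, DT.kv, sw66, sl66, sv66]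
  ((try push_cast); ring1)
theorem ka_dt67 (x : ℝ) : dt67.kv (4 / 25) x = (-19471 / 20000000 + (x - 22 / 25) * (-42087 / 2000000)) := by
  simp only [dt67, DT.kv, sw67, sl67, sv67]
  ((try push_cast); ring1)
theorem kb_dt67 (x : ℝ) : dt67.kv (1 / 5) x = (-17159 / 20000000 + (x - 22 / 25) * (-3559 / 80000)) := by
  simp only [dt67, DT.kv, sw67, sl67, sv67]
  ((try push_cast); ring1)
theorem ka_dt71 (x : ℝ) : dt71.kv (3 / 20) x = (-587 / 800000 + (x - 22 / 25) * (-301 / 20000)) :=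
  (DT.kv_le (by simp only [Cn.rt_v, Cn.ng_v]; norm_num)).trans (ka_dt66 x)
theorem kb_dt71 (x : ℝ) : dt71.kv (1 / 5) x = (-17159 / 20000000 + (x - 22 / 25) * (-3559 / 80000)) :=
  (DT.kv_gt (by simp only [Cn.rt_v, Cn.ng_v]; norm_num)).trans (kb_dt67 x)
theorem ka_dt72 (x : ℝ) : dt72.kv (-1 / 10) x = (0) :=
  (DT.kv_le (by simp only [Cn.rt_v, Cn.ng_v]; norm_num)).trans (ka_dt70 x)
theorem kb_dt72 (x : ℝ) : dt72.kv (1 / 5) x = (-17159 / 20000000 + (x - 22 / 25) * (-3559 / 80000)) :=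
  (DT.kv_gt (by simp only [Cn.rt_v, Cn.ng_v]; norm_num)).trans (kb_dt71 x)
theorem ka_dt73 (x : ℝ) : dt73.kv (-1 / 5) x = (17159 / 20000000 + (x - 22 / 25) * (3559 / 80000)) :=
  (DT.kv_le (by simp only [Cn.rt_v, Cn.ng_v]; norm_num)).trans (ka_dt69 x)
theorem kb_dt73 (x : ℝ) : dt73.kv (1 / 5) x = (-17159 / 20000000 + (x - 22 / 25) * (-3559 / 80000)) :=
  (DT.kv_gt (by simp only [Cn.rt_v, Cn.ng_v]; norm_num)).trans (kb_dt72 x)
theorem ko_dt61 (x : ℝ) : dt61.KOk x := trivial
theorem ko_dt62 (x : ℝ) : dt62.KOk x := trivial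
theorem ko_dt63 (x : ℝ) : dt63.KOk x := trivial
theorem ko_dt68 (x : ℝ) : dt68.KOk x :=
  DT.kOk_node (v := -3 / 20) (by simp only [Cn.rt_v, Cn.ng_v]; norm_num) (kb_dt62 x) (ka_dt63 x) (by ring1) (ko_dt62 x) (ko_dt63 x)
theorem ko_dt69 (x : ℝ) : dt69.KOk x :=
  DT.kOk_node (v := -4 / 25) (by simp only [Cn.rt_v, Cn.ng_v]; norm_num) (kb_dt61 x) (ka_dt68 x) (by ring1) (ko_dt61 x) (ko_dt68 x)
theorem ko_dt64 (x : ℝ) : dt64.KOk x := trivial
theorem ko_dt65 (x : ℝ) : dt65.KOk x := trivial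
theorem ko_dt70 (x : ℝ) : dt70.KOk x :=
  DT.kOk_node (v := 1 / 10) (by simp only [Cn.rt_v, Cn.ng_v]; norm_num) (kb_dt64 x) (ka_dt65 x) (by ring1) (ko_dt64 x) (ko_dt65 x)
theorem ko_dt66 (x : ℝ) : dt66.KOk x := trivial
theorem ko_dt67 (x : ℝ) : dt67.KOk x := trivial
theorem ko_dt71 (x : ℝ) : dt71.KOk x :=
  DT.kOk_node (v := 4 / 25) (by simp only [Cn.rt_v, Cn.ng_v]; norm_num) (kb_dt66 x) (ka_dt67 x) (by ring1) (ko_dt66 x) (ko_dt67 x)
theorem ko_dt72 (x : ℝ) : dt72.KOk x :=
  DT.kOk_node (v := 3 / 20) (by simp only [Cn.rt_v, Cn.ng_v]; norm_num) (kb_dt70 x) (ka_dt71 x) (by ring1) (ko_dt70 x) (ko_dt71 x)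
theorem ko_dt73 (x : ℝ) : dt73.KOk x :=
  DT.kOk_node (v := -1 / 10) (by simp only [Cn.rt_v, Cn.ng_v]; norm_num) (kb_dt69 x) (ka_dt72 x) (by ring1) (ko_dt69 x) (ko_dt72 x)
theorem phl0 {p x : ℝ} (h2 : p ≤ -4 / 25) : dt73.kv p x = (-315281 / 20000000 + (x - 22 / 25) * (-6497 / 80000)) + (-19061 / 100000 + (x - 22 / 25) * (-1363 / 2000)) * p + (-43 / 80 + (x - 22 / 25) * (-53 / 200)) * p ^ 2 := by
  refine (DT.kv_le (by simp only [Cn.rt_v, Cn.ng_v]; push_cast; linarith)).trans ?_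
  refine (DT.kv_le (by simp only [Cn.rt_v, Cn.ng_v]; push_cast; linarith)).trans ?_
  simp only [dt61, DT.kv, sw61, sl61, sv61]
  ((try push_cast); ring1)
theorem phl1 {p x : ℝ} (h1 : -4 / 25 < p) (h2 : p ≤ -3 / 20) : dt73.kv p x = (-12601 / 800000 + (x - 22 / 25) * (-6497 / 80000)) + (-3809 / 20000 + (x - 22 / 25) * (-1363 / 2000)) * p + (-537 / 1000 + (x - 22 / 25) * (-53 / 200)) * p ^ 2 := by
  refine (DT.kv_le (by simp only [Cn.rt_v, Cn.ng_v]; push_cast; linarith)).trans ?_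
  refine (DT.kv_gt (by simp only [Cn.rt_v, Cn.ng_v]; push_cast; linarith)).trans ?_
  refine (DT.kv_le (by simp only [Cn.rt_v, Cn.ng_v]; push_cast; linarith)).trans ?_
  simp only [dt62, DT.kv, sw62, sl62, sv62]
  ((try push_cast); ring1)
theorem phl2 {p x : ℝ} (h1 : -3 / 20 < p) (h2 : p ≤ -1 / 10) : dt73.kv p x = (587 / 200000 + (x - 22 / 25) * (301 / 5000)) + (587 / 10000 + (x - 22 / 25) * (301 / 250)) * p + (587 / 2000 + (x - 22 / 25) * (301 / 50)) * p ^ 2 := by
  refine (DT.kv_le (by simp only [Cn.rt_v, Cn.ng_v]; push_cast; linarith)).trans ?_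
  refine (DT.kv_gt (by simp only [Cn.rt_v, Cn.ng_v]; push_cast; linarith)).trans ?_
  refine (DT.kv_gt (by simp only [Cn.rt_v, Cn.ng_v]; push_cast; linarith)).trans ?_
  simp only [dt63, DT.kv, sw63, sl63, sv63]
  ((try push_cast); ring1)
theorem phl3 {p x : ℝ} (h1 : -1 / 10 < p) (h2 : p ≤ 1 / 10) : dt73.kv p x = (0) + (0) * p := by
  refine (DT.kv_gt (by simp only [Cn.rt_v, Cn.ng_v]; push_cast; linarith)).trans ?_
  refine (DT.kv_le (by simp only [Cn.rt_v, Cn.ng_v]; push_cast; linarith)).trans ?_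
  refine (DT.kv_le (by simp only [Cn.rt_v, Cn.ng_v]; push_cast; linarith)).trans ?_
  simp only [dt64, DT.kv, sl64, sv64]
  ((try push_cast); ring1)
theorem phl4 {p x : ℝ} (h1 : 1 / 10 < p) (h2 : p ≤ 3 / 20) : dt73.kv p x = (-587 / 200000 + (x - 22 / 25) * (-301 / 5000)) + (587 / 10000 + (x - 22 / 25) * (301 / 250)) * p + (-587 / 2000 + (x - 22 / 25) * (-301 / 50)) * p ^ 2 := by
  refine (DT.kv_gt (by simp only [Cn.rt_v, Cn.ng_v]; push_cast; linarith)).trans ?_
  refine (DT.kv_le (by simp only [Cn.rt_v, Cn.ng_v]; push_cast; linarith)).trans ?_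
  refine (DT.kv_gt (by simp only [Cn.rt_v, Cn.ng_v]; push_cast; linarith)).trans ?_
  simp only [dt65, DT.kv, sw65, sl65, sv65]
  ((try push_cast); ring1)
theorem phl5 {p x : ℝ} (h1 : 3 / 20 < p) (h2 : p ≤ 4 / 25) : dt73.kv p x = (12601 / 800000 + (x - 22 / 25) * (6497 / 80000)) + (-3809 / 20000 + (x - 22 / 25) * (-1363 / 2000)) * p + (537 / 1000 + (x - 22 / 25) * (53 / 200)) * p ^ 2 := by
  refine (DT.kv_gt (by simp only [Cn.rt_v, Cn.ng_v]; push_cast; linarith)).trans ?_
  refine (DT.kv_gt (by simp only [Cn.rt_v, Cn.ng_v]; push_cast; linarith)).trans ?_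
  refine (DT.kv_le (by simp only [Cn.rt_v, Cn.ng_v]; push_cast; linarith)).trans ?_
  simp only [dt66, DT.kv, sw66, sl66, sv66]
  ((try push_cast); ring1)
theorem phl6 {p x : ℝ} (h1 : 4 / 25 < p) (h2 : p ≤ 1 / 5) : dt73.kv p x = (315281 / 20000000 + (x - 22 / 25) * (6497 / 80000)) + (-19061 / 100000 + (x - 22 / 25) * (-1363 / 2000)) * p + (43 / 80 + (x - 22 / 25) * (53 / 200)) * p ^ 2 := by
  refine (DT.kv_gt (by simp only [Cn.rt_v, Cn.ng_v]; push_cast; linarith)).trans ?_
  refine (DT.kv_gt (by simp only [Cn.rt_v, Cn.ng_v]; push_cast; linarith)).trans ?_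
  refine (DT.kv_gt (by simp only [Cn.rt_v, Cn.ng_v]; push_cast; linarith)).trans ?_
  simp only [dt67, DT.kv, sw67, sl67, sv67]
  ((try push_cast); ring1)
theorem tvc6 {p x : ℝ} (h1 : -1 / 5 ≤ p) (h2 : p ≤ -3 / 20) : dt60.val (fun p x => kcg.v p x) p (cT p) x = (16987 / 100000 + (x - 22 / 25) * (1073 / 16000)) + (897 / 2500 + (x - 22 / 25) * (403 / 250)) * p + (0 + (x - 22 / 25) * (53 / 200)) * p ^ 2 := by
  rcases eq_or_lt_of_le h1 with h | h1
  · subst h
    refine (DT.val_le (by simp only [Cn.rt_v, Cn.ng_v]; push_cast; linarith)).trans ?_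
    refine (DT.val_gt (by simp only [Cn.rt_v, Cn.ng_v]; push_cast; linarith)).trans ?_
    refine (DT.val_le (by simp only [Cn.rt_v, Cn.ng_v]; push_cast; linarith)).trans ?_
    refine (DT.val_gt (by simp only [Cn.rt_v, Cn.ng_v]; push_cast; linarith)).trans ?_
    simp only [dt35, DT.val, sw35, sl35, sv35]
    ((try push_cast); ring1)
  ·
    refine (DT.val_le (by simp only [Cn.rt_v, Cn.ng_v]; push_cast; linarith)).trans ?_
    refine (DT.val_gt (by simp only [Cn.rt_v, Cn.ng_v]; push_cast; linarith)).trans ?_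
    refine (DT.val_gt (by simp only [Cn.rt_v, Cn.ng_v]; push_cast; linarith)).trans ?_
    refine (DT.val_le (by simp only [Cn.rt_v, Cn.ng_v]; push_cast; linarith)).trans ?_
    simp only [dt36, DT.val, sw36, sl36, sv36]
    ((try push_cast); ring1)
theorem tvc7 {p x : ℝ} (h1 : -3 / 20 ≤ p) (h2 : p ≤ -1 / 10) : dt60.val (fun p x => kcg.v p x) p (cT p) x = (120947 / 800000 + (x - 22 / 25) * (-1487 / 20000)) + (2193 / 20000 + (x - 22 / 25) * (-547 / 2000)) * p + (-1661 / 2000 + (x - 22 / 25) * (-301 / 50)) * p ^ 2 := by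
  rcases eq_or_lt_of_le h1 with h | h1
  · subst h
    refine (DT.val_le (by simp only [Cn.rt_v, Cn.ng_v]; push_cast; linarith)).trans ?_
    refine (DT.val_gt (by simp only [Cn.rt_v, Cn.ng_v]; push_cast; linarith)).trans ?_
    refine (DT.val_gt (by simp only [Cn.rt_v, Cn.ng_v]; push_cast; linarith)).trans ?_
    refine (DT.val_le (by simp only [Cn.rt_v, Cn.ng_v]; push_cast; linarith)).trans ?_
    simp only [dt36, DT.val, sw36, sl36, sv36]
    ((try push_cast); ring1)
  ·
    refine (DT.val_le (by simp only [Cn.rt_v, Cn.ng_v]; push_cast; linarith)).trans ?_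
    refine (DT.val_gt (by simp only [Cn.rt_v, Cn.ng_v]; push_cast; linarith)).trans ?_
    refine (DT.val_gt (by simp only [Cn.rt_v, Cn.ng_v]; push_cast; linarith)).trans ?_
    refine (DT.val_gt (by simp only [Cn.rt_v, Cn.ng_v]; push_cast; linarith)).trans ?_
    simp only [dt37, DT.val, sw37, sl37, sv37]
    ((try push_cast); ring1)
theorem tvc8 {p x : ℝ} (h1 : -1 / 10 ≤ p) (h2 : p ≤ 1 / 10) : dt60.val (fun p x => kcg.v p x) p (cT p) x = (120947 / 800000 + (x - 22 / 25) * (-523 / 20000)) + (2193 / 20000 + (x - 22 / 25) * (1381 / 2000)) * p + (-1661 / 2000 + (x - 22 / 25) * (-6 / 5)) * p ^ 2 := by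
  rcases eq_or_lt_of_le h1 with h | h1
  · subst h
    refine (DT.val_le (by simp only [Cn.rt_v, Cn.ng_v]; push_cast; linarith)).trans ?_
    refine (DT.val_gt (by simp only [Cn.rt_v, Cn.ng_v]; push_cast; linarith)).trans ?_
    refine (DT.val_gt (by simp only [Cn.rt_v, Cn.ng_v]; push_cast; linarith)).trans ?_
    refine (DT.val_gt (by simp only [Cn.rt_v, Cn.ng_v]; push_cast; linarith)).trans ?_
    simp only [dt37, DT.val, sw37, sl37, sv37]
    ((try push_cast); ring1)
  ·
    refine (DT.val_gt (by simp only [Cn.rt_v, Cn.ng_v]; push_cast; linarith)).trans ?_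
    refine (DT.val_le (by simp only [Cn.rt_v, Cn.ng_v]; push_cast; linarith)).trans ?_
    refine (DT.val_le (by simp only [Cn.rt_v, Cn.ng_v]; push_cast; linarith)).trans ?_
    refine (DT.val_le (by simp only [Cn.rt_v, Cn.ng_v]; push_cast; linarith)).trans ?_
    simp only [dt38, DT.val, sw38, sl38, sv38]
    ((try push_cast); ring1)
theorem tvc9 {p x : ℝ} (h1 : 1 / 10 ≤ p) (h2 : p ≤ 4 / 25) : dt60.val (fun p x => kcg.v p x) p (cT p) x = (24659 / 160000 + (x - 22 / 25) * (-283 / 20000)) + (1019 / 20000 + (x - 22 / 25) * (901 / 2000)) * p + (-537 / 1000) * p ^ 2 := by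
  rcases eq_or_lt_of_le h1 with h | h1
  · subst h
    refine (DT.val_gt (by simp only [Cn.rt_v, Cn.ng_v]; push_cast; linarith)).trans ?_
    refine (DT.val_le (by simp only [Cn.rt_v, Cn.ng_v]; push_cast; linarith)).trans ?_
    refine (DT.val_le (by simp only [Cn.rt_v, Cn.ng_v]; push_cast; linarith)).trans ?_
    refine (DT.val_le (by simp only [Cn.rt_v, Cn.ng_v]; push_cast; linarith)).trans ?_
    simp only [dt38, DT.val, sw38, sl38, sv38]
    ((try push_cast); ring1)
  ·
    refine (DT.val_gt (by simp only [Cn.rt_v, Cn.ng_v]; push_cast; linarith)).trans ?_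
    refine (DT.val_le (by simp only [Cn.rt_v, Cn.ng_v]; push_cast; linarith)).trans ?_
    refine (DT.val_le (by simp only [Cn.rt_v, Cn.ng_v]; push_cast; linarith)).trans ?_
    refine (DT.val_gt (by simp only [Cn.rt_v, Cn.ng_v]; push_cast; linarith)).trans ?_
    simp only [dt39, DT.val, sw39, sl39, sv39]
    ((try push_cast); ring1)
theorem tvc10 {p x : ℝ} (h1 : 4 / 25 ≤ p) (h2 : p ≤ 1 / 5) : dt60.val (fun p x => kcg.v p x) p (cT p) x = (3082119 / 20000000 + (x - 22 / 25) * (-283 / 20000)) + (5111 / 100000 + (x - 22 / 25) * (901 / 2000)) * p + (-43 / 80) * p ^ 2 := by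
  rcases eq_or_lt_of_le h1 with h | h1
  · subst h
    refine (DT.val_gt (by simp only [Cn.rt_v, Cn.ng_v]; push_cast; linarith)).trans ?_
    refine (DT.val_le (by simp only [Cn.rt_v, Cn.ng_v]; push_cast; linarith)).trans ?_
    refine (DT.val_le (by simp only [Cn.rt_v, Cn.ng_v]; push_cast; linarith)).trans ?_
    refine (DT.val_gt (by simp only [Cn.rt_v, Cn.ng_v]; push_cast; linarith)).trans ?_
    simp only [dt39, DT.val, sw39, sl39, sv39]
    ((try push_cast); ring1)
  ·
    refine (DT.val_gt (by simp only [Cn.rt_v, Cn.ng_v]; push_cast; linarith)).trans ?_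
    refine (DT.val_le (by simp only [Cn.rt_v, Cn.ng_v]; push_cast; linarith)).trans ?_
    refine (DT.val_gt (by simp only [Cn.rt_v, Cn.ng_v]; push_cast; linarith)).trans ?_
    refine (DT.val_le (by simp only [Cn.rt_v, Cn.ng_v]; push_cast; linarith)).trans ?_
    simp only [dt40, DT.val, sw40, sl40, sv40]
    ((try push_cast); ring1)
theorem ph_ (x : ℝ) : ∀ u, |u| ≤ vv.k2.v → dd.tF x (-u) - dd.tF x u = m0c.v x * u + dt73.kv u x := by
  intro u h
  have h : |u| ≤ 1 / 5 := by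
    refine h.trans_eq ?_
    show (Cn.rt 1 5).v = _
    rw [Cn.rt_v]
    norm_num
  obtain ⟨h1, h2⟩ := abs_le.1 h
  show dt60.val (fun p x => kcg.v p x) (-u) (cT (-u)) x - dt60.val (fun p x => kcg.v p x) u (cT u) x = _
  rcases le_or_gt u (-4 / 25) with g0 | g1000
  ·
    rw [tvc10 (p := -u) (by linarith) (by linarith), tvc6 (p := u) (by linarith) (by linarith), phl0 g0]
    simp only [m0c]
    push_cast
    ring
  rcases le_or_gt u (-3 / 20) with g1 | g1001
  ·
    rw [tvc9 (p := -u) (by linarith) (by linarith), tvc6 (p := u) (by linarith) (by linarith), phl1 g1000 g1]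
    simp only [m0c]
    push_cast
    ring
  rcases le_or_gt u (-1 / 10) with g2 | g1002
  ·
    rw [tvc9 (p := -u) (by linarith) (by linarith), tvc7 (p := u) (by linarith) (by linarith), phl2 g1001 g2]
    simp only [m0c]
    push_cast
    ring
  rcases le_or_gt u (1 / 10) with g3 | g1003
  ·
    rw [tvc8 (p := -u) (by linarith) (by linarith), tvc8 (p := u) (by linarith) (by linarith), phl3 g1002 g3]
    simp only [m0c]
    push_cast
    ring
  rcases le_or_gt u (3 / 20) with g4 | g1004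
  ·
    rw [tvc7 (p := -u) (by linarith) (by linarith), tvc9 (p := u) (by linarith) (by linarith), phl4 g1003 g4]
    simp only [m0c]
    push_cast
    ring
  rcases le_or_gt u (4 / 25) with g5 | g1005
  ·
    rw [tvc6 (p := -u) (by linarith) (by linarith), tvc9 (p := u) (by linarith) (by linarith), phl5 g1004 g5]
    simp only [m0c]
    push_cast
    ring
  ·
    rw [tvc6 (p := -u) (by linarith) (by linarith), tvc10 (p := u) (by linarith) (by linarith), phl6 g1005 (by linarith)]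
    simp only [m0c]
    push_cast
    ring
theorem kqf_ {y : ℝ} (x : ℝ) (h : OnC (0 : Fin 5) 2 y) : kqf.v y x * c1g.v y = (y - 1) * kcg.v (c1g.v y) x := by
  have h0 : 0 ≤ c1g.v y := by rw [c1g_v]; exact c1n_nn y
  simp only [kqf]
  (try push_cast)
  split_ifs with hh
  · rw [kcl7 (p := c1g.v y) (by linarith) (by linarith)]
    ring
  · have hc : c1g.v y ≠ 0 := by
      intro e
      rw [e] at hh
      exact hh (by norm_num)
    have hi := inv_mul_cancel₀ hc
    linear_combination ((y - 1) * kcg.v (c1g.v y) x) * hi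
theorem sM_ (x : ℝ) : ∀ y, OnC (0 : Fin 5) 2 y → c1n y < crv PP 1 2 y →
    (1 + skm.v y x) * (crv PP 1 2 y - c1n y) = tK 1 2 y x - tK 0 2 y x := by
  intro y h hlt
  rw [yK12 h.1, yK02 h]
  rw [ecv1q2, ← c1g_v] at hlt ⊢
  have hd : 0 < cv1p.v y - c1g.v y := sub_pos.2 hlt
  have hi := inv_mul_cancel₀ hd.ne'
  have hb : |c1g.v y| ≤ 1 / 2 := by rw [c1g_v]; exact bnd_O h
  have eo := odd (x := x) hb
  have hk := kqf_ x h
  simp only [skm, kf1q2, kf0q2, eo]
  (try push_cast)
  linear_combination (cv1p.v y * ((bf1q2.v y x - 1) + kqf.v y x)) * hi + hk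
theorem ok (x : ℝ) : tt.Ok PP tK tL x where
  i0 := rfl
  il := rfl
  rl := by
    show 1 < PP.ρ 3
    have e : PP.ρ 3 = 3 / 2 := rfl
    rw [e]
    norm_num
  ok := dok x
  kh := rfl
  odd := fun p h => odd h
  K0 := K0_ x
  L0 := L0_ x
  Kn := Kn_ x
  Ln := Ln_ x
  f0 := f0_
  fn := fn_
  sK0 := sK0_ x
  sX0 := sX0_ x
  sKn := sKn_ x
  sXn := sXn_ x
  k1 := by
    show 0 ≤ (Cn.rt 2 25).v ∧ (Cn.rt 2 25).v ≤ 1 / 2
    rw [Cn.rt_v]
    constructor <;> norm_num
  kn := kn_ x
  tn := tn_ x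
  vK := vK_ x
  vX := vX_ x
  rK := rK_ x
  rX := rX_ x
  yb := by
    show 0 ≤ (Cn.rt 231 200).v ∧ 1 ≤ 3 / 4 * (Cn.rt 231 200).v ^ 2
    rw [Cn.rt_v]
    constructor <;> norm_num
  flat := flat_ x
  abk := abk_ x
  phk := ko_dt73 x
  ph := ph_ x
  sM := sM_ x
  yz := by
    show (Cn.rt 577 500).v ≤ (Cn.rt 577 500).v ∧ 0 ≤ (Cn.rt 577 500).v ∧ 1 ≤ 3 / 4 * (Cn.rt 577 500).v ^ 2 + (Cn.rt 2 25).v ^ 2
    simp only [Cn.rt_v]
    refine ⟨?_, ?_, ?_⟩ <;> norm_num
theorem okx {x : ℝ} (hx : ((923417968 : ℕ) : ℝ) / S ≤ x) (hx' : x ≤ (((923417968 : ℕ) : ℝ) + (42949674 : ℕ)) / S) : tt.Ok PP tK tL x := ok x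

end Pool.Agent.Strip051.G.I8600_9000.Tab.St
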