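import Pool.Agent.Strip051.G.I8600_9000.StH
import Pool.Agent.Strip051.G.I8600_9000.StF

/-! # Unit strips 1 (generated) -/

set_option linter.all false
set_option maxRecDepth 100000

namespace Pool.Agent.Strip051.G.I8600_9000.Tab.St.C

open Pool.Agent.Strip051.PB Pool.Agent.Strip051.PB.T Pool.Agent.StripNear Pool.Agent.Strip051.LC
open Pool.Agent.Strip051.G.I8600_9000.Tab Pool.Agent.Strip051.G.I8600_9000.Tab.St

noncomputable def cut_A00pp_022_s3 : Cut := Cut.of [[⟨3, 0, 0, 2845415833⟩], [⟨0, 0, 0, 67108864⟩, ⟨1, 1, 0, 67108864⟩, ⟨2, 1, 0, 67108864⟩]]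

noncomputable def xt_A00pp_022_s3 : Ext := strExt dd true true true .u0 .u2 .s2 .pp 0 2 2 rfl rfl gl2 vv ndB0q0 ndB0q2

noncomputable def f_A00pp_022_s3 : ℕ → ℕ → ℕ → ℕ → Bool := onCell 0 536870912 0 536870912 923417968 42949674
    (rowF 0 true true true .pp 0 2 2 (qsf 0 536870912 0 536870912 2) ndB0q0 ndB0q2 pcB2 cut_A00pp_022_s3 xt_A00pp_022_s3)

def k0_A00pp_022_s3 : ∃ t, chk3 f_A00pp_022_s3 t 2 2 1 = true :=
  ⟨(a (b (l 6) (a (l 6) (b (l 6) (b (l 6) (a (a (l 6) (b (l 6) (l 16512144))) (a (b (l 16574232) (l 16550416)) (b (l 16567384) (l 16544880)))))))) (b (a (l 6) (b (l 6) (a (l 6) (b (l 6) (a (l 6) (l 16496912)))))) (a (b (a (l 6) (b (l 6) (a (l 16465064) (b (l 16477000) (l 16504040))))) (a (b (a (b (l 6) (l 16543544)) (b (l 16521040) (l 16460384))) (b (a (l 16564880) (l 16524888)) (a (c (l 16589928) (l 16581048)) (b (l 16541392) (l 16552208))))) (b (a (b (l 16524184) (l 16464712)) (b (l 16530288) (l 16513864))) (a (b (l 16530384) (b (l 16547760) (l 16580128))) (b (a (l 16578328) (l 16583152))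 (a (l 16560304) (l 16565656))))))) (b (a (b (a (l 16525192) (l 16533160)) (a (b (l 16483768) (l 16511880)) (b (l 16493256) (l 16522344)))) (c (b (a (l 16472456) (l 16485400)) (a (l 16613904) (l 16628360))) (b (a (l 16446896) (l 16460344)) (a (l 16593712) (l 16524928))))) (a (b (a (b (l 16539168) (l 16544752)) (b (l 16529632) (c (l 16585144) (l 16570848)))) (a (b (c (l 16597632) (l 16585296)) (c (l 16600816) (l 531758863))) (c (b (l 16610800) (l 531862287)) (b (l 16577848) (l 531516175))))) (b (a (c (l 531595535) (a (l 16567232) (l 16575040))) (c (b (l 16587896) (l 16657744)) (b (l 16572416) (l 16592400)))) (a (c (b (l 16615536) (l 531663119)) (b (l 531249935) (l 531286287))) (c (b (l 531448591) (l 531473167)) (b (l 531026191) (l 531066639)))))))))), by decide +kernel⟩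

def k1_A00pp_022_s3 : ∃ t, chk3 f_A00pp_022_s3 t 6 4 1 = true :=
  ⟨(a (b (a (l 6) (a (l 6) (b (l 6) (l 16359160)))) (a (b (a (l 6) (l 16467776)) (a (l 16511224) (c (l 16458376) (l 16429864)))) (b (a (l 16485672) (l 16505632)) (a (c (l 16476960) (l 16449688)) (c (l 16497336) (l 16471536)))))) (b (a (a (b (l 6) (l 16379880)) (b (l 16335976) (l 16402536))) (a (b (l 16359344) (l 16468952)) (l 2))) (a (b (a (l 16485592) (l 529997583)) (a (l 530083855) (l 529945615))) (a (b (l 529880335) (l 529819919)) (l 2))))), by decide +kernel⟩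

def k2_A00pp_022_s3 : ∃ t, chk3 f_A00pp_022_s3 t 6 5 1 = true :=
  ⟨(a (b (a (b (a (c (l 16500728) (l 16476480)) (a (l 16586160) (l 16595848))) (a (c (l 531115535) (l 530620687)) (c (l 530945295) (l 530424079)))) (b (a (c (l 16621984) (l 16600216)) (b (l 16616976) (l 530263567))) (a (c (l 530787343) (l 530241039)) (c (l 530637583) (l 530068495))))) (a (b (a (c (b (l 16605440) (l 16675888)) (b (l 16591000) (l 530761999))) (c (l 531042831) (b (l 16653872) (l 530570767)))) (a (c (b (l 531259151) (l 531283727)) (b (l 530807311) (l 530847759))) (b (c (l 531099151) (l 530619663)) (c (l 531126287) (l 530662671))))) (b (a (b (l 530606351) (l 530926607)) (b (l 530450703) (l 530505999))) (c (a (b (l 530952719) (l 530982671)) (b (l 530816527) (l 530849807))) (a (b (l 530446607) (l 530492431)) (b (l 530284559) (b (l 530321167) (l 530344207)))))))) (b (a (b (a (a (l 530128399) (l 530052623)) (l 529943567)) (a (a (l 530241295) (l 530167055)) (l 530059791))) (b (a (l 529805327) (l 529676815)) (a (b (l 529881871)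 (l 529961231)) (l 530328591)))) (a (a (b (a (l 530369295) (l 530299151)) (c (b (l 530688783) (l 530727183)) (b (l 530133263) (a (l 530219535) (l 530147599))))) (b (l 530198031) (b (l 530284559) (l 4)))) (b (a (b (l 530034703) (l 530102031)) (c (l 530265103) (l 529620495))) (a (b (l 530162191) (l 4)) (l 4)))))), by decide +kernel⟩

def k3_A00pp_022_s3 : ∃ t, chk3 f_A00pp_022_s3 t 7 2 1 = true :=
  ⟨(b (l 2) (b (l 2) (b (l 2) (l 4)))), by decide +kernel⟩

def k4_A00pp_022_s3 : ∃ t, chk3 f_A00pp_022_s3 t 8 12 1 = true :=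
  ⟨(a (b (l 6) (b (l 6) (b (a (l 6) (a (l 6) (c (l 16486256) (l 16456424)))) (a (a (l 6) (a (l 6) (b (l 6) (l 16457336)))) (a (c (l 16475352) (a (l 16459760) (l 16470256))) (c (l 16494752) (l 16464960))))))) (b (a (l 6) (b (l 6) (a (a (l 6) (l 16524480)) (a (l 16534752) (l 16544904))))) (a (b (a (c (l 16473280) (b (l 6) (l 16490808))) (c (l 16472024) (l 16498096))) (a (c (b (l 16505720) (l 16513832)) (b (l 16498512) (l 16485640))) (c (b (l 16524840) (l 16532576)) (b (l 16519288) (l 16505984))))) (a (b (c (l 16533304) (l 16529600)) (c (l 16536768) (b (l 16539648) (l 16504936)))) (b (c (l 16552232) (l 16550112)) (c (l 16565400) (c (l 16563504) (l 16562264)))))))), by decide +kernel⟩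

def k5_A00pp_022_s3 : ∃ t, chk3 f_A00pp_022_s3 t 16 26 1 = true :=
  ⟨(a (a (b (c (b (a (l 6) (l 16450648)) (a (l 16451184) (l 16460856))) (a (b (l 6) (l 16438624)) (b (l 16438240) (l 16448728)))) (c (b (a (l 16461904) (l 16471408)) (a (l 16472968) (l 16482320))) (a (b (l 16449704) (l 16461192)) (b (l 16459616) (l 16470912))))) (b (c (b (a (l 16460416) (l 16470136)) (a (l 16470456) (l 16480000))) (b (a (l 16448568) (l 16458904)) (a (l 16458848) (l 16468976)))) (c (b (a (l 16480856) (l 16490232)) (a (l 16491616) (l 16500832))) (b (a (l 16469536) (l 16479464)) (c (l 16467264) (l 16467032)))))) (b (a (c (b (a (l 16479784) (l 16489368)) (a (l 16489472) (l 16498872))) (b (a (l 16469224) (l 16479512)) (a (l 16479096) (l 16489176)))) (c (b (l 16482640) (l 16491880)) (b (a (l 16489760) (l 16499960)) (a (l 16499224) (l 16509208))))) (a (c (b (a (l 16499536) (l 16508768)) (a (l 16509976) (l 16519040))) (b (a (l 16489376) (l 16499264)) (a (l 16500080) (l 16509768)))) (c (b (a (l 16517920) (l 16527000)) (a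 (l 16528024) (l 16536928))) (b (a (l 16509104) (l 16518888)) (a (l 16519408) (l 16528992))))))), by decide +kernel⟩

def k6_A00pp_022_s3 : ∃ t, chk3 f_A00pp_022_s3 t 17 26 1 = true :=
  ⟨(a (b (a (c (b (l 16522320) (l 16510224)) (b (l 16504640) (a (l 16519128) (l 16528968)))) (c (b (l 16540680) (l 16528208)) (b (l 16524560) (l 16533072)))) (a (c (b (l 16524728) (a (l 16545744) (l 16554472))) (b (b (l 16510064) (l 16514856)) (b (l 16519760) (l 16535264)))) (c (b (l 16547600) (l 16556912)) (b (b (l 16529248) (l 16533832)) (b (l 16538528) (l 16543344)))))) (c (a (b (a (l 16537320) (l 16546112)) (b (l 16554344) (l 16573776))) (b (c (l 16559816) (l 16579392)) (b (l 16571144) (l 16590208)))) (a (b (b (l 16533560) (l 16552128)) (a (b (l 16566528) (l 16575616)) (b (l 16575720) (l 16584600)))) (b (b (l 16552528) (l 16581152)) (b (l 16589256) (a (l 16593448) (l 16602144))))))), by decide +kernel⟩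

def k7_A00pp_022_s3 : ∃ t, chk3 f_A00pp_022_s3 t 8 54 1 = true :=
  ⟨(a (a (b (a (c (a (l 16484400) (l 16493600)) (a (l 16473088) (l 16482616))) (a (c (l 16502744) (l 16492160)) (c (l 16511808) (l 16501696)))) (a (c (a (l 16496192) (l 16505256)) (a (l 16485392) (l 16494744))) (c (a (l 16514248) (l 16523176)) (c (l 16495584) (l 16490512))))) (a (a (b (c (l 16520800) (l 16511216)) (c (l 16532016) (l 16522784))) (c (b (l 16529712) (l 16540776)) (b (l 16520704) (l 16532088)))) (c (b (a (l 16538536) (l 16547264)) (a (l 16549448) (l 16558024))) (b (a (l 16530152) (l 16539544)) (c (l 16537456) (l 16533480)))))) (a (b (c (c (a (l 16561856) (l 16578448)) (a (l 16558560) (l 16575808))) (c (a (l 16544720) (l 16562640)) (a (l 16541296) (l 16559912)))) (a (a (c (l 16566504) (l 16559672)) (c (l 16574896) (l 16568712))) (a (c (l 16583184) (l 16577656)) (c (l 16591368) (l 16586480))))) (a (a (c (b (l 16589544) (l 16599448)) (b (l 16585168) (l 16595192))) (c (b (l 16597688) (l 16607424)) (b (l 16593944) (l 16603768))))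 (a (c (b (l 16605728) (l 16615280)) (b (l 16602584) (l 16612200))) (c (b (l 16613648) (l 16623024)) (b (l 16611072) (l 16620488))))))), by decide +kernel⟩

def k8_A00pp_022_s3 : ∃ t, chk3 f_A00pp_022_s3 t 8 55 1 = true :=
  ⟨(a (c (a (a (a (b (l 16508352) (l 16520888)) (b (l 16517280) (l 16529688))) (a (b (l 16526136) (l 16538416)) (b (l 16534928) (l 16547072)))) (a (a (b (l 16543632) (l 16555640)) (b (l 16552248) (l 16564128))) (a (b (l 16560768) (l 16572512)) (b (l 16569200) (l 16580800))))) (b (a (a (a (l 16498104) (l 16507288)) (c (l 16507752) (l 16502920))) (a (c (l 16531072) (l 16526688)) (a (l 16552992) (l 16562008)))) (a (c (a (l 16502448) (l 16520352)) (a (l 16492336) (l 16521016))) (a (a (l 16547272) (l 16556216)) (a (l 16565104) (l 16573928)))))) (a (b (a (a (c (l 16577520) (l 16570944)) (c (l 16585752) (l 16579800))) (a (c (l 16593872) (l 16588552)) (c (l 16601896) (l 16597184)))) (a (a (c (l 16588976) (l 16582688)) (c (l 16597048) (l 16580872))) (a (c (l 16605016) (l 16599928)) (c (l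 16612872) (l 16608376))))) (a (a (c (b (l 16609808) (l 16620624)) (b (l 16605696) (l 16616696))) (c (b (l 16617608) (l 16628256)) (b (l 16614080) (l 16624888)))) (a (c (b (l 16625288) (l 16635768)) (b (l 16622312) (l 16632920))) (c (b (l 16632856) (l 16643160)) (b (l 16630392) (l 16640808))))))), by decide +kernel⟩

def k9_A00pp_022_s3 : ∃ t, chk3 f_A00pp_022_s3 t 18 12 1 = true :=
  ⟨(b (a (b (c (l 16476992) (l 16520392)) (c (l 16527496) (b (l 16484000) (l 16530296)))) (b (c (l 16598880) (l 16602848)) (c (l 16605880) (l 16566872)))) (b (a (a (a (l 16565584) (l 16575040)) (a (l 16584344) (l 16593504))) (c (a (l 16606192) (l 16623016)) (b (l 16572632) (l 16577072)))) (a (a (c (l 16583096) (b (l 16578736) (l 16585088))) (c (l 16600328) (l 16579280))) (a (b (l 16572664) (l 16599272)) (a (l 16608864) (l 16637904)))))), by decide +kernel⟩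

def k10_A00pp_022_s3 : ∃ t, chk3 f_A00pp_022_s3 t 18 13 1 = true :=
  ⟨(a (a (c (b (b (b (l 16593336) (l 16600696)) (b (l 16608472) (l 16616672))) (a (b (b (l 16621456) (l 16630640)) (b (l 16640296) (l 16650432))) (b (b (l 16629136) (l 16638144)) (b (l 16647616) (l 16657568))))) (b (b (b (l 16591872) (l 16599088)) (b (l 16606760) (l 16609656))) (a (b (b (l 16619400) (l 16628600)) (b (l 16638304) (l 16648520))) (b (b (l 16627552) (l 16636552)) (b (l 16646048) (l 16656056)))))) (b (b (a (b (l 16584536) (l 16591520)) (c (l 16617480) (l 16617184))) (a (b (l 16619904) (l 16627776)) (c (l 16632072) (l 16615720)))) (b (b (a (c (l 16636696) (l 16635536)) (l 16643712)) (a (c (l 16645520) (l 16644320)) (c (l 16652752) (l 16651904)))) (a (c (b (l 16654808) (l 16664584)) (b (l 16653608) (l 16663408))) (c (b (l 16661856) (l 16671456)) (b (l 16660984) (l 16670576))))))) (b (a (b (c (l 16608384) (c (l 16629608) (l 16608864))) (c (c (l 16622432) (l 16622368)) (a (l 16618432) (l 16626208)))) (b (c (l 16623648)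 (c (l 16603520) (l 16604160))) (a (c (l 16654280) (l 16633800)) (c (l 16640384) (l 16641208))))) (a (b (c (b (l 16654976) (l 16663328)) (b (l 16633752) (a (l 16659320) (l 16666552)))) (a (c (b (l 16668752) (l 16678160)) (b (l 16668184) (l 16677568))) (c (b (l 16675488) (l 16684712)) (b (l 16675208) (l 16684376))))) (b (c (b (l 16668880) (l 16655872)) (b (l 16648280) (l 16656096))) (c (a (l 532151823) (l 532650511)) (a (b (l 16682040) (l 16690992)) (l 532390159))))))), by decide +kernel⟩

def k11_A00pp_022_s3 : ∃ t, chk3 f_A00pp_022_s3 t 19 6 1 = true :=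
  ⟨(b (a (b (b (c (l 16612184) (l 16607704)) (b (l 16580832) (l 16599680))) (b (a (l 16619888) (c (l 16644120) (l 16641296))) (a (c (l 16648424) (l 16651000)) (c (l 16660464) (l 16658448))))) (b (b (b (l 16559080) (l 16568376)) (a (l 16582448) (l 16582024))) (a (b (c (l 16643632) (l 16598176)) (c (l 16660696) (l 16658072))) (b (c (l 16644128) (l 16640032)) (c (l 16619832) (l 16637656)))))) (a (b (a (b (c (l 16659224) (l 16640104)) (a (c (l 16647296) (l 16648416)) (c (l 16654032) (l 16676400)))) (b (c (l 16673120) (l 16654552)) (c (l 532837647) (c (l 16686088) (l 16666056))))) (a (b (a (c (l 532931087) (l 532690703)) (c (l 533031951) (l 532802831))) (c (b (l 532304399) (l 532214543)) (a (l 532498703) (l 532608527)))) (b (c (b (l 16694632) (l 16701816)) (b (l 16695976) (l 16697664))) (c (a (l 532946447) (l 533047823)) (a (l 532719887) (l 533100559)))))) (b (a (b (c (l 16677856) (l 532893967)) (c (l 16689808) (l 532917007))) (b (c (l 16679672) (l 532681487)) (c (l 533312527) (b (l 16670296) (l 16700568)))))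 (a (b (c (l 533394959) (b (l 16685928) (l 16704096))) (c (b (l 16715224) (l 533155087)) (a (l 533214223) (l 533329167)))) (b (c (l 533325327) (l 532725775)) (c (l 533333263) (a (l 533333007) (l 533227791)))))))), by decide +kernel⟩

def k12_A00pp_022_s3 : ∃ t, chk3 f_A00pp_022_s3 t 10 12 1 = true :=
  ⟨(a (a (b (b (c (l 16609296) (l 16601960)) (a (c (l 16627392) (l 16621656)) (l 532383503))) (a (c (b (l 16645632) (l 16642912)) (b (l 16641064) (l 533012239))) (b (c (l 16648168) (l 16643232)) (c (l 16646040) (l 532561679))))) (b (a (b (l 16608680) (l 532502287)) (c (l 532462607) (l 532259599))) (a (b (c (l 16651760) (l 532673807)) (c (l 532818959) (l 532396303))) (b (l 532347151) (l 532329231))))) (b (a (a (b (l 16615744) (l 532492815)) (b (l 532361743) (l 532360207))) (b (a (l 532233999) (l 532110095)) (a (l 532231695) (l 532107535)))) (a (b (a (l 532208399) (l 532610831)) (a (l 532187919) (c (l 532419087) (l 532215055)))) (b (a (l 532211983) (l 532086031)) (a (c (l 532294159) (l 532073999)) (l 532057615)))))),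 by decide +kernel⟩

def k13_A00pp_022_s3 : ∃ t, chk3 f_A00pp_022_s3 t 10 13 1 = true :=
  ⟨(a (a (b (a (b (c (l 533121807) (l 532747535)) (c (l 532850959) (l 532487951))) (c (b (l 532952079) (l 532940815)) (b (l 532826895) (l 532557839)))) (a (b (c (l 532992783) (a (l 533098511) (l 532987663))) (c (l 532871439) (a (l 533120527) (l 533010703)))) (b (c (l 532665871) (a (l 532881167) (l 532781071))) (c (a (l 532988943) (l 532883215)) (a (l 532898575) (l 532781839)))))) (b (a (b (c (l 532800015) (l 532388623)) (c (l 532783375) (l 532382223))) (b (c (l 532659471) (l 532499471)) (c (l 532639503) (l 532221711)))) (a (b (c (l 532769551) (l 532377871)) (a (c (l 532801039) (l 532690959)) (l 532662543))) (b (c (l 532622095) (l 532213519)) (l 532543247))))) (a (b (b (a (l 532168463) (c (l 532391183) (l 532198671))) (a (c (l 532500239) (l 532334095)) (c (l 532365071) (l 532182799)))) (b (a (c (l 532479247) (l 532054287)) (c (l 532340751) (l 531899663))) (a (l 532120079) (l 531969807)))) (b (b (a (c (l 532263439)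 (l 532054799)) (c (l 532139791) (l 531915535))) (a (c (l 532233999) (l 532036111)) (c (l 532107279) (a (l 531929103) (l 531858959))))) (b (a (c (l 532206351) (b (l 532022031) (l 532013071))) (c (l 532076303) (b (l 531877391) (l 531866639)))) (a (l 531823887) (l 4)))))), by decide +kernel⟩

def k14_A00pp_022_s3 : ∃ t, chk3 f_A00pp_022_s3 t 11 6 1 = true :=
  ⟨(b (a (b (a (a (b (l 531990031) (l 531987471)) (b (l 531874063) (l 531871503))) (c (b (l 531868687) (l 531859727)) (b (l 531538191) (l 531544079)))) (a (a (b (l 531964175) (l 531933455)) (b (l 531846671) (l 531813647))) (a (b (l 531733519) (l 531697935)) (b (l 531624719) (l 531586575))))) (b (a (c (b (l 531672591) (l 531666703)) (b (l 531312143) (l 531321359))) (c (b (l 531487759) (l 531487759)) (b (l 531097615) (a (l 531164175) (l 531063311))))) (b (a (c (l 531631887) (a (l 531355151) (l 531247375))) (b (c (l 531466255) (l 531102991)) (l 531265295))) (a (a (l 531479567) (l 531376911)) (a (l 531278351) (l 531184143)))))) (a (a (b (b (a (c (l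 532020495) (l 531780879)) (l 531780111)) (a (a (l 531904783) (l 531840783)) (c (l 531866639) (l 531622671)))) (b (a (c (l 531950351) (b (l 531737103) (l 531724815))) (c (l 531829007) (b (l 531601423) (l 4)))) (l 4))) (b (a (c (l 532109583) (b (l 531524623) (l 531493903))) (c (l 531665679) (b (l 531403279) (l 531369743)))) (l 4))) (b (b (a (a (l 531438351) (l 531332879)) (a (l 531232015) (l 4))) (l 4)) (l 4)))), by decide +kernel⟩

def k15_A00pp_022_s3 : ∃ t, chk3 f_A00pp_022_s3 t 8 56 1 = true :=
  ⟨(c (a (a (a (b (a (l 16533792) (l 16542480)) (a (l 16547096) (l 16555664))) (a (b (l 16551088) (l 16564168)) (b (l 16559616) (l 16572576)))) (a (a (b (l 16568064) (l 16591392)) (b (l 16576416) (b (l 16585896) (l 16592360)))) (a (b (l 16584672) (l 16586784)) (b (l 16603312) (l 16594808))))) (a (a (a (b (l 16590384) (c (l 16614560) (l 16611832))) (b (l 16598312) (b (l 16617888) (l 16624104)))) (a (b (l 16606128) (l 16623440)) (b (l 16624312) (b (l 16633192) (l 16639264))))) (a (a (b (l 16631904) (l 16638432))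 (b (l 16628888) (b (l 16648016) (l 16653936)))) (a (b (l 16636240) (b (l 16655248) (l 16661088))) (b (l 16643464) (b (l 16662352) (l 16668112))))))) (a (a (a (b (a (l 16524768) (l 16533656)) (a (l 16538728) (l 16547480))) (a (b (l 16542528) (l 16556208)) (b (l 16551376) (l 16564912)))) (a (a (b (l 16560192) (l 16573576)) (b (l 16568968) (l 16582192))) (a (b (l 16577680) (l 16580264)) (b (l 16575848) (l 16588744))))) (a (a (a (b (l 16584424) (l 16597144)) (b (l 16592912) (b (l 16612744) (l 16619128)))) (a (b (l 16601304) (b (l 16620992) (l 16627296))) (b (l 16609576) (b (l 16629136) (l 16635344))))) (a (a (b (l 16617712) (l 16634968)) (b (l 16625712) (l 16648024))) (a (b (l 16633560) (l 16655688)) (b (l 16651736) (l 16663192))))))), by decide +kernel⟩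

def k16_A00pp_022_s3 : ∃ t, chk3 f_A00pp_022_s3 t 8 114 2 = true :=
  ⟨(a (a (a (a (l 16560608) (l 16569080)) (a (l 16577472) (l 16585784))) (a (a (l 16599248) (l 16591632)) (a (l 16599648) (c (l 16619408) (l 16616664))))) (a (a (a (c (l 16627096) (l 16624568)) (b (l 16630360) (l 16636640))) (a (b (l 16637944) (l 16644160)) (b (l 16645392) (l 16651552)))) (a (a (b (l 16652720) (l 16658816)) (b (l 16659928) (l 16665944))) (a (b (l 16667000) (l 16672944)) (b (l 16673952) (l 16679816)))))), by decide +kernel⟩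

def k17_A00pp_022_s3 : ∃ t, chk3 f_A00pp_022_s3 t 8 230 4 = true :=
  ⟨(c (b (a (a (a (l 16575888) (l 16592416)) (a (l 16608504) (l 16624144))) (a (a (l 16639288) (l 16653904)) (a (l 16667992) (l 16681584)))) (c (a (a (a (l 16579624) (l 16596080)) (a (l 16612104) (l 16627648))) (a (a (l 16642696) (l 16657216)) (a (l 16671200) (l 16684672)))) (a (a (a (l 16578768) (l 16595280)) (a (l 16611368) (l 16627000))) (a (a (l 16642144) (l 16656776)) (a (l 16670864) (l 16684440)))))) (b (a (a (a (l 16574136) (l 16590760)) (a (l 16607000) (l 16622808))) (a (a (l 16638152) (l 16653000)) (a (l 16667312) (l 16681104)))) (c (a (a (a (l 16577912) (l 16594472)) (a (l 16610632) (l 16626352))) (a (a (l 16641592) (l 16656328)) (a (l 16670528) (l 16684208)))) (a (a (a (l 16577048) (l 16593656)) (a (l 16609888) (l 16625696))) (a (a (l 16641040) (l 16655888)) (a (l 16670192) (l 16683968))))))), by decide +kernel⟩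

def k18_A00pp_022_s3 : ∃ t, chk3 f_A00pp_022_s3 t 8 462 8 = true :=
  ⟨(b (c (a (a (a (l 16582096) (l 16598528)) (a (l 16614520) (l 16630032))) (a (a (l 16645048) (l 16659536)) (a (l 16673472) (l 16686904)))) (a (a (a (l 16581256) (l 16597736)) (a (l 16613792) (l 16629400))) (a (a (l 16644512) (l 16659104)) (a (l 16673152) (l 16686680))))) (c (a (a (a (l 16583744) (l 16600160)) (a (l 16616128) (l 16631624))) (a (a (l 16646624) (l 16661088)) (a (l 16675000) (l 16688400)))) (a (a (a (l 16582920) (l 16599376)) (a (l 16615416) (l 16631000))) (a (a (l 16646088) (l 16660656)) (a (l 16674680) (l 16688176)))))), by decide +kernel⟩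

def k19_A00pp_022_s3 : ∃ t, chk3 f_A00pp_022_s3 t 8 926 8 = true :=
  ⟨(c (b (a (a (a (l 16584984) (l 16601384)) (a (l 16617344) (l 16632824))) (a (a (l 16647800) (l 16662248)) (a (l 16676144) (l 16689520)))) (c (b (a (a (a (l 16585808) (l 16602192)) (a (l 16618120) (l 16633576))) (a (a (l 16648528) (l 16662936)) (a (l 16676800) (l 16690144)))) (a (a (a (l 16586216) (l 16602600)) (a (l 16618528) (l 16633976))) (a (a (l 16648920) (l 16663328)) (a (l 16677184) (l 16690520))))) (b (a (a (a (l 16585400) (l 16601808)) (a (l 16617776) (l 16633272))) (a (a (l 16648264) (l 16662728)) (a (l 16676640) (l 16690032)))) (a (a (a (l 16585816) (l 16602216)) (a (l 16618176) (l 16633672))) (a (a (l 16648656) (l 16663120)) (a (l 16677024) (l 16690408))))))) (b (a (a (a (l 16584160) (l 16600608)) (a (l 16616632) (l 16632200))) (a (a (l 16647272) (l 16661824)) (a (l 16675824) (l 16689304)))) (c (b (a (a (a (l 16584992) (l 16601424)) (a (l 16617424) (l 16632960))) (a (a (l 16648000) (l 16662520)) (a (l 16676480) (l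 16689920)))) (c (a (a (a (l 16585504) (l 16601928)) (a (l 16617912) (l 16633440))) (a (a (l 16648464) (l 16662960)) (a (l 16676904) (l 16690328)))) (a (a (a (l 16585304) (l 16601736)) (a (l 16617736) (l 16633280))) (a (a (l 16648328) (l 16662856)) (a (l 16676824) (l 16690272)))))) (b (a (a (a (l 16584584) (l 16601032)) (a (l 16617072) (l 16632648))) (a (a (l 16647736) (l 16662304)) (a (l 16676320) (l 16689808)))) (c (a (a (a (l 16585096) (l 16601544)) (a (l 16617560) (l 16633128))) (a (a (l 16648200) (l 16662744)) (a (l 16676744) (l 16690216)))) (a (a (a (l 16584896) (l 16601352)) (a (l 16617384) (l 16632968))) (a (a (l 16648064) (l 16662640)) (a (l 16676664) (l 16690160))))))))), by decide +kernel⟩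

def k20_A00pp_022_s3 : ∃ t, chk3 f_A00pp_022_s3 t 8 1854 16 = true :=
  ⟨(c (b (a (a (a (l 16586632) (l 16603008)) (a (l 16618928) (l 16634376))) (a (a (l 16649312) (l 16663720)) (a (l 16677568) (l 16690896)))) (c (a (a (a (l 16587144) (l 16603512)) (a (l 16619424) (l 16634848))) (a (a (l 16649768) (l 16664160)) (a (l 16677992) (l 16691296)))) (a (a (a (l 16586944) (l 16603320)) (a (l 16619248) (l 16634696))) (a (a (l 16649640) (l 16664056)) (a (l 16677912) (l 16691240)))))) (b (c (a (a (a (l 16586328) (l 16602720)) (a (l 16618672) (l 16634144))) (a (a (l 16649120) (l 16663560)) (a (l 16677448) (l 16690808)))) (a (a (a (l 16586128) (l 16602528)) (a (l 16618496) (l 16633992))) (a (a (l 16648984) (l 16663456)) (a (l 16677368) (l 16690752))))) (c (b (a (a (a (l 16586640) (l 16603032)) (a (l 16618976) (l 16634448))) (a (a (l 16649416) (l 16663848)) (a (l 16677736) (l 16691096)))) (a (a (a (l 16586848) (l 16603232)) (a (l 16619176) (l 16634648))) (a (a (l 16649608) (l 16664048)) (a (l 16677928) (l 16691280)))))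 (b (a (a (a (l 16586432) (l 16602840)) (a (l 16618800) (l 16634288))) (a (a (l 16649280) (l 16663744)) (a (l 16677656) (l 16691040)))) (a (a (a (l 16586640) (l 16603040)) (a (l 16619000) (l 16634496))) (a (a (l 16649480) (l 16663944)) (a (l 16677848) (l 16691224)))))))), by decide +kernel⟩

def k21_A00pp_022_s3 : ∃ t, chk3 f_A00pp_022_s3 t 8 1855 32 = true :=
  ⟨(b (c (b (a (a (a (l 16587456) (l 16603816)) (a (l 16619728) (l 16635152))) (a (a (l 16650064) (l 16664448)) (a (l 16678280) (l 16691576)))) (a (a (a (l 16587664) (l 16604024)) (a (l 16619928) (l 16635352))) (a (a (l 16650264) (l 16664648)) (a (l 16678472) (l 16691768))))) (b (a (a (a (l 16587256) (l 16603632)) (a (l 16619552) (l 16635000))) (a (a (l 16649936) (l 16664344)) (a (l 16678200) (l 16691520)))) (c (a (a (a (l 16587512) (l 16603880)) (a (l 16619800) (l 16635240))) (a (a (l 16650168) (l 16664568)) (a (l 16678408) (l 16691728)))) (a (a (a (l 16587408) (l 16603784)) (a (l 16619712) (l 16635160))) (a (a (l 16650104) (l 16664512)) (a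 (l 16678368) (l 16691696))))))) (c (b (c (a (a (a (l 16587920) (l 16604272)) (a (l 16620176) (l 16635592))) (a (a (l 16650496) (l 16664864)) (a (l 16678680) (l 16691968)))) (a (a (a (l 16587816) (l 16604176)) (a (l 16620088) (l 16635512))) (a (a (l 16650432) (l 16664816)) (a (l 16678640) (l 16691944))))) (a (a (a (l 16588072) (l 16604432)) (a (l 16620336) (l 16635752))) (a (a (l 16650656) (l 16665032)) (a (l 16678856) (l 16692144))))) (b (c (a (a (a (l 16587720) (l 16604088)) (a (l 16620000) (l 16635440))) (a (a (l 16650368) (l 16664760)) (a (l 16678600) (l 16691912)))) (a (a (a (l 16587616) (l 16603992)) (a (l 16619912) (l 16635360))) (a (a (l 16650304) (l 16664712)) (a (l 16678560) (l 16691888))))) (c (a (a (a (l 16587920) (l 16604288)) (a (l 16620200) (l 16635640))) (a (a (l 16650560) (l 16664960)) (a (l 16678792) (l 16692104)))) (a (a (a (l 16587824) (l 16604192)) (a (l 16620120) (l 16635560))) (a (a (l 16650496) (l 16664904)) (a (l 16678752) (l 16692072)))))))), by decide +kernel⟩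

def k22_A00pp_022_s3 : ∃ t, chk3 f_A00pp_022_s3 t 8 3710 33 = true :=
  ⟨(c (b (a (a (a (l 16587056) (l 16603440)) (a (l 16619376) (l 16634848))) (a (a (l 16649808) (l 16664240)) (a (l 16678120) (l 16691472)))) (c (a (a (a (l 16587312) (l 16603688)) (a (l 16619624) (l 16635080))) (a (a (l 16650040) (l 16664464)) (a (l 16678328) (l 16691672)))) (b (a (a (a (l 16587160) (l 16603544)) (a (l 16619488) (l 16634960))) (a (a (l 16649928) (l 16664360)) (a (l 16678248) (l 16691600)))) (a (a (a (l 16587264) (l 16603648)) (a (l 16619592) (l 16635056))) (a (a (l 16650024) (l 16664456)) (a (l 16678344) (l 16691688))))))) (b (c (a (a (a (l 16586904) (l 16603296)) (a (l 16619248) (l 16634728))) (a (a (l 16649712) (l 16664160)) (a (l 16678064) (l 16691432)))) (a (a (a (l 16586800) (l 16603200)) (a (l 16619160) (l 16634656))) (a (a (l 16649648) (l 16664112)) (a (l 16678024) (l 16691400))))) (c (b (a (a (a (l 16587056) (l 16603448)) (a (l 16619400) (l 16634880))) (a (a (l 16649856) (l 16664312)) (a (l 16678208)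 (l 16691568)))) (a (a (a (l 16587160) (l 16603552)) (a (l 16619504) (l 16634984))) (a (a (l 16649960) (l 16664408)) (a (l 16678304) (l 16691664))))) (b (a (a (a (l 16586952) (l 16603352)) (a (l 16619312) (l 16634808))) (a (a (l 16649792) (l 16664256)) (a (l 16678168) (l 16691544)))) (c (a (a (a (l 16587088) (l 16603480)) (a (l 16619440) (l 16634920))) (a (a (l 16649912) (l 16664368)) (a (l 16678272) (l 16691640)))) (a (a (a (l 16587032) (l 16603432)) (a (l 16619392) (l 16634888))) (a (a (l 16649880) (l 16664344)) (a (l 16678248) (l 16691632))))))))), by decide +kernel⟩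

def k23_A00pp_022_s3 : ∃ t, chk3 f_A00pp_022_s3 t 8 3711 66 = true :=
  ⟨(b (c (a (a (a (l 16587520) (l 16603896)) (a (l 16619824) (l 16635288))) (a (a (l 16650240) (l 16664656)) (a (l 16678520) (l 16691856)))) (b (a (a (a (l 16587368) (l 16603752)) (a (l 16619688) (l 16635160))) (a (a (l 16650120) (l 16664560)) (a (l 16678440) (l 16691784)))) (a (a (a (l 16587464) (l 16603848)) (a (l 16619792) (l 16635256))) (a (a (l 16650224) (l 16664656)) (a (l 16678536) (l 16691880)))))) (c (a (a (a (l 16587720) (l 16604104)) (a (l 16620032) (l 16635488))) (a (a (l 16650432) (l 16664856)) (a (l 16678712) (l 16692048)))) (a (a (a (l 16587624) (l 16604008)) (a (l 16619944) (l 16635408))) (a (a (l 16650368) (l 16664800)) (a (l 16678680) (l 16692024)))))), by decide +kernel⟩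

def k24_A00pp_022_s3 : ∃ t, chk3 f_A00pp_022_s3 t 8 3711 67 = true :=
  ⟨(b (c (b (c (a (a (a (l 16587288) (l 16603680)) (a (l 16619624) (l 16635104))) (a (a (l 16650072) (l 16664520)) (a (l 16678408) (l 16691768)))) (a (a (a (l 16587240) (l 16603632)) (a (l 16619584) (l 16635064))) (a (a (l 16650040) (l 16664488)) (a (l 16678384) (l 16691752))))) (c (a (a (a (l 16587392) (l 16603784)) (a (l 16619728) (l 16635200))) (a (a (l 16650176) (l 16664616)) (a (l 16678504) (l 16691856)))) (a (a (a (l 16587344) (l 16603736)) (a (l 16619680) (l 16635160))) (a (a (l 16650144) (l 16664592)) (a (l 16678480) (l 16691848)))))) (b (c (a (a (a (l 16587192) (l 16603584)) (a (l 16619536) (l 16635024))) (a (a (l 16650008) (l 16664464)) (a (l 16678368) (l 16691736)))) (a (a (a (l 16587136) (l 16603536)) (a (l 16619496) (l 16634984))) (a (a (l 16649976) (l 16664440)) (a (l 16678352) (l 16691720))))) (c (a (a (a (l 16587288) (l 16603688)) (a (l 16619640) (l 16635128))) (a (a (l 16650104) (l 16664560)) (a (l 16678464)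 (l 16691832)))) (a (a (a (l 16587240) (l 16603640)) (a (l 16619600) (l 16635088))) (a (a (l 16650072) (l 16664536)) (a (l 16678448) (l 16691816))))))) (c (a (a (a (l 16587520) (l 16603912)) (a (l 16619856) (l 16635336))) (a (a (l 16650304) (l 16664752)) (a (l 16678640) (l 16691992)))) (a (a (a (l 16587424) (l 16603816)) (a (l 16619768) (l 16635256))) (a (a (l 16650240) (l 16664696)) (a (l 16678600) (l 16691968)))))), by decide +kernel⟩

def k25_A00pp_022_s3 : ∃ t, chk3 f_A00pp_022_s3 t 8 1854 34 = true :=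
  ⟨(b (c (a (a (a (l 16585920) (l 16602336)) (a (l 16618320) (l 16633840))) (a (a (l 16648856) (l 16663352)) (a (l 16677288) (l 16690704)))) (a (a (a (l 16585720) (l 16602144)) (a (l 16618144) (l 16633680))) (a (a (l 16648728) (l 16663248)) (a (l 16677208) (l 16690648))))) (c (b (a (a (a (l 16586232) (l 16602648)) (a (l 16618624) (l 16634136))) (a (a (l 16649152) (l 16663640)) (a (l 16677576) (l 16690984)))) (c (a (a (a (l 16586488) (l 16602896)) (a (l 16618872) (l 16634376))) (a (a (l 16649384) (l 16663864)) (a (l 16677792) (l 16691184)))) (a (a (a (l 16586392) (l 16602808)) (a (l 16618784) (l 16634304))) (a (a (l 16649320) (l 16663808)) (a (l 16677752) (l 16691160)))))) (b (a (a (a (l 16586032) (l 16602456)) (a (l 16618448) (l 16633984))) (a (a (l 16649024) (l 16663536)) (a (l 16677496) (l 16690928)))) (c (a (a (a (l 16586288) (l 16602712)) (a (l 16618696) (l 16634224))) (a (a (l 16649256) (l 16663760)) (a (l 16677712) (l 16691128)))) (a (a (a (l 16586192) (l 16602616)) (a (l 16618608) (l 16634144)))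 (a (a (l 16649192) (l 16663704)) (a (l 16677672) (l 16691104)))))))), by decide +kernel⟩

def k26_A00pp_022_s3 : ∃ t, chk3 f_A00pp_022_s3 t 8 1854 35 = true :=
  ⟨(b (c (a (a (a (l 16585512) (l 16601952)) (a (l 16617968) (l 16633528))) (a (a (l 16648592) (l 16663136)) (a (l 16677128) (l 16690592)))) (a (a (a (l 16585312) (l 16601760)) (a (l 16617792) (l 16633376))) (a (a (l 16648464) (l 16663032)) (a (l 16677056) (l 16690536))))) (c (b (a (a (a (l 16585832) (l 16602264)) (a (l 16618280) (l 16633832))) (a (a (l 16648888) (l 16663432)) (a (l 16677424) (l 16690872)))) (a (a (a (l 16586040) (l 16602472)) (a (l 16618480) (l 16634032))) (a (a (l 16649088) (l 16663624)) (a (l 16677616) (l 16691064))))) (b (a (a (a (l 16585624) (l 16602072)) (a (l 16618104) (l 16633672))) (a (a (l 16648760) (l 16663328)) (a (l 16677344) (l 16690816)))) (a (a (a (l 16585832) (l 16602280)) (a (l 16618304) (l 16633880))) (a (a (l 16648960) (l 16663520)) (a (l 16677536) (l 16691008))))))), by decide +kernel⟩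

def k27_A00pp_022_s3 : ∃ t, chk3 f_A00pp_022_s3 t 8 3710 34 = true :=
  ⟨(c (b (c (a (a (a (l 16586696) (l 16603104)) (a (l 16619072) (l 16634576))) (a (a (l 16649584) (l 16664056)) (a (l 16677984) (l 16691376)))) (a (a (a (l 16586600) (l 16603008)) (a (l 16618992) (l 16634504))) (a (a (l 16649520) (l 16664008)) (a (l 16677944) (l 16691344))))) (c (b (a (a (a (l 16586856) (l 16603256)) (a (l 16619224) (l 16634728))) (a (a (l 16649728) (l 16664208)) (a (l 16678128) (l 16691512)))) (c (a (a (a (l 16586984) (l 16603384)) (a (l 16619352) (l 16634848))) (a (a (l 16649848) (l 16664312)) (a (l 16678232) (l 16691616)))) (a (a (a (l 16586936) (l 16603336)) (a (l 16619304) (l 16634808))) (a (a (l 16649816) (l 16664288)) (a (l 16678216) (l 16691600)))))) (b (a (a (a (l 16586752) (l 16603160)) (a (l 16619144) (l 16634648))) (a (a (l 16649664) (l 16664152)) (a (l 16678088) (l 16691488)))) (a (a (a (l 16586856) (l 16603264)) (a (l 16619240) (l 16634752))) (a (a (l 16649760) (l 16664248)) (a (l 16678184) (l 16691584)))))))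 (b (c (a (a (a (l 16586496) (l 16602912)) (a (l 16618904) (l 16634424))) (a (a (l 16649448) (l 16663952)) (a (l 16677904) (l 16691320)))) (a (a (a (l 16586400) (l 16602816)) (a (l 16618816) (l 16634344))) (a (a (l 16649384) (l 16663904)) (a (l 16677864) (l 16691296))))) (c (b (a (a (a (l 16586656) (l 16603072)) (a (l 16619056) (l 16634576))) (a (a (l 16649600) (l 16664104)) (a (l 16678048) (l 16691464)))) (a (a (a (l 16586760) (l 16603168)) (a (l 16619152) (l 16634672))) (a (a (l 16649696) (l 16664200)) (a (l 16678144) (l 16691552))))) (a (a (a (l 16586608) (l 16603024)) (a (l 16619016) (l 16634552))) (a (a (l 16649584) (l 16664096)) (a (l 16678056) (l 16691480))))))), by decide +kernel⟩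

def k28_A00pp_022_s3 : ∃ t, chk3 f_A00pp_022_s3 t 8 3711 68 = true :=
  ⟨(b (c (b (c (a (a (a (l 16587088) (l 16603488)) (a (l 16619456) (l 16634944))) (a (a (l 16649944) (l 16664416)) (a (l 16678328) (l 16691712)))) (a (a (a (l 16587040) (l 16603440)) (a (l 16619408) (l 16634912))) (a (a (l 16649912) (l 16664384)) (a (l 16678312) (l 16691696))))) (c (a (a (a (l 16587192) (l 16603592)) (a (l 16619552) (l 16635048))) (a (a (l 16650040) (l 16664512)) (a (l 16678424) (l 16691808)))) (a (a (a (l 16587144) (l 16603544)) (a (l 16619512) (l 16635008))) (a (a (l 16650008) (l 16664488)) (a (l 16678408) (l 16691792)))))) (b (c (a (a (a (l 16586984) (l 16603392)) (a (l 16619368) (l 16634872))) (a (a (l 16649880) (l 16664360)) (a (l 16678288) (l 16691680)))) (a (a (a (l 16586936) (l 16603344)) (a (l 16619320) (l 16634832))) (a (a (l 16649848) (l 16664336)) (a (l 16678272) (l 16691672))))) (c (a (a (a (l 16587088) (l 16603496)) (a (l 16619464) (l 16634968))) (a (a (l 16649976) (l 16664456)) (a (l 16678384)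 (l 16691776)))) (a (a (a (l 16587040) (l 16603448)) (a (l 16619424) (l 16634936))) (a (a (l 16649944) (l 16664432)) (a (l 16678368) (l 16691768))))))) (c (a (a (a (l 16587320) (l 16603720)) (a (l 16619688) (l 16635176))) (a (a (l 16650176) (l 16664648)) (a (l 16678560) (l 16691936)))) (b (a (a (a (l 16587168) (l 16603576)) (a (l 16619544) (l 16635056))) (a (a (l 16650064) (l 16664544)) (a (l 16678472) (l 16691864)))) (a (a (a (l 16587272) (l 16603680)) (a (l 16619648) (l 16635152))) (a (a (l 16650160) (l 16664640)) (a (l 16678568) (l 16691960))))))), by decide +kernel⟩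

def k29_A00pp_022_s3 : ∃ t, chk3 f_A00pp_022_s3 t 8 7422 69 = true :=
  ⟨(c (b (c (a (a (a (l 16586888) (l 16603296)) (a (l 16619280) (l 16634792))) (a (a (l 16649816) (l 16664312)) (a (l 16678248) (l 16691656)))) (a (a (a (l 16586832) (l 16603248)) (a (l 16619232) (l 16634760))) (a (a (l 16649784) (l 16664280)) (a (l 16678232) (l 16691640))))) (c (a (a (a (l 16586992) (l 16603400)) (a (l 16619384) (l 16634896))) (a (a (l 16649912) (l 16664408)) (a (l 16678344) (l 16691752)))) (a (a (a (l 16586936) (l 16603352)) (a (l 16619336) (l 16634856))) (a (a (l 16649880) (l 16664384)) (a (l 16678328) (l 16691736)))))) (b (c (a (a (a (l 16586784) (l 16603200)) (a (l 16619192) (l 16634720))) (a (a (l 16649752) (l 16664256)) (a (l 16678208) (l 16691632)))) (a (a (a (l 16586736) (l 16603152)) (a (l 16619152) (l 16634680))) (a (a (l 16649720) (l 16664232)) (a (l 16678192) (l 16691616))))) (c (a (a (a (l 16586888) (l 16603304)) (a (l 16619296) (l 16634816))) (a (a (l 16649848) (l 16664352)) (a (l 16678304) (l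 16691720)))) (a (a (a (l 16586840) (l 16603256)) (a (l 16619248) (l 16634784))) (a (a (l 16649816) (l 16664328)) (a (l 16678288) (l 16691712))))))), by decide +kernel⟩

def k30_A00pp_022_s3 : ∃ t, chk3 f_A00pp_022_s3 t 8 7423 69 = true :=
  ⟨(c (b (c (a (a (a (l 16587096) (l 16603504)) (a (l 16619480) (l 16634992))) (a (a (l 16650016) (l 16664504)) (a (l 16678440) (l 16691848)))) (a (a (a (l 16587040) (l 16603456)) (a (l 16619440) (l 16634960))) (a (a (l 16649984) (l 16664480)) (a (l 16678424) (l 16691832))))) (a (a (a (l 16587176) (l 16603584)) (a (l 16619560) (l 16635080))) (a (a (l 16650096) (l 16664592)) (a (l 16678528) (l 16691936))))) (b (c (a (a (a (l 16586992) (l 16603408)) (a (l 16619392) (l 16634920))) (a (a (l 16649944) (l 16664456)) (a (l 16678400) (l 16691816)))) (a (a (a (l 16586944) (l 16603360)) (a (l 16619352) (l 16634880))) (a (a (l 16649912) (l 16664424)) (a (l 16678384) (l 16691808))))) (a (a (a (l 16587072) (l 16603488)) (a (l 16619472) (l 16635000))) (a (a (l 16650032) (l 16664536))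 (a (l 16678488) (l 16691904)))))), by decide +kernel⟩

def k31_A00pp_022_s3 : ∃ t, chk3 f_A00pp_022_s3 t 8 3710 35 = true :=
  ⟨(c (b (c (a (a (a (l 16586296) (l 16602720)) (a (l 16618728) (l 16634272))) (a (a (l 16649320) (l 16663848)) (a (l 16677824) (l 16691264)))) (a (a (a (l 16586192) (l 16602632)) (a (l 16618640) (l 16634192))) (a (a (l 16649256) (l 16663800)) (a (l 16677784) (l 16691240))))) (c (a (a (a (l 16586504) (l 16602928)) (a (l 16618928) (l 16634472))) (a (a (l 16649520) (l 16664048)) (a (l 16678016) (l 16691456)))) (a (a (a (l 16586400) (l 16602832)) (a (l 16618840) (l 16634392))) (a (a (l 16649456) (l 16663992)) (a (l 16677976) (l 16691424)))))) (b (c (a (a (a (l 16586096) (l 16602536)) (a (l 16618552) (l 16634120))) (a (a (l 16649192) (l 16663744)) (a (l 16677744) (l 16691208)))) (a (a (a (l 16585992) (l 16602440)) (a (l 16618464) (l 16634040))) (a (a (l 16649128) (l 16663688)) (a (l 16677704) (l 16691184))))) (c (a (a (a (l 16586304) (l 16602736)) (a (l 16618760) (l 16634320)))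 (a (a (l 16649392) (l 16663936)) (a (l 16677936) (l 16691400)))) (a (a (a (l 16586200) (l 16602640)) (a (l 16618672) (l 16634240))) (a (a (l 16649328) (l 16663888)) (a (l 16677896) (l 16691368))))))), by decide +kernel⟩

def k32_A00pp_022_s3 : ∃ t, chk3 f_A00pp_022_s3 t 8 7422 70 = true :=
  ⟨(c (b (c (a (a (a (l 16586688) (l 16603112)) (a (l 16619104) (l 16634640))) (a (a (l 16649688) (l 16664208)) (a (l 16678168) (l 16691600)))) (a (a (a (l 16586632) (l 16603064)) (a (l 16619064) (l 16634600))) (a (a (l 16649656) (l 16664176)) (a (l 16678152) (l 16691592))))) (c (a (a (a (l 16586792) (l 16603208)) (a (l 16619208) (l 16634744))) (a (a (l 16649784) (l 16664304)) (a (l 16678264) (l 16691696)))) (a (a (a (l 16586736) (l 16603160)) (a (l 16619160) (l 16634704))) (a (a (l 16649752) (l 16664272)) (a (l 16678248) (l 16691680)))))) (b (a (a (a (l 16586560) (l 16602992)) (a (l 16619000) (l 16634544))) (a (a (l 16649600) (l 16664136)) (a (l 16678120) (l 16691568)))) (c (a (a (a (l 16586688) (l 16603112))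 (a (l 16619120) (l 16634664))) (a (a (l 16649720) (l 16664248)) (a (l 16678232) (l 16691672)))) (a (a (a (l 16586640) (l 16603072)) (a (l 16619080) (l 16634624))) (a (a (l 16649688) (l 16664224)) (a (l 16678208) (l 16691656))))))), by decide +kernel⟩

def k33_A00pp_022_s3 : ∃ t, chk3 f_A00pp_022_s3 t 8 7423 70 = true :=
  ⟨(c (b (c (a (a (a (l 16586896) (l 16603312)) (a (l 16619312) (l 16634840))) (a (a (l 16649880) (l 16664400)) (a (l 16678368) (l 16691792)))) (a (a (a (l 16586840) (l 16603264)) (a (l 16619264) (l 16634808))) (a (a (l 16649848) (l 16664376)) (a (l 16678344) (l 16691776))))) (a (a (a (l 16586968) (l 16603392)) (a (l 16619392) (l 16634928))) (a (a (l 16649968) (l 16664488)) (a (l 16678448) (l 16691880))))) (b (c (a (a (a (l 16586792) (l 16603216)) (a (l 16619224) (l 16634768))) (a (a (l 16649816) (l 16664344)) (a (l 16678328) (l 16691760)))) (a (a (a (l 16586744) (l 16603168)) (a (l 16619176) (l 16634728))) (a (a (l 16649784) (l 16664320)) (a (l 16678304) (l 16691752))))) (a (a (a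 (l 16586872) (l 16603296)) (a (l 16619304) (l 16634848))) (a (a (l 16649904) (l 16664432)) (a (l 16678408) (l 16691848)))))), by decide +kernel⟩

def k34_A00pp_022_s3 : ∃ t, chk3 f_A00pp_022_s3 t 8 7422 71 = true :=
  ⟨(c (b (a (a (a (l 16586456) (l 16602896)) (a (l 16618912) (l 16634472))) (a (a (l 16649536) (l 16664088)) (a (l 16678080) (l 16691544)))) (c (a (a (a (l 16586584) (l 16603024)) (a (l 16619032) (l 16634592))) (a (a (l 16649656) (l 16664200)) (a (l 16678192) (l 16691640)))) (a (a (a (l 16586536) (l 16602976)) (a (l 16618992) (l 16634552))) (a (a (l 16649624) (l 16664168)) (a (l 16678168) (l 16691632)))))) (b (a (a (a (l 16586360) (l 16602800)) (a (l 16618824) (l 16634392))) (a (a (l 16649472) (l 16664032)) (a (l 16678040) (l 16691512)))) (c (a (a (a (l 16586488) (l 16602928)) (a (l 16618944) (l 16634512))) (a (a (l 16649592) (l 16664144)) (a (l 16678152) (l 16691616)))) (a (a (a (l 16586432) (l 16602880)) (a (l 16618904) (l 16634472))) (a (a (l 16649560) (l 16664120)) (a (l 16678128)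 (l 16691600))))))), by decide +kernel⟩

def k35_A00pp_022_s3 : ∃ t, chk3 f_A00pp_022_s3 t 8 7423 71 = true :=
  ⟨(c (b (c (a (a (a (l 16586688) (l 16603120)) (a (l 16619136) (l 16634688))) (a (a (l 16649752) (l 16664296)) (a (l 16678288) (l 16691736)))) (a (a (a (l 16586640) (l 16603080)) (a (l 16619088) (l 16634648))) (a (a (l 16649720) (l 16664272)) (a (l 16678264) (l 16691720))))) (c (a (a (a (l 16586792) (l 16603224)) (a (l 16619240) (l 16634792))) (a (a (l 16649856) (l 16664392)) (a (l 16678384) (l 16691832)))) (a (a (a (l 16586744) (l 16603176)) (a (l 16619192) (l 16634752))) (a (a (l 16649824) (l 16664368)) (a (l 16678360) (l 16691816)))))) (b (c (a (a (a (l 16586592) (l 16603032)) (a (l 16619048) (l 16634616))) (a (a (l 16649688) (l 16664240)) (a (l 16678248) (l 16691712)))) (a (a (a (l 16586544) (l 16602984)) (a (l 16619008) (l 16634576))) (a (a (l 16649656) (l 16664216)) (a (l 16678224) (l 16691696))))) (c (a (a (a (l 16586696) (l 16603128)) (a (l 16619152) (l 16634712))) (a (a (l 16649784)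 (l 16664344)) (a (l 16678344) (l 16691800)))) (a (a (a (l 16586648) (l 16603088)) (a (l 16619104) (l 16634672))) (a (a (l 16649752) (l 16664312)) (a (l 16678320) (l 16691792))))))), by decide +kernel⟩

def k36_A00pp_022_s3 : ∃ t, chk3 f_A00pp_022_s3 t 8 462 9 = true :=
  ⟨(b (c (a (a (a (l 16580416) (l 16596944)) (a (l 16613072) (l 16628760))) (a (a (l 16643968) (l 16658664)) (a (l 16672824) (l 16686448)))) (a (a (a (l 16579568) (l 16596144)) (a (l 16612344) (l 16628112))) (a (a (l 16643424) (l 16658224)) (a (l 16672488) (l 16686224))))) (c (a (a (a (l 16582088) (l 16598592)) (a (l 16614704) (l 16630368))) (a (a (l 16645552) (l 16660224)) (a (l 16674352) (l 16687952)))) (a (a (a (l 16581248) (l 16597808)) (a (l 16613984) (l 16629728))) (a (a (l 16645016) (l 16659792)) (a (l 16674032) (l 16687728)))))), by decide +kernel⟩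

def k37_A00pp_022_s3 : ∃ t, chk3 f_A00pp_022_s3 t 8 926 18 = true :=
  ⟨(b (a (a (a (l 16583336) (l 16599832)) (a (l 16615928) (l 16631576))) (a (a (l 16646744) (l 16661400)) (a (l 16675504) (l 16689080)))) (c (b (a (a (a (l 16584168) (l 16600648)) (a (l 16616712) (l 16632336))) (a (a (l 16647472) (l 16662088)) (a (l 16676160) (l 16689696)))) (a (a (a (l 16584592) (l 16601064)) (a (l 16617120) (l 16632736))) (a (a (l 16647872) (l 16662480)) (a (l 16676552) (l 16690080))))) (b (a (a (a (l 16583760) (l 16600264)) (a (l 16616360) (l 16632024))) (a (a (l 16647208) (l 16661880)) (a (l 16676000) (l 16689592)))) (a (a (a (l 16584176) (l 16600672)) (a (l 16616768) (l 16632424))) (a (a (l 16647608) (l 16662272)) (a (l 16676392) (l 16689968))))))), by decide +kernel⟩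

def k38_A00pp_022_s3 : ∃ t, chk3 f_A00pp_022_s3 t 8 1854 18 = true :=
  ⟨(c (b (c (a (a (a (l 16585112) (l 16601568)) (a (l 16617616) (l 16633216))) (a (a (l 16648336) (l 16662928)) (a (l 16676976) (l 16690480)))) (a (a (a (l 16584904) (l 16601376)) (a (l 16617440) (l 16633064))) (a (a (l 16648200) (l 16662824)) (a (l 16676896) (l 16690424))))) (c (a (a (a (l 16585528) (l 16601984)) (a (l 16618032) (l 16633624))) (a (a (l 16648728) (l 16663320)) (a (l 16677360) (l 16690856)))) (a (a (a (l 16585320) (l 16601792)) (a (l 16617856) (l 16633464))) (a (a (l 16648600) (l 16663216)) (a (l 16677280) (l 16690808)))))) (b (c (a (a (a (l 16584704) (l 16601184)) (a (l 16617264) (l 16632912))) (a (a (l 16648072) (l 16662712)) (a (l 16676816) (l 16690368)))) (a (a (a (l 16584496) (l 16600992)) (a (l 16617088) (l 16632752))) (a (a (l 16647936) (l 16662608)) (a (l 16676736) (l 16690320))))) (c (a (a (a (l 16585120) (l 16601600)) (a (l 16617680) (l 16633312))) (a (a (l 16648464) (l 16663104)) (a (l 16677200) (l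 16690752)))) (a (a (a (l 16584912) (l 16601408)) (a (l 16617504) (l 16633160))) (a (a (l 16648336) (l 16663000)) (a (l 16677120) (l 16690696))))))), by decide +kernel⟩

def k39_A00pp_022_s3 : ∃ t, chk3 f_A00pp_022_s3 t 8 3710 36 = true :=
  ⟨(c (b (c (a (a (a (l 16585888) (l 16602344)) (a (l 16618376) (l 16633960))) (a (a (l 16649064) (l 16663640)) (a (l 16677664) (l 16691152)))) (a (a (a (l 16585792) (l 16602248)) (a (l 16618288) (l 16633888))) (a (a (l 16648992) (l 16663584)) (a (l 16677624) (l 16691128))))) (c (a (a (a (l 16586096) (l 16602552)) (a (l 16618584) (l 16634168))) (a (a (l 16649256) (l 16663832)) (a (l 16677856) (l 16691344)))) (a (a (a (l 16586000) (l 16602456)) (a (l 16618496) (l 16634088))) (a (a (l 16649192) (l 16663784)) (a (l 16677824) (l 16691320)))))) (b (c (a (a (a (l 16585688) (l 16602152)) (a (l 16618200) (l 16633808))) (a (a (l 16648928) (l 16663536)) (a (l 16677584) (l 16691104)))) (a (a (a (l 16585584) (l 16602056)) (a (l 16618112) (l 16633728))) (a (a (l 16648864) (l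 16663480)) (a (l 16677552) (l 16691072))))) (c (a (a (a (l 16585896) (l 16602360)) (a (l 16618408) (l 16634008))) (a (a (l 16649128) (l 16663728)) (a (l 16677784) (l 16691288)))) (a (a (a (l 16585792) (l 16602264)) (a (l 16618320) (l 16633936))) (a (a (l 16649064) (l 16663680)) (a (l 16677744) (l 16691264))))))), by decide +kernel⟩

def k40_A00pp_022_s3 : ∃ t, chk3 f_A00pp_022_s3 t 8 7422 72 = true :=
  ⟨(c (b (a (a (a (l 16586256) (l 16602704)) (a (l 16618736) (l 16634312))) (a (a (l 16649408) (l 16663984)) (a (l 16678008) (l 16691488)))) (c (a (a (a (l 16586384) (l 16602832)) (a (l 16618856) (l 16634432))) (a (a (l 16649520) (l 16664096)) (a (l 16678112) (l 16691584)))) (a (a (a (l 16586336) (l 16602784)) (a (l 16618816) (l 16634400))) (a (a (l 16649488) (l 16664064)) (a (l 16678088) (l 16691576)))))) (b (a (a (a (l 16586152) (l 16602608)) (a (l 16618648) (l 16634240))) (a (a (l 16649344) (l 16663928)) (a (l 16677968) (l 16691456)))) (a (a (a (l 16586256) (l 16602712)) (a (l 16618752) (l 16634336)))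 (a (a (l 16649440) (l 16664024)) (a (l 16678064) (l 16691552)))))), by decide +kernel⟩

def k41_A00pp_022_s3 : ∃ t, chk3 f_A00pp_022_s3 t 8 7423 72 = true :=
  ⟨(c (b (c (a (a (a (l 16586488) (l 16602936)) (a (l 16618960) (l 16634536))) (a (a (l 16649624) (l 16664192)) (a (l 16678208) (l 16691680)))) (a (a (a (l 16586440) (l 16602888)) (a (l 16618920) (l 16634496))) (a (a (l 16649592) (l 16664168)) (a (l 16678184) (l 16691672))))) (c (a (a (a (l 16586592) (l 16603040)) (a (l 16619064) (l 16634640))) (a (a (l 16649720) (l 16664288)) (a (l 16678304) (l 16691776)))) (a (a (a (l 16586544) (l 16602992)) (a (l 16619016) (l 16634600))) (a (a (l 16649688) (l 16664264)) (a (l 16678280) (l 16691760)))))) (b (c (a (a (a (l 16586392) (l 16602840)) (a (l 16618872) (l 16634456))) (a (a (l 16649560) (l 16664136)) (a (l 16678168) (l 16691656)))) (a (a (a (l 16586336) (l 16602792)) (a (l 16618832) (l 16634424))) (a (a (l 16649528) (l 16664112)) (a (l 16678144) (l 16691640))))) (c (a (a (a (l 16586496) (l 16602944))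 (a (l 16618976) (l 16634560))) (a (a (l 16649656) (l 16664240)) (a (l 16678264) (l 16691752)))) (a (a (a (l 16586440) (l 16602896)) (a (l 16618936) (l 16634520))) (a (a (l 16649624) (l 16664208)) (a (l 16678248) (l 16691736))))))), by decide +kernel⟩

def k42_A00pp_022_s3 : ∃ t, chk3 f_A00pp_022_s3 t 8 3711 73 = true :=
  ⟨(b (c (b (a (a (a (l 16586056) (l 16602512)) (a (l 16618560) (l 16634160))) (a (a (l 16649280) (l 16663880)) (a (l 16677928) (l 16691432)))) (a (a (a (l 16586160) (l 16602616)) (a (l 16618664) (l 16634264))) (a (a (l 16649376) (l 16663976)) (a (l 16678024) (l 16691528))))) (a (a (a (l 16586008) (l 16602472)) (a (l 16618528) (l 16634136))) (a (a (l 16649264) (l 16663872)) (a (l 16677936) (l 16691456))))) (c (b (c (a (a (a (l 16586288) (l 16602744)) (a (l 16618784) (l 16634384))) (a (a (l 16649496) (l 16664088)) (a (l 16678128) (l 16691632)))) (a (a (a (l 16586240) (l 16602696)) (a (l 16618744) (l 16634344))) (a (a (l 16649464) (l 16664056)) (a (l 16678112) (l 16691616))))) (c (a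 (a (a (l 16586392) (l 16602848)) (a (l 16618888) (l 16634480))) (a (a (l 16649592) (l 16664184)) (a (l 16678224) (l 16691720)))) (a (a (a (l 16586344) (l 16602800)) (a (l 16618848) (l 16634448))) (a (a (l 16649560) (l 16664160)) (a (l 16678208) (l 16691712)))))) (b (c (a (a (a (l 16586184) (l 16602648)) (a (l 16618696) (l 16634304))) (a (a (l 16649432) (l 16664032)) (a (l 16678088) (l 16691600)))) (a (a (a (l 16586136) (l 16602600)) (a (l 16618656) (l 16634264))) (a (a (l 16649392) (l 16664008)) (a (l 16678072) (l 16691584))))) (c (a (a (a (l 16586288) (l 16602752)) (a (l 16618800) (l 16634408))) (a (a (l 16649528) (l 16664128)) (a (l 16678184) (l 16691696)))) (a (a (a (l 16586240) (l 16602704)) (a (l 16618760) (l 16634368))) (a (a (l 16649496) (l 16664104)) (a (l 16678168) (l 16691680)))))))), by decide +kernel⟩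

def k43_A00pp_022_s3 : ∃ t, chk3 f_A00pp_022_s3 t 8 3710 37 = true :=
  ⟨(c (b (a (a (a (l 16585432) (l 16601912)) (a (l 16617984) (l 16633616))) (a (a (l 16648768) (l 16663400)) (a (l 16677488) (l 16691032)))) (c (a (a (a (l 16585696) (l 16602168)) (a (l 16618232) (l 16633856))) (a (a (l 16649000) (l 16663624)) (a (l 16677704) (l 16691232)))) (a (a (a (l 16585592) (l 16602072)) (a (l 16618144) (l 16633776))) (a (a (l 16648936) (l 16663568)) (a (l 16677664) (l 16691208)))))) (b (a (a (a (l 16585232) (l 16601720)) (a (l 16617808) (l 16633464))) (a (a (l 16648632) (l 16663296)) (a (l 16677408) (l 16690976)))) (c (a (a (a (l 16585488) (l 16601976)) (a (l 16618056) (l 16633704))) (a (a (l 16648864) (l 16663520)) (a (l 16677624) (l 16691184)))) (a (a (a (l 16585392) (l 16601880)) (a (l 16617968) (l 16633624))) (a (a (l 16648800) (l 16663464)) (a (l 16677584) (l 16691152))))))), by decide +kernel⟩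

def k44_A00pp_022_s3 : ∃ t, chk3 f_A00pp_022_s3 t 8 3711 74 = true :=
  ⟨(b (c (a (a (a (l 16585904) (l 16602376)) (a (l 16618440) (l 16634056))) (a (a (l 16649200) (l 16663824)) (a (l 16677896) (l 16691424)))) (a (a (a (l 16585800) (l 16602280)) (a (l 16618352) (l 16633984))) (a (a (l 16649136) (l 16663768)) (a (l 16677856) (l 16691400))))) (c (b (c (a (a (a (l 16586088) (l 16602552)) (a (l 16618616) (l 16634232))) (a (a (l 16649360) (l 16663984)) (a (l 16678048) (l 16691576)))) (a (a (a (l 16586032) (l 16602504)) (a (l 16618568) (l 16634192))) (a (a (l 16649328) (l 16663952)) (a (l 16678032) (l 16691560))))) (c (a (a (a (l 16586192) (l 16602656)) (a (l 16618712) (l 16634328))) (a (a (l 16649464) (l 16664080)) (a (l 16678144) (l 16691672)))) (a (a (a (l 16586144) (l 16602608)) (a (l 16618672) (l 16634288))) (a (a (l 16649432) (l 16664056)) (a (l 16678128) (l 16691656)))))) (b (a (a (a (l 16585960) (l 16602432)) (a (l 16618504) (l 16634136))) (a (a (l 16649280) (l 16663912)) (a (l 16678000) (l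 16691536)))) (c (a (a (a (l 16586088) (l 16602560)) (a (l 16618624) (l 16634256))) (a (a (l 16649400) (l 16664024)) (a (l 16678104) (l 16691640)))) (a (a (a (l 16586040) (l 16602512)) (a (l 16618584) (l 16634216))) (a (a (l 16649368) (l 16664000)) (a (l 16678088) (l 16691624)))))))), by decide +kernel⟩

def k45_A00pp_022_s3 : ∃ t, chk3 f_A00pp_022_s3 t 8 3711 75 = true :=
  ⟨(b (c (a (a (a (l 16585704) (l 16602184)) (a (l 16618264) (l 16633904))) (a (a (l 16649064) (l 16663712)) (a (l 16677816) (l 16691368)))) (a (a (a (l 16585600) (l 16602088)) (a (l 16618176) (l 16633824))) (a (a (l 16649000) (l 16663664)) (a (l 16677776) (l 16691344))))) (c (b (a (a (a (l 16585856) (l 16602336)) (a (l 16618416) (l 16634056))) (a (a (l 16649216) (l 16663864)) (a (l 16677960) (l 16691512)))) (c (a (a (a (l 16585992) (l 16602464)) (a (l 16618544) (l 16634176))) (a (a (l 16649336) (l 16663976)) (a (l 16678064) (l 16691616)))) (a (a (a (l 16585936) (l 16602416)) (a (l 16618496) (l 16634136))) (a (a (l 16649296) (l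 16663944)) (a (l 16678048) (l 16691600)))))) (b (a (a (a (l 16585760) (l 16602240)) (a (l 16618328) (l 16633976))) (a (a (l 16649152) (l 16663808)) (a (l 16677920) (l 16691488)))) (c (a (a (a (l 16585888) (l 16602368)) (a (l 16618456) (l 16634096))) (a (a (l 16649264) (l 16663920)) (a (l 16678024) (l 16691584)))) (a (a (a (l 16585840) (l 16602320)) (a (l 16618408) (l 16634064))) (a (a (l 16649232) (l 16663896)) (a (l 16678008) (l 16691576)))))))), by decide +kernel⟩

def k46_A00pp_022_s3 : ∃ t, chk3 f_A00pp_022_s3 t 8 926 19 = true :=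
  ⟨(c (b (a (a (a (l 16582720) (l 16599248)) (a (l 16615392) (l 16631104))) (a (a (l 16646344) (l 16661072)) (a (l 16675264) (l 16688912)))) (a (a (a (l 16583560) (l 16600080)) (a (l 16616208) (l 16631912))) (a (a (l 16647144) (l 16661864)) (a (l 16676040) (l 16689664))))) (b (a (a (a (l 16582304) (l 16598856)) (a (l 16615032) (l 16630784))) (a (a (l 16646072) (l 16660864)) (a (l 16675104) (l 16688800)))) (a (a (a (l 16583144) (l 16599688)) (a (l 16615856) (l 16631600))) (a (a (l 16646872) (l 16661648)) (a (l 16675872) (l 16689560)))))), by decide +kernel⟩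

def k47_A00pp_022_s3 : ∃ t, chk3 f_A00pp_022_s3 t 8 1854 19 = true :=
  ⟨(c (b (c (a (a (a (l 16584288) (l 16600800)) (a (l 16616912) (l 16632600))) (a (a (l 16647808) (l 16662504)) (a (l 16676656) (l 16690264)))) (a (a (a (l 16584088) (l 16600608)) (a (l 16616736) (l 16632440))) (a (a (l 16647672) (l 16662400)) (a (l 16676576) (l 16690208))))) (c (a (a (a (l 16584712) (l 16601216)) (a (l 16617328) (l 16633000))) (a (a (l 16648208) (l 16662896)) (a (l 16677040) (l 16690640)))) (a (a (a (l 16584504) (l 16601024)) (a (l 16617152) (l 16632848))) (a (a (l 16648072) (l 16662792)) (a (l 16676960) (l 16690584)))))) (b (c (a (a (a (l 16583880) (l 16600416)) (a (l 16616560) (l 16632288))) (a (a (l 16647544) (l 16662288)) (a (l 16676496) (l 16690152)))) (a (a (a (l 16583680) (l 16600216)) (a (l 16616384) (l 16632128))) (a (a (l 16647408) (l 16662184)) (a (l 16676416) (l 16690096))))) (c (a (a (a (l 16584304) (l 16600832)) (a (l 16616976) (l 16632688))) (a (a (l 16647944) (l 16662680)) (a (l 16676880) (l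 16690528)))) (a (a (a (l 16584096) (l 16600632)) (a (l 16616792) (l 16632536))) (a (a (l 16647808) (l 16662576)) (a (l 16676800) (l 16690472))))))), by decide +kernel⟩

def k48_A00pp_022_s3 : ∃ t, chk3 f_A00pp_022_s3 t 8 3710 38 = true :=
  ⟨(c (b (a (a (a (l 16585024) (l 16601528)) (a (l 16617632) (l 16633304))) (a (a (l 16648504) (l 16663192)) (a (l 16677328) (l 16690920)))) (c (a (a (a (l 16585288) (l 16601784)) (a (l 16617880) (l 16633544))) (a (a (l 16648736) (l 16663416)) (a (l 16677544) (l 16691128)))) (a (a (a (l 16585184) (l 16601688)) (a (l 16617792) (l 16633472))) (a (a (l 16648672) (l 16663360)) (a (l 16677504) (l 16691096)))))) (b (a (a (a (l 16584824) (l 16601336)) (a (l 16617456) (l 16633152))) (a (a (l 16648376) (l 16663088)) (a (l 16677248) (l 16690872)))) (c (a (a (a (l 16585088) (l 16601592)) (a (l 16617704) (l 16633392))) (a (a (l 16648608) (l 16663304)) (a (l 16677464) (l 16691072)))) (a (a (a (l 16584984) (l 16601496)) (a (l 16617616) (l 16633312))) (a (a (l 16648536) (l 16663256))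 (a (l 16677424) (l 16691048))))))), by decide +kernel⟩

def k49_A00pp_022_s3 : ∃ t, chk3 f_A00pp_022_s3 t 8 3711 76 = true :=
  ⟨(b (c (a (a (a (l 16585496) (l 16601992)) (a (l 16618088) (l 16633752))) (a (a (l 16648936) (l 16663608)) (a (l 16677736) (l 16691320)))) (a (a (a (l 16585400) (l 16601896)) (a (l 16618000) (l 16633672))) (a (a (l 16648872) (l 16663560)) (a (l 16677696) (l 16691288))))) (c (b (a (a (a (l 16585656) (l 16602144)) (a (l 16618240) (l 16633904))) (a (a (l 16649088) (l 16663760)) (a (l 16677880) (l 16691456)))) (c (a (a (a (l 16585784) (l 16602272)) (a (l 16618368) (l 16634024))) (a (a (l 16649200) (l 16663872)) (a (l 16677992) (l 16691560)))) (a (a (a (l 16585736) (l 16602224)) (a (l 16618320) (l 16633984))) (a (a (l 16649168) (l 16663840)) (a (l 16677968) (l 16691544)))))) (b (a (a (a (l 16585552) (l 16602048)) (a (l 16618152) (l 16633824))) (a (a (l 16649024) (l 16663704)) (a (l 16677840) (l 16691432)))) (a (a (a (l 16585656) (l 16602152)) (a (l 16618256) (l 16633928))) (a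 (a (l 16649120) (l 16663800)) (a (l 16677936) (l 16691528))))))), by decide +kernel⟩

def k50_A00pp_022_s3 : ∃ t, chk3 f_A00pp_022_s3 t 8 3711 77 = true :=
  ⟨(b (c (a (a (a (l 16585296) (l 16601800)) (a (l 16617912) (l 16633592))) (a (a (l 16648808) (l 16663504)) (a (l 16677656) (l 16691264)))) (a (a (a (l 16585192) (l 16601704)) (a (l 16617824) (l 16633520))) (a (a (l 16648736) (l 16663448)) (a (l 16677616) (l 16691232))))) (c (b (a (a (a (l 16585456) (l 16601952)) (a (l 16618064) (l 16633744))) (a (a (l 16648952) (l 16663656)) (a (l 16677800) (l 16691408)))) (a (a (a (l 16585560) (l 16602056)) (a (l 16618168) (l 16633848))) (a (a (l 16649056) (l 16663752)) (a (l 16677896) (l 16691496))))) (b (a (a (a (l 16585352) (l 16601856)) (a (l 16617976) (l 16633672))) (a (a (l 16648888) (l 16663600)) (a (l 16677760) (l 16691376)))) (a (a (a (l 16585456) (l 16601960)) (a (l 16618080) (l 16633768))) (a (a (l 16648992) (l 16663696)) (a (l 16677864) (l 16691472))))))), by decide +kernel⟩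

def k51_A00pp_022_s3 : ∃ t, chk3 f_A00pp_022_s3 t 8 1855 39 = true :=
  ⟨(b (c (b (a (a (a (l 16584616) (l 16601144)) (a (l 16617280) (l 16632992))) (a (a (l 16648240) (l 16662976)) (a (l 16677168) (l 16690816)))) (a (a (a (l 16584832) (l 16601352)) (a (l 16617488) (l 16633200))) (a (a (l 16648440) (l 16663176)) (a (l 16677368) (l 16691008))))) (b (a (a (a (l 16584416) (l 16600952)) (a (l 16617104) (l 16632840))) (a (a (l 16648112) (l 16662872)) (a (l 16677096) (l 16690760)))) (a (a (a (l 16584624) (l 16601160)) (a (l 16617312) (l 16633040))) (a (a (l 16648312) (l 16663072)) (a (l 16677288) (l 16690952)))))) (c (b (c (a (a (a (l 16585096) (l 16601608)) (a (l 16617736) (l 16633440))) (a (a (l 16648672) (l 16663400)) (a (l 16677576) (l 16691208)))) (a (a (a (l 16584992) (l 16601512)) (a (l 16617648) (l 16633360))) (a (a (l 16648608) (l 16663344)) (a (l 16677536) (l 16691184))))) (c (a (a (a (l 16585304) (l 16601816)) (a (l 16617944) (l 16633640))) (a (a (l 16648872) (l 16663600)) (a (l 16677776)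 (l 16691400)))) (a (a (a (l 16585200) (l 16601720)) (a (l 16617856) (l 16633568))) (a (a (l 16648808) (l 16663544)) (a (l 16677736) (l 16691368)))))) (b (c (a (a (a (l 16584888) (l 16601416)) (a (l 16617560) (l 16633288))) (a (a (l 16648544) (l 16663296)) (a (l 16677496) (l 16691152)))) (a (a (a (l 16584784) (l 16601320)) (a (l 16617472) (l 16633208))) (a (a (l 16648480) (l 16663240)) (a (l 16677456) (l 16691128))))) (c (a (a (a (l 16585096) (l 16601624)) (a (l 16617768) (l 16633488))) (a (a (l 16648744) (l 16663488)) (a (l 16677696) (l 16691344)))) (a (a (a (l 16585000) (l 16601528)) (a (l 16617680) (l 16633408))) (a (a (l 16648680) (l 16663440)) (a (l 16677656) (l 16691312)))))))), by decide +kernel⟩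

def k52_A00pp_022_s3 : ∃ t, chk3 f_A00pp_022_s3 t 8 230 5 = true :=
  ⟨(c (b (a (a (a (l 16572368) (l 16589088)) (a (l 16605472) (l 16621464))) (a (a (l 16637016) (l 16652080)) (a (l 16666624) (l 16680624)))) (c (a (a (a (l 16576192) (l 16592840)) (a (l 16609144) (l 16625040))) (a (a (l 16640480) (l 16655432)) (a (l 16669856) (l 16683736)))) (a (a (a (l 16575320) (l 16592024)) (a (l 16608392) (l 16624376))) (a (a (l 16639920) (l 16654984)) (a (l 16669520) (l 16683504)))))) (b (a (a (a (l 16570584) (l 16587400)) (a (l 16603928) (l 16620096))) (a (a (l 16635856) (l 16651152)) (a (l 16665928) (l 16680144)))) (c (a (a (a (l 16574448) (l 16591200)) (a (l 16607640) (l 16623712))) (a (a (l 16639360) (l 16654528)) (a (l 16669176) (l 16683272)))) (a (a (a (l 16573576) (l 16590368)) (a (l 16606880) (l 16623040))) (a (a (l 16638792) (l 16654072)) (a (l 16668840) (l 16683032))))))), by decide +kernel⟩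

def k53_A00pp_022_s3 : ∃ t, chk3 f_A00pp_022_s3 t 8 462 10 = true :=
  ⟨(c (b (a (a (a (l 16578720) (l 16595344)) (a (l 16611608) (l 16627464))) (a (a (l 16642872) (l 16657784)) (a (l 16672160) (l 16685992)))) (a (a (a (l 16580416) (l 16597016)) (a (l 16613256) (l 16629088))) (a (a (l 16644472) (l 16659360)) (a (l 16673704) (l 16687496))))) (b (a (a (a (l 16577872) (l 16594536)) (a (l 16610872) (l 16626816))) (a (a (l 16642320) (l 16657344)) (a (l 16671832) (l 16685760)))) (a (a (a (l 16579568) (l 16596216)) (a (l 16612528) (l 16628448))) (a (a (l 16643928) (l 16658920)) (a (l 16673376) (l 16687272)))))), by decide +kernel⟩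

def k54_A00pp_022_s3 : ∃ t, chk3 f_A00pp_022_s3 t 8 926 20 = true :=
  ⟨(c (a (a (a (l 16582312) (l 16598880)) (a (l 16615088) (l 16630880))) (a (a (l 16646208) (l 16661040)) (a (l 16675328) (l 16689072)))) (a (a (a (l 16581896) (l 16598488)) (a (l 16614728) (l 16630560))) (a (a (l 16645944) (l 16660824)) (a (l 16675168) (l 16688960))))), by decide +kernel⟩

def k55_A00pp_022_s3 : ∃ t, chk3 f_A00pp_022_s3 t 8 1854 20 = true :=
  ⟨(c (b (a (a (a (l 16583368) (l 16599928)) (a (l 16616120) (l 16631896))) (a (a (l 16647208) (l 16662024)) (a (l 16676296) (l 16690016)))) (c (a (a (a (l 16583896) (l 16600440)) (a (l 16616616) (l 16632376))) (a (a (l 16647680) (l 16662472)) (a (l 16676720) (l 16690424)))) (a (a (a (l 16583688) (l 16600248)) (a (l 16616440) (l 16632224))) (a (a (l 16647544) (l 16662368)) (a (l 16676640) (l 16690368)))))) (b (a (a (a (l 16582960) (l 16599536)) (a (l 16615760) (l 16631576))) (a (a (l 16646944) (l 16661808)) (a (l 16676136) (l 16689904)))) (c (a (a (a (l 16583488) (l 16600056))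 (a (l 16616264) (l 16632064))) (a (a (l 16647408) (l 16662256)) (a (l 16676560) (l 16690312)))) (a (a (a (l 16583280) (l 16599856)) (a (l 16616088) (l 16631912))) (a (a (l 16647280) (l 16662152)) (a (l 16676480) (l 16690256))))))), by decide +kernel⟩

def k56_A00pp_022_s3 : ∃ t, chk3 f_A00pp_022_s3 t 8 1855 40 = true :=
  ⟨(b (c (a (a (a (l 16584320) (l 16600856)) (a (l 16617032) (l 16632784))) (a (a (l 16648080) (l 16662864)) (a (l 16677112) (l 16690800)))) (a (a (a (l 16584112) (l 16600664)) (a (l 16616856) (l 16632632))) (a (a (l 16647944) (l 16662760)) (a (l 16677032) (l 16690744))))) (c (b (c (a (a (a (l 16584688) (l 16601224)) (a (l 16617384) (l 16633128))) (a (a (l 16648408) (l 16663184)) (a (l 16677424) (l 16691096)))) (a (a (a (l 16584584) (l 16601128)) (a (l 16617296) (l 16633056))) (a (a (l 16648344) (l 16663136)) (a (l 16677384) (l 16691072))))) (c (a (a (a (l 16584896) (l 16601432)) (a (l 16617592) (l 16633336))) (a (a (l 16648608) (l 16663384)) (a (l 16677616) (l 16691288)))) (a (a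 (a (l 16584792) (l 16601336)) (a (l 16617504) (l 16633256))) (a (a (l 16648544) (l 16663336)) (a (l 16677576) (l 16691264)))))) (b (c (a (a (a (l 16584480) (l 16601032)) (a (l 16617208) (l 16632976))) (a (a (l 16648280) (l 16663080)) (a (l 16677344) (l 16691040)))) (a (a (a (l 16584376) (l 16600936)) (a (l 16617120) (l 16632896))) (a (a (l 16648216) (l 16663032)) (a (l 16677304) (l 16691016))))) (c (a (a (a (l 16584696) (l 16601240)) (a (l 16617416) (l 16633176))) (a (a (l 16648480) (l 16663280)) (a (l 16677536) (l 16691232)))) (a (a (a (l 16584592) (l 16601144)) (a (l 16617328) (l 16633104))) (a (a (l 16648416) (l 16663224)) (a (l 16677496) (l 16691208)))))))), by decide +kernel⟩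

def k57_A00pp_022_s3 : ∃ t, chk3 f_A00pp_022_s3 t 8 1855 41 = true :=
  ⟨(b (c (a (a (a (l 16583912) (l 16600472)) (a (l 16616680) (l 16632472))) (a (a (l 16647816) (l 16662656)) (a (l 16676952) (l 16690688)))) (a (a (a (l 16583704) (l 16600280)) (a (l 16616504) (l 16632320))) (a (a (l 16647680) (l 16662544)) (a (l 16676872) (l 16690632))))) (c (b (a (a (a (l 16584224) (l 16600784)) (a (l 16616992) (l 16632776))) (a (a (l 16648112) (l 16662952)) (a (l 16677240) (l 16690976)))) (c (a (a (a (l 16584488) (l 16601048)) (a (l 16617240) (l 16633024))) (a (a (l 16648352) (l 16663176)) (a (l 16677456) (l 16691176)))) (a (a (a (l 16584384) (l 16600952)) (a (l 16617152) (l 16632944))) (a (a (l 16648280) (l 16663120)) (a (l 16677416) (l 16691152)))))) (b (a (a (a (l 16584024) (l 16600592)) (a (l 16616808) (l 16632624))) (a (a (l 16647984) (l 16662840)) (a (l 16677160) (l 16690920)))) (c (a (a (a (l 16584288) (l 16600856)) (a (l 16617064) (l 16632864))) (a (a (l 16648216) (l 16663064)) (a (l 16677376) (l 16691128))))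 (a (a (a (l 16584184) (l 16600760)) (a (l 16616976) (l 16632792))) (a (a (l 16648152) (l 16663016)) (a (l 16677336) (l 16691096)))))))), by decide +kernel⟩

def k58_A00pp_022_s3 : ∃ t, chk3 f_A00pp_022_s3 t 8 926 21 = true :=
  ⟨(c (a (a (a (l 16581480) (l 16598096)) (a (l 16614368) (l 16630240))) (a (a (l 16645672) (l 16660608)) (a (l 16675008) (l 16688848)))) (a (a (a (l 16581064) (l 16597704)) (a (l 16614008) (l 16629928))) (a (a (l 16645400) (l 16660392)) (a (l 16674840) (l 16688736))))), by decide +kernel⟩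

def k59_A00pp_022_s3 : ∃ t, chk3 f_A00pp_022_s3 t 8 927 42 = true :=
  ⟨(b (b (a (a (a (l 16582544) (l 16599144)) (a (l 16615408) (l 16631264))) (a (a (l 16646680) (l 16661592)) (a (l 16675976) (l 16689792)))) (c (a (a (a (l 16583072) (l 16599664)) (a (l 16615912) (l 16631752))) (a (a (l 16647144) (l 16662040)) (a (l 16676400) (l 16690200)))) (a (a (a (l 16582864) (l 16599472)) (a (l 16615728) (l 16631592))) (a (a (l 16647016) (l 16661936)) (a (l 16676320) (l 16690144)))))) (b (c (a (a (a (l 16583496) (l 16600088)) (a (l 16616320) (l 16632160))) (a (a (l 16647552) (l 16662440)) (a (l 16676792) (l 16690584)))) (a (a (a (l 16583296) (l 16599888)) (a (l 16616144) (l 16632008))) (a (a (l 16647416) (l 16662336)) (a (l 16676712) (l 16690528))))) (c (b (a (a (a (l 16583816) (l 16600400)) (a (l 16616632) (l 16632464))) (a (a (l 16647848) (l 16662736)) (a (l 16677080) (l 16690864)))) (c (a (a (a (l 16584080) (l 16600656)) (a (l 16616888) (l 16632712))) (a (a (l 16648088) (l 16662960)) (a (l 16677296) (l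 16691072)))) (a (a (a (l 16583976) (l 16600560)) (a (l 16616800) (l 16632632))) (a (a (l 16648016) (l 16662912)) (a (l 16677256) (l 16691040)))))) (b (a (a (a (l 16583616) (l 16600208)) (a (l 16616456) (l 16632312))) (a (a (l 16647720) (l 16662632)) (a (l 16677000) (l 16690808)))) (c (a (a (a (l 16583880) (l 16600464)) (a (l 16616712) (l 16632552))) (a (a (l 16647952) (l 16662856)) (a (l 16677216) (l 16691016)))) (a (a (a (l 16583776) (l 16600368)) (a (l 16616624) (l 16632480))) (a (a (l 16647888) (l 16662800)) (a (l 16677176) (l 16690992))))))))), by decide +kernel⟩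

def k60_A00pp_022_s3 : ∃ t, chk3 f_A00pp_022_s3 t 8 927 43 = true :=
  ⟨(b (b (a (a (a (l 16582128) (l 16598760)) (a (l 16615048) (l 16630952))) (a (a (l 16646408) (l 16661376)) (a (l 16675816) (l 16689680)))) (c (a (a (a (l 16582664) (l 16599272)) (a (l 16615552) (l 16631440))) (a (a (l 16646880) (l 16661832)) (a (l 16676240) (l 16690088)))) (a (a (a (l 16582456) (l 16599080)) (a (l 16615376) (l 16631280))) (a (a (l 16646744) (l 16661720)) (a (l 16676160) (l 16690032)))))) (b (c (a (a (a (l 16583088) (l 16599696)) (a (l 16615968) (l 16631848))) (a (a (l 16647280) (l 16662224)) (a (l 16676632) (l 16690472)))) (a (a (a (l 16582880) (l 16599504)) (a (l 16615792) (l 16631688))) (a (a (l 16647152) (l 16662120)) (a (l 16676552) (l 16690416))))) (c (b (a (a (a (l 16583408) (l 16600016)) (a (l 16616280) (l 16632152))) (a (a (l 16647584) (l 16662520)) (a (l 16676920) (l 16690760)))) (a (a (a (l 16583624) (l 16600224)) (a (l 16616488) (l 16632360))) (a (a (l 16647784) (l 16662720)) (a (l 16677120) (l 16690944)))))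 (b (a (a (a (l 16583200) (l 16599816)) (a (l 16616104) (l 16632000))) (a (a (l 16647456) (l 16662416)) (a (l 16676840) (l 16690704)))) (a (a (a (l 16583416) (l 16600032)) (a (l 16616312) (l 16632200))) (a (a (l 16647656) (l 16662616)) (a (l 16677040) (l 16690896)))))))), by decide +kernel⟩

def k61_A00pp_022_s3 : ∃ t, chk3 f_A00pp_022_s3 t 8 462 11 = true :=
  ⟨(c (b (a (a (a (l 16577016) (l 16593728)) (a (l 16610128) (l 16626160))) (a (a (l 16641768) (l 16656896)) (a (l 16671496) (l 16685536)))) (a (a (a (l 16578728) (l 16595416)) (a (l 16611800) (l 16627800))) (a (a (l 16643384) (l 16658480)) (a (l 16673048) (l 16687048))))) (b (a (a (a (l 16576152) (l 16592912)) (a (l 16609384) (l 16625504))) (a (a (l 16641216) (l 16656448)) (a (l 16671160) (l 16685304)))) (a (a (a (l 16577880) (l 16594616)) (a (l 16611064) (l 16627152))) (a (a (l 16642832) (l 16658032)) (a (l 16672712) (l 16686824)))))), by decide +kernel⟩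

def k62_A00pp_022_s3 : ∃ t, chk3 f_A00pp_022_s3 t 8 926 22 = true :=
  ⟨(c (a (a (a (l 16580648) (l 16597312)) (a (l 16613648) (l 16629608))) (a (a (l 16645136) (l 16660176)) (a (l 16674680) (l 16688624)))) (b (a (a (a (l 16579800) (l 16596488)) (a (l 16612864) (l 16628872))) (a (a (l 16644456) (l 16659560)) (a (l 16674128) (l 16688128)))) (a (a (a (l 16580656) (l 16597336)) (a (l 16613704) (l 16629696))) (a (a (l 16645264) (l 16660352)) (a (l 16674904) (l 16688888)))))), by decide +kernel⟩

def k63_A00pp_022_s3 : ∃ t, chk3 f_A00pp_022_s3 t 8 927 22 = true :=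
  ⟨(c (b (b (a (a (a (l 16581720) (l 16598368)) (a (l 16614688) (l 16630632))) (a (a (l 16646144) (l 16661160)) (a (l 16675648) (l 16689576)))) (a (a (a (l 16582144) (l 16598784)) (a (l 16615104) (l 16631040))) (a (a (l 16646544) (l 16661560)) (a (l 16676040) (l 16689952))))) (b (c (a (a (a (l 16582680) (l 16599312)) (a (l 16615616) (l 16631536))) (a (a (l 16647016) (l 16662008)) (a (l 16676472) (l 16690360)))) (a (a (a (l 16582472) (l 16599112)) (a (l 16615432) (l 16631376))) (a (a (l 16646880) (l 16661904)) (a (l 16676392) (l 16690304))))) (c (a (a (a (l 16583104) (l 16599728)) (a (l 16616032) (l 16631944))) (a (a (l 16647424) (l 16662408)) (a (l 16676864) (l 16690744)))) (a (a (a (l 16582896) (l 16599536)) (a (l 16615856) (l 16631784))) (a (a (l 16647288) (l 16662304)) (a (l 16676784) (l 16690688))))))) (b (c (a (a (a (l 16581624) (l 16598280)) (a (l 16614632) (l 16630600))) (a (a (l 16646144) (l 16661200)) (a (l 16675728) (l 16689680)))) (a (a (a (l 16581416) (l 16598088)) (a (l 16614448) (l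 16630440))) (a (a (l 16646008) (l 16661096)) (a (l 16675648) (l 16689624))))) (c (b (a (a (a (l 16582264) (l 16598920)) (a (l 16615256) (l 16631216))) (a (a (l 16646752) (l 16661800)) (a (l 16676312) (l 16690248)))) (a (a (a (l 16582696) (l 16599344)) (a (l 16615672) (l 16631632))) (a (a (l 16647152) (l 16662192)) (a (l 16676704) (l 16690632))))) (b (a (a (a (l 16582056) (l 16598720)) (a (l 16615080) (l 16631064))) (a (a (l 16646616) (l 16661688)) (a (l 16676232) (l 16690200)))) (a (a (a (l 16582488) (l 16599144)) (a (l 16615496) (l 16631472))) (a (a (l 16647024) (l 16662088)) (a (l 16676624) (l 16690576)))))))), by decide +kernel⟩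

def k64_A00pp_022_s3 : ∃ t, chk3 f_A00pp_022_s3 t 8 926 23 = true :=
  ⟨(c (b (a (a (a (l 16579384) (l 16596088)) (a (l 16612504) (l 16628552))) (a (a (l 16644184) (l 16659336)) (a (l 16673960) (l 16688016)))) (a (a (a (l 16580240) (l 16596944)) (a (l 16613344) (l 16629376))) (a (a (l 16644992) (l 16660136)) (a (l 16674744) (l 16688776))))) (b (a (a (a (l 16578960) (l 16595688)) (a (l 16612136) (l 16628232))) (a (a (l 16643912) (l 16659120)) (a (l 16673800) (l 16687904)))) (a (a (a (l 16579824) (l 16596544)) (a (l 16612976) (l 16629056))) (a (a (l 16644720) (l 16659912)) (a (l 16674584) (l 16688664)))))), by decide +kernel⟩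

def k65_A00pp_022_s3 : ∃ t, chk3 f_A00pp_022_s3 t 8 927 23 = true :=
  ⟨(c (b (c (a (a (a (l 16581208) (l 16597888)) (a (l 16614272) (l 16630280))) (a (a (l 16645872) (l 16660984)) (a (l 16675568) (l 16689568)))) (a (a (a (l 16581000) (l 16597696)) (a (l 16614088) (l 16630128))) (a (a (l 16645736) (l 16660880)) (a (l 16675480) (l 16689512))))) (c (b (a (a (a (l 16581848) (l 16598528)) (a (l 16614896) (l 16630904))) (a (a (l 16646480) (l 16661584)) (a (l 16676152) (l 16690144)))) (a (a (a (l 16582280) (l 16598952)) (a (l 16615320) (l 16631312))) (a (a (l 16646888) (l 16661984)) (a (l 16676544) (l 16690520))))) (b (a (a (a (l 16581648) (l 16598328)) (a (l 16614720) (l 16630744))) (a (a (l 16646352) (l 16661472)) (a (l 16676072) (l 16690088)))) (a (a (a (l 16582080) (l 16598760)) (a (l 16615136) (l 16631160))) (a (a (l 16646752) (l 16661872)) (a (l 16676464) (l 16690472))))))) (b (c (a (a (a (l 16580792) (l 16597496)) (a (l 16613912) (l 16629968))) (a (a (l 16645600) (l 16660768)) (a (l 16675400)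 (l 16689456)))) (a (a (a (l 16580584) (l 16597296)) (a (l 16613728) (l 16629808))) (a (a (l 16645472) (l 16660656)) (a (l 16675320) (l 16689400))))) (c (b (a (a (a (l 16581440) (l 16598136)) (a (l 16614536) (l 16630584))) (a (a (l 16646216) (l 16661368)) (a (l 16675992) (l 16690032)))) (a (a (a (l 16581872) (l 16598560)) (a (l 16614960) (l 16631000))) (a (a (l 16646624) (l 16661768)) (a (l 16676376) (l 16690416))))) (b (a (a (a (l 16581232) (l 16597936)) (a (l 16614360) (l 16630424))) (a (a (l 16646080) (l 16661256)) (a (l 16675904) (l 16689976)))) (a (a (a (l 16581664) (l 16598368)) (a (l 16614784) (l 16630840))) (a (a (l 16646488) (l 16661656)) (a (l 16676296) (l 16690360)))))))), by decide +kernel⟩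

def k66_A00pp_022_s3 : ∃ t, chk3 f_A00pp_022_s3 t 8 114 3 = true :=
  ⟨(a (a (a (a (l 16552928) (l 16561552)) (a (l 16570152) (l 16578720))) (a (a (l 16587248) (l 16595712)) (a (l 16593632) (l 16601960)))) (a (a (a (c (l 16621992) (l 16619360)) (b (l 16625584) (l 16632056))) (a (b (l 16633656) (l 16640048)) (l 16644792))) (a (a (c (l 16653392) (l 16651760)) (l 16660224)) (a (c (l 16668288) (l 16667136)) (c (l 16675496) (l 16674560)))))), by decide +kernel⟩

def k67_A00pp_022_s3 : ∃ t, chk3 f_A00pp_022_s3 t 8 230 6 = true :=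
  ⟨(c (b (a (a (a (l 16568784) (l 16585696)) (a (l 16602368) (l 16618720))) (a (a (l 16634696) (l 16650216)) (a (l 16665224) (l 16679656)))) (c (a (a (a (l 16572696) (l 16589536)) (a (l 16606120) (l 16622368))) (a (a (l 16638224) (l 16653616)) (a (l 16668496) (l 16682800)))) (a (a (a (l 16571816) (l 16588704)) (a (l 16605352) (l 16621688))) (a (a (l 16637648) (l 16653160)) (a (l 16668152) (l 16682560)))))) (b (a (a (a (l 16566968) (l 16583984)) (a (l 16600792) (l 16617336))) (a (a (l 16633512) (l 16649272)) (a (l 16664520) (l 16679168)))) (b (a (a (a (l 16569608) (l 16586576)) (a (l 16603344) (l 16619832))) (a (a (l 16635960) (l 16651664)) (a (l 16666856) (l 16681448)))) (a (a (a (l 16571360) (l 16588304)) (a (l 16605048) (l 16621504))) (a (a (l 16637600) (l 16653264)) (a (l 16668416) (l 16682968))))))), by decide +kernel⟩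

def k68_A00pp_022_s3 : ∃ t, chk3 f_A00pp_022_s3 t 8 462 12 = true :=
  ⟨(b (c (a (a (a (l 16575296) (l 16592096)) (a (l 16608640) (l 16624848))) (a (a (l 16640656) (l 16656000)) (a (l 16670824) (l 16685072)))) (a (a (a (l 16574424) (l 16591280)) (a (l 16607888) (l 16624184))) (a (a (l 16640088) (l 16655544)) (a (l 16670488) (l 16684840))))) (c (a (a (a (l 16577024) (l 16593808)) (a (l 16610320) (l 16626504))) (a (a (l 16642280) (l 16657592)) (a (l 16672384) (l 16686592)))) (a (a (a (l 16576168) (l 16593000)) (a (l 16609584) (l 16625848))) (a (a (l 16641720) (l 16657144)) (a (l 16672048) (l 16686368)))))), by decide +kernel⟩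

def k69_A00pp_022_s3 : ∃ t, chk3 f_A00pp_022_s3 t 8 926 24 = true :=
  ⟨(c (b (a (a (a (l 16578536) (l 16595288)) (a (l 16611768) (l 16627904))) (a (a (l 16643640) (l 16658896)) (a (l 16673632) (l 16687792)))) (a (a (a (l 16579400) (l 16596144)) (a (l 16612616) (l 16628736))) (a (a (l 16644448) (l 16659696)) (a (l 16674416) (l 16688552))))) (b (a (a (a (l 16578112) (l 16594888)) (a (l 16611400) (l 16627584))) (a (a (l 16643360) (l 16658680)) (a (l 16673472) (l 16687680)))) (a (a (a (l 16578984) (l 16595752)) (a (l 16612248) (l 16628416))) (a (a (l 16644176) (l 16659480)) (a (l 16674256) (l 16688440)))))), by decide +kernel⟩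

def k70_A00pp_022_s3 : ∃ t, chk3 f_A00pp_022_s3 t 8 927 24 = true :=
  ⟨(c (b (c (a (a (a (l 16580376) (l 16597104)) (a (l 16613544) (l 16629648))) (a (a (l 16645336) (l 16660552)) (a (l 16675240) (l 16689344)))) (a (a (a (l 16580168) (l 16596904)) (a (l 16613368) (l 16629488))) (a (a (l 16645200) (l 16660440)) (a (l 16675160) (l 16689296))))) (c (b (a (a (a (l 16581024) (l 16597744)) (a (l 16614176) (l 16630272))) (a (a (l 16645944) (l 16661152)) (a (l 16675824) (l 16689920)))) (a (a (a (l 16581456) (l 16598168)) (a (l 16614600) (l 16630680))) (a (a (l 16646352) (l 16661552)) (a (l 16676216) (l 16690304))))) (b (a (a (a (l 16580816) (l 16597544)) (a (l 16614000) (l 16630112))) (a (a (l 16645808) (l 16661040)) (a (l 16675744) (l 16689864)))) (a (a (a (l 16581248) (l 16597976)) (a (l 16614424) (l 16630528))) (a (a (l 16646216) (l 16661440)) (a (l 16676136) (l 16690248))))))) (b (a (a (a (l 16579856) (l 16596608)) (a (l 16613096) (l 16629248))) (a (a (l 16644992) (l 16660280)) (a (l 16675040) (l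 16689208)))) (c (b (a (a (a (l 16580608) (l 16597352)) (a (l 16613816) (l 16629952))) (a (a (l 16645672) (l 16660936)) (a (l 16675664) (l 16689808)))) (a (a (a (l 16581040) (l 16597776)) (a (l 16614240) (l 16630368))) (a (a (l 16646088) (l 16661336)) (a (l 16676056) (l 16690192))))) (b (a (a (a (l 16580400) (l 16597152)) (a (l 16613640) (l 16629792))) (a (a (l 16645544) (l 16660824)) (a (l 16675584) (l 16689752)))) (a (a (a (l 16580832) (l 16597584)) (a (l 16614064) (l 16630208))) (a (a (l 16645952) (l 16661224)) (a (l 16675976) (l 16690136)))))))), by decide +kernel⟩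

def k71_A00pp_022_s3 : ∃ t, chk3 f_A00pp_022_s3 t 8 926 25 = true :=
  ⟨(c (b (a (a (a (l 16577688) (l 16594488)) (a (l 16611032) (l 16627256))) (a (a (l 16643088) (l 16658456)) (a (l 16673304) (l 16687568)))) (a (a (a (l 16578560) (l 16595352)) (a (l 16611880) (l 16628088))) (a (a (l 16643904) (l 16659256)) (a (l 16674088) (l 16688328))))) (b (a (a (a (l 16577264) (l 16594088)) (a (l 16610664) (l 16626928))) (a (a (l 16642808) (l 16658232)) (a (l 16673144) (l 16687456)))) (a (a (a (l 16578144) (l 16594952)) (a (l 16611520) (l 16627768))) (a (a (l 16643632) (l 16659040)) (a (l 16673928) (l 16688216)))))), by decide +kernel⟩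

def k72_A00pp_022_s3 : ∃ t, chk3 f_A00pp_022_s3 t 8 927 25 = true :=
  ⟨(c (b (a (a (a (l 16579432) (l 16596208)) (a (l 16612728) (l 16628928))) (a (a (l 16644720) (l 16660056)) (a (l 16674872) (l 16689096)))) (c (b (a (a (a (l 16580192) (l 16596952)) (a (l 16613456) (l 16629632))) (a (a (l 16645408) (l 16660720)) (a (l 16675504) (l 16689704)))) (a (a (a (l 16580624) (l 16597384)) (a (l 16613880) (l 16630048))) (a (a (l 16645816) (l 16661120)) (a (l 16675896) (l 16690088))))) (b (a (a (a (l 16579984) (l 16596760)) (a (l 16613280) (l 16629472))) (a (a (l 16645272) (l 16660608)) (a (l 16675424) (l 16689648)))) (a (a (a (l 16580424) (l 16597184)) (a (l 16613704) (l 16629888))) (a (a (l 16645680) (l 16661008)) (a (l 16675816) (l 16690032))))))) (b (a (a (a (l 16579016) (l 16595816)) (a (l 16612368) (l 16628600))) (a (a (l 16644448) (l 16659840)) (a (l 16674712) (l 16688984)))) (c (b (a (a (a (l 16579776) (l 16596560)) (a (l 16613096) (l 16629312))) (a (a (l 16645136) (l 16660496)) (a (l 16675344) (l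 16689592)))) (a (a (a (l 16580216) (l 16596992)) (a (l 16613520) (l 16629728))) (a (a (l 16645544) (l 16660904)) (a (l 16675736) (l 16689976))))) (b (a (a (a (l 16579568) (l 16596360)) (a (l 16612912) (l 16629152))) (a (a (l 16645000) (l 16660392)) (a (l 16675256) (l 16689536)))) (a (a (a (l 16580000) (l 16596792)) (a (l 16613336) (l 16629568))) (a (a (l 16645408) (l 16660792)) (a (l 16675656) (l 16689920)))))))), by decide +kernel⟩

def k73_A00pp_022_s3 : ∃ t, chk3 f_A00pp_022_s3 t 8 462 13 = true :=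
  ⟨(b (a (a (a (l 16573120) (l 16590040)) (a (l 16606752) (l 16623176))) (a (a (l 16639240) (l 16654864)) (a (l 16669976) (l 16684496)))) (c (a (a (a (l 16575312) (l 16592184)) (a (l 16608832) (l 16625184))) (a (a (l 16641168) (l 16656696)) (a (l 16671712) (l 16686136)))) (a (a (a (l 16574448) (l 16591368)) (a (l 16608088) (l 16624520))) (a (a (l 16640600) (l 16656248)) (a (l 16671376) (l 16685904)))))), by decide +kernel⟩

def k74_A00pp_022_s3 : ∃ t, chk3 f_A00pp_022_s3 t 8 926 26 = true :=
  ⟨(c (b (a (a (a (l 16576840) (l 16593680)) (a (l 16610296) (l 16626608))) (a (a (l 16642536) (l 16658016)) (a (l 16672976) (l 16687344)))) (a (a (a (l 16577720) (l 16594544)) (a (l 16611152) (l 16627440))) (a (a (l 16643352) (l 16658816)) (a (l 16673760) (l 16688104))))) (b (a (a (a (l 16576416) (l 16593280)) (a (l 16609928) (l 16626280))) (a (a (l 16642256) (l 16657792)) (a (l 16672808) (l 16687224)))) (a (a (a (l 16577296) (l 16594144)) (a (l 16610784) (l 16627120))) (a (a (l 16643080) (l 16658592)) (a (l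 16673592) (l 16687992)))))), by decide +kernel⟩

def k75_A00pp_022_s3 : ∃ t, chk3 f_A00pp_022_s3 t 8 927 26 = true :=
  ⟨(c (b (a (a (a (l 16578592) (l 16595416)) (a (l 16612000) (l 16628280))) (a (a (l 16644176) (l 16659624)) (a (l 16674544) (l 16688872)))) (c (b (a (a (a (l 16579360) (l 16596160)) (a (l 16612728) (l 16628992))) (a (a (l 16644864) (l 16660280)) (a (l 16675176) (l 16689480)))) (a (a (a (l 16579792) (l 16596592)) (a (l 16613160) (l 16629408))) (a (a (l 16645272) (l 16660680)) (a (l 16675568) (l 16689864))))) (b (a (a (a (l 16579144) (l 16595960)) (a (l 16612552) (l 16628832))) (a (a (l 16644728) (l 16660168)) (a (l 16675096) (l 16689424)))) (a (a (a (l 16579584) (l 16596400)) (a (l 16612976) (l 16629248))) (a (a (l 16645136) (l 16660576)) (a (l 16675488) (l 16689808))))))) (b (a (a (a (l 16578176) (l 16595016)) (a (l 16611632) (l 16627960))) (a (a (l 16643904) (l 16659400)) (a (l 16674384) (l 16688760)))) (c (b (a (a (a (l 16578936) (l 16595768)) (a (l 16612368) (l 16628672))) (a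 (a (l 16644592) (l 16660064)) (a (l 16675016) (l 16689368)))) (a (a (a (l 16579376) (l 16596200)) (a (l 16612792) (l 16629088))) (a (a (l 16645000) (l 16660464)) (a (l 16675408) (l 16689752))))) (b (a (a (a (l 16578728) (l 16595568)) (a (l 16612184) (l 16628504))) (a (a (l 16644456) (l 16659952)) (a (l 16674936) (l 16689312)))) (a (a (a (l 16579168) (l 16596000)) (a (l 16612616) (l 16628928))) (a (a (l 16644864) (l 16660352)) (a (l 16675328) (l 16689696)))))))), by decide +kernel⟩

def k76_A00pp_022_s3 : ∃ t, chk3 f_A00pp_022_s3 t 8 463 27 = true :=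
  ⟨(b (c (b (a (a (a (l 16575984) (l 16592872)) (a (l 16609552) (l 16625952))) (a (a (l 16641976) (l 16657568)) (a (l 16672640) (l 16687112)))) (a (a (a (l 16576872) (l 16593744)) (a (l 16610408) (l 16626792))) (a (a (l 16642800) (l 16658376)) (a (l 16673432) (l 16687880))))) (b (a (a (a (l 16575560) (l 16592464)) (a (l 16609184) (l 16625624))) (a (a (l 16641696) (l 16657344)) (a (l 16672472) (l 16687000)))) (a (a (a (l 16576440) (l 16593336)) (a (l 16610040) (l 16626464))) (a (a (l 16642528) (l 16658152)) (a (l 16673264) (l 16687768)))))) (b (c (a (a (a (l 16577752) (l 16594616)) (a (l 16611272) (l 16627632))) (a (a (l 16643632) (l 16659184)) (a (l 16674216) (l 16688648)))) (a (a (a (l 16577328) (l 16594216)) (a (l 16610904) (l 16627312))) (a (a (l 16643352) (l 16658960)) (a (l 16674056) (l 16688544))))) (c (c (a (a (a (l 16578736) (l 16595584)) (a (l 16612216) (l 16628560))) (a (a (l 16644520) (l 16660048)) (a (l 16675048) (l 16689448)))) (a (a (a (l 16578528) (l 16595384)) (a (l 16612032) (l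 16628392))) (a (a (l 16644384) (l 16659936)) (a (l 16674968) (l 16689392))))) (c (a (a (a (l 16578320) (l 16595184)) (a (l 16611856) (l 16628232))) (a (a (l 16644248) (l 16659824)) (a (l 16674888) (l 16689336)))) (a (a (a (l 16578112) (l 16594984)) (a (l 16611672) (l 16628072))) (a (a (l 16644112) (l 16659712)) (a (l 16674808) (l 16689280)))))))), by decide +kernel⟩

def k77_A00pp_022_s3 : ∃ t, chk3 f_A00pp_022_s3 t 8 230 7 = true :=
  ⟨(c (b (a (a (a (l 16565144) (l 16582248)) (a (l 16599208) (l 16615928))) (a (a (l 16632328) (l 16648312)) (a (l 16663808) (l 16678680)))) (c (a (a (a (l 16569144) (l 16586176)) (a (l 16603032) (l 16619640))) (a (a (l 16635912) (l 16651760)) (a (l 16667112) (l 16681848)))) (a (a (a (l 16568248) (l 16585320)) (a (l 16602256) (l 16618952))) (a (a (l 16635328) (l 16651296)) (a (l 16666768) (l 16681616)))))) (b (a (a (a (l 16563296) (l 16580496)) (a (l 16597600) (l 16614504))) (a (a (l 16631120) (l 16647352)) (a (l 16663088) (l 16678192)))) (c (a (a (a (l 16567352) (l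 16584464)) (a (l 16601472) (l 16618256))) (a (a (l 16634744) (l 16650824)) (a (l 16666416) (l 16681376)))) (a (a (a (l 16566448) (l 16583608)) (a (l 16600680) (l 16617560))) (a (a (l 16634152) (l 16650352)) (a (l 16666064) (l 16681136))))))), by decide +kernel⟩

def k78_A00pp_022_s3 : ∃ t, chk3 f_A00pp_022_s3 t 8 462 14 = true :=
  ⟨(b (c (a (a (a (l 16571808) (l 16588792)) (a (l 16605608) (l 16622168))) (a (a (l 16638384) (l 16654176)) (a (l 16669464) (l 16684144)))) (a (a (a (l 16570928) (l 16587960)) (a (l 16604840) (l 16621488))) (a (a (l 16637808) (l 16653720)) (a (l 16669128) (l 16683912))))) (c (a (a (a (l 16573584) (l 16590544)) (a (l 16607328) (l 16623856))) (a (a (l 16640040) (l 16655792)) (a (l 16671040) (l 16685680)))) (a (a (a (l 16572712) (l 16589720)) (a (l 16606576) (l 16623184))) (a (a (l 16639472) (l 16655336)) (a (l 16670704) (l 16685448)))))), by decide +kernel⟩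

def k79_A00pp_022_s3 : ∃ t, chk3 f_A00pp_022_s3 t 8 926 14 = true :=
  ⟨(c (b (a (a (a (l 16574912) (l 16591856)) (a (l 16608624) (l 16625128))) (a (a (l 16641280) (l 16657008)) (a (l 16672224) (l 16686832)))) (c (a (a (a (l 16576016) (l 16592936)) (a (l 16609672) (l 16626136))) (a (a (l 16642248) (l 16657928)) (a (l 16673096) (l 16687656)))) (a (a (a (l 16575592) (l 16592528)) (a (l 16609296) (l 16625808))) (a (a (l 16641968) (l 16657704)) (a (l 16672936) (l 16687544)))))) (c (b (a (a (a (l 16574272) (l 16591240)) (a (l 16608056) (l 16624624))) (a (a (l 16640856) (l 16656664)) (a (l 16671976) (l 16686656)))) (a (a (a (l 16575160) (l 16592120)) (a (l 16608928) (l 16625480))) (a (a (l 16641688) (l 16657480)) (a (l 16672768) (l 16687432))))) (a (a (a (l 16574288) (l 16591272)) (a (l 16608120) (l 16624720))) (a (a (l 16640992) (l 16656848)) (a (l 16672200) (l 16686936)))))), by decide +kernel⟩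

def k80_A00pp_022_s3 : ∃ t, chk3 f_A00pp_022_s3 t 8 927 14 = true :=
  ⟨(c (b (c (a (a (a (l 16576904) (l 16593808)) (a (l 16610528) (l 16626984))) (a (a (l 16643080) (l 16658736)) (a (l 16673888) (l 16688432)))) (a (a (a (l 16576480) (l 16593408)) (a (l 16610160) (l 16626656))) (a (a (l 16642800) (l 16658520)) (a (l 16673728) (l 16688320))))) (c (a (a (a (l 16577792) (l 16594688)) (a (l 16611392) (l 16627832))) (a (a (l 16643904) (l 16659552)) (a (l 16674680) (l 16689200)))) (a (a (a (l 16577376) (l 16594288)) (a (l 16611024) (l 16627504))) (a (a (l 16643632) (l 16659328)) (a (l 16674520) (l 16689088)))))) (c (b (a (a (a (l 16576056) (l 16593000)) (a (l 16609792) (l 16626328))) (a (a (l 16642520) (l 16658296)) (a (l 16673560) (l 16688208)))) (a (a (a (l 16576952) (l 16593888)) (a (l 16610656) (l 16627176))) (a (a (l 16643360) (l 16659112)) (a (l 16674352) (l 16688976))))) (a (a (a (l 16576080) (l 16593040)) (a (l 16609856) (l 16626424))) (a (a (l 16642664) (l 16658480)) (a (l 16673792) (l 16688480)))))),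 by decide +kernel⟩

def k81_A00pp_022_s3 : ∃ t, chk3 f_A00pp_022_s3 t 8 462 15 = true :=
  ⟨(b (c (a (a (a (l 16570040) (l 16587120)) (a (l 16604072) (l 16620808))) (a (a (l 16637232) (l 16653256)) (a (l 16668784) (l 16683680)))) (a (a (a (l 16569160) (l 16586272)) (a (l 16603296) (l 16620128))) (a (a (l 16636656) (l 16652792)) (a (l 16668440) (l 16683440))))) (c (a (a (a (l 16571840) (l 16588888)) (a (l 16605808) (l 16622512))) (a (a (l 16638904) (l 16654880)) (a (l 16670368) (l 16685216)))) (c (a (a (a (l 16571184) (l 16588264)) (a (l 16605240) (l 16622008))) (a (a (l 16638472) (l 16654536)) (a (l 16670112) (l 16685048)))) (a (a (a (l 16570744) (l 16587848)) (a (l 16604856) (l 16621672))) (a (a (l 16638184) (l 16654304)) (a (l 16669936) (l 16684928))))))), by decide +kernel⟩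

def k82_A00pp_022_s3 : ∃ t, chk3 f_A00pp_022_s3 t 8 463 30 = true :=
  ⟨(b (c (a (a (a (l 16573856) (l 16590864)) (a (l 16607744) (l 16624392))) (a (a (l 16640712) (l 16656624)) (a (l 16672032) (l 16686816)))) (a (a (a (l 16573424) (l 16590456)) (a (l 16607368) (l 16624056))) (a (a (l 16640432) (l 16656400)) (a (l 16671864) (l 16686704))))) (c (a (a (a (l 16575656) (l 16592640)) (a (l 16609488) (l 16626096))) (a (a (l 16642384) (l 16658256)) (a (l 16673624) (l 16688368)))) (b (a (a (a (l 16574776) (l 16591784)) (a (l 16608672) (l 16625344))) (a (a (l 16641688) (l 16657624)) (a (l 16673064) (l 16687864)))) (a (a (a (l 16575680) (l 16592672)) (a (l 16609552) (l 16626200))) (a (a (l 16642528) (l 16658440)) (a (l 16673856) (l 16688640))))))), by decide +kernel⟩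

def k83_A00pp_022_s3 : ∃ t, chk3 f_A00pp_022_s3 t 8 463 31 = true :=
  ⟨(b (c (a (a (a (l 16572992) (l 16590040)) (a (l 16606984) (l 16623720))) (a (a (l 16640152) (l 16656168)) (a (l 16671696) (l 16686592)))) (a (a (a (l 16572560) (l 16589632)) (a (l 16606608) (l 16623392))) (a (a (l 16639864) (l 16655944)) (a (l 16671528) (l 16686480))))) (c (b (a (a (a (l 16574344) (l 16591376)) (a (l 16608304) (l 16625008))) (a (a (l 16641408) (l 16657400)) (a (l 16672896) (l 16687752)))) (c (a (a (a (l 16575360) (l 16592368)) (a (l 16609272) (l 16625952))) (a (a (l 16642320) (l 16658272)) (a (l 16673736) (l 16688560)))) (a (a (a (l 16575144) (l 16592168)) (a (l 16609088) (l 16625784))) (a (a (l 16642176) (l 16658160)) (a (l 16673648) (l 16688504)))))) (b (c (a (a (a (l 16574024) (l 16591072)) (a (l 16608016) (l 16624760))) (a (a (l 16641200) (l 16657232)) (a (l 16672768) (l 16687672)))) (a (a (a (l 16573808) (l 16590864)) (a (l 16607832) (l 16624592))) (a (a (l 16641056) (l 16657120)) (a (l 16672688) (l 16687616)))))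 (c (a (a (a (l 16574936) (l 16591968)) (a (l 16608896) (l 16625624))) (a (a (l 16642040) (l 16658048)) (a (l 16673568) (l 16688448)))) (b (a (a (a (l 16574488) (l 16591536)) (a (l 16608488) (l 16625240))) (a (a (l 16641688) (l 16657736)) (a (l 16673288) (l 16688200)))) (a (a (a (l 16574944) (l 16591984)) (a (l 16608928) (l 16625672))) (a (a (l 16642112) (l 16658144)) (a (l 16673688) (l 16688584))))))))), by decide +kernel⟩

def k84_A00pp_022_s3 : ∃ t, chk3 f_A00pp_022_s3 t 16 29 1 = true :=
  ⟨(b (c (a (a (b (a (l 14) (l 16596000)) (l 14)) (a (b (l 16614712) (l 16607336)) (b (l 16601880) (a (l 16623880) (l 16627888))))) (b (a (a (l 16609920) (b (l 16625016) (l 16631648))) (a (l 16630920) (b (l 16640592) (l 16647136)))) (a (a (b (l 16630456) (l 16637256)) (b (l 16638336) (l 16645096))) (a (c (l 16650552) (l 16648384)) (b (l 16653752) (l 16660440)))))) (a (a (b (a (l 14) (l 16589792)) (l 14)) (a (b (l 16598184) (l 16612432)) (b (l 16606536) (l 16610208)))) (a (a (b (l 16604336) (l 16618408)) (b (l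 16612560) (b (l 16633480) (l 16640536)))) (a (a (b (l 16629160) (l 16643048)) (b (l 16633216) (l 16647048))) (b (b (l 16635840) (l 16642648)) (l 16653000)))))) (c (b (a (a (l 14) (a (l 14) (b (l 16636208) (l 14)))) (a (a (b (l 16644128) (l 16651096)) (b (l 16651944) (l 16658880))) (a (c (l 16669280) (l 16651664)) (c (l 16676768) (l 16664536))))) (a (l 14) (a (a (l 14) (a (l 16662336) (l 16666184))) (a (b (l 16673568) (l 16691192)) (c (l 16685376) (l 16683896)))))) (b (a (a (l 14) (a (l 14) (c (l 16636288) (l 16633968)))) (a (a (b (l 16639616) (l 16646888)) (l 16651296)) (a (c (l 16660224) (l 16658264)) (c (l 16668000) (l 16666184))))) (a (l 14) (a (a (l 14) (c (l 16666880) (l 16665096))) (a (c (l 16674696) (l 16673032)) (c (l 16682392) (l 16680864)))))))), by decide +kernel⟩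

def k85_A00pp_022_s3 : ∃ t, chk3 f_A00pp_022_s3 t 34 29 1 = true :=
  ⟨(a (a (c (b (a (b (l 16649576) (l 16662736)) (b (l 16653336) (l 16661216))) (b (b (l 16674664) (l 16681504)) (b (l 16693704) (a (l 16693712) (l 16697360))))) (b (b (l 16647208) (c (l 16661792) (l 16659880))) (b (a (l 16667656) (l 16676736)) (b (l 16675112) (l 16692944))))) (b (a (b (c (l 16657072) (l 16653104)) (c (l 16664904) (l 16656152))) (b (c (l 16660768) (l 16657000)) (c (l 16668552) (l 16659984)))) (a (b (c (b (l 16680160) (l 16686976)) (l 16680544)) (c (c (l 16692808) (l 16696808)) (l 16697536))) (b (c (b (l 16683784) (l 16690576)) (l 16684320)) (a (c (l 530667023) (l 16697704)) (c (l 16701896) (l 16699560))))))) (b (a (a (b (c (l 16659192) (l 16650384)) (c (l 16672176) (l 16674272))) (b (c (l 16662824) (l 16654216)) (c (b (l 16677728) (l 16684280)) (l 16678040)))) (a (b (c (l 16666424) (l 16658024)) (c (b (l 16681288) (l 16687816)) (l 16681776))) (c (b (l 16669992) (b (l 16684816) (l 16691320))) (b (l 16672280) (l 16685472)))))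 (a (a (b (c (l 16690760) (l 16688064)) (a (c (l 16703672) (l 16701408)) (c (l 530723855) (l 16703240)))) (b (c (b (l 16690928) (l 16697680)) (c (l 16692408) (l 16691120))) (c (b (l 16704560) (l 16711568)) (b (l 16702360) (l 16709600))))) (b (b (c (a (l 16694448) (l 16697928)) (l 16693800)) (c (a (l 16701184) (l 16704640)) (l 16700728))) (a (c (b (l 16708040) (l 16715032)) (b (l 16705984) (l 16713200))) (c (b (l 16711480) (l 16718456)) (b (l 16709576) (l 16716768)))))))), by decide +kernel⟩

def k86_A00pp_022_s3 : ∃ t, chk3 f_A00pp_022_s3 t 35 29 1 = true :=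
  ⟨(a (a (c (c (b (b (l 16681160) (b (l 16690632) (l 16697064))) (a (b (l 16705224) (l 530910735)) (b (l 16708584) (l 530949135)))) (b (b (l 16679864) (l 16695328)) (b (b (l 16702576) (l 16709304)) (b (l 16716160) (l 16723152))))) (b (b (a (l 16676016) (l 16679712)) (b (l 16687632) (l 16694272))) (b (b (l 16701024) (c (l 16708368) (l 16707408))) (a (b (l 16713128) (l 16720288)) (l 531282959))))) (b (b (c (b (l 16679056) (l 16685304)) (b (l 16671520) (l 16688384))) (a (c (l 531739407) (l 531591951)) (c (l 531510287) (l 531370767)))) (b (a (c (l 531351311) (l 531198735)) (c (l 531122447) (l 531245839))) (c (a (l 531217423) (l 530989327)) (a (l 531061007) (l 530839567)))))) (b (a (a (c (b (l 531655695) (l 531281167)) (b (l 531799055) (l 531150095))) (c (b (l 16695864) (l 531589391)) (b (l 16694128) (l 531467279)))) (a (c (b (l 531467023) (l 531361039)) (b (l 16700240) (l 531247887))) (c (b (l 531507983) (l 531401743)) (b (l 16703696) (l 531297551))))) (a (b (c (a (l 531162639) (l 531202831)) (a (l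 531025423) (l 531073807))) (c (a (l 531030031) (l 531070991)) (a (l 530887439) (l 530936079)))) (b (c (a (l 531243279) (l 531283983)) (a (l 531123215) (l 531173391))) (c (a (l 531112207) (l 531153423)) (a (l 530985231) (l 531035407))))))), by decide +kernel⟩

def k87_A00pp_022_s3 : ∃ t, chk3 f_A00pp_022_s3 t 16 30 1 = true :=
  ⟨(a (l 14) (a (l 14) (a (b (b (b (c (l 16693224) (l 16674664)) (a (l 14) (c (l 16697272) (l 16694800)))) (l 14)) (l 14)) (c (b (a (b (b (l 16693584) (l 16700992)) (b (l 16708568) (l 14))) (b (b (l 16697280) (l 16704680)) (b (l 16707000) (c (l 16720408) (l 16719576))))) (l 14)) (b (b (b (l 16692856) (l 16700552)) (a (b (l 16706504) (l 14)) (b (l 16710296) (l 16718320)))) (l 14)))))), by decide +kernel⟩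

def k88_A00pp_022_s3 : ∃ t, chk3 f_A00pp_022_s3 t 34 30 1 = true :=
  ⟨(a (b (a (a (b (a (b (l 530341903) (l 530262031)) (b (l 530361103) (l 530281231))) (a (b (l 530178319) (l 530090767)) (b (l 530197519) (l 530110223)))) (b (a (b (l 530380303) (l 530300431)) (b (l 530399759) (l 530319887))) (a (b (l 530216975) (l 530129679)) (b (l 530236431) (l 530149135))))) (a (b (a (b (l 530419215) (l 530339599)) (b (l 530438927) (l 530359311))) (a (c (l 530307087) (l 530117391)) (c (l 530326031) (l 530137871)))) (b (a (b (l 530458639) (l 530379279)) (b (l 530478607) (l 530399247))) (a (c (l 530345231) (l 530158863)) (c (l 530364431) (l 530179855)))))) (b (b (a (a (a (l 14) (l 530018831)) (a (l 530038287) (l 530057999))) (a (a (l 530077711) (l 530097679)) (a (l 530117903) (l 530138127)))) (a (l 14) (a (a (l 529982735) (l 530002703)) (a (l 530022927) (l 530043151))))) (a (l 14) (a (l 14) (b (a (l 529923855) (l 529944335)) (l 14)))))) (b (a (b (a (a (b (l 530498831) (l 530419215)) (b (l 530519055) (l 530439695)))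 (b (c (l 16718720) (l 16717000)) (c (l 16726032) (l 16724560)))) (a (a (l 530829839) (l 530581775)) (a (l 530333711) (l 530354447)))) (b (b (a (c (l 530679311) (l 16720576)) (c (l 16725576) (l 16724112))) (a (l 531048207) (l 530821647))) (a (a (l 530375439) (l 530396431)) (a (l 530417423) (l 530438671))))) (a (a (b (a (c (l 530202127) (l 530019599)) (c (l 530221839) (l 530041103))) (a (c (l 530008079) (l 529818639)) (c (l 530027791) (l 529840399)))) (b (a (l 530421007) (l 530173455)) (a (c (l 530047503) (l 529862415)) (c (l 530067471) (l 529884687))))) (a (a (b (l 530194447) (l 530534415)) (b (l 530215439) (l 530287375))) (a (b (l 530236943) (l 530040335)) (b (l 530258191) (l 530062095))))))), by decide +kernel⟩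

def k89_A00pp_022_s3 : ∃ t, chk3 f_A00pp_022_s3 t 35 30 1 = true :=
  ⟨(a (b (a (b (a (b (l 531211279) (l 530595599)) (b (l 530985743) (l 530638863))) (a (a (l 530459919) (l 530481423)) (b (l 530556431) (l 530470415)))) (b (a (b (l 530760719) (l 530682383)) (b (l 530804751) (l 530726415))) (a (b (l 530600207) (l 530514447)) (b (l 530644495) (l 530558991))))) (a (b (a (a (l 530279951) (l 530301455)) (a (l 530323471) (l 530345231))) (b (a (l 530145295) (l 530189327)) (l 4))) (c (a (b (l 530453519) (l 530261519)) (b (l 530495247) (l 4))) (a (b (l 530302479) (l 530104591)) (l 529984271))))) (b (b (a (c (a (l 530882319) (l 530923791)) (a (l 530737423) (l 530786063))) (b (a (l 530939407) (l 530985231)) (a (l 530861583) (l 530907663)))) (a (a (b (l 530689295) (l 530603791)) (b (l 530734607) (l 530649359))) (a (b (l 530780431) (l 530695439)) (b (l 530826767) (l 530741775))))) (b (a (a (l 531005199) (l 530513935)) (a (l 530560527) (l 530607375))) (l 4)))), by decide +kernel⟩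

def k90_A00pp_022_s3 : ∃ t, chk3 f_A00pp_022_s3 t 8 31 1 = true :=
  ⟨(a (l 14) (a (a (l 14) (a (a (l 14) (a (l 14) (l 4))) (l 4))) (l 4))), by decide +kernel⟩

def k91_A00pp_022_s3 : ∃ t, chk3 f_A00pp_022_s3 t 36 14 1 = true :=
  ⟨(b (a (b (a (c (b (l 16650560) (l 16672176)) (b (l 16659248) (l 16670520))) (c (b (l 16668016) (l 16678976)) (b (l 16666592) (l 16677664)))) (a (c (b (c (l 16684040) (l 16683296)) (a (l 16693712) (l 16696992))) (b (c (l 16682544) (l 16681800)) (b (l 16691032) (l 16697024)))) (c (b (c (l 16690600) (l 16690008)) (b (l 16698928) (l 16704760))) (b (l 531494415) (l 531409423))))) (b (a (c (b (l 16674856) (l 16688256)) (b (l 16673736) (l 16687232))) (c (b (l 16681544) (l 16694776)) (b (l 16680704) (l 16691376)))) (a (c (b (l 531649807) (l 531567375)) (b (l 531593487) (l 531509007))) (c (a (l 531676943) (l 531990287)) (b (l 531693583) (l 531877903)))))) (a (b (a (c (b (b (l 16704288) (l 16710344)) (a (l 531442959) (l 531484943))) (b (b (l 16703088) (l 16709232)) (b (l 16718096)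 (l 531074063)))) (c (b (l 531385615) (a (l 531527439) (l 531570703))) (b (l 531312655) (l 531203855)))) (b (a (c (a (l 531325199) (l 531366927)) (a (l 531223823) (l 531274767))) (c (a (l 531409167) (l 531452431)) (c (l 531101711) (l 531062543)))) (a (c (a (l 531195151) (l 531236879)) (a (l 531086095) (l 531137551))) (c (a (l 531279119) (l 531322127)) (b (l 530982159) (l 530911759)))))) (b (a (c (b (l 531473423) (l 531367951)) (b (l 531412751) (l 531304719))) (c (a (l 531489807) (l 531535375)) (a (l 531436047) (l 531487247)))) (a (c (b (l 531250191) (a (l 531366159) (l 531411727))) (b (l 531183887) (a (l 531293455) (l 531344655)))) (c (b (l 531341327) (a (l 531457807) (l 531504143))) (b (l 531286543) (l 531153167))))))), by decide +kernel⟩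

def k92_A00pp_022_s3 : ∃ t, chk3 f_A00pp_022_s3 t 37 14 1 = true :=
  ⟨(b (a (b (c (a (b (l 16688072) (l 532169999)) (b (l 16694440) (l 532261647))) (a (b (l 16687488) (l 531868687)) (b (l 16694088) (l 532239887)))) (a (c (b (l 532098319) (l 532016655)) (b (l 532063759) (l 531980047))) (c (l 531881743) (l 532125711)))) (b (c (a (b (l 16700632) (l 532354831)) (b (l 16706656) (l 532449039))) (a (b (l 16700496) (l 532344079)) (b (l 16696216) (l 532449551)))) (a (c (l 531975439) (l 532230671)) (c (l 532338703) (l 532336655))))) (a (b (a (c (b (l 531923727) (l 531819279)) (b (l 531885071) (l 531778319))) (c (b (l 532016911) (l 531912975)) (b (l 531989263) (l 531883023)))) (c (a (b (l 531702799) (l 531305487)) (l 531465487)) (a (b (l 531659023) (l 531258127)) (l 531699471)))) (a (b (b (l 531834127) (l 531729935)) (c (l 531561999) (l 531806991))) (b (b (l 531935503) (l 531831823)) (c (l 531928335) (l 531916303)))))), by decide +kernel⟩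

def k93_A00pp_022_s3 : ∃ t, chk3 f_A00pp_022_s3 t 19 14 1 = true :=
  ⟨(b (a (b (a (b (c (l 532129551) (l 532149519)) (c (a (l 532544271) (l 532641039)) (a (l 532556303) (l 532664079)))) (b (c (l 532594703) (l 532636687)) (c (l 532518159) (l 532557839)))) (a (c (a (l 532434959) (l 532532239)) (a (l 532444175) (l 532552719))) (a (b (l 532684815) (l 532605455)) (b (l 532789519) (l 532710927))))) (b (a (b (c (l 533064719) (l 533128207)) (c (l 532986639) (l 533047567))) (b (c (l 533270799) (l 533274895)) (c (l 533190159) (l 533245199)))) (a (c (b (l 532918031) (l 532841231)) (b (l 532978191) (l 532899855))) (c (l 533085199) (l 533165839))))) (b (b (a (a (c (l 532083215) (l 532094735)) (c (l 532282127) (l 532316943))) (a (c (l 532754447) (l 532811023)) (l 532999951))) (a (a (c (l 531982095) (l 531991311)) (c (l 532451599) (l 532214543))) (a (a (l 532361231) (l 4)) (l 4)))) (b (a (a (a (l 531820815) (l 532194831)) (a (l 532301839) (l 4))) (l 4)) (l 4)))), by decide +kernel⟩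

def k94_A00pp_022_s3 : ∃ t, chk3 f_A00pp_022_s3 t 9 15 1 = true :=
  ⟨(a (a (b (b (a (b (a (b (a (l 531031567) (l 531078415)) (a (l 530954255) (l 531001359))) (b (c (a (l 531173647) (l 531215375)) (l 530837263)) (a (l 531048975) (l 531096847)))) (a (a (b (l 530873359) (l 530788879)) (b (l 530920719) (l 530836239))) (a (l 531194895) (l 530974735)))) (b (b (a (c (a (l 531260175) (l 531305999)) (l 530940687)) (c (l 531374863) (l 531312911))) (a (a (l 531145231) (l 531194127)) (l 530999055))) (a (a (l 531627535) (l 4)) (l 4)))) (l 4)) (l 4)) (b (a (a (b (b (b (c (l 531469327) (l 531418383)) (l 4)) (l 4)) (l 4)) (l 4)) (l 4)) (l 4))) (l 4)), by decide +kernel⟩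

def k95_A00pp_022_s3 : ∃ t, chk3 f_A00pp_022_s3 t 5 7 1 = true :=
  ⟨(a (b (a (b (a (b (a (b (c (l 533138703) (l 533070095)) (b (c (l 533124111) (l 533057295)) (c (l 533098511) (l 533031951)))) (c (b (l 532946447) (b (l 532951823) (l 532917519))) (b (l 532320527) (b (l 532597263) (l 532831247))))) (a (c (l 533027087) (l 532691471)) (c (l 532839183) (l 532483855)))) (a (a (b (c (b (l 532794127) (b (l 532788751) (l 532786191))) (b (l 532689423) (b (l 532686351) (l 532685071)))) (a (l 532674831) (l 4))) (b (b (l 532658191) (c (l 532707343) (l 532328463))) (l 4))) (b (b (l 532536335) (b (l 532533775) (l 4))) (l 4)))) (l 4)) (b (b (a (b (a (l 532378895) (l 4)) (l 4)) (l 4)) (l 4)) (l 4))) (l 4)) (l 4)), by decide +kernel⟩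

def k96_A00pp_022_s3 : ∃ t, chk3 f_A00pp_022_s3 t 3 3 1 = true :=
  ⟨(b (a (a (b (a (b (a (c (b (l 531299855) (a (l 531360527) (l 531265039))) (b (a (l 530941455) (l 530834447)) (a (l 530964751) (l 530854671)))) (a (a (c (l 531206415) (l 530778127)) (l 530955535)) (l 530896143))) (b (b (a (c (l 531322127) (a (l 530958095) (l 530879503))) (a (c (l 531193871) (c (l 530887183) (l 530674959))) (l 4))) (a (l 531088911) (l 4))) (a (c (l 531235343) (l 530861071)) (l 4)))) (b (a (c (l 531011343) (l 530547215)) (c (l 530882319) (b (l 530374671) (l 4)))) (l 4))) (l 4)) (b (l 4) (l 4))) (l 4)) (l 4)), by decide +kernel⟩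

theorem t97_A00pp_022_s3 : ∃ t, chk3 f_A00pp_022_s3 t 18 14 1 = true := ex3_a k91_A00pp_022_s3 k92_A00pp_022_s3

theorem t98_A00pp_022_s3 : ∃ t, chk3 f_A00pp_022_s3 t 9 14 1 = true := ex3_a t97_A00pp_022_s3 k93_A00pp_022_s3

theorem t99_A00pp_022_s3 : ∃ t, chk3 f_A00pp_022_s3 t 9 7 1 = true := ex3_b t98_A00pp_022_s3 k94_A00pp_022_s3

theorem t100_A00pp_022_s3 : ∃ t, chk3 f_A00pp_022_s3 t 17 30 1 = true := ex3_a k88_A00pp_022_s3 k89_A00pp_022_s3

theorem t101_A00pp_022_s3 : ∃ t, chk3 f_A00pp_022_s3 t 8 30 1 = true := ex3_a k87_A00pp_022_s3 t100_A00pp_022_s3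

theorem t102_A00pp_022_s3 : ∃ t, chk3 f_A00pp_022_s3 t 8 15 1 = true := ex3_b t101_A00pp_022_s3 k90_A00pp_022_s3

theorem t103_A00pp_022_s3 : ∃ t, chk3 f_A00pp_022_s3 t 17 29 1 = true := ex3_a k85_A00pp_022_s3 k86_A00pp_022_s3

theorem t104_A00pp_022_s3 : ∃ t, chk3 f_A00pp_022_s3 t 8 29 1 = true := ex3_a k84_A00pp_022_s3 t103_A00pp_022_s3

theorem t105_A00pp_022_s3 : ∃ t, chk3 f_A00pp_022_s3 t 8 463 15 = true := ex3_c k82_A00pp_022_s3 k83_A00pp_022_s3

theorem t106_A00pp_022_s3 : ∃ t, chk3 f_A00pp_022_s3 t 8 231 15 = true := ex3_b k81_A00pp_022_s3 t105_A00pp_022_s3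

theorem t107_A00pp_022_s3 : ∃ t, chk3 f_A00pp_022_s3 t 8 463 14 = true := ex3_b k79_A00pp_022_s3 k80_A00pp_022_s3

theorem t108_A00pp_022_s3 : ∃ t, chk3 f_A00pp_022_s3 t 8 231 14 = true := ex3_b k78_A00pp_022_s3 t107_A00pp_022_s3

theorem t109_A00pp_022_s3 : ∃ t, chk3 f_A00pp_022_s3 t 8 231 7 = true := ex3_c t108_A00pp_022_s3 t106_A00pp_022_s3

theorem t110_A00pp_022_s3 : ∃ t, chk3 f_A00pp_022_s3 t 8 115 7 = true := ex3_b k77_A00pp_022_s3 t109_A00pp_022_s3

theorem t111_A00pp_022_s3 : ∃ t, chk3 f_A00pp_022_s3 t 8 463 26 = true := ex3_b k74_A00pp_022_s3 k75_A00pp_022_s3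

theorem t112_A00pp_022_s3 : ∃ t, chk3 f_A00pp_022_s3 t 8 463 13 = true := ex3_c t111_A00pp_022_s3 k76_A00pp_022_s3

theorem t113_A00pp_022_s3 : ∃ t, chk3 f_A00pp_022_s3 t 8 231 13 = true := ex3_b k73_A00pp_022_s3 t112_A00pp_022_s3

theorem t114_A00pp_022_s3 : ∃ t, chk3 f_A00pp_022_s3 t 8 463 25 = true := ex3_b k71_A00pp_022_s3 k72_A00pp_022_s3

theorem t115_A00pp_022_s3 : ∃ t, chk3 f_A00pp_022_s3 t 8 463 24 = true := ex3_b k69_A00pp_022_s3 k70_A00pp_022_s3

theorem t116_A00pp_022_s3 : ∃ t, chk3 f_A00pp_022_s3 t 8 463 12 = true := ex3_c t115_A00pp_022_s3 t114_A00pp_022_s3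

theorem t117_A00pp_022_s3 : ∃ t, chk3 f_A00pp_022_s3 t 8 231 12 = true := ex3_b k68_A00pp_022_s3 t116_A00pp_022_s3

theorem t118_A00pp_022_s3 : ∃ t, chk3 f_A00pp_022_s3 t 8 231 6 = true := ex3_c t117_A00pp_022_s3 t113_A00pp_022_s3

theorem t119_A00pp_022_s3 : ∃ t, chk3 f_A00pp_022_s3 t 8 115 6 = true := ex3_b k67_A00pp_022_s3 t118_A00pp_022_s3

theorem t120_A00pp_022_s3 : ∃ t, chk3 f_A00pp_022_s3 t 8 115 3 = true := ex3_c t119_A00pp_022_s3 t110_A00pp_022_s3

theorem t121_A00pp_022_s3 : ∃ t, chk3 f_A00pp_022_s3 t 8 57 3 = true := ex3_b k66_A00pp_022_s3 t120_A00pp_022_s3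

theorem t122_A00pp_022_s3 : ∃ t, chk3 f_A00pp_022_s3 t 8 463 23 = true := ex3_b k64_A00pp_022_s3 k65_A00pp_022_s3

theorem t123_A00pp_022_s3 : ∃ t, chk3 f_A00pp_022_s3 t 8 463 22 = true := ex3_b k62_A00pp_022_s3 k63_A00pp_022_s3

theorem t124_A00pp_022_s3 : ∃ t, chk3 f_A00pp_022_s3 t 8 463 11 = true := ex3_c t123_A00pp_022_s3 t122_A00pp_022_s3

theorem t125_A00pp_022_s3 : ∃ t, chk3 f_A00pp_022_s3 t 8 231 11 = true := ex3_b k61_A00pp_022_s3 t124_A00pp_022_s3

theorem t126_A00pp_022_s3 : ∃ t, chk3 f_A00pp_022_s3 t 8 927 21 = true := ex3_c k59_A00pp_022_s3 k60_A00pp_022_s3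

theorem t127_A00pp_022_s3 : ∃ t, chk3 f_A00pp_022_s3 t 8 463 21 = true := ex3_b k58_A00pp_022_s3 t126_A00pp_022_s3

theorem t128_A00pp_022_s3 : ∃ t, chk3 f_A00pp_022_s3 t 8 1855 20 = true := ex3_c k56_A00pp_022_s3 k57_A00pp_022_s3

theorem t129_A00pp_022_s3 : ∃ t, chk3 f_A00pp_022_s3 t 8 927 20 = true := ex3_b k55_A00pp_022_s3 t128_A00pp_022_s3

theorem t130_A00pp_022_s3 : ∃ t, chk3 f_A00pp_022_s3 t 8 463 20 = true := ex3_b k54_A00pp_022_s3 t129_A00pp_022_s3

theorem t131_A00pp_022_s3 : ∃ t, chk3 f_A00pp_022_s3 t 8 463 10 = true := ex3_c t130_A00pp_022_s3 t127_A00pp_022_s3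

theorem t132_A00pp_022_s3 : ∃ t, chk3 f_A00pp_022_s3 t 8 231 10 = true := ex3_b k53_A00pp_022_s3 t131_A00pp_022_s3

theorem t133_A00pp_022_s3 : ∃ t, chk3 f_A00pp_022_s3 t 8 231 5 = true := ex3_c t132_A00pp_022_s3 t125_A00pp_022_s3

theorem t134_A00pp_022_s3 : ∃ t, chk3 f_A00pp_022_s3 t 8 115 5 = true := ex3_b k52_A00pp_022_s3 t133_A00pp_022_s3

theorem t135_A00pp_022_s3 : ∃ t, chk3 f_A00pp_022_s3 t 8 3711 38 = true := ex3_c k49_A00pp_022_s3 k50_A00pp_022_s3

theorem t136_A00pp_022_s3 : ∃ t, chk3 f_A00pp_022_s3 t 8 1855 38 = true := ex3_b k48_A00pp_022_s3 t135_A00pp_022_s3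

theorem t137_A00pp_022_s3 : ∃ t, chk3 f_A00pp_022_s3 t 8 1855 19 = true := ex3_c t136_A00pp_022_s3 k51_A00pp_022_s3

theorem t138_A00pp_022_s3 : ∃ t, chk3 f_A00pp_022_s3 t 8 927 19 = true := ex3_b k47_A00pp_022_s3 t137_A00pp_022_s3

theorem t139_A00pp_022_s3 : ∃ t, chk3 f_A00pp_022_s3 t 8 463 19 = true := ex3_b k46_A00pp_022_s3 t138_A00pp_022_s3

theorem t140_A00pp_022_s3 : ∃ t, chk3 f_A00pp_022_s3 t 8 3711 37 = true := ex3_c k44_A00pp_022_s3 k45_A00pp_022_s3

theorem t141_A00pp_022_s3 : ∃ t, chk3 f_A00pp_022_s3 t 8 1855 37 = true := ex3_b k43_A00pp_022_s3 t140_A00pp_022_s3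

theorem t142_A00pp_022_s3 : ∃ t, chk3 f_A00pp_022_s3 t 8 3711 72 = true := ex3_b k40_A00pp_022_s3 k41_A00pp_022_s3

theorem t143_A00pp_022_s3 : ∃ t, chk3 f_A00pp_022_s3 t 8 3711 36 = true := ex3_c t142_A00pp_022_s3 k42_A00pp_022_s3

theorem t144_A00pp_022_s3 : ∃ t, chk3 f_A00pp_022_s3 t 8 1855 36 = true := ex3_b k39_A00pp_022_s3 t143_A00pp_022_s3

theorem t145_A00pp_022_s3 : ∃ t, chk3 f_A00pp_022_s3 t 8 1855 18 = true := ex3_c t144_A00pp_022_s3 t141_A00pp_022_s3

theorem t146_A00pp_022_s3 : ∃ t, chk3 f_A00pp_022_s3 t 8 927 18 = true := ex3_b k38_A00pp_022_s3 t145_A00pp_022_s3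

theorem t147_A00pp_022_s3 : ∃ t, chk3 f_A00pp_022_s3 t 8 463 18 = true := ex3_b k37_A00pp_022_s3 t146_A00pp_022_s3

theorem t148_A00pp_022_s3 : ∃ t, chk3 f_A00pp_022_s3 t 8 463 9 = true := ex3_c t147_A00pp_022_s3 t139_A00pp_022_s3

theorem t149_A00pp_022_s3 : ∃ t, chk3 f_A00pp_022_s3 t 8 231 9 = true := ex3_b k36_A00pp_022_s3 t148_A00pp_022_s3

theorem t150_A00pp_022_s3 : ∃ t, chk3 f_A00pp_022_s3 t 8 3711 71 = true := ex3_b k34_A00pp_022_s3 k35_A00pp_022_s3

theorem t151_A00pp_022_s3 : ∃ t, chk3 f_A00pp_022_s3 t 8 3711 70 = true := ex3_b k32_A00pp_022_s3 k33_A00pp_022_s3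

theorem t152_A00pp_022_s3 : ∃ t, chk3 f_A00pp_022_s3 t 8 3711 35 = true := ex3_c t151_A00pp_022_s3 t150_A00pp_022_s3

theorem t153_A00pp_022_s3 : ∃ t, chk3 f_A00pp_022_s3 t 8 1855 35 = true := ex3_b k31_A00pp_022_s3 t152_A00pp_022_s3

theorem t154_A00pp_022_s3 : ∃ t, chk3 f_A00pp_022_s3 t 8 3711 69 = true := ex3_b k29_A00pp_022_s3 k30_A00pp_022_s3

theorem t155_A00pp_022_s3 : ∃ t, chk3 f_A00pp_022_s3 t 8 3711 34 = true := ex3_c k28_A00pp_022_s3 t154_A00pp_022_s3

theorem t156_A00pp_022_s3 : ∃ t, chk3 f_A00pp_022_s3 t 8 1855 34 = true := ex3_b k27_A00pp_022_s3 t155_A00pp_022_s3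

theorem t157_A00pp_022_s3 : ∃ t, chk3 f_A00pp_022_s3 t 8 1855 17 = true := ex3_c t156_A00pp_022_s3 t153_A00pp_022_s3

theorem t158_A00pp_022_s3 : ∃ t, chk3 f_A00pp_022_s3 t 8 1854 17 = true := ex3_c k25_A00pp_022_s3 k26_A00pp_022_s3

theorem t159_A00pp_022_s3 : ∃ t, chk3 f_A00pp_022_s3 t 8 927 17 = true := ex3_b t158_A00pp_022_s3 t157_A00pp_022_s3

theorem t160_A00pp_022_s3 : ∃ t, chk3 f_A00pp_022_s3 t 8 3711 33 = true := ex3_c k23_A00pp_022_s3 k24_A00pp_022_s3

theorem t161_A00pp_022_s3 : ∃ t, chk3 f_A00pp_022_s3 t 8 1855 33 = true := ex3_b k22_A00pp_022_s3 t160_A00pp_022_s3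

theorem t162_A00pp_022_s3 : ∃ t, chk3 f_A00pp_022_s3 t 8 1855 16 = true := ex3_c k21_A00pp_022_s3 t161_A00pp_022_s3

theorem t163_A00pp_022_s3 : ∃ t, chk3 f_A00pp_022_s3 t 8 927 16 = true := ex3_b k20_A00pp_022_s3 t162_A00pp_022_s3

theorem t164_A00pp_022_s3 : ∃ t, chk3 f_A00pp_022_s3 t 8 927 8 = true := ex3_c t163_A00pp_022_s3 t159_A00pp_022_s3

theorem t165_A00pp_022_s3 : ∃ t, chk3 f_A00pp_022_s3 t 8 463 8 = true := ex3_b k19_A00pp_022_s3 t164_A00pp_022_s3

theorem t166_A00pp_022_s3 : ∃ t, chk3 f_A00pp_022_s3 t 8 231 8 = true := ex3_b k18_A00pp_022_s3 t165_A00pp_022_s3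

theorem t167_A00pp_022_s3 : ∃ t, chk3 f_A00pp_022_s3 t 8 231 4 = true := ex3_c t166_A00pp_022_s3 t149_A00pp_022_s3

theorem t168_A00pp_022_s3 : ∃ t, chk3 f_A00pp_022_s3 t 8 115 4 = true := ex3_b k17_A00pp_022_s3 t167_A00pp_022_s3

theorem t169_A00pp_022_s3 : ∃ t, chk3 f_A00pp_022_s3 t 8 115 2 = true := ex3_c t168_A00pp_022_s3 t134_A00pp_022_s3

theorem t170_A00pp_022_s3 : ∃ t, chk3 f_A00pp_022_s3 t 8 57 2 = true := ex3_b k16_A00pp_022_s3 t169_A00pp_022_s3

theorem t171_A00pp_022_s3 : ∃ t, chk3 f_A00pp_022_s3 t 8 57 1 = true := ex3_c t170_A00pp_022_s3 t121_A00pp_022_s3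

theorem t172_A00pp_022_s3 : ∃ t, chk3 f_A00pp_022_s3 t 8 28 1 = true := ex3_b k15_A00pp_022_s3 t171_A00pp_022_s3

theorem t173_A00pp_022_s3 : ∃ t, chk3 f_A00pp_022_s3 t 8 14 1 = true := ex3_b t172_A00pp_022_s3 t104_A00pp_022_s3

theorem t174_A00pp_022_s3 : ∃ t, chk3 f_A00pp_022_s3 t 8 7 1 = true := ex3_b t173_A00pp_022_s3 t102_A00pp_022_s3

theorem t175_A00pp_022_s3 : ∃ t, chk3 f_A00pp_022_s3 t 4 7 1 = true := ex3_a t174_A00pp_022_s3 t99_A00pp_022_s3

theorem t176_A00pp_022_s3 : ∃ t, chk3 f_A00pp_022_s3 t 2 7 1 = true := ex3_a t175_A00pp_022_s3 k95_A00pp_022_s3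

theorem t177_A00pp_022_s3 : ∃ t, chk3 f_A00pp_022_s3 t 10 6 1 = true := ex3_b k12_A00pp_022_s3 k13_A00pp_022_s3

theorem t178_A00pp_022_s3 : ∃ t, chk3 f_A00pp_022_s3 t 5 6 1 = true := ex3_a t177_A00pp_022_s3 k14_A00pp_022_s3

theorem t179_A00pp_022_s3 : ∃ t, chk3 f_A00pp_022_s3 t 18 6 1 = true := ex3_b k9_A00pp_022_s3 k10_A00pp_022_s3

theorem t180_A00pp_022_s3 : ∃ t, chk3 f_A00pp_022_s3 t 9 6 1 = true := ex3_a t179_A00pp_022_s3 k11_A00pp_022_s3

theorem t181_A00pp_022_s3 : ∃ t, chk3 f_A00pp_022_s3 t 8 27 1 = true := ex3_b k7_A00pp_022_s3 k8_A00pp_022_s3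

theorem t182_A00pp_022_s3 : ∃ t, chk3 f_A00pp_022_s3 t 8 26 1 = true := ex3_a k5_A00pp_022_s3 k6_A00pp_022_s3

theorem t183_A00pp_022_s3 : ∃ t, chk3 f_A00pp_022_s3 t 8 13 1 = true := ex3_b t182_A00pp_022_s3 t181_A00pp_022_s3

theorem t184_A00pp_022_s3 : ∃ t, chk3 f_A00pp_022_s3 t 8 6 1 = true := ex3_b k4_A00pp_022_s3 t183_A00pp_022_s3

theorem t185_A00pp_022_s3 : ∃ t, chk3 f_A00pp_022_s3 t 4 6 1 = true := ex3_a t184_A00pp_022_s3 t180_A00pp_022_s3

theorem t186_A00pp_022_s3 : ∃ t, chk3 f_A00pp_022_s3 t 2 6 1 = true := ex3_a t185_A00pp_022_s3 t178_A00pp_022_s3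

theorem t187_A00pp_022_s3 : ∃ t, chk3 f_A00pp_022_s3 t 2 3 1 = true := ex3_b t186_A00pp_022_s3 t176_A00pp_022_s3

theorem t188_A00pp_022_s3 : ∃ t, chk3 f_A00pp_022_s3 t 1 3 1 = true := ex3_a t187_A00pp_022_s3 k96_A00pp_022_s3

theorem t189_A00pp_022_s3 : ∃ t, chk3 f_A00pp_022_s3 t 6 2 1 = true := ex3_b k1_A00pp_022_s3 k2_A00pp_022_s3

theorem t190_A00pp_022_s3 : ∃ t, chk3 f_A00pp_022_s3 t 3 2 1 = true := ex3_a t189_A00pp_022_s3 k3_A00pp_022_s3

theorem t191_A00pp_022_s3 : ∃ t, chk3 f_A00pp_022_s3 t 1 2 1 = true := ex3_a k0_A00pp_022_s3 t190_A00pp_022_s3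

theorem t192_A00pp_022_s3 : ∃ t, chk3 f_A00pp_022_s3 t 1 1 1 = true := ex3_b t191_A00pp_022_s3 t188_A00pp_022_s3

theorem c_A00pp_022_s3 : CertF 0 536870912 0 536870912 923417968 42949674 true true true .pp 0 2 2
    ndB0q0 ndB0q2 pcB2 cut_A00pp_022_s3 xt_A00pp_022_s3 :=
  certF0 (fam := true) (s1 := true) (s2 := true) (a := 0) (b := 2) (c := 2) (cn := .pp) (n1 := ndB0q0) (n2 := ndB0q2) (pc := pcB2) (cut := cut_A00pp_022_s3) (xt := xt_A00pp_022_s3) (P1 := 0) (W1 := 536870912) (P2 := 0) (W2 := 536870912) (P3 := 923417968) (W3 := 42949674)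
    rfl t192_A00pp_022_s3

theorem s_A00pp_022_s3 {κ x : ℝ} (hκ : κ * h0 = ken x) (hx : ((923417968 : ℕ) : ℝ) / S ≤ x)
    (hx' : x ≤ (((923417968 : ℕ) : ℝ) + (42949674 : ℕ)) / S)
    (H : CutA (VFD κ) PP tK tL pcB (Cut.of [[⟨0, 0, 0, 67108864⟩, ⟨1, 1, 0, 67108864⟩, ⟨2, 1, 0, 67108864⟩]]) 0 2 2 0 0 (sgb true) (sgb true) x) :
    AltA (VFD κ) PP tK tL pcB [⟨4, 0, 0, 2845415833⟩] 0 2 2 0 0 (sgb true) (sgb true) x :=
  strip_altAD (m := 2845415833) false rfl hκ (SH.κ0 hκ (SH.hx1 hx).le (SH.hx2 hx').le) (SH.hx1 hx).le (SH.hx2 hx') (covB00).cov (covB02).cov hx hx' c_A00pp_022_s3 H ((okx hx hx').extA (T := tt) (sideB hx hx') hκ rfl rfl (.O 0 true) (.O 2 true) (Or.inl rfl))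

end Pool.Agent.Strip051.G.I8600_9000.Tab.St.C
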