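import Pool.Agent.Strip051.G.I8600_9000.StH
import Pool.Agent.Strip051.G.I8600_9000.StF

/-! # Unit strips 10 (generated) -/

set_option linter.all false
set_option maxRecDepth 100000

namespace Pool.Agent.Strip051.G.I8600_9000.Tab.St.C

open Pool.Agent.Strip051.PB Pool.Agent.Strip051.PB.T Pool.Agent.StripNear Pool.Agent.Strip051.LC
open Pool.Agent.Strip051.G.I8600_9000.Tab Pool.Agent.Strip051.G.I8600_9000.Tab.St

noncomputable def cut_A00pm_202_s1 : Cut := Cut.of [[⟨4, 0, 0, 1449551462⟩], [⟨0, 1, 0, 67108864⟩, ⟨1, 0, 0, 67108864⟩, ⟨2, 1, 0, 67108864⟩]]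

noncomputable def f_A00pm_202_s1 : ℕ → ℕ → ℕ → ℕ → Bool := onCell 0 536870912 1073741824 536870912 923417968 42949674
    (rowF 1 true true false .pp 2 0 2 (qsf 0 536870912 0 536870912 2) ndB0q2 ndB0q0 pcB2 cut_A00pm_202_s1 Ext.none)

def k0_A00pm_202_s1 : ∃ t, chk3 f_A00pm_202_s1 t 2 4 1 = true :=
  ⟨(b (l 1) (l 6)), by decide +kernel⟩

def k1_A00pm_202_s1 : ∃ t, chk3 f_A00pm_202_s1 t 3 8 1 = true :=
  ⟨(a (l 1) (a (b (l 1) (a (a (l 1) (a (b (l 1) (b (l 1) (b (l 1) (a (c (l 16502776) (l 16429208)) (c (l 73584317511) (l 16439320)))))) (b (l 1) (b (l 1) (b (l 14) (b (l 14) (c (l 16504680) (l 16454544)))))))) (b (l 14) (b (l 14) (b (l 14) (b (l 14) (a (a (c (l 16524320) (l 16476688)) (c (l 16544880) (l 16499936))) (c (l 16577320) (l 16536696))))))))) (b (l 14) (b (l 14) (b (l 14) (b (l 14) (a (a (c (l 16538664) (l 16504600)) (c (l 16585392) (l 16558280))) (a (l 16617936) (a (l 16632248) (c (a (l 16654336) (l 16624640))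 (l 16618880))))))))))), by decide +kernel⟩

def k2_A00pm_202_s1 : ∃ t, chk3 f_A00pm_202_s1 t 6 9 1 = true :=
  ⟨(a (b (l 1) (l 6)) (b (a (b (l 1) (c (a (l 16291024) (b (l 16327208) (l 16331584))) (a (l 16139944) (l 16219552)))) (b (b (l 1) (c (a (l 16451608) (a (l 16444264) (b (l 16468728) (l 16426000)))) (a (l 16303872) (a (l 16338640) (b (l 16364152) (l 16361816)))))) (c (a (b (l 16452992) (l 16371616)) (b (b (l 16497736) (l 16413864)) (l 16498240))) (a (b (l 16302424) (l 16302568)) (b (l 16431272) (l 16345456)))))) (a (b (c (b (l 16403160) (l 16326640)) (b (l 16165000) (l 16170968))) (l 6)) (b (c (b (a (l 16375128) (l 16415840)) (l 16482784)) (b (l 16324464) (l 16326136))) (c (b (l 16403080) (l 16407952)) (b (l 16328832) (l 16332400))))))), by decide +kernel⟩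

def k3_A00pm_202_s1 : ∃ t, chk3 f_A00pm_202_s1 t 14 9 1 = true :=
  ⟨(b (a (b (b (c (a (a (b (l 1) (a (a (l 16443424) (l 16448008)) (l 16454264))) (b (a (l 16463600) (l 16493136)) (a (l 16462752) (l 16471424)))) (a (b (c (l 16498184) (l 16472544)) (l 16484936)) (b (l 16525248) (l 16503880)))) (a (a (b (l 1) (a (l 16385208) (l 16394840))) (b (l 69289234295) (l 16409344))) (b (c (a (l 16445672) (l 16466232)) (l 16407440)) (a (l 16429584) (l 16451064))))) (c (a (b (a (a (l 16465616) (l 16453512)) (l 16466480)) (a (l 16490272) (l 16466064))) (b (a (l 16484528) (l 16503656)) (l 16493896))) (a (a (b (l 16429304) (l 16385048)) (a (l 16401080) (l 16411136))) (b (l 16427992) (l 16436912))))) (c (b (a (a (a (l 16442848) (l 16452432)) (l 16465744)) (l 16499160)) (a (a (l 16447240) (l 16465864)) (l 16494424))) (a (b (a (l 16382064) (l 16402664)) (l 16431456)) (b (l 16434960) (l 16432992))))) (a (b (b (c (a (b (l 16524048) (l 16523832))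 (l 16534200)) (a (l 16464000) (l 16477088))) (c (a (l 16523768) (l 16544816)) (l 16494136))) (c (b (l 16534752) (l 16535632)) (b (l 16481736) (l 16480352)))) (b (c (b (b (l 16524912) (l 16577472)) (l 16493960)) (b (c (l 16546176) (l 16524088)) (l 16533448))) (c (b (l 16578664) (l 16579768)) (l 16447640))))) (a (a (c (b (b (l 16456968) (l 16458016)) (l 16460376)) (b (l 16386936) (l 16385856))) (b (c (b (l 16495376) (l 16496688)) (l 16431104)) (c (l 16499136) (l 16429912)))) (a (b (c (l 16453632) (l 16478968)) (c (l 16540784) (l 16477768))) (b (c (l 16497872) (l 16529840)) (a (l 16461352) (l 16443416)))))), by decide +kernel⟩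

def k4_A00pm_202_s1 : ∃ t, chk3 f_A00pm_202_s1 t 30 9 1 = true :=
  ⟨(c (b (b (b (a (l 16560032) (l 16586008)) (c (l 16571600) (l 16545008))) (a (l 16541400) (l 16588552))) (a (b (l 16627744) (l 16546048)) (b (l 16568264) (l 16542152)))) (b (b (b (a (l 16503416) (l 16557488)) (a (l 16586048) (l 16556552))) (a (l 16500664) (b (l 16555632) (l 16554592)))) (b (a (l 16498800) (a (l 16539056) (l 16566024))) (a (l 16496360) (l 16548880))))), by decide +kernel⟩

def k5_A00pm_202_s1 : ∃ t, chk3 f_A00pm_202_s1 t 31 18 1 = true :=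
  ⟨(a (b (c (a (l 16597936) (l 16601744)) (a (l 16598104) (l 16601192))) (b (c (l 16566840) (l 16592216)) (c (l 16552000) (l 16579584)))) (a (b (b (c (l 16613088) (l 16586880)) (c (l 16596936) (l 16572632))) (b (c (a (l 16627640) (l 16618184)) (l 16600696)) (c (a (l 16612080) (l 16602360)) (l 16587240)))) (b (a (c (b (l 16599784) (b (l 16629208) (l 16620928))) (b (l 16612808) (l 16598048))) (c (b (c (l 16619696) (l 16593448)) (c (a (l 16614992) (l 16594784)) (l 16597872))) (b (c (l 16641032) (l 16647112)) (b (l 16632664) (l 16625240))))) (c (a (b (l 16598152) (b (l 16596552) (l 16588632))) (c (b (b (l 16599840) (l 16591344)) (b (l 16582944) (l 16574656))) (b (l 16592152) (a (l 16589432) (l 16568560))))) (a (b (l 16583736) (c (l 16606752) (l 16617096))) (b (c (l 16589320) (l 16618544)) (b (a (l 16606608) (l 16590360)) (a (l 16599728) (l 16588672))))))))), by decide +kernel⟩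

def k6_A00pm_202_s1 : ∃ t, chk3 f_A00pm_202_s1 t 31 19 1 = true :=
  ⟨(a (b (b (c (l 16537384) (l 16567328)) (c (l 16523128) (l 16565976))) (b (c (l 16509280) (l 16554624)) (c (a (l 16590008) (l 16569640)) (a (l 16545456) (l 16521288))))) (a (b (c (b (a (l 16596880) (l 16586952)) (a (l 16582120) (l 16572016))) (b (b (l 16577456) (l 16571096)) (b (l 16564872) (l 16558808)))) (c (b (a (l 16567880) (l 16557624)) (a (l 16554200) (l 16543848))) (b (b (l 16552896) (l 16547160)) (c (l 16572440) (l 16589496))))) (c (c (a (b (b (l 16572072) (l 16556424)) (b (l 16541344) (l 16526888))) (b (b (b (l 16566496) (l 16558456)) (b (l 16550560) (l 16542800))) (b (b (l 16535200) (l 16527768)) (b (l 16520496) (l 16513408))))) (a (b (b (l 16582048) (l 16567520)) (b (l 16553592) (l 16540336))) (b (b (b (l 16575360) (l 16567864)) (b (l 16560520) (l 16553328))) (b (b (l 16546312) (l 16539464)) (b (l 16532800) (l 16526328)))))) (b (a (b (b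 (l 16601800) (l 16595296)) (b (l 16588952) (l 16582776))) (c (b (a (l 16584336) (l 16568192)) (b (l 16571328) (l 16564760))) (b (b (l 16595344) (l 16589080)) (b (l 16582984) (l 16566592))))) (a (b (b (l 16576768) (l 16570952)) (c (l 16554888) (l 16570552))) (c (b (b (l 16558368) (l 16552160)) (b (l 16546152) (l 16540344))) (b (b (l 16560888) (l 16560616)) (b (l 16555312) (l 16550232))))))))), by decide +kernel⟩

def k7_A00pm_202_s1 : ∃ t, chk3 f_A00pm_202_s1 t 2 5 1 = true :=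
  ⟨(l 6), by decide +kernel⟩

def k8_A00pm_202_s1 : ∃ t, chk3 f_A00pm_202_s1 t 6 5 1 = true :=
  ⟨(b (a (l 6) (a (l 6) (b (b (c (l 16416312) (l 16255120)) (l 6)) (l 6)))) (l 6)), by decide +kernel⟩

def k9_A00pm_202_s1 : ∃ t, chk3 f_A00pm_202_s1 t 14 10 1 = true :=
  ⟨(b (b (a (c (a (l 16464888) (l 16502984)) (a (l 16386456) (l 16429208))) (a (b (l 16427184) (l 16427640)) (b (l 16389776) (l 16389632)))) (b (a (a (l 16261560) (l 16384416)) (a (l 16427896) (l 16389160))) (a (a (l 6) (b (l 16384872) (b (l 16385072) (l 16385128)))) (b (a (l 16427912) (l 16388584)) (b (a (l 16427904) (l 16388288)) (a (l 16427872) (l 16388064))))))) (a (a (l 6) (l 6)) (b (a (l 16342792) (l 16385528)) (a (l 6) (l 16378736))))), by decide +kernel⟩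

def k10_A00pm_202_s1 : ∃ t, chk3 f_A00pm_202_s1 t 15 20 1 = true :=
  ⟨(b (a (a (c (l 16547312) (l 16492592)) (c (l 16517552) (b (l 16544920) (l 16541568)))) (a (a (c (l 16497712) (l 16530616)) (c (b (l 16556728) (l 16544432)) (b (l 16511048) (l 16501544)))) (a (b (c (a (l 16541160) (l 16509768)) (c (l 16561352) (l 16579864))) (c (a (l 16528784) (l 16497352)) (b (l 16521256) (l 16516688)))) (c (c (b (a (l 16513112) (a (l 16505608) (b (l 16504008) (l 16497280)))) (a (l 16500032) (b (l 16493240) (l 16486880)))) (b (a (l 16527808) (b (l 16520048) (l 16513968))) (a (l 16516048) (b (l 16508088) (l 16502416))))) (c (b (a (l 16543728) (b (l 16534752) (l 16529368))) (a (l 16533400) (b (l 16524208) (l 16519280)))) (b (a (l 16560864) (b (l 16540128) (l 16545992))) (a (l 16552080) (b (l 16541608) (l 16537480))))))))) (a (b (a (l 16476944) (c (l 16500360) (l 16537576))) (b (a (l 16433656) (l 16476936)) (a (c (l 16526416) (l 16484392))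 (c (l 16486408) (l 16531688))))) (a (b (c (b (l 16462120) (l 16456424)) (a (l 16517312) (l 16492816))) (b (c (l 16450752) (l 16498984)) (b (a (l 16481704) (l 16459072)) (a (l 16479288) (l 16414680))))) (c (b (a (b (l 16514712) (l 16508992)) (b (a (l 16499048) (c (l 16480712) (l 16496952))) (a (l 16493336) (l 16461952)))) (b (a (l 16503304) (a (l 16487600) (l 16456168))) (b (a (l 16498824) (l 16477768)) (a (l 16495832) (l 16432712))))) (b (a (c (l 16541512) (l 16563208)) (b (a (l 16536000) (l 16523928)) (c (l 16515864) (l 16536208)))) (b (a (l 16546216) (c (l 16511408) (l 16532720))) (b (b (l 16447648) (l 16446632)) (l 16445248)))))))), by decide +kernel⟩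

def k11_A00pm_202_s1 : ∃ t, chk3 f_A00pm_202_s1 t 15 21 1 = true :=
  ⟨(a (a (b (l 16428392) (l 16418640)) (b (c (l 16475560) (l 16523816)) (b (l 16410768) (l 16404776)))) (a (b (c (l 16434000) (l 16487112)) (c (l 16419000) (l 16475736))) (b (a (b (l 16387112) (l 16421864)) (c (l 16464928) (l 16425640))) (c (a (l 16470720) (l 16449072)) (l 16425656))))), by decide +kernel⟩

def k12_A00pm_202_s1 : ∃ t, chk3 f_A00pm_202_s1 t 7 11 1 = true :=
  ⟨(a (l 6) (a (b (b (a (l 16406936) (l 16396008)) (l 6)) (l 6)) (a (b (c (b (l 16404864) (l 16391632)) (l 16418048)) (l 6)) (b (b (c (a (l 16456160) (l 16434240)) (l 16414176)) (c (l 16347512) (l 16403360))) (b (c (l 16334568) (l 16393088)) (l 6)))))), by decide +kernel⟩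

def k13_A00pm_202_s1 : ∃ t, chk3 f_A00pm_202_s1 t 1 3 1 = true :=
  ⟨(a (l 6) (l 6)), by decide +kernel⟩

theorem t14_A00pm_202_s1 : ∃ t, chk3 f_A00pm_202_s1 t 15 10 1 = true := ex3_b k10_A00pm_202_s1 k11_A00pm_202_s1

theorem t15_A00pm_202_s1 : ∃ t, chk3 f_A00pm_202_s1 t 7 10 1 = true := ex3_a k9_A00pm_202_s1 t14_A00pm_202_s1

theorem t16_A00pm_202_s1 : ∃ t, chk3 f_A00pm_202_s1 t 7 5 1 = true := ex3_b t15_A00pm_202_s1 k12_A00pm_202_s1

theorem t17_A00pm_202_s1 : ∃ t, chk3 f_A00pm_202_s1 t 3 5 1 = true := ex3_a k8_A00pm_202_s1 t16_A00pm_202_s1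

theorem t18_A00pm_202_s1 : ∃ t, chk3 f_A00pm_202_s1 t 1 5 1 = true := ex3_a k7_A00pm_202_s1 t17_A00pm_202_s1

theorem t19_A00pm_202_s1 : ∃ t, chk3 f_A00pm_202_s1 t 31 9 1 = true := ex3_b k5_A00pm_202_s1 k6_A00pm_202_s1

theorem t20_A00pm_202_s1 : ∃ t, chk3 f_A00pm_202_s1 t 15 9 1 = true := ex3_a k4_A00pm_202_s1 t19_A00pm_202_s1

theorem t21_A00pm_202_s1 : ∃ t, chk3 f_A00pm_202_s1 t 7 9 1 = true := ex3_a k3_A00pm_202_s1 t20_A00pm_202_s1

theorem t22_A00pm_202_s1 : ∃ t, chk3 f_A00pm_202_s1 t 3 9 1 = true := ex3_a k2_A00pm_202_s1 t21_A00pm_202_s1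

theorem t23_A00pm_202_s1 : ∃ t, chk3 f_A00pm_202_s1 t 3 4 1 = true := ex3_b k1_A00pm_202_s1 t22_A00pm_202_s1

theorem t24_A00pm_202_s1 : ∃ t, chk3 f_A00pm_202_s1 t 1 4 1 = true := ex3_a k0_A00pm_202_s1 t23_A00pm_202_s1

theorem t25_A00pm_202_s1 : ∃ t, chk3 f_A00pm_202_s1 t 1 2 1 = true := ex3_b t24_A00pm_202_s1 t18_A00pm_202_s1

theorem t26_A00pm_202_s1 : ∃ t, chk3 f_A00pm_202_s1 t 1 1 1 = true := ex3_b t25_A00pm_202_s1 k13_A00pm_202_s1

theorem c_A00pm_202_s1 : CertF 0 536870912 0 536870912 923417968 42949674 true true false .pp 2 0 2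
    ndB0q2 ndB0q0 pcB2 cut_A00pm_202_s1 Ext.none :=
  certF1 (fam := true) (s1 := true) (s2 := false) (a := 2) (b := 0) (c := 2) (cn := .pp) (n1 := ndB0q2) (n2 := ndB0q0) (pc := pcB2) (cut := cut_A00pm_202_s1) (xt := Ext.none) (P1 := 0) (W1 := 536870912) (P2 := 0) (W2 := 536870912) (P3 := 923417968) (W3 := 42949674)
    rfl (fun _ => rfl) t26_A00pm_202_s1

theorem s_A00pm_202_s1 {κ x : ℝ} (hκ : κ * h0 = ken x) (hx : ((923417968 : ℕ) : ℝ) / S ≤ x)
    (hx' : x ≤ (((923417968 : ℕ) : ℝ) + (42949674 : ℕ)) / S)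
    (H : CutA (VFD κ) PP tK tL pcB (Cut.of [[⟨0, 1, 0, 67108864⟩, ⟨1, 0, 0, 67108864⟩, ⟨2, 1, 0, 67108864⟩]]) 2 0 2 0 0 (sgb true) (sgb false) x) :
    AltA (VFD κ) PP tK tL pcB [⟨3, 0, 0, 1449551462⟩] 2 0 2 0 0 (sgb true) (sgb false) x :=
  strip_altAD (m := 1449551462) true rfl hκ (SH.κ0 hκ (SH.hx1 hx).le (SH.hx2 hx').le) (SH.hx1 hx).le (SH.hx2 hx') (covB02).cov (covB00).cov hx hx' c_A00pm_202_s1 H (noExt_A)

noncomputable def cut_A00pm_202_s3 : Cut := Cut.of [[⟨3, 0, 0, 2845415833⟩], [⟨0, 1, 0, 67108864⟩, ⟨1, 0, 0, 67108864⟩, ⟨2, 1, 0, 67108864⟩]]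

noncomputable def f_A00pm_202_s3 : ℕ → ℕ → ℕ → ℕ → Bool := onCell 0 536870912 1073741824 536870912 923417968 42949674
    (rowF 1 true true false .pp 2 0 2 (qsf 0 536870912 0 536870912 2) ndB0q2 ndB0q0 pcB2 cut_A00pm_202_s3 Ext.none)

def k0_A00pm_202_s3 : ∃ t, chk3 f_A00pm_202_s3 t 1 1 1 = true :=
  ⟨(b (l 6) (a (l 6) (l 6))), by decide +kernel⟩

theorem c_A00pm_202_s3 : CertF 0 536870912 0 536870912 923417968 42949674 true true false .pp 2 0 2
    ndB0q2 ndB0q0 pcB2 cut_A00pm_202_s3 Ext.none :=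
  certF1 (fam := true) (s1 := true) (s2 := false) (a := 2) (b := 0) (c := 2) (cn := .pp) (n1 := ndB0q2) (n2 := ndB0q0) (pc := pcB2) (cut := cut_A00pm_202_s3) (xt := Ext.none) (P1 := 0) (W1 := 536870912) (P2 := 0) (W2 := 536870912) (P3 := 923417968) (W3 := 42949674)
    rfl (fun _ => rfl) k0_A00pm_202_s3

theorem s_A00pm_202_s3 {κ x : ℝ} (hκ : κ * h0 = ken x) (hx : ((923417968 : ℕ) : ℝ) / S ≤ x)
    (hx' : x ≤ (((923417968 : ℕ) : ℝ) + (42949674 : ℕ)) / S)
    (H : CutA (VFD κ) PP tK tL pcB (Cut.of [[⟨0, 1, 0, 67108864⟩, ⟨1, 0, 0, 67108864⟩, ⟨2, 1, 0, 67108864⟩]]) 2 0 2 0 0 (sgb true) (sgb false) x) :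
    AltA (VFD κ) PP tK tL pcB [⟨4, 0, 0, 2845415833⟩] 2 0 2 0 0 (sgb true) (sgb false) x :=
  strip_altAD (m := 2845415833) false rfl hκ (SH.κ0 hκ (SH.hx1 hx).le (SH.hx2 hx').le) (SH.hx1 hx).le (SH.hx2 hx') (covB02).cov (covB00).cov hx hx' c_A00pm_202_s3 H (noExt_A)

noncomputable def cut_A00pm_203_s1 : Cut := Cut.of [[⟨4, 0, 0, 1449551462⟩]]

noncomputable def f_A00pm_203_s1 : ℕ → ℕ → ℕ → ℕ → Bool := onCell 0 536870912 1610612736 536870912 923417968 42949674
    (rowF 1 true true false .up 2 0 3 (qsf 0 536870912 0 536870912 3) ndB0q2 ndB0q0 pcB3 cut_A00pm_203_s1 Ext.none)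

def k0_A00pm_203_s1 : ∃ t, chk3 f_A00pm_203_s1 t 1 1 1 = true :=
  ⟨(l 6), by decide +kernel⟩

theorem c_A00pm_203_s1 : CertF 0 536870912 0 536870912 923417968 42949674 true true false .up 2 0 3
    ndB0q2 ndB0q0 pcB3 cut_A00pm_203_s1 Ext.none :=
  certF1 (fam := true) (s1 := true) (s2 := false) (a := 2) (b := 0) (c := 3) (cn := .up) (n1 := ndB0q2) (n2 := ndB0q0) (pc := pcB3) (cut := cut_A00pm_203_s1) (xt := Ext.none) (P1 := 0) (W1 := 536870912) (P2 := 0) (W2 := 536870912) (P3 := 923417968) (W3 := 42949674)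
    rfl (fun _ => rfl) k0_A00pm_203_s1

theorem s_A00pm_203_s1 {κ x : ℝ} (hκ : κ * h0 = ken x) (hx : ((923417968 : ℕ) : ℝ) / S ≤ x)
    (hx' : x ≤ (((923417968 : ℕ) : ℝ) + (42949674 : ℕ)) / S) :
    AltA (VFD κ) PP tK tL pcB [⟨3, 0, 0, 1449551462⟩] 2 0 3 0 0 (sgb true) (sgb false) x :=
  strip_altAD (m := 1449551462) true rfl hκ (SH.κ0 hκ (SH.hx1 hx).le (SH.hx2 hx').le) (SH.hx1 hx).le (SH.hx2 hx') (covB02).cov (covB00).cov hx hx' c_A00pm_203_s1 cutA_nil (noExt_A)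

noncomputable def cut_A00pm_203_s3 : Cut := Cut.of [[⟨3, 0, 0, 2845415833⟩]]

noncomputable def xt_A00pm_203_s3 : Ext := strExt dd true true false .u2 .u0m .s2m .up 2 0 3 rfl rfl gl3 vv ndB0q2 ndB0q0

noncomputable def f_A00pm_203_s3 : ℕ → ℕ → ℕ → ℕ → Bool := onCell 0 536870912 0 536870912 923417968 42949674
    (rowF 0 true true false .up 2 0 3 (qsf 0 536870912 0 536870912 3) ndB0q2 ndB0q0 pcB3 cut_A00pm_203_s3 xt_A00pm_203_s3)

def k0_A00pm_203_s3 : ∃ t, chk3 f_A00pm_203_s3 t 1 1 1 = true :=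
  ⟨(a (b (l 1) (b (a (a (b (l 1) (a (a (a (b (l 1) (l 6)) (l 6)) (l 6)) (l 6))) (l 6)) (l 6)) (a (b (a (b (a (b (c (l 16605752) (l 16324432)) (c (l 16624912) (l 16396408))) (l 6)) (c (b (a (l 16643704) (l 16624096)) (l 533668623)) (b (a (l 532542735) (l 16345344)) (a (l 532727311) (l 16459240))))) (l 6)) (c (a (b (b (l 534308623) (l 534660111)) (b (l 534720015) (l 534752015))) (b (a (b (l 16640264) (l 16654680)) (l 6)) (a (l 533472015) (b (l 16648552) (l 16658688))))) (b (a (b (a (l 532901391) (l 16486928)) (a (l 533062671) (l 16512440))) (a (b (l 16450328) (l 16477136)) (l 6))) (a (b (l 531888655) (l 532549391)) (a (b (l 16501704) (l 16524104)) (b (l 16466112) (l 16489480))))))) (b (l 6) (l 6))))) (l 6)), by decide +kernel⟩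

theorem c_A00pm_203_s3 : CertF 0 536870912 0 536870912 923417968 42949674 true true false .up 2 0 3
    ndB0q2 ndB0q0 pcB3 cut_A00pm_203_s3 xt_A00pm_203_s3 :=
  certF0 (fam := true) (s1 := true) (s2 := false) (a := 2) (b := 0) (c := 3) (cn := .up) (n1 := ndB0q2) (n2 := ndB0q0) (pc := pcB3) (cut := cut_A00pm_203_s3) (xt := xt_A00pm_203_s3) (P1 := 0) (W1 := 536870912) (P2 := 0) (W2 := 536870912) (P3 := 923417968) (W3 := 42949674)
    rfl k0_A00pm_203_s3

theorem s_A00pm_203_s3 {κ x : ℝ} (hκ : κ * h0 = ken x) (hx : ((923417968 : ℕ) : ℝ) / S ≤ x)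
    (hx' : x ≤ (((923417968 : ℕ) : ℝ) + (42949674 : ℕ)) / S) :
    AltA (VFD κ) PP tK tL pcB [⟨4, 0, 0, 2845415833⟩] 2 0 3 0 0 (sgb true) (sgb false) x :=
  strip_altAD (m := 2845415833) false rfl hκ (SH.κ0 hκ (SH.hx1 hx).le (SH.hx2 hx').le) (SH.hx1 hx).le (SH.hx2 hx') (covB02).cov (covB00).cov hx hx' c_A00pm_203_s3 cutA_nil ((okx hx hx').extA (T := tt) (sideB hx hx') hκ rfl rfl (.O 2 true) (.O 0 false) (Or.inr rfl))

noncomputable def cut_A00pm_213_s1 : Cut := Cut.of [[⟨4, 0, 0, 1449551462⟩], [⟨0, 1, 0, 67108864⟩, ⟨1, 1, 0, 67108864⟩, ⟨2, 2, 0, 16252928⟩], [⟨0, 1, 0, 8388608⟩, ⟨1, 0, 1, 20971520⟩, ⟨2, 1, 1, 20971520⟩]]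

noncomputable def f_A00pm_213_s1 : ℕ → ℕ → ℕ → ℕ → Bool := onCell 0 536870912 536870912 536870912 923417968 42949674
    (rowF 0 true true false .pnn 2 1 3 (qsf 0 536870912 536870912 536870912 3) ndB0q2 ndB0q1 pcB3 cut_A00pm_213_s1 Ext.none)

def k0_A00pm_213_s1 : ∃ t, chk3 f_A00pm_213_s1 t 1 1 1 = true :=
  ⟨(l 6), by decide +kernel⟩

theorem c_A00pm_213_s1 : CertF 0 536870912 536870912 536870912 923417968 42949674 true true false .pnn 2 1 3
    ndB0q2 ndB0q1 pcB3 cut_A00pm_213_s1 Ext.none :=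
  certF0 (fam := true) (s1 := true) (s2 := false) (a := 2) (b := 1) (c := 3) (cn := .pnn) (n1 := ndB0q2) (n2 := ndB0q1) (pc := pcB3) (cut := cut_A00pm_213_s1) (xt := Ext.none) (P1 := 0) (W1 := 536870912) (P2 := 536870912) (W2 := 536870912) (P3 := 923417968) (W3 := 42949674)
    rfl k0_A00pm_213_s1

theorem s_A00pm_213_s1 {κ x : ℝ} (hκ : κ * h0 = ken x) (hx : ((923417968 : ℕ) : ℝ) / S ≤ x)
    (hx' : x ≤ (((923417968 : ℕ) : ℝ) + (42949674 : ℕ)) / S)
    (H : CutA (VFD κ) PP tK tL pcB (Cut.of [[⟨0, 1, 0, 67108864⟩, ⟨1, 1, 0, 67108864⟩, ⟨2, 2, 0, 16252928⟩], [⟨0, 1, 0, 8388608⟩, ⟨1, 0, 1, 20971520⟩, ⟨2, 1, 1, 20971520⟩]]) 2 1 3 0 0 (sgb true) (sgb false) x) :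
    AltA (VFD κ) PP tK tL pcB [⟨3, 0, 0, 1449551462⟩] 2 1 3 0 0 (sgb true) (sgb false) x :=
  strip_altAD (m := 1449551462) true rfl hκ (SH.κ0 hκ (SH.hx1 hx).le (SH.hx2 hx').le) (SH.hx1 hx).le (SH.hx2 hx') (covB02).cov (covB01).cov hx hx' c_A00pm_213_s1 H (noExt_A)

end Pool.Agent.Strip051.G.I8600_9000.Tab.St.C
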