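import Pool.Agent.Strip051.G.I8600_9000.StH
import Pool.Agent.Strip051.G.I8600_9000.StF

/-! # Unit strips 11 (generated) -/

set_option linter.all false
set_option maxRecDepth 100000

namespace Pool.Agent.Strip051.G.I8600_9000.Tab.St.C

open Pool.Agent.Strip051.PB Pool.Agent.Strip051.PB.T Pool.Agent.StripNear Pool.Agent.Strip051.LC
open Pool.Agent.Strip051.G.I8600_9000.Tab Pool.Agent.Strip051.G.I8600_9000.Tab.St

noncomputable def cut_A00pm_213_s3 : Cut := Cut.of [[⟨3, 0, 0, 2845415833⟩], [⟨0, 1, 0, 67108864⟩, ⟨1, 1, 0, 67108864⟩, ⟨2, 2, 0, 16252928⟩], [⟨0, 1, 0, 8388608⟩, ⟨1, 0, 1, 20971520⟩, ⟨2, 1, 1, 20971520⟩]]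

noncomputable def xt_A00pm_213_s3 : Ext := strExt dd true true false .u2 .u0m .s2m .pnn 2 1 3 rfl rfl gl3 vv ndB0q2 ndB0q1

noncomputable def f_A00pm_213_s3 : ℕ → ℕ → ℕ → ℕ → Bool := onCell 0 536870912 1610612736 536870912 923417968 42949674
    (rowF 1 true true false .pnn 2 1 3 (qsf 0 536870912 536870912 536870912 3) ndB0q2 ndB0q1 pcB3 cut_A00pm_213_s3 xt_A00pm_213_s3)

def k0_A00pm_213_s3 : ∃ t, chk3 f_A00pm_213_s3 t 2 2 1 = true :=
  ⟨(b (a (l 1) (l 6)) (a (b (a (a (b (b (l 1) (l 533058063)) (c (l 534718223) (l 533501455))) (b (b (l 1) (l 532576015)) (c (l 534760207) (l 533001743)))) (b (b (l 1) (c (l 16567536) (a (l 16531048) (l 16501440)))) (c (a (l 534495759) (a (l 16593760) (l 16582432))) (b (a (l 16551344) (l 16606296)) (a (l 16570640) (l 16626296)))))) (a (b (c (a (l 534602767) (l 534605071)) (a (l 533699599) (l 533732623))) (b (a (l 534381327) (l 534412559)) (a (l 534394895) (l 534416143)))) (b (b (a (l 532771599) (a (l 533848079) (l 16542000))) (a (l 533069583) (c (l 16688376) (l 16579528))))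 (a (b (l 533083151) (l 533072911)) (b (c (l 16696512) (l 16596680)) (c (l 16663656) (l 533928463))))))) (b (a (b (a (b (l 6) (c (l 16642000) (l 16471336))) (l 6)) (c (b (l 16547584) (l 16551464)) (b (a (l 16576560) (l 6)) (a (l 16597024) (l 16566544))))) (l 6)) (b (b (a (a (c (l 16655152) (l 16616488)) (c (l 16625296) (l 16586200))) (l 6)) (a (a (c (l 16661568) (l 16634992)) (c (l 16630912) (l 16604856))) (a (c (l 16599104) (l 16574440)) (l 6)))) (a (c (a (b (l 16669016) (l 16677520)) (b (l 16637672) (l 16645600))) (a (b (l 16652520) (l 16669048)) (b (l 16622464) (l 16638928)))) (c (b (a (l 16605192) (l 16572200)) (a (l 16612568) (l 16579072))) (a (b (l 16592016) (l 16608272)) (b (l 16561624) (l 16577560))))))))), by decide +kernel⟩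

def k1_A00pm_213_s3 : ∃ t, chk3 f_A00pm_213_s3 t 4 3 1 = true :=
  ⟨(b (a (b (b (b (a (l 534382607) (l 534387983)) (l 532974095)) (b (l 533415183) (l 4))) (l 4)) (b (b (a (b (c (l 534266127) (l 534041615)) (a (l 534273551) (l 534239759))) (b (c (l 534143503) (l 533982223)) (c (l 534029071) (l 534008079)))) (a (b (a (l 534165007) (l 533846287)) (c (l 533987599) (l 534043151))) (b (a (l 534023439) (l 533897999)) (b (l 533828367) (l 533724943))))) (b (a (b (a (l 4) (l 533786383)) (l 4)) (b (c (l 533584399) (l 533552655)) (l 533081615))) (a (l 4) (l 4))))) (l 4)), by decide +kernel⟩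

def k2_A00pm_213_s3 : ∃ t, chk3 f_A00pm_213_s3 t 5 6 1 = true :=
  ⟨(b (a (a (b (b (c (l 16687104) (l 16600600)) (c (l 16687320) (l 16656680))) (b (c (l 533643791) (l 533704975)) (c (l 533472015) (l 533464079)))) (b (b (c (l 16654728) (l 16654040)) (c (l 16665120) (l 16667296))) (b (c (l 16676808) (l 16677704)) (a (l 533222415) (l 533089295))))) (c (a (b (b (l 16621296) (l 16631432)) (b (l 16643064) (l 16656560))) (b (b (l 16587440) (l 16597376)) (b (l 16609176) (l 16623080)))) (b (b (a (l 16622792) (l 16591256)) (a (l 16634640) (l 16601040))) (a (b (l 16643272) (l 16653864)) (b (l 16608408) (l 16618576)))))) (a (b (a (b (c (l 533295631) (l 533209103)) (c (l 533129231) (l 532943119))) (b (a (l 532992015) (l 532864015)) (a (b (l 532823823) (l 532715023)) (l 532653071)))) (a (b (b (l 532862479) (l 532758543)) (b (l 532658191) (l 4))) (b (a (b (l 532610575) (a (l 532544271) (l 532481807))) (b (l 532513295) (l 532434447))) (a (b (a (l 532449551) (l 532395791)) (a (b (l 532381455) (l 532353807)) (l 532369167)))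 (b (l 532380431) (l 532362511)))))) (b (a (b (c (l 16672264) (l 16667384)) (a (c (l 16740160) (l 16692616)) (c (l 16682344) (l 16675232)))) (b (c (l 16639488) (l 16632032)) (c (l 16658448) (l 16648768)))) (a (b (a (b (l 532456975) (l 532395791)) (b (l 16693264) (l 532361231))) (a (b (l 532359439) (l 532344847)) (b (l 532332303) (l 532317711)))) (b (a (c (l 16687544) (l 16677624)) (c (l 16672168) (l 16659976))) (a (b (l 16699216) (l 532279823)) (b (l 16682936) (l 16694968)))))))), by decide +kernel⟩

def k3_A00pm_213_s3 : ∃ t, chk3 f_A00pm_213_s3 t 10 14 1 = true :=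
  ⟨(b (a (l 4) (b (b (a (l 532373263) (l 532361487)) (a (l 4) (l 532370703))) (l 4))) (l 4)), by decide +kernel⟩

def k4_A00pm_213_s3 : ∃ t, chk3 f_A00pm_213_s3 t 11 28 1 = true :=
  ⟨(a (b (a (b (l 532343055) (l 532351503)) (b (l 532315407) (c (l 532755983) (l 531903759)))) (c (a (b (l 532839439) (c (l 533192975) (l 532668943))) (b (l 532832271) (l 532929807))) (b (a (b (l 531916815) (l 531897871)) (b (l 531873039) (l 531854351))) (a (c (l 532139279) (b (l 531622159) (l 4))) (l 531829519))))) (b (a (b (l 532278031) (c (l 532739599) (l 531849743))) (b (c (l 16713640) (l 16701272)) (c (l 16725736) (l 16714160)))) (a (b (c (l 532821519) (l 531810063)) (c (l 532926991) (l 531779855))) (a (b (l 532286479) (c (l 532925199) (l 531738383))) (b (l 532266511) (c (l 532923919) (l 531709199))))))), by decide +kernel⟩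

def k5_A00pm_213_s3 : ∃ t, chk3 f_A00pm_213_s3 t 11 29 1 = true :=
  ⟨(a (a (l 4) (b (b (c (l 533052431) (b (l 531810319) (l 4))) (l 4)) (l 4))) (b (c (a (b (l 533060367) (a (l 4) (c (l 533588751) (l 532872207)))) (b (a (l 533068815) (l 533075727)) (c (a (b (l 533553423) (l 533674255)) (b (l 533576207) (l 533703439))) (a (b (l 532840463) (a (l 532918543) (b (l 532900879) (l 532947983)))) (b (l 532846863) (c (l 533128719) (l 532735503))))))) (a (a (b (l 531771407) (l 4)) (b (l 531748367) (b (l 531743503) (b (l 531743759) (l 4))))) (b (a (b (l 531727119) (l 531723535)) (b (l 531701519) (c (l 532062991) (l 531333903)))) (c (a (b (l 532102159) (a (l 532139023) (b (l 532122639) (c (l 532352015) (l 531944975))))) (b (l 532091663) (b (l 532117519) (c (l 532352015) (l 531938319))))) (a (b (a (l 531346191) (l 531332111)) (a (b (l 531328015) (c (l 531540495) (l 531123215))) (b (a (l 531318287) (l 531311887)) (c (a (l 531533071) (l 531528207)) (a (b (l 531107087) (l 531117327)) (l 531105039)))))) (b (a (l 531318287)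 (l 531304719)) (b (a (l 531302671) (l 531290895)) (a (c (l 531521551) (l 531094799)) (l 531298575))))))))) (c (b (a (l 4) (b (b (a (c (l 533776911) (c (l 533196815) (l 532800271))) (l 533416975)) (a (l 4) (l 533485839))) (a (l 4) (c (l 534010639) (l 533174287))))) (l 4)) (a (l 4) (b (c (a (a (l 4) (a (l 4) (b (l 532211215) (l 4)))) (b (l 532210959) (a (l 4) (l 532309007)))) (a (b (a (l 4) (a (l 4) (c (l 531574287) (l 531140623)))) (l 4)) (b (a (l 531351055) (l 531341583)) (a (l 4) (b (l 531390223) (l 4)))))) (l 4)))))), by decide +kernel⟩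

def k6_A00pm_213_s3 : ∃ t, chk3 f_A00pm_213_s3 t 5 15 1 = true :=
  ⟨(l 4), by decide +kernel⟩

def k7_A00pm_213_s3 : ∃ t, chk3 f_A00pm_213_s3 t 3 2 1 = true :=
  ⟨(b (l 6) (a (b (l 6) (l 6)) (l 6))), by decide +kernel⟩

def k8_A00pm_213_s3 : ∃ t, chk3 f_A00pm_213_s3 t 6 6 1 = true :=
  ⟨(b (a (b (b (a (c (l 16551632) (l 16557888)) (l 6)) (a (c (l 16561560) (l 16564840)) (a (c (l 16532536) (l 16535192)) (l 6)))) (a (c (b (l 16573616) (l 16588224)) (b (l 16571416) (l 16581384))) (b (c (a (l 16545144) (l 16524056)) (a (l 16541504) (l 16518824))) (c (a (l 16560400) (l 16540184)) (a (l 16551296) (l 16529104)))))) (b (l 6) (a (c (b (l 16487864) (l 16589568)) (b (l 16476816) (a (l 16503408) (l 16473848)))) (b (l 6) (c (l 16453752) (l 16424072)))))) (a (a (b (b (c (l 16605584) (l 16594888)) (c (l 16625872) (l 16612112))) (b (c (l 16648584) (l 16632496)) (c (l 16715152) (a (l 16664920) (l 16646536))))) (b (c (b (l 16569208) (l 16590992)) (b (a (l 16564952) (l 16543200)) (l 16613824))) (b (c (l 16615640) (l 16593112))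 (c (l 16642432) (l 16617408))))) (b (c (b (a (a (l 16538336) (l 16515304)) (l 16477928)) (a (a (l 16562032) (l 16624544)) (b (l 16498776) (l 16513832)))) (b (a (a (l 16602536) (l 16490384)) (l 16442472)) (a (a (l 16579440) (l 16594696)) (b (l 16459168) (l 16471576))))) (a (b (a (c (l 16588568) (l 16559760)) (b (c (l 16561664) (l 16528472)) (a (l 16563688) (l 16636224)))) (b (a (l 16593832) (c (l 16592448) (l 16555256))) (c (l 16617352) (l 16581544)))) (b (b (c (l 16529888) (l 16485032)) (a (l 16618384) (l 16594048))) (b (a (c (l 16574192) (l 16529464)) (c (l 16556296) (l 16502024))) (a (a (c (l 16596464) (l 16552272)) (l 16647072)) (c (l 16576552) (l 16520216))))))))), by decide +kernel⟩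

def k9_A00pm_213_s3 : ∃ t, chk3 f_A00pm_213_s3 t 12 28 1 = true :=
  ⟨(a (b (a (b (l 16691400) (c (l 16712120) (l 16696824))) (b (l 16675280) (l 16688784))) (a (b (c (l 16724712) (l 16710392)) (c (b (l 16734040) (l 16740152)) (b (l 16720800) (l 16748816)))) (c (b (l 16711920) (l 16725128)) (b (l 16693224) (l 16728600))))) (b (b (l 16650352) (l 16706904)) (a (b (l 16687584) (b (l 16698608) (l 16705992))) (b (l 16672464) (l 16688280))))), by decide +kernel⟩

def k10_A00pm_213_s3 : ∃ t, chk3 f_A00pm_213_s3 t 24 29 1 = true :=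
  ⟨(b (c (a (b (c (l 533434383) (b (l 16743392) (l 532777231))) (a (b (l 533231631) (c (l 533735439) (l 532947471))) (b (l 533251855) (l 533373455)))) (b (b (l 16734816) (l 16741112)) (b (c (l 16750528) (l 16743880)) (a (l 533406223) (l 533444623))))) (a (b (a (b (l 16739048) (b (l 16744360) (l 16747912))) (b (l 16730872) (l 531657231))) (b (a (c (l 532082703) (l 531284751)) (c (l 16747784) (l 531258383))) (a (c (l 532127759) (b (l 531273231) (l 531282447))) (c (l 532126223) (l 531255823))))) (b (b (l 16718632) (a (l 16730048) (l 16722080))) (b (a (l 531654159) (l 16729592)) (a (b (l 16742928) (l 531698703)) (l 531677711)))))) (b (a (c (b (a (l 533481743) (l 533517839)) (a (c (l 534060047) (l 533202959)) (l 533680911))) (b (a (c (l 532212495) (a (l 531332367) (l 531323407))) (c (l 532216847) (l 531310351))) (a (c (l 532314895) (b (l 531378959) (l 531416335))) (c (l 532325903) (l 531384847))))) (c (b (a (l 533560079) (l 533608975)) (a (l 533733391) (l 533794063))) (b (a (l 531763727) (l 531763215)) (a (c (l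 532341519) (l 531375119)) (l 531869199))))) (a (c (b (a (c (l 534250511) (l 533355535)) (c (l 534318607) (l 533399311))) (a (l 4) (c (l 534542863) (b (l 533533711) (l 4))))) (b (a (a (l 4) (b (c (l 532404495) (l 531454479)) (l 4))) (c (l 532449807) (b (l 531448591) (l 531495183)))) (a (l 4) (a (l 4) (b (c (l 532560655) (l 531545359)) (l 4)))))) (c (b (a (l 533926927) (l 534000911)) (a (c (l 534634767) (l 533644047)) (c (l 534738959) (l 533717519)))) (a (b (c (l 532473871) (l 531468303)) (c (b (l 532584975) (l 532664847)) (a (l 531305743) (l 531577871)))) (b (c (l 532504591) (l 531469327)) (c (l 532665871) (a (l 531582735) (l 531589135))))))))), by decide +kernel⟩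

def k11_A00pm_213_s3 : ∃ t, chk3 f_A00pm_213_s3 t 25 29 1 = true :=
  ⟨(b (a (b (c (l 16727504) (b (l 16702456) (l 16710216))) (c (b (l 16737592) (a (l 16746256) (l 16741976))) (b (l 16718016) (b (l 16723864) (l 16727864))))) (b (b (l 16700224) (l 16708168)) (b (l 16716056) (c (l 16736088) (l 16711224))))) (a (b (a (c (b (l 16752352) (l 533863951)) (b (l 16737624) (b (l 16743560) (l 16747456)))) (c (b (l 16748408) (l 16754496)) (b (l 16730456) (l 16738624)))) (a (c (b (b (l 16762152) (l 534145039)) (a (l 534306831) (l 534360847))) (a (b (l 532006671) (l 532153871)) (b (l 532019215) (c (l 532730639) (l 531606799))))) (c (b (l 534179599) (a (l 534416911) (l 534476047))) (b (b (l 16744600) (l 16748512)) (c (l 532772879) (l 531619599)))))) (b (c (b (l 16743088) (l 16749752)) (a (b (l 16723416) (l 16731888)) (l 16720992))) (a (c (b (l 16757256) (l 534571535)) (b (l 16740144) (b (l 16746152) (l 16750056)))) (b (b (l 16742728) (l 16746384)) (c (l 16760776) (l 16742312))))))), by decide +kernel⟩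

def k12_A00pm_213_s3 : ∃ t, chk3 f_A00pm_213_s3 t 24 60 1 = true :=
  ⟨(b (a (l 4) (b (c (a (a (l 4) (b (l 534345743) (c (l 535002127) (l 533941519)))) (b (c (l 534949391) (l 533889551)) (c (l 535099407) (l 534012687)))) (a (a (l 4) (b (c (l 532761615) (l 531670799)) (a (l 4) (c (l 532860431) (l 531472655))))) (c (b (l 532801039) (a (l 532882447) (l 532914191))) (b (a (l 531679503) (l 531689999)) (a (b (l 531731983) (l 531768079)) (l 531763215)))))) (a (l 4) (a (a (l 4) (b (c (c (l 535239183) (l 534129423)) (c (l 532992271) (b (l 531809551) (l 4)))) (l 4))) (c (b (c (l 535294735) (l 534170639)) (b (c (l 535421455) (l 534275343)) (l 4))) (c (b (l 533019407) (b (c (l 533398287) (l 532805135)) (l 4))) (a (b (b (l 531817487) (l 531857423)) (l 4)) (b (l 531846159) (b (l 531909135) (l 4)))))))))) (l 4)), by decide +kernel⟩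

def k13_A00pm_213_s3 : ∃ t, chk3 f_A00pm_213_s3 t 50 120 2 = true :=
  ⟨(a (a (b (b (l 534508303) (l 534652175)) (b (c (l 535372559) (l 534229263)) (c (b (l 535503887) (c (l 535790095) (l 535301647))) (a (l 534492943) (l 534391823))))) (b (c (b (l 535118351) (l 535282191)) (b (l 534013455) (l 534148367))) (c (b (a (l 535434255) (l 535476239)) (a (b (c (l 535780111) (l 535276047)) (c (b (a (l 535782671) (l 535774991)) (a (c (l 535765263) (l 535800847)) (l 535771919))) (a (b (l 535332111) (l 535377167)) (l 535376143)))) (b (l 535613711) (b (l 535684367) (l 535732495))))) (b (a (l 534275599) (l 534307087)) (a (b (c (l 534685199) (l 534087439)) (c (a (l 534757135) (l 534775823)) (a (l 534152719) (l 534168591)))) (b (l 534420751) (b (l 534479119) (l 534518543)))))))) (b (a (c (l 535275791) (l 534136335)) (b (l 16768112) (l 534861839))) (b (a (c (l 535541519) (l 534355471)) (l 535300623)) (a (b (c (l 535682831) (l 534472207)) (c (l 535771151) (l 534552591))) (b (l 535166479) (l 535259151)))))), by decide +kernel⟩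

def k14_A00pm_213_s3 : ∃ t, chk3 f_A00pm_213_s3 t 50 120 3 = true :=
  ⟨(a (a (b (c (l 532896527) (l 531739663)) (b (c (l 533058063) (l 531860495)) (c (c (l 533476879) (l 532870159)) (b (l 531925519) (c (l 532281359) (l 531658255)))))) (b (c (b (l 532879119) (l 532985871)) (b (l 531716367) (l 531795727))) (c (b (a (l 533089295) (l 533109775)) (a (b (c (l 533482767) (l 532871439)) (c (a (l 533541903) (l 533554703)) (a (l 532924431) (l 532934415)))) (b (l 533200143) (b (l 533246479) (l 533277711))))) (b (a (b (l 531854351) (l 531897871)) (l 531885583)) (a (b (c (l 532253711) (l 531629583)) (c (a (l 532300559) (l 532307727)) (a (b (l 531659791) (l 531681295)) (l 531674639)))) (b (l 531953167) (b (l 531987983) (l 532011279)))))))) (b (a (c (l 532967183) (l 531769615)) (b (l 532348943) (l 532449295))) (b (a (c (l 533141007) (l 531899663)) (c (l 533185551) (l 531919887))) (a (b (c (l 533233935) (l 531968783)) (c (l 533297423) (l 532016399))) (b (l 532640271) (l 532698383)))))), by decide +kernel⟩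

def k15_A00pm_213_s3 : ∃ t, chk3 f_A00pm_213_s3 t 51 120 1 = true :=
  ⟨(b (a (c (b (l 534810383) (l 534981391)) (b (l 532390159) (a (l 532480271) (l 16756176)))) (c (b (l 16764800) (l 16767256)) (b (l 16748320) (l 532573967)))) (a (c (b (a (l 535117583) (l 535208975)) (a (l 535305743) (l 535405839))) (b (a (l 532591887) (l 532631567)) (a (l 532710159) (l 532755727)))) (c (b (l 535359247) (l 535569423)) (b (l 532699663) (l 532833551))))), by decide +kernel⟩

def k16_A00pm_213_s3 : ∃ t, chk3 f_A00pm_213_s3 t 50 121 1 = true :=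
  ⟨(a (b (c (a (l 4) (b (b (a (b (a (c (c (a (c (l 535767055) (l 535802383)) (l 535780111)) (a (l 535417103) (l 535427855))) (c (l 534819087) (l 534208527))) (b (l 535130895) (l 535152655))) (a (l 4) (l 535185679))) (b (l 535173135) (l 535217679))) (a (l 4) (l 535286031))) (l 4))) (a (l 4) (b (c (a (b (a (b (c (l 533591823) (l 532968463)) (l 4)) (b (l 533291535) (l 533322767))) (l 4)) (b (b (l 533309199) (l 533340943)) (l 533389327))) (a (b (c (a (b (l 532338703) (l 4)) (l 532357135)) (a (b (b (l 531697679) (l 531707151)) (l 4)) (l 531716111))) (l 4)) (b (b (l 532034319) (l 532057615)) (l 532093455)))) (l 4)))) (l 4)) (b (a (c (b (b (l 535261199) (l 535354895)) (b (a (l 535427087) (l 535476239)) (a (l 4) (l 535577103)))) (b (b (l 532716559) (l 533043215)) (a (b (l 533360655) (l 4)) (c (l 533549071) (l 532199951))))) (b (c (l 535403023) (l 533593103)) (c (b (l 535553551) (l 535389199)) (c (l 534267663) (l 532226575))))) (b (a (l 4) (c (b (c (l 535746831) (l 535086607)) (a (l 4) (c (l 535741455) (l 535213327))))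 (b (c (l 534248719) (l 532313359)) (a (l 4) (c (l 533810959) (l 532385295)))))) (l 4)))), by decide +kernel⟩

def k17_A00pm_213_s3 : ∃ t, chk3 f_A00pm_213_s3 t 51 121 1 = true :=
  ⟨(b (c (a (b (a (l 535504911) (l 535614223)) (a (l 535447823) (l 535744527))) (b (l 535688719) (a (l 535708431) (l 535671823)))) (a (b (a (l 532835087) (l 532887311)) (a (b (l 532934671) (l 533003535)) (l 533028111))) (b (l 532975887) (a (l 533093391) (l 533164815))))) (a (b (a (c (b (l 535782671) (a (l 535794191) (l 535776271))) (b (l 533880335) (a (l 533132559) (l 533165583)))) (c (b (l 535747087) (l 535749391)) (b (l 533140239) (l 533218063)))) (a (c (b (a (c (l 535727375) (l 535374607)) (l 535779087)) (a (l 4) (c (l 535713551) (l 535546383)))) (b (a (c (l 533935887) (l 532474383)) (l 534048271)) (a (l 4) (c (l 534069775) (l 532570895))))) (c (b (l 535483663) (a (l 535764495) (l 535746063))) (b (a (l 533279759) (l 533317903)) (a (l 534435599) (l 533402383)))))) (b (a (c (l 535712015) (l 533252111)) (c (l 535674895) (l 533332239)))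 (a (c (b (l 535715343) (l 535718415)) (b (l 533378575) (l 533466383))) (c (l 535680015) (l 533511439)))))), by decide +kernel⟩

def k18_A00pm_213_s3 : ∃ t, chk3 f_A00pm_213_s3 t 12 61 1 = true :=
  ⟨(a (l 4) (a (l 4) (b (b (a (b (a (l 4) (c (b (a (c (l 535699983) (l 535729167)) (c (l 535681295) (l 535797775))) (a (l 4) (b (l 535618575) (l 4)))) (b (a (c (l 534213135) (l 532675087)) (c (l 534264591) (l 532709135))) (a (l 4) (c (l 534366479) (l 532787727)))))) (l 4)) (b (a (c (b (a (l 535731215) (l 535712783)) (a (c (l 535667727) (l 535805711)) (l 535716623))) (a (c (l 534638095) (l 532784911)) (b (l 533580559) (l 533675791)))) (c (b (l 535684367) (l 535419919)) (b (l 533654031) (l 534021391)))) (a (b (c (a (c (b (l 535671823) (l 4)) (l 535809295)) (c (l 535654415) (l 535790607))) (a (c (l 534530575) (l 532909327)) (c (l 534591503) (l 532951311)))) (a (l 4) (a (l 4) (b (c (l 535720207) (l 533863695)) (l 4))))) (c (b (a (l 535702287) (l 535683087)) (a (c (l 535641103) (l 535776015)) (l 535419663))) (b (a (l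 533827855) (l 533883663)) (a (c (l 534772495) (l 533086991)) (l 533990927))))))) (a (l 4) (b (a (l 4) (b (a (l 4) (c (c (l 535628303) (l 535761423)) (c (l 534965775) (l 533233167)))) (l 4))) (l 4)))) (l 4)))), by decide +kernel⟩

def k19_A00pm_213_s3 : ∃ t, chk3 f_A00pm_213_s3 t 12 31 1 = true :=
  ⟨(l 4), by decide +kernel⟩

def k20_A00pm_213_s3 : ∃ t, chk3 f_A00pm_213_s3 t 13 28 1 = true :=
  ⟨(b (b (c (a (l 16633960) (a (a (l 16615104) (l 16607808)) (l 16597920))) (a (l 16596896) (a (a (l 16569368) (l 16557752)) (l 16539840)))) (a (a (l 16640368) (l 16623488)) (a (a (l 16610768) (c (b (l 16623096) (l 16633624)) (a (l 16579720) (l 16574392)))) (c (b (l 16614632) (l 16626088)) (b (l 16555504) (l 16566392)))))) (b (c (a (l 16668848) (a (l 16652344) (a (b (l 16639616) (a (l 16652152) (l 16650328))) (l 16642280)))) (a (l 16630368) (a (l 16602176) (a (b (l 16582520) (a (l 16595976) (l 16591472))) (l 16578800))))) (b (a (l 16663056) (a (l 16685096) (a (c (l 16663160) (l 16647144)) (c (l 16661040) (l 16597120)))))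 (a (l 16672224) (a (l 16696024) (c (a (l 16675256) (a (b (l 16670720) (l 16677136)) (l 16673824))) (a (l 16617000) (a (b (l 16608392) (l 16614680)) (l 16608032))))))))), by decide +kernel⟩

def k21_A00pm_213_s3 : ∃ t, chk3 f_A00pm_213_s3 t 13 29 1 = true :=
  ⟨(a (b (a (b (l 16691912) (b (l 16705008) (l 16713680))) (b (l 16680576) (b (l 16695304) (l 16705096)))) (a (b (b (l 16722368) (a (l 16732808) (l 16729032))) (a (b (l 16740752) (b (l 16746448) (l 16750104))) (b (l 16737472) (l 16745528)))) (b (a (l 16721208) (l 16718376)) (b (l 16733816) (a (l 16743480) (l 16742296)))))) (b (c (b (a (l 16696000) (a (l 16693808) (c (a (l 16708888) (b (l 16703144) (l 16716696))) (a (l 16678072) (b (l 16670736) (a (l 16684448) (l 16684424))))))) (a (l 16718128) (a (l 16687408) (b (a (l 16713536) (l 16714576)) (a (l 16726944) (l 16728640)))))) (c (b (a (l 16657920) (a (l 16650048) (a (l 16646648) (b (l 16637840) (a (l 16651880) (l 16651072)))))) (a (l 16680480) (a (l 16675224) (b (l 16665960) (l 16679760))))) (b (a (l 16631904)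 (a (l 16620152) (a (l 16614616) (b (l 16604464) (a (l 16618584) (l 16616968)))))) (a (l 16654368) (a (l 16644968) (b (l 16632744) (l 16646392))))))) (a (b (a (l 16716312) (l 16715184)) (a (l 16737144) (l 16737744))) (b (a (b (l 16708920) (l 16721384)) (c (l 16698704) (b (l 16677136) (l 16691128)))) (a (b (l 16733680) (l 16745672)) (c (l 16744824) (l 16712032))))))), by decide +kernel⟩

def k22_A00pm_213_s3 : ∃ t, chk3 f_A00pm_213_s3 t 26 60 1 = true :=
  ⟨(b (b (a (a (c (l 535264015) (l 532602639)) (b (l 16751240) (l 16754864))) (c (l 16751504) (l 16735200))) (a (a (c (b (l 16768984) (l 535615503)) (b (l 16751208) (l 532956687))) (c (l 535542799) (l 533021455))) (a (c (l 16765176) (l 16745736)) (c (l 16762680) (l 16743240))))) (a (b (a (b (a (l 534547983) (l 534657807)) (a (l 534757135) (l 534877711))) (b (c (l 16763704) (l 16765416)) (a (l 535007759) (l 535147535)))) (a (b (a (c (l 535637263) (l 533419791)) (l 535111951)) (a (c (l 535641871) (l 533608719)) (c (l 535603215) (l 533714447)))) (a (c (l 535294479)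 (l 533721615)) (b (l 535407119) (l 535675407))))) (c (a (b (l 535192335) (a (l 535483151) (l 535442191))) (b (l 16754352) (b (l 16766520) (l 16767648)))) (a (b (l 533584911) (a (l 533968911) (l 534108431))) (b (l 16752064) (b (l 16758136) (l 16761864))))))), by decide +kernel⟩

def k23_A00pm_213_s3 : ∃ t, chk3 f_A00pm_213_s3 t 52 122 1 = true :=
  ⟨(a (b (b (a (c (b (l 535646223) (l 535650063)) (l 534079247)) (c (l 535609359) (l 533927951))) (a (c (b (l 535654159) (a (l 535668751) (l 535649295))) (b (l 533971727) (l 534620431))) (c (b (l 535614991) (l 535619599)) (l 535229967)))) (b (a (c (b (a (c (l 535608591) (l 535741967)) (l 535654415)) (a (c (b (l 535613711) (l 535617295)) (l 535747087)) (c (l 535595791) (l 535727631)))) (b (a (l 534166031) (l 534232847)) (a (c (l 535172623) (l 533390607)) (l 534353935)))) (c (b (a (l 535634703) (l 535614735)) (a (l 535640591) (l 535620623))) (b (l 534337807) (l 535269391)))) (b (a (a (l 4) (b (c (c (l 535601423) (l 535731471)) (l 534447375)) (l 4))) (c (a (c (l 535583247)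 (l 535713295)) (l 535626767)) (a (l 534555407) (l 534634767)))) (a (l 4) (c (a (a (l 4) (b (l 535647247) (l 4))) (c (l 535302671) (l 535699215))) (a (c (l 535630095) (l 533742607)) (l 534771471))))))) (b (b (a (c (l 535569935) (l 534054671)) (c (l 535529743) (l 534192143))) (a (c (l 535577615) (l 534295823)) (c (l 535537167) (l 534447119)))) (b (a (c (b (l 535584527) (l 535590159)) (b (l 534488079) (l 534621455))) (c (b (l 535543567) (l 535548943)) (l 534720015))) (a (c (b (a (l 535606543) (l 535586063)) (a (l 535345167) (l 535592975))) (b (l 534759439) (l 535439119))) (c (b (l 535555087) (a (l 535572239) (l 535551247))) (b (l 534937359) (l 535088399))))))), by decide +kernel⟩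

def k24_A00pm_213_s3 : ∃ t, chk3 f_A00pm_213_s3 t 52 123 1 = true :=
  ⟨(a (a (l 4) (a (l 4) (a (l 4) (b (b (b (b (c (l 535634447) (l 534899215)) (l 4)) (l 4)) (l 4)) (l 4))))) (b (c (a (b (b (a (c (l 535290639) (l 535685391)) (c (l 535538447) (l 535664911))) (a (l 4) (c (l 535413519) (l 535672079)))) (l 4)) (b (b (a (l 535579663) (l 535558415)) (c (a (l 535258127) (l 535505423)) (l 535640591))) (b (c (a (c (l 535239183) (l 535566351)) (l 535246863)) (a (l 535659023) (l 535637775))) (a (l 4) (b (a (l 535587599) (l 535576847)) (l 4)))))) (a (b (b (a (l 535003151) (l 535097103)) (a (l 4) (l 535251727))) (l 4)) (b (b (l 535244559) (l 535406095)) (b (a (l 535518223) (l 535628815)) (a (l 4) (l 535804175)))))) (l 4))), by decide +kernel⟩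

def k25_A00pm_213_s3 : ∃ t, chk3 f_A00pm_213_s3 t 53 122 1 = true :=
  ⟨(a (b (b (a (l 535099407) (l 535595023)) (a (c (l 535495695) (l 534610703)) (c (l 535453711) (l 534787343)))) (b (a (c (l 535504911) (l 534899471)) (c (l 535462671) (l 535093263))) (a (c (b (l 535513103) (l 535519503)) (l 535208463)) (c (l 535473935) (l 535420431))))) (b (b (a (l 535553039) (l 535510031)) (a (l 535286543) (l 535511823))) (b (a (c (l 535419407) (l 535302671)) (c (l 535375631) (l 535528975))) (a (c (l 535430159) (l 535649551)) (c (l 535385871) (l 535667215)))))), by decide +kernel⟩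

def k26_A00pm_213_s3 : ∃ t, chk3 f_A00pm_213_s3 t 53 123 1 = true :=
  ⟨(a (b (b (a (c (b (l 535526671) (c (l 535473423) (l 535598095))) (b (l 535454479) (l 535625743))) (c (c (l 535426063) (l 535552015)) (l 535759375))) (a (b (c (a (l 535553807) (l 535532303)) (l 535802639)) (c (c (a (l 535235855) (l 535482639)) (l 535613967)) (l 535812111))) (c (c (a (l 535187471) (l 535165199)) (l 535566607)) (a (l 535777551) (l 535755791))))) (c (a (b (c (b (a (a (l 4) (l 535241999)) (l 535225615)) (a (l 4) (a (l 4) (l 535232271)))) (a (b (l 535633935) (l 4)) (b (l 535612175) (l 535622159)))) (l 4)) (b (b (a (l 535261455) (l 535507727)) (c (a (l 535215631) (l 535461647)) (l 535588879))) (a (l 4) (b (c (l 535206159) (l 535588367)) (l 4))))) (a (b (b (a (l 535828495) (l 535806991)) (a (l 4) (l 535813391))) (l 4)) (b (b (l 535774223) (l 535780367)) (b (a (l 4) (l 535776015)) (l 4)))))) (b (b (a (c (c (l 535382031) (l 535507983)) (l 535715599)) (c (l 535398927) (l 535671055))) (a (c (a (l 535471119) (l 535448591)) (l 535722767))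 (c (c (l 535355407) (l 535477007)) (l 535677455)))) (b (a (c (c (a (l 535299343) (l 535142415)) (a (l 535550735) (l 535527951))) (a (l 535744015) (l 535721231))) (c (b (l 535428367) (l 535170319)) (l 535687183))) (c (a (c (b (a (l 535451919) (l 535429135)) (a (l 535197455) (l 535174415))) (a (l 535571983) (l 535548943))) (a (b (l 535461647) (l 535474191)) (b (l 535438351) (l 535450895)))) (a (a (l 535757839) (l 535735055)) (a (l 535711759) (l 535688207))))))), by decide +kernel⟩

def k27_A00pm_213_s3 : ∃ t, chk3 f_A00pm_213_s3 t 27 60 1 = true :=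
  ⟨(c (a (b (b (l 16756392) (l 16758616)) (a (b (l 16762280) (b (l 16764056) (l 16765248))) (b (l 16759536) (l 16762040)))) (b (l 16730304) (b (l 16755112) (l 16747328)))) (a (b (a (l 16736720) (l 16736032)) (a (b (l 16751272) (l 16759920)) (b (l 16751816) (l 16761256)))) (b (a (l 16736736) (l 16739104)) (b (l 16755760) (l 16761240))))), by decide +kernel⟩

def k28_A00pm_213_s3 : ∃ t, chk3 f_A00pm_213_s3 t 27 61 1 = true :=
  ⟨(a (b (a (b (a (c (l 535322127) (l 535236623)) (c (l 535277583) (l 16767768))) (a (c (b (l 16769464) (l 535340815)) (l 535354895)) (c (b (l 16768328) (l 535294991)) (l 535577615)))) (b (a (c (l 16765232) (l 16767440)) (c (l 16763952) (l 16766328))) (a (b (l 535378959) (l 535115023)) (c (l 535198479) (l 535483407))))) (a (b (b (a (c (l 535353359) (l 535625231)) (c (l 535307023) (l 535578639))) (a (c (l 535368719) (l 535631375)) (c (l 535321871) (l 535584015)))) (b (a (c (c (l 535330319) (l 535447311)) (l 535640335)) (c (c (l 535282959) (l 535399695)) (l 535592719))) (a (c (c (a (l 535097871)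 (l 535074319)) (l 535467279)) (l 535652879)) (c (a (l 535373583) (l 535349519)) (l 535604495))))) (b (a (b (c (l 535259663) (l 16771000)) (c (l 535274255) (l 535535887))) (b (c (l 16768608) (l 16770016)) (c (l 535225615) (l 16771096)))) (b (a (c (l 535291919) (l 535543823)) (c (l 535242511) (l 535493903))) (a (c (c (l 535258383) (l 535369999)) (l 535555087)) (c (c (l 535208975) (l 535320079)) (l 535504399))))))) (b (a (b (c (l 16761968) (l 16764584)) (a (c (l 535150607) (l 16767312)) (c (l 16764080) (l 16766176)))) (b (c (l 16759144) (l 16762064)) (c (b (l 16761336) (l 16762824)) (l 16764384)))) (a (b (a (b (l 534755855) (c (l 16768816) (l 16770104))) (b (l 534973967) (c (l 16767648) (l 16769064)))) (b (a (c (l 535192591) (l 535442703)) (c (l 535141391) (l 16770240))) (a (c (c (l 535158543) (l 535269135)) (l 535452687)) (c (l 535160847) (l 535399951))))) (c (b (b (l 16764312) (c (l 16765448) (l 16766192))) (a (b (l 16767904) (l 535108367)) (b (l 16766696) (l 535054607)))) (b (b (l 16766192) (l 16767416))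 (a (b (l 16769200) (l 16770432)) (b (l 16768104) (l 16769384)))))))), by decide +kernel⟩

def k29_A00pm_213_s3 : ∃ t, chk3 f_A00pm_213_s3 t 26 62 1 = true :=
  ⟨(b (b (b (a (l 4) (a (l 4) (b (a (c (c (a (l 4) (l 535189263)) (l 535444239)) (l 535758863)) (c (c (a (l 535165967) (l 535410959)) (l 535531791)) (l 535712015))) (a (l 4) (a (l 4) (c (a (l 535484687) (l 535472655)) (l 535709455))))))) (l 4)) (l 4)) (l 4)), by decide +kernel⟩

def k30_A00pm_213_s3 : ∃ t, chk3 f_A00pm_213_s3 t 54 124 1 = true :=
  ⟨(b (a (c (b (a (a (b (l 535440399) (l 535454735)) (b (l 535416335) (l 535430671))) (c (a (l 535078671) (l 535054351)) (l 535174159))) (b (a (c (a (l 535151119) (l 535395343)) (l 535511567)) (a (l 535421711) (l 535396879))) (a (l 4) (a (a (l 535175951) (l 535163663)) (l 535144975))))) (a (a (b (l 535681295) (l 535433999)) (b (l 535656975) (l 535677711))) (b (a (l 535632399) (l 535607567)) (c (l 535581967) (l 535701775))))) (b (a (c (c (b (l 535009551) (l 535024399)) (l 535393039)) (l 535570191)) (c (a (l 535300367)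 (l 535275023)) (l 535518991))) (a (c (a (b (l 535372047) (l 535388175)) (b (l 535346703) (l 535362831))) (b (l 535583503) (l 535594511))) (c (b (l 535040271) (c (l 535006991) (l 535375631))) (b (l 535531535) (l 535542287)))))) (a (a (l 4) (a (l 4) (b (c (c (b (l 535114511) (l 4)) (l 535491343)) (l 535653135)) (l 4)))) (a (b (a (c (c (b (l 535357967) (l 535109903)) (l 535465743)) (l 535627535)) (c (c (b (l 535332623) (l 535084303)) (l 535440143)) (l 535601423))) (l 4)) (b (a (c (b (l 535086351) (c (l 535058447) (l 535422223))) (l 535575055)) (c (b (l 535060239) (l 535078927)) (l 535548175))) (c (b (c (a (l 535080207) (l 535054095)) (l 535428367)) (a (l 4) (b (l 535115279) (l 4)))) (b (l 535582735) (c (l 535547407) (l 535653647)))))))), by decide +kernel⟩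

def k31_A00pm_213_s3 : ∃ t, chk3 f_A00pm_213_s3 t 55 124 1 = true :=
  ⟨(b (a (b (a (c (b (l 535229199) (l 535242255)) (l 535466511)) (c (b (l 535176975) (l 535189775)) (l 535413007))) (a (c (b (l 535256591) (c (l 534955279) (l 535323151))) (b (l 535478543) (l 535488783))) (c (b (l 535203855) (l 535218959)) (b (l 535424271) (l 535434255))))) (b (a (c (c (l 534811663) (l 16771024)) (l 535357967)) (c (c (l 16769520) (l 16769952)) (l 535301903))) (a (c (b (l 535149839) (l 535164687)) (l 534837775)) (c (b (l 535094799) (l 535109135)) (l 534915087))))) (a (c (b (a (a (b (l 535033871) (l 535052559)) (b (l 535275791) (l 535025679))) (a (b (l 535248911) (l 534998799)) (b (l 535221775) (l 534971407)))) (a (b (c (a (l 535027727) (l 535000847)) (l 535374863)) (a (b (l 535088399) (l 535099919)) (b (l 535061519) (l 535072783)))) (a (b (l 535018511) (c (l 534996751) (l 535353871))) (b (l 534991119) (c (l 534969359) (l 535325967)))))) (b (a (b (l 535500559) (l 535513615)) (b (l 535445519) (l 535458063))) (a (b (l 535528207)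 (a (l 535558159) (l 535530255))) (b (l 535472143) (a (l 535502095) (l 535473679)))))) (b (a (c (b (c (l 534865935) (l 535229711)) (c (l 534884879) (l 535246095))) (b (l 535388943) (l 535401231))) (c (b (c (l 534810639) (l 16772472)) (c (l 534829071) (l 534920975))) (b (l 535331343) (l 535343119)))) (a (c (b (a (l 534963215) (l 534935311)) (a (c (l 534941711) (l 535297807)) (l 534956047))) (b (l 535415055) (a (l 535444751) (l 535415567)))) (c (b (a (l 534906895) (l 534878223)) (a (l 534927631) (l 534898703))) (b (l 535356431) (a (l 535386127) (l 535356175)))))))), by decide +kernel⟩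

def k32_A00pm_213_s3 : ∃ t, chk3 f_A00pm_213_s3 t 27 125 1 = true :=
  ⟨(a (l 4) (b (a (b (b (b (a (c (c (a (l 4) (l 535310351)) (l 535142927)) (l 535557391)) (c (a (l 535056911) (l 535029263)) (l 535500559))) (a (l 4) (c (c (a (l 535027471) (l 535268367)) (l 535098895)) (l 535510031)))) (a (l 4) (c (a (c (b (l 535040783) (l 4)) (l 535131407)) (c (b (l 535013135) (l 535026959)) (l 535103247))) (a (l 535539727) (l 535510799))))) (l 4)) (b (a (c (b (a (c (l 534965775) (l 535319311)) (c (l 534937615) (l 535290639))) (a (c (b (l 535253519) (l 534998799)) (l 535074575)) (c (b (l 535225103) (l 534970127)) (l 535045647)))) (b (a (l 535462159) (l 535432719)) (a (l 535481359) (l 535451919)))) (c (b (a (c (l 534909199) (l 535261711)) (c (l 534880527) (l 535232271))) (a (b (l 534968079) (l 534980879)) (c (l 534906127) (l 534986767)))) (b (a (l 535403023) (l 535372815)) (a (l 535421711) (l 535391503))))) (c (a (b (a (c (b (l 535012879) (l 4)) (l 535100431)) (c (b (l 534984463) (a (l 535274767) (l 535260175))) (l 535071247)))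 (l 4)) (b (a (a (b (l 535269903) (l 535015439)) (b (l 535255311) (l 535000591))) (b (l 535098895) (a (l 534985999) (l 535239439)))) (a (c (b (a (l 535261199) (l 535246607)) (a (l 4) (l 535262479))) (b (l 535330319) (l 535076367))) (b (a (l 535000335) (l 534985487)) (c (a (l 535247631) (l 535232783)) (l 535314703)))))) (a (b (a (c (l 535187727) (l 535551503)) (l 535204623)) (l 4)) (b (a (l 535442703) (l 535412239)) (a (b (l 535459599) (l 535471887)) (b (l 535428879) (l 535440911)))))))) (a (l 4) (a (l 4) (a (l 4) (a (l 4) (b (b (b (b (c (l 535012111) (l 535442447)) (l 4)) (l 4)) (l 4)) (l 4)))))))), by decide +kernel⟩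

def k33_A00pm_213_s3 : ∃ t, chk3 f_A00pm_213_s3 t 13 63 1 = true :=
  ⟨(l 4), by decide +kernel⟩

def k34_A00pm_213_s3 : ∃ t, chk3 f_A00pm_213_s3 t 7 12 1 = true :=
  ⟨(l 6), by decide +kernel⟩

def k35_A00pm_213_s3 : ∃ t, chk3 f_A00pm_213_s3 t 14 13 1 = true :=
  ⟨(b (b (a (a (a (l 16420632) (l 6)) (l 6)) (l 6)) (a (b (a (l 16434056) (l 16403192)) (c (l 16551184) (l 16405832))) (b (l 6) (a (c (l 16431032) (l 16351552)) (l 6))))) (b (c (a (b (a (l 16497824) (l 16476472)) (a (l 16517904) (l 16499256))) (a (b (l 16455080) (l 16481360)) (b (c (l 16460928) (l 16409432)) (a (l 16469296) (l 16546264))))) (a (b (l 16506032) (a (l 16455504) (l 16424776))) (a (b (l 16371128) (l 16392880)) (b (l 16335872) (l 16444912))))) (a (b (a (c (l 16539416) (l 16474136)) (c (l 16523840) (l 16445792))) (a (c (l 16562368) (l 16494456)) (c (l 16550272) (l 16468840)))) (b (a (c (l 16509928) (l 16416960)) (b (c (l 16490728) (l 16381736)) (c (l 16508352) (l 16396480)))) (a (c (b (l 16532912) (l 16549008)) (l 16443512)) (c (b (l 16610664)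 (l 16629912)) (c (l 16448480) (l 16392112)))))))), by decide +kernel⟩

def k36_A00pm_213_s3 : ∃ t, chk3 f_A00pm_213_s3 t 30 26 1 = true :=
  ⟨(l 6), by decide +kernel⟩

def k37_A00pm_213_s3 : ∃ t, chk3 f_A00pm_213_s3 t 30 54 1 = true :=
  ⟨(b (l 6) (c (b (a (a (l 16447640) (l 6)) (l 6)) (a (a (l 16466000) (c (l 16496616) (l 16429528))) (a (c (a (l 16497720) (l 6)) (l 16425744)) (l 6)))) (a (c (a (l 16367144) (l 16355480)) (l 16301208)) (a (c (b (l 6) (l 16354768)) (l 16277040)) (l 6))))), by decide +kernel⟩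

def k38_A00pm_213_s3 : ∃ t, chk3 f_A00pm_213_s3 t 30 55 2 = true :=
  ⟨(a (b (a (c (l 16527752) (l 16463224)) (c (b (l 16518784) (l 16542072)) (b (l 16449712) (l 16470976)))) (a (b (l 16610592) (c (l 16583632) (l 16514672))) (b (c (l 16566512) (l 16493352)) (c (l 16592208) (l 16516936))))) (b (a (c (b (a (l 16521608) (c (l 16543880) (l 16505176))) (a (l 16546744) (c (l 16570992) (l 16531056)))) (b (l 16531856) (a (l 16471032) (l 16471984)))) (b (c (a (a (b (l 16562240) (a (l 16533400) (l 16534224))) (l 16611960)) (c (l 16550560) (l 16509056))) (c (a (l 16467632) (l 16467944)) (l 16427640))) (c (a (a (b (c (l 16568160) (l 16527288)) (c (l 16582720) (l 16541176))) (c (l 16577656) (l 16535728))) (c (l 16580784) (l 16537848))) (a (c (a (l 16493408) (l 16494232)) (l 16453080)) (l 16474208))))) (a (b (c (a (l 16573216) (c (l 16599584) (l 16558376))) (a (l 16495176) (l 16560336))) (c (a (l 16601104) (c (l 16629760) (l 16587240))) (b (l 16515720) (l 16613080)))) (b (c (a (a (b (c (l 16597656) (l 16555432)) (c (l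 16612984) (l 16570072))) (b (c (l 16600752) (l 16557736)) (c (a (l 16615984) (l 16617448)) (l 16572936)))) (c (b (l 16604672) (l 16621200)) (l 16568440))) (a (c (a (l 16520600) (l 16522328)) (a (l 16478952) (l 16479856))) (c (l 16524432) (l 16480840)))) (a (c (a (c (b (l 16628736) (l 16644936)) (b (l 16585136) (l 16600624))) (b (a (c (a (l 16631744) (l 16632768)) (l 16587920)) (l 16653536)) (a (c (l 16669880) (l 16603840)) (c (l 16651056) (l 16605568))))) (a (c (l 16549336) (l 16506320)) (c (b (l 16544536) (l 16559872)) (b (l 16500960) (l 16515552))))) (c (b (c (l 16638232) (l 16592632)) (c (l 16655792) (l 16609384))) (c (l 16555376) (l 16510264)))))))), by decide +kernel⟩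

def k39_A00pm_213_s3 : ∃ t, chk3 f_A00pm_213_s3 t 30 55 3 = true :=
  ⟨(a (b (c (a (l 16400512) (l 16391920)) (l 16332384)) (b (c (l 16424744) (l 16358224)) (c (l 16529104) (l 16376728)))) (b (a (c (b (l 16374736) (l 16395880)) (l 16312560)) (c (b (l 16368360) (c (l 16412048) (l 16371504))) (b (l 16290744) (l 16311488)))) (a (c (b (l 16418280) (l 16442016)) (b (l 16342184) (l 16363480))) (c (b (a (c (l 16437768) (l 16396624)) (l 16416264)) (a (b (l 16436336) (l 16491552)) (l 16443416))) (b (l 16333600) (a (l 16358784) (l 16355832))))))), by decide +kernel⟩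

def k40_A00pm_213_s3 : ∃ t, chk3 f_A00pm_213_s3 t 31 26 1 = true :=
  ⟨(l 6), by decide +kernel⟩

def k41_A00pm_213_s3 : ∃ t, chk3 f_A00pm_213_s3 t 31 27 1 = true :=
  ⟨(a (c (b (l 6) (b (b (l 6) (a (c (c (a (l 16585688) (l 16591528)) (l 16585432)) (c (l 16498816) (l 16454488))) (b (l 6) (a (c (l 16583552) (l 16488872)) (c (l 16591264) (l 16493392)))))) (a (c (b (a (c (l 16619256) (l 16573384)) (c (l 16626672) (l 16579320))) (a (b (l 16664168) (l 16661176)) (c (l 16664096) (l 16615040)))) (b (c (l 16571944) (l 16484112)) (c (b (l 16554720) (l 16571872)) (l 16557648)))) (c (b (a (c (l 16635248) (l 16586352)) (c (l 16645112) (l 16594608))) (a (b (l 16639328) (l 16659152)) (c (l 16666856) (l 16634032)))) (b (c (a (l 16537744) (l 16544352)) (l 16575656)) (a (c (l 16573488) (l 16523424)) (c (l 16581936) (l 16530104)))))))) (b (l 6) (b (b (l 6) (a (c (l 16388648) (l 16302080)) (c (l 16388472) (l 16295120)))) (c (a (b (l 16415968) (c (l 16468560) (l 16421800))) (b (c (l 16442888) (l 16394288)) (c (l 16559864) (l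 16425600)))) (a (b (l 16326376) (l 16352368)) (b (l 16321888) (l 16350584))))))) (b (l 6) (a (b (l 6) (c (a (c (b (c (l 16655808) (l 16646176)) (c (l 16660728) (l 16645744))) (b (c (l 16552264) (l 16500496)) (c (l 16633792) (l 16538160)))) (c (l 22) (b (c (l 22) (l 16591920)) (l 22)))) (c (b (c (a (l 16448928) (l 16454576)) (l 16399264)) (a (c (l 16484680) (l 16431408)) (c (l 16576184) (l 16436984)))) (b (l 16321080) (c (l 16379928) (l 16326008)))))) (b (l 6) (c (l 22) (a (c (b (c (l 16503648) (l 16406360)) (c (l 22) (l 16444120))) (b (l 16323520) (l 16442016))) (c (a (b (c (l 16510064) (l 16411208)) (c (l 22) (l 16450608))) (c (l 22) (b (l 16414968) (b (l 16445104) (l 22))))) (b (l 16410800) (c (l 16393376) (l 16333760)))))))))), by decide +kernel⟩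

def k42_A00pm_213_s3 : ∃ t, chk3 f_A00pm_213_s3 t 14 28 1 = true :=
  ⟨(b (a (b (a (c (l 16586768) (l 16516504)) (c (l 16578600) (l 16493992))) (a (c (l 16612592) (l 16624200)) (c (l 16650776) (l 16605208)))) (b (a (c (b (l 16565744) (l 16583112)) (c (l 16497536) (l 16448184))) (c (b (a (l 16565256) (l 16567464)) (a (l 16585224) (l 16589520))) (c (l 16568232) (l 16424936)))) (c (a (b (l 16601128) (l 16619840)) (b (a (l 16606048) (l 16612592)) (a (l 16627752) (l 16636744)))) (a (b (l 16496344) (l 16513040)) (b (c (l 16513624) (l 16451896)) (a (l 16504488) (l 16501016))))))) (a (b (a (c (b (l 16632840) (l 16646752)) (b (l 16559320) (l 16572536))) (c (b (l 16632744) (l 16649288)) (b (l 16543280) (l 16558648)))) (a (c (b (a (l 16660584) (l 16661584)) (a (l 16674448) (l 16676736))) (b (a (l 16589600) (l 16582912)) (a (l 16603160) (l 16597520)))) (c (b (l 16666304) (l 16662792)) (b (l 16658472) (a (l 16592944) (l 16589552)))))) (b (a (c (b (l 16639232) (l 16659328)) (b (l 16530472) (l 16632568))) (c (b (a (l 16650392)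 (l 16662000)) (a (l 16673984) (l 16688408))) (b (a (l 16524472) (l 16523032)) (a (l 16545432) (l 16630072))))) (c (a (b (l 16680160) (a (l 16696032) (l 16708104))) (b (a (l 16698544) (l 16715984)) (a (l 16724080) (l 16686280)))) (c (a (b (l 16595520) (l 16615824)) (b (l 16602752) (l 16669688))) (a (b (l 16540040) (l 16559312)) (b (l 16534768) (l 16642088)))))))), by decide +kernel⟩

def k43_A00pm_213_s3 : ∃ t, chk3 f_A00pm_213_s3 t 28 116 1 = true :=
  ⟨(a (c (a (b (l 16646592) (b (l 16699216) (a (c (l 16722168) (l 16688288)) (l 16707544)))) (b (l 16692176) (c (l 16727544) (l 16688120)))) (a (b (c (l 16635088) (l 16599008)) (b (l 16648752) (a (c (l 16653600) (l 16618144)) (l 16634128)))) (b (l 16612584) (c (l 16648208) (l 16607832))))) (c (b (a (l 16697904) (l 16706016)) (a (l 16715296) (l 16725360))) (b (a (l 16609312) (l 16607424)) (a (c (l 16648576) (l 16603744)) (l 16667864))))), by decide +kernel⟩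

def k44_A00pm_213_s3 : ∃ t, chk3 f_A00pm_213_s3 t 56 117 1 = true :=
  ⟨(a (b (a (a (c (c (l 16729880) (l 16698920)) (b (b (l 16652288) (l 16645376)) (l 16650768))) (c (b (l 16671016) (c (l 16729648) (a (l 16702920) (l 16703240)))) (b (b (l 16640904) (l 16644544)) (c (a (l 16668048) (l 16667920)) (a (l 16632120) (l 16652528)))))) (c (c (l 16730032) (l 16700672)) (b (l 16662560) (c (l 16667816) (l 16630208))))) (a (c (b (c (l 16731560) (l 16710208)) (l 16692464)) (c (b (l 16675504) (l 16682848)) (b (l 16639640) (l 16646984)))) (c (b (c (a (l 16730376) (l 16730904)) (a (b (l 16709504) (a (l 16713048) (l 16713552))) (l 16712608))) (a (c (l 16731440) (b (a (l 16716816) (l 16717328)) (l 16720784))) (c (l 16730968) (b (l 16718296) (a (l 16721648) (l 16722384)))))) (b (a (a (b (c (l 16673488) (l 16636576)) (c (l 16677288) (l 16640304))) (b (l 16654944) (c (l 16656344) (b (l 16638928) (l 16640824))))) (c (l 16675536) (l 16637344))) (a (c (b (a (l 16681056) (a (l 16681104) (b (l 16680200) (l 16682080)))) (l 16684840))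 (b (a (l 16644072) (b (a (l 16642824) (l 16642624)) (l 16644632))) (l 16647688))) (a (b (c (l 16681232) (l 16643304)) (c (a (l 16684984) (l 16685056)) (a (l 16647256) (l 16647088)))) (c (l 16683312) (l 16655384)))))))) (b (c (c (l 16731936) (a (l 16702840) (l 16705584))) (c (b (l 16660184) (l 16668280)) (b (l 16619576) (l 16627528)))) (c (c (b (l 16732592) (l 16732904)) (b (a (l 16714720) (l 16718072)) (a (l 16722568) (l 16726368)))) (b (a (c (l 16675976) (l 16636208)) (c (l 16677016) (l 16635032))) (a (c (a (l 16683664) (l 16684232)) (a (l 16665416) (l 16643920))) (c (l 16685360) (l 16643336))))))), by decide +kernel⟩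

def k45_A00pm_213_s3 : ∃ t, chk3 f_A00pm_213_s3 t 57 117 1 = true :=
  ⟨(b (c (a (c (l 16734152) (l 16710840)) (c (l 16735800) (l 16720216))) (a (c (l 16666120) (l 16620864)) (c (l 16670152) (l 16619760)))) (c (a (b (c (l 16734976) (l 16724328)) (c (l 16735656) (l 16733376))) (b (l 16737592) (c (l 16737840) (l 16739856)))) (a (b (c (l 16679544) (l 16634016)) (c (l 16688552) (a (l 16642928) (l 16642968)))) (b (c (l 16684992) (l 16634208)) (c (l 16695032) (l 16644000)))))), by decide +kernel⟩

def k46_A00pm_213_s3 : ∃ t, chk3 f_A00pm_213_s3 t 29 58 1 = true :=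
  ⟨(b (c (a (b (a (l 16717056) (l 16731664)) (c (l 16735688) (l 16717464))) (b (a (l 16731816) (c (l 16733688) (l 16728520))) (a (l 16734400) (c (l 16736120) (l 16731680))))) (a (b (a (l 16607312) (l 16609448)) (a (l 16627680) (l 16673936))) (b (a (l 16677320) (c (l 16660488) (l 16585496))) (a (c (l 16673936) (l 16605208)) (c (l 16689416) (l 16612712)))))) (c (b (a (a (l 16694856) (l 16726520)) (a (b (l 16736296) (l 16737528)) (c (l 16696512) (l 16734768)))) (a (b (a (l 16738352) (l 16738704)) (a (l 16739952) (l 16740672))) (b (a (l 16738744) (l 16738600)) (a (l 16741096) (c (l 16742688) (l 16739952)))))) (b (a (a (c (l 16676824) (l 16620656)) (c (l 16686760) (l 16624088))) (a (c (l 16700728) (l 16630688)) (c (l 16719648) (l 16641248)))) (a (b (a (l 16665008) (l 16673528)) (a (c (l 16704608) (l 16647512)) (c (l 16718008) (l 16654040)))) (b (a (l 16685976) (c (l 16733904) (l 16663528))) (a (c (l 16736096) (l 16664328)) (c (l 16737208) (l 16679280)))))))), by decide +kernel⟩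

def k47_A00pm_213_s3 : ∃ t, chk3 f_A00pm_213_s3 t 112 118 1 = true :=
  ⟨(a (b (c (l 16736672) (l 16676128)) (c (l 16738720) (l 16690960))) (c (b (b (a (l 16734624) (c (l 16731560) (a (l 16727320) (b (l 16726096) (l 16729904))))) (l 16693184)) (l 16736720)) (c (b (b (a (l 16690496) (a (l 16690760) (b (a (l 16668008) (l 16689104)) (l 16692904)))) (l 16698304)) (l 16709792)) (b (b (a (l 16653424) (a (l 16652992) (b (a (l 16661320) (l 16650704)) (l 16665184)))) (l 16660896)) (l 16672616))))), by decide +kernel⟩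

def k48_A00pm_213_s3 : ∃ t, chk3 f_A00pm_213_s3 t 113 118 2 = true :=
  ⟨(b (a (a (b (c (l 16731448) (b (l 16727408) (l 16731160))) (c (a (l 16731776) (l 16731520)) (a (l 16694344) (b (l 16735432) (l 16736032))))) (c (l 16732168) (b (l 16731264) (l 16736512)))) (c (l 16733832) (l 16737800))) (a (a (c (l 16733168) (l 16737376)) (b (c (a (l 16732008) (l 16731952)) (a (b (l 16736080) (l 16736392)) (b (l 16736408) (l 16736168)))) (c (l 16732856) (l 16736992)))) (b (c (l 16733536) (l 16737544)) (a (c (a (l 16732336) (l 16732624)) (a (b (l 16736328) (l 16736504)) (l 16736672))) (l 16735664))))), by decide +kernel⟩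

def k49_A00pm_213_s3 : ∃ t, chk3 f_A00pm_213_s3 t 113 118 3 = true :=
  ⟨(b (a (a (b (c (b (l 16689488) (a (a (l 16693104) (l 16693280)) (l 16693560))) (b (l 16650392) (a (a (l 16654528) (l 16654424)) (l 16654288)))) (a (a (c (l 16698960) (l 16660488)) (b (c (l 16676192) (b (l 16657416) (l 16659408))) (l 16671408))) (b (c (l 16697456) (l 16658296)) (c (a (l 16701288) (l 16680520)) (a (l 16662352) (b (l 16661288) (l 16663304))))))) (b (c (l 16692200) (l 16652016)) (c (l 16700160) (l 16670648)))) (c (b (l 16693640) (l 16701912)) (b (l 16651688) (l 16660096)))) (a (a (b (c (l 16707128) (l 16668408)) (l 16695904)) (a (c (b (b (a (l 16684728) (l 16705952)) (l 16709840)) (l 16715880)) (b (b (a (b (l 16665296) (l 16667336)) (l 16666296)) (l 16670392)) (l 16676544))) (b (b (c (l 16706416) (l 16666296)) (c (a (b (l 16709232) (l 16711240)) (l 16710560)) (a (b (l 16669376) (l 16671432)) (l 16670424)))) (b (c (a (l 16714288) (l 16693624)) (c (l 16684632) (l 16664400))) (l 16677768))))) (b (c (a (l 16709432) (l 16710944))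 (a (l 16668440) (l 16668672))) (a (a (b (c (c (l 16725048) (l 16705096)) (b (l 16673608) (a (l 16675656) (l 16675728)))) (c (a (l 16719008) (b (l 16718328) (l 16720384))) (a (l 16678792) (b (l 16677816) (l 16679920))))) (c (b (l 16715912) (l 16698992)) (b (l 16674800) (b (l 16677960) (l 16680064))))) (c (l 16719280) (l 16677232)))))), by decide +kernel⟩

def k50_A00pm_213_s3 : ∃ t, chk3 f_A00pm_213_s3 t 56 119 1 = true :=
  ⟨(a (b (c (l 16739952) (l 16685296)) (c (l 16742304) (l 16721344))) (c (b (b (a (l 16736392) (b (a (c (l 16732848) (a (l 16736864) (l 16736584))) (l 16735208)) (a (l 16735160) (c (l 16732984) (a (l 16726208) (l 16737160)))))) (a (l 16737584) (a (l 16736072) (b (a (l 16735064) (c (l 16733016) (l 16736832))) (c (l 16733656) (l 16737400)))))) (a (l 16739424) (c (l 16735752) (l 16739216)))) (c (a (b (l 16727624) (l 16743568)) (a (b (b (a (l 16725368) (b (a (l 16723872) (b (l 16723240) (l 16725296))) (l 16728224))) (l 16734056)) (l 16743408)) (b (b (a (b (l 16724984) (a (b (l 16727808) (l 16729904))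 (b (l 16728312) (l 16730360)))) (l 16728072)) (a (l 16714448) (b (a (b (l 16732952) (l 16735056)) (l 16734544)) (c (l 16740128) (l 16728184))))) (l 16700520)))) (b (a (l 16688800) (a (b (a (l 16685128) (b (a (l 16685800) (b (l 16682232) (l 16684352))) (l 16687480))) (l 16693704)) (b (a (b (l 16683504) (a (b (a (l 16686584) (l 16686656)) (l 16688760)) (c (l 16698320) (l 16677312)))) (l 16685984)) (a (b (l 16692072) (l 16696368)) (b (a (b (l 16691256) (l 16693424)) (l 16689928)) (a (l 16696672) (c (l 16707464) (l 16686264)))))))) (a (l 16705184) (b (l 16702608) (l 16711168))))))), by decide +kernel⟩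

def k51_A00pm_213_s3 : ∃ t, chk3 f_A00pm_213_s3 t 57 118 1 = true :=
  ⟨(c (a (b (c (l 16736600) (a (l 16739192) (l 16740432))) (c (l 16737072) (a (l 16739432) (l 16741376)))) (b (c (l 16739784) (l 16742024)) (c (l 16741584) (l 16744040)))) (a (b (a (c (l 16700448) (l 16656040)) (c (l 16703776) (l 16656712))) (a (c (b (l 16713552) (l 16722256)) (b (l 16669280) (l 16678144))) (c (l 16722296) (l 16685744)))) (b (a (c (l 16707856) (l 16657968)) (l 16686392)) (a (c (l 16727552) (l 16677504)) (c (l 16733760) (l 16680520)))))), by decide +kernel⟩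

def k52_A00pm_213_s3 : ∃ t, chk3 f_A00pm_213_s3 t 57 119 2 = true :=
  ⟨(a (a (a (b (b (l 16736440) (c (l 16733816) (b (l 16737816) (a (l 16737024) (l 16737776))))) (b (a (c (l 16733944) (b (l 16737240) (l 16737648))) (c (b (l 16733640) (l 16712808)) (b (l 16737264) (a (l 16737328) (l 16737216))))) (l 16736552))) (b (c (l 16735840) (l 16739352)) (b (c (l 16734704) (l 16738192)) (a (b (c (l 16723520) (a (l 16737456) (l 16737376))) (l 16736080)) (b (l 16736176) (c (c (l 16712472) (l 16724584)) (a (l 16737576) (l 16737584)))))))) (b (c (l 16738112) (l 16741328)) (c (l 16737032) (b (l 16740632) (l 16739832))))) (b (c (l 16742440) (a (l 16743840) (l 16746224))) (c (a (l 16740576) (l 16744024)) (a (l 16738224) (l 16746552))))), by decide +kernel⟩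

def k53_A00pm_213_s3 : ∃ t, chk3 f_A00pm_213_s3 t 228 119 3 = true :=
  ⟨(b (b (c (l 16709936) (a (l 16686576) (l 16687520))) (a (b (c (l 16736064) (l 16693152)) (a (a (c (b (l 16738256) (l 16719384)) (b (l 16696032) (a (l 16698152) (l 16698272)))) (c (l 16739936) (l 16697392))) (c (l 16740920) (l 16697816)))) (c (l 16740832) (l 16696504)))) (a (a (c (b (b (a (l 16741136) (b (c (l 16739896) (l 16732560)) (l 16741032))) (l 16741480)) (l 16742224)) (b (b (a (l 16701504) (b (a (l 16700592) (l 16700728)) (l 16702864))) (l 16706040)) (l 16712648))) (c (b (b (b (l 16741336) (a (l 16719968) (l 16741256))) (a (l 16741176) (b (l 16740984) (l 16741056)))) (l 16741720)) (b (c (b (b (l 16711952) (a (l 16713912) (l 16714328))) (a (l 16717216) (b (l 16716504) (l 16718712)))) (b (b (l 16690216) (a (l 16692320) (l 16692552))) (a (l 16695672) (b (l 16694776) (l 16697016))))) (l 16713312)))) (b (c (b (l 16742248) (c (l 16740744) (l 16740672))) (a (a (b (l 16702704) (c (l 16718040) (l 16696152))) (l 16705280)) (l 16705848)))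 (a (c (b (a (c (l 16740240) (l 16721216)) (b (l 16741144) (c (l 16740128) (l 16742056)))) (l 16741456)) (b (a (b (a (l 16710376) (b (l 16709984) (l 16711104))) (l 16712704)) (b (l 16710832) (a (l 16702488) (b (l 16712600) (l 16713720))))) (l 16716264))) (b (c (l 16741608) (l 16712576)) (c (a (b (c (l 16740160) (l 16742064)) (l 16741232)) (b (l 16741376) (c (l 16740208) (l 16742088)))) (a (b (a (b (l 16704552) (l 16716168)) (b (l 16715256) (l 16705888))) (l 16717976)) (b (l 16716152) (a (b (l 16707232) (l 16718848)) (b (l 16717952) (l 16708584))))))))))), by decide +kernel⟩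

def k54_A00pm_213_s3 : ∃ t, chk3 f_A00pm_213_s3 t 229 119 3 = true :=
  ⟨(b (c (b (l 16736120) (l 16744640)) (b (l 16689264) (l 16698616))) (c (b (c (l 16743216) (l 16742800)) (c (l 16742408) (l 16744200))) (b (a (l 16707064) (l 16708872)) (a (b (l 16713936) (l 16708008)) (l 16707800))))), by decide +kernel⟩

def k55_A00pm_213_s3 : ∃ t, chk3 f_A00pm_213_s3 t 115 119 3 = true :=
  ⟨(b (a (c (l 16725920) (b (l 16692280) (l 16702152))) (c (l 16748840) (l 16701384))) (a (c (b (l 16746768) (l 16746328)) (b (l 16712024) (a (l 16720600) (l 16723168)))) (c (b (l 16749288) (l 16749224)) (b (l 16717096) (l 16727544))))), by decide +kernel⟩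

def k56_A00pm_213_s3 : ∃ t, chk3 f_A00pm_213_s3 t 29 59 1 = true :=
  ⟨(b (a (c (a (b (c (l 16742488) (l 16743672)) (c (l 16745624) (l 16747136))) (b (l 16744840) (c (l 16749288) (l 16749816)))) (a (b (c (l 16721888) (l 16664152)) (c (l 16745128) (a (l 16684400) (l 16689240)))) (b (c (l 16737856) (l 16672912)) (c (l 16750456) (l 16698584))))) (c (a (b (l 16746312) (c (l 16752680) (l 16752176))) (b (c (l 16748712) (l 16746504)) (c (l 16755904) (l 16754344)))) (a (b (c (l 16744808) (l 16685960)) (c (l 16751744) (l 16715512))) (b (c (l 16744296) (l 16704344)) (c (l 16752808) (a (l 16732224) (l 16745648))))))) (c (a (b (a (c (l 16747816) (l 16749592)) (c (l 16752816) (l 16753720))) (a (c (l 16749016) (a (l 16749528) (l 16752400))) (c (l 16755352) (b (l 16755944) (l 16757096))))) (b (a (c (l 16757552) (l 16757536)) (c (l 16762128) (l 16761160))) (a (c (l 16761432) (l 16751344)) (c (l 16767352) (b (l 16765568) (l 16768168)))))) (a (a (b (c (a (l 16750664) (l 16752368)) (a (l 16706568) (l 16712864))) (c (a (l 16751880)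 (l 16754352)) (b (a (l 16723280) (l 16730712)) (a (l 16734424) (l 16742632))))) (b (c (b (l 16753768) (l 16755640)) (b (l 16718152) (l 16731312))) (c (b (l 16757216) (l 16758504)) (b (l 16744536) (a (l 16752320) (l 16761056)))))) (b (a (c (l 16747120) (b (l 16738136) (l 16753408))) (c (b (l 16758472) (l 16761904)) (b (l 16757424) (l 16761152)))) (a (c (b (l 16761248) (l 16763312)) (b (l 16761728) (a (l 16763032) (l 16764928)))) (c (b (l 16765048) (l 16767904)) (b (a (l 16763872) (l 16765248)) (a (l 16766776) (l 16768576))))))))), by decide +kernel⟩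

def k57_A00pm_213_s3 : ∃ t, chk3 f_A00pm_213_s3 t 56 120 1 = true :=
  ⟨(c (a (l 16725120) (b (a (l 16742016) (l 16740104)) (l 16743848))) (a (b (l 16736192) (l 16750632)) (b (c (l 16745880) (l 16712152)) (l 16749544)))), by decide +kernel⟩

def k58_A00pm_213_s3 : ∃ t, chk3 f_A00pm_213_s3 t 114 120 1 = true :=
  ⟨(b (a (a (c (l 16738592) (b (l 16706280) (l 16745784))) (c (b (c (l 16735328) (l 16738576)) (l 16738232)) (a (c (l 16742776) (l 16711792)) (b (b (c (l 16741528) (c (l 16732624) (l 16710528))) (l 16701864)) (l 16744544))))) (c (b (a (b (a (c (c (l 16723248) (l 16724832)) (b (l 16737776) (l 16737768))) (l 16736912)) (a (c (l 16734896) (l 16738120)) (c (l 16724312) (b (l 16738040) (l 16737928))))) (l 16737992)) (c (a (l 16714856) (b (l 16725016) (a (l 16735368) (l 16735440)))) (a (l 16738904) (b (l 16738560) (a (l 16738408) (l 16738440)))))) (b (a (b (a (b (c (a (c (l 16740264) (l 16742120)) (l 16741576)) (a (b (l 16720552) (a (l 16721568) (l 16721800))) (l 16721632))) (a (c (l 16741272) (b (l 16712344)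 (l 16723968))) (c (l 16741240) (b (l 16723320) (l 16713960))))) (c (l 16742032) (l 16723568))) (a (c (l 16741584) (c (l 16738256) (l 16715888))) (b (c (l 16741496) (l 16706000)) (a (c (l 16741312) (l 16708016)) (c (l 16741400) (l 16729536)))))) (c (l 16742920) (l 16706640))) (a (a (l 16723056) (b (c (l 16741640) (c (l 16744040) (l 16721392))) (l 16743760))) (b (a (b (l 16722504) (a (c (l 16741368) (l 16734736)) (l 16743360))) (l 16702128)) (a (c (l 16741688) (b (l 16716408) (l 16739720))) (c (l 16741680) (l 16718864)))))))) (c (a (l 16740928) (a (l 16739336) (a (l 16738504) (b (c (l 16715056) (l 16738936)) (l 16738704))))) (a (l 16746832) (b (a (l 16744800) (b (a (l 16743752) (c (l 16741744) (b (l 16743344) (l 16745160)))) (l 16744016))) (l 16745368))))), by decide +kernel⟩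

def k59_A00pm_213_s3 : ∃ t, chk3 f_A00pm_213_s3 t 115 120 1 = true :=
  ⟨(b (c (c (a (l 16738672) (l 16742328)) (a (b (l 16742192) (l 16740896)) (l 16744856))) (a (c (b (l 16745288) (l 16743952)) (b (a (l 16730184) (l 16733032)) (l 16741200))) (c (b (l 16748328) (l 16746904)) (b (l 16737856) (l 16748032))))) (a (b (c (a (a (b (l 16737224) (l 16737264)) (l 16737824)) (l 16739136)) (a (b (c (l 16742192) (l 16745520)) (a (c (l 16741808) (l 16745128)) (l 16743624))) (l 16744992))) (a (c (b (a (l 16737752) (l 16737480)) (l 16738232)) (b (a (l 16743744) (c (l 16741888) (l 16745104))) (l 16744040))) (c (b (l 16738312) (a (l 16737712) (l 16738216))) (b (l 16744104) (a (c (l 16741976) (l 16745088)) (l 16743888)))))) (c (c (l 16739824) (l 16742288)) (c (l 16744952) (l 16747824))))), by decide +kernel⟩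

def k60_A00pm_213_s3 : ∃ t, chk3 f_A00pm_213_s3 t 28 121 1 = true :=
  ⟨(b (a (a (l 16752440) (a (l 16749952) (l 16727264))) (a (c (l 16742928) (a (l 16749040) (l 16747080))) (a (c (b (a (l 16739408) (b (a (l 16738192) (l 16737952)) (l 16738736))) (l 16740448)) (b (a (l 16744904) (b (a (l 16743824) (l 16733064)) (l 16744176))) (l 16745568))) (b (c (a (b (l 16738912) (l 16738432)) (l 16740200)) (a (b (l 16744312) (a (l 16743608) (l 16744096))) (l 16745264))) (a (c (c (l 16727472) (l 16740336)) (b (a (l 16743960) (l 16743680)) (l 16744328))) (c (b (l 16739480) (l 16738984)) (b (l 16744496) (l 16743944)))))))) (c (a (l 16751584) (a (l 16746112) (a (l 16742920) (b (a (l 16740368) (b (l 16739200) (l 16739776))) (l 16741496))))) (a (l 16734648) (a (l 16750504) (a (l 16747464) (a (l 16745808) (b (c (l 16743152) (l 16735248)) (l 16745344)))))))), by decide +kernel⟩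

def k61_A00pm_213_s3 : ∃ t, chk3 f_A00pm_213_s3 t 29 60 1 = true :=
  ⟨(b (a (c (a (b (c (a (l 16745880) (l 16749352)) (a (l 16748080) (l 16751208))) (c (l 16744824) (l 16736328))) (b (c (l 16754432) (b (l 16756648) (l 16754912))) (c (l 16751192) (l 16752504)))) (b (a (c (a (l 16750472) (l 16753240)) (b (a (l 16745376) (l 16754304)) (l 16722040))) (a (c (l 16755912) (l 16715776)) (c (l 16758496) (l 16717960)))) (a (a (c (l 16747648) (l 16750168)) (c (l 16750232) (l 16752392))) (c (l 16753960) (b (l 16756344) (l 16754808)))))) (c (b (a (c (l 16760968) (l 16751072)) (c (l 16767352) (b (l 16768256) (l 16766136)))) (a (c (l 16757312) (l 16757920)) (c (l 16763288) (l 16763160)))) (b (a (a (c (l 16761000) (l 16720056)) (c (l 16763448) (l 16743056))) (c (b (l 16768120) (l 16766032)) (b (a (l 16767048) (l 16769016)) (l 16765984)))) (a (c (l 16758632) (l 16738472)) (c (l 16763088) (l 16763080)))))) (a (a (b (c (a (l 16741928) (l 16744824)) (a (l 16725512) (l 16748720))) (a (b (c (b (l 16740752) (l 16740176)) (a (l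 16744312) (l 16745528))) (a (c (b (l 16739736) (l 16740336)) (b (l 16744248) (l 16744712))) (c (l 16719312) (l 16744520)))) (c (l 16742792) (l 16746608)))) (c (b (a (l 16747632) (l 16750376)) (a (l 16745400) (l 16747936))) (b (a (l 16750856) (l 16752904)) (a (l 16748568) (l 16750448))))) (c (a (b (l 16743920) (l 16751664)) (b (l 16759624) (l 16756480))) (a (b (c (l 16755456) (l 16756280)) (a (l 16752256) (l 16754000))) (b (c (l 16759568) (l 16759616)) (l 16746064)))))), by decide +kernel⟩

def k62_A00pm_213_s3 : ∃ t, chk3 f_A00pm_213_s3 t 14 122 1 = true :=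
  ⟨(b (a (a (a (l 16747192) (l 16733656)) (a (c (l 16749424) (l 16753096)) (c (l 16745272) (l 16749104)))) (a (b (a (a (a (l 16743448) (c (b (l 16740312) (l 16740936)) (b (l 16744464) (l 16744960)))) (c (l 16741448) (l 16745184))) (c (l 16745264) (l 16748080))) (a (c (a (l 16742712) (a (b (l 16730424) (l 16741568)) (l 16720464))) (a (l 16746456) (a (b (l 16744712) (l 16745248)) (l 16744976)))) (c (l 16744464) (l 16747256)))) (a (c (l 16749400) (l 16750920)) (c (l 16753816) (l 16753992))))) (b (a (a (a (l 16759768) (l 16756832)) (c (l 16729104) (l 16742832))) (a (a (a (l 16746200) (a (l 16744424) (c (b (l 16731064) (l 16742240)) (b (l 16745016) (l 16745584))))) (c (a (l 16732016) (l 16744848)) (a (l 16745568) (l 16747328)))) (a (c (l 16748040) (l 16749584)) (c (l 16731144) (l 16752368))))) (a (a (a (l 16750704) (l 16758336)) (a (l 16755088) (l 16740728))) (a (c (a (l 16745320) (a (a (b (l 16731744) (l 16742952)) (l 16732104)) (l 16744240))) (a (l 16748392) (a (a (b (l 16745368) (l 16745976)) (l 16745472))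 (l 16746712)))) (a (c (l 16726304) (l 16748848)) (c (l 16751184) (l 16751496))))))), by decide +kernel⟩

def k63_A00pm_213_s3 : ∃ t, chk3 f_A00pm_213_s3 t 14 123 1 = true :=
  ⟨(b (a (a (a (a (c (l 16763072) (l 16764992)) (c (l 16761704) (l 16763736))) (c (l 16754336) (l 16761776))) (a (c (l 16756384) (l 16758760)) (a (l 16754760) (l 16752744)))) (a (c (a (l 16748256) (a (b (a (l 16744304) (b (l 16732464) (l 16743712))) (l 16745752)) (b (a (l 16732704) (l 16744248)) (a (b (l 16733248) (l 16744512)) (b (l 16743968) (l 16733400)))))) (a (l 16750840) (a (b (a (l 16747080) (l 16741000)) (l 16748208)) (b (b (l 16746336) (l 16745968)) (a (l 16746736) (b (l 16746272) (l 16746168))))))) (a (c (a (l 16724464) (l 16726280)) (a (l 16747320) (l 16748552))) (c (b (l 16729416) (l 16728784)) (b (l 16750760) (l 16729216)))))) (a (c (a (a (b (l 16764800) (c (l 16766112) (l 16766720))) (b (l 16762128) (c (l 16763496) (l 16764192)))) (a (b (l 16759080) (l 16760896)) (l 16756392))) (a (a (b (l 16766384) (c (l 16767376) (l 16768096)))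 (b (l 16763904) (l 16765352))) (a (b (l 16761032) (l 16762576)) (l 16758312)))) (a (c (a (l 16752264) (a (l 16748880) (b (a (l 16746048) (l 16734672)) (l 16747616)))) (a (l 16754248) (a (l 16750888) (b (a (l 16748208) (l 16747296)) (l 16749472))))) (a (a (a (b (b (l 16745472) (c (l 16734184) (l 16746672))) (c (l 16735608) (l 16747944))) (b (l 16746184) (c (a (b (l 16744976) (l 16745696)) (l 16734856)) (a (l 16747184) (l 16726064))))) (c (l 16736072) (l 16737432))) (c (a (l 16737784) (l 16729112)) (a (l 16728112) (l 16729368))))))), by decide +kernel⟩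

def k64_A00pm_213_s3 : ∃ t, chk3 f_A00pm_213_s3 t 56 124 1 = true :=
  ⟨(b (a (b (a (c (c (l 16768352) (l 16768832)) (l 16769624)) (c (l 16767400) (l 16768536))) (a (c (b (l 16769752) (l 535052559)) (b (l 16770632) (l 16771304))) (c (c (l 16768808) (l 16769224)) (b (l 16769584) (l 16770280))))) (a (b (c (l 16766160) (l 16767392)) (c (c (l 16767616) (l 16768072)) (l 16768840))) (b (c (l 16764880) (l 16766200)) (c (c (l 16766376) (l 16766872)) (l 16767704))))) (a (b (a (c (b (l 535068175) (c (l 534772239) (l 16772192))) (b (l 535272207) (l 535283471))) (c (b (l 535009807) (c (l 16770864) (l 16771160))) (b (l 16770976) (l 535222543)))) (a (c (a (b (l 534849295) (l 534869775)) (b (l 535088655) (l 534840335))) (b (l 535296271) (a (l 535325967) (l 535295247)))) (c (b (c (l 534733583) (l 16771928)) (a (l 534810383) (l 534780431))) (b (l 535234831) (a (l 535264271) (l 535232783)))))) (b (a (c (b (l 16769088) (c (l 16769752) (l 16770088))) (b (l 16769928) (l 16770656))) (c (c (l 16768152) (l 16768544)) (b (l 16768840)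 (l 16769592)))) (a (c (a (b (l 534999055) (l 534749967)) (b (l 16770464) (l 534719247))) (b (l 535171855) (c (l 16771952) (l 16772256)))) (c (a (b (l 16769912) (l 534688015)) (b (l 16769336) (l 16770192))) (b (l 16770344) (b (l 16770912) (l 16771288)))))))), by decide +kernel⟩

def k65_A00pm_213_s3 : ∃ t, chk3 f_A00pm_213_s3 t 57 124 1 = true :=
  ⟨(a (c (b (a (b (l 16763480) (l 16765272)) (b (l 16761912) (l 16763768))) (a (b (c (l 16766856) (l 16767280)) (b (l 16768400) (c (l 16769128) (l 16769440)))) (b (b (l 16765160) (l 16766080)) (b (l 16767000) (l 16767920))))) (b (b (l 16764144) (b (l 16765336) (l 16766136))) (a (b (b (l 16767608) (l 16768392)) (b (l 16769184) (b (l 16769768) (l 16770160)))) (b (l 16766608) (b (l 16767840) (l 16768656)))))) (c (b (b (l 16759288) (a (l 16762112) (l 16760312))) (a (b (l 16764024) (b (l 16765456) (l 16766408))) (b (l 16762288) (b (l 16763768) (l 16764760))))) (b (b (l 16760816) (l 16762520)) (b (b (l 16763808) (l 16764672)) (a (b (l 16766336) (l 16767184)) (b (l 16764672)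 (l 16765568))))))), by decide +kernel⟩

def k66_A00pm_213_s3 : ∃ t, chk3 f_A00pm_213_s3 t 29 124 1 = true :=
  ⟨(a (c (a (b (b (l 16755336) (l 16757384)) (a (b (l 16760432) (l 16762504)) (b (l 16758496) (l 16760680)))) (b (a (l 16753160) (l 16751000)) (b (l 16755528) (b (l 16757320) (l 16758536))))) (a (b (b (l 16756912) (l 16758712)) (b (b (l 16760104) (l 16761048)) (a (b (l 16762904) (l 16763840)) (l 16761568)))) (b (a (l 16754616) (l 16752456)) (b (l 16756632) (b (l 16758264) (l 16759384)))))) (a (c (b (a (b (l 16737280) (l 16750032)) (b (a (b (l 16735560) (l 16736360)) (l 16746928)) (a (l 16748464) (b (b (l 16736544) (l 16736928)) (l 16737808))))) (b (l 16751576) (l 16754232))) (b (a (b (l 16749344) (l 16751352)) (b (a (b (l 16737072) (l 16748320)) (l 16748208)) (a (l 16749768) (b (l 16738056) (l 16749528))))) (b (l 16752664) (a (l 16756024) (l 16754168))))) (b (c (b (l 16738616) (a (b (l 16748344) (a (l 16737504) (l 16748904))) (l 16750112))) (b (l 16739256) (a (a (l 16738464) (l 16749672)) (l 16750584))))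 (a (b (b (a (c (a (l 16748816) (l 16738072)) (l 16739360)) (l 16739024)) (a (c (l 16749896) (l 16750904)) (a (c (l 16738888) (l 16739848)) (l 16744656)))) (c (a (l 16751928) (b (l 16740040) (l 16751744))) (b (l 16751920) (l 16752984)))) (b (c (l 16750456) (l 16751016)) (b (c (l 16745464) (l 16740848)) (a (c (a (l 16751224) (l 16740512)) (a (l 16752000) (l 16741224))) (l 16741312)))))))), by decide +kernel⟩

def k67_A00pm_213_s3 : ∃ t, chk3 f_A00pm_213_s3 t 112 250 1 = true :=
  ⟨(b (a (c (b (a (c (l 534851343) (l 535202575)) (l 534862095)) (a (b (l 534909199) (l 534921743)) (c (l 534847247) (l 535195151)))) (b (a (l 535342351) (l 535311375)) (a (l 535360527) (l 535329551)))) (c (b (a (l 534832143) (l 534801679)) (a (c (l 534817295) (l 535164687)) (a (l 534832655) (l 534817295)))) (b (a (l 535280143) (l 535248399)) (a (l 535298063) (l 535266063))))) (a (c (b (b (a (l 534935055) (l 534904847)) (a (a (l 535224591) (l 535209487)) (l 534918415))) (a (a (b (l 534970383) (l 534985487)) (b (l 534955279) (l 534970383)))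 (a (b (l 535208719) (l 534955023)) (b (l 535193359) (l 534939919))))) (b (a (l 535381263) (l 535349775)) (a (b (l 535397647) (l 535409679)) (b (l 535365903) (l 535377935))))) (b (c (a (b (l 534874383) (l 534887951)) (c (l 534813967) (l 534889487))) (a (l 535318031) (l 535285775))) (b (c (a (l 535002639) (l 534871055)) (a (l 535333903) (l 535301391))) (c (a (a (l 534924303) (l 535177231)) (b (l 534881551) (l 534889231))) (a (l 535345679) (l 535313167))))))), by decide +kernel⟩

def k68_A00pm_213_s3 : ∃ t, chk3 f_A00pm_213_s3 t 113 250 1 = true :=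
  ⟨(a (b (c (b (a (l 534770959) (l 534739983)) (a (l 534794255) (l 534763023))) (b (a (l 535216399) (l 535183887)) (a (l 535233807) (l 535201039)))) (b (c (a (b (l 534812431) (l 534825743)) (a (l 534795791) (l 534779919))) (a (l 535253007) (l 535219983))) (c (a (b (l 534839567) (l 534853903)) (b (l 534807823) (l 534822159))) (a (b (l 535268623) (l 535280143)) (b (l 535235343) (l 535246607)))))) (b (c (a (b (l 534708751) (a (l 535007503) (l 534723087))) (b (l 534673679) (a (l 534705423) (l 534684687)))) (a (b (l 535151119) (l 535167759)) (b (l 535114255) (l 535130127)))) (c (c (a (b (b (l 16772920) (l 534995215)) (b (l 535009551) (a (l 535032335) (l 535016207)))) (b (b (l 16772408) (l 16772824)) (a (l 535259151) (l 535236879)))) (a (b (l 534793487) (l 534819343)) (b (l 534756367) (l 534780943)))) (a (b (b (l 535181071) (l 535191055)) (c (l 534897423) (l 535251727))) (b (c (l 534836495) (l 535193103)) (c (l 534857999) (b (l 16773728) (l 16774080)))))))), by decide +kernel⟩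

def k69_A00pm_213_s3 : ∃ t, chk3 f_A00pm_213_s3 t 112 251 1 = true :=
  ⟨(b (a (a (b (c (c (b (a (l 535234319) (l 535219215)) (a (l 4) (c (l 535219727) (l 535253263)))) (b (l 535030799) (l 535046671))) (b (l 535422223) (l 535435791))) (l 4)) (b (c (c (b (a (l 535204111) (l 535189007)) (a (c (l 535204623) (l 535238159)) (l 535205903))) (b (l 535000079) (l 535015439))) (b (l 535390479) (l 535403791))) (b (b (c (a (l 535033103) (l 534984207)) (l 535414031)) (c (a (l 4) (c (l 535227919) (l 535296527))) (l 535421199))) (l 4)))) (b (b (c (a (a (l 534939919) (l 534924303)) (a (l 534908687) (l 534892815))) (a (l 535358223) (l 535325455))) (c (a (c (a (l 535190543) (l 535174927)) (l 534984207)) (a (l 534924815) (l 534908943))) (a (l 535371279) (l 535338511)))) (c (a (b (c (a (c (l 535192079) (l 535224591)) (l 535192591)) (l 535000335)) (c (a (a (l 535230223) (l 535222543)) (c (l 535195407) (l 535226895))) (l 535017231))) (b (c (a (l 535176975) (l 535161359)) (l 534968335)) (a (b (l 534954511) (l 534963471)) (b (l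 535206927) (l 534947599))))) (a (b (c (l 535076111) (l 535159311)) (c (l 535091471) (l 535173135))) (b (c (l 535043343) (l 535126031)) (c (l 535058703) (l 535139599))))))) (a (l 4) (a (l 4) (b (c (b (a (c (b (l 535209487) (l 4)) (l 535279375)) (c (b (l 535193615) (l 535203343)) (l 535263247))) (a (l 4) (b (b (l 534973199) (l 4)) (l 4)))) (b (c (l 535209231) (a (l 535162639) (l 535145743))) (a (l 4) (a (l 4) (b (l 535112719) (l 4)))))) (l 4))))), by decide +kernel⟩

def k70_A00pm_213_s3 : ∃ t, chk3 f_A00pm_213_s3 t 226 502 1 = true :=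
  ⟨(b (c (a (a (b (l 535145487) (l 534893071)) (b (l 535129615) (l 534876943))) (b (b (l 534833167) (l 534840847)) (b (l 534848527) (l 534856719)))) (a (b (l 535292175) (l 535305231)) (b (l 535258639) (l 535271439)))) (c (a (b (a (l 534909711) (l 534893583)) (c (a (l 535163663) (l 535147791)) (l 534952719))) (b (a (l 534877455) (l 534861071)) (a (c (l 535131663) (l 535196431)) (l 534878479)))) (a (b (c (l 535010319) (l 535091983)) (c (l 535025423) (l 535239951))) (b (c (l 534976783) (l 535057935)) (c (l 534991887) (l 535272463)))))), by decide +kernel⟩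

def k71_A00pm_213_s3 : ∃ t, chk3 f_A00pm_213_s3 t 226 503 1 = true :=
  ⟨(b (c (c (a (b (a (b (l 535177743) (l 535187471)) (b (l 535161615) (l 535171343))) (a (b (l 535197199) (l 535207439)) (b (l 535181327) (l 535191311)))) (b (a (b (l 535145487) (l 535155215)) (l 535134479)) (a (b (l 535165199) (l 535175183)) (b (l 535148815) (l 535158799))))) (a (b (b (l 534965519) (l 534974479)) (b (l 534983695) (l 534993167))) (b (l 534937359) (b (l 534950671) (l 534959887))))) (a (b (c (l 535041551) (a (l 535128591) (l 535111439))) (c (b (l 535053839) (l 535062543)) (a (c (l 535392527) (l 535164431)) (c (l 535375119) (l 535147023))))) (b (c (l 535007759) (a (l 535094031) (l 535076623))) (c (b (l 535020047) (l 535028495)) (a (c (l 535357967) (l 535129615)) (c (l 535340559) (l 535111951))))))) (c (a (b (a (l 4) (b (c (l 535201807) (l 535262991)) (l 4))) (l 4)) (c (b (a (b (l 535185423) (l 535196175)) (b (l 535169295) (l 535179791))) (a (l 4) (b (l 535190543) (l 4)))) (b (b (l 534969615) (l 534979343)) (b (a (l 4) (l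 535249423)) (l 4))))) (a (a (l 4) (b (b (c (l 535331343) (l 535138575)) (l 4)) (l 4))) (a (b (c (l 535050511) (c (l 535106063) (b (l 535409423) (l 535149071)))) (l 4)) (b (c (l 535033359) (c (l 535088655) (b (l 535391759) (l 535131407)))) (a (l 4) (b (c (l 535311119) (b (l 535382031) (l 535117839))) (l 4)))))))), by decide +kernel⟩

def k72_A00pm_213_s3 : ∃ t, chk3 f_A00pm_213_s3 t 227 502 1 = true :=
  ⟨(c (a (b (a (b (l 535081231) (l 535096847)) (b (l 534796303) (c (l 535048207) (l 535114511)))) (a (b (l 534844687) (l 534862095)) (b (c (l 535065103) (l 535130127)) (c (a (l 535087119) (l 535078415)) (l 535146255))))) (b (b (a (l 534777103) (l 534753039)) (c (a (l 535028495) (l 535003919)) (l 534813967))) (c (a (b (l 535044879) (l 535061775)) (b (l 535019023) (l 535168527))) (b (a (l 535109391) (l 535082767)) (a (l 535124751) (l 535096591)))))) (a (a (b (b (l 535233039) (l 535245583)) (b (l 534990607) (l 535138831))) (b (c (l 534913807) (l 534996239)) (c (b (l 535202575) (l 535217167)) (b (l 535282447) (l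 535027215))))) (a (b (c (l 534893583) (l 534975503)) (c (b (l 535181327) (l 535195151)) (b (l 535260687) (l 535004431)))) (b (c (l 534868239) (l 534949647)) (c (b (l 535153935) (l 535166223)) (b (l 535232783) (l 534974735))))))), by decide +kernel⟩

def k73_A00pm_213_s3 : ∃ t, chk3 f_A00pm_213_s3 t 227 503 4 = true :=
  ⟨(a (b (a (b (l 535118095) (b (l 535132431) (l 535142415))) (b (a (l 535105807) (l 535096847)) (a (l 535125263) (l 535116047)))) (a (b (b (l 535152655) (l 535163151)) (b (l 535174159) (l 535185167))) (b (a (b (l 535140367) (l 535150863)) (c (b (l 535117071) (l 535127311)) (l 535150095))) (c (a (b (l 535148047) (a (l 535161359) (a (l 535158287) (c (l 535149583) (l 535162639))))) (b (a (l 535140623) (l 535133455)) (c (a (b (l 535142415) (l 535148047)) (l 535134479)) (a (l 535158543) (l 535147535))))) (a (b (l 535175439) (a (l 535188239) (a (l 535185167) (c (l 535175951) (l 535190031))))) (b (l 535164687) (c (a (l 535171855) (l 535160847)) (a (l 535185679) (l 535174671))))))))) (b (a (b (c (l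 535064847) (l 535093775)) (c (b (l 535078159) (l 535087119)) (l 535110927))) (b (c (l 535035407) (l 535063823)) (b (l 535059983) (c (l 535052815) (l 535080207))))) (c (b (a (a (b (l 535103503) (l 535112207)) (l 535090447)) (b (l 535059215) (l 535065871))) (a (b (a (l 535119375) (l 535100943)) (b (l 535116047) (a (l 535129871) (l 535112463)))) (b (l 535073807) (l 535083791)))) (b (a (a (l 535135759) (l 535117839)) (b (l 535086095) (l 535092495))) (a (b (a (l 535146511) (l 535127567)) (b (l 535142671) (c (l 535140879) (l 535154447)))) (b (l 535100175) (c (l 535103247) (l 535116559)))))))), by decide +kernel⟩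

def k74_A00pm_213_s3 : ∃ t, chk3 f_A00pm_213_s3 t 227 503 5 = true :=
  ⟨(a (b (a (b (l 535180559) (l 535198735)) (a (b (l 535168015) (l 535185935)) (b (l 535158799) (l 535176463)))) (a (b (l 535352079) (b (l 535232527) (l 535242767))) (b (a (l 535205135) (b (l 535190287) (l 535199503))) (a (a (l 535227151) (b (l 535217679) (a (l 535228943) (b (l 535224079) (c (c (l 535206927) (l 535221519)) (c (l 535236879) (l 535252495))))))) (c (b (l 535193615) (a (b (l 535204367) (c (l 535202575) (l 535217167))) (c (l 535188751) (l 535203599)))) (a (b (l 535227663) (b (l 535235087) (c (b (l 535230991) (l 535230735)) (b (l 535246607) (l 535246095))))) (b (l 535219983) (b (l 535224847) (b (l 535227151) (l 535229455)))))))))) (b (b (a (b (l 535136527) (l 535144463)) (b (l 535106575) (l 535113231))) (a (b (l 535152399) (l 535160335)) (b (l 535119375) (l 535125007)))) (c (b (a (a (l 535165199) (l 535146767)) (b (l 535115023) (l 535121167))) (a (b (a (l 535175183) (l 535155983)) (b (l 535170831) (a (l 535184655) (l 535166735))))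 (b (l 535128335) (b (l 535134735) (l 535140367))))) (b (a (a (l 535196175) (l 535177743)) (b (l 535145743) (l 535151375))) (b (a (a (l 535205647) (l 535186191)) (l 535158031)) (a (a (c (l 535203343) (l 535218959)) (a (l 535198479) (l 535189263))) (b (l 535164431) (l 535169807)))))))), by decide +kernel⟩

def k75_A00pm_213_s3 : ∃ t, chk3 f_A00pm_213_s3 t 227 1006 3 = true :=
  ⟨(a (a (b (c (l 535250447) (l 535059215)) (c (l 535267087) (c (l 535322895) (l 535094031)))) (c (b (l 534964495) (c (l 534963215) (l 534999055))) (b (c (l 535289871) (l 535061519)) (a (l 535060751) (c (l 535299855) (l 535070735)))))) (c (b (a (l 534940943) (l 534909711)) (a (c (l 535206415) (l 534973455)) (c (l 534902799) (l 534937871)))) (b (a (c (l 535265807) (l 535037455)) (c (l 535234063) (l 535004943))) (a (c (l 535010575) (a (l 535057423) (l 535041295))) (c (l 534974735) (b (l 535279887) (l 535014927))))))), by decide +kernel⟩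

def k76_A00pm_213_s3 : ∃ t, chk3 f_A00pm_213_s3 t 227 1007 6 = true :=
  ⟨(a (a (b (l 535016207) (c (l 535017743) (l 535052047))) (b (a (l 535003151) (c (l 535243791) (l 535010319))) (c (a (b (l 535268111) (a (l 535279887) (a (l 535276559) (b (l 535271951) (c (l 535268367) (b (l 535283727) (l 535286287))))))) (a (b (l 535260175) (b (l 535267343) (c (b (l 535262735) (l 535262223)) (b (l 535279119) (l 535278607))))) (b (l 535252495) (b (l 535256847) (b (l 535259151) (l 535261199)))))) (a (b (l 535302415) (a (l 535313935) (a (l 535310607) (a (b (l 535306511) (c (l 535302671) (l 535320079))) (b (l 535305231) (c (l 535301135) (l 535318543))))))) (a (b (l 535294479) (b (l 535301135) (b (a (l 535306255) (l 535300367)) (c (l 535295503) (l 535312655))))) (b (l 535286799) (b (l 535290895) (b (l 535292943) (l 535294735))))))))) (b (a (c (b (l 535216911) (a (l 535232271) (l 535213071))) (a (l 534995215) (l 534976271))) (c (b (l 535178255) (l 535183375)) (c (l 534937871) (l 534955279)))) (c (a (b (a (b (l 535236623)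 (l 535239183)) (l 535218191)) (b (a (l 535242255) (l 535223311)) (a (c (l 535238159) (l 535254543)) (l 535227919)))) (b (a (l 535198991) (l 535180303)) (b (l 535195663) (a (l 535209743) (l 535191823))))) (a (c (b (l 534984719) (b (l 535257615) (a (l 535271183) (l 535252751)))) (b (l 535002127) (b (l 535275023) (l 535010575)))) (b (l 534971407) (b (l 534960399) (a (l 535242767) (l 535224591)))))))), by decide +kernel⟩

def k77_A00pm_213_s3 : ∃ t, chk3 f_A00pm_213_s3 t 454 1007 7 = true :=
  ⟨(a (b (c (l 535070991) (b (l 535373839) (l 535113487))) (a (c (l 535159823) (b (l 535394575) (b (l 535400975) (l 4)))) (c (l 535150863) (b (l 535385615) (b (l 535392015) (l 535194895)))))) (b (a (c (l 535325967) (c (l 535086351) (l 535173135))) (c (b (l 535311375) (l 535319311)) (b (l 535350031) (c (l 535347727) (l 535367439))))) (c (a (b (l 535338511) (a (l 535349775) (b (l 535342863) (a (l 535348495) (b (l 535344911) (c (l 535069711) (l 535356431))))))) (b (c (l 535318031) (l 535068175)) (c (b (a (l 535327759) (l 535317263))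 (a (c (l 535059471) (l 535068431)) (l 535319567))) (b (a (l 535346191) (l 535335695)) (a (a (l 535084047) (l 535345679)) (l 535337487)))))) (a (b (a (l 535378959) (a (l 535375375) (l 535373071))) (a (c (l 535377679) (l 535128591)) (a (l 535182607) (c (b (l 535369743) (c (l 535369231) (l 535110415))) (a (b (l 535389711) (b (l 535392783) (c (l 535390223) (b (a (l 535399695) (l 535398927)) (b (a (l 535400463) (l 535399695)) (c (l 535398159) (a (l 535403279) (a (b (l 535402767) (l 535403023)) (l 535402255))))))))) (b (l 535388431) (b (l 535391247) (b (a (l 535393039) (l 535392015)) (b (l 535393039) (c (l 535388431) (l 535398159))))))))))) (b (c (b (l 535353359) (l 535089167)) (a (l 535109903) (l 535101711))) (c (b (a (l 535364879) (l 535354383)) (b (a (l 535099919) (l 535356175)) (c (l 535357199) (l 535098127)))) (b (a (a (l 535385615) (l 535381007)) (l 535373327)) (a (a (b (l 535187727) (b (l 535388687) (l 535389455))) (b (l 535382799) (l 535384079))) (b (l 535375119) (l 535376911)))))))))), by decide +kernel⟩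

def k78_A00pm_213_s3 : ∃ t, chk3 f_A00pm_213_s3 t 455 1007 7 = true :=
  ⟨(b (b (a (c (l 535019791) (c (l 535048463) (l 535068175))) (c (l 535248655) (l 535017999))) (a (c (a (l 535303183) (l 535283215)) (a (l 535139855) (l 535320847))) (c (l 534984463) (c (l 535280655) (l 535031567))))) (c (a (b (c (l 535053583) (a (l 535317007) (l 535296783))) (c (b (l 535292687) (l 535028239)) (b (l 535042319) (l 535046159)))) (b (c (l 535249167) (l 534998799)) (c (l 534988559) (l 535006479)))) (a (b (b (a (l 535075855) (l 535323663)) (c (l 535058191) (l 535177999))) (c (b (l 535060751) (l 535064591)) (a (b (l 535358223) (l 535361551)) (l 535071759)))) (b (c (l 535017231) (l 535036175)) (c (l 535024655) (l 535043343)))))), by decide +kernel⟩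

def k79_A00pm_213_s3 : ∃ t, chk3 f_A00pm_213_s3 t 114 250 1 = true :=
  ⟨(b (b (a (c (c (l 16770024) (l 16770288)) (b (l 16770552) (l 16770944))) (c (c (l 16768688) (l 16768976)) (b (l 16769272) (l 16769680)))) (a (c (a (c (l 16768584) (l 16771424)) (c (l 16770592) (l 16770832))) (c (l 16771392) (b (l 16771480) (l 16771856)))) (c (a (c (l 16769944) (l 16770192)) (l 16769384)) (c (l 16770136) (l 16770440))))) (a (c (b (a (c (c (l 16772024) (l 16772112)) (l 16772248)) (c (b (l 16771256) (l 16771696)) (l 16771672))) (a (c (b (l 16772704) (c (l 16773088) (l 16773160))) (c (l 16773024) (l 16773104))) (c (b (l 16772128) (l 16772560)) (b (l 16772296) (l 16772712))))) (b (a (c (l 16772456) (l 16772688)) (c (l 16771888) (l 16772136))) (a (c (l 534804495) (b (l 16773232) (l 16773600))) (c (b (l 16772488) (l 16772880)) (b (l 16772696) (l 16773072)))))) (c (b (a (c (l 16768224) (l 16771056)) (b (l 16770064) (l 16767888))) (a (c (b (l 16771512) (l 16771952)) (b (l 16771696) (l 16772112))) (c (b (l 16770864) (l 16771320))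 (l 534523663)))) (b (a (b (l 16771208) (l 16771608)) (b (l 16770560) (l 16770968))) (a (c (b (l 16771896) (l 16772296)) (b (l 16772120) (l 16772496))) (c (l 16771472) (b (l 16771496) (l 16771888)))))))), by decide +kernel⟩

def k80_A00pm_213_s3 : ∃ t, chk3 f_A00pm_213_s3 t 115 250 1 = true :=
  ⟨(b (a (c (b (c (l 16767200) (l 16767504)) (c (l 16762920) (l 16768424))) (b (b (l 16767824) (l 16768240)) (b (l 16768672) (l 16769096)))) (c (b (l 16765752) (l 16766744)) (b (l 16766464) (c (l 16767200) (l 16767544))))) (c (a (b (c (a (l 16769480) (l 16768752)) (l 16769352)) (a (c (l 16767800) (l 16767984)) (b (l 16769584) (l 16767448)))) (b (c (l 16767648) (l 16767880)) (c (a (l 16769032) (l 16768320)) (l 16768880)))) (a (b (c (l 16769600) (b (l 16769672) (l 16770096))) (a (c (l 16770816) (l 16771048)) (b (l 16770040) (l 16770480)))) (b (c (l 16768144) (l 16768448)) (c (l 16769104) (b (l 16769128) (l 16769592))))))), by decide +kernel⟩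

def k81_A00pm_213_s3 : ∃ t, chk3 f_A00pm_213_s3 t 228 502 1 = true :=
  ⟨(c (b (a (c (b (c (l 16773512) (l 16773568)) (a (l 534975759) (l 534944271))) (b (l 534744847) (l 534756111))) (c (b (c (l 16772952) (l 16773016)) (c (l 16773376) (l 16773432))) (b (l 534678799) (l 534686735)))) (a (c (b (a (l 534989071) (l 534956047)) (a (l 535002383) (l 534967055))) (b (l 534767119) (b (l 534774799) (l 534779663)))) (c (b (a (l 534920463) (l 534883343)) (a (l 534929679) (l 534892815))) (b (l 534693903) (a (l 534989071) (l 534951183)))))) (b (a (c (b (l 16773800) (l 534827535)) (b (l 534898959) (c (l 16774280) (l 16774352)))) (c (b (l 16773272) (l 534756367)) (b (l 16773440) (c (l 16773768) (l 16773848))))) (a (c (b (l 534971407) (c (l 534827791) (l 534863887))) (b (c (l 534894607) (l 534935055)) (a (l 534940175) (l 534902031)))) (c (b (b (l 16773952) (l 16774136)) (c (l 534750735) (l 534785551))) (b (c (l 16774144) (l 534857487)) (a (l 534861583) (l 534821647))))))), by decide +kernel⟩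

def k82_A00pm_213_s3 : ∃ t, chk3 f_A00pm_213_s3 t 229 502 1 = true :=
  ⟨(c (b (a (c (b (l 16772392) (c (l 16772800) (l 16772856))) (b (l 16772536) (l 534611471))) (c (b (l 16771768) (l 16772224)) (b (l 16771920) (l 16772360)))) (c (a (b (c (l 16773232) (l 16773288)) (a (b (l 16773720) (l 16773936)) (l 535089679))) (b (a (l 16772824) (l 16772528)) (a (l 16773272) (l 16772984)))) (a (b (a (l 16773512) (l 16773232)) (a (b (l 16773824) (l 16774032)) (b (l 16773552) (l 16773760)))) (b (b (l 16772688) (l 16772912)) (c (l 16773208) (l 16773264)))))) (b (a (c (b (l 16772696) (l 16773104)) (b (l 16772880) (l 534754575))) (c (b (l 16772096) (l 16772512)) (b (l 16772288) (l 16772688)))) (c (a (b (l 534684431) (c (l 16773872) (l 16773936))) (b (l 16772936) (c (l 534601743) (l 16773392)))) (a (b (c (l 16773608) (l 16773680)) (c (l 534744591) (l 534916623))) (b (c (l 16773048) (l 16773128)) (c (l 16773456) (l 16773528))))))), by decide +kernel⟩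

def k83_A00pm_213_s3 : ∃ t, chk3 f_A00pm_213_s3 t 228 503 2 = true :=
  ⟨(c (b (a (b (a (b (l 535011599) (l 535017231)) (c (l 534963727) (l 534991119))) (a (b (l 535022863) (l 535028751)) (c (l 534975759) (l 535002383)))) (b (a (c (l 534926863) (l 534953999)) (b (l 16774416) (l 534906895))) (a (c (l 534939919) (l 534966031)) (c (l 534904847) (l 534930703))))) (a (b (a (c (l 535160335) (b (l 535048719) (l 535055887))) (c (l 534990607) (l 535016463))) (c (a (b (l 535038735) (l 535049743)) (b (l 535004431) (l 535015951))) (a (b (l 535064591) (l 535075343)) (b (l 535029775) (l 535041039))))) (b (a (c (l 534955791) (l 534981391)) (c (l 534921743) (l 534946831))) (a (c (l 534976527) (b (l 534995471) (l 535007247))) (c (l 534943247) (b (l 534961423) (l 534973711))))))) (b (a (a (b (b (l 535071759) (l 535076623)) (b (l 535081231) (l 535086351))) (b (l 535035919) (c (l 535031055) (l 535061263)))) (b (a (c (l 534982671) (l 535013391)) (c (l 534945807) (l 534976015))) (a (c (l 534994191) (l 535023887)) (c (l 534958095)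 (l 534987535))))) (a (b (c (a (b (l 535077135) (l 535084047)) (b (l 535040271) (l 535047951))) (a (b (l 535107343) (l 535113743)) (b (l 535069967) (l 535077135)))) (c (a (b (l 535092239) (l 535102479)) (b (l 535056911) (l 535067663))) (a (b (l 535121423) (a (l 535140111) (l 535122447))) (b (l 535085583) (l 535096335))))) (b (a (c (l 535142671) (b (l 535033615) (l 535041295))) (c (l 534973455) (b (l 534997775) (l 535005967)))) (a (c (b (l 535022095) (l 535033359)) (b (l 535050511) (l 535061519))) (c (b (l 534987791) (l 534999567)) (b (l 535015695) (l 535026959)))))))), by decide +kernel⟩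

def k84_A00pm_213_s3 : ∃ t, chk3 f_A00pm_213_s3 t 229 503 2 = true :=
  ⟨(b (c (a (b (a (b (l 16774152) (l 16774360)) (b (l 16773880) (l 16774104))) (a (c (l 534870543) (l 534895631)) (b (l 16774320) (l 534852879)))) (b (a (b (l 16773608) (l 16773832)) (b (l 16773328) (l 16773560))) (a (c (l 16774144) (l 16774184)) (c (l 16773880) (l 16773920))))) (a (c (b (b (l 16774080) (l 16774296)) (a (l 534922767) (l 534887951))) (b (a (l 534939407) (l 16774104)) (a (l 534951695) (l 534916367)))) (b (a (b (l 16773704) (l 16773920)) (b (l 16773424) (l 16773648))) (a (b (l 16774136) (l 534871055)) (b (l 16773872) (l 16774088)))))) (c (a (b (a (c (l 534888207) (l 534912783)) (c (l 534855183) (l 534878991))) (a (c (l 534910479) (l 534934287)) (c (l 534877967) (l 534901263)))) (b (a (c (l 534822415) (l 534845967)) (b (l 16774240) (l 534806543))) (a (c (l 534845711) (l 534868495)) (c (l 534813711) (l 534835983))))) (a (b (a (c (l 534938895) (l 534967055)) (c (l 534904847) (l 534932495))) (a (c (b (l 534953743) (l 534965775))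 (b (l 534981135) (l 534992911))) (c (l 535060495) (b (l 534947087) (l 534958863))))) (c (b (a (l 534871311) (l 534838031)) (a (l 534893071) (l 534860303))) (b (a (l 534898447) (l 534864655)) (a (b (l 534913295) (l 534925327)) (l 535154447))))))), by decide +kernel⟩

def k85_A00pm_213_s3 : ∃ t, chk3 f_A00pm_213_s3 t 228 503 3 = true :=
  ⟨(b (c (a (b (a (l 534872847) (l 534833423)) (c (b (l 534841871) (l 534846479)) (a (l 535166735) (l 534859023)))) (b (c (l 534758415) (b (l 16774736) (l 534794255))) (c (b (l 534765583) (l 534771215)) (a (l 534820623) (l 535051535))))) (a (b (a (c (l 535196431) (l 534967055)) (a (l 534916879) (l 534896655))) (c (a (l 534934543) (l 534894607)) (a (l 534972687) (l 534932239)))) (b (c (b (l 16774784) (l 534830095)) (a (l 534886159) (l 535115023))) (c (a (l 534855951) (l 534817807)) (a (l 534893071) (l 534854415)))))) (c (a (b (c (b (a (l 535139343) (l 535101455)) (a (l 535145231) (l 535108111))) (a (c (l 534898959) (l 534916111)) (b (l 535134735) (l 535141135)))) (c (b (a (l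 535152655) (l 535116303)) (a (a (l 535171087) (l 535153167)) (a (l 535135503) (l 535117583)))) (a (b (l 534917135) (b (l 535192079) (l 534928911))) (b (l 534880271) (l 534890255))))) (b (c (b (a (l 535064591) (l 535028239)) (a (l 535071759) (l 535036175))) (a (l 534832399) (l 534796047))) (c (b (a (l 535080719) (l 535045391)) (a (l 535091215) (l 535056399))) (a (b (l 535112463) (a (l 535131663) (l 535113999))) (b (l 535076879) (l 535087375)))))) (a (b (c (a (c (l 534933775) (l 534951951)) (c (l 534895631) (l 534913295))) (a (b (l 534977551) (l 534982159)) (c (l 534931727) (l 534950415)))) (c (a (b (l 534951695) (c (l 534951695) (l 534969359))) (b (l 534914575) (l 534924047))) (a (b (b (l 535254799) (l 534989839)) (c (l 534987279) (l 535005711))) (b (l 534950415) (l 534959375))))) (b (c (a (c (l 534857999) (l 534875663)) (l 534829839)) (a (c (l 534893839) (l 534912271)) (c (l 534856463) (l 534874639)))) (c (a (b (l 535146255) (l 534887695)) (b (l 535110159) (l 534851855))) (a (b (l 534913295) (l 534922767))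 (b (l 535144975) (l 534886415)))))))), by decide +kernel⟩

def k86_A00pm_213_s3 : ∃ t, chk3 f_A00pm_213_s3 t 229 503 3 = true :=
  ⟨(b (c (a (b (c (l 534684175) (c (l 16774320) (l 16774344))) (c (b (l 534692367) (l 534699023)) (b (l 16774632) (l 534731023)))) (b (c (l 534612495) (l 534644495)) (a (c (l 534911247) (l 534942735)) (c (l 534876431) (l 534907663))))) (a (b (c (b (l 16774288) (l 16774480)) (b (l 16774344) (l 16774536))) (c (a (l 534780687) (l 534743823)) (a (l 534816783) (l 534779407)))) (b (c (c (l 16773856) (l 16773880)) (b (l 16773832) (l 16774032))) (c (b (l 16774176) (l 16774384)) (a (l 534742799) (l 16774208)))))) (c (a (b (c (b (l 534706447) (a (l 535000847) (l 534966031))) (a (l 534759951) (l 534724623))) (c (b (a (l 535010319) (l 534976015)) (a (l 535021839) (l 534987279))) (a (b (l 535041551) (l 535052303)) (l 534743567)))) (b (c (a (l 534927119) (l 534893071)) (b (l 534667535) (a (l 534961935) (l 16774624)))) (c (a (b (l 534941711) (l 534953231)) (b (l 16774800) (l 534919695))) (b (a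 (l 534971663) (l 534937359)) (a (l 534982927) (l 534948879)))))) (a (b (c (a (l 534793487) (l 534757391)) (a (l 534828559) (l 534792207))) (c (a (c (l 534802703) (l 534819599)) (c (l 534767631) (l 534784015))) (a (a (l 534854415) (l 534836495)) (c (l 534800911) (l 534818319))))) (b (c (a (l 534722063) (l 534686735)) (a (l 534756111) (l 534720527))) (c (a (l 534740751) (l 534705935)) (a (l 534774031) (l 534738959))))))), by decide +kernel⟩

def k87_A00pm_213_s3 : ∃ t, chk3 f_A00pm_213_s3 t 115 502 1 = true :=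
  ⟨(c (a (b (c (a (b (l 16771128) (l 16771600)) (b (l 16770472) (l 16770968))) (b (l 16770968) (a (l 16771744) (l 16771112)))) (c (a (b (l 16772072) (a (l 16772696) (l 16772400))) (b (l 16771456) (l 16771952))) (a (b (b (l 16772088) (l 16772320)) (b (l 16772544) (l 16772776))) (b (l 16771592) (b (l 16771952) (l 16772192)))))) (b (c (a (l 16767432) (l 16769376)) (b (l 16767008) (l 16767520))) (c (a (b (l 16770824) (l 16771336)) (b (l 16770168) (l 16770704))) (a (b (l 16770960) (l 16771456)) (b (l 16770312) (l 16770832)))))) (a (b (c (a (b (l 16771472) (l 16771912)) (b (l 16770824) (l 16771288))) (a (b (l 16771672) (l 16772096)) (b (l 16771040) (l 16771480)))) (c (a (b (b (l 16772240) (l 16772464)) (c (l 16772760) (l 16772824))) (b (l 16771744) (c (l 16772168) (l 16772240)))) (a (b (l 16772512) (c (l 16772904) (l 16772976))) (b (l 16771920) (l 16772360))))) (b (c (b (l 16769832) (l 16770320)) (a (b (l 16770384) (l 16770848)) (l 16769952))) (c (a (b (l 16771120) (l 16768984)) (b (l 16770480) (l 16770984))) (a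 (b (l 16771304) (l 16771768)) (b (l 16770672) (l 16771152))))))), by decide +kernel⟩

def k88_A00pm_213_s3 : ∃ t, chk3 f_A00pm_213_s3 t 230 503 2 = true :=
  ⟨(b (c (a (b (a (l 16773160) (l 16772872)) (a (c (l 16773608) (l 16773648)) (l 534918415))) (b (c (l 16772416) (l 16772464)) (c (l 16772904) (l 16772952)))) (a (b (c (l 16773096) (b (l 16773032) (l 16773264))) (a (c (l 16773688) (l 16773736)) (c (l 16773416) (l 16773464)))) (b (c (l 16772520) (l 16772576)) (c (l 16773000) (b (l 16772928) (l 16773168)))))) (c (a (b (a (c (l 16774072) (l 16774104)) (c (l 16773808) (l 16773840))) (a (c (l 534782223) (l 534803983)) (c (l 16774280) (l 534772239)))) (b (c (l 16773400) (c (l 16773424) (l 16773448))) (a (c (l 16774016) (l 16774048)) (c (l 16773752) (l 16773784))))) (a (b (a (c (l 534805007) (l 534831119)) (c (l 16773880) (l 534798095))) (a (c (l 534827791) (l 534853135)) (c (l 534795279) (l 534820367)))) (b (a (c (l 16773608) (l 16773656)) (c (l 16773336) (l 16773384))) (a (b (l 16773984) (l 534781455)) (b (l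 16773720) (l 16773960))))))), by decide +kernel⟩

def k89_A00pm_213_s3 : ∃ t, chk3 f_A00pm_213_s3 t 230 503 3 = true :=
  ⟨(b (c (a (b (c (l 534542607) (l 534573839)) (c (b (l 16773536) (l 16773760)) (b (l 16773592) (l 16773816)))) (b (c (l 16772632) (l 16772704)) (b (c (l 16772984) (l 16773048)) (c (l 16773216) (l 16773272))))) (a (b (c (l 16773328) (l 16773400)) (c (c (l 16773744) (l 16773776)) (b (l 16773712) (l 16773920)))) (b (c (l 16772768) (l 16772840)) (c (l 16773216) (l 16773280))))) (c (a (b (c (a (l 534859279) (l 534825743)) (b (l 534598671) (l 534607887))) (c (a (b (l 16774552) (l 16774768)) (l 534846991)) (b (a (l 16774592) (l 16774344)) (a (l 534914831) (l 16774560))))) (b (b (c (l 16773448) (l 16773504)) (c (l 16773680) (l 16773728))) (c (a (l 534814223) (l 534781711)) (b (l 534551311) (l 534562831))))) (a (a (b (c (l 534651919) (l 534685455)) (c (l 534671631) (l 534704143))) (b (c (l 534617615) (l 534650639)) (c (l 534637583) (l 534669583)))) (b (c (c (l 16773656) (l 16773680)) (b (l 16773616)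 (l 16773832))) (a (c (l 534603535) (l 534635279)) (c (l 534570255) (l 16774040))))))), by decide +kernel⟩

def k90_A00pm_213_s3 : ∃ t, chk3 f_A00pm_213_s3 t 231 503 1 = true :=
  ⟨(c (b (c (a (b (l 16771840) (c (l 16772328) (l 16772376))) (b (l 16771232) (l 16771752))) (a (b (c (l 16771928) (l 16771984)) (c (l 16772424) (l 16772480))) (b (l 16771344) (c (l 16771832) (l 16771888))))) (c (a (a (b (l 16773000) (l 534869519)) (b (l 16772712) (l 534637839))) (b (c (l 16772264) (l 16772304)) (c (l 16772784) (l 16772824)))) (a (b (c (l 16772920) (b (l 16772848) (l 16773088))) (a (c (l 16773552) (l 16773592)) (c (l 16773280) (l 16773320)))) (b (c (l 16772352) (l 16772400)) (c (l 16772864) (c (l 16772896) (l 16772920))))))) (b (c (a (b (c (l 16772048) (l 16772120)) (c (l 16772536) (l 16772592))) (b (c (l 16771448) (l 16771520)) (c (l 16771952) (l 16772016)))) (a (b (c (l 16772192) (l 16772272)) (c (b (l 16772544) (l 16772776)) (l 16772728))) (b (l 16771632) (c (l 16772080) (l 16772152))))) (a (c (b (b (c (l 16772896)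 (l 16772952)) (c (l 16773136) (l 16773192))) (b (c (l 16773376) (l 16773424)) (c (l 16773624) (l 534497295)))) (b (c (l 16773128) (b (l 16773072) (l 16773304))) (a (c (l 534536975) (l 534567695)) (b (l 16773376) (l 534524175))))) (c (b (c (l 16772448) (b (l 16772384) (l 16772632))) (b (c (l 16772824) (l 16772880)) (c (l 16773080) (l 16773128)))) (b (c (b (l 16772448) (l 16772688)) (l 16772632)) (c (l 16773056) (b (l 16772992) (l 16773232)))))))), by decide +kernel⟩

def k91_A00pm_213_s3 : ∃ t, chk3 f_A00pm_213_s3 t 29 250 2 = true :=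
  ⟨(c (b (a (a (b (l 16763080) (l 16764208)) (b (l 16759616) (l 16755632))) (a (l 16751560) (a (l 16754232) (a (l 16753072) (b (a (l 16741336) (l 16751944)) (l 16742624)))))) (a (a (a (b (l 16766120) (l 16767224)) (b (l 16764544) (l 16765728))) (a (b (l 16762944) (l 16764192)) (b (l 16761328) (l 16762640)))) (a (b (l 16758896) (l 16755056)) (a (l 16757192) (l 16755616))))) (a (a (b (b (l 16763400) (l 16764488)) (a (b (l 16766360) (l 16762184)) (b (l 16764792) (l 16765936)))) (b (b (l 16759936) (l 16761160)) (b (l 16762392) (a (l 16764400) (l 16762848))))) (a (b (l 16757088) (b (l 16748640) (l 16755248))) (b (a (l 16754496) (b (a (l 16752568) (a (l 16741592) (l 16752160))) (l 16743312))) (b (l 16755864) (l 16757344)))))), by decide +kernel⟩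

def k92_A00pm_213_s3 : ∃ t, chk3 f_A00pm_213_s3 t 29 250 3 = true :=
  ⟨(c (c (b (a (a (b (l 16763672) (l 16764728)) (l 16760808)) (a (l 16757344) (a (l 16754736) (a (l 16753568) (b (l 16741832) (l 16753544)))))) (a (a (b (l 16765800) (a (l 16767608) (l 16766112))) (b (l 16762608) (l 16763824))) (a (b (l 16759328) (l 16760672)) (l 16756776)))) (a (a (b (b (l 16763872) (l 16764904)) (a (b (l 16766712) (l 16767728)) (b (l 16765152) (l 16766248)))) (b (l 16760992) (b (l 16762760) (l 16763952)))) (a (b (l 16757528) (b (l 16759480) (l 16760800))) (b (a (l 16754920) (b (a (l 16753000) (l 16741992)) (l 16743680))) (l 16756904))))) (c (a (a (b (b (l 16764080) (l 16765080)) (a (b (l 16766864) (l 16767864)) (b (l 16765312) (l 16766384)))) (a (b (l 16762040) (l 16764288)) (b (l 16760320) (l 16762704)))) (a (b (l 16757728) (b (l 16759648) (l 16760944))) (b (a (l 16755112) (b (a (l 16753200) (l 16742168)) (l 16743864))) (l 16757056)))) (c (b (a (a (b (l 16764240) (l 16765224)) (l 16761352)) (a (l 16757888) (a (l 16755264)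 (b (a (l 16753368) (l 16742312)) (l 16744000))))) (a (a (a (b (l 16766992) (l 16767976)) (l 16765968)) (b (l 16763056) (l 16764216))) (a (b (l 16759776) (l 16761064)) (l 16757168)))) (b (a (a (b (l 16764352) (l 16765328)) (l 16761464)) (a (l 16758000) (a (l 16755376) (b (a (l 16753480) (l 16731928)) (l 16744104))))) (a (a (b (l 16766320) (a (l 16768048) (l 16766576))) (b (l 16763152) (l 16764296))) (a (b (l 16759872) (l 16761144)) (l 16757248))))))), by decide +kernel⟩

def k93_A00pm_213_s3 : ∃ t, chk3 f_A00pm_213_s3 t 116 502 1 = true :=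
  ⟨(a (c (b (c (a (l 16768688) (l 16767984)) (l 16768512)) (a (c (b (l 16769504) (l 16770056)) (b (l 16769656) (l 16770192))) (c (l 16769112) (l 16766632)))) (c (b (b (l 16768448) (l 16763728)) (b (l 16769496) (l 16770024))) (b (b (l 16768688) (l 16769192)) (b (l 16769696) (c (l 16770160) (l 16770256)))))) (c (b (a (c (l 16767264) (l 16767440)) (c (l 16766544) (l 16766720))) (a (c (l 16768432) (l 16768576)) (c (l 16767744) (l 16767888)))) (b (c (l 16767296) (l 16767536)) (a (c (l 16766128) (l 16768952)) (c (l 16768064) (l 16768272)))))), by decide +kernel⟩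

def k94_A00pm_213_s3 : ∃ t, chk3 f_A00pm_213_s3 t 116 503 1 = true :=
  ⟨(a (c (b (a (c (b (l 16770600) (l 16771144)) (b (l 16770720) (l 16771256))) (c (c (l 16770216) (l 16770272)) (b (l 16770088) (l 16770632)))) (a (c (b (l 16771688) (c (l 16772216) (l 16772248))) (b (c (l 16771760) (l 16771816)) (c (l 16772296) (l 16772336)))) (c (b (l 16771088) (l 16771648)) (b (l 16771184) (c (l 16771712) (l 16771760)))))) (b (a (c (b (l 16770864) (c (l 16771344) (l 16771416))) (b (l 16768400) (l 16771528))) (c (b (l 16770232) (l 16770768)) (b (l 16770400) (l 16768296)))) (a (c (b (c (l 16771872) (l 16771928)) (c (l 16772392) (b (l 16772312) (l 16772568)))) (b (c (l 16771992) (l 16772064)) (c (b (l 16772376) (l 16772624)) (l 16772560)))) (c (b (c (l 16771272) (l 16771336)) (c (l 16771808) (l 16771864))) (b (c (l 16771400) (l 16771472)) (c (l 16771928) (b (l 16771864) (l 16772120)))))))) (c (b (a (c (c (l 16769568) (l 16769624)) (b (l 16769432) (l 16770000))) (c (l 16766320) (b (l 16768768) (l 16769360)))) (a (c (b (l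 16770472) (l 16771048)) (b (l 16770568) (c (l 16771112) (l 16771160)))) (c (b (l 16769840) (l 16770432)) (b (l 16769944) (l 16770528))))) (b (a (c (b (l 16769584) (l 16770136)) (b (l 16769760) (l 16770296))) (c (b (l 16768928) (l 16769496)) (b (l 16769104) (l 16769656)))) (a (c (b (l 16768072) (c (l 16771216) (l 16771272))) (b (c (l 16770792) (l 16770872)) (c (l 16771336) (l 16771408)))) (c (b (l 16770072) (c (l 16770608) (l 16770672))) (b (l 16767592) (c (l 16770736) (l 16770808)))))))), by decide +kernel⟩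

def k95_A00pm_213_s3 : ∃ t, chk3 f_A00pm_213_s3 t 117 251 1 = true :=
  ⟨(c (c (a (b (b (l 16765440) (b (l 16766384) (l 16767008))) (b (c (l 16767920) (l 16765352)) (b (l 16766256) (c (l 16769480) (l 16769520))))) (b (b (l 16763952) (l 16765272)) (b (b (l 16766256) (l 16766912)) (b (l 16767568) (l 16768224))))) (a (b (b (l 16765624) (b (l 16766536) (l 16767152))) (b (b (l 16767760) (l 16765752)) (a (b (l 16769304) (l 16769904)) (b (l 16768656) (l 16769280))))) (b (b (l 16764128) (l 16760176)) (b (b (l 16766384) (l 16767032)) (a (b (l 16768000) (l 16768640)) (l 16765040)))))) (a (c (b (b (l 16760592) (l 16767024)) (b (a (b (l 16768256) (l 16768848)) (l 16765256)) (a (b (l 16769432) (l 16770024)) (b (l 16768784) (l 16769392))))) (b (b (l 16766080) (b (l 16766944) (l 16767520))) (b (b (l 16768104) (l 16768680)) (a (b (l 16769584) (l 16767536)) (b (l 16768936) (l 16769528)))))) (c (b (b (l 16764344) (b (l 16765280) (l 16765912))) (b (b (l 16766544) (l 16767176)) (b (l 16765184) (a (l 16768752) (l 16768104)))))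 (b (b (l 16764592) (l 16765808)) (b (c (l 16766992) (l 16767088)) (a (b (l 16768288) (l 16768896)) (b (l 16767624) (l 16768248)))))))), by decide +kernel⟩

def k96_A00pm_213_s3 : ∃ t, chk3 f_A00pm_213_s3 t 59 251 1 = true :=
  ⟨(a (a (b (b (c (c (l 16762448) (l 16762616)) (b (l 16762624) (l 16758032))) (c (c (l 16763824) (l 16763968)) (c (l 16764144) (l 16764360)))) (c (b (c (l 16765208) (b (l 16764984) (l 16765664))) (a (c (l 16766912) (l 16767008)) (c (l 16766248) (l 16766336)))) (b (c (b (l 16765136) (l 16765800)) (l 16765648)) (a (c (l 16764504) (b (l 16766952) (l 16767592))) (b (l 16763576) (l 16764240)))))) (b (c (b (l 16761016) (c (l 16762376) (l 16762512))) (b (l 16756176) (b (l 16762440) (l 16757872)))) (b (c (c (l 16763816) (l 16763920)) (c (l 16758816) (l 16758992))) (c (c (l 16762632) (b (l 16764984) (l 16765688))) (a (c (l 16765784) (l 16765928)) (c (l 16765104) (l 16765248))))))) (b (a (c (b (l 16759496) (l 16755736)) (b (l 16754640) (a (l 16761664) (l 16760928)))) (c (b (l 16757992) (l 16759528))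 (b (l 16758352) (l 16754576)))) (a (c (a (b (l 16762808) (l 16761656)) (b (l 16762112) (l 16763608))) (a (b (l 16757832) (c (l 16764424) (l 16764560))) (b (l 16762360) (c (l 16763744) (l 16763880))))) (c (b (l 16755824) (c (l 16762576) (l 16762632))) (a (b (l 16761656) (l 16757880)) (b (l 16760944) (l 16762440))))))), by decide +kernel⟩

def k97_A00pm_213_s3 : ∃ t, chk3 f_A00pm_213_s3 t 112 252 1 = true :=
  ⟨(l 4), by decide +kernel⟩

def k98_A00pm_213_s3 : ∃ t, chk3 f_A00pm_213_s3 t 113 252 2 = true :=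
  ⟨(b (a (l 4) (a (c (b (a (l 4) (b (b (b (c (a (a (l 4) (a (c (l 535161103) (l 535173903)) (c (l 535158287) (l 535171087)))) (c (l 535147535) (l 535160335))) (a (a (l 4) (b (c (l 535184143) (l 535197967)) (l 4))) (c (l 535173647) (l 535187471)))) (a (l 4) (c (l 535161615) (l 535187983)))) (l 4)) (l 4))) (l 4)) (b (a (l 4) (b (b (b (b (c (a (a (l 4) (a (c (l 535213583) (l 535228175)) (c (l 535211023) (l 535225615)))) (c (l 535199759) (l 535214351))) (a (a (l 4) (c (a (l 535243535) (l 535240719)) (a (l 535258895) (a (l 535257103) (l 535255055))))) (c (l 535229455) (l 535244815)))) (a (l 4) (c (l 535210511) (l 535240463)))) (a (l 4) (c (l 535216143) (l 535246095)))) (l 4)) (l 4))) (l 4))) (b (c (b (c (a (b (b (l 535128079) (l 535135759)) (l 535147535)) (b (l 535097871) (l 535113487))) (a (b (b (l 535154447) (l 535161871)) (l 535173391)) (b (l 535123727) (l 535138831)))) (a (l 4) (b (c (l 535129359) (l 535154447)) (l 4)))) (a (b (c (b (b (a (l 535191055) (l 535173391)) (l 535189519)) (a (l 535209743) (l 535192079)))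 (b (b (a (l 535221007) (l 535203087)) (a (l 535228175) (l 535210255))) (a (l 535239183) (l 535221263)))) (l 4)) (b (b (c (a (l 535159823) (l 535142159)) (a (l 535189007) (l 535171343))) (c (a (l 535174415) (l 535157007)) (a (l 535203343) (l 535185679)))) (b (a (c (l 535189775) (l 535218447)) (c (l 535172367) (l 535200783))) (l 4))))) (l 4)))) (l 4)), by decide +kernel⟩

def k99_A00pm_213_s3 : ∃ t, chk3 f_A00pm_213_s3 t 226 504 3 = true :=
  ⟨(l 4), by decide +kernel⟩

def k100_A00pm_213_s3 : ∃ t, chk3 f_A00pm_213_s3 t 227 504 6 = true :=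
  ⟨(a (b (a (l 4) (b (c (b (b (b (a (a (l 4) (c (a (l 535275023) (a (l 535272975) (l 535270927))) (a (c (l 535287311) (l 535295503)) (c (l 535284495) (l 535292943))))) (c (l 535260687) (l 535277071))) (a (l 4) (l 535272207))) (a (l 4) (l 535277583))) (l 4)) (b (b (b (a (a (l 4) (c (a (c (l 535303951) (l 535312655)) (c (l 535301135) (l 535309839))) (a (c (l 535321359) (l 535330063)) (c (l 535318543) (l 535327247))))) (c (l 535293967) (l 535311119))) (a (l 4) (l 535305743))) (a (l 4) (l 535310863))) (l 4))) (l 4))) (l 4)) (b (b (c (b (a (b (a (c (l 535244303) (l 535260687)) (l 535234319)) (a (l 535259407) (l 535241231))) (a (l 535219983) (l 535202063))) (a (a (c (l 535262223) (l 535278351)) (l 535251983)) (a (l 535234063) (l 535216143)))) (b (a (b (b (a (l 535283983) (l 535265807)) (l 535009807)) (a (l 535292431) (l 535274255))) (b (l 534971663) (l 534978319))) (a (a (c (l 535294735) (l 535311631)) (l 535016207)) (a (l 535266319) (l 535248143))))) (a (l 4) (b (c (a (c (l 535240975) (l 535256591)) (l 535230735))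 (c (a (l 535272463) (l 535254287)) (l 535011343))) (l 4)))) (l 4))), by decide +kernel⟩

def k101_A00pm_213_s3 : ∃ t, chk3 f_A00pm_213_s3 t 227 504 7 = true :=
  ⟨(a (b (c (a (l 4) (b (b (b (b (a (a (l 4) (c (a (c (l 535338767) (l 535347983)) (c (l 535335951) (l 535345167))) (c (a (l 535356943) (l 535354127)) (a (l 535366159) (l 535363343))))) (c (l 535328783) (l 535346959))) (a (l 4) (l 535341071))) (a (l 4) (l 535345935))) (l 4)) (l 4))) (b (a (l 4) (a (b (c (a (l 4) (b (b (c (a (l 535375375) (l 535104271)) (a (b (l 535384079) (l 4)) (a (c (l 535380495) (l 535116815)) (l 535380751)))) (l 4)) (l 4))) (a (l 4) (b (c (b (b (a (b (l 535393295) (l 4)) (a (c (l 535389455) (b (l 535393807) (l 535394575))) (l 535389455))) (a (l 4) (a (l 4) (l 535390991)))) (l 4)) (b (b (b (a (l 535403023) (a (c (a (l 535398927) (l 535398159)) (a (b (a (l 535403791) (l 535403535)) (c (l 535402767) (a (l 4) (l 535405071)))) (b (a (l 535403279) (l 535402511)) (l 535403023)))) (b (l 535398415) (l 535398927)))) (a (l 4) (a (a (l 4)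 (l 535401231)) (l 535399439)))) (a (l 4) (a (l 4) (l 535400719)))) (l 4))) (l 4)))) (l 4)) (b (b (b (b (b (c (l 535364111) (l 535383055)) (l 535374351)) (l 535375631)) (l 535377935)) (l 535382799)) (l 4)))) (l 4))) (l 4)) (b (a (b (c (b (b (a (l 535052303) (l 535302159)) (l 535049743)) (a (l 535102735) (l 535050511))) (b (b (c (l 535070479) (l 535089167)) (l 535086095)) (c (l 535086863) (l 535105551)))) (l 4)) (b (b (c (c (l 535000847) (l 535018255)) (c (l 535036431) (l 535054863))) (c (c (l 535014159) (l 535031567)) (c (l 535049487) (l 535067919)))) (b (a (c (l 535045903) (l 535081487)) (c (l 535027471) (l 535062799))) (l 4)))) (l 4))), by decide +kernel⟩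

def k102_A00pm_213_s3 : ∃ t, chk3 f_A00pm_213_s3 t 113 505 3 = true :=
  ⟨(l 4), by decide +kernel⟩

def k103_A00pm_213_s3 : ∃ t, chk3 f_A00pm_213_s3 t 56 253 1 = true :=
  ⟨(l 4), by decide +kernel⟩

def k104_A00pm_213_s3 : ∃ t, chk3 f_A00pm_213_s3 t 228 504 2 = true :=
  ⟨(b (b (c (a (a (c (b (l 535064079) (l 535079439)) (b (l 535089167) (l 535104527))) (c (l 535038479) (b (l 535055119) (l 535070223)))) (a (c (l 535005199) (b (l 535021583) (l 535036431))) (c (l 534972175) (l 534995727)))) (a (c (a (b (l 535116303) (l 535130895)) (b (l 535081743) (l 535096335))) (a (b (a (l 535153679) (l 535136015)) (a (l 535168015) (l 535150607))) (b (l 535109903) (l 535124239)))) (c (a (b (l 535047439) (l 535062287)) (b (l 535013391) (l 535028239))) (a (b (l 535075087) (l 535089423)) (b (l 535040783) (l 535055119)))))) (c (a (a (c (l 535103759) (b (l 535119887) (l 535136015))) (c (l 535070223) (b (l 535085839) (l 535101967)))) (a (c (l 535036943) (b (l 535052047) (l 535068175))) (c (l 535003663) (l 535295247)))) (a (c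 (a (b (l 535146255) (l 535296271)) (b (l 535111695) (l 535127311))) (a (b (a (l 535183119) (l 535165455)) (a (l 535198479) (l 535180815))) (b (a (l 535147791) (l 535130383)) (a (l 535163151) (l 535145743))))) (c (a (b (l 535077391) (l 535093007)) (b (l 535043343) (l 535058959))) (a (b (l 535104527) (l 535254031)) (b (l 535069967) (l 535085327))))))) (c (a (b (a (l 4) (c (l 535103759) (b (l 535118351) (l 4)))) (l 4)) (b (a (c (l 535070223) (b (l 535084559) (l 535101455))) (c (l 535037199) (b (l 535051023) (l 535067663)))) (a (l 4) (c (l 535072527) (b (l 535085071) (l 4)))))) (a (a (l 4) (b (b (c (l 535143439) (a (l 535179023) (l 535161615))) (l 4)) (l 4))) (a (b (c (b (l 535109135) (l 535125775)) (b (a (l 535144207) (l 535126799)) (a (l 535160335) (l 535143183)))) (l 4)) (b (c (b (l 535075087) (l 535091727)) (b (l 535100943) (l 535117327))) (b (c (l 535108623) (a (l 535142415) (l 535125263))) (l 4))))))), by decide +kernel⟩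

def k105_A00pm_213_s3 : ∃ t, chk3 f_A00pm_213_s3 t 229 504 2 = true :=
  ⟨(b (c (a (b (a (c (l 534939407) (l 534962447)) (c (l 534906895) (l 534929679))) (a (c (l 534970895) (l 534993423)) (c (l 534938383) (l 534960399)))) (b (a (c (l 534874639) (l 534896911)) (c (l 534842895) (l 534864655))) (a (c (l 534906127) (l 534927887)) (c (l 534874127) (l 534895375))))) (a (b (a (c (b (l 534979855) (l 534994447)) (b (l 535006479) (l 535020815))) (c (l 535222543) (b (l 534972687) (l 534987023)))) (a (c (b (l 535009551) (l 535025167)) (b (l 535035663) (l 535051023))) (c (b (l 534976271) (l 534991887)) (b (l 535001871) (l 535016975))))) (c (b (a (l 534920975) (l 534887951)) (a (l 535219471) (l 534918159))) (b (a (b (l 534939151) (l 534953487)) (b (l 534905871) (l 534920207))) (a (b (l 534968079) (l 534983439)) (b (l 534934799) (l 534949903))))))) (c (a (b (a (c (l 535004431) (l 535026191)) (c (l 534971663) (l 534993167))) (a (c (l 535039503) (b (l 535051791) (l 535069455))) (c (l 535006991) (l 535027727)))) (b (a (c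 (l 534939407) (l 534960399)) (c (l 534907407) (l 534927887))) (a (c (l 534974735) (l 534994959)) (c (l 534942479) (l 534962447))))) (a (b (a (c (b (l 535041295) (l 535057935)) (b (l 535066639) (l 535083023))) (c (b (l 535007759) (l 535024399)) (b (l 535032847) (l 535048975)))) (c (a (b (l 535074831) (l 535092239)) (b (l 535041295) (l 535058703))) (a (b (l 535099663) (l 535116815)) (b (l 535065615) (l 535082767))))) (a (b (c (b (l 534974479) (l 534991119)) (b (l 534999055) (l 535015183))) (c (b (l 535008015) (l 535025423)) (b (l 535031823) (l 535048975)))) (b (c (l 534950159) (b (l 534965775) (l 534981903))) (c (b (l 534974991) (l 534992399)) (b (l 534998287) (l 535015439)))))))), by decide +kernel⟩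

def k106_A00pm_213_s3 : ∃ t, chk3 f_A00pm_213_s3 t 228 504 6 = true :=
  ⟨(b (a (b (c (b (a (a (l 535184143) (l 535166223)) (a (l 535148559) (l 535130895))) (a (a (l 535198223) (l 535180303)) (a (l 535162639) (l 535144975)))) (a (b (a (l 535216399) (l 535198223)) (b (l 534949135) (l 534956047))) (b (l 534903055) (l 534916623)))) (a (c (b (a (l 535212815) (l 535194895)) (a (l 535227919) (l 535209999))) (b (b (l 534963215) (l 534970383)) (c (a (l 535251215) (l 535233039)) (l 534989583)))) (c (b (a (l 535177231) (l 535159567)) (a (l 535192335) (l 535174671))) (b (a (l 535208207) (l 535190287)) (a (l 535223055) (l 535205135)))))) (b (a (c (b (l 535104527) (a (l 535127311) (l 535109903))) (a (l 534883343) (b (l 535126799) (l 535140623)))) (c (b (l 535069711) (l 535083791)) (b (l 535100431) (a (l 535122959) (l 535105295))))) (a (c (b (a (l 535141903) (l 535124495)) (a (l 535157007) (l 535139343))) (b (l 534895119) (a (l 535187215) (l 535169295)))) (c (b (l 535232527) (a (l 535121935) (l 535104527))) (b (a (l 535137039)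 (l 535119375)) (a (l 535151631) (l 535133967))))))) (a (b (a (l 4) (b (c (a (l 535207695) (l 535190031)) (a (c (l 535230479) (l 535246095)) (l 535220239))) (l 4))) (l 4)) (b (a (c (b (a (l 535172367) (l 535154703)) (a (l 535188239) (l 535170831))) (b (a (l 535202319) (l 535184399)) (a (l 535217935) (l 535200015)))) (c (b (a (l 535137295) (l 535119887)) (a (l 535153167) (l 535135759))) (b (a (l 535166735) (l 535149071)) (a (l 535182351) (l 535164687))))) (a (l 4) (b (a (c (l 535169551) (l 535198223)) (c (l 535152143) (l 535180559))) (l 4)))))), by decide +kernel⟩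

def k107_A00pm_213_s3 : ∃ t, chk3 f_A00pm_213_s3 t 228 504 7 = true :=
  ⟨(b (a (b (a (c (b (l 534972687) (c (l 534977551) (l 534994959))) (b (l 535008527) (l 535122191))) (c (b (l 534936335) (l 534949647)) (b (l 534971663) (l 534984463)))) (a (c (b (c (l 534991631) (l 535008527)) (a (l 535023631) (l 535005199))) (b (c (l 535026191) (l 535043855)) (a (l 535058191) (l 535039503)))) (c (b (c (l 534955279) (l 534972175)) (c (l 534969615) (l 534986255))) (b (l 535098639) (c (l 535003151) (l 535020815)))))) (b (a (c (b (l 534900239) (l 534913551)) (b (l 534935055) (l 534947855))) (c (a (l 534880271) (l 534862351)) (b (l 534898703) (l 534911503)))) (a (c (b (l 534927375) (c (l 534933519) (l 534949903))) (b (l 534961423) (c (l 534966799) (l 534983951)))) (c (b (l 534891535) (l 534905871)) (b (l 534925071) (l 534938895)))))) (a (b (b (a (l 4) (c (a (l 535001871) (l 534983439)) (a (l 535035407) (l 535016975)))) (l 4)) (l 4)) (b (a (c (b (c (l 534948367) (l 534964495)) (c (l 534963727) (l 534979599))) (b (c (l 534981135)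 (l 534998287)) (a (l 535013647) (l 534995215)))) (c (b (c (l 534912527) (l 534928399)) (c (l 534927887) (l 534943503))) (b (l 535020303) (c (l 534959887) (l 534976271))))) (b (a (l 4) (c (c (l 534943503) (l 534959119)) (c (l 534975247) (l 534991631)))) (l 4))))), by decide +kernel⟩

def k108_A00pm_213_s3 : ∃ t, chk3 f_A00pm_213_s3 t 229 1008 3 = true :=
  ⟨(a (c (b (a (c (b (l 535035151) (l 535048975)) (b (l 535065359) (l 535078927))) (c (b (l 535000591) (l 535014671)) (b (l 535030543) (l 535044111)))) (a (c (b (l 535063567) (l 535078415)) (c (a (l 535101711) (l 535084303)) (l 534839823))) (c (b (l 535029263) (l 535044111)) (b (l 535058191) (l 535206927))))) (b (a (c (a (l 534844687) (l 534827023)) (a (l 534878223) (l 534860303))) (c (a (l 534809359) (l 534791695)) (a (l 534842383) (l 534824719)))) (a (c (b (l 534855951) (l 534870287)) (b (l 534888975) (l 534902799))) (c (a (l 534836751) (l 534819087)) (b (l 534853135) (l 534866959)))))) (c (b (a (c (b (l 534966799) (l 534980623)) (b (l 534995983) (l 535009551)))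 (c (b (l 534933007) (l 534946831)) (b (l 534961679) (l 534975247)))) (a (c (b (l 534994959) (l 535010063)) (b (l 535023631) (l 535038223))) (c (b (l 534961167) (l 534976015)) (b (l 534989327) (l 535003919))))) (b (a (c (l 534765583) (l 534798351)) (c (l 534731023) (l 534763023))) (a (c (a (l 534801679) (l 534784015)) (a (l 534833679) (l 534816015))) (c (a (l 534766863) (l 534749455)) (a (l 534798351) (l 534780687))))))), by decide +kernel⟩

def k109_A00pm_213_s3 : ∃ t, chk3 f_A00pm_213_s3 t 229 1009 3 = true :=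
  ⟨(a (c (b (a (c (b (a (l 535102479) (l 535085327)) (a (l 535118351) (l 535101199))) (b (a (l 535131407) (l 535113999)) (a (l 535147023) (l 535129359)))) (c (b (l 535059471) (l 535075343)) (b (a (l 535096591) (l 535079183)) (a (l 535111951) (l 535094543))))) (a (c (b (a (l 535134735) (l 535117327)) (a (l 535151631) (l 535134223))) (b (a (l 535162895) (l 535145487)) (a (l 535179535) (l 535161871)))) (c (b (a (l 535100175) (l 535083023)) (a (l 535117071) (l 535099919))) (b (a (l 535128079) (l 535110415)) (a (l 535144463) (l 535127055)))))) (b (a (c (b (l 534884879) (l 534933519)) (b (l 534917135) (l 534999055))) (c (b (l 534849551) (l 534864655)) (b (l 534881295) (l 534895887)))) (a (c (b (c (l 534907919) (l 534923279)) (c (l 534924303) (l 534939407))) (b (c (l 534939151) (l 534955279)) (c (l 534955023) (l 534970895)))) (c (b (l 534880271) (b (l 534892047) (l 534900239))) (b (l 534978319) (c (l 534919183) (l 534934799))))))) (c (b (a (c (b (l 535025167) (l 535041039)) (b (l 535053071) (a (l 535077135) (l 535059983))))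 (c (b (l 534991375) (l 535007247)) (b (l 535018767) (l 535034383)))) (a (c (b (l 535057423) (l 535074063)) (b (a (l 535093263) (l 535075855)) (a (l 535109647) (l 535092239)))) (c (b (l 535023375) (l 535040271)) (b (l 535050255) (a (l 535075087) (l 535057935)))))) (b (a (c (b (l 534814479) (l 534829583)) (b (l 534845711) (l 534860303))) (c (a (l 534796047) (l 534778639)) (b (l 534810383) (l 534824975)))) (a (c (b (l 534844943) (l 534861071)) (b (l 534875663) (l 534958351))) (c (b (l 534810127) (l 534826255)) (b (l 534840335) (l 534855951))))))), by decide +kernel⟩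

def k110_A00pm_213_s3 : ∃ t, chk3 f_A00pm_213_s3 t 228 505 1 = true :=
  ⟨(l 4), by decide +kernel⟩

def k111_A00pm_213_s3 : ∃ t, chk3 f_A00pm_213_s3 t 229 505 2 = true :=
  ⟨(c (b (a (b (a (c (l 535076879) (b (l 535087887) (l 4))) (c (l 535044111) (l 535064335))) (l 4)) (b (a (c (l 535011855) (l 535031567)) (c (l 534979599) (l 534998799))) (a (c (l 535051023) (l 535070223)) (c (l 535018767) (l 535037455))))) (l 4)) (b (a (b (b (a (c (l 535110415) (l 535134479)) (c (l 535076623) (l 535100431))) (a (l 4) (c (l 535095311) (l 535118607)))) (l 4)) (b (a (c (b (l 535043343) (l 535061775)) (b (l 535066639) (l 535084815))) (c (b (l 535010319) (l 535028751)) (b (l 535033103) (l 535051279)))) (b (a (c (l 535080719) (l 535103503)) (c (l 535047695) (l 535069711))) (a (l 4) (c (l 535067151) (l 535088911)))))) (l 4))), by decide +kernel⟩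

def k112_A00pm_213_s3 : ∃ t, chk3 f_A00pm_213_s3 t 229 505 3 = true :=
  ⟨(b (a (b (b (b (c (a (c (l 535155727) (a (l 4) (l 535174415))) (c (l 535121167) (l 535148303))) (a (c (l 534944015) (l 535042063)) (c (l 534908687) (l 534938895)))) (a (l 4) (c (c (l 535130127) (l 535157007)) (c (l 534917135) (l 534947087))))) (b (a (l 4) (c (c (l 535138831) (l 535299855)) (c (l 534925583) (l 534955535)))) (l 4))) (l 4)) (c (b (a (c (b (l 535091471) (l 535243535)) (b (a (l 535126543) (l 535109391)) (a (l 535143951) (l 535126799)))) (c (b (l 535057423) (l 535075343)) (b (a (l 535091983) (l 535074831)) (a (l 535109391) (l 535092239))))) (a (a (l 4) (b (c (l 535119119) (l 535144719)) (l 4))) (c (b (l 535093519) (l 535112463)) (b (a (l 535127567) (l 535110159)) (a (l 4) (l 535128847)))))) (b (a (c (b (l 534877711) (b (l 534890255) (l 534898959))) (b (c (l 534899983) (l 534915087)) (c (l 534916623) (l 534931727)))) (c (b (l 534842639) (l 534859791)) (b (l 534872079) (c (l 534881295) (l 534896399))))) (b (a (a (l 4) (c (l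 535172111) (l 535201039))) (c (l 534877455) (c (l 534898703) (l 534913295)))) (a (l 4) (c (l 534895631) (c (l 534916623) (l 534931215)))))))) (l 4)), by decide +kernel⟩

def k113_A00pm_213_s3 : ∃ t, chk3 f_A00pm_213_s3 t 230 504 2 = true :=
  ⟨(b (a (c (b (a (c (l 534811151) (l 534832399)) (c (l 534779919) (l 534800655))) (a (c (l 534842639) (l 534863119)) (c (l 534811151) (l 534831375)))) (c (b (a (l 534855439) (l 534823183)) (a (l 534885647) (l 534853135))) (b (a (l 534880271) (l 534847503)) (a (b (l 534901775) (l 534916879)) (l 534876687))))) (c (b (a (b (l 16774392) (l 534765839)) (b (l 16774128) (l 16774376))) (a (c (l 534779919) (l 534799631)) (c (l 534749199) (l 534768399)))) (c (b (a (l 534791183) (l 534759439)) (a (l 534821135) (l 534789391))) (b (a (l 534814991) (l 534782991)) (a (l 534844175) (l 534812175)))))) (a (c (b (a (c (l 534875663) (l 534895631)) (c (l 534844175) (l 534863887))) (a (c (l 534910735) (l 534930191)) (c (l 534879247) (l 534898191)))) (c (b (a (l 534917391) (l 534885135)) (a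 (l 534951183) (l 534918927))) (b (a (b (l 534932495) (l 534948623)) (b (l 534899727) (l 534915855))) (a (b (l 534965263) (l 534982159)) (b (l 534932239) (l 534949391)))))) (c (b (a (c (l 534812943) (l 534832143)) (c (l 534782223) (l 534800911))) (a (c (l 534848015) (l 534866447)) (c (l 534817039) (l 534834959)))) (c (b (a (l 534852879) (l 534821135)) (a (l 534886671) (l 534854671))) (b (a (l 534875407) (l 534843151)) (a (b (l 534899727) (l 534916623)) (l 535144463))))))), by decide +kernel⟩

def k114_A00pm_213_s3 : ∃ t, chk3 f_A00pm_213_s3 t 230 1008 3 = true :=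
  ⟨(a (c (b (c (a (b (l 534899471) (l 534913295)) (b (l 16774744) (l 534880015))) (b (a (l 534927887) (l 534894095)) (a (l 534941455) (l 534907663)))) (c (a (b (l 534927631) (l 534942479)) (b (l 534894351) (l 534909199))) (b (a (l 534955535) (l 534921743)) (a (l 534969871) (l 534936079))))) (b (a (c (l 534696463) (l 534728207)) (c (l 534662415) (l 534693647))) (a (c (l 534723599) (l 534821903)) (c (l 534689551) (l 534720015))))) (c (b (c (a (l 534840591) (l 534808079)) (b (a (l 16774536) (l 16774288)) (a (l 16774760) (l 16774512)))) (c (a (b (l 16774952) (l 534876175)) (b (l 16774704) (l 16774936))) (b (a (l 534888207) (l 16774736)) (a (l 534902543) (l 534869519))))) (b (a (c (l 534628623) (l 534659343)) (c (l 534595087) (l 534625295))) (a (c (l 534655759) (l 534685711)) (c (l 534621967) (l 534651663)))))), by decide +kernel⟩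

def k115_A00pm_213_s3 : ∃ t, chk3 f_A00pm_213_s3 t 230 1009 3 = true :=
  ⟨(a (c (b (a (c (b (l 534957839) (l 534973455)) (b (l 534984719) (l 535000079))) (c (b (l 534924559) (l 534940175)) (b (l 534950927) (l 534966287)))) (a (c (b (l 534989839) (l 535006479)) (b (l 535015951) (l 535032335))) (c (b (l 534956303) (l 534973199)) (b (l 534982159) (l 534998543))))) (b (a (c (a (l 534761231) (l 534744079)) (a (l 534791695) (l 534774287))) (c (a (l 534726927) (l 534978319)) (a (l 534756879) (l 534739471)))) (a (c (b (l 534775567) (l 534791695)) (b (l 534805263) (l 534820879))) (c (a (l 534757903) (l 534741007)) (b (l 534770447) (l 534786063)))))) (c (b (c (a (b (l 534891535) (l 534907151)) (b (l 534858767) (l 534874383))) (b (a (l 534917647) (l 534884367)) (a (l 534932751) (l 534899727)))) (c (a (b (l 534923279) (l 534939919)) (b (l 534890511) (l 534907151))) (b (a (l 534948623) (l 534915343)) (a (l 534965007) (l 534931727))))) (b (a (c (l 534684687) (a (l 534722319) (l 534705167))) (c (l 534650895) (l 534679823)))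 (a (c (b (l 534975759) (l 534991631)) (a (l 534752527) (l 534735375))) (c (b (l 534941967) (l 534957839)) (a (l 534718223) (l 534701327))))))), by decide +kernel⟩

def k116_A00pm_213_s3 : ∃ t, chk3 f_A00pm_213_s3 t 231 504 2 = true :=
  ⟨(b (a (c (b (a (l 534696975) (l 534666511)) (a (b (l 16774360) (l 16774600)) (l 534965775))) (b (a (b (l 16773936) (l 534746127)) (b (l 16773672) (l 16773912))) (a (c (l 534757903) (l 534780175)) (b (l 16774160) (l 534744591))))) (a (c (b (l 534636303) (l 534667023)) (b (c (l 16773504) (l 16773544)) (b (l 16773896) (l 16774144)))) (c (b (l 534606351) (l 534637071)) (b (c (l 16773240) (l 16773272)) (c (l 16773744) (l 16773776)))))) (a (c (b (a (c (l 534751503) (l 534769679)) (b (l 16774592) (l 534737935))) (a (c (l 534786319) (l 534803983)) (c (l 534755855) (l 534773007)))) (c (b (a (l 534789647) (l 534758415)) (a (l 534823183) (l 534791695))) (b (a (l 534811151) (l 534779407)) (a (l 534843919) (l 534812175))))) (a (c (b (b (l 16774336) (l 16774584)) (c (l 534725903) (l 534742543)))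 (b (c (l 534727183) (l 534747919)) (c (l 534760719) (l 534780687)))) (c (b (c (l 16774192) (l 16774216)) (b (l 16774576) (l 534712335))) (b (b (l 16774136) (l 534714127)) (c (l 534729999) (l 534749455))))))), by decide +kernel⟩

def k117_A00pm_213_s3 : ∃ t, chk3 f_A00pm_213_s3 t 231 504 3 = true :=
  ⟨(b (a (a (c (b (c (l 534775567) (b (l 16774032) (l 16774264))) (c (l 534803983) (b (l 16774496) (l 16774720)))) (b (c (l 534561807) (l 534591759)) (c (l 534588687) (l 534617871)))) (c (b (c (l 534743567) (l 535037967)) (c (l 534771983) (b (l 16774248) (l 16774480)))) (b (c (l 534528783) (l 534558223)) (c (l 534555663) (l 534584335))))) (a (c (b (b (l 16773480) (l 16773728)) (c (l 534740239) (b (l 16773992) (l 16774224)))) (b (b (l 534503695) (l 534516495)) (c (b (l 16774032) (l 16774264)) (l 534551055)))) (c (b (b (l 16773216) (l 16773464)) (b (l 16773712) (c (l 16773936) (l 16773976)))) (b (b (l 16773312) (l 534483727)) (c (b (l 16773776) (l 16774016)) (l 534518287)))))) (a (c (b (c (a (b (l 16774920) (l 534841871))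 (b (l 16774680) (l 16774912))) (b (a (l 534851343) (l 16774712)) (a (l 534866703) (l 534833935)))) (c (a (b (l 534857999) (l 534874639)) (b (l 534825743) (l 534842383))) (b (a (l 534882319) (l 534849807)) (a (l 534898703) (l 534865935))))) (b (a (c (l 534617615) (l 534646031)) (c (l 534584335) (l 534612239))) (a (c (l 534648335) (a (l 534684175) (l 534667279))) (c (l 534615055) (a (l 534650639) (l 534633743)))))) (c (b (b (a (c (l 16774432) (l 16774464)) (c (l 16774184) (l 16774216))) (a (c (l 16774672) (l 16774696)) (c (l 16774424) (l 16774456)))) (b (a (c (l 16774904) (l 534817295)) (c (l 16774664) (l 16774688))) (a (c (l 534810383) (l 534833423)) (c (l 16774896) (l 534801167))))) (b (a (c (l 534551567) (l 534578959)) (c (b (l 16774248) (l 16774488)) (l 534546191))) (a (c (l 534582287) (a (l 534617103) (l 534600463))) (c (b (l 534809871) (l 534825487)) (a (l 534584079) (l 534567439)))))))), by decide +kernel⟩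

def k118_A00pm_213_s3 : ∃ t, chk3 f_A00pm_213_s3 t 230 505 2 = true :=
  ⟨(c (b (a (b (a (c (l 534947855) (l 534966543)) (c (l 534916111) (l 534934543))) (a (c (l 534986767) (l 535005199)) (c (l 534955279) (l 534972943)))) (b (a (c (l 534884879) (l 534902799)) (c (l 534853903) (l 534871311))) (a (c (l 534923791) (l 534941199)) (c (l 534892815) (l 534909711))))) (a (b (b (a (l 535025935) (l 534993935)) (l 4)) (l 4)) (b (a (c (l 534965007) (l 534981647)) (c (l 534933775) (l 534950159))) (a (l 4) (c (l 534977295) (l 534992911)))))) (b (a (a (b (c (l 535121167) (b (l 534999823) (l 535017999))) (c (b (l 535014927) (l 535034383)) (b (l 535036431) (l 535055631)))) (b (c (l 534954511) (b (l 534966799) (l 534984975))) (c (b (l 534982415) (l 535001871)) (b (l 535003407) (l 535022607))))) (a (b (c (l 534922255) (b (l 534934287) (l 534952207))) (c (b (l 534950159) (l 534969359)) (b (l 534970639) (l 534989839)))) (b (c (l 534890255) (b (l 534901775) (l 534919695))) (c (l 534928143) (b (l 534938127) (l 534957327))))))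 (a (b (b (a (c (l 535054351) (l 535075343)) (c (l 535021839) (l 535042319))) (l 4)) (l 4)) (b (a (c (b (l 534989327) (l 535009807)) (b (l 535009551) (l 535029775))) (c (b (l 534957327) (l 534977807)) (b (l 534977039) (l 534997007)))) (a (l 4) (b (a (l 535016207) (l 535000079)) (l 4))))))), by decide +kernel⟩

def k119_A00pm_213_s3 : ∃ t, chk3 f_A00pm_213_s3 t 230 1010 3 = true :=
  ⟨(a (c (b (a (c (b (l 535023631) (l 535041551)) (b (l 535049231) (a (l 535075087) (l 535058191)))) (c (b (l 534990351) (l 535008015)) (b (l 535015439) (l 535032847)))) (a (c (b (l 535059727) (l 535078671)) (b (a (l 535093007) (l 535076111)) (a (l 535111695) (l 535094543)))) (c (b (l 535026191) (l 535045135)) (b (a (l 535058959) (l 535042063)) (a (l 535077647) (l 535060495)))))) (b (a (c (b (l 534808079) (l 534825231)) (b (l 534837007) (l 534853647))) (c (b (l 534773775) (l 534790671)) (b (l 534802191) (l 534818831)))) (a (c (b (l 534842639) (l 534860815)) (b (l 534870799) (c (l 534881551) (l 534895887)))) (c (b (l 534808335) (l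 534826255)) (b (l 534835983) (c (l 534846735) (l 534860815))))))) (c (b (c (a (b (l 534957071) (l 534974735)) (b (l 534924303) (l 534941967))) (b (a (l 534981903) (l 534948367)) (a (l 534999055) (l 534965775)))) (c (a (b (l 534992911) (l 535011855)) (b (l 534960143) (l 534978831))) (b (a (l 535016975) (l 534983439)) (a (a (l 535043855) (l 535026959)) (l 535001871))))) (b (a (c (b (l 535008015) (a (l 535033615) (l 535016463))) (b (l 534767631) (l 534784271))) (c (b (l 534974223) (l 534991119)) (b (l 534733327) (l 534749967)))) (a (c (a (l 534791951) (b (l 535034127) (l 535052047))) (b (l 534801423) (l 534819087))) (c (b (a (l 535016975) (l 535000079)) (a (l 535035151) (l 535018255))) (b (l 534766863) (l 534784527))))))), by decide +kernel⟩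

def k120_A00pm_213_s3 : ∃ t, chk3 f_A00pm_213_s3 t 230 1011 3 = true :=
  ⟨(a (b (b (c (a (c (l 535232271) (a (l 4) (l 535113487))) (c (l 535198735) (a (l 535096591) (l 535079695)))) (b (a (c (l 535143183) (l 534902031)) (c (l 535242767) (l 534867215))) (a (l 4) (c (a (l 535126543) (l 535109391)) (l 534876431))))) (l 4)) (l 4)) (c (b (a (b (c (l 535031055) (a (l 535062799) (l 535045903))) (c (l 535051023) (a (l 535082255) (l 535065359)))) (c (b (l 534998031) (l 535017999)) (b (a (l 535029263) (l 535012623)) (a (l 535048719) (l 535032079))))) (a (l 4) (b (c (l 535038479) (a (l 535068943) (l 535052047))) (l 4)))) (b (a (c (a (b (l 535087631) (l 535106831)) (b (l 535070735) (l 535089935))) (b (b (l 534832399) (l 534841615)) (l 534889743))) (c (b (a (l 535053583) (l 535036687)) (a (l 535072783) (l 535055887))) (b (l 534802703) (l 534821647)))) (b (a (l 4) (c (a (l 535092495) (l 535075599)) (c (l 534834447) (l 534847503)))) (l 4))))), by decide +kernel⟩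

def k121_A00pm_213_s3 : ∃ t, chk3 f_A00pm_213_s3 t 231 505 2 = true :=
  ⟨(b (a (c (b (a (c (l 534823183) (l 534840079)) (c (l 534792719) (l 534809103))) (a (c (l 534862095) (l 534878223)) (c (l 534831375) (l 534847247)))) (c (b (a (l 534858767) (l 534827279)) (a (l 534896399) (l 534864911))) (b (a (b (l 534869519) (l 534887439)) (b (l 534837775) (l 534855695))) (a (b (l 534906127) (l 534925071)) (b (l 534874127) (l 534893071)))))) (c (b (a (c (l 534762511) (l 534778383)) (c (l 534732559) (l 534748175))) (a (c (l 534801167) (l 534816527)) (c (l 534771215) (l 534786063)))) (c (b (a (l 534796047) (l 534765327)) (a (l 534833679) (l 534802703))) (b (a (b (l 534806287) (l 534823951)) (b (l 16775112) (l 534792719))) (a (b (l 534842383) (l 534861327)) (b (l 534811151) (l 534830095))))))) (a (c (b (a (c (l 534903055) (l 534918671)) (c (l 534872335) (l 534887695))) (a (c (l 534946319) (l 534961423)) (c (l 534915599) (l 534930447)))) (a (b (c (b (l 534925583) (l 534946063)) (b (l 534944527) (l 534964751))) (c (b (l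 534967055) (l 534988815)) (b (l 534985487) (l 535006991)))) (b (c (b (l 534894095) (l 534914319)) (b (l 534912783) (l 534932751))) (c (b (l 534935567) (l 534957071)) (b (l 534953487) (l 534974735)))))) (c (b (a (c (l 534842127) (l 534856975)) (c (l 534811919) (l 534826511))) (a (c (l 534885135) (l 534899471)) (c (l 534855183) (l 534869007)))) (a (b (c (b (l 534862863) (l 534883087)) (b (l 534881039) (l 534901007))) (c (b (l 534904079) (l 534925839)) (b (l 534921743) (l 534942991)))) (b (c (b (l 534831887) (l 534852111)) (b (l 534849551) (l 534869519))) (c (b (l 534873103) (l 534894607)) (b (l 534890255) (l 534911503)))))))), by decide +kernel⟩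

def k122_A00pm_213_s3 : ∃ t, chk3 f_A00pm_213_s3 t 231 1010 3 = true :=
  ⟨(a (c (b (c (a (b (l 534891791) (l 534909199)) (b (l 534859279) (l 534876943))) (b (a (l 534915343) (l 534882575)) (a (l 534932751) (l 534899727)))) (c (a (b (l 534927375) (l 534946063)) (b (l 534895119) (l 534913807))) (b (a (l 534950415) (l 534917647)) (a (l 534968847) (l 534935823))))) (b (a (c (b (l 534940687) (l 534957583)) (b (l 534699279) (l 534715919))) (c (b (l 534907407) (l 534924303)) (a (l 534682383) (l 534665743)))) (a (c (b (l 535109391) (a (l 535001359) (l 534984719))) (b (l 534732815) (l 534750479))) (c (b (l 534941711) (a (l 534968079) (l 534951439))) (b (l 534699023) (l 534716687)))))) (c (b (c (a (b (l 534827279) (l 534844943)) (b (l 534795535) (l 534812943))) (b (a (l 534850063) (l 534817807)) (a (l 534867215) (l 534834959)))) (c (a (b (l 534862863) (l 534881551)) (b (l 534831119) (l 534849807))) (b (a (l 534885135) (l 534852623)) (a (l 534903311) (l 534871055))))) (b (a (c (b (l 534874639) (l 534891279)) (a (l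 534649103) (l 534632463))) (c (b (l 534841871) (l 534858767)) (a (l 534615823) (l 534599183)))) (a (c (b (l 534908687) (a (l 534934799) (l 534918415))) (b (l 534665743) (l 534683151))) (c (b (l 534875919) (l 535027983)) (b (l 534632463) (l 534649871))))))), by decide +kernel⟩

def k123_A00pm_213_s3 : ∃ t, chk3 f_A00pm_213_s3 t 231 1011 3 = true :=
  ⟨(a (c (b (c (a (b (l 534965263) (l 534985231)) (b (l 534933007) (l 534952719))) (b (a (l 534987791) (l 534954767)) (a (a (l 535015439) (l 534998799)) (l 535108367)))) (c (a (b (l 535005711) (l 535026703)) (b (l 534973199) (l 534994191))) (b (a (a (l 535035407) (l 535019023)) (a (l 535002383) (l 534985999))) (a (a (l 535056143) (l 535039503)) (a (l 535023119) (l 535006735)))))) (b (a (c (b (a (l 535020047) (l 535003151)) (a (l 535038991) (l 535022351))) (b (l 534768655) (l 534787343))) (c (b (a (l 534986511) (l 534969871)) (a (l 535005711) (l 534989071))) (b (l 534734863) (l 534753551)))) (a (c (b (a (l 535058703) (l 535042063)) (a (l 535079183) (l 535062287)))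 (b (c (l 534800399) (l 534813199)) (c (l 534820623) (l 534833167)))) (c (b (a (l 535025167) (l 535008527)) (a (l 535045647) (l 535029007))) (b (b (l 534767887) (l 534777615)) (b (l 534787599) (l 534797839))))))) (c (b (c (a (b (l 534900751) (l 534920463)) (b (l 534868751) (l 534888463))) (b (a (l 534921999) (l 534889743)) (a (l 535209999) (l 534909199)))) (c (a (b (l 534940943) (l 534961679)) (b (l 534908943) (l 534929679))) (b (a (a (l 534969615) (l 534953231)) (a (l 534937103) (l 534920975))) (a (a (l 534990351) (l 534973967)) (a (l 534957839) (l 534941455)))))) (b (a (c (b (a (l 534953231) (l 534936847)) (a (l 534972431) (l 534955791))) (b (l 534701327) (l 534720015))) (c (b (a (l 534920463) (l 534904079)) (a (l 534939407) (l 534923023))) (b (l 534668047) (l 534686735)))) (a (c (b (a (l 534992143) (l 534975503)) (a (l 535012367) (l 534995727))) (b (l 534739215) (b (l 534753807) (l 534764047)))) (c (b (a (l 534959119) (l 534942735)) (a (l 534979343) (l 534962959))) (b (l 534705935) (a (l 535002383) (l 534985743)))))))),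 by decide +kernel⟩

def k124_A00pm_213_s3 : ∃ t, chk3 f_A00pm_213_s3 t 57 253 1 = true :=
  ⟨(a (l 4) (b (a (l 4) (c (b (a (a (l 4) (b (b (c (l 534956047) (c (l 534979343) (l 534996751))) (l 4)) (l 4))) (c (b (a (b (l 534925583) (l 534948623)) (b (l 534895119) (l 534918415))) (a (l 4) (b (l 534942223) (l 4)))) (b (a (c (b (l 534947855) (l 534970895)) (b (l 534965007) (l 534987535))) (c (b (l 534916879) (l 534939663)) (b (l 534933263) (l 534955791)))) (a (l 4) (b (c (l 534963215) (l 534979087)) (l 4)))))) (l 4)) (b (a (a (l 4) (b (b (c (c (a (l 535023631) (l 535007503)) (a (l 535044367) (l 535027983))) (c (a (l 535066639) (l 535049743)) (b (l 534808079) (l 534818575)))) (l 4)) (l 4))) (c (a (b (c (b (l 535184655) (a (l 535013647) (l 534997519))) (b (a (l 535011599) (l 534995215)) (a (l 535033359) (l 535016975)))) (l 4)) (b (c (b (l 535085583) (a (l 534981391) (l 534965519))) (b (a (l 534978831) (l 534962703)) (a (l 535000847) (l 534984463)))) (b (c (a (l 535004431) (l 534988303)) (a (l 535023375) (l 535006991)))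 (l 4)))) (b (a (c (b (a (l 535033103) (l 535016719)) (a (l 535054863) (l 535038223))) (b (b (l 534774287) (l 534784783)) (b (l 534795279) (l 534806031)))) (c (b (a (l 535000079) (l 534983695)) (a (l 535021583) (l 535005199))) (b (a (l 535022863) (l 535006223)) (b (l 534761743) (l 534772495))))) (b (a (l 4) (c (a (l 535043855) (l 535027471)) (b (l 534783503) (l 534794511)))) (l 4))))) (l 4)))) (l 4))), by decide +kernel⟩

def k125_A00pm_213_s3 : ∃ t, chk3 f_A00pm_213_s3 t 28 127 1 = true :=
  ⟨(l 4), by decide +kernel⟩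

def k126_A00pm_213_s3 : ∃ t, chk3 f_A00pm_213_s3 t 232 504 2 = true :=
  ⟨(b (a (c (a (b (l 16772912) (l 534607375)) (b (l 16772624) (l 534577935))) (b (c (l 16772824) (c (l 16772856) (l 16772872))) (a (c (l 16773480) (l 16773512)) (c (l 16773208) (l 16773248))))) (c (b (c (l 16772184) (l 16772216)) (c (l 16772736) (l 16772768))) (b (c (l 16772256) (l 16772304)) (c (l 16772800) (c (l 16772824) (l 16772848)))))) (b (c (a (a (c (l 16773936) (l 16773960)) (c (l 16773680) (l 16773704))) (c (l 16773280) (c (l 16773296) (l 16773312)))) (a (a (b (l 16773880) (l 16774128)) (b (l 16773616) (l 16773872))) (a (c (l 16773464) (l 16773496)) (c (l 16773200) (l 16773232))))) (c (a (a (b (l 16774328) (l 16774576)) (c (l 16774192) (l 16774216))) (a (c (l 16773936) (l 16773960)) (c (l 16773680) (l 16773704)))) (a (a (c (l 534699535) (l 534718479)) (b (l 16774120) (l 534686479))) (a (b (l 16773864) (l 16774120)) (b (l 16773608) (l 16773864))))))), by decide +kernel⟩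

def k127_A00pm_213_s3 : ∃ t, chk3 f_A00pm_213_s3 t 232 504 3 = true :=
  ⟨(b (a (c (b (a (c (l 16773040) (l 16773088)) (c (l 16772768) (l 16772816))) (a (b (l 16773448) (l 16773696)) (c (l 16773280) (l 16773328)))) (b (a (b (l 16773040) (l 16773288)) (c (l 16772864) (l 16772920))) (a (b (l 534464527) (l 534478351)) (b (l 16773272) (l 534446095))))) (c (b (a (c (l 16772488) (l 16772536)) (c (l 16772200) (l 16772256))) (a (c (l 16773016) (l 16773056)) (c (l 16772736) (l 16772784)))) (b (c (b (l 16772320) (l 16772576)) (l 16772504)) (a (b (l 16773000) (l 16773248)) (c (l 16772832) (l 16772880)))))) (a (c (b (a (c (c (l 16774040) (l 16774056)) (b (l 16773960) (l 16774200))) (b (l 16773680) (c (l 16773920) (l 16773952)))) (b (a (c (l 16774416) (l 16774448)) (c (l 16774168) (l 16774200))) (a (c (l 16774656) (l 16774680)) (c (l 16774408) (l 16774440))))) (c (b (b (a (l 16774000) (l 16773744)) (a (l 16774240) (l 16773984))) (b (a (l 16774480) (l 16774232)) (a (l 534793231) (l 16774472)))) (b (a (l 534513423) (l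 534480911)) (a (l 534543119) (l 534510607))))) (c (b (a (b (l 16773424) (c (l 16773656) (l 16773696))) (b (l 16773152) (l 16773416))) (a (c (c (l 16774032) (l 16774048)) (b (l 16773944) (l 16774192))) (c (c (l 16773776) (l 16773792)) (b (l 16773688) (l 16773944))))) (c (b (b (l 16773352) (a (l 16773728) (l 16773472))) (b (a (l 16773976) (l 16773728)) (a (l 16774224) (l 16773976)))) (b (a (l 534448911) (l 534417167)) (a (l 534478351) (l 534446607))))))), by decide +kernel⟩

def k128_A00pm_213_s3 : ∃ t, chk3 f_A00pm_213_s3 t 233 504 1 = true :=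
  ⟨(c (b (a (c (b (l 16771624) (c (l 16772176) (l 16772200))) (b (c (l 16771680) (l 16771720)) (c (l 16772240) (l 16772280)))) (c (b (l 16771024) (l 16771616)) (b (c (l 16771088) (l 16771136)) (c (l 16771664) (l 16771704))))) (a (c (b (c (l 16772736) (l 16772760)) (c (l 16773280) (c (l 16773304) (l 16773312)))) (b (c (l 16772792) (c (l 16772816) (l 16772832))) (a (c (l 16773464) (l 16773488)) (c (l 16773200) (l 16773224))))) (c (b (c (l 16772176) (l 16772200)) (c (l 16772744) (l 16772768))) (b (c (l 16772232) (l 16772272)) (a (c (l 16772928) (l 16772960)) (c (l 16772656) (l 16772688))))))) (b (a (c (b (c (l 16771768) (l 16771824)) (a (c (l 16772456) (l 16772504)) (c (l 16772176) (l 16772224)))) (b (a (c (l 16772024) (l 16772080)) (c (l 16771736) (l 16771792))) (a (c (l 16772552) (l 16772608)) (c (l 16772272) (l 16772328))))) (c (b (c (l 16771184) (l 16771240)) (c (l 16771752) (l 16771800))) (b (c (l 16771296) (l 16771360)) (a (c (l 16771992) (l 16772048)) (c (l 16771704) (l 16771760)))))) (a (c (b (a (c (l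 16772992) (l 16773032)) (c (l 16772720) (l 16772760))) (a (b (l 16773408) (c (l 16773656) (l 16773688))) (b (l 16773144) (l 16773408)))) (b (a (b (l 16772968) (l 16773232)) (b (l 16772696) (l 16772960))) (a (c (b (l 16773464) (l 16773720)) (l 534414863)) (b (l 16773224) (c (l 16773464) (l 16773504)))))) (c (b (a (c (l 16772448) (l 16772488)) (c (l 16772168) (l 16772208))) (a (c (l 16772992) (l 16773032)) (c (l 16772720) (l 16772760)))) (b (a (c (l 16772536) (l 16772584)) (c (l 16772256) (l 16772304))) (c (b (l 16772800) (l 16773072)) (a (l 534352399) (l 534321679)))))))), by decide +kernel⟩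

def k129_A00pm_213_s3 : ∃ t, chk3 f_A00pm_213_s3 t 232 505 2 = true :=
  ⟨(b (a (c (b (a (c (l 534702863) (l 534717967)) (b (l 16774584) (l 534689551))) (a (c (l 534741519) (l 534755855)) (c (l 534712079) (l 534726159)))) (c (b (a (l 534734863) (l 534704399)) (a (l 534771983) (l 534741775))) (b (a (b (l 16774872) (l 16775112)) (b (l 16774632) (l 16774872))) (a (b (l 534779919) (l 534798863)) (b (l 16775112) (l 534768143)))))) (a (c (b (b (l 16774336) (l 16774584)) (c (l 534682895) (l 534696463))) (b (b (l 534673679) (l 534959887)) (c (l 534711567) (b (l 16774880) (l 16775120))))) (c (b (b (l 16774080) (l 16774344)) (b (l 16774592) (l 534669839))) (b (b (l 16774128) (l 534929935)) (c (l 534681871) (b (l 16774640) (l 16774888))))))) (a (c (b (a (c (l 534782223) (l 534796047)) (c (l 534752783) (l 534766095))) (a (c (l 534825231) (l 534838543)) (c (l 534795791) (l 534808591)))) (b (a (c (b (l 534801167) (l 534821391)) (b (l 534818319) (l 534838287))) (c (b (l 534770703) (l 534790927)) (b (l 534787599) (l 534807567))))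 (a (c (b (l 534842383) (l 534863887)) (b (l 534859023) (l 534880271))) (c (b (l 534811919) (l 534833423)) (b (l 534828047) (l 534849295)))))) (c (b (a (c (l 534723599) (l 534736399)) (c (l 534694415) (l 534706959))) (a (c (l 534766351) (l 534778895)) (c (l 534737423) (l 535017743)))) (b (a (c (b (l 534740495) (l 534760719)) (b (l 534756879) (l 534776847))) (c (b (l 16775120) (l 534730767)) (b (l 534726415) (l 534746383)))) (a (c (b (l 534781711) (l 534802959)) (b (l 534797327) (l 534818575))) (c (b (l 534751759) (l 534773007)) (b (l 534766863) (l 534788111)))))))), by decide +kernel⟩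

def k130_A00pm_213_s3 : ∃ t, chk3 f_A00pm_213_s3 t 232 1010 3 = true :=
  ⟨(a (c (b (b (a (c (l 16774896) (l 534786063)) (c (l 16774656) (l 16774680))) (a (c (l 534781455) (l 534802959)) (c (l 16774896) (l 534771471)))) (b (a (c (l 534799631) (l 534820623)) (c (l 534768399) (l 534788879))) (a (c (l 534818063) (l 534838799)) (c (l 534786831) (l 534807055))))) (c (b (b (a (l 534809359) (l 534777359)) (a (l 534826255) (l 534793999))) (b (a (l 534843407) (l 534811407)) (a (l 535129871) (l 534829071)))) (b (a (a (l 534582799) (l 534566415)) (c (l 534535951) (l 534548495))) (a (b (l 534599439) (l 534616847)) (a (l 534584079) (l 534567695)))))) (c (b (a (c (b (l 16774408) (l 16774656)) (b (l 16774440) (l 16774680))) (c (b (l 16774160) (l 16774416)) (b (l 16774192) (l 16774440)))) (a (c (b (l 16774904) (l 534755855)) (b (l 534757647) (l 534775567))) (c (b (l 16774664) (l 16774904)) (b (l 16774688) (l 534744335))))) (c (b (b (a (l 16774464) (l 16774224)) (a (l 534762255) (l 16774472))) (b (a (l 534779407) (l 534747919))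 (a (l 534797071) (l 534765583)))) (b (a (b (l 16774496) (l 534786063)) (b (l 16774256) (l 534754063))) (a (c (l 534537487) (l 534549775)) (c (b (l 16774728) (l 16774968)) (l 534517519))))))), by decide +kernel⟩

def k131_A00pm_213_s3 : ∃ t, chk3 f_A00pm_213_s3 t 232 1011 3 = true :=
  ⟨(a (c (b (c (a (b (l 534837263) (l 534856975)) (b (l 534805775) (l 534825487))) (a (b (l 534857743) (l 534876943)) (b (l 534825743) (l 534845199)))) (c (a (b (l 534877199) (l 534897935)) (b (l 534845711) (l 534866703))) (b (a (a (l 534904847) (l 534888975)) (a (l 534872847) (l 534856975))) (a (a (l 534925327) (l 534909455)) (a (l 534893327) (l 534877455)))))) (b (a (c (b (a (l 534887695) (l 534871567)) (a (l 534906895) (l 534890511))) (b (l 534635023) (l 534653455))) (b (c (a (l 534855439) (l 534839311)) (l 534602255)) (c (a (l 534874383) (l 534858255)) (l 534620687)))) (a (c (b (a (l 534926351) (l 534910223)) (a (l 534946575) (l 534930191))) (b (l 534672655) (a (l 534969103) (l 534952719)))) (c (b (a (l 534893839) (l 534877711))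 (a (l 534914063) (l 534897935))) (b (l 534639887) (l 534659855)))))) (c (b (b (a (c (l 534774799) (l 534794255)) (c (l 534744079) (l 534763023))) (a (c (l 534794511) (l 534813711)) (c (l 534763535) (l 534782223)))) (c (a (b (l 534814479) (l 534835471)) (b (l 534783759) (l 534804495))) (a (b (a (l 534841359) (l 534825487)) (a (l 534861839) (l 534845967))) (b (a (l 534809871) (l 534794255)) (a (l 534830351) (l 534814735)))))) (b (a (a (c (b (l 534823439) (l 534842383)) (l 534587407)) (c (b (l 534807567) (l 534826255)) (b (l 534830095) (l 534848527)))) (b (c (b (l 16775128) (l 16775248)) (b (l 16775152) (l 534810383))) (c (a (l 534810383) (l 534794767)) (a (l 534832399) (l 534816527))))) (a (b (c (a (l 534861839) (l 534845711)) (a (l 534883855) (l 534867727))) (c (a (l 534881807) (l 534865935)) (a (l 534903567) (l 534887439)))) (b (c (a (l 534829839) (l 534814223)) (a (l 534851599) (l 534835471))) (c (a (l 534850063) (l 534834191)) (a (l 534871311) (l 534855183)))))))), by decide +kernel⟩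

def k132_A00pm_213_s3 : ∃ t, chk3 f_A00pm_213_s3 t 233 505 2 = true :=
  ⟨(b (a (a (c (b (c (l 16773952) (l 16773968)) (b (l 16774352) (l 16774608))) (b (b (l 16773872) (l 534900239)) (c (l 534652431) (b (l 16774400) (l 16774648))))) (c (b (c (l 16773696) (l 16773712)) (b (l 16774104) (l 16774368))) (b (b (l 16773616) (l 16773880)) (c (l 534891535) (b (l 16774152) (l 16774408)))))) (c (b (c (l 16773304) (c (l 16773320) (l 16773328))) (a (c (l 16773976) (l 16773992)) (c (l 16773720) (l 16773744)))) (c (b (c (l 16773344) (l 16773352)) (b (l 16773752) (l 16774016))) (b (b (l 16773240) (l 16773504)) (b (l 16773776) (c (l 16774032) (l 16774048))))))) (a (c (b (a (c (l 534665743) (l 534678031)) (c (l 534637327) (l 534649103))) (a (c (l 534708751) (l 534988559)) (b (l 534674191) (l 534695951)))) (b (a (c (b (l 16774880) (l 16775128)) (b (l 16774896) (l 534716431))) (c (b (l 16774648) (l 16774896)) (b (l 16774664) (l 16774912)))) (a (c (b (l 534722063) (l 534743311)) (b (l 534736911) (l 534757903))) (c (b (l 16775144)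 (l 534713871)) (b (l 534706959) (l 534727951)))))) (c (b (a (b (l 16774384) (l 534624527)) (b (l 16774136) (l 16774400))) (a (b (l 534645775) (l 534667535)) (b (l 534617615) (l 534639119)))) (b (a (c (b (l 16774408) (l 16774664)) (b (l 16774424) (l 16774680))) (c (b (l 16774160) (l 16774424)) (b (l 16774176) (l 16774440)))) (a (c (b (l 16774920) (l 16775168)) (b (l 16774928) (l 534698255))) (c (b (l 16774680) (l 16774936)) (b (l 16774696) (l 16774952)))))))), by decide +kernel⟩

def k133_A00pm_213_s3 : ∃ t, chk3 f_A00pm_213_s3 t 233 1010 3 = true :=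
  ⟨(a (c (b (a (c (b (l 16773912) (l 16774168)) (b (l 16773944) (l 16774192))) (c (c (l 16773776) (l 16773792)) (b (l 16773688) (l 16773944)))) (a (c (b (l 16774424) (l 16774672)) (b (l 16774448) (l 16774696))) (c (b (l 16774176) (l 16774432)) (b (l 16774200) (l 16774456))))) (b (a (c (b (l 16773976) (l 16774224)) (b (l 16774008) (l 16774256))) (c (b (l 16773720) (l 16773976)) (b (l 16773760) (l 16774008)))) (a (c (b (l 16774472) (l 534734095)) (b (l 535007503) (c (l 16774736) (l 16774752)))) (c (b (l 16774232) (l 16774480)) (b (l 16774256) (c (l 16774496) (l 16774512))))))) (c (b (a (b (l 16773416) (c (l 16773664) (l 16773696))) (b (l 16773152) (l 16773416))) (a (c (b (l 16773928) (l 16774184)) (b (l 16773952) (l 16774208))) (c (c (l 16773800) (l 16773816)) (b (l 16773704) (l 16773960))))) (b (a (c (b (l 16773464) (l 16773720)) (b (l 16773504) (l 16773760))) (c (b (l 16773200) (l 16773472)) (b (l 16773240) (l 16773504)))) (a (c (b (l 16773984) (l 16774240)) (b (l 16774016) (l 16774264))) (c (b (l 16773728)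 (l 16773992)) (b (l 16773768) (l 16774024))))))), by decide +kernel⟩

def k134_A00pm_213_s3 : ∃ t, chk3 f_A00pm_213_s3 t 233 1011 3 = true :=
  ⟨(a (c (b (a (c (b (l 534713615) (l 534733071)) (b (l 534732047) (l 534751247))) (b (c (l 16774680) (l 534701327)) (c (l 534702863) (l 534720527)))) (a (b (c (l 534753039) (b (l 16775360) (l 534775823))) (c (l 534773775) (a (l 534799119) (l 534783759)))) (b (c (l 534722831) (b (l 16775136) (l 16775256))) (c (l 534743567) (b (l 16775376) (l 534765583)))))) (b (a (c (b (c (l 16774952) (l 16774968)) (b (l 16775136) (l 16775256))) (b (b (l 16774920) (l 16775040)) (b (l 16775160) (l 534797071)))) (c (b (c (l 16774720) (l 16774728)) (c (l 16774968) (l 16774976))) (b (c (l 16774744) (l 16774760)) (b (l 16774928) (l 16775048))))) (b (c (a (a (l 534798351) (l 534782735)) (b (l 16775152) (l 16775272))) (a (a (l 534819599) (l 534803727)) (a (l 534787855) (l 534771983)))) (c (a (a (l 534818319) (l 534802703)) (a (l 534787087) (l 534771471))) (a (a (l 534839311) (l 534823183))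 (a (l 534807311) (l 534791695))))))) (c (b (a (b (c (l 16774440) (l 16774464)) (c (l 16774696) (l 534690063))) (b (c (l 16774200) (l 16774224)) (c (l 16774456) (l 16774480)))) (a (b (c (l 534692879) (l 534843919)) (c (l 534713359) (b (l 16775152) (l 16775272)))) (b (c (l 16774712) (l 534948111)) (c (l 534683663) (c (l 16774976) (l 16774984)))))) (b (a (c (b (c (l 16774480) (l 16774496)) (c (l 16774736) (l 16774744))) (b (c (l 16774512) (l 16774520)) (c (l 16774752) (l 16774768)))) (c (b (l 16774248) (c (l 16774496) (l 16774512))) (b (l 16774272) (c (l 16774520) (l 16774536))))) (a (c (b (c (l 16774976) (l 16774992)) (b (l 16775168) (l 534753039))) (b (b (l 16774944) (l 16775064)) (a (l 534775823) (l 534760207)))) (c (b (c (l 16774752) (l 16774760)) (c (l 16775000) (l 16775008))) (b (c (l 16774768) (l 16774784)) (b (l 16774960) (l 16775080)))))))), by decide +kernel⟩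

def k135_A00pm_213_s3 : ∃ t, chk3 f_A00pm_213_s3 t 117 504 1 = true :=
  ⟨(a (c (b (a (c (b (l 16770424) (l 16771024)) (b (l 16770504) (c (l 16771080) (l 16771120)))) (c (b (l 16769808) (l 16770432)) (b (l 16769896) (l 16770504)))) (a (c (b (l 16771624) (c (l 16772192) (l 16772216))) (b (c (l 16771672) (l 16771704)) (c (l 16772248) (l 16772280)))) (c (b (l 16771040) (c (l 16771632) (l 16771656))) (b (c (l 16771088) (l 16771128)) (c (l 16771688) (l 16771720)))))) (b (a (c (b (c (l 16770584) (l 16770640)) (c (l 16771168) (l 16771216))) (b (c (l 16770696) (l 16770760)) (c (l 16771272) (l 16771328)))) (c (b (l 16770000) (c (l 16770568) (l 16770624))) (b (l 16767496) (c (l 16770680) (l 16770736))))) (a (c (b (c (l 16771744) (l 16771784)) (a (c (l 16772448) (l 16772488)) (c (l 16772176) (l 16772216)))) (b (a (c (l 16771976) (l 16772024)) (c (l 16771696) (l 16771744))) (a (c (l 16772528) (l 16772576)) (c (l 16772256) (l 16772304))))) (c (b (c (l 16771168) (l 16771216)) (c (l 16771752) (c (l 16771784) (l 16771808))))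 (b (c (l 16771264) (l 16771312)) (a (c (l 16771976) (l 16772024)) (c (l 16771696) (l 16771744)))))))) (c (b (a (c (c (l 16769488) (l 16769528)) (b (l 16769272) (l 16769896))) (c (c (l 16768872) (l 16768904)) (b (l 16768640) (l 16769288)))) (b (a (c (l 16770456) (l 16770520)) (c (l 16769864) (l 16769928))) (a (c (l 16771080) (c (l 16771120) (l 16771152))) (l 14)))) (b (a (c (b (l 16769376) (l 16769992)) (b (l 16769504) (c (l 16770072) (l 16770136)))) (c (b (l 16768744) (l 16769376)) (b (l 16768872) (l 16769488)))) (b (a (c (c (l 16770584) (l 16770624)) (c (l 16770672) (l 16770728))) (c (l 16770008) (c (l 16770080) (l 16770136)))) (a (c (c (l 16771184) (l 16771224)) (c (l 16771272) (b (l 16771176) (l 16771464)))) (l 14)))))), by decide +kernel⟩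

def k136_A00pm_213_s3 : ∃ t, chk3 f_A00pm_213_s3 t 234 505 2 = true :=
  ⟨(b (b (a (c (c (l 16772776) (l 16772792)) (a (c (l 16772952) (l 16772976)) (c (l 16772680) (l 16772712)))) (c (c (l 16772232) (l 16772256)) (b (l 16772144) (l 16772432)))) (a (c (b (l 16773208) (c (l 16773480) (l 16773496))) (a (b (l 16773376) (l 16773648)) (c (l 16773248) (l 16773272)))) (c (c (l 16772816) (l 16772832)) (a (c (l 16772984) (l 16773008)) (c (l 16772720) (l 16772744)))))) (b (b (a (c (c (l 16773752) (l 16773768)) (c (l 16773792) (l 16773808))) (a (c (l 16773384) (l 16773416)) (l 14))) (a (c (c (l 16774032) (l 16774040)) (a (c (l 16774184) (l 16774200)) (l 16773944))) (l 14))) (a (c (a (b (l 16774424) (l 534611215)) (b (l 16774184) (l 16774448))) (a (c (b (l 16774448) (l 16774704)) (b (l 16774464) (l 16774720))) (b (c (l 16774208) (l 16774224)) (c (l 16774472) (l 16774488))))) (l 14)))), by decide +kernel⟩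

def k137_A00pm_213_s3 : ∃ t, chk3 f_A00pm_213_s3 t 234 505 3 = true :=
  ⟨(b (a (c (b (a (b (l 16772888) (l 16773160)) (c (l 16772736) (l 16772776))) (a (b (l 16773432) (c (l 16773688) (l 16773712))) (b (l 16773168) (l 16773448)))) (b (a (b (l 16772960) (c (l 16773208) (l 16773248))) (b (l 16772688) (l 16772968))) (a (c (b (l 16773480) (l 16773744)) (b (l 16773512) (l 16773776))) (b (c (l 16773216) (l 16773256)) (c (l 16773488) (l 16773520)))))) (c (b (a (c (l 16772472) (l 16772504)) (c (l 16772200) (l 16772232))) (a (b (l 16772912) (l 16773192)) (c (l 16772768) (l 16772800)))) (b (a (b (l 16772424) (l 16772696)) (c (l 16772272) (l 16772312))) (a (b (l 16772976) (c (l 16773232) (l 16773264))) (b (l 16772712) (l 14)))))) (a (c (b (a (b (c (l 16773952) (l 16773976)) (c (l 16774216) (l 16774240))) (b (c (l 16773704) (l 16773728)) (c (l 16773976) (l 16773992)))) (a (b (c (l 16774480) (l 16774496)) (c (l 16774736) (c (l 16774752) (l 16774760)))) (b (c (l 16774240) (l 16774256)) (c (l 16774504) (l 16774520)))))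 (b (a (c (b (l 16774008) (l 16774264)) (b (l 16774032) (l 16774288))) (c (b (l 16773760) (l 16774024)) (b (l 16773784) (l 16774048)))) (a (c (b (c (l 16774512) (l 16774528)) (c (l 16774768) (l 16774776))) (b (c (l 16774536) (l 16774552)) (c (l 16774792) (l 16774800)))) (b (c (l 16774280) (l 16774304)) (a (b (l 16774544) (l 14)) (l 14)))))) (a (a (b (b (c (l 16773528) (l 16773584)) (l 14)) (l 14)) (l 14)) (l 14)))), by decide +kernel⟩

def k138_A00pm_213_s3 : ∃ t, chk3 f_A00pm_213_s3 t 235 505 1 = true :=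
  ⟨(a (a (b (b (a (b (c (l 16771768) (b (l 16771824) (l 16771976))) (l 14)) (l 14)) (l 14)) (l 14)) (l 14)) (l 14)), by decide +kernel⟩

def k139_A00pm_213_s3 : ∃ t, chk3 f_A00pm_213_s3 t 232 506 2 = true :=
  ⟨(b (a (c (b (a (b (l 534864911) (l 534888207)) (b (l 534834959) (l 534858255))) (a (c (l 534918927) (b (l 534918415) (l 534942735))) (c (l 534889231) (b (l 534888207) (l 534912527))))) (a (b (c (b (l 534885903) (l 534908687)) (b (l 534902031) (l 534924559))) (c (b (l 534932239) (l 534956303)) (b (l 534947599) (l 534971407)))) (b (c (b (l 534855439) (l 534878223)) (b (l 534871055) (l 534893327))) (c (b (l 534901519) (l 534925583)) (b (l 534916623) (l 534940431)))))) (c (b (a (b (l 534805519) (l 534828559)) (b (l 534776079) (l 534799119))) (a (c (l 534859791) (b (l 534858255) (l 534882575))) (c (l 535098895) (b (l 534828559) (l 534852879))))) (a (b (c (b (l 534825231) (l 534847759)) (b (l 534840335) (l 534862607))) (c (b (l 534871311) (l 534895375)) (b (l 534885647) (l 534909455)))) (b (c (b (l 534795023)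 (l 534817807)) (b (l 534809615) (l 534832143))) (c (b (l 534841103) (l 534865167)) (b (l 534855183) (l 534878735))))))) (a (a (l 4) (b (b (c (c (l 534926351) (l 534937615)) (c (l 534950415) (l 535233295))) (l 4)) (l 4))) (c (b (a (c (b (l 534896911) (l 534922767)) (b (l 534907663) (l 534933519))) (c (b (l 534867471) (l 534893583)) (b (l 534877967) (l 534903823)))) (a (l 4) (a (l 4) (b (l 534917647) (l 4))))) (b (a (c (b (l 534919951) (l 534945551)) (b (l 535202319) (a (l 4) (l 534951439)))) (b (c (l 534889999) (l 534903311)) (c (l 534915343) (a (l 534936079) (l 534920719))))) (a (l 4) (b (c (l 534941455) (a (l 4) (l 534946575))) (l 4))))))), by decide +kernel⟩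

def k140_A00pm_213_s3 : ∃ t, chk3 f_A00pm_213_s3 t 464 1012 3 = true :=
  ⟨(c (b (c (a (b (l 535187983) (a (l 534949647) (l 534933775))) (b (l 535156495) (a (l 534917903) (l 534902287)))) (b (a (a (l 534946575) (l 534930447)) (a (l 534914575) (l 534898703))) (a (a (l 534968335) (l 534952463)) (a (l 534936335) (l 534920463))))) (c (a (b (a (l 534972431) (l 534956559)) (a (l 534995983) (l 534980111))) (b (a (l 534940687) (l 534925071)) (a (l 534964239) (l 534948623)))) (b (a (a (l 534990863) (l 534974735)) (a (l 534958863) (l 534942991))) (a (a (l 535014159) (l 534998031)) (a (l 534981903) (l 534966031)))))) (b (a (c (b (a (l 534967311) (l 534951183)) (a (l 534988815) (l 534972431))) (b (a (l 534989583) (l 534973199)) (a (l 535010831) (l 534994191)))) (c (b (a (l 534934799) (l 534918671)) (a (l 534956303) (l 534940175))) (b (a (l 534956815) (l 534940431)) (a (l 534977807) (l 534961423))))) (a (c (b (a (l 535011087) (l 534994703)) (a (l 535033871) (l 535017487))) (c (b (a (l 535026959) (l 535010575)) (a (l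 535049743) (l 535033103))) (b (l 534761487) (l 534784015)))) (c (b (a (l 534978319) (l 534962191)) (a (l 535001359) (l 534984975))) (b (a (l 535133711) (l 534983183)) (c (a (l 535016719) (l 535000335)) (l 534750735))))))), by decide +kernel⟩

def k141_A00pm_213_s3 : ∃ t, chk3 f_A00pm_213_s3 t 465 1012 3 = true :=
  ⟨(c (b (c (a (b (l 535125263) (a (l 534886671) (l 534871055))) (b (l 534825999) (a (l 534855695) (l 534840079)))) (a (b (a (l 534882831) (l 534866959)) (a (l 534904591) (l 534888719))) (b (a (l 534851343) (l 534835727)) (a (l 534873103) (l 534857487))))) (c (a (b (a (l 534909455) (l 534893839)) (a (l 534932751) (l 534917135))) (b (a (l 534878223) (l 534862863)) (a (l 534901775) (l 534886159)))) (b (a (a (l 534927119) (l 534911247)) (a (l 534895375) (l 534879759))) (a (a (l 534950159) (l 534934287)) (a (l 534918415) (l 534902799)))))) (b (a (c (b (a (l 534902543) (l 534886671)) (a (l 534924047) (l 534907919))) (a (b (l 534924047) (l 534945039)) (b (l 534907663) (l 534928911)))) (b (c (a (l 534870799)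 (l 534854927)) (a (l 534891535) (l 534875407))) (c (a (l 534892047) (l 534876175)) (a (l 534912527) (l 534896399))))) (a (c (b (a (l 534946063) (l 534930191)) (a (l 534968847) (l 534952719))) (b (a (l 534966799) (l 534950415)) (a (b (l 534983439) (l 534994703)) (l 534972943)))) (c (b (a (l 534914063) (l 534898191)) (a (l 534936847) (l 534920975))) (a (b (l 534934287) (l 534956559)) (b (l 534918159) (l 534940431))))))), by decide +kernel⟩

def k142_A00pm_213_s3 : ∃ t, chk3 f_A00pm_213_s3 t 232 1013 3 = true :=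
  ⟨(a (a (l 4) (b (b (b (c (c (l 534974223) (a (l 534999567) (l 534983695))) (c (a (l 535018767) (l 535002383)) (a (l 535039247) (l 535022607)))) (l 4)) (l 4)) (l 4))) (c (b (b (a (c (a (l 534957071) (l 534941455)) (a (l 534973967) (l 534958095))) (c (a (l 534925839) (l 534910223)) (a (l 534942223) (l 534926607)))) (a (a (l 4) (c (l 534966287) (l 534982671))) (c (a (l 534950671) (l 534935055)) (a (l 534966799) (l 534951183))))) (a (l 4) (a (l 4) (b (c (l 534960655) (l 534976271)) (l 4))))) (b (a (c (b (a (l 534992399) (l 534976271)) (a (l 4) (l 535000591))) (b (a (b (l 535006223) (l 535017999)) (b (l 534990095) (l 535001615))) (a (l 4) (b (l 535013647) (l 4))))) (c (b (a (l 534960143) (l 534944271)) (a (l 534984463) (l 534968335))) (a (b (b (l 534973711) (l 534985487)) (b (l 534997263) (l 535009551))) (b (l 534963471) (b (l 534981135) (l 534993167)))))) (b (a (l 4) (a (l 4) (b (c (l 534987023) (l 535005455)) (l 4)))) (l 4))))), by decide +kernel⟩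

def k143_A00pm_213_s3 : ∃ t, chk3 f_A00pm_213_s3 t 233 1012 2 = true :=
  ⟨(a (c (b (a (b (l 534747151) (l 534770191)) (b (l 534718223) (l 534741263))) (a (c (l 535069967) (b (l 534799375) (l 534823695))) (c (b (l 534760207) (l 534784783)) (b (l 534770191) (l 534794511))))) (a (b (c (b (l 534765327) (l 534788111)) (b (l 534779407) (l 534801935))) (c (b (l 534811407) (l 534835215)) (b (l 534824719) (l 534848527)))) (b (c (b (l 534735887) (l 534758415)) (b (l 534749455) (l 534771983))) (b (c (l 534781711) (l 534794767)) (c (l 534805775) (l 534818319)))))) (c (b (a (b (l 534689807) (l 534981135)) (b (l 534661647) (l 534952975))) (a (c (b (l 534731791) (l 534756367)) (b (l 534741519) (l 534765583))) (c (b (l 534703631) (l 534728207)) (b (l 534712847) (l 534736911))))) (a (b (c (b (l 534706703) (l 534729231)) (b (l 534720015) (l 534742031))) (b (c (l 534752527) (l 534765071)) (c (l 534776335) (l 534788623)))) (b (b (c (l 16775192) (l 534690575)) (c (l 534700303) (l 534712591))) (b (c (l 534723343) (l 534735631))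 (c (l 534747407) (l 534759183))))))), by decide +kernel⟩

def k144_A00pm_213_s3 : ∃ t, chk3 f_A00pm_213_s3 t 233 1013 2 = true :=
  ⟨(a (c (b (a (c (b (l 534838543) (l 534864655)) (b (l 534848527) (l 534874127))) (c (b (l 534809871) (l 534835727)) (b (l 534819343) (l 534844943)))) (a (c (b (l 534891279) (l 534918671)) (b (l 534900751) (l 534927887))) (b (c (l 534862607) (l 534871567)) (c (l 534889999) (l 534898703))))) (b (a (b (c (l 534860047) (l 534872847)) (c (l 534885391) (a (l 534905615) (l 534890255)))) (b (c (l 534830351) (l 534842895)) (c (l 534855695) (a (l 534875407) (l 534860303))))) (a (b (c (l 534911503) (a (l 534931471) (l 534916111))) (c (l 534938383) (a (l 4) (l 534942735)))) (b (c (l 534881807) (a (l 534901007) (l 534886159))) (c (l 534908687) (a (l 534927631) (l 14))))))) (a (b (c (c (b (l 534781455) (l 534807311)) (b (l 534790415) (l 534816015))) (b (c (l 534800911) (l 534812943)) (c (l 534826255) (a (l 534845455) (l 14))))) (l 14)) (l 14))), by decide +kernel⟩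

def k145_A00pm_213_s3 : ∃ t, chk3 f_A00pm_213_s3 t 466 1012 3 = true :=
  ⟨(c (b (c (a (b (l 534795279) (a (l 534824719) (l 534809615))) (b (l 534764815) (a (l 534794255) (l 534779151)))) (a (b (a (l 534820111) (l 534804751)) (a (l 534841871) (l 534826255))) (b (a (l 534789135) (l 534773775)) (a (l 534810895) (l 534795535))))) (b (a (c (a (l 534847503) (l 534832143)) (a (l 534864143) (l 534848527))) (c (a (l 534817039) (l 534801679)) (a (l 534833167) (l 534817807)))) (a (c (a (l 534870799) (l 534855439)) (a (l 534887183) (l 534871567))) (c (a (l 534840335) (l 534824975)) (a (l 534856207) (l 534840591)))))) (b (b (c (a (a (l 534839055) (l 534823183)) (a (l 534807567) (l 534791951))) (a (a (l 534859535) (l 534843407)) (a (l 534827535) (l 534811663)))) (a (c (a (l 534860303) (l 534844687)) (a (l 534880527) (l 534864399))) (c (a (l 534828815) (l 534813199)) (a (l 534848527) (l 534832655))))) (a (b (c (a (l 534882319) (l 534866447)) (a (l 534902031) (l 534886159))) (c (a (l 534905103) (l 534889231)) (a (l 534924303)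 (l 534908431)))) (a (b (c (l 534850831) (l 534870031)) (c (l 534873359) (l 534892303))) (b (c (l 534835215) (l 534854159)) (c (l 534857743) (l 534876431))))))), by decide +kernel⟩

def k146_A00pm_213_s3 : ∃ t, chk3 f_A00pm_213_s3 t 467 1012 3 = true :=
  ⟨(c (b (c (a (b (l 534734607) (a (l 534764047) (l 534748943))) (b (l 534704911) (b (l 16775400) (l 16775520)))) (a (b (b (l 16775392) (l 534756111)) (a (l 534780175) (l 534764815))) (b (b (l 16775168) (l 16775288)) (a (l 534749711) (l 534734607))))) (c (a (b (a (l 534786575) (l 534771471)) (a (l 534809871) (l 534794767))) (b (a (l 534756623) (l 534741775)) (a (l 534779919) (l 14)))) (a (b (a (l 534802447) (l 534787087)) (a (l 534825231) (l 534810127))) (b (a (l 534771983) (l 534756879)) (a (l 534794767) (l 14)))))) (b (a (c (b (a (l 534776591) (l 534760975)) (a (l 534797839) (l 534782223))) (b (a (l 534796047) (l 534780431)) (a (l 534816783) (l 534801167)))) (c (b (b (l 16775184) (l 534743055)) (a (l 534766863) (l 534751503))) (b (a (l 534764815) (l 534749199))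 (a (l 534785551) (l 534769935))))) (a (a (b (c (l 534819599) (l 534838287)) (c (l 534842127) (l 534860559))) (b (c (l 534804239) (l 534822671)) (c (l 534826767) (l 534844943)))) (a (b (c (l 534788623) (l 534807055)) (c (l 534811151) (l 534829071))) (b (c (l 534773263) (l 534791439)) (l 14)))))), by decide +kernel⟩

def k147_A00pm_213_s3 : ∃ t, chk3 f_A00pm_213_s3 t 233 1013 3 = true :=
  ⟨(a (c (b (b (a (c (a (l 534894863) (l 534879503)) (a (l 534910991) (l 534895375))) (c (a (l 534864143) (l 534849039)) (a (l 534879759) (l 534864399)))) (a (c (a (l 534919695) (l 534904335)) (a (l 534935311) (l 534919695))) (c (a (l 534888975) (l 534873871)) (a (l 534904335) (l 534888719))))) (b (a (c (a (l 534945295) (l 534929935)) (a (l 534960655) (l 534945039))) (c (a (l 534914575) (l 534899215)) (a (l 534929423) (l 534914063)))) (a (a (l 4) (c (l 534956303) (l 534970895))) (a (c (l 534940943) (l 534955535)) (l 14))))) (b (a (c (b (a (l 534928399) (l 534912527)) (a (l 534952463) (l 534936591))) (a (b (l 534947343) (l 535105295))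 (b (l 534931471) (l 534955023)))) (c (b (a (l 534896911) (l 534881039)) (a (l 534920975) (l 534905103))) (a (b (l 534915343) (l 534939151)) (b (l 534899471) (l 534923279))))) (a (c (b (a (l 534977551) (l 534961679)) (a (l 4) (l 534987279))) (a (b (b (l 534989327) (l 535001871)) (l 4)) (b (b (l 534973199) (l 534985743)) (b (l 534998287) (l 4))))) (c (b (a (l 534945807) (l 534930191)) (a (l 534971407) (l 14))) (a (b (l 534963727) (b (l 534982415) (l 14))) (b (l 534947599) (l 14))))))) (a (b (a (c (b (c (l 534833935) (l 534849039)) (c (l 534858511) (l 534873359))) (b (c (l 534865423) (l 534883599)) (c (l 534889487) (l 534907407)))) (b (c (c (l 534818831) (l 534833679)) (c (l 534850063) (l 534867727))) (l 14))) (l 14)) (l 14))), by decide +kernel⟩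

def k148_A00pm_213_s3 : ∃ t, chk3 f_A00pm_213_s3 t 116 507 1 = true :=
  ⟨(a (l 4) (b (b (a (a (l 4) (l 14)) (l 14)) (l 4)) (l 4))), by decide +kernel⟩

def k149_A00pm_213_s3 : ∃ t, chk3 f_A00pm_213_s3 t 117 253 1 = true :=
  ⟨(b (a (c (b (b (a (a (c (c (l 534909711) (b (l 16774952) (l 16775208))) (b (c (l 16774960) (l 16774976)) (c (l 534671631) (l 534683663)))) (l 14)) (l 14)) (l 14)) (l 14)) (b (b (a (a (c (b (c (l 534675215) (c (l 16775000) (l 16775008))) (c (l 534898447) (b (l 16775192) (l 14)))) (a (b (c (l 534715151) (l 534733583)) (c (l 534736143) (l 534754319))) (b (c (l 16774968) (l 534718223)) (l 14)))) (l 14)) (l 14)) (l 14)) (l 14))) (l 14)) (l 14)), by decide +kernel⟩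

def k150_A00pm_213_s3 : ∃ t, chk3 f_A00pm_213_s3 t 59 126 1 = true :=
  ⟨(b (a (b (b (b (a (c (c (l 16767608) (l 16765064)) (a (c (l 16768104) (l 16768232)) (c (l 16767464) (l 16767584)))) (c (c (l 16766320) (l 16766392)) (a (c (l 16766808) (l 16766936)) (l 16763592)))) (b (a (c (c (l 16768120) (l 16768192)) (c (l 16768280) (l 16765776))) (c (c (l 16766856) (l 16766920)) (c (l 16767008) (l 16767120)))) (l 14))) (l 14)) (l 14)) (b (b (a (c (c (l 16762776) (a (l 16765768) (l 16765128))) (a (b (l 16765552) (l 16763640)) (c (l 16765200) (l 16765304)))) (a (c (l 16761832) (c (l 16764552) (l 16764648))) (c (l 16763808) (c (l 16763896) (l 16763992))))) (l 14)) (l 14))) (l 14)), by decide +kernel⟩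

def k151_A00pm_213_s3 : ∃ t, chk3 f_A00pm_213_s3 t 29 127 1 = true :=
  ⟨(a (a (l 4) (l 14)) (l 14)), by decide +kernel⟩

def k152_A00pm_213_s3 : ∃ t, chk3 f_A00pm_213_s3 t 60 56 2 = true :=
  ⟨(b (a (b (c (l 16607864) (l 16537088)) (c (l 16633256) (l 16560648))) (b (c (l 16619216) (l 16541784)) (c (l 16647640) (l 16568000)))) (a (b (c (l 16659896) (l 16585416)) (c (l 16687824) (l 16611448))) (b (c (l 16677544) (l 16595648)) (c (l 16709000) (l 16624784))))), by decide +kernel⟩

def k153_A00pm_213_s3 : ∃ t, chk3 f_A00pm_213_s3 t 61 112 2 = true :=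
  ⟨(a (b (c (a (l 16630520) (b (l 16631664) (l 16647680))) (a (l 16547632) (c (l 16574352) (l 16531440)))) (c (a (l 16661536) (b (l 16664144) (l 16681056))) (a (l 16576120) (c (l 16605200) (l 16560912))))) (b (a (c (a (b (c (l 16661592) (l 16616560)) (l 16676736)) (b (a (c (l 16665960) (l 16620144)) (c (l 16668568) (l 16622288))) (a (c (l 16683472) (l 16636904)) (c (b (l 16682040) (l 16691160)) (b (l 16635160) (l 16643872)))))) (a (c (l 16579776) (l 16535344)) (b (c (a (l 16574816) (l 16576496)) (l 16530568)) (c (a (l 16590824) (l 16592888)) (l 16546016))))) (c (b (c (l 16673880) (l 16626656)) (c (l 16692536) (l 16644464))) (c (b (l 16579880) (l 16596856)) (l 16541568)))) (a (c (b (a (l 16672992) (b (a (l 16673304) (c (l 16700384) (l 16652696))) (c (l 16707336) (l 16660088)))) (a (l 16690712) (c (l 16688088) (a (l 16671896) (l 16675208))))) (b (a (l 16580952) (c (b (l 16604328) (l 16612768)) (l 16561904))) (a (l 16597168) (c (l 16667576) (l 16578224))))) (c (b (c (l 16702624) (l 16662824)) (a (c (l 16696624)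 (b (l 16674576) (l 16684048))) (l 16679944))) (b (c (l 16614360) (l 16566376)) (c (a (l 16661824) (l 16634520)) (l 16625496))))))), by decide +kernel⟩

def k154_A00pm_213_s3 : ∃ t, chk3 f_A00pm_213_s3 t 61 113 2 = true :=
  ⟨(a (b (c (a (l 16694240) (b (l 16698448) (l 16711608))) (a (l 16606224) (b (l 16606768) (l 16623184)))) (c (b (l 16693072) (l 16695080)) (a (l 16638032) (b (l 16640080) (l 16657464))))) (b (a (c (b (c (l 16711456) (l 16688408)) (b (l 16689416) (l 16690512))) (b (c (l 16640288) (l 16592672)) (c (l 16658136) (l 16609720)))) (c (a (b (a (c (a (l 16711016) (l 16710368)) (b (l 16692360) (l 16702032))) (l 16685312)) (a (c (a (l 16713344) (l 16713008)) (a (l 16707832) (l 16686520))) (l 16688056))) (c (l 16697192) (b (l 16700944) (l 16703680)))) (b (a (a (c (b (l 16643008) (l 16652240)) (l 16640472)) (l 16667040)) (c (l 16653392) (l 16603216))) (a (a (c (a (l 16665536) (l 16677576)) (a (l 16615752) (l 16617024))) (c (l 16669016) (l 16618600))) (c (l 16672872) (l 16621776)))))) (a (c (b (b (l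 16712576) (l 16713648)) (b (l 16714712) (l 16715776))) (b (b (l 16678744) (l 16677376)) (b (l 16665656) (l 16675048)))) (c (a (b (a (c (l 16715512) (b (l 16709488) (l 16710616))) (c (l 16714448) (l 16709000))) (a (b (l 16714432) (l 16715520)) (c (l 16717040) (a (l 16712016) (l 16711312))))) (c (l 16702584) (b (l 16706392) (l 16709096)))) (a (b (a (c (b (l 16680680) (l 16690384)) (b (l 16630104) (l 16639376))) (c (l 16688712) (l 16637376))) (b (a (l 16674432) (c (l 16703872) (l 16651832))) (a (l 16684208) (c (l 16706808) (l 16661648))))) (b (c (l 16692984) (l 16640936)) (c (l 16703704) (l 16660728)))))))), by decide +kernel⟩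

def k155_A00pm_213_s3 : ∃ t, chk3 f_A00pm_213_s3 t 30 56 3 = true :=
  ⟨(a (b (c (a (l 16478752) (b (l 16466160) (l 16490152))) (b (l 16396328) (l 16417056))) (a (c (b (l 16512592) (l 16536688)) (l 16452320)) (c (b (l 16515520) (l 16542328)) (b (l 16437184) (l 16461632))))) (b (a (c (b (a (l 16466600) (l 16467960)) (a (l 16492568) (l 16579264))) (b (l 16386128) (l 16410208))) (c (b (a (c (a (l 16491392) (l 16535184)) (l 16448336)) (c (l 16495304) (l 16449504))) (a (c (b (l 16514480) (l 16529784)) (l 16476608)) (c (b (l 16518872) (l 16535192)) (l 16479504)))) (b (a (l 16383280) (l 16381664)) (a (c (l 16431640) (l 16387176)) (l 16493128))))) (c (c (a (b (l 16544040) (l 16616664)) (a (b (b (l 16545552) (l 16561816)) (b (l 16578584) (l 16595856))) (b (b (l 16593976) (a (a (l 16566984) (l 16568704)) (l 16571176))) (a (b (a (l 16584456) (l 16586560)) (a (l 16602400) (b (l 16600328) (l 16609672)))) (b (l 16589408) (l 16608240)))))) (a (b (l 16500376) (l 16529664)) (a (b (l 16506624) (b (l 16530392) (l 16546856)))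 (b (b (l 16503304) (l 16519808)) (a (b (l 16535464) (a (l 16551808) (l 16553760))) (l 16547240)))))) (a (b (l 16519680) (c (l 16485088) (l 16441000))) (b (a (c (l 16460128) (l 16414144)) (c (l 16462800) (l 16414648))) (a (c (l 16490472) (l 16442912)) (c (b (l 16486856) (a (l 16502416) (l 16504816))) (b (l 16437384) (l 16453168))))))))), by decide +kernel⟩

def k156_A00pm_213_s3 : ∃ t, chk3 f_A00pm_213_s3 t 60 57 1 = true :=
  ⟨(b (c (b (a (c (l 16717088) (l 16638808)) (c (l 16720112) (l 16655504))) (a (c (l 16724640) (l 16667536)) (c (l 16723584) (l 16687872)))) (b (a (c (l 16562072) (l 16486888)) (c (l 16570656) (l 16487544))) (a (c (l 16588800) (l 16511560)) (c (l 16684472) (l 16515000))))) (c (b (a (c (l 16727680) (l 16697688)) (c (l 16726920) (l 16718648))) (a (c (l 16730600) (l 16723800)) (c (l 16730128) (l 16722368)))) (b (a (c (l 16616936) (l 16537600)) (c (l 16674144) (l 16627960))) (a (c (l 16646536) (l 16565080)) (c (a (l 16660224) (l 16671288)) (a (l 16571936) (l 16578064))))))), by decide +kernel⟩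

def k157_A00pm_213_s3 : ∃ t, chk3 f_A00pm_213_s3 t 61 114 2 = true :=
  ⟨(a (b (b (c (l 16718024) (l 16679520)) (c (l 16719952) (l 16686872))) (b (c (l 16721848) (l 16684232)) (c (l 16723704) (l 16693240)))) (b (a (c (b (a (l 16717432) (l 16717240)) (a (l 16719464) (l 16719312))) (b (b (l 16684576) (l 16694248)) (b (l 16704056) (l 16709464)))) (c (a (b (a (b (l 16716584) (l 16717648)) (c (l 16709024) (b (l 16713552) (l 16714768)))) (c (l 16711360) (b (l 16716008) (l 16675136)))) (b (c (l 16717080) (l 16711784)) (c (l 16719720) (l 16714448)))) (a (b (b (a (l 16694128) (c (l 16708080) (l 16671600))) (a (l 16704200) (c (l 16709320) (l 16681680)))) (b (a (l 16707952) (c (l 16710504) (l 16691904))) (c (l 16711712) (l 16700136)))) (b (c (l 16706416) (l 16681168)) (c (l 16709104) (l 16681296)))))) (a (c (b (l 16721400) (l 16723368)) (b (a (l 16711240) (l 16689952)) (c (l 16715776) (l 16710624)))) (c (a (b (b (l 16720752) (l 16700808)) (a (l 16723296) (l 16712800))) (b (c (l 16711784) (b (l 16716408) (l 16717688)))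 (a (c (l 16715120) (b (l 16698832) (l 16700024))) (l 16721456)))) (a (b (c (l 16713312) (l 16707920)) (c (l 16715448) (l 16710120))) (b (b (c (l 16711080) (l 16705680)) (c (l 16712376) (a (l 16707800) (l 16706240)))) (a (c (b (l 16714480) (l 16715688)) (b (l 16709072) (l 16710304))) (c (l 16713592) (l 16708248))))))))), by decide +kernel⟩

def k158_A00pm_213_s3 : ∃ t, chk3 f_A00pm_213_s3 t 61 114 3 = true :=
  ⟨(a (b (c (a (l 16580080) (b (l 16579704) (l 16596568))) (a (l 16490392) (l 16577520))) (c (a (l 16612776) (b (l 16613936) (l 16631832))) (b (l 16514752) (l 16614480)))) (c (b (c (a (b (l 16613664) (l 16632024)) (a (b (a (l 16620920) (b (l 16619152) (l 16628768))) (b (l 16657824) (l 16646632))) (b (l 16627696) (l 16668760)))) (a (b (l 16563832) (l 16581344)) (a (b (a (l 16569440) (l 16613736)) (b (l 16584360) (l 16593680))) (b (l 16574752) (l 16593856))))) (c (a (b (l 16650944) (l 16670448)) (a (b (l 16661576) (l 16682072)) (b (a (b (l 16661808) (l 16672256)) (l 16670104)) (a (b (l 16682864) (l 16683136))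 (l 16691728))))) (a (b (l 16599408) (l 16618032)) (a (b (l 16607928) (l 16627480)) (b (b (l 16608592) (l 16660552)) (a (b (l 16627424) (l 16679616)) (l 16635440))))))) (b (a (c (l 16606672) (l 16473576)) (c (a (b (l 16519360) (l 16536832)) (b (l 16522344) (l 16540464))) (a (b (l 16468640) (l 16485208)) (l 16478960)))) (a (c (b (l 16548392) (l 16566152)) (l 16506280)) (a (c (b (l 16554840) (l 16573448)) (l 16553000)) (b (c (l 16601120) (l 16505336)) (c (b (l 16573632) (l 16625408)) (l 16523664)))))))), by decide +kernel⟩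

def k159_A00pm_213_s3 : ∃ t, chk3 f_A00pm_213_s3 t 61 115 2 = true :=
  ⟨(a (b (b (c (l 16725528) (l 16695256)) (c (l 16727312) (l 16718216))) (b (c (l 16729056) (l 16720168)) (c (l 16730768) (l 16722096)))) (b (a (c (b (l 16725304) (l 16706224)) (b (c (l 16717832) (l 16712760)) (c (l 16719848) (l 16714856)))) (c (a (b (l 16714800) (l 16706264)) (b (a (c (l 16706864) (l 16712160)) (l 16713584)) (a (l 16716792) (c (l 16708152) (l 16703016))))) (a (b (c (l 16675600) (l 16712288)) (b (l 16716504) (l 16717544))) (b (a (c (c (l 16697736) (l 16695080)) (b (l 16711488) (l 16712624))) (c (l 16716232) (l 16710920))) (a (b (l 16716352) (l 16717400)) (c (l 16718776) (b (l 16712880) (l 16714144)))))))) (c (a (b (l 16708080) (l 16709904)) (b (a (l 16708176) (a (l 16708240) (c (l 16710504) (l 16715896)))) (a (l 16710040) (c (l 16712672) (l 16718144))))) (a (b (l 16698416) (l 16721384)) (b (a (b (l 16718576) (l 16719592)) (a (b (l 16718440) (l 16719472)) (c (b (l 16699680) (l 16700864)) (b (l 16715392) (l 16716592)))))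 (a (l 16710624) (c (b (l 16702072) (l 16703088)) (b (l 16717856) (l 16697944))))))))), by decide +kernel⟩

def k160_A00pm_213_s3 : ∃ t, chk3 f_A00pm_213_s3 t 61 115 3 = true :=
  ⟨(a (b (c (a (l 16647408) (b (l 16650272) (l 16669264))) (a (l 16551936) (c (l 16583912) (l 16534016)))) (c (a (l 16684088) (b (l 16688840) (l 16709000))) (a (l 16669480) (b (l 16585552) (l 16604008))))) (b (c (a (b (c (l 16690560) (l 16637256)) (a (l 16680200) (l 16688168))) (a (b (c (l 16703216) (l 16647664)) (c (l 16709160) (l 16668504))) (b (a (c (b (l 16683552) (l 16707216)) (b (l 16648064) (l 16658608))) (c (l 16705520) (l 16677688))) (a (c (l 16708864) (l 16674696)) (c (b (l 16707504) (l 16708784)) (b (l 16673128) (l 16684280))))))) (a (b (c (l 16584480) (l 16532240)) (c (l 16603400) (l 16550248))) (a (b (c (l 16592672) (l 16538248)) (c (l 16612536) (l 16557128))) (b (c (a (b (l 16592184) (l 16602216)) (l 16599912)) (a (l 16541616) (l 16543688))) (c (a (l 16617536) (b (l 16615504) (l 16626112))) (a (l 16560968) (l 16605408)))))))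 (c (a (b (c (l 16711952) (l 16677536)) (c (l 16714080) (l 16698648))) (b (a (c (l 16711336) (l 16690024)) (a (c (l 16711056) (l 16696776)) (c (b (l 16710048) (l 16711272)) (b (a (l 16694616) (l 16696656)) (a (l 16706000) (l 16705688)))))) (a (c (l 16713488) (l 16708312)) (c (a (l 16713216) (b (l 16712456) (l 16713592))) (a (l 16707928) (b (a (l 16707192) (l 16706960)) (l 16708248))))))) (a (b (c (l 16622928) (l 16568856)) (c (l 16643096) (l 16588072))) (b (a (c (l 16633056) (l 16576656)) (c (a (l 16638576) (b (l 16678832) (a (l 16646904) (l 16648776)))) (a (l 16580968) (b (l 16578760) (l 16589152))))) (a (c (l 16654256) (l 16596840)) (c (a (l 16660328) (b (a (l 16657920) (l 16659968)) (l 16670232))) (a (l 16601664) (b (l 16599712) (l 16610440)))))))))), by decide +kernel⟩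

def k161_A00pm_213_s3 : ∃ t, chk3 f_A00pm_213_s3 t 62 56 2 = true :=
  ⟨(b (a (c (b (a (b (l 16669248) (c (l 16692968) (l 16653120))) (b (l 16668520) (l 16683720))) (a (b (c (l 16695664) (l 16672416)) (c (l 16698344) (l 16692336))) (c (l 16690136) (l 16685192)))) (b (c (a (l 16636832) (l 16602632)) (b (l 16540768) (l 16558168))) (a (c (b (l 16622280) (l 16641288)) (l 16623488)) (b (l 16647600) (l 16667136))))) (c (b (a (c (l 16678296) (l 16663896)) (c (l 16671864) (l 16667416))) (a (c (l 16683400) (l 16678736)) (c (l 16676816) (l 16672432)))) (b (a (c (l 16611672) (l 16559768)) (c (l 16622160) (l 16568384))) (a (c (l 16652488) (l 16598640)) (c (l 16665224) (l 16651352)))))) (a (b (c (a (c (b (l 16701016) (l 16703672)) (b (l 16695840) (l 16698520))) (c (l 16695320) (l 16690440))) (c (a (b (l 16660904) (l 16681168)) (l 16672264)) (a (b (l 16609368) (l 16628672)) (l 16660280)))) (c (a (c (b (l 16706312) (l 16708936)) (b (l 16701184) (l 16703832))) (c (l 16700456) (l 16685144))) (a (b (c (l 16695984) (l 16648624))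 (c (l 16698664) (l 16669240))) (c (b (l 16689440) (l 16692048)) (b (l 16660176) (l 16681976)))))) (b (c (a (c (l 16688448) (l 16683840)) (c (l 16681720) (l 16677400))) (a (b (l 16657232) (l 16657168)) (c (l 16673040) (l 16653408)))) (c (a (c (l 16693440) (l 16688896)) (c (l 16665608) (l 16682320))) (a (c (l 16684296) (l 16658672)) (c (l 16678024) (l 16663192))))))), by decide +kernel⟩

def k162_A00pm_213_s3 : ∃ t, chk3 f_A00pm_213_s3 t 62 56 3 = true :=
  ⟨(c (b (a (b (c (l 16584432) (l 16452096)) (c (b (l 16525960) (l 16543608)) (l 16568368))) (b (c (a (l 16508184) (l 16514888)) (l 16459160)) (a (c (l 16545128) (l 16491952)) (c (l 16553872) (l 16498624))))) (a (b (c (a (b (l 16558272) (l 16576640)) (l 16575312)) (b (l 16510232) (l 16528136))) (a (c (b (l 16595616) (l 16615240)) (b (l 16543088) (l 16561720))) (c (b (l 16605136) (l 16625880)) (l 16644168)))) (b (a (c (l 16668584) (l 16529496)) (c (l 16637656) (l 16538328))) (a (c (l 16648096) (l 16653664)) (c (b (l 16629128) (l 16652432)) (b (l 16570048) (l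 16592184))))))) (b (a (b (l 16380168) (c (l 16434672) (l 16385272))) (b (c (l 16407224) (l 16355592)) (c (l 16441248) (l 16387672)))) (a (b (c (l 16467440) (l 16416216)) (c (b (l 16493536) (l 16511696)) (l 16449368))) (b (c (a (l 16474656) (l 16481240)) (l 16422160)) (c (a (l 16512808) (l 16521664)) (a (l 16456208) (l 16462632))))))), by decide +kernel⟩

def k163_A00pm_213_s3 : ∃ t, chk3 f_A00pm_213_s3 t 62 114 2 = true :=
  ⟨(a (b (c (a (c (b (l 16711552) (l 16714144)) (b (l 16706472) (l 16709096))) (c (l 16705544) (l 16690280))) (a (c (b (l 16701320) (l 16703968)) (b (l 16690552) (l 16698776))) (c (b (l 16694640) (l 16697224)) (b (l 16689728) (l 16692336))))) (c (a (c (b (l 16716736) (l 16719304)) (b (l 16711704) (l 16714304))) (c (l 16710576) (l 16700608))) (a (c (b (l 16706608) (l 16709224)) (b (l 16701432) (l 16704080))) (c (b (l 16699800) (l 16702360)) (b (l 16694936) (l 16697520)))))) (b (c (a (c (l 16677416) (l 16693904)) (c (l 16670416) (l 16687192))) (a (b (l 16675328) (c (l 16690624) (l 16686048)))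 (b (l 16669112) (l 16671584)))) (c (a (c (l 16682312) (l 16698856)) (b (l 16671928) (l 16674320))) (a (c (l 16694376) (a (l 16691416) (l 16688272))) (b (l 16674040) (l 16676496)))))), by decide +kernel⟩

def k164_A00pm_213_s3 : ∃ t, chk3 f_A00pm_213_s3 t 62 114 3 = true :=
  ⟨(c (a (b (a (b (c (l 16635528) (l 16580992)) (c (l 16656496) (l 16600928))) (c (b (l 16647352) (l 16669576)) (b (l 16590624) (l 16611744)))) (a (b (c (l 16678192) (l 16621552)) (c (l 16677896) (l 16663864))) (b (c (l 16690016) (l 16633616)) (c (l 16692624) (l 16656272))))) (b (a (c (b (l 16660968) (l 16681416)) (b (l 16601928) (l 16624344))) (c (b (l 16673104) (l 16675624)) (b (l 16615136) (l 16638968)))) (a (c (b (l 16683984) (l 16686536)) (b (l 16647576) (l 16671680))) (c (b (l 16678128) (l 16680624)) (b (l 16663696) (l 16676336)))))) (a (b (c (b (l 16530488) (a (l 16545864) (l 16554360))) (b (l 16475808) (l 16494216))) (c (a (b (l 16565432) (l 16585688)) (b (l 16575112) (l 16596616))) (b (l 16513288) (a (l 16529016) (l 16537424)))))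 (b (a (c (l 16616712) (l 16494968)) (c (b (l 16554008) (l 16576600)) (l 16503784))) (a (c (b (l 16586568) (l 16609440)) (b (l 16525968) (l 16547616))) (c (b (l 16600056) (l 16624424)) (b (l 16536760) (l 16559816))))))), by decide +kernel⟩

def k165_A00pm_213_s3 : ∃ t, chk3 f_A00pm_213_s3 t 62 115 2 = true :=
  ⟨(c (a (b (a (b (a (l 16721256) (l 16696552)) (a (l 16723832) (l 16699096))) (c (l 16705080) (l 16710896))) (a (b (a (l 16705424) (l 16701632)) (a (l 16707984) (l 16704152))) (c (l 16710016) (l 16715888)))) (b (a (c (l 16687168) (l 16693280)) (b (l 16676696) (l 16679064))) (a (b (l 16688632) (l 16691048)) (b (l 16681416) (l 16683768))))) (c (a (b (a (b (l 16711840) (l 16714440)) (b (l 16704904) (l 16707440))) (a (b (l 16717024) (l 16719600)) (b (l 16709968) (l 16712480)))) (b (a (l 16699344) (l 16682208)) (a (l 16704280) (l 16687024)))) (a (b (a (b (l 16706712) (l 16709336)) (b (l 16700096) (l 16702656))) (a (b (l 16711952) (l 16714544)) (b (l 16705208) (l 16707752)))) (b (a (b (l 16693632) (l 16696136))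 (a (l 16669136) (l 16666016))) (a (b (l 16698624) (l 16701112)) (c (l 16673472) (l 16671416))))))), by decide +kernel⟩

def k166_A00pm_213_s3 : ∃ t, chk3 f_A00pm_213_s3 t 62 115 3 = true :=
  ⟨(c (a (b (a (b (c (a (l 16703120) (l 16699936)) (a (l 16661584) (l 16668472))) (c (a (l 16705776) (l 16702560)) (a (l 16684088) (l 16691680)))) (c (b (l 16695224) (l 16697816)) (b (l 16679752) (l 16692904)))) (a (c (b (a (l 16708424) (l 16705184)) (a (l 16711056) (l 16707792))) (b (a (l 16703120) (l 16700048)) (a (l 16705776) (l 16702680)))) (c (b (l 16700392) (l 16702960)) (b (l 16695504) (l 16698104))))) (b (a (c (b (l 16689080) (l 16691616)) (b (l 16684480) (l 16687040))) (c (b (l 16683112) (l 16685592)) (b (l 16678856) (l 16681368)))) (a (b (c (l 16694136) (l 16689592)) (c (l 16696656) (l 16692136))) (b (c (l 16688064) (l 16683864)) (c (l 16690520) (l 16686352)))))) (a (b (a (b (c (l 16648600) (l 16548880)) (c (a (l 16625256) (l 16631576)) (l 16569456))) (b (c (l 16618896) (l 16558536)) (c (l 16642000) (l 16580424))))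 (a (b (c (a (l 16647392) (l 16654416)) (c (l 16605736) (l 16575840))) (c (a (l 16670312) (l 16678072)) (a (l 16609712) (l 16616104)))) (b (c (l 16665952) (l 16603128)) (c (l 16690800) (l 16668624))))) (b (a (c (b (l 16633168) (l 16657800)) (b (l 16570080) (l 16593408))) (c (b (l 16649736) (l 16676056)) (b (l 16583784) (l 16608704)))) (a (b (c (l 16683368) (l 16617640)) (c (l 16687568) (l 16642816))) (c (b (l 16679624) (l 16682144)) (b (l 16634624) (l 16661584))))))), by decide +kernel⟩

def k167_A00pm_213_s3 : ∃ t, chk3 f_A00pm_213_s3 t 126 56 1 = true :=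
  ⟨(c (b (a (c (b (b (l 16651808) (l 16654248)) (b (l 16656664) (l 16659080))) (b (c (l 16655240) (l 16641464)) (c (b (l 16660952) (l 16663408)) (b (l 16610776) (l 16633240))))) (c (b (l 22) (c (b (l 16642024) (l 16644344)) (l 22))) (l 22))) (c (b (a (c (l 16664672) (l 16660648)) (c (b (l 16646656) (l 16648952)) (b (l 16642912) (l 16645248)))) (a (c (l 16669392) (l 16665432)) (b (c (l 16651240) (l 16647568)) (c (l 16653520) (l 16649888))))) (b (a (c (b (l 16665856) (l 16668296)) (b (l 16656536) (l 16664224))) (l 22)) (a (c (b (l 16670720) (l 16673136)) (b (l 16666680) (l 16669128))) (c (b (l 22) (l 16656712)) (l 22)))))) (c (a (b (b (c (l 16523040) (l 16467760)) (c (b (l 16553680) (l 16575040)) (l 16506840))) (b (c (b (l 16597200) (l 16620184)) (b (l 16538096) (l 16559912))) (c (b (l 16644032) (l 16665088)) (b (l 16582560) (l 16606072))))) (b (b (c (l 22) (l 16475408)) (l 22)) (l 22))) (b (b (c (l 16499136) (l 16359280)) (c (a (l 16449656) (l 16457280)) (l 16395136))) (b (a (c (l 16489456) (l 16430256)) (c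 (b (l 16488664) (l 22)) (l 16437792))) (a (c (b (l 16521336) (l 16543616)) (l 16470784)) (c (l 22) (b (l 16469800) (l 22)))))))), by decide +kernel⟩

def k168_A00pm_213_s3 : ∃ t, chk3 f_A00pm_213_s3 t 127 112 2 = true :=
  ⟨(a (c (b (l 22) (c (b (a (l 16658456) (l 16645000)) (a (l 16660720) (l 16647232))) (l 22))) (l 22)) (a (c (b (l 22) (c (b (a (l 16642808) (b (l 16640816) (l 16641912))) (a (l 16645016) (b (l 16653496) (l 16654584)))) (l 22))) (l 22)) (c (b (l 22) (a (c (c (a (b (l 16641080) (l 16643248)) (b (b (l 16650304) (l 16651384)) (b (l 16652464) (l 16653536)))) (b (l 22) (b (l 22) (l 16652360)))) (l 22)) (b (c (c (b (b (l 22) (a (l 16649856) (c (l 16649520) (l 22)))) (a (c (l 16651048) (l 16650280)) (b (c (l 16650056) (l 22)) (c (l 16650592) (l 16649832))))) (l 22)) (l 22)) (c (b (c (a (l 16651736) (b (b (l 16650616) (l 16650880)) (b (l 16651152) (l 16651416)))) (l 22)) (a (c (l 16652808) (c (l 16651672) (l 22))) (c (a (c (l 16652640) (l 16651888)) (b (l 16651632) (l 16652168))) (c (b (l 16650696)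 (l 16651232)) (l 22))))) (l 22))))) (l 22)))), by decide +kernel⟩

def k169_A00pm_213_s3 : ∃ t, chk3 f_A00pm_213_s3 t 254 113 2 = true :=
  ⟨(c (b (b (a (b (l 16650176) (l 16651312)) (c (l 16649456) (l 16646112))) (a (b (l 16652440) (l 16653576)) (c (l 16651672) (l 16648360)))) (b (a (b (l 16654704) (l 16655824)) (c (l 16653872) (l 16650600))) (c (a (l 16669688) (l 16656064)) (a (l 16666296) (l 16652832))))) (b (l 22) (c (b (l 22) (a (l 16641912) (a (l 16660776) (l 16648904)))) (l 22)))), by decide +kernel⟩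

def k170_A00pm_213_s3 : ∃ t, chk3 f_A00pm_213_s3 t 510 113 4 = true :=
  ⟨(b (b (b (c (a (l 16657152) (l 16655672)) (l 22)) (c (a (l 16658248) (l 16656760)) (a (l 16655032) (l 16643144)))) (c (b (l 16648104) (l 16649192)) (a (l 16646216) (b (l 16644248) (l 16645352))))) (b (c (b (l 16650280) (a (l 16662600) (l 16661088))) (a (l 16648432) (b (l 16646456) (l 16647552)))) (c (c (a (l 16665000) (l 16663448)) (l 16652208)) (a (l 16650640) (b (l 16648648) (l 16660224)))))), by decide +kernel⟩

def k171_A00pm_213_s3 : ∃ t, chk3 f_A00pm_213_s3 t 511 226 4 = true :=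
  ⟨(a (b (c (b (c (l 16654984) (l 16653448)) (c (l 16656056) (l 16654528))) (b (l 22) (c (l 16653008) (l 22)))) (b (c (c (l 16657120) (l 16655608)) (c (l 16654096) (l 22))) (c (c (l 16658192) (l 16656688)) (c (l 16655184) (l 22))))) (b (a (b (c (c (l 16653880) (c (l 16652752) (l 16652000))) (l 22)) (c (c (l 16654944) (c (l 16653824) (l 16653080))) (c (c (l 16652336) (l 22)) (l 22)))) (b (c (c (c (a (l 16653696) (l 16653328)) (a (l 16652960) (l 16652592))) (b (c (l 16651768) (l 16651024)) (c (l 16652304) (l 16651560)))) (l 22)) (c (c (c (l 16654576) (a (l 16654024) (l 16653656))) (b (b (l 16652336) (l 16652600)) (b (l 16652872) (l 16653136)))) (b (l 22) (c (c (l 16651904) (l 22)) (l 22)))))) (a (b (c (c (l 16656008) (l 16654528)) (c (c (l 16653416) (l 22)) (l 22))) (c (c (l 16657072) (l 16655600)) (c (c (l 16654496) (l 16653760)) (l 22)))) (b (c (c (c (l 16655632) (l 16654904)) (a (c (l 16654352) (l 16653624)) (b (l 16653360) (l 16653896)))) (c (c (b (l 16652440) (l 16652984)) (l 22)) (l 22))) (c (c (c (l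 16656688) (l 16655960)) (c (a (l 16655416) (l 16655056)) (a (l 16654688) (l 16654336)))) (c (b (c (l 16653520) (l 16652792)) (c (l 16654056) (l 16653336))) (l 22))))))), by decide +kernel⟩

def k172_A00pm_213_s3 : ∃ t, chk3 f_A00pm_213_s3 t 511 227 4 = true :=
  ⟨(a (c (b (b (c (l 16659256) (l 16657768)) (c (l 16660320) (l 16658840))) (b (c (l 16661384) (l 16659912)) (c (l 16662440) (l 16660984)))) (b (b (c (l 16656272) (l 16654784)) (c (l 16657360) (l 16655872))) (b (c (l 16658440) (l 16656968)) (c (l 16659520) (l 16658056))))) (c (b (b (c (a (l 16658128) (c (l 16657736) (l 16657016))) (a (l 16656672) (c (l 16656304) (a (l 16655760) (l 16655400))))) (c (a (l 16659184) (c (l 16658792) (l 16658072))) (a (l 16657736) (b (l 16656736) (l 16657272))))) (b (c (a (l 16660240) (c (l 16659840) (l 16659128))) (a (l 16658800) (c (l 16658416) (l 16657712)))) (c (b (l 16660648) (l 16661176)) (a (l 16659864) (c (l 16659480) (l 16658776)))))) (b (b (a (c (c (l 16655576) (l 16654840)) (c (l 16654112) (l 22))) (c (b (b (l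 16654096) (l 16654368)) (b (l 16654640) (l 16654904))) (c (b (l 16653152) (l 16653696)) (l 22)))) (a (c (l 16656288) (c (l 16655200) (l 16654472))) (b (c (a (l 16655488) (l 16655128)) (c (l 16654232) (l 22))) (c (a (l 16656024) (l 16655664)) (c (l 16654776) (l 16654064)))))) (a (c (b (l 16657360) (l 16658440)) (b (c (l 16656280) (l 16655560)) (c (l 16657368) (l 16656648)))) (c (b (c (a (l 16657184) (l 16656824)) (a (l 16656472) (l 16656120))) (c (l 16658072) (a (l 16657544) (l 16657192)))) (a (b (c (l 16655760) (l 16655048)) (c (l 16656840) (l 16656136))) (b (c (b (l 16655144) (l 16655680)) (b (l 16654432) (l 16654976))) (c (b (l 16656224) (l 16656760)) (b (l 16655520) (l 16656056)))))))))), by decide +kernel⟩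

def k173_A00pm_213_s3 : ∃ t, chk3 f_A00pm_213_s3 t 255 113 5 = true :=
  ⟨(a (b (l 22) (b (l 22) (c (c (a (l 16658792) (l 16646928)) (l 22)) (l 22)))) (b (l 22) (a (c (b (l 22) (c (b (a (l 16655832) (l 16655160)) (l 16653976)) (l 22))) (l 22)) (c (c (c (b (l 22) (a (b (l 16654840) (l 16655936)) (b (b (l 22) (l 16654440)) (b (l 16654984) (l 16655528))))) (l 22)) (l 22)) (l 22))))), by decide +kernel⟩

def k174_A00pm_213_s3 : ∃ t, chk3 f_A00pm_213_s3 t 127 56 3 = true :=
  ⟨(a (c (b (b (c (l 22) (b (l 16474352) (l 22))) (l 22)) (l 22)) (b (b (c (l 16425232) (l 16365744)) (c (b (l 16456080) (l 22)) (l 16404904))) (c (l 22) (b (b (l 16436376) (l 16458432)) (l 22))))) (c (l 22) (c (b (b (b (l 16423688) (l 16528792)) (l 22)) (l 22)) (b (b (l 16372208) (a (l 16411408) (l 16500304))) (b (a (b (l 16444400) (l 22)) (l 22)) (l 22)))))), by decide +kernel⟩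

def k175_A00pm_213_s3 : ∃ t, chk3 f_A00pm_213_s3 t 126 57 2 = true :=
  ⟨(b (b (c (a (c (l 16674056) (l 16670168)) (b (c (l 16655784) (l 16652192)) (c (l 16658040) (l 16654488)))) (a (b (c (l 16654568) (l 16671568)) (c (l 16656968) (l 16673992))) (c (b (l 16659056) (l 16661392)) (b (l 22) (l 16657784))))) (c (a (b (l 16675624) (l 16677952)) (b (c (l 16660288) (l 16656768)) (c (l 16662528) (l 16659048)))) (a (c (b (l 16659344) (l 16661720)) (b (l 16676416) (l 16657848))) (b (c (l 16663712) (l 16660136)) (c (l 16666024) (l 16662488)))))) (b (c (a (b (l 16680264) (l 16682568)) (b (c (l 16664760) (l 16661312)) (c (l 16666984) (l 16663576)))) (a (b (a (l 16663720) (l 16671120)) (a (l 16666112) (l 16673472))) (b (c (l 16668328) (l 16664832)) (c (l 16670624) (l 16667160))))) (c (a (b (l 16684864) (l 16687144)) (b (c (l 16669192) (l 16665824)) (a (l 16671448) (l 16673280)))) (a (b (a (l 16668488) (l 16675824)) (a (l 16670856) (l 16667680))) (b (c (l 16672912) (l 16669488)) (c (l 16675192) (l 16671808))))))), by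 decide +kernel⟩

def k176_A00pm_213_s3 : ∃ t, chk3 f_A00pm_213_s3 t 254 114 2 = true :=
  ⟨(b (c (b (c (c (l 16660640) (l 16659008)) (a (l 16668552) (l 16655056))) (c (c (l 16662824) (l 16661208)) (a (l 16670800) (l 16657272)))) (c (b (a (l 16644208) (l 16651856)) (a (l 16656976) (l 16654112))) (b (l 22) (a (l 16653632) (b (l 22) (l 16651512)))))) (c (b (c (c (l 16664992) (l 16663400)) (a (l 16673032) (l 16659480))) (c (c (l 16661920) (l 16665584)) (c (l 16664008) (l 16662432)))) (b (c (a (l 16659256) (l 16656360)) (a (l 16655944) (a (l 16664384) (l 16652552)))) (c (a (l 16661520) (l 16658592)) (a (l 16658248) (a (l 16666664) (l 16654824))))))), by decide +kernel⟩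

def k177_A00pm_213_s3 : ∃ t, chk3 f_A00pm_213_s3 t 510 114 4 = true :=
  ⟨(b (b (c (a (b (l 16665848) (l 16666928)) (b (l 16664304) (l 16665376))) (a (l 16652840) (c (l 16662608) (l 16650632)))) (c (a (b (l 16668000) (l 16669072)) (b (l 16666440) (l 16667504))) (a (b (l 16664968) (l 16666064)) (b (l 16663496) (l 16664576))))) (b (c (a (b (l 16670144) (l 16671208)) (b (l 16668568) (l 16669624))) (c (a (l 16668440) (l 16666928)) (a (l 16666952) (l 16665480)))) (c (a (l 16672808) (b (l 16670688) (l 16671744))) (a (b (l 16669328) (l 16670416)) (b (l 16667824) (l 16668904)))))), by decide +kernel⟩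

def k178_A00pm_213_s3 : ∃ t, chk3 f_A00pm_213_s3 t 511 228 4 = true :=
  ⟨(a (c (b (b (c (l 16663496) (l 16662048)) (c (l 16664552) (l 16663112))) (b (c (l 16665608) (l 16664176)) (c (l 16666656) (l 16665240)))) (b (b (c (l 16660600) (l 16659144)) (c (l 16661672) (l 16660232))) (b (c (l 16662752) (l 16661320)) (c (l 16663824) (l 16662400))))) (c (b (b (c (b (l 16661696) (l 16662224)) (a (l 16660928) (c (l 16660528) (l 16659832)))) (c (b (l 16662744) (l 16663264)) (a (l 16661984) (c (l 16661584) (l 16660888))))) (b (b (c (l 16663792) (l 16662400)) (c (l 16664312) (l 16662928))) (b (c (l 16664832) (l 16663456)) (c (l 16665352) (l 16663984))))) (b (b (c (a (l 16659512) (b (l 16658520) (l 16659056))) (a (l 16655472) (b (b (l 16656984) (l 16657256)) (a (l 16657832) (l 16657488))))) (c (a (l 16660576) (c (l 16660200) (l 16659504))) (b (c (l 16658896) (l 16658200)) (c (l 16659440) (l 16658744))))) (b (c (a (l 16661648) (c (l 16661256) (l 16660576))) (a (l 16660248) (c (l 16659888) (a (l 16659376) (l 16659024)))))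 (c (a (l 16662712) (c (l 16662320) (l 16661640))) (a (l 16661328) (b (l 16660344) (l 16660880)))))))), by decide +kernel⟩

def k179_A00pm_213_s3 : ∃ t, chk3 f_A00pm_213_s3 t 511 229 4 = true :=
  ⟨(a (c (b (b (c (l 16667704) (l 16666296)) (c (l 16668752) (l 16667352))) (b (c (l 16669800) (l 16668408)) (c (l 16670840) (l 16669464)))) (b (b (c (l 16664888) (l 16663480)) (c (l 16665960) (l 16664560))) (b (c (l 16667024) (l 16665640)) (c (l 16668088) (l 16666712))))) (c (b (b (b (c (l 16665872) (l 16664504)) (c (l 16666392) (l 16665032))) (c (a (l 16667568) (l 16666776)) (a (l 16666200) (l 16665440)))) (b (c (a (l 16668608) (l 16667816)) (a (l 16667248) (l 16666480))) (c (l 16666624) (a (l 16668296) (l 16667528))))) (b (b (c (a (l 16663776) (c (l 16663376) (l 16662696))) (a (l 16662400) (c (l 16662024) (l 16661344)))) (c (a (l 16664840) (c (l 16664432) (l 16663760))) (a (l 16663472) (c (l 16663088) (l 16662416))))) (b (c (b (l 16665264) (l 16665792)) (a (l 16664544) (c (l 16664152) (l 16663488)))) (c (b (l 16666320)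 (l 16666848)) (a (l 16665616) (c (l 16665216) (l 16664560)))))))), by decide +kernel⟩

def k180_A00pm_213_s3 : ∃ t, chk3 f_A00pm_213_s3 t 255 228 5 = true :=
  ⟨(a (c (b (b (c (l 16659768) (l 22)) (c (l 16660880) (l 16659368))) (a (a (l 16652344) (l 16651648)) (b (l 16650056) (l 16651160)))) (c (b (l 22) (b (l 22) (l 16649624))) (l 22))) (a (b (c (b (c (l 16657696) (l 22)) (c (l 16658792) (a (l 16657680) (l 16657016)))) (l 22)) (c (b (c (l 16659888) (a (l 16658792) (l 16658120))) (c (l 16660984) (l 16659560))) (b (l 22) (b (l 22) (c (l 16658416) (l 22)))))) (b (b (c (c (a (c (l 16657024) (l 16656320)) (b (c (l 16656072) (l 16655376)) (c (l 16656616) (l 16655920)))) (l 22)) (l 22)) (c (a (c (c (l 16658112) (l 16657408)) (c (l 16656704) (l 22))) (c (b (c (l 16657160) (l 16656464)) (c (l 16657696) (l 16657008))) (c (b (l 16655768) (l 16656320)) (l 22)))) (l 22))) (c (a (c (b (c (l 16659200) (l 16658504)) (c (l 16660288) (l 16659592))) (b (c (l 16657808) (l 16657104)) (c (l 16658904) (l 16658208)))) (a (b (c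 (c (l 16658680) (l 16657992)) (c (l 16657304) (l 16656616))) (c (c (l 16659768) (l 16659080)) (c (l 16658392) (l 16657712)))) (b (c (c (b (l 16658072) (l 16658608)) (b (l 16657384) (l 16657928))) (c (b (l 16656696) (l 16657240)) (b (l 22) (l 16656560)))) (c (c (l 16659416) (b (l 16658472) (l 16659008))) (c (b (l 16657792) (l 16658336)) (b (l 16657112) (l 16657656))))))) (b (l 22) (c (b (l 22) (a (l 16657440) (a (l 16656960) (c (l 16656976) (l 22))))) (l 22))))))), by decide +kernel⟩

def k181_A00pm_213_s3 : ∃ t, chk3 f_A00pm_213_s3 t 510 229 5 = true :=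
  ⟨(b (b (c (a (l 16664152) (l 16652264)) (c (l 16661232) (l 22))) (c (a (l 16665264) (l 16653368)) (c (l 16662352) (l 22)))) (c (a (l 16656440) (b (l 16654472) (l 16663432))) (c (b (l 16663472) (l 16664592)) (b (l 16651520) (l 16652648))))), by decide +kernel⟩

def k182_A00pm_213_s3 : ∃ t, chk3 f_A00pm_213_s3 t 1022 229 5 = true :=
  ⟨(b (c (b (c (l 16662072) (l 16660664)) (c (l 16663160) (l 16661760))) (c (a (b (l 16659576) (l 16660688)) (b (l 16658920) (l 16660032))) (l 22))) (c (c (b (l 16664248) (l 16665336)) (b (l 16662856) (l 16663952))) (b (a (c (l 16661800) (l 16660400)) (c (l 16661136) (l 16659760))) (c (l 16662576) (a (l 16661512) (l 16660872)))))), by decide +kernel⟩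

def k183_A00pm_213_s3 : ∃ t, chk3 f_A00pm_213_s3 t 1023 229 5 = true :=
  ⟨(b (c (a (c (b (l 16661024) (l 16662112)) (b (c (l 16659992) (l 16659304)) (c (l 16661088) (l 16660400)))) (c (b (a (c (l 16660848) (l 16660168)) (b (l 16659888) (l 16660432))) (c (a (l 16661920) (l 16661576)) (a (l 16661248) (l 16660904)))) (a (b (c (l 16659488) (l 16658808)) (c (l 16660576) (l 16659904))) (b (c (b (l 16658880) (l 16659424)) (b (l 16658200) (l 16658752))) (c (b (l 16659968) (l 16660512)) (b (l 16659296) (l 16659840))))))) (b (c (c (a (l 16658616) (b (l 16657688) (l 16658240))) (l 22)) (l 22)) (c (a (c (l 16659720) (l 16659040)) (b (a (l 16658616) (c (l 16658624) (l 16657960))) (c (l 16659336) (l 16658672)))) (l 22)))) (a (b (c (c (l 16663192) (c (l 16662176) (l 16661496))) (c (c (l 16660824) (l 16660144)) (c (l 16659464) (l 22)))) (c (c (l 16664272) (c (l 16663264) (l 16662592))) (c (c (l 16661920) (l 16661248)) (c (l 16660576) (l 16659904))))) (c (b (c (b (l 16662224) (l 16662760)) (b (b (l 16660752) (l 16661024))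 (a (l 16661600) (l 16661264)))) (b (c (l 16663296) (a (l 16662144) (l 16661808))) (c (l 16663840) (a (l 16662688) (l 16662352))))) (b (c (b (c (l 16659888) (l 16659224)) (c (l 16660432) (l 16659768))) (c (a (l 16658984) (b (l 22) (l 16658952))) (l 22))) (b (c (c (l 16660984) (l 16660320)) (c (l 16659656) (l 22))) (c (c (l 16661528) (l 16660872)) (a (l 16660040) (c (l 16660056) (l 16659400))))))))), by decide +kernel⟩

def k184_A00pm_213_s3 : ∃ t, chk3 f_A00pm_213_s3 t 254 115 2 = true :=
  ⟨(b (c (b (c (b (l 16662760) (l 16663840)) (c (l 16666208) (l 16664648))) (c (b (l 16664920) (l 16665992)) (c (l 16668392) (l 16666856)))) (b (c (a (l 16674272) (l 16660824)) (a (l 16660552) (a (l 16668944) (l 16657088)))) (c (a (l 16676520) (l 16663048)) (a (l 16662840) (a (l 16671216) (l 16659344)))))) (c (b (c (b (l 16667072) (l 16668144)) (c (l 16665328) (l 16669056))) (c (b (l 16669216) (l 16670280)) (c (l 16667504) (l 16671248)))) (b (c (a (l 16678768) (l 16665264)) (a (l 16665120) (a (l 16673480) (l 16661592))))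 (c (c (l 16669744) (l 16668232)) (a (l 16667400) (a (l 16675736) (l 16663832))))))), by decide +kernel⟩

def k185_A00pm_213_s3 : ∃ t, chk3 f_A00pm_213_s3 t 255 230 4 = true :=
  ⟨(a (b (c (a (l 16674936) (b (l 16672792) (l 16673848))) (a (b (l 16671496) (l 16672576)) (b (l 16669976) (l 16671048)))) (b (c (l 16670464) (a (l 16673656) (l 16672120))) (c (l 16676760) (a (l 16674736) (l 16673192))))) (b (a (c (b (c (l 16671880) (l 16670520)) (l 16669624)) (b (c (l 16669152) (l 16667784)) (c (l 16670216) (l 16668856)))) (c (b (c (l 16670280) (a (l 16669344) (l 16668568))) (c (l 16671312) (a (l 16670392) (l 16669608)))) (b (b (a (l 16667080) (c (l 16667000) (l 16665688))) (c (l 16667904) (l 16663960))) (b (c (l 16668424) (l 16667112)) (c (l 16668952) (l 16667648)))))) (a (c (b (l 16673288) (l 16674328)) (b (c (l 16671272) (l 16669928)) (c (l 16672328) (l 16670992)))) (c (b (c (l 16672336) (a (l 16671432) (l 16670648))) (c (l 16673368) (l 16672080))) (b (b (c (l 16669480) (l 16668176)) (c (l 16670008) (l 16668712)))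 (b (c (l 16670528) (l 16669240)) (c (l 16671056) (l 16669768)))))))), by decide +kernel⟩

def k186_A00pm_213_s3 : ∃ t, chk3 f_A00pm_213_s3 t 255 231 4 = true :=
  ⟨(a (b (b (c (l 16677816) (a (l 16675816) (l 16674264))) (c (l 16678864) (a (l 16676888) (l 16675328)))) (b (c (l 16679912) (a (l 16677960) (l 16676392))) (c (l 16680960) (a (l 16679032) (l 16677456))))) (b (a (c (b (l 16675368) (l 16676408)) (b (c (l 16673384) (l 16672064)) (c (l 16674440) (l 16673128)))) (c (b (c (l 16674392) (l 16673112)) (c (l 16675416) (l 16674152))) (b (c (a (l 16672224) (l 16671456)) (a (l 16670936) (l 16670192))) (c (a (l 16673272) (l 16672496)) (a (l 16671992) (l 16671248)))))) (a (c (b (l 16677440) (l 16678480)) (b (c (l 16675496) (l 16674192)) (c (l 16676544) (l 16675256)))) (c (b (c (l 16676440) (l 16675184)) (c (l 16677464) (l 16676216))) (b (c (a (l 16674320) (l 16673544)) (a (l 16673056) (l 16672296))) (c (l 16674976) (a (l 16674112) (l 16673352)))))))), by decide +kernel⟩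

def k187_A00pm_213_s3 : ∃ t, chk3 f_A00pm_213_s3 t 510 230 5 = true :=
  ⟨(b (b (c (a (l 16668584) (l 16667152)) (c (l 16665704) (l 16653776))) (c (a (l 16669680) (l 16668248)) (c (l 16666816) (l 16665384)))) (c (a (b (l 16670784) (l 16671880)) (b (l 16669336) (l 16670432))) (b (c (l 16667928) (l 16666512)) (c (l 16669040) (l 16667632))))), by decide +kernel⟩

def k188_A00pm_213_s3 : ∃ t, chk3 f_A00pm_213_s3 t 1022 230 5 = true :=
  ⟨(c (b (b (c (l 16666416) (l 16665048)) (c (l 16667504) (l 16666144))) (b (c (l 16668584) (l 16667232)) (c (l 16669656) (l 16668320)))) (c (b (b (l 16663680) (l 16664784)) (b (l 16665888) (l 16666984))) (b (a (b (l 16662632) (l 16663752)) (b (l 16661992) (l 16663104))) (b (a (l 16664864) (l 16664208)) (l 16663024))))), by decide +kernel⟩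

def k189_A00pm_213_s3 : ∃ t, chk3 f_A00pm_213_s3 t 1023 230 5 = true :=
  ⟨(c (b (b (a (c (l 16665352) (l 16664016)) (c (c (l 16664968) (l 16664312)) (c (a (l 16663832) (l 16663488)) (a (l 16663176) (l 16662832))))) (a (c (l 16666424) (l 16665104)) (c (c (l 16666040) (l 16665392)) (c (l 16664744) (a (l 16664264) (l 16663920)))))) (b (a (c (l 16667504) (l 16666192)) (b (c (l 16666520) (l 16665232)) (c (l 16667056) (l 16665768)))) (a (c (l 16668576) (l 16667272)) (c (c (l 16668176) (l 16667536)) (c (l 16666896) (l 16666256)))))) (b (a (b (c (c (l 16663016) (l 16662352)) (c (l 16661680) (l 16661016))) (c (c (l 16664112) (l 16663448)) (c (l 16662792) (l 16662128)))) (a (b (c (c (l 16662520) (l 16661856)) (c (l 16661200) (l 16660544))) (c (c (l 16663608) (l 16662960)) (c (l 16662304) (l 16661648)))) (b (c (c (b (l 16661912) (l 16662456)) (b (l 16661256) (l 16661808))) (c (b (l 16660608) (l 16661160)) (b (l 16659952) (l 16660504)))) (c (c (b (l 16663000) (l 16663552)) (b (l 16662352) (l 16662904))) (c (b (l 16661704)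 (l 16662256)) (b (l 16661056) (l 16661616))))))) (a (c (b (c (l 16665208) (l 16664552)) (l 16665976)) (b (c (l 16663896) (l 16663240)) (c (l 16665000) (l 16664344)))) (c (b (a (c (l 16664704) (l 16664056)) (b (l 16663768) (l 16664320))) (c (a (l 16665792) (l 16665456)) (a (l 16665152) (l 16664816)))) (a (b (c (l 16663408) (l 16662760)) (c (l 16664504) (l 16663864))) (b (c (b (l 16662808) (l 16663360)) (b (l 16662168) (l 16662720))) (c (b (l 16663904) (l 16664456)) (b (l 16663272) (l 16663824))))))))), by decide +kernel⟩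

def k190_A00pm_213_s3 : ∃ t, chk3 f_A00pm_213_s3 t 255 231 5 = true :=
  ⟨(a (b (c (a (b (l 16672976) (l 16674072)) (b (l 16671520) (l 16672608))) (b (a (l 16670136) (l 16658288)) (b (l 16659800) (l 16660360)))) (c (a (b (l 16675168) (l 16676264)) (b (l 16673696) (l 16674776))) (b (b (l 16660912) (l 16661464)) (c (l 16673472) (l 16672104))))) (a (c (b (b (c (l 16670736) (l 16669408)) (c (l 16671816) (l 16670496))) (b (c (l 16672888) (l 16671584)) (c (l 16673960) (l 16672664)))) (b (c (b (l 16668088) (l 16669184)) (b (l 16666760) (l 16667864))) (b (c (l 16670280) (l 16668976)) (c (l 16671376) (l 16670080))))) (c (b (b (a (c (l 16669648) (l 16668360)) (c (c (l 16669240) (l 16668608)) (c (l 16667976) (l 16667344)))) (c (b (l 16670088) (l 16670624)) (a (l 16669440) (c (l 16669048) (l 16668424))))) (b (c (b (l 16671152) (l 16671688)) (a (l 16670520) (c (l 16670120) (l 16669504)))) (c (b (l 16672224) (l 16672752)) (a (l 16671592) (c (l 16671192) (l 16670576)))))) (b (c (b (a (l 16667064) (c (l 16666712) (a (l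 16666240) (l 16665912)))) (a (l 16668160) (b (l 16667208) (l 16667752)))) (a (b (c (l 16666096) (l 16665456)) (c (l 16667200) (l 16666560))) (b (b (b (l 16664712) (l 16664992)) (b (l 16665264) (l 16665536))) (a (c (l 16666704) (l 16666072)) (b (l 16665792) (l 16666336)))))) (b (a (c (l 16669248) (c (l 16668296) (l 16667664))) (c (c (l 16668880) (l 16668256)) (a (c (l 16667800) (l 16667176)) (b (l 16666888) (l 16667432))))) (a (c (l 16670336) (l 16669080)) (c (c (l 16669960) (l 16669344)) (c (a (l 16668896) (l 16668560)) (a (l 16668272) (l 16667952)))))))))), by decide +kernel⟩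

def k191_A00pm_213_s3 : ∃ t, chk3 f_A00pm_213_s3 t 126 57 3 = true :=
  ⟨(b (a (c (b (c (b (l 16667560) (l 16670016)) (b (l 16630496) (l 16655880))) (c (b (l 16672472) (l 16674912)) (b (l 16668496) (l 16670968)))) (b (c (b (l 16566768) (l 16590824)) (b (l 16503296) (l 16526040))) (c (b (l 16615840) (l 16641856)) (b (l 16549704) (l 16574320))))) (l 22)) (a (b (c (c (b (l 16677344) (l 16679768)) (b (l 16673432) (l 16675888))) (c (b (l 16668928) (l 16671976)) (b (l 16599944) (l 16626616)))) (c (c (b (l 16661216) (l 16663616)) (b (l 16678344) (l 16680784))) (c (b (l 16674464) (l 16676936)) (b (l 16654408) (l 16673048))))) (c (b (c (b (l 16661304) (l 16663680)) (l 22)) (c (b (l 16666040) (l 16668392)) (b (l 22) (c (l 16655328) (l 22))))) (l 22)))), by decide +kernel⟩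

def k192_A00pm_213_s3 : ∃ t, chk3 f_A00pm_213_s3 t 127 114 3 = true :=
  ⟨(l 22), by decide +kernel⟩

def k193_A00pm_213_s3 : ∃ t, chk3 f_A00pm_213_s3 t 254 115 3 = true :=
  ⟨(c (b (c (b (a (l 16657296) (a (l 16655344) (l 16654064))) (a (l 16659624) (a (l 16657656) (l 16656360)))) (l 22)) (b (c (a (l 16661952) (a (l 16659960) (l 16658656))) (l 22)) (c (a (l 16664264) (b (l 16661024) (l 16662168))) (a (l 16661112) (b (l 16658056) (l 16659216)))))) (l 22)), by decide +kernel⟩

def k194_A00pm_213_s3 : ∃ t, chk3 f_A00pm_213_s3 t 510 115 6 = true :=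
  ⟨(b (c (c (b (b (l 22) (l 16653472)) (b (l 16654600) (l 16655736))) (b (l 22) (b (l 22) (l 16654320)))) (l 22)) (b (b (c (c (l 16656864) (l 16655456)) (l 22)) (c (c (l 16657992) (l 16656600)) (l 22))) (b (c (c (l 16669608) (l 16657736)) (a (l 16656248) (c (l 16666232) (l 22)))) (c (c (l 16670728) (l 16658872)) (a (l 16657400) (c (l 16667376) (l 22))))))), by decide +kernel⟩

def k195_A00pm_213_s3 : ∃ t, chk3 f_A00pm_213_s3 t 511 230 6 = true :=
  ⟨(a (c (b (b (l 22) (c (a (l 16662376) (l 16661752)) (l 22))) (b (c (a (l 16663504) (l 16662872)) (l 22)) (a (c (l 16664624) (l 16663272)) (c (l 16663992) (l 16662664))))) (l 22)) (c (b (b (l 22) (c (c (a (l 16661464) (a (l 16661000) (b (l 16660416) (l 16660968)))) (l 22)) (l 22))) (a (b (c (c (l 16662584) (l 16661920)) (l 22)) (c (c (l 16663696) (l 16663040)) (c (l 16662392) (l 22)))) (b (c (b (a (l 16661512) (c (l 16661520) (l 16660880))) (a (l 16662064) (c (l 16662080) (l 16661440)))) (l 22)) (c (b (a (l 16662624) (c (l 16662632) (l 16662000))) (c (l 16663344)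 (l 16662704))) (b (l 22) (c (a (l 16662224) (l 16661920)) (l 22))))))) (l 22))), by decide +kernel⟩

def k196_A00pm_213_s3 : ∃ t, chk3 f_A00pm_213_s3 t 1022 231 6 = true :=
  ⟨(b (c (b (a (c (l 16665744) (l 16664400)) (c (l 16665112) (l 16663792))) (a (c (l 16666864) (l 16665536)) (c (l 16666232) (l 16664920)))) (l 22)) (c (b (a (c (l 16667984) (l 16666664)) (c (l 16667344) (l 16666048))) (c (l 16666160) (a (l 16667792) (l 16667176)))) (c (a (b (l 16665344) (l 16666480)) (b (l 16664752) (l 16665888))) (l 22)))), by decide +kernel⟩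

def k197_A00pm_213_s3 : ∃ t, chk3 f_A00pm_213_s3 t 1023 231 6 = true :=
  ⟨(b (c (a (b (c (c (l 16664808) (l 16664160)) (c (l 16663512) (l 16662872))) (c (c (l 16665920) (l 16665280)) (c (l 16664640) (l 16664000)))) (a (b (c (c (l 16664336) (l 16663696)) (c (b (l 16662784) (l 16663344)) (b (l 22) (l 16662704)))) (b (c (l 16664848) (l 16663584)) (c (l 16665408) (l 16664144)))) (b (c (c (b (l 16663744) (l 16664296)) (b (l 16663112) (l 16663672))) (c (b (l 16662480) (l 16663040)) (b (l 22) (l 16662408)))) (c (c (b (l 16664848) (l 16665400)) (b (l 16664224) (l 16664784))) (c (b (l 16663600) (l 16664160)) (b (l 16662976) (l 16663536))))))) (l 22)) (c (a (b (c (c (l 16667024) (l 16666392)) (c (l 16665760) (l 16665120))) (c (c (l 16668136) (l 16667504)) (c (l 16666880) (l 16666248)))) (a (b (c (c (l 16666552) (l 16665920)) (c (l 16665296) (l 16664672))) (c (c (l 16667656) (l 16667032)) (c (l 16666416) (l 16665792)))) (b (c (c (b (l 16665960) (l 16666512)) (b (l 16665336) (l 16665888))) (b (c (l 16664712) (l 16664096))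 (c (l 16665272) (l 16664656)))) (c (b (c (l 16667064) (l 16666448)) (c (l 16667616) (l 16667000))) (b (c (l 16665832) (l 16665216)) (c (l 16666392) (l 16665776))))))) (b (c (c (a (l 16664488) (a (b (l 16663768) (l 16664328)) (b (l 16663472) (l 16664040)))) (l 22)) (l 22)) (c (a (c (l 16665616) (l 16664984)) (c (a (b (l 16664896) (l 16665456)) (b (l 16664600) (l 16665160))) (b (l 22) (a (l 16664840) (l 16664552))))) (l 22))))), by decide +kernel⟩

def k198_A00pm_213_s3 : ∃ t, chk3 f_A00pm_213_s3 t 255 115 7 = true :=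
  ⟨(l 22), by decide +kernel⟩

def k199_A00pm_213_s3 : ∃ t, chk3 f_A00pm_213_s3 t 60 116 1 = true :=
  ⟨(c (b (a (c (l 16733400) (l 16727224)) (c (l 16733208) (l 16715488))) (a (c (l 16736096) (l 16730560)) (c (l 16736160) (b (l 16728624) (l 16730344))))) (b (a (c (l 16677656) (l 16594056)) (c (b (l 16691848) (l 16709944)) (b (l 16599136) (l 16615896)))) (a (c (l 16710352) (l 16666536)) (c (b (l 16721624) (l 16723640)) (b (l 16633136) (l 16650864)))))), by decide +kernel⟩

def k200_A00pm_213_s3 : ∃ t, chk3 f_A00pm_213_s3 t 61 116 1 = true :=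
  ⟨(c (b (b (a (c (l 16711480) (l 16723984)) (c (a (l 16711680) (c (l 16714392) (l 16709528))) (a (l 16723344) (c (l 16715064) (a (l 16720624) (l 16699464)))))) (a (c (l 16713120) (l 16725856)) (c (a (l 16713432) (l 16724256)) (a (l 16725272) (c (l 16706512) (l 16701576)))))) (b (a (c (l 16714728) (l 16727688)) (c (a (l 16694168) (l 16726032)) (a (l 16727176) (c (l 16708408) (l 16703560))))) (a (c (l 16716304) (l 16729496)) (c (a (l 16695840) (l 16717288)) (a (l 16708072) (a (l 16707928) (l 16718360))))))) (a (b (c (a (l 16695880) (b (l 16714752) (l 16716856))) (a (b (l 16612200) (l 16630616)) (b (l 16623056) (l 16642704)))) (c (a (b (l 16719960) (l 16722000)) (b (l 16718928) (l 16720984))) (a (b (l 16649584) (l 16669128)) (b (l 16662968) (l 16683880))))) (b (c (a (b (c (l 16716184) (l 16711320)) (c (l 16718256) (l 16713488))) (b (c (a (l 16715608) (l 16715272)) (a (l 16710520) (b (l 16709480) (l 16710576)))) (c (l 16717536) (a (l 16712696) (l 16712208))))) (a (b (c (l 16663912) (l 16607928)) (c (l 16685408)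 (l 16628448))) (b (b (a (l 16683400) (c (l 16679384) (l 16619472))) (c (l 16686272) (l 16668624))) (b (c (l 16697792) (l 16679608)) (c (l 16707864) (l 16648832)))))) (c (a (b (c (l 16720296) (l 16715632)) (l 16709560)) (b (c (l 16719608) (a (l 16714848) (l 16714368))) (c (l 16700680) (l 16716744)))) (a (b (c (l 16707600) (l 16649640)) (c (l 16713128) (l 16671544))) (b (b (c (l 16708984) (l 16660184)) (c (l 16710104) (l 16671744))) (b (c (l 16711216) (l 16683496)) (c (l 16712320) (l 16695448))))))))), by decide +kernel⟩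

def k201_A00pm_213_s3 : ∃ t, chk3 f_A00pm_213_s3 t 30 117 2 = true :=
  ⟨(a (b (a (c (l 16696736) (l 16733800)) (c (l 16728512) (b (l 16732048) (l 16733720)))) (b (a (a (l 16696480) (l 16738320)) (c (l 16741056) (l 16735368))) (a (c (l 16701528) (l 16739472)) (c (l 16723368) (l 16739032))))) (b (a (c (b (l 16717848) (l 16719360)) (b (l 16731272) (l 16733024))) (c (b (a (l 16697472) (l 16718984)) (c (l 16722472) (l 16718208))) (b (a (l 16709912) (a (l 16709800) (l 16720248))) (c (l 16724352) (l 16719952))))) (b (a (c (l 16720840) (l 16713776)) (c (c (l 16724024) (l 16719856)) (a (l 16713496) (l 16723936)))) (a (c (l 16734984) (a (l 16738808) (l 16738760))) (b (c (l 16734744) (a (l 16716000) (l 16726536))) (a (l 16744440) (l 16734536))))))), by decide +kernel⟩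

def k202_A00pm_213_s3 : ∃ t, chk3 f_A00pm_213_s3 t 30 117 3 = true :=
  ⟨(a (b (a (c (b (l 16727856) (l 16729800)) (b (l 16648560) (l 16665048))) (c (b (l 16725624) (l 16727600)) (b (l 16669104) (l 16687848)))) (b (a (c (l 16731728) (l 16681952)) (c (l 16729544) (l 16707120))) (a (c (l 16735400) (a (l 16694208) (l 16706288))) (c (b (l 16731976) (l 16735216)) (b (l 16722464) (l 16729776)))))) (b (a (c (b (a (l 16724016) (l 16723016)) (a (l 16726008) (l 16725016))) (b (a (l 16689264) (l 16705448)) (a (l 16710008) (l 16716936)))) (c (b (a (l 16722088) (c (l 16702696) (l 16718848))) (a (l 16724112) (c (l 16704688) (l 16720936)))) (a (b (c (l 16715328) (l 16694176)) (c (l 16717520) (l 16713040))) (b (c (a (l 16714296) (l 16713640)) (a (l 16708592) (l 16687616))) (c (l 16716152) (a (l 16711712) (l 16710864))))))) (b (a (c (a (l 16727976) (l 16727008)) (a (l 16720904) (l 16719176))) (c (a (l 16726112) (c (l 16706648) (l 16702032))) (a (c (l 16719680) (l 16715320)) (c (l 16718312) (a (l 16713984) (l 16713128))))))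 (b (a (c (l 16719616) (a (l 16723736) (l 16722088))) (c (a (l 16728856) (c (l 16709424) (l 16725896))) (a (c (l 16722616) (l 16718384)) (c (l 16721336) (a (l 16717104) (l 16716288)))))) (a (c (l 16733736) (l 16726824)) (c (a (l 16732784) (l 16732280)) (a (l 16724728) (c (l 16725688) (l 16721208))))))))), by decide +kernel⟩

def k203_A00pm_213_s3 : ∃ t, chk3 f_A00pm_213_s3 t 62 116 2 = true :=
  ⟨(c (a (b (a (b (c (l 16721416) (l 16727024)) (a (c (l 16725744) (a (l 16711208) (l 16730600))) (l 16709168))) (b (l 16700944) (l 16703400))) (a (a (b (a (c (l 16718232) (l 16713344)) (l 16714592)) (a (l 16717632) (l 16727456))) (c (l 16715240) (l 16710504))) (b (l 16705848) (l 16708280)))) (b (a (b (l 16693448) (l 16695840)) (b (l 16686104) (l 16688440))) (a (b (l 16698224) (l 16700600)) (b (l 16690760) (l 16693080))))) (a (b (a (b (a (c (l 16713400) (b (l 16718184) (l 16698464))) (l 16717888)) (a (a (c (l 16716672) (b (l 16700536) (l 16701704))) (l 16723120)) (l 16720440))) (b (a (l 16714384) (l 16689944)) (a (l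 16695936) (l 16692432)))) (a (a (b (a (c (l 16708376) (l 16713824)) (b (l 16725048) (l 16705352))) (a (c (l 16731296) (l 16726328)) (c (l 16709632) (l 16715128)))) (b (l 16722984) (l 16725512))) (b (a (l 16698448) (l 16694920)) (a (l 16700952) (l 16697392))))) (b (a (c (a (l 16689944) (l 16686456)) (c (l 16684928) (l 16703704))) (c (l 16691800) (a (l 16678904) (l 16675672)))) (a (c (a (l 16694824) (l 16691280)) (c (l 16689832) (l 16698152))) (b (l 16693384) (l 16695768)))))), by decide +kernel⟩

def k204_A00pm_213_s3 : ∃ t, chk3 f_A00pm_213_s3 t 62 116 6 = true :=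
  ⟨(a (b (a (b (b (c (l 16700864) (a (l 16707736) (l 16704648))) (a (c (l 16714264) (a (l 16709792) (l 16708304))) (l 16687536))) (a (c (a (b (l 16716312) (l 16696536)) (l 16715464)) (a (b (l 16711048) (l 16712264)) (l 16710272))) (c (l 16712976) (l 16707912)))) (b (c (l 16705520) (l 16700680)) (c (l 16708064) (l 16703256)))) (a (a (b (c (a (b (l 16697688) (l 16698784)) (l 16718056)) (a (b (l 16713440) (l 16714568)) (l 16712888))) (a (c (l 16700312) (l 16716160)) (c (c (l 16700856) (l 16698304)) (b (l 16714808) (l 16716064))))) (b (c (l 16715552) (l 16710512)) (c (l 16718120) (l 16713104)))) (b (c (l 16710600) (l 16705816)) (c (l 16713128) (l 16708376))))) (b (a (b (c (l 16699160) (l 16694672)) (c (l 16701648) (l 16697192))) (b (c (l 16672000) (l 16688840)) (c (l 16674448) (l 16691312)))) (a (b (c (l 16704136) (l 16699704)) (c (l 16685640) (l 16702216))) (c (b (l 16676880) (l 16679304)) (b (l 16693776) (l 16675264)))))), by decide +kernel⟩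

def k205_A00pm_213_s3 : ∃ t, chk3 f_A00pm_213_s3 t 62 116 7 = true :=
  ⟨(a (b (a (b (c (a (b (l 16688016) (a (l 16687472) (l 16702240))) (l 16700136)) (a (b (l 16626520) (a (l 16678152) (l 16639776))) (l 16639368))) (a (c (a (b (a (l 16706000) (l 16705456)) (a (l 16707144) (l 16706752))) (l 16704992)) (a (b (a (l 16646808) (l 16648736)) (a (l 16658432) (l 16660544))) (l 16657496))) (c (l 16702768) (l 16663488)))) (b (c (l 16674816) (a (l 16647048) (l 16655336))) (c (a (l 16699832) (l 16696936)) (a (l 16672000) (l 16681144))))) (a (b (a (c (a (b (a (l 16708264) (l 16708008)) (l 16709312)) (b (l 16706984) (l 16708296))) (a (b (a (l 16670248) (l 16672552)) (l 16683512)) (b (l 16675712) (l 16688128)))) (c (l 16705392) (l 16688504))) (a (c (a (b (l 16710416) (l 16711520)) (b (l 16709584) (l 16710848))) (a (b (l 16695808) (l 16706272)) (b (l 16700744) (a (l 16705896) (l 16705272))))) (c (l 16708008) (c (l 16704136) (l 16697744))))) (b (c (a (l 16702432) (l 16699512)) (a (l 16697424) (l 16694688))) (c (a (l 16705024)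 (l 16702080)) (a (l 16700040) (l 16697280)))))) (b (a (c (b (l 16690120) (l 16692672)) (b (l 16668984) (l 16688104))) (c (b (l 16684656) (l 16687160)) (b (l 16680424) (l 16682960)))) (a (b (c (l 16695216) (l 16690672)) (c (l 16697752) (l 16693232))) (b (c (l 16689656) (l 16685488)) (c (l 16692144) (l 16688008)))))), by decide +kernel⟩

def k206_A00pm_213_s3 : ∃ t, chk3 f_A00pm_213_s3 t 62 117 2 = true :=
  ⟨(b (a (a (c (a (b (b (l 16729352) (l 16730320)) (c (l 16723504) (l 16718816))) (b (l 16737584) (l 16719056))) (a (b (a (l 16720240) (b (l 16719440) (l 16720560))) (c (l 16724544) (l 16719704))) (b (l 16717552) (c (l 16732936) (l 16707144))))) (c (b (l 16710704) (l 16713128)) (b (a (l 16703448) (l 16699864)) (a (l 16705928) (l 16702320))))) (c (a (b (l 16702968) (l 16705320)) (b (l 16695384) (l 16697688))) (a (c (l 16708360) (a (l 16705832) (l 16691920))) (b (l 16698136) (l 16700504))))) (a (b (a (a (c (l 16722840) (l 16723968)) (c (c (l 16723704) (l 16719064)) (c (l 16714352) (l 16720048)))) (c (l 16715536)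 (a (l 16708408) (l 16704776)))) (a (a (c (l 16737592) (b (l 16726640) (l 16741088))) (b (c (c (l 16726648) (l 16722080)) (a (c (l 16718304) (l 16724048)) (l 16714344))) (c (l 16728368) (a (l 16720128) (l 16739664))))) (c (c (l 16722640) (l 16739336)) (c (l 16734984) (l 16730568))))) (b (c (a (l 16707672) (l 16699976)) (a (l 16709880) (l 16702864))) (c (a (a (l 16714464) (l 16710480)) (c (l 16706400) (l 16702760))) (a (c (l 16706456) (l 16723352)) (c (l 16699072) (l 16705824))))))), by decide +kernel⟩

def k207_A00pm_213_s3 : ∃ t, chk3 f_A00pm_213_s3 t 62 234 3 = true :=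
  ⟨(c (a (a (a (b (c (a (l 16702344) (b (l 16701424) (l 16702584))) (a (l 16697304) (b (l 16696312) (l 16697496)))) (c (b (l 16703800) (l 16704808)) (b (l 16709272) (l 16699840)))) (b (c (l 16720680) (l 16715680)) (c (l 16702248) (l 16718248)))) (b (c (l 16715648) (l 16710920)) (c (l 16718160) (l 16713456)))) (a (b (c (l 16688112) (l 16704712)) (c (l 16690576) (l 16707200))) (c (b (l 16681728) (l 16684144)) (b (l 16677720) (l 16680160))))) (a (a (b (a (c (a (l 16713168) (b (l 16706848) (l 16708064))) (a (b (l 16707416) (l 16708552)) (b (a (l 16707112) (l 16706592)) (a (l 16708256) (l 16707872))))) (c (l 16710608) (c (l 16706760) (l 16704168)))) (a (a (c (l 16715344) (l 16699760)) (c (b (l 16714480) (l 16715600)) (b (a (l 16709384) (l 16709120)) (l 16710424)))) (c (b (l 16712568) (l 16713848)) (b (l 16707432) (l 16708736))))) (b (c (a (l 16707608) (l 16704640)) (a (l 16702648) (l 16699864))) (c (a (l 16710176) (l 16707192)) (a (l 16705240) (l 16702440))))) (a (b (c (l 16700280) (l 16685296)) (c (l 16702800)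 (l 16693088))) (b (c (l 16694624) (l 16690520)) (c (l 16697104) (l 16693024)))))), by decide +kernel⟩

def k208_A00pm_213_s3 : ∃ t, chk3 f_A00pm_213_s3 t 62 235 3 = true :=
  ⟨(a (c (b (a (a (c (l 16706264) (l 16701360)) (c (a (l 16716024) (l 16724912)) (b (l 16699168) (l 16710888)))) (c (l 16720672) (l 16715984))) (a (a (b (c (l 16709112) (l 16704328)) (l 16731976)) (b (a (b (c (l 16707648) (l 16713200)) (l 16728408)) (l 16720552)) (a (a (l 16731872) (l 16731608)) (l 16730384)))) (b (c (l 16723888) (l 16719272)) (c (l 16728288) (l 16723800))))) (b (a (a (c (l 16712112) (b (l 16711744) (l 16712864))) (c (a (b (l 16715872) (l 16706632)) (l 16715024)) (a (b (l 16710720) (a (l 16712312) (l 16711712))) (l 16709968)))) (c (a (l 16712744) (l 16709736)) (a (l 16707832) (l 16705008)))) (a (a (b (c (l 16720440) (b (l 16714344) (l 16716680))) (c (l 16724952) (l 16720184))) (b (a (b (c (b (l 16707616) (l 16698280)) (a (b (l 16713280) (l 16714440)) (l 16713336))) (a (l 16718744) (l 16718304))) (c (l 16718448) (l 16713464)))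 (a (c (l 16724528) (a (l 16719776) (l 16719448))) (c (l 16723232) (l 16718376))))) (b (c (c (l 16715768) (l 16713408)) (a (l 16711280) (l 16708400))) (c (l 16719240) (a (l 16716104) (l 16713120))))))) (b (c (a (c (l 16693032) (l 16688712)) (c (l 16686552) (l 16682600))) (a (c (l 16705312) (l 16695624)) (c (l 16678600) (l 16695528)))) (c (a (b (c (l 16696144) (l 16712856)) (l 16719256)) (c (l 16712520) (a (l 16689280) (l 16686168)))) (a (b (c (l 16708544) (a (l 16705568) (l 16702784))) (c (l 16712976) (l 16708720))) (b (c (l 16702696) (l 16698712)) (c (l 16706912) (l 16703032))))))), by decide +kernel⟩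

def k209_A00pm_213_s3 : ∃ t, chk3 f_A00pm_213_s3 t 126 116 1 = true :=
  ⟨(c (b (c (a (b (l 16689424) (l 16691696)) (b (a (l 16673680) (l 16675480)) (a (l 16675904) (l 16677672)))) (a (b (a (l 16673216) (l 16670016)) (a (l 16675576) (l 16672344))) (b (c (l 16677464) (l 16674120)) (c (l 16679736) (l 16676424))))) (c (a (b (l 16683472) (l 16685728)) (b (a (l 16678128) (l 16679864)) (a (l 16680336) (l 16682048)))) (a (b (a (l 16677920) (l 16674664)) (a (l 16680256) (l 16676976))) (b (c (l 16671504) (l 16678720)) (c (l 16673760) (l 16681008)))))) (b (c (a (b (c (l 16666016) (l 16683216)) (c (l 16668408) (l 16664664))) (b (c (l 16670744) (c (l 16657704) (l 16655992))) (c (l 16673080) (c (l 16660072) (l 16668864))))) (a (c (b (l 16679400) (l 16681856)) (b (l 16675552) (l 16678040))) (c (b (l 22) (a (l 16657072) (l 16665096))) (l 22)))) (c (a (b (c (l 16670792) (l 16667088)) (c (l 16673176) (l 16669496))) (b (c (l 16675416) (c (l 16662432) (l 16671248))) (c (l 16677744) (c (l 16664792) (l 16673624))))) (a (b (c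 (l 16684312) (l 16680528)) (c (l 16686760) (l 16683008))) (c (b (a (l 16659488) (l 16667488)) (a (l 16661904) (l 16669880))) (l 22)))))), by decide +kernel⟩

def k210_A00pm_213_s3 : ∃ t, chk3 f_A00pm_213_s3 t 126 117 1 = true :=
  ⟨(c (b (c (a (b (l 16687976) (l 16690216)) (b (a (l 16682544) (l 16678976)) (c (l 16705464) (l 16681384)))) (a (b (a (l 16682592) (l 16679280)) (a (l 16684920) (l 16681584))) (b (c (l 16676008) (l 16683296)) (c (l 16678256) (l 16685576))))) (b (c (a (l 16692456) (b (l 16684576) (l 16685672))) (a (a (l 16687240) (l 16683872)) (c (l 16680488) (l 16687848)))) (c (a (c (l 16698536) (l 16695224)) (b (l 16698192) (l 16691032))) (a (b (l 16698840) (l 16692032)) (b (c (l 16683160) (l 16690576)) (l 16695608)))))) (b (c (a (b (c (l 16675544) (l 16671904)) (c (l 16677912) (l 16674304))) (b (c (l 16680064) (c (l 16677632) (l 16675992))) (c (l 16682384) (b (l 16678584) (l 16679760))))) (a (b (c (l 16678712) (l 16685480)) (c (l 16681144) (l 16687944))) (b (c (a (l 16664312) (l 16672272)) (a (l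 16660896) (l 16669064))) (c (a (l 16666712) (l 16674648)) (a (l 16663336) (l 16671480)))))) (b (c (a (c (l 16680272) (l 16676696)) (c (l 16684696) (b (l 16680936) (l 16682112)))) (a (c (l 16683576) (l 16690408)) (c (a (l 16669112) (l 16677032)) (a (l 16676256) (l 16673896))))) (b (c (a (c (l 16683160) (l 16679648)) (c (l 16687480) (l 16684360))) (a (c (l 16686584) (l 16693480)) (c (a (l 16672040) (l 16679904)) (a (l 16679240) (l 16676824))))) (c (a (l 16695760) (c (l 16701584) (l 16677576))) (a (a (l 16679744) (l 16676984)) (c (l 16684992) (l 16681896)))))))), by decide +kernel⟩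

def k211_A00pm_213_s3 : ∃ t, chk3 f_A00pm_213_s3 t 254 116 2 = true :=
  ⟨(b (c (b (c (b (l 16671352) (l 16672416)) (b (l 16668392) (l 16669480))) (c (b (l 16673480) (l 16669304)) (b (l 16670560) (l 16671648)))) (b (c (c (l 16671952) (l 16670464)) (a (l 16669672) (l 16666784))) (c (c (l 16674152) (l 16672680)) (a (l 16671936) (l 16669024))))) (c (b (c (b (l 16670368) (l 16671424)) (b (l 16672728) (l 16673808))) (c (a (l 16695752) (l 16692232)) (b (l 16674888) (l 16675968)))) (b (c (b (l 16675072) (a (l 16688232) (l 16685096))) (a (l 16674192) (l 16671256))) (c (b (a (l 16689344) (l 16686192)) (l 16673128)) (b (l 16674400) (l 16675520)))))), by decide +kernel⟩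

def k212_A00pm_213_s3 : ∃ t, chk3 f_A00pm_213_s3 t 255 116 4 = true :=
  ⟨(b (a (b (c (b (l 16682008) (l 16683048)) (a (l 16680632) (b (l 16678520) (l 16679584)))) (c (b (l 16684088) (l 16685128)) (a (l 16682768) (b (l 16680640) (l 16681696))))) (b (a (c (b (l 16679512) (l 16680544)) (b (c (l 16677592) (l 16676312)) (c (l 16678640) (l 16677376)))) (c (b (c (l 16678480) (l 16677248)) (c (l 16679504) (l 16678280))) (b (c (l 16676016) (a (l 16675168) (l 16674408))) (c (l 16677056) (a (l 16676216) (l 16675456)))))) (a (c (b (l 16681576) (l 16682608)) (b (l 16676440) (l 16680112))) (c (b (c (l 16680520) (l 16679312)) (c (l 16681536) (l 16680336))) (b (c (l 16678096) (a (l 16677272) (l 16676504))) (c (l 16679136) (l 16677936))))))) (a (b (b (c (l 16686168) (a (l 16684368) (l 16682760))) (c (l 16687208) (l 16684616))) (b (c (l 16688248) (l 16685680)) (c (l 16689280) (l 16686736)))) (b (a (c (b (l 16683632) (l 16684656)) (b (l 16681160) (l 16682208))) (c (b (c (l 16682552) (l 16681360)) (c (l 16683568) (l 16682392)))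 (b (c (l 16680176) (l 16678984)) (c (l 16681208) (l 16680032))))) (a (c (b (l 16685688) (l 16686712)) (b (l 16683256) (l 16684304))) (c (b (c (l 16684576) (l 16683416)) (c (l 16685592) (l 16684432))) (b (c (l 16682248) (l 16681080)) (c (l 16683280) (l 16682120)))))))), by decide +kernel⟩

def k213_A00pm_213_s3 : ∃ t, chk3 f_A00pm_213_s3 t 255 232 5 = true :=
  ⟨(a (a (c (b (b (l 16677352) (l 16678440)) (b (l 16679528) (l 16680616))) (b (b (l 16674592) (l 16675704)) (b (l 16676808) (l 16677920)))) (c (b (b (l 16675864) (l 16676944)) (b (l 16678024) (l 16679104))) (b (b (c (l 16673864) (l 16672528)) (l 16671680)) (b (l 16675408) (l 16676504))))) (b (a (c (b (c (l 16675032) (l 16673752)) (c (l 16676104) (l 16674832))) (b (c (l 16672464) (l 16671184)) (c (l 16673560) (l 16672280)))) (c (b (b (c (l 16673288) (l 16672048)) (c (l 16673816) (l 16672584))) (b (c (l 16674352) (l 16673120)) (c (l 16674880) (l 16673656)))) (b (a (c (l 16671424) (l 16670176)) (b (c (l 16670472) (l 16669240)) (c (l 16671008) (l 16669792))))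 (a (c (l 16672512) (l 16671280)) (b (c (l 16671552) (l 16670336)) (c (l 16672096) (l 16670888))))))) (a (c (b (c (l 16677168) (l 16675912)) (c (l 16678240) (l 16676984))) (b (c (l 16674648) (l 16673384)) (c (l 16675736) (l 16674488)))) (c (b (b (c (l 16675408) (l 16674192)) (c (l 16675944) (l 16674728))) (b (c (l 16676472) (l 16675264)) (c (l 16677000) (l 16675800)))) (b (a (c (l 16673600) (l 16672376)) (c (c (l 16673200) (l 16672600)) (c (l 16672000) (l 16671400)))) (a (c (l 16674680) (l 16673464)) (c (c (l 16674280) (l 16673688)) (c (l 16673096) (l 16672496))))))))), by decide +kernel⟩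

def k214_A00pm_213_s3 : ∃ t, chk3 f_A00pm_213_s3 t 255 233 5 = true :=
  ⟨(a (b (c (a (b (l 16681704) (l 16682784)) (b (l 16680184) (l 16681264))) (a (b (l 16679024) (l 16680128)) (b (l 16677608) (l 16678704)))) (c (a (b (l 16683872) (l 16684952)) (b (l 16682336) (l 16683416))) (a (b (l 16681232) (l 16682336)) (b (l 16679800) (l 16680896))))) (b (a (c (b (c (l 16679304) (l 16678064)) (c (l 16680368) (l 16679144))) (b (c (l 16676824) (l 16675584)) (c (l 16677912) (l 16676680)))) (c (b (a (c (l 16678168) (l 16676968)) (c (l 16677424) (l 16676240))) (a (c (l 16679232) (l 16678040)) (c (l 16678480) (l 16677312)))) (b (c (b (l 16675144) (l 16675688)) (a (l 16674560) (c (l 16674184) (l 16673592)))) (c (b (l 16676224) (l 16676768)) (a (l 16675656) (c (l 16675272) (l 16674688))))))) (a (c (b (c (l 16681432) (l 16680216)) (c (l 16682496) (l 16681288))) (b (c (l 16679000) (l 16677776)) (c (l 16680080) (l 16678872)))) (c (c (b (a (l 16680288) (l 16679536)) (l 16678344)) (b (a (l 16679112) (l 16678376)) (a (l 16680176)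 (l 16679440)))) (b (c (b (l 16677304) (l 16677848)) (a (l 16676744) (c (l 16676352) (l 16675776)))) (b (a (l 16678152) (c (l 16678032) (l 16676880))) (c (l 16678920) (l 16677768)))))))), by decide +kernel⟩

def k215_A00pm_213_s3 : ∃ t, chk3 f_A00pm_213_s3 t 254 116 3 = true :=
  ⟨(b (c (b (c (a (l 16666576) (b (l 16663312) (l 16664448))) (a (l 16663456) (b (l 16660376) (l 16661544)))) (c (a (l 16668880) (a (l 16666832) (l 16665488))) (a (l 16665800) (b (l 16662696) (l 16663856))))) (b (l 22) (b (l 22) (c (a (l 16673784) (l 16660976)) (l 22))))) (c (b (c (a (l 16671176) (c (l 16679624) (l 16667720))) (a (l 16668136) (b (l 16665016) (l 16666168)))) (c (a (l 16673464) (a (l 16681864) (l 16670016))) (a (l 16670464) (b (l 16667328) (l 16668480))))) (c (b (a (a (l 16676160) (l 16664488)) (b (l 16662152) (l 16663328))) (a (l 16667448) (b (l 16664504) (l 16665680)))) (l 22)))), by decide +kernel⟩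

def k216_A00pm_213_s3 : ∃ t, chk3 f_A00pm_213_s3 t 510 232 6 = true :=
  ⟨(b (b (c (c (l 16671856) (l 16660008)) (a (l 16658560) (c (l 16668520) (l 16667176)))) (c (c (l 16672976) (l 16661136)) (a (l 16659704) (c (l 16669664) (l 16668328))))) (b (c (c (l 16674096) (l 16662272)) (c (l 16660928) (a (l 16670656) (l 16669480)))) (c (c (l 16675216) (l 16673888)) (c (l 16662072) (a (l 16671816) (l 16670632)))))), by decide +kernel⟩

def k217_A00pm_213_s3 : ∃ t, chk3 f_A00pm_213_s3 t 1022 232 6 = true :=
  ⟨(b (c (c (b (l 16669896) (l 16671008)) (a (b (l 16668920) (l 16670048)) (b (l 16668296) (l 16669424)))) (b (b (c (l 16667040) (l 22)) (c (l 16667608) (l 16666320))) (b (c (l 16668176) (l 16666888)) (c (l 16668736) (l 16667464))))) (c (c (b (l 16672120) (l 16673232)) (a (b (l 16671168) (l 16672296)) (b (l 16670544) (l 16671664)))) (b (c (a (l 16669888) (l 16669288)) (a (l 16668608) (l 16668032))) (c (a (l 16671024) (l 16670424)) (a (l 16669752) (l 16669176)))))), by decide +kernel⟩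

def k218_A00pm_213_s3 : ∃ t, chk3 f_A00pm_213_s3 t 1023 464 6 = true :=
  ⟨(c (a (b (c (c (l 16669240) (l 16668616)) (c (l 16667992) (l 16667368))) (c (c (l 16670352) (l 16669728)) (c (l 16669112) (l 16668496)))) (a (b (c (c (l 16668760) (l 16668144)) (c (l 16667528) (l 16666920))) (c (c (l 16669864) (l 16669256)) (c (l 16668648) (l 16668040)))) (b (c (b (c (l 16668168) (l 16667552)) (l 16668416)) (b (c (l 16666944) (l 16666336)) (c (l 16667504) (l 16666896)))) (c (b (l 16668968) (l 16669520)) (b (c (l 16668056) (l 16667456)) (c (l 16668616) (l 16668016))))))) (a (b (c (c (l 16666744) (l 16666120)) (c (l 16665496) (l 22))) (c (c (l 16667872) (l 16667256)) (c (l 16666632) (l 22)))) (b (c (c (a (l 16666304) (b (l 16665728) (l 16666288))) (b (a (l 16665408) (l 16665120)) (a (l 16665968) (l 16665680)))) (b (l 22) (b (l 22) (c (l 16665360) (l 22))))) (c (c (b (l 16667000) (l 16667560)) (b (a (l 16666536) (l 16666248)) (a (l 16667104) (l 16666808)))) (c (b (a (l 16665928) (l 16665640)) (a (l 16666496) (l 16666208)))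 (l 22)))))), by decide +kernel⟩

def k219_A00pm_213_s3 : ∃ t, chk3 f_A00pm_213_s3 t 1023 465 6 = true :=
  ⟨(c (c (b (b (c (l 16670856) (l 16670248)) (c (l 16671408) (l 16670800))) (a (l 16672256) (c (l 16671904) (a (l 16671472) (l 16671152))))) (a (b (c (l 16670224) (l 16669616)) (c (l 16671344) (l 16670736))) (b (b (b (l 16668888) (l 16669168)) (b (l 16669440) (l 16669720))) (b (b (l 16670000) (l 16670280)) (b (l 16670560) (l 16670832)))))) (a (b (c (c (l 16669000) (l 16668384)) (c (l 16667776) (l 16667160))) (c (c (l 16670128) (l 16669520)) (c (l 16668912) (l 16668304)))) (b (c (c (b (l 16668120) (l 16668680)) (b (l 16667520) (l 16668088))) (c (b (a (l 16667064) (l 16666776)) (a (l 16667632) (l 16667344))) (b (b (l 16666176) (l 16666456)) (a (l 16667024) (l 16666744))))) (c (c (b (l 16669248) (l 16669808)) (b (l 16668648) (l 16669216))) (c (b (a (l 16668192) (l 16667912)) (l 16668616)) (b (a (l 16667592) (l 16667320)) (a (l 16668168) (l 16667888)))))))), by decide +kernel⟩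

def k220_A00pm_213_s3 : ∃ t, chk3 f_A00pm_213_s3 t 510 233 6 = true :=
  ⟨(b (b (c (c (l 16676336) (l 16675016)) (c (l 16663208) (a (l 16672968) (l 16671776)))) (c (c (l 16677456) (l 16676144)) (c (l 16664344) (a (l 16674120) (l 16672920))))) (c (b (c (l 16678568) (l 16677272)) (c (l 16679688) (l 16678400))) (c (b (l 16665488) (l 16666624)) (a (l 16665352) (b (l 16674072) (l 16675216)))))), by decide +kernel⟩

def k221_A00pm_213_s3 : ∃ t, chk3 f_A00pm_213_s3 t 511 466 6 = true :=
  ⟨(a (c (c (b (l 16674344) (l 16675448)) (b (l 16673096) (l 16674216))) (b (c (a (l 16672160) (l 16671552)) (a (l 16670896) (l 16670320))) (c (a (l 16673288) (l 16672680)) (a (l 16672040) (l 16671456))))) (a (c (b (c (l 16673360) (c (l 16672456) (l 16671856))) (c (l 16674464) (c (l 16673568) (l 16672968)))) (b (c (c (l 16671248) (l 16670648)) (c (l 16670048) (l 16669440))) (c (c (l 16672376) (l 16671776)) (c (l 16671176) (l 16670584))))) (c (b (c (b (l 16672432) (l 16672984)) (c (a (l 16671984) (l 16671664)) (b (l 16670960) (l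 16671512)))) (c (c (l 16674104) (l 16673520)) (c (a (l 16673088) (l 16672776)) (b (l 16672072) (l 16672632))))) (b (c (c (b (l 16670368) (l 16670928)) (b (l 16669776) (l 16670336))) (c (b (l 16669184) (l 16669752)) (b (a (l 16668736) (l 16668456)) (a (l 16669304) (l 16669024))))) (c (c (b (l 16671488) (l 16672048)) (b (l 16670904) (l 16671464))) (c (b (l 16670320) (l 16670880)) (b (a (l 16669872) (l 16669592)) (l 16670296)))))))), by decide +kernel⟩

def k222_A00pm_213_s3 : ∃ t, chk3 f_A00pm_213_s3 t 511 467 6 = true :=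
  ⟨(a (c (b (c (l 16676560) (l 16675336)) (c (l 16677664) (l 16676456))) (b (c (a (l 16674416) (l 16673808)) (a (l 16673184) (l 16672600))) (c (a (l 16675552) (l 16674936)) (a (l 16674320) (l 16673736))))) (c (b (a (c (l 16675568) (c (l 16674680) (l 16674088))) (c (c (l 16675200) (l 16674624)) (c (a (l 16674200) (l 16673880)) (b (l 16673184) (l 16673744))))) (a (c (l 16676664) (l 16675496)) (c (c (l 16676296) (l 16675720)) (c (l 16675152) (b (l 16674296) (l 16674856)))))) (a (b (c (c (l 16673496) (l 16672904)) (c (l 16672312) (l 16671720))) (c (c (l 16674616) (l 16674032)) (c (l 16673448) (l 16672856)))) (b (c (c (b (l 16672608) (l 16673168)) (b (l 16672024) (l 16672592))) (c (b (l 16671448) (l 16672016)) (b (l 16670864) (l 16671432)))) (c (c (b (l 16673728) (l 16674288)) (b (l 16673152) (l 16673712))) (c (b (l 16672576) (l 16673144)) (b (l 16672000) (l 16672568)))))))), by decide +kernel⟩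

def k223_A00pm_213_s3 : ∃ t, chk3 f_A00pm_213_s3 t 255 232 7 = true :=
  ⟨(a (c (b (l 22) (b (l 22) (c (a (l 16670448) (l 16669320)) (l 22)))) (l 22)) (c (c (c (b (l 22) (b (l 22) (a (l 16668520) (a (b (l 16667408) (l 16667976)) (b (b (l 22) (l 16667000)) (b (l 16667288) (l 16667576))))))) (l 22)) (l 22)) (l 22))), by decide +kernel⟩

def k224_A00pm_213_s3 : ∃ t, chk3 f_A00pm_213_s3 t 510 233 7 = true :=
  ⟨(c (b (a (c (l 16661704) (b (l 22) (l 16671432))) (b (c (l 16670480) (l 22)) (c (l 16671632) (l 16670344)))) (a (c (l 16664032) (a (l 16673464) (l 16672912))) (b (c (l 16672792) (l 16671512)) (c (l 16673944) (l 16672672))))) (l 22)), by decide +kernel⟩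

def k225_A00pm_213_s3 : ∃ t, chk3 f_A00pm_213_s3 t 511 233 7 = true :=
  ⟨(a (c (b (b (c (b (l 16669072) (l 16669648)) (l 22)) (b (c (l 16670224) (l 22)) (c (l 16670800) (l 16669568)))) (b (b (c (l 16671376) (l 16670144)) (c (l 16671952) (l 16670728))) (b (c (l 16672528) (l 16671312)) (c (l 16673104) (l 16671888))))) (l 22)) (b (a (b (c (c (c (l 16668840) (b (l 22) (l 16668520))) (l 22)) (l 22)) (c (b (c (l 16669400) (l 22)) (c (l 16669976) (a (l 16668912) (l 16668648)))) (l 22))) (c (b (c (c (b (a (l 16668144) (l 16667864)) (a (l 16668712) (l 16668440))) (b (l 22) (b (l 16667840) (l 16668128)))) (l 22)) (c (c (b (a (l 16669280) (l 16669008)) (a (l 16669856) (l 16669576))) (b (b (l 16668416) (l 16668704)) (a (l 16669272) (l 16669000)))) (b (l 22) (b (l 22) (c (l 16668696) (l 22)))))) (l 22))) (c (a (b (c (c (l 16671128) (l 16670536)) (c (b (l 16669656) (l 16670232)) (l 22))) (c (c (l 16672272) (l 16671688)) (c (b (l 16670808) (l 16671384)) (b (l 16670224) (l 16670800))))) (b (c (c (b (a (l 16670424) (l 16670152))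 (a (l 16671000) (l 16670720))) (b (a (l 16669840) (l 16669576)) (a (l 16670416) (l 16670144)))) (c (b (b (l 16668984) (l 16669272)) (b (l 16669560) (l 16669848))) (l 22))) (c (c (b (l 16671432) (l 16672000)) (b (a (l 16670992) (l 16670720)) (a (l 16671560) (l 16671296)))) (c (b (a (l 16670416) (l 16670152)) (a (l 16670992) (l 16670728))) (c (b (l 16669848) (l 16670424)) (b (l 22) (l 16670144))))))) (l 22)))), by decide +kernel⟩

def k226_A00pm_213_s3 : ∃ t, chk3 f_A00pm_213_s3 t 254 117 1 = true :=
  ⟨(c (b (c (b (c (a (l 16697880) (l 16694328)) (b (l 16677040) (l 16678120))) (c (a (l 16700000) (l 16696424)) (b (l 16679192) (l 16680264)))) (b (c (b (l 16674224) (l 16675320)) (b (l 16676640) (l 16677752))) (c (b (l 16676416) (l 16677512)) (b (l 16678864) (l 16679984))))) (b (c (c (a (l 16702120) (l 16698512)) (b (l 16681336) (l 16682408))) (c (b (l 16678608) (l 16679696)) (b (l 16681096) (l 16682208)))) (c (a (c (l 16685208) (l 16687744)) (c (l 16686752) (c (l 16684864) (l 16683600)))) (b (c (c (l 16682384)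 (l 16681048)) (b (l 16683440) (l 16685112))) (c (l 16679744) (l 16687616)))))) (b (c (b (c (a (l 16675752) (b (l 16682880) (l 16684016))) (a (l 16672792) (b (l 16669632) (l 16670784)))) (c (a (l 16678040) (b (l 16685144) (l 16686272))) (a (l 16675112) (b (l 16671936) (l 16673080))))) (b (c (a (l 16669816) (b (l 16666848) (l 16668024))) (c (a (l 16678048) (l 16670584)) (l 22))) (c (a (l 16672176) (b (l 16669192) (l 16670360))) (a (b (l 16668616) (l 16669816)) (b (l 16671680) (l 16672872)))))) (b (c (c (a (l 16680312) (b (l 16687400) (l 16688528))) (a (l 16677432) (b (l 16674232) (l 16675376)))) (c (a (l 16674536) (b (l 16671528) (l 16672696))) (b (a (l 16671016) (l 16674056)) (c (l 16677048) (l 16675640))))) (c (c (b (a (l 16683016) (l 16680128)) (l 16684984)) (b (a (l 16680192) (a (l 16678168) (l 16676840))) (a (l 16694224) (l 16691440)))) (c (a (b (l 16677352) (l 16691464)) (b (c (l 16675528) (l 16674208)) (l 16688872))) (c (b (a (l 16675200) (l 16678128)) (l 16677664)) (b (a (l 16673760) (l 16676800)) (l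 16676320)))))))), by decide +kernel⟩

def k227_A00pm_213_s3 : ∃ t, chk3 f_A00pm_213_s3 t 255 234 2 = true :=
  ⟨(a (c (b (b (c (l 16690320) (l 16687792)) (c (l 16691352) (l 16688848))) (b (c (l 16692384) (l 16689904)) (c (l 16693416) (l 16690952)))) (b (c (a (b (l 16686032) (l 16687112)) (b (l 16684488) (l 16685560))) (a (b (l 16683440) (l 16684536)) (b (l 16681992) (l 16683088)))) (c (a (b (l 16688192) (l 16689264)) (b (l 16686632) (l 16687704))) (a (b (l 16685640) (l 16686736)) (b (l 16684184) (l 16685272)))))) (c (b (a (c (b (l 16687736) (l 16688760)) (b (l 16685352) (l 16686392))) (c (b (c (l 16686600) (l 16685456)) (c (l 16687608) (l 16686480))) (b (c (l 16684312) (l 16683168)) (c (l 16685344) (l 16684208))))) (a (c (b (l 16689776) (l 16690800)) (b (l 16687440) (l 16688480))) (c (b (c (l 16688616) (l 16687496)) (c (l 16689624) (l 16688520))) (b (b (l 16682936) (l 16686072)) (b (l 16686592) (l 16687112)))))) (b (a (c (b (c (l 16683560) (l 16682360)) (c (l 16684616) (l 16683432))) (b (c (l 16681168) (l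 16679968)) (c (l 16682248) (l 16681064)))) (c (c (b (l 16682024) (l 16683080)) (b (a (l 16681248) (l 16680504)) (a (l 16682312) (l 16681568)))) (b (b (c (l 16679464) (l 16678312)) (c (l 16680000) (l 16678856))) (b (c (l 16680536) (l 16679400)) (c (l 16681080) (l 16679944)))))) (a (c (b (c (l 16685680) (l 16684504)) (c (l 16686736) (l 16685576))) (b (c (l 16683328) (l 16682152)) (c (l 16684408) (l 16683248)))) (c (c (b (l 16684128) (l 16685184)) (b (a (l 16683376) (l 16682632)) (a (l 16684448) (l 16683696)))) (b (b (c (l 16681616) (l 16680488)) (c (l 16682152) (l 16681032))) (b (c (l 16682688) (l 16681576)) (c (l 16683224) (l 16682120))))))))), by decide +kernel⟩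

def k228_A00pm_213_s3 : ∃ t, chk3 f_A00pm_213_s3 t 510 235 2 = true :=
  ⟨(b (c (b (c (l 16694440) (l 16692008)) (c (l 16695472) (l 16693056))) (c (a (l 16690880) (b (l 16688776) (l 16689840))) (a (b (l 16687840) (l 16688936)) (b (l 16686368) (l 16687456))))) (b (b (c (a (c (l 16697488) (l 16695048)) (c (l 16695704) (l 16693360))) (c (c (l 16692400) (l 16691200)) (a (l 16690136) (b (l 16688264) (l 16689040))))) (c (c (l 16698096) (l 16695736)) (c (l 16693368) (l 16690992)))) (c (c (l 16700344) (l 16698032)) (c (l 16695720) (l 16688152))))), by decide +kernel⟩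

def k229_A00pm_213_s3 : ∃ t, chk3 f_A00pm_213_s3 t 511 235 2 = true :=
  ⟨(a (b (c (c (b (l 16691816) (l 16692840)) (b (l 16689520) (l 16690560))) (c (b (l 16687224) (l 16688288)) (b (c (l 16685496) (l 16684336)) (c (l 16686576) (l 16685432))))) (c (c (b (b (b (l 16693584) (l 16694304)) (l 16695416)) (l 16697624)) (b (b (b (l 16691328) (l 16692064)) (l 16693192)) (l 16695448))) (c (b (b (b (b (l 16688896) (l 16689232)) (l 16689816)) (l 16690976)) (l 16693280)) (b (b (b (b (l 16686632) (l 16686968)) (l 16687568)) (l 16688744)) (l 16691096))))) (b (c (c (b (a (l 16690520) (l 16689656)) (a (l 16691528) (l 16690664))) (b (b (l 16687624) (l 16688144)) (b (l 16688664) (l 16689176)))) (c (c (b (l 16686232) (l 16687288)) (b (l 16685136) (l 16686192))) (b (a (c (l 16684392) (l 16683280)) (c (l 16683672) (l 16682584))) (a (c (l 16685472) (l 16684368)) (c (l 16684744) (l 16683664)))))) (a (c (b (b (b (c (l 16692272) (l 16690088)) (l 16691904)) (l 16693008)) (c (l 16696272) (l 16694176))) (b (b (c (b (b (l 16687736)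 (l 16688072)) (l 16688640)) (b (b (l 16685544) (l 16685880)) (l 16686472))) (c (l 16689792) (l 16687640))) (c (l 16692072) (l 16689968)))) (c (b (b (c (b (b (l 16691248) (l 16691568)) (l 16692112)) (b (b (l 16689112) (l 16689432)) (l 16689992))) (c (l 16693200) (l 16691104))) (c (l 16695384) (l 16693328))) (b (b (c (b (b (a (l 16687160) (l 16686776)) (l 16687296)) (l 16687864)) (b (b (b (l 16684776) (l 16684872)) (l 16685160)) (l 16685744))) (c (l 16689008) (l 16686904))) (c (l 16691280) (a (l 16689408) (l 16689040)))))))), by decide +kernel⟩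

def k230_A00pm_213_s3 : ∃ t, chk3 f_A00pm_213_s3 t 510 234 6 = true :=
  ⟨(b (c (b (c (l 16680800) (l 16679528)) (c (l 16681912) (l 16680648))) (b (c (l 16667760) (l 16666480)) (c (l 16679376) (l 16667624)))) (c (b (c (l 16683032) (l 16681768)) (a (l 16684200) (l 16680216))) (c (b (l 16680512) (l 16681648)) (b (l 16668768) (l 16669912))))), by decide +kernel⟩

def k231_A00pm_213_s3 : ∃ t, chk3 f_A00pm_213_s3 t 511 234 6 = true :=
  ⟨(b (a (c (b (c (l 16678768) (l 16677568)) (c (l 16679872) (l 16678688))) (b (c (l 16676368) (a (l 16675464) (l 16674872))) (c (l 16677496) (a (l 16676600) (l 16676008))))) (c (b (a (c (l 16677768) (l 16676608)) (b (c (l 16676832) (l 16675696)) (c (l 16677384) (l 16676248)))) (a (c (l 16678872) (l 16677720)) (c (c (l 16678488) (l 16677920)) (c (l 16677360) (l 16676800))))) (a (b (c (c (l 16675736) (l 16675160)) (c (l 16674576) (l 16673992))) (c (c (l 16676856) (l 16676280)) (c (l 16675704) (l 16675128)))) (b (c (c (b (l 16674840) (l 16675400)) (b (l 16674272) (l 16674840))) (c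 (b (l 16673704) (l 16674272)) (b (l 16673136) (l 16673704)))) (c (c (b (l 16675960) (l 16676520)) (b (l 16675400) (l 16675960))) (c (b (l 16674832) (l 16675400)) (b (l 16674272) (l 16674840)))))))) (a (c (b (c (l 16680976) (l 16679800)) (c (l 16682080) (l 16680912))) (c (b (l 16678624) (l 16679744)) (b (a (l 16677736) (l 16677144)) (a (l 16678880) (l 16678280))))) (c (b (a (c (l 16679968) (l 16678832)) (c (c (l 16679576) (l 16679024)) (c (l 16678464) (l 16677912)))) (a (c (l 16681064) (l 16679936)) (c (c (l 16680672) (l 16680120)) (c (l 16679568) (l 16679024))))) (c (b (b (c (l 16677384) (l 16676824)) (c (l 16677944) (l 16677384))) (a (l 16678808) (b (l 16677920) (l 16678472)))) (a (b (c (l 16676840) (l 16676264)) (c (l 16677968) (l 16677400))) (b (c (b (l 16675960) (l 16676528)) (b (l 16675408) (l 16675968))) (c (b (l 16677088) (l 16677656)) (b (l 16676536) (l 16677104))))))))), by decide +kernel⟩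

def k232_A00pm_213_s3 : ∃ t, chk3 f_A00pm_213_s3 t 510 234 7 = true :=
  ⟨(b (c (b (a (c (l 16676256) (l 16674944)) (c (l 16675104) (l 16673840))) (a (l 16666280) (c (l 16676256) (l 16675008)))) (a (b (l 16667728) (c (l 16674808) (l 22))) (c (b (l 16672576) (l 16673752)) (l 22)))) (c (b (a (l 16667440) (c (l 16677408) (l 16676168))) (a (l 16668608) (c (l 16678560) (l 16677328)))) (a (c (b (l 16675984) (l 16677168)) (l 16670032)) (b (c (l 16674928) (l 22)) (c (l 16676104) (l 16674872)))))), by decide +kernel⟩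

def k233_A00pm_213_s3 : ∃ t, chk3 f_A00pm_213_s3 t 511 468 7 = true :=
  ⟨(a (c (b (b (c (l 16673680) (l 16672472)) (c (l 16674248) (l 16673048))) (b (c (l 16674824) (l 16673632)) (c (l 16675400) (l 16674208)))) (c (b (c (l 16671856) (l 22)) (b (l 16672432) (l 16673016))) (l 22))) (c (a (b (c (c (l 16673416) (l 16672832)) (c (l 16672248) (b (l 16671384) (l 16671960)))) (b (c (l 16673984) (l 16672832)) (c (l 16674552) (l 16673408)))) (b (c (c (b (l 16672568) (l 16673136)) (b (a (l 16672136) (l 16671864)) (l 16672576))) (b (b (c (l 16671288) (l 16670720)) (c (l 16671576) (l 16671008))) (b (c (l 16671864) (l 16671296)) (c (l 16672152) (l 16671584))))) (c (c (b (l 16673712) (l 16674280)) (b (l 16673144) (l 16673720))) (b (c (a (l 16672712) (l 16672448)) (a (l 16672152) (l 16671888))) (c (a (l 16673288) (l 16673024)) (a (l 16672728) (l 16672464))))))) (a (c (b (c (b (l 16670800) (l 16671376)) (l 22)) (b (c (l 16671960) (l 22)) (c (l 16672544) (l 16671968)))) (l 22)) (c (c (c (b (b (l 16670440) (l 16671016)) (b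 (l 16671600) (l 16672176))) (b (l 22) (b (l 16671312) (l 16671896)))) (b (l 22) (b (l 22) (a (l 16671600) (b (l 22) (l 16671496)))))) (l 22))))), by decide +kernel⟩

def k234_A00pm_213_s3 : ∃ t, chk3 f_A00pm_213_s3 t 511 469 7 = true :=
  ⟨(a (c (b (b (c (l 16675976) (l 16674784)) (c (l 16676544) (l 16675368))) (c (a (l 16677696) (l 16677120)) (a (l 16676504) (l 16675960)))) (a (c (b (l 16674152) (l 16675320)) (b (l 22) (l 16674128))) (b (c (c (l 16673928) (l 16673344)) (l 22)) (c (c (l 16675096) (l 16674512)) (b (l 16673352) (l 16673944)))))) (c (a (b (c (c (l 16675696) (l 16675128)) (c (l 16674560) (l 16673984))) (c (c (l 16676840) (l 16676272)) (c (l 16675704) (l 16675144)))) (b (c (c (b (l 16674848) (l 16675416)) (b (l 16674288) (l 16674864))) (b (c (a (l 16673864) (l 16673600)) (a (l 16673304) (l 16673048))) (c (l 16674304) (a (l 16673880) (l 16673624))))) (c (b (c (l 16675984) (l 16675432)) (c (l 16676552) (l 16676008))) (b (c (l 16674880) (a (l 16674464) (l 16674200))) (c (l 16675456) (a (l 16675040)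 (l 16674776))))))) (a (b (c (b (c (l 16673128) (l 16672552)) (c (l 16673704) (l 16673136))) (l 22)) (c (b (c (l 16674288) (l 16673720)) (c (l 16674872) (l 16674304))) (c (a (l 16673568) (l 16673328)) (l 22)))) (b (c (b (b (a (l 16672320) (c (l 16672344) (l 16671792))) (a (l 16672608) (c (l 16672640) (l 16672080)))) (b (c (l 16673056) (l 16672496)) (c (l 16673344) (l 16672792)))) (l 22)) (c (b (b (c (l 16673632) (l 16673080)) (c (l 16673920) (l 16673368))) (b (c (l 16674216) (l 16673664)) (c (l 16674504) (l 16673952)))) (c (c (b (a (l 16672936) (l 16672688)) (l 16673400)) (b (l 22) (a (l 16673240) (l 16673000)))) (l 22))))))), by decide +kernel⟩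

def k235_A00pm_213_s3 : ∃ t, chk3 f_A00pm_213_s3 t 510 235 3 = true :=
  ⟨(b (a (c (c (b (l 16685320) (l 16686440)) (b (l 16682792) (l 16683928))) (c (b (l 16669768) (l 16670928)) (b (c (l 16678344) (l 16677064)) (c (l 16679520) (l 16678256))))) (c (c (b (l 16683952) (l 16685064)) (c (b (l 16682136) (l 16683264)) (b (l 16680928) (l 16682064)))) (c (b (c (l 16679712) (l 16678496)) (c (l 16680864) (l 16679656))) (b (c (l 16677272) (l 16676056)) (c (l 16678448) (l 16677240)))))) (c (b (c (b (b (a (l 16687264) (b (l 16685712) (l 16686064))) (l 16687376)) (l 16688608)) (b (b (a (l 16684776) (b (l 16683320) (l 16683688))) (l 16674464)) (l 16675728))) (c (a (l 16691784) (l 16690336)) (l 16678232))) (b (c (b (a (b (l 16671784) (l 16683112)) (b (c (l 16681712) (l 16670024)) (l 16681936))) (a (l 16684408) (l 16683216))) (b (a (c (l 16670328) (l 16669072)) (b (b (c (l 16679128) (l 16677928)) (l 16678904)) (l 16679552))) (a (l 16681944) (l 16680856)))) (c (a (l 16686984) (l 16675264)) (c (l 16674112) (l 16678168)))))),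 by decide +kernel⟩

def k236_A00pm_213_s3 : ∃ t, chk3 f_A00pm_213_s3 t 1022 470 3 = true :=
  ⟨(c (c (b (c (l 16683184) (l 16682024)) (c (l 16684288) (l 16683144))) (b (c (l 16680872) (a (l 16680016) (l 16679408))) (c (l 16681992) (l 16680848)))) (c (b (c (a (l 16678840) (l 16678264)) (a (l 16677664) (l 16677120))) (c (a (l 16679984) (l 16679408)) (a (l 16678824) (l 16678272)))) (a (c (b (l 16676488) (l 16677656)) (b (l 16675312) (l 16676488))) (b (c (c (l 16676256) (l 16675688)) (b (l 16674528) (l 16675120))) (c (b (l 16676848) (l 16677432)) (b (l 16675704) (l 16676296))))))), by decide +kernel⟩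

def k237_A00pm_213_s3 : ∃ t, chk3 f_A00pm_213_s3 t 1023 470 6 = true :=
  ⟨(c (b (c (b (l 16681552) (l 16682104)) (a (l 16681048) (c (l 16680672) (l 16680128)))) (c (b (l 16682648) (l 16683200)) (a (l 16682160) (b (l 16681232) (l 16681784))))) (b (a (c (l 16679936) (c (l 16679096) (l 16678536))) (c (b (l 16679032) (l 16679592)) (c (b (l 16678216) (l 16678776)) (b (l 16677672) (l 16678232))))) (a (c (l 16681056) (c (l 16680224) (l 16679672))) (c (b (l 16680152) (l 16680712)) (b (c (l 16679344) (l 16678800)) (c (l 16679904) (l 16679368))))))), by decide +kernel⟩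

def k238_A00pm_213_s3 : ∃ t, chk3 f_A00pm_213_s3 t 1023 470 7 = true :=
  ⟨(c (a (b (c (c (l 16677976) (l 16677416)) (b (l 16676288) (l 16676872))) (c (c (l 16679120) (l 16678560)) (b (l 16677448) (l 16678024)))) (b (c (b (c (l 16677120) (l 16676576)) (c (l 16677688) (l 16677152))) (b (c (l 16676032) (l 16675488)) (c (l 16676608) (l 16676064)))) (c (b (c (l 16678256) (l 16677720)) (c (l 16678832) (l 16678288))) (b (c (l 16677176) (l 16676640)) (c (l 16677752) (l 16677216)))))) (a (b (c (b (c (l 16675448) (l 16674888)) (l 16675752)) (b (c (l 16674328) (l 16673768)) (c (l 16674912) (l 16674360)))) (c (b (l 16676336) (l 16676920)) (b (c (l 16675504) (l 16674944)) (c (l 16676088) (l 16675536))))) (b (c (b (c (a (l 16675064) (l 16674808)) (a (l 16674512) (l 16674264))) (c (a (l 16675648) (l 16675392)) (a (l 16675096) (l 16674848)))) (b (b (c (l 16673696) (l 22)) (a (l 16673840) (c (l 16673872) (l 16673328)))) (b (a (l 16674128) (c (l 16674160) (l 16673624))) (a (l 16674424) (c (l 16674456) (l 16673920)))))) (c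 (b (c (a (l 16676224) (l 16675968)) (a (l 16675680) (l 16675432))) (c (a (l 16676808) (l 16676552)) (a (l 16676264) (l 16676016)))) (b (b (a (l 16674720) (c (l 16674752) (l 16674208))) (a (l 16675008) (c (l 16675040) (l 16674504)))) (b (a (l 16675304) (c (l 16675336) (l 16674800))) (c (l 16675744) (l 16675208)))))))), by decide +kernel⟩

def k239_A00pm_213_s3 : ∃ t, chk3 f_A00pm_213_s3 t 1022 471 3 = true :=
  ⟨(c (b (c (b (b (b (c (l 16684920) (l 16683784)) (l 16684704)) (l 16685312)) (l 16686512)) (b (b (b (c (l 16682648) (l 16681504)) (l 16682432)) (l 16683048)) (c (l 16684840) (l 16683720)))) (c (l 16683672) (c (l 16687280) (l 16686184)))) (c (a (b (b (b (b (c (l 16680648) (l 16679496)) (l 16680440)) (l 16681072)) (l 16682328)) (l 16684840)) (b (b (b (b (c (l 16680072) (l 16678944)) (l 16679872)) (l 16680496)) (l 16681752)) (c (l 16684784) (l 16683696)))) (b (c (b (b (b (a (l 16678336) (l 16677816)) (l 16678440)) (l 16679080)) (l 16680360)) (b (b (b (b (l 16676872) (l 16676984)) (l 16677304)) (l 16677944))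 (l 16679232))) (c (l 16672408) (a (l 16682064) (l 16681536)))))), by decide +kernel⟩

def k240_A00pm_213_s3 : ∃ t, chk3 f_A00pm_213_s3 t 1023 471 6 = true :=
  ⟨(c (a (b (b (b (b (c (l 16683896) (l 16682800)) (l 16683696)) (l 16684296)) (l 16685488)) (l 16687864)) (b (b (b (b (b (l 16682632) (c (l 16683272) (l 16682200))) (l 16683024)) (a (l 16683792) (l 16683456))) (a (l 16684976) (l 16684640))) (b (l 16686384) (l 16687952)))) (c (b (b (b (b (a (l 16681704) (b (l 16681024) (l 16681128))) (l 16681736)) (l 16682344)) (l 16680928)) (a (l 16686280) (l 16685632))) (a (b (b (b (b (l 16680600) (l 16680952)) (l 16681568)) (l 16682792)) (l 16685232)) (b (b (b (b (b (l 16679952) (a (l 16680208) (l 16679912))) (l 16680360)) (l 16680968)) (l 16682184)) (l 16681984))))), by decide +kernel⟩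

def k241_A00pm_213_s3 : ∃ t, chk3 f_A00pm_213_s3 t 1023 471 7 = true :=
  ⟨(a (c (c (b (b (b (b (b (l 16679448) (l 16679552)) (l 16679856)) (l 16680480)) (l 16681712)) (l 16684176)) (b (b (b (b (b (l 16678344) (l 16678456)) (l 16678760)) (l 16679384)) (l 16680632)) (l 16683120))) (b (b (b (b (c (b (l 16677248) (l 16677352)) (b (l 16676144) (a (l 16676376) (l 16676128)))) (c (l 16677664) (l 16676568))) (c (l 16678296) (l 16677200))) (c (l 16679552) (l 16678472))) (c (l 16682064) (b (l 16680168) (l 16681848))))) (a (c (b (b (b (b (c (b (l 16679024) (l 16679128)) (b (l 16677944) (l 16678048))) (c (l 16679432) (l 16678352))) (c (l 16680048) (l 16678976))) (c (l 16681272) (l 16680216))) (c (l 16683728) (l 16682688))) (b (c (b (b (b (b (l 16676864) (b (l 16676920) (l 16677016))) (l 16677280)) (l 16677904)) (l 16679160)) (b (b (b (b (l 16675784) (b (l 16675840) (l 16675936))) (l 16676200)) (l 16676840)) (l 16678104))) (c (l 16681656) (l 16678000)))) (b (c (b (b (b (c (b (l 16678736) (b (l 16678800) (l 16678888)))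 (b (l 16677672) (b (l 16677736) (l 16677824)))) (c (l 16679144) (l 16678088))) (c (l 16679760) (l 16678704))) (c (l 16680984) (l 16679944))) (a (c (b (b (b (b (l 16676672) (b (l 16676736) (l 16676824))) (l 16677088)) (l 16677712)) (l 16678960)) (b (b (b (b (l 16675600) (c (l 16675976) (l 16675440))) (l 16676024)) (l 16676656)) (l 16677912))) (c (b (b (b (b (l 16676544) (b (c (l 16676872) (l 16676344)) (l 16676696))) (l 16676960)) (l 16677584)) (l 16678832)) (b (b (b (b (l 16675480) (b (c (l 16675808) (l 16675280)) (l 16675640))) (l 16675904)) (l 16676536)) (c (l 16678056) (l 16677536)))))) (c (c (l 16683424) (b (l 16681584) (l 16683224))) (c (b (l 16680560) (l 16682216)) (b (a (l 16679592) (l 16679464)) (l 16681200))))))), by decide +kernel⟩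

def k242_A00pm_213_s3 : ∃ t, chk3 f_A00pm_213_s3 t 30 118 1 = true :=
  ⟨(a (c (a (b (c (l 16750512) (l 16747120)) (c (l 16759064) (l 16756424))) (b (c (l 16752408) (l 16747784)) (c (l 16762312) (l 16758552)))) (a (b (c (a (l 16743816) (l 16743496)) (a (l 16722360) (l 16736784))) (c (a (l 16753504) (l 16753968)) (a (l 16751104) (l 16750968)))) (b (c (a (l 16743184) (l 16742896)) (a (l 16738696) (l 16737720))) (c (a (l 16754448) (l 16754944)) (a (l 16729864) (b (l 16747552) (l 16753768))))))) (c (a (b (c (l 16754552) (a (l 16748384) (l 16748880))) (c (l 16765808) (a (l 16760240) (l 16761472)))) (b (c (a (l 16756368) (l 16757720)) (a (l 16749464) (b (l 16746464) (l 16753736)))) (c (a (l 16768632) (l 16770648)) (a (l 16762784) (b (l 16760760) (l 16767528)))))) (a (b (c (a (l 16742648) (l 16742456)) (a (l 16726280) (b (l 16732000) (l 16739616)))) (c (a (l 16755480) (l 16745592)) (a (b (l 16747232) (l 16753864)) (b (l 16746960) (l 16754016))))) (b (c (a (b (l 16738560) (l 16746032)) (b (l 16738352) (l 16746216)))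 (a (b (l 16730944) (l 16728504)) (b (c (l 16732104) (l 16727864)) (c (l 16740416) (l 16736480))))) (c (a (b (l 16753232) (l 16760168)) (b (l 16753808) (l 16761136))) (a (b (c (l 16748392) (l 16745104)) (c (l 16755736) (l 16752720))) (b (c (l 16748456) (a (l 16744872) (l 16744760))) (c (l 16756208) (a (l 16752808) (l 16752912)))))))))), by decide +kernel⟩

def k243_A00pm_213_s3 : ∃ t, chk3 f_A00pm_213_s3 t 30 119 1 = true :=
  ⟨(c (a (a (b (c (l 16766640) (a (l 16763800) (l 16765568))) (c (l 16773208) (a (l 16770640) (l 16773136)))) (b (c (l 16771240) (b (l 16765936) (l 16770544))) (c (l 16779152) (b (l 16774872) (l 16778928))))) (b (a (c (l 16776080) (a (l 16771072) (l 16773024))) (c (a (l 16779904) (l 16782592)) (a (l 16775064) (l 16766712)))) (a (c (l 16785328) (b (l 16779728) (l 16784504))) (c (b (l 16789272) (l 16794296)) (a (l 16786256) (l 16778624)))))) (a (a (a (b (c (l 16762104) (l 16760416)) (c (l 16769576) (b (l 16766600) (l 16770344)))) (b (c (l 16763360) (b (l 16758688) (l 16763472))) (c (l 16771608)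 (b (l 16767944) (l 16772112))))) (b (c (b (l 16762728) (l 16767728)) (a (b (l 16759184) (l 16764392)) (b (l 16759688) (l 16765312)))) (c (b (l 16772448) (a (l 16775720) (l 16777984))) (b (a (l 16769288) (l 16770640)) (a (l 16773880) (l 16775648)))))) (c (a (b (a (l 16767232) (b (l 16765568) (l 16771552))) (b (a (l 16775280) (l 16777248)) (a (l 16780288) (l 16782640)))) (b (a (b (l 16766824) (l 16773200)) (b (l 16768184) (l 16774952))) (a (b (l 16779288) (l 16785072)) (b (l 16781424) (l 16787600))))) (a (b (a (b (l 16760216) (l 16766264)) (b (l 16760784) (l 16767248))) (a (b (l 16772008) (l 16777432)) (b (l 16773416) (c (l 16780120) (l 16778408))))) (b (a (b (c (l 16762784) (l 16760040)) (c (l 16769544) (l 16767064))) (b (c (l 16763680) (a (l 16760456) (l 16760768))) (c (l 16770848) (a (l 16767800) (l 16768328))))) (a (b (c (l 16776008) (l 16773776)) (c (l 16782152) (l 16780176))) (b (c (l 16777720) (a (l 16774832) (l 16775576))) (c (l 16784288) (a (l 16781552) (l 16782504)))))))))), by decide +kernel⟩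

def k244_A00pm_213_s3 : ∃ t, chk3 f_A00pm_213_s3 t 62 118 2 = true :=
  ⟨(a (a (b (a (c (l 16758800) (l 16740248)) (b (c (l 16749896) (a (l 16747144) (l 16746096))) (c (l 16762672) (a (l 16754848) (l 16754432))))) (c (b (l 16758960) (l 16776040)) (b (a (l 16761752) (a (l 16762272) (l 16762408))) (l 16764016)))) (b (c (b (l 16749424) (l 16757248)) (b (l 16741200) (l 16749488))) (c (a (l 16760576) (l 16766472)) (b (l 16757672) (a (l 16767912) (l 16763496)))))) (b (a (c (l 16739568) (c (l 16739296) (l 16735544))) (c (l 16725944) (b (l 16704880) (l 16733384)))) (c (a (l 16759552) (l 16750472)) (a (b (l 16749144) (l 16756824)) (c (l 16745992) (l 16742960)))))), by decide +kernel⟩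

def k245_A00pm_213_s3 : ∃ t, chk3 f_A00pm_213_s3 t 248 118 3 = true :=
  ⟨(c (b (a (b (l 16738264) (l 16746424)) (b (a (c (l 16740496) (l 16735976)) (c (l 16739448) (l 16734928))) (a (l 16746552) (a (c (l 16748592) (l 16744328)) (l 16745776))))) (b (a (l 16754312) (a (l 16754592) (c (l 16756576) (a (l 16752752) (l 16752496))))) (a (l 16761928) (c (l 16764344) (l 16760704))))) (b (a (b (c (l 16731600) (l 16727072)) (c (l 16740224) (l 16736016))) (b (a (c (b (l 16729128) (l 16733608)) (b (a (l 16724448) (l 16724280)) (l 16729016))) (c (l 16730336) (b (l 16723264) (l 16728096)))) (a (c (l 16740160) (l 16730568)) (a (c (b (l 16737752) (l 16742264)) (b (a (l 16733440) (l 16733160)) (c (l 16739024) (l 16736840)))) (c (l 16739328) (l 16734944)))))) (b (a (c (l 16748576) (l 16744672)) (a (c (l 16748664) (l 16744632)) (a (c (l 16748720) (b (l 16742416) (l 16746792))) (c (b (l 16746232) (l 16750704)) (b (c (l 16743096) (l 16740984)) (a (l 16746800) (l 16746560))))))) (a (c (l 16756640) (l 16753040)) (c (b (l 16754952)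 (l 16758992)) (a (l 16753160) (a (l 16747984) (b (c (l 16741624) (l 16750144)) (l 16755392))))))))), by decide +kernel⟩

def k246_A00pm_213_s3 : ∃ t, chk3 f_A00pm_213_s3 t 249 118 3 = true :=
  ⟨(c (b (b (c (l 16734856) (l 16730544)) (c (l 16743504) (l 16739432))) (b (c (l 16752040) (l 16748208)) (a (c (l 16762536) (a (l 16759912) (l 16757912))) (l 16756568)))) (c (b (b (a (l 16727840) (l 16724504)) (a (l 16737088) (l 16733528))) (b (a (l 16746216) (l 16742432)) (a (a (b (l 16753968) (l 16758400)) (l 16754224)) (l 16751224)))) (b (b (a (b (l 16720912) (l 16725688)) (l 16720144)) (a (b (l 16730440) (l 16735160)) (l 16729416))) (a (b (b (l 16739848) (c (l 16745504) (l 16743504))) (b (c (l 16750088) (l 16748152)) (a (a (c (l 16756072) (a (l 16754392) (l 16754032))) (l 16754240)) (l 16752760)))) (b (c (l 16739536) (l 16737584)) (c (l 16748504) (l 16746672))))))), by decide +kernel⟩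

def k247_A00pm_213_s3 : ∃ t, chk3 f_A00pm_213_s3 t 125 118 3 = true :=
  ⟨(c (b (a (b (c (l 16727584) (l 16723608)) (c (l 16735824) (l 16732072))) (c (b (l 16720496) (l 16728336)) (b (l 16716864) (l 16724912)))) (a (b (c (l 16743952) (l 16740424)) (c (l 16751952) (l 16748648))) (b (l 16731824) (l 16742136)))) (c (b (a (b (l 16719584) (l 16728272)) (b (l 16713192) (l 16721440))) (a (b (l 16736840) (l 16745288)) (b (l 16729560) (l 16737552)))) (b (a (b (a (l 16717032) (l 16713968)) (a (l 16726064) (l 16722768))) (b (l 16709464) (l 16717928))) (a (b (a (l 16734976) (l 16731448)) (a (l 16743768) (l 16740000))) (b (l 16726256) (l 16734448)))))), by decide +kernel⟩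

def k248_A00pm_213_s3 : ∃ t, chk3 f_A00pm_213_s3 t 124 119 2 = true :=
  ⟨(a (b (c (l 16785392) (b (l 16776096) (l 16782688))) (c (l 16796960) (b (l 16789008) (l 16795040)))) (c (b (a (a (l 16776168) (l 16785048)) (l 16781288)) (a (b (l 16795984) (l 16802224)) (l 16795648))) (b (a (a (b (l 16776816) (l 16784128)) (l 16757872)) (l 16775256)) (a (a (l 16783480) (b (l 16790320) (l 16797432))) (l 16780016))))), by decide +kernel⟩

def k249_A00pm_213_s3 : ∃ t, chk3 f_A00pm_213_s3 t 248 119 3 = true :=
  ⟨(c (b (b (c (l 16771288) (l 16768016)) (c (l 16778304) (l 16775312))) (b (l 16773192) (l 16779752))) (b (b (a (c (l 16764416) (l 16761112)) (c (l 16764952) (b (l 16759448) (l 16763512)))) (c (a (l 16771896) (l 16772640)) (a (l 16768888) (c (l 16770272) (l 16768680))))) (b (c (l 16779552) (a (l 16776344) (c (l 16777880) (l 16776424)))) (c (l 16786528) (b (l 16779592) (l 16785760)))))), by decide +kernel⟩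

def k250_A00pm_213_s3 : ∃ t, chk3 f_A00pm_213_s3 t 249 119 3 = true :=
  ⟨(c (b (b (a (a (c (l 16771776) (a (l 16768728) (l 16768120))) (l 16768216)) (l 16764880)) (a (a (c (l 16779496) (a (l 16776328) (l 16776344))) (l 16776576)) (l 16773080))) (b (a (a (l 16785144) (b (l 16782680) (l 16781384))) (l 16781152)) (a (a (l 16791944) (c (l 16793552) (a (l 16791144) (l 16790792)))) (l 16789128)))) (b (a (b (a (a (b (c (l 16763192) (a (l 16759648) (c (l 16749936) (l 16758592)))) (c (l 16767296) (b (l 16757536) (l 16764824)))) (c (l 16764624) (b (l 16758832) (c (l 16764224) (l 16762464))))) (c (l 16763072) (c (l 16760448) (l 16758688)))) (a (c (a (l 16773128) (b (l 16771096) (l 16775192))) (a (c (l 16770688) (l 16769040)) (b (c (l 16768584) (a (l 16767088) (l 16766776))) (c (l 16767536) (a (l 16771160) (l 16771152)))))) (c (l 16771792) (b (l 16766304) (l 16770752))))) (b (c (l 16759888) (c (l 16757352) (l 16755640))) (c (l 16768440) (c (l 16766072) (l 16764480))))) (a (c (a (b (l 16780760) (l 16787984)) (b (a (b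 (l 16778736) (l 16782808)) (l 16779808)) (a (l 16788448) (b (l 16786112) (l 16790152))))) (b (a (c (l 16778528) (l 16777032)) (a (b (c (l 16776432) (a (l 16775128) (l 16774688))) (a (l 16779976) (c (l 16780536) (l 16779040)))) (l 16776816))) (a (c (l 16785968) (l 16784608)) (a (b (b (l 16777632) (l 16784760)) (l 16787544)) (b (l 16783296) (a (c (l 16788360) (l 16787008)) (l 16787328))))))) (b (c (l 16776856) (a (l 16775088) (l 16772792))) (c (l 16785176) (b (l 16780344) (l 16784600))))))), by decide +kernel⟩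

def k251_A00pm_213_s3 : ∃ t, chk3 f_A00pm_213_s3 t 125 119 1 = true :=
  ⟨(c (c (b (a (l 16752824) (l 16764040)) (a (l 16766704) (l 16777256))) (b (a (b (l 16764384) (l 16771816)) (b (l 16755256) (l 16762320))) (a (a (l 16764384) (l 16780288)) (b (l 16769304) (l 16776232))))) (c (b (a (b (c (l 16759840) (l 16756744)) (a (l 16768464) (l 16763880))) (b (c (l 16751096) (l 16748272)) (l 16757144))) (a (b (a (l 16776312) (l 16771536)) (a (l 16784080) (l 16779112))) (b (l 16764512) (l 16771824)))) (b (a (b (c (l 16753608) (a (l 16752432) (l 16748424))) (a (c (l 16764000) (l 16760976)) (c (l 16759616) (l 16756712)))) (b (a (c (l 16747432) (l 16744456)) (l 16741992)) (a (c (l 16755288) (l 16752520)) (l 16749728)))) (a (b (c (a (l 16772192) (l 16767584)) (a (l 16769384) (l 16764904))) (a (c (l 16780280) (c (l 16778352) (l 16777048))) (c (l 16775480) (l 16773008)))) (b (a (l 16761776) (l 16757400)) (a (l 16769584) (l 16765008))))))), by decide +kernel⟩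

def k252_A00pm_213_s3 : ∃ t, chk3 f_A00pm_213_s3 t 126 59 1 = true :=
  ⟨(b (c (b (a (c (l 16717736) (b (l 16697488) (l 16704648))) (c (b (l 16695968) (l 16702416)) (b (l 16700792) (l 16707560)))) (a (c (l 16731072) (b (l 16711680) (l 16718584))) (c (c (l 16713128) (l 16710720)) (b (l 16703752) (l 16710344))))) (c (b (a (b (a (l 16692664) (l 16689368)) (l 16714264)) (b (c (l 16685984) (l 16693560)) (c (l 16693000) (l 16700744)))) (a (b (l 16726912) (l 16734168)) (b (c (l 16699928) (l 16697344)) (b (l 16703816) (l 16707232))))) (b (a (b (c (l 16707024) (l 16703672)) (c (l 16714832) (l 16711672))) (b (c (l 16690616) (b (l 16685736) (l 16679056))) (c (l 16697968) (b (l 16682832) (l 16686560))))) (a (b (c (l 16722512) (l 16719536)) (c (l 16730048) (l 16727256))) (b (c (l 16705224) (l 16713080)) (c (l 16712384) (l 16720408))))))) (c (b (a (c (l 16754528) (b (l 16725408) (l 16753104))) (c (l 16724296) (a (l 16722216) (l 16717936)))) (c (a (l 16767152) (l 16757360)) (a (b (l 16759776) (l 16766376)) (l 16748496))))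 (c (b (a (b (l 16741344) (l 16748424)) (b (l 16722832) (l 16729584))) (a (b (l 16755448) (l 16762392)) (b (l 16746736) (l 16753312)))) (b (a (b (c (l 16737488) (l 16734888)) (c (l 16744840) (l 16742416))) (b (c (l 16729912) (l 16727608)) (c (l 16736904) (l 16734768)))) (a (b (c (l 16752128) (l 16749888)) (c (l 16759344) (l 16757272))) (b (c (l 16743808) (l 16741832)) (c (l 16750616) (l 16748800)))))))), by decide +kernel⟩

def k253_A00pm_213_s3 : ∃ t, chk3 f_A00pm_213_s3 t 254 118 1 = true :=
  ⟨(c (b (c (b (c (l 16689544) (l 16697560)) (l 16704944)) (b (a (l 16695544) (a (l 16687728) (l 16686040))) (a (l 16691576) (l 16698480)))) (c (b (l 16700512) (l 16706512)) (b (c (l 16697224) (l 16695008)) (l 16712880)))) (b (c (b (a (b (l 16688592) (l 16692032)) (c (l 16688496) (l 16686056))) (c (l 16696712) (a (l 16706384) (l 16692768)))) (b (a (c (l 16686352) (l 16683688)) (c (l 16683608) (a (l 16681768) (l 16680520)))) (c (a (l 16682912) (l 16690464)) (a (l 16690888) (l 16688144))))) (c (b (c (l 16703272) (l 16701032))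 (c (l 16699280) (l 16707664))) (b (c (b (l 16697064) (l 16689992)) (a (l 16687496) (l 16695056))) (c (l 16705560) (b (l 16701712) (l 16694672))))))), by decide +kernel⟩

def k254_A00pm_213_s3 : ∃ t, chk3 f_A00pm_213_s3 t 255 118 2 = true :=
  ⟨(b (a (c (b (c (l 16704808) (l 16697352)) (l 16693912)) (b (a (c (l 16701232) (l 16698960)) (c (l 16699536) (l 16697352))) (c (l 16706512) (l 16704424)))) (b (b (a (c (l 16699496) (c (l 16696328) (l 16694216))) (c (c (l 16698720) (l 16696712)) (c (l 16694696) (l 16687432)))) (a (c (l 16702432) (c (l 16699368) (l 16697312))) (c (c (l 16701608) (l 16699648)) (c (l 16697696) (l 16695744))))) (c (c (l 16701600) (a (l 16705848) (l 16704040))) (b (c (l 16701528) (l 16699592)) (c (l 16704520) (l 16702640)))))) (a (c (c (l 16698408) (l 16707008)) (b (l 16695880) (l 16696696))) (c (b (l 16695912) (l 16696336)) (a (c (l 16697096) (l 16700568)) (b (c (l 16708072) (l 16706328)) (l 16713072)))))), by decide +kernel⟩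

def k255_A00pm_213_s3 : ∃ t, chk3 f_A00pm_213_s3 t 255 118 3 = true :=
  ⟨(a (b (c (b (c (l 16685432) (a (l 16683904) (l 16682496))) (c (l 16691840) (l 16689736))) (b (b (c (l 16679264) (a (l 16688048) (l 16676384))) (c (l 16682616) (l 16680392))) (c (c (l 16688152) (l 16687088)) (b (l 16683800) (l 16687192))))) (c (b (c (l 16708656) (l 16696200)) (l 16703504)) (b (c (l 16694224) (l 16692240)) (c (l 16700736) (l 16698888))))) (b (a (c (b (c (b (l 16692096) (l 16695264)) (c (l 16681632) (l 16680584))) (c (l 16699976) (l 16687528))) (b (b (c (l 16677368) (b (l 16682256) (l 16686560))) (c (l 16691144) (l 16678600))) (c (l 16685568) (c (l 16684096) (l 16683112))))) (a (c (c (b (b (l 16691016) (l 16694152)) (l 16698824)) (b (c (l 16691080) (l 16679592)) (l 16696944))) (b (b (c (l 16676440) (c (l 16685392) (l 16684368))) (c (l 16690192) (l 16688208))) (c (l 16684568) (b (l 16691512) (l 16694800))))) (c (c (b (b (l 16690304) (l 16693424)) (b (l 16696520) (l 16699600))) (b (b (b (l 16687512) (l 16689112)) (l 16691496))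 (l 16685744))) (b (b (c (c (l 16686824) (l 16685824)) (b (c (l 16684000) (l 16683000)) (c (l 16685656) (l 16684664)))) (c (a (l 16689720) (l 16686792)) (c (l 16688120) (l 16687152)))) (b (c (l 16692784) (b (l 16690104) (l 16691736))) (c (l 16695992) (l 16694184))))))) (c (b (c (l 16694904) (l 16693112)) (c (l 16711480) (l 16699328))) (b (a (c (l 16702520) (l 16690200)) (c (l 16690616) (b (l 16687256) (l 16700976)))) (c (l 16697656) (a (l 16707192) (l 16695288))))))), by decide +kernel⟩

def k256_A00pm_213_s3 : ∃ t, chk3 f_A00pm_213_s3 t 127 119 1 = true :=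
  ⟨(c (b (a (c (l 16725864) (b (l 16708600) (l 16714720))) (c (b (l 16709224) (l 16709544)) (b (c (l 16701544) (l 16699920)) (l 16717016)))) (c (a (l 16737376) (a (l 16719976) (l 16725936))) (a (c (l 16724528) (l 16743912)) (b (l 16722712) (l 16717808))))) (a (b (c (b (c (l 16726664) (l 16703744)) (l 16721600)) (b (c (l 16712264) (l 16710288)) (c (l 16708384) (l 16717040)))) (c (b (l 16727904) (l 16734104)) (b (c (l 16714896) (l 16734176)) (c (l 16721304) (l 16740720))))) (b (c (b (c (l 16708776) (l 16707144)) (c (l 16704272) (l 16713248))) (b (c (b (l 16703936) (l 16707080)) (a (l 16705440) (l 16702352))) (c (l 16711736) (b (l 16708648) (l 16711792))))) (c (b (c (l 16710144) (l 16708752)) (l 16725744)) (b (c (l 16717848) (l 16716464)) (c (l 16723840) (l 16722568))))))), by decide +kernel⟩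

def k257_A00pm_213_s3 : ∃ t, chk3 f_A00pm_213_s3 t 30 60 1 = true :=
  ⟨(b (a (c (b (a (c (l 16773680) (b (l 16773880) (l 16771576))) (c (l 16780096) (b (l 16779552) (l 16777072)))) (a (c (l 16769216) (l 16768320)) (c (l 16775232) (l 16773544)))) (b (a (c (a (l 16770560) (l 16772912)) (b (a (l 16770960) (l 16772904)) (l 16764496))) (c (b (l 16772464) (l 16775280)) (b (a (l 16774840) (l 16776784)) (l 16768216)))) (a (c (l 16767456) (b (l 16767632) (l 16765632))) (c (l 16771832) (b (l 16771208) (l 16769056)))))) (c (b (a (c (l 16786744) (b (l 16785408) (l 16782744))) (c (b (l 16795200) (l 16792248)) (b (l 16791560) (l 16788688)))) (a (c (l 16781408) (l 16778864)) (c (l 16788096) (l 16784680)))) (b (a (c (b (a (l 16781352) (l 16783864)) (l 16780032)) (b (a (l 16778744) (l 16780752)) (a (l 16776272) (l 16778208)))) (c (b (a (l 16786448) (l 16789128)) (a (l 16783744) (l 16786336))) (b (a (c (l 16783744) (l 16781904)) (c (l 16786040) (l 16783936))) (a (l 16780208) (l 16782296))))) (a (c (b (l 16777552) (l 16775128))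 (b (l 16774848) (l 16772504))) (a (c (l 16779864) (l 16776472)) (c (l 16782424) (l 16773296))))))) (a (a (c (b (c (l 16765192) (l 16764376)) (l 16761248)) (b (c (l 16763592) (l 16762840)) (a (l 16759008) (l 16760656)))) (c (b (c (l 16770800) (l 16769224)) (l 16755600)) (b (c (l 16767640) (l 16766040)) (a (l 16762288) (l 16764000))))) (a (c (b (c (l 16776664) (l 16774272)) (l 16760912)) (b (c (l 16771824) (l 16769320)) (a (l 16765816) (l 16767720)))) (c (b (c (l 16783072) (l 16779840)) (l 16777248)) (b (a (l 16763160) (c (l 16777776) (l 16774104))) (a (l 16769840) (l 16772152))))))), by decide +kernel⟩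

def k258_A00pm_213_s3 : ∃ t, chk3 f_A00pm_213_s3 t 30 61 1 = true :=
  ⟨(a (b (a (c (b (l 16747680) (l 16745240)) (b (a (l 16756176) (l 16757696)) (b (l 16755200) (l 16733248)))) (c (b (l 16762800) (l 16739176)) (b (a (l 16717328) (l 16718968)) (l 16757768)))) (a (c (b (l 16743464) (b (l 16732184) (l 16731888))) (b (l 16747896) (c (l 16731544) (l 16731296)))) (b (c (l 16747792) (l 16756200)) (c (c (l 16736584) (l 16735696)) (a (l 16733592) (l 16735160)))))) (b (a (c (b (l 16767896) (l 16765168)) (b (l 16753192) (l 16761328))) (b (c (l 16773704) (a (l 16766744) (l 16769024))) (c (l 16770792) (a (l 16722392) (l 16766552))))) (a (b (c (l 16752624) (a (l 16737768) (l 16739616))) (c (a (l 16739520) (l 16741936)) (a (l 16747304) (a (l 16738128) (l 16739040))))) (b (c (b (l 16748056) (l 16747056)) (a (l 16741600) (l 16754216))) (c (b (l 16756696) (l 16755992)) (a (a (l 16739984) (l 16751440)) (a (l 16752448) (l 16753496)))))))), by decide +kernel⟩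

def k259_A00pm_213_s3 : ∃ t, chk3 f_A00pm_213_s3 t 62 120 1 = true :=
  ⟨(a (c (b (a (c (l 16799192) (l 16794912)) (a (b (c (l 16803656) (l 16798992)) (l 16798320)) (b (l 16788984) (l 16787256)))) (a (l 16791424) (a (l 16794136) (a (l 16784952) (l 16794624))))) (b (c (a (b (l 16791920) (l 16789096)) (a (b (b (l 16794880) (l 16793400)) (l 16791288)) (a (b (l 16793488) (l 16791672)) (l 16790328)))) (a (b (c (l 16788448) (b (l 16786784) (l 16785400))) (c (l 16785704) (l 16783400))) (a (b (b (a (l 16789488) (c (l 16780912) (b (a (l 16789016) (a (l 16789240) (l 16778712))) (l 16777992)))) (l 16788408)) (l 16786376)) (b (b (c (l 16788912) (l 16786336)) (c (l 16788096) (l 16785528))) (a (a (b (l 16787656) (l 16786544)) (l 16786408)) (l 16784696)))))) (a (c (l 16785144) (b (l 16781992) (l 16779624))) (a (c (l 16787352) (l 16782632)) (a (b (c (l 16789656) (l 16784712)) (l 16784912)) (b (l 16775472) (c (l 16787024) (l 16782136)))))))) (c (b (c (a (l 16793176) (l 16782848)) (a (l 16788752) (l 16778776))) (a (l 16788824)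 (l 16779376))) (b (c (a (b (l 16784768) (l 16783616)) (b (l 16775000) (l 16774192))) (a (b (a (c (l 16783640) (l 16781176)) (l 16777648)) (a (l 16781200) (l 16776608))) (b (c (l 16771760) (l 16769552)) (l 16769872)))) (a (c (l 16782104) (b (l 16777888) (l 16777008))) (c (l 16773192) (l 16768904)))))), by decide +kernel⟩

def k260_A00pm_213_s3 : ∃ t, chk3 f_A00pm_213_s3 t 62 121 1 = true :=
  ⟨(a (b (c (a (l 16786464) (b (l 16780784) (l 16788968))) (a (c (l 16780528) (l 16776400)) (b (c (l 16784632) (a (l 16779304) (l 16780536))) (l 16769784)))) (c (a (l 16782160) (l 16785696)) (a (l 16774656) (l 16766896)))) (c (a (a (b (l 16789168) (l 16776448)) (l 16784168)) (b (l 16778320) (l 16777600))) (b (a (c (l 16780336) (b (l 16776240) (l 16775448))) (c (l 16772240) (l 16768016))) (a (a (c (l 16780448) (l 16770680)) (l 16775144)) (l 16769616))))), by decide +kernel⟩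

def k261_A00pm_213_s3 : ∃ t, chk3 f_A00pm_213_s3 t 63 60 1 = true :=
  ⟨(a (b (c (b (c (b (l 16768072) (l 16767760)) (a (l 16748136) (l 16738776))) (a (l 16749240) (l 16740352))) (b (c (a (l 16765304) (l 16745880)) (a (b (l 16761648) (l 16761192)) (c (l 16743296) (l 16741552)))) (a (c (l 16764592) (l 16760720)) (c (l 16756304) (l 16731896))))) (c (b (a (l 16748856) (l 16740624)) (a (l 16769768) (l 16741200))) (a (b (a (l 16743328) (l 16739520)) (l 16762480)) (b (c (l 16756632) (l 16732256)) (c (l 16757304) (l 16732984)))))) (b (c (b (a (c (l 16732624) (l 16729728)) (c (l 16723448) (l 16731488))) (a (l 16742232) (c (l 16735136) (c (l 16722816) (l 16732072))))) (b (a (c (c (l 16727536) (l 16726064)) (b (l 16734248) (l 16723944))) (c (b (l 16728808) (l 16718824)) (b (b (l 16726272) (l 16716000)) (l 16726856)))) (a (c (l 16727368) (l 16734888)) (c (b (l 16729904) (l 16730584)) (a (l 16729504) (b (l 16736168) (l 16726432))))))) (c (a (b (b (l 16732400) (l 16732928)) (c (l 16756216) (l 16732432))) (b (c (l 16736640)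 (b (l 16723320) (l 16734640))) (c (c (l 16733768) (l 16737816)) (b (l 16735544) (l 16736512))))) (a (b (c (l 16728312) (l 16735848)) (c (l 16740064) (b (l 16726312) (l 16737536)))) (b (c (b (l 16731352) (l 16732200)) (a (l 16730904) (b (l 16727272) (l 16728192)))) (c (a (l 16735184) (b (l 16742000) (l 16743056))) (c (b (l 16731288) (l 16732296)) (a (l 16731984) (b (l 16739104) (l 16740184)))))))))), by decide +kernel⟩

def k262_A00pm_213_s3 : ∃ t, chk3 f_A00pm_213_s3 t 62 61 1 = true :=
  ⟨(a (b (c (b (l 16780200) (l 16777056)) (b (a (l 16771488) (l 16774152)) (a (l 16768944) (l 16771520)))) (b (c (a (l 16751920) (l 16776024)) (b (l 16768688) (l 16762584))) (c (a (l 16760440) (l 16763376)) (a (b (l 16765928) (l 16744416)) (b (l 16768280) (l 16746688)))))) (b (c (a (b (a (l 16784360) (l 16782664)) (a (l 16781264) (l 16781472))) (b (l 16777184) (l 16777024))) (a (b (a (b (l 16776808) (l 16775584)) (l 16774432)) (a (l 16773576) (c (l 16754664) (l 16750592)))) (b (l 16769432) (l 16769568)))) (c (a (b (b (l 16779888)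 (l 16757752)) (l 16776928)) (b (l 16777000) (a (c (l 16758704) (l 16765920)) (l 16775928)))) (a (b (a (l 16771408) (b (l 16752056) (l 16751360))) (b (l 16770800) (l 16749120))) (b (c (l 16750736) (l 16768024)) (a (b (l 16760928) (l 16760896)) (l 16748376))))))), by decide +kernel⟩

def k263_A00pm_213_s3 : ∃ t, chk3 f_A00pm_213_s3 t 63 61 1 = true :=
  ⟨(a (b (c (b (a (l 16749016) (l 16752528)) (a (l 16749488) (l 16753600))) (b (a (l 16752424) (b (l 16745896) (l 16746480))) (a (b (l 16742464) (l 16742888)) (c (l 16738544) (l 16745880))))) (c (b (a (l 16750152) (c (l 16766760) (l 16763912))) (a (l 16761448) (a (l 16757544) (l 16754984)))) (b (a (b (l 16743376) (l 16754400)) (c (l 16750488) (l 16747480))) (a (b (l 16754992) (l 16755624)) (c (l 16752128) (a (l 16750344) (l 16748200))))))) (b (c (b (a (a (l 16736952) (l 16744120)) (c (c (l 16740992) (l 16739824)) (b (l 16737536) (l 16738624)))) (a (c (l 16738256) (l 16746104)) (c (c (l 16743152) (l 16742024)) (b (l 16739752) (l 16740928))))) (b (a (c (l 16741616)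 (b (l 16738344) (l 16739232))) (c (a (l 16737160) (b (l 16744184) (l 16745360))) (c (b (l 16733368) (l 16734504)) (a (l 16734024) (b (l 16741336) (l 16742552)))))) (a (c (c (l 16754576) (l 16742728)) (b (l 16740176) (l 16741176))) (c (a (l 16739360) (a (l 16737392) (l 16736104))) (a (a (l 16737544) (l 16736336)) (b (l 16733896) (l 16735224))))))) (c (b (a (c (l 16750528) (l 16748000)) (c (b (l 16744328) (l 16756008)) (b (l 16742144) (l 16743392)))) (a (c (l 16752400) (b (l 16760000) (l 16761040))) (c (c (l 16747840) (l 16746832)) (b (l 16744672) (l 16745968))))) (b (a (c (b (l 16755392) (l 16745952)) (b (l 16742240) (l 16743344))) (c (b (a (l 16751632) (l 16749208)) (b (l 16740904) (l 16741568))) (b (a (l 16749288) (l 16736592)) (c (l 16739600) (l 16738496))))) (a (c (c (l 16748200) (l 16746968)) (b (l 16744504) (l 16745712))) (c (b (b (l 16742240) (l 16742920)) (a (l 16755472) (l 16753424))) (b (c (l 16740992) (l 16739920)) (c (l 16742432) (l 16741400))))))))), by decide +kernel⟩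

def k264_A00pm_213_s3 : ∃ t, chk3 f_A00pm_213_s3 t 30 124 1 = true :=
  ⟨(a (a (b (c (a (l 16741304) (l 16743168)) (a (l 16730736) (l 16732080))) (c (a (c (l 16741856) (l 16741872)) (a (l 16743144) (l 16744024))) (a (l 16742000) (c (l 16732848) (l 16732728))))) (b (c (a (l 16745112) (l 16747160)) (a (l 16743984) (a (l 16734592) (l 16735352)))) (c (a (a (l 16744928) (l 16745848)) (c (l 16747616) (l 16746944))) (a (c (l 16744776) (l 16744400)) (b (l 16756288) (l 16746216)))))) (b (a (c (a (l 16749312) (a (l 16750984) (l 16752144))) (a (c (l 16737112) (l 16746456)) (c (l 16749416) (l 16747952)))) (a (c (a (l 16753328) (l 16754536)) (b (l 16750536) (l 16750432))) (c (a (l 16755776) (l 16757048)) (b (l 16752448) (l 16752264))))) (a (c (a (c (l 16749712) (l 16754032)) (b (l 16761832) (l 16751376))) (a (b (l 16747272) (l 16752864)) (b (l 16754072) (b (l 16759512) (l 16749200))))) (c (b (a (l 16764056) (l 16755888)) (a (l 16753488) (l 16755688))) (b (a (l 16755720) (l 16757472)) (a (b (l 16750608) (l 16750744))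 (b (l 16752296) (l 16752376)))))))), by decide +kernel⟩

def k265_A00pm_213_s3 : ∃ t, chk3 f_A00pm_213_s3 t 120 125 1 = true :=
  ⟨(b (a (b (c (b (l 16753096) (a (a (l 16747600) (l 16753264)) (l 16753856))) (b (l 16753384) (a (l 16742936) (l 16754096)))) (a (b (c (a (l 16754064) (a (l 16748576) (l 16743288))) (b (l 16748848) (l 16744272))) (l 16750240)) (b (c (l 16754232) (l 16754536)) (c (a (b (l 16744032) (l 16755200)) (l 16749600)) (a (l 16750064) (l 16744672)))))) (c (b (l 16754880) (l 16750384)) (b (l 16754776) (l 16745176)))) (b (a (c (b (a (l 16756872) (l 16751040)) (l 16758096)) (b (a (l 16757208) (l 16751360)) (l 16758360))) (a (a (b (c (b (l 16755584) (l 16750888)) (b (l 16755848) (l 16756408))) (l 16752064)) (b (c (l 16756104) (l 16756288)) (c (b (l 16751376) (l 16757320)) (b (l 16746360) (l 16757544))))) (c (b (l 16756672) (a (b (l 16756856) (l 16751896)) (l 16757344))) (b (l 16756720) (b (l 16757144) (a (l 16746832) (l 16757576))))))) (b (c (a (l 16759680) (a (l 16758648) (a (l 16753016) (b (l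 16752464) (l 16753096))))) (a (l 16754648) (a (l 16758832) (a (b (l 16758016) (l 16758712)) (b (l 16757832) (l 16753240)))))) (a (a (c (l 16761592) (l 16761760)) (c (l 16760928) (l 16761080))) (c (l 16754704) (c (l 16760032) (l 16760128))))))), by decide +kernel⟩

def k266_A00pm_213_s3 : ∃ t, chk3 f_A00pm_213_s3 t 121 125 1 = true :=
  ⟨(b (c (a (b (l 16756560) (l 16746720)) (b (l 16747816) (l 16753608))) (a (b (l 16745520) (l 16751592)) (b (l 16752048) (b (l 16757840) (l 16747776))))) (b (c (a (l 16752784) (a (l 16759168) (l 16759960))) (a (b (l 16757568) (l 16747624)) (c (l 16748616) (l 16753568)))) (a (a (b (c (l 16753088) (l 16753112)) (b (a (c (a (l 16758872) (l 16753528)) (a (l 16758992) (l 16753624))) (l 16753736)) (a (l 16759576) (c (b (l 16753960) (l 16754296)) (b (l 16754024) (l 16754368)))))) (c (l 16754120) (l 16754000))) (c (a (l 16754840) (l 16755568)) (c (l 16754888) (l 16754704)))))), by decide +kernel⟩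

def k267_A00pm_213_s3 : ∃ t, chk3 f_A00pm_213_s3 t 61 125 1 = true :=
  ⟨(b (a (c (b (a (l 16754888) (l 16756800)) (a (a (l 16760128) (l 16761008)) (c (l 16762808) (l 16761928)))) (b (a (b (l 16758488) (l 16748296)) (a (l 16749168) (l 16755128))) (a (a (l 16748480) (l 16754360)) (c (l 16755800) (l 16754912))))) (c (b (a (l 16758792) (l 16760864)) (a (c (l 16764792) (l 16763680)) (b (l 16766152) (l 16755744)))) (b (a (a (l 16755864) (l 16756624)) (b (l 16757744) (l 16757896))) (a (c (l 16757304) (l 16756160)) (c (l 16758888) (l 16757480)))))) (a (c (b (a (a (l 16760760) (l 16756336)) (b (l 16757480) (l 16757752))) (a (a (l 16756312) (l 16757064)) (c (l 16758552) (l 16757920)))) (b (a (c (l 16755136) (l 16754624)) (c (l 16756472) (b (l 16760752) (l 16761192)))) (a (c (b (l 16761072) (l 16761576)) (c (l 16755768) (l 16755576))) (c (c (l 16757448) (l 16757136)) (c (l 16756824) (l 16756512)))))) (c (b (a (b (l 16759248) (l 16759456)) (c (l 16761744) (l 16760552))) (a (b (l 16759712) (l 16759992)) (c (l 16762024)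 (c (l 16761240) (l 16760712))))) (a (b (c (l 16757864) (b (l 16761928) (l 16762312))) (c (c (l 16758784) (l 16758360)) (c (l 16757936) (l 16757504)))) (b (c (c (l 16759632) (l 16759016)) (b (l 16763168) (l 16758264))) (c (a (l 16759568) (l 16760248)) (b (l 16758632) (l 16759040)))))))), by decide +kernel⟩

def k268_A00pm_213_s3 : ∃ t, chk3 f_A00pm_213_s3 t 62 124 1 = true :=
  ⟨(a (b (c (b (b (l 16760912) (l 16760560)) (c (l 16761248) (l 16758912))) (b (c (l 16756904) (l 16754256)) (a (l 16754224) (l 16756312)))) (c (b (a (l 16758304) (l 16760824)) (a (l 16757976) (l 16760368))) (b (a (b (l 16764600) (l 16754080)) (b (l 16766616) (l 16756040))) (a (b (l 16754080) (l 16754112)) (b (l 16755984) (l 16755960)))))) (c (b (a (l 16764544) (a (b (l 16756576) (l 16776816)) (b (l 16776296) (l 16755464)))) (a (b (l 16773936) (l 16762848)) (a (l 16765080) (b (l 16765952) (l 16765792))))) (b (a (b (l 16759016) (l 16758544)) (a (b (l 16760728) (l 16760344)) (b (l 16770040) (l 16759928)))) (a (b (l 16758192) (b (l 16758016)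 (l 16757928))) (a (c (l 16761056) (l 16758248)) (b (c (l 16761704) (l 16758736)) (a (l 16770856) (l 16760472)))))))), by decide +kernel⟩

def k269_A00pm_213_s3 : ∃ t, chk3 f_A00pm_213_s3 t 62 125 1 = true :=
  ⟨(b (a (c (b (a (l 16763024) (l 16765272)) (a (c (l 16768984) (l 16756928)) (b (l 16759864) (l 16759776)))) (b (a (b (l 16754184) (l 16759520)) (c (l 16757016) (l 16754928))) (a (c (l 16760552) (l 16758888)) (c (l 16757064) (l 16760408))))) (c (b (a (l 16762352) (b (l 16764960) (l 16764624))) (a (l 16767216) (l 16764192))) (b (a (b (l 16757880) (l 16757856)) (a (l 16759344) (c (l 16761688) (l 16759120)))) (a (c (l 16758928) (l 16762048)) (c (l 16760888) (l 16758592)))))) (a (c (b (a (c (l 16758480) (l 16762312)) (b (l 16759728) (l 16764952))) (a (c (l 16763832) (b (l 16767760) (l 16767928))) (c (l 16765672) (l 16764256)))) (b (a (c (l 16760864) (a (l 16759040) (l 16759720))) (c (l 16762488) (c (l 16761216) (l 16760352)))) (a (c (c (l 16761640) (l 16760992)) (b (l 16759848) (l 16760208))) (c (c (l 16763168)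 (l 16762432)) (b (l 16761168) (l 16761464)))))) (c (b (a (b (l 16761760) (l 16761648)) (l 16768976)) (a (c (l 16767552) (l 16765984)) (c (l 16764224) (l 16767776)))) (b (a (c (l 16764208) (l 16762312)) (c (l 16760776) (l 16763960))) (a (c (l 16764368) (a (l 16762336) (l 16763056))) (c (l 16766016) (c (l 16764664) (l 16763744)))))))), by decide +kernel⟩

def k270_A00pm_213_s3 : ∃ t, chk3 f_A00pm_213_s3 t 126 62 1 = true :=
  ⟨(b (c (b (a (b (l 16751664) (l 16752144)) (c (l 16758992) (l 16756488))) (a (b (l 16763120) (l 16763608)) (b (l 16758904) (l 16759664)))) (c (b (a (l 16758104) (c (l 16754560) (l 16753248))) (a (l 16759448) (c (l 16756384) (l 16755200)))) (b (a (l 16755128) (b (l 16750744) (l 16751776))) (a (a (l 16757592) (l 16755872)) (b (l 16752848) (l 16753944)))))) (b (c (a (a (b (l 16764928) (b (l 16765128) (l 16765184))) (l 16768656)) (b (l 16760424) (l 16766416))) (a (b (a (b (l 16770392) (l 16760184)) (l 16758488)) (a (b (l 16765704) (c (l 16761864) (l 16759544))) (l 16759360))) (b (a (l 16756936)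 (l 16755424)) (c (l 16758248) (l 16761456))))) (a (c (a (b (a (l 16775512) (l 16765168)) (b (l 16775432) (l 16775184))) (b (l 16774712) (c (l 16765472) (l 16768968)))) (b (a (a (l 16760888) (c (l 16762088) (l 16765176))) (l 16765472)) (a (b (l 16766392) (l 16771632)) (b (l 16760848) (a (l 16766728) (l 16771520)))))) (c (b (b (l 16761728) (l 16762096)) (b (l 16762456) (l 16768056))) (b (c (l 16759224) (l 16762608)) (c (l 16765440) (c (l 16764184) (l 16763320)))))))), by decide +kernel⟩

def k271_A00pm_213_s3 : ∃ t, chk3 f_A00pm_213_s3 t 127 62 1 = true :=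
  ⟨(b (c (c (b (a (l 16754344) (a (l 16761400) (l 16748664))) (a (l 16761520) (b (l 16762120) (l 16763344)))) (b (a (c (l 16752704) (l 16751592)) (b (l 16747288) (l 16748616))) (a (c (l 16754816) (l 16759064)) (b (l 16749952) (l 16751296))))) (b (a (c (b (l 16749312) (l 16750496)) (b (l 16746960) (l 16748248))) (c (b (a (l 16756816) (l 16754896)) (a (l 16758184) (l 16756384))) (b (c (l 16743904) (l 16742920)) (c (l 16745416) (l 16744480))))) (a (b (c (l 16751704) (l 16749568)) (c (l 16752920) (l 16756168))) (b (c (a (l 16759576) (l 16757896)) (c (l 16746944) (l 16751312))) (a (b (l 16749272) (l 16750008)) (c (l 16759416) (l 16757896))))))) (b (c (c (b (a (l 16768216) (l 16754088)) (a (l 16769168) (l 16755304))) (a (b (l 16766448) (l 16757056)) (b (a (l 16763952) (l 16762312)) (l 16759232)))) (a (b (c (l 16754152) (l 16757536)) (c (l 16760624) (l 16758912))) (b (c (a (l 16762392) (l 16760944)) (b (l 16754536) (l 16755336))) (c (b (l 16752288) (l 16758264)) (a (l 16762352) (l 16755960)))))) (a (c (b (b (l 16758632)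 (l 16764376)) (c (l 16765784) (l 16764456))) (b (c (l 16761856) (c (l 16760696) (l 16759904))) (c (c (l 16763432) (l 16762736)) (b (l 16761336) (l 16762024))))) (c (b (c (l 16761760) (a (l 16766504) (l 16765120))) (a (l 16763096) (c (l 16767496) (l 16766512)))) (b (a (b (l 16758952) (l 16759688)) (c (l 16764000) (b (l 16762448) (l 16763272)))) (a (b (l 16760424) (l 16761160)) (c (l 16760272) (b (l 16764096) (l 16764912))))))))), by decide +kernel⟩

def k272_A00pm_213_s3 : ∃ t, chk3 f_A00pm_213_s3 t 15 63 1 = true :=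
  ⟨(b (a (a (b (a (b (b (c (a (c (l 16762840) (l 16762864)) (c (l 16761576) (l 16761584))) (a (c (l 16762920) (l 16757768)) (b (l 16756024) (l 16756816)))) (l 14)) (l 14)) (b (b (a (a (c (b (l 16760280) (l 16761048)) (a (l 16760856) (l 16755360))) (a (b (c (a (l 16754696) (l 16759952)) (a (l 16754736) (l 16759960))) (c (l 16760672) (l 16755464))) (a (b (l 16760120) (b (a (l 16760304) (l 16760392)) (l 14))) (c (l 16760440) (l 16760384))))) (c (l 16755984) (b (l 16755568) (l 16755888)))) (l 14)) (l 14))) (l 14)) (b (b (b (a (c (a (a (l 16762264) (l 16762976)) (b (l 16758720) (l 16758928))) (c (a (l 16762128) (l 16763264)) (a (l 16761816) (l 16762744)))) (c (a (a (l 16765176) (l 16765936)) (b (l 16761800) (l 16761936))) (a (c (l 16759208) (l 16758464)) (c (l 16760456) (l 16759496))))) (l 14)) (l 14)) (l 14))) (a (b (b (b (c (a (a (b (l 16763408) (l 16763496)) (b (l 16765056) (l 16765096))) (a (l 16766736) (l 16768448))) (a (a (c (l 16761760) (l 16760600)) (c (l 16763136) (l 16761792))) (a (a (l 16763480) (l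 16764192)) (a (l 16764920) (l 16765672))))) (l 14)) (l 14)) (l 14)) (a (b (b (b (a (a (c (l 16774992) (l 16771688)) (c (l 16770112) (a (l 16766992) (l 16771960)))) (c (l 16768400) (c (l 16771408) (l 16764616)))) (l 14)) (l 14)) (l 14)) (b (b (b (c (a (l 16765856) (a (l 16769224) (l 16767992))) (a (c (l 16769240) (l 16762712)) (a (l 16761888) (c (l 16766648) (l 16765728))))) (l 14)) (l 14)) (l 14))))) (l 14)), by decide +kernel⟩

theorem t273_A00pm_213_s3 : ∃ t, chk3 f_A00pm_213_s3 t 63 62 1 = true := ex3_a k270_A00pm_213_s3 k271_A00pm_213_s3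

theorem t274_A00pm_213_s3 : ∃ t, chk3 f_A00pm_213_s3 t 62 62 1 = true := ex3_b k268_A00pm_213_s3 k269_A00pm_213_s3

theorem t275_A00pm_213_s3 : ∃ t, chk3 f_A00pm_213_s3 t 31 62 1 = true := ex3_a t274_A00pm_213_s3 t273_A00pm_213_s3

theorem t276_A00pm_213_s3 : ∃ t, chk3 f_A00pm_213_s3 t 60 125 1 = true := ex3_a k265_A00pm_213_s3 k266_A00pm_213_s3

theorem t277_A00pm_213_s3 : ∃ t, chk3 f_A00pm_213_s3 t 30 125 1 = true := ex3_a t276_A00pm_213_s3 k267_A00pm_213_s3

theorem t278_A00pm_213_s3 : ∃ t, chk3 f_A00pm_213_s3 t 30 62 1 = true := ex3_b k264_A00pm_213_s3 t277_A00pm_213_s3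

theorem t279_A00pm_213_s3 : ∃ t, chk3 f_A00pm_213_s3 t 15 62 1 = true := ex3_a t278_A00pm_213_s3 t275_A00pm_213_s3

theorem t280_A00pm_213_s3 : ∃ t, chk3 f_A00pm_213_s3 t 15 31 1 = true := ex3_b t279_A00pm_213_s3 k272_A00pm_213_s3

theorem t281_A00pm_213_s3 : ∃ t, chk3 f_A00pm_213_s3 t 31 61 1 = true := ex3_a k262_A00pm_213_s3 k263_A00pm_213_s3

theorem t282_A00pm_213_s3 : ∃ t, chk3 f_A00pm_213_s3 t 62 60 1 = true := ex3_b k259_A00pm_213_s3 k260_A00pm_213_s3

theorem t283_A00pm_213_s3 : ∃ t, chk3 f_A00pm_213_s3 t 31 60 1 = true := ex3_a t282_A00pm_213_s3 k261_A00pm_213_s3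

theorem t284_A00pm_213_s3 : ∃ t, chk3 f_A00pm_213_s3 t 31 30 1 = true := ex3_b t283_A00pm_213_s3 t281_A00pm_213_s3

theorem t285_A00pm_213_s3 : ∃ t, chk3 f_A00pm_213_s3 t 30 30 1 = true := ex3_b k257_A00pm_213_s3 k258_A00pm_213_s3

theorem t286_A00pm_213_s3 : ∃ t, chk3 f_A00pm_213_s3 t 15 30 1 = true := ex3_a t285_A00pm_213_s3 t284_A00pm_213_s3

theorem t287_A00pm_213_s3 : ∃ t, chk3 f_A00pm_213_s3 t 15 15 1 = true := ex3_b t286_A00pm_213_s3 t280_A00pm_213_s3

theorem t288_A00pm_213_s3 : ∃ t, chk3 f_A00pm_213_s3 t 255 118 1 = true := ex3_c k254_A00pm_213_s3 k255_A00pm_213_s3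

theorem t289_A00pm_213_s3 : ∃ t, chk3 f_A00pm_213_s3 t 127 118 1 = true := ex3_a k253_A00pm_213_s3 t288_A00pm_213_s3

theorem t290_A00pm_213_s3 : ∃ t, chk3 f_A00pm_213_s3 t 127 59 1 = true := ex3_b t289_A00pm_213_s3 k256_A00pm_213_s3

theorem t291_A00pm_213_s3 : ∃ t, chk3 f_A00pm_213_s3 t 63 59 1 = true := ex3_a k252_A00pm_213_s3 t290_A00pm_213_s3

theorem t292_A00pm_213_s3 : ∃ t, chk3 f_A00pm_213_s3 t 124 119 3 = true := ex3_a k249_A00pm_213_s3 k250_A00pm_213_s3

theorem t293_A00pm_213_s3 : ∃ t, chk3 f_A00pm_213_s3 t 124 119 1 = true := ex3_c k248_A00pm_213_s3 t292_A00pm_213_s3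

theorem t294_A00pm_213_s3 : ∃ t, chk3 f_A00pm_213_s3 t 62 119 1 = true := ex3_a t293_A00pm_213_s3 k251_A00pm_213_s3

theorem t295_A00pm_213_s3 : ∃ t, chk3 f_A00pm_213_s3 t 124 118 3 = true := ex3_a k245_A00pm_213_s3 k246_A00pm_213_s3

theorem t296_A00pm_213_s3 : ∃ t, chk3 f_A00pm_213_s3 t 62 118 3 = true := ex3_a t295_A00pm_213_s3 k247_A00pm_213_s3

theorem t297_A00pm_213_s3 : ∃ t, chk3 f_A00pm_213_s3 t 62 118 1 = true := ex3_c k244_A00pm_213_s3 t296_A00pm_213_s3

theorem t298_A00pm_213_s3 : ∃ t, chk3 f_A00pm_213_s3 t 62 59 1 = true := ex3_b t297_A00pm_213_s3 t294_A00pm_213_s3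

theorem t299_A00pm_213_s3 : ∃ t, chk3 f_A00pm_213_s3 t 31 59 1 = true := ex3_a t298_A00pm_213_s3 t291_A00pm_213_s3

theorem t300_A00pm_213_s3 : ∃ t, chk3 f_A00pm_213_s3 t 30 59 1 = true := ex3_b k242_A00pm_213_s3 k243_A00pm_213_s3

theorem t301_A00pm_213_s3 : ∃ t, chk3 f_A00pm_213_s3 t 15 59 1 = true := ex3_a t300_A00pm_213_s3 t299_A00pm_213_s3

theorem t302_A00pm_213_s3 : ∃ t, chk3 f_A00pm_213_s3 t 1023 471 3 = true := ex3_c k240_A00pm_213_s3 k241_A00pm_213_s3

theorem t303_A00pm_213_s3 : ∃ t, chk3 f_A00pm_213_s3 t 511 471 3 = true := ex3_a k239_A00pm_213_s3 t302_A00pm_213_s3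

theorem t304_A00pm_213_s3 : ∃ t, chk3 f_A00pm_213_s3 t 1023 470 3 = true := ex3_c k237_A00pm_213_s3 k238_A00pm_213_s3

theorem t305_A00pm_213_s3 : ∃ t, chk3 f_A00pm_213_s3 t 511 470 3 = true := ex3_a k236_A00pm_213_s3 t304_A00pm_213_s3

theorem t306_A00pm_213_s3 : ∃ t, chk3 f_A00pm_213_s3 t 511 235 3 = true := ex3_b t305_A00pm_213_s3 t303_A00pm_213_s3

theorem t307_A00pm_213_s3 : ∃ t, chk3 f_A00pm_213_s3 t 255 235 3 = true := ex3_a k235_A00pm_213_s3 t306_A00pm_213_s3

theorem t308_A00pm_213_s3 : ∃ t, chk3 f_A00pm_213_s3 t 511 234 7 = true := ex3_b k233_A00pm_213_s3 k234_A00pm_213_s3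

theorem t309_A00pm_213_s3 : ∃ t, chk3 f_A00pm_213_s3 t 255 234 7 = true := ex3_a k232_A00pm_213_s3 t308_A00pm_213_s3

theorem t310_A00pm_213_s3 : ∃ t, chk3 f_A00pm_213_s3 t 255 234 6 = true := ex3_a k230_A00pm_213_s3 k231_A00pm_213_s3

theorem t311_A00pm_213_s3 : ∃ t, chk3 f_A00pm_213_s3 t 255 234 3 = true := ex3_c t310_A00pm_213_s3 t309_A00pm_213_s3

theorem t312_A00pm_213_s3 : ∃ t, chk3 f_A00pm_213_s3 t 255 117 3 = true := ex3_b t311_A00pm_213_s3 t307_A00pm_213_s3

theorem t313_A00pm_213_s3 : ∃ t, chk3 f_A00pm_213_s3 t 255 235 2 = true := ex3_a k228_A00pm_213_s3 k229_A00pm_213_s3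

theorem t314_A00pm_213_s3 : ∃ t, chk3 f_A00pm_213_s3 t 255 117 2 = true := ex3_b k227_A00pm_213_s3 t313_A00pm_213_s3

theorem t315_A00pm_213_s3 : ∃ t, chk3 f_A00pm_213_s3 t 255 117 1 = true := ex3_c t314_A00pm_213_s3 t312_A00pm_213_s3

theorem t316_A00pm_213_s3 : ∃ t, chk3 f_A00pm_213_s3 t 127 117 1 = true := ex3_a k226_A00pm_213_s3 t315_A00pm_213_s3

theorem t317_A00pm_213_s3 : ∃ t, chk3 f_A00pm_213_s3 t 255 233 7 = true := ex3_a k224_A00pm_213_s3 k225_A00pm_213_s3

theorem t318_A00pm_213_s3 : ∃ t, chk3 f_A00pm_213_s3 t 255 116 7 = true := ex3_b k223_A00pm_213_s3 t317_A00pm_213_s3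

theorem t319_A00pm_213_s3 : ∃ t, chk3 f_A00pm_213_s3 t 511 233 6 = true := ex3_b k221_A00pm_213_s3 k222_A00pm_213_s3

theorem t320_A00pm_213_s3 : ∃ t, chk3 f_A00pm_213_s3 t 255 233 6 = true := ex3_a k220_A00pm_213_s3 t319_A00pm_213_s3

theorem t321_A00pm_213_s3 : ∃ t, chk3 f_A00pm_213_s3 t 1023 232 6 = true := ex3_b k218_A00pm_213_s3 k219_A00pm_213_s3

theorem t322_A00pm_213_s3 : ∃ t, chk3 f_A00pm_213_s3 t 511 232 6 = true := ex3_a k217_A00pm_213_s3 t321_A00pm_213_s3

theorem t323_A00pm_213_s3 : ∃ t, chk3 f_A00pm_213_s3 t 255 232 6 = true := ex3_a k216_A00pm_213_s3 t322_A00pm_213_s3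

theorem t324_A00pm_213_s3 : ∃ t, chk3 f_A00pm_213_s3 t 255 116 6 = true := ex3_b t323_A00pm_213_s3 t320_A00pm_213_s3

theorem t325_A00pm_213_s3 : ∃ t, chk3 f_A00pm_213_s3 t 255 116 3 = true := ex3_c t324_A00pm_213_s3 t318_A00pm_213_s3

theorem t326_A00pm_213_s3 : ∃ t, chk3 f_A00pm_213_s3 t 127 116 3 = true := ex3_a k215_A00pm_213_s3 t325_A00pm_213_s3

theorem t327_A00pm_213_s3 : ∃ t, chk3 f_A00pm_213_s3 t 255 116 5 = true := ex3_b k213_A00pm_213_s3 k214_A00pm_213_s3

theorem t328_A00pm_213_s3 : ∃ t, chk3 f_A00pm_213_s3 t 255 116 2 = true := ex3_c k212_A00pm_213_s3 t327_A00pm_213_s3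

theorem t329_A00pm_213_s3 : ∃ t, chk3 f_A00pm_213_s3 t 127 116 2 = true := ex3_a k211_A00pm_213_s3 t328_A00pm_213_s3

theorem t330_A00pm_213_s3 : ∃ t, chk3 f_A00pm_213_s3 t 127 116 1 = true := ex3_c t329_A00pm_213_s3 t326_A00pm_213_s3

theorem t331_A00pm_213_s3 : ∃ t, chk3 f_A00pm_213_s3 t 127 58 1 = true := ex3_b t330_A00pm_213_s3 t316_A00pm_213_s3

theorem t332_A00pm_213_s3 : ∃ t, chk3 f_A00pm_213_s3 t 126 58 1 = true := ex3_b k209_A00pm_213_s3 k210_A00pm_213_s3

theorem t333_A00pm_213_s3 : ∃ t, chk3 f_A00pm_213_s3 t 63 58 1 = true := ex3_a t332_A00pm_213_s3 t331_A00pm_213_s3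

theorem t334_A00pm_213_s3 : ∃ t, chk3 f_A00pm_213_s3 t 62 117 3 = true := ex3_b k207_A00pm_213_s3 k208_A00pm_213_s3

theorem t335_A00pm_213_s3 : ∃ t, chk3 f_A00pm_213_s3 t 62 117 1 = true := ex3_c k206_A00pm_213_s3 t334_A00pm_213_s3

theorem t336_A00pm_213_s3 : ∃ t, chk3 f_A00pm_213_s3 t 62 116 3 = true := ex3_c k204_A00pm_213_s3 k205_A00pm_213_s3

theorem t337_A00pm_213_s3 : ∃ t, chk3 f_A00pm_213_s3 t 62 116 1 = true := ex3_c k203_A00pm_213_s3 t336_A00pm_213_s3

theorem t338_A00pm_213_s3 : ∃ t, chk3 f_A00pm_213_s3 t 62 58 1 = true := ex3_b t337_A00pm_213_s3 t335_A00pm_213_s3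

theorem t339_A00pm_213_s3 : ∃ t, chk3 f_A00pm_213_s3 t 31 58 1 = true := ex3_a t338_A00pm_213_s3 t333_A00pm_213_s3

theorem t340_A00pm_213_s3 : ∃ t, chk3 f_A00pm_213_s3 t 30 117 1 = true := ex3_c k201_A00pm_213_s3 k202_A00pm_213_s3

theorem t341_A00pm_213_s3 : ∃ t, chk3 f_A00pm_213_s3 t 30 116 1 = true := ex3_a k199_A00pm_213_s3 k200_A00pm_213_s3

theorem t342_A00pm_213_s3 : ∃ t, chk3 f_A00pm_213_s3 t 30 58 1 = true := ex3_b t341_A00pm_213_s3 t340_A00pm_213_s3

theorem t343_A00pm_213_s3 : ∃ t, chk3 f_A00pm_213_s3 t 15 58 1 = true := ex3_a t342_A00pm_213_s3 t339_A00pm_213_s3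

theorem t344_A00pm_213_s3 : ∃ t, chk3 f_A00pm_213_s3 t 15 29 1 = true := ex3_b t343_A00pm_213_s3 t301_A00pm_213_s3

theorem t345_A00pm_213_s3 : ∃ t, chk3 f_A00pm_213_s3 t 511 231 6 = true := ex3_a k196_A00pm_213_s3 k197_A00pm_213_s3

theorem t346_A00pm_213_s3 : ∃ t, chk3 f_A00pm_213_s3 t 511 115 6 = true := ex3_b k195_A00pm_213_s3 t345_A00pm_213_s3

theorem t347_A00pm_213_s3 : ∃ t, chk3 f_A00pm_213_s3 t 255 115 6 = true := ex3_a k194_A00pm_213_s3 t346_A00pm_213_s3

theorem t348_A00pm_213_s3 : ∃ t, chk3 f_A00pm_213_s3 t 255 115 3 = true := ex3_c t347_A00pm_213_s3 k198_A00pm_213_s3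

theorem t349_A00pm_213_s3 : ∃ t, chk3 f_A00pm_213_s3 t 127 115 3 = true := ex3_a k193_A00pm_213_s3 t348_A00pm_213_s3

theorem t350_A00pm_213_s3 : ∃ t, chk3 f_A00pm_213_s3 t 127 57 3 = true := ex3_b k192_A00pm_213_s3 t349_A00pm_213_s3

theorem t351_A00pm_213_s3 : ∃ t, chk3 f_A00pm_213_s3 t 63 57 3 = true := ex3_a k191_A00pm_213_s3 t350_A00pm_213_s3

theorem t352_A00pm_213_s3 : ∃ t, chk3 f_A00pm_213_s3 t 511 230 5 = true := ex3_a k188_A00pm_213_s3 k189_A00pm_213_s3

theorem t353_A00pm_213_s3 : ∃ t, chk3 f_A00pm_213_s3 t 255 230 5 = true := ex3_a k187_A00pm_213_s3 t352_A00pm_213_s3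

theorem t354_A00pm_213_s3 : ∃ t, chk3 f_A00pm_213_s3 t 255 115 5 = true := ex3_b t353_A00pm_213_s3 k190_A00pm_213_s3

theorem t355_A00pm_213_s3 : ∃ t, chk3 f_A00pm_213_s3 t 255 115 4 = true := ex3_b k185_A00pm_213_s3 k186_A00pm_213_s3

theorem t356_A00pm_213_s3 : ∃ t, chk3 f_A00pm_213_s3 t 255 115 2 = true := ex3_c t355_A00pm_213_s3 t354_A00pm_213_s3

theorem t357_A00pm_213_s3 : ∃ t, chk3 f_A00pm_213_s3 t 127 115 2 = true := ex3_a k184_A00pm_213_s3 t356_A00pm_213_s3

theorem t358_A00pm_213_s3 : ∃ t, chk3 f_A00pm_213_s3 t 511 229 5 = true := ex3_a k182_A00pm_213_s3 k183_A00pm_213_s3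

theorem t359_A00pm_213_s3 : ∃ t, chk3 f_A00pm_213_s3 t 255 229 5 = true := ex3_a k181_A00pm_213_s3 t358_A00pm_213_s3

theorem t360_A00pm_213_s3 : ∃ t, chk3 f_A00pm_213_s3 t 255 114 5 = true := ex3_b k180_A00pm_213_s3 t359_A00pm_213_s3

theorem t361_A00pm_213_s3 : ∃ t, chk3 f_A00pm_213_s3 t 511 114 4 = true := ex3_b k178_A00pm_213_s3 k179_A00pm_213_s3

theorem t362_A00pm_213_s3 : ∃ t, chk3 f_A00pm_213_s3 t 255 114 4 = true := ex3_a k177_A00pm_213_s3 t361_A00pm_213_s3

theorem t363_A00pm_213_s3 : ∃ t, chk3 f_A00pm_213_s3 t 255 114 2 = true := ex3_c t362_A00pm_213_s3 t360_A00pm_213_s3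

theorem t364_A00pm_213_s3 : ∃ t, chk3 f_A00pm_213_s3 t 127 114 2 = true := ex3_a k176_A00pm_213_s3 t363_A00pm_213_s3

theorem t365_A00pm_213_s3 : ∃ t, chk3 f_A00pm_213_s3 t 127 57 2 = true := ex3_b t364_A00pm_213_s3 t357_A00pm_213_s3

theorem t366_A00pm_213_s3 : ∃ t, chk3 f_A00pm_213_s3 t 63 57 2 = true := ex3_a k175_A00pm_213_s3 t365_A00pm_213_s3

theorem t367_A00pm_213_s3 : ∃ t, chk3 f_A00pm_213_s3 t 63 57 1 = true := ex3_c t366_A00pm_213_s3 t351_A00pm_213_s3

theorem t368_A00pm_213_s3 : ∃ t, chk3 f_A00pm_213_s3 t 511 113 4 = true := ex3_b k171_A00pm_213_s3 k172_A00pm_213_s3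

theorem t369_A00pm_213_s3 : ∃ t, chk3 f_A00pm_213_s3 t 255 113 4 = true := ex3_a k170_A00pm_213_s3 t368_A00pm_213_s3

theorem t370_A00pm_213_s3 : ∃ t, chk3 f_A00pm_213_s3 t 255 113 2 = true := ex3_c t369_A00pm_213_s3 k173_A00pm_213_s3

theorem t371_A00pm_213_s3 : ∃ t, chk3 f_A00pm_213_s3 t 127 113 2 = true := ex3_a k169_A00pm_213_s3 t370_A00pm_213_s3

theorem t372_A00pm_213_s3 : ∃ t, chk3 f_A00pm_213_s3 t 127 56 2 = true := ex3_b k168_A00pm_213_s3 t371_A00pm_213_s3

theorem t373_A00pm_213_s3 : ∃ t, chk3 f_A00pm_213_s3 t 127 56 1 = true := ex3_c t372_A00pm_213_s3 k174_A00pm_213_s3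

theorem t374_A00pm_213_s3 : ∃ t, chk3 f_A00pm_213_s3 t 63 56 1 = true := ex3_a k167_A00pm_213_s3 t373_A00pm_213_s3

theorem t375_A00pm_213_s3 : ∃ t, chk3 f_A00pm_213_s3 t 63 28 1 = true := ex3_b t374_A00pm_213_s3 t367_A00pm_213_s3

theorem t376_A00pm_213_s3 : ∃ t, chk3 f_A00pm_213_s3 t 62 115 1 = true := ex3_c k165_A00pm_213_s3 k166_A00pm_213_s3

theorem t377_A00pm_213_s3 : ∃ t, chk3 f_A00pm_213_s3 t 62 114 1 = true := ex3_c k163_A00pm_213_s3 k164_A00pm_213_s3

theorem t378_A00pm_213_s3 : ∃ t, chk3 f_A00pm_213_s3 t 62 57 1 = true := ex3_b t377_A00pm_213_s3 t376_A00pm_213_s3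

theorem t379_A00pm_213_s3 : ∃ t, chk3 f_A00pm_213_s3 t 62 56 1 = true := ex3_c k161_A00pm_213_s3 k162_A00pm_213_s3

theorem t380_A00pm_213_s3 : ∃ t, chk3 f_A00pm_213_s3 t 62 28 1 = true := ex3_b t379_A00pm_213_s3 t378_A00pm_213_s3

theorem t381_A00pm_213_s3 : ∃ t, chk3 f_A00pm_213_s3 t 31 28 1 = true := ex3_a t380_A00pm_213_s3 t375_A00pm_213_s3

theorem t382_A00pm_213_s3 : ∃ t, chk3 f_A00pm_213_s3 t 61 115 1 = true := ex3_c k159_A00pm_213_s3 k160_A00pm_213_s3

theorem t383_A00pm_213_s3 : ∃ t, chk3 f_A00pm_213_s3 t 61 114 1 = true := ex3_c k157_A00pm_213_s3 k158_A00pm_213_s3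

theorem t384_A00pm_213_s3 : ∃ t, chk3 f_A00pm_213_s3 t 61 57 1 = true := ex3_b t383_A00pm_213_s3 t382_A00pm_213_s3

theorem t385_A00pm_213_s3 : ∃ t, chk3 f_A00pm_213_s3 t 30 57 1 = true := ex3_a k156_A00pm_213_s3 t384_A00pm_213_s3

theorem t386_A00pm_213_s3 : ∃ t, chk3 f_A00pm_213_s3 t 61 56 2 = true := ex3_b k153_A00pm_213_s3 k154_A00pm_213_s3

theorem t387_A00pm_213_s3 : ∃ t, chk3 f_A00pm_213_s3 t 30 56 2 = true := ex3_a k152_A00pm_213_s3 t386_A00pm_213_s3

theorem t388_A00pm_213_s3 : ∃ t, chk3 f_A00pm_213_s3 t 30 56 1 = true := ex3_c t387_A00pm_213_s3 k155_A00pm_213_s3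

theorem t389_A00pm_213_s3 : ∃ t, chk3 f_A00pm_213_s3 t 30 28 1 = true := ex3_b t388_A00pm_213_s3 t385_A00pm_213_s3

theorem t390_A00pm_213_s3 : ∃ t, chk3 f_A00pm_213_s3 t 15 28 1 = true := ex3_a t389_A00pm_213_s3 t381_A00pm_213_s3

theorem t391_A00pm_213_s3 : ∃ t, chk3 f_A00pm_213_s3 t 15 14 1 = true := ex3_b t390_A00pm_213_s3 t344_A00pm_213_s3

theorem t392_A00pm_213_s3 : ∃ t, chk3 f_A00pm_213_s3 t 15 7 1 = true := ex3_b t391_A00pm_213_s3 t287_A00pm_213_s3

theorem t393_A00pm_213_s3 : ∃ t, chk3 f_A00pm_213_s3 t 233 1012 3 = true := ex3_a k145_A00pm_213_s3 k146_A00pm_213_s3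

theorem t394_A00pm_213_s3 : ∃ t, chk3 f_A00pm_213_s3 t 233 506 3 = true := ex3_b t393_A00pm_213_s3 k147_A00pm_213_s3

theorem t395_A00pm_213_s3 : ∃ t, chk3 f_A00pm_213_s3 t 233 506 2 = true := ex3_b k143_A00pm_213_s3 k144_A00pm_213_s3

theorem t396_A00pm_213_s3 : ∃ t, chk3 f_A00pm_213_s3 t 233 506 1 = true := ex3_c t395_A00pm_213_s3 t394_A00pm_213_s3

theorem t397_A00pm_213_s3 : ∃ t, chk3 f_A00pm_213_s3 t 232 1012 3 = true := ex3_a k140_A00pm_213_s3 k141_A00pm_213_s3

theorem t398_A00pm_213_s3 : ∃ t, chk3 f_A00pm_213_s3 t 232 506 3 = true := ex3_b t397_A00pm_213_s3 k142_A00pm_213_s3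

theorem t399_A00pm_213_s3 : ∃ t, chk3 f_A00pm_213_s3 t 232 506 1 = true := ex3_c k139_A00pm_213_s3 t398_A00pm_213_s3

theorem t400_A00pm_213_s3 : ∃ t, chk3 f_A00pm_213_s3 t 116 506 1 = true := ex3_a t399_A00pm_213_s3 t396_A00pm_213_s3

theorem t401_A00pm_213_s3 : ∃ t, chk3 f_A00pm_213_s3 t 116 253 1 = true := ex3_b t400_A00pm_213_s3 k148_A00pm_213_s3

theorem t402_A00pm_213_s3 : ∃ t, chk3 f_A00pm_213_s3 t 58 253 1 = true := ex3_a t401_A00pm_213_s3 k149_A00pm_213_s3

theorem t403_A00pm_213_s3 : ∃ t, chk3 f_A00pm_213_s3 t 234 505 1 = true := ex3_c k136_A00pm_213_s3 k137_A00pm_213_s3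

theorem t404_A00pm_213_s3 : ∃ t, chk3 f_A00pm_213_s3 t 117 505 1 = true := ex3_a t403_A00pm_213_s3 k138_A00pm_213_s3

theorem t405_A00pm_213_s3 : ∃ t, chk3 f_A00pm_213_s3 t 117 252 1 = true := ex3_b k135_A00pm_213_s3 t404_A00pm_213_s3

theorem t406_A00pm_213_s3 : ∃ t, chk3 f_A00pm_213_s3 t 233 505 3 = true := ex3_b k133_A00pm_213_s3 k134_A00pm_213_s3

theorem t407_A00pm_213_s3 : ∃ t, chk3 f_A00pm_213_s3 t 233 505 1 = true := ex3_c k132_A00pm_213_s3 t406_A00pm_213_s3

theorem t408_A00pm_213_s3 : ∃ t, chk3 f_A00pm_213_s3 t 232 505 3 = true := ex3_b k130_A00pm_213_s3 k131_A00pm_213_s3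

theorem t409_A00pm_213_s3 : ∃ t, chk3 f_A00pm_213_s3 t 232 505 1 = true := ex3_c k129_A00pm_213_s3 t408_A00pm_213_s3

theorem t410_A00pm_213_s3 : ∃ t, chk3 f_A00pm_213_s3 t 116 505 1 = true := ex3_a t409_A00pm_213_s3 t407_A00pm_213_s3

theorem t411_A00pm_213_s3 : ∃ t, chk3 f_A00pm_213_s3 t 232 504 1 = true := ex3_c k126_A00pm_213_s3 k127_A00pm_213_s3

theorem t412_A00pm_213_s3 : ∃ t, chk3 f_A00pm_213_s3 t 116 504 1 = true := ex3_a t411_A00pm_213_s3 k128_A00pm_213_s3

theorem t413_A00pm_213_s3 : ∃ t, chk3 f_A00pm_213_s3 t 116 252 1 = true := ex3_b t412_A00pm_213_s3 t410_A00pm_213_s3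

theorem t414_A00pm_213_s3 : ∃ t, chk3 f_A00pm_213_s3 t 58 252 1 = true := ex3_a t413_A00pm_213_s3 t405_A00pm_213_s3

theorem t415_A00pm_213_s3 : ∃ t, chk3 f_A00pm_213_s3 t 58 126 1 = true := ex3_b t414_A00pm_213_s3 t402_A00pm_213_s3

theorem t416_A00pm_213_s3 : ∃ t, chk3 f_A00pm_213_s3 t 29 126 1 = true := ex3_a t415_A00pm_213_s3 k150_A00pm_213_s3

theorem t417_A00pm_213_s3 : ∃ t, chk3 f_A00pm_213_s3 t 29 63 1 = true := ex3_b t416_A00pm_213_s3 k151_A00pm_213_s3

theorem t418_A00pm_213_s3 : ∃ t, chk3 f_A00pm_213_s3 t 231 505 3 = true := ex3_b k122_A00pm_213_s3 k123_A00pm_213_s3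

theorem t419_A00pm_213_s3 : ∃ t, chk3 f_A00pm_213_s3 t 231 505 1 = true := ex3_c k121_A00pm_213_s3 t418_A00pm_213_s3

theorem t420_A00pm_213_s3 : ∃ t, chk3 f_A00pm_213_s3 t 230 505 3 = true := ex3_b k119_A00pm_213_s3 k120_A00pm_213_s3

theorem t421_A00pm_213_s3 : ∃ t, chk3 f_A00pm_213_s3 t 230 505 1 = true := ex3_c k118_A00pm_213_s3 t420_A00pm_213_s3

theorem t422_A00pm_213_s3 : ∃ t, chk3 f_A00pm_213_s3 t 115 505 1 = true := ex3_a t421_A00pm_213_s3 t419_A00pm_213_s3

theorem t423_A00pm_213_s3 : ∃ t, chk3 f_A00pm_213_s3 t 231 504 1 = true := ex3_c k116_A00pm_213_s3 k117_A00pm_213_s3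

theorem t424_A00pm_213_s3 : ∃ t, chk3 f_A00pm_213_s3 t 230 504 3 = true := ex3_b k114_A00pm_213_s3 k115_A00pm_213_s3

theorem t425_A00pm_213_s3 : ∃ t, chk3 f_A00pm_213_s3 t 230 504 1 = true := ex3_c k113_A00pm_213_s3 t424_A00pm_213_s3

theorem t426_A00pm_213_s3 : ∃ t, chk3 f_A00pm_213_s3 t 115 504 1 = true := ex3_a t425_A00pm_213_s3 t423_A00pm_213_s3

theorem t427_A00pm_213_s3 : ∃ t, chk3 f_A00pm_213_s3 t 115 252 1 = true := ex3_b t426_A00pm_213_s3 t422_A00pm_213_s3

theorem t428_A00pm_213_s3 : ∃ t, chk3 f_A00pm_213_s3 t 229 505 1 = true := ex3_c k111_A00pm_213_s3 k112_A00pm_213_s3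

theorem t429_A00pm_213_s3 : ∃ t, chk3 f_A00pm_213_s3 t 114 505 1 = true := ex3_a k110_A00pm_213_s3 t428_A00pm_213_s3

theorem t430_A00pm_213_s3 : ∃ t, chk3 f_A00pm_213_s3 t 229 504 3 = true := ex3_b k108_A00pm_213_s3 k109_A00pm_213_s3

theorem t431_A00pm_213_s3 : ∃ t, chk3 f_A00pm_213_s3 t 228 504 3 = true := ex3_c k106_A00pm_213_s3 k107_A00pm_213_s3

theorem t432_A00pm_213_s3 : ∃ t, chk3 f_A00pm_213_s3 t 114 504 3 = true := ex3_a t431_A00pm_213_s3 t430_A00pm_213_s3

theorem t433_A00pm_213_s3 : ∃ t, chk3 f_A00pm_213_s3 t 114 504 2 = true := ex3_a k104_A00pm_213_s3 k105_A00pm_213_s3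

theorem t434_A00pm_213_s3 : ∃ t, chk3 f_A00pm_213_s3 t 114 504 1 = true := ex3_c t433_A00pm_213_s3 t432_A00pm_213_s3

theorem t435_A00pm_213_s3 : ∃ t, chk3 f_A00pm_213_s3 t 114 252 1 = true := ex3_b t434_A00pm_213_s3 t429_A00pm_213_s3

theorem t436_A00pm_213_s3 : ∃ t, chk3 f_A00pm_213_s3 t 57 252 1 = true := ex3_a t435_A00pm_213_s3 t427_A00pm_213_s3

theorem t437_A00pm_213_s3 : ∃ t, chk3 f_A00pm_213_s3 t 57 126 1 = true := ex3_b t436_A00pm_213_s3 k124_A00pm_213_s3

theorem t438_A00pm_213_s3 : ∃ t, chk3 f_A00pm_213_s3 t 227 504 3 = true := ex3_c k100_A00pm_213_s3 k101_A00pm_213_s3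

theorem t439_A00pm_213_s3 : ∃ t, chk3 f_A00pm_213_s3 t 113 504 3 = true := ex3_a k99_A00pm_213_s3 t438_A00pm_213_s3

theorem t440_A00pm_213_s3 : ∃ t, chk3 f_A00pm_213_s3 t 113 252 3 = true := ex3_b t439_A00pm_213_s3 k102_A00pm_213_s3

theorem t441_A00pm_213_s3 : ∃ t, chk3 f_A00pm_213_s3 t 113 252 1 = true := ex3_c k98_A00pm_213_s3 t440_A00pm_213_s3

theorem t442_A00pm_213_s3 : ∃ t, chk3 f_A00pm_213_s3 t 56 252 1 = true := ex3_a k97_A00pm_213_s3 t441_A00pm_213_s3

theorem t443_A00pm_213_s3 : ∃ t, chk3 f_A00pm_213_s3 t 56 126 1 = true := ex3_b t442_A00pm_213_s3 k103_A00pm_213_s3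

theorem t444_A00pm_213_s3 : ∃ t, chk3 f_A00pm_213_s3 t 28 126 1 = true := ex3_a t443_A00pm_213_s3 t437_A00pm_213_s3

theorem t445_A00pm_213_s3 : ∃ t, chk3 f_A00pm_213_s3 t 28 63 1 = true := ex3_b t444_A00pm_213_s3 k125_A00pm_213_s3

theorem t446_A00pm_213_s3 : ∃ t, chk3 f_A00pm_213_s3 t 14 63 1 = true := ex3_a t445_A00pm_213_s3 t417_A00pm_213_s3

theorem t447_A00pm_213_s3 : ∃ t, chk3 f_A00pm_213_s3 t 116 251 1 = true := ex3_b k93_A00pm_213_s3 k94_A00pm_213_s3

theorem t448_A00pm_213_s3 : ∃ t, chk3 f_A00pm_213_s3 t 58 251 1 = true := ex3_a t447_A00pm_213_s3 k95_A00pm_213_s3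

theorem t449_A00pm_213_s3 : ∃ t, chk3 f_A00pm_213_s3 t 29 251 1 = true := ex3_a t448_A00pm_213_s3 k96_A00pm_213_s3

theorem t450_A00pm_213_s3 : ∃ t, chk3 f_A00pm_213_s3 t 29 250 1 = true := ex3_c k91_A00pm_213_s3 k92_A00pm_213_s3

theorem t451_A00pm_213_s3 : ∃ t, chk3 f_A00pm_213_s3 t 29 125 1 = true := ex3_b t450_A00pm_213_s3 t449_A00pm_213_s3

theorem t452_A00pm_213_s3 : ∃ t, chk3 f_A00pm_213_s3 t 230 503 1 = true := ex3_c k88_A00pm_213_s3 k89_A00pm_213_s3

theorem t453_A00pm_213_s3 : ∃ t, chk3 f_A00pm_213_s3 t 115 503 1 = true := ex3_a t452_A00pm_213_s3 k90_A00pm_213_s3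

theorem t454_A00pm_213_s3 : ∃ t, chk3 f_A00pm_213_s3 t 115 251 1 = true := ex3_b k87_A00pm_213_s3 t453_A00pm_213_s3

theorem t455_A00pm_213_s3 : ∃ t, chk3 f_A00pm_213_s3 t 114 503 3 = true := ex3_a k85_A00pm_213_s3 k86_A00pm_213_s3

theorem t456_A00pm_213_s3 : ∃ t, chk3 f_A00pm_213_s3 t 114 503 2 = true := ex3_a k83_A00pm_213_s3 k84_A00pm_213_s3

theorem t457_A00pm_213_s3 : ∃ t, chk3 f_A00pm_213_s3 t 114 503 1 = true := ex3_c t456_A00pm_213_s3 t455_A00pm_213_s3

theorem t458_A00pm_213_s3 : ∃ t, chk3 f_A00pm_213_s3 t 114 502 1 = true := ex3_a k81_A00pm_213_s3 k82_A00pm_213_s3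

theorem t459_A00pm_213_s3 : ∃ t, chk3 f_A00pm_213_s3 t 114 251 1 = true := ex3_b t458_A00pm_213_s3 t457_A00pm_213_s3

theorem t460_A00pm_213_s3 : ∃ t, chk3 f_A00pm_213_s3 t 57 251 1 = true := ex3_a t459_A00pm_213_s3 t454_A00pm_213_s3

theorem t461_A00pm_213_s3 : ∃ t, chk3 f_A00pm_213_s3 t 57 250 1 = true := ex3_a k79_A00pm_213_s3 k80_A00pm_213_s3

theorem t462_A00pm_213_s3 : ∃ t, chk3 f_A00pm_213_s3 t 57 125 1 = true := ex3_b t461_A00pm_213_s3 t460_A00pm_213_s3

theorem t463_A00pm_213_s3 : ∃ t, chk3 f_A00pm_213_s3 t 227 1007 7 = true := ex3_a k77_A00pm_213_s3 k78_A00pm_213_s3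

theorem t464_A00pm_213_s3 : ∃ t, chk3 f_A00pm_213_s3 t 227 1007 3 = true := ex3_c k76_A00pm_213_s3 t463_A00pm_213_s3

theorem t465_A00pm_213_s3 : ∃ t, chk3 f_A00pm_213_s3 t 227 503 3 = true := ex3_b k75_A00pm_213_s3 t464_A00pm_213_s3

theorem t466_A00pm_213_s3 : ∃ t, chk3 f_A00pm_213_s3 t 227 503 2 = true := ex3_c k73_A00pm_213_s3 k74_A00pm_213_s3

theorem t467_A00pm_213_s3 : ∃ t, chk3 f_A00pm_213_s3 t 227 503 1 = true := ex3_c t466_A00pm_213_s3 t465_A00pm_213_s3

theorem t468_A00pm_213_s3 : ∃ t, chk3 f_A00pm_213_s3 t 227 251 1 = true := ex3_b k72_A00pm_213_s3 t467_A00pm_213_s3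

theorem t469_A00pm_213_s3 : ∃ t, chk3 f_A00pm_213_s3 t 226 251 1 = true := ex3_b k70_A00pm_213_s3 k71_A00pm_213_s3

theorem t470_A00pm_213_s3 : ∃ t, chk3 f_A00pm_213_s3 t 113 251 1 = true := ex3_a t469_A00pm_213_s3 t468_A00pm_213_s3

theorem t471_A00pm_213_s3 : ∃ t, chk3 f_A00pm_213_s3 t 56 251 1 = true := ex3_a k69_A00pm_213_s3 t470_A00pm_213_s3

theorem t472_A00pm_213_s3 : ∃ t, chk3 f_A00pm_213_s3 t 56 250 1 = true := ex3_a k67_A00pm_213_s3 k68_A00pm_213_s3

theorem t473_A00pm_213_s3 : ∃ t, chk3 f_A00pm_213_s3 t 56 125 1 = true := ex3_b t472_A00pm_213_s3 t471_A00pm_213_s3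

theorem t474_A00pm_213_s3 : ∃ t, chk3 f_A00pm_213_s3 t 28 125 1 = true := ex3_a t473_A00pm_213_s3 t462_A00pm_213_s3

theorem t475_A00pm_213_s3 : ∃ t, chk3 f_A00pm_213_s3 t 14 125 1 = true := ex3_a t474_A00pm_213_s3 t451_A00pm_213_s3

theorem t476_A00pm_213_s3 : ∃ t, chk3 f_A00pm_213_s3 t 28 124 1 = true := ex3_a k64_A00pm_213_s3 k65_A00pm_213_s3

theorem t477_A00pm_213_s3 : ∃ t, chk3 f_A00pm_213_s3 t 14 124 1 = true := ex3_a t476_A00pm_213_s3 k66_A00pm_213_s3

theorem t478_A00pm_213_s3 : ∃ t, chk3 f_A00pm_213_s3 t 14 62 1 = true := ex3_b t477_A00pm_213_s3 t475_A00pm_213_s3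

theorem t479_A00pm_213_s3 : ∃ t, chk3 f_A00pm_213_s3 t 14 31 1 = true := ex3_b t478_A00pm_213_s3 t446_A00pm_213_s3

theorem t480_A00pm_213_s3 : ∃ t, chk3 f_A00pm_213_s3 t 14 61 1 = true := ex3_b k62_A00pm_213_s3 k63_A00pm_213_s3

theorem t481_A00pm_213_s3 : ∃ t, chk3 f_A00pm_213_s3 t 57 120 1 = true := ex3_a k58_A00pm_213_s3 k59_A00pm_213_s3

theorem t482_A00pm_213_s3 : ∃ t, chk3 f_A00pm_213_s3 t 28 120 1 = true := ex3_a k57_A00pm_213_s3 t481_A00pm_213_s3

theorem t483_A00pm_213_s3 : ∃ t, chk3 f_A00pm_213_s3 t 28 60 1 = true := ex3_b t482_A00pm_213_s3 k60_A00pm_213_s3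

theorem t484_A00pm_213_s3 : ∃ t, chk3 f_A00pm_213_s3 t 14 60 1 = true := ex3_a t483_A00pm_213_s3 k61_A00pm_213_s3

theorem t485_A00pm_213_s3 : ∃ t, chk3 f_A00pm_213_s3 t 14 30 1 = true := ex3_b t484_A00pm_213_s3 t480_A00pm_213_s3

theorem t486_A00pm_213_s3 : ∃ t, chk3 f_A00pm_213_s3 t 14 15 1 = true := ex3_b t485_A00pm_213_s3 t479_A00pm_213_s3

theorem t487_A00pm_213_s3 : ∃ t, chk3 f_A00pm_213_s3 t 114 119 3 = true := ex3_a k53_A00pm_213_s3 k54_A00pm_213_s3

theorem t488_A00pm_213_s3 : ∃ t, chk3 f_A00pm_213_s3 t 57 119 3 = true := ex3_a t487_A00pm_213_s3 k55_A00pm_213_s3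

theorem t489_A00pm_213_s3 : ∃ t, chk3 f_A00pm_213_s3 t 57 119 1 = true := ex3_c k52_A00pm_213_s3 t488_A00pm_213_s3

theorem t490_A00pm_213_s3 : ∃ t, chk3 f_A00pm_213_s3 t 57 59 1 = true := ex3_b k51_A00pm_213_s3 t489_A00pm_213_s3

theorem t491_A00pm_213_s3 : ∃ t, chk3 f_A00pm_213_s3 t 113 118 1 = true := ex3_c k48_A00pm_213_s3 k49_A00pm_213_s3

theorem t492_A00pm_213_s3 : ∃ t, chk3 f_A00pm_213_s3 t 56 118 1 = true := ex3_a k47_A00pm_213_s3 t491_A00pm_213_s3

theorem t493_A00pm_213_s3 : ∃ t, chk3 f_A00pm_213_s3 t 56 59 1 = true := ex3_b t492_A00pm_213_s3 k50_A00pm_213_s3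

theorem t494_A00pm_213_s3 : ∃ t, chk3 f_A00pm_213_s3 t 28 59 1 = true := ex3_a t493_A00pm_213_s3 t490_A00pm_213_s3

theorem t495_A00pm_213_s3 : ∃ t, chk3 f_A00pm_213_s3 t 14 59 1 = true := ex3_a t494_A00pm_213_s3 k56_A00pm_213_s3

theorem t496_A00pm_213_s3 : ∃ t, chk3 f_A00pm_213_s3 t 28 117 1 = true := ex3_a k44_A00pm_213_s3 k45_A00pm_213_s3

theorem t497_A00pm_213_s3 : ∃ t, chk3 f_A00pm_213_s3 t 28 58 1 = true := ex3_b k43_A00pm_213_s3 t496_A00pm_213_s3

theorem t498_A00pm_213_s3 : ∃ t, chk3 f_A00pm_213_s3 t 14 58 1 = true := ex3_a t497_A00pm_213_s3 k46_A00pm_213_s3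

theorem t499_A00pm_213_s3 : ∃ t, chk3 f_A00pm_213_s3 t 14 29 1 = true := ex3_b t498_A00pm_213_s3 t495_A00pm_213_s3

theorem t500_A00pm_213_s3 : ∃ t, chk3 f_A00pm_213_s3 t 14 14 1 = true := ex3_b k42_A00pm_213_s3 t499_A00pm_213_s3

theorem t501_A00pm_213_s3 : ∃ t, chk3 f_A00pm_213_s3 t 14 7 1 = true := ex3_b t500_A00pm_213_s3 t486_A00pm_213_s3

theorem t502_A00pm_213_s3 : ∃ t, chk3 f_A00pm_213_s3 t 7 7 1 = true := ex3_a t501_A00pm_213_s3 t392_A00pm_213_s3

theorem t503_A00pm_213_s3 : ∃ t, chk3 f_A00pm_213_s3 t 31 13 1 = true := ex3_b k40_A00pm_213_s3 k41_A00pm_213_s3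

theorem t504_A00pm_213_s3 : ∃ t, chk3 f_A00pm_213_s3 t 30 55 1 = true := ex3_c k38_A00pm_213_s3 k39_A00pm_213_s3

theorem t505_A00pm_213_s3 : ∃ t, chk3 f_A00pm_213_s3 t 30 27 1 = true := ex3_b k37_A00pm_213_s3 t504_A00pm_213_s3

theorem t506_A00pm_213_s3 : ∃ t, chk3 f_A00pm_213_s3 t 30 13 1 = true := ex3_b k36_A00pm_213_s3 t505_A00pm_213_s3

theorem t507_A00pm_213_s3 : ∃ t, chk3 f_A00pm_213_s3 t 15 13 1 = true := ex3_a t506_A00pm_213_s3 t503_A00pm_213_s3

theorem t508_A00pm_213_s3 : ∃ t, chk3 f_A00pm_213_s3 t 7 13 1 = true := ex3_a k35_A00pm_213_s3 t507_A00pm_213_s3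

theorem t509_A00pm_213_s3 : ∃ t, chk3 f_A00pm_213_s3 t 7 6 1 = true := ex3_b k34_A00pm_213_s3 t508_A00pm_213_s3

theorem t510_A00pm_213_s3 : ∃ t, chk3 f_A00pm_213_s3 t 7 3 1 = true := ex3_b t509_A00pm_213_s3 t502_A00pm_213_s3

theorem t511_A00pm_213_s3 : ∃ t, chk3 f_A00pm_213_s3 t 27 124 1 = true := ex3_a k30_A00pm_213_s3 k31_A00pm_213_s3

theorem t512_A00pm_213_s3 : ∃ t, chk3 f_A00pm_213_s3 t 27 62 1 = true := ex3_b t511_A00pm_213_s3 k32_A00pm_213_s3

theorem t513_A00pm_213_s3 : ∃ t, chk3 f_A00pm_213_s3 t 13 62 1 = true := ex3_a k29_A00pm_213_s3 t512_A00pm_213_s3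

theorem t514_A00pm_213_s3 : ∃ t, chk3 f_A00pm_213_s3 t 13 31 1 = true := ex3_b t513_A00pm_213_s3 k33_A00pm_213_s3

theorem t515_A00pm_213_s3 : ∃ t, chk3 f_A00pm_213_s3 t 27 30 1 = true := ex3_b k27_A00pm_213_s3 k28_A00pm_213_s3

theorem t516_A00pm_213_s3 : ∃ t, chk3 f_A00pm_213_s3 t 53 61 1 = true := ex3_b k25_A00pm_213_s3 k26_A00pm_213_s3

theorem t517_A00pm_213_s3 : ∃ t, chk3 f_A00pm_213_s3 t 52 61 1 = true := ex3_b k23_A00pm_213_s3 k24_A00pm_213_s3

theorem t518_A00pm_213_s3 : ∃ t, chk3 f_A00pm_213_s3 t 26 61 1 = true := ex3_a t517_A00pm_213_s3 t516_A00pm_213_s3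

theorem t519_A00pm_213_s3 : ∃ t, chk3 f_A00pm_213_s3 t 26 30 1 = true := ex3_b k22_A00pm_213_s3 t518_A00pm_213_s3

theorem t520_A00pm_213_s3 : ∃ t, chk3 f_A00pm_213_s3 t 13 30 1 = true := ex3_a t519_A00pm_213_s3 t515_A00pm_213_s3

theorem t521_A00pm_213_s3 : ∃ t, chk3 f_A00pm_213_s3 t 13 15 1 = true := ex3_b t520_A00pm_213_s3 t514_A00pm_213_s3

theorem t522_A00pm_213_s3 : ∃ t, chk3 f_A00pm_213_s3 t 13 14 1 = true := ex3_b k20_A00pm_213_s3 k21_A00pm_213_s3

theorem t523_A00pm_213_s3 : ∃ t, chk3 f_A00pm_213_s3 t 13 7 1 = true := ex3_b t522_A00pm_213_s3 t521_A00pm_213_s3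

theorem t524_A00pm_213_s3 : ∃ t, chk3 f_A00pm_213_s3 t 25 121 1 = true := ex3_a k16_A00pm_213_s3 k17_A00pm_213_s3

theorem t525_A00pm_213_s3 : ∃ t, chk3 f_A00pm_213_s3 t 50 120 1 = true := ex3_c k13_A00pm_213_s3 k14_A00pm_213_s3

theorem t526_A00pm_213_s3 : ∃ t, chk3 f_A00pm_213_s3 t 25 120 1 = true := ex3_a t525_A00pm_213_s3 k15_A00pm_213_s3

theorem t527_A00pm_213_s3 : ∃ t, chk3 f_A00pm_213_s3 t 25 60 1 = true := ex3_b t526_A00pm_213_s3 t524_A00pm_213_s3

theorem t528_A00pm_213_s3 : ∃ t, chk3 f_A00pm_213_s3 t 12 60 1 = true := ex3_a k12_A00pm_213_s3 t527_A00pm_213_s3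

theorem t529_A00pm_213_s3 : ∃ t, chk3 f_A00pm_213_s3 t 12 30 1 = true := ex3_b t528_A00pm_213_s3 k18_A00pm_213_s3

theorem t530_A00pm_213_s3 : ∃ t, chk3 f_A00pm_213_s3 t 12 15 1 = true := ex3_b t529_A00pm_213_s3 k19_A00pm_213_s3

theorem t531_A00pm_213_s3 : ∃ t, chk3 f_A00pm_213_s3 t 12 29 1 = true := ex3_a k10_A00pm_213_s3 k11_A00pm_213_s3

theorem t532_A00pm_213_s3 : ∃ t, chk3 f_A00pm_213_s3 t 12 14 1 = true := ex3_b k9_A00pm_213_s3 t531_A00pm_213_s3

theorem t533_A00pm_213_s3 : ∃ t, chk3 f_A00pm_213_s3 t 12 7 1 = true := ex3_b t532_A00pm_213_s3 t530_A00pm_213_s3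

theorem t534_A00pm_213_s3 : ∃ t, chk3 f_A00pm_213_s3 t 6 7 1 = true := ex3_a t533_A00pm_213_s3 t523_A00pm_213_s3

theorem t535_A00pm_213_s3 : ∃ t, chk3 f_A00pm_213_s3 t 6 3 1 = true := ex3_b k8_A00pm_213_s3 t534_A00pm_213_s3

theorem t536_A00pm_213_s3 : ∃ t, chk3 f_A00pm_213_s3 t 3 3 1 = true := ex3_a t535_A00pm_213_s3 t510_A00pm_213_s3

theorem t537_A00pm_213_s3 : ∃ t, chk3 f_A00pm_213_s3 t 3 1 1 = true := ex3_b k7_A00pm_213_s3 t536_A00pm_213_s3

theorem t538_A00pm_213_s3 : ∃ t, chk3 f_A00pm_213_s3 t 11 14 1 = true := ex3_b k4_A00pm_213_s3 k5_A00pm_213_s3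

theorem t539_A00pm_213_s3 : ∃ t, chk3 f_A00pm_213_s3 t 5 14 1 = true := ex3_a k3_A00pm_213_s3 t538_A00pm_213_s3

theorem t540_A00pm_213_s3 : ∃ t, chk3 f_A00pm_213_s3 t 5 7 1 = true := ex3_b t539_A00pm_213_s3 k6_A00pm_213_s3

theorem t541_A00pm_213_s3 : ∃ t, chk3 f_A00pm_213_s3 t 5 3 1 = true := ex3_b k2_A00pm_213_s3 t540_A00pm_213_s3

theorem t542_A00pm_213_s3 : ∃ t, chk3 f_A00pm_213_s3 t 2 3 1 = true := ex3_a k1_A00pm_213_s3 t541_A00pm_213_s3

theorem t543_A00pm_213_s3 : ∃ t, chk3 f_A00pm_213_s3 t 2 1 1 = true := ex3_b k0_A00pm_213_s3 t542_A00pm_213_s3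

theorem t544_A00pm_213_s3 : ∃ t, chk3 f_A00pm_213_s3 t 1 1 1 = true := ex3_a t543_A00pm_213_s3 t537_A00pm_213_s3

theorem c_A00pm_213_s3 : CertF 0 536870912 536870912 536870912 923417968 42949674 true true false .pnn 2 1 3
    ndB0q2 ndB0q1 pcB3 cut_A00pm_213_s3 xt_A00pm_213_s3 :=
  certF1 (fam := true) (s1 := true) (s2 := false) (a := 2) (b := 1) (c := 3) (cn := .pnn) (n1 := ndB0q2) (n2 := ndB0q1) (pc := pcB3) (cut := cut_A00pm_213_s3) (xt := xt_A00pm_213_s3) (P1 := 0) (W1 := 536870912) (P2 := 536870912) (W2 := 536870912) (P3 := 923417968) (W3 := 42949674)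
    rfl (fun _ => rfl) t544_A00pm_213_s3

theorem s_A00pm_213_s3 {κ x : ℝ} (hκ : κ * h0 = ken x) (hx : ((923417968 : ℕ) : ℝ) / S ≤ x)
    (hx' : x ≤ (((923417968 : ℕ) : ℝ) + (42949674 : ℕ)) / S)
    (H : CutA (VFD κ) PP tK tL pcB (Cut.of [[⟨0, 1, 0, 67108864⟩, ⟨1, 1, 0, 67108864⟩, ⟨2, 2, 0, 16252928⟩], [⟨0, 1, 0, 8388608⟩, ⟨1, 0, 1, 20971520⟩, ⟨2, 1, 1, 20971520⟩]]) 2 1 3 0 0 (sgb true) (sgb false) x) :
    AltA (VFD κ) PP tK tL pcB [⟨4, 0, 0, 2845415833⟩] 2 1 3 0 0 (sgb true) (sgb false) x :=
  strip_altAD (m := 2845415833) false rfl hκ (SH.κ0 hκ (SH.hx1 hx).le (SH.hx2 hx').le) (SH.hx1 hx).le (SH.hx2 hx') (covB02).cov (covB01).cov hx hx' c_A00pm_213_s3 H ((okx hx hx').extA (T := tt) (sideB hx hx') hκ rfl rfl (.O 2 true) (.O 1 false) (Or.inr rfl))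

end Pool.Agent.Strip051.G.I8600_9000.Tab.St.C
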