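import Pool.Agent.Strip051.G.I8600_9000.StH
import Pool.Agent.Strip051.G.I8600_9000.StF

/-! # Unit strips 12 (generated) -/

set_option linter.all false
set_option maxRecDepth 100000

namespace Pool.Agent.Strip051.G.I8600_9000.Tab.St.C

open Pool.Agent.Strip051.PB Pool.Agent.Strip051.PB.T Pool.Agent.StripNear Pool.Agent.Strip051.LC
open Pool.Agent.Strip051.G.I8600_9000.Tab Pool.Agent.Strip051.G.I8600_9000.Tab.St

noncomputable def cut_A00mm_001_s1 : Cut := Cut.of [[⟨4, 0, 0, 1449551462⟩]]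

noncomputable def f_A00mm_001_s1 : ℕ → ℕ → ℕ → ℕ → Bool := onCell 0 536870912 0 536870912 923417968 42949674
    (rowF 0 true false false .up 0 0 1 (qsf 0 536870912 0 536870912 1) ndB0q0 ndB0q0 pcB1 cut_A00mm_001_s1 Ext.none)

def k0_A00mm_001_s1 : ∃ t, chk3 f_A00mm_001_s1 t 1 1 1 = true :=
  ⟨(l 4), by decide +kernel⟩

theorem c_A00mm_001_s1 : CertF 0 536870912 0 536870912 923417968 42949674 true false false .up 0 0 1
    ndB0q0 ndB0q0 pcB1 cut_A00mm_001_s1 Ext.none :=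
  certF0 (fam := true) (s1 := false) (s2 := false) (a := 0) (b := 0) (c := 1) (cn := .up) (n1 := ndB0q0) (n2 := ndB0q0) (pc := pcB1) (cut := cut_A00mm_001_s1) (xt := Ext.none) (P1 := 0) (W1 := 536870912) (P2 := 0) (W2 := 536870912) (P3 := 923417968) (W3 := 42949674)
    rfl k0_A00mm_001_s1

theorem s_A00mm_001_s1 {κ x : ℝ} (hκ : κ * h0 = ken x) (hx : ((923417968 : ℕ) : ℝ) / S ≤ x)
    (hx' : x ≤ (((923417968 : ℕ) : ℝ) + (42949674 : ℕ)) / S) :
    AltA (VFD κ) PP tK tL pcB [⟨3, 0, 0, 1449551462⟩] 0 0 1 0 0 (sgb false) (sgb false) x :=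
  strip_altAD (m := 1449551462) true rfl hκ (SH.κ0 hκ (SH.hx1 hx).le (SH.hx2 hx').le) (SH.hx1 hx).le (SH.hx2 hx') (covB00).cov (covB00).cov hx hx' c_A00mm_001_s1 cutA_nil (noExt_A)

noncomputable def cut_A00mm_001_s3 : Cut := Cut.of [[⟨3, 0, 0, 2845415833⟩]]

noncomputable def f_A00mm_001_s3 : ℕ → ℕ → ℕ → ℕ → Bool := onCell 0 536870912 0 536870912 923417968 42949674
    (rowF 0 true false false .up 0 0 1 (qsf 0 536870912 0 536870912 1) ndB0q0 ndB0q0 pcB1 cut_A00mm_001_s3 Ext.none)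

def k0_A00mm_001_s3 : ∃ t, chk3 f_A00mm_001_s3 t 1 1 1 = true :=
  ⟨(l 4), by decide +kernel⟩

theorem c_A00mm_001_s3 : CertF 0 536870912 0 536870912 923417968 42949674 true false false .up 0 0 1
    ndB0q0 ndB0q0 pcB1 cut_A00mm_001_s3 Ext.none :=
  certF0 (fam := true) (s1 := false) (s2 := false) (a := 0) (b := 0) (c := 1) (cn := .up) (n1 := ndB0q0) (n2 := ndB0q0) (pc := pcB1) (cut := cut_A00mm_001_s3) (xt := Ext.none) (P1 := 0) (W1 := 536870912) (P2 := 0) (W2 := 536870912) (P3 := 923417968) (W3 := 42949674)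
    rfl k0_A00mm_001_s3

theorem s_A00mm_001_s3 {κ x : ℝ} (hκ : κ * h0 = ken x) (hx : ((923417968 : ℕ) : ℝ) / S ≤ x)
    (hx' : x ≤ (((923417968 : ℕ) : ℝ) + (42949674 : ℕ)) / S) :
    AltA (VFD κ) PP tK tL pcB [⟨4, 0, 0, 2845415833⟩] 0 0 1 0 0 (sgb false) (sgb false) x :=
  strip_altAD (m := 2845415833) false rfl hκ (SH.κ0 hκ (SH.hx1 hx).le (SH.hx2 hx').le) (SH.hx1 hx).le (SH.hx2 hx') (covB00).cov (covB00).cov hx hx' c_A00mm_001_s3 cutA_nil (noExt_A)

noncomputable def cut_A00mm_011_s1 : Cut := Cut.of [[⟨4, 0, 0, 1449551462⟩]]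

noncomputable def f_A00mm_011_s1 : ℕ → ℕ → ℕ → ℕ → Bool := onCell 0 536870912 536870912 536870912 923417968 42949674
    (rowF 0 true false false .pnn 0 1 1 (qsf 0 536870912 536870912 536870912 1) ndB0q0 ndB0q1 pcB1 cut_A00mm_011_s1 Ext.none)

def k0_A00mm_011_s1 : ∃ t, chk3 f_A00mm_011_s1 t 1 1 1 = true :=
  ⟨(l 6), by decide +kernel⟩

theorem c_A00mm_011_s1 : CertF 0 536870912 536870912 536870912 923417968 42949674 true false false .pnn 0 1 1
    ndB0q0 ndB0q1 pcB1 cut_A00mm_011_s1 Ext.none :=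
  certF0 (fam := true) (s1 := false) (s2 := false) (a := 0) (b := 1) (c := 1) (cn := .pnn) (n1 := ndB0q0) (n2 := ndB0q1) (pc := pcB1) (cut := cut_A00mm_011_s1) (xt := Ext.none) (P1 := 0) (W1 := 536870912) (P2 := 536870912) (W2 := 536870912) (P3 := 923417968) (W3 := 42949674)
    rfl k0_A00mm_011_s1

theorem s_A00mm_011_s1 {κ x : ℝ} (hκ : κ * h0 = ken x) (hx : ((923417968 : ℕ) : ℝ) / S ≤ x)
    (hx' : x ≤ (((923417968 : ℕ) : ℝ) + (42949674 : ℕ)) / S) :
    AltA (VFD κ) PP tK tL pcB [⟨3, 0, 0, 1449551462⟩] 0 1 1 0 0 (sgb false) (sgb false) x :=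
  strip_altAD (m := 1449551462) true rfl hκ (SH.κ0 hκ (SH.hx1 hx).le (SH.hx2 hx').le) (SH.hx1 hx).le (SH.hx2 hx') (covB00).cov (covB01).cov hx hx' c_A00mm_011_s1 cutA_nil (noExt_A)

noncomputable def cut_A00mm_011_s3 : Cut := Cut.of [[⟨3, 0, 0, 2845415833⟩]]

noncomputable def f_A00mm_011_s3 : ℕ → ℕ → ℕ → ℕ → Bool := onCell 0 536870912 536870912 536870912 923417968 42949674
    (rowF 0 true false false .pnn 0 1 1 (qsf 0 536870912 536870912 536870912 1) ndB0q0 ndB0q1 pcB1 cut_A00mm_011_s3 Ext.none)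

def k0_A00mm_011_s3 : ∃ t, chk3 f_A00mm_011_s3 t 1 1 1 = true :=
  ⟨(b (l 4) (l 5)), by decide +kernel⟩

theorem c_A00mm_011_s3 : CertF 0 536870912 536870912 536870912 923417968 42949674 true false false .pnn 0 1 1
    ndB0q0 ndB0q1 pcB1 cut_A00mm_011_s3 Ext.none :=
  certF0 (fam := true) (s1 := false) (s2 := false) (a := 0) (b := 1) (c := 1) (cn := .pnn) (n1 := ndB0q0) (n2 := ndB0q1) (pc := pcB1) (cut := cut_A00mm_011_s3) (xt := Ext.none) (P1 := 0) (W1 := 536870912) (P2 := 536870912) (W2 := 536870912) (P3 := 923417968) (W3 := 42949674)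
    rfl k0_A00mm_011_s3

theorem s_A00mm_011_s3 {κ x : ℝ} (hκ : κ * h0 = ken x) (hx : ((923417968 : ℕ) : ℝ) / S ≤ x)
    (hx' : x ≤ (((923417968 : ℕ) : ℝ) + (42949674 : ℕ)) / S) :
    AltA (VFD κ) PP tK tL pcB [⟨4, 0, 0, 2845415833⟩] 0 1 1 0 0 (sgb false) (sgb false) x :=
  strip_altAD (m := 2845415833) false rfl hκ (SH.κ0 hκ (SH.hx1 hx).le (SH.hx2 hx').le) (SH.hx1 hx).le (SH.hx2 hx') (covB00).cov (covB01).cov hx hx' c_A00mm_011_s3 cutA_nil (noExt_A)

noncomputable def cut_A00mm_012_s1 : Cut := Cut.of [[⟨4, 0, 0, 1449551462⟩]]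

noncomputable def f_A00mm_012_s1 : ℕ → ℕ → ℕ → ℕ → Bool := onCell 0 536870912 536870912 536870912 923417968 42949674
    (rowF 0 true false false .pnp 0 1 2 (qsf 0 536870912 536870912 536870912 2) ndB0q0 ndB0q1 pcB2 cut_A00mm_012_s1 Ext.none)

def k0_A00mm_012_s1 : ∃ t, chk3 f_A00mm_012_s1 t 1 1 1 = true :=
  ⟨(l 6), by decide +kernel⟩

theorem c_A00mm_012_s1 : CertF 0 536870912 536870912 536870912 923417968 42949674 true false false .pnp 0 1 2
    ndB0q0 ndB0q1 pcB2 cut_A00mm_012_s1 Ext.none :=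
  certF0 (fam := true) (s1 := false) (s2 := false) (a := 0) (b := 1) (c := 2) (cn := .pnp) (n1 := ndB0q0) (n2 := ndB0q1) (pc := pcB2) (cut := cut_A00mm_012_s1) (xt := Ext.none) (P1 := 0) (W1 := 536870912) (P2 := 536870912) (W2 := 536870912) (P3 := 923417968) (W3 := 42949674)
    rfl k0_A00mm_012_s1

theorem s_A00mm_012_s1 {κ x : ℝ} (hκ : κ * h0 = ken x) (hx : ((923417968 : ℕ) : ℝ) / S ≤ x)
    (hx' : x ≤ (((923417968 : ℕ) : ℝ) + (42949674 : ℕ)) / S) :
    AltA (VFD κ) PP tK tL pcB [⟨3, 0, 0, 1449551462⟩] 0 1 2 0 0 (sgb false) (sgb false) x :=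
  strip_altAD (m := 1449551462) true rfl hκ (SH.κ0 hκ (SH.hx1 hx).le (SH.hx2 hx').le) (SH.hx1 hx).le (SH.hx2 hx') (covB00).cov (covB01).cov hx hx' c_A00mm_012_s1 cutA_nil (noExt_A)

noncomputable def cut_A00mm_012_s3 : Cut := Cut.of [[⟨3, 0, 0, 2845415833⟩]]

noncomputable def f_A00mm_012_s3 : ℕ → ℕ → ℕ → ℕ → Bool := onCell 0 536870912 536870912 536870912 923417968 42949674
    (rowF 0 true false false .pnp 0 1 2 (qsf 0 536870912 536870912 536870912 2) ndB0q0 ndB0q1 pcB2 cut_A00mm_012_s3 Ext.none)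

def k0_A00mm_012_s3 : ∃ t, chk3 f_A00mm_012_s3 t 1 1 1 = true :=
  ⟨(b (l 4) (l 5)), by decide +kernel⟩

theorem c_A00mm_012_s3 : CertF 0 536870912 536870912 536870912 923417968 42949674 true false false .pnp 0 1 2
    ndB0q0 ndB0q1 pcB2 cut_A00mm_012_s3 Ext.none :=
  certF0 (fam := true) (s1 := false) (s2 := false) (a := 0) (b := 1) (c := 2) (cn := .pnp) (n1 := ndB0q0) (n2 := ndB0q1) (pc := pcB2) (cut := cut_A00mm_012_s3) (xt := Ext.none) (P1 := 0) (W1 := 536870912) (P2 := 536870912) (W2 := 536870912) (P3 := 923417968) (W3 := 42949674)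
    rfl k0_A00mm_012_s3

theorem s_A00mm_012_s3 {κ x : ℝ} (hκ : κ * h0 = ken x) (hx : ((923417968 : ℕ) : ℝ) / S ≤ x)
    (hx' : x ≤ (((923417968 : ℕ) : ℝ) + (42949674 : ℕ)) / S) :
    AltA (VFD κ) PP tK tL pcB [⟨4, 0, 0, 2845415833⟩] 0 1 2 0 0 (sgb false) (sgb false) x :=
  strip_altAD (m := 2845415833) false rfl hκ (SH.κ0 hκ (SH.hx1 hx).le (SH.hx2 hx').le) (SH.hx1 hx).le (SH.hx2 hx') (covB00).cov (covB01).cov hx hx' c_A00mm_012_s3 cutA_nil (noExt_A)

noncomputable def cut_A00mm_022_s1 : Cut := Cut.of [[⟨4, 0, 0, 1449551462⟩]]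

noncomputable def f_A00mm_022_s1 : ℕ → ℕ → ℕ → ℕ → Bool := onCell 0 536870912 0 536870912 923417968 42949674
    (rowF 0 true false false .pp 0 2 2 (qsf 0 536870912 0 536870912 2) ndB0q0 ndB0q2 pcB2 cut_A00mm_022_s1 Ext.none)

def k0_A00mm_022_s1 : ∃ t, chk3 f_A00mm_022_s1 t 1 1 1 = true :=
  ⟨(l 5), by decide +kernel⟩

theorem c_A00mm_022_s1 : CertF 0 536870912 0 536870912 923417968 42949674 true false false .pp 0 2 2
    ndB0q0 ndB0q2 pcB2 cut_A00mm_022_s1 Ext.none :=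
  certF0 (fam := true) (s1 := false) (s2 := false) (a := 0) (b := 2) (c := 2) (cn := .pp) (n1 := ndB0q0) (n2 := ndB0q2) (pc := pcB2) (cut := cut_A00mm_022_s1) (xt := Ext.none) (P1 := 0) (W1 := 536870912) (P2 := 0) (W2 := 536870912) (P3 := 923417968) (W3 := 42949674)
    rfl k0_A00mm_022_s1

theorem s_A00mm_022_s1 {κ x : ℝ} (hκ : κ * h0 = ken x) (hx : ((923417968 : ℕ) : ℝ) / S ≤ x)
    (hx' : x ≤ (((923417968 : ℕ) : ℝ) + (42949674 : ℕ)) / S) :
    AltA (VFD κ) PP tK tL pcB [⟨3, 0, 0, 1449551462⟩] 0 2 2 0 0 (sgb false) (sgb false) x :=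
  strip_altAD (m := 1449551462) true rfl hκ (SH.κ0 hκ (SH.hx1 hx).le (SH.hx2 hx').le) (SH.hx1 hx).le (SH.hx2 hx') (covB00).cov (covB02).cov hx hx' c_A00mm_022_s1 cutA_nil (noExt_A)

noncomputable def cut_A00mm_022_s3 : Cut := Cut.of [[⟨3, 0, 0, 2845415833⟩]]

noncomputable def f_A00mm_022_s3 : ℕ → ℕ → ℕ → ℕ → Bool := onCell 0 536870912 0 536870912 923417968 42949674
    (rowF 0 true false false .pp 0 2 2 (qsf 0 536870912 0 536870912 2) ndB0q0 ndB0q2 pcB2 cut_A00mm_022_s3 Ext.none)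

def k0_A00mm_022_s3 : ∃ t, chk3 f_A00mm_022_s3 t 1 1 1 = true :=
  ⟨(l 5), by decide +kernel⟩

theorem c_A00mm_022_s3 : CertF 0 536870912 0 536870912 923417968 42949674 true false false .pp 0 2 2
    ndB0q0 ndB0q2 pcB2 cut_A00mm_022_s3 Ext.none :=
  certF0 (fam := true) (s1 := false) (s2 := false) (a := 0) (b := 2) (c := 2) (cn := .pp) (n1 := ndB0q0) (n2 := ndB0q2) (pc := pcB2) (cut := cut_A00mm_022_s3) (xt := Ext.none) (P1 := 0) (W1 := 536870912) (P2 := 0) (W2 := 536870912) (P3 := 923417968) (W3 := 42949674)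
    rfl k0_A00mm_022_s3

theorem s_A00mm_022_s3 {κ x : ℝ} (hκ : κ * h0 = ken x) (hx : ((923417968 : ℕ) : ℝ) / S ≤ x)
    (hx' : x ≤ (((923417968 : ℕ) : ℝ) + (42949674 : ℕ)) / S) :
    AltA (VFD κ) PP tK tL pcB [⟨4, 0, 0, 2845415833⟩] 0 2 2 0 0 (sgb false) (sgb false) x :=
  strip_altAD (m := 2845415833) false rfl hκ (SH.κ0 hκ (SH.hx1 hx).le (SH.hx2 hx').le) (SH.hx1 hx).le (SH.hx2 hx') (covB00).cov (covB02).cov hx hx' c_A00mm_022_s3 cutA_nil (noExt_A)

noncomputable def cut_A00mm_023_s1 : Cut := Cut.of [[⟨4, 0, 0, 1449551462⟩]]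

noncomputable def f_A00mm_023_s1 : ℕ → ℕ → ℕ → ℕ → Bool := onCell 0 536870912 0 536870912 923417968 42949674
    (rowF 0 true false false .up 0 2 3 (qsf 0 536870912 0 536870912 3) ndB0q0 ndB0q2 pcB3 cut_A00mm_023_s1 Ext.none)

def k0_A00mm_023_s1 : ∃ t, chk3 f_A00mm_023_s1 t 1 1 1 = true :=
  ⟨(l 5), by decide +kernel⟩

theorem c_A00mm_023_s1 : CertF 0 536870912 0 536870912 923417968 42949674 true false false .up 0 2 3
    ndB0q0 ndB0q2 pcB3 cut_A00mm_023_s1 Ext.none :=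
  certF0 (fam := true) (s1 := false) (s2 := false) (a := 0) (b := 2) (c := 3) (cn := .up) (n1 := ndB0q0) (n2 := ndB0q2) (pc := pcB3) (cut := cut_A00mm_023_s1) (xt := Ext.none) (P1 := 0) (W1 := 536870912) (P2 := 0) (W2 := 536870912) (P3 := 923417968) (W3 := 42949674)
    rfl k0_A00mm_023_s1

theorem s_A00mm_023_s1 {κ x : ℝ} (hκ : κ * h0 = ken x) (hx : ((923417968 : ℕ) : ℝ) / S ≤ x)
    (hx' : x ≤ (((923417968 : ℕ) : ℝ) + (42949674 : ℕ)) / S) :
    AltA (VFD κ) PP tK tL pcB [⟨3, 0, 0, 1449551462⟩] 0 2 3 0 0 (sgb false) (sgb false) x :=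
  strip_altAD (m := 1449551462) true rfl hκ (SH.κ0 hκ (SH.hx1 hx).le (SH.hx2 hx').le) (SH.hx1 hx).le (SH.hx2 hx') (covB00).cov (covB02).cov hx hx' c_A00mm_023_s1 cutA_nil (noExt_A)

noncomputable def cut_A00mm_023_s3 : Cut := Cut.of [[⟨3, 0, 0, 2845415833⟩]]

noncomputable def f_A00mm_023_s3 : ℕ → ℕ → ℕ → ℕ → Bool := onCell 0 536870912 0 536870912 923417968 42949674
    (rowF 0 true false false .up 0 2 3 (qsf 0 536870912 0 536870912 3) ndB0q0 ndB0q2 pcB3 cut_A00mm_023_s3 Ext.none)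

def k0_A00mm_023_s3 : ∃ t, chk3 f_A00mm_023_s3 t 1 1 1 = true :=
  ⟨(l 5), by decide +kernel⟩

theorem c_A00mm_023_s3 : CertF 0 536870912 0 536870912 923417968 42949674 true false false .up 0 2 3
    ndB0q0 ndB0q2 pcB3 cut_A00mm_023_s3 Ext.none :=
  certF0 (fam := true) (s1 := false) (s2 := false) (a := 0) (b := 2) (c := 3) (cn := .up) (n1 := ndB0q0) (n2 := ndB0q2) (pc := pcB3) (cut := cut_A00mm_023_s3) (xt := Ext.none) (P1 := 0) (W1 := 536870912) (P2 := 0) (W2 := 536870912) (P3 := 923417968) (W3 := 42949674)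
    rfl k0_A00mm_023_s3

theorem s_A00mm_023_s3 {κ x : ℝ} (hκ : κ * h0 = ken x) (hx : ((923417968 : ℕ) : ℝ) / S ≤ x)
    (hx' : x ≤ (((923417968 : ℕ) : ℝ) + (42949674 : ℕ)) / S) :
    AltA (VFD κ) PP tK tL pcB [⟨4, 0, 0, 2845415833⟩] 0 2 3 0 0 (sgb false) (sgb false) x :=
  strip_altAD (m := 2845415833) false rfl hκ (SH.κ0 hκ (SH.hx1 hx).le (SH.hx2 hx').le) (SH.hx1 hx).le (SH.hx2 hx') (covB00).cov (covB02).cov hx hx' c_A00mm_023_s3 cutA_nil (noExt_A)

noncomputable def cut_A00mm_101_s1 : Cut := Cut.of [[⟨4, 0, 0, 1449551462⟩], [⟨0, 1, 0, 67108864⟩, ⟨1, 0, 0, 67108864⟩, ⟨2, 1, 0, 67108864⟩]]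

noncomputable def f_A00mm_101_s1 : ℕ → ℕ → ℕ → ℕ → Bool := onCell 536870912 536870912 0 536870912 923417968 42949674
    (rowF 0 true false false .npn 1 0 1 (qsf 536870912 536870912 0 536870912 1) ndB0q1 ndB0q0 pcB1 cut_A00mm_101_s1 Ext.none)

def k0_A00mm_101_s1 : ∃ t, chk3 f_A00mm_101_s1 t 1 1 1 = true :=
  ⟨(l 6), by decide +kernel⟩

theorem c_A00mm_101_s1 : CertF 536870912 536870912 0 536870912 923417968 42949674 true false false .npn 1 0 1
    ndB0q1 ndB0q0 pcB1 cut_A00mm_101_s1 Ext.none :=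
  certF0 (fam := true) (s1 := false) (s2 := false) (a := 1) (b := 0) (c := 1) (cn := .npn) (n1 := ndB0q1) (n2 := ndB0q0) (pc := pcB1) (cut := cut_A00mm_101_s1) (xt := Ext.none) (P1 := 536870912) (W1 := 536870912) (P2 := 0) (W2 := 536870912) (P3 := 923417968) (W3 := 42949674)
    rfl k0_A00mm_101_s1

theorem s_A00mm_101_s1 {κ x : ℝ} (hκ : κ * h0 = ken x) (hx : ((923417968 : ℕ) : ℝ) / S ≤ x)
    (hx' : x ≤ (((923417968 : ℕ) : ℝ) + (42949674 : ℕ)) / S)
    (H : CutA (VFD κ) PP tK tL pcB (Cut.of [[⟨0, 1, 0, 67108864⟩, ⟨1, 0, 0, 67108864⟩, ⟨2, 1, 0, 67108864⟩]]) 1 0 1 0 0 (sgb false) (sgb false) x) :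
    AltA (VFD κ) PP tK tL pcB [⟨3, 0, 0, 1449551462⟩] 1 0 1 0 0 (sgb false) (sgb false) x :=
  strip_altAD (m := 1449551462) true rfl hκ (SH.κ0 hκ (SH.hx1 hx).le (SH.hx2 hx').le) (SH.hx1 hx).le (SH.hx2 hx') (covB01).cov (covB00).cov hx hx' c_A00mm_101_s1 H (noExt_A)

noncomputable def cut_A00mm_101_s3 : Cut := Cut.of [[⟨3, 0, 0, 2845415833⟩], [⟨0, 1, 0, 67108864⟩, ⟨1, 0, 0, 67108864⟩, ⟨2, 1, 0, 67108864⟩]]

noncomputable def f_A00mm_101_s3 : ℕ → ℕ → ℕ → ℕ → Bool := onCell 536870912 536870912 0 536870912 923417968 42949674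
    (rowF 0 true false false .npn 1 0 1 (qsf 536870912 536870912 0 536870912 1) ndB0q1 ndB0q0 pcB1 cut_A00mm_101_s3 Ext.none)

def k0_A00mm_101_s3 : ∃ t, chk3 f_A00mm_101_s3 t 1 1 1 = true :=
  ⟨(a (l 4) (b (a (l 4) (b (a (l 4) (b (a (l 4) (b (l 14) (l 4))) (l 4))) (l 4))) (l 4))), by decide +kernel⟩

theorem c_A00mm_101_s3 : CertF 536870912 536870912 0 536870912 923417968 42949674 true false false .npn 1 0 1
    ndB0q1 ndB0q0 pcB1 cut_A00mm_101_s3 Ext.none :=
  certF0 (fam := true) (s1 := false) (s2 := false) (a := 1) (b := 0) (c := 1) (cn := .npn) (n1 := ndB0q1) (n2 := ndB0q0) (pc := pcB1) (cut := cut_A00mm_101_s3) (xt := Ext.none) (P1 := 536870912) (W1 := 536870912) (P2 := 0) (W2 := 536870912) (P3 := 923417968) (W3 := 42949674)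
    rfl k0_A00mm_101_s3

theorem s_A00mm_101_s3 {κ x : ℝ} (hκ : κ * h0 = ken x) (hx : ((923417968 : ℕ) : ℝ) / S ≤ x)
    (hx' : x ≤ (((923417968 : ℕ) : ℝ) + (42949674 : ℕ)) / S)
    (H : CutA (VFD κ) PP tK tL pcB (Cut.of [[⟨0, 1, 0, 67108864⟩, ⟨1, 0, 0, 67108864⟩, ⟨2, 1, 0, 67108864⟩]]) 1 0 1 0 0 (sgb false) (sgb false) x) :
    AltA (VFD κ) PP tK tL pcB [⟨4, 0, 0, 2845415833⟩] 1 0 1 0 0 (sgb false) (sgb false) x :=
  strip_altAD (m := 2845415833) false rfl hκ (SH.κ0 hκ (SH.hx1 hx).le (SH.hx2 hx').le) (SH.hx1 hx).le (SH.hx2 hx') (covB01).cov (covB00).cov hx hx' c_A00mm_101_s3 H (noExt_A)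

noncomputable def cut_A00mm_102_s1 : Cut := Cut.of [[⟨4, 0, 0, 1449551462⟩], [⟨0, 1, 0, 67108864⟩, ⟨1, 0, 0, 67108864⟩, ⟨2, 1, 0, 67108864⟩]]

noncomputable def f_A00mm_102_s1 : ℕ → ℕ → ℕ → ℕ → Bool := onCell 536870912 536870912 0 536870912 923417968 42949674
    (rowF 0 true false false .npp 1 0 2 (qsf 536870912 536870912 0 536870912 2) ndB0q1 ndB0q0 pcB2 cut_A00mm_102_s1 Ext.none)

def k0_A00mm_102_s1 : ∃ t, chk3 f_A00mm_102_s1 t 1 1 1 = true :=
  ⟨(l 6), by decide +kernel⟩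

theorem c_A00mm_102_s1 : CertF 536870912 536870912 0 536870912 923417968 42949674 true false false .npp 1 0 2
    ndB0q1 ndB0q0 pcB2 cut_A00mm_102_s1 Ext.none :=
  certF0 (fam := true) (s1 := false) (s2 := false) (a := 1) (b := 0) (c := 2) (cn := .npp) (n1 := ndB0q1) (n2 := ndB0q0) (pc := pcB2) (cut := cut_A00mm_102_s1) (xt := Ext.none) (P1 := 536870912) (W1 := 536870912) (P2 := 0) (W2 := 536870912) (P3 := 923417968) (W3 := 42949674)
    rfl k0_A00mm_102_s1

theorem s_A00mm_102_s1 {κ x : ℝ} (hκ : κ * h0 = ken x) (hx : ((923417968 : ℕ) : ℝ) / S ≤ x)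
    (hx' : x ≤ (((923417968 : ℕ) : ℝ) + (42949674 : ℕ)) / S)
    (H : CutA (VFD κ) PP tK tL pcB (Cut.of [[⟨0, 1, 0, 67108864⟩, ⟨1, 0, 0, 67108864⟩, ⟨2, 1, 0, 67108864⟩]]) 1 0 2 0 0 (sgb false) (sgb false) x) :
    AltA (VFD κ) PP tK tL pcB [⟨3, 0, 0, 1449551462⟩] 1 0 2 0 0 (sgb false) (sgb false) x :=
  strip_altAD (m := 1449551462) true rfl hκ (SH.κ0 hκ (SH.hx1 hx).le (SH.hx2 hx').le) (SH.hx1 hx).le (SH.hx2 hx') (covB01).cov (covB00).cov hx hx' c_A00mm_102_s1 H (noExt_A)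

noncomputable def cut_A00mm_102_s3 : Cut := Cut.of [[⟨3, 0, 0, 2845415833⟩], [⟨0, 1, 0, 67108864⟩, ⟨1, 0, 0, 67108864⟩, ⟨2, 1, 0, 67108864⟩]]

noncomputable def f_A00mm_102_s3 : ℕ → ℕ → ℕ → ℕ → Bool := onCell 536870912 536870912 0 536870912 923417968 42949674
    (rowF 0 true false false .npp 1 0 2 (qsf 536870912 536870912 0 536870912 2) ndB0q1 ndB0q0 pcB2 cut_A00mm_102_s3 Ext.none)

def k0_A00mm_102_s3 : ∃ t, chk3 f_A00mm_102_s3 t 1 1 1 = true :=
  ⟨(a (l 4) (b (a (l 4) (b (a (l 4) (a (l 4) (b (b (l 14) (l 4)) (l 4)))) (l 4))) (l 4))), by decide +kernel⟩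

theorem c_A00mm_102_s3 : CertF 536870912 536870912 0 536870912 923417968 42949674 true false false .npp 1 0 2
    ndB0q1 ndB0q0 pcB2 cut_A00mm_102_s3 Ext.none :=
  certF0 (fam := true) (s1 := false) (s2 := false) (a := 1) (b := 0) (c := 2) (cn := .npp) (n1 := ndB0q1) (n2 := ndB0q0) (pc := pcB2) (cut := cut_A00mm_102_s3) (xt := Ext.none) (P1 := 536870912) (W1 := 536870912) (P2 := 0) (W2 := 536870912) (P3 := 923417968) (W3 := 42949674)
    rfl k0_A00mm_102_s3

theorem s_A00mm_102_s3 {κ x : ℝ} (hκ : κ * h0 = ken x) (hx : ((923417968 : ℕ) : ℝ) / S ≤ x)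
    (hx' : x ≤ (((923417968 : ℕ) : ℝ) + (42949674 : ℕ)) / S)
    (H : CutA (VFD κ) PP tK tL pcB (Cut.of [[⟨0, 1, 0, 67108864⟩, ⟨1, 0, 0, 67108864⟩, ⟨2, 1, 0, 67108864⟩]]) 1 0 2 0 0 (sgb false) (sgb false) x) :
    AltA (VFD κ) PP tK tL pcB [⟨4, 0, 0, 2845415833⟩] 1 0 2 0 0 (sgb false) (sgb false) x :=
  strip_altAD (m := 2845415833) false rfl hκ (SH.κ0 hκ (SH.hx1 hx).le (SH.hx2 hx').le) (SH.hx1 hx).le (SH.hx2 hx') (covB01).cov (covB00).cov hx hx' c_A00mm_102_s3 H (noExt_A)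

noncomputable def cut_A00mm_112_s1 : Cut := Cut.of [[⟨4, 0, 0, 1449551462⟩]]

noncomputable def f_A00mm_112_s1 : ℕ → ℕ → ℕ → ℕ → Bool := onCell 536870912 536870912 536870912 536870912 923417968 42949674
    (rowF 0 true false false .dn 1 1 2 (qsf 536870912 536870912 536870912 536870912 2) ndB0q1 ndB0q1 pcB2 cut_A00mm_112_s1 Ext.none)

def k0_A00mm_112_s1 : ∃ t, chk3 f_A00mm_112_s1 t 1 1 1 = true :=
  ⟨(l 4), by decide +kernel⟩

theorem c_A00mm_112_s1 : CertF 536870912 536870912 536870912 536870912 923417968 42949674 true false false .dn 1 1 2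
    ndB0q1 ndB0q1 pcB2 cut_A00mm_112_s1 Ext.none :=
  certF0 (fam := true) (s1 := false) (s2 := false) (a := 1) (b := 1) (c := 2) (cn := .dn) (n1 := ndB0q1) (n2 := ndB0q1) (pc := pcB2) (cut := cut_A00mm_112_s1) (xt := Ext.none) (P1 := 536870912) (W1 := 536870912) (P2 := 536870912) (W2 := 536870912) (P3 := 923417968) (W3 := 42949674)
    rfl k0_A00mm_112_s1

theorem s_A00mm_112_s1 {κ x : ℝ} (hκ : κ * h0 = ken x) (hx : ((923417968 : ℕ) : ℝ) / S ≤ x)
    (hx' : x ≤ (((923417968 : ℕ) : ℝ) + (42949674 : ℕ)) / S) :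
    AltA (VFD κ) PP tK tL pcB [⟨3, 0, 0, 1449551462⟩] 1 1 2 0 0 (sgb false) (sgb false) x :=
  strip_altAD (m := 1449551462) true rfl hκ (SH.κ0 hκ (SH.hx1 hx).le (SH.hx2 hx').le) (SH.hx1 hx).le (SH.hx2 hx') (covB01).cov (covB01).cov hx hx' c_A00mm_112_s1 cutA_nil (noExt_A)

noncomputable def cut_A00mm_112_s3 : Cut := Cut.of [[⟨3, 0, 0, 2845415833⟩]]

noncomputable def f_A00mm_112_s3 : ℕ → ℕ → ℕ → ℕ → Bool := onCell 536870912 536870912 536870912 536870912 923417968 42949674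
    (rowF 0 true false false .dn 1 1 2 (qsf 536870912 536870912 536870912 536870912 2) ndB0q1 ndB0q1 pcB2 cut_A00mm_112_s3 Ext.none)

def k0_A00mm_112_s3 : ∃ t, chk3 f_A00mm_112_s3 t 1 1 1 = true :=
  ⟨(l 4), by decide +kernel⟩

theorem c_A00mm_112_s3 : CertF 536870912 536870912 536870912 536870912 923417968 42949674 true false false .dn 1 1 2
    ndB0q1 ndB0q1 pcB2 cut_A00mm_112_s3 Ext.none :=
  certF0 (fam := true) (s1 := false) (s2 := false) (a := 1) (b := 1) (c := 2) (cn := .dn) (n1 := ndB0q1) (n2 := ndB0q1) (pc := pcB2) (cut := cut_A00mm_112_s3) (xt := Ext.none) (P1 := 536870912) (W1 := 536870912) (P2 := 536870912) (W2 := 536870912) (P3 := 923417968) (W3 := 42949674)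
    rfl k0_A00mm_112_s3

theorem s_A00mm_112_s3 {κ x : ℝ} (hκ : κ * h0 = ken x) (hx : ((923417968 : ℕ) : ℝ) / S ≤ x)
    (hx' : x ≤ (((923417968 : ℕ) : ℝ) + (42949674 : ℕ)) / S) :
    AltA (VFD κ) PP tK tL pcB [⟨4, 0, 0, 2845415833⟩] 1 1 2 0 0 (sgb false) (sgb false) x :=
  strip_altAD (m := 2845415833) false rfl hκ (SH.κ0 hκ (SH.hx1 hx).le (SH.hx2 hx').le) (SH.hx1 hx).le (SH.hx2 hx') (covB01).cov (covB01).cov hx hx' c_A00mm_112_s3 cutA_nil (noExt_A)

noncomputable def cut_A00mm_113_s1 : Cut := Cut.of [[⟨4, 0, 0, 1449551462⟩]]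

noncomputable def f_A00mm_113_s1 : ℕ → ℕ → ℕ → ℕ → Bool := onCell 536870912 536870912 536870912 536870912 923417968 42949674
    (rowF 0 true false false .nn 1 1 3 (qsf 536870912 536870912 536870912 536870912 3) ndB0q1 ndB0q1 pcB3 cut_A00mm_113_s1 Ext.none)

def k0_A00mm_113_s1 : ∃ t, chk3 f_A00mm_113_s1 t 1 1 1 = true :=
  ⟨(l 4), by decide +kernel⟩

theorem c_A00mm_113_s1 : CertF 536870912 536870912 536870912 536870912 923417968 42949674 true false false .nn 1 1 3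
    ndB0q1 ndB0q1 pcB3 cut_A00mm_113_s1 Ext.none :=
  certF0 (fam := true) (s1 := false) (s2 := false) (a := 1) (b := 1) (c := 3) (cn := .nn) (n1 := ndB0q1) (n2 := ndB0q1) (pc := pcB3) (cut := cut_A00mm_113_s1) (xt := Ext.none) (P1 := 536870912) (W1 := 536870912) (P2 := 536870912) (W2 := 536870912) (P3 := 923417968) (W3 := 42949674)
    rfl k0_A00mm_113_s1

theorem s_A00mm_113_s1 {κ x : ℝ} (hκ : κ * h0 = ken x) (hx : ((923417968 : ℕ) : ℝ) / S ≤ x)
    (hx' : x ≤ (((923417968 : ℕ) : ℝ) + (42949674 : ℕ)) / S) :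
    AltA (VFD κ) PP tK tL pcB [⟨3, 0, 0, 1449551462⟩] 1 1 3 0 0 (sgb false) (sgb false) x :=
  strip_altAD (m := 1449551462) true rfl hκ (SH.κ0 hκ (SH.hx1 hx).le (SH.hx2 hx').le) (SH.hx1 hx).le (SH.hx2 hx') (covB01).cov (covB01).cov hx hx' c_A00mm_113_s1 cutA_nil (noExt_A)

noncomputable def cut_A00mm_113_s3 : Cut := Cut.of [[⟨3, 0, 0, 2845415833⟩]]

noncomputable def f_A00mm_113_s3 : ℕ → ℕ → ℕ → ℕ → Bool := onCell 536870912 536870912 536870912 536870912 923417968 42949674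
    (rowF 0 true false false .nn 1 1 3 (qsf 536870912 536870912 536870912 536870912 3) ndB0q1 ndB0q1 pcB3 cut_A00mm_113_s3 Ext.none)

def k0_A00mm_113_s3 : ∃ t, chk3 f_A00mm_113_s3 t 1 1 1 = true :=
  ⟨(l 4), by decide +kernel⟩

theorem c_A00mm_113_s3 : CertF 536870912 536870912 536870912 536870912 923417968 42949674 true false false .nn 1 1 3
    ndB0q1 ndB0q1 pcB3 cut_A00mm_113_s3 Ext.none :=
  certF0 (fam := true) (s1 := false) (s2 := false) (a := 1) (b := 1) (c := 3) (cn := .nn) (n1 := ndB0q1) (n2 := ndB0q1) (pc := pcB3) (cut := cut_A00mm_113_s3) (xt := Ext.none) (P1 := 536870912) (W1 := 536870912) (P2 := 536870912) (W2 := 536870912) (P3 := 923417968) (W3 := 42949674)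
    rfl k0_A00mm_113_s3

theorem s_A00mm_113_s3 {κ x : ℝ} (hκ : κ * h0 = ken x) (hx : ((923417968 : ℕ) : ℝ) / S ≤ x)
    (hx' : x ≤ (((923417968 : ℕ) : ℝ) + (42949674 : ℕ)) / S) :
    AltA (VFD κ) PP tK tL pcB [⟨4, 0, 0, 2845415833⟩] 1 1 3 0 0 (sgb false) (sgb false) x :=
  strip_altAD (m := 2845415833) false rfl hκ (SH.κ0 hκ (SH.hx1 hx).le (SH.hx2 hx').le) (SH.hx1 hx).le (SH.hx2 hx') (covB01).cov (covB01).cov hx hx' c_A00mm_113_s3 cutA_nil (noExt_A)

noncomputable def cut_A00mm_123_s1 : Cut := Cut.of [[⟨4, 0, 0, 1449551462⟩]]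

noncomputable def f_A00mm_123_s1 : ℕ → ℕ → ℕ → ℕ → Bool := onCell 536870912 536870912 0 536870912 923417968 42949674
    (rowF 0 true false false .npn 1 2 3 (qsf 536870912 536870912 0 536870912 3) ndB0q1 ndB0q2 pcB3 cut_A00mm_123_s1 Ext.none)

def k0_A00mm_123_s1 : ∃ t, chk3 f_A00mm_123_s1 t 1 1 1 = true :=
  ⟨(l 6), by decide +kernel⟩

theorem c_A00mm_123_s1 : CertF 536870912 536870912 0 536870912 923417968 42949674 true false false .npn 1 2 3
    ndB0q1 ndB0q2 pcB3 cut_A00mm_123_s1 Ext.none :=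
  certF0 (fam := true) (s1 := false) (s2 := false) (a := 1) (b := 2) (c := 3) (cn := .npn) (n1 := ndB0q1) (n2 := ndB0q2) (pc := pcB3) (cut := cut_A00mm_123_s1) (xt := Ext.none) (P1 := 536870912) (W1 := 536870912) (P2 := 0) (W2 := 536870912) (P3 := 923417968) (W3 := 42949674)
    rfl k0_A00mm_123_s1

theorem s_A00mm_123_s1 {κ x : ℝ} (hκ : κ * h0 = ken x) (hx : ((923417968 : ℕ) : ℝ) / S ≤ x)
    (hx' : x ≤ (((923417968 : ℕ) : ℝ) + (42949674 : ℕ)) / S) :
    AltA (VFD κ) PP tK tL pcB [⟨3, 0, 0, 1449551462⟩] 1 2 3 0 0 (sgb false) (sgb false) x :=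
  strip_altAD (m := 1449551462) true rfl hκ (SH.κ0 hκ (SH.hx1 hx).le (SH.hx2 hx').le) (SH.hx1 hx).le (SH.hx2 hx') (covB01).cov (covB02).cov hx hx' c_A00mm_123_s1 cutA_nil (noExt_A)

noncomputable def cut_A00mm_123_s3 : Cut := Cut.of [[⟨3, 0, 0, 2845415833⟩]]

noncomputable def f_A00mm_123_s3 : ℕ → ℕ → ℕ → ℕ → Bool := onCell 536870912 536870912 0 536870912 923417968 42949674
    (rowF 0 true false false .npn 1 2 3 (qsf 536870912 536870912 0 536870912 3) ndB0q1 ndB0q2 pcB3 cut_A00mm_123_s3 Ext.none)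

def k0_A00mm_123_s3 : ∃ t, chk3 f_A00mm_123_s3 t 1 1 1 = true :=
  ⟨(a (l 5) (l 4)), by decide +kernel⟩

theorem c_A00mm_123_s3 : CertF 536870912 536870912 0 536870912 923417968 42949674 true false false .npn 1 2 3
    ndB0q1 ndB0q2 pcB3 cut_A00mm_123_s3 Ext.none :=
  certF0 (fam := true) (s1 := false) (s2 := false) (a := 1) (b := 2) (c := 3) (cn := .npn) (n1 := ndB0q1) (n2 := ndB0q2) (pc := pcB3) (cut := cut_A00mm_123_s3) (xt := Ext.none) (P1 := 536870912) (W1 := 536870912) (P2 := 0) (W2 := 536870912) (P3 := 923417968) (W3 := 42949674)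
    rfl k0_A00mm_123_s3

theorem s_A00mm_123_s3 {κ x : ℝ} (hκ : κ * h0 = ken x) (hx : ((923417968 : ℕ) : ℝ) / S ≤ x)
    (hx' : x ≤ (((923417968 : ℕ) : ℝ) + (42949674 : ℕ)) / S) :
    AltA (VFD κ) PP tK tL pcB [⟨4, 0, 0, 2845415833⟩] 1 2 3 0 0 (sgb false) (sgb false) x :=
  strip_altAD (m := 2845415833) false rfl hκ (SH.κ0 hκ (SH.hx1 hx).le (SH.hx2 hx').le) (SH.hx1 hx).le (SH.hx2 hx') (covB01).cov (covB02).cov hx hx' c_A00mm_123_s3 cutA_nil (noExt_A)

noncomputable def cut_A00mm_202_s1 : Cut := Cut.of [[⟨4, 0, 0, 1449551462⟩], [⟨0, 1, 0, 67108864⟩, ⟨1, 0, 0, 67108864⟩, ⟨2, 1, 0, 67108864⟩]]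

noncomputable def f_A00mm_202_s1 : ℕ → ℕ → ℕ → ℕ → Bool := onCell 0 536870912 0 536870912 923417968 42949674
    (rowF 0 true false false .pp 2 0 2 (qsf 0 536870912 0 536870912 2) ndB0q2 ndB0q0 pcB2 cut_A00mm_202_s1 Ext.none)

def k0_A00mm_202_s1 : ∃ t, chk3 f_A00mm_202_s1 t 1 1 1 = true :=
  ⟨(l 6), by decide +kernel⟩

theorem c_A00mm_202_s1 : CertF 0 536870912 0 536870912 923417968 42949674 true false false .pp 2 0 2
    ndB0q2 ndB0q0 pcB2 cut_A00mm_202_s1 Ext.none :=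
  certF0 (fam := true) (s1 := false) (s2 := false) (a := 2) (b := 0) (c := 2) (cn := .pp) (n1 := ndB0q2) (n2 := ndB0q0) (pc := pcB2) (cut := cut_A00mm_202_s1) (xt := Ext.none) (P1 := 0) (W1 := 536870912) (P2 := 0) (W2 := 536870912) (P3 := 923417968) (W3 := 42949674)
    rfl k0_A00mm_202_s1

theorem s_A00mm_202_s1 {κ x : ℝ} (hκ : κ * h0 = ken x) (hx : ((923417968 : ℕ) : ℝ) / S ≤ x)
    (hx' : x ≤ (((923417968 : ℕ) : ℝ) + (42949674 : ℕ)) / S)
    (H : CutA (VFD κ) PP tK tL pcB (Cut.of [[⟨0, 1, 0, 67108864⟩, ⟨1, 0, 0, 67108864⟩, ⟨2, 1, 0, 67108864⟩]]) 2 0 2 0 0 (sgb false) (sgb false) x) :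
    AltA (VFD κ) PP tK tL pcB [⟨3, 0, 0, 1449551462⟩] 2 0 2 0 0 (sgb false) (sgb false) x :=
  strip_altAD (m := 1449551462) true rfl hκ (SH.κ0 hκ (SH.hx1 hx).le (SH.hx2 hx').le) (SH.hx1 hx).le (SH.hx2 hx') (covB02).cov (covB00).cov hx hx' c_A00mm_202_s1 H (noExt_A)

noncomputable def cut_A00mm_202_s3 : Cut := Cut.of [[⟨3, 0, 0, 2845415833⟩], [⟨0, 1, 0, 67108864⟩, ⟨1, 0, 0, 67108864⟩, ⟨2, 1, 0, 67108864⟩]]

noncomputable def xt_A00mm_202_s3 : Ext := strExt dd true false false .u2 .u0m .s2m .pp 2 0 2 rfl rfl gl2 vv ndB0q2 ndB0q0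

noncomputable def f_A00mm_202_s3 : ℕ → ℕ → ℕ → ℕ → Bool := onCell 0 536870912 0 536870912 923417968 42949674
    (rowF 0 true false false .pp 2 0 2 (qsf 0 536870912 0 536870912 2) ndB0q2 ndB0q0 pcB2 cut_A00mm_202_s3 xt_A00mm_202_s3)

def k0_A00mm_202_s3 : ∃ t, chk3 f_A00mm_202_s3 t 2 2 1 = true :=
  ⟨(b (b (l 6) (a (l 6) (a (l 6) (a (l 6) (b (b (l 6) (a (l 6) (l 16512144))) (b (a (l 16574232) (l 16550416)) (a (l 16567384) (l 16544880)))))))) (a (b (l 6) (a (l 6) (b (l 6) (a (l 6) (b (l 6) (l 16496912)))))) (b (a (b (l 6) (a (l 6) (b (l 16465064) (a (l 16477000) (l 16504040))))) (b (a (b (a (l 6) (l 16543544)) (a (l 16521040) (l 16460384))) (a (b (l 16564880) (l 16524888)) (b (c (l 16589928) (l 16581048)) (a (l 16541392) (l 16552208))))) (a (b (a (l 16524184) (l 16464712)) (a (l 16530288) (l 16513864))) (a (b (l 16530384) (b (l 16578328) (l 16583152))) (b (a (l 16547760) (l 16580128)) (b (l 16560304) (l 16565656)))))))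 (c (a (b (a (b (l 16453920) (l 16461952)) (b (l 16507856) (l 16517808))) (a (b (l 16472456) (l 16485400)) (b (l 16613904) (l 16628360)))) (a (b (b (l 16602208) (a (l 16558824) (l 16585144))) (a (b (l 16572368) (l 16587896)) (b (l 16599520) (l 16657744)))) (b (a (b (l 16597632) (l 16610800)) (b (l 16600816) (l 531862031))) (a (b (l 16615536) (l 531447823)) (b (l 531930895) (l 531472399)))))) (a (b (a (b (l 16428288) (l 16436200)) (b (l 16487256) (l 16581144))) (a (b (l 16446896) (l 16460344)) (b (l 16593712) (a (l 16508976) (l 16541144))))) (a (b (b (a (l 16530584) (l 16558312)) (a (l 16542112) (l 16570848))) (a (b (l 16556136) (l 16572416)) (b (l 16585784) (l 16592400)))) (b (a (b (l 16585296) (l 16577848)) (b (b (l 16608352) (l 16615008)) (b (l 16622272) (l 16630104)))) (a (b (l 531249423) (l 531025167)) (b (b (l 16638496) (l 16689344)) (a (l 531056399) (l 531074831))))))))))), by decide +kernel⟩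

def k1_A00mm_202_s3 : ∃ t, chk3 f_A00mm_202_s3 t 12 16 1 = true :=
  ⟨(a (l 6) (a (l 6) (a (b (l 6) (b (l 6) (c (l 16486256) (l 16456424)))) (b (a (l 6) (b (l 6) (c (l 16458048) (l 16446360)))) (b (c (l 16475352) (b (l 16459760) (l 16470256))) (c (l 16494752) (l 16464960))))))), by decide +kernel⟩

def k2_A00mm_202_s3 : ∃ t, chk3 f_A00mm_202_s3 t 26 16 1 = true :=
  ⟨(b (b (a (c (a (b (l 6) (l 16450648)) (b (l 16451184) (l 16460856))) (b (a (l 6) (l 16438624)) (a (l 16438240) (l 16448728)))) (c (a (b (l 16461904) (l 16471408)) (b (l 16472968) (l 16482320))) (b (a (l 16449704) (l 16461192)) (a (l 16459616) (l 16470912))))) (b (a (c (a (l 16460416) (l 16470456)) (a (l 16448568) (l 16458848))) (c (a (l 16480856) (l 16491616)) (a (l 16469536) (l 16480640)))) (a (c (a (l 16470136) (l 16480000)) (a (l 16458904) (l 16468976))) (c (a (l 16490232) (l 16500832)) (a (l 16479464) (l 16490368)))))) (a (b (c (a (b (l 16479784) (l 16489368))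 (b (l 16489472) (l 16498872))) (a (b (l 16469224) (l 16479512)) (b (l 16479096) (l 16489176)))) (c (a (l 16482640) (l 16491880)) (a (b (l 16489760) (l 16499960)) (b (l 16499224) (l 16509208))))) (b (c (a (b (l 16499536) (l 16508768)) (b (l 16509976) (l 16519040))) (a (b (l 16489376) (l 16499264)) (c (l 16491640) (l 16486744)))) (c (a (b (l 16517920) (l 16527000)) (b (l 16528024) (l 16536928))) (a (b (l 16509104) (l 16518888)) (b (l 16519408) (l 16528992))))))), by decide +kernel⟩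

def k3_A00mm_202_s3 : ∃ t, chk3 f_A00mm_202_s3 t 27 16 1 = true :=
  ⟨(b (b (a (a (c (b (l 16484400) (l 16493600)) (b (l 16473088) (l 16482616))) (c (b (l 16496192) (l 16505256)) (b (l 16485392) (l 16494744)))) (a (c (b (l 16508352) (l 16517280)) (b (l 16498104) (l 16507288))) (c (b (l 16520888) (l 16529688)) (b (l 16511232) (l 16520256))))) (a (c (a (b (l 16502744) (l 16511808)) (b (l 16514248) (l 16523176))) (a (b (l 16492160) (l 16501696)) (c (l 16495584) (l 16490512)))) (c (b (a (l 16526136) (l 16538416)) (a (l 16534928) (l 16547072))) (a (c (l 16507752) (l 16502920)) (b (l 16529288) (l 16538296)))))) (a (b (b (a (c (l 16520800) (l 16511216)) (c (l 16532016) (l 16522784))) (c (a (l 16529712) (l 16540776)) (a (l 16520704) (l 16532088)))) (c (a (b (l 16538536) (l 16547264)) (b (l 16549448) (l 16558024))) (a (b (l 16530152) (l 16539544)) (c (l 16537456) (l 16533480))))) (a (c (b (b (l 16543632) (l 16552248)) (b (l 16560768)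 (l 16569200))) (b (c (l 16531072) (l 16526688)) (b (l 16552992) (l 16562008)))) (c (b (b (l 16555640) (l 16564128)) (b (l 16572512) (l 16580800))) (b (a (l 16538120) (l 16544424)) (b (l 16565104) (l 16573928))))))), by decide +kernel⟩

def k4_A00mm_202_s3 : ∃ t, chk3 f_A00mm_202_s3 t 12 17 1 = true :=
  ⟨(a (b (l 6) (a (l 6) (a (b (l 6) (l 16537296)) (b (l 16480184) (l 16542464))))) (b (a (b (c (l 16473280) (a (l 6) (l 16490808))) (c (l 16472024) (a (l 16505168) (l 16512032)))) (b (c (a (l 16505720) (l 16513832)) (a (l 16498512) (l 16485640))) (c (a (l 16524840) (l 16532576)) (a (l 16519288) (l 16505984))))) (b (a (c (l 16533304) (l 16529600)) (c (l 16536768) (a (l 16539648) (l 16525912)))) (a (c (l 16552232) (l 16550112)) (c (l 16565400) (c (l 16563504) (l 16562264))))))), by decide +kernel⟩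

def k5_A00mm_202_s3 : ∃ t, chk3 f_A00mm_202_s3 t 26 17 1 = true :=
  ⟨(b (a (b (c (a (l 16522320) (l 16510224)) (a (l 16504640) (b (l 16519128) (l 16528968)))) (c (a (l 16540680) (l 16528208)) (a (l 16524560) (l 16533072)))) (b (c (a (l 16524728) (b (l 16545744) (l 16554472))) (a (a (l 16510064) (l 16514856)) (a (l 16519760) (l 16535264)))) (c (a (l 16547600) (l 16556912)) (a (a (l 16529248) (l 16533832)) (a (l 16538528) (l 16543344)))))) (a (b (c (b (l 16537320) (l 16546112)) (a (l 16533560) (l 16552128))) (c (a (l 16576224) (l 16583960)) (a (l 16552528) (l 16581152)))) (a (b (c (l 16554344) (b (l 16566528) (l 16575720))) (c (l 16571144) (l 16589256))) (c (b (l 16573776) (l 16590208)) (b (a (l 16556856) (l 16561464)) (a (l 16574648) (l 16579048))))))), by decide +kernel⟩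

def k6_A00mm_202_s3 : ∃ t, chk3 f_A00mm_202_s3 t 27 17 1 = true :=
  ⟨(a (b (a (b (c (b (l 16555912) (l 16564472)) (a (l 16540392) (l 16545632))) (c (b (l 16572928) (l 16581288)) (c (l 16562640) (l 16559912)))) (c (b (b (l 16566504) (l 16574896)) (b (l 16583184) (l 16591368))) (a (b (l 16550992) (l 16568968)) (b (l 16556464) (l 16574248))))) (a (c (a (b (l 16591240) (l 16607400)) (b (l 16596040) (l 16612016))) (b (c (l 16569632) (l 16567584)) (a (l 16583568) (l 16588200)))) (c (a (b (l 16600944) (l 16616752)) (b (l 16585000) (l 16621592))) (b (a (l 16586480) (l 16591560)) (a (l 16592960) (l 16597840)))))) (b (b (a (c (b (l 16577520) (l 16585752)) (b (l 16570944) (l 16579800))) (c (b (l 16588976) (l 16597048)) (b (l 16582688) (l 16580872)))) (a (c (b (l 16593872) (l 16601896)) (b (l 16588552) (l 16597184))) (c (b (l 16605016) (l 16612872)) (c (l 16600144) (l 16602952))))) (b (a (c (b (l 16609808) (l 16617608)) (a (l 16596768)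 (l 16602096))) (c (b (l 16620624) (l 16628256)) (c (l 16621736) (l 16619896)))) (a (c (a (l 16605584) (l 16621152)) (a (l 16613328) (l 16628944))) (c (c (l 16640136) (l 16638840)) (a (l 16634200) (l 16639584))))))), by decide +kernel⟩

def k7_A00mm_202_s3 : ∃ t, chk3 f_A00mm_202_s3 t 12 9 1 = true :=
  ⟨(b (a (b (a (c (l 16476992) (l 16520392)) (c (l 16527496) (a (l 16484000) (l 16530296)))) (a (c (l 16598880) (l 16602848)) (c (l 16605880) (l 16566872)))) (a (b (a (b (l 16567520) (l 16586336)) (b (l 16552224) (l 16549656))) (c (b (l 16606192) (l 16623016)) (a (l 16572632) (l 16577072)))) (b (b (c (l 16583096) (a (l 16578736) (l 16585088))) (c (l 16600328) (l 16579280))) (a (c (l 16580400) (l 532768783)) (b (l 16599272) (l 16615544)))))) (a (b (a (c (l 16612184) (l 16607704)) (a (l 16580832) (l 16599680))) (a (a (l 16559080) (l 16568376)) (b (l 16582448) (l 16582024)))) (b (a (b (l 16619888) (c (l 16644120) (l 16641296)))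 (a (a (l 533204495) (l 533163023)) (a (l 533116687) (l 533070863)))) (a (a (l 532811535) (l 532812303)) (a (c (l 16656704) (l 533304591)) (c (l 16665512) (l 532773647))))))), by decide +kernel⟩

def k8_A00mm_202_s3 : ∃ t, chk3 f_A00mm_202_s3 t 26 9 1 = true :=
  ⟨(b (c (a (b (a (b (l 16593336) (l 16609984)) (b (l 16600696) (l 16616952))) (b (l 16608384) (l 16623648))) (b (a (b (l 16608472) (l 16624344)) (b (l 16616672) (l 16632168))) (a (b (l 16639648) (l 16654336)) (b (l 16647088) (l 16661384))))) (a (b (a (b (l 16591872) (l 16609560)) (b (l 16599088) (l 16616344))) (a (c (l 532574479) (l 532587791)) (b (l 16632896) (l 16648736)))) (b (a (b (l 16606760) (l 16623576)) (b (l 16609656) (l 16610312))) (a (b (l 16639696) (l 16655104)) (b (l 16646968) (l 16640960)))))) (a (b (a (b (l 16636328) (l 16650728)) (c (l 533144079) (l 532804879))) (a (c (l 16674232) (l 532781839)) (c (l 533400079) (l 532791311)))) (b (b (a (c (l 16626400)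 (l 16627800)) (c (l 16633064) (l 16655168))) (a (l 533189391) (l 532823823))) (a (b (l 533477135) (l 533003535)) (b (l 533217295) (l 532743439)))))), by decide +kernel⟩

def k9_A00mm_202_s3 : ∃ t, chk3 f_A00mm_202_s3 t 27 9 1 = true :=
  ⟨(b (a (b (c (a (b (l 16625320) (l 16640432)) (b (c (l 16634872) (l 16633960)) (b (l 16645520) (l 16652752)))) (a (b (c (l 16623960) (l 16623064)) (b (l 16635536) (l 16643336))) (b (c (l 16633056) (l 16632160)) (b (l 16644320) (l 16651904))))) (a (c (b (l 16654976) (l 16668880)) (b (l 16633752) (l 16648280))) (c (b (l 16663328) (l 16655872)) (b (b (l 16659320) (l 16666552)) (l 16656096))))) (b (a (c (b (a (l 16620560) (l 16646432)) (b (l 16654808) (l 16661856))) (b (b (l 16638304) (l 16646048)) (b (l 16653608) (l 16660984)))) (c (b (b (l 16650432) (l 16657568)) (b (l 16664584) (l 16671456))) (b (b (l 16648520) (l 16656056)) (b (l 16663408) (l 16670576))))) (a (c (b (b (l 16668752) (l 16675488))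 (l 532110863)) (a (b (l 16669472) (l 16683248)) (b (l 16673984) (l 16687536)))) (c (a (b (l 16679072) (l 16691928)) (b (l 16683856) (l 16686040))) (a (b (l 16678616) (l 16670992)) (b (l 16683392) (l 16675552))))))) (a (b (a (b (c (l 16661144) (l 16662040)) (c (l 16694632) (l 16695976))) (b (c (l 16668712) (l 532698895)) (c (l 16701816) (l 16697664)))) (a (b (l 532948239) (l 532753423)) (b (l 532848399) (l 532761871)))) (a (b (b (c (l 532574991) (l 532333583)) (a (l 532824335) (l 532776207))) (b (c (l 16715224) (l 533322767)) (c (l 533331983) (l 533276175)))) (c (b (b (l 532216591) (l 532952335)) (b (l 533156623) (l 533331983))) (b (a (l 532373519) (l 532327183)) (b (l 532954895) (l 533280271))))))), by decide +kernel⟩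

def k10_A00mm_202_s3 : ∃ t, chk3 f_A00mm_202_s3 t 28 16 1 = true :=
  ⟨(a (b (c (a (b (b (l 16533792) (l 16542480)) (b (l 16551088) (l 16559616))) (b (b (l 16547096) (l 16555664)) (b (l 16564168) (l 16572576)))) (a (b (b (l 16524768) (l 16533656)) (c (l 16538616) (l 16534320))) (b (b (l 16538728) (l 16547480)) (a (l 16546624) (l 16553528))))) (c (b (a (b (l 16568064) (l 16576416)) (b (l 16591392) (a (l 16585896) (l 16592360)))) (a (b (l 16584672) (l 16598064)) (b (l 16586784) (l 16594808)))) (a (b (b (l 16560192) (l 16568968)) (b (l 16577680) (l 16575848))) (b (b (l 16573576) (l 16582192)) (b (l 16580264) (l 16588744)))))) (a (c (b (b (b (l 16560608) (l 16569080)) (b (l 16577472) (l 16585784))) (b (b (l 16599248) (l 16591632)) (b (l 16599648) (a (l 16614832) (l 16621232))))) (b (b (b (l 16552928) (l 16561552)) (a (l 16560480) (l 16567424))) (b (b (l 16587248) (l 16595712)) (b (l 16593632) (l 16601960))))) (c (b (b (b (l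 16574112) (l 16582504)) (b (l 16590808) (l 16604264))) (b (b (l 16596656) (l 16604680)) (a (b (l 16619824) (l 16627648)) (b (l 16626320) (l 16634096))))) (b (b (b (l 16567112) (l 16575632)) (b (l 16584120) (l 16592568))) (b (b (l 16600968) (l 16598824)) (b (l 16607088) (a (l 16622408) (l 16629096)))))))), by decide +kernel⟩

def k11_A00mm_202_s3 : ∃ t, chk3 f_A00mm_202_s3 t 29 16 1 = true :=
  ⟨(a (a (c (b (b (b (l 14) (l 16596000)) (b (l 16614712) (l 16601880))) (b (b (l 16609920) (a (l 16625016) (l 16631648))) (b (l 16630920) (a (l 16640592) (l 16647136))))) (b (b (b (l 14) (l 16589792)) (b (l 16598184) (l 16606536))) (b (b (l 16604336) (l 16612560)) (a (c (l 16622584) (l 16620072)) (c (l 16629352) (l 16626968)))))) (c (b (b (l 14) (b (l 16607336) (a (l 16622472) (l 16629304)))) (a (b (b (l 16630456) (l 16638336)) (b (l 16646104) (l 16653752))) (b (b (l 16637256) (l 16645096)) (b (l 16652832) (l 16660440))))) (b (b (l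 14) (b (l 16601944) (l 16610208))) (b (b (l 16618408) (a (l 16633480) (l 16640536))) (b (a (l 16641544) (l 16648552)) (l 16653000)))))) (b (a (a (b (l 14) (b (l 14) (b (l 14) (l 16635872)))) (l 14)) (l 14)) (a (c (a (b (b (l 16644128) (l 16651944)) (b (l 16659640) (l 16667216))) (b (b (l 16651096) (l 16658880)) (b (l 16666552) (l 16674088)))) (b (b (a (l 16639616) (l 16646888)) (l 16651296)) (a (b (l 16655648) (l 16663520)) (b (l 16662840) (l 16670664))))) (c (a (b (b (l 14) (l 16665928)) (b (l 16673568) (l 16681080))) (b (b (l 14) (l 16673096)) (b (l 16691192) (l 16693432)))) (a (b (b (l 14) (l 16662256)) (b (l 16670144) (l 16677928))) (b (b (l 14) (l 16669728)) (b (l 16677576) (l 16674840)))))))), by decide +kernel⟩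

def k12_A00mm_202_s3 : ∃ t, chk3 f_A00mm_202_s3 t 15 16 1 = true :=
  ⟨(b (l 14) (b (a (l 14) (l 14)) (b (a (a (a (a (c (l 16693224) (l 16674664)) (c (c (l 16696032) (l 16694776)) (l 16692872))) (l 14)) (l 14)) (l 14)) (a (a (a (a (c (b (l 16693584) (l 16697280)) (l 16692856)) (c (c (l 16703408) (l 16702272)) (l 16700552))) (a (a (c (l 16703256) (l 16706424)) (c (l 530208527) (l 16705152))) (a (c (l 530164239) (l 16714408)) (l 14)))) (l 14)) (l 14))))), by decide +kernel⟩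

def k13_A00mm_202_s3 : ∃ t, chk3 f_A00mm_202_s3 t 56 17 1 = true :=
  ⟨(a (b (b (c (b (l 16590384) (l 16598312)) (b (l 16584424) (l 16592912))) (b (c (a (l 16613656) (l 16619568)) (l 16601304)) (c (l 16624312) (l 16609576)))) (b (c (b (l 16621416) (l 16628888)) (b (l 16617712) (l 16625712))) (c (b (l 16636240) (l 16643464)) (b (l 16633560) (l 16651736))))) (b (c (a (b (b (l 16610064) (l 16617888)) (b (l 16625600) (l 16633192))) (b (b (l 16616336) (l 16624104)) (b (l 16631744) (l 16639264)))) (a (b (b (l 16604384) (l 16612744)) (b (l 16620992) (l 16629136))) (b (b (l 16610864) (l 16619128)) (c (l 16621920) (l 16619792))))) (b (b (c (l 16638432) (a (l 16637136) (l 16643264))) (c (a (l 16648016) (l 16653936)) (l 16648024))) (c (a (b (l 16655248) (l 16662352)) (b (l 16661088) (l 16668112))) (b (l 16655688) (l 16663192)))))), by decide +kernel⟩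

def k14_A00mm_202_s3 : ∃ t, chk3 f_A00mm_202_s3 t 57 17 1 = true :=
  ⟨(a (b (c (b (a (b (l 16622656) (l 16630360)) (b (l 16629000) (l 16636640))) (a (b (l 16637944) (l 16645392)) (b (l 16644160) (l 16651552)))) (a (b (c (l 16612296) (l 16609736)) (b (l 16633656) (l 16641624))) (b (c (l 16618760) (l 16616296)) (b (l 16640048) (l 16647928))))) (b (c (a (b (l 16652720) (l 16659928)) (b (l 16658816) (l 16665944))) (b (c (l 16653392) (l 16651760)) (l 16660224))) (c (a (b (l 16667000) (l 16673952)) (b (l 16672944) (l 16679816))) (a (b (l 16664672) (l 16672040)) (l 531231503))))) (b (a (c (b (b (l 16635360) (l 16642952)) (b (l 16650416) (l 16657744))) (b (c (l 16625256) (l 16622896)) (b (l 16646480) (l 16654272)))) (c (b (b (l 16641760) (l 16649296)) (b (l 16656704) (l 16663984))) (b (c (l 16637032) (l 16640032)) (b (l 16652952) (l 16660672))))) (a (c (b (b (l 16664944) (l 16672008)) (b (l 16678936) (l 16685736))) (b (b (l 16661944)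 (l 16669464)) (l 531188239))) (c (b (b (l 16671120) (l 16678120)) (b (l 16684984) (l 16691720))) (b (b (l 16668256) (l 16665216)) (l 531142159)))))), by decide +kernel⟩

def k15_A00mm_202_s3 : ∃ t, chk3 f_A00mm_202_s3 t 58 17 1 = true :=
  ⟨(b (a (a (c (b (b (l 16648208) (l 16655696)) (b (l 16663048) (l 16670272))) (b (c (l 16643616) (l 16646728)) (b (l 16659488) (l 16667128)))) (c (b (b (l 16654704) (l 16662144)) (b (l 16669456) (l 16676632))) (b (b (l 16650576) (l 16658392)) (b (l 16666088) (l 16673664))))) (a (b (c (b (l 16661272) (l 16668672)) (b (l 16657384) (l 16665144))) (c (b (l 16675936) (l 16693544)) (b (l 16672776) (l 16669792)))) (b (c (b (l 16667920) (l 16675280)) (b (l 16664280) (l 16671976))) (c (b (l 16682496) (l 16684336)) (b (l 16679552) (l 16681744)))))) (a (a (c (b (b (l 16677360) (l 16679056)) (b (l 16691096) (l 16692520))) (b (b (l 16674640) (l 16671520)) (l 531092751))) (b (c (b (l 16678416) (l 16685304))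 (b (l 16670608) (l 16688384))) (c (b (l 531382031) (l 16703888)) (l 531040271)))) (a (b (c (b (l 16684800) (l 531518735)) (b (l 16687632) (l 16694848))) (c (b (l 16703560) (l 16710096)) (b (l 16701904) (l 16708784)))) (a (c (b (l 531169551) (l 531327759)) (b (l 531017743) (l 531209231))) (c (b (l 531140367) (l 531298831)) (b (l 530987535) (l 531179023))))))), by decide +kernel⟩

def k16_A00mm_202_s3 : ∃ t, chk3 f_A00mm_202_s3 t 59 17 1 = true :=
  ⟨(a (b (c (a (a (b (l 530806543) (l 530955791)) (b (l 530774799) (l 530924559))) (b (b (l 16681504) (l 16694024)) (a (l 530892303) (l 530859279)))) (a (b (b (l 16671272) (l 16678912)) (b (l 16675936) (l 16693800))) (b (b (l 16678376) (l 16675480)) (b (l 16693416) (l 16700728))))) (a (b (c (a (l 531110415) (b (l 16704736) (l 16706224))) (b (l 16701024) (c (l 16708528) (l 16707648)))) (c (a (l 531269391) (l 531239183)) (c (l 530894095) (l 530832143)))) (b (c (a (l 531316495) (l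 531283727)) (a (l 531159823) (l 531126287))) (c (a (l 531207951) (l 531176207)) (a (l 531082767) (l 531049231)))))) (b (a (b (c (b (l 16693704) (b (l 16693904) (l 16697488))) (b (l 16675112) (l 16693136))) (c (a (b (l 16701072) (l 16708040)) (b (l 16704544) (l 16706256))) (b (l 16700536) (c (l 16708288) (l 16707288))))) (b (a (c (b (l 16693752) (l 16700976)) (l 530672911)) (c (b (l 16697328) (l 16704536)) (l 530636047))) (c (a (b (l 16708056) (l 16709744)) (b (l 16706352) (l 530756623))) (a (b (l 16705960) (l 16713168)) (b (l 16709624) (l 16716808)))))) (a (b (c (a (l 531250447) (l 531215887)) (a (l 531091727) (l 531056655))) (a (c (b (l 531102479) (l 531184143)) (b (l 530965519) (l 531064079))) (b (c (l 531068431) (l 530930447)) (l 531358223)))) (b (c (a (b (l 530872079) (l 530952207)) (b (l 16725272) (l 530916111))) (a (b (l 16720232) (l 530798607)) (b (l 16723840) (l 530761999)))) (c (a (b (l 531033615) (l 531116047))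 (b (l 530997775) (l 531080719))) (a (b (l 530894351) (l 530992655)) (b (l 530857487) (l 530955791)))))))), by decide +kernel⟩

def k17_A00mm_202_s3 : ∃ t, chk3 f_A00mm_202_s3 t 60 34 1 = true :=
  ⟨(a (a (b (a (c (b (l 16700944) (l 16708136)) (l 530866703)) (c (b (l 16704592) (l 16706528)) (l 530828303))) (a (c (b (l 16709936) (l 530718735)) (b (l 16713328) (l 16720488))) (b (c (l 530601999) (l 16717072)) (c (l 16725680) (l 16724208))))) (a (b (b (l 530982415) (l 530926607)) (b (l 531006991) (c (l 530640143) (l 530464271)))) (a (b (c (l 530416655) (l 530222351)) (c (l 530570255) (l 530391055))) (b (c (l 530395663) (l 530202127)) (l 530997519))))) (a (a (b (b (c (l 530325775) (l 16713944)) (c (l 530401295) (l 16721328))) (b (l 530924815) (l 531008015))) (a (b (c (l 530331151) (l 530139919)) (l 530934799)) (b (c (l 530309391) (l 530118671)) (c (l 530464015) (l 530288143))))) (a (b (a (c (l 530287375) (l 530097167)) (c (l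 530265103) (l 530075151))) (a (c (l 530441999) (l 530266895)) (c (l 530419983) (l 530245135)))) (b (a (c (l 530242831) (l 530053135)) (b (l 530086415) (l 530165519))) (a (c (l 530397711) (l 530223119)) (c (l 530375439) (l 530200847))))))), by decide +kernel⟩

def k18_A00mm_202_s3 : ∃ t, chk3 f_A00mm_202_s3 t 61 34 1 = true :=
  ⟨(a (a (a (b (a (b (l 530063631) (l 530142735)) (b (l 530040591) (l 530119695))) (a (b (l 530224143) (l 530307855)) (b (l 530201103) (l 530284815)))) (b (a (b (l 530017295) (l 530096399)) (b (l 529993743) (l 530072847))) (a (b (l 530178063) (l 530261775)) (b (l 530154511) (l 530238479))))) (b (b (l 14) (a (a (l 530049295) (l 530025231)) (a (l 530000911) (l 529976335)))) (a (a (b (l 530130959) (l 530214927)) (b (l 530107151) (l 530191119))) (a (b (l 530082831) (l 530167055)) (b (l 530058511) (l 530142735)))))) (a (a (b (b (l 14) (a (l 529951759) (l 530195215))) (a (b (l 530033679) (l 530118159)) (b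 (l 530277391) (l 530093327)))) (b (a (b (l 14) (c (l 529997327) (l 529804815))) (l 14)) (a (b (l 530520591) (l 530336783)) (b (c (l 530050831) (l 529865231)) (c (l 530130959) (l 529954575)))))) (b (l 14) (a (a (b (c (l 530025743) (l 529838863)) (c (l 530105871) (l 529928463))) (b (c (l 530000399) (l 529812239)) (c (l 530080783) (l 529901839)))) (a (b (c (l 529975055) (l 529785359)) (a (l 529972239) (l 529958927))) (b (a (l 529860623) (l 529847311)) (l 4))))))), by decide +kernel⟩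

def k19_A00mm_202_s3 : ∃ t, chk3 f_A00mm_202_s3 t 31 34 1 = true :=
  ⟨(b (l 14) (b (a (b (l 14) (b (l 14) (l 4))) (l 4)) (l 4))), by decide +kernel⟩

def k20_A00mm_202_s3 : ∃ t, chk3 f_A00mm_202_s3 t 15 35 1 = true :=
  ⟨(a (a (a (a (b (a (c (b (l 530798095) (l 530878991)) (b (l 530631695) (l 530724367))) (b (c (l 530759695) (l 530593295)) (c (l 530840591) (l 530686223)))) (a (c (b (l 530960911) (l 531044111)) (l 530600463)) (c (b (l 530923023) (l 531006735)) (b (l 530781711) (l 530880015))))) (b (a (b (c (l 530720015) (l 530554383)) (c (l 530801167) (l 530647311))) (b (a (l 530607631) (l 530587407)) (a (l 530694927) (l 530674447)))) (a (b (c (l 530883855) (l 530742799)) (c (l 530968079) (l 530841103))) (b (a (l 530784015) (l 530763791)) (a (l 530875151) (l 530855183)))))) (a (b (a (b (l 530824719) (l 531180303)) (a (l 530837007) (l 530815759))) (a (b (l 531269903) (a (l 530834703) (l 530814223))) (b (a (l 530701839)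 (l 530680847)) (a (l 530793487) (l 530772495))))) (a (a (b (l 530794255) (l 530973711)) (b (c (l 530581007) (l 530426639)) (l 530952207))) (c (b (a (l 530558991) (l 530536719)) (a (l 530726159) (l 530703887))) (a (l 530232079) (l 530210319)))))) (a (b (a (a (a (b (l 530393615) (l 530481679)) (b (l 530370831) (l 530458895))) (a (b (l 530347791) (l 530436111)) (b (l 530324751) (l 530413071)))) (a (a (b (l 530301199) (l 530389775)) (b (l 530277391) (l 530365967))) (a (b (l 530253583) (l 530342159)) (b (l 530229263) (l 530318095))))) (b (a (a (a (l 530571791) (l 530549263)) (a (l 530526479) (l 530503439))) (a (a (l 530480143) (l 530456847)) (l 4))) (a (a (a (l 530663951) (l 530641679)) (a (l 530618895) (l 4))) (l 4)))) (b (a (b (a (a (l 530204943) (l 530180111)) (a (l 530155279) (l 530398479))) (a (a (l 530293775) (l 4)) (l 4))) (l 4)) (l 4)))) (l 4)), by decide +kernel⟩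

def k21_A00mm_202_s3 : ∃ t, chk3 f_A00mm_202_s3 t 28 18 1 = true :=
  ⟨(a (a (b (c (a (b (l 16661864) (l 16675616)) (b (l 531916559) (l 532090639))) (a (b (l 16660224) (l 532083215)) (b (l 531845391) (l 532043023)))) (a (c (b (l 16688768) (l 16690760)) (b (l 16677816) (l 16690728))) (c (b (l 532271375) (l 532457487)) (b (l 532245775) (l 532454159))))) (b (a (c (b (l 531879695) (l 532053519)) (b (l 531538959) (l 532004879))) (c (b (l 531844879) (l 532018703)) (b (l 531502863) (l 531969039)))) (a (c (b (l 532233999) (l 532419855)) (b (l 532207375) (l 532415503))) (c (a (l 532300303) (l 532283407)) (l 531738383))))) (a (b (a (b (c (l 531808783) (l 531465999)) (a (l 531698191) (l 531679503))) (b (c (l 532038415) (l 531426319)) (a (l 531660047) (l 531639823)))) (a (c (l 531719695) (l 531702287)) (c (a (l 532228623) (l 532208911)) (l 531663631)))) (b (a (b (c (b (l 16692400) (l 16698928)) (l 531383567)) (a (l 531619087) (l 531597583)))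 (b (c (b (l 16698304) (l 16704760)) (l 531337999)) (c (l 531859215) (l 531537423)))) (b (a (c (l 532085007) (l 532054543)) (b (l 531707919) (l 531805967))) (a (l 531999247) (l 531955727)))))), by decide +kernel⟩

def k22_A00mm_202_s3 : ∃ t, chk3 f_A00mm_202_s3 t 29 18 1 = true :=
  ⟨(a (a (b (a (b (c (b (l 16704288) (l 16710664)) (l 531289615)) (c (l 531544079) (l 531489295))) (b (c (b (l 16710344) (l 531629839)) (l 531237903)) (c (l 531494415) (l 531438607)))) (b (a (b (l 531661071) (l 531759375)) (c (l 531946255) (l 531643919))) (a (l 531909647) (c (l 532135439) (l 532123663))))) (b (a (b (c (a (l 531547919) (l 531520527)) (l 531183375)) (c (l 531441679) (l 531384591))) (b (c (a (l 531492623) (l 531463951)) (l 531125519)) (c (l 531385871) (l 531327759)))) (a (c (b (l 531625487) (l 531815439)) (b (l 531590671) (l 532071183))) (b (c (l 531570447) (l 531534351)) (c (l 531761167) (l 532015887)))))) (a (b (b (a (c (a (l 531434255)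 (l 531404047)) (a (l 531348495) (l 531317007))) (c (a (l 531373071) (l 531341327)) (a (l 531284751) (l 531251471)))) (a (c (l 531326991) (l 531267343)) (c (a (l 531549711) (l 531517967)) (l 530935311)))) (a (b (c (l 531512335) (l 531474959)) (c (l 531703823) (l 531957263))) (b (a (l 531447311) (l 531415567)) (c (l 531911951) (l 531895311))))) (b (a (b (c (a (l 531308559) (l 531275279)) (a (l 531217423) (l 530914063))) (c (a (l 531485711) (l 531452431)) (b (l 531085583) (l 531188495)))) (b (a (b (l 531683599) (l 531240975)) (b (l 531379215) (l 531473423))) (c (a (l 531686671) (b (l 531337231) (l 531429391))) (a (l 531085071) (l 531048975))))) (a (a (b (l 531383055) (l 531587087)) (b (l 531349775) (l 531554063))) (a (b (l 531315471) (l 531520527)) (b (l 531280655) (l 4))))))), by decide +kernel⟩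

def k23_A00mm_202_s3 : ∃ t, chk3 f_A00mm_202_s3 t 15 18 1 = true :=
  ⟨(a (a (a (b (a (b (a (b (c (l 531128335) (l 531019535)) (c (l 531213071) (l 531123983))) (b (a (l 531045903) (l 531026959)) (a (l 531140623) (l 531121679)))) (c (a (b (l 531301391) (l 531393807)) (b (l 531265039) (l 531357455))) (a (l 531011855) (l 530973967)))) (b (a (b (c (l 531053327) (l 530941967)) (c (l 531946255) (l 530775823))) (c (b (l 531013647) (a (l 531110415) (l 531090703))) (b (l 530902799) (l 530737679)))) (a (c (l 531005199) (l 530935311)) (b (c (l 530920719) (l 530843407)) (l 4))))) (b (a (c (a (l 531535887) (l 531499791)) (a (l 531491343) (l 531453967))) (l 4)) (l 4))) (b (a (b (a (c (b (l 530972431) (l 531059471)) (l 530646543)) (c (b (l 530930191) (l 531017487)) (l 530606351))) (a (b (b (a (l 531096079) (l 531075855)) (l 4)) (l 4)) (l 4))) (b (a (c (a (l 530942223) (l 530920719)) (l 530564879)) (b (a (l 530802191) (l 530780175)) (l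 4))) (l 4))) (l 4))) (l 4)) (l 4)), by decide +kernel⟩

def k24_A00mm_202_s3 : ∃ t, chk3 f_A00mm_202_s3 t 7 19 1 = true :=
  ⟨(a (a (a (b (a (a (c (l 532250639) (l 532282383)) (b (l 532389135) (l 532327695))) (a (b (l 532350479) (l 532556815)) (b (l 532315407) (l 532521743)))) (a (a (c (l 532922895) (l 532729359)) (c (l 532879119) (l 532683791))) (a (c (l 532570383) (l 532642319)) (c (l 532804111) (l 532607247))))) (b (a (b (a (l 532548879) (l 532242959)) (a (l 532487439) (l 532718863))) (b (a (l 532471311) (l 532428303)) (a (l 532410895) (l 532368911)))) (a (a (b (l 532966671) (l 533180943)) (c (l 532466703) (l 532537359))) (a (b (l 532891663) (l 533107471)) (b (l 532850447) (l 533067023)))))) (a (a (b (b (a (l 532114447) (l 532066063)) (a (b (l 532539663) (l 532645391)) (c (l 532529167) (l 532562447)))) (a (a (l 532121103) (l 532098575)) (a (l 532075535) (l 532186127)))) (a (a (b (b (l 532296719) (l 532507663)) (b (l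 532589071) (l 4))) (b (l 531838991) (l 4))) (b (c (l 531520527) (l 531540751)) (l 4)))) (a (b (b (a (a (l 532186895) (l 532157711)) (a (l 532127759) (l 532096783))) (a (l 532117007) (l 4))) (l 4)) (l 4)))) (l 4)), by decide +kernel⟩

def k25_A00mm_202_s3 : ∃ t, chk3 f_A00mm_202_s3 t 12 10 1 = true :=
  ⟨(a (b (b (a (c (l 16609296) (l 16601960)) (a (l 532731919) (l 532462863))) (a (a (l 532428559) (l 532431631)) (a (l 532432143) (l 532429327)))) (a (b (c (l 16580112) (l 532038159)) (c (l 532570639) (c (l 16605296) (l 16621864)))) (b (a (l 532158991) (l 532154639)) (c (a (l 16628312) (l 532288015)) (a (l 532039695) (l 532037903)))))) (b (a (b (a (c (l 16600176) (l 16616096)) (c (l 16651344) (l 532921103))) (a (l 532422415) (l 532413711))) (b (a (c (l 16639656) (l 532919823)) (c (l 533043215) (l 532919055))) (a (c (l 532754959) (l 532320783)) (c (l 532743951) (l 532315663))))) (a (b (a (l 532145679) (l 532134671)) (a (c (l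 532274191) (l 532030479)) (c (l 532257551) (l 532020239)))) (b (a (c (l 532489487) (l 532290575)) (c (l 532475919) (l 532014351))) (a (c (l 532240911) (l 532009743)) (c (l 532224527) (l 531999247))))))), by decide +kernel⟩

def k26_A00mm_202_s3 : ∃ t, chk3 f_A00mm_202_s3 t 12 11 1 = true :=
  ⟨(a (b (a (b (c (l 532346383) (b (l 16633712) (l 16682824))) (c (b (l 16656520) (l 16706448)) (a (l 531533583) (l 531541263)))) (a (b (c (l 532072463) (l 531783695)) (c (l 531863567) (l 531544335))) (b (c (l 532062991) (l 531781391)) (c (l 531853839) (l 531541775))))) (a (b (c (a (l 531671055) (l 531672591)) (a (l 531306255) (l 531315727))) (c (a (l 531484687) (l 531488783)) (a (l 531090447) (l 531102735)))) (b (c (a (l 531669775) (l 531660815)) (a (l 531320591) (l 531319055))) (c (a (l 531489039) (l 531483151)) (a (l 531110671) (b (l 531162895) (l 531063311))))))) (a (b (a (b (c (l 532047375) (l 531772431)) (c (l 531836943) (l 531531535)))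 (b (c (l 532028175) (l 531759631)) (c (l 531815439) (l 531516687)))) (a (b (c (l 531643151) (l 531308303)) (c (l 531465743) (a (l 531106831) (l 531098127)))) (c (b (l 531619599) (l 531440143)) (b (l 531291407) (l 531083535))))) (b (b (a (c (l 532008975) (l 531746831)) (c (l 531989775) (l 531733775))) (a (c (l 531793935) (l 531501583)) (c (l 531772175) (l 531485967)))) (b (a (c (l 531595535) (l 531273743)) (c (l 531571215) (l 531255823))) (a (c (l 531413775) (l 531063823)) (c (l 531387151) (l 531043599))))))), by decide +kernel⟩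

def k27_A00mm_202_s3 : ∃ t, chk3 f_A00mm_202_s3 t 13 10 1 = true :=
  ⟨(a (b (a (b (a (c (l 533037327) (l 532650511)) (c (l 533032463) (l 532382735))) (a (b (l 532464911) (l 532316687)) (c (l 532455439) (l 532306447)))) (b (a (b (l 532803599) (l 532886031)) (b (l 532806927) (l 532615439))) (a (b (l 532452623) (l 532301327)) (b (l 532447247) (l 532294159))))) (a (b (a (c (l 532462607) (l 532006671)) (c (l 532449551) (l 531999247))) (a (b (l 532435471) (l 532036367)) (c (l 532192527) (b (l 532049423) (l 531909391))))) (b (a (c (l 532168719) (c (l 532037647) (l 531945487))) (c (l 532156687) (a (l 532255759) (l 532252431)))) (a (c (b (l 532240655) (l 532114703)) (b (l 532039951) (l 531898383))) (a (b (l 532133903) (l 531998991)) (b (l 532128015) (l 531992335))))))) (b (a (b (a (b (l 532543759) (l 532614415)) (b (c (l 533127951) (l 532777743)) (l 532614927))) (a (c (l 532429583) (a (l 532565263) (l 532563983))) (a (l 532092431)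 (l 532090127)))) (b (b (a (c (l 533135375) (l 533058575)) (a (l 533105423) (l 533107727))) (a (l 532348943) (c (l 532936719) (l 532306447)))) (a (b (l 532166415) (l 532276239)) (b (a (l 532701967) (l 532700943)) (l 532271119))))) (a (a (b (c (l 532145423) (b (l 532056335) (l 531902479))) (c (a (l 532151055) (l 532143631)) (a (b (l 532024335) (l 531879951)) (b (l 532019727) (l 531874575))))) (b (c (l 532134415) (b (l 532050703) (l 531895055))) (c (l 531863823) (a (l 531941391) (l 531936271))))) (a (a (b (l 532049423) (c (l 532122383) (l 531931663))) (b (l 532045583) (c (l 532115727) (l 531926799)))) (b (a (l 532041743) (l 532037903)) (l 4)))))), by decide +kernel⟩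

def k28_A00mm_202_s3 : ∃ t, chk3 f_A00mm_202_s3 t 13 11 1 = true :=
  ⟨(a (b (a (b (a (b (l 531909903) (l 531788047)) (c (l 531952143) (b (l 531773967) (l 531642895)))) (a (b (l 531670287) (l 531557135)) (c (l 531728655) (a (l 531458831) (l 531450639))))) (b (a (c (b (l 531993103) (l 531875599)) (b (l 531761423) (l 531628815))) (c (b (l 531975439) (l 531856399)) (b (a (l 531752463) (l 531746319)) (l 531614735)))) (a (c (l 531707151) (a (l 531442703) (l 531434511))) (b (c (l 531741711) (l 531485199)) (l 4))))) (a (b (a (b (l 531448079) (l 531343375)) (c (l 531522319) (a (l 531224079) (l 531214607)))) (a (b (l 531243023) (l 4)) (l 4))) (l 4))) (a (b (b (b (a (c (a (l 531962895) (l 531954447)) (a (l 531739919) (l 531733775))) (a (b (l 531872015) (l 4)) (l 4))) (a (a (l 531725839) (l 4)) (l 4))) (l 4)) (l 4)) (l 4))), by decide +kernel⟩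

def k29_A00mm_202_s3 : ∃ t, chk3 f_A00mm_202_s3 t 7 5 1 = true :=
  ⟨(b (b (a (a (a (b (b (a (a (l 533107471) (c (l 533136399) (l 533068559))) (a (c (l 533124623) (l 533058063)) (l 532597263))) (a (a (b (l 532954383) (l 532845583)) (b (l 532954895) (l 532849935))) (a (b (l 532546319) (a (l 532851727) (l 532849167))) (c (l 532919055) (l 532564495))))) (a (b (b (l 532205583) (l 532656655)) (l 531998479)) (a (b (b (a (l 532744975) (c (l 532540431) (l 532439567))) (l 532656399)) (l 532533775)) (b (b (c (l 532516367) (l 532415503)) (a (a (l 532656143) (l 4)) (l 4))) (l 4))))) (b (b (a (a (l 533035791) (l 532739087)) (a (l 532579599) (l 532960527))) (a (a (l 532843023) (l 532811279)) (l 4))) (a (a (b (b (l 532699663) (l 4)) (l 4)) (l 4)) (l 4)))) (l 4)) (l 4)) (a (a (a (a (b (a (l 532034319) (l 4)) (l 4)) (l 4)) (l 4)) (l 4)) (l 4))) (l 4)), by decide +kernel⟩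

def k30_A00mm_202_s3 : ∃ t, chk3 f_A00mm_202_s3 t 4 6 1 = true :=
  ⟨(b (a (b (l 6) (b (l 6) (a (l 6) (l 16359160)))) (b (a (b (l 6) (l 16467776)) (b (l 16511224) (c (l 16458376) (l 16429864)))) (a (b (l 16485672) (l 16505632)) (b (c (l 16476960) (l 16449688)) (c (l 16497336) (l 16471536)))))) (b (a (b (a (l 6) (l 16379880)) (a (l 16335976) (l 16402536))) (a (b (l 16506560) (c (l 16481032) (l 16453336))) (a (b (l 16491424) (l 16515784)) (b (l 16523792) (l 16632400))))) (b (a (a (l 16359344) (l 16468952)) (a (c (l 16505448) (l 16479696)) (a (l 16625592) (l 529809167)))) (l 2)))), by decide +kernel⟩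

def k31_A00mm_202_s3 : ∃ t, chk3 f_A00mm_202_s3 t 5 6 1 = true :=
  ⟨(a (b (b (a (b (c (l 16500728) (l 16476480)) (b (l 16586160) (l 16595848))) (a (b (l 16620232) (l 531462415)) (b (b (l 16563192) (l 16572504)) (l 530985231)))) (a (a (b (l 16511232) (l 16616976)) (b (l 16627584) (l 530262799))) (a (b (l 531290383) (l 530321935)) (b (l 530547983) (l 530388751))))) (a (b (a (b (l 16598552) (l 529935631)) (b (l 530106383) (l 529957903))) (a (b (l 529800463) (l 2)) (b (l 529817103) (l 529684239)))) (b (a (b (l 530167567) (l 530020879)) (b (l 530238223) (l 530095631))) (a (b (l 529880847) (l 529747215)) (b (l 529959951) (l 530099471)))))) (b (a (b (a (b (b (l 16593608) (l 16603208)) (c (l 16667000) (l 16653872))) (b (c (l 16675888) (l 530761231)) (c (l 531062543) (l 530569999)))) (b (a (l 531410959) (c (l 530913039) (l 530394127))) (a (l 530718223) (b (l 530542607) (l 530468879))))) (b (a (b (c (l 531260431) (l 530808591))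 (c (l 531098127) (l 531155471))) (b (c (l 531287055) (a (l 530841103) (l 530861071))) (a (l 530888975) (l 530904591)))) (a (b (c (l 530951695) (a (l 530433295) (l 530457359))) (c (b (l 530849039) (l 530784527)) (b (l 530323471) (l 530243855)))) (c (a (b (l 530975247) (l 531109903)) (b (l 530987791) (l 530855439))) (a (b (l 530480399) (b (l 530359567) (l 530282255))) (b (l 530501647) (l 530342927))))))) (a (b (a (b (l 530303247) (l 530164751)) (b (l 530361871) (l 530227471))) (a (b (c (l 530342671) (l 529716239)) (c (l 530230031) (l 529579791))) (b (l 530100751) (b (l 530011151) (l 4))))) (b (a (b (b (a (l 530436111) (l 530459919)) (l 530380815)) (l 530283279)) (a (b (c (b (l 530748431) (l 530688783)) (b (l 530207247) (l 530134543))) (l 4)) (b (b (l 530501135) (l 4)) (l 4)))) (a (b (l 530160911) (l 4)) (l 4)))))), by decide +kernel⟩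

def k32_A00mm_202_s3 : ∃ t, chk3 f_A00mm_202_s3 t 2 7 1 = true :=
  ⟨(a (l 2) (a (l 2) (a (l 2) (l 4)))), by decide +kernel⟩

def k33_A00mm_202_s3 : ∃ t, chk3 f_A00mm_202_s3 t 3 3 1 = true :=
  ⟨(b (a (a (b (a (b (b (b (a (c (l 531352591) (l 530940687)) (a (c (l 531360015) (l 530960143)) (c (l 531358479) (l 530966543)))) (a (c (l 531262735) (l 530836495)) (a (l 531068943) (c (a (l 531276047) (l 531283727)) (a (l 530867983) (l 530880015)))))) (a (c (l 531144207) (l 530697487)) (c (a (l 531153935) (l 531157007)) (a (l 530719759) (l 530730767))))) (b (a (c (l 531002639) (l 530529551)) (c (l 531015183) (l 530559247))) (a (a (c (l 530867471) (l 530363919)) (l 530633487)) (l 4)))) (b (a (a (b (c (a (l 531310607) (l 531298831)) (a (b (l 530963727) (l 530873103)) (l 530908943))) (b (c (a (l 531199503) (l 531189263)) (a (b (l 530807567) (l 530759951)) (l 530778895))) (l 4))) (b (c (l 531277327) (l 530892815)) (l 4))) (b (a (c (l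 531248655) (l 530871055)) (l 4)) (l 4))) (l 4))) (l 4)) (l 4)) (l 4)) (l 4)), by decide +kernel⟩

theorem t34_A00mm_202_s3 : ∃ t, chk3 f_A00mm_202_s3 t 2 6 1 = true := ex3_a k30_A00mm_202_s3 k31_A00mm_202_s3

theorem t35_A00mm_202_s3 : ∃ t, chk3 f_A00mm_202_s3 t 2 3 1 = true := ex3_b t34_A00mm_202_s3 k32_A00mm_202_s3

theorem t36_A00mm_202_s3 : ∃ t, chk3 f_A00mm_202_s3 t 1 3 1 = true := ex3_a t35_A00mm_202_s3 k33_A00mm_202_s3

theorem t37_A00mm_202_s3 : ∃ t, chk3 f_A00mm_202_s3 t 13 5 1 = true := ex3_b k27_A00mm_202_s3 k28_A00mm_202_s3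

theorem t38_A00mm_202_s3 : ∃ t, chk3 f_A00mm_202_s3 t 12 5 1 = true := ex3_b k25_A00mm_202_s3 k26_A00mm_202_s3

theorem t39_A00mm_202_s3 : ∃ t, chk3 f_A00mm_202_s3 t 6 5 1 = true := ex3_a t38_A00mm_202_s3 t37_A00mm_202_s3

theorem t40_A00mm_202_s3 : ∃ t, chk3 f_A00mm_202_s3 t 3 5 1 = true := ex3_a t39_A00mm_202_s3 k29_A00mm_202_s3

theorem t41_A00mm_202_s3 : ∃ t, chk3 f_A00mm_202_s3 t 14 18 1 = true := ex3_a k21_A00mm_202_s3 k22_A00mm_202_s3

theorem t42_A00mm_202_s3 : ∃ t, chk3 f_A00mm_202_s3 t 7 18 1 = true := ex3_a t41_A00mm_202_s3 k23_A00mm_202_s3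

theorem t43_A00mm_202_s3 : ∃ t, chk3 f_A00mm_202_s3 t 7 9 1 = true := ex3_b t42_A00mm_202_s3 k24_A00mm_202_s3

theorem t44_A00mm_202_s3 : ∃ t, chk3 f_A00mm_202_s3 t 30 34 1 = true := ex3_a k17_A00mm_202_s3 k18_A00mm_202_s3

theorem t45_A00mm_202_s3 : ∃ t, chk3 f_A00mm_202_s3 t 15 34 1 = true := ex3_a t44_A00mm_202_s3 k19_A00mm_202_s3

theorem t46_A00mm_202_s3 : ∃ t, chk3 f_A00mm_202_s3 t 15 17 1 = true := ex3_b t45_A00mm_202_s3 k20_A00mm_202_s3

theorem t47_A00mm_202_s3 : ∃ t, chk3 f_A00mm_202_s3 t 29 17 1 = true := ex3_a k15_A00mm_202_s3 k16_A00mm_202_s3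

theorem t48_A00mm_202_s3 : ∃ t, chk3 f_A00mm_202_s3 t 28 17 1 = true := ex3_a k13_A00mm_202_s3 k14_A00mm_202_s3

theorem t49_A00mm_202_s3 : ∃ t, chk3 f_A00mm_202_s3 t 14 17 1 = true := ex3_a t48_A00mm_202_s3 t47_A00mm_202_s3

theorem t50_A00mm_202_s3 : ∃ t, chk3 f_A00mm_202_s3 t 7 17 1 = true := ex3_a t49_A00mm_202_s3 t46_A00mm_202_s3

theorem t51_A00mm_202_s3 : ∃ t, chk3 f_A00mm_202_s3 t 14 16 1 = true := ex3_a k10_A00mm_202_s3 k11_A00mm_202_s3

theorem t52_A00mm_202_s3 : ∃ t, chk3 f_A00mm_202_s3 t 7 16 1 = true := ex3_a t51_A00mm_202_s3 k12_A00mm_202_s3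

theorem t53_A00mm_202_s3 : ∃ t, chk3 f_A00mm_202_s3 t 7 8 1 = true := ex3_b t52_A00mm_202_s3 t50_A00mm_202_s3

theorem t54_A00mm_202_s3 : ∃ t, chk3 f_A00mm_202_s3 t 7 4 1 = true := ex3_b t53_A00mm_202_s3 t43_A00mm_202_s3

theorem t55_A00mm_202_s3 : ∃ t, chk3 f_A00mm_202_s3 t 13 9 1 = true := ex3_a k8_A00mm_202_s3 k9_A00mm_202_s3

theorem t56_A00mm_202_s3 : ∃ t, chk3 f_A00mm_202_s3 t 6 9 1 = true := ex3_a k7_A00mm_202_s3 t55_A00mm_202_s3

theorem t57_A00mm_202_s3 : ∃ t, chk3 f_A00mm_202_s3 t 13 17 1 = true := ex3_a k5_A00mm_202_s3 k6_A00mm_202_s3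

theorem t58_A00mm_202_s3 : ∃ t, chk3 f_A00mm_202_s3 t 6 17 1 = true := ex3_a k4_A00mm_202_s3 t57_A00mm_202_s3

theorem t59_A00mm_202_s3 : ∃ t, chk3 f_A00mm_202_s3 t 13 16 1 = true := ex3_a k2_A00mm_202_s3 k3_A00mm_202_s3

theorem t60_A00mm_202_s3 : ∃ t, chk3 f_A00mm_202_s3 t 6 16 1 = true := ex3_a k1_A00mm_202_s3 t59_A00mm_202_s3

theorem t61_A00mm_202_s3 : ∃ t, chk3 f_A00mm_202_s3 t 6 8 1 = true := ex3_b t60_A00mm_202_s3 t58_A00mm_202_s3

theorem t62_A00mm_202_s3 : ∃ t, chk3 f_A00mm_202_s3 t 6 4 1 = true := ex3_b t61_A00mm_202_s3 t56_A00mm_202_s3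

theorem t63_A00mm_202_s3 : ∃ t, chk3 f_A00mm_202_s3 t 3 4 1 = true := ex3_a t62_A00mm_202_s3 t54_A00mm_202_s3

theorem t64_A00mm_202_s3 : ∃ t, chk3 f_A00mm_202_s3 t 3 2 1 = true := ex3_b t63_A00mm_202_s3 t40_A00mm_202_s3

theorem t65_A00mm_202_s3 : ∃ t, chk3 f_A00mm_202_s3 t 1 2 1 = true := ex3_a k0_A00mm_202_s3 t64_A00mm_202_s3

theorem t66_A00mm_202_s3 : ∃ t, chk3 f_A00mm_202_s3 t 1 1 1 = true := ex3_b t65_A00mm_202_s3 t36_A00mm_202_s3

theorem c_A00mm_202_s3 : CertF 0 536870912 0 536870912 923417968 42949674 true false false .pp 2 0 2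
    ndB0q2 ndB0q0 pcB2 cut_A00mm_202_s3 xt_A00mm_202_s3 :=
  certF0 (fam := true) (s1 := false) (s2 := false) (a := 2) (b := 0) (c := 2) (cn := .pp) (n1 := ndB0q2) (n2 := ndB0q0) (pc := pcB2) (cut := cut_A00mm_202_s3) (xt := xt_A00mm_202_s3) (P1 := 0) (W1 := 536870912) (P2 := 0) (W2 := 536870912) (P3 := 923417968) (W3 := 42949674)
    rfl t66_A00mm_202_s3

theorem s_A00mm_202_s3 {κ x : ℝ} (hκ : κ * h0 = ken x) (hx : ((923417968 : ℕ) : ℝ) / S ≤ x)
    (hx' : x ≤ (((923417968 : ℕ) : ℝ) + (42949674 : ℕ)) / S)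
    (H : CutA (VFD κ) PP tK tL pcB (Cut.of [[⟨0, 1, 0, 67108864⟩, ⟨1, 0, 0, 67108864⟩, ⟨2, 1, 0, 67108864⟩]]) 2 0 2 0 0 (sgb false) (sgb false) x) :
    AltA (VFD κ) PP tK tL pcB [⟨4, 0, 0, 2845415833⟩] 2 0 2 0 0 (sgb false) (sgb false) x :=
  strip_altAD (m := 2845415833) false rfl hκ (SH.κ0 hκ (SH.hx1 hx).le (SH.hx2 hx').le) (SH.hx1 hx).le (SH.hx2 hx') (covB02).cov (covB00).cov hx hx' c_A00mm_202_s3 H ((okx hx hx').extA (T := tt) (sideB hx hx') hκ rfl rfl (.O 2 false) (.O 0 false) (Or.inl rfl))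

noncomputable def cut_A00mm_203_s1 : Cut := Cut.of [[⟨4, 0, 0, 1449551462⟩]]

noncomputable def f_A00mm_203_s1 : ℕ → ℕ → ℕ → ℕ → Bool := onCell 0 536870912 0 536870912 923417968 42949674
    (rowF 0 true false false .up 2 0 3 (qsf 0 536870912 0 536870912 3) ndB0q2 ndB0q0 pcB3 cut_A00mm_203_s1 Ext.none)

def k0_A00mm_203_s1 : ∃ t, chk3 f_A00mm_203_s1 t 1 1 1 = true :=
  ⟨(l 6), by decide +kernel⟩

theorem c_A00mm_203_s1 : CertF 0 536870912 0 536870912 923417968 42949674 true false false .up 2 0 3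
    ndB0q2 ndB0q0 pcB3 cut_A00mm_203_s1 Ext.none :=
  certF0 (fam := true) (s1 := false) (s2 := false) (a := 2) (b := 0) (c := 3) (cn := .up) (n1 := ndB0q2) (n2 := ndB0q0) (pc := pcB3) (cut := cut_A00mm_203_s1) (xt := Ext.none) (P1 := 0) (W1 := 536870912) (P2 := 0) (W2 := 536870912) (P3 := 923417968) (W3 := 42949674)
    rfl k0_A00mm_203_s1

theorem s_A00mm_203_s1 {κ x : ℝ} (hκ : κ * h0 = ken x) (hx : ((923417968 : ℕ) : ℝ) / S ≤ x)
    (hx' : x ≤ (((923417968 : ℕ) : ℝ) + (42949674 : ℕ)) / S) :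
    AltA (VFD κ) PP tK tL pcB [⟨3, 0, 0, 1449551462⟩] 2 0 3 0 0 (sgb false) (sgb false) x :=
  strip_altAD (m := 1449551462) true rfl hκ (SH.κ0 hκ (SH.hx1 hx).le (SH.hx2 hx').le) (SH.hx1 hx).le (SH.hx2 hx') (covB02).cov (covB00).cov hx hx' c_A00mm_203_s1 cutA_nil (noExt_A)

noncomputable def cut_A00mm_203_s3 : Cut := Cut.of [[⟨3, 0, 0, 2845415833⟩]]

noncomputable def xt_A00mm_203_s3 : Ext := strExt dd true false false .u2 .u0m .s2m .up 2 0 3 rfl rfl gl3 vv ndB0q2 ndB0q0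

noncomputable def f_A00mm_203_s3 : ℕ → ℕ → ℕ → ℕ → Bool := onCell 0 536870912 1610612736 536870912 923417968 42949674
    (rowF 1 true false false .up 2 0 3 (qsf 0 536870912 0 536870912 3) ndB0q2 ndB0q0 pcB3 cut_A00mm_203_s3 xt_A00mm_203_s3)

def k0_A00mm_203_s3 : ∃ t, chk3 f_A00mm_203_s3 t 4 4 1 = true :=
  ⟨(b (b (c (a (b (b (l 16431984) (l 16441864)) (a (l 16611152) (l 16552704))) (a (b (l 533544975) (l 533636367)) (b (l 532620559) (l 533507343)))) (b (a (a (l 530261007) (l 530462223)) (a (a (l 16479016) (l 531713295)) (a (l 531673359) (l 531630351)))) (a (a (l 530664207) (l 530859023)) (a (l 530242063) (a (l 531786767) (l 531739151)))))) (a (c (b (a (l 16630024) (l 16570592)) (a (l 16564296) (l 533960719))) (b (a (l 531074319) (l 530993935)) (a (l 531495183) (l 531408399)))) (a (c (b (l 533728271) (l 533827343)) (b (l 530636559) (l 530775567))) (b (c (l 533587215) (l 531341071)) (c (l 533681167) (l 531744271))))))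 (a (b (c (a (b (l 16582152) (l 16598840)) (b (l 534093839) (l 534223119))) (a (b (l 531948815) (l 532135951)) (b (l 531863567) (l 531785231)))) (a (c (b (l 16613816) (l 534539279)) (b (l 532850447) (l 533016335))) (c (b (l 534338831) (l 534438927)) (b (l 531966991) (l 531601679))))) (b (a (c (a (l 534061583) (l 533988367)) (a (l 531082767) (l 532104463))) (c (l 532263183) (b (l 532197903) (l 532384271)))) (a (c (a (l 533491983) (l 534222095)) (a (b (l 532704015) (l 532879375)) (l 531395343))) (c (l 533562895) (b (l 532564239) (l 532736783))))))), by decide +kernel⟩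

def k1_A00mm_203_s3 : ∃ t, chk3 f_A00mm_203_s3 t 5 4 1 = true :=
  ⟨(a (b (a (b (a (c (b (l 533331983) (l 533405711)) (b (l 531584271) (l 531688719))) (c (b (l 533268751) (l 533337615)) (b (l 531534607) (l 531635471)))) (b (a (c (l 533476111) (l 531795215)) (c (l 532071183) (a (l 531752207) (l 531734031)))) (c (l 532999695) (b (l 531066383) (l 531942415))))) (c (b (a (b (l 533207311) (l 533275407)) (l 533180687)) (b (l 532768271) (a (l 532868879) (l 4)))) (b (a (b (l 531480847) (l 531580943)) (l 531473423)) (b (a (l 531679247) (l 531622927)) (a (b (l 531766287) (l 4)) (l 4)))))) (a (b (c (l 533446159) (b (l 532082447) (l 532265231))) (l 4)) (l 4))) (b (a (a (b (b (a (l 531747855) (l 530642959)) (l 4)) (l 4)) (l 4)) (l 4)) (l 4))), by decide +kernel⟩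

def k2_A00mm_203_s3 : ∃ t, chk3 f_A00mm_203_s3 t 2 5 1 = true :=
  ⟨(a (b (a (b (b (a (l 532629519) (b (c (l 534502159) (l 533064975)) (l 533920527))) (a (l 533262095) (c (l 534565903) (l 533232143)))) (l 2)) (b (b (a (c (l 533865743) (a (l 532503055) (l 532992527))) (c (l 534238991) (l 532901391))) (a (c (l 532867343) (a (b (l 533160463) (l 533217295)) (l 532874767))) (l 4))) (l 2))) (l 2)) (l 4)), by decide +kernel⟩

def k3_A00mm_203_s3 : ∃ t, chk3 f_A00mm_203_s3 t 2 3 1 = true :=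
  ⟨(l 2), by decide +kernel⟩

def k4_A00mm_203_s3 : ∃ t, chk3 f_A00mm_203_s3 t 3 1 1 = true :=
  ⟨(b (l 4) (l 2)), by decide +kernel⟩

theorem t5_A00mm_203_s3 : ∃ t, chk3 f_A00mm_203_s3 t 2 4 1 = true := ex3_a k0_A00mm_203_s3 k1_A00mm_203_s3

theorem t6_A00mm_203_s3 : ∃ t, chk3 f_A00mm_203_s3 t 2 2 1 = true := ex3_b t5_A00mm_203_s3 k2_A00mm_203_s3

theorem t7_A00mm_203_s3 : ∃ t, chk3 f_A00mm_203_s3 t 2 1 1 = true := ex3_b t6_A00mm_203_s3 k3_A00mm_203_s3

theorem t8_A00mm_203_s3 : ∃ t, chk3 f_A00mm_203_s3 t 1 1 1 = true := ex3_a t7_A00mm_203_s3 k4_A00mm_203_s3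

theorem c_A00mm_203_s3 : CertF 0 536870912 0 536870912 923417968 42949674 true false false .up 2 0 3
    ndB0q2 ndB0q0 pcB3 cut_A00mm_203_s3 xt_A00mm_203_s3 :=
  certF1 (fam := true) (s1 := false) (s2 := false) (a := 2) (b := 0) (c := 3) (cn := .up) (n1 := ndB0q2) (n2 := ndB0q0) (pc := pcB3) (cut := cut_A00mm_203_s3) (xt := xt_A00mm_203_s3) (P1 := 0) (W1 := 536870912) (P2 := 0) (W2 := 536870912) (P3 := 923417968) (W3 := 42949674)
    rfl (fun _ => rfl) t8_A00mm_203_s3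

theorem s_A00mm_203_s3 {κ x : ℝ} (hκ : κ * h0 = ken x) (hx : ((923417968 : ℕ) : ℝ) / S ≤ x)
    (hx' : x ≤ (((923417968 : ℕ) : ℝ) + (42949674 : ℕ)) / S) :
    AltA (VFD κ) PP tK tL pcB [⟨4, 0, 0, 2845415833⟩] 2 0 3 0 0 (sgb false) (sgb false) x :=
  strip_altAD (m := 2845415833) false rfl hκ (SH.κ0 hκ (SH.hx1 hx).le (SH.hx2 hx').le) (SH.hx1 hx).le (SH.hx2 hx') (covB02).cov (covB00).cov hx hx' c_A00mm_203_s3 cutA_nil ((okx hx hx').extA (T := tt) (sideB hx hx') hκ rfl rfl (.O 2 false) (.O 0 false) (Or.inr rfl))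

noncomputable def cut_A00mm_213_s1 : Cut := Cut.of [[⟨4, 0, 0, 1449551462⟩]]

noncomputable def f_A00mm_213_s1 : ℕ → ℕ → ℕ → ℕ → Bool := onCell 0 536870912 536870912 536870912 923417968 42949674
    (rowF 0 true false false .pnn 2 1 3 (qsf 0 536870912 536870912 536870912 3) ndB0q2 ndB0q1 pcB3 cut_A00mm_213_s1 Ext.none)

def k0_A00mm_213_s1 : ∃ t, chk3 f_A00mm_213_s1 t 1 1 1 = true :=
  ⟨(l 6), by decide +kernel⟩

theorem c_A00mm_213_s1 : CertF 0 536870912 536870912 536870912 923417968 42949674 true false false .pnn 2 1 3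
    ndB0q2 ndB0q1 pcB3 cut_A00mm_213_s1 Ext.none :=
  certF0 (fam := true) (s1 := false) (s2 := false) (a := 2) (b := 1) (c := 3) (cn := .pnn) (n1 := ndB0q2) (n2 := ndB0q1) (pc := pcB3) (cut := cut_A00mm_213_s1) (xt := Ext.none) (P1 := 0) (W1 := 536870912) (P2 := 536870912) (W2 := 536870912) (P3 := 923417968) (W3 := 42949674)
    rfl k0_A00mm_213_s1

theorem s_A00mm_213_s1 {κ x : ℝ} (hκ : κ * h0 = ken x) (hx : ((923417968 : ℕ) : ℝ) / S ≤ x)
    (hx' : x ≤ (((923417968 : ℕ) : ℝ) + (42949674 : ℕ)) / S) :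
    AltA (VFD κ) PP tK tL pcB [⟨3, 0, 0, 1449551462⟩] 2 1 3 0 0 (sgb false) (sgb false) x :=
  strip_altAD (m := 1449551462) true rfl hκ (SH.κ0 hκ (SH.hx1 hx).le (SH.hx2 hx').le) (SH.hx1 hx).le (SH.hx2 hx') (covB02).cov (covB01).cov hx hx' c_A00mm_213_s1 cutA_nil (noExt_A)

noncomputable def cut_A00mm_213_s3 : Cut := Cut.of [[⟨3, 0, 0, 2845415833⟩]]

noncomputable def xt_A00mm_213_s3 : Ext := strExt dd true false false .u2 .u0m .s2m .pnn 2 1 3 rfl rfl gl3 vv ndB0q2 ndB0q1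

noncomputable def f_A00mm_213_s3 : ℕ → ℕ → ℕ → ℕ → Bool := onCell 0 536870912 536870912 536870912 923417968 42949674
    (rowF 0 true false false .pnn 2 1 3 (qsf 0 536870912 536870912 536870912 3) ndB0q2 ndB0q1 pcB3 cut_A00mm_213_s3 xt_A00mm_213_s3)

def k0_A00mm_213_s3 : ∃ t, chk3 f_A00mm_213_s3 t 1 1 1 = true :=
  ⟨(a (b (b (a (b (a (b (c (l 534090767) (a (l 533441807) (l 533376015))) (b (l 532602639) (l 533188111))) (a (a (b (l 532404495) (l 4)) (l 4)) (l 4))) (a (b (c (l 534437391) (l 533000975)) (l 4)) (l 4))) (l 4)) (l 4)) (l 4)) (l 4)), by decide +kernel⟩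

theorem c_A00mm_213_s3 : CertF 0 536870912 536870912 536870912 923417968 42949674 true false false .pnn 2 1 3
    ndB0q2 ndB0q1 pcB3 cut_A00mm_213_s3 xt_A00mm_213_s3 :=
  certF0 (fam := true) (s1 := false) (s2 := false) (a := 2) (b := 1) (c := 3) (cn := .pnn) (n1 := ndB0q2) (n2 := ndB0q1) (pc := pcB3) (cut := cut_A00mm_213_s3) (xt := xt_A00mm_213_s3) (P1 := 0) (W1 := 536870912) (P2 := 536870912) (W2 := 536870912) (P3 := 923417968) (W3 := 42949674)
    rfl k0_A00mm_213_s3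

theorem s_A00mm_213_s3 {κ x : ℝ} (hκ : κ * h0 = ken x) (hx : ((923417968 : ℕ) : ℝ) / S ≤ x)
    (hx' : x ≤ (((923417968 : ℕ) : ℝ) + (42949674 : ℕ)) / S) :
    AltA (VFD κ) PP tK tL pcB [⟨4, 0, 0, 2845415833⟩] 2 1 3 0 0 (sgb false) (sgb false) x :=
  strip_altAD (m := 2845415833) false rfl hκ (SH.κ0 hκ (SH.hx1 hx).le (SH.hx2 hx').le) (SH.hx1 hx).le (SH.hx2 hx') (covB02).cov (covB01).cov hx hx' c_A00mm_213_s3 cutA_nil ((okx hx hx').extA (T := tt) (sideB hx hx') hκ rfl rfl (.O 2 false) (.O 1 false) (Or.inr rfl))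

noncomputable def cut_A04pp_001_s1 : Cut := Cut.of [[⟨4, 0, 0, 1449551462⟩]]

noncomputable def f_A04pp_001_s1 : ℕ → ℕ → ℕ → ℕ → Bool := onCell 0 536870912 0 536870912 923417968 42949674
    (rowF 0 true true true .up 0 0 1 (qsf 0 536870912 0 536870912 1) ndB0q0 ndB4q0 pcB1 cut_A04pp_001_s1 Ext.none)

def k0_A04pp_001_s1 : ∃ t, chk3 f_A04pp_001_s1 t 1 1 1 = true :=
  ⟨(l 4), by decide +kernel⟩

theorem c_A04pp_001_s1 : CertF 0 536870912 0 536870912 923417968 42949674 true true true .up 0 0 1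
    ndB0q0 ndB4q0 pcB1 cut_A04pp_001_s1 Ext.none :=
  certF0 (fam := true) (s1 := true) (s2 := true) (a := 0) (b := 0) (c := 1) (cn := .up) (n1 := ndB0q0) (n2 := ndB4q0) (pc := pcB1) (cut := cut_A04pp_001_s1) (xt := Ext.none) (P1 := 0) (W1 := 536870912) (P2 := 0) (W2 := 536870912) (P3 := 923417968) (W3 := 42949674)
    rfl k0_A04pp_001_s1

theorem s_A04pp_001_s1 {κ x : ℝ} (hκ : κ * h0 = ken x) (hx : ((923417968 : ℕ) : ℝ) / S ≤ x)
    (hx' : x ≤ (((923417968 : ℕ) : ℝ) + (42949674 : ℕ)) / S) :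
    AltA (VFD κ) PP tK tL pcB [⟨3, 0, 0, 1449551462⟩] 0 0 1 0 4 (sgb true) (sgb true) x :=
  strip_altAD (m := 1449551462) true rfl hκ (SH.κ0 hκ (SH.hx1 hx).le (SH.hx2 hx').le) (SH.hx1 hx).le (SH.hx2 hx') (covB00).cov (covB40).cov hx hx' c_A04pp_001_s1 cutA_nil (noExt_A)

noncomputable def cut_A04pp_011_s1 : Cut := Cut.of [[⟨4, 0, 0, 1449551462⟩]]

noncomputable def f_A04pp_011_s1 : ℕ → ℕ → ℕ → ℕ → Bool := onCell 0 536870912 536870912 536870912 923417968 42949674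
    (rowF 0 true true true .pnn 0 1 1 (qsf 0 536870912 536870912 536870912 1) ndB0q0 ndB4q1 pcB1 cut_A04pp_011_s1 Ext.none)

def k0_A04pp_011_s1 : ∃ t, chk3 f_A04pp_011_s1 t 1 1 1 = true :=
  ⟨(l 4), by decide +kernel⟩

theorem c_A04pp_011_s1 : CertF 0 536870912 536870912 536870912 923417968 42949674 true true true .pnn 0 1 1
    ndB0q0 ndB4q1 pcB1 cut_A04pp_011_s1 Ext.none :=
  certF0 (fam := true) (s1 := true) (s2 := true) (a := 0) (b := 1) (c := 1) (cn := .pnn) (n1 := ndB0q0) (n2 := ndB4q1) (pc := pcB1) (cut := cut_A04pp_011_s1) (xt := Ext.none) (P1 := 0) (W1 := 536870912) (P2 := 536870912) (W2 := 536870912) (P3 := 923417968) (W3 := 42949674)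
    rfl k0_A04pp_011_s1

theorem s_A04pp_011_s1 {κ x : ℝ} (hκ : κ * h0 = ken x) (hx : ((923417968 : ℕ) : ℝ) / S ≤ x)
    (hx' : x ≤ (((923417968 : ℕ) : ℝ) + (42949674 : ℕ)) / S) :
    AltA (VFD κ) PP tK tL pcB [⟨3, 0, 0, 1449551462⟩] 0 1 1 0 4 (sgb true) (sgb true) x :=
  strip_altAD (m := 1449551462) true rfl hκ (SH.κ0 hκ (SH.hx1 hx).le (SH.hx2 hx').le) (SH.hx1 hx).le (SH.hx2 hx') (covB00).cov (covB41).cov hx hx' c_A04pp_011_s1 cutA_nil (noExt_A)

noncomputable def cut_A04pp_012_s1 : Cut := Cut.of [[⟨4, 0, 0, 1449551462⟩]]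

noncomputable def f_A04pp_012_s1 : ℕ → ℕ → ℕ → ℕ → Bool := onCell 0 536870912 536870912 536870912 923417968 42949674
    (rowF 0 true true true .pnp 0 1 2 (qsf 0 536870912 536870912 536870912 2) ndB0q0 ndB4q1 pcB2 cut_A04pp_012_s1 Ext.none)

def k0_A04pp_012_s1 : ∃ t, chk3 f_A04pp_012_s1 t 1 1 1 = true :=
  ⟨(l 4), by decide +kernel⟩

theorem c_A04pp_012_s1 : CertF 0 536870912 536870912 536870912 923417968 42949674 true true true .pnp 0 1 2
    ndB0q0 ndB4q1 pcB2 cut_A04pp_012_s1 Ext.none :=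
  certF0 (fam := true) (s1 := true) (s2 := true) (a := 0) (b := 1) (c := 2) (cn := .pnp) (n1 := ndB0q0) (n2 := ndB4q1) (pc := pcB2) (cut := cut_A04pp_012_s1) (xt := Ext.none) (P1 := 0) (W1 := 536870912) (P2 := 536870912) (W2 := 536870912) (P3 := 923417968) (W3 := 42949674)
    rfl k0_A04pp_012_s1

theorem s_A04pp_012_s1 {κ x : ℝ} (hκ : κ * h0 = ken x) (hx : ((923417968 : ℕ) : ℝ) / S ≤ x)
    (hx' : x ≤ (((923417968 : ℕ) : ℝ) + (42949674 : ℕ)) / S) :
    AltA (VFD κ) PP tK tL pcB [⟨3, 0, 0, 1449551462⟩] 0 1 2 0 4 (sgb true) (sgb true) x :=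
  strip_altAD (m := 1449551462) true rfl hκ (SH.κ0 hκ (SH.hx1 hx).le (SH.hx2 hx').le) (SH.hx1 hx).le (SH.hx2 hx') (covB00).cov (covB41).cov hx hx' c_A04pp_012_s1 cutA_nil (noExt_A)

noncomputable def cut_A04pp_022_s1 : Cut := Cut.of [[⟨4, 0, 0, 1449551462⟩]]

noncomputable def f_A04pp_022_s1 : ℕ → ℕ → ℕ → ℕ → Bool := onCell 0 536870912 1073741824 536870912 923417968 42949674
    (rowF 0 true true true .pp 0 2 2 (qsf 0 536870912 1073741824 536870912 2) ndB0q0 ndB4q2 pcB2 cut_A04pp_022_s1 Ext.none)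

def k0_A04pp_022_s1 : ∃ t, chk3 f_A04pp_022_s1 t 1 1 1 = true :=
  ⟨(l 4), by decide +kernel⟩

theorem c_A04pp_022_s1 : CertF 0 536870912 1073741824 536870912 923417968 42949674 true true true .pp 0 2 2
    ndB0q0 ndB4q2 pcB2 cut_A04pp_022_s1 Ext.none :=
  certF0 (fam := true) (s1 := true) (s2 := true) (a := 0) (b := 2) (c := 2) (cn := .pp) (n1 := ndB0q0) (n2 := ndB4q2) (pc := pcB2) (cut := cut_A04pp_022_s1) (xt := Ext.none) (P1 := 0) (W1 := 536870912) (P2 := 1073741824) (W2 := 536870912) (P3 := 923417968) (W3 := 42949674)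
    rfl k0_A04pp_022_s1

theorem s_A04pp_022_s1 {κ x : ℝ} (hκ : κ * h0 = ken x) (hx : ((923417968 : ℕ) : ℝ) / S ≤ x)
    (hx' : x ≤ (((923417968 : ℕ) : ℝ) + (42949674 : ℕ)) / S) :
    AltA (VFD κ) PP tK tL pcB [⟨3, 0, 0, 1449551462⟩] 0 2 2 0 4 (sgb true) (sgb true) x :=
  strip_altAD (m := 1449551462) true rfl hκ (SH.κ0 hκ (SH.hx1 hx).le (SH.hx2 hx').le) (SH.hx1 hx).le (SH.hx2 hx') (covB00).cov (covB42).cov hx hx' c_A04pp_022_s1 cutA_nil (noExt_A)

noncomputable def cut_A04pp_023_s1 : Cut := Cut.of [[⟨4, 0, 0, 1449551462⟩]]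

noncomputable def f_A04pp_023_s1 : ℕ → ℕ → ℕ → ℕ → Bool := onCell 0 536870912 1073741824 536870912 923417968 42949674
    (rowF 0 true true true .up 0 2 3 (qsf 0 536870912 1073741824 536870912 3) ndB0q0 ndB4q2 pcB3 cut_A04pp_023_s1 Ext.none)

def k0_A04pp_023_s1 : ∃ t, chk3 f_A04pp_023_s1 t 1 1 1 = true :=
  ⟨(l 4), by decide +kernel⟩

theorem c_A04pp_023_s1 : CertF 0 536870912 1073741824 536870912 923417968 42949674 true true true .up 0 2 3
    ndB0q0 ndB4q2 pcB3 cut_A04pp_023_s1 Ext.none :=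
  certF0 (fam := true) (s1 := true) (s2 := true) (a := 0) (b := 2) (c := 3) (cn := .up) (n1 := ndB0q0) (n2 := ndB4q2) (pc := pcB3) (cut := cut_A04pp_023_s1) (xt := Ext.none) (P1 := 0) (W1 := 536870912) (P2 := 1073741824) (W2 := 536870912) (P3 := 923417968) (W3 := 42949674)
    rfl k0_A04pp_023_s1

theorem s_A04pp_023_s1 {κ x : ℝ} (hκ : κ * h0 = ken x) (hx : ((923417968 : ℕ) : ℝ) / S ≤ x)
    (hx' : x ≤ (((923417968 : ℕ) : ℝ) + (42949674 : ℕ)) / S) :
    AltA (VFD κ) PP tK tL pcB [⟨3, 0, 0, 1449551462⟩] 0 2 3 0 4 (sgb true) (sgb true) x :=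
  strip_altAD (m := 1449551462) true rfl hκ (SH.κ0 hκ (SH.hx1 hx).le (SH.hx2 hx').le) (SH.hx1 hx).le (SH.hx2 hx') (covB00).cov (covB42).cov hx hx' c_A04pp_023_s1 cutA_nil (noExt_A)

noncomputable def cut_A04pp_033_s1 : Cut := Cut.of [[⟨4, 0, 0, 1449551462⟩]]

noncomputable def f_A04pp_033_s1 : ℕ → ℕ → ℕ → ℕ → Bool := onCell 0 536870912 0 1230186008 923417968 42949674
    (rowF 0 true true true .pnn 0 3 3 (qsf 0 536870912 0 1230186008 3) ndB0q0 ndB4q3 pcB3 cut_A04pp_033_s1 Ext.none)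

def k0_A04pp_033_s1 : ∃ t, chk3 f_A04pp_033_s1 t 1 1 1 = true :=
  ⟨(l 4), by decide +kernel⟩

theorem c_A04pp_033_s1 : CertF 0 536870912 0 1230186008 923417968 42949674 true true true .pnn 0 3 3
    ndB0q0 ndB4q3 pcB3 cut_A04pp_033_s1 Ext.none :=
  certF0 (fam := true) (s1 := true) (s2 := true) (a := 0) (b := 3) (c := 3) (cn := .pnn) (n1 := ndB0q0) (n2 := ndB4q3) (pc := pcB3) (cut := cut_A04pp_033_s1) (xt := Ext.none) (P1 := 0) (W1 := 536870912) (P2 := 0) (W2 := 1230186008) (P3 := 923417968) (W3 := 42949674)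
    rfl k0_A04pp_033_s1

theorem s_A04pp_033_s1 {κ x : ℝ} (hκ : κ * h0 = ken x) (hx : ((923417968 : ℕ) : ℝ) / S ≤ x)
    (hx' : x ≤ (((923417968 : ℕ) : ℝ) + (42949674 : ℕ)) / S) :
    AltA (VFD κ) PP tK tL pcB [⟨3, 0, 0, 1449551462⟩] 0 3 3 0 4 (sgb true) (sgb true) x :=
  strip_altAD (m := 1449551462) true rfl hκ (SH.κ0 hκ (SH.hx1 hx).le (SH.hx2 hx').le) (SH.hx1 hx).le (SH.hx2 hx') (covB00).cov (covB43).cov hx hx' c_A04pp_033_s1 cutA_nil (noExt_A)

noncomputable def cut_A04pp_101_s1 : Cut := Cut.of [[⟨4, 0, 0, 1449551462⟩]]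

noncomputable def f_A04pp_101_s1 : ℕ → ℕ → ℕ → ℕ → Bool := onCell 536870912 536870912 0 536870912 923417968 42949674
    (rowF 0 true true true .npn 1 0 1 (qsf 536870912 536870912 0 536870912 1) ndB0q1 ndB4q0 pcB1 cut_A04pp_101_s1 Ext.none)

def k0_A04pp_101_s1 : ∃ t, chk3 f_A04pp_101_s1 t 1 1 1 = true :=
  ⟨(l 4), by decide +kernel⟩

theorem c_A04pp_101_s1 : CertF 536870912 536870912 0 536870912 923417968 42949674 true true true .npn 1 0 1
    ndB0q1 ndB4q0 pcB1 cut_A04pp_101_s1 Ext.none :=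
  certF0 (fam := true) (s1 := true) (s2 := true) (a := 1) (b := 0) (c := 1) (cn := .npn) (n1 := ndB0q1) (n2 := ndB4q0) (pc := pcB1) (cut := cut_A04pp_101_s1) (xt := Ext.none) (P1 := 536870912) (W1 := 536870912) (P2 := 0) (W2 := 536870912) (P3 := 923417968) (W3 := 42949674)
    rfl k0_A04pp_101_s1

theorem s_A04pp_101_s1 {κ x : ℝ} (hκ : κ * h0 = ken x) (hx : ((923417968 : ℕ) : ℝ) / S ≤ x)
    (hx' : x ≤ (((923417968 : ℕ) : ℝ) + (42949674 : ℕ)) / S) :
    AltA (VFD κ) PP tK tL pcB [⟨3, 0, 0, 1449551462⟩] 1 0 1 0 4 (sgb true) (sgb true) x :=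
  strip_altAD (m := 1449551462) true rfl hκ (SH.κ0 hκ (SH.hx1 hx).le (SH.hx2 hx').le) (SH.hx1 hx).le (SH.hx2 hx') (covB01).cov (covB40).cov hx hx' c_A04pp_101_s1 cutA_nil (noExt_A)

noncomputable def cut_A04pp_102_s1 : Cut := Cut.of [[⟨4, 0, 0, 1449551462⟩]]

noncomputable def f_A04pp_102_s1 : ℕ → ℕ → ℕ → ℕ → Bool := onCell 536870912 536870912 0 536870912 923417968 42949674
    (rowF 0 true true true .npp 1 0 2 (qsf 536870912 536870912 0 536870912 2) ndB0q1 ndB4q0 pcB2 cut_A04pp_102_s1 Ext.none)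

def k0_A04pp_102_s1 : ∃ t, chk3 f_A04pp_102_s1 t 1 1 1 = true :=
  ⟨(l 4), by decide +kernel⟩

theorem c_A04pp_102_s1 : CertF 536870912 536870912 0 536870912 923417968 42949674 true true true .npp 1 0 2
    ndB0q1 ndB4q0 pcB2 cut_A04pp_102_s1 Ext.none :=
  certF0 (fam := true) (s1 := true) (s2 := true) (a := 1) (b := 0) (c := 2) (cn := .npp) (n1 := ndB0q1) (n2 := ndB4q0) (pc := pcB2) (cut := cut_A04pp_102_s1) (xt := Ext.none) (P1 := 536870912) (W1 := 536870912) (P2 := 0) (W2 := 536870912) (P3 := 923417968) (W3 := 42949674)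
    rfl k0_A04pp_102_s1

theorem s_A04pp_102_s1 {κ x : ℝ} (hκ : κ * h0 = ken x) (hx : ((923417968 : ℕ) : ℝ) / S ≤ x)
    (hx' : x ≤ (((923417968 : ℕ) : ℝ) + (42949674 : ℕ)) / S) :
    AltA (VFD κ) PP tK tL pcB [⟨3, 0, 0, 1449551462⟩] 1 0 2 0 4 (sgb true) (sgb true) x :=
  strip_altAD (m := 1449551462) true rfl hκ (SH.κ0 hκ (SH.hx1 hx).le (SH.hx2 hx').le) (SH.hx1 hx).le (SH.hx2 hx') (covB01).cov (covB40).cov hx hx' c_A04pp_102_s1 cutA_nil (noExt_A)

noncomputable def cut_A04pp_112_s1 : Cut := Cut.of [[⟨4, 0, 0, 1449551462⟩]]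

noncomputable def f_A04pp_112_s1 : ℕ → ℕ → ℕ → ℕ → Bool := onCell 536870912 536870912 536870912 536870912 923417968 42949674
    (rowF 0 true true true .dn 1 1 2 (qsf 536870912 536870912 536870912 536870912 2) ndB0q1 ndB4q1 pcB2 cut_A04pp_112_s1 Ext.none)

def k0_A04pp_112_s1 : ∃ t, chk3 f_A04pp_112_s1 t 1 1 1 = true :=
  ⟨(l 4), by decide +kernel⟩

theorem c_A04pp_112_s1 : CertF 536870912 536870912 536870912 536870912 923417968 42949674 true true true .dn 1 1 2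
    ndB0q1 ndB4q1 pcB2 cut_A04pp_112_s1 Ext.none :=
  certF0 (fam := true) (s1 := true) (s2 := true) (a := 1) (b := 1) (c := 2) (cn := .dn) (n1 := ndB0q1) (n2 := ndB4q1) (pc := pcB2) (cut := cut_A04pp_112_s1) (xt := Ext.none) (P1 := 536870912) (W1 := 536870912) (P2 := 536870912) (W2 := 536870912) (P3 := 923417968) (W3 := 42949674)
    rfl k0_A04pp_112_s1

theorem s_A04pp_112_s1 {κ x : ℝ} (hκ : κ * h0 = ken x) (hx : ((923417968 : ℕ) : ℝ) / S ≤ x)
    (hx' : x ≤ (((923417968 : ℕ) : ℝ) + (42949674 : ℕ)) / S) :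
    AltA (VFD κ) PP tK tL pcB [⟨3, 0, 0, 1449551462⟩] 1 1 2 0 4 (sgb true) (sgb true) x :=
  strip_altAD (m := 1449551462) true rfl hκ (SH.κ0 hκ (SH.hx1 hx).le (SH.hx2 hx').le) (SH.hx1 hx).le (SH.hx2 hx') (covB01).cov (covB41).cov hx hx' c_A04pp_112_s1 cutA_nil (noExt_A)

noncomputable def cut_A04pp_113_s1 : Cut := Cut.of [[⟨4, 0, 0, 1449551462⟩]]

noncomputable def f_A04pp_113_s1 : ℕ → ℕ → ℕ → ℕ → Bool := onCell 536870912 536870912 536870912 536870912 923417968 42949674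
    (rowF 0 true true true .nn 1 1 3 (qsf 536870912 536870912 536870912 536870912 3) ndB0q1 ndB4q1 pcB3 cut_A04pp_113_s1 Ext.none)

def k0_A04pp_113_s1 : ∃ t, chk3 f_A04pp_113_s1 t 1 1 1 = true :=
  ⟨(l 4), by decide +kernel⟩

theorem c_A04pp_113_s1 : CertF 536870912 536870912 536870912 536870912 923417968 42949674 true true true .nn 1 1 3
    ndB0q1 ndB4q1 pcB3 cut_A04pp_113_s1 Ext.none :=
  certF0 (fam := true) (s1 := true) (s2 := true) (a := 1) (b := 1) (c := 3) (cn := .nn) (n1 := ndB0q1) (n2 := ndB4q1) (pc := pcB3) (cut := cut_A04pp_113_s1) (xt := Ext.none) (P1 := 536870912) (W1 := 536870912) (P2 := 536870912) (W2 := 536870912) (P3 := 923417968) (W3 := 42949674)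
    rfl k0_A04pp_113_s1

theorem s_A04pp_113_s1 {κ x : ℝ} (hκ : κ * h0 = ken x) (hx : ((923417968 : ℕ) : ℝ) / S ≤ x)
    (hx' : x ≤ (((923417968 : ℕ) : ℝ) + (42949674 : ℕ)) / S) :
    AltA (VFD κ) PP tK tL pcB [⟨3, 0, 0, 1449551462⟩] 1 1 3 0 4 (sgb true) (sgb true) x :=
  strip_altAD (m := 1449551462) true rfl hκ (SH.κ0 hκ (SH.hx1 hx).le (SH.hx2 hx').le) (SH.hx1 hx).le (SH.hx2 hx') (covB01).cov (covB41).cov hx hx' c_A04pp_113_s1 cutA_nil (noExt_A)

noncomputable def cut_A04pp_123_s1 : Cut := Cut.of [[⟨4, 0, 0, 1449551462⟩]]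

noncomputable def f_A04pp_123_s1 : ℕ → ℕ → ℕ → ℕ → Bool := onCell 536870912 536870912 1073741824 536870912 923417968 42949674
    (rowF 0 true true true .npn 1 2 3 (qsf 536870912 536870912 1073741824 536870912 3) ndB0q1 ndB4q2 pcB3 cut_A04pp_123_s1 Ext.none)

def k0_A04pp_123_s1 : ∃ t, chk3 f_A04pp_123_s1 t 1 1 1 = true :=
  ⟨(l 4), by decide +kernel⟩

theorem c_A04pp_123_s1 : CertF 536870912 536870912 1073741824 536870912 923417968 42949674 true true true .npn 1 2 3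
    ndB0q1 ndB4q2 pcB3 cut_A04pp_123_s1 Ext.none :=
  certF0 (fam := true) (s1 := true) (s2 := true) (a := 1) (b := 2) (c := 3) (cn := .npn) (n1 := ndB0q1) (n2 := ndB4q2) (pc := pcB3) (cut := cut_A04pp_123_s1) (xt := Ext.none) (P1 := 536870912) (W1 := 536870912) (P2 := 1073741824) (W2 := 536870912) (P3 := 923417968) (W3 := 42949674)
    rfl k0_A04pp_123_s1

theorem s_A04pp_123_s1 {κ x : ℝ} (hκ : κ * h0 = ken x) (hx : ((923417968 : ℕ) : ℝ) / S ≤ x)
    (hx' : x ≤ (((923417968 : ℕ) : ℝ) + (42949674 : ℕ)) / S) :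
    AltA (VFD κ) PP tK tL pcB [⟨3, 0, 0, 1449551462⟩] 1 2 3 0 4 (sgb true) (sgb true) x :=
  strip_altAD (m := 1449551462) true rfl hκ (SH.κ0 hκ (SH.hx1 hx).le (SH.hx2 hx').le) (SH.hx1 hx).le (SH.hx2 hx') (covB01).cov (covB42).cov hx hx' c_A04pp_123_s1 cutA_nil (noExt_A)

noncomputable def cut_A04pp_133_s1 : Cut := Cut.of [[⟨4, 0, 0, 1449551462⟩]]

noncomputable def f_A04pp_133_s1 : ℕ → ℕ → ℕ → ℕ → Bool := onCell 536870912 536870912 0 1230186008 923417968 42949674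
    (rowF 0 true true true .dn 1 3 3 (qsf 536870912 536870912 0 1230186008 3) ndB0q1 ndB4q3 pcB3 cut_A04pp_133_s1 Ext.none)

def k0_A04pp_133_s1 : ∃ t, chk3 f_A04pp_133_s1 t 1 1 1 = true :=
  ⟨(l 4), by decide +kernel⟩

theorem c_A04pp_133_s1 : CertF 536870912 536870912 0 1230186008 923417968 42949674 true true true .dn 1 3 3
    ndB0q1 ndB4q3 pcB3 cut_A04pp_133_s1 Ext.none :=
  certF0 (fam := true) (s1 := true) (s2 := true) (a := 1) (b := 3) (c := 3) (cn := .dn) (n1 := ndB0q1) (n2 := ndB4q3) (pc := pcB3) (cut := cut_A04pp_133_s1) (xt := Ext.none) (P1 := 536870912) (W1 := 536870912) (P2 := 0) (W2 := 1230186008) (P3 := 923417968) (W3 := 42949674)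
    rfl k0_A04pp_133_s1

theorem s_A04pp_133_s1 {κ x : ℝ} (hκ : κ * h0 = ken x) (hx : ((923417968 : ℕ) : ℝ) / S ≤ x)
    (hx' : x ≤ (((923417968 : ℕ) : ℝ) + (42949674 : ℕ)) / S) :
    AltA (VFD κ) PP tK tL pcB [⟨3, 0, 0, 1449551462⟩] 1 3 3 0 4 (sgb true) (sgb true) x :=
  strip_altAD (m := 1449551462) true rfl hκ (SH.κ0 hκ (SH.hx1 hx).le (SH.hx2 hx').le) (SH.hx1 hx).le (SH.hx2 hx') (covB01).cov (covB43).cov hx hx' c_A04pp_133_s1 cutA_nil (noExt_A)

noncomputable def cut_A04pp_202_s1 : Cut := Cut.of [[⟨4, 0, 0, 1449551462⟩]]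

noncomputable def f_A04pp_202_s1 : ℕ → ℕ → ℕ → ℕ → Bool := onCell 0 536870912 0 536870912 923417968 42949674
    (rowF 0 true true true .pp 2 0 2 (qsf 0 536870912 0 536870912 2) ndB0q2 ndB4q0 pcB2 cut_A04pp_202_s1 Ext.none)

def k0_A04pp_202_s1 : ∃ t, chk3 f_A04pp_202_s1 t 1 1 1 = true :=
  ⟨(l 4), by decide +kernel⟩

theorem c_A04pp_202_s1 : CertF 0 536870912 0 536870912 923417968 42949674 true true true .pp 2 0 2
    ndB0q2 ndB4q0 pcB2 cut_A04pp_202_s1 Ext.none :=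
  certF0 (fam := true) (s1 := true) (s2 := true) (a := 2) (b := 0) (c := 2) (cn := .pp) (n1 := ndB0q2) (n2 := ndB4q0) (pc := pcB2) (cut := cut_A04pp_202_s1) (xt := Ext.none) (P1 := 0) (W1 := 536870912) (P2 := 0) (W2 := 536870912) (P3 := 923417968) (W3 := 42949674)
    rfl k0_A04pp_202_s1

theorem s_A04pp_202_s1 {κ x : ℝ} (hκ : κ * h0 = ken x) (hx : ((923417968 : ℕ) : ℝ) / S ≤ x)
    (hx' : x ≤ (((923417968 : ℕ) : ℝ) + (42949674 : ℕ)) / S) :
    AltA (VFD κ) PP tK tL pcB [⟨3, 0, 0, 1449551462⟩] 2 0 2 0 4 (sgb true) (sgb true) x :=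
  strip_altAD (m := 1449551462) true rfl hκ (SH.κ0 hκ (SH.hx1 hx).le (SH.hx2 hx').le) (SH.hx1 hx).le (SH.hx2 hx') (covB02).cov (covB40).cov hx hx' c_A04pp_202_s1 cutA_nil (noExt_A)

noncomputable def cut_A04pp_203_s1 : Cut := Cut.of [[⟨4, 0, 0, 1449551462⟩]]

noncomputable def f_A04pp_203_s1 : ℕ → ℕ → ℕ → ℕ → Bool := onCell 0 536870912 0 536870912 923417968 42949674
    (rowF 0 true true true .up 2 0 3 (qsf 0 536870912 0 536870912 3) ndB0q2 ndB4q0 pcB3 cut_A04pp_203_s1 Ext.none)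

def k0_A04pp_203_s1 : ∃ t, chk3 f_A04pp_203_s1 t 1 1 1 = true :=
  ⟨(l 4), by decide +kernel⟩

theorem c_A04pp_203_s1 : CertF 0 536870912 0 536870912 923417968 42949674 true true true .up 2 0 3
    ndB0q2 ndB4q0 pcB3 cut_A04pp_203_s1 Ext.none :=
  certF0 (fam := true) (s1 := true) (s2 := true) (a := 2) (b := 0) (c := 3) (cn := .up) (n1 := ndB0q2) (n2 := ndB4q0) (pc := pcB3) (cut := cut_A04pp_203_s1) (xt := Ext.none) (P1 := 0) (W1 := 536870912) (P2 := 0) (W2 := 536870912) (P3 := 923417968) (W3 := 42949674)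
    rfl k0_A04pp_203_s1

theorem s_A04pp_203_s1 {κ x : ℝ} (hκ : κ * h0 = ken x) (hx : ((923417968 : ℕ) : ℝ) / S ≤ x)
    (hx' : x ≤ (((923417968 : ℕ) : ℝ) + (42949674 : ℕ)) / S) :
    AltA (VFD κ) PP tK tL pcB [⟨3, 0, 0, 1449551462⟩] 2 0 3 0 4 (sgb true) (sgb true) x :=
  strip_altAD (m := 1449551462) true rfl hκ (SH.κ0 hκ (SH.hx1 hx).le (SH.hx2 hx').le) (SH.hx1 hx).le (SH.hx2 hx') (covB02).cov (covB40).cov hx hx' c_A04pp_203_s1 cutA_nil (noExt_A)

noncomputable def cut_A04pp_213_s1 : Cut := Cut.of [[⟨4, 0, 0, 1449551462⟩]]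

noncomputable def f_A04pp_213_s1 : ℕ → ℕ → ℕ → ℕ → Bool := onCell 0 536870912 536870912 536870912 923417968 42949674
    (rowF 0 true true true .pnn 2 1 3 (qsf 0 536870912 536870912 536870912 3) ndB0q2 ndB4q1 pcB3 cut_A04pp_213_s1 Ext.none)

def k0_A04pp_213_s1 : ∃ t, chk3 f_A04pp_213_s1 t 1 1 1 = true :=
  ⟨(l 4), by decide +kernel⟩

theorem c_A04pp_213_s1 : CertF 0 536870912 536870912 536870912 923417968 42949674 true true true .pnn 2 1 3
    ndB0q2 ndB4q1 pcB3 cut_A04pp_213_s1 Ext.none :=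
  certF0 (fam := true) (s1 := true) (s2 := true) (a := 2) (b := 1) (c := 3) (cn := .pnn) (n1 := ndB0q2) (n2 := ndB4q1) (pc := pcB3) (cut := cut_A04pp_213_s1) (xt := Ext.none) (P1 := 0) (W1 := 536870912) (P2 := 536870912) (W2 := 536870912) (P3 := 923417968) (W3 := 42949674)
    rfl k0_A04pp_213_s1

theorem s_A04pp_213_s1 {κ x : ℝ} (hκ : κ * h0 = ken x) (hx : ((923417968 : ℕ) : ℝ) / S ≤ x)
    (hx' : x ≤ (((923417968 : ℕ) : ℝ) + (42949674 : ℕ)) / S) :
    AltA (VFD κ) PP tK tL pcB [⟨3, 0, 0, 1449551462⟩] 2 1 3 0 4 (sgb true) (sgb true) x :=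
  strip_altAD (m := 1449551462) true rfl hκ (SH.κ0 hκ (SH.hx1 hx).le (SH.hx2 hx').le) (SH.hx1 hx).le (SH.hx2 hx') (covB02).cov (covB41).cov hx hx' c_A04pp_213_s1 cutA_nil (noExt_A)

noncomputable def cut_A04pm_001_s1 : Cut := Cut.of [[⟨4, 0, 0, 1449551462⟩]]

noncomputable def xt_A04pm_001_s1 : Ext := strExt dd true true false .u0 .s0m .u0m .up 0 0 1 rfl rfl gf1 vv ndB0q0 ndB4q0

noncomputable def f_A04pm_001_s1 : ℕ → ℕ → ℕ → ℕ → Bool := onCell 0 536870912 536870912 536870912 923417968 42949674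
    (rowF 1 true true false .up 0 0 1 (qsf 0 536870912 0 536870912 1) ndB0q0 ndB4q0 pcB1 cut_A04pm_001_s1 xt_A04pm_001_s1)

def k0_A04pm_001_s1 : ∃ t, chk3 f_A04pm_001_s1 t 1 1 1 = true :=
  ⟨(a (b (l 3) (b (b (l 3) (l 2)) (l 2))) (b (b (l 3) (a (l 3) (a (b (l 3) (a (b (l 3) (b (a (l 3) (l 518694415)) (l 519549967))) (b (l 518372879) (b (l 518853903) (l 519390479))))) (b (b (a (l 3) (c (l 517456399) (l 519128079))) (a (l 517783567) (a (l 518710031) (l 519167503)))) (b (a (l 518806543) (l 519288335)) (a (l 519512847) (l 519862543))))))) (b (a (a (b (a (l 3) (b (l 3) (c (l 521458447) (l 522407951)))) (a (l 2) (b (b (l 522703375) (l 2)) (l 2)))) (b (a (b (l 3) (c (l 521534991) (a (l 522473999) (l 522510351)))) (b (l 520754191) (b (l 521745423) (l 522349071)))) (b (a (b (c (l 522356751) (l 523306511)) (l 523846671)) (b (l 522910735) (l 523432207))) (a (a (l 2) (l 523950607)) (a (l 524044559) (l 16675384)))))) (b (a (a (b (l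 520698639) (l 522064143)) (b (a (l 520662543) (l 520567311)) (a (l 522032655) (l 522006799)))) (b (a (l 520622863) (l 520840207)) (a (l 521994255) (l 522058255)))) (a (b (a (l 523252751) (l 523279375)) (a (l 524249103) (l 16590416))) (b (a (l 523269391) (l 16433808)) (a (l 16452616) (l 16396776)))))) (b (a (a (l 2) (a (l 2) (b (l 525857551) (l 2)))) (a (b (a (l 16593072) (l 16459072)) (a (l 16462400) (l 16410176))) (b (a (l 16405392) (l 16354288)) (a (l 16358952) (l 16311176))))) (a (l 2) (b (a (a (l 2) (l 16361080)) (a (l 16312392) (l 16267920))) (a (l 2) (l 16327704)))))))), by decide +kernel⟩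

theorem c_A04pm_001_s1 : CertF 0 536870912 0 536870912 923417968 42949674 true true false .up 0 0 1
    ndB0q0 ndB4q0 pcB1 cut_A04pm_001_s1 xt_A04pm_001_s1 :=
  certF1 (fam := true) (s1 := true) (s2 := false) (a := 0) (b := 0) (c := 1) (cn := .up) (n1 := ndB0q0) (n2 := ndB4q0) (pc := pcB1) (cut := cut_A04pm_001_s1) (xt := xt_A04pm_001_s1) (P1 := 0) (W1 := 536870912) (P2 := 0) (W2 := 536870912) (P3 := 923417968) (W3 := 42949674)
    rfl (fun _ => rfl) k0_A04pm_001_s1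

theorem s_A04pm_001_s1 {κ x : ℝ} (hκ : κ * h0 = ken x) (hx : ((923417968 : ℕ) : ℝ) / S ≤ x)
    (hx' : x ≤ (((923417968 : ℕ) : ℝ) + (42949674 : ℕ)) / S) :
    AltA (VFD κ) PP tK tL pcB [⟨3, 0, 0, 1449551462⟩] 0 0 1 0 4 (sgb true) (sgb false) x :=
  strip_altAD (m := 1449551462) true rfl hκ (SH.κ0 hκ (SH.hx1 hx).le (SH.hx2 hx').le) (SH.hx1 hx).le (SH.hx2 hx') (covB00).cov (covB40).cov hx hx' c_A04pm_001_s1 cutA_nil ((okx hx hx').extA (T := tt) (sideB hx hx') hκ rfl rfl (.O 0 true) (.N 0 false) (Or.inr rfl))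

noncomputable def cut_A04pm_011_s1 : Cut := Cut.of [[⟨4, 0, 0, 1449551462⟩], [⟨0, 0, 0, 67108864⟩, ⟨1, 1, 0, 67108864⟩, ⟨2, 1, 0, 67108864⟩]]

noncomputable def xt_A04pm_011_s1 : Ext := strExt dd true true false .u0 .s0m .u0m .pnn 0 1 1 rfl rfl gf1 vv ndB0q0 ndB4q1

noncomputable def f_A04pm_011_s1 : ℕ → ℕ → ℕ → ℕ → Bool := onCell 0 536870912 536870912 536870912 923417968 42949674
    (rowF 1 true true false .pnn 0 1 1 (qsf 0 536870912 536870912 536870912 1) ndB0q0 ndB4q1 pcB1 cut_A04pm_011_s1 xt_A04pm_011_s1)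

def k0_A04pm_011_s1 : ∃ t, chk3 f_A04pm_011_s1 t 1 2 1 = true :=
  ⟨(a (l 3) (a (a (l 3) (l 1)) (l 1))), by decide +kernel⟩

def k1_A04pm_011_s1 : ∃ t, chk3 f_A04pm_011_s1 t 1 6 1 = true :=
  ⟨(a (a (l 3) (a (l 3) (b (l 3) (b (l 3) (a (l 523307023) (l 523366671)))))) (a (a (b (a (l 3) (b (l 3) (c (l 520643343) (l 522396943)))) (a (b (b (l 3) (a (l 523012111) (l 523075855))) (a (l 523439375) (c (l 523143439) (l 524087311)))) (b (c (l 522463247) (l 523429903)) (c (l 523228431) (l 524167951))))) (b (a (b (l 1) (c (l 521529103) (l 522486287))) (l 1)) (b (a (b (c (l 522352399) (l 523301647)) (l 523304207)) (b (l 1) (l 523428879))) (a (c (l 523432719) (l 524380431)) (c (l 16680080) (l 16692920)))))) (b (l 1) (a (b (l 1) (a (l 53183518983) (l 1))) (l 1))))), by decide +kernel⟩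

def k2_A04pm_011_s1 : ∃ t, chk3 f_A04pm_011_s1 t 2 14 1 = true :=
  ⟨(a (b (l 3) (a (l 3) (a (l 3) (b (l 3) (a (l 3) (l 523183119)))))) (a (a (b (l 3) (a (b (l 3) (l 523694351)) (b (c (a (l 524188687) (l 524169487)) (l 523993103)) (c (a (l 524277263) (l 524429071)) (a (l 523874063) (l 524059663)))))) (b (a (l 523985679) (l 523970831)) (b (a (l 524446735) (l 524546063)) (a (b (l 524410639) (l 524463375)) (l 524635151))))) (b (a (a (l 523964687) (l 523966991)) (l 523977999)) (b (a (l 524507151) (l 524506895)) (a (l 524828687) (l 524840719)))))), by decide +kernel⟩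

def k3_A04pm_011_s1 : ∃ t, chk3 f_A04pm_011_s1 t 2 15 2 = true :=
  ⟨(b (a (a (b (l 3) (a (l 3) (a (l 3) (a (l 3) (b (l 3) (l 522018063)))))) (a (a (b (l 3) (a (b (l 3) (l 522045199)) (b (l 522352655) (l 522071311)))) (b (a (l 3) (l 522794767)) (a (b (l 522424847) (l 522151439)) (l 522407951)))) (a (b (l 522957583) (b (l 522703887) (l 522458895))) (b (l 523322895) (b (l 523083791) (l 522855439)))))) (a (a (a (b (l 523793679) (l 523471375)) (b (l 524415759) (l 524036367))) (b (a (l 524570383) (l 524606735)) (a (l 16671680) (l 16654680)))) (a (b (l 524667151) (l 524968207)) (b (l 16616600) (l 16590576))))) (a (b (a (a (b (l 3) (l 14)) (a (a (b (l 3) (a (l 14) (l 520963855))) (a (l 521483023) (l 521465615))) (a (a (l 520648719) (l 521448463)) (a (l 521448719) (l 521455119))))) (a (a (a (l 521457935) (l 521502735)) (a (l 521609743) (l 521203471))) (a (a (l 521901839) (l 522089231)) (l 522398479)))) (a (a (l 14) (a (a (l 14)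 (a (l 14) (b (l 520667919) (l 14)))) (a (a (l 519058191) (l 520412943)) (a (l 520431631) (l 520455695))))) (a (a (a (a (l 520485391) (l 520520463)) (l 520571407)) (a (l 520688911) (l 520841231))) (a (b (l 16626496) (l 16644040)) (l 520521487))))) (a (a (a (b (l 522928399) (l 522178575)) (b (l 16649792) (l 16522240))) (b (a (l 16634800) (l 16619288)) (l 16585416))) (a (b (l 16594768) (l 16556256)) (c (l 16629208) (l 16628368)))))), by decide +kernel⟩

def k4_A04pm_011_s1 : ∃ t, chk3 f_A04pm_011_s1 t 2 15 3 = true :=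
  ⟨(b (a (a (b (l 3) (a (l 3) (a (l 3) (a (l 3) (b (l 3) (l 520716815)))))) (a (a (b (l 3) (a (b (l 3) (l 521305359)) (b (l 521138191) (l 521150735)))) (b (a (l 3) (l 522159119)) (a (b (l 521781263) (l 521537295)) (l 521815567)))) (a (b (l 522380559) (b (l 521882127) (l 521116431))) (b (l 522822159) (b (l 522607375) (l 522392335)))))) (a (a (a (b (l 523369999) (l 523073039)) (b (l 524074511) (l 523709711))) (b (a (l 524310543) (l 524548111)) (a (l 16669392) (l 16652416)))) (a (b (l 524833295) (l 524795663)) (b (l 16623536) (l 16592616))))) (a (b (a (a (b (l 3) (l 14)) (a (a (b (l 3) (a (l 14) (l 520434703))) (a (b (l 3) (l 520421903)) (l 519344655))) (a (a (l 520686863) (l 520697359)) (a (l 520717839) (l 520748815))))) (a (a (a (l 519185423) (l 519586063)) (a (b (l 521232399) (l 520844559)) (l 521215247))) (a (a (l 521400847) (l 521615375)) (l 521969935)))) (a (a (l 14) (a (a (l 14) (a (l 14) (b (l 519836431) (l 14))))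 (a (a (l 518471439) (l 519575823)) (a (l 519616527) (l 519666703))))) (a (a (a (b (l 520031247) (l 16667304)) (l 519903759)) (a (l 520088847) (l 520293647))) (a (b (l 16623136) (l 16639728)) (l 520625167))))) (a (a (a (b (l 522562575) (l 521807375)) (b (l 16646896) (l 16518464))) (b (a (l 16632040) (l 16616696)) (l 16582064))) (a (b (l 16592408) (l 16553416)) (b (l 16559576) (l 16523576)))))), by decide +kernel⟩

def k5_A04pm_011_s1 : ∃ t, chk3 f_A04pm_011_s1 t 3 7 1 = true :=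
  ⟨(b (a (a (b (a (a (l 524027919) (l 524069903)) (a (l 524152847) (l 524275215))) (a (b (l 524542735) (l 524874767)) (c (l 16657704) (l 16628760)))) (a (b (c (l 16648712) (l 16682920)) (b (l 16553120) (l 16528184))) (b (l 524772367) (l 16502344)))) (a (b (a (l 16507616) (l 16460448)) (a (l 16464232) (l 16411784))) (b (l 1) (l 16420624)))) (a (a (b (a (b (l 16581224) (l 16556552)) (b (l 16541496) (l 16518000))) (a (b (l 16528848) (l 16494264)) (l 16480088))) (b (a (l 16492392) (l 16458256)) (a (l 16444928) (l 16405720)))) (b (a (a (l 16413632) (l 16362984)) (l 16291936)) (a (l 16337952) (l 16248088))))), by decide +kernel⟩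

theorem t6_A04pm_011_s1 : ∃ t, chk3 f_A04pm_011_s1 t 2 15 1 = true := ex3_c k3_A04pm_011_s1 k4_A04pm_011_s1

theorem t7_A04pm_011_s1 : ∃ t, chk3 f_A04pm_011_s1 t 2 7 1 = true := ex3_b k2_A04pm_011_s1 t6_A04pm_011_s1

theorem t8_A04pm_011_s1 : ∃ t, chk3 f_A04pm_011_s1 t 1 7 1 = true := ex3_a t7_A04pm_011_s1 k5_A04pm_011_s1

theorem t9_A04pm_011_s1 : ∃ t, chk3 f_A04pm_011_s1 t 1 3 1 = true := ex3_b k1_A04pm_011_s1 t8_A04pm_011_s1

theorem t10_A04pm_011_s1 : ∃ t, chk3 f_A04pm_011_s1 t 1 1 1 = true := ex3_b k0_A04pm_011_s1 t9_A04pm_011_s1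

theorem c_A04pm_011_s1 : CertF 0 536870912 536870912 536870912 923417968 42949674 true true false .pnn 0 1 1
    ndB0q0 ndB4q1 pcB1 cut_A04pm_011_s1 xt_A04pm_011_s1 :=
  certF1 (fam := true) (s1 := true) (s2 := false) (a := 0) (b := 1) (c := 1) (cn := .pnn) (n1 := ndB0q0) (n2 := ndB4q1) (pc := pcB1) (cut := cut_A04pm_011_s1) (xt := xt_A04pm_011_s1) (P1 := 0) (W1 := 536870912) (P2 := 536870912) (W2 := 536870912) (P3 := 923417968) (W3 := 42949674)
    rfl (fun _ => rfl) t10_A04pm_011_s1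

theorem s_A04pm_011_s1 {κ x : ℝ} (hκ : κ * h0 = ken x) (hx : ((923417968 : ℕ) : ℝ) / S ≤ x)
    (hx' : x ≤ (((923417968 : ℕ) : ℝ) + (42949674 : ℕ)) / S)
    (H : CutA (VFD κ) PP tK tL pcB (Cut.of [[⟨0, 0, 0, 67108864⟩, ⟨1, 1, 0, 67108864⟩, ⟨2, 1, 0, 67108864⟩]]) 0 1 1 0 4 (sgb true) (sgb false) x) :
    AltA (VFD κ) PP tK tL pcB [⟨3, 0, 0, 1449551462⟩] 0 1 1 0 4 (sgb true) (sgb false) x :=
  strip_altAD (m := 1449551462) true rfl hκ (SH.κ0 hκ (SH.hx1 hx).le (SH.hx2 hx').le) (SH.hx1 hx).le (SH.hx2 hx') (covB00).cov (covB41).cov hx hx' c_A04pm_011_s1 H ((okx hx hx').extA (T := tt) (sideB hx hx') hκ rfl rfl (.O 0 true) (.N 1 false) (Or.inr rfl))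

noncomputable def cut_A04pm_012_s1 : Cut := Cut.of [[⟨4, 0, 0, 1449551462⟩], [⟨0, 0, 0, 67108864⟩, ⟨1, 1, 0, 67108864⟩, ⟨2, 1, 0, 67108864⟩]]

noncomputable def f_A04pm_012_s1 : ℕ → ℕ → ℕ → ℕ → Bool := onCell 1073741824 536870912 536870912 536870912 923417968 42949674
    (rowF 2 true true false .pnp 0 1 2 (qsf 0 536870912 536870912 536870912 2) ndB0q0 ndB4q1 pcB2 cut_A04pm_012_s1 Ext.none)

def k0_A04pm_012_s1 : ∃ t, chk3 f_A04pm_012_s1 t 4 2 1 = true :=
  ⟨(b (a (b (a (l 16302976) (l 6)) (a (b (l 16161744) (l 16177072)) (l 16245400))) (l 6)) (a (b (a (b (l 16191976) (l 16169680)) (b (l 16228352) (l 16266000))) (a (b (l 16067824) (a (l 16158864) (l 16283112))) (b (l 16296984) (l 16332248)))) (b (a (l 16149272) (l 6)) (a (b (l 16199760) (l 16224920)) (l 16099136))))), by decide +kernel⟩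

def k1_A04pm_012_s1 : ∃ t, chk3 f_A04pm_012_s1 t 4 6 1 = true :=
  ⟨(a (b (a (b (a (b (l 16273112) (l 16308968)) (l 16157896)) (a (b (l 16346552) (l 16384760)) (l 16396264))) (b (a (l 16358008) (l 16346152)) (a (l 16423888) (l 16362032)))) (a (b (a (a (l 16351064) (l 16366664)) (l 16388496)) (a (a (b (l 16493640) (l 16531488)) (b (l 16508640) (l 16546904))) (b (l 16529920) (l 16545704)))) (b (a (l 16448312) (l 16364160)) (a (l 16450552) (l 16275760))))) (b (a (b (l 16242936) (l 16250456)) (b (l 16115264) (l 15901904))) (a (a (b (l 16283240) (l 16272096)) (b (l 16205736) (l 16187936))) (b (a (l 16131056) (l 16058936)) (a (l 16107168) (l 16029944)))))), by decide +kernel⟩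

def k2_A04pm_012_s1 : ∃ t, chk3 f_A04pm_012_s1 t 8 14 1 = true :=
  ⟨(a (b (a (b (a (l 16483408) (l 16583336)) (a (c (l 16599808) (l 16517144)) (l 16616872))) (b (l 16506792) (a (l 16578976) (l 16441712)))) (a (b (a (b (l 16539856) (l 16596768)) (l 16641912)) (a (a (a (l 16612232) (l 16616400)) (l 16622592)) (b (l 16648672) (l 16569432)))) (a (b (l 16585312) (b (l 16506904) (l 16510840))) (b (l 16445768) (c (l 16543216) (l 16526888)))))) (b (a (b (l 16364992) (a (l 16473656) (l 16422760))) (b (l 16353408) (a (l 16372952) (l 16324408)))) (a (a (b (l 16475080) (l 16478592)) (b (l 16421696) (l 16422952))) (c (b (l 16359416) (l 16357912)) (b (l 16328472) (l 16324752)))))), by decide +kernel⟩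

def k3_A04pm_012_s1 : ∃ t, chk3 f_A04pm_012_s1 t 8 15 1 = true :=
  ⟨(a (b (a (a (b (a (b (l 16635408) (l 14)) (b (l 16685352) (l 16698872))) (l 14)) (a (b (l 16633312) (l 14)) (b (b (l 16559256) (l 16563824)) (b (l 16610312) (l 14))))) (c (b (a (a (l 16621288) (l 16592904)) (l 16550640)) (a (a (l 16630224) (l 16601488)) (b (l 16556528) (l 16560536)))) (a (a (b (l 16609880) (l 16618392)) (b (l 16579016) (l 16587048))) (b (l 16532984) (b (l 16538312) (l 16542160)))))) (a (l 14) (a (l 14) (a (l 14) (b (b (l 16540472) (l 14)) (l 14)))))) (b (a (b (a (c (l 16494768) (l 16472216)) (b (l 16425224) (l 16427312))) (a (c (b (l 16499832) (l 16503424)) (b (l 16476504) (l 16479816))) (c (b (l 16443736) (l 16446808)) (l 16416576)))) (b (c (b (l 16358456) (l 16359544)) (l 16344904)) (a (c (l 16347632) (l 16355760)) (c (l 16334720) (l 16295720))))) (a (b (a (b (c (l 16507104) (l 16483440)) (c (l 16510776) (l 16487376))) (c (b (l 16450064)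 (a (l 16467744) (l 16439176))) (b (l 16421056) (l 16403576)))) (a (l 14) (a (l 14) (b (b (l 16468904) (l 14)) (l 14))))) (b (c (b (a (l 16393536) (l 16337632)) (a (l 16438464) (l 16340096))) (a (c (l 16338008) (l 16309680)) (b (l 16298000) (l 16300272)))) (a (c (b (a (l 16413952) (l 16385432)) (a (l 14) (l 16430592))) (b (c (l 16374336) (l 16356664)) (a (l 14) (l 16353728)))) (c (b (c (l 16352336) (l 16333208)) (c (l 16365728) (l 16336320))) (b (l 16271704) (c (l 16316696) (l 16296384))))))))), by decide +kernel⟩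

def k4_A04pm_012_s1 : ∃ t, chk3 f_A04pm_012_s1 t 9 7 1 = true :=
  ⟨(b (b (a (a (c (l 16274672) (l 16238520)) (b (l 16171896) (l 16160720))) (a (b (l 16086344) (l 16071976)) (l 15995616))) (a (a (b (c (l 16264200) (l 16224192)) (c (l 16258744) (l 16216152))) (b (l 16149600) (c (l 16163936) (l 16112048)))) (a (c (l 16037792) (l 15936536)) (b (l 15969288) (l 15868440))))) (a (b (a (b (c (l 16234064) (l 16210088)) (c (a (l 16280792) (l 16227904)) (a (l 16236632) (l 16178608)))) (b (c (l 16114368) (l 16101672)) (c (a (l 16176168) (l 16125672)) (l 16051928)))) (a (b (c (a (b (l 16282520) (l 16284312)) (b (l 16228296) (l 16229320))) (a (b (l 16237560) (l 16239096)) (l 16178272))) (c (a (b (l 16328496) (c (l 16299880) (l 16278216))) (b (l 16230888) (c (l 16245048) (l 16220672)))) (a (b (l 16241312) (l 16307136)) (b (l 16180160) (l 16182384))))) (a (b (c (l 16258968) (l 16119264)) (c (b (l 16176040) (l 16261336)) (b (l 16119792)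 (l 16121272)))) (b (c (l 16122464) (l 16061336)) (c (b (l 16122096) (l 16122752)) (l 16144440)))))) (b (c (a (b (l 16062008) (a (l 16076672) (l 16028784))) (b (l 15972304) (l 15875072))) (a (b (l 15997824) (l 15901824)) (b (l 15898784) (l 15882192)))) (c (a (b (a (l 16071016) (l 16020824)) (b (c (l 16059840) (l 16026208)) (a (l 16068968) (l 16016208)))) (b (a (l 15972152) (l 15924600)) (a (b (l 15966792) (l 15964592)) (l 15999656)))) (a (a (b (l 16004616) (l 16001664)) (b (l 15949216) (l 15943880))) (b (l 15785088) (a (l 15887328) (l 15832104)))))))), by decide +kernel⟩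

def k5_A04pm_012_s1 : ∃ t, chk3 f_A04pm_012_s1 t 5 1 1 = true :=
  ⟨(b (b (l 6) (l 6)) (b (a (b (b (l 6) (a (l 15985272) (l 6))) (a (a (b (l 15990096) (l 15955624)) (a (b (l 15939944) (l 15901560)) (b (l 6) (a (l 15875400) (l 15857840))))) (b (l 6) (c (l 15820440) (l 15742896))))) (l 6)) (a (b (a (a (b (l 15831568) (c (l 15911896) (l 15835200))) (a (b (l 15857720) (l 15811984)) (b (c (l 15774200) (l 15779888)) (a (l 15781568) (l 15688304))))) (b (c (l 15771632) (l 15684584)) (c (l 15637424) (l 15540640)))) (a (a (b (c (b (l 15885792) (l 15869968)) (l 15709240)) (b (c (b (l 15859152) (l 15852368)) (l 15765848)) (c (b (l 15846520) (l 15925400)) (a (l 15778480) (l 15726040))))) (b (a (c (l 15814144) (l 15722440)) (a (b (l 15747368) (l 15726296)) (c (b (l 15773184) (l 15753616)) (l 15665304)))) (b (a (l 15825368) (a (l 15707168) (c (l 15735728) (l 15631704)))) (a (c (l 15774664) (l 15674840)) (a (c (l 15741480) (l 15637464))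 (c (a (l 15725320) (l 15714680)) (l 15612808))))))) (b (c (b (l 15684072) (l 15661080)) (b (l 15579688) (l 15551936))) (c (a (b (l 15682040) (l 15664352)) (b (l 15598144) (l 15577320))) (b (l 15442464) (a (l 15551528) (l 15456504))))))) (a (a (b (l 6) (b (c (l 15557664) (l 15439984)) (b (l 15540984) (c (l 15494192) (l 15365648))))) (b (l 6) (l 6))) (l 6))))), by decide +kernel⟩

def k6_A04pm_012_s1 : ∃ t, chk3 f_A04pm_012_s1 t 3 1 1 = true :=
  ⟨(b (l 6) (l 6)), by decide +kernel⟩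

theorem t7_A04pm_012_s1 : ∃ t, chk3 f_A04pm_012_s1 t 8 7 1 = true := ex3_b k2_A04pm_012_s1 k3_A04pm_012_s1

theorem t8_A04pm_012_s1 : ∃ t, chk3 f_A04pm_012_s1 t 4 7 1 = true := ex3_a t7_A04pm_012_s1 k4_A04pm_012_s1

theorem t9_A04pm_012_s1 : ∃ t, chk3 f_A04pm_012_s1 t 4 3 1 = true := ex3_b k1_A04pm_012_s1 t8_A04pm_012_s1

theorem t10_A04pm_012_s1 : ∃ t, chk3 f_A04pm_012_s1 t 4 1 1 = true := ex3_b k0_A04pm_012_s1 t9_A04pm_012_s1

theorem t11_A04pm_012_s1 : ∃ t, chk3 f_A04pm_012_s1 t 2 1 1 = true := ex3_a t10_A04pm_012_s1 k5_A04pm_012_s1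

theorem t12_A04pm_012_s1 : ∃ t, chk3 f_A04pm_012_s1 t 1 1 1 = true := ex3_a t11_A04pm_012_s1 k6_A04pm_012_s1

theorem c_A04pm_012_s1 : CertF 0 536870912 536870912 536870912 923417968 42949674 true true false .pnp 0 1 2
    ndB0q0 ndB4q1 pcB2 cut_A04pm_012_s1 Ext.none :=
  certF2 (fam := true) (s1 := true) (s2 := false) (a := 0) (b := 1) (c := 2) (cn := .pnp) (n1 := ndB0q0) (n2 := ndB4q1) (pc := pcB2) (cut := cut_A04pm_012_s1) (xt := Ext.none) (P1 := 0) (W1 := 536870912) (P2 := 536870912) (W2 := 536870912) (P3 := 923417968) (W3 := 42949674)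
    rfl (fun _ => rfl) t12_A04pm_012_s1

theorem s_A04pm_012_s1 {κ x : ℝ} (hκ : κ * h0 = ken x) (hx : ((923417968 : ℕ) : ℝ) / S ≤ x)
    (hx' : x ≤ (((923417968 : ℕ) : ℝ) + (42949674 : ℕ)) / S)
    (H : CutA (VFD κ) PP tK tL pcB (Cut.of [[⟨0, 0, 0, 67108864⟩, ⟨1, 1, 0, 67108864⟩, ⟨2, 1, 0, 67108864⟩]]) 0 1 2 0 4 (sgb true) (sgb false) x) :
    AltA (VFD κ) PP tK tL pcB [⟨3, 0, 0, 1449551462⟩] 0 1 2 0 4 (sgb true) (sgb false) x :=
  strip_altAD (m := 1449551462) true rfl hκ (SH.κ0 hκ (SH.hx1 hx).le (SH.hx2 hx').le) (SH.hx1 hx).le (SH.hx2 hx') (covB00).cov (covB41).cov hx hx' c_A04pm_012_s1 H (noExt_A)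

noncomputable def cut_A04pm_022_s1 : Cut := Cut.of [[⟨4, 0, 0, 1449551462⟩], [⟨0, 0, 0, 67108864⟩, ⟨1, 1, 0, 67108864⟩, ⟨2, 1, 0, 67108864⟩]]

noncomputable def f_A04pm_022_s1 : ℕ → ℕ → ℕ → ℕ → Bool := onCell 1073741824 536870912 1073741824 536870912 923417968 42949674
    (rowF 2 true true false .pp 0 2 2 (qsf 0 536870912 1073741824 536870912 2) ndB0q0 ndB4q2 pcB2 cut_A04pm_022_s1 Ext.none)

def k0_A04pm_022_s1 : ∃ t, chk3 f_A04pm_022_s1 t 8 2 1 = true :=
  ⟨(b (b (a (b (l 14) (b (l 14) (l 1))) (b (a (l 14) (a (l 14) (a (l 14) (b (c (b (l 16336904) (l 16406768)) (c (l 16271640) (l 16336800))) (c (l 16478520) (l 16451320)))))) (a (b (l 14) (b (l 14) (l 1))) (b (a (l 14) (c (l 16500200) (l 16483552))) (a (b (l 14) (l 735546366567)) (a (l 340409268855) (l 16555912))))))) (a (l 1) (b (a (l 1) (b (a (l 1) (b (l 733398836471) (l 1))) (l 1))) (l 1)))) (l 1)), by decide +kernel⟩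

def k1_A04pm_022_s1 : ∃ t, chk3 f_A04pm_022_s1 t 9 2 1 = true :=
  ⟨(b (a (b (b (b (b (a (c (a (a (l 16329568) (l 16301352)) (c (l 16270808) (l 16247488))) (a (l 16272824) (l 16252800))) (c (a (c (l 16216512) (l 16190440)) (l 16148608)) (a (l 16149480) (l 16088840)))) (a (c (a (l 16364776) (l 16309048)) (a (l 16326392) (l 16264808))) (c (c (l 16280904) (l 16213504)) (c (l 16187048) (l 16159592))))) (a (c (a (a (l 16450992) (l 16423504)) (b (l 16358152) (l 16406456))) (a (l 16279872) (l 16344944))) (c (a (l 16348808) (l 16273648)) (a (l 16284472) (l 16224440))))) (b (a (a (c (l 16446704) (l 16424552)) (c (l 16477136) (l 16449256))) (c (a (l 16423808) (l 16370720)) (l 16192808))) (a (a (l 16529088) (l 16390808)) (b (l 16285096) (l 16332680))))) (b (b (a (a (b (l 16512912) (l 620118901191)) (l 325913616407)) (a (l 16511704) (l 16542840))) (a (a (l 1) (b (l 624950691911) (l 1))) (a (l 419329057815) (l 16418776)))) (a (l 1)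 (b (a (l 1) (l 678100905735)) (l 1))))) (b (b (b (b (c (a (a (l 16094448) (l 16041208)) (a (l 15989008) (l 15937952))) (a (c (l 16017048) (l 15981624)) (l 15883896))) (a (c (c (l 16133568) (l 16102648)) (l 16053968)) (c (l 16097568) (l 15938056)))) (c (a (b (l 16168520) (l 16218288)) (b (l 16063912) (l 16113936))) (a (b (l 16108376) (l 16162624)) (l 16019616)))) (b (c (a (a (l 16317952) (l 16265600)) (l 16188256)) (a (l 16159320) (l 16127888))) (a (c (l 16302960) (l 16348160)) (c (l 16285040) (l 16234368))))) (b (a (b (l 16295872) (l 16386152)) (c (l 16171384) (l 16135728))) (a (b (a (l 383895460903) (l 16413352)) (a (l 1) (l 634614054823))) (b (l 16433528) (l 371547304743)))))) (a (l 1) (b (b (a (l 1) (b (l 641593476359) (l 1))) (l 1)) (l 1)))), by decide +kernel⟩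

def k2_A04pm_022_s1 : ∃ t, chk3 f_A04pm_022_s1 t 4 3 1 = true :=
  ⟨(l 1), by decide +kernel⟩

def k3_A04pm_022_s1 : ∃ t, chk3 f_A04pm_022_s1 t 5 4 1 = true :=
  ⟨(a (b (a (a (b (b (c (a (l 15913040) (l 15864416)) (l 15778888)) (c (l 15988312) (l 15907504))) (c (a (l 15951696) (l 15860520)) (b (l 16015656) (l 16122752)))) (a (b (b (c (l 15817480) (l 15720256)) (c (l 15915840) (l 15826384))) (c (l 16063864) (l 15987536))) (b (a (b (c (l 15783200) (l 15681560)) (l 15834968)) (b (c (a (l 15766752) (l 15755952)) (l 15656360)) (c (l 15774816) (l 15761280)))) (c (a (l 16028600) (a (l 16011664) (l 16000552))) (a (l 15947512) (l 15921312)))))) (a (b (b (c (a (l 15727248) (l 15681984)) (l 15593432)) (c (l 15801168) (l 15697800))) (b (a (l 15876392) (l 15827296)) (l 15953352))) (b (b (c (l 15615712) (l 15496856)) (c (l 15711152) (l 15599672))) (b (l 15756512) (l 15856368))))) (a (a (b (c (b (l 16280344) (l 16371248)) (l 16110584))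 (b (l 16440880) (l 16386336))) (a (b (c (l 16171168) (l 16197592)) (l 16327696)) (b (c (a (l 16220360) (l 16114256)) (l 15914184)) (a (l 16375968) (l 16101160))))) (b (c (a (l 15971200) (l 16045064)) (a (l 15982168) (l 15963880))) (c (l 15936736) (b (l 16165232) (l 16260208)))))) (b (b (a (c (b (a (l 15530728) (l 15449592)) (l 15521872)) (b (l 15275456) (l 15461800))) (l 6)) (a (b (c (l 15636472) (l 15563472)) (c (l 15773032) (l 15666704))) (b (l 6) (l 15556504)))) (b (b (a (a (l 15863048) (l 15775304)) (l 15693640)) (a (l 16041184) (l 15746920))) (a (b (l 15842624) (l 15850688)) (c (l 15846064) (l 15839808)))))), by decide +kernel⟩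

def k4_A04pm_022_s1 : ∃ t, chk3 f_A04pm_022_s1 t 5 5 1 = true :=
  ⟨(a (b (a (b (a (b (l 602401658855) (l 658772955015)) (a (l 285647703111) (c (l 16208904) (l 16238680)))) (a (l 1) (b (a (l 1) (l 496100984167)) (l 1)))) (b (a (l 16330568) (l 16366672)) (a (l 333428942391) (l 16128264)))) (a (l 1) (b (a (l 1) (l 586831787447)) (l 1)))) (b (b (a (c (l 16259816) (l 16117936)) (b (l 16018768) (l 16102672))) (a (l 16095456) (l 16134288))) (a (b (l 288331488855) (l 567504082871)) (b (l 16183288) (l 15869568))))), by decide +kernel⟩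

def k5_A04pm_022_s1 : ∃ t, chk3 f_A04pm_022_s1 t 5 3 1 = true :=
  ⟨(b (a (l 1) (b (a (l 1) (b (l 551397802503) (l 1))) (l 1))) (l 1)), by decide +kernel⟩

def k6_A04pm_022_s1 : ∃ t, chk3 f_A04pm_022_s1 t 3 1 1 = true :=
  ⟨(a (a (b (a (b (l 6) (b (b (l 15654168) (l 15938040)) (b (l 16199664) (l 16190984)))) (b (l 6) (l 6))) (b (b (a (b (l 15877336) (l 533144039655)) (b (l 16115712) (l 15969720))) (a (l 1) (b (l 15662632) (l 1)))) (l 1))) (b (l 6) (a (b (l 6) (l 1)) (l 6)))) (b (l 6) (l 6))), by decide +kernel⟩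

theorem t7_A04pm_022_s1 : ∃ t, chk3 f_A04pm_022_s1 t 5 2 1 = true := ex3_b k3_A04pm_022_s1 k4_A04pm_022_s1

theorem t8_A04pm_022_s1 : ∃ t, chk3 f_A04pm_022_s1 t 5 1 1 = true := ex3_b t7_A04pm_022_s1 k5_A04pm_022_s1

theorem t9_A04pm_022_s1 : ∃ t, chk3 f_A04pm_022_s1 t 4 2 1 = true := ex3_a k0_A04pm_022_s1 k1_A04pm_022_s1

theorem t10_A04pm_022_s1 : ∃ t, chk3 f_A04pm_022_s1 t 4 1 1 = true := ex3_b t9_A04pm_022_s1 k2_A04pm_022_s1

theorem t11_A04pm_022_s1 : ∃ t, chk3 f_A04pm_022_s1 t 2 1 1 = true := ex3_a t10_A04pm_022_s1 t8_A04pm_022_s1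

theorem t12_A04pm_022_s1 : ∃ t, chk3 f_A04pm_022_s1 t 1 1 1 = true := ex3_a t11_A04pm_022_s1 k6_A04pm_022_s1

theorem c_A04pm_022_s1 : CertF 0 536870912 1073741824 536870912 923417968 42949674 true true false .pp 0 2 2
    ndB0q0 ndB4q2 pcB2 cut_A04pm_022_s1 Ext.none :=
  certF2 (fam := true) (s1 := true) (s2 := false) (a := 0) (b := 2) (c := 2) (cn := .pp) (n1 := ndB0q0) (n2 := ndB4q2) (pc := pcB2) (cut := cut_A04pm_022_s1) (xt := Ext.none) (P1 := 0) (W1 := 536870912) (P2 := 1073741824) (W2 := 536870912) (P3 := 923417968) (W3 := 42949674)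
    rfl (fun _ => rfl) t12_A04pm_022_s1

theorem s_A04pm_022_s1 {κ x : ℝ} (hκ : κ * h0 = ken x) (hx : ((923417968 : ℕ) : ℝ) / S ≤ x)
    (hx' : x ≤ (((923417968 : ℕ) : ℝ) + (42949674 : ℕ)) / S)
    (H : CutA (VFD κ) PP tK tL pcB (Cut.of [[⟨0, 0, 0, 67108864⟩, ⟨1, 1, 0, 67108864⟩, ⟨2, 1, 0, 67108864⟩]]) 0 2 2 0 4 (sgb true) (sgb false) x) :
    AltA (VFD κ) PP tK tL pcB [⟨3, 0, 0, 1449551462⟩] 0 2 2 0 4 (sgb true) (sgb false) x :=
  strip_altAD (m := 1449551462) true rfl hκ (SH.κ0 hκ (SH.hx1 hx).le (SH.hx2 hx').le) (SH.hx1 hx).le (SH.hx2 hx') (covB00).cov (covB42).cov hx hx' c_A04pm_022_s1 H (noExt_A)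

noncomputable def cut_A04pm_023_s1 : Cut := Cut.of [[⟨4, 0, 0, 1449551462⟩]]

noncomputable def f_A04pm_023_s1 : ℕ → ℕ → ℕ → ℕ → Bool := onCell 1610612736 536870912 1073741824 536870912 923417968 42949674
    (rowF 2 true true false .up 0 2 3 (qsf 0 536870912 1073741824 536870912 3) ndB0q0 ndB4q2 pcB3 cut_A04pm_023_s1 Ext.none)

def k0_A04pm_023_s1 : ∃ t, chk3 f_A04pm_023_s1 t 1 1 1 = true :=
  ⟨(a (l 6) (l 6)), by decide +kernel⟩

theorem c_A04pm_023_s1 : CertF 0 536870912 1073741824 536870912 923417968 42949674 true true false .up 0 2 3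
    ndB0q0 ndB4q2 pcB3 cut_A04pm_023_s1 Ext.none :=
  certF2 (fam := true) (s1 := true) (s2 := false) (a := 0) (b := 2) (c := 3) (cn := .up) (n1 := ndB0q0) (n2 := ndB4q2) (pc := pcB3) (cut := cut_A04pm_023_s1) (xt := Ext.none) (P1 := 0) (W1 := 536870912) (P2 := 1073741824) (W2 := 536870912) (P3 := 923417968) (W3 := 42949674)
    rfl (fun _ => rfl) k0_A04pm_023_s1

theorem s_A04pm_023_s1 {κ x : ℝ} (hκ : κ * h0 = ken x) (hx : ((923417968 : ℕ) : ℝ) / S ≤ x)
    (hx' : x ≤ (((923417968 : ℕ) : ℝ) + (42949674 : ℕ)) / S) :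
    AltA (VFD κ) PP tK tL pcB [⟨3, 0, 0, 1449551462⟩] 0 2 3 0 4 (sgb true) (sgb false) x :=
  strip_altAD (m := 1449551462) true rfl hκ (SH.κ0 hκ (SH.hx1 hx).le (SH.hx2 hx').le) (SH.hx1 hx).le (SH.hx2 hx') (covB00).cov (covB42).cov hx hx' c_A04pm_023_s1 cutA_nil (noExt_A)

noncomputable def cut_A04pm_033_s1 : Cut := Cut.of [[⟨4, 0, 0, 1449551462⟩]]

noncomputable def f_A04pm_033_s1 : ℕ → ℕ → ℕ → ℕ → Bool := onCell 1610612736 536870912 0 1230186008 923417968 42949674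
    (rowF 2 true true false .pnn 0 3 3 (qsf 0 536870912 0 1230186008 3) ndB0q0 ndB4q3 pcB3 cut_A04pm_033_s1 Ext.none)

def k0_A04pm_033_s1 : ∃ t, chk3 f_A04pm_033_s1 t 1 1 1 = true :=
  ⟨(b (l 6) (l 6)), by decide +kernel⟩

theorem c_A04pm_033_s1 : CertF 0 536870912 0 1230186008 923417968 42949674 true true false .pnn 0 3 3
    ndB0q0 ndB4q3 pcB3 cut_A04pm_033_s1 Ext.none :=
  certF2 (fam := true) (s1 := true) (s2 := false) (a := 0) (b := 3) (c := 3) (cn := .pnn) (n1 := ndB0q0) (n2 := ndB4q3) (pc := pcB3) (cut := cut_A04pm_033_s1) (xt := Ext.none) (P1 := 0) (W1 := 536870912) (P2 := 0) (W2 := 1230186008) (P3 := 923417968) (W3 := 42949674)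
    rfl (fun _ => rfl) k0_A04pm_033_s1

theorem s_A04pm_033_s1 {κ x : ℝ} (hκ : κ * h0 = ken x) (hx : ((923417968 : ℕ) : ℝ) / S ≤ x)
    (hx' : x ≤ (((923417968 : ℕ) : ℝ) + (42949674 : ℕ)) / S) :
    AltA (VFD κ) PP tK tL pcB [⟨3, 0, 0, 1449551462⟩] 0 3 3 0 4 (sgb true) (sgb false) x :=
  strip_altAD (m := 1449551462) true rfl hκ (SH.κ0 hκ (SH.hx1 hx).le (SH.hx2 hx').le) (SH.hx1 hx).le (SH.hx2 hx') (covB00).cov (covB43).cov hx hx' c_A04pm_033_s1 cutA_nil (noExt_A)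

noncomputable def cut_A04pm_101_s1 : Cut := Cut.of [[⟨4, 0, 0, 1449551462⟩]]

noncomputable def xt_A04pm_101_s1 : Ext := strExt dd true true false .u0 .s0m .u0m .npn 1 0 1 rfl rfl gf1 vv ndB0q1 ndB4q0

noncomputable def f_A04pm_101_s1 : ℕ → ℕ → ℕ → ℕ → Bool := onCell 536870912 536870912 536870912 536870912 923417968 42949674
    (rowF 1 true true false .npn 1 0 1 (qsf 536870912 536870912 0 536870912 1) ndB0q1 ndB4q0 pcB1 cut_A04pm_101_s1 xt_A04pm_101_s1)

def k0_A04pm_101_s1 : ∃ t, chk3 f_A04pm_101_s1 t 1 1 1 = true :=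
  ⟨(b (a (b (a (b (a (l 3) (b (l 1) (l 517265167))) (a (b (l 517229071) (l 517682447)) (b (l 518179087) (l 518880015)))) (a (b (l 1) (a (b (l 1) (l 519373327)) (l 1))) (l 1))) (a (b (a (b (c (l 517416719) (l 519152399)) (a (l 519191055) (l 519168271))) (b (l 519386895) (l 519689743))) (b (a (a (l 519730703) (l 519882255)) (l 519764239)) (a (a (l 520277519) (l 520533519)) (c (l 519940879) (l 521300495))))) (b (a (b (a (l 520054799) (l 520289295)) (a (l 520555023) (l 520915727))) (b (l 1) (a (l 207264623319) (l 1)))) (a (b (c (l 520619023) (l 521596431)) (c (l 520856847) (l 521700367))) (b (a (l 16136248) (l 16050592)) (a (l 16066688) (l 15980008))))))) (a (b (l 1) (b (l 1) (a (b (l 1) (a (l 15898888) (l 1))) (l 1)))) (l 1))) (a (b (a (b (a (b (a (l 521139471) (l 16502992)) (a (l 16414360) (l 16347640))) (b (l 521530383) (a (l 16276768) (l 16198872)))) (a (b (a (l 16371800) (l 16307760)) (a (l 16337848) (l 16277104))) (b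 (a (l 16240632) (l 16167920)) (l 16180776)))) (a (b (b (a (l 16144192) (l 16069480)) (a (l 16110224) (l 16002680))) (b (l 16037840) (l 16032040))) (b (a (b (l 15999440) (l 15930344)) (b (l 15917832) (l 6))) (a (l 15900768) (l 6))))) (a (b (a (b (a (l 16303528) (l 16250040)) (l 16239560)) (b (l 16160688) (l 16138288))) (a (b (l 16202784) (l 16167472)) (b (l 16114840) (l 6)))) (b (a (b (l 16027232) (l 6)) (l 6)) (l 6)))) (a (b (b (l 6) (l 6)) (l 6)) (l 6)))), by decide +kernel⟩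

theorem c_A04pm_101_s1 : CertF 536870912 536870912 0 536870912 923417968 42949674 true true false .npn 1 0 1
    ndB0q1 ndB4q0 pcB1 cut_A04pm_101_s1 xt_A04pm_101_s1 :=
  certF1 (fam := true) (s1 := true) (s2 := false) (a := 1) (b := 0) (c := 1) (cn := .npn) (n1 := ndB0q1) (n2 := ndB4q0) (pc := pcB1) (cut := cut_A04pm_101_s1) (xt := xt_A04pm_101_s1) (P1 := 536870912) (W1 := 536870912) (P2 := 0) (W2 := 536870912) (P3 := 923417968) (W3 := 42949674)
    rfl (fun _ => rfl) k0_A04pm_101_s1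

theorem s_A04pm_101_s1 {κ x : ℝ} (hκ : κ * h0 = ken x) (hx : ((923417968 : ℕ) : ℝ) / S ≤ x)
    (hx' : x ≤ (((923417968 : ℕ) : ℝ) + (42949674 : ℕ)) / S) :
    AltA (VFD κ) PP tK tL pcB [⟨3, 0, 0, 1449551462⟩] 1 0 1 0 4 (sgb true) (sgb false) x :=
  strip_altAD (m := 1449551462) true rfl hκ (SH.κ0 hκ (SH.hx1 hx).le (SH.hx2 hx').le) (SH.hx1 hx).le (SH.hx2 hx') (covB01).cov (covB40).cov hx hx' c_A04pm_101_s1 cutA_nil ((okx hx hx').extA (T := tt) (sideB hx hx') hκ rfl rfl (.O 1 true) (.N 0 false) (Or.inr rfl))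

noncomputable def cut_A04pm_102_s1 : Cut := Cut.of [[⟨4, 0, 0, 1449551462⟩]]

noncomputable def f_A04pm_102_s1 : ℕ → ℕ → ℕ → ℕ → Bool := onCell 536870912 536870912 1073741824 536870912 923417968 42949674
    (rowF 1 true true false .npp 1 0 2 (qsf 536870912 536870912 0 536870912 2) ndB0q1 ndB4q0 pcB2 cut_A04pm_102_s1 Ext.none)

def k0_A04pm_102_s1 : ∃ t, chk3 f_A04pm_102_s1 t 1 1 1 = true :=
  ⟨(a (b (a (b (b (a (b (l 16071912) (l 6)) (l 6)) (l 6)) (l 6)) (l 6)) (l 6)) (l 6)), by decide +kernel⟩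

theorem c_A04pm_102_s1 : CertF 536870912 536870912 0 536870912 923417968 42949674 true true false .npp 1 0 2
    ndB0q1 ndB4q0 pcB2 cut_A04pm_102_s1 Ext.none :=
  certF1 (fam := true) (s1 := true) (s2 := false) (a := 1) (b := 0) (c := 2) (cn := .npp) (n1 := ndB0q1) (n2 := ndB4q0) (pc := pcB2) (cut := cut_A04pm_102_s1) (xt := Ext.none) (P1 := 536870912) (W1 := 536870912) (P2 := 0) (W2 := 536870912) (P3 := 923417968) (W3 := 42949674)
    rfl (fun _ => rfl) k0_A04pm_102_s1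

theorem s_A04pm_102_s1 {κ x : ℝ} (hκ : κ * h0 = ken x) (hx : ((923417968 : ℕ) : ℝ) / S ≤ x)
    (hx' : x ≤ (((923417968 : ℕ) : ℝ) + (42949674 : ℕ)) / S) :
    AltA (VFD κ) PP tK tL pcB [⟨3, 0, 0, 1449551462⟩] 1 0 2 0 4 (sgb true) (sgb false) x :=
  strip_altAD (m := 1449551462) true rfl hκ (SH.κ0 hκ (SH.hx1 hx).le (SH.hx2 hx').le) (SH.hx1 hx).le (SH.hx2 hx') (covB01).cov (covB40).cov hx hx' c_A04pm_102_s1 cutA_nil (noExt_A)

noncomputable def cut_A04pm_112_s1 : Cut := Cut.of [[⟨4, 0, 0, 1449551462⟩]]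

noncomputable def f_A04pm_112_s1 : ℕ → ℕ → ℕ → ℕ → Bool := onCell 536870912 536870912 1073741824 536870912 923417968 42949674
    (rowF 1 true true false .dn 1 1 2 (qsf 536870912 536870912 536870912 536870912 2) ndB0q1 ndB4q1 pcB2 cut_A04pm_112_s1 Ext.none)

def k0_A04pm_112_s1 : ∃ t, chk3 f_A04pm_112_s1 t 1 1 1 = true :=
  ⟨(a (b (b (a (b (a (l 16209512) (l 6)) (l 6)) (l 6)) (l 6)) (l 6)) (l 6)), by decide +kernel⟩

theorem c_A04pm_112_s1 : CertF 536870912 536870912 536870912 536870912 923417968 42949674 true true false .dn 1 1 2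
    ndB0q1 ndB4q1 pcB2 cut_A04pm_112_s1 Ext.none :=
  certF1 (fam := true) (s1 := true) (s2 := false) (a := 1) (b := 1) (c := 2) (cn := .dn) (n1 := ndB0q1) (n2 := ndB4q1) (pc := pcB2) (cut := cut_A04pm_112_s1) (xt := Ext.none) (P1 := 536870912) (W1 := 536870912) (P2 := 536870912) (W2 := 536870912) (P3 := 923417968) (W3 := 42949674)
    rfl (fun _ => rfl) k0_A04pm_112_s1

theorem s_A04pm_112_s1 {κ x : ℝ} (hκ : κ * h0 = ken x) (hx : ((923417968 : ℕ) : ℝ) / S ≤ x)
    (hx' : x ≤ (((923417968 : ℕ) : ℝ) + (42949674 : ℕ)) / S) :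
    AltA (VFD κ) PP tK tL pcB [⟨3, 0, 0, 1449551462⟩] 1 1 2 0 4 (sgb true) (sgb false) x :=
  strip_altAD (m := 1449551462) true rfl hκ (SH.κ0 hκ (SH.hx1 hx).le (SH.hx2 hx').le) (SH.hx1 hx).le (SH.hx2 hx') (covB01).cov (covB41).cov hx hx' c_A04pm_112_s1 cutA_nil (noExt_A)

noncomputable def cut_A04pm_113_s1 : Cut := Cut.of [[⟨4, 0, 0, 1449551462⟩]]

noncomputable def f_A04pm_113_s1 : ℕ → ℕ → ℕ → ℕ → Bool := onCell 536870912 536870912 1610612736 536870912 923417968 42949674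
    (rowF 1 true true false .nn 1 1 3 (qsf 536870912 536870912 536870912 536870912 3) ndB0q1 ndB4q1 pcB3 cut_A04pm_113_s1 Ext.none)

def k0_A04pm_113_s1 : ∃ t, chk3 f_A04pm_113_s1 t 1 1 1 = true :=
  ⟨(l 6), by decide +kernel⟩

theorem c_A04pm_113_s1 : CertF 536870912 536870912 536870912 536870912 923417968 42949674 true true false .nn 1 1 3
    ndB0q1 ndB4q1 pcB3 cut_A04pm_113_s1 Ext.none :=
  certF1 (fam := true) (s1 := true) (s2 := false) (a := 1) (b := 1) (c := 3) (cn := .nn) (n1 := ndB0q1) (n2 := ndB4q1) (pc := pcB3) (cut := cut_A04pm_113_s1) (xt := Ext.none) (P1 := 536870912) (W1 := 536870912) (P2 := 536870912) (W2 := 536870912) (P3 := 923417968) (W3 := 42949674)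
    rfl (fun _ => rfl) k0_A04pm_113_s1

theorem s_A04pm_113_s1 {κ x : ℝ} (hκ : κ * h0 = ken x) (hx : ((923417968 : ℕ) : ℝ) / S ≤ x)
    (hx' : x ≤ (((923417968 : ℕ) : ℝ) + (42949674 : ℕ)) / S) :
    AltA (VFD κ) PP tK tL pcB [⟨3, 0, 0, 1449551462⟩] 1 1 3 0 4 (sgb true) (sgb false) x :=
  strip_altAD (m := 1449551462) true rfl hκ (SH.κ0 hκ (SH.hx1 hx).le (SH.hx2 hx').le) (SH.hx1 hx).le (SH.hx2 hx') (covB01).cov (covB41).cov hx hx' c_A04pm_113_s1 cutA_nil (noExt_A)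

noncomputable def cut_A04pm_123_s1 : Cut := Cut.of [[⟨4, 0, 0, 1449551462⟩]]

noncomputable def f_A04pm_123_s1 : ℕ → ℕ → ℕ → ℕ → Bool := onCell 536870912 536870912 1073741824 536870912 923417968 42949674
    (rowF 0 true true false .npn 1 2 3 (qsf 536870912 536870912 1073741824 536870912 3) ndB0q1 ndB4q2 pcB3 cut_A04pm_123_s1 Ext.none)

def k0_A04pm_123_s1 : ∃ t, chk3 f_A04pm_123_s1 t 1 1 1 = true :=
  ⟨(l 6), by decide +kernel⟩

theorem c_A04pm_123_s1 : CertF 536870912 536870912 1073741824 536870912 923417968 42949674 true true false .npn 1 2 3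
    ndB0q1 ndB4q2 pcB3 cut_A04pm_123_s1 Ext.none :=
  certF0 (fam := true) (s1 := true) (s2 := false) (a := 1) (b := 2) (c := 3) (cn := .npn) (n1 := ndB0q1) (n2 := ndB4q2) (pc := pcB3) (cut := cut_A04pm_123_s1) (xt := Ext.none) (P1 := 536870912) (W1 := 536870912) (P2 := 1073741824) (W2 := 536870912) (P3 := 923417968) (W3 := 42949674)
    rfl k0_A04pm_123_s1

theorem s_A04pm_123_s1 {κ x : ℝ} (hκ : κ * h0 = ken x) (hx : ((923417968 : ℕ) : ℝ) / S ≤ x)
    (hx' : x ≤ (((923417968 : ℕ) : ℝ) + (42949674 : ℕ)) / S) :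
    AltA (VFD κ) PP tK tL pcB [⟨3, 0, 0, 1449551462⟩] 1 2 3 0 4 (sgb true) (sgb false) x :=
  strip_altAD (m := 1449551462) true rfl hκ (SH.κ0 hκ (SH.hx1 hx).le (SH.hx2 hx').le) (SH.hx1 hx).le (SH.hx2 hx') (covB01).cov (covB42).cov hx hx' c_A04pm_123_s1 cutA_nil (noExt_A)

noncomputable def cut_A04pm_133_s1 : Cut := Cut.of [[⟨4, 0, 0, 1449551462⟩]]

noncomputable def f_A04pm_133_s1 : ℕ → ℕ → ℕ → ℕ → Bool := onCell 536870912 536870912 0 1230186008 923417968 42949674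
    (rowF 0 true true false .dn 1 3 3 (qsf 536870912 536870912 0 1230186008 3) ndB0q1 ndB4q3 pcB3 cut_A04pm_133_s1 Ext.none)

def k0_A04pm_133_s1 : ∃ t, chk3 f_A04pm_133_s1 t 1 1 1 = true :=
  ⟨(l 6), by decide +kernel⟩

theorem c_A04pm_133_s1 : CertF 536870912 536870912 0 1230186008 923417968 42949674 true true false .dn 1 3 3
    ndB0q1 ndB4q3 pcB3 cut_A04pm_133_s1 Ext.none :=
  certF0 (fam := true) (s1 := true) (s2 := false) (a := 1) (b := 3) (c := 3) (cn := .dn) (n1 := ndB0q1) (n2 := ndB4q3) (pc := pcB3) (cut := cut_A04pm_133_s1) (xt := Ext.none) (P1 := 536870912) (W1 := 536870912) (P2 := 0) (W2 := 1230186008) (P3 := 923417968) (W3 := 42949674)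
    rfl k0_A04pm_133_s1

theorem s_A04pm_133_s1 {κ x : ℝ} (hκ : κ * h0 = ken x) (hx : ((923417968 : ℕ) : ℝ) / S ≤ x)
    (hx' : x ≤ (((923417968 : ℕ) : ℝ) + (42949674 : ℕ)) / S) :
    AltA (VFD κ) PP tK tL pcB [⟨3, 0, 0, 1449551462⟩] 1 3 3 0 4 (sgb true) (sgb false) x :=
  strip_altAD (m := 1449551462) true rfl hκ (SH.κ0 hκ (SH.hx1 hx).le (SH.hx2 hx').le) (SH.hx1 hx).le (SH.hx2 hx') (covB01).cov (covB43).cov hx hx' c_A04pm_133_s1 cutA_nil (noExt_A)

noncomputable def cut_A04pm_202_s1 : Cut := Cut.of [[⟨4, 0, 0, 1449551462⟩]]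

noncomputable def f_A04pm_202_s1 : ℕ → ℕ → ℕ → ℕ → Bool := onCell 0 536870912 0 536870912 923417968 42949674
    (rowF 0 true true false .pp 2 0 2 (qsf 0 536870912 0 536870912 2) ndB0q2 ndB4q0 pcB2 cut_A04pm_202_s1 Ext.none)

def k0_A04pm_202_s1 : ∃ t, chk3 f_A04pm_202_s1 t 1 1 1 = true :=
  ⟨(l 6), by decide +kernel⟩

theorem c_A04pm_202_s1 : CertF 0 536870912 0 536870912 923417968 42949674 true true false .pp 2 0 2
    ndB0q2 ndB4q0 pcB2 cut_A04pm_202_s1 Ext.none :=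
  certF0 (fam := true) (s1 := true) (s2 := false) (a := 2) (b := 0) (c := 2) (cn := .pp) (n1 := ndB0q2) (n2 := ndB4q0) (pc := pcB2) (cut := cut_A04pm_202_s1) (xt := Ext.none) (P1 := 0) (W1 := 536870912) (P2 := 0) (W2 := 536870912) (P3 := 923417968) (W3 := 42949674)
    rfl k0_A04pm_202_s1

theorem s_A04pm_202_s1 {κ x : ℝ} (hκ : κ * h0 = ken x) (hx : ((923417968 : ℕ) : ℝ) / S ≤ x)
    (hx' : x ≤ (((923417968 : ℕ) : ℝ) + (42949674 : ℕ)) / S) :
    AltA (VFD κ) PP tK tL pcB [⟨3, 0, 0, 1449551462⟩] 2 0 2 0 4 (sgb true) (sgb false) x :=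
  strip_altAD (m := 1449551462) true rfl hκ (SH.κ0 hκ (SH.hx1 hx).le (SH.hx2 hx').le) (SH.hx1 hx).le (SH.hx2 hx') (covB02).cov (covB40).cov hx hx' c_A04pm_202_s1 cutA_nil (noExt_A)

noncomputable def cut_A04pm_203_s1 : Cut := Cut.of [[⟨4, 0, 0, 1449551462⟩]]

noncomputable def f_A04pm_203_s1 : ℕ → ℕ → ℕ → ℕ → Bool := onCell 0 536870912 0 536870912 923417968 42949674
    (rowF 0 true true false .up 2 0 3 (qsf 0 536870912 0 536870912 3) ndB0q2 ndB4q0 pcB3 cut_A04pm_203_s1 Ext.none)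

def k0_A04pm_203_s1 : ∃ t, chk3 f_A04pm_203_s1 t 1 1 1 = true :=
  ⟨(l 6), by decide +kernel⟩

theorem c_A04pm_203_s1 : CertF 0 536870912 0 536870912 923417968 42949674 true true false .up 2 0 3
    ndB0q2 ndB4q0 pcB3 cut_A04pm_203_s1 Ext.none :=
  certF0 (fam := true) (s1 := true) (s2 := false) (a := 2) (b := 0) (c := 3) (cn := .up) (n1 := ndB0q2) (n2 := ndB4q0) (pc := pcB3) (cut := cut_A04pm_203_s1) (xt := Ext.none) (P1 := 0) (W1 := 536870912) (P2 := 0) (W2 := 536870912) (P3 := 923417968) (W3 := 42949674)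
    rfl k0_A04pm_203_s1

theorem s_A04pm_203_s1 {κ x : ℝ} (hκ : κ * h0 = ken x) (hx : ((923417968 : ℕ) : ℝ) / S ≤ x)
    (hx' : x ≤ (((923417968 : ℕ) : ℝ) + (42949674 : ℕ)) / S) :
    AltA (VFD κ) PP tK tL pcB [⟨3, 0, 0, 1449551462⟩] 2 0 3 0 4 (sgb true) (sgb false) x :=
  strip_altAD (m := 1449551462) true rfl hκ (SH.κ0 hκ (SH.hx1 hx).le (SH.hx2 hx').le) (SH.hx1 hx).le (SH.hx2 hx') (covB02).cov (covB40).cov hx hx' c_A04pm_203_s1 cutA_nil (noExt_A)

noncomputable def cut_A04pm_213_s1 : Cut := Cut.of [[⟨4, 0, 0, 1449551462⟩]]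

noncomputable def f_A04pm_213_s1 : ℕ → ℕ → ℕ → ℕ → Bool := onCell 0 536870912 536870912 536870912 923417968 42949674
    (rowF 0 true true false .pnn 2 1 3 (qsf 0 536870912 536870912 536870912 3) ndB0q2 ndB4q1 pcB3 cut_A04pm_213_s1 Ext.none)

def k0_A04pm_213_s1 : ∃ t, chk3 f_A04pm_213_s1 t 1 1 1 = true :=
  ⟨(l 6), by decide +kernel⟩

theorem c_A04pm_213_s1 : CertF 0 536870912 536870912 536870912 923417968 42949674 true true false .pnn 2 1 3
    ndB0q2 ndB4q1 pcB3 cut_A04pm_213_s1 Ext.none :=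
  certF0 (fam := true) (s1 := true) (s2 := false) (a := 2) (b := 1) (c := 3) (cn := .pnn) (n1 := ndB0q2) (n2 := ndB4q1) (pc := pcB3) (cut := cut_A04pm_213_s1) (xt := Ext.none) (P1 := 0) (W1 := 536870912) (P2 := 536870912) (W2 := 536870912) (P3 := 923417968) (W3 := 42949674)
    rfl k0_A04pm_213_s1

theorem s_A04pm_213_s1 {κ x : ℝ} (hκ : κ * h0 = ken x) (hx : ((923417968 : ℕ) : ℝ) / S ≤ x)
    (hx' : x ≤ (((923417968 : ℕ) : ℝ) + (42949674 : ℕ)) / S) :
    AltA (VFD κ) PP tK tL pcB [⟨3, 0, 0, 1449551462⟩] 2 1 3 0 4 (sgb true) (sgb false) x :=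
  strip_altAD (m := 1449551462) true rfl hκ (SH.κ0 hκ (SH.hx1 hx).le (SH.hx2 hx').le) (SH.hx1 hx).le (SH.hx2 hx') (covB02).cov (covB41).cov hx hx' c_A04pm_213_s1 cutA_nil (noExt_A)

noncomputable def cut_A04mm_001_s1 : Cut := Cut.of [[⟨4, 0, 0, 1449551462⟩]]

noncomputable def f_A04mm_001_s1 : ℕ → ℕ → ℕ → ℕ → Bool := onCell 0 536870912 0 536870912 923417968 42949674
    (rowF 0 true false false .up 0 0 1 (qsf 0 536870912 0 536870912 1) ndB0q0 ndB4q0 pcB1 cut_A04mm_001_s1 Ext.none)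

def k0_A04mm_001_s1 : ∃ t, chk3 f_A04mm_001_s1 t 1 1 1 = true :=
  ⟨(l 4), by decide +kernel⟩

theorem c_A04mm_001_s1 : CertF 0 536870912 0 536870912 923417968 42949674 true false false .up 0 0 1
    ndB0q0 ndB4q0 pcB1 cut_A04mm_001_s1 Ext.none :=
  certF0 (fam := true) (s1 := false) (s2 := false) (a := 0) (b := 0) (c := 1) (cn := .up) (n1 := ndB0q0) (n2 := ndB4q0) (pc := pcB1) (cut := cut_A04mm_001_s1) (xt := Ext.none) (P1 := 0) (W1 := 536870912) (P2 := 0) (W2 := 536870912) (P3 := 923417968) (W3 := 42949674)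
    rfl k0_A04mm_001_s1

theorem s_A04mm_001_s1 {κ x : ℝ} (hκ : κ * h0 = ken x) (hx : ((923417968 : ℕ) : ℝ) / S ≤ x)
    (hx' : x ≤ (((923417968 : ℕ) : ℝ) + (42949674 : ℕ)) / S) :
    AltA (VFD κ) PP tK tL pcB [⟨3, 0, 0, 1449551462⟩] 0 0 1 0 4 (sgb false) (sgb false) x :=
  strip_altAD (m := 1449551462) true rfl hκ (SH.κ0 hκ (SH.hx1 hx).le (SH.hx2 hx').le) (SH.hx1 hx).le (SH.hx2 hx') (covB00).cov (covB40).cov hx hx' c_A04mm_001_s1 cutA_nil (noExt_A)

noncomputable def cut_A04mm_011_s1 : Cut := Cut.of [[⟨4, 0, 0, 1449551462⟩]]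

noncomputable def f_A04mm_011_s1 : ℕ → ℕ → ℕ → ℕ → Bool := onCell 0 536870912 536870912 536870912 923417968 42949674
    (rowF 0 true false false .pnn 0 1 1 (qsf 0 536870912 536870912 536870912 1) ndB0q0 ndB4q1 pcB1 cut_A04mm_011_s1 Ext.none)

def k0_A04mm_011_s1 : ∃ t, chk3 f_A04mm_011_s1 t 1 1 1 = true :=
  ⟨(l 4), by decide +kernel⟩

theorem c_A04mm_011_s1 : CertF 0 536870912 536870912 536870912 923417968 42949674 true false false .pnn 0 1 1
    ndB0q0 ndB4q1 pcB1 cut_A04mm_011_s1 Ext.none :=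
  certF0 (fam := true) (s1 := false) (s2 := false) (a := 0) (b := 1) (c := 1) (cn := .pnn) (n1 := ndB0q0) (n2 := ndB4q1) (pc := pcB1) (cut := cut_A04mm_011_s1) (xt := Ext.none) (P1 := 0) (W1 := 536870912) (P2 := 536870912) (W2 := 536870912) (P3 := 923417968) (W3 := 42949674)
    rfl k0_A04mm_011_s1

theorem s_A04mm_011_s1 {κ x : ℝ} (hκ : κ * h0 = ken x) (hx : ((923417968 : ℕ) : ℝ) / S ≤ x)
    (hx' : x ≤ (((923417968 : ℕ) : ℝ) + (42949674 : ℕ)) / S) :
    AltA (VFD κ) PP tK tL pcB [⟨3, 0, 0, 1449551462⟩] 0 1 1 0 4 (sgb false) (sgb false) x :=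
  strip_altAD (m := 1449551462) true rfl hκ (SH.κ0 hκ (SH.hx1 hx).le (SH.hx2 hx').le) (SH.hx1 hx).le (SH.hx2 hx') (covB00).cov (covB41).cov hx hx' c_A04mm_011_s1 cutA_nil (noExt_A)

noncomputable def cut_A04mm_012_s1 : Cut := Cut.of [[⟨4, 0, 0, 1449551462⟩]]

noncomputable def f_A04mm_012_s1 : ℕ → ℕ → ℕ → ℕ → Bool := onCell 0 536870912 536870912 536870912 923417968 42949674
    (rowF 0 true false false .pnp 0 1 2 (qsf 0 536870912 536870912 536870912 2) ndB0q0 ndB4q1 pcB2 cut_A04mm_012_s1 Ext.none)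

def k0_A04mm_012_s1 : ∃ t, chk3 f_A04mm_012_s1 t 1 1 1 = true :=
  ⟨(l 4), by decide +kernel⟩

theorem c_A04mm_012_s1 : CertF 0 536870912 536870912 536870912 923417968 42949674 true false false .pnp 0 1 2
    ndB0q0 ndB4q1 pcB2 cut_A04mm_012_s1 Ext.none :=
  certF0 (fam := true) (s1 := false) (s2 := false) (a := 0) (b := 1) (c := 2) (cn := .pnp) (n1 := ndB0q0) (n2 := ndB4q1) (pc := pcB2) (cut := cut_A04mm_012_s1) (xt := Ext.none) (P1 := 0) (W1 := 536870912) (P2 := 536870912) (W2 := 536870912) (P3 := 923417968) (W3 := 42949674)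
    rfl k0_A04mm_012_s1

theorem s_A04mm_012_s1 {κ x : ℝ} (hκ : κ * h0 = ken x) (hx : ((923417968 : ℕ) : ℝ) / S ≤ x)
    (hx' : x ≤ (((923417968 : ℕ) : ℝ) + (42949674 : ℕ)) / S) :
    AltA (VFD κ) PP tK tL pcB [⟨3, 0, 0, 1449551462⟩] 0 1 2 0 4 (sgb false) (sgb false) x :=
  strip_altAD (m := 1449551462) true rfl hκ (SH.κ0 hκ (SH.hx1 hx).le (SH.hx2 hx').le) (SH.hx1 hx).le (SH.hx2 hx') (covB00).cov (covB41).cov hx hx' c_A04mm_012_s1 cutA_nil (noExt_A)

noncomputable def cut_A04mm_022_s1 : Cut := Cut.of [[⟨4, 0, 0, 1449551462⟩]]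

noncomputable def f_A04mm_022_s1 : ℕ → ℕ → ℕ → ℕ → Bool := onCell 0 536870912 1073741824 536870912 923417968 42949674
    (rowF 0 true false false .pp 0 2 2 (qsf 0 536870912 1073741824 536870912 2) ndB0q0 ndB4q2 pcB2 cut_A04mm_022_s1 Ext.none)

def k0_A04mm_022_s1 : ∃ t, chk3 f_A04mm_022_s1 t 1 1 1 = true :=
  ⟨(l 4), by decide +kernel⟩

theorem c_A04mm_022_s1 : CertF 0 536870912 1073741824 536870912 923417968 42949674 true false false .pp 0 2 2
    ndB0q0 ndB4q2 pcB2 cut_A04mm_022_s1 Ext.none :=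
  certF0 (fam := true) (s1 := false) (s2 := false) (a := 0) (b := 2) (c := 2) (cn := .pp) (n1 := ndB0q0) (n2 := ndB4q2) (pc := pcB2) (cut := cut_A04mm_022_s1) (xt := Ext.none) (P1 := 0) (W1 := 536870912) (P2 := 1073741824) (W2 := 536870912) (P3 := 923417968) (W3 := 42949674)
    rfl k0_A04mm_022_s1

theorem s_A04mm_022_s1 {κ x : ℝ} (hκ : κ * h0 = ken x) (hx : ((923417968 : ℕ) : ℝ) / S ≤ x)
    (hx' : x ≤ (((923417968 : ℕ) : ℝ) + (42949674 : ℕ)) / S) :
    AltA (VFD κ) PP tK tL pcB [⟨3, 0, 0, 1449551462⟩] 0 2 2 0 4 (sgb false) (sgb false) x :=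
  strip_altAD (m := 1449551462) true rfl hκ (SH.κ0 hκ (SH.hx1 hx).le (SH.hx2 hx').le) (SH.hx1 hx).le (SH.hx2 hx') (covB00).cov (covB42).cov hx hx' c_A04mm_022_s1 cutA_nil (noExt_A)

noncomputable def cut_A04mm_023_s1 : Cut := Cut.of [[⟨4, 0, 0, 1449551462⟩]]

noncomputable def f_A04mm_023_s1 : ℕ → ℕ → ℕ → ℕ → Bool := onCell 0 536870912 1073741824 536870912 923417968 42949674
    (rowF 0 true false false .up 0 2 3 (qsf 0 536870912 1073741824 536870912 3) ndB0q0 ndB4q2 pcB3 cut_A04mm_023_s1 Ext.none)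

def k0_A04mm_023_s1 : ∃ t, chk3 f_A04mm_023_s1 t 1 1 1 = true :=
  ⟨(l 4), by decide +kernel⟩

theorem c_A04mm_023_s1 : CertF 0 536870912 1073741824 536870912 923417968 42949674 true false false .up 0 2 3
    ndB0q0 ndB4q2 pcB3 cut_A04mm_023_s1 Ext.none :=
  certF0 (fam := true) (s1 := false) (s2 := false) (a := 0) (b := 2) (c := 3) (cn := .up) (n1 := ndB0q0) (n2 := ndB4q2) (pc := pcB3) (cut := cut_A04mm_023_s1) (xt := Ext.none) (P1 := 0) (W1 := 536870912) (P2 := 1073741824) (W2 := 536870912) (P3 := 923417968) (W3 := 42949674)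
    rfl k0_A04mm_023_s1

theorem s_A04mm_023_s1 {κ x : ℝ} (hκ : κ * h0 = ken x) (hx : ((923417968 : ℕ) : ℝ) / S ≤ x)
    (hx' : x ≤ (((923417968 : ℕ) : ℝ) + (42949674 : ℕ)) / S) :
    AltA (VFD κ) PP tK tL pcB [⟨3, 0, 0, 1449551462⟩] 0 2 3 0 4 (sgb false) (sgb false) x :=
  strip_altAD (m := 1449551462) true rfl hκ (SH.κ0 hκ (SH.hx1 hx).le (SH.hx2 hx').le) (SH.hx1 hx).le (SH.hx2 hx') (covB00).cov (covB42).cov hx hx' c_A04mm_023_s1 cutA_nil (noExt_A)

noncomputable def cut_A04mm_033_s1 : Cut := Cut.of [[⟨4, 0, 0, 1449551462⟩]]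

noncomputable def f_A04mm_033_s1 : ℕ → ℕ → ℕ → ℕ → Bool := onCell 0 536870912 0 1230186008 923417968 42949674
    (rowF 0 true false false .pnn 0 3 3 (qsf 0 536870912 0 1230186008 3) ndB0q0 ndB4q3 pcB3 cut_A04mm_033_s1 Ext.none)

def k0_A04mm_033_s1 : ∃ t, chk3 f_A04mm_033_s1 t 1 1 1 = true :=
  ⟨(l 4), by decide +kernel⟩

theorem c_A04mm_033_s1 : CertF 0 536870912 0 1230186008 923417968 42949674 true false false .pnn 0 3 3
    ndB0q0 ndB4q3 pcB3 cut_A04mm_033_s1 Ext.none :=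
  certF0 (fam := true) (s1 := false) (s2 := false) (a := 0) (b := 3) (c := 3) (cn := .pnn) (n1 := ndB0q0) (n2 := ndB4q3) (pc := pcB3) (cut := cut_A04mm_033_s1) (xt := Ext.none) (P1 := 0) (W1 := 536870912) (P2 := 0) (W2 := 1230186008) (P3 := 923417968) (W3 := 42949674)
    rfl k0_A04mm_033_s1

theorem s_A04mm_033_s1 {κ x : ℝ} (hκ : κ * h0 = ken x) (hx : ((923417968 : ℕ) : ℝ) / S ≤ x)
    (hx' : x ≤ (((923417968 : ℕ) : ℝ) + (42949674 : ℕ)) / S) :
    AltA (VFD κ) PP tK tL pcB [⟨3, 0, 0, 1449551462⟩] 0 3 3 0 4 (sgb false) (sgb false) x :=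
  strip_altAD (m := 1449551462) true rfl hκ (SH.κ0 hκ (SH.hx1 hx).le (SH.hx2 hx').le) (SH.hx1 hx).le (SH.hx2 hx') (covB00).cov (covB43).cov hx hx' c_A04mm_033_s1 cutA_nil (noExt_A)

noncomputable def cut_A04mm_101_s1 : Cut := Cut.of [[⟨4, 0, 0, 1449551462⟩]]

noncomputable def f_A04mm_101_s1 : ℕ → ℕ → ℕ → ℕ → Bool := onCell 536870912 536870912 0 536870912 923417968 42949674
    (rowF 0 true false false .npn 1 0 1 (qsf 536870912 536870912 0 536870912 1) ndB0q1 ndB4q0 pcB1 cut_A04mm_101_s1 Ext.none)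

def k0_A04mm_101_s1 : ∃ t, chk3 f_A04mm_101_s1 t 1 1 1 = true :=
  ⟨(l 4), by decide +kernel⟩

theorem c_A04mm_101_s1 : CertF 536870912 536870912 0 536870912 923417968 42949674 true false false .npn 1 0 1
    ndB0q1 ndB4q0 pcB1 cut_A04mm_101_s1 Ext.none :=
  certF0 (fam := true) (s1 := false) (s2 := false) (a := 1) (b := 0) (c := 1) (cn := .npn) (n1 := ndB0q1) (n2 := ndB4q0) (pc := pcB1) (cut := cut_A04mm_101_s1) (xt := Ext.none) (P1 := 536870912) (W1 := 536870912) (P2 := 0) (W2 := 536870912) (P3 := 923417968) (W3 := 42949674)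
    rfl k0_A04mm_101_s1

theorem s_A04mm_101_s1 {κ x : ℝ} (hκ : κ * h0 = ken x) (hx : ((923417968 : ℕ) : ℝ) / S ≤ x)
    (hx' : x ≤ (((923417968 : ℕ) : ℝ) + (42949674 : ℕ)) / S) :
    AltA (VFD κ) PP tK tL pcB [⟨3, 0, 0, 1449551462⟩] 1 0 1 0 4 (sgb false) (sgb false) x :=
  strip_altAD (m := 1449551462) true rfl hκ (SH.κ0 hκ (SH.hx1 hx).le (SH.hx2 hx').le) (SH.hx1 hx).le (SH.hx2 hx') (covB01).cov (covB40).cov hx hx' c_A04mm_101_s1 cutA_nil (noExt_A)

noncomputable def cut_A04mm_102_s1 : Cut := Cut.of [[⟨4, 0, 0, 1449551462⟩]]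

noncomputable def f_A04mm_102_s1 : ℕ → ℕ → ℕ → ℕ → Bool := onCell 536870912 536870912 0 536870912 923417968 42949674
    (rowF 0 true false false .npp 1 0 2 (qsf 536870912 536870912 0 536870912 2) ndB0q1 ndB4q0 pcB2 cut_A04mm_102_s1 Ext.none)

def k0_A04mm_102_s1 : ∃ t, chk3 f_A04mm_102_s1 t 1 1 1 = true :=
  ⟨(l 4), by decide +kernel⟩

theorem c_A04mm_102_s1 : CertF 536870912 536870912 0 536870912 923417968 42949674 true false false .npp 1 0 2
    ndB0q1 ndB4q0 pcB2 cut_A04mm_102_s1 Ext.none :=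
  certF0 (fam := true) (s1 := false) (s2 := false) (a := 1) (b := 0) (c := 2) (cn := .npp) (n1 := ndB0q1) (n2 := ndB4q0) (pc := pcB2) (cut := cut_A04mm_102_s1) (xt := Ext.none) (P1 := 536870912) (W1 := 536870912) (P2 := 0) (W2 := 536870912) (P3 := 923417968) (W3 := 42949674)
    rfl k0_A04mm_102_s1

theorem s_A04mm_102_s1 {κ x : ℝ} (hκ : κ * h0 = ken x) (hx : ((923417968 : ℕ) : ℝ) / S ≤ x)
    (hx' : x ≤ (((923417968 : ℕ) : ℝ) + (42949674 : ℕ)) / S) :
    AltA (VFD κ) PP tK tL pcB [⟨3, 0, 0, 1449551462⟩] 1 0 2 0 4 (sgb false) (sgb false) x :=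
  strip_altAD (m := 1449551462) true rfl hκ (SH.κ0 hκ (SH.hx1 hx).le (SH.hx2 hx').le) (SH.hx1 hx).le (SH.hx2 hx') (covB01).cov (covB40).cov hx hx' c_A04mm_102_s1 cutA_nil (noExt_A)

noncomputable def cut_A04mm_112_s1 : Cut := Cut.of [[⟨4, 0, 0, 1449551462⟩]]

noncomputable def f_A04mm_112_s1 : ℕ → ℕ → ℕ → ℕ → Bool := onCell 536870912 536870912 536870912 536870912 923417968 42949674
    (rowF 0 true false false .dn 1 1 2 (qsf 536870912 536870912 536870912 536870912 2) ndB0q1 ndB4q1 pcB2 cut_A04mm_112_s1 Ext.none)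

def k0_A04mm_112_s1 : ∃ t, chk3 f_A04mm_112_s1 t 1 1 1 = true :=
  ⟨(l 4), by decide +kernel⟩

theorem c_A04mm_112_s1 : CertF 536870912 536870912 536870912 536870912 923417968 42949674 true false false .dn 1 1 2
    ndB0q1 ndB4q1 pcB2 cut_A04mm_112_s1 Ext.none :=
  certF0 (fam := true) (s1 := false) (s2 := false) (a := 1) (b := 1) (c := 2) (cn := .dn) (n1 := ndB0q1) (n2 := ndB4q1) (pc := pcB2) (cut := cut_A04mm_112_s1) (xt := Ext.none) (P1 := 536870912) (W1 := 536870912) (P2 := 536870912) (W2 := 536870912) (P3 := 923417968) (W3 := 42949674)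
    rfl k0_A04mm_112_s1

theorem s_A04mm_112_s1 {κ x : ℝ} (hκ : κ * h0 = ken x) (hx : ((923417968 : ℕ) : ℝ) / S ≤ x)
    (hx' : x ≤ (((923417968 : ℕ) : ℝ) + (42949674 : ℕ)) / S) :
    AltA (VFD κ) PP tK tL pcB [⟨3, 0, 0, 1449551462⟩] 1 1 2 0 4 (sgb false) (sgb false) x :=
  strip_altAD (m := 1449551462) true rfl hκ (SH.κ0 hκ (SH.hx1 hx).le (SH.hx2 hx').le) (SH.hx1 hx).le (SH.hx2 hx') (covB01).cov (covB41).cov hx hx' c_A04mm_112_s1 cutA_nil (noExt_A)

noncomputable def cut_A04mm_113_s1 : Cut := Cut.of [[⟨4, 0, 0, 1449551462⟩]]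

noncomputable def f_A04mm_113_s1 : ℕ → ℕ → ℕ → ℕ → Bool := onCell 536870912 536870912 536870912 536870912 923417968 42949674
    (rowF 0 true false false .nn 1 1 3 (qsf 536870912 536870912 536870912 536870912 3) ndB0q1 ndB4q1 pcB3 cut_A04mm_113_s1 Ext.none)

def k0_A04mm_113_s1 : ∃ t, chk3 f_A04mm_113_s1 t 1 1 1 = true :=
  ⟨(l 4), by decide +kernel⟩

theorem c_A04mm_113_s1 : CertF 536870912 536870912 536870912 536870912 923417968 42949674 true false false .nn 1 1 3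
    ndB0q1 ndB4q1 pcB3 cut_A04mm_113_s1 Ext.none :=
  certF0 (fam := true) (s1 := false) (s2 := false) (a := 1) (b := 1) (c := 3) (cn := .nn) (n1 := ndB0q1) (n2 := ndB4q1) (pc := pcB3) (cut := cut_A04mm_113_s1) (xt := Ext.none) (P1 := 536870912) (W1 := 536870912) (P2 := 536870912) (W2 := 536870912) (P3 := 923417968) (W3 := 42949674)
    rfl k0_A04mm_113_s1

theorem s_A04mm_113_s1 {κ x : ℝ} (hκ : κ * h0 = ken x) (hx : ((923417968 : ℕ) : ℝ) / S ≤ x)
    (hx' : x ≤ (((923417968 : ℕ) : ℝ) + (42949674 : ℕ)) / S) :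
    AltA (VFD κ) PP tK tL pcB [⟨3, 0, 0, 1449551462⟩] 1 1 3 0 4 (sgb false) (sgb false) x :=
  strip_altAD (m := 1449551462) true rfl hκ (SH.κ0 hκ (SH.hx1 hx).le (SH.hx2 hx').le) (SH.hx1 hx).le (SH.hx2 hx') (covB01).cov (covB41).cov hx hx' c_A04mm_113_s1 cutA_nil (noExt_A)

noncomputable def cut_A04mm_123_s1 : Cut := Cut.of [[⟨4, 0, 0, 1449551462⟩]]

noncomputable def f_A04mm_123_s1 : ℕ → ℕ → ℕ → ℕ → Bool := onCell 536870912 536870912 1073741824 536870912 923417968 42949674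
    (rowF 0 true false false .npn 1 2 3 (qsf 536870912 536870912 1073741824 536870912 3) ndB0q1 ndB4q2 pcB3 cut_A04mm_123_s1 Ext.none)

def k0_A04mm_123_s1 : ∃ t, chk3 f_A04mm_123_s1 t 1 1 1 = true :=
  ⟨(l 4), by decide +kernel⟩

theorem c_A04mm_123_s1 : CertF 536870912 536870912 1073741824 536870912 923417968 42949674 true false false .npn 1 2 3
    ndB0q1 ndB4q2 pcB3 cut_A04mm_123_s1 Ext.none :=
  certF0 (fam := true) (s1 := false) (s2 := false) (a := 1) (b := 2) (c := 3) (cn := .npn) (n1 := ndB0q1) (n2 := ndB4q2) (pc := pcB3) (cut := cut_A04mm_123_s1) (xt := Ext.none) (P1 := 536870912) (W1 := 536870912) (P2 := 1073741824) (W2 := 536870912) (P3 := 923417968) (W3 := 42949674)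
    rfl k0_A04mm_123_s1

theorem s_A04mm_123_s1 {κ x : ℝ} (hκ : κ * h0 = ken x) (hx : ((923417968 : ℕ) : ℝ) / S ≤ x)
    (hx' : x ≤ (((923417968 : ℕ) : ℝ) + (42949674 : ℕ)) / S) :
    AltA (VFD κ) PP tK tL pcB [⟨3, 0, 0, 1449551462⟩] 1 2 3 0 4 (sgb false) (sgb false) x :=
  strip_altAD (m := 1449551462) true rfl hκ (SH.κ0 hκ (SH.hx1 hx).le (SH.hx2 hx').le) (SH.hx1 hx).le (SH.hx2 hx') (covB01).cov (covB42).cov hx hx' c_A04mm_123_s1 cutA_nil (noExt_A)

noncomputable def cut_A04mm_133_s1 : Cut := Cut.of [[⟨4, 0, 0, 1449551462⟩]]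

noncomputable def f_A04mm_133_s1 : ℕ → ℕ → ℕ → ℕ → Bool := onCell 536870912 536870912 0 1230186008 923417968 42949674
    (rowF 0 true false false .dn 1 3 3 (qsf 536870912 536870912 0 1230186008 3) ndB0q1 ndB4q3 pcB3 cut_A04mm_133_s1 Ext.none)

def k0_A04mm_133_s1 : ∃ t, chk3 f_A04mm_133_s1 t 1 1 1 = true :=
  ⟨(l 4), by decide +kernel⟩

theorem c_A04mm_133_s1 : CertF 536870912 536870912 0 1230186008 923417968 42949674 true false false .dn 1 3 3
    ndB0q1 ndB4q3 pcB3 cut_A04mm_133_s1 Ext.none :=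
  certF0 (fam := true) (s1 := false) (s2 := false) (a := 1) (b := 3) (c := 3) (cn := .dn) (n1 := ndB0q1) (n2 := ndB4q3) (pc := pcB3) (cut := cut_A04mm_133_s1) (xt := Ext.none) (P1 := 536870912) (W1 := 536870912) (P2 := 0) (W2 := 1230186008) (P3 := 923417968) (W3 := 42949674)
    rfl k0_A04mm_133_s1

theorem s_A04mm_133_s1 {κ x : ℝ} (hκ : κ * h0 = ken x) (hx : ((923417968 : ℕ) : ℝ) / S ≤ x)
    (hx' : x ≤ (((923417968 : ℕ) : ℝ) + (42949674 : ℕ)) / S) :
    AltA (VFD κ) PP tK tL pcB [⟨3, 0, 0, 1449551462⟩] 1 3 3 0 4 (sgb false) (sgb false) x :=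
  strip_altAD (m := 1449551462) true rfl hκ (SH.κ0 hκ (SH.hx1 hx).le (SH.hx2 hx').le) (SH.hx1 hx).le (SH.hx2 hx') (covB01).cov (covB43).cov hx hx' c_A04mm_133_s1 cutA_nil (noExt_A)

noncomputable def cut_A04mm_202_s1 : Cut := Cut.of [[⟨4, 0, 0, 1449551462⟩]]

noncomputable def f_A04mm_202_s1 : ℕ → ℕ → ℕ → ℕ → Bool := onCell 0 536870912 0 536870912 923417968 42949674
    (rowF 0 true false false .pp 2 0 2 (qsf 0 536870912 0 536870912 2) ndB0q2 ndB4q0 pcB2 cut_A04mm_202_s1 Ext.none)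

def k0_A04mm_202_s1 : ∃ t, chk3 f_A04mm_202_s1 t 1 1 1 = true :=
  ⟨(l 4), by decide +kernel⟩

theorem c_A04mm_202_s1 : CertF 0 536870912 0 536870912 923417968 42949674 true false false .pp 2 0 2
    ndB0q2 ndB4q0 pcB2 cut_A04mm_202_s1 Ext.none :=
  certF0 (fam := true) (s1 := false) (s2 := false) (a := 2) (b := 0) (c := 2) (cn := .pp) (n1 := ndB0q2) (n2 := ndB4q0) (pc := pcB2) (cut := cut_A04mm_202_s1) (xt := Ext.none) (P1 := 0) (W1 := 536870912) (P2 := 0) (W2 := 536870912) (P3 := 923417968) (W3 := 42949674)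
    rfl k0_A04mm_202_s1

theorem s_A04mm_202_s1 {κ x : ℝ} (hκ : κ * h0 = ken x) (hx : ((923417968 : ℕ) : ℝ) / S ≤ x)
    (hx' : x ≤ (((923417968 : ℕ) : ℝ) + (42949674 : ℕ)) / S) :
    AltA (VFD κ) PP tK tL pcB [⟨3, 0, 0, 1449551462⟩] 2 0 2 0 4 (sgb false) (sgb false) x :=
  strip_altAD (m := 1449551462) true rfl hκ (SH.κ0 hκ (SH.hx1 hx).le (SH.hx2 hx').le) (SH.hx1 hx).le (SH.hx2 hx') (covB02).cov (covB40).cov hx hx' c_A04mm_202_s1 cutA_nil (noExt_A)

noncomputable def cut_A04mm_203_s1 : Cut := Cut.of [[⟨4, 0, 0, 1449551462⟩]]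

noncomputable def f_A04mm_203_s1 : ℕ → ℕ → ℕ → ℕ → Bool := onCell 0 536870912 0 536870912 923417968 42949674
    (rowF 0 true false false .up 2 0 3 (qsf 0 536870912 0 536870912 3) ndB0q2 ndB4q0 pcB3 cut_A04mm_203_s1 Ext.none)

def k0_A04mm_203_s1 : ∃ t, chk3 f_A04mm_203_s1 t 1 1 1 = true :=
  ⟨(l 4), by decide +kernel⟩

theorem c_A04mm_203_s1 : CertF 0 536870912 0 536870912 923417968 42949674 true false false .up 2 0 3
    ndB0q2 ndB4q0 pcB3 cut_A04mm_203_s1 Ext.none :=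
  certF0 (fam := true) (s1 := false) (s2 := false) (a := 2) (b := 0) (c := 3) (cn := .up) (n1 := ndB0q2) (n2 := ndB4q0) (pc := pcB3) (cut := cut_A04mm_203_s1) (xt := Ext.none) (P1 := 0) (W1 := 536870912) (P2 := 0) (W2 := 536870912) (P3 := 923417968) (W3 := 42949674)
    rfl k0_A04mm_203_s1

theorem s_A04mm_203_s1 {κ x : ℝ} (hκ : κ * h0 = ken x) (hx : ((923417968 : ℕ) : ℝ) / S ≤ x)
    (hx' : x ≤ (((923417968 : ℕ) : ℝ) + (42949674 : ℕ)) / S) :
    AltA (VFD κ) PP tK tL pcB [⟨3, 0, 0, 1449551462⟩] 2 0 3 0 4 (sgb false) (sgb false) x :=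
  strip_altAD (m := 1449551462) true rfl hκ (SH.κ0 hκ (SH.hx1 hx).le (SH.hx2 hx').le) (SH.hx1 hx).le (SH.hx2 hx') (covB02).cov (covB40).cov hx hx' c_A04mm_203_s1 cutA_nil (noExt_A)

noncomputable def cut_A04mm_213_s1 : Cut := Cut.of [[⟨4, 0, 0, 1449551462⟩]]

noncomputable def f_A04mm_213_s1 : ℕ → ℕ → ℕ → ℕ → Bool := onCell 0 536870912 536870912 536870912 923417968 42949674
    (rowF 0 true false false .pnn 2 1 3 (qsf 0 536870912 536870912 536870912 3) ndB0q2 ndB4q1 pcB3 cut_A04mm_213_s1 Ext.none)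

def k0_A04mm_213_s1 : ∃ t, chk3 f_A04mm_213_s1 t 1 1 1 = true :=
  ⟨(l 4), by decide +kernel⟩

theorem c_A04mm_213_s1 : CertF 0 536870912 536870912 536870912 923417968 42949674 true false false .pnn 2 1 3
    ndB0q2 ndB4q1 pcB3 cut_A04mm_213_s1 Ext.none :=
  certF0 (fam := true) (s1 := false) (s2 := false) (a := 2) (b := 1) (c := 3) (cn := .pnn) (n1 := ndB0q2) (n2 := ndB4q1) (pc := pcB3) (cut := cut_A04mm_213_s1) (xt := Ext.none) (P1 := 0) (W1 := 536870912) (P2 := 536870912) (W2 := 536870912) (P3 := 923417968) (W3 := 42949674)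
    rfl k0_A04mm_213_s1

theorem s_A04mm_213_s1 {κ x : ℝ} (hκ : κ * h0 = ken x) (hx : ((923417968 : ℕ) : ℝ) / S ≤ x)
    (hx' : x ≤ (((923417968 : ℕ) : ℝ) + (42949674 : ℕ)) / S) :
    AltA (VFD κ) PP tK tL pcB [⟨3, 0, 0, 1449551462⟩] 2 1 3 0 4 (sgb false) (sgb false) x :=
  strip_altAD (m := 1449551462) true rfl hκ (SH.κ0 hκ (SH.hx1 hx).le (SH.hx2 hx').le) (SH.hx1 hx).le (SH.hx2 hx') (covB02).cov (covB41).cov hx hx' c_A04mm_213_s1 cutA_nil (noExt_A)

noncomputable def cut_B00pp_001_s1 : Cut := Cut.of [[⟨4, 0, 0, 1449551462⟩]]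

noncomputable def f_B00pp_001_s1 : ℕ → ℕ → ℕ → ℕ → Bool := onCell 0 536870912 0 536870912 923417968 42949674
    (rowF 1 false true true .up 0 0 1 (qsf 0 536870912 536870912 536870912 0) ndB0q0 ndB0q1 pcB0 cut_B00pp_001_s1 Ext.none)

def k0_B00pp_001_s1 : ∃ t, chk3 f_B00pp_001_s1 t 1 1 1 = true :=
  ⟨(l 3), by decide +kernel⟩

theorem c_B00pp_001_s1 : CertF 0 536870912 536870912 536870912 923417968 42949674 false true true .up 0 0 1
    ndB0q0 ndB0q1 pcB0 cut_B00pp_001_s1 Ext.none :=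
  certF1 (fam := false) (s1 := true) (s2 := true) (a := 0) (b := 0) (c := 1) (cn := .up) (n1 := ndB0q0) (n2 := ndB0q1) (pc := pcB0) (cut := cut_B00pp_001_s1) (xt := Ext.none) (P1 := 0) (W1 := 536870912) (P2 := 536870912) (W2 := 536870912) (P3 := 923417968) (W3 := 42949674)
    rfl (fun _ => rfl) k0_B00pp_001_s1

theorem s_B00pp_001_s1 {κ x : ℝ} (hκ : κ * h0 = ken x) (hx : ((923417968 : ℕ) : ℝ) / S ≤ x)
    (hx' : x ≤ (((923417968 : ℕ) : ℝ) + (42949674 : ℕ)) / S) :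
    AltB (VFD κ) PP tK tL pcB [⟨3, 0, 0, 1449551462⟩] 0 0 1 0 0 (sgb true) (sgb true) x :=
  strip_altBD (m := 1449551462) true rfl hκ (SH.κ0 hκ (SH.hx1 hx).le (SH.hx2 hx').le) (SH.hx1 hx).le (SH.hx2 hx') (covB00).cov (covB01).cov hx hx' c_B00pp_001_s1 cutB_nil (noExt_B)

noncomputable def cut_B00pp_001_s3 : Cut := Cut.of [[⟨3, 0, 0, 2845415833⟩]]

noncomputable def f_B00pp_001_s3 : ℕ → ℕ → ℕ → ℕ → Bool := onCell 0 536870912 536870912 536870912 923417968 42949674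
    (rowF 0 false true true .up 0 0 1 (qsf 0 536870912 536870912 536870912 0) ndB0q0 ndB0q1 pcB0 cut_B00pp_001_s3 Ext.none)

def k0_B00pp_001_s3 : ∃ t, chk3 f_B00pp_001_s3 t 1 1 1 = true :=
  ⟨(l 6), by decide +kernel⟩

theorem c_B00pp_001_s3 : CertF 0 536870912 536870912 536870912 923417968 42949674 false true true .up 0 0 1
    ndB0q0 ndB0q1 pcB0 cut_B00pp_001_s3 Ext.none :=
  certF0 (fam := false) (s1 := true) (s2 := true) (a := 0) (b := 0) (c := 1) (cn := .up) (n1 := ndB0q0) (n2 := ndB0q1) (pc := pcB0) (cut := cut_B00pp_001_s3) (xt := Ext.none) (P1 := 0) (W1 := 536870912) (P2 := 536870912) (W2 := 536870912) (P3 := 923417968) (W3 := 42949674)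
    rfl k0_B00pp_001_s3

theorem s_B00pp_001_s3 {κ x : ℝ} (hκ : κ * h0 = ken x) (hx : ((923417968 : ℕ) : ℝ) / S ≤ x)
    (hx' : x ≤ (((923417968 : ℕ) : ℝ) + (42949674 : ℕ)) / S) :
    AltB (VFD κ) PP tK tL pcB [⟨4, 0, 0, 2845415833⟩] 0 0 1 0 0 (sgb true) (sgb true) x :=
  strip_altBD (m := 2845415833) false rfl hκ (SH.κ0 hκ (SH.hx1 hx).le (SH.hx2 hx').le) (SH.hx1 hx).le (SH.hx2 hx') (covB00).cov (covB01).cov hx hx' c_B00pp_001_s3 cutB_nil (noExt_B)

noncomputable def cut_B00pp_011_s1 : Cut := Cut.of [[⟨4, 0, 0, 1449551462⟩], [⟨0, 0, 0, 67108864⟩, ⟨1, 1, 0, 67108864⟩, ⟨2, 1, 0, 67108864⟩]]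

noncomputable def f_B00pp_011_s1 : ℕ → ℕ → ℕ → ℕ → Bool := onCell 536870912 536870912 536870912 536870912 923417968 42949674
    (rowF 2 false true true .pnn 0 1 1 (qsf 0 536870912 536870912 536870912 1) ndB0q0 ndB0q1 pcB1 cut_B00pp_011_s1 Ext.none)

def k0_B00pp_011_s1 : ∃ t, chk3 f_B00pp_011_s1 t 1 1 1 = true :=
  ⟨(a (l 3) (b (l 3) (a (l 3) (b (l 3) (b (l 3) (a (l 3) (b (l 3) (a (l 3) (l 14))))))))), by decide +kernel⟩

theorem c_B00pp_011_s1 : CertF 0 536870912 536870912 536870912 923417968 42949674 false true true .pnn 0 1 1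
    ndB0q0 ndB0q1 pcB1 cut_B00pp_011_s1 Ext.none :=
  certF2 (fam := false) (s1 := true) (s2 := true) (a := 0) (b := 1) (c := 1) (cn := .pnn) (n1 := ndB0q0) (n2 := ndB0q1) (pc := pcB1) (cut := cut_B00pp_011_s1) (xt := Ext.none) (P1 := 0) (W1 := 536870912) (P2 := 536870912) (W2 := 536870912) (P3 := 923417968) (W3 := 42949674)
    rfl (fun _ => rfl) k0_B00pp_011_s1

theorem s_B00pp_011_s1 {κ x : ℝ} (hκ : κ * h0 = ken x) (hx : ((923417968 : ℕ) : ℝ) / S ≤ x)
    (hx' : x ≤ (((923417968 : ℕ) : ℝ) + (42949674 : ℕ)) / S)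
    (H : CutB (VFD κ) PP tK tL pcB (Cut.of [[⟨0, 0, 0, 67108864⟩, ⟨1, 1, 0, 67108864⟩, ⟨2, 1, 0, 67108864⟩]]) 0 1 1 0 0 (sgb true) (sgb true) x) :
    AltB (VFD κ) PP tK tL pcB [⟨3, 0, 0, 1449551462⟩] 0 1 1 0 0 (sgb true) (sgb true) x :=
  strip_altBD (m := 1449551462) true rfl hκ (SH.κ0 hκ (SH.hx1 hx).le (SH.hx2 hx').le) (SH.hx1 hx).le (SH.hx2 hx') (covB00).cov (covB01).cov hx hx' c_B00pp_011_s1 H (noExt_B)

noncomputable def cut_B00pp_011_s3 : Cut := Cut.of [[⟨3, 0, 0, 2845415833⟩], [⟨0, 0, 0, 67108864⟩, ⟨1, 1, 0, 67108864⟩, ⟨2, 1, 0, 67108864⟩]]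

noncomputable def f_B00pp_011_s3 : ℕ → ℕ → ℕ → ℕ → Bool := onCell 0 536870912 536870912 536870912 923417968 42949674
    (rowF 0 false true true .pnn 0 1 1 (qsf 0 536870912 536870912 536870912 1) ndB0q0 ndB0q1 pcB1 cut_B00pp_011_s3 Ext.none)

def k0_B00pp_011_s3 : ∃ t, chk3 f_B00pp_011_s3 t 1 1 1 = true :=
  ⟨(l 6), by decide +kernel⟩

theorem c_B00pp_011_s3 : CertF 0 536870912 536870912 536870912 923417968 42949674 false true true .pnn 0 1 1
    ndB0q0 ndB0q1 pcB1 cut_B00pp_011_s3 Ext.none :=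
  certF0 (fam := false) (s1 := true) (s2 := true) (a := 0) (b := 1) (c := 1) (cn := .pnn) (n1 := ndB0q0) (n2 := ndB0q1) (pc := pcB1) (cut := cut_B00pp_011_s3) (xt := Ext.none) (P1 := 0) (W1 := 536870912) (P2 := 536870912) (W2 := 536870912) (P3 := 923417968) (W3 := 42949674)
    rfl k0_B00pp_011_s3

theorem s_B00pp_011_s3 {κ x : ℝ} (hκ : κ * h0 = ken x) (hx : ((923417968 : ℕ) : ℝ) / S ≤ x)
    (hx' : x ≤ (((923417968 : ℕ) : ℝ) + (42949674 : ℕ)) / S)
    (H : CutB (VFD κ) PP tK tL pcB (Cut.of [[⟨0, 0, 0, 67108864⟩, ⟨1, 1, 0, 67108864⟩, ⟨2, 1, 0, 67108864⟩]]) 0 1 1 0 0 (sgb true) (sgb true) x) :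
    AltB (VFD κ) PP tK tL pcB [⟨4, 0, 0, 2845415833⟩] 0 1 1 0 0 (sgb true) (sgb true) x :=
  strip_altBD (m := 2845415833) false rfl hκ (SH.κ0 hκ (SH.hx1 hx).le (SH.hx2 hx').le) (SH.hx1 hx).le (SH.hx2 hx') (covB00).cov (covB01).cov hx hx' c_B00pp_011_s3 H (noExt_B)

end Pool.Agent.Strip051.G.I8600_9000.Tab.St.C
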