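import Pool.Agent.Strip051.G.I8600_9000.StH
import Pool.Agent.Strip051.G.I8600_9000.StF

/-! # Unit strips 3 (generated) -/

set_option linter.all false
set_option maxRecDepth 100000

namespace Pool.Agent.Strip051.G.I8600_9000.Tab.St.C

open Pool.Agent.Strip051.PB Pool.Agent.Strip051.PB.T Pool.Agent.StripNear Pool.Agent.Strip051.LC
open Pool.Agent.Strip051.G.I8600_9000.Tab Pool.Agent.Strip051.G.I8600_9000.Tab.St

noncomputable def cut_A00pm_012_s1 : Cut := Cut.of [[⟨4, 0, 0, 1449551462⟩], [⟨0, 0, 0, 67108864⟩, ⟨1, 1, 0, 67108864⟩, ⟨2, 1, 0, 67108864⟩]]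

noncomputable def xt_A00pm_012_s1 : Ext := strExt dd true true false .u0 .u0m .u2 .pnp 0 1 2 rfl rfl gf2 vv ndB0q0 ndB0q1

noncomputable def f_A00pm_012_s1 : ℕ → ℕ → ℕ → ℕ → Bool := onCell 1073741824 536870912 536870912 536870912 923417968 42949674
    (rowF 2 true true false .pnp 0 1 2 (qsf 0 536870912 536870912 536870912 2) ndB0q0 ndB0q1 pcB2 cut_A00pm_012_s1 xt_A00pm_012_s1)

def k0_A00pm_012_s1 : ∃ t, chk3 f_A00pm_012_s1 t 4 2 1 = true :=
  ⟨(a (l 3) (l 3)), by decide +kernel⟩

def k1_A00pm_012_s1 : ∃ t, chk3 f_A00pm_012_s1 t 4 12 2 = true :=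
  ⟨(c (a (l 3) (a (l 3) (a (l 3) (b (l 3) (a (b (l 3) (a (l 3) (a (l 3) (b (l 3) (l 531457807))))) (b (a (l 3) (a (l 531537791) (l 531583615))) (a (b (a (l 3) (b (l 531534863) (l 531546239))) (a (l 531510143) (l 531560575))) (b (b (l 531606655) (l 532159503)) (l 532170367))))))))) (a (l 3) (a (l 3) (a (l 3) (b (l 3) (a (b (l 3) (a (l 3) (b (l 3) (a (l 3) (l 531588223))))) (b (a (l 3) (a (b (l 3) (l 531666047)) (l 531685759))) (a (b (a (l 3) (b (c (l 531620111) (l 531952655)) (l 531668863))) (a (l 531641215) (l 531691903))) (b (a (b (l 531698815) (l 531718159)) (l 531486079)) (l 531765007)))))))))), by decide +kernel⟩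

def k2_A00pm_012_s1 : ∃ t, chk3 f_A00pm_012_s1 t 4 12 3 = true :=
  ⟨(c (a (l 3) (a (l 3) (a (l 3) (b (l 3) (a (b (l 3) (b (l 3) (a (l 3) (a (l 3) (l 531474303))))) (b (a (l 3) (a (b (l 3) (l 531529999)) (b (l 531645455) (l 531841151)))) (a (b (a (l 3) (b (a (l 3) (b (l 3) (l 531541263))) (l 531815695))) (a (l 531796095) (l 531847439))) (b (b (a (l 531569535) (l 531881599)) (a (b (l 531587855) (l 531868031)) (l 531905919))) (a (l 531895167) (l 531939967)))))))))) (a (l 3) (a (l 3) (a (l 3) (b (l 3) (a (b (l 3) (b (l 3) (a (l 3) (a (l 3) (l 531653647))))) (b (a (l 3) (b (a (l 3) (a (l 3) (a (l 3) (l 531939599)))) (b (a (l 3) (l 531979135)) (a (a (l 3) (l 531981951)) (l 532012415))))) (a (a (b (l 3) (l 531976207)) (a (b (b (l 3) (l 531973503)) (l 532014719)) (b (b (a (l 3) (b (l 3) (c (l 531937919) (l 531960079)))) (l 531730447)) (l 532039807)))) (b (b (a (a (c (l 531947647) (l 531767823)) (l 532012671)) (l 532043391)) (a (a (c (l 531975295) (l 531798031)) (l 532041743)) (l 532072575))) (a (l 532075535)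 (l 532117519))))))))))), by decide +kernel⟩

def k3_A00pm_012_s1 : ∃ t, chk3 f_A00pm_012_s1 t 4 13 4 = true :=
  ⟨(b (a (l 3) (a (l 3) (a (b (l 3) (a (l 3) (b (a (l 3) (a (l 3) (l 531220095))) (a (b (l 3) (l 531051647)) (a (b (a (b (l 3) (l 531134591)) (b (l 531161471) (l 531155215))) (l 531640591)) (b (a (l 531191567) (l 531224447)) (l 531441679))))))) (a (b (a (b (l 3) (a (l 531292287) (l 531353215))) (a (l 531411839) (l 531468159))) (a (b (l 531315727) (b (l 531303551) (l 531284751))) (b (l 531434111) (l 531415679)))) (a (b (a (l 531522431) (l 531574655)) (l 531269247)) (b (l 532185871) (l 531372159))))))) (a (l 3) (a (a (l 3) (a (l 3) (b (l 3) (l 530515583)))) (a (a (b (a (l 530794879) (l 530872703)) (l 531211135)) (a (b (l 530952831) (l 530802303)) (b (a (l 531285263) (b (l 531103247) (l 531026559))) (l 531159167)))) (a (b (a (b (a (l 531169407) (l 531237759)) (l 531113855)) (l 531021583)) (a (l 530995071) (l 531110527))) (b (a (l 531191055) (b (l 16749696) (l 16744400))) (a (l 530958719) (l 531072527)))))))),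 by decide +kernel⟩

def k4_A00pm_012_s1 : ∃ t, chk3 f_A00pm_012_s1 t 4 13 5 = true :=
  ⟨(b (a (l 3) (a (l 3) (a (b (l 3) (a (l 3) (b (a (l 3) (a (l 3) (l 531380863))) (a (b (l 3) (l 531222399)) (a (b (b (l 531313423) (l 531309327)) (l 531811711)) (b (l 531375999) (l 531345535))))))) (a (b (a (b (l 3) (l 531475471)) (l 531318911)) (a (b (l 531476863) (b (l 531473023) (l 531457407))) (l 531056767))) (a (b (a (l 531670911) (l 531723135)) (l 531437439)) (b (l 531528975) (l 531807615))))))) (a (l 3) (a (a (l 3) (a (l 3) (b (l 3) (l 530703743)))) (a (a (b (l 530745871) (l 530868095)) (a (b (l 531134591) (l 530998655)) (b (a (l 531198847) (l 530701951)) (l 531087743)))) (a (b (a (b (l 531389967) (l 531301247)) (l 531474447)) (a (l 531192447) (l 531307903))) (b (a (l 530836863) (b (l 16750624) (l 16745528))) (a (l 531154559) (l 531266063)))))))), by decide +kernel⟩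

def k5_A00pm_012_s1 : ∃ t, chk3 f_A00pm_012_s1 t 4 13 3 = true :=
  ⟨(c (b (a (l 3) (a (l 3) (a (a (l 3) (b (l 3) (a (b (l 3) (l 531178511)) (b (a (l 3) (l 531565695)) (b (a (l 531502095) (l 531567999)) (l 531238415)))))) (a (a (b (b (l 3) (l 531650175)) (b (l 531663231) (l 531394575))) (b (l 531490943) (l 531786111))) (a (b (a (l 531843455) (l 531895679)) (l 531898495)) (b (b (l 531955215) (l 531979391)) (l 531998591))))))) (a (l 3) (a (a (l 3) (a (l 3) (b (l 3) (l 530915455)))) (a (a (b (l 531212927) (l 531085951)) (a (l 531277183) (b (b (l 531180559) (l 531134335)) (l 531309183)))) (a (b (a (l 531556111) (l 531413119)) (a (l 531414143) (l 531529343))) (b (a (l 531045247) (l 531151631)) (a (l 531642751) (l 531751439)))))))) (b (a (l 3) (a (l 3) (a (a (l 3) (b (l 3) (a (b (l 3) (l 531662719)) (a (b (l 3) (l 531445519)) (b (l 531775103) (l 531781903)))))) (a (b (a (b (l 3) (l 531850623)) (l 531956351)) (a (b (l 531874175) (l 531883791)) (l 532003455))) (b (a (a (l 532040831) (l 532093055)) (a (l 531873407)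 (l 532185983))) (a (l 532115839) (l 532214143))))))) (a (l 3) (a (a (l 3) (a (l 3) (b (l 3) (l 531150719)))) (a (a (b (l 531439999) (l 531327871)) (a (l 531515519) (b (l 531372559) (l 531554943)))) (a (b (a (l 531250559) (l 531646591)) (a (l 531660671) (l 531775359))) (b (a (l 532083583) (l 532187663)) (a (l 531886975) (l 531724047))))))))), by decide +kernel⟩

def k6_A00pm_012_s1 : ∃ t, chk3 f_A00pm_012_s1 t 8 14 1 = true :=
  ⟨(b (l 3) (a (l 3) (a (l 3) (b (l 3) (a (a (l 3) (b (l 3) (b (l 3) (c (a (l 529782143) (l 529437823)) (l 529568783))))) (a (a (b (l 3) (c (c (l 529327743) (l 529493375)) (l 529506943))) (b (c (l 529529103) (l 529637247)) (c (c (l 529271311) (l 529437567)) (l 529453583)))) (c (b (a (l 529482255) (l 529445503)) (a (c (l 529224831) (l 529392255)) (b (l 529310079) (l 529235071)))) (b (l 529574927) (a (l 529141887) (l 529646351)))))))))), by decide +kernel⟩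

def k7_A00pm_012_s1 : ∃ t, chk3 f_A00pm_012_s1 t 16 15 1 = true :=
  ⟨(b (b (l 3) (a (l 3) (a (l 3) (b (l 3) (b (l 3) (a (l 3) (b (a (l 3) (a (c (l 530848895) (l 531222655)) (c (l 530494591) (l 531123327)))) (a (b (l 3) (l 14)) (c (c (l 530478975) (l 530645119)) (a (l 531236991) (l 531137407))))))))))) (b (a (l 14) (b (a (l 14) (a (l 14) (a (l 14) (a (l 14) (a (l 14) (b (b (l 530953343) (l 14)) (l 14))))))) (l 14))) (l 14))), by decide +kernel⟩

def k8_A00pm_012_s1 : ∃ t, chk3 f_A00pm_012_s1 t 34 60 1 = true :=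
  ⟨(a (l 3) (b (l 3) (a (a (l 3) (b (l 3) (c (c (b (l 529782287) (a (l 529805695) (l 529742207))) (b (l 529940239) (a (l 529962623) (l 529898879)))) (a (b (l 3) (a (l 530243343) (l 530210575))) (c (l 530075663) (l 530263567)))))) (c (a (a (b (l 3) (c (l 529685007) (l 529841679))) (b (c (l 529650303) (l 529808511)) (c (l 529626383) (l 529782655)))) (b (c (b (l 529574783) (l 529559679)) (l 529724431)) (c (b (l 529547647) (l 529538575)) (b (l 529703807) (l 529693823))))) (a (b (b (l 3) (a (l 3) (l 530067215))) (b (a (l 530112015) (l 530052367)) (c (l 529979151) (l 530166287)))) (b (c (l 529898255) (l 530088207)) (c (b (l 529875839) (l 529864831)) (b (l 530063743) (l 530051711))))))))), by decide +kernel⟩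

def k9_A00pm_012_s1 : ∃ t, chk3 f_A00pm_012_s1 t 136 122 1 = true :=
  ⟨(a (l 3) (a (l 3) (a (l 3) (b (l 3) (b (l 3) (c (l 530369919) (l 530447231))))))), by decide +kernel⟩

def k10_A00pm_012_s1 : ∃ t, chk3 f_A00pm_012_s1 t 137 122 2 = true :=
  ⟨(b (b (l 3) (a (l 3) (c (a (c (l 530037119) (l 530112639)) (l 530001935)) (a (c (l 530191743) (l 530274431)) (c (l 530118783) (l 530200959)))))) (c (a (b (a (l 3) (b (l 3) (a (l 530170639) (l 530266895)))) (a (l 530232959) (a (l 530174847) (l 530136847)))) (b (a (b (l 530075407) (c (l 530039935) (l 530114943))) (b (l 530002815) (c (l 529967487) (l 530041983)))) (a (a (b (l 530097679) (l 530101119)) (b (l 530060815) (l 530064255))) (b (c (l 529970047) (l 530044287)) (l 530009871))))) (a (b (a (l 3) (b (l 3) (c (l 530268943) (l 530351375)))) (a (l 530659599) (a (l 530332543) (b (l 530292495) (l 530295679))))) (b (a (b (l 530232847) (c (l 530193535) (l 530275599))) (b (l 530293887) (c (l 530120319) (l 530201983)))) (a (a (b (l 530254607) (l 530257791)) (b (l 530217487)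 (l 530220415))) (b (c (l 530122367) (l 530204031)) (c (l 530125183) (l 530206591)))))))), by decide +kernel⟩

def k11_A00pm_012_s1 : ∃ t, chk3 f_A00pm_012_s1 t 137 122 3 = true :=
  ⟨(b (a (l 3) (b (l 3) (c (a (b (l 3) (l 530404879)) (c (l 530286975) (l 530376831))) (a (b (l 3) (l 530860303)) (b (l 530518911) (l 530517263)))))) (c (a (b (a (l 3) (b (l 3) (c (l 530437391) (a (l 530546559) (l 530507791))))) (a (a (l 530583423) (l 530543487)) (a (l 530504063) (b (l 530464015) (l 530466687))))) (b (a (b (l 530673167) (c (l 530361359) (l 530450703))) (b (l 530330895) (c (l 530287487) (l 530376575)))) (a (a (b (l 530425871) (l 530428287)) (b (l 530388239) (l 530390655))) (b (a (l 530351119) (l 530314879)) (c (l 530291583) (l 530380159)))))) (a (b (a (l 3) (b (l 3) (c (a (l 530639999) (l 530600719)) (a (l 530736767) (l 530697487))))) (a (l 530481423) (a (l 530689919) (b (l 530649871) (l 530652031))))) (b (b (a (c (l 530543231) (l 530639999)) (l 530785039)) (a (c (l 530677775) (b (l 530639999) (l 530640143)))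 (a (l 530669327) (l 530498319)))) (a (b (a (b (l 530610959) (l 530611727)) (b (l 530573071) (l 530573839))) (c (l 530546703) (l 530642703))) (b (a (l 530536207) (l 530499455)) (a (l 530537999) (l 530635647)))))))), by decide +kernel⟩

def k12_A00pm_012_s1 : ∃ t, chk3 f_A00pm_012_s1 t 138 122 1 = true :=
  ⟨(c (b (a (c (b (a (l 529933695) (l 529865855)) (a (l 529931791) (l 529863695))) (b (a (l 530091135) (l 530022783)) (a (l 530088463) (l 530019855)))) (c (b (a (l 529800319) (l 529736831)) (a (l 529932415) (l 529734527))) (b (a (l 529956479) (l 529892479)) (a (l 529953407) (l 529889407))))) (a (c (b (a (b (l 529932415) (l 529933839)) (c (l 529828479) (l 529902463))) (a (b (l 529936143) (l 529939215)) (b (l 529868047) (l 529870863)))) (b (a (b (l 530088575) (l 530089487)) (b (l 530019711) (l 530020623))) (a (b (l 530091535) (l 530094095)) (b (l 530022671) (l 530025231))))) (c (b (a (c (l 529762687) (l 529836415)) (c (l 529699455) (l 529772671))) (a (c (l 529767295) (l 529840511)) (c (l 529703551) (l 529776511))))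 (b (a (c (l 529913727) (l 529994623)) (l 529889551)) (a (c (l 529917311) (l 529997951)) (c (l 529853311) (l 529933695))))))) (a (b (a (b (c (l 530263679) (l 530451071)) (c (l 530259727) (c (l 530398079) (l 530494847)))) (b (c (l 530194559) (l 530381439)) (c (l 530190607) (l 530376463)))) (c (b (a (c (l 530215551) (l 530304271)) (b (l 530189951) (l 530190351))) (a (b (l 530261263) (l 530263567)) (b (l 530191887) (l 530194191)))) (b (a (b (l 530444559) (c (l 530397055) (l 530493311))) (b (l 530375039) (l 530374927))) (a (b (c (l 530398335) (l 530494079)) (c (l 530400127) (l 530495871))) (a (l 530393871) (l 530359567)))))) (b (a (c (b (l 530127743) (l 530123903)) (b (l 530314367) (l 530309247))) (c (b (l 530063487) (l 530059391)) (b (l 530249855) (l 530244735)))) (b (c (a (c (l 530079359) (l 530167935)) (l 530058767)) (a (c (l 530260095) (l 530356095)) (l 530242831))) (c (a (c (l 530082431) (l 530170495)) (c (l 530017919) (l 530105727))) (a (c (l 530262143) (l 530357631)) (c (l 530197375) (l 530292863)))))))),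 by decide +kernel⟩

def k13_A00pm_012_s1 : ∃ t, chk3 f_A00pm_012_s1 t 139 122 1 = true :=
  ⟨(c (a (b (c (b (a (l 529675647) (l 529617023)) (a (l 529673343) (l 529614463))) (b (a (l 529831039) (l 529771647)) (a (l 529827711) (l 529768575)))) (c (b (a (l 529673999) (l 529615119)) (a (c (l 529642367) (l 529715071)) (c (l 529583231) (l 529655935)))) (b (a (l 529827855) (l 529768575)) (a (c (l 529791615) (l 529871743)) (l 529771791))))) (b (c (b (a (l 529560447) (l 529506175)) (a (l 529557887) (l 529503615))) (b (l 529687311) (a (l 529711487) (l 529656959)))) (c (b (a (l 529558399) (l 529504127)) (a (l 529562383) (l 529507855))) (b (a (l 529711487) (l 529656959)) (a (l 529714703) (l 529660031)))))) (a (b (b (c (a (l 530001535) (l 529942143)) (a (l 530187647) (l 530127999))) (c (a (l 529997439) (l 529937791)) (a (l 530182271) (l 530122623)))) (b (c (a (l 529996559) (l 529937023)) (a (l 530180623) (l 530120831))) (c (a (l 529999119) (l 529939471)) (a (l 530182159) (l 530122511))))) (b (c (b (l 529857295) (a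 (l 529880703) (l 529826175))) (b (l 530311551) (a (l 530065535) (l 530010751)))) (c (b (a (l 529879935) (l 529825151)) (a (l 529882495) (l 529827711))) (b (a (l 530063743) (l 530008959)) (a (l 530065279) (l 530010751))))))), by decide +kernel⟩

def k14_A00pm_012_s1 : ∃ t, chk3 f_A00pm_012_s1 t 136 123 1 = true :=
  ⟨(c (b (a (b (l 3) (a (l 530390655) (l 530307967))) (b (a (a (b (l 3) (l 530502783)) (b (l 530457103) (l 530462479))) (b (l 530396031) (a (l 530421775) (l 530381183)))) (a (a (l 530515583) (l 530475391)) (a (l 530435599) (l 530394639))))) (a (a (b (l 530410111) (l 530432127)) (b (l 530327423) (l 530348927))) (a (b (a (l 530534527) (l 530494335)) (a (l 530556031) (l 530515839))) (b (a (l 530454399) (l 530414463)) (a (l 530475903) (l 530436223)))))) (b (a (b (l 3) (a (l 531017343) (l 530923903))) (b (a (a (b (l 3) (l 530851455)) (b (l 530703231) (l 530673279))) (b (l 530472575) (a (l 530664575) (l 530455423)))) (a (a (l 530855807) (l 530542975)) (a (l 530499199) (l 530457871))))) (a (a (b (l 531026815)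 (l 531040895)) (b (l 530933375) (l 530947087))) (a (b (l 530708607) (l 530722431)) (b (a (l 530776959) (l 530466175)) (l 530500479)))))), by decide +kernel⟩

def k15_A00pm_012_s1 : ∃ t, chk3 f_A00pm_012_s1 t 137 123 1 = true :=
  ⟨(c (b (a (b (a (b (l 530316047) (a (l 530341247) (l 530301823))) (b (a (l 530257535) (l 530219023)) (a (l 530262655) (l 530224143)))) (b (a (a (l 530349951) (l 530309759)) (a (l 530270335) (l 530231679))) (a (l 530339599) (a (l 530280063) (l 530241151))))) (b (a (c (b (l 530086671) (l 530091535)) (b (l 530242575) (l 530247183))) (c (b (l 530013711) (l 530018575)) (b (l 530168847) (l 530173455)))) (a (c (b (l 530099839) (l 530110079)) (b (l 530253439) (l 530260863))) (c (b (l 530026255) (l 530036095)) (c (l 530143503) (l 530223119)))))) (a (b (a (b (l 530349839) (l 530360335)) (a (l 530295935) (l 530256911))) (a (a (l 530396543) (l 530357119)) (b (l 530293263) (l 530304783)))) (b (a (c (b (l 530122111) (l 530134911)) (b (l 530269567) (l 530279039))) (c (b (l 530047359) (l 530060159))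 (b (l 530195071) (l 530204543)))) (a (a (l 530241551) (l 530203919)) (c (l 530080015) (l 530219791)))))) (b (a (b (a (b (l 530491519) (c (l 530572415) (l 530756991))) (b (a (l 530599551) (l 530308879)) (a (l 530603391) (l 530295823)))) (a (a (l 530417167) (l 530444559)) (b (a (l 530605951) (l 530298751)) (b (l 530319631) (l 530320911))))) (c (b (a (b (l 530412815) (l 530416655)) (b (l 530338575) (l 530342415))) (a (b (l 530420863) (l 530425471)) (b (l 530346767) (l 530351231)))) (b (a (b (a (l 530616191) (l 530578303)) (a (l 530619519) (l 530581631))) (b (c (l 530475135) (l 530570623)) (l 530660111))) (b (a (l 530602511) (l 530528015)) (a (l 530603647) (l 530529919)))))) (a (a (b (a (l 530424703) (l 530384255)) (l 530416911)) (b (a (l 530344831) (l 530305807)) (b (l 530333567) (l 530340479)))) (b (a (a (l 530267919) (b (l 530228863) (l 530500991))) (a (b (l 530460175) (l 530464271)) (b (l 530424079) (l 530427919)))) (a (b (l 530256655) (l 530263055)) (a (l 530203663) (l 530167311))))))), by decide +kernel⟩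

def k16_A00pm_012_s1 : ∃ t, chk3 f_A00pm_012_s1 t 138 123 2 = true :=
  ⟨(b (a (b (c (a (b (l 529943055) (l 529947919)) (b (l 529874703) (l 529879567))) (a (b (l 530097679) (l 530102031)) (b (l 530028559) (l 530032911)))) (c (a (b (l 529955087) (l 529964303)) (b (l 529886223) (l 529895183))) (a (b (l 530107919) (l 530114831)) (b (l 530038543) (l 530045455))))) (b (c (a (b (l 529808767) (l 529813263)) (c (l 529711231) (l 529783935))) (a (c (l 529924479) (l 530004863)) (c (l 529860223) (l 529940351)))) (c (a (b (l 529819919) (l 529828623)) (c (l 529724543) (l 529796223))) (a (a (l 529991439) (l 529958671)) (c (l 529871487) (l 529950591)))))) (a (b (a (c (a (l 529998975) (l 529963535)) (a (l 530145407) (l 530109711))) (c (a (l 529928463) (l 529894415)) (c (l 530019967) (l 530096767)))) (a (c (b (l 530000767) (l 530014591)) (b (l 530142335) (l 530153087))) (c (b (l 529930367) (l 529944191)) (b (l 530072447) (l 530083199))))) (b (c (a (a (l 529860623) (l 529827599)) (c (l 529745023) (l 529814655))) (a (c (l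 529952895) (l 530029695)) (c (l 529888127) (l 529964927)))) (c (a (c (l 529836159) (l 529903231)) (c (l 529770623) (l 529837951))) (a (c (l 529973631) (l 530047615)) (l 529945103)))))), by decide +kernel⟩

def k17_A00pm_012_s1 : ∃ t, chk3 f_A00pm_012_s1 t 139 123 4 = true :=
  ⟨(c (c (a (b (b (a (l 529632127) (l 529573247)) (a (l 529645439) (l 529586047))) (b (a (l 529665663) (l 529606015)) (a (l 529691263) (l 529630847)))) (a (b (b (l 529516415) (l 529528959)) (b (l 529548415) (l 529572991))) (b (b (l 529462143) (l 529474431)) (b (l 529493375) (b (l 16746480) (b (l 16745392) (a (l 16745168) (b (l 16744296) (l 16743832))))))))) (a (b (b (a (l 529667455) (l 529608319)) (a (l 529680255) (l 529620863))) (b (a (l 529699711) (l 529639807)) (a (l 529724287) (l 529663871)))) (a (b (b (l 529551487) (l 529563775)) (b (l 529582463) (l 16747928))) (b (b (l 529497215) (l 529509247)) (b (l 529527423) (b (l 16746624) (b (l 16745536) (a (l 16745312) (b (l 16744448) (l 16743984)))))))))) (c (a (b (b (a (l 529703807) (l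 529644415)) (a (l 529716095) (l 529656703))) (b (a (l 529734527) (l 529674623)) (a (l 529757823) (l 529697663)))) (a (b (b (l 529587583) (l 529599615)) (b (l 529617279) (l 16748064))) (b (b (l 529533055) (l 529544831)) (b (l 529562239) (b (l 16746760) (b (l 16745680) (a (l 16745464) (b (l 16744592) (l 16744128))))))))) (a (b (b (a (l 529740927) (l 529681535)) (a (l 529752703) (l 529693311))) (b (a (l 529770367) (l 529710463)) (a (l 529792383) (l 529732223)))) (a (b (b (l 529624703) (l 529636223)) (b (l 529653119) (l 16748200))) (b (b (l 529570175) (l 529581439)) (b (l 529598079) (b (l 16746912) (b (l 16745832) (a (l 16745608) (b (l 16744752) (l 16744288))))))))))), by decide +kernel⟩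

def k18_A00pm_012_s1 : ∃ t, chk3 f_A00pm_012_s1 t 139 123 5 = true :=
  ⟨(c (c (a (b (b (a (l 529779071) (l 529719679)) (a (l 529790335) (l 529730943))) (b (a (l 529806975) (l 529747071)) (a (l 529827967) (l 529767807)))) (a (b (b (l 529662591) (l 529673599)) (b (l 529689727) (l 16748344))) (b (b (l 529608063) (l 529619071)) (b (l 529634943) (a (l 16746832) (b (l 16746560) (b (l 16745488) (l 16744664)))))))) (a (b (b (a (l 529817983) (l 529758591)) (a (l 529828991) (l 529769343))) (b (a (l 529844607) (l 529784703)) (a (l 529864319) (l 529804159)))) (a (b (b (l 529701503) (l 529712255)) (b (l 529727359) (l 16748496))) (b (b (l 529646975) (l 529657471)) (b (l 16749352) (b (l 16747216) (b (l 16746144) (a (l 16745920) (l 16744832))))))))) (c (a (b (b (a (l 529857919) (l 529798527)) (a (l 529868415) (l 529808767))) (b (a (l 529883007) (l 529823359)) (a (l 529901439) (l 529841535)))) (a (b (b (l 529741439) (l 529751679)) (b (l 529766015) (l 16748648))) (b (b (l 529686655) (l 529696895)) (b (l 16749496) (b (l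 16747368) (b (l 16746304) (a (l 16746088) (l 16745000)))))))) (a (b (b (a (l 529898879) (l 529839231)) (a (l 529908863) (l 529849215))) (b (a (l 529922431) (l 529862783)) (a (l 529939583) (l 529879679)))) (a (b (b (l 529782143) (l 529791871)) (b (l 529805439) (l 16748800))) (b (b (l 529727359) (l 529737343)) (b (l 16749648) (a (l 16747312) (b (l 16747040) (l 16742928))))))))), by decide +kernel⟩

def k19_A00pm_012_s1 : ∃ t, chk3 f_A00pm_012_s1 t 138 123 3 = true :=
  ⟨(b (a (b (c (a (b (l 530266639) (l 530270735)) (b (l 530197263) (l 530201103))) (a (b (l 530584335) (l 530453519)) (b (l 530380303) (l 530383631)))) (a (c (b (l 530274831) (l 530279439)) (b (l 530456079) (l 530458127))) (c (a (l 530224655) (l 530190607)) (b (l 530386447) (l 530388751))))) (b (c (a (b (l 530130303) (l 530134143)) (c (l 530024063) (l 530111615))) (a (a (l 530331151) (l 530298127)) (c (l 530202751) (l 530297727)))) (c (a (a (l 530157071) (l 530124159)) (c (l 530033279) (l 530119551))) (a (a (l 530337039) (l 530304015)) (c (l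 530209663) (l 530303359)))))) (a (b (a (b (c (l 530284671) (l 530460287)) (c (l 530290815) (l 530462847))) (c (c (l 530176895) (l 530260607)) (a (l 530409487) (l 530375807)))) (a (b (c (l 530297471) (l 530465919)) (l 530117135)) (c (b (l 530228095) (l 530235775)) (b (l 530397567) (l 530401663))))) (b (c (a (c (l 530109823) (l 530193791)) (c (l 530045311) (l 530129279))) (a (c (l 530281087) (l 530371967)) (c (l 530216831) (l 530307967)))) (c (a (l 530232079) (l 530100495)) (a (c (l 530290047) (l 530377599)) (l 530269711)))))), by decide +kernel⟩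

def k20_A00pm_012_s1 : ∃ t, chk3 f_A00pm_012_s1 t 139 123 3 = true :=
  ⟨(b (a (b (c (a (c (l 529962111) (l 530049407)) (l 529945359)) (a (c (l 530140543) (l 530235263)) (l 530127631))) (c (a (c (l 529971071) (l 530057599)) (l 529954063)) (a (c (l 530147455) (l 530241151)) (l 530134031)))) (a (b (c (l 529888271) (l 530204543)) (c (l 530031231) (l 530077055))) (b (c (l 529833599) (l 530015615)) (c (l 529842303) (l 530022527))))) (c (c (a (b (a (l 529983103) (l 529923455)) (a (l 529998207) (l 529938559))) (c (b (l 530086527) (b (l 16748680) (a (l 16748256) (b (l 16746640) (l 16743240))))) (b (l 530127743) (b (l 16748848) (a (l 16748424) (b (l 16746816) (l 16743416))))))) (b (a (a (l 530067327) (l 530007679)) (a (l 529950591) (l 529896063))) (a (a (l 530079871) (l 530020479)) (b (l 16749096) (a (l 16748680) (a (l 16747216) (b (l 16746600) (l 16745800)))))))) (b (a (a (l 530334479) (l 530140943)) (a (l 530084223) (l 530029951))) (a (a (l 530208271) (l 530149391)) (a (l 530093183) (b (l 16748680) (a (l 16747776)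 (b (l 16747168) (l 16743760))))))))), by decide +kernel⟩

def k21_A00pm_012_s1 : ∃ t, chk3 f_A00pm_012_s1 t 70 60 1 = true :=
  ⟨(a (b (c (b (a (l 3) (b (l 3) (a (l 529543295) (l 529498639)))) (a (c (l 529500287) (l 529659519)) (a (l 529506319) (l 529461775)))) (b (a (l 3) (a (l 529645071) (l 529600783))) (a (l 529661455) (a (l 529858175) (l 529813519))))) (c (a (b (c (l 529463311) (l 529620607)) (c (b (l 529443967) (l 529435007)) (b (l 529599615) (l 529589631)))) (b (c (l 529637759) (l 529526143)) (c (b (l 529349759) (l 529340799)) (l 529768207)))) (a (b (c (l 529794175) (l 529983871)) (c (b (l 529771647) (l 529760639)) (b (l 529959551) (l 529947519)))) (b (c (l 529699711) (l 529889919)) (c (l 529671439) (l 530127743)))))) (b (c (b (a (c (l 529370895) (l 529532431)) (c (l 529294975) (l 529457279))) (a (c (l 529321231) (l 529480719)) (b (l 529334543) (l 529312783)))) (b (a (l 529538831) (l 529733647)) (a (b (l 529764623) (l 529739791)) (c (l 529583375) (l 529778703))))) (c (b (a (c (l 529284479) (l 529441663))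 (c (l 529208959) (l 529366655))) (a (c (l 529260047) (l 529415295)) (c (l 529184895) (l 529340799)))) (a (b (c (l 529615487) (l 529806463)) (c (l 529587327) (l 529775999))) (b (c (l 529541759) (l 529734015)) (c (l 529513599) (l 529703551))))))), by decide +kernel⟩

def k22_A00pm_012_s1 : ∃ t, chk3 f_A00pm_012_s1 t 71 60 1 = true :=
  ⟨(b (a (c (b (a (l 529308431) (l 529252879)) (a (c (l 529179007) (l 529340287)) (l 529202447))) (b (a (l 529670415) (l 529617279)) (a (l 529615887) (l 529563263)))) (a (c (b (l 529207423) (l 529157647)) (b (l 529575039) (l 529521791))) (c (b (l 529172607) (l 529123343)) (b (l 529543807) (l 529491327))))) (a (c (b (a (c (l 529143167) (l 529302143)) (c (l 529087359) (l 529247871))) (a (c (l 529119615) (l 529276543)) (c (l 529064319) (l 529222783)))) (a (b (c (l 529478527) (l 529672319)) (c (l 529450623) (l 529642111))) (b (l 529521679) (c (l 529398399) (l 529591679))))) (c (a (b (l 529121039) (c (l 529019775) (l 529179775))) (b (l 529087503) (c (l 528985983) (l 16740272))))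 (a (b (l 529480719) (l 529452815)) (b (l 529451135) (l 529424143)))))), by decide +kernel⟩

def k23_A00pm_012_s1 : ∃ t, chk3 f_A00pm_012_s1 t 140 122 1 = true :=
  ⟨(c (b (a (c (b (l 529429007) (a (l 529451647) (l 529401983))) (b (l 529582975) (l 529579791))) (c (b (l 529334655) (l 529331983)) (b (l 529488767) (l 529485183)))) (a (c (b (a (l 529452159) (l 529402495)) (a (l 529455999) (l 529406335))) (b (a (l 529604735) (l 529555071)) (a (l 529608063) (l 529558143)))) (c (b (a (l 529355391) (l 529310591)) (a (l 529358975) (l 529314431))) (b (l 529485071) (a (l 529511039) (l 529466495)))))) (b (a (c (b (l 529752959) (l 529748751)) (b (l 529939071) (l 529933695))) (c (b (l 529658751) (l 529654655)) (b (l 529845119) (l 529839999)))) (a (c (b (a (l 529772927) (l 529723519)) (a (l 529775487) (l 529725823))) (b (a (l 529956991) (l 529907583)) (a (l 529958527) (l 529909119)))) (c (b (l 529653775) (a (l 529678975) (l 529634431))) (b (l 529838207) (l 529840143)))))), by decide +kernel⟩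

def k24_A00pm_012_s1 : ∃ t, chk3 f_A00pm_012_s1 t 140 246 1 = true :=
  ⟨(a (c (c (b (a (l 529462799) (l 529413247)) (a (l 529474575) (l 529425023))) (b (a (l 529614463) (l 529564799)) (a (l 529624703) (l 529575039)))) (b (c (a (l 529781375) (l 529731711)) (a (l 529963647) (l 529914239))) (c (a (l 529790079) (l 529740671)) (a (l 529970559) (l 529921407))))) (c (c (b (a (l 529366143) (l 529321343)) (a (l 529377663) (l 529332863))) (b (a (l 529517439) (l 529472895)) (a (l 529527935) (l 529483135)))) (c (b (a (l 529684607) (l 529640319)) (a (l 529693567) (l 529649279))) (b (a (l 529867647) (l 16748616)) (a (l 529874815) (l 16745848)))))), by decide +kernel⟩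

def k25_A00pm_012_s1 : ∃ t, chk3 f_A00pm_012_s1 t 140 494 1 = true :=
  ⟨(a (a (c (c (l 529492239) (l 529639295)) (c (l 529801343) (l 529978495))) (a (c (c (l 529454463) (l 529601663)) (c (l 529763967) (l 529941375))) (b (c (l 529497359) (l 529824015)) (c (c (l 16743544) (l 16744208)) (b (l 16745688) (l 16742360)))))) (c (a (b (c (l 16743472) (l 16744144)) (a (b (l 16743216) (a (c (l 16742376) (l 16743056)) (b (l 16742384) (l 16741896)))) (b (a (c (l 16742096) (l 16742792)) (b (l 16742112) (l 16741672))) (c (l 16740856) (l 16741568))))) (b (a (b (l 16742632) (b (l 16742080) (a (l 16741968) (l 16741424)))) (c (b (l 16741248) (b (l 16740640) (l 16740136))) (b (l 16741960) (b (l 16741360) (l 16740872))))) (a (a (b (c (l 16740944) (l 16741664)) (l 16740224)) (c (l 16739760) (l 16740496))) (c (l 16738776) (l 16739544))))) (c (a (b (l 16744880) (a (b (l 16744312) (l 16740904)) (b (l 16743272) (l 16742352)))) (a (b (l 16743376) (l 16739008)) (b (b (l 16742752) (l 16741912)) (l 16740384)))) (a (b (l 16745688)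 (a (b (l 16745128) (l 16744360)) (b (l 16744120) (l 16743216)))) (b (a (l 16744224) (b (l 16743608) (l 16742792))) (a (l 16742512) (l 16741304))))))), by decide +kernel⟩

def k26_A00pm_012_s1 : ∃ t, chk3 f_A00pm_012_s1 t 140 495 1 = true :=
  ⟨(a (b (a (a (c (l 529591823) (l 529909263)) (c (b (l 16744816) (a (l 16744344) (b (l 16744024) (c (l 16743280) (l 16743944))))) (c (l 16742856) (l 16743640)))) (c (a (b (c (l 16743464) (l 16744120)) (b (a (c (l 16743152) (l 16743816)) (l 16742872)) (c (l 16742320) (l 16743000)))) (b (a (b (l 16743208) (l 16742760)) (c (l 16742048) (l 16742736))) (c (l 16741280) (l 16741984)))) (a (b (b (l 16745432) (l 16742448)) (c (l 16741376) (l 16744816))) (b (c (l 16741144) (l 16744592)) (l 16740560))))) (c (c (a (b (a (b (l 16744240) (a (l 16744120) (l 16743520))) (a (l 16743136) (l 16742480))) (c (l 16742208) (l 16742528))) (c (l 16740128) (l 16740464))) (a (b (a (b (l 16744888) (l 16744464)) (l 16743480)) (l 16745664)) (l 16743640))) (a (a (b (c (l 16742752) (l 16743528))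 (c (l 16744416) (l 16745216))) (b (a (l 16742296) (l 16744304)) (l 16740952))) (c (l 16744432) (l 16745304))))) (c (c (a (c (l 16741216) (l 16741576)) (b (l 16739880) (l 16735080))) (a (c (l 16741952) (l 16742352)) (c (l 16736768) (l 16737200)))) (c (a (b (l 16744032) (l 16739320)) (c (l 16737648) (l 16738120))) (a (c (l 16741048) (l 16741520)) (l 16738872))))), by decide +kernel⟩

def k27_A00pm_012_s1 : ∃ t, chk3 f_A00pm_012_s1 t 141 122 1 = true :=
  ⟨(c (b (a (c (b (l 529250175) (l 529247359)) (b (l 529404287) (l 529400959))) (c (b (l 529175167) (l 529172607)) (l 529327887))) (a (c (b (l 529248015) (a (l 529271935) (l 529232255))) (b (l 529400703) (l 529404175))) (c (b (l 529173119) (l 529177103)) (b (l 529326719) (l 529330047))))) (b (a (c (b (l 529574783) (l 529570687)) (l 530027535)) (c (l 529767295) (l 529686911))) (a (c (b (l 529569919) (l 529572479)) (b (l 529755263) (l 529757311))) (c (b (l 529496703) (l 529499519)) (b (l 529683327) (l 529685375)))))), by decide +kernel⟩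

def k28_A00pm_012_s1 : ∃ t, chk3 f_A00pm_012_s1 t 141 246 1 = true :=
  ⟨(b (c (a (c (a (l 529279103) (l 529239167)) (a (l 529430911) (l 529391231))) (a (b (l 16741512) (c (l 16739664) (l 16740408))) (b (l 16739464) (a (b (l 16738864) (c (l 16737672) (l 16738456))) (c (b (l 16737408) (l 16736472)) (b (l 16738200) (l 16737280))))))) (a (c (l 529578511) (l 529762575)) (a (c (b (l 16742672) (l 16741232)) (l 16740224)) (b (l 16741136) (a (b (l 16740560) (l 16734552)) (a (l 16734136) (l 16733584))))))) (a (a (b (c (c (l 16742304) (l 16743000)) (l 529694479)) (b (c (l 16741544) (l 16743120)) (c (a (l 16741320) (c (a (l 16740168) (l 16739600)) (l 16740608))) (a (l 16742904) (c (l 16741424) (l 16742320)))))) (c (c (a (b (l 16740760) (b (l 16739600) (l 16738664))) (b (l 16739696) (b (l 16738432) (l 16737360)))) (b (l 16738336) (b (a (l 16740344) (l 16739200)) (l 16738792)))) (c (b (l 16739152) (a (b (l 16741168) (l 16740272)) (l 16739544))) (b (l 16742664) (a (l 16736376) (l 16740488)))))) (c (a (b (a (b (l 16739416)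 (c (l 16732944) (l 16738960))) (b (a (l 16733368) (l 16738032)) (l 16737304))) (c (l 16735952) (l 16736776))) (c (b (l 16735512) (l 16733368)) (b (l 16736344) (l 16734256)))) (a (b (a (b (l 16741096) (l 16735032)) (b (l 16734792) (l 16739088))) (c (l 16737696) (l 16738696))) (c (c (l 16736008) (l 16736512)) (l 16737304)))))), by decide +kernel⟩

def k29_A00pm_012_s1 : ∃ t, chk3 f_A00pm_012_s1 t 141 247 1 = true :=
  ⟨(a (c (b (a (b (a (b (a (b (l 16741016) (l 16740584)) (b (l 16740464) (l 16739952))) (l 16742088)) (c (l 16738344) (l 16739112))) (c (l 16736824) (l 16737632))) (b (c (l 16736392) (l 16737208)) (c (l 16734232) (l 16735096)))) (c (c (a (l 16733368) (l 16730760)) (a (l 16733776) (l 16731208))) (c (a (l 16734216) (l 16731672)) (a (l 16734680) (l 16732168))))) (b (a (c (b (a (b (l 16741672) (l 16740688)) (l 16739968)) (l 16738520)) (b (c (l 16738624) (l 16739104)) (l 16739496))) (c (c (l 16736840) (l 16737328)) (l 16738104))) (c (c (l 16739168) (l 16734448)) (a (l 16736472) (l 16734088))))) (c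 (c (a (b (c (l 16732512) (l 16732936)) (c (l 16728168) (l 16728640))) (b (l 16732760) (l 16725832))) (b (c (a (l 16733392) (l 16730856)) (l 16737856)) (c (l 16727880) (l 16728424)))) (b (c (c (l 16738376) (l 16733672)) (a (l 16735720) (l 16733352))) (c (c (l 16728992) (l 16729592)) (l 16730544))))), by decide +kernel⟩

def k30_A00pm_012_s1 : ∃ t, chk3 f_A00pm_012_s1 t 71 122 1 = true :=
  ⟨(b (c (c (a (a (l 529108495) (l 529053823)) (a (l 529010047) (b (l 16735000) (a (l 16727680) (b (l 16731664) (l 16729896)))))) (b (a (a (l 16747824) (l 16743832)) (l 529421327)) (a (a (l 529262975) (l 16740896)) (a (l 16736880) (a (l 16733824) (l 16726456)))))) (a (a (c (l 529436287) (l 529625727)) (c (l 529384575) (l 529575807))) (a (b (l 16741152) (l 16738296)) (b (l 16737320) (a (l 16735360) (a (l 16723376) (l 16722328))))))) (a (c (b (a (c (l 529108607) (l 529263231)) (a (l 16735928) (b (l 16737264) (l 16730512)))) (b (a (c (l 16739008) (l 16739768)) (a (a (l 16736816) (l 16735768)) (a (b (l 16735128) (l 16734256))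 (l 16728280)))) (a (a (l 16738904) (a (l 16737360) (b (l 16736720) (l 16730656)))) (a (a (b (l 16735648) (l 16734712)) (l 16728728)) (l 16734696))))) (b (a (c (l 16742768) (l 16743640)) (a (l 16740272) (l 16738328))) (a (a (l 16741320) (b (l 16740080) (a (l 16739136) (l 16732872)))) (a (b (l 16732864) (a (l 16731800) (l 16735912))) (c (b (l 16735496) (l 16733576)) (l 16730384)))))) (c (a (b (a (b (l 16735224) (a (l 16728928) (l 16727808))) (b (a (l 16733664) (l 16727328)) (l 16725976))) (c (c (l 16728640) (l 16729112)) (l 16735112))) (b (a (b (l 16725552) (l 16728728)) (l 16722048)) (c (l 16723832) (l 16724976)))) (a (b (a (b (l 16737104) (l 16730312)) (b (l 16729848) (l 16733320))) (c (l 16730976) (l 16732192))) (a (c (l 16729392) (l 16730664)) (a (l 16728264) (l 16727112))))))), by decide +kernel⟩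

def k31_A00pm_012_s1 : ∃ t, chk3 f_A00pm_012_s1 t 71 123 1 = true :=
  ⟨(c (a (a (b (b (a (b (a (b (l 16738296) (l 16737528)) (b (l 16737256) (l 16731160))) (a (c (l 16735720) (l 16736544)) (l 16734840))) (b (a (b (l 16730912) (l 16735152)) (l 16734408)) (c (l 16732496) (l 16733408)))) (a (c (l 16734480) (l 16732784)) (c (l 16729296) (l 16730288)))) (c (b (c (l 16726048) (l 16726544)) (c (l 16721720) (l 16722272))) (b (c (l 16727080) (l 16727640)) (c (l 16722856) (l 16723472))))) (b (c (b (c (l 16729496) (l 16729960)) (c (l 16725208) (l 16725728))) (b (c (l 16730448) (l 16730960)) (c (l 16726272) (l 16726848)))) (c (b (c (l 16720912) (l 16721480)) (c (l 16716608) (l 16717224))) (b (l 16727640) (l 16718216))))) (b (c (a (b (c (l 16724384) (l 16724912)) (l 16725640)) (b (l 16719616) (l 16715376))) (a (b (l 16731000) (l 16721632)) (b (l 16720872) (l 16716752)))) (c (a (b (l 16710896) (l 16711872)) (b (l 16711128) (l 16706864))) (a (b (l 16717480) (l 16713312)) (b (l 16712616) (l 16708464)))))) (a (c (a (b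 (b (b (a (l 16733392) (l 16731168)) (a (l 16736848) (l 16734408))) (a (l 16733816) (l 16731384))) (b (c (l 16728232) (l 16728848)) (l 16729688))) (b (b (l 16731784) (l 16733008)) (b (l 16723720) (l 16719656)))) (a (b (b (a (b (l 16739608) (l 16737872)) (l 16736480)) (c (l 16733464) (l 16734072))) (b (l 16729824) (l 16725864))) (b (b (l 16732976) (l 16729096)) (b (l 16725176) (l 16721240))))) (b (a (c (a (l 16726184) (l 16723808)) (c (l 16726048) (l 16726792))) (c (c (l 16719888) (l 16720656)) (l 16721864))) (a (c (b (l 16718968) (l 16714920)) (l 16718632)) (c (b (l 16714264) (l 16710232)) (l 16714120)))))), by decide +kernel⟩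

def k32_A00pm_012_s1 : ∃ t, chk3 f_A00pm_012_s1 t 136 124 1 = true :=
  ⟨(a (b (a (b (c (l 530456447) (l 531059071)) (l 14)) (b (c (l 530373247) (l 530965375)) (c (l 530400127) (l 530987647)))) (l 14)) (b (a (c (b (a (l 530580095) (l 530539903)) (l 530318207)) (b (l 530605951) (l 530628223))) (c (b (a (l 530499711) (l 530460031)) (l 530506255)) (b (l 530518143) (l 530540415)))) (a (l 14) (a (l 14) (b (l 530523919) (l 14)))))), by decide +kernel⟩

def k33_A00pm_012_s1 : ∃ t, chk3 f_A00pm_012_s1 t 137 124 1 = true :=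
  ⟨(a (b (c (b (a (a (l 530420607) (l 530381439)) (a (l 530342527) (l 530304383))) (a (a (l 530446975) (l 530407807)) (a (l 530369151) (l 530331007)))) (b (a (l 530601855) (l 530353167)) (a (l 530455679) (l 530374159)))) (b (c (a (l 530724623) (a (l 530398335) (l 530360191))) (a (l 530481791) (l 530400127))) (a (l 14) (a (l 14) (b (b (l 530248575) (l 14)) (l 14)))))) (b (c (b (a (a (l 530266495) (l 530228751)) (c (l 530107663) (l 530242575))) (a (b (l 530267663) (l 530281743)) (a (l 530219023) (l 530182671)))) (b (a (a (l 530294655) (l 530256255)) (b (l 530196239) (l 530204943))) (a (l 530295823) (l 530220559)))) (b (c (b (a (l 530296335) (l 530222607)) (a (l 530311551) (b (l 16753288) (a (b (l 16753256) (l 16750280)) (c (b (l 16752024) (l 16751552)) (l 16749632)))))) (a (l 530321167) (b (l 530238591) (b (l 16754304) (a (l 16754112) (c (l 16750168) (l 16750744))))))) (c (c (a (b (a (b (l 16754080) (l 16750696)) (b (l 16753088) (l 16752136))) (l 16751032)) (b (a (b (b (l 16752240) (l 16751704)) (l 16750832))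 (l 16750104)) (l 16748424))) (b (a (a (b (l 16754536) (l 16751168)) (b (l 16753560) (l 16752624))) (a (b (l 16749832) (l 16751336)) (l 16750624))) (a (l 16751544) (l 16748968)))) (c (b (a (a (b (l 16755032) (l 16751680)) (b (l 16754080) (l 16753160))) (a (l 16752440) (l 16751184))) (a (l 16752104) (l 16749576))) (b (a (a (l 16755208) (b (l 16754640) (l 16753736))) (a (l 16753024) (l 16751800))) (a (l 16752712) (l 16750224)))))))), by decide +kernel⟩

def k34_A00pm_012_s1 : ∃ t, chk3 f_A00pm_012_s1 t 68 125 1 = true :=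
  ⟨(a (l 14) (b (a (l 14) (a (l 14) (a (l 14) (b (b (c (l 16743104) (l 16747048)) (l 14)) (l 14))))) (l 14))), by decide +kernel⟩

def k35_A00pm_012_s1 : ∃ t, chk3 f_A00pm_012_s1 t 138 248 1 = true :=
  ⟨(a (c (b (a (c (l 530035727) (l 530170639)) (c (l 529965839) (l 530100751))) (a (a (l 530146831) (l 530111503)) (c (l 529995791) (l 530126719)))) (b (a (b (l 530124303) (l 530132751)) (c (l 530248719) (l 530409743))) (a (a (l 530165631) (l 530398479)) (a (l 530363407) (l 530329359))))) (c (a (b (c (b (l 529890431) (l 529905279)) (l 530167311)) (b (c (l 16751032) (l 16751528)) (a (b (l 16750728) (c (b (l 16749952) (l 16746912)) (b (l 16750464) (l 16747432)))) (b (c (l 16746840) (l 16747368)) (a (b (l 16746784) (l 16748864)) (l 16748496)))))) (c (b (c (l 529800063) (l 529864831)) (b (b (l 16749400) (a (l 16749192) (b (a (l 16748624) (l 16748088)) (a (l 16748208) (l 16747576))))) (a (b (b (a (l 16748904) (l 16748320)) (l 16748096)) (l 16747240)) (l 16746496)))) (b (l 529967887) (b (b (l 16749928) (a (l 16749720)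 (c (l 16745888) (l 16746176)))) (a (b (b (l 16746512) (l 16748640)) (l 16747800)) (l 16747064)))))) (a (b (c (l 530181903) (l 530343695)) (c (b (l 16752072) (a (b (l 16751536) (l 16748184)) (b (l 16747936) (l 16749672)))) (b (l 16752664) (a (b (l 16752136) (l 16748800)) (b (l 16751184) (l 16750312)))))) (c (b (l 530117391) (b (b (l 16750512) (a (l 16750304) (c (l 16746472) (l 16749408)))) (a (b (b (l 16749728) (l 16749232)) (l 16748416)) (l 16747696)))) (b (l 530280463) (b (b (l 16751136) (a (l 16750936) (a (l 16750192) (l 16749648)))) (a (b (a (l 16750416) (l 16749840)) (l 16749088)) (l 16748384)))))))), by decide +kernel⟩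

def k36_A00pm_012_s1 : ∃ t, chk3 f_A00pm_012_s1 t 276 249 1 = true :=
  ⟨(b (a (b (a (c (l 530168959) (l 16753904)) (c (b (l 16752256) (c (l 16748680) (l 16751792))) (b (l 16753304) (a (l 16752880) (l 16749760))))) (c (c (b (a (l 16748928) (l 16747752)) (a (l 16750536) (l 16749224))) (b (a (l 16749416) (l 16750880)) (l 16753024))) (c (b (a (l 16749952) (l 16751432)) (l 16750968)) (b (a (l 16750536) (l 16752032)) (l 16751584))))) (b (c (c (a (b (l 16751040) (b (l 16747832) (l 16749936))) (b (c (l 16747224) (l 16747464)) (l 16748904))) (a (b (l 16751536) (b (l 16750952) (l 16750448))) (b (c (l 16747720) (l 16747992)) (l 16749432)))) (c (b (a (l 16752080) (a (l 16751328) (l 16750768))) (a (b (l 16751504) (l 16751008)) (l 16750016))) (a (b (l 16752672) (l 16749232)) (b (l 16749024) (l 16750648))))) (c (c (c (l 16747712) (l 16747968)) (c (l 16748240) (l 16748528))) (c (l 16748984) (l 16749640))))) (c (a (c (c (l 16746848) (l 16747120)) (c (l 16747400) (l 16747696))) (c (b (l 16745528) (l 16743216)) (c (l 16744824)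 (l 16745144)))) (b (a (c (l 16749288) (l 16749944)) (c (l 16746768) (l 16747472))) (a (c (l 16747056) (l 16747760)) (c (l 16744544) (l 16745304)))))), by decide +kernel⟩

def k37_A00pm_012_s1 : ∃ t, chk3 f_A00pm_012_s1 t 277 249 1 = true :=
  ⟨(b (a (c (b (c (c (l 16747384) (l 16747640)) (a (l 16751328) (l 16747416))) (c (c (l 16745080) (l 16745360)) (l 16748432))) (b (c (a (l 16751920) (l 16748032)) (b (l 16749864) (l 16748792))) (c (l 16749088) (l 16747176)))) (c (c (c (b (l 16744744) (l 16742456)) (l 16746512)) (c (l 16746824) (l 16744528))) (c (b (l 16748760) (l 16743952)) (b (l 16746864) (l 16744720))))) (c (c (c (b (l 16744088) (l 16739168)) (b (l 16741784) (l 16739496))) (a (b (l 16743560) (l 16741296)) (c (l 16739696) (l 16740064)))) (a (c (c (l 16742960) (l 16743336)) (b (l 16745016) (l 16742856))) (c (l 16740656) (l 16741504))))), by decide +kernel⟩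

def k38_A00pm_012_s1 : ∃ t, chk3 f_A00pm_012_s1 t 278 248 1 = true :=
  ⟨(b (a (a (c (c (l 529784191) (l 529920895)) (c (l 530070911) (l 16751416))) (b (c (l 529813263) (l 530116879)) (c (b (l 16748584) (b (l 16748056) (a (l 16747952) (l 16744792)))) (b (l 16749800) (c (l 16748768) (l 16749440)))))) (b (c (c (l 16747872) (l 16748440)) (c (l 16749064) (l 16749744))) (c (a (b (a (l 16747840) (l 16744704)) (a (b (l 16744664) (l 16746816)) (b (l 16744088) (l 16746160)))) (b (a (b (l 16747008) (l 16743968)) (b (c (l 16746184) (l 16746776)) (l 16745960))) (c (l 16745160) (l 16745768)))) (c (a (b (l 16748504) (a (l 16747976) (l 16747384))) (b (c (l 16744656) (l 16747616)) (l 16746440))) (a (b (l 16749192) (l 16745744)) (b (l 16745536) (l 16747176))))))) (c (c (a (b (a (b (b (l 16748072) (a (l 16747960) (l 16747376))) (l 16746872)) (b (a (l 16746992) (l 16746344)) (l 16745552))) (c (l 16744376) (l 16744672))) (c (b (l 16743992) (l 16741744)) (b (l 16744288) (l 16742056)))) (a (b (a (b (a (l 16748688) (l 16745528))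 (l 16747440)) (b (a (l 16747560) (l 16746928)) (l 16746152))) (c (l 16744976) (l 16745296))) (b (c (l 16744600) (l 16744936)) (l 16745184)))) (c (a (b (a (b (a (l 16749296) (l 16748760)) (l 16748064)) (b (l 16747880) (l 16746800))) (c (l 16745632) (l 16745984))) (b (c (l 16745280) (l 16745640)) (l 16745912))) (a (b (b (a (l 16747056) (l 16748568)) (a (l 16748752) (l 16747520))) (l 16746544)) (b (l 16746208) (l 16744096)))))), by decide +kernel⟩

def k39_A00pm_012_s1 : ∃ t, chk3 f_A00pm_012_s1 t 279 248 1 = true :=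
  ⟨(c (b (a (c (b (a (b (l 16746712) (b (l 16746168) (a (l 16746048) (l 16745464)))) (a (b (l 16745952) (l 16745080)) (b (l 16745408) (l 16744424)))) (c (l 16743600) (l 16743904))) (b (a (a (l 16747184) (a (l 16744176) (l 16743904))) (b (l 16743656) (l 16742752))) (c (l 16744224) (l 16744560)))) (c (b (a (b (b (a (l 16745088) (l 16744496)) (l 16744272)) (l 16743440)) (l 16742680)) (c (l 16740960) (l 16741288))) (b (a (a (b (l 16745464) (l 16744408)) (l 16744312)) (l 16743344)) (l 16744432)))) (c (c (a (l 16742856) (l 16737608)) (a (l 16743192) (l 16737968))) (a (c (l 16743536) (l 16743904)) (c (l 16738344) (l 16738744))))) (b (a (b (a (b (l 16748296) (c (l 16744584) (l 16745304))) (b (a (l 16747576) (l 16744440)) (c (l 16746056) (l 16746808)))) (c (c (l 16744904) (l 16745280)) (a (l 16746472) (l 16745248)))) (c (b (a (b (l 16743224) (l 16744808)) (l 16744080)) (l 16745200)) (b (a (b (l 16743976) (l 16745592)) (l 16744888)) (l 16743416)))) (a (c (b (l 16742944) (l 16740792)) (c (l 16742496) (l 16742936)))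 (c (b (l 16740440) (l 16738304)) (l 16740280))))), by decide +kernel⟩

def k40_A00pm_012_s1 : ∃ t, chk3 f_A00pm_012_s1 t 139 249 1 = true :=
  ⟨(c (b (a (a (c (c (l 16743600) (l 16743912)) (b (l 16745536) (l 16740688))) (c (c (l 16738352) (l 16738696)) (c (l 16739056) (l 16739440)))) (c (c (a (l 16735736) (l 16733128)) (a (l 16736104) (l 16733520))) (a (c (l 16736496) (l 16736904)) (c (l 16733944) (l 16734376))))) (a (c (c (a (l 16736408) (l 16733808)) (a (l 16736768) (l 16734192))) (c (a (l 16737144) (l 16734592)) (l 16736272))) (c (c (a (l 16731216) (l 16728624)) (l 16735584)) (c (l 16730784) (l 16731248))))) (c (b (a (a (b (l 16743632) (l 16741448)) (b (l 16741128) (l 16738952))) (c (l 16736088) (l 16736552))) (a (c (l 16736704) (l 16737152)) (c (l 16731744) (l 16732256)))) (b (a (a (b (l 16744408) (l 16742280)) (l 16740912)) (a (l 16738496) (l 16736088))) (a (a (l 16739080) (l 16736664)) (c (l 16732792) (l 16733360)))))), by decide +kernel⟩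

def k41_A00pm_012_s1 : ∃ t, chk3 f_A00pm_012_s1 t 69 125 1 = true :=
  ⟨(c (b (a (b (a (c (c (b (l 16742040) (l 16739696)) (b (l 16742344) (l 16740024))) (a (l 16742968) (l 16745672))) (c (c (a (l 16736984) (l 16734400)) (l 16741296)) (c (l 16736432) (l 16736840)))) (a (a (l 14) (c (l 16735064) (l 16735856))) (c (c (l 16731032) (l 16731440)) (c (l 16731872) (l 16732328))))) (b (c (a (c (l 16730528) (l 16730936)) (c (l 16725384) (l 16725840))) (a (c (l 16731368) (l 16731824)) (c (l 16726328) (l 16726848)))) (c (a (c (l 16725920) (l 16726376)) (c (l 16720816) (l 16721328))) (a (l 16732352) (l 16722144))))) (a (a (l 14) (a (l 14) (a (l 14) (b (l 16725176) (l 14))))) (c (b (a (l 16721536) (l 16716504)) (a (l 16716904) (l 16711928))) (b (c (l 16725096) (l 16720448)) (a (l 16718096) (l 16713232)))))) (b (a (b (a (a (c (l 16743688) (l 16744480)) (c (l 16741200) (l 16742040))) (c (c (l 16737264) (l 16737704)) (a (l 16739616) (l 16737200)))) (a (c (b (l 16739088) (l 14)) (l 16738896)) (c (l 16733048) (l 16734096))))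 (b (a (c (l 16732552) (l 16733608)) (a (l 16729448) (l 16727048))) (a (c (l 16728176) (l 16729344)) (c (l 16723328) (l 16724640))))) (a (b (a (l 14) (c (l 16728616) (l 16729784))) (l 14)) (a (b (c (l 16723792) (l 16725088)) (l 16720112)) (c (l 16716824) (l 16718328)))))), by decide +kernel⟩

def k42_A00pm_012_s1 : ∃ t, chk3 f_A00pm_012_s1 t 70 124 2 = true :=
  ⟨(a (b (a (b (c (a (c (l 16742056) (l 16742408)) (b (l 16740720) (l 16735896))) (a (c (l 16742768) (l 16743152)) (c (l 16737576) (l 16737992)))) (c (a (b (l 16736288) (l 16734072)) (c (l 16732376) (l 16732792))) (a (c (l 16735784) (l 16736208)) (c (l 16733224) (l 16733680))))) (c (b (a (b (l 16735488) (l 16733296)) (c (l 16731584) (l 16732016))) (c (a (l 16729776) (l 16727176)) (l 16734176))) (b (a (c (l 16735016) (l 16735464)) (c (l 16732464) (l 16732944))) (c (l 16729408) (l 16729920))))) (b (c (a (c (a (l 16730528) (l 16727928)) (l 16734904)) (c (l 16724048) (l 16724544))) (a (c (l 16730120) (l 16730608)) (c (l 16725064) (l 16725616)))) (c (a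 (c (l 16724752) (l 16725224)) (c (l 16719600) (l 16720136))) (a (c (l 16725728) (l 16726256)) (l 16726240))))) (b (a (c (b (c (a (l 16728984) (l 16726392)) (l 16733400)) (c (l 16723296) (l 16723816))) (b (c (l 16728656) (l 16729184)) (c (l 16724360) (l 16724928)))) (c (b (c (l 16722520) (l 16723056)) (c (l 16718152) (l 16718728))) (b (c (l 16723616) (l 16724208)) (l 16724904)))) (c (a (b (c (l 16718896) (l 16719448)) (a (l 16716040) (l 16713504))) (b (a (l 16715344) (l 16712808)) (l 16709712))) (a (b (l 16725592) (l 16716040)) (c (l 16718144) (l 16718856)))))), by decide +kernel⟩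

def k43_A00pm_012_s1 : ∃ t, chk3 f_A00pm_012_s1 t 70 125 2 = true :=
  ⟨(b (a (c (b (a (c (l 16720248) (l 16720768)) (a (l 16716696) (l 16714160))) (a (c (l 16715736) (l 16716296)) (l 16710968))) (b (a (l 16726848) (l 16716648)) (a (l 16717208) (l 16712296)))) (c (b (a (l 16710360) (l 16705328)) (a (l 16705944) (l 16700944))) (a (b (l 16711728) (l 16707408)) (b (l 16706840) (l 16702560))))) (a (c (b (a (l 16711496) (l 16706496)) (a (l 16706968) (l 16702016))) (c (b (l 16710008) (l 16705584)) (b (l 16710728) (l 16706368)))) (c (c (b (l 16698648) (l 16694200)) (b (l 16699432) (l 16695040))) (a (l 16706168) (l 16706624))))), by decide +kernel⟩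

def k44_A00pm_012_s1 : ∃ t, chk3 f_A00pm_012_s1 t 70 62 3 = true :=
  ⟨(b (a (a (b (b (a (c (b (l 16744824) (l 16740080)) (c (l 16741792) (l 16742256))) (c (c (l 16738424) (l 16738880)) (b (l 16740632) (l 16738568)))) (c (c (l 16735408) (l 16735896)) (a (l 16737872) (l 16735464)))) (b (c (a (l 16732616) (l 16730160)) (l 16732504)) (c (a (l 16728320) (l 16725888)) (l 16728328)))) (b (b (c (a (c (l 16735928) (l 16736416)) (l 16738944)) (b (l 16737016) (l 16734968))) (c (a (l 16731952) (l 16729496)) (c (l 16731592) (l 16732200)))) (c (b (l 16731736) (l 16722256)) (b (l 16727768) (l 16723640))))) (b (a (b (c (a (l 16731248) (l 16728800)) (c (l 16730920) (l 16731552))) (c (l 16731088) (l 16727168))) (c (b (l 16730400) (l 16721008)) (b (l 16726528) (l 16722488)))) (a (c (b (l 16721648) (l 16717448)) (b (l 16723080) (l 16718992))) (c (b (l 16716848) (l 16712680)) (l 16716416))))) (b (a (a (c (b (l 16722816) (l 16718528)) (b (l 16724152) (l 16719976))) (c (b (l 16718008) (l 16713760)) (b (l 16719496) (l 16715368))))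 (a (c (l 16711128) (l 16712848)) (c (l 16716904) (l 16708312)))) (a (a (c (l 16712096) (l 16713744)) (c (l 16717880) (l 16709200))) (c (b (l 16697264) (l 16698336)) (c (l 16701944) (l 16703024)))))), by decide +kernel⟩

def k45_A00pm_012_s1 : ∃ t, chk3 f_A00pm_012_s1 t 71 62 1 = true :=
  ⟨(b (c (c (a (b (a (b (c (l 16717384) (l 16717984)) (l 16718600)) (b (l 16717856) (l 16708312))) (a (b (l 16709024) (l 16704680)) (b (l 16704000) (l 16699680)))) (b (a (b (l 16707592) (l 16703304)) (c (l 16700056) (l 16700888))) (c (a (l 16696432) (l 16691456)) (a (l 16697288) (l 16692384))))) (a (b (a (b (l 16724184) (l 16714712)) (b (l 16714016) (l 16709816))) (a (b (l 16710480) (l 16706232)) (c (l 16703056) (l 16703928)))) (a (b (b (l 16709144) (l 16704960)) (l 16703912)) (b (l 16707464) (l 16693888))))) (a (a (b (b (c (l 16720344) (l 16721872)) (a (l 16712960) (l 16715856))) (c (b (l 16712088) (l 16707952)) (l 16711848))) (b (c (l 16713520) (l 16715288)) (c (l 16710568) (l 16707328)))) (b (c (a (l 16714064) (l 16714648))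 (a (l 16710768) (l 16706296))) (c (c (l 16708304) (l 16709400)) (c (l 16700064) (l 16701256)))))) (c (c (a (b (c (b (l 16697432) (l 16693072)) (b (l 16698256) (l 16693944))) (c (b (l 16688704) (l 16684328)) (l 16692712))) (a (b (l 16693504) (l 16679664)) (b (l 16683360) (l 16674824)))) (a (a (b (l 16705104) (l 16691376)) (b (l 16695056) (l 16686640))) (b (c (l 16687368) (l 16688480)) (c (l 16678992) (l 16680232))))) (b (a (c (c (l 16709408) (l 16710440)) (l 16704224)) (c (a (l 16692528) (l 16687984)) (l 16692808))) (a (c (l 16691232) (l 16693672)) (c (l 16676960) (l 16685048)))))), by decide +kernel⟩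

def k46_A00pm_012_s1 : ∃ t, chk3 f_A00pm_012_s1 t 17 63 1 = true :=
  ⟨(a (b (b (b (b (a (l 14) (a (l 14) (a (l 14) (c (l 16703920) (l 16712256))))) (l 14)) (l 14)) (l 14)) (l 14)) (b (a (c (b (a (a (b (c (l 16702416) (l 16703976)) (l 16693448)) (c (l 16700504) (l 16697024))) (a (c (l 16700888) (l 16692296)) (c (l 16685552) (l 16687600)))) (c (a (c (l 16688152) (l 16689112)) (c (l 16678560) (l 16679656))) (a (b (l 16692832) (l 14)) (l 16676168)))) (b (a (c (c (l 16700776) (l 16701752)) (l 16703304)) (c (l 16692120) (l 16694504))) (a (c (l 16692864) (l 16695288)) (c (l 16683944) (l 16686712))))) (c (b (c (a (a (l 16680712) (l 16675896)) (a (l 16671096) (l 16666312))) (a (b (l 16682696) (l 16678504)) (a (l 16673648) (l 16669048)))) (a (c (b (l 16671800) (l 16667464)) (l 16661768)) (c (b (l 16662328) (l 16658080)) (l 16663176)))) (b (a (c (l 16677880) (l 16685880)) (c (l 16663768) (l 16677424))) (a (a (l 16657848) (l 16653568)) (b (l 16649104) (l 16645360)))))) (c (b (a (a (l 14) (a (l 14) (a (l 14) (l 16668136))))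 (c (a (l 16660968) (l 16651736)) (a (l 16664008) (l 16655128)))) (a (l 14) (a (c (l 16652352) (l 16655896)) (c (l 16643336) (l 16647240))))) (b (a (a (l 14) (c (l 16675928) (l 16679160))) (a (l 16669112) (l 16660824))) (a (l 14) (c (l 16655624) (l 16660032))))))), by decide +kernel⟩

def k47_A00pm_012_s1 : ∃ t, chk3 f_A00pm_012_s1 t 18 28 1 = true :=
  ⟨(a (a (l 3) (b (l 3) (a (c (l 531017087) (l 530356863)) (c (b (l 530062975) (l 529987455)) (a (l 530158719) (l 530205567)))))) (a (b (b (l 3) (a (a (l 3) (l 530443391)) (l 530507135))) (c (a (b (l 530143871) (l 530070143)) (b (l 530226303) (l 530154111))) (a (b (l 530310671) (l 530241919)) (b (l 530402175) (l 530471439))))) (b (c (l 529655567) (a (l 530859391) (l 530949759))) (c (a (b (l 530310015) (l 530239615)) (l 530092559)) (a (b (l 530763391) (l 530430591)) (b (l 530856319) (l 530793855))))))), by decide +kernel⟩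

def k48_A00pm_012_s1 : ∃ t, chk3 f_A00pm_012_s1 t 36 29 1 = true :=
  ⟨(a (b (a (b (l 3) (b (a (l 3) (l 529820031)) (b (a (c (c (l 529491215) (l 529666063)) (l 530233871)) (l 529792383)) (c (a (a (l 529558655) (l 529551887)) (l 529578767)) (a (l 529670671) (l 529974799)))))) (b (c (l 529749119) (l 530154879)) (b (l 529887503) (c (l 530458495) (l 529792639))))) (a (c (b (a (b (l 529471503) (l 529372031)) (b (l 529475087) (l 529365007))) (a (b (l 529285247) (l 529211007)) (b (l 529275919) (l 529200399)))) (b (a (l 529805583) (a (l 529517839) (l 529548559))) (a (l 530162447) (a (l 529618191) (l 529622799))))) (b (c (b (a (b (l 529561727) (l 529490047)) (l 530143247)) (a (l 529397007) (l 529447039))) (b (a (l 529655567) (l 529747727)) (a (l 529792015) (l 530118015)))) (c (a (b (l 529295887) (l 529213199)) (b (l 529333119) (l 529241615))) (a (b (l 529686543) (l 529600783)) (b (l 529730687) (l 529635599))))))) (b (c (b (a (l 529831039) (l 529914239)) (a (b (l 529776511) (l 529739647)) (b (l 529860735) (l 529825151))))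 (a (b (l 530250879) (b (l 530198143) (l 529893503))) (b (l 530078591) (a (l 529985151) (l 530034047))))) (b (c (a (b (a (l 529640319) (l 529690495)) (a (l 529506687) (l 529568639))) (b (c (l 529666687) (l 529862527)) (a (l 529627775) (l 529683327)))) (a (b (a (l 530056831) (l 530114175)) (a (l 529649023) (l 529718911))) (a (b (l 530169471) (l 530054015)) (b (l 530223231) (l 530116479))))) (a (c (b (c (l 529319439) (l 529503503)) (a (l 529280783) (l 529327887))) (a (b (l 530054783) (l 529681423)) (b (l 529849871) (c (l 16741824) (l 529849983))))) (c (b (a (l 529498639) (l 529561215)) (a (l 529381135) (b (l 16732352) (l 16729456)))) (b (a (c (l 529805951) (l 530036607)) (c (l 529874047) (l 530108799))) (a (c (l 529684095) (l 529911935)) (c (l 529747327) (l 529978895))))))))), by decide +kernel⟩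

def k49_A00pm_012_s1 : ∃ t, chk3 f_A00pm_012_s1 t 74 29 1 = true :=
  ⟨(b (c (b (a (l 529998463) (l 530084879)) (a (c (l 529830527) (l 530032255)) (c (l 529915519) (l 530122111)))) (a (b (l 530174335) (b (l 530124159) (l 530191887))) (a (b (l 530515327) (l 530248063)) (b (l 530563455) (l 530230031))))) (b (c (a (b (c (l 529757311) (l 529959039)) (c (l 529665151) (l 529865343))) (b (c (l 16737792) (l 530054271)) (c (l 16732664) (l 529970559)))) (a (b (c (l 530182015) (l 530963583)) (a (l 529907839) (c (l 16739904) (l 530359423)))) (a (b (l 530379647) (c (l 16736872) (l 530417791))) (b (l 530162559) (c (l 16733888) (l 530474879)))))) (b (c (a (c (l 529554815) (l 530020991)) (a (l 530005887) (l 530061583))) (a (a (c (l 16737752) (l 530178431)) (c (l 16734688) (l 530244735))) (a (c (l 16731672) (l 530308991)) (c (l 16728704) (l 530639887))))) (c (a (a (b (l 16731672) (l 16726136)) (b (l 16728440) (l 16722888))) (a (b (l 16725248) (a (c (l 16722328) (l 16718560)) (b (a (l 16722632) (l 16721760)) (l 16720400))))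 (c (b (c (a (l 16721696) (l 16719888)) (l 16716256)) (l 16717512)) (b (a (l 16718352) (b (l 16722744) (l 16721016))) (l 16724432))))) (a (a (c (l 529814799) (b (l 16735088) (l 530018431))) (c (l 529882895) (b (l 16732184) (l 530090511)))) (b (c (a (l 16727576) (a (b (l 16726048) (l 16719328)) (b (l 16724496) (l 16722824)))) (a (l 16726704) (a (b (l 16727880) (a (l 16726864) (l 16726080))) (b (c (l 16725912) (l 16721672)) (l 16724800))))) (c (a (a (c (l 16725016) (l 16720632)) (b (l 16719400) (l 16722936))) (c (l 16720568) (l 16721536))) (a (a (b (l 16727976) (c (l 16726040) (a (l 16727392) (l 16726616)))) (b (c (l 16726008) (a (l 16727376) (l 16726600))) (l 16724840))) (c (l 16722552) (a (l 16724472) (l 16722744))))))))))), by decide +kernel⟩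

def k50_A00pm_012_s1 : ∃ t, chk3 f_A00pm_012_s1 t 75 58 1 = true :=
  ⟨(a (c (b (l 530171263) (c (l 530002303) (l 530213247))) (b (l 530568975) (a (l 530413071) (l 530328079)))) (c (b (l 530260351) (c (l 530091391) (l 530305663))) (b (l 530464271) (c (l 531080463) (l 530601743))))), by decide +kernel⟩

def k51_A00pm_012_s1 : ∃ t, chk3 f_A00pm_012_s1 t 75 118 1 = true :=
  ⟨(c (a (a (b (l 16733616) (l 16728576)) (b (l 16730512) (c (l 16724704) (l 16726296)))) (a (b (l 16727456) (b (l 16718472) (c (l 16714776) (c (l 16721320) (l 16711752))))) (b (b (l 16725640) (l 16717960)) (b (c (l 16719536) (l 16716104)) (l 16727608))))) (b (a (c (l 530382463) (l 530385791)) (a (l 530315647) (a (l 530622335) (b (l 16728616) (l 16726344))))) (a (a (a (l 530137215) (l 530147599)) (a (l 530208527) (b (l 16729504) (l 16727048)))) (c (a (b (l 16726432) (c (l 16717968) (l 16718976))) (b (c (l 16722832) (l 16718632)) (l 16720248))) (a (b (l 16723216) (c (c (l 16719768) (l 16720312)) (a (l 16721944) (l 16725648)))) (b (a (l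 16721104) (l 16724784)) (l 16722584))))))), by decide +kernel⟩

def k52_A00pm_012_s1 : ∃ t, chk3 f_A00pm_012_s1 t 75 119 1 = true :=
  ⟨(a (c (b (a (c (b (l 16723824) (c (l 16709936) (l 16715952))) (b (l 16725384) (b (l 16718016) (l 16716440)))) (c (b (l 16715192) (l 16716960)) (b (c (l 16711208) (l 16717344)) (l 16718768)))) (c (a (b (l 16717264) (l 16713392)) (l 16711256)) (a (b (l 16719008) (l 16715264)) (l 16718496)))) (b (c (a (b (l 16727104) (a (b (l 16725840) (l 16724400)) (b (l 16724288) (l 16722656)))) (b (a (l 16719616) (l 16717976)) (l 16720760))) (a (b (c (l 16728504) (l 16729496)) (b (a (l 16727744) (c (l 16725768) (l 16726800))) (a (c (l 16725848) (l 16726864)) (l 16724704)))) (b (a (b (l 16727568) (l 16720952)) (c (l 16724768) (l 16720616))) (l 16722944)))) (c (a (c (l 16723864) (b (l 16721448) (l 16717872))) (c (l 16714888) (l 16716040))) (a (c (b (l 16722496) (l 16719000)) (b (l 16723600) (l 16720184))) (c (l 16717248) (l 16718512)))))) (c (b (c (a (l 16714768) (l 16710760)) (a (l 16716704)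 (l 16712888))) (c (a (l 16707224) (l 16703216)) (a (l 16709408) (l 16705608)))) (c (b (a (l 16718840) (l 16715232)) (c (l 16709376) (l 16710704))) (b (a (c (l 16720568) (l 16721792)) (c (l 16717136) (l 16718480))) (a (c (l 16713792) (l 16715176)) (l 16711128)))))), by decide +kernel⟩

def k53_A00pm_012_s1 : ∃ t, chk3 f_A00pm_012_s1 t 19 28 1 = true :=
  ⟨(a (b (a (c (l 529283455) (a (l 531040639) (l 531131775))) (a (l 529907727) (c (l 530584191) (l 531317119)))) (a (a (c (l 530179711) (b (l 530949759) (l 530888831))) (c (l 530270079) (l 530208127))) (a (c (l 530362751) (l 530572159)) (a (a (l 531187583) (l 531345935)) (b (l 531009407) (c (l 16724960) (l 16708080))))))) (b (a (a (c (l 530886271) (l 531419407)) (c (b (l 16736912) (l 16709312)) (b (l 16719136) (l 16713056)))) (a (c (b (l 16710952) (b (l 16726992) (a (l 16724816) (l 16722296)))) (b (l 16714576) (a (l 16709616) (b (l 16729896) (l 16716248))))) (b (c (c (l 16715728) (l 16717536)) (a (l 16711232) (l 16719528))) (c (b (a (l 16723320) (b (l 16721632)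 (l 16719584))) (a (b (l 16720544) (l 16718352)) (l 16716104))) (b (a (l 16727664) (l 16714672)) (a (c (l 16722848) (l 16725440)) (l 16721232))))))) (a (b (a (c (l 16707456) (l 16711312)) (a (c (l 16714056) (l 16718264)) (b (l 16715352) (c (a (l 16720720) (l 16719224)) (c (l 16723304) (l 16725848)))))) (b (a (a (l 16705224) (c (l 16721528) (l 16725976))) (c (a (a (l 16719384) (l 16717768)) (l 16715144)) (c (l 16709920) (l 16712624)))) (a (c (a (l 16720176) (l 16716968)) (a (l 16714216) (l 16711336))) (c (l 16711656) (c (l 16715696) (l 16718736)))))) (b (a (c (b (a (a (l 16721904) (l 16720512)) (a (l 16718992) (l 16717328))) (a (l 16716720) (l 16713240))) (b (a (l 16715208) (b (l 16724024) (l 16721952))) (a (l 16711208) (l 16718672)))) (c (b (c (l 16711808) (l 16714280)) (l 16708048)) (b (a (l 16720008) (l 16717024)) (a (l 16715656) (l 16712680))))) (a (b (c (l 16709872) (a (l 16717216) (l 16714176))) (c (l 16704608) (l 16700568))) (c (c (l 16698768) (l 16701960)) (a (l 16693144) (l 16705904)))))))), by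 decide +kernel⟩

def k54_A00pm_012_s1 : ∃ t, chk3 f_A00pm_012_s1 t 38 58 1 = true :=
  ⟨(a (c (b (a (l 530350975) (l 530444159)) (b (a (l 530304127) (a (l 16724648) (b (l 16722864) (l 16710080)))) (b (a (l 16725736) (a (l 16710800) (l 16717888))) (a (a (l 16724976) (l 16711496)) (a (c (l 16717672) (l 16719648)) (l 16714864)))))) (b (a (l 530829583) (l 530925695)) (b (a (l 530514815) (a (l 16728544) (c (l 16724752) (l 16727048)))) (a (a (l 530728831) (a (l 16727784) (b (l 16727488) (l 16725360)))) (c (a (a (l 16713376) (l 16711816)) (l 16719792)) (a (b (l 16726616) (l 16724224)) (l 16722328))))))) (b (c (a (b (l 16725904) (a (l 16723192) (l 16720192))) (b (a (l 16721712) (l 16718640)) (a (l 16716872) (l 16713240)))) (b (a (l 16729832) (c (l 16712904) (l 16715368))) (c (a (a (l 16726208) (l 16723416)) (l 16718688)) (a (a (l 16728464) (l 16725832)) (l 16721400))))) (a (c (b (a (b (l 16719824) (l 16717112)) (l 16714840)) (a (l 16712632) (l 16708904))) (b (a (c (l 16721728) (l 16724192)) (l 16719768)) (a (l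 16728208) (l 16714440)))) (c (b (l 16709312) (l 16703376)) (a (b (l 16716512) (l 16711200)) (b (l 16713296) (l 16708000))))))), by decide +kernel⟩

def k55_A00pm_012_s1 : ∃ t, chk3 f_A00pm_012_s1 t 38 59 1 = true :=
  ⟨(a (a (b (c (b (b (a (l 16717384) (c (l 16718368) (l 16720296))) (a (c (l 16718992) (l 16720856)) (l 16716136))) (c (l 16722464) (a (l 16716016) (l 16712264)))) (b (c (a (b (l 16725512) (l 16717680)) (b (l 16722416) (l 16719464))) (a (b (l 16727672) (a (l 16720744) (l 16724416))) (b (l 16724744) (l 16721952)))) (a (c (l 16718296) (c (l 16720144) (l 16721440))) (c (l 16714760) (l 16717488))))) (b (c (c (l 16704808) (l 16707232)) (c (c (l 16709216) (l 16710616)) (a (l 16714480) (l 16711200)))) (c (c (l 16697272) (l 16710456)) (c (l 16702944) (a (l 16707824) (l 16704568)))))) (b (b (c (c (l 16710928) (l 16713216)) (c (l 16718360) (a (l 16720120) (l 16716888)))) (c (c (l 16704152) (l 16706712)) (c (l 16709536) (l 16715248)))) (c (c (b (l 16696984) (l 16689464)) (a (l 16698072) (l 16694408)))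 (c (b (l 16702952) (l 16696016)) (b (l 16706368) (l 16699768)))))) (a (c (b (b (l 16707152) (l 16697896)) (c (l 16685576) (l 16688984))) (b (a (b (l 16712112) (l 16706088)) (b (l 16708840) (l 16702840))) (c (b (l 16696152) (l 16689248)) (b (l 16700080) (l 16693520))))) (c (b (c (l 16692296) (l 16695560)) (c (l 16678016) (l 16681864))) (c (b (l 16699152) (l 16686104)) (b (b (l 16705936) (l 16700136)) (b (l 16693960) (l 16687448))))))), by decide +kernel⟩

def k56_A00pm_012_s1 : ∃ t, chk3 f_A00pm_012_s1 t 39 29 1 = true :=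
  ⟨(b (a (b (c (a (b (l 16716024) (l 16707800)) (c (l 16702024) (l 16704952))) (a (b (c (l 16717240) (l 16720120)) (l 16703176)) (c (l 16708192) (l 16701248)))) (b (a (c (l 16702040) (l 16708544)) (c (l 16694888) (l 16702336))) (c (a (l 16696112) (l 16688968)) (a (l 16703272) (l 16697096))))) (a (b (c (c (l 16694776) (l 16698128)) (b (l 16706272) (l 16701352))) (c (l 16690184) (b (l 16696280) (l 16691064)))) (b (c (l 16694712) (b (l 16700304) (l 16695408))) (c (l 16678016) (b (l 16690360) (l 16685168)))))) (a (b (c (a (b (l 16689904) (l 16683288)) (l 16684752)) (a (c (l 16692608) (l 16697064)) (c (l 16686208) (l 16691208)))) (c (a (c (l 16670576) (l 16674880)) (l 16668200)) (a (c (l 16679624) (l 16684800)) (b (l 16679376) (l 16672752))))) (c (b (a (l 16672496) (l 16665592)) (a (l 16658592) (l 16651712))) (b (a (c (l 16679952) (l 16685512)) (c (l 16673824) (l 16679960))) (a (b (l 16673440) (l 16666856)) (b (l 16667640) (l 16661096))))))), by decide +kernel⟩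

def k57_A00pm_012_s1 : ∃ t, chk3 f_A00pm_012_s1 t 72 60 1 = true :=
  ⟨(a (b (c (a (b (l 529417855) (l 529100815)) (b (l 529138447) (l 529089551))) (a (b (l 529524351) (l 529472639)) (b (l 529517583) (l 529466127)))) (c (c (a (b (l 16741432) (l 16732856)) (b (l 528972927) (a (l 16732472) (b (l 16732008) (l 16723648))))) (a (b (l 16742176) (l 16736336)) (b (l 16738312) (b (l 16733920) (b (l 16731712) (l 16724896)))))) (a (b (l 529433615) (c (l 16737296) (l 16738360))) (b (b (l 16741152) (l 16738344)) (b (l 16735512) (a (l 16733584) (b (l 16732448) (l 16725672)))))))) (b (c (b (a (l 529146639) (c (l 16741480) (l 16742288))) (a (b (l 16738688) (l 16735792)) (b (l 16737552) (l 16732016)))) (a (b (l 529531151) (b (l 16743080) (l 16740312))) (b (b (l 16745024) (l 16742296)) (b (l 16739544) (l 16736752))))) (b (a (c (c (l 16730936) (l 529144703)) (b (l 16737512) (l 16734696))) (c (b (l 16729072) (b (l 16729480) (c (l 16722176) (l 16723264)))) (b (l 16733944) (a (l 16732000) (c (l 16724296) (l 16725640))))))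 (a (c (b (a (l 16730528) (c (l 16722784) (l 16723840))) (a (b (a (l 16728744) (l 16722448)) (l 16726352)) (b (l 16720744) (l 16723960)))) (b (a (l 16732760) (c (l 16725024) (l 16726320))) (a (b (l 16725288) (l 16728792)) (b (l 16723216) (l 16726576))))) (c (c (b (b (a (l 16726856) (l 16724712)) (a (l 16725072) (l 16722680))) (l 16720808)) (b (a (b (l 16727944) (l 16726208)) (b (l 16725864) (l 16723896))) (l 16722072))) (b (b (a (c (l 16729160) (l 16730496)) (a (l 16723120) (l 16727304))) (a (c (l 16727464) (l 16728848)) (l 16725968))) (c (l 16720856) (c (l 16724616) (l 16725424))))))))), by decide +kernel⟩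

def k58_A00pm_012_s1 : ∃ t, chk3 f_A00pm_012_s1 t 73 120 1 = true :=
  ⟨(a (c (a (b (l 529468943) (b (l 16731240) (l 16728312))) (b (b (l 16733456) (l 16730552)) (b (l 16727624) (c (l 16721464) (l 16722632))))) (c (a (b (l 16739688) (l 529425935)) (b (l 529535359) (a (l 529453951) (b (l 16731184) (l 16728312))))) (a (b (l 529708927) (l 529642255)) (b (l 529757199) (a (l 16732808) (b (l 16732560) (l 16724520))))))) (c (b (a (b (l 16729952) (l 16727024)) (b (l 16726528) (l 16723576))) (b (a (c (l 16726104) (l 16722072)) (c (a (b (l 16724200) (a (l 16723088) (l 16722104))) (b (l 16722344) (l 16720464))) (a (b (l 16725480) (a (l 16724384) (l 16723432))) (b (a (l 16724176) (l 16723240)) (l 16721864))))) (a (c (a (b (l 16724744) (a (l 16723624) (l 16722600))) (b (a (l 16723344) (l 16722336)) (l 16720912))) (a (b (l 16725976) (a (l 16724872) (l 16723880))) (b (a (l 16724616) (l 16723648)) (l 16722256)))) (c (l 16718560) (c (l 16719624) (l 16720384)))))) (b (a (c (l 529854591) (b (l 16735680) (l 16732920))) (c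 (l 529910799) (b (l 529895807) (l 529847567)))) (a (a (b (l 16727584) (c (b (l 16727336) (c (l 16725400) (l 16720896))) (b (l 16728840) (a (l 16727784) (l 16726864))))) (c (b (l 16727824) (b (c (l 16725176) (l 16720680)) (l 16723752))) (b (l 16729336) (b (a (l 16727584) (a (l 16726928) (l 16726456))) (l 16725392))))) (b (c (a (b (l 16726904) (c (l 16724968) (l 16720496))) (b (c (l 16724792) (l 16720328)) (l 16723408))) (a (a (c (l 16727720) (l 16723304)) (b (l 16728072) (a (l 16726768) (l 16726304)))) (b (a (l 16727264) (a (l 16726632) (l 16726184))) (l 16725112)))) (c (c (l 16721184) (l 16722024)) (c (l 16722904) (a (l 16724784) (l 16722864))))))))), by decide +kernel⟩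

def k59_A00pm_012_s1 : ∃ t, chk3 f_A00pm_012_s1 t 146 121 1 = true :=
  ⟨(b (a (a (c (b (l 16728896) (a (b (l 16727136) (l 16720248)) (b (l 16726160) (l 16724376)))) (b (l 16731312) (b (a (l 16729616) (l 16723472)) (c (l 16721592) (l 16723024))))) (c (b (c (l 16726464) (l 16727616)) (b (c (a (l 16724584) (l 16723472)) (l 16719968)) (l 16722640))) (b (c (l 16728888) (l 16725040)) (b (a (a (l 16728024) (l 16727536)) (l 16724136)) (l 16722800))))) (c (b (b (a (l 16720704) (a (c (l 16723928) (l 16725152)) (l 16718240))) (a (c (a (l 16724248) (l 16723168)) (l 16719672)) (l 16722072))) (c (l 16719552) (a (l 16722016) (l 16719784)))) (c (b (a (b (l 16727864) (a (l 16726776) (l 16725776))) (b (c (l 16725648) (l 16721128)) (l 16724176))) (c (l 16722008) (l 16722792))) (b (a (b (l 16729312) (c (l 16727360) (l 16722896))) (b (a (l 16728000) (l 16727064)) (l 16725760))) (b (l 16722328) (l 16720496)))))) (b (a (c (c (l 16720152) (c (l 16721112) (l 16721800))) (c (l 16720280) (c (l 16724080) (l 16724912)))) (c (c (l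 16715472) (c (l 16716560) (l 16717336))) (c (l 16715944) (c (l 16719896) (l 16720832))))) (c (c (a (l 16716056) (l 16711368)) (a (l 16717480) (l 16712952))) (c (a (l 16716440) (c (l 16714264) (l 16715184))) (a (c (l 16720344) (l 16721256)) (c (l 16716152) (l 16717168))))))), by decide +kernel⟩

def k60_A00pm_012_s1 : ∃ t, chk3 f_A00pm_012_s1 t 147 121 1 = true :=
  ⟨(c (b (c (a (b (l 16719016) (l 16714960)) (b (l 16714512) (l 16710424))) (a (c (b (l 16720048) (l 16716072)) (b (l 16720784) (l 16716872))) (b (l 16718696) (l 16714736)))) (c (a (b (l 16710864) (l 16706736)) (b (l 16706312) (l 16702168))) (a (b (l 16712496) (l 16708496)) (b (l 16708120) (l 16704104))))) (b (c (a (b (c (l 16721552) (l 16722368)) (c (l 16717712) (l 16718592))) (c (b (l 16717360) (l 16713496)) (b (l 16718264) (l 16714472)))) (c (a (b (l 16723216) (l 16719512)) (b (l 16719216) (l 16715504))) (a (b (l 16724104) (l 16720480)) (b (l 16720216) (l 16716576))))) (c (a (c (b (l 16713840) (l 16709944)) (b (l 16714792) (l 16710968))) (c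 (b (l 16709608) (l 16705696)) (b (l 16710656) (l 16706816)))) (a (b (c (l 16715792) (l 16716832)) (c (l 16712032) (l 16713152))) (b (c (l 16711760) (l 16712912)) (c (l 16708000) (l 16709224))))))), by decide +kernel⟩

def k61_A00pm_012_s1 : ∃ t, chk3 f_A00pm_012_s1 t 72 122 1 = true :=
  ⟨(a (b (a (c (b (a (l 16727144) (b (l 16731160) (b (l 16719472) (l 16729040)))) (a (c (l 16723200) (l 16718960)) (l 16721240))) (b (a (l 16723968) (b (l 16733296) (l 16721216))) (a (l 16725920) (l 16728888)))) (c (b (a (b (b (l 16719024) (l 16718136)) (l 16727112)) (l 16720464)) (a (l 16718808) (l 16716392))) (b (a (b (l 16720816) (l 16729480)) (l 16722936)) (c (l 16724776) (l 16726232))))) (c (c (a (b (l 16723040) (l 16718848)) (b (l 16718096) (l 16713912))) (a (b (l 16724200) (l 16720128)) (b (l 16719408) (l 16715344)))) (c (a (l 16723520) (b (l 16720864) (l 16716936))) (a (l 16725008) (l 16720576))))) (c (b (c (a (b (l 16721512) (l 16717376)) (b (l 16716696) (l 16712552))) (a (b (l 16722744) (l 16718728)) (b (l 16718080)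 (l 16714056)))) (c (a (b (l 16713216) (l 16709024)) (b (l 16708384) (l 16704184))) (a (b (l 16714680) (l 16710616)) (b (l 16710008) (l 16705944))))) (a (b (c (c (l 16719168) (l 16722536)) (a (l 16724816) (l 16722648))) (c (b (l 16716312) (l 16712376)) (c (l 16715720) (l 16716696)))) (b (c (c (l 16714632) (l 16715472)) (c (l 16718976) (l 16719896))) (c (b (l 16711816) (l 16707888)) (c (l 16706136) (l 16707208))))))), by decide +kernel⟩

def k62_A00pm_012_s1 : ∃ t, chk3 f_A00pm_012_s1 t 72 123 1 = true :=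
  ⟨(c (b (b (a (c (c (l 16706568) (l 16707272)) (a (l 16716040) (l 16711256))) (a (c (l 16704808) (l 16706528)) (c (l 16699976) (l 16701856)))) (a (c (c (l 16702312) (l 16703072)) (a (l 16711920) (l 16707152))) (a (c (l 16700584) (l 16702424)) (c (l 16695744) (l 16697760))))) (a (c (b (a (l 16706160) (l 16701232)) (a (l 16701912) (l 16696992))) (a (b (l 16707800) (l 16703664)) (b (l 16703032) (l 16698904)))) (c (b (a (l 16696352) (l 16691520)) (a (l 16692120) (l 16687296))) (b (a (l 16698320) (l 16693656)) (a (l 16694200) (l 16689544)))))) (a (a (b (c (l 16715600) (l 16717384)) (c (l 16702360) (l 16709664))) (b (c (b (l 16712984) (l 16709008)) (l 16712960)) (c (l 16697776) (l 16700032)))) (b (c (a (b (l 16708432) (l 16704464)) (b (l 16703944) (l 16699984))) (b (c (l 16702560) (l 16703696)) (c (l 16698712) (l 16694688)))) (c (a (b (l 16700488) (l 16696504)) (b (l 16696016) (l 16692040))) (a (b (l 16702872) (l 16699024)) (b (l 16698600) (l 16694768))))))), by decide +kernel⟩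

def k63_A00pm_012_s1 : ∃ t, chk3 f_A00pm_012_s1 t 73 61 2 = true :=
  ⟨(b (a (a (b (c (b (l 16711936) (l 16707776)) (b (l 16713480) (l 16709448))) (b (c (l 16703600) (l 16705400)) (c (l 16699400) (l 16701328)))) (b (c (b (l 16707232) (l 16703064)) (b (l 16708944) (l 16704904))) (c (b (l 16698880) (l 16694672)) (b (l 16700848) (l 16696776))))) (a (b (c (b (l 16702584) (l 16698408)) (b (l 16704472) (l 16700424))) (c (b (l 16694216) (l 16690000)) (b (l 16696360) (l 16692280)))) (b (c (b (l 16698000) (l 16693808)) (b (l 16700064) (l 16696008))) (c (b (l 16689608) (l 16685384)) (b (l 16691928) (l 16687848)))))) (b (b (a (c (a (c (l 16694704) (l 16695680)) (c (l 16689936) (l 16690992))) (a (l 16697240) (c (l 16692104) (l 16693280)))) (c (a (c (l 16685208) (l 16686352)) (c (l 16680536) (l 16681768))) (a (c (l 16687560) (l 16688832)) (c (l 16683072) (l 16684440))))) (a (a (c (c (l 16690448) (l 16691488)) (l 16693144)) (c (c (l 16685672) (l 16686792)) (c (l 16687976) (l 16689216)))) (c (a (c (l 16680944) (l 16682152))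 (c (l 16676272) (l 16677568))) (a (c (l 16683424) (l 16684768)) (c (l 16678936) (l 16680376)))))) (a (c (b (a (c (l 16686200) (l 16687288)) (c (l 16681416) (l 16682600))) (a (c (l 16681944) (l 16683096)) (c (l 16677168) (l 16678408)))) (b (a (l 16689048) (c (l 16683840) (l 16685152))) (a (l 16684944) (l 16680392)))) (c (a (b (c (l 16676688) (l 16677960)) (c (l 16672440) (l 16673768))) (b (c (l 16672008) (l 16673368)) (c (l 16667760) (l 16669176)))) (a (b (c (l 16679296) (l 16680704)) (c (l 16675168) (l 16676640))) (b (c (l 16674800) (l 16676312)) (c (l 16670672) (l 16672248)))))))), by decide +kernel⟩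

def k64_A00pm_012_s1 : ∃ t, chk3 f_A00pm_012_s1 t 73 61 3 = true :=
  ⟨(b (c (b (a (a (c (l 16710160) (l 16711096)) (b (c (l 16710352) (l 16711344)) (l 16701696))) (a (b (c (l 16706016) (l 16707112)) (c (l 16702080) (l 16703248))) (b (c (l 16701760) (l 16702960)) (c (l 16697808) (l 16699080))))) (a (a (b (l 16707384) (l 16703456)) (b (l 16703024) (l 16699096))) (a (c (b (l 16698120) (l 16694144)) (b (l 16699360) (l 16695464))) (c (b (l 16693840) (l 16689864)) (b (l 16695192) (l 16691288)))))) (b (a (c (a (l 16712072) (b (l 16712384) (l 16708600))) (a (l 16715720) (b (l 16713480) (l 16709768)))) (a (b (l 16706232) (c (l 16704472) (l 16705752))) (c (b (l 16704216) (l 16700416)) (b (l 16705520) (l 16701800))))) (a (a (b (l 16709568) (l 16705792)) (b (c (l 16704800) (l 16706048)) (l 16696400))) (a (b (c (l 16700664) (l 16702024)) (c (l 16696848) (l 16698288))) (b (c (l 16696600) (l 16698072)) (c (l 16692776) (l 16694336))))))) (b (a (c (a (c (l 16691688) (l 16692912)) (b (c (l 16694512) (l 16695808)) (c (l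 16690528) (l 16691896)))) (a (b (l 16696768) (l 16698208)) (b (l 16692616) (l 16688816)))) (c (a (b (c (l 16690160) (l 16691560)) (c (l 16686176) (l 16687648))) (b (c (l 16685872) (l 16687384)) (c (l 16681888) (l 16683464)))) (a (b (c (l 16693024) (l 16694544)) (l 16684744)) (c (b (l 16688952) (l 16685120)) (b (l 16690592) (l 16686848)))))) (a (a (c (b (l 16691600) (l 16687632)) (c (l 16686496) (l 16687992))) (c (b (l 16687240) (l 16683280)) (b (l 16685008) (l 16686440)))) (c (b (a (c (l 16682184) (l 16683728)) (c (l 16677896) (l 16679552))) (a (c (l 16678184) (l 16679808)) (c (l 16673904) (l 16675632)))) (b (a (l 16680936) (c (l 16681280) (l 16683088))) (c (a (l 16681496) (l 16677440)) (a (l 16683264) (l 16679328)))))))), by decide +kernel⟩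

def k65_A00pm_012_s1 : ∃ t, chk3 f_A00pm_012_s1 t 74 120 2 = true :=
  ⟨(b (a (a (b (l 16723176) (c (a (b (l 16723752) (l 16722136)) (b (l 16721960) (l 16720104))) (a (b (l 16725088) (a (l 16723984) (l 16723072))) (b (a (l 16723824) (l 16722928)) (l 16721552))))) (b (b (a (l 16724088) (a (l 16722848) (l 16716720))) (c (a (l 16721800) (l 16719840)) (a (l 16723232) (l 16721344)))) (c (l 16712648) (c (l 16719040) (l 16719856))))) (c (a (b (l 16717704) (l 16713672)) (b (l 16713552) (l 16709520))) (a (b (c (l 16718896) (l 16719744)) (l 16715408)) (b (l 16715352) (l 16711448))))) (a (c (a (b (l 16723424) (l 16714136)) (b (l 16713856) (l 16709792))) (a (b (c (l 16719288) (l 16720080)) (l 16721000)) (b (l 16715536) (l 16711584)))) (c (a (b (l 16709608) (l 16705512)) (l 16698136)) (a (b (l 16711464) (l 16707496)) (b (l 16707480) (l 16703480)))))), by decide +kernel⟩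

def k66_A00pm_012_s1 : ∃ t, chk3 f_A00pm_012_s1 t 74 120 3 = true :=
  ⟨(b (a (a (b (c (l 16727944) (l 529961231)) (c (a (b (l 16726568) (c (l 16724632) (l 16720192))) (b (c (l 16724504) (l 16725320)) (l 16723160))) (a (b (l 16728192) (a (l 16727136) (a (l 16726520) (l 16726080)))) (b (a (l 16727040) (a (l 16726440) (l 16726008))) (l 16724920))))) (b (b (a (l 16727176) (c (c (l 16724328) (l 16725176)) (c (l 16720824) (a (l 16727400) (l 16726616))))) (c (a (c (l 16724408) (l 16725232)) (l 16723008)) (a (a (l 16726976) (a (l 16726384) (l 16725960))) (l 16724840)))) (c (a (l 16724760) (l 16720192)) (c (a (l 16723496) (l 16721640)) (a (l 16724448) (l 16722648)))))) (c (a (c (b (l 16720640) (l 16716832)) (b (l 16721576) (l 16717840))) (b (l 16722584) (l 16718816))) (a (b (c (a (l 16723456) (l 16721648)) (a (l 16724448) (l 16722696))) (c (l 16718896) (l 16717376))) (c (b (l 16718968) (l 16715304)) (b (l 16720104) (l 16716520)))))) (a (c (a (c (b (l 16720904) (l 16717088)) (b (l 16721776) (l 16718024))) (c (b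 (l 16716904) (l 16713064)) (b (l 16717880) (l 16714104)))) (a (c (b (a (l 16723640) (l 16721728)) (l 16719008)) (b (a (l 16724568) (l 16722704)) (l 16717416))) (c (b (l 16718896) (l 16715200)) (b (a (l 16720872) (l 16719056)) (l 16716336))))) (b (c (a (c (l 16712992) (l 16714072)) (l 16709752)) (a (c (l 16715200) (l 16716376)) (c (l 16711592) (l 16712888)))) (c (a (l 16714936) (l 16705880)) (a (c (l 16711472) (l 16712728)) (c (l 16707840) (l 16709216))))))), by decide +kernel⟩

def k67_A00pm_012_s1 : ∃ t, chk3 f_A00pm_012_s1 t 75 120 1 = true :=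
  ⟨(c (a (b (c (b (l 16717896) (l 16713872)) (a (b (l 16711440) (l 16707536)) (l 16705624))) (c (b (l 16709768) (l 16705616)) (a (b (l 16703568) (l 16699544)) (l 16697688)))) (b (c (a (l 16699344) (l 16695344)) (a (l 16701792) (l 16698000))) (c (a (l 16691168) (l 16687176)) (a (l 16693880) (l 16690096))))) (a (c (b (c (a (l 16711176) (l 16707464)) (a (l 16712368) (l 16708768))) (a (b (l 16706048) (l 16702160)) (b (l 16702408) (l 16698512)))) (b (a (c (b (l 16715432) (l 16711784)) (l 16714912)) (b (l 16712624) (l 16709024))) (a (c (l 16703560) (b (l 16709480) (l 16705792))) (c (l 16702704) (l 16701672))))) (a (b (c (l 16709744) (c (l 16706696) (l 16708240))) (c (l 16696872) (c (l 16699304) (l 16701016)))) (b (c (l 16700928) (l 16704128)) (c (l 16693320) (c (l 16695936) (l 16697776))))))), by decide +kernel⟩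

def k68_A00pm_012_s1 : ∃ t, chk3 f_A00pm_012_s1 t 74 121 1 = true :=
  ⟨(c (a (b (c (a (b (l 16710064) (l 16705960)) (b (l 16705688) (l 16701560))) (a (b (l 16711808) (l 16707824)) (b (l 16707616) (l 16703608)))) (c (a (b (l 16701824) (l 16697664)) (b (l 16697400) (l 16693224))) (a (b (l 16703816) (l 16699784)) (b (l 16699576) (l 16695528))))) (b (c (a (b (l 16701384) (l 16697232)) (b (l 16697144) (l 16692968))) (a (b (l 16703496) (l 16699464)) (b (l 16699448) (l 16695400)))) (c (a (b (l 16693048) (l 16688848)) (b (l 16688760) (l 16684536))) (c (a (l 16692744) (l 16688592)) (a (l 16694024) (l 16689976)))))) (a (c (b (c (a (b (l 16713232) (l 16709352)) (b (l 16709192) (l 16705288))) (a (b (l 16714248) (l 16710440)) (b (l 16710304) (l 16706480)))) (a (b (c (l 16705448) (l 16706600)) (c (l 16701520) (l 16702752))) (b (c (l 16701360) (l 16702624)) (c (l 16697416) (l 16698752))))) (b (a (b (c (l 16715304) (l 16716408)) (c (l 16711568) (l 16712752))) (c (b (l 16711472) (l 16707720)) (b (l 16712688) (l 16709016))))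 (a (c (b (l 16707816) (l 16704032)) (b (l 16709072) (l 16705376))) (c (b (l 16703944) (l 16700152)) (b (l 16705328) (l 16701616)))))) (c (b (a (b (l 16711072) (l 16701936)) (b (l 16701992) (l 16698088))) (a (b (l 16698032) (l 16694104)) (c (l 16691424) (l 16687704)))) (b (a (c (b (l 16707728) (l 16703952)) (b (l 16709064) (l 16705368))) (c (l 16699544) (b (l 16705520) (l 16701808)))) (a (b (c (l 16700160) (l 16701656)) (c (l 16696352) (l 16697928))) (c (b (l 16696456) (l 16692624)) (b (l 16698072) (l 16694328)))))))), by decide +kernel⟩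

def k69_A00pm_012_s1 : ∃ t, chk3 f_A00pm_012_s1 t 75 121 1 = true :=
  ⟨(c (a (a (b (c (l 16690880) (l 16688200)) (c (l 16682416) (b (l 16687304) (l 16683184)))) (b (c (l 16686784) (l 16689552)) (c (l 16678248) (b (l 16683360) (l 16679216))))) (c (b (a (l 16682728) (l 16678744)) (a (l 16674152) (l 16670144))) (b (a (l 16685712) (l 16681936)) (a (l 16677400) (l 16673608))))) (a (b (c (a (c (l 16695544) (l 16697024)) (c (l 16691816) (l 16693416))) (a (c (l 16701200) (l 16697576)) (c (l 16695088) (l 16694216)))) (c (a (c (l 16687560) (l 16689200)) (c (l 16683768) (l 16685528))) (a (c (l 16685664) (b (l 16694576) (l 16690816))) (b (l 16690224) (l 16681152))))) (a (b (c (l 16683752) (c (l 16691664) (l 16693536))) (c (l 16675744) (a (l 16680504) (l 16678824)))) (b (c (l 16685456) (c (l 16688312) (l 16690320))) (c (b (l 16679440) (l 16675392)) (c (l 16680528) (l 16682704))))))), by decide +kernel⟩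

def k70_A00pm_012_s1 : ∃ t, chk3 f_A00pm_012_s1 t 74 122 1 = true :=
  ⟨(c (a (a (b (c (b (l 16693480) (l 16689272)) (b (l 16695728) (l 16691656))) (c (b (l 16685056) (l 16680824)) (b (l 16687568) (l 16683472)))) (c (b (b (l 16689016) (l 16684800)) (b (l 16680560) (l 16676320))) (b (b (l 16691456) (l 16687368)) (b (l 16683272) (l 16679160))))) (b (a (c (b (l 16684624) (l 16680384)) (b (l 16687256) (l 16683152))) (c (b (l 16680288) (l 16676032)) (b (l 16683120) (l 16679000)))) (c (a (b (l 16676136) (l 16671872)) (b (l 16671760) (l 16667488))) (a (b (l 16679040) (l 16674920)) (b (l 16674872) (l 16670736)))))) (c (a (b (a (a (b (l 16699240) (l 16695320)) (b (l 16697192) (l 16693264))) (c (b (l 16693456) (l 16689480)) (b (l 16694864) (l 16690968)))) (a (b (c (l 16689632) (l 16691088)) (c (l 16685648) (l 16687176))) (b (c (l 16685488) (l 16687056)) (c (l 16681496) (l 16683144))))) (b (a (b (l 16695408) (c (l 16685416) (l 16687016))) (b (l 16686248) (l 16682280))) (c (b (a (l 16681416) (l 16677416)) (a (l 16677408)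 (l 16673400))) (a (b (l 16683096) (l 16679168)) (b (l 16679208) (l 16675272)))))) (a (b (a (b (c (l 16700240) (l 16701664)) (c (l 16696432) (l 16697936))) (b (c (l 16696344) (l 16697888)) (c (l 16692520) (l 16694152)))) (a (b (c (l 16692608) (l 16694200)) (c (l 16688784) (l 16690456))) (c (b (l 16688696) (l 16684864)) (b (l 16690408) (l 16686656))))) (b (a (c (b (l 16692528) (l 16688696)) (b (l 16694192) (l 16690440))) (c (b (l 16688784) (l 16684944)) (b (l 16690576) (l 16686816)))) (a (c (b (l 16684856) (l 16681016)) (b (l 16686688) (l 16682936))) (c (b (l 16681088) (l 16677240)) (b (l 16683048) (l 16679280)))))))), by decide +kernel⟩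

def k71_A00pm_012_s1 : ∃ t, chk3 f_A00pm_012_s1 t 75 122 1 = true :=
  ⟨(c (a (c (b (a (b (l 16676024) (l 16671744)) (l 16669672)) (a (b (l 16667456) (l 16663160)) (b (l 16663216) (l 16658904)))) (b (a (b (l 16679056) (l 16674920)) (b (l 16675064) (l 16670904))) (a (c (l 16667816) (l 16669592)) (b (l 16666736) (l 16662576))))) (c (b (a (l 16665520) (l 16661440)) (a (l 16656864) (l 16652736))) (b (a (l 16674296) (l 16665192)) (a (b (l 16662776) (l 16658592)) (b (l 16658880) (l 16654680)))))) (a (c (b (a (b (l 16682408) (l 16678424)) (b (l 16678640) (l 16674640))) (a (b (l 16674432) (l 16675680)) (b (l 16670632) (l 16666624)))) (b (a (c (b (l 16685128) (l 16681264)) (b (l 16687040) (l 16683264))) (c (b (l 16681552) (l 16677664)) (b (l 16683592) (l 16679800)))) (a (c (b (l 16677400) (l 16673536)) (b (l 16679488) (l 16675712))) (c (b (l 16673784) (l 16669912)) (b (l 16676008) (l 16672216)))))) (b (c (a (b (l 16674960) (l 16670928)) (b (l 16671344) (l 16667296))) (a (c (l 16676096) (l 16673072)) (a (l 16669424)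 (l 16667760)))) (c (a (b (l 16666904) (l 16662880)) (c (l 16660072) (l 16662400))) (a (c (b (l 16670248) (l 16666360)) (b (l 16672600) (l 16668800))) (c (l 16664832) (b (l 16669280) (l 16665464)))))))), by decide +kernel⟩

def k72_A00pm_012_s1 : ∃ t, chk3 f_A00pm_012_s1 t 37 123 2 = true :=
  ⟨(a (a (b (c (a (b (l 16676576) (l 16672328)) (b (l 16672064) (l 16667808))) (a (b (c (l 16678640) (l 16680112)) (c (l 16674504) (l 16676040))) (b (c (l 16674272) (l 16675848)) (c (l 16670128) (l 16671768))))) (a (c (b (c (l 16667376) (l 16668832)) (c (l 16663120) (l 16664640))) (b (c (l 16670360) (l 16671976)) (c (l 16666232) (l 16667912)))) (c (b (l 16663568) (l 16659336)) (b (c (l 16665984) (l 16667696)) (c (l 16661848) (l 16663632)))))) (b (c (a (b (l 16667608) (l 16663344)) (b (l 16663208) (l 16658928))) (a (b (c (l 16669968) (l 16671640)) (c (l 16665808) (l 16667560))) (b (l 16666600) (l 16667712)))) (c (a (b (l 16659088) (l 16654856)) (b (l 16654672) (l 16650424))) (a (b (c (l 16661656) (l 16663480)) (l 16661080))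 (b (l 16663592) (l 16659488)))))) (a (a (c (b (b (l 16658864) (l 16654576)) (b (l 16650304) (l 16646056))) (b (b (l 16662472) (l 16658328)) (b (l 16654200) (l 16650088)))) (c (b (b (l 16654584) (l 16650288)) (b (l 16646000) (l 16641736))) (b (b (l 16658408) (l 16654256)) (b (l 16650112) (l 16645984))))) (c (b (b (a (l 16650368) (l 16646216)) (a (l 16646048) (l 16641872))) (b (a (l 16641752) (l 16637560)) (a (l 16637472) (l 16633272)))) (b (a (b (l 16654408) (l 16650240)) (b (l 16650480) (l 16646296))) (b (a (l 16646088) (l 16642128)) (a (l 16641952) (l 16637976))))))), by decide +kernel⟩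

def k73_A00pm_012_s1 : ∃ t, chk3 f_A00pm_012_s1 t 74 123 3 = true :=
  ⟨(c (b (a (c (a (b (l 16681656) (l 16677656)) (b (l 16677496) (l 16673496))) (a (b (l 16683264) (l 16679352)) (b (l 16679224) (l 16675304)))) (a (b (c (l 16673400) (l 16675248)) (c (l 16669400) (l 16671320))) (b (c (l 16669376) (l 16671336)) (c (l 16665368) (l 16667408))))) (a (a (b (c (l 16673664) (l 16675432)) (c (l 16669672) (l 16671520))) (b (c (l 16669496) (l 16671384)) (c (l 16665512) (l 16667464)))) (a (b (c (l 16665392) (l 16667400)) (c (l 16661400) (l 16663480))) (b (c (l 16661360) (l 16663480)) (c (l 16657360) (l 16659560)))))) (b (a (a (b (c (l 16684952) (l 16686720)) (c (l 16681120) (l 16682968))) (c (b (l 16681032) (l 16677192)) (b (l 16682912) (l 16679160)))) (a (a (b (l 16679104) (l 16675312)) (b (l 16677224) (l 16673432))) (b (c (l 16673384) (l 16675520)) (c (l 16669544) (l 16671768))))) (a (a (b (c (l 16677280) (l 16679208)) (c (l 16673448) (l 16675456))) (b (c (l 16673352) (l 16675408)) (c (l 16669512) (l 16671648))))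 (a (b (c (l 16669488) (l 16671672)) (c (l 16665648) (l 16667912))) (b (c (l 16665696) (l 16668000)) (c (l 16661856) (l 16664248))))))), by decide +kernel⟩

def k74_A00pm_012_s1 : ∃ t, chk3 f_A00pm_012_s1 t 75 123 3 = true :=
  ⟨(c (c (a (b (b (a (l 16665424) (l 16661536)) (a (l 16661400) (l 16657496))) (b (a (l 16657384) (l 16653472)) (a (l 16653376) (l 16649456)))) (b (a (l 16655680) (l 16651928)) (b (l 16652968) (l 16648944)))) (b (a (b (a (l 16667504) (l 16663736)) (a (l 16663560) (l 16659784))) (a (b (l 16660040) (l 16656080)) (b (l 16656416) (l 16652440)))) (a (b (a (l 16659624) (l 16655840)) (a (l 16655696) (l 16651904))) (a (b (l 16652120) (l 16648184)) (b (l 16648472) (l 16644520)))))) (a (b (a (c (b (l 16669672) (l 16665824)) (b (l 16671944) (l 16668176))) (c (b (l 16666040) (l 16662176)) (b (l 16668440) (l 16664664)))) (c (b (a (l 16661968) (l 16658312)) (a (l 16658128) (l 16654464))) (a (b (l 16664408) (l 16660648)) (b (l 16660888) (l 16657128))))) (b (c (b (a (l 16662472) (l 16658984)) (a (l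 16658600) (l 16655096))) (a (b (l 16665008) (l 16661224)) (b (l 16661656) (l 16657864)))) (c (b (a (l 16654728) (l 16651216)) (a (l 16650872) (l 16647352))) (b (a (l 16657440) (l 16654072)) (a (l 16653672) (l 16650296))))))), by decide +kernel⟩

def k75_A00pm_012_s1 : ∃ t, chk3 f_A00pm_012_s1 t 72 62 1 = true :=
  ⟨(b (c (b (a (a (c (c (l 16695072) (l 16695984)) (l 16692200)) (c (c (l 16690136) (l 16691120)) (l 16687464))) (c (b (a (l 16687888) (l 16683064)) (a (l 16683656) (l 16678848))) (b (a (l 16690080) (l 16685440)) (a (l 16685968) (l 16681328))))) (a (c (b (a (l 16689144) (l 16684264)) (a (l 16684888) (l 16680024))) (b (a (l 16691224) (l 16686512)) (l 16674240))) (c (b (a (l 16679424) (l 16674624)) (a (l 16675200) (l 16670416))) (b (a (l 16681848) (l 16677232)) (a (l 16677744) (l 16673144)))))) (a (b (c (a (l 16699560) (l 16689768)) (b (l 16691160) (l 16687280))) (c (b (l 16680768) (l 16687248)) (a (l 16694096) (l 16689784)))) (b (c (b (a (l 16692512) (l 16688056)) (l 16681048)) (a (l 16687992) (l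 16683760))) (c (b (l 16677072) (l 16667856)) (b (l 16674864) (l 16671040)))))) (c (b (a (a (b (l 16671264) (l 16667080)) (b (a (l 16678184) (l 16675816)) (l 16662344))) (c (b (a (l 16670984) (l 16666216)) (a (l 16666776) (l 16662024))) (b (l 16660864) (l 16656792)))) (a (a (b (l 16662896) (l 16669216)) (c (l 16665232) (l 16668032))) (c (a (l 16660480) (c (l 16655008) (l 16656520))) (b (l 16652744) (l 16659200))))) (b (a (c (b (l 16683248) (l 16679264)) (l 16684216)) (c (b (l 16663904) (l 16670456)) (b (l 16677720) (l 16673936)))) (a (c (l 16662840) (l 16655624)) (c (b (l 16666552) (l 16662680)) (l 16657840)))))), by decide +kernel⟩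

def k76_A00pm_012_s1 : ∃ t, chk3 f_A00pm_012_s1 t 73 124 1 = true :=
  ⟨(c (b (b (c (a (a (l 16678288) (c (l 16672920) (l 16674216))) (a (c (l 16668192) (l 16669584)) (c (l 16663512) (l 16664992)))) (a (a (l 16680840) (l 16676296)) (a (l 16671808) (c (l 16666552) (l 16668192))))) (a (a (c (l 16674080) (l 16676744)) (c (l 16669352) (l 16672208))) (c (a (l 16664672) (c (l 16659280) (l 16660824))) (a (l 16667728) (l 16663288))))) (b (a (c (a (l 16669872) (l 16665152)) (a (l 16672656) (l 16668136))) (c (a (l 16660480) (l 16655856)) (a (l 16663656) (l 16659232)))) (a (c (a (l 16665672) (l 16660968)) (a (l 16668584) (l 16664072))) (c (a (l 16656304) (l 16651680)) (a (l 16659608) (l 16655184)))))) (b (a (c (b (a (l 16683656) (l 16679320)) (a (l 16679696) (l 16675360))) (b (c (l 16678608) (l 16675032)) (a (l 16682920) (l 16678816)))) (c (b (a (l 16675032) (c (l 16669920) (l 16671720))) (a (l 16671088) (l 16666872))) (b (c (a (l 16677656) (l 16673600)) (l 16672280)) (a (l 16674768) (c (l 16669776) (l 16671816))))))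 (a (c (b (a (l 16675736) (l 16671424)) (b (l 16660136) (l 16658176))) (b (a (l 16679104) (l 16675016)) (l 16668024))) (a (c (b (l 16667160) (l 16663248)) (b (l 16670984) (l 16667224))) (b (c (l 16662952) (l 16667008)) (c (l 16659048) (l 16663264))))))), by decide +kernel⟩

def k77_A00pm_012_s1 : ∃ t, chk3 f_A00pm_012_s1 t 73 125 1 = true :=
  ⟨(c (b (a (c (a (c (l 16658664) (l 16660136)) (c (l 16653928) (l 16655496))) (c (a (l 16661688) (l 16657152)) (b (l 16663104) (l 16659104)))) (c (a (c (l 16649240) (l 16650904)) (c (l 16644584) (l 16646344))) (b (a (l 16655576) (l 16651168)) (a (l 16651560) (l 16647168))))) (a (a (c (c (l 16650280) (l 16651888)) (l 16654456)) (c (c (l 16645576) (l 16647280)) (b (l 16652000) (l 16648032)))) (c (a (c (l 16640912) (l 16642720)) (b (l 16639280) (l 16635192))) (a (b (l 16647584) (l 16643632)) (b (l 16643208) (l 16639272)))))) (b (a (c (b (a (l 16667872) (l 16663592)) (l 16651352)) (b (l 16659016) (l 16655288))) (a (c (b (l 16659352) (l 16655496)) (b (l 16663488) (l 16659784)))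 (c (b (l 16655168) (l 16651328)) (b (l 16659544) (l 16655864))))) (a (c (b (l 16647496) (l 16654160)) (b (l 16662080) (l 16658432))) (c (b (l 16639104) (l 16635328)) (b (l 16643688) (l 16640096)))))), by decide +kernel⟩

def k78_A00pm_012_s1 : ∃ t, chk3 f_A00pm_012_s1 t 36 63 1 = true :=
  ⟨(b (a (c (b (a (c (b (l 16661304) (l 16657104)) (l 16651720)) (c (a (l 16652136) (l 16647464)) (b (l 16655192) (l 16651224)))) (a (c (a (l 16653168) (l 16648512)) (l 16643712)) (c (a (l 16643872) (l 16639256)) (l 16634840)))) (b (a (b (l 16648216) (l 16644448)) (c (l 16646456) (l 16640040))) (a (b (l 16640720) (l 16637064)) (b (l 16632480) (l 16628904))))) (c (c (b (a (a (l 16642824) (l 16643464)) (a (b (l 16635680) (l 16631624)) (b (l 16631128) (l 16627088)))) (a (a (l 16634672) (l 16630120)) (a (l 16625592) (l 16621088)))) (b (a (a (l 16646528) (l 16642128)) (a (l 16637768) (l 16633440))) (b (a (l 16638504) (l 16629848)) (a (l 16634672) (l 16626080))))) (c (b (a (b (l 16650384) (l 16646656)) (b (l 16642088) (l 16638416)))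 (a (l 16630672) (l 16622528))) (b (a (l 16642576) (b (l 16647048) (l 16643576))) (a (l 16646144) (l 16628024)))))) (c (b (a (c (a (c (l 16641664) (l 16643464)) (a (l 16635704) (l 16631152))) (a (l 16646328) (l 16637624))) (a (c (a (l 16626632) (l 16622136)) (l 16629008)) (b (c (l 16617408) (l 16622360)) (c (l 16613496) (l 16618696))))) (a (a (a (l 16638640) (l 16613280)) (a (l 16614152) (l 16609800))) (a (c (b (l 16618472) (l 16614576)) (l 16621672)) (b (c (l 16609624) (l 16615096)) (l 16592888))))) (b (a (c (b (l 16627160) (l 16623568)) (b (l 16631768) (l 16607464))) (a (b (l 16617472) (l 16614136)) (b (l 16620168) (l 16606424)))) (a (c (b (l 16620040) (l 16595624)) (l 16623624)) (a (b (l 16631856) (l 16607736)) (b (l 16603256) (l 16600200))))))), by decide +kernel⟩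

def k79_A00pm_012_s1 : ∃ t, chk3 f_A00pm_012_s1 t 74 62 2 = true :=
  ⟨(b (a (b (a (c (b (l 16659656) (l 16655456)) (b (c (l 16662120) (l 16663864)) (l 16658904))) (c (b (l 16655120) (l 16650920)) (b (l 16658648) (l 16654576)))) (b (c (a (l 16651272) (l 16646736)) (a (l 16654848) (l 16650528))) (c (a (l 16647104) (l 16642576)) (a (l 16650816) (l 16646496))))) (b (c (a (b (l 16650632) (l 16646432)) (b (l 16646200) (l 16641992))) (a (b (l 16654368) (l 16650296)) (b (l 16650152) (l 16646080)))) (c (a (b (l 16642248) (l 16638088)) (b (l 16637808) (l 16633648))) (a (b (l 16646248) (l 16642224)) (b (l 16642032) (l 16638008)))))) (a (b (c (a (c (l 16639968) (l 16641832)) (b (l 16638432) (l 16634312))) (a (b (l 16646808) (l 16642824)) (b (l 16642496) (l 16638520)))) (c (a (b (l 16634728) (l 16630656)) (b (l 16630224) (l 16626160))) (a (b (l 16638872) (l 16634952)) (b (l 16634584) (l 16630680))))) (b (c (a (b (l 16633952) (l 16629840)) (b (l 16629512) (l 16625408))) (a (b (l 16638232) (l 16634264)) (b (l 16634016)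 (l 16630056)))) (c (a (b (l 16625760) (l 16621704)) (b (l 16621328) (l 16617288))) (a (b (l 16630336) (l 16626448)) (b (l 16626136) (l 16622256))))))), by decide +kernel⟩

def k80_A00pm_012_s1 : ∃ t, chk3 f_A00pm_012_s1 t 75 62 2 = true :=
  ⟨(b (a (b (c (a (b (l 16641816) (l 16637608)) (b (l 16637488) (l 16633272))) (a (b (l 16645984) (l 16641912)) (b (l 16641880) (l 16637800)))) (c (a (b (l 16633416) (l 16629256)) (b (l 16629080) (l 16624912))) (a (b (l 16637864) (l 16633840)) (b (l 16633752) (l 16629728))))) (c (b (b (a (l 16633216) (l 16629000)) (a (l 16628992) (l 16624768))) (a (b (l 16624792) (l 16620624)) (b (l 16620560) (l 16616384)))) (b (b (a (l 16637840) (l 16633856)) (a (l 16633752) (l 16629760))) (a (b (l 16629696) (l 16625664)) (b (l 16625696) (l 16621664)))))) (b (a (c (a (b (l 16625128) (l 16621024)) (b (l 16620784) (l 16616680))) (a (b (l 16629848) (l 16625896)) (b (l 16625736) (l 16621792)))) (c (a (b (l 16616488) (l 16612384)) (b (l 16612240) (l 16608136))) (a (b (l 16621680) (l 16617728))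 (b (l 16617672) (l 16613728))))) (c (a (a (b (l 16616952) (l 16612912)) (b (l 16612616) (l 16608584))) (a (b (l 16608320) (l 16604296)) (l 16607296))) (a (a (b (l 16621984) (l 16618120)) (b (l 16617880) (l 16614024))) (a (b (l 16613832) (l 16609976)) (b (l 16609824) (l 16605976))))))), by decide +kernel⟩

def k81_A00pm_012_s1 : ∃ t, chk3 f_A00pm_012_s1 t 74 124 3 = true :=
  ⟨(b (a (c (a (b (c (l 16665696) (l 16667608)) (c (l 16661728) (l 16663712))) (b (c (l 16661528) (l 16663560)) (c (l 16657560) (l 16659672)))) (b (a (c (l 16669608) (l 16671696)) (c (l 16665688) (l 16667896))) (a (c (l 16665792) (l 16667960)) (c (l 16661872) (l 16664168))))) (c (a (b (c (l 16657424) (l 16659576)) (c (l 16653456) (l 16655688))) (b (c (l 16653376) (l 16655648)) (c (l 16649408) (l 16651760)))) (c (a (b (l 16661824) (l 16658016)) (b (l 16658024) (l 16654216))) (b (a (l 16664168) (l 16660504)) (a (l 16660440) (l 16656776)))))) (a (c (b (a (l 16658792) (l 16654696)) (a (l 16654904) (l 16650816))) (b (a (c (l 16661992) (l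 16664232)) (c (l 16658080) (l 16660448))) (a (l 16659368) (l 16658144)))) (c (b (a (c (l 16649520) (l 16651816)) (c (l 16645472) (l 16647896))) (a (l 16646776) (l 16642800))) (b (a (c (l 16654224) (l 16656728)) (c (l 16650432) (l 16653072))) (a (c (l 16650464) (l 16653056)) (c (l 16646680) (l 16649408))))))), by decide +kernel⟩

def k82_A00pm_012_s1 : ∃ t, chk3 f_A00pm_012_s1 t 75 124 3 = true :=
  ⟨(c (a (b (a (b (c (l 16649392) (l 16651792)) (c (l 16645424) (l 16647904))) (b (c (l 16645464) (l 16647992)) (c (l 16641496) (l 16644104)))) (a (b (c (l 16641488) (l 16644040)) (l 16644120)) (b (c (l 16637560) (l 16640240)) (l 16640256)))) (b (a (b (c (l 16641608) (l 16644264)) (c (l 16637632) (l 16640368))) (b (l 16644432) (l 16640488))) (a (b (l 16640320) (l 16636456)) (b (l 16631336) (l 16627464))))) (a (b (a (b (c (l 16654296) (l 16656904)) (c (l 16650488) (l 16653184))) (b (c (l 16650632) (l 16653376)) (c (l 16646824) (l 16649656)))) (c (a (b (l 16646704) (l 16642960)) (b (l 16643040) (l 16639296))) (a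 (b (l 16649480) (l 16645816)) (b (l 16645960) (l 16642296))))) (b (c (b (a (l 16647032) (l 16643504)) (a (l 16643224) (l 16639688))) (b (a (l 16649920) (l 16646536)) (a (l 16646192) (l 16642800)))) (c (b (a (l 16639440) (l 16635904)) (a (l 16635696) (l 16632160))) (a (b (l 16642496) (l 16638840)) (b (l 16639104) (l 16635448))))))), by decide +kernel⟩

def k83_A00pm_012_s1 : ∃ t, chk3 f_A00pm_012_s1 t 37 125 3 = true :=
  ⟨(a (b (a (a (c (b (l 16651040) (l 16647208)) (b (l 16655664) (l 16652000))) (c (b (l 16646960) (l 16643144)) (b (l 16651832) (l 16648184)))) (a (c (b (l 16642936) (l 16639128)) (b (l 16653312) (l 16644432))) (c (b (l 16638960) (l 16635168)) (b (c (l 16642968) (l 16645776)) (l 16640736))))) (a (c (b (a (l 16643424) (l 16639368)) (a (l 16639672) (l 16635640))) (b (b (l 16636888) (l 16635096)) (c (l 16641568) (l 16644312)))) (a (c (b (l 16635368) (l 16631656)) (b (l 16640848) (l 16637320))) (c (b (l 16631416) (l 16627712)) (b (l 16637160) (l 16633656)))))) (c (b (a (a (b (l 16635048) (l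 16631256)) (b (l 16631184) (l 16627400))) (a (b (l 16627384) (l 16623600)) (b (l 16623640) (l 16619856)))) (a (a (b (l 16627512) (l 16623824)) (b (l 16623664) (l 16619984))) (a (b (l 16619872) (l 16616200)) (b (l 16616136) (l 16612472))))) (b (a (c (b (a (l 16639248) (l 16635592)) (a (l 16635592) (l 16631936))) (b (a (l 16642200) (l 16638680)) (a (l 16638632) (l 16635120)))) (c (a (b (l 16631992) (l 16628344)) (b (l 16628464) (l 16624816))) (a (b (l 16635232) (l 16631672)) (b (l 16631840) (l 16628288))))) (a (a (b (l 16633536) (l 16630040)) (b (l 16629968) (l 16626480))) (a (b (l 16631696) (l 16622984)) (b (a (l 16623856) (l 16622144)) (l 16619536))))))), by decide +kernel⟩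

def k84_A00pm_012_s1 : ∃ t, chk3 f_A00pm_012_s1 t 37 126 1 = true :=
  ⟨(c (a (c (b (a (a (b (l 16626608) (l 16622592)) (b (l 16622128) (l 16618128))) (a (b (l 16617680) (l 16613696)) (b (l 16613280) (l 16609304)))) (a (a (l 16616624) (l 16612184)) (c (l 16604296) (l 16606928)))) (b (a (a (b (l 16631072) (l 16627240)) (b (l 16626816) (l 16623000))) (a (b (l 16622600) (l 16618800)) (b (l 16618424) (l 16614640)))) (a (a (l 16621576) (l 16617368)) (a (l 16613200) (l 16609072))))) (b (a (c (c (b (l 16605448) (l 16601448)) (b (l 16608072) (l 16604160))) (a (b (l 16614296) (l 16610528)) (b (l 16610208) (l 16606456)))) (c (c (l 16605256) (l 16602912)) (a (b (l 16606168) (l 16602424)) (l 16605536)))) (a (c (c (l 16595520) (l 16598384)) (b (l 16604784) (l 16601136))) (c (c (l 16586888) (l 16589984)) (b (l 16596744) (l 16593136)))))) (a (b (a (c (b (a (l 16635984) (l 16631968)) (l 16630344)) (b (l 16628952) (l 16636024))) (c (a (b (l 16627992) (l 16624400)) (b (l 16624072) (l 16620496))) (b (c (l 16630488) (l 16633616))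 (l 16618176)))) (a (c (a (l 16627000) (l 16623048)) (b (l 16632688) (l 16629440))) (c (a (l 16619128) (l 16615256)) (b (l 16625376) (l 16622184))))) (a (b (c (a (b (l 16620200) (l 16616632)) (b (l 16616368) (l 16612824))) (b (c (l 16623152) (l 16626560)) (c (l 16619760) (l 16623288)))) (c (b (l 16611240) (l 16607840)) (b (l 16607776) (l 16615112)))) (a (b (c (b (l 16612592) (l 16609064)) (b (l 16619584) (l 16616272))) (c (l 16603896) (b (l 16613056) (l 16609936)))) (b (c (b (l 16608872) (l 16605344)) (b (l 16616152) (l 16612848))) (c (l 16600200) (b (l 16609648) (l 16606544)))))))), by decide +kernel⟩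

def k85_A00pm_012_s1 : ∃ t, chk3 f_A00pm_012_s1 t 37 127 1 = true :=
  ⟨(c (b (a (a (b (c (l 16608544) (l 16613952)) (c (l 16604688) (l 16610352))) (b (c (l 16599800) (l 16605688)) (c (l 16595992) (l 16602136)))) (a (c (b (l 16591192) (l 16587416)) (b (l 16597560) (l 16594056))) (c (c (l 16579184) (l 16582528)) (b (l 16589592) (l 16586128))))) (a (a (c (a (l 16601152) (l 16596816)) (l 16605072)) (b (c (l 16592232) (l 16598664)) (c (l 16588528) (l 16595256)))) (c (a (b (l 16583704) (l 16580048)) (b (l 16575304) (l 16571688))) (a (b (l 16590632) (l 16587288)) (b (l 16582744) (l 16579440)))))) (c (a (b (b (a (l 16619872) (l 16612120)) (a (l 16616536) (l 16608848))) (b (l 16598976) (l 16595872))) (b (a (b (l 16604528) (l 16601304)) (b (l 16597096) (l 16593920))) (a (b (l 16598176) (l 16595160)) (b (l 16590848) (l 16587880))))) (b (a (a (l 16614264) (l 16607096)) (a (b (l 16612072) (l 16609144)) (b (l 16605240) (l 16602360)))) (a (b (l 16606280) (l 16593024)) (a (l 16594504) (l 16587800)))))), by decide +kernel⟩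

def k86_A00pm_012_s1 : ∃ t, chk3 f_A00pm_012_s1 t 19 60 1 = true :=
  ⟨(a (a (c (a (c (b (b (l 16689416) (l 16681264)) (b (l 16672848) (l 16653728))) (b (b (l 16702864) (l 16694992)) (b (a (l 16678216) (l 16674528)) (a (l 16669856) (l 16666176))))) (b (c (b (l 16681624) (l 16673488)) (b (l 16685016) (l 16677168))) (c (b (l 16665104) (l 16656488)) (a (l 16661488) (l 16652640))))) (a (c (b (b (l 16695656) (a (l 16689816) (l 16686352))) (b (a (l 16681976) (l 16678528)) (a (l 16673920) (l 16670488)))) (a (b (b (l 16700848) (l 16693592)) (b (l 16680840) (c (l 16677216) (l 16679528)))) (b (b (l 16697616) (l 16690384)) (b (l 16682904) (l 16669952))))) (c (b (a (l 16686720) (l 16683320)) (b (l 16683928) (l 16660192))) (b (b (l 16692856) (l 16685656)) (b (a (l 16679760) (l 16676672)) (a (l 16672096) (l 16669024))))))) (c (a (b (c (l 16664688) (l 16673912)) (c (l 16642712) (b (l 16661912) (l 16653624)))) (b (a (l 16666384) (l 16662760)) (c (l 16645720) (l 16640296)))) (a (b (c (a (l 16679968) (l 16676648)) (b (l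 16686656) (l 16679504))) (c (a (l 16659216) (l 16650704)) (b (l 16672112) (l 16659264)))) (c (b (l 16671752) (l 16656344)) (b (b (l 16680624) (l 16673520)) (b (l 16666176) (l 16658632))))))) (c (a (b (c (a (l 16654992) (l 16647696)) (a (l 16659920) (l 16653112))) (c (a (l 16638352) (l 16631104)) (c (l 16628528) (l 16631576)))) (b (a (l 16643392) (l 16636560)) (a (c (l 16623960) (l 16630544)) (c (l 16616912) (l 16624032))))) (a (a (b (c (l 16665336) (l 16671256)) (b (l 16657104) (l 16652040))) (b (c (l 16659072) (l 16665568)) (b (l 16651192) (l 16646176)))) (a (b (c (l 16652936) (l 16660032)) (c (l 16616808) (l 16645664))) (b (b (l 16654248) (l 16647136)) (b (l 16639784) (l 16632248))))))), by decide +kernel⟩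

def k87_A00pm_012_s1 : ∃ t, chk3 f_A00pm_012_s1 t 38 61 2 = true :=
  ⟨(a (b (a (c (a (b (l 16657432) (l 16648672)) (b (l 16653496) (l 16644680))) (b (a (l 16661400) (l 16657696)) (a (l 16652944) (l 16649176)))) (c (b (l 16647696) (l 16649320)) (b (l 16641760) (a (l 16645480) (l 16641872))))) (a (a (b (c (l 16639936) (b (l 16646616) (l 16642408))) (c (l 16636512) (b (l 16638224) (l 16634064)))) (c (b (l 16635896) (l 16627192)) (b (l 16640704) (b (l 16634392) (l 16630216))))) (c (b (a (l 16631920) (l 16628008)) (a (l 16623176) (l 16619216))) (a (b (l 16636960) (l 16628520)) (b (l 16633288) (l 16624808)))))) (b (b (a (c (l 16640128) (l 16645160)) (c (l 16632688) (l 16638216))) (a (c (l 16631216) (l 16636560)) (c (l 16623808) (l 16629656)))) (b (a (c (l 16622288) (a (l 16629688) (l 16626176))) (c (l 16614824) (l 16620992))) (c (a (l 16623888) (l 16605896)) (a (a (l 16621168) (l 16617592)) (l 16622872)))))), by decide +kernel⟩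

def k88_A00pm_012_s1 : ∃ t, chk3 f_A00pm_012_s1 t 38 61 3 = true :=
  ⟨(a (b (a (a (b (c (l 16671016) (c (l 16669320) (l 16671816))) (b (c (l 16659672) (l 16664720)) (c (l 16655616) (l 16660832)))) (b (c (l 16662328) (l 16662136)) (c (l 16643640) (c (l 16658136) (l 16660952))))) (c (b (a (l 16658928) (l 16655592)) (c (l 16647648) (l 16639960))) (b (a (l 16659008) (l 16661200)) (a (l 16651136) (c (l 16651776) (l 16654888)))))) (c (a (b (a (c (l 16648240) (l 16650872)) (c (l 16644624) (l 16647384))) (a (b (l 16643504) (l 16639496)) (b (l 16639928) (l 16635912)))) (b (a (c (l 16641072) (l 16643976)) (l 16639104)) (a (b (l 16636424) (l 16632392)) (b (l 16632992) (l 16628936))))) (b (a (c (a (b (l 16655568) (l 16651664)) (l 16650272)) (a (b (l 16658384) (l 16654576)) (b (l 16655192) (l 16651368)))) (c (a (l 16647000) (l 16643808)) (a (l 16652776) (l 16647112)))) (b (a (a (c (l 16647776) (l 16650776)) (c (l 16644408) (l 16647552))) (a (l 16647984) (l 16639600))) (a (c (a (l 16643896) (l 16640520)) (a (l 16646984)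 (l 16643752))) (c (l 16635584) (a (l 16640592) (l 16637512)))))))) (b (a (c (b (l 16650696) (a (l 16644048) (l 16640824))) (b (l 16651496) (c (l 16647184) (l 16640032)))) (b (c (l 16644288) (l 16650920)) (c (l 16636080) (l 16637840)))) (c (a (b (a (l 16635776) (l 16632536)) (a (l 16627584) (l 16624288))) (b (l 16617288) (b (l 16621560) (l 16617424)))) (b (a (c (l 16628712) (a (l 16644152) (l 16641280))) (c (l 16633256) (l 16637096))) (a (c (a (l 16632776) (l 16629704)) (a (l 16636416) (l 16633496))) (a (l 16618176) (l 16625832))))))), by decide +kernel⟩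

def k89_A00pm_012_s1 : ∃ t, chk3 f_A00pm_012_s1 t 39 61 1 = true :=
  ⟨(c (a (b (c (a (l 16599968) (l 16592776)) (a (l 16616656) (l 16609984))) (c (b (a (l 16607568) (l 16600424)) (a (l 16598592) (l 16591488))) (a (b (l 16614264) (l 16605608)) (c (l 16580464) (l 16589584))))) (c (b (a (l 16606656) (l 16599672)) (a (b (l 16593392) (l 16584496)) (b (l 16586456) (l 16577600)))) (b (a (l 16603440) (l 16586520)) (a (b (l 16601176) (l 16592624)) (b (l 16594808) (l 16586296)))))) (b (a (c (b (a (l 16638032) (l 16631912)) (a (l 16629864) (l 16623800))) (b (a (l 16645256) (l 16639760)) (c (l 16622216) (l 16631584)))) (c (a (b (l 16625928) (l 16617864)) (l 16605584)) (b (a (l 16634408) (l 16629208)) (a (l 16626752) (l 16621608))))) (b (a (c (a (l 16621616) (l 16615600)) (a (l 16624384) (c (l 16622016) (l 16626512)))) (a (c (l 16609720) (l 16608528)) (c (l 16603968) (l 16613928)))) (a (c (a (b (l 16615392) (l 16611240)) (l 16607352)) (a (c (l 16619536) (l 16623896)) (c (l 16614056) (l 16618760)))) (a (c (l 16601528)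 (c (l 16608728) (l 16613768))) (c (l 16595832) (l 16595712))))))), by decide +kernel⟩

def k90_A00pm_012_s1 : ∃ t, chk3 f_A00pm_012_s1 t 38 62 2 = true :=
  ⟨(a (b (a (a (b (c (b (l 16624848) (l 16620592)) (b (l 16629928) (l 16625824))) (c (b (l 16616376) (l 16612200)) (b (l 16621752) (l 16617720)))) (b (c (l 16618608) (b (l 16626064) (l 16621952))) (c (l 16610152) (b (l 16617872) (l 16613824))))) (a (b (c (l 16614552) (b (l 16622272) (l 16618136))) (c (l 16606072) (b (l 16614048) (l 16609992)))) (b (c (l 16610560) (l 16616456)) (c (l 16602056) (l 16608248))))) (c (a (b (a (l 16611232) (l 16601840)) (a (l 16597856) (l 16593704))) (b (a (l 16597752) (l 16593712)) (a (l 16589600) (l 16585544)))) (a (b (b (a (l 16613720) (l 16609824)) (a (l 16609776) (l 16605872))) (a (b (l 16605872) (l 16602024)) (l 16605280))) (a (b (a (l 16604952) (l 16603048)) (l 16606672)) (b (l 16600216) (l 16592392)))))) (b (a (c (b (a (l 16606632) (l 16602760)) (a (l 16598088) (l 16594184))) (b (a (l 16612776) (l 16609160)) (a (l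 16604536) (l 16600888)))) (c (b (l 16597072) (l 16588440)) (b (a (l 16605608) (l 16602128)) (a (l 16597304) (l 16593784))))) (a (c (b (a (l 16589720) (l 16585792)) (a (l 16581544) (l 16577592))) (b (a (l 16596488) (l 16592816)) (a (l 16588656) (l 16584968)))) (c (b (l 16580000) (l 16571768)) (b (a (l 16589208) (l 16585656)) (a (l 16581344) (l 16577776))))))), by decide +kernel⟩

def k91_A00pm_012_s1 : ∃ t, chk3 f_A00pm_012_s1 t 76 62 3 = true :=
  ⟨(b (c (a (b (a (b (l 16635520) (l 16631568)) (b (l 16631920) (l 16627960))) (b (a (l 16627656) (l 16624040)) (a (l 16623784) (l 16620160)))) (b (b (a (l 16628384) (l 16624920)) (a (l 16624416) (l 16620936))) (b (a (l 16620488) (l 16616992)) (a (l 16616600) (l 16613096))))) (a (b (c (a (b (l 16640048) (l 16636224)) (b (l 16636656) (l 16632824))) (b (a (l 16643216) (l 16639976)) (a (l 16639480) (l 16636232)))) (c (b (a (l 16632432) (l 16629024)) (a (l 16628688) (l 16625280))) (b (a (l 16635784) (l 16632528)) (a (l 16632120) (l 16628864))))) (c (b (b (l 16631704)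 (l 16633096)) (b (l 16629288) (l 16630776))) (b (a (b (l 16636808) (l 16633056)) (b (l 16633712) (l 16629944))) (a (b (l 16629344) (l 16625672)) (b (l 16626224) (l 16622552))))))) (c (a (b (c (a (l 16616424) (l 16612720)) (b (l 16619808) (l 16616072))) (c (b (l 16608896) (l 16605192)) (b (l 16612400) (l 16608792)))) (b (b (a (l 16612760) (l 16609256)) (a (l 16608976) (l 16605464))) (c (a (l 16601544) (l 16597960)) (a (l 16605320) (l 16601880))))) (b (a (c (b (a (l 16624984) (l 16621576)) (l 16624872)) (b (a (l 16628520) (l 16625256)) (a (l 16624968) (l 16621712)))) (c (b (l 16616584) (l 16612936)) (b (a (l 16622064) (l 16618936)) (a (l 16618520) (l 16615392))))) (a (a (b (a (l 16620448) (l 16618768)) (l 16616152)) (b (l 16621520) (l 16612824))) (a (b (l 16618248) (l 16609552)) (b (l 16620280) (l 16606344))))))), by decide +kernel⟩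

def k92_A00pm_012_s1 : ∃ t, chk3 f_A00pm_012_s1 t 77 62 3 = true :=
  ⟨(c (c (b (a (b (l 16616064) (l 16613296)) (b (l 16609384) (l 16601312))) (a (b (l 16605496) (l 16592696)) (b (l 16593464) (l 16585872)))) (b (a (b (a (l 16621296) (l 16618032)) (a (l 16613472) (l 16610184))) (b (l 16613280) (l 16605384))) (a (b (a (l 16605856) (l 16602552)) (a (l 16598496) (l 16595176))) (b (l 16597712) (l 16590312))))) (b (a (b (a (c (l 16624968) (l 16628792)) (c (l 16621864) (l 16625840))) (a (b (l 16621184) (l 16617456)) (c (l 16614192) (l 16618352)))) (b (a (c (l 16618824) (l 16622968)) (c (l 16615864) (l 16620160))) (a (c (l 16611120) (l 16615448)) (c (l 16608128) (l 16612616))))) (a (b (c (a (l 16609896) (l 16606736)) (b (l 16619624) (l 16621304))) (c (a (l 16602728) (l 16599568)) (a (l 16612376) (l 16604136)))) (b (c (a (l 16603656) (l 16600632)) (a (l 16608176) (l 16605320))) (c (a (l 16596472) (l 16593432)) (a (l 16601200) (l 16598328))))))), by decide +kernel⟩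

def k93_A00pm_012_s1 : ∃ t, chk3 f_A00pm_012_s1 t 39 62 2 = true :=
  ⟨(b (b (a (c (a (l 16589728) (l 16582576)) (a (l 16597056) (l 16590456))) (c (a (l 16575624) (l 16568768)) (a (l 16584080) (l 16577800)))) (a (c (a (l 16580984) (l 16573800)) (a (a (l 16590328) (l 16586936)) (b (l 16584096) (l 16579888)))) (c (a (l 16566800) (l 16560000)) (a (b (l 16577696) (l 16573480)) (l 16569368))))) (a (c (b (a (l 16572472) (l 16565184)) (a (l 16564192) (a (l 16558656) (l 16555032)))) (b (a (a (l 16582168) (l 16578744)) (b (l 16575760) (l 16571696))) (a (a (l 16574256) (l 16570808)) (a (l 16567408) (l 16564072))))) (a (c (b (l 16563400) (b (l 16551784) (l 16547640))) (b (b (l 16569320) (l 16565208)) (b (l 16561176) (l 16557224)))) (c (b (l 16551312) (a (l 16544512) (l 16541128))) (b (a (l 16562560) (l 16559496)) (a (l 16554440) (l 16551368))))))), by decide +kernel⟩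

def k94_A00pm_012_s1 : ∃ t, chk3 f_A00pm_012_s1 t 39 62 3 = true :=
  ⟨(a (b (c (a (c (b (l 16603016) (l 16594840)) (b (l 16607216) (l 16599216))) (c (b (l 16596872) (l 16588672)) (b (l 16601376) (l 16593360)))) (b (a (c (l 16611592) (l 16605656)) (c (l 16606080) (l 16600488))) (a (a (c (l 16605200) (l 16609864)) (c (l 16602352) (l 16607176))) (a (c (l 16599576) (l 16604568)) (c (l 16596888) (l 16602056)))))) (c (b (a (c (l 16586928) (l 16591488)) (c (l 16580656) (l 16585528))) (a (a (l 16583224) (l 16580080)) (c (l 16572960) (l 16578040)))) (b (a (c (b (l 16598096) (l 16594400)) (b (l 16602984) (l 16599384))) (c (b (l 16592488) (l 16588760)) (b (l 16597720) (l 16594096)))) (a (c (a (l 16590464) (l 16587560)) (a (l 16595528) (l 16592792))) (c (b (l 16585120) (l 16581568)) (b (l 16590560) (l 16587120))))))) (b (b (c (a (b (l 16595384) (l 16591296)) (l 16587696)) (a (c (l 16600816) (l 16606056)) (c (l 16595688) (l 16601280)))) (c (a (b (l 16587216) (l 16583184)) (b (l 16581632) (l 16577616))) (a (a (c (l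 16594248) (l 16599592)) (l 16583912)) (c (l 16587896) (l 16593688))))) (c (a (b (b (l 16579208) (l 16575280)) (b (l 16571448) (l 16567704))) (c (b (l 16568904) (l 16561096)) (b (l 16574448) (l 16566848)))) (a (b (c (b (l 16587184) (l 16583400)) (b (l 16592768) (l 16589088))) (c (b (l 16579728) (l 16576152)) (b (l 16585528) (l 16582064)))) (b (b (l 16595552) (l 16591824)) (a (b (l 16578872) (l 16575328)) (l 16585184))))))), by decide +kernel⟩

def k95_A00pm_012_s1 : ∃ t, chk3 f_A00pm_012_s1 t 38 63 2 = true :=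
  ⟨(b (a (b (a (c (a (l 16589896) (l 16585744)) (a (l 16606840) (l 16592464))) (c (a (l 16581640) (l 16577584)) (a (l 16588616) (l 16584824)))) (a (c (c (l 16578408) (l 16581752)) (b (l 16588888) (l 16585296))) (c (a (l 16573896) (l 16569848)) (c (l 16577464) (l 16581408))))) (c (a (b (a (l 16573576) (l 16569616)) (l 16574336)) (b (l 16563768) (l 16556016))) (a (b (a (l 16581080) (l 16577384)) (a (l 16573784) (l 16570096))) (b (a (l 16573744) (l 16570160)) (a (l 16566456) (l 16562864)))))) (a (c (b (a (c (l 16570752) (l 16574344)) (c (l 16562464) (l 16566312))) (a (b (l 16567040) (l 16563456)) (l 16557128))) (b (a (b (l 16581784) (l 16578352)) (b (l 16574144) (l 16570736))) (a (b (l 16575000) (l 16571744)) (l 16565784)))) (b (a (c (l 16556368) (l 16575456)) (c (l 16548544) (l 16568192))) (a (c (l 16549168) (l 16558376)) (c (l 16541360) (l 16551136)))))), by decide +kernel⟩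

def k96_A00pm_012_s1 : ∃ t, chk3 f_A00pm_012_s1 t 38 63 3 = true :=
  ⟨(b (a (c (b (a (a (b (l 16605200) (l 16601680)) (b (l 16601576) (l 16598072))) (a (b (l 16598016) (l 16594512)) (l 16603224))) (a (b (l 16601680) (l 16593096)) (a (l 16589408) (l 16585912)))) (b (a (c (b (l 16609120) (l 16605776)) (b (l 16613136) (l 16609912))) (c (b (l 16602440) (l 16599104)) (b (l 16606768) (l 16603560)))) (a (c (b (l 16602528) (l 16599384)) (b (l 16606784) (l 16603776))) (c (b (l 16595880) (l 16592752)) (b (l 16600456) (l 16597472)))))) (c (b (a (c (l 16585424) (l 16600264)) (c (l 16578584) (l 16583248))) (a (c (l 16578488) (l 16583088)) (a (l 16575728) (l 16572440)))) (c (b (a (b (l 16595992) (l 16592664)) (a (l 16589632) (l 16586584))) (a (l 16598360) (a (l 16583200) (l 16580160)))) (b (a (b (l 16600640) (l 16597440)) (a (l 16594592) (l 16591720))) (a (b (l 16594352) (l 16591384)) (a (l 16588432) (l 16585552))))))) (b (a (c (a (b (l 16589848) (l 16586704)) (b (l 16582784) (l 16579672))) (a (b (l 16598592) (l 16595760))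 (a (l 16592320) (l 16599640)))) (c (a (b (l 16575920) (l 16572824)) (a (l 16569336) (l 16566056))) (a (a (l 16596528) (l 16593472)) (a (l 16590472) (l 16587520))))) (a (a (c (b (l 16583672) (l 16580752)) (b (l 16593056) (l 16590496))) (c (b (l 16576672) (l 16573784)) (b (l 16586680) (l 16584160)))) (c (a (b (l 16569848) (l 16566992)) (a (l 16563408) (l 16560144))) (a (b (l 16580504) (l 16578016)) (a (l 16574744) (l 16571816))))))), by decide +kernel⟩

def k97_A00pm_012_s1 : ∃ t, chk3 f_A00pm_012_s1 t 39 63 2 = true :=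
  ⟨(b (a (a (c (b (a (l 16558040) (l 16554280)) (l 16553624)) (b (a (l 16566632) (l 16563160)) (a (l 16559328) (l 16555840)))) (c (b (a (l 16550576) (l 16546928)) (a (l 16542776) (l 16539112))) (b (a (l 16559736) (l 16556376)) (a (l 16552408) (l 16549024))))) (a (c (b (a (l 16543328) (l 16539792)) (a (l 16535488) (l 16531920))) (b (b (l 16553352) (l 16549568)) (a (l 16545704) (l 16542440)))) (c (b (a (l 16536304) (l 16532872)) (a (l 16528408) (l 16524952))) (b (a (l 16546648) (l 16543528)) (a (l 16539224) (l 16536072)))))) (a (b (c (a (l 16540896) (a (l 16535280) (l 16531600))) (a (a (l 16552376) (l 16548888)) (a (l 16545448) (l 16542056)))) (a (c (l 16533728) (a (l 16545824) (l 16542336))) (c (a (l 16528112) (l 16524424)) (a (l 16538904) (l 16535512))))) (b (a (c (a (l 16527968) (l 16524384)) (a (l 16538720) (l 16535440))) (c (c (l 16516376) (l 16521880)) (c (l 16527640) (l 16533656)))) (a (c (a (l 16520784) (l 16517184)) (b (l 16532120) (l 16528952))) (c (c (l 16509016) (l 16514824)) (c (l 16520896)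 (l 16527240))))))), by decide +kernel⟩

def k98_A00pm_012_s1 : ∃ t, chk3 f_A00pm_012_s1 t 39 63 3 = true :=
  ⟨(b (c (a (b (a (a (l 16576032) (l 16572864)) (c (l 16565600) (l 16570904))) (a (a (l 16569208) (l 16566032)) (a (l 16562920) (l 16559856)))) (c (b (a (l 16559472) (l 16553592)) (a (l 16552464) (l 16546528))) (b (a (l 16565104) (l 16559568)) (a (l 16558352) (l 16552768))))) (c (a (b (a (a (l 16583608) (l 16580688)) (b (l 16578112) (l 16574768))) (a (a (l 16577176) (l 16574248)) (b (l 16571544) (l 16568440)))) (b (a (b (l 16572672) (l 16569312)) (l 16571032)) (a (b (l 16566064) (l 16562944)) (l 16559248)))) (a (b (a (a (l 16588904) (l 16586160)) (b (l 16583792) (l 16580576))) (a (a (l 16582744) (l 16579992)) (b (l 16577480) (l 16574520)))) (b (a (b (l 16578704) (l 16575472)) (a (l 16573424) (l 16571088))) (a (b (l 16572360) (l 16569392)) (a (l 16567176) (l 16564816))))))) (c (c (a (b (a (l 16558496) (l 16552088)) (a (l 16552440) (l 16546040))) (b (a (l 16545896) (l 16539928)) (a (l 16539840) (l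 16533856)))) (a (a (b (l 16564024) (l 16558296)) (b (l 16557944) (l 16552232))) (b (a (l 16552088) (l 16546464)) (a (l 16546376) (l 16540736))))) (a (b (c (a (l 16580248) (b (l 16565464) (l 16562632))) (a (b (l 16577080) (l 16574416)) (b (l 16571704) (l 16569040)))) (b (a (l 16579248) (l 16573696)) (a (l 16566320) (l 16560784)))) (b (a (c (l 16569008) (b (l 16566560) (l 16563896))) (c (l 16553264) (l 16570800))) (a (b (l 16568376) (l 16555464)) (b (l 16552800) (l 16550376))))))), by decide +kernel⟩

def k99_A00pm_012_s1 : ∃ t, chk3 f_A00pm_012_s1 t 5 4 1 = true :=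
  ⟨(a (a (a (l 3) (l 2)) (l 2)) (l 2)), by decide +kernel⟩

def k100_A00pm_012_s1 : ∃ t, chk3 f_A00pm_012_s1 t 40 10 1 = true :=
  ⟨(l 3), by decide +kernel⟩

def k101_A00pm_012_s1 : ∃ t, chk3 f_A00pm_012_s1 t 41 10 2 = true :=
  ⟨(b (b (a (l 3) (l 2)) (a (l 3) (a (b (l 531957311) (a (l 3) (a (a (l 3) (l 533008255)) (l 531938431)))) (b (l 2) (a (a (l 531943551) (l 531948863)) (a (b (l 2) (l 16772208)) (l 531959135))))))) (a (a (l 3) (a (l 3) (b (l 3) (a (l 531593855) (l 531588991))))) (a (a (a (b (a (l 3) (l 531821183)) (l 532384895)) (b (a (l 531814783) (l 531805823)) (a (l 531569791) (l 531560831)))) (a (a (b (l 531794047) (l 531550079)) (b (b (a (l 531838079) (l 531840383)) (l 531718271)) (a (l 531540863) (l 531534719)))) (b (b (a (l 531844735) (l 531845759)) (a (l 531710591) (l 531708287))) (a (l 531527807) (l 531521407))))) (b (b (b (a (a (l 531906943) (a (l 16773320) (l 531916159))) (a (l 16771648) (l 16770312))) (a (a (l 531816063) (a (l 531823999) (l 16772024))) (a (l 16768392) (l 16769672))))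 (b (a (a (l 531744383) (l 16771696)) (a (l 16770328) (l 16768968))) (a (a (l 16775008) (l 16770992)) (l 16771536)))) (b (b (a (a (l 16771664) (l 16770248)) (l 16768144)) (a (a (l 16770888) (l 16769456)) (l 16767328))) (b (a (a (l 16770072) (l 16768624)) (l 16771712)) (a (a (l 16769216) (l 16767752)) (l 16765560)))))))), by decide +kernel⟩

def k102_A00pm_012_s1 : ∃ t, chk3 f_A00pm_012_s1 t 41 10 3 = true :=
  ⟨(b (a (l 3) (b (l 2) (b (a (l 531964479) (l 2)) (a (a (l 3) (a (a (l 3) (l 532210703)) (l 531945599))) (a (a (l 531950719) (l 531956031)) (a (b (l 2) (l 16772216)) (l 531966047))))))) (a (a (l 3) (a (l 3) (b (l 3) (a (l 531607167) (l 531591039))))) (a (a (b (a (a (l 3) (l 531839359)) (a (l 531825791) (l 531809151))) (a (a (l 531575935) (l 531563391)) (a (l 531548799) (l 531531903)))) (a (a (b (l 531788415) (l 531512703)) (b (b (a (l 532903551) (l 531832191)) (l 531694719)) (a (l 531496575) (l 531486079)))) (b (b (a (l 531837055) (l 531836543)) (a (l 531680639) (l 531675007))) (a (l 531473791) (b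 (l 531530367) (l 531396479)))))) (b (b (b (a (a (l 531910015) (a (l 16773320) (l 16772656))) (a (l 16771656) (l 16770320))) (a (a (l 531799679) (a (l 16772688) (l 16772008))) (a (l 16771000) (l 16769656)))) (b (a (a (l 531714687) (l 16771664)) (a (l 16770288) (l 16768920))) (a (a (l 16774968) (l 16770944)) (l 16771472)))) (c (b (b (a (l 16773528) (l 16768064)) (a (l 16770112) (l 16767224))) (b (a (l 16769272) (l 16766344)) (a (l 16768384) (l 16765416)))) (b (b (a (l 16773504) (l 16768032)) (a (l 16770072) (l 16767176))) (b (a (l 16769224) (l 16766280)) (a (l 16768328) (l 16765336))))))))), by decide +kernel⟩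

def k103_A00pm_012_s1 : ∃ t, chk3 f_A00pm_012_s1 t 40 11 1 = true :=
  ⟨(a (l 3) (b (l 3) (a (a (l 3) (b (l 3) (b (l 3) (c (l 531407231) (c (l 531492479) (a (a (l 3) (l 531308927)) (l 531316095))))))) (b (c (a (l 3) (b (a (l 3) (c (l 531215119) (l 530959375))) (a (b (l 3) (l 531224703)) (b (l 531187071) (l 531227007))))) (a (l 3) (c (b (a (l 3) (b (l 3) (l 531253519))) (a (b (l 3) (l 531281023)) (b (a (l 531106175) (l 531228543)) (c (l 531268991) (l 531296527))))) (b (b (l 3) (a (l 3) (a (l 3) (a (l 3) (l 530740863))))) (b (a (l 3) (a (a (b (l 3) (b (l 3) (b (l 530536975) (l 530536719)))) (b (l 530868607) (l 530588031))) (c (l 531271551) (l 530822527)))) (a (l 530654479) (a (a (l 531145855) (b (l 530584447) (l 531163775))) (b (l 530666367) (l 531202431))))))))) (c (a (l 531370367) (a (l 531383679) (b (a (l 531327871) (l 531326591)) (l 531448959)))) (a (c (b (l 531378559) (l 531511679)) (b (a (b (l 3) (l 531219583)) (l 530864511)) (l 531057935))) (b (a (l 530888319) (a (l 530892927) (b (l 531119231) (l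 531463807)))) (a (l 531564415) (l 531569791))))))))), by decide +kernel⟩

def k104_A00pm_012_s1 : ∃ t, chk3 f_A00pm_012_s1 t 82 11 1 = true :=
  ⟨(a (b (b (l 3) (b (a (l 3) (a (c (l 531301759) (l 531336319)) (l 531295359))) (a (a (l 3) (b (l 3) (a (a (l 3) (l 531314703)) (l 531241231)))) (c (l 530961279) (a (l 531270527) (l 531245951)))))) (b (a (c (b (a (l 530937471) (l 530923903)) (b (a (l 531171455) (l 531155327)) (a (l 531174015) (l 530887551)))) (a (b (a (b (l 3) (l 530859023)) (b (b (l 3) (l 531265551)) (l 531248255))) (b (l 530831631) (b (c (l 531210879) (l 530730367)) (l 531031167)))) (b (c (l 530951439) (a (b (l 531285775) (l 531261823)) (l 531258383))) (b (a (l 531212671) (l 531197567)) (c (l 531188607) (l 531238671)))))) (b (c (l 530901775) (a (l 531212815) (l 531183999))) (a (c (l 530868095) (b (l 531174271) (l 531175807))) (c (l 531117183) (l 531141759))))) (a (a (b (b (a (l 530781311) (l 531304831)) (l 530850063)) (l 530684175)) (b (c (l 531292543) (l 530702463)) (l 530663295))) (b (a (c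 (l 531265407) (l 531332479)) (l 531251327)) (c (l 531391615) (l 531480335)))))) (b (a (a (c (l 531052415) (b (l 531154303) (l 531255935))) (c (l 531042687) (l 530775423))) (a (b (l 531111807) (l 530933631)) (b (l 531094911) (l 530910079)))) (b (a (b (a (l 531140735) (l 530848127)) (a (l 531093631) (l 531066239))) (a (l 531063167) (l 529961231))) (a (b (a (l 531211903) (l 531170687)) (l 531355663)) (a (l 531214351) (a (l 531181439) (l 531159167))))))), by decide +kernel⟩

def k105_A00pm_012_s1 : ∃ t, chk3 f_A00pm_012_s1 t 83 11 1 = true :=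
  ⟨(b (a (a (a (a (l 530980479) (c (l 531264383) (l 531221119))) (a (a (l 530958207) (l 530951039)) (a (l 530406783) (b (l 531307903) (l 531112063))))) (a (b (a (c (l 531330943) (l 531270783)) (a (l 531283583) (l 531275135))) (c (a (l 531141759) (l 531128191)) (a (l 531067007) (l 531044479)))) (b (a (l 531532671) (l 531520383)) (c (l 531110271) (l 531014271))))) (b (b (b (c (a (l 16767576) (l 16764616)) (a (l 16767416) (l 16764392))) (c (a (l 16766616) (l 16763624)) (a (l 16766440) (l 16763368)))) (b (c (a (l 16765616) (l 16762592)) (a (l 16765408) (l 16762296))) (c (a (l 16764568) (l 16761512)) (a (l 16764336) (l 16761184))))) (b (c (b (a (l 16763480) (l 16760384)) (a (l 16762344) (l 16759216))) (b (a (l 16763216) (l 16760024)) (a (l 16762048) (l 16758816)))) (c (b (a (l 16761160) (l 16758008)) (a (l 16759936) (l 16756744))) (b (a (l 16760840) (l 16757560)) (a (l 16759584) (l 16756264))))))) (a (a (b (a (c (l 531573007) (l 530715775)) (c (b (l 531576703) (l 16761064)) (l 530673023))) (a (b (l 530500991)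 (l 16752824)) (b (c (l 16758640) (l 16758480)) (l 16751168)))) (a (b (c (b (l 531013903) (l 16754184)) (l 530361103)) (b (c (l 16756976) (l 16756736)) (c (l 16754816) (l 16754680)))) (b (c (b (l 16760440) (l 16757768)) (b (l 16760152) (l 16757432))) (b (c (l 16755296) (l 16754976)) (l 530794623))))) (b (b (c (b (a (l 16758664) (l 16755440)) (a (l 16757344) (l 16754096))) (b (a (l 16758280) (l 16754928)) (a (l 16756936) (l 16753536)))) (c (b (a (l 16755976) (l 16752696)) (a (l 16754608) (l 16751296))) (a (l 16749592) (l 16751384)))) (b (c (a (l 16747504) (l 16754632)) (a (l 16752296) (l 16748768))) (c (a (l 16745352) (l 16752472)) (a (l 16750240) (l 16746696))))))), by decide +kernel⟩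

def k106_A00pm_012_s1 : ∃ t, chk3 f_A00pm_012_s1 t 21 10 1 = true :=
  ⟨(a (b (l 532034143) (b (a (c (b (a (b (l 16772240) (l 16771576)) (l 16761384)) (a (b (l 16765600) (l 16764800)) (l 16759840))) (a (b (b (l 16767008) (l 16766320)) (b (l 16765552) (l 16764704))) (b (l 16761384) (l 16759752)))) (b (a (l 16756096) (l 2)) (a (l 16754472) (l 16749224)))) (b (a (a (a (b (l 16765288) (l 16764408)) (c (l 16762144) (l 16761968))) (c (l 16758016) (l 16757808))) (a (l 16752496) (l 16747128))) (a (a (c (b (l 16762184) (l 16761224)) (b (l 16761952) (l 16760952))) (b (l 16756392) (l 16755328))) (c (l 16747720) (l 16747288)))))) (b (l 2) (b (a (b (l 2) (l 16741376)) (l 2)) (a (b (l 16739224) (l 16736712)) (b (l 16728856) (l 16726208)))))), by decide +kernel⟩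

def k107_A00pm_012_s1 : ∃ t, chk3 f_A00pm_012_s1 t 21 11 1 = true :=
  ⟨(c (a (b (b (a (a (b (b (l 16760224) (l 16759184)) (b (l 16758096) (l 16756960))) (b (l 16753896) (l 16751576))) (b (l 16745352) (l 16742816))) (b (a (b (l 16763240) (l 16761984)) (l 16740120)) (a (b (l 16760688) (l 16759344)) (l 16737248)))) (b (b (a (b (l 16757960) (l 16756536)) (l 16734208)) (a (b (l 16755056) (l 16753584)) (l 16731016))) (a (a (b (l 16754872) (l 16752656)) (b (l 16737776) (l 16735424))) (b (l 16728016) (l 16725488))))) (b (b (b (l 16749960) (l 16746912)) (b (l 16743784) (l 16719512))) (b (b (l 16716064) (l 16712464)) (b (l 16709080) (l 16706176))))) (a (b (b (b (a (a (b (l 16759904) (l 16758816)) (l 16753424)) (l 16744728)) (a (a (b (l 16757680) (l 16756496)) (l 16750968)) (l 16742008))) (a (b (b (l 16762624) (l 16761312)) (b (l 16759952) (l 16758560))) (b (l 16739112) (l 16736064)))) (b (a (b (b (l 16757112) (l 16755632)) (a (l 16746240) (l 16739456))) (b (l 16732840) (l 16729472))) (a (a (b (l 16743520) (l 16741376))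 (b (l 16736584) (l 16734280))) (b (l 16726360) (l 16723832))))) (b (b (a (b (l 16733528) (l 16730432)) (l 16721144)) (b (l 16742368) (l 16717808))) (b (b (l 16714072) (l 16710200)) (a (l 16711568) (l 16698536)))))), by decide +kernel⟩

def k108_A00pm_012_s1 : ∃ t, chk3 f_A00pm_012_s1 t 11 5 1 = true :=
  ⟨(b (a (b (l 2) (a (b (l 2) (a (l 16717272) (l 2))) (l 2))) (l 2)) (a (b (a (b (a (l 16711032) (l 16700688)) (a (l 16703496) (l 16692848))) (b (l 16685584) (l 16677328))) (a (b (b (l 16691816) (l 16687456)) (a (l 16666560) (l 16675536))) (b (a (l 16672960) (l 16662472)) (l 16700256)))) (b (a (b (l 2) (l 16657376)) (l 2)) (a (b (l 16647192) (l 16636888)) (b (l 16627544) (l 16616584)))))), by decide +kernel⟩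

def k109_A00pm_012_s1 : ∃ t, chk3 f_A00pm_012_s1 t 80 12 1 = true :=
  ⟨(b (c (b (a (l 3) (a (l 3) (b (l 3) (c (l 531521663) (l 531315727))))) (a (a (l 3) (c (l 531560319) (l 531371647))) (a (c (l 531596671) (l 531675007)) (c (l 531630719) (b (l 531668863) (l 531743871)))))) (a (b (l 3) (b (l 3) (a (l 3) (a (b (l 3) (l 532126847)) (a (l 531985167) (l 531993471)))))) (b (b (l 3) (b (a (l 3) (a (l 3) (a (l 3) (l 531704191)))) (a (l 3) (a (c (l 531552383) (a (l 3) (c (l 531772031) (l 531834383)))) (l 531753599))))) (b (b (a (a (l 3) (b (l 3) (l 531854095))) (c (a (l 531733887) (l 531748479)) (a (a (l 531847807) (l 531854607)) (l 531864847)))) (a (c (l 531755135) (a (l 531871359) (l 531886463))) (a (c (l 531778687) (l 531900799)) (l 531850879)))) (a (c (l 531817087) (l 531947647)) (a (l 531902591) (l 531916927))))))) (c (b (a (a (l 531674751) (l 531715199)) (a (l 531753087) (l 531788159))) (a (b (l 531491855) (l 531788303)) (a (l 531835263) (l 531871615)))) (b (a (a (b (c (l 531819135) (c (l 531924607) (l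 531734799))) (l 531955071)) (b (l 532058895) (l 531991935))) (a (l 531993615) (c (l 531955839) (l 532097151)))) (a (b (b (l 532019471) (l 532046351)) (a (l 532065663) (l 532102527))) (b (a (l 532084351) (l 532114815)) (l 532151567)))))), by decide +kernel⟩

def k110_A00pm_012_s1 : ∃ t, chk3 f_A00pm_012_s1 t 80 13 1 = true :=
  ⟨(b (c (a (b (a (l 531521407) (l 531833215)) (b (l 16743768) (l 16729096))) (b (l 531893519) (b (l 16739056) (l 16724448)))) (b (a (a (l 532127247) (l 532164223)) (l 532214543)) (a (b (l 16755912) (l 16752120)) (b (l 16751504) (l 16747776))))) (b (a (c (b (l 16745472) (l 16719352)) (b (l 16747944) (l 16743232))) (c (b (l 16719896) (l 16725288)) (b (l 16743656) (l 16718024)))) (b (a (c (l 16713736) (l 16717112)) (c (a (l 16731272) (l 16718504)) (l 16723328))) (c (a (a (l 16729856) (l 16717048)) (b (a (l 16726760) (c (l 16712896) (l 16725232))) (a (b (l 16724400) (l 16712128)) (b (l 16721528) (l 16719440))))) (a (l 16722072) (b (a (l 16730720) (l 16717944)) (a (l 16717240) (l 16714584)))))))),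 by decide +kernel⟩

def k111_A00pm_012_s1 : ∃ t, chk3 f_A00pm_012_s1 t 81 12 1 = true :=
  ⟨(b (a (b (c (a (l 531265407) (l 531559295)) (a (c (b (l 531588735) (l 531695487)) (b (a (b (l 3) (l 531577471)) (l 531424639)) (l 531467903))) (c (l 531667071) (b (l 531171967) (l 531825791))))) (c (a (b (l 531660159) (l 531731583)) (l 531725583)) (a (b (b (l 531555087) (l 531870335)) (l 531669007)) (b (l 531870591) (l 531960447))))) (b (a (c (l 531582335) (l 531198079)) (c (l 531601791) (l 531215119))) (a (c (l 531749759) (l 531670031)) (c (l 531770495) (l 531684479))))) (a (b (c (a (l 531820415) (l 531849343)) (a (l 532051727) (l 532074367))) (c (b (l 531900287) (l 16755840)) (b (l 532155151) (l 532199807)))) (a (b (l 531972991) (b (l 531782271) (l 16742344))) (b (l 530916479) (b (l 16748312) (l 16739968)))))), by decide +kernel⟩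

def k112_A00pm_012_s1 : ∃ t, chk3 f_A00pm_012_s1 t 81 13 1 = true :=
  ⟨(c (b (a (b (b (l 16741888) (l 16738240)) (b (l 16723904) (l 16730304))) (b (b (l 16737144) (l 16733528)) (b (l 16729696) (a (l 16737272) (l 16724400))))) (b (a (b (l 16725784) (a (l 16721848) (b (l 16731344) (l 16728648)))) (b (a (l 16722264) (b (l 16731536) (c (l 16717872) (l 16729824)))) (a (b (l 16718472) (a (l 16716304) (b (l 16726200) (l 16724480)))) (b (c (a (l 16726248) (l 16724672)) (l 16727056)) (c (l 16721992) (l 16723832)))))) (c (a (b (b (a (l 16727360) (a (l 16725536) (l 16724120))) (a (l 16718912) (l 16721112))) (a (b (l 16720360) (l 16716096)) (l 16714872))) (b (a (l 16730200) (l 16716328)) (l 16709792))) (a (b (b (a (l 16729016) (l 16726520)) (a (l 16725944) (l 16723040))) (b (a (l 16722344) (l 16719176)) (l 16716744))) (b (a (l 16732216) (l 16718536)) (l 16712432)))))) (b (a (b (l 531727375) (b (l 16747088) (l 16743400))) (b (b (l 16749296) (l 16746032)) (b (l 16742568) (l 16717912)))) (b (a (b (l 16718328) (c (l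 16723160) (l 16714600))) (b (c (l 16723336) (l 16725136)) (a (b (l 16711480) (l 16719336)) (b (l 16719408) (l 16706072))))) (a (a (b (b (l 16731904) (l 16718568)) (b (l 16715296) (l 16722216))) (b (b (l 16719056) (l 16715920)) (l 16710712))) (b (c (a (l 16723992) (l 16721032)) (l 16714696)) (a (l 16697408) (l 16715592))))))), by decide +kernel⟩

def k113_A00pm_012_s1 : ∃ t, chk3 f_A00pm_012_s1 t 82 12 1 = true :=
  ⟨(b (a (a (b (c (l 531601279) (l 531205903)) (l 531047951)) (b (c (l 531570047) (l 530887183)) (c (l 531755903) (l 531912319)))) (a (b (c (l 531521919) (l 531620623)) (c (l 531721743) (l 531853695))) (b (a (l 530972287) (l 530397967)) (c (b (l 16753408) (l 16750872)) (l 530845711))))) (c (a (b (a (l 531903359) (l 531890047)) (a (b (l 16750544) (l 16747352)) (b (l 16747960) (l 16744784)))) (b (a (b (l 16751064) (l 16748240)) (b (l 16748216) (l 16745432))) (a (b (l 16745272) (l 16742128)) (b (l 16732008) (l 16728888))))) (a (b (b (l 532060943) (l 16753312)) (b (l 16750496) (l 16747560))) (b (b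 (l 16739992) (l 16737376)) (b (l 16734624) (l 16731720)))))), by decide +kernel⟩

def k114_A00pm_012_s1 : ∃ t, chk3 f_A00pm_012_s1 t 82 26 1 = true :=
  ⟨(b (c (c (c (b (a (l 16731704) (a (l 16738272) (l 16725080))) (a (l 16727992) (a (l 16724088) (b (l 16732824) (a (l 16731600) (b (l 16730672) (a (l 16730024) (l 16729144)))))))) (b (a (l 16742528) (a (l 16738600) (l 16735872))) (a (l 16728400) (a (l 16734976) (b (l 16733184) (a (l 16732008) (b (l 16731064) (l 16730008)))))))) (b (a (l 16722120) (a (l 16739152) (l 16736408))) (a (l 16718600) (a (l 16735640) (b (l 16733800) (l 16731936)))))) (a (b (l 16744472) (l 16720240)) (b (l 16728664) (a (l 16737264) (c (l 16723408) (l 16714128)))))) (a (a (c (b (l 16726032) (c (l 16731824) (l 16733064))) (b (l 16738984) (l 16735272))) (c (c (b (l 16733472) (b (l 16725080) (a (l 16723496) (b (l 16727888) (l 16726480))))) (b (l 16734528) (b (l 16731520) (l 16729256)))) (b (l 16736448) (c (l 16721352) (l 16733512))))) (c (b (c (a (b (l 16726600) (a (l 16730480) (b (l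 16729600) (l 16728416)))) (b (a (b (l 16730280) (a (l 16729600) (l 16728728))) (l 16727984)) (l 16736848))) (a (b (l 16732840) (l 16730816)) (b (a (l 16730720) (l 16729072)) (l 16727616)))) (a (b (a (c (b (l 16728816) (l 16727536)) (l 16729400)) (l 16727064)) (a (l 16726136) (l 16724408))) (b (l 16724440) (l 16721792)))) (b (a (c (l 16722576) (l 16734504)) (b (a (l 16732576) (l 16731072)) (l 16729888))) (a (b (a (l 16731616) (l 16730128)) (l 16728712)) (l 16726800)))))), by decide +kernel⟩

def k115_A00pm_012_s1 : ∃ t, chk3 f_A00pm_012_s1 t 82 27 1 = true :=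
  ⟨(a (c (b (b (a (b (a (l 16729672) (b (l 16728968) (l 16727632))) (a (b (l 16727752) (l 16726240)) (l 16725352))) (b (a (c (l 16725992) (l 16727464)) (l 16725000)) (l 16722816))) (a (b (l 16722960) (l 16719552)) (l 16707440))) (b (a (l 16714088) (l 16710768)) (l 16704504))) (b (b (a (b (l 16721664) (l 16719248)) (b (l 16729344) (l 16726824))) (c (l 16712448) (l 16725504))) (b (l 16718144) (l 16669488)))) (c (b (b (a (b (l 16722432) (l 16719408)) (l 16717480)) (l 16691840)) (b (l 16705704) (l 16697864))) (b (b (l 16707960) (l 16718424)) (l 16709288)))), by decide +kernel⟩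

def k116_A00pm_012_s1 : ∃ t, chk3 f_A00pm_012_s1 t 166 24 1 = true :=
  ⟨(a (b (a (b (l 16750640) (l 16753624)) (b (l 16749016) (l 16741544))) (a (b (l 16751296) (l 16738376)) (b (l 16739240) (l 16736832)))) (a (b (b (l 16747352) (l 16745160)) (b (l 16742880) (l 16740504))) (b (b (l 16750912) (l 16748752)) (b (l 16741256) (l 16738912))))), by decide +kernel⟩

def k117_A00pm_012_s1 : ∃ t, chk3 f_A00pm_012_s1 t 166 25 2 = true :=
  ⟨(c (c (c (c (b (a (b (l 16745088) (l 16742272)) (b (l 16742112) (l 16728856))) (b (a (l 16739296) (a (l 16737128) (b (l 16736432) (l 16734904)))) (a (l 16725624) (a (b (l 16734792) (a (l 16733512) (b (l 16733200) (l 16732296)))) (b (a (l 16733680) (b (l 16733296) (l 16732336))) (a (l 16731840) (l 16730816))))))) (b (a (b (l 16745112) (l 16742304)) (b (l 16742128) (l 16728880))) (b (a (l 16739328) (a (l 16737160) (l 16730448))) (a (l 16725680) (a (b (l 16734832) (a (l 16733560) (l 16732784))) (b (a (l 16733720) (l 16732856)) (l 16731384))))))) (b (a (b (l 16745144) (l 16742344))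 (b (l 16742152) (l 16728912))) (b (a (l 16739392) (a (l 16737216) (l 16730496))) (a (l 16725760) (a (b (l 16734904) (l 16738480)) (b (a (l 16733792) (l 16732928)) (l 16731472))))))) (c (b (a (b (l 16745192) (l 16742416)) (b (l 16742184) (l 16739456))) (b (a (l 16739480) (a (l 16737296) (l 16725328))) (a (l 16736360) (a (b (l 16735000) (l 16733352)) (b (a (l 16733880) (l 16733024)) (l 16731600)))))) (b (a (b (l 16745248) (l 16742488)) (b (l 16742224) (l 16739512))) (b (a (l 16739576) (l 16731392)) (a (l 16736480) (a (l 16729032) (b (a (l 16733984) (l 16733136)) (l 16731736)))))))) (c (b (a (b (l 16745336) (l 16742616)) (b (l 16742296) (l 16739616))) (b (a (l 16739736) (l 16731528)) (a (l 16736680) (a (l 16729224) (b (l 16733720) (l 16731968)))))) (b (a (l 16733664) (a (l 16731384) (l 16729840))) (b (a (l 16739976) (l 16736992)) (a (l 16736976) (a (l 16734752) (b (l 16733984) (l 16732296)))))))), by decide +kernel⟩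

def k118_A00pm_012_s1 : ∃ t, chk3 f_A00pm_012_s1 t 166 25 3 = true :=
  ⟨(c (b (a (l 16733968) (a (l 16731656) (l 16730096))) (b (a (l 16740400) (l 16737376)) (a (l 16737488) (a (l 16735248) (b (l 16734448) (l 16732872)))))) (a (b (l 16744968) (l 16739688)) (b (l 16731336) (b (l 16738008) (l 16730016))))), by decide +kernel⟩

def k119_A00pm_012_s1 : ∃ t, chk3 f_A00pm_012_s1 t 166 13 1 = true :=
  ⟨(b (b (c (a (b (b (c (a (l 16734504) (c (l 16727696) (l 16733208))) (l 16734400)) (a (c (l 16727496) (l 16733448)) (c (a (b (l 16732128) (l 16731152)) (b (l 16731312) (l 16730224))) (l 16726664)))) (a (b (c (b (a (l 16731744) (l 16730968)) (a (l 16730752) (l 16729856))) (l 16731616)) (c (l 16728568) (l 16729552))) (b (c (l 16729016) (l 16729912)) (l 16727216)))) (b (a (b (c (a (b (l 16732400) (l 16731424)) (l 16730976)) (l 16726840)) (l 16729712)) (b (l 16729848) (l 16727800))) (a (l 16726480) (l 16724576)))) (a (b (b (l 16735616) (l 16728792)) (b (a (l 16733144) (l 16731592)) (l 16709624))) (b (a (b (l 16733352)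 (l 16731712)) (l 16730920)) (l 16728336)))) (a (b (c (b (l 16725800) (l 16723392)) (l 16727792)) (c (l 16719576) (l 16723784))) (b (c (l 16720896) (l 16724688)) (l 16697184)))) (c (b (a (l 16689880) (l 16707208)) (l 16652944)) (b (l 16715264) (l 16703688)))), by decide +kernel⟩

def k120_A00pm_012_s1 : ∃ t, chk3 f_A00pm_012_s1 t 167 24 1 = true :=
  ⟨(b (b (c (a (l 16748520) (l 16745200)) (a (l 16748296) (l 16744816))) (c (a (l 16746336) (l 16743088)) (a (l 16746264) (l 16742856)))) (c (b (b (a (l 16744640) (a (a (a (l 16742840) (a (l 16742544) (a (a (l 16742416) (b (l 16742648) (l 16742080))) (l 16742288)))) (l 16741832)) (l 16740632))) (a (l 16743480) (a (a (a (l 16741696) (a (l 16741392) (a (a (l 16736000) (b (l 16736224) (l 16740800))) (l 16741016)))) (l 16740576)) (l 16739392)))) (a (l 16741680) (a (a (a (b (l 16740520) (a (l 16739416) (l 16733936))) (a (b (a (l 16740264) (l 16734872)) (a (l 16738952) (l 16738728))) (b (l 16739800) (l 16738384)))) (l 16738488)) (l 16737328)))) (b (a (l 16744152) (a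 (a (a (l 16742272) (a (l 16741960) (a (a (l 16736576) (b (l 16742304) (l 16741224))) (l 16741680)))) (l 16730720)) (l 16729464))) (a (l 16741944) (a (a (a (b (l 16740656) (l 16739536)) (a (b (l 16740336) (l 16739184)) (l 16739488))) (l 16738944)) (l 16737720)))))), by decide +kernel⟩

def k121_A00pm_012_s1 : ∃ t, chk3 f_A00pm_012_s1 t 334 25 1 = true :=
  ⟨(a (b (c (b (l 16739944) (b (l 16737968) (c (a (l 16736864) (l 16736104)) (l 16736728)))) (b (l 16740432) (l 16727480))) (b (c (b (c (a (l 16735416) (b (a (l 16735224) (l 16734760)) (l 16734144))) (a (l 16735728) (l 16734880))) (a (c (b (a (l 16734488) (l 16734040)) (l 16733384)) (l 16734208)) (l 16733000))) (b (l 16736016) (l 16734632))) (c (b (a (l 16732208) (l 16731192)) (l 16729816)) (l 16732408)))) (a (b (c (b (l 16738792) (b (c (a (l 16736944) (l 16736528)) (l 16736912)) (a (b (l 16735976) (l 16735208)) (l 16735072)))) (b (l 16739224) (b (l 16737416) (l 16736128)))) (b (c (b (l 16733664) (l 16731928)) (l 16734056)) (l 16719576))) (a (a (b (b (c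 (l 16733064) (l 16738728)) (b (c (b (l 16736648) (l 16735864)) (l 16736896)) (l 16735040))) (b (l 16722240) (l 16729440))) (a (b (b (c (b (l 16738808) (l 16737520)) (l 16738576)) (b (c (l 16736048) (l 16736728)) (l 16734848))) (b (l 16732528) (l 16729248))) (a (b (b (c (b (l 16738736) (l 16737440)) (l 16738496)) (b (l 16736232) (l 16734752))) (b (l 16732432) (l 16729152))) (b (b (c (b (l 16738688) (l 16737384)) (l 16738448)) (b (l 16736160) (l 16734688))) (b (l 16732368) (l 16729088)))))) (b (b (c (b (l 16733208) (b (l 16732200) (l 16736704))) (b (l 16738808) (l 16737600))) (c (l 16729472) (l 16735672))) (b (l 16732064) (l 16728784)))))), by decide +kernel⟩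

def k122_A00pm_012_s1 : ∃ t, chk3 f_A00pm_012_s1 t 335 25 1 = true :=
  ⟨(a (a (b (a (b (b (c (a (l 16732856) (l 16737776)) (l 16738368)) (c (l 16736432) (l 16737128))) (c (l 16734056) (l 16735192))) (b (c (b (l 16726656) (l 16735624)) (l 16737224)) (l 16723384))) (a (b (l 16731488) (l 16728208)) (c (b (l 16729856) (l 16715728)) (b (l 16731960) (a (l 16729208) (l 16728936)))))) (a (a (b (b (l 16736272) (l 16733400)) (b (l 16730336) (c (l 16725648) (l 16728712)))) (a (b (b (l 16736120) (l 16733256)) (b (l 16730192) (c (l 16725512) (l 16728568)))) (a (b (b (l 16736048) (l 16733184)) (b (l 16730120) (c (l 16725448) (l 16728496)))) (b (b (l 16736000) (l 16733136)) (b (l 16730080) (c (l 16725400) (l 16728456))))))) (b (b (l 16735784) (l 16732920)) (b (l 16729864) (c (l 16725200) (l 16728240)))))) (b (b (l 16734808) (l 16731968)) (b (l 16707960) (c (l 16724304) (l 16727312))))), by decide +kernel⟩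

def k123_A00pm_012_s1 : ∃ t, chk3 f_A00pm_012_s1 t 334 26 1 = true :=
  ⟨(b (b (a (c (l 16726840) (l 16729280)) (l 16705024)) (a (l 16724128) (l 16722192))) (b (a (l 16720000) (l 16697112)) (c (l 16711800) (l 16717608)))), by decide +kernel⟩

def k124_A00pm_012_s1 : ∃ t, chk3 f_A00pm_012_s1 t 670 26 1 = true :=
  ⟨(a (b (a (b (l 16724680) (l 16699904)) (c (a (b (l 16722512) (l 16718248)) (b (l 16711536) (c (l 16716760) (l 16718824)))) (b (c (l 16724952) (l 16721864)) (a (l 16722824) (c (l 16721224) (b (l 16724752) (l 16723184))))))) (c (a (b (l 16714272) (l 16709280)) (a (b (l 16713640) (l 16708640)) (b (c (l 16711904) (l 16703976)) (b (b (l 16710064) (l 16708792)) (b (l 16707488) (l 16706136)))))) (a (c (l 16695160) (l 16709008)) (b (a (l 16708784) (c (l 16717392) (c (l 16719856) (l 16716376)))) (b (a (l 16716432) (c (l 16714328) (l 16718120))) (a (l 16714408) (c (l 16712144) (l 16716264)))))))) (a (a (b (c (b (l 16721696) (l 16717432)) (b (l 16715144) (c (l 16720976) (l 16723784)))) (c (b (l 16723296)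 (b (l 16709104) (l 16706488))) (b (b (l 16719704) (l 16723112)) (b (l 16721200) (l 16719184))))) (a (b (c (b (l 16721568) (l 16717296)) (b (l 16725496) (c (l 16720848) (l 16723648)))) (c (b (l 16712680) (b (l 16708984) (l 16706368))) (b (c (l 16717016) (l 16715160)) (b (l 16721072) (l 16724296))))) (a (b (c (b (l 16721504) (l 16717232)) (b (l 16725424) (c (l 16720776) (l 16723584)))) (c (b (l 16712616) (b (l 16708920) (l 16706304))) (b (c (l 16716952) (l 16715096)) (b (l 16721008) (l 16724232))))) (b (c (b (l 16721456) (l 16717192)) (b (l 16725384) (c (l 16720736) (l 16723536)))) (c (b (l 16712576) (b (l 16708880) (l 16706264))) (b (c (l 16716912) (l 16715056)) (b (l 16720968) (l 16724192)))))))) (b (c (b (l 16721256) (l 16717000)) (b (l 16725176) (c (l 16720536) (l 16723336)))) (c (b (l 16712392) (b (l 16708696) (l 16706080))) (b (c (l 16716720) (l 16714856)) (b (l 16720776) (l 16724008))))))), by decide +kernel⟩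

def k125_A00pm_012_s1 : ∃ t, chk3 f_A00pm_012_s1 t 671 26 1 = true :=
  ⟨(b (c (b (l 16720384) (l 16716144)) (b (l 16713784) (c (l 16719656) (l 16722440)))) (c (b (l 16706304) (c (l 16705064) (l 16708192))) (b (b (l 16718400) (l 16721816)) (b (l 16719928) (l 16717928))))), by decide +kernel⟩

def k126_A00pm_012_s1 : ∃ t, chk3 f_A00pm_012_s1 t 334 27 1 = true :=
  ⟨(a (b (b (l 16710512) (l 16662872)) (b (l 16656488) (l 16649424))) (a (b (b (l 16667208) (l 16661520)) (b (l 16655160) (l 16648104))) (a (a (b (b (l 16666608) (l 16660928)) (b (l 16654568) (l 16647528))) (a (b (b (l 16666416) (l 16660744)) (b (l 16654384) (l 16647344))) (a (b (b (l 16666328) (l 16660648)) (b (l 16654296) (l 16647256))) (b (b (l 16666264) (l 16660584)) (b (l 16654232) (l 16647192)))))) (b (b (l 16686936) (l 16681264)) (b (l 16674912) (l 16646904)))))), by decide +kernel⟩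

def k127_A00pm_012_s1 : ∃ t, chk3 f_A00pm_012_s1 t 1340 27 1 = true :=
  ⟨(b (c (a (b (l 16703704) (l 16697424)) (b (a (l 16703064) (b (b (l 16704736) (l 16703296)) (b (l 16701816) (l 16695040)))) (a (l 16686296) (b (b (l 16693472) (l 16691856)) (b (l 16690192) (l 16688488)))))) (a (b (l 16711432) (l 16706432)) (b (b (a (l 16712232) (c (l 16709808) (l 16714256))) (a (l 16709896) (c (l 16707304) (l 16712096)))) (c (a (l 16703560) (l 16703232)) (b (l 16709872) (l 16707392)))))) (c (a (b (l 16690432) (l 16682728)) (c (b (a (l 16687480) (b (l 16688800) (l 16684968))) (a (l 16679456) (b (l 16680960) (l 16676768)))) (b (a (l 16692232) (b (l 16693520) (l 16690008))) (a (l 16684864) (l 16679168))))) (b (a (l 16700784) (a (l 16679464) (c (l 16697232) (l 16703280)))) (a (l 16694480) (c (l 16690728) (l 16697464)))))), by decide +kernel⟩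

def k128_A00pm_012_s1 : ∃ t, chk3 f_A00pm_012_s1 t 1341 27 1 = true :=
  ⟨(a (a (b (b (c (b (l 16703696) (l 16700728)) (b (l 16722248) (l 16719912))) (c (b (l 16697584) (l 16694264)) (b (l 16706928) (l 16704272)))) (b (c (b (l 16690768) (l 16687088)) (b (l 16701456) (l 16698472))) (c (b (l 16683240) (l 16679208)) (l 16672720)))) (a (b (b (c (b (l 16703576) (l 16700608)) (c (l 16708208) (l 16718136))) (c (b (l 16697464) (l 16694144)) (b (l 16706808) (l 16704152)))) (b (c (b (l 16690648) (l 16686976)) (b (l 16701336) (l 16698360))) (c (b (l 16683128) (l 16679096)) (l 16672600)))) (a (b (b (c (b (l 16703512) (l 16700544)) (c (l 16708144) (l 16718072))) (c (b (l 16697408) (l 16694088)) (b (l 16706752) (l 16704096)))) (b (c (b (l 16690592) (l 16686920)) (b (l 16701280) (l 16698304))) (c (b (l 16683064) (l 16679040)) (l 16672544)))) (b (b (c (b (l 16703472) (l 16700504)) (c (l 16708104) (l 16718032))) (c (b (l 16697368) (l 16694048)) (b (l 16706712) (l 16704056)))) (b (c (b (l 16690552) (l 16686880)) (b (l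 16701240) (l 16698264))) (c (b (l 16683032) (l 16679000)) (l 16672512))))))) (c (b (b (b (l 16703288) (l 16700328)) (b (l 16697184) (l 16693872))) (b (b (l 16690376) (l 16686704)) (b (l 16682856) (l 16678832)))) (b (b (c (l 16707920) (l 16717848)) (b (l 16706528) (l 16703880))) (b (b (l 16701064) (l 16698088)) (l 16672344))))), by decide +kernel⟩

def k129_A00pm_012_s1 : ∃ t, chk3 f_A00pm_012_s1 t 671 27 1 = true :=
  ⟨(c (b (b (b (l 16702480) (l 16699528)) (c (l 16692672) (l 16696976))) (b (b (l 16689600) (l 16685936)) (b (l 16682096) (l 16678080)))) (b (b (b (l 16721008) (l 16718688)) (c (l 16701800) (l 16707184))) (b (b (l 16700288) (l 16697320)) (l 16671592)))), by decide +kernel⟩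

def k130_A00pm_012_s1 : ∃ t, chk3 f_A00pm_012_s1 t 21 12 1 = true :=
  ⟨(b (a (b (a (a (b (b (l 16740296) (l 16739376)) (c (l 16738184) (l 16737704))) (b (c (l 16733472) (l 16732464)) (l 16720672))) (b (c (l 16723440) (l 16721904)) (c (l 16721600) (l 16720248)))) (b (c (a (a (b (l 16736608) (l 16735432)) (l 16740064)) (l 16719840)) (a (a (b (l 16736264) (l 16735248)) (l 16728992)) (l 16718736))) (c (a (b (l 16730960) (l 16729624)) (l 16717664)) (a (l 16709360) (l 16717008))))) (b (a (c (l 16730288) (l 16707184)) (b (l 16695864) (l 16693760))) (a (b (a (l 16688096) (l 16702312)) (c (l 16704864) (l 16703472))) (b (l 16692168) (l 16669736))))) (a (a (c (b (b (l 16727520) (l 16724536)) (b (l 16721320) (l 16702112))) (b (b (l 16728128) (l 16725784)) (b (l 16702296) (a (l 16713088) (l 16717560))))) (b (b (l 16715056) (l 16712656)) (b (l 16689072) (c (l 16706240) (l 16708464))))) (b (b (a (l 16702192) (l 16689152)) (a (l 16700080) (l 16687336))) (a (b (l 16697760) (l 16695216)) (l 16652752))))), by decide +kernel⟩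

def k131_A00pm_012_s1 : ∃ t, chk3 f_A00pm_012_s1 t 42 13 1 = true :=
  ⟨(b (b (b (c (a (a (l 16716872) (l 16711216)) (l 16702712)) (a (a (a (l 16711592) (l 16719152)) (l 16714752)) (l 16684912))) (c (a (a (l 16712704) (l 16707176)) (l 16698856)) (a (a (c (l 16716128) (a (l 16720288) (l 16717416))) (c (l 16710448) (l 16713080))) (a (l 16705960) (l 16700168))))) (b (a (a (c (a (l 16709528) (l 16706832)) (c (l 16712416) (b (l 16716544) (l 16714920)))) (c (l 16702784) (c (l 16706872) (l 16710120)))) (c (l 16694648) (a (l 16702832) (l 16697184)))) (a (a (b (c (l 16704552) (c (l 16709432) (l 16713240))) (c (l 16701984) (c (l 16707320) (l 16711456)))) (c (l 16698000) (c (l 16702984) (l 16706888)))) (c (l 16690048) (a (l 16678448) (l 16693920)))))) (a (b (a (b (b (c (l 16699240) (c (l 16705040) (l 16709520))) (c (l 16696320) (c (l 16702592) (l 16707424)))) (a (c (b (l 16694488) (l 16691200)) (c (l 16699888) (l 16694784))) (c (l 16690336) (c (l 16697336) (l 16702704))))) (b (c (l 16692624) (c (l 16698576) (l 16703176)))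 (c (l 16686536) (b (l 16697336) (l 16694816))))) (c (a (b (b (l 16681248) (l 16677624)) (b (l 16673816) (l 16664584))) (b (l 16679744) (l 16672232))) (b (a (c (l 16692736) (l 16688376)) (a (l 16671008) (l 16689480))) (a (a (l 16669784) (l 16667368)) (l 16663744))))) (c (b (b (l 16684856) (l 16678936)) (b (a (l 16674784) (l 16669816)) (a (l 16667384) (l 16662528)))) (b (b (a (l 16674528) (l 16690152)) (a (l 16669968) (l 16685744))) (b (a (l 16685728) (l 16680696)) (l 16656464)))))), by decide +kernel⟩

def k132_A00pm_012_s1 : ∃ t, chk3 f_A00pm_012_s1 t 43 13 1 = true :=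
  ⟨(c (b (a (b (l 16668520) (b (l 16683712) (l 16679368))) (b (l 16678048) (l 16670696))) (a (b (b (l 16674416) (l 16668752)) (b (l 16662352) (l 16655240))) (b (l 16661272) (l 16648992)))) (b (b (a (b (l 16693912) (l 16691408)) (l 16680704)) (a (a (l 16669024) (l 16642416)) (l 16654880))) (b (a (b (l 16682088) (l 16677912)) (b (l 16671208) (l 16667352))) (a (b (l 16673096) (l 16667624)) (l 16628896))))), by decide +kernel⟩

def k133_A00pm_012_s1 : ∃ t, chk3 f_A00pm_012_s1 t 11 6 1 = true :=
  ⟨(b (b (a (b (a (c (l 16656384) (l 16673664)) (l 16693048)) (a (a (b (l 16678776) (l 16677320)) (l 16654376)) (c (l 16732176) (l 16559744)))) (a (b (l 16628288) (l 16621952)) (b (l 16607208) (l 16599512)))) (a (c (b (a (l 16711656) (l 16602696)) (a (l 16665832) (l 16640872))) (b (a (l 16667440) (l 16640840)) (a (l 16665392) (l 16638880)))) (b (a (c (l 16620048) (l 16614840)) (l 16509984)) (a (l 16614440) (l 16505768))))) (b (a (b (a (c (l 16660680) (l 16630984)) (a (l 16643144) (l 16630784))) (a (a (a (l 16622648)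 (l 16616984)) (l 16608424)) (a (l 16638808) (l 16627072)))) (b (a (l 16611824) (l 16503128)) (a (l 16567240) (l 16584536)))) (a (c (b (a (a (l 16650800) (l 16640216)) (l 16624144)) (a (a (l 16639032) (l 16628992)) (l 16613776))) (a (b (a (l 16658488) (l 16647472)) (a (l 16650136) (l 16639792))) (b (l 16630656) (l 16540104)))) (b (a (l 16562616) (l 16581320)) (a (l 16534328) (l 16491432)))))), by decide +kernel⟩

def k134_A00pm_012_s1 : ∃ t, chk3 f_A00pm_012_s1 t 40 14 1 = true :=
  ⟨(b (a (b (b (a (a (b (l 16716624) (c (b (l 16722632) (l 16720696)) (l 16715608))) (b (c (b (l 16723544) (l 16721696)) (l 16716464)) (c (b (l 16719624) (l 16717392)) (l 16712864)))) (c (b (a (b (l 16720632) (l 16718472)) (l 16716224)) (a (l 16715160) (l 16711824))) (b (a (l 16713768) (l 16721384)) (l 16708520)))) (c (a (b (c (l 16714536) (l 16716872)) (a (l 16712696) (l 16709312))) (b (l 16708944) (l 16704264))) (a (b (a (l 16722344) (l 16719408)) (l 16706320)) (b (l 16694096) (l 16711008))))) (c (a (b (c (l 16702240) (l 16705272))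 (c (l 16691712) (l 16695344))) (b (c (l 16695280) (l 16698744)) (l 16686728))) (b (a (b (l 16691632) (l 16708272)) (l 16683704)) (a (b (l 16703808) (l 16699208)) (l 16695784))))) (c (b (a (b (b (l 16721744) (l 16706848)) (b (l 16702288) (l 16697600))) (b (l 16681512) (l 16693352))) (b (a (l 16690288) (l 16683664)) (a (l 16680040) (l 16673408)))) (b (b (a (a (l 16695664) (l 16713808)) (l 16688648)) (a (l 16686392) (l 16701792))) (b (a (l 16699016) (l 16693472)) (a (l 16690160) (l 16684656)))))) (b (c (a (b (a (l 16682632) (l 16675880)) (a (l 16671184) (l 16664440))) (a (b (l 16669200) (l 16657776)) (b (l 16662576) (l 16651160)))) (a (b (a (l 16671072) (l 16686352)) (a (l 16682032) (l 16676392))) (b (l 16646568) (l 16636688)))) (a (a (b (c (l 16658784) (l 16671112)) (c (l 16644936) (l 16658760))) (b (c (l 16652064) (l 16665528)) (c (l 16638248) (l 16653240)))) (c (b (a (l 16645416) (l 16638824)) (a (l 16631632) (l 16625080))) (b (l 16625912) (a (l 16647848) (l 16642568))))))), by decide +kernel⟩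

def k135_A00pm_012_s1 : ∃ t, chk3 f_A00pm_012_s1 t 41 28 1 = true :=
  ⟨(a (b (a (b (a (l 16680344) (l 16656368)) (a (l 16650864) (l 16647848))) (b (l 16651816) (l 16643304))) (a (b (l 16640328) (l 16630776)) (b (l 16634296) (l 16624760)))) (a (b (c (l 16635960) (l 16647544)) (c (l 16616496) (l 16589152))) (b (a (b (c (l 16676768) (l 16689152)) (c (l 16667624) (l 16681488))) (a (a (b (a (b (l 16640632) (l 16636600)) (c (a (l 16663176) (c (c (l 16679168) (l 16671616)) (l 16676336))) (a (l 16687176) (l 16665960)))) (a (b (l 16632392) (l 16628024)) (c (a (l 16664528) (b (l 16655880) (l 16661632))) (l 16658464)))) (a (c (a (c (b (l 16669776) (l 16660304)) (b (l 16676040) (l 16667264))) (a (b (b (l 16674888) (l 16670504)) (c (l 16660192) (l 16667160))) (a (b (b (l 16674832) (l 16670448)) (c (l 16660136) (l 16667104))) (b (b (l 16674792) (l 16670408)) (c (l 16660104) (l 16667064)))))) (b (l 16665696) (l 16679048))) (c (b (b (l 16674632) (l 16670248)) (c (l 16659936) (l 16666904))) (b (l 16686376) (l 16678768)))))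 (c (b (c (l 16668664) (l 16674936)) (b (l 16664952) (l 16660224))) (b (l 16664672) (l 16678056))))) (a (b (c (l 16657880) (l 16673288)) (c (l 16647608) (l 16664624))) (a (a (b (c (a (l 16655424) (c (a (l 16651136) (l 16650560)) (l 16658408))) (l 16650480)) (c (a (l 16645160) (c (l 16619248) (l 16648520))) (l 16662792))) (a (a (b (c (l 16653944) (l 16670944)) (c (l 16643680) (l 16662288))) (a (b (c (l 16653840) (l 16670832)) (c (l 16643568) (l 16662184))) (a (b (c (l 16653784) (l 16670784)) (c (l 16643520) (l 16662128))) (b (c (l 16653744) (l 16670752)) (c (l 16643480) (l 16662096)))))) (b (c (l 16653584) (l 16670592)) (b (l 16612672) (l 16607800))))) (b (c (l 16642376) (l 16669888)) (b (l 16611960) (l 16607088)))))))), by decide +kernel⟩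

def k136_A00pm_012_s1 : ∃ t, chk3 f_A00pm_012_s1 t 41 29 1 = true :=
  ⟨(a (b (a (b (l 16620680) (l 16610056)) (b (l 16572744) (l 16562152))) (b (a (l 16598528) (l 16550664)) (c (l 16615184) (l 16634824)))) (a (b (b (l 16608592) (l 16556088)) (b (l 16544656) (l 16531840))) (b (c (b (a (l 16636800) (b (b (l 16616104) (l 16613368)) (l 16619680))) (a (l 16625456) (b (l 16582544) (l 16576728)))) (a (l 16608896) (b (l 16652816) (l 16643200)))) (c (b (a (l 16613224) (l 16588440)) (a (l 16599632) (l 16595848))) (a (l 16629496) (l 16584992)))))), by decide +kernel⟩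

def k137_A00pm_012_s1 : ∃ t, chk3 f_A00pm_012_s1 t 21 14 1 = true :=
  ⟨(b (c (b (a (a (b (a (c (l 16665696) (l 16671976)) (l 16664008)) (c (a (l 16656288) (l 16651640)) (l 16650480))) (b (l 16656896) (l 16648112))) (a (b (l 16647400) (l 16638832)) (l 16591832))) (a (a (b (c (l 16664888) (l 16651688)) (c (l 16633256) (l 16641792))) (b (l 16638568) (l 16628376))) (a (a (l 16668712) (l 16622344)) (l 16615648)))) (a (b (b (a (b (l 16661176) (l 16657632)) (l 16629040)) (a (a (l 16633280) (l 16670688)) (l 16663864))) (a (b (l 16622968) (l 16614352)) (b (l 16656040) (l 16647624)))) (b (b (l 16625280) (l 16608152)) (b (l 16600832) (l 16550808))))) (a (b (c (b (a (l 16626608) (l 16617560)) (a (l 16615280) (l 16606240))) (b (l 16600984) (l 16591472))) (c (b (a (l 16603088) (l 16594072)) (l 16585048)) (a (l 16579576) (l 16529320)))) (c (b (b (l 16604448) (l 16593216)) (b (l 16581024) (l 16567552))) (b (a (l 16541912) (l 16533648)) (l 16517240))))), by decide +kernel⟩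

def k138_A00pm_012_s1 : ∃ t, chk3 f_A00pm_012_s1 t 11 14 1 = true :=
  ⟨(b (a (c (a (b (a (l 16624320) (l 16614816)) (a (l 16606672) (l 16597672))) (b (l 16600432) (l 16584104))) (b (a (a (l 16639192) (l 16629512)) (l 16530872)) (a (l 16579176) (l 16519000)))) (b (a (l 16503280) (l 16482688)) (a (l 16490400) (l 16471160)))) (a (b (a (b (l 16524312) (b (l 16506496) (l 16501336))) (b (l 16496552) (l 16487344))) (a (c (l 16473984) (l 16501680)) (b (l 16477096) (l 16465240)))) (b (a (l 16474856) (l 16456992)) (a (l 16455376) (l 16438912))))), by decide +kernel⟩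

def k139_A00pm_012_s1 : ∃ t, chk3 f_A00pm_012_s1 t 10 30 1 = true :=
  ⟨(a (a (b (a (a (c (b (l 16629824) (c (l 16609960) (l 16617632))) (b (b (l 16648664) (l 16641592)) (b (l 16634288) (l 16626792)))) (b (c (l 16623176) (l 16639712)) (c (l 16586144) (b (l 16628912) (l 16621464))))) (c (b (a (l 16616608) (l 16610088)) (a (l 16600592) (l 16594136))) (a (b (l 16634400) (l 16619976)) (b (l 16629192) (l 16614864))))) (a (c (b (a (a (l 16588032) (l 16584744)) (b (l 16594592) (l 16586088))) (a (c (b (l 16579608) (l 16570792)) (b (l 16588544) (l 16580080))) (b (l 16577504) (l 16553168)))) (a (c (b (l 16610360) (b (l 16598336) (l 16590256))) (b (l 16620376) (c (l 16581376) (l 16587024)))) (b (b (l 16613872) (l 16606160)) (b (l 16598392) (l 16590568))))) (b (c (a (l 16573408) (l 16535560)) (c (l 16586104) (l 16608392))) (a (c (b (l 16571112) (l 16562552)) (b (l 16593344) (l 16585584))) (c (b (l 16564784) (l 16556264)) (b (l 16588408) (l 16580712))))))) (b (c (a (a (b (l 16603600) (l 16587704)) (l 16547288)) (a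 (l 16582528) (a (l 16577056) (b (l 16581096) (l 16565440))))) (a (b (l 16621568) (l 16565424)) (a (l 16523272) (a (l 16603408) (l 16600936))))) (a (a (c (b (l 16571144) (l 16533264)) (b (l 16594968) (l 16579752))) (b (c (l 16564760) (l 16590144)) (c (l 16547936) (l 16575040)))) (a (b (a (l 16488776) (l 16485880)) (c (l 16541456) (l 16570376))) (c (a (l 16460576) (l 16540840)) (a (l 16490384) (l 16571904))))))) (b (a (c (b (l 16570344) (l 16554752)) (l 16507816)) (c (b (l 16552928) (l 16537424)) (l 16492136))) (a (c (b (l 16538552) (l 16522088)) (l 16479160)) (c (l 16429288) (l 16464176))))), by decide +kernel⟩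

def k140_A00pm_012_s1 : ∃ t, chk3 f_A00pm_012_s1 t 40 62 1 = true :=
  ⟨(a (c (a (b (a (b (l 16568320) (l 16559752)) (b (l 16565104) (l 16556560))) (c (b (l 16544648) (a (l 16537792) (l 16534496))) (b (l 16554968) (a (l 16548328) (l 16545344))))) (b (b (c (l 16555328) (l 16565568)) (c (l 16546648) (l 16557240))) (b (c (l 16538072) (l 16549016)) (c (l 16529608) (l 16540944))))) (b (a (c (b (l 16582184) (l 16574168)) (b (l 16593640) (l 16575536))) (b (c (l 16576784) (l 16588968)) (c (l 16568824) (l 16581408)))) (a (b (c (l 16566264) (a (l 16579680) (l 16577376))) (c (a (l 16559856) (l 16557208)) (a (l 16572360) (l 16570088)))) (b (c (l 16560992) (l 16573984)) (c (l 16553328) (l 16566760)))))) (b (c (a (b (l 16533056) (c (l 16540088) (l 16551320))) (a (l 16529392) (l 16521048))) (a (b (l 16577824) (l 16570136)) (b (l 16573016) (l 16565384)))) (c (a (b (c (l 16531560) (l 16543152)) (c (l 16523152) (l 16535136))) (b (l 16510112) (l 16501960))) (a (b (c (l 16555824) (l 16569576)) (c (l 16548224) (l 16562432)))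 (b (l 16557880) (l 16545336)))))), by decide +kernel⟩

def k141_A00pm_012_s1 : ∃ t, chk3 f_A00pm_012_s1 t 40 63 1 = true :=
  ⟨(a (c (b (a (b (c (a (l 16529504) (l 16526200)) (a (l 16540464) (l 16537472))) (c (a (l 16521544) (l 16518192)) (a (l 16532976) (l 16529936)))) (b (c (a (l 16522928) (l 16519704)) (l 16533064)) (c (a (l 16514888) (l 16511656)) (a (l 16526960) (l 16524048))))) (a (b (c (c (l 16509368) (l 16515160)) (a (l 16525912) (l 16522848))) (c (c (l 16501960) (l 16508072)) (c (l 16514464) (l 16521136)))) (b (c (a (l 16507216) (l 16503936)) (a (l 16519840) (l 16516880))) (c (c (l 16495096) (l 16501520)) (c (l 16508232) (l 16515240)))))) (b (a (b (c (a (l 16552432) (l 16549784)) (a (l 16565416) (l 16563136))) (c (a (l 16545456) (l 16542760)) (a (l 16558976) (l 16556648)))) (b (c (l 16545896) (a (l 16560904) (l 16558736))) (c (a (l 16540128) (l 16537576)) (a (l 16554392) (l 16552224))))) (c (a (b (a (l 16538976) (l 16536248)) (a (l 16533048) (l 16530304))) (b (a (l 16533592) (l 16530992)) (a (l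 16527624) (l 16525000)))) (a (b (a (l 16553112) (l 16550760)) (a (l 16547896) (l 16545528))) (b (a (l 16548472) (l 16546256)) (a (l 16543224) (l 16540984))))))) (c (c (b (a (b (l 16514912) (l 16506864)) (b (l 16508576) (l 16500592))) (a (b (a (l 16500712) (l 16497544)) (c (l 16488424) (l 16495160))) (b (l 16492840) (a (l 16487000) (l 16483896))))) (b (a (b (l 16527328) (l 16519760)) (b (l 16521664) (l 16514168))) (a (b (l 16512584) (l 16505840)) (b (l 16506976) (l 16500232))))) (b (a (b (c (l 16540872) (l 16555568)) (c (l 16533816) (l 16549056))) (c (l 16516680) (l 16537672))) (a (c (b (l 16527232) (l 16521176)) (b (l 16543088) (l 16537744))) (c (b (l 16522368) (l 16516304)) (b (l 16539032) (l 16533688))))))), by decide +kernel⟩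

def k142_A00pm_012_s1 : ∃ t, chk3 f_A00pm_012_s1 t 41 31 1 = true :=
  ⟨(b (a (a (c (b (c (l 16531336) (l 16543728)) (a (l 16501464) (l 16498432))) (b (b (l 16568304) (l 16560736)) (b (l 16553304) (l 16546072)))) (c (b (l 16510216) (c (l 16508048) (l 16521944))) (b (l 16559904) (l 16539952)))) (a (b (c (l 16482872) (l 16555368)) (c (l 16487624) (l 16540784))) (c (a (a (l 16470560) (l 16468672)) (b (l 16516136) (l 16500120))) (a (a (l 16461272) (l 16543992)) (l 16458432))))) (a (a (b (c (a (b (l 16510496) (l 16502808)) (b (l 16507512) (l 16499864))) (b (l 16528616) (l 16521992))) (c (b (c (l 16486672) (l 16501512)) (c (l 16479272) (l 16494760))) (c (l 16493576) (l 16521912)))) (c (b (a (l 16479704) (l 16476728)) (c (a (l 16478320) (l 16475232)) (l 16492672))) (b (b (l 16534760) (l 16528208)) (b (l 16522080) (l 16516448))))) (a (b (c (a (l 16494680) (l 16491576)) (l 16516688)) (c (a (l 16459192) (l 16435208)) (a (l 16516128) (l 16514088)))) (a (c (b (l 16488168) (l 16431920)) (b (l 16523944) (l 16512000)))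 (b (c (l 16400952) (l 16521824)) (c (l 16428696) (l 16509960))))))), by decide +kernel⟩

def k143_A00pm_012_s1 : ∃ t, chk3 f_A00pm_012_s1 t 21 31 1 = true :=
  ⟨(c (b (a (a (l 16502016) (l 16493368)) (a (l 16484984) (l 16476856))) (a (b (l 16390856) (a (l 16464896) (l 16456552))) (b (l 16374432) (l 16360688)))) (b (a (b (l 16541104) (l 16526952)) (l 16435864)) (a (b (l 16513808) (l 16502248)) (a (l 16413872) (l 16491368))))), by decide +kernel⟩

def k144_A00pm_012_s1 : ∃ t, chk3 f_A00pm_012_s1 t 11 15 1 = true :=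
  ⟨(b (a (b (a (b (l 16467360) (l 16453064)) (b (l 16452216) (l 16438208))) (c (a (l 16497024) (l 16481768)) (b (l 16449944) (l 16436272)))) (b (a (l 16430432) (l 16415560)) (c (a (l 16467344) (l 16453136)) (l 16416688)))) (b (a (c (a (l 16381272) (l 16366408)) (a (l 16422448) (l 16409680))) (c (a (l 16436256) (l 16422984)) (b (l 16397784) (l 16385848)))) (a (c (a (b (l 16442904) (l 16345568)) (a (l 16425104) (l 16418152))) (a (l 16398288) (l 16386536))) (c (a (b (l 16414760) (l 16401904)) (b (l 16401856) (l 6))) (a (l 16375336) (l 16364568)))))), by decide +kernel⟩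

def k145_A00pm_012_s1 : ∃ t, chk3 f_A00pm_012_s1 t 3 1 1 = true :=
  ⟨(b (a (b (l 2) (a (b (l 2) (b (l 2) (a (a (l 18890701767) (l 2)) (l 2)))) (l 2))) (l 2)) (b (a (b (a (a (b (a (b (l 16587224) (l 16578768)) (l 10837611575)) (b (a (l 16571824) (l 16551440)) (c (l 16475328) (l 16552376)))) (b (c (l 16455128) (l 16531968)) (b (l 16522640) (a (l 16525024) (l 16506016))))) (b (l 2) (a (b (l 2) (l 16395008)) (l 2)))) (a (b (a (a (b (l 16562720) (l 16560240)) (b (l 16540136) (l 16536432))) (b (a (l 16518944) (l 16499320)) (l 16419896))) (a (b (a (l 16557216) (l 16533440)) (a (l 16552656) (l 16529096))) (a (b (l 16510120) (l 16505832)) (b (l 16488416) (l 16482984))))) (a (a (b (l 16393560) (l 16380968)) (l 6)) (l 6)))) (l 6)) (a (a (b (b (a (b (a (l 16545264) (l 16523176)) (a (l 16451240) (l 16514440))) (b (a (l 16500160) (l 16477408)) (a (l 16492936) (l 6)))) (b (a (a (l 16438496) (l 16503152)) (l 16347008)) (a (c (l 16483752) (l 16428208)) (l 6)))) (b (a (b (c (l 16375680) (l 16410456)) (c (a (l 16439024)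 (l 6)) (l 16389424))) (l 6)) (l 6))) (b (l 6) (l 6))) (l 6)))), by decide +kernel⟩

theorem t146_A00pm_012_s1 : ∃ t, chk3 f_A00pm_012_s1 t 40 31 1 = true := ex3_b k140_A00pm_012_s1 k141_A00pm_012_s1

theorem t147_A00pm_012_s1 : ∃ t, chk3 f_A00pm_012_s1 t 20 31 1 = true := ex3_a t146_A00pm_012_s1 k142_A00pm_012_s1

theorem t148_A00pm_012_s1 : ∃ t, chk3 f_A00pm_012_s1 t 10 31 1 = true := ex3_a t147_A00pm_012_s1 k143_A00pm_012_s1

theorem t149_A00pm_012_s1 : ∃ t, chk3 f_A00pm_012_s1 t 10 15 1 = true := ex3_b k139_A00pm_012_s1 t148_A00pm_012_s1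

theorem t150_A00pm_012_s1 : ∃ t, chk3 f_A00pm_012_s1 t 5 15 1 = true := ex3_a t149_A00pm_012_s1 k144_A00pm_012_s1

theorem t151_A00pm_012_s1 : ∃ t, chk3 f_A00pm_012_s1 t 41 14 1 = true := ex3_b k135_A00pm_012_s1 k136_A00pm_012_s1

theorem t152_A00pm_012_s1 : ∃ t, chk3 f_A00pm_012_s1 t 20 14 1 = true := ex3_a k134_A00pm_012_s1 t151_A00pm_012_s1

theorem t153_A00pm_012_s1 : ∃ t, chk3 f_A00pm_012_s1 t 10 14 1 = true := ex3_a t152_A00pm_012_s1 k137_A00pm_012_s1

theorem t154_A00pm_012_s1 : ∃ t, chk3 f_A00pm_012_s1 t 5 14 1 = true := ex3_a t153_A00pm_012_s1 k138_A00pm_012_s1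

theorem t155_A00pm_012_s1 : ∃ t, chk3 f_A00pm_012_s1 t 5 7 1 = true := ex3_b t154_A00pm_012_s1 t150_A00pm_012_s1

theorem t156_A00pm_012_s1 : ∃ t, chk3 f_A00pm_012_s1 t 21 13 1 = true := ex3_a k131_A00pm_012_s1 k132_A00pm_012_s1

theorem t157_A00pm_012_s1 : ∃ t, chk3 f_A00pm_012_s1 t 21 6 1 = true := ex3_b k130_A00pm_012_s1 t156_A00pm_012_s1

theorem t158_A00pm_012_s1 : ∃ t, chk3 f_A00pm_012_s1 t 670 27 1 = true := ex3_a k127_A00pm_012_s1 k128_A00pm_012_s1

theorem t159_A00pm_012_s1 : ∃ t, chk3 f_A00pm_012_s1 t 335 27 1 = true := ex3_a t158_A00pm_012_s1 k129_A00pm_012_s1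

theorem t160_A00pm_012_s1 : ∃ t, chk3 f_A00pm_012_s1 t 167 27 1 = true := ex3_a k126_A00pm_012_s1 t159_A00pm_012_s1

theorem t161_A00pm_012_s1 : ∃ t, chk3 f_A00pm_012_s1 t 335 26 1 = true := ex3_a k124_A00pm_012_s1 k125_A00pm_012_s1

theorem t162_A00pm_012_s1 : ∃ t, chk3 f_A00pm_012_s1 t 167 26 1 = true := ex3_a k123_A00pm_012_s1 t161_A00pm_012_s1

theorem t163_A00pm_012_s1 : ∃ t, chk3 f_A00pm_012_s1 t 167 13 1 = true := ex3_b t162_A00pm_012_s1 t160_A00pm_012_s1

theorem t164_A00pm_012_s1 : ∃ t, chk3 f_A00pm_012_s1 t 167 25 1 = true := ex3_a k121_A00pm_012_s1 k122_A00pm_012_s1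

theorem t165_A00pm_012_s1 : ∃ t, chk3 f_A00pm_012_s1 t 167 12 1 = true := ex3_b k120_A00pm_012_s1 t164_A00pm_012_s1

theorem t166_A00pm_012_s1 : ∃ t, chk3 f_A00pm_012_s1 t 167 6 1 = true := ex3_b t165_A00pm_012_s1 t163_A00pm_012_s1

theorem t167_A00pm_012_s1 : ∃ t, chk3 f_A00pm_012_s1 t 166 25 1 = true := ex3_c k117_A00pm_012_s1 k118_A00pm_012_s1

theorem t168_A00pm_012_s1 : ∃ t, chk3 f_A00pm_012_s1 t 166 12 1 = true := ex3_b k116_A00pm_012_s1 t167_A00pm_012_s1

theorem t169_A00pm_012_s1 : ∃ t, chk3 f_A00pm_012_s1 t 166 6 1 = true := ex3_b t168_A00pm_012_s1 k119_A00pm_012_s1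

theorem t170_A00pm_012_s1 : ∃ t, chk3 f_A00pm_012_s1 t 83 6 1 = true := ex3_a t169_A00pm_012_s1 t166_A00pm_012_s1

theorem t171_A00pm_012_s1 : ∃ t, chk3 f_A00pm_012_s1 t 82 13 1 = true := ex3_b k114_A00pm_012_s1 k115_A00pm_012_s1

theorem t172_A00pm_012_s1 : ∃ t, chk3 f_A00pm_012_s1 t 82 6 1 = true := ex3_b k113_A00pm_012_s1 t171_A00pm_012_s1

theorem t173_A00pm_012_s1 : ∃ t, chk3 f_A00pm_012_s1 t 41 6 1 = true := ex3_a t172_A00pm_012_s1 t170_A00pm_012_s1

theorem t174_A00pm_012_s1 : ∃ t, chk3 f_A00pm_012_s1 t 81 6 1 = true := ex3_b k111_A00pm_012_s1 k112_A00pm_012_s1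

theorem t175_A00pm_012_s1 : ∃ t, chk3 f_A00pm_012_s1 t 80 6 1 = true := ex3_b k109_A00pm_012_s1 k110_A00pm_012_s1

theorem t176_A00pm_012_s1 : ∃ t, chk3 f_A00pm_012_s1 t 40 6 1 = true := ex3_a t175_A00pm_012_s1 t174_A00pm_012_s1

theorem t177_A00pm_012_s1 : ∃ t, chk3 f_A00pm_012_s1 t 20 6 1 = true := ex3_a t176_A00pm_012_s1 t173_A00pm_012_s1

theorem t178_A00pm_012_s1 : ∃ t, chk3 f_A00pm_012_s1 t 10 6 1 = true := ex3_a t177_A00pm_012_s1 t157_A00pm_012_s1

theorem t179_A00pm_012_s1 : ∃ t, chk3 f_A00pm_012_s1 t 5 6 1 = true := ex3_a t178_A00pm_012_s1 k133_A00pm_012_s1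

theorem t180_A00pm_012_s1 : ∃ t, chk3 f_A00pm_012_s1 t 5 3 1 = true := ex3_b t179_A00pm_012_s1 t155_A00pm_012_s1

theorem t181_A00pm_012_s1 : ∃ t, chk3 f_A00pm_012_s1 t 21 5 1 = true := ex3_b k106_A00pm_012_s1 k107_A00pm_012_s1

theorem t182_A00pm_012_s1 : ∃ t, chk3 f_A00pm_012_s1 t 41 11 1 = true := ex3_a k104_A00pm_012_s1 k105_A00pm_012_s1

theorem t183_A00pm_012_s1 : ∃ t, chk3 f_A00pm_012_s1 t 20 11 1 = true := ex3_a k103_A00pm_012_s1 t182_A00pm_012_s1

theorem t184_A00pm_012_s1 : ∃ t, chk3 f_A00pm_012_s1 t 41 10 1 = true := ex3_c k101_A00pm_012_s1 k102_A00pm_012_s1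

theorem t185_A00pm_012_s1 : ∃ t, chk3 f_A00pm_012_s1 t 20 10 1 = true := ex3_a k100_A00pm_012_s1 t184_A00pm_012_s1

theorem t186_A00pm_012_s1 : ∃ t, chk3 f_A00pm_012_s1 t 20 5 1 = true := ex3_b t185_A00pm_012_s1 t183_A00pm_012_s1

theorem t187_A00pm_012_s1 : ∃ t, chk3 f_A00pm_012_s1 t 10 5 1 = true := ex3_a t186_A00pm_012_s1 t181_A00pm_012_s1

theorem t188_A00pm_012_s1 : ∃ t, chk3 f_A00pm_012_s1 t 5 5 1 = true := ex3_a t187_A00pm_012_s1 k108_A00pm_012_s1

theorem t189_A00pm_012_s1 : ∃ t, chk3 f_A00pm_012_s1 t 5 2 1 = true := ex3_b k99_A00pm_012_s1 t188_A00pm_012_s1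

theorem t190_A00pm_012_s1 : ∃ t, chk3 f_A00pm_012_s1 t 5 1 1 = true := ex3_b t189_A00pm_012_s1 t180_A00pm_012_s1

theorem t191_A00pm_012_s1 : ∃ t, chk3 f_A00pm_012_s1 t 39 63 1 = true := ex3_c k97_A00pm_012_s1 k98_A00pm_012_s1

theorem t192_A00pm_012_s1 : ∃ t, chk3 f_A00pm_012_s1 t 38 63 1 = true := ex3_c k95_A00pm_012_s1 k96_A00pm_012_s1

theorem t193_A00pm_012_s1 : ∃ t, chk3 f_A00pm_012_s1 t 19 63 1 = true := ex3_a t192_A00pm_012_s1 t191_A00pm_012_s1

theorem t194_A00pm_012_s1 : ∃ t, chk3 f_A00pm_012_s1 t 39 62 1 = true := ex3_c k93_A00pm_012_s1 k94_A00pm_012_s1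

theorem t195_A00pm_012_s1 : ∃ t, chk3 f_A00pm_012_s1 t 38 62 3 = true := ex3_a k91_A00pm_012_s1 k92_A00pm_012_s1

theorem t196_A00pm_012_s1 : ∃ t, chk3 f_A00pm_012_s1 t 38 62 1 = true := ex3_c k90_A00pm_012_s1 t195_A00pm_012_s1

theorem t197_A00pm_012_s1 : ∃ t, chk3 f_A00pm_012_s1 t 19 62 1 = true := ex3_a t196_A00pm_012_s1 t194_A00pm_012_s1

theorem t198_A00pm_012_s1 : ∃ t, chk3 f_A00pm_012_s1 t 19 31 1 = true := ex3_b t197_A00pm_012_s1 t193_A00pm_012_s1

theorem t199_A00pm_012_s1 : ∃ t, chk3 f_A00pm_012_s1 t 38 61 1 = true := ex3_c k87_A00pm_012_s1 k88_A00pm_012_s1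

theorem t200_A00pm_012_s1 : ∃ t, chk3 f_A00pm_012_s1 t 19 61 1 = true := ex3_a t199_A00pm_012_s1 k89_A00pm_012_s1

theorem t201_A00pm_012_s1 : ∃ t, chk3 f_A00pm_012_s1 t 19 30 1 = true := ex3_b k86_A00pm_012_s1 t200_A00pm_012_s1

theorem t202_A00pm_012_s1 : ∃ t, chk3 f_A00pm_012_s1 t 19 15 1 = true := ex3_b t201_A00pm_012_s1 t198_A00pm_012_s1

theorem t203_A00pm_012_s1 : ∃ t, chk3 f_A00pm_012_s1 t 37 63 1 = true := ex3_b k84_A00pm_012_s1 k85_A00pm_012_s1

theorem t204_A00pm_012_s1 : ∃ t, chk3 f_A00pm_012_s1 t 37 124 3 = true := ex3_a k81_A00pm_012_s1 k82_A00pm_012_s1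

theorem t205_A00pm_012_s1 : ∃ t, chk3 f_A00pm_012_s1 t 37 62 3 = true := ex3_b t204_A00pm_012_s1 k83_A00pm_012_s1

theorem t206_A00pm_012_s1 : ∃ t, chk3 f_A00pm_012_s1 t 37 62 2 = true := ex3_a k79_A00pm_012_s1 k80_A00pm_012_s1

theorem t207_A00pm_012_s1 : ∃ t, chk3 f_A00pm_012_s1 t 37 62 1 = true := ex3_c t206_A00pm_012_s1 t205_A00pm_012_s1

theorem t208_A00pm_012_s1 : ∃ t, chk3 f_A00pm_012_s1 t 37 31 1 = true := ex3_b t207_A00pm_012_s1 t203_A00pm_012_s1

theorem t209_A00pm_012_s1 : ∃ t, chk3 f_A00pm_012_s1 t 73 62 1 = true := ex3_b k76_A00pm_012_s1 k77_A00pm_012_s1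

theorem t210_A00pm_012_s1 : ∃ t, chk3 f_A00pm_012_s1 t 36 62 1 = true := ex3_a k75_A00pm_012_s1 t209_A00pm_012_s1

theorem t211_A00pm_012_s1 : ∃ t, chk3 f_A00pm_012_s1 t 36 31 1 = true := ex3_b t210_A00pm_012_s1 k78_A00pm_012_s1

theorem t212_A00pm_012_s1 : ∃ t, chk3 f_A00pm_012_s1 t 18 31 1 = true := ex3_a t211_A00pm_012_s1 t208_A00pm_012_s1

theorem t213_A00pm_012_s1 : ∃ t, chk3 f_A00pm_012_s1 t 37 123 3 = true := ex3_a k73_A00pm_012_s1 k74_A00pm_012_s1

theorem t214_A00pm_012_s1 : ∃ t, chk3 f_A00pm_012_s1 t 37 123 1 = true := ex3_c k72_A00pm_012_s1 t213_A00pm_012_s1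

theorem t215_A00pm_012_s1 : ∃ t, chk3 f_A00pm_012_s1 t 37 122 1 = true := ex3_a k70_A00pm_012_s1 k71_A00pm_012_s1

theorem t216_A00pm_012_s1 : ∃ t, chk3 f_A00pm_012_s1 t 37 61 1 = true := ex3_b t215_A00pm_012_s1 t214_A00pm_012_s1

theorem t217_A00pm_012_s1 : ∃ t, chk3 f_A00pm_012_s1 t 37 121 1 = true := ex3_a k68_A00pm_012_s1 k69_A00pm_012_s1

theorem t218_A00pm_012_s1 : ∃ t, chk3 f_A00pm_012_s1 t 74 120 1 = true := ex3_c k65_A00pm_012_s1 k66_A00pm_012_s1

theorem t219_A00pm_012_s1 : ∃ t, chk3 f_A00pm_012_s1 t 37 120 1 = true := ex3_a t218_A00pm_012_s1 k67_A00pm_012_s1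

theorem t220_A00pm_012_s1 : ∃ t, chk3 f_A00pm_012_s1 t 37 60 1 = true := ex3_b t219_A00pm_012_s1 t217_A00pm_012_s1

theorem t221_A00pm_012_s1 : ∃ t, chk3 f_A00pm_012_s1 t 37 30 1 = true := ex3_b t220_A00pm_012_s1 t216_A00pm_012_s1

theorem t222_A00pm_012_s1 : ∃ t, chk3 f_A00pm_012_s1 t 73 61 1 = true := ex3_c k63_A00pm_012_s1 k64_A00pm_012_s1

theorem t223_A00pm_012_s1 : ∃ t, chk3 f_A00pm_012_s1 t 72 61 1 = true := ex3_b k61_A00pm_012_s1 k62_A00pm_012_s1

theorem t224_A00pm_012_s1 : ∃ t, chk3 f_A00pm_012_s1 t 36 61 1 = true := ex3_a t223_A00pm_012_s1 t222_A00pm_012_s1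

theorem t225_A00pm_012_s1 : ∃ t, chk3 f_A00pm_012_s1 t 73 121 1 = true := ex3_a k59_A00pm_012_s1 k60_A00pm_012_s1

theorem t226_A00pm_012_s1 : ∃ t, chk3 f_A00pm_012_s1 t 73 60 1 = true := ex3_b k58_A00pm_012_s1 t225_A00pm_012_s1

theorem t227_A00pm_012_s1 : ∃ t, chk3 f_A00pm_012_s1 t 36 60 1 = true := ex3_a k57_A00pm_012_s1 t226_A00pm_012_s1

theorem t228_A00pm_012_s1 : ∃ t, chk3 f_A00pm_012_s1 t 36 30 1 = true := ex3_b t227_A00pm_012_s1 t224_A00pm_012_s1

theorem t229_A00pm_012_s1 : ∃ t, chk3 f_A00pm_012_s1 t 18 30 1 = true := ex3_a t228_A00pm_012_s1 t221_A00pm_012_s1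

theorem t230_A00pm_012_s1 : ∃ t, chk3 f_A00pm_012_s1 t 18 15 1 = true := ex3_b t229_A00pm_012_s1 t212_A00pm_012_s1

theorem t231_A00pm_012_s1 : ∃ t, chk3 f_A00pm_012_s1 t 9 15 1 = true := ex3_a t230_A00pm_012_s1 t202_A00pm_012_s1

theorem t232_A00pm_012_s1 : ∃ t, chk3 f_A00pm_012_s1 t 38 29 1 = true := ex3_b k54_A00pm_012_s1 k55_A00pm_012_s1

theorem t233_A00pm_012_s1 : ∃ t, chk3 f_A00pm_012_s1 t 19 29 1 = true := ex3_a t232_A00pm_012_s1 k56_A00pm_012_s1

theorem t234_A00pm_012_s1 : ∃ t, chk3 f_A00pm_012_s1 t 19 14 1 = true := ex3_b k53_A00pm_012_s1 t233_A00pm_012_s1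

theorem t235_A00pm_012_s1 : ∃ t, chk3 f_A00pm_012_s1 t 75 59 1 = true := ex3_b k51_A00pm_012_s1 k52_A00pm_012_s1

theorem t236_A00pm_012_s1 : ∃ t, chk3 f_A00pm_012_s1 t 75 29 1 = true := ex3_b k50_A00pm_012_s1 t235_A00pm_012_s1

theorem t237_A00pm_012_s1 : ∃ t, chk3 f_A00pm_012_s1 t 37 29 1 = true := ex3_a k49_A00pm_012_s1 t236_A00pm_012_s1

theorem t238_A00pm_012_s1 : ∃ t, chk3 f_A00pm_012_s1 t 18 29 1 = true := ex3_a k48_A00pm_012_s1 t237_A00pm_012_s1

theorem t239_A00pm_012_s1 : ∃ t, chk3 f_A00pm_012_s1 t 18 14 1 = true := ex3_b k47_A00pm_012_s1 t238_A00pm_012_s1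

theorem t240_A00pm_012_s1 : ∃ t, chk3 f_A00pm_012_s1 t 9 14 1 = true := ex3_a t239_A00pm_012_s1 t234_A00pm_012_s1

theorem t241_A00pm_012_s1 : ∃ t, chk3 f_A00pm_012_s1 t 9 7 1 = true := ex3_b t240_A00pm_012_s1 t231_A00pm_012_s1

theorem t242_A00pm_012_s1 : ∃ t, chk3 f_A00pm_012_s1 t 70 62 2 = true := ex3_b k42_A00pm_012_s1 k43_A00pm_012_s1

theorem t243_A00pm_012_s1 : ∃ t, chk3 f_A00pm_012_s1 t 70 62 1 = true := ex3_c t242_A00pm_012_s1 k44_A00pm_012_s1

theorem t244_A00pm_012_s1 : ∃ t, chk3 f_A00pm_012_s1 t 35 62 1 = true := ex3_a t243_A00pm_012_s1 k45_A00pm_012_s1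

theorem t245_A00pm_012_s1 : ∃ t, chk3 f_A00pm_012_s1 t 139 248 1 = true := ex3_a k38_A00pm_012_s1 k39_A00pm_012_s1

theorem t246_A00pm_012_s1 : ∃ t, chk3 f_A00pm_012_s1 t 139 124 1 = true := ex3_b t245_A00pm_012_s1 k40_A00pm_012_s1

theorem t247_A00pm_012_s1 : ∃ t, chk3 f_A00pm_012_s1 t 138 249 1 = true := ex3_a k36_A00pm_012_s1 k37_A00pm_012_s1

theorem t248_A00pm_012_s1 : ∃ t, chk3 f_A00pm_012_s1 t 138 124 1 = true := ex3_b k35_A00pm_012_s1 t247_A00pm_012_s1

theorem t249_A00pm_012_s1 : ∃ t, chk3 f_A00pm_012_s1 t 69 124 1 = true := ex3_a t248_A00pm_012_s1 t246_A00pm_012_s1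

theorem t250_A00pm_012_s1 : ∃ t, chk3 f_A00pm_012_s1 t 69 62 1 = true := ex3_b t249_A00pm_012_s1 k41_A00pm_012_s1

theorem t251_A00pm_012_s1 : ∃ t, chk3 f_A00pm_012_s1 t 68 124 1 = true := ex3_a k32_A00pm_012_s1 k33_A00pm_012_s1

theorem t252_A00pm_012_s1 : ∃ t, chk3 f_A00pm_012_s1 t 68 62 1 = true := ex3_b t251_A00pm_012_s1 k34_A00pm_012_s1

theorem t253_A00pm_012_s1 : ∃ t, chk3 f_A00pm_012_s1 t 34 62 1 = true := ex3_a t252_A00pm_012_s1 t250_A00pm_012_s1

theorem t254_A00pm_012_s1 : ∃ t, chk3 f_A00pm_012_s1 t 17 62 1 = true := ex3_a t253_A00pm_012_s1 t244_A00pm_012_s1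

theorem t255_A00pm_012_s1 : ∃ t, chk3 f_A00pm_012_s1 t 17 31 1 = true := ex3_b t254_A00pm_012_s1 k46_A00pm_012_s1

theorem t256_A00pm_012_s1 : ∃ t, chk3 f_A00pm_012_s1 t 71 61 1 = true := ex3_b k30_A00pm_012_s1 k31_A00pm_012_s1

theorem t257_A00pm_012_s1 : ∃ t, chk3 f_A00pm_012_s1 t 141 123 1 = true := ex3_b k28_A00pm_012_s1 k29_A00pm_012_s1

theorem t258_A00pm_012_s1 : ∃ t, chk3 f_A00pm_012_s1 t 141 61 1 = true := ex3_b k27_A00pm_012_s1 t257_A00pm_012_s1

theorem t259_A00pm_012_s1 : ∃ t, chk3 f_A00pm_012_s1 t 140 247 1 = true := ex3_b k25_A00pm_012_s1 k26_A00pm_012_s1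

theorem t260_A00pm_012_s1 : ∃ t, chk3 f_A00pm_012_s1 t 140 123 1 = true := ex3_b k24_A00pm_012_s1 t259_A00pm_012_s1

theorem t261_A00pm_012_s1 : ∃ t, chk3 f_A00pm_012_s1 t 140 61 1 = true := ex3_b k23_A00pm_012_s1 t260_A00pm_012_s1

theorem t262_A00pm_012_s1 : ∃ t, chk3 f_A00pm_012_s1 t 70 61 1 = true := ex3_a t261_A00pm_012_s1 t258_A00pm_012_s1

theorem t263_A00pm_012_s1 : ∃ t, chk3 f_A00pm_012_s1 t 35 61 1 = true := ex3_a t262_A00pm_012_s1 t256_A00pm_012_s1

theorem t264_A00pm_012_s1 : ∃ t, chk3 f_A00pm_012_s1 t 35 60 1 = true := ex3_a k21_A00pm_012_s1 k22_A00pm_012_s1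

theorem t265_A00pm_012_s1 : ∃ t, chk3 f_A00pm_012_s1 t 35 30 1 = true := ex3_b t264_A00pm_012_s1 t263_A00pm_012_s1

theorem t266_A00pm_012_s1 : ∃ t, chk3 f_A00pm_012_s1 t 69 123 3 = true := ex3_a k19_A00pm_012_s1 k20_A00pm_012_s1

theorem t267_A00pm_012_s1 : ∃ t, chk3 f_A00pm_012_s1 t 139 123 2 = true := ex3_c k17_A00pm_012_s1 k18_A00pm_012_s1

theorem t268_A00pm_012_s1 : ∃ t, chk3 f_A00pm_012_s1 t 69 123 2 = true := ex3_a k16_A00pm_012_s1 t267_A00pm_012_s1

theorem t269_A00pm_012_s1 : ∃ t, chk3 f_A00pm_012_s1 t 69 123 1 = true := ex3_c t268_A00pm_012_s1 t266_A00pm_012_s1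

theorem t270_A00pm_012_s1 : ∃ t, chk3 f_A00pm_012_s1 t 68 123 1 = true := ex3_a k14_A00pm_012_s1 k15_A00pm_012_s1

theorem t271_A00pm_012_s1 : ∃ t, chk3 f_A00pm_012_s1 t 34 123 1 = true := ex3_a t270_A00pm_012_s1 t269_A00pm_012_s1

theorem t272_A00pm_012_s1 : ∃ t, chk3 f_A00pm_012_s1 t 69 122 1 = true := ex3_a k12_A00pm_012_s1 k13_A00pm_012_s1

theorem t273_A00pm_012_s1 : ∃ t, chk3 f_A00pm_012_s1 t 137 122 1 = true := ex3_c k10_A00pm_012_s1 k11_A00pm_012_s1

theorem t274_A00pm_012_s1 : ∃ t, chk3 f_A00pm_012_s1 t 68 122 1 = true := ex3_a k9_A00pm_012_s1 t273_A00pm_012_s1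

theorem t275_A00pm_012_s1 : ∃ t, chk3 f_A00pm_012_s1 t 34 122 1 = true := ex3_a t274_A00pm_012_s1 t272_A00pm_012_s1

theorem t276_A00pm_012_s1 : ∃ t, chk3 f_A00pm_012_s1 t 34 61 1 = true := ex3_b t275_A00pm_012_s1 t271_A00pm_012_s1

theorem t277_A00pm_012_s1 : ∃ t, chk3 f_A00pm_012_s1 t 34 30 1 = true := ex3_b k8_A00pm_012_s1 t276_A00pm_012_s1

theorem t278_A00pm_012_s1 : ∃ t, chk3 f_A00pm_012_s1 t 17 30 1 = true := ex3_a t277_A00pm_012_s1 t265_A00pm_012_s1

theorem t279_A00pm_012_s1 : ∃ t, chk3 f_A00pm_012_s1 t 17 15 1 = true := ex3_b t278_A00pm_012_s1 t255_A00pm_012_s1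

theorem t280_A00pm_012_s1 : ∃ t, chk3 f_A00pm_012_s1 t 8 15 1 = true := ex3_a k7_A00pm_012_s1 t279_A00pm_012_s1

theorem t281_A00pm_012_s1 : ∃ t, chk3 f_A00pm_012_s1 t 8 7 1 = true := ex3_b k6_A00pm_012_s1 t280_A00pm_012_s1

theorem t282_A00pm_012_s1 : ∃ t, chk3 f_A00pm_012_s1 t 4 7 1 = true := ex3_a t281_A00pm_012_s1 t241_A00pm_012_s1

theorem t283_A00pm_012_s1 : ∃ t, chk3 f_A00pm_012_s1 t 4 13 2 = true := ex3_c k3_A00pm_012_s1 k4_A00pm_012_s1

theorem t284_A00pm_012_s1 : ∃ t, chk3 f_A00pm_012_s1 t 4 13 1 = true := ex3_c t283_A00pm_012_s1 k5_A00pm_012_s1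

theorem t285_A00pm_012_s1 : ∃ t, chk3 f_A00pm_012_s1 t 4 12 1 = true := ex3_c k1_A00pm_012_s1 k2_A00pm_012_s1

theorem t286_A00pm_012_s1 : ∃ t, chk3 f_A00pm_012_s1 t 4 6 1 = true := ex3_b t285_A00pm_012_s1 t284_A00pm_012_s1

theorem t287_A00pm_012_s1 : ∃ t, chk3 f_A00pm_012_s1 t 4 3 1 = true := ex3_b t286_A00pm_012_s1 t282_A00pm_012_s1

theorem t288_A00pm_012_s1 : ∃ t, chk3 f_A00pm_012_s1 t 4 1 1 = true := ex3_b k0_A00pm_012_s1 t287_A00pm_012_s1

theorem t289_A00pm_012_s1 : ∃ t, chk3 f_A00pm_012_s1 t 2 1 1 = true := ex3_a t288_A00pm_012_s1 t190_A00pm_012_s1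

theorem t290_A00pm_012_s1 : ∃ t, chk3 f_A00pm_012_s1 t 1 1 1 = true := ex3_a t289_A00pm_012_s1 k145_A00pm_012_s1

theorem c_A00pm_012_s1 : CertF 0 536870912 536870912 536870912 923417968 42949674 true true false .pnp 0 1 2
    ndB0q0 ndB0q1 pcB2 cut_A00pm_012_s1 xt_A00pm_012_s1 :=
  certF2 (fam := true) (s1 := true) (s2 := false) (a := 0) (b := 1) (c := 2) (cn := .pnp) (n1 := ndB0q0) (n2 := ndB0q1) (pc := pcB2) (cut := cut_A00pm_012_s1) (xt := xt_A00pm_012_s1) (P1 := 0) (W1 := 536870912) (P2 := 536870912) (W2 := 536870912) (P3 := 923417968) (W3 := 42949674)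
    rfl (fun _ => rfl) t290_A00pm_012_s1

theorem s_A00pm_012_s1 {κ x : ℝ} (hκ : κ * h0 = ken x) (hx : ((923417968 : ℕ) : ℝ) / S ≤ x)
    (hx' : x ≤ (((923417968 : ℕ) : ℝ) + (42949674 : ℕ)) / S)
    (H : CutA (VFD κ) PP tK tL pcB (Cut.of [[⟨0, 0, 0, 67108864⟩, ⟨1, 1, 0, 67108864⟩, ⟨2, 1, 0, 67108864⟩]]) 0 1 2 0 0 (sgb true) (sgb false) x) :
    AltA (VFD κ) PP tK tL pcB [⟨3, 0, 0, 1449551462⟩] 0 1 2 0 0 (sgb true) (sgb false) x :=
  strip_altAD (m := 1449551462) true rfl hκ (SH.κ0 hκ (SH.hx1 hx).le (SH.hx2 hx').le) (SH.hx1 hx).le (SH.hx2 hx') (covB00).cov (covB01).cov hx hx' c_A00pm_012_s1 H ((okx hx hx').extA (T := tt) (sideB hx hx') hκ rfl rfl (.O 0 true) (.O 1 false) rfl)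

end Pool.Agent.Strip051.G.I8600_9000.Tab.St.C
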