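import Pool.Agent.Strip051.G.I8600_9000.StH
import Pool.Agent.Strip051.G.I8600_9000.StF

/-! # Unit strips 5 (generated) -/

set_option linter.all false
set_option maxRecDepth 100000

namespace Pool.Agent.Strip051.G.I8600_9000.Tab.St.C

open Pool.Agent.Strip051.PB Pool.Agent.Strip051.PB.T Pool.Agent.StripNear Pool.Agent.Strip051.LC
open Pool.Agent.Strip051.G.I8600_9000.Tab Pool.Agent.Strip051.G.I8600_9000.Tab.St

noncomputable def cut_A00pm_102_s1 : Cut := Cut.of [[⟨4, 0, 0, 1449551462⟩], [⟨0, 1, 0, 67108864⟩, ⟨1, 0, 0, 67108864⟩, ⟨2, 1, 0, 67108864⟩]]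

noncomputable def xt_A00pm_102_s1 : Ext := strExt dd true true false .u0 .u0m .u2 .npp 1 0 2 rfl rfl gf2 vv ndB0q1 ndB0q0

noncomputable def f_A00pm_102_s1 : ℕ → ℕ → ℕ → ℕ → Bool := onCell 536870912 536870912 1073741824 536870912 923417968 42949674
    (rowF 1 true true false .npp 1 0 2 (qsf 536870912 536870912 0 536870912 2) ndB0q1 ndB0q0 pcB2 cut_A00pm_102_s1 xt_A00pm_102_s1)

def k0_A00pm_102_s1 : ∃ t, chk3 f_A00pm_102_s1 t 2 4 1 = true :=
  ⟨(b (l 3) (l 3)), by decide +kernel⟩

def k1_A00pm_102_s1 : ∃ t, chk3 f_A00pm_102_s1 t 4 5 1 = true :=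
  ⟨(b (b (b (l 3) (l 2)) (l 2)) (l 2)), by decide +kernel⟩

def k2_A00pm_102_s1 : ∃ t, chk3 f_A00pm_102_s1 t 10 20 2 = true :=
  ⟨(b (l 3) (a (b (l 3) (a (l 2) (b (b (l 3) (a (l 2) (b (a (l 531940175) (a (l 531930191) (b (l 3) (l 532995727)))) (l 531970447)))) (a (l 2) (b (b (l 531979663) (l 531948111)) (a (l 2) (b (l 16772208) (l 16770872)))))))) (b (b (l 3) (a (l 3) (b (l 3) (b (l 531593615) (l 531588495))))) (b (b (b (a (l 532091279) (b (l 531582607) (l 531576719))) (a (b (l 531814543) (l 531805583)) (b (l 531569551) (l 531560591)))) (a (b (b (l 531793807) (b (l 531784079) (l 531781007))) (a (b (l 532644239) (l 531845519)) (b (l 531710351) (l 531708303)))) (b (b (l 531549839) (b (l 531540623) (l 531534735))) (a (l 531852431) (l 531466127))))) (a (a (a (b (b (l 531891087) (b (l 16773320) (l 531905167))) (b (l 16771648) (l 16770312))) (b (b (l 531816079) (b (l 531824015) (l 16772024))) (b (l 16768392) (l 16769672)))) (a (b (b (l 531744399) (l 16771696)) (b (l 16770328) (l 16768968))) (b (b (l 16775008)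 (l 16770992)) (l 16771536)))) (a (a (b (b (l 16771664) (l 16770248)) (l 16768144)) (b (b (l 16770888) (l 16769456)) (l 16767328))) (a (b (b (l 16770072) (l 16768624)) (l 16771712)) (b (a (l 16768704) (l 16768264)) (l 16765560))))))))), by decide +kernel⟩

def k3_A00pm_102_s1 : ∃ t, chk3 f_A00pm_102_s1 t 10 20 3 = true :=
  ⟨(b (l 3) (a (b (l 3) (a (l 2) (b (b (l 3) (b (a (l 2) (a (l 531947599) (a (l 531937615) (b (l 3) (l 531928607))))) (l 532043919))) (a (l 2) (b (b (l 531996815) (l 531954767)) (a (l 2) (b (l 16772216) (l 16770880)))))))) (b (a (l 3) (b (l 3) (b (l 3) (b (l 531606927) (l 531590799))))) (b (b (a (b (b (l 3) (l 531839119)) (b (l 531825551) (l 531808911))) (b (b (l 531575695) (l 531563151)) (b (l 531548559) (l 531531919)))) (b (b (a (l 531788175) (l 531512463)) (a (b (l 531771535) (l 531765903)) (b (l 531496591) (l 531486095)))) (b (a (a (a (l 531874191) (l 531793295)) (l 531680655)) (l 531473551)) (a (a (l 531836047) (l 531675023)) (l 531730063))))) (a (a (a (b (b (l 531890063) (b (l 16773320)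 (l 16772656))) (b (l 16771656) (l 16770320))) (b (b (l 531799695) (b (l 16772688) (l 16772008))) (b (l 16771000) (l 16769656)))) (a (b (b (l 531714703) (l 16771664)) (b (l 16770288) (l 16768920))) (b (b (l 16774968) (l 16770944)) (l 16771472)))) (c (a (a (b (l 16773528) (l 16768064)) (b (l 16770112) (l 16767224))) (a (b (l 16769272) (l 16766344)) (b (l 16768384) (l 16765416)))) (a (a (b (l 16773504) (l 16768032)) (b (l 16770072) (l 16767176))) (a (b (l 16769224) (l 16766280)) (b (l 16768328) (l 16765336)))))))))), by decide +kernel⟩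

def k4_A00pm_102_s1 : ∃ t, chk3 f_A00pm_102_s1 t 11 40 1 = true :=
  ⟨(b (l 3) (a (l 3) (a (c (b (l 3) (b (l 3) (a (b (l 3) (a (l 3) (l 530939023))) (a (b (l 3) (a (l 530923151) (b (l 531182223) (l 531168143)))) (b (l 531224719) (l 531224975)))))) (b (l 3) (a (a (l 3) (b (l 3) (b (l 3) (a (l 3) (b (l 3) (l 530732831)))))) (c (b (l 3) (a (b (l 3) (a (l 531238543) (b (a (l 531243407) (l 531237007)) (l 531212431)))) (b (l 531280783) (b (l 531283343) (l 531275407))))) (b (l 3) (c (a (b (l 3) (a (l 531014175) (a (b (l 530787615) (l 531268751)) (b (l 531219599) (l 531262607))))) (b (l 531322255) (b (l 531280271) (l 531315343)))) (a (a (b (l 3) (b (b (l 3) (l 531006351)) (l 531097999))) (a (b (l 3) (b (b (l 3) (l 530996623)) (l 531088015))) (b (l 3) (b (b (l 530684815) (a (l 530997135) (l 530700943))) (l 531084431))))) (b (l 530793103) (b (b (l 531015311) (l 530758799)) (b (l 531049359) (l 531087247))))))))))) (b (a (l 3) (b (l 3) (c (l 531407247) (c (l 531492239) (b (a (l 3) (l 531339663)) (l 531316111))))))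 (c (b (l 531369871) (b (l 531383183) (l 531383951))) (b (c (a (l 531378319) (l 531511439)) (a (b (a (l 3) (l 531219343)) (l 530864527)) (l 531057951))) (b (c (l 531458703) (l 530880655)) (a (b (l 530892943) (l 531157647)) (l 531569551))))))))), by decide +kernel⟩

def k5_A00pm_102_s1 : ∃ t, chk3 f_A00pm_102_s1 t 11 82 1 = true :=
  ⟨(a (a (b (l 3) (b (b (c (l 531404943) (l 531154063)) (l 531125391)) (b (l 531111567) (l 531094671)))) (b (b (a (l 3) (b (l 3) (c (l 530978959) (b (b (l 3) (l 531296399)) (l 531287951))))) (c (b (l 530999183) (l 531257231)) (b (c (l 531017359) (l 531323791)) (l 531279759)))) (b (b (l 531241615) (l 531222671)) (b (l 530933135) (l 530909839))))) (b (a (b (c (a (b (b (l 531209359) (l 530967695)) (l 530923807)) (a (b (l 530872719) (l 531155343)) (b (l 531205007) (l 531177359)))) (b (a (c (a (b (l 3) (l 531249039)) (l 531230863)) (b (a (l 3) (l 531024015)) (a (a (l 3) (l 531294351)) (l 531277199)))) (a (a (l 530970511) (c (l 531187855) (l 530704271))) (a (l 530580623) (l 530762639))))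 (a (c (a (l 530964111) (l 531207311)) (a (a (l 531284623) (l 531288863)) (b (l 531261727) (l 531245967)))) (a (l 531205151) (l 530967327))))) (a (c (b (l 531177615) (l 531162255)) (b (a (l 531226255) (l 531199375)) (l 531184015))) (a (b (l 531146015) (l 531121807)) (c (l 530868767) (b (l 531193487) (l 531150991)))))) (b (b (a (c (l 531315087) (c (l 531376015) (l 530562703))) (l 530952079)) (c (l 531361935) (a (l 530836367) (l 531532431)))) (a (b (l 530751519) (l 531251343)) (c (l 531391375) (l 531480351))))) (a (b (a (b (l 531140495) (l 530847887)) (a (l 531083551) (b (l 531091855) (l 531060623)))) (a (b (l 530822031) (l 530794383)) (c (l 530729503) (l 530963487)))) (b (a (b (l 531212175) (l 531170959)) (l 531355423)) (c (a (l 530849823) (l 16755240)) (a (l 531377295) (l 16760560))))))), by decide +kernel⟩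

def k6_A00pm_102_s1 : ∃ t, chk3 f_A00pm_102_s1 t 22 83 1 = true :=
  ⟨(b (a (b (b (l 531073935) (c (b (l 531352463) (l 531342223)) (l 532373791))) (b (b (c (l 531330703) (l 531270543)) (b (l 531551887) (l 531274895))) (c (b (l 531307151) (l 531298191)) (b (l 531229583) (l 531213711))))) (b (b (l 530615183) (c (l 531428895) (l 531099167))) (b (c (b (l 531141519) (l 531127951)) (b (l 531067023) (l 531044495))) (c (l 531646863) (l 531282575))))) (a (a (a (c (b (l 16767576) (l 16764616)) (b (l 16767416) (l 16764392))) (c (b (l 16766616) (l 16763624)) (b (l 16766440) (l 16763368)))) (a (c (b (l 16765616) (l 16762592)) (b (l 16765408) (l 16762296))) (c (b (l 16764568) (l 16761512)) (b (l 16764336) (l 16761184))))) (a (c (a (b (l 16763480) (l 16760384)) (b (l 16762344) (l 16759216))) (a (b (l 16763216) (l 16760024)) (b (l 16762048) (l 16758816)))) (c (a (b (l 16761160) (l 16758008)) (b (l 16759936) (l 16756744))) (a (b (l 16760840) (l 16757560)) (b (l 16759584) (l 16756264))))))), by decide +kernel⟩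

def k7_A00pm_102_s1 : ∃ t, chk3 f_A00pm_102_s1 t 23 83 1 = true :=
  ⟨(b (b (a (b (a (l 530764175) (c (l 16757440) (l 16752072))) (a (c (l 532381839) (l 16758280)) (c (l 16761064) (l 16760880)))) (b (a (l 531039775) (l 16752824)) (a (l 530724639) (l 16751168)))) (a (b (c (a (l 531013919) (l 16754184)) (a (l 16756600) (l 16759168))) (a (c (l 16760440) (l 16760152)) (c (l 16757768) (l 16757432)))) (a (b (c (l 16756976) (l 16756736)) (c (l 16755296) (l 16754976))) (b (c (l 16754816) (l 16754680)) (l 530794383))))) (a (a (c (a (b (l 16758664) (l 16755440)) (b (l 16757344) (l 16754096))) (a (b (l 16758280) (l 16754928)) (b (l 16756936) (l 16753536)))) (c (a (b (l 16755976) (l 16752696)) (b (l 16754608) (l 16751296))) (b (l 16749592) (l 16751384)))) (a (c (b (l 16747504) (l 16754632)) (b (l 16752296) (l 16748768))) (c (b (l 16745352) (l 16752472)) (b (l 16750240) (l 16746696)))))), by decide +kernel⟩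

def k8_A00pm_102_s1 : ∃ t, chk3 f_A00pm_102_s1 t 10 21 1 = true :=
  ⟨(b (a (l 532028255) (a (b (c (a (b (a (l 16772240) (l 16771576)) (l 16761384)) (b (a (l 16765600) (l 16764800)) (l 16759840))) (b (a (a (l 16767008) (l 16766320)) (a (l 16765552) (l 16764704))) (a (l 16761384) (l 16759752)))) (a (b (l 16756096) (l 2)) (b (l 16754472) (l 16749224)))) (a (b (b (b (a (l 16765288) (l 16764408)) (c (l 16762144) (l 16761968))) (c (l 16758016) (l 16757808))) (b (l 16752496) (l 16747128))) (b (b (c (a (l 16762184) (l 16761224)) (a (l 16761952) (l 16760952))) (a (l 16756392) (l 16755328))) (c (l 16747720) (l 16747288)))))) (a (l 2) (a (b (a (l 2) (l 16741376)) (l 2)) (b (a (l 16739224) (l 16736712)) (a (l 16728856) (l 16726208)))))), by decide +kernel⟩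

def k9_A00pm_102_s1 : ∃ t, chk3 f_A00pm_102_s1 t 11 21 1 = true :=
  ⟨(c (b (a (a (b (b (a (a (l 16760224) (l 16759184)) (a (l 16758096) (l 16756960))) (a (l 16753896) (l 16751576))) (a (l 16745352) (l 16742816))) (a (b (a (l 16763240) (l 16761984)) (l 16740120)) (b (a (l 16760688) (l 16759344)) (l 16737248)))) (a (a (b (a (l 16757960) (l 16756536)) (l 16734208)) (b (a (l 16755056) (l 16753584)) (l 16731016))) (b (b (a (l 16754872) (l 16752656)) (a (l 16737776) (l 16735424))) (a (l 16728016) (l 16725488))))) (a (a (a (l 16749960) (l 16746912)) (a (l 16743784) (l 16719512))) (a (a (l 16716064) (l 16712464)) (a (l 16709080) (l 16706176))))) (b (a (a (a (b (b (a (l 16759904) (l 16758816)) (l 16753424)) (l 16744728)) (b (b (a (l 16757680) (l 16756496)) (l 16750968)) (l 16742008))) (b (a (a (l 16762624) (l 16761312)) (a (l 16759952) (l 16758560))) (a (l 16739112) (l 16736064)))) (a (b (a (a (l 16757112) (l 16755632)) (a (l 16754096) (l 16742088))) (a (l 16732840) (l 16729472))) (b (b (a (l 16743520) (l 16741376))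 (a (l 16736584) (l 16734280))) (a (l 16726360) (l 16723832))))) (a (a (a (a (l 16728960) (l 16727424)) (l 16745800)) (a (l 16742368) (l 16717808))) (a (a (l 16714072) (l 16710200)) (b (l 16711568) (l 16698536)))))), by decide +kernel⟩

def k10_A00pm_102_s1 : ∃ t, chk3 f_A00pm_102_s1 t 5 11 1 = true :=
  ⟨(a (b (a (l 2) (b (a (l 2) (b (l 16717272) (l 2))) (l 2))) (l 2)) (b (a (b (a (b (l 16711032) (l 16700688)) (b (l 16703496) (l 16692848))) (a (l 16685584) (l 16677328))) (b (a (a (l 16691816) (l 16687456)) (b (l 16666560) (l 16675536))) (a (b (l 16672960) (l 16662472)) (l 16700256)))) (a (b (a (l 2) (l 16657376)) (l 2)) (b (a (l 16647192) (l 16636888)) (a (l 16627544) (l 16616584)))))), by decide +kernel⟩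

def k11_A00pm_102_s1 : ∃ t, chk3 f_A00pm_102_s1 t 2 3 1 = true :=
  ⟨(a (l 2) (b (b (a (l 2) (a (l 2) (b (b (l 18890701767) (l 2)) (l 2)))) (l 2)) (l 2))), by decide +kernel⟩

def k12_A00pm_102_s1 : ∃ t, chk3 f_A00pm_102_s1 t 12 4 2 = true :=
  ⟨(c (b (l 3) (b (l 3) (b (l 3) (a (l 3) (b (a (l 3) (b (l 3) (a (l 3) (b (l 3) (a (l 3) (l 531460495)))))) (a (b (l 3) (b (l 531537039) (l 531582863))) (b (a (b (l 3) (a (l 531535759) (l 531547535))) (b (l 531509903) (l 531560591))) (a (a (l 531608463) (l 532155535)) (b (l 531609999) (l 531658127)))))))))) (b (l 3) (b (l 3) (b (l 3) (a (l 3) (b (a (l 3) (a (l 3) (a (l 3) (b (l 3) (l 531567391))))) (a (b (l 3) (b (a (l 3) (l 531665807)) (l 531416463))) (b (a (b (l 3) (a (c (l 531620239) (l 531683983)) (l 531669135))) (b (l 531640975) (a (l 531684751) (l 531698319)))) (a (a (l 531453071) (b (l 531717263) (l 531763855))) (b (l 531740303) (l 531787151))))))))))), by decide +kernel⟩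

def k13_A00pm_102_s1 : ∃ t, chk3 f_A00pm_102_s1 t 12 4 3 = true :=
  ⟨(c (b (l 3) (b (l 3) (b (l 3) (a (l 3) (b (a (l 3) (a (l 3) (b (l 3) (a (l 3) (l 531454863))))) (a (b (l 3) (a (b (l 3) (c (l 531746703) (l 531544719))) (b (b (l 3) (l 531809167)) (l 531841167)))) (b (b (a (l 3) (l 531527311)) (a (a (a (l 3) (b (l 3) (l 531540879))) (l 531613583)) (a (l 531836815) (l 531856527)))) (a (a (b (l 531837327) (l 531881615)) (b (l 531593871) (l 531906191))) (b (a (l 531884687) (l 531904911)) (l 531939727)))))))))) (b (l 3) (b (l 3) (b (l 3) (a (l 3) (a (b (l 3) (b (l 3) (a (b (l 3) (a (l 3) (b (l 3) (l 531953551)))) (a (b (l 3) (l 531979151)) (b (b (l 3) (l 531981967)) (l 532012431)))))) (b (a (l 3) (b (l 3) (a (l 3) (l 531905167)))) (a (b (b (l 3) (a (a (l 3) (a (l 3) (b (l 3) (c (l 531935119) (l 531756175))))) (c (l 531940495) (l 531763599)))) (a (b (b (c (l 531946383) (l 531765903)) (l 532012431)) (l 532043151)) (b (c (l 531718799) (b (l 532067727) (l 532088975))) (l 532073103)))) (b (b (a (l 531962767)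 (l 531988367)) (a (l 532013711) (l 532039567))) (b (a (l 532060815) (l 532087439)) (l 531848591))))))))))), by decide +kernel⟩

def k14_A00pm_102_s1 : ∃ t, chk3 f_A00pm_102_s1 t 13 4 4 = true :=
  ⟨(a (b (l 3) (b (l 3) (b (a (l 3) (b (l 3) (a (b (l 3) (b (l 3) (l 531488399))) (b (a (l 3) (l 531051407)) (b (a (a (b (l 3) (l 531161743)) (c (b (l 531093135) (l 531114639)) (l 531181711))) (b (l 531102095) (l 531124879))) (a (a (l 531210895) (l 531209359)) (b (l 531154319) (l 531188623)))))))) (b (a (b (a (l 3) (b (l 531292303) (l 531352975))) (b (l 531411087) (l 531467407))) (a (b (l 531315487) (l 531433871)) (b (a (b (l 531290255) (l 531335823)) (l 531275151)) (l 531164815)))) (a (b (b (l 531521679) (l 531573647)) (b (l 531623823) (l 531672719))) (b (a (l 531545231) (l 531558799)) (l 531370383))))))) (b (l 3) (b (b (l 3) (b (l 3) (a (l 3) (l 531587983)))) (b (b (a (a (b (l 3) (l 530912911)) (l 531059599)) (a (l 530712975) (l 530636687))) (a (b (a (l 530992015) (l 530914959)) (b (b (l 531004303) (l 531831183))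 (a (l 531105167) (l 531026063)))) (b (l 530801039) (a (l 530926991) (l 530855055))))) (b (a (b (a (b (l 531168911) (l 531237007)) (l 531113359)) (a (l 531338127) (l 531240335))) (b (l 530993551) (l 530840719))) (a (b (l 531410063) (a (l 16749696) (l 16744400))) (b (l 530420111) (a (l 16738680) (l 16732624))))))))), by decide +kernel⟩

def k15_A00pm_102_s1 : ∃ t, chk3 f_A00pm_102_s1 t 13 4 5 = true :=
  ⟨(a (b (l 3) (b (l 3) (b (a (l 3) (b (l 3) (a (b (l 3) (b (l 3) (l 531380623))) (b (a (l 3) (l 531222159)) (b (a (a (l 531309711) (l 531309967)) (l 531285135)) (a (l 531387791) (l 531340687))))))) (b (a (b (a (l 3) (l 531743775)) (l 531049615)) (a (b (l 531476623) (l 531597455)) (b (a (l 531494287) (l 531448975)) (l 531606415)))) (a (b (b (l 531669903) (l 531722127)) (b (l 531771791) (l 531819407))) (b (a (l 531708815) (l 531732111)) (l 531805583))))))) (b (l 3) (b (b (l 3) (b (l 3) (a (l 3) (l 530702479)))) (b (b (a (a (l 531583119) (l 530974095)) (l 530598031)) (a (b (l 531133583) (a (b (l 531233423) (l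 531283855)) (l 531187855))) (b (l 530997391) (l 531086479)))) (b (a (b (a (l 531381903) (l 531300751)) (l 531200399)) (b (l 531191183) (l 531306383))) (a (b (l 531593871) (l 530903183)) (b (l 530884495) (a (l 16740024) (l 16734192))))))))), by decide +kernel⟩

def k16_A00pm_102_s1 : ∃ t, chk3 f_A00pm_102_s1 t 13 4 3 = true :=
  ⟨(c (a (b (l 3) (b (l 3) (b (b (l 3) (a (l 3) (a (b (l 3) (b (l 3) (l 531565455))) (b (a (l 3) (l 531416975)) (a (b (l 531238287) (l 531580047)) (l 530838303)))))) (b (a (b (a (l 3) (l 531649935)) (l 531758479)) (a (b (l 531662991) (l 531785103)) (a (l 530822175) (l 531452191)))) (a (b (b (l 531842447) (l 531894671)) (a (l 531952527) (l 531979151))) (b (a (l 531896719) (l 531929231)) (l 531996559))))))) (b (l 3) (b (b (l 3) (b (l 3) (a (l 3) (l 530913935)))) (b (b (a (l 531211407) (l 531084175)) (a (b (l 531339151) (a (l 531195791) (l 531398543))) (b (l 531217807) (l 531307919)))) (b (a (b (a (l 531585935) (l 531512463)) (l 531677327)) (b (l 531412879) (l 531527823))) (a (b (l 531801999)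 (l 531109263)) (b (l 531104399) (a (l 16741536) (l 16735944))))))))) (a (b (l 3) (b (l 3) (b (b (l 3) (a (l 3) (b (a (l 3) (l 531648143)) (a (b (l 3) (l 531774863)) (b (a (l 531722383) (l 531700879)) (l 530960271)))))) (b (a (b (a (l 3) (l 531850383)) (l 531686799)) (a (l 531672863) (b (l 531355791) (l 532025743)))) (a (b (b (l 532039823) (l 532092047)) (b (l 532140943) (l 532184975))) (b (a (l 532109455) (l 532151439)) (l 532212111))))))) (b (l 3) (b (b (l 3) (b (l 3) (a (l 3) (l 531149199)))) (b (b (a (l 531438735) (l 531326095)) (a (b (l 531569551) (a (l 531691663) (l 531634063))) (b (l 531462543) (l 531553679)))) (b (a (b (l 531246479) (l 531910799)) (b (l 531659151) (l 531773839))) (a (b (l 532034447) (l 532144783)) (b (l 531348623) (a (l 16743208) (l 16737888)))))))))), by decide +kernel⟩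

def k17_A00pm_102_s1 : ∃ t, chk3 f_A00pm_102_s1 t 14 8 1 = true :=
  ⟨(a (l 3) (b (l 3) (b (l 3) (a (l 3) (b (a (l 3) (a (l 3) (b (l 3) (c (c (b (l 529433999) (l 529358223)) (l 530094479)) (a (l 529586831) (l 529549967)))))) (a (a (b (l 3) (c (l 529513359) (l 529896079))) (b (b (l 3) (c (l 529480335) (l 529855119))) (c (c (l 529330575) (l 529501071)) (l 529524111)))) (b (c (a (c (l 529336975) (l 529503631)) (c (l 529529999) (l 529426575))) (a (l 529519759) (b (l 529737359) (l 529683855)))) (c (a (c (l 529243535) (l 529412495)) (b (l 529270159) (l 529234831))) (a (b (l 529719695) (l 529686927)) (b (l 529641103) (l 529608847))))))))))), by decide +kernel⟩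

def k18_A00pm_102_s1 : ∃ t, chk3 f_A00pm_102_s1 t 15 16 1 = true :=
  ⟨(a (a (l 3) (b (l 3) (b (l 3) (a (l 3) (a (l 3) (b (l 3) (a (b (l 3) (a (b (l 3) (c (l 530757775) (l 531120527))) (c (l 530543503) (l 530639759)))) (a (b (l 3) (c (l 530554511) (l 530646927))) (b (l 14) (c (l 530566287) (l 530655119))))))))))) (a (b (l 14) (a (b (l 14) (a (a (a (b (l 3) (b (l 14) (c (l 530578831) (l 530664335)))) (l 14)) (l 14)) (l 14))) (l 14))) (l 14))), by decide +kernel⟩

def k19_A00pm_102_s1 : ∃ t, chk3 f_A00pm_102_s1 t 60 34 1 = true :=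
  ⟨(b (l 3) (a (l 3) (b (b (l 3) (b (a (l 3) (a (l 3) (c (c (l 529805455) (l 529962639)) (c (l 530135183) (l 530322831))))) (a (l 3) (c (a (c (l 529750927) (l 529908367)) (c (l 529742223) (l 529898895))) (a (c (l 530081423) (l 530270095)) (c (l 530070927) (l 530258319))))))) (a (c (b (a (l 3) (c (l 529672079) (l 529830031))) (a (c (l 529574799) (l 529733007)) (c (l 529559695) (l 529716623)))) (b (a (l 3) (c (l 530003855) (l 530193295))) (a (l 529732239) (c (l 529889935) (l 530079119))))) (c (b (a (c (a (l 529663119) (l 529657743)) (l 530085519)) (c (a (l 529653391) (l 529649807)) (a (l 529809551) (l 529805455)))) (a (c (l 529547407) (l 529703567)) (c (a (l 529540495) (l 529536911)) (a (l 529695887) (l 529691791))))) (b (a (c (l 529989775) (l 530177935)) (c (a (l 529981327) (l 529976719)) (a (l 530168719) (l 530163599)))) (a (c (l 529875599) (l 530063759)) (c (l 530133135) (l 530320015))))))))), by decide +kernel⟩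

def k20_A00pm_102_s1 : ∃ t, chk3 f_A00pm_102_s1 t 122 136 1 = true :=
  ⟨(b (l 3) (b (l 3) (a (l 3) (a (l 3) (a (l 3) (c (l 530525983) (l 530603407))))))), by decide +kernel⟩

def k21_A00pm_102_s1 : ∃ t, chk3 f_A00pm_102_s1 t 122 137 2 = true :=
  ⟨(a (a (l 3) (b (l 3) (c (a (b (l 3) (l 530002063)) (b (l 530074511) (l 530002063))) (a (b (l 3) (l 530159759)) (b (l 530232463) (l 530159247)))))) (c (a (b (a (l 3) (b (l 3) (c (l 530114447) (l 530189967)))) (a (b (l 530075279) (l 530002831)) (a (c (l 530003087) (l 530212239)) (b (b (l 530096015) (l 530059151)) (l 530004879))))) (b (b (a (l 530231439) (l 530234767)) (a (c (l 530117263) (l 530192271)) (b (l 530176655) (l 530138511)))) (a (b (b (a (l 530097295) (l 530098575)) (l 530060943)) (c (l 529970063) (l 530044303))) (b (b (l 530101135) (l 530064271)) (c (l 529973135) (l 530047375)))))) (a (b (a (l 3) (b (l 3) (c (a (l 530268559) (l 530269327)) (a (l 530350991) (l 530352015))))) (a (b (c (l 530192271) (l 530274447)) (l 530159503)) (b (c (a (l 530193039)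 (l 530194063)) (a (l 530275215) (l 530275983))) (c (l 530120335) (l 530201999))))) (b (b (a (l 530389903) (l 530392975)) (a (c (l 530271119) (l 530353551)) (b (l 530334095) (l 530295439)))) (a (b (b (a (l 530254223) (l 530255503)) (l 530217615)) (c (l 530122383) (l 530203791))) (b (b (l 530257551) (l 530220431)) (a (l 530164623) (l 530166159)))))))), by decide +kernel⟩

def k22_A00pm_102_s1 : ∃ t, chk3 f_A00pm_102_s1 t 122 137 3 = true :=
  ⟨(a (b (l 3) (a (l 3) (c (a (b (l 3) (l 530332047)) (b (l 530673295) (l 530331023))) (a (b (l 3) (l 530518927)) (b (c (l 530543759) (l 530640783)) (l 530785935)))))) (c (a (b (a (l 3) (b (l 3) (c (a (l 530437263) (l 530438031)) (a (l 530526863) (l 530527631))))) (a (b (c (l 530360463) (l 530450063)) (c (l 530286735) (l 530376079))) (b (c (a (l 530360975) (l 530361743)) (a (l 530450575) (l 530451087))) (a (l 530331279) (l 530499615))))) (b (b (a (l 530562447) (l 530565007)) (a (b (l 530503055) (b (l 530473871) (l 530454671))) (b (l 530505615) (l 530466703)))) (a (b (b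 (a (l 530425487) (l 530426511)) (a (l 530387855) (l 530388879))) (c (l 530289039) (l 530377871))) (b (b (l 530428303) (l 530390671)) (a (l 530334863) (l 530336143)))))) (a (b (a (l 3) (b (l 3) (c (a (l 530620303) (l 530620559)) (a (l 530851359) (l 530717327))))) (a (b (c (l 530543247) (l 530640015)) (c (l 530468751) (l 530565519))) (b (a (c (l 530543503) (l 530640015)) (b (c (l 530562703) (l 530659215)) (l 530840975))) (c (l 530469263) (a (l 530565263) (l 530565519)))))) (b (b (a (l 530480527) (l 530750863)) (a (b (l 530689167) (c (l 530602127) (l 530698639))) (b (l 530690959) (l 530651791)))) (a (b (b (a (l 530611087) (l 530611855)) (a (l 530573199) (l 530573967))) (c (l 530738831) (a (l 530566031) (l 530566799)))) (b (b (l 530747535) (l 530709647)) (a (l 530787727) (l 530520463)))))))), by decide +kernel⟩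

def k23_A00pm_102_s1 : ∃ t, chk3 f_A00pm_102_s1 t 244 69 1 = true :=
  ⟨(b (c (a (b (c (a (b (l 3) (l 529866895)) (b (l 529932943) (l 529865103))) (a (b (l 3) (l 530023823)) (b (l 530090127) (l 530021775)))) (c (a (l 529769359) (b (l 529799311) (l 529736079))) (a (l 529925519) (l 529923103)))) (b (c (a (b (l 529931919) (l 529864079)) (b (l 529931919) (l 529863823))) (a (b (l 530088847) (l 530020239)) (b (l 530088335) (l 530019727)))) (c (a (b (l 529798287) (l 529734799)) (b (l 529798031) (l 529734543))) (a (b (l 529953935) (l 529889935)) (b (l 529953167) (l 529889167)))))) (b (a (c (a (b (l 3) (l 530196111)) (b (l 530262415) (l 530193295))) (a (b (l 3) (l 530383247)) (b (l 530449295) (l 530379919)))) (c (a (b (l 530260623) (l 530191247)) (b (l 530259343) (l 530190223))) (a (b (l 530446991) (l 530377359)) (b (l 530445455) (l 530375823))))) (a (c (a (l 530097039) (l 530362511)) (a (l 530283663) (l 530548767))) (a (c (b (l 530124431) (l 530060175)) (b (l 530310287) (l 530245519))) (c (b (l 530123407) (l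 530058895)) (b (l 530308495) (l 530243727))))))) (c (a (c (b (a (l 529646991) (l 529645199)) (a (l 529534095) (l 529531791))) (b (a (l 529802383) (l 529799823)) (a (l 529688463) (l 529686159)))) (c (b (a (b (l 529673615) (l 529614735)) (b (l 529673359) (l 529614223))) (a (l 529530511) (l 529530143))) (b (a (l 529798287) (b (l 529827471) (l 529768079))) (a (l 529684367) (l 529683599))))) (a (b (c (a (l 529973135) (l 529970063)) (a (l 530159247) (l 530155919))) (c (a (l 529858959) (l 529855887)) (a (l 530044815) (l 530041487)))) (b (c (a (l 529968015) (b (l 529996943) (l 529937295))) (a (l 530153359) (b (l 530181519) (l 530121871)))) (c (a (l 529853839) (l 529852559)) (a (l 530038927) (l 530037135))))))), by decide +kernel⟩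

def k24_A00pm_102_s1 : ∃ t, chk3 f_A00pm_102_s1 t 245 138 1 = true :=
  ⟨(c (b (a (c (a (b (l 529932431) (l 529864335)) (b (c (l 529897359) (l 529971599)) (c (l 529829263) (l 529903247)))) (a (b (l 530088591) (l 530019727)) (b (c (l 530049423) (l 530130831)) (c (l 529980559) (l 530061967))))) (c (a (b (c (l 529899663) (l 529973647)) (c (l 529831567) (l 529905295))) (b (c (l 529902735) (l 529976719)) (c (l 529834639) (l 529908111)))) (a (b (c (l 530051215) (l 530132623)) (c (l 529982607) (l 530063503))) (b (c (l 530054031) (l 530135183)) (c (l 529985423) (l 530066063)))))) (a (c (a (b (l 529798543) (l 529735055)) (b (l 529799823) (l 529736335))) (a (b (l 529953423) (l 529889167)) (b (l 529954191) (l 529890191)))) (c (a (b (c (l 529765775) (l 529839247)) (l 529738271)) (b (c (l 529768847) (l 529842063)) (c (l 529705103) (l 529778063)))) (a (b (c (l 529916303) (l 529996943)) (l 529891983)) (b (c (l 529918863) (l 529999503)) (c (l 529854863) (l 529934991))))))) (b (a (c (a (b (l 530259343) (l 530189967))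 (b (c (l 530215823) (l 530304655)) (c (l 530146703) (l 530235279)))) (a (b (l 530578719) (l 530375055)) (b (c (l 530397071) (l 530493327)) (c (l 530327439) (l 530423439))))) (c (a (b (c (l 530217359) (l 530305935)) (c (l 530148239) (l 530236559))) (b (c (l 530219919) (l 530308239)) (c (l 530150543) (l 530238607)))) (a (b (c (l 530398351) (l 530494095)) (c (l 530328463) (l 530424207))) (b (c (l 530400143) (l 530495887)) (c (l 530330511) (l 530425999)))))) (a (a (c (b (l 530123151) (l 530058639)) (b (l 530307727) (l 530242959))) (c (b (l 530123663) (l 530059151)) (b (l 530307727) (l 530242959)))) (a (c (b (c (l 530081423) (l 530169487)) (l 530060431)) (b (c (l 530261391) (l 530356879)) (l 530243727))) (c (b (c (l 530083727) (l 530171535)) (l 530062479)) (b (c (l 530263183) (l 530358415)) (l 530245407))))))), by decide +kernel⟩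

def k25_A00pm_102_s1 : ∃ t, chk3 f_A00pm_102_s1 t 245 139 1 = true :=
  ⟨(c (a (c (b (a (b (l 529673615) (l 529614735)) (b (l 529674895) (l 529615759))) (a (b (l 529557903) (l 529503631)) (b (l 529559183) (l 529504911)))) (b (a (b (l 529827471) (l 529768079)) (b (l 529828495) (l 529769103))) (a (l 529952031) (b (l 529712015) (l 529657487))))) (c (b (a (b (l 529676943) (l 529617807)) (b (l 529813791) (l 529620623))) (a (b (l 529560975) (l 529506703)) (b (l 529563791) (l 529509519)))) (b (a (b (l 529830031) (l 529770639)) (b (l 529832591) (l 529773199))) (a (b (l 529713551) (l 529659023)) (b (l 529716111) (l 529661327)))))) (a (b (c (a (b (l 529996431) (l 529937039)) (b (l 529996943) (l 529937295))) (a (b (l 530180751) (l 530121103)) (b (l 530180751) (l 530120847)))) (c (a (l 529852047) (b (l 529880207) (l 529825423))) (a (l 530036111) (b (l 530063759) (l 530009231))))) (b (c (a (b (l 529998223) (l 529938575)) (b (l 530000527) (l 529940623))) (a (b (l 530181519) (l 530121871)) (b (l 530183311) (l 530123407))))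 (c (a (b (l 529881487) (l 529826703)) (b (l 529883535) (l 529828751))) (a (b (l 530064527) (l 530009999)) (b (l 530066319) (l 530011535))))))), by decide +kernel⟩

def k26_A00pm_102_s1 : ∃ t, chk3 f_A00pm_102_s1 t 123 136 1 = true :=
  ⟨(a (c (b (a (l 3) (b (b (l 3) (l 530369679)) (b (l 530328463) (l 530287503)))) (b (b (a (a (l 3) (a (l 3) (l 530504847))) (a (l 530511247) (l 530520207))) (a (a (a (l 3) (l 530457487)) (c (l 530385295) (l 530543759))) (a (l 530471055) (l 530480015)))) (a (a (l 530396047) (c (b (l 530345615) (l 530574735)) (a (l 530481295) (l 530484111)))) (a (b (l 530431119) (l 530390415)) (b (l 530440079) (l 530399887)))))) (a (b (l 3) (b (a (c (l 530465935) (b (l 3) (l 530632591))) (c (l 530469263) (l 530656143))) (a (l 530472591) (c (a (l 530652047) (l 530654095)) (a (l 530568335) (l 530569103)))))) (b (c (a (l 530606735) (l 530611855)) (a (l 530798223) (l 530800527))) (b (a (c (l 530741647) (l 530657167)) (l 530567055)) (a (b (l 530766479) (l 530456719)) (l 530614671)))))) (c (b (a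 (a (b (l 530673295) (l 530590607)) (b (l 530415247) (l 530869279))) (a (b (l 530694799) (l 530611855)) (b (l 530706319) (l 530623375)))) (a (b (a (b (l 530529679) (l 530489487)) (b (l 530539663) (l 530499471))) (a (c (l 530356879) (l 530505615)) (c (l 530368143) (l 530514575)))) (b (a (b (l 530550415) (l 530510223)) (c (l 530470031) (l 530616719))) (a (c (l 530379663) (l 530524303)) (c (l 530391951) (l 530534799)))))) (a (b (a (b (l 531024015) (l 530662287)) (b (l 531029903) (l 530667919))) (b (a (l 530571663) (l 530577551)) (a (l 530484623) (l 530490255)))) (b (a (b (l 531036815) (l 530674831)) (b (l 531045007) (l 530682767))) (a (b (l 530584207) (l 530496911)) (b (l 530592143) (l 530504591))))))), by decide +kernel⟩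

def k27_A00pm_102_s1 : ∃ t, chk3 f_A00pm_102_s1 t 246 137 2 = true :=
  ⟨(a (c (b (a (b (l 530239119) (l 530161807)) (b (a (l 530242703) (l 530246799)) (a (l 530165391) (l 530168975)))) (a (b (b (l 530105231) (l 530068111)) (a (l 530012815) (l 530014863))) (b (a (l 530090127) (l 530093455)) (a (l 530017423) (l 530020239))))) (b (a (b (l 530396815) (l 530318479)) (b (a (l 530400143) (l 530403215)) (a (l 530321807) (l 530324623)))) (a (b (b (l 530261391) (l 530224015)) (a (l 530167951) (l 530169999))) (b (a (l 530246031) (l 530248591)) (a (l 530172303) (l 530174863)))))) (b (a (b (b (a (l 530347407) (l 530352271)) (a (l 530307471) (l 530312079))) (c (l 530310031) (l 530329743))) (b (c (l 530266255) (l 530416527)) (b (a (l 530277519) (l 530282639)) (a (l 530238607) (l 530243727))))) (a (c (b (a (l 530097551) (l 530102159)) (a (l 530024079) (l 530028431))) (b (a (l 530251663) (l 530255247)) (a (l 530177935) (l 530181263)))) (b (c (a (l 530107279) (l 530113167)) (a (l 530258831) (l 530262927))) (c (a (l 530033551)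 (l 530038671)) (a (l 530184847) (l 530188687))))))), by decide +kernel⟩

def k28_A00pm_102_s1 : ∃ t, chk3 f_A00pm_102_s1 t 246 137 3 = true :=
  ⟨(a (a (b (b (c (l 530568335) (l 530753935)) (b (l 530331279) (c (l 530470031) (l 530654863)))) (b (c (b (l 530431631) (l 530393999)) (b (l 530616207) (l 530578319))) (c (a (l 530337679) (l 530339471)) (a (l 530521743) (l 530523279))))) (b (b (a (l 530460815) (l 530462351)) (a (c (l 530492559) (l 530676879)) (c (l 530494351) (l 530678159)))) (b (c (a (l 530415759) (l 530417807)) (a (l 530599823) (l 530601103))) (c (a (l 530341519) (l 530343567)) (a (l 530525071) (l 530526607)))))) (a (b (b (b (l 530483343) (l 530376591)) (c (a (l 530496399) (l 530498447)) (l 530410639))) (b (b (c (l 530439823) (l 530621327)) (a (l 530221967) (l 530223503))) (c (a (l 530345615) (l 530347919)) (a (l 530527631) (l 530528655))))) (b (b (a (l 530397839) (l 530399375)) (b (l 530339471) (l 530334607))) (b (b (c (l 530444175) (l 530622351)) (c (l 530406543) (l 530584975))) (c (a (l 530350223)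 (l 530352527)) (a (l 530529423) (l 530530191))))))), by decide +kernel⟩

def k29_A00pm_102_s1 : ∃ t, chk3 f_A00pm_102_s1 t 247 137 1 = true :=
  ⟨(b (a (c (a (b (c (l 530277775) (l 530424975)) (c (l 530199183) (l 530346383))) (b (c (l 530289551) (l 530434191)) (c (l 530211727) (l 530355599)))) (a (b (a (l 530401167) (l 530403471)) (b (l 530342799) (l 530303887))) (b (l 530541455) (b (l 530347151) (l 530308239))))) (c (a (b (c (l 530301583) (l 530444175)) (c (l 530224271) (l 530365583))) (b (c (l 530313871) (l 530454671)) (c (l 530236815) (l 530376079)))) (a (b (l 530547599) (a (l 530332047) (l 530335119))) (b (l 530420879) (b (l 530628495) (l 530320783)))))) (a (c (a (b (c (a (l 530119055) (l 530125455)) (a (l 530267279) (l 530271887))) (c (a (l 530044559) (l 530050447)) (a (l 530192783) (l 530197391)))) (b (c (a (l 530131855) (l 530138255)) (a (l 530276495) (l 530281359))) (c (a (l 530056847) (l 530063503)) (a (l 530201999) (l 530206863))))) (a (b (b (l 530299535) (c (l 530411663) (l 530586255))) (c (a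 (l 530355087) (l 530357903)) (a (l 530530959) (l 530531983)))) (b (b (l 530270095) (c (l 530417295) (l 530588047))) (a (c (l 530360719) (l 530533007)) (c (l 530363791) (l 530534031)))))) (c (a (b (c (l 530147983) (l 530289039)) (c (a (l 530070159) (l 530076815)) (a (l 530211983) (l 530217103)))) (b (c (l 530161295) (l 530299791)) (c (a (l 530083727) (l 530090383)) (l 530359583)))) (a (c (b (l 530443151) (a (l 530367119) (l 530370703))) (a (l 530303775) (l 530305935))) (b (b (l 530282127) (l 530244239)) (a (l 530187151) (l 530190479))))))), by decide +kernel⟩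

def k30_A00pm_102_s1 : ∃ t, chk3 f_A00pm_102_s1 t 246 138 2 = true :=
  ⟨(a (b (a (c (b (a (l 529942159) (l 529944207)) (c (l 529838479) (l 529911951))) (b (a (l 530096783) (l 530098831)) (c (l 529989007) (l 530069391)))) (c (b (a (l 529946511) (l 529949583)) (c (l 529843343) (l 529916559))) (b (a (l 530100879) (l 530103439)) (c (l 529993359) (l 530073743))))) (c (a (c (b (l 529772687) (l 529708943)) (b (l 529845647) (l 529781647))) (c (b (l 529777295) (l 529713551)) (b (l 529850255) (l 529786255)))) (a (b (c (l 529922447) (l 530002831)) (c (l 529858191) (l 529938319))) (c (b (l 529926799) (l 529862543)) (b (l 530006927) (l 529942415)))))) (b (a (c (b (a (l 529953167) (l 529957263)) (a (l 529884559) (l 529888399))) (b (a (l 530106255) (l 530109583)) (a (l 530037135) (l 530040463)))) (c (b (a (l 529961871) (l 529966991)) (a (l 529893007) (l 529897871))) (b (a (l 530113167) (l 530117007)) (a (l 530043791) (l 530047631))))) (a (c (b (c (l 529784207) (l 529856655)) (c (l 529720207) (l 529792399))) (b (c (l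 529932687) (l 530012047)) (c (l 529868175) (l 529947791)))) (c (b (a (l 529826191) (l 529831055)) (c (l 529728911) (l 529800335))) (b (a (l 529976975) (l 529980559)) (c (l 529875343) (l 529953935))))))), by decide +kernel⟩

def k31_A00pm_102_s1 : ∃ t, chk3 f_A00pm_102_s1 t 247 138 2 = true :=
  ⟨(a (b (a (c (b (a (l 529972367) (l 529978255)) (a (l 529902991) (l 529908623))) (b (a (l 530121103) (l 530125199)) (a (l 530051471) (l 530055823)))) (c (b (a (l 529984399) (l 529990799)) (a (l 529914511) (l 529920655))) (b (a (l 530129807) (l 530134671)) (a (l 530060175) (l 530065039))))) (a (c (b (a (l 529835919) (l 529841295)) (a (l 529771407) (l 529776783))) (b (a (l 529984399) (l 529988495)) (a (l 529919887) (l 529923983)))) (c (b (a (l 529847183) (l 529853071)) (a (l 529782159) (l 529788047))) (b (a (l 529993103) (l 529997711)) (b (l 529946511) (l 16756008)))))) (b (a (c (b (a (l 529997199) (l 530004111)) (a (l 529927055) (l 529933711))) (b (a (l 530139791) (l 530144911)) (a (l 530069903) (l 530075023))))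 (b (c (a (l 530011023) (l 530018191)) (a (l 530150287) (l 530155919))) (c (a (l 529940623) (l 529947791)) (a (l 530080399) (l 530086031))))) (a (c (b (b (l 16757064) (l 16756104)) (c (l 16754544) (l 16754760))) (b (b (l 16757472) (l 16756528)) (c (l 16754992) (l 16755224)))) (c (b (c (l 16755096) (l 16755304)) (c (l 16753136) (l 16753368))) (b (c (l 16755520) (l 16755752)) (c (l 16753600) (l 16753856))))))), by decide +kernel⟩

def k32_A00pm_102_s1 : ∃ t, chk3 f_A00pm_102_s1 t 123 278 16 = true :=
  ⟨(a (a (a (l 529600143) (l 529604751)) (a (l 529611407) (l 529619855))) (a (a (b (l 16755360) (l 16753384)) (b (l 16753936) (l 16751960))) (a (b (l 16752520) (l 16750528)) (b (l 16751104) (l 16749104))))), by decide +kernel⟩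

def k33_A00pm_102_s1 : ∃ t, chk3 f_A00pm_102_s1 t 123 558 16 = true :=
  ⟨(a (a (a (l 16757160) (l 16755720)) (a (l 16754280) (l 16752832))) (a (a (l 16751392) (l 16749952)) (a (l 16748512) (l 16747080)))), by decide +kernel⟩

def k34_A00pm_102_s1 : ∃ t, chk3 f_A00pm_102_s1 t 123 1118 16 = true :=
  ⟨(a (a (a (l 16755680) (l 16754232)) (l 16752056)) (a (l 16749160) (a (l 16746992) (l 16745536)))), by decide +kernel⟩

def k35_A00pm_102_s1 : ∃ t, chk3 f_A00pm_102_s1 t 123 2238 16 = true :=
  ⟨(a (a (l 16754208) (l 16751304)) (a (l 16748400) (a (l 16746224) (a (l 16745136) (l 16744360))))), by decide +kernel⟩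

def k36_A00pm_102_s1 : ∃ t, chk3 f_A00pm_102_s1 t 123 4478 16 = true :=
  ⟨(a (a (l 16753840) (l 16750928)) (a (l 16748024) (a (l 16745840) (a (l 16744752) (l 16743928))))), by decide +kernel⟩

def k37_A00pm_102_s1 : ∃ t, chk3 f_A00pm_102_s1 t 123 4479 32 = true :=
  ⟨(b (c (a (a (l 16753608) (l 16750696)) (a (l 16747784) (a (l 16745600) (a (l 16744512) (l 16743648))))) (a (a (l 16753640) (l 16750720)) (a (l 16747816) (a (l 16745632) (a (l 16744544) (l 16743680)))))) (c (b (c (a (a (l 16753512) (l 16750592)) (a (l 16747680) (a (l 16745496) (a (l 16744400) (l 16743512))))) (a (a (l 16753520) (l 16750608)) (a (l 16747696) (a (l 16745512) (a (l 16744424) (l 16743536)))))) (a (a (l 16753456) (l 16750536)) (a (l 16747624) (a (l 16745440) (a (l 16744344) (l 16743440)))))) (b (c (a (a (l 16753536) (l 16750624)) (a (l 16747712) (a (l 16745528) (a (l 16744440) (l 16743552))))) (a (a (l 16753552) (l 16750640)) (a (l 16747728) (a (l 16745544) (a (l 16744456) (l 16743568)))))) (c (a (a (l 16753472) (l 16750560))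 (a (l 16747648) (a (l 16745464) (a (l 16744376) (l 16743464))))) (a (a (l 16753488) (l 16750576)) (a (l 16747664) (a (l 16745480) (a (l 16744392) (l 16743488))))))))), by decide +kernel⟩

def k38_A00pm_102_s1 : ∃ t, chk3 f_A00pm_102_s1 t 123 4479 33 = true :=
  ⟨(b (c (a (a (l 16753664) (l 16750752)) (a (l 16747848) (a (l 16745672) (a (l 16744584) (l 16743720))))) (a (a (l 16753688) (l 16750784)) (a (l 16747880) (a (l 16745704) (a (l 16744616) (l 16743752)))))) (c (b (c (a (a (l 16753560) (l 16750648)) (a (l 16747744) (a (l 16745560) (a (l 16744472) (l 16743584))))) (a (a (l 16753576) (l 16750664)) (a (l 16747760) (a (l 16745584) (a (l 16744496) (l 16743608)))))) (c (a (a (l 16753504) (l 16750592)) (a (l 16747680) (a (l 16745496) (a (l 16744408) (l 16743504))))) (a (a (l 16753512) (l 16750608)) (a (l 16747696) (a (l 16745520) (a (l 16744432) (l 16743520))))))) (b (c (a (a (l 16753592) (l 16750680)) (a (l 16747776) (a (l 16745600) (a (l 16744512) (l 16743624))))) (a (a (l 16753608) (l 16750696)) (a (l 16747792)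 (a (l 16745616) (a (l 16744528) (l 16743640)))))) (c (a (a (l 16753528) (l 16750616)) (a (l 16747712) (a (l 16745536) (a (l 16744448) (l 16743544))))) (a (a (l 16753544) (l 16750632)) (a (l 16747728) (a (l 16745552) (a (l 16744464) (l 16743560))))))))), by decide +kernel⟩

def k39_A00pm_102_s1 : ∃ t, chk3 f_A00pm_102_s1 t 123 278 17 = true :=
  ⟨(a (a (a (l 529635471) (l 529639823)) (a (l 529646223) (l 529654415))) (a (a (l 529932575) (l 529876255)) (a (b (l 16752632) (l 16750648)) (b (l 16751224) (l 16749224))))), by decide +kernel⟩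

def k40_A00pm_102_s1 : ∃ t, chk3 f_A00pm_102_s1 t 123 558 17 = true :=
  ⟨(a (a (a (l 16757256) (l 16755824)) (a (l 16754384) (l 16752952))) (a (a (l 16751512) (l 16750080)) (l 16747928))), by decide +kernel⟩

def k41_A00pm_102_s1 : ∃ t, chk3 f_A00pm_102_s1 t 123 1118 17 = true :=
  ⟨(a (a (l 16755064) (l 16752176)) (a (l 16749288) (a (l 16747128) (l 16745672)))), by decide +kernel⟩

def k42_A00pm_102_s1 : ∃ t, chk3 f_A00pm_102_s1 t 123 2238 17 = true :=
  ⟨(a (a (l 16754320) (l 16751424)) (a (l 16748536) (a (l 16746368) (a (l 16745280) (l 16744504))))), by decide +kernel⟩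

def k43_A00pm_102_s1 : ∃ t, chk3 f_A00pm_102_s1 t 123 4478 17 = true :=
  ⟨(a (a (l 16753944) (l 16751048)) (a (l 16748152) (a (l 16745984) (a (l 16744896) (l 16744080))))), by decide +kernel⟩

def k44_A00pm_102_s1 : ∃ t, chk3 f_A00pm_102_s1 t 123 4479 34 = true :=
  ⟨(b (c (a (a (l 16753720) (l 16750816)) (a (l 16747912) (a (l 16745736) (a (l 16744656) (l 16743792))))) (a (a (l 16753744) (l 16750848)) (a (l 16747944) (a (l 16745776) (a (l 16744688) (l 16743832)))))) (c (b (c (a (a (l 16753616) (l 16750712)) (a (l 16747808) (a (l 16745632) (a (l 16744544) (l 16743664))))) (a (a (l 16753632) (l 16750728)) (a (l 16747824) (a (l 16745656) (a (l 16744568) (l 16743680)))))) (c (a (a (l 16753560) (l 16750648)) (a (l 16747744) (a (l 16745568) (a (l 16744480) (l 16743576))))) (a (a (l 16753568) (l 16750664)) (a (l 16747760) (a (l 16745592) (a (l 16744504) (l 16743600))))))) (b (c (a (a (l 16753648) (l 16750744)) (a (l 16747840) (a (l 16745672) (a (l 16744584) (l 16743696))))) (a (a (l 16753664) (l 16750760))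 (a (l 16747864) (a (l 16745688) (a (l 16744600) (l 16743720)))))) (c (a (a (l 16753584) (l 16750680)) (a (l 16747784) (a (l 16745608) (a (l 16744520) (l 16743616))))) (a (a (l 16753600) (l 16750696)) (a (l 16747800) (a (l 16745624) (a (l 16744536) (l 16743632))))))))), by decide +kernel⟩

def k45_A00pm_102_s1 : ∃ t, chk3 f_A00pm_102_s1 t 123 4479 35 = true :=
  ⟨(b (c (a (a (l 16753776) (l 16750880)) (a (l 16747984) (a (l 16745808) (a (l 16744728) (l 16743864))))) (a (a (l 16753800) (l 16750912)) (a (l 16748016) (a (l 16745848) (a (l 16744760) (l 16743904)))))) (c (b (c (a (a (l 16753672) (l 16750776)) (a (l 16747880) (a (l 16745704) (a (l 16744624) (l 16743736))))) (a (a (l 16753688) (l 16750792)) (a (l 16747896) (a (l 16745728) (a (l 16744640) (l 16743752)))))) (c (a (a (l 16753616) (l 16750712)) (a (l 16747816) (a (l 16745640) (a (l 16744560) (l 16743656))))) (a (a (l 16753624) (l 16750728)) (a (l 16747832) (a (l 16745664) (a (l 16744576) (l 16743672))))))) (b (a (a (l 16753712) (l 16750816)) (a (l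 16747920) (a (l 16745752) (a (l 16744664) (l 16743784))))) (c (a (a (l 16753640) (l 16750744)) (a (l 16747848) (a (l 16745680) (a (l 16744592) (l 16743696))))) (a (a (l 16753656) (l 16750760)) (a (l 16747864) (a (l 16745696) (a (l 16744616) (l 16743712))))))))), by decide +kernel⟩

def k46_A00pm_102_s1 : ∃ t, chk3 f_A00pm_102_s1 t 123 278 18 = true :=
  ⟨(a (a (a (l 529671567) (l 529676175)) (a (l 529682319) (l 529689999))) (a (a (l 529967759) (l 529977999)) (a (l 529855375) (l 529733663)))), by decide +kernel⟩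

def k47_A00pm_102_s1 : ∃ t, chk3 f_A00pm_102_s1 t 123 558 18 = true :=
  ⟨(a (a (a (l 16757352) (l 16755928)) (a (l 16754496) (l 16753064))) (a (a (l 16751640) (l 16750208)) (l 16748064))), by decide +kernel⟩

def k48_A00pm_102_s1 : ∃ t, chk3 f_A00pm_102_s1 t 123 1118 18 = true :=
  ⟨(a (a (l 16755168) (l 16752296)) (a (l 16749424) (l 16746536))), by decide +kernel⟩

def k49_A00pm_102_s1 : ∃ t, chk3 f_A00pm_102_s1 t 123 2238 18 = true :=
  ⟨(a (a (l 16754432) (l 16751552)) (a (l 16748672) (a (l 16746512) (a (l 16745432) (l 16744656))))), by decide +kernel⟩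

def k50_A00pm_102_s1 : ∃ t, chk3 f_A00pm_102_s1 t 123 2239 18 = true :=
  ⟨(b (a (a (l 16754064) (l 16751176)) (a (l 16748296) (a (l 16746128) (a (l 16745048) (l 16744232))))) (c (b (c (a (a (l 16753832) (l 16750944)) (a (l 16748048) (a (l 16745888) (a (l 16744800) (l 16743944))))) (a (a (l 16753864) (l 16750976)) (a (l 16748088) (a (l 16745920) (a (l 16744840) (l 16743984)))))) (c (b (a (a (l 16753736) (l 16750848)) (a (l 16747952) (a (l 16745792) (a (l 16744704) (l 16743824))))) (c (a (a (l 16753672) (l 16750776)) (a (l 16747880) (a (l 16745712) (a (l 16744632) (l 16743728))))) (a (a (l 16753688) (l 16750792)) (a (l 16747904) (a (l 16745736) (a (l 16744648) (l 16743752))))))) (b (a (a (l 16753768) (l 16750880)) (a (l 16747992) (a (l 16745824) (a (l 16744744) (l 16743864))))) (c (a (a (l 16753696) (l 16750808)) (a (l 16747920) (a (l 16745752) (a (l 16744672) (l 16743768))))) (a (a (l 16753712) (l 16750824)) (a (l 16747936) (a (l 16745768) (a (l 16744688) (l 16743792))))))))) (b (a (a (l 16753904) (l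 16751024)) (a (l 16748136) (a (l 16745976) (a (l 16744896) (l 16744040))))) (c (b (a (a (l 16753800) (l 16750912)) (a (l 16748024) (a (l 16745864) (a (l 16744784) (l 16743904))))) (c (a (a (l 16753728) (l 16750840)) (a (l 16747952) (a (l 16745792) (a (l 16744704) (l 16743808))))) (a (a (l 16753744) (l 16750856)) (a (l 16747968) (a (l 16745808) (a (l 16744728) (l 16743824))))))) (b (a (a (l 16753824) (l 16750944)) (a (l 16748064) (a (l 16745904) (a (l 16744816) (l 16743936))))) (c (a (a (l 16753760) (l 16750872)) (a (l 16747992) (a (l 16745824) (a (l 16744744) (l 16743848))))) (a (a (l 16753768) (l 16750888)) (a (l 16748008) (a (l 16745848) (a (l 16744768) (l 16743864))))))))))), by decide +kernel⟩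

def k51_A00pm_102_s1 : ∃ t, chk3 f_A00pm_102_s1 t 123 278 19 = true :=
  ⟨(a (a (a (l 529708687) (l 529713295)) (a (l 529719183) (l 529726607))) (a (a (l 529735311) (l 530013583)) (a (l 530024591) (l 530036367)))), by decide +kernel⟩

def k52_A00pm_102_s1 : ∃ t, chk3 f_A00pm_102_s1 t 123 558 19 = true :=
  ⟨(a (a (a (l 16757456) (l 16756032)) (a (l 16754608) (l 16753192))) (a (a (l 16751768) (l 16750344)) (l 16748200))), by decide +kernel⟩

def k53_A00pm_102_s1 : ∃ t, chk3 f_A00pm_102_s1 t 123 559 19 = true :=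
  ⟨(b (a (a (l 16755280) (l 16752424)) (a (l 16749560) (l 16746688))) (b (a (a (l 16754544) (l 16751680)) (a (l 16748808) (a (l 16746656) (l 16745184)))) (b (a (a (l 16754176) (l 16751304)) (a (l 16748432) (a (l 16746280) (a (l 16745200) (l 16744384))))) (c (b (a (a (l 16753960) (l 16751088)) (a (l 16748208) (a (l 16746048) (a (l 16744976) (l 16744120))))) (c (b (a (a (l 16753856) (l 16750976)) (a (l 16748096) (a (l 16745936) (a (l 16744856) (l 16743976))))) (c (a (a (l 16753784) (l 16750904)) (a (l 16748024) (a (l 16745864) (a (l 16744784) (l 16743888))))) (a (a (l 16753800) (l 16750920)) (a (l 16748040) (a (l 16745880) (a (l 16744800) (l 16743904))))))) (b (a (a (l 16753888) (l 16751008)) (a (l 16748136) (a (l 16745976) (a (l 16744896) (l 16744016))))) (c (a (a (l 16753816) (l 16750936)) (a (l 16748064) (a (l 16745904) (a (l 16744824) (l 16743928))))) (a (a (l 16753832) (l 16750960)) (a (l 16748080) (a (l 16745920) (a (l 16744840) (l 16743944))))))))) (b (a (a (l 16754024) (l 16751152)) (a (l 16748280)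 (a (l 16746128) (a (l 16745048) (l 16744200))))) (c (b (a (a (l 16753912) (l 16751040)) (a (l 16748168) (a (l 16746016) (a (l 16744936) (l 16744056))))) (c (a (a (l 16753848) (l 16750976)) (a (l 16748096) (a (l 16745944) (a (l 16744864) (l 16743968))))) (a (a (l 16753864) (l 16750992)) (a (l 16748112) (a (l 16745960) (a (l 16744880) (l 16743984))))))) (b (a (a (l 16753944) (l 16751080)) (a (l 16748208) (a (l 16746048) (a (l 16744976) (l 16744096))))) (c (a (a (l 16753872) (l 16751008)) (a (l 16748136) (a (l 16745976) (a (l 16744904) (l 16744008))))) (a (a (l 16753888) (l 16751024)) (a (l 16748152) (a (l 16746000) (a (l 16744920) (l 16744024))))))))))))), by decide +kernel⟩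

def k54_A00pm_102_s1 : ∃ t, chk3 f_A00pm_102_s1 t 123 139 5 = true :=
  ⟨(c (c (b (a (a (a (l 529746831) (l 529751183)) (a (l 529756815) (l 529763983))) (a (a (l 529772175) (l 529781647)) (a (l 529791887) (l 529803151)))) (b (a (a (a (l 16757560) (l 16756144)) (a (l 16754728) (l 16753312))) (a (a (l 16751896) (l 16750480)) (l 16748344))) (a (a (a (l 16755616) (l 16754200)) (a (l 16752768) (l 16751344))) (b (a (l 16749696) (l 16746832)) (a (l 16748704) (a (l 16746560) (a (l 16745488) (l 16744664)))))))) (b (a (a (a (l 529785999) (l 529790095)) (a (l 529795727) (l 529802383))) (a (a (l 529810063) (l 529818767)) (a (l 529828495) (l 529839247)))) (b (a (a (a (l 16757664) (l 16756256)) (a (l 16754848) (l 16753440))) (a (a (l 16752032) (l 16750616)) (l 16748496))) (a (a (a (l 16755736) (l 16754320)) (a (l 16752904) (l 16751480))) (a (l 16749352) (a (l 16747216) (a (l 16746144) (b (l 16745920) (l 16744832))))))))) (c (a (a (a (b (l 529825935) (l 529711759)) (b (l 529830031) (l 529715855))) (a (b (l 529835151)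 (l 529720975)) (b (l 529841551) (l 529727119)))) (b (a (a (l 529848719) (l 529857167)) (a (l 529866127) (l 529876367))) (a (a (l 529734287) (l 529742223)) (b (l 16748648) (a (l 16747368) (a (l 16746304) (b (l 16746088) (l 16745000)))))))) (a (a (a (b (l 529866895) (l 529752463)) (b (l 529870991) (l 529756559))) (a (b (l 529875855) (l 529761423)) (b (l 529881743) (l 529767311)))) (b (a (a (l 529888399) (l 529896079)) (a (l 529904783) (l 529913999))) (a (a (l 529773967) (l 529781391)) (a (l 529789839) (b (l 16748096) (b (l 16746608) (l 16742928))))))))), by decide +kernel⟩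

def k55_A00pm_102_s1 : ∃ t, chk3 f_A00pm_102_s1 t 246 138 3 = true :=
  ⟨(a (b (a (c (b (a (l 530265999) (l 530267791)) (c (l 530153871) (l 530241679))) (b (a (l 530449551) (l 530451087)) (c (l 530333327) (l 530428559)))) (b (c (a (l 530269583) (l 530271631)) (a (l 530452879) (l 530454415))) (c (a (l 530200207) (l 530202255)) (a (l 530382991) (l 530384527))))) (c (a (b (c (l 530086799) (l 530174607)) (c (l 530022287) (l 530109839))) (b (c (l 530090895) (l 530178191)) (c (l 530026127) (l 530113423)))) (a (b (c (l 530265999) (l 530360975)) (c (l 530201231) (l 530296207))) (b (c (l 530269327) (l 530364303)) (c (l 530204559) (l 530299279)))))) (b (a (b (c (a (l 530273935) (l 530275983)) (a (l 530455695) (l 530456719))) (c (a (l 530204303) (l 530206607)) (a (l 530385807) (l 530387087)))) (b (c (a (l 530278287) (l 530280847)) (a (l 530457743) (l 530458767))) (c (a (l 530208911) (l 530211471)) (a (l 530388367) (l 530389391))))) (a (c (b (c (l 530095503) (l 530182287)) (c (l 530030735) (l 530117519))) (b (a (l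 530318735) (l 530320015)) (c (l 530207887) (l 530302095)))) (c (b (a (l 530141839) (l 530144399)) (c (l 530036111) (l 530121871))) (b (a (l 530321295) (l 530322575)) (b (l 530273167) (l 16759672))))))), by decide +kernel⟩

def k56_A00pm_102_s1 : ∃ t, chk3 f_A00pm_102_s1 t 247 138 3 = true :=
  ⟨(a (b (a (b (c (a (l 530283407) (l 530286223)) (a (l 530459791) (l 530460815))) (c (a (l 530214031) (l 530216847)) (a (l 530390671) (l 530391951)))) (b (a (c (l 530289039) (l 530462095)) (c (l 530292367) (l 530463375))) (c (a (l 530219919) (l 530222991)) (b (l 530410895) (l 16760616))))) (a (c (b (a (l 530146959) (l 530150031)) (a (l 530082447) (l 530085263))) (b (b (l 530341007) (l 16760152)) (a (l 16759136) (l 16758472)))) (c (b (c (l 530113423) (l 16758920)) (b (l 530105999) (l 16756496))) (b (a (l 530326927) (l 16758952)) (c (l 16757344) (l 16757616)))))) (b (a (b (a (c (l 530295695) (l 530464911)) (l 530112911)) (c (c (l 530187919) (l 16759408)) (a (l 16760080) (l 16759424)))) (b (a (c (l 16760104) (l 530468751))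 (l 530118943)) (c (c (l 530196367) (l 16758080)) (a (l 16758768) (l 16758112))))) (a (c (b (b (l 16757920) (l 16757000)) (c (l 16755480) (l 16755736))) (b (a (l 16758296) (l 16757632)) (c (l 16756008) (l 16756296)))) (c (b (c (l 16755992) (l 16756248)) (c (l 16754112) (l 16754384))) (b (c (l 16756504) (l 16756784)) (l 16754816)))))), by decide +kernel⟩

def k57_A00pm_102_s1 : ∃ t, chk3 f_A00pm_102_s1 t 123 139 3 = true :=
  ⟨(a (b (b (a (a (c (l 530003343) (l 530185871)) (c (c (l 529963919) (l 530051215)) (c (l 530142351) (l 530237071)))) (a (c (c (l 529968527) (l 530055311)) (b (l 16760096) (l 530177167))) (c (c (l 529973903) (l 530059663)) (c (l 16758192) (l 16758456))))) (a (a (c (l 529943695) (l 530125967)) (c (l 529947535) (l 530129295))) (a (c (l 529951887) (l 530132623)) (c (c (l 16755816) (l 16756080)) (l 530270095))))) (a (c (a (b (l 529886351) (l 529831823)) (b (l 529890191) (l 529835407))) (a (b (l 530068879) (l 530014095)) (b (l 530072207) (l 16755488)))) (c (a (b (l 529894543) (l 529839759))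 (b (l 529899407) (l 529844879))) (a (b (l 530075535) (l 16754136)) (b (l 16754648) (l 530024335)))))) (c (c (b (a (a (b (l 529979791) (l 16754432)) (b (l 16754960) (l 16753056))) (a (b (l 16753584) (l 16751672)) (b (l 16752208) (l 16750288)))) (c (a (a (l 529814671) (l 529821583)) (a (l 16748680) (b (l 16748256) (a (l 16746640) (l 16743240))))) (a (a (l 529856143) (l 529862799)) (a (l 16748848) (b (l 16748424) (a (l 16746816) (l 16743416))))))) (a (a (b (b (l 530064527) (l 16754712)) (l 529920399)) (b (b (l 16755224) (l 16753344)) (b (l 16751440) (l 16749520)))) (b (a (b (l 16753864) (l 16751976)) (b (l 16752504) (l 16750600))) (a (l 16749096) (b (l 16748680) (b (l 16747216) (a (l 16746600) (l 16745800)))))))) (a (a (b (c (b (l 530152847) (l 16755000)) (b (l 16757128) (l 16755304))) (b (l 530082191) (l 530027919))) (b (b (c (l 16755512) (l 16755800)) (l 16753808)) (b (c (l 16751768) (l 16752104)) (l 16750048)))) (b (a (b (l 16754312) (l 530415503)) (b (l 16752968) (l 16751096))) (b (c (l 16749712) (l 16750072))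 (a (l 16748680) (b (l 16747776) (a (l 16747168) (l 16743760))))))))), by decide +kernel⟩

def k58_A00pm_102_s1 : ∃ t, chk3 f_A00pm_102_s1 t 120 70 1 = true :=
  ⟨(b (b (a (l 3) (c (a (c (l 529511567) (l 529671311)) (c (l 529489807) (l 529648527))) (a (l 529942415) (c (l 529823887) (l 530015887))))) (a (a (l 3) (a (a (l 3) (c (l 529792543) (l 529879951))) (c (l 529513871) (l 529868943)))) (c (a (c (l 529417615) (l 529577103)) (c (l 529395855) (l 529554319))) (a (l 530116639) (c (l 529729679) (l 529921679)))))) (a (c (a (c (l 529345679) (l 529507983)) (b (a (l 529442191) (l 529429135)) (c (l 529280911) (l 529442959)))) (a (l 529516175) (b (l 529523599) (l 529719183)))) (c (b (a (c (l 529332367) (l 529492367)) (l 529656719)) (a (c (l 529256591) (l 529417103)) (l 529312655))) (b (a (l 530032783) (l 529739663)) (a (l 529691023) (l 529666447)))))), by decide +kernel⟩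

def k59_A00pm_102_s1 : ∃ t, chk3 f_A00pm_102_s1 t 121 70 1 = true :=
  ⟨(b (a (c (b (a (c (l 529471375) (l 529629071)) (c (l 529456015) (l 529612687))) (a (c (l 529377423) (l 529534863)) (c (l 529362063) (l 529518479)))) (b (a (c (l 529803151) (l 529993615)) (c (l 529785743) (l 529974927))) (a (c (l 529708943) (l 529899663)) (c (l 529691279) (l 529880975))))) (c (a (c (b (l 529443983) (l 529349775)) (b (l 529599631) (l 529505167))) (c (b (a (l 529436815) (l 529433231)) (l 529340559)) (b (l 529589647) (l 529495183)))) (b (a (c (l 529771407) (l 529959567)) (c (l 529760655) (l 529947535))) (a (c (l 529677199) (l 529865615)) (c (l 529666191) (l 529853583)))))) (b (a (c (a (c (l 529292431) (l 529450127)) (c (l 529277071) (l 529433743))) (a (l 529718159) (c (l 529607311) (l 529797519)))) (c (a (c (l 529265039) (l 529420687)) (c (l 529255823) (l 529410703))) (a (c (l 529592975) (l 529782159)) (c (l 529582223) (l 529770383))))) (a (c (a (l 529562399) (c (l 529201807) (l 529358991))) (a (l 529644943) (l 529627023)))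 (c (a (c (l 529189775) (l 529345935)) (c (l 529180815) (l 529336207))) (a (c (l 529519503) (l 529709711)) (c (l 529508751) (l 529697935))))))), by decide +kernel⟩

def k60_A00pm_102_s1 : ∃ t, chk3 f_A00pm_102_s1 t 60 71 1 = true :=
  ⟨(a (b (a (c (a (c (l 529213327) (l 529377423)) (c (l 529185167) (l 529348495))) (b (l 529401743) (a (l 529632911) (l 529602703)))) (c (c (a (l 529160335) (l 529407375)) (a (l 529322639) (l 529300367))) (b (a (l 529628047) (l 529603727)) (a (l 529575567) (l 529551503))))) (a (c (c (a (l 529121423) (l 529093519)) (a (l 529288079) (l 529259407))) (b (l 530246031) (l 529543567))) (c (c (b (l 529077647) (l 529042831)) (a (l 529234319) (l 529212303))) (b (a (l 529533839) (l 529510287)) (a (l 529503119) (l 529480079)))))) (b (a (c (b (a (l 529228431) (c (l 529136015) (l 529294479))) (a (l 529173391) (l 529158287))) (b (a (l 529582479) (l 529564559)) (a (l 529530767) (l 529513103)))) (c (c (a (b (l 529124239) (l 529068943)) (b (l 529115535) (l 16748744))) (a (b (l 529281679) (l 16749648))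 (b (l 529272207) (l 16746752)))) (b (a (l 529550223) (b (l 529553807) (l 16750696))) (a (l 529498767) (l 529487759))))) (b (a (c (a (l 529128847) (l 529113999)) (a (l 529489807) (l 529472399))) (c (a (l 529102223) (c (l 16742064) (l 16742776))) (a (l 529458575) (l 529447823)))) (a (c (a (l 529095055) (l 529080463)) (a (l 529459855) (l 16745824))) (c (c (a (l 16740992) (l 16738008)) (l 16740272)) (c (l 16741136) (l 16742080))))))), by decide +kernel⟩

def k61_A00pm_102_s1 : ∃ t, chk3 f_A00pm_102_s1 t 122 140 1 = true :=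
  ⟨(a (c (a (c (b (a (l 529430159) (l 529428111)) (a (l 529335951) (l 529333647))) (b (a (l 529584527) (l 529581967)) (l 529757071))) (b (c (a (l 529426831) (l 529426319)) (a (l 529580175) (l 529579407))) (c (a (l 529332367) (l 529331855)) (a (l 529485711) (l 529484943))))) (a (b (c (a (l 529754511) (l 529751695)) (a (l 529940623) (l 529937295))) (c (l 529658767) (l 529845135))) (b (c (a (l 529749391) (l 529748111)) (a (l 529934735) (l 529932943))) (c (a (l 529655183) (l 529653903)) (a (l 529840783) (l 529839247)))))) (c (a (c (b (a (l 529426575) (b (l 529452687) (l 529403279))) (a (l 529332111) (l 529333135))) (b (a (l 529579151) (l 529579919)) (a (l 529484943) (l 529485455)))) (c (b (a (b (l 529454735) (l 529405071)) (b (l 529457295) (l 529407631))) (a (b (l 16752280) (l 16750264)) (b (l 16750816) (l 16748792)))) (b (a (b (l 529606799) (l 529557135)) (b (l 529609359) (l 529559439))) (a (l 529487247) (l 529489551))))) (a (b (c (a (l 529747855) (l 529748111)) (a (l 529931919) (l 529931919))) (c (a (l 529653647)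 (l 529653903)) (a (l 529838223) (l 529838223)))) (a (b (c (l 529749391) (l 529932687)) (c (l 529655183) (l 529839247))) (b (c (b (l 529776527) (l 16753864)) (l 530068767)) (c (l 529657231) (l 529841039))))))), by decide +kernel⟩

def k62_A00pm_102_s1 : ∃ t, chk3 f_A00pm_102_s1 t 246 140 1 = true :=
  ⟨(c (a (c (b (a (b (l 529460879) (l 529411215)) (b (l 529465231) (l 529415567))) (a (b (l 16749352) (l 16747320)) (b (l 16747880) (l 16745840)))) (b (a (b (l 529612431) (l 16751888)) (b (l 529616527) (l 16750456))) (a (b (l 16749912) (l 16747920)) (b (l 16748472) (l 16746472))))) (c (b (a (c (l 529410447) (l 529482127)) (b (l 529478543) (l 16746984))) (a (b (l 16746408) (l 16744368)) (b (l 16744944) (l 16742888)))) (b (a (b (l 529621903) (l 16749024)) (b (l 529628047) (l 16747592))) (a (b (l 16747032) (l 16745024)) (b (l 16745584) (l 16743568)))))) (a (a (b (c (b (l 529779599) (l 16752472)) (b (l 16754976) (l 16753104))) (c (l 529660303) (l 529843599))) (b (c (b (l 529783439) (l 16751072)) (b (l 529965455)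 (l 16751736))) (c (b (l 16749128) (l 16747168)) (l 529846927)))) (b (c (a (b (l 529787791) (l 16749664)) (b (l 16750208) (l 16748256))) (a (b (l 529969039) (l 16750368)) (b (l 16750896) (l 16748992)))) (c (a (b (l 16747712) (l 16745752)) (b (l 16746296) (l 16744328))) (b (c (l 16747568) (l 16747968)) (l 16745848)))))), by decide +kernel⟩

def k63_A00pm_102_s1 : ∃ t, chk3 f_A00pm_102_s1 t 494 140 1 = true :=
  ⟨(b (a (c (c (b (c (l 16747416) (l 16747696)) (l 16745520)) (b (l 16748152) (l 16746152))) (c (b (l 16748808) (l 16746848)) (b (l 16749520) (l 16747608)))) (b (c (c (l 16746104) (l 16746720)) (c (l 16747400) (l 16748144))) (c (c (b (l 16744576) (l 16743544)) (b (l 16745216) (l 16744208))) (a (l 16746176) (b (l 16745960) (l 16742360)))))) (c (b (a (c (l 16743472) (l 16744144)) (b (a (l 16743216) (b (c (l 16742376) (l 16743056)) (a (l 16742384) (l 16741896)))) (a (b (c (l 16742096) (l 16742792)) (a (l 16742112) (l 16741672))) (c (l 16740856) (l 16741568))))) (a (b (a (l 16742632) (a (l 16742080) (b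 (l 16741968) (l 16741424)))) (c (a (l 16741248) (a (l 16740640) (l 16740136))) (a (l 16741960) (a (l 16741360) (l 16740872))))) (b (b (a (c (l 16740944) (l 16741664)) (l 16740224)) (c (l 16739760) (l 16740496))) (c (l 16738776) (l 16739544))))) (c (b (a (l 16744880) (b (a (l 16744312) (l 16740904)) (a (l 16743272) (l 16742352)))) (a (a (l 16743248) (b (l 16743016) (l 16741912))) (b (l 16739008) (l 16740384)))) (b (a (l 16745688) (b (a (l 16745128) (l 16744360)) (a (l 16744120) (l 16743216)))) (a (b (l 16744224) (a (l 16743608) (l 16742792))) (b (l 16742512) (l 16741304))))))), by decide +kernel⟩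

def k64_A00pm_102_s1 : ∃ t, chk3 f_A00pm_102_s1 t 495 140 1 = true :=
  ⟨(b (a (b (c (a (c (l 16745016) (l 16745648)) (b (l 16745112) (b (l 16744344) (a (l 16744024) (c (l 16743280) (l 16743944)))))) (c (b (l 16746488) (l 16742856)) (b (l 16747240) (l 16743640)))) (c (b (a (c (l 16743464) (l 16744120)) (a (b (c (l 16743152) (l 16743816)) (l 16742872)) (c (l 16742320) (l 16743000)))) (a (b (a (l 16743208) (l 16742760)) (c (l 16742048) (l 16742736))) (c (l 16741280) (l 16741984)))) (b (a (a (l 16745432) (l 16742448)) (c (l 16741376) (l 16744816))) (a (c (l 16741144) (l 16744592)) (l 16740560))))) (c (c (b (a (b (a (l 16744240) (b (l 16744120) (l 16743520))) (b (l 16743136) (l 16742480))) (c (l 16742208) (l 16742528))) (c (l 16740128) (l 16740464))) (b (a (b (a (l 16744888) (l 16744464)) (l 16743480)) (l 16745664)) (l 16743640))) (b (b (a (c (l 16742752) (l 16743528)) (c (l 16744416) (l 16745216))) (a (b (l 16742296) (l 16744304)) (l 16740952))) (c (l 16744432) (l 16745304))))) (c (c (b (c (l 16741216) (l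 16741576)) (a (l 16739880) (l 16735080))) (b (c (l 16741952) (l 16742352)) (c (l 16736768) (l 16737200)))) (c (b (a (l 16744032) (l 16739320)) (c (l 16737648) (l 16738120))) (b (c (l 16741048) (l 16741520)) (l 16738872))))), by decide +kernel⟩

def k65_A00pm_102_s1 : ∃ t, chk3 f_A00pm_102_s1 t 122 141 1 = true :=
  ⟨(a (c (a (c (b (l 529249935) (l 529174927)) (b (l 529404047) (l 529329807))) (c (b (a (l 529247631) (l 529247119)) (b (l 16749344) (l 16747312))) (b (a (l 529401487) (l 529400463)) (l 529326479)))) (a (b (c (l 529574799) (l 529761935)) (c (l 529501327) (l 529689743))) (b (c (l 529570703) (l 529756815)) (c (l 529497231) (l 529684623))))) (c (c (a (b (a (l 529247375) (l 529248399)) (b (l 16746384) (l 16744336))) (b (a (l 529250447) (l 529253007)) (b (l 16743408) (l 16741352)))) (a (b (b (l 529420943) (l 16749000)) (c (l 16748456) (l 16746168))) (a (b (l 529402767) (l 16743808)) (b (l 529405327) (l 16742336))))) (a (b (c (b (l 16751576) (l 16749632)) (b (l 16752232) (l 16750336))) (c (c (l 16746520)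 (l 16746888)) (l 529683343))) (b (c (a (l 16748488) (l 529573775)) (b (l 16749472) (l 16747560))) (b (c (l 16744824) (l 16745640)) (l 16743272)))))), by decide +kernel⟩

def k66_A00pm_102_s1 : ∃ t, chk3 f_A00pm_102_s1 t 246 141 1 = true :=
  ⟨(a (c (b (c (a (l 529524879) (c (l 16742608) (l 16742928))) (a (l 529408655) (l 529412751))) (b (a (l 16741512) (c (l 16739664) (l 16740408))) (a (l 16739464) (b (a (l 16738864) (c (l 16737672) (l 16738456))) (c (a (l 16737408) (l 16736472)) (a (l 16738200) (l 16737280))))))) (b (c (a (l 529576591) (l 16746832)) (b (l 16746704) (l 16744776))) (b (c (a (l 16742672) (l 16741232)) (l 16740224)) (a (l 16741136) (b (a (l 16740560) (l 16734552)) (b (l 16734136) (l 16733584))))))) (b (b (c (b (a (l 16743160) (c (l 16741336) (l 16742048))) (a (l 16742136) (a (l 16741032) (c (b (l 16740168) (l 16739600)) (l 16740608))))) (a (c (l 16743768) (l 16744616)) (b (l 16740632) (c (l 16736552) (l 16742688))))) (c (c (b (a (l 16740760) (a (l 16739600) (l 16738664))) (a (l 16739696)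 (a (l 16738432) (l 16737360)))) (a (l 16738336) (a (b (l 16740344) (l 16739200)) (l 16738792)))) (c (a (l 16739152) (b (a (l 16741168) (l 16740272)) (l 16739544))) (a (l 16742664) (b (l 16736376) (l 16740488)))))) (c (b (a (b (a (l 16739416) (c (l 16732944) (l 16738960))) (a (b (l 16733368) (l 16738032)) (l 16737304))) (c (l 16735952) (l 16736776))) (c (a (l 16735512) (l 16733368)) (a (l 16736344) (l 16734256)))) (b (a (b (a (l 16741096) (l 16735032)) (a (l 16734792) (l 16739088))) (c (l 16737696) (l 16738696))) (c (c (l 16736008) (l 16736512)) (l 16737304)))))), by decide +kernel⟩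

def k67_A00pm_102_s1 : ∃ t, chk3 f_A00pm_102_s1 t 247 141 1 = true :=
  ⟨(b (c (a (b (a (b (a (b (a (l 16741016) (l 16740584)) (a (l 16740464) (l 16739952))) (l 16742088)) (c (l 16738344) (l 16739112))) (c (l 16736824) (l 16737632))) (a (c (l 16736392) (l 16737208)) (c (l 16734232) (l 16735096)))) (c (c (b (l 16733368) (l 16730760)) (b (l 16733776) (l 16731208))) (c (b (l 16734216) (l 16731672)) (b (l 16734680) (l 16732168))))) (a (b (c (a (b (a (l 16741672) (l 16740688)) (l 16739968)) (l 16738520)) (a (c (l 16738624) (l 16739104)) (l 16739496))) (c (c (l 16736840) (l 16737328)) (l 16738104))) (c (c (l 16739168) (l 16734448)) (b (l 16736472) (l 16734088))))) (c (c (b (a (c (l 16732512) (l 16732936)) (c (l 16728168) (l 16728640))) (a (l 16732760) (l 16725832))) (a (c (b (l 16733392) (l 16730856)) (l 16737856)) (c (l 16727880) (l 16728424)))) (a (c (c (l 16738376) (l 16733672)) (b (l 16735720) (l 16733352))) (c (c (l 16728992) (l 16729592)) (l 16730544))))), by decide +kernel⟩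

def k68_A00pm_102_s1 : ∃ t, chk3 f_A00pm_102_s1 t 122 71 1 = true :=
  ⟨(a (c (c (a (b (b (l 529109903) (l 16743152)) (b (l 16739072) (l 16735000))) (b (b (l 529107599) (l 16740160)) (b (l 16736056) (b (l 16727680) (a (l 16731664) (l 16729896)))))) (a (b (b (l 16747824) (l 16743832)) (b (l 16739840) (l 16735856))) (b (b (l 529262735) (l 16740896)) (b (l 16736880) (b (l 16733824) (l 16726456)))))) (b (b (a (c (l 16748496) (l 16749224)) (c (l 16745640) (l 16746440))) (a (c (l 16744592) (l 16745432)) (c (l 16741720) (l 16742624)))) (a (b (l 16741152) (l 16737320)) (b (l 16738296) (b (l 16735360) (b (l 16723376) (l 16722328))))))) (b (c (a (b (c (c (l 16741096) (l 16741432)) (l 529262991)) (b (l 16735928) (a (l 16737264) (l 16730512)))) (a (b (c (l 16739008) (l 16739768)) (b (b (l 16736816) (l 16735768)) (b (a (l 16735128) (l 16734256)) (l 16728280)))) (b (b (l 16738904) (b (l 16737360) (a (l 16736720) (l 16730656)))) (b (b (a (l 16735648) (l 16734712)) (l 16728728)) (l 16734696))))) (a (b (c (l 16742768)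 (l 16743640)) (b (l 16740272) (l 16738328))) (b (b (l 16741320) (a (l 16740080) (b (l 16739136) (l 16732872)))) (b (a (l 16732864) (b (l 16731800) (l 16735912))) (c (a (l 16735496) (l 16733576)) (l 16730384)))))) (c (b (a (b (a (l 16735224) (b (l 16728928) (l 16727808))) (a (b (l 16733664) (l 16727328)) (l 16725976))) (c (c (l 16728640) (l 16729112)) (l 16735112))) (a (b (a (l 16725552) (l 16728728)) (l 16722048)) (c (l 16723832) (l 16724976)))) (b (a (b (a (l 16737104) (l 16730312)) (a (l 16729848) (l 16733320))) (c (l 16730976) (l 16732192))) (a (b (l 16731952) (l 16729632)) (c (l 16726232) (l 16727616))))))), by decide +kernel⟩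

def k69_A00pm_102_s1 : ∃ t, chk3 f_A00pm_102_s1 t 123 71 1 = true :=
  ⟨(c (b (b (a (a (b (a (b (a (l 16738296) (l 16737528)) (a (l 16737256) (l 16731160))) (b (c (l 16735720) (l 16736544)) (l 16734840))) (a (b (a (l 16730912) (l 16735152)) (l 16734408)) (c (l 16732496) (l 16733408)))) (b (c (l 16734480) (l 16732784)) (c (l 16729296) (l 16730288)))) (c (a (c (l 16726048) (l 16726544)) (c (l 16721720) (l 16722272))) (a (c (l 16727080) (l 16727640)) (c (l 16722856) (l 16723472))))) (a (c (a (c (l 16729496) (l 16729960)) (c (l 16725208) (l 16725728))) (a (c (l 16730448) (l 16730960)) (c (l 16726272) (l 16726848)))) (c (a (c (l 16720912) (l 16721480)) (c (l 16716608) (l 16717224))) (a (l 16727640) (l 16718216))))) (a (c (b (a (c (l 16724384) (l 16724912)) (l 16725640)) (a (l 16719616) (l 16715376))) (b (a (l 16731000) (l 16721632)) (a (l 16720872) (l 16716752)))) (c (b (a (l 16710896) (l 16711872)) (a (l 16711128) (l 16706864))) (b (a (l 16717480) (l 16713312)) (a (l 16712616) (l 16708464)))))) (b (c (b (a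 (a (a (b (l 16733392) (l 16731168)) (b (l 16736848) (l 16734408))) (b (l 16733816) (l 16731384))) (a (c (l 16728232) (l 16728848)) (l 16729688))) (a (a (l 16731784) (l 16733008)) (a (l 16723720) (l 16719656)))) (b (a (a (b (a (l 16739608) (l 16737872)) (l 16736480)) (c (l 16733464) (l 16734072))) (a (l 16729824) (l 16725864))) (a (a (l 16732976) (l 16729096)) (a (l 16725176) (l 16721240))))) (a (b (c (b (l 16726184) (l 16723808)) (c (l 16726048) (l 16726792))) (c (c (l 16719888) (l 16720656)) (l 16721864))) (b (c (a (l 16718968) (l 16714920)) (l 16718632)) (c (a (l 16714264) (l 16710232)) (l 16714120)))))), by decide +kernel⟩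

def k70_A00pm_102_s1 : ∃ t, chk3 f_A00pm_102_s1 t 124 136 1 = true :=
  ⟨(a (b (b (a (a (c (l 530718607) (l 531053967)) (c (l 530731407) (l 531064207))) (l 14)) (a (a (c (l 530635407) (l 530691983)) (c (l 530648207) (l 530701967))) (a (c (l 530661519) (l 530981519)) (l 14)))) (a (c (a (b (l 530822175) (l 530742047)) (b (l 530834831) (l 530754703))) (a (b (l 530601103) (l 530513295)) (b (l 530611087) (l 530523279)))) (c (a (b (l 530848143) (l 530499471)) (b (l 530861855) (l 530781839))) (a (b (l 530622351) (l 530534287)) (b (l 530634383) (l 530546575)))))) (a (a (b (l 14) (b (l 14) (c (l 530796063) (l 530559631)))) (l 14)) (l 14))), by decide +kernel⟩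

def k71_A00pm_102_s1 : ∃ t, chk3 f_A00pm_102_s1 t 124 274 1 = true :=
  ⟨(a (a (c (b (a (c (l 530326927) (l 530465935)) (c (l 530340239) (l 530477711))) (a (c (l 530250127) (l 530387343)) (c (l 530263695) (l 530399375)))) (a (b (l 530429327) (l 530415759)) (b (l 530439055) (l 530358159)))) (c (a (b (a (l 530417295) (l 530423951)) (c (l 16760488) (l 530412175))) (b (c (l 16760960) (l 16761296)) (c (l 530291855) (l 16759520)))) (a (b (l 530449807) (l 530368655)) (b (l 530461839) (l 530380431))))) (a (a (c (b (c (l 16759640) (l 16760000)) (c (l 16757816) (l 16758208))) (b (l 530474895) (l 530393231))) (c (b (c (l 16758312) (l 16758704)) (c (l 16756480) (l 16756904))) (b (l 530488975) (l 530407055)))) (b (l 14) (a (a (b (l 14) (l 530248591)) (l 14)) (l 14))))), by decide +kernel⟩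

def k72_A00pm_102_s1 : ∃ t, chk3 f_A00pm_102_s1 t 124 275 1 = true :=
  ⟨(a (a (c (a (b (c (l 530174607) (l 530311055)) (c (l 530100879) (l 530236815))) (b (c (l 530188431) (l 530323087)) (c (l 530114959) (l 530248847)))) (a (b (a (l 530269071) (l 530273167)) (a (l 530194319) (l 530198415))) (b (b (l 530299279) (l 530261135)) (a (l 530202767) (l 530207375))))) (c (a (b (c (l 530202511) (l 16759032)) (c (l 530129295) (l 530261647))) (b (c (l 530217103) (l 16757704)) (c (l 16755440) (l 16755864)))) (a (b (b (l 530309519) (l 530271119)) (c (l 16757632) (l 16758112))) (b (l 530368911) (c (l 16756328) (l 16756832)))))) (a (c (a (b (c (l 16755960) (l 16756384)) (c (l 16754080) (l 16754528))) (a (c (l 16754008) (l 16754464)) (b (l 16754496) (b (a (l 16753256) (l 16750280)) (c (a (l 16752024) (l 16751552)) (l 16749632)))))) (b (a (l 530314383) (l 530328207)) (a (c (l 16755016) (l 16755544)) (a (l 16754304) (b (l 16754112) (c (l 16750168) (l 16750744))))))) (c (c (b (a (b (a (l 16754080) (l 16750696)) (a (l 16753088)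 (l 16752136))) (l 16751032)) (a (b (a (a (l 16752240) (l 16751704)) (l 16750832)) (l 16750104)) (l 16748424))) (a (b (b (a (l 16754536) (l 16751168)) (a (l 16753560) (l 16752624))) (b (a (l 16749832) (l 16751336)) (l 16750624))) (b (l 16751544) (l 16748968)))) (c (a (b (b (a (l 16755032) (l 16751680)) (a (l 16754080) (l 16753160))) (b (l 16752440) (l 16751184))) (b (l 16752104) (l 16749576))) (a (b (b (l 16755208) (a (l 16754640) (l 16753736))) (b (l 16753024) (l 16751800))) (b (l 16752712) (l 16750224))))))), by decide +kernel⟩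

def k73_A00pm_102_s1 : ∃ t, chk3 f_A00pm_102_s1 t 125 68 1 = true :=
  ⟨(b (l 14) (a (b (l 14) (b (l 14) (a (a (b (l 14) (c (l 16743104) (l 16747048))) (l 14)) (l 14)))) (l 14))), by decide +kernel⟩

def k74_A00pm_102_s1 : ∃ t, chk3 f_A00pm_102_s1 t 248 276 1 = true :=
  ⟨(a (c (a (c (b (b (l 16758112) (l 16757168)) (c (l 16755640) (l 16755840))) (b (b (l 16758488) (l 16757560)) (c (l 16756048) (l 16756272)))) (c (b (c (l 16756176) (l 16756368)) (c (l 16754256) (l 16754464))) (b (c (l 16756576) (l 16756792)) (c (l 16754688) (l 16754920))))) (a (b (a (l 530122639) (l 530126479)) (c (c (l 16756504) (l 16756744)) (a (l 16757456) (l 16756800)))) (b (a (l 530130575) (l 530135183)) (c (c (l 16755160) (l 16755416)) (l 16755816))))) (c (a (c (b (c (l 16754800) (l 16755008)) (c (l 16752872) (l 16753096))) (b (l 530457887) (c (l 16753320) (l 16753568)))) (c (b (l 16753536) (l 16751600)) (b (l 16753984) (l 16752088)))) (a (b (c (l 16755808) (l 16756320)) (c (c (l 16753824) (l 16754088)) (l 16754504))) (b (c (l 16754480)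 (l 16755024)) (a (l 16753232) (l 16752568)))))), by decide +kernel⟩

def k75_A00pm_102_s1 : ∃ t, chk3 f_A00pm_102_s1 t 248 277 1 = true :=
  ⟨(c (b (a (a (c (c (l 16753696) (l 16753920)) (c (l 16754144) (l 16754384))) (c (c (l 16752304) (l 16752536)) (l 530173727))) (a (c (l 16751032) (l 16751528)) (b (a (l 16750728) (c (a (l 16749952) (l 16746912)) (a (l 16750464) (l 16747432)))) (a (c (l 16746840) (l 16747368)) (a (b (l 16746784) (l 16748776)) (l 16745912)))))) (c (a (a (c (l 16751736) (l 16751968)) (c (l 16750336) (l 16750576))) (a (a (l 16749400) (b (l 16749192) (a (b (l 16748624) (l 16748088)) (b (l 16748208) (l 16747576))))) (b (a (a (b (l 16748904) (l 16748320)) (l 16748096)) (l 16747240)) (l 16746496)))) (a (a (c (l 16752216) (l 16752480)) (c (l 16750832) (l 16751104))) (a (a (l 16749928) (b (l 16749720) (c (l 16745888) (l 16746176)))) (b (a (a (l 16746512) (l 16748640)) (l 16747800)) (l 16747064)))))) (b (a (a (c (c (l 16754640) (l 16754904)) (c (l 16755176) (l 16755464))) (c (l 530186639) (l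 16753992))) (c (a (l 16752072) (b (a (l 16751536) (l 16748184)) (a (l 16747936) (l 16749672)))) (a (l 16752664) (a (b (l 16752136) (l 16751184)) (b (l 16748800) (l 16750312)))))) (c (a (a (l 530247199) (c (l 16751384) (l 16751680))) (a (a (l 16750512) (b (l 16750304) (c (l 16746472) (l 16749408)))) (b (a (a (l 16749728) (l 16749232)) (l 16748416)) (l 16747696)))) (a (a (l 16753480) (l 16752144)) (a (a (l 16751136) (b (l 16750936) (b (l 16750192) (l 16749648)))) (b (a (b (l 16750416) (l 16749840)) (l 16749088)) (l 16748384))))))), by decide +kernel⟩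

def k76_A00pm_102_s1 : ∃ t, chk3 f_A00pm_102_s1 t 249 276 1 = true :=
  ⟨(a (b (a (a (c (l 530147471) (l 16753768)) (c (b (l 16752536) (c (l 16748680) (l 16751792))) (b (l 16753576) (b (l 16752880) (l 16749760))))) (c (c (a (b (l 16748928) (l 16747752)) (b (l 16750536) (l 16749224))) (a (b (l 16749416) (l 16750880)) (l 16753024))) (c (a (b (l 16749952) (l 16751432)) (l 16750968)) (a (b (l 16750536) (l 16752032)) (l 16751584))))) (a (c (c (b (a (l 16751040) (a (l 16747832) (l 16749936))) (a (c (l 16747224) (l 16747464)) (l 16748904))) (b (a (l 16751536) (a (l 16750952) (l 16750448))) (a (c (l 16747720) (l 16747992)) (l 16749432)))) (c (a (b (l 16752080) (b (l 16751328) (l 16750768))) (b (a (l 16751504) (l 16751008)) (l 16750016))) (b (a (l 16752672) (l 16749232)) (a (l 16749024) (l 16750648))))) (c (c (c (l 16747712) (l 16747968)) (c (l 16748240) (l 16748528))) (c (l 16748984) (l 16749640))))) (c (b (c (c (l 16746848) (l 16747120)) (c (l 16747400) (l 16747696))) (c (a (l 16745528) (l 16743216)) (c (l 16744824)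 (l 16745144)))) (a (b (c (l 16749288) (l 16749944)) (c (l 16746768) (l 16747472))) (b (c (l 16747056) (l 16747760)) (c (l 16744544) (l 16745304)))))), by decide +kernel⟩

def k77_A00pm_102_s1 : ∃ t, chk3 f_A00pm_102_s1 t 249 277 1 = true :=
  ⟨(a (b (c (a (c (c (l 16747384) (l 16747640)) (b (l 16751328) (l 16747416))) (c (c (l 16745080) (l 16745360)) (l 16748432))) (a (c (b (l 16751920) (l 16748032)) (a (l 16749864) (l 16748792))) (c (l 16749088) (l 16747176)))) (c (c (c (a (l 16744744) (l 16742456)) (l 16746512)) (c (l 16746824) (l 16744528))) (c (a (l 16748760) (l 16743952)) (a (l 16746864) (l 16744720))))) (c (c (c (a (l 16744088) (l 16739168)) (a (l 16741784) (l 16739496))) (b (a (l 16743560) (l 16741296)) (c (l 16739696) (l 16740064)))) (b (c (c (l 16742960) (l 16743336)) (a (l 16745016) (l 16742856))) (c (l 16740656) (l 16741504))))), by decide +kernel⟩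

def k78_A00pm_102_s1 : ∃ t, chk3 f_A00pm_102_s1 t 248 278 1 = true :=
  ⟨(a (b (c (c (a (l 16749872) (a (l 16748816) (b (l 16748608) (b (l 16747856) (l 16747328))))) (a (l 16750400) (b (l 16749504) (a (l 16748864) (l 16745520))))) (c (a (l 16750984) (b (l 16750096) (a (l 16749472) (l 16748768)))) (a (l 16751624) (b (l 16750744) (a (l 16750136) (l 16749440)))))) (a (c (c (l 16747872) (l 16748440)) (c (l 16749064) (l 16749744))) (c (b (a (b (l 16747840) (l 16744704)) (b (a (l 16744664) (l 16746816)) (a (l 16744088) (l 16746160)))) (a (b (a (l 16747008) (l 16743968)) (a (c (l 16746184) (l 16746776)) (l 16745960))) (c (l 16745160) (l 16745768)))) (c (b (a (l 16748504) (b (l 16747976) (l 16747384))) (a (c (l 16744656) (l 16747616)) (l 16746440))) (b (a (l 16749192) (l 16745744)) (a (l 16745536) (l 16747176))))))) (c (c (b (a (b (a (a (l 16748072) (b (l 16747960) (l 16747376))) (l 16746872)) (a (b (l 16746992) (l 16746344)) (l 16745552))) (c (l 16744376) (l 16744672))) (c (a (l 16743992) (l 16741744)) (a (l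 16744288) (l 16742056)))) (b (a (b (a (b (l 16748688) (l 16745528)) (l 16747440)) (a (b (l 16747560) (l 16746928)) (l 16746152))) (c (l 16744976) (l 16745296))) (a (c (l 16744600) (l 16744936)) (l 16745184)))) (c (b (a (b (a (b (l 16749296) (l 16748760)) (l 16748064)) (a (l 16747880) (l 16746800))) (c (l 16745632) (l 16745984))) (a (c (l 16745280) (l 16745640)) (l 16745912))) (b (a (a (b (l 16747056) (l 16748568)) (b (l 16748752) (l 16747520))) (l 16746544)) (a (l 16746208) (l 16744096)))))), by decide +kernel⟩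

def k79_A00pm_102_s1 : ∃ t, chk3 f_A00pm_102_s1 t 248 279 1 = true :=
  ⟨(c (a (b (c (a (b (a (l 16746712) (a (l 16746168) (b (l 16746048) (l 16745464)))) (a (b (l 16745952) (l 16745408)) (b (l 16745080) (l 16744424)))) (c (l 16743600) (l 16743904))) (a (b (b (l 16747184) (b (l 16744176) (l 16743904))) (a (l 16743656) (l 16742752))) (c (l 16744224) (l 16744560)))) (c (a (b (a (a (b (l 16745088) (l 16744496)) (l 16744272)) (l 16743440)) (l 16742680)) (c (l 16740960) (l 16741288))) (a (a (b (b (l 16745464) (l 16744856)) (l 16743888)) (l 16743448)) (l 16744432)))) (c (c (b (l 16742856) (l 16737608)) (b (l 16743192) (l 16737968))) (b (c (l 16743536) (l 16743904)) (c (l 16738344) (l 16738744))))) (a (b (a (b (a (l 16748296) (c (l 16744584) (l 16745304))) (a (b (l 16747576) (l 16744440)) (c (l 16746056) (l 16746808)))) (c (c (l 16744904) (l 16745280)) (b (l 16746472) (l 16745248)))) (c (a (b (a (l 16743224) (l 16744808)) (l 16744080)) (l 16745200)) (a (b (a (l 16743976) (l 16745592)) (l 16744888)) (l 16743416))))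 (b (c (a (l 16742944) (l 16740792)) (c (l 16742496) (l 16742936))) (c (a (l 16740440) (l 16738304)) (l 16740280))))), by decide +kernel⟩

def k80_A00pm_102_s1 : ∃ t, chk3 f_A00pm_102_s1 t 249 139 1 = true :=
  ⟨(c (a (b (b (c (c (l 16743600) (l 16743912)) (a (l 16745536) (l 16740688))) (c (c (l 16738352) (l 16738696)) (c (l 16739056) (l 16739440)))) (c (c (b (l 16735736) (l 16733128)) (b (l 16736104) (l 16733520))) (b (c (l 16736496) (l 16736904)) (c (l 16733944) (l 16734376))))) (b (c (c (b (l 16736408) (l 16733808)) (b (l 16736768) (l 16734192))) (c (b (l 16737144) (l 16734592)) (l 16736272))) (c (c (b (l 16731216) (l 16728624)) (l 16735584)) (c (l 16730784) (l 16731248))))) (c (a (b (b (a (l 16743632) (l 16741448)) (a (l 16741128) (l 16738952))) (c (l 16736088) (l 16736552))) (b (c (l 16736704) (l 16737152)) (c (l 16731744) (l 16732256)))) (a (b (b (a (l 16744408) (l 16742280)) (l 16740912)) (b (l 16738496) (l 16736088))) (b (b (l 16739080) (l 16736664)) (c (l 16732792) (l 16733360)))))), by decide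 +kernel⟩

def k81_A00pm_102_s1 : ∃ t, chk3 f_A00pm_102_s1 t 125 69 1 = true :=
  ⟨(c (a (b (a (b (c (c (a (l 16742040) (l 16739696)) (a (l 16742344) (l 16740024))) (b (l 16742968) (l 16745672))) (c (c (b (l 16736984) (l 16734400)) (l 16741296)) (c (l 16736432) (l 16736840)))) (b (b (l 14) (c (l 16735064) (l 16735856))) (c (c (l 16731032) (l 16731440)) (c (l 16731872) (l 16732328))))) (a (c (b (c (l 16730528) (l 16730936)) (c (l 16725384) (l 16725840))) (b (c (l 16731368) (l 16731824)) (c (l 16726328) (l 16726848)))) (c (b (c (l 16725920) (l 16726376)) (c (l 16720816) (l 16721328))) (b (l 16732352) (l 16722144))))) (b (a (a (b (l 14) (b (l 14) (l 16726952))) (l 14)) (l 14)) (c (a (b (l 16721536) (l 16716504)) (b (l 16716904) (l 16711928))) (a (c (l 16725096) (l 16720448)) (b (l 16718096) (l 16713232)))))) (a (b (a (b (b (c (l 16743688) (l 16744480)) (c (l 16741200) (l 16742040))) (c (c (l 16737264) (l 16737704)) (b (l 16739616) (l 16737200)))) (b (c (a (l 16739088) (l 14)) (l 16738896)) (c (l 16733048)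 (l 16734096)))) (a (b (c (l 16732552) (l 16733608)) (b (l 16729448) (l 16727048))) (b (c (l 16728176) (l 16729344)) (c (l 16723328) (l 16724640))))) (b (a (b (l 14) (c (l 16728616) (l 16729784))) (l 14)) (a (c (c (l 16721064) (l 16721720)) (l 16725376)) (c (l 16717032) (l 16718536)))))), by decide +kernel⟩

def k82_A00pm_102_s1 : ∃ t, chk3 f_A00pm_102_s1 t 124 70 2 = true :=
  ⟨(b (a (b (a (c (b (c (l 16742056) (l 16742408)) (a (l 16740720) (l 16735896))) (b (c (l 16742768) (l 16743152)) (c (l 16737576) (l 16737992)))) (c (b (a (l 16736288) (l 16734072)) (c (l 16732376) (l 16732792))) (b (c (l 16735784) (l 16736208)) (c (l 16733224) (l 16733680))))) (c (a (b (a (l 16735488) (l 16733296)) (c (l 16731584) (l 16732016))) (c (b (l 16729776) (l 16727176)) (l 16734176))) (a (b (c (l 16735016) (l 16735464)) (c (l 16732464) (l 16732944))) (c (l 16729408) (l 16729920))))) (a (c (b (c (b (l 16730528) (l 16727928)) (l 16734904)) (c (l 16724048) (l 16724544))) (b (c (l 16730120) (l 16730608)) (c (l 16725064) (l 16725616))))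 (c (b (c (l 16724752) (l 16725224)) (c (l 16719600) (l 16720136))) (b (c (l 16725728) (l 16726256)) (l 16726240))))) (a (b (c (a (c (b (l 16728984) (l 16726392)) (l 16733400)) (c (l 16723296) (l 16723816))) (a (c (l 16728656) (l 16729184)) (c (l 16724360) (l 16724928)))) (c (a (c (l 16722520) (l 16723056)) (c (l 16718152) (l 16718728))) (a (c (l 16723616) (l 16724208)) (l 16724904)))) (c (b (a (c (l 16718896) (l 16719448)) (b (l 16716040) (l 16713504))) (a (b (l 16715344) (l 16712808)) (l 16709712))) (b (a (l 16725592) (l 16716040)) (c (l 16718144) (l 16718856)))))), by decide +kernel⟩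

def k83_A00pm_102_s1 : ∃ t, chk3 f_A00pm_102_s1 t 125 70 2 = true :=
  ⟨(a (b (c (a (b (c (l 16720248) (l 16720768)) (b (l 16716696) (l 16714160))) (b (c (l 16715736) (l 16716296)) (l 16710968))) (a (b (l 16726848) (l 16716648)) (b (l 16717208) (l 16712296)))) (c (a (b (l 16710360) (l 16705328)) (b (l 16705944) (l 16700944))) (b (a (l 16711728) (l 16707408)) (a (l 16706840) (l 16702560))))) (b (c (a (b (l 16711496) (l 16706496)) (b (l 16706968) (l 16702016))) (c (a (l 16710008) (l 16705584)) (a (l 16710728) (l 16706368)))) (c (c (a (l 16698648) (l 16694200)) (a (l 16699432) (l 16695040))) (b (l 16706168) (l 16706624))))), by decide +kernel⟩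

def k84_A00pm_102_s1 : ∃ t, chk3 f_A00pm_102_s1 t 62 70 3 = true :=
  ⟨(a (b (b (a (a (b (c (a (l 16744824) (l 16740080)) (c (l 16741792) (l 16742256))) (c (c (l 16738424) (l 16738880)) (a (l 16740632) (l 16738568)))) (c (c (l 16735408) (l 16735896)) (b (l 16737872) (l 16735464)))) (a (c (b (l 16732616) (l 16730160)) (l 16732504)) (c (b (l 16728320) (l 16725888)) (l 16728328)))) (a (a (c (b (c (l 16735928) (l 16736416)) (l 16738944)) (a (l 16737016) (l 16734968))) (c (b (l 16731952) (l 16729496)) (c (l 16731592) (l 16732200)))) (c (a (l 16731736) (l 16722256)) (a (l 16727768) (l 16723640))))) (a (b (a (c (b (l 16731248) (l 16728800)) (c (l 16730920) (l 16731552))) (c (l 16731088) (l 16727168))) (c (a (l 16730400) (l 16721008)) (a (l 16726528) (l 16722488)))) (b (c (a (l 16721648) (l 16717448)) (a (l 16723080) (l 16718992))) (c (a (l 16716848) (l 16712680)) (l 16716416))))) (a (b (b (c (a (l 16722816) (l 16718528)) (a (l 16724152) (l 16719976))) (c (a (l 16718008) (l 16713760)) (a (l 16719496) (l 16715368))))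 (b (c (l 16711128) (l 16712848)) (c (l 16716904) (l 16708312)))) (b (b (c (l 16712096) (l 16713744)) (c (l 16717880) (l 16709200))) (c (a (l 16697264) (l 16698336)) (c (l 16701944) (l 16703024)))))), by decide +kernel⟩

def k85_A00pm_102_s1 : ∃ t, chk3 f_A00pm_102_s1 t 62 71 1 = true :=
  ⟨(a (c (c (b (a (b (a (c (l 16717384) (l 16717984)) (l 16718600)) (a (l 16717856) (l 16708312))) (b (a (l 16709024) (l 16704680)) (a (l 16704000) (l 16699680)))) (a (b (a (l 16707592) (l 16703304)) (c (l 16700056) (l 16700888))) (c (b (l 16696432) (l 16691456)) (b (l 16697288) (l 16692384))))) (b (a (b (a (l 16724184) (l 16714712)) (a (l 16714016) (l 16709816))) (b (a (l 16710480) (l 16706232)) (c (l 16703056) (l 16703928)))) (a (b (a (l 16709144) (l 16704960)) (l 16707464)) (b (l 16703912) (l 16693888))))) (b (b (a (a (c (l 16720344) (l 16721872)) (b (l 16712960) (l 16715856))) (c (a (l 16712088) (l 16707952)) (l 16711848))) (a (c (l 16713520) (l 16715288)) (c (l 16710568) (l 16707328)))) (a (c (b (l 16714064) (l 16714648))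 (b (l 16710768) (l 16706296))) (c (c (l 16708304) (l 16709400)) (c (l 16700064) (l 16701256)))))) (c (c (b (a (c (a (l 16697432) (l 16693072)) (a (l 16698256) (l 16693944))) (c (a (l 16688704) (l 16684328)) (l 16692712))) (a (b (l 16693504) (l 16683360)) (c (l 16676688) (l 16677808)))) (b (a (b (l 16705104) (l 16695056)) (b (l 16691376) (l 16686640))) (a (c (l 16687368) (l 16688480)) (c (l 16678992) (l 16680232))))) (a (b (c (c (l 16709408) (l 16710440)) (l 16704224)) (c (b (l 16692528) (l 16687984)) (l 16692808))) (b (c (l 16691232) (l 16693672)) (c (l 16676960) (l 16685048)))))), by decide +kernel⟩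

def k86_A00pm_102_s1 : ∃ t, chk3 f_A00pm_102_s1 t 63 17 1 = true :=
  ⟨(b (a (a (a (a (b (l 14) (b (l 14) (b (l 14) (c (l 16703920) (l 16712256))))) (l 14)) (l 14)) (l 14)) (l 14)) (a (b (c (a (b (a (b (c (l 16702416) (l 16703976)) (l 16693096)) (c (l 16700680) (l 16697208))) (b (c (l 16700888) (l 16692296)) (c (l 16685552) (l 16687600)))) (c (b (c (l 16688152) (l 16689112)) (c (l 16678560) (l 16679656))) (b (a (l 16692832) (l 14)) (l 16676168)))) (a (b (c (c (l 16700776) (l 16701752)) (l 16703304)) (c (l 16692120) (l 16694504))) (b (c (l 16692864) (l 16695288)) (c (l 16683944) (l 16686712))))) (c (a (c (b (b (l 16680712) (l 16675896)) (b (l 16671096) (l 16666312))) (b (a (l 16682696) (l 16678504)) (b (l 16673648) (l 16669048)))) (b (c (a (l 16671800) (l 16667464)) (l 16661768)) (c (a (l 16662328) (l 16658080)) (l 16663176)))) (a (b (c (l 16677880) (l 16685880)) (c (l 16663768) (l 16677424))) (b (b (l 16657848) (l 16653568)) (a (l 16649104) (l 16645360)))))) (c (a (b (a (a (b (l 14) (l 16664328)) (l 14))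 (l 14)) (c (b (l 16660968) (l 16651736)) (b (l 16664008) (l 16655128)))) (b (l 14) (b (c (l 16652352) (l 16655896)) (c (l 16643336) (l 16647240))))) (a (b (b (l 14) (c (l 16675928) (l 16679160))) (b (l 16669112) (l 16660824))) (b (l 14) (c (l 16655624) (l 16660032))))))), by decide +kernel⟩

def k87_A00pm_102_s1 : ∃ t, chk3 f_A00pm_102_s1 t 28 18 1 = true :=
  ⟨(b (b (l 3) (a (l 3) (c (a (b (l 3) (l 530062479)) (b (l 529905551) (l 529986959))) (b (a (l 3) (l 530321551)) (a (l 530485135) (l 530147215)))))) (a (a (b (l 3) (b (l 530662287) (l 530747791))) (b (c (b (l 530219151) (l 530299791)) (b (l 530377359) (l 530736527))) (c (l 530152079) (l 530333839)))) (b (c (a (b (l 530411919) (l 530225807)) (b (l 530069647) (a (l 530172047) (l 530136463)))) (a (b (a (l 530595215) (l 530561167)) (c (l 530550671) (l 530527119))) (b (l 530241423) (a (l 530621071) (l 530588047))))) (a (c (b (l 530309519) (l 530394767)) (b (l 530762895) (l 530855823))) (c (b (l 530239119) (l 530326159)) (b (c (l 530574991) (l 530559375))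 (l 530793103))))))), by decide +kernel⟩

def k88_A00pm_102_s1 : ∃ t, chk3 f_A00pm_102_s1 t 58 36 1 = true :=
  ⟨(b (a (b (l 3) (b (l 529919631) (l 529963919))) (a (b (b (l 3) (l 529820047)) (l 529937039)) (a (b (b (c (c (l 529518735) (l 529694607)) (l 529726863)) (l 529792399)) (l 529591183)) (b (c (b (l 529553551) (c (l 529470607) (l 529647759))) (b (l 529943183) (l 529682831))) (c (b (l 529632399) (l 529668751)) (a (l 530059407) (l 529779599))))))) (a (c (b (l 529830543) (l 530450319)) (b (l 529982095) (l 530212239))) (c (a (b (l 529776271) (l 529860495)) (b (a (l 529749647) (l 529729423)) (a (l 529834383) (l 529815439)))) (b (a (l 530197903) (a (l 530171791) (l 530151823))) (a (l 530295183) (a (l 530269583) (l 529982607))))))), by decide +kernel⟩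

def k89_A00pm_102_s1 : ∃ t, chk3 f_A00pm_102_s1 t 59 72 1 = true :=
  ⟨(c (a (b (b (a (l 529739919) (l 529372047)) (a (c (l 529396879) (l 529573263)) (l 529365647))) (a (b (a (l 529560463) (l 529489551)) (a (l 529618063) (l 529549967))) (b (l 529396879) (l 529446543)))) (b (b (a (l 529285263) (l 529211023)) (a (l 529275791) (c (l 529116815) (l 529288335)))) (a (b (l 529564047) (c (l 529245839) (l 529424783))) (b (a (l 529232271) (l 16749816)) (a (l 16748904) (l 16746120)))))) (a (b (b (a (l 529858447) (l 529755791)) (a (l 529338511) (l 529753743))) (a (b (a (l 529962127) (l 529888143)) (l 529714831)) (b (l 529791631) (l 529580687)))) (b (b (a (l 529665679) (l 529588623)) (a (l 529660559) (c (l 529479311) (l 529689743)))) (a (b (c (l 529581199) (l 529796495)) (c (l 529623695) (l 529842575))) (b (c (l 529496207) (l 529709711)) (a (l 529657231) (l 16747720))))))), by decide +kernel⟩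

def k90_A00pm_102_s1 : ∃ t, chk3 f_A00pm_102_s1 t 59 73 1 = true :=
  ⟨(a (c (a (b (a (l 529691023) (l 529636239)) (a (l 529783183) (l 529738127))) (b (b (l 529505423) (l 529836175)) (b (l 529896079) (l 530220175)))) (b (a (b (l 529788047) (l 529845647)) (b (l 529647759) (l 529717903))) (a (b (l 529900943) (l 529954703)) (b (a (l 530085519) (l 530021263)) (c (l 16746104) (l 530237583)))))) (c (b (a (c (b (l 529292431) (l 16745608)) (b (l 529474703) (l 529532303))) (c (b (l 16743520) (l 16737312)) (b (l 16744312) (l 16740832)))) (a (b (c (l 16742136) (l 16743032)) (a (l 16740624) (l 16737824))) (b (a (l 16735720) (l 16732848)) (a (l 16732352) (l 16729456))))) (b (c (a (b (l 529677199) (l 529738639)) (b (l 529573519) (l 16741824))) (a (b (l 529900175) (l 529965455)) (b (l 530062223) (a (l 16744256) (l 16741584))))) (a (b (a (l 529952399) (l 529885327)) (a (l 530022031) (c (l 16739496) (l 16740752)))) (b (a (c (l 16739920) (l 16741112)) (c (l 16737152) (l 16738416))) (a (c (l 16736736) (l 16738064)) (c (l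 16733936) (l 16735328)))))))), by decide +kernel⟩

def k91_A00pm_102_s1 : ∃ t, chk3 f_A00pm_102_s1 t 58 74 1 = true :=
  ⟨(a (c (b (a (l 530016143) (l 529980815)) (a (l 530101391) (l 530067087))) (b (b (l 530150543) (l 530198415)) (a (l 530286735) (l 530253967)))) (b (c (a (l 529945999) (c (l 529813135) (l 530015119))) (a (l 530123919) (b (l 530334607) (l 530115215)))) (c (a (l 530033039) (c (l 529898639) (l 530105487))) (a (l 530355599) (b (l 530164367) (l 530213519)))))), by decide +kernel⟩

def k92_A00pm_102_s1 : ∃ t, chk3 f_A00pm_102_s1 t 118 74 1 = true :=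
  ⟨(c (c (a (b (l 529757071) (l 16737792)) (b (l 530201743) (l 16732664))) (b (a (l 530227087) (a (l 16741560) (l 16738968))) (a (l 530053775) (a (l 16735232) (l 16732656))))) (b (a (b (l 530007439) (c (l 16744784) (l 530453647))) (a (b (l 530203791) (l 530260367)) (b (l 530147727) (l 530475919)))) (a (c (a (l 16741392) (l 16739048)) (b (l 530506639) (l 16740208))) (a (b (l 530315919) (l 16735912)) (b (l 529997455) (a (l 16734064) (l 16732808))))))), by decide +kernel⟩

def k93_A00pm_102_s1 : ∃ t, chk3 f_A00pm_102_s1 t 119 74 1 = true :=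
  ⟨(a (c (b (b (a (l 16737328) (l 16734544)) (c (l 16732096) (l 16733328))) (c (a (l 16728608) (l 16725808)) (a (l 16729992) (l 16727248)))) (b (b (c (l 16737752) (a (l 16740416) (l 16737792))) (c (l 16734688) (a (l 16737488) (l 16734872)))) (b (c (l 16731672) (a (l 16734608) (l 16732000))) (c (l 16728704) (a (l 16731776) (l 16729184)))))) (c (b (a (b (l 16731672) (l 16728440)) (b (l 16726136) (l 16722888))) (b (a (l 16725248) (a (c (l 16722264) (l 16718512)) (b (a (l 16722720) (l 16716648)) (l 16720400)))) (c (a (c (b (l 16721696) (l 16719888)) (l 16716256)) (l 16717512)) (a (b (l 16718352) (a (l 16722744) (l 16721016))) (l 16724432))))) (b (b (a (c (l 16733624) (l 16735088)) (c (l 16730808) (l 530286735))) (a (c (l 16730576) (l 16732184)) (c (l 16727744) (c (l 16728992) (l 16729864))))) (a (c (b (l 16727576) (a (b (l 16726048) (l 16724496)) (b (l 16719328) (l 16722824)))) (b (l 16726704) (b (a (l 16727880) (b (l 16726864) (l 16726080))) (a (c (l 16725912) (l 16721672)) (l 16724800))))) (c (b (b (c (l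 16725016) (l 16720632)) (a (l 16719400) (l 16722936))) (c (l 16720568) (l 16721536))) (b (b (a (l 16727976) (c (l 16726040) (b (l 16727392) (l 16726616)))) (a (c (l 16726008) (b (l 16727376) (l 16726600))) (l 16724840))) (c (l 16722552) (b (l 16724472) (l 16722744))))))))), by decide +kernel⟩

def k94_A00pm_102_s1 : ∃ t, chk3 f_A00pm_102_s1 t 58 75 1 = true :=
  ⟨(a (c (b (a (l 530188175) (l 530154639)) (a (l 530276751) (l 530243983))) (b (a (l 530382479) (l 530350479)) (a (l 530747023) (l 530447503)))) (c (b (a (l 530121615) (b (l 16738296) (l 16735184))) (a (l 530211727) (c (l 16729864) (l 16731360)))) (b (a (l 530487583) (c (l 530430095) (l 530417295))) (a (c (l 530558095) (l 530817423)) (c (l 530526863) (l 530517903)))))), by decide +kernel⟩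

def k95_A00pm_102_s1 : ∃ t, chk3 f_A00pm_102_s1 t 118 75 1 = true :=
  ⟨(c (b (b (a (l 16733616) (l 16728576)) (a (l 16730512) (c (l 16724704) (l 16726296)))) (b (a (l 16727456) (a (l 16718472) (c (l 16714776) (c (l 16721320) (l 16711752))))) (a (a (l 16725640) (l 16717960)) (a (c (l 16719536) (l 16716104)) (l 16727608))))) (a (b (c (a (l 16735464) (l 16733144)) (b (l 16737392) (l 16734616))) (c (b (l 16729992) (l 16727168)) (b (l 16731896) (a (l 16730320) (l 16728096))))) (b (c (b (l 16730944) (l 16728048)) (c (b (l 16732256) (l 16729472)) (b (l 16733184) (l 16730472)))) (c (b (a (l 16726432) (c (l 16717968) (l 16718976))) (a (c (l 16722832) (l 16718632)) (l 16720248))) (b (a (l 16723216) (c (c (l 16719768) (l 16720312)) (b (l 16721944) (l 16725648)))) (a (b (l 16721104) (l 16724784)) (l 16722584))))))), by decide +kernel⟩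

def k96_A00pm_102_s1 : ∃ t, chk3 f_A00pm_102_s1 t 119 75 1 = true :=
  ⟨(b (c (a (b (c (a (l 16723824) (c (l 16709936) (l 16715952))) (a (l 16725384) (a (l 16718016) (l 16716440)))) (c (a (l 16715192) (l 16716960)) (a (c (l 16711208) (l 16717344)) (l 16718768)))) (c (b (a (l 16717264) (l 16713392)) (l 16711256)) (b (a (l 16719008) (l 16715264)) (l 16718496)))) (a (c (b (a (l 16727104) (b (a (l 16725840) (l 16724400)) (a (l 16724288) (l 16722656)))) (a (b (l 16719616) (l 16717976)) (l 16720760))) (b (a (c (l 16728504) (l 16729496)) (a (b (l 16727744) (c (l 16725768) (l 16726800))) (b (c (l 16725848) (l 16726864)) (l 16724704)))) (a (b (a (l 16727568) (l 16720952)) (c (l 16724768) (l 16720616))) (l 16722944)))) (c (b (c (l 16723864) (a (l 16721448) (l 16717872))) (c (l 16714888) (l 16716040))) (b (c (a (l 16722496) (l 16719000)) (a (l 16723600) (l 16720184))) (c (l 16717248) (l 16718512)))))) (c (a (c (b (l 16714768) (l 16710760)) (b (l 16716704) (l 16712888))) (c (b (l 16707224) (l 16703216)) (b (l 16709408)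 (l 16705608)))) (c (a (b (l 16718840) (l 16715232)) (c (l 16709376) (l 16710704))) (a (b (c (l 16720568) (l 16721792)) (c (l 16717136) (l 16718480))) (b (c (l 16713792) (l 16715176)) (l 16711128)))))), by decide +kernel⟩

def k97_A00pm_102_s1 : ∃ t, chk3 f_A00pm_102_s1 t 28 38 1 = true :=
  ⟨(b (a (c (b (l 530315663) (l 530401935)) (a (l 531113615) (l 530784911))) (a (c (b (l 530482063) (l 530571407)) (b (l 530949263) (l 531042959))) (c (b (l 530415247) (l 530506383)) (b (l 530888335) (l 530983823))))) (b (a (a (l 531011471) (l 530949519)) (a (c (l 530663055) (l 531137679)) (c (l 530600079) (l 531080335)))) (a (a (l 529762335) (c (l 16730360) (l 16733176))) (c (a (l 16723296) (a (l 16728216) (l 16724400))) (a (l 16726672) (b (l 16731512) (l 16708080))))))), by decide +kernel⟩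

def k98_A00pm_102_s1 : ∃ t, chk3 f_A00pm_102_s1 t 28 39 1 = true :=
  ⟨(a (a (c (b (b (l 16742096) (l 16736912)) (b (l 16710952) (c (l 16715728) (l 16717536)))) (b (b (l 16723872) (l 16719136)) (b (l 16714576) (b (l 16711232) (l 16719528))))) (c (b (b (l 16735456) (l 16709312)) (b (a (l 16726992) (b (l 16724816) (l 16722296))) (a (b (l 16723320) (a (l 16721632) (l 16719584))) (b (a (l 16720544) (l 16718352)) (l 16716104))))) (b (b (l 16717768) (l 16713056)) (b (b (l 16709616) (a (l 16729896) (l 16716248))) (a (b (l 16727664) (l 16714672)) (b (c (l 16722848) (l 16725440)) (l 16721232))))))) (b (a (b (c (l 16707456) (l 16711312)) (b (c (l 16714056) (l 16718264)) (a (l 16715352) (c (b (l 16720720) (l 16719224)) (c (l 16723304) (l 16725848)))))) (a (b (b (l 16705224) (c (l 16721528) (l 16725976))) (c (b (b (l 16719384) (l 16717768)) (l 16715144)) (c (l 16709920) (l 16712624)))) (b (c (b (l 16720176) (l 16716968)) (b (l 16714216) (l 16711336))) (c (l 16711656) (c (l 16715696) (l 16718736)))))) (a (b (c (a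 (b (b (l 16721904) (l 16720512)) (b (l 16718992) (l 16717328))) (b (l 16716720) (l 16713240))) (a (b (l 16715208) (a (l 16724024) (l 16721952))) (b (l 16711208) (l 16718672)))) (c (a (c (l 16711808) (l 16714280)) (l 16708048)) (a (b (l 16720008) (l 16717024)) (b (l 16715656) (l 16712680))))) (b (a (c (l 16709872) (b (l 16717216) (l 16714176))) (c (l 16704608) (l 16700568))) (c (c (l 16698768) (l 16701960)) (b (l 16693144) (l 16705904))))))), by decide +kernel⟩

def k99_A00pm_102_s1 : ∃ t, chk3 f_A00pm_102_s1 t 58 38 1 = true :=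
  ⟨(b (c (a (b (a (l 16740048) (l 16735904)) (l 530175119)) (a (b (l 530303887) (b (l 16724648) (a (l 16722864) (l 16710080)))) (a (b (l 16725736) (b (l 16710800) (l 16717888))) (b (b (l 16724976) (l 16711496)) (b (c (l 16717672) (l 16719648)) (l 16714864)))))) (a (b (c (l 530431375) (l 530693007)) (a (l 530940303) (l 530910863))) (a (b (l 530717215) (b (l 16728544) (c (l 16724752) (l 16727048)))) (b (a (l 530492303) (b (l 16728744) (b (l 16726744) (l 16725360)))) (c (b (b (l 16713376) (l 16711816)) (l 16719792)) (b (a (l 16726616) (l 16724224)) (l 16722328))))))) (a (c (b (a (l 16725904) (b (l 16723192) (l 16720192))) (a (b (l 16721712) (l 16718640)) (b (l 16716872) (l 16713240)))) (a (b (l 16729832) (c (l 16712904) (l 16715368))) (c (b (b (l 16726208) (l 16723416)) (l 16718688)) (b (b (l 16728464) (l 16725832)) (l 16721400))))) (b (c (a (b (a (l 16719824) (l 16717112)) (l 16714840)) (b (l 16712632) (l 16708904))) (a (b (c (l 16721728) (l 16724192)) (l 16719768)) (b (l 16728208) (l 16714440)))) (c (a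 (l 16709312) (l 16703376)) (b (a (l 16716512) (l 16711200)) (a (l 16713296) (l 16708000))))))), by decide +kernel⟩

def k100_A00pm_102_s1 : ∃ t, chk3 f_A00pm_102_s1 t 59 38 1 = true :=
  ⟨(b (b (a (c (a (a (b (l 16717384) (c (l 16718368) (l 16720296))) (b (c (l 16718992) (l 16720856)) (l 16716136))) (c (l 16722464) (b (l 16716016) (l 16712264)))) (a (c (b (a (l 16725512) (l 16717680)) (a (l 16722416) (l 16719464))) (b (a (l 16727672) (b (l 16720744) (l 16724416))) (a (l 16724744) (l 16721952)))) (b (c (l 16718296) (c (l 16720144) (l 16721440))) (c (l 16714760) (l 16717488))))) (a (c (c (l 16704808) (l 16707232)) (c (c (l 16709216) (l 16710616)) (b (l 16714480) (l 16711200)))) (c (c (l 16697272) (l 16710456)) (c (l 16702944) (b (l 16707824) (l 16704568)))))) (a (a (c (c (l 16710928) (l 16713216)) (c (l 16718360) (b (l 16720120) (l 16716888)))) (c (c (l 16704152) (l 16706712)) (c (l 16709536) (l 16715248)))) (c (c (a (l 16696984) (l 16689464)) (b (l 16698072) (l 16694408))) (c (a (l 16702952) (l 16696016))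 (a (l 16706368) (l 16699768)))))) (b (c (a (a (l 16707152) (l 16697896)) (c (l 16685576) (l 16688984))) (a (b (a (l 16712112) (l 16706088)) (a (l 16708840) (l 16702840))) (c (a (l 16696152) (l 16689248)) (a (l 16700080) (l 16693520))))) (c (a (c (l 16692296) (l 16695560)) (c (l 16678016) (l 16681864))) (c (a (l 16699152) (l 16686104)) (a (a (l 16705936) (l 16700136)) (a (l 16693960) (l 16687448))))))), by decide +kernel⟩

def k101_A00pm_102_s1 : ∃ t, chk3 f_A00pm_102_s1 t 29 39 1 = true :=
  ⟨(a (b (a (c (b (a (l 16716024) (l 16707800)) (c (l 16702024) (l 16704952))) (b (a (c (l 16717240) (l 16720120)) (l 16703176)) (c (l 16708192) (l 16701248)))) (a (b (c (l 16702040) (l 16708544)) (c (l 16694888) (l 16702336))) (c (b (l 16696112) (l 16688968)) (b (l 16703272) (l 16697096))))) (b (a (c (c (l 16694776) (l 16698128)) (a (l 16706272) (l 16701352))) (c (l 16690184) (a (l 16696280) (l 16691064)))) (a (c (l 16694712) (a (l 16700304) (l 16695408))) (c (l 16678016) (a (l 16690360) (l 16685168)))))) (b (a (c (b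 (a (l 16689904) (l 16683288)) (l 16684752)) (b (c (l 16692608) (l 16697064)) (c (l 16686208) (l 16691208)))) (c (b (c (l 16670576) (l 16674880)) (l 16668200)) (b (c (l 16679624) (l 16684800)) (a (l 16679376) (l 16672752))))) (c (a (b (l 16672496) (l 16665592)) (b (l 16658592) (l 16651712))) (a (b (c (l 16679952) (l 16685512)) (c (l 16673824) (l 16679960))) (b (a (l 16673440) (l 16666856)) (a (l 16667640) (l 16661096))))))), by decide +kernel⟩

def k102_A00pm_102_s1 : ∃ t, chk3 f_A00pm_102_s1 t 60 144 1 = true :=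
  ⟨(a (a (c (b (a (l 529163663) (l 529136015)) (a (l 529152655) (l 16747984))) (b (a (l 529539215) (l 529510287)) (a (l 529532559) (l 16749416)))) (c (b (a (l 529111695) (l 16746152)) (c (l 16743344) (l 16744072))) (b (a (l 16750368) (l 16747632)) (a (l 16746688) (l 16743936))))) (c (c (b (a (l 16741432) (l 16732856)) (b (a (l 16738448) (l 16732472)) (a (l 16736480) (a (l 16732008) (l 16723648))))) (a (b (l 16742176) (l 16738312)) (b (l 16736336) (a (l 16733920) (a (l 16731712) (l 16724896)))))) (c (a (b (l 16743016) (l 16739248)) (b (l 16737296) (a (l 16734960) (b (l 16733008) (l 16720560))))) (a (b (l 16743936) (l 16740280)) (b (l 16738360) (a (l 16736096) (b (l 16734184) (l 16721808)))))))), by decide +kernel⟩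

def k103_A00pm_102_s1 : ∃ t, chk3 f_A00pm_102_s1 t 60 145 1 = true :=
  ⟨(a (a (c (b (a (l 16747016) (l 16744176)) (c (l 16741480) (l 16742288))) (b (a (l 16748520) (l 16745816)) (a (l 16745024) (l 16742296)))) (c (b (a (l 16738688) (l 16735792)) (a (l 16737552) (l 16732016))) (b (a (l 16743080) (l 16740312)) (a (l 16739544) (l 16736752))))) (a (a (c (b (b (l 16736448) (l 16734536)) (l 16729072)) (b (l 16737512) (l 16733944))) (c (b (l 16727296) (a (l 16729480) (c (l 16722176) (l 16723264)))) (b (l 16734696) (b (l 16732000) (c (l 16724296) (l 16725640)))))) (b (c (a (a (l 16730312) (c (l 16723000) (l 16724048))) (b (a (b (l 16728744) (l 16722448)) (l 16726352)) (a (l 16720744) (l 16723960)))) (a (a (l 16732560) (c (l 16725216) (l 16726504))) (b (a (l 16725288) (l 16728792)) (a (l 16723216) (l 16726576))))) (c (c (a (a (b (l 16726856) (l 16724712)) (b (l 16725072) (l 16722680))) (l 16720808)) (a (b (a (l 16727944) (l 16726208)) (a (l 16725864) (l 16723896))) (l 16722072))) (a (a (b (c (l 16729160) (l 16730496))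 (b (l 16723120) (l 16727304))) (b (c (l 16727464) (l 16728848)) (l 16725968))) (c (l 16720856) (c (l 16724616) (l 16725424)))))))), by decide +kernel⟩

def k104_A00pm_102_s1 : ∃ t, chk3 f_A00pm_102_s1 t 120 146 1 = true :=
  ⟨(c (b (a (a (l 16737032) (l 16734152)) (a (l 16731240) (l 16728312))) (a (a (l 16733456) (l 16730552)) (a (l 16727624) (c (l 16721464) (l 16722632))))) (c (a (b (l 16739688) (a (l 16737672) (l 16734872))) (a (b (l 16735480) (l 16732032)) (b (l 16732640) (a (l 16729896) (l 16723208))))) (a (b (a (l 16742152) (l 16739440)) (a (l 16738872) (l 16736144))) (a (b (l 16736704) (l 16733376)) (b (l 16733936) (b (l 16731416) (l 16724520))))))), by decide +kernel⟩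

def k105_A00pm_102_s1 : ∃ t, chk3 f_A00pm_102_s1 t 120 147 1 = true :=
  ⟨(c (a (a (b (l 16729952) (l 16726528)) (b (l 16727024) (l 16723576))) (a (b (c (l 16726104) (l 16722072)) (c (b (a (l 16724200) (b (l 16723088) (l 16722104))) (a (l 16722344) (l 16720464))) (b (a (l 16725480) (b (l 16724384) (l 16723432))) (a (b (l 16724176) (l 16723240)) (l 16721864))))) (b (c (b (a (l 16724744) (b (l 16723624) (l 16722600))) (a (b (l 16723344) (l 16722336)) (l 16720912))) (b (a (l 16725976) (b (l 16724872) (l 16723880))) (a (b (l 16724616) (l 16723648)) (l 16722256)))) (c (l 16718560) (c (l 16719624) (l 16720384)))))) (a (c (a (b (l 16734352) (l 16731104)) (b (l 16731520) (l 16728248))) (a (b (l 16735680) (b (l 16733336) (l 16731808))) (b (l 16732920) (b (l 16730560) (l 16729016))))) (b (b (a (l 16727584) (c (a (l 16727336) (c (l 16725400) (l 16720896))) (a (l 16728840) (b (l 16727784) (l 16726864))))) (c (a (l 16727824) (a (c (l 16725176) (l 16720680)) (l 16723752))) (a (l 16729336) (a (b (l 16727584) (a (l 16727120)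 (l 16726256))) (l 16725392))))) (a (c (b (a (l 16726904) (c (l 16724968) (l 16720496))) (a (c (l 16724792) (l 16720328)) (l 16723408))) (b (a (l 16728464) (a (b (l 16727800) (l 16726968)) (b (l 16727040) (l 16726104)))) (a (b (l 16727264) (a (l 16726832) (l 16725984))) (l 16725112)))) (c (c (l 16721184) (l 16722024)) (c (l 16722904) (a (l 16724720) (l 16722920)))))))), by decide +kernel⟩

def k106_A00pm_102_s1 : ∃ t, chk3 f_A00pm_102_s1 t 121 146 1 = true :=
  ⟨(a (b (b (c (a (l 16728896) (a (a (l 16727040) (l 16721016)) (b (l 16720248) (l 16724376)))) (a (l 16731312) (a (b (l 16729616) (l 16723472)) (c (l 16721592) (l 16723024))))) (c (a (c (l 16726464) (l 16727616)) (a (c (b (l 16724584) (l 16723472)) (l 16719968)) (l 16722640))) (a (c (l 16728888) (l 16725040)) (a (b (a (l 16728200) (l 16727352)) (l 16724136)) (l 16722800))))) (c (a (a (b (l 16720704) (b (c (l 16723928) (l 16725152)) (l 16718240))) (b (c (b (l 16724248) (l 16723168)) (l 16719672)) (l 16722072))) (c (l 16719552) (b (l 16722016) (l 16719784))))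 (c (a (b (a (l 16727864) (b (l 16726776) (l 16725776))) (a (c (l 16725648) (l 16721128)) (l 16724176))) (c (l 16722008) (l 16722792))) (a (b (a (l 16729312) (c (l 16727360) (l 16722896))) (a (a (l 16722704) (l 16727112)) (l 16725760))) (a (l 16722328) (l 16720496)))))) (a (b (c (c (l 16720152) (c (l 16721112) (l 16721800))) (c (l 16720280) (c (l 16724080) (l 16724912)))) (c (c (l 16715472) (c (l 16716560) (l 16717336))) (c (l 16715944) (c (l 16719896) (l 16720832))))) (c (c (b (l 16716056) (l 16711368)) (b (l 16717480) (l 16712952))) (c (b (l 16716440) (c (l 16714264) (l 16715184))) (b (c (l 16720344) (l 16721256)) (c (l 16716152) (l 16717168))))))), by decide +kernel⟩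

def k107_A00pm_102_s1 : ∃ t, chk3 f_A00pm_102_s1 t 121 147 1 = true :=
  ⟨(c (a (c (b (a (l 16719016) (l 16714960)) (a (l 16714512) (l 16710424))) (b (c (a (l 16720048) (l 16716072)) (a (l 16720784) (l 16716872))) (a (l 16718696) (l 16714736)))) (c (b (a (l 16710864) (l 16706736)) (a (l 16706312) (l 16702168))) (b (a (l 16712496) (l 16708496)) (a (l 16708120) (l 16704104))))) (a (c (b (a (c (l 16721552) (l 16722368)) (c (l 16717712) (l 16718592))) (c (a (l 16717360) (l 16713496)) (a (l 16718264) (l 16714472)))) (c (b (a (l 16723216) (l 16719512)) (a (l 16719216) (l 16715504))) (b (a (l 16724104) (l 16720480)) (a (l 16720216) (l 16716576))))) (c (b (c (a (l 16713840) (l 16709944)) (a (l 16714792) (l 16710968))) (c (a (l 16709608) (l 16705696)) (a (l 16710656) (l 16706816)))) (b (a (c (l 16715792) (l 16716832)) (c (l 16712032) (l 16713152))) (a (c (l 16711760) (l 16712912)) (c (l 16708000) (l 16709224))))))), by decide +kernel⟩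

def k108_A00pm_102_s1 : ∃ t, chk3 f_A00pm_102_s1 t 122 72 1 = true :=
  ⟨(b (a (b (c (a (b (l 16727144) (a (l 16731160) (a (l 16719472) (l 16729040)))) (b (c (l 16723200) (l 16718960)) (l 16721240))) (a (b (l 16723968) (a (l 16733296) (l 16721216))) (b (l 16725920) (l 16728888)))) (c (a (b (a (a (l 16719024) (l 16718136)) (l 16727112)) (l 16720464)) (b (l 16718808) (l 16716392))) (a (b (a (l 16720816) (l 16729480)) (l 16722936)) (c (l 16724776) (l 16726232))))) (c (c (b (a (l 16723040) (l 16718848)) (a (l 16718096) (l 16713912))) (b (a (l 16724200) (l 16720128)) (a (l 16719408) (l 16715344)))) (c (b (l 16723520) (a (l 16720864) (l 16716936))) (b (l 16725008) (l 16720576))))) (c (a (c (b (a (l 16721512) (l 16717376)) (a (l 16716696) (l 16712552))) (b (a (l 16722744) (l 16718728)) (a (l 16718080) (l 16714056)))) (c (b (a (l 16713216) (l 16709024)) (a (l 16708384) (l 16704184))) (b (a (l 16714680) (l 16710616)) (a (l 16710008) (l 16705944))))) (b (a (c (c (l 16719168) (l 16722536)) (b (l 16724816) (l 16722648)))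 (c (a (l 16716312) (l 16712376)) (c (l 16715720) (l 16716696)))) (a (c (c (l 16714632) (l 16715472)) (c (l 16718976) (l 16719896))) (c (a (l 16711816) (l 16707888)) (c (l 16706136) (l 16707208))))))), by decide +kernel⟩

def k109_A00pm_102_s1 : ∃ t, chk3 f_A00pm_102_s1 t 123 72 1 = true :=
  ⟨(c (a (a (b (c (c (l 16706568) (l 16707272)) (b (l 16716040) (l 16711256))) (b (c (l 16704808) (l 16706528)) (c (l 16699976) (l 16701856)))) (b (c (c (l 16702312) (l 16703072)) (b (l 16711920) (l 16707152))) (b (c (l 16700584) (l 16702424)) (c (l 16695744) (l 16697760))))) (b (c (a (b (l 16706160) (l 16701232)) (b (l 16701912) (l 16696992))) (b (a (l 16707800) (l 16703664)) (a (l 16703032) (l 16698904)))) (c (a (b (l 16696352) (l 16691520)) (b (l 16692120) (l 16687296))) (a (b (l 16698320) (l 16693656)) (b (l 16694200) (l 16689544)))))) (b (b (a (c (l 16715600) (l 16717384)) (c (l 16702360) (l 16709664))) (a (c (a (l 16712984) (l 16709008)) (l 16712960)) (c (l 16697776) (l 16700032)))) (a (c (b (a (l 16708432) (l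 16704464)) (a (l 16703944) (l 16699984))) (a (c (l 16702560) (l 16703696)) (c (l 16698712) (l 16694688)))) (c (b (a (l 16700488) (l 16696504)) (a (l 16696016) (l 16692040))) (b (a (l 16702872) (l 16699024)) (a (l 16698600) (l 16694768))))))), by decide +kernel⟩

def k110_A00pm_102_s1 : ∃ t, chk3 f_A00pm_102_s1 t 61 73 2 = true :=
  ⟨(a (b (b (a (c (a (l 16711936) (l 16707776)) (a (l 16713480) (l 16709448))) (a (c (l 16703600) (l 16705400)) (c (l 16699400) (l 16701328)))) (a (c (a (l 16707232) (l 16703064)) (a (l 16708944) (l 16704904))) (c (a (l 16698880) (l 16694672)) (a (l 16700848) (l 16696776))))) (b (a (c (a (l 16702584) (l 16698408)) (a (l 16704472) (l 16700424))) (c (a (l 16694216) (l 16690000)) (a (l 16696360) (l 16692280)))) (a (c (a (l 16698000) (l 16693808)) (a (l 16700064) (l 16696008))) (c (a (l 16689608) (l 16685384)) (a (l 16691928) (l 16687848)))))) (a (a (b (c (b (c (l 16694704) (l 16695680)) (c (l 16689936) (l 16690992))) (b (l 16697240) (c (l 16692104) (l 16693280)))) (c (b (c (l 16685208)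 (l 16686352)) (c (l 16680536) (l 16681768))) (b (c (l 16687560) (l 16688832)) (c (l 16683072) (l 16684440))))) (b (b (c (c (l 16690448) (l 16691488)) (l 16693144)) (c (c (l 16685672) (l 16686792)) (c (l 16687976) (l 16689216)))) (c (b (c (l 16680944) (l 16682152)) (c (l 16676272) (l 16677568))) (b (c (l 16683424) (l 16684768)) (c (l 16678936) (l 16680376)))))) (b (c (a (b (c (l 16686200) (l 16687288)) (c (l 16681416) (l 16682600))) (b (c (l 16681944) (l 16683096)) (c (l 16677168) (l 16678408)))) (a (b (l 16689048) (c (l 16683840) (l 16685152))) (b (l 16684944) (l 16680392)))) (c (b (a (c (l 16676688) (l 16677960)) (c (l 16672440) (l 16673768))) (a (c (l 16672008) (l 16673368)) (c (l 16667760) (l 16669176)))) (b (a (c (l 16679296) (l 16680704)) (c (l 16675168) (l 16676640))) (a (c (l 16674800) (l 16676312)) (c (l 16670672) (l 16672248)))))))), by decide +kernel⟩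

def k111_A00pm_102_s1 : ∃ t, chk3 f_A00pm_102_s1 t 61 73 3 = true :=
  ⟨(a (c (a (b (b (c (l 16710160) (l 16711096)) (a (c (l 16710352) (l 16711344)) (l 16701696))) (b (a (c (l 16706016) (l 16707112)) (c (l 16702080) (l 16703248))) (a (c (l 16701760) (l 16702960)) (c (l 16697808) (l 16699080))))) (b (b (a (l 16707384) (l 16703456)) (a (l 16703024) (l 16699096))) (b (c (a (l 16698120) (l 16694144)) (a (l 16699360) (l 16695464))) (c (a (l 16693840) (l 16689864)) (a (l 16695192) (l 16691288)))))) (a (b (c (b (l 16712072) (a (l 16712384) (l 16708600))) (b (l 16715720) (a (l 16713480) (l 16709768)))) (b (a (l 16706232) (c (l 16704472) (l 16705752))) (c (a (l 16704216) (l 16700416)) (a (l 16705520) (l 16701800))))) (b (b (a (l 16709568) (l 16705792)) (a (c (l 16704800) (l 16706048)) (l 16696400))) (b (a (c (l 16700664) (l 16702024)) (c (l 16696848) (l 16698288))) (a (c (l 16696600) (l 16698072)) (c (l 16692776) (l 16694336))))))) (a (b (c (b (c (l 16691688) (l 16692912)) (a (c (l 16694512) (l 16695808)) (c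 (l 16690528) (l 16691896)))) (b (a (l 16696768) (l 16698208)) (a (l 16692616) (l 16688816)))) (c (b (a (c (l 16690160) (l 16691560)) (c (l 16686176) (l 16687648))) (a (c (l 16685872) (l 16687384)) (c (l 16681888) (l 16683464)))) (b (a (c (l 16693024) (l 16694544)) (l 16684744)) (c (a (l 16688952) (l 16685120)) (a (l 16690592) (l 16686848)))))) (b (b (c (a (l 16691600) (l 16687632)) (c (l 16686496) (l 16687992))) (c (a (l 16687240) (l 16683280)) (a (l 16685008) (l 16686440)))) (c (a (b (c (l 16682184) (l 16683728)) (c (l 16677896) (l 16679552))) (b (c (l 16678184) (l 16679808)) (c (l 16673904) (l 16675632)))) (a (b (l 16680936) (c (l 16681280) (l 16683088))) (c (b (l 16681496) (l 16677440)) (b (l 16683264) (l 16679328)))))))), by decide +kernel⟩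

def k112_A00pm_102_s1 : ∃ t, chk3 f_A00pm_102_s1 t 120 74 2 = true :=
  ⟨(a (b (a (b (l 16723176) (a (b (l 16724088) (b (l 16722848) (l 16716720))) (c (b (l 16721800) (l 16719840)) (b (l 16723232) (l 16721344))))) (b (c (b (a (l 16723752) (l 16722136)) (a (l 16721960) (l 16720104))) (b (a (l 16725088) (b (l 16723984) (l 16723072))) (a (b (l 16723824) (l 16722928)) (l 16721552)))) (c (l 16712648) (c (l 16719040) (l 16719856))))) (c (b (a (l 16717704) (l 16713672)) (a (l 16713552) (l 16709520))) (b (a (c (l 16718896) (l 16719744)) (l 16715408)) (a (l 16715352) (l 16711448))))) (b (c (b (a (l 16723424) (l 16714136)) (a (l 16713856) (l 16709792))) (b (a (c (l 16719288) (l 16720080)) (l 16721000)) (a (l 16715536) (l 16711584)))) (c (b (a (l 16709608) (l 16705512)) (l 16698136)) (b (a (l 16711464) (l 16707496)) (a (l 16707480) (l 16703480)))))), by decide +kernel⟩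

def k113_A00pm_102_s1 : ∃ t, chk3 f_A00pm_102_s1 t 120 74 3 = true :=
  ⟨(a (b (b (a (c (l 16727944) (a (l 16730248) (l 16728848))) (c (b (a (l 16726568) (c (l 16724632) (l 16720192))) (a (c (l 16724504) (l 16725320)) (l 16723160))) (b (a (l 16728192) (b (l 16727136) (a (l 16726720) (l 16725880)))) (a (b (l 16727040) (a (l 16726640) (l 16725808))) (l 16724920))))) (a (a (b (l 16727176) (c (c (l 16724328) (l 16725176)) (c (l 16720824) (b (l 16727400) (l 16726616))))) (c (b (c (l 16724408) (l 16725232)) (l 16723008)) (b (b (l 16726976) (a (l 16726584) (l 16725760))) (l 16724840)))) (c (b (l 16724760) (l 16720192)) (c (b (l 16723496) (l 16721640)) (b (l 16724448) (l 16722648)))))) (c (b (c (a (l 16720640) (l 16716832)) (a (l 16721576) (l 16717840))) (a (l 16722584) (l 16718816))) (b (a (c (b (l 16723456) (l 16721648)) (b (l 16724448) (l 16722696))) (c (l 16718896) (l 16717376))) (c (a (l 16718968) (l 16715304)) (a (l 16720104) (l 16716520)))))) (b (c (b (c (a (l 16720904) (l 16717088)) (a (l 16721776) (l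 16718024))) (c (a (l 16716904) (l 16713064)) (a (l 16717880) (l 16714104)))) (b (c (a (b (l 16723640) (l 16721728)) (l 16719008)) (a (b (l 16724568) (l 16722704)) (l 16717416))) (c (a (l 16718896) (l 16715200)) (a (b (l 16720872) (l 16719056)) (l 16716336))))) (a (c (b (c (l 16712992) (l 16714072)) (l 16709752)) (b (c (l 16715200) (l 16716376)) (c (l 16711592) (l 16712888)))) (c (b (l 16714936) (l 16705880)) (b (c (l 16711472) (l 16712728)) (c (l 16707840) (l 16709216))))))), by decide +kernel⟩

def k114_A00pm_102_s1 : ∃ t, chk3 f_A00pm_102_s1 t 120 75 1 = true :=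
  ⟨(c (b (a (c (a (l 16717896) (l 16713872)) (b (a (l 16711440) (l 16707536)) (l 16705624))) (c (a (l 16709768) (l 16705616)) (b (a (l 16703568) (l 16699544)) (l 16697688)))) (a (c (b (l 16699344) (l 16695344)) (b (l 16701792) (l 16698000))) (c (b (l 16691168) (l 16687176)) (b (l 16693880) (l 16690096))))) (b (c (a (c (b (l 16711176) (l 16707464)) (b (l 16712368) (l 16708768))) (b (a (l 16706048) (l 16702160)) (a (l 16702408) (l 16698512)))) (a (b (c (a (l 16715432) (l 16711784)) (l 16714912)) (a (l 16712624) (l 16709024))) (b (c (l 16703560) (a (l 16709480) (l 16705792))) (c (l 16702704) (l 16701672))))) (b (a (c (l 16709744) (c (l 16706696) (l 16708240))) (c (l 16696872) (c (l 16699304) (l 16701016)))) (a (c (l 16700928) (l 16704128)) (c (l 16693320) (c (l 16695936) (l 16697776))))))), by decide +kernel⟩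

def k115_A00pm_102_s1 : ∃ t, chk3 f_A00pm_102_s1 t 121 74 1 = true :=
  ⟨(c (b (a (c (b (a (l 16710064) (l 16705960)) (a (l 16705688) (l 16701560))) (b (a (l 16711808) (l 16707824)) (a (l 16707616) (l 16703608)))) (c (b (a (l 16701824) (l 16697664)) (a (l 16697400) (l 16693224))) (b (a (l 16703816) (l 16699784)) (a (l 16699576) (l 16695528))))) (a (c (b (a (l 16701384) (l 16697232)) (a (l 16697144) (l 16692968))) (b (a (l 16703496) (l 16699464)) (a (l 16699448) (l 16695400)))) (c (b (a (l 16693048) (l 16688848)) (a (l 16688760) (l 16684536))) (c (b (l 16692744) (l 16688592)) (b (l 16694024) (l 16689976)))))) (b (c (a (c (b (a (l 16713232) (l 16709352)) (a (l 16709192) (l 16705288))) (b (a (l 16714248) (l 16710440)) (a (l 16710304) (l 16706480)))) (b (a (c (l 16705448) (l 16706600)) (c (l 16701520) (l 16702752))) (a (c (l 16701360) (l 16702624)) (c (l 16697416) (l 16698752))))) (a (b (a (c (l 16715304) (l 16716408)) (c (l 16711568) (l 16712752))) (c (a (l 16711472) (l 16707720)) (a (l 16712688) (l 16709016))))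 (b (c (a (l 16707816) (l 16704032)) (a (l 16709072) (l 16705376))) (c (a (l 16703944) (l 16700152)) (a (l 16705328) (l 16701616)))))) (c (a (b (a (l 16711072) (l 16701936)) (a (l 16701992) (l 16698088))) (a (b (l 16698032) (l 16694152)) (b (l 16694104) (l 16690208)))) (a (b (c (a (l 16707728) (l 16703952)) (a (l 16709064) (l 16705368))) (c (l 16699544) (a (l 16705520) (l 16701808)))) (b (a (c (l 16700160) (l 16701656)) (c (l 16696352) (l 16697928))) (c (a (l 16696456) (l 16692624)) (a (l 16698072) (l 16694328)))))))), by decide +kernel⟩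

def k116_A00pm_102_s1 : ∃ t, chk3 f_A00pm_102_s1 t 121 75 1 = true :=
  ⟨(c (b (b (a (c (l 16690880) (l 16688200)) (c (l 16682416) (a (l 16687304) (l 16683184)))) (a (c (l 16686784) (l 16689552)) (c (l 16678248) (a (l 16683360) (l 16679216))))) (c (a (b (l 16682728) (l 16678744)) (b (l 16674152) (l 16670144))) (a (b (l 16685712) (l 16681936)) (b (l 16677400) (l 16673608))))) (b (a (c (b (c (l 16695544) (l 16697024)) (c (l 16691816) (l 16693416))) (b (c (l 16701200) (l 16697576)) (c (l 16695088) (l 16694216)))) (c (b (c (l 16687560) (l 16689200)) (c (l 16683768) (l 16685528))) (b (c (l 16685664) (a (l 16694576) (l 16690816))) (a (l 16690224) (l 16681152))))) (b (a (c (l 16683752) (c (l 16691664) (l 16693536))) (c (l 16675744) (b (l 16680504) (l 16678824)))) (a (c (l 16685456) (c (l 16688312) (l 16690320))) (c (a (l 16679440) (l 16675392)) (c (l 16680528) (l 16682704))))))), by decide +kernel⟩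

def k117_A00pm_102_s1 : ∃ t, chk3 f_A00pm_102_s1 t 122 74 1 = true :=
  ⟨(c (b (b (a (c (a (l 16693480) (l 16689272)) (a (l 16695728) (l 16691656))) (c (a (l 16685056) (l 16680824)) (a (l 16687568) (l 16683472)))) (c (a (a (l 16689016) (l 16684800)) (a (l 16680560) (l 16676320))) (a (a (l 16691456) (l 16687368)) (a (l 16683272) (l 16679160))))) (a (b (c (a (l 16684624) (l 16680384)) (a (l 16687256) (l 16683152))) (c (a (l 16680288) (l 16676032)) (a (l 16683120) (l 16679000)))) (c (b (a (l 16676136) (l 16671872)) (a (l 16671760) (l 16667488))) (b (a (l 16679040) (l 16674920)) (a (l 16674872) (l 16670736)))))) (c (b (a (b (b (a (l 16699240) (l 16695320)) (a (l 16697192) (l 16693264))) (c (a (l 16693456) (l 16689480)) (a (l 16694864) (l 16690968)))) (b (a (c (l 16689632) (l 16691088)) (c (l 16685648) (l 16687176))) (a (c (l 16685488) (l 16687056)) (c (l 16681496) (l 16683144))))) (a (a (b (l 16695408) (l 16686248)) (b (c (l 16685416) (l 16687016)) (l 16682280))) (c (a (b (l 16681416) (l 16677416)) (b (l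 16677408) (l 16673400))) (b (a (l 16683096) (l 16679168)) (a (l 16679208) (l 16675272)))))) (b (a (b (a (c (l 16700240) (l 16701664)) (c (l 16696432) (l 16697936))) (a (c (l 16696344) (l 16697888)) (c (l 16692520) (l 16694152)))) (b (a (c (l 16692608) (l 16694200)) (c (l 16688784) (l 16690456))) (c (a (l 16688696) (l 16684864)) (a (l 16690408) (l 16686656))))) (a (b (c (a (l 16692528) (l 16688696)) (a (l 16694192) (l 16690440))) (c (a (l 16688784) (l 16684944)) (a (l 16690576) (l 16686816)))) (b (c (a (l 16684856) (l 16681016)) (a (l 16686688) (l 16682936))) (c (a (l 16681088) (l 16677240)) (a (l 16683048) (l 16679280)))))))), by decide +kernel⟩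

def k118_A00pm_102_s1 : ∃ t, chk3 f_A00pm_102_s1 t 122 75 1 = true :=
  ⟨(c (b (c (a (b (a (l 16676024) (l 16671744)) (l 16669672)) (a (b (l 16667456) (l 16663216)) (b (l 16663160) (l 16658904)))) (a (b (a (l 16679056) (l 16674920)) (a (l 16675064) (l 16670904))) (b (c (l 16667816) (l 16669592)) (a (l 16666736) (l 16662576))))) (c (a (b (l 16665520) (l 16661440)) (b (l 16656864) (l 16652736))) (a (b (l 16674296) (l 16665192)) (b (a (l 16662776) (l 16658592)) (a (l 16658880) (l 16654680)))))) (b (c (a (b (a (l 16682408) (l 16678424)) (a (l 16678640) (l 16674640))) (b (a (l 16674432) (l 16675680)) (a (l 16670632) (l 16666624)))) (a (b (c (a (l 16685128) (l 16681264)) (a (l 16687040) (l 16683264))) (c (a (l 16681552) (l 16677664)) (a (l 16683592) (l 16679800)))) (b (c (a (l 16677400) (l 16673536)) (a (l 16679488) (l 16675712))) (c (a (l 16673784) (l 16669912)) (a (l 16676008) (l 16672216)))))) (a (c (b (a (l 16674960) (l 16670928)) (a (l 16671344) (l 16667296))) (b (c (l 16676096) (l 16673072)) (b (l 16669424)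 (l 16667760)))) (c (b (a (l 16666904) (l 16662880)) (c (l 16660072) (l 16662400))) (b (c (a (l 16670248) (l 16666360)) (a (l 16672600) (l 16668800))) (c (l 16664832) (a (l 16669280) (l 16665464)))))))), by decide +kernel⟩

def k119_A00pm_102_s1 : ∃ t, chk3 f_A00pm_102_s1 t 123 37 2 = true :=
  ⟨(b (b (a (c (b (a (l 16676576) (l 16672328)) (a (l 16672064) (l 16667808))) (b (a (c (l 16678640) (l 16680112)) (c (l 16674504) (l 16676040))) (a (c (l 16674272) (l 16675848)) (c (l 16670128) (l 16671768))))) (b (c (a (c (l 16667376) (l 16668832)) (c (l 16663120) (l 16664640))) (a (c (l 16670360) (l 16671976)) (c (l 16666232) (l 16667912)))) (c (a (l 16663568) (l 16659336)) (a (c (l 16665984) (l 16667696)) (c (l 16661848) (l 16663632)))))) (a (c (b (a (l 16667608) (l 16663344)) (a (l 16663208) (l 16658928))) (b (a (c (l 16669968) (l 16671640)) (c (l 16665808) (l 16667560))) (a (l 16666600) (l 16667712)))) (c (b (a (l 16659088) (l 16654856)) (a (l 16654672) (l 16650424))) (b (a (c (l 16661656) (l 16663480)) (l 16661080))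 (a (l 16663592) (l 16659488)))))) (b (b (c (a (a (l 16658864) (l 16654576)) (a (l 16650304) (l 16646056))) (a (a (l 16662472) (l 16658328)) (a (l 16654200) (l 16650088)))) (c (a (a (l 16654584) (l 16650288)) (a (l 16646000) (l 16641736))) (a (a (l 16658408) (l 16654256)) (a (l 16650112) (l 16645984))))) (c (a (a (b (l 16650368) (l 16646216)) (b (l 16646048) (l 16641872))) (a (b (l 16641752) (l 16637560)) (b (l 16637472) (l 16633272)))) (a (b (a (l 16654408) (l 16650240)) (a (l 16650480) (l 16646296))) (a (b (l 16646088) (l 16642128)) (b (l 16641952) (l 16637976))))))), by decide +kernel⟩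

def k120_A00pm_102_s1 : ∃ t, chk3 f_A00pm_102_s1 t 123 74 3 = true :=
  ⟨(c (a (b (c (b (a (l 16681656) (l 16677656)) (a (l 16677496) (l 16673496))) (b (a (l 16683264) (l 16679352)) (a (l 16679224) (l 16675304)))) (b (a (c (l 16673400) (l 16675248)) (c (l 16669400) (l 16671320))) (a (c (l 16669376) (l 16671336)) (c (l 16665368) (l 16667408))))) (b (b (a (c (l 16673664) (l 16675432)) (c (l 16669672) (l 16671520))) (a (c (l 16669496) (l 16671384)) (c (l 16665512) (l 16667464)))) (b (a (c (l 16665392) (l 16667400)) (c (l 16661400) (l 16663480))) (a (c (l 16661360) (l 16663480)) (c (l 16657360) (l 16659560)))))) (a (b (b (a (c (l 16684952) (l 16686720)) (c (l 16681120) (l 16682968))) (c (a (l 16681032) (l 16677192)) (a (l 16682912) (l 16679160)))) (b (b (a (l 16679104) (l 16675312)) (a (l 16677224) (l 16673432))) (a (c (l 16673384) (l 16675520)) (c (l 16669544) (l 16671768))))) (b (b (a (c (l 16677280) (l 16679208)) (c (l 16673448) (l 16675456))) (a (c (l 16673352) (l 16675408)) (c (l 16669512) (l 16671648))))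 (b (a (c (l 16669488) (l 16671672)) (c (l 16665648) (l 16667912))) (a (c (l 16665696) (l 16668000)) (c (l 16661856) (l 16664248))))))), by decide +kernel⟩

def k121_A00pm_102_s1 : ∃ t, chk3 f_A00pm_102_s1 t 123 75 3 = true :=
  ⟨(c (c (b (a (a (b (l 16665424) (l 16661536)) (b (l 16661400) (l 16657496))) (a (b (l 16657384) (l 16653472)) (b (l 16653376) (l 16649456)))) (a (b (l 16655680) (l 16651928)) (a (l 16652968) (l 16648944)))) (a (b (a (b (l 16667504) (l 16663736)) (b (l 16663560) (l 16659784))) (b (a (l 16660040) (l 16656080)) (a (l 16656416) (l 16652440)))) (b (a (b (l 16659624) (l 16655840)) (b (l 16655696) (l 16651904))) (b (a (l 16652120) (l 16648184)) (a (l 16648472) (l 16644520)))))) (b (a (b (c (a (l 16669672) (l 16665824)) (a (l 16671944) (l 16668176))) (c (a (l 16666040) (l 16662176)) (a (l 16668440) (l 16664664)))) (c (a (b (l 16661968) (l 16658312)) (b (l 16658128) (l 16654464))) (b (a (l 16664408) (l 16660648)) (a (l 16660888) (l 16657128))))) (a (c (a (b (l 16662472) (l 16658984)) (b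 (l 16658600) (l 16655096))) (b (a (l 16665008) (l 16661224)) (a (l 16661656) (l 16657864)))) (c (a (b (l 16654728) (l 16651216)) (b (l 16650872) (l 16647352))) (a (b (l 16657440) (l 16654072)) (b (l 16653672) (l 16650296))))))), by decide +kernel⟩

def k122_A00pm_102_s1 : ∃ t, chk3 f_A00pm_102_s1 t 62 72 1 = true :=
  ⟨(a (c (a (b (b (c (c (l 16695072) (l 16695984)) (l 16692200)) (c (c (l 16690136) (l 16691120)) (l 16687464))) (c (a (b (l 16687888) (l 16683064)) (b (l 16683656) (l 16678848))) (a (b (l 16690080) (l 16685440)) (b (l 16685968) (l 16681328))))) (b (c (a (b (l 16689144) (l 16684264)) (b (l 16684888) (l 16680024))) (a (b (l 16691224) (l 16686512)) (l 16674240))) (c (a (b (l 16679424) (l 16674624)) (b (l 16675200) (l 16670416))) (a (b (l 16681848) (l 16677232)) (b (l 16677744) (l 16673144)))))) (b (a (c (b (l 16699560) (l 16689768)) (a (l 16691160) (l 16687280))) (c (a (l 16680768) (l 16687248)) (b (l 16694096) (l 16689784)))) (a (c (a (b (l 16692512) (l 16688056)) (l 16681048)) (b (l 16687992)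 (l 16683760))) (c (a (l 16677072) (l 16667856)) (a (l 16674864) (l 16671040)))))) (c (a (b (a (c (b (l 16680632) (l 16675792)) (l 16670112)) (b (l 16667080) (l 16662344))) (c (a (b (l 16670984) (l 16666216)) (b (l 16666776) (l 16662024))) (a (l 16660864) (l 16656792)))) (b (a (b (l 16662896) (l 16658184)) (c (l 16665512) (l 16668296))) (c (b (l 16660480) (c (l 16655008) (l 16656520))) (a (l 16652744) (l 16659200))))) (a (b (c (a (l 16683248) (l 16679264)) (l 16684216)) (c (a (l 16663904) (l 16670456)) (a (l 16677720) (l 16673936)))) (b (c (l 16662840) (l 16655624)) (c (a (l 16666552) (l 16662680)) (l 16657840)))))), by decide +kernel⟩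

def k123_A00pm_102_s1 : ∃ t, chk3 f_A00pm_102_s1 t 124 73 1 = true :=
  ⟨(c (a (a (c (b (b (l 16678288) (c (l 16672920) (l 16674216))) (b (c (l 16668192) (l 16669584)) (c (l 16663512) (l 16664992)))) (b (b (l 16680840) (l 16676296)) (b (l 16671808) (c (l 16666552) (l 16668192))))) (b (b (c (l 16674080) (l 16676744)) (c (l 16669352) (l 16672208))) (c (b (l 16664672) (c (l 16659280) (l 16660824))) (b (l 16667728) (l 16663288))))) (a (b (c (b (l 16669872) (l 16665152)) (b (l 16672656) (l 16668136))) (c (b (l 16660480) (l 16655856)) (b (l 16663656) (l 16659232)))) (b (c (b (l 16665672) (l 16660968)) (b (l 16668584) (l 16664072))) (c (b (l 16656304) (l 16651680)) (b (l 16659608) (l 16655184)))))) (a (b (c (a (b (l 16683656) (l 16679320)) (b (l 16679696) (l 16675360))) (a (c (l 16678608) (l 16675032)) (b (l 16682920) (l 16678816)))) (c (a (b (l 16675032) (c (l 16669920) (l 16671720))) (b (l 16671088) (l 16666872))) (a (c (b (l 16677656) (l 16673600)) (l 16672280)) (b (l 16674768) (c (l 16669776) (l 16671816))))))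 (b (c (a (b (l 16675736) (l 16671424)) (a (l 16660136) (l 16658176))) (a (b (l 16679104) (l 16675016)) (l 16668024))) (b (c (a (l 16667160) (l 16663248)) (a (l 16670984) (l 16667224))) (a (c (l 16662952) (l 16667008)) (c (l 16659048) (l 16663264))))))), by decide +kernel⟩

def k124_A00pm_102_s1 : ∃ t, chk3 f_A00pm_102_s1 t 125 73 1 = true :=
  ⟨(c (a (b (c (b (c (l 16658664) (l 16660136)) (c (l 16653928) (l 16655496))) (c (b (l 16661688) (l 16657152)) (a (l 16663104) (l 16659104)))) (c (b (c (l 16649240) (l 16650904)) (c (l 16644584) (l 16646344))) (a (b (l 16655576) (l 16651168)) (b (l 16651560) (l 16647168))))) (b (b (c (c (l 16650280) (l 16651888)) (l 16654456)) (c (c (l 16645576) (l 16647280)) (a (l 16652000) (l 16648032)))) (c (b (c (l 16640912) (l 16642720)) (a (l 16639280) (l 16635192))) (b (a (l 16647584) (l 16643632)) (a (l 16643208) (l 16639272)))))) (a (b (c (a (b (l 16667872) (l 16663592)) (l 16651352)) (a (l 16659016) (l 16655288))) (b (c (a (l 16659352) (l 16655496)) (a (l 16663488) (l 16659784)))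 (c (a (l 16655168) (l 16651328)) (a (l 16659544) (l 16655864))))) (b (c (a (l 16647496) (l 16654160)) (a (l 16662080) (l 16658432))) (c (a (l 16639104) (l 16635328)) (a (l 16643688) (l 16640096)))))), by decide +kernel⟩

def k125_A00pm_102_s1 : ∃ t, chk3 f_A00pm_102_s1 t 63 36 1 = true :=
  ⟨(a (b (c (a (b (c (a (l 16661304) (l 16657104)) (l 16651720)) (c (b (l 16652136) (l 16647464)) (a (l 16655192) (l 16651224)))) (b (c (b (l 16653168) (l 16648512)) (l 16643712)) (c (b (l 16643872) (l 16639256)) (l 16634840)))) (a (b (a (l 16648216) (l 16644448)) (c (l 16646456) (l 16640040))) (b (a (l 16640720) (l 16637064)) (a (l 16632480) (l 16628904))))) (c (c (a (b (b (l 16642824) (l 16643464)) (b (a (l 16635680) (l 16631624)) (a (l 16631128) (l 16627088)))) (b (b (l 16634672) (l 16630120)) (b (l 16625592) (l 16621088)))) (a (b (b (l 16646528) (l 16642128)) (b (l 16637768) (l 16633440))) (a (b (l 16638504) (l 16629848)) (b (l 16634672) (l 16626080))))) (c (a (b (a (l 16650384) (l 16646656)) (a (l 16642088) (l 16638416)))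 (b (l 16630672) (l 16622528))) (a (b (l 16642576) (a (l 16647048) (l 16643576))) (b (l 16646144) (l 16628024)))))) (c (a (b (c (b (c (l 16641664) (l 16643464)) (b (l 16635704) (l 16631152))) (b (l 16646328) (l 16637624))) (b (c (b (l 16626632) (l 16622136)) (l 16629008)) (a (c (l 16617408) (l 16622360)) (c (l 16613496) (l 16618696))))) (b (a (b (l 16617456) (l 16613912)) (b (l 16613512) (l 16604824))) (b (c (a (l 16618472) (l 16614576)) (l 16621672)) (a (c (l 16609624) (l 16615096)) (l 16592888))))) (a (b (c (a (l 16627160) (l 16623568)) (a (l 16631768) (l 16607464))) (b (a (l 16617472) (l 16614136)) (a (l 16620168) (l 16606424)))) (b (c (b (l 16643320) (l 16635248)) (l 16623624)) (b (a (l 16631856) (l 16607736)) (a (l 16603256) (l 16600200))))))), by decide +kernel⟩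

def k126_A00pm_102_s1 : ∃ t, chk3 f_A00pm_102_s1 t 62 74 2 = true :=
  ⟨(a (b (a (b (c (a (l 16659656) (l 16655456)) (a (c (l 16662120) (l 16663864)) (l 16658904))) (c (a (l 16655120) (l 16650920)) (a (l 16658648) (l 16654576)))) (a (c (b (l 16651272) (l 16646736)) (b (l 16654848) (l 16650528))) (c (b (l 16647104) (l 16642576)) (b (l 16650816) (l 16646496))))) (a (c (b (a (l 16650632) (l 16646432)) (a (l 16646200) (l 16641992))) (b (a (l 16654368) (l 16650296)) (a (l 16650152) (l 16646080)))) (c (b (a (l 16642248) (l 16638088)) (a (l 16637808) (l 16633648))) (b (a (l 16646248) (l 16642224)) (a (l 16642032) (l 16638008)))))) (b (a (c (b (c (l 16639968) (l 16641832)) (a (l 16638432) (l 16634312))) (b (a (l 16646808) (l 16642824)) (a (l 16642496) (l 16638520)))) (c (b (a (l 16634728) (l 16630656)) (a (l 16630224) (l 16626160))) (b (a (l 16638872) (l 16634952)) (a (l 16634584) (l 16630680))))) (a (c (b (a (l 16633952) (l 16629840)) (a (l 16629512) (l 16625408))) (b (a (l 16638232) (l 16634264)) (a (l 16634016)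 (l 16630056)))) (c (b (a (l 16625760) (l 16621704)) (a (l 16621328) (l 16617288))) (b (a (l 16630336) (l 16626448)) (a (l 16626136) (l 16622256))))))), by decide +kernel⟩

def k127_A00pm_102_s1 : ∃ t, chk3 f_A00pm_102_s1 t 62 75 2 = true :=
  ⟨(a (b (a (c (b (a (l 16641816) (l 16637608)) (a (l 16637488) (l 16633272))) (b (a (l 16645984) (l 16641912)) (a (l 16641880) (l 16637800)))) (c (b (a (l 16633416) (l 16629256)) (a (l 16629080) (l 16624912))) (b (a (l 16637864) (l 16633840)) (a (l 16633752) (l 16629728))))) (c (a (a (b (l 16633216) (l 16629000)) (b (l 16628992) (l 16624768))) (b (a (l 16624792) (l 16620624)) (a (l 16620560) (l 16616384)))) (a (a (b (l 16637840) (l 16633856)) (b (l 16633752) (l 16629760))) (b (a (l 16629696) (l 16625664)) (a (l 16625696) (l 16621664)))))) (a (b (c (b (a (l 16625128) (l 16621024)) (a (l 16620784) (l 16616680))) (b (a (l 16629848) (l 16625896)) (a (l 16625736) (l 16621792)))) (c (b (a (l 16616488) (l 16612384)) (a (l 16612240) (l 16608136))) (b (a (l 16621680) (l 16617728))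 (a (l 16617672) (l 16613728))))) (c (b (b (a (l 16616952) (l 16612912)) (a (l 16612616) (l 16608584))) (b (a (l 16608320) (l 16604296)) (l 16607296))) (b (b (a (l 16621984) (l 16618120)) (a (l 16617880) (l 16614024))) (b (a (l 16613832) (l 16609976)) (a (l 16609824) (l 16605976))))))), by decide +kernel⟩

def k128_A00pm_102_s1 : ∃ t, chk3 f_A00pm_102_s1 t 124 74 3 = true :=
  ⟨(a (b (c (b (a (c (l 16665696) (l 16667608)) (c (l 16661728) (l 16663712))) (a (c (l 16661528) (l 16663560)) (c (l 16657560) (l 16659672)))) (a (b (c (l 16669608) (l 16671696)) (c (l 16665688) (l 16667896))) (b (c (l 16665792) (l 16667960)) (c (l 16661872) (l 16664168))))) (c (b (a (c (l 16657424) (l 16659576)) (c (l 16653456) (l 16655688))) (a (c (l 16653376) (l 16655648)) (c (l 16649408) (l 16651760)))) (c (b (a (l 16661824) (l 16658016)) (a (l 16658024) (l 16654216))) (a (b (l 16664168) (l 16660504)) (b (l 16660440) (l 16656776)))))) (b (c (a (b (l 16658792) (l 16654696)) (b (l 16654904) (l 16650816))) (a (b (c (l 16661992) (l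 16664232)) (c (l 16658080) (l 16660448))) (b (l 16659368) (l 16658144)))) (c (a (b (c (l 16649520) (l 16651816)) (c (l 16645472) (l 16647896))) (b (l 16646776) (l 16642800))) (a (b (c (l 16654224) (l 16656728)) (c (l 16650432) (l 16653072))) (b (c (l 16650464) (l 16653056)) (c (l 16646680) (l 16649408))))))), by decide +kernel⟩

def k129_A00pm_102_s1 : ∃ t, chk3 f_A00pm_102_s1 t 124 75 3 = true :=
  ⟨(c (b (a (b (a (c (l 16649392) (l 16651792)) (c (l 16645424) (l 16647904))) (a (c (l 16645464) (l 16647992)) (c (l 16641496) (l 16644104)))) (b (a (c (l 16641488) (l 16644040)) (l 16644120)) (a (c (l 16637560) (l 16640240)) (l 16640256)))) (a (b (a (c (l 16641608) (l 16644264)) (c (l 16637632) (l 16640368))) (a (l 16644432) (l 16640488))) (b (a (l 16640320) (l 16636456)) (a (l 16631336) (l 16627464))))) (b (a (b (a (c (l 16654296) (l 16656904)) (c (l 16650488) (l 16653184))) (a (c (l 16650632) (l 16653376)) (c (l 16646824) (l 16649656)))) (c (b (a (l 16646704) (l 16642960)) (a (l 16643040) (l 16639296))) (b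 (a (l 16649480) (l 16645816)) (a (l 16645960) (l 16642296))))) (a (c (a (b (l 16647032) (l 16643504)) (b (l 16643224) (l 16639688))) (a (b (l 16649920) (l 16646536)) (b (l 16646192) (l 16642800)))) (c (a (b (l 16639440) (l 16635904)) (b (l 16635696) (l 16632160))) (b (a (l 16642496) (l 16638840)) (a (l 16639104) (l 16635448))))))), by decide +kernel⟩

def k130_A00pm_102_s1 : ∃ t, chk3 f_A00pm_102_s1 t 125 37 3 = true :=
  ⟨(b (a (b (b (c (a (l 16651040) (l 16647208)) (a (l 16655664) (l 16652000))) (c (a (l 16646960) (l 16643144)) (a (l 16651832) (l 16648184)))) (b (c (a (l 16642936) (l 16639128)) (a (l 16653312) (l 16644432))) (c (a (l 16638960) (l 16635168)) (a (c (l 16642968) (l 16645776)) (l 16640736))))) (b (c (a (b (l 16643424) (l 16639368)) (b (l 16639672) (l 16635640))) (a (a (l 16636888) (l 16635096)) (c (l 16641568) (l 16644312)))) (b (c (a (l 16635368) (l 16631656)) (a (l 16640848) (l 16637320))) (c (a (l 16631416) (l 16627712)) (a (l 16637160) (l 16633656)))))) (c (a (b (b (a (l 16635048) (l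 16631256)) (a (l 16631184) (l 16627400))) (b (a (l 16627384) (l 16623600)) (a (l 16623640) (l 16619856)))) (b (b (a (l 16627512) (l 16623824)) (a (l 16623664) (l 16619984))) (b (a (l 16619872) (l 16616200)) (a (l 16616136) (l 16612472))))) (a (b (c (a (b (l 16639248) (l 16635592)) (b (l 16635592) (l 16631936))) (a (b (l 16642200) (l 16638680)) (b (l 16638632) (l 16635120)))) (c (b (a (l 16631992) (l 16628344)) (a (l 16628464) (l 16624816))) (b (a (l 16635232) (l 16631672)) (a (l 16631840) (l 16628288))))) (b (a (b (l 16633536) (l 16629968)) (c (l 16626616) (l 16629928))) (a (c (l 16622992) (b (l 16628184) (l 16624808))) (b (l 16622984) (l 16619536))))))), by decide +kernel⟩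

def k131_A00pm_102_s1 : ∃ t, chk3 f_A00pm_102_s1 t 126 37 1 = true :=
  ⟨(c (b (c (a (b (b (a (l 16626608) (l 16622592)) (a (l 16622128) (l 16618128))) (b (a (l 16617680) (l 16613696)) (a (l 16613280) (l 16609304)))) (b (b (l 16616624) (l 16612184)) (c (l 16604296) (l 16606928)))) (a (b (b (a (l 16631072) (l 16627240)) (a (l 16626816) (l 16623000))) (b (a (l 16622600) (l 16618800)) (a (l 16618424) (l 16614640)))) (b (b (l 16621576) (l 16617368)) (b (l 16613200) (l 16609072))))) (a (b (c (c (a (l 16605448) (l 16601448)) (a (l 16608072) (l 16604160))) (b (a (l 16614296) (l 16610528)) (a (l 16610208) (l 16606456)))) (c (c (l 16605256) (l 16602912)) (b (a (l 16606168) (l 16602424)) (l 16605536)))) (b (c (c (l 16595520) (l 16598384)) (a (l 16604784) (l 16601136))) (c (c (l 16586888) (l 16589984)) (a (l 16596744) (l 16593136)))))) (b (a (b (c (a (b (l 16635984) (l 16631968)) (l 16630344)) (a (l 16628952) (l 16636024))) (c (b (a (l 16627992) (l 16624400)) (a (l 16624072) (l 16620496))) (a (c (l 16630488) (l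 16633616)) (l 16618176)))) (b (c (b (l 16627000) (l 16623048)) (a (l 16632688) (l 16629440))) (c (b (l 16619128) (l 16615256)) (a (l 16625376) (l 16622184))))) (b (a (c (b (a (l 16620200) (l 16616632)) (a (l 16616368) (l 16612824))) (a (c (l 16623152) (l 16626560)) (c (l 16619760) (l 16623288)))) (c (a (l 16611240) (l 16607840)) (a (l 16607776) (l 16615112)))) (b (a (c (a (l 16612592) (l 16609064)) (a (l 16619584) (l 16616272))) (c (l 16603896) (a (l 16613056) (l 16609936)))) (a (c (a (l 16608872) (l 16605344)) (a (l 16616152) (l 16612848))) (c (l 16600200) (a (l 16609648) (l 16606544)))))))), by decide +kernel⟩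

def k132_A00pm_102_s1 : ∃ t, chk3 f_A00pm_102_s1 t 127 37 1 = true :=
  ⟨(c (a (b (b (a (c (l 16608544) (l 16613952)) (c (l 16604688) (l 16610352))) (a (c (l 16599800) (l 16605688)) (c (l 16595992) (l 16602136)))) (b (c (a (l 16591192) (l 16587416)) (a (l 16597560) (l 16594056))) (c (c (l 16579184) (l 16582528)) (a (l 16589592) (l 16586128))))) (b (b (c (a (l 16600872) (l 16597112)) (l 16605072)) (a (c (l 16592232) (l 16598664)) (c (l 16588528) (l 16595256)))) (c (b (a (l 16583704) (l 16580048)) (a (l 16575304) (l 16571688))) (b (a (l 16590632) (l 16587288)) (a (l 16582744) (l 16579440)))))) (c (b (a (a (b (l 16619872) (l 16612120)) (b (l 16616536) (l 16608848))) (a (l 16598976) (l 16595872))) (a (b (a (l 16604528) (l 16601304)) (a (l 16597096) (l 16593920))) (b (a (l 16598176) (l 16595160)) (a (l 16590848) (l 16587880))))) (a (b (b (l 16614264) (l 16607096)) (b (a (l 16612072) (l 16609144)) (a (l 16605240) (l 16602360)))) (b (a (l 16606280) (l 16593024)) (b (l 16594504) (l 16587800)))))), by decide +kernel⟩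

def k133_A00pm_102_s1 : ∃ t, chk3 f_A00pm_102_s1 t 60 19 1 = true :=
  ⟨(b (b (c (b (c (a (a (l 16689416) (l 16681264)) (a (l 16672848) (l 16653728))) (a (a (l 16702864) (l 16694992)) (a (b (l 16678216) (l 16674528)) (b (l 16669856) (l 16666176))))) (a (c (a (l 16681624) (l 16673488)) (a (l 16685016) (l 16677168))) (c (a (l 16665104) (l 16656488)) (b (l 16661488) (l 16652640))))) (b (c (a (a (l 16695656) (b (l 16689816) (l 16686352))) (a (b (l 16681976) (l 16678528)) (b (l 16673920) (l 16670488)))) (b (a (a (l 16700848) (l 16693592)) (a (l 16680840) (c (l 16677216) (l 16679528)))) (a (a (l 16697616) (l 16690384)) (a (l 16682904) (l 16669952))))) (c (a (b (l 16686720) (l 16683320)) (a (l 16683928) (l 16660192))) (a (a (l 16692856) (l 16685656)) (a (b (l 16679760) (l 16676672)) (b (l 16672096) (l 16669024))))))) (c (b (a (c (l 16664688) (l 16673912)) (c (l 16642712) (a (l 16661912) (l 16653624)))) (a (b (l 16666384) (l 16662760)) (c (l 16645720) (l 16640296)))) (b (a (c (b (l 16679968) (l 16676648)) (a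 (l 16686656) (l 16679504))) (c (b (l 16659216) (l 16650704)) (a (l 16672112) (l 16659264)))) (c (a (l 16671752) (l 16656344)) (a (a (l 16680624) (l 16673520)) (a (l 16666176) (l 16658632))))))) (c (b (a (c (b (l 16654992) (l 16647696)) (b (l 16659920) (l 16653112))) (c (b (l 16638352) (l 16631104)) (c (l 16628528) (l 16631576)))) (a (b (l 16643392) (l 16636560)) (b (c (l 16623960) (l 16630544)) (c (l 16616912) (l 16624032))))) (b (b (a (c (l 16665336) (l 16671256)) (a (l 16657104) (l 16652040))) (a (c (l 16659072) (l 16665568)) (a (l 16651192) (l 16646176)))) (b (a (c (l 16652936) (l 16660032)) (c (l 16616808) (l 16645664))) (a (a (l 16654248) (l 16647136)) (a (l 16639784) (l 16632248))))))), by decide +kernel⟩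

def k134_A00pm_102_s1 : ∃ t, chk3 f_A00pm_102_s1 t 61 38 2 = true :=
  ⟨(b (a (b (c (b (a (l 16657432) (l 16648672)) (a (l 16653496) (l 16644680))) (a (b (l 16661400) (l 16657696)) (b (l 16652944) (l 16649176)))) (c (a (l 16647696) (l 16649320)) (a (l 16641760) (b (l 16645480) (l 16641872))))) (b (b (a (c (l 16639936) (a (l 16646616) (l 16642408))) (c (l 16636512) (a (l 16638224) (l 16634064)))) (c (a (l 16635896) (l 16627192)) (a (l 16640704) (a (l 16634392) (l 16630216))))) (c (a (b (l 16631920) (l 16628008)) (b (l 16623176) (l 16619216))) (b (a (l 16636960) (l 16628520)) (a (l 16633288) (l 16624808)))))) (a (a (b (c (l 16640128) (l 16645160)) (c (l 16632688) (l 16638216))) (b (c (l 16631216) (l 16636560)) (c (l 16623808) (l 16629656)))) (a (b (c (l 16622288) (b (l 16629688) (l 16626176))) (c (l 16614824) (l 16620992))) (c (b (l 16623888) (l 16605896)) (b (b (l 16621168) (l 16617592)) (l 16622872)))))), by decide +kernel⟩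

def k135_A00pm_102_s1 : ∃ t, chk3 f_A00pm_102_s1 t 61 38 3 = true :=
  ⟨(b (a (b (b (a (c (l 16671016) (c (l 16669320) (l 16671816))) (a (c (l 16659672) (l 16664720)) (c (l 16655616) (l 16660832)))) (a (c (l 16662328) (l 16662136)) (c (l 16643640) (c (l 16658136) (l 16660952))))) (c (a (b (l 16658928) (l 16655592)) (c (l 16647648) (l 16639960))) (a (b (l 16659008) (l 16661200)) (b (l 16651136) (c (l 16651776) (l 16654888)))))) (c (b (a (b (c (l 16648240) (l 16650872)) (c (l 16644624) (l 16647384))) (b (a (l 16643504) (l 16639496)) (a (l 16639928) (l 16635912)))) (a (b (c (l 16641072) (l 16643976)) (l 16639104)) (b (a (l 16636424) (l 16632392)) (a (l 16632992) (l 16628936))))) (a (b (c (b (a (l 16655568) (l 16651664)) (l 16650272)) (b (a (l 16658384) (l 16654576)) (a (l 16655192) (l 16651368)))) (c (b (l 16647000) (l 16643808)) (b (l 16652776) (l 16647112)))) (a (b (b (c (l 16647776) (l 16650776)) (c (l 16644408) (l 16647552))) (b (l 16647984) (l 16639600))) (b (c (b (l 16643896) (l 16640520)) (b (l 16646984)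 (l 16643752))) (c (l 16635584) (b (l 16640592) (l 16637512)))))))) (a (b (c (a (l 16650696) (b (l 16644048) (l 16640824))) (a (l 16651496) (c (l 16647184) (l 16640032)))) (a (c (l 16644288) (l 16650920)) (c (l 16636080) (l 16637840)))) (c (b (a (b (l 16635776) (l 16632536)) (b (l 16627584) (l 16624288))) (a (l 16617288) (a (l 16621560) (l 16617424)))) (a (b (c (l 16628712) (b (l 16644152) (l 16641280))) (c (l 16633256) (l 16637096))) (b (c (b (l 16632776) (l 16629704)) (b (l 16636416) (l 16633496))) (b (l 16618176) (l 16625832))))))), by decide +kernel⟩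

def k136_A00pm_102_s1 : ∃ t, chk3 f_A00pm_102_s1 t 61 39 1 = true :=
  ⟨(c (b (a (c (b (l 16599968) (l 16592776)) (b (l 16616656) (l 16609984))) (c (a (b (l 16607568) (l 16600424)) (b (l 16598592) (l 16591488))) (b (a (l 16614264) (l 16605608)) (c (l 16580464) (l 16589584))))) (c (a (b (l 16606656) (l 16599672)) (b (a (l 16593392) (l 16584496)) (a (l 16586456) (l 16577600)))) (a (b (l 16603440) (l 16586520)) (b (a (l 16601176) (l 16592624)) (a (l 16594808) (l 16586296)))))) (a (b (c (a (b (l 16638032) (l 16631912)) (b (l 16629864) (l 16623800))) (a (b (l 16645256) (l 16639760)) (c (l 16622216) (l 16631584)))) (c (b (a (l 16625928) (l 16617864)) (l 16605584)) (a (b (l 16634408) (l 16629208)) (b (l 16626752) (l 16621608))))) (a (b (c (b (l 16621616) (l 16615600)) (b (l 16624384) (c (l 16622016) (l 16626512)))) (b (c (l 16609720) (l 16608528)) (c (l 16603968) (l 16613928)))) (b (c (b (a (l 16615392) (l 16611240)) (l 16607352)) (b (c (l 16619536) (l 16623896)) (c (l 16614056) (l 16618760)))) (b (c (l 16601528)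 (c (l 16608728) (l 16613768))) (c (l 16595832) (l 16595712))))))), by decide +kernel⟩

def k137_A00pm_102_s1 : ∃ t, chk3 f_A00pm_102_s1 t 62 38 2 = true :=
  ⟨(b (a (b (b (a (c (a (l 16624848) (l 16620592)) (a (l 16629928) (l 16625824))) (c (a (l 16616376) (l 16612200)) (a (l 16621752) (l 16617720)))) (a (c (l 16618608) (a (l 16626064) (l 16621952))) (c (l 16610152) (a (l 16617872) (l 16613824))))) (b (a (c (l 16614552) (a (l 16622272) (l 16618136))) (c (l 16606072) (a (l 16614048) (l 16609992)))) (a (c (l 16610560) (l 16616456)) (c (l 16602056) (l 16608248))))) (c (b (a (b (l 16611232) (l 16601840)) (b (l 16597856) (l 16593704))) (a (b (l 16597752) (l 16593712)) (b (l 16589600) (l 16585544)))) (b (a (a (b (l 16613720) (l 16609824)) (b (l 16609776) (l 16605872))) (b (a (l 16605872) (l 16602024)) (l 16605280))) (a (b (a (l 16605992) (l 16602032)) (l 16600216)) (b (l 16606672) (l 16592392)))))) (a (b (c (a (b (l 16606632) (l 16602760)) (b (l 16598088) (l 16594184))) (a (b (l 16612776) (l 16609160)) (b (l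 16604536) (l 16600888)))) (c (a (l 16597072) (l 16588440)) (a (b (l 16605608) (l 16602128)) (b (l 16597304) (l 16593784))))) (b (c (a (b (l 16589720) (l 16585792)) (b (l 16581544) (l 16577592))) (a (b (l 16596488) (l 16592816)) (b (l 16588656) (l 16584968)))) (c (a (l 16580000) (l 16571768)) (a (b (l 16589208) (l 16585656)) (b (l 16581344) (l 16577776))))))), by decide +kernel⟩

def k138_A00pm_102_s1 : ∃ t, chk3 f_A00pm_102_s1 t 62 76 3 = true :=
  ⟨(a (c (b (a (b (a (l 16635520) (l 16631568)) (a (l 16631920) (l 16627960))) (a (b (l 16627656) (l 16624040)) (b (l 16623784) (l 16620160)))) (a (a (b (l 16628384) (l 16624920)) (b (l 16624416) (l 16620936))) (a (b (l 16620488) (l 16616992)) (b (l 16616600) (l 16613096))))) (b (a (c (b (a (l 16640048) (l 16636224)) (a (l 16636656) (l 16632824))) (a (b (l 16643216) (l 16639976)) (b (l 16639480) (l 16636232)))) (c (a (b (l 16632432) (l 16629024)) (b (l 16628688) (l 16625280))) (a (b (l 16635784) (l 16632528)) (b (l 16632120) (l 16628864))))) (c (a (a (l 16631704)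 (l 16633096)) (a (l 16629288) (l 16630776))) (a (b (a (l 16636808) (l 16633056)) (a (l 16633712) (l 16629944))) (b (a (l 16629344) (l 16625672)) (a (l 16626224) (l 16622552))))))) (c (b (a (c (b (l 16616424) (l 16612720)) (a (l 16619808) (l 16616072))) (c (a (l 16608896) (l 16605192)) (a (l 16612400) (l 16608792)))) (a (a (b (l 16612760) (l 16609256)) (b (l 16608976) (l 16605464))) (c (b (l 16601544) (l 16597960)) (b (l 16605320) (l 16601880))))) (a (b (c (a (b (l 16624984) (l 16621576)) (l 16624872)) (a (b (l 16628520) (l 16625256)) (b (l 16624968) (l 16621712)))) (c (a (l 16616584) (l 16612936)) (a (b (l 16622064) (l 16618936)) (b (l 16618520) (l 16615392))))) (b (a (c (l 16616056) (b (l 16621488) (l 16618232))) (b (l 16616152) (l 16612824))) (a (b (l 16618248) (l 16620280)) (b (l 16609552) (l 16606344))))))), by decide +kernel⟩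

def k139_A00pm_102_s1 : ∃ t, chk3 f_A00pm_102_s1 t 62 77 3 = true :=
  ⟨(c (c (a (b (a (l 16616064) (l 16613296)) (a (l 16609384) (l 16601312))) (b (a (l 16605496) (l 16592696)) (a (l 16593464) (l 16585872)))) (a (b (a (b (l 16621296) (l 16618032)) (b (l 16613472) (l 16610184))) (a (l 16613280) (l 16605384))) (b (a (b (l 16605856) (l 16602552)) (b (l 16598496) (l 16595176))) (a (l 16597712) (l 16590312))))) (a (b (a (b (c (l 16624968) (l 16628792)) (c (l 16621864) (l 16625840))) (a (b (l 16621184) (l 16618128)) (b (l 16617456) (l 16614392)))) (a (b (c (l 16618824) (l 16622968)) (c (l 16615864) (l 16620160))) (b (c (l 16611120) (l 16615448)) (c (l 16608128) (l 16612616))))) (b (a (c (b (l 16609896) (l 16606736)) (a (l 16619624) (l 16621304))) (c (b (l 16602728) (l 16599568)) (b (l 16612376) (l 16604136)))) (a (c (b (l 16603656) (l 16600632)) (b (l 16608176) (l 16605320))) (c (b (l 16596472) (l 16593432)) (b (l 16601200) (l 16598328))))))), by decide +kernel⟩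

def k140_A00pm_102_s1 : ∃ t, chk3 f_A00pm_102_s1 t 62 39 2 = true :=
  ⟨(a (a (b (c (b (l 16589728) (l 16582576)) (b (l 16597056) (l 16590456))) (c (b (l 16575624) (l 16568768)) (b (l 16584080) (l 16577800)))) (b (c (b (l 16580984) (l 16573800)) (b (b (l 16590328) (l 16586936)) (a (l 16584096) (l 16579888)))) (c (b (l 16566800) (l 16560000)) (b (a (l 16577696) (l 16573480)) (l 16569368))))) (b (c (a (b (l 16572472) (l 16565184)) (b (l 16564192) (b (l 16558656) (l 16555032)))) (a (b (b (l 16582168) (l 16578744)) (a (l 16575760) (l 16571696))) (b (b (l 16574256) (l 16570808)) (b (l 16567408) (l 16564072))))) (b (c (a (l 16563400) (a (l 16551784) (l 16547640))) (a (a (l 16569320) (l 16565208)) (a (l 16561176) (l 16557224)))) (c (a (l 16551312) (b (l 16544512) (l 16541128))) (a (b (l 16562560) (l 16559496)) (b (l 16554440) (l 16551368))))))), by decide +kernel⟩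

def k141_A00pm_102_s1 : ∃ t, chk3 f_A00pm_102_s1 t 62 39 3 = true :=
  ⟨(b (a (c (b (c (a (l 16603016) (l 16594840)) (a (l 16607216) (l 16599216))) (c (a (l 16596872) (l 16588672)) (a (l 16601376) (l 16593360)))) (a (b (c (l 16611592) (l 16605656)) (c (l 16606080) (l 16600488))) (b (b (c (l 16605200) (l 16609864)) (c (l 16602352) (l 16607176))) (b (c (l 16599576) (l 16604568)) (c (l 16596888) (l 16602056)))))) (c (a (b (c (l 16586928) (l 16591488)) (c (l 16580656) (l 16585528))) (b (b (l 16583224) (l 16580080)) (c (l 16572960) (l 16578040)))) (a (b (c (a (l 16598096) (l 16594400)) (a (l 16602984) (l 16599384))) (c (a (l 16592488) (l 16588760)) (a (l 16597720) (l 16594096)))) (b (c (b (l 16590464) (l 16587560)) (b (l 16595528) (l 16592792))) (c (a (l 16585120) (l 16581568)) (a (l 16590560) (l 16587120))))))) (a (a (c (b (a (l 16595384) (l 16591296)) (l 16587696)) (b (c (l 16600816) (l 16606056)) (c (l 16595688) (l 16601280)))) (c (b (a (l 16587216) (l 16583184)) (a (l 16581632) (l 16577616))) (b (b (c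 (l 16594248) (l 16599592)) (l 16583912)) (c (l 16587896) (l 16593688))))) (c (b (a (a (l 16579208) (l 16575280)) (a (l 16571448) (l 16567704))) (c (a (l 16568904) (l 16561096)) (a (l 16574448) (l 16566848)))) (b (a (c (a (l 16587184) (l 16583400)) (a (l 16592768) (l 16589088))) (c (a (l 16579728) (l 16576152)) (a (l 16585528) (l 16582064)))) (a (a (l 16595552) (l 16591824)) (b (a (l 16578872) (l 16575328)) (l 16585184))))))), by decide +kernel⟩

def k142_A00pm_102_s1 : ∃ t, chk3 f_A00pm_102_s1 t 63 38 2 = true :=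
  ⟨(a (b (a (b (c (b (l 16589896) (l 16585744)) (b (l 16606840) (l 16592464))) (c (b (l 16581640) (l 16577584)) (b (l 16588616) (l 16584824)))) (b (c (c (l 16578408) (l 16581752)) (a (l 16588888) (l 16585296))) (c (b (l 16573896) (l 16569848)) (c (l 16577464) (l 16581408))))) (c (b (a (b (l 16573576) (l 16569616)) (l 16574336)) (a (l 16563768) (l 16556016))) (b (a (b (l 16581080) (l 16577384)) (b (l 16573784) (l 16570096))) (a (b (l 16573744) (l 16570160)) (b (l 16566456) (l 16562864)))))) (b (c (a (b (c (l 16570752) (l 16574344)) (c (l 16562464) (l 16566312))) (b (a (l 16567040) (l 16563456)) (l 16557128))) (a (b (a (l 16581784) (l 16578352)) (a (l 16574144) (l 16570736))) (b (a (l 16575000) (l 16571744)) (l 16565784)))) (a (b (c (l 16556368) (l 16575456)) (c (l 16548544) (l 16568192))) (b (c (l 16549168) (l 16558376)) (c (l 16541360) (l 16551136)))))), by decide +kernel⟩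

def k143_A00pm_102_s1 : ∃ t, chk3 f_A00pm_102_s1 t 63 38 3 = true :=
  ⟨(a (b (c (a (b (b (a (l 16605200) (l 16601680)) (a (l 16601576) (l 16598072))) (b (a (l 16598016) (l 16594512)) (l 16603224))) (b (a (l 16601680) (l 16593096)) (b (l 16589408) (l 16585912)))) (a (b (c (a (l 16609120) (l 16605776)) (a (l 16613136) (l 16609912))) (c (a (l 16602440) (l 16599104)) (a (l 16606768) (l 16603560)))) (b (c (a (l 16602528) (l 16599384)) (a (l 16606784) (l 16603776))) (c (a (l 16595880) (l 16592752)) (a (l 16600456) (l 16597472)))))) (c (a (b (c (l 16585424) (l 16600264)) (c (l 16578584) (l 16583248))) (b (c (l 16578488) (l 16583088)) (b (l 16575728) (l 16572440)))) (c (a (b (a (l 16595992) (l 16592664)) (b (l 16589632) (l 16586584))) (b (l 16598360) (b (l 16583200) (l 16580160)))) (a (b (a (l 16600640) (l 16597440)) (b (l 16594592) (l 16591720))) (b (a (l 16594352) (l 16591384)) (b (l 16588432) (l 16585552))))))) (a (b (c (b (a (l 16589848) (l 16586704)) (a (l 16582784) (l 16579672))) (b (a (l 16598592) (l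 16595760)) (b (l 16592320) (l 16599640)))) (c (b (a (l 16575920) (l 16572824)) (b (l 16569336) (l 16566056))) (b (b (l 16596528) (l 16593472)) (b (l 16590472) (l 16587520))))) (b (b (c (a (l 16583672) (l 16580752)) (a (l 16593056) (l 16590496))) (c (a (l 16576672) (l 16573784)) (a (l 16586680) (l 16584160)))) (c (b (a (l 16569848) (l 16566992)) (b (l 16563408) (l 16560144))) (b (a (l 16580504) (l 16578016)) (b (l 16574744) (l 16571816))))))), by decide +kernel⟩

def k144_A00pm_102_s1 : ∃ t, chk3 f_A00pm_102_s1 t 63 39 2 = true :=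
  ⟨(a (b (b (c (a (b (l 16558040) (l 16554280)) (l 16553624)) (a (b (l 16566632) (l 16563160)) (b (l 16559328) (l 16555840)))) (c (a (b (l 16550576) (l 16546928)) (b (l 16542776) (l 16539112))) (a (b (l 16559736) (l 16556376)) (b (l 16552408) (l 16549024))))) (b (c (a (b (l 16543328) (l 16539792)) (b (l 16535488) (l 16531920))) (a (a (l 16553352) (l 16549568)) (b (l 16545704) (l 16542440)))) (c (a (b (l 16536304) (l 16532872)) (b (l 16528408) (l 16524952))) (a (b (l 16546648) (l 16543528)) (b (l 16539224) (l 16536072)))))) (b (a (c (b (l 16540896) (b (l 16535280) (l 16531600))) (b (b (l 16552376) (l 16548888)) (b (l 16545448) (l 16542056)))) (b (c (l 16533728) (b (l 16545824) (l 16542336))) (c (b (l 16528112) (l 16524424)) (b (l 16538904) (l 16535512))))) (a (b (c (b (l 16527968) (l 16524384)) (b (l 16538720) (l 16535440))) (c (c (l 16516376) (l 16521880)) (c (l 16527640) (l 16533656)))) (b (c (b (l 16520784) (l 16517184)) (a (l 16532120) (l 16528952))) (c (c (l 16509016) (l 16514824)) (c (l 16520896)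 (l 16527240))))))), by decide +kernel⟩

def k145_A00pm_102_s1 : ∃ t, chk3 f_A00pm_102_s1 t 63 39 3 = true :=
  ⟨(a (c (b (a (b (b (l 16576032) (l 16572864)) (c (l 16565600) (l 16570904))) (b (b (l 16569208) (l 16566032)) (b (l 16562920) (l 16559856)))) (c (a (b (l 16559472) (l 16553592)) (b (l 16552464) (l 16546528))) (a (b (l 16565104) (l 16559568)) (b (l 16558352) (l 16552768))))) (c (b (a (b (b (l 16583608) (l 16580688)) (a (l 16578112) (l 16574768))) (b (b (l 16577176) (l 16574248)) (a (l 16571544) (l 16568440)))) (a (b (a (l 16572672) (l 16569312)) (l 16571032)) (b (a (l 16566064) (l 16562944)) (l 16559248)))) (b (a (b (b (l 16588904) (l 16586160)) (a (l 16583792) (l 16580576))) (b (b (l 16582744) (l 16579992)) (a (l 16577480) (l 16574520)))) (a (b (a (l 16578704) (l 16575472)) (b (l 16573424) (l 16571088))) (b (a (l 16572360) (l 16569392)) (b (l 16567176) (l 16564816))))))) (c (c (b (a (b (l 16558496) (l 16552088)) (b (l 16552440) (l 16546040))) (a (b (l 16545896) (l 16539928)) (b (l 16539840) (l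 16533856)))) (b (a (b (l 16564024) (l 16557944)) (b (l 16558296) (l 16552232))) (a (b (l 16552088) (l 16546464)) (b (l 16546376) (l 16540736))))) (b (a (c (b (l 16580248) (a (l 16565464) (l 16562632))) (b (a (l 16577080) (l 16574416)) (a (l 16571704) (l 16569040)))) (a (b (l 16579248) (l 16573696)) (b (l 16566320) (l 16560784)))) (a (b (c (l 16569008) (a (l 16566560) (l 16563896))) (c (l 16553264) (l 16570800))) (b (a (l 16568376) (l 16555464)) (a (l 16552800) (l 16550376))))))), by decide +kernel⟩

def k146_A00pm_102_s1 : ∃ t, chk3 f_A00pm_102_s1 t 12 80 1 = true :=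
  ⟨(a (c (a (a (l 3) (b (l 3) (b (l 3) (b (c (l 531513999) (l 531576463)) (l 531557263))))) (b (a (l 3) (b (l 3) (l 531630223))) (b (a (l 531329311) (l 531666575)) (a (c (l 531596687) (l 531668623)) (l 531700367))))) (b (a (l 3) (a (l 3) (b (l 3) (b (a (l 3) (l 532126607)) (c (l 531792271) (l 531923855)))))) (a (a (l 3) (a (a (l 3) (b (l 3) (b (l 3) (l 531848335)))) (b (l 3) (b (a (l 3) (b (l 3) (a (l 531749775) (l 531762319)))) (l 531753359))))) (b (a (a (a (l 3) (b (l 3) (a (l 531881615) (l 531792783)))) (c (l 531755151) (b (l 531871119) (l 531886223)))) (c (l 531816847) (l 531948063))) (a (c (b (a (l 531733903) (l 531778703)) (l 531771023)) (b (a (a (b (l 531835023) (l 531841935)) (l 531863951)) (l 531900815)) (a (c (l 531833231) (l 531897743)) (l 531914383)))) (b (l 531902351) (l 531916687))))))) (a (b (c (c (l 531378063) (l 531479583)) (c (b (l 531850895) (l 531888527)) (b (a (c (l 531924367) (b (l 531993743) (l 532011663))) (l 532034447)) (a (l 531997839) (l 532070031))))) (b (c (l 531752335) (a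 (l 531957391) (l 532025743))) (c (l 531787407) (c (l 531955087) (l 532096399))))) (b (a (c (c (l 531705999) (l 531549327)) (a (l 532019231) (l 532046367))) (c (l 531788063) (b (l 532065423) (l 532102287)))) (c (a (l 531837327) (l 531864975)) (a (b (l 532082319) (l 532114575)) (b (l 532135823) (l 532165775))))))), by decide +kernel⟩

def k147_A00pm_102_s1 : ∃ t, chk3 f_A00pm_102_s1 t 13 80 1 = true :=
  ⟨(a (a (b (c (a (l 531538207) (l 531814799)) (a (b (l 532108687) (l 532146063)) (l 532159375))) (c (a (l 531883919) (l 16742952)) (a (l 532192655) (l 16755032)))) (b (c (a (l 16743768) (l 16729096)) (a (l 16755912) (l 16752120))) (c (a (l 16739056) (l 16724448)) (a (l 16751504) (l 16747776))))) (a (b (c (a (l 16745472) (l 16719352)) (a (l 16747944) (l 16743232))) (c (a (l 16719896) (l 16725288)) (a (l 16743656) (l 16718024)))) (c (a (b (l 16713736) (b (l 16731272) (l 16718504))) (a (b (l 16730232) (b (l 16726760) (c (l 16712896) (l 16725232)))) (b (l 16727144) (b (a (l 16724400) (l 16712128)) (a (l 16721528)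 (l 16719440)))))) (a (b (l 16717112) (l 16723328)) (b (l 16722072) (a (b (l 16730720) (l 16717944)) (b (l 16717240) (l 16714584)))))))), by decide +kernel⟩

def k148_A00pm_102_s1 : ∃ t, chk3 f_A00pm_102_s1 t 12 81 1 = true :=
  ⟨(a (a (b (c (b (l 531264911) (l 531558799)) (b (c (a (l 531588495) (l 531695247)) (a (b (a (l 3) (l 531577231)) (l 531424399)) (l 531535647))) (c (l 531666575) (a (l 531171727) (l 531825807))))) (b (c (l 531581839) (l 531197583)) (b (l 531661199) (l 531132047)))) (a (b (b (c (l 531391375) (a (c (l 531768463) (l 531883407)) (l 531736863))) (c (l 531687311) (l 531602063))) (b (l 531522335) (l 531809567))) (b (c (b (l 531731343) (l 531759503)) (b (c (l 531876239) (l 532002447)) (l 531960207))) (b (l 531871119) (l 531889295))))) (a (b (c (b (l 531819663) (l 531848591)) (b (l 531781519) (l 532073615))) (c (b (l 531873679) (l 531894415)) (b (l 532092815) (l 532106383)))) (b (c (a (l 531900047) (l 16755840)) (a (l 531881871) (l 532199823))) (c (a (l 16754272) (l 16740552)) (a (l 532187423)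 (l 16752400)))))), by decide +kernel⟩

def k149_A00pm_102_s1 : ∃ t, chk3 f_A00pm_102_s1 t 13 81 1 = true :=
  ⟨(c (a (a (b (a (l 16741888) (l 16738240)) (a (l 16737144) (l 16733528))) (b (a (l 16723904) (l 16730304)) (a (l 16729696) (b (l 16737272) (l 16724400))))) (a (b (a (l 16725784) (b (l 16721848) (a (l 16731344) (l 16728648)))) (a (b (l 16722264) (a (l 16731536) (c (l 16717872) (l 16729824)))) (b (a (l 16718472) (b (l 16716304) (a (l 16726200) (l 16724480)))) (a (c (b (l 16726248) (l 16724672)) (l 16727056)) (c (l 16721992) (l 16723832)))))) (c (b (a (a (b (l 16727360) (b (l 16725536) (l 16724120))) (b (l 16718912) (l 16721112))) (b (a (l 16720360) (l 16716096)) (l 16714872))) (a (b (l 16730200) (l 16716328)) (l 16709792))) (b (a (a (b (l 16729016) (l 16726520)) (b (l 16725944) (l 16723040))) (a (b (l 16722344) (l 16719176)) (l 16716744))) (a (b (l 16732216) (l 16718536)) (l 16712432)))))) (a (a (b (a (l 16753856) (l 16750560)) (a (l 16749296) (l 16746032))) (b (a (l 16747088) (l 16743400)) (a (l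 16742568) (l 16717912)))) (a (b (a (l 16718328) (c (l 16723160) (l 16714600))) (a (c (l 16723336) (l 16725136)) (b (a (l 16711480) (l 16719336)) (a (l 16719408) (l 16706072))))) (b (b (a (a (l 16731904) (l 16718568)) (a (l 16715296) (l 16722216))) (a (a (l 16719056) (l 16715920)) (l 16710712))) (a (c (b (l 16723992) (l 16721032)) (l 16714696)) (b (l 16697408) (l 16715592))))))), by decide +kernel⟩

def k150_A00pm_102_s1 : ∃ t, chk3 f_A00pm_102_s1 t 12 82 1 = true :=
  ⟨(a (b (a (b (b (l 531666063) (l 531652751)) (c (l 531569295) (l 531423519))) (b (c (l 531775375) (l 531680143)) (c (l 531755151) (l 531911567)))) (a (b (c (l 531521167) (l 531616655)) (c (a (l 16747712) (l 16755848)) (l 531533343))) (b (c (a (l 16745856) (l 16753760)) (l 531852943)) (c (a (l 16753408) (l 16750872)) (a (l 16753864) (l 16751480)))))) (c (b (a (b (l 531902351) (l 531623199)) (b (a (l 16750544) (l 16747352)) (a (l 16747960) (l 16744784)))) (a (b (a (l 16751064) (l 16748240)) (a (l 16748216) (l 16745432))) (b (a (l 16745272)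 (l 16742128)) (a (l 16732008) (l 16728888))))) (b (a (b (l 532104591) (l 532075919)) (b (l 16750280) (l 16747728))) (a (a (l 16739992) (l 16737376)) (a (l 16734624) (l 16731720)))))), by decide +kernel⟩

def k151_A00pm_102_s1 : ∃ t, chk3 f_A00pm_102_s1 t 26 82 1 = true :=
  ⟨(a (c (c (c (c (a (b (l 16742112) (b (l 16738200) (l 16725008))) (b (l 16727904) (b (l 16734480) (a (l 16732736) (b (l 16731504) (a (l 16730584) (l 16729480))))))) (a (b (l 16742272) (b (l 16738352) (l 16735640))) (b (l 16738576) (b (l 16734672) (a (l 16732912) (b (l 16731696) (a (l 16730768) (l 16729680)))))))) (a (b (l 16742528) (b (l 16738600) (l 16735872))) (b (l 16728400) (b (l 16734976) (a (l 16733184) (b (l 16732008) (a (l 16731064) (l 16730008)))))))) (a (b (l 16722120) (b (l 16739152) (l 16736408))) (b (l 16718600) (b (l 16735640) (a (l 16733800) (l 16731936)))))) (a (b (l 16744472) (l 16728664)) (b (l 16720240) (b (l 16737264) (c (l 16723408) (l 16714128)))))) (b (a (c (b (l 16726032) (c (l 16733472) (l 16734528))) (l 16727256))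 (c (c (b (l 16731824) (a (l 16725080) (b (l 16723496) (a (l 16727888) (l 16726480))))) (b (l 16733064) (a (l 16731520) (l 16729256)))) (c (b (l 16734488) (l 16721352)) (l 16724312)))) (c (a (c (b (a (l 16726600) (b (l 16730480) (a (l 16729600) (l 16728416)))) (a (b (a (l 16730280) (b (l 16729600) (l 16728728))) (l 16727984)) (l 16736848))) (b (a (l 16732840) (l 16730816)) (a (b (l 16730720) (l 16729072)) (l 16727616)))) (b (a (b (c (a (l 16728816) (l 16727536)) (l 16729400)) (l 16727064)) (b (l 16726136) (l 16724408))) (a (l 16724440) (l 16721792)))) (a (b (c (l 16722576) (l 16734504)) (a (b (l 16732576) (l 16731072)) (l 16729888))) (b (a (b (l 16731616) (l 16730128)) (l 16728712)) (l 16726800)))))), by decide +kernel⟩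

def k152_A00pm_102_s1 : ∃ t, chk3 f_A00pm_102_s1 t 27 82 1 = true :=
  ⟨(b (c (a (a (b (a (b (l 16729672) (a (l 16728968) (l 16727632))) (b (a (l 16727752) (l 16726240)) (l 16725352))) (a (b (c (l 16725992) (l 16727464)) (l 16725000)) (l 16722816))) (b (a (l 16722960) (l 16719552)) (l 16707440))) (a (b (l 16714088) (l 16710768)) (l 16704504))) (a (a (b (a (l 16721664) (l 16719248)) (a (l 16729344) (l 16726824))) (c (l 16712448) (l 16725504))) (a (l 16718144) (l 16669488)))) (c (a (a (b (a (l 16722432) (l 16719408)) (l 16717480)) (l 16691840)) (a (l 16705704) (l 16697864))) (a (a (l 16707960) (l 16718424)) (l 16709288)))), by decide +kernel⟩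

def k153_A00pm_102_s1 : ∃ t, chk3 f_A00pm_102_s1 t 24 166 1 = true :=
  ⟨(b (a (b (a (l 16750640) (l 16753624)) (a (l 16749016) (l 16741544))) (b (a (l 16751296) (l 16738376)) (a (l 16739240) (l 16736832)))) (a (b (a (l 16747352) (l 16745160)) (a (l 16750912) (l 16748752))) (b (a (l 16742880) (l 16740504)) (a (l 16741256) (l 16738912))))), by decide +kernel⟩

def k154_A00pm_102_s1 : ∃ t, chk3 f_A00pm_102_s1 t 25 166 2 = true :=
  ⟨(c (c (c (c (a (b (a (l 16745088) (l 16742272)) (a (l 16742112) (l 16728856))) (a (b (l 16739296) (b (l 16737128) (a (l 16736432) (l 16734904)))) (b (l 16725624) (b (a (l 16734792) (b (l 16733512) (a (l 16733200) (l 16732296)))) (a (b (l 16733680) (a (l 16733296) (l 16732336))) (b (l 16731840) (l 16730816))))))) (a (b (a (l 16745112) (l 16742304)) (a (l 16742128) (l 16728880))) (a (b (l 16739328) (b (l 16737160) (l 16730448))) (b (l 16725680) (b (a (l 16734832) (b (l 16733560) (l 16732784))) (a (b (l 16733720) (l 16732856)) (l 16731384))))))) (a (b (a (l 16745144) (l 16742344))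 (a (l 16742152) (l 16728912))) (a (b (l 16739392) (b (l 16737216) (l 16730496))) (b (l 16725760) (b (a (l 16734904) (l 16738480)) (a (b (l 16733792) (l 16732928)) (l 16731472))))))) (c (a (b (a (l 16745192) (l 16742416)) (a (l 16742184) (l 16739456))) (a (b (l 16739480) (b (l 16737296) (l 16725328))) (b (l 16736360) (b (a (l 16735000) (l 16733352)) (a (b (l 16733880) (l 16733024)) (l 16731600)))))) (a (b (a (l 16745248) (l 16742488)) (a (l 16742224) (l 16739512))) (a (b (l 16739576) (l 16731392)) (b (l 16736480) (b (l 16729032) (a (b (l 16733984) (l 16733136)) (l 16731736)))))))) (c (a (b (a (l 16745336) (l 16742616)) (a (l 16742296) (l 16739616))) (a (b (l 16739736) (l 16731528)) (b (l 16736680) (b (l 16729224) (a (l 16733720) (l 16731968)))))) (a (b (l 16733664) (b (l 16731384) (l 16729840))) (a (b (l 16739976) (l 16736992)) (b (l 16736976) (b (l 16734752) (a (l 16733984) (l 16732296)))))))), by decide +kernel⟩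

def k155_A00pm_102_s1 : ∃ t, chk3 f_A00pm_102_s1 t 25 166 3 = true :=
  ⟨(c (a (b (l 16733968) (b (l 16731656) (l 16730096))) (a (b (l 16740400) (l 16737376)) (b (l 16737488) (b (l 16735248) (a (l 16734448) (l 16732872)))))) (a (b (l 16744968) (l 16731336)) (b (l 16739688) (a (l 16738008) (l 16730016))))), by decide +kernel⟩

def k156_A00pm_102_s1 : ∃ t, chk3 f_A00pm_102_s1 t 13 166 1 = true :=
  ⟨(a (a (c (b (a (a (c (b (l 16734504) (c (l 16727696) (l 16733208))) (l 16734400)) (b (c (l 16727496) (l 16733448)) (c (b (a (l 16732128) (l 16731152)) (a (l 16731312) (l 16730224))) (l 16726664)))) (b (a (c (a (b (l 16731744) (l 16730968)) (b (l 16730752) (l 16729856))) (l 16731616)) (c (l 16728568) (l 16729552))) (a (c (l 16729016) (l 16729912)) (l 16727216)))) (a (b (a (c (b (a (l 16732400) (l 16731424)) (l 16730976)) (l 16726840)) (l 16729712)) (a (l 16729848) (l 16727800))) (b (l 16726480) (l 16724576)))) (b (a (a (l 16735616) (l 16728792)) (a (b (l 16733144) (l 16731592)) (l 16709624))) (a (b (a (l 16733352)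 (l 16731712)) (l 16730920)) (l 16728336)))) (b (a (c (a (l 16725800) (l 16723392)) (l 16727792)) (c (l 16719576) (l 16723784))) (a (c (l 16720896) (l 16724688)) (l 16697184)))) (c (a (b (l 16689880) (l 16707208)) (l 16652944)) (a (l 16715264) (l 16703688)))), by decide +kernel⟩

def k157_A00pm_102_s1 : ∃ t, chk3 f_A00pm_102_s1 t 24 167 1 = true :=
  ⟨(a (a (c (b (l 16748520) (l 16745200)) (b (l 16748296) (l 16744816))) (c (b (l 16746336) (l 16743088)) (b (l 16746264) (l 16742856)))) (c (a (a (b (l 16744640) (b (b (b (l 16742840) (a (l 16742720) (b (l 16742256) (b (b (l 16742136) (l 16742080)) (l 16742000))))) (l 16741832)) (l 16740632))) (b (l 16743480) (b (b (b (l 16741696) (b (l 16741392) (b (b (l 16736000) (a (l 16736224) (l 16740800))) (l 16741016)))) (l 16740576)) (l 16739392)))) (b (l 16741680) (b (b (b (a (l 16740520) (b (l 16739416) (l 16733936))) (b (a (b (l 16740264) (l 16734872)) (b (l 16738952) (l 16738728))) (a (l 16739800) (l 16738384)))) (l 16738488)) (l 16737328)))) (a (b (l 16744152) (b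 (b (b (l 16742272) (b (l 16741960) (b (b (l 16736576) (a (l 16742304) (l 16741224))) (l 16741680)))) (l 16730720)) (l 16729464))) (b (l 16741944) (b (b (b (a (l 16740656) (l 16739536)) (b (a (l 16740336) (l 16739184)) (l 16739488))) (l 16738944)) (l 16737720)))))), by decide +kernel⟩

def k158_A00pm_102_s1 : ∃ t, chk3 f_A00pm_102_s1 t 25 334 1 = true :=
  ⟨(b (a (c (a (l 16739944) (a (l 16737968) (c (b (l 16736864) (l 16736104)) (l 16736728)))) (a (l 16740432) (l 16727480))) (a (c (a (c (b (l 16735416) (a (b (l 16735224) (l 16734760)) (l 16734144))) (b (l 16735728) (l 16734880))) (b (c (a (b (l 16734488) (l 16734040)) (l 16733384)) (l 16734208)) (l 16733000))) (a (l 16736016) (l 16734632))) (c (a (b (l 16732208) (l 16731192)) (l 16729816)) (l 16732408)))) (b (a (c (a (l 16738792) (a (c (b (l 16736944) (l 16736528)) (l 16736912)) (b (a (l 16735976) (l 16735208)) (l 16735072)))) (a (l 16739224) (a (l 16737416) (l 16736128)))) (a (c (a (l 16733664) (l 16731928)) (l 16734056)) (l 16719576))) (b (b (a (a (c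 (l 16733064) (l 16738728)) (a (c (a (l 16736648) (l 16735864)) (l 16736896)) (l 16735040))) (a (l 16722240) (l 16729440))) (b (a (a (c (a (l 16738808) (l 16737520)) (l 16738576)) (a (c (l 16736048) (l 16736728)) (l 16734848))) (a (l 16732528) (l 16729248))) (b (a (a (c (a (l 16738736) (l 16737440)) (l 16738496)) (a (l 16736232) (l 16734752))) (a (l 16732432) (l 16729152))) (a (a (c (a (l 16738688) (l 16737384)) (l 16738448)) (a (l 16736160) (l 16734688))) (a (l 16732368) (l 16729088)))))) (a (a (c (a (l 16733208) (a (l 16732200) (l 16736704))) (a (l 16738808) (l 16737600))) (c (l 16729472) (l 16735672))) (a (l 16732064) (l 16728784)))))), by decide +kernel⟩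

def k159_A00pm_102_s1 : ∃ t, chk3 f_A00pm_102_s1 t 25 335 1 = true :=
  ⟨(b (b (a (b (a (a (c (b (l 16732856) (l 16737776)) (l 16738368)) (c (l 16736432) (l 16737128))) (c (l 16734056) (l 16735192))) (a (c (a (l 16726656) (l 16735624)) (l 16737224)) (l 16723384))) (b (a (l 16731488) (l 16728208)) (c (a (l 16729856) (l 16715728)) (a (l 16731960) (b (l 16729208) (l 16728936)))))) (b (b (a (a (l 16736272) (l 16733400)) (a (l 16730336) (c (l 16725648) (l 16728712)))) (b (a (a (l 16736120) (l 16733256)) (a (l 16730192) (c (l 16725512) (l 16728568)))) (b (a (a (l 16736048) (l 16733184)) (a (l 16730120) (c (l 16725448) (l 16728496)))) (a (a (l 16736000) (l 16733136)) (a (l 16730080) (c (l 16725400) (l 16728456))))))) (a (a (l 16735784) (l 16732920)) (a (l 16729864) (c (l 16725200) (l 16728240)))))) (a (a (l 16734808) (l 16731968)) (a (l 16707960) (c (l 16724304) (l 16727312))))), by decide +kernel⟩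

def k160_A00pm_102_s1 : ∃ t, chk3 f_A00pm_102_s1 t 26 334 1 = true :=
  ⟨(a (a (b (c (l 16726840) (l 16729280)) (l 16705024)) (b (l 16724128) (l 16722192))) (a (b (l 16720000) (l 16697112)) (c (l 16711800) (l 16717608)))), by decide +kernel⟩

def k161_A00pm_102_s1 : ∃ t, chk3 f_A00pm_102_s1 t 26 670 1 = true :=
  ⟨(b (a (b (a (l 16724680) (l 16699904)) (c (b (a (l 16722512) (l 16718248)) (a (l 16711536) (c (l 16716760) (l 16718824)))) (a (c (l 16724952) (l 16721864)) (b (l 16722824) (c (l 16721224) (a (l 16724752) (l 16723184))))))) (c (b (a (l 16714272) (l 16709280)) (b (a (l 16713640) (l 16708640)) (a (c (l 16711904) (l 16703976)) (a (a (l 16710064) (l 16708792)) (a (l 16707488) (l 16706136)))))) (b (c (l 16695160) (l 16709008)) (a (b (l 16708784) (c (l 16717392) (c (l 16719856) (l 16716376)))) (a (b (l 16716432) (c (l 16714328) (l 16718120))) (b (l 16714408) (c (l 16712144) (l 16716264)))))))) (b (b (a (c (a (l 16721696) (l 16717432)) (a (l 16715144) (c (l 16720976) (l 16723784)))) (c (a (l 16723296)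 (a (l 16709104) (l 16706488))) (a (a (l 16719704) (l 16723112)) (a (l 16721200) (l 16719184))))) (b (a (c (a (l 16721568) (l 16717296)) (a (l 16725496) (c (l 16720848) (l 16723648)))) (c (a (l 16712680) (a (l 16708984) (l 16706368))) (a (c (l 16717016) (l 16715160)) (a (l 16721072) (l 16724296))))) (b (a (c (a (l 16721504) (l 16717232)) (a (l 16725424) (c (l 16720776) (l 16723584)))) (c (a (l 16712616) (a (l 16708920) (l 16706304))) (a (c (l 16716952) (l 16715096)) (a (l 16721008) (l 16724232))))) (a (c (a (l 16721456) (l 16717192)) (a (l 16725384) (c (l 16720736) (l 16723536)))) (c (a (l 16712576) (a (l 16708880) (l 16706264))) (a (c (l 16716912) (l 16715056)) (a (l 16720968) (l 16724192)))))))) (a (c (a (l 16721256) (l 16717000)) (a (l 16725176) (c (l 16720536) (l 16723336)))) (c (a (l 16712392) (a (l 16708696) (l 16706080))) (a (c (l 16716720) (l 16714856)) (a (l 16720776) (l 16724008))))))), by decide +kernel⟩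

def k162_A00pm_102_s1 : ∃ t, chk3 f_A00pm_102_s1 t 26 671 1 = true :=
  ⟨(a (c (a (l 16720384) (l 16716144)) (a (l 16713784) (c (l 16719656) (l 16722440)))) (c (a (l 16706304) (c (l 16705064) (l 16708192))) (a (a (l 16718400) (l 16721816)) (a (l 16719928) (l 16717928))))), by decide +kernel⟩

def k163_A00pm_102_s1 : ∃ t, chk3 f_A00pm_102_s1 t 27 334 1 = true :=
  ⟨(b (a (a (l 16710512) (l 16662872)) (a (l 16656488) (l 16649424))) (b (a (a (l 16667208) (l 16661520)) (a (l 16655160) (l 16648104))) (b (b (a (a (l 16666608) (l 16660928)) (a (l 16654568) (l 16647528))) (b (a (a (l 16666416) (l 16660744)) (a (l 16654384) (l 16647344))) (b (a (a (l 16666328) (l 16660648)) (a (l 16654296) (l 16647256))) (a (a (l 16666264) (l 16660584)) (a (l 16654232) (l 16647192)))))) (a (a (l 16686936) (l 16681264)) (a (l 16674912) (l 16646904)))))), by decide +kernel⟩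

def k164_A00pm_102_s1 : ∃ t, chk3 f_A00pm_102_s1 t 27 1340 1 = true :=
  ⟨(a (c (b (a (l 16703704) (l 16697424)) (a (b (l 16703064) (a (a (l 16704736) (l 16703296)) (a (l 16701816) (l 16695040)))) (b (l 16686296) (a (a (l 16693472) (l 16691856)) (a (l 16690192) (l 16688488)))))) (b (a (l 16711432) (l 16706432)) (a (a (b (l 16712232) (c (l 16709808) (l 16714256))) (b (l 16709896) (c (l 16707304) (l 16712096)))) (c (b (l 16703560) (l 16703232)) (a (l 16709872) (l 16707392)))))) (c (b (a (l 16690432) (l 16682728)) (c (a (b (l 16687480) (a (l 16688800) (l 16684968))) (b (l 16679456) (a (l 16680960) (l 16676768)))) (a (b (l 16692232) (a (l 16693520) (l 16690008))) (b (l 16684864) (l 16679168))))) (a (b (l 16700784) (b (l 16679464) (c (l 16697232) (l 16703280)))) (b (l 16694480) (c (l 16690728) (l 16697464)))))), by decide +kernel⟩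

def k165_A00pm_102_s1 : ∃ t, chk3 f_A00pm_102_s1 t 27 1341 1 = true :=
  ⟨(b (b (a (a (c (a (l 16703696) (l 16700728)) (a (l 16722248) (l 16719912))) (c (a (l 16697584) (l 16694264)) (a (l 16706928) (l 16704272)))) (a (c (a (l 16690768) (l 16687088)) (a (l 16701456) (l 16698472))) (c (a (l 16683240) (l 16679208)) (l 16672720)))) (b (a (a (c (a (l 16703576) (l 16700608)) (c (l 16708208) (l 16718136))) (c (a (l 16697464) (l 16694144)) (a (l 16706808) (l 16704152)))) (a (c (a (l 16690648) (l 16686976)) (a (l 16701336) (l 16698360))) (c (a (l 16683128) (l 16679096)) (l 16672600)))) (b (a (a (c (a (l 16703512) (l 16700544)) (c (l 16708144) (l 16718072))) (c (a (l 16697408) (l 16694088)) (a (l 16706752) (l 16704096)))) (a (c (a (l 16690592) (l 16686920)) (a (l 16701280) (l 16698304))) (c (a (l 16683064) (l 16679040)) (l 16672544)))) (a (a (c (a (l 16703472) (l 16700504)) (c (l 16708104) (l 16718032))) (c (a (l 16697368) (l 16694048)) (a (l 16706712) (l 16704056)))) (a (c (a (l 16690552) (l 16686880)) (a (l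 16701240) (l 16698264))) (c (a (l 16683032) (l 16679000)) (l 16672512))))))) (c (a (a (a (l 16703288) (l 16700328)) (a (l 16697184) (l 16693872))) (a (a (l 16690376) (l 16686704)) (a (l 16682856) (l 16678832)))) (a (a (c (l 16707920) (l 16717848)) (a (l 16706528) (l 16703880))) (a (a (l 16701064) (l 16698088)) (l 16672344))))), by decide +kernel⟩

def k166_A00pm_102_s1 : ∃ t, chk3 f_A00pm_102_s1 t 27 671 1 = true :=
  ⟨(c (a (a (a (l 16702480) (l 16699528)) (c (l 16692672) (l 16696976))) (a (a (l 16689600) (l 16685936)) (a (l 16682096) (l 16678080)))) (a (a (a (l 16721008) (l 16718688)) (c (l 16701800) (l 16707184))) (a (a (l 16700288) (l 16697320)) (l 16671592)))), by decide +kernel⟩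

def k167_A00pm_102_s1 : ∃ t, chk3 f_A00pm_102_s1 t 12 21 1 = true :=
  ⟨(a (b (a (b (b (a (a (l 16740296) (l 16739376)) (c (l 16738184) (l 16737704))) (a (c (l 16733472) (l 16732464)) (l 16720672))) (a (c (l 16723440) (l 16721904)) (c (l 16721600) (l 16720248)))) (a (c (b (b (a (l 16736608) (l 16735432)) (l 16740064)) (l 16719840)) (b (b (a (l 16736264) (l 16735248)) (l 16728992)) (l 16718736))) (c (b (a (l 16730960) (l 16729624)) (l 16717664)) (b (l 16709360) (l 16717008))))) (a (b (c (l 16730288) (l 16707184)) (a (l 16695864) (l 16693760))) (b (a (b (l 16688096) (l 16702312)) (c (l 16704864) (l 16703472))) (a (l 16692168) (l 16669736))))) (b (b (c (a (a (l 16727520) (l 16724536)) (a (l 16721320) (l 16702112))) (a (a (l 16728128) (l 16725784)) (a (l 16702296) (b (l 16713088) (l 16717560))))) (a (a (l 16715056) (l 16712656)) (a (l 16689072) (c (l 16706240) (l 16708464))))) (a (a (b (l 16702192) (l 16689152)) (b (l 16700080) (l 16687336))) (b (a (l 16697760) (l 16695216)) (l 16652752))))), by decide +kernel⟩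

def k168_A00pm_102_s1 : ∃ t, chk3 f_A00pm_102_s1 t 13 42 1 = true :=
  ⟨(a (a (a (c (b (b (l 16716872) (l 16711216)) (l 16702712)) (b (b (b (l 16711592) (l 16719152)) (l 16714752)) (l 16684912))) (c (b (b (l 16712704) (l 16707176)) (l 16698856)) (b (b (c (l 16716128) (b (l 16720288) (l 16717416))) (c (l 16710448) (l 16713080))) (b (l 16705960) (l 16700168))))) (a (b (b (c (b (l 16709528) (l 16706832)) (c (l 16712416) (a (l 16716544) (l 16714920)))) (c (l 16702784) (c (l 16706872) (l 16710120)))) (c (l 16694648) (b (l 16702832) (l 16697184)))) (b (b (a (c (l 16704552) (c (l 16709432) (l 16713240))) (c (l 16701984) (c (l 16707320) (l 16711456)))) (c (l 16698000) (c (l 16702984) (l 16706888)))) (c (l 16690048) (b (l 16678448) (l 16693920)))))) (b (a (b (a (a (c (l 16699240) (c (l 16705040) (l 16709520))) (c (l 16696320) (c (l 16702592) (l 16707424)))) (b (c (a (l 16694488) (l 16691200)) (c (l 16699888) (l 16694784))) (c (l 16690336) (c (l 16697336) (l 16702704))))) (a (c (l 16692624) (c (l 16698576) (l 16703176)))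 (c (l 16686536) (a (l 16697336) (l 16694816))))) (c (b (a (a (l 16681248) (l 16677624)) (a (l 16673816) (l 16664584))) (a (l 16679744) (l 16672232))) (a (a (c (l 16691776) (l 16687216)) (b (l 16673272) (l 16689296))) (b (b (l 16669784) (l 16667368)) (l 16663744))))) (c (a (a (l 16684856) (l 16678936)) (a (b (l 16674784) (l 16669816)) (b (l 16667384) (l 16662528)))) (a (a (b (l 16674528) (l 16690152)) (b (l 16669968) (l 16685744))) (a (b (l 16685728) (l 16680696)) (l 16656464)))))), by decide +kernel⟩

def k169_A00pm_102_s1 : ∃ t, chk3 f_A00pm_102_s1 t 13 43 1 = true :=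
  ⟨(c (a (b (a (l 16668520) (a (l 16683712) (l 16679368))) (a (l 16678048) (l 16670696))) (b (a (a (l 16674416) (l 16668752)) (a (l 16662352) (l 16655240))) (a (l 16661272) (l 16648992)))) (a (a (b (a (l 16693912) (l 16691408)) (l 16680704)) (b (b (l 16669024) (l 16642416)) (l 16654880))) (a (a (b (l 16682088) (l 16671208)) (b (l 16677912) (l 16667352))) (b (a (l 16673096) (l 16667624)) (l 16628896))))), by decide +kernel⟩

def k170_A00pm_102_s1 : ∃ t, chk3 f_A00pm_102_s1 t 6 11 1 = true :=
  ⟨(a (a (b (a (b (c (l 16656384) (l 16673664)) (l 16693048)) (b (b (a (l 16678776) (l 16677320)) (l 16654376)) (c (l 16732176) (l 16559744)))) (b (a (l 16628288) (l 16621952)) (a (l 16607208) (l 16599512)))) (b (c (a (b (l 16711656) (l 16602696)) (b (l 16665832) (l 16640872))) (a (b (l 16667440) (l 16640840)) (b (l 16665392) (l 16638880)))) (a (b (c (l 16620048) (l 16614840)) (l 16509984)) (b (l 16614440) (l 16505768))))) (a (b (a (b (c (l 16660680) (l 16630984)) (b (l 16643144) (l 16630784))) (b (b (b (l 16622648)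 (l 16616984)) (l 16608424)) (b (l 16638808) (l 16627072)))) (a (b (l 16611824) (l 16503128)) (b (l 16567240) (l 16584536)))) (b (c (a (b (b (l 16650800) (l 16640216)) (l 16624144)) (b (b (l 16639032) (l 16628992)) (l 16613776))) (b (a (b (l 16658488) (l 16647472)) (b (l 16650136) (l 16639792))) (a (l 16630656) (l 16540104)))) (a (b (l 16562616) (l 16581320)) (b (l 16534328) (l 16491432)))))), by decide +kernel⟩

def k171_A00pm_102_s1 : ∃ t, chk3 f_A00pm_102_s1 t 14 40 1 = true :=
  ⟨(a (b (a (a (b (a (b (l 16716624) (c (a (l 16723544) (l 16721696)) (l 16716464))) (b (c (a (l 16722632) (l 16720696)) (l 16715608)) (c (a (l 16719624) (l 16717392)) (l 16712864)))) (c (a (b (a (l 16720632) (l 16718472)) (l 16716224)) (b (l 16715160) (l 16711824))) (a (b (l 16713768) (l 16721384)) (l 16708520)))) (c (b (a (c (l 16714536) (l 16716872)) (b (l 16712696) (l 16709312))) (a (l 16708944) (l 16704264))) (b (a (b (l 16722344) (l 16719408)) (l 16706320)) (a (l 16694096) (l 16711008))))) (c (b (a (c (l 16702240) (l 16705272))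 (c (l 16691712) (l 16695344))) (a (c (l 16695280) (l 16698744)) (l 16686728))) (a (b (a (l 16691632) (l 16708272)) (l 16683704)) (b (a (l 16703808) (l 16699208)) (l 16695784))))) (c (a (b (a (a (l 16721744) (l 16706848)) (a (l 16702288) (l 16697600))) (a (l 16681512) (l 16693352))) (a (b (l 16690288) (l 16683664)) (b (l 16680040) (l 16673408)))) (a (a (b (b (l 16695664) (l 16713808)) (l 16688648)) (b (l 16686392) (l 16701792))) (a (b (l 16699016) (l 16693472)) (b (l 16690160) (l 16684656)))))) (a (c (b (a (b (l 16682632) (l 16675880)) (b (l 16671184) (l 16664440))) (b (a (l 16669200) (l 16657776)) (a (l 16662576) (l 16651160)))) (b (a (b (l 16671072) (l 16686352)) (b (l 16682032) (l 16676392))) (a (l 16646568) (l 16636688)))) (b (b (a (c (l 16658784) (l 16671112)) (c (l 16644936) (l 16658760))) (a (c (l 16652064) (l 16665528)) (c (l 16638248) (l 16653240)))) (c (a (b (l 16645416) (l 16638824)) (b (l 16631632) (l 16625080))) (a (l 16625912) (a (l 16648360) (l 16641944))))))), by decide +kernel⟩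

def k172_A00pm_102_s1 : ∃ t, chk3 f_A00pm_102_s1 t 28 41 1 = true :=
  ⟨(b (a (b (a (b (l 16680344) (l 16656368)) (b (l 16650864) (l 16647848))) (a (l 16651816) (l 16643304))) (b (a (l 16640328) (l 16630776)) (a (l 16634296) (l 16624760)))) (b (a (c (l 16635960) (l 16647544)) (c (l 16616496) (l 16589152))) (a (b (a (c (l 16676768) (l 16689152)) (c (l 16667624) (l 16681488))) (b (b (a (b (a (l 16640632) (l 16636600)) (c (b (l 16663176) (c (c (l 16679168) (l 16671616)) (l 16676336))) (b (l 16687176) (l 16665960)))) (b (a (l 16632392) (l 16628024)) (c (b (l 16664528) (a (l 16655880) (l 16661632))) (l 16658464)))) (b (c (b (c (a (l 16669776) (l 16660304)) (a (l 16676040) (l 16667264))) (b (a (a (l 16674888) (l 16670504)) (c (l 16660192) (l 16667160))) (b (a (a (l 16674832) (l 16670448)) (c (l 16660136) (l 16667104))) (a (a (l 16674792) (l 16670408)) (c (l 16660104) (l 16667064)))))) (a (l 16665696) (l 16679048))) (c (a (a (l 16674632) (l 16670248)) (c (l 16659936) (l 16666904))) (a (l 16686376) (l 16678768)))))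 (c (a (c (l 16668664) (l 16674936)) (a (l 16664952) (l 16660224))) (a (l 16664672) (l 16678056))))) (b (a (c (l 16657880) (l 16673288)) (c (l 16647608) (l 16664624))) (b (b (a (c (b (l 16655424) (c (b (l 16651136) (l 16650560)) (l 16658408))) (l 16650480)) (c (b (l 16645160) (c (l 16619248) (l 16648520))) (l 16662792))) (b (b (a (c (l 16653944) (l 16670944)) (c (l 16643680) (l 16662288))) (b (a (c (l 16653840) (l 16670832)) (c (l 16643568) (l 16662184))) (b (a (c (l 16653784) (l 16670784)) (c (l 16643520) (l 16662128))) (a (c (l 16653744) (l 16670752)) (c (l 16643480) (l 16662096)))))) (a (c (l 16653584) (l 16670592)) (a (l 16612672) (l 16607800))))) (a (c (l 16642376) (l 16669888)) (a (l 16611960) (l 16607088)))))))), by decide +kernel⟩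

def k173_A00pm_102_s1 : ∃ t, chk3 f_A00pm_102_s1 t 29 41 1 = true :=
  ⟨(b (a (b (a (l 16620680) (l 16610056)) (a (l 16572744) (l 16562152))) (a (b (l 16598528) (l 16550664)) (c (l 16615184) (l 16634824)))) (b (a (a (l 16608592) (l 16556088)) (a (l 16544656) (l 16531840))) (a (c (a (b (l 16636800) (a (a (l 16616104) (l 16613368)) (l 16619680))) (b (l 16625456) (a (l 16582544) (l 16576728)))) (b (l 16608896) (a (l 16652816) (l 16643200)))) (c (a (b (l 16613224) (l 16588440)) (b (l 16599632) (l 16595848))) (b (l 16629496) (l 16584992)))))), by decide +kernel⟩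

def k174_A00pm_102_s1 : ∃ t, chk3 f_A00pm_102_s1 t 14 21 1 = true :=
  ⟨(a (c (a (b (b (a (b (c (l 16665696) (l 16671976)) (l 16664008)) (c (b (l 16656288) (l 16651640)) (l 16650480))) (a (l 16656896) (l 16648112))) (b (a (l 16647400) (l 16638832)) (l 16591832))) (b (b (a (c (l 16664888) (l 16651688)) (c (l 16633256) (l 16641792))) (a (l 16638568) (l 16628376))) (b (a (l 16629536) (l 16619480)) (l 16615648)))) (b (a (a (b (a (l 16661176) (l 16657632)) (l 16629040)) (b (b (l 16633280) (l 16670688)) (l 16663864))) (b (a (l 16622968) (l 16614352)) (a (l 16656040) (l 16647624)))) (a (a (l 16625280) (l 16608152)) (a (l 16600832) (l 16550808))))) (b (a (c (a (b (l 16626608) (l 16617560)) (b (l 16615280) (l 16606240))) (a (l 16600984) (l 16591472))) (c (a (b (l 16603088) (l 16594072)) (l 16585048)) (b (l 16579576) (l 16529320)))) (c (a (a (l 16604448) (l 16593216)) (a (l 16581024) (l 16567552))) (a (b (l 16541912) (l 16533648)) (l 16517240))))), by decide +kernel⟩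

def k175_A00pm_102_s1 : ∃ t, chk3 f_A00pm_102_s1 t 14 11 1 = true :=
  ⟨(a (b (c (b (a (b (l 16624320) (l 16614816)) (b (l 16606672) (l 16597672))) (a (l 16600432) (l 16584104))) (a (b (b (l 16639192) (l 16629512)) (l 16530872)) (b (l 16579176) (l 16519000)))) (a (b (l 16503280) (l 16482688)) (b (l 16490400) (l 16471160)))) (b (a (b (a (l 16524312) (a (l 16506496) (l 16501336))) (a (l 16496552) (l 16487344))) (b (c (l 16473984) (l 16501680)) (a (l 16477096) (l 16465240)))) (a (b (l 16474856) (l 16456992)) (b (l 16455376) (l 16438912))))), by decide +kernel⟩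

def k176_A00pm_102_s1 : ∃ t, chk3 f_A00pm_102_s1 t 30 10 1 = true :=
  ⟨(b (b (a (b (b (c (a (l 16629824) (c (l 16609960) (l 16617632))) (a (a (l 16648664) (l 16641592)) (a (l 16634288) (l 16626792)))) (a (c (l 16623176) (l 16639712)) (c (l 16586144) (a (l 16628912) (l 16621464))))) (c (a (b (l 16616608) (l 16610088)) (b (l 16600592) (l 16594136))) (b (a (l 16634400) (l 16619976)) (a (l 16629192) (l 16614864))))) (b (c (a (b (b (l 16588032) (l 16584744)) (a (l 16594592) (l 16586088))) (b (c (a (l 16579608) (l 16570792)) (a (l 16588544) (l 16580080))) (a (l 16577504) (l 16553168)))) (b (c (a (l 16610360) (a (l 16598336) (l 16590256))) (a (l 16620376) (c (l 16581376) (l 16587024)))) (a (a (l 16613872) (l 16606160)) (a (l 16598392) (l 16590568))))) (a (c (b (l 16573408) (l 16535560)) (c (l 16586104) (l 16608392))) (b (c (a (l 16571112) (l 16562552)) (a (l 16593344) (l 16585584))) (c (a (l 16564784) (l 16556264)) (a (l 16588408) (l 16580712))))))) (a (c (b (b (a (l 16603600) (l 16587704)) (l 16547288)) (b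 (l 16582528) (b (l 16577056) (a (l 16581096) (l 16565440))))) (b (a (l 16621568) (l 16565424)) (b (l 16523272) (b (l 16603408) (l 16600936))))) (b (b (c (a (l 16571144) (l 16533264)) (a (l 16594968) (l 16579752))) (a (c (l 16564760) (l 16590144)) (c (l 16547936) (l 16575040)))) (b (a (b (l 16488776) (l 16485880)) (c (l 16541456) (l 16570376))) (c (b (l 16460576) (l 16540840)) (b (l 16490384) (l 16571904))))))) (a (b (c (a (l 16570344) (l 16554752)) (l 16507816)) (c (a (l 16552928) (l 16537424)) (l 16492136))) (b (c (a (l 16538552) (l 16522088)) (l 16479160)) (c (l 16429288) (l 16464176))))), by decide +kernel⟩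

def k177_A00pm_102_s1 : ∃ t, chk3 f_A00pm_102_s1 t 62 40 1 = true :=
  ⟨(b (c (b (a (a (a (l 16568864) (l 16564568)) (b (l 16559752) (l 16556560))) (c (a (l 16544648) (b (l 16537792) (l 16534496))) (a (l 16554968) (b (l 16548328) (l 16545344))))) (a (a (c (l 16555328) (l 16565568)) (c (l 16546648) (l 16557240))) (a (c (l 16538072) (l 16549016)) (c (l 16529608) (l 16540944))))) (a (b (c (a (l 16582184) (l 16574168)) (a (l 16593640) (l 16575536))) (a (c (l 16576784) (l 16588968)) (c (l 16568824) (l 16581408)))) (b (a (c (l 16566264) (b (l 16579680) (l 16577376))) (c (b (l 16559856) (l 16557208)) (b (l 16572360) (l 16570088)))) (a (c (l 16560992) (l 16573984)) (c (l 16553328) (l 16566760)))))) (a (c (b (a (l 16533056) (c (l 16540088) (l 16551320))) (b (l 16529392) (l 16521048))) (b (a (l 16577824) (l 16570136)) (a (l 16573016) (l 16565384)))) (c (b (a (c (l 16531560) (l 16543152)) (c (l 16523152) (l 16535136))) (a (l 16510112) (l 16501960))) (b (a (c (l 16555824) (l 16569576)) (c (l 16548224) (l 16562432)))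 (a (l 16557880) (l 16545336)))))), by decide +kernel⟩

def k178_A00pm_102_s1 : ∃ t, chk3 f_A00pm_102_s1 t 63 40 1 = true :=
  ⟨(b (c (a (b (a (c (b (l 16529504) (l 16526200)) (b (l 16540464) (l 16537472))) (c (b (l 16521544) (l 16518192)) (b (l 16532976) (l 16529936)))) (a (c (b (l 16522928) (l 16519704)) (l 16533064)) (c (b (l 16514888) (l 16511656)) (b (l 16526960) (l 16524048))))) (b (a (c (c (l 16509368) (l 16515160)) (b (l 16525912) (l 16522848))) (c (c (l 16501960) (l 16508072)) (c (l 16514464) (l 16521136)))) (a (c (b (l 16507216) (l 16503936)) (b (l 16519840) (l 16516880))) (c (c (l 16495096) (l 16501520)) (c (l 16508232) (l 16515240)))))) (a (b (a (c (b (l 16552432) (l 16549784)) (b (l 16565416) (l 16563136))) (c (b (l 16545456) (l 16542760)) (b (l 16558976) (l 16556648)))) (a (c (l 16545896) (b (l 16560904) (l 16558736))) (c (b (l 16540128) (l 16537576)) (b (l 16554392) (l 16552224))))) (c (b (a (b (l 16538976) (l 16536248)) (b (l 16533048) (l 16530304))) (a (b (l 16533592) (l 16530992)) (b (l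 16527624) (l 16525000)))) (b (a (b (l 16553112) (l 16550760)) (b (l 16547896) (l 16545528))) (a (b (l 16548472) (l 16546256)) (b (l 16543224) (l 16540984))))))) (c (c (a (b (a (l 16514912) (l 16506864)) (a (l 16508576) (l 16500592))) (b (a (b (l 16500712) (l 16497544)) (c (l 16488424) (l 16495160))) (a (l 16492840) (b (l 16487000) (l 16483896))))) (a (b (a (l 16527328) (l 16519760)) (a (l 16521664) (l 16514168))) (b (a (l 16512584) (l 16505840)) (a (l 16506976) (l 16500232))))) (a (b (a (c (l 16540872) (l 16555568)) (c (l 16533816) (l 16549056))) (c (l 16516680) (l 16537672))) (b (c (a (l 16527232) (l 16521176)) (a (l 16543088) (l 16537744))) (c (a (l 16522368) (l 16516304)) (a (l 16539032) (l 16533688))))))), by decide +kernel⟩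

def k179_A00pm_102_s1 : ∃ t, chk3 f_A00pm_102_s1 t 31 41 1 = true :=
  ⟨(c (b (a (a (b (c (l 16531336) (l 16543728)) (l 16510216)) (b (b (l 16501464) (l 16498432)) (c (l 16508048) (l 16521944)))) (c (a (b (a (l 16502256) (l 16494344)) (l 16491952)) (b (a (l 16486672) (l 16479272)) (b (l 16478320) (l 16475232)))) (a (b (a (l 16516048) (l 16508632)) (l 16506736)) (b (a (l 16501512) (l 16494760)) (l 16492672))))) (c (b (a (a (l 16517992) (l 16501392)) (a (l 16485448) (l 16428488))) (a (b (l 16462144) (l 16416448)) (a (b (l 16480152) (l 16476552)) (b (l 16465296) (l 16461800))))) (b (a (a (l 16531968) (l 16516128)) (a (l 16501072) (l 16487184))) (a (b (l 16435336) (l 16516040)) (b (b (l 16448384) (l 16488720)) (l 16465496)))))) (c (b (a (a (l 16544256) (b (l 16542008) (l 16537120))) (a (b (l 16527600) (l 16522856)) (b (l 16493576) (l 16510000)))) (b (a (a (l 16547240) (l 16532224)) (a (l 16518120) (l 16505424))) (a (b (l 16535752) (l 16533192)) (b (l 16465960) (l 16463560))))) (b (a (a (l 16569920) (a (l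 16559096) (l 16552136))) (a (b (l 16544192) (l 16540328)) (b (l 16521912) (l 16528736)))) (b (a (l 16514680) (a (l 16536576) (l 16525144))) (a (b (l 16553696) (l 16551800)) (b (l 16527864) (l 16526112))))))), by decide +kernel⟩

def k180_A00pm_102_s1 : ∃ t, chk3 f_A00pm_102_s1 t 31 21 1 = true :=
  ⟨(a (b (c (b (l 16502016) (l 16493368)) (a (l 16541104) (l 16526952))) (c (b (l 16484984) (l 16476856)) (l 16435864))) (b (a (c (l 16390856) (l 16513808)) (c (b (l 16464896) (l 16456552)) (l 16502248))) (c (a (l 16374432) (l 16360688)) (b (l 16413872) (l 16491368))))), by decide +kernel⟩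

def k181_A00pm_102_s1 : ∃ t, chk3 f_A00pm_102_s1 t 15 11 1 = true :=
  ⟨(a (b (a (b (a (l 16467360) (l 16453064)) (a (l 16452216) (l 16438208))) (c (b (l 16497024) (l 16481768)) (a (l 16449944) (l 16436272)))) (a (b (l 16430432) (l 16415560)) (c (b (l 16467344) (l 16453136)) (l 16416688)))) (a (b (c (b (l 16381272) (l 16366408)) (b (l 16422448) (l 16409680))) (c (b (l 16436256) (l 16422984)) (a (l 16397784) (l 16385848)))) (b (c (b (a (l 16442904) (l 16345568)) (b (l 16425104) (l 16418152))) (b (l 16398288) (l 16386536))) (c (b (a (l 16414760) (l 16401904)) (a (l 16401856) (l 6))) (b (l 16375336) (l 16364568)))))), by decide +kernel⟩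

def k182_A00pm_102_s1 : ∃ t, chk3 f_A00pm_102_s1 t 3 3 1 = true :=
  ⟨(a (b (a (b (b (a (b (a (l 16587224) (l 16578768)) (l 10837611575)) (a (b (l 16571824) (l 16551440)) (c (l 16475328) (l 16552376)))) (a (c (l 16455128) (l 16531968)) (a (l 16522640) (a (l 16517176) (l 16429872))))) (a (l 2) (b (a (l 2) (l 16395008)) (l 2)))) (b (a (b (b (a (l 16562720) (l 16560240)) (a (l 16540136) (l 16536432))) (a (b (l 16518944) (l 16499320)) (l 16419896))) (b (a (b (l 16557216) (l 16533440)) (b (l 16552656) (l 16529096))) (b (a (l 16510120) (l 16505832)) (a (l 16488416) (l 16482984))))) (b (b (a (l 16393560) (l 16380968)) (l 6)) (l 6)))) (l 6)) (b (b (a (a (b (a (b (l 16545264) (l 16523176)) (b (l 16451240) (l 16514440))) (a (b (l 16500160) (l 16477408)) (b (l 16492936) (l 6)))) (a (b (b (l 16438496) (l 16503152)) (l 16347008)) (b (c (l 16483752) (l 16428208)) (l 6)))) (a (b (a (c (l 16375680) (l 16410456)) (c (b (l 16439024) (l 6)) (l 16389424))) (l 6)) (l 6))) (a (l 6) (l 6))) (l 6))), by decide +kernel⟩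

theorem t183_A00pm_102_s1 : ∃ t, chk3 f_A00pm_102_s1 t 31 40 1 = true := ex3_a k177_A00pm_102_s1 k178_A00pm_102_s1

theorem t184_A00pm_102_s1 : ∃ t, chk3 f_A00pm_102_s1 t 31 20 1 = true := ex3_b t183_A00pm_102_s1 k179_A00pm_102_s1

theorem t185_A00pm_102_s1 : ∃ t, chk3 f_A00pm_102_s1 t 31 10 1 = true := ex3_b t184_A00pm_102_s1 k180_A00pm_102_s1

theorem t186_A00pm_102_s1 : ∃ t, chk3 f_A00pm_102_s1 t 15 10 1 = true := ex3_a k176_A00pm_102_s1 t185_A00pm_102_s1

theorem t187_A00pm_102_s1 : ∃ t, chk3 f_A00pm_102_s1 t 15 5 1 = true := ex3_b t186_A00pm_102_s1 k181_A00pm_102_s1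

theorem t188_A00pm_102_s1 : ∃ t, chk3 f_A00pm_102_s1 t 14 41 1 = true := ex3_a k172_A00pm_102_s1 k173_A00pm_102_s1

theorem t189_A00pm_102_s1 : ∃ t, chk3 f_A00pm_102_s1 t 14 20 1 = true := ex3_b k171_A00pm_102_s1 t188_A00pm_102_s1

theorem t190_A00pm_102_s1 : ∃ t, chk3 f_A00pm_102_s1 t 14 10 1 = true := ex3_b t189_A00pm_102_s1 k174_A00pm_102_s1

theorem t191_A00pm_102_s1 : ∃ t, chk3 f_A00pm_102_s1 t 14 5 1 = true := ex3_b t190_A00pm_102_s1 k175_A00pm_102_s1

theorem t192_A00pm_102_s1 : ∃ t, chk3 f_A00pm_102_s1 t 7 5 1 = true := ex3_a t191_A00pm_102_s1 t187_A00pm_102_s1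

theorem t193_A00pm_102_s1 : ∃ t, chk3 f_A00pm_102_s1 t 13 21 1 = true := ex3_b k168_A00pm_102_s1 k169_A00pm_102_s1

theorem t194_A00pm_102_s1 : ∃ t, chk3 f_A00pm_102_s1 t 6 21 1 = true := ex3_a k167_A00pm_102_s1 t193_A00pm_102_s1

theorem t195_A00pm_102_s1 : ∃ t, chk3 f_A00pm_102_s1 t 27 670 1 = true := ex3_b k164_A00pm_102_s1 k165_A00pm_102_s1

theorem t196_A00pm_102_s1 : ∃ t, chk3 f_A00pm_102_s1 t 27 335 1 = true := ex3_b t195_A00pm_102_s1 k166_A00pm_102_s1

theorem t197_A00pm_102_s1 : ∃ t, chk3 f_A00pm_102_s1 t 27 167 1 = true := ex3_b k163_A00pm_102_s1 t196_A00pm_102_s1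

theorem t198_A00pm_102_s1 : ∃ t, chk3 f_A00pm_102_s1 t 26 335 1 = true := ex3_b k161_A00pm_102_s1 k162_A00pm_102_s1

theorem t199_A00pm_102_s1 : ∃ t, chk3 f_A00pm_102_s1 t 26 167 1 = true := ex3_b k160_A00pm_102_s1 t198_A00pm_102_s1

theorem t200_A00pm_102_s1 : ∃ t, chk3 f_A00pm_102_s1 t 13 167 1 = true := ex3_a t199_A00pm_102_s1 t197_A00pm_102_s1

theorem t201_A00pm_102_s1 : ∃ t, chk3 f_A00pm_102_s1 t 25 167 1 = true := ex3_b k158_A00pm_102_s1 k159_A00pm_102_s1

theorem t202_A00pm_102_s1 : ∃ t, chk3 f_A00pm_102_s1 t 12 167 1 = true := ex3_a k157_A00pm_102_s1 t201_A00pm_102_s1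

theorem t203_A00pm_102_s1 : ∃ t, chk3 f_A00pm_102_s1 t 6 167 1 = true := ex3_a t202_A00pm_102_s1 t200_A00pm_102_s1

theorem t204_A00pm_102_s1 : ∃ t, chk3 f_A00pm_102_s1 t 25 166 1 = true := ex3_c k154_A00pm_102_s1 k155_A00pm_102_s1

theorem t205_A00pm_102_s1 : ∃ t, chk3 f_A00pm_102_s1 t 12 166 1 = true := ex3_a k153_A00pm_102_s1 t204_A00pm_102_s1

theorem t206_A00pm_102_s1 : ∃ t, chk3 f_A00pm_102_s1 t 6 166 1 = true := ex3_a t205_A00pm_102_s1 k156_A00pm_102_s1

theorem t207_A00pm_102_s1 : ∃ t, chk3 f_A00pm_102_s1 t 6 83 1 = true := ex3_b t206_A00pm_102_s1 t203_A00pm_102_s1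

theorem t208_A00pm_102_s1 : ∃ t, chk3 f_A00pm_102_s1 t 13 82 1 = true := ex3_a k151_A00pm_102_s1 k152_A00pm_102_s1

theorem t209_A00pm_102_s1 : ∃ t, chk3 f_A00pm_102_s1 t 6 82 1 = true := ex3_a k150_A00pm_102_s1 t208_A00pm_102_s1

theorem t210_A00pm_102_s1 : ∃ t, chk3 f_A00pm_102_s1 t 6 41 1 = true := ex3_b t209_A00pm_102_s1 t207_A00pm_102_s1

theorem t211_A00pm_102_s1 : ∃ t, chk3 f_A00pm_102_s1 t 6 81 1 = true := ex3_a k148_A00pm_102_s1 k149_A00pm_102_s1

theorem t212_A00pm_102_s1 : ∃ t, chk3 f_A00pm_102_s1 t 6 80 1 = true := ex3_a k146_A00pm_102_s1 k147_A00pm_102_s1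

theorem t213_A00pm_102_s1 : ∃ t, chk3 f_A00pm_102_s1 t 6 40 1 = true := ex3_b t212_A00pm_102_s1 t211_A00pm_102_s1

theorem t214_A00pm_102_s1 : ∃ t, chk3 f_A00pm_102_s1 t 6 20 1 = true := ex3_b t213_A00pm_102_s1 t210_A00pm_102_s1

theorem t215_A00pm_102_s1 : ∃ t, chk3 f_A00pm_102_s1 t 6 10 1 = true := ex3_b t214_A00pm_102_s1 t194_A00pm_102_s1

theorem t216_A00pm_102_s1 : ∃ t, chk3 f_A00pm_102_s1 t 6 5 1 = true := ex3_b t215_A00pm_102_s1 k170_A00pm_102_s1

theorem t217_A00pm_102_s1 : ∃ t, chk3 f_A00pm_102_s1 t 3 5 1 = true := ex3_a t216_A00pm_102_s1 t192_A00pm_102_s1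

theorem t218_A00pm_102_s1 : ∃ t, chk3 f_A00pm_102_s1 t 63 39 1 = true := ex3_c k144_A00pm_102_s1 k145_A00pm_102_s1

theorem t219_A00pm_102_s1 : ∃ t, chk3 f_A00pm_102_s1 t 63 38 1 = true := ex3_c k142_A00pm_102_s1 k143_A00pm_102_s1

theorem t220_A00pm_102_s1 : ∃ t, chk3 f_A00pm_102_s1 t 63 19 1 = true := ex3_b t219_A00pm_102_s1 t218_A00pm_102_s1

theorem t221_A00pm_102_s1 : ∃ t, chk3 f_A00pm_102_s1 t 62 39 1 = true := ex3_c k140_A00pm_102_s1 k141_A00pm_102_s1

theorem t222_A00pm_102_s1 : ∃ t, chk3 f_A00pm_102_s1 t 62 38 3 = true := ex3_b k138_A00pm_102_s1 k139_A00pm_102_s1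

theorem t223_A00pm_102_s1 : ∃ t, chk3 f_A00pm_102_s1 t 62 38 1 = true := ex3_c k137_A00pm_102_s1 t222_A00pm_102_s1

theorem t224_A00pm_102_s1 : ∃ t, chk3 f_A00pm_102_s1 t 62 19 1 = true := ex3_b t223_A00pm_102_s1 t221_A00pm_102_s1

theorem t225_A00pm_102_s1 : ∃ t, chk3 f_A00pm_102_s1 t 31 19 1 = true := ex3_a t224_A00pm_102_s1 t220_A00pm_102_s1

theorem t226_A00pm_102_s1 : ∃ t, chk3 f_A00pm_102_s1 t 61 38 1 = true := ex3_c k134_A00pm_102_s1 k135_A00pm_102_s1

theorem t227_A00pm_102_s1 : ∃ t, chk3 f_A00pm_102_s1 t 61 19 1 = true := ex3_b t226_A00pm_102_s1 k136_A00pm_102_s1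

theorem t228_A00pm_102_s1 : ∃ t, chk3 f_A00pm_102_s1 t 30 19 1 = true := ex3_a k133_A00pm_102_s1 t227_A00pm_102_s1

theorem t229_A00pm_102_s1 : ∃ t, chk3 f_A00pm_102_s1 t 15 19 1 = true := ex3_a t228_A00pm_102_s1 t225_A00pm_102_s1

theorem t230_A00pm_102_s1 : ∃ t, chk3 f_A00pm_102_s1 t 63 37 1 = true := ex3_a k131_A00pm_102_s1 k132_A00pm_102_s1

theorem t231_A00pm_102_s1 : ∃ t, chk3 f_A00pm_102_s1 t 124 37 3 = true := ex3_b k128_A00pm_102_s1 k129_A00pm_102_s1

theorem t232_A00pm_102_s1 : ∃ t, chk3 f_A00pm_102_s1 t 62 37 3 = true := ex3_a t231_A00pm_102_s1 k130_A00pm_102_s1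

theorem t233_A00pm_102_s1 : ∃ t, chk3 f_A00pm_102_s1 t 62 37 2 = true := ex3_b k126_A00pm_102_s1 k127_A00pm_102_s1

theorem t234_A00pm_102_s1 : ∃ t, chk3 f_A00pm_102_s1 t 62 37 1 = true := ex3_c t233_A00pm_102_s1 t232_A00pm_102_s1

theorem t235_A00pm_102_s1 : ∃ t, chk3 f_A00pm_102_s1 t 31 37 1 = true := ex3_a t234_A00pm_102_s1 t230_A00pm_102_s1

theorem t236_A00pm_102_s1 : ∃ t, chk3 f_A00pm_102_s1 t 62 73 1 = true := ex3_a k123_A00pm_102_s1 k124_A00pm_102_s1

theorem t237_A00pm_102_s1 : ∃ t, chk3 f_A00pm_102_s1 t 62 36 1 = true := ex3_b k122_A00pm_102_s1 t236_A00pm_102_s1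

theorem t238_A00pm_102_s1 : ∃ t, chk3 f_A00pm_102_s1 t 31 36 1 = true := ex3_a t237_A00pm_102_s1 k125_A00pm_102_s1

theorem t239_A00pm_102_s1 : ∃ t, chk3 f_A00pm_102_s1 t 31 18 1 = true := ex3_b t238_A00pm_102_s1 t235_A00pm_102_s1

theorem t240_A00pm_102_s1 : ∃ t, chk3 f_A00pm_102_s1 t 123 37 3 = true := ex3_b k120_A00pm_102_s1 k121_A00pm_102_s1

theorem t241_A00pm_102_s1 : ∃ t, chk3 f_A00pm_102_s1 t 123 37 1 = true := ex3_c k119_A00pm_102_s1 t240_A00pm_102_s1

theorem t242_A00pm_102_s1 : ∃ t, chk3 f_A00pm_102_s1 t 122 37 1 = true := ex3_b k117_A00pm_102_s1 k118_A00pm_102_s1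

theorem t243_A00pm_102_s1 : ∃ t, chk3 f_A00pm_102_s1 t 61 37 1 = true := ex3_a t242_A00pm_102_s1 t241_A00pm_102_s1

theorem t244_A00pm_102_s1 : ∃ t, chk3 f_A00pm_102_s1 t 121 37 1 = true := ex3_b k115_A00pm_102_s1 k116_A00pm_102_s1

theorem t245_A00pm_102_s1 : ∃ t, chk3 f_A00pm_102_s1 t 120 74 1 = true := ex3_c k112_A00pm_102_s1 k113_A00pm_102_s1

theorem t246_A00pm_102_s1 : ∃ t, chk3 f_A00pm_102_s1 t 120 37 1 = true := ex3_b t245_A00pm_102_s1 k114_A00pm_102_s1

theorem t247_A00pm_102_s1 : ∃ t, chk3 f_A00pm_102_s1 t 60 37 1 = true := ex3_a t246_A00pm_102_s1 t244_A00pm_102_s1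

theorem t248_A00pm_102_s1 : ∃ t, chk3 f_A00pm_102_s1 t 30 37 1 = true := ex3_a t247_A00pm_102_s1 t243_A00pm_102_s1

theorem t249_A00pm_102_s1 : ∃ t, chk3 f_A00pm_102_s1 t 61 73 1 = true := ex3_c k110_A00pm_102_s1 k111_A00pm_102_s1

theorem t250_A00pm_102_s1 : ∃ t, chk3 f_A00pm_102_s1 t 61 72 1 = true := ex3_a k108_A00pm_102_s1 k109_A00pm_102_s1

theorem t251_A00pm_102_s1 : ∃ t, chk3 f_A00pm_102_s1 t 61 36 1 = true := ex3_b t250_A00pm_102_s1 t249_A00pm_102_s1

theorem t252_A00pm_102_s1 : ∃ t, chk3 f_A00pm_102_s1 t 121 73 1 = true := ex3_b k106_A00pm_102_s1 k107_A00pm_102_s1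

theorem t253_A00pm_102_s1 : ∃ t, chk3 f_A00pm_102_s1 t 120 73 1 = true := ex3_b k104_A00pm_102_s1 k105_A00pm_102_s1

theorem t254_A00pm_102_s1 : ∃ t, chk3 f_A00pm_102_s1 t 60 73 1 = true := ex3_a t253_A00pm_102_s1 t252_A00pm_102_s1

theorem t255_A00pm_102_s1 : ∃ t, chk3 f_A00pm_102_s1 t 60 72 1 = true := ex3_b k102_A00pm_102_s1 k103_A00pm_102_s1

theorem t256_A00pm_102_s1 : ∃ t, chk3 f_A00pm_102_s1 t 60 36 1 = true := ex3_b t255_A00pm_102_s1 t254_A00pm_102_s1

theorem t257_A00pm_102_s1 : ∃ t, chk3 f_A00pm_102_s1 t 30 36 1 = true := ex3_a t256_A00pm_102_s1 t251_A00pm_102_s1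

theorem t258_A00pm_102_s1 : ∃ t, chk3 f_A00pm_102_s1 t 30 18 1 = true := ex3_b t257_A00pm_102_s1 t248_A00pm_102_s1

theorem t259_A00pm_102_s1 : ∃ t, chk3 f_A00pm_102_s1 t 15 18 1 = true := ex3_a t258_A00pm_102_s1 t239_A00pm_102_s1

theorem t260_A00pm_102_s1 : ∃ t, chk3 f_A00pm_102_s1 t 15 9 1 = true := ex3_b t259_A00pm_102_s1 t229_A00pm_102_s1

theorem t261_A00pm_102_s1 : ∃ t, chk3 f_A00pm_102_s1 t 29 38 1 = true := ex3_a k99_A00pm_102_s1 k100_A00pm_102_s1

theorem t262_A00pm_102_s1 : ∃ t, chk3 f_A00pm_102_s1 t 29 19 1 = true := ex3_b t261_A00pm_102_s1 k101_A00pm_102_s1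

theorem t263_A00pm_102_s1 : ∃ t, chk3 f_A00pm_102_s1 t 28 19 1 = true := ex3_b k97_A00pm_102_s1 k98_A00pm_102_s1

theorem t264_A00pm_102_s1 : ∃ t, chk3 f_A00pm_102_s1 t 14 19 1 = true := ex3_a t263_A00pm_102_s1 t262_A00pm_102_s1

theorem t265_A00pm_102_s1 : ∃ t, chk3 f_A00pm_102_s1 t 59 75 1 = true := ex3_a k95_A00pm_102_s1 k96_A00pm_102_s1

theorem t266_A00pm_102_s1 : ∃ t, chk3 f_A00pm_102_s1 t 29 75 1 = true := ex3_a k94_A00pm_102_s1 t265_A00pm_102_s1

theorem t267_A00pm_102_s1 : ∃ t, chk3 f_A00pm_102_s1 t 59 74 1 = true := ex3_a k92_A00pm_102_s1 k93_A00pm_102_s1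

theorem t268_A00pm_102_s1 : ∃ t, chk3 f_A00pm_102_s1 t 29 74 1 = true := ex3_a k91_A00pm_102_s1 t267_A00pm_102_s1

theorem t269_A00pm_102_s1 : ∃ t, chk3 f_A00pm_102_s1 t 29 37 1 = true := ex3_b t268_A00pm_102_s1 t266_A00pm_102_s1

theorem t270_A00pm_102_s1 : ∃ t, chk3 f_A00pm_102_s1 t 59 36 1 = true := ex3_b k89_A00pm_102_s1 k90_A00pm_102_s1

theorem t271_A00pm_102_s1 : ∃ t, chk3 f_A00pm_102_s1 t 29 36 1 = true := ex3_a k88_A00pm_102_s1 t270_A00pm_102_s1

theorem t272_A00pm_102_s1 : ∃ t, chk3 f_A00pm_102_s1 t 29 18 1 = true := ex3_b t271_A00pm_102_s1 t269_A00pm_102_s1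

theorem t273_A00pm_102_s1 : ∃ t, chk3 f_A00pm_102_s1 t 14 18 1 = true := ex3_a k87_A00pm_102_s1 t272_A00pm_102_s1

theorem t274_A00pm_102_s1 : ∃ t, chk3 f_A00pm_102_s1 t 14 9 1 = true := ex3_b t273_A00pm_102_s1 t264_A00pm_102_s1

theorem t275_A00pm_102_s1 : ∃ t, chk3 f_A00pm_102_s1 t 7 9 1 = true := ex3_a t274_A00pm_102_s1 t260_A00pm_102_s1

theorem t276_A00pm_102_s1 : ∃ t, chk3 f_A00pm_102_s1 t 62 70 2 = true := ex3_a k82_A00pm_102_s1 k83_A00pm_102_s1

theorem t277_A00pm_102_s1 : ∃ t, chk3 f_A00pm_102_s1 t 62 70 1 = true := ex3_c t276_A00pm_102_s1 k84_A00pm_102_s1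

theorem t278_A00pm_102_s1 : ∃ t, chk3 f_A00pm_102_s1 t 62 35 1 = true := ex3_b t277_A00pm_102_s1 k85_A00pm_102_s1

theorem t279_A00pm_102_s1 : ∃ t, chk3 f_A00pm_102_s1 t 248 139 1 = true := ex3_b k78_A00pm_102_s1 k79_A00pm_102_s1

theorem t280_A00pm_102_s1 : ∃ t, chk3 f_A00pm_102_s1 t 124 139 1 = true := ex3_a t279_A00pm_102_s1 k80_A00pm_102_s1

theorem t281_A00pm_102_s1 : ∃ t, chk3 f_A00pm_102_s1 t 249 138 1 = true := ex3_b k76_A00pm_102_s1 k77_A00pm_102_s1

theorem t282_A00pm_102_s1 : ∃ t, chk3 f_A00pm_102_s1 t 248 138 1 = true := ex3_b k74_A00pm_102_s1 k75_A00pm_102_s1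

theorem t283_A00pm_102_s1 : ∃ t, chk3 f_A00pm_102_s1 t 124 138 1 = true := ex3_a t282_A00pm_102_s1 t281_A00pm_102_s1

theorem t284_A00pm_102_s1 : ∃ t, chk3 f_A00pm_102_s1 t 124 69 1 = true := ex3_b t283_A00pm_102_s1 t280_A00pm_102_s1

theorem t285_A00pm_102_s1 : ∃ t, chk3 f_A00pm_102_s1 t 62 69 1 = true := ex3_a t284_A00pm_102_s1 k81_A00pm_102_s1

theorem t286_A00pm_102_s1 : ∃ t, chk3 f_A00pm_102_s1 t 124 137 1 = true := ex3_b k71_A00pm_102_s1 k72_A00pm_102_s1

theorem t287_A00pm_102_s1 : ∃ t, chk3 f_A00pm_102_s1 t 124 68 1 = true := ex3_b k70_A00pm_102_s1 t286_A00pm_102_s1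

theorem t288_A00pm_102_s1 : ∃ t, chk3 f_A00pm_102_s1 t 62 68 1 = true := ex3_a t287_A00pm_102_s1 k73_A00pm_102_s1

theorem t289_A00pm_102_s1 : ∃ t, chk3 f_A00pm_102_s1 t 62 34 1 = true := ex3_b t288_A00pm_102_s1 t285_A00pm_102_s1

theorem t290_A00pm_102_s1 : ∃ t, chk3 f_A00pm_102_s1 t 62 17 1 = true := ex3_b t289_A00pm_102_s1 t278_A00pm_102_s1

theorem t291_A00pm_102_s1 : ∃ t, chk3 f_A00pm_102_s1 t 31 17 1 = true := ex3_a t290_A00pm_102_s1 k86_A00pm_102_s1

theorem t292_A00pm_102_s1 : ∃ t, chk3 f_A00pm_102_s1 t 61 71 1 = true := ex3_a k68_A00pm_102_s1 k69_A00pm_102_s1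

theorem t293_A00pm_102_s1 : ∃ t, chk3 f_A00pm_102_s1 t 123 141 1 = true := ex3_a k66_A00pm_102_s1 k67_A00pm_102_s1

theorem t294_A00pm_102_s1 : ∃ t, chk3 f_A00pm_102_s1 t 61 141 1 = true := ex3_a k65_A00pm_102_s1 t293_A00pm_102_s1

theorem t295_A00pm_102_s1 : ∃ t, chk3 f_A00pm_102_s1 t 247 140 1 = true := ex3_a k63_A00pm_102_s1 k64_A00pm_102_s1

theorem t296_A00pm_102_s1 : ∃ t, chk3 f_A00pm_102_s1 t 123 140 1 = true := ex3_a k62_A00pm_102_s1 t295_A00pm_102_s1

theorem t297_A00pm_102_s1 : ∃ t, chk3 f_A00pm_102_s1 t 61 140 1 = true := ex3_a k61_A00pm_102_s1 t296_A00pm_102_s1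

theorem t298_A00pm_102_s1 : ∃ t, chk3 f_A00pm_102_s1 t 61 70 1 = true := ex3_b t297_A00pm_102_s1 t294_A00pm_102_s1

theorem t299_A00pm_102_s1 : ∃ t, chk3 f_A00pm_102_s1 t 61 35 1 = true := ex3_b t298_A00pm_102_s1 t292_A00pm_102_s1

theorem t300_A00pm_102_s1 : ∃ t, chk3 f_A00pm_102_s1 t 60 70 1 = true := ex3_a k58_A00pm_102_s1 k59_A00pm_102_s1

theorem t301_A00pm_102_s1 : ∃ t, chk3 f_A00pm_102_s1 t 60 35 1 = true := ex3_b t300_A00pm_102_s1 k60_A00pm_102_s1

theorem t302_A00pm_102_s1 : ∃ t, chk3 f_A00pm_102_s1 t 30 35 1 = true := ex3_a t301_A00pm_102_s1 t299_A00pm_102_s1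

theorem t303_A00pm_102_s1 : ∃ t, chk3 f_A00pm_102_s1 t 123 138 3 = true := ex3_a k55_A00pm_102_s1 k56_A00pm_102_s1

theorem t304_A00pm_102_s1 : ∃ t, chk3 f_A00pm_102_s1 t 123 69 3 = true := ex3_b t303_A00pm_102_s1 k57_A00pm_102_s1

theorem t305_A00pm_102_s1 : ∃ t, chk3 f_A00pm_102_s1 t 123 279 19 = true := ex3_b k52_A00pm_102_s1 k53_A00pm_102_s1

theorem t306_A00pm_102_s1 : ∃ t, chk3 f_A00pm_102_s1 t 123 139 19 = true := ex3_b k51_A00pm_102_s1 t305_A00pm_102_s1

theorem t307_A00pm_102_s1 : ∃ t, chk3 f_A00pm_102_s1 t 123 1119 18 = true := ex3_b k49_A00pm_102_s1 k50_A00pm_102_s1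

theorem t308_A00pm_102_s1 : ∃ t, chk3 f_A00pm_102_s1 t 123 559 18 = true := ex3_b k48_A00pm_102_s1 t307_A00pm_102_s1

theorem t309_A00pm_102_s1 : ∃ t, chk3 f_A00pm_102_s1 t 123 279 18 = true := ex3_b k47_A00pm_102_s1 t308_A00pm_102_s1

theorem t310_A00pm_102_s1 : ∃ t, chk3 f_A00pm_102_s1 t 123 139 18 = true := ex3_b k46_A00pm_102_s1 t309_A00pm_102_s1

theorem t311_A00pm_102_s1 : ∃ t, chk3 f_A00pm_102_s1 t 123 139 9 = true := ex3_c t310_A00pm_102_s1 t306_A00pm_102_s1

theorem t312_A00pm_102_s1 : ∃ t, chk3 f_A00pm_102_s1 t 123 4479 17 = true := ex3_c k44_A00pm_102_s1 k45_A00pm_102_s1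

theorem t313_A00pm_102_s1 : ∃ t, chk3 f_A00pm_102_s1 t 123 2239 17 = true := ex3_b k43_A00pm_102_s1 t312_A00pm_102_s1

theorem t314_A00pm_102_s1 : ∃ t, chk3 f_A00pm_102_s1 t 123 1119 17 = true := ex3_b k42_A00pm_102_s1 t313_A00pm_102_s1

theorem t315_A00pm_102_s1 : ∃ t, chk3 f_A00pm_102_s1 t 123 559 17 = true := ex3_b k41_A00pm_102_s1 t314_A00pm_102_s1

theorem t316_A00pm_102_s1 : ∃ t, chk3 f_A00pm_102_s1 t 123 279 17 = true := ex3_b k40_A00pm_102_s1 t315_A00pm_102_s1

theorem t317_A00pm_102_s1 : ∃ t, chk3 f_A00pm_102_s1 t 123 139 17 = true := ex3_b k39_A00pm_102_s1 t316_A00pm_102_s1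

theorem t318_A00pm_102_s1 : ∃ t, chk3 f_A00pm_102_s1 t 123 4479 16 = true := ex3_c k37_A00pm_102_s1 k38_A00pm_102_s1

theorem t319_A00pm_102_s1 : ∃ t, chk3 f_A00pm_102_s1 t 123 2239 16 = true := ex3_b k36_A00pm_102_s1 t318_A00pm_102_s1

theorem t320_A00pm_102_s1 : ∃ t, chk3 f_A00pm_102_s1 t 123 1119 16 = true := ex3_b k35_A00pm_102_s1 t319_A00pm_102_s1

theorem t321_A00pm_102_s1 : ∃ t, chk3 f_A00pm_102_s1 t 123 559 16 = true := ex3_b k34_A00pm_102_s1 t320_A00pm_102_s1

theorem t322_A00pm_102_s1 : ∃ t, chk3 f_A00pm_102_s1 t 123 279 16 = true := ex3_b k33_A00pm_102_s1 t321_A00pm_102_s1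

theorem t323_A00pm_102_s1 : ∃ t, chk3 f_A00pm_102_s1 t 123 139 16 = true := ex3_b k32_A00pm_102_s1 t322_A00pm_102_s1

theorem t324_A00pm_102_s1 : ∃ t, chk3 f_A00pm_102_s1 t 123 139 8 = true := ex3_c t323_A00pm_102_s1 t317_A00pm_102_s1

theorem t325_A00pm_102_s1 : ∃ t, chk3 f_A00pm_102_s1 t 123 139 4 = true := ex3_c t324_A00pm_102_s1 t311_A00pm_102_s1

theorem t326_A00pm_102_s1 : ∃ t, chk3 f_A00pm_102_s1 t 123 139 2 = true := ex3_c t325_A00pm_102_s1 k54_A00pm_102_s1

theorem t327_A00pm_102_s1 : ∃ t, chk3 f_A00pm_102_s1 t 123 138 2 = true := ex3_a k30_A00pm_102_s1 k31_A00pm_102_s1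

theorem t328_A00pm_102_s1 : ∃ t, chk3 f_A00pm_102_s1 t 123 69 2 = true := ex3_b t327_A00pm_102_s1 t326_A00pm_102_s1

theorem t329_A00pm_102_s1 : ∃ t, chk3 f_A00pm_102_s1 t 123 69 1 = true := ex3_c t328_A00pm_102_s1 t304_A00pm_102_s1

theorem t330_A00pm_102_s1 : ∃ t, chk3 f_A00pm_102_s1 t 246 137 1 = true := ex3_c k27_A00pm_102_s1 k28_A00pm_102_s1

theorem t331_A00pm_102_s1 : ∃ t, chk3 f_A00pm_102_s1 t 123 137 1 = true := ex3_a t330_A00pm_102_s1 k29_A00pm_102_s1

theorem t332_A00pm_102_s1 : ∃ t, chk3 f_A00pm_102_s1 t 123 68 1 = true := ex3_b k26_A00pm_102_s1 t331_A00pm_102_s1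

theorem t333_A00pm_102_s1 : ∃ t, chk3 f_A00pm_102_s1 t 123 34 1 = true := ex3_b t332_A00pm_102_s1 t329_A00pm_102_s1

theorem t334_A00pm_102_s1 : ∃ t, chk3 f_A00pm_102_s1 t 245 69 1 = true := ex3_b k24_A00pm_102_s1 k25_A00pm_102_s1

theorem t335_A00pm_102_s1 : ∃ t, chk3 f_A00pm_102_s1 t 122 69 1 = true := ex3_a k23_A00pm_102_s1 t334_A00pm_102_s1

theorem t336_A00pm_102_s1 : ∃ t, chk3 f_A00pm_102_s1 t 122 137 1 = true := ex3_c k21_A00pm_102_s1 k22_A00pm_102_s1

theorem t337_A00pm_102_s1 : ∃ t, chk3 f_A00pm_102_s1 t 122 68 1 = true := ex3_b k20_A00pm_102_s1 t336_A00pm_102_s1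

theorem t338_A00pm_102_s1 : ∃ t, chk3 f_A00pm_102_s1 t 122 34 1 = true := ex3_b t337_A00pm_102_s1 t335_A00pm_102_s1

theorem t339_A00pm_102_s1 : ∃ t, chk3 f_A00pm_102_s1 t 61 34 1 = true := ex3_a t338_A00pm_102_s1 t333_A00pm_102_s1

theorem t340_A00pm_102_s1 : ∃ t, chk3 f_A00pm_102_s1 t 30 34 1 = true := ex3_a k19_A00pm_102_s1 t339_A00pm_102_s1

theorem t341_A00pm_102_s1 : ∃ t, chk3 f_A00pm_102_s1 t 30 17 1 = true := ex3_b t340_A00pm_102_s1 t302_A00pm_102_s1

theorem t342_A00pm_102_s1 : ∃ t, chk3 f_A00pm_102_s1 t 15 17 1 = true := ex3_a t341_A00pm_102_s1 t291_A00pm_102_s1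

theorem t343_A00pm_102_s1 : ∃ t, chk3 f_A00pm_102_s1 t 15 8 1 = true := ex3_b k18_A00pm_102_s1 t342_A00pm_102_s1

theorem t344_A00pm_102_s1 : ∃ t, chk3 f_A00pm_102_s1 t 7 8 1 = true := ex3_a k17_A00pm_102_s1 t343_A00pm_102_s1

theorem t345_A00pm_102_s1 : ∃ t, chk3 f_A00pm_102_s1 t 7 4 1 = true := ex3_b t344_A00pm_102_s1 t275_A00pm_102_s1

theorem t346_A00pm_102_s1 : ∃ t, chk3 f_A00pm_102_s1 t 13 4 2 = true := ex3_c k14_A00pm_102_s1 k15_A00pm_102_s1

theorem t347_A00pm_102_s1 : ∃ t, chk3 f_A00pm_102_s1 t 13 4 1 = true := ex3_c t346_A00pm_102_s1 k16_A00pm_102_s1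

theorem t348_A00pm_102_s1 : ∃ t, chk3 f_A00pm_102_s1 t 12 4 1 = true := ex3_c k12_A00pm_102_s1 k13_A00pm_102_s1

theorem t349_A00pm_102_s1 : ∃ t, chk3 f_A00pm_102_s1 t 6 4 1 = true := ex3_a t348_A00pm_102_s1 t347_A00pm_102_s1

theorem t350_A00pm_102_s1 : ∃ t, chk3 f_A00pm_102_s1 t 3 4 1 = true := ex3_a t349_A00pm_102_s1 t345_A00pm_102_s1

theorem t351_A00pm_102_s1 : ∃ t, chk3 f_A00pm_102_s1 t 3 2 1 = true := ex3_b t350_A00pm_102_s1 t217_A00pm_102_s1

theorem t352_A00pm_102_s1 : ∃ t, chk3 f_A00pm_102_s1 t 3 1 1 = true := ex3_b t351_A00pm_102_s1 k182_A00pm_102_s1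

theorem t353_A00pm_102_s1 : ∃ t, chk3 f_A00pm_102_s1 t 5 21 1 = true := ex3_a k8_A00pm_102_s1 k9_A00pm_102_s1

theorem t354_A00pm_102_s1 : ∃ t, chk3 f_A00pm_102_s1 t 11 83 1 = true := ex3_a k6_A00pm_102_s1 k7_A00pm_102_s1

theorem t355_A00pm_102_s1 : ∃ t, chk3 f_A00pm_102_s1 t 11 41 1 = true := ex3_b k5_A00pm_102_s1 t354_A00pm_102_s1

theorem t356_A00pm_102_s1 : ∃ t, chk3 f_A00pm_102_s1 t 11 20 1 = true := ex3_b k4_A00pm_102_s1 t355_A00pm_102_s1

theorem t357_A00pm_102_s1 : ∃ t, chk3 f_A00pm_102_s1 t 10 20 1 = true := ex3_c k2_A00pm_102_s1 k3_A00pm_102_s1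

theorem t358_A00pm_102_s1 : ∃ t, chk3 f_A00pm_102_s1 t 5 20 1 = true := ex3_a t357_A00pm_102_s1 t356_A00pm_102_s1

theorem t359_A00pm_102_s1 : ∃ t, chk3 f_A00pm_102_s1 t 5 10 1 = true := ex3_b t358_A00pm_102_s1 t353_A00pm_102_s1

theorem t360_A00pm_102_s1 : ∃ t, chk3 f_A00pm_102_s1 t 5 5 1 = true := ex3_b t359_A00pm_102_s1 k10_A00pm_102_s1

theorem t361_A00pm_102_s1 : ∃ t, chk3 f_A00pm_102_s1 t 2 5 1 = true := ex3_a k1_A00pm_102_s1 t360_A00pm_102_s1

theorem t362_A00pm_102_s1 : ∃ t, chk3 f_A00pm_102_s1 t 2 2 1 = true := ex3_b k0_A00pm_102_s1 t361_A00pm_102_s1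

theorem t363_A00pm_102_s1 : ∃ t, chk3 f_A00pm_102_s1 t 2 1 1 = true := ex3_b t362_A00pm_102_s1 k11_A00pm_102_s1

theorem t364_A00pm_102_s1 : ∃ t, chk3 f_A00pm_102_s1 t 1 1 1 = true := ex3_a t363_A00pm_102_s1 t352_A00pm_102_s1

theorem c_A00pm_102_s1 : CertF 536870912 536870912 0 536870912 923417968 42949674 true true false .npp 1 0 2
    ndB0q1 ndB0q0 pcB2 cut_A00pm_102_s1 xt_A00pm_102_s1 :=
  certF1 (fam := true) (s1 := true) (s2 := false) (a := 1) (b := 0) (c := 2) (cn := .npp) (n1 := ndB0q1) (n2 := ndB0q0) (pc := pcB2) (cut := cut_A00pm_102_s1) (xt := xt_A00pm_102_s1) (P1 := 536870912) (W1 := 536870912) (P2 := 0) (W2 := 536870912) (P3 := 923417968) (W3 := 42949674)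
    rfl (fun _ => rfl) t364_A00pm_102_s1

theorem s_A00pm_102_s1 {κ x : ℝ} (hκ : κ * h0 = ken x) (hx : ((923417968 : ℕ) : ℝ) / S ≤ x)
    (hx' : x ≤ (((923417968 : ℕ) : ℝ) + (42949674 : ℕ)) / S)
    (H : CutA (VFD κ) PP tK tL pcB (Cut.of [[⟨0, 1, 0, 67108864⟩, ⟨1, 0, 0, 67108864⟩, ⟨2, 1, 0, 67108864⟩]]) 1 0 2 0 0 (sgb true) (sgb false) x) :
    AltA (VFD κ) PP tK tL pcB [⟨3, 0, 0, 1449551462⟩] 1 0 2 0 0 (sgb true) (sgb false) x :=
  strip_altAD (m := 1449551462) true rfl hκ (SH.κ0 hκ (SH.hx1 hx).le (SH.hx2 hx').le) (SH.hx1 hx).le (SH.hx2 hx') (covB01).cov (covB00).cov hx hx' c_A00pm_102_s1 H ((okx hx hx').extA (T := tt) (sideB hx hx') hκ rfl rfl (.O 1 true) (.O 0 false) rfl)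

end Pool.Agent.Strip051.G.I8600_9000.Tab.St.C
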