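import Pool.Agent.Strip051.G.I8600_9000.StH
import Pool.Agent.Strip051.G.I8600_9000.StF

/-! # Unit strips 7 (generated) -/

set_option linter.all false
set_option maxRecDepth 100000

namespace Pool.Agent.Strip051.G.I8600_9000.Tab.St.C

open Pool.Agent.Strip051.PB Pool.Agent.Strip051.PB.T Pool.Agent.StripNear Pool.Agent.Strip051.LC
open Pool.Agent.Strip051.G.I8600_9000.Tab Pool.Agent.Strip051.G.I8600_9000.Tab.St

noncomputable def cut_A00pm_113_s3 : Cut := Cut.of [[⟨3, 0, 0, 2845415833⟩], [⟨0, 1, 0, 67108864⟩, ⟨1, 1, 0, 67108864⟩, ⟨2, 2, 0, 16252928⟩], [⟨0, 0, 1, 20971520⟩, ⟨1, 1, 0, 8388608⟩, ⟨2, 1, 1, 20971520⟩], [⟨0, 1, 0, 8388608⟩, ⟨1, 0, 1, 20971520⟩, ⟨2, 1, 1, 20971520⟩]]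

noncomputable def f_A00pm_113_s3 : ℕ → ℕ → ℕ → ℕ → Bool := onCell 536870912 536870912 536870912 536870912 923417968 42949674
    (rowF 0 true true false .nn 1 1 3 (qsf 536870912 536870912 536870912 536870912 3) ndB0q1 ndB0q1 pcB3 cut_A00pm_113_s3 Ext.none)

def k0_A00pm_113_s3 : ∃ t, chk3 f_A00pm_113_s3 t 2 1 1 = true :=
  ⟨(l 6), by decide +kernel⟩

def k1_A00pm_113_s3 : ∃ t, chk3 f_A00pm_113_s3 t 3 2 1 = true :=
  ⟨(l 6), by decide +kernel⟩

def k2_A00pm_113_s3 : ∃ t, chk3 f_A00pm_113_s3 t 6 3 1 = true :=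
  ⟨(b (l 6) (b (l 6) (a (l 6) (b (l 6) (a (l 6) (b (l 6) (a (l 6) (a (l 6) (b (l 6) (b (l 6) (c (l 22) (c (b (a (l 6) (c (l 22) (l 16444088))) (c (a (b (l 6) (l 22)) (l 22)) (a (l 16496672) (a (l 16442944) (l 22))))) (a (c (l 16350928) (l 16293168)) (b (l 16354840) (c (l 16393008) (l 16332608)))))))))))))))), by decide +kernel⟩

def k3_A00pm_113_s3 : ∃ t, chk3 f_A00pm_113_s3 t 7 6 1 = true :=
  ⟨(a (l 6) (b (l 6) (a (l 6) (b (l 6) (a (l 6) (b (l 6) (b (l 6) (a (l 6) (a (l 6) (c (l 30) (c (a (b (l 6) (c (l 30) (l 16444088))) (c (b (a (l 6) (l 30)) (l 30)) (b (l 16496672) (b (l 16442944) (l 30))))) (b (c (l 16350928) (l 16293168)) (a (l 16354840) (c (l 16393008) (l 16332608))))))))))))))), by decide +kernel⟩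

def k4_A00pm_113_s3 : ∃ t, chk3 f_A00pm_113_s3 t 14 14 1 = true :=
  ⟨(l 6), by decide +kernel⟩

def k5_A00pm_113_s3 : ∃ t, chk3 f_A00pm_113_s3 t 14 30 1 = true :=
  ⟨(a (l 6) (b (a (l 6) (c (b (l 16778728) (l 16753472)) (b (l 16633080) (l 16695888)))) (b (a (a (l 6) (b (l 6) (c (l 16708000) (l 16675320)))) (c (a (l 16722272) (l 16732328)) (a (b (l 16733472) (l 16780080)) (l 16743848)))) (a (c (a (b (c (l 16767440) (l 16694304)) (c (l 16754712) (l 16764272))) (b (a (b (l 16780328) (l 16773616)) (l 16696256)) (c (a (l 16758952) (l 16761864)) (a (l 16768992) (l 16772008))))) (a (b (a (l 6) (c (l 16707920) (l 16658920))) (c (l 16718936) (l 16668448))) (b (a (c (l 16759464) (l 16663000)) (b (l 16731904) (l 16670200))) (a (c (l 16779680) (l 16659024)) (c (b (l 16786416) (l 16779376)) (b (l 16702784) (l 16724440))))))) (b (a (c (c (l 16781624) (l 16790288)) (c (l 16799512) (l 16752592))) (c (l 16711784) (c (l 16806680) (l 16814584)))) (a (c (a (c (l 16765360) (l 16775280)) (c (l 16769680) (l 16737088)))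 (b (a (c (l 16789096) (l 16760064)) (l 16713224)) (a (c (l 16782720) (b (l 16778672) (l 16791056))) (c (l 16785984) (l 16754880))))) (c (a (l 16758192) (l 16742576)) (c (l 16752552) (b (l 16806368) (l 16716976)))))))))), by decide +kernel⟩

def k6_A00pm_113_s3 : ∃ t, chk3 f_A00pm_113_s3 t 28 62 1 = true :=
  ⟨(a (a (l 6) (l 6)) (b (a (l 6) (c (b (c (l 16736984) (l 16744344)) (c (l 16725536) (l 16731304))) (b (c (l 16651968) (l 16523624)) (c (l 16683424) (l 16634896))))) (c (a (b (c (l 16708280) (l 16711896)) (c (l 16698072) (l 16679080))) (b (c (l 16714856) (l 16719000)) (c (a (l 16703272) (l 16706720)) (a (l 16705632) (l 16709328))))) (a (b (c (l 16613552) (l 16486976)) (c (a (l 16616480) (l 16667520)) (a (l 16488352) (l 16534336)))) (b (c (l 16716696) (a (l 16555320) (l 16605568))) (c (a (l 16708320) (l 16712272)) (a (l 16584128) (l 16638120)))))))), by decide +kernel⟩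

def k7_A00pm_113_s3 : ∃ t, chk3 f_A00pm_113_s3 t 28 126 1 = true :=
  ⟨(a (c (a (a (l 6) (b (l 6) (c (l 16666696) (l 16656184)))) (b (c (a (l 16679528) (l 16683216)) (a (l 16668864) (l 16683216))) (c (a (l 16660088) (b (l 16676560) (l 16630448))) (a (b (l 16671312) (l 16666248)) (b (l 16675344) (l 16670360)))))) (a (a (l 6) (a (l 6) (b (l 6) (c (l 16535984) (l 16413136))))) (b (c (a (l 16547344) (l 16594040)) (a (l 16424792) (l 16466768))) (c (b (a (l 16564808) (l 16613752)) (a (l 16576944) (l 16627456))) (a (l 16528296) (b (l 16483392) (l 16494944))))))) (b (c (a (c (a (l 16686880) (l 16690520)) (a (l 16687104) (l 16690976))) (c (a (l 16673168) (l 16676784)) (a (l 16694832) (l 16698672)))) (a (c (a (l 16644472) (l 16691688)) (a (l 16512168) (l 16645240))) (c (a (l 16695776) (l 16678880)) (a (l 16656656) (b (l 16663880) (l 16681736)))))) (c (a (c (a (b (l 16680344) (l 16655288)) (b (l 16684112) (l 16659136))) (a (b (l 16679344) (l 16674440)) (b (l 16683328) (l 16657520)))) (c (a (c (l 16665168)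 (l 16664624)) (b (l 16670624) (l 16666776))) (a (b (l 16645352) (l 16661560)) (b (l 16670272) (l 16676064))))) (a (c (a (b (l 16666696) (l 16672768)) (b (l 16682744) (l 16677040))) (a (b (l 16531064) (l 16628064)) (b (l 16582776) (l 16681528)))) (c (a (b (l 16686928) (l 16681288)) (b (l 16691096) (l 16685520))) (a (b (l 16638976) (l 16655824)) (b (l 16691152) (c (l 16684856) (l 16679864))))))))), by decide +kernel⟩

def k8_A00pm_113_s3 : ∃ t, chk3 f_A00pm_113_s3 t 56 254 1 = true :=
  ⟨(c (a (c (b (a (l 16656392) (l 16639472)) (a (l 22) (b (l 16636536) (l 16645136)))) (b (a (l 16616096) (l 16657200)) (l 22))) (c (b (a (l 16643488) (l 16657952)) (a (a (l 16649152) (l 16651192)) (a (l 16653232) (l 16655256)))) (a (b (l 16661416) (l 22)) (b (l 16665600) (a (l 22) (l 16651656)))))) (c (a (b (a (l 16496768) (l 16625240)) (a (c (l 22) (l 16476584)) (l 22))) (b (a (l 16631464) (l 16652136)) (l 22))) (a (a (b (l 16376864) (l 16385248)) (b (l 16416824) (l 16510288))) (b (a (l 16543944) (c (l 16540656) (l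 16473112))) (a (c (l 22) (l 16437984)) (l 22)))))), by decide +kernel⟩

def k9_A00pm_113_s3 : ∃ t, chk3 f_A00pm_113_s3 t 56 510 2 = true :=
  ⟨(a (c (c (a (l 22) (a (l 16642592) (l 16644672))) (l 22)) (l 22)) (c (a (b (c (l 16648592) (l 16646360)) (a (c (l 16656416) (l 16653968)) (c (l 16658488) (l 16656080)))) (a (b (l 16650584) (c (l 16660552) (l 16658192))) (b (l 16652640) (c (l 16662608) (l 16660296))))) (a (l 22) (a (l 22) (b (l 16648432) (c (l 16647504) (l 22))))))), by decide +kernel⟩

def k10_A00pm_113_s3 : ∃ t, chk3 f_A00pm_113_s3 t 112 511 2 = true :=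
  ⟨(b (c (a (l 22) (c (a (a (l 16639608) (l 16640664)) (c (l 16642920) (l 16641576))) (l 22))) (l 22)) (c (a (l 22) (b (c (c (a (a (l 16649632) (l 16650696)) (a (l 16651752) (l 16652808))) (a (l 22) (a (l 22) (l 16651400)))) (l 22)) (b (c (a (c (a (l 16649072) (l 16650136)) (l 22)) (c (a (l 16651200) (l 16652256)) (a (l 22) (l 16650816)))) (l 22)) (c (a (a (a (l 22) (c (c (l 16649344) (l 22)) (l 22))) (c (a (c (l 16649880) (l 22)) (c (l 16650408) (l 16649664))) (l 22))) (a (c (a (c (l 16650936) (l 16650200)) (a (l 16650968) (l 16651232))) (l 22)) (c (a (a (l 16651496) (l 16651768)) (a (l 16652032) (l 16652296))) (c (a (l 16650528) (l 16651064)) (l 22))))) (l 22))))) (l 22))), by decide +kernel⟩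

def k11_A00pm_113_s3 : ∃ t, chk3 f_A00pm_113_s3 t 113 1022 4 = true :=
  ⟨(a (c (c (a (b (l 16655872) (l 16655120)) (b (l 16657952) (l 16657208))) (a (l 16643688) (l 16645792))) (c (a (l 16642368) (l 16644496)) (l 22))) (c (b (a (l 16659392) (l 16661464)) (a (c (l 16659288) (l 16657992)) (c (l 16661360) (l 16660080)))) (a (c (l 16646608) (l 16645336)) (c (l 16648720) (l 16647464))))), by decide +kernel⟩

def k12_A00pm_113_s3 : ∃ t, chk3 f_A00pm_113_s3 t 226 1023 4 = true :=
  ⟨(b (c (a (a (c (l 16653864) (l 16652464)) (a (l 16651336) (l 16654480))) (c (a (l 16655960) (l 16657008)) (a (l 16654584) (l 16655640)))) (c (a (a (l 22) (l 16652136)) (a (l 16653208) (l 16654280))) (l 22))) (b (c (a (a (c (l 16653320) (l 16651880)) (c (l 16654376) (l 16652952))) (a (c (l 16655424) (l 16654016)) (c (l 16656480) (l 16655072)))) (c (a (a (l 22) (b (l 16651624) (l 16651424))) (a (l 16652600) (l 16653672))) (l 22))) (c (a (a (c (b (l 16653048) (c (l 16653232) (l 16652504))) (a (c (l 16651600) (l 16650864)) (c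 (l 16652128) (l 16651400)))) (c (b (l 16654104) (c (l 16654288) (l 16653568))) (a (c (l 16652664) (l 16651936)) (a (l 16652704) (l 16652968))))) (a (c (a (l 16654808) (l 16655336)) (a (a (l 16653240) (l 16653504)) (a (l 16653768) (l 16654032)))) (c (a (l 16655864) (l 16656392)) (b (l 16654792) (c (l 16654968) (l 16654248)))))) (a (a (l 22) (a (l 22) (c (c (l 16651752) (l 22)) (l 22)))) (c (c (a (a (l 16652288) (l 16652824)) (a (l 16653360) (l 16653896))) (a (l 22) (a (l 16652648) (l 16653184)))) (l 22)))))), by decide +kernel⟩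

def k13_A00pm_113_s3 : ∃ t, chk3 f_A00pm_113_s3 t 227 1023 4 = true :=
  ⟨(b (a (c (c (a (l 16658056) (l 16659096)) (a (l 16656696) (l 16657752))) (a (c (l 16655344) (l 16653992)) (c (l 16656408) (l 16655064)))) (a (c (c (l 16660136) (l 16658808)) (c (l 16657472) (l 16656136))) (c (c (l 16661176) (l 16659856)) (c (l 16658528) (l 16657208))))) (c (b (a (a (c (l 16657528) (l 16656136)) (c (l 16658576) (l 16657192))) (a (c (l 16659616) (l 16658248)) (c (l 16660656) (l 16659304)))) (a (a (c (c (l 16657528) (l 16656824)) (b (l 16655856) (c (l 16656024) (l 16655312)))) (c (c (l 16658576) (l 16657880)) (c (l 16657176) (l 16656472)))) (a (c (c (l 16659624) (l 16658928)) (c (l 16658232) (l 16657528))) (c (c (l 16660664) (l 16659976)) (c (l 16659280) (l 16658592)))))) (b (a (c (a (l 16654744) (l 16655808)) (a (b (l 16653456) (l 16653248)) (b (l 16654536) (l 16654328)))) (a (c (l 16656880) (l 16655512)) (c (l 16657944) (l 16656584)))) (a (b (a (c (c (l 16654800) (l 16654096)) (c (l 16653392) (l 22))) (c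 (c (l 16655864) (l 16655168)) (c (l 16654464) (l 16653768)))) (a (c (c (a (l 16654336) (l 16654872)) (a (l 16653624) (l 16654160))) (c (a (l 16652912) (l 16653456)) (l 22))) (c (c (l 16655672) (a (l 16654696) (l 16655240))) (c (a (l 16653992) (l 16654536)) (a (l 22) (l 16653832)))))) (a (c (c (b (l 16656928) (l 16656736)) (b (l 16656240) (l 16656040))) (a (c (l 16655176) (l 16654472)) (c (l 16655712) (l 16655016)))) (c (c (l 16657896) (b (l 16657304) (l 16657112))) (a (c (l 16656248) (l 16655552)) (a (l 16656304) (l 16656576))))))))), by decide +kernel⟩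

def k14_A00pm_113_s3 : ∃ t, chk3 f_A00pm_113_s3 t 113 511 5 = true :=
  ⟨(b (a (l 22) (c (a (l 22) (c (l 16646216) (l 22))) (l 22))) (c (c (c (a (l 22) (a (l 22) (b (a (l 16655136) (l 16656216)) (a (a (l 22) (b (l 16654752) (l 16654320))) (b (l 16655568) (a (l 16654864) (l 16655408))))))) (l 22)) (l 22)) (l 22))), by decide +kernel⟩

def k15_A00pm_113_s3 : ∃ t, chk3 f_A00pm_113_s3 t 56 255 3 = true :=
  ⟨(c (l 22) (a (c (a (b (l 16424912) (a (l 16423808) (l 16529264))) (b (l 16552408) (l 22))) (a (b (l 16363040) (l 16371688)) (b (l 16404176) (b (l 16411544) (l 16416576))))) (b (a (c (l 22) (l 16532672)) (l 22)) (l 22)))), by decide +kernel⟩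

def k16_A00pm_113_s3 : ∃ t, chk3 f_A00pm_113_s3 t 57 254 1 = true :=
  ⟨(c (a (c (a (b (l 16661912) (a (l 16657280) (l 16659288))) (b (a (l 16654384) (l 16656344)) (b (l 16663160) (c (l 16651832) (l 16650080))))) (a (b (l 16669752) (c (l 16655672) (l 16653960))) (b (c (l 16653512) (l 16652320)) (c (l 16659824) (b (l 16669832) (l 16646624)))))) (c (a (b (a (l 16658296) (l 16660248)) (b (b (l 16657072) (l 16661464)) (a (l 16659216) (l 16661208)))) (b (a (l 16662192) (l 16664136)) (a (b (l 16680584) (l 16663200)) (a (l 16665504) (l 16666496))))) (a (b (c (l 16657568) (l 16656480)) (c (b (l 16675456) (l 16662976)) (c (l 16662816) (l 16662064)))) (b (c (l 16661608) (l 16660624)) (c (c (l 16668432) (l 16667712)) (a (l 16655128) (l 16657232))))))) (b (b (a (c (a (l 16668600) (l 16672920)) (a (l 16554320) (l 16609144))) (c (a (l 16677216) (l 16660528)) (a (l 16668848) (l 16679944)))) (a (l 22) (c (a (l 16674568) (l 16668392)) (l 22)))) (a (l 22) (c (a (c (a (l 16649400) (l 16651552)) (l 22)) (c (b (l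 16655984) (l 16664080)) (b (l 16654720) (l 16662600)))) (l 22))))), by decide +kernel⟩

def k17_A00pm_113_s3 : ∃ t, chk3 f_A00pm_113_s3 t 57 510 2 = true :=
  ⟨(a (c (c (a (b (a (l 16666216) (l 16668232)) (a (l 16664656) (l 16666696))) (b (a (l 16670248) (l 16672256)) (a (l 16668728) (l 16670760)))) (a (b (l 16654680) (b (l 16653368) (a (l 16661960) (l 16664048)))) (b (l 16658800) (a (b (l 16666976) (l 16666136)) (b (l 16669040) (l 16668208)))))) (a (b (c (l 16652648) (l 16650624)) (c (a (l 16649640) (l 16651776)) (a (l 22) (l 16649568)))) (b (c (l 16656856) (b (l 16644992) (l 16654400))) (c (a (l 16653896) (l 16656016)) (a (l 16651744) (l 16653904)))))) (a (c (a (b (c (l 16674256) (l 16672368)) (c (l 16672776) (b (l 16671104) (l 16670280)))) (b (c (l 16676248) (l 16674408)) (c (l 16674792) (b (l 16673160) (l 16672344))))) (c (a (a (l 16658536) (l 16659584)) (a (l 16660632) (l 16661680))) (b (b (l 16659744) (l 16658688)) (a (l 16656064) (l 16658216))))) (c (a (b (c (l 16678232) (l 16676440)) (c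 (l 16676800) (b (l 16675208) (l 16674408)))) (b (c (l 16680216) (l 16678472)) (c (l 16678800) (b (l 16677256) (l 16676456))))) (c (b (a (l 16674664) (l 16676744)) (a (b (l 16673280) (l 16672368)) (b (l 16675368) (l 16674472)))) (b (b (l 16664000) (l 16662960)) (a (l 16660360) (l 16662504))))))), by decide +kernel⟩

def k18_A00pm_113_s3 : ∃ t, chk3 f_A00pm_113_s3 t 114 1022 4 = true :=
  ⟨(a (a (c (b (l 16663528) (c (l 16663424) (l 16662168))) (b (l 16661112) (c (l 16660912) (l 16659656)))) (c (b (l 16665584) (c (l 16665480) (l 16664240))) (b (l 16663216) (c (l 16663008) (l 16661776))))) (a (c (b (l 16667632) (c (l 16667528) (l 16666312))) (b (l 16665304) (c (l 16665096) (l 16663888)))) (c (b (l 16669672) (c (l 16669568) (l 16668376))) (b (l 16667392) (c (l 16667184) (l 16665992)))))), by decide +kernel⟩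

def k19_A00pm_113_s3 : ∃ t, chk3 f_A00pm_113_s3 t 228 1023 4 = true :=
  ⟨(b (a (c (c (a (l 16662216) (l 16663248)) (a (l 16660904) (l 16661944))) (c (a (l 16659592) (l 16660648)) (a (l 16658280) (l 16659344)))) (c (c (a (l 16664280) (l 16665312)) (a (l 16662992) (l 16664032))) (c (a (l 16661704) (l 16662752)) (a (l 16660408) (l 16661472))))) (c (a (c (a (a (l 16661272) (l 16661792)) (a (l 16662312) (l 16662832))) (a (b (l 16660352) (c (l 16660336) (l 16659648))) (b (l 16661400) (c (l 16661384) (l 16660704))))) (c (a (b (l 16663776) (l 16663440)) (b (l 16664808) (l 16664480))) (a (c (l 16662600) (l 16661936)) (a (l 16663056) (l 16663576))))) (b (a (a (c (l 16659000) (l 16657656)) (c (l 16660064) (l 16658728))) (a (c (l 16661120) (l 16659800)) (c (l 16662176) (l 16660864)))) (a (a (c (a (l 16658352) (l 16658888)) (a (a (l 16656840) (l 16657112)) (a (l 16657384) (l 16657648)))) (c (c (l 16660024) (l 16659344)) (c (b (l 16658760) (l 16658560)) (b (l 16658080) (l 16657872))))) (a (c (c (l 16661080)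 (l 16660400)) (c (l 16659728) (b (l 16659152) (l 16658952)))) (c (c (l 16662136) (l 16661464)) (c (l 16660792) (b (l 16660224) (l 16660024))))))))), by decide +kernel⟩

def k20_A00pm_113_s3 : ∃ t, chk3 f_A00pm_113_s3 t 229 1023 4 = true :=
  ⟨(b (a (c (c (a (l 16666344) (l 16667368)) (a (l 16665072) (l 16666112))) (c (a (l 16663808) (l 16664856)) (a (l 16662536) (l 16663600)))) (c (c (a (l 16668392) (l 16669416)) (a (l 16667144) (l 16668184))) (c (a (l 16665904) (l 16666944)) (a (l 16664656) (l 16665712))))) (c (a (c (a (b (l 16665840) (l 16665512)) (b (l 16666872) (l 16666544))) (a (a (l 16664104) (l 16664624)) (b (l 16665576) (l 16665232)))) (a (c (b (l 16667904) (l 16667576)) (b (l 16666616) (l 16666272))) (c (b (l 16668928) (l 16668608)) (b (l 16667656) (l 16667312))))) (a (c (a (b (l 16663232) (c (l 16663192) (l 16662528))) (b (l 16664288) (c (l 16664240) (l 16663584)))) (a (b (l 16661928) (c (l 16661864) (l 16661192))) (b (l 16662992) (c (l 16662920) (l 16662264))))) (c (a (a (l 16664888)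 (l 16665416)) (a (l 16665936) (l 16666464))) (a (b (l 16664056) (c (l 16663984) (l 16663328))) (b (l 16665112) (c (l 16665048) (l 16664400)))))))), by decide +kernel⟩

def k21_A00pm_113_s3 : ∃ t, chk3 f_A00pm_113_s3 t 114 1022 5 = true :=
  ⟨(a (c (c (a (b (l 16659304) (l 16658400)) (b (l 16661440) (l 16660544))) (a (b (l 16658104) (l 16657144)) (b (l 16660256) (l 16659312)))) (a (l 22) (b (l 16648008) (a (l 22) (l 16647528))))) (c (a (b (l 16652504) (a (l 16661536) (l 16662608))) (b (c (l 16665688) (l 16664552)) (c (l 16664808) (l 16663624)))) (a (b (l 16650192) (a (l 16648624) (l 16649720))) (b (l 16652368) (a (l 16650816) (l 16651904)))))), by decide +kernel⟩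

def k22_A00pm_113_s3 : ∃ t, chk3 f_A00pm_113_s3 t 228 1023 5 = true :=
  ⟨(b (a (c (a (c (l 16656968) (l 22)) (c (l 16658048) (l 16656752))) (l 22)) (c (a (c (l 16659120) (l 16657840)) (c (l 16660200) (l 16658920))) (a (l 22) (c (l 16657648) (l 22))))) (a (a (c (c (b (c (l 16656648) (l 16655976)) (a (c (l 16655944) (l 16655256)) (c (l 16656488) (l 16655800)))) (l 22)) (l 22)) (c (b (c (c (l 16657728) (l 16657056)) (c (l 16656392) (l 22))) (c (a (c (l 16657032) (l 16656344)) (c (l 16657568) (l 16656888))) (c (a (l 16655664) (l 16656208)) (l 22)))) (l 22))) (b (a (c (c (l 16658472) (c (l 16657480) (l 16656816))) (l 22)) (c (c (l 16659552) (c (l 16658560) (l 16657904))) (c (c (l 16657248) (l 22)) (l 22)))) (a (c (c (a (c (l 16658112) (l 16657432)) (c (l 16658648) (l 16657976))) (a (c (l 16656752) (l 22)) (c (l 16657304) (l 16656624)))) (l 22)) (c (c (a (a (l 16658720) (l 16658984)) (a (l 16659256) (l 16659528))) (a (c (l 16657848) (l 16657176)) (c (l 16658392) (l 16657720)))) (c (c (b (l 16656896)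 (a (l 22) (l 16656936))) (l 22)) (l 22))))))), by decide +kernel⟩

def k23_A00pm_113_s3 : ∃ t, chk3 f_A00pm_113_s3 t 229 1023 5 = true :=
  ⟨(b (c (a (a (c (l 16661272) (l 16660008)) (c (l 16662344) (l 16661088))) (c (a (l 16663408) (l 16664480)) (a (l 16662168) (l 16663248)))) (a (c (a (l 16658744) (l 16659832)) (l 22)) (c (a (l 16660928) (l 16662016)) (a (l 16659688) (l 16660784))))) (a (b (a (c (c (l 16660624) (c (l 16659648) (l 16659000))) (c (c (l 16658344) (l 22)) (l 22))) (c (c (l 16661696) (c (l 16660728) (l 16660088))) (c (c (l 16659440) (l 16658792)) (l 22)))) (c (c (a (a (a (l 16659792) (l 16660064)) (a (l 16660336) (l 16660608))) (c (b (l 16661712) (l 16661504)) (b (l 16661056) (l 16660840)))) (b (a (c (l 16659312) (l 16658656)) (c (l 16660400) (l 16659744))) (a (c (a (l 16658824) (l 16659368)) (a (l 16658152) (l 16658696))) (c (a (l 16659904) (l 16660448)) (a (l 16659240) (l 16659792)))))) (a (c (c (a (l 16657600) (l 16658152)) (l 22)) (l 22)) (c (a (b (l 16658488) (c (l 16658584)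 (l 16657920))) (c (l 16659248) (l 16658584))) (l 22))))) (b (a (c (c (l 16662776) (l 16661488)) (c (c (l 16660528) (l 16659888)) (c (l 16659248) (l 22)))) (c (c (l 16663840) (l 16662576)) (c (c (l 16661624) (l 16660984)) (c (l 16660352) (l 16659720))))) (c (a (c (c (l 16662680) (b (l 16662128) (l 16661920))) (a (a (l 16660640) (l 16660912)) (a (l 16661184) (l 16661448)))) (c (c (l 16663752) (l 16663104)) (a (a (l 16661720) (l 16661992)) (a (l 16662264) (l 16662536))))) (a (c (a (c (l 16659792) (l 16659136)) (c (l 16660336) (l 16659688))) (c (b (l 16658880) (a (l 22) (l 16658912))) (l 22))) (c (a (c (l 16660888) (l 16660232)) (c (l 16661432) (l 16660784))) (a (c (l 16659584) (l 22)) (b (l 16659936) (c (l 16660016) (l 16659368)))))))))), by decide +kernel⟩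

def k24_A00pm_113_s3 : ∃ t, chk3 f_A00pm_113_s3 t 230 511 4 = true :=
  ⟨(b (a (c (b (l 16671712) (c (l 16671600) (l 16670432))) (b (l 16669472) (c (l 16669264) (l 16668096)))) (c (b (l 16673736) (c (l 16673624) (l 16672480))) (b (l 16671544) (c (l 16671336) (l 16670192))))) (b (a (c (c (a (l 16670440) (l 16671456)) (a (l 16669216) (l 16670248))) (c (a (l 16667992) (l 16669032)) (a (l 16666768) (l 16667824)))) (c (a (c (l 16672472) (l 16671272)) (c (l 16673496) (l 16672304))) (c (a (l 16670072) (l 16671112)) (a (l 16668872) (l 16669920))))) (a (c (a (c (l 16669792) (b (l 16668696) (l 16668352))) (c (l 16670816) (b (l 16669728) (l 16669392)))) (c (a (a (l 16666984) (l 16667512)) (b (l 16668480) (l 16668112))) (a (b (l 16666176) (c (l 16666104) (l 16665456))) (c (l 16667352) (l 16666720))))) (c (a (c (l 16671840) (b (l 16670760) (l 16670424))) (c (l 16672864) (b (l 16671792) (l 16671456)))) (a (a (c (l 16669080) (l 16667824)) (c (l 16669600) (l 16668352))) (a (c (l 16670128) (l 16668880)) (c (l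 16670648) (l 16669408)))))))), by decide +kernel⟩

def k25_A00pm_113_s3 : ∃ t, chk3 f_A00pm_113_s3 t 231 511 4 = true :=
  ⟨(b (a (b (c (l 16675760) (l 16673616)) (c (c (l 16675648) (l 16674520)) (c (l 16673400) (l 16672280)))) (b (c (l 16677776) (l 16675680)) (c (a (l 16676608) (l 16677624)) (c (l 16675464) (l 16674360))))) (b (a (c (a (l 16671296) (l 16674936)) (c (a (l 16672152) (l 16673184)) (a (l 16670968) (l 16672016)))) (c (a (l 16675952) (l 16676968)) (a (c (l 16674224) (l 16673064)) (c (l 16675256) (l 16674112))))) (a (c (a (c (l 16673888) (l 16672656)) (c (l 16674904) (l 16673688))) (a (a (c (l 16671168) (l 16669936)) (c (l 16671688) (l 16670464))) (c (b (l 16672648) (l 16672288)) (b (l 16671440) (l 16671064))))) (c (a (c (l 16675920) (l 16674712)) (c (l 16676936) (l 16675736))) (a (c (b (l 16673680) (l 16673328)) (b (l 16672488) (l 16672112))) (c (b (l 16674720) (l 16674368)) (b (l 16673536) (l 16673160)))))))), by decide +kernel⟩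

def k26_A00pm_113_s3 : ∃ t, chk3 f_A00pm_113_s3 t 115 1022 5 = true :=
  ⟨(a (c (b (a (c (l 16667800) (l 16666688)) (c (l 16669912) (l 16668816))) (a (c (l 16666928) (l 16665768)) (c (l 16669048) (l 16667904)))) (c (a (b (l 16665576) (l 16664600)) (b (l 16667728) (l 16666768))) (a (b (l 16664472) (l 16652960)) (b (l 16666648) (l 16655144))))) (b (c (a (c (l 16672008) (l 16670944)) (c (l 16674104) (l 16673064))) (a (l 16658864) (c (l 16672024) (l 16670976)))) (a (c (c (l 16671160) (l 16670040)) (c (l 16668920) (l 16657320))) (a (c (l 16672192) (l 16669984)) (c (l 16673248) (l 16671064)))))), by decide +kernel⟩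

def k27_A00pm_113_s3 : ∃ t, chk3 f_A00pm_113_s3 t 230 1023 5 = true :=
  ⟨(b (c (a (c (a (l 16665544) (l 16666608)) (a (l 16664328) (l 16665400))) (c (a (l 16667672) (l 16668736)) (a (l 16666472) (l 16667544)))) (a (c (a (l 16663104) (l 16664192)) (a (l 16661888) (l 16662984))) (a (c (l 16665280) (l 16664080)) (c (l 16666360) (l 16665176))))) (c (a (c (a (b (l 16664912) (c (l 16664816) (l 16664176))) (b (l 16665984) (c (l 16665888) (l 16665248)))) (a (a (c (l 16663480) (l 16662840)) (c (l 16664016) (l 16663384))) (b (l 16664736) (c (l 16664608) (b (l 16664088) (l 16663864)))))) (c (a (b (l 16667048) (c (l 16666952) (l 16666320))) (b (l 16668112) (c (l 16668016) (l 16667392)))) (a (b (l 16665808) (a (l 16665104) (l 16665640))) (b (l 16666888) (c (l 16666760) (l 16666136)))))) (a (b (a (c (c (l 16662712) (l 16662080)) (c (l 16661448) (l 16660824))) (c (c (l 16663800) (l 16663176)) (c (l 16662552) (l 16661928)))) (b (a (c (c (l 16662360) (l 16661720)) (c (l 16661088) (l 16660448))) (c (c (l 16663448)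 (l 16662816)) (c (l 16662184) (l 16661552)))) (a (c (c (a (l 16661864) (l 16662408)) (a (l 16661216) (l 16661760))) (c (a (l 16660568) (l 16661120)) (a (l 16659920) (l 16660472)))) (c (c (a (l 16662952) (l 16663496)) (a (l 16662312) (l 16662856))) (c (a (l 16661672) (l 16662216)) (a (l 16661024) (l 16661576))))))) (b (a (c (l 16664576) (c (l 16663648) (l 16663024))) (c (l 16665656) (c (l 16664744) (l 16664128)))) (a (a (c (a (l 16663704) (l 16663976)) (c (l 16662888) (l 16662256))) (c (a (l 16664248) (l 16664520)) (c (l 16663440) (l 16662808)))) (c (c (b (l 16665624) (l 16665400)) (b (l 16665000) (l 16664768))) (a (c (l 16663984) (l 16663360)) (c (l 16664536) (l 16663912))))))))), by decide +kernel⟩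

def k28_A00pm_113_s3 : ∃ t, chk3 f_A00pm_113_s3 t 231 1023 5 = true :=
  ⟨(b (a (a (c (c (l 16669792) (l 16668616)) (c (l 16667440) (l 16666264))) (c (c (l 16670856) (l 16669688)) (c (l 16668520) (l 16667360)))) (c (c (a (l 16671912) (l 16672968)) (a (l 16670752) (l 16671824))) (c (a (l 16669600) (l 16670680)) (a (l 16668448) (l 16669536))))) (c (a (a (c (b (l 16669176) (c (l 16669080) (l 16668456))) (b (l 16667960) (c (l 16667832) (l 16667216)))) (c (a (l 16669768) (l 16670296)) (b (l 16669032) (c (l 16668904) (l 16668296))))) (a (c (a (l 16670832) (l 16671360)) (b (l 16670104) (c (l 16669976) (l 16669368)))) (c (a (l 16671888) (l 16672416)) (b (l 16671176) (c (l 16671048) (l 16670448)))))) (a (c (a (b (l 16666744) (c (l 16666592) (b (l 16666088) (l 16665856)))) (b (l 16667832) (c (l 16667680) (b (l 16667176) (l 16666944))))) (a (b (c (l 16665832) (l 16665224)) (a (c (l 16665080) (l 16664456)) (a (l 16665184) (l 16665456)))) (b (c (l 16666928) (l 16666328)) (a (a (l 16665728) (l 16666008)) (a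 (l 16666280) (l 16666552)))))) (c (a (b (l 16668912) (c (l 16668760) (l 16668152))) (b (l 16669992) (c (l 16669840) (l 16669240)))) (a (a (b (l 16667448) (a (l 16666824) (l 16667104))) (c (l 16668048) (l 16667448))) (a (c (l 16668600) (l 16668000)) (c (l 16669144) (l 16668544)))))))), by decide +kernel⟩

def k29_A00pm_113_s3 : ∃ t, chk3 f_A00pm_113_s3 t 114 255 3 = true :=
  ⟨(l 22), by decide +kernel⟩

def k30_A00pm_113_s3 : ∃ t, chk3 f_A00pm_113_s3 t 115 510 3 = true :=
  ⟨(c (a (c (b (b (l 16657984) (l 16656824)) (a (l 16654008) (l 16656208))) (l 22)) (c (a (b (l 16671160) (l 16658400)) (b (l 16673336) (l 16660592))) (a (l 22) (b (l 16671656) (l 16663928))))) (l 22)), by decide +kernel⟩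

def k31_A00pm_113_s3 : ∃ t, chk3 f_A00pm_113_s3 t 115 1022 3 = true :=
  ⟨(c (a (c (c (a (b (l 16663360) (l 16651800)) (b (l 16665560) (l 16654000))) (a (l 22) (a (l 22) (l 16664472)))) (l 22)) (c (a (a (c (l 16666672) (l 16665584)) (c (l 16667768) (l 16666688))) (a (c (l 16668864) (l 16667800)) (c (l 16669960) (l 16668904)))) (c (a (l 22) (a (l 16666728) (l 16667848))) (l 22)))) (l 22)), by decide +kernel⟩

def k32_A00pm_113_s3 : ∃ t, chk3 f_A00pm_113_s3 t 230 1023 6 = true :=
  ⟨(b (c (a (a (l 22) (c (a (l 16661496) (l 16662056)) (l 22))) (c (a (a (l 16662608) (l 16663160)) (l 16663992)) (a (l 22) (a (l 22) (l 16663088))))) (l 22)) (c (a (a (l 22) (c (c (b (l 16661304) (b (l 16660920) (a (l 16660384) (l 16660944)))) (l 22)) (l 22))) (a (c (b (c (l 16662408) (l 16661792)) (c (a (l 16661624) (l 16662176)) (b (l 16661400) (a (l 16660856) (l 16661416))))) (l 22)) (b (c (c (l 16663512) (l 16662904)) (c (l 16662288) (l 22))) (c (c (a (l 16662728) (l 16663288)) (b (l 16662512) (a (l 16661976) (l 16662528))))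 (c (b (l 16661888) (a (l 22) (l 16661904))) (l 22)))))) (l 22))), by decide +kernel⟩

def k33_A00pm_113_s3 : ∃ t, chk3 f_A00pm_113_s3 t 231 1023 6 = true :=
  ⟨(b (a (c (c (a (l 16665096) (l 16666200)) (b (a (l 16664192) (l 16665312)) (a (l 16663648) (l 16664760)))) (l 22)) (c (a (c (l 16667296) (a (l 16665872) (l 16666424))) (c (l 16668400) (a (l 16666984) (l 16667536)))) (c (b (a (l 16665288) (l 16666408)) (a (l 16664712) (l 16665840))) (l 22)))) (a (c (b (a (c (c (l 16664624) (l 16664016)) (c (l 16663408) (l 16662800))) (c (c (l 16665720) (l 16665120)) (c (l 16664520) (l 16663920)))) (b (a (a (c (l 16663656) (l 16662416)) (c (l 16664208) (l 16662976))) (c (c (l 16665344) (l 16664736)) (c (l 16664120) (l 16663512)))) (a (c (c (a (l 16663712) (l 16664264)) (a (l 16663088) (l 16663640))) (c (a (l 16662464) (l 16663024)) (a (l 22) (l 16662400)))) (c (c (a (l 16664816) (l 16665368)) (a (l 16664200) (l 16664752))) (c (a (l 16663576) (l 16664136)) (a (l 16662960) (l 16663520))))))) (l 22)) (c (b (a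 (c (c (l 16666824) (l 16666232)) (c (l 16665632) (l 16665040))) (c (c (l 16667928) (l 16667336)) (c (l 16666744) (l 16666152)))) (b (a (c (c (l 16666448) (l 16665840)) (c (l 16665240) (l 16664632))) (c (c (l 16667552) (l 16666952)) (c (l 16666352) (l 16665752)))) (a (c (c (a (l 16665920) (l 16666472)) (a (l 16665312) (l 16665864))) (c (a (l 16664696) (l 16665256)) (a (l 16664080) (l 16664640)))) (c (c (a (l 16667024) (l 16667576)) (a (l 16666416) (l 16666968))) (c (a (l 16665808) (l 16666368)) (a (l 16665200) (l 16665760))))))) (c (c (a (b (l 16664440) (b (a (l 16663744) (l 16664304)) (a (l 16663464) (l 16664032)))) (b (l 16665568) (b (l 16665152) (a (l 16664592) (l 16665152))))) (a (l 22) (a (l 22) (b (l 16665256) (a (l 16664552) (l 16664832)))))) (l 22))))), by decide +kernel⟩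

def k34_A00pm_113_s3 : ∃ t, chk3 f_A00pm_113_s3 t 115 1023 7 = true :=
  ⟨(l 22), by decide +kernel⟩

def k35_A00pm_113_s3 : ∃ t, chk3 f_A00pm_113_s3 t 29 124 1 = true :=
  ⟨(a (c (c (a (b (l 16742856) (l 16731744)) (a (b (l 16747256) (l 16736400)) (b (l 16750200) (l 16739504)))) (a (b (l 16750832) (l 16738096)) (a (b (l 16755704) (l 16743192)) (b (l 16758960) (l 16746592))))) (a (b (c (l 16756200) (l 16701336)) (c (l 16723960) (a (l 16625376) (l 16680120)))) (c (b (a (l 16764736) (l 16768312)) (a (l 16750488) (l 16754192))) (b (a (l 16698104) (l 16757552)) (a (l 16739528) (l 16762296)))))) (b (c (a (a (c (l 16753288) (l 16762376)) (b (c (l 16759608) (l 16769264)) (c (l 16754008) (l 16763000)))) (a (c (b (l 16764168) (l 16757840)) (b (l 16773464) (l 16767056))) (b (l 16753040) (c (b (l 16764368) (l 16760912)) (l 16761120))))) (a (a (c (l 16772056) (l 16740400)) (c (b (l 16779544) (l 16772576)) (b (c (l 16787664) (l 16751328)) (l 16782752)))) (c (b (a (l 16762376) (l 16787328)) (a (l 16766376)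 (b (l 16782712) (l 16779576)))) (a (a (b (l 16772176) (l 16786256)) (b (l 16794616) (a (l 16787960) (l 16768032)))) (b (l 16796896) (b (l 16792736) (c (l 16787176) (l 16771456)))))))) (a (c (a (c (l 16742760) (l 16750144)) (c (l 16746296) (l 16753984))) (c (a (l 16758048) (l 16741240)) (a (l 16724536) (c (l 16768728) (l 16773248))))) (c (a (c (l 16750072) (c (l 16756032) (l 16760176))) (c (b (a (l 16755504) (l 16747152)) (l 16741168)) (b (a (l 16764208) (l 16766440)) (l 16759552)))) (b (a (c (l 16770032) (l 16769120)) (c (a (l 16773472) (l 16775808)) (c (l 16771504) (a (l 16785864) (l 16777840))))) (a (c (l 16763304) (l 16750952)) (c (l 16767976) (c (l 16774640) (l 16779256))))))))), by decide +kernel⟩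

def k36_A00pm_113_s3 : ∃ t, chk3 f_A00pm_113_s3 t 58 125 1 = true :=
  ⟨(a (c (b (c (a (l 16719776) (l 16723048)) (a (l 16724328) (l 16727864))) (a (c (l 16710152) (l 16713016)) (c (l 16692616) (l 16716696)))) (b (c (a (l 16729288) (l 16733104)) (a (l 16660024) (l 16719168))) (c (a (l 16716216) (l 16720152)) (a (l 16696784) (l 16682008))))) (c (b (a (c (l 16726312) (l 16731400)) (c (l 16729576) (l 16734944))) (a (c (l 16696040) (l 16720376)) (c (l 16709952) (l 16724056)))) (b (c (a (l 16736920) (l 16740744)) (a (l 16742872) (l 16705040))) (c (a (l 16724088) (b (l 16731152) (l 16724984))) (a (l 16707184) (b (l 16735968) (l 16728848))))))), by decide +kernel⟩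

def k37_A00pm_113_s3 : ∃ t, chk3 f_A00pm_113_s3 t 59 125 1 = true :=
  ⟨(a (c (b (a (c (l 16732984) (l 16738632)) (c (l 16726192) (l 16732128))) (a (c (a (l 16702112) (l 16703968)) (c (l 16705904) (l 16728904))) (c (b (l 16709008) (l 16704784)) (b (l 16713608) (l 16708488))))) (b (c (a (l 16744720) (c (l 16747360) (l 16750664))) (a (c (l 16749584) (l 16752960)) (c (l 16754088) (l 16757616)))) (c (a (b (l 16735216) (l 16729104)) (b (l 16739568) (l 16733512))) (a (b (l 16740312) (l 16733232)) (c (l 16740136) (l 16721704)))))) (b (b (c (a (c (l 16721936) (l 16749584)) (c (l 16736512) (l 16753992))) (a (c (l 16756752) (l 16753912)) (c (l 16761472) (c (l 16767408) (l 16771512))))) (c (a (c (l 16717392) (l 16744152)) (c (l 16732040) (l 16748616))) (a (c (l 16750376) (l 16746552)) (c (l 16755152) (c (l 16760344) (l 16763944)))))) (b (c (a (c (l 16723528) (l 16717928)) (c (b (l 16728816) (l 16726728)) (b (l 16723736) (l 16731680)))) (a (c (l 16744184) (c (l 16748408) (l 16751344))) (c (a (l 16747792)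 (l 16750248)) (c (l 16753456) (l 16756552))))) (a (c (c (l 16719384) (l 16723360)) (c (l 16738176) (c (l 16741664) (l 16744096)))) (c (a (c (l 16733088) (l 16737272)) (c (b (l 16725960) (l 16724496)) (b (l 16730512) (l 16728568)))) (c (a (l 16741824) (b (l 16735440) (l 16732992))) (a (l 16746736) (c (l 16748520) (l 16751128))))))))), by decide +kernel⟩

def k38_A00pm_113_s3 : ∃ t, chk3 f_A00pm_113_s3 t 58 126 1 = true :=
  ⟨(a (c (b (c (a (l 16690864) (c (l 16683664) (l 16684288))) (a (l 16702504) (c (l 16684984) (l 16706712)))) (c (a (b (l 16674336) (l 16681056)) (b (l 16678040) (b (l 16696232) (l 16673472)))) (a (b (l 16674208) (l 16680072)) (b (l 16678136) (b (l 16674704) (l 16672480)))))) (b (c (a (b (l 16706928) (l 16700984)) (b (l 16710960) (l 16705080))) (a (b (l 16709080) (l 16702208)) (b (l 16713360) (l 16706536)))) (c (a (b (l 16695256) (l 16689744)) (b (l 16699408) (c (l 16673112) (l 16672856)))) (a (b (l 16695544) (c (l 16689240) (l 16688960))) (b (l 16699920) (c (l 16693616) (l 16693448)))))))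 (b (c (a (c (c (l 16687184) (l 16687928)) (c (l 16688736) (l 16689616))) (c (b (l 16693144) (l 16689184)) (b (l 16695448) (l 16690600)))) (a (c (b (l 16714992) (l 16709168)) (b (l 16717640) (l 16710864))) (c (b (l 16719016) (l 16713248)) (b (l 16721920) (l 16715184))))) (c (a (c (b (l 16692224) (b (l 16679016) (l 16682504))) (b (l 16692536) (a (l 16676584) (l 16678576)))) (c (b (a (l 16705488) (l 16707344)) (a (l 16680960) (l 16682848))) (b (b (l 16687112) (l 16684848)) (a (l 16680560) (l 16682560))))) (a (c (b (l 16693064) (c (l 16677264) (l 16677112))) (b (c (l 16704088) (l 16704512)) (c (l 16697984) (l 16697920)))) (c (b (b (l 16688096) (l 16685376)) (a (l 16680344) (l 16692944))) (b (c (l 16708408) (l 16708944)) (c (l 16681376) (l 16702400)))))))), by decide +kernel⟩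

def k39_A00pm_113_s3 : ∃ t, chk3 f_A00pm_113_s3 t 116 254 1 = true :=
  ⟨(c (c (a (b (a (l 16666072) (l 16673248)) (a (c (l 16684400) (l 16683008)) (c (l 16686344) (l 16685000)))) (b (a (l 16675176) (l 16677096)) (a (c (l 16688288) (l 16671264)) (b (l 16690392) (a (l 16688336) (l 16689328)))))) (c (a (b (l 16665632) (a (l 16660672) (l 16662712))) (b (l 16680128) (a (l 16669992) (l 16672032)))) (a (b (l 16664744) (a (l 16659328) (l 16671904))) (b (l 16679344) (a (l 16673992) (l 16676080)))))) (c (a (b (c (l 16663896) (l 16663072)) (c (a (l 16658008) (l 16670632)) (b (l 16659096) (l 16667000)))) (b (c (l 16678600) (l 16677880)) (c (a (l 16672768) (l 16674904)) (a (l 16671576) (l 16673760))))) (a (b (c (l 16683256) (l 16682504)) (c (b (l 16657960) (l 16665632)) (l 22))) (b (c (l 16687680) (l 16687032)) (c (a (l 16670400) (l 16672632)) (l 22)))))), by decide +kernel⟩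

def k40_A00pm_113_s3 : ∃ t, chk3 f_A00pm_113_s3 t 117 254 1 = true :=
  ⟨(c (a (c (b (a (l 16679024) (a (l 16675224) (l 16676184))) (a (b (l 16692336) (a (l 16690312) (l 16691296))) (a (b (l 16693800) (l 16692272)) (b (l 16694776) (l 16693256))))) (b (a (l 16682784) (l 16684808)) (a (c (l 16674064) (l 16678160)) (c (b (l 16692760) (l 16690912)) (l 16680240))))) (c (b (a (a (l 16677144) (l 16683344)) (a (l 16684304) (l 16685280))) (b (a (c (l 16696728) (l 16695744)) (c (l 16698656) (l 16697720))) (a (c (l 16695328) (l 16694128)) (c (l 16697272) (l 16696120))))) (c (b (c (l 16683024) (l 16682728)) (b (a (l 16694784) (l 16696808)) (a (l 16692952) (l 16694992)))) (b (c (l 16687688) (l 16687408)) (a (b (l 16693848) (l 16691792)) (b (l 16695928) (l 16693888))))))) (a (a (c (b (l 16681448) (c (l 16677040) (l 16675944))) (b (c (l 16691016) (l 16690448)) (c (l 16674872) (l 16673824)))) (c (b (a (l 16683048) (l 16684112)) (c (l 16679168) (l 16678120))) (b (b (l 16673504) (l 16680992)) (c (l 16677104) (l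 16676104))))) (c (b (a (a (l 16685176) (l 16686240)) (a (l 16687304) (l 16688384))) (a (c (l 16681304) (l 16680304)) (c (l 16683440) (l 16682488)))) (b (a (b (l 16675728) (l 16683232)) (c (l 16676672) (l 16676264))) (a (c (l 16679336) (c (l 16668136) (l 16667664))) (c (a (l 16681016) (l 16682144)) (b (l 16692664) (l 16679208)))))))), by decide +kernel⟩

def k41_A00pm_113_s3 : ∃ t, chk3 f_A00pm_113_s3 t 116 510 1 = true :=
  ⟨(c (a (a (c (c (b (l 16682200) (b (l 16681144) (l 16680456))) (b (l 16680496) (b (l 16679296) (l 16678504)))) (c (b (l 16678816) (b (l 16677456) (l 16676560))) (c (l 16666080) (l 16665200)))) (c (c (b (l 16684168) (b (l 16683136) (l 16682456))) (b (l 16682520) (b (l 16681328) (l 16680552)))) (b (c (l 16680888) (l 16679272)) (c (b (l 16679536) (l 16678656)) (b (l 16677760) (l 16676768)))))) (c (a (c (b (l 16686144) (b (l 16685120) (l 16684448))) (b (l 16684536) (b (l 16683360) (l 16682592)))) (c (b (l 16688104) (b (l 16687096) (l 16686440))) (b (l 16686552) (b (l 16685384) (l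 16684624))))) (a (b (c (l 16682952) (l 16681384)) (c (b (l 16681616) (l 16680736)) (b (l 16679880) (l 16678904)))) (b (c (l 16685016) (l 16683488)) (c (b (l 16683688) (l 16682824)) (b (l 16682000) (l 16681032))))))) (c (a (c (a (b (l 16675504) (b (l 16673816) (l 16672712))) (b (l 16677664) (b (l 16675992) (l 16664408)))) (b (c (l 16664880) (l 16664080)) (a (b (l 16672016) (l 16660312)) (b (l 16674240) (l 16662544))))) (c (a (b (l 16679824) (b (l 16678160) (l 16666584))) (b (l 16681984) (a (l 16679248) (l 16680336)))) (a (b (l 16678288) (b (l 16676456) (l 16664768))) (b (l 16670008) (b (l 16678672) (l 16666992)))))) (c (a (a (l 22) (a (l 22) (b (l 16675080) (l 16661920)))) (a (b (l 16666288) (a (l 16663056) (l 16664184))) (b (l 16668544) (a (l 16665320) (l 16666456))))) (l 22)))), by decide +kernel⟩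

def k42_A00pm_113_s3 : ∃ t, chk3 f_A00pm_113_s3 t 116 511 4 = true :=
  ⟨(a (b (a (b (c (l 16679792) (l 16677736)) (c (a (l 16678632) (l 16679640)) (a (l 16676464) (l 16677496)))) (b (c (l 16681800) (a (l 16679280) (l 16680304))) (c (a (l 16680648) (l 16681656)) (a (l 16678528) (l 16679552))))) (a (b (c (a (l 16677984) (l 16679000)) (a (c (l 16676288) (l 16675152)) (c (l 16677320) (l 16676192)))) (c (a (c (l 16677952) (l 16676768)) (c (l 16678960) (l 16677792))) (a (c (l 16675584) (b (l 16674584) (l 16674208))) (c (l 16676616) (b (l 16675632) (l 16675256)))))) (b (c (a (l 16680016) (l 16681024)) (a (c (l 16678344) (l 16677232)) (c (l 16679376) (l 16678272)))) (c (a (c (l 16679976) (l 16678816)) (c (l 16680984) (l 16679832))) (a (c (l 16677648) (b (l 16676672) (l 16676304))) (c (l 16678680) (b (l 16677720) (l 16677352)))))))) (b (b (a (c (l 16683800) (a (l 16681328) (l 16682352))) (c (l 16685800) (a (l 16683368) (l 16684392)))) (a (c (a (l 16682664) (l 16683664)) (a (l 16680584) (l 16681608)))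 (c (a (l 16684672) (l 16685672)) (a (l 16682640) (l 16683664))))) (a (b (c (a (l 16682032) (l 16683048)) (a (c (l 16680400) (l 16679312)) (c (l 16681424) (l 16680352)))) (c (a (c (l 16681992) (l 16680856)) (c (l 16683000) (l 16681872))) (a (c (l 16679712) (l 16678576)) (c (l 16680744) (l 16679616))))) (b (c (a (l 16684056) (l 16685056)) (a (c (l 16682456) (l 16681384)) (c (l 16683480) (l 16682424)))) (c (a (c (l 16684008) (l 16682888)) (c (l 16685016) (l 16683912))) (a (c (l 16681776) (l 16680656)) (c (l 16682800) (l 16681696)))))))), by decide +kernel⟩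

def k43_A00pm_113_s3 : ∃ t, chk3 f_A00pm_113_s3 t 232 511 5 = true :=
  ⟨(b (a (a (c (b (l 16675168) (l 16674304)) (b (l 16673112) (l 16672144))) (c (b (l 16676216) (l 16675360)) (b (l 16674192) (l 16673224)))) (a (c (b (l 16677264) (l 16676408)) (b (l 16675264) (l 16674296))) (c (b (l 16678312) (l 16677464)) (b (l 16676328) (l 16675376))))) (a (b (c (a (c (l 16674016) (l 16672888)) (c (l 16675072) (l 16673952))) (c (a (l 16671760) (l 16672832)) (a (l 16670624) (l 16671712)))) (c (a (c (b (l 16673416) (l 16673016)) (b (l 16672240) (c (l 16672112) (l 16671520)))) (a (c (l 16674008) (l 16672832)) (c (l 16674536) (l 16673368)))) (a (c (b (l 16671072) (c (l 16670920) (l 16670320))) (b (l 16669904) (c (l 16669720) (b (l 16669248) (l 16669008))))) (c (b (l 16672152) (c (l 16672000) (l 16671408))) (b (l 16670992) (a (l 16670240) (l 16670792))))))) (b (c (a (c (l 16676128) (l 16675016)) (c (l 16677176) (l 16676080))) (c (a (l 16673904) (l 16674984)) (a (l 16672800) (l 16673888)))) (c (a (a (c (l 16675064)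 (l 16673896)) (c (l 16675592) (l 16674432))) (a (c (l 16676120) (l 16674968)) (c (l 16676648) (l 16675496)))) (a (c (b (l 16673232) (c (l 16673072) (l 16672488))) (b (l 16672080) (c (l 16671896) (l 16671312)))) (c (b (l 16674304) (c (l 16674152) (l 16673568))) (b (l 16673168) (c (l 16672984) (l 16672408))))))))), by decide +kernel⟩

def k44_A00pm_113_s3 : ∃ t, chk3 f_A00pm_113_s3 t 233 511 5 = true :=
  ⟨(b (a (a (c (b (l 16679360) (l 16678512)) (b (l 16677400) (l 16676448))) (c (b (l 16680408) (l 16679560)) (b (l 16678472) (l 16677520)))) (c (b (a (l 16681448) (l 16682496)) (a (l 16680616) (l 16681664))) (b (a (l 16679536) (l 16680608)) (a (l 16678592) (l 16679664))))) (a (b (c (a (c (l 16678224) (l 16677136)) (c (l 16679272) (l 16678200))) (a (c (l 16676056) (l 16674968)) (c (l 16677128) (l 16676048)))) (c (a (c (b (l 16677632) (l 16677240)) (b (l 16676504) (l 16676088))) (c (b (l 16678680) (l 16678296)) (b (l 16677568) (l 16677152)))) (a (c (b (l 16675384) (c (l 16675224) (l 16674648))) (b (l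 16674256) (c (l 16674072) (l 16673496)))) (c (a (l 16675968) (l 16676504)) (b (l 16675344) (c (l 16675160) (l 16674584))))))) (b (c (a (c (l 16680320) (l 16679256)) (c (l 16681368) (l 16680312))) (a (c (l 16678192) (l 16677136)) (c (l 16679264) (l 16678216)))) (c (a (c (b (l 16679736) (l 16679344)) (b (l 16678632) (l 16678216))) (c (b (l 16680784) (l 16680400)) (b (l 16679688) (l 16679280)))) (a (c (a (l 16677040) (l 16677576)) (b (l 16676424) (c (l 16676240) (l 16675672)))) (c (a (l 16678112) (l 16678648)) (b (l 16677512) (c (l 16677320) (l 16676760))))))))), by decide +kernel⟩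

def k45_A00pm_113_s3 : ∃ t, chk3 f_A00pm_113_s3 t 232 1022 6 = true :=
  ⟨(c (a (a (c (l 16671056) (l 16670008)) (c (l 16672144) (l 16671112))) (a (c (l 16673240) (l 16672216)) (c (l 16674328) (l 16673320)))) (c (a (a (l 16668960) (l 16670080)) (a (l 16671192) (l 16672304))) (a (a (l 16657432) (l 16658560)) (a (l 16659688) (l 16660816))))), by decide +kernel⟩

def k46_A00pm_113_s3 : ∃ t, chk3 f_A00pm_113_s3 t 232 2046 6 = true :=
  ⟨(c (c (a (a (l 16669496) (l 16670600)) (a (l 16671696) (l 16672792))) (a (b (a (l 16668640) (l 16669752)) (a (l 16668104) (l 16669208))) (a (l 16670584) (l 16671696)))) (a (c (b (a (l 16667528) (l 16668648)) (a (l 16666960) (l 16668080))) (c (a (l 16666400) (l 16667528)) (l 22))) (c (a (b (l 16669768) (l 16669200)) (b (l 16670888) (l 16670320))) (b (a (l 16668680) (l 16669808)) (a (l 16668088) (l 16669216)))))), by decide +kernel⟩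

def k47_A00pm_113_s3 : ∃ t, chk3 f_A00pm_113_s3 t 464 2047 6 = true :=
  ⟨(c (a (b (c (c (l 16669024) (l 16668440)) (c (l 16667856) (l 16667272))) (c (a (a (l 16667816) (l 16668088)) (a (l 16668368) (l 16668640))) (a (c (l 16667056) (l 16666456)) (c (l 16667608) (l 16667016))))) (a (b (c (l 16669560) (l 16668400)) (c (b (l 16669184) (l 16668928)) (c (l 16668168) (l 16667568)))) (b (c (l 16670112) (l 16668952)) (c (b (l 16669736) (l 16669480)) (c (l 16668720) (l 16668128)))))) (b (a (c (c (l 16666688) (l 16666104)) (c (l 16665520) (l 22))) (c (c (l 16667808) (l 16667232)) (c (l 16666648) (l 22)))) (a (c (a (b (l 16665696) (c (l 16665720) (l 16665112))) (b (l 16666256) (c (l 16666280) (l 16665680)))) (a (l 22) (a (l 22) (c (l 16665368) (l 22))))) (c (c (a (l 16666976) (l 16667536)) (b (l 16666808) (a (l 16666240) (l 16666808)))) (c (b (a (l 16665936) (l 16666504)) (a (l 16665648) (l 16666216))) (l 22)))))), by decide +kernel⟩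

def k48_A00pm_113_s3 : ∃ t, chk3 f_A00pm_113_s3 t 465 2047 6 = true :=
  ⟨(b (a (c (c (c (l 16671224) (l 16670648)) (c (l 16670072) (l 16669504))) (c (c (l 16668928) (l 16668352)) (c (l 16667784) (l 16667208)))) (c (c (l 16672032) (c (l 16671184) (l 16670616))) (c (c (l 16670048) (l 16669480)) (c (l 16668912) (l 16668344))))) (c (a (c (c (b (l 16670848) (l 16670600)) (b (l 16670264) (l 16670016))) (a (c (l 16669272) (l 16668688)) (c (l 16669832) (l 16669248)))) (c (c (l 16671824) (b (l 16671368) (l 16671120))) (a (a (l 16669952) (l 16670232)) (a (l 16670512) (l 16670784))))) (b (a (c (c (l 16668512) (l 16667928)) (c (a (l 16667064) (l 16667632)) (a (l 16666480) (l 16667048)))) (c (c (l 16669632) (l 16669056)) (c (l 16668480) (a (l 16667616) (l 16668184))))) (a (c (c (a (l 16667960) (l 16668520)) (a (l 16667368) (l 16667936))) (c (a (l 16666776) (l 16667344)) (a (b (l 16666264) (l 16666112)) (l 16666752)))) (c (c (a (l 16669080) (l 16669640)) (a (l 16668496) (l 16669056))) (c (a (l 16667912) (l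 16668480)) (a (l 16667328) (l 16667896)))))))), by decide +kernel⟩

def k49_A00pm_113_s3 : ∃ t, chk3 f_A00pm_113_s3 t 233 1022 6 = true :=
  ⟨(a (a (c (c (l 16675416) (l 16674416)) (c (l 16673416) (l 16661936))) (c (c (l 16676504) (l 16675520)) (c (l 16674528) (l 16663056)))) (a (c (c (l 16677592) (l 16676616)) (c (l 16675640) (l 16664184))) (c (c (l 16678680) (l 16677712)) (c (l 16676752) (l 16665304))))), by decide +kernel⟩

def k50_A00pm_113_s3 : ∃ t, chk3 f_A00pm_113_s3 t 233 2046 6 = true :=
  ⟨(a (c (c (a (l 16673888) (l 16674976)) (a (l 16672800) (l 16673904))) (a (c (b (l 16672000) (l 16671440)) (b (l 16670936) (l 16670344))) (c (b (l 16673120) (l 16672560)) (b (l 16672064) (l 16671472))))) (c (a (c (l 16676072) (l 16675008)) (c (l 16677160) (l 16676112))) (a (c (b (l 16674232) (l 16673672)) (b (l 16673184) (l 16672600))) (c (b (l 16675344) (l 16674792)) (b (l 16674312) (l 16673728)))))), by decide +kernel⟩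

def k51_A00pm_113_s3 : ∃ t, chk3 f_A00pm_113_s3 t 233 2047 6 = true :=
  ⟨(c (a (a (c (b (l 16673128) (c (l 16672920) (b (l 16672472) (l 16672216)))) (a (b (l 16671728) (b (l 16671336) (l 16671072))) (b (l 16672288) (b (l 16671888) (l 16671632))))) (c (b (l 16674224) (c (l 16674016) (l 16673448))) (a (b (l 16672840) (b (l 16672448) (l 16672184))) (c (l 16673408) (l 16672848))))) (a (c (b (l 16675320) (c (l 16675112) (l 16674544))) (a (c (l 16673960) (l 16673400)) (c (l 16674512) (l 16673960)))) (c (b (l 16676416) (c (l 16676208) (l 16675648))) (a (c (l 16675064) (l 16674512)) (c (l 16675616) (l 16675072)))))) (a (b (a (c (c (l 16671160) (l 16670600)) (c (l 16670040) (l 16669480))) (c (c (l 16672280) (l 16671720)) (c (l 16671168) (l 16670608)))) (b (a (a (c (l 16670192) (l 16669040)) (c (l 16670752) (l 16669608))) (c (c (l 16671872) (l 16671304)) (c (l 16670736) (l 16670168)))) (a (c (c (a (l 16670200) (l 16670760)) (a (l 16669624) (l 16670184))) (c (a (l 16669040) (l 16669608)) (a (l 16668464)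 (l 16669032)))) (c (c (a (l 16671320) (l 16671880)) (a (l 16670744) (l 16671312))) (c (a (l 16670168) (l 16670736)) (a (l 16669600) (l 16670160))))))) (b (a (c (c (l 16673392) (l 16672848)) (c (l 16672296) (l 16671744))) (c (c (l 16674512) (l 16673968)) (c (l 16673424) (l 16672872)))) (a (c (a (c (l 16672576) (l 16672008)) (a (l 16672712) (l 16672992))) (a (c (l 16671440) (l 16670880)) (c (l 16672008) (l 16671440)))) (c (c (a (l 16673688) (l 16674248)) (a (l 16673128) (l 16673688))) (c (a (l 16672568) (l 16673136)) (a (l 16672008) (l 16672576)))))))), by decide +kernel⟩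

def k52_A00pm_113_s3 : ∃ t, chk3 f_A00pm_113_s3 t 116 1022 7 = true :=
  ⟨(c (c (a (a (l 22) (a (l 22) (b (l 16670928) (l 16669664)))) (b (a (l 16672624) (l 16674888)) (a (a (l 16670800) (l 16671936)) (a (l 16673072) (l 16674208))))) (a (l 22) (a (c (l 16666008) (l 22)) (b (l 16673952) (a (l 16672072) (l 16673216)))))) (l 22)), by decide +kernel⟩

def k53_A00pm_113_s3 : ∃ t, chk3 f_A00pm_113_s3 t 116 1023 7 = true :=
  ⟨(a (a (l 22) (a (l 22) (c (c (c (b (l 16668688) (b (l 16667776) (a (a (l 22) (l 16667032)) (a (l 16667320) (l 16667600))))) (l 22)) (l 22)) (l 22)))) (b (c (a (a (c (b (l 16669864) (l 16669248)) (l 22)) (a (c (l 16670416) (l 22)) (c (l 16670984) (l 16669920)))) (c (a (b (l 16672144) (l 16671528)) (b (l 16673280) (l 16672664))) (a (a (l 16670496) (l 16671064)) (b (l 16672248) (l 16671608))))) (l 22)) (a (c (b (a (c (c (l 16668920) (l 16668352)) (l 22)) (c (c (l 16670056) (l 16669504)) (c (b (l 16669104) (l 16668784)) (l 22)))) (a (c (c (b (a (l 16668184) (l 16668752)) (a (l 16667880)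 (l 16668448))) (a (l 22) (a (l 16667880) (l 16668168)))) (l 22)) (c (c (b (a (l 16669320) (l 16669888)) (a (l 16669024) (l 16669592))) (a (a (l 16668456) (l 16668744)) (a (l 16669032) (l 16669312)))) (a (l 22) (c (c (l 16668744) (l 22)) (l 22)))))) (l 22)) (c (b (a (c (c (l 16671192) (l 16670640)) (c (l 16670096) (l 22))) (c (c (l 16672328) (l 16671784)) (c (l 16671240) (b (l 16670856) (l 16670536))))) (b (a (c (c (a (l 16670464) (l 16671032)) (a (l 16669896) (l 16670472))) (c (a (l 16669336) (l 16669912)) (l 22))) (a (c (l 16671320) (c (l 16670488) (l 16669928))) (c (l 16671888) (c (l 16671064) (l 16670504))))) (a (c (a (c (l 16670160) (l 16669592)) (c (l 16670728) (l 16670168))) (c (a (b (l 16669104) (l 16668944)) (b (l 16669680) (l 16669520))) (l 22))) (c (a (c (l 16671304) (l 16670736)) (c (l 16671872) (l 16671312))) (a (a (c (l 16670032) (l 16669464)) (c (l 16670320) (l 16669752))) (c (l 16670752) (b (l 16670264) (l 16670104)))))))) (l 22))))), by decide +kernel⟩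

def k54_A00pm_113_s3 : ∃ t, chk3 f_A00pm_113_s3 t 117 510 2 = true :=
  ⟨(a (b (c (c (a (l 16690072) (l 16692032)) (a (l 16688560) (l 16690568))) (c (a (l 16687072) (l 16689128)) (a (l 16685600) (l 16687704)))) (c (c (a (b (l 16689072) (l 16688424)) (b (l 16691048) (l 16690408))) (a (b (l 16687408) (l 16686656)) (b (l 16689432) (l 16688688)))) (c (a (b (l 16685760) (l 16684904)) (b (l 16687824) (l 16686976))) (a (b (l 16684120) (l 16683152)) (b (l 16686240) (l 16685280)))))) (b (c (c (a (l 16693984) (l 16695944)) (a (l 16692576) (l 16694584))) (c (a (l 16691184) (l 16693240)) (a (l 16689800) (a (l 16691384) (l 16692448))))) (c (c (a (b (l 16693016) (l 16692384)) (a (l 16694184) (l 16695176))) (a (b (l 16691448) (l 16690712)) (a (l 16692592) (l 16693616)))) (c (a (b (l 16689888) (l 16689048)) (a (l 16691024) (l 16692072))) (a (a (l 16687344) (l 16688400)) (a (l 16689464) (l 16690536))))))), by decide +kernel⟩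

def k55_A00pm_113_s3 : ∃ t, chk3 f_A00pm_113_s3 t 117 510 3 = true :=
  ⟨(a (c (a (c (b (l 16684144) (a (l 16681416) (l 16682504))) (b (l 16672216) (b (l 16680888) (l 16669208)))) (c (c (b (l 16686640) (l 16684528)) (b (l 16685944) (l 16683712))) (b (l 16674416) (a (l 16671472) (l 16672576))))) (c (a (b (l 16670792) (c (l 16668560) (l 16667736))) (b (l 16673040) (a (l 16669848) (l 16670976)))) (c (a (b (l 16680224) (l 16666912)) (b (l 16682512) (l 16669208))) (a (l 22) (b (l 16681832) (l 16668416)))))) (c (a (c (a (b (l 16687912) (l 16685752)) (b (l 16688984) (l 16686832))) (b (l 16676616) (a (l 16673680) (l 16674784)))) (a (b (c (l 16690064) (l 16688760)) (c (l 16687912) (l 16675896))) (c (b (l 16691152) (l 16689008)) (c (l 16678536) (l 16677840))))) (a (a (c (b (l 16685224) (l 16672112)) (b (l 16683904) (l 16670552))) (c (b (l 16686344) (l 16673240)) (b (l 16685048) (l 16671704)))) (c (b (l 16677544) (a (l 16674368) (l 16675512))) (a (c (l 16679864) (l 16679168)) (c (l 16681024) (l 16680344))))))),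 by decide +kernel⟩

def k56_A00pm_113_s3 : ∃ t, chk3 f_A00pm_113_s3 t 117 1022 2 = true :=
  ⟨(a (c (a (a (c (l 16686984) (b (l 16685416) (l 16684688))) (c (l 16687976) (b (l 16686432) (l 16685712)))) (a (c (l 16688976) (b (l 16687448) (l 16686736))) (c (l 16689976) (b (l 16688472) (l 16687760))))) (a (c (b (a (l 16683536) (l 16684584)) (a (l 16682712) (l 16683752))) (b (a (l 16681672) (l 16682744)) (a (l 16680736) (l 16681808)))) (c (b (a (l 16685624) (l 16686664)) (a (l 16684800) (l 16685848))) (b (a (l 16683808) (l 16684872)) (a (l 16682872) (l 16683944)))))) (a (a (c (c (l 16690968) (b (l 16689488) (l 16688776))) (c (b (l 16687704) (l 16686888)) (b (l 16685936) (l 16685008)))) (c (c (l 16691968) (b (l 16690504) (l 16689800))) (c (b (l 16688744) (l 16687936)) (b (l 16687000) (l 16686080))))) (c (a (c (b (l 16693264) (l 16692664)) (b (l 16691520) (l 16690816))) (b (a (l 16693152) (c (b (l 16694712) (a (l 16694304) (l 16694824))) (b (l 16693032) (a (l 16692560) (l 16693088))))) (b (a (a (l 16692536)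 (c (l 16693752) (l 16691952))) (c (l 16694624) (l 16692840))) (a (a (c (l 16693208) (b (l 16691384) (l 16691280))) (c (l 16693728) (l 16691880))) (l 16693880))))) (a (c (b (l 16689784) (l 16688976)) (b (l 16688064) (l 16687144))) (b (a (c (l 16690576) (l 16688872)) (b (a (l 16690344) (c (l 16691504) (l 16689840))) (a (c (l 16690832) (b (l 16689168) (l 16689008))) (c (l 16691368) (l 16689656))))) (a (a (b (l 16688944) (c (b (l 16689544) (l 16689416)) (b (l 16687712) (a (l 16687424) (l 16687664))))) (b (c (b (l 16690216) (l 16690080)) (b (l 16688440) (l 16688280))) (c (l 16690040) (l 16688208)))) (a (b (c (l 16690704) (l 16688928)) (l 16689864)) (l 16690584)))))))), by decide +kernel⟩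

def k57_A00pm_113_s3 : ∃ t, chk3 f_A00pm_113_s3 t 234 1022 3 = true :=
  ⟨(c (a (a (c (c (l 16679768) (l 16678816)) (c (l 16677864) (l 16666424))) (c (c (l 16680848) (l 16679912)) (b (l 16679080) (c (l 16678408) (l 16677440))))) (c (a (c (l 16681936) (l 16681008)) (c (l 16683024) (l 16682104))) (c (a (l 16680080) (l 16681184)) (b (l 16680296) (a (l 16678560) (l 16679680)))))) (c (a (b (a (l 16676128) (l 16677264)) (a (c (l 16675344) (l 16674368)) (c (l 16676472) (l 16675512)))) (b (a (l 16678400) (l 16679536)) (a (c (l 16677608) (l 16676656)) (c (l 16678736) (l 16677800))))) (c (a (b (l 16664840) (a (l 16673392) (l 16674544))) (b (l 16667144) (a (l 16675704) (l 16676856)))) (a (l 22) (a (l 22) (l 16671384)))))), by decide +kernel⟩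

def k58_A00pm_113_s3 : ∃ t, chk3 f_A00pm_113_s3 t 235 1022 6 = true :=
  ⟨(a (c (a (c (l 16684104) (l 16683200)) (c (l 16685184) (l 16684288))) (c (a (l 16682288) (l 16683400)) (b (l 16682536) (a (l 16680800) (l 16681920))))) (a (c (c (l 16686272) (l 16685384)) (b (l 16684640) (c (l 16683952) (l 16683040)))) (b (a (c (l 16687168) (l 16685480)) (a (b (l 16687016) (c (b (l 16687464) (l 16687280)) (b (l 16685768) (l 16685560)))) (b (c (l 16688184) (b (l 16686632) (l 16686416))) (c (l 16687952) (l 16686256))))) (a (c (b (a (l 16686264) (b (l 16686672) (a (l 16686352) (l 16686592)))) (a (b (l 16685888) (a (l 16685568) (l 16685808))) (b (l 16686384) (l 16686368)))) (b (a (l 16684488) (b (l 16684920) (a (l 16684568) (l 16684816)))) (a (b (l 16684064) (a (l 16683720) (l 16683968))) (b (l 16684576) (l 16684536))))) (c (b (a (l 16687160) (l 16687928)) (l 16687528)) (a (c (l 16685816) (l 16684928)) (l 16686152))))))), by decide +kernel⟩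

def k59_A00pm_113_s3 : ∃ t, chk3 f_A00pm_113_s3 t 235 1022 7 = true :=
  ⟨(a (c (c (b (l 16681664) (a (l 16679872) (l 16681000))) (b (l 16670312) (a (l 16678944) (l 16680088)))) (b (a (c (l 16679368) (l 16678504)) (c (l 16680520) (l 16679664))) (a (c (l 16678016) (l 16677088)) (c (l 16679168) (l 16678256))))) (a (c (b (l 16672456) (c (l 16682136) (l 16681224))) (b (c (l 16681672) (l 16680832)) (c (l 16680320) (l 16679424)))) (b (a (c (l 16683800) (l 16682128)) (c (a (b (l 16684552) (c (l 16684408) (l 16683560))) (b (l 16674416) (l 16684568))) (b (c (l 16673032) (l 16672216)) (a (c (l 16672224) (l 16671384)) (l 16672400))))) (a (a (c (b (l 16682712) (a (l 16682024) (b (l 16682328) (l 16682120)))) (b (l 16680952) (b (l 16680440) (a (l 16680032) (c (l 16680744) (l 16679832)))))) (c (b (a (l 16682936) (b (l 16683240) (l 16683032))) (c (l 16683192) (l 16682288))) (b (a (l 16681176) (b (l 16681496) (l 16681264))) (a (c (l 16681184) (l 16680272)) (l 16681120))))) (c (b (c (l 16684480) (l 16683608)) (l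 16683936)) (b (c (l 16682744) (l 16671384)) (l 16682144))))))), by decide +kernel⟩

def k60_A00pm_113_s3 : ∃ t, chk3 f_A00pm_113_s3 t 234 1023 2 = true :=
  ⟨(c (a (b (c (a (l 16686064) (l 16687072)) (a (c (l 16684496) (l 16683456)) (c (l 16685520) (l 16684488)))) (c (a (c (l 16686016) (l 16684928)) (c (l 16687024) (l 16685936))) (a (c (l 16683832) (l 16682736)) (c (l 16684856) (l 16683776))))) (c (c (a (l 16688304) (l 16689304)) (b (l 16688064) (a (l 16686952) (l 16687968)))) (b (a (l 16686032) (l 16687056)) (a (c (l 16685880) (l 16684808)) (c (l 16686904) (l 16685848)))))) (a (b (c (a (c (l 16682416) (l 16681376)) (c (l 16683456) (l 16682432))) (a (c (l 16680336) (l 16679296)) (c (l 16681400) (l 16680376)))) (c (a (c (b (l 16681832) (l 16681448)) (b (l 16680752) (l 16680344))) (c (l 16682688) (b (l 16681808) (l 16681400)))) (a (c (b (l 16679672) (l 16679232)) (b (l 16678592) (c (l 16678408) (l 16677848)))) (a (c (l 16680256) (l 16679168)) (c (l 16680792) (l 16679712)))))) (b (c (a (c (l 16684504)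 (l 16683488)) (c (l 16685544) (l 16684536))) (a (c (l 16682464) (l 16681448)) (c (l 16683536) (l 16682528)))) (c (a (c (l 16683736) (b (l 16682872) (l 16682464))) (c (l 16684784) (b (l 16683928) (l 16683520)))) (a (a (c (l 16681328) (l 16680256)) (c (l 16681864) (l 16680792))) (a (c (l 16682400) (l 16681336)) (c (l 16682936) (l 16681880)))))))), by decide +kernel⟩

def k61_A00pm_113_s3 : ∃ t, chk3 f_A00pm_113_s3 t 470 1023 2 = true :=
  ⟨(c (c (c (a (l 16690304) (l 16691304)) (b (l 16690080) (a (l 16688976) (l 16689992)))) (b (a (l 16688088) (l 16689112)) (a (c (l 16687928) (l 16686880)) (c (l 16688952) (l 16687912))))) (b (c (a (c (l 16686592) (l 16685592)) (c (l 16687632) (l 16686648))) (a (c (l 16684600) (l 16683608)) (c (l 16685664) (l 16684680)))) (c (a (c (l 16685832) (b (l 16684984) (l 16684584))) (c (l 16686880) (b (l 16686040) (l 16685640)))) (a (a (c (l 16683464) (l 16682416)) (c (l 16684000) (l 16682960))) (c (b (l 16685016) (l 16684592)) (b (l 16683992) (l 16683536))))))), by decide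 +kernel⟩

def k62_A00pm_113_s3 : ∃ t, chk3 f_A00pm_113_s3 t 471 1023 4 = true :=
  ⟨(a (b (a (c (l 16691832) (l 16689880)) (b (a (l 16691392) (c (b (l 16692688) (l 16692608)) (b (l 16690784) (l 16690680)))) (a (c (b (l 16692152) (a (l 16691944) (l 16692168))) (b (l 16690184) (a (l 16689960) (l 16690184)))) (c (l 16692648) (b (l 16690656) (l 16690712)))))) (b (b (a (c (l 16691488) (l 16689464)) (a (c (l 16692072) (l 16690064)) (l 16691784))) (a (a (l 16687568) (c (a (l 16691408) (l 16691632)) (a (l 16689368) (l 16689592)))) (l 16691504))) (a (a (c (b (l 16691080) (a (l 16690880) (l 16691104))) (b (l 16689000) (a (l 16688776) (b (l 16688992) (l 16689000))))) (b (c (l 16691536) (a (l 16689296) (l 16689648))) (l 16690584))) (c (l 16692664) (l 16690608))))) (b (a (a (b (c (l 16693184) (l 16691280)) (l 16692384)) (l 16693032)) (l 16694120)) (c (l 16694736) (l 16692744)))), by decide +kernel⟩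

def k63_A00pm_113_s3 : ∃ t, chk3 f_A00pm_113_s3 t 471 1023 5 = true :=
  ⟨(a (b (c (a (l 16687928) (b (a (l 16688520) (b (l 16688888) (a (l 16688624) (l 16688856)))) (a (b (l 16688232) (a (l 16687968) (l 16688208))) (b (l 16688712) (l 16688744))))) (a (l 16685976) (b (a (l 16686608) (b (l 16686992) (a (l 16686704) (l 16686944)))) (a (b (l 16686280) (a (l 16685992) (b (l 16686232) (l 16686208)))) (b (a (l 16686584) (l 16686944)) (l 16686776)))))) (c (b (a (a (l 16687208) (b (l 16687576) (a (l 16687320) (b (l 16687552) (l 16687544))))) (a (b (a (l 16687880) (l 16688232)) (l 16688096)) (l 16688824))) (a (a (a (c (l 16687288) (l 16686248)) (b (l 16687000) (b (a (l 16686824) (l 16686968)) (l 16686896)))) (b (a (b (l 16687224) (l 16687224)) (l 16687584)) (l 16687456))) (l 16688560))) (b (a (a (l 16685176) (c (b (l 16686064) (a (l 16685792) (l 16686024))) (b (l 16685064) (a (l 16684768) (l 16685008))))) (a (b (a (b (l 16685872) (l 16685856)) (l 16686232)) (l 16686072)) (l 16686824))) (a (a (b (c (l 16685376)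 (l 16684336)) (a (c (l 16685096) (l 16684048)) (b (a (l 16684736) (l 16684880)) (l 16684800)))) (b (a (b (a (l 16685088) (l 16685232)) (l 16685152)) (l 16685528)) (l 16685368))) (l 16686504))))) (b (b (a (a (b (c (l 16689368) (l 16687480)) (l 16688448)) (l 16689184)) (l 16690312)) (c (l 16690600) (l 16688680))) (c (l 16690760) (b (l 16688744) (l 16688816))))), by decide +kernel⟩

def k64_A00pm_113_s3 : ∃ t, chk3 f_A00pm_113_s3 t 234 1023 6 = true :=
  ⟨(a (b (c (a (c (l 16678256) (l 16677216)) (c (l 16679344) (l 16678320))) (a (c (b (l 16676456) (l 16675904)) (b (l 16675440) (l 16674856))) (c (b (l 16677568) (l 16677016)) (b (l 16676560) (l 16675984))))) (c (a (c (b (l 16677512) (c (l 16677296) (l 16676744))) (b (l 16676432) (a (l 16675640) (l 16676192)))) (c (b (l 16678608) (c (l 16678392) (l 16677840))) (b (l 16677536) (c (l 16677296) (l 16676744))))) (b (a (c (c (l 16675624) (l 16675088)) (c (l 16674544) (l 16674008))) (c (c (l 16676736) (l 16676200)) (c (l 16675672) (l 16675136)))) (a (c (c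 (a (l 16674808) (l 16675360)) (a (l 16674248) (l 16674808))) (c (a (l 16673696) (l 16674264)) (a (l 16673144) (l 16673712)))) (c (c (a (l 16675920) (l 16676480)) (a (l 16675376) (l 16675936))) (c (a (l 16674824) (l 16675384)) (a (l 16674272) (l 16674840)))))))) (b (c (a (c (l 16680432) (l 16679424)) (c (l 16681528) (l 16680520))) (c (a (l 16678408) (l 16679520)) (a (b (l 16677688) (l 16677104)) (b (l 16678808) (l 16678232))))) (c (a (c (b (l 16679696) (c (l 16679480) (l 16678936))) (b (l 16678640) (c (l 16678400) (l 16677856)))) (c (b (l 16680792) (c (l 16680568) (l 16680032))) (b (l 16679744) (c (l 16679496) (l 16678960))))) (a (c (a (c (l 16677304) (l 16676768)) (c (l 16677856) (l 16677328))) (b (c (l 16676792) (l 16676264)) (c (a (l 16675952) (l 16676512)) (a (l 16675408) (l 16675968))))) (c (a (c (l 16678416) (l 16677888)) (b (l 16678976) (l 16678440))) (c (a (l 16677352) (l 16677912)) (b (l 16677392) (a (l 16676536) (l 16677104))))))))), by decide +kernel⟩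

def k65_A00pm_113_s3 : ∃ t, chk3 f_A00pm_113_s3 t 468 1023 7 = true :=
  ⟨(b (a (c (c (b (l 16674416) (l 16673808)) (b (l 16673400) (l 16672760))) (c (a (l 16671752) (l 16672336)) (l 22))) (c (c (b (l 16675552) (l 16674944)) (b (l 16674544) (l 16673904))) (c (a (l 16672912) (l 16673496)) (l 22)))) (c (b (a (c (c (l 16673464) (l 16672928)) (c (l 16672392) (l 16671848))) (c (c (l 16674600) (l 16674072)) (c (l 16673536) (l 16673000)))) (a (c (c (a (l 16672584) (l 16673160)) (a (b (l 16672184) (l 16671880)) (b (l 16672760) (l 16672456)))) (c (a (b (l 16671632) (l 16671320)) (b (l 16672208) (l 16671896))) (a (a (l 16670784) (l 16671072)) (a (l 16671360) (l 16671648))))) (c (c (a (l 16673728) (l 16674296)) (a (l 16673176) (l 16673744))) (c (a (b (l 16672784) (l 16672472)) (b (l 16673360) (l 16673048))) (a (b (l 16672240) (l 16671920)) (b (l 16672816) (l 16672496))))))) (b (c (a (c (a (l 16671024) (l 16671600)) (l 22)) (c (a (l 16672184) (l 16672760)) (a (l 22) (l 16672232)))) (l 22)) (c (a (c (c (a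 (l 16670512) (l 16671088)) (l 22)) (l 22)) (c (a (c (l 16671664) (l 16671392)) (a (l 16671968) (l 16672256))) (a (l 22) (a (l 22) (a (l 16671640) (l 16671784)))))) (l 22))))), by decide +kernel⟩

def k66_A00pm_113_s3 : ∃ t, chk3 f_A00pm_113_s3 t 469 1023 7 = true :=
  ⟨(b (a (c (c (b (l 16676688) (l 16676080)) (b (l 16675688) (l 16675056))) (c (a (l 16674072) (l 16674648)) (l 22))) (c (c (b (l 16677824) (l 16677216)) (b (l 16676840) (l 16676200))) (c (a (l 16675232) (l 16675808)) (c (l 16674768) (l 22))))) (c (b (a (c (c (l 16675736) (l 16675208)) (c (l 16674680) (l 16674152))) (c (c (l 16676872) (l 16676352)) (c (l 16675832) (l 16675304)))) (a (c (c (a (l 16674864) (l 16675432)) (a (l 16674320) (l 16674888))) (c (a (b (l 16673928) (l 16673624)) (b (l 16674504) (l 16674192))) (a (b (l 16673392) (l 16673072)) (b (l 16673968) (l 16673648))))) (c (c (a (l 16676000) (l 16676568)) (a (l 16675464) (l 16676032))) (c (a (l 16674920) (l 16675496)) (a (b (l 16674544) (l 16674224)) (b (l 16675120) (l 16674800)))))))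 (b (a (c (c (a (l 16673344) (l 16673920)) (a (l 16672816) (l 16673392))) (l 22)) (c (c (l 16674784) (a (l 16673976) (l 16674560))) (c (a (l 16673456) (l 16674040)) (l 22)))) (a (c (c (a (a (l 16672544) (l 16672832)) (b (l 16673432) (l 16673104))) (c (a (l 16672280) (l 16672864)) (b (l 16672464) (a (l 16671840) (l 16672424))))) (l 22)) (c (c (a (b (l 16674008) (l 16673688)) (b (l 16674592) (l 16674264))) (a (a (l 16673168) (l 16673456)) (a (l 16673744) (l 16674040)))) (c (c (b (l 16673368) (a (l 16672736) (l 16673320))) (a (l 22) (a (l 16673080) (l 16673368)))) (l 22))))))), by decide +kernel⟩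

def k67_A00pm_113_s3 : ∃ t, chk3 f_A00pm_113_s3 t 470 1023 6 = true :=
  ⟨(b (c (a (c (l 16682616) (l 16681624)) (c (l 16683704) (l 16682720))) (a (c (l 16680632) (b (l 16679928) (l 16679352))) (c (l 16681744) (b (l 16681056) (l 16680480))))) (c (a (c (b (l 16681880) (c (l 16681664) (l 16681128))) (b (l 16680848) (c (l 16680600) (l 16680072)))) (c (a (l 16682456) (l 16683000)) (b (l 16681952) (c (l 16681704) (l 16681176))))) (a (c (a (b (l 16679536) (l 16678992)) (b (l 16680096) (l 16679552))) (c (a (l 16678480) (l 16679040)) (b (l 16678520) (a (l 16677664) (l 16678232))))) (c (b (l 16680928) (c (l 16680648) (l 16680128))) (a (c (l 16679600) (l 16679080)) (c (l 16680160) (l 16679648))))))), by decide +kernel⟩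

def k68_A00pm_113_s3 : ∃ t, chk3 f_A00pm_113_s3 t 470 1023 7 = true :=
  ⟨(b (c (a (c (b (l 16678952) (l 16678352)) (b (l 16677984) (l 16677344))) (c (b (l 16680088) (l 16679488)) (b (l 16679128) (l 16678496)))) (b (a (c (l 16677008) (l 16676040)) (c (l 16678168) (l 16677208))) (a (c (c (l 16676592) (l 16676096)) (c (l 16675592) (l 16675096))) (c (c (l 16677752) (l 16677256)) (c (l 16676760) (l 16676264)))))) (c (b (a (c (c (l 16678008) (l 16677488)) (c (l 16676976) (l 16676456))) (c (c (l 16679136) (l 16678632)) (c (l 16678120) (l 16677608)))) (a (c (c (a (l 16677136) (l 16677704)) (a (l 16676600) (l 16677168))) (c (a (l 16676072) (l 16676640)) (a (b (l 16675696) (l 16675376)) (l 16676112)))) (c (c (a (l 16678272) (l 16678832)) (a (l 16677744) (l 16678312))) (c (a (l 16677216) (l 16677792)) (a (l 16676688) (l 16677264)))))) (b (a (c (c (l 16675944) (a (l 16675136) (l 16675720))) (c (a (l 16674624) (l 16675208)) (a (l 16674104) (l 16674688)))) (a (c (l 16676552) (c (l 16675792) (l 16675280)))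 (c (l 16677136) (c (l 16676376) (l 16675864))))) (a (c (c (a (b (l 16675168) (l 16674848)) (b (l 16675744) (l 16675424))) (a (a (l 16674328) (l 16674616)) (b (l 16675224) (l 16674888)))) (c (c (a (l 16674072) (l 16674656)) (b (l 16674272) (a (l 16673640) (l 16674224)))) (a (a (l 22) (a (l 16673488) (l 16673632))) (b (l 16674168) (a (l 16673680) (l 16673976)))))) (c (c (a (b (l 16676328) (l 16676000)) (b (l 16676904) (l 16676584))) (a (b (l 16675800) (l 16675472)) (b (l 16676384) (l 16676056)))) (c (a (a (l 16674968) (l 16675256)) (a (l 16675552) (l 16675840))) (c (a (b (l 16674888) (l 16674544)) (l 16675304)) (a (b (l 16674624) (l 16674280)) (b (l 16675216) (l 16674872)))))))))), by decide +kernel⟩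

def k69_A00pm_113_s3 : ∃ t, chk3 f_A00pm_113_s3 t 942 2046 6 = true :=
  ⟨(c (b (a (l 16684288) (a (l 16684696) (b (l 16685104) (a (l 16684784) (l 16685032))))) (a (l 16683784) (a (b (l 16684328) (a (l 16684008) (b (l 16684264) (l 16684232)))) (b (c (l 16685312) (l 16684344)) (l 16684816))))) (a (c (l 16682576) (l 16681608)) (b (a (l 16682792) (b (l 16683224) (a (l 16682872) (b (l 16683136) (l 16683088))))) (a (c (b (l 16682864) (a (l 16682528) (l 16682776))) (b (l 16681896) (a (l 16681536) (b (l 16681808) (l 16681760))))) (b (a (b (l 16682720) (l 16682672)) (l 16683072)) (l 16682856)))))), by decide +kernel⟩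

def k70_A00pm_113_s3 : ∃ t, chk3 f_A00pm_113_s3 t 942 2047 6 = true :=
  ⟨(c (b (a (a (l 16683144) (b (c (l 16684056) (l 16683048)) (a (c (l 16683744) (l 16682728)) (b (a (l 16683408) (l 16683552)) (l 16683464))))) (a (a (b (c (l 16684368) (l 16683368)) (l 16683848)) (l 16684240)) (l 16684824))) (a (a (a (b (l 16682704) (a (l 16682424) (b (l 16682552) (c (l 16682976) (l 16681920))))) (b (b (l 16682904) (c (l 16683312) (l 16682272))) (b (a (c (l 16683168) (l 16682120)) (l 16682784)) (c (l 16683216) (l 16682168))))) (b (a (b (a (c (l 16683544) (l 16682512)) (l 16683168)) (l 16683080)) (l 16683464)) (l 16683280))) (l 16681832))) (b (a (a (c (l 16681624) (l 16680608)) (b (c (l 16682048) (b (l 16681104) (l 16680968))) (a (b (l 16681256) (c (l 16681640) (l 16680624))) (b (a (c (l 16681888) (l 16680872)) (l 16681528)) (c (l 16681928) (l 16680912)))))) (a (b (a (b (a (l 16681800) (l 16681944)) (l 16681832)) (l 16682240)) (l 16682024)) (l 16682832))) (b (a (b (a (l 16680768) (a (a (c (l 16681480) (l 16680448))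 (c (l 16681624) (l 16680600))) (l 16681408))) (a (a (l 16680568) (a (l 16680672) (c (l 16681272) (l 16680240)))) (c (l 16681720) (l 16680688)))) (l 16682408)) (a (a (a (b (l 16680424) (c (b (l 16680848) (a (l 16680752) (l 16680840))) (b (l 16679800) (a (l 16679688) (a (l 16679752) (l 16679816)))))) (b (a (c (l 16681072) (b (l 16680048) (l 16680000))) (c (l 16681224) (l 16680176))) (c (l 16681120) (l 16680064)))) (c (l 16681720) (l 16680672))) (c (l 16682912) (l 16681888)))))), by decide +kernel⟩

def k71_A00pm_113_s3 : ∃ t, chk3 f_A00pm_113_s3 t 943 1023 6 = true :=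
  ⟨(a (b (c (a (b (c (l 16686072) (l 16685128)) (l 16685592)) (l 16686368)) (b (a (b (a (l 16683544) (l 16683912)) (l 16683688)) (l 16684496)) (l 16684056))) (c (b (l 16686000) (l 16686024)) (c (l 16684512) (l 16683520)))) (b (c (l 16687536) (l 16685664)) (c (l 16687576) (b (l 16685616) (l 16685600))))), by decide +kernel⟩

def k72_A00pm_113_s3 : ∃ t, chk3 f_A00pm_113_s3 t 942 2046 7 = true :=
  ⟨(c (a (c (l 16680640) (l 16679672)) (b (a (l 16680896) (a (c (l 16681584) (l 16680640)) (b (l 16681416) (b (l 16681240) (l 16681176))))) (b (a (c (l 16680920) (l 16679952)) (a (b (c (l 16681272) (l 16680304)) (l 16680728)) (l 16681144))) (a (a (c (l 16680552) (l 16679568)) (b (c (l 16680824) (l 16679848)) (l 16680280))) (l 16680896))))) (a (c (l 16678704) (b (l 16678080) (l 16677392))) (b (a (l 16679000) (a (c (l 16679696) (l 16678752)) (b (c (l 16680008) (l 16679072)) (c (l 16679792) (l 16678840))))) (a (a (b (l 16678416) (c (l 16678584) (b (l 16677672) (l 16677512)))) (b (c (l 16679056) (l 16678088))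 (c (b (l 16678864) (l 16678800)) (b (a (l 16677800) (l 16677952)) (l 16677816))))) (a (b (a (b (l 16678776) (l 16678688)) (l 16678912)) (l 16678736)) (l 16679184)))))), by decide +kernel⟩

def k73_A00pm_113_s3 : ∃ t, chk3 f_A00pm_113_s3 t 942 4094 7 = true :=
  ⟨(c (a (a (c (l 16679600) (l 16678584)) (a (a (c (l 16679776) (l 16678760)) (b (l 16679496) (b (l 16679264) (c (l 16679640) (l 16678616))))) (b (c (l 16680112) (b (l 16679176) (l 16679032))) (b (c (a (l 16679856) (l 16680008)) (a (l 16678848) (l 16679000))) (c (l 16679888) (l 16678872)))))) (a (b (a (b (c (l 16680384) (a (l 16679304) (l 16679456))) (c (l 16680328) (l 16679328))) (l 16680248)) (l 16680000)) (l 16680832))) (a (a (c (l 16677568) (l 16676560)) (b (b (l 16677608) (a (l 16677368) (a (l 16677472) (c (l 16678072) (l 16677064))))) (c (b (a (l 16677704) (a (l 16677832) (l 16677984))) (a (a (l 16677504) (b (l 16677624) (l 16677560))) (l 16677856))) (b (a (l 16676688) (a (b (l 16676848) (l 16676784)) (l 16676976))) (a (a (l 16676488)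 (b (l 16676600) (a (l 16676496) (l 16676568)))) (l 16676832)))))) (b (a (a (c (b (a (l 16678304) (l 16678456)) (l 16678328)) (b (a (l 16677312) (l 16677464)) (l 16677320))) (l 16678256)) (l 16678872)) (c (l 16678904) (l 16677896))))), by decide +kernel⟩

def k74_A00pm_113_s3 : ∃ t, chk3 f_A00pm_113_s3 t 942 8190 7 = true :=
  ⟨(c (a (a (c (b (l 16679224) (a (l 16679008) (a (l 16679112) (b (l 16679224) (l 16679168))))) (b (l 16678192) (a (l 16677968) (a (l 16678072) (b (l 16678184) (a (l 16678088) (l 16678160))))))) (a (b (c (a (l 16679416) (l 16679568)) (a (b (l 16678416) (l 16678352)) (l 16678544))) (c (l 16679448) (l 16678416))) (c (l 16679864) (l 16678840)))) (c (l 16680880) (l 16679864))) (a (c (a (b (l 16677160) (a (l 16676928) (a (l 16677032) (b (l 16677152) (a (l 16677048) (l 16677120)))))) (a (b (a (b (l 16677384) (a (l 16677288) (l 16677352))) (l 16677512)) (b (l 16677392) (l 16677376))) (l 16677808))) (a (b (l 16676128) (a (l 16675888) (a (l 16675992) (b (l 16676112) (a (l 16676008) (l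 16676080)))))) (a (b (a (b (l 16676360) (a (l 16676256) (l 16676320))) (l 16676488)) (c (l 16676608) (l 16676088))) (l 16676784)))) (c (l 16678848) (l 16677824)))), by decide +kernel⟩

def k75_A00pm_113_s3 : ∃ t, chk3 f_A00pm_113_s3 t 942 8191 7 = true :=
  ⟨(c (b (a (a (a (c (l 16678856) (l 16677808)) (c (a (b (l 16679000) (a (l 16678912) (l 16678976))) (l 16679128)) (a (b (l 16677960) (a (l 16677864) (l 16677928))) (b (l 16678096) (l 16678080))))) (c (l 16679640) (l 16678600))) (c (l 16680864) (l 16679832))) (a (a (a (a (c (l 16678672) (l 16677616)) (c (b (l 16678784) (a (l 16678696) (l 16678760))) (b (l 16677728) (a (l 16677640) (b (l 16677704) (l 16677696)))))) (b (c (l 16679016) (c (l 16678232) (l 16677704))) (c (l 16679008) (l 16677960)))) (c (l 16679624) (l 16678576))) (c (l 16680848) (l 16679816)))) (b (a (c (a (a (l 16676760) (a (b (l 16676912) (a (l 16676816) (c (l 16677144) (l 16676624)))) (c (l 16677304) (l 16676784)))) (l 16677560)) (a (a (l 16675712) (c (a (b (l 16676128) (a (l 16676032)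 (l 16676096))) (l 16676264)) (a (b (l 16675608) (a (l 16675504) (l 16675576))) (b (l 16675752) (l 16675728))))) (l 16676520))) (c (l 16678808) (l 16677776))) (a (b (c (a (a (c (l 16676904) (l 16676376)) (a (c (l 16677080) (l 16676552)) (l 16677024))) (l 16677544)) (a (b (a (l 16675608) (a (a (c (l 16675984) (l 16675456)) (l 16675816)) (l 16675976))) (a (c (l 16675832) (a (l 16675264) (l 16675344))) (l 16675864))) (l 16676496))) (a (a (c (a (l 16676520) (a (c (l 16676848) (l 16676320)) (c (l 16676912) (l 16676384)))) (a (l 16675464) (a (c (l 16675792) (b (l 16675280) (l 16675240))) (b (c (l 16675864) (l 16675336)) (l 16675584))))) (c (l 16676904) (l 16675848))) (c (l 16677528) (l 16676480)))) (c (l 16678776) (c (l 16678008) (l 16677488)))))), by decide +kernel⟩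

def k76_A00pm_113_s3 : ∃ t, chk3 f_A00pm_113_s3 t 943 1023 7 = true :=
  ⟨(b (c (a (a (b (b (c (l 16682328) (l 16681392)) (l 16681800)) (l 16681728)) (l 16682584)) (l 16683792)) (b (a (a (a (b (c (l 16680272) (l 16679336)) (l 16679704)) (l 16680152)) (l 16680768)) (l 16682000)) (c (l 16681520) (l 16680568)))) (c (b (c (l 16683360) (l 16682376)) (a (c (l 16682488) (l 16681480)) (c (l 16684112) (l 16683120)))) (b (c (l 16681400) (l 16677808)) (a (c (l 16680472) (a (l 16679048) (l 16679880))) (c (l 16682128) (l 16681128)))))), by decide +kernel⟩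

def k77_A00pm_113_s3 : ∃ t, chk3 f_A00pm_113_s3 t 118 126 1 = true :=
  ⟨(b (c (a (c (b (l 16696816) (l 16703416)) (b (l 16699368) (l 16705072))) (c (b (l 16711248) (b (l 16697888) (l 16701272))) (b (l 16714056) (b (l 16700016) (l 16697712))))) (a (c (b (l 16723192) (l 16706992)) (b (l 16726344) (c (l 16719096) (l 16720248)))) (c (b (l 16727656) (b (l 16702432) (l 16699648))) (b (c (l 16730192) (l 16731984)) (c (l 16723800) (l 16725088)))))) (c (a (c (b (c (l 16689096) (l 16689424)) (a (l 16690032) (l 16692048))) (b (c (l 16689800) (l 16690240)) (a (l 16695104) (l 16697232)))) (b (c (a (l 16692304) (l 16699656)) (a (l 16693248) (l 16695480))) (a (c (c (l 16709880) (l 16709856)) (l 16699424)) (c (b (a (l 16712296) (c (l 16692640) (l 16692808))) (a (b (l 16711160) (a (l 16710120) (l 16711160))) (l 16713112))) (b (a (l 16712656) (l 16698384)) (a (c (l 16689928) (l 16689936)) (l 16713096))))))) (a (c (b (a (l 16689920) (l 16692136)) (a (l 16695104) (l 16697352))) (b (c (l 16691896) (l 16713528)) (c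 (l 16696368) (l 16707016)))) (b (c (a (l 16694424) (l 16696776)) (c (l 16707136) (l 16718408))) (a (c (l 16699664) (a (l 16688992) (l 16700704))) (c (a (c (l 16701560) (l 16701768)) (b (l 16704248) (l 16713264))) (b (a (l 16713976) (l 16705072)) (a (c (l 16690208) (l 16690384)) (l 16692624))))))))), by decide +kernel⟩

def k78_A00pm_113_s3 : ∃ t, chk3 f_A00pm_113_s3 t 119 126 2 = true :=
  ⟨(a (b (b (c (b (l 16705920) (l 16714480)) (b (l 16709216) (l 16717328))) (a (c (l 16700128) (l 16702224)) (c (b (a (l 16723648) (l 16704040)) (a (l 16701144) (l 16724128))) (b (l 16716352) (a (l 16703104) (l 16726144)))))) (b (a (c (b (a (l 16717872) (l 16703528)) (a (l 16700720) (l 16718520))) (b (a (l 16719264) (l 16699736)) (a (l 16706896) (l 16719520)))) (c (b (l 16701536) (l 16722240)) (c (l 16702320) (l 16703024)))) (a (c (b (l 16701320) (l 16716960)) (b (l 16707080) (l 16717048))) (c (l 16722008) (l 16722448))))) (b (b (a (c (b (l 16719840) (c (l 16712552) (l 16708744))) (b (l 16723344) (l 16721536)))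 (c (l 16723144) (l 16726480))) (a (c (a (l 16711080) (l 16729096)) (a (l 16708136) (l 16731432))) (c (l 16732560) (l 16734960)))) (c (b (l 16719088) (l 16718848)) (b (b (l 16710408) (l 16709736)) (l 16719464))))), by decide +kernel⟩

def k79_A00pm_113_s3 : ∃ t, chk3 f_A00pm_113_s3 t 119 126 3 = true :=
  ⟨(b (a (b (c (b (l 16712840) (l 16720472)) (c (l 16735120) (l 16737048))) (a (c (l 16704592) (l 16728200)) (c (b (l 16719088) (c (l 16705864) (l 16707056))) (b (l 16732592) (c (l 16708312) (l 16709632)))))) (b (c (a (b (l 16727168) (l 16724864)) (a (l 16718592) (l 16741808))) (a (b (l 16741808) (l 16738992)) (b (l 16745720) (l 16743560)))) (c (b (c (l 16714192) (l 16715696)) (l 16724080)) (a (c (l 16713936) (l 16736400)) (l 16740560))))) (a (b (c (a (b (a (l 16720888) (l 16701424)) (c (l 16708896) (l 16709544))) (c (l 16703792) (l 16704608))) (a (b (a (l 16722752) (l 16713832)) (c (l 16710240) (l 16711000))) (c (l 16705488) (l 16706424)))) (c (a (c (l 16707128) (l 16707416)) (l 16702088)) (a (c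 (l 16707752) (l 16708136)) (l 16713376)))) (c (b (c (l 16711304) (l 16712200)) (c (l 16709560) (l 16710000))) (b (c (l 16713152) (l 16735136)) (c (l 16710488) (l 16732000)))))), by decide +kernel⟩

def k80_A00pm_113_s3 : ∃ t, chk3 f_A00pm_113_s3 t 118 254 2 = true :=
  ⟨(a (b (b (a (c (l 16703296) (l 16702456)) (c (l 16705336) (l 16704608))) (c (a (l 16701712) (c (l 16704088) (l 16703472))) (c (a (l 16700744) (l 16702880)) (a (l 16700136) (l 16702328))))) (a (b (c (c (l 16700632) (l 16699752)) (c (l 16698888) (l 16698056))) (c (c (l 16699272) (l 16698168)) (c (l 16697096) (l 16696040)))) (c (b (a (l 16701744) (a (b (l 16702904) (a (l 16702072) (l 16702496))) (b (l 16703584) (l 16703400)))) (a (b (a (l 16700384) (b (l 16701128) (l 16700928))) (a (b (l 16699888) (l 16699696)) (l 16700912))) (b (l 16702832) (l 16702984)))) (b (a (l 16700104) (b (c (l 16702160) (l 16701456)) (c (a (l 16701032) (l 16702136)) (l 16685080)))) (c (a (a (b (l 16698888) (l 16698168)) (b (l 16699592) (l 16699296))) (l 16701400))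 (a (a (b (l 16697920) (l 16697096)) (b (l 16698640) (l 16698240))) (l 16700432))))))) (b (a (c (b (a (l 16706912) (a (b (l 16708112) (l 16707464)) (b (l 16708784) (l 16708520)))) (b (a (a (l 16705480) (l 16706160)) (l 16707880)) (a (a (l 16704864) (l 16705936)) (l 16707944)))) (b (a (l 16706272) (b (l 16692272) (l 16691608))) (a (b (l 16689144) (a (l 16703656) (l 16704760))) (l 16691168)))) (c (b (b (l 16696056) (l 16711808)) (l 16711880)) (b (b (l 16695680) (l 16711232)) (l 16711000)))) (a (c (b (b (a (l 16705328) (l 16708024)) (l 16706792)) (l 16707008)) (b (c (l 16689880) (l 16689184)) (l 16702544))) (c (a (l 16710888) (l 16713552)) (b (l 16710800) (l 16710736)))))), by decide +kernel⟩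

def k81_A00pm_113_s3 : ∃ t, chk3 f_A00pm_113_s3 t 118 254 3 = true :=
  ⟨(a (b (c (a (a (l 16689480) (l 16690592)) (b (l 16693544) (l 16691080))) (a (c (l 16678944) (l 16678592)) (c (l 16681296) (l 16681000)))) (a (c (c (l 16685632) (a (l 16684176) (l 16685320))) (c (a (l 16683296) (l 16684464)) (b (l 16695008) (l 16681560)))) (c (c (b (a (l 16698952) (a (l 16684184) (l 16685144))) (a (a (b (l 16696984) (l 16696040)) (c (l 16682016) (l 16681528))) (l 16699488))) (b (a (l 16698216) (b (l 16689640) (l 16688776))) (a (b (l 16685984) (l 16685160)) (l 16698560)))) (b (a (l 16686680) (c (b (l 16678536) (l 16688040)) (b (l 16677944) (l 16687328)))) (a (b (c (l 16685096) (l 16684232)) (a (c (l 16683504) (l 16682520)) (l 16684232))) (c (l 16687176) (l 16686296))))))) (b (a (c (b (a (l 16705776) (c (l 16696912) (l 16696736))) (a (b (l 16693552) (l 16692704)) (l 16695536))) (b (a (l 16705440) (c (l 16696600) (l 16696496))) (a (c (l 16692568) (l 16692192)) (l 16694792)))) (c (c (l 16700200) (l 16699968))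 (b (a (l 16698920) (l 16712248)) (l 16688656)))) (c (a (b (c (l 16693752) (l 16693112)) (l 16692928)) (a (l 16697472) (l 16700312))) (a (b (c (l 16692496) (l 16691912)) (b (l 16691488) (l 16691048))) (c (l 16687456) (l 16697328)))))), by decide +kernel⟩

def k82_A00pm_113_s3 : ∃ t, chk3 f_A00pm_113_s3 t 236 510 2 = true :=
  ⟨(a (c (b (a (c (l 16697456) (l 16696128)) (a (b (l 16697920) (b (l 16697440) (a (l 16696976) (l 16697496)))) (b (b (l 16698656) (a (l 16698192) (l 16698704))) (l 16698488)))) (a (b (a (l 16695504) (b (a (l 16696064) (l 16696376)) (a (l 16695784) (l 16696296)))) (a (a (c (l 16695552) (l 16693952)) (b (c (l 16695976) (l 16694408)) (l 16695120))) (c (l 16696904) (l 16695336)))) (b (c (l 16698720) (l 16697280)) (l 16698248)))) (b (c (a (l 16694824) (a (b (l 16696056) (b (l 16695456) (l 16695208))) (b (b (l 16696856) (l 16696592)) (l 16696504)))) (a (l 16693528) (a (b (l 16694840) (b (l 16694160) (l 16693856))) (b (b (l 16695680) (l 16695368)) (l 16695200))))) (a (a (c (b (l 16693288)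 (b (l 16692704) (a (l 16692176) (l 16692712)))) (b (l 16691824) (b (l 16691160) (a (l 16690576) (l 16691120))))) (c (b (b (l 16694072) (a (l 16693536) (l 16694072))) (l 16693776)) (b (b (l 16692648) (a (l 16692056) (l 16692600))) (l 16692232)))) (b (c (l 16695856) (l 16694440)) (l 16695216))))) (a (c (b (b (a (l 16699696) (l 16701088)) (l 16700592)) (l 16700944)) (b (b (a (l 16697296) (l 16698736)) (l 16698032)) (c (l 16698808) (l 16697400)))) (c (c (l 16704144) (l 16702848)) (c (l 16701576) (l 16700312))))), by decide +kernel⟩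

def k83_A00pm_113_s3 : ∃ t, chk3 f_A00pm_113_s3 t 236 510 3 = true :=
  ⟨(a (c (b (a (c (l 16692256) (l 16691000)) (a (b (l 16693056) (a (c (l 16692464) (l 16691168)) (b (l 16692400) (l 16692112)))) (c (b (b (l 16694528) (l 16694160)) (l 16693920)) (b (b (l 16693392) (l 16692968)) (l 16692648))))) (a (a (b (c (l 16690376) (l 16688944)) (c (b (l 16689624) (a (l 16688984) (l 16689544))) (b (a (l 16687920) (l 16688264)) (a (l 16687400) (l 16687968))))) (b (c (b (l 16691248) (a (l 16690592) (l 16691144))) (b (l 16689848) (a (l 16689136) (l 16689704)))) (c (l 16690696) (l 16689168)))) (a (b (c (l 16692296) (l 16690896)) (l 16691456)) (b (l 16693112) (l 16692984))))) (c (b (a (l 16689768) (b (a (l 16691312) (l 16681584)) (a (l 16679680) (l 16691392)))) (a (b (a (l 16687520) (a (l 16677512) (l 16678000))) (a (b (l 16676112) (b (l 16675728) (l 16675552))) (l 16677168))) (b (l 16679808) (l 16690008)))) (b (a (l 16688544) (b (a (l 16690168) (l 16680464)) (a (c (l 16678736) (l 16678112)) (l 16690160))))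 (a (b (a (l 16686112) (a (l 16676120) (l 16676608))) (a (b (l 16674616) (a (l 16673784) (l 16684864))) (l 16675664))) (b (l 16678448) (l 16688552)))))) (c (b (a (c (b (l 16696288) (l 16696152)) (l 16684544)) (l 16698600)) (c (l 16697512) (l 16685672))) (b (a (c (l 16683376) (l 16682232)) (l 16685896)) (c (l 16684328) (l 16683000))))), by decide +kernel⟩

def k84_A00pm_113_s3 : ∃ t, chk3 f_A00pm_113_s3 t 237 510 1 = true :=
  ⟨(c (b (c (c (l 16694952) (l 16693872)) (c (l 16692816) (l 16697016))) (c (c (l 16695576) (l 16694328)) (c (l 16693088) (l 16697112)))) (c (c (b (l 16695992) (l 16695896)) (a (l 16691848) (l 16697752))) (a (c (l 16690712) (c (l 16689872) (l 16689312))) (c (l 16696720) (l 16695696))))), by decide +kernel⟩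

def k85_A00pm_113_s3 : ∃ t, chk3 f_A00pm_113_s3 t 118 1022 1 = true :=
  ⟨(a (c (a (a (c (b (a (c (l 16695800) (l 16694112)) (l 16696384)) (l 16695968)) (b (a (c (l 16692432) (b (l 16690760) (l 16690776))) (l 16693088)) (c (l 16693336) (l 16691584)))) (c (c (l 16699512) (l 16697848)) (c (l 16696192) (l 16694552)))) (c (c (l 16703728) (l 16702152)) (c (l 16700584) (l 16699024)))) (c (a (a (b (a (b (c (l 16689120) (l 16687496)) (l 16688256)) (a (l 16689432) (l 16690208))) (c (l 16689848) (l 16688112))) (c (l 16692912) (l 16691288))) (c (a (l 16695952) (l 16698968)) (l 16685440))) (a (a (c (b (c (l 16676520) (l 16675712)) (l 16686384)) (b (a (b (l 16673784) (l 16684088)) (l 16685792)) (l 16674176))) (c (l 16679176) (b (l 16688208) (l 16687904)))) (c (b (l 16694480) (l 16683824)) (b (l 16682512) (l 16682248)))))) (c (c (c (l 16696320) (l 16694904)) (c (a (l 16706360) (l 16712048)) (l 16697344))) (c (c (c (l 16696304) (l 16695616)) (c (l 16694920) (l 16694240))) (a (c (l 16690120) (l 16688704)) (c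 (l 16706728) (l 16694936)))))), by decide +kernel⟩

def k86_A00pm_113_s3 : ∃ t, chk3 f_A00pm_113_s3 t 118 1023 1 = true :=
  ⟨(c (a (a (a (c (c (l 16697408) (l 16695528)) (b (c (l 16693528) (l 16691696)) (c (l 16693760) (l 16691832)))) (c (b (l 16699168) (l 16699536)) (c (l 16696616) (l 16694792)))) (b (c (c (l 16704312) (l 16702608)) (c (l 16700912) (l 16699224))) (c (c (l 16704736) (l 16702960)) (c (l 16701176) (l 16699400))))) (a (c (a (l 16707896) (l 16710712)) (c (l 16706880) (l 16705256))) (c (l 16714888) (b (l 16711728) (l 16712016))))) (a (b (c (c (a (a (l 16689864) (l 16692944)) (l 16697536)) (a (b (l 16679136) (l 16679112)) (l 16685368))) (a (c (c (l 16677776) (a (l 16685752) (l 16688968))) (a (a (l 16683568) (l 16685208)) (l 16677168))) (c (l 16683696) (a (l 16690896) (l 16694112))))) (b (c (c (a (a (l 16689896) (l 16692992)) (l 16697600)) (a (a (l 16688000) (l 16691152)) (l 16695856))) (a (a (c (l 16683480) (c (l 16684688) (l 16683736))) (c (l 16689320) (l 16687488))) (c (l 16683624)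 (a (l 16690744) (l 16693984))))) (c (c (a (a (l 16689928) (l 16693032)) (l 16697664)) (a (a (b (l 16687992) (l 16687984)) (l 16691152)) (a (l 16694304) (l 16697424)))) (c (c (a (a (l 16686536) (l 16689744)) (l 16694528)) (a (a (l 16685560) (l 16688808)) (l 16683144))) (a (a (c (l 16684592) (a (l 16682792) (l 16684448))) (c (l 16687864) (l 16686928))) (a (a (l 16689848) (l 16691480)) (l 16693912))))))) (a (c (c (a (l 16702136) (l 16705144)) (l 16691552)) (b (c (l 16700456) (l 16688416)) (c (l 16689928) (b (l 16688312) (l 16688256))))) (c (c (l 16709616) (l 16708120)) (c (l 16696152) (l 16694664)))))), by decide +kernel⟩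

def k87_A00pm_113_s3 : ∃ t, chk3 f_A00pm_113_s3 t 119 127 1 = true :=
  ⟨(b (c (a (c (b (c (l 16704000) (l 16703736)) (c (l 16704712) (l 16704080))) (b (c (l 16708752) (l 16708560)) (a (l 16700480) (l 16705824)))) (c (b (a (l 16727096) (l 16731960)) (a (l 16727752) (l 16732704))) (b (l 16718904) (c (l 16708616) (l 16708192))))) (a (c (b (a (l 16705624) (l 16711008)) (a (l 16704520) (l 16710032))) (b (c (l 16708200) (l 16718640)) (a (b (l 16703848) (l 16703040)) (a (l 16707696) (l 16710504))))) (c (b (c (l 16708384) (l 16718888)) (a (l 16715432) (l 16710216))) (b (a (l 16716320) (l 16721592)) (a (l 16714672) (l 16720096)))))) (b (c (b (a (c (l 16705096) (l 16708600)) (c (l 16710128) (l 16719232))) (a (c (l 16705728) (l 16708896)) (c (l 16710856) (l 16719640)))) (a (c (a (b (l 16714576) (l 16704008)) (l 16709688)) (a (c (l 16702624) (l 16701696)) (b (l 16708200) (l 16707824)))) (c (a (l 16715216) (l 16720616)) (a (c (l 16724568) (l 16713344)) (a (l 16717904) (l 16720664)))))) (c (a (c (c (l 16707568)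 (l 16706288)) (a (b (l 16717024) (l 16717576)) (l 16707136))) (c (c (l 16712736) (l 16716904)) (c (l 16721080) (l 16720024)))) (a (c (b (c (l 16707568) (l 16706400)) (c (l 16707920) (l 16706592))) (a (c (l 16702240) (b (l 16711552) (l 16700872))) (c (l 16708184) (l 16707008)))) (c (a (l 16715640) (l 16721184)) (a (c (l 16714016) (l 16712936)) (c (l 16719712) (l 16718736)))))))), by decide +kernel⟩

def k88_A00pm_113_s3 : ∃ t, chk3 f_A00pm_113_s3 t 30 14 1 = true :=
  ⟨(b (l 6) (a (b (l 6) (c (a (l 16778728) (l 16753472)) (a (l 16633080) (l 16695888)))) (a (b (a (l 6) (b (l 6) (c (l 16708000) (l 16675320)))) (c (b (l 16722272) (l 16732328)) (b (a (l 16733472) (l 16780080)) (l 16743848)))) (b (c (b (a (c (l 16767440) (l 16694304)) (c (l 16754712) (l 16764272))) (a (b (a (l 16780328) (l 16773616)) (l 16696256)) (c (b (l 16758952) (l 16761864)) (b (l 16768992) (l 16772008))))) (b (a (a (l 6) (c (l 16692216) (l 16644840))) (c (l 16718936) (l 16668448))) (a (b (c (l 16759464) (l 16663000)) (a (l 16731904)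 (l 16670200))) (b (c (l 16779680) (l 16659024)) (c (a (l 16786416) (l 16779376)) (a (l 16702784) (l 16724440))))))) (a (b (c (c (l 16781624) (l 16790288)) (c (l 16799512) (l 16752592))) (c (l 16711784) (c (l 16806680) (l 16814584)))) (b (c (b (c (l 16765360) (l 16775280)) (c (l 16769680) (l 16737088))) (a (b (c (l 16789096) (l 16760064)) (l 16713224)) (b (c (l 16782720) (a (l 16778672) (l 16791056))) (c (l 16785984) (l 16754880))))) (c (b (l 16758192) (l 16742576)) (c (l 16752552) (a (l 16806368) (l 16716976)))))))))), by decide +kernel⟩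

def k89_A00pm_113_s3 : ∃ t, chk3 f_A00pm_113_s3 t 62 28 1 = true :=
  ⟨(b (a (l 6) (l 6)) (a (b (l 6) (c (a (c (l 16736984) (l 16744344)) (c (l 16725536) (l 16731304))) (a (c (l 16651968) (l 16523624)) (c (l 16683424) (l 16634896))))) (c (b (a (c (l 16708280) (l 16711896)) (c (l 16698072) (l 16679080))) (a (c (l 16714856) (l 16719000)) (c (b (l 16703272) (l 16706720)) (b (l 16705632) (l 16709328))))) (b (a (c (l 16613552) (l 16486976)) (c (b (l 16616480) (l 16667520)) (b (l 16488352) (l 16534336)))) (a (c (l 16716696) (b (l 16555320) (l 16605568))) (c (b (l 16708320) (l 16712272)) (b (l 16584128) (l 16638120)))))))), by decide +kernel⟩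

def k90_A00pm_113_s3 : ∃ t, chk3 f_A00pm_113_s3 t 126 28 1 = true :=
  ⟨(b (c (b (b (l 6) (a (l 6) (c (l 16666696) (l 16656184)))) (a (c (b (l 16679528) (l 16683216)) (b (l 16668864) (l 16683216))) (c (b (l 16660088) (a (l 16676560) (l 16630448))) (b (a (l 16671312) (l 16666248)) (a (l 16675344) (l 16670360)))))) (a (b (l 6) (c (b (l 16547344) (l 16594040)) (b (l 16424792) (l 16466768)))) (b (a (l 6) (c (b (l 6) (l 16530224)) (l 16471688))) (c (a (b (l 16564808) (l 16613752)) (b (l 16576944) (l 16627456))) (b (l 16528296) (a (l 16483392) (l 16494944))))))) (a (c (b (c (b (l 16686880) (l 16690520)) (b (l 16687104) (l 16690976))) (c (b (l 16673168) (l 16676784)) (b (l 16694832) (l 16698672)))) (b (c (b (l 16644472) (l 16691688)) (b (l 16512168) (l 16645240))) (c (b (l 16695776) (l 16678880)) (b (l 16656656) (a (l 16663880) (l 16681736)))))) (c (b (c (b (a (l 16680344) (l 16655288)) (a (l 16684112) (l 16659136))) (b (a (l 16679344) (l 16674440)) (a (l 16683328) (l 16657520)))) (c (b (c (l 16665168)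 (l 16664624)) (a (l 16670624) (l 16666776))) (b (a (l 16645352) (l 16661560)) (a (l 16670272) (l 16676064))))) (b (c (b (a (l 16666696) (l 16672768)) (a (l 16682744) (l 16677040))) (b (a (l 16531064) (l 16628064)) (a (l 16582776) (l 16681528)))) (c (b (a (l 16686928) (l 16681288)) (a (l 16691096) (l 16685520))) (b (a (l 16638976) (l 16655824)) (a (l 16691152) (c (l 16684856) (l 16679864))))))))), by decide +kernel⟩

def k91_A00pm_113_s3 : ∃ t, chk3 f_A00pm_113_s3 t 254 56 1 = true :=
  ⟨(c (b (c (a (b (l 16656392) (l 16639472)) (b (l 30) (a (l 16636536) (l 16645136)))) (a (b (l 16616096) (l 16657200)) (l 30))) (c (a (b (l 16643488) (l 16657952)) (b (b (l 16649152) (l 16651192)) (b (l 16653232) (l 16655256)))) (a (b (l 16661416) (l 16665600)) (b (l 30) (b (l 30) (l 16651656)))))) (c (b (a (b (l 16496768) (l 16625240)) (b (c (l 30) (l 16476584)) (l 30))) (a (b (l 16631464) (l 16652136)) (l 30))) (b (b (a (l 16376864) (l 16385248)) (a (l 16416824) (l 16510288))) (a (b (l 16543944) (c (l 16540656)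 (l 16473112))) (b (c (l 30) (l 16437984)) (l 30)))))), by decide +kernel⟩

def k92_A00pm_113_s3 : ∃ t, chk3 f_A00pm_113_s3 t 510 56 2 = true :=
  ⟨(b (c (c (b (l 30) (b (l 16642592) (l 16644672))) (l 30)) (l 30)) (c (b (a (c (l 16648592) (l 16646360)) (b (c (l 16656416) (l 16653968)) (c (l 16658488) (l 16656080)))) (b (a (l 16650584) (c (l 16660552) (l 16658192))) (a (l 16652640) (c (l 16662608) (l 16660296))))) (b (l 30) (b (l 30) (a (l 16648432) (c (l 16647504) (l 30))))))), by decide +kernel⟩

def k93_A00pm_113_s3 : ∃ t, chk3 f_A00pm_113_s3 t 511 112 2 = true :=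
  ⟨(a (c (b (l 30) (c (b (b (l 16639608) (l 16640664)) (c (l 16642920) (l 16641576))) (l 30))) (l 30)) (c (b (l 30) (a (c (c (b (b (l 16649632) (l 16650696)) (b (l 16651752) (l 16652808))) (b (l 30) (b (l 30) (l 16651400)))) (l 30)) (a (c (b (c (b (l 16649072) (l 16650136)) (l 30)) (c (b (l 16651200) (l 16652256)) (b (l 30) (l 16650816)))) (l 30)) (c (b (b (b (l 30) (c (c (l 16649344) (l 30)) (l 30))) (c (b (c (l 16649880) (l 30)) (c (l 16650408) (l 16649664))) (l 30))) (b (c (b (c (l 16650936) (l 16650200)) (b (l 16650968) (l 16651232))) (l 30)) (c (a (c (l 16652352) (l 16651624)) (b (l 16651544) (l 16652072))) (c (b (l 16650528) (l 16651064)) (l 30))))) (l 30))))) (l 30))), by decide +kernel⟩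

def k94_A00pm_113_s3 : ∃ t, chk3 f_A00pm_113_s3 t 1022 113 4 = true :=
  ⟨(b (c (c (b (a (l 16655872) (l 16655120)) (a (l 16657952) (l 16657208))) (b (l 16643688) (l 16645792))) (c (b (l 16642368) (l 16644496)) (l 30))) (c (a (b (l 16659392) (l 16661464)) (b (c (l 16659288) (l 16657992)) (c (l 16661360) (l 16660080)))) (b (c (l 16646608) (l 16645336)) (c (l 16648720) (l 16647464))))), by decide +kernel⟩

def k95_A00pm_113_s3 : ∃ t, chk3 f_A00pm_113_s3 t 1023 226 4 = true :=
  ⟨(a (c (b (b (c (l 16653864) (l 16652464)) (b (l 16651336) (l 16654480))) (c (b (l 16655960) (l 16657008)) (b (l 16654584) (l 16655640)))) (c (b (b (l 30) (l 16652136)) (b (l 16653208) (l 16654280))) (l 30))) (a (c (b (b (c (l 16653320) (l 16651880)) (c (l 16654376) (l 16652952))) (b (c (l 16655424) (l 16654016)) (c (l 16656480) (l 16655072)))) (c (b (b (l 30) (a (l 16651624) (l 16651424))) (b (l 16652600) (l 16653672))) (l 30))) (c (b (b (c (a (l 16653048) (c (l 16653232) (l 16652504))) (b (c (l 16651600) (l 16650864)) (c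 (l 16652128) (l 16651400)))) (c (a (l 16654104) (c (l 16654288) (l 16653568))) (b (c (l 16652664) (l 16651936)) (b (l 16652704) (l 16652968))))) (b (c (b (l 16654808) (l 16655336)) (b (b (l 16653240) (l 16653504)) (a (l 16654000) (l 16653808)))) (c (b (l 16655864) (l 16656392)) (a (l 16654792) (c (l 16654968) (l 16654248)))))) (b (b (l 30) (b (l 30) (c (c (l 16651752) (l 30)) (l 30)))) (c (c (b (b (l 16652288) (l 16652824)) (b (l 16653360) (l 16653896))) (b (l 30) (b (l 16652648) (l 16653184)))) (l 30)))))), by decide +kernel⟩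

def k96_A00pm_113_s3 : ∃ t, chk3 f_A00pm_113_s3 t 1023 227 4 = true :=
  ⟨(a (b (c (c (b (l 16658056) (l 16659096)) (b (l 16656696) (l 16657752))) (b (c (l 16655344) (l 16653992)) (c (l 16656408) (l 16655064)))) (b (c (c (l 16660136) (l 16658808)) (c (l 16657472) (l 16656136))) (c (c (l 16661176) (l 16659856)) (c (l 16658528) (l 16657208))))) (c (a (b (b (c (l 16657528) (l 16656136)) (c (l 16658576) (l 16657192))) (b (c (l 16659616) (l 16658248)) (c (l 16660656) (l 16659304)))) (b (b (c (c (l 16657528) (l 16656824)) (a (l 16655856) (c (l 16656024) (l 16655312)))) (c (c (l 16658576) (l 16657880)) (c (l 16657176) (l 16656472)))) (b (c (c (l 16659624) (l 16658928)) (c (l 16658232) (l 16657528))) (c (c (l 16660664) (l 16659976)) (c (l 16659280) (l 16658592)))))) (a (b (c (b (l 16654744) (l 16655808)) (b (a (l 16653456) (l 16653248)) (a (l 16654536) (l 16654328)))) (b (c (l 16656880) (l 16655512)) (c (l 16657944) (l 16656584)))) (b (a (b (c (c (l 16654800) (l 16654096)) (c (l 16653392) (l 30))) (c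 (c (l 16655864) (l 16655168)) (c (l 16654464) (l 16653768)))) (b (c (c (b (l 16654336) (l 16654872)) (b (l 16653624) (l 16654160))) (c (b (l 16652912) (l 16653456)) (l 30))) (c (c (l 16655672) (b (l 16654696) (l 16655240))) (c (b (l 16653992) (l 16654536)) (b (l 30) (l 16653832)))))) (b (c (c (a (l 16656928) (l 16656736)) (a (l 16656240) (l 16656040))) (b (c (l 16655176) (l 16654472)) (c (l 16655712) (l 16655016)))) (c (c (l 16657896) (a (l 16657304) (l 16657112))) (b (c (l 16656248) (l 16655552)) (b (l 16656304) (l 16656576))))))))), by decide +kernel⟩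

def k97_A00pm_113_s3 : ∃ t, chk3 f_A00pm_113_s3 t 511 113 5 = true :=
  ⟨(a (b (l 30) (c (b (l 30) (c (l 16646216) (l 30))) (l 30))) (c (c (c (b (l 30) (b (l 30) (a (b (l 16655136) (l 16656216)) (b (a (l 16654480) (b (l 30) (l 16654320))) (a (l 16655568) (b (l 16654864) (l 16655408))))))) (l 30)) (l 30)) (l 30))), by decide +kernel⟩

def k98_A00pm_113_s3 : ∃ t, chk3 f_A00pm_113_s3 t 255 56 3 = true :=
  ⟨(c (l 30) (b (c (a (b (l 16424912) (l 16552408)) (b (b (l 16423808) (l 16529264)) (l 30))) (b (a (l 16363040) (l 16371688)) (a (l 16404176) (a (l 16411544) (l 16416576))))) (a (b (c (l 30) (l 16532672)) (l 30)) (l 30)))), by decide +kernel⟩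

def k99_A00pm_113_s3 : ∃ t, chk3 f_A00pm_113_s3 t 254 57 1 = true :=
  ⟨(c (b (c (b (a (l 16661912) (b (l 16657280) (l 16659288))) (a (b (l 16654384) (l 16656344)) (a (l 16663160) (c (l 16651832) (l 16650080))))) (b (a (l 16669752) (c (l 16655672) (l 16653960))) (a (c (l 16653512) (l 16652320)) (c (l 16659824) (a (l 16669832) (l 16646624)))))) (c (b (a (b (l 16658296) (l 16660248)) (a (a (l 16657072) (l 16661464)) (b (l 16659216) (l 16661208)))) (a (b (l 16662192) (l 16664136)) (b (a (l 16680584) (l 16663200)) (b (l 16665504) (l 16666496))))) (b (a (c (l 16657568) (l 16656480)) (c (a (l 16675456) (l 16662976)) (c (l 16662816) (l 16662064)))) (a (c (l 16661608) (l 16660624)) (c (c (l 16668432) (l 16667712)) (b (l 16655128) (l 16657232))))))) (a (a (b (c (b (l 16668600) (l 16672920)) (b (l 16554320) (l 16609144))) (c (b (l 16677216) (l 16660528)) (b (l 16668848) (l 16679944)))) (b (l 30) (c (b (l 16674568) (l 16668392)) (l 30)))) (b (l 30) (c (b (c (b (l 16649400) (l 16651552)) (l 30)) (c (a (l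 16655984) (l 16664080)) (a (l 16654720) (l 16662600)))) (l 30))))), by decide +kernel⟩

def k100_A00pm_113_s3 : ∃ t, chk3 f_A00pm_113_s3 t 510 57 2 = true :=
  ⟨(b (c (c (b (a (b (l 16666216) (l 16668232)) (b (l 16664656) (l 16666696))) (a (b (l 16670248) (l 16672256)) (b (l 16668728) (l 16670760)))) (b (a (l 16654680) (a (l 16653368) (b (l 16661960) (l 16664048)))) (a (l 16658800) (b (a (l 16666976) (l 16666136)) (a (l 16669040) (l 16668208)))))) (b (a (c (l 16652648) (l 16650624)) (c (b (l 16649640) (l 16651776)) (b (l 30) (l 16649568)))) (a (c (l 16656856) (a (l 16644992) (l 16654400))) (c (b (l 16653896) (l 16656016)) (b (l 16651744) (l 16653904)))))) (b (c (b (a (c (l 16674256) (l 16672368)) (c (l 16672776) (a (l 16671104) (l 16670280)))) (a (c (l 16676248) (l 16674408)) (c (l 16674792) (a (l 16673160) (l 16672344))))) (c (b (a (l 16670496) (l 16658128)) (b (l 16660632) (l 16661680))) (a (a (l 16659744) (l 16658688)) (b (l 16656064) (l 16658216))))) (c (b (a (c (l 16678232) (l 16676440)) (c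 (l 16676800) (a (l 16675208) (l 16674408)))) (a (c (l 16680216) (l 16678472)) (c (l 16678800) (a (l 16677256) (l 16676456))))) (c (a (b (l 16674664) (l 16676744)) (b (a (l 16673280) (l 16672368)) (a (l 16675368) (l 16674472)))) (a (a (l 16664000) (l 16662960)) (b (l 16660360) (l 16662504))))))), by decide +kernel⟩

def k101_A00pm_113_s3 : ∃ t, chk3 f_A00pm_113_s3 t 1022 114 4 = true :=
  ⟨(b (b (c (a (l 16663528) (c (l 16663424) (l 16662168))) (a (l 16661112) (c (l 16660912) (l 16659656)))) (c (a (l 16665584) (c (l 16665480) (l 16664240))) (a (l 16663216) (c (l 16663008) (l 16661776))))) (b (c (a (l 16667632) (c (l 16667528) (l 16666312))) (a (l 16665304) (c (l 16665096) (l 16663888)))) (c (a (l 16669672) (c (l 16669568) (l 16668376))) (a (l 16667392) (c (l 16667184) (l 16665992)))))), by decide +kernel⟩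

def k102_A00pm_113_s3 : ∃ t, chk3 f_A00pm_113_s3 t 1023 228 4 = true :=
  ⟨(a (b (c (c (b (l 16662216) (l 16663248)) (b (l 16660904) (l 16661944))) (c (b (l 16659592) (l 16660648)) (b (l 16658280) (l 16659344)))) (c (c (b (l 16664280) (l 16665312)) (b (l 16662992) (l 16664032))) (c (b (l 16661704) (l 16662752)) (b (l 16660408) (l 16661472))))) (c (b (c (b (b (l 16661272) (l 16661792)) (b (l 16662312) (l 16662832))) (b (a (l 16660352) (c (l 16660336) (l 16659648))) (a (l 16661400) (c (l 16661384) (l 16660704))))) (c (b (a (l 16663776) (l 16663440)) (a (l 16664808) (l 16664480))) (b (c (l 16662600) (l 16661936)) (b (l 16663056) (l 16663576))))) (a (b (b (c (l 16659000) (l 16657656)) (c (l 16660064) (l 16658728))) (b (c (l 16661120) (l 16659800)) (c (l 16662176) (l 16660864)))) (b (b (c (b (l 16658352) (l 16658888)) (b (b (l 16656840) (l 16657112)) (a (l 16657616) (l 16657416)))) (c (c (l 16660024) (l 16659344)) (c (a (l 16658760) (l 16658560)) (a (l 16658080) (l 16657872))))) (b (c (c (l 16661080)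 (l 16660400)) (c (l 16659728) (a (l 16659152) (l 16658952)))) (c (c (l 16662136) (l 16661464)) (c (l 16660792) (a (l 16660224) (l 16660024))))))))), by decide +kernel⟩

def k103_A00pm_113_s3 : ∃ t, chk3 f_A00pm_113_s3 t 1023 229 4 = true :=
  ⟨(a (b (c (c (b (l 16666344) (l 16667368)) (b (l 16665072) (l 16666112))) (c (b (l 16663808) (l 16664856)) (b (l 16662536) (l 16663600)))) (c (c (b (l 16668392) (l 16669416)) (b (l 16667144) (l 16668184))) (c (b (l 16665904) (l 16666944)) (b (l 16664656) (l 16665712))))) (c (b (c (b (a (l 16665840) (l 16665512)) (a (l 16666872) (l 16666544))) (b (b (l 16664104) (l 16664624)) (a (l 16665576) (l 16665232)))) (b (c (a (l 16667904) (l 16667576)) (a (l 16666616) (l 16666272))) (c (a (l 16668928) (l 16668608)) (a (l 16667656) (l 16667312))))) (b (c (b (a (l 16663232) (c (l 16663192) (l 16662528))) (a (l 16664288) (c (l 16664240) (l 16663584)))) (b (a (l 16661928) (c (l 16661856) (l 16661192))) (a (l 16662992) (c (l 16662920) (l 16662264))))) (c (b (b (l 16664888)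 (l 16665416)) (b (l 16665936) (l 16666464))) (b (a (l 16664056) (c (l 16663984) (l 16663328))) (a (l 16665112) (c (l 16665048) (l 16664400)))))))), by decide +kernel⟩

def k104_A00pm_113_s3 : ∃ t, chk3 f_A00pm_113_s3 t 1022 114 5 = true :=
  ⟨(b (c (c (b (a (l 16659304) (l 16658400)) (a (l 16661440) (l 16660544))) (b (a (l 16658104) (l 16657144)) (a (l 16660256) (l 16659312)))) (b (l 30) (a (l 16648008) (b (l 30) (l 16647528))))) (c (b (a (l 16652504) (b (l 16661536) (l 16662608))) (a (c (l 16665688) (l 16664552)) (c (l 16664808) (l 16663624)))) (b (a (l 16650192) (b (l 16648624) (l 16649720))) (a (l 16652368) (b (l 16650816) (l 16651904)))))), by decide +kernel⟩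

def k105_A00pm_113_s3 : ∃ t, chk3 f_A00pm_113_s3 t 1023 228 5 = true :=
  ⟨(a (b (c (b (c (l 16656968) (l 30)) (c (l 16658048) (l 16656752))) (l 30)) (c (b (c (l 16659120) (l 16657840)) (c (l 16660200) (l 16658920))) (b (l 30) (c (l 16657648) (l 30))))) (b (b (c (c (a (c (l 16656648) (l 16655976)) (b (c (l 16655944) (l 16655256)) (c (l 16656488) (l 16655800)))) (l 30)) (l 30)) (c (a (c (c (l 16657728) (l 16657056)) (c (l 16656392) (l 30))) (c (b (c (l 16657032) (l 16656344)) (c (l 16657568) (l 16656888))) (c (b (l 16655664) (l 16656208)) (l 30)))) (l 30))) (a (b (c (c (l 16658472) (c (l 16657480) (l 16656816))) (l 30)) (c (c (l 16659552) (c (l 16658560) (l 16657904))) (c (c (l 16657248) (l 30)) (l 30)))) (b (c (c (b (c (l 16658112) (l 16657432)) (c (l 16658648) (l 16657976))) (b (c (l 16656752) (l 30)) (c (l 16657304) (l 16656624)))) (l 30)) (c (c (b (b (l 16658720) (l 16658984)) (a (l 16659496) (l 16659288))) (b (c (l 16657848) (l 16657176)) (c (l 16658392) (l 16657720)))) (c (c (a (l 16656896)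 (b (l 30) (l 16656936))) (l 30)) (l 30))))))), by decide +kernel⟩

def k106_A00pm_113_s3 : ∃ t, chk3 f_A00pm_113_s3 t 1023 229 5 = true :=
  ⟨(a (c (b (b (c (l 16661272) (l 16660008)) (c (l 16662344) (l 16661088))) (c (b (l 16663408) (l 16664480)) (b (l 16662168) (l 16663248)))) (b (c (b (l 16658744) (l 16659832)) (l 30)) (c (b (l 16660928) (l 16662016)) (b (l 16659688) (l 16660784))))) (b (a (b (c (c (l 16660624) (c (l 16659648) (l 16659000))) (c (c (l 16658344) (l 30)) (l 30))) (c (c (l 16661696) (c (l 16660728) (l 16660088))) (c (c (l 16659440) (l 16658792)) (l 30)))) (c (c (b (a (c (l 16660640) (l 16659976)) (b (l 16659824) (l 16660360))) (c (a (l 16661712) (l 16661504)) (a (l 16661056) (l 16660840)))) (a (b (c (l 16659312) (l 16658656)) (c (l 16660400) (l 16659744))) (b (c (b (l 16658824) (l 16659368)) (b (l 16658152) (l 16658696))) (c (b (l 16659904) (l 16660448)) (b (l 16659240) (l 16659792)))))) (b (c (c (b (l 16657600) (l 16658152)) (l 30)) (l 30)) (c (b (a (l 16658488) (c (l 16658584)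 (l 16657920))) (c (l 16659248) (l 16658584))) (l 30))))) (a (b (c (c (l 16662776) (l 16661488)) (c (c (l 16660528) (l 16659888)) (c (l 16659248) (l 30)))) (c (c (l 16663840) (l 16662576)) (c (c (l 16661624) (l 16660984)) (c (l 16660352) (l 16659720))))) (c (b (c (c (l 16662680) (a (l 16662128) (l 16661920))) (b (b (l 16660640) (l 16660912)) (b (l 16661184) (l 16661448)))) (c (c (l 16663752) (l 16663104)) (a (c (l 16662560) (l 16661920)) (b (l 16661744) (l 16662288))))) (b (c (b (c (l 16659792) (l 16659136)) (c (l 16660336) (l 16659688))) (c (a (l 16658880) (b (l 30) (l 16658912))) (l 30))) (c (b (c (l 16660888) (l 16660232)) (c (l 16661432) (l 16660784))) (b (c (l 16659584) (l 30)) (a (l 16659936) (c (l 16660016) (l 16659368)))))))))), by decide +kernel⟩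

def k107_A00pm_113_s3 : ∃ t, chk3 f_A00pm_113_s3 t 511 230 4 = true :=
  ⟨(a (b (c (a (l 16671712) (c (l 16671600) (l 16670432))) (a (l 16669472) (c (l 16669264) (l 16668096)))) (c (a (l 16673736) (c (l 16673624) (l 16672480))) (a (l 16671544) (c (l 16671336) (l 16670192))))) (a (b (c (c (b (l 16670440) (l 16671456)) (b (l 16669216) (l 16670248))) (c (b (l 16667992) (l 16669032)) (b (l 16666768) (l 16667824)))) (c (b (c (l 16672472) (l 16671272)) (c (l 16673496) (l 16672304))) (c (b (l 16670072) (l 16671112)) (b (l 16668872) (l 16669920))))) (b (c (b (c (l 16669792) (a (l 16668696) (l 16668352))) (c (l 16670816) (a (l 16669728) (l 16669392)))) (c (b (b (l 16666984) (l 16667512)) (a (l 16668480) (l 16668112))) (b (a (l 16666176) (c (l 16666104) (l 16665456))) (c (l 16667352) (l 16666720))))) (c (b (c (l 16671840) (a (l 16670760) (l 16670424))) (c (l 16672864) (a (l 16671792) (l 16671456)))) (b (b (c (l 16669080) (l 16667824)) (c (l 16669600) (l 16668352))) (b (c (l 16670128) (l 16668880)) (c (l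 16670648) (l 16669408)))))))), by decide +kernel⟩

def k108_A00pm_113_s3 : ∃ t, chk3 f_A00pm_113_s3 t 511 231 4 = true :=
  ⟨(a (b (a (c (l 16675760) (l 16673616)) (c (c (l 16675648) (l 16674520)) (c (l 16673400) (l 16672280)))) (a (c (l 16677776) (l 16675680)) (c (b (l 16676608) (l 16677624)) (c (l 16675464) (l 16674360))))) (a (b (c (b (l 16671296) (l 16674936)) (c (b (l 16672152) (l 16673184)) (b (l 16670968) (l 16672016)))) (c (b (l 16675952) (l 16676968)) (b (c (l 16674224) (l 16673064)) (c (l 16675256) (l 16674112))))) (b (c (b (c (l 16673888) (l 16672656)) (c (l 16674904) (l 16673688))) (b (b (c (l 16671168) (l 16669936)) (c (l 16671688) (l 16670464))) (c (a (l 16672648) (l 16672288)) (a (l 16671440) (l 16671064))))) (c (b (c (l 16675920) (l 16674712)) (c (l 16676936) (l 16675736))) (b (c (a (l 16673680) (l 16673328)) (a (l 16672488) (l 16672112))) (c (a (l 16674720) (l 16674368)) (a (l 16673536) (l 16673160)))))))), by decide +kernel⟩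

def k109_A00pm_113_s3 : ∃ t, chk3 f_A00pm_113_s3 t 1022 115 5 = true :=
  ⟨(b (c (a (b (c (l 16667800) (l 16666688)) (c (l 16669912) (l 16668816))) (b (c (l 16666928) (l 16665768)) (c (l 16669048) (l 16667904)))) (c (b (a (l 16665576) (l 16664600)) (a (l 16667728) (l 16666768))) (b (a (l 16664472) (l 16652960)) (a (l 16666648) (l 16655144))))) (a (c (b (c (l 16672008) (l 16670944)) (c (l 16674104) (l 16673064))) (b (l 16658864) (c (l 16672024) (l 16670976)))) (b (c (c (l 16671160) (l 16670040)) (c (l 16668920) (l 16657320))) (b (c (l 16672192) (l 16669984)) (c (l 16673248) (l 16671064)))))), by decide +kernel⟩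

def k110_A00pm_113_s3 : ∃ t, chk3 f_A00pm_113_s3 t 1023 230 5 = true :=
  ⟨(a (c (b (c (b (l 16665544) (l 16666608)) (b (l 16664328) (l 16665400))) (c (b (l 16667672) (l 16668736)) (b (l 16666472) (l 16667544)))) (b (c (b (l 16663104) (l 16664192)) (b (l 16661888) (l 16662984))) (b (c (l 16665280) (l 16664080)) (c (l 16666360) (l 16665176))))) (c (b (c (b (a (l 16664912) (c (l 16664816) (l 16664176))) (a (l 16665984) (c (l 16665888) (l 16665248)))) (b (b (c (l 16663480) (l 16662840)) (c (l 16664016) (l 16663384))) (a (l 16664736) (c (l 16664608) (a (l 16664088) (l 16663864)))))) (c (b (a (l 16667048) (c (l 16666952) (l 16666320))) (a (l 16668112) (c (l 16668016) (l 16667392)))) (b (a (l 16665808) (b (l 16665104) (l 16665640))) (a (l 16666888) (c (l 16666760) (l 16666136)))))) (b (a (b (c (c (l 16662712) (l 16662080)) (c (l 16661448) (l 16660824))) (c (c (l 16663800) (l 16663176)) (c (l 16662552) (l 16661928)))) (a (b (c (c (l 16662360) (l 16661720)) (c (l 16661088) (l 16660448))) (c (c (l 16663448)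 (l 16662816)) (c (l 16662184) (l 16661552)))) (b (c (c (b (l 16661864) (l 16662408)) (b (l 16661216) (l 16661760))) (c (b (l 16660568) (l 16661120)) (b (l 16659920) (l 16660472)))) (c (c (b (l 16662952) (l 16663496)) (b (l 16662312) (l 16662856))) (c (b (l 16661672) (l 16662216)) (b (l 16661024) (l 16661576))))))) (a (b (c (l 16664576) (c (l 16663648) (l 16663024))) (c (l 16665656) (c (l 16664744) (l 16664128)))) (b (b (c (a (l 16663952) (l 16663720)) (c (l 16662888) (l 16662256))) (c (a (l 16664496) (l 16664264)) (c (l 16663440) (l 16662808)))) (c (c (a (l 16665624) (l 16665400)) (a (l 16665000) (l 16664768))) (b (c (l 16663984) (l 16663360)) (c (l 16664536) (l 16663912))))))))), by decide +kernel⟩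

def k111_A00pm_113_s3 : ∃ t, chk3 f_A00pm_113_s3 t 1023 231 5 = true :=
  ⟨(a (b (b (c (c (l 16669792) (l 16668616)) (c (l 16667440) (l 16666264))) (c (c (l 16670856) (l 16669688)) (c (l 16668520) (l 16667360)))) (c (c (b (l 16671912) (l 16672968)) (b (l 16670752) (l 16671824))) (c (b (l 16669600) (l 16670680)) (b (l 16668448) (l 16669536))))) (c (b (b (c (a (l 16669176) (c (l 16669080) (l 16668456))) (a (l 16667960) (c (l 16667832) (l 16667216)))) (c (b (l 16669768) (l 16670296)) (a (l 16669032) (c (l 16668904) (l 16668296))))) (b (c (b (l 16670832) (l 16671360)) (a (l 16670104) (c (l 16669976) (l 16669368)))) (c (b (l 16671888) (l 16672416)) (a (l 16671176) (c (l 16671048) (l 16670448)))))) (b (c (b (a (l 16666744) (c (l 16666592) (a (l 16666088) (l 16665856)))) (a (l 16667832) (c (l 16667680) (a (l 16667176) (l 16666944))))) (b (a (c (l 16665832) (l 16665224)) (b (c (l 16665080) (l 16664456)) (b (l 16665184) (l 16665456)))) (a (c (l 16666928) (l 16666328)) (b (b (l 16665728) (l 16666008)) (a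 (l 16666536) (l 16666296)))))) (c (b (a (l 16668912) (c (l 16668760) (l 16668152))) (a (l 16669992) (c (l 16669840) (l 16669240)))) (b (a (l 16667720) (a (b (l 16667088) (l 16667632)) (b (l 16666840) (l 16667392)))) (b (c (l 16668600) (l 16668000)) (c (l 16669144) (l 16668544)))))))), by decide +kernel⟩

def k112_A00pm_113_s3 : ∃ t, chk3 f_A00pm_113_s3 t 255 114 3 = true :=
  ⟨(l 30), by decide +kernel⟩

def k113_A00pm_113_s3 : ∃ t, chk3 f_A00pm_113_s3 t 510 115 3 = true :=
  ⟨(c (b (c (a (a (l 16657984) (l 16656824)) (b (l 16654008) (l 16656208))) (l 30)) (c (a (b (l 16671160) (l 16673336)) (b (l 16658400) (l 16660592))) (b (l 30) (a (l 16671656) (l 16663928))))) (l 30)), by decide +kernel⟩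

def k114_A00pm_113_s3 : ∃ t, chk3 f_A00pm_113_s3 t 1022 115 3 = true :=
  ⟨(c (b (c (c (b (a (l 16663360) (l 16651800)) (a (l 16665560) (l 16654000))) (b (l 30) (b (l 30) (l 16664472)))) (l 30)) (c (b (b (c (l 16666672) (l 16665584)) (c (l 16667768) (l 16666688))) (b (c (l 16668864) (l 16667800)) (c (l 16669960) (l 16668904)))) (c (b (l 30) (b (l 16666728) (l 16667848))) (l 30)))) (l 30)), by decide +kernel⟩

def k115_A00pm_113_s3 : ∃ t, chk3 f_A00pm_113_s3 t 1023 230 6 = true :=
  ⟨(a (c (b (b (l 30) (c (a (l 16662040) (l 16661512)) (l 30))) (c (b (a (l 16663144) (l 16662624)) (l 16663992)) (b (l 30) (a (l 16663080) (l 16662528))))) (l 30)) (c (b (b (l 30) (c (c (a (l 16661304) (a (l 16660920) (b (l 16660384) (l 16660944)))) (l 30)) (l 30))) (b (c (a (c (l 16662408) (l 16661792)) (c (b (l 16661624) (l 16662176)) (a (l 16661400) (b (l 16660856) (l 16661416))))) (l 30)) (a (c (c (l 16663512) (l 16662904)) (c (l 16662288) (l 30))) (c (c (b (l 16662728) (l 16663288)) (a (l 16662512) (b (l 16661976)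 (l 16662528)))) (c (a (l 16661888) (b (l 30) (l 16661904))) (l 30)))))) (l 30))), by decide +kernel⟩

def k116_A00pm_113_s3 : ∃ t, chk3 f_A00pm_113_s3 t 1023 231 6 = true :=
  ⟨(a (b (c (c (b (l 16665096) (l 16666200)) (a (b (l 16664192) (l 16665312)) (b (l 16663648) (l 16664760)))) (l 30)) (c (b (c (l 16667296) (a (l 16666424) (l 16665880))) (c (l 16668400) (a (l 16667528) (l 16666992)))) (c (a (b (l 16665288) (l 16666408)) (b (l 16664712) (l 16665840))) (l 30)))) (b (c (a (b (c (c (l 16664624) (l 16664016)) (c (l 16663408) (l 16662800))) (c (c (l 16665720) (l 16665120)) (c (l 16664520) (l 16663920)))) (a (b (b (c (l 16663656) (l 16662416)) (c (l 16664208) (l 16662976))) (c (c (l 16665344) (l 16664736)) (c (l 16664120) (l 16663512)))) (b (c (c (b (l 16663712) (l 16664264)) (b (l 16663088) (l 16663640))) (c (b (l 16662464) (l 16663024)) (b (l 30) (l 16662400)))) (c (c (b (l 16664816) (l 16665368)) (b (l 16664200) (l 16664752))) (c (b (l 16663576) (l 16664136)) (b (l 16662960) (l 16663520)))))))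 (l 30)) (c (a (b (c (c (l 16666824) (l 16666232)) (c (l 16665632) (l 16665040))) (c (c (l 16667928) (l 16667336)) (c (l 16666744) (l 16666152)))) (a (b (c (c (l 16666448) (l 16665840)) (c (l 16665240) (l 16664632))) (c (c (l 16667552) (l 16666952)) (c (l 16666352) (l 16665752)))) (b (c (c (b (l 16665920) (l 16666472)) (b (l 16665312) (l 16665864))) (c (b (l 16664696) (l 16665256)) (b (l 16664080) (l 16664640)))) (c (c (b (l 16667024) (l 16667576)) (b (l 16666416) (l 16666968))) (c (b (l 16665808) (l 16666368)) (b (l 16665200) (l 16665760))))))) (c (c (b (a (l 16664440) (a (b (l 16663744) (l 16664304)) (b (l 16663464) (l 16664032)))) (a (l 16665568) (a (l 16665152) (b (l 16664592) (l 16665152))))) (b (l 30) (a (l 16664976) (b (l 30) (a (l 16664832) (l 16664552)))))) (l 30))))), by decide +kernel⟩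

def k117_A00pm_113_s3 : ∃ t, chk3 f_A00pm_113_s3 t 1023 115 7 = true :=
  ⟨(l 30), by decide +kernel⟩

def k118_A00pm_113_s3 : ∃ t, chk3 f_A00pm_113_s3 t 124 29 1 = true :=
  ⟨(b (c (c (b (a (l 16742856) (l 16731744)) (b (a (l 16747256) (l 16736400)) (a (l 16750200) (l 16739504)))) (b (a (l 16750832) (l 16738096)) (b (a (l 16755704) (l 16743192)) (a (l 16758960) (l 16746592))))) (b (a (c (l 16756200) (l 16701336)) (c (l 16723960) (b (l 16625376) (l 16680120)))) (c (a (b (l 16764736) (l 16768312)) (b (l 16750488) (l 16754192))) (a (b (l 16698104) (l 16757552)) (b (l 16739528) (l 16762296)))))) (a (c (b (b (c (l 16753288) (l 16762376)) (a (c (l 16759608) (l 16769264)) (c (l 16754008) (l 16763000)))) (b (c (a (l 16764168) (l 16757840)) (a (l 16773464) (l 16767056))) (a (l 16753040) (c (a (l 16764368) (l 16760912)) (l 16761120))))) (b (b (c (l 16772056) (l 16740400)) (c (a (l 16779544) (l 16772576)) (a (c (l 16787664) (l 16751328)) (l 16782752)))) (c (a (b (l 16762376) (l 16787328)) (b (l 16766376)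 (a (l 16782712) (l 16779576)))) (b (a (b (l 16772176) (l 16794616)) (c (l 16784616) (a (l 16791920) (l 16788112)))) (a (l 16796896) (a (l 16792736) (c (l 16787176) (l 16771456)))))))) (b (c (b (c (l 16742760) (l 16750144)) (c (l 16746296) (l 16753984))) (c (b (l 16758048) (l 16741240)) (b (l 16724536) (c (l 16768728) (l 16773248))))) (c (b (c (l 16750072) (c (l 16756032) (l 16760176))) (c (a (b (l 16755504) (l 16747152)) (l 16741168)) (a (b (l 16764208) (l 16766440)) (l 16759552)))) (a (b (c (l 16770032) (l 16769120)) (c (b (l 16773472) (l 16775808)) (c (l 16771504) (b (l 16785864) (l 16777840))))) (b (c (l 16763304) (l 16750952)) (c (l 16767976) (c (l 16774640) (l 16779256))))))))), by decide +kernel⟩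

def k119_A00pm_113_s3 : ∃ t, chk3 f_A00pm_113_s3 t 125 58 1 = true :=
  ⟨(b (c (a (c (b (l 16719776) (l 16723048)) (b (l 16724328) (l 16727864))) (b (c (l 16710152) (l 16713016)) (c (l 16692616) (l 16716696)))) (a (c (b (l 16729288) (l 16733104)) (b (l 16660024) (l 16719168))) (c (b (l 16716216) (l 16720152)) (b (l 16696784) (l 16682008))))) (c (a (b (c (l 16726312) (l 16731400)) (c (l 16729576) (l 16734944))) (b (c (l 16696040) (l 16720376)) (c (l 16709952) (l 16724056)))) (a (c (b (l 16736920) (l 16740744)) (b (l 16742872) (l 16705040))) (c (b (l 16724088) (a (l 16731152) (l 16724984))) (b (l 16707184) (a (l 16735968) (l 16728848))))))), by decide +kernel⟩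

def k120_A00pm_113_s3 : ∃ t, chk3 f_A00pm_113_s3 t 125 59 1 = true :=
  ⟨(b (c (a (b (c (l 16732984) (l 16738632)) (c (l 16726192) (l 16732128))) (b (c (b (l 16702112) (l 16703968)) (c (l 16705904) (l 16728904))) (c (a (l 16709008) (l 16704784)) (a (l 16713608) (l 16708488))))) (a (c (b (l 16744720) (c (l 16747360) (l 16750664))) (b (c (l 16749584) (l 16752960)) (c (l 16754088) (l 16757616)))) (c (b (a (l 16735216) (l 16729104)) (a (l 16739568) (l 16733512))) (b (a (l 16740312) (l 16733232)) (c (l 16740136) (l 16721704)))))) (a (a (c (b (c (l 16721936) (l 16749584)) (c (l 16736512) (l 16753992))) (b (c (l 16756752) (l 16753912)) (c (l 16761472) (c (l 16767408) (l 16771512))))) (c (b (c (l 16717392) (l 16744152)) (c (l 16732040) (l 16748616))) (b (c (l 16750376) (l 16746552)) (c (l 16755152) (c (l 16760344) (l 16763944)))))) (a (c (b (c (l 16723528) (l 16717928)) (c (a (l 16728816) (l 16726728)) (a (l 16723736) (l 16731680)))) (b (c (l 16744184) (c (l 16748408) (l 16751344))) (c (b (l 16747792)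 (l 16750248)) (c (l 16753456) (l 16756552))))) (b (c (c (l 16719384) (l 16723360)) (c (l 16738176) (c (l 16741664) (l 16744096)))) (c (b (c (l 16733088) (l 16737272)) (c (a (l 16725960) (l 16724496)) (a (l 16730512) (l 16728568)))) (c (b (l 16741824) (a (l 16735440) (l 16732992))) (b (l 16746736) (c (l 16748520) (l 16751128))))))))), by decide +kernel⟩

def k121_A00pm_113_s3 : ∃ t, chk3 f_A00pm_113_s3 t 126 58 1 = true :=
  ⟨(b (c (a (c (b (l 16690864) (c (l 16683664) (l 16684288))) (b (l 16702504) (c (l 16684984) (l 16706712)))) (c (b (a (l 16674336) (l 16681056)) (a (l 16678040) (a (l 16696232) (l 16673472)))) (b (a (l 16674208) (l 16680072)) (a (l 16678136) (a (l 16674704) (l 16672480)))))) (a (c (b (a (l 16706928) (l 16700984)) (a (l 16710960) (l 16705080))) (b (a (l 16709080) (l 16702208)) (a (l 16713360) (l 16706536)))) (c (b (a (l 16695256) (l 16689744)) (a (l 16699408) (c (l 16673112) (l 16672856)))) (b (a (l 16695544) (c (l 16689240) (l 16688960))) (a (l 16699920) (c (l 16693616) (l 16693448)))))))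 (a (c (b (c (c (l 16687184) (l 16687928)) (c (l 16688736) (l 16689616))) (c (a (l 16693144) (l 16689184)) (a (l 16695448) (l 16690600)))) (b (c (a (l 16714992) (l 16709168)) (a (l 16717640) (l 16710864))) (c (a (l 16719016) (l 16713248)) (a (l 16721920) (l 16715184))))) (c (b (c (a (l 16692224) (a (l 16679016) (l 16682504))) (a (l 16692536) (b (l 16676584) (l 16678576)))) (c (a (b (l 16705488) (l 16707344)) (b (l 16680960) (l 16682848))) (a (a (l 16687112) (l 16684848)) (b (l 16680560) (l 16682560))))) (b (c (a (l 16693064) (c (l 16677264) (l 16677112))) (a (c (l 16704088) (l 16704512)) (c (l 16697984) (l 16697920)))) (c (a (a (l 16688096) (l 16685376)) (b (l 16680344) (l 16692944))) (a (c (l 16708408) (l 16708944)) (c (l 16681376) (l 16702400)))))))), by decide +kernel⟩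

def k122_A00pm_113_s3 : ∃ t, chk3 f_A00pm_113_s3 t 254 116 1 = true :=
  ⟨(c (c (b (a (b (l 16666072) (l 16673248)) (b (c (l 16684400) (l 16683008)) (c (l 16686344) (l 16685000)))) (a (b (l 16675176) (l 16677096)) (b (c (l 16688288) (l 16671264)) (a (l 16690392) (a (l 16689216) (l 16688448)))))) (c (b (a (l 16665632) (b (l 16660672) (l 16662712))) (a (l 16680128) (b (l 16669992) (l 16672032)))) (b (a (l 16664744) (b (l 16659328) (l 16671904))) (a (l 16679344) (b (l 16673992) (l 16676080)))))) (c (b (a (c (l 16663896) (l 16663072)) (c (b (l 16658008) (l 16670632)) (a (l 16659096) (l 16667000)))) (a (c (l 16678600) (l 16677880)) (c (b (l 16672768) (l 16674904)) (b (l 16671576) (l 16673760))))) (b (a (c (l 16683256) (l 16682504)) (c (a (l 16657960) (l 16665632)) (l 30))) (a (c (l 16687680) (l 16687032)) (c (b (l 16670400) (l 16672632)) (l 30)))))), by decide +kernel⟩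

def k123_A00pm_113_s3 : ∃ t, chk3 f_A00pm_113_s3 t 254 117 1 = true :=
  ⟨(c (b (c (a (b (l 16679024) (b (l 16675224) (l 16676184))) (b (a (l 16692336) (a (l 16691176) (l 16690424))) (b (a (l 16693800) (l 16692272)) (a (l 16694776) (l 16693256))))) (a (b (l 16682784) (l 16684808)) (b (c (l 16674064) (l 16678160)) (c (a (l 16692760) (l 16690912)) (l 16680240))))) (c (a (b (b (l 16677144) (l 16683344)) (b (l 16684304) (l 16685280))) (a (b (c (l 16696728) (l 16695744)) (c (l 16698656) (l 16697720))) (b (c (l 16695328) (l 16694128)) (c (l 16697272) (l 16696120))))) (c (a (c (l 16683024) (l 16682728)) (a (b (l 16694784) (l 16696808)) (b (l 16692952) (l 16694992)))) (a (c (l 16687688) (l 16687408)) (b (a (l 16693848) (l 16691792)) (a (l 16695928) (l 16693888))))))) (b (b (c (a (l 16681448) (c (l 16677040) (l 16675944))) (a (c (l 16691016) (l 16690448)) (c (l 16674872) (l 16673824)))) (c (a (b (l 16683048) (l 16684112)) (c (l 16679168) (l 16678120))) (a (a (l 16673504) (l 16680992)) (c (l 16677104) (l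 16676104))))) (c (a (b (b (l 16685176) (l 16686240)) (b (l 16687304) (l 16688384))) (b (c (l 16681304) (l 16680304)) (c (l 16683440) (l 16682488)))) (a (b (a (l 16675728) (l 16683232)) (c (l 16676672) (l 16676264))) (b (c (l 16679336) (c (l 16668136) (l 16667664))) (c (b (l 16681016) (l 16682144)) (a (l 16692664) (l 16679208)))))))), by decide +kernel⟩

def k124_A00pm_113_s3 : ∃ t, chk3 f_A00pm_113_s3 t 510 116 1 = true :=
  ⟨(c (b (a (c (c (b (l 16682200) (l 16684168)) (b (l 16680496) (l 16682520))) (b (c (l 16678816) (l 16677152)) (c (l 16680888) (l 16679272)))) (c (c (b (a (l 16681144) (l 16680456)) (a (l 16683136) (l 16682456))) (b (a (l 16679296) (l 16678504)) (a (l 16681328) (l 16680552)))) (b (c (a (l 16677456) (l 16676560)) (a (l 16675632) (l 16674632))) (c (a (l 16679536) (l 16678656)) (a (l 16677760) (l 16676768)))))) (c (b (c (a (l 16686144) (a (l 16685120) (l 16684448))) (a (l 16684536) (a (l 16683360) (l 16682592)))) (c (a (l 16688104) (a (l 16687096) (l 16686440))) (a (l 16686552)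 (a (l 16685384) (l 16684624))))) (b (a (c (l 16682952) (l 16681384)) (c (a (l 16681616) (l 16680736)) (a (l 16679880) (l 16678904)))) (a (c (l 16685016) (l 16683488)) (c (a (l 16683688) (l 16682824)) (a (l 16682000) (l 16681032))))))) (c (b (c (b (a (l 16675504) (a (l 16673816) (l 16672712))) (a (l 16677664) (a (l 16675992) (l 16664408)))) (a (c (l 16664880) (l 16664080)) (b (a (l 16672016) (l 16660312)) (a (l 16674240) (l 16662544))))) (c (b (a (l 16679824) (a (l 16678160) (l 16666584))) (a (l 16681984) (b (l 16679248) (l 16680336)))) (b (a (l 16678288) (a (l 16676456) (l 16664768))) (a (l 16670008) (a (l 16678672) (l 16666992)))))) (c (b (b (l 30) (a (l 16664032) (b (l 30) (l 16661920)))) (b (a (l 16666288) (b (l 16663056) (l 16664184))) (a (l 16668544) (b (l 16665320) (l 16666456))))) (l 30)))), by decide +kernel⟩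

def k125_A00pm_113_s3 : ∃ t, chk3 f_A00pm_113_s3 t 511 116 4 = true :=
  ⟨(b (a (b (a (c (l 16679792) (l 16677736)) (c (b (l 16678632) (l 16679640)) (b (l 16676464) (l 16677496)))) (a (c (l 16681800) (b (l 16679280) (l 16680304))) (c (b (l 16680648) (l 16681656)) (b (l 16678528) (l 16679552))))) (b (a (c (b (l 16677984) (l 16679000)) (b (c (l 16676288) (l 16675152)) (c (l 16677320) (l 16676192)))) (c (b (c (l 16677952) (l 16676768)) (c (l 16678960) (l 16677792))) (b (c (l 16675584) (a (l 16674584) (l 16674208))) (c (l 16676616) (a (l 16675632) (l 16675256)))))) (a (c (b (l 16680016) (l 16681024)) (b (c (l 16678344) (l 16677232)) (c (l 16679376) (l 16678272)))) (c (b (c (l 16679976) (l 16678816)) (c (l 16680984) (l 16679832))) (b (c (l 16677648) (a (l 16676672) (l 16676304))) (c (l 16678680) (a (l 16677720) (l 16677352)))))))) (a (a (b (c (l 16683800) (b (l 16681328) (l 16682352))) (c (l 16685800) (b (l 16683368) (l 16684392)))) (b (c (b (l 16682664) (l 16683664)) (b (l 16680584) (l 16681608)))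 (c (b (l 16684672) (l 16685672)) (b (l 16682640) (l 16683664))))) (b (a (c (b (l 16682032) (l 16683048)) (b (c (l 16680400) (l 16679312)) (c (l 16681424) (l 16680352)))) (c (b (c (l 16681992) (l 16680856)) (c (l 16683000) (l 16681872))) (b (c (l 16679712) (l 16678576)) (c (l 16680744) (l 16679616))))) (a (c (b (l 16684056) (l 16685056)) (b (c (l 16682456) (l 16681384)) (c (l 16683480) (l 16682424)))) (c (b (c (l 16684008) (l 16682888)) (c (l 16685016) (l 16683912))) (b (c (l 16681776) (l 16680656)) (c (l 16682800) (l 16681696)))))))), by decide +kernel⟩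

def k126_A00pm_113_s3 : ∃ t, chk3 f_A00pm_113_s3 t 511 232 5 = true :=
  ⟨(a (b (b (c (a (l 16675168) (l 16674304)) (a (l 16673112) (l 16672144))) (c (a (l 16676216) (l 16675360)) (a (l 16674192) (l 16673224)))) (b (c (a (l 16677264) (l 16676408)) (a (l 16675264) (l 16674296))) (c (a (l 16678312) (l 16677464)) (a (l 16676328) (l 16675376))))) (b (a (c (b (c (l 16674016) (l 16672888)) (c (l 16675072) (l 16673952))) (c (b (l 16671760) (l 16672832)) (b (l 16670624) (l 16671712)))) (c (b (c (a (l 16673416) (l 16673016)) (a (l 16672240) (c (l 16672112) (l 16671520)))) (b (c (l 16674008) (l 16672832)) (c (l 16674536) (l 16673368)))) (b (c (a (l 16671072) (c (l 16670920) (l 16670320))) (a (l 16669904) (c (l 16669720) (a (l 16669248) (l 16669008))))) (c (a (l 16672152) (c (l 16672000) (l 16671408))) (a (l 16670992) (b (l 16670240) (l 16670792))))))) (a (c (b (c (l 16676128) (l 16675016)) (c (l 16677176) (l 16676080))) (c (b (l 16673904) (l 16674984)) (b (l 16672800) (l 16673888)))) (c (b (b (c (l 16675064)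 (l 16673896)) (c (l 16675592) (l 16674432))) (b (c (l 16676120) (l 16674968)) (c (l 16676648) (l 16675496)))) (b (c (a (l 16673232) (c (l 16673072) (l 16672488))) (a (l 16672080) (c (l 16671896) (l 16671312)))) (c (a (l 16674304) (c (l 16674152) (l 16673568))) (a (l 16673168) (c (l 16672984) (l 16672408))))))))), by decide +kernel⟩

def k127_A00pm_113_s3 : ∃ t, chk3 f_A00pm_113_s3 t 511 233 5 = true :=
  ⟨(a (b (b (c (a (l 16679360) (l 16678512)) (a (l 16677400) (l 16676448))) (c (a (l 16680408) (l 16679560)) (a (l 16678472) (l 16677520)))) (c (a (b (l 16681448) (l 16682496)) (b (l 16680616) (l 16681664))) (a (b (l 16679536) (l 16680608)) (b (l 16678592) (l 16679664))))) (b (a (c (b (c (l 16678224) (l 16677136)) (c (l 16679272) (l 16678200))) (b (c (l 16676056) (l 16674968)) (c (l 16677128) (l 16676048)))) (c (b (c (a (l 16677632) (l 16677240)) (a (l 16676504) (l 16676088))) (c (a (l 16678680) (l 16678296)) (a (l 16677568) (l 16677152)))) (b (c (a (l 16675384) (c (l 16675224) (l 16674648))) (a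 (l 16674256) (c (l 16674072) (l 16673496)))) (c (b (l 16675968) (l 16676504)) (a (l 16675344) (c (l 16675160) (l 16674584))))))) (a (c (b (c (l 16680320) (l 16679256)) (c (l 16681368) (l 16680312))) (b (c (l 16678192) (l 16677136)) (c (l 16679264) (l 16678216)))) (c (b (c (a (l 16679736) (l 16679344)) (a (l 16678632) (l 16678216))) (c (a (l 16680784) (l 16680400)) (a (l 16679688) (l 16679280)))) (b (c (b (l 16677040) (l 16677576)) (a (l 16676424) (c (l 16676240) (l 16675672)))) (c (b (l 16678112) (l 16678648)) (a (l 16677512) (c (l 16677320) (l 16676760))))))))), by decide +kernel⟩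

def k128_A00pm_113_s3 : ∃ t, chk3 f_A00pm_113_s3 t 1022 232 6 = true :=
  ⟨(c (b (b (c (l 16671056) (l 16670008)) (c (l 16672144) (l 16671112))) (b (c (l 16673240) (l 16672216)) (c (l 16674328) (l 16673320)))) (c (b (b (l 16668960) (l 16670080)) (b (l 16671192) (l 16672304))) (b (b (l 16657432) (l 16658560)) (b (l 16659688) (l 16660816))))), by decide +kernel⟩

def k129_A00pm_113_s3 : ∃ t, chk3 f_A00pm_113_s3 t 2046 232 6 = true :=
  ⟨(c (c (b (b (l 16669496) (l 16670600)) (b (l 16671696) (l 16672792))) (b (a (b (l 16668640) (l 16669752)) (b (l 16668104) (l 16669208))) (b (l 16670584) (l 16671696)))) (b (c (a (b (l 16667528) (l 16668648)) (b (l 16666960) (l 16668080))) (c (b (l 16666400) (l 16667528)) (l 30))) (c (b (a (l 16669768) (l 16669200)) (a (l 16670888) (l 16670320))) (a (b (l 16668680) (l 16669808)) (b (l 16668088) (l 16669216)))))), by decide +kernel⟩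

def k130_A00pm_113_s3 : ∃ t, chk3 f_A00pm_113_s3 t 2047 464 6 = true :=
  ⟨(c (b (a (c (c (l 16669024) (l 16668440)) (c (l 16667856) (l 16667272))) (c (b (b (l 16667816) (l 16668088)) (a (l 16668632) (l 16668376))) (b (c (l 16667056) (l 16666456)) (c (l 16667608) (l 16667016))))) (b (a (c (l 16669560) (l 16668400)) (c (a (l 16669184) (l 16668928)) (c (l 16668168) (l 16667568)))) (a (c (l 16670112) (l 16668952)) (c (a (l 16669736) (l 16669480)) (c (l 16668720) (l 16668128)))))) (a (b (c (c (l 16666688) (l 16666104)) (c (l 16665520) (l 30))) (c (c (l 16667808) (l 16667232)) (c (l 16666648) (l 30)))) (b (c (b (a (l 16665696) (c (l 16665720) (l 16665112))) (a (l 16666256) (c (l 16666280) (l 16665680)))) (b (l 30) (b (l 30) (c (l 16665368) (l 30))))) (c (c (b (l 16666976) (l 16667536)) (a (l 16666808) (b (l 16666240) (l 16666808)))) (c (a (b (l 16665936) (l 16666504)) (b (l 16665648) (l 16666216))) (l 30)))))), by decide +kernel⟩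

def k131_A00pm_113_s3 : ∃ t, chk3 f_A00pm_113_s3 t 2047 465 6 = true :=
  ⟨(a (b (c (c (c (l 16671224) (l 16670648)) (c (l 16670072) (l 16669504))) (c (c (l 16668928) (l 16668352)) (c (l 16667784) (l 16667208)))) (c (c (l 16672032) (c (l 16671184) (l 16670616))) (c (c (l 16670048) (l 16669480)) (c (l 16668912) (l 16668344))))) (c (b (c (c (a (l 16670848) (l 16670600)) (a (l 16670264) (l 16670016))) (b (c (l 16669272) (l 16668688)) (c (l 16669832) (l 16669248)))) (c (c (l 16671824) (a (l 16671368) (l 16671120))) (b (b (l 16669952) (l 16670232)) (b (l 16670512) (l 16670784))))) (a (b (c (c (l 16668512) (l 16667928)) (c (b (l 16667064) (l 16667632)) (b (l 16666480) (l 16667048)))) (c (c (l 16669632) (l 16669056)) (c (l 16668480) (b (l 16667616) (l 16668184))))) (b (c (c (b (l 16667960) (l 16668520)) (b (l 16667368) (l 16667936))) (c (b (l 16666776) (l 16667344)) (b (a (l 16666264) (l 16666112)) (l 16666752)))) (c (c (b (l 16669080) (l 16669640)) (b (l 16668496) (l 16669056))) (c (b (l 16667912) (l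 16668480)) (b (l 16667328) (l 16667896)))))))), by decide +kernel⟩

def k132_A00pm_113_s3 : ∃ t, chk3 f_A00pm_113_s3 t 1022 233 6 = true :=
  ⟨(b (b (c (c (l 16675416) (l 16674416)) (c (l 16673416) (l 16661936))) (c (c (l 16676504) (l 16675520)) (c (l 16674528) (l 16663056)))) (b (c (c (l 16677592) (l 16676616)) (c (l 16675640) (l 16664184))) (c (c (l 16678680) (l 16677712)) (c (l 16676752) (l 16665304))))), by decide +kernel⟩

def k133_A00pm_113_s3 : ∃ t, chk3 f_A00pm_113_s3 t 2046 233 6 = true :=
  ⟨(b (c (c (b (l 16673888) (l 16674976)) (b (l 16672800) (l 16673904))) (b (c (a (l 16672000) (l 16671440)) (a (l 16670936) (l 16670344))) (c (a (l 16673120) (l 16672560)) (a (l 16672064) (l 16671472))))) (c (b (c (l 16676072) (l 16675008)) (c (l 16677160) (l 16676112))) (b (c (a (l 16674232) (l 16673672)) (a (l 16673184) (l 16672600))) (c (a (l 16675344) (l 16674792)) (a (l 16674312) (l 16673728)))))), by decide +kernel⟩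

def k134_A00pm_113_s3 : ∃ t, chk3 f_A00pm_113_s3 t 2047 233 6 = true :=
  ⟨(c (b (b (c (a (l 16673128) (c (l 16672920) (a (l 16672472) (l 16672216)))) (b (a (l 16671728) (a (l 16671336) (l 16671072))) (a (l 16672288) (a (l 16671888) (l 16671632))))) (c (a (l 16674224) (c (l 16674016) (l 16673448))) (b (a (l 16672840) (a (l 16672448) (l 16672184))) (c (l 16673408) (l 16672848))))) (b (c (a (l 16675320) (c (l 16675112) (l 16674544))) (b (c (l 16673960) (l 16673400)) (c (l 16674512) (l 16673960)))) (c (a (l 16676416) (c (l 16676208) (l 16675648))) (b (c (l 16675064) (l 16674512)) (c (l 16675616) (l 16675072)))))) (b (a (b (c (c (l 16671160) (l 16670600)) (c (l 16670040) (l 16669480))) (c (c (l 16672280) (l 16671720)) (c (l 16671168) (l 16670608)))) (a (b (b (c (l 16670192) (l 16669040)) (c (l 16670752) (l 16669608))) (c (c (l 16671872) (l 16671304)) (c (l 16670736) (l 16670168)))) (b (c (c (b (l 16670200) (l 16670760)) (b (l 16669624) (l 16670184))) (c (b (l 16669040) (l 16669608)) (b (l 16668464)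 (l 16669032)))) (c (c (b (l 16671320) (l 16671880)) (b (l 16670744) (l 16671312))) (c (b (l 16670168) (l 16670736)) (b (l 16669600) (l 16670160))))))) (a (b (c (c (l 16673392) (l 16672848)) (c (l 16672296) (l 16671744))) (c (c (l 16674512) (l 16673968)) (c (l 16673424) (l 16672872)))) (b (c (b (c (l 16672576) (l 16672008)) (b (l 16672712) (l 16672992))) (b (c (l 16671440) (l 16670880)) (c (l 16672008) (l 16671440)))) (c (c (b (l 16673688) (l 16674248)) (b (l 16673128) (l 16673688))) (c (b (l 16672568) (l 16673136)) (b (l 16672008) (l 16672576)))))))), by decide +kernel⟩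

def k135_A00pm_113_s3 : ∃ t, chk3 f_A00pm_113_s3 t 1022 116 7 = true :=
  ⟨(c (c (b (b (l 30) (b (l 30) (a (l 16670928) (l 16669664)))) (a (b (l 16672624) (l 16674888)) (b (b (l 16670800) (l 16671936)) (b (l 16673072) (l 16674208))))) (b (l 30) (b (c (l 16666008) (l 30)) (a (l 16673952) (b (l 16672072) (l 16673216)))))) (l 30)), by decide +kernel⟩

def k136_A00pm_113_s3 : ∃ t, chk3 f_A00pm_113_s3 t 1023 116 7 = true :=
  ⟨(b (b (l 30) (b (l 30) (c (c (c (a (l 16668688) (a (l 16667776) (b (b (l 30) (l 16667032)) (b (l 16667320) (l 16667600))))) (l 30)) (l 30)) (l 30)))) (a (c (b (b (c (a (l 16669864) (l 16669248)) (l 30)) (b (c (l 16670416) (l 30)) (c (l 16670984) (l 16669920)))) (c (b (a (l 16672144) (l 16671528)) (a (l 16673280) (l 16672664))) (b (b (l 16670496) (l 16671064)) (a (l 16672248) (l 16671608))))) (l 30)) (b (c (a (b (c (c (l 16668920) (l 16668352)) (l 30)) (c (c (l 16670056) (l 16669504)) (c (a (l 16669104) (l 16668784)) (l 30)))) (b (c (c (a (b (l 16668184) (l 16668752)) (b (l 16667880)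 (l 16668448))) (b (l 30) (b (l 16667880) (l 16668168)))) (l 30)) (c (c (a (b (l 16669320) (l 16669888)) (b (l 16669024) (l 16669592))) (b (b (l 16668456) (l 16668744)) (a (l 16669328) (l 16669016)))) (b (l 30) (c (c (l 16668744) (l 30)) (l 30)))))) (l 30)) (c (a (b (c (c (l 16671192) (l 16670640)) (c (l 16670096) (l 30))) (c (c (l 16672328) (l 16671784)) (c (l 16671240) (a (l 16670856) (l 16670536))))) (a (b (c (c (b (l 16670464) (l 16671032)) (b (l 16669896) (l 16670472))) (c (b (l 16669336) (l 16669912)) (l 30))) (b (c (l 16671320) (c (l 16670488) (l 16669928))) (c (l 16671888) (c (l 16671064) (l 16670504))))) (b (c (b (c (l 16670160) (l 16669592)) (c (l 16670728) (l 16670168))) (c (a (b (l 16669104) (l 16669680)) (b (l 16668944) (l 16669520))) (l 30))) (c (b (c (l 16671304) (l 16670736)) (c (l 16671872) (l 16671312))) (b (b (c (l 16670032) (l 16669464)) (c (l 16670320) (l 16669752))) (c (l 16670752) (a (l 16670264) (l 16670104)))))))) (l 30))))), by decide +kernel⟩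

def k137_A00pm_113_s3 : ∃ t, chk3 f_A00pm_113_s3 t 510 117 2 = true :=
  ⟨(b (a (c (c (b (l 16690072) (l 16692032)) (b (l 16688560) (l 16690568))) (c (b (l 16687072) (l 16689128)) (b (l 16685600) (l 16687704)))) (c (c (b (a (l 16689072) (l 16688424)) (a (l 16691048) (l 16690408))) (b (a (l 16687408) (l 16686656)) (a (l 16689432) (l 16688688)))) (c (b (a (l 16685760) (l 16684904)) (a (l 16687824) (l 16686976))) (b (a (l 16684120) (l 16683152)) (a (l 16686240) (l 16685280)))))) (a (c (c (b (l 16693984) (l 16695944)) (b (l 16692576) (l 16694584))) (c (b (l 16691184) (l 16693240)) (b (l 16689800) (b (l 16691384) (l 16692448))))) (c (c (b (a (l 16693016) (l 16692384)) (b (l 16694184) (l 16695176))) (b (a (l 16691448) (l 16690712)) (b (l 16692592) (l 16693616)))) (c (b (a (l 16689888) (l 16689048)) (b (l 16691024) (l 16692072))) (b (b (l 16687344) (l 16688400)) (b (l 16689464) (l 16690536))))))), by decide +kernel⟩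

def k138_A00pm_113_s3 : ∃ t, chk3 f_A00pm_113_s3 t 510 117 3 = true :=
  ⟨(b (c (b (c (a (l 16684144) (b (l 16681416) (l 16682504))) (a (l 16672216) (a (l 16680888) (l 16669208)))) (c (c (a (l 16686640) (l 16684528)) (a (l 16685944) (l 16683712))) (a (l 16674416) (b (l 16671472) (l 16672576))))) (c (b (a (l 16670792) (c (l 16668560) (l 16667736))) (a (l 16673040) (b (l 16669848) (l 16670976)))) (c (b (a (l 16680224) (l 16666912)) (a (l 16682512) (l 16669208))) (b (l 30) (a (l 16681832) (l 16668416)))))) (c (b (c (a (a (l 16688992) (l 16687904)) (b (l 16685752) (l 16686832))) (a (l 16676616) (b (l 16673680) (l 16674784)))) (b (a (c (l 16690064) (l 16688760)) (c (l 16687912) (l 16675896))) (c (a (l 16691152) (l 16689008)) (c (l 16678536) (l 16677840))))) (b (b (c (a (l 16685224) (l 16672112)) (a (l 16683904) (l 16670552))) (c (a (l 16686344) (l 16673240)) (a (l 16685048) (l 16671704)))) (c (a (l 16677544) (b (l 16674368) (l 16675512))) (a (l 16676288) (a (l 16674152) (b (l 16682648) (l 16683816)))))))),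 by decide +kernel⟩

def k139_A00pm_113_s3 : ∃ t, chk3 f_A00pm_113_s3 t 1022 117 2 = true :=
  ⟨(b (c (b (b (c (l 16686984) (a (l 16685416) (l 16684688))) (c (l 16687976) (a (l 16686432) (l 16685712)))) (b (c (l 16688976) (a (l 16687448) (l 16686736))) (c (l 16689976) (a (l 16688472) (l 16687760))))) (b (c (a (b (l 16683536) (l 16684584)) (b (l 16682712) (l 16683752))) (a (b (l 16681672) (l 16682744)) (b (l 16680736) (l 16681808)))) (c (a (b (l 16685624) (l 16686664)) (b (l 16684800) (l 16685848))) (a (b (l 16683808) (l 16684872)) (b (l 16682872) (l 16683944)))))) (b (b (c (c (l 16690968) (a (l 16689488) (l 16688776))) (c (a (l 16687704) (l 16686888)) (a (l 16685936) (l 16685008)))) (c (c (l 16691968) (a (l 16690504) (l 16689800))) (c (a (l 16688744) (l 16687936)) (a (l 16687000) (l 16686080))))) (c (b (c (a (l 16693264) (l 16692664)) (a (l 16691520) (l 16690816))) (a (b (l 16693152) (c (a (l 16694712) (b (l 16694304) (l 16694824))) (a (l 16693032) (b (l 16692560) (l 16693096))))) (a (b (b (l 16692536)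 (c (l 16693752) (l 16691952))) (c (l 16694624) (l 16692840))) (b (b (c (l 16693208) (a (l 16691384) (l 16691280))) (c (l 16693728) (l 16691880))) (l 16693880))))) (b (c (a (l 16689784) (l 16688976)) (a (l 16688064) (l 16687144))) (b (a (c (l 16690576) (l 16688872)) (a (b (l 16688944) (c (a (l 16690216) (l 16690080)) (a (l 16688440) (l 16688280)))) (b (c (a (l 16689544) (l 16689416)) (a (l 16687712) (b (l 16687424) (l 16687664)))) (c (l 16690040) (l 16688208))))) (a (a (b (l 16690344) (c (l 16691504) (l 16689840))) (b (c (l 16690832) (a (l 16689168) (l 16689008))) (c (l 16691368) (l 16689656)))) (a (a (c (l 16691056) (l 16689296)) (l 16690200)) (l 16690240)))))))), by decide +kernel⟩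

def k140_A00pm_113_s3 : ∃ t, chk3 f_A00pm_113_s3 t 1022 234 3 = true :=
  ⟨(c (b (b (c (c (l 16679768) (l 16678816)) (c (l 16677864) (l 16666424))) (c (c (l 16680848) (l 16679912)) (a (l 16679080) (c (l 16678408) (l 16677440))))) (c (b (c (l 16681936) (l 16681008)) (c (l 16683024) (l 16682104))) (c (b (l 16680080) (l 16681184)) (a (l 16680296) (b (l 16678560) (l 16679680)))))) (c (b (a (b (l 16676128) (l 16677264)) (b (c (l 16675344) (l 16674368)) (c (l 16676472) (l 16675512)))) (a (b (l 16678400) (l 16679536)) (b (c (l 16677608) (l 16676656)) (c (l 16678736) (l 16677800))))) (c (b (a (l 16664840) (b (l 16673392) (l 16674544))) (a (l 16667144) (b (l 16675704) (l 16676856)))) (b (l 30) (b (l 30) (l 16671384)))))), by decide +kernel⟩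

def k141_A00pm_113_s3 : ∃ t, chk3 f_A00pm_113_s3 t 1022 235 6 = true :=
  ⟨(b (c (b (c (l 16684104) (l 16683200)) (c (l 16685184) (l 16684288))) (c (b (l 16682288) (l 16683400)) (a (l 16682536) (b (l 16680800) (l 16681920))))) (b (c (c (l 16686272) (l 16685384)) (a (l 16684640) (c (l 16683952) (l 16683040)))) (a (b (c (l 16687168) (l 16685480)) (b (a (l 16687016) (c (a (l 16687464) (l 16687280)) (a (l 16685768) (l 16685560)))) (a (c (l 16688184) (a (l 16686632) (l 16686416))) (c (l 16687952) (l 16686256))))) (a (c (b (b (l 16686264) (c (l 16687040) (l 16686152))) (b (l 16687168) (l 16687928))) (b (b (l 16684488) (a (l 16684920) (b (l 16684568) (l 16684816)))) (c (l 16686232) (l 16685352)))) (c (b (b (a (l 16685888) (b (l 16685568) (l 16685808))) (a (l 16686384) (l 16686368))) (l 16687528)) (b (b (a (l 16684064) (b (l 16683720) (l 16683968))) (a (l 16684576) (l 16684536))) (l 16685728))))))), by decide +kernel⟩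

def k142_A00pm_113_s3 : ∃ t, chk3 f_A00pm_113_s3 t 1022 235 7 = true :=
  ⟨(b (c (c (a (l 16681664) (b (l 16679872) (l 16681000))) (a (l 16670312) (b (l 16678944) (l 16680088)))) (a (b (c (l 16679368) (l 16678504)) (c (l 16680520) (l 16679664))) (b (c (l 16678016) (l 16677088)) (c (l 16679168) (l 16678256))))) (b (c (a (l 16672456) (c (l 16682136) (l 16681224))) (a (c (l 16681672) (l 16680832)) (c (l 16680320) (l 16679424)))) (a (b (c (l 16683800) (l 16682128)) (c (a (b (l 16684552) (l 16674416)) (b (c (l 16684408) (l 16683560)) (l 16684568))) (a (c (l 16673032) (l 16672216)) (b (c (l 16672224) (l 16671384)) (l 16672400))))) (b (b (c (a (l 16682712) (a (l 16682248) (b (l 16681872) (l 16682128)))) (a (l 16680952) (a (l 16680440) (b (l 16680032) (c (l 16680744) (l 16679832)))))) (c (a (a (l 16683168) (b (l 16682784) (l 16683032))) (c (l 16683192) (l 16682288))) (c (a (c (l 16671480) (l 16671040)) (l 16681384)) (a (a (l 16680984) (l 16670224)) (a (l 16680520) (l 16680424)))))) (c (a (c (l 16684480)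 (l 16683608)) (l 16683936)) (a (c (l 16682744) (l 16671384)) (l 16682144))))))), by decide +kernel⟩

def k143_A00pm_113_s3 : ∃ t, chk3 f_A00pm_113_s3 t 1023 234 2 = true :=
  ⟨(c (b (a (c (b (l 16686064) (l 16687072)) (b (c (l 16684496) (l 16683456)) (c (l 16685520) (l 16684488)))) (c (b (c (l 16686016) (l 16684928)) (c (l 16687024) (l 16685936))) (b (c (l 16683832) (l 16682736)) (c (l 16684856) (l 16683776))))) (c (c (b (l 16688304) (l 16689304)) (a (l 16688064) (b (l 16686952) (l 16687968)))) (a (b (l 16686032) (l 16687056)) (b (c (l 16685880) (l 16684808)) (c (l 16686904) (l 16685848)))))) (b (a (c (b (c (l 16682416) (l 16681376)) (c (l 16683456) (l 16682432))) (b (c (l 16680336) (l 16679296)) (c (l 16681400) (l 16680376)))) (c (b (c (a (l 16681832) (l 16681448)) (a (l 16680752) (l 16680344))) (c (l 16682688) (a (l 16681808) (l 16681400)))) (b (c (a (l 16679672) (l 16679232)) (a (l 16678592) (c (l 16678408) (l 16677848)))) (b (c (l 16680256) (l 16679168)) (c (l 16680792) (l 16679712)))))) (a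 (c (b (c (l 16684504) (l 16683488)) (c (l 16685544) (l 16684536))) (b (c (l 16682464) (l 16681448)) (c (l 16683536) (l 16682528)))) (c (b (c (l 16683736) (a (l 16682872) (l 16682464))) (c (l 16684784) (a (l 16683928) (l 16683520)))) (b (b (c (l 16681328) (l 16680256)) (c (l 16681864) (l 16680792))) (b (c (l 16682400) (l 16681336)) (c (l 16682936) (l 16681880)))))))), by decide +kernel⟩

def k144_A00pm_113_s3 : ∃ t, chk3 f_A00pm_113_s3 t 1023 470 2 = true :=
  ⟨(c (c (c (b (l 16690304) (l 16691304)) (a (l 16690080) (b (l 16688976) (l 16689992)))) (a (b (l 16688088) (l 16689112)) (b (c (l 16687928) (l 16686880)) (c (l 16688952) (l 16687912))))) (a (c (b (c (l 16686592) (l 16685592)) (c (l 16687632) (l 16686648))) (b (c (l 16684600) (l 16683608)) (c (l 16685664) (l 16684680)))) (c (b (c (l 16685832) (a (l 16684984) (l 16684584))) (c (l 16686880) (a (l 16686040) (l 16685640)))) (b (b (c (l 16683464) (l 16682416)) (c (l 16684000) (l 16682960))) (c (a (l 16685016) (l 16684592)) (a (l 16683992) (l 16683536))))))),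 by decide +kernel⟩

def k145_A00pm_113_s3 : ∃ t, chk3 f_A00pm_113_s3 t 1023 471 4 = true :=
  ⟨(b (a (b (c (l 16691832) (l 16689880)) (a (b (l 16691392) (c (a (l 16692688) (l 16692608)) (a (l 16690784) (l 16690680)))) (b (c (a (l 16692152) (b (l 16691944) (l 16692168))) (a (l 16690184) (b (l 16689960) (l 16690184)))) (c (l 16692648) (a (l 16690656) (l 16690712)))))) (a (a (b (c (l 16691488) (l 16689464)) (b (c (l 16692072) (l 16690064)) (l 16691784))) (b (b (l 16687568) (c (b (l 16691408) (l 16691632)) (b (l 16689368) (l 16689592)))) (l 16691504))) (b (b (c (a (l 16691080) (b (l 16690880) (l 16691104))) (a (l 16689000) (b (l 16688776) (a (l 16688992) (l 16689000))))) (a (c (l 16691536) (b (l 16689296) (l 16689648))) (l 16690584))) (c (l 16692664) (l 16690608))))) (a (b (a (a (c (l 16693496) (l 16691616)) (l 16692632)) (l 16692752)) (l 16694120)) (c (l 16694736) (l 16692744)))), by decide +kernel⟩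

def k146_A00pm_113_s3 : ∃ t, chk3 f_A00pm_113_s3 t 1023 471 5 = true :=
  ⟨(b (a (c (b (l 16687928) (a (b (l 16688520) (a (l 16688888) (b (l 16688624) (l 16688856)))) (b (a (l 16688232) (b (l 16687968) (l 16688208))) (a (l 16688712) (l 16688744))))) (b (l 16685976) (a (b (l 16686608) (a (l 16686992) (b (l 16686704) (l 16686944)))) (b (a (l 16686280) (b (l 16685992) (a (l 16686232) (l 16686208)))) (a (b (l 16686584) (l 16686944)) (l 16686776)))))) (c (a (b (b (l 16687208) (a (l 16687576) (b (l 16687320) (a (l 16687552) (l 16687544))))) (b (a (b (l 16687880) (l 16688232)) (l 16688096)) (l 16688824))) (b (b (b (c (l 16687288) (l 16686248)) (a (l 16687000) (a (b (l 16686824) (l 16686968)) (l 16686896)))) (a (b (a (l 16687224) (l 16687224)) (l 16687584)) (l 16687456))) (l 16688560))) (a (b (b (l 16685176) (c (a (l 16686064) (b (l 16685792) (l 16686024))) (a (l 16685064) (b (l 16684768) (l 16685008))))) (b (a (b (a (l 16685872) (l 16685856)) (l 16686232)) (l 16686072)) (l 16686824))) (b (b (a (c (l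 16685376) (l 16684336)) (b (c (l 16685096) (l 16684048)) (a (b (l 16684736) (l 16684880)) (l 16684800)))) (a (b (a (b (l 16685088) (l 16685232)) (l 16685152)) (l 16685528)) (l 16685368))) (l 16686504))))) (a (a (b (a (b (c (l 16689368) (l 16687480)) (l 16689168)) (l 16686200)) (l 16690312)) (c (l 16690600) (l 16688680))) (c (l 16690760) (a (l 16688744) (l 16688816))))), by decide +kernel⟩

def k147_A00pm_113_s3 : ∃ t, chk3 f_A00pm_113_s3 t 1023 234 6 = true :=
  ⟨(b (a (c (b (c (l 16678256) (l 16677216)) (c (l 16679344) (l 16678320))) (b (c (a (l 16676456) (l 16675904)) (a (l 16675440) (l 16674856))) (c (a (l 16677568) (l 16677016)) (a (l 16676560) (l 16675984))))) (c (b (c (a (l 16677512) (c (l 16677296) (l 16676744))) (a (l 16676432) (b (l 16675640) (l 16676192)))) (c (a (l 16678608) (c (l 16678392) (l 16677840))) (a (l 16677536) (c (l 16677296) (l 16676744))))) (a (b (c (c (l 16675624) (l 16675088)) (c (l 16674544) (l 16674008))) (c (c (l 16676736) (l 16676200)) (c (l 16675672) (l 16675136))))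 (b (c (c (b (l 16674808) (l 16675360)) (b (l 16674248) (l 16674808))) (c (b (l 16673696) (l 16674264)) (b (l 16673144) (l 16673712)))) (c (c (b (l 16675920) (l 16676480)) (b (l 16675376) (l 16675936))) (c (b (l 16674824) (l 16675384)) (b (l 16674272) (l 16674840)))))))) (a (c (b (c (l 16680432) (l 16679424)) (c (l 16681528) (l 16680520))) (c (b (l 16678408) (l 16679520)) (b (a (l 16677688) (l 16677104)) (a (l 16678808) (l 16678232))))) (c (b (c (a (l 16679696) (c (l 16679480) (l 16678936))) (a (l 16678640) (c (l 16678400) (l 16677856)))) (c (a (l 16680792) (c (l 16680568) (l 16680032))) (a (l 16679744) (c (l 16679496) (l 16678960))))) (b (c (b (c (l 16677304) (l 16676768)) (c (l 16677856) (l 16677328))) (a (c (l 16676792) (l 16676264)) (c (b (l 16675952) (l 16676512)) (b (l 16675408) (l 16675968))))) (c (b (c (l 16678416) (l 16677888)) (c (l 16678968) (l 16678440))) (c (b (l 16677352) (l 16677912)) (a (l 16677392) (b (l 16676536) (l 16677104))))))))), by decide +kernel⟩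

def k148_A00pm_113_s3 : ∃ t, chk3 f_A00pm_113_s3 t 1023 468 7 = true :=
  ⟨(a (b (c (c (a (l 16674416) (l 16673808)) (a (l 16673400) (l 16672760))) (c (b (l 16671752) (l 16672336)) (l 30))) (c (c (a (l 16675552) (l 16674944)) (a (l 16674544) (l 16673904))) (c (b (l 16672912) (l 16673496)) (l 30)))) (c (a (b (c (c (l 16673464) (l 16672928)) (c (l 16672392) (l 16671848))) (c (c (l 16674600) (l 16674072)) (c (l 16673536) (l 16673000)))) (b (c (c (b (l 16672584) (l 16673160)) (b (a (l 16672184) (l 16671880)) (a (l 16672760) (l 16672456)))) (c (b (a (l 16671632) (l 16671320)) (a (l 16672208) (l 16671896))) (b (b (l 16670784) (l 16671072)) (b (l 16671360) (l 16671648))))) (c (c (b (l 16673728) (l 16674296)) (b (l 16673176) (l 16673744))) (c (b (a (l 16672784) (l 16672472)) (a (l 16673360) (l 16673048))) (b (a (l 16672240) (l 16671920)) (a (l 16672816) (l 16672496))))))) (a (c (b (c (b (l 16671024) (l 16671600)) (l 30)) (c (b (l 16672184) (l 16672760)) (b (l 30) (l 16672232)))) (l 30)) (c (b (c (c (b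 (l 16670512) (l 16671088)) (l 30)) (l 30)) (c (b (c (l 16671664) (l 16671392)) (b (l 16671968) (l 16672256))) (b (l 30) (a (l 16671728) (b (l 30) (l 16671544)))))) (l 30))))), by decide +kernel⟩

def k149_A00pm_113_s3 : ∃ t, chk3 f_A00pm_113_s3 t 1023 469 7 = true :=
  ⟨(a (b (c (c (a (l 16676688) (l 16676080)) (a (l 16675688) (l 16675056))) (c (b (l 16674072) (l 16674648)) (l 30))) (c (c (a (l 16677824) (l 16677216)) (a (l 16676840) (l 16676200))) (c (b (l 16675232) (l 16675808)) (c (l 16674768) (l 30))))) (c (a (b (c (c (l 16675736) (l 16675208)) (c (l 16674680) (l 16674152))) (c (c (l 16676872) (l 16676352)) (c (l 16675832) (l 16675304)))) (b (c (c (b (l 16674864) (l 16675432)) (b (l 16674320) (l 16674888))) (c (b (a (l 16673928) (l 16673624)) (a (l 16674504) (l 16674192))) (b (a (l 16673392) (l 16673072)) (a (l 16673968) (l 16673648))))) (c (c (b (l 16676000) (l 16676568)) (b (l 16675464) (l 16676032))) (c (b (l 16674920) (l 16675496)) (b (a (l 16674544) (l 16674224)) (a (l 16675120) (l 16674800)))))))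 (a (b (c (c (b (l 16673344) (l 16673920)) (b (l 16672816) (l 16673392))) (l 30)) (c (c (l 16674784) (b (l 16673976) (l 16674560))) (c (b (l 16673456) (l 16674040)) (l 30)))) (b (c (c (b (b (l 16672544) (l 16672832)) (a (l 16673432) (l 16673104))) (c (b (l 16672280) (l 16672864)) (a (l 16672464) (b (l 16671840) (l 16672424))))) (l 30)) (c (c (b (a (l 16674008) (l 16673688)) (a (l 16674592) (l 16674264))) (b (b (l 16673168) (l 16673456)) (b (l 16673744) (l 16674040)))) (c (c (a (l 16673368) (b (l 16672736) (l 16673320))) (b (l 30) (a (l 16673392) (l 16673056)))) (l 30))))))), by decide +kernel⟩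

def k150_A00pm_113_s3 : ∃ t, chk3 f_A00pm_113_s3 t 1023 470 6 = true :=
  ⟨(a (c (b (c (l 16682616) (l 16681624)) (c (l 16683704) (l 16682720))) (b (c (l 16680632) (a (l 16679928) (l 16679352))) (c (l 16681744) (a (l 16681056) (l 16680480))))) (c (b (c (a (l 16681880) (c (l 16681664) (l 16681128))) (a (l 16680848) (c (l 16680600) (l 16680072)))) (c (b (l 16682456) (l 16683000)) (a (l 16681952) (c (l 16681704) (l 16681176))))) (b (c (a (c (l 16680072) (l 16679552)) (b (l 16678992) (l 16679552))) (c (b (l 16678480) (l 16679040)) (a (l 16678520) (b (l 16677664) (l 16678232))))) (c (a (l 16680928) (c (l 16680648) (l 16680128))) (b (c (l 16679600) (l 16679080)) (c (l 16680160) (l 16679648))))))), by decide +kernel⟩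

def k151_A00pm_113_s3 : ∃ t, chk3 f_A00pm_113_s3 t 1023 470 7 = true :=
  ⟨(a (c (b (c (a (l 16678952) (l 16678352)) (a (l 16677984) (l 16677344))) (c (a (l 16680088) (l 16679488)) (a (l 16679128) (l 16678496)))) (a (b (c (l 16677008) (l 16676040)) (c (l 16678168) (l 16677208))) (b (c (c (l 16676592) (l 16676096)) (c (l 16675592) (l 16675096))) (c (c (l 16677752) (l 16677256)) (c (l 16676760) (l 16676264)))))) (c (a (b (c (c (l 16678008) (l 16677488)) (c (l 16676976) (l 16676456))) (c (c (l 16679136) (l 16678632)) (c (l 16678120) (l 16677608)))) (b (c (c (b (l 16677136) (l 16677704)) (b (l 16676600) (l 16677168))) (c (b (l 16676072) (l 16676640)) (b (a (l 16675696) (l 16675376)) (l 16676112)))) (c (c (b (l 16678272) (l 16678832)) (b (l 16677744) (l 16678312))) (c (b (l 16677216) (l 16677792)) (b (l 16676688) (l 16677264)))))) (a (b (c (c (l 16675944) (b (l 16675136) (l 16675720))) (c (b (l 16674624) (l 16675208)) (b (l 16674104) (l 16674688)))) (b (c (l 16676552) (c (l 16675792) (l 16675280)))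 (c (l 16677136) (c (l 16676376) (l 16675864))))) (b (c (c (b (a (l 16675168) (l 16674848)) (a (l 16675744) (l 16675424))) (b (b (l 16674328) (l 16674616)) (a (l 16675224) (l 16674888)))) (c (c (b (l 16674072) (l 16674656)) (a (l 16674272) (b (l 16673640) (l 16674224)))) (b (a (l 16673584) (b (l 30) (l 16673384))) (a (l 16674168) (b (l 16673680) (l 16673976)))))) (c (c (b (a (l 16676328) (l 16676000)) (a (l 16676904) (l 16676584))) (b (a (l 16675800) (l 16675472)) (a (l 16676384) (l 16676056)))) (c (b (b (l 16674968) (l 16675256)) (b (l 16675552) (l 16675840))) (c (b (a (l 16674888) (l 16674544)) (l 16675304)) (b (a (l 16674624) (l 16674280)) (a (l 16675216) (l 16674872)))))))))), by decide +kernel⟩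

def k152_A00pm_113_s3 : ∃ t, chk3 f_A00pm_113_s3 t 2046 942 6 = true :=
  ⟨(c (a (b (l 16684288) (b (l 16684696) (a (l 16685104) (b (l 16684784) (l 16685032))))) (b (l 16683784) (b (a (l 16684328) (b (l 16684008) (a (l 16684264) (l 16684232)))) (a (c (l 16685312) (l 16684344)) (l 16684816))))) (b (c (l 16682576) (l 16681608)) (a (b (l 16682792) (a (l 16683224) (b (l 16682872) (a (l 16683136) (l 16683088))))) (b (c (a (l 16682864) (b (l 16682528) (l 16682776))) (a (l 16681896) (b (l 16681536) (a (l 16681808) (l 16681760))))) (a (b (a (l 16682720) (l 16682672)) (l 16683072)) (l 16682856)))))), by decide +kernel⟩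

def k153_A00pm_113_s3 : ∃ t, chk3 f_A00pm_113_s3 t 2047 942 6 = true :=
  ⟨(c (a (b (b (l 16683144) (a (c (l 16684056) (l 16683048)) (b (c (l 16683744) (l 16682728)) (a (b (l 16683408) (l 16683552)) (l 16683464))))) (a (b (b (c (l 16684368) (l 16683368)) (l 16684232)) (l 16684824)) (l 16684440))) (b (b (b (a (l 16682704) (a (l 16682520) (b (l 16682360) (c (l 16682976) (l 16681920))))) (a (a (l 16682904) (c (l 16683312) (l 16682272))) (a (b (c (l 16683168) (l 16682120)) (l 16682784)) (c (l 16683216) (l 16682168))))) (a (b (a (b (c (l 16683544) (l 16682512)) (l 16683168)) (l 16683080)) (l 16683464)) (l 16683280))) (l 16681832))) (a (b (b (c (l 16681624) (l 16680608)) (a (c (l 16682048) (a (l 16681104) (l 16680968))) (b (a (l 16681256) (c (l 16681640) (l 16680624))) (a (b (c (l 16681888) (l 16680872)) (l 16681528)) (c (l 16681928) (l 16680912)))))) (b (a (b (a (b (l 16681800) (l 16681944)) (l 16681832)) (l 16682240)) (l 16682024)) (l 16682832))) (a (b (a (b (l 16680768) (b (b (c (l 16681480) (l 16680448))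 (c (l 16681624) (l 16680600))) (l 16681408))) (b (b (l 16680568) (b (l 16680672) (c (l 16681272) (l 16680240)))) (c (l 16681720) (l 16680688)))) (l 16682408)) (b (b (b (a (l 16680424) (c (a (l 16680848) (b (l 16680752) (l 16680840))) (a (l 16679800) (b (l 16679688) (b (l 16679752) (l 16679816)))))) (a (b (c (l 16681072) (a (l 16680048) (l 16680000))) (c (l 16681224) (l 16680176))) (c (l 16681120) (l 16680064)))) (c (l 16681720) (l 16680672))) (c (l 16682912) (l 16681888)))))), by decide +kernel⟩

def k154_A00pm_113_s3 : ∃ t, chk3 f_A00pm_113_s3 t 1023 943 6 = true :=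
  ⟨(b (a (c (a (a (c (l 16686456) (l 16685520)) (l 16685976)) (l 16685984)) (a (b (a (b (l 16683544) (l 16683912)) (l 16683688)) (l 16684496)) (l 16684056))) (c (a (l 16686000) (l 16686024)) (c (l 16684512) (l 16683520)))) (a (c (l 16687536) (l 16685664)) (c (l 16687576) (a (l 16685616) (l 16685600))))), by decide +kernel⟩

def k155_A00pm_113_s3 : ∃ t, chk3 f_A00pm_113_s3 t 2046 942 7 = true :=
  ⟨(c (b (c (l 16680640) (l 16679672)) (a (b (l 16680896) (b (c (l 16681584) (l 16680640)) (a (l 16681416) (a (l 16681240) (l 16681176))))) (a (b (c (l 16680920) (l 16679952)) (b (a (c (l 16681272) (l 16680304)) (l 16680728)) (l 16681144))) (b (b (c (l 16680552) (l 16679568)) (a (c (l 16680824) (l 16679848)) (l 16680280))) (l 16680896))))) (b (c (l 16678704) (a (l 16678080) (l 16677392))) (a (b (l 16679000) (c (a (l 16679936) (b (l 16679536) (l 16679792))) (a (l 16679000) (b (l 16678584) (l 16678840))))) (b (b (a (l 16678416) (c (l 16678584) (a (l 16677672) (l 16677512)))) (a (c (l 16679056) (l 16678088))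 (c (a (l 16678864) (l 16678800)) (a (b (l 16677800) (l 16677952)) (l 16677816))))) (a (b (a (b (l 16678776) (l 16678928)) (l 16678792)) (l 16679216)) (l 16678944)))))), by decide +kernel⟩

def k156_A00pm_113_s3 : ∃ t, chk3 f_A00pm_113_s3 t 4094 942 7 = true :=
  ⟨(c (b (b (c (l 16679600) (l 16678584)) (b (b (c (l 16679776) (l 16678760)) (a (l 16679496) (a (l 16679264) (c (l 16679640) (l 16678616))))) (a (c (l 16680112) (a (l 16679176) (l 16679032))) (a (c (b (l 16679856) (l 16680008)) (b (l 16678848) (l 16679000))) (c (l 16679888) (l 16678872)))))) (b (a (b (a (c (l 16680384) (b (l 16679304) (l 16679456))) (c (l 16680328) (l 16679328))) (l 16680248)) (l 16680000)) (l 16680832))) (b (b (c (l 16677568) (l 16676560)) (a (a (l 16677608) (b (l 16677368) (b (l 16677472) (c (l 16678072) (l 16677064))))) (c (a (b (l 16677704) (b (l 16677832) (l 16677984))) (b (b (l 16677504) (a (l 16677624) (l 16677560))) (l 16677856))) (a (b (l 16676688) (b (a (l 16676848) (l 16676784)) (l 16676976))) (b (b (l 16676488)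 (a (l 16676600) (b (l 16676496) (l 16676568)))) (l 16676832)))))) (b (a (b (c (a (b (l 16678304) (l 16678456)) (l 16678328)) (a (b (l 16677312) (l 16677464)) (l 16677320))) (l 16678256)) (c (l 16678488) (l 16677480))) (c (l 16679344) (l 16678344))))), by decide +kernel⟩

def k157_A00pm_113_s3 : ∃ t, chk3 f_A00pm_113_s3 t 8190 942 7 = true :=
  ⟨(c (b (b (c (a (l 16679224) (b (l 16679008) (b (l 16679112) (a (l 16679224) (l 16679168))))) (a (l 16678192) (b (l 16677968) (b (l 16678072) (a (l 16678184) (b (l 16678088) (l 16678160))))))) (b (a (c (b (l 16679416) (l 16679568)) (b (a (l 16678416) (l 16678352)) (l 16678544))) (c (l 16679448) (l 16678416))) (c (l 16679864) (l 16678840)))) (c (l 16680880) (l 16679864))) (b (c (b (a (l 16677160) (b (l 16676928) (b (l 16677032) (a (l 16677152) (b (l 16677048) (l 16677120)))))) (b (a (b (a (l 16677384) (b (l 16677288) (l 16677352))) (l 16677512)) (a (l 16677392) (l 16677376))) (l 16677808))) (b (a (l 16676128) (b (l 16675888) (b (l 16675992) (a (l 16676112)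 (b (l 16676008) (l 16676080)))))) (b (a (b (a (l 16676360) (b (l 16676256) (l 16676320))) (l 16676488)) (c (l 16676608) (l 16676088))) (l 16676784)))) (c (l 16678848) (l 16677824)))), by decide +kernel⟩

def k158_A00pm_113_s3 : ∃ t, chk3 f_A00pm_113_s3 t 8191 942 7 = true :=
  ⟨(c (a (b (b (b (c (l 16678856) (l 16677808)) (c (b (a (l 16679000) (b (l 16678912) (l 16678976))) (l 16679128)) (b (a (l 16677960) (b (l 16677864) (l 16677928))) (a (l 16678096) (l 16678080))))) (c (l 16679640) (l 16678600))) (c (l 16680864) (l 16679832))) (b (b (b (b (c (l 16678672) (l 16677616)) (c (a (l 16678784) (b (l 16678696) (l 16678760))) (a (l 16677728) (b (l 16677640) (a (l 16677704) (l 16677696)))))) (a (c (l 16679016) (c (l 16678232) (l 16677704))) (c (l 16679008) (l 16677960)))) (c (l 16679624) (l 16678576))) (c (l 16680848) (l 16679816)))) (a (b (c (b (b (l 16676760) (b (a (l 16676912) (b (l 16676816) (c (l 16677144) (l 16676624)))) (c (l 16677304) (l 16676784)))) (l 16677560)) (b (b (l 16675712) (c (b (a (l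 16676128) (b (l 16676032) (l 16676096))) (l 16676264)) (b (a (l 16675608) (b (l 16675504) (l 16675576))) (a (l 16675752) (l 16675728))))) (l 16676520))) (c (l 16678808) (l 16677776))) (b (a (c (b (b (c (l 16676904) (l 16676376)) (a (c (l 16677184) (l 16676656)) (l 16676912))) (l 16677544)) (b (a (b (l 16675608) (b (b (c (l 16675984) (l 16675456)) (l 16675816)) (l 16675976))) (b (c (l 16675832) (b (l 16675264) (l 16675344))) (l 16675864))) (l 16676496))) (b (b (c (b (l 16676520) (b (c (l 16676848) (l 16676320)) (c (l 16676912) (l 16676384)))) (b (l 16675464) (b (c (l 16675792) (a (l 16675280) (l 16675240))) (a (c (l 16675864) (l 16675336)) (l 16675584))))) (c (l 16676904) (l 16675848))) (c (l 16677528) (l 16676480)))) (c (l 16678776) (c (l 16678008) (l 16677488)))))), by decide +kernel⟩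

def k159_A00pm_113_s3 : ∃ t, chk3 f_A00pm_113_s3 t 1023 943 7 = true :=
  ⟨(a (c (b (a (a (b (c (l 16682328) (l 16681392)) (l 16682656)) (l 16682200)) (l 16682136)) (l 16683792)) (a (b (b (b (a (c (l 16680272) (l 16679336)) (l 16679704)) (l 16680152)) (l 16680768)) (l 16682000)) (c (l 16681520) (l 16680568)))) (c (a (c (l 16683360) (l 16682376)) (b (c (l 16682488) (l 16681480)) (c (l 16684112) (l 16683120)))) (a (c (l 16681400) (l 16677808)) (b (c (l 16680472) (a (l 16679496) (l 16679432))) (c (l 16682128) (l 16681128)))))), by decide +kernel⟩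

def k160_A00pm_113_s3 : ∃ t, chk3 f_A00pm_113_s3 t 126 118 1 = true :=
  ⟨(a (c (b (c (a (l 16696816) (l 16703416)) (a (l 16699368) (l 16705072))) (c (a (l 16711248) (a (l 16697888) (l 16701272))) (a (l 16714056) (a (l 16700016) (l 16697712))))) (b (c (a (l 16723192) (l 16706992)) (a (l 16726344) (c (l 16719096) (l 16720248)))) (c (a (l 16727656) (a (l 16702432) (l 16699648))) (a (c (l 16730192) (l 16731984)) (c (l 16723800) (l 16725088)))))) (c (b (c (a (c (l 16689096) (l 16689424)) (b (l 16690032) (l 16692048))) (a (c (l 16689800) (l 16690240)) (b (l 16695104) (l 16697232)))) (a (c (b (l 16692304) (l 16699656)) (b (l 16693248) (l 16695480))) (b (c (c (l 16709880) (l 16709856)) (l 16699424)) (c (a (b (l 16712296) (c (l 16692640) (l 16692808))) (b (a (l 16711160) (a (l 16710728) (l 16710560))) (l 16713144))) (a (b (l 16712656) (l 16698384)) (b (c (l 16689928) (l 16689928)) (l 16713136))))))) (b (c (a (b (l 16689920) (l 16692136)) (b (l 16695104) (l 16697352))) (a (c (l 16691896) (l 16713528))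 (c (l 16696368) (l 16707016)))) (a (c (b (l 16694424) (l 16696776)) (c (l 16707136) (l 16718408))) (b (c (l 16699664) (b (l 16688992) (l 16700704))) (c (b (c (l 16701560) (l 16701768)) (a (l 16704248) (l 16713296))) (a (b (l 16713976) (l 16705064)) (b (c (l 16690200) (l 16690384)) (l 16692664))))))))), by decide +kernel⟩

def k161_A00pm_113_s3 : ∃ t, chk3 f_A00pm_113_s3 t 126 119 2 = true :=
  ⟨(b (a (a (c (a (l 16705920) (l 16714480)) (a (l 16709216) (l 16717328))) (b (c (l 16700128) (l 16702224)) (c (a (b (l 16723648) (l 16704040)) (b (l 16701144) (l 16724160))) (a (l 16716352) (b (l 16703104) (l 16726176)))))) (a (b (c (a (b (l 16717872) (l 16703528)) (b (l 16700720) (l 16718560))) (a (b (l 16719264) (l 16699736)) (b (l 16706896) (l 16719552)))) (c (a (l 16701536) (l 16722240)) (a (l 16703064) (l 16723320)))) (b (c (a (l 16701320) (l 16716960)) (a (l 16707080) (l 16717048))) (c (l 16722008) (l 16722448))))) (a (a (b (c (a (l 16719840) (c (l 16712552) (l 16708744))) (a (l 16723344) (l 16721536)))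 (c (b (l 16716864) (l 16734784)) (b (l 16714952) (l 16738144)))) (c (a (b (l 16728160) (l 16732792)) (l 16719568)) (a (c (l 16721872) (l 16723240)) (l 16711208)))) (c (a (l 16719088) (l 16718848)) (a (a (l 16710408) (l 16709736)) (l 16719464))))), by decide +kernel⟩

def k162_A00pm_113_s3 : ∃ t, chk3 f_A00pm_113_s3 t 126 119 3 = true :=
  ⟨(a (b (a (c (a (l 16712840) (l 16720472)) (c (l 16735120) (l 16737048))) (b (c (l 16704592) (l 16728200)) (c (a (l 16719088) (c (l 16705864) (l 16707056))) (a (l 16732592) (c (l 16708312) (l 16709632)))))) (a (c (b (a (l 16727168) (l 16724864)) (b (l 16718592) (l 16741808))) (b (a (l 16741808) (l 16738992)) (c (l 16722760) (l 16745800)))) (c (a (c (l 16714192) (l 16715696)) (l 16724080)) (b (c (l 16714104) (l 16736568)) (l 16740560))))) (b (a (c (b (a (b (l 16720888) (l 16701424)) (c (l 16708896) (l 16709544))) (c (l 16703952) (l 16704776))) (b (a (b (l 16722752) (l 16703352)) (c (l 16710240) (l 16711000))) (c (l 16705656) (l 16706592)))) (c (b (c (l 16707288)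 (l 16707584)) (l 16702088)) (b (c (l 16707920) (l 16708304)) (l 16713376)))) (c (a (c (l 16711304) (l 16712200)) (c (l 16709560) (l 16710000))) (a (c (l 16713152) (l 16735136)) (c (l 16710488) (l 16732000)))))), by decide +kernel⟩

def k163_A00pm_113_s3 : ∃ t, chk3 f_A00pm_113_s3 t 254 118 2 = true :=
  ⟨(b (a (a (b (c (l 16703296) (l 16702456)) (c (l 16705336) (l 16704608))) (c (b (l 16701712) (c (l 16704088) (l 16703472))) (c (b (l 16700744) (l 16702880)) (b (l 16700136) (l 16702328))))) (b (a (c (c (l 16700632) (l 16699752)) (c (l 16698888) (l 16698056))) (c (c (l 16699272) (l 16698168)) (c (l 16697096) (l 16696040)))) (c (a (b (l 16701744) (a (b (l 16702904) (l 16703584)) (b (a (l 16702392) (l 16702184)) (l 16703408)))) (b (a (b (l 16700384) (a (l 16701128) (l 16700928))) (b (a (l 16699888) (l 16699696)) (l 16700920))) (a (l 16702832) (l 16702984)))) (a (b (l 16700104) (a (c (l 16702160) (l 16701456)) (c (b (l 16701032) (l 16702144)) (l 16685080)))) (c (b (b (a (l 16698888) (l 16698168)) (a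 (l 16699592) (l 16699296))) (l 16701440)) (b (b (a (l 16697920) (l 16697096)) (a (l 16698640) (l 16698248))) (l 16700464))))))) (a (b (c (a (b (l 16706912) (b (a (l 16708112) (l 16707464)) (a (l 16708784) (l 16708528)))) (a (b (b (l 16705480) (l 16706160)) (l 16707880)) (b (b (l 16704864) (l 16705944)) (l 16707944)))) (a (b (l 16706272) (a (l 16692272) (l 16691608))) (b (a (l 16689144) (b (l 16703656) (l 16704768))) (l 16691200)))) (c (a (a (l 16696056) (l 16711808)) (l 16711880)) (a (a (l 16695680) (l 16711232)) (l 16711000)))) (b (c (a (a (b (l 16705328) (l 16708024)) (l 16706792)) (l 16707008)) (a (c (l 16689880) (l 16689184)) (l 16702544))) (c (b (l 16710888) (l 16713552)) (a (l 16710800) (l 16710736)))))), by decide +kernel⟩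

def k164_A00pm_113_s3 : ∃ t, chk3 f_A00pm_113_s3 t 254 118 3 = true :=
  ⟨(b (a (c (b (b (l 16689480) (l 16690592)) (a (l 16693544) (l 16691080))) (b (c (l 16678944) (l 16678592)) (c (l 16681296) (l 16681000)))) (b (c (c (l 16685632) (b (l 16684176) (l 16685320))) (c (b (l 16683296) (l 16684464)) (a (l 16695008) (l 16681560)))) (c (c (a (b (l 16698952) (b (l 16684184) (l 16685144))) (b (b (a (l 16696984) (l 16696040)) (a (l 16697712) (l 16697208))) (l 16699520))) (a (b (l 16698216) (a (l 16689640) (l 16688776))) (b (a (l 16685984) (l 16685160)) (l 16698600)))) (a (b (l 16686680) (c (a (l 16678536) (l 16688040)) (a (l 16677944) (l 16687328)))) (b (a (c (l 16685096) (l 16684232)) (b (c (l 16683504) (l 16682512)) (l 16684240))) (c (l 16687216) (l 16686336))))))) (a (b (c (a (b (l 16705776) (c (l 16696912) (l 16696736))) (b (a (l 16693552) (l 16692704)) (l 16695568))) (a (b (l 16705440) (c (l 16696600) (l 16696496))) (b (c (l 16692568) (l 16692192)) (l 16694832)))) (c (a (b (l 16688672) (l 16712376))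 (l 16710248)) (a (b (l 16698960) (l 16712248)) (l 16688656)))) (c (b (a (c (l 16693752) (l 16693112)) (l 16692928)) (b (l 16697472) (l 16700312))) (b (a (c (l 16692496) (l 16691912)) (a (l 16691488) (l 16691048))) (c (l 16687456) (l 16697328)))))), by decide +kernel⟩

def k165_A00pm_113_s3 : ∃ t, chk3 f_A00pm_113_s3 t 510 236 2 = true :=
  ⟨(b (c (a (b (c (l 16697456) (l 16696128)) (b (a (l 16697920) (a (l 16697440) (b (l 16696976) (l 16697496)))) (a (a (l 16698656) (b (l 16698192) (l 16698704))) (l 16698496)))) (b (a (b (l 16695504) (a (b (l 16696064) (l 16696376)) (b (l 16695784) (l 16696304)))) (b (a (c (l 16695832) (l 16694264)) (b (c (l 16695416) (l 16693792)) (l 16695120))) (c (l 16696912) (l 16695344)))) (a (c (l 16698720) (l 16697280)) (l 16698248)))) (a (c (b (l 16694824) (b (a (l 16696056) (a (l 16695456) (l 16695208))) (a (a (l 16696856) (l 16696592)) (l 16696512)))) (b (l 16693528) (b (a (l 16694840) (a (l 16694160) (l 16693856))) (a (a (l 16695680) (l 16695368)) (l 16695208))))) (b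 (b (c (a (l 16693288) (a (l 16692704) (b (l 16692176) (l 16692712)))) (a (l 16691824) (a (l 16691160) (b (l 16690576) (l 16691120))))) (a (b (c (l 16693728) (l 16692272)) (a (l 16693512) (l 16693336))) (c (l 16693784) (l 16692232)))) (a (c (l 16695856) (l 16694440)) (l 16695216))))) (b (c (a (a (b (l 16699704) (l 16701088)) (l 16700592)) (l 16700944)) (a (a (b (l 16697304) (l 16698736)) (l 16698032)) (c (l 16698808) (l 16697400)))) (c (c (l 16704144) (l 16702848)) (c (l 16701576) (l 16700312))))), by decide +kernel⟩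

def k166_A00pm_113_s3 : ∃ t, chk3 f_A00pm_113_s3 t 510 236 3 = true :=
  ⟨(b (c (a (b (c (l 16692256) (l 16691000)) (b (a (l 16693056) (b (c (l 16692464) (l 16691168)) (a (l 16692400) (l 16692112)))) (c (a (a (l 16694528) (l 16694160)) (l 16693920)) (a (a (l 16693392) (l 16692968)) (l 16692656))))) (b (b (a (c (l 16690376) (l 16688944)) (c (a (l 16689624) (b (l 16688984) (l 16689544))) (a (b (l 16687920) (l 16688264)) (b (l 16687400) (l 16687976))))) (a (c (a (l 16691248) (b (l 16690592) (l 16691152))) (a (l 16689848) (b (l 16689136) (l 16689704)))) (c (l 16690704) (l 16689176)))) (a (a (c (l 16693072) (l 16691712)) (l 16692320)) (c (l 16692968) (l 16691480))))) (c (a (b (l 16689768) (a (b (l 16691312) (l 16681584)) (b (l 16679680) (l 16691400)))) (b (a (b (l 16687520) (b (l 16677512) (l 16678000))) (b (a (l 16676112) (a (l 16675728) (l 16675552))) (l 16677176))) (a (l 16679808) (l 16690008)))) (a (b (l 16688544) (a (b (l 16690168) (l 16680464)) (b (c (l 16678736) (l 16678112)) (l 16690168))))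 (b (a (b (l 16686112) (b (l 16676120) (l 16676608))) (b (a (l 16674616) (b (l 16673784) (l 16684864))) (l 16675672))) (a (l 16678448) (l 16688552)))))) (c (a (a (b (c (l 16696288) (l 16695160)) (l 16698696)) (l 16686544)) (c (l 16697512) (l 16685672))) (a (b (c (l 16683416) (l 16682272)) (l 16685896)) (c (l 16684328) (l 16683000))))), by decide +kernel⟩

def k167_A00pm_113_s3 : ∃ t, chk3 f_A00pm_113_s3 t 510 237 1 = true :=
  ⟨(c (a (c (c (l 16694952) (l 16693872)) (c (l 16692816) (l 16697016))) (c (c (l 16695576) (l 16694328)) (c (l 16693088) (l 16697112)))) (c (c (a (l 16695992) (l 16695896)) (b (l 16691848) (l 16697752))) (b (c (l 16690712) (c (l 16689872) (l 16689312))) (c (l 16696720) (l 16695696))))), by decide +kernel⟩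

def k168_A00pm_113_s3 : ∃ t, chk3 f_A00pm_113_s3 t 1022 118 1 = true :=
  ⟨(b (c (b (b (c (a (b (c (l 16695808) (l 16694120)) (l 16696384)) (l 16695968)) (a (b (c (l 16692440) (a (l 16690760) (l 16690776))) (l 16693088)) (c (l 16693336) (l 16691584)))) (c (c (l 16699512) (l 16697848)) (c (l 16696192) (l 16694552)))) (c (c (l 16703728) (l 16702152)) (c (l 16700584) (l 16699024)))) (c (b (b (a (a (b (c (l 16689120) (l 16687496)) (l 16689848)) (b (l 16688256) (l 16689800))) (c (l 16689848) (l 16688112))) (c (l 16692912) (l 16691288))) (c (b (l 16695952) (l 16698968)) (l 16685440))) (b (b (c (a (c (l 16676520) (l 16675712)) (l 16686384)) (a (b (a (l 16673784) (l 16684088)) (l 16685792)) (l 16674176))) (c (l 16679176) (a (l 16688208) (l 16687904)))) (c (a (l 16694480) (l 16683824)) (a (l 16682512) (l 16682248)))))) (c (c (c (l 16696320) (l 16694904)) (c (b (l 16706360) (l 16712048)) (l 16697344))) (c (c (c (l 16696304) (l 16695616)) (c (l 16694920) (l 16694240))) (b (c (l 16690120) (l 16688704)) (c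 (l 16706728) (l 16694936)))))), by decide +kernel⟩

def k169_A00pm_113_s3 : ∃ t, chk3 f_A00pm_113_s3 t 1023 118 1 = true :=
  ⟨(c (b (b (b (c (c (l 16697408) (l 16695528)) (a (c (l 16693528) (l 16691696)) (c (l 16693760) (l 16691832)))) (c (a (l 16699168) (l 16699536)) (c (l 16696616) (l 16694792)))) (a (c (c (l 16704312) (l 16702608)) (c (l 16700912) (l 16699224))) (c (c (l 16704736) (l 16702960)) (c (l 16701176) (l 16699400))))) (b (c (a (l 16709104) (l 16709520)) (c (l 16706880) (l 16705256))) (c (l 16714888) (a (l 16711728) (l 16712016))))) (b (a (c (c (b (b (l 16689864) (l 16692944)) (l 16697536)) (b (a (l 16679136) (l 16679112)) (l 16685368))) (b (c (c (l 16677776) (b (l 16685752) (l 16688968))) (b (b (l 16683568) (l 16685208)) (l 16677168))) (c (l 16683696) (b (l 16690896) (l 16694112))))) (a (c (c (b (b (l 16689896) (l 16692992)) (l 16697600)) (b (b (l 16688000) (l 16691152)) (l 16695856))) (b (b (c (l 16683480) (c (l 16684688) (l 16683736))) (c (l 16689320) (l 16687488))) (c (l 16683624)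 (b (l 16690744) (l 16693984))))) (c (c (b (b (l 16689928) (l 16693032)) (l 16697664)) (b (b (a (l 16687992) (l 16687984)) (l 16691152)) (b (l 16694304) (l 16697424)))) (c (c (b (b (l 16686536) (l 16689744)) (l 16694528)) (b (b (l 16685560) (l 16688808)) (l 16683144))) (b (b (c (l 16684592) (b (l 16682792) (l 16684448))) (c (l 16687864) (l 16686928))) (b (a (l 16690680) (l 16688024)) (l 16693912))))))) (b (c (c (a (l 16703584) (l 16703712)) (l 16691552)) (a (c (l 16700456) (l 16688416)) (c (l 16689928) (a (l 16688312) (l 16688256))))) (c (c (l 16709616) (l 16708120)) (c (l 16696152) (l 16694664)))))), by decide +kernel⟩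

def k170_A00pm_113_s3 : ∃ t, chk3 f_A00pm_113_s3 t 127 119 1 = true :=
  ⟨(a (c (b (c (a (c (l 16704000) (l 16703736)) (c (l 16704712) (l 16704080))) (a (c (l 16708752) (l 16708560)) (b (l 16700480) (l 16705824)))) (c (a (b (l 16727096) (l 16731960)) (b (l 16727752) (l 16732704))) (a (l 16718904) (c (l 16708616) (l 16708192))))) (b (c (a (b (l 16705624) (l 16711008)) (b (l 16704520) (l 16710032))) (a (c (l 16708200) (l 16718640)) (b (a (l 16703848) (l 16703040)) (b (l 16707696) (l 16710504))))) (c (a (c (l 16708384) (l 16718888)) (b (l 16715432) (l 16710216))) (a (b (l 16716320) (l 16721592)) (b (l 16714672) (l 16720096)))))) (a (c (a (b (c (l 16705096) (l 16708600)) (c (l 16710128) (l 16719232))) (b (c (l 16705728) (l 16708896)) (c (l 16710856) (l 16719640)))) (b (c (b (a (l 16714576) (l 16704008)) (l 16709688)) (b (c (l 16702624) (l 16701696)) (a (l 16708200) (l 16707824)))) (c (b (l 16715216) (l 16720616)) (b (c (l 16724568) (l 16713344)) (b (l 16717904) (l 16720664)))))) (c (b (c (c (l 16707568)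 (l 16706288)) (b (a (l 16717024) (l 16717576)) (l 16707136))) (c (c (l 16712736) (l 16716904)) (c (l 16721080) (l 16720024)))) (b (c (a (c (l 16707568) (l 16706400)) (c (l 16707920) (l 16706592))) (b (c (l 16702240) (a (l 16711552) (l 16700872))) (c (l 16708184) (l 16707008)))) (c (b (l 16715640) (l 16721184)) (b (c (l 16714016) (l 16712936)) (c (l 16719712) (l 16718736)))))))), by decide +kernel⟩

def k171_A00pm_113_s3 : ∃ t, chk3 f_A00pm_113_s3 t 30 30 1 = true :=
  ⟨(b (a (c (a (l 16784640) (l 16778584)) (a (l 16826104) (l 16780016))) (a (c (b (l 16744504) (l 16758424)) (b (l 16752264) (l 16762208))) (c (b (c (l 16755736) (l 16761512)) (a (l 16821152) (l 16764992))) (b (c (l 16767664) (l 16774192)) (b (l 16777904) (l 16783000)))))) (b (a (c (a (l 16744504) (l 16758424)) (a (l 16752264) (l 16762208))) (a (c (l 16773712) (l 16773256)) (c (l 16787448) (a (l 16755304) (l 16743608))))) (a (c (a (c (l 16755736) (l 16761512)) (b (l 16821152) (l 16764992))) (a (c (l 16767664) (l 16774192)) (a (l 16777904)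 (l 16783000)))) (c (a (l 16787448) (l 16760744)) (a (b (l 16755304) (l 16743608)) (l 16760416)))))), by decide +kernel⟩

def k172_A00pm_113_s3 : ∃ t, chk3 f_A00pm_113_s3 t 120 124 1 = true :=
  ⟨(b (a (c (c (l 16772392) (l 16780248)) (c (l 16767648) (b (l 16800296) (l 16794704)))) (c (b (l 16786024) (l 16757936)) (c (l 16793400) (l 16801256)))) (b (c (a (c (b (l 16763248) (c (l 16747336) (l 16741024))) (a (l 16768832) (l 16771432))) (c (l 16767936) (l 16775728))) (a (c (c (l 16776928) (a (l 16780528) (l 16782760))) (b (a (l 16779144) (l 16791408)) (c (l 16784936) (a (l 16788976) (l 16791072))))) (c (l 16763048) (a (l 16791856) (l 16793784))))) (c (a (c (a (l 16754776) (c (l 16744480) (l 16748488))) (a (l 16762920) (b (l 16766632) (l 16763816)))) (a (c (b (b (l 16761632) (l 16749448)) (a (l 16757352) (l 16747984))) (b (l 16769184) (l 16760912))) (b (c (l 16743200) (l 16772144)) (c (b (a (b (l 16760904) (l 16749600)) (l 16762632)) (a (l 16748712) (l 16761232))) (a (c (l 16755560) (l 16759800)) (b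 (l 16770640) (l 16769288))))))) (a (c (a (l 16771592) (c (l 16771800) (l 16776344))) (a (c (l 16778456) (l 16783200)) (c (l 16781032) (b (l 16787768) (l 16783936))))) (c (a (c (l 16774248) (l 16778784)) (b (l 16780624) (a (b (l 16777616) (l 16776152)) (b (l 16779168) (l 16777872))))) (a (c (b (l 16785144) (l 16781848)) (b (b (l 16790808) (l 16789296)) (l 16786632))) (a (b (l 16789080) (c (b (l 16784576) (l 16783064)) (b (b (l 16789744) (l 16789032)) (l 16787832)))) (b (l 16790136) (b (l 16788216) (c (l 16784648) (l 16789336))))))))))), by decide +kernel⟩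

def k173_A00pm_113_s3 : ∃ t, chk3 f_A00pm_113_s3 t 121 124 1 = true :=
  ⟨(c (c (b (l 16769568) (a (a (b (l 16773440) (l 16756536)) (l 16753856)) (l 16760888))) (b (l 16775008) (a (b (l 16782472) (a (l 16774488) (l 16778632))) (l 16766592)))) (b (c (l 16780800) (a (l 16805416) (l 16810280))) (b (a (c (l 16789656) (l 16776304)) (l 16778448)) (a (c (c (l 16782240) (l 16786160)) (a (c (l 16788728) (l 16793072)) (l 16793616))) (c (l 16790992) (l 16797656)))))), by decide +kernel⟩

def k174_A00pm_113_s3 : ∃ t, chk3 f_A00pm_113_s3 t 120 125 2 = true :=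
  ⟨(b (a (b (c (a (l 16750168) (l 16741840)) (b (l 16759920) (l 16751968))) (a (c (l 16745752) (l 16752072)) (c (b (l 16738672) (l 16736968)) (c (l 16742672) (l 16746008))))) (a (b (c (b (l 16750504) (l 16748672)) (b (l 16758272) (l 16755944))) (c (b (l 16741960) (l 16751272)) (a (l 16746928) (l 16759296)))) (b (c (b (a (l 16757984) (l 16749344)) (l 16757552)) (b (b (l 16761960) (l 16766232)) (l 16764808))) (c (l 16750448) (l 16756904))))) (a (b (c (a (b (l 16732240) (l 16730648)) (a (l 16734176) (l 16746656))) (a (b (l 16737856) (l 16735784)) (a (l 16739592) (l 16752080)))) (c (a (a (l 16728056) (l 16740640)) (l 16743816)) (b (a (l 16744608) (l 16748888)) (l 16734976)))) (c (b (a (l 16739192) (l 16743080)) (b (l 16739816) (l 16739064))) (b (c (l 16745200) (l 16748016)) (b (l 16744504) (l 16743264)))))), by decide +kernel⟩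

def k175_A00pm_113_s3 : ∃ t, chk3 f_A00pm_113_s3 t 120 125 3 = true :=
  ⟨(b (a (b (c (a (l 16765128) (l 16767616)) (c (l 16772552) (a (l 16775488) (l 16778184)))) (c (a (l 16758848) (c (l 16749448) (l 16763496))) (a (l 16771312) (c (l 16767168) (b (l 16772616) (l 16769208)))))) (c (b (a (c (l 16768368) (l 16772496)) (b (a (l 16774128) (l 16775952)) (l 16772552))) (a (b (l 16766392) (l 16764128)) (l 16769056))) (b (a (c (b (l 16778360) (l 16775088)) (b (l 16782888) (l 16779336))) (b (c (l 16781600) (a (l 16785264) (l 16787056))) (c (l 16778680) (l 16782920)))) (a (c (l 16770696) (l 16777120)) (c (l 16774520) (l 16778304)))))) (a (b (c (a (c (l 16741184) (l 16754664)) (l 16756840)) (a (c (l 16757752) (l 16760952)) (c (l 16761472) (l 16764688)))) (c (a (l 16748640) (l 16732016)) (a (c (l 16752424) (l 16755064)) (l 16758104)))) (c (b (c (l 16761416) (l 16764424)) (a (l 16746648) (l 16750632))) (b (c (l 16767536) (a (l 16768784) (l 16772656))) (a (l 16762264) (l 16766256)))))), by decide +kernel⟩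

def k176_A00pm_113_s3 : ∃ t, chk3 f_A00pm_113_s3 t 121 250 1 = true :=
  ⟨(c (b (a (c (a (b (b (a (l 16751744) (l 16764520)) (a (l 16761288) (l 16752744))) (l 16761184)) (b (l 16756880) (b (a (l 16753752) (l 16766384)) (l 16759128)))) (b (a (a (l 16764248) (l 16760944)) (l 16774448)) (a (l 16768408) (c (l 16759696) (l 16763344))))) (a (c (c (l 16758560) (l 16761720)) (a (l 16776144) (l 16778152))) (c (l 16775192) (l 16781136)))) (a (c (a (l 16754120) (l 16757624)) (a (l 16760560) (c (l 16767632) (l 16770944)))) (c (b (a (b (c (l 16755224) (l 16758432)) (l 16761216)) (a (l 16764592) (l 16772016))) (a (l 16765664) (a (l 16768048) (b (l 16759584) (l 16769328))))) (b (a (c (l 16761320) (l 16764704)) (a (l 16765656) (l 16778056))) (a (l 16771784) (c (l 16762928) (l 16766048))))))) (a (b (c (a (b (a (l 16777704) (l 16779432)) (l 16776112)) (b (l 16782000) (a (l 16778672) (l 16780344)))) (a (b (c (a (l 16784192) (l 16785760)) (a (b (l 16789432) (l 16787960)) (l 16790128))) (c (l 16782208) (l 16786416)))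 (b (c (l 16787968) (l 16792088)) (c (l 16785472) (a (l 16788880) (l 16790328)))))) (c (c (l 16772664) (l 16778824)) (c (a (l 16778120) (l 16781528)) (a (l 16781888) (l 16785264))))) (b (c (a (c (l 16782328) (l 16785912)) (l 16787464)) (a (b (l 16792720) (c (l 16788432) (l 16792280))) (l 16794184))) (b (c (a (c (l 16768192) (l 16771792)) (a (l 16782864) (l 16784488))) (a (c (l 16785984) (a (l 16789096) (l 16790528))) (c (l 16788872) (b (l 16793056) (l 16791904))))) (c (a (l 16778320) (c (l 16769272) (l 16772592))) (a (l 16787880) (c (l 16786504) (c (l 16778648) (l 16790920))))))))), by decide +kernel⟩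

def k177_A00pm_113_s3 : ∃ t, chk3 f_A00pm_113_s3 t 121 251 1 = true :=
  ⟨(c (a (c (b (a (l 16746808) (l 16750368)) (c (l 16745944) (l 16748096))) (b (a (l 16752240) (l 16761024)) (c (l 16750328) (l 16752648)))) (c (b (b (a (l 16764688) (l 16767864)) (l 16760208)) (b (l 16759464) (l 16758832))) (b (a (l 16764392) (c (l 16771424) (l 16774192))) (a (l 16767184) (l 16765184))))) (a (c (b (c (l 16768840) (l 16771840)) (a (l 16754440) (l 16758064))) (b (c (l 16777552) (a (l 16776344) (l 16779840))) (c (l 16770584) (l 16775864)))) (c (b (a (l 16775400) (a (l 16777760) (l 16779272))) (a (l 16766736) (a (l 16774408) (l 16765480)))) (b (c (a (l 16779968) (l 16783064)) (a (l 16783128) (l 16786200))) (a (b (l 16778144) (l 16776072)) (b (l 16781312) (l 16779304))))))), by decide +kernel⟩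

def k178_A00pm_113_s3 : ∃ t, chk3 f_A00pm_113_s3 t 61 124 1 = true :=
  ⟨(c (a (b (l 16767536) (c (l 16774264) (l 16778224))) (b (l 16740744) (l 16791208))) (c (a (b (l 16814512) (l 16782448)) (l 16778808)) (a (b (l 16818136) (l 16786944)) (l 16801552)))), by decide +kernel⟩

def k179_A00pm_113_s3 : ∃ t, chk3 f_A00pm_113_s3 t 122 250 1 = true :=
  ⟨(a (b (c (c (l 16781896) (l 16786952)) (c (l 16792336) (l 16798064))) (c (a (c (b (l 16775368) (b (l 16773256) (a (l 16760504) (l 16772976)))) (b (l 16780960) (c (l 16766456) (l 16769400)))) (c (l 16778328) (l 16783424))) (b (c (l 16788528) (a (l 16793256) (l 16795792))) (c (a (b (l 16785064) (l 16783888)) (l 16787616)) (a (c (l 16789288) (b (l 16793208) (l 16792056))) (l 16793480)))))) (b (c (l 16771376) (c (l 16798560) (l 16803024))) (c (c (l 16784656) (l 16788920)) (c (l 16793472) (l 16787816))))), by decide +kernel⟩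

def k180_A00pm_113_s3 : ∃ t, chk3 f_A00pm_113_s3 t 244 251 1 = true :=
  ⟨(c (b (b (b (a (c (l 16765896) (l 16771544)) (a (c (l 16773792) (l 16779224)) (c (l 16775920) (l 16781064)))) (a (c (l 16770640) (l 16776072)) (a (c (l 16762328) (l 16778192)) (b (l 16774824) (a (c (l 16773776) (l 16779056)) (l 16777288)))))) (a (c (l 16770040) (l 16775136)) (a (a (c (l 16761320) (l 16771632)) (c (l 16761992) (l 16772288))) (c (b (l 16773704) (l 16773256)) (l 16773264))))) (a (b (c (a (l 16768592) (c (l 16758424) (l 16760664))) (a (l 16773248) (l 16769408))) (c (a (l 16757440) (l 16769208)) (a (l 16766896) (l 16773408)))) (c (b (l 16771960) (l 16771056)) (b (l 16776560) (l 16775216))))) (b (c (a (a (l 16780728) (c (l 16775464) (l 16778384))) (b (a (c (l 16783016) (l 16785976)) (b (l 16786560) (b (l 16785648) (l 16779832)))) (a (c (l 16775976) (c (l 16778064) (l 16779480))) (c (l 16782496) (l 16785272))))) (a (b (c (l 16776544) (l 16790264)) (c (l 16784888) (l 16787864))) (b (a (b (l 16791152) (l 16790024))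 (b (l 16792392) (b (l 16791552) (a (l 16790680) (l 16791296))))) (a (a (b (l 16788592) (l 16787496)) (b (l 16789224) (l 16788112))) (b (l 16790152) (l 16789024)))))) (c (a (b (a (l 16778232) (c (l 16767856) (l 16775664))) (a (c (l 16765016) (l 16767352)) (l 16777896))) (b (l 16776240) (l 16779672))) (a (b (a (l 16783544) (b (a (l 16785120) (l 16780536)) (l 16784368))) (a (c (l 16775008) (a (l 16771944) (l 16772584))) (l 16782696))) (c (l 16784296) (l 16786864)))))), by decide +kernel⟩

def k181_A00pm_113_s3 : ∃ t, chk3 f_A00pm_113_s3 t 245 251 1 = true :=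
  ⟨(b (c (a (b (c (l 16778400) (l 16783168)) (a (c (b (l 16775408) (l 16774568)) (b (l 16780400) (l 16779464))) (c (l 16771584) (l 16776336)))) (c (l 16770656) (l 16785448))) (c (c (b (l 16788544) (a (l 16779392) (l 16787640))) (b (l 16791016) (a (l 16782048) (l 16790048)))) (b (a (l 16793664) (l 16796048)) (a (c (l 16784776) (b (l 16788160) (l 16787032))) (c (l 16792528) (l 16795088)))))) (c (a (c (b (l 16769264) (l 16773560)) (c (l 16771984) (l 16774224))) (b (c (b (a (l 16776952) (l 16778800)) (a (l 16776248) (l 16777704))) (c (a (l 16779944) (l 16781512)) (l 16777800))) (c (l 16776120) (l 16780192)))) (a (b (c (c (l 16782688) (l 16785200)) (c (l 16787784) (l 16790448))) (c (l 16782080) (l 16786768))) (c (b (c (l 16780136) (l 16782544)) (l 16789792)) (a (b (c (l 16789656) (l 16787032)) (l 16788576)) (b (b (l 16792728) (c (l 16790336) (l 16792872))) (l 16789800))))))), by decide +kernel⟩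

def k182_A00pm_113_s3 : ∃ t, chk3 f_A00pm_113_s3 t 123 125 1 = true :=
  ⟨(b (c (a (b (l 16799816) (l 16778464)) (l 16782864)) (c (a (l 16780840) (l 16807200)) (a (l 16784328) (l 16809624)))) (a (b (c (c (l 16776560) (l 16780080)) (c (a (l 16792928) (l 16795704)) (a (l 16797216) (l 16799432)))) (c (c (b (a (b (l 16781752) (l 16775184)) (l 16784896)) (a (a (b (l 16778432) (l 16777792)) (b (l 16780128) (l 16779136))) (a (l 16776152) (l 16783200)))) (b (a (b (l 16785712) (l 16779208)) (l 16788384)) (a (a (l 16776896) (a (l 16777952) (l 16778696))) (c (l 16774528) (l 16776400))))) (b (c (a (a (l 16783408) (l 16790048)) (l 16792120)) (a (c (l 16787488) (l 16795064)) (l 16796088))) (c (a (c (c (l 16775016) (l 16776088)) (a (l 16787560) (l 16788856))) (c (l 16778328) (l 16785560))) (b (a (c (l 16785800) (a (l 16792848) (l 16793968))) (l 16794448)) (a (c (l 16789904) (a (l 16791584) (l 16792800))) (c (l 16787056) (a (l 16793928) (l 16794960))))))))) (b (c (c (l 16794320) (l 16796904)) (c (l 16799664)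 (l 16802608))) (c (c (b (l 16790280) (l 16787656)) (a (l 16790296) (l 16793304))) (c (a (l 16793600) (l 16796128)) (c (l 16797312) (l 16793744))))))), by decide +kernel⟩

def k183_A00pm_113_s3 : ∃ t, chk3 f_A00pm_113_s3 t 120 126 1 = true :=
  ⟨(c (a (b (c (b (b (l 16730112) (l 16729504)) (l 16728808)) (b (a (l 16741504) (l 16745864)) (a (l 16739544) (l 16743992)))) (c (b (l 16728256) (l 16728168)) (b (l 16729896) (l 16729008)))) (b (c (b (a (l 16746576) (l 16750592)) (l 16737272)) (b (a (l 16750072) (l 16754120)) (a (l 16748288) (l 16752424)))) (c (b (l 16736872) (l 16736944)) (b (l 16738672) (a (l 16746264) (l 16750592)))))) (b (a (c (b (l 16747440) (b (l 16734736) (l 16733440))) (b (c (l 16750440) (l 16752536)) (c (l 16746808) (l 16748392)))) (c (b (l 16755936) (b (l 16743392) (l 16742200))) (b (c (l 16758984) (l 16761112)) (a (l 16754256) (l 16758488))))) (a (c (b (b (l 16732280) (l 16731264)) (b (l 16730392) (l 16729672))) (b (c (l 16722816) (l 16744880)) (c (l 16720416) (l 16742024)))) (c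 (b (b (l 16741152) (l 16740248)) (c (l 16738864) (l 16739512))) (b (c (l 16742336) (l 16753992)) (a (l 16727792) (l 16742784))))))), by decide +kernel⟩

def k184_A00pm_113_s3 : ∃ t, chk3 f_A00pm_113_s3 t 121 252 1 = true :=
  ⟨(c (c (a (b (a (l 16754448) (l 16758136)) (a (l 16753696) (l 16757456))) (b (a (l 16761648) (b (a (l 16764360) (l 16755376)) (a (l 16763824) (l 16765072)))) (a (b (a (l 16760264) (l 16761832)) (l 16749952)) (l 16763112)))) (a (b (a (l 16758008) (l 16761712)) (c (l 16747136) (l 16748560))) (b (a (l 16765232) (b (a (l 16768168) (l 16759168)) (a (l 16756720) (l 16768440)))) (a (b (a (l 16763224) (l 16754312)) (c (l 16751840) (l 16753176))) (l 16765840))))) (a (c (b (c (l 16752272) (l 16754272)) (c (l 16750040) (l 16751592))) (b (c (l 16766832) (l 16768976)) (a (l 16762544) (l 16766400)))) (b (a (c (l 16758624) (l 16773256)) (c (b (a (l 16772256) (c (l 16772688) (l 16764320))) (a (l 16760368) (l 16772064))) (b (a (l 16776640) (a (l 16772552) (l 16773216))) (a (c (l 16763280)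 (l 16765304)) (l 16775960))))) (a (c (b (a (l 16766440) (l 16757528)) (a (l 16754728) (l 16766392))) (b (a (l 16769912) (c (l 16760104) (l 16761896))) (a (c (l 16756968) (l 16758536)) (l 16769392)))) (c (l 16768800) (l 16772000)))))), by decide +kernel⟩

def k185_A00pm_113_s3 : ∃ t, chk3 f_A00pm_113_s3 t 121 253 1 = true :=
  ⟨(c (c (a (b (a (l 16753408) (b (l 16746600) (l 16746096))) (a (b (l 16742816) (l 16737160)) (l 16755248))) (b (a (l 16759104) (l 16761056)) (l 16757880))) (a (b (a (l 16755304) (b (a (l 16758440) (l 16760088)) (l 16747840))) (a (b (l 16744152) (l 16743352)) (l 16756384))) (b (a (l 16761032) (l 16762944)) (l 16758968)))) (a (b (a (c (l 16757416) (l 16749248)) (c (b (a (l 16760792) (l 16751968)) (a (l 16749256) (l 16760880))) (b (a (l 16763360) (c (l 16743392) (l 16755224))) (a (l 16751392) (l 16763008))))) (a (c (b (a (l 16755320) (l 16746584)) (a (l 16743968) (l 16755552))) (b (a (l 16757000) (l 16748288)) (a (l 16745240) (l 16756824)))) (c (l 16757672) (l 16759136)))) (c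 (b (b (l 16754536) (l 16763128)) (l 16749728)) (b (c (l 16755296) (l 16756496)) (l 16756376))))), by decide +kernel⟩

def k186_A00pm_113_s3 : ∃ t, chk3 f_A00pm_113_s3 t 122 126 1 = true :=
  ⟨(b (c (a (a (b (c (l 16767248) (l 16760312)) (c (l 16765264) (l 16767952))) (b (c (l 16769600) (l 16773104)) (c (l 16767472) (l 16770128)))) (b (c (b (a (l 16772536) (l 16775024)) (l 16767424)) (a (l 16770232) (b (l 16778672) (l 16777104)))) (c (a (l 16769736) (l 16772048)) (a (l 16772368) (l 16774656))))) (a (b (c (a (l 16769376) (l 16771632)) (b (a (l 16779856) (l 16782088)) (l 16778624))) (c (b (l 16767656) (l 16770960)) (c (l 16763768) (l 16775872)))) (c (c (b (a (l 16778240) (l 16780632)) (a (l 16774480) (l 16776744))) (b (l 16781352) (a (l 16775952) (l 16778200)))) (b (a (c (l 16782160) (l 16784216)) (c (l 16779264) (l 16786536))) (a (l 16778272) (c (l 16779712) (l 16781272))))))) (a (c (b (c (l 16753608) (l 16760696)) (c (l 16761600) (l 16752168))) (c (b (l 16762728) (l 16758608)) (b (b (l 16766176)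 (l 16758464)) (b (l 16755968) (l 16763920))))) (c (c (b (a (l 16767248) (l 16769416)) (a (l 16764536) (l 16766552))) (b (a (l 16769064) (l 16771216)) (l 16761328))) (c (b (c (l 16771600) (l 16767392)) (a (l 16766744) (l 16768736))) (a (b (l 16767984) (l 16768048)) (b (c (l 16774776) (l 16775888)) (l 16764784))))))), by decide +kernel⟩

def k187_A00pm_113_s3 : ∃ t, chk3 f_A00pm_113_s3 t 123 252 2 = true :=
  ⟨(b (a (a (c (b (l 16777560) (l 16776344)) (b (l 16781176) (l 16779536))) (c (b (b (a (l 16779808) (l 16781352)) (l 16774592)) (l 16778840)) (b (c (b (l 16778072) (l 16782424)) (l 16779464)) (l 16782016)))) (c (b (a (c (l 16777400) (l 16778968)) (l 16786792)) (a (a (l 16780720) (a (l 16781696) (l 16777160))) (b (l 16779648) (c (l 16777840) (l 16779256))))) (b (a (c (l 16780600) (l 16782288)) (l 16789632)) (a (c (l 16778504) (l 16780128)) (a (b (l 16787120) (l 16786016)) (l 16782752)))))) (a (c (a (l 16779648) (l 16771552)) (a (l 16771744) (b (l 16780264) (l 16778456)))) (a (c (b (l 16779944)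 (l 16778464)) (b (l 16782712) (l 16780832))) (c (b (a (l 16781800) (l 16777816)) (l 16780864)) (b (c (l 16779232) (l 16780664)) (l 16783248)))))), by decide +kernel⟩

def k188_A00pm_113_s3 : ∃ t, chk3 f_A00pm_113_s3 t 123 252 3 = true :=
  ⟨(a (c (b (a (c (l 16783080) (b (l 16786048) (l 16783864))) (b (c (l 16781360) (l 16783312)) (c (l 16784552) (l 16786304)))) (a (c (l 16779056) (l 16780504)) (b (l 16788480) (l 16781016)))) (b (a (c (l 16786904) (c (l 16788400) (l 16789424))) (a (c (l 16788720) (b (a (l 16791768) (l 16789760)) (l 16789384))) (b (c (b (l 16791784) (l 16790608)) (b (c (l 16793344) (l 16794408)) (l 16792648))) (l 16789664)))) (a (c (l 16776752) (l 16783536)) (c (b (l 16785608) (l 16783056)) (b (l 16787248) (l 16784472)))))) (b (b (c (a (c (l 16784024) (l 16785824)) (l 16792672)) (a (c (a (b (l 16792920) (l 16791816)) (l 16793480)) (a (b (l 16794896) (c (l 16793304) (l 16789064))) (l 16795344))) (a (l 16795408) (l 16796392)))) (c (c (a (l 16781816) (l 16784384)) (a (b (l 16784136)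 (l 16788216)) (a (l 16785408) (l 16791840)))) (c (a (c (l 16784888) (b (l 16786448) (l 16790416))) (b (l 16788216) (a (l 16791816) (l 16792936)))) (a (b (a (l 16792528) (a (l 16793448) (l 16794000))) (l 16791768)) (a (b (l 16794736) (a (l 16793328) (l 16791264))) (a (l 16789664) (l 16795368))))))) (c (a (c (l 16789072) (b (l 16786448) (l 16784056))) (c (b (l 16782144) (l 16785152)) (b (b (l 16784296) (l 16788320)) (l 16786472)))) (a (c (b (l 16788032) (l 16785424)) (a (l 16787648) (b (l 16790280) (l 16787432)))) (b (c (a (l 16789888) (b (l 16791776) (l 16790472))) (a (l 16791520) (b (c (l 16793024) (c (l 16793664) (l 16788848))) (l 16792048)))) (c (l 16787840) (a (l 16788640) (l 16789864)))))))), by decide +kernel⟩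

def k189_A00pm_113_s3 : ∃ t, chk3 f_A00pm_113_s3 t 123 253 1 = true :=
  ⟨(c (a (b (c (a (l 16771624) (l 16773864)) (a (l 16773408) (l 16770408))) (c (a (l 16768608) (l 16770696)) (b (l 16766416) (l 16764432)))) (b (c (a (l 16776128) (b (l 16779248) (l 16777568))) (a (b (l 16778904) (l 16776920)) (b (l 16781248) (l 16779192)))) (c (a (l 16772800) (l 16774928)) (a (l 16773848) (l 16770768))))) (a (a (c (b (c (l 16774864) (l 16775880)) (l 16770784)) (b (b (l 16773568) (l 16776136)) (c (l 16771728) (l 16772400)))) (c (b (b (l 16778744) (l 16776432)) (l 16767632)) (c (b (l 16779152) (l 16773824)) (b (b (l 16781664) (l 16778816)) (l 16774488))))) (b (c (a (b (l 16781056) (l 16778672)) (b (l 16788648) (l 16780960))) (a (c (b (l 16782768) (l 16780080)) (l 16782520)) (c (l 16783752) (a (l 16784256) (l 16785432))))) (c (a (b (l 16776248) (l 16773776)) (b (l 16778464) (l 16775920))) (a (b (c (l 16777352) (l 16778120)) (l 16774864)) (c (l 16783408) (a (l 16778288) (l 16779408)))))))), by decide +kernel⟩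

def k190_A00pm_113_s3 : ∃ t, chk3 f_A00pm_113_s3 t 60 254 1 = true :=
  ⟨(a (a (c (c (b (l 16728560) (l 16729440)) (b (l 16728656) (c (l 16718504) (l 16728720)))) (c (b (b (l 16729104) (l 16728688)) (c (l 16728480) (l 16728256))) (b (a (l 16726728) (l 16731712)) (a (l 16725376) (l 16730512))))) (c (b (a (c (l 16745792) (l 16746064)) (c (b (l 16733944) (l 16733616)) (b (l 16739736) (l 16739040)))) (a (c (b (l 16730488) (l 16730256)) (b (l 16735504) (l 16734912))) (c (l 16748008) (l 16747608)))) (b (a (c (l 16746472) (l 16736536)) (c (b (a (l 16750040) (l 16741392)) (a (l 16738872) (l 16750424))) (b (a (l 16750856) (l 16742240)) (a (l 16739304) (l 16750848))))) (a (c (b (a (l 16744968) (l 16736408)) (a (l 16733992) (l 16745496))) (b (a (l 16744936) (b (l 16726352) (l 16725672))) (a (b (l 16734000) (l 16722872)) (l 16745096)))) (c (l 16747296) (l 16726120)))))) (c (a (b (c (l 16741808) (l 16742152)) (c (l 16749984) (l 16749552))) (b (a (l 16744312) (l 16745960)) (b (l 16742896) (l 16741352)))) (a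 (c (b (l 16742624) (l 16749208)) (b (b (l 16744392) (l 16752528)) (l 16738472))) (b (c (l 16756200) (l 16746248)) (c (l 16752032) (l 16741256)))))), by decide +kernel⟩

def k191_A00pm_113_s3 : ∃ t, chk3 f_A00pm_113_s3 t 60 255 1 = true :=
  ⟨(a (b (a (c (a (c (l 16738872) (l 16737592)) (c (b (l 16727216) (l 16727072)) (b (a (l 16741056) (l 16722032)) (a (l 16720112) (l 16742040))))) (a (c (l 16725888) (a (l 16723384) (l 16726072))) (c (b (a (l 16740120) (l 16731632)) (a (l 16729336) (l 16740792))) (b (a (l 16739256) (b (l 16731224) (l 16730616))) (a (b (l 16728512) (l 16727944)) (l 16739592)))))) (c (c (l 16724192) (l 16733528)) (c (l 16732440) (c (l 16721184) (l 16731168))))) (a (c (a (c (b (a (l 16738960) (l 16740912)) (l 16724080)) (b (a (l 16737208) (l 16723496)) (a (l 16721688) (l 16738312)))) (c (l 16741456) (l 16739600))) (a (c (b (a (l 16735496) (l 16727096)) (a (b (l 16719936) (l 16719616)) (l 16736320))) (b (a (l 16733832) (b (l 16725864) (l 16725336))) (a (b (a (l 16733272) (l 16723872))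 (a (l 16722616) (l 16733560))) (l 16734344)))) (c (l 16716808) (l 16725504)))) (c (c (l 16742744) (l 16725144)) (a (c (l 16738592) (l 16726296)) (c (l 16739488) (l 16727184)))))) (b (c (a (c (l 16747456) (l 16746288)) (c (l 16750008) (l 16748840))) (a (c (l 16745168) (l 16733624)) (c (l 16747720) (l 16736152)))) (c (a (b (c (l 16745416) (l 16743720)) (c (l 16743992) (l 16741952))) (b (c (l 16747728) (l 16746048)) (c (l 16746136) (l 16744128)))) (a (a (b (l 16730208) (c (l 16739424) (l 16737408))) (b (l 16731296) (c (l 16740448) (l 16738432)))) (a (b (l 16732472) (c (l 16741544) (l 16729048))) (b (l 16733712) (c (l 16742712) (l 16730232)))))))), by decide +kernel⟩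

def k192_A00pm_113_s3 : ∃ t, chk3 f_A00pm_113_s3 t 61 254 1 = true :=
  ⟨(a (a (c (b (c (l 16758896) (l 16759176)) (b (l 16746080) (l 16744384))) (c (b (l 16749080) (l 16755128)) (b (l 16754824) (l 16749584)))) (c (b (c (l 16762520) (a (l 16761880) (l 16763736))) (c (l 16759264) (l 16748344))) (c (b (l 16757936) (l 16753224)) (b (b (l 16759776) (l 16757056)) (c (l 16758232) (l 16747608)))))) (c (a (b (c (a (l 16765352) (l 16767280)) (a (l 16765648) (l 16767592))) (c (a (l 16761856) (l 16763616)) (a (l 16761448) (l 16763240)))) (c (b (a (l 16769224) (l 16771192)) (a (l 16765400) (l 16767192))) (b (b (l 16766432) (l 16764192)) (a (l 16765056) (l 16766904))))) (a (c (b (c (l 16761648) (l 16761864)) (b (l 16758024) (l 16750240))) (b (a (l 16761264) (b (l 16769904) (l 16767024))) (a (l 16755568) (l 16757400)))) (c (b (a (l 16764744) (b (l 16773336) (l 16770704))) (b (l 16761808) (l 16759120))) (c (b (b (l 16767576) (l 16764696)) (a (l 16764584) (l 16766512))) (b (a (l 16770632) (b (l 16774256) (l 16771152)))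 (b (l 16761776) (l 16758632)))))))), by decide +kernel⟩

def k193_A00pm_113_s3 : ∃ t, chk3 f_A00pm_113_s3 t 61 255 1 = true :=
  ⟨(b (a (c (a (c (l 16752792) (l 16751640)) (a (l 16754448) (l 16745504))) (a (c (l 16750536) (l 16738976)) (c (l 16743096) (a (l 16751752) (l 16753344))))) (c (a (c (l 16748408) (a (l 16757040) (l 16758672))) (c (a (l 16761304) (l 16762928)) (a (l 16760328) (l 16762008)))) (a (a (c (l 16756000) (l 16754984)) (c (l 16757664) (l 16751440))) (a (c (l 16759368) (l 16753192)) (c (l 16761112) (b (l 16761808) (l 16758656))))))) (a (c (a (a (c (l 16748760) (l 16746944)) (c (l 16750040) (l 16748240))) (a (c (l 16751352) (l 16749592)) (c (l 16752712) (l 16750984)))) (a (a (b (l 16735016) (c (l 16743936) (l 16731472))) (b (l 16746872) (c (l 16745224) (l 16732784)))) (a (b (l 16748296) (c (l 16746560) (l 16744632))) (b (l 16739288) (c (l 16747944) (l 16746056)))))) (c (c (a (l 16744312) (b (l 16758800) (l 16756504))) (a (b (l 16754336) (l 16741440)) (c (l 16746008) (l 16745240))))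 (c (c (a (l 16741392) (a (l 16754176) (l 16755736))) (a (b (l 16752448) (l 16749640)) (l 16748928))) (a (c (l 16744968) (b (l 16750944) (l 16737320))) (a (l 16746944) (l 16748600))))))), by decide +kernel⟩

def k194_A00pm_113_s3 : ∃ t, chk3 f_A00pm_113_s3 t 248 60 1 = true :=
  ⟨(c (c (b (a (l 16779360) (l 16751016)) (l 16769568)) (b (a (l 16786488) (l 16758704)) (l 16775008))) (b (b (a (l 16774976) (c (l 16785520) (l 16794704))) (c (l 16793400) (l 16801256))) (c (l 16780800) (b (l 16805416) (l 16810280))))), by decide +kernel⟩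

def k195_A00pm_113_s3 : ∃ t, chk3 f_A00pm_113_s3 t 249 60 1 = true :=
  ⟨(b (a (c (b (c (a (l 16763248) (c (l 16747336) (l 16741024))) (b (l 16768832) (l 16771432))) (c (l 16767936) (l 16775728))) (b (c (c (l 16776928) (a (l 16783248) (l 16780072))) (a (b (l 16779144) (l 16791408)) (c (l 16784936) (b (l 16788976) (l 16791072))))) (c (l 16763048) (b (l 16791856) (l 16793784))))) (c (b (c (b (l 16754776) (c (l 16744480) (l 16748488))) (b (l 16762920) (a (l 16766632) (l 16763816)))) (b (c (a (a (l 16761632) (l 16749448)) (b (l 16757352) (l 16747984))) (a (l 16769184) (l 16760912))) (a (c (l 16743200) (l 16772144)) (c (a (b (a (l 16760904) (l 16749600)) (l 16762632)) (b (l 16748712) (l 16761232))) (a (b (l 16758312) (l 16770640)) (c (l 16755816) (l 16760000))))))) (b (c (b (l 16771592) (c (l 16771800) (l 16776344))) (b (c (l 16778456) (l 16783200)) (c (l 16781032) (a (l 16787768) (l 16783936))))) (c (b (c (l 16774248) (l 16778784)) (a (l 16780624) (a (b (l 16777616) (l 16779168)) (b (l 16776152) (l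 16777872))))) (b (c (a (l 16785144) (l 16781848)) (a (a (l 16790808) (l 16789296)) (l 16786632))) (b (a (l 16789080) (c (a (l 16784576) (l 16783064)) (a (a (l 16789744) (l 16789032)) (l 16787832)))) (a (l 16790136) (a (l 16788216) (c (l 16784648) (l 16789336)))))))))) (c (b (a (c (l 16775736) (l 16782472)) (b (c (l 16756536) (l 16774488)) (c (l 16771808) (l 16778632)))) (c (l 16760888) (l 16766592))) (a (b (c (l 16789656) (l 16776304)) (l 16778448)) (b (c (c (l 16782240) (l 16786160)) (a (l 16782984) (c (l 16788968) (l 16793168)))) (c (l 16790992) (l 16797656)))))), by decide +kernel⟩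

def k196_A00pm_113_s3 : ∃ t, chk3 f_A00pm_113_s3 t 125 120 2 = true :=
  ⟨(a (b (a (c (b (l 16750168) (l 16741840)) (a (l 16759920) (l 16751968))) (b (c (l 16745752) (l 16752072)) (c (a (l 16738672) (l 16736968)) (c (l 16742672) (l 16746008))))) (b (a (c (a (l 16750504) (l 16748672)) (a (l 16758272) (l 16755944))) (c (a (l 16741960) (l 16751272)) (b (l 16746928) (l 16759296)))) (a (c (b (l 16752104) (a (l 16749344) (l 16758472))) (a (a (l 16761960) (l 16766232)) (l 16764808))) (c (l 16750448) (l 16756904))))) (b (a (c (b (a (l 16732240) (l 16730648)) (b (l 16734176) (l 16746656))) (b (a (l 16737856) (l 16735784)) (b (l 16739592) (l 16752080)))) (c (a (b (l 16739976) (l 16744224)) (l 16730832)) (a (b (l 16744608) (l 16748888)) (l 16734976)))) (c (a (b (l 16739192) (l 16743080)) (a (l 16739816) (l 16739064))) (a (c (l 16745200) (l 16748016)) (a (l 16744504) (l 16743264)))))), by decide +kernel⟩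

def k197_A00pm_113_s3 : ∃ t, chk3 f_A00pm_113_s3 t 125 120 3 = true :=
  ⟨(a (b (a (c (b (l 16765128) (l 16767616)) (c (l 16772552) (b (l 16775488) (l 16778184)))) (c (b (l 16758848) (c (l 16749448) (l 16763496))) (b (l 16771312) (c (l 16767168) (a (l 16772616) (l 16769208)))))) (a (c (b (c (l 16768368) (l 16772496)) (a (b (l 16774168) (l 16775952)) (l 16772552))) (b (c (a (l 16778360) (l 16775088)) (a (l 16782888) (l 16779336))) (a (c (l 16781600) (b (l 16785304) (l 16787056))) (c (l 16778680) (l 16782920))))) (c (b (a (l 16766392) (l 16764128)) (l 16769056)) (b (a (c (l 16772096) (l 16776048)) (l 16771208)) (c (l 16774520) (l 16778304)))))) (b (a (c (b (c (l 16741184) (l 16754664)) (a (l 16757912) (l 16755856))) (b (c (l 16757752) (l 16760944)) (a (l 16764432) (l 16761808)))) (c (b (l 16748800) (l 16732016)) (b (a (l 16754984) (l 16752584)) (l 16758104)))) (c (a (c (l 16761416) (l 16764424)) (b (l 16746648) (l 16750632))) (a (c (l 16767536) (b (l 16768784) (l 16772656))) (b (l 16762264) (l 16766256)))))),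 by decide +kernel⟩

def k198_A00pm_113_s3 : ∃ t, chk3 f_A00pm_113_s3 t 250 121 1 = true :=
  ⟨(c (a (b (c (b (a (a (b (l 16751744) (l 16764520)) (b (l 16761288) (l 16752744))) (l 16761184)) (a (l 16756880) (a (b (l 16753752) (l 16766384)) (l 16759128)))) (a (b (b (l 16764248) (l 16760944)) (l 16774448)) (b (l 16768408) (c (l 16759696) (l 16763344))))) (b (c (c (l 16758560) (l 16761720)) (b (l 16776144) (l 16778152))) (c (l 16775192) (l 16781136)))) (b (c (b (l 16754120) (l 16757624)) (b (l 16760560) (c (l 16767632) (l 16770944)))) (c (a (b (a (c (l 16755224) (l 16758432)) (l 16761216)) (b (l 16764592) (l 16772016))) (b (l 16765664) (a (b (l 16768304) (l 16759584)) (l 16768552)))) (a (b (c (l 16761320) (l 16764704)) (b (l 16765656) (l 16778056))) (b (l 16771784) (c (l 16762928) (l 16766048))))))) (b (a (c (b (a (b (l 16777704) (l 16779432)) (l 16776112)) (a (l 16782000) (b (l 16778672) (l 16780344)))) (b (a (c (b (l 16784192) (l 16785760)) (b (a (l 16789432) (l 16787960)) (l 16790128))) (c (l 16782208)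 (l 16786416))) (a (c (l 16787968) (l 16792088)) (c (l 16785472) (b (l 16788880) (l 16790328)))))) (c (c (l 16772664) (l 16778824)) (c (b (l 16778120) (l 16781528)) (b (l 16781888) (l 16785264))))) (a (c (b (c (l 16782328) (l 16785912)) (l 16787464)) (b (a (l 16792720) (c (l 16788432) (l 16792280))) (l 16794184))) (a (c (b (c (l 16768192) (l 16771792)) (b (l 16782864) (l 16784488))) (b (c (l 16785984) (b (l 16789096) (l 16790528))) (c (l 16788872) (a (l 16793056) (l 16791904))))) (c (b (l 16778320) (c (l 16769272) (l 16772592))) (b (l 16787880) (c (l 16786504) (c (l 16778648) (l 16790920))))))))), by decide +kernel⟩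

def k199_A00pm_113_s3 : ∃ t, chk3 f_A00pm_113_s3 t 251 121 1 = true :=
  ⟨(c (b (c (a (b (l 16746808) (l 16750368)) (c (l 16745944) (l 16748096))) (a (b (l 16752240) (l 16761024)) (c (l 16750328) (l 16752648)))) (c (a (a (a (l 16761288) (l 16760840)) (l 16760208)) (a (l 16759464) (l 16758832))) (a (b (l 16764392) (c (l 16771424) (l 16774192))) (b (l 16767184) (l 16765184))))) (b (c (a (c (l 16768840) (l 16771840)) (b (l 16754440) (l 16758064))) (a (c (l 16777552) (b (l 16776344) (l 16779840))) (c (l 16770584) (l 16775864)))) (c (a (b (l 16775400) (b (l 16777760) (l 16779272))) (b (l 16766736) (b (l 16774408) (l 16765480)))) (a (c (b (l 16779968) (l 16783064)) (b (l 16783128) (l 16786200))) (b (a (l 16778144) (l 16776072)) (a (l 16781312) (l 16779304))))))), by decide +kernel⟩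

def k200_A00pm_113_s3 : ∃ t, chk3 f_A00pm_113_s3 t 124 61 1 = true :=
  ⟨(c (a (b (l 16767536) (l 16740744)) (b (c (l 16774264) (l 16778224)) (l 16791208))) (c (b (a (l 16814512) (l 16782448)) (l 16778808)) (b (a (l 16818136) (l 16786944)) (l 16801552)))), by decide +kernel⟩

def k201_A00pm_113_s3 : ∃ t, chk3 f_A00pm_113_s3 t 250 122 1 = true :=
  ⟨(b (a (c (c (l 16781896) (l 16786952)) (c (l 16792336) (l 16798064))) (c (b (c (a (l 16775368) (a (l 16773256) (b (l 16760504) (l 16772976)))) (a (l 16780960) (c (l 16766456) (l 16769400)))) (c (l 16778328) (l 16783424))) (a (c (l 16788528) (b (l 16793256) (l 16795792))) (c (b (a (l 16785064) (l 16783888)) (l 16787616)) (b (c (l 16789288) (a (l 16793208) (l 16792056))) (l 16793480)))))) (a (c (l 16771376) (c (l 16798560) (l 16803024))) (c (c (l 16784656) (l 16788920)) (c (l 16793472) (l 16787816))))), by decide +kernel⟩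

def k202_A00pm_113_s3 : ∃ t, chk3 f_A00pm_113_s3 t 251 244 1 = true :=
  ⟨(c (a (a (a (b (c (l 16765896) (l 16771544)) (b (c (l 16773792) (l 16779224)) (c (l 16775920) (l 16781064)))) (b (c (l 16770640) (l 16776072)) (b (c (l 16762328) (l 16778192)) (a (l 16774824) (b (c (l 16773776) (l 16779056)) (l 16777288)))))) (b (c (l 16770040) (l 16775136)) (b (a (c (l 16761856) (l 16772272)) (c (l 16771952) (l 16776896))) (c (a (l 16773704) (l 16773256)) (l 16773264))))) (b (a (c (b (l 16768592) (c (l 16758424) (l 16760664))) (b (l 16773248) (l 16769408))) (c (b (l 16757440) (l 16769208)) (b (l 16766896) (l 16773408)))) (c (a (l 16771960) (l 16771056)) (a (l 16776560) (l 16775216))))) (a (c (b (a (a (l 16782808) (l 16781880)) (l 16775336)) (a (b (c (l 16783016) (l 16785976)) (a (l 16786560) (a (l 16785648) (l 16779832)))) (b (c (l 16775976) (c (l 16778064) (l 16779480))) (c (l 16782496) (l 16785272))))) (b (a (c (l 16776544) (l 16790264)) (c (l 16784888) (l 16787864))) (a (b (a (l 16791152) (l 16790024))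 (a (l 16792392) (a (l 16791552) (b (l 16790680) (l 16791296))))) (b (a (b (l 16788592) (l 16789224)) (a (l 16788080) (l 16787528))) (a (l 16790152) (l 16789024)))))) (c (b (a (b (l 16778232) (c (l 16767856) (l 16775664))) (b (c (l 16765016) (l 16767352)) (l 16777896))) (a (l 16776240) (l 16779672))) (b (a (b (l 16783544) (a (b (l 16785120) (l 16780536)) (l 16784368))) (b (c (l 16775008) (b (l 16771944) (l 16772584))) (l 16782696))) (c (l 16784296) (l 16786864)))))), by decide +kernel⟩

def k203_A00pm_113_s3 : ∃ t, chk3 f_A00pm_113_s3 t 251 245 1 = true :=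
  ⟨(a (c (b (a (c (l 16778400) (l 16783168)) (b (c (a (l 16775408) (l 16774568)) (a (l 16780400) (l 16779464))) (c (l 16771584) (l 16776336)))) (c (l 16770656) (l 16785448))) (c (c (a (l 16788544) (b (l 16779392) (l 16787640))) (a (l 16791016) (b (l 16782048) (l 16790048)))) (a (b (l 16793664) (l 16796048)) (b (c (l 16784776) (a (l 16788160) (l 16787032))) (c (l 16792528) (l 16795088)))))) (c (b (c (a (l 16769264) (l 16773560)) (c (l 16771984) (l 16774224))) (a (c (a (b (l 16776952) (l 16778800)) (b (l 16776248) (l 16777704))) (c (a (l 16781216) (l 16780248)) (l 16777800))) (c (l 16776120) (l 16780192)))) (b (a (c (c (l 16782688) (l 16785200)) (c (l 16787784) (l 16790448))) (c (l 16782080) (l 16786768))) (c (a (c (l 16780136) (l 16782544)) (l 16789792)) (b (a (c (l 16789656) (l 16787032)) (l 16788576)) (a (a (l 16792728) (c (l 16790336) (l 16792872))) (l 16789800))))))), by decide +kernel⟩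

def k204_A00pm_113_s3 : ∃ t, chk3 f_A00pm_113_s3 t 125 123 1 = true :=
  ⟨(a (c (b (a (l 16799816) (l 16778464)) (l 16782864)) (c (b (l 16780840) (l 16807200)) (b (l 16784328) (l 16809624)))) (b (a (c (c (l 16776560) (l 16780080)) (c (b (l 16792928) (l 16795704)) (b (l 16797216) (l 16799432)))) (c (c (a (b (a (l 16781752) (l 16775184)) (l 16784896)) (b (a (b (l 16778432) (l 16780128)) (a (l 16773384) (l 16778312))) (b (l 16776152) (l 16783200)))) (a (b (a (l 16785712) (l 16779208)) (l 16788384)) (b (b (l 16776896) (a (l 16784080) (l 16783040))) (c (l 16774528) (l 16776400))))) (a (c (b (b (l 16783408) (l 16790048)) (l 16792120)) (b (c (l 16787488) (l 16795064)) (l 16796088))) (c (b (c (c (l 16775016) (l 16776088)) (b (l 16787560) (l 16788856))) (c (l 16778328) (l 16785560))) (a (b (c (l 16785800) (b (l 16792848) (l 16793968))) (l 16794448)) (b (c (l 16789904) (b (l 16791584) (l 16792800))) (c (l 16787056) (b (l 16793928) (l 16794960))))))))) (a (c (c (l 16794320) (l 16796904)) (c (l 16799664)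 (l 16802608))) (c (c (a (l 16790280) (l 16787656)) (b (l 16790296) (l 16793304))) (c (b (l 16793600) (l 16796128)) (c (l 16797312) (l 16793744))))))), by decide +kernel⟩

def k205_A00pm_113_s3 : ∃ t, chk3 f_A00pm_113_s3 t 126 120 1 = true :=
  ⟨(c (b (a (c (a (a (l 16730112) (l 16729504)) (l 16728808)) (a (b (l 16741504) (l 16745864)) (b (l 16739544) (l 16743992)))) (c (a (l 16728256) (l 16728168)) (a (l 16729896) (l 16729008)))) (a (c (a (b (l 16746576) (l 16750592)) (l 16737272)) (a (b (l 16750072) (l 16754120)) (b (l 16748288) (l 16752424)))) (c (a (l 16736872) (l 16736944)) (a (l 16738672) (b (l 16746264) (l 16750592)))))) (a (b (c (a (l 16747440) (a (l 16734736) (l 16733440))) (a (c (l 16750440) (l 16752536)) (c (l 16746808) (l 16748392)))) (c (a (l 16755936) (a (l 16743392) (l 16742200))) (a (c (l 16758984) (l 16761112)) (b (l 16754256) (l 16758488))))) (b (c (a (a (l 16732280) (l 16731264)) (a (l 16730392) (l 16729672))) (a (c (l 16722816) (l 16744880)) (c (l 16720416) (l 16742024)))) (c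 (a (a (l 16741152) (l 16740248)) (c (l 16738864) (l 16739512))) (a (c (l 16742336) (l 16753992)) (b (l 16727792) (l 16742784))))))), by decide +kernel⟩

def k206_A00pm_113_s3 : ∃ t, chk3 f_A00pm_113_s3 t 252 121 1 = true :=
  ⟨(c (c (b (a (b (l 16754448) (l 16758136)) (b (l 16753696) (l 16757456))) (a (b (l 16761648) (a (b (l 16764360) (l 16755376)) (b (l 16763824) (l 16765072)))) (b (a (b (l 16760264) (l 16761832)) (l 16749952)) (l 16763112)))) (b (a (b (l 16758008) (l 16761712)) (c (l 16747136) (l 16748560))) (a (b (l 16765232) (a (b (l 16768168) (l 16759168)) (b (l 16756720) (l 16768440)))) (b (a (b (l 16763224) (l 16754312)) (c (l 16751840) (l 16753176))) (l 16765840))))) (b (c (a (c (l 16752272) (l 16754272)) (c (l 16750040) (l 16751592))) (a (c (l 16766832) (l 16768976)) (b (l 16762544) (l 16766400)))) (a (b (c (l 16758624) (l 16773256)) (c (a (b (l 16772256) (c (l 16772688) (l 16764320))) (b (l 16760368) (l 16772064))) (a (b (l 16776640) (a (l 16768152) (l 16767136))) (b (c (l 16763280)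 (l 16765304)) (l 16775960))))) (b (c (a (b (l 16766440) (l 16757528)) (b (l 16754728) (l 16766392))) (a (b (l 16769912) (c (l 16760104) (l 16761896))) (b (c (l 16756968) (l 16758536)) (l 16769392)))) (c (l 16768800) (l 16772000)))))), by decide +kernel⟩

def k207_A00pm_113_s3 : ∃ t, chk3 f_A00pm_113_s3 t 253 121 1 = true :=
  ⟨(c (c (b (a (b (l 16753408) (a (l 16746600) (l 16746096))) (b (a (l 16742816) (l 16737160)) (l 16755248))) (a (b (l 16759104) (l 16761056)) (l 16757880))) (b (a (b (l 16755304) (a (b (l 16758440) (l 16760088)) (l 16747840))) (b (a (l 16744152) (l 16743352)) (l 16756384))) (a (b (l 16761032) (l 16762944)) (l 16758968)))) (b (a (b (c (l 16757416) (l 16749248)) (c (a (b (l 16760792) (l 16751968)) (b (l 16749256) (l 16760880))) (a (b (l 16763360) (c (l 16743392) (l 16755224))) (b (l 16751392) (l 16763008))))) (b (c (a (b (l 16755320) (l 16746584)) (b (l 16743968) (l 16755552))) (a (b (l 16757000) (l 16748288)) (b (l 16745240) (l 16756824)))) (c (l 16757672) (l 16759136)))) (c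 (a (a (l 16754536) (l 16763128)) (l 16749728)) (a (c (l 16755296) (l 16756496)) (l 16756376))))), by decide +kernel⟩

def k208_A00pm_113_s3 : ∃ t, chk3 f_A00pm_113_s3 t 126 122 1 = true :=
  ⟨(a (c (b (b (a (c (l 16767248) (l 16760312)) (c (l 16765264) (l 16767952))) (a (c (l 16769600) (l 16773104)) (c (l 16767472) (l 16770128)))) (a (c (a (b (l 16772536) (l 16775024)) (l 16767424)) (b (l 16770232) (a (l 16778672) (l 16777104)))) (c (b (l 16769736) (l 16772048)) (b (l 16772368) (l 16774656))))) (b (a (c (b (l 16769376) (l 16771632)) (a (b (l 16779856) (l 16782088)) (l 16778624))) (c (a (l 16767656) (l 16770960)) (c (l 16763768) (l 16775872)))) (c (c (a (b (l 16778240) (l 16780632)) (b (l 16774480) (l 16776744))) (a (l 16781352) (b (l 16775952) (l 16778200)))) (a (b (c (l 16782160) (l 16784216)) (c (l 16779264) (l 16786536))) (b (l 16778272) (c (l 16779712) (l 16781272))))))) (b (c (a (c (l 16753608) (l 16760696)) (c (l 16761600) (l 16752168))) (c (a (l 16762728) (l 16758608)) (a (a (l 16766176)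 (l 16758464)) (a (l 16755968) (l 16763920))))) (c (c (a (b (l 16767248) (l 16769416)) (b (l 16764536) (l 16766552))) (a (b (l 16769064) (l 16771216)) (l 16761328))) (c (a (c (l 16771600) (l 16767392)) (b (l 16766744) (l 16768736))) (a (b (l 16767984) (c (l 16774776) (l 16775888))) (b (l 16768048) (l 16764784))))))), by decide +kernel⟩

def k209_A00pm_113_s3 : ∃ t, chk3 f_A00pm_113_s3 t 252 123 2 = true :=
  ⟨(a (b (b (c (a (l 16777560) (l 16776344)) (a (l 16781176) (l 16779536))) (c (a (a (b (l 16779808) (l 16781352)) (l 16774592)) (l 16778840)) (a (c (a (l 16778072) (l 16782424)) (l 16779464)) (l 16782016)))) (c (a (b (c (l 16777400) (l 16778968)) (l 16786792)) (b (a (b (l 16781064) (l 16782472)) (l 16781016)) (a (l 16779648) (c (l 16777840) (l 16779256))))) (a (b (c (l 16780600) (l 16782288)) (l 16789632)) (b (c (l 16778504) (l 16780128)) (b (a (l 16787120) (l 16786016)) (l 16782752)))))) (b (c (b (l 16779648) (l 16771552)) (b (l 16771744) (a (l 16780264) (l 16778456)))) (b (c (a (l 16779944)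 (l 16778464)) (a (l 16782712) (l 16780832))) (c (a (b (l 16781800) (l 16777816)) (l 16780864)) (a (c (l 16779232) (l 16780664)) (l 16783248)))))), by decide +kernel⟩

def k210_A00pm_113_s3 : ∃ t, chk3 f_A00pm_113_s3 t 252 123 3 = true :=
  ⟨(b (c (a (b (c (l 16783080) (a (l 16786048) (l 16783864))) (a (c (l 16781360) (l 16783312)) (c (l 16784552) (l 16786304)))) (a (b (l 16780848) (l 16788480)) (b (l 16778688) (l 16781016)))) (a (b (c (l 16786904) (c (l 16788400) (l 16789424))) (b (c (l 16788720) (a (b (l 16791768) (l 16789760)) (l 16789384))) (a (c (a (l 16791784) (l 16790608)) (a (c (l 16793344) (l 16794408)) (l 16792648))) (l 16789664)))) (b (c (l 16776752) (l 16783536)) (c (a (l 16785608) (l 16783056)) (a (l 16787248) (l 16784472)))))) (a (a (c (b (c (l 16784024) (l 16785824)) (l 16792672)) (b (c (b (a (l 16792920) (l 16791816)) (l 16793480)) (b (a (l 16794896) (c (l 16793304) (l 16789064))) (l 16795344))) (b (l 16795408) (l 16796392)))) (c (c (b (l 16781816) (l 16784384)) (b (a (l 16784136)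 (l 16788216)) (b (l 16785408) (l 16791840)))) (c (b (c (l 16784888) (a (l 16786448) (l 16790416))) (a (l 16788216) (b (l 16791816) (l 16792936)))) (b (a (b (l 16792528) (a (l 16794024) (l 16793424))) (l 16791768)) (a (b (l 16794736) (l 16795648)) (b (a (l 16791296) (l 16793296)) (l 16789384))))))) (c (b (c (l 16789072) (a (l 16786448) (l 16784056))) (c (a (l 16782144) (l 16785152)) (a (a (l 16784296) (l 16788320)) (l 16786472)))) (b (c (a (l 16788032) (l 16785424)) (b (l 16787648) (a (l 16790280) (l 16787432)))) (a (c (b (l 16789888) (a (l 16791776) (l 16790472))) (b (l 16791520) (a (c (l 16793024) (c (l 16793664) (l 16788848))) (l 16792048)))) (c (l 16787840) (b (l 16788640) (l 16789864)))))))), by decide +kernel⟩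

def k211_A00pm_113_s3 : ∃ t, chk3 f_A00pm_113_s3 t 253 123 1 = true :=
  ⟨(c (b (a (c (b (l 16771624) (l 16773864)) (b (l 16773408) (l 16770408))) (c (b (l 16768608) (l 16770696)) (a (l 16766416) (l 16764432)))) (a (c (b (l 16776128) (a (l 16779248) (l 16777568))) (b (a (l 16778904) (l 16776920)) (a (l 16781248) (l 16779192)))) (c (b (l 16772800) (l 16774928)) (b (l 16773848) (l 16770768))))) (b (b (c (a (c (l 16774864) (l 16775880)) (l 16770784)) (a (a (l 16773568) (l 16776136)) (c (l 16771728) (l 16772400)))) (c (a (a (l 16778744) (l 16776432)) (l 16767632)) (c (a (l 16779152) (l 16773824)) (a (a (l 16781664) (l 16778816)) (l 16774488))))) (a (c (b (a (l 16781056) (l 16778672)) (a (l 16788648) (l 16780960))) (b (c (a (l 16782768) (l 16780080)) (l 16782520)) (c (l 16783752) (b (l 16784256) (l 16785432))))) (c (b (a (l 16776248) (l 16773776)) (a (l 16778464) (l 16775920))) (b (a (c (l 16777352) (l 16778120)) (l 16774864)) (c (l 16783408) (a (l 16780360) (l 16777328)))))))), by decide +kernel⟩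

def k212_A00pm_113_s3 : ∃ t, chk3 f_A00pm_113_s3 t 254 60 1 = true :=
  ⟨(b (b (c (c (a (l 16728560) (l 16729440)) (a (l 16728656) (c (l 16718504) (l 16728720)))) (c (a (a (l 16729104) (l 16728688)) (c (l 16728480) (l 16728256))) (a (b (l 16726728) (l 16731712)) (b (l 16725376) (l 16730512))))) (c (a (b (c (l 16745792) (l 16746064)) (c (a (l 16733944) (l 16733616)) (a (l 16739736) (l 16739040)))) (b (c (a (l 16730488) (l 16730256)) (a (l 16735504) (l 16734912))) (c (l 16748008) (l 16747608)))) (a (b (c (l 16746472) (l 16736536)) (c (a (b (l 16750040) (l 16741392)) (b (l 16738872) (l 16750424))) (a (b (l 16750856) (l 16742240)) (b (l 16739304) (l 16750848))))) (b (c (a (b (l 16744968) (l 16736408)) (b (l 16733992) (l 16745496))) (a (b (l 16744936) (a (l 16726352) (l 16725672))) (b (a (l 16734000) (l 16722872)) (l 16745096)))) (c (l 16747296) (l 16726120)))))) (c (b (a (c (l 16741808) (l 16742152)) (c (l 16749984) (l 16749552))) (a (b (l 16744312) (l 16745960)) (a (l 16742896) (l 16741352)))) (b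 (c (a (l 16742624) (l 16749208)) (a (a (l 16744392) (l 16752528)) (l 16738472))) (a (c (l 16756200) (l 16746248)) (c (l 16752032) (l 16741256)))))), by decide +kernel⟩

def k213_A00pm_113_s3 : ∃ t, chk3 f_A00pm_113_s3 t 255 60 1 = true :=
  ⟨(b (a (b (c (b (c (l 16738872) (l 16737592)) (c (a (l 16727216) (l 16727072)) (a (b (l 16741056) (l 16722032)) (b (l 16720112) (l 16742040))))) (b (c (l 16725888) (b (l 16723384) (l 16726072))) (c (a (b (l 16740120) (l 16731632)) (b (l 16729336) (l 16740792))) (a (b (l 16739256) (a (l 16731224) (l 16730616))) (b (a (l 16728512) (l 16727944)) (l 16739592)))))) (c (c (l 16724192) (l 16733528)) (c (l 16732440) (c (l 16721184) (l 16731168))))) (b (c (b (c (a (b (l 16738960) (l 16740912)) (l 16724080)) (a (b (l 16737208) (l 16723496)) (b (l 16721688) (l 16738312)))) (c (l 16741456) (l 16739600))) (b (c (a (b (l 16735496) (l 16727096)) (b (a (l 16719936) (l 16719616)) (l 16736320))) (a (b (l 16733832) (a (l 16725864) (l 16725336))) (b (a (b (l 16733272) (l 16723872))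 (b (l 16722616) (l 16733560))) (l 16734344)))) (c (l 16716808) (l 16725504)))) (c (c (l 16742744) (l 16725144)) (b (c (l 16738592) (l 16726296)) (c (l 16739488) (l 16727184)))))) (a (c (b (c (l 16747456) (l 16746288)) (c (l 16750008) (l 16748840))) (b (c (l 16745168) (l 16733624)) (c (l 16747720) (l 16736152)))) (c (b (a (c (l 16745416) (l 16743720)) (c (l 16743992) (l 16741952))) (a (c (l 16747728) (l 16746048)) (c (l 16746136) (l 16744128)))) (b (b (a (l 16730208) (c (l 16739424) (l 16737408))) (a (l 16731296) (c (l 16740448) (l 16738432)))) (b (a (l 16732472) (c (l 16741544) (l 16729048))) (a (l 16733712) (c (l 16742712) (l 16730232)))))))), by decide +kernel⟩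

def k214_A00pm_113_s3 : ∃ t, chk3 f_A00pm_113_s3 t 254 61 1 = true :=
  ⟨(b (b (c (a (c (l 16758896) (l 16759176)) (a (l 16746080) (l 16744384))) (c (a (l 16749080) (l 16755128)) (a (l 16754824) (l 16749584)))) (c (a (c (l 16762520) (a (l 16763760) (l 16761832))) (c (l 16759264) (l 16748344))) (c (a (l 16757936) (l 16753224)) (a (a (l 16759776) (l 16757056)) (c (l 16758232) (l 16747608)))))) (c (b (a (c (b (l 16765352) (l 16767280)) (b (l 16765648) (l 16767592))) (c (b (l 16761856) (l 16763616)) (b (l 16761448) (l 16763240)))) (c (a (b (l 16769224) (l 16771192)) (b (l 16765400) (l 16767192))) (a (a (l 16766432) (l 16764192)) (b (l 16765056) (l 16766904))))) (b (c (a (c (l 16761648) (l 16761864)) (a (l 16758024) (l 16750240))) (a (b (l 16761264) (a (l 16769904) (l 16767024))) (b (l 16755568) (l 16757400)))) (c (a (b (l 16764744) (a (l 16773336) (l 16770704))) (a (l 16761808) (l 16759120))) (c (a (a (l 16767576) (l 16764696)) (b (l 16764584) (l 16766512))) (a (b (l 16770632) (a (l 16774256) (l 16771152)))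 (a (l 16761776) (l 16758632)))))))), by decide +kernel⟩

def k215_A00pm_113_s3 : ∃ t, chk3 f_A00pm_113_s3 t 255 61 1 = true :=
  ⟨(a (b (c (b (c (l 16752792) (l 16751640)) (b (l 16754448) (l 16745504))) (b (c (l 16750536) (l 16738976)) (c (l 16743096) (b (l 16751752) (l 16753344))))) (c (b (c (l 16748408) (b (l 16757040) (l 16758672))) (c (b (l 16761304) (l 16762928)) (b (l 16760328) (l 16762008)))) (b (b (c (l 16756000) (l 16754984)) (c (l 16757664) (l 16751440))) (b (c (l 16759368) (l 16753192)) (c (l 16761112) (a (l 16761808) (l 16758656))))))) (b (c (b (b (c (l 16748760) (l 16746944)) (c (l 16750040) (l 16748240))) (b (c (l 16751352) (l 16749592)) (c (l 16752712) (l 16750984)))) (b (b (a (l 16735016) (c (l 16743936) (l 16731472))) (a (l 16746872) (c (l 16745224) (l 16732784)))) (b (a (l 16748296) (c (l 16746560) (l 16744632))) (a (l 16739288) (c (l 16747944) (l 16746056)))))) (c (c (b (l 16744312) (a (l 16758800) (l 16756504))) (b (a (l 16754336) (l 16741440)) (c (l 16746008) (l 16745240))))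 (c (c (b (l 16741392) (b (l 16754176) (l 16755736))) (b (a (l 16752448) (l 16749640)) (l 16748928))) (b (c (l 16744968) (a (l 16750944) (l 16737320))) (b (l 16746944) (l 16748600))))))), by decide +kernel⟩

def k216_A00pm_113_s3 : ∃ t, chk3 f_A00pm_113_s3 t 62 62 1 = true :=
  ⟨(b (a (c (l 16788944) (a (l 16786664) (l 16783312))) (c (a (l 16791872) (b (c (l 16777176) (l 16779064)) (l 16783480))) (a (b (l 16791840) (l 16774760)) (b (c (l 16781088) (l 16793728)) (c (l 16785312) (l 16786632)))))) (a (c (b (l 16791872) (a (c (l 16777176) (l 16779064)) (l 16783480))) (b (a (l 16791840) (l 16774760)) (a (c (l 16781088) (l 16793728)) (c (l 16785312) (l 16786632))))) (c (c (l 16795440) (l 16795400)) (c (l 16795352) (a (l 16794128) (l 16790608)))))), by decide +kernel⟩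

def k217_A00pm_113_s3 : ∃ t, chk3 f_A00pm_113_s3 t 252 124 1 = true :=
  ⟨(b (a (c (c (b (l 16778304) (l 16791848)) (b (l 16791272) (l 16793936))) (c (c (l 16783960) (l 16785224)) (b (c (l 16796032) (l 16797496)) (l 16798552)))) (c (c (b (a (a (l 16780464) (b (l 16783904) (l 16785312))) (b (l 16782672) (l 16783880))) (a (l 16788152) (b (a (l 16785664) (l 16784672)) (l 16781304)))) (b (a (b (c (l 16786440) (l 16787832)) (a (l 16789024) (l 16787888))) (b (l 16785072) (l 16786288))) (a (l 16779936) (c (b (l 16786936) (l 16788224)) (l 16783536))))) (a (c (b (a (c (l 16790432) (l 16786632)) (c (l 16789320) (b (l 16790184) (l 16791360)))) (l 16792848)) (a (b (b (c (l 16792888) (a (l 16794760) (l 16791608))) (l 16794624)) (l 16795952)) (b (b (c (l 16791712) (a (c (l 16793232) (l 16794040)) (l 16792936))) (c (l 16792824) (b (l 16791496) (l 16794584)))) (c (l 16794264) (l 16795608))))) (c (b (c (l 16784960) (b (l 16788312) (l 16789544))) (b (c (l 16789424) (a (l 16791352) (l 16790144))) (a (l 16791776)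 (c (l 16790048) (l 16791304))))) (a (b (c (b (l 16790368) (l 16791608)) (b (l 16791840) (b (l 16792776) (l 16790768)))) (b (b (c (l 16792488) (c (l 16793568) (l 16791680))) (c (l 16793000) (l 16794408))) (l 16791728))) (b (c (l 16789616) (l 16790976)) (b (c (l 16791472) (c (l 16792496) (l 16793192))) (a (c (l 16792912) (l 16791640)) (c (l 16792328) (a (l 16791216) (l 16793512))))))))))) (a (c (c (l 16796048) (l 16797592)) (c (l 16799240) (l 16790520))) (b (c (c (l 16784560) (a (l 16792896) (l 16785384))) (c (c (l 16793312) (l 16794392)) (a (l 16797096) (c (l 16794488) (l 16790424))))) (c (c (l 16792432) (l 16794040)) (c (l 16795760) (l 16792344)))))), by decide +kernel⟩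

def k218_A00pm_113_s3 : ∃ t, chk3 f_A00pm_113_s3 t 252 125 1 = true :=
  ⟨(c (b (c (l 16787896) (l 16788912)) (l 16791984)) (b (a (l 16792752) (c (l 16798288) (l 16789088))) (c (l 16782216) (l 16782736)))), by decide +kernel⟩

def k219_A00pm_113_s3 : ∃ t, chk3 f_A00pm_113_s3 t 253 124 2 = true :=
  ⟨(a (b (b (c (a (l 16781584) (l 16779832)) (a (l 16783616) (l 16781488))) (c (a (b (l 16783352) (l 16784520)) (l 16782112)) (a (b (l 16785400) (l 16786592)) (l 16783800)))) (c (b (a (b (l 16780504) (l 16781776)) (l 16784408)) (a (a (l 16789496) (l 16783096)) (c (l 16781088) (l 16781920)))) (b (a (c (l 16782648) (c (l 16783424) (l 16783944))) (l 16786144)) (a (b (l 16784912) (l 16791232)) (c (l 16782776) (a (l 16784272) (l 16788360))))))) (b (b (c (l 16777072) (a (l 16779304) (l 16777064))) (c (a (l 16780208) (l 16778240)) (a (l 16781544) (l 16779232)))) (a (c (b (l 16782424) (l 16784656)) (b (l 16783808) (l 16786088))) (c (b (l 16780376) (l 16782520)) (b (l 16781416) (l 16783616)))))), by decide +kernel⟩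

def k220_A00pm_113_s3 : ∃ t, chk3 f_A00pm_113_s3 t 506 124 3 = true :=
  ⟨(b (c (b (a (c (l 16785232) (l 16786360)) (l 16788520)) (a (a (b (l 16788240) (l 16789456)) (l 16787568)) (c (l 16785160) (l 16786104)))) (b (c (a (l 16787528) (l 16784712)) (b (l 16786624) (a (l 16789344) (l 16786304)))) (b (c (l 16787928) (a (l 16790568) (l 16787496))) (a (c (l 16790568) (a (l 16792568) (l 16791032))) (c (l 16787680) (l 16788704)))))) (a (b (a (c (c (l 16785352) (b (l 16791232) (l 16792256))) (a (b (c (l 16792768) (b (l 16793824) (l 16794272))) (l 16794232)) (b (c (l 16792160) (c (l 16793088) (l 16791104))) (c (l 16793144) (l 16794328))))) (c (c (l 16784200) (b (l 16789952) (l 16791120))) (a (b (l 16792048) (c (l 16792592) (c (l 16793472) (l 16791456)))) (b (l 16791296) (c (l 16791952) (l 16790488)))))) (c (a (l 16793112) (c (l 16791560) (l 16787312))) (b (a (l 16794736) (c (l 16793200) (a (l 16794560) (l 16791440)))) (l 16794960)))) (c (b (c (l 16787528) (l 16788496)) (c (a (b (l 16789952) (l 16791008))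 (l 16786640)) (a (b (l 16790968) (l 16791976)) (b (l 16789592) (l 16790776))))) (b (c (l 16792112) (c (l 16790264) (l 16790784))) (a (a (b (c (l 16792376) (a (l 16791032) (l 16790704))) (l 16793760)) (b (c (l 16791696) (l 16792768)) (c (l 16792720) (b (l 16793584) (l 16793968))))) (b (l 16793672) (a (b (l 16792360) (a (l 16793072) (l 16792760))) (l 16791880)))))))), by decide +kernel⟩

def k221_A00pm_113_s3 : ∃ t, chk3 f_A00pm_113_s3 t 507 124 3 = true :=
  ⟨(b (c (b (a (l 16780712) (l 16778104)) (a (l 16788240) (l 16780320))) (b (c (a (l 16781848) (l 16778952)) (a (l 16782648) (l 16779552))) (c (l 16782680) (b (l 16782824) (l 16783976))))) (c (b (c (a (l 16784920) (l 16782264)) (l 16784280)) (a (l 16787640) (c (l 16784504) (l 16785128)))) (b (a (c (l 16786504) (l 16787336)) (c (l 16783472) (l 16781488))) (a (c (l 16788872) (c (l 16789512) (l 16789944))) (c (l 16785768) (l 16786440)))))), by decide +kernel⟩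

def k222_A00pm_113_s3 : ∃ t, chk3 f_A00pm_113_s3 t 253 250 1 = true :=
  ⟨(a (b (a (c (c (l 16791328) (l 16792768)) (c (l 16794312) (l 16795960))) (c (c (a (l 16789632) (l 16783272)) (b (l 16784872) (l 16791104))) (c (b (a (l 16792368) (c (l 16790880) (l 16791776))) (l 16792672)) (b (a (l 16794192) (c (a (l 16792992) (l 16789832)) (a (l 16793960) (c (l 16790552) (l 16791040))))) (l 16794344))))) (c (c (l 16792360) (l 16793544)) (c (l 16794824) (l 16790936)))) (c (c (b (a (c (l 16786536) (l 16782000)) (l 16784680)) (a (a (l 16789600) (l 16783264)) (a (l 16782176) (l 16786256)))) (b (a (b (l 16785176) (a (l 16789504) (l 16788320))) (l 16785832)) (b (a (a (l 16790464) (l 16789384)) (l 16787488)) (a (l 16790824) (a (l 16789216) (l 16787944)))))) (a (b (b (a (c (l 16787480) (c (l 16788800) (b (l 16792056) (l 16790024)))) (c (l 16788680) (l 16790280))) (c (a (c (l 16790712) (l 16786304)) (l 16789848)) (a (a (c (l 16792712) (l 16793608)) (c (l 16789520) (a (l 16790592) (l 16790272)))) (c (l 16791056)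 (b (l 16791600) (l 16792200)))))) (c (a (l 16787072) (b (a (l 16791192) (l 16787984)) (l 16791688))) (b (b (a (l 16793384) (a (c (l 16792224) (l 16793080)) (l 16791960))) (a (l 16793672) (a (l 16792976) (c (l 16792048) (l 16792864))))) (a (l 16794072) (l 16790528))))) (c (b (l 16787088) (a (b (l 16789536) (a (l 16788296) (l 16787680))) (l 16791240))) (b (c (l 16788088) (b (l 16788192) (l 16789368))) (a (b (c (l 16790640) (l 16791400)) (a (c (l 16789400) (b (l 16792640) (l 16792976))) (c (l 16791376) (c (l 16789312) (l 16789696))))) (c (l 16789600) (l 16790280)))))))), by decide +kernel⟩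

def k223_A00pm_113_s3 : ∃ t, chk3 f_A00pm_113_s3 t 253 251 1 = true :=
  ⟨(a (c (b (l 16784240) (l 16796256)) (c (l 16786256) (l 16792384))) (b (a (c (c (l 16790976) (l 16792024)) (c (l 16793152) (l 16794344))) (c (b (c (l 16783136) (a (l 16790120) (l 16789000))) (c (l 16789320) (l 16785136))) (c (b (a (l 16791384) (a (l 16787976) (l 16789936))) (c (l 16791224) (l 16786568))) (b (b (a (c (l 16792256) (l 16792976)) (c (l 16791032) (a (l 16792144) (l 16791312)))) (a (l 16792864) (c (l 16788864) (a (l 16792520) (l 16791872))))) (a (l 16793192) (c (l 16789336) (b (l 16789872) (l 16792720)))))))) (c (c (l 16791576) (l 16792400)) (a (l 16789456) (c (l 16792336) (l 16793328)))))), by decide +kernel⟩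

def k224_A00pm_113_s3 : ∃ t, chk3 f_A00pm_113_s3 t 254 124 1 = true :=
  ⟨(c (b (a (b (c (l 16773176) (l 16773600)) (c (l 16775168) (a (l 16776856) (l 16774424)))) (c (b (l 16769000) (l 16770824)) (a (l 16765720) (l 16763208)))) (b (a (c (l 16777168) (a (l 16778960) (l 16776448))) (c (l 16772656) (l 16767320))) (c (a (l 16784432) (l 16774488)) (a (a (l 16781088) (l 16778488)) (a (l 16775832) (l 16773112)))))) (b (a (c (b (a (l 16775448) (l 16772736)) (a (l 16777584) (l 16774808))) (b (a (c (l 16776016) (l 16776416)) (l 16773136)) (c (l 16774048) (l 16777000)))) (c (b (l 16763344) (a (l 16771976) (l 16769096))) (a (b (l 16770024) (l 16772080)) (b (l 16766872) (l 16768856))))) (a (a (c (b (l 16779752) (l 16779312)) (b (c (l 16780392) (l 16780848)) (b (l 16782304) (l 16783432)))) (c (b (l 16776896) (l 16779008)) (b (c (l 16777280) (l 16777552)) (c (l 16779432) (l 16779744))))) (c (b (a (l 16773992) (l 16771032)) (a (l 16776024) (l 16772984))) (b (a (l 16771536) (l 16770872)) (a (c (l 16776200) (l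 16776336)) (l 16770280))))))), by decide +kernel⟩

def k225_A00pm_113_s3 : ∃ t, chk3 f_A00pm_113_s3 t 255 124 1 = true :=
  ⟨(c (c (b (a (b (l 16764552) (l 16766192)) (b (l 16759824) (l 16761280))) (a (b (l 16767840) (l 16769496)) (b (l 16762728) (l 16764192)))) (a (b (c (l 16759520) (l 16759120)) (b (l 16767160) (l 16763656))) (b (b (l 16758400) (l 16759944)) (b (l 16761496) (l 16763056))))) (b (b (a (c (l 16762880) (a (l 16763688) (l 16760456))) (c (a (l 16758472) (l 16755464)) (a (l 16757192) (l 16753880)))) (a (c (l 16759432) (a (l 16765600) (l 16762296))) (c (l 16753360) (a (l 16758952) (l 16755568))))) (a (a (c (b (l 16768024) (l 16769896)) (b (l 16767536) (l 16769496))) (b (c (l 16764960) (l 16764160)) (c (l 16766752) (l 16766048)))) (b (c (l 16755016) (a (l 16760744) (l 16757288))) (c (a (l 16763552) (l 16760288)) (a (l 16762552) (l 16759016))))))), by decide +kernel⟩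

def k226_A00pm_113_s3 : ∃ t, chk3 f_A00pm_113_s3 t 254 250 1 = true :=
  ⟨(c (c (a (b (a (l 16782384) (l 16780024)) (a (l 16784464) (l 16782008))) (b (l 16781576) (a (l 16779480) (l 16776872)))) (a (b (a (l 16783224) (l 16780544)) (c (l 16783800) (l 16784192))) (b (a (l 16777800) (l 16774992)) (a (l 16779776) (l 16776880))))) (a (a (c (b (c (l 16783904) (l 16784376)) (c (l 16786096) (l 16786600))) (b (c (l 16784872) (l 16785384)) (c (l 16787128) (b (l 16787104) (l 16788256))))) (c (b (l 16778512) (b (l 16782728) (l 16783800))) (b (b (l 16781232) (l 16782328)) (c (l 16783800) (l 16784176))))) (c (b (a (l 16778072) (l 16774952)) (a (l 16777504) (l 16776928))) (b (a (c (l 16778304) (l 16778480)) (b (l 16774440) (l 16775472))) (a (b (l 16779992) (l 16781056)) (b (l 16776496) (l 16777528))))))), by decide +kernel⟩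

def k227_A00pm_113_s3 : ∃ t, chk3 f_A00pm_113_s3 t 254 251 1 = true :=
  ⟨(a (c (a (a (b (b (l 16787152) (c (l 16787680) (l 16788728))) (b (c (l 16788600) (l 16789584)) (l 16789800))) (b (c (l 16785920) (l 16786816)) (c (c (l 16782432) (l 16782864)) (b (l 16788392) (l 16784000))))) (b (c (l 16784008) (l 16787296)) (b (a (l 16786552) (l 16785152)) (c (l 16786488) (l 16787248))))) (a (b (c (b (l 16788008) (a (c (l 16789560) (c (l 16789992) (l 16785048))) (l 16788328))) (b (c (l 16788832) (l 16789400)) (a (c (a (b (l 16790944) (l 16791368)) (l 16790392)) (a (b (l 16791584) (l 16792008)) (l 16791000))) (l 16789384)))) (c (b (a (b (l 16787880) (l 16790808)) (a (c (l 16789520) (l 16790056)) (l 16789032))) (a (l 16791176) (a (l 16790480) (l 16787328)))) (b (b (a (c (l 16788744) (a (l 16792248) (l 16789104))) (l 16790232)) (a (l 16791912) (a (c (l 16790864) (l 16788816)) (l 16790352)))) (a (l 16792168) (a (l 16788888) (c (l 16788096) (b (l 16788504) (l 16791424)))))))) (b (c (c (l 16785216) (l 16785600))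 (c (l 16785992) (b (l 16785848) (l 16786960)))) (c (b (l 16787008) (c (l 16787856) (l 16788280))) (b (c (l 16787640) (l 16788072)) (a (a (a (b (l 16790248) (l 16788128)) (l 16790088)) (l 16789408)) (l 16788056))))))) (a (c (b (c (l 16781384) (l 16781760)) (c (l 16783288) (l 16786368))) (b (c (b (l 16781672) (l 16782704)) (c (l 16782536) (l 16782784))) (c (c (l 16784120) (l 16784384)) (b (l 16784264) (c (l 16785184) (l 16785480)))))) (c (b (c (l 16778680) (l 16778776)) (c (l 16780488) (l 16780664))) (b (b (c (l 16778416) (l 16778560)) (c (l 16779400) (l 16779592))) (c (b (l 16780392) (l 16781376)) (c (l 16781072) (b (l 16780688) (l 16781728)))))))), by decide +kernel⟩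

def k228_A00pm_113_s3 : ∃ t, chk3 f_A00pm_113_s3 t 255 125 1 = true :=
  ⟨(b (c (c (a (b (l 16771152) (a (l 16774184) (l 16771416))) (b (l 16765648) (l 16767096))) (a (b (a (l 16772120) (l 16769176)) (a (l 16773920) (l 16770880))) (b (a (l 16766160) (l 16763072)) (a (l 16767776) (l 16764592))))) (c (a (b (a (l 16771784) (l 16768552)) (a (l 16773672) (l 16770360))) (b (a (l 16765264) (l 16761920)) (a (l 16766984) (l 16763552)))) (a (b (a (l 16768856) (c (l 16768096) (l 16767800))) (a (b (l 16772960) (l 16773960)) (l 16767232))) (b (a (l 16764376) (l 16760760)) (a (b (l 16765752) (l 16766664)) (b (l 16762072) (l 16762944))))))) (c (a (a (b (c (l 16775888) (l 16775720)) (c (l 16777600) (l 16777520))) (b (c (l 16773024) (l 16772592)) (c (l 16774624) (l 16774296)))) (b (a (c (l 16770064) (l 16769384)) (c (l 16767016) (l 16766104))) (a (c (l 16771560) (l 16770992)) (c (l 16768408) (l 16767608))))) (c (a (b (a (l 16772952) (l 16772168)) (a (b (l 16776992) (l 16777936)) (l 16771352))) (b (a (l 16768704)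 (l 16765184)) (a (l 16767800) (b (l 16766400) (l 16767208))))) (a (b (a (b (l 16774952) (l 16775944)) (b (l 16771288) (l 16772240))) (a (b (l 16776936) (l 16777928)) (b (l 16773192) (l 16774144)))) (b (a (l 16765416) (b (l 16763816) (l 16764688))) (a (b (l 16769408) (l 16770312)) (b (l 16765560) (l 16766424)))))))), by decide +kernel⟩

def k229_A00pm_113_s3 : ∃ t, chk3 f_A00pm_113_s3 t 124 252 1 = true :=
  ⟨(a (b (c (c (a (l 16778304) (l 16791848)) (a (l 16791272) (l 16793936))) (c (c (l 16783960) (l 16785224)) (a (c (l 16796032) (l 16797496)) (l 16798552)))) (c (c (a (a (b (a (l 16778824) (l 16779544)) (l 16782672)) (b (l 16780672) (l 16783880))) (b (l 16788152) (a (b (l 16785664) (l 16784672)) (l 16781304)))) (a (b (a (c (l 16786440) (l 16787832)) (b (l 16789024) (l 16787888))) (a (l 16785072) (l 16786288))) (b (l 16779936) (c (a (l 16786936) (l 16788224)) (l 16783536))))) (b (c (a (a (c (l 16789264) (b (l 16791336) (l 16790184))) (c (l 16790488) (l 16791896))) (l 16792848)) (b (a (a (c (l 16792888)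 (b (l 16794760) (l 16791608))) (l 16794624)) (l 16795952)) (a (a (c (l 16791712) (b (c (l 16793232) (l 16794040)) (l 16792936))) (c (l 16792824) (a (l 16791496) (l 16794584)))) (c (l 16794264) (l 16795608))))) (c (a (c (l 16784960) (a (l 16788312) (l 16789544))) (a (c (l 16789424) (b (l 16791352) (l 16790144))) (b (l 16791776) (c (l 16790048) (l 16791304))))) (b (a (c (a (l 16790368) (l 16791608)) (a (l 16791840) (a (l 16792776) (l 16790768)))) (a (a (c (l 16792488) (c (l 16793568) (l 16791680))) (c (l 16793000) (l 16794408))) (l 16791728))) (a (c (l 16789616) (l 16790976)) (a (c (l 16791472) (c (l 16792496) (l 16793192))) (a (c (l 16792360) (a (l 16790976) (l 16791240))) (c (l 16792880) (l 16791584)))))))))) (b (c (c (l 16796048) (l 16797592)) (c (l 16799240) (l 16790520))) (a (c (c (l 16784560) (b (l 16792896) (l 16785384))) (c (c (l 16793312) (l 16794392)) (b (l 16797096) (c (l 16794488) (l 16790424))))) (c (c (l 16792432) (l 16794040)) (c (l 16795760) (l 16792344)))))), by decide +kernel⟩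

def k230_A00pm_113_s3 : ∃ t, chk3 f_A00pm_113_s3 t 125 252 1 = true :=
  ⟨(c (a (c (l 16787896) (l 16788912)) (l 16791984)) (a (b (l 16792752) (c (l 16798288) (l 16789088))) (c (l 16782216) (l 16782736)))), by decide +kernel⟩

def k231_A00pm_113_s3 : ∃ t, chk3 f_A00pm_113_s3 t 124 253 2 = true :=
  ⟨(b (a (a (c (b (l 16781584) (l 16779832)) (b (l 16783616) (l 16781488))) (c (b (a (l 16783352) (l 16784520)) (l 16782112)) (b (a (l 16785400) (l 16786592)) (l 16783800)))) (c (a (b (a (l 16780504) (l 16781776)) (l 16784408)) (b (b (l 16789496) (l 16783096)) (c (l 16781088) (l 16781920)))) (a (b (c (l 16782648) (c (l 16783424) (l 16783944))) (l 16786144)) (b (a (l 16784912) (l 16791232)) (c (l 16782776) (b (l 16784272) (l 16788360))))))) (a (a (c (l 16777072) (b (l 16779304) (l 16777064))) (c (b (l 16780208) (l 16778240)) (b (l 16781544) (l 16779232)))) (b (c (a (l 16782424) (l 16784656)) (a (l 16783808) (l 16786088))) (c (a (l 16780376) (l 16782520)) (a (l 16781416) (l 16783616)))))), by decide +kernel⟩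

def k232_A00pm_113_s3 : ∃ t, chk3 f_A00pm_113_s3 t 124 506 3 = true :=
  ⟨(a (c (a (b (c (l 16785232) (l 16786360)) (l 16788520)) (a (b (l 16787600) (l 16785040)) (b (a (l 16788520) (l 16786496)) (l 16786224)))) (a (c (b (l 16787528) (l 16784712)) (a (l 16786624) (b (l 16789344) (l 16786304)))) (a (c (l 16787928) (b (l 16790568) (l 16787496))) (b (c (l 16790568) (b (l 16792568) (l 16791032))) (c (l 16787680) (l 16788704)))))) (b (a (a (c (c (l 16784200) (b (l 16791232) (l 16789952))) (b (b (c (l 16792768) (a (l 16793824) (l 16794272))) (c (l 16792160) (c (l 16793088) (l 16791104)))) (l 16794296))) (c (c (l 16785328) (b (l 16792256) (l 16791120))) (a (b (c (l 16793192) (l 16794392)) (c (l 16792000) (l 16790560))) (b (l 16794176) (c (l 16792536) (a (l 16790968) (l 16791208))))))) (c (a (c (l 16791624) (l 16792648)) (l 16793040)) (a (b (l 16794736) (c (l 16793200) (b (l 16794560) (l 16791440)))) (l 16794960)))) (c (a (c (l 16787528) (l 16788496)) (c (b (a (l 16789952) (l 16791008)) (l 16786640))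 (b (a (l 16790968) (l 16791976)) (a (l 16789592) (l 16790776))))) (a (c (l 16792112) (c (l 16790264) (l 16790784))) (a (b (a (c (l 16791760) (l 16792848)) (b (c (l 16792648) (l 16793744)) (l 16792528))) (l 16793672)) (a (b (c (l 16792784) (b (l 16794112) (l 16793584))) (c (l 16791464) (l 16792472))) (b (l 16793688) (c (l 16792040) (b (l 16793416) (l 16792680)))))))))), by decide +kernel⟩

def k233_A00pm_113_s3 : ∃ t, chk3 f_A00pm_113_s3 t 124 507 3 = true :=
  ⟨(a (c (a (b (l 16780712) (l 16778104)) (b (l 16788240) (l 16780320))) (a (c (b (l 16781848) (l 16778952)) (b (l 16782648) (l 16779552))) (c (l 16782680) (a (l 16782824) (l 16783976))))) (c (a (c (b (l 16784920) (l 16782264)) (l 16784280)) (b (l 16787640) (c (l 16784504) (l 16785128)))) (a (b (c (l 16786504) (l 16787336)) (c (l 16783472) (l 16781488))) (b (c (l 16788872) (c (l 16789512) (l 16789944))) (c (l 16785768) (l 16786440)))))), by decide +kernel⟩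

def k234_A00pm_113_s3 : ∃ t, chk3 f_A00pm_113_s3 t 250 253 1 = true :=
  ⟨(b (a (b (c (c (l 16791328) (l 16792768)) (c (l 16794312) (l 16795960))) (c (c (b (l 16789632) (l 16783272)) (a (l 16784872) (l 16791104))) (c (a (b (l 16792368) (c (l 16790880) (l 16791776))) (l 16792672)) (a (b (l 16794192) (c (b (l 16792992) (l 16789832)) (b (l 16793960) (c (l 16790552) (l 16791040))))) (l 16794344))))) (c (c (l 16792360) (l 16793544)) (c (l 16794824) (l 16790936)))) (c (c (a (b (c (l 16786536) (l 16782000)) (l 16784680)) (a (b (l 16788536) (l 16786280)) (b (l 16789568) (l 16782120)))) (a (b (a (l 16785176) (b (l 16789504) (l 16788320))) (l 16785832)) (a (b (b (l 16790464) (l 16789384)) (l 16787488)) (b (l 16790824) (b (l 16789216) (l 16787944)))))) (b (a (a (b (c (l 16787480) (c (l 16788800) (a (l 16792056) (l 16790024)))) (c (l 16788680) (l 16790280))) (c (b (c (l 16790712) (l 16786304)) (l 16789848)) (b (a (c (l 16789600) (a (l 16790416) (l 16790632))) (c (l 16792632) (l 16790888))) (c (l 16791056)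 (a (l 16791600) (l 16792200)))))) (c (a (b (l 16791952) (a (l 16788048) (l 16791128))) (l 16792176)) (a (a (b (l 16793384) (b (c (l 16792224) (l 16793080)) (l 16791960))) (b (l 16793672) (b (l 16792976) (c (l 16792048) (l 16792864))))) (b (l 16794072) (l 16790528))))) (c (a (l 16787088) (a (l 16788784) (b (a (l 16787752) (l 16788216)) (l 16789192)))) (a (c (l 16788088) (a (l 16788192) (l 16789368))) (b (a (c (l 16790640) (l 16791400)) (b (c (l 16789400) (a (l 16792640) (l 16792976))) (c (l 16791376) (c (l 16789312) (l 16789696))))) (c (l 16789600) (l 16790280)))))))), by decide +kernel⟩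

def k235_A00pm_113_s3 : ∃ t, chk3 f_A00pm_113_s3 t 251 253 1 = true :=
  ⟨(b (c (a (l 16784240) (l 16796256)) (c (l 16786256) (l 16792384))) (a (b (c (c (l 16790976) (l 16792024)) (c (l 16793152) (l 16794344))) (c (a (c (l 16783136) (b (l 16790120) (l 16789000))) (c (l 16789320) (l 16785136))) (c (a (b (l 16791384) (a (l 16790024) (l 16787880))) (c (l 16791224) (l 16786568))) (a (a (b (c (l 16792256) (l 16792976)) (c (l 16791032) (b (l 16792144) (l 16791312)))) (b (l 16792864) (c (l 16788864) (b (l 16792520) (l 16791872))))) (b (l 16793192) (c (l 16789336) (a (l 16789872) (l 16792720)))))))) (c (c (l 16791576) (l 16792400)) (b (l 16789456) (c (l 16792336) (l 16793328)))))), by decide +kernel⟩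

def k236_A00pm_113_s3 : ∃ t, chk3 f_A00pm_113_s3 t 124 254 1 = true :=
  ⟨(c (a (b (a (c (l 16773176) (l 16773600)) (c (l 16775168) (b (l 16776856) (l 16774424)))) (c (a (l 16769000) (l 16770824)) (b (l 16765720) (l 16763208)))) (a (b (c (l 16777168) (b (l 16778960) (l 16776448))) (c (l 16772656) (l 16767320))) (c (b (l 16784432) (l 16774488)) (b (b (l 16781088) (l 16778488)) (b (l 16775832) (l 16773112)))))) (a (b (c (a (b (l 16775448) (l 16772736)) (b (l 16777584) (l 16774808))) (a (b (c (l 16776016) (l 16776416)) (l 16773136)) (c (l 16774048) (l 16777000)))) (c (a (l 16763344) (b (l 16771976) (l 16769096))) (a (b (l 16770024) (l 16766872)) (b (l 16772080) (l 16768856))))) (b (b (c (a (l 16779752) (l 16779312)) (a (c (l 16780392) (l 16780848)) (a (l 16782304) (l 16783432)))) (c (a (l 16776896) (l 16779008)) (a (c (l 16777280) (l 16777552)) (c (l 16779432) (l 16779744))))) (c (a (b (l 16773992) (l 16771032)) (b (l 16776024) (l 16772984))) (a (b (l 16771536) (l 16770872)) (b (c (l 16776200) (l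 16776336)) (l 16770280))))))), by decide +kernel⟩

def k237_A00pm_113_s3 : ∃ t, chk3 f_A00pm_113_s3 t 124 255 1 = true :=
  ⟨(c (c (a (b (a (l 16764552) (l 16766192)) (a (l 16759824) (l 16761280))) (b (a (l 16767840) (l 16769496)) (a (l 16762728) (l 16764192)))) (b (a (c (l 16759520) (l 16759120)) (a (l 16767160) (l 16763656))) (a (a (l 16758400) (l 16759944)) (a (l 16761496) (l 16763056))))) (a (a (b (c (l 16762880) (b (l 16763688) (l 16760456))) (c (b (l 16758472) (l 16755464)) (b (l 16757192) (l 16753880)))) (b (c (l 16759432) (b (l 16765600) (l 16762296))) (c (l 16753360) (b (l 16758952) (l 16755568))))) (b (b (c (a (l 16768024) (l 16769896)) (a (l 16767536) (l 16769496))) (a (c (l 16764960) (l 16764160)) (c (l 16766752) (l 16766048)))) (a (c (l 16755016) (b (l 16760744) (l 16757288))) (c (b (l 16763552) (l 16760288)) (b (l 16762552) (l 16759016))))))), by decide +kernel⟩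

def k238_A00pm_113_s3 : ∃ t, chk3 f_A00pm_113_s3 t 250 254 1 = true :=
  ⟨(c (c (b (a (b (l 16782384) (l 16780024)) (b (l 16784464) (l 16782008))) (a (l 16781576) (b (l 16779480) (l 16776872)))) (b (a (b (l 16783224) (l 16780544)) (c (l 16783800) (l 16784192))) (a (b (l 16777800) (l 16774992)) (b (l 16779776) (l 16776880))))) (b (b (c (a (c (l 16783904) (l 16784376)) (c (l 16786096) (l 16786600))) (a (c (l 16784872) (l 16785384)) (c (l 16787128) (a (l 16787104) (l 16788256))))) (c (a (l 16778512) (a (l 16782728) (l 16783800))) (a (a (l 16781232) (l 16782328)) (c (l 16783800) (l 16784176))))) (c (a (b (l 16778072) (l 16774952)) (b (l 16777504) (l 16776928))) (a (b (c (l 16778304) (l 16778480)) (a (l 16774440) (l 16775472))) (a (b (l 16779992) (l 16776496)) (b (l 16781056) (l 16777528))))))), by decide +kernel⟩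

def k239_A00pm_113_s3 : ∃ t, chk3 f_A00pm_113_s3 t 251 254 1 = true :=
  ⟨(b (c (b (b (a (a (l 16787152) (c (l 16787680) (l 16788728))) (a (c (l 16788600) (l 16789584)) (l 16789800))) (a (c (l 16785920) (l 16786816)) (c (c (l 16782432) (l 16782872)) (a (l 16788392) (l 16784000))))) (a (c (l 16784008) (l 16787296)) (a (a (l 16785600) (l 16786112)) (c (l 16786488) (l 16787248))))) (b (a (c (a (l 16788008) (b (c (l 16789560) (c (l 16789992) (l 16785048))) (l 16788328))) (a (c (l 16788832) (l 16789400)) (b (c (b (a (l 16790944) (l 16791368)) (l 16790392)) (a (l 16791144) (b (l 16792008) (l 16791280)))) (l 16789384)))) (c (a (b (a (l 16787880) (l 16790808)) (b (c (l 16789520) (l 16790056)) (l 16789032))) (a (b (l 16791056) (l 16787440)) (l 16785592))) (a (a (b (c (l 16788744) (b (l 16792248) (l 16789104))) (l 16790232)) (b (l 16791912) (b (c (l 16790864) (l 16788816)) (l 16790352)))) (b (l 16792168) (b (l 16788888) (c (l 16788096) (a (l 16788504) (l 16791424)))))))) (a (c (c (l 16785216) (l 16785600))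 (c (l 16785992) (a (l 16785848) (l 16786960)))) (c (a (l 16787008) (c (l 16787856) (l 16788280))) (a (c (l 16787640) (l 16788072)) (b (a (l 16789576) (a (l 16789992) (b (l 16788048) (l 16789824)))) (l 16788056))))))) (b (c (a (c (l 16781384) (l 16781760)) (c (l 16783288) (l 16786368))) (a (c (a (l 16781672) (l 16782704)) (c (l 16782536) (l 16782784))) (c (c (l 16784120) (l 16784384)) (a (l 16784264) (c (l 16785184) (l 16785480)))))) (c (a (c (l 16778680) (l 16778776)) (c (l 16780488) (l 16780664))) (a (a (c (l 16778416) (l 16778560)) (c (l 16779400) (l 16779592))) (c (a (l 16780392) (l 16781376)) (c (l 16781072) (a (l 16780688) (l 16781728)))))))), by decide +kernel⟩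

def k240_A00pm_113_s3 : ∃ t, chk3 f_A00pm_113_s3 t 125 255 1 = true :=
  ⟨(a (c (c (a (b (l 16771152) (l 16765648)) (b (a (l 16772392) (l 16773224)) (l 16767096))) (b (a (b (l 16772120) (l 16769176)) (b (l 16773920) (l 16770880))) (a (b (l 16766160) (l 16763072)) (b (l 16767776) (l 16764592))))) (c (b (a (b (l 16771784) (l 16768552)) (b (l 16773672) (l 16770360))) (a (b (l 16765264) (l 16761920)) (b (l 16766984) (l 16763552)))) (b (a (b (l 16768856) (c (l 16768096) (l 16767800))) (b (a (l 16772960) (l 16773960)) (l 16767232))) (a (b (l 16764376) (l 16760760)) (b (a (l 16765752) (l 16766664)) (a (l 16762072) (l 16762944))))))) (c (b (b (a (c (l 16775888) (l 16775720)) (c (l 16777600) (l 16777520))) (a (c (l 16773024) (l 16772592)) (c (l 16774624) (l 16774296)))) (a (b (c (l 16770064) (l 16769384)) (c (l 16767016) (l 16766104))) (b (c (l 16771560) (l 16770992)) (c (l 16768408) (l 16767608))))) (c (b (a (b (l 16772952) (l 16772168)) (b (a (l 16776992) (l 16777936)) (l 16771352))) (a (b (l 16768704)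 (l 16765184)) (b (l 16767800) (a (l 16766400) (l 16767208))))) (b (a (b (a (l 16774952) (l 16775944)) (a (l 16771288) (l 16772240))) (a (b (l 16776936) (l 16773192)) (b (l 16777928) (l 16774144)))) (a (b (l 16765416) (a (l 16763816) (l 16764688))) (b (a (l 16769408) (l 16770312)) (a (l 16765560) (l 16766424)))))))), by decide +kernel⟩

def k241_A00pm_113_s3 : ∃ t, chk3 f_A00pm_113_s3 t 126 126 1 = true :=
  ⟨(b (a (c (l 16784080) (l 16784040)) (c (a (l 16777096) (b (l 16788000) (l 16783752))) (a (l 16788208) (b (a (l 16795448) (l 16788328)) (l 16784536))))) (a (c (b (l 16777096) (a (l 16788000) (l 16783752))) (b (l 16788208) (a (b (l 16795448) (l 16788328)) (l 16784536)))) (c (l 16786800) (a (l 16786736) (l 16784848))))), by decide +kernel⟩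

def k242_A00pm_113_s3 : ∃ t, chk3 f_A00pm_113_s3 t 508 126 1 = true :=
  ⟨(b (a (b (c (c (l 16789888) (l 16790592)) (c (l 16791352) (l 16789544))) (c (l 16791216) (c (l 16791984) (l 16792544)))) (c (b (a (b (c (l 16788040) (c (l 16788640) (l 16789056))) (l 16789064)) (b (c (l 16786808) (l 16787536)) (c (l 16787680) (a (l 16788704) (l 16788120))))) (c (l 16789040) (l 16789600))) (b (c (b (a (a (l 16790008) (a (l 16787000) (l 16786688))) (l 16788312)) (a (l 16790184) (b (c (l 16788816) (l 16786600)) (l 16786720)))) (b (b (a (a (l 16788248) (c (l 16789976) (l 16790456))) (l 16788872)) (a (c (l 16790552) (l 16788400)) (l 16789416))) (a (l 16790992) (a (b (c (l 16790024) (l 16787848)) (l 16790416)) (b (l 16789504) (c (l 16789696) (l 16787496))))))) (c (l 16790192) (b (l 16790760) (l 16790896)))))) (c (b (l 16785704) (l 16780832)) (b (c (l 16780968) (l 16786584)) (l 16786392)))), by decide +kernel⟩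

def k243_A00pm_113_s3 : ∃ t, chk3 f_A00pm_113_s3 t 509 252 1 = true :=
  ⟨(a (c (b (b (l 16784968) (a (l 16786680) (l 16785184))) (a (a (b (c (l 16787568) (l 16788208)) (l 16788360)) (b (c (l 16786968) (l 16787584)) (l 16785272))) (a (b (l 16786528) (c (l 16787088) (l 16785024))) (b (l 16785760) (l 16786712))))) (b (c (b (l 16785792) (a (l 16787664) (l 16785960))) (a (b (l 16787320) (c (l 16788200) (l 16788568))) (c (l 16785856) (l 16786144)))) (b (c (a (a (a (l 16789056) (l 16786152)) (l 16785616)) (l 16786968)) (a (b (a (c (l 16789360) (l 16787128)) (l 16788720)) (a (l 16789760) (c (l 16789000) (l 16786744)))) (l 16787576))) (b (c (a (l 16788952) (l 16787704)) (a (l 16789616) (a (l 16788792) (l 16787880)))) (a (l 16789368) (c (a (l 16788416) (l 16787768)) (a (c (l 16788880) (l 16789208)) (l 16788376)))))))) (c (b (c (l 16782296) (l 16782560)) (c (l 16784104) (b (l 16783976) (l 16784912)))) (b (c (b (l 16782368) (l 16783352)) (b (l 16782680) (c (l 16783616) (l 16783800)))) (c (b (l 16784336)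 (a (l 16786208) (l 16784416))) (b (c (l 16784624) (l 16784832)) (a (l 16786704) (l 16784776))))))), by decide +kernel⟩

def k244_A00pm_113_s3 : ∃ t, chk3 f_A00pm_113_s3 t 509 253 1 = true :=
  ⟨(b (c (a (b (c (l 16787800) (l 16785640)) (l 16788304)) (b (a (a (b (l 16786624) (l 16786960)) (l 16786064)) (l 16784840)) (a (c (l 16784128) (l 16787160)) (b (l 16785512) (l 14))))) (a (b (a (l 16789456) (b (c (l 16785672) (c (l 16786104) (l 16789024))) (l 16788656))) (c (l 16788896) (l 16789328))) (a (b (c (a (a (l 16785104) (l 16784760)) (l 16786752)) (a (b (l 16787944) (a (l 16788424) (c (l 16787992) (l 16788272)))) (l 16787248))) (c (b (a (l 16787840) (l 16784712)) (l 16787680)) (b (a (l 16788344) (a (l 16788016) (a (l 16787808) (l 16787616)))) (l 16788136)))) (c (b (l 16785376) (b (l 16786096) (l 14))) (b (l 16785776) (b (l 16786520) (l 14))))))) (a (c (l 16783304) (c (l 16788936) (l 16789216))) (l 14))), by decide +kernel⟩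

def k245_A00pm_113_s3 : ∃ t, chk3 f_A00pm_113_s3 t 255 126 1 = true :=
  ⟨(a (b (c (c (b (a (l 16779304) (l 16776224)) (a (b (l 16780584) (l 16781432)) (b (l 16777424) (l 16778216)))) (b (a (b (l 16778864) (l 16779760)) (l 16773368)) (a (c (l 16781080) (l 16781136)) (b (l 16777264) (l 16778104))))) (c (a (b (l 16779344) (b (l 16780760) (l 16781688))) (b (b (l 16775320) (l 16776216)) (b (l 16777112) (l 16778000)))) (a (b (c (l 16779392) (b (l 16778928) (l 16779920))) (b (l 16780880) (c (l 16781808) (l 16781896)))) (b (b (l 16775096) (l 16776040)) (b (c (l 16777008) (l 16776944)) (l 16777912)))))) (a (b (b (c (c (l 16782280) (l 16782440)) (c (l 16782624) (a (l 16783816) (l 16781832)))) (l 14)) (l 14)) (l 14))) (b (a (c (b (c (l 16773056) (l 16772584)) (b (l 16773976) (l 14))) (b (c (b (l 16771704) (l 16772552)) (a (l 16770024) (l 16768064))) (b (c (l 16773392) (l 16773016)) (l 14)))) (b (b (c (l 16769088) (c (l 16768008) (l 16767288))) (c (l 16769800) (c (l 16768808) (l 16768144)))) (l 14))) (l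 14))), by decide +kernel⟩

def k246_A00pm_113_s3 : ∃ t, chk3 f_A00pm_113_s3 t 126 508 1 = true :=
  ⟨(a (b (a (c (c (l 16789888) (l 16790592)) (c (l 16791352) (l 16789544))) (c (l 16791216) (c (l 16791984) (l 16792544)))) (c (a (b (a (c (l 16788040) (c (l 16788640) (l 16789056))) (l 16789064)) (a (c (l 16786808) (l 16787536)) (c (l 16787680) (a (l 16788232) (l 16788584))))) (c (l 16789040) (l 16789600))) (a (c (a (b (a (a (l 16786872) (l 16789680)) (l 16789880)) (l 16788312)) (b (l 16790184) (a (c (l 16788816) (l 16786600)) (l 16786720)))) (a (a (b (b (l 16788248) (c (l 16789976) (l 16790456))) (l 16788872)) (b (c (l 16790552) (l 16788400)) (l 16789416))) (b (l 16790992) (b (a (c (l 16790024) (l 16787848)) (l 16790416)) (a (l 16789504) (c (l 16789696) (l 16787496))))))) (c (l 16790192) (a (l 16790760) (l 16790896)))))) (c (a (l 16785704) (l 16780832)) (a (c (l 16780968) (l 16786584)) (l 16786392)))), by decide +kernel⟩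

def k247_A00pm_113_s3 : ∃ t, chk3 f_A00pm_113_s3 t 252 509 1 = true :=
  ⟨(b (c (a (a (l 16784968) (b (l 16786680) (l 16785184))) (b (b (a (c (l 16787568) (l 16788208)) (l 16788360)) (a (c (l 16786968) (l 16787584)) (l 16785272))) (b (a (l 16786528) (c (l 16787088) (l 16785024))) (a (l 16785760) (l 16786712))))) (a (c (a (l 16785792) (b (l 16787664) (l 16785960))) (b (a (l 16787320) (c (l 16788200) (l 16788568))) (c (l 16785856) (l 16786144)))) (a (c (b (b (a (l 16788792) (l 16789048)) (l 16785616)) (l 16786968)) (b (a (b (c (l 16789360) (l 16787128)) (l 16788720)) (b (l 16789760) (c (l 16789000) (l 16786744)))) (l 16787576))) (a (c (b (l 16788952) (l 16787704)) (b (l 16789616) (b (l 16788792) (l 16787880)))) (b (l 16789368) (c (b (l 16788416) (l 16787768)) (b (c (l 16788880) (l 16789208)) (l 16788376)))))))) (c (a (c (l 16782296) (l 16782560)) (c (l 16784104) (a (l 16783976) (l 16784912)))) (a (c (a (l 16782368) (l 16783352)) (a (l 16782680) (c (l 16783616) (l 16783800)))) (c (a (l 16784336)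 (b (l 16786208) (l 16784416))) (a (c (l 16784624) (l 16784832)) (b (l 16786704) (l 16784776))))))), by decide +kernel⟩

def k248_A00pm_113_s3 : ∃ t, chk3 f_A00pm_113_s3 t 253 509 1 = true :=
  ⟨(a (c (b (a (c (l 16787800) (l 16785640)) (l 16788304)) (a (b (a (l 16786224) (a (l 16786536) (l 16786704))) (l 16784840)) (b (c (l 16784128) (l 16787160)) (a (l 16785512) (l 14))))) (b (a (b (l 16789456) (a (c (l 16785672) (c (l 16786104) (l 16789024))) (l 16788656))) (c (l 16788896) (l 16789328))) (b (a (c (a (l 16786944) (a (l 16787264) (l 16787424))) (b (a (l 16787944) (b (l 16788424) (c (l 16787992) (l 16788272)))) (l 16787248))) (c (a (b (l 16787840) (l 16784712)) (l 16787680)) (a (a (b (l 16788344) (a (l 16787776) (l 16787856))) (l 16788120)) (l 16788136)))) (c (a (l 16785376) (a (l 16786096) (l 14))) (a (l 16785776) (a (l 16786520) (l 14))))))) (b (c (l 16783304) (c (l 16788936) (l 16789216))) (l 14))), by decide +kernel⟩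

def k249_A00pm_113_s3 : ∃ t, chk3 f_A00pm_113_s3 t 126 255 1 = true :=
  ⟨(b (a (c (c (a (b (l 16779304) (l 16776224)) (b (a (l 16780584) (l 16781432)) (a (l 16777424) (l 16778216)))) (a (b (a (l 16778864) (l 16779760)) (l 16773368)) (b (c (l 16781080) (l 16781136)) (a (l 16777264) (l 16778104))))) (c (b (a (l 16779344) (a (l 16780760) (l 16781688))) (a (a (l 16775320) (l 16776216)) (a (l 16777112) (l 16778000)))) (b (a (c (l 16779392) (a (l 16778928) (l 16779920))) (a (l 16780880) (c (l 16781808) (l 16781896)))) (a (a (l 16775096) (l 16776040)) (a (c (l 16777008) (l 16776944)) (l 16777912)))))) (b (a (a (c (c (l 16782280) (l 16782440)) (c (l 16782624) (b (l 16783816) (l 16781832)))) (l 14)) (l 14)) (l 14))) (a (b (c (a (c (l 16773056) (l 16772584)) (a (l 16773976) (l 14))) (a (c (a (l 16771704) (l 16772552)) (b (l 16770024) (l 16768064))) (a (c (l 16773392) (l 16773016)) (l 14)))) (a (a (c (l 16769088) (c (l 16768008) (l 16767288))) (c (l 16769800) (c (l 16768808) (l 16768144)))) (l 14))) (l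 14))), by decide +kernel⟩

def k250_A00pm_113_s3 : ∃ t, chk3 f_A00pm_113_s3 t 127 127 1 = true :=
  ⟨(b (a (b (a (c (l 16791352) (l 16791352)) (l 14)) (l 14)) (l 14)) (l 14)), by decide +kernel⟩

theorem t251_A00pm_113_s3 : ∃ t, chk3 f_A00pm_113_s3 t 126 509 1 = true := ex3_a k247_A00pm_113_s3 k248_A00pm_113_s3

theorem t252_A00pm_113_s3 : ∃ t, chk3 f_A00pm_113_s3 t 126 254 1 = true := ex3_b k246_A00pm_113_s3 t251_A00pm_113_s3

theorem t253_A00pm_113_s3 : ∃ t, chk3 f_A00pm_113_s3 t 126 127 1 = true := ex3_b t252_A00pm_113_s3 k249_A00pm_113_s3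

theorem t254_A00pm_113_s3 : ∃ t, chk3 f_A00pm_113_s3 t 63 127 1 = true := ex3_a t253_A00pm_113_s3 k250_A00pm_113_s3

theorem t255_A00pm_113_s3 : ∃ t, chk3 f_A00pm_113_s3 t 509 126 1 = true := ex3_b k243_A00pm_113_s3 k244_A00pm_113_s3

theorem t256_A00pm_113_s3 : ∃ t, chk3 f_A00pm_113_s3 t 254 126 1 = true := ex3_a k242_A00pm_113_s3 t255_A00pm_113_s3

theorem t257_A00pm_113_s3 : ∃ t, chk3 f_A00pm_113_s3 t 127 126 1 = true := ex3_a t256_A00pm_113_s3 k245_A00pm_113_s3

theorem t258_A00pm_113_s3 : ∃ t, chk3 f_A00pm_113_s3 t 63 126 1 = true := ex3_a k241_A00pm_113_s3 t257_A00pm_113_s3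

theorem t259_A00pm_113_s3 : ∃ t, chk3 f_A00pm_113_s3 t 63 63 1 = true := ex3_b t258_A00pm_113_s3 t254_A00pm_113_s3

theorem t260_A00pm_113_s3 : ∃ t, chk3 f_A00pm_113_s3 t 125 254 1 = true := ex3_a k238_A00pm_113_s3 k239_A00pm_113_s3

theorem t261_A00pm_113_s3 : ∃ t, chk3 f_A00pm_113_s3 t 125 127 1 = true := ex3_b t260_A00pm_113_s3 k240_A00pm_113_s3

theorem t262_A00pm_113_s3 : ∃ t, chk3 f_A00pm_113_s3 t 124 127 1 = true := ex3_b k236_A00pm_113_s3 k237_A00pm_113_s3

theorem t263_A00pm_113_s3 : ∃ t, chk3 f_A00pm_113_s3 t 62 127 1 = true := ex3_a t262_A00pm_113_s3 t261_A00pm_113_s3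

theorem t264_A00pm_113_s3 : ∃ t, chk3 f_A00pm_113_s3 t 125 253 1 = true := ex3_a k234_A00pm_113_s3 k235_A00pm_113_s3

theorem t265_A00pm_113_s3 : ∃ t, chk3 f_A00pm_113_s3 t 124 253 3 = true := ex3_b k232_A00pm_113_s3 k233_A00pm_113_s3

theorem t266_A00pm_113_s3 : ∃ t, chk3 f_A00pm_113_s3 t 124 253 1 = true := ex3_c k231_A00pm_113_s3 t265_A00pm_113_s3

theorem t267_A00pm_113_s3 : ∃ t, chk3 f_A00pm_113_s3 t 62 253 1 = true := ex3_a t266_A00pm_113_s3 t264_A00pm_113_s3

theorem t268_A00pm_113_s3 : ∃ t, chk3 f_A00pm_113_s3 t 62 252 1 = true := ex3_a k229_A00pm_113_s3 k230_A00pm_113_s3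

theorem t269_A00pm_113_s3 : ∃ t, chk3 f_A00pm_113_s3 t 62 126 1 = true := ex3_b t268_A00pm_113_s3 t267_A00pm_113_s3

theorem t270_A00pm_113_s3 : ∃ t, chk3 f_A00pm_113_s3 t 62 63 1 = true := ex3_b t269_A00pm_113_s3 t263_A00pm_113_s3

theorem t271_A00pm_113_s3 : ∃ t, chk3 f_A00pm_113_s3 t 31 63 1 = true := ex3_a t270_A00pm_113_s3 t259_A00pm_113_s3

theorem t272_A00pm_113_s3 : ∃ t, chk3 f_A00pm_113_s3 t 254 125 1 = true := ex3_b k226_A00pm_113_s3 k227_A00pm_113_s3

theorem t273_A00pm_113_s3 : ∃ t, chk3 f_A00pm_113_s3 t 127 125 1 = true := ex3_a t272_A00pm_113_s3 k228_A00pm_113_s3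

theorem t274_A00pm_113_s3 : ∃ t, chk3 f_A00pm_113_s3 t 127 124 1 = true := ex3_a k224_A00pm_113_s3 k225_A00pm_113_s3

theorem t275_A00pm_113_s3 : ∃ t, chk3 f_A00pm_113_s3 t 127 62 1 = true := ex3_b t274_A00pm_113_s3 t273_A00pm_113_s3

theorem t276_A00pm_113_s3 : ∃ t, chk3 f_A00pm_113_s3 t 253 125 1 = true := ex3_b k222_A00pm_113_s3 k223_A00pm_113_s3

theorem t277_A00pm_113_s3 : ∃ t, chk3 f_A00pm_113_s3 t 253 124 3 = true := ex3_a k220_A00pm_113_s3 k221_A00pm_113_s3

theorem t278_A00pm_113_s3 : ∃ t, chk3 f_A00pm_113_s3 t 253 124 1 = true := ex3_c k219_A00pm_113_s3 t277_A00pm_113_s3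

theorem t279_A00pm_113_s3 : ∃ t, chk3 f_A00pm_113_s3 t 253 62 1 = true := ex3_b t278_A00pm_113_s3 t276_A00pm_113_s3

theorem t280_A00pm_113_s3 : ∃ t, chk3 f_A00pm_113_s3 t 252 62 1 = true := ex3_b k217_A00pm_113_s3 k218_A00pm_113_s3

theorem t281_A00pm_113_s3 : ∃ t, chk3 f_A00pm_113_s3 t 126 62 1 = true := ex3_a t280_A00pm_113_s3 t279_A00pm_113_s3

theorem t282_A00pm_113_s3 : ∃ t, chk3 f_A00pm_113_s3 t 63 62 1 = true := ex3_a t281_A00pm_113_s3 t275_A00pm_113_s3

theorem t283_A00pm_113_s3 : ∃ t, chk3 f_A00pm_113_s3 t 31 62 1 = true := ex3_a k216_A00pm_113_s3 t282_A00pm_113_s3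

theorem t284_A00pm_113_s3 : ∃ t, chk3 f_A00pm_113_s3 t 31 31 1 = true := ex3_b t283_A00pm_113_s3 t271_A00pm_113_s3

theorem t285_A00pm_113_s3 : ∃ t, chk3 f_A00pm_113_s3 t 127 61 1 = true := ex3_a k214_A00pm_113_s3 k215_A00pm_113_s3

theorem t286_A00pm_113_s3 : ∃ t, chk3 f_A00pm_113_s3 t 127 60 1 = true := ex3_a k212_A00pm_113_s3 k213_A00pm_113_s3

theorem t287_A00pm_113_s3 : ∃ t, chk3 f_A00pm_113_s3 t 127 30 1 = true := ex3_b t286_A00pm_113_s3 t285_A00pm_113_s3

theorem t288_A00pm_113_s3 : ∃ t, chk3 f_A00pm_113_s3 t 252 123 1 = true := ex3_c k209_A00pm_113_s3 k210_A00pm_113_s3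

theorem t289_A00pm_113_s3 : ∃ t, chk3 f_A00pm_113_s3 t 126 123 1 = true := ex3_a t288_A00pm_113_s3 k211_A00pm_113_s3

theorem t290_A00pm_113_s3 : ∃ t, chk3 f_A00pm_113_s3 t 126 61 1 = true := ex3_b k208_A00pm_113_s3 t289_A00pm_113_s3

theorem t291_A00pm_113_s3 : ∃ t, chk3 f_A00pm_113_s3 t 126 121 1 = true := ex3_a k206_A00pm_113_s3 k207_A00pm_113_s3

theorem t292_A00pm_113_s3 : ∃ t, chk3 f_A00pm_113_s3 t 126 60 1 = true := ex3_b k205_A00pm_113_s3 t291_A00pm_113_s3

theorem t293_A00pm_113_s3 : ∃ t, chk3 f_A00pm_113_s3 t 126 30 1 = true := ex3_b t292_A00pm_113_s3 t290_A00pm_113_s3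

theorem t294_A00pm_113_s3 : ∃ t, chk3 f_A00pm_113_s3 t 63 30 1 = true := ex3_a t293_A00pm_113_s3 t287_A00pm_113_s3

theorem t295_A00pm_113_s3 : ∃ t, chk3 f_A00pm_113_s3 t 251 122 1 = true := ex3_b k202_A00pm_113_s3 k203_A00pm_113_s3

theorem t296_A00pm_113_s3 : ∃ t, chk3 f_A00pm_113_s3 t 125 122 1 = true := ex3_a k201_A00pm_113_s3 t295_A00pm_113_s3

theorem t297_A00pm_113_s3 : ∃ t, chk3 f_A00pm_113_s3 t 125 61 1 = true := ex3_b t296_A00pm_113_s3 k204_A00pm_113_s3

theorem t298_A00pm_113_s3 : ∃ t, chk3 f_A00pm_113_s3 t 62 61 1 = true := ex3_a k200_A00pm_113_s3 t297_A00pm_113_s3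

theorem t299_A00pm_113_s3 : ∃ t, chk3 f_A00pm_113_s3 t 125 121 1 = true := ex3_a k198_A00pm_113_s3 k199_A00pm_113_s3

theorem t300_A00pm_113_s3 : ∃ t, chk3 f_A00pm_113_s3 t 125 120 1 = true := ex3_c k196_A00pm_113_s3 k197_A00pm_113_s3

theorem t301_A00pm_113_s3 : ∃ t, chk3 f_A00pm_113_s3 t 125 60 1 = true := ex3_b t300_A00pm_113_s3 t299_A00pm_113_s3

theorem t302_A00pm_113_s3 : ∃ t, chk3 f_A00pm_113_s3 t 124 60 1 = true := ex3_a k194_A00pm_113_s3 k195_A00pm_113_s3

theorem t303_A00pm_113_s3 : ∃ t, chk3 f_A00pm_113_s3 t 62 60 1 = true := ex3_a t302_A00pm_113_s3 t301_A00pm_113_s3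

theorem t304_A00pm_113_s3 : ∃ t, chk3 f_A00pm_113_s3 t 62 30 1 = true := ex3_b t303_A00pm_113_s3 t298_A00pm_113_s3

theorem t305_A00pm_113_s3 : ∃ t, chk3 f_A00pm_113_s3 t 31 30 1 = true := ex3_a t304_A00pm_113_s3 t294_A00pm_113_s3

theorem t306_A00pm_113_s3 : ∃ t, chk3 f_A00pm_113_s3 t 31 15 1 = true := ex3_b t305_A00pm_113_s3 t284_A00pm_113_s3

theorem t307_A00pm_113_s3 : ∃ t, chk3 f_A00pm_113_s3 t 61 127 1 = true := ex3_b k192_A00pm_113_s3 k193_A00pm_113_s3

theorem t308_A00pm_113_s3 : ∃ t, chk3 f_A00pm_113_s3 t 60 127 1 = true := ex3_b k190_A00pm_113_s3 k191_A00pm_113_s3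

theorem t309_A00pm_113_s3 : ∃ t, chk3 f_A00pm_113_s3 t 30 127 1 = true := ex3_a t308_A00pm_113_s3 t307_A00pm_113_s3

theorem t310_A00pm_113_s3 : ∃ t, chk3 f_A00pm_113_s3 t 123 252 1 = true := ex3_c k187_A00pm_113_s3 k188_A00pm_113_s3

theorem t311_A00pm_113_s3 : ∃ t, chk3 f_A00pm_113_s3 t 123 126 1 = true := ex3_b t310_A00pm_113_s3 k189_A00pm_113_s3

theorem t312_A00pm_113_s3 : ∃ t, chk3 f_A00pm_113_s3 t 61 126 1 = true := ex3_a k186_A00pm_113_s3 t311_A00pm_113_s3

theorem t313_A00pm_113_s3 : ∃ t, chk3 f_A00pm_113_s3 t 121 126 1 = true := ex3_b k184_A00pm_113_s3 k185_A00pm_113_s3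

theorem t314_A00pm_113_s3 : ∃ t, chk3 f_A00pm_113_s3 t 60 126 1 = true := ex3_a k183_A00pm_113_s3 t313_A00pm_113_s3

theorem t315_A00pm_113_s3 : ∃ t, chk3 f_A00pm_113_s3 t 30 126 1 = true := ex3_a t314_A00pm_113_s3 t312_A00pm_113_s3

theorem t316_A00pm_113_s3 : ∃ t, chk3 f_A00pm_113_s3 t 30 63 1 = true := ex3_b t315_A00pm_113_s3 t309_A00pm_113_s3

theorem t317_A00pm_113_s3 : ∃ t, chk3 f_A00pm_113_s3 t 122 251 1 = true := ex3_a k180_A00pm_113_s3 k181_A00pm_113_s3

theorem t318_A00pm_113_s3 : ∃ t, chk3 f_A00pm_113_s3 t 122 125 1 = true := ex3_b k179_A00pm_113_s3 t317_A00pm_113_s3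

theorem t319_A00pm_113_s3 : ∃ t, chk3 f_A00pm_113_s3 t 61 125 1 = true := ex3_a t318_A00pm_113_s3 k182_A00pm_113_s3

theorem t320_A00pm_113_s3 : ∃ t, chk3 f_A00pm_113_s3 t 61 62 1 = true := ex3_b k178_A00pm_113_s3 t319_A00pm_113_s3

theorem t321_A00pm_113_s3 : ∃ t, chk3 f_A00pm_113_s3 t 121 125 1 = true := ex3_b k176_A00pm_113_s3 k177_A00pm_113_s3

theorem t322_A00pm_113_s3 : ∃ t, chk3 f_A00pm_113_s3 t 120 125 1 = true := ex3_c k174_A00pm_113_s3 k175_A00pm_113_s3

theorem t323_A00pm_113_s3 : ∃ t, chk3 f_A00pm_113_s3 t 60 125 1 = true := ex3_a t322_A00pm_113_s3 t321_A00pm_113_s3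

theorem t324_A00pm_113_s3 : ∃ t, chk3 f_A00pm_113_s3 t 60 124 1 = true := ex3_a k172_A00pm_113_s3 k173_A00pm_113_s3

theorem t325_A00pm_113_s3 : ∃ t, chk3 f_A00pm_113_s3 t 60 62 1 = true := ex3_b t324_A00pm_113_s3 t323_A00pm_113_s3

theorem t326_A00pm_113_s3 : ∃ t, chk3 f_A00pm_113_s3 t 30 62 1 = true := ex3_a t325_A00pm_113_s3 t320_A00pm_113_s3

theorem t327_A00pm_113_s3 : ∃ t, chk3 f_A00pm_113_s3 t 30 31 1 = true := ex3_b t326_A00pm_113_s3 t316_A00pm_113_s3

theorem t328_A00pm_113_s3 : ∃ t, chk3 f_A00pm_113_s3 t 30 15 1 = true := ex3_b k171_A00pm_113_s3 t327_A00pm_113_s3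

theorem t329_A00pm_113_s3 : ∃ t, chk3 f_A00pm_113_s3 t 15 15 1 = true := ex3_a t328_A00pm_113_s3 t306_A00pm_113_s3

theorem t330_A00pm_113_s3 : ∃ t, chk3 f_A00pm_113_s3 t 511 118 1 = true := ex3_a k168_A00pm_113_s3 k169_A00pm_113_s3

theorem t331_A00pm_113_s3 : ∃ t, chk3 f_A00pm_113_s3 t 510 236 1 = true := ex3_c k165_A00pm_113_s3 k166_A00pm_113_s3

theorem t332_A00pm_113_s3 : ∃ t, chk3 f_A00pm_113_s3 t 510 118 1 = true := ex3_b t331_A00pm_113_s3 k167_A00pm_113_s3

theorem t333_A00pm_113_s3 : ∃ t, chk3 f_A00pm_113_s3 t 255 118 1 = true := ex3_a t332_A00pm_113_s3 t330_A00pm_113_s3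

theorem t334_A00pm_113_s3 : ∃ t, chk3 f_A00pm_113_s3 t 254 118 1 = true := ex3_c k163_A00pm_113_s3 k164_A00pm_113_s3

theorem t335_A00pm_113_s3 : ∃ t, chk3 f_A00pm_113_s3 t 127 118 1 = true := ex3_a t334_A00pm_113_s3 t333_A00pm_113_s3

theorem t336_A00pm_113_s3 : ∃ t, chk3 f_A00pm_113_s3 t 127 59 1 = true := ex3_b t335_A00pm_113_s3 k170_A00pm_113_s3

theorem t337_A00pm_113_s3 : ∃ t, chk3 f_A00pm_113_s3 t 126 119 1 = true := ex3_c k161_A00pm_113_s3 k162_A00pm_113_s3

theorem t338_A00pm_113_s3 : ∃ t, chk3 f_A00pm_113_s3 t 126 59 1 = true := ex3_b k160_A00pm_113_s3 t337_A00pm_113_s3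

theorem t339_A00pm_113_s3 : ∃ t, chk3 f_A00pm_113_s3 t 63 59 1 = true := ex3_a t338_A00pm_113_s3 t336_A00pm_113_s3

theorem t340_A00pm_113_s3 : ∃ t, chk3 f_A00pm_113_s3 t 4095 942 7 = true := ex3_a k157_A00pm_113_s3 k158_A00pm_113_s3

theorem t341_A00pm_113_s3 : ∃ t, chk3 f_A00pm_113_s3 t 2047 942 7 = true := ex3_a k156_A00pm_113_s3 t340_A00pm_113_s3

theorem t342_A00pm_113_s3 : ∃ t, chk3 f_A00pm_113_s3 t 1023 942 7 = true := ex3_a k155_A00pm_113_s3 t341_A00pm_113_s3

theorem t343_A00pm_113_s3 : ∃ t, chk3 f_A00pm_113_s3 t 1023 471 7 = true := ex3_b t342_A00pm_113_s3 k159_A00pm_113_s3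

theorem t344_A00pm_113_s3 : ∃ t, chk3 f_A00pm_113_s3 t 1023 942 6 = true := ex3_a k152_A00pm_113_s3 k153_A00pm_113_s3

theorem t345_A00pm_113_s3 : ∃ t, chk3 f_A00pm_113_s3 t 1023 471 6 = true := ex3_b t344_A00pm_113_s3 k154_A00pm_113_s3

theorem t346_A00pm_113_s3 : ∃ t, chk3 f_A00pm_113_s3 t 1023 471 3 = true := ex3_c t345_A00pm_113_s3 t343_A00pm_113_s3

theorem t347_A00pm_113_s3 : ∃ t, chk3 f_A00pm_113_s3 t 1023 470 3 = true := ex3_c k150_A00pm_113_s3 k151_A00pm_113_s3

theorem t348_A00pm_113_s3 : ∃ t, chk3 f_A00pm_113_s3 t 1023 235 3 = true := ex3_b t347_A00pm_113_s3 t346_A00pm_113_s3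

theorem t349_A00pm_113_s3 : ∃ t, chk3 f_A00pm_113_s3 t 1023 234 7 = true := ex3_b k148_A00pm_113_s3 k149_A00pm_113_s3

theorem t350_A00pm_113_s3 : ∃ t, chk3 f_A00pm_113_s3 t 1023 234 3 = true := ex3_c k147_A00pm_113_s3 t349_A00pm_113_s3

theorem t351_A00pm_113_s3 : ∃ t, chk3 f_A00pm_113_s3 t 1023 117 3 = true := ex3_b t350_A00pm_113_s3 t348_A00pm_113_s3

theorem t352_A00pm_113_s3 : ∃ t, chk3 f_A00pm_113_s3 t 1023 471 2 = true := ex3_c k145_A00pm_113_s3 k146_A00pm_113_s3

theorem t353_A00pm_113_s3 : ∃ t, chk3 f_A00pm_113_s3 t 1023 235 2 = true := ex3_b k144_A00pm_113_s3 t352_A00pm_113_s3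

theorem t354_A00pm_113_s3 : ∃ t, chk3 f_A00pm_113_s3 t 1023 117 2 = true := ex3_b k143_A00pm_113_s3 t353_A00pm_113_s3

theorem t355_A00pm_113_s3 : ∃ t, chk3 f_A00pm_113_s3 t 1023 117 1 = true := ex3_c t354_A00pm_113_s3 t351_A00pm_113_s3

theorem t356_A00pm_113_s3 : ∃ t, chk3 f_A00pm_113_s3 t 1022 235 3 = true := ex3_c k141_A00pm_113_s3 k142_A00pm_113_s3

theorem t357_A00pm_113_s3 : ∃ t, chk3 f_A00pm_113_s3 t 1022 117 3 = true := ex3_b k140_A00pm_113_s3 t356_A00pm_113_s3

theorem t358_A00pm_113_s3 : ∃ t, chk3 f_A00pm_113_s3 t 1022 117 1 = true := ex3_c k139_A00pm_113_s3 t357_A00pm_113_s3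

theorem t359_A00pm_113_s3 : ∃ t, chk3 f_A00pm_113_s3 t 511 117 1 = true := ex3_a t358_A00pm_113_s3 t355_A00pm_113_s3

theorem t360_A00pm_113_s3 : ∃ t, chk3 f_A00pm_113_s3 t 510 117 1 = true := ex3_c k137_A00pm_113_s3 k138_A00pm_113_s3

theorem t361_A00pm_113_s3 : ∃ t, chk3 f_A00pm_113_s3 t 255 117 1 = true := ex3_a t360_A00pm_113_s3 t359_A00pm_113_s3

theorem t362_A00pm_113_s3 : ∃ t, chk3 f_A00pm_113_s3 t 511 116 7 = true := ex3_a k135_A00pm_113_s3 k136_A00pm_113_s3

theorem t363_A00pm_113_s3 : ∃ t, chk3 f_A00pm_113_s3 t 1023 233 6 = true := ex3_a k133_A00pm_113_s3 k134_A00pm_113_s3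

theorem t364_A00pm_113_s3 : ∃ t, chk3 f_A00pm_113_s3 t 511 233 6 = true := ex3_a k132_A00pm_113_s3 t363_A00pm_113_s3

theorem t365_A00pm_113_s3 : ∃ t, chk3 f_A00pm_113_s3 t 2047 232 6 = true := ex3_b k130_A00pm_113_s3 k131_A00pm_113_s3

theorem t366_A00pm_113_s3 : ∃ t, chk3 f_A00pm_113_s3 t 1023 232 6 = true := ex3_a k129_A00pm_113_s3 t365_A00pm_113_s3

theorem t367_A00pm_113_s3 : ∃ t, chk3 f_A00pm_113_s3 t 511 232 6 = true := ex3_a k128_A00pm_113_s3 t366_A00pm_113_s3

theorem t368_A00pm_113_s3 : ∃ t, chk3 f_A00pm_113_s3 t 511 116 6 = true := ex3_b t367_A00pm_113_s3 t364_A00pm_113_s3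

theorem t369_A00pm_113_s3 : ∃ t, chk3 f_A00pm_113_s3 t 511 116 3 = true := ex3_c t368_A00pm_113_s3 t362_A00pm_113_s3

theorem t370_A00pm_113_s3 : ∃ t, chk3 f_A00pm_113_s3 t 511 116 5 = true := ex3_b k126_A00pm_113_s3 k127_A00pm_113_s3

theorem t371_A00pm_113_s3 : ∃ t, chk3 f_A00pm_113_s3 t 511 116 2 = true := ex3_c k125_A00pm_113_s3 t370_A00pm_113_s3

theorem t372_A00pm_113_s3 : ∃ t, chk3 f_A00pm_113_s3 t 511 116 1 = true := ex3_c t371_A00pm_113_s3 t369_A00pm_113_s3

theorem t373_A00pm_113_s3 : ∃ t, chk3 f_A00pm_113_s3 t 255 116 1 = true := ex3_a k124_A00pm_113_s3 t372_A00pm_113_s3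

theorem t374_A00pm_113_s3 : ∃ t, chk3 f_A00pm_113_s3 t 255 58 1 = true := ex3_b t373_A00pm_113_s3 t361_A00pm_113_s3

theorem t375_A00pm_113_s3 : ∃ t, chk3 f_A00pm_113_s3 t 254 58 1 = true := ex3_b k122_A00pm_113_s3 k123_A00pm_113_s3

theorem t376_A00pm_113_s3 : ∃ t, chk3 f_A00pm_113_s3 t 127 58 1 = true := ex3_a t375_A00pm_113_s3 t374_A00pm_113_s3

theorem t377_A00pm_113_s3 : ∃ t, chk3 f_A00pm_113_s3 t 63 58 1 = true := ex3_a k121_A00pm_113_s3 t376_A00pm_113_s3

theorem t378_A00pm_113_s3 : ∃ t, chk3 f_A00pm_113_s3 t 63 29 1 = true := ex3_b t377_A00pm_113_s3 t339_A00pm_113_s3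

theorem t379_A00pm_113_s3 : ∃ t, chk3 f_A00pm_113_s3 t 125 29 1 = true := ex3_b k119_A00pm_113_s3 k120_A00pm_113_s3

theorem t380_A00pm_113_s3 : ∃ t, chk3 f_A00pm_113_s3 t 62 29 1 = true := ex3_a k118_A00pm_113_s3 t379_A00pm_113_s3

theorem t381_A00pm_113_s3 : ∃ t, chk3 f_A00pm_113_s3 t 31 29 1 = true := ex3_a t380_A00pm_113_s3 t378_A00pm_113_s3

theorem t382_A00pm_113_s3 : ∃ t, chk3 f_A00pm_113_s3 t 1023 115 6 = true := ex3_b k115_A00pm_113_s3 k116_A00pm_113_s3

theorem t383_A00pm_113_s3 : ∃ t, chk3 f_A00pm_113_s3 t 1023 115 3 = true := ex3_c t382_A00pm_113_s3 k117_A00pm_113_s3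

theorem t384_A00pm_113_s3 : ∃ t, chk3 f_A00pm_113_s3 t 511 115 3 = true := ex3_a k114_A00pm_113_s3 t383_A00pm_113_s3

theorem t385_A00pm_113_s3 : ∃ t, chk3 f_A00pm_113_s3 t 255 115 3 = true := ex3_a k113_A00pm_113_s3 t384_A00pm_113_s3

theorem t386_A00pm_113_s3 : ∃ t, chk3 f_A00pm_113_s3 t 255 57 3 = true := ex3_b k112_A00pm_113_s3 t385_A00pm_113_s3

theorem t387_A00pm_113_s3 : ∃ t, chk3 f_A00pm_113_s3 t 1023 115 5 = true := ex3_b k110_A00pm_113_s3 k111_A00pm_113_s3

theorem t388_A00pm_113_s3 : ∃ t, chk3 f_A00pm_113_s3 t 511 115 5 = true := ex3_a k109_A00pm_113_s3 t387_A00pm_113_s3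

theorem t389_A00pm_113_s3 : ∃ t, chk3 f_A00pm_113_s3 t 511 115 4 = true := ex3_b k107_A00pm_113_s3 k108_A00pm_113_s3

theorem t390_A00pm_113_s3 : ∃ t, chk3 f_A00pm_113_s3 t 511 115 2 = true := ex3_c t389_A00pm_113_s3 t388_A00pm_113_s3

theorem t391_A00pm_113_s3 : ∃ t, chk3 f_A00pm_113_s3 t 1023 114 5 = true := ex3_b k105_A00pm_113_s3 k106_A00pm_113_s3

theorem t392_A00pm_113_s3 : ∃ t, chk3 f_A00pm_113_s3 t 511 114 5 = true := ex3_a k104_A00pm_113_s3 t391_A00pm_113_s3

theorem t393_A00pm_113_s3 : ∃ t, chk3 f_A00pm_113_s3 t 1023 114 4 = true := ex3_b k102_A00pm_113_s3 k103_A00pm_113_s3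

theorem t394_A00pm_113_s3 : ∃ t, chk3 f_A00pm_113_s3 t 511 114 4 = true := ex3_a k101_A00pm_113_s3 t393_A00pm_113_s3

theorem t395_A00pm_113_s3 : ∃ t, chk3 f_A00pm_113_s3 t 511 114 2 = true := ex3_c t394_A00pm_113_s3 t392_A00pm_113_s3

theorem t396_A00pm_113_s3 : ∃ t, chk3 f_A00pm_113_s3 t 511 57 2 = true := ex3_b t395_A00pm_113_s3 t390_A00pm_113_s3

theorem t397_A00pm_113_s3 : ∃ t, chk3 f_A00pm_113_s3 t 255 57 2 = true := ex3_a k100_A00pm_113_s3 t396_A00pm_113_s3

theorem t398_A00pm_113_s3 : ∃ t, chk3 f_A00pm_113_s3 t 255 57 1 = true := ex3_c t397_A00pm_113_s3 t386_A00pm_113_s3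

theorem t399_A00pm_113_s3 : ∃ t, chk3 f_A00pm_113_s3 t 127 57 1 = true := ex3_a k99_A00pm_113_s3 t398_A00pm_113_s3

theorem t400_A00pm_113_s3 : ∃ t, chk3 f_A00pm_113_s3 t 1023 113 4 = true := ex3_b k95_A00pm_113_s3 k96_A00pm_113_s3

theorem t401_A00pm_113_s3 : ∃ t, chk3 f_A00pm_113_s3 t 511 113 4 = true := ex3_a k94_A00pm_113_s3 t400_A00pm_113_s3

theorem t402_A00pm_113_s3 : ∃ t, chk3 f_A00pm_113_s3 t 511 113 2 = true := ex3_c t401_A00pm_113_s3 k97_A00pm_113_s3

theorem t403_A00pm_113_s3 : ∃ t, chk3 f_A00pm_113_s3 t 511 56 2 = true := ex3_b k93_A00pm_113_s3 t402_A00pm_113_s3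

theorem t404_A00pm_113_s3 : ∃ t, chk3 f_A00pm_113_s3 t 255 56 2 = true := ex3_a k92_A00pm_113_s3 t403_A00pm_113_s3

theorem t405_A00pm_113_s3 : ∃ t, chk3 f_A00pm_113_s3 t 255 56 1 = true := ex3_c t404_A00pm_113_s3 k98_A00pm_113_s3

theorem t406_A00pm_113_s3 : ∃ t, chk3 f_A00pm_113_s3 t 127 56 1 = true := ex3_a k91_A00pm_113_s3 t405_A00pm_113_s3

theorem t407_A00pm_113_s3 : ∃ t, chk3 f_A00pm_113_s3 t 127 28 1 = true := ex3_b t406_A00pm_113_s3 t399_A00pm_113_s3

theorem t408_A00pm_113_s3 : ∃ t, chk3 f_A00pm_113_s3 t 63 28 1 = true := ex3_a k90_A00pm_113_s3 t407_A00pm_113_s3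

theorem t409_A00pm_113_s3 : ∃ t, chk3 f_A00pm_113_s3 t 31 28 1 = true := ex3_a k89_A00pm_113_s3 t408_A00pm_113_s3

theorem t410_A00pm_113_s3 : ∃ t, chk3 f_A00pm_113_s3 t 31 14 1 = true := ex3_b t409_A00pm_113_s3 t381_A00pm_113_s3

theorem t411_A00pm_113_s3 : ∃ t, chk3 f_A00pm_113_s3 t 15 14 1 = true := ex3_a k88_A00pm_113_s3 t410_A00pm_113_s3

theorem t412_A00pm_113_s3 : ∃ t, chk3 f_A00pm_113_s3 t 15 7 1 = true := ex3_b t411_A00pm_113_s3 t329_A00pm_113_s3

theorem t413_A00pm_113_s3 : ∃ t, chk3 f_A00pm_113_s3 t 118 511 1 = true := ex3_b k85_A00pm_113_s3 k86_A00pm_113_s3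

theorem t414_A00pm_113_s3 : ∃ t, chk3 f_A00pm_113_s3 t 236 510 1 = true := ex3_c k82_A00pm_113_s3 k83_A00pm_113_s3

theorem t415_A00pm_113_s3 : ∃ t, chk3 f_A00pm_113_s3 t 118 510 1 = true := ex3_a t414_A00pm_113_s3 k84_A00pm_113_s3

theorem t416_A00pm_113_s3 : ∃ t, chk3 f_A00pm_113_s3 t 118 255 1 = true := ex3_b t415_A00pm_113_s3 t413_A00pm_113_s3

theorem t417_A00pm_113_s3 : ∃ t, chk3 f_A00pm_113_s3 t 118 254 1 = true := ex3_c k80_A00pm_113_s3 k81_A00pm_113_s3

theorem t418_A00pm_113_s3 : ∃ t, chk3 f_A00pm_113_s3 t 118 127 1 = true := ex3_b t417_A00pm_113_s3 t416_A00pm_113_s3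

theorem t419_A00pm_113_s3 : ∃ t, chk3 f_A00pm_113_s3 t 59 127 1 = true := ex3_a t418_A00pm_113_s3 k87_A00pm_113_s3

theorem t420_A00pm_113_s3 : ∃ t, chk3 f_A00pm_113_s3 t 119 126 1 = true := ex3_c k78_A00pm_113_s3 k79_A00pm_113_s3

theorem t421_A00pm_113_s3 : ∃ t, chk3 f_A00pm_113_s3 t 59 126 1 = true := ex3_a k77_A00pm_113_s3 t420_A00pm_113_s3

theorem t422_A00pm_113_s3 : ∃ t, chk3 f_A00pm_113_s3 t 59 63 1 = true := ex3_b t421_A00pm_113_s3 t419_A00pm_113_s3

theorem t423_A00pm_113_s3 : ∃ t, chk3 f_A00pm_113_s3 t 942 4095 7 = true := ex3_b k74_A00pm_113_s3 k75_A00pm_113_s3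

theorem t424_A00pm_113_s3 : ∃ t, chk3 f_A00pm_113_s3 t 942 2047 7 = true := ex3_b k73_A00pm_113_s3 t423_A00pm_113_s3

theorem t425_A00pm_113_s3 : ∃ t, chk3 f_A00pm_113_s3 t 942 1023 7 = true := ex3_b k72_A00pm_113_s3 t424_A00pm_113_s3

theorem t426_A00pm_113_s3 : ∃ t, chk3 f_A00pm_113_s3 t 471 1023 7 = true := ex3_a t425_A00pm_113_s3 k76_A00pm_113_s3

theorem t427_A00pm_113_s3 : ∃ t, chk3 f_A00pm_113_s3 t 942 1023 6 = true := ex3_b k69_A00pm_113_s3 k70_A00pm_113_s3

theorem t428_A00pm_113_s3 : ∃ t, chk3 f_A00pm_113_s3 t 471 1023 6 = true := ex3_a t427_A00pm_113_s3 k71_A00pm_113_s3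

theorem t429_A00pm_113_s3 : ∃ t, chk3 f_A00pm_113_s3 t 471 1023 3 = true := ex3_c t428_A00pm_113_s3 t426_A00pm_113_s3

theorem t430_A00pm_113_s3 : ∃ t, chk3 f_A00pm_113_s3 t 470 1023 3 = true := ex3_c k67_A00pm_113_s3 k68_A00pm_113_s3

theorem t431_A00pm_113_s3 : ∃ t, chk3 f_A00pm_113_s3 t 235 1023 3 = true := ex3_a t430_A00pm_113_s3 t429_A00pm_113_s3

theorem t432_A00pm_113_s3 : ∃ t, chk3 f_A00pm_113_s3 t 234 1023 7 = true := ex3_a k65_A00pm_113_s3 k66_A00pm_113_s3

theorem t433_A00pm_113_s3 : ∃ t, chk3 f_A00pm_113_s3 t 234 1023 3 = true := ex3_c k64_A00pm_113_s3 t432_A00pm_113_s3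

theorem t434_A00pm_113_s3 : ∃ t, chk3 f_A00pm_113_s3 t 117 1023 3 = true := ex3_a t433_A00pm_113_s3 t431_A00pm_113_s3

theorem t435_A00pm_113_s3 : ∃ t, chk3 f_A00pm_113_s3 t 471 1023 2 = true := ex3_c k62_A00pm_113_s3 k63_A00pm_113_s3

theorem t436_A00pm_113_s3 : ∃ t, chk3 f_A00pm_113_s3 t 235 1023 2 = true := ex3_a k61_A00pm_113_s3 t435_A00pm_113_s3

theorem t437_A00pm_113_s3 : ∃ t, chk3 f_A00pm_113_s3 t 117 1023 2 = true := ex3_a k60_A00pm_113_s3 t436_A00pm_113_s3

theorem t438_A00pm_113_s3 : ∃ t, chk3 f_A00pm_113_s3 t 117 1023 1 = true := ex3_c t437_A00pm_113_s3 t434_A00pm_113_s3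

theorem t439_A00pm_113_s3 : ∃ t, chk3 f_A00pm_113_s3 t 235 1022 3 = true := ex3_c k58_A00pm_113_s3 k59_A00pm_113_s3

theorem t440_A00pm_113_s3 : ∃ t, chk3 f_A00pm_113_s3 t 117 1022 3 = true := ex3_a k57_A00pm_113_s3 t439_A00pm_113_s3

theorem t441_A00pm_113_s3 : ∃ t, chk3 f_A00pm_113_s3 t 117 1022 1 = true := ex3_c k56_A00pm_113_s3 t440_A00pm_113_s3

theorem t442_A00pm_113_s3 : ∃ t, chk3 f_A00pm_113_s3 t 117 511 1 = true := ex3_b t441_A00pm_113_s3 t438_A00pm_113_s3

theorem t443_A00pm_113_s3 : ∃ t, chk3 f_A00pm_113_s3 t 117 510 1 = true := ex3_c k54_A00pm_113_s3 k55_A00pm_113_s3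

theorem t444_A00pm_113_s3 : ∃ t, chk3 f_A00pm_113_s3 t 117 255 1 = true := ex3_b t443_A00pm_113_s3 t442_A00pm_113_s3

theorem t445_A00pm_113_s3 : ∃ t, chk3 f_A00pm_113_s3 t 116 511 7 = true := ex3_b k52_A00pm_113_s3 k53_A00pm_113_s3

theorem t446_A00pm_113_s3 : ∃ t, chk3 f_A00pm_113_s3 t 233 1023 6 = true := ex3_b k50_A00pm_113_s3 k51_A00pm_113_s3

theorem t447_A00pm_113_s3 : ∃ t, chk3 f_A00pm_113_s3 t 233 511 6 = true := ex3_b k49_A00pm_113_s3 t446_A00pm_113_s3

theorem t448_A00pm_113_s3 : ∃ t, chk3 f_A00pm_113_s3 t 232 2047 6 = true := ex3_a k47_A00pm_113_s3 k48_A00pm_113_s3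

theorem t449_A00pm_113_s3 : ∃ t, chk3 f_A00pm_113_s3 t 232 1023 6 = true := ex3_b k46_A00pm_113_s3 t448_A00pm_113_s3

theorem t450_A00pm_113_s3 : ∃ t, chk3 f_A00pm_113_s3 t 232 511 6 = true := ex3_b k45_A00pm_113_s3 t449_A00pm_113_s3

theorem t451_A00pm_113_s3 : ∃ t, chk3 f_A00pm_113_s3 t 116 511 6 = true := ex3_a t450_A00pm_113_s3 t447_A00pm_113_s3

theorem t452_A00pm_113_s3 : ∃ t, chk3 f_A00pm_113_s3 t 116 511 3 = true := ex3_c t451_A00pm_113_s3 t445_A00pm_113_s3

theorem t453_A00pm_113_s3 : ∃ t, chk3 f_A00pm_113_s3 t 116 511 5 = true := ex3_a k43_A00pm_113_s3 k44_A00pm_113_s3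

theorem t454_A00pm_113_s3 : ∃ t, chk3 f_A00pm_113_s3 t 116 511 2 = true := ex3_c k42_A00pm_113_s3 t453_A00pm_113_s3

theorem t455_A00pm_113_s3 : ∃ t, chk3 f_A00pm_113_s3 t 116 511 1 = true := ex3_c t454_A00pm_113_s3 t452_A00pm_113_s3

theorem t456_A00pm_113_s3 : ∃ t, chk3 f_A00pm_113_s3 t 116 255 1 = true := ex3_b k41_A00pm_113_s3 t455_A00pm_113_s3

theorem t457_A00pm_113_s3 : ∃ t, chk3 f_A00pm_113_s3 t 58 255 1 = true := ex3_a t456_A00pm_113_s3 t444_A00pm_113_s3

theorem t458_A00pm_113_s3 : ∃ t, chk3 f_A00pm_113_s3 t 58 254 1 = true := ex3_a k39_A00pm_113_s3 k40_A00pm_113_s3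

theorem t459_A00pm_113_s3 : ∃ t, chk3 f_A00pm_113_s3 t 58 127 1 = true := ex3_b t458_A00pm_113_s3 t457_A00pm_113_s3

theorem t460_A00pm_113_s3 : ∃ t, chk3 f_A00pm_113_s3 t 58 63 1 = true := ex3_b k38_A00pm_113_s3 t459_A00pm_113_s3

theorem t461_A00pm_113_s3 : ∃ t, chk3 f_A00pm_113_s3 t 29 63 1 = true := ex3_a t460_A00pm_113_s3 t422_A00pm_113_s3

theorem t462_A00pm_113_s3 : ∃ t, chk3 f_A00pm_113_s3 t 29 125 1 = true := ex3_a k36_A00pm_113_s3 k37_A00pm_113_s3

theorem t463_A00pm_113_s3 : ∃ t, chk3 f_A00pm_113_s3 t 29 62 1 = true := ex3_b k35_A00pm_113_s3 t462_A00pm_113_s3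

theorem t464_A00pm_113_s3 : ∃ t, chk3 f_A00pm_113_s3 t 29 31 1 = true := ex3_b t463_A00pm_113_s3 t461_A00pm_113_s3

theorem t465_A00pm_113_s3 : ∃ t, chk3 f_A00pm_113_s3 t 115 1023 6 = true := ex3_a k32_A00pm_113_s3 k33_A00pm_113_s3

theorem t466_A00pm_113_s3 : ∃ t, chk3 f_A00pm_113_s3 t 115 1023 3 = true := ex3_c t465_A00pm_113_s3 k34_A00pm_113_s3

theorem t467_A00pm_113_s3 : ∃ t, chk3 f_A00pm_113_s3 t 115 511 3 = true := ex3_b k31_A00pm_113_s3 t466_A00pm_113_s3

theorem t468_A00pm_113_s3 : ∃ t, chk3 f_A00pm_113_s3 t 115 255 3 = true := ex3_b k30_A00pm_113_s3 t467_A00pm_113_s3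

theorem t469_A00pm_113_s3 : ∃ t, chk3 f_A00pm_113_s3 t 57 255 3 = true := ex3_a k29_A00pm_113_s3 t468_A00pm_113_s3

theorem t470_A00pm_113_s3 : ∃ t, chk3 f_A00pm_113_s3 t 115 1023 5 = true := ex3_a k27_A00pm_113_s3 k28_A00pm_113_s3

theorem t471_A00pm_113_s3 : ∃ t, chk3 f_A00pm_113_s3 t 115 511 5 = true := ex3_b k26_A00pm_113_s3 t470_A00pm_113_s3

theorem t472_A00pm_113_s3 : ∃ t, chk3 f_A00pm_113_s3 t 115 511 4 = true := ex3_a k24_A00pm_113_s3 k25_A00pm_113_s3

theorem t473_A00pm_113_s3 : ∃ t, chk3 f_A00pm_113_s3 t 115 511 2 = true := ex3_c t472_A00pm_113_s3 t471_A00pm_113_s3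

theorem t474_A00pm_113_s3 : ∃ t, chk3 f_A00pm_113_s3 t 114 1023 5 = true := ex3_a k22_A00pm_113_s3 k23_A00pm_113_s3

theorem t475_A00pm_113_s3 : ∃ t, chk3 f_A00pm_113_s3 t 114 511 5 = true := ex3_b k21_A00pm_113_s3 t474_A00pm_113_s3

theorem t476_A00pm_113_s3 : ∃ t, chk3 f_A00pm_113_s3 t 114 1023 4 = true := ex3_a k19_A00pm_113_s3 k20_A00pm_113_s3

theorem t477_A00pm_113_s3 : ∃ t, chk3 f_A00pm_113_s3 t 114 511 4 = true := ex3_b k18_A00pm_113_s3 t476_A00pm_113_s3

theorem t478_A00pm_113_s3 : ∃ t, chk3 f_A00pm_113_s3 t 114 511 2 = true := ex3_c t477_A00pm_113_s3 t475_A00pm_113_s3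

theorem t479_A00pm_113_s3 : ∃ t, chk3 f_A00pm_113_s3 t 57 511 2 = true := ex3_a t478_A00pm_113_s3 t473_A00pm_113_s3

theorem t480_A00pm_113_s3 : ∃ t, chk3 f_A00pm_113_s3 t 57 255 2 = true := ex3_b k17_A00pm_113_s3 t479_A00pm_113_s3

theorem t481_A00pm_113_s3 : ∃ t, chk3 f_A00pm_113_s3 t 57 255 1 = true := ex3_c t480_A00pm_113_s3 t469_A00pm_113_s3

theorem t482_A00pm_113_s3 : ∃ t, chk3 f_A00pm_113_s3 t 57 127 1 = true := ex3_b k16_A00pm_113_s3 t481_A00pm_113_s3

theorem t483_A00pm_113_s3 : ∃ t, chk3 f_A00pm_113_s3 t 113 1023 4 = true := ex3_a k12_A00pm_113_s3 k13_A00pm_113_s3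

theorem t484_A00pm_113_s3 : ∃ t, chk3 f_A00pm_113_s3 t 113 511 4 = true := ex3_b k11_A00pm_113_s3 t483_A00pm_113_s3

theorem t485_A00pm_113_s3 : ∃ t, chk3 f_A00pm_113_s3 t 113 511 2 = true := ex3_c t484_A00pm_113_s3 k14_A00pm_113_s3

theorem t486_A00pm_113_s3 : ∃ t, chk3 f_A00pm_113_s3 t 56 511 2 = true := ex3_a k10_A00pm_113_s3 t485_A00pm_113_s3

theorem t487_A00pm_113_s3 : ∃ t, chk3 f_A00pm_113_s3 t 56 255 2 = true := ex3_b k9_A00pm_113_s3 t486_A00pm_113_s3

theorem t488_A00pm_113_s3 : ∃ t, chk3 f_A00pm_113_s3 t 56 255 1 = true := ex3_c t487_A00pm_113_s3 k15_A00pm_113_s3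

theorem t489_A00pm_113_s3 : ∃ t, chk3 f_A00pm_113_s3 t 56 127 1 = true := ex3_b k8_A00pm_113_s3 t488_A00pm_113_s3

theorem t490_A00pm_113_s3 : ∃ t, chk3 f_A00pm_113_s3 t 28 127 1 = true := ex3_a t489_A00pm_113_s3 t482_A00pm_113_s3

theorem t491_A00pm_113_s3 : ∃ t, chk3 f_A00pm_113_s3 t 28 63 1 = true := ex3_b k7_A00pm_113_s3 t490_A00pm_113_s3

theorem t492_A00pm_113_s3 : ∃ t, chk3 f_A00pm_113_s3 t 28 31 1 = true := ex3_b k6_A00pm_113_s3 t491_A00pm_113_s3

theorem t493_A00pm_113_s3 : ∃ t, chk3 f_A00pm_113_s3 t 14 31 1 = true := ex3_a t492_A00pm_113_s3 t464_A00pm_113_s3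

theorem t494_A00pm_113_s3 : ∃ t, chk3 f_A00pm_113_s3 t 14 15 1 = true := ex3_b k5_A00pm_113_s3 t493_A00pm_113_s3

theorem t495_A00pm_113_s3 : ∃ t, chk3 f_A00pm_113_s3 t 14 7 1 = true := ex3_b k4_A00pm_113_s3 t494_A00pm_113_s3

theorem t496_A00pm_113_s3 : ∃ t, chk3 f_A00pm_113_s3 t 7 7 1 = true := ex3_a t495_A00pm_113_s3 t412_A00pm_113_s3

theorem t497_A00pm_113_s3 : ∃ t, chk3 f_A00pm_113_s3 t 7 3 1 = true := ex3_b k3_A00pm_113_s3 t496_A00pm_113_s3

theorem t498_A00pm_113_s3 : ∃ t, chk3 f_A00pm_113_s3 t 3 3 1 = true := ex3_a k2_A00pm_113_s3 t497_A00pm_113_s3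

theorem t499_A00pm_113_s3 : ∃ t, chk3 f_A00pm_113_s3 t 3 1 1 = true := ex3_b k1_A00pm_113_s3 t498_A00pm_113_s3

theorem t500_A00pm_113_s3 : ∃ t, chk3 f_A00pm_113_s3 t 1 1 1 = true := ex3_a k0_A00pm_113_s3 t499_A00pm_113_s3

theorem c_A00pm_113_s3 : CertF 536870912 536870912 536870912 536870912 923417968 42949674 true true false .nn 1 1 3
    ndB0q1 ndB0q1 pcB3 cut_A00pm_113_s3 Ext.none :=
  certF0 (fam := true) (s1 := true) (s2 := false) (a := 1) (b := 1) (c := 3) (cn := .nn) (n1 := ndB0q1) (n2 := ndB0q1) (pc := pcB3) (cut := cut_A00pm_113_s3) (xt := Ext.none) (P1 := 536870912) (W1 := 536870912) (P2 := 536870912) (W2 := 536870912) (P3 := 923417968) (W3 := 42949674)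
    rfl t500_A00pm_113_s3

theorem s_A00pm_113_s3 {κ x : ℝ} (hκ : κ * h0 = ken x) (hx : ((923417968 : ℕ) : ℝ) / S ≤ x)
    (hx' : x ≤ (((923417968 : ℕ) : ℝ) + (42949674 : ℕ)) / S)
    (H : CutA (VFD κ) PP tK tL pcB (Cut.of [[⟨0, 1, 0, 67108864⟩, ⟨1, 1, 0, 67108864⟩, ⟨2, 2, 0, 16252928⟩], [⟨0, 0, 1, 20971520⟩, ⟨1, 1, 0, 8388608⟩, ⟨2, 1, 1, 20971520⟩], [⟨0, 1, 0, 8388608⟩, ⟨1, 0, 1, 20971520⟩, ⟨2, 1, 1, 20971520⟩]]) 1 1 3 0 0 (sgb true) (sgb false) x) :
    AltA (VFD κ) PP tK tL pcB [⟨4, 0, 0, 2845415833⟩] 1 1 3 0 0 (sgb true) (sgb false) x :=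
  strip_altAD (m := 2845415833) false rfl hκ (SH.κ0 hκ (SH.hx1 hx).le (SH.hx2 hx').le) (SH.hx1 hx).le (SH.hx2 hx') (covB01).cov (covB01).cov hx hx' c_A00pm_113_s3 H (noExt_A)

end Pool.Agent.Strip051.G.I8600_9000.Tab.St.C
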