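import Pool.Agent.Strip051.G.I8600_9000.StH
import Pool.Agent.Strip051.G.I8600_9000.StF

/-! # Unit strips 9 (generated) -/

set_option linter.all false
set_option maxRecDepth 100000

namespace Pool.Agent.Strip051.G.I8600_9000.Tab.St.C

open Pool.Agent.Strip051.PB Pool.Agent.Strip051.PB.T Pool.Agent.StripNear Pool.Agent.Strip051.LC
open Pool.Agent.Strip051.G.I8600_9000.Tab Pool.Agent.Strip051.G.I8600_9000.Tab.St

noncomputable def cut_A00pm_123_s3 : Cut := Cut.of [[⟨3, 0, 0, 2845415833⟩], [⟨0, 1, 0, 67108864⟩, ⟨1, 1, 0, 67108864⟩, ⟨2, 2, 0, 16252928⟩], [⟨0, 0, 1, 20971520⟩, ⟨1, 1, 0, 8388608⟩, ⟨2, 1, 1, 20971520⟩]]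

noncomputable def xt_A00pm_123_s3 : Ext := strExt dd true true false .u0 .u2 .s2 .npn 1 2 3 rfl rfl gl3 vv ndB0q1 ndB0q2

noncomputable def f_A00pm_123_s3 : ℕ → ℕ → ℕ → ℕ → Bool := onCell 1610612736 536870912 0 536870912 923417968 42949674
    (rowF 2 true true false .npn 1 2 3 (qsf 536870912 536870912 0 536870912 3) ndB0q1 ndB0q2 pcB3 cut_A00pm_123_s3 xt_A00pm_123_s3)

def k0_A00pm_123_s3 : ∃ t, chk3 f_A00pm_123_s3 t 2 1 1 = true :=
  ⟨(b (a (b (l 1) (l 6)) (b (a (c (a (b (l 534202127) (a (l 1) (l 16567536))) (b (l 534739727) (a (l 534788623) (l 534694159)))) (a (a (l 1) (b (l 533368079) (l 532621839))) (b (a (l 533471247) (l 533571599)) (b (l 533567247) (l 533034511))))) (a (b (c (l 534602511) (l 533717263)) (c (b (l 534584591) (l 534512655)) (b (l 533754383) (l 533743887)))) (b (c (l 534442255) (l 533902607)) (b (c (l 534402319) (l 533928207)) (c (l 534304527) (l 533896207)))))) (a (b (b (a (a (l 6) (c (l 16642000) (l 16471336))) (a (l 532680719) (l 532976143))) (a (l 6) (a (l 6) (b (l 16451008) (l 6)))))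 (l 6)) (a (a (b (b (l 533256463) (c (l 16625296) (l 16586200))) (l 6)) (b (b (l 533785615) (l 532600591)) (b (c (l 16599104) (l 16574440)) (l 6)))) (b (b (c (l 534128143) (l 533806607)) (a (l 532524815) (l 532642319))) (c (a (b (l 16605192) (l 16572200)) (b (l 16612568) (l 16579072))) (b (a (l 16592016) (l 16608272)) (a (l 16561624) (l 16577560))))))))) (a (l 6) (b (a (l 6) (l 6)) (l 6)))), by decide +kernel⟩

def k1_A00pm_123_s3 : ∃ t, chk3 f_A00pm_123_s3 t 6 2 1 = true :=
  ⟨(b (b (a (a (c (l 534281487) (l 534067471)) (a (l 534212623) (l 4))) (l 4)) (b (a (a (c (l 534212623) (l 534069263)) (a (l 534193167) (l 534034447))) (a (a (l 533842191) (l 4)) (l 4))) (a (a (a (l 534254607) (l 534114319)) (a (l 533948431) (l 533770767))) (a (a (l 533561871) (l 533347855)) (l 4))))) (a (b (a (a (b (l 534046479) (l 532722703)) (b (l 533873167) (l 533059599))) (b (a (l 533682447) (l 533466383)) (a (l 532843279) (c (l 533181967) (l 533129487))))) (a (c (a (b (l 16621296) (l 16587440)) (b (l 16631432) (l 16597376))) (a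 (b (l 16622792) (l 16591256)) (b (l 16634640) (l 16601040)))) (b (a (c (l 16643064) (l 16643272)) (c (l 16656560) (l 16653864))) (a (c (l 16609176) (l 16608408)) (c (l 16623080) (l 16618576)))))) (b (a (b (a (l 533241871) (l 533020687)) (a (l 532922127) (b (l 532768527) (l 532652559)))) (a (b (l 532807183) (a (l 532521487) (l 532458511))) (b (a (l 532655631) (l 4)) (a (l 532397071) (l 532368143))))) (a (b (a (c (l 16672264) (l 16667384)) (c (l 532710671) (l 532407055))) (a (c (l 16639488) (l 16632032)) (c (l 16658448) (l 16648768)))) (b (a (a (l 532431119) (l 532378127)) (a (l 532344591) (l 532331023))) (a (a (l 532333583) (l 532295695)) (a (l 532269327) (l 532254991)))))))), by decide +kernel⟩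

def k2_A00pm_123_s3 : ∃ t, chk3 f_A00pm_123_s3 t 7 2 1 = true :=
  ⟨(a (b (l 4) (a (b (a (b (l 4) (a (l 532366863) (l 532376847))) (l 4)) (b (a (c (a (l 532704015) (l 532760847)) (a (l 531970831) (l 531924495))) (a (c (b (l 532838927) (l 532831759)) (b (l 531905807) (l 531862287))) (c (b (l 532931087) (l 532929295)) (b (a (l 531880207) (l 4)) (l 531828495))))) (a (a (b (l 532277519) (l 532230671)) (b (l 532288271) (l 532245007))) (a (b (l 532313359) (c (l 532807439) (l 531747855))) (b (c (l 532926479) (l 531778831)) (c (l 532923919) (l 531722767))))))) (b (l 4) (a (b (b (l 4) (a (a (l 532420879) (l 4)) (l 4))) (c (a (b (l 533059599) (c (l 533401871) (l 532738063))) (b (a (l 533181455) (l 533275407)) (c (a (l 533564687) (l 533688079)) (a (l 532843279) (b (l 532921103) (l 532932879)))))) (a (b (a (l 531763727) (l 531756815)) (b (l 531723791) (a (l 531701263) (l 531700751)))) (b (b (l 4) (a (l 531743247) (a (l 531743759) (l 4)))) (a (b (l 531723535) (c (l 532091407) (l 531311119))) (c (b (a (l 532124175) (c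 (l 532352015) (l 531947279))) (a (l 532117519) (l 532146191))) (b (a (b (l 531328015) (l 531314703)) (b (l 531332367) (c (l 531530511) (a (l 531103247) (l 531113999))))) (a (l 531296783) (c (l 531517199) (l 531088399)))))))))) (a (b (l 4) (b (l 4) (b (b (l 4) (b (l 4) (a (a (c (l 533401103) (l 531770639)) (l 4)) (l 4)))) (c (a (l 533450767) (c (l 534010383) (l 533174031))) (a (c (l 532210703) (c (l 531564815) (l 531125007))) (a (b (l 4) (a (l 531830031) (l 531851279))) (l 4))))))) (l 4)))))) (l 4)), by decide +kernel⟩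

def k3_A00pm_123_s3 : ∃ t, chk3 f_A00pm_123_s3 t 12 3 1 = true :=
  ⟨(b (b (a (a (b (c (l 16551632) (l 16557888)) (l 6)) (b (c (l 16561560) (l 16564840)) (a (l 6) (c (l 16524616) (l 16524976))))) (b (c (a (l 16573616) (l 16588224)) (a (l 16571416) (l 16581384))) (a (c (b (l 16545144) (l 16524056)) (b (l 16541504) (l 16518824))) (c (b (l 16560400) (l 16540184)) (b (l 16551296) (l 16529104)))))) (a (l 6) (b (c (a (l 16487864) (l 16589568)) (a (l 16476816) (b (l 16503408) (l 16473848)))) (a (l 6) (c (l 16453752) (l 16424072)))))) (l 6)), by decide +kernel⟩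

def k4_A00pm_123_s3 : ∃ t, chk3 f_A00pm_123_s3 t 13 6 1 = true :=
  ⟨(b (a (b (a (c (l 16605584) (l 16594888)) (c (l 16625872) (l 16612112))) (c (a (l 16569208) (l 16590992)) (a (b (l 16564952) (l 16543200)) (l 16592856)))) (b (a (c (l 16648584) (l 16632496)) (c (l 16715152) (b (l 16664920) (l 16646536)))) (a (c (l 16615640) (l 16593112)) (c (l 16642432) (l 16617408))))) (a (c (a (b (b (l 16538336) (l 16515304)) (l 16477928)) (b (b (l 16562032) (l 16624544)) (a (l 16498776) (l 16513832)))) (a (b (b (l 16602536) (l 16490384)) (l 16442472)) (b (b (l 16579440) (l 16594696)) (a (l 16459168) (l 16471576))))) (b (a (b (c (l 16588568) (l 16559760)) (a (c (l 16561664) (l 16528472)) (b (l 16563688) (l 16636224)))) (a (b (l 16593832) (c (l 16592448) (l 16555256))) (c (l 16617352) (l 16581544)))) (a (a (c (l 16529888) (l 16485032)) (b (l 16618384) (l 16594048))) (a (b (c (l 16574192) (l 16529464)) (c (l 16556296) (l 16502024))) (b (b (c (l 16596464) (l 16552272)) (l 16647072)) (c (l 16576552) (l 16520216)))))))), by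 decide +kernel⟩

def k5_A00pm_123_s3 : ∃ t, chk3 f_A00pm_123_s3 t 13 14 1 = true :=
  ⟨(a (a (a (l 6) (b (b (l 16419512) (l 6)) (l 6))) (b (a (b (l 16434056) (l 16403192)) (c (l 16551184) (l 16405832))) (a (l 6) (b (c (l 16431032) (l 16351552)) (l 6))))) (a (c (b (a (b (l 16497824) (l 16476472)) (b (l 16517904) (l 16499256))) (b (a (l 16455080) (l 16481360)) (a (c (l 16460928) (l 16409432)) (b (l 16469296) (l 16546264))))) (b (a (l 16506032) (b (l 16455504) (l 16424776))) (b (a (l 16371128) (l 16392880)) (a (l 16335872) (l 16444912))))) (b (a (b (c (l 16539416) (l 16474136)) (c (l 16523840) (l 16445792))) (b (c (l 16562368) (l 16494456)) (c (l 16550272) (l 16468840)))) (a (b (c (l 16509928) (l 16416960)) (a (c (l 16490728) (l 16381736)) (c (l 16508352) (l 16396480)))) (b (c (a (l 16532912) (l 16549008)) (l 16443512)) (c (a (l 16610664) (l 16629912)) (c (l 16448480) (l 16392112)))))))), by decide +kernel⟩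

def k6_A00pm_123_s3 : ∃ t, chk3 f_A00pm_123_s3 t 26 30 1 = true :=
  ⟨(l 6), by decide +kernel⟩

def k7_A00pm_123_s3 : ∃ t, chk3 f_A00pm_123_s3 t 54 30 1 = true :=
  ⟨(a (l 6) (c (a (b (b (l 16447640) (l 6)) (l 6)) (b (b (l 16466000) (c (l 16496616) (l 16429528))) (b (c (b (l 16497720) (l 6)) (l 16425744)) (l 6)))) (b (c (b (l 16367144) (l 16355480)) (l 16301208)) (b (c (a (l 6) (l 16354768)) (l 16277040)) (l 6))))), by decide +kernel⟩

def k8_A00pm_123_s3 : ∃ t, chk3 f_A00pm_123_s3 t 55 30 2 = true :=
  ⟨(b (a (b (c (l 16527752) (l 16463224)) (c (a (l 16518784) (l 16542072)) (a (l 16449712) (l 16470976)))) (b (a (l 16610592) (c (l 16583632) (l 16514672))) (a (c (l 16566512) (l 16493352)) (c (l 16592208) (l 16516936))))) (a (b (c (a (b (l 16521608) (c (l 16543880) (l 16505176))) (b (l 16546744) (c (l 16570992) (l 16531056)))) (a (l 16531856) (b (l 16471032) (l 16471984)))) (a (c (b (b (a (l 16562240) (a (l 16530408) (l 16537248))) (l 16611960)) (c (l 16550560) (l 16509056))) (c (b (l 16467632) (l 16467944))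 (l 16427640))) (c (b (b (a (c (l 16568160) (l 16527288)) (c (l 16582720) (l 16541176))) (c (l 16577656) (l 16535728))) (c (l 16580784) (l 16537848))) (b (c (b (l 16493408) (l 16494232)) (l 16453080)) (l 16474208))))) (b (a (c (b (l 16573216) (c (l 16599584) (l 16558376))) (b (l 16495176) (l 16560336))) (c (b (l 16601104) (c (l 16629760) (l 16587240))) (a (l 16515720) (l 16613080)))) (a (c (b (b (a (c (l 16597656) (l 16555432)) (c (l 16612984) (l 16570072))) (a (c (l 16600752) (l 16557736)) (c (b (l 16615984) (l 16617448)) (l 16572936)))) (c (a (l 16604672) (l 16621200)) (l 16568440))) (b (c (b (l 16520600) (l 16522328)) (b (l 16478952) (l 16479856))) (c (l 16524432) (l 16480840)))) (b (c (b (c (a (l 16628736) (l 16644936)) (a (l 16585136) (l 16600624))) (a (b (c (b (l 16631744) (l 16632768)) (l 16587920)) (l 16653536)) (b (c (l 16669880) (l 16603840)) (c (l 16651056) (l 16605568))))) (b (c (l 16549336) (l 16506320)) (c (a (l 16544536) (l 16559872)) (a (l 16500960) (l 16515552))))) (c (a (c (l 16638232) (l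 16592632)) (c (l 16655792) (l 16609384))) (c (l 16555376) (l 16510264)))))))), by decide +kernel⟩

def k9_A00pm_123_s3 : ∃ t, chk3 f_A00pm_123_s3 t 55 30 3 = true :=
  ⟨(b (a (c (b (l 16400512) (l 16391920)) (l 16332384)) (a (c (l 16424744) (l 16358224)) (c (l 16529104) (l 16376728)))) (a (b (c (a (l 16374736) (l 16395880)) (l 16312560)) (c (a (l 16368360) (c (l 16412048) (l 16371504))) (a (l 16290744) (l 16311488)))) (b (c (a (l 16418280) (l 16442016)) (a (l 16342184) (l 16363480))) (c (a (b (c (l 16437768) (l 16396624)) (l 16416264)) (b (a (l 16436336) (l 16491552)) (l 16443416))) (a (l 16333600) (b (l 16358784) (l 16355832))))))), by decide +kernel⟩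

def k10_A00pm_123_s3 : ∃ t, chk3 f_A00pm_123_s3 t 26 31 1 = true :=
  ⟨(l 6), by decide +kernel⟩

def k11_A00pm_123_s3 : ∃ t, chk3 f_A00pm_123_s3 t 27 31 1 = true :=
  ⟨(b (c (a (l 6) (a (a (l 6) (b (c (c (b (l 16585688) (l 16591528)) (l 16585432)) (c (l 16498816) (l 16454488))) (a (l 6) (b (c (l 16583552) (l 16488872)) (c (l 16591264) (l 16493392)))))) (b (c (a (b (c (l 16619256) (l 16573384)) (c (l 16626672) (l 16579320))) (b (a (l 16664168) (l 16661176)) (c (l 16664096) (l 16615040)))) (a (c (l 16571944) (l 16484112)) (c (a (l 16554720) (l 16571872)) (l 16557648)))) (c (a (b (c (l 16635248) (l 16586352)) (c (l 16645112) (l 16594608))) (b (a (l 16639328) (l 16659152)) (c (l 16666856) (l 16634032)))) (a (c (b (l 16537744) (l 16544352)) (l 16575656)) (b (c (l 16573488) (l 16523424)) (c (l 16581936) (l 16530104)))))))) (a (l 6) (a (a (l 6) (b (c (l 16388648) (l 16302080)) (c (l 16388472) (l 16295120)))) (c (b (a (l 16415968) (c (l 16468560) (l 16421800))) (a (c (l 16442888) (l 16394288)) (c (l 16559864) (l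 16425600)))) (b (a (l 16326376) (l 16352368)) (a (l 16321888) (l 16350584))))))) (a (l 6) (b (a (l 6) (c (b (c (a (c (l 16655808) (l 16646176)) (c (l 16660728) (l 16645744))) (a (c (l 16552264) (l 16500496)) (c (l 16633792) (l 16538160)))) (c (l 22) (a (c (l 22) (l 16591920)) (l 22)))) (c (a (c (b (l 16448928) (l 16454576)) (l 16399264)) (b (c (l 16484680) (l 16431408)) (c (l 16576184) (l 16436984)))) (a (l 16321080) (c (l 16379928) (l 16326008)))))) (a (l 6) (c (l 22) (b (c (a (c (l 16503648) (l 16406360)) (c (l 22) (l 16444120))) (a (l 16323520) (l 16442016))) (c (b (a (c (l 16510064) (l 16411208)) (c (l 22) (l 16450608))) (c (l 22) (a (l 16414968) (a (l 16445104) (l 22))))) (a (l 16410800) (c (l 16393376) (l 16333760)))))))))), by decide +kernel⟩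

def k12_A00pm_123_s3 : ∃ t, chk3 f_A00pm_123_s3 t 28 6 1 = true :=
  ⟨(c (c (b (b (a (a (l 16697024) (l 16709776)) (a (l 16722416) (l 533240591))) (a (l 16677864) (b (l 16712304) (l 16701912)))) (a (b (l 16694280) (b (b (l 16636944) (a (l 16621024) (l 16641632))) (a (l 16613184) (l 16635688)))) (b (l 16729448) (b (b (l 16677432) (l 16674208)) (a (b (a (l 16654160) (l 16665752)) (l 16658400)) (b (l 16683704) (a (l 16677032) (b (l 16689384) (l 16690144))))))))) (b (b (a (a (l 16687792) (l 16700896)) (a (l 532494863) (l 532600335))) (a (l 16664248) (a (l 16686504) (l 16701552)))) (a (b (b (l 16640864) (l 16624864)) (b (b (l 16612840) (a (l 16594872) (l 16615256))) (a (l 16582960) (l 16605176)))) (a (b (l 16659152) (b (l 16639704) (b (a (l 16625176) (l 16636784)) (l 16626264)))) (b (l 16677256) (b (l 16661288) (b (b (l 16655696) (l 16653768)) (a (l 16645048) (b (l 16658432) (l 16657448)))))))))) (b (b (b (a (l 531726863) (a (l 16710392) (l 531662351))) (a (l 16714376) (a (l 16693224) (l 16728600)))) (a (b (l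 16654232) (l 16635248)) (a (l 16666928) (b (l 16690936) (l 16674024))))) (a (b (b (l 16615312) (l 16594496)) (b (a (b (l 16569368) (l 16557752)) (b (l 16587592) (b (l 16579720) (l 16574392)))) (a (l 16539840) (a (l 16555504) (l 16566392))))) (a (b (l 16630368) (b (l 16602176) (b (a (l 16582520) (b (l 16595976) (l 16591472))) (l 16578800)))) (b (l 16648312) (b (l 16623112) (a (b (l 16647144) (l 16597120)) (b (l 16617000) (b (a (l 16608392) (l 16614680)) (l 16608032)))))))))), by decide +kernel⟩

def k13_A00pm_123_s3 : ∃ t, chk3 f_A00pm_123_s3 t 58 12 1 = true :=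
  ⟨(b (a (b (c (a (l 533043727) (l 533136911)) (a (l 531662095) (l 531667215))) (c (l 533113871) (a (l 16718632) (l 531624975)))) (c (b (a (l 533241103) (c (l 533753359) (l 532955663))) (a (l 533289231) (l 533424399))) (b (a (b (l 531686671) (l 531669775)) (a (b (l 531696399) (l 531683599)) (c (l 532143375) (l 531271695)))) (a (l 531646223) (a (l 531667215) (l 531695119)))))) (a (b (c (l 16727504) (a (l 16702456) (l 16710216))) (a (l 16700224) (l 16708168))) (b (c (a (l 16737592) (l 533514255)) (a (l 16718016) (a (l 16723864) (l 16727864)))) (a (l 16716056) (c (l 16736088) (l 16711224)))))), by decide +kernel⟩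

def k14_A00pm_123_s3 : ∃ t, chk3 f_A00pm_123_s3 t 59 12 1 = true :=
  ⟨(b (a (b (c (a (c (l 533911311) (l 533078543)) (b (l 533635343) (l 533680655))) (a (b (c (l 532212239) (l 531327247)) (l 531767055)) (b (c (l 532314639) (a (l 531378703) (l 531416079))) (c (l 532325647) (l 531384591))))) (c (a (l 533583375) (l 533762575)) (a (l 531762191) (b (l 531861775) (l 531868943))))) (c (b (a (c (l 534283535) (l 533376271)) (a (b (l 4) (l 534012687)) (l 4))) (a (b (l 533926927) (l 534000655)) (b (l 534142991) (l 534231823)))) (b (a (b (c (l 532430607) (a (l 531456527) (l 4))) (c (l 532449551) (l 531470863))) (a (b (l 4) (b (l 4) (l 532056335))) (l 4))) (a (b (c (l 532473615) (l 531467791)) (l 531990287)) (b (c (l 532623631) (a (l 531547407) (l 531605007))) (c (l 532665615) (l 531585295))))))) (a (b (c (a (l 533696527) (l 533901583)) (a (l 531768079) (b (l 531880975) (l 16738624)))) (c (a (l 16743088) (l 16749752)) (a (l 16719944) (l 531919887)))) (b (c (b (a (l 534085391) (l 534333455)) (a (l 534179599) (l 534446095)))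 (b (a (l 532012303) (b (l 532153615) (l 532172047))) (a (l 532037391) (l 532199695)))) (a (c (l 534341391) (l 532081167)) (b (c (l 534571535) (l 532241423)) (c (l 16760776) (l 16742312))))))), by decide +kernel⟩

def k15_A00pm_123_s3 : ∃ t, chk3 f_A00pm_123_s3 t 29 13 1 = true :=
  ⟨(a (a (b (b (l 16691912) (l 16680576)) (c (b (l 16696000) (b (l 16693808) (c (b (l 16708888) (a (l 16703144) (l 16716696))) (b (l 16678072) (a (l 16670736) (b (l 16684448) (l 16684424))))))) (b (l 16644976) (b (l 16635168) (b (a (l 16624240) (l 16637240)) (a (c (l 16637840) (l 16604464)) (b (l 16635328) (a (l 16630672) (l 16637568))))))))) (c (b (b (l 16725496) (l 16720440)) (b (l 16718128) (b (l 16687408) (a (b (l 16713536) (l 16714576)) (b (l 16726944) (l 16728640)))))) (b (b (l 16692688) (l 16679320)) (b (b (l 16670280) (l 16664912)) (a (b (l 16653872) (b (l 16650488) (l 16648504))) (b (l 16666576) (a (l 16659752) (l 16666680)))))))) (b (a (b (a (l 16722368) (b (l 16732808) (l 16729032))) (b (l 16721208) (l 16718376))) (b (a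 (b (l 16740752) (l 16737472)) (c (l 534972175) (l 532666383))) (a (l 16733816) (b (l 16743480) (l 16742296))))) (a (b (b (l 16716312) (l 16715184)) (a (b (l 16708920) (c (l 16739688) (l 16677136))) (c (l 16743544) (l 16691688)))) (b (b (l 16737144) (l 16737744)) (a (c (l 16745576) (l 16705120)) (b (l 16745672) (l 16707216))))))), by decide +kernel⟩

def k16_A00pm_123_s3 : ∃ t, chk3 f_A00pm_123_s3 t 60 24 1 = true :=
  ⟨(a (a (b (l 4) (c (a (b (l 534321679) (l 534423055)) (b (c (l 534971663) (l 533919503)) (c (l 535099151) (l 534012687)))) (b (b (l 4) (a (c (l 532761359) (l 531670799)) (c (l 532853263) (a (l 531720975) (l 4))))) (a (c (l 532800783) (l 531684367)) (c (l 532897807) (b (l 531749647) (l 531763215))))))) (b (l 4) (b (l 4) (a (c (c (l 535257615) (a (l 534109711) (l 534176783))) (c (b (a (l 532957711) (l 4)) (l 533019151)) (b (a (l 531805711) (l 4)) (a (l 531821583) (l 531862031))))) (a (b (l 4) (a (c (l 534832143) (c (l 533088527) (l 531893263))) (l 4))) (l 4)))))) (l 4)), by decide +kernel⟩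

def k17_A00pm_123_s3 : ∃ t, chk3 f_A00pm_123_s3 t 120 25 1 = true :=
  ⟨(b (a (c (b (b (l 534042127) (a (l 534569743) (l 534718991))) (a (l 534666767) (l 534824719))) (b (b (a (l 532277775) (l 532367119)) (a (l 532301071) (c (l 532986127) (l 531795983)))) (a (l 532336399) (b (l 532421135) (l 532449295))))) (c (b (b (a (l 534804495) (c (a (l 535503887) (l 535594511)) (l 534374927))) (a (c (l 535455247) (l 534291471)) (c (a (b (l 535569167) (l 535613711)) (b (a (l 535638543) (c (l 535777295) (l 535387919))) (l 535708431))) (a (l 534403855) (b (c (l 534766607) (l 534160911)) (l 534498831)))))) (a (b (a (l 534910479) (l 534994447)) (l 535300367)) (a (b (c (l 535683087) (l 534472463)) (l 535166479)) (c (l 535754255) (l 534590223))))) (b (b (a (c (l 533058063) (l 531860239)) (c (a (l 533144591) (l 533204495)) (a (l 531925519) (b (l 531964431) (l 531976975))))) (a (c (l 533099791) (l 531880975)) (c (a (l 533189135) (b (c (l 533548559) (l 532929551)) (l 533262095))) (a (b (l 531943183) (l 531953167)) (b (a (l 531977487)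 (c (l 532316687) (l 531683343))) (l 531999759)))))) (a (b (a (l 532497423) (l 532550159)) (l 532757263)) (a (b (c (l 533234191) (l 531969551)) (l 532640271)) (c (l 533322511) (l 532028175))))))) (a (b (c (a (l 534810383) (l 534981135)) (a (l 532389903) (l 532496911))) (c (l 535066127) (l 532513551))) (c (b (a (l 535162639) (b (l 535305743) (l 535405583))) (a (l 535358991) (l 535569423))) (b (a (l 532611087) (b (l 532710159) (l 532755727))) (a (l 532699663) (l 532833551)))))), by decide +kernel⟩

def k18_A00pm_123_s3 : ∃ t, chk3 f_A00pm_123_s3 t 121 25 1 = true :=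
  ⟨(b (a (b (b (l 4) (b (a (a (c (c (c (a (l 535778063) (l 535779087)) (l 535456015)) (a (l 534522895) (l 534562319))) (c (a (l 533285903) (l 533316879)) (c (l 532353551) (l 531714319)))) (l 4)) (l 4)) (a (c (a (a (l 535173135) (l 535217679)) (l 535286031)) (a (a (l 532674831) (l 532702479)) (l 532744463))) (l 4)))) (b (a (a (c (l 535261199) (l 532716559)) (c (l 535354895) (l 532774671))) (c (a (l 535183119) (b (l 4) (l 535577103))) (a (b (l 532823823) (l 532846351)) (b (l 4) (l 533446159))))) (a (c (l 535403023) (l 532787727)) (c (a (l 535553295) (l 535657487)) (a (l 532882191) (l 532947727)))))) (b (l 4) (a (b (l 4) (c (a (b (l 535736335) (l 535793679)) (b (l 4) (l 535543311))) (a (c (l 533711887) (l 532313359)) (b (l 4) (c (l 533810959) (l 532385295)))))) (l 4)))) (a (c (b (a (l 535558927) (b (l 535716367) (l 535744527))) (a (l 535688719) (l 535690255))) (b (a (b (l 532835087) (l 532887311)) (b (l 532968719) (l 533028111))) (a (l 532975887) (l 533128207)))) (b (a (c (b (a (l 535782671) (l 535516687)) (l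 535480079)) (b (a (l 533074959) (b (l 533132559) (l 533165583))) (a (l 533140239) (l 533218063)))) (b (c (a (c (l 535584271) (l 535403791)) (b (l 4) (a (l 535781647) (l 4)))) (a (c (l 534494223) (l 532487695)) (b (l 4) (a (l 533302799) (l 4))))) (c (a (l 535752207) (b (l 535764495) (l 535746063))) (a (l 533298703) (b (l 533630223) (l 533402383)))))) (a (c (b (l 535712015) (l 535674895)) (b (l 533252111) (l 533332239))) (c (b (a (l 535715343) (l 535718415)) (l 535680015)) (b (a (l 533378575) (l 533466383)) (l 533511439))))))), by decide +kernel⟩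

def k19_A00pm_123_s3 : ∃ t, chk3 f_A00pm_123_s3 t 61 12 1 = true :=
  ⟨(b (l 4) (a (b (l 4) (a (b (a (b (l 4) (c (a (b (c (l 535699983) (l 535729167)) (l 535749903)) (b (l 4) (c (l 535686415) (l 535823887)))) (a (b (c (l 534213135) (l 532675087)) (l 533757967)) (b (l 4) (c (l 534366479) (l 532787727)))))) (l 4)) (a (c (a (b (l 535721999) (l 535684623)) (b (c (l 535658255) (l 535796495)) (l 535688463))) (b (a (l 533557007) (b (l 534432015) (l 533675791))) (a (l 533654031) (l 533753103)))) (b (a (c (a (b (l 535470351) (l 535719951)) (b (l 4) (l 535722511))) (b (c (l 534530575) (l 532909327)) (l 534579471))) (a (a (b (l 4) (c (l 535724303) (l 533837327))) (l 4)) (l 4))) (c (a (b (l 535702287) (l 535683087)) (b (c (l 535641103) (l 535776015)) (l 535688207))) (a (l 534392335) (b (l 535005967) (l 533990927))))))) (b (l 4) (a (b (l 4) (a (b (l 4) (c (c (l 535628303) (l 535761423)) (c (l 534965775) (l 533233167)))) (l 4))) (l 4))))) (l 4))), by decide +kernel⟩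

def k20_A00pm_123_s3 : ∃ t, chk3 f_A00pm_123_s3 t 60 13 1 = true :=
  ⟨(b (a (c (b (a (b (l 535264015) (l 16765120)) (b (l 535350031) (l 535542543))) (a (l 16751504) (b (l 16765176) (l 16762680)))) (b (a (b (l 532602383) (l 16740736)) (b (l 533149199) (l 533021199))) (a (l 16735200) (b (l 16745736) (l 16743240))))) (b (a (b (a (l 534601999) (c (l 535615759) (l 533284879))) (a (l 534839311) (l 535076623))) (b (a (c (l 535618575) (l 533466127)) (c (b (l 535641871) (l 535603471)) (l 534197263))) (a (c (l 535540751) (l 533673487)) (c (l 535544591) (l 533890319))))) (a (b (a (l 535115279) (l 535378191)) (c (l 16754352) (l 16752064))) (b (a (l 535616015) (c (l 535463439) (l 534160655))) (a (l 535533583) (l 535532047)))))) (a (b (a (b (l 16751720) (l 16753664)) (b (l 16760632) (l 16759192))) (c (l 16730304) (b (l 16736736) (l 16739104)))) (b (a (b (l 534920207) (l 535369999)) (b (c (l 535293967) (l 16759920)) (c (l 16762040) (l 16761256)))) (a (b (l 16758512) (l 16755576)) (c (l 16747328) (l 16761240)))))), by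 decide +kernel⟩

def k21_A00pm_123_s3 : ∃ t, chk3 f_A00pm_123_s3 t 122 26 1 = true :=
  ⟨(b (a (b (a (c (b (l 535648527) (l 535609615)) (b (l 533810703) (l 533927695))) (c (b (a (l 535654159) (l 535659023)) (a (l 535614991) (l 535619599))) (b (a (l 533971727) (l 534083599)) (l 534156047)))) (a (c (l 535550223) (l 534121999)) (c (b (l 535577615) (l 535537167)) (b (l 534295823) (l 534447119))))) (b (a (c (b (a (c (l 535598863) (l 535732495)) (c (b (l 535615759) (l 535595791)) (l 535737359))) (a (l 535624975) (c (l 535565839) (l 535697935)))) (b (a (l 535004431) (b (l 535357711) (l 534353935))) (a (l 534337807) (l 534464271)))) (a (c (b (b (l 4) (a (l 535665167) (l 4))) (c (b (l 535583247) (l 535563023)) (l 535703311))) (b (b (l 4) (l 535284495)) (l 535399951))) (b (l 4) (c (c (b (a (l 535589135) (l 4)) (l 535302671)) (b (l 535719183) (l 535699215))) (b (l 535225359) (l 534771471)))))) (a (c (b (a (l 535584527) (l 535590159)) (l 535546639)) (b (l 534553871) (l 534720015))) (c (b (a (l 535596303) (c (l 535540239)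 (l 535668751))) (a (l 535555087) (l 535561743))) (b (a (l 534759439) (l 534902031)) (l 535011855)))))) (a (b (a (c (l 535468303) (l 534419983)) (c (l 535475215) (l 534697487))) (a (c (l 535383567) (l 534769167)) (c (l 535389711) (l 535080463)))) (b (a (c (b (l 535505167) (l 535462671)) (l 534994703)) (c (b (l 535248399) (l 535473935)) (b (l 535208463) (l 535420431)))) (a (c (l 535397903) (l 535414031)) (c (b (l 535430415) (l 535385871)) (l 535689743)))))), by decide +kernel⟩

def k22_A00pm_123_s3 : ∃ t, chk3 f_A00pm_123_s3 t 123 52 1 = true :=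
  ⟨(a (b (a (a (a (a (b (l 4) (b (l 4) (c (l 535638543) (l 534859535)))) (l 4)) (l 4)) (l 4)) (l 4)) (b (a (c (b (a (c (l 535290639) (l 535685391)) (l 4)) (a (l 535600399) (c (l 535279375) (l 535672079)))) (a (l 535318287) (b (l 4) (l 535251727)))) (l 4)) (a (c (a (c (l 535506959) (l 535633679)) (c (l 535382031) (l 535640591))) (a (l 535244559) (l 535406095))) (c (a (c (b (l 535402511) (l 535515407)) (l 535648527)) (a (b (l 4) (l 535582223)) (l 4))) (a (l 535573007) (b (l 4) (l 535803919))))))) (l 4)), by decide +kernel⟩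

def k23_A00pm_123_s3 : ∃ t, chk3 f_A00pm_123_s3 t 123 53 1 = true :=
  ⟨(a (b (a (c (b (a (l 535526671) (l 535534607)) (a (l 535483407) (l 535491087))) (b (l 535539215) (l 535759375))) (c (b (a (c (l 535214607) (l 535605775)) (c (b (l 535235855) (l 535482639)) (l 535613967))) (a (l 535499535) (l 535240463))) (b (a (l 535802639) (l 535812111)) (l 535498511)))) (a (c (b (l 535443727) (l 535398927)) (b (l 535715599) (l 535671055))) (c (b (a (l 535455247) (l 535464207)) (l 535146511)) (b (l 535722767) (l 535677455))))) (b (c (a (b (a (c (b (c (l 535219215) (l 535544591)) (l 535225615)) (l 535623183)) (a (b (l 4) (l 535425807)) (l 4))) (a (c (l 535192335) (l 535579151)) (c (b (l 535215631) (l 535461647)) (l 535589135)))) (b (l 4) (a (c (b (l 4) (l 535206159)) (l 535599887)) (l 4)))) (a (b (a (l 535817743) (c (l 535758351) (l 535225871))) (a (l 535774223) (l 535780367))) (b (l 4) (a (l 535787535) (l 4))))) (a (c (b (a (l 535473935) (c (l 535159311) (l 535543823))) (a (l 535428367) (l 535438863))) (b (l 535464719)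 (l 535687183))) (c (b (b (c (a (l 535451919) (l 535197455)) (l 535571983)) (a (l 535484943) (l 535228943))) (a (l 535450127) (c (l 535139599) (l 535519503)))) (b (a (l 535742223) (l 535749903)) (l 535431951)))))), by decide +kernel⟩

def k24_A00pm_123_s3 : ∃ t, chk3 f_A00pm_123_s3 t 61 27 1 = true :=
  ⟨(a (b (a (b (a (l 535444495) (c (l 535301391) (l 16769064))) (a (l 535354127) (l 535353871))) (b (a (c (l 535308815) (l 535598863)) (c (l 535318287) (l 535599375))) (a (c (l 16766560) (l 16768424)) (c (l 535225103) (l 16764224))))) (a (b (c (l 16761968) (l 16764584)) (c (l 16759144) (l 16762064))) (b (a (l 534722575) (c (l 16765440) (l 16767320))) (c (a (l 16761336) (l 16762824)) (l 16764384))))) (b (a (b (a (c (b (l 535353359) (l 535307023)) (l 535602447)) (c (b (l 535368719) (l 535321871)) (b (l 535631375) (l 535584015)))) (a (c (l 534967823) (l 535507215)) (c (b (l 535274255) (l 535225615)) (l 535511823)))) (b (a (c (b (a (l 535381775) (l 535392015)) (l 535340047)) (b (l 535640335) (l 535592719))) (c (a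 (b (l 535403279) (l 535355407)) (b (l 535415311) (l 535367183))) (b (l 535653135) (l 535604495)))) (a (c (b (l 535291663) (l 535242511)) (b (l 535543823) (l 535493903))) (c (b (c (l 534989839) (l 535369999)) (l 535263247)) (b (l 535555087) (l 535504399)))))) (a (b (a (c (l 535138575) (l 16768448)) (c (c (l 16767936) (l 16768560)) (l 535411215))) (a (c (l 16764312) (l 16766192)) (c (l 534780431) (l 16767416)))) (b (a (c (b (l 535192591) (l 535141391)) (l 535149071)) (c (b (l 535212559) (l 535160847)) (b (l 535452687) (l 535399695)))) (a (c (c (l 16767008) (l 16767632)) (l 535310863)) (c (b (l 535108111) (l 535054351)) (c (l 16769624) (l 16770224)))))))), by decide +kernel⟩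

def k25_A00pm_123_s3 : ∃ t, chk3 f_A00pm_123_s3 t 62 12 1 = true :=
  ⟨(l 4), by decide +kernel⟩

def k26_A00pm_123_s3 : ∃ t, chk3 f_A00pm_123_s3 t 62 26 1 = true :=
  ⟨(a (a (a (b (l 4) (b (l 4) (c (b (a (c (b (l 4) (l 535189263)) (l 535578383)) (l 4)) (b (c (a (l 535434255) (l 4)) (l 535550735)) (c (a (l 535410959) (l 535426575)) (l 535526927)))) (b (a (l 535758863) (l 4)) (a (l 535712015) (l 535721487)))))) (l 4)) (l 4)) (l 4)), by decide +kernel⟩

def k27_A00pm_123_s3 : ∃ t, chk3 f_A00pm_123_s3 t 124 54 1 = true :=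
  ⟨(a (b (a (c (b (c (a (l 535106831) (l 535122447)) (l 535223055)) (c (b (l 535078927) (l 535054351)) (l 535442703))) (b (l 535401231) (l 535620367))) (c (b (a (c (c (l 535114511) (l 535164431)) (l 535511567)) (l 4)) (a (c (l 535090447) (l 535462415)) (b (l 535438351) (l 535413519)))) (b (a (l 535683855) (l 4)) (a (l 535634191) (l 535645711))))) (a (c (b (a (l 535330831) (l 535344655)) (a (l 535280399) (l 535293967))) (b (l 535570191) (l 535518991))) (c (b (a (c (l 535040527) (l 535412239)) (c (l 535058191) (l 535427343))) (a (l 535308559) (c (l 535007247) (l 535375631)))) (b (a (l 535583503) (l 535594511)) (a (l 535531791) (l 535542287)))))) (b (b (l 4) (a (a (a (b (l 4) (c (l 535426319) (l 535641871))) (l 4)) (l 4)) (l 4))) (b (a (c (a (c (l 535076879) (l 535443727)) (c (b (l 535109903) (l 535084303)) (l 535193103))) (a (l 535607055) (l 535620879))) (l 4)) (a (b (c (a (l 535086351) (l 535105039)) (l 535575055)) (c (a (l 535060239) (l 535078927)) (l 535548431))) (c (a (c (b (l 535080207) (l 535054095))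 (l 535160079)) (a (b (l 4) (l 535115279)) (l 4))) (a (l 535582735) (l 535599631))))))), by decide +kernel⟩

def k28_A00pm_123_s3 : ∃ t, chk3 f_A00pm_123_s3 t 124 55 1 = true :=
  ⟨(a (b (a (c (b (a (l 535229199) (l 535242255)) (a (l 535176975) (l 535189775))) (b (l 535466511) (l 535412751))) (c (b (a (l 535256591) (l 535272207)) (a (l 535203855) (l 535218959))) (b (a (l 535478543) (l 535488783)) (l 535430415)))) (a (c (b (c (l 534811407) (l 16771024)) (l 534808079)) (b (l 535357967) (l 535301903))) (c (b (a (l 535149839) (l 535164687)) (a (l 535094799) (l 535109135))) (b (l 535374607) (l 535317775))))) (b (a (c (b (a (c (l 534973455) (l 535338767)) (c (l 534993167) (l 535355919))) (a (l 535235599) (a (l 534980111) (l 534989583)))) (b (a (l 535500559) (l 535513615)) (a (l 535445519) (l 535458063)))) (c (b (a (c (b (l 535027727) (l 535000847)) (l 535106319)) (c (b (c (l 535029775) (l 535340815)) (l 535023887)) (l 535126799))) (a (a (l 534999567) (l 535009807)) (c (b (l 534996751) (l 534969359)) (l 535071759))))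 (b (a (l 535528207) (l 535544591)) (a (l 535472399) (l 535488271))))) (a (c (b (a (l 535181071) (c (l 534884879) (l 535246095))) (a (l 535125007) (l 535142415))) (b (a (l 535388943) (l 535401231)) (a (l 535331343) (l 535343119)))) (c (b (a (c (l 534905615) (l 534995727)) (b (l 534984463) (l 534956047))) (a (c (l 534849551) (l 534938383)) (a (l 534907663) (l 534918415)))) (b (a (l 535415055) (l 535430415)) (a (l 535356431) (l 535371279))))))), by decide +kernel⟩

def k29_A00pm_123_s3 : ∃ t, chk3 f_A00pm_123_s3 t 125 27 1 = true :=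
  ⟨(b (l 4) (a (b (a (c (b (b (l 4) (a (a (l 535084559) (l 4)) (l 4))) (a (a (b (l 535056911) (l 535297551)) (b (l 535069199) (l 535041295))) (c (b (a (l 535040783) (l 4)) (a (l 535281423) (l 535026959))) (b (l 535131407) (l 535103247))))) (b (a (c (l 535512335) (l 535614991)) (l 4)) (a (a (l 535500815) (l 535510031)) (a (l 535519759) (l 535530255))))) (l 4)) (a (b (c (a (c (b (l 534965775) (l 534937615)) (l 535036943)) (a (b (l 535025423) (l 534997007)) (b (a (l 535303439) (l 535310095)) (l 535009807)))) (a (a (l 535442703) (l 535451663)) (a (l 535461391) (l 535471375)))) (a (c (c (b (l 534909199) (l 534880527)) (l 534978831)) (l 535119631)) (c (a (b (l 534968079) (l 535207183)) (b (l 534980879) (l 534951439))) (a (l 535401487) (l 535411215))))) (c (a (b (c (b (a (l 535012879) (l 4)) (a (c (l 535234063) (l 535271951)) (a (l 535263759) (l 535271183)))) (b (l 535100431) (l 535071247))) (c (b (a (l 535224079) (c (l 535220495) (l 535257359))) (a (l 535194895) (l 535209231))) (b (l 535041807) (l 535012111))))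 (b (l 4) (a (a (b (l 535018767) (l 534989327)) (b (l 535127055) (l 534996495))) (a (c (b (l 535265551) (l 535236111)) (l 535057679)) (c (b (l 4) (l 535244303)) (l 535065103)))))) (b (a (b (l 535234575) (l 535473167)) (l 4)) (a (a (l 535421711) (l 535164431)) (a (b (l 535459599) (l 535428879)) (b (l 535471887) (l 535440911)))))))) (a (a (a (a (b (l 4) (b (l 4) (b (l 4) (b (l 4) (c (l 535280655) (l 535442447)))))) (l 4)) (l 4)) (l 4)) (l 4)))), by decide +kernel⟩

def k30_A00pm_123_s3 : ∃ t, chk3 f_A00pm_123_s3 t 63 6 1 = true :=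
  ⟨(l 4), by decide +kernel⟩

def k31_A00pm_123_s3 : ∃ t, chk3 f_A00pm_123_s3 t 28 14 1 = true :=
  ⟨(a (b (a (b (c (l 16586768) (l 16516504)) (c (l 16578600) (l 16493992))) (b (c (l 16612592) (l 16624200)) (c (l 16650776) (l 16605208)))) (a (b (c (a (l 16565744) (l 16583112)) (c (l 16497536) (l 16448184))) (c (a (b (l 16565256) (l 16567464)) (b (l 16585224) (l 16589520))) (c (l 16568232) (l 16424936)))) (c (b (a (l 16601128) (l 16619840)) (a (b (l 16606048) (l 16612592)) (b (l 16627752) (l 16636744)))) (b (a (l 16496344) (l 16513040)) (a (c (l 16513624) (l 16451896)) (b (l 16504488) (l 16501016))))))) (b (a (b (c (a (l 16632840) (l 16646752)) (a (l 16559320) (l 16572536))) (c (a (l 16632744) (l 16649288)) (a (l 16543280) (l 16558648)))) (b (c (a (b (l 16660584) (l 16661584)) (b (l 16674448) (l 16676736))) (a (b (l 16589600) (l 16582912)) (b (l 16603160) (l 16597520)))) (c (a (l 16666304) (l 16662792)) (a (l 16658472) (b (l 16592944) (l 16589552)))))) (a (b (c (a (l 16639232) (l 16659328)) (a (l 16530472)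 (l 16632568))) (c (a (b (l 16650392) (l 16662000)) (b (l 16673984) (l 16688408))) (a (b (l 16524472) (l 16523032)) (b (l 16545432) (l 16630072))))) (c (b (a (l 16680160) (b (l 16696032) (l 16708104))) (a (b (l 16698544) (l 16715984)) (b (l 16724080) (l 16686280)))) (c (b (a (l 16595520) (l 16615824)) (a (l 16602752) (l 16669688))) (b (a (l 16540040) (l 16559312)) (a (l 16534768) (l 16642088)))))))), by decide +kernel⟩

def k32_A00pm_123_s3 : ∃ t, chk3 f_A00pm_123_s3 t 56 60 2 = true :=
  ⟨(a (b (a (c (l 16607864) (l 16537088)) (c (l 16633256) (l 16560648))) (a (c (l 16619216) (l 16541784)) (c (l 16647640) (l 16568000)))) (b (a (c (l 16659896) (l 16585416)) (c (l 16687824) (l 16611448))) (a (c (l 16677544) (l 16595648)) (c (l 16709000) (l 16624784))))), by decide +kernel⟩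

def k33_A00pm_123_s3 : ∃ t, chk3 f_A00pm_123_s3 t 112 61 2 = true :=
  ⟨(b (a (c (b (l 16630520) (a (l 16631664) (l 16647680))) (b (l 16547632) (c (l 16574352) (l 16531440)))) (c (b (l 16661536) (a (l 16664144) (l 16681056))) (b (l 16576120) (c (l 16605200) (l 16560912))))) (a (b (c (b (a (c (l 16661592) (l 16616560)) (l 16676736)) (a (b (c (l 16665960) (l 16620144)) (c (l 16668568) (l 16622288))) (b (c (l 16683472) (l 16636904)) (c (a (l 16682040) (l 16691160)) (a (l 16635160) (l 16643872)))))) (b (c (l 16579776) (l 16535344)) (a (c (b (l 16574816) (l 16576496)) (l 16530568)) (c (b (l 16590824) (l 16592888)) (l 16546016))))) (c (a (c (l 16673880) (l 16626656)) (c (l 16692536) (l 16644464))) (c (a (l 16579880) (l 16596856)) (l 16541568)))) (b (c (a (b (l 16672992) (a (b (l 16673304) (c (l 16700384) (l 16652696))) (c (l 16707336) (l 16660088)))) (b (l 16690712) (c (l 16688088) (b (l 16671896) (l 16675208))))) (a (b (l 16580952) (c (a (l 16604328) (l 16612768)) (l 16561904))) (b (l 16597168) (c (l 16667576)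 (l 16578224))))) (c (a (c (l 16702624) (l 16662824)) (b (c (l 16696624) (a (l 16674576) (l 16684048))) (l 16679944))) (a (c (l 16614360) (l 16566376)) (c (b (l 16661824) (l 16634520)) (l 16625496))))))), by decide +kernel⟩

def k34_A00pm_123_s3 : ∃ t, chk3 f_A00pm_123_s3 t 113 61 2 = true :=
  ⟨(b (a (c (b (l 16694240) (a (l 16698448) (l 16711608))) (b (l 16606224) (a (l 16606768) (l 16623184)))) (c (a (l 16693072) (l 16695080)) (b (l 16638032) (a (l 16640080) (l 16657464))))) (a (b (c (a (c (l 16711456) (l 16688408)) (a (l 16689416) (l 16690512))) (a (c (l 16640288) (l 16592672)) (c (l 16658136) (l 16609720)))) (c (b (a (b (c (b (l 16711016) (l 16710368)) (a (l 16692360) (l 16702032))) (l 16685312)) (b (c (b (l 16713344) (l 16713008)) (b (l 16707832) (l 16686520))) (l 16688056))) (c (l 16697192) (a (l 16700944) (l 16703680)))) (a (b (b (c (a (l 16643008) (l 16652240)) (l 16640472)) (l 16667040)) (c (l 16653392) (l 16603216))) (b (b (c (b (l 16665536) (l 16677576)) (b (l 16615752) (l 16617024))) (c (l 16669016)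 (l 16618600))) (c (l 16672872) (l 16621776)))))) (b (c (a (a (l 16712576) (l 16713648)) (a (l 16714712) (l 16715776))) (a (a (l 16678744) (l 16677376)) (a (l 16665656) (l 16675048)))) (c (b (a (b (c (l 16715512) (a (l 16709488) (l 16710616))) (c (l 16714448) (l 16709000))) (b (a (l 16714432) (l 16715520)) (c (l 16717040) (b (l 16712016) (l 16711312))))) (c (l 16702584) (a (l 16706392) (l 16709096)))) (b (a (b (c (a (l 16680680) (l 16690384)) (a (l 16630104) (l 16639376))) (c (l 16688712) (l 16637376))) (a (b (l 16674432) (c (l 16703872) (l 16651832))) (b (l 16684208) (c (l 16706808) (l 16661648))))) (a (c (l 16692984) (l 16640936)) (c (l 16703704) (l 16660728)))))))), by decide +kernel⟩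

def k35_A00pm_123_s3 : ∃ t, chk3 f_A00pm_123_s3 t 56 30 3 = true :=
  ⟨(b (a (c (b (l 16478752) (a (l 16466160) (l 16490152))) (a (l 16396328) (l 16417056))) (b (c (a (l 16512592) (l 16536688)) (l 16452320)) (c (a (l 16515520) (l 16542328)) (a (l 16437184) (l 16461632))))) (a (b (c (a (b (l 16466600) (l 16467960)) (b (l 16492568) (l 16579264))) (a (l 16386128) (l 16410208))) (c (a (b (c (b (l 16491392) (l 16535184)) (l 16448336)) (c (l 16495304) (l 16449504))) (b (c (a (l 16514480) (l 16529784)) (l 16476608)) (c (a (l 16518872) (l 16535192)) (l 16479504)))) (a (b (l 16383280) (l 16381664)) (b (c (l 16431640) (l 16387176)) (l 16493128))))) (c (c (b (a (l 16544040) (l 16616664)) (b (a (a (l 16545552) (l 16561816)) (a (l 16578584) (l 16595856))) (a (a (l 16593976) (b (b (l 16566984) (l 16568704)) (l 16571176))) (b (a (b (l 16584456) (l 16586560)) (b (l 16602400) (a (l 16600328) (l 16609672)))) (a (l 16589408) (l 16608240)))))) (b (a (l 16500376) (l 16529664)) (b (a (l 16506624) (a (l 16530392) (l 16546856)))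 (a (a (l 16503304) (l 16519808)) (b (a (l 16535464) (b (l 16551808) (l 16553760))) (l 16547240)))))) (b (a (l 16519680) (c (l 16485088) (l 16441000))) (a (b (c (l 16460128) (l 16414144)) (c (l 16462800) (l 16414648))) (b (c (l 16490472) (l 16442912)) (c (a (l 16486856) (b (l 16502416) (l 16504816))) (a (l 16437384) (l 16453168))))))))), by decide +kernel⟩

def k36_A00pm_123_s3 : ∃ t, chk3 f_A00pm_123_s3 t 57 60 1 = true :=
  ⟨(a (c (a (b (c (l 16717088) (l 16638808)) (c (l 16720112) (l 16655504))) (b (c (l 16724640) (l 16667536)) (c (l 16723584) (l 16687872)))) (a (b (c (l 16562072) (l 16486888)) (c (l 16570656) (l 16487544))) (b (c (l 16588800) (l 16511560)) (c (l 16684472) (l 16515000))))) (c (a (b (c (l 16727680) (l 16697688)) (c (l 16726920) (l 16718648))) (b (c (l 16730600) (l 16723800)) (c (l 16730128) (l 16722368)))) (a (b (c (l 16616936) (l 16537600)) (c (l 16674144) (l 16627960))) (b (c (l 16646536) (l 16565080)) (c (b (l 16660224) (l 16671288)) (b (l 16571936) (l 16578064))))))), by decide +kernel⟩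

def k37_A00pm_123_s3 : ∃ t, chk3 f_A00pm_123_s3 t 114 61 2 = true :=
  ⟨(b (a (a (c (l 16718024) (l 16679520)) (c (l 16719952) (l 16686872))) (a (c (l 16721848) (l 16684232)) (c (l 16723704) (l 16693240)))) (a (b (c (a (b (l 16717432) (l 16717240)) (b (l 16719464) (l 16719312))) (a (a (l 16684576) (l 16694248)) (a (l 16704056) (l 16709464)))) (c (b (a (b (a (l 16716584) (l 16717648)) (c (l 16709024) (a (l 16713552) (l 16714768)))) (c (l 16711360) (a (l 16716008) (l 16675136)))) (a (c (l 16717080) (l 16711784)) (c (l 16719720) (l 16714448)))) (b (a (a (b (l 16694128) (c (l 16708080) (l 16671600))) (b (l 16704200) (c (l 16709320) (l 16681680)))) (a (b (l 16707952) (c (l 16710504) (l 16691904))) (c (l 16711712) (l 16700136)))) (a (c (l 16706416) (l 16681168)) (c (l 16709104) (l 16681296)))))) (b (c (a (l 16721400) (l 16723368)) (a (b (l 16711240) (l 16689952)) (c (l 16715776) (l 16710624)))) (c (b (a (a (l 16720752) (l 16700808)) (b (l 16723296) (l 16712800))) (a (c (l 16711784) (a (l 16716408) (l 16717688)))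 (b (c (l 16715120) (a (l 16698832) (l 16700024))) (l 16721456)))) (b (a (c (l 16713312) (l 16707920)) (c (l 16715448) (l 16710120))) (a (a (c (l 16711080) (l 16705680)) (c (l 16712376) (b (l 16707800) (l 16706240)))) (b (c (a (l 16714480) (l 16715688)) (a (l 16709072) (l 16710304))) (c (l 16713592) (l 16708248))))))))), by decide +kernel⟩

def k38_A00pm_123_s3 : ∃ t, chk3 f_A00pm_123_s3 t 114 61 3 = true :=
  ⟨(b (a (c (b (l 16580080) (a (l 16579704) (l 16596568))) (b (l 16490392) (l 16577520))) (c (b (l 16612776) (a (l 16613936) (l 16631832))) (a (l 16514752) (l 16614480)))) (c (a (c (b (a (l 16613664) (l 16632024)) (b (a (b (l 16620920) (a (l 16619152) (l 16628768))) (a (l 16657824) (l 16646632))) (a (l 16627696) (l 16668760)))) (b (a (l 16563832) (l 16581344)) (b (a (b (l 16569440) (l 16613736)) (a (l 16584360) (l 16593680))) (a (l 16574752) (l 16593856))))) (c (b (a (l 16650944) (l 16670448)) (b (a (l 16661576) (l 16682072)) (a (b (a (l 16661808) (l 16672256)) (l 16670104)) (b (a (l 16682864) (l 16683136))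 (l 16691728))))) (b (a (l 16599408) (l 16618032)) (b (a (l 16607928) (l 16627480)) (a (a (l 16608592) (l 16660552)) (b (a (l 16627424) (l 16679616)) (l 16635440))))))) (a (b (c (l 16606672) (l 16473576)) (c (b (a (l 16519360) (l 16536832)) (a (l 16522344) (l 16540464))) (b (a (l 16468640) (l 16485208)) (l 16478960)))) (b (c (a (l 16548392) (l 16566152)) (l 16506280)) (b (c (a (l 16554840) (l 16573448)) (l 16553000)) (a (c (l 16601120) (l 16505336)) (c (a (l 16573632) (l 16625408)) (l 16523664)))))))), by decide +kernel⟩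

def k39_A00pm_123_s3 : ∃ t, chk3 f_A00pm_123_s3 t 115 61 2 = true :=
  ⟨(b (a (a (c (l 16725528) (l 16695256)) (c (l 16727312) (l 16718216))) (a (c (l 16729056) (l 16720168)) (c (l 16730768) (l 16722096)))) (a (b (c (a (l 16725304) (l 16706224)) (a (c (l 16717832) (l 16712760)) (c (l 16719848) (l 16714856)))) (c (b (a (l 16714800) (l 16706264)) (a (b (c (l 16706864) (l 16712160)) (l 16713584)) (b (l 16716792) (c (l 16708152) (l 16703016))))) (b (a (c (l 16675600) (l 16712288)) (a (l 16716504) (l 16717544))) (a (b (c (c (l 16697736) (l 16695080)) (a (l 16711488) (l 16712624))) (c (l 16716232) (l 16710920))) (b (a (l 16716352) (l 16717400)) (c (l 16718776) (a (l 16712880) (l 16714144)))))))) (c (b (a (l 16708080) (l 16709904)) (a (b (l 16708176) (b (l 16708240) (c (l 16710504) (l 16715896)))) (b (l 16710040) (c (l 16712672) (l 16718144))))) (b (a (l 16698416) (l 16721384)) (a (b (a (l 16718576) (l 16719592)) (b (a (l 16718440) (l 16719472)) (c (a (l 16699680) (l 16700864)) (a (l 16715392) (l 16716592)))))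 (b (l 16710624) (c (a (l 16702072) (l 16703088)) (a (l 16717856) (l 16697944))))))))), by decide +kernel⟩

def k40_A00pm_123_s3 : ∃ t, chk3 f_A00pm_123_s3 t 115 61 3 = true :=
  ⟨(b (a (c (b (l 16647408) (a (l 16650272) (l 16669264))) (b (l 16551936) (c (l 16583912) (l 16534016)))) (c (b (l 16684088) (a (l 16688840) (l 16709000))) (b (l 16669480) (a (l 16585552) (l 16604008))))) (a (c (b (a (c (l 16690560) (l 16637256)) (b (l 16680200) (l 16688168))) (b (a (c (l 16703216) (l 16647664)) (c (l 16709160) (l 16668504))) (a (b (c (a (l 16683552) (l 16707216)) (a (l 16648064) (l 16658608))) (c (l 16705520) (l 16677688))) (b (c (l 16708864) (l 16674696)) (c (a (l 16707504) (l 16708784)) (a (l 16673128) (l 16684280))))))) (b (a (c (l 16584480) (l 16532240)) (c (l 16603400) (l 16550248))) (b (a (c (l 16592672) (l 16538248)) (c (l 16612536) (l 16557128))) (a (c (b (a (l 16592184) (l 16602216)) (l 16599912)) (b (l 16541616) (l 16543688))) (c (b (l 16617536) (a (l 16615504) (l 16626112))) (b (l 16560968) (l 16605408)))))))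 (c (b (a (c (l 16711952) (l 16677536)) (c (l 16714080) (l 16698648))) (a (b (c (l 16711336) (l 16690024)) (b (c (l 16711056) (l 16696776)) (c (a (l 16710048) (l 16711272)) (a (b (l 16694616) (l 16696656)) (b (l 16706000) (l 16705688)))))) (b (c (l 16713488) (l 16708312)) (c (b (l 16713216) (a (l 16712456) (l 16713592))) (b (l 16707928) (a (b (l 16707192) (l 16706960)) (l 16708248))))))) (b (a (c (l 16622928) (l 16568856)) (c (l 16643096) (l 16588072))) (a (b (c (l 16633056) (l 16576656)) (c (b (l 16638576) (a (l 16678832) (b (l 16646904) (l 16648776)))) (b (l 16580968) (a (l 16578760) (l 16589152))))) (b (c (l 16654256) (l 16596840)) (c (b (l 16660328) (a (b (l 16657920) (l 16659968)) (l 16670232))) (b (l 16601664) (a (l 16599712) (l 16610440)))))))))), by decide +kernel⟩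

def k41_A00pm_123_s3 : ∃ t, chk3 f_A00pm_123_s3 t 56 62 2 = true :=
  ⟨(a (b (c (a (b (a (l 16669248) (c (l 16692968) (l 16653120))) (a (l 16668520) (l 16683720))) (b (a (c (l 16695664) (l 16672416)) (c (l 16698344) (l 16692336))) (c (l 16690136) (l 16685192)))) (a (c (b (l 16636832) (l 16602632)) (a (l 16540768) (l 16558168))) (b (c (a (l 16622280) (l 16641288)) (l 16623488)) (a (l 16647600) (l 16667136))))) (c (a (b (c (l 16678296) (l 16663896)) (c (l 16671864) (l 16667416))) (b (c (l 16683400) (l 16678736)) (c (l 16676816) (l 16672432)))) (a (b (c (l 16611672) (l 16559768)) (c (l 16622160) (l 16568384))) (b (c (l 16652488) (l 16598640)) (c (l 16665224) (l 16651352)))))) (b (a (c (b (c (a (l 16701016) (l 16703672)) (a (l 16695840) (l 16698520))) (c (l 16695320) (l 16690440))) (c (b (a (l 16660904) (l 16681168)) (l 16672264)) (b (a (l 16609368) (l 16628672)) (l 16660280)))) (c (b (c (a (l 16706312) (l 16708936)) (a (l 16701184) (l 16703832))) (c (l 16700456) (l 16685144))) (b (a (c (l 16695984) (l 16648624))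 (c (l 16698664) (l 16669240))) (c (a (l 16689440) (l 16692048)) (a (l 16660176) (l 16681976)))))) (a (c (b (c (l 16688448) (l 16683840)) (c (l 16681720) (l 16677400))) (b (a (l 16657232) (l 16657168)) (c (l 16673040) (l 16653408)))) (c (b (c (l 16693440) (l 16688896)) (c (l 16665608) (l 16682320))) (b (c (l 16684296) (l 16658672)) (c (l 16678024) (l 16663192))))))), by decide +kernel⟩

def k42_A00pm_123_s3 : ∃ t, chk3 f_A00pm_123_s3 t 56 62 3 = true :=
  ⟨(c (a (b (a (c (l 16584432) (l 16452096)) (c (a (l 16525960) (l 16543608)) (l 16568368))) (a (c (b (l 16508184) (l 16514888)) (l 16459160)) (b (c (l 16545128) (l 16491952)) (c (l 16553872) (l 16498624))))) (b (a (c (b (a (l 16558272) (l 16576640)) (l 16575312)) (a (l 16510232) (l 16528136))) (b (c (a (l 16595616) (l 16615240)) (a (l 16543088) (l 16561720))) (c (a (l 16605136) (l 16625880)) (l 16644168)))) (a (b (c (l 16668584) (l 16529496)) (c (l 16637656) (l 16538328))) (b (c (l 16648096) (l 16653664)) (c (a (l 16629128) (l 16652432)) (a (l 16570048) (l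 16592184))))))) (a (b (a (l 16380168) (c (l 16434672) (l 16385272))) (a (c (l 16407224) (l 16355592)) (c (l 16441248) (l 16387672)))) (b (a (c (l 16467440) (l 16416216)) (c (a (l 16493536) (l 16511696)) (l 16449368))) (a (c (b (l 16474656) (l 16481240)) (l 16422160)) (c (b (l 16512808) (l 16521664)) (b (l 16456208) (l 16462632))))))), by decide +kernel⟩

def k43_A00pm_123_s3 : ∃ t, chk3 f_A00pm_123_s3 t 114 62 2 = true :=
  ⟨(b (a (c (b (c (a (l 16711552) (l 16714144)) (a (l 16706472) (l 16709096))) (c (l 16705544) (l 16690280))) (b (c (a (l 16701320) (l 16703968)) (a (l 16690552) (l 16698776))) (c (a (l 16694640) (l 16697224)) (a (l 16689728) (l 16692336))))) (c (b (c (a (l 16716736) (l 16719304)) (a (l 16711704) (l 16714304))) (c (l 16710576) (l 16700608))) (b (c (a (l 16706608) (l 16709224)) (a (l 16701432) (l 16704080))) (c (a (l 16699800) (l 16702360)) (a (l 16694936) (l 16697520)))))) (a (c (b (c (l 16677416) (l 16693904)) (c (l 16670416) (l 16687192))) (b (a (l 16675328) (c (l 16690624) (l 16686048)))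 (a (l 16669112) (l 16671584)))) (c (b (c (l 16682312) (l 16698856)) (a (l 16671928) (l 16674320))) (b (c (l 16694376) (a (l 16688584) (l 16691112))) (a (l 16674040) (l 16676496)))))), by decide +kernel⟩

def k44_A00pm_123_s3 : ∃ t, chk3 f_A00pm_123_s3 t 114 62 3 = true :=
  ⟨(c (b (a (b (a (c (l 16635528) (l 16580992)) (c (l 16656496) (l 16600928))) (c (a (l 16647352) (l 16669576)) (a (l 16590624) (l 16611744)))) (b (a (c (l 16678192) (l 16621552)) (c (l 16677896) (l 16663864))) (a (c (l 16690016) (l 16633616)) (c (l 16692624) (l 16656272))))) (a (b (c (a (l 16660968) (l 16681416)) (a (l 16601928) (l 16624344))) (c (a (l 16673104) (l 16675624)) (a (l 16615136) (l 16638968)))) (b (c (a (l 16683984) (l 16686536)) (a (l 16647576) (l 16671680))) (c (a (l 16678128) (l 16680624)) (a (l 16663696) (l 16676336)))))) (b (a (c (a (l 16530488) (b (l 16545864) (l 16554360))) (a (l 16475808) (l 16494216))) (c (b (a (l 16565432) (l 16585688)) (a (l 16575112) (l 16596616))) (a (l 16513288) (b (l 16529016) (l 16537424)))))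 (a (b (c (l 16616712) (l 16494968)) (c (a (l 16554008) (l 16576600)) (l 16503784))) (b (c (a (l 16586568) (l 16609440)) (a (l 16525968) (l 16547616))) (c (a (l 16600056) (l 16624424)) (a (l 16536760) (l 16559816))))))), by decide +kernel⟩

def k45_A00pm_123_s3 : ∃ t, chk3 f_A00pm_123_s3 t 115 62 2 = true :=
  ⟨(c (b (a (b (a (b (l 16721256) (l 16696552)) (b (l 16723832) (l 16699096))) (c (l 16705080) (l 16710896))) (b (a (b (l 16705424) (l 16701632)) (b (l 16707984) (l 16704152))) (c (l 16710016) (l 16715888)))) (a (b (c (l 16687168) (l 16693280)) (a (l 16676696) (l 16679064))) (b (a (l 16688632) (l 16691048)) (a (l 16681416) (l 16683768))))) (c (b (a (b (a (l 16711840) (l 16714440)) (a (l 16704904) (l 16707440))) (b (a (l 16717024) (l 16719600)) (a (l 16709968) (l 16712480)))) (a (b (l 16699344) (l 16682208)) (b (l 16704280) (l 16687024)))) (b (a (b (a (l 16706712) (l 16709336)) (a (l 16700096) (l 16702656))) (b (a (l 16711952) (l 16714544)) (a (l 16705208) (l 16707752)))) (a (b (a (l 16693632) (l 16696136))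 (b (l 16669136) (l 16666016))) (b (a (l 16698624) (l 16701112)) (c (l 16673472) (l 16671416))))))), by decide +kernel⟩

def k46_A00pm_123_s3 : ∃ t, chk3 f_A00pm_123_s3 t 115 62 3 = true :=
  ⟨(c (b (a (b (a (c (b (l 16703120) (l 16699936)) (b (l 16661584) (l 16668472))) (c (b (l 16705776) (l 16702560)) (b (l 16684088) (l 16691680)))) (c (a (l 16695224) (l 16697816)) (a (l 16679752) (l 16692904)))) (b (c (a (b (l 16708424) (l 16705184)) (b (l 16711056) (l 16707792))) (a (b (l 16703120) (l 16700048)) (b (l 16705776) (l 16702680)))) (c (a (l 16700392) (l 16702960)) (a (l 16695504) (l 16698104))))) (a (b (c (a (l 16689080) (l 16691616)) (a (l 16684480) (l 16687040))) (c (a (l 16683112) (l 16685592)) (a (l 16678856) (l 16681368)))) (b (a (c (l 16694136) (l 16689592)) (c (l 16696656) (l 16692136))) (a (c (l 16688064) (l 16683864)) (c (l 16690520) (l 16686352)))))) (b (a (b (a (c (l 16648600) (l 16548880)) (c (b (l 16625256) (l 16631576)) (l 16569456))) (a (c (l 16618896) (l 16558536)) (c (l 16642000) (l 16580424))))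 (b (a (c (b (l 16647392) (l 16654416)) (c (l 16605736) (l 16575840))) (c (b (l 16670312) (l 16678072)) (b (l 16609712) (l 16616104)))) (a (c (l 16665952) (l 16603128)) (c (l 16690800) (l 16668624))))) (a (b (c (a (l 16633168) (l 16657800)) (a (l 16570080) (l 16593408))) (c (a (l 16649736) (l 16676056)) (a (l 16583784) (l 16608704)))) (b (a (c (l 16683368) (l 16617640)) (c (l 16687568) (l 16642816))) (c (a (l 16679624) (l 16682144)) (a (l 16634624) (l 16661584))))))), by decide +kernel⟩

def k47_A00pm_123_s3 : ∃ t, chk3 f_A00pm_123_s3 t 56 126 1 = true :=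
  ⟨(c (a (b (c (a (a (l 16651808) (l 16654248)) (a (l 16656664) (l 16659080))) (a (c (l 16655240) (l 16641464)) (c (a (l 16660952) (l 16663408)) (a (l 16610776) (l 16633240))))) (c (a (l 22) (c (a (l 16642024) (l 16644344)) (l 22))) (l 22))) (c (a (b (c (l 16664672) (l 16660648)) (c (a (l 16646656) (l 16648952)) (a (l 16642912) (l 16645248)))) (b (c (l 16669392) (l 16665432)) (a (c (l 16651240) (l 16647568)) (c (l 16653520) (l 16649888))))) (a (b (c (a (l 16665856) (l 16668296)) (a (l 16656536) (l 16664224))) (l 22)) (b (c (a (l 16670720) (l 16673136)) (a (l 16666680) (l 16669128))) (c (a (l 22) (l 16656712)) (l 22)))))) (c (b (a (a (c (l 16523040) (l 16467760)) (c (a (l 16553680) (l 16575040)) (l 16506840))) (a (c (a (l 16597200) (l 16620184)) (a (l 16538096) (l 16559912))) (c (a (l 16644032) (l 16665088)) (a (l 16582560) (l 16606072))))) (a (a (c (l 22) (l 16475408)) (l 22)) (l 22))) (a (a (c (l 16499136) (l 16359280)) (c (b (l 16449656) (l 16457280)) (l 16395136))) (a (b (c (l 16489456) (l 16430256)) (c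 (a (l 16488664) (l 22)) (l 16437792))) (b (c (a (l 16521336) (l 16543616)) (l 16470784)) (c (l 22) (a (l 16469800) (l 22)))))))), by decide +kernel⟩

def k48_A00pm_123_s3 : ∃ t, chk3 f_A00pm_123_s3 t 112 127 2 = true :=
  ⟨(b (c (a (l 22) (c (a (b (l 16658456) (l 16645000)) (b (l 16660720) (l 16647232))) (l 22))) (l 22)) (b (c (a (l 22) (c (a (b (l 16642808) (a (l 16640816) (l 16641912))) (b (l 16645016) (a (l 16653496) (l 16654584)))) (l 22))) (l 22)) (c (a (l 22) (b (c (c (b (a (l 16641080) (l 16643248)) (a (a (l 16650304) (l 16651384)) (a (l 16652464) (l 16653536)))) (a (l 22) (a (l 22) (l 16652360)))) (l 22)) (a (c (c (a (a (l 22) (b (l 16649856) (c (l 16649520) (l 22)))) (b (c (l 16651048) (l 16650280)) (a (c (l 16650056) (l 22)) (c (l 16650592) (l 16649832))))) (l 22)) (l 22)) (c (a (c (b (l 16651736) (a (a (l 16650616) (l 16650880)) (a (l 16651152) (l 16651416)))) (l 22)) (b (c (l 16652808) (c (l 16651672) (l 22))) (c (a (a (l 16651680) (l 16651952)) (a (l 16652216) (l 16652480))) (c (a (l 16650696)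 (l 16651232)) (l 22))))) (l 22))))) (l 22)))), by decide +kernel⟩

def k49_A00pm_123_s3 : ∃ t, chk3 f_A00pm_123_s3 t 113 254 2 = true :=
  ⟨(c (a (a (b (a (l 16650176) (l 16651312)) (c (l 16649456) (l 16646112))) (b (a (l 16652440) (l 16653576)) (c (l 16651672) (l 16648360)))) (a (b (a (l 16654704) (l 16655824)) (c (l 16653872) (l 16650600))) (c (b (l 16669688) (l 16656064)) (b (l 16666296) (l 16652832))))) (a (l 22) (c (a (l 22) (b (l 16641912) (b (l 16660776) (l 16648904)))) (l 22)))), by decide +kernel⟩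

def k50_A00pm_123_s3 : ∃ t, chk3 f_A00pm_123_s3 t 113 510 4 = true :=
  ⟨(a (a (a (c (b (l 16657152) (l 16655672)) (l 22)) (c (b (l 16658248) (l 16656760)) (b (l 16655032) (l 16643144)))) (c (a (l 16648104) (l 16649192)) (b (l 16646216) (a (l 16644248) (l 16645352))))) (a (c (a (l 16650280) (b (l 16662600) (l 16661088))) (b (l 16648432) (a (l 16646456) (l 16647552)))) (c (c (b (l 16665000) (l 16663448)) (l 16652208)) (b (l 16650640) (a (l 16648648) (l 16660224)))))), by decide +kernel⟩

def k51_A00pm_123_s3 : ∃ t, chk3 f_A00pm_123_s3 t 226 511 4 = true :=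
  ⟨(b (a (c (a (c (l 16654984) (l 16653448)) (c (l 16656056) (l 16654528))) (a (l 22) (c (l 16653008) (l 22)))) (a (c (c (l 16657120) (l 16655608)) (c (l 16654096) (l 22))) (c (c (l 16658192) (l 16656688)) (c (l 16655184) (l 22))))) (a (b (a (c (c (l 16653880) (c (l 16652752) (l 16652000))) (l 22)) (c (c (l 16654944) (c (l 16653824) (l 16653080))) (c (c (l 16652336) (l 22)) (l 22)))) (a (c (c (c (b (l 16653696) (l 16653328)) (b (l 16652960) (l 16652592))) (a (c (l 16651768) (l 16651024)) (c (l 16652304) (l 16651560)))) (l 22)) (c (c (c (l 16654576) (b (l 16654024) (l 16653656))) (a (a (l 16652336) (l 16652600)) (a (l 16652872) (l 16653136)))) (a (l 22) (c (c (l 16651904) (l 22)) (l 22)))))) (b (a (c (c (l 16656008) (l 16654528)) (c (c (l 16653416) (l 22)) (l 22))) (c (c (l 16657072) (l 16655600)) (c (c (l 16654496) (l 16653760)) (l 22)))) (a (c (c (c (l 16655632) (l 16654904)) (a (a (l 16653408) (l 16653672)) (a (l 16653944) (l 16654208)))) (c (c (a (l 16652440) (l 16652984)) (l 22)) (l 22))) (c (c (c (l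 16656688) (l 16655960)) (c (b (l 16655416) (l 16655056)) (b (l 16654688) (l 16654336)))) (c (a (c (l 16653520) (l 16652792)) (c (l 16654056) (l 16653336))) (l 22))))))), by decide +kernel⟩

def k52_A00pm_123_s3 : ∃ t, chk3 f_A00pm_123_s3 t 227 511 4 = true :=
  ⟨(b (c (a (a (c (l 16659256) (l 16657768)) (c (l 16660320) (l 16658840))) (a (c (l 16661384) (l 16659912)) (c (l 16662440) (l 16660984)))) (a (a (c (l 16656272) (l 16654784)) (c (l 16657360) (l 16655872))) (a (c (l 16658440) (l 16656968)) (c (l 16659520) (l 16658056))))) (c (a (a (c (b (l 16658128) (c (l 16657736) (l 16657016))) (b (l 16656672) (c (l 16656304) (b (l 16655760) (l 16655400))))) (c (b (l 16659184) (c (l 16658792) (l 16658072))) (b (l 16657736) (a (l 16656736) (l 16657272))))) (a (c (b (l 16660240) (c (l 16659840) (l 16659128))) (b (l 16658800) (c (l 16658416) (l 16657712)))) (c (a (l 16660648) (l 16661176)) (b (l 16659864) (c (l 16659480) (l 16658776)))))) (a (a (b (c (c (l 16655576) (l 16654840)) (c (l 16654112) (l 22))) (c (a (a (l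 16654096) (l 16654368)) (a (l 16654640) (l 16654904))) (c (a (l 16653152) (l 16653696)) (l 22)))) (b (c (l 16656288) (c (l 16655200) (l 16654472))) (a (c (a (l 16655176) (l 16655440)) (c (l 16654232) (l 22))) (c (a (l 16655712) (l 16655976)) (c (l 16654776) (l 16654064)))))) (b (c (a (l 16657360) (l 16658440)) (a (c (l 16656280) (l 16655560)) (c (l 16657368) (l 16656648)))) (c (a (c (b (l 16657184) (l 16656824)) (b (l 16656472) (l 16656120))) (c (l 16658072) (b (l 16657544) (l 16657192)))) (b (a (c (l 16655760) (l 16655048)) (c (l 16656840) (l 16656136))) (a (c (a (l 16655144) (l 16655680)) (a (l 16654432) (l 16654976))) (c (a (l 16656224) (l 16656760)) (a (l 16655520) (l 16656056)))))))))), by decide +kernel⟩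

def k53_A00pm_123_s3 : ∃ t, chk3 f_A00pm_123_s3 t 113 255 5 = true :=
  ⟨(b (a (l 22) (a (l 22) (c (c (a (l 16657544) (l 16658656)) (l 22)) (l 22)))) (a (l 22) (b (c (a (l 22) (c (a (a (l 22) (l 16655768)) (l 16653976)) (l 22))) (l 22)) (c (c (c (a (l 22) (b (a (l 16654840) (l 16655936)) (a (a (l 22) (l 16654440)) (a (l 16654984) (l 16655528))))) (l 22)) (l 22)) (l 22))))), by decide +kernel⟩

def k54_A00pm_123_s3 : ∃ t, chk3 f_A00pm_123_s3 t 56 127 3 = true :=
  ⟨(b (c (a (a (c (l 22) (a (l 16474352) (l 22))) (l 22)) (l 22)) (a (a (c (l 16425232) (l 16365744)) (c (a (l 16456080) (l 22)) (l 16404904))) (c (l 22) (a (a (l 16436376) (l 16458432)) (l 22))))) (c (l 22) (c (a (a (a (l 16423688) (l 16528792)) (l 22)) (l 22)) (a (a (l 16372208) (b (l 16411408) (l 16500304))) (a (b (a (l 16444400) (l 22)) (l 22)) (l 22)))))), by decide +kernel⟩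

def k55_A00pm_123_s3 : ∃ t, chk3 f_A00pm_123_s3 t 57 126 2 = true :=
  ⟨(a (a (c (b (c (l 16674056) (l 16670168)) (a (c (l 16655784) (l 16652192)) (c (l 16658040) (l 16654488)))) (b (a (c (l 16654568) (l 16671568)) (c (l 16656968) (l 16673992))) (c (a (l 16659056) (l 16661392)) (a (l 22) (l 16657784))))) (c (b (a (l 16675624) (l 16677952)) (a (c (l 16660288) (l 16656768)) (c (l 16662528) (l 16659048)))) (b (c (a (l 16659344) (l 16661720)) (a (l 16676416) (l 16657848))) (a (c (l 16663712) (l 16660136)) (c (l 16666024) (l 16662488)))))) (a (c (b (a (l 16680264) (l 16682568)) (a (c (l 16664760) (l 16661312)) (c (l 16666984) (l 16663576)))) (b (a (b (l 16663720) (l 16671120)) (b (l 16666112) (l 16673472))) (a (c (l 16668328) (l 16664832)) (c (l 16670624) (l 16667160))))) (c (b (a (l 16684864) (l 16687144)) (a (c (l 16669192) (l 16665824)) (b (l 16671448) (l 16673280)))) (b (a (b (l 16668488) (l 16675824)) (b (l 16670856) (l 16667680))) (a (c (l 16672912) (l 16669488)) (c (l 16675192) (l 16671808))))))), by decide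 +kernel⟩

def k56_A00pm_123_s3 : ∃ t, chk3 f_A00pm_123_s3 t 114 254 2 = true :=
  ⟨(a (c (a (c (c (l 16660640) (l 16659008)) (b (l 16668552) (l 16655056))) (c (c (l 16662824) (l 16661208)) (b (l 16670800) (l 16657272)))) (c (a (b (l 16644208) (l 16651856)) (b (l 16656976) (l 16654112))) (a (l 22) (b (l 16653632) (a (l 22) (l 16651512)))))) (c (a (c (c (l 16664992) (l 16663400)) (b (l 16673032) (l 16659480))) (c (c (l 16661920) (l 16665584)) (c (l 16664008) (l 16662432)))) (a (c (b (l 16659256) (l 16656360)) (b (l 16655944) (b (l 16664384) (l 16652552)))) (c (b (l 16661520) (l 16658592)) (b (l 16658248) (b (l 16666664) (l 16654824))))))), by decide +kernel⟩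

def k57_A00pm_123_s3 : ∃ t, chk3 f_A00pm_123_s3 t 114 510 4 = true :=
  ⟨(a (a (c (b (a (l 16665848) (l 16666928)) (a (l 16664304) (l 16665376))) (b (l 16652840) (c (l 16662608) (l 16650632)))) (c (b (a (l 16668000) (l 16669072)) (a (l 16666440) (l 16667504))) (b (a (l 16664968) (l 16666064)) (a (l 16663496) (l 16664576))))) (a (c (b (a (l 16670144) (l 16671208)) (a (l 16668568) (l 16669624))) (c (b (l 16668440) (l 16666928)) (b (l 16666952) (l 16665480)))) (c (b (l 16672808) (a (l 16670688) (l 16671744))) (b (a (l 16669328) (l 16670416)) (a (l 16667824) (l 16668904)))))), by decide +kernel⟩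

def k58_A00pm_123_s3 : ∃ t, chk3 f_A00pm_123_s3 t 228 511 4 = true :=
  ⟨(b (c (a (a (c (l 16663496) (l 16662048)) (c (l 16664552) (l 16663112))) (a (c (l 16665608) (l 16664176)) (c (l 16666656) (l 16665240)))) (a (a (c (l 16660600) (l 16659144)) (c (l 16661672) (l 16660232))) (a (c (l 16662752) (l 16661320)) (c (l 16663824) (l 16662400))))) (c (a (a (c (a (l 16661696) (l 16662224)) (b (l 16660928) (c (l 16660528) (l 16659832)))) (c (a (l 16662744) (l 16663264)) (b (l 16661984) (c (l 16661584) (l 16660888))))) (a (a (c (l 16663792) (l 16662400)) (c (l 16664312) (l 16662928))) (a (c (l 16664832) (l 16663456)) (c (l 16665352) (l 16663984))))) (a (a (c (b (l 16659512) (a (l 16658520) (l 16659056))) (b (l 16655472) (a (a (l 16656984) (l 16657256)) (a (l 16657528) (l 16657792))))) (c (b (l 16660576) (c (l 16660200) (l 16659504))) (a (c (l 16658896) (l 16658200)) (c (l 16659440) (l 16658744))))) (a (c (b (l 16661648) (c (l 16661256) (l 16660576))) (b (l 16660248) (c (l 16659888) (b (l 16659376) (l 16659024)))))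 (c (b (l 16662712) (c (l 16662320) (l 16661640))) (b (l 16661328) (a (l 16660344) (l 16660880)))))))), by decide +kernel⟩

def k59_A00pm_123_s3 : ∃ t, chk3 f_A00pm_123_s3 t 229 511 4 = true :=
  ⟨(b (c (a (a (c (l 16667704) (l 16666296)) (c (l 16668752) (l 16667352))) (a (c (l 16669800) (l 16668408)) (c (l 16670840) (l 16669464)))) (a (a (c (l 16664888) (l 16663480)) (c (l 16665960) (l 16664560))) (a (c (l 16667024) (l 16665640)) (c (l 16668088) (l 16666712))))) (c (a (a (a (c (l 16665872) (l 16664504)) (c (l 16666392) (l 16665032))) (c (b (l 16667568) (l 16666776)) (b (l 16666200) (l 16665440)))) (a (c (b (l 16668608) (l 16667816)) (b (l 16667248) (l 16666480))) (c (l 16666624) (b (l 16668296) (l 16667528))))) (a (a (c (b (l 16663776) (c (l 16663376) (l 16662696))) (b (l 16662400) (c (l 16662024) (l 16661344)))) (c (b (l 16664840) (c (l 16664432) (l 16663760))) (b (l 16663472) (c (l 16663088) (l 16662416))))) (a (c (a (l 16665264) (l 16665792)) (b (l 16664544) (c (l 16664152) (l 16663488)))) (c (a (l 16666320)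 (l 16666848)) (b (l 16665616) (c (l 16665216) (l 16664560)))))))), by decide +kernel⟩

def k60_A00pm_123_s3 : ∃ t, chk3 f_A00pm_123_s3 t 228 255 5 = true :=
  ⟨(b (c (a (a (c (l 16659768) (l 22)) (c (l 16660880) (l 16659368))) (b (b (l 16652344) (l 16651648)) (a (l 16650056) (l 16651160)))) (c (a (l 22) (a (l 22) (l 16649624))) (l 22))) (b (a (c (a (c (l 16657696) (l 22)) (c (l 16658792) (a (l 16657072) (l 16657624)))) (l 22)) (c (a (c (l 16659888) (a (l 16658176) (l 16658736))) (c (l 16660984) (l 16659560))) (a (l 22) (a (l 22) (c (l 16658416) (l 22)))))) (a (a (c (c (b (c (l 16657024) (l 16656320)) (a (c (l 16656072) (l 16655376)) (c (l 16656616) (l 16655920)))) (l 22)) (l 22)) (c (b (c (c (l 16658112) (l 16657408)) (c (l 16656704) (l 22))) (c (a (c (l 16657160) (l 16656464)) (c (l 16657696) (l 16657008))) (c (a (l 16655768) (l 16656320)) (l 22)))) (l 22))) (c (b (c (a (c (l 16659200) (l 16658504)) (c (l 16660288) (l 16659592))) (a (c (l 16657808) (l 16657104)) (c (l 16658904) (l 16658208)))) (b (a (c (c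 (l 16658680) (l 16657992)) (c (l 16657304) (l 16656616))) (c (c (l 16659768) (l 16659080)) (c (l 16658392) (l 16657712)))) (a (c (c (a (l 16658072) (l 16658608)) (a (l 16657384) (l 16657928))) (c (a (l 16656696) (l 16657240)) (a (l 22) (l 16656560)))) (c (c (l 16659416) (a (l 16658472) (l 16659008))) (c (a (l 16657792) (l 16658336)) (a (l 16657112) (l 16657656))))))) (a (l 22) (c (a (l 22) (a (l 22) (a (l 22) (c (l 16657672) (l 22))))) (l 22))))))), by decide +kernel⟩

def k61_A00pm_123_s3 : ∃ t, chk3 f_A00pm_123_s3 t 229 510 5 = true :=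
  ⟨(a (a (c (b (l 16664152) (l 16652264)) (c (l 16661232) (l 22))) (c (b (l 16665264) (l 16653368)) (c (l 16662352) (l 22)))) (c (b (l 16656440) (a (l 16654472) (l 16663432))) (c (a (l 16663472) (l 16664592)) (a (l 16651520) (l 16652648))))), by decide +kernel⟩

def k62_A00pm_123_s3 : ∃ t, chk3 f_A00pm_123_s3 t 229 1022 5 = true :=
  ⟨(a (c (a (c (l 16662072) (l 16660664)) (c (l 16663160) (l 16661760))) (c (b (a (l 16659576) (l 16660688)) (a (l 16658920) (l 16660032))) (l 22))) (c (c (a (l 16664248) (l 16665336)) (a (l 16662856) (l 16663952))) (a (b (c (l 16661800) (l 16660400)) (c (l 16661136) (l 16659760))) (c (l 16662576) (a (l 16660912) (l 16661472)))))), by decide +kernel⟩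

def k63_A00pm_123_s3 : ∃ t, chk3 f_A00pm_123_s3 t 229 1023 5 = true :=
  ⟨(a (c (b (c (a (l 16661024) (l 16662112)) (a (c (l 16659992) (l 16659304)) (c (l 16661088) (l 16660400)))) (c (a (a (a (l 16659928) (l 16660200)) (a (l 16660472) (l 16660736))) (c (b (l 16661920) (l 16661576)) (b (l 16661248) (l 16660904)))) (b (a (c (l 16659488) (l 16658808)) (c (l 16660576) (l 16659904))) (a (c (a (l 16658880) (l 16659424)) (a (l 16658200) (l 16658752))) (c (a (l 16659968) (l 16660512)) (a (l 16659296) (l 16659840))))))) (a (c (c (b (l 16658616) (a (l 16657688) (l 16658240))) (l 22)) (l 22)) (c (b (c (l 16659720) (l 16659040)) (a (b (l 16658616) (c (l 16658624) (l 16657960))) (c (l 16659336) (l 16658672)))) (l 22)))) (b (a (c (c (l 16663192) (c (l 16662176) (l 16661496))) (c (c (l 16660824) (l 16660144)) (c (l 16659464) (l 22)))) (c (c (l 16664272) (c (l 16663264) (l 16662592))) (c (c (l 16661920) (l 16661248)) (c (l 16660576) (l 16659904))))) (c (a (c (a (l 16662224) (l 16662760)) (a (a (l 16660752) (l 16661024))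 (a (l 16661296) (l 16661568)))) (a (c (l 16663296) (b (l 16662144) (l 16661808))) (c (l 16663840) (b (l 16662688) (l 16662352))))) (a (c (a (c (l 16659888) (l 16659224)) (c (l 16660432) (l 16659768))) (c (b (l 16658984) (a (l 22) (l 16658952))) (l 22))) (a (c (c (l 16660984) (l 16660320)) (c (l 16659656) (l 22))) (c (c (l 16661528) (l 16660872)) (b (l 16660040) (c (l 16660056) (l 16659400))))))))), by decide +kernel⟩

def k64_A00pm_123_s3 : ∃ t, chk3 f_A00pm_123_s3 t 115 254 2 = true :=
  ⟨(a (c (a (c (a (l 16662760) (l 16663840)) (c (l 16666208) (l 16664648))) (c (a (l 16664920) (l 16665992)) (c (l 16668392) (l 16666856)))) (a (c (b (l 16674272) (l 16660824)) (b (l 16660552) (b (l 16668944) (l 16657088)))) (c (b (l 16676520) (l 16663048)) (b (l 16662840) (b (l 16671216) (l 16659344)))))) (c (a (c (a (l 16667072) (l 16668144)) (c (l 16665328) (l 16669056))) (c (a (l 16669216) (l 16670280)) (c (l 16667504) (l 16671248)))) (a (c (b (l 16678768) (l 16665264)) (b (l 16665120) (b (l 16673480) (l 16661592)))) (c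 (c (l 16669744) (l 16668232)) (b (l 16667400) (b (l 16675736) (l 16663832))))))), by decide +kernel⟩

def k65_A00pm_123_s3 : ∃ t, chk3 f_A00pm_123_s3 t 230 255 4 = true :=
  ⟨(b (a (c (b (l 16674936) (a (l 16672792) (l 16673848))) (b (a (l 16671496) (l 16672576)) (a (l 16669976) (l 16671048)))) (a (c (l 16670464) (b (l 16673656) (l 16672120))) (c (l 16676760) (b (l 16674736) (l 16673192))))) (a (b (c (a (c (l 16671880) (l 16670520)) (l 16669624)) (a (c (l 16669152) (l 16667784)) (c (l 16670216) (l 16668856)))) (c (a (c (l 16670280) (b (l 16669344) (l 16668568))) (c (l 16671312) (b (l 16670392) (l 16669608)))) (a (a (b (l 16667080) (c (l 16667000) (l 16665688))) (c (l 16667904) (l 16663960))) (a (c (l 16668424) (l 16667112)) (c (l 16668952) (l 16667648)))))) (b (c (a (l 16673288) (l 16674328)) (a (c (l 16671272) (l 16669928)) (c (l 16672328) (l 16670992)))) (c (a (c (l 16672336) (b (l 16671432) (l 16670648))) (c (l 16673368) (l 16672080))) (a (a (c (l 16669480) (l 16668176)) (c (l 16670008) (l 16668712)))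 (a (c (l 16670528) (l 16669240)) (c (l 16671056) (l 16669768)))))))), by decide +kernel⟩

def k66_A00pm_123_s3 : ∃ t, chk3 f_A00pm_123_s3 t 231 255 4 = true :=
  ⟨(b (a (a (c (l 16677816) (b (l 16675816) (l 16674264))) (c (l 16678864) (b (l 16676888) (l 16675328)))) (a (c (l 16679912) (b (l 16677960) (l 16676392))) (c (l 16680960) (b (l 16679032) (l 16677456))))) (a (b (c (a (l 16675368) (l 16676408)) (a (c (l 16673384) (l 16672064)) (c (l 16674440) (l 16673128)))) (c (a (c (l 16674392) (l 16673112)) (c (l 16675416) (l 16674152))) (a (c (b (l 16672224) (l 16671456)) (b (l 16670936) (l 16670192))) (c (b (l 16673272) (l 16672496)) (b (l 16671992) (l 16671248)))))) (b (c (a (l 16677440) (l 16678480)) (a (c (l 16675496) (l 16674192)) (c (l 16676544) (l 16675256)))) (c (a (c (l 16676440) (l 16675184)) (c (l 16677464) (l 16676216))) (a (c (b (l 16674320) (l 16673544)) (b (l 16673056) (l 16672296))) (c (l 16674976) (b (l 16674112) (l 16673352)))))))), by decide +kernel⟩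

def k67_A00pm_123_s3 : ∃ t, chk3 f_A00pm_123_s3 t 230 510 5 = true :=
  ⟨(a (a (c (b (l 16668584) (l 16667152)) (c (l 16665704) (l 16653776))) (c (b (l 16669680) (l 16668248)) (c (l 16666816) (l 16665384)))) (c (b (a (l 16670784) (l 16671880)) (a (l 16669336) (l 16670432))) (a (c (l 16667928) (l 16666512)) (c (l 16669040) (l 16667632))))), by decide +kernel⟩

def k68_A00pm_123_s3 : ∃ t, chk3 f_A00pm_123_s3 t 230 1022 5 = true :=
  ⟨(c (a (a (c (l 16666416) (l 16665048)) (c (l 16667504) (l 16666144))) (a (c (l 16668584) (l 16667232)) (c (l 16669656) (l 16668320)))) (c (a (a (l 16663680) (l 16664784)) (a (l 16665888) (l 16666984))) (a (b (a (l 16662632) (l 16663752)) (a (l 16661992) (l 16663104))) (a (a (l 16664256) (l 16664816)) (l 16663024))))), by decide +kernel⟩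

def k69_A00pm_123_s3 : ∃ t, chk3 f_A00pm_123_s3 t 230 1023 5 = true :=
  ⟨(c (a (a (b (c (l 16665352) (l 16664016)) (c (c (l 16664968) (l 16664312)) (c (b (l 16663832) (l 16663488)) (b (l 16663176) (l 16662832))))) (b (c (l 16666424) (l 16665104)) (c (c (l 16666040) (l 16665392)) (c (l 16664744) (b (l 16664264) (l 16663920)))))) (a (b (c (l 16667504) (l 16666192)) (a (c (l 16666520) (l 16665232)) (c (l 16667056) (l 16665768)))) (b (c (l 16668576) (l 16667272)) (c (c (l 16668176) (l 16667536)) (c (l 16666896) (l 16666256)))))) (a (b (a (c (c (l 16663016) (l 16662352)) (c (l 16661680) (l 16661016))) (c (c (l 16664112) (l 16663448)) (c (l 16662792) (l 16662128)))) (b (a (c (c (l 16662520) (l 16661856)) (c (l 16661200) (l 16660544))) (c (c (l 16663608) (l 16662960)) (c (l 16662304) (l 16661648)))) (a (c (c (a (l 16661912) (l 16662456)) (a (l 16661256) (l 16661808))) (c (a (l 16660608) (l 16661160)) (a (l 16659952) (l 16660504)))) (c (c (a (l 16663000) (l 16663552)) (a (l 16662352) (l 16662904))) (c (a (l 16661704)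 (l 16662256)) (a (l 16661056) (l 16661616))))))) (b (c (a (c (l 16665208) (l 16664552)) (l 16665976)) (a (c (l 16663896) (l 16663240)) (c (l 16665000) (l 16664344)))) (c (a (a (a (l 16663800) (l 16664072)) (a (l 16664344) (l 16664624))) (c (b (l 16665792) (l 16665456)) (b (l 16665152) (l 16664816)))) (b (a (c (l 16663408) (l 16662760)) (c (l 16664504) (l 16663864))) (a (c (a (l 16662808) (l 16663360)) (a (l 16662168) (l 16662720))) (c (a (l 16663904) (l 16664456)) (a (l 16663272) (l 16663824))))))))), by decide +kernel⟩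

def k70_A00pm_123_s3 : ∃ t, chk3 f_A00pm_123_s3 t 231 255 5 = true :=
  ⟨(b (a (c (b (a (l 16672976) (l 16674072)) (a (l 16671520) (l 16672608))) (a (b (l 16670136) (l 16658288)) (a (l 16659800) (l 16660360)))) (c (b (a (l 16675168) (l 16676264)) (a (l 16673696) (l 16674776))) (a (a (l 16660912) (l 16661464)) (c (l 16673472) (l 16672104))))) (b (c (a (a (c (l 16670736) (l 16669408)) (c (l 16671816) (l 16670496))) (a (c (l 16672888) (l 16671584)) (c (l 16673960) (l 16672664)))) (a (c (a (l 16668088) (l 16669184)) (a (l 16666760) (l 16667864))) (a (c (l 16670280) (l 16668976)) (c (l 16671376) (l 16670080))))) (c (a (a (b (c (l 16669648) (l 16668360)) (c (c (l 16669240) (l 16668608)) (c (l 16667976) (l 16667344)))) (c (a (l 16670088) (l 16670624)) (b (l 16669440) (c (l 16669048) (l 16668424))))) (a (c (a (l 16671152) (l 16671688)) (b (l 16670520) (c (l 16670120) (l 16669504)))) (c (a (l 16672224) (l 16672752)) (b (l 16671592) (c (l 16671192) (l 16670576)))))) (a (c (a (b (l 16667064) (c (l 16666712) (b (l 16666240)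 (l 16665912)))) (b (l 16668160) (a (l 16667208) (l 16667752)))) (b (a (c (l 16666096) (l 16665456)) (c (l 16667200) (l 16666560))) (a (a (a (l 16664712) (l 16664992)) (a (l 16665264) (l 16665536))) (a (a (l 16665816) (l 16666088)) (a (l 16666360) (l 16666640)))))) (a (b (c (l 16669248) (c (l 16668296) (l 16667664))) (c (c (l 16668880) (l 16668256)) (a (a (l 16666912) (l 16667184)) (a (l 16667464) (l 16667736))))) (b (c (l 16670336) (l 16669080)) (c (c (l 16669960) (l 16669344)) (c (b (l 16668896) (l 16668560)) (b (l 16668272) (l 16667952)))))))))), by decide +kernel⟩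

def k71_A00pm_123_s3 : ∃ t, chk3 f_A00pm_123_s3 t 57 126 3 = true :=
  ⟨(a (b (c (a (c (a (l 16667560) (l 16670016)) (a (l 16630496) (l 16655880))) (c (a (l 16672472) (l 16674912)) (a (l 16668496) (l 16670968)))) (a (c (a (l 16566768) (l 16590824)) (a (l 16503296) (l 16526040))) (c (a (l 16615840) (l 16641856)) (a (l 16549704) (l 16574320))))) (l 22)) (b (a (c (c (a (l 16677344) (l 16679768)) (a (l 16673432) (l 16675888))) (c (a (l 16668928) (l 16671976)) (a (l 16599944) (l 16626616)))) (c (c (a (l 16661216) (l 16663616)) (a (l 16678344) (l 16680784))) (c (a (l 16674464) (l 16676936)) (a (l 16654408) (l 16673048))))) (c (a (c (a (l 16661304) (l 16663680)) (l 22)) (c (a (l 16666040) (l 16668392)) (a (l 22) (c (l 16655328) (l 22))))) (l 22)))), by decide +kernel⟩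

def k72_A00pm_123_s3 : ∃ t, chk3 f_A00pm_123_s3 t 114 127 3 = true :=
  ⟨(l 22), by decide +kernel⟩

def k73_A00pm_123_s3 : ∃ t, chk3 f_A00pm_123_s3 t 115 254 3 = true :=
  ⟨(c (a (c (a (b (l 16657296) (b (l 16655344) (l 16654064))) (b (l 16659624) (b (l 16657656) (l 16656360)))) (l 22)) (a (c (b (l 16661952) (b (l 16659960) (l 16658656))) (l 22)) (c (b (l 16664264) (a (l 16661024) (l 16662168))) (b (l 16661112) (a (l 16658056) (l 16659216)))))) (l 22)), by decide +kernel⟩

def k74_A00pm_123_s3 : ∃ t, chk3 f_A00pm_123_s3 t 115 510 6 = true :=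
  ⟨(a (c (c (a (a (l 22) (l 16653472)) (a (l 16654600) (l 16655736))) (a (l 22) (a (l 22) (l 16654320)))) (l 22)) (a (a (c (c (l 16656864) (l 16655456)) (l 22)) (c (c (l 16657992) (l 16656600)) (l 22))) (a (c (c (l 16669608) (l 16657736)) (b (l 16656248) (c (l 16666232) (l 22)))) (c (c (l 16670728) (l 16658872)) (b (l 16657400) (c (l 16667376) (l 22))))))), by decide +kernel⟩

def k75_A00pm_123_s3 : ∃ t, chk3 f_A00pm_123_s3 t 230 511 6 = true :=
  ⟨(b (c (a (a (l 22) (c (a (l 16661784) (l 16662344)) (l 22))) (a (c (a (l 16662904) (l 16663472)) (l 22)) (b (c (l 16664624) (l 16663272)) (c (l 16663992) (l 16662664))))) (l 22)) (c (a (a (l 22) (c (c (b (l 16661464) (b (l 16661000) (a (l 16660416) (l 16660968)))) (l 22)) (l 22))) (b (a (c (c (l 16662584) (l 16661920)) (l 22)) (c (c (l 16663696) (l 16663040)) (c (l 16662392) (l 22)))) (a (c (a (b (l 16661512) (c (l 16661520) (l 16660880))) (b (l 16662064) (c (l 16662080) (l 16661440)))) (l 22)) (c (a (b (l 16662624) (c (l 16662632) (l 16662000))) (c (l 16663344)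 (l 16662704))) (a (l 22) (c (a (l 16661928) (l 16662208)) (l 22))))))) (l 22))), by decide +kernel⟩

def k76_A00pm_123_s3 : ∃ t, chk3 f_A00pm_123_s3 t 231 1022 6 = true :=
  ⟨(a (c (a (b (c (l 16665744) (l 16664400)) (c (l 16665112) (l 16663792))) (b (c (l 16666864) (l 16665536)) (c (l 16666232) (l 16664920)))) (l 22)) (c (a (b (c (l 16667984) (l 16666664)) (c (l 16667344) (l 16666048))) (c (l 16666160) (a (l 16667200) (l 16667768)))) (c (b (a (l 16665344) (l 16666480)) (a (l 16664752) (l 16665888))) (l 22)))), by decide +kernel⟩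

def k77_A00pm_123_s3 : ∃ t, chk3 f_A00pm_123_s3 t 231 1023 6 = true :=
  ⟨(a (c (b (a (c (c (l 16664808) (l 16664160)) (c (l 16663512) (l 16662872))) (c (c (l 16665920) (l 16665280)) (c (l 16664640) (l 16664000)))) (b (a (c (c (l 16664336) (l 16663696)) (c (a (l 16662784) (l 16663344)) (a (l 22) (l 16662704)))) (a (c (l 16664848) (l 16663584)) (c (l 16665408) (l 16664144)))) (a (c (c (a (l 16663744) (l 16664296)) (a (l 16663112) (l 16663672))) (c (a (l 16662480) (l 16663040)) (a (l 22) (l 16662408)))) (c (c (a (l 16664848) (l 16665400)) (a (l 16664224) (l 16664784))) (c (a (l 16663600) (l 16664160)) (a (l 16662976) (l 16663536))))))) (l 22)) (c (b (a (c (c (l 16667024) (l 16666392)) (c (l 16665760) (l 16665120))) (c (c (l 16668136) (l 16667504)) (c (l 16666880) (l 16666248)))) (b (a (c (c (l 16666552) (l 16665920)) (c (l 16665296) (l 16664672))) (c (c (l 16667656) (l 16667032)) (c (l 16666416) (l 16665792)))) (a (c (c (a (l 16665960) (l 16666512)) (a (l 16665336) (l 16665888))) (a (c (l 16664712) (l 16664096))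 (c (l 16665272) (l 16664656)))) (c (a (c (l 16667064) (l 16666448)) (c (l 16667616) (l 16667000))) (a (c (l 16665832) (l 16665216)) (c (l 16666392) (l 16665776))))))) (a (c (c (b (l 16664488) (b (a (l 16663768) (l 16664328)) (a (l 16663472) (l 16664040)))) (l 22)) (l 22)) (c (b (c (l 16665616) (l 16664984)) (c (b (a (l 16664896) (l 16665456)) (a (l 16664600) (l 16665160))) (a (l 22) (b (l 16664840) (l 16664552))))) (l 22))))), by decide +kernel⟩

def k78_A00pm_123_s3 : ∃ t, chk3 f_A00pm_123_s3 t 115 255 7 = true :=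
  ⟨(l 22), by decide +kernel⟩

def k79_A00pm_123_s3 : ∃ t, chk3 f_A00pm_123_s3 t 116 28 1 = true :=
  ⟨(b (c (b (a (l 16646592) (a (l 16699216) (b (c (l 16722168) (l 16688288)) (l 16707544)))) (a (l 16692176) (c (l 16727544) (l 16688120)))) (b (a (c (l 16635088) (l 16599008)) (a (l 16648752) (b (c (l 16653600) (l 16618144)) (l 16634128)))) (a (l 16612584) (c (l 16648208) (l 16607832))))) (c (a (b (l 16697904) (l 16706016)) (b (l 16715296) (l 16725360))) (a (b (l 16609312) (l 16607424)) (b (c (l 16648576) (l 16603744)) (l 16667864))))), by decide +kernel⟩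

def k80_A00pm_123_s3 : ∃ t, chk3 f_A00pm_123_s3 t 117 56 1 = true :=
  ⟨(b (a (b (b (c (c (l 16729880) (l 16698920)) (a (a (l 16652288) (l 16645376)) (l 16650768))) (c (a (l 16671016) (c (l 16729648) (b (l 16702920) (l 16703240)))) (a (a (l 16640904) (l 16644544)) (c (b (l 16668048) (l 16667920)) (b (l 16632120) (l 16652528)))))) (c (c (l 16730032) (l 16700672)) (a (l 16662560) (c (l 16667816) (l 16630208))))) (b (c (a (c (l 16731560) (l 16710208)) (l 16692464)) (c (a (l 16675504) (l 16682848)) (a (l 16639640) (l 16646984)))) (c (a (c (b (l 16730376) (l 16730904)) (b (a (l 16709504) (b (l 16713048) (l 16713552))) (l 16712608))) (b (c (l 16731440) (a (b (l 16716816) (l 16717328)) (l 16720784))) (c (l 16730968) (a (l 16718296) (b (l 16721648) (l 16722384)))))) (a (b (b (a (c (l 16673488) (l 16636576)) (c (l 16677288) (l 16640304))) (a (l 16654944) (c (l 16656344) (a (l 16638928) (l 16640824))))) (c (l 16675536) (l 16637344))) (b (c (a (b (l 16681056) (b (l 16681104) (a (l 16680200) (l 16682080)))) (l 16684840))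 (a (b (l 16644072) (a (b (l 16642824) (l 16642624)) (l 16644632))) (l 16647688))) (b (a (c (l 16681232) (l 16643304)) (c (b (l 16684984) (l 16685056)) (b (l 16647256) (l 16647088)))) (c (l 16683312) (l 16655384)))))))) (a (c (c (l 16731936) (b (l 16702840) (l 16705584))) (c (a (l 16660184) (l 16668280)) (a (l 16619576) (l 16627528)))) (c (c (a (l 16732592) (l 16732904)) (a (b (l 16714720) (l 16718072)) (b (l 16722568) (l 16726368)))) (a (b (c (l 16675976) (l 16636208)) (c (l 16677016) (l 16635032))) (b (c (b (l 16683664) (l 16684232)) (b (l 16665416) (l 16643920))) (c (l 16685360) (l 16643336))))))), by decide +kernel⟩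

def k81_A00pm_123_s3 : ∃ t, chk3 f_A00pm_123_s3 t 117 57 1 = true :=
  ⟨(a (c (b (c (l 16734152) (l 16710840)) (c (l 16735800) (l 16720216))) (b (c (l 16666120) (l 16620864)) (c (l 16670152) (l 16619760)))) (c (b (a (c (l 16734976) (l 16724328)) (c (l 16735656) (l 16733376))) (a (l 16737592) (c (l 16737840) (l 16739856)))) (b (a (c (l 16679544) (l 16634016)) (c (l 16688552) (b (l 16642928) (l 16642968)))) (a (c (l 16684992) (l 16634208)) (c (l 16695032) (l 16644000)))))), by decide +kernel⟩

def k82_A00pm_123_s3 : ∃ t, chk3 f_A00pm_123_s3 t 58 29 1 = true :=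
  ⟨(a (c (b (a (b (l 16717056) (l 16731664)) (c (l 16735688) (l 16717464))) (a (b (l 16731816) (c (l 16733688) (l 16728520))) (b (l 16734400) (c (l 16736120) (l 16731680))))) (b (a (b (l 16607312) (l 16609448)) (b (l 16627680) (l 16673936))) (a (b (l 16677320) (c (l 16660488) (l 16585496))) (b (c (l 16673936) (l 16605208)) (c (l 16689416) (l 16612712)))))) (c (a (b (b (l 16694856) (l 16726520)) (b (a (l 16736296) (l 16737528)) (c (l 16696512) (l 16734768)))) (b (a (b (l 16738352) (l 16738704)) (b (l 16739952) (l 16740672))) (a (b (l 16738744) (l 16738600)) (b (l 16741096) (c (l 16742688) (l 16739952)))))) (a (b (b (c (l 16676824) (l 16620656)) (c (l 16686760) (l 16624088))) (b (c (l 16700728) (l 16630688)) (c (l 16719648) (l 16641248)))) (b (a (b (l 16665008) (l 16673528)) (b (c (l 16704608) (l 16647512)) (c (l 16718008) (l 16654040)))) (a (b (l 16685976) (c (l 16733904) (l 16663528))) (b (c (l 16736096) (l 16664328)) (c (l 16737208) (l 16679280)))))))), by decide +kernel⟩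

def k83_A00pm_123_s3 : ∃ t, chk3 f_A00pm_123_s3 t 118 112 1 = true :=
  ⟨(a (c (b (l 16736672) (a (b (l 16734624) (c (l 16731560) (b (l 16727320) (a (l 16726096) (l 16729904))))) (l 16693184))) (b (l 16676128) (c (a (b (l 16690496) (b (l 16690760) (a (b (l 16668008) (l 16689104)) (l 16692904)))) (l 16698304)) (a (b (l 16653424) (b (l 16652992) (a (b (l 16661320) (l 16650704)) (l 16665184)))) (l 16660896))))) (c (b (l 16738720) (l 16736720)) (b (l 16690960) (a (l 16687464) (l 16695208))))), by decide +kernel⟩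

def k84_A00pm_123_s3 : ∃ t, chk3 f_A00pm_123_s3 t 118 113 2 = true :=
  ⟨(a (b (b (a (c (l 16731448) (a (l 16727408) (l 16731160))) (c (b (l 16731776) (l 16731520)) (b (l 16694344) (a (l 16735432) (l 16736032))))) (c (l 16732168) (a (l 16731264) (l 16736512)))) (c (l 16733832) (l 16737800))) (b (b (c (l 16733168) (l 16737376)) (a (c (b (l 16732008) (l 16731952)) (b (a (l 16736080) (l 16736392)) (a (l 16736408) (l 16736168)))) (c (l 16732856) (l 16736992)))) (a (c (l 16733536) (l 16737544)) (b (c (b (l 16732336) (l 16732624)) (b (a (l 16736328) (l 16736504)) (l 16736672))) (l 16735664))))), by decide +kernel⟩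

def k85_A00pm_123_s3 : ∃ t, chk3 f_A00pm_123_s3 t 118 113 3 = true :=
  ⟨(a (b (b (a (c (a (l 16689488) (b (b (l 16693104) (l 16693280)) (l 16693560))) (a (l 16650392) (b (b (l 16654528) (l 16654424)) (l 16654288)))) (b (b (c (l 16698960) (l 16660488)) (a (c (l 16676192) (a (l 16657416) (l 16659408))) (l 16671408))) (a (c (l 16697456) (l 16658296)) (c (b (l 16701288) (l 16680520)) (b (l 16662352) (a (l 16661288) (l 16663304))))))) (a (c (l 16692200) (l 16652016)) (c (l 16700160) (l 16670648)))) (c (a (l 16693640) (l 16701912)) (a (l 16651688) (l 16660096)))) (b (b (a (c (l 16707128) (l 16668408)) (l 16695904)) (b (c (a (a (b (l 16684728) (l 16705952)) (l 16709840)) (l 16715880)) (a (a (b (a (l 16665296) (l 16667336)) (l 16666296)) (l 16670392)) (l 16676544))) (a (a (c (l 16706416) (l 16666296)) (c (b (a (l 16709232) (l 16711240)) (l 16710560)) (b (a (l 16669376) (l 16671432)) (l 16670424)))) (a (c (b (l 16714288) (l 16693624)) (c (l 16684632) (l 16664400))) (l 16677768))))) (a (c (b (l 16709432) (l 16710944))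 (b (l 16668440) (l 16668672))) (b (b (a (c (c (l 16725048) (l 16705096)) (a (l 16673608) (b (l 16675656) (l 16675728)))) (c (b (l 16719008) (a (l 16718328) (l 16720384))) (b (l 16678792) (a (l 16677816) (l 16679920))))) (c (a (l 16715912) (l 16698992)) (a (l 16674800) (a (l 16677960) (l 16680064))))) (c (l 16719280) (l 16677232)))))), by decide +kernel⟩

def k86_A00pm_123_s3 : ∃ t, chk3 f_A00pm_123_s3 t 119 56 1 = true :=
  ⟨(b (a (c (l 16739952) (l 16685296)) (c (l 16742304) (l 16721344))) (c (a (a (b (l 16736392) (a (b (c (l 16732848) (b (l 16736864) (l 16736584))) (l 16735208)) (b (l 16735160) (c (l 16732984) (b (l 16726208) (l 16737160)))))) (b (l 16737584) (b (l 16736072) (a (b (l 16735064) (c (l 16733016) (l 16736832))) (c (l 16733656) (l 16737400)))))) (b (l 16739424) (c (l 16735752) (l 16739216)))) (c (a (b (l 16727624) (b (a (b (l 16725368) (a (b (l 16723872) (a (l 16723240) (l 16725296))) (l 16728224))) (l 16734056)) (a (b (a (l 16724984) (b (a (l 16727808) (l 16729904)) (a (l 16728312) (l 16730360))))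 (l 16728072)) (b (l 16714448) (a (b (a (l 16732952) (l 16735056)) (l 16734544)) (c (l 16740128) (l 16728184))))))) (b (l 16743568) (b (l 16743408) (l 16700520)))) (a (b (l 16688800) (b (a (b (l 16685128) (a (b (l 16685800) (a (l 16682232) (l 16684352))) (l 16687480))) (l 16693704)) (a (b (a (l 16683504) (b (a (b (l 16686584) (l 16686656)) (l 16688760)) (c (l 16698320) (l 16677312)))) (l 16685984)) (b (a (l 16692072) (l 16696368)) (a (b (a (l 16691256) (l 16693424)) (l 16689928)) (a (c (l 16706232) (l 16685096)) (l 16697872))))))) (b (l 16705184) (a (l 16702608) (l 16711168))))))), by decide +kernel⟩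

def k87_A00pm_123_s3 : ∃ t, chk3 f_A00pm_123_s3 t 118 57 1 = true :=
  ⟨(c (b (a (c (l 16736600) (b (l 16739192) (l 16740432))) (c (l 16737072) (b (l 16739432) (l 16741376)))) (a (c (l 16739784) (l 16742024)) (c (l 16741584) (l 16744040)))) (b (a (b (c (l 16700448) (l 16656040)) (c (l 16703776) (l 16656712))) (b (c (a (l 16713552) (l 16722256)) (a (l 16669280) (l 16678144))) (c (l 16722296) (l 16685744)))) (a (b (c (l 16707856) (l 16657968)) (l 16686392)) (b (c (l 16727552) (l 16677504)) (c (l 16733760) (l 16680520)))))), by decide +kernel⟩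

def k88_A00pm_123_s3 : ∃ t, chk3 f_A00pm_123_s3 t 119 57 2 = true :=
  ⟨(b (b (b (a (a (l 16736440) (c (l 16733816) (a (l 16737816) (b (l 16737024) (l 16737776))))) (a (b (c (l 16733944) (a (l 16737240) (l 16737648))) (c (a (l 16733640) (l 16712808)) (a (l 16737264) (b (l 16737328) (l 16737216))))) (l 16736552))) (a (c (l 16735840) (l 16739352)) (a (c (l 16734704) (l 16738192)) (b (a (c (l 16723520) (b (l 16737456) (l 16737376))) (l 16736080)) (a (l 16736176) (c (c (l 16712472) (l 16724584)) (b (l 16737576) (l 16737584)))))))) (a (c (l 16738112) (l 16741328)) (c (l 16737032) (a (l 16740632) (l 16739832))))) (a (c (l 16742440) (b (l 16743840) (l 16746224))) (c (b (l 16740576) (l 16744024)) (b (l 16738224) (l 16746552))))), by decide +kernel⟩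

def k89_A00pm_123_s3 : ∃ t, chk3 f_A00pm_123_s3 t 119 114 3 = true :=
  ⟨(b (a (a (c (l 16709936) (b (l 16686576) (l 16687520))) (b (a (c (l 16736064) (l 16693152)) (b (b (c (a (l 16738256) (l 16719384)) (a (l 16696032) (b (l 16698152) (l 16698272)))) (c (l 16739936) (l 16697392))) (c (l 16740920) (l 16697816)))) (c (l 16740832) (l 16696504)))) (b (b (c (a (a (b (l 16741136) (a (c (l 16739896) (l 16732560)) (l 16741032))) (l 16741480)) (l 16742224)) (a (a (b (l 16701504) (a (b (l 16700592) (l 16700728)) (l 16702864))) (l 16706040)) (l 16712648))) (a (a (c (a (l 16741336) (b (l 16719968) (l 16741256))) (a (l 16701112) (b (c (l 16713912) (l 16692320)) (l 16703472)))) (c (b (l 16741176) (a (l 16740984) (l 16741056))) (c (b (l 16717216) (a (l 16716504) (l 16718712))) (b (l 16695672) (a (l 16694776) (l 16697016)))))) (c (l 16741720) (l 16713312)))) (a (c (a (l 16742248) (c (l 16740744) (l 16740672))) (a (l 16703232) (a (l 16706584) (b (c (l 16719368) (l 16697408)) (l 16709216))))) (b (c (a (b (c (l 16740240)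 (l 16721216)) (a (l 16741144) (c (l 16740128) (l 16742056)))) (l 16741456)) (a (b (a (b (l 16710376) (a (l 16709984) (l 16711104))) (l 16712704)) (a (l 16710832) (b (l 16702488) (a (l 16712600) (l 16713720))))) (l 16716264))) (a (c (l 16741608) (l 16712576)) (c (b (a (c (l 16740160) (l 16742064)) (l 16741232)) (a (l 16741376) (c (l 16740208) (l 16742088)))) (b (a (b (a (l 16704552) (l 16716168)) (a (l 16715256) (l 16705888))) (l 16717976)) (a (l 16716152) (b (a (l 16707232) (l 16718848)) (a (l 16717952) (l 16708584))))))))))) (a (c (a (l 16736120) (l 16744640)) (a (l 16689264) (l 16698616))) (c (a (c (l 16743216) (l 16742800)) (c (l 16742408) (l 16744200))) (a (b (l 16707064) (l 16708872)) (b (a (l 16713936) (l 16708008)) (l 16707800)))))), by decide +kernel⟩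

def k90_A00pm_123_s3 : ∃ t, chk3 f_A00pm_123_s3 t 119 115 3 = true :=
  ⟨(a (b (c (l 16725920) (a (l 16692280) (l 16702152))) (c (l 16748840) (l 16701384))) (b (c (a (l 16746768) (l 16746328)) (a (l 16712024) (b (l 16720600) (l 16723168)))) (c (a (l 16749288) (l 16749224)) (a (l 16717096) (l 16727544))))), by decide +kernel⟩

def k91_A00pm_123_s3 : ∃ t, chk3 f_A00pm_123_s3 t 59 29 1 = true :=
  ⟨(a (b (c (b (a (c (l 16742488) (l 16743672)) (c (l 16745624) (l 16747136))) (a (l 16744840) (c (l 16749288) (l 16749816)))) (b (a (c (l 16721888) (l 16664152)) (c (l 16745128) (b (l 16684400) (l 16689240)))) (a (c (l 16737856) (l 16672912)) (c (l 16750456) (l 16698584))))) (c (b (a (l 16746312) (c (l 16752680) (l 16752176))) (a (c (l 16748712) (l 16746504)) (c (l 16755904) (l 16754344)))) (b (a (c (l 16744808) (l 16685960)) (c (l 16751744) (l 16715512))) (a (c (l 16744296) (l 16704344)) (c (l 16752808) (b (l 16732224) (l 16745648))))))) (c (b (a (b (c (l 16747816) (l 16749592)) (c (l 16752816) (l 16753720))) (b (c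 (l 16749016) (b (l 16749528) (l 16752400))) (c (l 16755352) (a (l 16755944) (l 16757096))))) (a (b (c (l 16757552) (l 16757536)) (c (l 16762128) (l 16761160))) (b (c (l 16761432) (l 16751344)) (c (l 16767352) (a (l 16765568) (l 16768168)))))) (b (b (a (c (b (l 16750664) (l 16752368)) (b (l 16706568) (l 16712864))) (c (b (l 16751880) (l 16754352)) (a (b (l 16723280) (l 16730712)) (b (l 16734424) (l 16742632))))) (a (c (a (l 16753768) (l 16755640)) (a (l 16718152) (l 16731312))) (c (a (l 16757216) (l 16758504)) (a (l 16744536) (b (l 16752320) (l 16761056)))))) (a (b (c (l 16747120) (a (l 16738136) (l 16753408))) (c (a (l 16758472) (l 16761904)) (a (l 16757424) (l 16761152)))) (b (c (a (l 16761248) (l 16763312)) (a (l 16761728) (b (l 16763032) (l 16764928)))) (c (a (l 16765048) (l 16767904)) (a (b (l 16763872) (l 16765248)) (b (l 16766776) (l 16768576))))))))), by decide +kernel⟩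

def k92_A00pm_123_s3 : ∃ t, chk3 f_A00pm_123_s3 t 116 60 1 = true :=
  ⟨(c (a (b (c (l 16733400) (l 16727224)) (c (l 16733208) (l 16715488))) (b (c (l 16736096) (l 16730560)) (c (l 16736160) (a (l 16728624) (l 16730344))))) (a (b (c (l 16677656) (l 16594056)) (c (a (l 16691848) (l 16709944)) (a (l 16599136) (l 16615896)))) (b (c (l 16710352) (l 16666536)) (c (a (l 16721624) (l 16723640)) (a (l 16633136) (l 16650864)))))), by decide +kernel⟩

def k93_A00pm_123_s3 : ∃ t, chk3 f_A00pm_123_s3 t 116 61 1 = true :=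
  ⟨(c (a (a (b (c (l 16711480) (l 16723984)) (c (b (l 16711680) (c (l 16714392) (l 16709528))) (b (l 16723344) (c (l 16715064) (b (l 16720624) (l 16699464)))))) (b (c (l 16713120) (l 16725856)) (c (b (l 16713432) (l 16724256)) (b (l 16725272) (c (l 16706512) (l 16701576)))))) (a (b (c (l 16714728) (l 16727688)) (c (b (l 16694168) (l 16726032)) (b (l 16727176) (c (l 16708408) (l 16703560))))) (b (c (l 16716304) (l 16729496)) (c (b (l 16695840) (l 16717288)) (b (l 16708072) (b (l 16707928) (l 16718360))))))) (b (a (c (b (l 16695880) (a (l 16714752) (l 16716856))) (b (a (l 16612200) (l 16630616)) (a (l 16623056) (l 16642704)))) (c (b (a (l 16719960) (l 16722000)) (a (l 16718928) (l 16720984))) (b (a (l 16649584) (l 16669128)) (a (l 16662968) (l 16683880))))) (a (c (b (a (c (l 16716184) (l 16711320)) (c (l 16718256) (l 16713488))) (a (c (b (l 16715608) (l 16715272)) (b (l 16710520) (a (l 16709480) (l 16710576)))) (c (l 16717536) (b (l 16712696) (l 16712208))))) (b (a (c (l 16663912) (l 16607928)) (c (l 16685408)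 (l 16628448))) (a (a (b (l 16683400) (c (l 16679384) (l 16619472))) (c (l 16686272) (l 16668624))) (a (c (l 16697792) (l 16679608)) (c (l 16707864) (l 16648832)))))) (c (b (a (c (l 16720296) (l 16715632)) (l 16709560)) (a (c (l 16719608) (b (l 16714848) (l 16714368))) (c (l 16700680) (l 16716744)))) (b (a (c (l 16707600) (l 16649640)) (c (l 16713128) (l 16671544))) (a (a (c (l 16708984) (l 16660184)) (c (l 16710104) (l 16671744))) (a (c (l 16711216) (l 16683496)) (c (l 16712320) (l 16695448))))))))), by decide +kernel⟩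

def k94_A00pm_123_s3 : ∃ t, chk3 f_A00pm_123_s3 t 117 30 2 = true :=
  ⟨(b (a (b (c (l 16696736) (l 16733800)) (c (l 16728512) (a (l 16732048) (l 16733720)))) (a (b (b (l 16696480) (l 16738320)) (c (l 16741056) (l 16735368))) (b (c (l 16701528) (l 16739472)) (c (l 16723368) (l 16739032))))) (a (b (c (a (l 16717848) (l 16719360)) (a (l 16731272) (l 16733024))) (c (a (b (l 16697472) (l 16718984)) (c (l 16722472) (l 16718208))) (a (b (l 16709912) (b (l 16709800) (l 16720248))) (c (l 16724352) (l 16719952))))) (a (b (c (l 16720840) (l 16713776)) (c (c (l 16724024) (l 16719856)) (b (l 16713496) (l 16723936)))) (b (c (l 16734984) (b (l 16738808) (l 16738760))) (a (c (l 16734744) (b (l 16716000) (l 16726536))) (b (l 16744440) (l 16734536))))))), by decide +kernel⟩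

def k95_A00pm_123_s3 : ∃ t, chk3 f_A00pm_123_s3 t 117 30 3 = true :=
  ⟨(b (a (b (c (a (l 16727856) (l 16729800)) (a (l 16648560) (l 16665048))) (c (a (l 16725624) (l 16727600)) (a (l 16669104) (l 16687848)))) (a (b (c (l 16731728) (l 16681952)) (c (l 16729544) (l 16707120))) (b (c (l 16735400) (b (l 16694208) (l 16706288))) (c (a (l 16731976) (l 16735216)) (a (l 16722464) (l 16729776)))))) (a (b (c (a (b (l 16724016) (l 16723016)) (b (l 16726008) (l 16725016))) (a (b (l 16689264) (l 16705448)) (b (l 16710008) (l 16716936)))) (c (a (b (l 16722088) (c (l 16702696) (l 16718848))) (b (l 16724112) (c (l 16704688) (l 16720936)))) (b (a (c (l 16715328) (l 16694176)) (c (l 16717520) (l 16713040))) (a (c (b (l 16714296) (l 16713640)) (b (l 16708592) (l 16687616))) (c (l 16716152) (b (l 16711712) (l 16710864))))))) (a (b (c (b (l 16727976) (l 16727008)) (b (l 16720904) (l 16719176))) (c (b (l 16726112) (c (l 16706648) (l 16702032))) (b (c (l 16719680) (l 16715320)) (c (l 16718312) (b (l 16713984) (l 16713128))))))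 (a (b (c (l 16719616) (b (l 16723736) (l 16722088))) (c (b (l 16728856) (c (l 16709424) (l 16725896))) (b (c (l 16722616) (l 16718384)) (c (l 16721336) (b (l 16717104) (l 16716288)))))) (b (c (l 16733736) (l 16726824)) (c (b (l 16732784) (l 16732280)) (b (l 16724728) (c (l 16725688) (l 16721208))))))))), by decide +kernel⟩

def k96_A00pm_123_s3 : ∃ t, chk3 f_A00pm_123_s3 t 116 62 2 = true :=
  ⟨(c (b (a (b (a (c (l 16721416) (l 16727024)) (b (c (l 16725744) (b (l 16711208) (l 16730600))) (l 16709168))) (a (l 16700944) (l 16703400))) (b (b (a (b (c (l 16718232) (l 16713344)) (l 16714592)) (b (l 16717632) (l 16727456))) (c (l 16715240) (l 16710504))) (a (l 16705848) (l 16708280)))) (a (b (a (l 16693448) (l 16695840)) (a (l 16686104) (l 16688440))) (b (a (l 16698224) (l 16700600)) (a (l 16690760) (l 16693080))))) (b (a (b (a (b (c (l 16713400) (a (l 16718184) (l 16698464))) (l 16717888)) (b (b (c (l 16716672) (a (l 16700536) (l 16701704))) (l 16723120)) (l 16720440))) (a (b (l 16714384) (l 16689944)) (b (l 16695936)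 (l 16692432)))) (b (b (a (b (c (l 16708376) (l 16713824)) (a (l 16725048) (l 16705352))) (b (c (l 16731296) (l 16726328)) (c (l 16709632) (l 16715128)))) (a (l 16722984) (l 16725512))) (a (b (l 16698448) (l 16694920)) (b (l 16700952) (l 16697392))))) (a (b (c (b (l 16689944) (l 16686456)) (c (l 16684928) (l 16703704))) (c (l 16691800) (b (l 16678904) (l 16675672)))) (b (c (b (l 16694824) (l 16691280)) (c (l 16689832) (l 16698152))) (a (l 16693384) (l 16695768)))))), by decide +kernel⟩

def k97_A00pm_123_s3 : ∃ t, chk3 f_A00pm_123_s3 t 116 62 6 = true :=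
  ⟨(b (a (b (a (a (c (l 16700864) (b (l 16707736) (l 16704648))) (b (c (l 16714264) (b (l 16709792) (l 16708304))) (l 16687536))) (b (c (b (a (l 16716312) (l 16696536)) (l 16715464)) (b (a (l 16711048) (l 16712264)) (l 16710272))) (c (l 16712976) (l 16707912)))) (a (c (l 16705520) (l 16700680)) (c (l 16708064) (l 16703256)))) (b (b (a (c (b (a (l 16697688) (l 16698784)) (l 16718056)) (b (a (l 16713440) (l 16714568)) (l 16712888))) (b (c (l 16700312) (l 16716160)) (c (c (l 16700856) (l 16698304)) (a (l 16714808) (l 16716064))))) (a (c (l 16715552) (l 16710512)) (c (l 16718120) (l 16713104)))) (a (c (l 16710600) (l 16705816)) (c (l 16713128) (l 16708376))))) (a (b (a (c (l 16699160) (l 16694672)) (c (l 16701648) (l 16697192))) (a (c (l 16672000) (l 16688840)) (c (l 16674448) (l 16691312)))) (b (a (c (l 16704136) (l 16699704)) (c (l 16685640) (l 16702216))) (c (a (l 16676880) (l 16679304)) (a (l 16693776) (l 16675264)))))), by decide +kernel⟩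

def k98_A00pm_123_s3 : ∃ t, chk3 f_A00pm_123_s3 t 116 62 7 = true :=
  ⟨(b (a (b (a (c (b (a (l 16688016) (b (l 16687472) (l 16702240))) (l 16700136)) (b (a (l 16626520) (b (l 16678152) (l 16639776))) (l 16639368))) (b (c (b (a (b (l 16706000) (l 16705456)) (b (l 16707144) (l 16706752))) (l 16704992)) (b (a (b (l 16646808) (l 16648736)) (b (l 16658432) (l 16660544))) (l 16657496))) (c (l 16702768) (l 16663488)))) (a (c (l 16674816) (b (l 16647048) (l 16655336))) (c (b (l 16699832) (l 16696936)) (b (l 16672000) (l 16681144))))) (b (a (b (c (b (a (b (l 16708264) (l 16708008)) (l 16709312)) (a (l 16706984) (l 16708296))) (b (a (b (l 16670248) (l 16672552)) (l 16683512)) (a (l 16675712) (l 16688128)))) (c (l 16705392) (l 16688504))) (b (c (b (a (l 16710416) (l 16711520)) (a (l 16709584) (l 16710848))) (b (a (l 16695808) (l 16706272)) (a (l 16700744) (b (l 16705896) (l 16705272))))) (c (l 16708008) (c (l 16704136) (l 16697744))))) (a (c (b (l 16702432) (l 16699512)) (b (l 16697424) (l 16694688))) (c (b (l 16705024)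 (l 16702080)) (b (l 16700040) (l 16697280)))))) (a (b (c (a (l 16690120) (l 16692672)) (a (l 16668984) (l 16688104))) (c (a (l 16684656) (l 16687160)) (a (l 16680424) (l 16682960)))) (b (a (c (l 16695216) (l 16690672)) (c (l 16697752) (l 16693232))) (a (c (l 16689656) (l 16685488)) (c (l 16692144) (l 16688008)))))), by decide +kernel⟩

def k99_A00pm_123_s3 : ∃ t, chk3 f_A00pm_123_s3 t 117 62 2 = true :=
  ⟨(a (b (b (c (b (a (a (l 16729352) (l 16730320)) (c (l 16723504) (l 16718816))) (a (l 16737584) (l 16719056))) (b (a (b (l 16720240) (a (l 16719440) (l 16720560))) (c (l 16724544) (l 16719704))) (a (l 16717552) (c (l 16732936) (l 16707144))))) (c (a (l 16710704) (l 16713128)) (a (b (l 16703448) (l 16699864)) (b (l 16705928) (l 16702320))))) (c (b (a (l 16702968) (l 16705320)) (a (l 16695384) (l 16697688))) (b (c (l 16708360) (b (l 16705832) (l 16691920))) (a (l 16698136) (l 16700504))))) (b (a (b (b (c (l 16722840) (l 16723968)) (c (c (l 16723704) (l 16719064)) (c (l 16714352) (l 16720048)))) (c (l 16715536)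 (b (l 16708408) (l 16704776)))) (b (b (c (l 16737592) (a (l 16726640) (l 16741088))) (a (c (c (l 16726648) (l 16722080)) (b (c (l 16718304) (l 16724048)) (l 16714344))) (c (l 16728368) (b (l 16720128) (l 16739664))))) (c (c (l 16722640) (l 16739336)) (c (l 16734984) (l 16730568))))) (a (c (b (l 16707672) (l 16699976)) (b (l 16709880) (l 16702864))) (c (b (b (l 16714464) (l 16710480)) (c (l 16706400) (l 16702760))) (b (c (l 16706456) (l 16723352)) (c (l 16699072) (l 16705824))))))), by decide +kernel⟩

def k100_A00pm_123_s3 : ∃ t, chk3 f_A00pm_123_s3 t 234 62 3 = true :=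
  ⟨(c (b (b (b (a (c (b (l 16702344) (a (l 16701424) (l 16702584))) (b (l 16697304) (a (l 16696312) (l 16697496)))) (c (a (l 16703800) (l 16704808)) (a (l 16709272) (l 16699840)))) (a (c (l 16720680) (l 16715680)) (c (l 16702248) (l 16718248)))) (a (c (l 16715648) (l 16710920)) (c (l 16718160) (l 16713456)))) (b (a (c (l 16688112) (l 16704712)) (c (l 16690576) (l 16707200))) (c (a (l 16681728) (l 16684144)) (a (l 16677720) (l 16680160))))) (b (b (a (b (c (b (l 16713168) (a (l 16706848) (l 16708064))) (b (a (l 16707416) (l 16708552)) (a (b (l 16707112) (l 16706592)) (b (l 16708256) (l 16707872))))) (c (l 16710608) (c (l 16706760) (l 16704168)))) (b (b (c (l 16715344) (l 16699760)) (c (a (l 16714480) (l 16715600)) (a (b (l 16709384) (l 16709120)) (l 16710424)))) (c (a (l 16712568) (l 16713848)) (a (l 16707432) (l 16708736))))) (a (c (b (l 16707608) (l 16704640)) (b (l 16702648) (l 16699864))) (c (b (l 16710176) (l 16707192)) (b (l 16705240) (l 16702440))))) (b (a (c (l 16700280) (l 16685296)) (c (l 16702800)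 (l 16693088))) (a (c (l 16694624) (l 16690520)) (c (l 16697104) (l 16693024)))))), by decide +kernel⟩

def k101_A00pm_123_s3 : ∃ t, chk3 f_A00pm_123_s3 t 235 62 3 = true :=
  ⟨(b (c (a (b (b (c (l 16706264) (l 16701360)) (c (b (l 16716024) (l 16724912)) (a (l 16699168) (l 16710888)))) (c (l 16720672) (l 16715984))) (b (b (a (c (l 16709112) (l 16704328)) (l 16731976)) (a (b (a (c (l 16707648) (l 16713200)) (l 16728408)) (l 16720552)) (b (b (l 16731872) (l 16731608)) (l 16730384)))) (a (c (l 16723888) (l 16719272)) (c (l 16728288) (l 16723800))))) (a (b (b (c (l 16712112) (a (l 16711744) (l 16712864))) (c (b (a (l 16715872) (l 16706632)) (l 16715024)) (b (a (l 16710720) (b (l 16712312) (l 16711712))) (l 16709968)))) (c (b (l 16712744) (l 16709736)) (b (l 16707832) (l 16705008)))) (b (b (a (c (l 16720440) (a (l 16714344) (l 16716680))) (c (l 16724952) (l 16720184))) (a (b (a (c (a (l 16707616) (l 16698280)) (b (a (l 16713280) (l 16714440)) (l 16713336))) (b (l 16718744) (l 16718304))) (c (l 16718448) (l 16713464)))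 (b (c (l 16724528) (b (l 16719776) (l 16719448))) (c (l 16723232) (l 16718376))))) (a (c (c (l 16715768) (l 16713408)) (b (l 16711280) (l 16708400))) (c (l 16719240) (b (l 16716104) (l 16713120))))))) (a (c (b (c (l 16693032) (l 16688712)) (c (l 16686552) (l 16682600))) (b (c (l 16705312) (l 16695624)) (c (l 16678600) (l 16695528)))) (c (b (a (c (l 16696144) (l 16712856)) (l 16719256)) (c (l 16712520) (b (l 16689280) (l 16686168)))) (b (a (c (l 16708544) (b (l 16705568) (l 16702784))) (c (l 16712976) (l 16708720))) (a (c (l 16702696) (l 16698712)) (c (l 16706912) (l 16703032))))))), by decide +kernel⟩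

def k102_A00pm_123_s3 : ∃ t, chk3 f_A00pm_123_s3 t 116 126 1 = true :=
  ⟨(c (a (c (b (a (l 16689424) (l 16691696)) (a (b (l 16673680) (l 16675480)) (b (l 16675904) (l 16677672)))) (b (a (b (l 16673216) (l 16670016)) (b (l 16675576) (l 16672344))) (a (c (l 16677464) (l 16674120)) (c (l 16679736) (l 16676424))))) (c (b (a (l 16683472) (l 16685728)) (a (b (l 16678128) (l 16679864)) (b (l 16680336) (l 16682048)))) (b (a (b (l 16677920) (l 16674664)) (b (l 16680256) (l 16676976))) (a (c (l 16671504) (l 16678720)) (c (l 16673760) (l 16681008)))))) (a (c (b (a (c (l 16666016) (l 16683216)) (c (l 16668408) (l 16664664))) (a (c (l 16670744) (c (l 16657704) (l 16655992))) (c (l 16673080) (c (l 16660072) (l 16668864))))) (b (c (a (l 16679400) (l 16681856)) (a (l 16675552) (l 16678040))) (c (a (l 22) (b (l 16657072) (l 16665096))) (l 22)))) (c (b (a (c (l 16670792) (l 16667088)) (c (l 16673176) (l 16669496))) (a (c (l 16675416) (c (l 16662432) (l 16671248))) (c (l 16677744) (c (l 16664792) (l 16673624))))) (b (a (c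 (l 16684312) (l 16680528)) (c (l 16686760) (l 16683008))) (c (a (b (l 16659488) (l 16667488)) (b (l 16661904) (l 16669880))) (l 22)))))), by decide +kernel⟩

def k103_A00pm_123_s3 : ∃ t, chk3 f_A00pm_123_s3 t 117 126 1 = true :=
  ⟨(c (a (c (b (a (l 16687976) (l 16690216)) (a (b (l 16682544) (l 16678976)) (c (l 16705464) (l 16681384)))) (b (a (b (l 16682592) (l 16679280)) (b (l 16684920) (l 16681584))) (a (c (l 16676008) (l 16683296)) (c (l 16678256) (l 16685576))))) (a (c (b (l 16692456) (a (l 16684576) (l 16685672))) (b (b (l 16687240) (l 16683872)) (c (l 16680488) (l 16687848)))) (c (b (c (l 16698536) (l 16695224)) (a (l 16698192) (l 16691032))) (b (a (l 16698840) (l 16692032)) (a (c (l 16683160) (l 16690576)) (l 16695608)))))) (a (c (b (a (c (l 16675544) (l 16671904)) (c (l 16677912) (l 16674304))) (a (c (l 16680064) (c (l 16677632) (l 16675992))) (c (l 16682384) (a (l 16678584) (l 16679760))))) (b (a (c (l 16678712) (l 16685480)) (c (l 16681144) (l 16687944))) (a (c (b (l 16664312) (l 16672272)) (b (l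 16660896) (l 16669064))) (c (b (l 16666712) (l 16674648)) (b (l 16663336) (l 16671480)))))) (a (c (b (c (l 16680272) (l 16676696)) (c (l 16684696) (a (l 16680936) (l 16682112)))) (b (c (l 16683576) (l 16690408)) (c (b (l 16669112) (l 16677032)) (b (l 16676256) (l 16673896))))) (a (c (b (c (l 16683160) (l 16679648)) (c (l 16687480) (l 16684360))) (b (c (l 16686584) (l 16693480)) (c (b (l 16672040) (l 16679904)) (b (l 16679240) (l 16676824))))) (c (b (l 16695760) (c (l 16701584) (l 16677576))) (b (b (l 16679744) (l 16676984)) (c (l 16684992) (l 16681896)))))))), by decide +kernel⟩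

def k104_A00pm_123_s3 : ∃ t, chk3 f_A00pm_123_s3 t 116 254 2 = true :=
  ⟨(a (c (a (c (a (l 16671352) (l 16672416)) (a (l 16668392) (l 16669480))) (c (a (l 16673480) (l 16669304)) (a (l 16670560) (l 16671648)))) (a (c (c (l 16671952) (l 16670464)) (b (l 16669672) (l 16666784))) (c (c (l 16674152) (l 16672680)) (b (l 16671936) (l 16669024))))) (c (a (c (a (l 16670368) (l 16671424)) (a (l 16672728) (l 16673808))) (c (b (l 16695752) (l 16692232)) (a (l 16674888) (l 16675968)))) (a (c (a (l 16675072) (b (l 16688232) (l 16685096))) (b (l 16674192) (l 16671256))) (c (a (b (l 16689344) (l 16686192)) (l 16673128)) (a (l 16674400) (l 16675520)))))), by decide +kernel⟩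

def k105_A00pm_123_s3 : ∃ t, chk3 f_A00pm_123_s3 t 116 255 4 = true :=
  ⟨(a (b (a (c (a (l 16682008) (l 16683048)) (b (l 16680632) (a (l 16678520) (l 16679584)))) (c (a (l 16684088) (l 16685128)) (b (l 16682768) (a (l 16680640) (l 16681696))))) (a (b (c (a (l 16679512) (l 16680544)) (a (c (l 16677592) (l 16676312)) (c (l 16678640) (l 16677376)))) (c (a (c (l 16678480) (l 16677248)) (c (l 16679504) (l 16678280))) (a (c (l 16676016) (b (l 16675168) (l 16674408))) (c (l 16677056) (b (l 16676216) (l 16675456)))))) (b (c (a (l 16681576) (l 16682608)) (a (l 16676440) (l 16680112))) (c (a (c (l 16680520) (l 16679312)) (c (l 16681536) (l 16680336))) (a (c (l 16678096) (b (l 16677272) (l 16676504))) (c (l 16679136) (l 16677936))))))) (b (a (a (c (l 16686168) (a (l 16683296) (l 16683824))) (c (l 16687208) (l 16684616))) (a (c (l 16688248) (l 16685680)) (c (l 16689280) (l 16686736)))) (a (b (c (a (l 16683632) (l 16684656)) (a (l 16681160) (l 16682208))) (c (a (c (l 16682552) (l 16681360)) (c (l 16683568) (l 16682392)))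 (a (c (l 16680176) (l 16678984)) (c (l 16681208) (l 16680032))))) (b (c (a (l 16685688) (l 16686712)) (a (l 16683256) (l 16684304))) (c (a (c (l 16684576) (l 16683416)) (c (l 16685592) (l 16684432))) (a (c (l 16682248) (l 16681080)) (c (l 16683280) (l 16682120)))))))), by decide +kernel⟩

def k106_A00pm_123_s3 : ∃ t, chk3 f_A00pm_123_s3 t 232 255 5 = true :=
  ⟨(b (b (c (a (a (l 16677352) (l 16678440)) (a (l 16679528) (l 16680616))) (a (a (l 16674592) (l 16675704)) (a (l 16676808) (l 16677920)))) (c (a (a (l 16675864) (l 16676944)) (a (l 16678024) (l 16679104))) (a (a (c (l 16673864) (l 16672528)) (l 16671680)) (a (l 16675408) (l 16676504))))) (a (b (c (a (c (l 16675032) (l 16673752)) (c (l 16676104) (l 16674832))) (a (c (l 16672464) (l 16671184)) (c (l 16673560) (l 16672280)))) (c (a (a (c (l 16673288) (l 16672048)) (c (l 16673816) (l 16672584))) (a (c (l 16674352) (l 16673120)) (c (l 16674880) (l 16673656)))) (a (b (c (l 16671424) (l 16670176)) (a (c (l 16670472) (l 16669240)) (c (l 16671008) (l 16669792))))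 (b (c (l 16672512) (l 16671280)) (a (c (l 16671552) (l 16670336)) (c (l 16672096) (l 16670888))))))) (b (c (a (c (l 16677168) (l 16675912)) (c (l 16678240) (l 16676984))) (a (c (l 16674648) (l 16673384)) (c (l 16675736) (l 16674488)))) (c (a (a (c (l 16675408) (l 16674192)) (c (l 16675944) (l 16674728))) (a (c (l 16676472) (l 16675264)) (c (l 16677000) (l 16675800)))) (a (b (c (l 16673600) (l 16672376)) (c (c (l 16673200) (l 16672600)) (c (l 16672000) (l 16671400)))) (b (c (l 16674680) (l 16673464)) (c (c (l 16674280) (l 16673688)) (c (l 16673096) (l 16672496))))))))), by decide +kernel⟩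

def k107_A00pm_123_s3 : ∃ t, chk3 f_A00pm_123_s3 t 233 255 5 = true :=
  ⟨(b (a (c (b (a (l 16681704) (l 16682784)) (a (l 16680184) (l 16681264))) (b (a (l 16679024) (l 16680128)) (a (l 16677608) (l 16678704)))) (c (b (a (l 16683872) (l 16684952)) (a (l 16682336) (l 16683416))) (b (a (l 16681232) (l 16682336)) (a (l 16679800) (l 16680896))))) (a (b (c (a (c (l 16679304) (l 16678064)) (c (l 16680368) (l 16679144))) (a (c (l 16676824) (l 16675584)) (c (l 16677912) (l 16676680)))) (c (a (b (c (l 16678168) (l 16676968)) (c (l 16677424) (l 16676240))) (b (c (l 16679232) (l 16678040)) (c (l 16678480) (l 16677312)))) (a (c (a (l 16675144) (l 16675688)) (b (l 16674560) (c (l 16674184) (l 16673592)))) (c (a (l 16676224) (l 16676768)) (b (l 16675656) (c (l 16675272) (l 16674688))))))) (b (c (a (c (l 16681432) (l 16680216)) (c (l 16682496) (l 16681288))) (a (c (l 16679000) (l 16677776)) (c (l 16680080) (l 16678872)))) (c (c (a (b (l 16680288) (l 16679536)) (l 16678344)) (a (b (l 16679112) (l 16678376)) (b (l 16680176)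 (l 16679440)))) (a (c (a (l 16677304) (l 16677848)) (b (l 16676744) (c (l 16676352) (l 16675776)))) (a (b (l 16678152) (c (l 16678032) (l 16676880))) (c (l 16678920) (l 16677768)))))))), by decide +kernel⟩

def k108_A00pm_123_s3 : ∃ t, chk3 f_A00pm_123_s3 t 116 254 3 = true :=
  ⟨(a (c (a (c (b (l 16666576) (a (l 16663312) (l 16664448))) (b (l 16663456) (a (l 16660376) (l 16661544)))) (c (b (l 16668880) (b (l 16666832) (l 16665488))) (b (l 16665800) (a (l 16662696) (l 16663856))))) (a (l 22) (a (l 22) (c (b (l 16673784) (l 16660976)) (l 22))))) (c (a (c (b (l 16671176) (c (l 16679624) (l 16667720))) (b (l 16668136) (a (l 16665016) (l 16666168)))) (c (b (l 16673464) (b (l 16681864) (l 16670016))) (b (l 16670464) (a (l 16667328) (l 16668480))))) (c (a (b (b (l 16676160) (l 16664488)) (a (l 16662152) (l 16663328))) (b (l 16667448) (a (l 16664504) (l 16665680)))) (l 22)))), by decide +kernel⟩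

def k109_A00pm_123_s3 : ∃ t, chk3 f_A00pm_123_s3 t 232 510 6 = true :=
  ⟨(a (a (c (c (l 16671856) (l 16660008)) (b (l 16658560) (c (l 16668520) (l 16667176)))) (c (c (l 16672976) (l 16661136)) (b (l 16659704) (c (l 16669664) (l 16668328))))) (a (c (c (l 16674096) (l 16662272)) (c (l 16660928) (b (l 16670656) (l 16669480)))) (c (c (l 16675216) (l 16673888)) (c (l 16662072) (b (l 16671816) (l 16670632)))))), by decide +kernel⟩

def k110_A00pm_123_s3 : ∃ t, chk3 f_A00pm_123_s3 t 232 1022 6 = true :=
  ⟨(a (c (c (a (l 16669896) (l 16671008)) (b (a (l 16668920) (l 16670048)) (a (l 16668296) (l 16669424)))) (a (a (c (l 16667040) (l 22)) (c (l 16667608) (l 16666320))) (a (c (l 16668176) (l 16666888)) (c (l 16668736) (l 16667464))))) (c (c (a (l 16672120) (l 16673232)) (b (a (l 16671168) (l 16672296)) (a (l 16670544) (l 16671664)))) (a (c (b (l 16669888) (l 16669288)) (b (l 16668608) (l 16668032))) (c (b (l 16671024) (l 16670424)) (b (l 16669752) (l 16669176)))))), by decide +kernel⟩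

def k111_A00pm_123_s3 : ∃ t, chk3 f_A00pm_123_s3 t 464 1023 6 = true :=
  ⟨(c (b (a (c (c (l 16669240) (l 16668616)) (c (l 16667992) (l 16667368))) (c (c (l 16670352) (l 16669728)) (c (l 16669112) (l 16668496)))) (b (a (c (c (l 16668760) (l 16668144)) (c (l 16667528) (l 16666920))) (c (c (l 16669864) (l 16669256)) (c (l 16668648) (l 16668040)))) (a (c (a (c (l 16668168) (l 16667552)) (l 16668416)) (a (c (l 16666944) (l 16666336)) (c (l 16667504) (l 16666896)))) (c (a (l 16668968) (l 16669520)) (a (c (l 16668056) (l 16667456)) (c (l 16668616) (l 16668016))))))) (b (a (c (c (l 16666744) (l 16666120)) (c (l 16665496) (l 22))) (c (c (l 16667872) (l 16667256)) (c (l 16666632) (l 22)))) (a (c (c (b (l 16666304) (a (l 16665728) (l 16666288))) (a (b (l 16665408) (l 16665120)) (b (l 16665968) (l 16665680)))) (a (l 22) (a (l 22) (c (l 16665360) (l 22))))) (c (c (a (l 16667000) (l 16667560)) (a (b (l 16666536) (l 16666248)) (b (l 16667104) (l 16666808)))) (c (a (b (l 16665928) (l 16665640)) (b (l 16666496) (l 16666208)))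 (l 22)))))), by decide +kernel⟩

def k112_A00pm_123_s3 : ∃ t, chk3 f_A00pm_123_s3 t 465 1023 6 = true :=
  ⟨(c (c (a (a (c (l 16670856) (l 16670248)) (c (l 16671408) (l 16670800))) (b (l 16672256) (c (l 16671904) (b (l 16671472) (l 16671152))))) (b (a (c (l 16670224) (l 16669616)) (c (l 16671344) (l 16670736))) (a (a (a (l 16668888) (l 16669168)) (a (l 16669440) (l 16669720))) (a (a (l 16670000) (l 16670280)) (a (l 16670560) (l 16670832)))))) (b (a (c (c (l 16669000) (l 16668384)) (c (l 16667776) (l 16667160))) (c (c (l 16670128) (l 16669520)) (c (l 16668912) (l 16668304)))) (a (c (c (a (l 16668120) (l 16668680)) (a (l 16667520) (l 16668088))) (c (a (b (l 16667064) (l 16666776)) (b (l 16667632) (l 16667344))) (a (a (l 16666176) (l 16666456)) (b (l 16667024) (l 16666744))))) (c (c (a (l 16669248) (l 16669808)) (a (l 16668648) (l 16669216))) (c (a (b (l 16668192) (l 16667912)) (l 16668616)) (a (b (l 16667592) (l 16667320)) (b (l 16668168) (l 16667888)))))))), by decide +kernel⟩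

def k113_A00pm_123_s3 : ∃ t, chk3 f_A00pm_123_s3 t 233 510 6 = true :=
  ⟨(a (a (c (c (l 16676336) (l 16675016)) (c (l 16663208) (b (l 16672968) (l 16671776)))) (c (c (l 16677456) (l 16676144)) (c (l 16664344) (b (l 16674120) (l 16672920))))) (c (a (c (l 16678568) (l 16677272)) (c (l 16679688) (l 16678400))) (c (a (l 16665488) (l 16666624)) (b (l 16665352) (a (l 16674072) (l 16675216)))))), by decide +kernel⟩

def k114_A00pm_123_s3 : ∃ t, chk3 f_A00pm_123_s3 t 466 511 6 = true :=
  ⟨(b (c (c (a (l 16674344) (l 16675448)) (a (l 16673096) (l 16674216))) (a (c (b (l 16672160) (l 16671552)) (b (l 16670896) (l 16670320))) (c (b (l 16673288) (l 16672680)) (b (l 16672040) (l 16671456))))) (b (c (a (c (l 16673360) (c (l 16672456) (l 16671856))) (c (l 16674464) (c (l 16673568) (l 16672968)))) (a (c (c (l 16671248) (l 16670648)) (c (l 16670048) (l 16669440))) (c (c (l 16672376) (l 16671776)) (c (l 16671176) (l 16670584))))) (c (a (c (a (l 16672432) (l 16672984)) (c (b (l 16671984) (l 16671664)) (a (l 16670960) (l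 16671512)))) (c (c (l 16674104) (l 16673520)) (c (b (l 16673088) (l 16672776)) (a (l 16672072) (l 16672632))))) (a (c (c (a (l 16670368) (l 16670928)) (a (l 16669776) (l 16670336))) (c (a (l 16669184) (l 16669752)) (a (b (l 16668736) (l 16668456)) (b (l 16669304) (l 16669024))))) (c (c (a (l 16671488) (l 16672048)) (a (l 16670904) (l 16671464))) (c (a (l 16670320) (l 16670880)) (a (b (l 16669872) (l 16669592)) (l 16670296)))))))), by decide +kernel⟩

def k115_A00pm_123_s3 : ∃ t, chk3 f_A00pm_123_s3 t 467 511 6 = true :=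
  ⟨(b (c (a (c (l 16676560) (l 16675336)) (c (l 16677664) (l 16676456))) (a (c (b (l 16674416) (l 16673808)) (b (l 16673184) (l 16672600))) (c (b (l 16675552) (l 16674936)) (b (l 16674320) (l 16673736))))) (c (a (b (c (l 16675568) (c (l 16674680) (l 16674088))) (c (c (l 16675200) (l 16674624)) (c (b (l 16674200) (l 16673880)) (a (l 16673184) (l 16673744))))) (b (c (l 16676664) (l 16675496)) (c (c (l 16676296) (l 16675720)) (c (l 16675152) (a (l 16674296) (l 16674856)))))) (b (a (c (c (l 16673496) (l 16672904)) (c (l 16672312) (l 16671720))) (c (c (l 16674616) (l 16674032)) (c (l 16673448) (l 16672856)))) (a (c (c (a (l 16672608) (l 16673168)) (a (l 16672024) (l 16672592))) (c (a (l 16671448) (l 16672016)) (a (l 16670864) (l 16671432)))) (c (c (a (l 16673728) (l 16674288)) (a (l 16673152) (l 16673712))) (c (a (l 16672576) (l 16673144)) (a (l 16672000) (l 16672568)))))))), by decide +kernel⟩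

def k116_A00pm_123_s3 : ∃ t, chk3 f_A00pm_123_s3 t 232 255 7 = true :=
  ⟨(b (c (a (l 22) (a (l 22) (c (a (l 16669592) (l 16670176)) (l 22)))) (l 22)) (c (c (c (a (l 22) (a (l 22) (b (l 16668520) (b (a (l 16667408) (l 16667976)) (a (a (l 22) (l 16667000)) (a (l 16667288) (l 16667576))))))) (l 22)) (l 22)) (l 22))), by decide +kernel⟩

def k117_A00pm_123_s3 : ∃ t, chk3 f_A00pm_123_s3 t 233 510 7 = true :=
  ⟨(c (a (b (c (l 16661704) (a (l 22) (l 16671432))) (a (c (l 16670480) (l 22)) (c (l 16671632) (l 16670344)))) (b (c (l 16664032) (a (l 16672600) (l 16673776))) (a (c (l 16672792) (l 16671512)) (c (l 16673944) (l 16672672))))) (l 22)), by decide +kernel⟩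

def k118_A00pm_123_s3 : ∃ t, chk3 f_A00pm_123_s3 t 233 511 7 = true :=
  ⟨(b (c (a (a (c (a (l 16669072) (l 16669648)) (l 22)) (a (c (l 16670224) (l 22)) (c (l 16670800) (l 16669568)))) (a (a (c (l 16671376) (l 16670144)) (c (l 16671952) (l 16670728))) (a (c (l 16672528) (l 16671312)) (c (l 16673104) (l 16671888))))) (l 22)) (a (b (a (c (c (c (l 16668840) (a (l 22) (l 16668520))) (l 22)) (l 22)) (c (a (c (l 16669400) (l 22)) (c (l 16669976) (a (l 22) (l 16668920)))) (l 22))) (c (a (c (c (a (b (l 16668144) (l 16667864)) (b (l 16668712) (l 16668440))) (a (l 22) (a (l 16667840) (l 16668128)))) (l 22)) (c (c (a (b (l 16669280) (l 16669008)) (b (l 16669856) (l 16669576))) (a (a (l 16668416) (l 16668704)) (b (l 16669272) (l 16669000)))) (a (l 22) (a (l 22) (c (l 16668696) (l 22)))))) (l 22))) (c (b (a (c (c (l 16671128) (l 16670536)) (c (a (l 16669656) (l 16670232)) (l 22))) (c (c (l 16672272) (l 16671688)) (c (a (l 16670808) (l 16671384)) (a (l 16670224) (l 16670800))))) (a (c (c (a (b (l 16670424) (l 16670152))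 (b (l 16671000) (l 16670720))) (a (b (l 16669840) (l 16669576)) (b (l 16670416) (l 16670144)))) (c (a (a (l 16668984) (l 16669272)) (a (l 16669560) (l 16669848))) (l 22))) (c (c (a (l 16671432) (l 16672000)) (a (b (l 16670992) (l 16670720)) (b (l 16671560) (l 16671296)))) (c (a (b (l 16670416) (l 16670152)) (b (l 16670992) (l 16670728))) (c (a (l 16669848) (l 16670424)) (a (l 22) (l 16670144))))))) (l 22)))), by decide +kernel⟩

def k119_A00pm_123_s3 : ∃ t, chk3 f_A00pm_123_s3 t 117 254 1 = true :=
  ⟨(c (a (c (a (c (b (l 16697880) (l 16694328)) (a (l 16677040) (l 16678120))) (c (b (l 16700000) (l 16696424)) (a (l 16679192) (l 16680264)))) (a (c (a (l 16674224) (l 16675320)) (a (l 16676640) (l 16677752))) (c (a (l 16676416) (l 16677512)) (a (l 16678864) (l 16679984))))) (a (c (c (b (l 16702120) (l 16698512)) (a (l 16681336) (l 16682408))) (c (a (l 16678608) (l 16679696)) (a (l 16681096) (l 16682208)))) (c (b (c (l 16685208) (l 16687744)) (c (l 16686752) (c (l 16684864) (l 16683600)))) (a (c (c (l 16682384)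 (l 16681048)) (a (l 16683440) (l 16685112))) (c (l 16679744) (l 16687616)))))) (a (c (a (c (b (l 16675752) (a (l 16682880) (l 16684016))) (b (l 16672792) (a (l 16669632) (l 16670784)))) (c (b (l 16678040) (a (l 16685144) (l 16686272))) (b (l 16675112) (a (l 16671936) (l 16673080))))) (a (c (b (l 16669816) (a (l 16666848) (l 16668024))) (c (b (l 16678048) (l 16670584)) (l 22))) (c (b (l 16672176) (a (l 16669192) (l 16670360))) (b (a (l 16668616) (l 16669816)) (a (l 16671680) (l 16672872)))))) (a (c (c (b (l 16680312) (a (l 16687400) (l 16688528))) (b (l 16677432) (a (l 16674232) (l 16675376)))) (c (b (l 16674536) (a (l 16671528) (l 16672696))) (a (b (l 16671016) (l 16674056)) (c (l 16677048) (l 16675640))))) (c (c (a (b (l 16683016) (l 16680128)) (l 16684984)) (a (b (l 16680192) (b (l 16678168) (l 16676840))) (b (l 16694224) (l 16691440)))) (c (a (b (l 16677352) (c (l 16675528) (l 16674208))) (c (l 16680344) (l 16679008))) (c (a (b (l 16675200) (l 16678128)) (l 16677664)) (a (b (l 16673760) (l 16676800)) (l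 16676320)))))))), by decide +kernel⟩

def k120_A00pm_123_s3 : ∃ t, chk3 f_A00pm_123_s3 t 234 255 2 = true :=
  ⟨(b (c (a (a (c (l 16690320) (l 16687792)) (c (l 16691352) (l 16688848))) (a (c (l 16692384) (l 16689904)) (c (l 16693416) (l 16690952)))) (a (c (b (a (l 16686032) (l 16687112)) (a (l 16684488) (l 16685560))) (b (a (l 16683440) (l 16684536)) (a (l 16681992) (l 16683088)))) (c (b (a (l 16688192) (l 16689264)) (a (l 16686632) (l 16687704))) (b (a (l 16685640) (l 16686736)) (a (l 16684184) (l 16685272)))))) (c (a (b (c (a (l 16687736) (l 16688760)) (a (l 16685352) (l 16686392))) (c (a (c (l 16686600) (l 16685456)) (c (l 16687608) (l 16686480))) (a (c (l 16684312) (l 16683168)) (c (l 16685344) (l 16684208))))) (b (c (a (l 16689776) (l 16690800)) (a (l 16687440) (l 16688480))) (c (a (c (l 16688616) (l 16687496)) (c (l 16689624) (l 16688520))) (a (a (l 16682936) (l 16686072)) (a (l 16686592) (l 16687112)))))) (a (b (c (a (c (l 16683560) (l 16682360)) (c (l 16684616) (l 16683432))) (a (c (l 16681168) (l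 16679968)) (c (l 16682248) (l 16681064)))) (c (c (a (l 16682024) (l 16683080)) (a (b (l 16681248) (l 16680504)) (b (l 16682312) (l 16681568)))) (a (a (c (l 16679464) (l 16678312)) (c (l 16680000) (l 16678856))) (a (c (l 16680536) (l 16679400)) (c (l 16681080) (l 16679944)))))) (b (c (a (c (l 16685680) (l 16684504)) (c (l 16686736) (l 16685576))) (a (c (l 16683328) (l 16682152)) (c (l 16684408) (l 16683248)))) (c (c (a (l 16684128) (l 16685184)) (a (b (l 16683376) (l 16682632)) (b (l 16684448) (l 16683696)))) (a (a (c (l 16681616) (l 16680488)) (c (l 16682152) (l 16681032))) (a (c (l 16682688) (l 16681576)) (c (l 16683224) (l 16682120))))))))), by decide +kernel⟩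

def k121_A00pm_123_s3 : ∃ t, chk3 f_A00pm_123_s3 t 235 510 2 = true :=
  ⟨(a (c (a (c (l 16694440) (l 16692008)) (c (l 16695472) (l 16693056))) (c (b (l 16690880) (a (l 16688776) (l 16689840))) (b (a (l 16687840) (l 16688936)) (a (l 16686368) (l 16687456))))) (a (a (c (b (c (l 16697488) (l 16695048)) (c (l 16695704) (l 16693360))) (c (c (l 16692400) (l 16691200)) (b (l 16690136) (a (l 16688264) (l 16689040))))) (c (c (l 16698096) (l 16695736)) (c (l 16693368) (l 16690992)))) (c (c (l 16700344) (l 16698032)) (c (l 16695720) (l 16688152))))), by decide +kernel⟩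

def k122_A00pm_123_s3 : ∃ t, chk3 f_A00pm_123_s3 t 235 511 2 = true :=
  ⟨(b (a (c (c (a (l 16691816) (l 16692840)) (a (l 16689520) (l 16690560))) (c (a (l 16687224) (l 16688288)) (a (c (l 16685496) (l 16684336)) (c (l 16686576) (l 16685432))))) (c (c (a (a (a (l 16693584) (l 16694304)) (l 16695416)) (l 16697624)) (a (a (a (l 16691328) (l 16692064)) (l 16693192)) (l 16695448))) (c (a (a (a (a (l 16688896) (l 16689232)) (l 16689816)) (l 16690976)) (l 16693280)) (a (a (a (a (l 16686632) (l 16686968)) (l 16687568)) (l 16688744)) (l 16691096))))) (a (c (c (a (b (l 16690520) (l 16689656)) (b (l 16691528) (l 16690664))) (a (a (l 16687624) (l 16688144)) (a (l 16688664) (l 16689176)))) (c (c (a (l 16686232) (l 16687288)) (a (l 16685136) (l 16686192))) (a (b (c (l 16684392) (l 16683280)) (c (l 16683672) (l 16682584))) (b (c (l 16685472) (l 16684368)) (c (l 16684744) (l 16683664)))))) (b (c (a (a (a (c (l 16692272) (l 16690088)) (l 16691904)) (l 16693008)) (c (l 16696272) (l 16694176))) (a (a (c (a (a (l 16687736)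 (l 16688072)) (l 16688640)) (a (a (l 16685544) (l 16685880)) (l 16686472))) (c (l 16689792) (l 16687640))) (c (l 16692072) (l 16689968)))) (c (a (a (c (a (a (l 16691248) (l 16691568)) (l 16692112)) (a (a (l 16689112) (l 16689432)) (l 16689992))) (c (l 16693200) (l 16691104))) (c (l 16695384) (l 16693328))) (a (a (c (a (a (b (l 16687160) (l 16686776)) (l 16687296)) (l 16687864)) (a (a (a (l 16684776) (l 16684872)) (l 16685160)) (l 16685744))) (c (l 16689008) (l 16686904))) (c (l 16691280) (b (l 16689408) (l 16689040)))))))), by decide +kernel⟩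

def k123_A00pm_123_s3 : ∃ t, chk3 f_A00pm_123_s3 t 234 510 6 = true :=
  ⟨(a (c (a (c (l 16680800) (l 16679528)) (c (l 16681912) (l 16680648))) (a (c (l 16667760) (l 16666480)) (c (l 16679376) (l 16667624)))) (c (a (c (l 16683032) (l 16681768)) (b (l 16684200) (l 16680216))) (c (a (l 16680512) (l 16681648)) (a (l 16668768) (l 16669912))))), by decide +kernel⟩

def k124_A00pm_123_s3 : ∃ t, chk3 f_A00pm_123_s3 t 234 511 6 = true :=
  ⟨(a (b (c (a (c (l 16678768) (l 16677568)) (c (l 16679872) (l 16678688))) (a (c (l 16676368) (b (l 16675464) (l 16674872))) (c (l 16677496) (b (l 16676600) (l 16676008))))) (c (a (b (c (l 16677768) (l 16676608)) (a (c (l 16676832) (l 16675696)) (c (l 16677384) (l 16676248)))) (b (c (l 16678872) (l 16677720)) (c (c (l 16678488) (l 16677920)) (c (l 16677360) (l 16676800))))) (b (a (c (c (l 16675736) (l 16675160)) (c (l 16674576) (l 16673992))) (c (c (l 16676856) (l 16676280)) (c (l 16675704) (l 16675128)))) (a (c (c (a (l 16674840) (l 16675400)) (a (l 16674272) (l 16674840))) (c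 (a (l 16673704) (l 16674272)) (a (l 16673136) (l 16673704)))) (c (c (a (l 16675960) (l 16676520)) (a (l 16675400) (l 16675960))) (c (a (l 16674832) (l 16675400)) (a (l 16674272) (l 16674840)))))))) (b (c (a (c (l 16680976) (l 16679800)) (c (l 16682080) (l 16680912))) (c (a (l 16678624) (l 16679744)) (a (b (l 16677736) (l 16677144)) (b (l 16678880) (l 16678280))))) (c (a (b (c (l 16679968) (l 16678832)) (c (c (l 16679576) (l 16679024)) (c (l 16678464) (l 16677912)))) (b (c (l 16681064) (l 16679936)) (c (c (l 16680672) (l 16680120)) (c (l 16679568) (l 16679024))))) (c (a (a (c (l 16677384) (l 16676824)) (c (l 16677944) (l 16677384))) (b (l 16678808) (a (l 16677920) (l 16678472)))) (b (a (c (l 16676840) (l 16676264)) (c (l 16677968) (l 16677400))) (a (c (a (l 16675960) (l 16676528)) (a (l 16675408) (l 16675968))) (c (a (l 16677088) (l 16677656)) (a (l 16676536) (l 16677104))))))))), by decide +kernel⟩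

def k125_A00pm_123_s3 : ∃ t, chk3 f_A00pm_123_s3 t 234 510 7 = true :=
  ⟨(a (c (a (b (c (l 16676256) (l 16674944)) (c (l 16675104) (l 16673840))) (b (l 16666280) (c (l 16676256) (l 16675008)))) (b (a (l 16667728) (c (l 16674808) (l 22))) (c (a (l 16672576) (l 16673752)) (l 22)))) (c (a (b (l 16667440) (c (l 16677408) (l 16676168))) (b (l 16668608) (c (l 16678560) (l 16677328)))) (b (c (a (l 16675984) (l 16677168)) (l 16670032)) (a (c (l 16674928) (l 22)) (c (l 16676104) (l 16674872)))))), by decide +kernel⟩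

def k126_A00pm_123_s3 : ∃ t, chk3 f_A00pm_123_s3 t 468 511 7 = true :=
  ⟨(b (c (a (a (c (l 16673680) (l 16672472)) (c (l 16674248) (l 16673048))) (a (c (l 16674824) (l 16673632)) (c (l 16675400) (l 16674208)))) (c (a (c (l 16671856) (l 22)) (a (l 16672432) (l 16673016))) (l 22))) (c (b (a (c (c (l 16673416) (l 16672832)) (c (l 16672248) (a (l 16671384) (l 16671960)))) (a (c (l 16673984) (l 16672832)) (c (l 16674552) (l 16673408)))) (a (c (c (a (l 16672568) (l 16673136)) (a (b (l 16672136) (l 16671864)) (l 16672576))) (a (a (c (l 16671288) (l 16670720)) (c (l 16671576) (l 16671008))) (a (c (l 16671864) (l 16671296)) (c (l 16672152) (l 16671584))))) (c (c (a (l 16673712) (l 16674280)) (a (l 16673144) (l 16673720))) (a (c (b (l 16672712) (l 16672448)) (b (l 16672152) (l 16671888))) (c (b (l 16673288) (l 16673024)) (b (l 16672728) (l 16672464))))))) (b (c (a (c (a (l 16670800) (l 16671376)) (l 22)) (a (c (l 16671960) (l 22)) (c (l 16672544) (l 16671968)))) (l 22)) (c (c (c (a (a (l 16670440) (l 16671016)) (a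 (l 16671600) (l 16672176))) (a (l 22) (a (l 16671312) (l 16671896)))) (a (l 22) (a (l 22) (a (l 22) (a (l 16671552) (l 16671696)))))) (l 22))))), by decide +kernel⟩

def k127_A00pm_123_s3 : ∃ t, chk3 f_A00pm_123_s3 t 469 511 7 = true :=
  ⟨(b (c (a (a (c (l 16675976) (l 16674784)) (c (l 16676544) (l 16675368))) (c (b (l 16677696) (l 16677120)) (b (l 16676504) (l 16675960)))) (b (c (a (l 16674152) (l 16675320)) (a (l 22) (l 16674128))) (a (c (c (l 16673928) (l 16673344)) (l 22)) (c (c (l 16675096) (l 16674512)) (a (l 16673352) (l 16673944)))))) (c (b (a (c (c (l 16675696) (l 16675128)) (c (l 16674560) (l 16673984))) (c (c (l 16676840) (l 16676272)) (c (l 16675704) (l 16675144)))) (a (c (c (a (l 16674848) (l 16675416)) (a (l 16674288) (l 16674864))) (a (c (b (l 16673864) (l 16673600)) (b (l 16673304) (l 16673048))) (c (l 16674304) (b (l 16673880) (l 16673624))))) (c (a (c (l 16675984) (l 16675432)) (c (l 16676552) (l 16676008))) (a (c (l 16674880) (b (l 16674464) (l 16674200))) (c (l 16675456) (b (l 16675040)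 (l 16674776))))))) (b (a (c (a (c (l 16673128) (l 16672552)) (c (l 16673704) (l 16673136))) (l 22)) (c (a (c (l 16674288) (l 16673720)) (c (l 16674872) (l 16674304))) (c (a (l 16673152) (l 16673744)) (l 22)))) (a (c (a (a (b (l 16672320) (c (l 16672344) (l 16671792))) (b (l 16672608) (c (l 16672640) (l 16672080)))) (a (c (l 16673056) (l 16672496)) (c (l 16673344) (l 16672792)))) (l 22)) (c (a (a (c (l 16673632) (l 16673080)) (c (l 16673920) (l 16673368))) (a (c (l 16674216) (l 16673664)) (c (l 16674504) (l 16673952)))) (c (c (a (b (l 16672936) (l 16672688)) (l 16673400)) (a (l 22) (b (l 16673240) (l 16673000)))) (l 22))))))), by decide +kernel⟩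

def k128_A00pm_123_s3 : ∃ t, chk3 f_A00pm_123_s3 t 235 510 3 = true :=
  ⟨(a (b (c (c (a (l 16685320) (l 16686440)) (a (l 16682792) (l 16683928))) (c (a (l 16669768) (l 16670928)) (a (c (l 16678344) (l 16677064)) (c (l 16679520) (l 16678256))))) (c (c (a (l 16683952) (l 16685064)) (c (a (l 16682136) (l 16683264)) (a (l 16680928) (l 16682064)))) (c (a (c (l 16679712) (l 16678496)) (c (l 16680864) (l 16679656))) (a (c (l 16677272) (l 16676056)) (c (l 16678448) (l 16677240)))))) (c (a (c (a (a (a (a (l 16686344) (l 16686448)) (l 16686752)) (l 16687376)) (l 16688608)) (a (a (b (l 16684776) (a (l 16683320) (l 16683688))) (l 16674464)) (l 16675728))) (c (b (l 16691784) (l 16690336)) (l 16678232))) (a (c (a (a (b (l 16671784) (c (l 16681712) (l 16670024))) (b (l 16683112) (l 16681936))) (b (l 16684408) (l 16683216))) (a (b (c (l 16670328) (l 16669072)) (a (a (c (l 16679128) (l 16677928)) (l 16678904)) (l 16679552))) (b (l 16681944) (l 16680856)))) (c (b (l 16686984) (l 16675264)) (c (l 16674112) (l 16678168)))))),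 by decide +kernel⟩

def k129_A00pm_123_s3 : ∃ t, chk3 f_A00pm_123_s3 t 470 1022 3 = true :=
  ⟨(c (c (a (c (l 16683184) (l 16682024)) (c (l 16684288) (l 16683144))) (a (c (l 16680872) (b (l 16680016) (l 16679408))) (c (l 16681992) (l 16680848)))) (c (a (c (b (l 16678840) (l 16678264)) (b (l 16677664) (l 16677120))) (c (b (l 16679984) (l 16679408)) (b (l 16678824) (l 16678272)))) (b (c (a (l 16676488) (l 16677656)) (a (l 16675312) (l 16676488))) (a (c (c (l 16676256) (l 16675688)) (a (l 16674528) (l 16675120))) (c (a (l 16676848) (l 16677432)) (a (l 16675704) (l 16676296))))))), by decide +kernel⟩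

def k130_A00pm_123_s3 : ∃ t, chk3 f_A00pm_123_s3 t 470 1023 6 = true :=
  ⟨(c (a (c (a (l 16681552) (l 16682104)) (b (l 16681048) (c (l 16680672) (l 16680128)))) (c (a (l 16682648) (l 16683200)) (b (l 16682160) (a (l 16681232) (l 16681784))))) (a (b (c (l 16679936) (c (l 16679096) (l 16678536))) (c (a (l 16679032) (l 16679592)) (c (a (l 16678216) (l 16678776)) (a (l 16677672) (l 16678232))))) (b (c (l 16681056) (c (l 16680224) (l 16679672))) (c (a (l 16680152) (l 16680712)) (a (c (l 16679344) (l 16678800)) (c (l 16679904) (l 16679368))))))), by decide +kernel⟩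

def k131_A00pm_123_s3 : ∃ t, chk3 f_A00pm_123_s3 t 470 1023 7 = true :=
  ⟨(c (b (a (c (c (l 16677976) (l 16677416)) (a (l 16676288) (l 16676872))) (c (c (l 16679120) (l 16678560)) (a (l 16677448) (l 16678024)))) (a (c (a (c (l 16677120) (l 16676576)) (c (l 16677688) (l 16677152))) (a (c (l 16676032) (l 16675488)) (c (l 16676608) (l 16676064)))) (c (a (c (l 16678256) (l 16677720)) (c (l 16678832) (l 16678288))) (a (c (l 16677176) (l 16676640)) (c (l 16677752) (l 16677216)))))) (b (a (c (a (c (l 16675448) (l 16674888)) (l 16675752)) (a (c (l 16674328) (l 16673768)) (c (l 16674912) (l 16674360)))) (c (a (l 16676336) (l 16676920)) (a (c (l 16675504) (l 16674944)) (c (l 16676088) (l 16675536))))) (a (c (a (c (b (l 16675064) (l 16674808)) (b (l 16674512) (l 16674264))) (c (b (l 16675648) (l 16675392)) (b (l 16675096) (l 16674848)))) (a (a (c (l 16673696) (l 22)) (b (l 16673840) (c (l 16673872) (l 16673328)))) (a (b (l 16674128) (c (l 16674160) (l 16673624))) (b (l 16674424) (c (l 16674456) (l 16673920)))))) (c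 (a (c (b (l 16676224) (l 16675968)) (b (l 16675680) (l 16675432))) (c (b (l 16676808) (l 16676552)) (b (l 16676264) (l 16676016)))) (a (a (b (l 16674720) (c (l 16674752) (l 16674208))) (b (l 16675008) (c (l 16675040) (l 16674504)))) (a (b (l 16675304) (c (l 16675336) (l 16674800))) (c (l 16675744) (l 16675208)))))))), by decide +kernel⟩

def k132_A00pm_123_s3 : ∃ t, chk3 f_A00pm_123_s3 t 471 1022 3 = true :=
  ⟨(c (a (c (a (a (a (c (l 16684920) (l 16683784)) (l 16684704)) (l 16685312)) (l 16686512)) (a (a (a (c (l 16682648) (l 16681504)) (l 16682432)) (l 16683048)) (c (l 16684840) (l 16683720)))) (c (l 16683672) (c (l 16687280) (l 16686184)))) (c (b (a (a (a (a (c (l 16680648) (l 16679496)) (l 16680440)) (l 16681072)) (l 16682328)) (l 16684840)) (a (a (a (a (c (l 16680072) (l 16678944)) (l 16679872)) (l 16680496)) (l 16681752)) (c (l 16684784) (l 16683696)))) (a (c (a (a (a (a (l 16678016) (l 16678128)) (l 16678440)) (l 16679080)) (l 16680360)) (a (a (a (a (l 16676872) (l 16676984)) (l 16677304)) (l 16677944))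 (l 16679232))) (c (l 16672408) (b (l 16682064) (l 16681536)))))), by decide +kernel⟩

def k133_A00pm_123_s3 : ∃ t, chk3 f_A00pm_123_s3 t 471 1023 6 = true :=
  ⟨(c (b (a (a (a (a (c (l 16683896) (l 16682800)) (l 16683696)) (l 16684296)) (l 16685488)) (l 16687864)) (a (a (a (a (a (l 16682632) (c (l 16683272) (l 16682200))) (l 16683024)) (b (l 16683792) (l 16683456))) (b (l 16684976) (l 16684640))) (a (l 16686384) (l 16687952)))) (c (a (a (a (a (a (l 16681336) (a (l 16681392) (l 16681488))) (l 16681736)) (l 16682344)) (l 16680928)) (b (l 16686280) (l 16685632))) (b (a (a (a (a (l 16680600) (l 16680952)) (l 16681568)) (l 16682792)) (l 16685232)) (a (a (a (a (a (l 16679952) (a (l 16680008) (l 16680104))) (l 16680360)) (l 16680968)) (l 16682184)) (l 16681984))))), by decide +kernel⟩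

def k134_A00pm_123_s3 : ∃ t, chk3 f_A00pm_123_s3 t 471 1023 7 = true :=
  ⟨(b (c (c (a (a (a (a (a (l 16679448) (l 16679552)) (l 16679856)) (l 16680480)) (l 16681712)) (l 16684176)) (a (a (a (a (a (l 16678344) (l 16678456)) (l 16678760)) (l 16679384)) (l 16680632)) (l 16683120))) (a (a (a (a (c (a (l 16677248) (l 16677352)) (a (l 16676144) (b (l 16676376) (l 16676128)))) (c (l 16677664) (l 16676568))) (c (l 16678296) (l 16677200))) (c (l 16679552) (l 16678472))) (c (l 16682064) (a (l 16680168) (l 16681848))))) (b (c (a (a (a (a (c (a (l 16679024) (l 16679128)) (a (l 16677944) (l 16678048))) (c (l 16679432) (l 16678352))) (c (l 16680048) (l 16678976))) (c (l 16681272) (l 16680216))) (c (l 16683728) (l 16682688))) (a (c (a (a (a (a (l 16676864) (a (l 16676920) (l 16677016))) (l 16677280)) (l 16677904)) (l 16679160)) (a (a (a (a (l 16675784) (a (l 16675840) (l 16675936))) (l 16676200)) (l 16676840)) (l 16678104))) (c (l 16681656) (l 16678000)))) (a (c (a (a (a (c (a (l 16678736) (a (l 16678800) (l 16678888)))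 (a (l 16677672) (a (l 16677736) (l 16677824)))) (c (l 16679144) (l 16678088))) (c (l 16679760) (l 16678704))) (c (l 16680984) (l 16679944))) (b (c (a (a (a (a (l 16676672) (a (l 16676736) (l 16676824))) (l 16677088)) (l 16677712)) (l 16678960)) (a (a (a (a (l 16675600) (c (l 16675976) (l 16675440))) (l 16676024)) (l 16676656)) (l 16677912))) (c (a (a (a (a (l 16676544) (a (c (l 16676872) (l 16676344)) (l 16676696))) (l 16676960)) (l 16677584)) (l 16678832)) (a (a (a (a (l 16675480) (a (c (l 16675808) (l 16675280)) (l 16675640))) (l 16675904)) (l 16676536)) (c (l 16678056) (l 16677536)))))) (c (c (l 16683424) (a (l 16681584) (l 16683224))) (c (a (l 16680560) (l 16682216)) (a (b (l 16679592) (l 16679464)) (l 16681200))))))), by decide +kernel⟩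

def k135_A00pm_123_s3 : ∃ t, chk3 f_A00pm_123_s3 t 118 30 1 = true :=
  ⟨(b (c (b (a (c (l 16750512) (l 16747120)) (c (l 16759064) (l 16756424))) (a (c (l 16752408) (l 16747784)) (c (l 16762312) (l 16758552)))) (b (a (c (b (l 16743816) (l 16743496)) (b (l 16722360) (l 16736784))) (c (b (l 16753504) (l 16753968)) (b (l 16751104) (l 16750968)))) (a (c (b (l 16743184) (l 16742896)) (b (l 16738696) (l 16737720))) (c (b (l 16754448) (l 16754944)) (b (l 16729864) (a (l 16747552) (l 16753768))))))) (c (b (a (c (l 16754552) (b (l 16748384) (l 16748880))) (c (l 16765808) (b (l 16760240) (l 16761472)))) (a (c (b (l 16756368) (l 16757720)) (b (l 16749464) (a (l 16746464) (l 16753736)))) (c (b (l 16768632) (l 16770648)) (b (l 16762784) (a (l 16760760) (l 16767528)))))) (b (a (c (b (l 16742648) (l 16742456)) (b (l 16726280) (a (l 16732000) (l 16739616)))) (c (b (l 16755480) (l 16745592)) (b (a (l 16747232) (l 16753864)) (a (l 16746960) (l 16754016))))) (a (c (b (a (l 16738560) (l 16746032)) (a (l 16738352) (l 16746216)))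 (b (a (l 16730944) (l 16728504)) (a (c (l 16732104) (l 16727864)) (c (l 16740416) (l 16736480))))) (c (b (a (l 16753232) (l 16760168)) (a (l 16753808) (l 16761136))) (b (a (c (l 16748392) (l 16745104)) (c (l 16755736) (l 16752720))) (a (c (l 16748456) (b (l 16744872) (l 16744760))) (c (l 16756208) (b (l 16752808) (l 16752912)))))))))), by decide +kernel⟩

def k136_A00pm_123_s3 : ∃ t, chk3 f_A00pm_123_s3 t 119 30 1 = true :=
  ⟨(c (b (b (a (c (l 16766640) (b (l 16763800) (l 16765568))) (c (l 16773208) (b (l 16770640) (l 16773136)))) (a (c (l 16771240) (a (l 16765936) (l 16770544))) (c (l 16779152) (a (l 16774872) (l 16778928))))) (a (b (c (l 16776080) (b (l 16771072) (l 16773024))) (c (b (l 16779904) (l 16782592)) (b (l 16775064) (l 16766712)))) (b (c (l 16785328) (a (l 16779728) (l 16784504))) (c (a (l 16789272) (l 16794296)) (b (l 16786256) (l 16778624)))))) (b (b (b (a (c (l 16762104) (l 16760416)) (c (l 16769576) (a (l 16766600) (l 16770344)))) (a (c (l 16763360) (a (l 16758688) (l 16763472))) (c (l 16771608)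 (a (l 16767944) (l 16772112))))) (a (c (a (l 16762728) (l 16767728)) (b (a (l 16759184) (l 16764392)) (a (l 16759688) (l 16765312)))) (c (a (l 16772448) (b (l 16775720) (l 16777984))) (a (b (l 16769288) (l 16770640)) (b (l 16773880) (l 16775648)))))) (c (b (a (b (l 16767232) (a (l 16765568) (l 16771552))) (a (b (l 16775280) (l 16777248)) (b (l 16780288) (l 16782640)))) (a (b (a (l 16766824) (l 16773200)) (a (l 16768184) (l 16774952))) (b (a (l 16779288) (l 16785072)) (a (l 16781424) (l 16787600))))) (b (a (b (a (l 16760216) (l 16766264)) (a (l 16760784) (l 16767248))) (b (a (l 16772008) (l 16777432)) (a (l 16773416) (c (l 16780120) (l 16778408))))) (a (b (a (c (l 16762784) (l 16760040)) (c (l 16769544) (l 16767064))) (a (c (l 16763680) (b (l 16760456) (l 16760768))) (c (l 16770848) (b (l 16767800) (l 16768328))))) (b (a (c (l 16776008) (l 16773776)) (c (l 16782152) (l 16780176))) (a (c (l 16777720) (b (l 16774832) (l 16775576))) (c (l 16784288) (b (l 16781552) (l 16782504)))))))))), by decide +kernel⟩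

def k137_A00pm_123_s3 : ∃ t, chk3 f_A00pm_123_s3 t 118 62 2 = true :=
  ⟨(b (b (a (b (c (l 16758800) (l 16740248)) (a (c (l 16749896) (b (l 16747144) (l 16746096))) (c (l 16762672) (b (l 16754848) (l 16754432))))) (c (a (l 16758960) (l 16776040)) (a (b (l 16761752) (b (l 16762272) (l 16762408))) (l 16764016)))) (a (c (a (l 16749424) (l 16757248)) (a (l 16741200) (l 16749488))) (c (b (l 16760576) (l 16766472)) (a (l 16757672) (b (l 16767912) (l 16763496)))))) (a (b (c (l 16739568) (c (l 16739296) (l 16735544))) (c (l 16725944) (a (l 16704880) (l 16733384)))) (c (b (l 16759552) (l 16750472)) (b (a (l 16749144) (l 16756824)) (c (l 16745992) (l 16742960)))))), by decide +kernel⟩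

def k138_A00pm_123_s3 : ∃ t, chk3 f_A00pm_123_s3 t 118 248 3 = true :=
  ⟨(c (a (b (a (l 16738264) (l 16746424)) (a (b (c (l 16740496) (l 16735976)) (c (l 16739448) (l 16734928))) (b (l 16746552) (b (c (l 16748592) (l 16744328)) (l 16745776))))) (a (b (l 16754312) (b (l 16754592) (c (l 16756576) (b (l 16752752) (l 16752496))))) (b (l 16761928) (c (l 16764344) (l 16760704))))) (a (b (a (c (l 16731600) (l 16727072)) (c (l 16740224) (l 16736016))) (a (b (c (a (l 16729128) (l 16733608)) (a (b (l 16724448) (l 16724280)) (l 16729016))) (c (l 16730336) (a (l 16723264) (l 16728096)))) (b (c (l 16740160) (l 16730568)) (b (c (a (l 16737752) (l 16742264)) (a (b (l 16733440) (l 16733160)) (c (l 16739024) (l 16736840)))) (c (l 16739328) (l 16734944)))))) (a (b (c (l 16748576) (l 16744672)) (b (c (l 16748664) (l 16744632)) (b (c (l 16748720) (a (l 16742416) (l 16746792))) (c (a (l 16746232) (l 16750704)) (a (c (l 16743096) (l 16740984)) (b (l 16746800) (l 16746560))))))) (b (c (l 16756640) (l 16753040)) (c (a (l 16754952)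 (l 16758992)) (a (b (l 16751048) (b (l 16751096) (c (l 16741624) (l 16750144)))) (l 16755304))))))), by decide +kernel⟩

def k139_A00pm_123_s3 : ∃ t, chk3 f_A00pm_123_s3 t 118 249 3 = true :=
  ⟨(c (a (a (c (l 16734856) (l 16730544)) (c (l 16743504) (l 16739432))) (a (c (l 16752040) (l 16748208)) (b (c (l 16762536) (b (l 16759912) (l 16757912))) (l 16756568)))) (c (a (a (b (l 16727840) (l 16724504)) (b (l 16737088) (l 16733528))) (a (b (l 16746216) (l 16742432)) (b (b (a (l 16753968) (l 16758400)) (l 16754224)) (l 16751224)))) (a (a (b (a (l 16720912) (l 16725688)) (l 16720144)) (b (a (l 16730440) (l 16735160)) (l 16729416))) (b (a (a (l 16739848) (c (l 16745504) (l 16743504))) (a (c (l 16750088) (l 16748152)) (b (b (c (l 16756072) (b (l 16754392) (l 16754032))) (l 16754240)) (l 16752760)))) (a (c (l 16739536) (l 16737584)) (c (l 16748504) (l 16746672))))))), by decide +kernel⟩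

def k140_A00pm_123_s3 : ∃ t, chk3 f_A00pm_123_s3 t 118 125 3 = true :=
  ⟨(c (a (b (a (c (l 16727584) (l 16723608)) (c (l 16735824) (l 16732072))) (c (a (l 16720496) (l 16728336)) (a (l 16716864) (l 16724912)))) (b (a (c (l 16743952) (l 16740424)) (c (l 16751952) (l 16748648))) (a (l 16731824) (l 16742136)))) (c (a (b (a (l 16719584) (l 16728272)) (a (l 16713192) (l 16721440))) (b (a (l 16736840) (l 16745288)) (a (l 16729560) (l 16737552)))) (a (b (a (b (l 16717032) (l 16713968)) (b (l 16726064) (l 16722768))) (a (l 16709464) (l 16717928))) (b (a (b (l 16734976) (l 16731448)) (b (l 16743768) (l 16740000))) (a (l 16726256) (l 16734448)))))), by decide +kernel⟩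

def k141_A00pm_123_s3 : ∃ t, chk3 f_A00pm_123_s3 t 119 124 2 = true :=
  ⟨(b (a (c (l 16785392) (a (l 16776096) (l 16782688))) (c (l 16796960) (a (l 16789008) (l 16795040)))) (c (a (b (b (l 16776168) (l 16785048)) (l 16781288)) (b (a (l 16795984) (l 16802224)) (l 16795648))) (a (b (b (a (l 16776816) (l 16784128)) (l 16757872)) (l 16775256)) (b (b (l 16783480) (a (l 16790320) (l 16797432))) (l 16780016))))), by decide +kernel⟩

def k142_A00pm_123_s3 : ∃ t, chk3 f_A00pm_123_s3 t 119 248 3 = true :=
  ⟨(c (a (a (c (l 16771288) (l 16768016)) (c (l 16778304) (l 16775312))) (a (l 16773192) (l 16779752))) (a (a (b (c (l 16764416) (l 16761112)) (c (l 16764952) (a (l 16759448) (l 16763512)))) (c (b (l 16771896) (l 16772640)) (b (l 16768888) (c (l 16770272) (l 16768680))))) (a (c (l 16779552) (b (l 16776344) (c (l 16777880) (l 16776424)))) (c (l 16786528) (a (l 16779592) (l 16785760)))))), by decide +kernel⟩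

def k143_A00pm_123_s3 : ∃ t, chk3 f_A00pm_123_s3 t 119 249 3 = true :=
  ⟨(c (a (a (b (b (c (l 16771776) (b (l 16768728) (l 16768120))) (l 16768216)) (l 16764880)) (b (b (c (l 16779496) (b (l 16776328) (l 16776344))) (l 16776576)) (l 16773080))) (a (b (b (l 16785144) (a (l 16782680) (l 16781384))) (l 16781152)) (b (b (l 16791944) (c (l 16793552) (b (l 16791144) (l 16790792)))) (l 16789128)))) (a (b (a (b (b (a (c (l 16763192) (b (l 16759648) (c (l 16749936) (l 16758592)))) (c (l 16767296) (a (l 16757536) (l 16764824)))) (c (l 16764624) (a (l 16758832) (c (l 16764224) (l 16762464))))) (c (l 16763072) (c (l 16760448) (l 16758688)))) (b (c (b (l 16773128) (a (l 16771096) (l 16775192))) (b (c (l 16770688) (l 16769040)) (a (c (l 16768584) (b (l 16767088) (l 16766776))) (c (l 16767536) (b (l 16771160) (l 16771152)))))) (c (l 16771792) (a (l 16766304) (l 16770752))))) (a (c (l 16759888) (c (l 16757352) (l 16755640))) (c (l 16768440) (c (l 16766072) (l 16764480))))) (b (c (b (a (l 16780760) (l 16787984)) (a (b (a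 (l 16778736) (l 16782808)) (l 16779808)) (b (l 16788448) (a (l 16786112) (l 16790152))))) (a (b (c (l 16778528) (l 16777032)) (b (a (c (l 16776432) (b (l 16775128) (l 16774688))) (b (l 16779976) (c (l 16780536) (l 16779040)))) (l 16776816))) (b (c (l 16785968) (l 16784608)) (b (a (a (l 16777632) (l 16784760)) (l 16787544)) (a (l 16783296) (b (c (l 16788360) (l 16787008)) (l 16787328))))))) (a (c (l 16776856) (a (l 16771784) (l 16776072))) (c (l 16785176) (a (l 16780344) (l 16784600))))))), by decide +kernel⟩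

def k144_A00pm_123_s3 : ∃ t, chk3 f_A00pm_123_s3 t 119 125 1 = true :=
  ⟨(c (c (a (b (l 16752824) (l 16764040)) (b (l 16766704) (l 16777256))) (a (b (a (l 16764384) (l 16771816)) (a (l 16755256) (l 16762320))) (b (b (l 16764384) (l 16780288)) (a (l 16769304) (l 16776232))))) (c (a (b (a (c (l 16759840) (l 16756744)) (b (l 16768464) (l 16763880))) (a (c (l 16751096) (l 16748272)) (l 16757144))) (b (a (b (l 16776312) (l 16771536)) (b (l 16784080) (l 16779112))) (a (l 16764512) (l 16771824)))) (a (b (a (c (l 16753608) (b (l 16752432) (l 16748424))) (b (c (l 16764000) (l 16760976)) (c (l 16759616) (l 16756712)))) (a (b (c (l 16747432) (l 16744456)) (l 16741992)) (b (c (l 16755288) (l 16752520)) (l 16749728)))) (b (a (c (b (l 16772192) (l 16767584)) (b (l 16769384) (l 16764904))) (b (c (l 16780280) (c (l 16778352) (l 16777048))) (c (l 16775480) (l 16773008)))) (a (b (l 16761776) (l 16757400)) (b (l 16769584) (l 16765008))))))), by decide +kernel⟩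

def k145_A00pm_123_s3 : ∃ t, chk3 f_A00pm_123_s3 t 59 126 1 = true :=
  ⟨(a (c (a (b (c (l 16717736) (a (l 16697488) (l 16704648))) (c (a (l 16695968) (l 16702416)) (a (l 16700792) (l 16707560)))) (b (c (l 16731072) (a (l 16711680) (l 16718584))) (c (c (l 16713128) (l 16710720)) (a (l 16703752) (l 16710344))))) (c (a (b (a (b (l 16692664) (l 16689368)) (l 16714264)) (a (c (l 16685984) (l 16693560)) (c (l 16693000) (l 16700744)))) (b (a (l 16726912) (l 16734168)) (a (c (l 16699928) (l 16697344)) (a (l 16703816) (l 16707232))))) (a (b (a (c (l 16707024) (l 16703672)) (c (l 16714832) (l 16711672))) (a (c (l 16690616) (a (l 16685736) (l 16679056))) (c (l 16697968) (a (l 16682832) (l 16686560))))) (b (a (c (l 16722512) (l 16719536)) (c (l 16730048) (l 16727256))) (a (c (l 16705224) (l 16713080)) (c (l 16712384) (l 16720408))))))) (c (a (b (c (l 16754528) (a (l 16725408) (l 16753104))) (c (l 16724296) (b (l 16722216) (l 16717936)))) (c (b (l 16767152) (l 16757360)) (b (a (l 16759776) (l 16766376)) (l 16748496))))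 (c (a (b (a (l 16741344) (l 16748424)) (a (l 16722832) (l 16729584))) (b (a (l 16755448) (l 16762392)) (a (l 16746736) (l 16753312)))) (a (b (a (c (l 16737488) (l 16734888)) (c (l 16744840) (l 16742416))) (a (c (l 16729912) (l 16727608)) (c (l 16736904) (l 16734768)))) (b (a (c (l 16752128) (l 16749888)) (c (l 16759344) (l 16757272))) (a (c (l 16743808) (l 16741832)) (c (l 16750616) (l 16748800)))))))), by decide +kernel⟩

def k146_A00pm_123_s3 : ∃ t, chk3 f_A00pm_123_s3 t 118 254 1 = true :=
  ⟨(c (a (c (a (c (l 16689544) (l 16697560)) (l 16704944)) (a (b (l 16695544) (b (l 16687728) (l 16686040))) (b (l 16691576) (l 16698480)))) (c (a (l 16700512) (l 16706512)) (a (c (l 16697224) (l 16695008)) (l 16712880)))) (a (c (a (b (a (l 16688592) (l 16692032)) (c (l 16688496) (l 16686056))) (c (l 16696712) (b (l 16706384) (l 16692768)))) (a (b (c (l 16686352) (l 16683688)) (c (l 16683608) (b (l 16681768) (l 16680520)))) (c (b (l 16682912) (l 16690464)) (b (l 16690888) (l 16688144))))) (c (a (c (l 16703272) (l 16701032))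 (c (l 16699280) (l 16707664))) (a (c (a (l 16697064) (l 16689992)) (b (l 16687496) (l 16695056))) (c (l 16705560) (a (l 16701712) (l 16694672))))))), by decide +kernel⟩

def k147_A00pm_123_s3 : ∃ t, chk3 f_A00pm_123_s3 t 118 255 2 = true :=
  ⟨(a (b (c (a (c (l 16704808) (l 16697352)) (l 16693912)) (a (b (c (l 16701232) (l 16698960)) (c (l 16699536) (l 16697352))) (c (l 16706512) (l 16704424)))) (a (a (b (c (l 16699496) (c (l 16696328) (l 16694216))) (c (c (l 16698720) (l 16696712)) (c (l 16694696) (l 16687432)))) (b (c (l 16702432) (c (l 16699368) (l 16697312))) (c (c (l 16701608) (l 16699648)) (c (l 16697696) (l 16695744))))) (c (c (l 16701600) (a (l 16703472) (l 16706392))) (a (c (l 16701528) (l 16699592)) (c (l 16704520) (l 16702640)))))) (b (c (c (l 16698408) (l 16707008)) (a (l 16695880) (l 16696696))) (c (a (l 16695912) (l 16696336)) (a (c (l 16708960) (a (l 16705664) (l 16708672))) (c (l 16714808) (l 16713144)))))), by decide +kernel⟩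

def k148_A00pm_123_s3 : ∃ t, chk3 f_A00pm_123_s3 t 118 255 3 = true :=
  ⟨(b (a (c (a (c (l 16685432) (b (l 16683904) (l 16682496))) (c (l 16691840) (l 16689736))) (a (a (c (l 16679264) (b (l 16688048) (l 16676384))) (c (l 16682616) (l 16680392))) (c (c (l 16688152) (l 16687088)) (a (l 16683800) (l 16687192))))) (c (a (c (l 16708656) (l 16696200)) (l 16703504)) (a (c (l 16694224) (l 16692240)) (c (l 16700736) (l 16698888))))) (a (b (c (a (c (a (l 16692096) (l 16695264)) (c (l 16681632) (l 16680584))) (c (l 16699976) (l 16687528))) (a (a (c (l 16677368) (a (l 16682256) (l 16686560))) (c (l 16691144) (l 16678600))) (c (l 16685568) (c (l 16684096) (l 16683112))))) (b (c (c (a (a (l 16691016) (l 16694152)) (l 16698824)) (a (c (l 16691080) (l 16679592)) (l 16696944))) (a (a (c (l 16676440) (c (l 16685392) (l 16684368))) (c (l 16690192) (l 16688208))) (c (l 16684568) (a (l 16691512) (l 16694800))))) (c (c (a (a (l 16690304) (l 16693424)) (a (l 16696520) (l 16699600))) (a (a (a (l 16687512) (l 16689112)) (l 16691496))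 (l 16685744))) (a (a (c (c (l 16686824) (l 16685824)) (a (c (l 16684000) (l 16683000)) (c (l 16685656) (l 16684664)))) (c (b (l 16689720) (l 16686792)) (c (l 16688120) (l 16687152)))) (a (c (l 16692784) (a (l 16690104) (l 16691736))) (c (l 16695992) (l 16694184))))))) (c (a (c (l 16694904) (l 16693112)) (c (l 16711480) (l 16699328))) (a (a (c (l 16689720) (a (l 16687088) (l 16688720))) (c (l 16692912) (l 16691160))) (c (l 16697656) (a (l 16694384) (l 16708072))))))), by decide +kernel⟩

def k149_A00pm_123_s3 : ∃ t, chk3 f_A00pm_123_s3 t 119 127 1 = true :=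
  ⟨(c (a (b (c (l 16725864) (a (l 16708600) (l 16714720))) (c (a (l 16709224) (l 16709544)) (a (c (l 16701544) (l 16699920)) (l 16717016)))) (c (b (l 16737376) (b (l 16719976) (l 16725936))) (b (c (l 16724528) (l 16743912)) (a (l 16722712) (l 16717808))))) (b (a (c (a (c (l 16726664) (l 16703744)) (l 16721600)) (a (c (l 16712264) (l 16710288)) (c (l 16708384) (l 16717040)))) (c (a (l 16727904) (l 16734104)) (a (c (l 16714896) (l 16734176)) (c (l 16721304) (l 16740720))))) (a (c (a (c (l 16708776) (l 16707144)) (c (l 16704272) (l 16713248))) (a (c (a (l 16703936) (l 16707080)) (b (l 16705440) (l 16702352))) (c (l 16711736) (a (l 16708648) (l 16711792))))) (c (a (c (l 16710144) (l 16708752)) (l 16725744)) (a (c (l 16717848) (l 16716464)) (c (l 16723840) (l 16722568))))))), by decide +kernel⟩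

def k150_A00pm_123_s3 : ∃ t, chk3 f_A00pm_123_s3 t 120 56 1 = true :=
  ⟨(b (c (l 16725120) (a (l 16736192) (l 16750632))) (a (c (b (l 16742016) (l 16740104)) (c (l 16745880) (l 16712152))) (c (l 16743848) (l 16749544)))), by decide +kernel⟩

def k151_A00pm_123_s3 : ∃ t, chk3 f_A00pm_123_s3 t 120 114 1 = true :=
  ⟨(a (b (a (c (a (c (l 16735504) (l 16738784)) (l 16737720)) (b (l 16706280) (b (c (l 16742240) (l 16723024)) (a (c (l 16741528) (c (l 16732624) (l 16710528))) (l 16701864))))) (c (l 16738768) (b (l 16745784) (l 16744800)))) (c (a (b (a (b (c (c (l 16723248) (l 16724832)) (a (l 16737776) (l 16737768))) (l 16736912)) (b (c (l 16734896) (l 16738120)) (c (l 16724312) (a (l 16738040) (l 16737928))))) (l 16737992)) (c (b (l 16714856) (a (l 16725016) (b (l 16735368) (l 16735440)))) (b (l 16738904) (a (l 16738560) (b (l 16738408) (l 16738440)))))) (a (b (a (b (a (c (b (c (l 16740264) (l 16742120)) (l 16741576)) (b (a (l 16720552) (b (l 16721568) (l 16721800))) (l 16721632))) (b (c (l 16741272) (a (l 16712344)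 (l 16723968))) (c (l 16741240) (a (l 16723320) (l 16713960))))) (c (l 16742032) (l 16723568))) (b (c (l 16741584) (c (l 16738256) (l 16715888))) (a (c (l 16741496) (l 16706000)) (b (c (l 16741312) (l 16708016)) (c (l 16741400) (l 16729536)))))) (c (l 16742920) (l 16706640))) (b (a (b (l 16743784) (c (l 16741640) (c (l 16744040) (l 16721392)))) (l 16744024)) (a (b (a (l 16722504) (b (c (l 16741368) (l 16734736)) (l 16743360))) (l 16702128)) (b (c (l 16741688) (a (l 16716408) (l 16739720))) (c (l 16741680) (l 16718864)))))))) (c (b (l 16740928) (a (a (a (c (l 16725832) (l 16739280)) (l 16737968)) (l 16738416)) (l 16739544))) (b (l 16746832) (a (b (l 16744800) (a (b (l 16743752) (c (l 16741744) (a (l 16743344) (l 16745160)))) (l 16744016))) (l 16745368))))), by decide +kernel⟩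

def k152_A00pm_123_s3 : ∃ t, chk3 f_A00pm_123_s3 t 120 115 1 = true :=
  ⟨(a (c (c (b (l 16738672) (l 16742328)) (b (a (l 16742192) (l 16740896)) (l 16744856))) (b (c (a (l 16745288) (l 16743952)) (a (b (l 16730184) (l 16733032)) (l 16741200))) (c (a (l 16748328) (l 16746904)) (a (l 16737856) (l 16748032))))) (b (a (c (b (b (a (l 16737224) (l 16737264)) (l 16737824)) (l 16739136)) (b (a (c (l 16742192) (l 16745520)) (b (c (l 16741808) (l 16745128)) (l 16743624))) (l 16744992))) (b (c (a (b (l 16737752) (l 16737480)) (l 16738232)) (a (b (l 16743744) (c (l 16741888) (l 16745104))) (l 16744040))) (c (a (l 16738312) (b (l 16737712) (l 16738216))) (a (l 16744104) (b (c (l 16741976) (l 16745088)) (l 16743888)))))) (c (c (l 16739824) (l 16742288)) (c (l 16744952) (l 16747824))))), by decide +kernel⟩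

def k153_A00pm_123_s3 : ∃ t, chk3 f_A00pm_123_s3 t 121 28 1 = true :=
  ⟨(a (b (b (l 16752440) (b (l 16749952) (l 16727264))) (b (c (l 16742928) (b (l 16749040) (l 16747080))) (b (c (a (b (l 16739408) (a (b (l 16738192) (l 16737952)) (l 16738736))) (l 16740448)) (a (b (l 16744904) (a (b (l 16743824) (l 16733064)) (l 16744176))) (l 16745568))) (a (c (b (a (l 16738912) (l 16738432)) (l 16740200)) (b (a (l 16744312) (b (l 16743608) (l 16744096))) (l 16745264))) (b (c (c (l 16727472) (l 16740336)) (a (b (l 16743960) (l 16743680)) (l 16744328))) (c (a (l 16739480) (l 16738984)) (a (l 16744496) (l 16743944)))))))) (b (c (l 16751584) (l 16734648)) (c (b (l 16746112) (b (l 16742920) (a (b (l 16740368) (a (l 16739200) (l 16739776))) (l 16741496)))) (b (l 16750504) (a (b (l 16746816) (b (l 16745152) (c (l 16743152) (l 16735248)))) (l 16747048)))))), by decide +kernel⟩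

def k154_A00pm_123_s3 : ∃ t, chk3 f_A00pm_123_s3 t 60 29 1 = true :=
  ⟨(a (b (c (b (a (c (b (l 16745880) (l 16749352)) (b (l 16748080) (l 16751208))) (c (l 16744824) (l 16736328))) (a (c (l 16754432) (a (l 16756648) (l 16754912))) (c (l 16751192) (l 16752504)))) (a (b (c (b (l 16750472) (l 16753240)) (a (b (l 16745376) (l 16754304)) (l 16722040))) (b (c (l 16755912) (l 16715776)) (c (l 16758496) (l 16717960)))) (b (b (c (l 16747648) (l 16750168)) (c (l 16750232) (l 16752392))) (c (l 16753960) (a (l 16756344) (l 16754808)))))) (c (a (b (c (l 16760968) (l 16751072)) (c (l 16767352) (a (l 16768256) (l 16766136)))) (b (c (l 16757312) (l 16757920)) (c (l 16763288) (l 16763160)))) (a (b (b (c (l 16761000) (l 16720056)) (c (l 16763448) (l 16743056))) (c (a (l 16768120) (l 16766032)) (a (b (l 16767048) (l 16769016)) (l 16765984)))) (b (c (l 16758632) (l 16738472)) (c (l 16763088) (l 16763080)))))) (b (b (a (c (b (l 16741928) (l 16744824)) (b (l 16725512) (l 16748720))) (b (a (c (a (l 16740752) (l 16740176)) (b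 (l 16744312) (l 16745528))) (b (c (a (l 16739736) (l 16740336)) (a (l 16744248) (l 16744712))) (c (l 16719312) (l 16744520)))) (c (l 16742792) (l 16746608)))) (c (a (b (l 16747632) (l 16750376)) (b (l 16745400) (l 16747936))) (a (b (l 16750856) (l 16752904)) (b (l 16748568) (l 16750448))))) (c (b (a (l 16743920) (l 16751664)) (a (l 16759624) (l 16756480))) (b (a (c (l 16755456) (l 16756280)) (b (l 16752256) (l 16754000))) (a (c (l 16759568) (l 16759616)) (l 16746064)))))), by decide +kernel⟩

def k155_A00pm_123_s3 : ∃ t, chk3 f_A00pm_123_s3 t 122 14 1 = true :=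
  ⟨(b (b (a (b (l 16747192) (l 16733656)) (b (c (l 16759240) (l 16761800)) (c (l 16756232) (l 16759032)))) (a (b (b (l 16752096) (l 16750216)) (c (l 16745272) (l 16749104))) (b (b (l 16755168) (l 16753360)) (b (l 16751400) (l 16738808))))) (b (b (a (a (b (b (l 16743448) (c (a (l 16740312) (l 16740936)) (a (l 16744464) (l 16744960)))) (c (l 16741448) (l 16745184))) (c (b (l 16742712) (b (a (l 16730424) (l 16741568)) (l 16720464))) (b (l 16746456) (b (a (l 16744712) (l 16745248)) (l 16744976))))) (a (b (l 16746200) (b (l 16744424) (c (a (l 16731064) (l 16742240)) (a (l 16745016) (l 16745584))))) (c (l 16745320) (l 16748392)))) (a (c (c (l 16723248) (l 16745488)) (b (l 16746760) (l 16748472))) (b (a (c (l 16732016) (l 16745568)) (b (c (a (l 16731744) (l 16742952)) (a (l 16745368) (l 16745976))) (c (l 16732104) (l 16745472)))) (c (l 16723544) (l 16746984))))) (b (c (a (l 16749400) (l 16747632)) (a (l 16750920) (l 16749184))) (a (c (l 16753816) (l 16753992)) (c (l 16751616) (l 16751904)))))), by decide +kernel⟩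

def k156_A00pm_123_s3 : ∃ t, chk3 f_A00pm_123_s3 t 123 14 1 = true :=
  ⟨(a (b (b (b (a (c (l 16761608) (l 16763728)) (c (l 16763200) (l 16765048))) (c (l 16754336) (l 16761776))) (b (c (l 16756384) (l 16758760)) (b (l 16754760) (l 16752744)))) (b (c (b (l 16748256) (b (a (b (l 16744304) (a (l 16732464) (l 16743712))) (l 16745752)) (a (b (l 16732704) (l 16744248)) (b (a (l 16733248) (l 16744512)) (a (l 16743968) (l 16733400)))))) (b (l 16750840) (b (a (b (l 16747080) (l 16741000)) (l 16748208)) (a (a (l 16746336) (l 16745968)) (b (l 16746736) (a (l 16746272) (l 16746168))))))) (b (c (b (l 16724464) (l 16726280)) (b (l 16747320) (l 16748552))) (c (a (l 16729416) (l 16728784)) (a (l 16750760) (l 16729216)))))) (b (b (b (a (c (l 16764800) (l 16766384)) (c (c (l 16766112) (l 16766720)) (c (l 16767376) (l 16768096)))) (a (c (l 16762128) (l 16763904)) (c (c (l 16763496) (l 16764192)) (l 16765352)))) (b (a (c (l 16759080) (l 16761032)) (c (l 16760896) (l 16762576))) (c (l 16756392) (l 16758312)))) (b (c (b (l 16752264)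 (b (l 16748880) (a (b (l 16746048) (l 16734672)) (l 16747616)))) (b (l 16754248) (b (l 16750888) (a (b (l 16748208) (l 16747296)) (l 16749472))))) (b (b (b (a (a (l 16745472) (c (l 16734184) (l 16746672))) (c (l 16735608) (l 16747944))) (a (l 16746184) (c (b (a (l 16744976) (l 16745696)) (l 16734856)) (b (l 16747184) (l 16726064))))) (c (l 16736072) (l 16737432))) (c (b (l 16737784) (l 16729112)) (b (l 16728112) (l 16729368))))))), by decide +kernel⟩

def k157_A00pm_123_s3 : ∃ t, chk3 f_A00pm_123_s3 t 60 30 1 = true :=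
  ⟨(a (b (c (a (b (c (l 16773680) (a (l 16773880) (l 16771576))) (c (l 16780096) (a (l 16779552) (l 16777072)))) (b (c (l 16769216) (l 16768320)) (c (l 16775232) (l 16773544)))) (a (b (c (b (l 16770560) (l 16772912)) (a (b (l 16770960) (l 16772904)) (l 16764496))) (c (a (l 16772464) (l 16775280)) (a (b (l 16774840) (l 16776784)) (l 16768216)))) (b (c (l 16767456) (a (l 16767632) (l 16765632))) (c (l 16771832) (a (l 16771208) (l 16769056)))))) (c (a (b (c (l 16786744) (a (l 16785408) (l 16782744))) (c (a (l 16795200) (l 16792248)) (a (l 16791560) (l 16788688)))) (b (c (l 16781408) (l 16778864)) (c (l 16788096) (l 16784680)))) (a (b (c (a (b (l 16781352) (l 16783864)) (l 16780032)) (a (b (l 16778744) (l 16780752)) (b (l 16776272) (l 16778208)))) (c (a (b (l 16786448) (l 16789128)) (b (l 16783744) (l 16786336))) (a (b (c (l 16783744) (l 16781904)) (c (l 16786040) (l 16783936))) (b (l 16780208) (l 16782296))))) (b (c (a (l 16777552) (l 16775128)) (a (l 16774848) (l 16772504))) (b (c (l 16779864) (l 16776472))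 (c (l 16782424) (l 16773296))))))) (b (b (c (a (c (l 16765192) (l 16764376)) (l 16761248)) (a (c (l 16763592) (l 16762840)) (b (l 16759008) (l 16760656)))) (c (a (c (l 16770800) (l 16769224)) (l 16755600)) (a (c (l 16767640) (l 16766040)) (b (l 16762288) (l 16764000))))) (b (c (a (c (l 16776664) (l 16774272)) (l 16760912)) (a (c (l 16771824) (l 16769320)) (b (l 16765816) (l 16767720)))) (c (a (c (l 16783072) (l 16779840)) (l 16777248)) (a (b (l 16763160) (c (l 16777776) (l 16774104))) (b (l 16769840) (l 16772152))))))), by decide +kernel⟩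

def k158_A00pm_123_s3 : ∃ t, chk3 f_A00pm_123_s3 t 61 30 1 = true :=
  ⟨(b (a (b (c (a (l 16747680) (l 16745240)) (a (b (l 16756176) (l 16757696)) (a (l 16755200) (l 16733248)))) (c (a (l 16762800) (l 16739176)) (a (b (l 16717328) (l 16718968)) (l 16757768)))) (b (c (a (l 16743464) (a (l 16732184) (l 16731888))) (a (l 16747896) (c (l 16731544) (l 16731296)))) (a (c (l 16747792) (l 16756200)) (c (c (l 16736584) (l 16735696)) (b (l 16733592) (l 16735160)))))) (a (b (c (a (l 16767896) (l 16765168)) (a (l 16753192) (l 16761328))) (a (c (l 16773704) (b (l 16766744) (l 16769024))) (c (l 16770792) (b (l 16722392) (l 16766552))))) (b (a (c (l 16752624) (b (l 16737768) (l 16739616))) (c (b (l 16739520) (l 16741936)) (b (l 16747304) (b (l 16738128) (l 16739040))))) (a (c (a (l 16748056) (l 16747056)) (b (l 16741600) (l 16754216))) (c (a (l 16756696) (l 16755992)) (b (b (l 16739984) (l 16751440)) (b (l 16752448) (l 16753496)))))))), by decide +kernel⟩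

def k159_A00pm_123_s3 : ∃ t, chk3 f_A00pm_123_s3 t 120 62 1 = true :=
  ⟨(b (c (a (b (c (l 16799192) (l 16794912)) (b (a (c (l 16803656) (l 16798992)) (l 16798320)) (a (l 16788984) (l 16787256)))) (b (l 16791424) (b (l 16794136) (a (l 16785472) (l 16794080))))) (a (c (b (a (l 16791920) (l 16789096)) (b (a (a (l 16794880) (l 16793400)) (l 16791288)) (b (a (l 16793488) (l 16791672)) (l 16790328)))) (b (a (c (l 16788448) (a (l 16786784) (l 16785400))) (c (l 16785704) (l 16783400))) (b (a (a (b (l 16789488) (c (l 16780912) (a (b (l 16789016) (b (l 16789240) (l 16778712))) (l 16777992)))) (l 16788408)) (l 16786376)) (a (a (c (l 16788912) (l 16786336)) (c (l 16788096) (l 16785528))) (b (b (a (l 16787656) (l 16786544)) (l 16786408)) (l 16784696)))))) (b (c (l 16785144) (a (l 16781992) (l 16779624))) (b (c (l 16787352) (l 16782632)) (a (b (c (l 16789656) (l 16784712)) (l 16775472)) (b (l 16784912) (c (l 16787024) (l 16782136)))))))) (c (a (c (b (l 16793176) (l 16782848)) (b (l 16788752) (l 16778776))) (b (l 16788824)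 (l 16779376))) (a (c (b (a (l 16784768) (l 16783616)) (a (l 16775000) (l 16774192))) (b (a (b (c (l 16783640) (l 16781176)) (l 16777648)) (b (l 16781200) (l 16776608))) (a (c (l 16771760) (l 16769552)) (l 16769872)))) (b (c (l 16782104) (a (l 16777888) (l 16777008))) (c (l 16773192) (l 16768904)))))), by decide +kernel⟩

def k160_A00pm_123_s3 : ∃ t, chk3 f_A00pm_123_s3 t 121 62 1 = true :=
  ⟨(b (a (c (b (l 16786464) (a (l 16780784) (l 16788968))) (b (c (l 16780528) (l 16776400)) (a (c (l 16784632) (b (l 16779304) (l 16780536))) (l 16769784)))) (c (b (l 16782160) (l 16785696)) (b (l 16774656) (l 16766896)))) (c (b (b (a (l 16789168) (l 16776448)) (l 16784168)) (a (l 16778320) (l 16777600))) (a (b (c (l 16780336) (a (l 16776240) (l 16775448))) (c (l 16772240) (l 16768016))) (b (b (c (l 16780448) (l 16770680)) (l 16775144)) (l 16769616))))), by decide +kernel⟩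

def k161_A00pm_123_s3 : ∃ t, chk3 f_A00pm_123_s3 t 60 63 1 = true :=
  ⟨(b (a (c (a (c (a (l 16768072) (l 16767760)) (b (l 16748136) (l 16738776))) (b (l 16749240) (l 16740352))) (a (c (b (l 16765304) (l 16745880)) (b (a (l 16761648) (l 16761192)) (c (l 16743296) (l 16741552)))) (b (c (l 16764592) (l 16760720)) (c (l 16756304) (l 16731896))))) (c (a (b (l 16748856) (l 16740624)) (b (l 16769768) (l 16741200))) (b (a (b (l 16743328) (l 16739520)) (l 16762480)) (a (c (l 16756632) (l 16732256)) (c (l 16757304) (l 16732984)))))) (a (c (a (b (c (l 16732624) (l 16729728)) (c (l 16723448) (l 16731488))) (b (l 16742232) (c (l 16735136) (c (l 16722816) (l 16732072))))) (a (b (c (c (l 16727536) (l 16726064)) (a (l 16734248) (l 16723944))) (c (a (l 16728808) (l 16718824)) (a (a (l 16726272) (l 16716000)) (l 16726856)))) (b (c (l 16727368) (l 16734888)) (c (a (l 16729904) (l 16730584)) (b (l 16729504) (a (l 16736168) (l 16726432))))))) (c (b (a (a (l 16732400) (l 16732928)) (c (l 16756216) (l 16732432))) (a (c (l 16736640)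 (a (l 16723320) (l 16734640))) (c (c (l 16733768) (l 16737816)) (a (l 16735544) (l 16736512))))) (b (a (c (l 16728312) (l 16735848)) (c (l 16740064) (a (l 16726312) (l 16737536)))) (a (c (a (l 16731352) (l 16732200)) (b (l 16730904) (a (l 16727272) (l 16728192)))) (c (b (l 16735184) (a (l 16742000) (l 16743056))) (c (a (l 16731288) (l 16732296)) (b (l 16731984) (a (l 16739104) (l 16740184)))))))))), by decide +kernel⟩

def k162_A00pm_123_s3 : ∃ t, chk3 f_A00pm_123_s3 t 61 62 1 = true :=
  ⟨(b (a (c (a (l 16780200) (l 16777056)) (a (b (l 16771488) (l 16774152)) (b (l 16768944) (l 16771520)))) (a (c (b (l 16751920) (l 16776024)) (a (l 16768688) (l 16762584))) (c (b (l 16760440) (l 16763376)) (b (a (l 16765928) (l 16744416)) (a (l 16768280) (l 16746688)))))) (a (c (b (a (b (l 16784360) (l 16782664)) (b (l 16781264) (l 16781472))) (a (l 16777184) (l 16777024))) (b (a (b (a (l 16776808) (l 16775584)) (l 16774432)) (b (l 16773576) (c (l 16754664) (l 16750592)))) (a (l 16769432) (l 16769568)))) (c (b (a (a (l 16779888)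 (l 16757752)) (l 16776928)) (a (l 16777000) (b (c (l 16758704) (l 16765920)) (l 16775928)))) (b (a (b (l 16771408) (a (l 16752056) (l 16751360))) (a (l 16770800) (l 16749120))) (a (c (l 16750736) (l 16768024)) (b (a (l 16760928) (l 16760896)) (l 16748376))))))), by decide +kernel⟩

def k163_A00pm_123_s3 : ∃ t, chk3 f_A00pm_123_s3 t 61 63 1 = true :=
  ⟨(b (a (c (a (b (l 16749016) (l 16752528)) (b (l 16749488) (l 16753600))) (a (b (l 16752424) (a (l 16745896) (l 16746480))) (b (a (l 16742464) (l 16742888)) (c (l 16738544) (l 16745880))))) (c (a (b (l 16750152) (c (l 16766760) (l 16763912))) (b (l 16761448) (b (l 16757544) (l 16754984)))) (a (b (a (l 16743376) (l 16754400)) (c (l 16750488) (l 16747480))) (b (a (l 16754992) (l 16755624)) (c (l 16752128) (b (l 16750344) (l 16748200))))))) (a (c (a (b (b (l 16736952) (l 16744120)) (c (c (l 16740992) (l 16739824)) (a (l 16737536) (l 16738624)))) (b (c (l 16738256) (l 16746104)) (c (c (l 16743152) (l 16742024)) (a (l 16739752) (l 16740928))))) (a (b (c (l 16741616)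 (a (l 16738344) (l 16739232))) (c (b (l 16737160) (a (l 16744184) (l 16745360))) (c (a (l 16733368) (l 16734504)) (b (l 16734024) (a (l 16741336) (l 16742552)))))) (b (c (c (l 16754576) (l 16742728)) (a (l 16740176) (l 16741176))) (c (b (l 16739360) (b (l 16737392) (l 16736104))) (b (b (l 16737544) (l 16736336)) (a (l 16733896) (l 16735224))))))) (c (a (b (c (l 16750528) (l 16748000)) (c (a (l 16744328) (l 16756008)) (a (l 16742144) (l 16743392)))) (b (c (l 16752400) (a (l 16760000) (l 16761040))) (c (c (l 16747840) (l 16746832)) (a (l 16744672) (l 16745968))))) (a (b (c (a (l 16755392) (l 16745952)) (a (l 16742240) (l 16743344))) (c (a (b (l 16751632) (l 16749208)) (a (l 16740904) (l 16741568))) (a (b (l 16749288) (l 16736592)) (c (l 16739600) (l 16738496))))) (b (c (c (l 16748200) (l 16746968)) (a (l 16744504) (l 16745712))) (c (a (a (l 16742240) (l 16742920)) (b (l 16755472) (l 16753424))) (a (c (l 16740992) (l 16739920)) (c (l 16742432) (l 16741400))))))))), by decide +kernel⟩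

def k164_A00pm_123_s3 : ∃ t, chk3 f_A00pm_123_s3 t 124 28 1 = true :=
  ⟨(b (a (b (a (c (b (l 535021071) (l 16767400)) (c (l 16768808) (l 16769392))) (c (b (a (l 16769752) (l 534784271)) (c (l 16768808) (l 16769224))) (b (l 535259407) (l 535199759)))) (a (b (c (l 16766160) (l 16767392)) (c (l 16764880) (l 16766200))) (b (c (c (l 16767616) (l 16768072)) (l 16768840)) (c (c (l 16766376) (l 16766872)) (l 16767704))))) (b (a (b (c (a (l 534799631) (l 534816527)) (a (l 535272207) (l 535283471))) (c (a (l 534741519) (l 534757903)) (a (l 16770976) (l 535222543)))) (b (c (a (c (l 534792207) (l 534880015)) (c (l 534813711) (l 534898959))) (a (l 535296271) (l 535310863))) (a (c (l 534776079) (l 535234831)) (c (b (l 534810383) (l 534780431)) (l 535248911))))) (a (b (a (c (l 16769088) (l 16769928)) (c (l 534697999) (l 16770656))) (c (c (l 16768152) (l 16768544)) (a (l 16768840) (l 16769592)))) (b (a (c (l 534715663) (l 535171855)) (c (c (l 534694671) (l 16771672)) (l 535185423))) (c (a (c (l 16769464) (l 16769792))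 (c (l 16770336) (l 16770616))) (a (l 16770344) (l 535119119))))))) (a (b (a (c (c (l 16762408) (l 16763056)) (l 16764144)) (b (c (l 16765272) (l 16766432)) (c (l 16763768) (l 16764984)))) (a (c (l 16759288) (l 16760816)) (c (b (l 16762112) (l 16760312)) (l 16762520)))) (b (a (b (c (c (l 16766856) (l 16767280)) (a (l 16767608) (l 16768392))) (c (a (l 16765160) (l 16766080)) (l 16766608))) (b (c (a (l 16768400) (c (l 16769128) (l 16769440))) (a (l 16769184) (a (l 16769768) (l 16770160)))) (c (a (l 16767000) (l 16767920)) (a (l 16767840) (l 16768656))))) (a (b (c (l 16764024) (l 16765056)) (c (l 16762288) (l 16763360))) (b (c (a (l 16765456) (l 16766408)) (a (l 16766336) (l 16767184))) (c (a (l 16763768) (l 16764760)) (a (l 16764672) (l 16765568)))))))), by decide +kernel⟩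

def k165_A00pm_123_s3 : ∃ t, chk3 f_A00pm_123_s3 t 124 29 1 = true :=
  ⟨(b (a (b (a (b (l 16757104) (l 16755016)) (c (l 16757384) (l 16758712))) (a (b (l 16752824) (l 16745352)) (b (l 16754896) (l 16752768)))) (b (a (b (c (l 16760432) (l 16761520)) (c (l 16758496) (l 16759592))) (b (c (l 16762504) (a (l 16762904) (l 16763840))) (c (l 16760680) (l 16761568)))) (a (c (l 16755528) (l 16756632)) (b (c (l 16758840) (l 16759736)) (c (l 16756992) (l 16757888)))))) (b (a (b (c (a (l 16737280) (l 16750032)) (a (l 16749344) (l 16751352))) (a (b (c (a (l 16735560) (l 16736360)) (a (l 16737072) (l 16748320))) (c (l 16746928) (l 16748208))) (a (b (l 16748464) (c (a (l 16736544) (l 16736928)) (l 16738056))) (c (l 16738352) (l 16750088))))) (a (c (l 16751576) (l 16752664)) (c (l 16754232) (b (l 16756024) (l 16754168))))) (a (c (a (l 16738616) (b (a (l 16748344) (b (l 16737504) (l 16748904))) (l 16750112))) (a (l 16739256) (b (b (l 16738464) (l 16749672)) (l 16750584)))) (b (a (a (b (c (b (l 16748816) (l 16738072)) (l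 16739360)) (l 16739024)) (b (c (l 16749896) (l 16750904)) (b (c (l 16738888) (l 16739848)) (l 16744656)))) (c (b (l 16751928) (a (l 16740040) (l 16751744))) (a (l 16751920) (l 16752984)))) (a (c (l 16750456) (l 16751016)) (a (c (l 16745464) (l 16740848)) (b (c (b (l 16751224) (l 16740512)) (b (l 16752000) (l 16741224))) (l 16741312)))))))), by decide +kernel⟩

def k166_A00pm_123_s3 : ∃ t, chk3 f_A00pm_123_s3 t 250 56 1 = true :=
  ⟨(b (a (b (a (c (b (l 534891791) (l 534862095)) (l 535327247)) (c (b (c (l 534876943) (l 535225359)) (c (l 534847247) (l 535195151))) (a (l 535340047) (l 535349519)))) (a (c (b (l 534832143) (l 534801679)) (l 535264527)) (c (b (c (l 534817295) (l 535164687)) (a (l 535087119) (l 535099151))) (a (l 535277071) (l 535286287))))) (b (a (a (c (b (l 534935055) (l 534904847)) (l 535359759)) (c (b (l 534948623) (l 534918415)) (l 535370511))) (c (b (a (a (l 535227663) (l 534966543)) (a (l 534973967) (l 534981647))) (a (l 534932751) (a (l 535212047) (l 534951183)))) (a (b (l 535397647) (l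 535365903)) (b (l 535409679) (l 535377935))))) (a (c (b (c (l 534844431) (l 534920719)) (a (l 535111951) (l 534856975))) (a (l 535296271) (l 535306767))) (c (b (a (l 534902031) (c (l 535418383) (l 535222287))) (a (l 534871055) (l 534885647))) (a (b (l 535333903) (l 535301391)) (b (l 535345679) (l 535313167))))))) (a (b (a (c (b (l 534770959) (l 534739983)) (l 535200527)) (c (b (l 534794255) (l 534763023)) (a (l 535212559) (l 535221519)))) (b (a (c (l 534708495) (l 535151119)) (c (l 534731279) (l 535167759))) (a (c (l 534673679) (l 535114255)) (c (l 534695439) (l 535130127))))) (b (a (a (c (c (l 534760463) (l 534835215)) (l 535231247)) (c (a (l 534806543) (l 534947343)) (l 535241231))) (c (b (a (l 534839567) (l 534853903)) (a (l 535076111) (l 534822159))) (a (b (l 535268623) (l 535235343)) (b (l 535280143) (l 535246607))))) (a (c (a (b (l 535017487) (l 534981135)) (b (l 535030543) (l 534993423))) (b (l 535186447) (l 535215119))) (c (b (a (l 534775567) (l 534789903)) (a (l 534737935) (l 534751503))) (b (a (l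 535201551) (l 534944271)) (c (l 534857999) (l 535211279)))))))), by decide +kernel⟩

def k167_A00pm_123_s3 : ∃ t, chk3 f_A00pm_123_s3 t 502 112 1 = true :=
  ⟨(a (b (c (a (a (b (l 535056655) (l 534958863)) (b (a (l 534995471) (l 534999567)) (l 534967055))) (b (b (l 4) (a (l 535266575) (l 535006479))) (c (b (c (l 535204623) (l 535238159)) (l 535205903)) (l 535015695)))) (a (b (l 535422223) (l 535390479)) (b (l 535435791) (l 535403791)))) (c (b (a (a (l 534928143) (l 534936079)) (a (l 534944015) (l 534952207))) (a (a (l 535165199) (l 534904591)) (a (l 534912527) (l 534920719)))) (a (b (l 535358223) (l 535325455)) (b (l 535371279) (l 535338511))))) (b (a (b (l 4) (c (a (b (l 534999567) (l 534984207)) (b (l 4) (l 534992911))) (b (l 535157263) (l 535141135)))) (l 4)) (c (a (b (c (b (a (l 535203343) (l 535212559)) (l 535192591)) (l 535000335)) (c (b (l 535176975) (l 535161359)) (l 534968335))) (b (a (b (l 534985999) (l 534970383)) (b (l 4) (l 534979343))) (a (a (l 534944271) (l 534948623)) (b (l 534963471) (l 535215887)))))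 (a (b (b (l 535125007) (l 535108367)) (b (l 535091983) (l 535075343))) (b (c (l 535091471) (l 535173135)) (c (l 535058703) (l 535139599))))))), by decide +kernel⟩

def k168_A00pm_123_s3 : ∃ t, chk3 f_A00pm_123_s3 t 502 113 1 = true :=
  ⟨(b (a (c (b (a (l 534869263) (b (l 534893071) (l 534876943))) (a (l 534837263) (a (l 535117071) (l 535125263)))) (a (b (l 535292175) (l 535258639)) (b (l 535305231) (l 535002895)))) (c (b (a (a (l 534897167) (l 534905871)) (c (b (l 535163663) (l 535147791)) (l 534952719))) (a (a (l 534864911) (l 534873359)) (a (l 534882063) (l 534891023)))) (a (b (b (l 535058703) (l 535041807)) (c (l 535245327) (l 535057935))) (b (c (l 535025423) (l 535105807)) (c (l 534991887) (l 535071247)))))) (c (a (b (a (l 534804751) (a (l 535084559) (l 534823951))) (a (l 534765583) (a (l 534776335) (c (l 535020559) (l 535085583))))) (b (a (b (l 534844687) (l 534828303)) (b (l 534862095) (c (l 535082767) (l 535146255)))) (a (c (b (l 535044879) (l 535019023)) (l 534828303)) (c (b (l 535061775) (l 535034383))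 (l 534842895))))) (a (b (a (l 534956047) (c (l 535197199) (l 535010575))) (a (l 534915087) (c (l 535155471) (l 534967823)))) (b (a (b (l 534990607) (l 534973199)) (c (l 534957583) (c (l 535015951) (l 535056911)))) (c (a (l 534899983) (l 534913039)) (a (l 534979087) (a (l 534987279) (l 534993167)))))))), by decide +kernel⟩

def k169_A00pm_123_s3 : ∃ t, chk3 f_A00pm_123_s3 t 503 112 1 = true :=
  ⟨(a (b (l 4) (b (l 4) (c (a (a (b (l 534972687) (l 534956559)) (b (l 4) (l 534966031))) (a (c (b (l 4) (l 535213327)) (l 535016463)) (l 4))) (a (c (l 535074831) (a (l 535150351) (l 535157775))) (a (b (l 4) (l 535318543)) (l 4)))))) (l 4)), by decide +kernel⟩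

def k170_A00pm_123_s3 : ∃ t, chk3 f_A00pm_123_s3 t 503 226 1 = true :=
  ⟨(a (c (a (c (b (b (a (l 535177743) (l 535187471)) (a (l 535161615) (l 535171343))) (b (a (l 535145487) (l 535155215)) (l 535134479))) (b (l 534970383) (l 534937359))) (b (a (b (l 534959631) (l 534943247)) (c (b (l 535207439) (l 535191311)) (l 534993167))) (a (c (b (l 535165199) (l 535148815)) (l 535219215)) (c (b (l 535175183) (l 535158799)) (l 535228431))))) (a (b (c (l 535041551) (a (l 535116303) (l 535123727))) (c (l 535007759) (a (l 535081487) (l 535088911)))) (b (c (a (l 535322383) (l 535062543)) (a (l 535131151) (c (l 535119375) (l 535159311)))) (c (a (l 535288335) (l 535028495)) (a (l 535096591) (c (l 535084815) (l 535124239))))))) (c (a (b (a (c (b (l 4) (l 535201807)) (l 535002895)) (l 4)) (b (c (a (l 535185423) (l 535196175)) (a (l 535246351) (l 535256335))) (c (a (l 535169295) (l 535179791)) (a (l 535229711) (l 535239439))))) (b (l 4) (b (l 4) (a (c (l 535190543) (l 535249423)) (l 4))))) (a (a (b (a (c (l 535337487) (l 535279375))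 (l 4)) (c (l 535037455) (b (l 535121167) (l 535103503)))) (b (l 4) (c (l 535046415) (c (l 535168527) (b (l 535149071) (l 535131407)))))) (a (b (l 4) (b (l 4) (c (l 535315471) (c (l 535369743) (c (l 535129871) (l 535216655)))))) (l 4))))), by decide +kernel⟩

def k171_A00pm_123_s3 : ∃ t, chk3 f_A00pm_123_s3 t 1006 227 2 = true :=
  ⟨(c (b (a (b (l 535118095) (a (l 535096591) (l 535106063))) (b (a (l 535132431) (l 535142415)) (a (l 535115791) (l 535125519)))) (a (b (a (l 535074575) (l 535083279)) (l 535049487)) (b (a (l 535092239) (l 535100943)) (a (l 535059983) (l 535066383))))) (b (a (l 534903823) (b (l 535198735) (a (l 535176719) (l 535185935)))) (a (b (l 535140623) (l 535110159)) (b (a (l 535152399) (l 535160335)) (a (l 535119375) (l 535125007)))))), by decide +kernel⟩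

def k172_A00pm_123_s3 : ∃ t, chk3 f_A00pm_123_s3 t 1007 227 2 = true :=
  ⟨(c (b (a (b (a (l 535152655) (l 535163151)) (b (a (l 535140367) (l 535150863)) (a (l 535130895) (l 535140879)))) (b (a (l 535174159) (l 535185167)) (b (a (l 535161615) (a (l 535169551) (b (l 535177487) (a (l 535172879) (b (l 535175695) (c (l 535159311) (l 535186191))))))) (a (c (l 535137039) (l 535164175)) (c (a (l 535143439) (c (l 535140879) (l 535153679))) (a (l 535170319) (c (l 535166991) (l 535180815)))))))) (a (b (a (l 535109135) (b (l 535125519) (l 535107343))) (a (l 535072527) (l 535078927))) (a (b (b (c (l 535119631) (l 535146511)) (l 535113999)) (c (l 535073807) (l 535100175))) (c (b (c (l 535112207) (l 535125007)) (l 535083791)) (b (c (l 535138319) (l 535151887)) (l 535109903)))))) (b (a (b (a (l 535212815) (l 535222543)) (a (l 535195151) (b (l 535209743) (l 535199503)))) (b (a (l 535232527) (l 535242767)) (b (a (l 535219727) (a (l 535227407) (b (l 535234831) (a (l 535230223) (b (l 535232783) (a (l 535229711) (c (l 535215631)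 (c (l 535238159) (l 535253775))))))))) (a (c (l 535193103) (l 535223823)) (c (a (l 535198991) (c (l 535195151) (l 535209743))) (a (l 535229455) (c (l 535291919) (b (l 535244815) (l 535235855))))))))) (a (b (a (l 535168015) (b (l 535183887) (l 535164943))) (a (l 535130383) (l 535136015))) (a (b (b (c (l 535175183) (l 535205647)) (l 535170831)) (c (l 535128335) (l 535158031))) (c (b (c (l 535165967) (l 535180559)) (a (l 535134735) (l 535140367))) (a (b (l 535201039) (l 535164431)) (b (a (l 535204111) (l 535206927)) (l 535169807)))))))), by decide +kernel⟩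

def k173_A00pm_123_s3 : ∃ t, chk3 f_A00pm_123_s3 t 1006 227 3 = true :=
  ⟨(b (a (c (c (l 534955279) (l 534991887)) (b (l 535059215) (l 535041295))) (c (b (l 535267087) (l 534980879)) (a (b (l 535338511) (l 535320335)) (b (l 535346191) (l 535059727))))) (c (a (a (l 534922767) (l 534929167)) (b (l 534955535) (c (l 534903055) (l 534937871)))) (a (b (l 535151375) (l 534984975)) (b (c (l 535010575) (l 535183887)) (c (l 534974735) (a (l 535279887) (l 535283471))))))), by decide +kernel⟩

def k174_A00pm_123_s3 : ∃ t, chk3 f_A00pm_123_s3 t 1007 227 6 = true :=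
  ⟨(b (a (b (l 535016207) (b (l 535003151) (a (l 535256847) (l 535265295)))) (b (c (l 535017743) (l 535085583)) (b (a (l 535285007) (b (l 535296783) (a (l 535289871) (a (l 535294479) (b (l 535297039) (c (c (l 535268879) (l 535285519)) (c (l 535302415) (l 535319567)))))))) (a (c (l 535256335) (l 535290639)) (c (a (l 535261455) (a (b (l 535268879) (l 535259151)) (c (l 535257871) (l 535274255)))) (a (b (l 535300367) (l 535290895)) (a (b (l 535302671) (l 535292943)) (c (l 535290895) (l 535308303))))))))) (a (b (a (l 535233807) (c (l 535222543) (l 534988559))) (a (l 534926863) (l 534965263))) (c (a (b (b (l 535237903) (l 535218191)) (l 535189775)) (b (c (a (l 535224591) (l 535229455)) (a (l 535240975) (l 535245583))) (a (l 535195663) (l 535200783)))) (a (b (b (l 535271951) (l 535251983)) (l 534954511)) (b (a (c (l 535257615) (l 535275023)) (c (l 535262223) (l 535279375))) (a (l 535228687) (l 535233807))))))), by decide +kernel⟩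

def k175_A00pm_123_s3 : ∃ t, chk3 f_A00pm_123_s3 t 1007 227 7 = true :=
  ⟨(b (a (b (a (l 535085839) (c (l 535343375) (l 535113487))) (a (c (l 535316751) (l 535086863)) (b (l 535080463) (c (l 535319311) (l 535089167))))) (b (a (c (l 535352079) (c (l 535380495) (l 535198735))) (c (l 535092495) (a (l 535228687) (a (l 535231759) (l 4))))) (a (c (b (l 535338511) (l 535058191)) (b (c (l 535366927) (l 535117839)) (c (l 535086351) (a (l 535372559) (l 535107087))))) (c (b (a (l 535345167) (a (l 535082767) (b (l 535353103) (b (l 535349775) (c (l 535337487) (l 535355663)))))) (a (b (l 535335951) (l 535326479)) (a (c (l 535054863) (l 535073295)) (c (l 535325967) (l 535344143))))) (b (a (c (l 535373327) (l 535123983)) (b (l 535389455) (b (l 535386127) (c (c (l 535368207) (l 535142927)) (a (l 535392527) (c (l 535153679) (a (l 535398415) (b (l 535400463) (l 535397647))))))))) (b (a (c (l 535364111) (l 535114767)) (c (a (l 535366159) (l 535367439)) (a (b (l 535387663) (l 535382799)) (a (l 535385871) (l 535386895))))) (a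 (c (l 535354383) (l 535373583)) (c (l 535356687) (l 535375887))))))))) (a (b (b (c (l 535031567) (a (l 535335183) (l 535341071))) (a (l 535029263) (c (l 535283215) (l 535321103)))) (a (c (l 535248655) (l 535018255)) (c (l 535252751) (l 535021839)))) (c (a (b (a (l 535027983) (l 535063823)) (l 535056911)) (b (c (b (l 535035407) (l 535016975)) (b (l 535053327) (l 535034895))) (c (l 534988559) (l 535006479)))) (a (b (b (a (l 535344399) (l 535077903)) (l 535056399)) (a (l 535293711) (l 535028239))) (b (c (a (l 535060751) (l 535064847)) (a (l 535146767) (b (l 535093263) (l 535342351)))) (c (l 535024655) (l 535043343))))))), by decide +kernel⟩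

def k176_A00pm_123_s3 : ∃ t, chk3 f_A00pm_123_s3 t 250 57 1 = true :=
  ⟨(b (a (b (b (a (c (l 534629391) (l 16771040)) (c (l 534649359) (l 535081743))) (c (a (l 16769832) (c (l 16770592) (l 16770832))) (a (l 16770440) (l 535024655)))) (c (a (c (l 16768688) (l 16768976)) (b (l 534535183) (l 16769384))) (a (a (l 16769272) (l 16769680)) (c (l 16770136) (l 16770440))))) (b (c (c (a (a (l 534603279) (l 534614287)) (a (b (l 16772704) (l 16772128)) (b (l 534935055) (l 16772560)))) (a (a (l 16771760) (l 16772176)) (b (l 534728719) (l 534666767)))) (a (b (c (l 16772456) (l 16772688)) (c (l 16771888) (l 16772136))) (b (a (l 534840335) (l 534848783)) (a (l 534776847) (l 534782991))))) (a (c (b (c (l 16768224) (l 16771056)) (a (l 16770064) (l 16767888))) (b (a (l 16771208) (l 16771608)) (a (l 16770560) (l 16770968)))) (c (b (a (l 534560271) (l 534567183)) (a (l 534488079) (l 534493455))) (a (b (l 534706191) (l 534630159)) (b (l 534709775) (l 534631951))))))) (a (b (a (c (c (l 16767200) (l 16767504)) (a (l 16767824)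 (l 16768240))) (c (c (l 16762920) (l 16768424)) (c (l 16768720) (l 16769048)))) (a (c (l 16765752) (l 16766464)) (c (l 16766744) (c (l 16767200) (l 16767544))))) (b (a (c (c (b (l 16769480) (l 16768752)) (l 16769352)) (c (l 16769600) (a (l 16769672) (l 16770096)))) (c (b (c (l 16767800) (l 16767984)) (a (l 16769584) (l 16767448))) (b (c (l 16770816) (l 16771048)) (a (l 16770040) (l 16770480))))) (c (a (c (l 16767648) (l 16767880)) (c (a (l 16768424) (l 16768936)) (l 16768880))) (a (c (l 16768144) (l 16768448)) (c (l 16769104) (a (l 16769128) (l 16769592)))))))), by decide +kernel⟩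

def k177_A00pm_123_s3 : ∃ t, chk3 f_A00pm_123_s3 t 502 114 1 = true :=
  ⟨(b (a (c (b (a (c (l 534947599) (l 535013135)) (a (l 534719759) (l 534725903))) (a (l 534645775) (c (l 534893071) (l 534955279)))) (b (a (c (l 16773800) (l 535167503)) (c (l 535096079) (l 534906895))) (a (c (l 16773272) (l 16773440)) (c (l 535024911) (l 534833935))))) (c (b (a (c (b (l 534989071) (l 534956047)) (l 534767119)) (c (b (l 535002383) (l 534967055)) (l 534777359))) (a (c (b (l 534920463) (l 534883343)) (l 534693903)) (c (b (l 534929679) (l 534892815)) (b (l 534989071) (l 534951183))))) (b (a (c (l 534837007) (l 534914575)) (c (l 534845711) (c (l 534901775) (l 534941455)))) (a (c (l 534761999) (l 534837519)) (c (l 534767887) (a (l 534840335) (l 534842639))))))) (a (c (b (a (c (l 16772392) (l 16772536)) (c (l 534819599) (l 534879759))) (a (l 534499855) (c (l 16772224) (l 16772360)))) (b (a (c (l 16772696) (l 16772880)) (c (l 16773104) (l 534754575))) (a (c (l 16772096) (l 16772288)) (c (l 16772512) (l 16772688))))) (c (b (a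 (c (l 534828559) (l 534886927)) (c (b (l 534856719) (l 534821135)) (b (l 534914063) (l 534877455)))) (a (c (l 534757647) (l 534814223)) (c (b (l 16773272) (l 16772984)) (c (l 16773208) (l 16773264))))) (b (a (c (l 534684431) (l 534758159)) (c (l 534691599) (c (l 534744591) (l 534782479)))) (c (a (l 16772936) (l 534618127)) (a (l 534681359) (l 534821903))))))), by decide +kernel⟩

def k178_A00pm_123_s3 : ∃ t, chk3 f_A00pm_123_s3 t 503 228 2 = true :=
  ⟨(a (b (a (c (b (l 535148815) (l 534977295)) (b (l 535074319) (l 535035919))) (c (b (a (l 535022863) (l 535028751)) (a (l 534985487) (l 534991887))) (b (a (l 535081231) (l 535086351)) (a (l 535043087) (l 535048463))))) (a (c (b (l 534940175) (l 534904079)) (b (l 534997775) (l 534960655))) (c (b (l 534952719) (l 534917391)) (b (a (l 535005711) (l 535011855)) (a (l 534969103) (l 534975759)))))) (c (c (a (b (b (l 535025935) (l 534990607)) (b (l 534955791) (l 534921743))) (b (a (b (l 535038735) (l 535004431)) (b (l 535049743) (l 535015951))) (b (l 534976527) (l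 534943247)))) (b (a (b (l 535052559) (l 535016463)) (a (b (l 535064591) (l 535029775)) (b (l 535075343) (l 535041039)))) (a (b (l 534981391) (l 534946831)) (b (a (l 534995471) (l 535007247)) (a (l 534961423) (l 534973711)))))) (b (a (a (b (l 535091983) (l 535054863)) (b (l 535098639) (c (l 535047951) (l 535077135)))) (c (a (b (l 535092239) (l 535056911)) (b (l 535102479) (l 535067663))) (a (b (l 535121423) (l 535085583)) (b (a (l 535128591) (l 535134223)) (l 535096335))))) (a (a (b (l 535018767) (l 534983183)) (c (b (l 535012623) (l 534977807)) (b (l 535041295) (l 535005967)))) (a (c (b (l 535022095) (l 534987791)) (b (l 535050511) (l 535015695))) (c (b (l 535033359) (l 534999567)) (b (l 535061519) (l 535026959)))))))), by decide +kernel⟩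

def k179_A00pm_123_s3 : ∃ t, chk3 f_A00pm_123_s3 t 503 229 2 = true :=
  ⟨(a (c (a (b (b (l 534868495) (l 534833935)) (b (l 534799631) (l 534765839))) (b (b (l 534882831) (a (l 16774320) (l 534852879))) (b (c (l 16774144) (l 16774184)) (l 535050511)))) (b (a (b (l 534924303) (l 534888463)) (a (l 535184143) (b (l 534940431) (l 534905359)))) (a (b (l 534853391) (l 534818831)) (b (a (l 16774136) (l 534871055)) (a (l 16773872) (l 16774088)))))) (c (a (b (c (b (l 534888207) (l 534855183)) (b (l 534912783) (l 534878991))) (b (c (l 534822415) (l 534845967)) (a (l 16774240) (l 534806543)))) (b (c (b (l 534910479) (l 534877967)) (b (l 534934287) (l 534901263))) (b (c (l 534845711) (l 534868495)) (c (l 534813711) (l 534835983))))) (c (b (a (b (l 534938895) (l 534904847)) (b (a (l 534953743) (l 534965775)) (l 535194639))) (a (b (l 534871311) (l 534838031)) (b (l 534893071) (l 534860303)))) (b (a (b (l 534967055) (l 534932495)) (b (a (l 534981135) (l 534992911)) (a (l 534947087) (l 534958863)))) (a (b (l 534898191)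 (l 534864655)) (b (a (l 534913295) (l 534925327)) (l 535154447))))))), by decide +kernel⟩

def k180_A00pm_123_s3 : ∃ t, chk3 f_A00pm_123_s3 t 1006 114 3 = true :=
  ⟨(b (b (b (a (c (l 534873103) (a (l 535214095) (l 535217167))) (c (a (l 535147023) (l 535151119)) (c (l 534934543) (l 535106831)))) (a (c (l 534833423) (l 535041039)) (c (l 534841615) (c (l 534894607) (l 534932239))))) (b (c (a (l 535062799) (l 534803727)) (a (l 534866703) (c (l 534855951) (l 534892815)))) (c (a (l 535024655) (l 534766351)) (a (l 534827535) (c (l 535086351) (l 534854415)))))) (c (a (b (c (l 534684175) (l 534717199)) (a (l 534893583) (l 534630927))) (b (c (l 534695951) (a (l 16774632) (l 534731023))) (c (l 534625551) (l 534656783)))) (a (b (a (l 534768143) (l 534772239)) (a (l 534693647) (l 534698255))) (b (c (a (l 535027727) (l 534764815)) (b (l 534816783) (l 534779407))) (c (a (l 16774176) (l 16774384)) (a (l 16774232) (l 534727439))))))), by decide +kernel⟩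

def k181_A00pm_123_s3 : ∃ t, chk3 f_A00pm_123_s3 t 1007 114 3 = true :=
  ⟨(b (c (a (b (a (c (l 534851855) (l 534885391)) (b (l 534893327) (c (l 535108111) (l 535141135)))) (c (b (a (l 535064591) (l 535071759)) (a (l 535028239) (l 535036175))) (a (l 534810383) (l 534817807)))) (a (b (b (c (l 535152655) (l 535185423)) (c (l 535116303) (l 535148815))) (c (b (l 535080719) (l 535045391)) (b (l 535112463) (l 535076879)))) (b (c (b (a (l 535159311) (l 535164943)) (l 535126543)) (b (a (l 535192079) (l 535197455)) (l 534890255))) (b (c (l 535091215) (l 535122959)) (c (l 535056399) (l 535087375)))))) (a (b (c (a (l 534920719) (b (l 535213839) (l 535175695))) (b (a (l 535246095) (l 535250703)) (a (l 535206671) (l 535212047)))) (c (a (l 534844943) (b (l 535138319) (l 535101711))) (b (a (l 535168271) (l 535174415)) (c (l 534856463) (l 534874639))))) (b (a (c (b (l 534951695) (l 535182863)) (b (l 534988303) (l 534950415))) (c (b (l 534993935) (l 534924047)) (b (l 535063567) (l 534959375)))) (c (a (b (l 535146255) (l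 535110159)) (b (l 535156239) (l 535120399))) (a (b (l 535181839) (l 535144975)) (b (l 535191311) (l 535154959))))))) (c (a (b (c (b (a (l 534992655) (l 535000847)) (a (l 16774872) (l 534966031))) (a (l 534738191) (l 534746127))) (c (b (l 534927119) (l 534893071)) (a (l 534667535) (l 534676239)))) (b (c (b (a (l 535010319) (l 535021839)) (a (l 534976015) (l 534987279))) (a (l 534755599) (b (l 535052303) (l 535017487)))) (c (b (a (l 534941711) (l 534953231)) (a (l 16774800) (l 534919695))) (a (l 534686223) (l 534697487))))) (a (b (c (a (l 534771471) (l 534779151)) (b (l 534828559) (l 534792207))) (c (b (l 534721807) (l 534686735)) (b (l 534756111) (l 534720527)))) (b (c (a (l 534855183) (b (l 535084815) (l 535049487))) (b (a (l 535108879) (l 535118863)) (l 534876687))) (c (b (l 534740751) (l 534705935)) (b (l 534774031) (l 534738959))))))), by decide +kernel⟩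

def k182_A00pm_123_s3 : ∃ t, chk3 f_A00pm_123_s3 t 502 115 1 = true :=
  ⟨(b (c (c (a (b (a (l 16771128) (l 16771600)) (a (l 16770472) (l 16770968))) (b (a (l 16772072) (l 534970383)) (a (l 16771456) (l 16771952)))) (a (a (l 16770968) (b (l 16771744) (l 16771112))) (b (a (l 534743823) (a (l 16772544) (l 16772776))) (a (l 16771592) (c (l 16772040) (l 16772104)))))) (a (b (a (c (l 16771472) (l 16771672)) (c (l 16771912) (l 16772096))) (a (c (l 16770824) (l 16771040)) (c (l 16771288) (l 16771480)))) (b (c (a (l 534537487) (l 534546703)) (a (l 16772512) (l 534614543))) (c (a (l 16771744) (l 534477583)) (a (l 16771920) (l 16772360)))))) (c (a (b (c (l 16767432) (l 16767600)) (a (l 16769200) (l 16767096))) (c (b (a (l 16770824) (l 16771336)) (a (l 16770168) (l 16770704))) (b (a (l 16770960) (l 16771456)) (a (l 16770312) (l 16770832))))) (c (a (a (l 16769832) (l 16770320)) (b (a (l 16771120) (l 16768984)) (a (l 16770480) (l 16770984)))) (a (b (a (l 16770384) (l 16770848)) (l 16769952)) (b (a (l 16771304) (l 16771768))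 (a (l 16770672) (l 16771152))))))), by decide +kernel⟩

def k183_A00pm_123_s3 : ∃ t, chk3 f_A00pm_123_s3 t 503 115 2 = true :=
  ⟨(b (a (c (a (b (b (l 16773160) (l 16772872)) (c (l 16772416) (l 16772464))) (b (b (l 534749455) (l 534717199)) (c (l 16772904) (l 16772952)))) (b (b (a (l 534784527) (c (l 16773688) (l 16773736))) (a (l 534750991) (c (l 16773416) (l 16773464)))) (a (c (l 16772520) (l 16772576)) (c (l 16773000) (a (l 16772928) (l 16773168)))))) (c (a (b (b (c (l 16774072) (l 16774104)) (l 534737167)) (a (l 534684431) (l 534695439))) (b (b (c (l 534781967) (l 534803983)) (c (l 16774280) (l 534772239))) (b (l 534998287) (l 534699023)))) (b (a (b (c (l 534805007) (l 534831119)) (c (l 16773880) (l 534798095))) (b (c (l 534827535) (l 534853135)) (c (l 534795279) (l 534820367)))) (a (b (c (l 16773608) (l 16773656)) (c (l 16773336) (l 16773384))) (b (a (l 16773984) (l 534781455)) (a (l 16773720) (l 16773960))))))) (a (c (b (a (l 16771840) (c (l 16772328) (l 16772376))) (a (l 16771232) (l 16771752))) (b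 (a (c (l 16771928) (l 16771984)) (c (l 16772424) (l 16772480))) (a (l 16771344) (c (l 16771832) (l 16771888))))) (c (b (a (c (l 16772840) (l 16772880)) (a (l 534646287) (l 534659599))) (a (c (l 16772264) (l 16772304)) (c (l 16772784) (l 16772824)))) (b (a (a (l 16772816) (c (l 16773048) (l 16773088))) (b (c (l 16773552) (l 16773592)) (c (l 16773280) (l 16773320)))) (a (c (l 16772352) (l 16772400)) (c (l 16772864) (c (l 16772896) (l 16772920)))))))), by decide +kernel⟩

def k184_A00pm_123_s3 : ∃ t, chk3 f_A00pm_123_s3 t 503 115 3 = true :=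
  ⟨(b (a (c (b (a (a (l 534823183) (l 534561039)) (a (l 534567695) (c (l 16773760) (l 16773816)))) (a (c (l 16772632) (l 16772704)) (a (l 534500111) (l 534508047)))) (b (a (c (l 16773328) (l 16773400)) (c (l 534619407) (a (l 16773712) (l 16773920)))) (a (c (l 16772768) (l 16772840)) (c (l 16773216) (l 16773280))))) (c (b (b (a (c (l 534859279) (l 534888975)) (a (l 534888719) (c (l 16774768) (l 534914831)))) (a (a (l 534835215) (l 534844687)) (a (l 534855183) (l 534866959)))) (a (a (l 534516751) (c (l 16773680) (l 16773728))) (a (b (l 534821903) (l 534789135)) (b (l 534833679) (l 534800911))))) (b (a (c (a (l 534630415) (l 16774296)) (a (l 16774136) (l 534671887))) (c (b (l 534671631) (l 534637327)) (b (l 534704143) (l 534669583)))) (a (c (c (l 16773656) (l 16773680)) (a (l 16773616) (l 16773832))) (c (a (l 534581007) (l 16774232)) (a (l 16774056) (l 16774272))))))) (a (c (b (a (c (l 16772048) (l 16772120)) (c (l 16772536) (l 16772592))) (a (c (l 16771448) (l 16771520)) (c (l 16771952) (l 16772016)))) (b (a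 (c (l 16772192) (l 16772272)) (c (l 534482959) (l 16772728))) (a (l 16771632) (c (l 16772080) (l 16772152))))) (c (b (a (c (a (l 16772896) (l 16773136)) (l 534470415)) (c (a (l 16773376) (l 16773624)) (b (l 534776335) (l 16773408)))) (a (c (l 16772448) (l 534405903)) (c (a (l 16772824) (l 16773080)) (a (l 16772880) (l 16773128))))) (b (a (c (l 16773128) (a (l 16773072) (l 16773304))) (c (c (l 16773584) (l 16773608)) (c (l 16773632) (l 16773664)))) (a (c (l 534434575) (l 16772632)) (c (l 16773056) (a (l 16772992) (l 16773232)))))))), by decide +kernel⟩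

def k185_A00pm_123_s3 : ∃ t, chk3 f_A00pm_123_s3 t 250 29 2 = true :=
  ⟨(c (b (b (a (a (l 16763080) (l 16764208)) (b (a (l 16766120) (l 16767224)) (a (l 16764544) (l 16765728)))) (a (a (l 16759616) (l 16755632)) (b (a (l 16762944) (l 16764192)) (a (l 16761328) (l 16762640))))) (b (a (l 16751560) (a (l 16758896) (l 16755056))) (a (b (l 16754232) (b (l 16753072) (a (b (l 16741336) (l 16751944)) (l 16742624)))) (b (l 16757192) (l 16755616))))) (a (b (b (a (l 16763400) (l 16764488)) (a (l 16759936) (l 16761160))) (b (l 16757088) (b (l 16754496) (a (b (l 16752568) (b (l 16741592) (l 16752160))) (l 16743312))))) (b (b (b (a (l 16766360) (l 16762184)) (a (l 16764792) (l 16765936))) (a (l 16762392) (b (l 16764400) (l 16762848)))) (b (a (l 16748640) (l 16755248)) (b (l 16757384) (l 16755792)))))), by decide +kernel⟩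

def k186_A00pm_123_s3 : ∃ t, chk3 f_A00pm_123_s3 t 250 29 3 = true :=
  ⟨(c (c (a (b (b (a (l 16763672) (l 16764728)) (l 16760808)) (b (l 16757344) (b (l 16754736) (b (l 16753568) (a (l 16741832) (l 16753544)))))) (b (b (a (l 16765800) (b (l 16767608) (l 16766112))) (a (l 16762608) (l 16763824))) (b (a (l 16759328) (l 16760672)) (l 16756776)))) (b (b (a (a (l 16763872) (l 16764904)) (b (a (l 16766712) (l 16767728)) (a (l 16765152) (l 16766248)))) (a (l 16760992) (a (l 16762760) (l 16763952)))) (b (a (l 16757528) (a (l 16759480) (l 16760800))) (a (b (l 16754920) (a (b (l 16753000) (l 16741992)) (l 16743680))) (l 16756904))))) (c (a (b (b (a (l 16764080) (l 16765080)) (a (l 16760624) (l 16761768))) (b (l 16757728) (b (l 16755112) (a (b (l 16753200) (l 16742168)) (l 16743864))))) (b (b (b (a (l 16766864) (l 16767864)) (a (l 16765312) (l 16766384))) (a (l 16762928) (l 16764096))) (b (a (l 16759648) (l 16760944)) (l 16757056)))) (a (b (b (a (l 16764296) (l 16765272)) (a (l 16760856) (l 16761968))) (b (l 16757944)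 (b (l 16755320) (a (b (l 16753424) (l 16742368)) (l 16744048))))) (b (b (b (a (l 16767032) (l 16768008)) (a (l 16765488) (l 16766536))) (b (l 16764456) (l 16762864))) (b (a (l 16759824) (l 16761104)) (l 16757208)))))), by decide +kernel⟩

def k187_A00pm_123_s3 : ∃ t, chk3 f_A00pm_123_s3 t 502 116 1 = true :=
  ⟨(c (b (a (c (a (l 16768056) (l 16768616)) (l 16768512)) (c (b (a (l 16769504) (l 16770056)) (l 16769112)) (a (l 16766704) (b (l 16770192) (l 16769536))))) (a (c (a (l 16766608) (l 16767200)) (a (l 16766800) (l 16767376))) (c (c (l 16768056) (l 16765504)) (c (l 16765576) (l 16765656))))) (b (a (c (a (l 16768448) (l 16763728)) (a (l 16768688) (l 16769192))) (c (a (l 16769496) (l 16770024)) (a (l 16769696) (c (l 16770160) (l 16770256))))) (a (c (l 16767296) (l 16767536)) (c (b (l 16766128) (l 16768064)) (a (l 16768344) (l 16768888)))))), by decide +kernel⟩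

def k188_A00pm_123_s3 : ∃ t, chk3 f_A00pm_123_s3 t 503 116 1 = true :=
  ⟨(c (b (a (c (b (a (l 16770600) (l 16771144)) (c (l 16770216) (l 16770272))) (b (a (l 16770720) (l 16771256)) (a (l 16770088) (l 16770632)))) (c (b (a (l 16771688) (c (l 16772216) (l 16772248))) (a (l 16771088) (l 16771648))) (b (a (c (l 16771760) (l 16771816)) (c (l 16772296) (l 16772336))) (a (l 16771184) (c (l 16771712) (l 16771760)))))) (a (c (b (c (l 16769568) (l 16769624)) (l 16766320)) (a (b (l 16769432) (l 16768768)) (c (l 16769656) (l 16769720)))) (c (b (a (l 16770472) (l 16771048)) (a (l 16769840) (l 16770432))) (b (a (l 16770568) (c (l 16771112) (l 16771160))) (a (l 16769944) (l 16770528)))))) (b (a (c (b (a (l 16770864) (c (l 16771344) (l 16771416))) (a (l 16770232) (l 16770768))) (b (a (l 16768400) (l 16771528)) (a (l 16770400) (l 16768296)))) (c (b (a (c (l 16771872) (l 16771928)) (c (l 16772392) (a (l 16772312) (l 16772568)))) (a (c (l 16771272) (l 16771336)) (c (l 16771808) (l 16771864)))) (b (a (c (l 16771992) (l 16772064))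 (c (a (l 16772376) (l 16772624)) (l 16772560))) (a (c (l 16771400) (l 16771472)) (b (l 534391055) (l 534326287)))))) (a (c (b (a (l 16769584) (l 16770136)) (a (l 16768928) (l 16769496))) (b (a (l 16769760) (l 16770296)) (a (l 16769104) (l 16769656)))) (a (c (b (l 16768072) (l 16770072)) (c (l 16770488) (l 16770568))) (c (b (c (l 16771216) (l 16771272)) (c (l 16770608) (l 16770672))) (b (c (l 16771336) (l 16771408)) (c (l 16770736) (l 16770808)))))))), by decide +kernel⟩

def k189_A00pm_123_s3 : ∃ t, chk3 f_A00pm_123_s3 t 251 117 1 = true :=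
  ⟨(a (b (c (a (c (l 16765440) (l 16765624)) (c (a (l 16766384) (l 16767008)) (a (l 16766536) (l 16767152)))) (a (c (l 16760592) (l 16766080)) (c (l 16767024) (a (l 16766944) (l 16767520))))) (c (a (c (l 16763952) (l 16764128)) (c (l 16765272) (l 16760176))) (a (a (l 16758912) (l 16764768)) (c (a (l 16765280) (l 16765912)) (l 16765808))))) (b (c (c (a (c (l 16767920) (l 16765352)) (a (l 16766256) (c (l 16769480) (l 16769520)))) (a (a (l 16767760) (l 16765752)) (a (c (l 16768960) (l 16769016)) (c (l 16769568) (l 16767000))))) (c (a (b (a (l 16768256) (l 16768848)) (l 16765256)) (b (a (l 16769432) (l 16770024)) (a (l 16768784) (l 16769392)))) (a (a (l 16768104) (l 16768680)) (b (a (l 16769584) (l 16767536)) (a (l 16768936) (l 16769528)))))) (c (a (c (a (l 16766256) (l 16766912)) (a (l 16766384) (l 16767032))) (b (a (l 16765328) (c (l 16768544) (l 16768640))) (c (l 16767568) (l 16765040)))) (c (a (a (l 16766544) (l 16767176)) (a (l 16765184) (b (l 16768752) (l 16768104)))) (a (c (l 16766992) (l 16767088)) (b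 (a (l 16768288) (l 16768896)) (a (l 16767624) (l 16768248)))))))), by decide +kernel⟩

def k190_A00pm_123_s3 : ∃ t, chk3 f_A00pm_123_s3 t 251 59 1 = true :=
  ⟨(b (a (b (c (a (c (l 16762448) (l 16762616)) (c (l 16763824) (l 16763968))) (a (a (l 16762624) (l 16758032)) (c (l 16764144) (l 16764360)))) (c (a (l 16761016) (c (l 16762376) (l 16762512))) (a (l 16756176) (a (l 16762440) (l 16757872))))) (b (a (c (c (l 16765208) (a (l 16764984) (l 16765664))) (c (a (l 16765136) (l 16765800)) (l 16765648))) (c (b (c (l 16766912) (l 16767008)) (c (l 16766248) (l 16766336))) (b (c (l 16764504) (a (l 16766952) (l 16767592))) (a (l 16763576) (l 16764240))))) (a (c (c (l 16763816) (l 16763920)) (c (l 16758816) (l 16758992))) (c (c (l 16762632) (a (l 16764984) (l 16765688))) (b (c (l 16765784) (l 16765928)) (c (l 16765104) (l 16765248))))))) (a (b (c (a (l 16759496) (l 16755736)) (a (l 16754640) (c (l 16761208) (l 16761400)))) (a (c (l 16757992) (l 16758352)) (c (l 16759528) (l 16754576)))) (b (a (c (c (l 16762424) (l 16762512))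 (b (l 16757832) (l 16762360))) (c (c (l 16763912) (l 16763984)) (b (c (l 16764424) (l 16764560)) (c (l 16763744) (l 16763880))))) (a (c (l 16755824) (b (l 16761656) (l 16760944))) (c (c (l 16762576) (l 16762632)) (b (l 16757880) (l 16762440))))))), by decide +kernel⟩

def k191_A00pm_123_s3 : ∃ t, chk3 f_A00pm_123_s3 t 124 30 1 = true :=
  ⟨(b (b (a (c (b (l 16741304) (l 16743168)) (b (l 16730736) (l 16732080))) (c (b (c (l 16741856) (l 16741872)) (b (l 16743144) (l 16744024))) (b (l 16742000) (c (l 16732848) (l 16732728))))) (a (c (b (l 16745112) (l 16747160)) (b (l 16743984) (b (l 16734592) (l 16735352)))) (c (b (b (l 16744928) (l 16745848)) (c (l 16747616) (l 16746944))) (b (c (l 16744776) (l 16744400)) (a (l 16756288) (l 16746216)))))) (a (b (c (b (l 16749312) (b (l 16750984) (l 16752144))) (b (c (l 16737112) (l 16746456)) (c (l 16749416) (l 16747952)))) (b (c (b (l 16753328) (l 16754536)) (a (l 16750536) (l 16750432))) (c (b (l 16755776) (l 16757048)) (a (l 16752448) (l 16752264))))) (b (c (b (c (l 16749712)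 (l 16754032)) (a (l 16761832) (l 16751376))) (b (a (l 16747272) (l 16752864)) (a (l 16754072) (a (l 16759512) (l 16749200))))) (c (a (b (l 16764056) (l 16755888)) (b (l 16753488) (l 16755688))) (a (b (l 16755720) (l 16757472)) (b (a (l 16750608) (l 16750744)) (a (l 16752296) (l 16752376)))))))), by decide +kernel⟩

def k192_A00pm_123_s3 : ∃ t, chk3 f_A00pm_123_s3 t 125 120 1 = true :=
  ⟨(a (b (a (c (a (l 16753096) (b (b (l 16747600) (l 16753264)) (l 16753856))) (a (l 16753384) (b (l 16742936) (l 16754096)))) (b (a (c (b (l 16754064) (b (l 16748576) (l 16743288))) (a (l 16748848) (l 16744272))) (l 16750240)) (a (c (l 16754232) (l 16754536)) (c (b (a (l 16744032) (l 16755200)) (l 16749600)) (b (l 16750064) (l 16744672)))))) (c (a (l 16754880) (l 16750384)) (a (l 16754776) (l 16745176)))) (a (b (c (a (b (l 16756872) (l 16751040)) (l 16758096)) (a (b (l 16757208) (l 16751360)) (l 16758360))) (b (b (a (c (a (l 16755584) (l 16750888)) (a (l 16755848) (l 16756408))) (l 16752064)) (a (c (l 16756104) (l 16756288))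 (c (a (l 16751376) (l 16757320)) (a (l 16746360) (l 16757544))))) (c (a (l 16756672) (b (a (l 16756856) (l 16751896)) (l 16757344))) (a (l 16756720) (a (l 16757144) (b (l 16746832) (l 16757576))))))) (a (c (b (l 16759680) (b (l 16758648) (b (l 16753016) (a (l 16752464) (l 16753096))))) (b (l 16754648) (b (l 16758832) (b (a (l 16758016) (l 16758712)) (a (l 16757832) (l 16753240)))))) (b (c (b (l 16761592) (l 16760928)) (b (l 16761760) (l 16761080))) (c (l 16754704) (b (l 16760408) (l 16759736))))))), by decide +kernel⟩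

def k193_A00pm_123_s3 : ∃ t, chk3 f_A00pm_123_s3 t 125 121 1 = true :=
  ⟨(a (c (b (a (l 16756560) (l 16746720)) (a (l 16747816) (l 16753608))) (b (a (l 16745520) (l 16751592)) (a (l 16752048) (a (l 16757840) (l 16747776))))) (a (c (b (l 16752784) (b (l 16759168) (l 16759960))) (b (a (l 16757568) (l 16747624)) (c (l 16748616) (l 16753568)))) (b (b (a (c (l 16753088) (l 16753112)) (a (b (c (b (l 16758872) (l 16753528)) (b (l 16758992) (l 16753624))) (l 16753736)) (b (l 16759576) (c (a (l 16753960) (l 16754296)) (a (l 16754024) (l 16754368)))))) (c (l 16754120) (l 16754000))) (c (b (l 16754840) (l 16755568)) (c (l 16754888) (l 16754704)))))), by decide +kernel⟩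

def k194_A00pm_123_s3 : ∃ t, chk3 f_A00pm_123_s3 t 125 61 1 = true :=
  ⟨(a (b (c (a (b (l 16754888) (l 16756800)) (b (b (l 16760128) (l 16761008)) (c (l 16762808) (l 16761928)))) (a (b (a (l 16758488) (l 16748296)) (b (l 16749168) (l 16755128))) (b (b (l 16748480) (l 16754360)) (c (l 16755800) (l 16754912))))) (c (a (b (l 16758792) (l 16760864)) (b (c (l 16764792) (l 16763680)) (a (l 16766152) (l 16755744)))) (a (b (b (l 16755864) (l 16756624)) (a (l 16757744) (l 16757896))) (b (c (l 16757304) (l 16756160)) (c (l 16758888) (l 16757480)))))) (b (c (a (b (b (l 16760760) (l 16756336)) (a (l 16757480) (l 16757752))) (b (b (l 16756312) (l 16757064)) (c (l 16758552) (l 16757920)))) (a (b (c (l 16755136) (l 16754624)) (c (l 16756472) (a (l 16760752) (l 16761192)))) (b (c (a (l 16761072) (l 16761576)) (c (l 16755768) (l 16755576))) (c (c (l 16757448) (l 16757136)) (c (l 16756824) (l 16756512)))))) (c (a (b (a (l 16759248) (l 16759456)) (c (l 16761744) (l 16760552))) (b (a (l 16759712) (l 16759992)) (c (l 16762024)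 (c (l 16761240) (l 16760712))))) (b (a (c (l 16757864) (a (l 16761928) (l 16762312))) (c (c (l 16758784) (l 16758360)) (c (l 16757936) (l 16757504)))) (a (c (c (l 16759632) (l 16759016)) (a (l 16763168) (l 16758264))) (c (b (l 16759568) (l 16760248)) (a (l 16758632) (l 16759040)))))))), by decide +kernel⟩

def k195_A00pm_123_s3 : ∃ t, chk3 f_A00pm_123_s3 t 124 62 1 = true :=
  ⟨(b (a (c (a (a (l 16760912) (l 16760560)) (c (l 16761248) (l 16758912))) (a (c (l 16756904) (l 16754256)) (b (l 16754224) (l 16756312)))) (c (a (b (l 16758304) (l 16760824)) (b (l 16757976) (l 16760368))) (a (b (a (l 16764600) (l 16754080)) (a (l 16766616) (l 16756040))) (b (a (l 16754080) (l 16754112)) (a (l 16755984) (l 16755960)))))) (c (a (b (l 16764544) (b (a (l 16756576) (l 16776816)) (a (l 16776296) (l 16755464)))) (b (a (l 16773936) (l 16762848)) (b (l 16765080) (a (l 16765952) (l 16765792))))) (a (b (a (l 16759016) (l 16758544)) (b (a (l 16760728) (l 16760344)) (a (l 16770040) (l 16759928)))) (b (a (l 16758192) (a (l 16758016)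 (l 16757928))) (b (c (l 16761056) (l 16758248)) (a (c (l 16761704) (l 16758736)) (b (l 16770856) (l 16760472)))))))), by decide +kernel⟩

def k196_A00pm_123_s3 : ∃ t, chk3 f_A00pm_123_s3 t 125 62 1 = true :=
  ⟨(a (b (c (a (b (l 16763024) (l 16765272)) (b (c (l 16768984) (l 16756928)) (a (l 16759864) (l 16759776)))) (a (b (a (l 16754184) (l 16759520)) (c (l 16757016) (l 16754928))) (b (c (l 16760552) (l 16758888)) (c (l 16757064) (l 16760408))))) (c (a (b (l 16762352) (a (l 16764960) (l 16764624))) (b (l 16767216) (l 16764192))) (a (b (a (l 16757880) (l 16757856)) (b (l 16759344) (c (l 16761688) (l 16759120)))) (b (c (l 16758928) (l 16762048)) (c (l 16760888) (l 16758592)))))) (b (c (a (b (c (l 16758480) (l 16762312)) (a (l 16759728) (l 16764952))) (b (c (l 16763832) (a (l 16767760) (l 16767928))) (c (l 16765672) (l 16764256)))) (a (b (c (l 16760864) (b (l 16759040) (l 16759720))) (c (l 16762488) (c (l 16761216) (l 16760352)))) (b (c (c (l 16761640) (l 16760992)) (a (l 16759848) (l 16760208))) (c (c (l 16763168)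 (l 16762432)) (a (l 16761168) (l 16761464)))))) (c (a (b (a (l 16761760) (l 16761648)) (l 16768976)) (b (c (l 16767552) (l 16765984)) (c (l 16764224) (l 16767776)))) (a (b (c (l 16764208) (l 16762312)) (c (l 16760776) (l 16763960))) (b (c (l 16764368) (b (l 16762336) (l 16763056))) (c (l 16766016) (c (l 16764664) (l 16763744)))))))), by decide +kernel⟩

def k197_A00pm_123_s3 : ∃ t, chk3 f_A00pm_123_s3 t 62 126 1 = true :=
  ⟨(a (c (a (b (a (l 16751664) (l 16752144)) (c (l 16758992) (l 16756488))) (b (a (l 16763120) (l 16763608)) (a (l 16758904) (l 16759664)))) (c (a (b (l 16758104) (c (l 16754560) (l 16753248))) (b (l 16759448) (c (l 16756384) (l 16755200)))) (a (b (l 16755128) (a (l 16750744) (l 16751776))) (b (b (l 16757592) (l 16755872)) (a (l 16752848) (l 16753944)))))) (a (c (b (b (a (l 16764928) (a (l 16765128) (l 16765184))) (l 16768656)) (a (l 16760424) (l 16766416))) (b (a (b (a (l 16770392) (l 16760184)) (l 16758488)) (b (a (l 16765704) (c (l 16761864) (l 16759544))) (l 16759360))) (a (b (l 16756936)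 (l 16755424)) (c (l 16758248) (l 16761456))))) (b (c (b (a (b (l 16775512) (l 16765168)) (a (l 16775432) (l 16775184))) (a (l 16774712) (c (l 16765472) (l 16768968)))) (a (b (b (l 16760888) (c (l 16762088) (l 16765176))) (l 16765472)) (b (a (l 16766392) (l 16771632)) (a (l 16760848) (b (l 16766728) (l 16771520)))))) (c (a (a (l 16761728) (l 16762096)) (a (l 16762456) (l 16768056))) (a (c (l 16759224) (l 16762608)) (c (l 16765440) (c (l 16764184) (l 16763320)))))))), by decide +kernel⟩

def k198_A00pm_123_s3 : ∃ t, chk3 f_A00pm_123_s3 t 62 127 1 = true :=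
  ⟨(a (c (c (a (b (l 16754344) (a (l 16759664) (l 16760888))) (b (l 16761520) (a (l 16762120) (l 16763344)))) (a (b (c (l 16752704) (l 16751592)) (a (l 16747288) (l 16748616))) (b (c (l 16754816) (l 16759064)) (a (l 16749952) (l 16751296))))) (a (b (c (a (l 16749312) (l 16750496)) (a (l 16746960) (l 16748248))) (c (a (b (l 16756816) (l 16754896)) (b (l 16758184) (l 16756384))) (a (c (l 16743904) (l 16742920)) (c (l 16745416) (l 16744480))))) (b (a (c (l 16751704) (l 16749568)) (c (l 16752920) (l 16756168))) (a (c (b (l 16759576) (l 16757896)) (c (l 16746944) (l 16751312))) (b (a (l 16749272) (l 16750008)) (c (l 16759416) (l 16757896))))))) (a (c (c (a (b (l 16768216) (l 16754088)) (b (l 16769168) (l 16755304))) (b (a (l 16766448) (l 16757056)) (a (b (l 16763952) (l 16762312)) (l 16759232)))) (b (a (c (l 16754152) (l 16757536)) (c (l 16760624) (l 16758912))) (a (c (b (l 16762392) (l 16760944)) (a (l 16754536) (l 16755336))) (c (a (l 16752288) (l 16758264)) (b (l 16762352) (l 16755960)))))) (b (c (a (a (l 16758632)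 (l 16764376)) (c (l 16765784) (l 16764456))) (a (c (l 16761856) (c (l 16760696) (l 16759904))) (c (c (l 16763432) (l 16762736)) (a (l 16761336) (l 16762024))))) (c (a (c (l 16761760) (b (l 16766504) (l 16765120))) (b (l 16763096) (c (l 16767496) (l 16766512)))) (a (b (a (l 16758952) (l 16759688)) (c (l 16764000) (a (l 16762448) (l 16763272)))) (b (a (l 16760424) (l 16761160)) (c (l 16760272) (a (l 16764096) (l 16764912))))))))), by decide +kernel⟩

def k199_A00pm_123_s3 : ∃ t, chk3 f_A00pm_123_s3 t 252 112 1 = true :=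
  ⟨(l 4), by decide +kernel⟩

def k200_A00pm_123_s3 : ∃ t, chk3 f_A00pm_123_s3 t 504 113 2 = true :=
  ⟨(b (l 4) (a (c (b (a (b (l 4) (a (c (b (b (l 4) (c (l 535164175) (l 535176975))) (l 535157775)) (b (b (l 4) (c (l 535190287) (l 535204111))) (l 535184399))) (l 4))) (l 4)) (a (a (c (b (a (l 535128335) (l 535135759)) (l 535097871)) (b (a (l 535154447) (l 535161871)) (l 535123727))) (c (b (l 535147535) (l 535113487)) (b (l 535173391) (l 535138831)))) (a (b (l 4) (c (l 535129359) (l 535154447))) (l 4)))) (b (a (b (l 4) (a (a (c (b (b (l 4) (c (l 535214351) (l 535229199))) (l 535208719)) (b (b (l 4) (c (l 535244303) (a (l 535257871) (l 4)))) (c (l 535231247) (l 535246607)))) (b (l 4) (c (l 535216143) (l 535246095)))) (l 4))) (l 4)) (b (a (c (a (a (l 535182351) (l 535189775)) (l 535201039)) (a (a (b (l 535221007) (l 535203087)) (l 535219215)) (b (l 535239183) (l 535221263)))) (l 4)) (a (a (c (l 535150863) (a (l 535176463) (l 535183631))) (c (l 535165711) (b (l 535203343) (l 535185679)))) (a (c (l 535181071)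 (b (l 535218447) (l 535200783))) (l 4)))))) (l 4))), by decide +kernel⟩

def k201_A00pm_123_s3 : ∃ t, chk3 f_A00pm_123_s3 t 504 113 3 = true :=
  ⟨(b (l 4) (a (c (b (a (a (b (l 4) (a (c (b (a (b (l 4) (c (l 535273999) (b (l 535292431) (l 535288591)))) (l 4)) (c (l 535262479) (l 535278863))) (b (a (b (l 4) (b (c (l 535309071) (l 535326479)) (c (l 535305231) (l 535322639)))) (l 4)) (c (l 535295503) (l 535312655)))) (b (l 4) (c (l 535277583) (l 535310863))))) (l 4)) (l 4)) (b (a (c (a (a (b (l 535252495) (l 535234319)) (l 535250447)) (b (a (l 535266575) (l 4)) (l 535251983))) (a (a (b (l 535285775) (l 535267343)) (l 535283471)) (b (l 535034639) (l 535016207)))) (l 4)) (a (b (a (c (l 535219983) (l 535252751)) (c (l 535234063) (l 535266319))) (a (c (l 535202063) (l 535234575)) (c (l 535216143) (l 535248143)))) (a (a (c (l 535235855) (l 534999567)) (c (l 535243279) (l 535006735))) (l 4))))) (b (a (b (l 4) (c (a (b (a (b (l 4) (c (c (l 535070991) (l 535079951)) (c (l 535089167) (l 535098383)))) (l 4)) (c (l 535065359)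 (l 535083535))) (l 4)) (a (a (a (b (b (l 4) (a (b (a (a (l 535388431) (l 4)) (l 4)) (c (l 535376399) (c (l 535390479) (b (c (l 535398927) (l 535403791)) (l 535398927))))) (b (l 4) (l 535387407)))) (c (l 535365391) (a (l 535383567) (l 535385103)))) (b (l 4) (l 535377935))) (b (l 4) (l 535382799))) (l 4)))) (l 4)) (a (c (a (b (a (b (l 535320847) (l 535302159)) (l 535318031)) (l 535043087)) (b (b (l 535069199) (l 535050511)) (c (l 535014159) (l 535031567)))) (a (b (a (b (l 535357455) (l 535338767)) (l 535354639)) (l 535112719)) (b (c (l 535086863) (l 535105551)) (l 535125775)))) (b (l 4) (a (a (c (l 535033103) (l 535068687)) (c (l 535040271) (l 535075599))) (l 4)))))) (l 4))), by decide +kernel⟩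

def k202_A00pm_123_s3 : ∃ t, chk3 f_A00pm_123_s3 t 505 113 1 = true :=
  ⟨(l 4), by decide +kernel⟩

def k203_A00pm_123_s3 : ∃ t, chk3 f_A00pm_123_s3 t 504 228 2 = true :=
  ⟨(a (a (c (b (b (c (a (l 535064079) (l 535079695)) (a (l 535089167) (l 535104527))) (c (l 535038479) (a (l 535055119) (l 535070223)))) (a (b (l 535009039) (l 534975759)) (b (l 535024399) (l 534991119)))) (b (c (b (a (l 535116303) (l 535130895)) (a (l 535081743) (l 535096335))) (b (a (l 535144719) (l 535159311)) (a (l 535109903) (l 535124239)))) (b (c (a (l 535047439) (l 535062287)) (a (l 535075087) (l 535089423))) (c (a (l 535013391) (l 535028239)) (a (l 535040783) (l 535055119)))))) (c (b (b (c (a (l 535095567) (l 535111695)) (a (l 535119887) (l 535136015))) (c (l 535070223) (a (l 535085839) (l 535101967)))) (a (b (l 535040015) (l 535006735)) (b (l 535190543) (l 535022863)))) (b (c (b (a (l 535146255) (l 535161871)) (a (l 535111695) (l 535127311))) (b (a (b (l 535183119) (l 535165455)) (b (l 535198479) (l 535180815))) (a (l 535139087)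 (l 535154447)))) (b (c (a (l 535077391) (l 535093007)) (a (l 535104527) (l 535119887))) (c (a (l 535043343) (l 535058959)) (a (l 535069967) (l 535085327))))))) (c (b (a (b (l 4) (c (l 535372047) (a (l 535118351) (l 4)))) (l 4)) (a (b (c (l 535070223) (a (l 535084559) (l 535101455))) (a (l 535039503) (l 535056399))) (a (b (l 4) (l 535074063)) (l 4)))) (b (b (l 4) (a (a (c (l 535143439) (b (l 535179023) (l 535161615))) (l 4)) (l 4))) (b (a (c (a (l 535109135) (l 535125775)) (a (l 535135503) (l 535151887))) (l 4)) (a (c (a (l 535075087) (l 535091727)) (a (l 535100943) (l 535117327))) (a (c (l 535108623) (l 535133967)) (l 4))))))), by decide +kernel⟩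

def k204_A00pm_123_s3 : ∃ t, chk3 f_A00pm_123_s3 t 504 229 2 = true :=
  ⟨(a (c (b (a (b (c (l 534939407) (l 534962447)) (c (l 534906895) (l 534929679))) (b (c (l 534970895) (l 534993423)) (c (l 534938383) (l 534960399)))) (a (b (c (l 534874639) (l 534896911)) (c (l 534842895) (l 534864655))) (b (c (l 534906127) (l 534927631)) (c (l 534874127) (l 534895375))))) (b (a (b (c (a (l 534979855) (l 534994447)) (a (l 535006479) (l 535020815))) (c (l 535155215) (a (l 534972687) (l 534987023)))) (b (c (a (l 535009551) (l 535025167)) (a (l 535035663) (l 535051023))) (c (a (l 534976271) (l 534991887)) (a (l 535001871) (l 535016975))))) (a (a (b (l 534925839) (l 534892815)) (b (l 534940431) (l 534907407))) (b (c (l 535219471) (a (l 534968079) (l 534983439))) (a (l 534922255) (l 534937615)))))) (c (b (a (b (c (l 535004431) (l 535160591)) (c (l 534971663) (l 534993167))) (a (b (l 535040783) (l 535008015)) (b (l 535058703) (l 535025935)))) (a (b (c (l 534939407) (l 534960399)) (c (l 534907407) (l 534927887))) (b (c (l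 534974735) (l 534994959)) (c (l 534942479) (l 534962447))))) (b (a (b (c (a (l 535041295) (l 535057935)) (a (l 535066639) (l 535083023))) (c (a (l 535007759) (l 535024399)) (a (l 535032847) (l 535048975)))) (c (b (a (l 535074831) (l 535092239)) (a (l 535041295) (l 535058703))) (b (a (l 535099663) (l 535116815)) (a (l 535065615) (l 535082767))))) (a (b (c (a (l 534974479) (l 534991119)) (a (l 534999055) (l 535015183))) (c (l 535218447) (a (l 534965775) (l 534981903)))) (b (c (a (l 535008015) (l 535025423)) (a (l 535031823) (l 535048975))) (c (a (l 534974991) (l 534992399)) (a (l 534998287) (l 535015439)))))))), by decide +kernel⟩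

def k205_A00pm_123_s3 : ∃ t, chk3 f_A00pm_123_s3 t 1008 228 3 = true :=
  ⟨(c (a (a (b (c (b (b (l 535184143) (l 535166223)) (l 535139855)) (b (l 534938895) (l 534903055))) (b (c (l 535104527) (l 535135759)) (c (l 535069711) (l 535100431)))) (b (c (b (b (l 535198223) (l 535180303)) (l 535153935)) (b (l 534952719) (l 534916623))) (b (c (l 535118607) (l 535149583)) (c (l 535083791) (l 535113999))))) (a (b (c (b (b (l 535212815) (l 535194895)) (b (l 535177231) (l 535159567))) (b (a (l 535231759) (l 535238927)) (l 534930959))) (b (c (l 535133199) (b (l 535172623) (l 535154703))) (c (l 535098127) (l 535128335)))) (b (c (b (b (l 535227919) (l 535209999)) (b (l 535192335) (l 535174671))) (b (c (b (l 535251215) (l 535233039)) (l 534989583)) (b (l 535223055) (l 535205135)))) (b (c (b (l 535157007) (l 535139343)) (b (l 535187215) (l 535169295))) (c (l 535113231) (b (l 535151631) (l 535133967))))))) (a (b (a (c (b (l 534972687) (l 534936335)) (b (l 535008527) (l 534971663))) (c (b (l 534986255) (l 534949647)) (b (l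 535021327) (l 534984463)))) (a (c (b (l 535168783) (l 535132943)) (b (l 535203343) (l 535166991))) (b (c (l 535182095) (l 534947855)) (c (l 535146255) (l 535180047))))) (b (b (c (a (c (l 534991631) (l 535008527)) (a (l 535010575) (l 535017999))) (a (l 535101967) (b (l 535058191) (l 535039503)))) (c (a (l 534963727) (c (l 534969615) (l 534986255))) (a (l 534998031) (l 535078927)))) (b (c (a (l 534927375) (l 534941711)) (a (l 534961423) (l 534975247))) (c (a (l 534891535) (l 534905871)) (a (l 534925071) (l 534938895))))))), by decide +kernel⟩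

def k206_A00pm_123_s3 : ∃ t, chk3 f_A00pm_123_s3 t 1008 229 3 = true :=
  ⟨(a (c (b (c (b (a (l 535035151) (l 535048975)) (a (l 535000591) (l 535014671))) (b (a (l 535065359) (l 535078927)) (a (l 535030543) (l 535044111)))) (c (b (a (l 534966799) (l 534980623)) (a (l 534933007) (l 534946831))) (a (l 534710543) (l 534724111)))) (b (b (c (b (l 534844687) (l 534827023)) (b (l 534878223) (l 534860303))) (c (b (l 534809359) (l 534791695)) (b (l 534842639) (l 534824719)))) (b (c (l 534765583) (l 534798351)) (c (l 534730767) (l 534763023))))) (c (b (b (c (a (l 535063567) (l 535078415)) (a (l 535093007) (l 535107599))) (c (a (l 535029263) (l 535044111)) (a (l 535058191) (l 535072783)))) (b (c (a (l 534994959) (l 535010063)) (a (l 535023631) (l 535038223))) (a (c (l 534961167) (l 534989327)) (c (l 534976015) (l 535003919))))) (b (b (c (a (l 535124495) (l 534870287)) (a (l 535157263) (l 534902799))) (c (b (l 534836751) (l 534819087)) (b (l 534869263) (l 534851343)))) (b (c (b (l 534801679) (l 534784015)) (b (l 534833679)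 (l 534816015))) (c (b (l 534766863) (l 534749455)) (b (l 534798351) (l 534780687))))))), by decide +kernel⟩

def k207_A00pm_123_s3 : ∃ t, chk3 f_A00pm_123_s3 t 1009 228 3 = true :=
  ⟨(b (b (l 4) (a (a (c (c (b (l 535207695) (l 535190031)) (b (l 535238159) (l 535220239))) (c (a (l 534988815) (l 534996239)) (a (l 535022607) (l 535030031)))) (l 4)) (l 4))) (c (b (a (a (c (b (l 535172367) (l 535154703)) (b (l 535202319) (l 535184399))) (c (b (l 535188239) (l 535170831)) (b (l 535217935) (l 535200015)))) (l 4)) (a (a (c (l 535128591) (b (l 535166735) (l 535149071))) (c (b (l 535153167) (l 535135759)) (b (l 535182351) (l 535164687)))) (a (c (b (l 535169551) (l 535152143)) (b (l 535198223) (l 535180559))) (l 4)))) (a (b (c (a (l 534990095) (c (l 534963727) (l 534979599))) (a (l 534989583) (c (l 534995983) (l 535012879)))) (c (a (l 534920463) (l 534935567)) (a (l 534953231) (l 534968079)))) (a (b (l 4) (c (c (l 534943503) (l 534959119)) (c (l 534975247) (l 534991631)))) (l 4))))), by decide +kernel⟩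

def k208_A00pm_123_s3 : ∃ t, chk3 f_A00pm_123_s3 t 1009 229 3 = true :=
  ⟨(b (c (a (b (a (c (l 535093775) (b (l 535131407) (l 535113999))) (c (l 535109647) (b (l 535147023) (l 535129359)))) (c (a (l 535059471) (l 535075343)) (a (l 535087887) (l 535103247)))) (b (a (c (l 535126031) (b (l 535162895) (l 535145487))) (c (b (l 535151631) (l 535134223)) (b (l 535179535) (l 535161871)))) (c (a (l 535091727) (l 535108367)) (a (b (l 535128079) (l 535110415)) (b (l 535144463) (l 535127055)))))) (a (b (c (a (l 534884879) (l 534899983)) (a (l 534917135) (l 534931983))) (c (a (l 534849551) (l 534864655)) (a (l 534881295) (l 534895887)))) (b (c (a (l 534915599) (c (l 534924303) (l 534939407))) (a (l 534947087) (c (l 534955023) (l 534970895)))) (c (a (l 534880271) (l 534896399)) (a (l 534911247) (l 534926863)))))) (c (a (b (c (a (l 535025167) (l 535041039)) (a (l 535053071) (l 535068687))) (c (a (l 534991375) (l 535007247)) (a (l 535018767) (l 535034383)))) (b (c (a (l 535057423) (l 535074063)) (a (l 535084559) (l 535235343)))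 (c (a (l 535023375) (l 535040271)) (a (l 535050255) (l 535066639))))) (a (b (c (b (l 534847503) (l 534813455)) (a (l 535113999) (l 534860303))) (c (b (l 534796047) (l 534778639)) (b (l 534826767) (l 534809103)))) (b (c (a (l 534844943) (l 534861071)) (a (l 534875663) (l 534891279))) (c (a (l 535078671) (l 534826255)) (a (l 534840335) (l 534855951))))))), by decide +kernel⟩

def k209_A00pm_123_s3 : ∃ t, chk3 f_A00pm_123_s3 t 504 230 2 = true :=
  ⟨(a (c (a (b (b (c (l 534811151) (l 534832399)) (c (l 534779919) (l 534800655))) (b (l 534758671) (l 534727695))) (b (b (c (l 534842639) (l 534863119)) (c (l 534811151) (l 534831375))) (b (l 535057935) (l 534758415)))) (b (a (b (c (l 534855439) (l 534880271)) (c (l 534823183) (l 534847503))) (a (b (l 534889487) (l 534856975)) (b (l 534904847) (l 534872079)))) (a (b (c (l 534791183) (l 534814991)) (a (l 534763535) (l 534777871))) (b (c (l 534821135) (l 534844175)) (c (l 534789391) (l 534811919)))))) (c (b (a (b (c (l 534875663) (l 534895631)) (c (l 534844175) (l 534863887)))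 (b (c (l 534910735) (l 534930191)) (c (l 534879247) (l 534898191)))) (a (b (c (l 534812943) (l 534832143)) (c (l 534782223) (l 534800655))) (b (c (l 534848015) (l 534866447)) (c (l 534817039) (l 534834959))))) (b (a (a (b (l 534920463) (l 534887951)) (b (l 534936847) (l 534904079))) (a (b (l 534953487) (l 534920975)) (b (a (l 534966287) (l 534974991)) (l 534938127)))) (a (b (c (l 534852879) (l 535143951)) (c (l 534821135) (l 534843151))) (a (b (l 534888463) (l 534856463)) (b (l 534905615) (l 534873359))))))), by decide +kernel⟩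

def k210_A00pm_123_s3 : ∃ t, chk3 f_A00pm_123_s3 t 504 230 3 = true :=
  ⟨(a (b (c (c (a (b (a (l 534899471) (l 534913295)) (a (l 16774744) (l 534880015))) (b (a (l 534927631) (l 534942479)) (a (l 534894351) (l 534909199)))) (a (a (l 534642703) (l 534656271)) (a (l 534670095) (l 534684687)))) (a (b (c (l 534696463) (l 534728207)) (c (l 534662415) (l 534693647))) (b (c (l 534723599) (l 534821647)) (c (l 534689551) (l 534720015))))) (c (a (a (b (l 534846991) (l 534813967)) (b (l 534860559) (l 534827791))) (a (b (l 534874639) (l 534841871)) (b (c (l 534876175) (l 534902543)) (l 534856207)))) (a (b (c (l 534628623) (l 534659343)) (c (l 534595087) (l 534625295))) (b (c (l 534655503) (l 534685711)) (c (l 534621967) (l 534651663)))))) (b (c (a (b (a (c (l 534957839) (l 534984719)) (c (l 534973455) (l 535000079))) (a (c (l 534924559) (l 534950927)) (c (l 534940175) (l 534966287)))) (b (a (c (l 534989839) (l 535015951)) (c (l 535006479) (l 535032335))) (a (c (l 534956303) (l 534982159)) (c (l 534973199) (l 534998543)))))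 (a (b (c (b (l 534761231) (l 534744079)) (b (l 534791695) (l 534774287))) (c (b (l 534726927) (l 534710031)) (b (l 534756879) (l 534739471)))) (b (c (b (l 534792463) (l 534775055)) (a (l 535073551) (l 534820879))) (c (b (l 534757903) (l 534741007)) (b (l 534787087) (l 534769679)))))) (c (a (a (b (c (l 534891535) (l 534917647)) (c (l 534858767) (l 534884367))) (b (c (l 534907151) (l 534932751)) (c (l 534874383) (l 534899727)))) (c (b (a (l 534923279) (l 534939919)) (a (l 534890511) (l 534907151))) (b (a (l 534948623) (l 534965007)) (a (l 534915343) (l 534931727))))) (a (b (c (l 534684687) (b (l 534722319) (l 534705167))) (c (l 534650895) (l 534679823))) (b (c (b (l 534723855) (l 534706959)) (b (l 534752527) (l 534735375))) (c (a (l 534941967) (l 534957839)) (b (l 534718223) (l 534701327)))))))), by decide +kernel⟩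

def k211_A00pm_123_s3 : ∃ t, chk3 f_A00pm_123_s3 t 504 231 2 = true :=
  ⟨(a (b (c (a (b (l 534696975) (l 534666511)) (b (l 534727695) (l 534697231))) (a (b (a (l 16773936) (l 534746127)) (a (l 16773672) (l 16773912))) (b (a (l 534760975) (l 534776079)) (a (l 16774160) (l 534744591))))) (b (c (a (l 534636303) (l 534667023)) (a (c (l 16773504) (l 16773544)) (a (l 16773896) (l 16774144)))) (c (a (l 534606351) (l 534637071)) (a (c (l 16773240) (l 16773272)) (c (l 16773744) (l 16773776)))))) (b (c (a (b (l 534760463) (l 534729743)) (b (c (l 534786319) (l 534803983)) (c (l 534755855) (l 534773007)))) (a (b (a (l 534791695) (l 534807823)) (a (l 534760207) (l 534776335))) (b (a (l 534824463) (l 534841615)) (a (l 534792975) (l 534810127))))) (c (a (b (l 534699535) (l 534669583)) (b (c (l 534725903) (l 534742287)) (l 534972175))) (a (b (a (l 534728975) (l 534745103)) (a (l 16774136) (l 534714127))) (b (a (l 534761743) (l 534778639)) (a (l 534730767) (l 534747663))))))), by decide +kernel⟩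

def k212_A00pm_123_s3 : ∃ t, chk3 f_A00pm_123_s3 t 504 231 3 = true :=
  ⟨(a (b (b (c (a (a (l 534781455) (l 534795023)) (a (l 534809103) (l 534823695))) (a (c (l 534561807) (l 534591759)) (c (l 534588687) (l 534617871)))) (c (a (a (l 534749199) (l 534762767)) (a (l 534776847) (l 534791183))) (a (c (l 534528783) (l 534558223)) (c (l 534555663) (l 534584335))))) (b (c (a (a (l 16773480) (l 16773728)) (a (l 534744847) (l 534759183))) (a (a (l 534771983) (l 534784783)) (c (l 534522895) (l 534551055)))) (c (a (a (l 16773216) (l 16773464)) (a (l 16773712) (l 534727439))) (a (a (l 16773312) (l 534752271)) (a (l 534765327) (l 534510607)))))) (b (b (c (a (a (l 534838543) (c (l 534841871) (l 534866703))) (a (c (l 534857999) (l 534882319)) (c (l 534874639) (l 534898703)))) (a (c (l 534617615) (l 534645775)) (c (a (l 534908431) (l 534924303)) (b (l 534684175) (l 534667279))))) (c (a (a (l 534806287) (l 534955791)) (a (c (l 534825743) (l 534849807)) (c (l 534842383) (l 534865935)))) (a (c (l 534584335) (l 534612239))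 (c (l 534615055) (b (l 534650639) (l 534633743)))))) (b (c (a (a (l 534774031) (l 534789391)) (a (c (l 16774904) (l 534817295)) (c (l 534810383) (l 534833423)))) (a (c (l 534551567) (l 534578959)) (c (l 534582287) (b (l 534617103) (l 534600463))))) (c (a (a (l 534742287) (l 534757647)) (a (l 535041807) (c (l 16774896) (l 534801167)))) (a (a (l 534524687) (l 534539279)) (c (l 534549519) (l 534609423))))))), by decide +kernel⟩

def k213_A00pm_123_s3 : ∃ t, chk3 f_A00pm_123_s3 t 505 114 1 = true :=
  ⟨(c (b (l 4) (a (c (b (a (a (b (l 535077135) (l 535044367)) (b (l 4) (l 535063311))) (l 4)) (a (b (c (l 535011855) (l 535031567)) (c (l 534979599) (l 534998799))) (b (c (l 535051023) (l 535070223)) (c (l 535018767) (l 535037455))))) (b (a (a (b (c (l 535110415) (l 535134479)) (c (l 535076623) (l 535100431))) (b (l 4) (c (l 535095311) (l 535118607)))) (l 4)) (b (a (c (a (l 535043343) (l 535061775)) (a (l 535066639) (l 535084815))) (a (c (l 535080719) (l 535103503)) (l 4))) (a (c (a (l 535010319) (l 535028751)) (a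 (l 535033103) (l 535051279))) (a (c (l 535047695) (l 535069711)) (c (l 535067151) (l 535088911))))))) (l 4))) (b (l 4) (a (b (b (b (l 4) (a (a (c (c (l 535151631) (l 535179023)) (c (l 535207951) (l 534970127))) (l 4)) (l 4))) (a (c (c (a (l 535125775) (l 535143695)) (a (b (l 535161359) (l 535143951)) (b (l 4) (l 535161359)))) (c (a (l 534912783) (a (l 535194127) (l 4))) (a (c (l 534935567) (l 534950927)) (a (l 534955535) (l 4))))) (l 4))) (c (a (b (c (a (l 535091471) (l 535109135)) (a (b (l 535126543) (l 535109391)) (b (l 535143951) (l 535126799)))) (c (a (l 535057423) (l 535075343)) (a (l 535083535) (l 535100943)))) (b (a (a (c (l 535122959) (l 535148815)) (l 4)) (l 4)) (c (a (l 535093519) (l 535112463)) (a (b (l 535127567) (l 535110159)) (b (l 4) (l 535128847)))))) (a (b (c (a (l 534877711) (l 534894863)) (a (l 534907407) (l 534991375))) (c (a (l 534842639) (l 534859791)) (a (l 534872079) (l 534888719)))) (a (b (c (l 534912527) (c (l 534934031) (l 534949135))) (c (l 534877455) (l 534906127))) (b (l 4) (c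 (l 534895631) (l 534957327))))))) (l 4)))), by decide +kernel⟩

def k214_A00pm_123_s3 : ∃ t, chk3 f_A00pm_123_s3 t 505 230 2 = true :=
  ⟨(a (b (c (a (b (c (l 534947855) (l 534966543)) (c (l 534916111) (l 534934543))) (b (c (l 534986767) (l 535005199)) (c (l 534955279) (l 534972943)))) (a (a (b (c (l 534977551) (l 534999823)) (l 534955791)) (b (c (l 534995983) (l 535017999)) (c (l 534963471) (l 534984975)))) (b (a (c (l 535014927) (l 535036431)) (c (l 535034383) (l 535055631))) (a (c (l 534982415) (l 535003407)) (c (l 535001871) (l 535022607)))))) (c (a (b (c (l 534884879) (l 534902799)) (c (l 534853903) (l 534871311))) (b (a (l 534921999) (l 534941967)) (a (l 534890767) (l 534910479)))) (a (b (a (l 534923279) (l 534941455)) (a (l 534891023) (l 534909199))) (b (a (c (l 534950159) (l 534970639)) (c (l 534969359) (l 534989839))) (a (l 534927887) (l 534947087)))))) (a (a (c (b (b (l 535025935) (l 534993935)) (b (l 534962447) (l 534930959))) (b (b (c (l 535054351) (l 535075343)) (c (l 535021839) (l 535042319)))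 (b (c (l 534989327) (l 535009551)) (l 535235343)))) (b (l 4) (b (c (l 534983183) (l 535019535)) (c (l 534951951) (l 534987279))))) (b (l 4) (a (b (l 4) (c (l 534973455) (c (l 534998799) (l 535017743)))) (l 4))))), by decide +kernel⟩

def k215_A00pm_123_s3 : ∃ t, chk3 f_A00pm_123_s3 t 1010 230 3 = true :=
  ⟨(b (c (a (b (c (a (l 535023631) (l 535041551)) (a (l 535049231) (l 535066639))) (a (c (l 534990351) (l 535015439)) (c (l 535008015) (l 535032847)))) (b (c (a (l 535059727) (l 535078671)) (a (l 535084559) (l 535102991))) (a (c (l 535026191) (l 535050767)) (c (l 535045135) (l 535069199))))) (a (b (c (a (l 534808079) (l 534825231)) (a (l 534837007) (l 534853647))) (c (b (l 534790927) (l 534773775)) (a (l 534802191) (l 534818831)))) (b (c (a (l 534842639) (l 534860815)) (a (l 534870799) (l 534888463))) (c (a (l 534808335) (l 534826255)) (a (l 534835983) (l 534853647)))))) (c (a (c (b (a (l 534957071) (l 534974735)) (a (l 534924303) (l 534941967))) (a (b (l 534981903) (l 534948367)) (b (l 534999055) (l 534965775))))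 (b (a (c (l 534992911) (l 535016975)) (c (l 535011855) (l 535035407))) (a (c (l 534960143) (l 534983439)) (c (l 534978831) (l 535001871))))) (a (b (c (b (l 534756879) (l 534739983)) (a (l 535035919) (l 534784271))) (c (a (l 534974223) (l 534991119)) (b (l 534750479) (l 534733327)))) (b (a (c (b (l 535051023) (l 535034127)) (l 534801423)) (c (b (l 535068943) (l 535052047)) (l 534819087))) (c (b (l 534757903) (l 534741007)) (a (l 534766863) (l 534784527))))))), by decide +kernel⟩

def k216_A00pm_123_s3 : ∃ t, chk3 f_A00pm_123_s3 t 1011 230 3 = true :=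
  ⟨(a (b (a (c (c (b (l 535097871) (l 535064335)) (b (a (l 535117327) (l 4)) (b (l 535096591) (l 535079695)))) (b (c (l 534879503) (c (l 534899983) (l 534914063))) (c (b (l 535121935) (l 535104783)) (c (l 534865167) (l 534878991))))) (l 4)) (c (a (c (b (l 535031055) (l 534998031)) (b (l 535054351) (l 535020815))) (c (b (l 535051023) (l 535017999)) (b (l 535073807) (l 535040271)))) (a (b (c (a (l 535074319) (l 535083791)) (l 534837263)) (c (a (l 535040527) (l 535049743)) (l 534802703))) (c (b (a (l 535093519) (l 535103247)) (a (l 535059471) (l 535069199))) (b (l 534855951) (l 534821647)))))) (a (b (l 4) (b (l 4) (c (c (l 535038479) (l 535329039)) (c (a (l 535078927) (l 535089167)) (l 534841103))))) (l 4))), by decide +kernel⟩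

def k217_A00pm_123_s3 : ∃ t, chk3 f_A00pm_123_s3 t 505 231 2 = true :=
  ⟨(a (a (c (b (b (c (l 534823183) (l 534840079)) (c (l 534792719) (l 534809103))) (b (c (l 534762511) (l 534778383)) (a (l 534730511) (l 534749199)))) (b (b (a (l 534859279) (l 534877199)) (a (l 534827535) (l 534845711))) (b (a (l 534796303) (l 534814223)) (a (l 534765071) (l 534783247))))) (c (b (a (b (l 534859791) (l 534829071)) (b (l 534879503) (l 534848783))) (b (a (l 534798351) (l 534818319)) (a (l 534768143) (l 534787855)))) (b (a (b (l 534895887) (l 534864399)) (b (l 534915087) (l 534883343))) (a (b (l 534832911) (l 534801679)) (b (l 534851855) (l 534820879)))))) (a (c (b (a (b (l 534899983) (l 534869007)) (b (l 534920719) (l 534889999))) (a (b (l 534838543) (l 534808335)) (b (l 534859279) (l 534829071)))) (b (a (b (l 534934799) (l 534903055)) (b (l 534955279) (l 534923535))) (a (b (l 534871567) (l 534840335)) (b (l 534891791) (l 534860559))))) (c (b (a (b (l 534942223) (l 534911503)) (b (l 534964239) (l 534933519))) (a (b (l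 534880783) (l 534850319)) (b (l 534902799) (l 534872335)))) (b (a (b (c (l 534967055) (l 534985487)) (c (l 534935567) (l 534953487))) (b (c (l 534988815) (l 535006991)) (c (l 534957071) (l 534974735)))) (a (b (c (l 534904079) (l 534921743)) (c (l 534873103) (l 534890255))) (b (c (l 534925839) (l 534942991)) (c (l 534894607) (l 534911503)))))))), by decide +kernel⟩

def k218_A00pm_123_s3 : ∃ t, chk3 f_A00pm_123_s3 t 1010 231 3 = true :=
  ⟨(a (b (c (a (b (c (l 534891791) (l 534915343)) (c (l 534859279) (l 534882575))) (b (c (l 534909199) (l 534932751)) (c (l 534876943) (l 534899727)))) (b (c (a (l 534940687) (l 534957583)) (b (l 534716175) (l 534699279))) (c (a (l 534907407) (l 534924303)) (b (l 534682383) (l 534665743))))) (a (c (b (c (l 534827279) (l 534850063)) (c (l 534795535) (l 534817807))) (b (c (l 534874639) (l 534900751)) (c (l 534841871) (l 534867471)))) (c (b (c (l 534844943) (l 534867215)) (c (l 534812943) (l 534834959))) (b (c (l 534891279) (l 534917135)) (c (l 534858767) (l 534883855)))))) (b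 (c (a (b (c (l 534927375) (l 534950415)) (c (l 534895119) (l 534917647))) (b (c (l 534946063) (l 534968847)) (c (l 534913807) (l 534935823)))) (a (b (c (l 534974991) (l 534732815)) (c (l 534941711) (l 534967567))) (b (c (l 534993167) (l 534750479)) (c (l 534959631) (l 534716687))))) (a (c (b (c (l 534862863) (l 534885135)) (c (l 534831119) (l 534852623))) (b (c (l 534908687) (l 534934031)) (c (l 534875919) (l 534900751)))) (c (b (c (l 534881551) (l 534903311)) (c (l 534849807) (l 534871055))) (b (c (l 534926607) (l 534683151)) (c (l 534893839) (l 534649871))))))), by decide +kernel⟩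

def k219_A00pm_123_s3 : ∃ t, chk3 f_A00pm_123_s3 t 1011 231 3 = true :=
  ⟨(a (b (c (a (b (c (l 534965263) (l 534987791)) (c (l 534933007) (l 534954767))) (b (c (l 534985231) (l 535007247)) (c (l 534952719) (l 534974223)))) (a (b (c (a (l 535006735) (l 535016207)) (l 534768655)) (c (l 535112463) (l 534734863))) (b (c (a (l 535025679) (l 535035407)) (l 534787343)) (c (a (l 534992399) (l 535002127)) (l 534753551))))) (a (c (b (c (l 534900751) (l 534921999)) (c (l 534868751) (l 534889743))) (b (c (l 534945039) (l 534701327)) (c (l 534912271) (l 534668047)))) (c (b (c (l 534920463) (l 534941455)) (c (l 534888463) (l 534909199))) (b (c (a (l 534959119) (l 534968847)) (l 534720015)) (c (a (l 534926351) (l 534936079)) (l 534686735)))))) (b (c (a (c (b (l 535005711) (l 534973199)) (b (l 535027215) (l 534994191))) (c (b (l 535026703) (l 534994191)) (b (a (l 535042575) (l 535053071)) (a (l 535009551) (l 535020047))))) (a (b (c (a (l 535045391) (l 535055375)) (l 534806799)) (c (a (l 535011855) (l 535021839)) (l 534773007)))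 (b (c (a (l 535065615) (l 535075855)) (c (l 534820623) (l 534833167))) (c (a (l 535032079) (l 535042319)) (l 534792719))))) (c (a (b (c (l 534940943) (l 534961423)) (c (l 534908943) (l 534929167))) (b (c (l 534961679) (a (l 534976783) (l 534987279))) (c (l 534929679) (a (l 534944271) (l 534954767))))) (a (b (c (a (l 534978575) (l 534988559)) (l 534739215)) (c (a (l 534945807) (l 534955791)) (l 534705935))) (b (c (a (l 534998799) (l 535009039)) (l 534759183)) (c (a (l 534965775) (l 534976015)) (l 534725647))))))), by decide +kernel⟩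

def k220_A00pm_123_s3 : ∃ t, chk3 f_A00pm_123_s3 t 253 28 1 = true :=
  ⟨(b (l 4) (a (b (l 4) (a (c (b (l 4) (a (c (b (a (b (l 4) (l 534956047)) (l 4)) (a (b (l 534925583) (l 534895119)) (b (l 534948623) (l 534918415)))) (b (a (b (l 4) (c (l 534979343) (l 534996751))) (l 4)) (a (b (c (l 534947855) (l 534965007)) (c (l 534916879) (l 534933263))) (b (c (l 534970895) (l 534987535)) (c (l 534939663) (l 534955791)))))) (b (l 4) (a (b (l 4) (c (l 534942223) (c (l 534963215) (l 534979087)))) (l 4))))) (b (l 4) (a (b (b (l 4) (a (c (c (l 535015695) (a (l 535030543) (l 535041551))) (c (a (l 535052815) (l 535063311)) (b (l 534821903) (l 534804751)))) (l 4))) (c (a (b (c (l 534983439) (a (l 534997775) (l 535008527))) (c (l 534951439) (a (l 534965263) (l 534976015)))) (b (c (l 535005711) (a (l 535019535) (l 535030799))) (c (l 534973455) (a (l 534987023) (l 534998031))))) (a (a (b (c (l 535019535) (l 535042831)) (c (l 534986511) (l 535009295))) (b (c (l 535030031) (l 535053071)) (c (l 534997263) (l 535019791)))) (b (c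 (a (l 535040783) (l 535051791)) (a (l 534795279) (l 534806031))) (c (a (l 535008015) (l 535018767)) (c (b (l 535038223) (l 535021839)) (l 534773263))))))) (a (b (l 4) (b (l 4) (c (c (a (l 534990351) (l 535002127)) (a (l 535009295) (l 535020815))) (c (a (l 535029775) (l 535041039)) (c (b (l 535060239) (l 535043599)) (l 534795023)))))) (l 4))))) (l 4))) (l 4))), by decide +kernel⟩

def k221_A00pm_123_s3 : ∃ t, chk3 f_A00pm_123_s3 t 504 232 2 = true :=
  ⟨(a (b (c (a (c (l 16772752) (l 16772784)) (a (l 16773168) (l 534600207))) (a (c (l 16772824) (c (l 16772856) (l 16772872))) (b (c (l 16773480) (l 16773512)) (c (l 16773208) (l 16773248))))) (c (a (c (l 16772184) (l 16772216)) (c (l 16772736) (l 16772768))) (a (c (l 16772256) (l 16772304)) (a (l 16772680) (c (l 16772936) (l 16772968)))))) (b (c (a (b (l 534639631) (l 534610191)) (b (l 534942479) (l 534912783))) (a (b (a (l 16773880) (l 16774128)) (a (l 16773616) (l 16773872))) (b (a (l 534700047) (l 534716943)) (a (l 16774120) (l 534686479))))) (b (a (c (l 534581007)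 (c (l 16773464) (l 16773496))) (c (c (l 16773936) (l 16773960)) (a (l 16773864) (l 16774120)))) (a (c (l 534552079) (c (l 16773200) (l 16773232))) (c (c (l 16773680) (l 16773704)) (a (l 16773608) (l 16773864))))))), by decide +kernel⟩

def k222_A00pm_123_s3 : ∃ t, chk3 f_A00pm_123_s3 t 504 232 3 = true :=
  ⟨(a (b (c (a (c (c (l 16772896) (l 16772920)) (a (l 16772824) (l 16773080))) (c (a (l 16773288) (l 16773544)) (a (l 16773336) (l 16773584)))) (a (b (a (l 16773040) (l 16773288)) (c (l 16772864) (l 16772920))) (b (a (l 534733071) (l 534478351)) (a (l 16773272) (l 534714639))))) (c (a (b (c (l 16772488) (l 16772536)) (c (l 16772200) (l 16772256))) (b (c (l 16773016) (l 16773056)) (c (l 16772736) (l 16772784)))) (a (c (a (l 16772320) (l 16772576)) (l 16772504)) (b (a (l 16773000) (l 16773248)) (c (l 16772832) (l 16772880)))))) (b (b (c (a (a (l 534710799) (l 534725903)) (a (l 534741775) (c (l 16774656) (l 16774680)))) (a (a (l 534492175) (l 534506767)) (a (l 534521871) (l 534537487)))) (c (a (a (l 16773680)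 (l 534694671)) (a (l 534710543) (c (l 16774408) (l 16774440)))) (a (a (l 534460175) (l 534474511)) (a (l 534489615) (l 534504975))))) (b (c (a (a (l 16773424) (l 534663695)) (a (l 534679311) (l 534963983))) (a (a (l 534428175) (l 534442767)) (a (l 534457615) (l 534472975)))) (c (a (a (l 16773152) (l 16773416)) (a (l 534648591) (l 534664719))) (a (a (l 16773240) (c (l 16773472) (l 16773512))) (c (a (l 16773728) (l 16773976)) (l 534446351))))))), by decide +kernel⟩

def k223_A00pm_123_s3 : ∃ t, chk3 f_A00pm_123_s3 t 504 233 1 = true :=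
  ⟨(c (a (b (c (a (l 16771624) (c (l 16772176) (l 16772200))) (a (c (l 16771680) (l 16771720)) (c (l 16772240) (l 16772280)))) (c (a (l 16771024) (l 16771616)) (a (c (l 16771088) (l 16771136)) (c (l 16771664) (l 16771704))))) (b (c (a (c (l 16772736) (l 16772760)) (c (l 16773280) (c (l 16773304) (l 16773312)))) (a (a (l 16772672) (c (l 16772928) (l 16772960))) (b (c (l 16773464) (l 16773488)) (c (l 16773200) (l 16773224))))) (c (a (c (l 16772176) (l 16772200)) (c (l 16772744) (l 16772768))) (a (c (l 16772232) (l 16772272)) (b (c (l 16772928) (l 16772960)) (c (l 16772656) (l 16772688))))))) (a (b (c (a (c (l 16771768) (l 16771824)) (b (c (l 16772456) (l 16772504)) (c (l 16772176) (l 16772224)))) (a (b (c (l 16772024) (l 16772080)) (c (l 16771736) (l 16771792))) (b (c (l 16772552) (l 16772608)) (c (l 16772272) (l 16772328))))) (c (a (c (l 16771184) (l 16771240)) (c (l 16771752) (l 16771800))) (a (c (l 16771296) (l 16771360)) (b (c (l 16771992) (l 16772048)) (c (l 16771704) (l 16771760)))))) (b (c (a (b (c (l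 16772992) (l 16773032)) (c (l 16772720) (l 16772760))) (b (a (l 16773408) (l 534634255)) (a (l 16773144) (l 16773408)))) (a (b (a (l 16772968) (l 16773232)) (a (l 16772696) (l 16772960))) (b (c (a (l 16773464) (l 16773720)) (l 534414863)) (a (l 16773224) (c (l 16773464) (l 16773504)))))) (a (c (b (c (l 16772448) (l 16772488)) (c (l 16772168) (l 16772208))) (b (c (l 16772536) (l 16772584)) (c (l 16772256) (l 16772304)))) (a (c (c (l 16772720) (l 16772760)) (c (l 16772800) (l 16772848))) (c (c (l 16772992) (l 16773032)) (c (l 16773072) (l 534344207)))))))), by decide +kernel⟩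

def k224_A00pm_123_s3 : ∃ t, chk3 f_A00pm_123_s3 t 505 232 2 = true :=
  ⟨(a (a (c (b (b (a (l 534700559) (l 534719247)) (a (l 16774584) (l 534689551))) (b (a (l 16774336) (l 16774584)) (a (l 16774080) (l 16774344)))) (b (b (a (l 534734351) (l 534752271)) (a (l 534703887) (l 534721807))) (b (a (l 534673679) (l 534691599)) (a (l 16774128) (l 534661647))))) (c (b (b (a (l 534738447) (l 534757903)) (a (l 534708751) (l 534728207))) (b (a (l 534679311) (l 534698767)) (a (l 16774592) (l 534669839)))) (b (b (a (l 534770959) (l 534789903)) (a (l 534740239) (l 534759183))) (b (a (l 534710031) (l 534728975)) (a (l 534680079) (l 534699023)))))) (a (c (b (a (b (l 534778127) (l 534748431)) (b (l 534799119) (l 534769167))) (a (b (l 534718991) (l 534689807)) (b (l 534739727) (l 534710543)))) (b (a (b (l 534809615) (l 534778895)) (b (l 534829583) (l 534799119))) (a (b (l 534748431) (l 534718479)) (b (l 534768655) (l 534738447))))) (c (b (a (b (l 534820367) (l 534790671)) (b (l 534842383) (l 534812431))) (b (a (l 534760975)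 (l 534782991)) (a (l 534731791) (l 534753551)))) (b (a (b (c (l 534842383) (l 534859023)) (c (l 534811919) (l 534828047))) (b (c (l 534863887) (l 534880271)) (c (l 534833423) (l 534849295)))) (b (a (c (l 534781711) (l 534797327)) (c (l 534802959) (l 534818575))) (a (c (l 534751759) (l 534766863)) (c (l 534773007) (l 534788111)))))))), by decide +kernel⟩

def k225_A00pm_123_s3 : ∃ t, chk3 f_A00pm_123_s3 t 1010 232 3 = true :=
  ⟨(a (b (c (c (b (a (l 16774896) (l 534781455)) (a (l 16774656) (l 16774896))) (b (a (l 534786063) (l 534802959)) (a (l 16774680) (l 534771471)))) (b (a (c (l 534809359) (l 534834703)) (c (l 534826255) (l 534851087))) (a (c (l 534777359) (l 534802191)) (c (l 534793999) (l 534818319))))) (c (c (b (a (l 16774408) (l 16774656)) (a (l 16774160) (l 16774416))) (b (a (l 16774440) (l 16774680)) (a (l 16774192) (l 16774440)))) (b (a (l 534489103) (c (l 534762255) (l 534786063))) (c (a (l 16774224) (l 16774472)) (a (l 16774256) (l 534754063)))))) (b (a (c (b (c (l 534799631) (l 534820623)) (c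 (l 534768399) (l 534788879))) (b (c (l 534843407) (l 534867983)) (c (l 534811407) (l 534835215)))) (c (b (c (l 534818063) (l 534838799)) (c (l 534786831) (l 534807055))) (b (c (l 534861327) (l 534885391)) (c (l 534829071) (l 534852623))))) (c (c (b (a (l 16774904) (l 534755855)) (a (l 16774664) (l 16774904))) (b (a (l 534757647) (l 534775567)) (a (l 16774688) (l 534744335)))) (a (c (b (l 534779407) (l 534747663)) (b (l 534802959) (l 534770703))) (c (b (l 534797071) (l 534765583)) (b (l 534820367) (l 534788111))))))), by decide +kernel⟩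

def k226_A00pm_123_s3 : ∃ t, chk3 f_A00pm_123_s3 t 1011 232 3 = true :=
  ⟨(a (b (a (c (b (c (l 534837263) (l 534857743)) (c (l 534805775) (l 534825743))) (b (c (l 534879759) (l 534635023)) (c (l 534847503) (a (l 534865935) (l 534875151))))) (c (b (c (l 534856975) (l 534876943)) (c (l 534825487) (l 534845199))) (b (c (a (l 534893839) (l 534903311)) (l 534653455)) (c (l 535000591) (b (l 534897423) (l 534881039)))))) (a (c (b (c (l 534774799) (l 534794255)) (c (l 534744079) (l 534763023))) (c (b (l 534815503) (l 534783759)) (b (a (l 534833423) (l 534842639)) (a (l 16775152) (l 534810383))))) (c (b (c (l 534794511) (l 534813711)) (c (l 534763535) (l 534782223))) (c (b (l 534834447) (l 534802703)) (b (b (l 534864655) (l 534848527)) (b (l 534832399) (l 534816527))))))) (b (a (c (b (c (l 534877199) (l 534896911)) (c (l 534845711) (l 534865167))) (b (c (a (l 534913295) (l 534923023)) (l 534672655)) (c (b (l 534893839) (l 534877711)) (b (l 534916623) (l 534900239))))) (c (b (c (l 534897935) (a (l 534912015) (l 534922511)))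 (c (l 534866703) (l 535019791))) (b (c (a (l 534933263) (l 534943503)) (l 534692623)) (c (b (l 534914063) (l 534897935)) (l 534659855))))) (c (b (a (c (l 534814479) (l 534833423)) (c (l 534835471) (l 535122447))) (a (c (l 534783759) (l 534802191)) (c (l 534804495) (l 534822415)))) (a (c (b (b (l 534861839) (l 534845711)) (b (l 534829839) (l 534814223))) (b (b (l 534883855) (l 534867727)) (b (l 534851599) (l 534835471)))) (b (c (b (l 534881807) (l 534865935)) (b (l 534903567) (l 534887439))) (c (b (l 534850063) (l 534834191)) (b (l 534871311) (l 534855183)))))))), by decide +kernel⟩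

def k227_A00pm_123_s3 : ∃ t, chk3 f_A00pm_123_s3 t 505 233 2 = true :=
  ⟨(a (a (c (b (b (c (l 16773952) (l 16773968)) (c (l 16773696) (l 16773712))) (a (l 16773176) (c (l 16773440) (l 16773464)))) (b (b (a (l 16773872) (l 534631951)) (a (l 16773616) (l 16773880))) (b (c (l 16773480) (l 16773504)) (c (l 16773216) (l 16773240))))) (c (b (b (a (l 16774352) (l 16774608)) (a (l 16774104) (l 16774368))) (b (c (l 16773976) (l 16773992)) (c (l 16773720) (l 16773744)))) (b (b (a (l 534650127) (l 534669071)) (a (l 534620687) (l 534639631))) (b (a (l 16773888) (l 534610447)) (a (l 16773632) (l 16773904)))))) (a (c (b (b (a (l 534660879) (l 534681615)) (a (l 534632207) (l 534652943))) (b (a (l 16774384) (l 534624527)) (a (l 16774136) (l 16774400)))) (b (b (a (l 534688527) (l 534708495)) (a (l 534659087) (l 534679055))) (b (a (l 534629647) (l 534649615)) (a (l 534600719) (l 534620687))))) (c (b (b (a (l 534702863) (l 534724623)) (a (l 534674191) (l 534695951))) (b (a (l 534645775) (l 534667535)) (a (l 534617615) (l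 534639119)))) (b (b (a (c (l 534722063) (l 534736911)) (c (l 534743311) (l 534757903))) (a (c (l 16775144) (l 534706959)) (c (l 534713871) (l 534727951)))) (b (a (c (l 16774920) (l 16774928)) (c (l 16775168) (l 534698255))) (a (c (l 16774680) (l 16774696)) (c (l 16774936) (l 16774952)))))))), by decide +kernel⟩

def k228_A00pm_123_s3 : ∃ t, chk3 f_A00pm_123_s3 t 1010 233 3 = true :=
  ⟨(b (a (c (b (a (c (l 16773912) (l 16773944)) (c (l 16774168) (l 16774192))) (a (l 534888975) (c (l 16773920) (l 16773944)))) (b (c (a (l 16773976) (l 16774224)) (a (l 16774008) (l 16774256))) (c (a (l 16773720) (l 16773976)) (a (l 16773760) (l 16774008))))) (c (b (a (c (l 16774424) (l 16774448)) (c (l 16774672) (l 16774696))) (a (c (l 16774176) (l 16774200)) (c (l 16774432) (l 16774456)))) (b (a (c (l 16774472) (l 534738959)) (c (l 534734095) (l 534756367))) (a (c (l 16774232) (l 16774256)) (c (l 16774480) (l 534724879)))))) (a (c (b (a (l 16773416) (c (l 16773664) (l 16773696))) (a (l 16773152) (l 16773416))) (b (a (c (l 16773464)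 (l 16773504)) (c (l 16773720) (l 16773760))) (a (c (l 16773200) (l 16773240)) (c (l 16773472) (l 16773504))))) (c (b (a (c (l 16773928) (l 16773952)) (c (l 16774184) (l 16774208))) (a (c (l 16773672) (l 16773704)) (c (l 16773936) (l 16773960)))) (b (a (c (l 16773984) (l 16774016)) (c (l 16774240) (l 16774264))) (a (c (l 16773728) (l 16773768)) (c (l 16773992) (l 16774024))))))), by decide +kernel⟩

def k229_A00pm_123_s3 : ∃ t, chk3 f_A00pm_123_s3 t 1011 233 3 = true :=
  ⟨(a (b (b (c (a (c (l 534713615) (l 534732047)) (c (l 534733071) (l 534751247))) (a (c (l 534752271) (l 535042575)) (c (l 534771215) (a (l 16775160) (l 534797071))))) (c (a (c (l 16774680) (l 534701327)) (c (l 534702863) (l 534720527))) (a (c (l 534721295) (l 534742543)) (c (l 534739983) (a (l 16774928) (l 16775048)))))) (c (b (a (c (l 16774440) (l 16774464)) (c (l 16774696) (l 534690063))) (a (c (l 16774200) (l 16774224)) (c (l 16774456) (l 16774480)))) (b (a (c (l 534690319) (l 534711311)) (c (l 534709007) (c (l 16774752) (l 16774768))))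 (a (c (l 16774248) (l 16774272)) (c (l 534678287) (l 534832655)))))) (b (c (b (a (c (l 534753039) (l 534770959)) (c (l 534773775) (l 534791439))) (a (c (l 534722831) (l 534740239)) (c (l 534743567) (l 534760719)))) (b (a (c (b (l 534798351) (l 534782735)) (b (l 534819599) (l 534803727))) (c (b (l 534818319) (l 534802703)) (b (l 534839055) (l 534823183)))) (a (c (a (l 16775152) (l 16775272)) (b (l 534787855) (l 534771983))) (c (b (l 534787087) (l 534771471)) (b (l 534807311) (l 534791439)))))) (c (b (a (c (l 534692879) (l 534709775)) (c (l 534713359) (l 534729999))) (a (c (l 16774712) (l 534679567)) (c (l 534683663) (l 534699791)))) (b (a (c (l 534996751) (a (l 16774944) (l 16775064))) (c (a (l 16775168) (l 534753295)) (b (l 534775823) (l 534760207)))) (a (c (l 534697743) (c (l 16774768) (l 16774784))) (c (c (l 16775000) (l 16775008)) (a (l 16774960) (l 16775080)))))))), by decide +kernel⟩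

def k230_A00pm_123_s3 : ∃ t, chk3 f_A00pm_123_s3 t 504 117 1 = true :=
  ⟨(b (c (a (b (c (a (l 16770424) (l 16771024)) (a (l 16770504) (c (l 16771080) (l 16771120)))) (c (a (l 16769808) (l 16770432)) (a (l 16769896) (l 16770504)))) (b (c (a (l 16771624) (c (l 16772192) (l 16772216))) (a (c (l 16771672) (l 16771704)) (c (l 16772248) (l 16772280)))) (c (a (l 16771040) (c (l 16771632) (l 16771656))) (a (c (l 16771088) (l 16771128)) (c (l 16771688) (l 16771720)))))) (a (b (a (c (c (l 16770584) (l 16770640)) (c (l 16770696) (l 16770760))) (c (c (l 16771168) (l 16771216)) (c (l 16771272) (l 16771328)))) (a (c (l 16770000) (l 16767496)) (c (c (l 16770568) (l 16770624)) (c (l 16770680) (l 16770736))))) (b (a (c (c (l 16771744) (l 16771784)) (b (c (l 16771976) (l 16772024)) (c (l 16771696) (l 16771744)))) (c (b (c (l 16772448) (l 16772488)) (c (l 16772176) (l 16772216))) (b (c (l 16772528) (l 16772576)) (c (l 16772256) (l 16772304))))) (a (c (c (l 16771168) (l 16771216)) (c (l 16771264) (l 16771312))) (c (b (c (l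 16771896) (l 16771936)) (l 16771632)) (a (c (l 16771696) (l 16771744)) (c (l 16771984) (l 16772024)))))))) (a (c (b (c (c (l 16769488) (l 16769528)) (a (l 16769272) (l 16769896))) (c (c (l 16768872) (l 16768904)) (a (l 16768640) (l 16769288)))) (b (a (c (l 16769376) (l 16769504)) (c (l 16769992) (c (l 16770072) (l 16770136)))) (a (c (l 16768744) (l 16768872)) (c (l 16769376) (l 16769488))))) (c (b (c (a (l 16770456) (l 16771080)) (a (l 16770520) (c (l 16771120) (l 16771152)))) (a (c (l 16769864) (l 16769928)) (l 14))) (b (a (c (c (l 16770584) (l 16770624)) (c (l 16770672) (l 16770728))) (c (c (l 16771184) (l 16771224)) (a (l 16771144) (c (l 16771416) (l 16771464))))) (a (c (l 16770008) (c (l 16770080) (l 16770136))) (l 14)))))), by decide +kernel⟩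

def k231_A00pm_123_s3 : ∃ t, chk3 f_A00pm_123_s3 t 1010 234 1 = true :=
  ⟨(c (b (c (a (c (l 16772776) (l 16772792)) (a (l 16773208) (c (l 16773480) (l 16773496)))) (a (b (c (l 16772952) (l 16772976)) (c (l 16772680) (l 16772712))) (b (a (l 16773376) (l 16773648)) (c (l 16773248) (l 16773272))))) (a (c (c (l 16772232) (l 16772256)) (a (l 16772144) (l 16772432))) (c (c (l 16772816) (l 16772832)) (b (c (l 16772984) (l 16773008)) (c (l 16772720) (l 16772744)))))) (b (a (c (b (a (l 16772888) (l 16773160)) (c (l 16772736) (l 16772776))) (b (a (l 16772960) (c (l 16773208) (l 16773248))) (a (l 16772688) (l 16772968)))) (c (b (a (l 16773432) (c (l 16773688) (l 16773712))) (a (l 16773168) (l 16773448))) (b (a (c (l 16773480) (l 16773512)) (c (l 16773744) (l 16773776))) (a (c (l 16773216) (l 16773256)) (c (l 16773488) (l 16773520)))))) (a (c (b (c (l 16772472) (l 16772504)) (c (l 16772200) (l 16772232))) (b (a (l 16772424) (l 16772696)) (c (l 16772272) (l 16772312)))) (c (b (a (l 16772912) (l 16773192)) (c (l 16772768)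 (l 16772800))) (b (a (l 16772976) (c (l 16773232) (l 16773264))) (a (l 16772712) (l 14))))))), by decide +kernel⟩

def k232_A00pm_123_s3 : ∃ t, chk3 f_A00pm_123_s3 t 1011 234 1 = true :=
  ⟨(c (b (c (a (b (a (l 16773888) (l 16774160)) (c (l 16773768) (l 16773784))) (b (a (l 16774424) (l 534611215)) (a (l 16774184) (l 16774448)))) (a (b (a (l 16773920) (l 534592015)) (a (l 16773672) (l 16773944))) (b (a (c (l 16774448) (l 16774464)) (c (l 16774704) (l 16774720))) (a (c (l 16774208) (l 16774224)) (c (l 16774472) (l 16774488)))))) (b (a (a (c (l 16773384) (l 16773416)) (l 14)) (l 14)) (l 14))) (b (a (c (b (a (c (l 16773952) (l 16773976)) (c (l 16774216) (l 16774240))) (a (c (l 16773704) (l 16773728)) (c (l 16773976) (l 16773992)))) (b (a (c (l 16774008) (l 16774032)) (c (l 16774264) (l 16774288))) (a (c (l 16773760) (l 16773784)) (c (l 16774024) (l 16774048))))) (c (b (a (c (l 16774480) (l 16774496)) (c (l 16774736) (l 534669839))) (a (c (l 16774240) (l 16774256)) (c (l 16774504) (l 16774520)))) (b (a (c (l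 534667279) (c (l 16774536) (l 16774552))) (c (c (l 16774768) (l 16774776)) (c (l 16774792) (l 16774800)))) (a (c (l 16774280) (l 16774304)) (a (a (l 16774456) (l 14)) (l 14)))))) (b (b (a (a (c (l 16773528) (l 16773584)) (l 14)) (l 14)) (l 14)) (l 14)))), by decide +kernel⟩

def k233_A00pm_123_s3 : ∃ t, chk3 f_A00pm_123_s3 t 505 235 1 = true :=
  ⟨(a (b (b (a (a (b (c (l 16771768) (a (l 16771824) (l 16771976))) (l 14)) (l 14)) (l 14)) (l 14)) (l 14)) (l 14)), by decide +kernel⟩

def k234_A00pm_123_s3 : ∃ t, chk3 f_A00pm_123_s3 t 252 59 1 = true :=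
  ⟨(b (a (a (a (b (c (c (l 16767608) (l 16765064)) (b (c (l 16768104) (l 16768232)) (c (l 16767464) (l 16767584)))) (c (c (l 16766320) (l 16766392)) (b (c (l 16766808) (l 16766936)) (l 16763592)))) (a (b (c (c (l 16768120) (l 16768192)) (c (l 16768280) (l 16765776))) (c (c (l 16766856) (l 16766920)) (c (l 16767008) (l 16767120)))) (l 14))) (l 14)) (l 14)) (a (a (b (c (c (l 16762776) (b (l 16765768) (l 16765128))) (b (a (l 16765552) (l 16763640)) (c (l 16765200) (l 16765304)))) (c (b (l 16761832) (l 16763808)) (b (c (l 16764552) (l 16764648)) (c (l 16763896) (l 16763992))))) (l 14)) (l 14))), by decide +kernel⟩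

def k235_A00pm_123_s3 : ∃ t, chk3 f_A00pm_123_s3 t 1012 232 2 = true :=
  ⟨(a (c (b (a (b (l 534864911) (l 534834959)) (b (l 534888207) (l 534858255))) (a (b (l 534805519) (l 534776079)) (b (l 534828559) (l 534799119)))) (b (a (b (c (l 534885903) (l 534902031)) (c (l 534855439) (l 534871055))) (b (c (l 534908687) (l 534924559)) (c (l 534878223) (l 534893327)))) (a (b (c (l 534825231) (l 534840335)) (c (l 534795023) (l 534809615))) (b (c (l 534847759) (l 534862607)) (c (l 534817807) (l 534832143)))))) (b (c (a (b (l 534912015) (l 534882063)) (b (l 534936591) (l 534906639))) (a (b (c (l 534932239) (l 534947599)) (c (l 534901519) (l 534916623))) (b (c (l 534956303) (l 534971407)) (c (l 534925583) (l 534940431))))) (c (a (b (l 534852367) (l 534822927)) (b (l 534876943) (l 534847503))) (a (b (c (l 534871311) (l 534885647)) (c (l 534841103) (l 534855183))) (b (c (l 534895375) (l 534909455)) (c (l 534865167) (l 534878735))))))), by decide +kernel⟩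

def k236_A00pm_123_s3 : ∃ t, chk3 f_A00pm_123_s3 t 2024 232 3 = true :=
  ⟨(b (c (c (b (a (l 534919439) (l 534941711)) (a (l 534887951) (l 534910223))) (c (b (a (l 534933775) (l 534955535)) (a (l 534901775) (l 534923791))) (b (a (l 534943759) (l 534965519)) (a (l 534911503) (l 534933263))))) (a (b (c (a (l 534953743) (l 534964495)) (l 534713103)) (c (b (l 534934799) (l 534918671)) (l 534680079))) (a (c (b (l 534975247) (l 534942735)) (b (l 534997007) (l 534964239))) (c (b (l 534985999) (l 534953487)) (b (l 535141903) (l 534974735)))))) (c (c (b (a (l 534856719) (l 534878991)) (a (l 534825999) (l 534848015))) (c (b (a (l 534870287) (l 534892047)) (a (l 534839055) (l 534860815))) (b (a (l 534879759) (l 534901519)) (a (l 534848271) (l 534869775))))) (a (b (c (b (l 534902543) (l 534886671)) (b (l 534924047) (l 534907663))) (c (b (l 534870799) (l 534854927)) (b (l 534891535) (l 534875407)))) (b (c (b (l 534924047) (l 534907919)) (b (l 534945039) (l 534928911))) (c (b (l 534892047) (l 534876175)) (b (l 534912527)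 (l 534896399))))))), by decide +kernel⟩

def k237_A00pm_123_s3 : ∃ t, chk3 f_A00pm_123_s3 t 2025 232 3 = true :=
  ⟨(b (c (a (b (c (a (l 534958607) (l 534970127)) (a (l 534977039) (l 534988559))) (c (a (l 534927119) (l 534938639)) (a (l 534945039) (l 534956559)))) (b (c (a (l 534981903) (l 534993935)) (a (l 535000079) (l 535011855))) (c (a (l 534950415) (l 534962191)) (a (l 534968079) (l 534979855))))) (a (b (c (a (l 534997007) (l 535008271)) (c (b (l 535026959) (l 535010575)) (l 534761487))) (a (c (l 534964495) (l 535119887)) (c (l 534975759) (a (l 534993935) (l 534999567))))) (b (c (a (l 535019791) (l 535165711)) (c (b (l 535049743) (l 535033103)) (l 534784015))) (c (b (l 535001359) (l 534984975)) (c (b (l 535016719) (l 535000335)) (l 534750735)))))) (c (a (b (c (l 535035919) (b (l 534927119) (l 534911247))) (c (l 535139087) (b (l 534895375) (l 534879759)))) (b (c (a (l 534918927) (l 534930959)) (b (l 534950159) (l 534934287))) (c (b (l 534901775) (l 534886159)) (b (l 534918415) (l 534902799))))) (a (b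 (c (b (l 534946063) (l 534930191)) (b (l 534966799) (l 534950415))) (c (b (l 534914063) (l 534898191)) (b (l 534934287) (l 534918159)))) (b (c (b (l 534968847) (l 534952719)) (c (b (l 534983951) (l 534967823)) (b (l 534994447) (l 534978063)))) (c (b (l 534936847) (l 534920975)) (b (l 535090959) (l 534940431))))))), by decide +kernel⟩

def k238_A00pm_123_s3 : ∃ t, chk3 f_A00pm_123_s3 t 1012 233 2 = true :=
  ⟨(a (c (b (a (b (l 534747151) (l 534718223)) (b (l 534770191) (l 534741263))) (b (a (l 534689807) (l 534712847)) (a (l 534661647) (l 534684431)))) (b (b (a (c (l 534765327) (l 534779407)) (c (l 534788111) (l 534801935))) (a (c (l 534735887) (l 534749455)) (c (l 534758415) (l 534771983)))) (b (a (c (l 534706703) (l 534720015)) (c (l 534729231) (l 534742031))) (a (c (l 16775192) (l 534690575)) (c (l 534700303) (l 534712591)))))) (c (b (a (b (l 534793999) (l 534765071)) (b (l 534818319) (l 534789391))) (b (a (l 534736399) (l 534760719)) (a (l 534707983) (l 534732303)))) (b (b (a (c (l 534811407) (l 534824719))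 (c (l 534835215) (l 534848527))) (a (c (l 534781711) (l 534794767)) (c (l 534805775) (l 534818319)))) (b (a (c (l 534752527) (l 534765071)) (c (l 534776335) (l 534788623))) (a (c (l 534723343) (l 534735631)) (c (l 534747407) (l 534759183))))))), by decide +kernel⟩

def k239_A00pm_123_s3 : ∃ t, chk3 f_A00pm_123_s3 t 2024 233 3 = true :=
  ⟨(b (c (b (a (c (l 534795279) (b (l 534820111) (l 534804751))) (c (l 534817295) (b (l 534841871) (l 534826255)))) (a (c (l 534764815) (b (l 534789135) (l 534773775))) (c (l 534786831) (b (l 534810895) (l 534795535))))) (b (c (a (b (l 534839055) (l 534823183)) (b (l 534860303) (l 534844687))) (b (a (l 534859535) (l 534880527)) (a (l 534843407) (l 534864399)))) (a (c (b (l 534807567) (l 534791951)) (b (l 534827535) (l 534811663))) (c (b (l 534828815) (l 534813199)) (b (l 534848527) (l 534832655)))))) (c (b (a (c (l 534734607) (l 535019535)) (c (l 534756623) (b (l 534780175) (l 534764815)))) (a (c (l 534704911) (l 534720783)) (c (l 534726671) (b (l 534749711) (l 534734607)))))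 (b (a (c (b (l 534776591) (l 534760975)) (b (l 534796047) (l 534780431))) (c (b (l 534797839) (l 534782223)) (b (l 534816783) (l 534801167)))) (a (c (a (l 16775184) (l 534743055)) (b (l 534764815) (l 534749199))) (c (b (l 534766863) (l 534751503)) (b (l 534785551) (l 534769935))))))), by decide +kernel⟩

def k240_A00pm_123_s3 : ∃ t, chk3 f_A00pm_123_s3 t 2025 233 3 = true :=
  ⟨(b (c (c (b (a (l 534839823) (b (l 534870799) (l 534855439))) (a (l 534809359) (b (l 534840335) (l 534824975)))) (b (a (b (l 534864143) (l 534848527)) (b (l 534887183) (l 534871567))) (a (b (l 534833167) (l 534817807)) (b (l 534856207) (l 534840591))))) (a (c (b (b (l 534882319) (l 534866447)) (b (l 534850831) (l 534835215))) (b (b (l 534902031) (l 534885903)) (b (l 534870031) (l 534854159)))) (b (c (b (l 534905103) (l 534889231)) (b (l 534924303) (l 534908431))) (c (b (l 534873359) (l 534857743)) (b (l 534892303) (l 534876431)))))) (c (c (b (a (l 534779151) (b (l 534809871) (l 534794767))) (a (l 534749199) (l 535040783))) (b (a (b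 (l 534802447) (l 534787087)) (b (l 534825231) (l 534810127))) (a (b (l 534771983) (l 534756623)) (b (l 534794767) (l 14))))) (b (a (c (b (l 534819599) (l 534804239)) (b (l 534838287) (l 534822671))) (c (b (l 534842127) (l 534826767)) (b (l 534860559) (l 534844943)))) (b (a (c (l 534788623) (l 534807055)) (c (l 534811151) (l 534829071))) (a (c (l 534773263) (l 534791439)) (l 14)))))), by decide +kernel⟩

def k241_A00pm_123_s3 : ∃ t, chk3 f_A00pm_123_s3 t 1013 232 1 = true :=
  ⟨(c (a (b (a (a (b (l 4) (c (l 534925327) (l 534950927))) (l 4)) (l 4)) (c (a (b (l 534902031) (l 534872591)) (b (l 534927887) (l 534898447))) (a (b (c (l 534919951) (l 534933775)) (c (l 534889999) (l 534903311))) (b (c (l 534945551) (l 534959119)) (c (l 534915343) (l 534928399)))))) (b (l 4) (a (a (b (l 4) (b (l 4) (c (l 534910735) (l 534933263)))) (l 4)) (l 4)))) (b (b (l 4) (a (a (a (c (c (l 534974223) (l 534991631)) (c (l 535010575) (b (l 535039247) (l 535022607)))) (l 4)) (l 4)) (l 4))) (a (c (c (b (a (a (l 534942991) (l 534955279))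 (a (l 534967567) (l 4))) (a (b (l 534925839) (l 534910223)) (b (l 534950671) (l 534935055)))) (b (a (b (l 534973967) (l 534958095)) (b (l 4) (l 534982671))) (a (b (l 534942223) (l 534926607)) (b (l 534966799) (l 534951183))))) (a (b (c (b (l 534992399) (l 534976271)) (c (b (l 535007247) (l 534990863)) (b (l 535017487) (l 535001103)))) (c (b (l 534960143) (l 534944271)) (b (a (l 534973711) (l 534985487)) (a (l 534957583) (l 534969359))))) (b (a (b (l 4) (c (l 534994191) (l 535013647))) (l 4)) (c (b (l 534984463) (l 534968335)) (b (a (l 534997263) (l 535009551)) (a (l 534981135) (l 534993167))))))) (a (a (b (l 4) (c (c (l 534961935) (l 534977551)) (c (l 535129103) (b (l 4) (l 535005455))))) (l 4)) (l 4))))), by decide +kernel⟩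

def k242_A00pm_123_s3 : ∃ t, chk3 f_A00pm_123_s3 t 1013 233 2 = true :=
  ⟨(a (b (c (a (b (l 534843407) (l 534814479)) (b (l 534869263) (l 534840335))) (a (b (c (l 534860047) (l 534872847)) (c (l 534830351) (l 534842895))) (b (c (l 534885391) (l 534897935)) (c (l 534855695) (l 534867727))))) (b (c (a (l 534785807) (l 534811663)) (a (c (l 534800911) (l 534812943)) (c (l 534826255) (l 534838031)))) (l 14))) (b (c (a (b (c (l 534891279) (l 534900751)) (c (l 534862607) (l 534871567))) (b (c (l 534918671) (l 534927887)) (c (l 534889999) (l 534898703)))) (a (b (c (l 534911503) (l 534923791)) (c (l 534881807) (l 534893583))) (b (c (l 534938383) (a (l 534943503) (l 4))) (c (l 534908687) (a (l 534913295) (l 14)))))) (l 14))), by decide +kernel⟩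

def k243_A00pm_123_s3 : ∃ t, chk3 f_A00pm_123_s3 t 1013 233 3 = true :=
  ⟨(a (b (c (c (b (a (b (l 534894863) (l 534879503)) (b (l 534919695) (l 534904335))) (a (b (l 534864143) (l 534849039)) (b (l 534888975) (l 534873871)))) (b (a (b (l 534910991) (l 534895375)) (b (l 534935311) (l 534919695))) (a (b (l 534879759) (l 534864399)) (b (l 534904335) (l 534888719))))) (a (b (c (b (l 534928399) (l 534912527)) (b (a (l 534941455) (l 534953231)) (l 534931471))) (c (b (l 534896911) (l 534881039)) (b (l 534915343) (l 534899471)))) (b (c (b (l 534952463) (l 534936591)) (b (a (l 534965007) (l 534977039)) (a (l 534948879) (l 534960911)))) (c (b (l 534920975) (l 534905103)) (b (l 535073295) (l 534923279)))))) (b (b (c (a (c (l 534833935) (l 534849039)) (c (l 534858511) (l 534873359))) (a (c (l 534865423) (l 534883599)) (c (l 534889487) (l 534907151)))) (a (a (b (c (l 534823695) (l 534856463)) (l 14)) (l 14)) (l 14))) (l 14))) (b (c (a (b (c (b (l 534945295) (l 534929935)) (b (l 534960655) (l 534945039))) (c (b (l 534914575)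 (l 534899215)) (b (l 534929423) (l 534914063)))) (a (b (c (l 534957071) (l 534972175)) (c (l 534926351) (l 534940943))) (b (l 4) (l 14)))) (a (b (c (b (l 534977551) (l 534961679)) (b (a (l 534989327) (l 535001871)) (a (l 534973199) (l 534985743)))) (c (b (l 534945807) (l 534930191)) (b (a (l 534957327) (l 534969615)) (a (l 534941199) (l 14))))) (b (a (c (l 534988559) (b (l 4) (l 534998287))) (l 4)) (a (c (l 534956815) (b (l 534982415) (l 14))) (l 14))))) (l 14))), by decide +kernel⟩

def k244_A00pm_123_s3 : ∃ t, chk3 f_A00pm_123_s3 t 506 117 1 = true :=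
  ⟨(b (b (b (a (a (c (c (a (l 534633487) (l 534656527)) (a (c (l 16774960) (l 16774976)) (c (l 534671631) (l 534683663)))) (c (a (c (l 534675215) (l 534690575)) (c (l 534696975) (a (l 16775192) (l 14)))) (b (a (c (l 534715151) (l 534733583)) (c (l 534736143) (l 534754319))) (a (c (l 16774968) (l 534718223)) (l 14))))) (l 14)) (l 14)) (l 14)) (l 14)) (l 14)), by decide +kernel⟩

def k245_A00pm_123_s3 : ∃ t, chk3 f_A00pm_123_s3 t 507 58 1 = true :=
  ⟨(b (a (a (b (l 4) (b (b (l 4) (l 14)) (l 14))) (l 4)) (l 4)) (l 14)), by decide +kernel⟩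

def k246_A00pm_123_s3 : ∃ t, chk3 f_A00pm_123_s3 t 253 59 1 = true :=
  ⟨(l 14), by decide +kernel⟩

def k247_A00pm_123_s3 : ∃ t, chk3 f_A00pm_123_s3 t 126 15 1 = true :=
  ⟨(b (b (a (b (a (a (b (c (b (l 16763168) (l 16762528)) (c (l 16762920) (l 16757768))) (c (c (l 16761576) (l 16761584)) (a (l 16756024) (l 16756816)))) (l 14)) (l 14)) (a (a (b (b (c (a (l 16760280) (l 16761048)) (b (l 16760856) (l 16755360))) (b (a (c (b (l 16754696) (l 16759952)) (b (l 16754736) (l 16759960))) (c (l 16760672) (l 16755464))) (a (l 16760192) (a (a (l 16760392) (l 14)) (l 14))))) (c (l 16755984) (a (l 16755568) (l 16755888)))) (l 14)) (l 14))) (l 14)) (a (a (a (b (c (b (b (l 16762264) (l 16762976)) (a (l 16758720) (l 16758928))) (c (b (l 16762128) (l 16763264)) (b (l 16761816) (l 16762744)))) (c (b (b (l 16765176) (l 16765936)) (a (l 16761800) (l 16761936))) (b (c (l 16759208) (l 16758464)) (c (l 16760456) (l 16759496))))) (l 14)) (l 14)) (l 14))) (b (a (a (a (c (b (b (a (l 16763408) (l 16763496)) (a (l 16765056) (l 16765096)))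 (b (l 16766736) (l 16768448))) (b (b (c (l 16761760) (l 16760600)) (c (l 16763136) (l 16761792))) (b (b (l 16763480) (l 16764192)) (b (l 16764920) (l 16765672))))) (l 14)) (l 14)) (l 14)) (b (a (a (a (b (b (c (l 16774992) (l 16771688)) (c (l 16770112) (b (l 16766992) (l 16771960)))) (c (l 16768400) (c (l 16771408) (l 16764616)))) (l 14)) (l 14)) (l 14)) (a (a (a (c (b (l 16765856) (b (l 16769224) (l 16767992))) (b (c (l 16769240) (l 16762712)) (b (l 16761888) (c (l 16766648) (l 16765728))))) (l 14)) (l 14)) (l 14))))), by decide +kernel⟩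

def k248_A00pm_123_s3 : ∃ t, chk3 f_A00pm_123_s3 t 127 7 1 = true :=
  ⟨(b (b (l 4) (b (b (l 4) (l 14)) (l 14))) (l 14)), by decide +kernel⟩

theorem t249_A00pm_123_s3 : ∃ t, chk3 f_A00pm_123_s3 t 1013 233 1 = true := ex3_c k242_A00pm_123_s3 k243_A00pm_123_s3

theorem t250_A00pm_123_s3 : ∃ t, chk3 f_A00pm_123_s3 t 1013 116 1 = true := ex3_b k241_A00pm_123_s3 t249_A00pm_123_s3

theorem t251_A00pm_123_s3 : ∃ t, chk3 f_A00pm_123_s3 t 1012 233 3 = true := ex3_a k239_A00pm_123_s3 k240_A00pm_123_s3

theorem t252_A00pm_123_s3 : ∃ t, chk3 f_A00pm_123_s3 t 1012 233 1 = true := ex3_c k238_A00pm_123_s3 t251_A00pm_123_s3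

theorem t253_A00pm_123_s3 : ∃ t, chk3 f_A00pm_123_s3 t 1012 232 3 = true := ex3_a k236_A00pm_123_s3 k237_A00pm_123_s3

theorem t254_A00pm_123_s3 : ∃ t, chk3 f_A00pm_123_s3 t 1012 232 1 = true := ex3_c k235_A00pm_123_s3 t253_A00pm_123_s3

theorem t255_A00pm_123_s3 : ∃ t, chk3 f_A00pm_123_s3 t 1012 116 1 = true := ex3_b t254_A00pm_123_s3 t252_A00pm_123_s3

theorem t256_A00pm_123_s3 : ∃ t, chk3 f_A00pm_123_s3 t 506 116 1 = true := ex3_a t255_A00pm_123_s3 t250_A00pm_123_s3

theorem t257_A00pm_123_s3 : ∃ t, chk3 f_A00pm_123_s3 t 506 58 1 = true := ex3_b t256_A00pm_123_s3 k244_A00pm_123_s3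

theorem t258_A00pm_123_s3 : ∃ t, chk3 f_A00pm_123_s3 t 253 58 1 = true := ex3_a t257_A00pm_123_s3 k245_A00pm_123_s3

theorem t259_A00pm_123_s3 : ∃ t, chk3 f_A00pm_123_s3 t 253 29 1 = true := ex3_b t258_A00pm_123_s3 k246_A00pm_123_s3

theorem t260_A00pm_123_s3 : ∃ t, chk3 f_A00pm_123_s3 t 505 234 1 = true := ex3_a k231_A00pm_123_s3 k232_A00pm_123_s3

theorem t261_A00pm_123_s3 : ∃ t, chk3 f_A00pm_123_s3 t 505 117 1 = true := ex3_b t260_A00pm_123_s3 k233_A00pm_123_s3

theorem t262_A00pm_123_s3 : ∃ t, chk3 f_A00pm_123_s3 t 252 117 1 = true := ex3_a k230_A00pm_123_s3 t261_A00pm_123_s3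

theorem t263_A00pm_123_s3 : ∃ t, chk3 f_A00pm_123_s3 t 505 233 3 = true := ex3_a k228_A00pm_123_s3 k229_A00pm_123_s3

theorem t264_A00pm_123_s3 : ∃ t, chk3 f_A00pm_123_s3 t 505 233 1 = true := ex3_c k227_A00pm_123_s3 t263_A00pm_123_s3

theorem t265_A00pm_123_s3 : ∃ t, chk3 f_A00pm_123_s3 t 505 232 3 = true := ex3_a k225_A00pm_123_s3 k226_A00pm_123_s3

theorem t266_A00pm_123_s3 : ∃ t, chk3 f_A00pm_123_s3 t 505 232 1 = true := ex3_c k224_A00pm_123_s3 t265_A00pm_123_s3

theorem t267_A00pm_123_s3 : ∃ t, chk3 f_A00pm_123_s3 t 505 116 1 = true := ex3_b t266_A00pm_123_s3 t264_A00pm_123_s3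

theorem t268_A00pm_123_s3 : ∃ t, chk3 f_A00pm_123_s3 t 504 232 1 = true := ex3_c k221_A00pm_123_s3 k222_A00pm_123_s3

theorem t269_A00pm_123_s3 : ∃ t, chk3 f_A00pm_123_s3 t 504 116 1 = true := ex3_b t268_A00pm_123_s3 k223_A00pm_123_s3

theorem t270_A00pm_123_s3 : ∃ t, chk3 f_A00pm_123_s3 t 252 116 1 = true := ex3_a t269_A00pm_123_s3 t267_A00pm_123_s3

theorem t271_A00pm_123_s3 : ∃ t, chk3 f_A00pm_123_s3 t 252 58 1 = true := ex3_b t270_A00pm_123_s3 t262_A00pm_123_s3

theorem t272_A00pm_123_s3 : ∃ t, chk3 f_A00pm_123_s3 t 252 29 1 = true := ex3_b t271_A00pm_123_s3 k234_A00pm_123_s3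

theorem t273_A00pm_123_s3 : ∃ t, chk3 f_A00pm_123_s3 t 126 29 1 = true := ex3_a t272_A00pm_123_s3 t259_A00pm_123_s3

theorem t274_A00pm_123_s3 : ∃ t, chk3 f_A00pm_123_s3 t 505 231 3 = true := ex3_a k218_A00pm_123_s3 k219_A00pm_123_s3

theorem t275_A00pm_123_s3 : ∃ t, chk3 f_A00pm_123_s3 t 505 231 1 = true := ex3_c k217_A00pm_123_s3 t274_A00pm_123_s3

theorem t276_A00pm_123_s3 : ∃ t, chk3 f_A00pm_123_s3 t 505 230 3 = true := ex3_a k215_A00pm_123_s3 k216_A00pm_123_s3

theorem t277_A00pm_123_s3 : ∃ t, chk3 f_A00pm_123_s3 t 505 230 1 = true := ex3_c k214_A00pm_123_s3 t276_A00pm_123_s3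

theorem t278_A00pm_123_s3 : ∃ t, chk3 f_A00pm_123_s3 t 505 115 1 = true := ex3_b t277_A00pm_123_s3 t275_A00pm_123_s3

theorem t279_A00pm_123_s3 : ∃ t, chk3 f_A00pm_123_s3 t 505 57 1 = true := ex3_b k213_A00pm_123_s3 t278_A00pm_123_s3

theorem t280_A00pm_123_s3 : ∃ t, chk3 f_A00pm_123_s3 t 504 231 1 = true := ex3_c k211_A00pm_123_s3 k212_A00pm_123_s3

theorem t281_A00pm_123_s3 : ∃ t, chk3 f_A00pm_123_s3 t 504 230 1 = true := ex3_c k209_A00pm_123_s3 k210_A00pm_123_s3

theorem t282_A00pm_123_s3 : ∃ t, chk3 f_A00pm_123_s3 t 504 115 1 = true := ex3_b t281_A00pm_123_s3 t280_A00pm_123_s3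

theorem t283_A00pm_123_s3 : ∃ t, chk3 f_A00pm_123_s3 t 1009 114 3 = true := ex3_b k207_A00pm_123_s3 k208_A00pm_123_s3

theorem t284_A00pm_123_s3 : ∃ t, chk3 f_A00pm_123_s3 t 1008 114 3 = true := ex3_b k205_A00pm_123_s3 k206_A00pm_123_s3

theorem t285_A00pm_123_s3 : ∃ t, chk3 f_A00pm_123_s3 t 504 114 3 = true := ex3_a t284_A00pm_123_s3 t283_A00pm_123_s3

theorem t286_A00pm_123_s3 : ∃ t, chk3 f_A00pm_123_s3 t 504 114 2 = true := ex3_b k203_A00pm_123_s3 k204_A00pm_123_s3

theorem t287_A00pm_123_s3 : ∃ t, chk3 f_A00pm_123_s3 t 504 114 1 = true := ex3_c t286_A00pm_123_s3 t285_A00pm_123_s3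

theorem t288_A00pm_123_s3 : ∃ t, chk3 f_A00pm_123_s3 t 504 57 1 = true := ex3_b t287_A00pm_123_s3 t282_A00pm_123_s3

theorem t289_A00pm_123_s3 : ∃ t, chk3 f_A00pm_123_s3 t 252 57 1 = true := ex3_a t288_A00pm_123_s3 t279_A00pm_123_s3

theorem t290_A00pm_123_s3 : ∃ t, chk3 f_A00pm_123_s3 t 504 113 1 = true := ex3_c k200_A00pm_123_s3 k201_A00pm_123_s3

theorem t291_A00pm_123_s3 : ∃ t, chk3 f_A00pm_123_s3 t 252 113 1 = true := ex3_a t290_A00pm_123_s3 k202_A00pm_123_s3

theorem t292_A00pm_123_s3 : ∃ t, chk3 f_A00pm_123_s3 t 252 56 1 = true := ex3_b k199_A00pm_123_s3 t291_A00pm_123_s3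

theorem t293_A00pm_123_s3 : ∃ t, chk3 f_A00pm_123_s3 t 252 28 1 = true := ex3_b t292_A00pm_123_s3 t289_A00pm_123_s3

theorem t294_A00pm_123_s3 : ∃ t, chk3 f_A00pm_123_s3 t 126 28 1 = true := ex3_a t293_A00pm_123_s3 k220_A00pm_123_s3

theorem t295_A00pm_123_s3 : ∃ t, chk3 f_A00pm_123_s3 t 126 14 1 = true := ex3_b t294_A00pm_123_s3 t273_A00pm_123_s3

theorem t296_A00pm_123_s3 : ∃ t, chk3 f_A00pm_123_s3 t 126 7 1 = true := ex3_b t295_A00pm_123_s3 k247_A00pm_123_s3

theorem t297_A00pm_123_s3 : ∃ t, chk3 f_A00pm_123_s3 t 63 7 1 = true := ex3_a t296_A00pm_123_s3 k248_A00pm_123_s3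

theorem t298_A00pm_123_s3 : ∃ t, chk3 f_A00pm_123_s3 t 62 63 1 = true := ex3_b k197_A00pm_123_s3 k198_A00pm_123_s3

theorem t299_A00pm_123_s3 : ∃ t, chk3 f_A00pm_123_s3 t 62 62 1 = true := ex3_a k195_A00pm_123_s3 k196_A00pm_123_s3

theorem t300_A00pm_123_s3 : ∃ t, chk3 f_A00pm_123_s3 t 62 31 1 = true := ex3_b t299_A00pm_123_s3 t298_A00pm_123_s3

theorem t301_A00pm_123_s3 : ∃ t, chk3 f_A00pm_123_s3 t 125 60 1 = true := ex3_b k192_A00pm_123_s3 k193_A00pm_123_s3

theorem t302_A00pm_123_s3 : ∃ t, chk3 f_A00pm_123_s3 t 125 30 1 = true := ex3_b t301_A00pm_123_s3 k194_A00pm_123_s3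

theorem t303_A00pm_123_s3 : ∃ t, chk3 f_A00pm_123_s3 t 62 30 1 = true := ex3_a k191_A00pm_123_s3 t302_A00pm_123_s3

theorem t304_A00pm_123_s3 : ∃ t, chk3 f_A00pm_123_s3 t 62 15 1 = true := ex3_b t303_A00pm_123_s3 t300_A00pm_123_s3

theorem t305_A00pm_123_s3 : ∃ t, chk3 f_A00pm_123_s3 t 251 116 1 = true := ex3_a k187_A00pm_123_s3 k188_A00pm_123_s3

theorem t306_A00pm_123_s3 : ∃ t, chk3 f_A00pm_123_s3 t 251 58 1 = true := ex3_b t305_A00pm_123_s3 k189_A00pm_123_s3

theorem t307_A00pm_123_s3 : ∃ t, chk3 f_A00pm_123_s3 t 251 29 1 = true := ex3_b t306_A00pm_123_s3 k190_A00pm_123_s3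

theorem t308_A00pm_123_s3 : ∃ t, chk3 f_A00pm_123_s3 t 250 29 1 = true := ex3_c k185_A00pm_123_s3 k186_A00pm_123_s3

theorem t309_A00pm_123_s3 : ∃ t, chk3 f_A00pm_123_s3 t 125 29 1 = true := ex3_a t308_A00pm_123_s3 t307_A00pm_123_s3

theorem t310_A00pm_123_s3 : ∃ t, chk3 f_A00pm_123_s3 t 503 115 1 = true := ex3_c k183_A00pm_123_s3 k184_A00pm_123_s3

theorem t311_A00pm_123_s3 : ∃ t, chk3 f_A00pm_123_s3 t 251 115 1 = true := ex3_a k182_A00pm_123_s3 t310_A00pm_123_s3

theorem t312_A00pm_123_s3 : ∃ t, chk3 f_A00pm_123_s3 t 503 114 3 = true := ex3_a k180_A00pm_123_s3 k181_A00pm_123_s3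

theorem t313_A00pm_123_s3 : ∃ t, chk3 f_A00pm_123_s3 t 503 114 2 = true := ex3_b k178_A00pm_123_s3 k179_A00pm_123_s3

theorem t314_A00pm_123_s3 : ∃ t, chk3 f_A00pm_123_s3 t 503 114 1 = true := ex3_c t313_A00pm_123_s3 t312_A00pm_123_s3

theorem t315_A00pm_123_s3 : ∃ t, chk3 f_A00pm_123_s3 t 251 114 1 = true := ex3_a k177_A00pm_123_s3 t314_A00pm_123_s3

theorem t316_A00pm_123_s3 : ∃ t, chk3 f_A00pm_123_s3 t 251 57 1 = true := ex3_b t315_A00pm_123_s3 t311_A00pm_123_s3

theorem t317_A00pm_123_s3 : ∃ t, chk3 f_A00pm_123_s3 t 125 57 1 = true := ex3_a k176_A00pm_123_s3 t316_A00pm_123_s3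

theorem t318_A00pm_123_s3 : ∃ t, chk3 f_A00pm_123_s3 t 1007 227 3 = true := ex3_c k174_A00pm_123_s3 k175_A00pm_123_s3

theorem t319_A00pm_123_s3 : ∃ t, chk3 f_A00pm_123_s3 t 503 227 3 = true := ex3_a k173_A00pm_123_s3 t318_A00pm_123_s3

theorem t320_A00pm_123_s3 : ∃ t, chk3 f_A00pm_123_s3 t 503 227 2 = true := ex3_a k171_A00pm_123_s3 k172_A00pm_123_s3

theorem t321_A00pm_123_s3 : ∃ t, chk3 f_A00pm_123_s3 t 503 227 1 = true := ex3_c t320_A00pm_123_s3 t319_A00pm_123_s3

theorem t322_A00pm_123_s3 : ∃ t, chk3 f_A00pm_123_s3 t 503 113 1 = true := ex3_b k170_A00pm_123_s3 t321_A00pm_123_s3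

theorem t323_A00pm_123_s3 : ∃ t, chk3 f_A00pm_123_s3 t 503 56 1 = true := ex3_b k169_A00pm_123_s3 t322_A00pm_123_s3

theorem t324_A00pm_123_s3 : ∃ t, chk3 f_A00pm_123_s3 t 502 56 1 = true := ex3_b k167_A00pm_123_s3 k168_A00pm_123_s3

theorem t325_A00pm_123_s3 : ∃ t, chk3 f_A00pm_123_s3 t 251 56 1 = true := ex3_a t324_A00pm_123_s3 t323_A00pm_123_s3

theorem t326_A00pm_123_s3 : ∃ t, chk3 f_A00pm_123_s3 t 125 56 1 = true := ex3_a k166_A00pm_123_s3 t325_A00pm_123_s3

theorem t327_A00pm_123_s3 : ∃ t, chk3 f_A00pm_123_s3 t 125 28 1 = true := ex3_b t326_A00pm_123_s3 t317_A00pm_123_s3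

theorem t328_A00pm_123_s3 : ∃ t, chk3 f_A00pm_123_s3 t 125 14 1 = true := ex3_b t327_A00pm_123_s3 t309_A00pm_123_s3

theorem t329_A00pm_123_s3 : ∃ t, chk3 f_A00pm_123_s3 t 124 14 1 = true := ex3_b k164_A00pm_123_s3 k165_A00pm_123_s3

theorem t330_A00pm_123_s3 : ∃ t, chk3 f_A00pm_123_s3 t 62 14 1 = true := ex3_a t329_A00pm_123_s3 t328_A00pm_123_s3

theorem t331_A00pm_123_s3 : ∃ t, chk3 f_A00pm_123_s3 t 62 7 1 = true := ex3_b t330_A00pm_123_s3 t304_A00pm_123_s3

theorem t332_A00pm_123_s3 : ∃ t, chk3 f_A00pm_123_s3 t 31 7 1 = true := ex3_a t331_A00pm_123_s3 t297_A00pm_123_s3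

theorem t333_A00pm_123_s3 : ∃ t, chk3 f_A00pm_123_s3 t 61 31 1 = true := ex3_b k162_A00pm_123_s3 k163_A00pm_123_s3

theorem t334_A00pm_123_s3 : ∃ t, chk3 f_A00pm_123_s3 t 60 62 1 = true := ex3_a k159_A00pm_123_s3 k160_A00pm_123_s3

theorem t335_A00pm_123_s3 : ∃ t, chk3 f_A00pm_123_s3 t 60 31 1 = true := ex3_b t334_A00pm_123_s3 k161_A00pm_123_s3

theorem t336_A00pm_123_s3 : ∃ t, chk3 f_A00pm_123_s3 t 30 31 1 = true := ex3_a t335_A00pm_123_s3 t333_A00pm_123_s3

theorem t337_A00pm_123_s3 : ∃ t, chk3 f_A00pm_123_s3 t 30 30 1 = true := ex3_a k157_A00pm_123_s3 k158_A00pm_123_s3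

theorem t338_A00pm_123_s3 : ∃ t, chk3 f_A00pm_123_s3 t 30 15 1 = true := ex3_b t337_A00pm_123_s3 t336_A00pm_123_s3

theorem t339_A00pm_123_s3 : ∃ t, chk3 f_A00pm_123_s3 t 61 14 1 = true := ex3_a k155_A00pm_123_s3 k156_A00pm_123_s3

theorem t340_A00pm_123_s3 : ∃ t, chk3 f_A00pm_123_s3 t 120 57 1 = true := ex3_b k151_A00pm_123_s3 k152_A00pm_123_s3

theorem t341_A00pm_123_s3 : ∃ t, chk3 f_A00pm_123_s3 t 120 28 1 = true := ex3_b k150_A00pm_123_s3 t340_A00pm_123_s3

theorem t342_A00pm_123_s3 : ∃ t, chk3 f_A00pm_123_s3 t 60 28 1 = true := ex3_a t341_A00pm_123_s3 k153_A00pm_123_s3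

theorem t343_A00pm_123_s3 : ∃ t, chk3 f_A00pm_123_s3 t 60 14 1 = true := ex3_b t342_A00pm_123_s3 k154_A00pm_123_s3

theorem t344_A00pm_123_s3 : ∃ t, chk3 f_A00pm_123_s3 t 30 14 1 = true := ex3_a t343_A00pm_123_s3 t339_A00pm_123_s3

theorem t345_A00pm_123_s3 : ∃ t, chk3 f_A00pm_123_s3 t 30 7 1 = true := ex3_b t344_A00pm_123_s3 t338_A00pm_123_s3

theorem t346_A00pm_123_s3 : ∃ t, chk3 f_A00pm_123_s3 t 15 7 1 = true := ex3_a t345_A00pm_123_s3 t332_A00pm_123_s3

theorem t347_A00pm_123_s3 : ∃ t, chk3 f_A00pm_123_s3 t 118 255 1 = true := ex3_c k147_A00pm_123_s3 k148_A00pm_123_s3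

theorem t348_A00pm_123_s3 : ∃ t, chk3 f_A00pm_123_s3 t 118 127 1 = true := ex3_b k146_A00pm_123_s3 t347_A00pm_123_s3

theorem t349_A00pm_123_s3 : ∃ t, chk3 f_A00pm_123_s3 t 59 127 1 = true := ex3_a t348_A00pm_123_s3 k149_A00pm_123_s3

theorem t350_A00pm_123_s3 : ∃ t, chk3 f_A00pm_123_s3 t 59 63 1 = true := ex3_b k145_A00pm_123_s3 t349_A00pm_123_s3

theorem t351_A00pm_123_s3 : ∃ t, chk3 f_A00pm_123_s3 t 119 124 3 = true := ex3_b k142_A00pm_123_s3 k143_A00pm_123_s3

theorem t352_A00pm_123_s3 : ∃ t, chk3 f_A00pm_123_s3 t 119 124 1 = true := ex3_c k141_A00pm_123_s3 t351_A00pm_123_s3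

theorem t353_A00pm_123_s3 : ∃ t, chk3 f_A00pm_123_s3 t 119 62 1 = true := ex3_b t352_A00pm_123_s3 k144_A00pm_123_s3

theorem t354_A00pm_123_s3 : ∃ t, chk3 f_A00pm_123_s3 t 118 124 3 = true := ex3_b k138_A00pm_123_s3 k139_A00pm_123_s3

theorem t355_A00pm_123_s3 : ∃ t, chk3 f_A00pm_123_s3 t 118 62 3 = true := ex3_b t354_A00pm_123_s3 k140_A00pm_123_s3

theorem t356_A00pm_123_s3 : ∃ t, chk3 f_A00pm_123_s3 t 118 62 1 = true := ex3_c k137_A00pm_123_s3 t355_A00pm_123_s3

theorem t357_A00pm_123_s3 : ∃ t, chk3 f_A00pm_123_s3 t 59 62 1 = true := ex3_a t356_A00pm_123_s3 t353_A00pm_123_s3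

theorem t358_A00pm_123_s3 : ∃ t, chk3 f_A00pm_123_s3 t 59 31 1 = true := ex3_b t357_A00pm_123_s3 t350_A00pm_123_s3

theorem t359_A00pm_123_s3 : ∃ t, chk3 f_A00pm_123_s3 t 59 30 1 = true := ex3_a k135_A00pm_123_s3 k136_A00pm_123_s3

theorem t360_A00pm_123_s3 : ∃ t, chk3 f_A00pm_123_s3 t 59 15 1 = true := ex3_b t359_A00pm_123_s3 t358_A00pm_123_s3

theorem t361_A00pm_123_s3 : ∃ t, chk3 f_A00pm_123_s3 t 471 1023 3 = true := ex3_c k133_A00pm_123_s3 k134_A00pm_123_s3

theorem t362_A00pm_123_s3 : ∃ t, chk3 f_A00pm_123_s3 t 471 511 3 = true := ex3_b k132_A00pm_123_s3 t361_A00pm_123_s3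

theorem t363_A00pm_123_s3 : ∃ t, chk3 f_A00pm_123_s3 t 470 1023 3 = true := ex3_c k130_A00pm_123_s3 k131_A00pm_123_s3

theorem t364_A00pm_123_s3 : ∃ t, chk3 f_A00pm_123_s3 t 470 511 3 = true := ex3_b k129_A00pm_123_s3 t363_A00pm_123_s3

theorem t365_A00pm_123_s3 : ∃ t, chk3 f_A00pm_123_s3 t 235 511 3 = true := ex3_a t364_A00pm_123_s3 t362_A00pm_123_s3

theorem t366_A00pm_123_s3 : ∃ t, chk3 f_A00pm_123_s3 t 235 255 3 = true := ex3_b k128_A00pm_123_s3 t365_A00pm_123_s3

theorem t367_A00pm_123_s3 : ∃ t, chk3 f_A00pm_123_s3 t 234 511 7 = true := ex3_a k126_A00pm_123_s3 k127_A00pm_123_s3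

theorem t368_A00pm_123_s3 : ∃ t, chk3 f_A00pm_123_s3 t 234 255 7 = true := ex3_b k125_A00pm_123_s3 t367_A00pm_123_s3

theorem t369_A00pm_123_s3 : ∃ t, chk3 f_A00pm_123_s3 t 234 255 6 = true := ex3_b k123_A00pm_123_s3 k124_A00pm_123_s3

theorem t370_A00pm_123_s3 : ∃ t, chk3 f_A00pm_123_s3 t 234 255 3 = true := ex3_c t369_A00pm_123_s3 t368_A00pm_123_s3

theorem t371_A00pm_123_s3 : ∃ t, chk3 f_A00pm_123_s3 t 117 255 3 = true := ex3_a t370_A00pm_123_s3 t366_A00pm_123_s3

theorem t372_A00pm_123_s3 : ∃ t, chk3 f_A00pm_123_s3 t 235 255 2 = true := ex3_b k121_A00pm_123_s3 k122_A00pm_123_s3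

theorem t373_A00pm_123_s3 : ∃ t, chk3 f_A00pm_123_s3 t 117 255 2 = true := ex3_a k120_A00pm_123_s3 t372_A00pm_123_s3

theorem t374_A00pm_123_s3 : ∃ t, chk3 f_A00pm_123_s3 t 117 255 1 = true := ex3_c t373_A00pm_123_s3 t371_A00pm_123_s3

theorem t375_A00pm_123_s3 : ∃ t, chk3 f_A00pm_123_s3 t 117 127 1 = true := ex3_b k119_A00pm_123_s3 t374_A00pm_123_s3

theorem t376_A00pm_123_s3 : ∃ t, chk3 f_A00pm_123_s3 t 233 255 7 = true := ex3_b k117_A00pm_123_s3 k118_A00pm_123_s3

theorem t377_A00pm_123_s3 : ∃ t, chk3 f_A00pm_123_s3 t 116 255 7 = true := ex3_a k116_A00pm_123_s3 t376_A00pm_123_s3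

theorem t378_A00pm_123_s3 : ∃ t, chk3 f_A00pm_123_s3 t 233 511 6 = true := ex3_a k114_A00pm_123_s3 k115_A00pm_123_s3

theorem t379_A00pm_123_s3 : ∃ t, chk3 f_A00pm_123_s3 t 233 255 6 = true := ex3_b k113_A00pm_123_s3 t378_A00pm_123_s3

theorem t380_A00pm_123_s3 : ∃ t, chk3 f_A00pm_123_s3 t 232 1023 6 = true := ex3_a k111_A00pm_123_s3 k112_A00pm_123_s3

theorem t381_A00pm_123_s3 : ∃ t, chk3 f_A00pm_123_s3 t 232 511 6 = true := ex3_b k110_A00pm_123_s3 t380_A00pm_123_s3

theorem t382_A00pm_123_s3 : ∃ t, chk3 f_A00pm_123_s3 t 232 255 6 = true := ex3_b k109_A00pm_123_s3 t381_A00pm_123_s3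

theorem t383_A00pm_123_s3 : ∃ t, chk3 f_A00pm_123_s3 t 116 255 6 = true := ex3_a t382_A00pm_123_s3 t379_A00pm_123_s3

theorem t384_A00pm_123_s3 : ∃ t, chk3 f_A00pm_123_s3 t 116 255 3 = true := ex3_c t383_A00pm_123_s3 t377_A00pm_123_s3

theorem t385_A00pm_123_s3 : ∃ t, chk3 f_A00pm_123_s3 t 116 127 3 = true := ex3_b k108_A00pm_123_s3 t384_A00pm_123_s3

theorem t386_A00pm_123_s3 : ∃ t, chk3 f_A00pm_123_s3 t 116 255 5 = true := ex3_a k106_A00pm_123_s3 k107_A00pm_123_s3

theorem t387_A00pm_123_s3 : ∃ t, chk3 f_A00pm_123_s3 t 116 255 2 = true := ex3_c k105_A00pm_123_s3 t386_A00pm_123_s3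

theorem t388_A00pm_123_s3 : ∃ t, chk3 f_A00pm_123_s3 t 116 127 2 = true := ex3_b k104_A00pm_123_s3 t387_A00pm_123_s3

theorem t389_A00pm_123_s3 : ∃ t, chk3 f_A00pm_123_s3 t 116 127 1 = true := ex3_c t388_A00pm_123_s3 t385_A00pm_123_s3

theorem t390_A00pm_123_s3 : ∃ t, chk3 f_A00pm_123_s3 t 58 127 1 = true := ex3_a t389_A00pm_123_s3 t375_A00pm_123_s3

theorem t391_A00pm_123_s3 : ∃ t, chk3 f_A00pm_123_s3 t 58 126 1 = true := ex3_a k102_A00pm_123_s3 k103_A00pm_123_s3

theorem t392_A00pm_123_s3 : ∃ t, chk3 f_A00pm_123_s3 t 58 63 1 = true := ex3_b t391_A00pm_123_s3 t390_A00pm_123_s3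

theorem t393_A00pm_123_s3 : ∃ t, chk3 f_A00pm_123_s3 t 117 62 3 = true := ex3_a k100_A00pm_123_s3 k101_A00pm_123_s3

theorem t394_A00pm_123_s3 : ∃ t, chk3 f_A00pm_123_s3 t 117 62 1 = true := ex3_c k99_A00pm_123_s3 t393_A00pm_123_s3

theorem t395_A00pm_123_s3 : ∃ t, chk3 f_A00pm_123_s3 t 116 62 3 = true := ex3_c k97_A00pm_123_s3 k98_A00pm_123_s3

theorem t396_A00pm_123_s3 : ∃ t, chk3 f_A00pm_123_s3 t 116 62 1 = true := ex3_c k96_A00pm_123_s3 t395_A00pm_123_s3

theorem t397_A00pm_123_s3 : ∃ t, chk3 f_A00pm_123_s3 t 58 62 1 = true := ex3_a t396_A00pm_123_s3 t394_A00pm_123_s3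

theorem t398_A00pm_123_s3 : ∃ t, chk3 f_A00pm_123_s3 t 58 31 1 = true := ex3_b t397_A00pm_123_s3 t392_A00pm_123_s3

theorem t399_A00pm_123_s3 : ∃ t, chk3 f_A00pm_123_s3 t 117 30 1 = true := ex3_c k94_A00pm_123_s3 k95_A00pm_123_s3

theorem t400_A00pm_123_s3 : ∃ t, chk3 f_A00pm_123_s3 t 116 30 1 = true := ex3_b k92_A00pm_123_s3 k93_A00pm_123_s3

theorem t401_A00pm_123_s3 : ∃ t, chk3 f_A00pm_123_s3 t 58 30 1 = true := ex3_a t400_A00pm_123_s3 t399_A00pm_123_s3

theorem t402_A00pm_123_s3 : ∃ t, chk3 f_A00pm_123_s3 t 58 15 1 = true := ex3_b t401_A00pm_123_s3 t398_A00pm_123_s3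

theorem t403_A00pm_123_s3 : ∃ t, chk3 f_A00pm_123_s3 t 29 15 1 = true := ex3_a t402_A00pm_123_s3 t360_A00pm_123_s3

theorem t404_A00pm_123_s3 : ∃ t, chk3 f_A00pm_123_s3 t 119 57 3 = true := ex3_b k89_A00pm_123_s3 k90_A00pm_123_s3

theorem t405_A00pm_123_s3 : ∃ t, chk3 f_A00pm_123_s3 t 119 57 1 = true := ex3_c k88_A00pm_123_s3 t404_A00pm_123_s3

theorem t406_A00pm_123_s3 : ∃ t, chk3 f_A00pm_123_s3 t 59 57 1 = true := ex3_a k87_A00pm_123_s3 t405_A00pm_123_s3

theorem t407_A00pm_123_s3 : ∃ t, chk3 f_A00pm_123_s3 t 118 113 1 = true := ex3_c k84_A00pm_123_s3 k85_A00pm_123_s3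

theorem t408_A00pm_123_s3 : ∃ t, chk3 f_A00pm_123_s3 t 118 56 1 = true := ex3_b k83_A00pm_123_s3 t407_A00pm_123_s3

theorem t409_A00pm_123_s3 : ∃ t, chk3 f_A00pm_123_s3 t 59 56 1 = true := ex3_a t408_A00pm_123_s3 k86_A00pm_123_s3

theorem t410_A00pm_123_s3 : ∃ t, chk3 f_A00pm_123_s3 t 59 28 1 = true := ex3_b t409_A00pm_123_s3 t406_A00pm_123_s3

theorem t411_A00pm_123_s3 : ∃ t, chk3 f_A00pm_123_s3 t 59 14 1 = true := ex3_b t410_A00pm_123_s3 k91_A00pm_123_s3

theorem t412_A00pm_123_s3 : ∃ t, chk3 f_A00pm_123_s3 t 117 28 1 = true := ex3_b k80_A00pm_123_s3 k81_A00pm_123_s3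

theorem t413_A00pm_123_s3 : ∃ t, chk3 f_A00pm_123_s3 t 58 28 1 = true := ex3_a k79_A00pm_123_s3 t412_A00pm_123_s3

theorem t414_A00pm_123_s3 : ∃ t, chk3 f_A00pm_123_s3 t 58 14 1 = true := ex3_b t413_A00pm_123_s3 k82_A00pm_123_s3

theorem t415_A00pm_123_s3 : ∃ t, chk3 f_A00pm_123_s3 t 29 14 1 = true := ex3_a t414_A00pm_123_s3 t411_A00pm_123_s3

theorem t416_A00pm_123_s3 : ∃ t, chk3 f_A00pm_123_s3 t 29 7 1 = true := ex3_b t415_A00pm_123_s3 t403_A00pm_123_s3

theorem t417_A00pm_123_s3 : ∃ t, chk3 f_A00pm_123_s3 t 231 511 6 = true := ex3_b k76_A00pm_123_s3 k77_A00pm_123_s3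

theorem t418_A00pm_123_s3 : ∃ t, chk3 f_A00pm_123_s3 t 115 511 6 = true := ex3_a k75_A00pm_123_s3 t417_A00pm_123_s3

theorem t419_A00pm_123_s3 : ∃ t, chk3 f_A00pm_123_s3 t 115 255 6 = true := ex3_b k74_A00pm_123_s3 t418_A00pm_123_s3

theorem t420_A00pm_123_s3 : ∃ t, chk3 f_A00pm_123_s3 t 115 255 3 = true := ex3_c t419_A00pm_123_s3 k78_A00pm_123_s3

theorem t421_A00pm_123_s3 : ∃ t, chk3 f_A00pm_123_s3 t 115 127 3 = true := ex3_b k73_A00pm_123_s3 t420_A00pm_123_s3

theorem t422_A00pm_123_s3 : ∃ t, chk3 f_A00pm_123_s3 t 57 127 3 = true := ex3_a k72_A00pm_123_s3 t421_A00pm_123_s3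

theorem t423_A00pm_123_s3 : ∃ t, chk3 f_A00pm_123_s3 t 57 63 3 = true := ex3_b k71_A00pm_123_s3 t422_A00pm_123_s3

theorem t424_A00pm_123_s3 : ∃ t, chk3 f_A00pm_123_s3 t 230 511 5 = true := ex3_b k68_A00pm_123_s3 k69_A00pm_123_s3

theorem t425_A00pm_123_s3 : ∃ t, chk3 f_A00pm_123_s3 t 230 255 5 = true := ex3_b k67_A00pm_123_s3 t424_A00pm_123_s3

theorem t426_A00pm_123_s3 : ∃ t, chk3 f_A00pm_123_s3 t 115 255 5 = true := ex3_a t425_A00pm_123_s3 k70_A00pm_123_s3

theorem t427_A00pm_123_s3 : ∃ t, chk3 f_A00pm_123_s3 t 115 255 4 = true := ex3_a k65_A00pm_123_s3 k66_A00pm_123_s3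

theorem t428_A00pm_123_s3 : ∃ t, chk3 f_A00pm_123_s3 t 115 255 2 = true := ex3_c t427_A00pm_123_s3 t426_A00pm_123_s3

theorem t429_A00pm_123_s3 : ∃ t, chk3 f_A00pm_123_s3 t 115 127 2 = true := ex3_b k64_A00pm_123_s3 t428_A00pm_123_s3

theorem t430_A00pm_123_s3 : ∃ t, chk3 f_A00pm_123_s3 t 229 511 5 = true := ex3_b k62_A00pm_123_s3 k63_A00pm_123_s3

theorem t431_A00pm_123_s3 : ∃ t, chk3 f_A00pm_123_s3 t 229 255 5 = true := ex3_b k61_A00pm_123_s3 t430_A00pm_123_s3

theorem t432_A00pm_123_s3 : ∃ t, chk3 f_A00pm_123_s3 t 114 255 5 = true := ex3_a k60_A00pm_123_s3 t431_A00pm_123_s3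

theorem t433_A00pm_123_s3 : ∃ t, chk3 f_A00pm_123_s3 t 114 511 4 = true := ex3_a k58_A00pm_123_s3 k59_A00pm_123_s3

theorem t434_A00pm_123_s3 : ∃ t, chk3 f_A00pm_123_s3 t 114 255 4 = true := ex3_b k57_A00pm_123_s3 t433_A00pm_123_s3

theorem t435_A00pm_123_s3 : ∃ t, chk3 f_A00pm_123_s3 t 114 255 2 = true := ex3_c t434_A00pm_123_s3 t432_A00pm_123_s3

theorem t436_A00pm_123_s3 : ∃ t, chk3 f_A00pm_123_s3 t 114 127 2 = true := ex3_b k56_A00pm_123_s3 t435_A00pm_123_s3

theorem t437_A00pm_123_s3 : ∃ t, chk3 f_A00pm_123_s3 t 57 127 2 = true := ex3_a t436_A00pm_123_s3 t429_A00pm_123_s3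

theorem t438_A00pm_123_s3 : ∃ t, chk3 f_A00pm_123_s3 t 57 63 2 = true := ex3_b k55_A00pm_123_s3 t437_A00pm_123_s3

theorem t439_A00pm_123_s3 : ∃ t, chk3 f_A00pm_123_s3 t 57 63 1 = true := ex3_c t438_A00pm_123_s3 t423_A00pm_123_s3

theorem t440_A00pm_123_s3 : ∃ t, chk3 f_A00pm_123_s3 t 113 511 4 = true := ex3_a k51_A00pm_123_s3 k52_A00pm_123_s3

theorem t441_A00pm_123_s3 : ∃ t, chk3 f_A00pm_123_s3 t 113 255 4 = true := ex3_b k50_A00pm_123_s3 t440_A00pm_123_s3

theorem t442_A00pm_123_s3 : ∃ t, chk3 f_A00pm_123_s3 t 113 255 2 = true := ex3_c t441_A00pm_123_s3 k53_A00pm_123_s3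

theorem t443_A00pm_123_s3 : ∃ t, chk3 f_A00pm_123_s3 t 113 127 2 = true := ex3_b k49_A00pm_123_s3 t442_A00pm_123_s3

theorem t444_A00pm_123_s3 : ∃ t, chk3 f_A00pm_123_s3 t 56 127 2 = true := ex3_a k48_A00pm_123_s3 t443_A00pm_123_s3

theorem t445_A00pm_123_s3 : ∃ t, chk3 f_A00pm_123_s3 t 56 127 1 = true := ex3_c t444_A00pm_123_s3 k54_A00pm_123_s3

theorem t446_A00pm_123_s3 : ∃ t, chk3 f_A00pm_123_s3 t 56 63 1 = true := ex3_b k47_A00pm_123_s3 t445_A00pm_123_s3

theorem t447_A00pm_123_s3 : ∃ t, chk3 f_A00pm_123_s3 t 28 63 1 = true := ex3_a t446_A00pm_123_s3 t439_A00pm_123_s3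

theorem t448_A00pm_123_s3 : ∃ t, chk3 f_A00pm_123_s3 t 115 62 1 = true := ex3_c k45_A00pm_123_s3 k46_A00pm_123_s3

theorem t449_A00pm_123_s3 : ∃ t, chk3 f_A00pm_123_s3 t 114 62 1 = true := ex3_c k43_A00pm_123_s3 k44_A00pm_123_s3

theorem t450_A00pm_123_s3 : ∃ t, chk3 f_A00pm_123_s3 t 57 62 1 = true := ex3_a t449_A00pm_123_s3 t448_A00pm_123_s3

theorem t451_A00pm_123_s3 : ∃ t, chk3 f_A00pm_123_s3 t 56 62 1 = true := ex3_c k41_A00pm_123_s3 k42_A00pm_123_s3

theorem t452_A00pm_123_s3 : ∃ t, chk3 f_A00pm_123_s3 t 28 62 1 = true := ex3_a t451_A00pm_123_s3 t450_A00pm_123_s3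

theorem t453_A00pm_123_s3 : ∃ t, chk3 f_A00pm_123_s3 t 28 31 1 = true := ex3_b t452_A00pm_123_s3 t447_A00pm_123_s3

theorem t454_A00pm_123_s3 : ∃ t, chk3 f_A00pm_123_s3 t 115 61 1 = true := ex3_c k39_A00pm_123_s3 k40_A00pm_123_s3

theorem t455_A00pm_123_s3 : ∃ t, chk3 f_A00pm_123_s3 t 114 61 1 = true := ex3_c k37_A00pm_123_s3 k38_A00pm_123_s3

theorem t456_A00pm_123_s3 : ∃ t, chk3 f_A00pm_123_s3 t 57 61 1 = true := ex3_a t455_A00pm_123_s3 t454_A00pm_123_s3

theorem t457_A00pm_123_s3 : ∃ t, chk3 f_A00pm_123_s3 t 57 30 1 = true := ex3_b k36_A00pm_123_s3 t456_A00pm_123_s3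

theorem t458_A00pm_123_s3 : ∃ t, chk3 f_A00pm_123_s3 t 56 61 2 = true := ex3_a k33_A00pm_123_s3 k34_A00pm_123_s3

theorem t459_A00pm_123_s3 : ∃ t, chk3 f_A00pm_123_s3 t 56 30 2 = true := ex3_b k32_A00pm_123_s3 t458_A00pm_123_s3

theorem t460_A00pm_123_s3 : ∃ t, chk3 f_A00pm_123_s3 t 56 30 1 = true := ex3_c t459_A00pm_123_s3 k35_A00pm_123_s3

theorem t461_A00pm_123_s3 : ∃ t, chk3 f_A00pm_123_s3 t 28 30 1 = true := ex3_a t460_A00pm_123_s3 t457_A00pm_123_s3

theorem t462_A00pm_123_s3 : ∃ t, chk3 f_A00pm_123_s3 t 28 15 1 = true := ex3_b t461_A00pm_123_s3 t453_A00pm_123_s3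

theorem t463_A00pm_123_s3 : ∃ t, chk3 f_A00pm_123_s3 t 28 7 1 = true := ex3_b k31_A00pm_123_s3 t462_A00pm_123_s3

theorem t464_A00pm_123_s3 : ∃ t, chk3 f_A00pm_123_s3 t 14 7 1 = true := ex3_a t463_A00pm_123_s3 t416_A00pm_123_s3

theorem t465_A00pm_123_s3 : ∃ t, chk3 f_A00pm_123_s3 t 7 7 1 = true := ex3_a t464_A00pm_123_s3 t346_A00pm_123_s3

theorem t466_A00pm_123_s3 : ∃ t, chk3 f_A00pm_123_s3 t 124 27 1 = true := ex3_b k27_A00pm_123_s3 k28_A00pm_123_s3

theorem t467_A00pm_123_s3 : ∃ t, chk3 f_A00pm_123_s3 t 62 27 1 = true := ex3_a t466_A00pm_123_s3 k29_A00pm_123_s3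

theorem t468_A00pm_123_s3 : ∃ t, chk3 f_A00pm_123_s3 t 62 13 1 = true := ex3_b k26_A00pm_123_s3 t467_A00pm_123_s3

theorem t469_A00pm_123_s3 : ∃ t, chk3 f_A00pm_123_s3 t 62 6 1 = true := ex3_b k25_A00pm_123_s3 t468_A00pm_123_s3

theorem t470_A00pm_123_s3 : ∃ t, chk3 f_A00pm_123_s3 t 31 6 1 = true := ex3_a t469_A00pm_123_s3 k30_A00pm_123_s3

theorem t471_A00pm_123_s3 : ∃ t, chk3 f_A00pm_123_s3 t 123 26 1 = true := ex3_b k22_A00pm_123_s3 k23_A00pm_123_s3

theorem t472_A00pm_123_s3 : ∃ t, chk3 f_A00pm_123_s3 t 61 26 1 = true := ex3_a k21_A00pm_123_s3 t471_A00pm_123_s3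

theorem t473_A00pm_123_s3 : ∃ t, chk3 f_A00pm_123_s3 t 61 13 1 = true := ex3_b t472_A00pm_123_s3 k24_A00pm_123_s3

theorem t474_A00pm_123_s3 : ∃ t, chk3 f_A00pm_123_s3 t 30 13 1 = true := ex3_a k20_A00pm_123_s3 t473_A00pm_123_s3

theorem t475_A00pm_123_s3 : ∃ t, chk3 f_A00pm_123_s3 t 60 25 1 = true := ex3_a k17_A00pm_123_s3 k18_A00pm_123_s3

theorem t476_A00pm_123_s3 : ∃ t, chk3 f_A00pm_123_s3 t 60 12 1 = true := ex3_b k16_A00pm_123_s3 t475_A00pm_123_s3

theorem t477_A00pm_123_s3 : ∃ t, chk3 f_A00pm_123_s3 t 30 12 1 = true := ex3_a t476_A00pm_123_s3 k19_A00pm_123_s3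

theorem t478_A00pm_123_s3 : ∃ t, chk3 f_A00pm_123_s3 t 30 6 1 = true := ex3_b t477_A00pm_123_s3 t474_A00pm_123_s3

theorem t479_A00pm_123_s3 : ∃ t, chk3 f_A00pm_123_s3 t 15 6 1 = true := ex3_a t478_A00pm_123_s3 t470_A00pm_123_s3

theorem t480_A00pm_123_s3 : ∃ t, chk3 f_A00pm_123_s3 t 29 12 1 = true := ex3_a k13_A00pm_123_s3 k14_A00pm_123_s3

theorem t481_A00pm_123_s3 : ∃ t, chk3 f_A00pm_123_s3 t 29 6 1 = true := ex3_b t480_A00pm_123_s3 k15_A00pm_123_s3

theorem t482_A00pm_123_s3 : ∃ t, chk3 f_A00pm_123_s3 t 14 6 1 = true := ex3_a k12_A00pm_123_s3 t481_A00pm_123_s3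

theorem t483_A00pm_123_s3 : ∃ t, chk3 f_A00pm_123_s3 t 7 6 1 = true := ex3_a t482_A00pm_123_s3 t479_A00pm_123_s3

theorem t484_A00pm_123_s3 : ∃ t, chk3 f_A00pm_123_s3 t 7 3 1 = true := ex3_b t483_A00pm_123_s3 t465_A00pm_123_s3

theorem t485_A00pm_123_s3 : ∃ t, chk3 f_A00pm_123_s3 t 13 31 1 = true := ex3_a k10_A00pm_123_s3 k11_A00pm_123_s3

theorem t486_A00pm_123_s3 : ∃ t, chk3 f_A00pm_123_s3 t 55 30 1 = true := ex3_c k8_A00pm_123_s3 k9_A00pm_123_s3

theorem t487_A00pm_123_s3 : ∃ t, chk3 f_A00pm_123_s3 t 27 30 1 = true := ex3_a k7_A00pm_123_s3 t486_A00pm_123_s3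

theorem t488_A00pm_123_s3 : ∃ t, chk3 f_A00pm_123_s3 t 13 30 1 = true := ex3_a k6_A00pm_123_s3 t487_A00pm_123_s3

theorem t489_A00pm_123_s3 : ∃ t, chk3 f_A00pm_123_s3 t 13 15 1 = true := ex3_b t488_A00pm_123_s3 t485_A00pm_123_s3

theorem t490_A00pm_123_s3 : ∃ t, chk3 f_A00pm_123_s3 t 13 7 1 = true := ex3_b k5_A00pm_123_s3 t489_A00pm_123_s3

theorem t491_A00pm_123_s3 : ∃ t, chk3 f_A00pm_123_s3 t 13 3 1 = true := ex3_b k4_A00pm_123_s3 t490_A00pm_123_s3

theorem t492_A00pm_123_s3 : ∃ t, chk3 f_A00pm_123_s3 t 6 3 1 = true := ex3_a k3_A00pm_123_s3 t491_A00pm_123_s3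

theorem t493_A00pm_123_s3 : ∃ t, chk3 f_A00pm_123_s3 t 3 3 1 = true := ex3_a t492_A00pm_123_s3 t484_A00pm_123_s3

theorem t494_A00pm_123_s3 : ∃ t, chk3 f_A00pm_123_s3 t 3 2 1 = true := ex3_a k1_A00pm_123_s3 k2_A00pm_123_s3

theorem t495_A00pm_123_s3 : ∃ t, chk3 f_A00pm_123_s3 t 3 1 1 = true := ex3_b t494_A00pm_123_s3 t493_A00pm_123_s3

theorem t496_A00pm_123_s3 : ∃ t, chk3 f_A00pm_123_s3 t 1 1 1 = true := ex3_a k0_A00pm_123_s3 t495_A00pm_123_s3

theorem c_A00pm_123_s3 : CertF 536870912 536870912 0 536870912 923417968 42949674 true true false .npn 1 2 3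
    ndB0q1 ndB0q2 pcB3 cut_A00pm_123_s3 xt_A00pm_123_s3 :=
  certF2 (fam := true) (s1 := true) (s2 := false) (a := 1) (b := 2) (c := 3) (cn := .npn) (n1 := ndB0q1) (n2 := ndB0q2) (pc := pcB3) (cut := cut_A00pm_123_s3) (xt := xt_A00pm_123_s3) (P1 := 536870912) (W1 := 536870912) (P2 := 0) (W2 := 536870912) (P3 := 923417968) (W3 := 42949674)
    rfl (fun _ => rfl) t496_A00pm_123_s3

theorem s_A00pm_123_s3 {κ x : ℝ} (hκ : κ * h0 = ken x) (hx : ((923417968 : ℕ) : ℝ) / S ≤ x)
    (hx' : x ≤ (((923417968 : ℕ) : ℝ) + (42949674 : ℕ)) / S)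
    (H : CutA (VFD κ) PP tK tL pcB (Cut.of [[⟨0, 1, 0, 67108864⟩, ⟨1, 1, 0, 67108864⟩, ⟨2, 2, 0, 16252928⟩], [⟨0, 0, 1, 20971520⟩, ⟨1, 1, 0, 8388608⟩, ⟨2, 1, 1, 20971520⟩]]) 1 2 3 0 0 (sgb true) (sgb false) x) :
    AltA (VFD κ) PP tK tL pcB [⟨4, 0, 0, 2845415833⟩] 1 2 3 0 0 (sgb true) (sgb false) x :=
  strip_altAD (m := 2845415833) false rfl hκ (SH.κ0 hκ (SH.hx1 hx).le (SH.hx2 hx').le) (SH.hx1 hx).le (SH.hx2 hx') (covB01).cov (covB02).cov hx hx' c_A00pm_123_s3 H ((okx hx hx').extA (T := tt) (sideB hx hx') hκ rfl rfl (.O 1 true) (.O 2 false) (Or.inr rfl))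

end Pool.Agent.Strip051.G.I8600_9000.Tab.St.C
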