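import Pool.Agent.Strip051.G.I8600_9000.Tab
import Pool.Agent.Strip051.PB.StripB

/-! # Strips, near vertex: certificates 0 (generated) -/

set_option linter.all false
set_option maxRecDepth 100000

namespace Pool.Agent.Strip051.G.I8600_9000.Tab.CS.BA00

open Pool.Agent.Strip051.PB Pool.Agent.Strip051.PB.T
open Pool.Agent.Strip051.G.I8600_9000.Tab

noncomputable def cut_pp_001_s : Cut := Cut.of [[⟨4, 0, 0, 1449551462⟩]]

noncomputable def f_pp_001_s : ℕ → ℕ → ℕ → ℕ → Bool := onCell 0 536870912 0 536870912 923417968 42949674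
    (rowNE 3 eng mog cd0q0 cd0q0 pd1 0 true true true .up 0 0 1 (qsf 0 536870912 0 536870912 1) ndB0q0 ndB0q0 pcB1 cut_pp_001_s Ext.none)

def k0_pp_001_s : ∃ t, chk3 f_pp_001_s t 1 1 1 = true :=
  ⟨(l 4), by decide +kernel⟩

theorem c_pp_001_s : CertNE 0 536870912 0 536870912 923417968 42949674 3 eng mog cd0q0 cd0q0 pd1 true true true .up 0 0 1
    ndB0q0 ndB0q0 pcB1 cut_pp_001_s Ext.none :=
  certNE0 (fam := true) (s1 := true) (s2 := true) (a := 0) (b := 0) (c := 1) (cn := .up) (n1 := ndB0q0) (n2 := ndB0q0) (pc := pcB1) (cut := cut_pp_001_s) (xt := Ext.none) (P1 := 0) (W1 := 536870912) (P2 := 0) (W2 := 536870912) (P3 := 923417968) (W3 := 42949674) (N0 := 3) (En := eng) (mo := mog) (C1 := cd0q0) (C2 := cd0q0) (C3 := pd1)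
    rfl k0_pp_001_s

noncomputable def cut_pp_001_t : Cut := Cut.of [[⟨3, 0, 0, 2845415833⟩]]

noncomputable def f_pp_001_t : ℕ → ℕ → ℕ → ℕ → Bool := onCell 0 536870912 0 536870912 923417968 42949674
    (rowNE 3 eng mog cd0q0 cd0q0 pd1 0 true true true .up 0 0 1 (qsf 0 536870912 0 536870912 1) ndB0q0 ndB0q0 pcB1 cut_pp_001_t Ext.none)

def k0_pp_001_t : ∃ t, chk3 f_pp_001_t t 1 1 1 = true :=
  ⟨(l 4), by decide +kernel⟩

theorem c_pp_001_t : CertNE 0 536870912 0 536870912 923417968 42949674 3 eng mog cd0q0 cd0q0 pd1 true true true .up 0 0 1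
    ndB0q0 ndB0q0 pcB1 cut_pp_001_t Ext.none :=
  certNE0 (fam := true) (s1 := true) (s2 := true) (a := 0) (b := 0) (c := 1) (cn := .up) (n1 := ndB0q0) (n2 := ndB0q0) (pc := pcB1) (cut := cut_pp_001_t) (xt := Ext.none) (P1 := 0) (W1 := 536870912) (P2 := 0) (W2 := 536870912) (P3 := 923417968) (W3 := 42949674) (N0 := 3) (En := eng) (mo := mog) (C1 := cd0q0) (C2 := cd0q0) (C3 := pd1)
    rfl k0_pp_001_t

noncomputable def cut_pp_011_s : Cut := Cut.of [[⟨4, 0, 0, 1449551462⟩], [⟨0, 0, 0, 67108864⟩, ⟨1, 1, 0, 67108864⟩, ⟨2, 1, 0, 67108864⟩]]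

noncomputable def f_pp_011_s : ℕ → ℕ → ℕ → ℕ → Bool := onCell 0 536870912 536870912 536870912 923417968 42949674
    (rowNE 3 eng mog cd0q0 cd0q1 pd1 0 true true true .pnn 0 1 1 (qsf 0 536870912 536870912 536870912 1) ndB0q0 ndB0q1 pcB1 cut_pp_011_s Ext.none)

def k0_pp_011_s : ∃ t, chk3 f_pp_011_s t 1 1 1 = true :=
  ⟨(l 6), by decide +kernel⟩

theorem c_pp_011_s : CertNE 0 536870912 536870912 536870912 923417968 42949674 3 eng mog cd0q0 cd0q1 pd1 true true true .pnn 0 1 1
    ndB0q0 ndB0q1 pcB1 cut_pp_011_s Ext.none :=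
  certNE0 (fam := true) (s1 := true) (s2 := true) (a := 0) (b := 1) (c := 1) (cn := .pnn) (n1 := ndB0q0) (n2 := ndB0q1) (pc := pcB1) (cut := cut_pp_011_s) (xt := Ext.none) (P1 := 0) (W1 := 536870912) (P2 := 536870912) (W2 := 536870912) (P3 := 923417968) (W3 := 42949674) (N0 := 3) (En := eng) (mo := mog) (C1 := cd0q0) (C2 := cd0q1) (C3 := pd1)
    rfl k0_pp_011_s

noncomputable def cut_pp_011_t : Cut := Cut.of [[⟨3, 0, 0, 2845415833⟩], [⟨0, 0, 0, 67108864⟩, ⟨1, 1, 0, 67108864⟩, ⟨2, 1, 0, 67108864⟩]]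

noncomputable def f_pp_011_t : ℕ → ℕ → ℕ → ℕ → Bool := onCell 0 536870912 536870912 536870912 923417968 42949674
    (rowNE 3 eng mog cd0q0 cd0q1 pd1 0 true true true .pnn 0 1 1 (qsf 0 536870912 536870912 536870912 1) ndB0q0 ndB0q1 pcB1 cut_pp_011_t Ext.none)

def k0_pp_011_t : ∃ t, chk3 f_pp_011_t t 1 1 1 = true :=
  ⟨(b (l 4) (a (b (l 4) (a (b (l 4) (a (b (l 4) (a (l 14) (l 4))) (l 4))) (l 4))) (l 4))), by decide +kernel⟩

theorem c_pp_011_t : CertNE 0 536870912 536870912 536870912 923417968 42949674 3 eng mog cd0q0 cd0q1 pd1 true true true .pnn 0 1 1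
    ndB0q0 ndB0q1 pcB1 cut_pp_011_t Ext.none :=
  certNE0 (fam := true) (s1 := true) (s2 := true) (a := 0) (b := 1) (c := 1) (cn := .pnn) (n1 := ndB0q0) (n2 := ndB0q1) (pc := pcB1) (cut := cut_pp_011_t) (xt := Ext.none) (P1 := 0) (W1 := 536870912) (P2 := 536870912) (W2 := 536870912) (P3 := 923417968) (W3 := 42949674) (N0 := 3) (En := eng) (mo := mog) (C1 := cd0q0) (C2 := cd0q1) (C3 := pd1)
    rfl k0_pp_011_t

noncomputable def cut_pp_012_s : Cut := Cut.of [[⟨4, 0, 0, 1449551462⟩], [⟨0, 0, 0, 67108864⟩, ⟨1, 1, 0, 67108864⟩, ⟨2, 1, 0, 67108864⟩]]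

noncomputable def f_pp_012_s : ℕ → ℕ → ℕ → ℕ → Bool := onCell 0 536870912 536870912 536870912 923417968 42949674
    (rowNE 3 eng mog cd0q0 cd0q1 pd2 0 true true true .pnp 0 1 2 (qsf 0 536870912 536870912 536870912 2) ndB0q0 ndB0q1 pcB2 cut_pp_012_s Ext.none)

def k0_pp_012_s : ∃ t, chk3 f_pp_012_s t 1 1 1 = true :=
  ⟨(l 6), by decide +kernel⟩

theorem c_pp_012_s : CertNE 0 536870912 536870912 536870912 923417968 42949674 3 eng mog cd0q0 cd0q1 pd2 true true true .pnp 0 1 2
    ndB0q0 ndB0q1 pcB2 cut_pp_012_s Ext.none :=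
  certNE0 (fam := true) (s1 := true) (s2 := true) (a := 0) (b := 1) (c := 2) (cn := .pnp) (n1 := ndB0q0) (n2 := ndB0q1) (pc := pcB2) (cut := cut_pp_012_s) (xt := Ext.none) (P1 := 0) (W1 := 536870912) (P2 := 536870912) (W2 := 536870912) (P3 := 923417968) (W3 := 42949674) (N0 := 3) (En := eng) (mo := mog) (C1 := cd0q0) (C2 := cd0q1) (C3 := pd2)
    rfl k0_pp_012_s

noncomputable def cut_pp_012_t : Cut := Cut.of [[⟨3, 0, 0, 2845415833⟩], [⟨0, 0, 0, 67108864⟩, ⟨1, 1, 0, 67108864⟩, ⟨2, 1, 0, 67108864⟩]]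

noncomputable def f_pp_012_t : ℕ → ℕ → ℕ → ℕ → Bool := onCell 0 536870912 536870912 536870912 923417968 42949674
    (rowNE 3 eng mog cd0q0 cd0q1 pd2 0 true true true .pnp 0 1 2 (qsf 0 536870912 536870912 536870912 2) ndB0q0 ndB0q1 pcB2 cut_pp_012_t Ext.none)

def k0_pp_012_t : ∃ t, chk3 f_pp_012_t t 1 1 1 = true :=
  ⟨(b (l 4) (a (b (l 4) (a (b (l 4) (a (b (l 4) (a (l 14) (l 4))) (l 4))) (l 4))) (l 4))), by decide +kernel⟩

theorem c_pp_012_t : CertNE 0 536870912 536870912 536870912 923417968 42949674 3 eng mog cd0q0 cd0q1 pd2 true true true .pnp 0 1 2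
    ndB0q0 ndB0q1 pcB2 cut_pp_012_t Ext.none :=
  certNE0 (fam := true) (s1 := true) (s2 := true) (a := 0) (b := 1) (c := 2) (cn := .pnp) (n1 := ndB0q0) (n2 := ndB0q1) (pc := pcB2) (cut := cut_pp_012_t) (xt := Ext.none) (P1 := 0) (W1 := 536870912) (P2 := 536870912) (W2 := 536870912) (P3 := 923417968) (W3 := 42949674) (N0 := 3) (En := eng) (mo := mog) (C1 := cd0q0) (C2 := cd0q1) (C3 := pd2)
    rfl k0_pp_012_t

noncomputable def cut_pp_022_s : Cut := Cut.of [[⟨4, 0, 0, 1449551462⟩], [⟨0, 0, 0, 67108864⟩, ⟨1, 1, 0, 67108864⟩, ⟨2, 1, 0, 67108864⟩]]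

noncomputable def f_pp_022_s : ℕ → ℕ → ℕ → ℕ → Bool := onCell 0 536870912 0 536870912 923417968 42949674
    (rowNE 3 eng mog cd0q0 cd0q2 pd2 0 true true true .pp 0 2 2 (qsf 0 536870912 0 536870912 2) ndB0q0 ndB0q2 pcB2 cut_pp_022_s Ext.none)

def k0_pp_022_s : ∃ t, chk3 f_pp_022_s t 1 1 1 = true :=
  ⟨(l 6), by decide +kernel⟩

theorem c_pp_022_s : CertNE 0 536870912 0 536870912 923417968 42949674 3 eng mog cd0q0 cd0q2 pd2 true true true .pp 0 2 2
    ndB0q0 ndB0q2 pcB2 cut_pp_022_s Ext.none :=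
  certNE0 (fam := true) (s1 := true) (s2 := true) (a := 0) (b := 2) (c := 2) (cn := .pp) (n1 := ndB0q0) (n2 := ndB0q2) (pc := pcB2) (cut := cut_pp_022_s) (xt := Ext.none) (P1 := 0) (W1 := 536870912) (P2 := 0) (W2 := 536870912) (P3 := 923417968) (W3 := 42949674) (N0 := 3) (En := eng) (mo := mog) (C1 := cd0q0) (C2 := cd0q2) (C3 := pd2)
    rfl k0_pp_022_s

noncomputable def cut_pp_022_t : Cut := Cut.of [[⟨3, 0, 0, 2845415833⟩], [⟨0, 0, 0, 67108864⟩, ⟨1, 1, 0, 67108864⟩, ⟨2, 1, 0, 67108864⟩]]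

noncomputable def f_pp_022_t : ℕ → ℕ → ℕ → ℕ → Bool := onCell 0 536870912 0 536870912 923417968 42949674
    (rowNE 3 eng mog cd0q0 cd0q2 pd2 0 true true true .pp 0 2 2 (qsf 0 536870912 0 536870912 2) ndB0q0 ndB0q2 pcB2 cut_pp_022_t Ext.none)

def k0_pp_022_t : ∃ t, chk3 f_pp_022_t t 2 2 1 = true :=
  ⟨(a (a (l 6) (b (l 6) (b (l 6) (b (l 6) (a (a (l 6) (l 16572720)) (a (l 16583432) (b (l 16567384) (l 16586824)))))))) (b (a (l 6) (a (l 6) (b (l 6) (b (l 6) (a (l 6) (l 16413032)))))) (a (b (a (l 6) (b (l 6) (a (l 16465064) (l 16469464)))) (a (b (a (l 16532688) (l 16532776)) (a (b (l 16564880) (l 16585592)) (c (l 16583112) (l 16572480)))) (b (a (l 16544368) (c (l 16550832) (l 16535200))) (a (c (l 16589440) (l 16578280)) (c (l 16598392) (l 16587024)))))) (b (b (a (a (l 16441304) (l 16449272)) (a (l 16438888) (l 16452080))) (a (a (l 16487240) (c (l 16517808) (l 16497264))) (a (c (l 16530024) (l 16509824)) (c (l 16544472) (l 16524928))))) (a (b (a (c (l 16560264) (l 16544552))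 (c (l 16572064) (l 16556576))) (a (c (l 16609784) (l 16598520)) (b (l 16604912) (l 16631064)))) (b (a (c (l 16586024) (l 16571040)) (c (l 16601912) (l 16587728))) (a (b (l 16620440) (l 16647472)) (b (l 16637896) (a (l 16661056) (l 16670640)))))))))), by decide +kernel⟩

def k1_pp_022_t : ∃ t, chk3 f_pp_022_t t 8 12 1 = true :=
  ⟨(b (a (l 6) (a (l 6) (b (l 6) (a (l 16519312) (l 16539856))))) (b (a (l 6) (a (a (l 16469736) (l 16490304)) (a (l 16531448) (l 16551152)))) (a (a (a (l 6) (c (l 16430096) (l 16418280))) (a (c (l 16470912) (l 16460528)) (c (l 16490496) (l 16481656)))) (a (a (c (l 16509768) (l 16502552)) (l 16504952)) (c (l 16535440) (l 16532200)))))), by decide +kernel⟩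

def k2_pp_022_t : ∃ t, chk3 f_pp_022_t t 8 13 1 = true :=
  ⟨(a (b (a (b (a (c (a (l 16445992) (l 16455744)) (l 16422640)) (c (l 16449288) (l 16437848))) (a (c (b (l 16466672) (l 16477664)) (b (l 16454664) (l 16466056))) (c (b (l 16485552) (l 16496240)) (l 16469520)))) (b (a (c (l 16468408) (l 16458280)) (b (l 16478312) (l 16487608))) (a (c (l 16498856) (l 16489136)) (c (l 16506512) (l 16498136))))) (a (c (b (a (b (l 16489016) (l 16479768)) (c (l 16499752) (l 16489544))) (a (b (l 16493168) (a (l 16520888) (l 16529688))) (b (l 16509576) (l 16521792)))) (b (a (c (l 16476248) (l 16460192)) (c (l 16484464) (l 16479280))) (a (a (l 16494168) (l 16492792)) (a (l 16501896) (l 16510992))))) (b (a (c (c (l 16512088) (l 16507624)) (c (l 16503056) (l 16498392))) (c (b (l 16542920) (l 16553752)) (c (l 16542416) (l 16538376)))) (a (c (a (l 16539144) (l 16537208)) (a (l 16520056) (l 16529088))) (c (a (l 16545664) (l 16554016)) (a (l 16538064) (l 16546984))))))) (a (a (b (b (a (l 16497424)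 (l 16506984)) (c (l 16545288) (l 16538328))) (b (c (l 16544488) (l 16558848)) (c (a (l 16562272) (l 16570424)) (a (l 16576808) (l 16585560))))) (b (b (c (l 16544928) (l 16539296)) (c (l 16562736) (l 16557200))) (b (c (l 16582208) (l 16576920)) (c (c (l 16604632) (l 16602224)) (a (l 16594224) (l 16602768)))))) (b (b (c (a (l 16562712) (l 16580088)) (a (l 16558568) (l 16577320))) (c (a (l 16579784) (l 16596400)) (a (l 16575632) (l 16593528)))) (b (c (a (l 16598544) (l 16614440)) (a (l 16594536) (l 16611608))) (a (c (a (l 16615208) (l 16622920)) (b (l 16609920) (l 16620824))) (c (b (l 16629096) (l 16639488)) (l 16610664))))))), by decide +kernel⟩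

def k3_pp_022_t : ∃ t, chk3 f_pp_022_t t 9 6 1 = true :=
  ⟨(b (a (b (a (a (l 16513560) (l 16533408)) (b (l 16600800) (l 16607288))) (b (a (a (l 16570344) (l 16588952)) (l 16573760)) (a (c (l 16570840) (l 16570224)) (a (l 16617424) (l 16633904))))) (b (a (b (l 16610024) (l 16626984)) (b (l 16584720) (l 16624016))) (a (b (l 16622504) (c (l 16655960) (l 16658872))) (b (l 16641872) (a (l 16659432) (l 16639280)))))) (a (b (a (a (b (l 16575256) (c (l 16612568) (l 16610824))) (b (l 16592208) (c (l 16628248) (l 16627424)))) (a (b (l 16608536) (l 16622360)) (b (l 16624200) (l 16637192)))) (a (b (a (c (l 16629864) (l 16628048)) (c (l 16644792) (l 16643800))) (a (c (b (l 16643984) (l 16654024)) (l 16647256)) (c (b (l 16658360) (l 16668048)) (l 16641200)))) (b (a (c (l 16659144) (l 16658840)) (a (l 16648568) (l 16655392))) (a (c (l 16655832) (l 16655392)) (c (l 16668784) (l 16668840)))))) (b (a (b (a (l 16660112) (l 16674312)) (a (l 16672280) (l 16685640))) (b (a (l 16676952)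 (l 16678544)) (a (l 16694432) (l 16696776)))) (a (b (a (l 16660064) (l 16698808)) (a (c (l 16681040) (l 16681512)) (c (l 16713552) (l 16714336)))) (b (a (l 16710552) (l 16714936)) (a (c (l 16724344) (l 16725344)) (c (l 16733232) (l 16732568)))))))), by decide +kernel⟩

def k4_pp_022_t : ∃ t, chk3 f_pp_022_t t 16 14 1 = true :=
  ⟨(b (a (b (a (c (b (a (l 16533792) (l 16542480)) (a (l 16547096) (l 16555664))) (b (l 16518736) (l 16535256))) (c (b (l 16539648) (l 16557904)) (b (l 16525992) (l 16550088)))) (a (c (b (a (l 16560608) (l 16569080)) (a (l 16574112) (l 16582504))) (b (a (l 16552928) (l 16561552)) (c (l 16552176) (l 16548648)))) (c (b (a (l 16577472) (l 16585784)) (a (l 16590808) (l 16599024))) (b (l 16569208) (a (l 16584120) (l 16592568)))))) (b (c (a (b (l 16551288) (l 16574560)) (b (l 16567800) (l 16590816))) (a (b (l 16543624) (l 16567416)) (b (l 16561056) (l 16595008)))) (c (a (b (l 16592840) (a (l 16607144) (l 16615168))) (b (l 16608872) (a (l 16623080) (l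 16630880)))) (a (b (l 16586256) (a (l 16600968) (l 16609312))) (b (l 16608304) (l 16624312)))))) (a (b (b (a (a (l 14) (c (l 16596000) (l 16589792))) (c (c (l 16599288) (l 16596368)) (c (l 16593400) (l 16579888)))) (a (l 14) (c (b (l 16607968) (l 16618744)) (c (l 16612680) (l 16615232))))) (a (l 14) (a (l 14) (b (c (l 16629224) (l 16624648)) (l 14))))) (b (a (b (c (c (l 16615240) (l 16612568)) (b (l 16594504) (l 16601448))) (c (c (l 16633760) (l 16636624)) (c (l 16634200) (l 16631736)))) (c (b (c (l 16630728) (l 16638864)) (c (l 16654352) (l 16652264))) (b (c (l 16636464) (l 16634016)) (a (l 16645056) (l 16653000))))) (a (a (b (c (l 16637136) (l 16632776)) (l 14)) (b (c (l 16650176) (l 16651296)) (c (b (l 16665928) (l 16673096)) (l 16665992)))) (b (c (a (l 16657856) (l 16665416)) (a (l 16659248) (l 16667096))) (c (a (c (l 16677944) (l 16676328)) (c (l 16685376) (l 16683896))) (a (l 16673864) (l 16681624)))))))), by decide +kernel⟩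

def k5_pp_022_t : ∃ t, chk3 f_pp_022_t t 17 28 1 = true :=
  ⟨(a (b (a (c (b (l 16583880) (l 16606648)) (b (l 16599184) (l 16611808))) (c (b (l 16599520) (l 16632480)) (b (l 16615944) (l 16628224)))) (a (c (b (l 16629704) (c (l 16643472) (l 16641272))) (b (l 16624776) (l 16637872))) (c (b (l 16644800) (c (l 16658136) (l 16656360))) (b (l 16640856) (l 16653632))))) (b (a (c (b (l 16635664) (l 16647352)) (b (l 16632224) (l 16644152))) (c (b (l 16650360) (l 16661736)) (b (l 16647920) (l 16659472)))) (a (c (b (c (l 16660128) (l 16658664)) (a (l 16668040) (l 16675072))) (b (l 16656424) (l 16670192))) (c (b (l 16673464) (l 16685384)) (b (l 16671408) (l 16683520)))))), by decide +kernel⟩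

def k6_pp_022_t : ∃ t, chk3 f_pp_022_t t 17 29 1 = true :=
  ⟨(a (c (b (a (b (c (l 16656208) (l 16654224)) (a (l 16664608) (l 16671976))) (b (a (l 16666264) (l 16673456)) (a (l 16679224) (l 16686320)))) (a (b (a (l 16678088) (l 16685384)) (a (c (l 16692672) (l 16691328)) (c (l 16699832) (l 16698624)))) (a (b (l 16692544) (l 16711400)) (b (l 16699560) (a (l 16711536) (l 16714968)))))) (b (a (b (a (l 16647208) (l 16655064)) (a (l 16660840) (l 16668568))) (b (a (l 16662792) (l 16670400)) (a (l 16676168) (l 16683632)))) (a (b (a (l 16674832) (l 16682440)) (a (l 16689272) (l 16696784))) (b (a (l 16689920) (l 16697264)) (a (l 16709408) (b (l 16707792) (l 16714992))))))) (b (a (c (b (a (l 16680520) (l 16687432)) (a (l 16693280) (l 16700096))) (b (a (l 16677872) (l 16685200)) (a (l 16690960) (l 16698136)))) (a (b (c (l 16694200) (l 16692360)) (c (l 16706752) (l 16705152))) (b (c (l 16700832) (l 16699360)) (c (l 16713264) (l 16711992))))) (c (a (a (b (l 16706432) (b (l 16716576)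 (l 16723520))) (b (l 16718392) (b (l 16723232) (l 16730136)))) (b (a (b (l 16716408) (l 16723000)) (b (l 16722840) (l 16729384))) (a (a (l 16721064) (l 16724256)) (b (l 16736056) (l 16742880))))) (a (a (b (l 16704456) (b (l 16714888) (l 16722040))) (b (l 16711496) (b (l 16721832) (l 16728912)))) (b (a (l 16707880) (l 16714576)) (a (b (l 16728600) (l 16735616)) (c (l 16728376) (l 16717488)))))))), by decide +kernel⟩

def k7_pp_022_t : ∃ t, chk3 f_pp_022_t t 16 15 1 = true :=
  ⟨(b (a (l 14) (b (a (l 14) (a (b (c (b (l 16687984) (l 16684920)) (b (l 16685152) (l 16692872))) (l 14)) (b (c (b (l 16695440) (l 16692360)) (b (l 16692856) (l 16700552))) (c (b (l 16710408) (l 16718168)) (b (l 16708408) (l 16716432)))))) (l 14))) (l 14)), by decide +kernel⟩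

def k8_pp_022_t : ∃ t, chk3 f_pp_022_t t 34 60 1 = true :=
  ⟨(c (a (b (c (a (l 16706984) (l 16716712)) (a (l 16705912) (l 16718392))) (b (a (l 16717688) (l 16724816)) (a (l 16728048) (a (l 16730768) (l 16734280))))) (b (a (b (l 16716992) (l 16724312)) (b (l 16723880) (l 16731168))) (b (a (l 16731800) (a (l 16736936) (l 16740312))) (a (a (l 16737760) (l 16741200)) (a (l 16744600) (l 16747960)))))) (a (b (a (b (l 16700440) (l 16708104)) (b (l 16707896) (l 16715512))) (a (b (l 16715928) (l 16723928)) (b (l 16723296) (l 16733888)))) (b (a (b (l 16715200) (l 16722776)) (b (l 16722352) (l 16729880))) (b (a (l 16730520) (l 16727096)) (a (a (l 16736664) (l 16740216)) (a (l 16743728) (l 16747200))))))), by decide +kernel⟩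

def k9_pp_022_t : ∃ t, chk3 f_pp_022_t t 68 61 1 = true :=
  ⟨(a (b (b (c (a (l 16731568) (l 16735152)) (a (l 16730256) (l 16733952))) (l 14)) (l 14)) (a (b (b (c (l 16738696) (l 16737608)) (c (l 16749456) (l 16745984))) (l 14)) (b (b (c (l 16742200) (l 16741224)) (c (b (l 16748272) (l 16752392)) (b (l 16747472) (l 16751712)))) (b (b (a (l 16755408) (l 16757168)) (c (l 16760816) (l 16760360))) (l 14))))), by decide +kernel⟩

def k10_pp_022_t : ∃ t, chk3 f_pp_022_t t 69 61 1 = true :=
  ⟨(b (a (a (b (c (l 16745664) (l 16744800)) (c (b (l 16751728) (l 16755848)) (b (l 16751040) (l 16755264)))) (b (c (l 16749096) (l 16748336)) (c (b (l 16755152) (l 16759264)) (b (l 16754560) (l 16758784))))) (a (b (c (b (l 16750488) (l 16754480)) (l 16751824)) (a (b (l 16757432) (l 16761592)) (b (l 16759136) (l 16758048)))) (b (c (b (l 16753832) (l 16757824)) (l 16744792)) (a (b (l 16760824) (l 16759736)) (b (l 16762504) (l 16761416)))))) (b (b (a (a (a (l 16758920) (l 16758040)) (c (l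 16763432) (l 16763064))) (a (c (l 16761560) (l 16756040)) (c (l 16764880) (l 16764696)))) (c (a (a (l 16759016) (c (l 16767728) (l 16767600))) (a (c (l 16765824) (l 16765744)) (b (l 16768040) (a (l 16769336) (l 16776168))))) (a (a (l 16763904) (l 16762168)) (a (l 16765616) (b (l 16762696) (l 16775312)))))) (a (a (b (c (c (l 16763376) (l 16763256)) (l 16763080)) (l 14)) (b (c (c (l 16766752) (l 16766680)) (l 16766576)) (b (a (l 16771712) (c (l 16776008) (l 16775976))) (b (a (l 16776000) (a (l 16777080) (l 177939154823))) (a (l 14) (l 4)))))) (b (b (a (c (l 16774232) (l 16774152)) (a (c (c (l 16777880) (l 16776560)) (l 16777848)) (a (a (l 83986746055) (l 134452611607)) (l 4)))) (a (a (l 16772912) (b (l 16777576) (a (l 16777128) (l 4)))) (c (l 230552502679) (l 236994954887)))) (b (a (b (a (a (l 16776720) (l 16777936)) (l 4)) (c (l 212298892567) (l 217667601639))) (l 4)) (l 4)))))), by decide +kernel⟩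

def k11_pp_022_t : ∃ t, chk3 f_pp_022_t t 35 60 1 = true :=
  ⟨(c (a (b (b (a (l 16730616) (l 16737192)) (a (l 16740488) (a (l 16742784) (l 16746016)))) (a (a (b (l 16743640) (l 16751280)) (b (l 16746936) (l 16749320))) (a (b (l 16750192) (l 16752552)) (b (l 16753400) (a (l 16760200) (l 16761784)))))) (a (b (b (l 16733120) (b (l 16748968) (l 16752600))) (b (c (l 16750384) (l 16747552)) (c (a (l 16753728) (l 16756824)) (b (l 16753232) (l 16757088))))) (b (b (l 16739368) (c (l 16746608) (l 16746400))) (a (b (l 16757544) (c (l 16765112) (l 16759800))) (b (l 16760584) (b (l 16760952) (b (l 16774288) (l 16776088)))))))) (b (b (a (a (l 16729344) (l 16736160)) (a (l 16742800) (l 16738776))) (a (a (l 16736816) (l 16733096)) (a (l 16739680) (c (l 16746184) (l 16756448))))) (b (a (a (a (l 16742760) (l 16746168)) (b (l 16749264) (l 16753112))) (a (c (l 16747336) (l 16747120)) (c (l 16753624) (l 16753496)))) (a (a (c (l 16741984) (l 16741680)) (c (l 16748600) (l 16748392))) (b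 (a (l 16753008) (l 16764544)) (a (l 16759552) (a (l 16761648) (l 16776424)))))))), by decide +kernel⟩

def k12_pp_022_t : ∃ t, chk3 f_pp_022_t t 35 61 1 = true :=
  ⟨(b (a (a (a (b (c (b (l 16757144) (l 16761120)) (l 16753432)) (b (a (l 16758936) (l 16760592)) (c (l 16764008) (l 16758568)))) (b (c (c (l 16757240) (l 16751816)) (l 16754168)) (c (b (l 16763168) (l 16767256)) (b (l 16757712) (l 16772384))))) (a (b (c (c (l 16760440) (l 16755064)) (c (l 16754928) (l 16754792))) (b (c (l 16766384) (l 16761008)) (a (c (l 16774888) (l 16774832)) (b (l 16775448) (a (l 16778240) (l 95797906583)))))) (a (b (c (l 16762760) (l 16757304)) (b (l 16770032) (b (a (l 16776568) (l 50700749991)) (l 4)))) (b (b (l 16762256) (l 16766256)) (b (c (l 16776816) (l 16775464)) (c (l 223573182135) (l 230015633015))))))) (b (a (b (c (a (l 16759472) (l 16773056)) (a (l 16759312) (l 16772968))) (a (c (l 16773904) (l 16773832)) (b (c (l 16777216) (l 16775872)) (a (a (l 16776720) (l 16778856)) (l 165591125959)))))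 (a (b (a (c (l 16775312) (l 16775272)) (b (l 16775864) (c (l 80228650551) (l 16777296)))) (c (b (l 194582152439) (l 4)) (l 221962566983))) (b (a (b (a (l 16776872) (l 16778640)) (l 4)) (l 238068695623)) (l 4)))) (a (b (a (a (b (l 16776072) (c (l 102240357943) (l 102777228823))) (b (a (l 16778328) (l 111904033943)) (l 4))) (l 4)) (l 4)) (l 4)))) (a (b (a (b (a (c (b (l 16767120) (l 16774456)) (l 16768072)) (a (b (l 16774768) (c (l 16778336) (l 16776672))) (c (b (l 16776320) (l 128010161623)) (b (l 16776296) (l 130157645239))))) (b (a (a (l 16775712) (a (l 16778360) (a (l 66806876823) (l 110830291655)))) (c (l 236994955031) (l 244511147735))) (a (a (b (a (l 16776848) (l 16777360)) (l 153779964791)) (l 4)) (l 4)))) (b (b (a (a (b (l 54995715975) (l 181697252151)) (l 4)) (l 4)) (l 4)) (l 4))) (l 4)) (l 4))), by decide +kernel⟩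

def k13_pp_022_t : ∃ t, chk3 f_pp_022_t t 17 31 1 = true :=
  ⟨(b (a (b (a (l 14) (a (a (l 14) (a (l 14) (l 4))) (l 4))) (l 4)) (l 4)) (l 4)), by decide +kernel⟩

def k14_pp_022_t : ∃ t, chk3 f_pp_022_t t 18 28 1 = true :=
  ⟨(a (c (b (a (b (l 16664560) (l 16675600)) (b (l 16678224) (l 16688920))) (a (b (l 16687016) (l 16677664)) (b (l 16700008) (l 16690344)))) (b (a (b (l 16662952) (l 16674120)) (b (l 16677256) (l 16688032))) (a (b (l 16685688) (l 16676488)) (b (l 16699216) (l 16689656))))) (a (b (b (l 16670072) (c (l 16701632) (l 16701192))) (b (c (l 16691400) (l 16711976)) (c (l 16702384) (l 16702040)))) (b (b (l 16682672) (b (l 16690072) (l 16695184))) (b (c (l 16703064) (l 16702992)) (c (l 16713712) (l 16713632)))))), by decide +kernel⟩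

def k15_pp_022_t : ∃ t, chk3 f_pp_022_t t 18 29 1 = true :=
  ⟨(a (b (c (a (a (b (l 16707320) (l 16719624)) (b (l 16713664) (l 16725832))) (b (c (l 16702088) (l 16701792)) (a (l 16710928) (l 16716824)))) (a (b (a (l 16706168) (l 16712776)) (c (l 16701152) (l 16700736))) (b (a (l 16719184) (l 16725400)) (b (l 16710360) (l 16716512))))) (a (a (b (c (b (l 16729112) (l 16735600)) (l 16721080)) (c (b (l 16742224) (l 16738512)) (c (l 16734688) (l 16734400)))) (b (c (b (l 16735224) (l 16741656)) (l 16727392)) (c (b (l 16748224) (l 16744464)) (b (l 16747792) (l 16744120))))) (b (a (c (c (l 16733992) (l 16723304)) (l 16733488)) (c (c (l 16739728) (l 16729096)) (l 16739376))) (c (a (b (l 16743584) (l 16750248)) (b (l 16749256) (l 16755856))) (b (a (l 16753776) (l 16738584)) (a (l 16750032) (l 16755736))))))) (b (a (b (c (c (l 16713752) (l 16713600)) (l 16718632)) (c (a (l 16722544) (l 16738568)) (a (l 16722272) (l 16727912)))) (b (c (a (l 16721984) (l 16727304)) (a (l 16721864)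 (l 16727272))) (c (b (l 16743624) (l 16759912)) (a (l 16733344) (l 16738560))))) (b (a (a (c (c (l 16745288) (l 16745192)) (l 16745056)) (b (l 16748800) (c (l 16753720) (l 16743144)))) (a (c (b (l 16742304) (l 16769376)) (l 16764968)) (a (b (l 16756576) (l 16773112)) (b (l 16769544) (b (l 16774032) (c (l 16776776) (l 16776768))))))) (a (b (c (a (l 16754736) (l 16770520)) (a (l 16744144) (l 16770472))) (a (c (l 16771760) (l 16771704)) (a (b (l 16774048) (a (l 16776512) (l 84523618455))) (b (c (l 16776400) (l 16776384)) (l 237531825415))))) (b (a (a (b (l 16772760) (l 16777792)) (b (l 16775248) (a (l 79154910407) (l 165591127367)))) (b (a (c (l 72712460023) (l 16779024)) (l 4)) (l 4))) (a (a (c (l 213909501543) (l 272965297783)) (l 4)) (l 4))))))), by decide +kernel⟩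

def k16_pp_022_t : ∃ t, chk3 f_pp_022_t t 19 14 1 = true :=
  ⟨(b (a (b (a (b (l 16694528) (c (l 16703992) (l 16704200))) (b (l 16726568) (c (l 16735520) (l 16735928)))) (a (b (c (l 16714008) (l 16714168)) (a (l 16732224) (l 16747848))) (b (c (l 16745160) (l 16745464)) (c (l 16755096) (l 16755288))))) (b (a (b (l 16736832) (c (l 16745320) (l 16745824))) (b (l 16735624) (c (l 16754312) (l 16754600)))) (a (b (c (l 16754568) (l 16754912)) (c (a (l 16761928) (l 16766240)) (l 16753824))) (b (c (l 16763168) (l 16763368)) (a (b (l 16768064) (l 16772736)) (b (l 16771928) (a (l 16775544) (a (l 16780736) (l 89355459879))))))))) (a (b (b (a (c (a (l 16732432) (l 16758336)) (l 16753336)) (c (b (l 16762744) (l 16757496)) (c (l 16760200) (l 16744528)))) (a (c (a (l 16764528) (l 16764048)) (b (l 16764152) (l 16764536))) (b (a (l 16765872) (a (l 16774400) (b (l 16775232) (l 85597362823)))) (b (a (c (l 16775144) (l 16775152)) (l 234847462327)) (a (a (l 16779304) (l 140895067095)) (l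 4)))))) (b (a (b (a (c (l 16773136) (l 16773136)) (b (a (l 16775200) (l 64659394391)) (c (l 198340245479) (l 231089364823)))) (a (a (b (l 16778888) (l 255785431399)) (a (l 240753044807) (l 4))) (l 4))) (a (c (l 277260260455) (l 274039032151)) (l 4))) (l 4))) (b (b (a (b (a (l 16769424) (l 60364401111)) (a (c (l 16774400) (l 16774432)) (a (b (l 16776216) (l 139284453735)) (l 228941878599)))) (b (a (b (c (l 16776152) (l 16776168)) (a (l 16779784) (l 4))) (l 254174811191)) (l 4))) (a (a (b (c (l 214983238823) (l 223573166807)) (l 4)) (l 4)) (l 4))) (l 4)))), by decide +kernel⟩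

def k17_pp_022_t : ∃ t, chk3 f_pp_022_t t 9 15 1 = true :=
  ⟨(a (b (b (a (b (b (a (a (c (b (l 16754176) (l 16757680)) (l 16745032)) (c (c (l 16751400) (l 16751280)) (l 16751096))) (b (a (c (l 16755344) (l 16744712)) (c (l 16771392) (l 16771328))) (a (c (l 16758800) (l 16758696)) (a (l 16773432) (c (l 16776000) (l 16775976)))))) (a (a (c (c (l 16752608) (l 16752472)) (c (l 16752336) (l 16752200))) (c (a (l 16756944) (l 16770312)) (a (l 16756776) (l 16770208)))) (a (b (c (l 16772784) (l 16772728)) (c (a (l 16774896) (a (l 16779360) (l 105998455623))) (a (l 16774864) (a (l 16776720) (l 106535326487))))) (b (a (a (l 16776120) (a (l 16779520) (l 86134231607))) (c (l 201561474839) (l 210688279879))) (l 4))))) (a (b (a (c (a (l 16762264) (l 16770464)) (c (l 16759728) (l 16759664))) (a (b (c (l 16772840) (l 16772768)) (a (c (l 16775728) (l 16775696)) (b (l 16776256) (l 110293422183)))) (b (c (b (l 16774800) (l 16776440)) (l 16775552)) (a (b (l 74859942167) (l 4)) (l 4)))))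 (a (b (a (c (l 16774408) (l 16774352)) (b (c (l 16776264) (l 16776240)) (a (l 62511909639) (l 4)))) (a (a (b (l 16776432) (l 129620774935)) (b (l 92039810647) (l 4))) (l 4))) (b (a (c (l 227331279063) (l 234310600823)) (l 4)) (l 4)))) (b (a (b (a (a (b (l 16776768) (l 174181060663)) (l 213909504151)) (l 4)) (l 4)) (l 4)) (l 4)))) (b (a (b (a (a (b (c (l 16775376) (l 16775352)) (c (b (l 90966069703) (l 4)) (l 112440908183))) (b (c (c (l 81839262839) (l 81839265447)) (l 82376131463)) (l 4))) (l 4)) (l 4)) (l 4)) (l 4))) (l 4)) (l 4)) (l 4)), by decide +kernel⟩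

def k18_pp_022_t : ∃ t, chk3 f_pp_022_t t 10 6 1 = true :=
  ⟨(b (a (b (a (c (l 16576896) (l 16570264)) (c (b (l 16614056) (l 16634128)) (l 16574912))) (a (c (b (l 16646736) (l 16644312)) (b (l 16641968) (l 16661568))) (b (a (l 16649232) (l 16653600)) (a (l 16669224) (l 16674208))))) (b (b (a (l 16617920) (l 16628408)) (a (l 16639880) (a (l 16648368) (l 16654784)))) (a (b (a (l 16658656) (l 16664376)) (c (l 16663952) (l 16680792))) (b (a (l 16670728) (l 16677688)) (c (l 16667168) (l 16673784)))))) (a (b (a (b (a (l 16660056) (l 16663680)) (a (l 16699984) (l 16683296))) (b (a (l 16668408) (l 16674016)) (a (a (l 16687248) (l 16690192)) (a (l 16693312) (l 16696600))))) (a (b (a (l 16719016) (l 16726576)) (a (c (l 16738264) (l 16737480)) (c (l 16744088) (l 16743280)))) (b (a (c (l 16709712) (l 16708312)) (c (l 16716576) (l 16715264))) (a (c (l 16750776) (l 16750032)) (b (l 16752728) (c (l 16763496) (l 16763072))))))) (b (a (b (a (l 16680280) (l 16687176)) (a (a (l 16700048)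 (l 16703648)) (c (l 16710232) (l 16708368)))) (b (a (b (l 16709992) (l 16721320)) (a (l 16700688) (l 16704864))) (a (c (l 16718216) (l 16716592)) (b (l 16720232) (l 16731944))))) (a (b (a (b (l 16718056) (l 16734152)) (b (l 16726032) (l 16758184))) (b (a (c (l 16761040) (l 16760488)) (a (l 16767200) (l 37278952263))) (a (a (l 16769528) (c (l 16779192) (l 16773824))) (a (b (l 16775568) (l 144116297591)) (a (l 201024580263) (l 4)))))) (b (b (a (l 16755568) (l 16764672)) (a (c (l 16767256) (l 16766856)) (b (a (l 16771152) (l 16775872)) (a (l 16755952) (l 107608991895))))) (b (a (a (b (l 16773384) (l 108682815799)) (b (l 110830238775) (l 4))) (l 4)) (l 4))))))), by decide +kernel⟩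

def k19_pp_022_t : ∃ t, chk3 f_pp_022_t t 11 6 1 = true :=
  ⟨(a (b (a (b (b (l 16641384) (a (l 16661792) (l 16669368))) (b (a (l 16685216) (l 16693296)) (a (l 16687688) (b (l 16711248) (l 16723296))))) (a (b (b (l 16652648) (l 16677472)) (b (l 16701896) (b (l 16720224) (l 16732528)))) (b (b (l 16660800) (l 16686088)) (b (l 16690024) (c (l 16716112) (l 16713792)))))) (b (a (b (a (c (l 16712432) (l 16710264)) (c (l 16721384) (l 16719592))) (a (b (l 16729272) (l 16762248)) (b (l 16759792) (a (l 16769584) (l 68417444679))))) (a (c (b (l 16751768) (b (l 16769936) (l 177402263975))) (b (l 16750408) (b (l 16769552) (l 180623486727)))) (b (b (l 16733880) (l 16767520)) (a (b (l 87207908279) (l 4)) (c (l 198340207031) (l 200487685031)))))) (a (b (a (a (b (l 16771824) (l 209614508695)) (b (b (l 16773736) (l 108682750167)) (l 4))) (a (b (l 185992198071) (l 4)) (l 4))) (l 4)) (l 4)))) (b (b (a (b (a (l 16669448) (l 16678568)) (a (l 16695192) (l 16704744))) (a (b (l 16688128) (l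 16714720)) (b (l 16698104) (l 16704120)))) (b (a (a (b (l 16714224) (l 16726872)) (b (l 16724104) (l 16736984))) (a (c (l 16721112) (l 16718800)) (a (l 16728040) (l 16754496)))) (a (a (c (l 16725888) (l 16724088)) (b (l 16728960) (l 16762952))) (b (a (l 16760664) (a (l 16768952) (l 16774184))) (a (a (l 16771056) (l 16755080)) (b (l 95797841991) (l 4))))))) (b (b (a (a (b (l 16765248) (c (l 101703434199) (l 105461509063))) (b (c (l 75933623991) (l 16747088)) (l 195655854087))) (a (b (l 187602819479) (l 4)) (l 4))) (l 4)) (l 4)))), by decide +kernel⟩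

def k20_pp_022_t : ∃ t, chk3 f_pp_022_t t 5 7 1 = true :=
  ⟨(a (b (b (a (a (a (c (b (b (l 16752136) (l 16761232)) (a (b (l 16768624) (b (l 16775536) (l 226794392263))) (b (l 16772248) (b (l 213372623223) (l 4))))) (b (b (l 16751680) (l 16760944)) (b (b (l 16767912) (l 16772680)) (b (a (l 16775576) (l 118346487431)) (l 226257522807))))) (b (b (c (l 16758624) (l 16758200)) (c (l 16763016) (l 16768056))) (b (a (b (l 16773552) (b (c (l 16777016) (l 16777024)) (l 141968812023))) (b (c (l 73786199927) (l 74323075831)) (l 4))) (l 4)))) (b (a (b (c (l 16765928) (l 16765624)) (b (a (l 16771432) (c (l 16775544) (l 16775488))) (a (c (l 16780464) (l 16776568)) (l 212835744103)))) (b (a (b (l 16769168) (l 16774432)) (b (l 16773336) (a (l 16780168) (l 136063230567)))) (a (c (l 210151384487) (l 209077635847)) (l 4)))) (b (a (b (a (l 239142413431) (l 4)) (l 4)) (l 4)) (l 4)))) (b (a (a (b (a (c (l 196192749799) (l 197803358919)) (l 230015624839)) (l 4)) (l 4)) (l 4)) (l 4))) (l 4))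 (l 4)) (l 4)), by decide +kernel⟩

def k21_pp_022_t : ∃ t, chk3 f_pp_022_t t 6 4 1 = true :=
  ⟨(a (b (a (l 6) (a (l 6) (b (l 6) (l 16359160)))) (a (b (a (l 6) (l 16383896)) (a (l 16427344) (l 16444312))) (b (a (l 16401784) (l 16421752)) (a (l 16463496) (l 16463632))))) (a (b (a (b (l 6) (l 16379880)) (b (l 16335976) (l 16402536))) (b (a (l 16443648) (l 16467344)) (a (l 16486520) (l 16521544)))) (a (b (b (l 16359344) (l 16427016)) (b (l 16492720) (l 16558096))) (l 2)))), by decide +kernel⟩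

def k22_pp_022_t : ∃ t, chk3 f_pp_022_t t 6 5 1 = true :=
  ⟨(a (b (a (b (a (l 16473040) (c (l 16518448) (l 16495304))) (a (c (l 16561096) (l 16542496)) (c (l 16579928) (l 16562560)))) (b (a (c (l 16538096) (l 16516328)) (c (l 16559384) (l 16539224))) (a (c (l 16600536) (l 16584648)) (b (l 16599336) (l 16632184))))) (a (b (a (c (l 16619752) (l 16606632)) (b (l 16618584) (l 16648912))) (b (a (l 16667768) (l 16720488)) (a (a (l 16680632) (l 16691064)) (a (l 16701992) (l 16713320))))) (b (a (b (l 16640624) (l 16671392)) (a (l 16715656) (a (l 16703784) (l 16709952)))) (a (b (a (l 16695632) (l 16707416)) (c (l 16690784) (l 16687080))) (b (c (l 16685856) (l 16702488)) (a (l 16749224) (l 16761576))))))) (b (a (b (a (c (l 16582200) (l 16563840)) (c (l 16606424) (l 16590048))) (a (b (l 16623568) (l 16656736)) (a (l 16680168) (l 16714312)))) (b (a (b (l 16608152) (l 16641944)) (b (l 2) (l 16669880))) (a (b (l 16676056) (a (l 16702752) (l 16716544))) (b (l 93515945623) (l 16727216)))))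 (b (a (b (a (l 16709936) (a (l 16708408) (l 16721720))) (a (c (l 16701840) (l 16696880)) (a (l 16718992) (l 16753352)))) (a (b (a (l 16735296) (l 16749128)) (a (l 16766080) (l 90965999255))) (b (a (l 16762688) (l 75396751271)) (a (l 96871555063) (l 4))))) (a (a (b (a (l 16744608) (l 16757536)) (a (b (l 16767024) (l 16751360)) (b (l 16753080) (l 4)))) (b (a (b (l 16763152) (l 16775280)) (b (l 16774776) (l 4))) (l 4))) (a (b (a (l 96871544759) (l 4)) (l 4)) (l 4)))))), by decide +kernel⟩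

def k23_pp_022_t : ∃ t, chk3 f_pp_022_t t 7 2 1 = true :=
  ⟨(b (l 2) (b (l 2) (b (l 2) (l 4)))), by decide +kernel⟩

def k24_pp_022_t : ∃ t, chk3 f_pp_022_t t 3 3 1 = true :=
  ⟨(a (b (b (a (a (b (a (b (c (l 16674080) (l 16690440)) (a (l 16704384) (l 16746928))) (b (a (l 16709416) (l 16720976)) (a (l 16757072) (b (l 16763152) (l 81302340535))))) (a (b (a (b (l 16756128) (l 16769448)) (b (l 16767432) (c (l 92576612071) (l 95260966119)))) (a (c (l 177402253159) (l 180086598679)) (l 4))) (b (a (b (c (l 16748440) (l 16753360)) (l 4)) (l 4)) (l 4)))) (b (a (b (a (l 16753816) (b (l 16758776) (l 16772456))) (a (b (l 16753200) (l 100629659751)) (l 165054232951))) (b (a (b (l 16770696) (l 87744773159)) (b (l 87744779463) (l 4))) (l 4))) (l 4))) (l 4)) (l 4)) (l 4)) (l 4)), by decide +kernel⟩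

theorem s25_pp_022_t : ∃ t, chk3 f_pp_022_t t 6 2 1 = true := ex3_b k21_pp_022_t k22_pp_022_t

theorem s26_pp_022_t : ∃ t, chk3 f_pp_022_t t 3 2 1 = true := ex3_a s25_pp_022_t k23_pp_022_t

theorem s27_pp_022_t : ∃ t, chk3 f_pp_022_t t 3 1 1 = true := ex3_b s26_pp_022_t k24_pp_022_t

theorem s28_pp_022_t : ∃ t, chk3 f_pp_022_t t 5 6 1 = true := ex3_a k18_pp_022_t k19_pp_022_t

theorem s29_pp_022_t : ∃ t, chk3 f_pp_022_t t 5 3 1 = true := ex3_b s28_pp_022_t k20_pp_022_t

theorem s30_pp_022_t : ∃ t, chk3 f_pp_022_t t 18 14 1 = true := ex3_b k14_pp_022_t k15_pp_022_t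

theorem s31_pp_022_t : ∃ t, chk3 f_pp_022_t t 9 14 1 = true := ex3_a s30_pp_022_t k16_pp_022_t

theorem s32_pp_022_t : ∃ t, chk3 f_pp_022_t t 9 7 1 = true := ex3_b s31_pp_022_t k17_pp_022_t

theorem s33_pp_022_t : ∃ t, chk3 f_pp_022_t t 35 30 1 = true := ex3_b k11_pp_022_t k12_pp_022_t

theorem s34_pp_022_t : ∃ t, chk3 f_pp_022_t t 34 61 1 = true := ex3_a k9_pp_022_t k10_pp_022_t

theorem s35_pp_022_t : ∃ t, chk3 f_pp_022_t t 34 30 1 = true := ex3_b k8_pp_022_t s34_pp_022_t

theorem s36_pp_022_t : ∃ t, chk3 f_pp_022_t t 17 30 1 = true := ex3_a s35_pp_022_t s33_pp_022_t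

theorem s37_pp_022_t : ∃ t, chk3 f_pp_022_t t 17 15 1 = true := ex3_b s36_pp_022_t k13_pp_022_t

theorem s38_pp_022_t : ∃ t, chk3 f_pp_022_t t 8 15 1 = true := ex3_a k7_pp_022_t s37_pp_022_t

theorem s39_pp_022_t : ∃ t, chk3 f_pp_022_t t 17 14 1 = true := ex3_b k5_pp_022_t k6_pp_022_t

theorem s40_pp_022_t : ∃ t, chk3 f_pp_022_t t 8 14 1 = true := ex3_a k4_pp_022_t s39_pp_022_t

theorem s41_pp_022_t : ∃ t, chk3 f_pp_022_t t 8 7 1 = true := ex3_b s40_pp_022_t s38_pp_022_t

theorem s42_pp_022_t : ∃ t, chk3 f_pp_022_t t 4 7 1 = true := ex3_a s41_pp_022_t s32_pp_022_t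

theorem s43_pp_022_t : ∃ t, chk3 f_pp_022_t t 8 6 1 = true := ex3_b k1_pp_022_t k2_pp_022_t

theorem s44_pp_022_t : ∃ t, chk3 f_pp_022_t t 4 6 1 = true := ex3_a s43_pp_022_t k3_pp_022_t

theorem s45_pp_022_t : ∃ t, chk3 f_pp_022_t t 4 3 1 = true := ex3_b s44_pp_022_t s42_pp_022_t

theorem s46_pp_022_t : ∃ t, chk3 f_pp_022_t t 2 3 1 = true := ex3_a s45_pp_022_t s29_pp_022_t

theorem s47_pp_022_t : ∃ t, chk3 f_pp_022_t t 2 1 1 = true := ex3_b k0_pp_022_t s46_pp_022_t

theorem s48_pp_022_t : ∃ t, chk3 f_pp_022_t t 1 1 1 = true := ex3_a s47_pp_022_t s27_pp_022_t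

theorem c_pp_022_t : CertNE 0 536870912 0 536870912 923417968 42949674 3 eng mog cd0q0 cd0q2 pd2 true true true .pp 0 2 2
    ndB0q0 ndB0q2 pcB2 cut_pp_022_t Ext.none :=
  certNE0 (fam := true) (s1 := true) (s2 := true) (a := 0) (b := 2) (c := 2) (cn := .pp) (n1 := ndB0q0) (n2 := ndB0q2) (pc := pcB2) (cut := cut_pp_022_t) (xt := Ext.none) (P1 := 0) (W1 := 536870912) (P2 := 0) (W2 := 536870912) (P3 := 923417968) (W3 := 42949674) (N0 := 3) (En := eng) (mo := mog) (C1 := cd0q0) (C2 := cd0q2) (C3 := pd2)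
    rfl s48_pp_022_t

noncomputable def cut_pp_023_s : Cut := Cut.of [[⟨4, 0, 0, 1449551462⟩]]

noncomputable def f_pp_023_s : ℕ → ℕ → ℕ → ℕ → Bool := onCell 0 536870912 0 536870912 923417968 42949674
    (rowNE 3 eng mog cd0q0 cd0q2 pd3 0 true true true .up 0 2 3 (qsf 0 536870912 0 536870912 3) ndB0q0 ndB0q2 pcB3 cut_pp_023_s Ext.none)

def k0_pp_023_s : ∃ t, chk3 f_pp_023_s t 1 1 1 = true :=
  ⟨(l 6), by decide +kernel⟩

theorem c_pp_023_s : CertNE 0 536870912 0 536870912 923417968 42949674 3 eng mog cd0q0 cd0q2 pd3 true true true .up 0 2 3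
    ndB0q0 ndB0q2 pcB3 cut_pp_023_s Ext.none :=
  certNE0 (fam := true) (s1 := true) (s2 := true) (a := 0) (b := 2) (c := 3) (cn := .up) (n1 := ndB0q0) (n2 := ndB0q2) (pc := pcB3) (cut := cut_pp_023_s) (xt := Ext.none) (P1 := 0) (W1 := 536870912) (P2 := 0) (W2 := 536870912) (P3 := 923417968) (W3 := 42949674) (N0 := 3) (En := eng) (mo := mog) (C1 := cd0q0) (C2 := cd0q2) (C3 := pd3)
    rfl k0_pp_023_s

noncomputable def cut_pp_023_t : Cut := Cut.of [[⟨3, 0, 0, 2845415833⟩]]

noncomputable def f_pp_023_t : ℕ → ℕ → ℕ → ℕ → Bool := onCell 1610612736 536870912 0 536870912 923417968 42949674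
    (rowNE 3 eng mog cd0q0 cd0q2 pd3 2 true true true .up 0 2 3 (qsf 0 536870912 0 536870912 3) ndB0q0 ndB0q2 pcB3 cut_pp_023_t Ext.none)

def k0_pp_023_t : ∃ t, chk3 f_pp_023_t t 4 4 1 = true :=
  ⟨(c (a (a (b (c (l 16634928) (c (l 16540624) (l 16496544))) (a (b (l 16646776) (l 16678440)) (b (l 16664536) (l 16695304)))) (a (b (c (l 16659216) (l 16623640)) (b (l 16681480) (l 16690440))) (b (b (l 16648176) (l 16671864)) (b (l 16697912) (c (l 16732192) (l 16721152)))))) (b (a (a (b (l 16666040) (l 16688672)) (b (l 16682728) (l 16704608))) (a (b (l 16697704) (l 16718968)) (c (l 16726944) (l 16714296)))) (b (a (a (l 16713792) (l 16707936)) (a (l 16742536) (l 16755016))) (a (a (c (l 16745672) (l 16738104)) (a (l 16752808) (l 16759520))) (b (a (l 16762000) (a (l 16771016) (l 16775936))) (a (a (l 16772744) (l 93650351863)) (a (l 100629661927) (l 4)))))))) (a (a (b (a (a (l 16390184) (l 16404952)) (b (l 16508528) (l 16512344))) (a (b (l 16491736) (b (l 16614232) (l 16619784)))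 (b (l 16518440) (c (l 16664264) (l 16640784))))) (b (a (a (l 16468872) (l 16461792)) (a (l 16475480) (l 16489216))) (a (b (l 16544224) (c (l 16665440) (l 16646376))) (b (c (l 16665440) (l 16640568)) (a (l 16694744) (l 16706472)))))) (b (a (a (c (l 16589728) (l 16533464)) (c (l 16655096) (l 16561968))) (a (c (l 16676544) (l 16567336)) (b (l 16667992) (l 16683184)))) (b (a (a (c (l 16666632) (l 16667336)) (c (l 16708824) (l 16672080))) (a (l 16722536) (l 16742280))) (b (a (a (l 16711840) (l 16712696)) (a (l 16753808) (a (l 16767504) (l 16753312)))) (a (a (l 16735424) (l 16756336)) (a (a (l 16769952) (l 94187219431)) (a (l 102240272599) (l 4))))))))), by decide +kernel⟩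

def k1_pp_023_t : ∃ t, chk3 f_pp_023_t t 5 4 1 = true :=
  ⟨(a (b (a (b (c (a (l 16723304) (l 16734240)) (a (l 16688864) (l 16687000))) (a (c (l 16743880) (l 16723728)) (c (l 16754744) (l 16741672)))) (l 2)) (a (a (a (b (c (l 16763720) (l 16756000)) (b (a (l 97945317079) (l 101703410663)) (l 4))) (b (c (l 67880562375) (l 53921914071)) (l 4))) (b (c (c (l 92576588359) (l 92576584519)) (a (b (l 16763888) (l 16744544)) (b (l 16771240) (l 105461509223)))) (l 4))) (l 2))) (l 2)), by decide +kernel⟩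

def k2_pp_023_t : ∃ t, chk3 f_pp_023_t t 2 5 1 = true :=
  ⟨(a (a (a (b (c (a (a (b (l 16708992) (l 16747136)) (b (l 16717256) (l 10972261735))) (b (c (l 16734128) (l 16723968)) (b (l 16756976) (a (l 76470489831) (c (l 90965989783) (l 90965986439)))))) (a (b (c (l 16690272) (l 16610152)) (b (a (l 16718320) (l 16730128)) (a (l 16747760) (l 16759248)))) (b (a (l 16699896) (l 16690688)) (b (a (l 16741712) (l 16753064)) (a (b (l 16763304) (l 16775160)) (c (l 91502854375) (l 91502850135))))))) (b (a (b (b (a (c (l 16772216) (l 16769784)) (c (l 90966004039) (l 16743864))) (a (a (l 92576618391) (l 4)) (l 4))) (l 4)) (l 4)) (l 4))) (b (a (a (b (c (l 16740960) (l 16702224)) (c (b (l 16768192) (l 96871540455)) (b (l 16763824) (l 98482149143)))) (b (c (l 16748544) (l 16734504)) (b (c (l 88818510711) (l 81302314215)) (l 4)))) (a (b (c (l 16756032) (l 16745632)) (b (c (l 94724069703) (l 95797806151)) (l 4))) (b (b (l 16731560) (c (l 16771560) (l 16747464))) (l 4)))) (l 4))) (b (b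 (a (a (a (b (c (l 16762056) (l 16754496)) (c (l 92576599511) (l 93113466151))) (c (b (l 16768920) (l 99555907127)) (b (l 16764664) (l 100629645639)))) (b (a (c (l 16743328) (l 79691711607)) (c (l 96334696503) (l 97408433431))) (l 4))) (l 4)) (l 4)) (l 4))) (l 4)), by decide +kernel⟩

def k3_pp_023_t : ∃ t, chk3 f_pp_023_t t 2 3 1 = true :=
  ⟨(l 4), by decide +kernel⟩

def k4_pp_023_t : ∃ t, chk3 f_pp_023_t t 3 1 1 = true :=
  ⟨(l 2), by decide +kernel⟩

theorem s5_pp_023_t : ∃ t, chk3 f_pp_023_t t 2 4 1 = true := ex3_a k0_pp_023_t k1_pp_023_t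

theorem s6_pp_023_t : ∃ t, chk3 f_pp_023_t t 2 2 1 = true := ex3_b s5_pp_023_t k2_pp_023_t

theorem s7_pp_023_t : ∃ t, chk3 f_pp_023_t t 2 1 1 = true := ex3_b s6_pp_023_t k3_pp_023_t

theorem s8_pp_023_t : ∃ t, chk3 f_pp_023_t t 1 1 1 = true := ex3_a s7_pp_023_t k4_pp_023_t

theorem c_pp_023_t : CertNE 0 536870912 0 536870912 923417968 42949674 3 eng mog cd0q0 cd0q2 pd3 true true true .up 0 2 3
    ndB0q0 ndB0q2 pcB3 cut_pp_023_t Ext.none :=
  certNE2 (fam := true) (s1 := true) (s2 := true) (a := 0) (b := 2) (c := 3) (cn := .up) (n1 := ndB0q0) (n2 := ndB0q2) (pc := pcB3) (cut := cut_pp_023_t) (xt := Ext.none) (P1 := 0) (W1 := 536870912) (P2 := 0) (W2 := 536870912) (P3 := 923417968) (W3 := 42949674) (N0 := 3) (En := eng) (mo := mog) (C1 := cd0q0) (C2 := cd0q2) (C3 := pd3)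
    rfl (fun _ => rfl) s8_pp_023_t

noncomputable def cut_pp_101_s : Cut := Cut.of [[⟨4, 0, 0, 1449551462⟩]]

noncomputable def f_pp_101_s : ℕ → ℕ → ℕ → ℕ → Bool := onCell 536870912 536870912 0 536870912 923417968 42949674
    (rowNE 3 eng mog cd0q1 cd0q0 pd1 0 true true true .npn 1 0 1 (qsf 536870912 536870912 0 536870912 1) ndB0q1 ndB0q0 pcB1 cut_pp_101_s Ext.none)

def k0_pp_101_s : ∃ t, chk3 f_pp_101_s t 1 1 1 = true :=
  ⟨(l 6), by decide +kernel⟩

theorem c_pp_101_s : CertNE 536870912 536870912 0 536870912 923417968 42949674 3 eng mog cd0q1 cd0q0 pd1 true true true .npn 1 0 1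
    ndB0q1 ndB0q0 pcB1 cut_pp_101_s Ext.none :=
  certNE0 (fam := true) (s1 := true) (s2 := true) (a := 1) (b := 0) (c := 1) (cn := .npn) (n1 := ndB0q1) (n2 := ndB0q0) (pc := pcB1) (cut := cut_pp_101_s) (xt := Ext.none) (P1 := 536870912) (W1 := 536870912) (P2 := 0) (W2 := 536870912) (P3 := 923417968) (W3 := 42949674) (N0 := 3) (En := eng) (mo := mog) (C1 := cd0q1) (C2 := cd0q0) (C3 := pd1)
    rfl k0_pp_101_s

noncomputable def cut_pp_101_t : Cut := Cut.of [[⟨3, 0, 0, 2845415833⟩]]

noncomputable def f_pp_101_t : ℕ → ℕ → ℕ → ℕ → Bool := onCell 536870912 536870912 0 536870912 923417968 42949674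
    (rowNE 3 eng mog cd0q1 cd0q0 pd1 0 true true true .npn 1 0 1 (qsf 536870912 536870912 0 536870912 1) ndB0q1 ndB0q0 pcB1 cut_pp_101_t Ext.none)

def k0_pp_101_t : ∃ t, chk3 f_pp_101_t t 1 1 1 = true :=
  ⟨(a (l 4) (l 5)), by decide +kernel⟩

theorem c_pp_101_t : CertNE 536870912 536870912 0 536870912 923417968 42949674 3 eng mog cd0q1 cd0q0 pd1 true true true .npn 1 0 1
    ndB0q1 ndB0q0 pcB1 cut_pp_101_t Ext.none :=
  certNE0 (fam := true) (s1 := true) (s2 := true) (a := 1) (b := 0) (c := 1) (cn := .npn) (n1 := ndB0q1) (n2 := ndB0q0) (pc := pcB1) (cut := cut_pp_101_t) (xt := Ext.none) (P1 := 536870912) (W1 := 536870912) (P2 := 0) (W2 := 536870912) (P3 := 923417968) (W3 := 42949674) (N0 := 3) (En := eng) (mo := mog) (C1 := cd0q1) (C2 := cd0q0) (C3 := pd1)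
    rfl k0_pp_101_t

noncomputable def cut_pp_102_s : Cut := Cut.of [[⟨4, 0, 0, 1449551462⟩]]

noncomputable def f_pp_102_s : ℕ → ℕ → ℕ → ℕ → Bool := onCell 536870912 536870912 0 536870912 923417968 42949674
    (rowNE 3 eng mog cd0q1 cd0q0 pd2 0 true true true .npp 1 0 2 (qsf 536870912 536870912 0 536870912 2) ndB0q1 ndB0q0 pcB2 cut_pp_102_s Ext.none)

def k0_pp_102_s : ∃ t, chk3 f_pp_102_s t 1 1 1 = true :=
  ⟨(l 6), by decide +kernel⟩

theorem c_pp_102_s : CertNE 536870912 536870912 0 536870912 923417968 42949674 3 eng mog cd0q1 cd0q0 pd2 true true true .npp 1 0 2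
    ndB0q1 ndB0q0 pcB2 cut_pp_102_s Ext.none :=
  certNE0 (fam := true) (s1 := true) (s2 := true) (a := 1) (b := 0) (c := 2) (cn := .npp) (n1 := ndB0q1) (n2 := ndB0q0) (pc := pcB2) (cut := cut_pp_102_s) (xt := Ext.none) (P1 := 536870912) (W1 := 536870912) (P2 := 0) (W2 := 536870912) (P3 := 923417968) (W3 := 42949674) (N0 := 3) (En := eng) (mo := mog) (C1 := cd0q1) (C2 := cd0q0) (C3 := pd2)
    rfl k0_pp_102_s

noncomputable def cut_pp_102_t : Cut := Cut.of [[⟨3, 0, 0, 2845415833⟩]]

noncomputable def f_pp_102_t : ℕ → ℕ → ℕ → ℕ → Bool := onCell 536870912 536870912 0 536870912 923417968 42949674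
    (rowNE 3 eng mog cd0q1 cd0q0 pd2 0 true true true .npp 1 0 2 (qsf 536870912 536870912 0 536870912 2) ndB0q1 ndB0q0 pcB2 cut_pp_102_t Ext.none)

def k0_pp_102_t : ∃ t, chk3 f_pp_102_t t 1 1 1 = true :=
  ⟨(a (l 4) (l 5)), by decide +kernel⟩

theorem c_pp_102_t : CertNE 536870912 536870912 0 536870912 923417968 42949674 3 eng mog cd0q1 cd0q0 pd2 true true true .npp 1 0 2
    ndB0q1 ndB0q0 pcB2 cut_pp_102_t Ext.none :=
  certNE0 (fam := true) (s1 := true) (s2 := true) (a := 1) (b := 0) (c := 2) (cn := .npp) (n1 := ndB0q1) (n2 := ndB0q0) (pc := pcB2) (cut := cut_pp_102_t) (xt := Ext.none) (P1 := 536870912) (W1 := 536870912) (P2 := 0) (W2 := 536870912) (P3 := 923417968) (W3 := 42949674) (N0 := 3) (En := eng) (mo := mog) (C1 := cd0q1) (C2 := cd0q0) (C3 := pd2)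
    rfl k0_pp_102_t

noncomputable def cut_pp_112_s : Cut := Cut.of [[⟨4, 0, 0, 1449551462⟩]]

noncomputable def f_pp_112_s : ℕ → ℕ → ℕ → ℕ → Bool := onCell 536870912 536870912 536870912 536870912 923417968 42949674
    (rowNE 3 eng mog cd0q1 cd0q1 pd2 0 true true true .dn 1 1 2 (qsf 536870912 536870912 536870912 536870912 2) ndB0q1 ndB0q1 pcB2 cut_pp_112_s Ext.none)

def k0_pp_112_s : ∃ t, chk3 f_pp_112_s t 1 1 1 = true :=
  ⟨(l 4), by decide +kernel⟩

theorem c_pp_112_s : CertNE 536870912 536870912 536870912 536870912 923417968 42949674 3 eng mog cd0q1 cd0q1 pd2 true true true .dn 1 1 2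
    ndB0q1 ndB0q1 pcB2 cut_pp_112_s Ext.none :=
  certNE0 (fam := true) (s1 := true) (s2 := true) (a := 1) (b := 1) (c := 2) (cn := .dn) (n1 := ndB0q1) (n2 := ndB0q1) (pc := pcB2) (cut := cut_pp_112_s) (xt := Ext.none) (P1 := 536870912) (W1 := 536870912) (P2 := 536870912) (W2 := 536870912) (P3 := 923417968) (W3 := 42949674) (N0 := 3) (En := eng) (mo := mog) (C1 := cd0q1) (C2 := cd0q1) (C3 := pd2)
    rfl k0_pp_112_s

noncomputable def cut_pp_112_t : Cut := Cut.of [[⟨3, 0, 0, 2845415833⟩]]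

noncomputable def f_pp_112_t : ℕ → ℕ → ℕ → ℕ → Bool := onCell 536870912 536870912 536870912 536870912 923417968 42949674
    (rowNE 3 eng mog cd0q1 cd0q1 pd2 0 true true true .dn 1 1 2 (qsf 536870912 536870912 536870912 536870912 2) ndB0q1 ndB0q1 pcB2 cut_pp_112_t Ext.none)

def k0_pp_112_t : ∃ t, chk3 f_pp_112_t t 1 1 1 = true :=
  ⟨(l 4), by decide +kernel⟩

theorem c_pp_112_t : CertNE 536870912 536870912 536870912 536870912 923417968 42949674 3 eng mog cd0q1 cd0q1 pd2 true true true .dn 1 1 2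
    ndB0q1 ndB0q1 pcB2 cut_pp_112_t Ext.none :=
  certNE0 (fam := true) (s1 := true) (s2 := true) (a := 1) (b := 1) (c := 2) (cn := .dn) (n1 := ndB0q1) (n2 := ndB0q1) (pc := pcB2) (cut := cut_pp_112_t) (xt := Ext.none) (P1 := 536870912) (W1 := 536870912) (P2 := 536870912) (W2 := 536870912) (P3 := 923417968) (W3 := 42949674) (N0 := 3) (En := eng) (mo := mog) (C1 := cd0q1) (C2 := cd0q1) (C3 := pd2)
    rfl k0_pp_112_t

noncomputable def cut_pp_113_s : Cut := Cut.of [[⟨4, 0, 0, 1449551462⟩]]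

noncomputable def f_pp_113_s : ℕ → ℕ → ℕ → ℕ → Bool := onCell 536870912 536870912 536870912 536870912 923417968 42949674
    (rowNE 3 eng mog cd0q1 cd0q1 pd3 0 true true true .nn 1 1 3 (qsf 536870912 536870912 536870912 536870912 3) ndB0q1 ndB0q1 pcB3 cut_pp_113_s Ext.none)

def k0_pp_113_s : ∃ t, chk3 f_pp_113_s t 1 1 1 = true :=
  ⟨(l 4), by decide +kernel⟩

theorem c_pp_113_s : CertNE 536870912 536870912 536870912 536870912 923417968 42949674 3 eng mog cd0q1 cd0q1 pd3 true true true .nn 1 1 3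
    ndB0q1 ndB0q1 pcB3 cut_pp_113_s Ext.none :=
  certNE0 (fam := true) (s1 := true) (s2 := true) (a := 1) (b := 1) (c := 3) (cn := .nn) (n1 := ndB0q1) (n2 := ndB0q1) (pc := pcB3) (cut := cut_pp_113_s) (xt := Ext.none) (P1 := 536870912) (W1 := 536870912) (P2 := 536870912) (W2 := 536870912) (P3 := 923417968) (W3 := 42949674) (N0 := 3) (En := eng) (mo := mog) (C1 := cd0q1) (C2 := cd0q1) (C3 := pd3)
    rfl k0_pp_113_s

noncomputable def cut_pp_113_t : Cut := Cut.of [[⟨3, 0, 0, 2845415833⟩]]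

noncomputable def f_pp_113_t : ℕ → ℕ → ℕ → ℕ → Bool := onCell 536870912 536870912 536870912 536870912 923417968 42949674
    (rowNE 3 eng mog cd0q1 cd0q1 pd3 0 true true true .nn 1 1 3 (qsf 536870912 536870912 536870912 536870912 3) ndB0q1 ndB0q1 pcB3 cut_pp_113_t Ext.none)

def k0_pp_113_t : ∃ t, chk3 f_pp_113_t t 1 1 1 = true :=
  ⟨(l 4), by decide +kernel⟩

theorem c_pp_113_t : CertNE 536870912 536870912 536870912 536870912 923417968 42949674 3 eng mog cd0q1 cd0q1 pd3 true true true .nn 1 1 3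
    ndB0q1 ndB0q1 pcB3 cut_pp_113_t Ext.none :=
  certNE0 (fam := true) (s1 := true) (s2 := true) (a := 1) (b := 1) (c := 3) (cn := .nn) (n1 := ndB0q1) (n2 := ndB0q1) (pc := pcB3) (cut := cut_pp_113_t) (xt := Ext.none) (P1 := 536870912) (W1 := 536870912) (P2 := 536870912) (W2 := 536870912) (P3 := 923417968) (W3 := 42949674) (N0 := 3) (En := eng) (mo := mog) (C1 := cd0q1) (C2 := cd0q1) (C3 := pd3)
    rfl k0_pp_113_t

noncomputable def cut_pp_123_s : Cut := Cut.of [[⟨4, 0, 0, 1449551462⟩]]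

noncomputable def f_pp_123_s : ℕ → ℕ → ℕ → ℕ → Bool := onCell 536870912 536870912 0 536870912 923417968 42949674
    (rowNE 3 eng mog cd0q1 cd0q2 pd3 0 true true true .npn 1 2 3 (qsf 536870912 536870912 0 536870912 3) ndB0q1 ndB0q2 pcB3 cut_pp_123_s Ext.none)

def k0_pp_123_s : ∃ t, chk3 f_pp_123_s t 1 1 1 = true :=
  ⟨(l 6), by decide +kernel⟩

theorem c_pp_123_s : CertNE 536870912 536870912 0 536870912 923417968 42949674 3 eng mog cd0q1 cd0q2 pd3 true true true .npn 1 2 3
    ndB0q1 ndB0q2 pcB3 cut_pp_123_s Ext.none :=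
  certNE0 (fam := true) (s1 := true) (s2 := true) (a := 1) (b := 2) (c := 3) (cn := .npn) (n1 := ndB0q1) (n2 := ndB0q2) (pc := pcB3) (cut := cut_pp_123_s) (xt := Ext.none) (P1 := 536870912) (W1 := 536870912) (P2 := 0) (W2 := 536870912) (P3 := 923417968) (W3 := 42949674) (N0 := 3) (En := eng) (mo := mog) (C1 := cd0q1) (C2 := cd0q2) (C3 := pd3)
    rfl k0_pp_123_s

noncomputable def cut_pp_123_t : Cut := Cut.of [[⟨3, 0, 0, 2845415833⟩]]

noncomputable def f_pp_123_t : ℕ → ℕ → ℕ → ℕ → Bool := onCell 536870912 536870912 0 536870912 923417968 42949674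
    (rowNE 3 eng mog cd0q1 cd0q2 pd3 0 true true true .npn 1 2 3 (qsf 536870912 536870912 0 536870912 3) ndB0q1 ndB0q2 pcB3 cut_pp_123_t Ext.none)

def k0_pp_123_t : ∃ t, chk3 f_pp_123_t t 1 1 1 = true :=
  ⟨(a (b (b (a (b (b (a (a (c (a (l 16743208) (l 16753024)) (a (l 16681680) (l 16740312))) (a (c (l 16762704) (l 16756048)) (a (c (l 16770104) (l 16766672)) (c (l 87207907175) (l 82912934839))))) (a (a (a (c (l 97408438583) (l 96871563463)) (c (l 102777138279) (l 103850877799))) (l 4)) (l 4))) (a (a (a (c (a (l 16760552) (l 16765600)) (a (l 16751168) (l 16759248))) (a (c (l 16749512) (l 16750640)) (b (l 16769136) (a (l 97945331255) (l 102777163031))))) (a (b (b (a (l 16772128) (l 16802792)) (a (l 103851011687) (l 4))) (l 4)) (l 4))) (l 4))) (a (a (b (a (b (b (a (l 16772504) (l 105998495143)) (a (l 106535365927) (l 4))) (l 4)) (l 4)) (l 4)) (l 4)) (l 4))) (l 4)) (l 4)) (l 4)) (l 4)), by decide +kernel⟩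

theorem c_pp_123_t : CertNE 536870912 536870912 0 536870912 923417968 42949674 3 eng mog cd0q1 cd0q2 pd3 true true true .npn 1 2 3
    ndB0q1 ndB0q2 pcB3 cut_pp_123_t Ext.none :=
  certNE0 (fam := true) (s1 := true) (s2 := true) (a := 1) (b := 2) (c := 3) (cn := .npn) (n1 := ndB0q1) (n2 := ndB0q2) (pc := pcB3) (cut := cut_pp_123_t) (xt := Ext.none) (P1 := 536870912) (W1 := 536870912) (P2 := 0) (W2 := 536870912) (P3 := 923417968) (W3 := 42949674) (N0 := 3) (En := eng) (mo := mog) (C1 := cd0q1) (C2 := cd0q2) (C3 := pd3)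
    rfl k0_pp_123_t

noncomputable def cut_pp_202_s : Cut := Cut.of [[⟨4, 0, 0, 1449551462⟩]]

noncomputable def f_pp_202_s : ℕ → ℕ → ℕ → ℕ → Bool := onCell 0 536870912 0 536870912 923417968 42949674
    (rowNE 3 eng mog cd0q2 cd0q0 pd2 0 true true true .pp 2 0 2 (qsf 0 536870912 0 536870912 2) ndB0q2 ndB0q0 pcB2 cut_pp_202_s Ext.none)

def k0_pp_202_s : ∃ t, chk3 f_pp_202_s t 1 1 1 = true :=
  ⟨(l 5), by decide +kernel⟩

theorem c_pp_202_s : CertNE 0 536870912 0 536870912 923417968 42949674 3 eng mog cd0q2 cd0q0 pd2 true true true .pp 2 0 2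
    ndB0q2 ndB0q0 pcB2 cut_pp_202_s Ext.none :=
  certNE0 (fam := true) (s1 := true) (s2 := true) (a := 2) (b := 0) (c := 2) (cn := .pp) (n1 := ndB0q2) (n2 := ndB0q0) (pc := pcB2) (cut := cut_pp_202_s) (xt := Ext.none) (P1 := 0) (W1 := 536870912) (P2 := 0) (W2 := 536870912) (P3 := 923417968) (W3 := 42949674) (N0 := 3) (En := eng) (mo := mog) (C1 := cd0q2) (C2 := cd0q0) (C3 := pd2)
    rfl k0_pp_202_s

noncomputable def cut_pp_202_t : Cut := Cut.of [[⟨3, 0, 0, 2845415833⟩]]

noncomputable def f_pp_202_t : ℕ → ℕ → ℕ → ℕ → Bool := onCell 0 536870912 0 536870912 923417968 42949674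
    (rowNE 3 eng mog cd0q2 cd0q0 pd2 0 true true true .pp 2 0 2 (qsf 0 536870912 0 536870912 2) ndB0q2 ndB0q0 pcB2 cut_pp_202_t Ext.none)

def k0_pp_202_t : ∃ t, chk3 f_pp_202_t t 1 1 1 = true :=
  ⟨(l 5), by decide +kernel⟩

theorem c_pp_202_t : CertNE 0 536870912 0 536870912 923417968 42949674 3 eng mog cd0q2 cd0q0 pd2 true true true .pp 2 0 2
    ndB0q2 ndB0q0 pcB2 cut_pp_202_t Ext.none :=
  certNE0 (fam := true) (s1 := true) (s2 := true) (a := 2) (b := 0) (c := 2) (cn := .pp) (n1 := ndB0q2) (n2 := ndB0q0) (pc := pcB2) (cut := cut_pp_202_t) (xt := Ext.none) (P1 := 0) (W1 := 536870912) (P2 := 0) (W2 := 536870912) (P3 := 923417968) (W3 := 42949674) (N0 := 3) (En := eng) (mo := mog) (C1 := cd0q2) (C2 := cd0q0) (C3 := pd2)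
    rfl k0_pp_202_t

noncomputable def cut_pp_203_s : Cut := Cut.of [[⟨4, 0, 0, 1449551462⟩]]

noncomputable def f_pp_203_s : ℕ → ℕ → ℕ → ℕ → Bool := onCell 0 536870912 0 536870912 923417968 42949674
    (rowNE 3 eng mog cd0q2 cd0q0 pd3 0 true true true .up 2 0 3 (qsf 0 536870912 0 536870912 3) ndB0q2 ndB0q0 pcB3 cut_pp_203_s Ext.none)

def k0_pp_203_s : ∃ t, chk3 f_pp_203_s t 1 1 1 = true :=
  ⟨(l 5), by decide +kernel⟩

theorem c_pp_203_s : CertNE 0 536870912 0 536870912 923417968 42949674 3 eng mog cd0q2 cd0q0 pd3 true true true .up 2 0 3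
    ndB0q2 ndB0q0 pcB3 cut_pp_203_s Ext.none :=
  certNE0 (fam := true) (s1 := true) (s2 := true) (a := 2) (b := 0) (c := 3) (cn := .up) (n1 := ndB0q2) (n2 := ndB0q0) (pc := pcB3) (cut := cut_pp_203_s) (xt := Ext.none) (P1 := 0) (W1 := 536870912) (P2 := 0) (W2 := 536870912) (P3 := 923417968) (W3 := 42949674) (N0 := 3) (En := eng) (mo := mog) (C1 := cd0q2) (C2 := cd0q0) (C3 := pd3)
    rfl k0_pp_203_s

noncomputable def cut_pp_203_t : Cut := Cut.of [[⟨3, 0, 0, 2845415833⟩]]

noncomputable def f_pp_203_t : ℕ → ℕ → ℕ → ℕ → Bool := onCell 0 536870912 0 536870912 923417968 42949674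
    (rowNE 3 eng mog cd0q2 cd0q0 pd3 0 true true true .up 2 0 3 (qsf 0 536870912 0 536870912 3) ndB0q2 ndB0q0 pcB3 cut_pp_203_t Ext.none)

def k0_pp_203_t : ∃ t, chk3 f_pp_203_t t 1 1 1 = true :=
  ⟨(l 5), by decide +kernel⟩

theorem c_pp_203_t : CertNE 0 536870912 0 536870912 923417968 42949674 3 eng mog cd0q2 cd0q0 pd3 true true true .up 2 0 3
    ndB0q2 ndB0q0 pcB3 cut_pp_203_t Ext.none :=
  certNE0 (fam := true) (s1 := true) (s2 := true) (a := 2) (b := 0) (c := 3) (cn := .up) (n1 := ndB0q2) (n2 := ndB0q0) (pc := pcB3) (cut := cut_pp_203_t) (xt := Ext.none) (P1 := 0) (W1 := 536870912) (P2 := 0) (W2 := 536870912) (P3 := 923417968) (W3 := 42949674) (N0 := 3) (En := eng) (mo := mog) (C1 := cd0q2) (C2 := cd0q0) (C3 := pd3)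
    rfl k0_pp_203_t

noncomputable def cut_pp_213_s : Cut := Cut.of [[⟨4, 0, 0, 1449551462⟩]]

noncomputable def f_pp_213_s : ℕ → ℕ → ℕ → ℕ → Bool := onCell 0 536870912 536870912 536870912 923417968 42949674
    (rowNE 3 eng mog cd0q2 cd0q1 pd3 0 true true true .pnn 2 1 3 (qsf 0 536870912 536870912 536870912 3) ndB0q2 ndB0q1 pcB3 cut_pp_213_s Ext.none)

def k0_pp_213_s : ∃ t, chk3 f_pp_213_s t 1 1 1 = true :=
  ⟨(l 6), by decide +kernel⟩

theorem c_pp_213_s : CertNE 0 536870912 536870912 536870912 923417968 42949674 3 eng mog cd0q2 cd0q1 pd3 true true true .pnn 2 1 3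
    ndB0q2 ndB0q1 pcB3 cut_pp_213_s Ext.none :=
  certNE0 (fam := true) (s1 := true) (s2 := true) (a := 2) (b := 1) (c := 3) (cn := .pnn) (n1 := ndB0q2) (n2 := ndB0q1) (pc := pcB3) (cut := cut_pp_213_s) (xt := Ext.none) (P1 := 0) (W1 := 536870912) (P2 := 536870912) (W2 := 536870912) (P3 := 923417968) (W3 := 42949674) (N0 := 3) (En := eng) (mo := mog) (C1 := cd0q2) (C2 := cd0q1) (C3 := pd3)
    rfl k0_pp_213_s

noncomputable def cut_pp_213_t : Cut := Cut.of [[⟨3, 0, 0, 2845415833⟩]]

noncomputable def f_pp_213_t : ℕ → ℕ → ℕ → ℕ → Bool := onCell 0 536870912 536870912 536870912 923417968 42949674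
    (rowNE 3 eng mog cd0q2 cd0q1 pd3 0 true true true .pnn 2 1 3 (qsf 0 536870912 536870912 536870912 3) ndB0q2 ndB0q1 pcB3 cut_pp_213_t Ext.none)

def k0_pp_213_t : ∃ t, chk3 f_pp_213_t t 1 1 1 = true :=
  ⟨(a (l 5) (l 4)), by decide +kernel⟩

theorem c_pp_213_t : CertNE 0 536870912 536870912 536870912 923417968 42949674 3 eng mog cd0q2 cd0q1 pd3 true true true .pnn 2 1 3
    ndB0q2 ndB0q1 pcB3 cut_pp_213_t Ext.none :=
  certNE0 (fam := true) (s1 := true) (s2 := true) (a := 2) (b := 1) (c := 3) (cn := .pnn) (n1 := ndB0q2) (n2 := ndB0q1) (pc := pcB3) (cut := cut_pp_213_t) (xt := Ext.none) (P1 := 0) (W1 := 536870912) (P2 := 536870912) (W2 := 536870912) (P3 := 923417968) (W3 := 42949674) (N0 := 3) (En := eng) (mo := mog) (C1 := cd0q2) (C2 := cd0q1) (C3 := pd3)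
    rfl k0_pp_213_t

noncomputable def cut_pm_001_s : Cut := Cut.of [[⟨4, 0, 0, 1449551462⟩]]

noncomputable def f_pm_001_s : ℕ → ℕ → ℕ → ℕ → Bool := onCell 0 536870912 0 536870912 923417968 42949674
    (rowNE 3 eng mog cd0q0 cd0q0 pd1 0 true true false .up 0 0 1 (qsf 0 536870912 0 536870912 1) ndB0q0 ndB0q0 pcB1 cut_pm_001_s Ext.none)

def k0_pm_001_s : ∃ t, chk3 f_pm_001_s t 1 1 1 = true :=
  ⟨(l 3), by decide +kernel⟩

theorem c_pm_001_s : CertNE 0 536870912 0 536870912 923417968 42949674 3 eng mog cd0q0 cd0q0 pd1 true true false .up 0 0 1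
    ndB0q0 ndB0q0 pcB1 cut_pm_001_s Ext.none :=
  certNE0 (fam := true) (s1 := true) (s2 := false) (a := 0) (b := 0) (c := 1) (cn := .up) (n1 := ndB0q0) (n2 := ndB0q0) (pc := pcB1) (cut := cut_pm_001_s) (xt := Ext.none) (P1 := 0) (W1 := 536870912) (P2 := 0) (W2 := 536870912) (P3 := 923417968) (W3 := 42949674) (N0 := 3) (En := eng) (mo := mog) (C1 := cd0q0) (C2 := cd0q0) (C3 := pd1)
    rfl k0_pm_001_s

noncomputable def cut_pm_001_t : Cut := Cut.of [[⟨3, 0, 0, 2845415833⟩]]

noncomputable def f_pm_001_t : ℕ → ℕ → ℕ → ℕ → Bool := onCell 0 536870912 0 536870912 923417968 42949674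
    (rowNE 3 eng mog cd0q0 cd0q0 pd1 0 true true false .up 0 0 1 (qsf 0 536870912 0 536870912 1) ndB0q0 ndB0q0 pcB1 cut_pm_001_t Ext.none)

def k0_pm_001_t : ∃ t, chk3 f_pm_001_t t 1 1 1 = true :=
  ⟨(l 3), by decide +kernel⟩

theorem c_pm_001_t : CertNE 0 536870912 0 536870912 923417968 42949674 3 eng mog cd0q0 cd0q0 pd1 true true false .up 0 0 1
    ndB0q0 ndB0q0 pcB1 cut_pm_001_t Ext.none :=
  certNE0 (fam := true) (s1 := true) (s2 := false) (a := 0) (b := 0) (c := 1) (cn := .up) (n1 := ndB0q0) (n2 := ndB0q0) (pc := pcB1) (cut := cut_pm_001_t) (xt := Ext.none) (P1 := 0) (W1 := 536870912) (P2 := 0) (W2 := 536870912) (P3 := 923417968) (W3 := 42949674) (N0 := 3) (En := eng) (mo := mog) (C1 := cd0q0) (C2 := cd0q0) (C3 := pd1)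
    rfl k0_pm_001_t

noncomputable def cut_pm_011_s : Cut := Cut.of [[⟨4, 0, 0, 1449551462⟩], [⟨0, 0, 0, 67108864⟩, ⟨1, 1, 0, 67108864⟩, ⟨2, 1, 0, 67108864⟩]]

noncomputable def f_pm_011_s : ℕ → ℕ → ℕ → ℕ → Bool := onCell 536870912 536870912 536870912 536870912 923417968 42949674
    (rowNE 3 eng mog cd0q0 cd0q1 pd1 2 true true false .pnn 0 1 1 (qsf 0 536870912 536870912 536870912 1) ndB0q0 ndB0q1 pcB1 cut_pm_011_s Ext.none)

def k0_pm_011_s : ∃ t, chk3 f_pm_011_s t 1 1 1 = true :=
  ⟨(a (l 3) (b (l 3) (a (l 3) (b (l 3) (a (l 3) (b (l 3) (a (l 3) (b (l 3) (l 14))))))))), by decide +kernel⟩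

theorem c_pm_011_s : CertNE 0 536870912 536870912 536870912 923417968 42949674 3 eng mog cd0q0 cd0q1 pd1 true true false .pnn 0 1 1
    ndB0q0 ndB0q1 pcB1 cut_pm_011_s Ext.none :=
  certNE2 (fam := true) (s1 := true) (s2 := false) (a := 0) (b := 1) (c := 1) (cn := .pnn) (n1 := ndB0q0) (n2 := ndB0q1) (pc := pcB1) (cut := cut_pm_011_s) (xt := Ext.none) (P1 := 0) (W1 := 536870912) (P2 := 536870912) (W2 := 536870912) (P3 := 923417968) (W3 := 42949674) (N0 := 3) (En := eng) (mo := mog) (C1 := cd0q0) (C2 := cd0q1) (C3 := pd1)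
    rfl (fun _ => rfl) k0_pm_011_s

noncomputable def cut_pm_011_t : Cut := Cut.of [[⟨3, 0, 0, 2845415833⟩], [⟨0, 0, 0, 67108864⟩, ⟨1, 1, 0, 67108864⟩, ⟨2, 1, 0, 67108864⟩]]

noncomputable def f_pm_011_t : ℕ → ℕ → ℕ → ℕ → Bool := onCell 0 536870912 536870912 536870912 923417968 42949674
    (rowNE 3 eng mog cd0q0 cd0q1 pd1 0 true true false .pnn 0 1 1 (qsf 0 536870912 536870912 536870912 1) ndB0q0 ndB0q1 pcB1 cut_pm_011_t Ext.none)

def k0_pm_011_t : ∃ t, chk3 f_pm_011_t t 1 1 1 = true :=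
  ⟨(l 6), by decide +kernel⟩

theorem c_pm_011_t : CertNE 0 536870912 536870912 536870912 923417968 42949674 3 eng mog cd0q0 cd0q1 pd1 true true false .pnn 0 1 1
    ndB0q0 ndB0q1 pcB1 cut_pm_011_t Ext.none :=
  certNE0 (fam := true) (s1 := true) (s2 := false) (a := 0) (b := 1) (c := 1) (cn := .pnn) (n1 := ndB0q0) (n2 := ndB0q1) (pc := pcB1) (cut := cut_pm_011_t) (xt := Ext.none) (P1 := 0) (W1 := 536870912) (P2 := 536870912) (W2 := 536870912) (P3 := 923417968) (W3 := 42949674) (N0 := 3) (En := eng) (mo := mog) (C1 := cd0q0) (C2 := cd0q1) (C3 := pd1)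
    rfl k0_pm_011_t

noncomputable def cut_pm_012_s : Cut := Cut.of [[⟨4, 0, 0, 1449551462⟩], [⟨0, 0, 0, 67108864⟩, ⟨1, 1, 0, 67108864⟩, ⟨2, 1, 0, 67108864⟩]]

noncomputable def f_pm_012_s : ℕ → ℕ → ℕ → ℕ → Bool := onCell 1073741824 536870912 536870912 536870912 923417968 42949674
    (rowNE 3 eng mog cd0q0 cd0q1 pd2 2 true true false .pnp 0 1 2 (qsf 0 536870912 536870912 536870912 2) ndB0q0 ndB0q1 pcB2 cut_pm_012_s Ext.none)

def k0_pm_012_s : ∃ t, chk3 f_pm_012_s t 4 2 1 = true :=
  ⟨(a (l 3) (l 3)), by decide +kernel⟩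

def k1_pm_012_s : ∃ t, chk3 f_pm_012_s t 4 6 1 = true :=
  ⟨(a (l 3) (a (b (l 3) (a (l 3) (b (l 3) (a (l 3) (b (l 3) (a (l 3) (b (l 3) (c (l 16776784) (l 16776688))))))))) (b (b (l 3) (a (l 3) (a (b (l 3) (l 250886462391)) (a (b (l 3) (l 16776360)) (b (l 16773136) (l 16772600)))))) (a (b (a (l 3) (b (l 3) (a (b (l 3) (l 232096015255)) (c (l 65666036007) (l 66739779575))))) (b (a (a (l 306184180567) (b (l 298667988551) (l 16782072))) (a (b (l 16776432) (l 16771240)) (c (l 16767968) (l 16768640)))) (a (a (b (l 86067128487) (l 16771544)) (a (l 16770080) (l 16767216))) (c (a (l 16762496) (l 16756808)) (l 16760952))))) (a (b (a (b (l 178945799095) (b (l 16774640) (l 16770216))) (b (l 16775616) (l 16767336))) (b (c (l 16759944) (l 16761248)) (c (l 16748752) (l 16750968)))) (b (b (a (l 16770360) (l 16765424)) (a (l 16762424) (l 16757680))) (b (c (l 16749976) (l 16752112)) (c (l 16738792) (l 16741864))))))))), by decide +kernel⟩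

def k2_pm_012_s : ∃ t, chk3 f_pm_012_s t 8 14 1 = true :=
  ⟨(a (l 3) (b (l 3) (a (l 3) (b (l 3) (a (b (l 3) (a (l 3) (b (l 3) (a (l 360945024631) (c (l 145659792503) (l 16777072)))))) (b (a (c (l 335712080983) (l 368461206455)) (b (a (l 3) (c (l 149954759895) (l 16776608))) (c (a (l 16776616) (l 16772936)) (l 16774944)))) (a (b (a (c (l 211694914327) (l 213842397655)) (c (l 16775328) (l 16775440))) (c (l 16772064) (l 16772312))) (c (b (l 16769744) (l 16743528)) (l 16751904))))))))), by decide +kernel⟩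

def k3_pm_012_s : ∃ t, chk3 f_pm_012_s t 16 15 1 = true :=
  ⟨(b (a (l 3) (b (l 3) (a (l 3) (b (l 3) (a (l 3) (b (l 3) (a (b (l 3) (b (l 3) (l 14))) (a (b (l 369534959367) (c (b (l 16777080) (l 16776000)) (l 16776744))) (b (c (b (l 280414389239) (l 16777024)) (l 161229047639)) (l 16771232)))))))))) (a (l 14) (b (a (l 14) (b (a (l 14) (b (a (l 14) (c (c (l 16766864) (l 16772248)) (l 16769848))) (l 14))) (l 14))) (l 14)))), by decide +kernel⟩

def k4_pm_012_s : ∃ t, chk3 f_pm_012_s t 34 30 1 = true :=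
  ⟨(b (a (l 3) (b (l 3) (b (a (l 3) (a (b (l 3) (l 221358588343)) (b (c (l 169818982327) (l 16777072)) (l 16775208)))) (a (a (l 3) (b (l 303499837191) (c (l 16778200) (l 16776992)))) (a (c (l 16774744) (l 16774880)) (c (l 16771128) (l 16771416))))))) (a (b (a (b (l 3) (a (l 3) (b (l 3) (l 359871277639)))) (b (a (l 3) (b (l 3) (c (l 221358589799) (l 225653556903)))) (a (b (c (l 287930580759) (l 295983644343)) (c (a (l 16777728) (l 16775744)) (l 16778024))) (c (b (l 16775880) (l 16773224)) (l 16774712))))) (a (b (a (b (l 3) (c (a (l 285246226247) (l 105931338471)) (a (l 273435067911) (l 16776960)))) (c (b (a (l 206863074951) (l 16776448)) (l 16774656)) (b (a (l 209010558599) (l 16776504)) (l 16774792)))) (a (c (b (a (l 16776088) (l 16774504)) (l 16772784)) (b (l 16775424) (l 16773024))) (c (b (l 16772104) (l 16759056)) (l 16765896)))) (a (b (c (c (l 16772616) (l 16772728)) (l 16772904)) (c (c (l 16756864) (l 16757080)) (l 16767920))) (b (c (l 16764016) (l 16769656)) (c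 (l 16756072) (l 16754072)))))) (c (b (a (a (b (b (l 168208369495) (l 16775088)) (l 16771096)) (b (l 16772928) (l 16757048))) (b (a (l 16758856) (l 16755168)) (c (l 16751336) (l 16751656)))) (b (a (a (l 16755232) (l 16751568)) (c (l 16745648) (l 16746088))) (a (a (l 16749800) (l 16756520)) (a (l 16752656) (l 16738160))))) (b (a (b (a (b (l 168208369527) (l 16775200)) (l 16773136)) (l 16761200)) (b (l 16757488) (l 16752200))) (a (b (a (l 16745304) (l 16741800)) (c (l 16748568) (l 16749032))) (b (l 16746832) (c (l 16741032) (l 16731208)))))))), by decide +kernel⟩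

def k5_pm_012_s : ∃ t, chk3 f_pm_012_s t 35 30 1 = true :=
  ⟨(b (a (b (a (b (a (l 3) (b (l 3) (l 201494367335))) (a (c (l 174113945335) (l 176261433895)) (c (l 16774536) (l 16774672)))) (a (b (a (l 110226307607) (l 16775248)) (l 16760480)) (b (l 16772528) (l 16756792)))) (a (a (b (l 40969938215) (l 16759784)) (b (l 16758848) (l 16753448))) (c (b (l 16752976) (l 16747336)) (b (l 16743120) (l 16737736))))) (a (b (c (a (l 16755464) (l 16751616)) (b (l 16767264) (l 16741064))) (c (b (l 16734680) (l 16749896)) (l 16739480))) (b (c (a (l 16747736) (l 16733352)) (l 16746792)) (c (b (l 16747736) (l 16741880)) (l 16725336))))) (a (b (c (a (b (l 16749456) (l 16743744)) (b (l 16741584) (l 16746224))) (a (b (l 16739760) (l 16734304)) (a (l 16731344) (l 16727504)))) (c (a (b (a (l 16750448) (l 16746432)) (a (b (l 16746112) (l 16742808)) (b (l 16741784) (l 16737848)))) (b (a (l 16731736) (b (l 16739656) (l 16736112))) (a (b (l 16737016) (l 16732712)) (l 16729752)))) (a (b (l 16728768)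 (a (l 16735336) (l 16730952))) (b (c (l 16720184) (l 16742080)) (a (l 16736768) (l 16731928)))))) (b (b (a (c (l 16744024) (l 16745520)) (c (a (l 16737952) (l 16733760)) (l 16737696))) (a (c (a (l 16740072) (l 16735768)) (l 16718656)) (c (a (l 16731288) (l 16726472)) (l 16710104)))) (c (a (b (a (b (l 16735168) (l 16731040)) (l 16728096)) (c (l 16721592) (l 16722776))) (b (c (l 16720000) (l 16721248)) (c (l 16711496) (l 16712960)))) (a (b (a (l 16735112) (l 16730392)) (l 16724784)) (a (l 16704024) (l 16696120))))))), by decide +kernel⟩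

def k6_pm_012_s : ∃ t, chk3 f_pm_012_s t 34 62 1 = true :=
  ⟨(a (b (b (a (c (a (c (l 16763664) (l 16758624)) (c (l 16755072) (l 16755328))) (a (l 16764200) (l 16755752))) (c (a (l 16754336) (l 16748104)) (a (l 16752400) (l 16748920)))) (a (a (l 14) (c (l 16753640) (l 16750840))) (a (b (l 16753424) (c (l 16750208) (l 16745960))) (c (b (l 16754512) (a (l 16752280) (l 16749848))) (c (l 16742944) (l 16743520)))))) (a (l 14) (a (l 14) (a (l 14) (b (c (l 16732376) (l 16744312)) (l 14)))))) (a (a (b (b (b (l 16751400) (l 16743472)) (c (b (c (l 16750000) (l 16750512)) (l 16745960)) (b (l 16740880) (l 16747256)))) (b (c (c (l 16738680) (l 16739400)) (l 16730136)) (l 14))) (b (b (b (l 16742400) (c (l 16738840) (l 16750496))) (c (b (l 16745344) (l 16740808)) (l 16733992))) (c (b (c (l 16733552) (l 16734360)) (c (l 16724232) (l 16725256))) (b (l 16735744) (l 16727000))))) (b (b (c (a (b (l 16748296) (l 16744624)) (b (l 16743768) (l 16739448))) (a (a (l 16738360) (l 16736152))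 (l 16732624))) (c (c (a (l 16737552) (l 16732368)) (a (l 16738288) (l 16733216))) (a (l 16729056) (l 16734656)))) (c (b (c (a (l 16728432) (l 16723336)) (l 16726856)) (c (l 16716712) (l 16717896))) (b (c (l 16727920) (l 16729096)) (c (l 16719208) (l 16720640))))))), by decide +kernel⟩

def k7_pm_012_s : ∃ t, chk3 f_pm_012_s t 35 62 1 = true :=
  ⟨(c (a (b (a (b (c (l 16737424) (l 16734344)) (c (l 16727264) (l 16725664))) (b (c (l 16723168) (l 16724272)) (c (l 16714424) (l 16715720)))) (a (b (c (l 16715720) (l 16716928)) (c (l 16706736) (l 16708160))) (b (c (l 16705640) (l 16707128)) (a (l 16689600) (l 16684736))))) (b (a (b (c (l 16712984) (l 16714368)) (c (l 16704336) (l 16705920))) (c (b (l 16702952) (l 16694384)) (b (l 16704624) (l 16696272)))) (a (b (c (l 16695664) (l 16697456)) (c (l 16686984) (l 16689008))) (c (b (l 16685808) (l 16677240)) (l 16683736))))) (b (b (a (a (a (l 16738240) (l 16733368)) (c (l 16725504) (l 16726848))) (a (l 16716720) (l 16707480))) (a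 (a (a (l 16729816) (l 16725024)) (l 16702184)) (a (l 16708600) (l 16699480)))) (a (a (b (c (l 16718272) (l 16719744)) (c (l 16709744) (l 16711472))) (b (c (l 16708768) (l 16710576)) (l 16706672))) (a (b (l 16700488) (l 16692424)) (b (l 16691504) (l 16683592)))))), by decide +kernel⟩

def k8_pm_012_s : ∃ t, chk3 f_pm_012_s t 17 63 1 = true :=
  ⟨(b (b (a (a (l 14) (a (l 14) (a (l 14) (c (l 16703136) (l 16709072))))) (a (c (a (c (l 16692456) (l 16699392)) (a (l 16680840) (l 16676064))) (a (c (l 16701256) (l 16703304)) (l 16693288))) (c (c (a (l 16678304) (l 16668704)) (a (l 16680592) (l 16671344))) (a (l 16684472) (l 16675800))))) (a (l 14) (a (c (c (a (l 16688624) (l 16679104)) (c (l 16685464) (l 16686592))) (a (l 16698640) (l 16685304))) (c (c (a (l 16669624) (l 16660200)) (l 16668360)) (a (l 16676680) (l 16668192)))))) (a (l 14) (a (a (l 14) (a (l 14) (b (c (l 16669280) (l 16675400)) (l 14)))) (c (c (b (a (l 16660968) (l 16651736)) (a (l 16652352) (l 16643336))) (b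 (l 16658248) (l 16649600))) (b (a (l 16669112) (l 16660824)) (a (l 16661824) (l 16653760))))))), by decide +kernel⟩

def k9_pm_012_s : ∃ t, chk3 f_pm_012_s t 18 14 1 = true :=
  ⟨(b (a (a (l 3) (b (l 3) (a (b (l 3) (c (l 277730023607) (l 287930562919))) (b (l 292762400535) (a (a (l 140291085927) (l 16776328)) (l 16773832)))))) (b (b (a (l 3) (a (a (l 167134631655) (l 16775944)) (l 16771336))) (a (a (l 338933295591) (c (l 104320735543) (l 16776880))) (c (l 16767488) (l 16768176)))) (b (a (a (b (l 146196666775) (l 16774640)) (l 16770080)) (c (l 16760280) (l 16761472))) (a (c (a (l 16768704) (l 16741176)) (l 16766200)) (c (l 16731648) (l 16754352)))))) (a (b (a (b (a (l 3) (b (l 3) (c (l 173040210279) (l 177872048087)))) (a (b (l 331953985575) (a (l 189683208679) (l 16775320))) (b (c (l 16774488) (l 16774672)) (l 16759664)))) (b (a (c (b (l 16776152) (l 16771888)) (l 16779520)) (c (l 16767192) (l 16767816))) (c (a (l 16765288) (l 16737504)) (a (l 16766000) (l 16738672)))))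 (a (a (b (c (b (l 16772360) (l 16767376)) (l 16765088)) (c (c (l 16738376) (l 16738776)) (l 16760424))) (b (c (l 16746944) (l 16763464)) (c (l 16741608) (l 16732416)))) (b (c (a (l 16734712) (l 16727960)) (b (l 16735200) (l 16730312))) (c (a (l 16724024) (l 16738080)) (b (l 16725176) (l 16719856)))))) (b (a (b (a (c (l 16739528) (l 16740616)) (l 16733736)) (c (b (l 16729784) (l 16725312)) (l 16729480))) (b (c (l 16723520) (l 16725824)) (c (l 16714936) (l 16717832)))) (a (b (c (c (l 16717568) (l 16718672)) (l 16720560)) (a (c (l 16731456) (l 16734184)) (c (l 16703776) (l 16707112)))) (b (c (a (l 16729568) (l 16702128)) (c (l 16707880) (l 16709848))) (c (a (b (l 16721216) (l 16714240)) (l 16710072)) (a (l 16700664) (l 16714840)))))))), by decide +kernel⟩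

def k10_pm_012_s : ∃ t, chk3 f_pm_012_s t 19 14 1 = true :=
  ⟨(c (b (a (b (a (b (l 16761984) (l 16755232)) (a (l 16728872) (l 16723240))) (a (b (l 16727096) (l 16719504)) (a (l 16714648) (l 16709104)))) (b (a (l 16715240) (a (l 16707648) (l 16702352))) (a (a (l 16703488) (l 16687104)) (a (l 16680792) (l 16684512))))) (a (b (a (b (l 16732432) (c (l 16701680) (l 16703512))) (b (l 16699488) (a (l 16713728) (l 16706384)))) (a (b (a (l 16695264) (l 16708760)) (a (l 16702320) (l 16694712))) (b (l 16676584) (l 16652088)))) (b (a (b (l 16686096) (l 16695528)) (a (l 16654192) (l 16642016))) (a (b (l 16683056) (l 16669104)) (b (l 16669024) (l 16655136)))))) (a (b (a (b (b (l 16763096) (l 16756856)) (b (l 16729256) (l 16722232))) (b (l 16749336) (l 16715344))) (b (a (b (l 16735760) (l 16706624)) (b (l 16703960) (l 16694520))) (a (b (b (l 16699328) (l 16714400)) (l 16683632)) (b (l 16683304) (l 16691544))))) (b (a (b (l 16739464) (b (l 16708936) (l 16701176))) (b (l 16709120)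 (b (l 16698200) (l 16710376)))) (b (a (b (l 16692112) (l 16702840)) (c (l 16672736) (l 16677456))) (a (b (l 16691712) (l 16679112)) (b (l 16679736) (l 16667272))))))), by decide +kernel⟩

def k11_pm_012_s : ∃ t, chk3 f_pm_012_s t 36 30 1 = true :=
  ⟨(b (a (b (c (a (b (l 16751320) (l 16745640)) (l 16719888)) (a (l 16728904) (l 16742672))) (c (a (a (l 16738848) (l 16713856)) (b (l 16732064) (a (l 16727736) (l 16723408)))) (a (l 16717760) (c (l 16709424) (l 16710752))))) (c (b (b (l 16717144) (a (l 16730560) (l 16722976))) (a (b (l 16713608) (l 16716456)) (b (l 16715472) (l 16707384)))) (b (a (l 16714792) (l 16707904)) (a (a (l 16704304) (l 16700288)) (l 16694136))))) (b (a (c (a (b (a (l 16729456) (l 16724888)) (l 16719096)) (b (l 16717688) (l 16709480))) (a (b (l 16708504) (l 16721976)) (b (l 16720720) (l 16713048)))) (c (a (b (l 16708320) (l 16700080)) (c (l 16693984) (l 16696160))) (a (b (l 16712064) (l 16704392)) (l 16678880)))) (b (c (a (a (l 16710792) (l 16701176))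 (c (l 16685984) (l 16688376))) (a (a (l 16714208) (l 16705304)) (a (l 16696656) (l 16688272)))) (c (a (a (l 16702432) (l 16692840)) (c (l 16674912) (l 16680184))) (a (a (l 16706360) (l 16697504)) (a (l 16688880) (l 16680512))))))), by decide +kernel⟩

def k12_pm_012_s : ∃ t, chk3 f_pm_012_s t 37 30 1 = true :=
  ⟨(a (a (b (b (c (b (l 16722248) (l 16714792)) (b (l 16725432) (l 16718432))) (c (b (l 16706736) (l 16698568)) (l 16686152))) (c (b (c (l 16684896) (l 16687440)) (c (l 16657448) (l 16671024))) (b (l 16670792) (b (l 16680160) (l 16672400))))) (b (b (c (b (l 16714496) (l 16706464)) (l 16693696)) (c (c (l 16692976) (l 16695376)) (l 16699456))) (c (b (c (l 16676056) (l 16678992)) (b (l 16643928) (l 16635552))) (b (l 16683976) (b (l 16672320) (l 16664552)))))) (b (c (b (a (l 16681440) (l 16694584)) (a (c (l 16684632) (l 16687432)) (l 16678016))) (b (a (l 16707448) (l 16700512)) (a (l 16692184) (l 16685120)))) (c (b (a (a (l 16671160) (l 16646064)) (c (l 16659120) (l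 16662904))) (c (a (l 16629304) (l 16641792)) (c (l 16628104) (l 16651256)))) (b (a (l 16676488) (l 16669304)) (c (l 16654720) (l 16659720)))))), by decide +kernel⟩

def k13_pm_012_s : ∃ t, chk3 f_pm_012_s t 18 62 1 = true :=
  ⟨(a (c (a (b (a (b (l 16694040) (l 16680408)) (c (l 16677800) (l 16681568))) (a (b (l 16672032) (l 16663696)) (b (l 16662616) (l 16654376)))) (b (c (b (l 16666488) (l 16656784)) (b (l 16672000) (l 16653368))) (a (b (l 16653360) (l 16642576)) (b (l 16639024) (l 16630928))))) (a (b (a (b (l 16698464) (l 16690560)) (b (l 16689664) (l 16681848))) (b (a (l 16682696) (l 16674080)) (c (l 16668952) (l 16672440)))) (b (a (b (l 16681096) (l 16673336)) (c (l 16666992) (l 16670856))) (c (b (l 16659528) (l 16651856)) (b (l 16663624) (l 16656288)))))) (c (a (a (b (c (l 16640584) (l 16633712)) (b (l 16630096) (l 16622056))) (b (b (l 16627240) (l 16629488)) (b (l 16621352) (l 16613352)))) (b (c (a (l 16617592) (l 16603776)) (c (l 16622016) (l 16614008))) (c (a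 (l 16601056) (l 16587224)) (c (l 16605920) (l 16598216))))) (a (b (c (b (l 16658536) (l 16650728)) (a (l 16663024) (l 16655448))) (c (c (l 16627488) (l 16640496)) (l 16644488))) (b (c (l 16638912) (l 16644568)) (c (l 16623608) (l 16629960)))))), by decide +kernel⟩

def k14_pm_012_s : ∃ t, chk3 f_pm_012_s t 18 63 1 = true :=
  ⟨(a (c (b (b (a (a (l 16655424) (l 16643592)) (a (l 16631888) (l 16622944))) (a (c (a (l 16650840) (l 16641560)) (l 16639264)) (a (l 16623952) (l 16615104)))) (a (c (b (a (l 16642552) (l 16633432)) (a (l 16634352) (l 16625400))) (b (l 16631480) (l 16623880))) (b (a (l 16616160) (l 16606120)) (c (a (l 16616512) (l 16607704)) (l 16607000))))) (b (a (a (b (l 16667288) (l 16659848)) (c (l 16653152) (l 16657424))) (c (c (l 16628992) (l 16641888)) (b (l 16649160) (l 16642312)))) (a (b (c (l 16646328) (l 16651056)) (c (l 16639280) (l 16644592))) (b (c (l 16630048) (l 16635800)) (c (l 16623344) (l 16629688)))))) (c (b (b (a (a (l 16614144) (l 16600248))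 (a (l 16586520) (l 16578200))) (a (a (l 16601144) (l 16592568)) (c (l 16574304) (l 16598920)))) (b (a (a (l 16596200) (l 16585096)) (c (l 16565384) (l 16591800))) (a (a (l 16589504) (l 16579168)) (a (l 16569600) (l 16556224))))) (b (a (c (b (l 16628160) (l 16621088)) (l 16630640)) (c (l 16606560) (l 16616368))) (a (c (b (l 16614312) (l 16607896)) (l 16618176)) (c (b (l 16599176) (l 16592984)) (l 16604312)))))), by decide +kernel⟩

def k15_pm_012_s : ∃ t, chk3 f_pm_012_s t 19 30 1 = true :=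
  ⟨(b (a (a (c (b (a (l 16686872) (l 16679304)) (a (l 16670304) (l 16662816))) (b (l 16669424) (a (l 16678368) (l 16671872)))) (c (b (a (l 16671872) (l 16664568)) (a (l 16655432) (l 16648184))) (b (l 16677496) (l 16641432)))) (c (a (b (l 16653848) (l 16637544)) (b (l 16639960) (l 16623760))) (a (a (l 16618880) (l 16612944)) (b (l 16653552) (l 16638824))))) (a (c (a (b (a (l 16642696) (l 16645552)) (c (a (l 16633544) (l 16625552)) (l 16624104))) (b (c (l 16610912) (l 16637320)) (c (l 16603592) (l 16599184)))) (a (b (a (l 16662504) (l 16655896)) (c (l 16640176) (l 16646264))) (b (a (l 16649584) (l 16643528)) (c (l 16626824) (l 16634088))))) (c (a (b (c (l 16617328) (l 16623792)) (a (l 16585424) (l 16578592))) (b (c (l 16603144) (l 16610688)) (b (l 16572864) (l 16564160)))) (a (b (l 16634680) (c (l 16614384) (l 16622896))) (b (l 16623384) (l 16586584)))))), by decide +kernel⟩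

def k16_pm_012_s : ∃ t, chk3 f_pm_012_s t 19 31 1 = true :=
  ⟨(b (a (c (a (b (c (c (l 16595248) (l 16592696)) (l 16612736)) (c (a (l 16599800) (l 16591608)) (l 16595416))) (b (c (a (l 16600376) (l 16592720)) (l 16582232)) (c (a (l 16583616) (l 16575840)) (l 16576552)))) (a (b (c (l 16624200) (l 16630984)) (c (l 16598384) (l 16616376))) (b (c (l 16589560) (l 16618520)) (c (l 16574096) (l 16603808))))) (c (a (b (c (l 16560760) (l 16568528)) (c (l 16544936) (l 16552056))) (b (a (l 16554400) (l 16547880)) (c (b (l 16554696) (l 16546288)) (l 16539080)))) (a (b (a (l 16605440) (l 16599704)) (a (l 16590112) (l 16584296))) (b (a (l 16594240) (l 16589000)) (a (l 16578824) (l 16573504)))))) (a (c (b (a (c (a (l 16583896) (l 16575696)) (b (l 16590536) (l 16583224))) (c (a (l 16567672) (l 16559848)) (l 16556136))) (a (c (b (l 16568424) (l 16561160)) (b (l 16576216) (l 16569552))) (c (b (l 16552432) (l 16545240)) (b (l 16561312) (l 16554736))))) (b (a (c (l 16584064) (l 16602928))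 (c (l 16559768) (l 16569408))) (a (c (l 16571144) (l 16570184)) (c (l 16546984) (l 16578776))))) (c (b (a (c (b (l 16552416) (l 16544624)) (l 16536752)) (c (b (l 16538032) (l 16530152)) (l 16523496))) (a (c (b (l 16537136) (l 16529968)) (l 16522848)) (c (b (l 16522600) (l 16515400)) (l 16509488)))) (b (a (b (l 16576552) (l 16569976)) (a (l 16564632) (l 16559240))) (a (b (l 16563888) (l 16558344)) (b (l 16552528) (l 16546984))))))), by decide +kernel⟩

def k17_pm_012_s : ∃ t, chk3 f_pm_012_s t 5 2 1 = true :=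
  ⟨(b (a (a (a (l 3) (l 2)) (l 2)) (l 2)) (a (a (a (b (l 3) (a (l 3) (b (l 3) (a (b (l 3) (l 16770272)) (b (l 16771672) (l 16775056)))))) (a (b (b (l 3) (a (l 3) (l 16802736))) (b (a (a (l 16789152) (l 16773920)) (c (l 16774592) (l 16774592))) (a (b (l 16774088) (l 16769112)) (b (l 16767840) (l 16763096))))) (a (b (b (a (l 3) (l 16775832)) (c (l 16796760) (l 16796840))) (b (b (l 16770592) (l 16766384)) (b (l 16761392) (l 16756568)))) (b (b (l 16774752) (l 16770056)) (b (l 16762240) (l 16731392)))))) (b (b (b (l 2) (l 16749944)) (a (b (l 16757920) (l 16754312)) (b (l 16737040) (l 16732728)))) (b (b (a (l 16749544) (l 16727112)) (a (l 16744272) (l 16720368))) (b (a (l 16738264) (l 16713128)) (a (l 16732912) (l 16706272)))))) (b (b (l 2) (a (c (l 16641480) (l 16662280)) (l 2))) (b (a (b (l 16653512) (l 16645760)) (b (l 2) (l 16647496))) (a (b (l 16616016) (l 16627832)) (b (l 16637112) (l 16626640))))))), by decide +kernel⟩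

def k18_pm_012_s : ∃ t, chk3 f_pm_012_s t 10 6 1 = true :=
  ⟨(a (a (b (a (b (b (l 160692201303) (a (l 16771080) (l 16775088))) (b (a (l 16774168) (l 16769056)) (a (l 16767608) (l 16762752)))) (c (b (b (l 16772696) (l 16767200)) (b (l 16761416) (l 16755168))) (b (b (l 16772384) (l 16767608)) (b (l 16762152) (l 16756344))))) (a (b (b (l 16758320) (l 16741656)) (b (c (l 16740616) (l 16743472)) (c (l 16708280) (l 16733168)))) (b (b (l 16728136) (a (l 16744000) (l 16739392))) (b (a (l 16735320) (l 16709408)) (c (b (l 16721952) (l 16693392)) (l 16723064)))))) (a (b (b (a (b (l 16764504) (l 16759496)) (b (l 16758648) (l 16753856))) (b (a (l 16754144) (l 16748664)) (a (l 16748304) (l 16742944)))) (b (b (a (l 16741808) (l 16736472)) (a (l 16734432) (l 16728680))) (b (a (l 16693264) (l 16718448)) (c (l 16705056) (l 16711984))))) (a (b (b (b (l 16752320) (l 16747736)) (b (l 16742728) (l 16737072))) (b (b (l 16730368) (l 16722128)) (b (l 16711936) (l 16678072)))) (b (b (b (l 16745640)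 (a (l 16742912) (l 16739584))) (a (b (l 16737944) (l 16732112)) (b (l 16734448) (l 16728360)))) (b (b (a (l 16725032) (l 16721344)) (a (l 16716800) (l 16713192))) (b (a (l 16706728) (l 16661272)) (a (l 16652040) (l 16648616)))))))) (a (b (b (b (l 16728552) (l 16724888)) (b (l 16720200) (l 16714696))) (b (b (c (l 16706472) (l 16710384)) (c (l 16676848) (l 16704000))) (b (c (l 16666184) (l 16695960)) (c (l 16652696) (l 16685392))))) (b (b (b (l 16701720) (l 16677128)) (b (l 16694752) (l 16669440))) (b (b (l 16685112) (l 16678664)) (c (b (l 16666520) (l 16653984)) (b (l 16653800) (l 16644472))))))), by decide +kernel⟩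

def k19_pm_012_s : ∃ t, chk3 f_pm_012_s t 11 6 1 = true :=
  ⟨(b (b (a (b (l 16621224) (a (l 16671720) (l 16645920))) (b (l 16617976) (l 16610592))) (a (b (a (l 16668504) (l 16642672)) (a (l 16665488) (l 16639760))) (b (c (l 16608440) (l 16602672)) (a (l 16614440) (l 16589656))))) (b (a (b (c (l 16628024) (l 16608160)) (c (l 16601104) (l 16646888))) (b (a (l 16611824) (l 16587008)) (a (l 16609184) (l 16584536)))) (a (b (c (l 16593072) (l 16642032)) (c (a (l 16634056) (l 16613776)) (l 16634704))) (b (a (l 16604560) (l 16581320)) (c (l 16582504) (l 16570240)))))), by decide +kernel⟩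

def k20_pm_012_s : ∃ t, chk3 f_pm_012_s t 5 14 1 = true :=
  ⟨(a (a (a (b (a (b (c (b (l 16697672) (l 16710008)) (l 16688184)) (c (b (l 16700312) (l 16690080)) (l 16703144))) (b (c (l 16659296) (l 16708528)) (c (l 16639928) (l 16670888)))) (b (c (a (b (l 16679232) (l 16667792)) (b (l 16665848) (l 16654432))) (a (l 16642472) (l 16652336))) (c (a (b (l 16655400) (l 16641568)) (b (l 16642088) (l 16628320))) (a (l 16620352) (l 16630456))))) (b (a (b (c (l 16667080) (l 16697584)) (c (l 16647608) (l 16660024))) (a (b (c (l 16677904) (l 16689488)) (l 16623440)) (b (c (a (l 16672248) (l 16668376)) (l 16663056)) (a (l 16602832) (c (l 16648936) (l 16666328)))))) (a (b (c (l 16605144) (l 16641648)) (c (b (l 16628880) (l 16615184)) (l 16620016))) (a (b (c (l 16636968) (l 16654816)) (c (l 16612136) (l 16633368))) (c (b (a (l 16631336) (l 16627488)) (a (l 16606560) (l 16602760))) (b (l 16607616) (l 16586304))))))) (b (b (a (c (a (l 16661888) (l 16652584)) (l 16672016)) (c (l 16638528)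 (l 16632536))) (a (c (b (l 16643152) (l 16632936)) (l 16614384)) (b (l 16591496) (l 16561448)))) (b (c (a (b (l 16622088) (l 16610760)) (l 16557128)) (a (l 16596464) (l 16600728))) (c (a (b (l 16598584) (l 16585048)) (l 16553472)) (a (l 16575440) (l 16580152)))))) (b (a (c (b (a (l 16619616) (l 16600432)) (a (l 16602216) (l 16584104))) (b (l 16624768) (a (l 16621120) (l 16602888)))) (c (b (l 16570944) (l 16535400)) (b (l 16563152) (l 16532528)))) (a (c (b (a (l 16581880) (l 16564952)) (a (l 16557864) (l 16541624))) (b (a (l 16584136) (l 16588488)) (a (l 16585568) (l 16570048)))) (c (b (l 16497048) (l 16475608)) (b (l 16520400) (l 16546408)))))), by decide +kernel⟩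

def k21_pm_012_s : ∃ t, chk3 f_pm_012_s t 20 15 1 = true :=
  ⟨(b (a (b (c (a (b (l 16626480) (l 16610384)) (b (l 16613312) (l 16597336))) (a (b (l 16642416) (l 16627864)) (l 16582720))) (c (a (b (l 16593584) (c (l 16571800) (l 16581216))) (b (l 16580672) (c (l 16558440) (l 16569096)))) (a (b (l 16612632) (l 16597024)) (b (l 16602368) (l 16586984))))) (a (b (c (b (l 16600272) (l 16584408)) (l 16572600)) (c (b (l 16567880) (l 16530048)) (b (l 16592528) (l 16577368)))) (c (b (a (l 16582528) (a (l 16577056) (l 16573328))) (a (b (l 16558176) (l 16541456)) (a (l 16544464) (l 16540840)))) (b (a (l 16607160) (l 16581232)) (a (l 16556888) (l 16510200)))))) (a (b (c (a (b (c (l 16554272) (l 16564384)) (a (l 16524496) (l 16518280))) (b (c (l 16541088) (l 16552472)) (c (l 16524080) (l 16536208)))) (a (b (l 16581344) (a (l 16568448) (l 16563600))) (b (l 16571552) (l 16556504)))) (c (a (c (b (b (l 16524544) (l 16516584)) (b (l 16508864) (l 16501592))) (b (l 16532192) (l 16517936)))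 (b (a (l 16496032) (l 16490080)) (a (c (l 16495432) (l 16509192)) (l 16475176)))) (b (a (a (l 16554184) (l 16549264)) (a (l 16544600) (l 16540128))) (a (a (l 16541744) (l 16536776)) (a (l 16532120) (l 16527592)))))) (a (b (c (b (a (l 16537384) (l 16531192)) (c (l 16511200) (l 16524736))) (b (l 16562176) (l 16547400))) (c (b (c (l 16495040) (l 16509464)) (a (l 16469336) (l 16463568))) (b (l 16533560) (l 16479224)))) (c (a (b (b (l 16524816) (l 16508592)) (b (l 16493080) (l 16457648))) (b (a (b (l 16519648) (l 16503544)) (b (l 16516136) (l 16500120))) (a (b (l 16488168) (l 16473864)) (b (l 16484840) (l 16449664))))) (b (a (l 16526976) (a (l 16544552) (l 16542312))) (a (b (l 16527168) (l 16515096)) (a (l 16496728) (l 16494640)))))))), by decide +kernel⟩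

def k22_pm_012_s : ∃ t, chk3 f_pm_012_s t 21 15 1 = true :=
  ⟨(b (b (c (a (b (l 16570344) (l 16554752)) (l 16545256)) (a (l 16570728) (l 16576024))) (c (a (b (l 16538552) (l 16522088)) (l 16450264)) (a (l 16521104) (l 16527088)))) (c (b (a (b (l 16505744) (l 16468888)) (a (l 16484984) (l 16476856))) (a (b (l 16453768) (c (l 16451400) (l 16470464))) (b (l 16437344) (l 16423600)))) (b (a (l 16471000) (l 16477808)) (a (b (l 16513808) (l 16502248)) (l 16431672))))), by decide +kernel⟩

def k23_pm_012_s : ∃ t, chk3 f_pm_012_s t 11 15 1 = true :=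
  ⟨(b (a (c (b (a (l 16528840) (l 16513312)) (a (l 16497024) (l 16481768))) (b (l 16470168) (a (l 16533800) (l 16520152)))) (c (b (l 16406472) (a (l 16467344) (l 16453136))) (b (l 16524856) (l 16437664)))) (a (c (b (a (a (l 16468968) (l 16461312)) (l 16429320)) (a (a (l 16418704) (l 16432280)) (a (l 16425104) (l 16418152)))) (b (a (l 16485368) (l 16493560)) (a (l 16440232) (l 16449448)))) (c (b (a (l 16436256) (l 16422984)) (a (l 16345224) (l 16374416))) (b (a (l 16481320) (l 16469520)) (a (l 16459216) (l 16448456)))))), by decide +kernel⟩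

def k24_pm_012_s : ∃ t, chk3 f_pm_012_s t 3 1 1 = true :=
  ⟨(a (b (b (l 2) (b (l 2) (a (b (l 2) (a (l 16530176) (l 2))) (l 2)))) (a (b (b (b (a (b (l 16577456) (l 16568840)) (l 16535384)) (a (a (l 16547992) (l 16527336)) (b (l 16522640) (l 16494456)))) (a (b (b (l 16551312) (a (l 16560240) (l 16536432))) (c (b (l 16544880) (l 16538160)) (l 16566336))) (a (b (l 16495608) (l 16445768)) (b (l 16475736) (l 16485704))))) (b (b (a (c (b (l 16529480) (l 16517464)) (l 16558296)) (c (b (l 16485520) (l 16475504)) (l 16491096))) (a (c (b (l 16502632) (l 16483752)) (b (l 16503744) (l 16491120))) (c (b (l 16463720) (l 6)) (l 16489744)))) (b (a (c (b (l 16438600) (l 16347984)) (b (l 16452400) (l 16473304))) (l 6)) (l 6)))) (a (b (a (b (b (l 2) (l 16491488)) (b (l 16456472) (l 16464856))) (b (l 2) (l 6))) (l 6)) (b (l 6) (l 6))))) (b (l 2) (l 6))), by decide +kernel⟩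

theorem s25_pm_012_s : ∃ t, chk3 f_pm_012_s t 10 15 1 = true := ex3_a k21_pm_012_s k22_pm_012_s

theorem s26_pm_012_s : ∃ t, chk3 f_pm_012_s t 5 15 1 = true := ex3_a s25_pm_012_s k23_pm_012_s

theorem s27_pm_012_s : ∃ t, chk3 f_pm_012_s t 5 7 1 = true := ex3_b k20_pm_012_s s26_pm_012_s

theorem s28_pm_012_s : ∃ t, chk3 f_pm_012_s t 5 6 1 = true := ex3_a k18_pm_012_s k19_pm_012_s

theorem s29_pm_012_s : ∃ t, chk3 f_pm_012_s t 5 3 1 = true := ex3_b s28_pm_012_s s27_pm_012_s

theorem s30_pm_012_s : ∃ t, chk3 f_pm_012_s t 5 1 1 = true := ex3_b k17_pm_012_s s29_pm_012_s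

theorem s31_pm_012_s : ∃ t, chk3 f_pm_012_s t 19 15 1 = true := ex3_b k15_pm_012_s k16_pm_012_s

theorem s32_pm_012_s : ∃ t, chk3 f_pm_012_s t 18 31 1 = true := ex3_b k13_pm_012_s k14_pm_012_s

theorem s33_pm_012_s : ∃ t, chk3 f_pm_012_s t 18 30 1 = true := ex3_a k11_pm_012_s k12_pm_012_s

theorem s34_pm_012_s : ∃ t, chk3 f_pm_012_s t 18 15 1 = true := ex3_b s33_pm_012_s s32_pm_012_s

theorem s35_pm_012_s : ∃ t, chk3 f_pm_012_s t 9 15 1 = true := ex3_a s34_pm_012_s s31_pm_012_s

theorem s36_pm_012_s : ∃ t, chk3 f_pm_012_s t 9 14 1 = true := ex3_a k9_pm_012_s k10_pm_012_s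

theorem s37_pm_012_s : ∃ t, chk3 f_pm_012_s t 9 7 1 = true := ex3_b s36_pm_012_s s35_pm_012_s

theorem s38_pm_012_s : ∃ t, chk3 f_pm_012_s t 17 62 1 = true := ex3_a k6_pm_012_s k7_pm_012_s

theorem s39_pm_012_s : ∃ t, chk3 f_pm_012_s t 17 31 1 = true := ex3_b s38_pm_012_s k8_pm_012_s

theorem s40_pm_012_s : ∃ t, chk3 f_pm_012_s t 17 30 1 = true := ex3_a k4_pm_012_s k5_pm_012_s

theorem s41_pm_012_s : ∃ t, chk3 f_pm_012_s t 17 15 1 = true := ex3_b s40_pm_012_s s39_pm_012_s

theorem s42_pm_012_s : ∃ t, chk3 f_pm_012_s t 8 15 1 = true := ex3_a k3_pm_012_s s41_pm_012_s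

theorem s43_pm_012_s : ∃ t, chk3 f_pm_012_s t 8 7 1 = true := ex3_b k2_pm_012_s s42_pm_012_s

theorem s44_pm_012_s : ∃ t, chk3 f_pm_012_s t 4 7 1 = true := ex3_a s43_pm_012_s s37_pm_012_s

theorem s45_pm_012_s : ∃ t, chk3 f_pm_012_s t 4 3 1 = true := ex3_b k1_pm_012_s s44_pm_012_s

theorem s46_pm_012_s : ∃ t, chk3 f_pm_012_s t 4 1 1 = true := ex3_b k0_pm_012_s s45_pm_012_s

theorem s47_pm_012_s : ∃ t, chk3 f_pm_012_s t 2 1 1 = true := ex3_a s46_pm_012_s s30_pm_012_s

theorem s48_pm_012_s : ∃ t, chk3 f_pm_012_s t 1 1 1 = true := ex3_a s47_pm_012_s k24_pm_012_s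

theorem c_pm_012_s : CertNE 0 536870912 536870912 536870912 923417968 42949674 3 eng mog cd0q0 cd0q1 pd2 true true false .pnp 0 1 2
    ndB0q0 ndB0q1 pcB2 cut_pm_012_s Ext.none :=
  certNE2 (fam := true) (s1 := true) (s2 := false) (a := 0) (b := 1) (c := 2) (cn := .pnp) (n1 := ndB0q0) (n2 := ndB0q1) (pc := pcB2) (cut := cut_pm_012_s) (xt := Ext.none) (P1 := 0) (W1 := 536870912) (P2 := 536870912) (W2 := 536870912) (P3 := 923417968) (W3 := 42949674) (N0 := 3) (En := eng) (mo := mog) (C1 := cd0q0) (C2 := cd0q1) (C3 := pd2)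
    rfl (fun _ => rfl) s48_pm_012_s

noncomputable def cut_pm_012_t : Cut := Cut.of [[⟨3, 0, 0, 2845415833⟩], [⟨0, 0, 0, 67108864⟩, ⟨1, 1, 0, 67108864⟩, ⟨2, 1, 0, 67108864⟩]]

noncomputable def f_pm_012_t : ℕ → ℕ → ℕ → ℕ → Bool := onCell 0 536870912 536870912 536870912 923417968 42949674
    (rowNE 3 eng mog cd0q0 cd0q1 pd2 0 true true false .pnp 0 1 2 (qsf 0 536870912 536870912 536870912 2) ndB0q0 ndB0q1 pcB2 cut_pm_012_t Ext.none)

def k0_pm_012_t : ∃ t, chk3 f_pm_012_t t 1 1 1 = true :=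
  ⟨(l 6), by decide +kernel⟩

theorem c_pm_012_t : CertNE 0 536870912 536870912 536870912 923417968 42949674 3 eng mog cd0q0 cd0q1 pd2 true true false .pnp 0 1 2
    ndB0q0 ndB0q1 pcB2 cut_pm_012_t Ext.none :=
  certNE0 (fam := true) (s1 := true) (s2 := false) (a := 0) (b := 1) (c := 2) (cn := .pnp) (n1 := ndB0q0) (n2 := ndB0q1) (pc := pcB2) (cut := cut_pm_012_t) (xt := Ext.none) (P1 := 0) (W1 := 536870912) (P2 := 536870912) (W2 := 536870912) (P3 := 923417968) (W3 := 42949674) (N0 := 3) (En := eng) (mo := mog) (C1 := cd0q0) (C2 := cd0q1) (C3 := pd2)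
    rfl k0_pm_012_t

noncomputable def cut_pm_022_s : Cut := Cut.of [[⟨4, 0, 0, 1449551462⟩], [⟨0, 0, 0, 67108864⟩, ⟨1, 1, 0, 67108864⟩, ⟨2, 1, 0, 67108864⟩]]

noncomputable def f_pm_022_s : ℕ → ℕ → ℕ → ℕ → Bool := onCell 1073741824 536870912 0 536870912 923417968 42949674
    (rowNE 3 eng mog cd0q0 cd0q2 pd2 2 true true false .pp 0 2 2 (qsf 0 536870912 0 536870912 2) ndB0q0 ndB0q2 pcB2 cut_pm_022_s Ext.none)

def k0_pm_022_s : ∃ t, chk3 f_pm_022_s t 4 2 1 = true :=
  ⟨(a (l 1) (l 6)), by decide +kernel⟩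

def k1_pm_022_s : ∃ t, chk3 f_pm_022_s t 8 3 1 = true :=
  ⟨(b (l 1) (b (a (l 1) (b (a (l 1) (b (l 1) (a (l 1) (a (b (l 1) (l 14)) (a (b (b (l 1) (l 14)) (l 14)) (c (b (c (l 16498448) (l 16473408)) (c (l 16516496) (l 16492576))) (b (b (l 16439032) (l 114386405575)) (b (l 16449168) (l 16459952))))))))) (a (l 14) (a (l 14) (a (l 14) (a (l 14) (b (c (b (l 16503344) (l 16544880)) (b (l 16484552) (l 16499936))) (c (b (l 16566264) (l 16588344)) (b (l 16524152) (l 16549232)))))))))) (a (l 14) (a (l 14) (a (l 14) (a (l 14) (a (l 14) (b (b (c (l 16580664) (l 16546336)) (c (l 16627440) (l 16621064))) (b (l 16637128) (b (l 16630312) (c (l 16647840) (l 16658896)))))))))))), by decide +kernel⟩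

def k2_pm_022_s : ∃ t, chk3 f_pm_022_s t 9 6 1 = true :=
  ⟨(a (b (l 1) (b (a (l 1) (b (a (l 1) (c (l 16294264) (a (l 1) (l 16227232)))) (a (c (b (l 1) (l 16337344)) (l 16302632)) (c (a (l 16330392) (l 16332856)) (c (l 16280528) (l 16244584)))))) (a (a (l 1) (b (a (l 1) (c (b (l 1) (l 16379144)) (l 16345304))) (c (c (b (l 16438312) (a (l 16441544) (l 16441120))) (b (l 16407912) (a (l 16411664) (l 16410512)))) (a (b (l 16339624) (c (l 16380344) (l 16347600))) (b (l 16337776) (l 16382792)))))) (c (b (a (a (b (l 16357720) (l 16379608)) (l 16406344)) (a (l 16370896) (l 16372408))) (a (a (b (l 16402200) (l 16425504)) (b (l 16402464) (l 16425264))) (c (l 16430560) (l 16397744)))) (a (b (a (b (l 16291704) (l 16313608)) (l 16344272)) (a (b (l 16336336) (l 16359872)) (b (l 16335280) (l 16358296)))) (b (a (l 16302400) (l 16302832)) (c (l 16363296) (l 16327208)))))))) (b (l 6) (b (a (a (c (b (l 16301544) (l 16337024)) (b (c (l 16249584) (l 16213016)) (l 16224392))) (b (l 6) (c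 (l 16343432) (l 16271280)))) (l 6)) (a (c (b (a (l 16375128) (l 16379560)) (a (l 16405360) (l 16418184))) (b (a (l 16304112) (l 16306912)) (a (l 16323856) (l 16345336)))) (c (b (l 16366696) (l 16423064)) (b (l 16271120) (l 16326864))))))), by decide +kernel⟩

def k3_pm_022_s : ∃ t, chk3 f_pm_022_s t 36 14 1 = true :=
  ⟨(b (b (b (a (a (l 1) (a (b (l 1) (c (l 16454488) (l 16395504))) (c (b (b (l 16443144) (l 16447784)) (l 16454056)) (c (l 16415416) (l 16373344))))) (c (a (b (c (l 16459288) (l 16429640)) (l 16453512)) (b (c (l 16458824) (l 16428424)) (l 16452944))) (a (b (c (l 16398552) (l 16366008)) (l 16392368)) (b (l 16380016) (l 16390184))))) (a (c (a (c (b (l 16476928) (l 16485232)) (b (l 16449944) (l 16458776))) (c (l 16470192) (l 16453144))) (a (c (b (l 16421672) (l 16431048)) (l 16418032)) (c (l 133713727111) (l 16394080)))) (c (a (c (l 16480456) (l 16452160)) (l 16466064)) (a (c (l 16422472) (l 16391400)) (l 16405152))))) (a (c (b (a (a (c (l 16498264) (l 16472816))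 (c (l 16498120) (l 16472288))) (c (l 16497968) (l 16471576))) (a (c (l 16516360) (l 16491888)) (l 16488152))) (b (a (c (b (l 16440704) (l 16450680)) (b (l 16412288) (l 16422880))) (c (l 16443904) (l 16414936))) (a (c (l 16466232) (l 16439384)) (l 16434024)))) (c (b (a (l 16484528) (l 16484288)) (a (l 16503656) (l 16503576))) (b (a (l 16406680) (l 16425960)) (a (l 16449408) (l 16447968)))))) (b (a (c (b (a (l 16513568) (l 16523832)) (a (l 16544744) (l 16544680))) (b (a (c (l 16487936) (l 16462440)) (l 16473712)) (a (l 16498776) (l 16497408)))) (c (b (l 16513280) (l 16544816)) (b (l 16461184) (l 16495688)))) (b (c (a (l 16566248) (l 16566616)) (a (l 16522584) (l 16520600))) (c (a (l 16588488) (l 16589048)) (a (l 16547928) (l 16546280)))))), by decide +kernel⟩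

def k4_pm_022_s : ∃ t, chk3 f_pm_022_s t 37 14 1 = true :=
  ⟨(b (c (b (a (b (a (c (l 16463048) (l 16432192)) (l 16447472)) (l 16449360)) (b (c (l 16463240) (l 16430816)) (l 16465864))) (a (c (l 16486792) (l 16458744)) (l 16499664))) (b (a (b (a (l 16403992) (l 16381264)) (l 16381688)) (b (l 16358096) (l 16400120))) (a (a (l 16435568) (l 16434416)) (l 16432992)))) (b (c (a (b (l 16524136) (l 16545392)) (l 16535632)) (a (a (l 16482168) (l 16481352)) (l 16480352))) (c (a (l 16536720) (l 16558792)) (a (l 16532088) (l 16531072))))), by decide +kernel⟩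

def k5_pm_022_s : ∃ t, chk3 f_pm_022_s t 19 14 1 = true :=
  ⟨(b (a (a (c (b (b (l 16447560) (l 16466512)) (l 16495376)) (b (l 16377152) (l 16431632))) (c (b (l 16458016) (l 16496688)) (b (l 16386488) (l 16430728)))) (c (b (a (l 16459528) (l 16461440)) (l 16499136)) (b (a (l 16385944) (l 16385880)) (l 16429912)))) (a (c (b (c (l 16551192) (l 16523464)) (l 16497872)) (b (a (l 16479376) (l 16478664)) (l 16466928))) (b (c (l 16498840) (l 16456800)) (c (l 16521800) (l 16465296))))), by decide +kernel⟩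

def k6_pm_022_s : ∃ t, chk3 f_pm_022_s t 9 15 1 = true :=
  ⟨(c (b (a (a (b (a (a (l 16580856) (l 16581184)) (l 16560816)) (b (l 16606008) (l 16640168))) (b (c (l 16592832) (l 16573576)) (l 16609520))) (a (b (l 16564832) (l 16568264)) (b (l 16587992) (l 16542152)))) (a (b (a (a (l 16617880) (l 16602816)) (a (l 16587816) (l 16572968))) (a (b (a (l 16613088) (l 16596936)) (a (a (b (l 16645920) (l 16616040)) (c (l 16630144) (l 16635968))) (a (b (l 16629208) (l 16598984)) (b (l 16620928) (l 16590552))))) (b (a (l 16580968) (l 16586248)) (b (a (l 16608640) (l 16592576)) (a (c (l 16595576) (l 16602632)) (c (l 16578784) (l 16586856))))))) (b (a (a (l 16558360) (l 16544096)) (c (l 16515216) (l 16532088))) (a (a (b (l 16570944) (c (l 16556776) (l 16576816))) (b (l 16577064) (c (l 16530568) (l 16562200)))) (a (b (l 16562744) (c (l 16536392) (l 16548216))) (b (l 16549016) (c (l 16521896) (l 16534920)))))))) (b (a (a (b (a (b (l 16573968) (l 16600576)) (l 16544104)) (a (l 16599432)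 (l 16598496))) (b (a (l 16564056) (l 16563160)) (b (l 16583288) (l 16631624)))) (a (b (a (l 16562224) (l 16540232)) (b (l 16581000) (l 16628944))) (b (l 16496360) (l 16569856)))) (a (b (a (a (l 16654272) (l 16626112)) (a (l 16613184) (l 16600552))) (a (a (b (l 16649792) (a (l 16632192) (l 16624624))) (b (l 16635552) (a (l 16617168) (l 16609824)))) (b (a (l 16621664) (l 16608216)) (a (c (l 16615728) (l 16624424)) (c (l 16601176) (l 16611064)))))) (b (a (a (l 16588304) (l 16576456)) (a (l 16565104) (l 16554320))) (b (a (a (l 16595232) (l 16582800)) (a (l 16591952) (l 16580824))) (a (a (c (l 16587160) (l 16598296)) (l 16537912)) (a (l 16525856) (l 16535536)))))))), by decide +kernel⟩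

def k7_pm_022_s : ∃ t, chk3 f_pm_022_s t 5 2 1 = true :=
  ⟨(l 6), by decide +kernel⟩

def k8_pm_022_s : ∃ t, chk3 f_pm_022_s t 5 6 1 = true :=
  ⟨(a (b (l 6) (a (a (a (b (l 6) (c (l 16413416) (l 16273768))) (l 6)) (l 6)) (l 6))) (l 6)), by decide +kernel⟩

def k9_pm_022_s : ∃ t, chk3 f_pm_022_s t 10 7 1 = true :=
  ⟨(b (b (b (a (a (c (l 16464888) (a (l 16386184) (l 16386744))) (a (c (l 16468904) (l 16387488)) (l 6))) (l 6)) (a (a (c (l 16502984) (l 16429208)) (a (l 16363448) (a (l 16405848) (a (l 16406040) (l 16364160))))) (l 6))) (b (a (a (c (l 16502232) (l 16434552)) (a (l 16406920) (a (l 16427912) (a (l 16427904) (l 16427872))))) (a (a (l 16427320) (l 16404984)) (l 6))) (a (a (a (l 16452688) (l 16452544)) (a (l 16452080) (a (l 16451496) (a (l 16451208) (l 16450976))))) (a (l 16406504) (l 16399704))))) (b (b (a (a (a (l 16479304) (l 16478344)) (a (l 16476944) (a (l 16517536) (b (l 16484448) (l 16506648))))) (a (l 16470336) (l 16460584))) (a (a (a (l 16504688) (l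 16494144)) (a (l 16484128) (a (l 16497904) (a (l 16494280) (l 16470928))))) (c (b (l 16499168) (l 16457688)) (l 16485344)))) (c (a (a (a (b (l 16525064) (b (l 16535944) (a (l 16497344) (l 16490944)))) (b (l 16512832) (b (l 16523544) (a (l 16484728) (l 16499672))))) (b (a (l 16480192) (a (l 16534640) (a (l 16530312) (l 16527344)))) (a (b (l 16511784) (a (l 16493864) (l 16488120))) (a (b (l 16503304) (l 16482336)) (a (l 16425296) (l 16422288)))))) (b (a (l 16454976) (l 16460944)) (a (b (l 16486288) (l 16464928)) (b (l 16470720) (l 16449072))))) (b (a (a (a (l 16544168) (l 16534712)) (a (l 16526000) (a (l 16540928) (l 16516176)))) (a (l 16508080) (l 16517680))) (a (a (a (a (l 16497776) (l 16492776)) (b (l 16560888) (l 16515512))) (a (a (l 16500168) (l 16495992)) (a (l 16492024) (a (l 16510040) (l 16508168))))) (a (l 16458896) (l 16467600))))))), by decide +kernel⟩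

def k10_pm_022_s : ∃ t, chk3 f_pm_022_s t 11 7 1 = true :=
  ⟨(b (l 6) (b (a (a (c (l 16425840) (l 16473728)) (l 6)) (l 6)) (b (a (c (a (l 16467776) (l 16454544)) (l 16439016)) (l 6)) (a (a (c (l 16361288) (l 16456120)) (c (l 16389456) (l 16445304))) (c (a (l 16397488) (l 6)) (l 16367248)))))), by decide +kernel⟩

def k11_pm_022_s : ∃ t, chk3 f_pm_022_s t 3 1 1 = true :=
  ⟨(b (l 6) (l 6)), by decide +kernel⟩

theorem s12_pm_022_s : ∃ t, chk3 f_pm_022_s t 5 7 1 = true := ex3_a k9_pm_022_s k10_pm_022_s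

theorem s13_pm_022_s : ∃ t, chk3 f_pm_022_s t 5 3 1 = true := ex3_b k8_pm_022_s s12_pm_022_s

theorem s14_pm_022_s : ∃ t, chk3 f_pm_022_s t 5 1 1 = true := ex3_b k7_pm_022_s s13_pm_022_s

theorem s15_pm_022_s : ∃ t, chk3 f_pm_022_s t 18 14 1 = true := ex3_a k3_pm_022_s k4_pm_022_s

theorem s16_pm_022_s : ∃ t, chk3 f_pm_022_s t 9 14 1 = true := ex3_a s15_pm_022_s k5_pm_022_s

theorem s17_pm_022_s : ∃ t, chk3 f_pm_022_s t 9 7 1 = true := ex3_b s16_pm_022_s k6_pm_022_s

theorem s18_pm_022_s : ∃ t, chk3 f_pm_022_s t 9 3 1 = true := ex3_b k2_pm_022_s s17_pm_022_s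

theorem s19_pm_022_s : ∃ t, chk3 f_pm_022_s t 4 3 1 = true := ex3_a k1_pm_022_s s18_pm_022_s

theorem s20_pm_022_s : ∃ t, chk3 f_pm_022_s t 4 1 1 = true := ex3_b k0_pm_022_s s19_pm_022_s

theorem s21_pm_022_s : ∃ t, chk3 f_pm_022_s t 2 1 1 = true := ex3_a s20_pm_022_s s14_pm_022_s

theorem s22_pm_022_s : ∃ t, chk3 f_pm_022_s t 1 1 1 = true := ex3_a s21_pm_022_s k11_pm_022_s

theorem c_pm_022_s : CertNE 0 536870912 0 536870912 923417968 42949674 3 eng mog cd0q0 cd0q2 pd2 true true false .pp 0 2 2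
    ndB0q0 ndB0q2 pcB2 cut_pm_022_s Ext.none :=
  certNE2 (fam := true) (s1 := true) (s2 := false) (a := 0) (b := 2) (c := 2) (cn := .pp) (n1 := ndB0q0) (n2 := ndB0q2) (pc := pcB2) (cut := cut_pm_022_s) (xt := Ext.none) (P1 := 0) (W1 := 536870912) (P2 := 0) (W2 := 536870912) (P3 := 923417968) (W3 := 42949674) (N0 := 3) (En := eng) (mo := mog) (C1 := cd0q0) (C2 := cd0q2) (C3 := pd2)
    rfl (fun _ => rfl) s22_pm_022_s

noncomputable def cut_pm_022_t : Cut := Cut.of [[⟨3, 0, 0, 2845415833⟩], [⟨0, 0, 0, 67108864⟩, ⟨1, 1, 0, 67108864⟩, ⟨2, 1, 0, 67108864⟩]]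

noncomputable def f_pm_022_t : ℕ → ℕ → ℕ → ℕ → Bool := onCell 1073741824 536870912 0 536870912 923417968 42949674
    (rowNE 3 eng mog cd0q0 cd0q2 pd2 2 true true false .pp 0 2 2 (qsf 0 536870912 0 536870912 2) ndB0q0 ndB0q2 pcB2 cut_pm_022_t Ext.none)

def k0_pm_022_t : ∃ t, chk3 f_pm_022_t t 1 1 1 = true :=
  ⟨(a (l 6) (b (l 6) (l 6))), by decide +kernel⟩

theorem c_pm_022_t : CertNE 0 536870912 0 536870912 923417968 42949674 3 eng mog cd0q0 cd0q2 pd2 true true false .pp 0 2 2
    ndB0q0 ndB0q2 pcB2 cut_pm_022_t Ext.none :=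
  certNE2 (fam := true) (s1 := true) (s2 := false) (a := 0) (b := 2) (c := 2) (cn := .pp) (n1 := ndB0q0) (n2 := ndB0q2) (pc := pcB2) (cut := cut_pm_022_t) (xt := Ext.none) (P1 := 0) (W1 := 536870912) (P2 := 0) (W2 := 536870912) (P3 := 923417968) (W3 := 42949674) (N0 := 3) (En := eng) (mo := mog) (C1 := cd0q0) (C2 := cd0q2) (C3 := pd2)
    rfl (fun _ => rfl) k0_pm_022_t

noncomputable def cut_pm_023_s : Cut := Cut.of [[⟨4, 0, 0, 1449551462⟩]]

noncomputable def f_pm_023_s : ℕ → ℕ → ℕ → ℕ → Bool := onCell 1610612736 536870912 0 536870912 923417968 42949674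
    (rowNE 3 eng mog cd0q0 cd0q2 pd3 2 true true false .up 0 2 3 (qsf 0 536870912 0 536870912 3) ndB0q0 ndB0q2 pcB3 cut_pm_023_s Ext.none)

def k0_pm_023_s : ∃ t, chk3 f_pm_023_s t 1 1 1 = true :=
  ⟨(l 6), by decide +kernel⟩

theorem c_pm_023_s : CertNE 0 536870912 0 536870912 923417968 42949674 3 eng mog cd0q0 cd0q2 pd3 true true false .up 0 2 3
    ndB0q0 ndB0q2 pcB3 cut_pm_023_s Ext.none :=
  certNE2 (fam := true) (s1 := true) (s2 := false) (a := 0) (b := 2) (c := 3) (cn := .up) (n1 := ndB0q0) (n2 := ndB0q2) (pc := pcB3) (cut := cut_pm_023_s) (xt := Ext.none) (P1 := 0) (W1 := 536870912) (P2 := 0) (W2 := 536870912) (P3 := 923417968) (W3 := 42949674) (N0 := 3) (En := eng) (mo := mog) (C1 := cd0q0) (C2 := cd0q2) (C3 := pd3)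
    rfl (fun _ => rfl) k0_pm_023_s

noncomputable def cut_pm_023_t : Cut := Cut.of [[⟨3, 0, 0, 2845415833⟩]]

noncomputable def f_pm_023_t : ℕ → ℕ → ℕ → ℕ → Bool := onCell 0 536870912 0 536870912 923417968 42949674
    (rowNE 3 eng mog cd0q0 cd0q2 pd3 0 true true false .up 0 2 3 (qsf 0 536870912 0 536870912 3) ndB0q0 ndB0q2 pcB3 cut_pm_023_t Ext.none)

def k0_pm_023_t : ∃ t, chk3 f_pm_023_t t 1 1 1 = true :=
  ⟨(a (l 1) (b (a (b (b (a (l 1) (a (l 1) (a (l 6) (a (l 6) (b (l 16344520) (l 6)))))) (l 6)) (l 6)) (a (b (b (a (b (c (l 16500024) (a (l 16492208) (l 16522240))) (l 6)) (a (c (l 16613016) (b (l 16552040) (l 16513112))) (c (l 16630856) (c (l 16586688) (l 16535960))))) (l 6)) (l 6)) (b (b (a (c (a (l 16646720) (l 16660784)) (c (a (l 16610864) (l 16612024)) (a (l 16565824) (l 16593488)))) (a (c (l 16652224) (c (l 16653184) (l 16598048))) (c (l 16663128) (c (l 16671512) (l 16600536))))) (a (b (c (l 16626736) (a (l 16534216) (l 16561024))) (l 6)) (c (c (l 16660280) (l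 16647496)) (c (a (l 16594104) (l 16614008)) (a (l 16540408) (l 16566328)))))) (l 6)))) (l 6))), by decide +kernel⟩

theorem c_pm_023_t : CertNE 0 536870912 0 536870912 923417968 42949674 3 eng mog cd0q0 cd0q2 pd3 true true false .up 0 2 3
    ndB0q0 ndB0q2 pcB3 cut_pm_023_t Ext.none :=
  certNE0 (fam := true) (s1 := true) (s2 := false) (a := 0) (b := 2) (c := 3) (cn := .up) (n1 := ndB0q0) (n2 := ndB0q2) (pc := pcB3) (cut := cut_pm_023_t) (xt := Ext.none) (P1 := 0) (W1 := 536870912) (P2 := 0) (W2 := 536870912) (P3 := 923417968) (W3 := 42949674) (N0 := 3) (En := eng) (mo := mog) (C1 := cd0q0) (C2 := cd0q2) (C3 := pd3)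
    rfl k0_pm_023_t

noncomputable def cut_pm_101_s : Cut := Cut.of [[⟨4, 0, 0, 1449551462⟩], [⟨0, 1, 0, 67108864⟩, ⟨1, 0, 0, 67108864⟩, ⟨2, 1, 0, 67108864⟩]]

noncomputable def f_pm_101_s : ℕ → ℕ → ℕ → ℕ → Bool := onCell 536870912 536870912 536870912 536870912 923417968 42949674
    (rowNE 3 eng mog cd0q1 cd0q0 pd1 1 true true false .npn 1 0 1 (qsf 536870912 536870912 0 536870912 1) ndB0q1 ndB0q0 pcB1 cut_pm_101_s Ext.none)

def k0_pm_101_s : ∃ t, chk3 f_pm_101_s t 1 1 1 = true :=
  ⟨(b (l 3) (a (l 3) (b (l 3) (a (l 3) (b (l 3) (a (l 3) (b (l 3) (a (l 3) (l 14))))))))), by decide +kernel⟩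

theorem c_pm_101_s : CertNE 536870912 536870912 0 536870912 923417968 42949674 3 eng mog cd0q1 cd0q0 pd1 true true false .npn 1 0 1
    ndB0q1 ndB0q0 pcB1 cut_pm_101_s Ext.none :=
  certNE1 (fam := true) (s1 := true) (s2 := false) (a := 1) (b := 0) (c := 1) (cn := .npn) (n1 := ndB0q1) (n2 := ndB0q0) (pc := pcB1) (cut := cut_pm_101_s) (xt := Ext.none) (P1 := 536870912) (W1 := 536870912) (P2 := 0) (W2 := 536870912) (P3 := 923417968) (W3 := 42949674) (N0 := 3) (En := eng) (mo := mog) (C1 := cd0q1) (C2 := cd0q0) (C3 := pd1)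
    rfl (fun _ => rfl) k0_pm_101_s

noncomputable def cut_pm_101_t : Cut := Cut.of [[⟨3, 0, 0, 2845415833⟩], [⟨0, 1, 0, 67108864⟩, ⟨1, 0, 0, 67108864⟩, ⟨2, 1, 0, 67108864⟩]]

noncomputable def f_pm_101_t : ℕ → ℕ → ℕ → ℕ → Bool := onCell 536870912 536870912 0 536870912 923417968 42949674
    (rowNE 3 eng mog cd0q1 cd0q0 pd1 0 true true false .npn 1 0 1 (qsf 536870912 536870912 0 536870912 1) ndB0q1 ndB0q0 pcB1 cut_pm_101_t Ext.none)

def k0_pm_101_t : ∃ t, chk3 f_pm_101_t t 1 1 1 = true :=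
  ⟨(l 6), by decide +kernel⟩

theorem c_pm_101_t : CertNE 536870912 536870912 0 536870912 923417968 42949674 3 eng mog cd0q1 cd0q0 pd1 true true false .npn 1 0 1
    ndB0q1 ndB0q0 pcB1 cut_pm_101_t Ext.none :=
  certNE0 (fam := true) (s1 := true) (s2 := false) (a := 1) (b := 0) (c := 1) (cn := .npn) (n1 := ndB0q1) (n2 := ndB0q0) (pc := pcB1) (cut := cut_pm_101_t) (xt := Ext.none) (P1 := 536870912) (W1 := 536870912) (P2 := 0) (W2 := 536870912) (P3 := 923417968) (W3 := 42949674) (N0 := 3) (En := eng) (mo := mog) (C1 := cd0q1) (C2 := cd0q0) (C3 := pd1)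
    rfl k0_pm_101_t

noncomputable def cut_pm_102_s : Cut := Cut.of [[⟨4, 0, 0, 1449551462⟩], [⟨0, 1, 0, 67108864⟩, ⟨1, 0, 0, 67108864⟩, ⟨2, 1, 0, 67108864⟩]]

noncomputable def f_pm_102_s : ℕ → ℕ → ℕ → ℕ → Bool := onCell 536870912 536870912 1073741824 536870912 923417968 42949674
    (rowNE 3 eng mog cd0q1 cd0q0 pd2 1 true true false .npp 1 0 2 (qsf 536870912 536870912 0 536870912 2) ndB0q1 ndB0q0 pcB2 cut_pm_102_s Ext.none)

def k0_pm_102_s : ∃ t, chk3 f_pm_102_s t 2 1 1 = true :=
  ⟨(b (b (b (l 3) (l 3)) (a (b (b (b (l 3) (l 2)) (l 2)) (l 2)) (b (b (b (a (l 3) (b (l 3) (a (l 3) (a (b (l 3) (l 16771672)) (b (l 16770272) (l 16775056)))))) (b (a (a (l 3) (b (l 3) (l 16802736))) (a (b (b (l 16789152) (l 16773920)) (c (l 16774592) (l 16774592))) (b (a (l 16774088) (l 16769112)) (a (l 16767840) (l 16763096))))) (b (a (a (b (l 3) (l 16775832)) (c (l 16796760) (l 16796840))) (a (a (l 16770592) (l 16766384)) (a (l 16761392) (l 16756568)))) (a (a (l 16774752) (l 16770056))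 (a (l 16762240) (a (l 16754696) (l 16749704))))))) (a (a (a (l 2) (l 16749944)) (b (a (l 16757920) (l 16754312)) (a (l 16737040) (l 16732728)))) (a (a (b (l 16749544) (l 16727112)) (b (l 16744272) (l 16720368))) (a (b (l 16738264) (l 16713128)) (b (l 16732912) (l 16706272)))))) (a (a (l 2) (b (c (l 16641480) (l 16662280)) (l 2))) (a (b (a (l 16653512) (l 16645760)) (a (l 2) (l 16647496))) (b (a (l 16616016) (l 16627832)) (a (l 16637112) (l 16626640)))))))) (a (l 2) (b (a (l 2) (b (a (l 2) (b (l 16530176) (l 2))) (l 2))) (l 2)))), by decide +kernel⟩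

def k1_pm_102_s : ∃ t, chk3 f_pm_102_s t 6 4 1 = true :=
  ⟨(b (l 3) (b (a (l 3) (b (l 3) (a (l 3) (b (l 3) (a (l 3) (b (l 3) (a (l 3) (c (l 16776784) (l 16776688))))))))) (a (a (l 3) (b (l 3) (b (a (l 3) (b (l 3) (l 251423343191))) (a (c (l 161765934823) (l 122037368391)) (b (l 33990655927) (l 16772600)))))) (b (b (a (l 3) (a (a (b (l 3) (l 298667988551)) (b (l 322827180631) (c (l 16776936) (l 16776720)))) (a (b (a (l 141364828471) (l 16775968)) (l 16771496)) (c (l 16768336) (l 16768976))))) (a (a (l 3) (b (a (l 3) (l 232096015255)) (c (l 65666036007) (l 66739779575)))) (a (c (b (l 16773744) (l 16767968)) (b (l 16753072) (l 16768640))) (c (b (l 16762496) (l 16756808)) (b (l 16763584) (l 16758344)))))) (b (a (b (a (c (l 16770664) (l 185925118263)) (c (l 16772256) (l 16772624))) (a (c (l 16775536) (l 16775712)) (l 16762744))) (a (c (l 16759944) (l 16761248)) (c (l 16748752) (l 16750968)))) (a (a (b (l 16770360) (l 16765424)) (c (l 16759440) (l 16760768))) (a (c (l 16749976)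 (l 16752112)) (b (l 16721560) (l 16716960))))))))), by decide +kernel⟩

def k2_pm_102_s : ∃ t, chk3 f_pm_102_s t 14 8 1 = true :=
  ⟨(b (l 3) (a (l 3) (b (l 3) (a (l 3) (b (a (l 3) (b (l 3) (a (l 3) (b (l 360945019383) (c (l 145659792503) (l 146733533895)))))) (b (c (a (l 335712080983) (a (b (l 211694914327) (l 16775328)) (l 16772064))) (a (l 368461206455) (a (b (l 213842397655) (l 16775440)) (l 16772312)))) (a (a (b (l 3) (c (l 149954759895) (l 16776608))) (c (b (l 16776616) (l 16772936)) (b (l 16776704) (l 16773152)))) (c (a (l 16769744) (l 16743528)) (a (l 16770112) (l 16744144)))))))))), by decide +kernel⟩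

def k3_pm_102_s : ∃ t, chk3 f_pm_102_s t 15 16 1 = true :=
  ⟨(a (b (l 3) (a (l 3) (b (l 3) (a (l 3) (b (l 3) (a (l 3) (b (a (l 3) (a (l 3) (l 14))) (a (a (c (l 342691413799) (l 355576315591)) (b (l 362555634967) (c (l 16777024) (l 16776984)))) (a (b (c (l 16777080) (l 16777048)) (l 16773144)) (c (l 16775248) (l 16775368))))))))))) (b (l 14) (a (b (l 14) (a (b (l 14) (a (a (b (l 14) (c (l 16773408) (l 16773632))) (l 14)) (l 14))) (l 14))) (l 14)))), by decide +kernel⟩

def k4_pm_102_s : ∃ t, chk3 f_pm_102_s t 30 34 1 = true :=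
  ⟨(a (b (l 3) (a (l 3) (b (a (l 3) (b (l 3) (a (c (l 307257933623) (l 332490864103)) (c (l 112373794743) (l 16776992))))) (c (a (b (l 278803775239) (a (l 169818982327) (l 16775152))) (b (l 16774744) (l 16771128))) (a (b (l 285246226039) (a (l 170892724023) (l 16775256))) (b (l 16774880) (l 16771416))))))) (b (a (b (a (l 3) (b (l 3) (c (l 370608701063) (l 385104215495)))) (a (b (l 3) (a (l 3) (c (l 221358589799) (l 225653556903)))) (c (b (a (l 287930580759) (b (l 16777728) (l 16775744))) (a (l 16775880) (l 16773224))) (b (a (l 295983644343) (b (l 16777032) (l 16775824))) (a (l 16775968) (l 16773432)))))) (b (a (a (b (l 3) (c (b (l 206863074951) (l 16776448)) (c (l 130627400487) (l 129016782695)))) (b (c (b (l 285246226247) (l 105931338471)) (b (l 273435067911) (c (l 16776976) (l 16776944)))) (c (l 16774656) (l 16774792)))) (c (b (a (b (l 16776088) (l 16774504)) (l 16772784)) (a (l 16772104) (l 16759056))) (b (c (l 16773848) (l 16774272)) (a (l 16772368) (l 16759440)))))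 (b (c (a (c (l 16772616) (l 16772728)) (c (l 16756864) (l 16757080))) (a (l 16766344) (l 16762680))) (c (a (l 16764016) (l 16756072)) (a (l 16769656) (l 16754072)))))) (c (a (b (a (b (a (l 168208369495) (l 16775088)) (l 16772928)) (a (l 16769376) (l 16760120))) (a (b (l 16758856) (l 16755168)) (c (l 16751336) (l 16751656)))) (a (b (b (l 16755232) (l 16751568)) (c (l 16745648) (l 16746088))) (b (b (l 16749800) (l 16756520)) (b (l 16752656) (l 16738160))))) (a (b (a (b (a (l 168208369527) (l 16775200)) (l 16773136)) (b (l 16771400) (l 16757512))) (a (l 16758800) (l 16752200))) (b (a (c (l 16753888) (l 16743752)) (c (l 16748568) (l 16749032))) (a (c (l 16736088) (l 16757584)) (c (l 16741032) (l 16731208)))))))), by decide +kernel⟩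

def k5_pm_102_s : ∃ t, chk3 f_pm_102_s t 30 35 1 = true :=
  ⟨(a (b (a (b (a (a (l 3) (c (l 269676969703) (l 275582549591))) (c (b (a (l 311016027719) (l 16776872)) (l 16774536)) (b (a (l 288467453431) (l 16776928)) (l 16774672)))) (a (c (b (l 16778752) (l 16772416)) (b (l 16776224) (l 16772648))) (c (l 16758464) (l 16769336)))) (b (c (a (b (l 16772856) (l 16748184)) (c (l 16754944) (l 16744704))) (a (l 16760832) (l 16755600))) (c (a (l 16752976) (l 16747336)) (a (l 16743120) (l 16737736))))) (b (a (c (b (l 16755464) (l 16751616)) (a (l 16767264) (l 16741064))) (c (a (l 16734680) (l 16749896)) (c (l 16732624) (l 16733240)))) (a (c (c (l 16740328) (l 16735536)) (c (l 16736032) (l 16736584))) (c (a (l 16747736) (l 16741880)) (a (l 16749104) (l 16743504)))))) (b (a (c (b (a (c (l 16749280) (l 16760128)) (b (l 16756192) (l 16752248))) (a (l 16741584) (l 16746224))) (b (a (l 16750248) (l 16744792)) (c (l 16739584) (l 16729784)))) (c (b (a (b (l 16750448) (l 16746432)) (b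 (a (l 16746112) (l 16742808)) (a (l 16741784) (l 16737848)))) (a (b (l 16731736) (a (l 16739656) (l 16736112))) (b (a (l 16737016) (l 16732712)) (l 16729752)))) (b (a (l 16739256) (c (c (l 16732432) (l 16732840)) (l 16733480))) (a (c (l 16730672) (l 16742080)) (c (l 16733808) (l 16734912)))))) (a (a (b (c (l 16744024) (l 16745520)) (c (b (l 16737952) (l 16733760)) (l 16716728))) (c (b (b (l 16740072) (l 16735768)) (b (l 16731288) (l 16726472))) (b (b (l 16741744) (l 16737648)) (b (l 16733368) (l 16728856))))) (c (b (a (b (a (l 16735168) (l 16731040)) (l 16728096)) (c (l 16721592) (l 16722776))) (a (c (l 16720000) (l 16721248)) (c (l 16711496) (l 16712960)))) (b (a (b (l 16735112) (l 16730392)) (c (l 16724080) (l 16725520))) (a (l 16702392) (l 16715456))))))), by decide +kernel⟩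

def k6_pm_102_s : ∃ t, chk3 f_pm_102_s t 31 34 1 = true :=
  ⟨(a (b (a (a (b (c (b (c (l 16763664) (l 16758624)) (c (l 16755072) (l 16755328))) (b (c (l 16758840) (l 16759072)) (l 16759688))) (c (b (l 16755648) (l 16753344)) (c (l 16753104) (l 16750888)))) (b (a (b (l 14) (b (l 14) (l 16756064))) (l 14)) (c (b (a (l 16758256) (l 16750208)) (a (l 16754512) (b (l 16752280) (l 16749848)))) (a (b (l 16759112) (l 16755504)) (b (l 16745960) (l 16741648)))))) (b (l 14) (a (a (b (l 14) (c (l 16746488) (l 16747792))) (l 14)) (l 14)))) (b (a (c (a (b (l 16744352) (a (l 16752376) (l 16738840))) (b (a (c (l 16750000) (l 16750512)) (l 16745960)) (a (l 16745344) (l 16740808)))) (a (b (l 16745320) (a (l 16753440) (l 16740008))) (b (c (l 16738480) (l 16739120)) (c (l 16744104) (l 16744864))))) (a (c (c (b (l 16738680) (l 16733552)) (b (l 16739400) (l 16734360))) (c (b (l 16740200) (l 16735264)) (l 16728168))) (a (b (l 14) (c (l 16727048) (l 16729184))) (l 14)))) (a (a (c (a (b (l 16748296)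 (l 16743768)) (b (l 16744624) (l 16739448))) (c (b (l 16736848) (l 16742712)) (c (l 16735008) (l 16735408)))) (c (c (b (l 16737552) (l 16732368)) (b (l 16738288) (l 16733216))) (c (l 16723520) (l 16737584)))) (c (a (c (b (l 16728432) (l 16723336)) (l 16726856)) (c (l 16716712) (l 16717896))) (a (b (l 16720416) (l 16726104)) (c (l 16719208) (l 16720640))))))) (a (a (b (l 14) (b (l 14) (b (l 14) (c (l 16703136) (l 16709072))))) (l 14)) (l 14))), by decide +kernel⟩

def k7_pm_102_s : ∃ t, chk3 f_pm_102_s t 31 35 1 = true :=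
  ⟨(b (b (a (a (c (a (c (l 16737096) (l 16734344)) (c (l 16727264) (l 16725664))) (a (a (l 16727408) (l 16723232)) (c (l 16726800) (l 16728048)))) (c (a (c (l 16715720) (l 16716928)) (c (l 16706736) (l 16708160))) (a (c (l 16718272) (l 16719744)) (c (l 16709744) (l 16711472))))) (a (c (a (c (l 16692456) (l 16699392)) (b (l 14) (l 16676776))) (a (c (l 16701256) (l 16703304)) (l 16698640))) (l 14))) (a (a (c (a (c (l 16723168) (l 16724272)) (c (l 16714424) (l 16715720))) (a (c (l 16725504) (l 16726848)) (c (l 16717152) (l 16718720)))) (c (a (c (l 16705640) (l 16707128)) (b (l 16689600) (l 16684736))) (a (c (l 16708768) (l 16710576)) (c (l 16700416) (l 16702480))))) (a (c (a (b (l 16680840) (l 16676064)) (c (l 16679104) (l 16681408))) (a (l 16695912) (l 16685304))) (a (a (c (l 16663240) (l 16679440)) (l 14)) (l 14))))) (a (a (c (b (a (c (l 16712984) (l 16714368)) (c (l 16704336) (l 16705920))) (c (a (l 16702952) (l 16694384)) (a (l 16704624) (l 16696272)))) (b (a (c (l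 16715896) (l 16717576)) (l 16708600)) (a (l 16707480) (l 16699480)))) (c (b (a (c (l 16695664) (l 16697456)) (c (l 16686984) (l 16689008))) (c (a (l 16685808) (l 16677240)) (l 16683736))) (b (a (l 16700488) (l 16695048)) (a (l 16691504) (l 16683592))))) (a (c (b (a (c (l 16678304) (l 16680592)) (c (l 16669624) (l 16672248))) (c (a (l 16668704) (l 16660200)) (l 16667224))) (b (a (l 16684472) (l 16676680)) (a (l 16675800) (l 16668192)))) (c (c (a (b (l 16660968) (l 16651736)) (b (l 16652352) (l 16643336))) (a (l 16656944) (l 16648944))) (a (b (l 16669112) (l 16660824)) (b (l 16661824) (l 16653760))))))), by decide +kernel⟩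

def k8_pm_102_s : ∃ t, chk3 f_pm_102_s t 28 9 1 = true :=
  ⟨(a (b (b (l 3) (a (b (l 3) (c (b (l 107541960823) (l 16771136)) (b (l 110763187047) (l 16771560)))) (b (b (b (l 3) (l 278803780791)) (c (l 104320735543) (l 108615703271))) (c (l 16767488) (l 16768176))))) (b (b (c (a (l 16761984) (l 16755232)) (a (l 16763096) (l 16756856))) (c (b (l 16728872) (l 16723240)) (a (l 16752376) (l 16725248)))) (b (c (l 16715240) (l 16739464)) (c (b (l 16707648) (l 16702352)) (a (l 16712360) (l 16726864)))))) (b (b (b (l 3) (c (a (l 331953973687) (b (l 277730023607) (a (l 16777024) (l 16773408)))) (a (l 339470174007) (b (l 287930562919) (a (l 16776912) (l 16773656)))))) (a (b (c (b (l 91435823415) (l 16769848)) (b (b (l 16778176) (l 16774960)) (l 16770336))) (c (l 16760280) (l 16761472))) (b (c (b (l 16768704) (l 16741176)) (b (l 16769256) (l 16763160))) (c (l 16731648) (l 16754352))))) (a (b (b (c (l 16727096) (l 16729256)) (c (l 16736552) (l 16718720))) (b (b (l 16709288) (l 16704232))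 (c (l 16692856) (l 16698200)))) (b (b (c (l 16719504) (l 16722232)) (c (l 16729144) (l 16711896))) (b (c (l 16696280) (l 16701176)) (c (l 16703768) (l 16689400))))))), by decide +kernel⟩

def k9_pm_102_s : ∃ t, chk3 f_pm_102_s t 29 18 1 = true :=
  ⟨(b (a (b (a (b (l 3) (a (l 3) (c (l 173040210279) (l 177872048087)))) (c (b (a (l 320142832599) (b (l 226727293463) (l 16775264))) (a (l 16774488) (l 16769952))) (b (a (l 341617660183) (b (l 202031237895) (l 16775392))) (a (l 16774672) (l 16770368))))) (a (c (b (a (l 16776152) (l 16771888)) (l 16767192)) (b (a (l 16776288) (l 16772208)) (l 16767816))) (c (b (l 16765288) (l 16737504)) (b (l 16766000) (l 16738672))))) (b (b (a (c (a (l 16772360) (l 16767376)) (a (l 16772624) (l 16767880))) (c (c (l 16738376) (l 16738776)) (l 16744696))) (a (c (l 16749568) (l 16763464)) (c (l 16736360) (l 16732416)))) (a (c (b (l 16734712) (l 16727960)) (b (l 16735944) (l 16729664))) (c (b (l 16724024) (l 16738080)) (c (l 16722000) (l 16723096))))))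 (a (b (a (c (c (l 16735968) (l 16736560)) (b (l 16740616) (l 16755528))) (c (a (l 16729784) (l 16725312)) (c (l 16728976) (l 16730008)))) (c (a (l 16723520) (l 16714936)) (a (l 16725824) (l 16717832)))) (b (a (c (c (l 16717568) (l 16718672)) (c (l 16719904) (l 16721248))) (c (b (l 16731456) (a (l 16727904) (l 16721784))) (b (l 16734184) (l 16707112)))) (b (a (c (l 16729568) (l 16732816)) (c (a (l 16721216) (l 16714240)) (l 16700664))) (a (c (l 16702128) (l 16705968)) (c (l 16710072) (l 16714840))))))), by decide +kernel⟩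

def k10_pm_102_s : ∃ t, chk3 f_pm_102_s t 29 19 1 = true :=
  ⟨(b (a (b (a (c (l 16732432) (l 16714784)) (c (c (l 16701680) (l 16703512)) (c (l 16705536) (l 16707760)))) (c (a (l 16694240) (b (l 16713728) (l 16706384))) (a (l 16703960) (l 16694520)))) (c (b (a (b (l 16695264) (l 16708760)) (b (l 16702320) (l 16694712))) (a (l 16676584) (b (l 16687232) (l 16679888)))) (a (b (b (l 16699720) (l 16714112)) (l 16683304)) (b (c (l 16702968) (l 16706312)) (l 16670568))))) (a (c (b (a (l 16686096) (l 16695528)) (a (l 16692920) (l 16681456))) (b (a (l 16692112) (l 16702840)) (c (l 16672736) (l 16677456)))) (a (c (b (l 16683056) (l 16669024)) (b (l 16691712) (l 16679736))) (c (b (l 16669104) (l 16655136)) (b (l 16679112) (l 16667272)))))), by decide +kernel⟩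

def k11_pm_102_s : ∃ t, chk3 f_pm_102_s t 30 36 1 = true :=
  ⟨(a (b (a (c (b (a (l 16751320) (l 16745640)) (l 16730376)) (b (l 16728904) (l 16721696))) (c (b (a (l 16739832) (l 16733832)) (a (l 16732064) (b (l 16727736) (l 16723408)))) (b (a (l 16741600) (l 16735896)) (c (l 16709424) (l 16710752))))) (c (a (a (l 16717144) (b (l 16730560) (l 16722976))) (b (a (l 16713608) (l 16716456)) (a (l 16715472) (l 16707384)))) (a (b (l 16714792) (a (l 16732000) (l 16725912))) (b (c (l 16701448) (l 16703056)) (c (l 16714120) (l 16716144)))))) (c (b (a (b (a (b (l 16729456) (l 16724888)) (l 16719096)) (a (l 16717688) (l 16709480))) (a (b (l 16710792) (l 16701176)) (b (l 16702432) (l 16692840)))) (a (b (a (l 16708320) (l 16700080)) (c (l 16693984) (l 16696160))) (b (c (l 16686464) (l 16688792)) (c (l 16671848) (l 16679792))))) (b (a (a (b (l 16708504) (l 16720720)) (b (l 16721976) (l 16713048))) (c (b (l 16709288) (l 16700208)) (c (l 16685392) (l 16686544)))) (a (c (b (l 16707144)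 (l 16698560)) (b (l 16709352) (l 16701192))) (b (c (l 16691376) (l 16694200)) (c (l 16682776) (l 16686048))))))), by decide +kernel⟩

def k12_pm_102_s : ∃ t, chk3 f_pm_102_s t 30 37 1 = true :=
  ⟨(a (c (b (a (b (a (l 16722248) (l 16714792)) (a (l 16714496) (l 16706464))) (b (a (l 16706736) (l 16698568)) (c (l 16692976) (l 16695376)))) (a (b (l 16681440) (l 16694584)) (b (c (l 16684632) (l 16687432)) (l 16678016)))) (b (a (b (b (l 16702752) (l 16699224)) (l 16693696)) (c (b (l 16705920) (l 16698032)) (l 16683648))) (a (b (l 16686480) (l 16700512)) (b (l 16671216) (l 16685120))))) (c (b (a (b (c (l 16684896) (l 16687440)) (c (l 16676056) (l 16678992))) (c (a (l 16657208) (l 16653960)) (a (l 16670856) (l 16662632)))) (a (b (b (l 16671160) (l 16646064)) (c (l 16659120) (l 16662904))) (c (b (l 16629304) (l 16641792)) (c (l 16638592) (l 16651256))))) (c (a (b (b (l 16690256) (l 16682240)) (l 16670760)) (b (b (l 16674440) (l 16666352)) (b (l 16658528) (l 16650976)))) (a (b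 (l 16668560) (l 16675056)) (b (b (l 16678168) (l 16670568)) (l 16659720)))))), by decide +kernel⟩

def k13_pm_102_s : ∃ t, chk3 f_pm_102_s t 62 18 1 = true :=
  ⟨(b (c (b (a (a (b (l 16694040) (l 16679248)) (b (l 16683032) (l 16670920))) (a (b (l 16672032) (l 16662616)) (b (l 16663696) (l 16654376)))) (a (c (a (l 16666488) (l 16656784)) (a (l 16672000) (l 16653368))) (a (b (l 16653360) (l 16639024)) (b (l 16639952) (l 16630928))))) (b (a (b (a (l 16698464) (l 16690560)) (c (l 16684280) (l 16687248))) (a (c (l 16676816) (l 16679992)) (c (l 16668952) (l 16672440)))) (a (b (c (l 16675528) (l 16678936)) (c (l 16666992) (l 16670856))) (c (a (l 16659528) (l 16651856)) (a (l 16663624) (l 16656288)))))) (c (b (b (a (c (l 16640584) (l 16633712)) (a (l 16630096) (l 16622056))) (a (a (l 16627240) (l 16629488)) (a (l 16621352) (l 16613352)))) (a (c (b (l 16617592) (l 16603776)) (c (l 16622016) (l 16614008))) (c (b (l 16601056) (l 16587224)) (c (l 16605920) (l 16598216))))) (b (a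 (c (a (l 16658536) (l 16650728)) (b (l 16663024) (l 16655448))) (c (c (l 16627488) (l 16640496)) (a (l 16648120) (l 16640936)))) (a (c (l 16638912) (l 16644568)) (c (l 16623608) (l 16629960)))))), by decide +kernel⟩

def k14_pm_102_s : ∃ t, chk3 f_pm_102_s t 63 18 1 = true :=
  ⟨(b (b (a (c (a (b (l 16655424) (l 16640968)) (c (b (l 16650840) (l 16641560)) (l 16639264))) (b (a (l 16667288) (l 16659848)) (c (l 16653152) (l 16657424)))) (c (b (a (l 16637840) (l 16629240)) (c (a (l 16633432) (l 16625400)) (l 16625952))) (a (c (l 16646328) (l 16651056)) (c (l 16639280) (l 16644592))))) (b (a (a (c (l 16631888) (l 16650744)) (c (l 16623952) (l 16643600))) (c (a (l 16616160) (c (l 16616512) (l 16621672))) (a (l 16636760) (l 16630264)))) (a (c (a (l 16622944) (l 16615104)) (c (l 16636576) (l 16641848))) (c (a (l 16602192) (l 16594720)) (a (l 16629008) (l 16622680)))))) (c (a (a (b (b (l 16614144) (l 16600248)) (c (l 16582104) (l 16606296))) (b (b (l 16601144) (l 16592568)) (c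 (l 16574304) (l 16598920)))) (a (b (b (l 16593584) (l 16579856)) (c (l 16564072) (l 16591800))) (b (b (l 16586232) (l 16572608)) (c (l 16557016) (l 16584992))))) (a (b (c (a (l 16628160) (l 16621088)) (l 16630640)) (c (l 16603936) (l 16616368))) (b (c (a (l 16614312) (l 16607896)) (l 16618176)) (c (l 16592080) (l 16604312)))))), by decide +kernel⟩

def k15_pm_102_s : ∃ t, chk3 f_pm_102_s t 30 19 1 = true :=
  ⟨(a (a (b (b (c (b (l 16686872) (l 16679304)) (c (l 16688440) (l 16692440))) (c (b (l 16671872) (l 16664568)) (l 16656528))) (c (b (l 16653848) (l 16639960)) (b (l 16665232) (l 16653552)))) (b (b (c (b (l 16670304) (l 16662816)) (b (l 16678368) (l 16671872))) (c (b (l 16655432) (l 16648184)) (l 16630944))) (c (b (l 16627056) (l 16623760)) (b (l 16650320) (l 16638824))))) (b (c (b (a (b (c (l 16651112) (l 16655352)) (l 16645552)) (c (b (l 16633544) (l 16625552)) (l 16624104))) (a (c (l 16610912) (l 16637320)) (c (l 16603592) (l 16599184)))) (b (a (c (l 16656544)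 (l 16661912)) (c (l 16640176) (l 16646264))) (a (c (l 16643296) (l 16649816)) (c (l 16626824) (l 16634088))))) (c (b (a (c (l 16617328) (l 16623792)) (b (l 16585424) (l 16578592))) (a (c (l 16603144) (l 16610688)) (a (l 16572864) (l 16564160)))) (b (a (l 16613704) (c (l 16614384) (l 16622896))) (a (l 16623384) (l 16565616)))))), by decide +kernel⟩

def k16_pm_102_s : ∃ t, chk3 f_pm_102_s t 31 19 1 = true :=
  ⟨(a (b (c (b (a (c (c (l 16595248) (l 16592696)) (l 16614040)) (c (a (l 16599784) (l 16591640)) (l 16595416))) (a (c (b (l 16600376) (l 16592720)) (l 16582232)) (c (b (l 16583616) (l 16575840)) (l 16576552)))) (b (a (c (l 16624200) (l 16630984)) (c (l 16598384) (l 16616376))) (a (c (l 16589560) (l 16618520)) (c (l 16574096) (l 16603808))))) (c (b (a (c (l 16560760) (l 16568528)) (c (l 16544936) (l 16552056))) (a (b (l 16554400) (l 16547880)) (c (a (l 16554696) (l 16546288)) (l 16539080)))) (b (a (b (l 16605440) (l 16599704)) (b (l 16590112) (l 16584296))) (a (b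 (l 16594240) (l 16589000)) (b (l 16578824) (l 16573504)))))) (b (c (a (b (c (b (l 16583896) (l 16575696)) (a (l 16590536) (l 16583224))) (c (b (l 16567672) (l 16559848)) (l 16556136))) (b (c (a (l 16568424) (l 16561160)) (a (l 16576216) (l 16569552))) (c (a (l 16552432) (l 16545240)) (l 16543544)))) (a (b (c (l 16584064) (l 16602928)) (c (l 16559768) (l 16569408))) (b (c (l 16571144) (l 16570184)) (c (l 16546984) (l 16557800))))) (c (a (b (c (a (l 16552416) (l 16544624)) (l 16536752)) (c (a (l 16538032) (l 16530152)) (l 16523496))) (b (c (a (l 16537136) (l 16529968)) (l 16522848)) (c (a (l 16522600) (l 16515400)) (l 16509488)))) (a (b (b (l 16576168) (l 16570272)) (b (l 16564632) (l 16559240))) (b (a (l 16563888) (l 16558344)) (a (l 16552528) (l 16546984))))))), by decide +kernel⟩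

def k17_pm_102_s : ∃ t, chk3 f_pm_102_s t 6 10 1 = true :=
  ⟨(b (b (a (b (a (a (l 160692201303) (b (l 16771080) (l 16775088))) (a (b (l 16774168) (l 16769056)) (b (l 16767608) (l 16762752)))) (c (a (a (l 16772696) (l 16767200)) (a (l 16761416) (l 16755168))) (a (a (l 16772384) (l 16767608)) (a (l 16762152) (l 16756344))))) (c (a (b (a (l 16757728) (l 16749880)) (a (l 16748288) (l 16740608))) (b (a (l 16740616) (l 16708280)) (a (l 16731112) (a (l 16721952) (l 16693392))))) (a (b (a (l 16759016) (l 16751904)) (a (l 16750056) (l 16743128))) (b (a (l 16743472) (l 16712192)) (a (l 16734576) (l 16712584)))))) (b (a (a (b (a (l 16764504) (l 16759496)) (a (l 16758648) (l 16753856))) (a (b (l 16754144) (l 16748664)) (b (l 16748304) (l 16742944)))) (a (a (b (l 16741808) (l 16736472)) (b (l 16713456) (c (l 16727256) (l 16730320)))) (a (b (c (l 16722808) (l 16726888)) (l 16718448)) (c (l 16705056) (l 16711984))))) (b (a (a (a (l 16752320) (l 16747736)) (a (l 16742728) (l 16737072)))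 (a (a (c (l 16729344) (l 16731584)) (l 16722128)) (a (l 16711936) (l 16678072)))) (a (a (a (l 16745640) (b (l 16742912) (l 16739584))) (b (a (l 16737944) (l 16732112)) (a (l 16734448) (l 16728360)))) (a (a (b (l 16725032) (l 16721344)) (b (l 16716800) (l 16692224))) (a (b (l 16685760) (l 16661272)) (b (l 16652040) (c (l 16685200) (l 16696520))))))))) (b (a (a (a (l 16728552) (l 16724888)) (a (l 16720200) (l 16714696))) (a (a (c (l 16706472) (l 16710384)) (c (l 16676848) (l 16704000))) (a (c (l 16666184) (l 16695960)) (c (l 16652696) (l 16685392))))) (a (a (a (l 16701720) (l 16677128)) (a (l 16673784) (l 16669440))) (a (a (l 16685112) (c (l 16676200) (l 16660608))) (c (a (l 16666520) (l 16653984)) (a (l 16653800) (l 16644472))))))), by decide +kernel⟩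

def k18_pm_102_s : ∃ t, chk3 f_pm_102_s t 6 11 1 = true :=
  ⟨(a (a (b (a (l 16621224) (c (l 16619488) (l 16615592))) (a (l 16617976) (l 16610592))) (b (a (b (l 16668504) (l 16642672)) (c (l 16611224) (l 16609968))) (a (c (l 16608440) (l 16602672)) (b (l 16614440) (l 16589656))))) (a (b (a (c (l 16607048) (l 16608160)) (c (l 16601104) (l 16646888))) (a (b (l 16611824) (l 16587008)) (b (l 16609184) (l 16584536)))) (a (b (b (l 16607056) (l 16606128)) (b (l 16604560) (l 16581320))) (b (c (b (l 16634056) (l 16613776)) (l 16634704)) (c (l 16582504) (l 16570240)))))), by decide +kernel⟩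

def k19_pm_102_s : ∃ t, chk3 f_pm_102_s t 14 5 2 = true :=
  ⟨(b (b (b (a (a (b (a (l 16697672) (l 16710008)) (l 16659296)) (b (a (l 16700312) (l 16690080)) (l 16639928))) (a (b (a (l 16679232) (l 16667792)) (a (l 16665848) (l 16654432))) (b (a (l 16655400) (l 16641568)) (a (l 16642088) (l 16628320))))) (a (b (a (l 16667080) (l 16647608)) (b (a (l 16677904) (l 16658440)) (a (b (l 16672248) (l 16668376)) (b (l 16652792) (l 16648936))))) (b (a (l 16605144) (a (l 16628880) (l 16615184))) (b (a (l 16636968) (l 16612136)) (a (b (l 16631336) (l 16627488)) (b (l 16606560) (l 16602760))))))) (a (a (b (b (l 16661888) (l 16652584)) (l 16638528)) (b (a (l 16643152) (l 16632936)) (l 16620008))) (b (a (a (l 16622088) (l 16610760)) (a (l 16598584) (l 16585048))) (a (l 16557128) (l 16553472))))) (a (b (a (b (l 16619616) (l 16600432)) (b (l 16602216) (l 16584104))) (a (l 16570944) (l 16535400))) (b (a (b (l 16581880) (l 16564952)) (b (l 16557864) (l 16541624))) (a (l 16497048) (l 16475608))))),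 by decide +kernel⟩

def k20_pm_102_s : ∃ t, chk3 f_pm_102_s t 15 5 2 = true :=
  ⟨(b (a (b (b (a (b (a (l 16626480) (l 16610384)) (a (l 16613312) (l 16597336))) (b (a (l 16593584) (c (l 16571800) (l 16581216))) (a (l 16580672) (c (l 16558440) (l 16569096))))) (b (a (a (l 16600272) (l 16584408)) (a (l 16567880) (l 16530048))) (a (b (l 16582528) (b (l 16577056) (l 16573328))) (b (a (l 16558176) (l 16541456)) (b (l 16544464) (l 16519872)))))) (a (b (a (l 16570344) (l 16554752)) (l 16545256)) (b (a (l 16538552) (l 16522088)) (l 16450264)))) (b (b (a (b (a (c (l 16554272) (l 16564384)) (b (l 16524496) (l 16518280))) (a (c (l 16541088) (l 16552472)) (c (l 16524080) (l 16536208)))) (b (c (a (a (l 16524544) (l 16516584)) (a (l 16508864) (l 16501592))) (a (l 16532192) (l 16517936))) (a (b (l 16496032) (l 16490080)) (b (c (l 16495432) (l 16509192)) (l 16475176))))) (b (a (a (b (l 16537384) (l 16531192)) (c (l 16511200) (l 16524736))) (a (c (l 16495040) (l 16509464)) (b (l 16469336)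 (l 16463568)))) (b (a (a (l 16524816) (l 16508592)) (a (l 16493080) (l 16457648))) (a (b (a (l 16519648) (l 16503544)) (a (l 16516136) (l 16500120))) (b (a (l 16488168) (l 16473864)) (a (l 16484840) (l 16470632))))))) (a (b (c (l 16468640) (l 16506176)) (b (l 16484984) (l 16476856))) (b (a (l 16453768) (c (l 16451400) (l 16470464))) (a (l 16437344) (l 16423600)))))) (a (b (a (b (l 16528840) (l 16513312)) (b (l 16497024) (l 16481768))) (a (l 16406472) (b (l 16467344) (l 16453136)))) (b (a (b (b (l 16468968) (l 16461312)) (l 16408352)) (b (b (l 16418704) (l 16432280)) (b (l 16425104) (l 16418152)))) (a (b (l 16436256) (l 16422984)) (b (l 16324256) (l 16374416)))))), by decide +kernel⟩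

def k21_pm_102_s : ∃ t, chk3 f_pm_102_s t 14 5 3 = true :=
  ⟨(b (b (b (a (b (a (a (l 16723512) (l 16695000)) (l 16661200)) (a (l 16708528) (l 16670888))) (a (b (a (l 16689184) (l 16679200)) (l 16631368)) (b (a (l 16668304) (l 16655984)) (l 16609488)))) (a (b (a (l 16697584) (l 16660024)) (b (a (l 16689488) (l 16673040)) (a (l 16642080) (l 16625752)))) (b (a (l 16641648) (l 16620016)) (a (b (l 16654816) (b (l 16650840) (l 16648224))) (b (l 16633368) (l 16586304)))))) (a (a (b (l 16672016) (l 16632536)) (b (l 16614384) (l 16617728))) (a (b (l 16596464) (l 16600728)) (b (l 16575440) (l 16580152))))) (a (b (a (b (l 16634400) (l 16614760)) (b (l 16621120) (l 16602888))) (a (l 16563152) (l 16532528))) (b (a (c (l 16548392) (l 16561328)) (c (l 16549424) (l 16564880))) (a (l 16520400) (l 16546408))))), by decide +kernel⟩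

def k22_pm_102_s : ∃ t, chk3 f_pm_102_s t 15 5 3 = true :=
  ⟨(b (a (b (b (a (b (a (l 16642416) (l 16627864)) (a (l 16631784) (l 16617408))) (b (a (l 16612632) (l 16576056)) (a (l 16602368) (l 16586984)))) (a (b (l 16572600) (b (l 16607160) (l 16560264))) (b (a (l 16592528) (l 16577368)) (b (l 16556888) (b (l 16574272) (l 16571904)))))) (a (b (l 16549760) (l 16576024)) (b (l 16521104) (l 16527088)))) (b (b (a (b (a (l 16560376) (b (l 16568448) (l 16563600))) (a (l 16571552) (l 16535528))) (b (a (b (l 16554184) (l 16549264)) (b (l 16541744) (l 16536776))) (a (b (l 16544600) (l 16540128)) (b (l 16532120) (l 16527592))))) (b (a (a (l 16562176) (l 16547400)) (a (l 16533560) (l 16479224))) (a (b (l 16506008) (b (l 16544552) (l 16542312))) (b (a (l 16527168) (l 16515096)) (b (l 16496728) (l 16494640)))))) (a (b (l 16460520) (l 16477808)) (b (a (l 16513808) (l 16502248)) (l 16410696))))) (a (b (a (b (l 16561040) (l 16546680)) (b (l 16533800) (l 16520152))) (a (l 16522232)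 (l 16437664))) (a (b (b (l 16485368) (l 16493560)) (b (l 16481320) (l 16469520))) (b (b (l 16440232) (l 16449448)) (b (l 16459216) (l 16448456)))))), by decide +kernel⟩

def k23_pm_102_s : ∃ t, chk3 f_pm_102_s t 3 3 1 = true :=
  ⟨(b (b (a (a (a (b (a (l 16577456) (l 16568840)) (l 16535384)) (a (b (l 16561856) (l 16522640)) (b (l 16555696) (l 16494456)))) (a (b (b (a (l 16562720) (l 16560240)) (l 16496320)) (a (l 16488384) (l 16503784))) (a (b (b (l 16557216) (l 16533440)) (l 16499160)) (b (b (l 16552656) (l 16529096)) (l 16411120))))) (a (a (b (c (a (l 16529480) (l 16517464)) (l 16589752)) (a (l 16383936) (b (l 16492936) (l 6)))) (b (c (a (l 16502632) (l 16483752)) (a (l 16503744) (l 16491120))) (a (a (l 16454240) (l 16427992)) (l 6)))) (a (b (c (a (l 16438600) (l 16327016)) (a (l 16452400) (l 16470688))) (l 6)) (l 6)))) (b (a (b (a (a (l 2) (l 16491488)) (a (l 16456472) (l 16464856))) (a (l 2) (l 6))) (l 6)) (a (l 6) (l 6)))) (l 6)), by decide +kernel⟩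

theorem s24_pm_102_s : ∃ t, chk3 f_pm_102_s t 7 5 3 = true := ex3_a k21_pm_102_s k22_pm_102_s

theorem s25_pm_102_s : ∃ t, chk3 f_pm_102_s t 7 5 2 = true := ex3_a k19_pm_102_s k20_pm_102_s

theorem s26_pm_102_s : ∃ t, chk3 f_pm_102_s t 7 5 1 = true := ex3_c s25_pm_102_s s24_pm_102_s

theorem s27_pm_102_s : ∃ t, chk3 f_pm_102_s t 6 5 1 = true := ex3_b k17_pm_102_s k18_pm_102_s

theorem s28_pm_102_s : ∃ t, chk3 f_pm_102_s t 3 5 1 = true := ex3_a s27_pm_102_s s26_pm_102_s

theorem s29_pm_102_s : ∃ t, chk3 f_pm_102_s t 15 19 1 = true := ex3_a k15_pm_102_s k16_pm_102_s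

theorem s30_pm_102_s : ∃ t, chk3 f_pm_102_s t 31 18 1 = true := ex3_a k13_pm_102_s k14_pm_102_s

theorem s31_pm_102_s : ∃ t, chk3 f_pm_102_s t 30 18 1 = true := ex3_b k11_pm_102_s k12_pm_102_s

theorem s32_pm_102_s : ∃ t, chk3 f_pm_102_s t 15 18 1 = true := ex3_a s31_pm_102_s s30_pm_102_s

theorem s33_pm_102_s : ∃ t, chk3 f_pm_102_s t 15 9 1 = true := ex3_b s32_pm_102_s s29_pm_102_s

theorem s34_pm_102_s : ∃ t, chk3 f_pm_102_s t 29 9 1 = true := ex3_b k9_pm_102_s k10_pm_102_s

theorem s35_pm_102_s : ∃ t, chk3 f_pm_102_s t 14 9 1 = true := ex3_a k8_pm_102_s s34_pm_102_s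

theorem s36_pm_102_s : ∃ t, chk3 f_pm_102_s t 7 9 1 = true := ex3_a s35_pm_102_s s33_pm_102_s

theorem s37_pm_102_s : ∃ t, chk3 f_pm_102_s t 31 17 1 = true := ex3_b k6_pm_102_s k7_pm_102_s

theorem s38_pm_102_s : ∃ t, chk3 f_pm_102_s t 30 17 1 = true := ex3_b k4_pm_102_s k5_pm_102_s

theorem s39_pm_102_s : ∃ t, chk3 f_pm_102_s t 15 17 1 = true := ex3_a s38_pm_102_s s37_pm_102_s

theorem s40_pm_102_s : ∃ t, chk3 f_pm_102_s t 15 8 1 = true := ex3_b k3_pm_102_s s39_pm_102_s

theorem s41_pm_102_s : ∃ t, chk3 f_pm_102_s t 7 8 1 = true := ex3_a k2_pm_102_s s40_pm_102_s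

theorem s42_pm_102_s : ∃ t, chk3 f_pm_102_s t 7 4 1 = true := ex3_b s41_pm_102_s s36_pm_102_s

theorem s43_pm_102_s : ∃ t, chk3 f_pm_102_s t 3 4 1 = true := ex3_a k1_pm_102_s s42_pm_102_s

theorem s44_pm_102_s : ∃ t, chk3 f_pm_102_s t 3 2 1 = true := ex3_b s43_pm_102_s s28_pm_102_s

theorem s45_pm_102_s : ∃ t, chk3 f_pm_102_s t 3 1 1 = true := ex3_b s44_pm_102_s k23_pm_102_s

theorem s46_pm_102_s : ∃ t, chk3 f_pm_102_s t 1 1 1 = true := ex3_a k0_pm_102_s s45_pm_102_s

theorem c_pm_102_s : CertNE 536870912 536870912 0 536870912 923417968 42949674 3 eng mog cd0q1 cd0q0 pd2 true true false .npp 1 0 2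
    ndB0q1 ndB0q0 pcB2 cut_pm_102_s Ext.none :=
  certNE1 (fam := true) (s1 := true) (s2 := false) (a := 1) (b := 0) (c := 2) (cn := .npp) (n1 := ndB0q1) (n2 := ndB0q0) (pc := pcB2) (cut := cut_pm_102_s) (xt := Ext.none) (P1 := 536870912) (W1 := 536870912) (P2 := 0) (W2 := 536870912) (P3 := 923417968) (W3 := 42949674) (N0 := 3) (En := eng) (mo := mog) (C1 := cd0q1) (C2 := cd0q0) (C3 := pd2)
    rfl (fun _ => rfl) s46_pm_102_s

noncomputable def cut_pm_102_t : Cut := Cut.of [[⟨3, 0, 0, 2845415833⟩], [⟨0, 1, 0, 67108864⟩, ⟨1, 0, 0, 67108864⟩, ⟨2, 1, 0, 67108864⟩]]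

noncomputable def f_pm_102_t : ℕ → ℕ → ℕ → ℕ → Bool := onCell 536870912 536870912 0 536870912 923417968 42949674
    (rowNE 3 eng mog cd0q1 cd0q0 pd2 0 true true false .npp 1 0 2 (qsf 536870912 536870912 0 536870912 2) ndB0q1 ndB0q0 pcB2 cut_pm_102_t Ext.none)

def k0_pm_102_t : ∃ t, chk3 f_pm_102_t t 1 1 1 = true :=
  ⟨(l 6), by decide +kernel⟩

theorem c_pm_102_t : CertNE 536870912 536870912 0 536870912 923417968 42949674 3 eng mog cd0q1 cd0q0 pd2 true true false .npp 1 0 2
    ndB0q1 ndB0q0 pcB2 cut_pm_102_t Ext.none :=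
  certNE0 (fam := true) (s1 := true) (s2 := false) (a := 1) (b := 0) (c := 2) (cn := .npp) (n1 := ndB0q1) (n2 := ndB0q0) (pc := pcB2) (cut := cut_pm_102_t) (xt := Ext.none) (P1 := 536870912) (W1 := 536870912) (P2 := 0) (W2 := 536870912) (P3 := 923417968) (W3 := 42949674) (N0 := 3) (En := eng) (mo := mog) (C1 := cd0q1) (C2 := cd0q0) (C3 := pd2)
    rfl k0_pm_102_t

noncomputable def cut_pm_112_s : Cut := Cut.of [[⟨4, 0, 0, 1449551462⟩]]

noncomputable def f_pm_112_s : ℕ → ℕ → ℕ → ℕ → Bool := onCell 536870912 536870912 1073741824 536870912 923417968 42949674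
    (rowNE 3 eng mog cd0q1 cd0q1 pd2 1 true true false .dn 1 1 2 (qsf 536870912 536870912 536870912 536870912 2) ndB0q1 ndB0q1 pcB2 cut_pm_112_s Ext.none)

def k0_pm_112_s : ∃ t, chk3 f_pm_112_s t 2 2 1 = true :=
  ⟨(b (b (l 3) (l 3)) (a (b (b (b (l 3) (b (l 3) (b (a (a (l 16805392) (l 3)) (l 3)) (a (a (l 16775032) (l 16776928)) (a (l 16776784) (l 16776848)))))) (a (a (b (a (l 16759232) (l 16761496)) (l 16757536)) (b (l 16763024) (l 16741632))) (a (b (l 16764128) (l 16721624)) (b (l 16763536) (l 16721424))))) (a (b (a (a (l 16653464) (l 16659736)) (a (l 16663760) (l 16687512))) (a (a (l 16636880) (l 16646040)) (b (l 16671504) (l 16645528)))) (b (a (a (l 16668640) (l 16710704)) (c (l 16668912) (l 16668888))) (a (b (l 16677976) (l 16655440)) (b (l 16679528) (l 16659360)))))) (a (a (b (b (b (l 3) (b (l 3) (b (b (l 3) (l 16775824)) (l 16774776)))) (a (l 16751496) (l 16749968))) (b (c (l 16646568) (l 16667616)) (a (l 16668888) (l 16667904)))) (b (b (b (l 1) (b (l 1) (b (l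 1) (l 16770120)))) (b (a (l 16757944) (l 16754360)) (a (l 16737048) (l 16732760)))) (b (a (l 16685216) (l 16681016)) (a (l 16665832) (l 16661800))))) (a (b (b (l 1) (b (l 1) (a (l 16727160) (l 1)))) (b (a (l 16653560) (l 16624880)) (a (l 16655656) (l 16647520)))) (b (l 1) (b (a (l 156799539927) (l 1)) (b (l 16600096) (l 16621864)))))))), by decide +kernel⟩

def k1_pm_112_s : ∃ t, chk3 f_pm_112_s t 2 3 1 = true :=
  ⟨(a (b (a (b (b (a (a (l 16577360) (l 16587960)) (b (l 16616792) (l 16588552))) (a (b (l 16540064) (l 16492384)) (a (l 16539776) (l 16550344)))) (b (a (b (l 16487576) (l 16442072)) (l 16489856)) (l 6))) (b (a (b (l 16556416) (l 16522664)) (b (l 16563776) (l 16580784))) (b (a (l 16488200) (l 16527504)) (l 6)))) (l 6)) (b (b (a (a (b (a (l 16628768) (l 16627664)) (l 16587184)) (b (l 16624360) (l 16544576))) (a (b (l 16591704) (l 16574456)) (b (a (l 16598544) (l 16587696)) (l 16555304)))) (b (a (a (l 16542800) (l 16545880)) (a (l 16538072) (l 16518440))) (l 6)))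 (l 6))), by decide +kernel⟩

def k2_pm_112_s : ∃ t, chk3 f_pm_112_s t 3 1 1 = true :=
  ⟨(b (a (b (l 1) (b (l 1) (b (l 1) (a (a (b (l 1) (l 16603536)) (l 1)) (l 1))))) (l 1)) (b (b (a (a (a (b (a (l 16577504) (l 16568928)) (l 16535400)) (b (a (l 139619430679) (l 1)) (a (l 16522680) (l 16494536)))) (a (b (l 1) (c (l 127271235975) (l 129955583991))) (l 1))) (l 1)) (b (a (a (a (l 16498816) (a (l 16486448) (l 16478912))) (b (a (l 16456552) (l 1)) (l 6))) (l 1)) (a (l 6) (l 6)))) (l 6))), by decide +kernel⟩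

theorem s3_pm_112_s : ∃ t, chk3 f_pm_112_s t 2 1 1 = true := ex3_b k0_pm_112_s k1_pm_112_s

theorem s4_pm_112_s : ∃ t, chk3 f_pm_112_s t 1 1 1 = true := ex3_a s3_pm_112_s k2_pm_112_s

theorem c_pm_112_s : CertNE 536870912 536870912 536870912 536870912 923417968 42949674 3 eng mog cd0q1 cd0q1 pd2 true true false .dn 1 1 2
    ndB0q1 ndB0q1 pcB2 cut_pm_112_s Ext.none :=
  certNE1 (fam := true) (s1 := true) (s2 := false) (a := 1) (b := 1) (c := 2) (cn := .dn) (n1 := ndB0q1) (n2 := ndB0q1) (pc := pcB2) (cut := cut_pm_112_s) (xt := Ext.none) (P1 := 536870912) (W1 := 536870912) (P2 := 536870912) (W2 := 536870912) (P3 := 923417968) (W3 := 42949674) (N0 := 3) (En := eng) (mo := mog) (C1 := cd0q1) (C2 := cd0q1) (C3 := pd2)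
    rfl (fun _ => rfl) s4_pm_112_s

noncomputable def cut_pm_112_t : Cut := Cut.of [[⟨3, 0, 0, 2845415833⟩]]

noncomputable def f_pm_112_t : ℕ → ℕ → ℕ → ℕ → Bool := onCell 536870912 536870912 1073741824 536870912 923417968 42949674
    (rowNE 3 eng mog cd0q1 cd0q1 pd2 1 true true false .dn 1 1 2 (qsf 536870912 536870912 536870912 536870912 2) ndB0q1 ndB0q1 pcB2 cut_pm_112_t Ext.none)

def k0_pm_112_t : ∃ t, chk3 f_pm_112_t t 1 1 1 = true :=
  ⟨(l 6), by decide +kernel⟩

theorem c_pm_112_t : CertNE 536870912 536870912 536870912 536870912 923417968 42949674 3 eng mog cd0q1 cd0q1 pd2 true true false .dn 1 1 2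
    ndB0q1 ndB0q1 pcB2 cut_pm_112_t Ext.none :=
  certNE1 (fam := true) (s1 := true) (s2 := false) (a := 1) (b := 1) (c := 2) (cn := .dn) (n1 := ndB0q1) (n2 := ndB0q1) (pc := pcB2) (cut := cut_pm_112_t) (xt := Ext.none) (P1 := 536870912) (W1 := 536870912) (P2 := 536870912) (W2 := 536870912) (P3 := 923417968) (W3 := 42949674) (N0 := 3) (En := eng) (mo := mog) (C1 := cd0q1) (C2 := cd0q1) (C3 := pd2)
    rfl (fun _ => rfl) k0_pm_112_t

noncomputable def cut_pm_113_s : Cut := Cut.of [[⟨4, 0, 0, 1449551462⟩], [⟨0, 1, 0, 67108864⟩, ⟨1, 1, 0, 67108864⟩, ⟨2, 2, 0, 16252928⟩], [⟨0, 0, 1, 20971520⟩, ⟨1, 1, 0, 8388608⟩, ⟨2, 1, 1, 20971520⟩], [⟨0, 1, 0, 8388608⟩, ⟨1, 0, 1, 20971520⟩, ⟨2, 1, 1, 20971520⟩]]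

noncomputable def f_pm_113_s : ℕ → ℕ → ℕ → ℕ → Bool := onCell 1610612736 536870912 536870912 536870912 923417968 42949674
    (rowNE 3 eng mog cd0q1 cd0q1 pd3 2 true true false .nn 1 1 3 (qsf 536870912 536870912 536870912 536870912 3) ndB0q1 ndB0q1 pcB3 cut_pm_113_s Ext.none)

def k0_pm_113_s : ∃ t, chk3 f_pm_113_s t 1 1 1 = true :=
  ⟨(a (b (a (l 6) (l 6)) (l 6)) (l 6)), by decide +kernel⟩

theorem c_pm_113_s : CertNE 536870912 536870912 536870912 536870912 923417968 42949674 3 eng mog cd0q1 cd0q1 pd3 true true false .nn 1 1 3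
    ndB0q1 ndB0q1 pcB3 cut_pm_113_s Ext.none :=
  certNE2 (fam := true) (s1 := true) (s2 := false) (a := 1) (b := 1) (c := 3) (cn := .nn) (n1 := ndB0q1) (n2 := ndB0q1) (pc := pcB3) (cut := cut_pm_113_s) (xt := Ext.none) (P1 := 536870912) (W1 := 536870912) (P2 := 536870912) (W2 := 536870912) (P3 := 923417968) (W3 := 42949674) (N0 := 3) (En := eng) (mo := mog) (C1 := cd0q1) (C2 := cd0q1) (C3 := pd3)
    rfl (fun _ => rfl) k0_pm_113_s

end Pool.Agent.Strip051.G.I8600_9000.Tab.CS.BA00

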