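import Pool.Agent.Strip051.G.I8600_9000.Tab
import Pool.Agent.Strip051.PB.StripB

/-! # Strips, near vertex: certificates 4 (generated) -/

set_option linter.all false
set_option maxRecDepth 100000

namespace Pool.Agent.Strip051.G.I8600_9000.Tab.CS.BA00

open Pool.Agent.Strip051.PB Pool.Agent.Strip051.PB.T
open Pool.Agent.Strip051.G.I8600_9000.Tab

noncomputable def cut_mm_202_t : Cut := Cut.of [[⟨3, 0, 0, 2845415833⟩], [⟨0, 1, 0, 67108864⟩, ⟨1, 0, 0, 67108864⟩, ⟨2, 1, 0, 67108864⟩]]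

noncomputable def f_mm_202_t : ℕ → ℕ → ℕ → ℕ → Bool := onCell 0 536870912 0 536870912 923417968 42949674
    (rowNE 3 eng mog cd0q2 cd0q0 pd2 0 true false false .pp 2 0 2 (qsf 0 536870912 0 536870912 2) ndB0q2 ndB0q0 pcB2 cut_mm_202_t Ext.none)

def k0_mm_202_t : ∃ t, chk3 f_mm_202_t t 2 2 1 = true :=
  ⟨(b (b (l 6) (a (l 6) (a (l 6) (a (l 6) (b (b (l 6) (l 16572720)) (b (l 16546072) (a (l 16567384) (l 16586824)))))))) (a (b (l 6) (b (l 6) (a (l 6) (a (l 6) (b (l 6) (l 16413032)))))) (b (a (b (l 6) (a (l 6) (b (l 16465064) (l 16469464)))) (b (a (b (l 16532688) (l 16543264)) (b (a (l 16564880) (l 16585592)) (c (l 16583112) (l 16572480)))) (a (b (l 16544368) (c (l 16550832) (l 16535200))) (b (c (l 16589440) (l 16578280)) (a (l 16580640) (l 16604816)))))) (a (a (b (b (l 16462280) (l 16428304)) (b (l 16438888) (l 16457320))) (b (b (l 16492488) (c (l 16517808) (l 16497264))) (b (c (l 16530024) (l 16509824)) (c (l 16544472) (l 16524928))))) (b (a (b (c (l 16560264)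 (l 16544552)) (c (l 16572064) (l 16556576))) (b (c (l 16609784) (l 16598520)) (a (l 16604912) (l 16631064)))) (a (b (c (l 16586024) (l 16571040)) (c (l 16601912) (l 16587728))) (a (b (l 16620440) (l 16637896)) (b (l 16647472) (a (l 16658872) (l 16672648)))))))))), by decide +kernel⟩

def k1_mm_202_t : ∃ t, chk3 f_mm_202_t t 12 8 1 = true :=
  ⟨(a (b (l 6) (b (l 6) (a (l 6) (c (l 16530880) (l 16528496))))) (a (b (l 6) (b (b (l 16469736) (l 16490304)) (b (l 16531448) (l 16551152)))) (b (b (b (l 6) (c (l 16430096) (l 16418280))) (b (a (l 6) (l 16449264)) (c (l 16490496) (l 16481656)))) (b (c (b (l 16509768) (l 16528704)) (b (l 16502552) (l 16523112))) (b (l 16545256) (l 16564128)))))), by decide +kernel⟩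

def k2_mm_202_t : ∃ t, chk3 f_mm_202_t t 13 8 1 = true :=
  ⟨(b (a (b (a (b (c (b (l 16445992) (l 16455744)) (l 16423952)) (c (l 16449288) (l 16437848))) (b (c (a (l 16466672) (l 16477664)) (a (l 16454664) (l 16466056))) (c (a (l 16485552) (l 16496240)) (l 16472144)))) (a (b (c (l 16468408) (l 16458280)) (a (l 16478312) (l 16495472))) (b (c (l 16498856) (l 16494384)) (c (l 16506512) (l 16498136))))) (b (c (a (a (b (l 16489016) (l 16507296)) (b (l 16479768) (l 16518728))) (b (a (l 16493168) (b (l 16520888) (l 16529688))) (a (l 16509576) (l 16521792)))) (a (b (c (l 16476248) (l 16460192)) (c (l 16484464) (l 16479280))) (b (a (l 16481736) (l 16500024)) (b (l 16512384) (l 16521480))))) (a (b (c (c (l 16512088) (l 16507624)) (c (l 16503056) (l 16498392))) (c (c (l 16529296) (l 16525416)) (c (l 16521448) (l 16538376)))) (b (c (b (l 16539144) (l 16537208)) (b (l 16530544) (l 16529088))) (c (b (l 16545664) (l 16554016)) (b (l 16538064) (l 16546984))))))) (b (a (a (b (a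 (l 16497784) (l 16506688)) (c (l 16544928) (l 16539296))) (c (b (l 16524320) (l 16541760)) (b (l 16538328) (l 16557200)))) (a (c (b (l 16560216) (l 16582208)) (b (l 16558848) (l 16576920))) (c (b (b (l 16562272) (l 16570424)) (c (l 16604632) (l 16602224))) (b (b (l 16576808) (l 16585560)) (b (l 16594224) (l 16602768)))))) (a (a (c (b (l 16562712) (l 16580088)) (b (l 16558568) (l 16577320))) (c (b (l 16579784) (l 16596400)) (b (l 16575632) (l 16593528)))) (a (c (b (l 16598544) (l 16614440)) (b (l 16594536) (l 16611608))) (b (c (b (l 16615208) (l 16622920)) (a (l 16609920) (l 16620824))) (c (a (l 16629096) (l 16639488)) (l 16631632))))))), by decide +kernel⟩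

def k3_mm_202_t : ∃ t, chk3 f_mm_202_t t 6 9 1 = true :=
  ⟨(a (b (a (b (b (a (l 6) (l 16559880)) (l 16533408)) (a (l 16600800) (l 16586320))) (a (b (c (l 16558848) (l 16558768)) (l 16573760)) (b (c (l 16570840) (l 16570224)) (b (l 16617424) (l 16633904))))) (a (b (a (l 16610024) (l 16626984)) (a (l 16584720) (l 16624016))) (b (a (l 16622504) (l 16625928)) (a (l 16641872) (b (l 16659432) (l 16639280)))))) (b (a (b (b (a (l 16575256) (c (l 16612568) (l 16610824))) (a (l 16592208) (c (l 16628248) (l 16627424)))) (b (a (l 16608536) (l 16622360)) (a (l 16624200) (l 16637192)))) (c (b (a (b (l 16629864) (l 16644792)) (b (l 16628032) (l 16642224))) (a (a (l 16641064) (l 16649224)) (b (l 16655832) (l 16668784)))) (b (a (b (l 16628048) (l 16643800)) (b (l 16626288) (l 16641200))) (a (a (l 16641136) (l 16649168)) (b (l 16655392) (l 16668840)))))) (a (b (a (b (l 16660112) (l 16674312)) (b (l 16672280) (l 16685640))) (a (b (l 16676952) (l 16678544)) (b (l 16694432) (l 16696776))))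 (b (a (b (l 16660064) (l 16698808)) (b (c (l 16681040) (l 16681512)) (c (l 16713552) (l 16714336)))) (a (b (l 16710552) (l 16714936)) (b (c (l 16724344) (l 16725344)) (c (l 16733232) (l 16732568)))))))), by decide +kernel⟩

def k4_mm_202_t : ∃ t, chk3 f_mm_202_t t 14 16 1 = true :=
  ⟨(a (b (a (b (c (a (b (l 16533792) (l 16542480)) (b (l 16547096) (l 16555664))) (a (l 16518736) (b (l 16538728) (l 16547480)))) (c (a (l 16539648) (l 16557904)) (a (l 16536480) (l 16555336)))) (b (c (a (b (l 16560608) (l 16569080)) (b (l 16574112) (l 16582504))) (a (b (l 16552928) (l 16561552)) (c (l 16562656) (l 16548648)))) (c (a (b (l 16577472) (l 16585784)) (b (l 16590808) (l 16599024))) (a (l 16570520) (b (l 16584120) (l 16592568)))))) (a (c (b (a (l 16551288) (l 16574560)) (a (l 16567800) (l 16596064))) (b (a (l 16543624) (l 16567416)) (a (l 16561056) (l 16595008)))) (c (b (a (b (l 16594000) (l 16602120)) (a (l 16586912) (l 16603968))) (a (b (l 16610136) (l 16618048)) (b (l 16623080)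 (l 16630880)))) (b (a (l 16586256) (b (l 16600968) (l 16609312))) (a (l 16608304) (l 16621696)))))) (b (a (a (b (b (l 14) (c (l 16596000) (l 16589792))) (c (c (l 16599288) (l 16596368)) (c (l 16593400) (l 16579888)))) (b (l 14) (c (c (l 16618920) (l 16615328)) (c (l 16612680) (l 16615232))))) (a (b (l 14) (b (l 14) (c (l 16633152) (l 16624648)))) (l 14))) (a (b (a (c (c (l 16615240) (l 16612568)) (a (l 16594504) (l 16601448))) (c (b (l 16623376) (l 16631240)) (c (l 16634200) (l 16631736)))) (c (a (c (l 16630728) (l 16638864)) (b (l 16638984) (l 16657096))) (a (c (l 16636464) (l 16634016)) (b (l 16645056) (l 16653000))))) (b (b (a (c (l 16642376) (l 16632776)) (l 14)) (a (c (l 16650176) (l 16651296)) (c (a (l 16665928) (l 16673096)) (l 16665992)))) (a (c (b (l 16657856) (l 16660168)) (b (l 16659248) (l 16667096))) (c (b (l 16677136) (l 16684640)) (b (l 16673864) (l 16681624)))))))), by decide +kernel⟩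

def k5_mm_202_t : ∃ t, chk3 f_mm_202_t t 28 17 1 = true :=
  ⟨(b (a (b (c (a (l 16583880) (l 16611888)) (a (l 16599184) (l 16611808))) (c (a (l 16599520) (l 16632480)) (a (l 16615944) (l 16628224)))) (b (c (a (l 16629704) (c (l 16643472) (l 16641272))) (a (l 16624776) (l 16637872))) (c (a (l 16644800) (c (l 16658136) (l 16656360))) (a (l 16640856) (l 16653632))))) (a (b (c (a (l 16635664) (l 16647352)) (a (l 16632224) (l 16644152))) (c (a (l 16650360) (l 16661736)) (a (l 16647920) (l 16659472)))) (b (c (a (l 16659392) (b (l 16668040) (l 16675072))) (a (l 16656424) (b (l 16665112) (l 16672592)))) (c (a (l 16673464) (l 16685384)) (a (l 16671408) (l 16683520)))))), by decide +kernel⟩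

def k6_mm_202_t : ∃ t, chk3 f_mm_202_t t 29 17 1 = true :=
  ⟨(b (c (a (b (a (a (l 16631000) (l 16637480)) (b (l 16664608) (l 16671976))) (a (b (l 16666264) (l 16673456)) (b (l 16679224) (l 16686320)))) (b (a (b (l 16678088) (l 16685384)) (b (l 16692000) (l 16701856))) (a (b (l 16692544) (l 16699560)) (b (l 16710248) (a (l 16709768) (l 16716752)))))) (a (b (a (b (l 16647208) (l 16655064)) (b (l 16660840) (l 16668568))) (a (b (l 16662792) (l 16670400)) (b (l 16676168) (l 16683632)))) (b (a (b (l 16674832) (l 16682440)) (b (l 16689272) (l 16696784))) (a (b (l 16689920) (l 16697264)) (b (l 16709408) (a (l 16707792) (l 16714992))))))) (a (b (c (a (b (l 16680520) (l 16687432)) (b (l 16693280) (l 16700096))) (a (b (l 16677872) (l 16685200)) (b (l 16690960) (l 16698136)))) (b (a (c (l 16694200) (l 16692360)) (c (l 16706752) (l 16705152))) (a (c (l 16700832) (l 16699360)) (c (l 16713264) (l 16711992))))) (c (b (b (a (l 16706432) (a (l 16716576) (l 16723520))) (a (l 16713144)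 (a (l 16723232) (l 16730136)))) (a (b (a (l 16716408) (l 16723000)) (a (l 16722840) (l 16729384))) (a (b (l 16729728) (l 16736056)) (b (l 16736592) (l 16742880))))) (b (b (a (l 16704456) (a (l 16714888) (l 16722040))) (a (l 16711496) (a (l 16721832) (l 16728912)))) (a (b (l 16707880) (l 16714576)) (b (a (l 16728600) (l 16735616)) (c (l 16728376) (l 16717488)))))))), by decide +kernel⟩

def k7_mm_202_t : ∃ t, chk3 f_mm_202_t t 15 16 1 = true :=
  ⟨(a (b (l 14) (a (b (l 14) (b (a (c (c (l 16692352) (l 16691024)) (a (l 16685152) (l 16692872))) (l 14)) (a (c (c (l 16699736) (l 16698536)) (a (l 16692856) (l 16700552))) (c (a (l 16710408) (l 16718168)) (a (l 16708408) (l 16716432)))))) (l 14))) (l 14)), by decide +kernel⟩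

def k8_mm_202_t : ∃ t, chk3 f_mm_202_t t 60 34 1 = true :=
  ⟨(c (b (a (c (b (l 16706984) (l 16716712)) (b (l 16705912) (l 16718392))) (a (b (l 16717688) (l 16724816)) (b (l 16725424) (b (l 16730768) (l 16734280))))) (a (b (a (l 16716992) (l 16724312)) (a (l 16723880) (l 16731168))) (a (b (l 16731800) (b (l 16736936) (l 16740312))) (b (b (l 16737760) (l 16741200)) (b (l 16744600) (l 16747960)))))) (b (a (b (a (l 16700440) (l 16708104)) (a (l 16707896) (l 16715512))) (b (a (l 16715928) (l 16723928)) (a (l 16723296) (l 16733888)))) (a (b (a (l 16715200) (l 16722776)) (a (l 16722352) (l 16729880))) (a (b (l 16730520) (l 16727096)) (b (b (l 16736664) (l 16740216)) (b (l 16743728) (l 16747200))))))), by decide +kernel⟩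

def k9_mm_202_t : ∃ t, chk3 f_mm_202_t t 61 68 1 = true :=
  ⟨(b (a (a (c (b (l 16731568) (l 16735152)) (b (l 16730256) (l 16733952))) (l 14)) (l 14)) (b (a (a (c (l 16738696) (l 16737608)) (c (l 16749456) (l 16745984))) (l 14)) (a (a (c (l 16742200) (l 16741224)) (c (a (l 16748272) (l 16752392)) (a (l 16747472) (l 16751712)))) (a (a (a (l 16755224) (l 16757360)) (c (l 16760816) (l 16760360))) (l 14))))), by decide +kernel⟩

def k10_mm_202_t : ∃ t, chk3 f_mm_202_t t 61 69 1 = true :=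
  ⟨(a (c (a (a (b (l 16745384) (b (l 16750488) (l 16753832))) (b (l 16751024) (b (l 16754480) (l 16757824)))) (a (b (b (l 16751728) (l 16755152)) (c (l 16755072) (l 16749608))) (b (b (l 16755848) (l 16759264)) (b (l 16762632) (l 16760720))))) (a (a (b (l 16744520) (l 16751512)) (b (l 16748640) (l 16747744))) (b (b (a (l 16751040) (l 16755264)) (a (l 16754560) (l 16758784))) (b (c (l 16749768) (l 16749544)) (c (l 16753168) (l 16753000)))))) (a (a (b (b (b (l 16758920) (l 16758040)) (c (l 16763432) (l 16763064))) (b (c (l 16761560) (l 16756040)) (c (l 16764880) (l 16764696)))) (c (b (b (l 16759016) (l 16762424)) (b (c (l 16765824) (l 16765744)) (a (l 16768040) (b (l 16769336) (l 16776168))))) (b (b (l 16763904) (l 16762168)) (b (l 16765616) (a (l 16762696) (l 16775312)))))) (b (b (a (c (c (l 16763376) (l 16763256)) (l 16763080)) (l 14)) (a (c (c (l 16766752) (l 16766680)) (l 16766576)) (a (b (l 16771712) (c (l 16776008) (l 16775976))) (a (b (l 16776000) (c (l 75933681047)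 (l 74323069639))) (b (l 14) (l 4)))))) (a (a (b (c (l 16774232) (l 16774152)) (a (b (l 16776160) (a (l 68417489559) (l 139821320711))) (b (a (l 16776880) (l 64122522263)) (l 4)))) (b (b (l 16772912) (a (l 16777576) (a (l 60901296743) (l 132305127879)))) (c (l 230552501367) (l 236994954887)))) (b (a (a (b (b (l 16776720) (l 16777936)) (l 4)) (c (l 212298892567) (l 217667601639))) (l 4)) (l 4)))))), by decide +kernel⟩

def k11_mm_202_t : ∃ t, chk3 f_mm_202_t t 60 35 1 = true :=
  ⟨(c (b (a (b (a (l 16730616) (l 16737864)) (a (l 16737192) (b (l 16742784) (l 16746016)))) (b (a (b (l 16743640) (l 16746936)) (a (l 16751000) (l 16749624))) (a (c (l 16741472) (l 16751648)) (b (l 16752552) (l 16754112))))) (b (a (a (l 16743600) (a (l 16748968) (l 16752600))) (a (c (l 16750384) (l 16747552)) (c (b (l 16753728) (l 16756824)) (b (l 16753584) (l 16756712))))) (a (a (l 16739368) (c (l 16746608) (l 16746400))) (b (a (l 16757544) (c (l 16765112) (l 16759800))) (a (l 16760584)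 (a (l 16760952) (a (l 16774288) (l 16776088)))))))) (a (a (b (b (l 16729344) (l 16736160)) (b (l 16742800) (l 16738776))) (b (b (l 16736816) (l 16733096)) (b (l 16739680) (c (l 16746184) (l 16756448))))) (a (b (b (b (l 16742760) (l 16746168)) (a (l 16749264) (l 16753112))) (b (c (l 16747336) (l 16747120)) (c (l 16753624) (l 16753496)))) (b (b (c (l 16741984) (l 16741680)) (c (l 16748600) (l 16748392))) (a (b (l 16753008) (l 16764544)) (b (l 16759552) (b (l 16761648) (l 16776424)))))))), by decide +kernel⟩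

def k12_mm_202_t : ∃ t, chk3 f_mm_202_t t 61 35 1 = true :=
  ⟨(a (b (b (b (a (c (a (l 16757144) (l 16761120)) (l 16753432)) (a (a (l 16758736) (l 16760792)) (c (l 16764008) (l 16758568)))) (a (c (c (l 16757240) (l 16751816)) (l 16754168)) (c (a (l 16763168) (l 16767256)) (a (l 16757712) (l 16772384))))) (a (c (a (c (l 16760064) (l 16754680)) (c (l 16762688) (l 16763904))) (b (c (l 16754928) (l 16754792)) (c (l 16758168) (l 16758072)))) (a (b (c (l 16766384) (l 16761008)) (b (l 16770032) (c (l 16775504) (l 16775464)))) (a (b (c (l 16774680) (l 16774616)) (a (b (l 16776488) (l 123178322999)) (b (l 63048780999) (l 4)))) (b (b (l 16775896) (a (l 16776864) (l 112440904839))) (l 4)))))) (a (b (a (c (b (l 16759472) (l 16773056)) (b (l 16759312) (l 16772968))) (b (c (l 16773904) (l 16773832)) (a (c (l 16775904) (l 16775872)) (b (c (l 16776952) (l 16776936)) (l 165591125959))))) (b (b (a (c (l 16775312) (l 16775272)) (c (l 197803378087) (l 202635216231))) (a (a (l 16775864)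 (c (l 80228650551) (l 16778608))) (l 4))) (a (a (b (a (l 16776800) (l 16778712)) (l 179012898711)) (l 4)) (l 4)))) (b (a (b (a (b (l 16776072) (c (l 67880619527) (l 16779160))) (c (b (l 102240357943) (l 4)) (l 191360926775))) (l 4)) (l 4)) (l 4)))) (b (a (b (a (b (c (l 16768816) (l 16768072)) (b (a (l 16774768) (c (l 16778336) (l 16776672))) (c (a (l 16776320) (l 128010161623)) (a (l 16776296) (l 130157645239))))) (a (b (b (l 16775712) (a (l 16778040) (a (l 79154907767) (l 158074931447)))) (c (l 236994955031) (l 244511147735))) (b (b (a (a (l 16776944) (l 73249327783)) (l 153779964791)) (l 4)) (l 4)))) (a (a (b (b (a (l 54995715975) (l 181697252151)) (l 4)) (l 4)) (l 4)) (l 4))) (l 4)) (l 4))), by decide +kernel⟩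

def k13_mm_202_t : ∃ t, chk3 f_mm_202_t t 31 17 1 = true :=
  ⟨(a (b (a (b (l 14) (b (b (l 14) (b (l 14) (l 4))) (l 4))) (l 4)) (l 4)) (l 4)), by decide +kernel⟩

def k14_mm_202_t : ∃ t, chk3 f_mm_202_t t 28 18 1 = true :=
  ⟨(b (c (a (b (a (l 16664560) (l 16675600)) (a (l 16678224) (l 16688920))) (b (a (l 16687016) (l 16677664)) (a (l 16700008) (l 16690344)))) (a (b (a (l 16662952) (l 16674120)) (a (l 16677256) (l 16688032))) (b (a (l 16685688) (l 16676488)) (a (l 16699216) (l 16689656))))) (b (a (a (l 16670072) (c (l 16701632) (l 16701192))) (a (c (l 16691400) (l 16711976)) (c (l 16702384) (l 16702040)))) (a (a (l 16682672) (a (l 16690072) (l 16695184))) (a (c (l 16703064) (l 16702992)) (c (l 16713712) (l 16713632)))))), by decide +kernel⟩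

def k15_mm_202_t : ∃ t, chk3 f_mm_202_t t 29 18 1 = true :=
  ⟨(b (a (c (b (a (b (l 16707320) (l 16713664)) (a (l 16719640) (l 16715376))) (a (c (l 16702088) (l 16701792)) (b (l 16710928) (l 16716824)))) (b (a (b (l 16706168) (l 16712776)) (c (l 16701152) (l 16700736))) (a (c (l 16701504) (l 16701216)) (a (l 16710360) (l 16716512))))) (b (b (a (c (a (l 16729112) (l 16735600)) (l 16721080)) (c (a (l 16742224) (l 16738512)) (c (l 16734688) (l 16734400)))) (a (c (a (l 16735224) (l 16741656)) (l 16727392)) (c (a (l 16748224) (l 16744464)) (a (l 16747792) (l 16744120))))) (a (b (c (c (l 16733992) (l 16723304)) (l 16733488)) (c (c (l 16739728) (l 16729096)) (l 16739376))) (c (b (a (l 16743584) (l 16750248)) (a (l 16749256) (l 16755856))) (a (b (l 16753776) (l 16738584)) (b (l 16750032) (l 16755736))))))) (a (b (a (c (c (l 16713752) (l 16713600)) (l 16718632)) (c (b (l 16722544) (l 16738568)) (b (l 16722272) (l 16727912)))) (a (c (b (l 16721984) (l 16727304)) (b (l 16721864)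 (l 16727272))) (c (a (l 16743624) (l 16759912)) (b (l 16733344) (l 16738560))))) (a (b (b (c (c (l 16745288) (l 16734704)) (l 16745056)) (a (l 16750112) (c (l 16753720) (l 16743144)))) (b (c (a (l 16742304) (l 16769376)) (l 16764968)) (a (l 16766344) (a (l 16772816) (b (l 16774640) (a (l 16776240) (l 16779848))))))) (b (a (c (b (l 16754736) (l 16770520)) (b (l 16744144) (l 16770472))) (b (c (l 16771760) (l 16771704)) (a (b (l 16774048) (c (l 16776400) (l 16776384))) (b (c (l 51774491879) (l 50163881719)) (l 237531825415))))) (a (b (b (a (l 16772760) (l 16777792)) (a (l 16775248) (a (l 70564975831) (l 181697254519)))) (a (b (c (l 72712460023) (l 16779024)) (l 4)) (l 4))) (a (b (c (l 198340250039) (l 255785428599)) (l 4)) (l 4))))))), by decide +kernel⟩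

def k16_mm_202_t : ∃ t, chk3 f_mm_202_t t 14 19 1 = true :=
  ⟨(a (b (a (b (a (l 16694528) (c (l 16703992) (l 16704200))) (a (l 16726568) (c (l 16735520) (l 16735928)))) (b (a (c (l 16714008) (l 16714168)) (b (l 16732224) (l 16747848))) (a (c (l 16745160) (l 16745464)) (c (l 16755096) (l 16755288))))) (a (b (a (l 16736832) (c (l 16745320) (l 16745824))) (a (l 16735624) (c (l 16754312) (l 16754600)))) (b (a (c (l 16754568) (l 16754912)) (c (b (l 16761928) (l 16766240)) (l 16753824))) (a (c (l 16763168) (l 16763368)) (b (a (l 16768064) (l 16772736)) (a (l 16771928) (a (l 16775352) (a (l 16780856) (l 104924717415))))))))) (b (a (a (b (c (b (l 16732432) (l 16758336)) (l 16753336)) (c (a (l 16762744) (l 16757496)) (c (l 16760200) (l 16744528)))) (b (c (b (l 16764528) (l 16764048)) (a (l 16764152) (l 16764536))) (a (b (l 16765872) (a (l 16774168) (b (l 16775728) (l 85597362823)))) (a (b (c (l 16775144) (l 16775152)) (l 234847462327)) (b (b (l 16779304) (l 140895067095))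 (l 4)))))) (a (b (a (b (c (l 16773136) (l 16773136)) (a (b (l 16775200) (l 64659394391)) (c (l 198340245479) (l 231089364823)))) (b (a (b (l 16778888) (a (l 16779616) (l 4))) (l 258469783575)) (l 4))) (a (c (l 275649646247) (l 272428420743)) (l 4))) (l 4))) (a (a (b (a (b (l 16769424) (l 60364401111)) (b (c (l 16774400) (l 16774432)) (a (b (l 16776216) (l 109756553719)) (l 236994941255)))) (a (b (a (c (l 16776152) (l 16776168)) (b (l 16779784) (l 4))) (l 254174811191)) (l 4))) (a (b (b (c (l 214983238823) (l 223573166807)) (l 4)) (l 4)) (l 4))) (l 4)))), by decide +kernel⟩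

def k17_mm_202_t : ∃ t, chk3 f_mm_202_t t 15 9 1 = true :=
  ⟨(b (a (a (b (b (b (a (a (c (a (l 16754176) (l 16757680)) (l 16745032)) (c (c (l 16752608) (l 16752472)) (c (l 16752336) (l 16752200)))) (a (c (b (l 16762264) (l 16770464)) (c (l 16759728) (l 16759664))) (a (b (c (l 16774408) (l 16774352)) (a (c (l 16776264) (l 16776240)) (b (l 62511909639) (l 4)))) (b (a (b (l 16776432) (l 92039810647)) (c (l 202098345351) (l 206393312583))) (l 4))))) (a (c (a (c (l 16751400) (l 16751280)) (b (l 16756944) (l 16770312))) (a (l 16751096) (b (l 16756776) (l 16770208)))) (b (b (a (a (l 16761592) (c (l 16775728) (l 16775696))) (a (l 224646922599) (l 4))) (a (a (l 16773536) (a (l 16776256) (l 110293422183))) (l 4))) (a (a (c (a (l 16774800) (l 16776440)) (l 16775552)) (c (a (l 105461583799) (l 4)) (l 189213443463))) (l 4))))) (b (a (c (a (l 16767560) (a (l 16772784) (b (l 16774896) (b (l 16779360) (l 105998455623))))) (b (a (l 16745016) (l 16773072)) (a (l 16747880) (a (l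 16774136) (c (l 62511909975) (l 60364423847)))))) (a (a (b (a (b (l 16776768) (l 123715195159)) (l 231089374823)) (l 4)) (l 4)) (l 4))) (a (a (a (c (l 16771392) (l 16771328)) (b (l 16773432) (c (l 16776000) (l 16775976)))) (a (b (a (l 16775976) (a (l 16779624) (l 109219681079))) (c (l 201561474839) (l 210688279879))) (l 4))) (l 4)))) (a (b (a (b (b (a (c (l 16775376) (l 16775352)) (c (a (l 90966069703) (l 4)) (l 112440905559))) (a (c (c (l 81839260215) (l 81839265447)) (l 82376131463)) (l 4))) (l 4)) (l 4)) (l 4)) (l 4))) (l 4)) (l 4)) (l 4)), by decide +kernel⟩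

def k18_mm_202_t : ∃ t, chk3 f_mm_202_t t 6 10 1 = true :=
  ⟨(a (b (a (a (b (l 16605712) (l 16610104)) (b (l 16604328) (l 16609936))) (a (b (l 16623440) (b (l 16649232) (l 16653600))) (b (l 16663472) (b (l 16669224) (l 16674208))))) (a (a (b (l 16617920) (l 16628408)) (b (l 16639880) (b (l 16648368) (l 16654784)))) (b (a (b (l 16658656) (l 16664376)) (b (l 16679864) (l 16686160))) (a (b (l 16670728) (l 16677688)) (c (l 16677656) (l 16673784)))))) (b (a (b (a (b (l 16660056) (l 16663680)) (b (l 16699984) (l 16683296))) (a (b (l 16668408) (l 16674016)) (b (b (l 16687248) (l 16690192)) (b (l 16693312) (l 16696600))))) (b (a (b (l 16719016) (l 16726576)) (b (c (l 16738264) (l 16737480)) (c (l 16744088) (l 16743280)))) (a (b (c (l 16709712) (l 16708312)) (c (l 16716576) (l 16715264))) (b (c (l 16750776) (l 16750032)) (a (l 16752728) (c (l 16763496) (l 16763072))))))) (a (b (a (b (l 16680280) (l 16687176)) (b (b (l 16700048) (l 16703648)) (c (l 16710232) (l 16708368))))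 (a (b (a (l 16709992) (l 16721320)) (b (l 16700688) (l 16704864))) (b (c (l 16718216) (l 16716592)) (c (l 16726728) (l 16725400))))) (b (a (a (b (l 16718056) (l 16726032)) (b (l 16734152) (l 16758184))) (a (b (c (l 16761040) (l 16760488)) (b (l 16767200) (l 37278952263))) (b (b (l 16769528) (c (l 16773944) (l 16773824))) (a (b (l 16775568) (l 125325814935)) (b (l 144116297591) (l 4)))))) (a (a (b (l 16755568) (l 16764672)) (b (c (l 16767256) (l 16766856)) (a (b (l 16771152) (l 16775872)) (b (l 16755952) (l 107608991895))))) (a (b (a (b (l 16773384) (l 110830238775)) (b (l 108682815799) (l 4))) (l 4)) (l 4))))))), by decide +kernel⟩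

def k19_mm_202_t : ∃ t, chk3 f_mm_202_t t 6 11 1 = true :=
  ⟨(b (a (b (a (a (l 16641384) (b (l 16661792) (l 16669368))) (a (b (l 16685216) (l 16693296)) (b (l 16687688) (a (l 16711248) (l 16723296))))) (b (a (a (l 16652648) (l 16677472)) (a (l 16701896) (a (l 16720224) (l 16732528)))) (a (a (l 16660800) (l 16686088)) (a (l 16690024) (c (l 16716112) (l 16713792)))))) (a (b (a (b (c (l 16712432) (l 16710264)) (c (l 16721384) (l 16719592))) (b (a (l 16729272) (l 16762248)) (a (l 16759792) (b (l 16769584) (l 68417444599))))) (b (c (a (l 16751768) (a (l 16769936) (l 177402263975))) (a (l 16750408) (a (l 16769552) (l 180623486727)))) (a (a (l 16733880) (l 16767520)) (a (b (l 87207908279) (a (l 16751744) (l 4))) (l 4))))) (b (a (a (c (b (b (l 16771944) (l 37278983991)) (l 186529061159)) (b (l 68954292727) (l 188676540583))) (b (b (l 209614508695) (l 4)) (l 4))) (l 4)) (l 4)))) (a (a (b (a (b (l 16669448) (l 16678568)) (b (l 16695192) (l 16704744))) (a (b (l 16688128)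 (l 16698104)) (b (l 16714720) (l 16704120)))) (a (b (b (a (l 16714224) (l 16726872)) (a (l 16724104) (l 16736984))) (b (c (l 16721112) (l 16718800)) (b (l 16728040) (l 16754496)))) (b (b (c (l 16725888) (l 16724088)) (a (l 16728960) (l 16762952))) (a (b (l 16760664) (b (l 16768952) (l 16774184))) (b (b (l 16771056) (l 16755080)) (a (l 95797841991) (l 4))))))) (a (a (b (b (a (l 16765248) (c (l 101703434199) (l 105461509063))) (a (c (l 75933623991) (l 70028039335)) (l 195655854087))) (b (a (l 187602798503) (l 4)) (l 4))) (l 4)) (l 4)))), by decide +kernel⟩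

def k20_mm_202_t : ∃ t, chk3 f_mm_202_t t 7 5 1 = true :=
  ⟨(b (a (a (b (b (b (c (b (a (l 16755072) (a (l 16768624) (a (l 16775536) (l 226794392263)))) (a (l 16758280) (a (l 16772248) (a (l 213372623223) (l 4))))) (a (a (l 16751680) (l 16760944)) (a (a (l 16767912) (l 16772680)) (a (b (l 16775576) (l 118346487431)) (l 226257528039))))) (a (a (c (l 16758624) (l 16758200)) (c (l 16763016) (l 16768056))) (a (b (a (l 16773552) (a (c (l 16777016) (l 16777024)) (l 141968812023))) (a (c (l 73786194695) (l 74323075831)) (l 4))) (l 4)))) (a (b (a (c (l 16765928) (l 16765624)) (a (b (l 16771432) (c (l 16775544) (l 16775488))) (b (c (l 16779152) (l 16776568)) (l 212835744103)))) (a (a (a (l 16769904) (l 16772552)) (b (l 16774432) (a (l 16776888) (l 144653165975)))) (a (c (l 208540774007) (l 207467026263)) (l 4)))) (a (b (a (b (l 239142413431) (l 4)) (l 4)) (l 4)) (l 4)))) (a (b (a (b (b (c (l 196192749799) (l 197803358919)) (l 230015624839)) (l 4)) (l 4)) (l 4)) (l 4)))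 (l 4)) (l 4)) (l 4)), by decide +kernel⟩

def k21_mm_202_t : ∃ t, chk3 f_mm_202_t t 4 6 1 = true :=
  ⟨(b (a (b (l 6) (b (l 6) (a (l 6) (l 16359160)))) (b (a (b (l 6) (l 16383896)) (b (l 16427344) (l 16465280))) (a (b (l 16401784) (l 16421752)) (b (l 16484472) (l 16463632))))) (b (a (b (a (l 6) (l 16379880)) (a (l 16335976) (l 16402536))) (a (b (l 16443648) (l 16467344)) (b (l 16486520) (l 16511056)))) (b (a (a (l 16359344) (l 16427016)) (a (l 16492720) (l 16558096))) (l 2)))), by decide +kernel⟩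

def k22_mm_202_t : ∃ t, chk3 f_mm_202_t t 5 6 1 = true :=
  ⟨(b (a (b (a (b (l 16473040) (l 16499168)) (b (c (l 16561096) (l 16542496)) (c (l 16579928) (l 16562560)))) (a (b (l 16522112) (l 16553368)) (b (c (l 16600536) (l 16584648)) (a (l 16599336) (l 16632184))))) (b (a (b (c (l 16619752) (l 16606632)) (a (l 16618584) (l 16648912))) (a (b (l 16667768) (l 16720488)) (b (b (l 16680632) (l 16691064)) (b (l 16701992) (l 16713320))))) (a (a (b (l 16640624) (l 16664120)) (b (l 16671392) (a (l 16687560) (l 16702936)))) (b (a (b (l 16695632) (l 16707416)) (c (l 16690784) (l 16687080))) (a (c (l 16685856) (l 16702488)) (b (l 16749224) (l 16761576))))))) (a (b (a (b (l 16584936) (c (l 16606424) (l 16590048))) (a (b (l 16623568) (l 16649184)) (b (l 16656736) (l 16682576)))) (a (b (a (l 16608152) (l 16641944)) (a (l 2) (l 16669880))) (a (b (l 16676056) (l 93515945623)) (b (a (l 16701336) (l 16717848)) (l 16727216))))) (a (b (a (b (l 16709936) (b (l 16708408) (l 16721720)))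 (b (c (l 16701840) (l 16696880)) (b (l 16718992) (l 16753352)))) (b (a (b (l 16735296) (l 16749128)) (b (l 16766080) (l 90965999255))) (a (b (l 16762688) (l 75396751271)) (b (l 96871555063) (l 4))))) (b (b (a (b (l 16744608) (l 16757536)) (b (a (l 16767024) (l 16751360)) (a (l 16753080) (l 4)))) (a (b (l 48553216471) (a (l 16774776) (l 4))) (l 4))) (b (a (b (l 96871544759) (l 4)) (l 4)) (l 4)))))), by decide +kernel⟩

def k23_mm_202_t : ∃ t, chk3 f_mm_202_t t 2 7 1 = true :=
  ⟨(a (l 2) (a (l 2) (a (l 2) (l 4)))), by decide +kernel⟩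

def k24_mm_202_t : ∃ t, chk3 f_mm_202_t t 3 3 1 = true :=
  ⟨(b (a (a (b (b (a (b (a (c (l 16674080) (l 16690440)) (b (l 16704384) (l 16746928))) (a (b (l 16709416) (l 16720976)) (b (l 16755760) (a (l 16763152) (l 81302340535))))) (b (a (b (a (l 16756128) (l 16769448)) (a (l 16767432) (c (l 92576612071) (l 95260966119)))) (b (c (l 177402247911) (l 180086598679)) (l 4))) (a (b (a (c (l 16748440) (l 16753360)) (l 4)) (l 4)) (l 4)))) (a (b (a (b (l 16753816) (a (l 16758776) (l 16772456))) (b (a (l 16753200) (l 100629659751)) (l 165054211975))) (a (b (a (l 16770696) (l 87744773159)) (a (l 87744779463) (l 4))) (l 4))) (l 4))) (l 4)) (l 4)) (l 4)) (l 4)), by decide +kernel⟩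

theorem s25_mm_202_t : ∃ t, chk3 f_mm_202_t t 2 6 1 = true := ex3_a k21_mm_202_t k22_mm_202_t

theorem s26_mm_202_t : ∃ t, chk3 f_mm_202_t t 2 3 1 = true := ex3_b s25_mm_202_t k23_mm_202_t

theorem s27_mm_202_t : ∃ t, chk3 f_mm_202_t t 1 3 1 = true := ex3_a s26_mm_202_t k24_mm_202_t

theorem s28_mm_202_t : ∃ t, chk3 f_mm_202_t t 6 5 1 = true := ex3_b k18_mm_202_t k19_mm_202_t

theorem s29_mm_202_t : ∃ t, chk3 f_mm_202_t t 3 5 1 = true := ex3_a s28_mm_202_t k20_mm_202_t

theorem s30_mm_202_t : ∃ t, chk3 f_mm_202_t t 14 18 1 = true := ex3_a k14_mm_202_t k15_mm_202_t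

theorem s31_mm_202_t : ∃ t, chk3 f_mm_202_t t 14 9 1 = true := ex3_b s30_mm_202_t k16_mm_202_t

theorem s32_mm_202_t : ∃ t, chk3 f_mm_202_t t 7 9 1 = true := ex3_a s31_mm_202_t k17_mm_202_t

theorem s33_mm_202_t : ∃ t, chk3 f_mm_202_t t 30 35 1 = true := ex3_a k11_mm_202_t k12_mm_202_t

theorem s34_mm_202_t : ∃ t, chk3 f_mm_202_t t 61 34 1 = true := ex3_b k9_mm_202_t k10_mm_202_t

theorem s35_mm_202_t : ∃ t, chk3 f_mm_202_t t 30 34 1 = true := ex3_a k8_mm_202_t s34_mm_202_t

theorem s36_mm_202_t : ∃ t, chk3 f_mm_202_t t 30 17 1 = true := ex3_b s35_mm_202_t s33_mm_202_t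

theorem s37_mm_202_t : ∃ t, chk3 f_mm_202_t t 15 17 1 = true := ex3_a s36_mm_202_t k13_mm_202_t

theorem s38_mm_202_t : ∃ t, chk3 f_mm_202_t t 15 8 1 = true := ex3_b k7_mm_202_t s37_mm_202_t

theorem s39_mm_202_t : ∃ t, chk3 f_mm_202_t t 14 17 1 = true := ex3_a k5_mm_202_t k6_mm_202_t

theorem s40_mm_202_t : ∃ t, chk3 f_mm_202_t t 14 8 1 = true := ex3_b k4_mm_202_t s39_mm_202_t

theorem s41_mm_202_t : ∃ t, chk3 f_mm_202_t t 7 8 1 = true := ex3_a s40_mm_202_t s38_mm_202_t

theorem s42_mm_202_t : ∃ t, chk3 f_mm_202_t t 7 4 1 = true := ex3_b s41_mm_202_t s32_mm_202_t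

theorem s43_mm_202_t : ∃ t, chk3 f_mm_202_t t 6 8 1 = true := ex3_a k1_mm_202_t k2_mm_202_t

theorem s44_mm_202_t : ∃ t, chk3 f_mm_202_t t 6 4 1 = true := ex3_b s43_mm_202_t k3_mm_202_t

theorem s45_mm_202_t : ∃ t, chk3 f_mm_202_t t 3 4 1 = true := ex3_a s44_mm_202_t s42_mm_202_t

theorem s46_mm_202_t : ∃ t, chk3 f_mm_202_t t 3 2 1 = true := ex3_b s45_mm_202_t s29_mm_202_t

theorem s47_mm_202_t : ∃ t, chk3 f_mm_202_t t 1 2 1 = true := ex3_a k0_mm_202_t s46_mm_202_t

theorem s48_mm_202_t : ∃ t, chk3 f_mm_202_t t 1 1 1 = true := ex3_b s47_mm_202_t s27_mm_202_t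

theorem c_mm_202_t : CertNE 0 536870912 0 536870912 923417968 42949674 3 eng mog cd0q2 cd0q0 pd2 true false false .pp 2 0 2
    ndB0q2 ndB0q0 pcB2 cut_mm_202_t Ext.none :=
  certNE0 (fam := true) (s1 := false) (s2 := false) (a := 2) (b := 0) (c := 2) (cn := .pp) (n1 := ndB0q2) (n2 := ndB0q0) (pc := pcB2) (cut := cut_mm_202_t) (xt := Ext.none) (P1 := 0) (W1 := 536870912) (P2 := 0) (W2 := 536870912) (P3 := 923417968) (W3 := 42949674) (N0 := 3) (En := eng) (mo := mog) (C1 := cd0q2) (C2 := cd0q0) (C3 := pd2)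
    rfl s48_mm_202_t

noncomputable def cut_mm_203_s : Cut := Cut.of [[⟨4, 0, 0, 1449551462⟩]]

noncomputable def f_mm_203_s : ℕ → ℕ → ℕ → ℕ → Bool := onCell 0 536870912 0 536870912 923417968 42949674
    (rowNE 3 eng mog cd0q2 cd0q0 pd3 0 true false false .up 2 0 3 (qsf 0 536870912 0 536870912 3) ndB0q2 ndB0q0 pcB3 cut_mm_203_s Ext.none)

def k0_mm_203_s : ∃ t, chk3 f_mm_203_s t 1 1 1 = true :=
  ⟨(l 6), by decide +kernel⟩

theorem c_mm_203_s : CertNE 0 536870912 0 536870912 923417968 42949674 3 eng mog cd0q2 cd0q0 pd3 true false false .up 2 0 3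
    ndB0q2 ndB0q0 pcB3 cut_mm_203_s Ext.none :=
  certNE0 (fam := true) (s1 := false) (s2 := false) (a := 2) (b := 0) (c := 3) (cn := .up) (n1 := ndB0q2) (n2 := ndB0q0) (pc := pcB3) (cut := cut_mm_203_s) (xt := Ext.none) (P1 := 0) (W1 := 536870912) (P2 := 0) (W2 := 536870912) (P3 := 923417968) (W3 := 42949674) (N0 := 3) (En := eng) (mo := mog) (C1 := cd0q2) (C2 := cd0q0) (C3 := pd3)
    rfl k0_mm_203_s

noncomputable def cut_mm_203_t : Cut := Cut.of [[⟨3, 0, 0, 2845415833⟩]]

noncomputable def f_mm_203_t : ℕ → ℕ → ℕ → ℕ → Bool := onCell 0 536870912 1610612736 536870912 923417968 42949674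
    (rowNE 3 eng mog cd0q2 cd0q0 pd3 1 true false false .up 2 0 3 (qsf 0 536870912 0 536870912 3) ndB0q2 ndB0q0 pcB3 cut_mm_203_t Ext.none)

def k0_mm_203_t : ∃ t, chk3 f_mm_203_t t 4 4 1 = true :=
  ⟨(c (b (b (c (a (l 16634928) (b (l 16675552) (l 16690832))) (a (c (l 16540624) (l 16496544)) (b (l 16648728) (l 16668096)))) (b (a (l 16558496) (a (l 16681480) (l 16690440))) (a (l 16576360) (a (l 16697912) (c (l 16732192) (l 16721152)))))) (a (b (b (l 16614560) (l 16630872)) (b (l 16645520) (c (l 16726944) (l 16714296)))) (a (b (b (l 16713792) (l 16707936)) (b (l 16742536) (l 16755016))) (b (b (c (l 16745672) (l 16738104)) (b (l 16752808) (l 16759520))) (a (b (l 16762000) (b (l 16771016) (l 16775936))) (b (b (l 16772744) (l 93650351863)) (b (l 100629661927) (l 4)))))))) (b (b (a (b (b (l 16369216) (l 16383984)) (b (l 16419488) (l 16433808))) (a (b (l 16491736) (l 16518440)) (b (a (l 16614232) (l 16619784)) (a (l 16618840) (l 16623720))))) (a (b (b (l 16447904) (l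 16461792)) (c (l 16565272) (l 16503872))) (b (a (l 16544224) (c (l 16665440) (l 16646376))) (a (c (l 16665440) (l 16640568)) (b (l 16694744) (l 16706472)))))) (a (b (b (c (l 16589728) (l 16533464)) (c (l 16655096) (l 16561968))) (b (c (l 16676544) (l 16567336)) (a (l 16667992) (l 16683184)))) (a (b (b (c (l 16666632) (l 16667336)) (c (l 16708824) (l 16672080))) (b (l 16722536) (l 16742280))) (a (b (b (l 16711840) (l 16712696)) (b (l 16753808) (b (l 16767504) (l 16753312)))) (b (b (l 16735424) (l 16756336)) (b (b (l 16769952) (l 94187219431)) (b (l 102240272599) (l 4))))))))), by decide +kernel⟩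

def k1_mm_203_t : ∃ t, chk3 f_mm_203_t t 4 5 1 = true :=
  ⟨(b (a (b (a (c (b (l 16723304) (l 16734240)) (b (l 16688864) (l 16707968))) (b (c (l 16743880) (l 16723728)) (c (l 16754744) (l 16741672)))) (l 2)) (b (b (b (a (c (l 16763720) (l 16756000)) (a (c (l 98482188711) (l 99019056871)) (l 4))) (a (c (l 16750672) (l 53921914071)) (l 4))) (a (c (c (l 92576588359) (l 92576584519)) (b (a (l 16763888) (l 16741920)) (a (l 16771240) (l 105461509223)))) (l 4))) (l 2))) (l 2)), by decide +kernel⟩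

def k2_mm_203_t : ∃ t, chk3 f_mm_203_t t 5 2 1 = true :=
  ⟨(b (b (b (a (c (b (a (c (l 16719720) (l 16705992)) (b (l 16747136) (l 16757712))) (a (c (l 16734128) (l 16723968)) (a (l 16756976) (b (l 76470489831) (c (l 16739200) (l 90965986439)))))) (b (a (c (l 16690272) (l 16610152)) (a (b (l 16718320) (l 16730128)) (b (l 16747760) (l 16759248)))) (a (b (l 16699896) (l 16690688)) (a (b (l 16741712) (l 16753064)) (b (l 61974971271) (c (l 91502854375) (l 91502850135))))))) (a (b (a (a (b (c (l 16772216) (l 16769784)) (c (l 16746984) (l 16743536))) (b (c (l 93113479783) (l 94187218839)) (l 4))) (l 4)) (l 4)) (l 4))) (a (b (b (a (c (l 16740960) (l 16702224)) (c (a (l 16768192) (l 96871540455)) (a (l 16763824) (l 98482149143)))) (a (c (l 16748544) (l 16734504)) (a (c (l 88818510711) (l 81302314215)) (l 4)))) (b (a (c (l 16756032) (l 16745632)) (a (c (l 94724069703) (l 95797806151)) (l 4))) (a (a (l 16733856) (c (l 16771560) (l 16768432))) (l 4)))) (l 4))) (a (a (b (b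 (b (a (l 16768472) (c (l 92576599511) (l 93113466151))) (c (a (l 16768920) (l 99555907127)) (a (l 16764664) (l 100629645639)))) (a (b (c (l 16753808) (l 16743872)) (c (l 96334696503) (l 97408433431))) (l 4))) (l 4)) (l 4)) (l 4))) (l 4)), by decide +kernel⟩

def k3_mm_203_t : ∃ t, chk3 f_mm_203_t t 3 2 1 = true :=
  ⟨(l 4), by decide +kernel⟩

def k4_mm_203_t : ∃ t, chk3 f_mm_203_t t 1 3 1 = true :=
  ⟨(l 2), by decide +kernel⟩

theorem s5_mm_203_t : ∃ t, chk3 f_mm_203_t t 4 2 1 = true := ex3_b k0_mm_203_t k1_mm_203_t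

theorem s6_mm_203_t : ∃ t, chk3 f_mm_203_t t 2 2 1 = true := ex3_a s5_mm_203_t k2_mm_203_t

theorem s7_mm_203_t : ∃ t, chk3 f_mm_203_t t 1 2 1 = true := ex3_a s6_mm_203_t k3_mm_203_t

theorem s8_mm_203_t : ∃ t, chk3 f_mm_203_t t 1 1 1 = true := ex3_b s7_mm_203_t k4_mm_203_t

theorem c_mm_203_t : CertNE 0 536870912 0 536870912 923417968 42949674 3 eng mog cd0q2 cd0q0 pd3 true false false .up 2 0 3
    ndB0q2 ndB0q0 pcB3 cut_mm_203_t Ext.none :=
  certNE1 (fam := true) (s1 := false) (s2 := false) (a := 2) (b := 0) (c := 3) (cn := .up) (n1 := ndB0q2) (n2 := ndB0q0) (pc := pcB3) (cut := cut_mm_203_t) (xt := Ext.none) (P1 := 0) (W1 := 536870912) (P2 := 0) (W2 := 536870912) (P3 := 923417968) (W3 := 42949674) (N0 := 3) (En := eng) (mo := mog) (C1 := cd0q2) (C2 := cd0q0) (C3 := pd3)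
    rfl (fun _ => rfl) s8_mm_203_t

noncomputable def cut_mm_213_s : Cut := Cut.of [[⟨4, 0, 0, 1449551462⟩]]

noncomputable def f_mm_213_s : ℕ → ℕ → ℕ → ℕ → Bool := onCell 0 536870912 536870912 536870912 923417968 42949674
    (rowNE 3 eng mog cd0q2 cd0q1 pd3 0 true false false .pnn 2 1 3 (qsf 0 536870912 536870912 536870912 3) ndB0q2 ndB0q1 pcB3 cut_mm_213_s Ext.none)

def k0_mm_213_s : ∃ t, chk3 f_mm_213_s t 1 1 1 = true :=
  ⟨(l 6), by decide +kernel⟩

theorem c_mm_213_s : CertNE 0 536870912 536870912 536870912 923417968 42949674 3 eng mog cd0q2 cd0q1 pd3 true false false .pnn 2 1 3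
    ndB0q2 ndB0q1 pcB3 cut_mm_213_s Ext.none :=
  certNE0 (fam := true) (s1 := false) (s2 := false) (a := 2) (b := 1) (c := 3) (cn := .pnn) (n1 := ndB0q2) (n2 := ndB0q1) (pc := pcB3) (cut := cut_mm_213_s) (xt := Ext.none) (P1 := 0) (W1 := 536870912) (P2 := 536870912) (W2 := 536870912) (P3 := 923417968) (W3 := 42949674) (N0 := 3) (En := eng) (mo := mog) (C1 := cd0q2) (C2 := cd0q1) (C3 := pd3)
    rfl k0_mm_213_s

noncomputable def cut_mm_213_t : Cut := Cut.of [[⟨3, 0, 0, 2845415833⟩]]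

noncomputable def f_mm_213_t : ℕ → ℕ → ℕ → ℕ → Bool := onCell 0 536870912 536870912 536870912 923417968 42949674
    (rowNE 3 eng mog cd0q2 cd0q1 pd3 0 true false false .pnn 2 1 3 (qsf 0 536870912 536870912 536870912 3) ndB0q2 ndB0q1 pcB3 cut_mm_213_t Ext.none)

def k0_mm_213_t : ∃ t, chk3 f_mm_213_t t 1 1 1 = true :=
  ⟨(a (b (a (b (a (a (b (c (b (b (l 16743208) (l 16753024)) (b (l 16762704) (a (l 16767368) (l 93113480119)))) (b (b (l 16702648) (l 16740312)) (b (l 16756048) (b (l 16766672) (l 82912934839))))) (b (a (b (c (l 93113482231) (l 90965994471)) (l 4)) (l 4)) (l 4))) (b (b (b (c (b (l 16760552) (l 16765600)) (b (l 16751168) (l 16759248))) (b (c (l 16749512) (l 16745400)) (c (l 88281642567) (l 82376057431)))) (b (b (c (l 97408431591) (l 97945298567)) (c (l 102240260855) (l 103314000119))) (l 4))) (l 4))) (b (b (a (b (a (a (b (l 16772504) (l 105998495143)) (b (l 106535365927) (l 4))) (l 4)) (l 4)) (l 4)) (l 4)) (l 4))) (l 4)) (l 4)) (l 4)) (l 4)), by decide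 +kernel⟩

theorem c_mm_213_t : CertNE 0 536870912 536870912 536870912 923417968 42949674 3 eng mog cd0q2 cd0q1 pd3 true false false .pnn 2 1 3
    ndB0q2 ndB0q1 pcB3 cut_mm_213_t Ext.none :=
  certNE0 (fam := true) (s1 := false) (s2 := false) (a := 2) (b := 1) (c := 3) (cn := .pnn) (n1 := ndB0q2) (n2 := ndB0q1) (pc := pcB3) (cut := cut_mm_213_t) (xt := Ext.none) (P1 := 0) (W1 := 536870912) (P2 := 536870912) (W2 := 536870912) (P3 := 923417968) (W3 := 42949674) (N0 := 3) (En := eng) (mo := mog) (C1 := cd0q2) (C2 := cd0q1) (C3 := pd3)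
    rfl k0_mm_213_t

end Pool.Agent.Strip051.G.I8600_9000.Tab.CS.BA00

namespace Pool.Agent.Strip051.G.I8600_9000.Tab.CS.BA04

open Pool.Agent.Strip051.PB Pool.Agent.Strip051.PB.T
open Pool.Agent.Strip051.G.I8600_9000.Tab

noncomputable def cut_pp_001_s : Cut := Cut.of [[⟨4, 0, 0, 1449551462⟩]]

noncomputable def f_pp_001_s : ℕ → ℕ → ℕ → ℕ → Bool := onCell 0 536870912 0 536870912 923417968 42949674
    (rowNE 3 eng mog cd0q0 cd4q0 pd1 0 true true true .up 0 0 1 (qsf 0 536870912 0 536870912 1) ndB0q0 ndB4q0 pcB1 cut_pp_001_s Ext.none)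

def k0_pp_001_s : ∃ t, chk3 f_pp_001_s t 1 1 1 = true :=
  ⟨(l 4), by decide +kernel⟩

theorem c_pp_001_s : CertNE 0 536870912 0 536870912 923417968 42949674 3 eng mog cd0q0 cd4q0 pd1 true true true .up 0 0 1
    ndB0q0 ndB4q0 pcB1 cut_pp_001_s Ext.none :=
  certNE0 (fam := true) (s1 := true) (s2 := true) (a := 0) (b := 0) (c := 1) (cn := .up) (n1 := ndB0q0) (n2 := ndB4q0) (pc := pcB1) (cut := cut_pp_001_s) (xt := Ext.none) (P1 := 0) (W1 := 536870912) (P2 := 0) (W2 := 536870912) (P3 := 923417968) (W3 := 42949674) (N0 := 3) (En := eng) (mo := mog) (C1 := cd0q0) (C2 := cd4q0) (C3 := pd1)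
    rfl k0_pp_001_s

noncomputable def cut_pp_011_s : Cut := Cut.of [[⟨4, 0, 0, 1449551462⟩]]

noncomputable def f_pp_011_s : ℕ → ℕ → ℕ → ℕ → Bool := onCell 0 536870912 536870912 536870912 923417968 42949674
    (rowNE 3 eng mog cd0q0 cd4q1 pd1 0 true true true .pnn 0 1 1 (qsf 0 536870912 536870912 536870912 1) ndB0q0 ndB4q1 pcB1 cut_pp_011_s Ext.none)

def k0_pp_011_s : ∃ t, chk3 f_pp_011_s t 1 1 1 = true :=
  ⟨(l 4), by decide +kernel⟩

theorem c_pp_011_s : CertNE 0 536870912 536870912 536870912 923417968 42949674 3 eng mog cd0q0 cd4q1 pd1 true true true .pnn 0 1 1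
    ndB0q0 ndB4q1 pcB1 cut_pp_011_s Ext.none :=
  certNE0 (fam := true) (s1 := true) (s2 := true) (a := 0) (b := 1) (c := 1) (cn := .pnn) (n1 := ndB0q0) (n2 := ndB4q1) (pc := pcB1) (cut := cut_pp_011_s) (xt := Ext.none) (P1 := 0) (W1 := 536870912) (P2 := 536870912) (W2 := 536870912) (P3 := 923417968) (W3 := 42949674) (N0 := 3) (En := eng) (mo := mog) (C1 := cd0q0) (C2 := cd4q1) (C3 := pd1)
    rfl k0_pp_011_s

noncomputable def cut_pp_012_s : Cut := Cut.of [[⟨4, 0, 0, 1449551462⟩]]

noncomputable def f_pp_012_s : ℕ → ℕ → ℕ → ℕ → Bool := onCell 0 536870912 536870912 536870912 923417968 42949674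
    (rowNE 3 eng mog cd0q0 cd4q1 pd2 0 true true true .pnp 0 1 2 (qsf 0 536870912 536870912 536870912 2) ndB0q0 ndB4q1 pcB2 cut_pp_012_s Ext.none)

def k0_pp_012_s : ∃ t, chk3 f_pp_012_s t 1 1 1 = true :=
  ⟨(l 4), by decide +kernel⟩

theorem c_pp_012_s : CertNE 0 536870912 536870912 536870912 923417968 42949674 3 eng mog cd0q0 cd4q1 pd2 true true true .pnp 0 1 2
    ndB0q0 ndB4q1 pcB2 cut_pp_012_s Ext.none :=
  certNE0 (fam := true) (s1 := true) (s2 := true) (a := 0) (b := 1) (c := 2) (cn := .pnp) (n1 := ndB0q0) (n2 := ndB4q1) (pc := pcB2) (cut := cut_pp_012_s) (xt := Ext.none) (P1 := 0) (W1 := 536870912) (P2 := 536870912) (W2 := 536870912) (P3 := 923417968) (W3 := 42949674) (N0 := 3) (En := eng) (mo := mog) (C1 := cd0q0) (C2 := cd4q1) (C3 := pd2)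
    rfl k0_pp_012_s

noncomputable def cut_pp_022_s : Cut := Cut.of [[⟨4, 0, 0, 1449551462⟩]]

noncomputable def f_pp_022_s : ℕ → ℕ → ℕ → ℕ → Bool := onCell 0 536870912 1073741824 536870912 923417968 42949674
    (rowNE 3 eng mog cd0q0 cd4q2 pd2 0 true true true .pp 0 2 2 (qsf 0 536870912 1073741824 536870912 2) ndB0q0 ndB4q2 pcB2 cut_pp_022_s Ext.none)

def k0_pp_022_s : ∃ t, chk3 f_pp_022_s t 1 1 1 = true :=
  ⟨(l 4), by decide +kernel⟩

theorem c_pp_022_s : CertNE 0 536870912 1073741824 536870912 923417968 42949674 3 eng mog cd0q0 cd4q2 pd2 true true true .pp 0 2 2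
    ndB0q0 ndB4q2 pcB2 cut_pp_022_s Ext.none :=
  certNE0 (fam := true) (s1 := true) (s2 := true) (a := 0) (b := 2) (c := 2) (cn := .pp) (n1 := ndB0q0) (n2 := ndB4q2) (pc := pcB2) (cut := cut_pp_022_s) (xt := Ext.none) (P1 := 0) (W1 := 536870912) (P2 := 1073741824) (W2 := 536870912) (P3 := 923417968) (W3 := 42949674) (N0 := 3) (En := eng) (mo := mog) (C1 := cd0q0) (C2 := cd4q2) (C3 := pd2)
    rfl k0_pp_022_s

noncomputable def cut_pp_023_s : Cut := Cut.of [[⟨4, 0, 0, 1449551462⟩]]

noncomputable def f_pp_023_s : ℕ → ℕ → ℕ → ℕ → Bool := onCell 0 536870912 1073741824 536870912 923417968 42949674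
    (rowNE 3 eng mog cd0q0 cd4q2 pd3 0 true true true .up 0 2 3 (qsf 0 536870912 1073741824 536870912 3) ndB0q0 ndB4q2 pcB3 cut_pp_023_s Ext.none)

def k0_pp_023_s : ∃ t, chk3 f_pp_023_s t 1 1 1 = true :=
  ⟨(l 4), by decide +kernel⟩

theorem c_pp_023_s : CertNE 0 536870912 1073741824 536870912 923417968 42949674 3 eng mog cd0q0 cd4q2 pd3 true true true .up 0 2 3
    ndB0q0 ndB4q2 pcB3 cut_pp_023_s Ext.none :=
  certNE0 (fam := true) (s1 := true) (s2 := true) (a := 0) (b := 2) (c := 3) (cn := .up) (n1 := ndB0q0) (n2 := ndB4q2) (pc := pcB3) (cut := cut_pp_023_s) (xt := Ext.none) (P1 := 0) (W1 := 536870912) (P2 := 1073741824) (W2 := 536870912) (P3 := 923417968) (W3 := 42949674) (N0 := 3) (En := eng) (mo := mog) (C1 := cd0q0) (C2 := cd4q2) (C3 := pd3)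
    rfl k0_pp_023_s

noncomputable def cut_pp_033_s : Cut := Cut.of [[⟨4, 0, 0, 1449551462⟩]]

noncomputable def f_pp_033_s : ℕ → ℕ → ℕ → ℕ → Bool := onCell 0 536870912 0 1230186008 923417968 42949674
    (rowNE 3 eng mog cd0q0 cd4q3 pd3 0 true true true .pnn 0 3 3 (qsf 0 536870912 0 1230186008 3) ndB0q0 ndB4q3 pcB3 cut_pp_033_s Ext.none)

def k0_pp_033_s : ∃ t, chk3 f_pp_033_s t 1 1 1 = true :=
  ⟨(l 4), by decide +kernel⟩

theorem c_pp_033_s : CertNE 0 536870912 0 1230186008 923417968 42949674 3 eng mog cd0q0 cd4q3 pd3 true true true .pnn 0 3 3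
    ndB0q0 ndB4q3 pcB3 cut_pp_033_s Ext.none :=
  certNE0 (fam := true) (s1 := true) (s2 := true) (a := 0) (b := 3) (c := 3) (cn := .pnn) (n1 := ndB0q0) (n2 := ndB4q3) (pc := pcB3) (cut := cut_pp_033_s) (xt := Ext.none) (P1 := 0) (W1 := 536870912) (P2 := 0) (W2 := 1230186008) (P3 := 923417968) (W3 := 42949674) (N0 := 3) (En := eng) (mo := mog) (C1 := cd0q0) (C2 := cd4q3) (C3 := pd3)
    rfl k0_pp_033_s

noncomputable def cut_pp_101_s : Cut := Cut.of [[⟨4, 0, 0, 1449551462⟩]]

noncomputable def f_pp_101_s : ℕ → ℕ → ℕ → ℕ → Bool := onCell 536870912 536870912 0 536870912 923417968 42949674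
    (rowNE 3 eng mog cd0q1 cd4q0 pd1 0 true true true .npn 1 0 1 (qsf 536870912 536870912 0 536870912 1) ndB0q1 ndB4q0 pcB1 cut_pp_101_s Ext.none)

def k0_pp_101_s : ∃ t, chk3 f_pp_101_s t 1 1 1 = true :=
  ⟨(l 4), by decide +kernel⟩

theorem c_pp_101_s : CertNE 536870912 536870912 0 536870912 923417968 42949674 3 eng mog cd0q1 cd4q0 pd1 true true true .npn 1 0 1
    ndB0q1 ndB4q0 pcB1 cut_pp_101_s Ext.none :=
  certNE0 (fam := true) (s1 := true) (s2 := true) (a := 1) (b := 0) (c := 1) (cn := .npn) (n1 := ndB0q1) (n2 := ndB4q0) (pc := pcB1) (cut := cut_pp_101_s) (xt := Ext.none) (P1 := 536870912) (W1 := 536870912) (P2 := 0) (W2 := 536870912) (P3 := 923417968) (W3 := 42949674) (N0 := 3) (En := eng) (mo := mog) (C1 := cd0q1) (C2 := cd4q0) (C3 := pd1)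
    rfl k0_pp_101_s

noncomputable def cut_pp_102_s : Cut := Cut.of [[⟨4, 0, 0, 1449551462⟩]]

noncomputable def f_pp_102_s : ℕ → ℕ → ℕ → ℕ → Bool := onCell 536870912 536870912 0 536870912 923417968 42949674
    (rowNE 3 eng mog cd0q1 cd4q0 pd2 0 true true true .npp 1 0 2 (qsf 536870912 536870912 0 536870912 2) ndB0q1 ndB4q0 pcB2 cut_pp_102_s Ext.none)

def k0_pp_102_s : ∃ t, chk3 f_pp_102_s t 1 1 1 = true :=
  ⟨(l 4), by decide +kernel⟩

theorem c_pp_102_s : CertNE 536870912 536870912 0 536870912 923417968 42949674 3 eng mog cd0q1 cd4q0 pd2 true true true .npp 1 0 2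
    ndB0q1 ndB4q0 pcB2 cut_pp_102_s Ext.none :=
  certNE0 (fam := true) (s1 := true) (s2 := true) (a := 1) (b := 0) (c := 2) (cn := .npp) (n1 := ndB0q1) (n2 := ndB4q0) (pc := pcB2) (cut := cut_pp_102_s) (xt := Ext.none) (P1 := 536870912) (W1 := 536870912) (P2 := 0) (W2 := 536870912) (P3 := 923417968) (W3 := 42949674) (N0 := 3) (En := eng) (mo := mog) (C1 := cd0q1) (C2 := cd4q0) (C3 := pd2)
    rfl k0_pp_102_s

noncomputable def cut_pp_112_s : Cut := Cut.of [[⟨4, 0, 0, 1449551462⟩]]

noncomputable def f_pp_112_s : ℕ → ℕ → ℕ → ℕ → Bool := onCell 536870912 536870912 536870912 536870912 923417968 42949674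
    (rowNE 3 eng mog cd0q1 cd4q1 pd2 0 true true true .dn 1 1 2 (qsf 536870912 536870912 536870912 536870912 2) ndB0q1 ndB4q1 pcB2 cut_pp_112_s Ext.none)

def k0_pp_112_s : ∃ t, chk3 f_pp_112_s t 1 1 1 = true :=
  ⟨(l 4), by decide +kernel⟩

theorem c_pp_112_s : CertNE 536870912 536870912 536870912 536870912 923417968 42949674 3 eng mog cd0q1 cd4q1 pd2 true true true .dn 1 1 2
    ndB0q1 ndB4q1 pcB2 cut_pp_112_s Ext.none :=
  certNE0 (fam := true) (s1 := true) (s2 := true) (a := 1) (b := 1) (c := 2) (cn := .dn) (n1 := ndB0q1) (n2 := ndB4q1) (pc := pcB2) (cut := cut_pp_112_s) (xt := Ext.none) (P1 := 536870912) (W1 := 536870912) (P2 := 536870912) (W2 := 536870912) (P3 := 923417968) (W3 := 42949674) (N0 := 3) (En := eng) (mo := mog) (C1 := cd0q1) (C2 := cd4q1) (C3 := pd2)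
    rfl k0_pp_112_s

noncomputable def cut_pp_113_s : Cut := Cut.of [[⟨4, 0, 0, 1449551462⟩]]

noncomputable def f_pp_113_s : ℕ → ℕ → ℕ → ℕ → Bool := onCell 536870912 536870912 536870912 536870912 923417968 42949674
    (rowNE 3 eng mog cd0q1 cd4q1 pd3 0 true true true .nn 1 1 3 (qsf 536870912 536870912 536870912 536870912 3) ndB0q1 ndB4q1 pcB3 cut_pp_113_s Ext.none)

def k0_pp_113_s : ∃ t, chk3 f_pp_113_s t 1 1 1 = true :=
  ⟨(l 4), by decide +kernel⟩

theorem c_pp_113_s : CertNE 536870912 536870912 536870912 536870912 923417968 42949674 3 eng mog cd0q1 cd4q1 pd3 true true true .nn 1 1 3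
    ndB0q1 ndB4q1 pcB3 cut_pp_113_s Ext.none :=
  certNE0 (fam := true) (s1 := true) (s2 := true) (a := 1) (b := 1) (c := 3) (cn := .nn) (n1 := ndB0q1) (n2 := ndB4q1) (pc := pcB3) (cut := cut_pp_113_s) (xt := Ext.none) (P1 := 536870912) (W1 := 536870912) (P2 := 536870912) (W2 := 536870912) (P3 := 923417968) (W3 := 42949674) (N0 := 3) (En := eng) (mo := mog) (C1 := cd0q1) (C2 := cd4q1) (C3 := pd3)
    rfl k0_pp_113_s

noncomputable def cut_pp_123_s : Cut := Cut.of [[⟨4, 0, 0, 1449551462⟩]]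

noncomputable def f_pp_123_s : ℕ → ℕ → ℕ → ℕ → Bool := onCell 536870912 536870912 1073741824 536870912 923417968 42949674
    (rowNE 3 eng mog cd0q1 cd4q2 pd3 0 true true true .npn 1 2 3 (qsf 536870912 536870912 1073741824 536870912 3) ndB0q1 ndB4q2 pcB3 cut_pp_123_s Ext.none)

def k0_pp_123_s : ∃ t, chk3 f_pp_123_s t 1 1 1 = true :=
  ⟨(l 4), by decide +kernel⟩

theorem c_pp_123_s : CertNE 536870912 536870912 1073741824 536870912 923417968 42949674 3 eng mog cd0q1 cd4q2 pd3 true true true .npn 1 2 3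
    ndB0q1 ndB4q2 pcB3 cut_pp_123_s Ext.none :=
  certNE0 (fam := true) (s1 := true) (s2 := true) (a := 1) (b := 2) (c := 3) (cn := .npn) (n1 := ndB0q1) (n2 := ndB4q2) (pc := pcB3) (cut := cut_pp_123_s) (xt := Ext.none) (P1 := 536870912) (W1 := 536870912) (P2 := 1073741824) (W2 := 536870912) (P3 := 923417968) (W3 := 42949674) (N0 := 3) (En := eng) (mo := mog) (C1 := cd0q1) (C2 := cd4q2) (C3 := pd3)
    rfl k0_pp_123_s

noncomputable def cut_pp_133_s : Cut := Cut.of [[⟨4, 0, 0, 1449551462⟩]]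

noncomputable def f_pp_133_s : ℕ → ℕ → ℕ → ℕ → Bool := onCell 536870912 536870912 0 1230186008 923417968 42949674
    (rowNE 3 eng mog cd0q1 cd4q3 pd3 0 true true true .dn 1 3 3 (qsf 536870912 536870912 0 1230186008 3) ndB0q1 ndB4q3 pcB3 cut_pp_133_s Ext.none)

def k0_pp_133_s : ∃ t, chk3 f_pp_133_s t 1 1 1 = true :=
  ⟨(l 4), by decide +kernel⟩

theorem c_pp_133_s : CertNE 536870912 536870912 0 1230186008 923417968 42949674 3 eng mog cd0q1 cd4q3 pd3 true true true .dn 1 3 3
    ndB0q1 ndB4q3 pcB3 cut_pp_133_s Ext.none :=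
  certNE0 (fam := true) (s1 := true) (s2 := true) (a := 1) (b := 3) (c := 3) (cn := .dn) (n1 := ndB0q1) (n2 := ndB4q3) (pc := pcB3) (cut := cut_pp_133_s) (xt := Ext.none) (P1 := 536870912) (W1 := 536870912) (P2 := 0) (W2 := 1230186008) (P3 := 923417968) (W3 := 42949674) (N0 := 3) (En := eng) (mo := mog) (C1 := cd0q1) (C2 := cd4q3) (C3 := pd3)
    rfl k0_pp_133_s

noncomputable def cut_pp_202_s : Cut := Cut.of [[⟨4, 0, 0, 1449551462⟩]]

noncomputable def f_pp_202_s : ℕ → ℕ → ℕ → ℕ → Bool := onCell 0 536870912 0 536870912 923417968 42949674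
    (rowNE 3 eng mog cd0q2 cd4q0 pd2 0 true true true .pp 2 0 2 (qsf 0 536870912 0 536870912 2) ndB0q2 ndB4q0 pcB2 cut_pp_202_s Ext.none)

def k0_pp_202_s : ∃ t, chk3 f_pp_202_s t 1 1 1 = true :=
  ⟨(l 4), by decide +kernel⟩

theorem c_pp_202_s : CertNE 0 536870912 0 536870912 923417968 42949674 3 eng mog cd0q2 cd4q0 pd2 true true true .pp 2 0 2
    ndB0q2 ndB4q0 pcB2 cut_pp_202_s Ext.none :=
  certNE0 (fam := true) (s1 := true) (s2 := true) (a := 2) (b := 0) (c := 2) (cn := .pp) (n1 := ndB0q2) (n2 := ndB4q0) (pc := pcB2) (cut := cut_pp_202_s) (xt := Ext.none) (P1 := 0) (W1 := 536870912) (P2 := 0) (W2 := 536870912) (P3 := 923417968) (W3 := 42949674) (N0 := 3) (En := eng) (mo := mog) (C1 := cd0q2) (C2 := cd4q0) (C3 := pd2)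
    rfl k0_pp_202_s

noncomputable def cut_pp_203_s : Cut := Cut.of [[⟨4, 0, 0, 1449551462⟩]]

noncomputable def f_pp_203_s : ℕ → ℕ → ℕ → ℕ → Bool := onCell 0 536870912 0 536870912 923417968 42949674
    (rowNE 3 eng mog cd0q2 cd4q0 pd3 0 true true true .up 2 0 3 (qsf 0 536870912 0 536870912 3) ndB0q2 ndB4q0 pcB3 cut_pp_203_s Ext.none)

def k0_pp_203_s : ∃ t, chk3 f_pp_203_s t 1 1 1 = true :=
  ⟨(l 4), by decide +kernel⟩

theorem c_pp_203_s : CertNE 0 536870912 0 536870912 923417968 42949674 3 eng mog cd0q2 cd4q0 pd3 true true true .up 2 0 3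
    ndB0q2 ndB4q0 pcB3 cut_pp_203_s Ext.none :=
  certNE0 (fam := true) (s1 := true) (s2 := true) (a := 2) (b := 0) (c := 3) (cn := .up) (n1 := ndB0q2) (n2 := ndB4q0) (pc := pcB3) (cut := cut_pp_203_s) (xt := Ext.none) (P1 := 0) (W1 := 536870912) (P2 := 0) (W2 := 536870912) (P3 := 923417968) (W3 := 42949674) (N0 := 3) (En := eng) (mo := mog) (C1 := cd0q2) (C2 := cd4q0) (C3 := pd3)
    rfl k0_pp_203_s

noncomputable def cut_pp_213_s : Cut := Cut.of [[⟨4, 0, 0, 1449551462⟩]]

noncomputable def f_pp_213_s : ℕ → ℕ → ℕ → ℕ → Bool := onCell 0 536870912 536870912 536870912 923417968 42949674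
    (rowNE 3 eng mog cd0q2 cd4q1 pd3 0 true true true .pnn 2 1 3 (qsf 0 536870912 536870912 536870912 3) ndB0q2 ndB4q1 pcB3 cut_pp_213_s Ext.none)

def k0_pp_213_s : ∃ t, chk3 f_pp_213_s t 1 1 1 = true :=
  ⟨(l 4), by decide +kernel⟩

theorem c_pp_213_s : CertNE 0 536870912 536870912 536870912 923417968 42949674 3 eng mog cd0q2 cd4q1 pd3 true true true .pnn 2 1 3
    ndB0q2 ndB4q1 pcB3 cut_pp_213_s Ext.none :=
  certNE0 (fam := true) (s1 := true) (s2 := true) (a := 2) (b := 1) (c := 3) (cn := .pnn) (n1 := ndB0q2) (n2 := ndB4q1) (pc := pcB3) (cut := cut_pp_213_s) (xt := Ext.none) (P1 := 0) (W1 := 536870912) (P2 := 536870912) (W2 := 536870912) (P3 := 923417968) (W3 := 42949674) (N0 := 3) (En := eng) (mo := mog) (C1 := cd0q2) (C2 := cd4q1) (C3 := pd3)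
    rfl k0_pp_213_s

noncomputable def cut_pm_001_s : Cut := Cut.of [[⟨4, 0, 0, 1449551462⟩]]

noncomputable def f_pm_001_s : ℕ → ℕ → ℕ → ℕ → Bool := onCell 0 536870912 536870912 536870912 923417968 42949674
    (rowNE 3 eng mog cd0q0 cd4q0 pd1 1 true true false .up 0 0 1 (qsf 0 536870912 0 536870912 1) ndB0q0 ndB4q0 pcB1 cut_pm_001_s Ext.none)

def k0_pm_001_s : ∃ t, chk3 f_pm_001_s t 2 1 1 = true :=
  ⟨(b (l 3) (b (b (l 3) (l 2)) (l 2))), by decide +kernel⟩

def k1_pm_001_s : ∃ t, chk3 f_pm_001_s t 3 2 1 = true :=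
  ⟨(b (l 3) (a (l 3) (b (a (l 3) (b (a (l 3) (b (l 3) (a (l 3) (b (l 3) (l 324437694983))))) (a (b (l 3) (a (l 3) (b (l 577840825863) (l 317458375927)))) (b (a (b (l 3) (l 321216469959)) (b (c (l 285246149783) (l 16729752)) (l 16752512))) (a (b (a (l 16734464) (l 16759640)) (l 16748352)) (a (l 16689272) (l 16713032))))))) (a (b (a (l 3) (b (l 3) (a (l 3) (b (l 548849811383) (c (l 308868457255) (l 16730432)))))) (a (b (a (l 3) (b (l 3) (l 610053075127))) (a (b (l 3) (l 559587221367)) (c (a (l 307794690439) (l 16740168)) (b (l 316384635255) (l 16760752))))) (b (a (b (a (l 344301917623) (l 16738600)) (a (l 16732496) (l 16758128))) (b (l 16752720) (l 16732384))) (a (b (l 16746688) (l 16727432)) (b (l 16712664) (l 16693768)))))) (b (a (b (a (b (l 584820153607) (l 314774021447)) (b (a (l 16751280) (l 16755008)) (l 16743552))) (a (c (l 16747376) (l 16749288)) (b (l 16723200) (l 16703032)))) (b (a (c (l 16715744) (l 16720152)) (b (l 16692032) (l 16672112))) (a (l 16677792)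 (l 16642560)))) (a (a (b (a (l 16716456) (l 16699112)) (l 16669120)) (b (l 16673160) (l 16635048))) (b (a (l 16638464) (l 16603856)) (a (l 16600976) (l 16566992))))))))), by decide +kernel⟩

def k2_pm_001_s : ∃ t, chk3 f_pm_001_s t 6 6 1 = true :=
  ⟨(b (a (b (l 3) (a (l 3) (b (l 3) (a (l 3) (b (l 3) (a (l 598241919863) (l 295446686359))))))) (b (a (l 3) (b (a (l 3) (b (l 3) (a (l 317458371335) (l 16740376)))) (a (b (a (l 3) (l 312626541623)) (c (l 300278511687) (l 306720965943))) (b (a (l 16751320) (l 16758128)) (l 16747664))))) (a (b (a (b (l 3) (a (l 3) (l 307257821687))) (b (a (l 599852536039) (l 302962885479)) (c (l 16741208) (l 16736672)))) (a (c (b (l 295446665959) (l 16759552)) (b (l 300815376983) (l 16760728))) (b (l 16761560) (l 16734608)))) (b (a (b (a (l 16765048) (l 16751296)) (l 16741208)) (b (l 16730424) (l 16713760))) (a (b (l 16724648) (l 16708608)) (l 16689912)))))) (b (a (a (l 2) (b (a (l 2) (b (l 206259008791) (l 2))) (l 2))) (a (b (a (c (l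 16734488) (l 16747880)) (c (l 16708736) (l 16713328))) (a (c (l 16702408) (l 16707600)) (l 16680792))) (b (a (l 16685592) (l 16659752)) (a (l 16656320) (l 16631440))))) (a (l 2) (b (a (a (l 2) (l 16651840)) (l 16658824)) (a (l 2) (l 16590032)))))), by decide +kernel⟩

def k3_pm_001_s : ∃ t, chk3 f_pm_001_s t 7 6 1 = true :=
  ⟨(b (a (b (a (b (a (b (c (l 304036618695) (l 16730248)) (l 16754040)) (b (l 16741384) (l 16723128))) (a (b (l 16735992) (l 16718592)) (l 16697112))) (b (a (b (l 16708936) (l 16691176)) (l 16667024)) (a (l 16665920) (l 16633928)))) (a (b (a (l 16693752) (l 16664568)) (a (l 16662520) (l 16634368))) (b (a (l 16634440) (l 16603480)) (l 16590856)))) (b (a (b (a (l 16633704) (l 16600208)) (l 16627208)) (b (l 16550288) (l 16519472))) (a (b (l 16556120) (l 16529656)) (b (l 16491688) (l 16466568))))) (a (b (a (b (l 16641272) (l 16593584)) (b (l 16564480) (l 16540096))) (a (b (l 16568208) (l 16543632)) (l 16569440))) (b (a (l 16588872) (l 16433808))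 (a (l 16452616) (l 16396776))))), by decide +kernel⟩

def k4_pm_001_s : ∃ t, chk3 f_pm_001_s t 3 7 1 = true :=
  ⟨(a (b (a (l 2) (b (a (l 2) (b (l 16563976) (l 2))) (l 2))) (l 2)) (b (a (a (b (l 16593072) (l 16462400)) (b (l 16459072) (l 16410176))) (b (a (l 16405392) (l 16354288)) (a (l 16358952) (l 16311176)))) (a (a (l 2) (b (l 16361080) (l 2))) (b (a (l 16312392) (l 16267920)) (a (l 16266472) (l 16225768)))))), by decide +kernel⟩

theorem s5_pm_001_s : ∃ t, chk3 f_pm_001_s t 3 6 1 = true := ex3_a k2_pm_001_s k3_pm_001_s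

theorem s6_pm_001_s : ∃ t, chk3 f_pm_001_s t 3 3 1 = true := ex3_b s5_pm_001_s k4_pm_001_s

theorem s7_pm_001_s : ∃ t, chk3 f_pm_001_s t 3 1 1 = true := ex3_b k1_pm_001_s s6_pm_001_s

theorem s8_pm_001_s : ∃ t, chk3 f_pm_001_s t 1 1 1 = true := ex3_a k0_pm_001_s s7_pm_001_s

theorem c_pm_001_s : CertNE 0 536870912 0 536870912 923417968 42949674 3 eng mog cd0q0 cd4q0 pd1 true true false .up 0 0 1
    ndB0q0 ndB4q0 pcB1 cut_pm_001_s Ext.none :=
  certNE1 (fam := true) (s1 := true) (s2 := false) (a := 0) (b := 0) (c := 1) (cn := .up) (n1 := ndB0q0) (n2 := ndB4q0) (pc := pcB1) (cut := cut_pm_001_s) (xt := Ext.none) (P1 := 0) (W1 := 536870912) (P2 := 0) (W2 := 536870912) (P3 := 923417968) (W3 := 42949674) (N0 := 3) (En := eng) (mo := mog) (C1 := cd0q0) (C2 := cd4q0) (C3 := pd1)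
    rfl (fun _ => rfl) s8_pm_001_s

noncomputable def cut_pm_011_s : Cut := Cut.of [[⟨4, 0, 0, 1449551462⟩], [⟨0, 0, 0, 67108864⟩, ⟨1, 1, 0, 67108864⟩, ⟨2, 1, 0, 67108864⟩]]

noncomputable def f_pm_011_s : ℕ → ℕ → ℕ → ℕ → Bool := onCell 0 536870912 536870912 536870912 923417968 42949674
    (rowNE 3 eng mog cd0q0 cd4q1 pd1 1 true true false .pnn 0 1 1 (qsf 0 536870912 536870912 536870912 1) ndB0q0 ndB4q1 pcB1 cut_pm_011_s Ext.none)

def k0_pm_011_s : ∃ t, chk3 f_pm_011_s t 1 2 1 = true :=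
  ⟨(a (l 3) (b (l 1) (a (l 3) (l 1)))), by decide +kernel⟩

def k1_pm_011_s : ∃ t, chk3 f_pm_011_s t 2 6 1 = true :=
  ⟨(a (l 3) (b (l 3) (a (l 3) (b (l 3) (a (b (l 3) (a (l 3) (a (l 3) (b (l 3) (c (l 593946961191) (l 584283280295)))))) (a (b (l 3) (a (b (l 3) (c (c (l 298667909767) (l 292762330231)) (l 283635522775))) (c (b (b (l 620790515479) (l 16744376)) (l 16763680)) (b (l 292225429527) (l 16764624))))) (c (b (b (l 629917314551) (a (l 582672676791) (l 290614855751))) (b (a (l 16753112) (l 16757592)) (l 16746976))) (b (b (l 619179847287) (a (l 570324642503) (l 287393631559))) (b (l 190756889271) (l 16749056)))))))))), by decide +kernel⟩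

def k2_pm_011_s : ∃ t, chk3 f_pm_011_s t 4 14 1 = true :=
  ⟨(a (l 3) (b (l 3) (a (l 3) (b (l 3) (a (l 3) (b (l 3) (b (a (l 3) (a (l 3) (c (l 651392174727) (c (l 657834624551) (l 654076525703))))) (c (b (a (l 3) (a (a (l 738902137223) (l 16777048)) (l 16773464))) (a (l 757692617639) (l 16771760))) (a (c (l 772724999095) (l 766282540583)) (a (b (a (a (l 3) (l 284709365031)) (l 16777024)) (l 16774056)) (l 16771200))))))))))), by decide +kernel⟩

def k3_pm_011_s : ∃ t, chk3 f_pm_011_s t 8 30 1 = true :=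
  ⟨(a (l 3) (b (l 3) (a (l 3) (b (l 3) (a (l 3) (b (l 3) (a (l 3) (b (l 3) (a (a (l 3) (b (l 3) (b (l 3) (c (l 16777392) (l 16777392))))) (b (a (l 3) (b (c (l 403894702631) (l 394767897255)) (c (l 16777192) (l 16777184)))) (c (c (l 16776120) (l 16776088)) (a (l 16778672) (l 16775408))))))))))))), by decide +kernel⟩

def k4_pm_011_s : ∃ t, chk3 f_pm_011_s t 16 31 1 = true :=
  ⟨(b (b (l 3) (l 14)) (l 14)), by decide +kernel⟩

def k5_pm_011_s : ∃ t, chk3 f_pm_011_s t 34 62 1 = true :=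
  ⟨(b (a (l 3) (b (l 3) (a (l 3) (a (l 3) (b (l 3) (b (l 3) (a (c (a (l 653002803447) (l 495162754231)) (c (l 520932558567) (l 520932558583))) (b (a (c (l 328732773383) (l 311016033399)) (c (l 16777248) (l 16777240))) (c (l 16776408) (l 16776368)))))))))) (a (b (b (l 3) (l 14)) (l 14)) (a (a (b (b (l 3) (b (b (b (l 3) (l 14)) (l 14)) (l 14))) (l 14)) (b (b (b (l 3) (a (c (b (l 3) (l 538112427271)) (c (l 573009037575) (l 574082779415))) (b (a (l 3) (c (l 203104979671) (l 193441303271))) (c (l 16776712) (l 16777336))))) (c (b (a (c (l 16776184) (l 16776160)) (l 16774872)) (l 16773032)) (b (c (a (l 16776128) (l 16774784)) (l 16775408)) (l 16767576)))) (b (c (c (l 16764088) (l 16758656)) (l 16763592)) (l 14)))) (c (b (a (b (b (a (a (l 3) (l 526301266759)) (b (a (l 409800281271) (l 16777392)) (l 16776560))) (a (l 16776024) (l 16774720))) (l 16771640)) (b (b (l 16775216) (l 16772744)) (l 16763736))) (b (c (l 16754880) (l 16759832)) (l 16752168))) (b (b (b (b (a (c (l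 568714068631) (l 569250940871)) (l 16775760)) (a (a (a (l 3) (l 170355853911)) (l 16776528)) (l 16774472))) (a (c (l 16775304) (l 16775256)) (l 16767280))) (a (l 16771360) (l 16763328))) (b (c (l 16754288) (l 16753976)) (l 16748680))))))), by decide +kernel⟩

def k6_pm_011_s : ∃ t, chk3 f_pm_011_s t 35 124 1 = true :=
  ⟨(a (b (a (l 3) (b (l 3) (a (a (l 3) (b (l 3) (c (l 646023482007) (l 655150287575)))) (a (b (l 3) (b (c (l 351281352903) (l 350207611111)) (c (l 16776960) (l 16776944)))) (b (c (l 579988359527) (l 582672714135)) (c (l 16776280) (l 16776232))))))) (a (a (b (l 3) (b (a (b (l 3) (c (l 146733534535) (a (l 275582553143) (l 16777160)))) (b (c (l 126869310647) (c (l 16777360) (l 16777360))) (c (l 16776240) (l 16776192)))) (c (l 16775056) (l 16774952)))) (b (b (l 3) (b (a (l 3) (c (l 16778512) (l 82309023943))) (c (a (l 16778760) (l 16776072)) (c (l 16778280) (l 16776624))))) (c (l 16774152) (b (l 16774776) (l 16761704))))) (c (b (a (b (a (b (l 656760899431)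 (l 16777136)) (l 16777768)) (l 16774712)) (l 16773320)) (a (l 16771032) (l 16757912))) (b (a (b (b (a (l 394767897047) (l 16777032)) (a (l 16778432) (l 16775824))) (l 16774592)) (l 16773128)) (c (l 16769440) (l 16758760)))))) (a (b (b (a (a (l 3) (b (l 3) (c (l 547776104471) (l 548849846343)))) (c (b (a (l 3) (l 514490107575)) (a (c (l 74792830135) (l 16777120)) (l 16775904))) (c (b (l 547776105223) (a (l 16779072) (l 16775856))) (b (l 585893940007) (l 16777752))))) (c (a (a (b (b (l 267529490391) (l 16776784)) (l 16775000)) (l 16776208)) (l 16772944)) (a (b (a (b (l 251960234055) (l 16776760)) (l 16776040)) (l 16774208)) (l 16772744)))) (c (b (l 16769384) (l 16756560)) (b (l 16769000) (l 16753336)))) (b (c (b (a (b (a (l 16779232) (l 16775696)) (l 16773960)) (l 16772560)) (l 16769024)) (b (a (b (c (l 16777576) (l 16776240)) (l 16773800)) (l 16772336)) (l 16768640))) (b (c (l 16753632) (l 16753016)) (c (l 16748640) (l 16737320)))))), by decide +kernel⟩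

def k7_pm_011_s : ∃ t, chk3 f_pm_011_s t 35 125 1 = true :=
  ⟨(c (b (b (a (a (a (l 16771344) (l 16763456)) (c (l 16754376) (l 16754080))) (c (l 16746456) (l 16746000))) (a (a (c (l 16754640) (l 16754352)) (l 16749144)) (c (l 16741360) (l 16730312)))) (a (a (b (l 16749360) (l 16744128)) (c (l 16741624) (l 16741040))) (a (l 16735904) (l 16719976)))) (a (a (b (b (a (l 16771056) (l 16757792)) (c (l 16754048) (l 16753728))) (c (l 16746024) (l 16745504))) (b (b (l 16758864) (l 16748288)) (l 16740104))) (b (a (c (l 16745640) (l 16734648)) (l 16739816)) (c (l 16721544) (l 16720728))))), by decide +kernel⟩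

def k8_pm_011_s : ∃ t, chk3 f_pm_011_s t 17 63 1 = true :=
  ⟨(b (b (a (a (l 14) (a (l 14) (b (c (l 16744264) (l 16753608)) (l 14)))) (a (a (c (b (l 16749272) (l 16743832)) (l 16724064)) (c (l 16720088) (l 16739288))) (c (a (l 16735544) (l 16730032)) (l 16709728)))) (a (l 14) (a (c (c (l 16712232) (l 16711144)) (l 16714680)) (c (l 16700504) (l 16718792))))) (a (l 14) (a (b (c (l 16700080) (l 16697136)) (l 14)) (b (c (l 16709712) (l 16706352)) (c (l 16697448) (l 16693304)))))), by decide +kernel⟩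

def k9_pm_011_s : ∃ t, chk3 f_pm_011_s t 9 60 1 = true :=
  ⟨(b (a (l 3) (a (a (l 3) (b (a (l 3) (c (l 815674669911) (l 805474129191))) (c (a (a (l 736217784743) (b (l 828022710823) (l 16775688))) (a (b (l 124721829671) (l 16773240)) (l 16772904))) (a (c (c (l 615958699847) (l 637433534951)) (l 650855305687)) (b (c (a (l 16776408) (l 16774968)) (l 16776136)) (l 16771792)))))) (a (b (c (a (b (l 720648526743) (c (l 16775568) (l 16775536))) (a (l 16774000) (l 16771584))) (a (b (l 708837360183) (a (l 16780664) (l 16774248))) (b (l 16774776) (l 16770448)))) (c (l 16766792) (a (l 16768920) (l 16763880)))) (c (b (l 16765544) (l 16757168)) (b (l 16765112) (l 16756440)))))) (a (a (l 3) (a (l 3) (b (l 3) (a (a (l 3) (b (l 3) (b (l 885467902775) (c (l 16777064) (l 16777048))))) (b (c (a (l 797957946919) (b (l 290078072503) (l 16776496))) (c (l 640654764999) (l 691657498567))) (c (a (l 16775688) (l 16773208)) (a (l 16778240) (l 16773040)))))))) (a (a (b (c (a (b (l 3) (a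 (l 729238468311) (c (l 17347648327) (l 16776920)))) (b (a (l 652465927335) (l 16776320)) (l 16773256))) (b (c (c (l 698636818007) (l 696489332023)) (l 692731232135)) (a (a (l 761987586071) (b (l 188609469431) (l 16775840))) (l 16773096)))) (c (a (b (l 16773864) (l 16769448)) (l 16766672)) (a (b (l 16773720) (l 16769120)) (l 16766240)))) (c (b (a (l 16770472) (l 16765536)) (l 16759248)) (b (a (l 16770200) (l 16765080)) (l 16758544)))) (c (a (b (l 16758224) (l 16749512)) (l 16744368)) (a (b (l 16757504) (l 16748496)) (l 16743216)))))), by decide +kernel⟩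

def k10_pm_011_s : ∃ t, chk3 f_pm_011_s t 36 61 1 = true :=
  ⟨(b (a (l 3) (b (l 3) (a (b (l 3) (a (l 3) (c (l 650855320439) (l 756082019079)))) (c (a (b (l 3) (b (l 607368776823) (l 16779376))) (b (b (l 3) (l 541870525095)) (l 16777920))) (b (l 829633319447) (b (a (l 752860791255) (l 16776472)) (c (l 16775432) (l 16775392)))))))) (a (b (a (l 3) (b (l 3) (a (b (l 3) (a (c (l 295446779895) (c (l 280951264983) (l 277193168615))) (c (l 16777096) (l 14126420039)))) (b (a (c (l 251423364855) (c (l 235854108103) (l 16779312))) (c (l 16776880) (l 16776856))) (c (l 16775232) (l 16775144)))))) (a (b (a (b (l 3) (a (c (l 655150287607) (l 664277093175)) (c (c (l 149417890199) (l 16778808)) (c (l 16779464) (l 16777496))))) (b (a (c (l 579988359559) (c (l 367924352967) (l 352891967623))) (c (l 105931346567) (c (l 16777280) (l 16777280)))) (c (l 16775680) (l 16775608)))) (c (a (b (l 16775896) (l 16773544)) (l 16772144)) (a (c (l 16774632) (l 16774568)) (l 16771912)))) (c (b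 (a (l 16774288) (l 16771712)) (l 16768248)) (b (c (l 16772856) (l 16772752)) (l 16767848))))) (b (b (c (a (a (b (l 666961448919) (a (l 206863078903) (l 16776648))) (b (c (l 16779616) (l 16776984)) (l 16774760))) (l 16772072)) (a (c (a (b (l 675014512663) (l 87677733687)) (b (l 16776976) (l 16774680))) (a (l 494089009111) (l 16775776))) (l 16771840))) (c (a (l 16772544) (l 16767400)) (a (c (l 16772392) (l 16772280)) (l 16766968)))) (c (a (b (l 16767832) (l 16752560)) (l 16760264)) (a (b (l 16767424) (l 16741472)) (l 16749072)))))), by decide +kernel⟩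

def k11_pm_011_s : ∃ t, chk3 f_pm_011_s t 37 61 1 = true :=
  ⟨(b (a (b (a (b (l 3) (a (l 3) (c (b (l 3) (l 225116690807)) (l 765745688983)))) (b (a (l 3) (c (b (l 3) (l 153175988375)) (l 698636824391))) (b (a (c (l 185925114535) (c (l 178408921351) (l 16775928))) (c (l 16775464) (l 16775384))) (c (l 16774472) (l 16774352))))) (a (b (a (b (a (l 3) (c (l 16777792) (l 200957498487))) (c (l 16776264) (l 16776208))) (c (l 16774872) (l 16774768))) (c (l 16771584) (l 16771328))) (c (l 16768784) (l 16768416)))) (b (c (a (b (a (b (l 16779928) (l 16775192)) (l 16773784)) (l 16770544)) (l 16767760)) (a (b (a (b (l 106468218567) (l 16775096)) (l 16773640)) (l 16770256)) (l 16767360))) (c (a (l 16763704) (l 16758648)) (a (l 16763128) (l 16736912))))) (c (a (b (a (l 16764616) (l 16759496)) (a (l 16744608) (l 16728984))) (b (l 16751856) (l 16721312))) (a (a (b (l 16764064) (l 16733216)) (b (l 16737768) (l 16727872))) (b (l 16729840) (l 16719936))))), by decide +kernel⟩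

def k12_pm_011_s : ∃ t, chk3 f_pm_011_s t 19 61 1 = true :=
  ⟨(a (b (c (a (b (l 16760232) (l 16751120)) (b (l 16750336) (l 16741232))) (a (b (l 16759544) (l 16729112)) (l 16744616))) (b (a (c (l 16720816) (l 16719432)) (l 16731096)) (c (l 16727216) (l 16704416)))) (b (c (a (l 16736128) (l 16726728)) (a (l 16734664) (l 16725032))) (c (a (l 16696544) (l 16687240)) (l 16710680)))), by decide +kernel⟩

def k13_pm_011_s : ∃ t, chk3 f_pm_011_s t 9 31 1 = true :=
  ⟨(a (b (a (b (c (a (a (b (b (l 16768648) (l 16753296)) (c (l 16735576) (l 16745624))) (b (l 16762296) (l 16740536))) (b (c (l 16740232) (b (l 16734392) (l 16729408))) (c (l 16722408) (l 16721776)))) (a (a (b (b (l 16768256) (l 16752688)) (l 16744920)) (b (b (l 16752336) (l 16736744)) (l 16728944))) (b (a (l 16744368) (l 16728472)) (l 16726008)))) (c (a (b (a (l 16735616) (l 16719760)) (l 16717064)) (b (l 16711720) (l 16700976))) (a (b (c (l 16721368) (l 16720616)) (l 16709912)) (b (l 16710008) (l 16719824)))))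 (b (c (b (a (c (l 16722032) (l 16721408)) (l 16711440)) (a (l 16711584) (l 16722208))) (a (b (l 16720400) (l 16709952)) (a (l 16707224) (l 16701944)))) (a (c (c (l 16696240) (l 16695224)) (l 16693608)) (c (l 16685304) (l 16682928))))) (a (b (a (b (c (l 16700800) (l 16719360)) (c (l 16710328) (l 16707344))) (b (c (l 16710816) (l 16708216)) (l 16676744))) (a (b (l 16675664) (l 16683872)) (c (l 16660088) (l 16655960)))) (a (b (c (l 16673280) (l 16691272)) (b (l 16674400) (l 16661480))) (b (b (l 16688056) (l 16676128)) (l 16636320))))) (b (a (a (b (c (l 16696256) (l 16694160)) (c (l 16675120) (l 16693480))) (b (c (l 16686384) (l 16684048)) (l 16663872))) (b (c (l 16661656) (l 16669552)) (c (l 16651104) (l 16648072)))) (a (b (a (l 16640368) (l 16640896)) (a (l 16625976) (l 16637032))) (b (l 16605808) (a (l 16627584) (l 16618672)))))), by decide +kernel⟩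

def k14_pm_011_s : ∃ t, chk3 f_pm_011_s t 5 28 1 = true :=
  ⟨(a (a (l 3) (b (l 3) (a (b (l 3) (a (l 3) (b (l 3) (c (l 533280565223) (a (l 650855286903) (l 273971869799)))))) (c (b (a (l 713132299287) (b (l 666424542471) (l 282561798311))) (a (a (b (l 610589984743) (l 16771960)) (l 252497046359)) (l 16763320))) (b (a (b (l 3) (l 698636777799)) (b (l 660518957639) (l 274508734903))) (a (c (b (l 312089678055) (l 16769872)) (l 270213738487)) (l 16764192))))))) (c (a (b (a (b (l 3) (a (b (l 3) (l 593946981783)) (b (l 307257841831) (l 16770456)))) (b (a (b (l 649244671015) (l 289541122359)) (l 259476364199)) (a (l 16763904) (l 16753240)))) (a (b (a (b (l 16772864) (l 16764928)) (l 16758512)) (a (l 16753152) (l 16742880))) (b (l 16742768) (l 16727280)))) (b (a (b (l 16758248) (l 16737072)) (b (l 16730952) (l 16715208))) (a (b (l 16721448) (l 16706160)) (l 16692160)))) (a (b (a (b (l 3) (a (b (l 3) (l 591799495399)) (c (l 280414289975) (l 275582452007)))) (b (a (b (l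 642802216007) (l 281488059655)) (l 253570784343)) (a (l 16764832) (l 16754896)))) (a (b (a (b (l 16752224) (l 16765784)) (l 16759808)) (l 16750048)) (b (l 16745136) (l 16730680)))) (b (a (b (l 16754680) (l 16739824)) (l 16726720)) (a (l 16718024) (l 16697848)))))), by decide +kernel⟩

def k15_pm_011_s : ∃ t, chk3 f_pm_011_s t 5 58 1 = true :=
  ⟨(a (a (a (l 3) (b (a (l 3) (b (l 3) (c (l 706689859143) (l 700784292423)))) (c (a (b (l 750713264679) (a (l 633675435879) (b (l 16776664) (l 16772864)))) (b (a (b (l 656760883671) (l 16775832)) (l 16773016)) (l 16767736))) (a (b (l 741586490007) (a (l 629917335975) (l 380809227303))) (b (b (c (a (l 273435080439) (l 16774920)) (l 315310913143)) (l 16752408)) (l 16767496)))))) (c (a (a (b (b (l 629380458039) (a (b (l 16781872) (l 16774008)) (l 16771112))) (b (l 16765832) (l 16758248))) (b (b (l 16771568) (l 16763816)) (l 16752408))) (b (a (l 16757816) (l 16747848)) (l 16737744))) (a (c (b (a (b (l 627232970791) (l 275582485207))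 (l 16757480)) (a (l 16762016) (l 16752648))) (b (b (a (l 625085484791) (l 16771664)) (l 269676897287)) (l 16757008))) (b (a (l 16758488) (l 16749168)) (l 16738504))))) (a (c (a (b (l 16732712) (l 16717816)) (b (l 16712168) (l 16697480))) (a (b (l 16735336) (l 16720192)) (l 16709624))) (c (a (l 16684072) (l 16662896)) (a (l 16690216) (l 16670360))))), by decide +kernel⟩

def k16_pm_011_s : ∃ t, chk3 f_pm_011_s t 5 59 1 = true :=
  ⟨(a (a (a (b (a (b (l 3) (c (a (l 786146759719) (b (l 701321169015) (l 16775992))) (c (c (l 652465910359) (l 648170941543)) (l 644949713799)))) (b (c (b (l 670182651495) (a (l 663740208999) (l 16774448))) (a (l 678772577335) (a (b (l 326048427527) (l 16775568)) (l 272898148535)))) (c (a (l 16773248) (l 16768584)) (a (l 322290294103) (l 16768288))))) (a (b (b (b (a (c (l 159618442247) (l 142438573335)) (l 16772944)) (c (l 16773384) (l 16773240))) (c (l 16770360) (l 16770112))) (c (l 16764280) (l 16763824))) (c (b (l 16763000) (l 16755024))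 (b (l 16762520) (l 16754296))))) (b (c (a (b (l 16769408) (l 16761712)) (l 16756208)) (a (b (l 16769152) (l 16761224)) (l 16755744))) (c (a (l 16750048) (l 16740744)) (a (l 16749208) (l 16740048))))) (a (c (b (a (l 16746824) (l 16737296)) (l 16726592)) (b (l 16741584) (l 16726200))) (c (b (l 16722800) (l 16707632)) (b (l 16723080) (l 16707744))))) (a (c (a (l 16695624) (l 16675624)) (a (l 16697320) (l 16679552))) (c (l 16644936) (l 16653224)))), by decide +kernel⟩

def k17_pm_011_s : ∃ t, chk3 f_pm_011_s t 5 15 1 = true :=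
  ⟨(a (b (a (b (a (b (c (a (b (l 16756104) (l 16747816)) (l 16742896)) (a (l 16751104) (l 16741800))) (c (a (l 16735152) (l 16726280)) (a (l 16733768) (l 16724720)))) (c (b (a (l 16734184) (l 16725472)) (l 16713584)) (b (l 16728480) (l 16711856)))) (a (b (c (l 16713264) (l 16711312)) (c (l 16694968) (l 16692576))) (b (c (l 16696640) (l 16694536)) (l 16677608)))) (b (a (c (b (l 16711304) (l 16696456)) (b (l 16710608) (l 16694584))) (c (l 16684880) (l 16684784))) (a (b (l 16679192) (l 16661768)) (b (l 16661912) (l 16645120))))) (a (b (a (b (l 16674208) (l 16632288)) (b (l 16658464) (l 16637992))) (a (b (l 16609768) (l 16606400)) (b (l 16595000) (l 16592168)))) (b (a (b (l 16643232) (l 16623392)) (l 16618064)) (a (l 16590688) (l 16576856))))) (b (b (a (a (c (l 16665984) (l 16666768)) (l 16650224)) (a (l 16630912) (l 16611264))) (a (b (l 16635624) (l 16619696)) (a (l 16602024) (l 16585320)))) (b (a (a (l 16601872) (l 16585432)) (l 16560688)) (a (a (l 16562584) (l 16547544))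 (l 16524864))))), by decide +kernel⟩

def k18_pm_011_s : ∃ t, chk3 f_pm_011_s t 3 6 1 = true :=
  ⟨(a (b (a (b (l 3) (a (l 3) (b (l 3) (a (l 3) (b (l 3) (a (l 598241919815) (l 295446686967))))))) (b (l 1) (a (b (l 1) (a (c (l 262563306471) (l 265784532807)) (l 1))) (l 1)))) (b (a (a (b (l 3) (a (a (l 3) (b (l 3) (c (l 569250912167) (l 560124104407)))) (c (b (a (l 596631311015) (l 283098658295)) (a (l 278803708199) (l 16760600))) (b (a (l 585893889351) (l 16734976)) (l 273971864455))))) (b (a (b (a (l 3) (l 576767098199)) (c (b (l 315847765207) (l 305110382247)) (l 293299180631))) (b (c (l 284709278199) (l 16739560)) (c (l 16751112) (l 16752856)))) (a (b (c (l 16759120) (l 16760344)) (c (l 16742720) (l 16745080))) (b (l 16736064) (l 16720560))))) (a (a (b (b (l 16743536) (l 16727600)) (l 16725456)) (b (l 16752520) (l 16680400))) (b (l 1) (l 16706512)))) (a (a (c (b (a (b (c (l 286856730311) (l 285246118615)) (l 16756840)) (b (l 16750032) (l 16733704))) (a (b (l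 16740512) (l 16724416)) (l 16709504))) (b (a (b (b (l 298667897399) (l 16748736)) (l 16758240)) (b (l 16751888) (l 16736680))) (a (l 16756448) (l 16714104)))) (a (b (c (l 16718416) (l 16722448)) (l 16710584)) (b (l 16697648) (l 16667512)))) (a (b (a (l 16674656) (l 16651416)) (l 16655208)) (b (l 16616024) (l 16589112)))))) (b (l 1) (a (b (l 1) (a (l 16638856) (l 1))) (l 1)))), by decide +kernel⟩

def k19_pm_011_s : ∃ t, chk3 f_pm_011_s t 3 7 1 = true :=
  ⟨(a (b (a (a (c (b (b (a (l 16700736) (l 16678200)) (l 16680176)) (b (l 16630544) (l 16602832))) (b (b (a (l 16705912) (l 16684856)) (l 16667008)) (b (l 16640016) (l 16613640)))) (b (b (a (l 16659664) (l 16638160)) (l 16662296)) (b (l 16593368) (l 16567264)))) (a (b (b (l 16606000) (l 16578840)) (b (l 16553120) (l 16528184))) (b (b (l 16562992) (l 16537856)) (l 16502344)))) (a (a (b (b (l 16581224) (l 16556552)) (b (l 16528848) (l 16494264))) (b (b (l 16541496) (l 16518000)) (l 16501056))) (a (b (l 16534328) (l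 16444928)) (b (l 16458256) (l 16405720))))) (b (a (a (b (l 16507616) (l 16464232)) (b (l 16460448) (l 16411784))) (b (l 1) (l 55867494743))) (a (b (a (l 16413632) (l 16362984)) (l 16479512)) (b (l 16291936) (l 16248088))))), by decide +kernel⟩

theorem s20_pm_011_s : ∃ t, chk3 f_pm_011_s t 3 3 1 = true := ex3_b k18_pm_011_s k19_pm_011_s

theorem s21_pm_011_s : ∃ t, chk3 f_pm_011_s t 5 29 1 = true := ex3_b k15_pm_011_s k16_pm_011_s

theorem s22_pm_011_s : ∃ t, chk3 f_pm_011_s t 5 14 1 = true := ex3_b k14_pm_011_s s21_pm_011_s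

theorem s23_pm_011_s : ∃ t, chk3 f_pm_011_s t 5 7 1 = true := ex3_b s22_pm_011_s k17_pm_011_s

theorem s24_pm_011_s : ∃ t, chk3 f_pm_011_s t 18 61 1 = true := ex3_a k10_pm_011_s k11_pm_011_s

theorem s25_pm_011_s : ∃ t, chk3 f_pm_011_s t 9 61 1 = true := ex3_a s24_pm_011_s k12_pm_011_s

theorem s26_pm_011_s : ∃ t, chk3 f_pm_011_s t 9 30 1 = true := ex3_b k9_pm_011_s s25_pm_011_s

theorem s27_pm_011_s : ∃ t, chk3 f_pm_011_s t 9 15 1 = true := ex3_b s26_pm_011_s k13_pm_011_s

theorem s28_pm_011_s : ∃ t, chk3 f_pm_011_s t 35 62 1 = true := ex3_b k6_pm_011_s k7_pm_011_s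

theorem s29_pm_011_s : ∃ t, chk3 f_pm_011_s t 17 62 1 = true := ex3_a k5_pm_011_s s28_pm_011_s

theorem s30_pm_011_s : ∃ t, chk3 f_pm_011_s t 17 31 1 = true := ex3_b s29_pm_011_s k8_pm_011_s

theorem s31_pm_011_s : ∃ t, chk3 f_pm_011_s t 8 31 1 = true := ex3_a k4_pm_011_s s30_pm_011_s

theorem s32_pm_011_s : ∃ t, chk3 f_pm_011_s t 8 15 1 = true := ex3_b k3_pm_011_s s31_pm_011_s

theorem s33_pm_011_s : ∃ t, chk3 f_pm_011_s t 4 15 1 = true := ex3_a s32_pm_011_s s27_pm_011_s

theorem s34_pm_011_s : ∃ t, chk3 f_pm_011_s t 4 7 1 = true := ex3_b k2_pm_011_s s33_pm_011_s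

theorem s35_pm_011_s : ∃ t, chk3 f_pm_011_s t 2 7 1 = true := ex3_a s34_pm_011_s s23_pm_011_s

theorem s36_pm_011_s : ∃ t, chk3 f_pm_011_s t 2 3 1 = true := ex3_b k1_pm_011_s s35_pm_011_s

theorem s37_pm_011_s : ∃ t, chk3 f_pm_011_s t 1 3 1 = true := ex3_a s36_pm_011_s s20_pm_011_s

theorem s38_pm_011_s : ∃ t, chk3 f_pm_011_s t 1 1 1 = true := ex3_b k0_pm_011_s s37_pm_011_s

theorem c_pm_011_s : CertNE 0 536870912 536870912 536870912 923417968 42949674 3 eng mog cd0q0 cd4q1 pd1 true true false .pnn 0 1 1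
    ndB0q0 ndB4q1 pcB1 cut_pm_011_s Ext.none :=
  certNE1 (fam := true) (s1 := true) (s2 := false) (a := 0) (b := 1) (c := 1) (cn := .pnn) (n1 := ndB0q0) (n2 := ndB4q1) (pc := pcB1) (cut := cut_pm_011_s) (xt := Ext.none) (P1 := 0) (W1 := 536870912) (P2 := 536870912) (W2 := 536870912) (P3 := 923417968) (W3 := 42949674) (N0 := 3) (En := eng) (mo := mog) (C1 := cd0q0) (C2 := cd4q1) (C3 := pd1)
    rfl (fun _ => rfl) s38_pm_011_s

noncomputable def cut_pm_012_s : Cut := Cut.of [[⟨4, 0, 0, 1449551462⟩], [⟨0, 0, 0, 67108864⟩, ⟨1, 1, 0, 67108864⟩, ⟨2, 1, 0, 67108864⟩]]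

noncomputable def f_pm_012_s : ℕ → ℕ → ℕ → ℕ → Bool := onCell 1073741824 536870912 536870912 536870912 923417968 42949674
    (rowNE 3 eng mog cd0q0 cd4q1 pd2 2 true true false .pnp 0 1 2 (qsf 0 536870912 536870912 536870912 2) ndB0q0 ndB4q1 pcB2 cut_pm_012_s Ext.none)

def k0_pm_012_s : ∃ t, chk3 f_pm_012_s t 4 2 1 = true :=
  ⟨(b (a (b (a (b (l 16119032) (l 16145192)) (l 6)) (a (b (l 16161744) (l 16177072)) (b (l 16134784) (l 16181608)))) (l 6)) (a (b (a (b (l 16066152) (a (l 16194816) (l 16227192))) (b (l 16228352) (l 16266000))) (a (a (b (l 16216984) (b (l 16236232) (l 16249648))) (b (l 16252976) (l 16241168))) (b (l 16296984) (l 16185448)))) (b (a (b (l 16131088) (l 16166728)) (l 6)) (a (b (l 16199760) (l 16224920)) (b (l 16090208) (l 16107752)))))), by decide +kernel⟩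

def k1_pm_012_s : ∃ t, chk3 f_pm_012_s t 4 6 1 = true :=
  ⟨(a (b (b (a (a (b (l 16273112) (l 16308968)) (c (l 16277992) (l 16289896))) (a (l 16316064) (l 16346152))) (b (a (a (l 16346552) (l 16356688)) (l 16313024)) (a (a (l 16342816) (l 16415288)) (l 16381432)))) (a (b (a (b (a (l 16415544) (l 16431288)) (a (l 16454536) (l 16470008))) (a (l 16465392) (l 16479424))) (b (a (a (l 16493640) (l 16508640)) (l 16529920)) (a (a (l 16489544) (l 16546904)) (l 16503760)))) (b (a (l 16448312) (l 16364160)) (a (c (l 16457856) (l 16442704)) (c (l 16370912) (l 16347624)))))) (b (a (b (l 16242936) (a (l 16287136) (l 16214576))) (b (l 16052344) (a (l 16145272) (l 16078584)))) (a (a (b (l 16262264) (b (l 16275272) (l 16268488))) (b (l 16205736) (l 16208904))) (b (a (l 16131056) (l 16058936)) (a (l 16107168) (l 16029944)))))), by decide +kernel⟩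

def k2_pm_012_s : ∃ t, chk3 f_pm_012_s t 8 14 1 = true :=
  ⟨(a (b (a (b (a (c (l 16567080) (l 16567616)) (l 16583336)) (a (c (l 16578832) (l 16580064)) (l 16595904))) (b (a (l 16574240) (l 16523368)) (a (l 16578976) (l 16483656)))) (a (b (a (b (l 16581800) (a (l 16634488) (l 16642936))) (l 16589488)) (a (c (b (l 16631016) (l 16624064)) (c (l 16619152) (l 16620680))) (a (l 16623688) (l 16636352)))) (a (b (l 16559096) (b (l 16548848) (l 16552784))) (b (l 16466744) (c (l 16543216) (l 16526888)))))) (b (b (a (a (l 16473544) (l 16424960)) (l 16395352)) (a (a (l 16473656) (l 16422760)) (c (l 16362296) (l 16333592)))) (a (b (a (l 16475080) (l 16421696)) (a (c (l 16488936) (l 16467784)) (c (l 16435648) (l 16409688)))) (b (c (l 16359416) (l 16328472)) (c (l 16368400) (l 16324752)))))), by decide +kernel⟩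

def k3_pm_012_s : ∃ t, chk3 f_pm_012_s t 8 15 1 = true :=
  ⟨(a (b (a (a (b (b (c (l 16648320) (l 16641064)) (a (l 14) (l 16677896))) (l 14)) (b (c (b (l 16661664) (l 16645536)) (a (l 16671944) (l 16619888))) (a (l 14) (b (l 16610312) (l 14))))) (a (b (c (c (l 16568144) (l 16583080)) (a (l 16609880) (l 16579016))) (a (b (l 16580304) (l 14)) (b (l 16592312) (l 16606992)))) (a (b (b (l 16554776) (l 16558552)) (b (l 16562472) (l 16571736))) (b (l 16532584) (c (l 16523272) (l 16503664)))))) (a (l 14) (b (a (l 14) (a (l 14) (a (l 14) (b (l 16511984) (l 14))))) (l 14)))) (b (a (b (a (c (l 16494768) (l 16472216)) (b (l 16425224) (l 16427312))) (a (c (b (l 16499832) (l 16503424)) (b (l 16476504) (l 16479816))) (c (c (l 16431144) (l 16417352)) (c (l 16402992) (l 16388072))))) (b (c (b (l 16358456) (l 16359544)) (b (l 16323856) (l 16324104))) (a (c (l 16369920) (l 16334792)) (c (b (l 16333952) (l 16335576)) (l 16316696))))) (a (b (a (b (c (l 16507104) (l 16483440)) (a (l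 14) (b (l 16472808) (l 14)))) (c (b (l 16439584) (a (l 16467744) (l 16439176))) (b (l 16400088) (l 16419304)))) (a (l 14) (a (l 14) (b (c (l 16463528) (l 16412672)) (l 14))))) (b (c (b (a (l 16414512) (l 16337632)) (a (c (l 16404720) (l 16388168)) (a (l 16354128) (l 16326056)))) (a (b (l 16359192) (l 16341168)) (b (l 16298000) (l 16321248)))) (a (a (b (c (l 16413952) (l 16381240)) (l 14)) (b (c (l 16385432) (l 16349912)) (c (b (l 16387832) (l 14)) (l 16374696)))) (b (c (c (l 16352336) (l 16333208)) (c (l 16313360) (l 16292792))) (c (a (b (l 16359304) (l 16360888)) (b (l 16330880) (l 16332384))) (a (l 16343264) (l 16290960))))))))), by decide +kernel⟩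

def k4_pm_012_s : ∃ t, chk3 f_pm_012_s t 9 14 1 = true :=
  ⟨(a (b (a (b (l 16260920) (l 16273952)) (c (l 16188128) (l 16143560))) (a (b (c (l 16264200) (l 16224192)) (c (l 16237768) (l 16216152))) (b (c (l 16173480) (l 16124592)) (c (l 16184904) (l 16112048))))) (b (a (b (l 16086344) (l 16051000)) (c (l 16025248) (l 15964384))) (a (b (l 16047176) (c (l 16073672) (l 16012696))) (c (b (l 16001608) (l 15986504)) (l 15988888))))), by decide +kernel⟩

def k5_pm_012_s : ∃ t, chk3 f_pm_012_s t 9 15 1 = true :=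
  ⟨(a (b (a (b (c (a (l 16280496) (l 16229744)) (l 16210088)) (a (c (l 16322736) (l 16236632)) (c (l 16227904) (l 16178608)))) (b (c (a (l 16180472) (l 16132304)) (l 16080696)) (c (a (l 16176168) (l 16125672)) (a (l 16121760) (l 16066208))))) (a (b (c (b (a (l 16282520) (l 16228296)) (a (l 16284312) (l 16229320))) (b (a (l 16237560) (l 16178024)) (a (l 16239096) (l 16178688)))) (c (b (a (c (l 16297344) (l 16275552)) (l 16251864)) (a (c (b (l 16299216) (l 16300544)) (l 16299192)) (c (l 16266016) (l 16220672)))) (b (a (c (l 16252928) (l 16229480)) (l 16180160)) (a (c (l 16255752) (l 16232488)) (c (l 16195376) (l 16169168)))))) (b (c (a (b (l 16175064) (l 16175232)) (b (l 16122944) (l 16122144))) (a (l 16161200) (l 16061336))) (c (b (a (l 16176040) (l 16122096)) (a (c (l 16190856) (l 16163792)) (c (l 16137488) (l 16107728)))) (a (b (l 16119792) (l 16121272)) (b (l 16060352) (l 16060960))))))) (b (a (b (c (l 16124920) (l 15997824)) (c (a (l 16076672) (l 16028784))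 (a (l 16012224) (l 15959384)))) (b (c (l 15972304) (l 15898784)) (c (a (l 15982032) (l 15936592)) (l 15924136)))) (a (b (c (a (l 16128688) (l 16041792)) (a (l 16004616) (l 15949216))) (c (a (b (l 16069168) (l 16089936)) (b (l 16017368) (l 16016208))) (a (b (l 16001968) (l 16001592)) (b (l 15944752) (l 15943280))))) (b (c (b (l 15950736) (l 16008944)) (a (l 15895392) (l 15842728))) (c (b (a (l 15966792) (l 15917552)) (a (l 15964592) (l 15914216))) (b (l 15882360) (l 15952472))))))), by decide +kernel⟩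

def k6_pm_012_s : ∃ t, chk3 f_pm_012_s t 5 1 1 = true :=
  ⟨(b (b (l 6) (l 6)) (b (a (b (a (b (l 6) (l 15985272)) (l 6)) (a (a (b (l 15990096) (l 15955624)) (a (b (l 15939944) (l 15901560)) (b (l 6) (a (l 15875400) (l 15857840))))) (b (l 6) (c (l 15820440) (l 15742896))))) (l 6)) (b (a (a (a (b (c (l 15948904) (l 15880168)) (c (l 15953840) (l 15835200))) (a (b (l 15857720) (b (l 15823184) (l 15800840))) (b (a (l 15829424) (l 15957704)) (a (l 15802536) (c (l 15804896) (l 15716336)))))) (b (b (l 15721632) (l 15694584)) (b (c (l 15733648) (l 15639376)) (c (l 15708344) (l 15608984))))) (l 6)) (a (a (a (b (c (b (l 15885792) (l 15869968)) (b (l 15803024) (l 15783536))) (b (c (a (l 15878232) (l 15833216)) (a (l 15791280) (l 15741200))) (c (a (b (l 15869792) (l 15865200)) (l 15841392)) (a (l 15778480) (l 15726040))))) (b (a (b (l 15779440) (l 15822400)) (a (b (l 15747368) (l 15726296)) (b (l 15810328) (c (l 15753616) (l 15653496))))) (a (b (c (l 15789040) (l 15691888))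 (c (l 15795640) (l 15674840))) (a (b (l 15770088) (c (l 15741480) (l 15637464))) (b (c (l 15735728) (l 15631704)) (c (a (l 15725320) (l 15714680)) (l 15612808))))))) (b (b (c (l 15684072) (l 15579688)) (c (l 15744960) (l 15593880))) (b (c (a (l 15682040) (l 15598144)) (a (l 15572560) (l 15480920))) (c (a (l 15727272) (l 15577320)) (a (l 15551528) (l 15456504)))))) (a (a (b (b (l 6) (l 15527240)) (b (c (l 15518080) (l 15393344)) (c (l 15494192) (l 15365648)))) (l 6)) (l 6)))))), by decide +kernel⟩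

def k7_pm_012_s : ∃ t, chk3 f_pm_012_s t 3 1 1 = true :=
  ⟨(b (l 6) (l 6)), by decide +kernel⟩

theorem s8_pm_012_s : ∃ t, chk3 f_pm_012_s t 9 7 1 = true := ex3_b k4_pm_012_s k5_pm_012_s

theorem s9_pm_012_s : ∃ t, chk3 f_pm_012_s t 8 7 1 = true := ex3_b k2_pm_012_s k3_pm_012_s

theorem s10_pm_012_s : ∃ t, chk3 f_pm_012_s t 4 7 1 = true := ex3_a s9_pm_012_s s8_pm_012_s

theorem s11_pm_012_s : ∃ t, chk3 f_pm_012_s t 4 3 1 = true := ex3_b k1_pm_012_s s10_pm_012_s

theorem s12_pm_012_s : ∃ t, chk3 f_pm_012_s t 4 1 1 = true := ex3_b k0_pm_012_s s11_pm_012_s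

theorem s13_pm_012_s : ∃ t, chk3 f_pm_012_s t 2 1 1 = true := ex3_a s12_pm_012_s k6_pm_012_s

theorem s14_pm_012_s : ∃ t, chk3 f_pm_012_s t 1 1 1 = true := ex3_a s13_pm_012_s k7_pm_012_s

theorem c_pm_012_s : CertNE 0 536870912 536870912 536870912 923417968 42949674 3 eng mog cd0q0 cd4q1 pd2 true true false .pnp 0 1 2
    ndB0q0 ndB4q1 pcB2 cut_pm_012_s Ext.none :=
  certNE2 (fam := true) (s1 := true) (s2 := false) (a := 0) (b := 1) (c := 2) (cn := .pnp) (n1 := ndB0q0) (n2 := ndB4q1) (pc := pcB2) (cut := cut_pm_012_s) (xt := Ext.none) (P1 := 0) (W1 := 536870912) (P2 := 536870912) (W2 := 536870912) (P3 := 923417968) (W3 := 42949674) (N0 := 3) (En := eng) (mo := mog) (C1 := cd0q0) (C2 := cd4q1) (C3 := pd2)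
    rfl (fun _ => rfl) s14_pm_012_s

noncomputable def cut_pm_022_s : Cut := Cut.of [[⟨4, 0, 0, 1449551462⟩], [⟨0, 0, 0, 67108864⟩, ⟨1, 1, 0, 67108864⟩, ⟨2, 1, 0, 67108864⟩]]

noncomputable def f_pm_022_s : ℕ → ℕ → ℕ → ℕ → Bool := onCell 1073741824 536870912 1073741824 536870912 923417968 42949674
    (rowNE 3 eng mog cd0q0 cd4q2 pd2 2 true true false .pp 0 2 2 (qsf 0 536870912 1073741824 536870912 2) ndB0q0 ndB4q2 pcB2 cut_pm_022_s Ext.none)

def k0_pm_022_s : ∃ t, chk3 f_pm_022_s t 8 2 1 = true :=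
  ⟨(b (b (a (b (l 14) (b (l 14) (l 1))) (b (a (l 14) (a (l 14) (a (l 14) (a (l 14) (b (b (c (l 16350784) (l 16311784)) (c (l 16399744) (l 16365040))) (c (l 16450656) (l 16443704))))))) (a (b (l 14) (b (l 14) (l 1))) (b (a (l 14) (a (l 14) (a (l 14) (l 16470976)))) (a (b (l 14) (l 768832279223)) (c (c (l 316786953463) (l 316250088775)) (l 307660153335))))))) (a (l 1) (b (a (l 1) (b (a (l 1) (b (l 764537349367) (l 1))) (l 1))) (l 1)))) (l 1)), by decide +kernel⟩

def k1_pm_022_s : ∃ t, chk3 f_pm_022_s t 18 4 1 = true :=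
  ⟨(b (b (b (a (c (a (b (c (b (l 16313464) (l 16337784)) (l 16286744)) (c (l 16373928) (l 16355448))) (b (c (b (l 16258512) (l 16283064)) (l 16247488)) (l 16298560))) (a (b (c (l 16283768) (l 16261688)) (l 16326392)) (b (c (l 16223288) (l 16198208)) (l 16264808)))) (c (b (a (c (l 16216512) (l 16190440)) (c (l 16162864) (l 16134080))) (a (l 16232768) (l 16198992))) (b (a (l 16128512) (l 16088840)) (c (l 16187048) (l 16159592))))) (b (a (a (c (l 16413320) (l 16379448)) (c (l 16358152) (l 16318384))) (c (a (l 16303320) (l 16248920)) (a (l 16257664) (l 16197456)))) (c (a (a (l 16460992) (l 16406456)) (a (l 16352168) (l 16298240))) (a (a (l 16431768) (l 16371360)) (l 16323176))))) (a (a (b (c (l 16415248) (l 16403584)) (a (l 16563592) (l 16536456))) (b (c (l 16393248) (l 16386344)) (a (l 16488288) (l 16461040)))) (a (b (c (l 16381872) (l 16369096)) (a (l 16454736) (l 16427448))) (b (c (l 16370720) (l 16331024)) (c (l 16443016) (l 16434256)))))) (b (a (b (a (b (l 480532535975)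 (l 714071436631)) (c (l 16502784) (l 16512304))) (a (l 1) (b (l 715682001863) (l 1)))) (b (a (l 16511704) (l 16479920)) (a (b (l 16487184) (l 660920992519)) (l 303901820935)))) (a (l 1) (b (a (l 1) (b (l 660920939143) (l 1))) (l 1))))), by decide +kernel⟩

def k2_pm_022_s : ∃ t, chk3 f_pm_022_s t 19 4 1 = true :=
  ⟨(b (b (a (b (c (b (a (c (l 16110048) (l 16078544)) (l 16062184)) (a (l 16144920) (l 16091680))) (b (a (l 16029008) (l 15970128)) (l 16059208))) (c (b (a (l 16195088) (l 16141944)) (l 16218288)) (b (l 16118856) (l 16162624)))) (a (c (b (b (l 15989008) (l 16039368)) (l 16114672)) (b (l 15918440) (l 16048216))) (b (c (b (l 15937952) (l 15988104)) (l 15903600)) (c (l 16063296) (l 15991120))))) (b (a (c (b (l 16267480) (l 16315920)) (a (l 16272304) (l 16214064))) (c (b (l 16163624) (l 16212728)) (b (l 16100920) (l 16154736)))) (a (c (a (l 16412440) (l 16361160)) (l 16222336)) (c (l 16180184) (l 16213392))))) (b (b (a (b (c (l 16434392) (l 16424240)) (l 16417296))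 (c (l 16315296) (l 16295592))) (a (a (l 16473680) (l 16507328)) (c (l 16466720) (l 16435976)))) (a (b (c (l 419328935527) (l 433824461351)) (a (l 1) (l 709239321319))) (b (l 16370616) (a (l 476237156183) (l 16365624)))))), by decide +kernel⟩

def k3_pm_022_s : ∃ t, chk3 f_pm_022_s t 9 5 1 = true :=
  ⟨(a (l 1) (b (b (a (l 1) (b (a (l 1) (l 630855853447)) (l 1))) (l 1)) (l 1))), by decide +kernel⟩

def k4_pm_022_s : ∃ t, chk3 f_pm_022_s t 20 2 1 = true :=
  ⟨(b (a (c (b (b (b (b (a (l 15888160) (l 15839752)) (l 15976464)) (a (l 16012928) (l 15963704))) (b (l 16087656) (l 16185456))) (b (b (l 16280344) (l 16371248)) (l 16304512))) (b (b (b (a (l 15827064) (l 15772856)) (l 15907504)) (b (l 16015656) (l 16122752))) (b (b (l 16227416) (l 16328168)) (l 16332552)))) (b (b (a (b (c (b (l 15792984) (l 15841848)) (l 15720256)) (c (l 15915840) (l 15826384))) (c (a (b (l 15783200) (l 15880984)) (b (a (l 15766752) (l 15755952)) (a (l 15864264) (l 15853296)))) (a (b (l 15681560)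 (l 15786984)) (b (a (l 15662640) (l 15650120)) (l 15761280))))) (b (a (l 15996160) (a (l 15937704) (c (l 15957016) (l 15867912)))) (a (l 16077672) (a (l 16040088) (l 16044568))))) (b (b (a (l 16178088) (a (l 16140720) (l 16116472))) (a (l 16275128) (c (l 16255720) (l 16195736)))) (a (b (l 16367552) (l 16454216)) (c (l 16177280) (b (l 16293912) (l 16386528))))))) (b (b (a (b (c (l 380137142679) (l 16298640)) (a (l 1) (l 667899831495))) (a (c (l 274373439895) (l 16242456)) (a (l 16220304) (l 73046834647)))) (a (l 1) (a (l 1) (b (a (l 1) (l 557841182295)) (l 1))))) (l 1))), by decide +kernel⟩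

def k5_pm_022_s : ∃ t, chk3 f_pm_022_s t 21 2 1 = true :=
  ⟨(a (b (b (b (b (c (b (l 15680504) (l 15728552)) (b (l 15568032) (l 15619544))) (c (l 15822136) (l 15697800))) (b (c (l 15898264) (l 15803056)) (l 16016264))) (b (b (l 16095920) (a (l 16177200) (l 16127344))) (b (l 16120888) (l 16315368)))) (b (b (l 16183768) (b (l 16216280) (l 597569472631))) (l 1))) (b (b (b (b (c (l 15615712) (l 15496856)) (c (l 15711152) (l 15599672))) (b (c (l 15807056) (l 15703704)) (l 15877336))) (b (c (l 15919240) (l 15963880)) (b (l 16086632) (c (l 16269168) (l 16210312))))) (b (b (l 16219872) (c (l 16155856) (l 16164872))) (b (b (l 582000134711) (l 1)) (l 1))))), by decide +kernel⟩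

def k6_pm_022_s : ∃ t, chk3 f_pm_022_s t 11 2 1 = true :=
  ⟨(b (b (b (a (c (b (a (l 15530728) (l 15449592)) (a (l 15625992) (l 15544288))) (b (a (l 15404072) (l 15315384)) (l 15629568))) (l 6)) (b (a (c (a (l 15720512) (l 15638680)) (l 15568712)) (l 6)) (a (c (l 15773032) (l 15666704)) (c (l 15615416) (l 15494824))))) (b (a (c (a (l 15955432) (l 15870936)) (a (l 15866232) (l 15774160))) (a (a (l 15802200) (l 15719552)) (l 6))) (b (a (a (l 16055768) (l 15965928)) (l 15924000)) (a (a (l 16147576) (l 16057872)) (l 15930704))))) (b (b (a (a (l 16087328) (b (l 16145824) (l 16228616))) (b (l 15955848) (a (l 16143848) (l 16062216)))) (a (a (l 16141448) (l 16277800)) (c (l 16245168) (l 16189232)))) (b (a (b (l 16045984) (l 379599639303)) (a (l 16124112) (l 16284440))) (a (a (l 1) (l 554082465527)) (a (l 360809000647) (l 16012672)))))), by decide +kernel⟩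

def k7_pm_022_s : ∃ t, chk3 f_pm_022_s t 3 2 1 = true :=
  ⟨(a (a (b (l 6) (a (b (a (b (l 15942680) (l 16080248)) (l 6)) (b (l 16094808) (l 15960304))) (l 6))) (l 6)) (l 6)), by decide +kernel⟩

def k8_pm_022_s : ∃ t, chk3 f_pm_022_s t 1 3 1 = true :=
  ⟨(a (a (l 1) (b (a (l 1) (b (b (a (l 1) (a (l 1) (l 528849379735))) (l 1)) (l 1))) (l 1))) (a (a (b (b (b (a (b (l 15997432) (l 15967248)) (l 15989888)) (a (c (l 520796125863) (l 504153147559)) (b (l 16005928) (l 15933816)))) (b (a (l 1) (l 492878654727)) (l 1))) (l 1)) (a (b (l 6) (l 1)) (l 6))) (l 6))), by decide +kernel⟩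

theorem s9_pm_022_s : ∃ t, chk3 f_pm_022_s t 10 2 1 = true := ex3_a k4_pm_022_s k5_pm_022_s

theorem s10_pm_022_s : ∃ t, chk3 f_pm_022_s t 5 2 1 = true := ex3_a s9_pm_022_s k6_pm_022_s

theorem s11_pm_022_s : ∃ t, chk3 f_pm_022_s t 9 4 1 = true := ex3_a k1_pm_022_s k2_pm_022_s

theorem s12_pm_022_s : ∃ t, chk3 f_pm_022_s t 9 2 1 = true := ex3_b s11_pm_022_s k3_pm_022_s

theorem s13_pm_022_s : ∃ t, chk3 f_pm_022_s t 4 2 1 = true := ex3_a k0_pm_022_s s12_pm_022_s

theorem s14_pm_022_s : ∃ t, chk3 f_pm_022_s t 2 2 1 = true := ex3_a s13_pm_022_s s10_pm_022_s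

theorem s15_pm_022_s : ∃ t, chk3 f_pm_022_s t 1 2 1 = true := ex3_a s14_pm_022_s k7_pm_022_s

theorem s16_pm_022_s : ∃ t, chk3 f_pm_022_s t 1 1 1 = true := ex3_b s15_pm_022_s k8_pm_022_s

theorem c_pm_022_s : CertNE 0 536870912 1073741824 536870912 923417968 42949674 3 eng mog cd0q0 cd4q2 pd2 true true false .pp 0 2 2
    ndB0q0 ndB4q2 pcB2 cut_pm_022_s Ext.none :=
  certNE2 (fam := true) (s1 := true) (s2 := false) (a := 0) (b := 2) (c := 2) (cn := .pp) (n1 := ndB0q0) (n2 := ndB4q2) (pc := pcB2) (cut := cut_pm_022_s) (xt := Ext.none) (P1 := 0) (W1 := 536870912) (P2 := 1073741824) (W2 := 536870912) (P3 := 923417968) (W3 := 42949674) (N0 := 3) (En := eng) (mo := mog) (C1 := cd0q0) (C2 := cd4q2) (C3 := pd2)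
    rfl (fun _ => rfl) s16_pm_022_s

noncomputable def cut_pm_023_s : Cut := Cut.of [[⟨4, 0, 0, 1449551462⟩]]

noncomputable def f_pm_023_s : ℕ → ℕ → ℕ → ℕ → Bool := onCell 1610612736 536870912 1073741824 536870912 923417968 42949674
    (rowNE 3 eng mog cd0q0 cd4q2 pd3 2 true true false .up 0 2 3 (qsf 0 536870912 1073741824 536870912 3) ndB0q0 ndB4q2 pcB3 cut_pm_023_s Ext.none)

def k0_pm_023_s : ∃ t, chk3 f_pm_023_s t 1 1 1 = true :=
  ⟨(a (l 6) (l 6)), by decide +kernel⟩

theorem c_pm_023_s : CertNE 0 536870912 1073741824 536870912 923417968 42949674 3 eng mog cd0q0 cd4q2 pd3 true true false .up 0 2 3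
    ndB0q0 ndB4q2 pcB3 cut_pm_023_s Ext.none :=
  certNE2 (fam := true) (s1 := true) (s2 := false) (a := 0) (b := 2) (c := 3) (cn := .up) (n1 := ndB0q0) (n2 := ndB4q2) (pc := pcB3) (cut := cut_pm_023_s) (xt := Ext.none) (P1 := 0) (W1 := 536870912) (P2 := 1073741824) (W2 := 536870912) (P3 := 923417968) (W3 := 42949674) (N0 := 3) (En := eng) (mo := mog) (C1 := cd0q0) (C2 := cd4q2) (C3 := pd3)
    rfl (fun _ => rfl) k0_pm_023_s

noncomputable def cut_pm_033_s : Cut := Cut.of [[⟨4, 0, 0, 1449551462⟩]]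

noncomputable def f_pm_033_s : ℕ → ℕ → ℕ → ℕ → Bool := onCell 1610612736 536870912 0 1230186008 923417968 42949674
    (rowNE 3 eng mog cd0q0 cd4q3 pd3 2 true true false .pnn 0 3 3 (qsf 0 536870912 0 1230186008 3) ndB0q0 ndB4q3 pcB3 cut_pm_033_s Ext.none)

def k0_pm_033_s : ∃ t, chk3 f_pm_033_s t 1 1 1 = true :=
  ⟨(b (l 6) (l 6)), by decide +kernel⟩

theorem c_pm_033_s : CertNE 0 536870912 0 1230186008 923417968 42949674 3 eng mog cd0q0 cd4q3 pd3 true true false .pnn 0 3 3
    ndB0q0 ndB4q3 pcB3 cut_pm_033_s Ext.none :=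
  certNE2 (fam := true) (s1 := true) (s2 := false) (a := 0) (b := 3) (c := 3) (cn := .pnn) (n1 := ndB0q0) (n2 := ndB4q3) (pc := pcB3) (cut := cut_pm_033_s) (xt := Ext.none) (P1 := 0) (W1 := 536870912) (P2 := 0) (W2 := 1230186008) (P3 := 923417968) (W3 := 42949674) (N0 := 3) (En := eng) (mo := mog) (C1 := cd0q0) (C2 := cd4q3) (C3 := pd3)
    rfl (fun _ => rfl) k0_pm_033_s

noncomputable def cut_pm_101_s : Cut := Cut.of [[⟨4, 0, 0, 1449551462⟩]]

noncomputable def f_pm_101_s : ℕ → ℕ → ℕ → ℕ → Bool := onCell 536870912 536870912 536870912 536870912 923417968 42949674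
    (rowNE 3 eng mog cd0q1 cd4q0 pd1 1 true true false .npn 1 0 1 (qsf 536870912 536870912 0 536870912 1) ndB0q1 ndB4q0 pcB1 cut_pm_101_s Ext.none)

def k0_pm_101_s : ∃ t, chk3 f_pm_101_s t 2 4 1 = true :=
  ⟨(a (b (a (l 3) (a (a (l 3) (l 1)) (l 1))) (a (b (a (l 3) (b (l 3) (a (l 3) (b (l 3) (l 539723005415))))) (a (b (l 3) (a (l 3) (b (l 3) (l 522543139447)))) (c (b (a (l 547239185431) (b (l 310479068071) (l 16739240))) (a (b (l 311552812487) (l 16758760)) (l 16717768))) (b (a (l 537575510183) (a (l 319069008103) (l 16740696))) (a (b (l 319605883511) (l 16760064)) (l 16731672)))))) (b (a (b (a (b (l 3) (l 541870488727)) (b (l 1) (a (l 179885256295) (l 1)))) (c (a (b (l 309405325511) (l 16747704)) (a (l 16739904) (l 16676136))) (a (a (l 317458394503) (l 16741112)) (l 16711544)))) (a (a (b (l 1) (l 270079318023)) (l 1)) (l 1))) (a (b (a (b (a (l 16751712) (l 16730960)) (l 16657552)) (c (l 16623224) (l 16671808))) (c (a (l 16665336) (l 16644192)) (a (l 16692744)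 (l 16653696)))) (b (a (c (l 16642944) (l 16652808)) (l 45667463671)) (c (l 16663968) (l 16489456))))))) (a (b (l 1) (a (a (b (l 1) (b (l 1) (l 16526016))) (l 1)) (l 1))) (l 1))), by decide +kernel⟩

def k1_pm_101_s : ∃ t, chk3 f_pm_101_s t 2 5 1 = true :=
  ⟨(a (b (a (b (a (b (a (b (l 3) (l 498920822407)) (b (c (l 312089686087) (l 320142756983)) (c (l 16756512) (l 16758432)))) (a (b (c (l 303499755255) (l 16732360)) (a (l 16765016) (l 16746168))) (b (l 16737080) (l 16695864)))) (b (a (b (l 16738600) (l 16696264)) (c (l 16684960) (l 16691232))) (a (c (l 16682104) (l 16690680)) (l 16604072)))) (a (b (a (b (l 16735520) (l 16715448)) (c (l 16682840) (l 16691216))) (a (b (l 16695456) (l 16675576)) (l 16647632))) (b (a (l 16646976) (l 16605288)) (a (l 16608376) (l 16567440))))) (b (a (a (b (a (l 16658272) (l 16638432)) (l 16607232)) (b (l 16608512) (l 16568440))) (b (a (l 16568408) (l 16527680)) (a (l 16529360) (l 16489728)))) (c (a (b (l 16539048) (l 16495616)) (l 16502520))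 (a (b (l 16554480) (l 16514408)) (l 16461512))))) (a (b (a (b (a (l 16645968) (l 16608848)) (a (l 16607112) (l 16570728))) (b (a (l 16570384) (l 16530288)) (l 16513560))) (a (b (a (l 16569064) (l 16533440)) (l 16515616)) (b (l 16477688) (l 16443640)))) (b (a (b (l 16465712) (l 16431064)) (c (l 16355376) (l 16379504))) (a (c (l 16364872) (l 16397584)) (l 16396664))))) (a (b (a (b (c (b (l 16456016) (l 16417168)) (b (l 16479048) (l 16442328))) (c (l 16360048) (l 16387720))) (b (c (l 199211803559) (l 16383784)) (c (l 16277112) (l 16310248)))) (b (a (c (l 16282072) (l 16311560)) (c (l 16203416) (l 16237984))) (a (l 16214072) (l 16145480)))) (b (b (l 1) (a (c (l 16192080) (l 16229536)) (l 1))) (a (b (c (l 16117928) (l 16156480)) (l 16066688)) (b (l 211022418423) (l 15980008)))))), by decide +kernel⟩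

def k2_pm_101_s : ∃ t, chk3 f_pm_101_s t 3 2 1 = true :=
  ⟨(a (b (l 1) (b (l 1) (a (a (b (l 1) (l 15898888)) (l 1)) (l 1)))) (l 1)), by decide +kernel⟩

def k3_pm_101_s : ∃ t, chk3 f_pm_101_s t 1 3 1 = true :=
  ⟨(a (b (a (b (a (b (a (b (l 16482928) (l 16453296)) (l 16482024)) (a (l 16414360) (l 16347640))) (b (a (l 16323208) (l 16239928)) (a (l 16276768) (l 16198872)))) (b (a (a (l 16371800) (l 16307760)) (a (l 16240632) (l 16167920))) (a (a (l 16337848) (l 16277104)) (l 16327576)))) (a (b (a (b (l 16144192) (l 16110224)) (b (l 16069480) (l 16002680))) (a (b (l 16086120) (l 16071400)) (l 16075928))) (b (a (b (l 15999440) (l 15930344)) (b (l 15917832) (l 6))) (a (l 15900768) (l 6))))) (a (b (a (b (a (l 16303528) (l 16250040)) (l 16365384)) (b (l 16160688) (l 16138288))) (a (b (l 16202784) (l 16167472)) (b (l 16114840) (l 6)))) (b (a (b (l 16027232) (l 6)) (l 6)) (l 6)))) (a (b (a (l 6) (l 6)) (l 6)) (l 6))), by decide +kernel⟩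

theorem s4_pm_101_s : ∃ t, chk3 f_pm_101_s t 2 2 1 = true := ex3_b k0_pm_101_s k1_pm_101_s

theorem s5_pm_101_s : ∃ t, chk3 f_pm_101_s t 1 2 1 = true := ex3_a s4_pm_101_s k2_pm_101_s

theorem s6_pm_101_s : ∃ t, chk3 f_pm_101_s t 1 1 1 = true := ex3_b s5_pm_101_s k3_pm_101_s

theorem c_pm_101_s : CertNE 536870912 536870912 0 536870912 923417968 42949674 3 eng mog cd0q1 cd4q0 pd1 true true false .npn 1 0 1
    ndB0q1 ndB4q0 pcB1 cut_pm_101_s Ext.none :=
  certNE1 (fam := true) (s1 := true) (s2 := false) (a := 1) (b := 0) (c := 1) (cn := .npn) (n1 := ndB0q1) (n2 := ndB4q0) (pc := pcB1) (cut := cut_pm_101_s) (xt := Ext.none) (P1 := 536870912) (W1 := 536870912) (P2 := 0) (W2 := 536870912) (P3 := 923417968) (W3 := 42949674) (N0 := 3) (En := eng) (mo := mog) (C1 := cd0q1) (C2 := cd4q0) (C3 := pd1)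
    rfl (fun _ => rfl) s6_pm_101_s

noncomputable def cut_pm_102_s : Cut := Cut.of [[⟨4, 0, 0, 1449551462⟩]]

noncomputable def f_pm_102_s : ℕ → ℕ → ℕ → ℕ → Bool := onCell 536870912 536870912 1073741824 536870912 923417968 42949674
    (rowNE 3 eng mog cd0q1 cd4q0 pd2 1 true true false .npp 1 0 2 (qsf 536870912 536870912 0 536870912 2) ndB0q1 ndB4q0 pcB2 cut_pm_102_s Ext.none)

def k0_pm_102_s : ∃ t, chk3 f_pm_102_s t 1 1 1 = true :=
  ⟨(a (b (a (b (a (b (b (a (l 6) (l 6)) (l 6)) (l 6)) (l 6)) (l 6)) (l 6)) (l 6)) (l 6)), by decide +kernel⟩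

theorem c_pm_102_s : CertNE 536870912 536870912 0 536870912 923417968 42949674 3 eng mog cd0q1 cd4q0 pd2 true true false .npp 1 0 2
    ndB0q1 ndB4q0 pcB2 cut_pm_102_s Ext.none :=
  certNE1 (fam := true) (s1 := true) (s2 := false) (a := 1) (b := 0) (c := 2) (cn := .npp) (n1 := ndB0q1) (n2 := ndB4q0) (pc := pcB2) (cut := cut_pm_102_s) (xt := Ext.none) (P1 := 536870912) (W1 := 536870912) (P2 := 0) (W2 := 536870912) (P3 := 923417968) (W3 := 42949674) (N0 := 3) (En := eng) (mo := mog) (C1 := cd0q1) (C2 := cd4q0) (C3 := pd2)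
    rfl (fun _ => rfl) k0_pm_102_s

noncomputable def cut_pm_112_s : Cut := Cut.of [[⟨4, 0, 0, 1449551462⟩]]

noncomputable def f_pm_112_s : ℕ → ℕ → ℕ → ℕ → Bool := onCell 536870912 536870912 536870912 536870912 923417968 42949674
    (rowNE 3 eng mog cd0q1 cd4q1 pd2 0 true true false .dn 1 1 2 (qsf 536870912 536870912 536870912 536870912 2) ndB0q1 ndB4q1 pcB2 cut_pm_112_s Ext.none)

def k0_pm_112_s : ∃ t, chk3 f_pm_112_s t 1 1 1 = true :=
  ⟨(a (b (a (b (a (b (a (l 16070120) (l 6)) (l 6)) (l 6)) (l 6)) (l 6)) (l 6)) (l 6)), by decide +kernel⟩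

theorem c_pm_112_s : CertNE 536870912 536870912 536870912 536870912 923417968 42949674 3 eng mog cd0q1 cd4q1 pd2 true true false .dn 1 1 2
    ndB0q1 ndB4q1 pcB2 cut_pm_112_s Ext.none :=
  certNE0 (fam := true) (s1 := true) (s2 := false) (a := 1) (b := 1) (c := 2) (cn := .dn) (n1 := ndB0q1) (n2 := ndB4q1) (pc := pcB2) (cut := cut_pm_112_s) (xt := Ext.none) (P1 := 536870912) (W1 := 536870912) (P2 := 536870912) (W2 := 536870912) (P3 := 923417968) (W3 := 42949674) (N0 := 3) (En := eng) (mo := mog) (C1 := cd0q1) (C2 := cd4q1) (C3 := pd2)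
    rfl k0_pm_112_s

noncomputable def cut_pm_113_s : Cut := Cut.of [[⟨4, 0, 0, 1449551462⟩]]

noncomputable def f_pm_113_s : ℕ → ℕ → ℕ → ℕ → Bool := onCell 536870912 536870912 1610612736 536870912 923417968 42949674
    (rowNE 3 eng mog cd0q1 cd4q1 pd3 1 true true false .nn 1 1 3 (qsf 536870912 536870912 536870912 536870912 3) ndB0q1 ndB4q1 pcB3 cut_pm_113_s Ext.none)

def k0_pm_113_s : ∃ t, chk3 f_pm_113_s t 1 1 1 = true :=
  ⟨(l 6), by decide +kernel⟩

theorem c_pm_113_s : CertNE 536870912 536870912 536870912 536870912 923417968 42949674 3 eng mog cd0q1 cd4q1 pd3 true true false .nn 1 1 3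
    ndB0q1 ndB4q1 pcB3 cut_pm_113_s Ext.none :=
  certNE1 (fam := true) (s1 := true) (s2 := false) (a := 1) (b := 1) (c := 3) (cn := .nn) (n1 := ndB0q1) (n2 := ndB4q1) (pc := pcB3) (cut := cut_pm_113_s) (xt := Ext.none) (P1 := 536870912) (W1 := 536870912) (P2 := 536870912) (W2 := 536870912) (P3 := 923417968) (W3 := 42949674) (N0 := 3) (En := eng) (mo := mog) (C1 := cd0q1) (C2 := cd4q1) (C3 := pd3)
    rfl (fun _ => rfl) k0_pm_113_s

noncomputable def cut_pm_123_s : Cut := Cut.of [[⟨4, 0, 0, 1449551462⟩]]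

noncomputable def f_pm_123_s : ℕ → ℕ → ℕ → ℕ → Bool := onCell 536870912 536870912 1073741824 536870912 923417968 42949674
    (rowNE 3 eng mog cd0q1 cd4q2 pd3 0 true true false .npn 1 2 3 (qsf 536870912 536870912 1073741824 536870912 3) ndB0q1 ndB4q2 pcB3 cut_pm_123_s Ext.none)

def k0_pm_123_s : ∃ t, chk3 f_pm_123_s t 1 1 1 = true :=
  ⟨(l 6), by decide +kernel⟩

theorem c_pm_123_s : CertNE 536870912 536870912 1073741824 536870912 923417968 42949674 3 eng mog cd0q1 cd4q2 pd3 true true false .npn 1 2 3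
    ndB0q1 ndB4q2 pcB3 cut_pm_123_s Ext.none :=
  certNE0 (fam := true) (s1 := true) (s2 := false) (a := 1) (b := 2) (c := 3) (cn := .npn) (n1 := ndB0q1) (n2 := ndB4q2) (pc := pcB3) (cut := cut_pm_123_s) (xt := Ext.none) (P1 := 536870912) (W1 := 536870912) (P2 := 1073741824) (W2 := 536870912) (P3 := 923417968) (W3 := 42949674) (N0 := 3) (En := eng) (mo := mog) (C1 := cd0q1) (C2 := cd4q2) (C3 := pd3)
    rfl k0_pm_123_s

noncomputable def cut_pm_133_s : Cut := Cut.of [[⟨4, 0, 0, 1449551462⟩]]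

noncomputable def f_pm_133_s : ℕ → ℕ → ℕ → ℕ → Bool := onCell 536870912 536870912 0 1230186008 923417968 42949674
    (rowNE 3 eng mog cd0q1 cd4q3 pd3 0 true true false .dn 1 3 3 (qsf 536870912 536870912 0 1230186008 3) ndB0q1 ndB4q3 pcB3 cut_pm_133_s Ext.none)

def k0_pm_133_s : ∃ t, chk3 f_pm_133_s t 1 1 1 = true :=
  ⟨(l 6), by decide +kernel⟩

theorem c_pm_133_s : CertNE 536870912 536870912 0 1230186008 923417968 42949674 3 eng mog cd0q1 cd4q3 pd3 true true false .dn 1 3 3
    ndB0q1 ndB4q3 pcB3 cut_pm_133_s Ext.none :=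
  certNE0 (fam := true) (s1 := true) (s2 := false) (a := 1) (b := 3) (c := 3) (cn := .dn) (n1 := ndB0q1) (n2 := ndB4q3) (pc := pcB3) (cut := cut_pm_133_s) (xt := Ext.none) (P1 := 536870912) (W1 := 536870912) (P2 := 0) (W2 := 1230186008) (P3 := 923417968) (W3 := 42949674) (N0 := 3) (En := eng) (mo := mog) (C1 := cd0q1) (C2 := cd4q3) (C3 := pd3)
    rfl k0_pm_133_s

noncomputable def cut_pm_202_s : Cut := Cut.of [[⟨4, 0, 0, 1449551462⟩]]

noncomputable def f_pm_202_s : ℕ → ℕ → ℕ → ℕ → Bool := onCell 0 536870912 0 536870912 923417968 42949674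
    (rowNE 3 eng mog cd0q2 cd4q0 pd2 0 true true false .pp 2 0 2 (qsf 0 536870912 0 536870912 2) ndB0q2 ndB4q0 pcB2 cut_pm_202_s Ext.none)

def k0_pm_202_s : ∃ t, chk3 f_pm_202_s t 1 1 1 = true :=
  ⟨(l 6), by decide +kernel⟩

theorem c_pm_202_s : CertNE 0 536870912 0 536870912 923417968 42949674 3 eng mog cd0q2 cd4q0 pd2 true true false .pp 2 0 2
    ndB0q2 ndB4q0 pcB2 cut_pm_202_s Ext.none :=
  certNE0 (fam := true) (s1 := true) (s2 := false) (a := 2) (b := 0) (c := 2) (cn := .pp) (n1 := ndB0q2) (n2 := ndB4q0) (pc := pcB2) (cut := cut_pm_202_s) (xt := Ext.none) (P1 := 0) (W1 := 536870912) (P2 := 0) (W2 := 536870912) (P3 := 923417968) (W3 := 42949674) (N0 := 3) (En := eng) (mo := mog) (C1 := cd0q2) (C2 := cd4q0) (C3 := pd2)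
    rfl k0_pm_202_s

noncomputable def cut_pm_203_s : Cut := Cut.of [[⟨4, 0, 0, 1449551462⟩]]

noncomputable def f_pm_203_s : ℕ → ℕ → ℕ → ℕ → Bool := onCell 0 536870912 0 536870912 923417968 42949674
    (rowNE 3 eng mog cd0q2 cd4q0 pd3 0 true true false .up 2 0 3 (qsf 0 536870912 0 536870912 3) ndB0q2 ndB4q0 pcB3 cut_pm_203_s Ext.none)

def k0_pm_203_s : ∃ t, chk3 f_pm_203_s t 1 1 1 = true :=
  ⟨(l 6), by decide +kernel⟩

theorem c_pm_203_s : CertNE 0 536870912 0 536870912 923417968 42949674 3 eng mog cd0q2 cd4q0 pd3 true true false .up 2 0 3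
    ndB0q2 ndB4q0 pcB3 cut_pm_203_s Ext.none :=
  certNE0 (fam := true) (s1 := true) (s2 := false) (a := 2) (b := 0) (c := 3) (cn := .up) (n1 := ndB0q2) (n2 := ndB4q0) (pc := pcB3) (cut := cut_pm_203_s) (xt := Ext.none) (P1 := 0) (W1 := 536870912) (P2 := 0) (W2 := 536870912) (P3 := 923417968) (W3 := 42949674) (N0 := 3) (En := eng) (mo := mog) (C1 := cd0q2) (C2 := cd4q0) (C3 := pd3)
    rfl k0_pm_203_s

noncomputable def cut_pm_213_s : Cut := Cut.of [[⟨4, 0, 0, 1449551462⟩]]

noncomputable def f_pm_213_s : ℕ → ℕ → ℕ → ℕ → Bool := onCell 0 536870912 536870912 536870912 923417968 42949674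
    (rowNE 3 eng mog cd0q2 cd4q1 pd3 0 true true false .pnn 2 1 3 (qsf 0 536870912 536870912 536870912 3) ndB0q2 ndB4q1 pcB3 cut_pm_213_s Ext.none)

def k0_pm_213_s : ∃ t, chk3 f_pm_213_s t 1 1 1 = true :=
  ⟨(l 6), by decide +kernel⟩

theorem c_pm_213_s : CertNE 0 536870912 536870912 536870912 923417968 42949674 3 eng mog cd0q2 cd4q1 pd3 true true false .pnn 2 1 3
    ndB0q2 ndB4q1 pcB3 cut_pm_213_s Ext.none :=
  certNE0 (fam := true) (s1 := true) (s2 := false) (a := 2) (b := 1) (c := 3) (cn := .pnn) (n1 := ndB0q2) (n2 := ndB4q1) (pc := pcB3) (cut := cut_pm_213_s) (xt := Ext.none) (P1 := 0) (W1 := 536870912) (P2 := 536870912) (W2 := 536870912) (P3 := 923417968) (W3 := 42949674) (N0 := 3) (En := eng) (mo := mog) (C1 := cd0q2) (C2 := cd4q1) (C3 := pd3)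
    rfl k0_pm_213_s

noncomputable def cut_mm_001_s : Cut := Cut.of [[⟨4, 0, 0, 1449551462⟩]]

noncomputable def f_mm_001_s : ℕ → ℕ → ℕ → ℕ → Bool := onCell 0 536870912 0 536870912 923417968 42949674
    (rowNE 3 eng mog cd0q0 cd4q0 pd1 0 true false false .up 0 0 1 (qsf 0 536870912 0 536870912 1) ndB0q0 ndB4q0 pcB1 cut_mm_001_s Ext.none)

def k0_mm_001_s : ∃ t, chk3 f_mm_001_s t 1 1 1 = true :=
  ⟨(l 4), by decide +kernel⟩

theorem c_mm_001_s : CertNE 0 536870912 0 536870912 923417968 42949674 3 eng mog cd0q0 cd4q0 pd1 true false false .up 0 0 1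
    ndB0q0 ndB4q0 pcB1 cut_mm_001_s Ext.none :=
  certNE0 (fam := true) (s1 := false) (s2 := false) (a := 0) (b := 0) (c := 1) (cn := .up) (n1 := ndB0q0) (n2 := ndB4q0) (pc := pcB1) (cut := cut_mm_001_s) (xt := Ext.none) (P1 := 0) (W1 := 536870912) (P2 := 0) (W2 := 536870912) (P3 := 923417968) (W3 := 42949674) (N0 := 3) (En := eng) (mo := mog) (C1 := cd0q0) (C2 := cd4q0) (C3 := pd1)
    rfl k0_mm_001_s

noncomputable def cut_mm_011_s : Cut := Cut.of [[⟨4, 0, 0, 1449551462⟩]]

noncomputable def f_mm_011_s : ℕ → ℕ → ℕ → ℕ → Bool := onCell 0 536870912 536870912 536870912 923417968 42949674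
    (rowNE 3 eng mog cd0q0 cd4q1 pd1 0 true false false .pnn 0 1 1 (qsf 0 536870912 536870912 536870912 1) ndB0q0 ndB4q1 pcB1 cut_mm_011_s Ext.none)

def k0_mm_011_s : ∃ t, chk3 f_mm_011_s t 1 1 1 = true :=
  ⟨(l 4), by decide +kernel⟩

theorem c_mm_011_s : CertNE 0 536870912 536870912 536870912 923417968 42949674 3 eng mog cd0q0 cd4q1 pd1 true false false .pnn 0 1 1
    ndB0q0 ndB4q1 pcB1 cut_mm_011_s Ext.none :=
  certNE0 (fam := true) (s1 := false) (s2 := false) (a := 0) (b := 1) (c := 1) (cn := .pnn) (n1 := ndB0q0) (n2 := ndB4q1) (pc := pcB1) (cut := cut_mm_011_s) (xt := Ext.none) (P1 := 0) (W1 := 536870912) (P2 := 536870912) (W2 := 536870912) (P3 := 923417968) (W3 := 42949674) (N0 := 3) (En := eng) (mo := mog) (C1 := cd0q0) (C2 := cd4q1) (C3 := pd1)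
    rfl k0_mm_011_s

noncomputable def cut_mm_012_s : Cut := Cut.of [[⟨4, 0, 0, 1449551462⟩]]

noncomputable def f_mm_012_s : ℕ → ℕ → ℕ → ℕ → Bool := onCell 0 536870912 536870912 536870912 923417968 42949674
    (rowNE 3 eng mog cd0q0 cd4q1 pd2 0 true false false .pnp 0 1 2 (qsf 0 536870912 536870912 536870912 2) ndB0q0 ndB4q1 pcB2 cut_mm_012_s Ext.none)

def k0_mm_012_s : ∃ t, chk3 f_mm_012_s t 1 1 1 = true :=
  ⟨(l 4), by decide +kernel⟩

theorem c_mm_012_s : CertNE 0 536870912 536870912 536870912 923417968 42949674 3 eng mog cd0q0 cd4q1 pd2 true false false .pnp 0 1 2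
    ndB0q0 ndB4q1 pcB2 cut_mm_012_s Ext.none :=
  certNE0 (fam := true) (s1 := false) (s2 := false) (a := 0) (b := 1) (c := 2) (cn := .pnp) (n1 := ndB0q0) (n2 := ndB4q1) (pc := pcB2) (cut := cut_mm_012_s) (xt := Ext.none) (P1 := 0) (W1 := 536870912) (P2 := 536870912) (W2 := 536870912) (P3 := 923417968) (W3 := 42949674) (N0 := 3) (En := eng) (mo := mog) (C1 := cd0q0) (C2 := cd4q1) (C3 := pd2)
    rfl k0_mm_012_s

noncomputable def cut_mm_022_s : Cut := Cut.of [[⟨4, 0, 0, 1449551462⟩]]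

noncomputable def f_mm_022_s : ℕ → ℕ → ℕ → ℕ → Bool := onCell 0 536870912 1073741824 536870912 923417968 42949674
    (rowNE 3 eng mog cd0q0 cd4q2 pd2 0 true false false .pp 0 2 2 (qsf 0 536870912 1073741824 536870912 2) ndB0q0 ndB4q2 pcB2 cut_mm_022_s Ext.none)

def k0_mm_022_s : ∃ t, chk3 f_mm_022_s t 1 1 1 = true :=
  ⟨(l 4), by decide +kernel⟩

theorem c_mm_022_s : CertNE 0 536870912 1073741824 536870912 923417968 42949674 3 eng mog cd0q0 cd4q2 pd2 true false false .pp 0 2 2
    ndB0q0 ndB4q2 pcB2 cut_mm_022_s Ext.none :=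
  certNE0 (fam := true) (s1 := false) (s2 := false) (a := 0) (b := 2) (c := 2) (cn := .pp) (n1 := ndB0q0) (n2 := ndB4q2) (pc := pcB2) (cut := cut_mm_022_s) (xt := Ext.none) (P1 := 0) (W1 := 536870912) (P2 := 1073741824) (W2 := 536870912) (P3 := 923417968) (W3 := 42949674) (N0 := 3) (En := eng) (mo := mog) (C1 := cd0q0) (C2 := cd4q2) (C3 := pd2)
    rfl k0_mm_022_s

noncomputable def cut_mm_023_s : Cut := Cut.of [[⟨4, 0, 0, 1449551462⟩]]

noncomputable def f_mm_023_s : ℕ → ℕ → ℕ → ℕ → Bool := onCell 0 536870912 1073741824 536870912 923417968 42949674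
    (rowNE 3 eng mog cd0q0 cd4q2 pd3 0 true false false .up 0 2 3 (qsf 0 536870912 1073741824 536870912 3) ndB0q0 ndB4q2 pcB3 cut_mm_023_s Ext.none)

def k0_mm_023_s : ∃ t, chk3 f_mm_023_s t 1 1 1 = true :=
  ⟨(l 4), by decide +kernel⟩

theorem c_mm_023_s : CertNE 0 536870912 1073741824 536870912 923417968 42949674 3 eng mog cd0q0 cd4q2 pd3 true false false .up 0 2 3
    ndB0q0 ndB4q2 pcB3 cut_mm_023_s Ext.none :=
  certNE0 (fam := true) (s1 := false) (s2 := false) (a := 0) (b := 2) (c := 3) (cn := .up) (n1 := ndB0q0) (n2 := ndB4q2) (pc := pcB3) (cut := cut_mm_023_s) (xt := Ext.none) (P1 := 0) (W1 := 536870912) (P2 := 1073741824) (W2 := 536870912) (P3 := 923417968) (W3 := 42949674) (N0 := 3) (En := eng) (mo := mog) (C1 := cd0q0) (C2 := cd4q2) (C3 := pd3)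
    rfl k0_mm_023_s

noncomputable def cut_mm_033_s : Cut := Cut.of [[⟨4, 0, 0, 1449551462⟩]]

noncomputable def f_mm_033_s : ℕ → ℕ → ℕ → ℕ → Bool := onCell 0 536870912 0 1230186008 923417968 42949674
    (rowNE 3 eng mog cd0q0 cd4q3 pd3 0 true false false .pnn 0 3 3 (qsf 0 536870912 0 1230186008 3) ndB0q0 ndB4q3 pcB3 cut_mm_033_s Ext.none)

def k0_mm_033_s : ∃ t, chk3 f_mm_033_s t 1 1 1 = true :=
  ⟨(l 4), by decide +kernel⟩

theorem c_mm_033_s : CertNE 0 536870912 0 1230186008 923417968 42949674 3 eng mog cd0q0 cd4q3 pd3 true false false .pnn 0 3 3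
    ndB0q0 ndB4q3 pcB3 cut_mm_033_s Ext.none :=
  certNE0 (fam := true) (s1 := false) (s2 := false) (a := 0) (b := 3) (c := 3) (cn := .pnn) (n1 := ndB0q0) (n2 := ndB4q3) (pc := pcB3) (cut := cut_mm_033_s) (xt := Ext.none) (P1 := 0) (W1 := 536870912) (P2 := 0) (W2 := 1230186008) (P3 := 923417968) (W3 := 42949674) (N0 := 3) (En := eng) (mo := mog) (C1 := cd0q0) (C2 := cd4q3) (C3 := pd3)
    rfl k0_mm_033_s

noncomputable def cut_mm_101_s : Cut := Cut.of [[⟨4, 0, 0, 1449551462⟩]]

noncomputable def f_mm_101_s : ℕ → ℕ → ℕ → ℕ → Bool := onCell 536870912 536870912 0 536870912 923417968 42949674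
    (rowNE 3 eng mog cd0q1 cd4q0 pd1 0 true false false .npn 1 0 1 (qsf 536870912 536870912 0 536870912 1) ndB0q1 ndB4q0 pcB1 cut_mm_101_s Ext.none)

def k0_mm_101_s : ∃ t, chk3 f_mm_101_s t 1 1 1 = true :=
  ⟨(l 4), by decide +kernel⟩

theorem c_mm_101_s : CertNE 536870912 536870912 0 536870912 923417968 42949674 3 eng mog cd0q1 cd4q0 pd1 true false false .npn 1 0 1
    ndB0q1 ndB4q0 pcB1 cut_mm_101_s Ext.none :=
  certNE0 (fam := true) (s1 := false) (s2 := false) (a := 1) (b := 0) (c := 1) (cn := .npn) (n1 := ndB0q1) (n2 := ndB4q0) (pc := pcB1) (cut := cut_mm_101_s) (xt := Ext.none) (P1 := 536870912) (W1 := 536870912) (P2 := 0) (W2 := 536870912) (P3 := 923417968) (W3 := 42949674) (N0 := 3) (En := eng) (mo := mog) (C1 := cd0q1) (C2 := cd4q0) (C3 := pd1)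
    rfl k0_mm_101_s

noncomputable def cut_mm_102_s : Cut := Cut.of [[⟨4, 0, 0, 1449551462⟩]]

noncomputable def f_mm_102_s : ℕ → ℕ → ℕ → ℕ → Bool := onCell 536870912 536870912 0 536870912 923417968 42949674
    (rowNE 3 eng mog cd0q1 cd4q0 pd2 0 true false false .npp 1 0 2 (qsf 536870912 536870912 0 536870912 2) ndB0q1 ndB4q0 pcB2 cut_mm_102_s Ext.none)

def k0_mm_102_s : ∃ t, chk3 f_mm_102_s t 1 1 1 = true :=
  ⟨(l 4), by decide +kernel⟩

theorem c_mm_102_s : CertNE 536870912 536870912 0 536870912 923417968 42949674 3 eng mog cd0q1 cd4q0 pd2 true false false .npp 1 0 2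
    ndB0q1 ndB4q0 pcB2 cut_mm_102_s Ext.none :=
  certNE0 (fam := true) (s1 := false) (s2 := false) (a := 1) (b := 0) (c := 2) (cn := .npp) (n1 := ndB0q1) (n2 := ndB4q0) (pc := pcB2) (cut := cut_mm_102_s) (xt := Ext.none) (P1 := 536870912) (W1 := 536870912) (P2 := 0) (W2 := 536870912) (P3 := 923417968) (W3 := 42949674) (N0 := 3) (En := eng) (mo := mog) (C1 := cd0q1) (C2 := cd4q0) (C3 := pd2)
    rfl k0_mm_102_s

noncomputable def cut_mm_112_s : Cut := Cut.of [[⟨4, 0, 0, 1449551462⟩]]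

noncomputable def f_mm_112_s : ℕ → ℕ → ℕ → ℕ → Bool := onCell 536870912 536870912 536870912 536870912 923417968 42949674
    (rowNE 3 eng mog cd0q1 cd4q1 pd2 0 true false false .dn 1 1 2 (qsf 536870912 536870912 536870912 536870912 2) ndB0q1 ndB4q1 pcB2 cut_mm_112_s Ext.none)

def k0_mm_112_s : ∃ t, chk3 f_mm_112_s t 1 1 1 = true :=
  ⟨(l 4), by decide +kernel⟩

theorem c_mm_112_s : CertNE 536870912 536870912 536870912 536870912 923417968 42949674 3 eng mog cd0q1 cd4q1 pd2 true false false .dn 1 1 2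
    ndB0q1 ndB4q1 pcB2 cut_mm_112_s Ext.none :=
  certNE0 (fam := true) (s1 := false) (s2 := false) (a := 1) (b := 1) (c := 2) (cn := .dn) (n1 := ndB0q1) (n2 := ndB4q1) (pc := pcB2) (cut := cut_mm_112_s) (xt := Ext.none) (P1 := 536870912) (W1 := 536870912) (P2 := 536870912) (W2 := 536870912) (P3 := 923417968) (W3 := 42949674) (N0 := 3) (En := eng) (mo := mog) (C1 := cd0q1) (C2 := cd4q1) (C3 := pd2)
    rfl k0_mm_112_s

noncomputable def cut_mm_113_s : Cut := Cut.of [[⟨4, 0, 0, 1449551462⟩]]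

noncomputable def f_mm_113_s : ℕ → ℕ → ℕ → ℕ → Bool := onCell 536870912 536870912 536870912 536870912 923417968 42949674
    (rowNE 3 eng mog cd0q1 cd4q1 pd3 0 true false false .nn 1 1 3 (qsf 536870912 536870912 536870912 536870912 3) ndB0q1 ndB4q1 pcB3 cut_mm_113_s Ext.none)

def k0_mm_113_s : ∃ t, chk3 f_mm_113_s t 1 1 1 = true :=
  ⟨(l 4), by decide +kernel⟩

theorem c_mm_113_s : CertNE 536870912 536870912 536870912 536870912 923417968 42949674 3 eng mog cd0q1 cd4q1 pd3 true false false .nn 1 1 3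
    ndB0q1 ndB4q1 pcB3 cut_mm_113_s Ext.none :=
  certNE0 (fam := true) (s1 := false) (s2 := false) (a := 1) (b := 1) (c := 3) (cn := .nn) (n1 := ndB0q1) (n2 := ndB4q1) (pc := pcB3) (cut := cut_mm_113_s) (xt := Ext.none) (P1 := 536870912) (W1 := 536870912) (P2 := 536870912) (W2 := 536870912) (P3 := 923417968) (W3 := 42949674) (N0 := 3) (En := eng) (mo := mog) (C1 := cd0q1) (C2 := cd4q1) (C3 := pd3)
    rfl k0_mm_113_s

noncomputable def cut_mm_123_s : Cut := Cut.of [[⟨4, 0, 0, 1449551462⟩]]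

noncomputable def f_mm_123_s : ℕ → ℕ → ℕ → ℕ → Bool := onCell 536870912 536870912 1073741824 536870912 923417968 42949674
    (rowNE 3 eng mog cd0q1 cd4q2 pd3 0 true false false .npn 1 2 3 (qsf 536870912 536870912 1073741824 536870912 3) ndB0q1 ndB4q2 pcB3 cut_mm_123_s Ext.none)

def k0_mm_123_s : ∃ t, chk3 f_mm_123_s t 1 1 1 = true :=
  ⟨(l 4), by decide +kernel⟩

theorem c_mm_123_s : CertNE 536870912 536870912 1073741824 536870912 923417968 42949674 3 eng mog cd0q1 cd4q2 pd3 true false false .npn 1 2 3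
    ndB0q1 ndB4q2 pcB3 cut_mm_123_s Ext.none :=
  certNE0 (fam := true) (s1 := false) (s2 := false) (a := 1) (b := 2) (c := 3) (cn := .npn) (n1 := ndB0q1) (n2 := ndB4q2) (pc := pcB3) (cut := cut_mm_123_s) (xt := Ext.none) (P1 := 536870912) (W1 := 536870912) (P2 := 1073741824) (W2 := 536870912) (P3 := 923417968) (W3 := 42949674) (N0 := 3) (En := eng) (mo := mog) (C1 := cd0q1) (C2 := cd4q2) (C3 := pd3)
    rfl k0_mm_123_s

noncomputable def cut_mm_133_s : Cut := Cut.of [[⟨4, 0, 0, 1449551462⟩]]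

noncomputable def f_mm_133_s : ℕ → ℕ → ℕ → ℕ → Bool := onCell 536870912 536870912 0 1230186008 923417968 42949674
    (rowNE 3 eng mog cd0q1 cd4q3 pd3 0 true false false .dn 1 3 3 (qsf 536870912 536870912 0 1230186008 3) ndB0q1 ndB4q3 pcB3 cut_mm_133_s Ext.none)

def k0_mm_133_s : ∃ t, chk3 f_mm_133_s t 1 1 1 = true :=
  ⟨(l 4), by decide +kernel⟩

theorem c_mm_133_s : CertNE 536870912 536870912 0 1230186008 923417968 42949674 3 eng mog cd0q1 cd4q3 pd3 true false false .dn 1 3 3
    ndB0q1 ndB4q3 pcB3 cut_mm_133_s Ext.none :=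
  certNE0 (fam := true) (s1 := false) (s2 := false) (a := 1) (b := 3) (c := 3) (cn := .dn) (n1 := ndB0q1) (n2 := ndB4q3) (pc := pcB3) (cut := cut_mm_133_s) (xt := Ext.none) (P1 := 536870912) (W1 := 536870912) (P2 := 0) (W2 := 1230186008) (P3 := 923417968) (W3 := 42949674) (N0 := 3) (En := eng) (mo := mog) (C1 := cd0q1) (C2 := cd4q3) (C3 := pd3)
    rfl k0_mm_133_s

noncomputable def cut_mm_202_s : Cut := Cut.of [[⟨4, 0, 0, 1449551462⟩]]

noncomputable def f_mm_202_s : ℕ → ℕ → ℕ → ℕ → Bool := onCell 0 536870912 0 536870912 923417968 42949674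
    (rowNE 3 eng mog cd0q2 cd4q0 pd2 0 true false false .pp 2 0 2 (qsf 0 536870912 0 536870912 2) ndB0q2 ndB4q0 pcB2 cut_mm_202_s Ext.none)

def k0_mm_202_s : ∃ t, chk3 f_mm_202_s t 1 1 1 = true :=
  ⟨(l 4), by decide +kernel⟩

theorem c_mm_202_s : CertNE 0 536870912 0 536870912 923417968 42949674 3 eng mog cd0q2 cd4q0 pd2 true false false .pp 2 0 2
    ndB0q2 ndB4q0 pcB2 cut_mm_202_s Ext.none :=
  certNE0 (fam := true) (s1 := false) (s2 := false) (a := 2) (b := 0) (c := 2) (cn := .pp) (n1 := ndB0q2) (n2 := ndB4q0) (pc := pcB2) (cut := cut_mm_202_s) (xt := Ext.none) (P1 := 0) (W1 := 536870912) (P2 := 0) (W2 := 536870912) (P3 := 923417968) (W3 := 42949674) (N0 := 3) (En := eng) (mo := mog) (C1 := cd0q2) (C2 := cd4q0) (C3 := pd2)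
    rfl k0_mm_202_s

noncomputable def cut_mm_203_s : Cut := Cut.of [[⟨4, 0, 0, 1449551462⟩]]

noncomputable def f_mm_203_s : ℕ → ℕ → ℕ → ℕ → Bool := onCell 0 536870912 0 536870912 923417968 42949674
    (rowNE 3 eng mog cd0q2 cd4q0 pd3 0 true false false .up 2 0 3 (qsf 0 536870912 0 536870912 3) ndB0q2 ndB4q0 pcB3 cut_mm_203_s Ext.none)

def k0_mm_203_s : ∃ t, chk3 f_mm_203_s t 1 1 1 = true :=
  ⟨(l 4), by decide +kernel⟩

theorem c_mm_203_s : CertNE 0 536870912 0 536870912 923417968 42949674 3 eng mog cd0q2 cd4q0 pd3 true false false .up 2 0 3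
    ndB0q2 ndB4q0 pcB3 cut_mm_203_s Ext.none :=
  certNE0 (fam := true) (s1 := false) (s2 := false) (a := 2) (b := 0) (c := 3) (cn := .up) (n1 := ndB0q2) (n2 := ndB4q0) (pc := pcB3) (cut := cut_mm_203_s) (xt := Ext.none) (P1 := 0) (W1 := 536870912) (P2 := 0) (W2 := 536870912) (P3 := 923417968) (W3 := 42949674) (N0 := 3) (En := eng) (mo := mog) (C1 := cd0q2) (C2 := cd4q0) (C3 := pd3)
    rfl k0_mm_203_s

noncomputable def cut_mm_213_s : Cut := Cut.of [[⟨4, 0, 0, 1449551462⟩]]

noncomputable def f_mm_213_s : ℕ → ℕ → ℕ → ℕ → Bool := onCell 0 536870912 536870912 536870912 923417968 42949674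
    (rowNE 3 eng mog cd0q2 cd4q1 pd3 0 true false false .pnn 2 1 3 (qsf 0 536870912 536870912 536870912 3) ndB0q2 ndB4q1 pcB3 cut_mm_213_s Ext.none)

def k0_mm_213_s : ∃ t, chk3 f_mm_213_s t 1 1 1 = true :=
  ⟨(l 4), by decide +kernel⟩

theorem c_mm_213_s : CertNE 0 536870912 536870912 536870912 923417968 42949674 3 eng mog cd0q2 cd4q1 pd3 true false false .pnn 2 1 3
    ndB0q2 ndB4q1 pcB3 cut_mm_213_s Ext.none :=
  certNE0 (fam := true) (s1 := false) (s2 := false) (a := 2) (b := 1) (c := 3) (cn := .pnn) (n1 := ndB0q2) (n2 := ndB4q1) (pc := pcB3) (cut := cut_mm_213_s) (xt := Ext.none) (P1 := 0) (W1 := 536870912) (P2 := 536870912) (W2 := 536870912) (P3 := 923417968) (W3 := 42949674) (N0 := 3) (En := eng) (mo := mog) (C1 := cd0q2) (C2 := cd4q1) (C3 := pd3)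
    rfl k0_mm_213_s

end Pool.Agent.Strip051.G.I8600_9000.Tab.CS.BA04

namespace Pool.Agent.Strip051.G.I8600_9000.Tab.CS.BB00

open Pool.Agent.Strip051.PB Pool.Agent.Strip051.PB.T
open Pool.Agent.Strip051.G.I8600_9000.Tab

noncomputable def cut_pp_001_s : Cut := Cut.of [[⟨4, 0, 0, 1449551462⟩]]

noncomputable def f_pp_001_s : ℕ → ℕ → ℕ → ℕ → Bool := onCell 0 536870912 0 536870912 923417968 42949674
    (rowNE 3 eng mog cd0q0 cd0q1 pd0 1 false true true .up 0 0 1 (qsf 0 536870912 536870912 536870912 0) ndB0q0 ndB0q1 pcB0 cut_pp_001_s Ext.none)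

def k0_pp_001_s : ∃ t, chk3 f_pp_001_s t 1 1 1 = true :=
  ⟨(l 3), by decide +kernel⟩

theorem c_pp_001_s : CertNE 0 536870912 536870912 536870912 923417968 42949674 3 eng mog cd0q0 cd0q1 pd0 false true true .up 0 0 1
    ndB0q0 ndB0q1 pcB0 cut_pp_001_s Ext.none :=
  certNE1 (fam := false) (s1 := true) (s2 := true) (a := 0) (b := 0) (c := 1) (cn := .up) (n1 := ndB0q0) (n2 := ndB0q1) (pc := pcB0) (cut := cut_pp_001_s) (xt := Ext.none) (P1 := 0) (W1 := 536870912) (P2 := 536870912) (W2 := 536870912) (P3 := 923417968) (W3 := 42949674) (N0 := 3) (En := eng) (mo := mog) (C1 := cd0q0) (C2 := cd0q1) (C3 := pd0)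
    rfl (fun _ => rfl) k0_pp_001_s

noncomputable def cut_pp_001_t : Cut := Cut.of [[⟨3, 0, 0, 2845415833⟩]]

noncomputable def f_pp_001_t : ℕ → ℕ → ℕ → ℕ → Bool := onCell 0 536870912 536870912 536870912 923417968 42949674
    (rowNE 3 eng mog cd0q0 cd0q1 pd0 0 false true true .up 0 0 1 (qsf 0 536870912 536870912 536870912 0) ndB0q0 ndB0q1 pcB0 cut_pp_001_t Ext.none)

def k0_pp_001_t : ∃ t, chk3 f_pp_001_t t 1 1 1 = true :=
  ⟨(l 6), by decide +kernel⟩

theorem c_pp_001_t : CertNE 0 536870912 536870912 536870912 923417968 42949674 3 eng mog cd0q0 cd0q1 pd0 false true true .up 0 0 1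
    ndB0q0 ndB0q1 pcB0 cut_pp_001_t Ext.none :=
  certNE0 (fam := false) (s1 := true) (s2 := true) (a := 0) (b := 0) (c := 1) (cn := .up) (n1 := ndB0q0) (n2 := ndB0q1) (pc := pcB0) (cut := cut_pp_001_t) (xt := Ext.none) (P1 := 0) (W1 := 536870912) (P2 := 536870912) (W2 := 536870912) (P3 := 923417968) (W3 := 42949674) (N0 := 3) (En := eng) (mo := mog) (C1 := cd0q0) (C2 := cd0q1) (C3 := pd0)
    rfl k0_pp_001_t

noncomputable def cut_pp_011_s : Cut := Cut.of [[⟨4, 0, 0, 1449551462⟩], [⟨0, 0, 0, 67108864⟩, ⟨1, 1, 0, 67108864⟩, ⟨2, 1, 0, 67108864⟩]]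

noncomputable def f_pp_011_s : ℕ → ℕ → ℕ → ℕ → Bool := onCell 536870912 536870912 536870912 536870912 923417968 42949674
    (rowNE 3 eng mog cd0q0 cd0q1 pd1 2 false true true .pnn 0 1 1 (qsf 0 536870912 536870912 536870912 1) ndB0q0 ndB0q1 pcB1 cut_pp_011_s Ext.none)

def k0_pp_011_s : ∃ t, chk3 f_pp_011_s t 1 1 1 = true :=
  ⟨(a (l 3) (b (l 3) (a (l 3) (b (l 3) (a (l 3) (b (l 3) (b (l 3) (a (l 3) (l 14))))))))), by decide +kernel⟩

theorem c_pp_011_s : CertNE 0 536870912 536870912 536870912 923417968 42949674 3 eng mog cd0q0 cd0q1 pd1 false true true .pnn 0 1 1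
    ndB0q0 ndB0q1 pcB1 cut_pp_011_s Ext.none :=
  certNE2 (fam := false) (s1 := true) (s2 := true) (a := 0) (b := 1) (c := 1) (cn := .pnn) (n1 := ndB0q0) (n2 := ndB0q1) (pc := pcB1) (cut := cut_pp_011_s) (xt := Ext.none) (P1 := 0) (W1 := 536870912) (P2 := 536870912) (W2 := 536870912) (P3 := 923417968) (W3 := 42949674) (N0 := 3) (En := eng) (mo := mog) (C1 := cd0q0) (C2 := cd0q1) (C3 := pd1)
    rfl (fun _ => rfl) k0_pp_011_s

noncomputable def cut_pp_011_t : Cut := Cut.of [[⟨3, 0, 0, 2845415833⟩], [⟨0, 0, 0, 67108864⟩, ⟨1, 1, 0, 67108864⟩, ⟨2, 1, 0, 67108864⟩]]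

noncomputable def f_pp_011_t : ℕ → ℕ → ℕ → ℕ → Bool := onCell 0 536870912 536870912 536870912 923417968 42949674
    (rowNE 3 eng mog cd0q0 cd0q1 pd1 0 false true true .pnn 0 1 1 (qsf 0 536870912 536870912 536870912 1) ndB0q0 ndB0q1 pcB1 cut_pp_011_t Ext.none)

def k0_pp_011_t : ∃ t, chk3 f_pp_011_t t 1 1 1 = true :=
  ⟨(l 6), by decide +kernel⟩

theorem c_pp_011_t : CertNE 0 536870912 536870912 536870912 923417968 42949674 3 eng mog cd0q0 cd0q1 pd1 false true true .pnn 0 1 1
    ndB0q0 ndB0q1 pcB1 cut_pp_011_t Ext.none :=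
  certNE0 (fam := false) (s1 := true) (s2 := true) (a := 0) (b := 1) (c := 1) (cn := .pnn) (n1 := ndB0q0) (n2 := ndB0q1) (pc := pcB1) (cut := cut_pp_011_t) (xt := Ext.none) (P1 := 0) (W1 := 536870912) (P2 := 536870912) (W2 := 536870912) (P3 := 923417968) (W3 := 42949674) (N0 := 3) (En := eng) (mo := mog) (C1 := cd0q0) (C2 := cd0q1) (C3 := pd1)
    rfl k0_pp_011_t

noncomputable def cut_pp_012_s : Cut := Cut.of [[⟨4, 0, 0, 1449551462⟩], [⟨0, 0, 0, 67108864⟩, ⟨1, 1, 0, 67108864⟩, ⟨2, 1, 0, 67108864⟩]]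

noncomputable def f_pp_012_s : ℕ → ℕ → ℕ → ℕ → Bool := onCell 536870912 536870912 0 536870912 923417968 42949674
    (rowNE 3 eng mog cd0q0 cd0q2 pd1 2 false true true .pnp 0 1 2 (qsf 0 536870912 0 536870912 1) ndB0q0 ndB0q2 pcB1 cut_pp_012_s Ext.none)

def k0_pp_012_s : ∃ t, chk3 f_pp_012_s t 2 4 1 = true :=
  ⟨(a (l 2) (a (a (a (l 2) (b (a (l 2) (b (c (l 16633512) (l 16654416)) (b (l 16652736) (l 16723640)))) (b (a (l 2) (b (l 87610549447) (l 123647982471))) (l 3)))) (a (b (b (c (b (l 16593016) (l 16628200)) (l 16613864)) (c (c (l 16594232) (l 16642616)) (l 16611200))) (a (b (b (l 16745888) (l 115058048055)) (l 3)) (b (c (l 16721944) (l 16747808)) (l 196125609047)))) (b (c (b (l 16582880) (b (l 16632976) (l 16666624))) (b (l 16611136) (l 16626176))) (b (c (a (l 16725912) (l 16667312)) (b (l 16690408) (l 16740488))) (b (a (l 112910564983) (l 16760416)) (a (l 3) (l 119889878999))))))) (b (a (a (c (b (l 16558688) (l 16537912)) (b (l 16590696) (l 16623280))) (b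 (c (l 16538160) (l 16573672)) (a (l 16531504) (l 16521088)))) (c (a (b (l 16521424) (l 16576520)) (b (l 16509096) (l 16560120))) (a (b (l 16560240) (l 16606504)) (b (l 16551144) (l 16593656))))) (a (a (b (c (c (l 16619896) (l 16646976)) (l 16635992)) (a (b (l 16744864) (l 112910569207)) (b (l 16729688) (l 16759256)))) (b (c (b (l 16642360) (l 16672728)) (l 16633000)) (c (a (l 16726272) (l 16669280)) (b (l 16692968) (l 16740128))))) (c (a (b (l 16570008) (c (l 16624384) (l 16651336))) (b (l 16612608) (b (l 16652568) (l 16679408)))) (b (a (l 16633304) (l 16637840)) (a (a (l 16687832) (l 16676680)) (l 16641120)))))))), by decide +kernel⟩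

def k1_pp_012_s : ∃ t, chk3 f_pp_012_s t 2 5 1 = true :=
  ⟨(a (l 3) (a (l 3) (b (a (b (a (c (l 204715532823) (l 207399885447)) (b (a (l 111299958295) (l 16757928)) (a (l 3) (l 117205520327)))) (l 3)) (b (a (c (b (l 16733608) (a (l 16768760) (l 16754912))) (b (l 16740040) (l 67276525095))) (c (a (l 16726624) (l 16671720)) (b (l 16696152) (l 16740152)))) (a (a (l 212231712631) (c (l 171966427015) (l 181093229959))) (b (a (l 73182127815) (l 16755168)) (a (l 134385374967) (b (l 16772760) (l 16767304))))))) (l 3)))), by decide +kernel⟩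

def k2_pp_012_s : ∃ t, chk3 f_pp_012_s t 2 3 1 = true :=
  ⟨(l 3), by decide +kernel⟩

def k3_pp_012_s : ∃ t, chk3 f_pp_012_s t 6 4 1 = true :=
  ⟨(a (a (b (c (a (b (l 16500952) (l 16547960)) (b (l 16495656) (l 16538776))) (a (l 16502776) (l 16519520))) (b (a (a (l 16550904) (l 16544504)) (c (l 16583456) (l 16615912))) (a (a (l 16576528) (l 16589192)) (a (l 16581664) (l 16574880))))) (a (b (b (l 16412680) (l 16427400)) (c (b (l 16573360) (l 16615264)) (b (l 16609000) (l 16643544)))) (b (b (l 16413776) (l 16445960)) (c (b (l 16566080) (l 16604360)) (b (l 16604616) (l 16635848)))))) (a (a (b (c (l 16511872) (l 16521224)) (b (l 16476632) (a (l 16572424) (l 16569760)))) (b (c (l 16515376) (l 16526568)) (c (b (l 16559720) (l 16590944)) (l 16605520)))) (a (b (c (l 16521616) (l 16576240)) (c (l 16511800) (l 16617336))) (b (l 6) (c (l 16513584) (l 16620960)))))), by decide +kernel⟩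

def k4_pp_012_s : ∃ t, chk3 f_pp_012_s t 6 5 1 = true :=
  ⟨(a (b (a (a (b (c (c (l 16650880) (l 16656960)) (l 16708824)) (c (b (l 16733232) (l 22179413895)) (b (l 16740160) (l 16761128)))) (b (c (l 16606848) (l 16650072)) (c (a (l 16727088) (l 16673616)) (b (l 16699568) (l 16739920))))) (a (b (c (l 16615456) (l 16657176)) (c (b (l 16688960) (l 16689400)) (l 16712880))) (c (b (l 16642808) (l 16618560)) (b (l 16646072) (l 16656344))))) (b (b (a (a (a (l 114521152071) (b (l 16770664) (l 16749920))) (c (l 16756328) (l 16759664))) (a (c (l 16732200) (l 16739616)) (c (l 16690184) (l 16701488)))) (a (a (l 3) (a (l 109689316615) (b (l 16768368) (l 16774960)))) (a (c (l 16754392) (l 16758104)) (c (l 16731584) (l 16739280))))) (a (l 3) (a (a (c (l 196125612503) (l 199883704391)) (b (b (l 16765904) (l 16775168)) (l 214916116615))) (b (c (l 16752384) (l 16756520)) (a (c (l 97341302855) (l 103246887495)) (b (l 16763432) (l 16772648)))))))) (b (a (c (a (b (l 16631104) (l 16645160))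 (b (l 16622232) (l 16653688))) (a (b (l 16637624) (l 16665480)) (b (l 16631768) (l 16656288)))) (c (a (b (l 16616008) (l 16643872)) (b (l 16612224) (l 16636448))) (a (l 16623288) (l 16656800)))) (a (b (a (c (a (l 16686024) (l 16677328)) (l 16715760)) (c (l 16644712) (l 16703328))) (a (c (b (l 16689016) (l 16750424)) (b (l 16738968) (l 16755000))) (c (a (l 16684136) (l 16675264)) (b (l 16703224) (l 16738712))))) (b (a (c (l 16652288) (l 16693072)) (c (l 16641504) (l 16685096))) (a (c (a (l 16687920) (l 16680224)) (l 16718280)) (c (l 16648992) (l 16707296))))))), by decide +kernel⟩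

def k5_pp_012_s : ∃ t, chk3 f_pp_012_s t 6 3 1 = true :=
  ⟨(b (a (b (a (l 3) (a (l 3) (a (l 3) (b (c (l 198809950647) (l 196125588631)) (l 3))))) (l 3)) (b (b (b (a (a (a (c (l 60834202471) (l 94120091767)) (c (l 16764464) (l 16766640))) (c (l 16759088) (l 16753600))) (a (c (l 16687760) (l 16738240)) (c (l 16692560) (l 16725304)))) (a (a (a (l 3) (b (l 76940332743) (l 3))) (a (a (l 98951942503) (l 16749280)) (a (l 16765440) (l 16760648)))) (a (c (a (l 16751552) (l 16721072)) (l 16752168)) (c (l 16697752) (l 16737992))))) (a (a (l 3) (b (a (l 195588736951) (c (b (l 16774832) (l 125795585031)) (l 132237931527))) (l 3))) (c (a (b (a (l 79624602455) (l 16759032)) (a (l 198273106887) (a (l 72645362471) (l 16783688)))) (b (a (l 16749648) (l 16720064)) (a (l 16766040) (l 16756792)))) (a (b (a (l 16770456) (l 16762264)) (a (l 196662487927) (b (l 16772696) (l 75866589623)))) (b (l 16751064) (a (l 16768072) (l 16760568))))))) (a (l 3) (b (a (l 3) (a (b (b (c (l 64055426903)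 (l 63518557255)) (l 3)) (l 3)) (b (c (b (l 16768520) (a (l 16774432) (l 16773880))) (l 88751386455)) (b (l 223506053095) (l 3))))) (l 3))))) (l 3)), by decide +kernel⟩

def k6_pp_012_s : ∃ t, chk3 f_pp_012_s t 7 2 1 = true :=
  ⟨(a (b (b (l 6) (a (a (c (l 16581360) (l 16627288)) (c (l 16590168) (l 16635072))) (a (c (l 16603736) (l 16613000)) (l 6)))) (b (c (a (a (l 16622152) (l 16623520)) (a (l 16629488) (l 16639936))) (a (a (l 16656488) (l 16659592)) (a (l 16646872) (l 16602336)))) (a (b (a (l 16604064) (l 16622296)) (a (c (l 16659272) (l 16699328)) (c (l 16673272) (l 16694752)))) (a (b (l 16644688) (l 16608528)) (b (l 16663592) (l 16659112)))))) (b (l 6) (a (b (a (c (l 16620560) (l 16564776)) (c (l 16548264) (l 16501784))) (a (b (l 16638992) (l 16656640)) (b (l 16610032) (l 16607968)))) (b (a (b (l 6) (l 16490352)) (l 6)) (a (b (l 16512936) (a (l 16604704) (l 16586304))) (b (c (l 16545512) (l 16522464)) (c (l 16564592) (l 16544296)))))))), by decide +kernel⟩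

def k7_pp_012_s : ∃ t, chk3 f_pp_012_s t 28 6 1 = true :=
  ⟨(a (b (b (b (c (l 16679704) (l 16715368)) (c (l 16694000) (l 16726808))) (b (c (l 16750608) (l 16738664)) (c (a (l 16748328) (l 16740696)) (a (l 16753768) (l 16747728))))) (b (c (b (a (l 16763336) (l 16755032)) (a (b (a (l 16776632) (l 16772216)) (l 198809992215)) (a (l 16779264) (l 16767152)))) (b (a (l 16765968) (l 16759328)) (a (b (l 16775000) (b (l 93583326935) (l 3))) (l 90362039191)))) (a (l 3) (b (a (l 247128380551) (c (l 194515028295) (l 202568085783))) (l 3))))) (b (b (c (l 16718904) (l 16713864)) (a (b (l 16683728) (c (l 16733944) (l 16742496))) (c (l 16742664) (l 16732976)))) (c (b (b (a (l 16747584) (l 16741048)) (a (l 16761128) (l 16753888))) (b (a (b (l 16771176) (a (l 109152580887) (l 16775728))) (b (l 16763408) (l 16769736))) (a (l 266455708903) (b (a (l 80161539383) (l 16774056)) (l 229948507159))))) (b (b (a (l 16753472) (l 16748448)) (a (l 16764360) (l 16758472))) (b (a (b (l 16772408)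 (c (l 69960996055) (l 66202890615))) (l 16768288)) (a (l 263234462679) (a (l 213842373335) (b (l 16774360) (l 108078842119))))))))), by decide +kernel⟩

def k8_pp_012_s : ∃ t, chk3 f_pp_012_s t 29 6 1 = true :=
  ⟨(c (b (b (a (l 16692056) (l 16689872)) (a (a (l 16717200) (l 16713768)) (b (l 16704856) (l 16715208)))) (a (b (a (b (l 16735464) (l 16747584)) (b (l 16730912) (l 16742296))) (a (b (l 16760248) (b (l 16768464) (a (b (l 16774760) (l 16776520)) (l 16772528)))) (b (l 16753568) (b (l 16761896) (l 16767416))))) (b (b (l 16725504) (a (l 16737808) (l 16730608))) (b (a (l 16748240) (l 16739976)) (a (b (l 16755440) (l 16760504)) (b (l 16747368) (l 16752408))))))) (b (a (b (l 16708872) (b (l 16720312) (l 16728312))) (b (l 16688584) (b (l 16700704) (l 16709152)))) (a (b (a (b (l 16741384) (l 16750656)) (b (l 16732576) (l 16742064))) (a (b (l 16760688) (a (b (l 16770672) (l 16776136)) (l 16769568))) (b (l 16752312) (b (l 16760536) (l 16766280))))) (b (b (l 16718288)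 (a (l 16732864) (l 16723288))) (b (a (l 16743344) (l 16734096)) (a (b (l 16751744) (l 16757640)) (c (l 16746656) (l 16723352)))))))), by decide +kernel⟩

def k9_pp_012_s : ∃ t, chk3 f_pp_012_s t 15 6 1 = true :=
  ⟨(b (a (a (b (c (l 16679848) (l 16665608)) (b (l 16643056) (a (l 16698880) (l 16687728)))) (b (c (l 16654232) (l 16596840)) (b (a (l 16666416) (l 16631216)) (a (l 16675184) (l 16640088))))) (a (b (b (l 16567720) (l 16555440)) (a (b (l 16636064) (l 16644808)) (b (l 16617656) (l 16626336)))) (b (a (l 16584120) (l 16561064)) (a (b (l 16596912) (l 16605544)) (b (l 16573752) (l 16582344)))))) (a (a (b (a (b (l 16707768) (c (l 16721336) (l 16692184))) (c (l 16706240) (b (l 16691536) (l 16701864)))) (a (b (c (l 16730832) (l 16703048)) (c (l 16730336) (l 16714472))) (b (c (l 16720472) (l 16691776)) (c (l 16730368) (l 16703008))))) (b (b (a (l 16663536) (l 16649288)) (a (l 16662712) (b (l 16656472) (l 16661392)))) (b (a (a (l 16686568) (l 16679880)) (c (l 16673576)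 (l 16685072))) (a (c (l 16697384) (l 16690024)) (c (l 16683632) (l 16675312)))))) (a (b (a (b (l 16632992) (c (l 16669072) (l 16657736))) (b (l 16635472) (a (l 16649936) (l 16640136)))) (c (b (a (l 16678688) (l 16660712)) (a (l 16667928) (a (l 16675768) (l 16666336)))) (a (b (l 16668416) (a (l 16684040) (l 16675256))) (b (l 16649640) (a (l 16665936) (l 16656056)))))) (b (a (b (l 16614672) (c (l 16630656) (l 16617728))) (b (l 16591464) (c (l 16608048) (l 16594024)))) (b (a (c (l 16640528) (l 16628536)) (c (l 16618072) (l 16604912))) (a (c (b (l 16648440) (l 16653960)) (b (l 16637152) (l 16643160))) (c (a (l 16634712) (l 16602048)) (b (l 16613648) (l 16619760))))))))), by decide +kernel⟩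

def k10_pp_012_s : ∃ t, chk3 f_pp_012_s t 14 7 1 = true :=
  ⟨(b (a (l 3) (b (a (b (a (b (a (l 3) (b (c (l 16776824) (l 16776680)) (c (l 242833419223) (l 123648094615)))) (l 3)) (c (b (a (l 16774648) (l 16771200)) (a (l 217063616679) (b (l 16775168) (l 83382763191)))) (b (a (l 16774280) (l 16770152)) (a (l 236390959175) (b (l 16774792) (l 16782272)))))) (l 3)) (b (c (a (b (l 16765672) (a (l 16772840) (l 16769032))) (b (l 16757640) (l 16760904))) (a (b (l 16763688) (l 16764592)) (b (l 16754496) (l 16760576)))) (b (a (a (a (b (l 87140869175) (l 3)) (b (l 16775888) (l 123648092439))) (c (b (l 16773120) (l 16775912)) (l 16779240))) (c (a (l 16770464) (l 16766168)) (l 16764320))) (a (a (l 3) (a (l 3) (c (l 182703885399) (l 234780355639)))) (a (b (c (l 16774872) (l 16774480)) (a (l 123648092631) (a (l 16777224) (l 16776280)))) (c (l 16772136) (l 16771344))))))) (a (l 3) (b (a (l 3) (b (a (l 3) (b (a (c (l 89825222151) (l 16777008)) (l 16775632)) (c (l 203104980935)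 (l 231022264567)))) (l 3))) (l 3))))) (l 3)), by decide +kernel⟩

def k11_pp_012_s : ∃ t, chk3 f_pp_012_s t 30 28 1 = true :=
  ⟨(c (a (b (a (b (l 16748504) (l 16753736)) (a (l 16743360) (l 16737800))) (a (b (a (l 16761608) (l 16756768)) (a (l 16767600) (l 16762792))) (b (a (l 16730640) (l 16725152)) (a (l 16757680) (l 16731280))))) (b (a (b (l 16705184) (l 16710544)) (c (l 16695864) (l 16692512))) (a (a (b (l 16740264) (l 16725488)) (c (l 16717248) (l 16714936))) (b (a (l 16727352) (l 16720232)) (c (l 16710560) (l 16708008)))))) (a (b (a (a (l 16749840) (l 16723440)) (b (l 16711768) (l 16717768))) (a (b (l 16753960) (a (l 16766160) (l 16739744))) (a (b (l 16748072) (l 16734016)) (c (l 16725384) (l 16723416))))) (b (a (a (l 16705104) (l 16698232)) (b (l 16705136) (l 16690272))) (a (b (l 16711232) (c (l 16719344) (l 16717112))) (b (a (l 16721512) (l 16713856)) (a (l 16728616) (l 16721032))))))), by decide +kernel⟩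

def k12_pp_012_s : ∃ t, chk3 f_pp_012_s t 60 29 1 = true :=
  ⟨(b (a (b (a (c (b (l 16772384) (c (l 16775648) (l 16775520))) (b (l 16771664) (l 16775312))) (c (l 16769264) (l 16768120))) (b (a (a (l 3) (c (l 84993384087) (l 16780144))) (c (l 16774344) (l 16773928))) (a (l 3) (a (c (l 122574349159) (l 113447544359)) (a (l 59223576967) (l 16775920)))))) (c (b (a (l 16764224) (l 16748376)) (a (l 16771152) (l 16765888))) (b (a (l 16762424) (l 16735448)) (a (l 16770304) (l 16764368))))) (a (l 3) (b (a (a (b (b (l 16779352) (l 124721831927)) (l 3)) (b (c (l 16775256) (l 16774976)) (c (l 190756948007) (l 105394480887)))) (a (b (l 16772400) (c (c (l 16776304) (l 16776232)) (l 16776120))) (c (l 16771904) (l 16771184)))) (a (l 3) (b (a (b (l 172503343367) (l 3)) (c (b (l 16776528) (l 117742508519)) (c (l 69424126839) (l 71034739527)))) (l 3)))))), by decide +kernel⟩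

def k13_pp_012_s : ∃ t, chk3 f_pp_012_s t 61 29 1 = true :=
  ⟨(a (b (c (b (a (l 16732192) (l 16736608)) (a (c (l 16739832) (l 16738792)) (l 16743848))) (b (a (l 16729112) (l 16743384)) (a (l 16747616) (l 16741000)))) (b (c (a (c (l 16768056) (l 16767464)) (c (l 16751904) (l 16750992))) (a (l 16765216) (c (l 16739544) (l 16738528)))) (b (a (c (a (l 16774896) (l 16772152)) (l 16773040)) (c (l 16767840) (l 16756160))) (a (a (b (c (l 82845898791) (l 16777440)) (l 3)) (c (b (l 16775104) (l 16779496)) (l 16778384))) (c (l 16771840) (l 16771144)))))) (b (b (c (a (l 16719656) (l 16733728)) (c (l 16712840) (l 16710408))) (c (a (b (l 16746120) (l 16749904)) (l 16730736)) (a (l 16734016) (l 16716144)))) (c (b (a (c (l 16745864) (l 16744632)) (b (l 16747112) (l 16740664))) (b (a (l 16751272) (a (l 16756928) (l 16753568))) (a (c (l 16755688) (l 16755024)) (c (l 16749440) (l 16758944))))) (c (b (a (l 16732840) (l 16746720)) (a (l 16752080) (c (l 16745440) (l 16734360)))) (b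 (a (l 16731472) (l 16745024)) (a (l 16751216) (l 16743936))))))), by decide +kernel⟩

def k14_pp_012_s : ∃ t, chk3 f_pp_012_s t 62 14 1 = true :=
  ⟨(b (b (b (a (c (l 16697016) (l 16688680)) (c (l 16679440) (l 16670184))) (a (a (l 16682048) (l 16694600)) (c (l 16685240) (l 16676544)))) (a (c (b (a (l 16712640) (l 16704544)) (a (l 16719216) (l 16711232))) (b (a (l 16705760) (l 16697176)) (a (l 16713016) (l 16704528)))) (c (b (a (l 16695944) (l 16686824)) (a (l 16702752) (l 16693744))) (b (a (l 16688088) (l 16678448)) (a (l 16695536) (l 16686000)))))) (a (a (b (c (b (l 16726352) (l 16723504)) (b (l 16720896) (l 16729320))) (b (c (b (l 16740000) (l 16744120)) (b (l 16735960) (l 16740512))) (c (c (c (l 16740992) (l 16740312)) (b (l 16747560) (l 16751952))) (c (b (l 16745984) (l 16750600)) (l 16736256))))) (b (c (b (l 16718504) (b (l 16724296) (l 16728304))) (b (l 16712512) (l 16721064))) (a (b (c (l 16736432) (l 16732176)) (c (l 16734504) (l 16741592))) (b (c (l 16732552)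 (l 16728000)) (c (l 16741208) (l 16737488)))))) (a (b (c (b (l 16710144) (l 16718088)) (b (l 16703632) (l 16712312))) (b (c (c (l 16727672) (l 16725288)) (c (l 16722784) (l 16720168))) (c (b (l 16733072) (l 16737568)) (b (l 16728664) (l 16733552))))) (b (c (b (l 16701288) (l 16709392)) (b (l 16694208) (l 16703016))) (b (c (a (l 16720168) (l 16715792)) (c (l 16713792) (l 16710840))) (l 14)))))), by decide +kernel⟩

def k15_pp_012_s : ∃ t, chk3 f_pp_012_s t 63 14 1 = true :=
  ⟨(b (a (a (b (c (l 16667712) (l 16657952)) (c (b (l 16677152) (l 16684208)) (b (l 16668232) (l 16675880)))) (c (b (l 16657336) (c (l 16667400) (l 16668200))) (b (l 16647000) (b (l 16657400) (l 16644184))))) (b (a (c (l 16643776) (l 16635400)) (b (l 16623384) (a (l 16625000) (l 16618920)))) (c (a (b (l 16656184) (l 16653032)) (b (l 16644864) (l 16641856))) (a (b (l 16645920) (l 16632792)) (b (l 16633760) (l 16631208)))))) (a (b (c (a (b (l 16691904) (l 16700184)) (b (l 16671504) (l 16690448)))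 (a (b (l 16684208) (l 16693136)) (b (l 16673584) (l 16682640)))) (b (a (a (b (l 16705936) (l 14)) (l 14)) (l 14)) (l 14))) (a (b (b (c (l 16661048) (l 16651824)) (l 14)) (l 14)) (l 14)))), by decide +kernel⟩

def k16_pp_012_s : ∃ t, chk3 f_pp_012_s t 15 15 1 = true :=
  ⟨(a (b (a (l 3) (b (a (b (a (a (l 3) (a (l 3) (b (l 240685940743) (l 3)))) (a (b (a (b (l 16776840) (l 3)) (b (l 16775480) (l 74255963287))) (l 3)) (b (c (l 16774424) (l 16774072)) (b (a (l 110763185751) (l 16776656)) (l 255718326455))))) (l 3)) (b (a (a (b (c (l 16771496) (l 16770776)) (b (l 16774440) (c (c (l 16779168) (l 16776496)) (l 16779040)))) (c (b (l 16757960) (l 16772648)) (b (l 16746400) (l 16772080)))) (c (a (b (l 16754808) (l 16769552)) (b (l 16762032) (l 16755864))) (b (c (l 16752016) (l 16740704)) (c (l 16756664) (l 16756096))))) (b (a (a (b (c (l 198273139031) (a (l 3) (l 16778952))) (l 3)) (c (b (l 16775768) (a (l 163913405527) (l 16779624))) (b (l 16775576) (b (l 16779704) (l 108078831975)))))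 (c (a (l 16773840) (l 16770704)) (c (l 16770528) (l 16761040)))) (a (l 3) (a (a (b (c (l 84993380983) (l 16779416)) (l 3)) (c (b (l 16776256) (l 123648086999)) (b (l 16776136) (l 113984411031)))) (a (b (l 16774616) (a (l 60297317015) (l 16776456))) (b (l 16772952) (l 16775272)))))))) (a (l 3) (a (l 3) (a (l 3) (a (l 3) (l 14))))))) (l 3)) (b (a (b (a (a (a (c (b (c (l 16753424) (l 16749920)) (b (l 16762216) (l 16771888))) (b (c (l 16748992) (l 16748016)) (b (l 16755832) (l 16771248)))) (b (c (c (l 16747440) (l 16746392)) (c (l 16745296) (l 16744144))) (b (c (l 16758864) (l 16752112)) (l 14)))) (b (a (c (c (l 16746584) (l 16742752)) (b (l 16748864) (l 16753792))) (b (a (l 16747384) (l 16745416)) (l 14))) (l 14))) (l 14)) (l 14)) (l 14)) (l 14))), by decide +kernel⟩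

theorem s17_pp_012_s : ∃ t, chk3 f_pp_012_s t 31 14 1 = true := ex3_a k14_pp_012_s k15_pp_012_s

theorem s18_pp_012_s : ∃ t, chk3 f_pp_012_s t 30 29 1 = true := ex3_a k12_pp_012_s k13_pp_012_s

theorem s19_pp_012_s : ∃ t, chk3 f_pp_012_s t 30 14 1 = true := ex3_b k11_pp_012_s s18_pp_012_s

theorem s20_pp_012_s : ∃ t, chk3 f_pp_012_s t 15 14 1 = true := ex3_a s19_pp_012_s s17_pp_012_s

theorem s21_pp_012_s : ∃ t, chk3 f_pp_012_s t 15 7 1 = true := ex3_b s20_pp_012_s k16_pp_012_s

theorem s22_pp_012_s : ∃ t, chk3 f_pp_012_s t 7 7 1 = true := ex3_a k10_pp_012_s s21_pp_012_s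

theorem s23_pp_012_s : ∃ t, chk3 f_pp_012_s t 14 6 1 = true := ex3_a k7_pp_012_s k8_pp_012_s

theorem s24_pp_012_s : ∃ t, chk3 f_pp_012_s t 7 6 1 = true := ex3_a s23_pp_012_s k9_pp_012_s

theorem s25_pp_012_s : ∃ t, chk3 f_pp_012_s t 7 3 1 = true := ex3_b s24_pp_012_s s22_pp_012_s

theorem s26_pp_012_s : ∃ t, chk3 f_pp_012_s t 7 1 1 = true := ex3_b k6_pp_012_s s25_pp_012_s

theorem s27_pp_012_s : ∃ t, chk3 f_pp_012_s t 6 2 1 = true := ex3_b k3_pp_012_s k4_pp_012_s

theorem s28_pp_012_s : ∃ t, chk3 f_pp_012_s t 6 1 1 = true := ex3_b s27_pp_012_s k5_pp_012_s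

theorem s29_pp_012_s : ∃ t, chk3 f_pp_012_s t 3 1 1 = true := ex3_a s28_pp_012_s s26_pp_012_s

theorem s30_pp_012_s : ∃ t, chk3 f_pp_012_s t 2 2 1 = true := ex3_b k0_pp_012_s k1_pp_012_s

theorem s31_pp_012_s : ∃ t, chk3 f_pp_012_s t 2 1 1 = true := ex3_b s30_pp_012_s k2_pp_012_s

theorem s32_pp_012_s : ∃ t, chk3 f_pp_012_s t 1 1 1 = true := ex3_a s31_pp_012_s s29_pp_012_s

theorem c_pp_012_s : CertNE 0 536870912 0 536870912 923417968 42949674 3 eng mog cd0q0 cd0q2 pd1 false true true .pnp 0 1 2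
    ndB0q0 ndB0q2 pcB1 cut_pp_012_s Ext.none :=
  certNE2 (fam := false) (s1 := true) (s2 := true) (a := 0) (b := 1) (c := 2) (cn := .pnp) (n1 := ndB0q0) (n2 := ndB0q2) (pc := pcB1) (cut := cut_pp_012_s) (xt := Ext.none) (P1 := 0) (W1 := 536870912) (P2 := 0) (W2 := 536870912) (P3 := 923417968) (W3 := 42949674) (N0 := 3) (En := eng) (mo := mog) (C1 := cd0q0) (C2 := cd0q2) (C3 := pd1)
    rfl (fun _ => rfl) s32_pp_012_s

noncomputable def cut_pp_012_t : Cut := Cut.of [[⟨3, 0, 0, 2845415833⟩], [⟨0, 0, 0, 67108864⟩, ⟨1, 1, 0, 67108864⟩, ⟨2, 1, 0, 67108864⟩]]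

noncomputable def f_pp_012_t : ℕ → ℕ → ℕ → ℕ → Bool := onCell 0 536870912 0 536870912 923417968 42949674
    (rowNE 3 eng mog cd0q0 cd0q2 pd1 0 false true true .pnp 0 1 2 (qsf 0 536870912 0 536870912 1) ndB0q0 ndB0q2 pcB1 cut_pp_012_t Ext.none)

def k0_pp_012_t : ∃ t, chk3 f_pp_012_t t 1 1 1 = true :=
  ⟨(l 6), by decide +kernel⟩

theorem c_pp_012_t : CertNE 0 536870912 0 536870912 923417968 42949674 3 eng mog cd0q0 cd0q2 pd1 false true true .pnp 0 1 2
    ndB0q0 ndB0q2 pcB1 cut_pp_012_t Ext.none :=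
  certNE0 (fam := false) (s1 := true) (s2 := true) (a := 0) (b := 1) (c := 2) (cn := .pnp) (n1 := ndB0q0) (n2 := ndB0q2) (pc := pcB1) (cut := cut_pp_012_t) (xt := Ext.none) (P1 := 0) (W1 := 536870912) (P2 := 0) (W2 := 536870912) (P3 := 923417968) (W3 := 42949674) (N0 := 3) (En := eng) (mo := mog) (C1 := cd0q0) (C2 := cd0q2) (C3 := pd1)
    rfl k0_pp_012_t

noncomputable def cut_pp_022_s : Cut := Cut.of [[⟨4, 0, 0, 1449551462⟩], [⟨0, 0, 0, 67108864⟩, ⟨1, 1, 0, 67108864⟩, ⟨2, 1, 0, 67108864⟩]]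

noncomputable def f_pp_022_s : ℕ → ℕ → ℕ → ℕ → Bool := onCell 1073741824 536870912 0 536870912 923417968 42949674
    (rowNE 3 eng mog cd0q0 cd0q2 pd2 2 false true true .pp 0 2 2 (qsf 0 536870912 0 536870912 2) ndB0q0 ndB0q2 pcB2 cut_pp_022_s Ext.none)

def k0_pp_022_s : ∃ t, chk3 f_pp_022_s t 4 2 1 = true :=
  ⟨(a (b (l 6) (a (b (l 6) (b (l 6) (a (c (c (l 16510664) (l 16515392)) (l 16502080)) (a (l 16579928) (l 16527816))))) (l 6))) (l 6)), by decide +kernel⟩

def k1_pp_022_s : ∃ t, chk3 f_pp_022_s t 8 6 2 = true :=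
  ⟨(b (a (a (a (b (l 16505144) (b (l 16537080) (l 16510112))) (b (l 16555344) (l 16546720))) (b (l 16575424) (l 16532296))) (a (a (b (l 16567184) (l 16587760)) (b (l 16533072) (l 16549856))) (b (l 16439344) (a (l 16511680) (l 16473344))))) (a (a (b (a (b (c (l 16524816) (l 16525560)) (c (l 16498120) (l 16519432))) (b (l 16561784) (l 16557856))) (b (a (c (a (l 16503360) (l 16523064)) (l 16492240)) (l 16553736)) (a (b (b (a (l 16498640) (l 16519800)) (a (a (c (l 16492432) (l 16490672)) (l 16502312)) (l 16518328))) (a (a (b (b (b (c (a (l 16488776) (l 16493952)) (l 16489552)) (c (l 16492568) (l 16490744))) (c (l 16496128) (l 16494352))) (c (l 16503248) (l 16501560))) (b (b (b (l 16501272) (l 16501904)) (l 16505344)) (l 16512432))) (b (b (a (l 16512120) (l 16522632)) (l 16520424)) (l 16527408)))) (b (l 16529416) (b (a (l 16518576) (l 16559840)) (l 16556952)))))) (b (b (l 16551712) (l 16529576)) (b (l 16528128) (a (b (l 16590872) (b (l 16569064) (l 16595424))) (a (l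 16578888) (l 16597880)))))) (a (b (a (l 16611288) (l 16548536)) (b (l 16504880) (a (l 16584464) (b (l 16576424) (l 16562240))))) (a (b (l 16527472) (b (l 16542336) (a (l 16544744) (l 16539264)))) (b (l 16485312) (b (l 16497256) (b (l 16504344) (a (l 16521456) (l 16497680))))))))), by decide +kernel⟩

def k2_pp_022_s : ∃ t, chk3 f_pp_022_s t 8 6 3 = true :=
  ⟨(b (a (b (a (a (l 16510488) (l 16544808)) (l 16563072)) (a (b (l 16476152) (a (l 16533888) (l 16574536))) (l 16547112))) (a (b (a (l 16547912) (l 16509056)) (a (l 16545864) (l 16523320))) (b (a (l 16469760) (l 16430144)) (a (l 16479368) (l 16435192))))) (a (a (a (a (b (l 16491696) (b (l 16501416) (b (a (b (l 16490360) (l 16488376)) (l 16502016)) (b (b (c (a (b (l 16487904) (l 16489104)) (l 16500520)) (b (l 16493096) (l 16483568))) (a (l 16492016) (l 16504056))) (c (l 16505784) (l 16504944)))))) (b (l 16535112) (b (l 16525648) (b (l 16520816) (b (b (l 16498024) (l 16522024)) (l 16529152)))))) (b (l 16526264)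 (b (l 16561400) (b (l 16557848) (b (a (l 16524040) (l 16569184)) (l 16564472)))))) (b (l 16537976) (b (l 16546672) (a (b (l 16605952) (l 16545344)) (l 16590288))))) (a (b (c (l 16507880) (l 16493856)) (b (l 16475880) (a (l 16547112) (b (l 16563368) (l 16527296))))) (b (b (l 16443024) (l 16406696)) (b (a (l 16502528) (l 16450328)) (a (a (l 16525560) (l 16498304)) (a (l 16471056) (l 16435984)))))))), by decide +kernel⟩

def k3_pp_022_s : ∃ t, chk3 f_pp_022_s t 8 56 1 = true :=
  ⟨(a (a (a (c (a (c (b (a (b (l 16512720) (l 16522160)) (l 16526904)) (a (b (l 16531568) (l 16540944)) (l 16545528))) (b (a (l 16510048) (l 16526304)) (a (l 16531088) (l 16545168)))) (b (c (l 16540968) (l 16541736)) (c (l 16559296) (l 16560272)))) (b (a (c (a (l 16514608) (l 16525904)) (a (l 16513440) (l 16525712))) (l 16522400)) (a (a (c (l 16533928) (l 16533000)) (l 16524016)) (l 16551728)))) (c (b (c (l 16568688) (l 16572208)) (a (l 16578776) (l 16597552))) (a (b (l 16566616) (l 16584984))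 (l 16556760)))) (a (c (b (l 16587280) (l 16583264)) (l 16569440)) (b (l 16572232) (l 16588352)))) (a (a (c (l 16582872) (l 16555016)) (c (b (l 16581696) (l 16555512)) (b (l 16546312) (l 16519976)))) (a (b (c (c (l 16566480) (l 16546032)) (c (l 16524512) (l 16501912))) (c (c (l 16561440) (l 16540976)) (a (l 16521744) (l 16494896)))) (c (b (a (l 16521512) (c (l 16510480) (l 16485480))) (a (l 16506120) (c (l 16505696) (l 16475560)))) (b (a (l 16472768) (c (l 16459232) (l 16431736))) (a (c (l 16480608) (l 16455168)) (c (b (l 16455816) (l 16453608)) (l 16427360)))))))), by decide +kernel⟩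

def k4_pp_022_s : ∃ t, chk3 f_pp_022_s t 8 57 1 = true :=
  ⟨(b (b (a (a (a (c (a (a (c (l 16550208) (l 16549144)) (l 16559184)) (l 16573376)) (a (c (l 16553688) (l 16553416)) (l 16576152))) (c (l 16580368) (l 16588688))) (c (l 16571560) (l 16590936))) (a (a (c (l 16597472) (l 16590272)) (c (l 16572776) (l 16537192))) (a (c (c (l 16557864) (l 16537424)) (a (l 16518184) (l 16491488))) (c (a (l 16502680) (c (l 16502304) (l 16477520))) (a (c (l 16477312) (l 16452000)) (a (l 16444792) (l 135861228903))))))) (a (l 14) (a (l 14) (a (l 14) (a (l 14) (a (l 14) (a (l 14) (l 1)))))))) (a (l 14) (a (l 14) (a (l 14) (a (l 14) (a (l 14) (l 1))))))), by decide +kernel⟩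

def k5_pp_022_s : ∃ t, chk3 f_pp_022_s t 8 29 1 = true :=
  ⟨(a (l 14) (a (l 14) (a (l 14) (a (l 14) (l 1))))), by decide +kernel⟩

def k6_pp_022_s : ∃ t, chk3 f_pp_022_s t 8 15 1 = true :=
  ⟨(a (l 14) (a (l 14) (l 1))), by decide +kernel⟩

def k7_pp_022_s : ∃ t, chk3 f_pp_022_s t 9 6 1 = true :=
  ⟨(b (b (l 6) (a (b (a (c (l 16414712) (l 16369248)) (l 6)) (c (a (l 16417032) (l 16318088)) (a (l 16347704) (a (l 16301328) (l 6))))) (l 6))) (b (b (a (a (c (l 16420200) (l 16337424)) (c (a (l 16358864) (l 16318384)) (c (l 16270496) (l 16237344)))) (b (l 6) (b (l 6) (l 1)))) (a (a (c (a (l 16445912) (l 16402952)) (c (l 16384096) (l 16355664))) (c (a (a (l 16370904) (l 16349640)) (l 292627356343)) (c (a (l 16312864) (l 16266080)) (l 52645833927)))) (l 1))) (a (b (a (c (a (b (l 16450536) (l 16454024)) (b (l 16406152) (c (l 16423176) (l 16393856)))) (a (l 16395688) (b (l 16346232) (c (l 16363136) (l 16331008))))) (a (a (c (l 316786663927) (l 374231716711)) (c (l 263099525079)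 (l 317860224503))) (l 1))) (a (a (c (a (c (l 16484568) (l 16458416)) (b (l 16446280) (c (l 16464200) (l 16436000)))) (b (a (l 16415240) (l 16388512)) (a (l 16397416) (c (l 16406432) (l 16375496))))) (b (c (c (l 165389111447) (l 145524825015)) (a (l 16361912) (l 16356424))) (a (c (c (l 126197552567) (l 125123763271)) (c (l 16380216) (l 16347464))) (l 1)))) (l 1))) (l 1)))), by decide +kernel⟩

def k8_pp_022_s : ∃ t, chk3 f_pp_022_s t 9 7 1 = true :=
  ⟨(b (a (b (a (b (a (c (b (b (b (a (l 16460664) (a (l 16458696) (l 141229939303))) (c (l 115997038727) (l 97206497495))) (a (c (l 16486864) (l 16460112)) (c (l 16464392) (l 16435888)))) (a (c (b (l 16484504) (l 16482200)) (b (l 16457824) (l 16455616))) (c (l 66068031959) (l 61773024695)))) (b (a (b (c (l 16434176) (l 16404720)) (c (l 16432048) (l 16402688))) (c (b (l 150356691687) (l 16406016)) (b (l 16387064) (l 16374776)))) (c (a (b (l 16429864) (l 16427768)) (l 55867397751)) (a (l 95595836951) (l 16371912))))) (a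 (b (a (a (b (c (l 146061762247) (l 16396464)) (l 1)) (l 1)) (l 1)) (l 1)) (l 1))) (b (a (a (c (c (l 58551891351) (l 53719996055)) (c (l 47277505863) (l 38687513159))) (l 1)) (l 1)) (l 1))) (l 1)) (l 1)) (l 1)) (l 1)), by decide +kernel⟩

def k9_pp_022_s : ∃ t, chk3 f_pp_022_s t 5 1 1 = true :=
  ⟨(b (l 6) (b (l 1) (l 1))), by decide +kernel⟩

def k10_pp_022_s : ∃ t, chk3 f_pp_022_s t 3 1 1 = true :=
  ⟨(l 1), by decide +kernel⟩

theorem s11_pp_022_s : ∃ t, chk3 f_pp_022_s t 9 3 1 = true := ex3_b k7_pp_022_s k8_pp_022_s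

theorem s12_pp_022_s : ∃ t, chk3 f_pp_022_s t 8 28 1 = true := ex3_b k3_pp_022_s k4_pp_022_s

theorem s13_pp_022_s : ∃ t, chk3 f_pp_022_s t 8 14 1 = true := ex3_b s12_pp_022_s k5_pp_022_s

theorem s14_pp_022_s : ∃ t, chk3 f_pp_022_s t 8 7 1 = true := ex3_b s13_pp_022_s k6_pp_022_s

theorem s15_pp_022_s : ∃ t, chk3 f_pp_022_s t 8 6 1 = true := ex3_c k1_pp_022_s k2_pp_022_s

theorem s16_pp_022_s : ∃ t, chk3 f_pp_022_s t 8 3 1 = true := ex3_b s15_pp_022_s s14_pp_022_s

theorem s17_pp_022_s : ∃ t, chk3 f_pp_022_s t 4 3 1 = true := ex3_a s16_pp_022_s s11_pp_022_s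

theorem s18_pp_022_s : ∃ t, chk3 f_pp_022_s t 4 1 1 = true := ex3_b k0_pp_022_s s17_pp_022_s

theorem s19_pp_022_s : ∃ t, chk3 f_pp_022_s t 2 1 1 = true := ex3_a s18_pp_022_s k9_pp_022_s

theorem s20_pp_022_s : ∃ t, chk3 f_pp_022_s t 1 1 1 = true := ex3_a s19_pp_022_s k10_pp_022_s

theorem c_pp_022_s : CertNE 0 536870912 0 536870912 923417968 42949674 3 eng mog cd0q0 cd0q2 pd2 false true true .pp 0 2 2
    ndB0q0 ndB0q2 pcB2 cut_pp_022_s Ext.none :=
  certNE2 (fam := false) (s1 := true) (s2 := true) (a := 0) (b := 2) (c := 2) (cn := .pp) (n1 := ndB0q0) (n2 := ndB0q2) (pc := pcB2) (cut := cut_pp_022_s) (xt := Ext.none) (P1 := 0) (W1 := 536870912) (P2 := 0) (W2 := 536870912) (P3 := 923417968) (W3 := 42949674) (N0 := 3) (En := eng) (mo := mog) (C1 := cd0q0) (C2 := cd0q2) (C3 := pd2)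
    rfl (fun _ => rfl) s20_pp_022_s

noncomputable def cut_pp_022_t : Cut := Cut.of [[⟨3, 0, 0, 2845415833⟩], [⟨0, 0, 0, 67108864⟩, ⟨1, 1, 0, 67108864⟩, ⟨2, 1, 0, 67108864⟩]]

noncomputable def f_pp_022_t : ℕ → ℕ → ℕ → ℕ → Bool := onCell 0 536870912 0 536870912 923417968 42949674
    (rowNE 3 eng mog cd0q0 cd0q2 pd2 0 false true true .pp 0 2 2 (qsf 0 536870912 0 536870912 2) ndB0q0 ndB0q2 pcB2 cut_pp_022_t Ext.none)

def k0_pp_022_t : ∃ t, chk3 f_pp_022_t t 1 1 1 = true :=
  ⟨(l 6), by decide +kernel⟩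

theorem c_pp_022_t : CertNE 0 536870912 0 536870912 923417968 42949674 3 eng mog cd0q0 cd0q2 pd2 false true true .pp 0 2 2
    ndB0q0 ndB0q2 pcB2 cut_pp_022_t Ext.none :=
  certNE0 (fam := false) (s1 := true) (s2 := true) (a := 0) (b := 2) (c := 2) (cn := .pp) (n1 := ndB0q0) (n2 := ndB0q2) (pc := pcB2) (cut := cut_pp_022_t) (xt := Ext.none) (P1 := 0) (W1 := 536870912) (P2 := 0) (W2 := 536870912) (P3 := 923417968) (W3 := 42949674) (N0 := 3) (En := eng) (mo := mog) (C1 := cd0q0) (C2 := cd0q2) (C3 := pd2)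
    rfl k0_pp_022_t

noncomputable def cut_pp_101_s : Cut := Cut.of [[⟨4, 0, 0, 1449551462⟩]]

noncomputable def f_pp_101_s : ℕ → ℕ → ℕ → ℕ → Bool := onCell 536870912 536870912 536870912 536870912 923417968 42949674
    (rowNE 3 eng mog cd0q1 cd0q1 pd0 0 false true true .npn 1 0 1 (qsf 536870912 536870912 536870912 536870912 0) ndB0q1 ndB0q1 pcB0 cut_pp_101_s Ext.none)

def k0_pp_101_s : ∃ t, chk3 f_pp_101_s t 1 1 1 = true :=
  ⟨(l 3), by decide +kernel⟩

theorem c_pp_101_s : CertNE 536870912 536870912 536870912 536870912 923417968 42949674 3 eng mog cd0q1 cd0q1 pd0 false true true .npn 1 0 1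
    ndB0q1 ndB0q1 pcB0 cut_pp_101_s Ext.none :=
  certNE0 (fam := false) (s1 := true) (s2 := true) (a := 1) (b := 0) (c := 1) (cn := .npn) (n1 := ndB0q1) (n2 := ndB0q1) (pc := pcB0) (cut := cut_pp_101_s) (xt := Ext.none) (P1 := 536870912) (W1 := 536870912) (P2 := 536870912) (W2 := 536870912) (P3 := 923417968) (W3 := 42949674) (N0 := 3) (En := eng) (mo := mog) (C1 := cd0q1) (C2 := cd0q1) (C3 := pd0)
    rfl k0_pp_101_s

noncomputable def cut_pp_101_t : Cut := Cut.of [[⟨3, 0, 0, 2845415833⟩]]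

noncomputable def f_pp_101_t : ℕ → ℕ → ℕ → ℕ → Bool := onCell 536870912 536870912 536870912 536870912 923417968 42949674
    (rowNE 3 eng mog cd0q1 cd0q1 pd0 0 false true true .npn 1 0 1 (qsf 536870912 536870912 536870912 536870912 0) ndB0q1 ndB0q1 pcB0 cut_pp_101_t Ext.none)

def k0_pp_101_t : ∃ t, chk3 f_pp_101_t t 1 1 1 = true :=
  ⟨(l 3), by decide +kernel⟩

theorem c_pp_101_t : CertNE 536870912 536870912 536870912 536870912 923417968 42949674 3 eng mog cd0q1 cd0q1 pd0 false true true .npn 1 0 1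
    ndB0q1 ndB0q1 pcB0 cut_pp_101_t Ext.none :=
  certNE0 (fam := false) (s1 := true) (s2 := true) (a := 1) (b := 0) (c := 1) (cn := .npn) (n1 := ndB0q1) (n2 := ndB0q1) (pc := pcB0) (cut := cut_pp_101_t) (xt := Ext.none) (P1 := 536870912) (W1 := 536870912) (P2 := 536870912) (W2 := 536870912) (P3 := 923417968) (W3 := 42949674) (N0 := 3) (En := eng) (mo := mog) (C1 := cd0q1) (C2 := cd0q1) (C3 := pd0)
    rfl k0_pp_101_t

noncomputable def cut_pp_102_s : Cut := Cut.of [[⟨4, 0, 0, 1449551462⟩]]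

noncomputable def f_pp_102_s : ℕ → ℕ → ℕ → ℕ → Bool := onCell 0 536870912 0 536870912 923417968 42949674
    (rowNE 3 eng mog cd0q1 cd0q2 pd0 2 false true true .npp 1 0 2 (qsf 536870912 536870912 0 536870912 0) ndB0q1 ndB0q2 pcB0 cut_pp_102_s Ext.none)

def k0_pp_102_s : ∃ t, chk3 f_pp_102_s t 1 1 1 = true :=
  ⟨(a (b (l 3) (l 3)) (l 3)), by decide +kernel⟩

theorem c_pp_102_s : CertNE 536870912 536870912 0 536870912 923417968 42949674 3 eng mog cd0q1 cd0q2 pd0 false true true .npp 1 0 2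
    ndB0q1 ndB0q2 pcB0 cut_pp_102_s Ext.none :=
  certNE2 (fam := false) (s1 := true) (s2 := true) (a := 1) (b := 0) (c := 2) (cn := .npp) (n1 := ndB0q1) (n2 := ndB0q2) (pc := pcB0) (cut := cut_pp_102_s) (xt := Ext.none) (P1 := 536870912) (W1 := 536870912) (P2 := 0) (W2 := 536870912) (P3 := 923417968) (W3 := 42949674) (N0 := 3) (En := eng) (mo := mog) (C1 := cd0q1) (C2 := cd0q2) (C3 := pd0)
    rfl (fun _ => rfl) k0_pp_102_s

noncomputable def cut_pp_102_t : Cut := Cut.of [[⟨3, 0, 0, 2845415833⟩]]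

noncomputable def f_pp_102_t : ℕ → ℕ → ℕ → ℕ → Bool := onCell 536870912 536870912 0 536870912 923417968 42949674
    (rowNE 3 eng mog cd0q1 cd0q2 pd0 0 false true true .npp 1 0 2 (qsf 536870912 536870912 0 536870912 0) ndB0q1 ndB0q2 pcB0 cut_pp_102_t Ext.none)

def k0_pp_102_t : ∃ t, chk3 f_pp_102_t t 1 1 1 = true :=
  ⟨(l 6), by decide +kernel⟩

theorem c_pp_102_t : CertNE 536870912 536870912 0 536870912 923417968 42949674 3 eng mog cd0q1 cd0q2 pd0 false true true .npp 1 0 2
    ndB0q1 ndB0q2 pcB0 cut_pp_102_t Ext.none :=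
  certNE0 (fam := false) (s1 := true) (s2 := true) (a := 1) (b := 0) (c := 2) (cn := .npp) (n1 := ndB0q1) (n2 := ndB0q2) (pc := pcB0) (cut := cut_pp_102_t) (xt := Ext.none) (P1 := 536870912) (W1 := 536870912) (P2 := 0) (W2 := 536870912) (P3 := 923417968) (W3 := 42949674) (N0 := 3) (En := eng) (mo := mog) (C1 := cd0q1) (C2 := cd0q2) (C3 := pd0)
    rfl k0_pp_102_t

noncomputable def cut_pp_112_s : Cut := Cut.of [[⟨4, 0, 0, 1449551462⟩]]

noncomputable def f_pp_112_s : ℕ → ℕ → ℕ → ℕ → Bool := onCell 536870912 536870912 0 536870912 923417968 42949674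
    (rowNE 3 eng mog cd0q1 cd0q2 pd1 0 false true true .dn 1 1 2 (qsf 536870912 536870912 0 536870912 1) ndB0q1 ndB0q2 pcB1 cut_pp_112_s Ext.none)

def k0_pp_112_s : ∃ t, chk3 f_pp_112_s t 1 1 1 = true :=
  ⟨(a (b (b (a (a (b (a (b (a (c (b (l 16626184) (l 16664032)) (l 16601432)) (a (b (l 16638824) (l 16654368)) (b (l 16634096) (l 16671520)))) (a (c (b (l 16660744) (l 16721160)) (b (l 16692472) (l 16747176))) (b (c (l 16718912) (l 16745264)) (a (b (l 16761992) (l 16776016)) (l 122037365639))))) (b (a (c (b (l 16654168) (l 16716872)) (b (l 16686920) (l 16743536))) (b (c (l 16715064) (l 16742000)) (a (b (l 16759392) (l 16774856)) (l 122037501991)))) (a (b (a (b (l 16760576) (l 16775416)) (l 123111243415)) (l 3)) (l 3)))) (a (b (a (b (a (b (l 16763600) (l 16775304)) (l 121500493575)) (l 3)) (l 3)) (l 3)) (l 3))) (b (a (b (a (b (a (b (l 16758472) (l 16774456)) (l 121500631607)) (l 3)) (l 3)) (l 3)) (l 3)) (l 3))) (l 3)) (l 3)) (l 3)) (l 1)), by decide +kernel⟩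

theorem c_pp_112_s : CertNE 536870912 536870912 0 536870912 923417968 42949674 3 eng mog cd0q1 cd0q2 pd1 false true true .dn 1 1 2
    ndB0q1 ndB0q2 pcB1 cut_pp_112_s Ext.none :=
  certNE0 (fam := false) (s1 := true) (s2 := true) (a := 1) (b := 1) (c := 2) (cn := .dn) (n1 := ndB0q1) (n2 := ndB0q2) (pc := pcB1) (cut := cut_pp_112_s) (xt := Ext.none) (P1 := 536870912) (W1 := 536870912) (P2 := 0) (W2 := 536870912) (P3 := 923417968) (W3 := 42949674) (N0 := 3) (En := eng) (mo := mog) (C1 := cd0q1) (C2 := cd0q2) (C3 := pd1)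
    rfl k0_pp_112_s

noncomputable def cut_pp_112_t : Cut := Cut.of [[⟨3, 0, 0, 2845415833⟩]]

noncomputable def f_pp_112_t : ℕ → ℕ → ℕ → ℕ → Bool := onCell 536870912 536870912 0 536870912 923417968 42949674
    (rowNE 3 eng mog cd0q1 cd0q2 pd1 0 false true true .dn 1 1 2 (qsf 536870912 536870912 0 536870912 1) ndB0q1 ndB0q2 pcB1 cut_pp_112_t Ext.none)

def k0_pp_112_t : ∃ t, chk3 f_pp_112_t t 1 1 1 = true :=
  ⟨(l 6), by decide +kernel⟩

theorem c_pp_112_t : CertNE 536870912 536870912 0 536870912 923417968 42949674 3 eng mog cd0q1 cd0q2 pd1 false true true .dn 1 1 2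
    ndB0q1 ndB0q2 pcB1 cut_pp_112_t Ext.none :=
  certNE0 (fam := false) (s1 := true) (s2 := true) (a := 1) (b := 1) (c := 2) (cn := .dn) (n1 := ndB0q1) (n2 := ndB0q2) (pc := pcB1) (cut := cut_pp_112_t) (xt := Ext.none) (P1 := 536870912) (W1 := 536870912) (P2 := 0) (W2 := 536870912) (P3 := 923417968) (W3 := 42949674) (N0 := 3) (En := eng) (mo := mog) (C1 := cd0q1) (C2 := cd0q2) (C3 := pd1)
    rfl k0_pp_112_t

noncomputable def cut_pp_202_s : Cut := Cut.of [[⟨4, 0, 0, 1449551462⟩]]

noncomputable def f_pp_202_s : ℕ → ℕ → ℕ → ℕ → Bool := onCell 0 536870912 0 536870912 923417968 42949674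
    (rowNE 3 eng mog cd0q2 cd0q2 pd0 0 false true true .pp 2 0 2 (qsf 0 536870912 0 536870912 0) ndB0q2 ndB0q2 pcB0 cut_pp_202_s Ext.none)

def k0_pp_202_s : ∃ t, chk3 f_pp_202_s t 1 1 1 = true :=
  ⟨(l 3), by decide +kernel⟩

theorem c_pp_202_s : CertNE 0 536870912 0 536870912 923417968 42949674 3 eng mog cd0q2 cd0q2 pd0 false true true .pp 2 0 2
    ndB0q2 ndB0q2 pcB0 cut_pp_202_s Ext.none :=
  certNE0 (fam := false) (s1 := true) (s2 := true) (a := 2) (b := 0) (c := 2) (cn := .pp) (n1 := ndB0q2) (n2 := ndB0q2) (pc := pcB0) (cut := cut_pp_202_s) (xt := Ext.none) (P1 := 0) (W1 := 536870912) (P2 := 0) (W2 := 536870912) (P3 := 923417968) (W3 := 42949674) (N0 := 3) (En := eng) (mo := mog) (C1 := cd0q2) (C2 := cd0q2) (C3 := pd0)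
    rfl k0_pp_202_s

noncomputable def cut_pp_202_t : Cut := Cut.of [[⟨3, 0, 0, 2845415833⟩]]

noncomputable def f_pp_202_t : ℕ → ℕ → ℕ → ℕ → Bool := onCell 0 536870912 0 536870912 923417968 42949674
    (rowNE 3 eng mog cd0q2 cd0q2 pd0 0 false true true .pp 2 0 2 (qsf 0 536870912 0 536870912 0) ndB0q2 ndB0q2 pcB0 cut_pp_202_t Ext.none)

def k0_pp_202_t : ∃ t, chk3 f_pp_202_t t 1 1 1 = true :=
  ⟨(l 3), by decide +kernel⟩

theorem c_pp_202_t : CertNE 0 536870912 0 536870912 923417968 42949674 3 eng mog cd0q2 cd0q2 pd0 false true true .pp 2 0 2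
    ndB0q2 ndB0q2 pcB0 cut_pp_202_t Ext.none :=
  certNE0 (fam := false) (s1 := true) (s2 := true) (a := 2) (b := 0) (c := 2) (cn := .pp) (n1 := ndB0q2) (n2 := ndB0q2) (pc := pcB0) (cut := cut_pp_202_t) (xt := Ext.none) (P1 := 0) (W1 := 536870912) (P2 := 0) (W2 := 536870912) (P3 := 923417968) (W3 := 42949674) (N0 := 3) (En := eng) (mo := mog) (C1 := cd0q2) (C2 := cd0q2) (C3 := pd0)
    rfl k0_pp_202_t

noncomputable def cut_pm_001_s : Cut := Cut.of [[⟨4, 0, 0, 1449551462⟩]]

noncomputable def f_pm_001_s : ℕ → ℕ → ℕ → ℕ → Bool := onCell 0 536870912 536870912 536870912 923417968 42949674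
    (rowNE 3 eng mog cd0q0 cd0q1 pd0 0 false true false .up 0 0 1 (qsf 0 536870912 536870912 536870912 0) ndB0q0 ndB0q1 pcB0 cut_pm_001_s Ext.none)

def k0_pm_001_s : ∃ t, chk3 f_pm_001_s t 1 1 1 = true :=
  ⟨(l 6), by decide +kernel⟩

theorem c_pm_001_s : CertNE 0 536870912 536870912 536870912 923417968 42949674 3 eng mog cd0q0 cd0q1 pd0 false true false .up 0 0 1
    ndB0q0 ndB0q1 pcB0 cut_pm_001_s Ext.none :=
  certNE0 (fam := false) (s1 := true) (s2 := false) (a := 0) (b := 0) (c := 1) (cn := .up) (n1 := ndB0q0) (n2 := ndB0q1) (pc := pcB0) (cut := cut_pm_001_s) (xt := Ext.none) (P1 := 0) (W1 := 536870912) (P2 := 536870912) (W2 := 536870912) (P3 := 923417968) (W3 := 42949674) (N0 := 3) (En := eng) (mo := mog) (C1 := cd0q0) (C2 := cd0q1) (C3 := pd0)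
    rfl k0_pm_001_s

noncomputable def cut_pm_001_t : Cut := Cut.of [[⟨3, 0, 0, 2845415833⟩]]

noncomputable def f_pm_001_t : ℕ → ℕ → ℕ → ℕ → Bool := onCell 0 536870912 536870912 536870912 923417968 42949674
    (rowNE 3 eng mog cd0q0 cd0q1 pd0 0 false true false .up 0 0 1 (qsf 0 536870912 536870912 536870912 0) ndB0q0 ndB0q1 pcB0 cut_pm_001_t Ext.none)

def k0_pm_001_t : ∃ t, chk3 f_pm_001_t t 2 1 1 = true :=
  ⟨(b (l 4) (b (b (l 4) (l 2)) (l 2))), by decide +kernel⟩

def k1_pm_001_t : ∃ t, chk3 f_pm_001_t t 3 4 1 = true :=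
  ⟨(l 4), by decide +kernel⟩

def k2_pm_001_t : ∃ t, chk3 f_pm_001_t t 6 5 1 = true :=
  ⟨(l 4), by decide +kernel⟩

def k3_pm_001_t : ∃ t, chk3 f_pm_001_t t 7 10 1 = true :=
  ⟨(a (l 4) (b (a (l 4) (b (l 4) (b (l 4) (a (l 4) (a (l 4) (c (l 16752008) (l 16752016))))))) (b (a (l 4) (b (a (l 4) (c (a (l 16753008) (l 16768608)) (a (l 16753024) (l 16769136)))) (a (a (l 4) (a (l 110830238823) (l 44795133575))) (c (l 16761672) (l 16762584))))) (a (a (l 4) (a (b (l 4) (c (l 110293342743) (l 110830214087))) (c (b (l 109756470983) (l 16775760)) (b (l 116198922759) (l 16776192))))) (b (a (c (a (l 16755456) (l 16766048)) (a (l 16776656) (l 16766672))) (c (l 16748704) (l 16750336))) (a (c (l 16758776) (l 16759696)) (c (l 16714680) (l 16717000)))))))), by decide +kernel⟩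

def k4_pm_001_t : ∃ t, chk3 f_pm_001_t t 14 11 1 = true :=
  ⟨(b (a (l 4) (b (l 4) (a (l 4) (a (b (l 4) (c (l 112977705239) (l 112977704951))) (c (b (l 111903960455) (l 16768720)) (b (l 112440829799) (l 16767752))))))) (a (b (a (l 4) (b (l 4) (a (l 4) (c (l 108145842103) (l 109219582007))))) (b (a (l 4) (c (a (l 108682720295) (l 16752448)) (a (l 109756460055) (l 16750968)))) (a (a (l 4) (c (l 109756469463) (l 109756463719))) (c (a (l 16770928) (l 16759600)) (a (l 16768784) (l 16754640)))))) (c (c (b (a (b (l 112440807607) (l 16748968)) (b (l 16760504) (l 16746376))) (a (l 16737488) (l 16704880))) (b (a (b (l 112440799255) (l 16748744)) (l 16740328)) (a (l 16737408) (l 16703936)))) (c (b (a (b (l 112440797447) (l 16747672)) (b (l 16759232) (l 16743640))) (a (b (l 16752640) (l 16736096)) (l 16698288))) (b (a (b (l 112977665591) (l 32983948359)) (b (l 16757144) (l 16739568))) (a (b (l 16749264) (l 16730176)) (b (l 16721168) (l 16681288)))))))), by decide +kernel⟩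

def k5_pm_001_t : ∃ t, chk3 f_pm_001_t t 15 11 1 = true :=
  ⟨(b (a (b (b (a (a (l 4) (c (l 110830215367) (l 111367086727))) (c (a (l 16774344) (l 16762864)) (a (l 16774536) (l 16763408)))) (a (c (a (l 111367088583) (l 16772648)) (c (l 80228570919) (l 80765441559))) (c (l 16755296) (l 16755624)))) (c (a (b (a (l 16770760) (l 16759120)) (l 16751296)) (c (l 16713440) (l 16714544))) (a (b (a (l 16770320) (l 16758552)) (l 16749496)) (c (l 16714624) (l 16711904))))) (b (c (a (a (l 16765576) (l 16712112)) (c (l 16715176) (l 16716816))) (a (b (l 16726056) (l 16713192)) (c (l 16718440) (l 16719784)))) (b (a (c (l 16718760) (l 16720864)) (c (l 16696008) (l 16699912))) (a (c (l 16705248) (l 16706920)) (c (l 16682608) (l 16686840)))))) (b (b (c (a (a (l 16706080) (l 16714472)) (a (l 16691656) (l 16669112))) (a (a (l 16712984) (l 16712072)) (a (l 16692224) (l 16673280)))) (c (a (a (l 16702768) (l 16700752)) (a (l 16677992) (l 16655528))) (a (a (l 16696688) (l 16696096)) (a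 (l 16676736) (l 16658736))))) (c (a (a (c (l 16702488) (l 16703168)) (c (l 16679328) (l 16681984))) (a (c (l 16656424) (l 16659688)) (c (l 16633864) (l 16637592)))) (a (a (c (l 16696624) (l 16686816)) (c (l 16676016) (l 16665032))) (a (c (l 16657120) (l 16646264)) (l 16635648)))))), by decide +kernel⟩

def k6_pm_001_t : ∃ t, chk3 f_pm_001_t t 12 6 1 = true :=
  ⟨(b (a (l 4) (b (l 4) (b (l 4) (b (l 4) (a (l 2) (a (b (l 4) (l 2)) (c (c (l 87207894567) (l 87744764967)) (c (l 88281631255) (b (l 16736624) (l 16772944)))))))))) (b (a (l 2) (b (b (a (l 2) (a (l 2) (a (l 2) (b (l 16743248) (l 2))))) (l 2)) (l 2))) (l 2))), by decide +kernel⟩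

def k7_pm_001_t : ∃ t, chk3 f_pm_001_t t 26 6 1 = true :=
  ⟨(b (b (l 4) (b (b (a (l 4) (b (a (l 4) (c (l 104924643783) (l 104924641447))) (c (a (l 108682725415) (l 16774976)) (a (l 110293336359) (l 16752304))))) (a (a (l 4) (b (l 4) (c (l 103314026535) (l 102777153431)))) (c (a (b (l 16748872) (l 16771944)) (l 16765160)) (a (b (l 87207910343) (l 16769032)) (l 16759080))))) (a (c (b (a (c (l 92039719927) (l 92039720679)) (b (l 16754360) (l 16768968))) (a (b (l 16772240) (l 16766112)) (l 16759632))) (b (a (c (l 104387749127) (l 92576586871)) (b (l 53921928919) (l 16764352))) (a (c (l 16765608) (l 16762704)) (c (l 16752376) (l 16746400))))) (c (a (b (l 16762336) (l 16749872)) (b (l 16752360) (l 16739856))) (c (b (l 16739208) (l 16721432)) (b (a (l 16751888) (l 16735344)) (c (l 16703136) (l 16676600)))))))) (a (b (b (c (a (b (l 16736152) (l 16723504)) (b (l 16747600) (l 16736040))) (c (b (a (l 16748232) (l 16734824)) (l 37144614071)) (b (a (l 16740888) (l 16703336))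 (c (l 16672064) (l 16664824))))) (a (l 2) (a (l 2) (b (b (l 159551086727) (l 2)) (l 2))))) (l 2)) (b (b (c (a (b (l 16737784) (l 16726136)) (b (l 16727696) (l 16715952))) (b (c (l 16714200) (a (l 16707576) (l 16690768))) (c (l 16696632) (a (l 16685264) (l 16668256))))) (c (b (b (l 16670656) (l 16644232)) (b (l 16638720) (l 16632056))) (c (b (l 16616400) (l 16599440)) (b (a (l 16662976) (l 16645720)) (l 96200133623))))) (a (l 2) (a (l 2) (b (b (c (l 16679136) (l 16574360)) (l 2)) (l 2))))))), by decide +kernel⟩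

def k8_pm_001_t : ∃ t, chk3 f_pm_001_t t 27 12 1 = true :=
  ⟨(b (b (a (l 4) (b (l 4) (a (a (l 4) (b (l 4) (l 105461526695))) (c (l 80228585735) (b (l 16751688) (l 16771464)))))) (b (a (a (l 4) (a (l 4) (c (l 106535255495) (l 106535253239)))) (c (a (l 57143147927) (l 16763112)) (a (b (l 16755112) (l 16767632)) (l 16757560)))) (a (c (a (c (l 107608987271) (l 107072115639)) (l 16760440)) (a (c (l 107072113607) (l 107072111255)) (b (l 16772576) (l 16763392)))) (c (a (l 16760408) (l 16749736)) (a (l 16753248) (l 16738376)))))) (c (b (a (b (a (l 16768032) (l 16757680)) (a (l 16754984) (l 16744616))) (c (b (l 16743960) (l 16731696)) (b (l 16738536) (l 16724024)))) (a (b (c (l 16738568) (l 16732624)) (c (l 16725960) (l 16718464))) (b (c (l 16719528) (l 16709576)) (c (l 16707352) (l 16695248))))) (b (a (b (a (l 16753144) (l 16748744)) (a (l 16723096) (l 16729024))) (c (b (l 16730648) (l 16712720)) (b (l 16721432) (l 16657632)))) (b (a (a (l 16713704) (l 16698560)) (c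 (l 16652688) (l 16635352))) (a (c (l 16704328) (l 16635544)) (c (l 16634472) (l 16612704))))))), by decide +kernel⟩

def k9_pm_001_t : ∃ t, chk3 f_pm_001_t t 27 13 1 = true :=
  ⟨(a (b (c (b (b (c (l 16713168) (l 16704512)) (c (l 16700080) (l 16690856))) (b (c (l 16686576) (l 16677568)) (c (l 16672488) (l 16664744)))) (b (b (c (l 16644400) (l 16602432)) (c (l 16626488) (l 16579624))) (b (c (l 16608736) (l 16556720)) (c (l 16591248) (a (l 16605664) (l 16588024)))))) (b (c (b (c (l 16657496) (l 16652456)) (c (l 16641320) (l 16640824))) (c (a (l 16552352) (l 16537120)) (b (l 16553000) (l 16551480)))) (b (a (l 2) (a (l 2) (c (l 16636768) (l 16502296)))) (l 2)))) (b (c (b (b (c (l 16695064) (l 16681072)) (c (l 16682568) (l 16667128))) (b (c (l 16669744) (l 16653480)) (c (l 16656440) (l 16640200)))) (b (b (a (l 16590184) (l 16574752)) (c (l 16618888) (l 16608448))) (b (c (l 16600680) (l 16585032)) (c (l 16603616) (l 16561520))))) (c (c (b (c (l 16627544) (l 16642464))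 (c (l 16592600) (l 16612096))) (b (b (l 16627368) (l 16615072)) (l 16534888))) (c (b (a (l 16542768) (l 16548376)) (b (l 16551504) (l 16535240))) (b (b (l 16538016) (l 16514640)) (b (l 16491528) (l 16468832))))))), by decide +kernel⟩

def k10_pm_001_t : ∃ t, chk3 f_pm_001_t t 14 12 1 = true :=
  ⟨(c (c (b (a (b (a (b (l 77544219063) (l 16761080)) (l 16738016)) (a (b (l 16748376) (l 16735984)) (l 16720960))) (b (a (l 16702296) (l 16700176)) (a (l 16698888) (l 16676296)))) (a (b (a (l 16696808) (l 16696672)) (a (l 16694336) (l 16673200))) (b (a (l 16674952) (l 16653592)) (a (l 16651528) (l 16630360))))) (b (a (b (a (b (l 71638639111) (l 16759024)) (b (l 16750040) (l 16735504))) (a (b (l 16744456) (l 16729864)) (b (l 16720936) (l 16706320)))) (b (a (l 16697952) (l 16696320)) (a (l 16689840) (l 16667384)))) (a (b (a (b (l 16715256) (l 16700656)) (l 16684192)) (a (l 16678672) (l 16654800))) (b (a (l 16660472) (l 16638064)) (a (l 16630864) (l 16608320)))))) (b (a (b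 (a (b (a (c (l 16752888) (l 16731864)) (l 16765360)) (a (l 16761624) (l 16746984))) (b (a (l 16750936) (l 16736512)) (a (l 16732424) (l 16717968)))) (a (b (a (l 16742792) (l 16728104)) (c (l 16721080) (l 16668768))) (b (c (l 16711552) (l 16679344)) (c (l 16672920) (l 16658160))))) (b (b (a (a (l 16722192) (l 16708312)) (l 16667880)) (a (c (l 16702208) (l 16669440)) (l 16649272))) (a (c (l 16675816) (c (l 16621416) (l 16612424))) (c (l 16650992) (b (l 16641672) (l 16620280)))))) (a (b (a (c (c (l 16655808) (l 16648280)) (b (l 16647208) (l 16646128))) (c (c (l 16650432) (l 16619864)) (c (l 16609584) (l 16577752)))) (a (c (c (l 16621216) (l 16609688)) (a (l 16578376) (l 16583040))) (c (b (l 16639232) (l 16620520)) (b (l 16612392) (l 16589152))))) (b (a (c (b (l 16649016) (l 16630648)) (b (l 16626520) (l 16604072))) (c (l 16530864) (b (l 16598280) (l 16575672)))) (c (a (b (l 16611976) (l 16593024)) (b (l 16586784) (l 16567624))) (a (b (l 16581072) (l 16557544)) (b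 (l 16552464) (l 16528672)))))))), by decide +kernel⟩

def k11_pm_001_t : ∃ t, chk3 f_pm_001_t t 15 12 1 = true :=
  ⟨(b (c (a (b (a (c (l 16677080) (l 16675248)) (c (l 16654072) (l 16655256))) (a (c (l 16653520) (l 16646848)) (c (l 16630760) (l 16627800)))) (b (a (c (l 16631328) (l 16635464)) (c (l 16608912) (l 16613568))) (a (c (l 16608144) (l 16609704)) (c (l 16585856) (l 16591448))))) (a (b (a (c (l 16663672) (l 16585136)) (c (l 16643896) (l 16585000))) (a (c (l 16629096) (l 16543680)) (c (l 16609872) (l 16564888)))) (b (a (c (l 16626136) (l 16608976)) (l 16602992)) (a (c (l 16593144) (l 16568656)) (l 16567560))))) (a (c (b (a (c (l 16631584) (l 16617736)) (c (l 16609120) (l 16599352))) (a (c (l 16610176) (l 16588008)) (c (l 16588904) (l 16569864)))) (c (b (a (l 16550848) (l 16531936)) (a (l 16512992) (l 16535928))) (b (a (l 16499472) (l 16541800)) (a (b (l 16527712) (l 16503704)) (l 16494784))))) (c (b (a (c (l 16586712) (l 16582464)) (c (l 16564512) (l 16566416)))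 (a (c (l 16566752) (l 16553744)) (c (l 16544704) (l 16539144)))) (b (a (c (l 16557792) (l 16524984)) (c (l 16544320) (l 16511912))) (a (b (l 16447936) (l 16426120)) (b (l 16498144) (l 16455552))))))), by decide +kernel⟩

def k12_pm_001_t : ∃ t, chk3 f_pm_001_t t 14 13 1 = true :=
  ⟨(b (c (c (a (b (a (l 16670824) (l 16650632)) (a (l 16646544) (l 16629224))) (b (a (l 16628824) (l 16607624)) (a (l 16607048) (l 16585576)))) (a (b (a (l 16649888) (l 16625544)) (a (l 16595656) (l 16596792))) (b (a (l 16601184) (l 16578272)) (a (l 16571720) (l 16485256))))) (a (b (b (a (a (l 16580328) (l 16565000)) (c (l 16601624) (l 16565464))) (a (a (l 16538352) (l 16522824)) (c (l 16582584) (l 16541376)))) (a (c (b (l 16592504) (l 16573912)) (b (l 16550712) (l 16526592))) (b (c (l 16563464) (l 16516944)) (c (l 16544320) (l 16492224))))) (b (a (b (c (l 16573832) (l 16533512)) (c (l 16554432) (l 16509016))) (b (c (l 16548168) (l 16504328)) (c (l 16528432) (l 16479448)))) (a (b (c (l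 16534872) (l 16484096)) (c (l 16515208) (l 16458800))) (b (c (l 16508464) (l 16454072)) (c (l 16488312) (l 16428240))))))) (c (a (b (a (b (l 16539832) (l 16523760)) (b (l 16513280) (l 16491408))) (a (b (l 16510872) (c (l 16581448) (l 16564648))) (b (l 16470008) (l 16459664)))) (b (a (b (l 16489168) (l 16456272)) (c (l 16564280) (l 16455368))) (a (b (l 16442104) (c (l 16555448) (l 16487408))) (c (l 16543952) (l 16405144))))) (c (a (b (a (b (l 16555456) (l 16537248)) (b (l 16525224) (l 16506240))) (a (b (l 16519408) (l 16502064)) (b (l 16487496) (l 16469104)))) (b (a (b (l 16495480) (l 16475760)) (b (l 16467992) (l 16447568))) (a (b (l 16456152) (l 16436752)) (b (l 16427136) (l 16406784))))) (a (b (a (b (l 16502360) (l 16478120)) (b (l 16467280) (l 16442208))) (a (b (l 16454000) (l 16430120)) (b (l 16417112) (l 16392104)))) (b (a (b (l 16433184) (l 16407312)) (b (l 16401984) (l 16375360))) (a (b (l 16381288) (l 16355200)) (a (l 16342808) (l 16327200)))))))), by decide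 +kernel⟩

def k13_pm_001_t : ∃ t, chk3 f_pm_001_t t 15 13 1 = true :=
  ⟨(a (a (b (c (b (c (l 16587632) (l 16557720)) (c (l 16565456) (l 16485144))) (c (b (l 16494608) (l 16453976)) (a (b (l 16472480) (l 16421104)) (b (l 16460784) (l 16409024))))) (c (b (c (l 16543704) (l 16454360)) (c (l 16522528) (l 16423776))) (b (c (b (l 16443864) (l 16422792)) (a (l 16367704) (l 16355056))) (c (b (l 16401584) (l 16380336)) (a (l 16312664) (l 16278256)))))) (b (c (b (c (l 16568608) (l 16539536)) (c (l 16546600) (l 16508536))) (b (c (l 16496264) (l 16445096)) (c (l 16455024) (l 16392824)))) (b (c (c (l 16524592) (l 16435064)) (c (l 16412360) (b (l 16352096) (l 16324136)))) (l 6)))) (a (b (c (b (c (l 16547936) (l 16523656)) (c (l 16528720) (l 16492536))) (b (c (l 16480320) (l 16428040)) (c (l 16438648) (l 16375192)))) (a (b (b (c (l 16497840) (l 16375104)) (l 6)) (l 6)) (l 6))) (b (b (c (c (l 16526088) (l 16509904)) (c (l 16467800) (l 16415376))) (b (c (l 16505480) (l 16386272))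 (l 6))) (l 6)))), by decide +kernel⟩

def k14_pm_001_t : ∃ t, chk3 f_pm_001_t t 3 7 1 = true :=
  ⟨(a (b (b (b (b (b (a (l 2) (a (l 2) (a (l 2) (a (l 2) (c (l 16599336) (l 16458720)))))) (l 2)) (l 2)) (l 2)) (l 2)) (l 2)) (b (a (a (a (b (b (c (c (b (l 16563768) (l 16544560)) (l 16506536)) (b (c (l 16485368) (l 16406632)) (c (l 16469480) (l 16383696)))) (a (l 2) (b (b (c (l 16514240) (l 16362008)) (l 2)) (l 2)))) (l 2)) (b (c (b (c (l 16439320) (l 16455792)) (c (a (l 16423768) (l 16462184)) (l 16435360))) (b (b (c (l 16451192) (l 16367312)) (c (l 16433920) (l 16342896))) (c (c (l 16433224) (l 16384960)) (b (l 16319000) (l 16295800))))) (l 6))) (b (b (c (a (c (l 16532848) (c (l 16506728) (l 16470256))) (c (l 16519904) (l 16356344))) (a (c (b (l 16417688) (l 16399096)) (b (l 16329184) (l 16303352))) (a (c (l 16384200) (l 16289032)) (l 6)))) (l 6)) (l 6))) (l 6)) (l 6))), by decide +kernel⟩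

theorem s15_pm_001_t : ∃ t, chk3 f_pm_001_t t 7 13 1 = true := ex3_a k12_pm_001_t k13_pm_001_t

theorem s16_pm_001_t : ∃ t, chk3 f_pm_001_t t 7 12 1 = true := ex3_a k10_pm_001_t k11_pm_001_t

theorem s17_pm_001_t : ∃ t, chk3 f_pm_001_t t 7 6 1 = true := ex3_b s16_pm_001_t s15_pm_001_t

theorem s18_pm_001_t : ∃ t, chk3 f_pm_001_t t 27 6 1 = true := ex3_b k8_pm_001_t k9_pm_001_t

theorem s19_pm_001_t : ∃ t, chk3 f_pm_001_t t 13 6 1 = true := ex3_a k7_pm_001_t s18_pm_001_t

theorem s20_pm_001_t : ∃ t, chk3 f_pm_001_t t 6 6 1 = true := ex3_a k6_pm_001_t s19_pm_001_t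

theorem s21_pm_001_t : ∃ t, chk3 f_pm_001_t t 3 6 1 = true := ex3_a s20_pm_001_t s17_pm_001_t

theorem s22_pm_001_t : ∃ t, chk3 f_pm_001_t t 3 3 1 = true := ex3_b s21_pm_001_t k14_pm_001_t

theorem s23_pm_001_t : ∃ t, chk3 f_pm_001_t t 7 11 1 = true := ex3_a k4_pm_001_t k5_pm_001_t

theorem s24_pm_001_t : ∃ t, chk3 f_pm_001_t t 7 5 1 = true := ex3_b k3_pm_001_t s23_pm_001_t

theorem s25_pm_001_t : ∃ t, chk3 f_pm_001_t t 3 5 1 = true := ex3_a k2_pm_001_t s24_pm_001_t

theorem s26_pm_001_t : ∃ t, chk3 f_pm_001_t t 3 2 1 = true := ex3_b k1_pm_001_t s25_pm_001_t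

theorem s27_pm_001_t : ∃ t, chk3 f_pm_001_t t 3 1 1 = true := ex3_b s26_pm_001_t s22_pm_001_t

theorem s28_pm_001_t : ∃ t, chk3 f_pm_001_t t 1 1 1 = true := ex3_a k0_pm_001_t s27_pm_001_t

theorem c_pm_001_t : CertNE 0 536870912 536870912 536870912 923417968 42949674 3 eng mog cd0q0 cd0q1 pd0 false true false .up 0 0 1
    ndB0q0 ndB0q1 pcB0 cut_pm_001_t Ext.none :=
  certNE0 (fam := false) (s1 := true) (s2 := false) (a := 0) (b := 0) (c := 1) (cn := .up) (n1 := ndB0q0) (n2 := ndB0q1) (pc := pcB0) (cut := cut_pm_001_t) (xt := Ext.none) (P1 := 0) (W1 := 536870912) (P2 := 536870912) (W2 := 536870912) (P3 := 923417968) (W3 := 42949674) (N0 := 3) (En := eng) (mo := mog) (C1 := cd0q0) (C2 := cd0q1) (C3 := pd0)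
    rfl s28_pm_001_t

noncomputable def cut_pm_011_s : Cut := Cut.of [[⟨4, 0, 0, 1449551462⟩], [⟨0, 0, 0, 67108864⟩, ⟨1, 1, 0, 67108864⟩, ⟨2, 1, 0, 67108864⟩]]

noncomputable def f_pm_011_s : ℕ → ℕ → ℕ → ℕ → Bool := onCell 0 536870912 536870912 536870912 923417968 42949674
    (rowNE 3 eng mog cd0q0 cd0q1 pd1 0 false true false .pnn 0 1 1 (qsf 0 536870912 536870912 536870912 1) ndB0q0 ndB0q1 pcB1 cut_pm_011_s Ext.none)

def k0_pm_011_s : ∃ t, chk3 f_pm_011_s t 1 1 1 = true :=
  ⟨(l 6), by decide +kernel⟩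

theorem c_pm_011_s : CertNE 0 536870912 536870912 536870912 923417968 42949674 3 eng mog cd0q0 cd0q1 pd1 false true false .pnn 0 1 1
    ndB0q0 ndB0q1 pcB1 cut_pm_011_s Ext.none :=
  certNE0 (fam := false) (s1 := true) (s2 := false) (a := 0) (b := 1) (c := 1) (cn := .pnn) (n1 := ndB0q0) (n2 := ndB0q1) (pc := pcB1) (cut := cut_pm_011_s) (xt := Ext.none) (P1 := 0) (W1 := 536870912) (P2 := 536870912) (W2 := 536870912) (P3 := 923417968) (W3 := 42949674) (N0 := 3) (En := eng) (mo := mog) (C1 := cd0q0) (C2 := cd0q1) (C3 := pd1)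
    rfl k0_pm_011_s

end Pool.Agent.Strip051.G.I8600_9000.Tab.CS.BB00

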