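import Pool.Agent.Strip051.G.I8600_9000.StH
import Pool.Agent.Strip051.G.I8600_9000.StF

/-! # Unit strips 13 (generated) -/

set_option linter.all false
set_option maxRecDepth 100000

namespace Pool.Agent.Strip051.G.I8600_9000.Tab.St.C

open Pool.Agent.Strip051.PB Pool.Agent.Strip051.PB.T Pool.Agent.StripNear Pool.Agent.Strip051.LC
open Pool.Agent.Strip051.G.I8600_9000.Tab Pool.Agent.Strip051.G.I8600_9000.Tab.St

noncomputable def cut_B00pp_012_s1 : Cut := Cut.of [[⟨4, 0, 0, 1449551462⟩], [⟨0, 0, 0, 67108864⟩, ⟨1, 1, 0, 67108864⟩, ⟨2, 1, 0, 67108864⟩]]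

noncomputable def xt_B00pp_012_s1 : Ext := strExt dd false true true .u0 .u2 .u0m .pnp 0 1 2 rfl rfl gf1 vv ndB0q0 ndB0q2

noncomputable def f_B00pp_012_s1 : ℕ → ℕ → ℕ → ℕ → Bool := onCell 536870912 536870912 0 536870912 923417968 42949674
    (rowF 2 false true true .pnp 0 1 2 (qsf 0 536870912 0 536870912 1) ndB0q0 ndB0q2 pcB1 cut_B00pp_012_s1 xt_B00pp_012_s1)

def k0_B00pp_012_s1 : ∃ t, chk3 f_B00pp_012_s1 t 2 2 1 = true :=
  ⟨(a (b (l 2) (l 3)) (b (a (a (a (l 2) (b (c (b (l 528331023) (l 528087311)) (l 529461007)) (b (c (l 527840527) (l 528859663)) (l 3)))) (b (a (b (c (l 528694287) (l 529882895)) (a (l 528955151) (l 529116687))) (b (c (l 529049359) (l 530185999)) (c (l 528810255) (l 529966863)))) (b (a (c (b (l 528267279) (l 528144911)) (l 529178383)) (b (a (l 529112079) (l 529285135)) (c (l 528515087) (l 529701647)))) (a (c (l 527969039) (l 529229583)) (c (l 528341263) (l 529548815)))))) (b (a (a (b (c (l 529418511) (l 530509327)) (c (l 529182479) (l 530292495)))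 (b (c (l 529798415) (l 530848271)) (c (l 529566479) (l 530635023)))) (c (a (b (l 530190095) (l 529963791)) (b (l 531129103) (a (l 530273295) (l 530494479)))) (a (b (l 531203855) (l 530995471)) (a (b (l 16573896) (l 531281167)) (b (l 16570568) (l 531489295)))))) (a (b (a (b (l 529820431) (l 529445391)) (c (l 529341455) (l 530432527))) (c (a (l 528725775) (l 529122831)) (a (l 529885711) (l 530240527)))) (a (b (c (l 529745167) (l 530799375)) (c (l 529533711) (l 530614543))) (b (c (l 529896463) (a (l 531088911) (l 531313679))) (a (c (l 529855759) (l 530912527)) (c (l 530105615) (l 531152655)))))))) (a (l 3) (b (a (b (c (a (l 528496911) (l 528900623)) (a (l 529684495) (l 530045455))) (l 3)) (a (a (b (l 530288143) (b (l 530127375) (l 3))) (b (c (l 529425423) (l 530524175)) (b (b (l 530432271) (l 529757967)) (l 3)))) (a (b (b (l 530242063) (l 530750223)) (b (b (l 530344463) (l 530000143)) (l 529899791))) (b (b (l 530478351) (l 530920207)) (l 530735631))))) (l 3))))), by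 decide +kernel⟩

def k1_B00pp_012_s1 : ∃ t, chk3 f_B00pp_012_s1 t 6 4 1 = true :=
  ⟨(a (b (b (a (c (a (l 531022607) (l 531158543)) (a (l 532280591) (c (l 16531112) (l 16556632)))) (c (a (l 16498296) (l 16493064)) (a (c (l 16530376) (l 16557216)) (c (l 16532032) (l 16560024))))) (a (c (a (l 530820111) (l 531236111)) (a (l 532064015) (c (l 16568408) (l 532439823)))) (c (a (l 531633679) (l 532015631)) (a (c (l 16564152) (l 16597480)) (c (l 16562384) (l 16586576)))))) (a (b (c (a (l 530630415) (l 531057423)) (a (l 531898895) (b (l 532066575) (l 531994895)))) (c (a (l 530449167) (l 530884623)) (a (l 531745807) (b (l 531922959) (l 531847951))))) (a (c (b (l 531464207) (l 531297807)) (b (b (l 532442639) (l 532375055)) (b (l 532306191) (l 532232975)))) (c (b (l 531853583) (l 531826959)) (a (b (l 532680463) (l 532545551)) (b (l 533125135) (l 532723983))))))) (a (b (c (a (b (l 16495680) (l 16569680)) (b (l 6) (l 16529448))) (a (c (b (l 16536080) (l 16563088)) (b (l 16523144)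 (l 16588480))) (b (l 6) (a (l 16515248) (l 16538696))))) (a (c (b (l 532363279) (l 532340751)) (b (b (l 533950991) (l 532010255)) (c (l 532746255) (l 532425743)))) (c (b (a (l 16559904) (l 16559688)) (l 532708367)) (b (c (l 16591904) (l 16573072)) (c (l 16618408) (l 16596192)))))) (b (a (b (l 6) (c (l 16533872) (c (l 16571976) (l 16515408)))) (l 6)) (b (c (a (l 16476704) (l 16564184)) (c (a (l 16594296) (l 16599128)) (a (l 16534592) (l 16624168)))) (c (a (l 16546344) (l 16588240)) (a (a (l 16543832) (l 16628112)) (l 16629808))))))), by decide +kernel⟩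

def k2_B00pp_012_s1 : ∃ t, chk3 f_B00pp_012_s1 t 6 5 1 = true :=
  ⟨(a (b (a (b (c (a (b (l 530308623) (l 530206223)) (b (l 530746639) (l 530644239))) (a (b (l 531356943) (l 531266575)) (b (l 531767055) (l 531675151)))) (c (a (l 530017295) (l 530458127)) (a (l 531087631) (b (l 531560719) (l 531437839))))) (b (c (a (l 531112463) (l 531509775)) (a (b (l 532152847) (l 532060687)) (a (l 532385295) (l 532564495)))) (a (b (l 532501775) (l 532647183)) (c (l 531278095) (c (l 532000271) (l 532520719)))))) (a (b (c (a (l 529755407) (l 530203407)) (a (l 531105551) (b (l 531315983) (l 531195919)))) (l 3)) (b (a (b (c (l 530691343) (l 531709199)) (l 531064079)) (c (l 531036175) (b (l 532082959) (l 531970063)))) (c (a (l 530120463) (b (l 530860815) (l 530747407))) (a (b (l 531478799) (l 531367695)) (b (l 531859727) (l 531752719))))))) (b (c (a (b (a (l 531890959) (l 532528911)) (a (l 531662351) (l 532034831))) (b (a (c (l 16608344) (l 16623920)) (l 16528336)) (a (l 532392719)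 (l 16552560)))) (a (b (a (c (l 532581903) (l 532542223)) (c (l 16602816) (l 16619016))) (a (b (l 532669967) (l 532555279)) (l 531612175))) (b (a (a (l 16565984) (l 16564712)) (l 16647688)) (a (b (l 16580888) (l 16591736)) (l 16665472))))) (c (a (b (a (l 531425295) (l 531802895)) (a (l 531198479) (b (l 531636751) (l 531531279)))) (b (a (l 531090959) (l 532496399)) (a (b (l 532002575) (l 531899151)) (l 532275471)))) (a (b (a (l 531313423) (b (l 532788495) (l 532681231))) (a (b (l 532226319) (l 532122127)) (b (l 532576271) (l 532475407)))) (b (a (b (l 16645168) (l 16657144)) (l 16685096)) (a (b (l 532907279) (l 532807951)) (l 533144591))))))), by decide +kernel⟩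

def k3_B00pp_012_s1 : ∃ t, chk3 f_B00pp_012_s1 t 7 2 1 = true :=
  ⟨(a (b (b (l 6) (b (a (a (c (l 16487000) (l 16577536)) (l 6)) (l 6)) (a (c (a (l 16507344) (l 16598160)) (a (l 16634440) (l 16557624))) (a (c (l 16609800) (l 16536056)) (l 6))))) (b (a (a (c (b (l 16527720) (l 16548256)) (a (l 16593288) (l 16614864))) (c (b (l 16614824) (l 16631800)) (a (l 16574512) (l 16577112)))) (a (b (l 16558352) (l 16568832)) (b (l 16541832) (l 16561168)))) (a (b (a (b (l 16577752) (l 16609328)) (l 16590840)) (a (b (l 16620592) (l 532996623)) (a (l 16621872) (l 16598952)))) (b (a (l 16581776) (l 16663592)) (a (c (l 16670496) (l 16693088)) (l 16596200)))))) (b (l 6) (a (b (a (b (l 16514784) (l 16535376)) (b (l 6) (l 16505104))) (b (a (l 16638992) (l 16610032)) (a (l 16656640) (l 16628944)))) (b (a (b (l 6) (l 16469376)) (l 6)) (a (b (l 16491968) (l 16595720)) (b (l 16450440) (l 16470848))))))), by decide +kernel⟩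

def k4_B00pp_012_s1 : ∃ t, chk3 f_B00pp_012_s1 t 2 3 1 = true :=
  ⟨(l 3), by decide +kernel⟩

def k5_B00pp_012_s1 : ∃ t, chk3 f_B00pp_012_s1 t 6 3 4 = true :=
  ⟨(b (a (b (a (l 3) (b (a (l 3) (l 530353935)) (l 3))) (l 3)) (b (a (b (a (l 530763791) (l 531162383)) (a (l 3) (b (l 531027215) (l 3)))) (b (a (l 531521807) (l 531881487)) (a (l 530538767) (l 531754767)))) (a (l 3) (b (a (l 3) (l 531660559)) (l 3))))) (l 3)), by decide +kernel⟩

def k6_B00pp_012_s1 : ∃ t, chk3 f_B00pp_012_s1 t 7 6 4 = true :=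
  ⟨(a (b (a (a (b (l 532271375) (l 532160527)) (b (l 532688399) (l 532591375))) (b (a (l 16687808) (l 16685160)) (a (l 533047567) (l 533246479)))) (a (b (a (l 531003407) (b (l 532538895) (l 532505615))) (a (b (l 531485455) (l 3)) (b (l 531669519) (a (l 532331535) (l 532568591))))) (a (b (b (l 533005071) (l 532709903)) (b (a (l 532836367) (l 533084943)) (a (l 532813583) (l 533064975)))) (a (b (l 533354511) (b (l 533318415) (a (l 533243407) (l 533328655)))) (b (l 533564431) (b (l 533478159) (l 532804111))))))) (b (a (a (b (l 16683040) (b (l 16693712) (l 16701512))) (b (l 16657736) (a (l 16679824) (l 16582168)))) (a (b (l 16625800) (a (l 16650416) (l 16632448))) (b (l 16585696) (a (l 16612232) (l 16589744))))) (a (b (a (b (l 533502479) (a (l 16723192) (l 16712912))) (b (l 16675224) (a (l 16659208) (l 16687456)))) (a (b (a (l 533317391) (l 533109519)) (a (l 532615439) (b (l 16729408) (l 532854543)))) (b (a (l 532316943) (l 531752719)) (a (b (l 16696640) (l 532562959))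 (b (l 16683072) (l 531966735)))))) (b (a (a (b (l 16662824) (l 16671696)) (b (l 16644856) (l 16653792))) (a (l 16634304) (l 16606656))) (a (b (a (l 16660112) (l 16663304)) (a (a (l 16695112) (l 16686848)) (b (l 16670880) (l 16676144)))) (b (a (l 16643352) (l 16621184)) (a (l 16656384) (a (l 16637536) (l 16626008))))))))), by decide +kernel⟩

def k7_B00pp_012_s1 : ∃ t, chk3 f_B00pp_012_s1 t 14 7 4 = true :=
  ⟨(b (a (l 3) (b (a (b (a (b (l 532798991) (l 3)) (b (l 533053455) (a (l 532985103) (b (l 533114127) (l 532577551))))) (l 3)) (b (a (b (a (l 533231631) (l 533291535)) (b (l 533239823) (l 533233423))) (b (l 533215503) (b (l 533123343) (l 533039119)))) (a (b (l 533108751) (l 532670991)) (b (l 532634383) (c (l 532273935) (l 532120847)))))) (a (l 3) (b (a (l 3) (b (a (l 3) (l 532528911)) (l 3))) (l 3))))) (l 3)), by decide +kernel⟩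

def k8_B00pp_012_s1 : ∃ t, chk3 f_B00pp_012_s1 t 30 14 4 = true :=
  ⟨(b (a (b (b (a (l 532990223) (l 532454671)) (a (a (l 532905487) (l 532775951)) (l 531757071))) (a (b (a (l 532726799) (l 532596751)) (a (l 532559887) (l 532429839))) (b (a (l 532457487) (l 532309263)) (a (l 532290063) (l 532141327))))) (b (a (b (l 531882255) (a (l 532334607) (l 532170511))) (b (a (l 16717776) (l 16710624)) (a (l 16725696) (l 16716000)))) (a (b (a (l 532152847) (l 531987983)) (a (l 531984143) (l 531549967))) (b (a (l 531546127) (l 531362831)) (a (l 531375375) (l 531190031)))))) (a (b (a (b (a (l 532140303) (l 531741711)) (a (b (l 532307727) (l 3)) (l 532143887))) (b (a (l 532138255) (l 531989263)) (a (l 531736079) (l 531586319)))) (a (l 3) (b (a (b (l 531917839) (l 531864591)) (b (l 531767567) (l 531445519))) (a (l 3) (b (l 531396367) (l 3)))))) (b (a (b (a (l 531563023) (l 531396111)) (a (b (l 531730191) (l 531666959)) (a (l 531303951) (l 531217679)))) (b (a (b (l 531527951)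 (l 531454479)) (b (l 531340815) (l 531266319))) (a (b (l 531117071) (l 531052047)) (b (a (l 531245839) (l 16738584)) (a (l 531180047) (l 531081231)))))) (a (b (a (b (l 531339535) (l 531285263)) (a (l 531185167) (b (l 531396623) (l 531341327)))) (a (b (l 531235343) (b (l 531202319) (l 531181071))) (b (a (l 531378191) (l 531290383)) (a (b (l 531344399) (l 531322895)) (b (l 531256335) (l 531234575)))))) (a (b (b (a (l 531307279) (l 531214863)) (a (l 531251471) (l 531158287))) (b (a (l 531200271) (l 531106063)) (a (a (l 531177231) (l 531131151)) (b (l 531070735) (l 531047951))))) (b (b (a (l 531118095) (l 531018255)) (a (l 531060495) (l 530959375))) (b (a (l 531006991) (l 530904591)) (a (l 530957583) (l 530853647))))))))), by decide +kernel⟩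

def k9_B00pp_012_s1 : ∃ t, chk3 f_B00pp_012_s1 t 30 15 4 = true :=
  ⟨(b (a (l 3) (b (a (b (a (b (b (l 531160847) (l 3)) (l 3)) (b (a (b (l 531302415) (l 531283471)) (b (l 531213839) (l 531194639))) (a (l 3) (b (l 531176463) (l 531159823))))) (l 3)) (b (a (b (a (a (l 531135759) (l 531089167)) (b (l 531026447) (l 531006991))) (a (b (l 531084559) (l 531067663)) (b (l 530985743) (l 530967823)))) (b (a (b (l 530924047) (l 530902543)) (l 530808335)) (a (b (l 530883343) (l 530867215)) (b (l 530780943) (l 530765327))))) (a (b (a (b (l 531053583) (l 3)) (l 530950159)) (l 3)) (b (a (l 530849039) (l 530746127)) (a (l 531097615) (l 530993935)))))) (a (l 3) (a (l 3) (a (l 3) (a (l 3) (l 14))))))) (l 3)), by decide +kernel⟩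

def k10_B00pp_012_s1 : ∃ t, chk3 f_B00pp_012_s1 t 31 14 4 = true :=
  ⟨(b (a (b (a (b (a (l 16702976) (l 16694824)) (a (l 16708432) (l 16700360))) (b (l 16681616) (a (l 16691776) (l 16682664)))) (a (b (a (l 531169551) (l 16706272)) (a (l 530994191) (c (l 16713584) (l 16712024)))) (b (a (l 16692552) (l 16688800)) (a (l 16704448) (b (l 16693824) (l 16697368)))))) (b (a (b (l 16662136) (a (l 16673032) (l 16662848))) (a (l 16638520) (l 16627200))) (a (b (a (l 16679264) (l 16669208)) (a (l 16680936) (l 16676264))) (b (a (l 16658616) (l 16647496)) (a (l 16665832) (l 16654872)))))) (a (b (a (b (a (b (l 531143183) (l 531335439)) (b (l 16718088) (l 531127311))) (a (b (a (l 16740256) (l 16731328)) (a (l 16738824) (l 530875919))) (b (c (l 16726200) (l 16724936)) (a (l 16731416) (l 16727520))))) (b (a (a (l 16719032) (l 16720032)) (b (l 16701056) (l 16715384))) (a (b (a (l 16719536) (l 16715360)) (a (l 16723512) (l 16719384))) (b (l 16714104) (a (l 16715136) (l 16710760))))))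 (a (b (a (b (a (l 530915855) (l 16739128)) (a (l 530855695) (l 530749967))) (b (a (l 530704143) (l 530596111)) (a (l 530642447) (l 530534415)))) (a (b (a (l 530799631) (l 530693391)) (a (l 530748431) (l 530642447))) (b (a (l 530586127) (l 530478351)) (a (l 530535695) (l 530427919))))) (b (a (b (a (l 16727600) (l 16723528)) (a (l 530425359) (l 16727776))) (b (a (l 16719328) (l 16715008)) (a (l 16723632) (l 14)))) (a (b (a (l 530369295) (l 16737360)) (a (l 530318863) (l 14))) (l 14))))) (b (a (b (a (b (l 16691784) (l 16695704)) (l 16678744)) (a (b (l 16699776) (l 16709216)) (c (l 16703704) (l 16701872)))) (b (a (l 16673728) (l 14)) (l 14))) (a (b (a (a (b (l 16710560) (l 14)) (l 14)) (l 14)) (l 14)) (l 14))))), by decide +kernel⟩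

def k11_B00pp_012_s1 : ∃ t, chk3 f_B00pp_012_s1 t 31 15 4 = true :=
  ⟨(a (b (b (a (b (a (b (a (l 530703887) (l 530598415)) (a (l 530667791) (l 530562575))) (b (a (l 530491919) (l 530383887)) (a (l 530455823) (l 14)))) (a (b (a (l 530641935) (l 530535951)) (a (l 530620175) (l 14))) (l 14))) (l 14)) (l 14)) (l 14)) (l 14)), by decide +kernel⟩

def k12_B00pp_012_s1 : ∃ t, chk3 f_B00pp_012_s1 t 6 3 10 = true :=
  ⟨(b (a (b (a (l 3) (b (l 529957135) (l 3))) (l 3)) (b (a (b (l 531295759) (a (l 3) (b (l 531361551) (l 3)))) (b (a (l 531840783) (l 532187919)) (a (l 531667983) (l 532067087)))) (a (l 3) (b (a (l 3) (l 531980815)) (l 3))))) (l 3)), by decide +kernel⟩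

def k13_B00pp_012_s1 : ∃ t, chk3 f_B00pp_012_s1 t 7 6 10 = true :=
  ⟨(a (b (a (b (l 532756239) (a (l 532459791) (l 532877327))) (b (a (l 16694224) (l 16692280)) (a (l 533319951) (l 533772815)))) (a (b (a (l 532384527) (l 532679695)) (a (b (l 532337423) (l 3)) (b (l 532508175) (l 532754191)))) (b (a (b (l 533283087) (l 533261071)) (b (l 16725584) (l 532698127))) (a (b (l 532973583) (a (l 533111055) (l 533355535))) (a (b (l 533431567) (l 532997647)) (b (l 533287695) (l 533140239))))))) (b (a (a (b (l 16678200) (b (l 16689496) (l 16697712))) (b (l 16568544) (b (l 16664488) (l 16588952)))) (a (b (l 16620048) (b (l 16632560) (l 16640888))) (b (l 16579424) (b (l 16591592) (l 16599856))))) (a (b (a (b (l 16706120) (a (l 16720376) (l 16667864))) (b (l 16650320) (a (l 16697760) (l 16683760)))) (a (b (a (l 16730040) (l 532926991)) (a (l 532955663) (l 532179471))) (b (a (l 16686424) (l 16693432)) (a (a (l 16710192) (l 16714192)) (b (l 16701032) (l 16706264)))))) (b (a (b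 (l 16607712) (a (l 16667728) (l 16649536))) (a (l 16624312) (l 16601520))) (a (b (a (l 16677472) (l 16659392)) (a (a (l 16691952) (l 16683536)) (l 16675160))) (b (a (l 16639096) (l 16616488)) (a (l 16649832) (l 16616960)))))))), by decide +kernel⟩

def k14_B00pp_012_s1 : ∃ t, chk3 f_B00pp_012_s1 t 14 7 10 = true :=
  ⟨(b (a (l 3) (b (a (b (a (l 533098767) (b (l 533322511) (a (l 533285135) (l 533181967)))) (l 3)) (b (a (b (a (l 533184271) (l 533136143)) (l 532673807)) (b (l 533005583) (l 532688911))) (a (b (l 532877583) (l 532430351)) (b (l 532676111) (l 532230671))))) (a (l 3) (b (a (l 3) (b (l 532069647) (l 3))) (l 3))))) (l 3)), by decide +kernel⟩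

def k15_B00pp_012_s1 : ∃ t, chk3 f_B00pp_012_s1 t 30 14 10 = true :=
  ⟨(b (a (b (b (a (l 532515599) (l 532520207)) (a (l 532088591) (l 532083471))) (a (b (l 531900943) (a (l 532326927) (l 532198927))) (b (a (l 532237583) (l 532091151)) (a (l 532061455) (l 531914767))))) (b (a (b (l 532218895) (a (l 16736592) (l 16727592))) (b (l 531614479) (a (l 16720784) (l 16713528)))) (a (b (b (l 531632655) (l 531539983)) (a (l 531759119) (l 531326223))) (b (a (l 16729280) (l 16719472)) (a (l 531152911) (b (l 16724336) (l 16727760))))))) (a (b (a (b (a (l 532166927) (l 532038927)) (a (a (l 3) (l 531725583)) (l 531627279))) (b (b (l 531866127) (l 531789839)) (a (l 531489551) (l 531342095)))) (a (l 3) (b (a (l 531364367) (b (l 531516431) (l 531458063))) (a (l 3) (b (a (l 531443983) (l 531366927)) (l 3)))))) (b (a (b (a (l 531329295) (l 531163919)) (a (l 531184911) (b (l 531323663) (l 531255055)))) (b (a (b (l 531299087) (l 531221519)) (b (l 16731312) (l 531035919))) (a (b (l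 531148047) (a (l 531125263) (l 531034383))) (b (l 530961167) (a (l 16744440) (l 16743544)))))) (a (a (b (b (l 531358479) (a (l 531341583) (l 531259919))) (b (a (l 531287567) (l 531205647)) (a (l 531238415) (l 531155983)))) (b (b (a (l 531235087) (l 531149071)) (a (l 531175951) (l 531089423))) (b (a (l 531121167) (l 531034383)) (a (l 531205391) (l 530983951))))) (a (b (b (a (l 531060495) (l 530969103)) (a (l 531000335) (l 530908431))) (b (a (l 530944783) (l 530852111)) (a (a (l 530917391) (l 530871823)) (l 530800399)))) (b (b (a (l 530874639) (l 530777103)) (a (l 530812943) (l 530714639))) (b (a (l 530755855) (l 530656527)) (a (l 530702863) (l 530602511))))))))), by decide +kernel⟩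

def k16_B00pp_012_s1 : ∃ t, chk3 f_B00pp_012_s1 t 30 15 10 = true :=
  ⟨(b (a (l 3) (b (b (a (a (b (a (l 3) (b (l 531122959) (l 3))) (l 3)) (b (a (b (l 531037967) (l 531016719)) (b (l 530950159) (l 530928911))) (a (l 3) (b (l 530908687) (l 530889743))))) (a (b (a (a (l 530871567) (l 530825487)) (b (l 530765839) (l 530744079))) (a (b (l 530817807) (l 530798607)) (b (l 530722063) (l 530702351)))) (b (a (b (l 530667279) (l 530644495)) (l 530553871)) (a (l 530611983) (l 530511119))))) (a (l 3) (a (b (a (b (l 530781711) (l 3)) (l 530678031)) (l 3)) (b (a (l 530579471) (l 530478607)) (a (l 530551567) (l 530450191)))))) (a (l 3) (a (l 3) (a (l 3) (a (l 3) (l 14))))))) (l 3)), by decide +kernel⟩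

def k17_B00pp_012_s1 : ∃ t, chk3 f_B00pp_012_s1 t 31 7 10 = true :=
  ⟨(b (b (a (b (a (b (l 16696024) (a (l 16705784) (l 16697536))) (b (l 16678336) (l 16686824))) (a (b (a (l 16711816) (l 16703664)) (a (b (l 16716760) (l 16720232)) (l 16710432))) (b (a (l 16695008) (l 16685816)) (a (l 16712368) (l 16692808))))) (b (a (a (l 16656056) (l 16645608)) (a (l 16624104) (l 16612496))) (a (b (a (l 16676080) (l 16665800)) (a (l 16683208) (l 16673048))) (a (b (l 16654944) (l 16662344)) (b (l 16643520) (l 16651056)))))) (a (b (a (b (a (b (l 16723848) (l 16727592)) (b (l 16715896) (l 16724952))) (a (b (l 531032591) (a (l 16737296) (l 16733544))) (b (l 16723648) (a (l 16729680) (l 16725688))))) (b (a (b (l 16707448) (l 16711328)) (b (l 16698480) (l 16702432))) (a (a (l 16724744) (l 16720488)) (b (l 16706528) (l 16710752))))) (a (b (a (b (a (l 16741352) (l 16737648)) (a (l 530613775) (l 16741840))) (b (a (l 16733816) (l 16729872)) (a (l 16740680) (l 16734160)))) (a (b (a (l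 530554639) (l 530450959)) (a (l 530500367) (l 530396431))) (b (a (l 16742392) (l 16741160)) (a (l 530290959) (l 16743000))))) (b (a (b (l 16723728) (a (l 16730144) (l 16726000))) (a (l 16724744) (l 16720328))) (a (b (a (l 16734576) (l 16730480)) (a (l 16739088) (l 14))) (l 14))))) (b (a (b (a (l 16701464) (l 16680976)) (a (b (l 16697200) (l 16701512)) (l 16699992))) (b (a (l 16670424) (l 14)) (l 14))) (a (b (a (b (l 16705952) (l 14)) (l 14)) (l 14)) (l 14))))) (a (b (b (a (b (a (b (a (l 530451727) (l 530347791)) (a (l 530409999) (l 530305807))) (b (a (l 530242063) (l 530134543)) (a (l 530199567) (l 14)))) (a (b (a (l 530375695) (l 530270735)) (a (l 530346511) (l 14))) (l 14))) (l 14)) (l 14)) (l 14)) (l 14))), by decide +kernel⟩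

def k18_B00pp_012_s1 : ∃ t, chk3 f_B00pp_012_s1 t 6 3 11 = true :=
  ⟨(b (a (b (a (l 3) (b (l 529937679) (l 3))) (l 3)) (b (a (b (l 531529999) (a (l 3) (l 530485007))) (b (a (l 532062479) (l 532400655)) (a (l 531893007) (l 532283663)))) (a (l 3) (b (a (l 3) (l 532203023)) (l 3))))) (l 3)), by decide +kernel⟩

def k19_B00pp_012_s1 : ∃ t, chk3 f_B00pp_012_s1 t 7 6 11 = true :=
  ⟨(a (b (a (b (l 532955151) (a (l 532667407) (l 533075471))) (b (a (l 16698656) (l 16696904)) (a (l 533508111) (l 533754639)))) (a (b (a (l 532329231) (l 533017615)) (a (b (l 532555791) (l 3)) (b (l 532985615) (l 532967439)))) (b (a (b (l 533475343) (l 533456655)) (b (l 16726224) (l 532301071))) (a (b (l 533441039) (l 532455951)) (a (b (l 533294863) (l 532719119)) (b (l 533154063) (l 532999695))))))) (b (a (a (b (l 16674784) (b (l 16686528) (l 16695048))) (b (l 16564824) (b (l 16661200) (l 16585936)))) (a (b (l 16616048) (b (l 16628976) (l 16637552))) (b (l 16575088) (b (l 16587632) (l 16596128)))))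 (a (b (a (b (l 16703752) (a (l 16697440) (l 16707640))) (a (b (l 16685864) (l 16695384)) (b (l 16671712) (l 16681192)))) (a (b (a (l 532732687) (l 532799503)) (a (l 532281615) (l 532044815))) (b (a (l 16684344) (l 16691136)) (a (a (l 16708464) (l 16712352)) (b (l 16698944) (l 16704320)))))) (b (a (b (l 16604624) (a (l 16664976) (l 16646600))) (a (l 16621048) (l 16597984))) (a (b (a (l 16674976) (l 16656696)) (a (a (l 16689768) (l 16681248)) (l 16672712))) (b (a (l 16636168) (l 16613272)) (a (l 16647136) (l 16613960)))))))), by decide +kernel⟩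

def k20_B00pp_012_s1 : ∃ t, chk3 f_B00pp_012_s1 t 14 7 11 = true :=
  ⟨(b (a (l 3) (b (a (b (a (l 533309455) (b (l 533168911) (a (l 533126159) (l 533024015)))) (l 3)) (b (a (b (a (l 533032719) (l 532986895)) (b (l 532947215) (l 532898063))) (b (l 532858895) (l 532436239))) (a (b (l 532716303) (l 532531215)) (b (l 532518159) (l 532066575))))) (a (l 3) (b (a (l 3) (b (l 532167695) (l 3))) (l 3))))) (l 3)), by decide +kernel⟩

def k21_B00pp_012_s1 : ∃ t, chk3 f_B00pp_012_s1 t 30 14 11 = true :=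
  ⟨(b (a (b (a (b (l 532640271) (l 531939599)) (b (l 532378895) (l 532205327))) (a (b (l 531745807) (a (l 532165391) (l 532038927))) (b (a (l 532084751) (l 531939855)) (b (l 531874575) (l 531787279))))) (b (a (b (l 532080143) (a (l 16732656) (l 16726144))) (b (l 531477519) (a (l 16719200) (l 16711816)))) (a (b (b (l 531484431) (l 531389199)) (a (l 531603471) (l 531171855))) (b (a (l 16727856) (l 16717920)) (a (l 530999567) (b (l 16722912) (l 16726424))))))) (a (b (a (b (a (l 531999247) (l 531872783)) (a (a (l 3) (l 531552015)) (l 531454991))) (b (b (l 531435535) (l 531356431)) (a (l 531319055) (l 531172879)))) (a (l 3) (b (a (l 531187471) (b (l 531342607) (l 531281167))) (a (l 3) (b (a (l 531263503) (l 531187471)) (l 3)))))) (b (a (b (a (l 531167759) (l 531003407)) (a (l 531017231) (b (l 531158543) (a (l 531130639) (l 531045647))))) (b (a (b (l 531141391) (l 531060751)) (b (l 16730072) (l 530877199))) (a (b (a (l 531030031) (l 16743056)) (a (l 530958095) (l 530867983)))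 (b (l 531068175) (a (l 16743528) (l 16742560)))))) (a (a (b (b (l 531186191) (a (l 531165711) (l 531084815))) (b (a (l 531108879) (l 531027471)) (a (l 531056655) (l 530974991)))) (b (b (a (l 531063823) (l 530978319)) (a (l 531001615) (l 530915599))) (b (a (l 530943759) (l 530857487)) (a (b (l 530904591) (l 530879247)) (b (l 530818063) (l 530792719)))))) (a (b (b (a (l 530890511) (l 530799887)) (a (l 530827279) (l 530736399))) (b (a (l 530768911) (l 530677263)) (a (a (l 530738447) (l 530693135)) (l 530622991)))) (b (b (a (l 530706703) (l 530610959)) (a (l 530642447) (l 530546191))) (b (a (l 530582799) (l 530485775)) (a (l 530527759) (l 530429967))))))))), by decide +kernel⟩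

def k22_B00pp_012_s1 : ∃ t, chk3 f_B00pp_012_s1 t 30 15 11 = true :=
  ⟨(b (a (l 3) (b (a (b (a (b (a (l 3) (b (l 530939663) (l 3))) (l 3)) (b (a (b (l 530855439) (l 530832655)) (b (l 530768399) (l 530745615))) (a (l 3) (b (l 530723855) (l 530703631))))) (l 3)) (b (a (b (a (a (l 530689551) (l 530643983)) (b (l 530586383) (l 530563087))) (a (b (l 530633999) (l 530613263)) (b (l 530540303) (l 530519567)))) (b (a (b (l 530490639) (l 530466575)) (l 530379023)) (a (l 530432271) (l 530333455)))) (a (b (a (a (l 3) (l 530562831)) (l 530490639)) (l 3)) (b (a (l 530393871) (l 530294543)) (a (l 530629135) (l 530529039)))))) (a (l 3) (a (l 3) (a (l 3) (a (l 3) (l 14))))))) (l 3)), by decide +kernel⟩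

def k23_B00pp_012_s1 : ∃ t, chk3 f_B00pp_012_s1 t 31 14 11 = true :=
  ⟨(b (a (b (a (b (l 16693992) (a (l 16703952) (l 16695592))) (b (l 16676072) (l 16684696))) (a (b (a (l 16710144) (l 16701872)) (a (b (l 16715208) (l 16718768)) (l 16708800))) (b (a (l 16693088) (l 16683768)) (a (l 16710608) (l 16690920))))) (a (b (a (l 16653672) (l 16643080)) (b (a (l 16673904) (l 16663464)) (a (l 16681168) (l 16670856)))) (b (a (l 16621408) (l 16609616)) (b (a (l 16652432) (l 16640800)) (a (l 16659952) (l 16648448)))))) (a (b (a (b (a (b (l 16722472) (l 16726312)) (b (l 16714392) (l 16723536))) (a (b (a (l 16732184) (l 16728328)) (a (l 16736240) (l 16732424))) (b (l 16722328) (a (l 16728488) (l 16724432))))) (b (a (b (l 16705808) (l 16709776)) (b (l 16696704) (l 16700744))) (a (a (l 16723368) (b (l 16711696) (l 16715944))) (c (l 16707456) (l 16706664))))) (a (b (a (b (a (l 16740400) (l 16736624)) (a (l 530447375) (l 16740928))) (b (a (l 16732728) (l 16728712)) (a (l 16739696)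 (l 16733096)))) (a (b (a (l 530386191) (l 530284303)) (a (l 530329615) (l 530227471))) (b (a (l 16741504) (l 16740200)) (a (l 530122767) (l 16742144))))) (b (a (b (l 16722456) (a (l 16729008) (l 16724784))) (b (a (l 16715920) (l 16711392)) (a (l 16720440) (l 14)))) (a (b (a (l 16733536) (l 16729360)) (a (l 16738152) (l 14))) (l 14))))) (b (a (b (a (l 16699576) (l 16678920)) (a (b (l 16695432) (l 16699824)) (l 16682352))) (b (a (l 16668160) (l 14)) (l 14))) (a (b (a (b (l 16704352) (l 14)) (l 14)) (l 14)) (l 14))))), by decide +kernel⟩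

def k24_B00pp_012_s1 : ∃ t, chk3 f_B00pp_012_s1 t 31 15 11 = true :=
  ⟨(a (b (b (a (b (a (b (a (l 530278415) (l 530175759)) (a (l 530232847) (l 530129423))) (b (a (l 530070543) (l 529963023)) (a (l 530023695) (l 14)))) (a (b (a (l 530192911) (l 530088719)) (a (l 530158351) (l 14))) (l 14))) (l 14)) (l 14)) (l 14)) (l 14)), by decide +kernel⟩

def k25_B00pp_012_s1 : ∃ t, chk3 f_B00pp_012_s1 t 6 3 12 = true :=
  ⟨(b (a (b (a (l 3) (b (l 529926927) (l 3))) (l 3)) (b (a (b (l 531771919) (a (l 3) (l 531531535))) (b (l 531375631) (a (l 532125455) (l 532507407)))) (a (l 3) (b (a (l 3) (l 532432399)) (l 3))))) (l 3)), by decide +kernel⟩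

def k26_B00pp_012_s1 : ∃ t, chk3 f_B00pp_012_s1 t 7 6 12 = true :=
  ⟨(a (b (a (b (l 533160207) (a (l 532881423) (l 533279503))) (b (a (l 16703224) (l 16693688)) (a (l 533701903) (l 533633551)))) (a (b (a (l 532549135) (l 533227535)) (a (b (l 532781071) (l 3)) (b (l 533200655) (l 533186831)))) (b (a (b (l 533673231) (l 533584655)) (a (l 533401103) (l 533248527))) (a (b (l 533417743) (l 532301839)) (a (b (l 533152527) (l 532166415)) (b (l 533015567) (l 532317199))))))) (b (a (a (b (l 16671224) (b (l 16599552) (l 16692272))) (b (l 16644848) (b (l 16657784) (l 16666696)))) (a (b (l 16611912) (b (l 16625272) (l 16634112))) (b (l 16570624) (b (l 16583568) (l 16592312))))) (a (b (a (b (l 532825615) (a (l 16695392) (l 16705384))) (b (a (l 16683120) (l 16668784)) (a (l 16692936) (l 16678544)))) (a (b (a (l 532866063) (l 532667663)) (a (l 532407823) (l 531905551))) (b (a (l 16682192) (l 16688760)) (a (a (l 16706688) (l 16710448)) (b (l 16696784) (l 16702320)))))) (b (a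 (b (l 16601448) (a (l 16662144) (l 16643584))) (a (l 16617696) (l 16594368))) (a (b (a (l 16672408) (l 16653928)) (a (a (l 16687528) (l 16678896)) (l 16670192))) (b (a (l 16633168) (l 16609984)) (a (l 16644376) (l 16610896)))))))), by decide +kernel⟩

def k27_B00pp_012_s1 : ∃ t, chk3 f_B00pp_012_s1 t 14 7 12 = true :=
  ⟨(b (a (l 3) (b (a (b (a (l 533154575) (b (l 533009423) (a (l 532961039) (l 532591887)))) (l 3)) (b (a (b (a (l 532875279) (l 532832015)) (l 532224015)) (b (l 532706831) (l 532278799))) (a (b (l 532549391) (l 532357647)) (b (l 532354831) (l 532165391))))) (a (l 3) (b (a (l 3) (b (l 531991823) (l 3))) (l 3))))) (l 3)), by decide +kernel⟩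

def k28_B00pp_012_s1 : ∃ t, chk3 f_B00pp_012_s1 t 30 14 12 = true :=
  ⟨(b (a (b (a (b (l 532491535) (l 532054031)) (b (l 532233231) (l 532054287))) (a (b (l 531585807) (a (l 531998223) (l 531873551))) (b (b (l 531905039) (l 531807247)) (b (l 531445007) (l 531354895))))) (b (a (b (l 531936783) (a (l 16731296) (l 16724648))) (b (l 531336719) (a (l 16717576) (l 16710056)))) (a (b (b (l 531332111) (l 531234063)) (a (l 531443215) (l 531012879))) (b (a (l 16726400) (l 16716328)) (a (b (l 16728840) (l 16732392)) (b (l 16721448) (l 16725056))))))) (a (b (a (b (a (l 531557647) (l 531433231)) (a (a (l 3) (l 531373071)) (l 531277839))) (b (a (l 531567375) (l 531155215)) (a (l 531143439) (l 530999055)))) (a (l 3) (b (a (l 531005199) (b (l 531163919) (l 531099151))) (a (l 3) (b (a (l 531077903) (l 531002895)) (l 3)))))) (b (a (b (a (l 531001615) (l 530838543)) (a (b (l 531152911) (l 531078671)) (b (l 530989071) (a (l 530957839) (l 530873359))))) (b (a (b (l 530979087) (l 530895631))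 (b (l 530798607) (l 530714383))) (a (b (a (l 530861583) (l 16742088)) (a (l 530786575) (l 530697231))) (b (a (l 16741120) (l 16734800)) (a (l 530606095) (l 16738928)))))) (a (a (b (b (l 531009039) (a (l 530985231) (l 530905103))) (b (a (l 530925071) (l 530844687)) (a (l 530869775) (l 530789135)))) (b (b (a (l 530887951) (l 530802959)) (a (l 530822415) (l 530737423))) (b (a (l 530761743) (l 530676239)) (a (b (l 530720271) (l 530693391)) (b (l 530634511) (l 530607631)))))) (a (b (b (a (l 530715919) (l 530626319)) (a (l 530649615) (l 530559759))) (b (a (l 530588175) (l 530497807)) (a (a (l 530554639) (l 530509583)) (b (l 530455567) (l 530428175))))) (b (b (a (l 530534671) (l 530440719)) (a (l 530467599) (l 530373391))) (b (a (l 530405391) (l 530310671)) (a (l 530348047) (l 530252815))))))))), by decide +kernel⟩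

def k29_B00pp_012_s1 : ∃ t, chk3 f_B00pp_012_s1 t 30 15 12 = true :=
  ⟨(b (a (l 3) (b (a (b (a (b (a (l 3) (b (l 530751503) (l 3))) (l 3)) (b (a (b (l 530668047) (a (l 3) (l 530622991))) (b (l 530582031) (l 530557455))) (a (l 3) (b (l 530534415) (l 530512655))))) (l 3)) (b (a (b (a (a (l 530502927) (l 530457871)) (b (l 530402319) (l 530377231))) (a (b (l 530445327) (l 530691599)) (b (l 530354191) (l 530331919)))) (b (a (b (l 530309391) (l 530284559)) (l 530199823)) (a (b (l 530260751) (l 530237711)) (l 530419727)))) (a (b (a (a (l 3) (l 530368271)) (l 530298639)) (l 3)) (b (a (l 530203663) (l 530106127)) (a (b (l 530175759) (l 530157839)) (b (l 530077711) (l 530059535))))))) (a (l 3) (a (l 3) (a (l 3) (a (l 3) (l 14))))))) (l 3)), by decide +kernel⟩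

def k30_B00pp_012_s1 : ∃ t, chk3 f_B00pp_012_s1 t 31 14 12 = true :=
  ⟨(b (a (b (a (b (l 16694528) (a (l 16702072) (l 16693592))) (b (l 16673760) (l 16682520))) (a (b (a (l 16708424) (l 16700024)) (a (b (l 16713608) (l 16717264)) (l 16707120))) (b (a (l 16691120) (l 16681680)) (a (l 16708808) (l 16683744))))) (a (b (b (l 16632408) (l 16659688)) (b (a (l 16671672) (l 16661072)) (a (l 16679088) (l 16668608)))) (b (a (l 16618656) (l 16606672)) (b (a (l 16649864) (l 16638024)) (a (l 16657512) (l 16645784)))))) (a (b (a (b (a (b (l 16721056) (l 16724992)) (a (l 16722160) (l 16712704))) (a (b (a (l 16731000) (l 16727072)) (a (l 16735160) (l 16731272))) (b (l 16720968) (a (l 16727264) (l 16723144))))) (b (a (b (l 16704136) (l 16708200)) (b (l 16694896) (l 16699024))) (a (b (a (l 16714584) (l 16710168)) (a (l 16718888) (l 16714512))) (b (l 16703288) (l 16707688))))) (a (b (a (b (a (l 16739432) (l 16738200)) (a (l 530276623) (l 16739984))) (b (a (l 16731616) (l 16727528))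 (a (l 530075663) (l 16732016)))) (a (b (a (l 530213391) (l 530113807)) (a (l 530155023) (l 530054415))) (b (a (l 16740600) (l 16739224)) (a (l 529950735) (l 16741272))))) (b (a (a (b (l 16723312) (l 16727840)) (l 16721240)) (b (a (l 16714496) (l 16709888)) (a (l 16719112) (l 14)))) (a (b (a (l 16732472) (l 16728216)) (a (l 16739808) (l 14))) (l 14))))) (b (a (b (a (l 16681928) (l 16676816)) (a (b (l 16693632) (l 16698104)) (l 16680400))) (b (a (l 16665856) (l 14)) (l 14))) (a (b (a (b (l 16702712) (l 14)) (l 14)) (l 14)) (l 14))))), by decide +kernel⟩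

def k31_B00pp_012_s1 : ∃ t, chk3 f_B00pp_012_s1 t 31 15 12 = true :=
  ⟨(a (b (a (b (b (a (b (a (l 530101007) (l 529999375)) (a (l 530051343) (l 529948687))) (b (a (l 529894927) (l 529787919)) (a (l 529843471) (l 14)))) (a (b (a (l 530005775) (l 529902607)) (a (l 530234127) (l 14))) (l 14))) (l 14)) (l 14)) (l 14)) (l 14)), by decide +kernel⟩

def k32_B00pp_012_s1 : ∃ t, chk3 f_B00pp_012_s1 t 6 3 13 = true :=
  ⟨(b (a (b (a (l 3) (b (a (l 3) (l 531462671)) (l 3))) (l 3)) (b (a (b (l 531752975) (a (l 3) (l 532048911))) (b (l 531875343) (a (l 532365327) (l 532737807)))) (a (l 3) (b (a (l 3) (l 532668943)) (l 3))))) (l 3)), by decide +kernel⟩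

def k33_B00pp_012_s1 : ∃ t, chk3 f_B00pp_012_s1 t 14 3 13 = true :=
  ⟨(b (b (a (b (l 533371151) (b (l 533304079) (l 533273615))) (b (a (l 16707920) (l 16690320)) (a (l 533833231) (l 533507087)))) (a (b (a (l 533043727) (l 533443343)) (a (b (l 533012751) (l 3)) (b (l 533422351) (l 533412623)))) (b (a (b (l 533604879) (l 533439759)) (a (l 533263119) (l 533113871))) (a (b (l 532997135) (a (l 533175823) (l 532720143))) (a (b (l 533004815) (l 532279311)) (b (l 532871695) (l 532434703))))))) (b (a (l 3) (b (a (b (a (l 532983567) (b (l 532843791) (a (l 532789519) (l 532422159)))) (l 3)) (b (a (b (a (l 532712207) (l 532671503)) (l 532057871)) (b (l 532549647) (l 532116239))) (a (b (l 532376335) (l 532178191)) (b (l 532185871) (l 531990287))))) (a (l 3) (b (a (l 3) (b (l 531810319) (l 3))) (l 3))))) (l 3))), by decide +kernel⟩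

def k34_B00pp_012_s1 : ∃ t, chk3 f_B00pp_012_s1 t 15 6 13 = true :=
  ⟨(b (a (a (b (l 16583632) (b (l 16680224) (l 16647440))) (b (l 16640840) (b (l 16654256) (l 16663464)))) (a (b (l 16607640) (b (l 16621448) (l 16630576))) (b (l 16566048) (b (l 16579400) (l 16588400))))) (a (b (a (b (l 532161807) (a (l 16693272) (l 16703056))) (b (a (l 16680280) (l 16665768)) (a (l 16690400) (l 16675808)))) (a (b (a (l 532726287) (l 532531215)) (a (l 532260623) (l 531761679))) (b (a (l 16685216) (l 16686320)) (a (a (l 16704848) (l 16708488)) (b (l 16694568) (l 16700256)))))) (b (a (b (a (l 16649208) (l 16630464)) (a (l 16659224) (l 16640488))) (a (l 16614256) (l 16590672))) (a (b (a (l 16669760) (l 16651088)) (a (a (l 16685224) (l 16676488)) (l 16667616))) (b (a (l 16630096) (l 16606624)) (a (l 16641552) (l 16618256))))))), by decide +kernel⟩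

def k35_B00pp_012_s1 : ∃ t, chk3 f_B00pp_012_s1 t 30 28 13 = true :=
  ⟨(a (b (a (b (l 532337679) (l 531895055)) (b (l 532082703) (l 531898639))) (a (b (l 531689231) (a (l 531826191) (l 531703311))) (b (b (l 531476495) (l 531375887)) (b (l 531279119) (l 531186191))))) (b (a (b (l 531789327) (a (l 16729896) (l 16723112))) (b (l 531191823) (a (l 16715896) (l 16708248)))) (a (b (b (l 531175183) (l 531074319)) (a (l 531278351) (l 530849551))) (b (a (l 16724896) (l 16714696)) (a (b (l 16727480) (l 530903311)) (b (l 16719952) (l 16723648))))))), by decide +kernel⟩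

def k36_B00pp_012_s1 : ∃ t, chk3 f_B00pp_012_s1 t 30 29 13 = true :=
  ⟨(a (a (b (b (a (l 531379215) (l 531256591)) (a (a (l 3) (l 531188751)) (l 531095311))) (l 3)) (b (b (a (l 531393295) (l 530982671)) (a (l 530962703) (l 530820111))) (b (a (l 530818063) (b (l 530980111) (l 531046671))) (a (l 3) (b (a (l 530887439) (l 530813199)) (l 3)))))) (b (a (b (a (l 530830863) (b (l 530983183) (l 530897167))) (a (b (l 530977295) (l 530899983)) (b (l 530815247) (a (l 530780175) (l 530696463))))) (b (a (b (l 530812687) (l 530726159)) (b (l 530634511) (l 530547215))) (a (b (a (l 530688527) (l 16741096)) (a (l 530610447) (l 530522127))) (b (a (l 16740056) (l 16733664)) (a (l 530432527) (l 16737896)))))) (a (a (b (b (a (l 530867727) (l 530788623)) (a (l 530799631) (l 530720527))) (b (a (l 530736399) (l 530657039)) (a (l 530678031) (l 530598415)))) (b (b (a (l 530707215) (l 530623247)) (a (l 530638607) (l 530554383))) (b (a (l 530574863) (l 530490127)) (a (b (l 530531087) (l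 530502927)) (b (l 530446095) (l 530417679)))))) (a (b (b (a (l 530536719) (l 530448143)) (a (l 530467343) (l 530378767))) (b (a (b (l 530419471) (l 530388495)) (l 530313999)) (a (a (l 530366223) (l 530321679)) (b (l 530269455) (l 530241039))))) (b (b (a (l 530358287) (l 530266127)) (a (l 530288655) (l 530196495))) (b (a (l 530223631) (l 530131471)) (a (b (l 530179343) (l 530150927)) (b (l 530087183) (l 530058511))))))))), by decide +kernel⟩

def k37_B00pp_012_s1 : ∃ t, chk3 f_B00pp_012_s1 t 30 15 13 = true :=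
  ⟨(b (a (l 3) (b (a (b (a (b (a (l 3) (b (l 530558479) (l 3))) (l 3)) (b (a (b (l 530476047) (a (l 3) (l 530429711))) (b (a (l 530412815) (l 530369295)) (l 530364687))) (a (l 3) (b (l 530340111) (l 530317071))))) (l 3)) (b (a (b (a (a (l 530311439) (l 530267151)) (b (l 530213647) (l 530187023))) (a (b (l 530252047) (a (l 530251279) (l 530206735))) (b (l 530163471) (l 530139919)))) (b (a (b (l 530123791) (l 530097935)) (b (l 530030863) (l 530004239))) (a (b (l 530072591) (l 530048015)) (b (l 529978127) (l 529952271))))) (a (b (a (b (l 530473999) (l 3)) (l 530101775)) (l 3)) (b (a (l 530009103) (l 529913103)) (a (b (l 529976591) (l 529956111)) (b (l 529880335) (l 529859599))))))) (a (l 3) (a (l 3) (a (l 3) (a (l 3) (l 14))))))) (l 3)), by decide +kernel⟩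

def k38_B00pp_012_s1 : ∃ t, chk3 f_B00pp_012_s1 t 31 14 13 = true :=
  ⟨(b (a (b (a (b (l 16692392) (a (l 16700144) (l 16691552))) (a (b (l 16676192) (l 16682432)) (l 16669504))) (a (b (a (l 16706656) (l 16698144)) (a (b (l 16711976) (l 16715720)) (l 16705408))) (b (a (l 16689112) (l 16679536)) (a (l 16701720) (l 16681760))))) (b (a (b (l 16629776) (l 16657192)) (a (l 16615848) (l 16603672))) (a (b (a (l 16669392) (l 16658640)) (a (l 16676960) (l 16666312))) (b (a (l 16647248) (l 16635192)) (a (l 16655024) (l 16643072)))))) (a (b (a (b (a (a (l 16723608) (l 16719576)) (a (l 16720664) (l 16711136))) (a (b (a (l 16729784) (l 16725792)) (a (l 16734048) (l 16730096))) (b (l 16719584) (a (l 16726016) (l 16721824))))) (b (a (b (l 16702424) (l 16706576)) (b (l 16693048) (l 16697256))) (a (b (a (l 16713096) (l 16708608)) (a (l 16717504) (l 16713048))) (b (l 16701616) (l 16700864))))) (a (b (a (b (a (l 16738432) (l 16737128)) (a (l 530102031) (l 16739024))) (b (a (l 16730472)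 (l 16726312)) (a (l 529905167) (l 16730904)))) (a (b (a (l 530036751) (l 529939215)) (a (l 529976079) (l 529877263))) (b (a (l 16739680) (l 529733647)) (a (l 529774863) (l 16740368))))) (b (a (b (a (l 16722024) (l 16717608)) (a (l 16726656) (l 16722272))) (b (a (l 16713048) (l 16708352)) (a (l 16717760) (l 14)))) (a (b (a (l 16731384) (l 16727048)) (a (l 16738824) (l 14))) (l 14))))) (b (a (b (a (l 16679960) (l 16674672)) (a (b (l 16691784) (l 16696344)) (l 16678408))) (b (a (l 16663504) (l 14)) (l 14))) (a (b (a (b (l 16701040) (l 14)) (l 14)) (l 14)) (l 14))))), by decide +kernel⟩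

def k39_B00pp_012_s1 : ∃ t, chk3 f_B00pp_012_s1 t 31 15 13 = true :=
  ⟨(a (b (a (b (b (a (b (a (l 529919247) (l 529818895)) (a (l 529865487) (l 529764111))) (b (a (l 529715471) (l 529608719)) (a (l 529659407) (l 14)))) (a (b (a (l 529814031) (l 529711887)) (a (b (l 529781007) (l 14)) (l 14))) (l 14))) (l 14)) (l 14)) (l 14)) (l 14)), by decide +kernel⟩

def k40_B00pp_012_s1 : ∃ t, chk3 f_B00pp_012_s1 t 6 3 14 = true :=
  ⟨(b (a (b (b (a (l 3) (a (l 3) (l 531731727))) (l 3)) (l 3)) (b (a (b (l 532010511) (a (l 3) (l 532305423))) (b (l 532919055) (a (l 532612367) (l 532975375)))) (a (l 3) (b (a (l 3) (l 532912399)) (l 3))))) (l 3)), by decide +kernel⟩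

def k41_B00pp_012_s1 : ∃ t, chk3 f_B00pp_012_s1 t 14 3 14 = true :=
  ⟨(b (b (a (b (l 533588495) (a (l 533328655) (l 533705743))) (b (a (l 16707304) (l 16686816)) (a (l 533696783) (l 533375503)))) (a (b (a (l 533276943) (l 533665551)) (a (b (l 533251599) (l 3)) (b (l 533450767) (l 533269519)))) (b (a (b (l 533460751) (l 533289231)) (a (l 533119759) (l 532437007))) (a (b (l 532839183) (a (l 533008143) (l 532823823))) (a (b (l 532851471) (l 532118031)) (b (l 532722703) (l 532278287))))))) (b (a (l 3) (b (a (b (a (l 532537615) (b (l 532672271) (a (l 532612111) (l 532514831)))) (l 3)) (b (a (b (a (l 532543503) (l 532505615)) (l 531885839)) (b (l 532387087) (l 532216591))) (a (b (l 532197903) (l 531993103)) (b (l 532011791) (l 531809551))))) (a (l 3) (a (l 3) (b (b (l 531623439) (l 3)) (l 3)))))) (l 3))), by decide +kernel⟩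

def k42_B00pp_012_s1 : ∃ t, chk3 f_B00pp_012_s1 t 15 6 14 = true :=
  ⟨(b (a (a (b (l 16663664) (b (l 16676888) (l 16644456))) (b (l 16636688) (b (l 16650600) (l 16660128)))) (a (b (l 16603240) (b (l 16617520) (l 16626928))) (b (l 16561344) (b (l 16575128) (l 16584384))))) (a (b (a (b (l 532030223) (a (l 16691080) (l 16700648))) (b (a (l 16677352) (l 16662648)) (a (l 16687792) (l 16672992)))) (a (b (a (l 532581647) (l 532390415)) (a (l 532108559) (l 531613455))) (b (a (l 532149007) (l 16683808)) (a (b (l 16707128) (l 531806479)) (b (l 16692288) (l 16698136)))))) (b (a (b (a (l 16645928) (l 16627016)) (a (l 16656224) (l 16637304))) (a (l 16610736) (l 16586896))) (a (b (a (l 16667048) (l 16648176)) (a (a (l 16682848) (l 16674008)) (l 16664976))) (b (a (l 16626952) (l 16603192)) (a (l 16638664) (l 16615064))))))), by decide +kernel⟩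

def k43_B00pp_012_s1 : ∃ t, chk3 f_B00pp_012_s1 t 30 28 14 = true :=
  ⟨(a (b (a (b (l 532178959) (l 531730703)) (b (l 531927567) (l 531738127))) (a (b (l 531518991) (a (l 531648527) (l 531527951))) (b (b (l 531311631) (l 531208207)) (b (l 531108367) (l 531012367))))) (b (a (b (l 531637519) (a (l 16728456) (l 16721528))) (b (l 531043087) (a (l 16714176) (l 16706400)))) (a (b (b (l 531013903) (l 530910223)) (b (l 530809871) (a (l 531063055) (l 530903823)))) (b (a (l 16723360) (l 16713016)) (a (b (l 16726080) (l 530735631)) (b (l 16718408) (l 16722200))))))), by decide +kernel⟩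

def k44_B00pp_012_s1 : ∃ t, chk3 f_B00pp_012_s1 t 30 29 14 = true :=
  ⟨(a (b (a (b (a (l 531195407) (l 531075087)) (a (a (l 3) (l 530999311)) (l 530907663))) (b (a (l 531214095) (l 530805519)) (a (l 530776847) (l 530636303)))) (a (l 3) (b (a (b (l 530931983) (l 530861071)) (b (l 530791439) (a (l 530757903) (l 530684943)))) (a (l 3) (b (a (l 530691855) (l 530618639)) (l 3)))))) (a (b (b (a (l 530655503) (b (l 530810895) (l 530721807))) (a (b (l 530797071) (l 530716431)) (b (l 530636559) (a (l 530598159) (l 530515215))))) (a (b (b (a (l 530680591) (l 530602511)) (a (l 530609167) (l 530531087))) (b (a (l 530542863) (l 530464527)) (a (l 530481423) (l 530402575)))) (b (b (a (l 530521871) (l 530438671)) (a (l 530450191) (l 530366735))) (b (a (l 530383375) (b (l 530316559) (l 530284303))) (a (b (l 530337039) (l 530307343)) (b (l 530253071) (l 530223119))))))) (b (b (a (b (l 530641935) (l 530552335)) (b (l 530466319) (l 530644495))) (a (b (a (l 530511119) (l 16740080))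 (a (l 530429967) (l 530342671))) (b (a (l 16736336) (l 16732496)) (a (l 530254607) (l 16736840))))) (a (b (b (a (l 530352911) (l 530265615)) (a (l 530280719) (l 530193167))) (b (a (b (l 530230287) (l 530197775)) (b (l 530142735) (l 530110223))) (a (a (l 530172943) (l 530129167)) (b (l 530078991) (l 530049039))))) (b (b (a (l 530177551) (l 530087695)) (a (l 530105103) (l 530015247))) (b (a (l 530037519) (l 529947919)) (a (b (l 529991439) (l 529961743)) (b (l 529902095) (l 529872655))))))))), by decide +kernel⟩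

def k45_B00pp_012_s1 : ∃ t, chk3 f_B00pp_012_s1 t 30 15 14 = true :=
  ⟨(b (a (l 3) (b (a (b (a (b (a (l 3) (b (l 530360591) (l 3))) (l 3)) (b (a (b (a (l 530299919) (l 530258447)) (a (l 3) (l 530231311))) (b (a (l 530216463) (l 530173455)) (l 530167311))) (a (l 3) (b (l 530141199) (l 530116367))))) (l 3)) (b (a (b (a (a (l 530115343) (l 530205711)) (b (l 530020367) (l 529992207))) (a (b (l 530053903) (a (l 530051599) (l 530007311))) (b (l 529967887) (l 529943311)))) (b (a (b (l 529933839) (l 529906703)) (b (l 529843727) (l 529815567))) (a (b (l 529880335) (l 529853455)) (b (l 529787663) (l 529759503))))) (a (b (a (a (l 3) (l 529965071)) (l 529900303)) (l 3)) (b (a (l 529809679) (l 529715727)) (a (b (l 529772815) (l 529749519)) (b (l 529678607) (l 529655055))))))) (a (l 3) (a (l 3) (a (l 3) (a (l 3) (l 14))))))) (l 3)), by decide +kernel⟩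

def k46_B00pp_012_s1 : ∃ t, chk3 f_B00pp_012_s1 t 31 14 14 = true :=
  ⟨(b (a (b (a (b (l 16690200) (a (l 16698168) (l 16689456))) (a (b (l 16673824) (l 16680216)) (l 16667088))) (a (b (a (l 16704848) (l 16690968)) (a (b (l 16710304) (l 16714144)) (l 16703648))) (b (a (l 16687048) (l 16677344)) (a (b (l 16692640) (l 16696576)) (l 16679744))))) (b (a (b (l 16648056) (l 16654648)) (a (l 16612992) (l 16600616))) (a (b (a (l 16667064) (l 16656152)) (a (l 16674792) (l 16663976))) (b (a (l 16644584) (l 16632312)) (a (l 16652488) (l 16640304)))))) (a (b (a (b (a (b (l 16718128) (a (l 16724288) (l 16720200))) (b (l 16709656) (a (l 16715992) (l 16711656)))) (a (b (a (l 16728544) (l 16724480)) (a (l 530072847) (l 16728888))) (b (l 16718168) (a (l 16724744) (l 16720472))))) (b (a (b (l 16700672) (l 16715408)) (b (l 16691152) (l 16695456))) (a (b (a (l 16711576) (l 16707016)) (a (l 16716080) (l 16711552))) (b (l 16699904) (l 16709728))))) (a (b (a (b (a (l 16737408) (l 529901071))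 (a (l 529923087) (l 529828623))) (b (a (l 16729304) (l 16725064)) (a (l 529730575) (l 16729768)))) (a (b (a (l 529856015) (l 529760527)) (a (l 529793039) (l 529696015))) (b (a (l 16738736) (l 529557775)) (a (l 529594895) (l 16739456))))) (b (a (b (a (l 16720704) (l 16716208)) (a (l 16725440) (l 16720976))) (b (a (l 16711568) (l 16706784)) (l 16714024))) (a (b (a (l 16730280) (l 16725848)) (a (l 16735200) (l 14))) (l 14))))) (b (a (b (a (l 16677960) (l 16672488)) (a (l 16692208) (l 16676376))) (b (a (l 16661104) (l 14)) (l 14))) (a (b (a (b (l 16699336) (l 14)) (l 14)) (l 14)) (l 14))))), by decide +kernel⟩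

def k47_B00pp_012_s1 : ∃ t, chk3 f_B00pp_012_s1 t 31 15 14 = true :=
  ⟨(a (b (b (a (b (a (b (a (l 530001935) (l 529634575)) (a (l 529944079) (l 529575183))) (b (a (l 529531919) (l 529425679)) (a (l 529470991) (l 14)))) (a (b (a (l 529886479) (l 529516815)) (a (b (l 529580559) (l 14)) (l 14))) (l 14))) (l 14)) (l 14)) (l 14)) (l 14)), by decide +kernel⟩

def k48_B00pp_012_s1 : ∃ t, chk3 f_B00pp_012_s1 t 6 3 15 = true :=
  ⟨(b (a (b (b (a (l 3) (a (l 3) (l 532009231))) (l 3)) (l 3)) (b (a (b (l 532007439) (a (l 3) (l 532301327))) (b (l 533164303) (b (l 533043983) (l 533035791)))) (a (l 3) (b (l 532988175) (l 3))))) (l 3)), by decide +kernel⟩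

def k49_B00pp_012_s1 : ∃ t, chk3 f_B00pp_012_s1 t 14 3 15 = true :=
  ⟨(b (b (a (b (l 533811983) (a (l 533562127) (l 533856783))) (b (a (l 16704072) (l 16683160)) (a (l 533554447) (b (l 16612240) (l 16663200))))) (a (b (a (l 533516559) (l 533540879)) (a (b (l 533497103) (l 3)) (b (l 533280783) (l 533090831)))) (b (a (b (l 533310479) (l 533132559)) (a (l 532434191) (l 532292111))) (a (a (b (l 533031695) (l 532834063)) (b (l 532855823) (l 532653071))) (a (b (l 532692495) (l 531951119)) (b (l 532568335) (l 532117007))))))) (b (a (l 3) (b (a (b (a (l 532622351) (b (l 532494607) (a (l 532428559) (l 532333071)))) (l 3)) (b (a (b (a (l 532368911) (l 532334095)) (l 531708175)) (b (l 532219151) (l 532043023))) (a (b (l 532013327) (l 531802127)) (b (l 531832079) (l 531623439))))) (a (l 3) (b (a (l 3) (b (l 531430671) (l 3))) (l 3))))) (l 3))), by decide +kernel⟩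

def k50_B00pp_012_s1 : ∃ t, chk3 f_B00pp_012_s1 t 15 6 15 = true :=
  ⟨(b (b (a (a (l 16659664) (l 16632400)) (a (l 16598704) (l 16556520))) (a (a (b (l 16673432) (l 16641360)) (b (l 16646824) (l 16656680))) (a (b (l 16613472) (l 16623176)) (b (l 16570752) (l 16580272))))) (a (b (a (b (l 531894031) (a (l 16688808) (l 16698160))) (b (a (l 16674320) (l 16659440)) (a (l 16685088) (l 16670088)))) (a (b (a (l 532432143) (l 532245007)) (a (l 531951631) (l 531460367))) (b (a (l 532007439) (l 16681224)) (a (a (l 16716736) (l 16704392)) (b (l 16689952) (l 16695960)))))) (b (a (b (a (l 16642552) (l 16623480)) (a (l 16653144) (l 16634040))) (a (l 16607136) (l 16583032))) (a (b (a (l 16664264) (l 16645184)) (a (a (l 16680424) (l 16671472)) (b (l 16654016) (l 16660136)))) (b (a (l 16623736) (l 16599688)) (a (l 16635712) (l 16611808))))))), by decide +kernel⟩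

def k51_B00pp_012_s1 : ∃ t, chk3 f_B00pp_012_s1 t 30 28 15 = true :=
  ⟨(a (b (a (b (l 532015375) (l 531561743)) (b (l 531767823) (l 531573007))) (a (b (l 531343631) (a (l 531465999) (l 531347471))) (b (b (l 531142159) (l 531035663)) (b (l 530933007) (l 530833935))))) (b (a (b (l 531481359) (a (l 16726976) (l 16719904))) (b (a (l 16706056) (l 16698104)) (a (l 16712408) (l 16704496)))) (a (b (b (l 530848271) (l 530741519)) (b (l 530638351) (a (l 530887695) (l 530730255)))) (b (a (b (l 16717408) (l 16720952)) (l 16711296)) (a (b (l 16724648) (l 530563599)) (b (l 16716832) (l 16720728))))))), by decide +kernel⟩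

def k52_B00pp_012_s1 : ∃ t, chk3 f_B00pp_012_s1 t 30 29 15 = true :=
  ⟨(a (b (a (b (a (l 531006479) (l 530888463)) (a (a (l 3) (l 530804239)) (l 530714639))) (b (a (l 531029775) (l 530623503)) (a (l 530586127) (l 530447887)))) (a (l 3) (b (b (a (l 530736143) (l 530597903)) (a (l 530661903) (a (l 530560271) (l 530488591)))) (b (a (l 3) (a (l 530491151) (l 530419215))) (l 3))))) (b (a (b (b (a (l 530791951) (l 530634255)) (a (l 530700303) (l 530542095))) (b (a (l 530612239) (a (l 530495503) (l 530413583))) (a (l 530528271) (a (l 530411279) (l 530329359))))) (b (a (b (l 530467087) (a (l 16738512) (l 16734760))) (b (l 530293775) (a (l 16730912) (l 16726968)))) (a (b (a (l 530329359) (l 16739040)) (a (l 530244879) (l 530158863))) (b (a (l 16735216) (l 16731296)) (a (l 530072591) (l 16735752)))))) (a (a (b (b (a (l 530488591) (l 530411535)) (a (l 530414095) (l 530336783))) (b (a (l 530344463) (l 530266895)) (a (l 530279695) (b (l 530218511) (l 530187535))))) (b (b (a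 (l 530331919) (l 530249487)) (a (l 530256911) (l 530174479))) (b (a (l 530186767) (b (l 530121999) (l 530087951))) (a (b (l 530138383) (l 530107151)) (b (l 530055439) (l 530023951)))))) (a (b (b (a (l 530164751) (l 530078735)) (a (l 530089231) (l 530003215))) (a (b (b (l 530036751) (l 530002447)) (a (l 529975311) (l 529931791))) (b (b (l 529950735) (l 529916687)) (b (l 529883919) (l 529852687))))) (b (b (a (l 529992463) (l 529904655)) (a (l 529917199) (l 529829903))) (b (a (l 529847055) (l 529760271)) (a (b (l 529799183) (l 529768463)) (b (l 529712911) (l 529682191))))))))), by decide +kernel⟩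

def k53_B00pp_012_s1 : ∃ t, chk3 f_B00pp_012_s1 t 30 15 15 = true :=
  ⟨(b (a (l 3) (b (a (b (a (b (a (l 3) (b (l 530157583) (l 3))) (l 3)) (b (a (b (a (l 530097935) (l 530056975)) (a (l 3) (l 530028303))) (b (a (l 530015247) (l 529973007)) (l 529964815))) (a (l 3) (b (l 529937167) (l 529911055))))) (l 3)) (b (a (b (a (a (l 530048783) (b (l 529886479) (l 529857551))) (b (l 529822735) (l 529792527))) (a (b (l 529851151) (a (l 529846799) (l 529803279))) (b (l 529767951) (l 529742095)))) (b (a (b (l 529739279) (l 529711375)) (b (l 529652239) (l 529622799))) (a (b (l 529683471) (l 529654543)) (b (l 529593103) (l 529562383))))) (a (b (a (a (l 3) (l 529756175)) (l 529693967)) (l 3)) (b (a (l 529605903) (l 529782287)) (a (b (l 529564431) (l 529538319)) (b (l 529472015) (l 529445903))))))) (a (l 3) (a (l 3) (a (l 3) (a (l 3) (l 14))))))) (l 3)), by decide +kernel⟩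

def k54_B00pp_012_s1 : ∃ t, chk3 f_B00pp_012_s1 t 31 14 15 = true :=
  ⟨(b (a (b (a (b (l 16687952) (a (l 16696144) (l 16687312))) (a (b (l 16671400) (l 16677952)) (l 16664616))) (a (b (a (l 16703000) (l 16694232)) (a (b (l 16708592) (l 16707280)) (l 16701848))) (b (a (l 16684944) (l 16675112)) (a (l 16692656) (l 16677680))))) (b (a (b (l 16645312) (l 16652048)) (a (l 16610072) (l 16597496))) (a (b (a (l 16664688) (l 16653616)) (a (l 16672576) (l 16661592))) (b (l 16635704) (a (l 16649904) (l 16637496)))))) (a (b (a (b (a (b (l 16716616) (a (l 16722912) (l 16718752))) (b (l 16708000) (a (l 16714472) (l 16710072)))) (a (b (a (l 16727272) (l 16723136)) (a (l 529894671) (l 16727656))) (b (l 16716720) (a (l 16723432) (l 16719096))))) (b (a (b (l 16698888) (l 16708472)) (l 16691400)) (a (b (a (l 16710016) (l 16705384)) (l 16712336)) (b (l 16698160) (l 16708080))))) (a (b (a (b (a (l 16736360) (l 529722895)) (a (l 529740303) (l 529648143))) (b (a (l 16728104) (l 16723800))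 (a (l 529552399) (l 16728608)))) (a (b (a (l 529670927) (l 529577999)) (a (l 529605903) (l 529510671))) (b (a (l 529480207) (l 16733520)) (a (l 529411087) (l 16738520))))) (b (a (b (a (l 16719360) (l 16714784)) (a (l 16724200) (l 16719656))) (b (a (l 16710056) (l 16705184)) (l 16712568))) (a (b (a (l 16729144) (l 16724632)) (a (l 16734176) (l 14))) (l 14))))) (b (a (b (a (l 16675912) (l 16670256)) (a (l 16690336) (l 16674304))) (b (a (l 16658664) (l 14)) (l 14))) (a (b (a (b (l 16697592) (l 14)) (l 14)) (l 14)) (l 14))))), by decide +kernel⟩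

def k55_B00pp_012_s1 : ∃ t, chk3 f_B00pp_012_s1 t 31 15 15 = true :=
  ⟨(a (b (b (a (b (a (b (a (b (l 529560079) (l 529529359)) (l 529714447)) (a (b (l 529498383) (l 529466895)) (l 529381903))) (b (a (l 529344271) (l 529238799)) (a (l 529278735) (l 14)))) (a (b (a (l 529686031) (l 529317647)) (a (b (l 529375759) (l 14)) (l 14))) (l 14))) (l 14)) (l 14)) (l 14)) (l 14)), by decide +kernel⟩

theorem t56_B00pp_012_s1 : ∃ t, chk3 f_B00pp_012_s1 t 31 7 15 = true := ex3_b k54_B00pp_012_s1 k55_B00pp_012_s1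

theorem t57_B00pp_012_s1 : ∃ t, chk3 f_B00pp_012_s1 t 30 14 15 = true := ex3_b k51_B00pp_012_s1 k52_B00pp_012_s1

theorem t58_B00pp_012_s1 : ∃ t, chk3 f_B00pp_012_s1 t 30 7 15 = true := ex3_b t57_B00pp_012_s1 k53_B00pp_012_s1

theorem t59_B00pp_012_s1 : ∃ t, chk3 f_B00pp_012_s1 t 15 7 15 = true := ex3_a t58_B00pp_012_s1 t56_B00pp_012_s1

theorem t60_B00pp_012_s1 : ∃ t, chk3 f_B00pp_012_s1 t 15 3 15 = true := ex3_b k50_B00pp_012_s1 t59_B00pp_012_s1

theorem t61_B00pp_012_s1 : ∃ t, chk3 f_B00pp_012_s1 t 7 3 15 = true := ex3_a k49_B00pp_012_s1 t60_B00pp_012_s1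

theorem t62_B00pp_012_s1 : ∃ t, chk3 f_B00pp_012_s1 t 3 3 15 = true := ex3_a k48_B00pp_012_s1 t61_B00pp_012_s1

theorem t63_B00pp_012_s1 : ∃ t, chk3 f_B00pp_012_s1 t 31 7 14 = true := ex3_b k46_B00pp_012_s1 k47_B00pp_012_s1

theorem t64_B00pp_012_s1 : ∃ t, chk3 f_B00pp_012_s1 t 30 14 14 = true := ex3_b k43_B00pp_012_s1 k44_B00pp_012_s1

theorem t65_B00pp_012_s1 : ∃ t, chk3 f_B00pp_012_s1 t 30 7 14 = true := ex3_b t64_B00pp_012_s1 k45_B00pp_012_s1

theorem t66_B00pp_012_s1 : ∃ t, chk3 f_B00pp_012_s1 t 15 7 14 = true := ex3_a t65_B00pp_012_s1 t63_B00pp_012_s1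

theorem t67_B00pp_012_s1 : ∃ t, chk3 f_B00pp_012_s1 t 15 3 14 = true := ex3_b k42_B00pp_012_s1 t66_B00pp_012_s1

theorem t68_B00pp_012_s1 : ∃ t, chk3 f_B00pp_012_s1 t 7 3 14 = true := ex3_a k41_B00pp_012_s1 t67_B00pp_012_s1

theorem t69_B00pp_012_s1 : ∃ t, chk3 f_B00pp_012_s1 t 3 3 14 = true := ex3_a k40_B00pp_012_s1 t68_B00pp_012_s1

theorem t70_B00pp_012_s1 : ∃ t, chk3 f_B00pp_012_s1 t 3 3 7 = true := ex3_c t69_B00pp_012_s1 t62_B00pp_012_s1

theorem t71_B00pp_012_s1 : ∃ t, chk3 f_B00pp_012_s1 t 31 7 13 = true := ex3_b k38_B00pp_012_s1 k39_B00pp_012_s1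

theorem t72_B00pp_012_s1 : ∃ t, chk3 f_B00pp_012_s1 t 30 14 13 = true := ex3_b k35_B00pp_012_s1 k36_B00pp_012_s1

theorem t73_B00pp_012_s1 : ∃ t, chk3 f_B00pp_012_s1 t 30 7 13 = true := ex3_b t72_B00pp_012_s1 k37_B00pp_012_s1

theorem t74_B00pp_012_s1 : ∃ t, chk3 f_B00pp_012_s1 t 15 7 13 = true := ex3_a t73_B00pp_012_s1 t71_B00pp_012_s1

theorem t75_B00pp_012_s1 : ∃ t, chk3 f_B00pp_012_s1 t 15 3 13 = true := ex3_b k34_B00pp_012_s1 t74_B00pp_012_s1

theorem t76_B00pp_012_s1 : ∃ t, chk3 f_B00pp_012_s1 t 7 3 13 = true := ex3_a k33_B00pp_012_s1 t75_B00pp_012_s1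

theorem t77_B00pp_012_s1 : ∃ t, chk3 f_B00pp_012_s1 t 3 3 13 = true := ex3_a k32_B00pp_012_s1 t76_B00pp_012_s1

theorem t78_B00pp_012_s1 : ∃ t, chk3 f_B00pp_012_s1 t 31 7 12 = true := ex3_b k30_B00pp_012_s1 k31_B00pp_012_s1

theorem t79_B00pp_012_s1 : ∃ t, chk3 f_B00pp_012_s1 t 30 7 12 = true := ex3_b k28_B00pp_012_s1 k29_B00pp_012_s1

theorem t80_B00pp_012_s1 : ∃ t, chk3 f_B00pp_012_s1 t 15 7 12 = true := ex3_a t79_B00pp_012_s1 t78_B00pp_012_s1

theorem t81_B00pp_012_s1 : ∃ t, chk3 f_B00pp_012_s1 t 7 7 12 = true := ex3_a k27_B00pp_012_s1 t80_B00pp_012_s1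

theorem t82_B00pp_012_s1 : ∃ t, chk3 f_B00pp_012_s1 t 7 3 12 = true := ex3_b k26_B00pp_012_s1 t81_B00pp_012_s1

theorem t83_B00pp_012_s1 : ∃ t, chk3 f_B00pp_012_s1 t 3 3 12 = true := ex3_a k25_B00pp_012_s1 t82_B00pp_012_s1

theorem t84_B00pp_012_s1 : ∃ t, chk3 f_B00pp_012_s1 t 3 3 6 = true := ex3_c t83_B00pp_012_s1 t77_B00pp_012_s1

theorem t85_B00pp_012_s1 : ∃ t, chk3 f_B00pp_012_s1 t 3 3 3 = true := ex3_c t84_B00pp_012_s1 t70_B00pp_012_s1

theorem t86_B00pp_012_s1 : ∃ t, chk3 f_B00pp_012_s1 t 31 7 11 = true := ex3_b k23_B00pp_012_s1 k24_B00pp_012_s1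

theorem t87_B00pp_012_s1 : ∃ t, chk3 f_B00pp_012_s1 t 30 7 11 = true := ex3_b k21_B00pp_012_s1 k22_B00pp_012_s1

theorem t88_B00pp_012_s1 : ∃ t, chk3 f_B00pp_012_s1 t 15 7 11 = true := ex3_a t87_B00pp_012_s1 t86_B00pp_012_s1

theorem t89_B00pp_012_s1 : ∃ t, chk3 f_B00pp_012_s1 t 7 7 11 = true := ex3_a k20_B00pp_012_s1 t88_B00pp_012_s1

theorem t90_B00pp_012_s1 : ∃ t, chk3 f_B00pp_012_s1 t 7 3 11 = true := ex3_b k19_B00pp_012_s1 t89_B00pp_012_s1

theorem t91_B00pp_012_s1 : ∃ t, chk3 f_B00pp_012_s1 t 3 3 11 = true := ex3_a k18_B00pp_012_s1 t90_B00pp_012_s1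

theorem t92_B00pp_012_s1 : ∃ t, chk3 f_B00pp_012_s1 t 30 7 10 = true := ex3_b k15_B00pp_012_s1 k16_B00pp_012_s1

theorem t93_B00pp_012_s1 : ∃ t, chk3 f_B00pp_012_s1 t 15 7 10 = true := ex3_a t92_B00pp_012_s1 k17_B00pp_012_s1

theorem t94_B00pp_012_s1 : ∃ t, chk3 f_B00pp_012_s1 t 7 7 10 = true := ex3_a k14_B00pp_012_s1 t93_B00pp_012_s1

theorem t95_B00pp_012_s1 : ∃ t, chk3 f_B00pp_012_s1 t 7 3 10 = true := ex3_b k13_B00pp_012_s1 t94_B00pp_012_s1

theorem t96_B00pp_012_s1 : ∃ t, chk3 f_B00pp_012_s1 t 3 3 10 = true := ex3_a k12_B00pp_012_s1 t95_B00pp_012_s1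

theorem t97_B00pp_012_s1 : ∃ t, chk3 f_B00pp_012_s1 t 3 3 5 = true := ex3_c t96_B00pp_012_s1 t91_B00pp_012_s1

theorem t98_B00pp_012_s1 : ∃ t, chk3 f_B00pp_012_s1 t 31 7 4 = true := ex3_b k10_B00pp_012_s1 k11_B00pp_012_s1

theorem t99_B00pp_012_s1 : ∃ t, chk3 f_B00pp_012_s1 t 30 7 4 = true := ex3_b k8_B00pp_012_s1 k9_B00pp_012_s1

theorem t100_B00pp_012_s1 : ∃ t, chk3 f_B00pp_012_s1 t 15 7 4 = true := ex3_a t99_B00pp_012_s1 t98_B00pp_012_s1

theorem t101_B00pp_012_s1 : ∃ t, chk3 f_B00pp_012_s1 t 7 7 4 = true := ex3_a k7_B00pp_012_s1 t100_B00pp_012_s1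

theorem t102_B00pp_012_s1 : ∃ t, chk3 f_B00pp_012_s1 t 7 3 4 = true := ex3_b k6_B00pp_012_s1 t101_B00pp_012_s1

theorem t103_B00pp_012_s1 : ∃ t, chk3 f_B00pp_012_s1 t 3 3 4 = true := ex3_a k5_B00pp_012_s1 t102_B00pp_012_s1

theorem t104_B00pp_012_s1 : ∃ t, chk3 f_B00pp_012_s1 t 3 3 2 = true := ex3_c t103_B00pp_012_s1 t97_B00pp_012_s1

theorem t105_B00pp_012_s1 : ∃ t, chk3 f_B00pp_012_s1 t 3 3 1 = true := ex3_c t104_B00pp_012_s1 t85_B00pp_012_s1

theorem t106_B00pp_012_s1 : ∃ t, chk3 f_B00pp_012_s1 t 1 3 1 = true := ex3_a k4_B00pp_012_s1 t105_B00pp_012_s1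

theorem t107_B00pp_012_s1 : ∃ t, chk3 f_B00pp_012_s1 t 6 2 1 = true := ex3_b k1_B00pp_012_s1 k2_B00pp_012_s1

theorem t108_B00pp_012_s1 : ∃ t, chk3 f_B00pp_012_s1 t 3 2 1 = true := ex3_a t107_B00pp_012_s1 k3_B00pp_012_s1

theorem t109_B00pp_012_s1 : ∃ t, chk3 f_B00pp_012_s1 t 1 2 1 = true := ex3_a k0_B00pp_012_s1 t108_B00pp_012_s1

theorem t110_B00pp_012_s1 : ∃ t, chk3 f_B00pp_012_s1 t 1 1 1 = true := ex3_b t109_B00pp_012_s1 t106_B00pp_012_s1

theorem c_B00pp_012_s1 : CertF 0 536870912 0 536870912 923417968 42949674 false true true .pnp 0 1 2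
    ndB0q0 ndB0q2 pcB1 cut_B00pp_012_s1 xt_B00pp_012_s1 :=
  certF2 (fam := false) (s1 := true) (s2 := true) (a := 0) (b := 1) (c := 2) (cn := .pnp) (n1 := ndB0q0) (n2 := ndB0q2) (pc := pcB1) (cut := cut_B00pp_012_s1) (xt := xt_B00pp_012_s1) (P1 := 0) (W1 := 536870912) (P2 := 0) (W2 := 536870912) (P3 := 923417968) (W3 := 42949674)
    rfl (fun _ => rfl) t110_B00pp_012_s1

theorem s_B00pp_012_s1 {κ x : ℝ} (hκ : κ * h0 = ken x) (hx : ((923417968 : ℕ) : ℝ) / S ≤ x)
    (hx' : x ≤ (((923417968 : ℕ) : ℝ) + (42949674 : ℕ)) / S)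
    (H : CutB (VFD κ) PP tK tL pcB (Cut.of [[⟨0, 0, 0, 67108864⟩, ⟨1, 1, 0, 67108864⟩, ⟨2, 1, 0, 67108864⟩]]) 0 1 2 0 0 (sgb true) (sgb true) x) :
    AltB (VFD κ) PP tK tL pcB [⟨3, 0, 0, 1449551462⟩] 0 1 2 0 0 (sgb true) (sgb true) x :=
  strip_altBD (m := 1449551462) true rfl hκ (SH.κ0 hκ (SH.hx1 hx).le (SH.hx2 hx').le) (SH.hx1 hx).le (SH.hx2 hx') (covB00).cov (covB02).cov hx hx' c_B00pp_012_s1 H ((okx hx hx').extB (T := tt) (sideB hx hx') hκ rfl rfl (.O 0 true) (.O 2 true) (Or.inr rfl))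

noncomputable def cut_B00pp_012_s3 : Cut := Cut.of [[⟨3, 0, 0, 2845415833⟩], [⟨0, 0, 0, 67108864⟩, ⟨1, 1, 0, 67108864⟩, ⟨2, 1, 0, 67108864⟩]]

noncomputable def f_B00pp_012_s3 : ℕ → ℕ → ℕ → ℕ → Bool := onCell 0 536870912 0 536870912 923417968 42949674
    (rowF 0 false true true .pnp 0 1 2 (qsf 0 536870912 0 536870912 1) ndB0q0 ndB0q2 pcB1 cut_B00pp_012_s3 Ext.none)

def k0_B00pp_012_s3 : ∃ t, chk3 f_B00pp_012_s3 t 1 1 1 = true :=
  ⟨(l 6), by decide +kernel⟩

theorem c_B00pp_012_s3 : CertF 0 536870912 0 536870912 923417968 42949674 false true true .pnp 0 1 2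
    ndB0q0 ndB0q2 pcB1 cut_B00pp_012_s3 Ext.none :=
  certF0 (fam := false) (s1 := true) (s2 := true) (a := 0) (b := 1) (c := 2) (cn := .pnp) (n1 := ndB0q0) (n2 := ndB0q2) (pc := pcB1) (cut := cut_B00pp_012_s3) (xt := Ext.none) (P1 := 0) (W1 := 536870912) (P2 := 0) (W2 := 536870912) (P3 := 923417968) (W3 := 42949674)
    rfl k0_B00pp_012_s3

theorem s_B00pp_012_s3 {κ x : ℝ} (hκ : κ * h0 = ken x) (hx : ((923417968 : ℕ) : ℝ) / S ≤ x)
    (hx' : x ≤ (((923417968 : ℕ) : ℝ) + (42949674 : ℕ)) / S)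
    (H : CutB (VFD κ) PP tK tL pcB (Cut.of [[⟨0, 0, 0, 67108864⟩, ⟨1, 1, 0, 67108864⟩, ⟨2, 1, 0, 67108864⟩]]) 0 1 2 0 0 (sgb true) (sgb true) x) :
    AltB (VFD κ) PP tK tL pcB [⟨4, 0, 0, 2845415833⟩] 0 1 2 0 0 (sgb true) (sgb true) x :=
  strip_altBD (m := 2845415833) false rfl hκ (SH.κ0 hκ (SH.hx1 hx).le (SH.hx2 hx').le) (SH.hx1 hx).le (SH.hx2 hx') (covB00).cov (covB02).cov hx hx' c_B00pp_012_s3 H (noExt_B)

noncomputable def cut_B00pp_022_s1 : Cut := Cut.of [[⟨4, 0, 0, 1449551462⟩], [⟨0, 0, 0, 67108864⟩, ⟨1, 1, 0, 67108864⟩, ⟨2, 1, 0, 67108864⟩]]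

noncomputable def f_B00pp_022_s1 : ℕ → ℕ → ℕ → ℕ → Bool := onCell 1073741824 536870912 0 536870912 923417968 42949674
    (rowF 2 false true true .pp 0 2 2 (qsf 0 536870912 0 536870912 2) ndB0q0 ndB0q2 pcB2 cut_B00pp_022_s1 Ext.none)

def k0_B00pp_022_s1 : ∃ t, chk3 f_B00pp_022_s1 t 4 2 1 = true :=
  ⟨(a (b (l 6) (a (b (l 6) (b (l 6) (a (a (b (c (l 16526016) (l 16534624)) (a (c (l 16510224) (l 16558248)) (l 16527368))) (c (l 16546280) (l 16537512))) (b (l 6) (a (l 16524144) (l 16492008)))))) (l 6))) (l 6)), by decide +kernel⟩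

def k1_B00pp_022_s1 : ∃ t, chk3 f_B00pp_022_s1 t 8 12 1 = true :=
  ⟨(a (a (a (b (a (c (b (a (l 16518904) (l 16547032)) (b (l 16516560) (l 16512920))) (b (l 16548160) (l 16518208))) (b (c (l 16557696) (l 16564856)) (c (l 16551072) (l 16557176)))) (c (a (b (a (b (l 16526384) (l 16522944)) (l 16532960)) (a (b (l 16519528) (l 16516152)) (l 16526696))) (b (l 16545272) (l 16539808))) (b (a (l 16510168) (l 16550440)) (c (l 16533104) (l 16534728))))) (a (b (b (l 16534472) (l 16570456)) (b (l 16523416) (l 16560624))) (b (l 16547232) (b (l 16582752) (l 16579152))))) (b (a (c (l 16520880) (l 16536320)) (l 16530824)) (a (b (l 16524496) (l 16522544)) (l 16539128)))) (a (b (a (c (l 16483296) (l 16464024)) (c (l 16533072) (l 16509056))) (a (l 16493728) (l 16453064))) (b (a (c (l 16498616) (l 16469760)) (l 16358352)) (a (l 16412056) (c (l 16473344) (l 16435192)))))), by decide +kernel⟩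

def k2_B00pp_022_s1 : ∃ t, chk3 f_B00pp_022_s1 t 8 13 1 = true :=
  ⟨(a (a (b (a (c (b (c (b (l 16505224) (l 16523344)) (l 16483616)) (a (c (l 16509672) (l 16509176)) (l 16528984))) (b (l 16485160) (l 16520368))) (c (b (l 16561784) (l 16557856)) (l 16505296))) (b (a (a (c (l 16502872) (l 16501416)) (l 16482472)) (l 16494472)) (a (b (c (a (a (l 16492424) (l 16503144)) (l 16519080)) (a (a (c (l 16490080) (l 16488736)) (l 16502016)) (l 16520816))) (a (a (c (b (b (b (a (l 16487728) (l 16493136)) (l 16491640)) (l 16495216)) (l 16491896)) (b (b (b (a (b (l 16484040) (c (l 16484760) (b (l 16483016) (l 16483056)))) (l 16490328)) (a (c (l 16486192) (l 16484488)) (l 16491384))) (c (l 16492752) (l 16480848))) (c (l 16500048) (a (l 16495592) (l 16501824))))) (c (b (b (b (l 16501272) (l 16501904)) (l 16505344)) (l 16512432)) (b (b (b (l 16499920) (a (l 16497472) (l 16503568))) (l 16504056)) (l 16511312)))) (c (b (b (l 16517440) (l 16520424)) (l 16527408)) (b (b (a (l 16512704)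 (l 16525160)) (l 16522024)) (l 16529152))))) (a (b (l 16500704) (b (b (l 16530496) (l 16532488)) (l 16539304))) (b (l 16565128) (b (b (l 16563776) (l 16564792)) (l 16571192))))))) (c (b (b (l 16530744) (l 16529576)) (b (l 16528128) (b (l 16526688) (a (b (l 16590040) (l 16595424)) (l 16547424))))) (b (l 16537976) (b (l 16546672) (b (l 16545552) (a (l 16545344) (l 16570320))))))) (c (b (a (l 16506528) (l 16422488)) (a (b (l 16525848) (b (l 16536680) (a (l 16567032) (l 16520296)))) (a (b (l 16542336) (a (l 16565720) (l 16542216))) (b (l 16497256) (a (l 16518680) (l 16495144)))))) (b (a (l 16479992) (l 16382712)) (a (b (l 16496856) (b (l 16506392) (a (l 16539776) (l 16485352)))) (b (b (l 16474592) (l 16478320)) (b (a (l 16509408) (l 16455512)) (a (l 16514424) (l 16459488)))))))), by decide +kernel⟩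

def k3_B00pp_022_s1 : ∃ t, chk3 f_B00pp_022_s1 t 16 14 1 = true :=
  ⟨(a (b (a (a (c (b (b (a (c (l 16517456) (l 16515944)) (l 16526576)) (a (c (l 16536288) (l 16535024)) (l 16545320))) (b (c (l 16559336) (a (l 16553792) (l 16563712))) (l 14))) (b (b (c (a (a (l 16511776) (l 16517432)) (l 16525904)) (a (a (b (l 16505432) (l 16515264)) (l 16516512)) (l 16525712))) (c (a (a (l 16531152) (l 16536696)) (l 16545000)) (a (b (l 16528104) (l 16537848)) (l 16545032)))) (b (b (a (c (l 16548232) (l 16547488)) (l 16559200)) (l 14)) (l 14)))) (b (c (b (l 16541320) (l 16559752)) (b (a (l 16537520) (l 16549200)) (a (l 16556480) (l 16567928)))) (b (c (l 16577864) (a (l 16575136) (l 16586328))) (l 14)))) (c (a (b (a (l 16544144) (l 16574672)) (b (l 16596456) (l 14))) (b (l 16588888) (b (l 16614800) (l 14)))) (a (b (b (l 16566616) (l 16584984)) (b (l 16603008) (l 14))) (b (l 16556760) (l 16581176))))) (l 14)) (b (a (b (c (c (l 16529416) (l 16536664)) (l 16569440)) (b (c (l 16557912)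 (l 16573648)) (l 14))) (b (c (l 16569248) (l 16586936)) (b (l 16589408) (l 14)))) (l 14))), by decide +kernel⟩

def k4_B00pp_022_s1 : ∃ t, chk3 f_B00pp_022_s1 t 17 14 1 = true :=
  ⟨(a (b (a (b (c (l 16561904) (l 16534040)) (b (a (l 16552848) (l 16549288)) (l 14))) (b (c (b (l 16518784) (l 16513568)) (c (l 16573704) (l 16555048))) (b (c (l 16550632) (c (l 16566216) (l 16547536))) (l 14)))) (l 14)) (b (b (a (a (c (l 16565360) (l 16524192)) (c (a (l 16547992) (l 16536384)) (l 16497248))) (c (b (a (l 16521512) (l 16519112)) (a (l 16516608) (b (l 16494584) (l 16492256)))) (b (a (l 16472768) (l 16445640)) (a (l 16468032) (l 16483120))))) (a (b (c (a (l 16558160) (l 16535144)) (a (l 16517080) (l 16490440))) (l 14)) (a (b (b (c (l 16513168) (l 16464792)) (l 14)) (l 14)) (c (b (b (l 139619438215) (l 91837922999)) (c (l 58015063815) (l 16472920))) (b (c (l 16450600) (l 16423512)) (c (l 16447288) (l 16420512))))))) (a (l 14) (a (l 14) (l 1))))), by decide +kernel⟩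

def k5_B00pp_022_s1 : ∃ t, chk3 f_B00pp_022_s1 t 8 15 1 = true :=
  ⟨(a (l 14) (a (l 14) (l 1))), by decide +kernel⟩

def k6_B00pp_022_s1 : ∃ t, chk3 f_B00pp_022_s1 t 9 3 1 = true :=
  ⟨(b (b (b (l 6) (a (c (a (l 16415784) (l 16255760)) (a (b (l 16369248) (l 16368680)) (b (l 6) (l 16279088)))) (l 6))) (a (b (b (c (a (l 16420200) (l 16338552)) (a (l 16368880) (l 16275064))) (c (a (l 16424384) (l 46203534535)) (a (l 16370040) (l 16272064)))) (a (b (a (a (l 16438008) (l 16413832)) (c (l 16407368) (l 16346680))) (c (b (a (l 16457864) (l 148209257815)) (a (a (l 16473952) (l 16450272)) (a (l 132103160583) (l 1)))) (a (c (l 16396928) (l 16388224)) (a (l 115996916183) (l 426308249911))))) (a (b (c (l 432750617783) (l 16295616)) (l 1)) (l 1)))) (a (a (b (b (l 16285160) (l 1)) (l 1)) (l 1)) (l 1)))) (b (a (b (c (a (a (a (b (b (b (l 16475872) (l 16473648)) (b (l 16492296) (l 110628387959))) (b (b (l 69826194407) (l 1)) (l 1))) (b (b (c (b (l 16466448) (l 16464392)) (l 92911562407))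 (l 83784819095)) (l 1))) (b (b (a (b (l 207265092503) (l 1)) (l 1)) (l 1)) (l 1))) (l 1)) (a (b (a (b (c (b (l 16400016) (l 16419024)) (l 16368608)) (a (l 104185848567) (l 16429528))) (b (c (l 156262212775) (l 16375624)) (l 1))) (a (b (a (l 57478071799) (l 1)) (l 1)) (l 1))) (l 1))) (l 1)) (l 1)) (l 1))), by decide +kernel⟩

def k7_B00pp_022_s1 : ∃ t, chk3 f_B00pp_022_s1 t 5 1 1 = true :=
  ⟨(b (l 6) (b (l 1) (l 1))), by decide +kernel⟩

def k8_B00pp_022_s1 : ∃ t, chk3 f_B00pp_022_s1 t 3 1 1 = true :=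
  ⟨(l 1), by decide +kernel⟩

theorem t9_B00pp_022_s1 : ∃ t, chk3 f_B00pp_022_s1 t 8 14 1 = true := ex3_a k3_B00pp_022_s1 k4_B00pp_022_s1

theorem t10_B00pp_022_s1 : ∃ t, chk3 f_B00pp_022_s1 t 8 7 1 = true := ex3_b t9_B00pp_022_s1 k5_B00pp_022_s1

theorem t11_B00pp_022_s1 : ∃ t, chk3 f_B00pp_022_s1 t 8 6 1 = true := ex3_b k1_B00pp_022_s1 k2_B00pp_022_s1

theorem t12_B00pp_022_s1 : ∃ t, chk3 f_B00pp_022_s1 t 8 3 1 = true := ex3_b t11_B00pp_022_s1 t10_B00pp_022_s1

theorem t13_B00pp_022_s1 : ∃ t, chk3 f_B00pp_022_s1 t 4 3 1 = true := ex3_a t12_B00pp_022_s1 k6_B00pp_022_s1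

theorem t14_B00pp_022_s1 : ∃ t, chk3 f_B00pp_022_s1 t 4 1 1 = true := ex3_b k0_B00pp_022_s1 t13_B00pp_022_s1

theorem t15_B00pp_022_s1 : ∃ t, chk3 f_B00pp_022_s1 t 2 1 1 = true := ex3_a t14_B00pp_022_s1 k7_B00pp_022_s1

theorem t16_B00pp_022_s1 : ∃ t, chk3 f_B00pp_022_s1 t 1 1 1 = true := ex3_a t15_B00pp_022_s1 k8_B00pp_022_s1

theorem c_B00pp_022_s1 : CertF 0 536870912 0 536870912 923417968 42949674 false true true .pp 0 2 2
    ndB0q0 ndB0q2 pcB2 cut_B00pp_022_s1 Ext.none :=
  certF2 (fam := false) (s1 := true) (s2 := true) (a := 0) (b := 2) (c := 2) (cn := .pp) (n1 := ndB0q0) (n2 := ndB0q2) (pc := pcB2) (cut := cut_B00pp_022_s1) (xt := Ext.none) (P1 := 0) (W1 := 536870912) (P2 := 0) (W2 := 536870912) (P3 := 923417968) (W3 := 42949674)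
    rfl (fun _ => rfl) t16_B00pp_022_s1

theorem s_B00pp_022_s1 {κ x : ℝ} (hκ : κ * h0 = ken x) (hx : ((923417968 : ℕ) : ℝ) / S ≤ x)
    (hx' : x ≤ (((923417968 : ℕ) : ℝ) + (42949674 : ℕ)) / S)
    (H : CutB (VFD κ) PP tK tL pcB (Cut.of [[⟨0, 0, 0, 67108864⟩, ⟨1, 1, 0, 67108864⟩, ⟨2, 1, 0, 67108864⟩]]) 0 2 2 0 0 (sgb true) (sgb true) x) :
    AltB (VFD κ) PP tK tL pcB [⟨3, 0, 0, 1449551462⟩] 0 2 2 0 0 (sgb true) (sgb true) x :=
  strip_altBD (m := 1449551462) true rfl hκ (SH.κ0 hκ (SH.hx1 hx).le (SH.hx2 hx').le) (SH.hx1 hx).le (SH.hx2 hx') (covB00).cov (covB02).cov hx hx' c_B00pp_022_s1 H (noExt_B)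

noncomputable def cut_B00pp_022_s3 : Cut := Cut.of [[⟨3, 0, 0, 2845415833⟩], [⟨0, 0, 0, 67108864⟩, ⟨1, 1, 0, 67108864⟩, ⟨2, 1, 0, 67108864⟩]]

noncomputable def f_B00pp_022_s3 : ℕ → ℕ → ℕ → ℕ → Bool := onCell 0 536870912 0 536870912 923417968 42949674
    (rowF 0 false true true .pp 0 2 2 (qsf 0 536870912 0 536870912 2) ndB0q0 ndB0q2 pcB2 cut_B00pp_022_s3 Ext.none)

def k0_B00pp_022_s3 : ∃ t, chk3 f_B00pp_022_s3 t 1 1 1 = true :=
  ⟨(l 6), by decide +kernel⟩

theorem c_B00pp_022_s3 : CertF 0 536870912 0 536870912 923417968 42949674 false true true .pp 0 2 2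
    ndB0q0 ndB0q2 pcB2 cut_B00pp_022_s3 Ext.none :=
  certF0 (fam := false) (s1 := true) (s2 := true) (a := 0) (b := 2) (c := 2) (cn := .pp) (n1 := ndB0q0) (n2 := ndB0q2) (pc := pcB2) (cut := cut_B00pp_022_s3) (xt := Ext.none) (P1 := 0) (W1 := 536870912) (P2 := 0) (W2 := 536870912) (P3 := 923417968) (W3 := 42949674)
    rfl k0_B00pp_022_s3

theorem s_B00pp_022_s3 {κ x : ℝ} (hκ : κ * h0 = ken x) (hx : ((923417968 : ℕ) : ℝ) / S ≤ x)
    (hx' : x ≤ (((923417968 : ℕ) : ℝ) + (42949674 : ℕ)) / S)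
    (H : CutB (VFD κ) PP tK tL pcB (Cut.of [[⟨0, 0, 0, 67108864⟩, ⟨1, 1, 0, 67108864⟩, ⟨2, 1, 0, 67108864⟩]]) 0 2 2 0 0 (sgb true) (sgb true) x) :
    AltB (VFD κ) PP tK tL pcB [⟨4, 0, 0, 2845415833⟩] 0 2 2 0 0 (sgb true) (sgb true) x :=
  strip_altBD (m := 2845415833) false rfl hκ (SH.κ0 hκ (SH.hx1 hx).le (SH.hx2 hx').le) (SH.hx1 hx).le (SH.hx2 hx') (covB00).cov (covB02).cov hx hx' c_B00pp_022_s3 H (noExt_B)

noncomputable def cut_B00pp_101_s1 : Cut := Cut.of [[⟨4, 0, 0, 1449551462⟩]]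

noncomputable def f_B00pp_101_s1 : ℕ → ℕ → ℕ → ℕ → Bool := onCell 536870912 536870912 536870912 536870912 923417968 42949674
    (rowF 0 false true true .npn 1 0 1 (qsf 536870912 536870912 536870912 536870912 0) ndB0q1 ndB0q1 pcB0 cut_B00pp_101_s1 Ext.none)

def k0_B00pp_101_s1 : ∃ t, chk3 f_B00pp_101_s1 t 1 1 1 = true :=
  ⟨(l 3), by decide +kernel⟩

theorem c_B00pp_101_s1 : CertF 536870912 536870912 536870912 536870912 923417968 42949674 false true true .npn 1 0 1
    ndB0q1 ndB0q1 pcB0 cut_B00pp_101_s1 Ext.none :=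
  certF0 (fam := false) (s1 := true) (s2 := true) (a := 1) (b := 0) (c := 1) (cn := .npn) (n1 := ndB0q1) (n2 := ndB0q1) (pc := pcB0) (cut := cut_B00pp_101_s1) (xt := Ext.none) (P1 := 536870912) (W1 := 536870912) (P2 := 536870912) (W2 := 536870912) (P3 := 923417968) (W3 := 42949674)
    rfl k0_B00pp_101_s1

theorem s_B00pp_101_s1 {κ x : ℝ} (hκ : κ * h0 = ken x) (hx : ((923417968 : ℕ) : ℝ) / S ≤ x)
    (hx' : x ≤ (((923417968 : ℕ) : ℝ) + (42949674 : ℕ)) / S) :
    AltB (VFD κ) PP tK tL pcB [⟨3, 0, 0, 1449551462⟩] 1 0 1 0 0 (sgb true) (sgb true) x :=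
  strip_altBD (m := 1449551462) true rfl hκ (SH.κ0 hκ (SH.hx1 hx).le (SH.hx2 hx').le) (SH.hx1 hx).le (SH.hx2 hx') (covB01).cov (covB01).cov hx hx' c_B00pp_101_s1 cutB_nil (noExt_B)

noncomputable def cut_B00pp_101_s3 : Cut := Cut.of [[⟨3, 0, 0, 2845415833⟩]]

noncomputable def f_B00pp_101_s3 : ℕ → ℕ → ℕ → ℕ → Bool := onCell 536870912 536870912 536870912 536870912 923417968 42949674
    (rowF 0 false true true .npn 1 0 1 (qsf 536870912 536870912 536870912 536870912 0) ndB0q1 ndB0q1 pcB0 cut_B00pp_101_s3 Ext.none)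

def k0_B00pp_101_s3 : ∃ t, chk3 f_B00pp_101_s3 t 1 1 1 = true :=
  ⟨(l 3), by decide +kernel⟩

theorem c_B00pp_101_s3 : CertF 536870912 536870912 536870912 536870912 923417968 42949674 false true true .npn 1 0 1
    ndB0q1 ndB0q1 pcB0 cut_B00pp_101_s3 Ext.none :=
  certF0 (fam := false) (s1 := true) (s2 := true) (a := 1) (b := 0) (c := 1) (cn := .npn) (n1 := ndB0q1) (n2 := ndB0q1) (pc := pcB0) (cut := cut_B00pp_101_s3) (xt := Ext.none) (P1 := 536870912) (W1 := 536870912) (P2 := 536870912) (W2 := 536870912) (P3 := 923417968) (W3 := 42949674)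
    rfl k0_B00pp_101_s3

theorem s_B00pp_101_s3 {κ x : ℝ} (hκ : κ * h0 = ken x) (hx : ((923417968 : ℕ) : ℝ) / S ≤ x)
    (hx' : x ≤ (((923417968 : ℕ) : ℝ) + (42949674 : ℕ)) / S) :
    AltB (VFD κ) PP tK tL pcB [⟨4, 0, 0, 2845415833⟩] 1 0 1 0 0 (sgb true) (sgb true) x :=
  strip_altBD (m := 2845415833) false rfl hκ (SH.κ0 hκ (SH.hx1 hx).le (SH.hx2 hx').le) (SH.hx1 hx).le (SH.hx2 hx') (covB01).cov (covB01).cov hx hx' c_B00pp_101_s3 cutB_nil (noExt_B)

noncomputable def cut_B00pp_102_s1 : Cut := Cut.of [[⟨4, 0, 0, 1449551462⟩]]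

noncomputable def f_B00pp_102_s1 : ℕ → ℕ → ℕ → ℕ → Bool := onCell 0 536870912 0 536870912 923417968 42949674
    (rowF 2 false true true .npp 1 0 2 (qsf 536870912 536870912 0 536870912 0) ndB0q1 ndB0q2 pcB0 cut_B00pp_102_s1 Ext.none)

def k0_B00pp_102_s1 : ∃ t, chk3 f_B00pp_102_s1 t 1 1 1 = true :=
  ⟨(a (b (l 3) (l 3)) (l 3)), by decide +kernel⟩

theorem c_B00pp_102_s1 : CertF 536870912 536870912 0 536870912 923417968 42949674 false true true .npp 1 0 2
    ndB0q1 ndB0q2 pcB0 cut_B00pp_102_s1 Ext.none :=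
  certF2 (fam := false) (s1 := true) (s2 := true) (a := 1) (b := 0) (c := 2) (cn := .npp) (n1 := ndB0q1) (n2 := ndB0q2) (pc := pcB0) (cut := cut_B00pp_102_s1) (xt := Ext.none) (P1 := 536870912) (W1 := 536870912) (P2 := 0) (W2 := 536870912) (P3 := 923417968) (W3 := 42949674)
    rfl (fun _ => rfl) k0_B00pp_102_s1

theorem s_B00pp_102_s1 {κ x : ℝ} (hκ : κ * h0 = ken x) (hx : ((923417968 : ℕ) : ℝ) / S ≤ x)
    (hx' : x ≤ (((923417968 : ℕ) : ℝ) + (42949674 : ℕ)) / S) :
    AltB (VFD κ) PP tK tL pcB [⟨3, 0, 0, 1449551462⟩] 1 0 2 0 0 (sgb true) (sgb true) x :=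
  strip_altBD (m := 1449551462) true rfl hκ (SH.κ0 hκ (SH.hx1 hx).le (SH.hx2 hx').le) (SH.hx1 hx).le (SH.hx2 hx') (covB01).cov (covB02).cov hx hx' c_B00pp_102_s1 cutB_nil (noExt_B)

noncomputable def cut_B00pp_102_s3 : Cut := Cut.of [[⟨3, 0, 0, 2845415833⟩]]

noncomputable def f_B00pp_102_s3 : ℕ → ℕ → ℕ → ℕ → Bool := onCell 536870912 536870912 0 536870912 923417968 42949674
    (rowF 0 false true true .npp 1 0 2 (qsf 536870912 536870912 0 536870912 0) ndB0q1 ndB0q2 pcB0 cut_B00pp_102_s3 Ext.none)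

def k0_B00pp_102_s3 : ∃ t, chk3 f_B00pp_102_s3 t 1 1 1 = true :=
  ⟨(l 6), by decide +kernel⟩

theorem c_B00pp_102_s3 : CertF 536870912 536870912 0 536870912 923417968 42949674 false true true .npp 1 0 2
    ndB0q1 ndB0q2 pcB0 cut_B00pp_102_s3 Ext.none :=
  certF0 (fam := false) (s1 := true) (s2 := true) (a := 1) (b := 0) (c := 2) (cn := .npp) (n1 := ndB0q1) (n2 := ndB0q2) (pc := pcB0) (cut := cut_B00pp_102_s3) (xt := Ext.none) (P1 := 536870912) (W1 := 536870912) (P2 := 0) (W2 := 536870912) (P3 := 923417968) (W3 := 42949674)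
    rfl k0_B00pp_102_s3

theorem s_B00pp_102_s3 {κ x : ℝ} (hκ : κ * h0 = ken x) (hx : ((923417968 : ℕ) : ℝ) / S ≤ x)
    (hx' : x ≤ (((923417968 : ℕ) : ℝ) + (42949674 : ℕ)) / S) :
    AltB (VFD κ) PP tK tL pcB [⟨4, 0, 0, 2845415833⟩] 1 0 2 0 0 (sgb true) (sgb true) x :=
  strip_altBD (m := 2845415833) false rfl hκ (SH.κ0 hκ (SH.hx1 hx).le (SH.hx2 hx').le) (SH.hx1 hx).le (SH.hx2 hx') (covB01).cov (covB02).cov hx hx' c_B00pp_102_s3 cutB_nil (noExt_B)

noncomputable def cut_B00pp_112_s1 : Cut := Cut.of [[⟨4, 0, 0, 1449551462⟩]]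

noncomputable def xt_B00pp_112_s1 : Ext := strExt dd false true true .u0 .u2 .u0m .dn 1 1 2 rfl rfl gf1 vv ndB0q1 ndB0q2

noncomputable def f_B00pp_112_s1 : ℕ → ℕ → ℕ → ℕ → Bool := onCell 536870912 536870912 0 536870912 923417968 42949674
    (rowF 0 false true true .dn 1 1 2 (qsf 536870912 536870912 0 536870912 1) ndB0q1 ndB0q2 pcB1 cut_B00pp_112_s1 xt_B00pp_112_s1)

def k0_B00pp_112_s1 : ∃ t, chk3 f_B00pp_112_s1 t 1 1 1 = true :=
  ⟨(a (b (a (b (a (a (a (b (c (l 528153103) (l 529413903)) (b (b (l 528423183) (l 3)) (l 3))) (b (c (l 527777807) (l 529091599)) (l 3))) (b (c (a (l 527392015) (l 526993679)) (b (l 528719631) (l 528460303))) (l 3))) (a (b (a (c (l 526580751) (l 528055567)) (l 3)) (l 3)) (l 3))) (l 3)) (l 3)) (l 3)) (l 1)), by decide +kernel⟩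

theorem c_B00pp_112_s1 : CertF 536870912 536870912 0 536870912 923417968 42949674 false true true .dn 1 1 2
    ndB0q1 ndB0q2 pcB1 cut_B00pp_112_s1 xt_B00pp_112_s1 :=
  certF0 (fam := false) (s1 := true) (s2 := true) (a := 1) (b := 1) (c := 2) (cn := .dn) (n1 := ndB0q1) (n2 := ndB0q2) (pc := pcB1) (cut := cut_B00pp_112_s1) (xt := xt_B00pp_112_s1) (P1 := 536870912) (W1 := 536870912) (P2 := 0) (W2 := 536870912) (P3 := 923417968) (W3 := 42949674)
    rfl k0_B00pp_112_s1

theorem s_B00pp_112_s1 {κ x : ℝ} (hκ : κ * h0 = ken x) (hx : ((923417968 : ℕ) : ℝ) / S ≤ x)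
    (hx' : x ≤ (((923417968 : ℕ) : ℝ) + (42949674 : ℕ)) / S) :
    AltB (VFD κ) PP tK tL pcB [⟨3, 0, 0, 1449551462⟩] 1 1 2 0 0 (sgb true) (sgb true) x :=
  strip_altBD (m := 1449551462) true rfl hκ (SH.κ0 hκ (SH.hx1 hx).le (SH.hx2 hx').le) (SH.hx1 hx).le (SH.hx2 hx') (covB01).cov (covB02).cov hx hx' c_B00pp_112_s1 cutB_nil ((okx hx hx').extB (T := tt) (sideB hx hx') hκ rfl rfl (.O 1 true) (.O 2 true) (Or.inr rfl))

noncomputable def cut_B00pp_112_s3 : Cut := Cut.of [[⟨3, 0, 0, 2845415833⟩]]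

noncomputable def f_B00pp_112_s3 : ℕ → ℕ → ℕ → ℕ → Bool := onCell 536870912 536870912 0 536870912 923417968 42949674
    (rowF 0 false true true .dn 1 1 2 (qsf 536870912 536870912 0 536870912 1) ndB0q1 ndB0q2 pcB1 cut_B00pp_112_s3 Ext.none)

def k0_B00pp_112_s3 : ∃ t, chk3 f_B00pp_112_s3 t 1 1 1 = true :=
  ⟨(l 6), by decide +kernel⟩

theorem c_B00pp_112_s3 : CertF 536870912 536870912 0 536870912 923417968 42949674 false true true .dn 1 1 2
    ndB0q1 ndB0q2 pcB1 cut_B00pp_112_s3 Ext.none :=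
  certF0 (fam := false) (s1 := true) (s2 := true) (a := 1) (b := 1) (c := 2) (cn := .dn) (n1 := ndB0q1) (n2 := ndB0q2) (pc := pcB1) (cut := cut_B00pp_112_s3) (xt := Ext.none) (P1 := 536870912) (W1 := 536870912) (P2 := 0) (W2 := 536870912) (P3 := 923417968) (W3 := 42949674)
    rfl k0_B00pp_112_s3

theorem s_B00pp_112_s3 {κ x : ℝ} (hκ : κ * h0 = ken x) (hx : ((923417968 : ℕ) : ℝ) / S ≤ x)
    (hx' : x ≤ (((923417968 : ℕ) : ℝ) + (42949674 : ℕ)) / S) :
    AltB (VFD κ) PP tK tL pcB [⟨4, 0, 0, 2845415833⟩] 1 1 2 0 0 (sgb true) (sgb true) x :=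
  strip_altBD (m := 2845415833) false rfl hκ (SH.κ0 hκ (SH.hx1 hx).le (SH.hx2 hx').le) (SH.hx1 hx).le (SH.hx2 hx') (covB01).cov (covB02).cov hx hx' c_B00pp_112_s3 cutB_nil (noExt_B)

noncomputable def cut_B00pp_202_s1 : Cut := Cut.of [[⟨4, 0, 0, 1449551462⟩]]

noncomputable def f_B00pp_202_s1 : ℕ → ℕ → ℕ → ℕ → Bool := onCell 0 536870912 0 536870912 923417968 42949674
    (rowF 0 false true true .pp 2 0 2 (qsf 0 536870912 0 536870912 0) ndB0q2 ndB0q2 pcB0 cut_B00pp_202_s1 Ext.none)

def k0_B00pp_202_s1 : ∃ t, chk3 f_B00pp_202_s1 t 1 1 1 = true :=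
  ⟨(l 3), by decide +kernel⟩

theorem c_B00pp_202_s1 : CertF 0 536870912 0 536870912 923417968 42949674 false true true .pp 2 0 2
    ndB0q2 ndB0q2 pcB0 cut_B00pp_202_s1 Ext.none :=
  certF0 (fam := false) (s1 := true) (s2 := true) (a := 2) (b := 0) (c := 2) (cn := .pp) (n1 := ndB0q2) (n2 := ndB0q2) (pc := pcB0) (cut := cut_B00pp_202_s1) (xt := Ext.none) (P1 := 0) (W1 := 536870912) (P2 := 0) (W2 := 536870912) (P3 := 923417968) (W3 := 42949674)
    rfl k0_B00pp_202_s1

theorem s_B00pp_202_s1 {κ x : ℝ} (hκ : κ * h0 = ken x) (hx : ((923417968 : ℕ) : ℝ) / S ≤ x)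
    (hx' : x ≤ (((923417968 : ℕ) : ℝ) + (42949674 : ℕ)) / S) :
    AltB (VFD κ) PP tK tL pcB [⟨3, 0, 0, 1449551462⟩] 2 0 2 0 0 (sgb true) (sgb true) x :=
  strip_altBD (m := 1449551462) true rfl hκ (SH.κ0 hκ (SH.hx1 hx).le (SH.hx2 hx').le) (SH.hx1 hx).le (SH.hx2 hx') (covB02).cov (covB02).cov hx hx' c_B00pp_202_s1 cutB_nil (noExt_B)

noncomputable def cut_B00pp_202_s3 : Cut := Cut.of [[⟨3, 0, 0, 2845415833⟩]]

noncomputable def f_B00pp_202_s3 : ℕ → ℕ → ℕ → ℕ → Bool := onCell 0 536870912 0 536870912 923417968 42949674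
    (rowF 0 false true true .pp 2 0 2 (qsf 0 536870912 0 536870912 0) ndB0q2 ndB0q2 pcB0 cut_B00pp_202_s3 Ext.none)

def k0_B00pp_202_s3 : ∃ t, chk3 f_B00pp_202_s3 t 1 1 1 = true :=
  ⟨(l 3), by decide +kernel⟩

theorem c_B00pp_202_s3 : CertF 0 536870912 0 536870912 923417968 42949674 false true true .pp 2 0 2
    ndB0q2 ndB0q2 pcB0 cut_B00pp_202_s3 Ext.none :=
  certF0 (fam := false) (s1 := true) (s2 := true) (a := 2) (b := 0) (c := 2) (cn := .pp) (n1 := ndB0q2) (n2 := ndB0q2) (pc := pcB0) (cut := cut_B00pp_202_s3) (xt := Ext.none) (P1 := 0) (W1 := 536870912) (P2 := 0) (W2 := 536870912) (P3 := 923417968) (W3 := 42949674)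
    rfl k0_B00pp_202_s3

theorem s_B00pp_202_s3 {κ x : ℝ} (hκ : κ * h0 = ken x) (hx : ((923417968 : ℕ) : ℝ) / S ≤ x)
    (hx' : x ≤ (((923417968 : ℕ) : ℝ) + (42949674 : ℕ)) / S) :
    AltB (VFD κ) PP tK tL pcB [⟨4, 0, 0, 2845415833⟩] 2 0 2 0 0 (sgb true) (sgb true) x :=
  strip_altBD (m := 2845415833) false rfl hκ (SH.κ0 hκ (SH.hx1 hx).le (SH.hx2 hx').le) (SH.hx1 hx).le (SH.hx2 hx') (covB02).cov (covB02).cov hx hx' c_B00pp_202_s3 cutB_nil (noExt_B)

noncomputable def cut_B00pm_001_s1 : Cut := Cut.of [[⟨4, 0, 0, 1449551462⟩]]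

noncomputable def f_B00pm_001_s1 : ℕ → ℕ → ℕ → ℕ → Bool := onCell 0 536870912 536870912 536870912 923417968 42949674
    (rowF 0 false true false .up 0 0 1 (qsf 0 536870912 536870912 536870912 0) ndB0q0 ndB0q1 pcB0 cut_B00pm_001_s1 Ext.none)

def k0_B00pm_001_s1 : ∃ t, chk3 f_B00pm_001_s1 t 1 1 1 = true :=
  ⟨(l 6), by decide +kernel⟩

theorem c_B00pm_001_s1 : CertF 0 536870912 536870912 536870912 923417968 42949674 false true false .up 0 0 1
    ndB0q0 ndB0q1 pcB0 cut_B00pm_001_s1 Ext.none :=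
  certF0 (fam := false) (s1 := true) (s2 := false) (a := 0) (b := 0) (c := 1) (cn := .up) (n1 := ndB0q0) (n2 := ndB0q1) (pc := pcB0) (cut := cut_B00pm_001_s1) (xt := Ext.none) (P1 := 0) (W1 := 536870912) (P2 := 536870912) (W2 := 536870912) (P3 := 923417968) (W3 := 42949674)
    rfl k0_B00pm_001_s1

theorem s_B00pm_001_s1 {κ x : ℝ} (hκ : κ * h0 = ken x) (hx : ((923417968 : ℕ) : ℝ) / S ≤ x)
    (hx' : x ≤ (((923417968 : ℕ) : ℝ) + (42949674 : ℕ)) / S) :
    AltB (VFD κ) PP tK tL pcB [⟨3, 0, 0, 1449551462⟩] 0 0 1 0 0 (sgb true) (sgb false) x :=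
  strip_altBD (m := 1449551462) true rfl hκ (SH.κ0 hκ (SH.hx1 hx).le (SH.hx2 hx').le) (SH.hx1 hx).le (SH.hx2 hx') (covB00).cov (covB01).cov hx hx' c_B00pm_001_s1 cutB_nil (noExt_B)

end Pool.Agent.Strip051.G.I8600_9000.Tab.St.C
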