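import Pool.Agent.Strip051.G.I8600_9000.StH
import Pool.Agent.Strip051.G.I8600_9000.StF

/-! # Unit strips 14 (generated) -/

set_option linter.all false
set_option maxRecDepth 100000

namespace Pool.Agent.Strip051.G.I8600_9000.Tab.St.C

open Pool.Agent.Strip051.PB Pool.Agent.Strip051.PB.T Pool.Agent.StripNear Pool.Agent.Strip051.LC
open Pool.Agent.Strip051.G.I8600_9000.Tab Pool.Agent.Strip051.G.I8600_9000.Tab.St

noncomputable def cut_B00pm_001_s3 : Cut := Cut.of [[⟨3, 0, 0, 2845415833⟩]]

noncomputable def xt_B00pm_001_s3 : Ext := strExt dd false true false .u0 .u0m .s0m .up 0 0 1 rfl rfl gl0 vv ndB0q0 ndB0q1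

noncomputable def f_B00pm_001_s3 : ℕ → ℕ → ℕ → ℕ → Bool := onCell 0 536870912 0 536870912 923417968 42949674
    (rowF 1 false true false .up 0 0 1 (qsf 0 536870912 536870912 536870912 0) ndB0q0 ndB0q1 pcB0 cut_B00pm_001_s3 xt_B00pm_001_s3)

def k0_B00pm_001_s3 : ∃ t, chk3 f_B00pm_001_s3 t 2 1 1 = true :=
  ⟨(l 4), by decide +kernel⟩

def k1_B00pm_001_s3 : ∃ t, chk3 f_B00pm_001_s3 t 3 2 1 = true :=
  ⟨(a (l 4) (b (l 4) (b (a (l 4) (a (l 4) (a (a (l 4) (a (l 4) (b (l 4) (b (l 4) (l 531564303))))) (b (a (l 4) (c (l 531178767) (l 531417615))) (b (c (c (l 531344655) (l 531482383)) (l 531729167)) (c (l 531463951) (l 531779855))))))) (a (l 4) (b (b (a (l 4) (c (a (l 531409423) (l 531502607)) (a (l 531723535) (l 531800847)))) (a (a (l 4) (b (l 531500559) (l 531510543))) (c (a (l 531442191) (l 531534607)) (l 531758863)))) (a (c (c (b (l 531241743) (l 531271183)) (l 531408399)) (b (l 531552527) (l 531429135))) (a (b (c (l 531469071) (l 531701263)) (c (l 531494927) (l 531589647))) (b (c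 (l 531559951) (l 531790863)) (c (c (l 531523599) (l 531662863)) (l 531699471)))))))))), by decide +kernel⟩

def k2_B00pm_001_s3 : ∃ t, chk3 f_B00pm_001_s3 t 6 6 1 = true :=
  ⟨(l 4), by decide +kernel⟩

def k3_B00pm_001_s3 : ∃ t, chk3 f_B00pm_001_s3 t 12 7 1 = true :=
  ⟨(b (l 4) (a (l 4) (a (l 4) (a (l 4) (b (l 4) (b (l 4) (a (l 4) (b (l 4) (c (l 531031567) (l 529683727)))))))))), by decide +kernel⟩

def k4_B00pm_001_s3 : ∃ t, chk3 f_B00pm_001_s3 t 13 14 1 = true :=
  ⟨(a (l 4) (b (a (l 4) (c (b (l 531310607) (c (l 531902223) (l 531288079))) (b (l 529468943) (b (l 529694479) (a (l 529664015) (l 529673487)))))) (c (a (b (c (l 531915023) (l 531303183)) (c (l 532061199) (l 531389455))) (b (c (l 532072207) (l 531361807)) (a (c (l 532174863) (l 531432463)) (c (l 532247311) (l 531459343))))) (b (a (b (l 529625103) (l 529606415)) (c (l 530261775) (a (l 528968719) (l 528972559)))) (a (b (l 529591823) (l 529581839)) (a (b (l 529606927) (l 529596943)) (b (l 529615375) (c (l 530281231)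 (l 528889871))))))))), by decide +kernel⟩

def k5_B00pm_001_s3 : ∃ t, chk3 f_B00pm_001_s3 t 26 15 1 = true :=
  ⟨(b (c (a (b (l 4) (a (l 4) (c (l 531991055) (l 531504399)))) (b (c (l 532022287) (l 531430159)) (c (b (l 532086287) (l 530770703)) (a (l 531537423) (l 530226703))))) (a (b (l 4) (a (l 4) (b (l 4) (l 529558799)))) (c (b (l 530233359) (a (l 530009103) (l 530028303))) (b (l 528833551) (a (b (l 528811791) (l 528809999)) (b (l 528820239) (l 528818959))))))) (b (c (a (c (a (c (l 531731727) (l 532181775)) (c (l 530728975) (l 532252687))) (a (c (l 531896335) (l 531318031)) (c (l 531934479) (l 531081487)))) (c (b (c (l 531906063) (l 532345871)) (l 531589135)) (c (l 531987727) (l 531126031)))) (c (a (a (l 530049295) (b (l 530315535) (l 530365967))) (b (l 530078223) (l 530398223))) (a (a (b (l 4) (l 528810255)) (b (l 528806159) (l 528822287))) (b (a (l 528816911) (l 528826639)) (l 528838415))))) (c (a (c (a (c (l 531697679) (l 532189711)) (c (l 531759119) (l 532252175))) (a (l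 531527183) (l 531832079))) (c (a (l 530724879) (c (l 531878159) (l 532372495))) (c (l 532180495) (l 531562767)))) (c (a (a (l 530437647) (l 530461455)) (a (l 530484495) (l 530506511))) (a (a (b (l 528837647) (l 528875535)) (l 528867343)) (a (l 528879887) (l 528354319))))))), by decide +kernel⟩

def k6_B00pm_001_s3 : ∃ t, chk3 f_B00pm_001_s3 t 27 15 1 = true :=
  ⟨(b (c (a (a (b (c (l 532135695) (l 531476495)) (c (l 531398671) (l 530793743))) (b (b (l 531439631) (l 531242511)) (c (l 532270351) (l 531627791)))) (a (b (c (l 532277263) (l 531532815)) (c (l 532333583) (l 531655183))) (b (c (l 532344079) (l 531558927)) (c (l 531589135) (l 531681295))))) (a (b (b (a (l 529572367) (l 529583119)) (a (b (l 529573135) (l 529575951)) (b (l 529583887) (l 529586959)))) (b (a (b (l 529580559) (l 529586959)) (l 529058063)) (c (l 530340879) (l 528830223)))) (c (b (a (b (l 530281743) (l 530302223)) (l 530305807)) (b (l 530336783) (a (l 530365455) (l 530379791)))) (b (a (b (l 528863503) (l 528847631))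 (b (l 528867343) (l 528851471))) (b (l 528841231) (a (l 528839439) (l 528844047))))))) (c (b (b (a (c (l 531985167) (l 531721999)) (c (c (l 532148495) (l 532580879)) (l 530703631))) (a (c (l 530904591) (l 531536399)) (c (c (l 532120079) (l 532584463)) (l 531054863)))) (a (c (b (a (l 531392783) (l 531176975)) (a (l 531086351) (l 531127567))) (c (l 531980047) (l 531620367))) (c (c (a (l 532018447) (l 532051727)) (l 532532239)) (c (l 532307727) (l 531670287))))) (c (b (a (a (l 530401551) (l 530150927)) (b (l 530148367) (l 530202127))) (a (b (l 530231567) (l 530305807)) (a (l 530563855) (l 530579727)))) (b (a (b (l 528838671) (l 528856847)) (b (a (l 528848655) (l 528853775)) (a (l 528868111) (l 528873743)))) (a (a (l 528364815) (l 528374287)) (a (l 528382735) (l 528389903))))))), by decide +kernel⟩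

def k7_B00pm_001_s3 : ∃ t, chk3 f_B00pm_001_s3 t 14 6 1 = true :=
  ⟨(b (a (l 4) (b (a (l 4) (c (c (l 531169039) (l 531324687)) (l 530971663))) (c (a (b (l 4) (c (a (l 531158031) (l 531206159)) (l 531180303))) (a (b (l 531298319) (c (b (l 531246095) (l 531301135)) (l 531281679))) (b (c (l 531259151) (l 531371023)) (b (l 531403279) (l 531485199))))) (b (a (l 4) (a (l 530610959) (l 530134031))) (a (a (a (l 4) (l 530285071)) (b (l 530384143) (l 530276367))) (b (a (l 530445071) (l 530509327)) (a (l 530350607) (l 530425615)))))))) (b (a (a (l 4) (a (a (l 4) (b (l 4) (b (l 4) (l 529463055)))) (b (b (l 4) (c (l 530471695) (l 530028815))) (c (l 531395599) (l 529985551))))) (b (b (a (c (a (c (l 531201551) (l 531109903)) (c (l 531277327) (l 531184655))) (a (l 530115087) (b (l 530203663) (l 530161679)))) (c (c (l 531430415) (l 531325967)) (l 530309647))) (a (a (c (c (l 531256591) (l 531101455)) (a (l 530015759) (l 530061327))) (c (l 531420431) (l 530120975))) (c (l 531566863) (l 530242319))))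 (a (a (c (l 530644495) (l 530006287)) (c (l 531516431) (l 530048015))) (c (c (l 531710991) (l 531376655)) (b (l 530181647) (l 530125583)))))) (a (a (b (a (l 4) (c (l 531440911) (l 529893903))) (c (l 531544335) (l 529822479))) (c (b (l 531508495) (c (l 531817487) (l 531277839))) (b (l 529913103) (b (l 529860879) (l 529825807))))) (a (a (c (b (l 531575055) (l 531417103)) (b (l 529932047) (l 529857807))) (c (b (l 531632399) (l 531197199)) (b (l 529963791) (b (l 529901071) (l 529860623))))) (c (b (c (l 531932175) (l 531415311)) (a (l 530722063) (c (l 532141583) (l 531482895)))) (b (b (l 530072335) (l 530020879)) (b (a (l 529945615) (l 529998863)) (a (l 529900303) (l 529949199))))))))), by decide +kernel⟩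

def k8_B00pm_001_s3 : ∃ t, chk3 f_B00pm_001_s3 t 15 12 1 = true :=
  ⟨(a (b (c (b (a (l 531338255) (c (l 531352591) (l 531502351))) (a (c (l 531291407) (l 531446287)) (c (a (l 531367695) (l 531430415)) (l 532092943)))) (b (a (l 531191567) (l 531303183)) (a (a (l 530950671) (l 531007759)) (b (l 531149583) (l 531050511))))) (b (b (a (a (c (l 531384591) (l 530783247)) (c (l 531441423) (l 530845711))) (c (l 531566863) (l 530964495))) (a (c (c (l 531370255) (l 531466511)) (a (l 530677007) (l 530755855))) (c (l 531650831) (l 530884623)))) (b (a (c (l 531005199) (l 530632463)) (c (l 531744783) (l 530806287))) (c (a (l 531641359) (l 531845391)) (a (l 530556175) (l 530727695)))))) (b (b (a (c (a (l 531506191) (l 531564303)) (l 531421199)) (c (c (l 531607055) (l 531749135)) (l 531568143))) (a (c (c (l 531825679) (l 531708431)) (l 531254287)) (c (c (l 531744783) (l 531894287)) (l 531427599)))) (c (a (b (c (l 531713295) (l 531826447)) (c (l 531891215) (l 531873039))) (b (b (l 531950607)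 (l 532039183)) (c (l 532077071) (l 532052751)))) (a (b (b (l 531137551) (l 531058191)) (b (l 530977039) (l 530894351))) (a (b (l 531227663) (l 531059215)) (b (l 531311887) (l 531138575))))))), by decide +kernel⟩

def k9_B00pm_001_s3 : ∃ t, chk3 f_B00pm_001_s3 t 15 13 1 = true :=
  ⟨(b (a (b (b (a (c (l 531709455) (l 530481679)) (c (l 531901967) (l 530648847))) (c (c (l 532112655) (l 531622415)) (a (l 530407951) (l 530569743)))) (c (a (c (l 531904527) (l 531548431)) (c (l 532088335) (l 531717647))) (a (b (l 530338063) (l 530271503)) (b (l 530492943) (l 530150159))))) (c (c (a (b (l 532076815) (l 532260111)) (b (l 532250383) (c (l 532346383) (l 532432399)))) (a (b (l 531886351) (l 531880975)) (b (l 532054543) (c (l 532196367) (l 531856655))))) (b (a (b (l 530810383) (l 530725903)) (b (l 530965519) (l 530876175))) (b (a (l 530643215) (l 530788111)) (a (c (l 531049231) (l 530041103)) (c (l 531192335) (l 530177551))))))) (a (c (c (a (b (l 532109583) (l 532252943)) (b (l 532277775)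 (c (l 532356623) (l 532273935)))) (a (b (l 531633679) (c (l 531787279) (l 531361807))) (b (l 531719439) (b (l 531719951) (l 531721487))))) (a (a (b (b (l 530173199) (l 530114063)) (b (l 530057231) (l 529734927))) (b (b (l 530242319) (l 530178831)) (b (l 530118159) (a (l 530045967) (l 530074895))))) (c (b (a (l 530793231) (l 530863375)) (a (l 530707215) (b (l 530792207) (l 530748431)))) (b (b (l 529806863) (l 529716495)) (b (l 529629455) (a (l 529517327) (l 529574671))))))) (c (a (a (b (b (l 532166927) (l 531652111)) (c (l 532508687) (l 531823375))) (b (b (l 531975695) (l 531457807)) (c (l 532577039) (l 531889423)))) (a (b (c (l 532541199) (l 531976975)) (l 6)) (l 6))) (c (b (a (a (l 530932751) (l 531001359)) (b (l 531130895) (l 6))) (a (a (b (l 16442552) (l 530809615)) (b (l 16413640) (l 6))) (l 6))) (a (b (b (l 529941263) (a (l 529812751) (l 16361136))) (b (a (l 529720847) (l 529781007)) (a (l 529632271) (l 6)))) (b (b (a (l 16344072) (l 6)) (l 6)) (l 6))))))), by decide +kernel⟩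

def k10_B00pm_001_s3 : ∃ t, chk3 f_B00pm_001_s3 t 28 14 1 = true :=
  ⟨(b (c (b (a (l 530585103) (c (l 532025359) (l 531337487))) (a (c (l 532059407) (l 531345423)) (c (l 532172559) (l 531397135)))) (b (a (b (l 529773839) (l 529742351)) (b (l 529791503) (l 529758223))) (a (b (l 529712911) (l 529685519)) (b (a (l 529724175) (l 529730063)) (a (l 529695759) (c (l 530322959) (l 529042703))))))) (a (c (c (b (c (l 532075023) (l 532071951)) (l 532082447)) (b (b (l 531396367) (l 531433743)) (b (l 531474447) (l 531518735)))) (b (b (a (l 529658127) (l 529665039)) (a (l 529638159) (c (l 530294031) (l 528957455)))) (c (b (l 530291215) (l 530299663)) (b (a (l 528921359) (l 528922895)) (a (l 528892431) (l 528894223)))))) (c (b (c (l 532315151) (l 531530255)) (c (c (l 532316175) (l 532272911)) (b (l 531520271) (l 531563791)))) (c (b (b (l 530311695) (l 530309903)) (b (l 530312719) (l 529783823))) (b (b (a (l 528997903) (l 528998159)) (a (l 528958223) (l 528958223))) (b (a (l 528923663) (l 528923407))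 (a (l 528894735) (l 528894223)))))))), by decide +kernel⟩

def k11_B00pm_001_s3 : ∃ t, chk3 f_B00pm_001_s3 t 29 14 1 = true :=
  ⟨(b (a (c (b (a (c (l 532093455) (l 531377167)) (c (l 532143375) (l 531412239))) (c (l 531985935) (a (l 531432975) (l 531463183)))) (b (a (b (l 529802511) (l 529767951)) (b (l 529821711) (b (l 529793551) (l 529775631)))) (c (a (b (l 530342927) (l 530332943)) (l 530357007)) (a (b (l 529091599) (l 529042703)) (b (l 529102095) (l 529051663)))))) (b (c (c (l 532234255) (a (l 531459855) (l 531514895))) (b (a (l 529588751) (c (l 530482191) (l 529286927))) (a (c (l 530413583) (l 529184783)) (c (l 530458383) (l 529223183))))) (a (c (c (l 532329999) (l 531504911)) (b (c (l 530395919) (l 529127951)) (c (l 530381839) (l 529074959)))) (c (c (l 532387087) (l 531553039)) (c (b (l 530437391) (l 530420239)) (b (l 529163023) (l 528838671))))))) (c (c (a (b (a (l 532370191) (l 532410639)) (a (l 531974671) (l 532278799))) (b (a (l 532457487) (l 532507663)) (a (l 532587023)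 (l 532360719)))) (a (b (a (l 531495951) (l 531523087)) (b (a (l 531551247) (l 531576335)) (l 531201807))) (b (b (a (l 531544335) (l 531588111)) (l 531594511)) (a (l 531627791) (l 531663887))))) (a (a (b (c (l 529788175) (b (l 528997647) (l 528957455))) (b (c (l 530325775) (l 528922127)) (c (l 530333199) (b (l 528899343) (l 528886287))))) (c (a (b (l 530335759) (l 529801743)) (b (l 529810191) (l 529811215))) (b (b (l 529005583) (l 528695567)) (b (c (l 529294095) (l 528553487)) (l 528628495))))) (c (b (a (a (l 529824015) (l 529839631)) (a (l 529856783) (l 529874959))) (b (a (l 530363663) (l 530393615)) (l 529843983))) (b (a (b (l 528758031) (c (l 529341455) (l 528616463))) (b (c (l 529406479) (l 528697615)) (b (l 529020175) (l 528998159)))) (a (b (c (l 529312271) (l 528568335)) (b (l 528919055) (l 528904463))) (b (c (l 529337359) (l 528590863)) (c (l 529312015) (l 528546831))))))))), by decide +kernel⟩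

def k12_B00pm_001_s3 : ∃ t, chk3 f_B00pm_001_s3 t 15 14 1 = true :=
  ⟨(a (c (b (a (b (a (c (l 532333071) (l 531573519)) (c (l 532400143) (l 531366159))) (b (c (l 532448527) (l 531354895)) (c (l 532502543) (l 531639823)))) (b (b (c (l 532475407) (l 531724559)) (c (l 532523023) (l 531728911))) (c (a (l 532563215) (l 532618767)) (a (l 531712783) (l 531766031))))) (a (a (b (c (l 532558095) (l 531646735)) (c (l 532404239) (l 531703055))) (b (c (l 532608527) (l 531693071)) (l 6))) (l 6))) (b (c (b (b (a (l 530563343) (a (l 530649359) (l 530707471))) (a (a (l 530508047) (l 530560783)) (c (l 530932239) (l 530341903)))) (a (a (a (l 529925647) (l 529948687)) (b (l 530533391) (l 530509071))) (c (b (l 530908687) (l 530888975)) (a (l 530255631) (l 530303503))))) (a (b (b (a (l 529334543) (l 529385743)) (a (l 529267215) (l 529315087))) (b (a (l 529203983) (a (l 529237007) (l 529259791))) (a (a (l 529135119) (l 529154831)) (c (l 529528847) (l 528834831))))) (a (b (b (l 529438991) (l 529364751))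 (b (l 529294351) (c (l 16299592) (l 528876303)))) (b (b (l 529493263) (l 529414927)) (b (l 6) (l 6)))))) (a (a (a (c (b (l 529894159) (l 529882127)) (b (b (l 529081103) (l 529032207)) (b (l 528989199) (l 528953103)))) (c (b (l 529913871) (l 529899535)) (b (b (l 529099279) (l 529048847)) (b (l 529004559) (l 6))))) (b (c (c (l 530803215) (l 530149647)) (b (c (l 529480463) (l 528766991)) (c (l 529437455) (l 528705039)))) (l 6))) (l 6)))) (a (a (b (b (a (b (b (c (l 531422735) (l 530174223)) (l 6)) (l 6)) (l 6)) (l 6)) (l 6)) (l 6)) (l 6))), by decide +kernel⟩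

def k13_B00pm_001_s3 : ∃ t, chk3 f_B00pm_001_s3 t 28 30 1 = true :=
  ⟨(c (a (b (c (c (l 532253455) (l 532351759)) (b (l 531568143) (l 531622671))) (b (c (l 531132943) (l 531683599)) (c (l 531137295) (l 531750927)))) (b (c (a (l 531455759) (l 531778575)) (b (l 531612175) (l 531665679))) (a (c (l 531207183) (b (l 531715599) (l 531781391))) (c (l 531247119) (b (l 531733519) (l 531799055)))))) (b (a (b (c (l 530313999) (a (l 528869903) (l 528871695))) (c (l 529797903) (a (l 528854287) (l 528856079)))) (b (a (c (l 530330127) (l 528872207)) (c (l 530339087) (l 528871439))) (a (c (l 530350863) (l 528856847)) (c (l 530359055) (l 528855823))))) (c (b (a (a (l 530357007) (l 530368527)) (l 529845519)) (a (a (l 530393103) (l 530404367)) (l 529881103))) (b (a (a (l 528846607) (l 528848655)) (a (l 528849167) (l 528848143))) (a (a (l 528847375) (l 528849423)) (c (l 529256463) (l 528434447))))))), by decide +kernel⟩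

def k14_B00pm_001_s3 : ∃ t, chk3 f_B00pm_001_s3 t 29 30 1 = true :=
  ⟨(c (a (b (a (c (l 532094479) (l 531666191)) (c (l 531868175) (l 531686671))) (b (c (a (l 532633871) (l 532669711)) (l 531423503)) (c (a (l 532079887) (l 532112399)) (a (l 531815439) (l 531834639))))) (a (b (c (l 531906319) (b (l 531689743) (l 531739151))) (a (c (l 531341839) (l 531552271)) (l 6))) (b (c (l 531672335) (b (l 531723023) (l 6))) (l 6)))) (c (a (b (a (c (l 530703631) (l 529996559)) (c (l 530716943) (l 530005519))) (a (b (l 530392591) (l 530428175)) (c (l 530786831) (l 530042127)))) (a (b (c (l 530738447) (l 530023183)) (c (l 530806799) (l 530058255))) (b (c (l 530765583) (l 530046991)) (l 6)))) (a (b (a (b (l 528869647) (l 528853519)) (b (l 528604431) (l 528319503))) (b (a (l 528309007) (l 528042767)) (a (l 528310287) (l 528044047)))) (a (a (b (b (l 528882191) (l 528864527)) (b (l 528855823) (l 6))) (b (b (l 528890639) (l 528872463)) (l 6))) (b (b (a (l 528900623) (l 528911887)) (l 6)) (l 6)))))),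 by decide +kernel⟩

def k15_B00pm_001_s3 : ∃ t, chk3 f_B00pm_001_s3 t 14 31 1 = true :=
  ⟨(a (c (c (c (b (a (c (l 532106767) (l 532333839)) (c (l 532174351) (l 532401679))) (a (a (l 532082191) (l 532379151)) (b (l 532192527) (l 532109327)))) (b (a (l 532675855) (l 532740367)) (a (l 532594959) (l 532651791)))) (c (b (a (l 532167951) (l 532211727)) (a (l 532358671) (l 532403215))) (b (a (l 531541519) (l 531575823)) (a (l 531712783) (l 531748879))))) (c (a (a (b (l 530195727) (l 530593807)) (b (l 530207247) (l 530606607))) (b (a (l 530216975) (l 530225423)) (a (l 530617359) (l 530224143)))) (a (a (b (b (l 528857615) (l 528878351)) (l 528395279)) (b (b (l 528860175) (l 528881423)) (l 528399119))) (a (b (c (l 529289999) (l 528443663)) (b (l 528916239) (l 528962063))) (b (b (l 528860687) (l 528882703)) (b (l 528916495) (l 528963087))))))) (a (a (b (c (c (b (l 531779855) (l 531196943)) (b (l 531888911) (l 531971599))) (c (b (l 530473487) (l 530529039)) (b (l 528321807) (l 528344335))))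 (l 6)) (b (b (c (c (l 531541263) (l 531908111)) (c (l 530483727) (l 528055311))) (l 6)) (l 6))) (l 6))), by decide +kernel⟩

def k16_B00pm_001_s3 : ∃ t, chk3 f_B00pm_001_s3 t 15 15 1 = true :=
  ⟨(b (l 6) (l 6)), by decide +kernel⟩

theorem t17_B00pm_001_s3 : ∃ t, chk3 f_B00pm_001_s3 t 14 30 1 = true := ex3_a k13_B00pm_001_s3 k14_B00pm_001_s3

theorem t18_B00pm_001_s3 : ∃ t, chk3 f_B00pm_001_s3 t 14 15 1 = true := ex3_b t17_B00pm_001_s3 k15_B00pm_001_s3

theorem t19_B00pm_001_s3 : ∃ t, chk3 f_B00pm_001_s3 t 7 15 1 = true := ex3_a t18_B00pm_001_s3 k16_B00pm_001_s3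

theorem t20_B00pm_001_s3 : ∃ t, chk3 f_B00pm_001_s3 t 14 14 1 = true := ex3_a k10_B00pm_001_s3 k11_B00pm_001_s3

theorem t21_B00pm_001_s3 : ∃ t, chk3 f_B00pm_001_s3 t 7 14 1 = true := ex3_a t20_B00pm_001_s3 k12_B00pm_001_s3

theorem t22_B00pm_001_s3 : ∃ t, chk3 f_B00pm_001_s3 t 7 7 1 = true := ex3_b t21_B00pm_001_s3 t19_B00pm_001_s3

theorem t23_B00pm_001_s3 : ∃ t, chk3 f_B00pm_001_s3 t 15 6 1 = true := ex3_b k8_B00pm_001_s3 k9_B00pm_001_s3

theorem t24_B00pm_001_s3 : ∃ t, chk3 f_B00pm_001_s3 t 7 6 1 = true := ex3_a k7_B00pm_001_s3 t23_B00pm_001_s3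

theorem t25_B00pm_001_s3 : ∃ t, chk3 f_B00pm_001_s3 t 7 3 1 = true := ex3_b t24_B00pm_001_s3 t22_B00pm_001_s3

theorem t26_B00pm_001_s3 : ∃ t, chk3 f_B00pm_001_s3 t 13 15 1 = true := ex3_a k5_B00pm_001_s3 k6_B00pm_001_s3

theorem t27_B00pm_001_s3 : ∃ t, chk3 f_B00pm_001_s3 t 13 7 1 = true := ex3_b k4_B00pm_001_s3 t26_B00pm_001_s3

theorem t28_B00pm_001_s3 : ∃ t, chk3 f_B00pm_001_s3 t 6 7 1 = true := ex3_a k3_B00pm_001_s3 t27_B00pm_001_s3

theorem t29_B00pm_001_s3 : ∃ t, chk3 f_B00pm_001_s3 t 6 3 1 = true := ex3_b k2_B00pm_001_s3 t28_B00pm_001_s3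

theorem t30_B00pm_001_s3 : ∃ t, chk3 f_B00pm_001_s3 t 3 3 1 = true := ex3_a t29_B00pm_001_s3 t25_B00pm_001_s3

theorem t31_B00pm_001_s3 : ∃ t, chk3 f_B00pm_001_s3 t 3 1 1 = true := ex3_b k1_B00pm_001_s3 t30_B00pm_001_s3

theorem t32_B00pm_001_s3 : ∃ t, chk3 f_B00pm_001_s3 t 1 1 1 = true := ex3_a k0_B00pm_001_s3 t31_B00pm_001_s3

theorem c_B00pm_001_s3 : CertF 0 536870912 536870912 536870912 923417968 42949674 false true false .up 0 0 1
    ndB0q0 ndB0q1 pcB0 cut_B00pm_001_s3 xt_B00pm_001_s3 :=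
  certF1 (fam := false) (s1 := true) (s2 := false) (a := 0) (b := 0) (c := 1) (cn := .up) (n1 := ndB0q0) (n2 := ndB0q1) (pc := pcB0) (cut := cut_B00pm_001_s3) (xt := xt_B00pm_001_s3) (P1 := 0) (W1 := 536870912) (P2 := 536870912) (W2 := 536870912) (P3 := 923417968) (W3 := 42949674)
    rfl (fun _ => rfl) t32_B00pm_001_s3

theorem s_B00pm_001_s3 {κ x : ℝ} (hκ : κ * h0 = ken x) (hx : ((923417968 : ℕ) : ℝ) / S ≤ x)
    (hx' : x ≤ (((923417968 : ℕ) : ℝ) + (42949674 : ℕ)) / S) :
    AltB (VFD κ) PP tK tL pcB [⟨4, 0, 0, 2845415833⟩] 0 0 1 0 0 (sgb true) (sgb false) x :=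
  strip_altBD (m := 2845415833) false rfl hκ (SH.κ0 hκ (SH.hx1 hx).le (SH.hx2 hx').le) (SH.hx1 hx).le (SH.hx2 hx') (covB00).cov (covB01).cov hx hx' c_B00pm_001_s3 cutB_nil ((okx hx hx').extB (T := tt) (sideB hx hx') hκ rfl rfl (.O 0 true) (.O 1 false) (Or.inl rfl))

noncomputable def cut_B00pm_011_s1 : Cut := Cut.of [[⟨4, 0, 0, 1449551462⟩], [⟨0, 0, 0, 67108864⟩, ⟨1, 1, 0, 67108864⟩, ⟨2, 1, 0, 67108864⟩]]

noncomputable def f_B00pm_011_s1 : ℕ → ℕ → ℕ → ℕ → Bool := onCell 0 536870912 536870912 536870912 923417968 42949674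
    (rowF 0 false true false .pnn 0 1 1 (qsf 0 536870912 536870912 536870912 1) ndB0q0 ndB0q1 pcB1 cut_B00pm_011_s1 Ext.none)

def k0_B00pm_011_s1 : ∃ t, chk3 f_B00pm_011_s1 t 1 1 1 = true :=
  ⟨(l 6), by decide +kernel⟩

theorem c_B00pm_011_s1 : CertF 0 536870912 536870912 536870912 923417968 42949674 false true false .pnn 0 1 1
    ndB0q0 ndB0q1 pcB1 cut_B00pm_011_s1 Ext.none :=
  certF0 (fam := false) (s1 := true) (s2 := false) (a := 0) (b := 1) (c := 1) (cn := .pnn) (n1 := ndB0q0) (n2 := ndB0q1) (pc := pcB1) (cut := cut_B00pm_011_s1) (xt := Ext.none) (P1 := 0) (W1 := 536870912) (P2 := 536870912) (W2 := 536870912) (P3 := 923417968) (W3 := 42949674)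
    rfl k0_B00pm_011_s1

theorem s_B00pm_011_s1 {κ x : ℝ} (hκ : κ * h0 = ken x) (hx : ((923417968 : ℕ) : ℝ) / S ≤ x)
    (hx' : x ≤ (((923417968 : ℕ) : ℝ) + (42949674 : ℕ)) / S)
    (H : CutB (VFD κ) PP tK tL pcB (Cut.of [[⟨0, 0, 0, 67108864⟩, ⟨1, 1, 0, 67108864⟩, ⟨2, 1, 0, 67108864⟩]]) 0 1 1 0 0 (sgb true) (sgb false) x) :
    AltB (VFD κ) PP tK tL pcB [⟨3, 0, 0, 1449551462⟩] 0 1 1 0 0 (sgb true) (sgb false) x :=
  strip_altBD (m := 1449551462) true rfl hκ (SH.κ0 hκ (SH.hx1 hx).le (SH.hx2 hx').le) (SH.hx1 hx).le (SH.hx2 hx') (covB00).cov (covB01).cov hx hx' c_B00pm_011_s1 H (noExt_B)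

noncomputable def cut_B00pm_011_s3 : Cut := Cut.of [[⟨3, 0, 0, 2845415833⟩], [⟨0, 0, 0, 67108864⟩, ⟨1, 1, 0, 67108864⟩, ⟨2, 1, 0, 67108864⟩]]

noncomputable def xt_B00pm_011_s3 : Ext := strExt dd false true false .u0 .u0m .s0m .pnn 0 1 1 rfl rfl gl1 vv ndB0q0 ndB0q1

noncomputable def f_B00pm_011_s3 : ℕ → ℕ → ℕ → ℕ → Bool := onCell 0 536870912 536870912 536870912 923417968 42949674
    (rowF 0 false true false .pnn 0 1 1 (qsf 0 536870912 536870912 536870912 1) ndB0q0 ndB0q1 pcB1 cut_B00pm_011_s3 xt_B00pm_011_s3)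

def k0_B00pm_011_s3 : ∃ t, chk3 f_B00pm_011_s3 t 1 2 1 = true :=
  ⟨(a (l 4) (a (b (l 1) (l 4)) (l 1))), by decide +kernel⟩

def k1_B00pm_011_s3 : ∃ t, chk3 f_B00pm_011_s3 t 2 6 1 = true :=
  ⟨(a (l 4) (a (l 4) (b (l 4) (b (l 4) (b (a (l 4) (a (l 4) (c (l 531239951) (l 530344207)))) (c (a (a (l 4) (c (l 531584271) (l 531158031))) (a (a (l 531335183) (l 531310351)) (l 531411471))) (a (a (l 4) (l 530443791)) (a (l 530396175) (l 530362895))))))))), by decide +kernel⟩

def k2_B00pm_011_s3 : ∃ t, chk3 f_B00pm_011_s3 t 4 14 1 = true :=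
  ⟨(b (l 4) (a (l 4) (a (l 4) (b (l 4) (b (l 4) (a (l 4) (c (a (b (l 4) (l 530970383)) (c (l 531903503) (l 532292623))) (a (l 531074319) (l 531274511))))))))), by decide +kernel⟩

def k3_B00pm_011_s3 : ∃ t, chk3 f_B00pm_011_s3 t 8 30 1 = true :=
  ⟨(b (l 4) (a (l 4) (a (l 4) (a (l 4) (a (l 4) (b (l 4) (b (l 4) (c (l 531529231) (l 530779919))))))))), by decide +kernel⟩

def k4_B00pm_011_s3 : ∃ t, chk3 f_B00pm_011_s3 t 18 30 1 = true :=
  ⟨(a (b (l 4) (c (a (b (l 4) (a (b (l 4) (l 531323407)) (b (c (l 532133647) (l 532211983)) (l 531350031)))) (c (a (b (a (l 4) (l 531984911)) (b (l 531548943) (l 532137487))) (b (l 531425807) (a (l 531282959) (l 531266319)))) (c (b (a (l 532342543) (l 532314383)) (c (a (l 532410639) (l 532375055)) (a (l 532322575) (l 532366607)))) (a (b (l 532150543) (l 532138767)) (b (l 532187919) (l 532182287)))))) (a (b (l 4) (a (b (l 4) (l 530576399)) (b (l 530653967) (l 530901263)))) (b (a (c (l 531777039) (l 530715663)) (c (l 531545103) (l 531287567))) (a (c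 (l 531556623) (b (l 531232271) (l 531209743))) (c (l 531800591) (l 530727695))))))) (b (b (l 4) (a (l 4) (c (a (l 530968847) (l 530972175)) (c (l 531900687) (l 531376655))))) (b (a (c (a (b (l 531070223) (l 531129103)) (b (l 531593487) (l 531380239))) (c (a (l 531575823) (l 531869199)) (a (l 531317263) (l 531340815)))) (c (c (a (l 531377423) (l 531641615)) (l 531579407)) (c (l 531893775) (l 531094543)))) (a (c (a (c (b (l 531889423) (l 532073487)) (l 532343311)) (b (l 531299343) (l 531214351))) (a (c (l 531837199) (l 531031823)) (b (l 531605775) (l 531335439)))) (c (a (b (l 531418895) (l 531464975)) (b (l 531410191) (l 531453455))) (c (a (l 531893775) (l 531644431)) (a (l 531355407) (l 531373583)))))))), by decide +kernel⟩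

def k5_B00pm_011_s3 : ∃ t, chk3 f_B00pm_011_s3 t 19 30 1 = true :=
  ⟨(b (a (b (a (l 4) (c (b (b (l 4) (l 530936591)) (l 530967311)) (c (l 531897103) (l 531104527)))) (a (c (a (l 530981647) (l 530996495)) (c (l 531907343) (l 531379983))) (c (a (l 531016975) (l 531311631)) (c (l 531893007) (l 531361807))))) (a (a (b (c (b (l 531254799) (l 531559439)) (l 531140111)) (c (l 531074319) (l 531607823))) (c (b (c (l 531752719) (l 532338447)) (l 531379983)) (b (l 531314959) (l 531585295)))) (c (b (c (l 531153935) (l 532293391)) (c (l 531204879) (l 532311311))) (b (c (l 531795727) (l 531262991)) (c (l 531806479) (l 531267343)))))) (a (a (b (c (c (a (l 531643151) (l 531650575)) (l 532123151)) (c (l 531910415) (l 531376399))) (c (a (c (l 531457807) (l 532434959)) (c (l 531458575) (l 532444175))) (c (l 531795215) (l 530850575)))) (b (c (a (c (l 531663631) (l 532413967)) (l 531115023)) (c (l 531905551) (l 531367695))) (c (c (b (l 531452431) (l 531482895)) (l 532178191)) (c (l 531934479) (l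 531389199))))) (a (b (c (a (l 531139855) (l 531170319)) (c (l 531879951) (l 531337743))) (c (c (b (l 531491087) (l 531515407)) (l 532433423)) (c (l 531918095) (l 531369231)))) (c (b (c (l 531519759) (l 532346895)) (c (b (l 532088591) (l 531569935)) (l 532400143))) (b (c (l 531566607) (l 531288847)) (c (l 531612943) (l 531328527))))))), by decide +kernel⟩

def k6_B00pm_011_s3 : ∃ t, chk3 f_B00pm_011_s3 t 8 62 1 = true :=
  ⟨(a (b (l 4) (l 14)) (a (a (b (l 4) (b (b (l 4) (l 14)) (l 14))) (a (b (l 4) (c (a (b (l 531618063) (l 14)) (c (l 532206095) (l 530845711))) (a (c (l 530466319) (l 530377487)) (c (l 531064335) (l 530446095))))) (a (b (l 4) (c (c (l 532252431) (l 531166991)) (c (l 531123727) (l 530512143)))) (b (b (l 4) (c (l 532038415) (l 530928655))) (c (c (l 532297743) (l 531217935)) (c (l 531180815) (l 530575375))))))) (a (b (b (a (l 4) (c (l 531652367) (c (l 531407631) (l 530849295)))) (a (c (a (l 532082703) (l 532125711)) (a (l 530982671) (l 531034383))) (c (c (l 532437519)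 (l 531927567)) (c (l 531387407) (l 530817039))))) (a (c (b (a (l 532078351) (l 532122895)) (c (l 532363791) (l 531019279))) (a (c (l 531235855) (l 530636303)) (c (l 531288847) (l 530694671)))) (c (b (a (l 532165903) (l 532207887)) (a (l 532167183) (l 532210447))) (c (a (l 531340047) (l 531388943)) (a (l 530750479) (l 530803983)))))) (c (b (a (b (l 531727887) (l 531660815)) (b (l 531529743) (l 531532559))) (b (a (c (l 532520207) (l 532006927)) (c (l 532476175) (l 532085519))) (a (c (l 532529167) (l 532007439)) (c (l 532535311) (l 532089615))))) (b (a (c (a (l 531462415) (l 531503119)) (l 530384655)) (a (l 530193935) (l 530231567))) (a (c (a (l 531436047) (l 531481103)) (a (l 530854671) (l 530903311))) (c (a (l 531524111) (l 531565327)) (l 530164239)))))))), by decide +kernel⟩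

def k7_B00pm_011_s3 : ∃ t, chk3 f_B00pm_011_s3 t 16 63 1 = true :=
  ⟨(l 14), by decide +kernel⟩

def k8_B00pm_011_s3 : ∃ t, chk3 f_B00pm_011_s3 t 17 126 1 = true :=
  ⟨(a (b (a (l 14) (a (l 14) (a (l 14) (c (l 531758863) (l 530849807))))) (l 14)) (b (c (a (a (c (l 532369423) (l 531015439)) (a (l 532170511) (l 532215567))) (a (c (l 532540431) (l 532011023)) (b (l 532090383) (b (l 16727296) (c (b (l 16727976) (l 16727016)) (a (l 16723808) (l 16732544))))))) (a (a (c (l 530703887) (l 530629391)) (c (l 531350031) (l 530749711))) (a (c (l 531450895) (l 530859791)) (b (l 530719759) (b (l 16717616) (a (c (l 16729440) (l 16724312)) (b (l 16714648) (l 16714504)))))))) (a (a (a (l 14) (a (l 14) (b (b (l 530903567) (l 14)) (l 14)))) (a (b (c (b (l 16742112) (b (l 16735224) (l 16734344))) (b (l 16733512) (b (c (l 16733936) (l 16729288)) (c (l 16733624) (l 16729376))))) (a (l 14) (c (l 16737416) (l 16723488)))) (b (b (c (l 16734912) (b (l 16731752) (l 16720008))) (c (b (l 16733448) (l 16737960))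 (c (l 16722072) (l 16717952)))) (c (l 16736216) (l 16723112))))) (c (b (a (b (c (a (l 16740424) (l 16738624)) (a (l 16725648) (l 16734456))) (c (l 16737344) (l 16734432))) (b (c (l 16735880) (l 16732368)) (l 16732752))) (c (l 16732240) (l 16732280))) (b (b (a (a (b (l 16729384) (c (l 16731120) (l 16726344))) (b (c (l 16729960) (l 16724968)) (l 16727984))) (c (l 16728656) (l 16703760))) (a (c (l 16731352) (l 16728104)) (l 16728744))) (a (b (l 16731800) (l 16733904)) (l 16719928))))))), by decide +kernel⟩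

def k9_B00pm_011_s3 : ∃ t, chk3 f_B00pm_011_s3 t 17 127 1 = true :=
  ⟨(a (l 14) (a (b (b (a (l 14) (a (l 14) (b (l 16724960) (l 14)))) (l 14)) (l 14)) (b (c (b (a (l 16731144) (l 16726488)) (c (l 16723704) (l 16720512))) (b (a (l 16715176) (l 16697344)) (a (a (l 16673256) (l 16669584)) (l 16685056)))) (b (b (c (l 16719976) (l 16668896)) (a (l 14) (a (l 16663768) (l 16660936)))) (l 16665144))))), by decide +kernel⟩

def k10_B00pm_011_s3 : ∃ t, chk3 f_B00pm_011_s3 t 36 62 1 = true :=
  ⟨(a (c (c (a (b (c (l 531939855) (l 532446735)) (c (l 531715855) (l 532545807))) (b (b (l 532243983) (l 532300047)) (b (l 532355343) (l 532141583)))) (a (b (l 532152847) (l 531893263)) (b (l 532215055) (l 531961871)))) (b (a (b (l 530559247) (l 530546959)) (c (l 531155727) (l 531139599))) (a (c (b (l 531623695) (l 531624207)) (l 530783759)) (c (l 530887951) (l 531125519))))) (c (c (a (b (b (l 532194575) (l 532248335)) (b (l 532033039) (l 532085263))) (b (c (l 531522063) (l 532298255)) (a (l 531754511)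 (l 531731727)))) (a (b (l 532271631) (l 532293135)) (b (l 532321807) (l 532349455)))) (c (b (a (l 531211535) (l 531260943)) (a (l 531219983) (l 531276815))) (b (a (l 531194127) (l 531242255)) (a (l 531189775) (l 531246351)))))), by decide +kernel⟩

def k11_B00pm_011_s3 : ∃ t, chk3 f_B00pm_011_s3 t 37 62 1 = true :=
  ⟨(b (a (c (a (c (c (l 531486991) (l 532263183)) (l 532365071)) (c (b (l 532093455) (l 531867919)) (l 532401935))) (a (b (l 530762767) (l 530765583)) (b (l 531067919) (l 530805263)))) (c (a (b (l 531240207) (c (l 531844111) (l 532443919))) (b (l 531493903) (l 531264783))) (c (a (l 531642639) (l 531936527)) (a (l 531357199) (l 531382031))))) (c (c (a (b (a (l 531944719) (l 531642639)) (a (b (l 16715352) (b (l 16722752) (a (l 16711512) (l 16709000)))) (b (l 16710288) (b (b (l 16697200) (l 16706696)) (a (l 16706528) (l 16693632)))))) (b (a (l 531883791) (l 531862799)) (b (a (b (l 16695784) (l 16704192)) (b (l 16701240) (a (l 16700448) (l 16698024)))) (a (b (b (l 16702696)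 (l 16691320)) (l 16690032)) (l 16696624))))) (a (b (a (l 532389903) (l 16719208)) (b (l 16715104) (a (b (l 16724480) (l 16722664)) (b (l 16720744) (l 16719448))))) (b (l 531944719) (b (a (l 16709288) (a (l 16706440) (l 16704624))) (b (a (l 16717336) (l 16713336)) (l 16712920)))))) (a (b (a (l 530774031) (l 530816783)) (a (b (l 531321103) (b (l 16693840) (c (a (l 16717112) (l 16704848)) (b (l 16709688) (l 16698736))))) (b (l 531366415) (b (b (l 16689792) (c (l 16692560) (l 16706408))) (c (l 16713456) (l 16696624)))))) (b (a (l 530853135) (l 531151887)) (b (a (b (l 16689240) (c (l 16690776) (l 16704288))) (b (l 16684560) (c (l 16708128) (a (l 16701128) (l 16699800))))) (a (b (a (b (l 16686656) (l 16707968)) (l 16685808)) (l 16708992)) (c (l 16709208) (l 16703984)))))))), by decide +kernel⟩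

def k12_B00pm_011_s3 : ∃ t, chk3 f_B00pm_011_s3 t 19 124 1 = true :=
  ⟨(a (a (c (c (a (l 531528207) (l 531523343)) (a (l 532478479) (l 532492559))) (c (b (l 531684367) (l 531704591)) (a (l 531400975) (l 531414031)))) (c (c (a (l 531523855) (l 531530255)) (l 531965711)) (c (l 531977999) (l 531151631)))) (c (a (c (a (l 531541775) (l 531559183)) (l 532230159)) (b (c (l 531586063) (l 16683264)) (b (c (l 16671384) (l 16698600)) (b (a (l 16674792) (l 16670704)) (c (a (l 16668200) (l 16664080)) (l 16683960)))))) (a (c (l 531971599) (l 531410959)) (b (l 530577679) (b (l 531139087) (a (c (l 16666880) (l 16661952)) (b (l 16657248) (c (l 16682728) (l 16672600))))))))), by decide +kernel⟩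

def k13_B00pm_011_s3 : ∃ t, chk3 f_B00pm_011_s3 t 19 125 1 = true :=
  ⟨(a (b (a (c (a (l 531422223) (b (l 531539215) (b (l 16688744) (a (l 16693104) (b (l 16686048) (l 16684952)))))) (a (l 531175695) (b (l 16682920) (b (l 16679424) (c (l 16702848) (l 16683920)))))) (c (c (a (b (l 16683408) (b (l 16690704) (l 16688776))) (b (l 16689128) (b (l 16686064) (l 16694800)))) (a (b (l 16711200) (a (l 16698296) (l 16706584))) (b (l 16707016) (l 16692352)))) (b (a (l 16677904) (c (l 16677496) (l 16689376))) (c (a (b (l 16679184) (l 16699488)) (l 16686192)) (b (a (l 16691304) (l 16666600)) (a (l 16691296) (l 16689848))))))) (b (a (c (c (a (b (a (l 16697512) (l 16695088)) (l 16684016)) (b (l 16691592) (l 16700360))) (b (a (l 16713032) (l 16708728)) (l 16708248))) (b (a (c (l 16705496) (a (l 16698168) (l 16696448))) (l 16688432)) (a (l 16702384) (l 16700736)))) (c (a (c (l 16675704) (l 16701752)) (l 16678584)) (c (l 16699728) (l 16694448)))) (c (a (c (b (l 16679976) (l 16678248)) (l 16703432))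 (c (l 16670000) (l 16692696))) (a (a (l 16705096) (l 16703448)) (l 16695512))))) (a (a (b (b (c (b (l 16679216) (c (l 16683472) (l 16702024))) (b (l 16668808) (a (l 16668416) (l 16666656)))) (c (c (l 16670344) (l 16697688)) (l 16669656))) (c (c (l 16665152) (l 16688144)) (b (l 16694112) (l 16685848)))) (b (c (b (b (a (l 16675928) (l 16673752)) (l 16672496)) (l 16668856)) (b (b (a (l 16665144) (l 16663056)) (l 16685888)) (l 16688416))) (c (l 16692976) (l 16685192)))) (b (b (c (c (a (l 16675928) (l 16661480)) (l 16670768)) (c (l 16685424) (l 16656208))) (c (c (l 16659984) (l 16685424)) (l 16684800))) (c (c (l 16654768) (l 16675888)) (c (l 16676048) (l 16676248)))))), by decide +kernel⟩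

def k14_B00pm_011_s3 : ∃ t, chk3 f_B00pm_011_s3 t 18 252 1 = true :=
  ⟨(a (c (a (a (b (l 532166415) (b (a (l 16724496) (c (l 16723272) (l 16730704))) (a (b (l 16723080) (l 16732840)) (l 16731624)))) (b (b (l 16723992) (a (l 16712384) (a (l 16721512) (l 16720632)))) (b (b (a (l 16721408) (l 16719776)) (l 16719856)) (l 16718816)))) (b (a (b (a (l 16710768) (l 16719448)) (c (a (l 16717712) (l 16725712)) (l 16726448))) (b (c (a (l 16714608) (l 16712096)) (l 16724560)) (c (l 16722072) (l 16723640)))) (c (c (l 16721336) (l 16722536)) (a (l 16725392) (l 16721512))))) (a (a (b (l 531074831) (a (b (l 16714184) (c (l 16715920) (l 16721544))) (b (c (l 16714992) (b (l 16720024) (l 16719496))) (l 16723472)))) (b (a (l 16713280) (b (l 16722704) (b (l 16720776) (l 16709336)))) (b (a (c (l 16713448) (l 16708032)) (c (l 16722904) (l 16717896))) (l 16722680)))) (b (a (b (c (l 16711832) (l 16716216)) (b (a (l 16708160) (l 16706592)) (c (l 16699928) (l 16715368)))) (b (a (b (l 16716344) (l 16705248))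 (b (l 16703968) (l 16714848))) (l 16706072))) (a (b (l 16719632) (l 16721584)) (l 16708976))))) (b (a (c (a (c (b (l 16708432) (l 16717208)) (l 16721264)) (b (l 16705616) (l 16713624))) (a (c (l 16716736) (l 16701448)) (l 16702656))) (c (c (b (l 16685928) (l 16684200)) (l 16708056)) (c (l 16710216) (l 16709920)))) (c (a (c (l 16712192) (l 16712872)) (l 16702040)) (a (c (l 16713608) (l 16714384)) (l 16694584))))), by decide +kernel⟩

def k15_B00pm_011_s3 : ∃ t, chk3 f_B00pm_011_s3 t 18 253 1 = true :=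
  ⟨(a (a (b (c (a (c (l 16730592) (l 16729464)) (l 16726120)) (a (b (l 16725712) (l 16727736)) (l 16715192))) (c (c (l 16724712) (l 16722672)) (c (l 16720520) (l 16707760)))) (c (b (c (l 16718464) (l 16717784)) (c (l 16714968) (l 16711080))) (b (c (l 16717072) (l 16716320)) (c (l 16706960) (l 16681640))))) (c (a (b (l 16707496) (l 16702408)) (b (l 16697000) (l 16691912))) (a (b (c (l 16703648) (l 16700904)) (c (l 16651608) (l 16645280))) (b (l 16682912) (a (l 16637864) (l 16630896)))))), by decide +kernel⟩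

def k16_B00pm_011_s3 : ∃ t, chk3 f_B00pm_011_s3 t 18 127 1 = true :=
  ⟨(b (a (c (a (b (c (l 16720896) (l 16715880)) (l 16692400)) (b (l 16692184) (l 16681736))) (b (a (a (l 16690000) (l 16682680)) (c (l 16654760) (l 16646760))) (a (c (l 16657880) (l 16648200)) (c (l 16644352) (l 16632632))))) (c (a (b (l 16697264) (l 16650112)) (b (l 16686760) (l 16639608))) (a (b (a (l 16640016) (l 16632896)) (a (l 16627792) (l 16620688))) (b (b (l 16625384) (l 16619344)) (a (l 16613576) (l 16606624)))))) (c (a (b (a (b (l 16667512) (l 16708120)) (l 16656768)) (l 16702952)) (a (l 16646512) (l 16678624))) (a (b (a (b (a (l 16647368) (l 16640120)) (l 16641224)) (b (b (l 16630768) (l 16628912)) (l 16670712))) (l 16635552)) (a (b (l 16627648) (l 16659248)) (l 16605552))))), by decide +kernel⟩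

def k17_B00pm_011_s3 : ∃ t, chk3 f_B00pm_011_s3 t 19 63 1 = true :=
  ⟨(b (c (a (b (a (c (l 16694880) (l 16693696)) (c (l 16685744) (l 16661992))) (a (b (l 16686744) (l 16681648)) (c (l 16678688) (l 16627784)))) (a (b (l 16680112) (l 16643800)) (b (l 16665888) (l 16655784)))) (a (b (a (b (l 16697528) (l 16686040)) (b (l 16684192) (l 16630784))) (a (b (b (l 16635376) (l 16629512)) (l 16620640)) (b (l 16619168) (l 16607392)))) (c (b (a (l 16626160) (l 16614880)) (b (l 16605712) (l 16595720))) (a (b (l 16663272) (l 16594640)) (b (l 16608392) (l 16623728)))))) (b (a (c (b (b (l 16630848) (l 16628256)) (b (l 16625656) (l 16623616))) (b (a (l 16608672) (l 16595448)) (a (b (l 16641512) (l 16594192)) (a (l 16587232) (l 16581248))))) (b (c (l 16610568) (a (l 16540864) (l 16612776))) (c (l 16595944) (a (l 16572888) (l 16520408))))) (a (a (l 16589816) (l 16558704)) (a (l 16549024) (l 16539896))))), by decide +kernel⟩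

def k18_B00pm_011_s3 : ∃ t, chk3 f_B00pm_011_s3 t 10 14 1 = true :=
  ⟨(a (b (l 4) (a (b (l 4) (c (a (b (l 531146511) (l 531195407)) (c (l 531360527) (l 532119055))) (a (c (l 531723279) (l 530926607)) (a (l 530315279) (l 530259983))))) (b (b (a (l 4) (c (l 532076559) (l 531096591))) (c (a (c (a (b (l 4) (l 532271119)) (l 532339983)) (a (l 532027663) (l 531984143))) (l 531884303)) (a (c (a (l 531268623) (l 531492111)) (a (l 531009551) (l 530962959))) (l 530091023)))) (b (c (a (a (l 532009231) (c (l 532347151) (l 532024079))) (b (l 532187663) (l 532176911))) (a (a (l 531285519) (c (l 531258383) (l 530992655))) (c (l 530646799) (l 530647055)))) (a (c (a (l 532277519) (l 532223503)) (a (l 531272207) (l 531213583))) (c (c (l 532400655) (l 531930639)) (c (l 531423503) (l 530879759)))))))) (b (b (l 4) (b (a (l 4) (c (l 531708687) (l 530738447))) (a (c (l 531894031) (l 530648847)) (c (l 531767055) (l 530787599))))) (b (a (c (b (l 531963151) (a (l 531805711) (l 532000783))) (b (l 530172431)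 (a (l 530276879) (l 531005967)))) (c (b (l 531828495) (l 531490063)) (b (l 530839567) (l 529820431)))) (a (a (c (b (l 531847439) (l 531837199)) (b (l 530575887) (l 530282255))) (c (b (l 532045839) (l 532043535)) (b (l 531039759) (l 531022863)))) (c (b (a (l 531975951) (l 531907855)) (a (l 531980047) (l 531915791))) (b (c (l 531196175) (l 530652943)) (c (l 531191567) (l 530641167)))))))), by decide +kernel⟩

def k19_B00pm_011_s3 : ∃ t, chk3 f_B00pm_011_s3 t 11 14 1 = true :=
  ⟨(b (a (a (c (b (a (l 531555087) (l 531510799)) (a (l 531654927) (l 531066383))) (b (l 530574351) (a (l 530680335) (l 530629903)))) (c (b (c (l 531661071) (l 531225359)) (c (l 531479567) (l 531302159))) (b (l 530497295) (l 530558991)))) (c (a (b (c (l 531590159) (l 531158031)) (c (l 531663375) (l 531220751))) (c (b (l 531531023) (l 531590927)) (b (l 531103759) (l 531152655)))) (a (b (l 530435343) (l 530482191)) (b (l 530388239) (l 530152463))))) (a (b (a (c (c (l 531958287) (l 530694671)) (c (l 531002127)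 (l 530465807))) (c (a (l 530577935) (l 530525711)) (a (l 530658575) (l 530608399)))) (b (a (c (a (l 531842319) (l 531779599)) (l 531165967)) (c (c (l 531917327) (l 531451663)) (l 530679311))) (a (c (a (l 531852815) (l 531523087)) (a (l 530827279) (l 530765839))) (c (c (l 531933455) (l 531460367)) (l 530676751))))) (b (a (c (c (l 531210767) (l 531293455)) (b (l 530525199) (l 530555407))) (c (a (l 531462927) (l 531424015)) (l 530461455))) (b (a (c (c (l 531809551) (l 531346447)) (l 530577167)) (c (l 532294927) (l 530490639))) (a (c (c (l 531824655) (l 531353871)) (l 530573327)) (c (l 532571919) (l 530215695))))))), by decide +kernel⟩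

def k20_B00pm_011_s3 : ∃ t, chk3 f_B00pm_011_s3 t 20 30 1 = true :=
  ⟨(b (a (c (b (a (c (l 531538959) (l 532220175)) (c (l 532211471) (l 532130575))) (a (c (l 532113935) (l 532244495)) (l 531329551))) (a (b (c (l 531450127) (l 531181583)) (l 530663183)) (b (l 530284815) (l 530573071)))) (a (c (b (c (l 532364303) (l 532026895)) (c (l 532378383) (l 532060943))) (b (c (l 531516687) (l 530970127)) (c (l 531544079) (l 530991375)))) (c (b (c (l 532409615) (l 531932687)) (l 531708431)) (b (c (l 531418639) (l 530868239)) (c (l 531444751) (l 530887951)))))) (a (c (b (a (c (l 531610895) (l 532286735)) (c (l 532258831) (l 532208655))) (a (c (l 531371279) (l 532347407)) (c (l 531738895) (l 532275983)))) (b (a (c (l 531771407) (l 531221263)) (c (l 531689487) (l 531134991))) (a (c (l 531556879) (l 531268367)) (c (l 531750159) (l 531189007))))) (c (a (b (c (l 532388367) (l 532114191)) (c (l 532125199) (l 532187663))) (b (c (l 532510223) (l 532019983)) (b (l 16671456) (l 16653608)))) (a (b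 (c (l 531591183) (l 531032079)) (c (l 531657743) (l 531092239))) (b (c (l 531492879) (l 530929679)) (c (l 531562511) (l 530992655))))))), by decide +kernel⟩

def k21_B00pm_011_s3 : ∃ t, chk3 f_B00pm_011_s3 t 21 30 1 = true :=
  ⟨(b (b (a (c (a (c (l 532338703) (l 531859727)) (l 531775759)) (a (c (l 531343375) (l 530790159)) (l 531008783))) (c (c (l 532184847) (l 531166223)) (c (l 531183375) (l 530625551)))) (a (c (a (l 531596559) (l 531526415)) (a (c (l 531362319) (l 530802447)) (l 531281167))) (a (c (l 531732495) (l 530947855)) (c (l 531668239) (l 530881551))))) (b (a (a (c (c (l 532429839) (l 531936783)) (c (l 531406863) (l 530840335))) (c (l 531576079) (l 531317263))) (a (c (c (l 16665400) (l 531788815)) (l 531242255)) (c (l 531506191) (l 530905871)))) (c (a (b (a (l 16649752) (l 16638288)) (a (b (l 16665120) (c (l 16667632) (l 16634376))) (b (c (l 16660064) (l 16605088)) (c (l 16656384) (l 16602336))))) (b (a (c (l 16654200) (l 16619760)) (c (l 16642672) (b (l 16630208) (l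 16626744)))) (a (c (l 16646752) (b (l 16593584) (l 16633920))) (l 16629680)))) (a (b (c (l 530607631) (l 530839823)) (a (b (l 16638904) (a (l 16616984) (c (l 16638960) (l 16624616)))) (b (c (l 16633040) (l 16618080)) (c (l 16631280) (l 16617392))))) (b (a (c (l 16626256) (l 16610776)) (b (l 16606592) (c (l 16611600) (l 16595400)))) (a (b (c (l 16621392) (l 16606288)) (l 16616096)) (c (l 16612424) (l 16599912)))))))), by decide +kernel⟩

def k22_B00pm_011_s3 : ∃ t, chk3 f_B00pm_011_s3 t 11 60 1 = true :=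
  ⟨(a (b (c (a (a (l 531857935) (l 531260175)) (a (l 531201039) (l 531681039))) (a (a (l 530817039) (l 530756111)) (a (l 530697231) (l 530641423)))) (c (a (a (l 531739407) (l 531006223)) (c (l 531422991) (l 531470351))) (a (a (l 530817039) (l 530754575)) (a (l 530694415) (l 16624936))))) (b (a (c (c (l 531832847) (l 531354127)) (l 530561295)) (c (a (l 531525135) (l 531478543)) (l 530469391))) (a (c (c (l 531846671) (l 531359247)) (l 530554127)) (b (a (l 532369423) (l 532323343)) (c (a (l 16614352) (b (l 16561416) (l 16599552))) (a (l 16574448) (b (l 16519776) (l 16517176)))))))), by decide +kernel⟩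

def k23_B00pm_011_s3 : ∃ t, chk3 f_B00pm_011_s3 t 11 61 1 = true :=
  ⟨(a (b (a (a (c (l 531623695) (l 530837007)) (c (b (l 531565839) (c (l 16605768) (l 16611304))) (b (l 16595888) (c (l 16594672) (l 16576856))))) (b (c (a (l 16573160) (c (l 16610552) (l 16593872))) (a (l 16581136) (l 16566384))) (c (c (a (b (l 16616624) (l 16612736)) (l 16581592)) (a (l 16619864) (l 16587000))) (b (a (l 16573408) (l 16602648)) (c (l 16617328) (l 16563224)))))) (c (c (a (b (a (l 16630952) (l 16577064)) (l 16575304)) (b (l 16558928) (l 16593248))) (a (b (a (b (l 16617936) (l 16615664)) (l 16605624)) (l 16566144)) (b (l 16589216) (l 16586256)))) (a (b (a (b (c (l 16601888) (l 16584704)) (l 16593800)) (c (l 16591232) (l 16575816))) (c (l 16598248) (l 16587736))) (b (c (l 16576688) (l 16563280)) (l 16532888))))) (b (c (b (a (a (c (l 16598128) (l 16580896)) (c (l 16585784) (l 16568440))) (c (a (l 16573400) (l 16561016)) (l 16551024))) (a (c (l 16542200) (l 16570144)) (c (l 16559592) (l 16547656))))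 (a (b (a (b (l 16553824) (l 16592104)) (b (l 16539824) (l 16539384))) (c (l 16555048) (l 16538880))) (b (c (l 16533480) (l 16514648)) (l 16528048)))) (c (a (c (b (l 16576528) (l 16568960)) (l 16523520)) (c (l 16548224) (l 16542864))) (a (b (l 16509424) (l 16555896)) (c (l 16537160) (l 16531128)))))), by decide +kernel⟩

def k24_B00pm_011_s3 : ∃ t, chk3 f_B00pm_011_s3 t 20 62 1 = true :=
  ⟨(b (a (b (c (a (c (l 531924495) (l 16694400)) (a (l 16668664) (c (l 16665280) (l 16681384)))) (a (l 530794255) (a (l 16649384) (c (l 16649344) (b (l 16660432) (l 16656072)))))) (c (a (b (a (l 16669872) (b (l 16646200) (a (l 16666008) (l 16664120)))) (c (c (l 16667696) (l 16682344)) (l 16670840))) (b (c (a (l 16657488) (l 16675072)) (l 16679424)) (c (l 16673240) (l 16678048)))) (a (b (a (l 16654736) (c (l 16655016) (b (l 16664944) (l 16663824)))) (a (c (l 16679192) (l 16648176)) (l 16671296))) (b (a (c (l 16650192) (l 16638952)) (c (l 16666992) (l 16656256))) (l 16666568))))) (b (c (a (b (l 16659360)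 (c (a (l 16675560) (l 16672464)) (l 16671672))) (b (c (l 16650768) (l 16663560)) (l 16645552))) (a (b (a (l 16659896) (l 16653384)) (b (a (l 16614768) (l 16630192)) (a (l 16635096) (l 16652312)))) (b (a (b (l 16647688) (l 16625352)) (c (l 16648256) (l 16634960))) (l 16624912)))) (c (a (b (l 16653328) (l 16669808)) (c (l 16662856) (l 16659688))) (a (b (l 16635456) (l 16659536)) (l 16650384))))) (a (b (c (c (a (l 16675032) (l 16668016)) (a (l 16679456) (l 16671048))) (a (a (l 16658136) (l 16655232)) (b (l 16669800) (l 16670576)))) (c (c (l 16664464) (l 16662512)) (a (l 16664728) (l 16654128)))) (c (a (b (l 16662552) (l 16652768)) (c (l 16652336) (l 16650024))) (b (a (l 16664408) (l 16656792)) (a (l 16644440) (l 16635360)))))), by decide +kernel⟩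

def k25_B00pm_011_s3 : ∃ t, chk3 f_B00pm_011_s3 t 21 62 1 = true :=
  ⟨(b (a (a (b (c (c (l 16661960) (l 16652296)) (b (a (l 16616144) (l 16633208)) (l 16596104))) (c (l 16652016) (l 16642520))) (c (b (l 16646440) (l 16641272)) (c (l 16634672) (l 16591344)))) (c (c (l 16629344) (l 16625312)) (b (a (l 16578248) (l 16569664)) (l 16621664)))) (a (c (c (l 16637144) (l 16639824)) (b (l 16643920) (l 16622344))) (b (c (l 16619904) (l 16627368)) (c (l 16615216) (l 16605992))))), by decide +kernel⟩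

def k26_B00pm_011_s3 : ∃ t, chk3 f_B00pm_011_s3 t 10 63 1 = true :=
  ⟨(b (b (a (a (a (c (l 16657496) (c (l 16562360) (l 16554288))) (c (l 16649792) (l 16631752))) (c (l 16618568) (c (l 16623320) (l 16527736)))) (a (c (l 16627072) (l 16579296)) (c (l 16610792) (l 16584112)))) (a (c (a (c (l 16650288) (l 16636440)) (l 16587512)) (a (a (a (l 16538088) (l 16532648)) (l 16566856)) (a (l 16515376) (l 16506472)))) (a (c (l 16617016) (l 16514712)) (c (l 16605248) (b (l 16483448) (l 16471944)))))) (a (b (c (a (a (l 16596056) (l 16630640)) (l 16579128)) (a (b (a (l 16601560) (l 16507184)) (l 16548576)) (b (a (l 16498072) (l 16573848)) (l 16574816)))) (a (l 16527432) (l 16513320))) (a (b (c (l 16609464) (l 16500096)) (l 16500864)) (c (l 16594008) (l 16466440))))), by decide +kernel⟩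

def k27_B00pm_011_s3 : ∃ t, chk3 f_B00pm_011_s3 t 11 31 1 = true :=
  ⟨(b (a (a (c (b (b (l 16607520) (l 16602448)) (c (l 16591120) (l 16599472))) (b (b (l 16556360) (l 16603920)) (b (l 16610000) (l 16590728)))) (c (b (c (l 16540024) (l 16498264)) (c (l 16483520) (l 16577576))) (b (b (l 16495992) (l 16585320)) (l 16545000)))) (c (b (c (a (l 16557768) (l 16533328)) (a (l 16559800) (l 16537064))) (c (b (l 16450776) (l 16443768)) (l 16543672))) (b (a (l 16521368) (l 16543448)) (a (l 16573368) (l 16554448))))) (c (a (b (b (a (l 16588592) (l 16565824)) (b (l 16490280) (l 16487776))) (l 16560008)) (b (b (c (l 16436968) (l 16541040)) (a (l 16537928) (l 16513864))) (l 16513032))) (b (a (b (a (l 16569056) (l 16554992)) (a (l 16463032) (l 16534112))) (b (l 16535608) (a (l 16522712) (l 16512456)))) (a (l 16532488) (l 16512416))))), by decide +kernel⟩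

def k28_B00pm_011_s3 : ∃ t, chk3 f_B00pm_011_s3 t 12 6 1 = true :=
  ⟨(b (a (l 4) (a (l 4) (b (l 1) (b (l 4) (b (l 4) (a (l 530988303) (l 531554575))))))) (a (b (b (l 4) (b (a (l 4) (a (a (l 4) (l 530766095)) (l 531310863))) (a (b (l 4) (l 531062031)) (a (c (c (l 531937807) (l 531009807)) (c (l 530580239) (l 530113551))) (c (l 531480591) (l 530362895)))))) (b (a (c (l 530952463) (l 530337551)) (a (c (c (l 531936015) (l 531001103)) (a (l 530342415) (l 530342671))) (c (b (l 531493647) (l 531223567)) (b (l 530366991) (l 530355471))))) (a (c (l 531245583) (l 530343695)) (c (a (l 531231247) (l 530960655)) (a (l 530340111) (l 530345999)))))) (b (c (b (a (l 531128079) (l 531701775)) (a (b (l 531190031) (b (l 531219471) (l 531234319))) (b (l 531221263) (l 531255055)))) (b (a (l 530313487) (l 530374415)) (a (b (l 530364687) (l 530389007)) (b (l 530419471) (l 530444559))))) (c (a (a (b (c (l 531426575) (l 531037967)) (l 531502863)) (b (l 531520015) (l 531784463))) (b (c (l 531726351) (l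 531082767)) (c (l 531996943) (l 531074575)))) (b (a (b (l 530400015) (l 530391055)) (l 530987023)) (a (a (l 530360591) (l 530384399)) (l 531230991))))))), by decide +kernel⟩

def k29_B00pm_011_s3 : ∃ t, chk3 f_B00pm_011_s3 t 13 6 1 = true :=
  ⟨(b (a (a (a (b (l 1) (b (l 1) (b (l 1) (l 531317775)))) (l 1)) (l 1)) (l 1)) (b (a (b (c (a (a (l 531200271) (l 531762447)) (c (l 531699215) (l 531096591))) (a (a (l 530429199) (l 530468879)) (a (l 530509583) (l 1)))) (c (a (a (l 531536911) (c (l 531462671) (l 531111439))) (c (l 531765263) (l 531155215))) (a (a (l 530481167) (l 530517775)) (c (l 530777871) (l 530366223))))) (a (a (b (l 1) (c (l 531644431) (l 530642447))) (l 1)) (l 1))) (a (c (a (b (c (a (l 531483919) (l 531503375)) (l 531129359)) (c (a (l 531486223) (l 531505935)) (l 531121423))) (b (c (l 531804943) (l 531185935)) (c (a (l 531528207) (l 531552783)) (l 531178255)))) (a (b (c (l 530729231) (l 530293519)) (c (l 530710287) (l 530263311))) (b (c (l 530799119) (l 530377231))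 (c (l 530780431) (l 530347023))))) (c (a (b (c (l 531589647) (l 531252239)) (c (l 532129807) (l 531245071))) (b (c (l 531650063) (l 531326735)) (c (l 531922959) (l 531320335)))) (a (b (l 531216143) (c (l 530860559) (l 530440975))) (b (c (l 530967567) (l 530574351)) (c (l 530950159) (l 530545167)))))))), by decide +kernel⟩

def k30_B00pm_011_s3 : ∃ t, chk3 f_B00pm_011_s3 t 7 6 1 = true :=
  ⟨(b (l 1) (b (l 1) (a (a (a (b (l 1) (a (a (c (l 531539471) (l 16532960)) (l 1)) (l 1))) (l 1)) (l 1)) (l 1)))), by decide +kernel⟩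

def k31_B00pm_011_s3 : ∃ t, chk3 f_B00pm_011_s3 t 12 14 1 = true :=
  ⟨(b (a (a (c (c (b (l 531484175) (l 531531023)) (b (l 531062287) (l 531098127))) (b (l 530355727) (l 530106127))) (a (c (b (l 531254543) (l 531286287)) (b (l 530342415) (l 530351375))) (c (b (l 531245071) (l 531269903)) (b (l 530340879) (l 530342415))))) (a (a (c (b (l 531243279) (l 530992399)) (b (l 530347791) (l 530341647))) (c (b (l 531516175) (l 530989583)) (b (l 530361871) (l 530348047)))) (a (c (b (l 531525135) (l 531797519)) (b (l 530381583) (l 530360847))) (c (b (l 531808783) (l 531805199)) (b (l 530408207) (l 530379535)))))) (a (b (a (c (a (l 531388431) (l 531356175)) (l 530132495)) (c (a (l 531193103) (l 531169807)) (c (l 530610447) (l 530093071)))) (a (c (b (l 531560207) (a (l 531435535) (l 531396623))) (c (l 530678799) (l 530140687))) (c (c (a (l 531582223) (l 531551503)) (a (l 531128079) (l 531100687))) (c (l 530887695) (l 530087439))))) (a (c (b (c (a (l 531499279) (l 531487247)) (l 531328783))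 (c (b (l 531515663) (l 531515919)) (b (l 16541392) (l 16520608)))) (b (a (l 530343183) (l 530341903)) (b (l 530338575) (l 530318863)))) (b (c (c (c (l 531845903) (l 531376399)) (l 531324687)) (c (l 530595343) (l 530096143))) (c (c (b (l 16537712) (l 16515776)) (b (l 16515640) (l 16494408))) (b (l 16525104) (l 16458776))))))), by decide +kernel⟩

def k32_B00pm_011_s3 : ∃ t, chk3 f_B00pm_011_s3 t 13 14 1 = true :=
  ⟨(b (a (b (c (a (a (l 531827215) (l 531848207)) (c (a (l 531518223) (l 531541519)) (l 531155983))) (a (c (l 530679567) (l 530220047)) (c (l 530745871) (l 530299663)))) (c (c (a (a (l 531475215) (l 531489807)) (b (l 531519759) (l 531514639))) (a (l 531352079) (l 531131151))) (c (a (l 530647823) (l 530707983)) (a (l 530174479) (l 16542432))))) (b (c (c (a (c (l 531664399) (l 531494159)) (b (l 16576800) (l 16559392))) (a (l 531220751) (l 531295503))) (c (a (l 530823951) (l 530912783)) (a (l 530391567) (l 16496712)))) (c (c (a (b (l 16562184) (l 16544016)) (b (l 16562544)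 (l 16502384))) (a (l 531190543) (l 531261967))) (c (a (l 530780431) (l 16504752)) (a (l 16475400) (l 16451432)))))) (b (a (c (c (a (b (l 531483663) (l 531487759)) (b (l 531510287) (l 531507983))) (a (l 531610383) (b (l 16507608) (l 16487336)))) (c (a (l 530623759) (l 530671631)) (a (l 530136335) (l 16453360)))) (c (c (a (b (l 16525520) (l 16506744)) (b (l 16483792) (l 16464872))) (a (b (l 16484936) (l 16464432)) (b (l 16463216) (l 16442576)))) (a (c (l 530737167) (l 16511808)) (b (l 16428440) (l 16404944))))) (a (b (c (c (a (l 531757839) (l 531773199)) (a (l 16490600) (l 16466424))) (a (l 16455776) (l 16513344))) (c (c (a (b (l 16496720) (a (l 16492600) (l 16481112))) (b (a (l 16479248) (l 16467936)) (a (l 16470320) (l 16459928)))) (a (b (l 16474472) (l 16506096)) (b (l 16450296) (l 16526784)))) (a (b (l 16437280) (c (l 16523248) (l 16496416))) (b (a (l 16417240) (l 16405040)) (c (l 16418512) (l 16392104)))))) (a (a (c (b (l 16502624) (b (c (l 16457496) (l 16434008)) (l 6))) (b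 (l 16410504) (b (l 16478496) (l 6)))) (b (c (c (l 16460976) (l 16437656)) (l 16398440)) (l 6))) (l 6))))), by decide +kernel⟩

def k33_B00pm_011_s3 : ∃ t, chk3 f_B00pm_011_s3 t 6 30 1 = true :=
  ⟨(a (b (a (b (a (c (a (l 531435023) (l 16598656)) (l 530123279)) (a (c (l 16585312) (l 16500440)) (c (b (l 16535136) (l 16566952)) (b (l 16491416) (l 16479488))))) (a (a (b (c (l 16555288) (l 16513088)) (c (b (l 16590640) (l 16545648)) (b (l 16506544) (l 16507288)))) (b (c (l 16584056) (l 16561680)) (c (l 16535208) (l 16496880)))) (c (a (b (b (l 16531072) (l 16527592)) (l 16523408)) (c (l 16565240) (l 16547512))) (b (a (b (l 16486152) (l 16484960)) (l 16558752)) (l 16482464))))) (a (b (c (c (b (l 16525856) (a (l 16522760) (l 16510768))) (b (l 16504552) (a (l 16501488) (l 16489672)))) (b (l 16469112) (a (b (l 16467280) (l 16464080)) (l 16517520)))) (c (c (l 16547224) (l 16531000)) (b (l 16544832) (l 16463624)))) (b (c (b (c (a (l 16507144) (l 16495440)) (l 16531784)) (c (l 16493368) (l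 16473608))) (b (a (l 16531976) (l 16520104)) (l 16524680))) (c (c (l 16524208) (l 16467912)) (c (l 16452432) (l 16435832)))))) (a (c (b (a (c (l 16580680) (l 16526640)) (c (l 16514176) (l 16503928))) (a (c (l 16523600) (l 16520008)) (c (l 16499016) (l 16497064)))) (b (a (c (l 16513624) (l 16499680)) (c (l 16492936) (l 16481208))) (a (l 16472376) (l 16494160)))) (c (b (a (c (l 16490192) (l 16481688)) (c (l 16467120) (l 16460264))) (a (c (l 16474992) (l 16474560)) (l 6))) (b (a (l 16467872) (l 16365384)) (a (l 16474280) (l 6)))))) (b (a (c (b (c (a (b (l 16520776) (l 16471400)) (l 16496128)) (a (b (l 16457600) (l 16453592)) (l 16436584))) (a (c (l 16460240) (l 16447680)) (l 6))) (b (a (c (b (l 16434488) (l 16434280)) (l 16369552)) (c (l 16417488) (l 16396904))) (a (l 16385128) (l 6)))) (l 6)) (l 6))), by decide +kernel⟩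

def k34_B00pm_011_s3 : ∃ t, chk3 f_B00pm_011_s3 t 6 31 1 = true :=
  ⟨(a (b (a (c (b (a (l 16469360) (l 16445456)) (a (l 16501592) (l 6))) (b (a (l 16523072) (l 16502352)) (a (l 16533568) (l 6)))) (l 6)) (b (a (b (a (c (l 16495024) (l 16517632)) (l 6)) (l 6)) (l 6)) (l 6))) (l 6)), by decide +kernel⟩

def k35_B00pm_011_s3 : ∃ t, chk3 f_B00pm_011_s3 t 7 7 1 = true :=
  ⟨(b (b (a (a (b (c (c (a (b (l 16535872) (l 16518544)) (b (l 1) (l 16499408))) (a (l 531378703) (l 531469583))) (a (c (l 16535304) (l 16557736)) (c (l 16514608) (l 16452184)))) (c (c (a (b (l 16500768) (l 16482560)) (b (l 16481752) (l 16463624))) (a (l 531343375) (l 531433999))) (a (c (l 16493624) (l 16428704)) (a (l 16508528) (l 16498400))))) (b (l 1) (l 6))) (l 1)) (a (a (a (b (a (b (c (l 16458496) (l 16411696)) (l 6)) (l 6)) (l 6)) (l 6)) (l 6)) (l 6))) (l 6)), by decide +kernel⟩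

theorem t36_B00pm_011_s3 : ∃ t, chk3 f_B00pm_011_s3 t 6 15 1 = true := ex3_b k33_B00pm_011_s3 k34_B00pm_011_s3

theorem t37_B00pm_011_s3 : ∃ t, chk3 f_B00pm_011_s3 t 6 14 1 = true := ex3_a k31_B00pm_011_s3 k32_B00pm_011_s3

theorem t38_B00pm_011_s3 : ∃ t, chk3 f_B00pm_011_s3 t 6 7 1 = true := ex3_b t37_B00pm_011_s3 t36_B00pm_011_s3

theorem t39_B00pm_011_s3 : ∃ t, chk3 f_B00pm_011_s3 t 3 7 1 = true := ex3_a t38_B00pm_011_s3 k35_B00pm_011_s3

theorem t40_B00pm_011_s3 : ∃ t, chk3 f_B00pm_011_s3 t 6 6 1 = true := ex3_a k28_B00pm_011_s3 k29_B00pm_011_s3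

theorem t41_B00pm_011_s3 : ∃ t, chk3 f_B00pm_011_s3 t 3 6 1 = true := ex3_a t40_B00pm_011_s3 k30_B00pm_011_s3

theorem t42_B00pm_011_s3 : ∃ t, chk3 f_B00pm_011_s3 t 3 3 1 = true := ex3_b t41_B00pm_011_s3 t39_B00pm_011_s3

theorem t43_B00pm_011_s3 : ∃ t, chk3 f_B00pm_011_s3 t 10 62 1 = true := ex3_a k24_B00pm_011_s3 k25_B00pm_011_s3

theorem t44_B00pm_011_s3 : ∃ t, chk3 f_B00pm_011_s3 t 10 31 1 = true := ex3_b t43_B00pm_011_s3 k26_B00pm_011_s3

theorem t45_B00pm_011_s3 : ∃ t, chk3 f_B00pm_011_s3 t 5 31 1 = true := ex3_a t44_B00pm_011_s3 k27_B00pm_011_s3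

theorem t46_B00pm_011_s3 : ∃ t, chk3 f_B00pm_011_s3 t 11 30 1 = true := ex3_b k22_B00pm_011_s3 k23_B00pm_011_s3

theorem t47_B00pm_011_s3 : ∃ t, chk3 f_B00pm_011_s3 t 10 30 1 = true := ex3_a k20_B00pm_011_s3 k21_B00pm_011_s3

theorem t48_B00pm_011_s3 : ∃ t, chk3 f_B00pm_011_s3 t 5 30 1 = true := ex3_a t47_B00pm_011_s3 t46_B00pm_011_s3

theorem t49_B00pm_011_s3 : ∃ t, chk3 f_B00pm_011_s3 t 5 15 1 = true := ex3_b t48_B00pm_011_s3 t45_B00pm_011_s3

theorem t50_B00pm_011_s3 : ∃ t, chk3 f_B00pm_011_s3 t 5 14 1 = true := ex3_a k18_B00pm_011_s3 k19_B00pm_011_s3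

theorem t51_B00pm_011_s3 : ∃ t, chk3 f_B00pm_011_s3 t 5 7 1 = true := ex3_b t50_B00pm_011_s3 t49_B00pm_011_s3

theorem t52_B00pm_011_s3 : ∃ t, chk3 f_B00pm_011_s3 t 18 126 1 = true := ex3_b k14_B00pm_011_s3 k15_B00pm_011_s3

theorem t53_B00pm_011_s3 : ∃ t, chk3 f_B00pm_011_s3 t 18 63 1 = true := ex3_b t52_B00pm_011_s3 k16_B00pm_011_s3

theorem t54_B00pm_011_s3 : ∃ t, chk3 f_B00pm_011_s3 t 9 63 1 = true := ex3_a t53_B00pm_011_s3 k17_B00pm_011_s3

theorem t55_B00pm_011_s3 : ∃ t, chk3 f_B00pm_011_s3 t 19 62 1 = true := ex3_b k12_B00pm_011_s3 k13_B00pm_011_s3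

theorem t56_B00pm_011_s3 : ∃ t, chk3 f_B00pm_011_s3 t 18 62 1 = true := ex3_a k10_B00pm_011_s3 k11_B00pm_011_s3

theorem t57_B00pm_011_s3 : ∃ t, chk3 f_B00pm_011_s3 t 9 62 1 = true := ex3_a t56_B00pm_011_s3 t55_B00pm_011_s3

theorem t58_B00pm_011_s3 : ∃ t, chk3 f_B00pm_011_s3 t 9 31 1 = true := ex3_b t57_B00pm_011_s3 t54_B00pm_011_s3

theorem t59_B00pm_011_s3 : ∃ t, chk3 f_B00pm_011_s3 t 17 63 1 = true := ex3_b k8_B00pm_011_s3 k9_B00pm_011_s3

theorem t60_B00pm_011_s3 : ∃ t, chk3 f_B00pm_011_s3 t 8 63 1 = true := ex3_a k7_B00pm_011_s3 t59_B00pm_011_s3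

theorem t61_B00pm_011_s3 : ∃ t, chk3 f_B00pm_011_s3 t 8 31 1 = true := ex3_b k6_B00pm_011_s3 t60_B00pm_011_s3

theorem t62_B00pm_011_s3 : ∃ t, chk3 f_B00pm_011_s3 t 4 31 1 = true := ex3_a t61_B00pm_011_s3 t58_B00pm_011_s3

theorem t63_B00pm_011_s3 : ∃ t, chk3 f_B00pm_011_s3 t 9 30 1 = true := ex3_a k4_B00pm_011_s3 k5_B00pm_011_s3

theorem t64_B00pm_011_s3 : ∃ t, chk3 f_B00pm_011_s3 t 4 30 1 = true := ex3_a k3_B00pm_011_s3 t63_B00pm_011_s3

theorem t65_B00pm_011_s3 : ∃ t, chk3 f_B00pm_011_s3 t 4 15 1 = true := ex3_b t64_B00pm_011_s3 t62_B00pm_011_s3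

theorem t66_B00pm_011_s3 : ∃ t, chk3 f_B00pm_011_s3 t 4 7 1 = true := ex3_b k2_B00pm_011_s3 t65_B00pm_011_s3

theorem t67_B00pm_011_s3 : ∃ t, chk3 f_B00pm_011_s3 t 2 7 1 = true := ex3_a t66_B00pm_011_s3 t51_B00pm_011_s3

theorem t68_B00pm_011_s3 : ∃ t, chk3 f_B00pm_011_s3 t 2 3 1 = true := ex3_b k1_B00pm_011_s3 t67_B00pm_011_s3

theorem t69_B00pm_011_s3 : ∃ t, chk3 f_B00pm_011_s3 t 1 3 1 = true := ex3_a t68_B00pm_011_s3 t42_B00pm_011_s3

theorem t70_B00pm_011_s3 : ∃ t, chk3 f_B00pm_011_s3 t 1 1 1 = true := ex3_b k0_B00pm_011_s3 t69_B00pm_011_s3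

theorem c_B00pm_011_s3 : CertF 0 536870912 536870912 536870912 923417968 42949674 false true false .pnn 0 1 1
    ndB0q0 ndB0q1 pcB1 cut_B00pm_011_s3 xt_B00pm_011_s3 :=
  certF0 (fam := false) (s1 := true) (s2 := false) (a := 0) (b := 1) (c := 1) (cn := .pnn) (n1 := ndB0q0) (n2 := ndB0q1) (pc := pcB1) (cut := cut_B00pm_011_s3) (xt := xt_B00pm_011_s3) (P1 := 0) (W1 := 536870912) (P2 := 536870912) (W2 := 536870912) (P3 := 923417968) (W3 := 42949674)
    rfl t70_B00pm_011_s3

theorem s_B00pm_011_s3 {κ x : ℝ} (hκ : κ * h0 = ken x) (hx : ((923417968 : ℕ) : ℝ) / S ≤ x)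
    (hx' : x ≤ (((923417968 : ℕ) : ℝ) + (42949674 : ℕ)) / S)
    (H : CutB (VFD κ) PP tK tL pcB (Cut.of [[⟨0, 0, 0, 67108864⟩, ⟨1, 1, 0, 67108864⟩, ⟨2, 1, 0, 67108864⟩]]) 0 1 1 0 0 (sgb true) (sgb false) x) :
    AltB (VFD κ) PP tK tL pcB [⟨4, 0, 0, 2845415833⟩] 0 1 1 0 0 (sgb true) (sgb false) x :=
  strip_altBD (m := 2845415833) false rfl hκ (SH.κ0 hκ (SH.hx1 hx).le (SH.hx2 hx').le) (SH.hx1 hx).le (SH.hx2 hx') (covB00).cov (covB01).cov hx hx' c_B00pm_011_s3 H ((okx hx hx').extB (T := tt) (sideB hx hx') hκ rfl rfl (.O 0 true) (.O 1 false) (Or.inr rfl))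

noncomputable def cut_B00pm_012_s1 : Cut := Cut.of [[⟨4, 0, 0, 1449551462⟩], [⟨0, 0, 0, 67108864⟩, ⟨1, 1, 0, 67108864⟩, ⟨2, 1, 0, 67108864⟩]]

noncomputable def xt_B00pm_012_s1 : Ext := strExt dd false true false .u0 .u2 .u0m .pnp 0 1 2 rfl rfl gf1 vv ndB0q0 ndB0q2

noncomputable def f_B00pm_012_s1 : ℕ → ℕ → ℕ → ℕ → Bool := onCell 0 536870912 0 536870912 923417968 42949674
    (rowF 0 false true false .pnp 0 1 2 (qsf 0 536870912 0 536870912 1) ndB0q0 ndB0q2 pcB1 cut_B00pm_012_s1 xt_B00pm_012_s1)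

def k0_B00pm_012_s1 : ∃ t, chk3 f_B00pm_012_s1 t 1 1 1 = true :=
  ⟨(a (l 6) (b (a (b (a (l 6) (b (b (a (l 6) (a (l 6) (l 6))) (l 6)) (l 6))) (l 6)) (b (a (b (b (a (c (a (l 16454368) (l 531186703)) (a (c (l 16495592) (l 16525248)) (l 532397583))) (c (a (l 531039759) (l 530375695)) (a (c (l 16497656) (l 16524504)) (l 531377167)))) (a (l 6) (c (a (l 531506191) (l 530578447)) (a (c (l 16456352) (l 16487880)) (l 531568143))))) (l 6)) (b (b (a (a (c (l 529988111) (l 531025679)) (c (l 529612047) (l 530689807))) (a (c (l 529245967) (l 530368527)) (c (l 528891663) (l 530064655)))) (a (c (a (l 530193679) (l 529819919)) (a (l 531218447) (l 530883855))) (a (c (l 529455375) (l 530562575)) (c (l 529100815) (l 530256399))))) (b (a (c (a (l 530372111) (l 530000399)) (a (l 531387407) (l 530785551))) (c (a (l 529637391) (l 529282831)) (a (l 530733071) (l 530425359)))) (a (l 6) (c (a (l 529794831) (b (l 16317632) (l 16285080))) (a (l 530748943) (l 530305295))))))) (l 6))) (l 6))), by decide +kernel⟩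

theorem c_B00pm_012_s1 : CertF 0 536870912 0 536870912 923417968 42949674 false true false .pnp 0 1 2
    ndB0q0 ndB0q2 pcB1 cut_B00pm_012_s1 xt_B00pm_012_s1 :=
  certF0 (fam := false) (s1 := true) (s2 := false) (a := 0) (b := 1) (c := 2) (cn := .pnp) (n1 := ndB0q0) (n2 := ndB0q2) (pc := pcB1) (cut := cut_B00pm_012_s1) (xt := xt_B00pm_012_s1) (P1 := 0) (W1 := 536870912) (P2 := 0) (W2 := 536870912) (P3 := 923417968) (W3 := 42949674)
    rfl k0_B00pm_012_s1

theorem s_B00pm_012_s1 {κ x : ℝ} (hκ : κ * h0 = ken x) (hx : ((923417968 : ℕ) : ℝ) / S ≤ x)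
    (hx' : x ≤ (((923417968 : ℕ) : ℝ) + (42949674 : ℕ)) / S)
    (H : CutB (VFD κ) PP tK tL pcB (Cut.of [[⟨0, 0, 0, 67108864⟩, ⟨1, 1, 0, 67108864⟩, ⟨2, 1, 0, 67108864⟩]]) 0 1 2 0 0 (sgb true) (sgb false) x) :
    AltB (VFD κ) PP tK tL pcB [⟨3, 0, 0, 1449551462⟩] 0 1 2 0 0 (sgb true) (sgb false) x :=
  strip_altBD (m := 1449551462) true rfl hκ (SH.κ0 hκ (SH.hx1 hx).le (SH.hx2 hx').le) (SH.hx1 hx).le (SH.hx2 hx') (covB00).cov (covB02).cov hx hx' c_B00pm_012_s1 H ((okx hx hx').extB (T := tt) (sideB hx hx') hκ rfl rfl (.O 0 true) (.O 2 false) (Or.inr rfl))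

noncomputable def cut_B00pm_012_s3 : Cut := Cut.of [[⟨3, 0, 0, 2845415833⟩], [⟨0, 0, 0, 67108864⟩, ⟨1, 1, 0, 67108864⟩, ⟨2, 1, 0, 67108864⟩]]

noncomputable def f_B00pm_012_s3 : ℕ → ℕ → ℕ → ℕ → Bool := onCell 0 536870912 0 536870912 923417968 42949674
    (rowF 0 false true false .pnp 0 1 2 (qsf 0 536870912 0 536870912 1) ndB0q0 ndB0q2 pcB1 cut_B00pm_012_s3 Ext.none)

def k0_B00pm_012_s3 : ∃ t, chk3 f_B00pm_012_s3 t 2 2 1 = true :=
  ⟨(l 6), by decide +kernel⟩

def k1_B00pm_012_s3 : ∃ t, chk3 f_B00pm_012_s3 t 4 6 1 = true :=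
  ⟨(a (l 2) (b (l 6) (a (b (l 6) (l 6)) (l 6)))), by decide +kernel⟩

def k2_B00pm_012_s3 : ∃ t, chk3 f_B00pm_012_s3 t 4 14 1 = true :=
  ⟨(a (a (l 2) (b (a (l 2) (b (l 2) (a (l 2) (a (b (l 2) (l 14)) (c (b (b (l 16442048) (l 16448960)) (l 16459968)) (b (l 16454760) (l 16447480))))))) (a (l 14) (a (l 14) (a (l 14) (b (c (b (l 16475688) (l 16492576)) (l 16449504)) (c (l 16519968) (l 16462952)))))))) (a (b (a (b (a (b (a (l 2) (c (l 16415600) (l 16403576))) (c (a (b (l 16426816) (l 16433016)) (l 16427408)) (a (l 16417992) (l 16414544)))) (b (a (c (l 16413168) (l 16400280)) (l 6)) (c (l 16423560) (l 16409384)))) (a (c (a (b (l 16442928) (l 16457256)) (b (l 16440296) (l 16454488))) (b (a (l 16430192) (l 16426600)) (l 16399904))) (c (a (l 16402640) (l 16441800)) (c (l 16389712) (l 16381808))))) (b (a (a (b (l 6) (l 16412048)) (l 6)) (l 6)) (a (c (l 16395672) (l 16378536)) (c (l 16432080) (l 16413400))))) (c (a (b (a (a (l 16439216) (l 16478160)) (l 16431640)) (a (l 16473096) (l 16508312)))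 (b (a (l 16467432) (l 16461336)) (l 16456216))) (a (b (a (a (l 16424528) (l 16462456)) (l 16414520)) (a (l 16456384) (l 16489608))) (b (a (l 16448568) (l 16440848)) (l 16476760))))) (b (a (b (l 6) (c (l 16382136) (l 16361368))) (l 6)) (b (a (c (l 16368640) (l 16345944)) (b (l 16338560) (l 16436704))) (a (a (l 16476592) (l 16469608)) (l 16459968)))))), by decide +kernel⟩

def k3_B00pm_012_s3 : ∃ t, chk3 f_B00pm_012_s3 t 4 15 1 = true :=
  ⟨(a (a (l 14) (a (l 14) (a (l 14) (a (l 14) (a (l 14) (b (b (c (l 16558616) (l 16541856)) (l 16550120)) (b (l 16551904) (b (l 16585400) (l 16691880))))))))) (b (a (a (b (a (c (l 16554064) (l 16535888)) (c (l 16546648) (l 16526400))) (a (c (l 16595864) (l 16576416)) (c (l 16587736) (l 16566128)))) (b (c (l 16535480) (l 16512424)) (a (l 16484152) (l 16559048)))) (a (b (c (l 16521104) (l 16494728)) (c (l 16559776) (l 16531728))) (b (l 16409880) (l 16446336)))) (a (b (a (a (c (l 16555816) (l 16618976)) (a (l 16538240) (l 16533272))) (a (l 16525864)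 (l 16516128))) (a (b (a (l 16578848) (l 16568328)) (a (l 16622176) (l 16611280))) (b (l 16552712) (a (l 16579480) (l 16568816))))) (b (a (l 16502056) (l 16484736)) (a (b (l 16532672) (l 16563848)) (a (l 16528816) (l 16519960))))))), by decide +kernel⟩

def k4_B00pm_012_s3 : ∃ t, chk3 f_B00pm_012_s3 t 5 3 1 = true :=
  ⟨(b (l 6) (b (a (a (b (l 6) (b (l 6) (a (l 16449128) (l 6)))) (l 6)) (l 6)) (a (b (a (a (c (l 16431184) (l 16398728)) (c (l 16422048) (l 16471608))) (c (l 16410784) (l 16353416))) (a (b (a (l 16469760) (l 16457632)) (a (a (l 16511736) (l 16504232)) (l 16515304))) (b (c (l 16545576) (l 16505552)) (a (l 16482424) (l 16555168))))) (b (l 6) (a (b (l 16424304) (l 16455968)) (b (l 6) (l 16437400))))))), by decide +kernel⟩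

def k5_B00pm_012_s3 : ∃ t, chk3 f_B00pm_012_s3 t 3 1 1 = true :=
  ⟨(b (l 6) (b (l 6) (l 6))), by decide +kernel⟩

theorem t6_B00pm_012_s3 : ∃ t, chk3 f_B00pm_012_s3 t 4 7 1 = true := ex3_b k2_B00pm_012_s3 k3_B00pm_012_s3

theorem t7_B00pm_012_s3 : ∃ t, chk3 f_B00pm_012_s3 t 4 3 1 = true := ex3_b k1_B00pm_012_s3 t6_B00pm_012_s3

theorem t8_B00pm_012_s3 : ∃ t, chk3 f_B00pm_012_s3 t 2 3 1 = true := ex3_a t7_B00pm_012_s3 k4_B00pm_012_s3

theorem t9_B00pm_012_s3 : ∃ t, chk3 f_B00pm_012_s3 t 2 1 1 = true := ex3_b k0_B00pm_012_s3 t8_B00pm_012_s3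

theorem t10_B00pm_012_s3 : ∃ t, chk3 f_B00pm_012_s3 t 1 1 1 = true := ex3_a t9_B00pm_012_s3 k5_B00pm_012_s3

theorem c_B00pm_012_s3 : CertF 0 536870912 0 536870912 923417968 42949674 false true false .pnp 0 1 2
    ndB0q0 ndB0q2 pcB1 cut_B00pm_012_s3 Ext.none :=
  certF0 (fam := false) (s1 := true) (s2 := false) (a := 0) (b := 1) (c := 2) (cn := .pnp) (n1 := ndB0q0) (n2 := ndB0q2) (pc := pcB1) (cut := cut_B00pm_012_s3) (xt := Ext.none) (P1 := 0) (W1 := 536870912) (P2 := 0) (W2 := 536870912) (P3 := 923417968) (W3 := 42949674)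
    rfl t10_B00pm_012_s3

theorem s_B00pm_012_s3 {κ x : ℝ} (hκ : κ * h0 = ken x) (hx : ((923417968 : ℕ) : ℝ) / S ≤ x)
    (hx' : x ≤ (((923417968 : ℕ) : ℝ) + (42949674 : ℕ)) / S)
    (H : CutB (VFD κ) PP tK tL pcB (Cut.of [[⟨0, 0, 0, 67108864⟩, ⟨1, 1, 0, 67108864⟩, ⟨2, 1, 0, 67108864⟩]]) 0 1 2 0 0 (sgb true) (sgb false) x) :
    AltB (VFD κ) PP tK tL pcB [⟨4, 0, 0, 2845415833⟩] 0 1 2 0 0 (sgb true) (sgb false) x :=
  strip_altBD (m := 2845415833) false rfl hκ (SH.κ0 hκ (SH.hx1 hx).le (SH.hx2 hx').le) (SH.hx1 hx).le (SH.hx2 hx') (covB00).cov (covB02).cov hx hx' c_B00pm_012_s3 H (noExt_B)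

noncomputable def cut_B00pm_022_s1 : Cut := Cut.of [[⟨4, 0, 0, 1449551462⟩], [⟨0, 0, 0, 67108864⟩, ⟨1, 1, 0, 67108864⟩, ⟨2, 1, 0, 67108864⟩]]

noncomputable def f_B00pm_022_s1 : ℕ → ℕ → ℕ → ℕ → Bool := onCell 1073741824 536870912 0 536870912 923417968 42949674
    (rowF 2 false true false .pp 0 2 2 (qsf 0 536870912 0 536870912 2) ndB0q0 ndB0q2 pcB2 cut_B00pm_022_s1 Ext.none)

def k0_B00pm_022_s1 : ∃ t, chk3 f_B00pm_022_s1 t 1 1 1 = true :=
  ⟨(l 6), by decide +kernel⟩

theorem c_B00pm_022_s1 : CertF 0 536870912 0 536870912 923417968 42949674 false true false .pp 0 2 2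
    ndB0q0 ndB0q2 pcB2 cut_B00pm_022_s1 Ext.none :=
  certF2 (fam := false) (s1 := true) (s2 := false) (a := 0) (b := 2) (c := 2) (cn := .pp) (n1 := ndB0q0) (n2 := ndB0q2) (pc := pcB2) (cut := cut_B00pm_022_s1) (xt := Ext.none) (P1 := 0) (W1 := 536870912) (P2 := 0) (W2 := 536870912) (P3 := 923417968) (W3 := 42949674)
    rfl (fun _ => rfl) k0_B00pm_022_s1

theorem s_B00pm_022_s1 {κ x : ℝ} (hκ : κ * h0 = ken x) (hx : ((923417968 : ℕ) : ℝ) / S ≤ x)
    (hx' : x ≤ (((923417968 : ℕ) : ℝ) + (42949674 : ℕ)) / S)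
    (H : CutB (VFD κ) PP tK tL pcB (Cut.of [[⟨0, 0, 0, 67108864⟩, ⟨1, 1, 0, 67108864⟩, ⟨2, 1, 0, 67108864⟩]]) 0 2 2 0 0 (sgb true) (sgb false) x) :
    AltB (VFD κ) PP tK tL pcB [⟨3, 0, 0, 1449551462⟩] 0 2 2 0 0 (sgb true) (sgb false) x :=
  strip_altBD (m := 1449551462) true rfl hκ (SH.κ0 hκ (SH.hx1 hx).le (SH.hx2 hx').le) (SH.hx1 hx).le (SH.hx2 hx') (covB00).cov (covB02).cov hx hx' c_B00pm_022_s1 H (noExt_B)

noncomputable def cut_B00pm_022_s3 : Cut := Cut.of [[⟨3, 0, 0, 2845415833⟩], [⟨0, 0, 0, 67108864⟩, ⟨1, 1, 0, 67108864⟩, ⟨2, 1, 0, 67108864⟩]]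

noncomputable def f_B00pm_022_s3 : ℕ → ℕ → ℕ → ℕ → Bool := onCell 0 536870912 0 536870912 923417968 42949674
    (rowF 0 false true false .pp 0 2 2 (qsf 0 536870912 0 536870912 2) ndB0q0 ndB0q2 pcB2 cut_B00pm_022_s3 Ext.none)

def k0_B00pm_022_s3 : ∃ t, chk3 f_B00pm_022_s3 t 1 1 1 = true :=
  ⟨(a (b (l 6) (a (b (a (a (b (l 6) (a (b (a (b (b (l 6) (c (l 16437616) (l 16425912))) (b (c (l 16448512) (l 16437232)) (c (l 16459752) (l 16448936)))) (b (l 6) (c (l 16499440) (l 16490784)))) (c (a (b (a (b (l 16486056) (l 16497952)) (l 16504480)) (a (b (l 16510216) (l 16522840)) (l 16529128))) (b (l 16522912) (l 16547736))) (a (b (b (l 16461032) (l 16473528)) (b (l 16486416) (l 16499704))) (b (l 16515392) (l 16541496))))) (b (a (b (l 6) (l 16520112)) (l 6)) (a (c (l 16496408) (l 16492224)) (l 16518912))))) (b (l 6) (b (l 6) (a (a (l 16603624) (l 16573544)) (a (l 16543568) (l 16513840)))))) (b (l 6) (a (b (l 6) (l 6)) (l 6)))) (a (b (a (b (b (b (a (a (a (c (l 16535832) (l 16527352)) (l 16544944))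 (l 16564624)) (l 16518808)) (a (a (a (c (l 16549208) (l 16541408)) (l 16558696)) (l 16578424)) (l 16532664))) (b (a (a (c (a (l 16562776) (l 16575520)) (l 16541760)) (l 16592408)) (l 16546656)) (l 14))) (l 14)) (b (b (a (l 16582904) (l 16518584)) (a (a (l 16596784) (l 16563024)) (a (l 16529440) (l 16496192)))) (a (l 14) (a (l 14) (a (l 14) (l 1)))))) (a (l 14) (a (l 14) (l 1)))) (b (a (b (a (b (l 16455752) (l 16447232)) (l 1)) (l 1)) (l 1)) (l 1)))) (b (l 1) (l 1)))) (l 1)), by decide +kernel⟩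

theorem c_B00pm_022_s3 : CertF 0 536870912 0 536870912 923417968 42949674 false true false .pp 0 2 2
    ndB0q0 ndB0q2 pcB2 cut_B00pm_022_s3 Ext.none :=
  certF0 (fam := false) (s1 := true) (s2 := false) (a := 0) (b := 2) (c := 2) (cn := .pp) (n1 := ndB0q0) (n2 := ndB0q2) (pc := pcB2) (cut := cut_B00pm_022_s3) (xt := Ext.none) (P1 := 0) (W1 := 536870912) (P2 := 0) (W2 := 536870912) (P3 := 923417968) (W3 := 42949674)
    rfl k0_B00pm_022_s3

theorem s_B00pm_022_s3 {κ x : ℝ} (hκ : κ * h0 = ken x) (hx : ((923417968 : ℕ) : ℝ) / S ≤ x)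
    (hx' : x ≤ (((923417968 : ℕ) : ℝ) + (42949674 : ℕ)) / S)
    (H : CutB (VFD κ) PP tK tL pcB (Cut.of [[⟨0, 0, 0, 67108864⟩, ⟨1, 1, 0, 67108864⟩, ⟨2, 1, 0, 67108864⟩]]) 0 2 2 0 0 (sgb true) (sgb false) x) :
    AltB (VFD κ) PP tK tL pcB [⟨4, 0, 0, 2845415833⟩] 0 2 2 0 0 (sgb true) (sgb false) x :=
  strip_altBD (m := 2845415833) false rfl hκ (SH.κ0 hκ (SH.hx1 hx).le (SH.hx2 hx').le) (SH.hx1 hx).le (SH.hx2 hx') (covB00).cov (covB02).cov hx hx' c_B00pm_022_s3 H (noExt_B)

end Pool.Agent.Strip051.G.I8600_9000.Tab.St.C
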