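import Pool.Agent.Strip051.G.I8600_9000.StH
import Pool.Agent.Strip051.G.I8600_9000.StF

/-! # Unit strips 15 (generated) -/

set_option linter.all false
set_option maxRecDepth 100000

namespace Pool.Agent.Strip051.G.I8600_9000.Tab.St.C

open Pool.Agent.Strip051.PB Pool.Agent.Strip051.PB.T Pool.Agent.StripNear Pool.Agent.Strip051.LC
open Pool.Agent.Strip051.G.I8600_9000.Tab Pool.Agent.Strip051.G.I8600_9000.Tab.St

noncomputable def cut_B00pm_101_s1 : Cut := Cut.of [[⟨4, 0, 0, 1449551462⟩], [⟨0, 1, 0, 33554432⟩, ⟨1, 0, 0, 33554432⟩, ⟨2, 1, 0, 33554432⟩], [⟨0, 0, 1, 20971520⟩, ⟨1, 1, 2, 20971520⟩, ⟨2, 1, 0, 8388608⟩]]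

noncomputable def f_B00pm_101_s1 : ℕ → ℕ → ℕ → ℕ → Bool := onCell 0 536870912 536870912 536870912 923417968 42949674
    (rowF 2 false true false .npn 1 0 1 (qsf 536870912 536870912 536870912 536870912 0) ndB0q1 ndB0q1 pcB0 cut_B00pm_101_s1 Ext.none)

def k0_B00pm_101_s1 : ∃ t, chk3 f_B00pm_101_s1 t 2 2 1 = true :=
  ⟨(l 6), by decide +kernel⟩

def k1_B00pm_101_s1 : ∃ t, chk3 f_B00pm_101_s1 t 4 6 1 = true :=
  ⟨(l 6), by decide +kernel⟩

def k2_B00pm_101_s1 : ∃ t, chk3 f_B00pm_101_s1 t 8 14 1 = true :=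
  ⟨(l 6), by decide +kernel⟩

def k3_B00pm_101_s1 : ∃ t, chk3 f_B00pm_101_s1 t 16 60 1 = true :=
  ⟨(a (a (c (b (c (l 16801400) (b (l 16806032) (l 16797120))) (c (c (l 16782064) (l 16782600)) (a (l 16777136) (l 16789960)))) (b (c (a (l 16816080) (l 16829496)) (a (b (l 16840928) (l 16812160)) (b (l 6) (l 16826264)))) (c (a (c (l 16819824) (l 16799392)) (c (l 16833096) (l 16812968))) (a (c (b (l 16825048) (l 16816872)) (b (l 16825496) (l 16796680))) (c (c (l 16813632) (l 16814080)) (b (l 16839712) (l 16810864))))))) (a (c (b (c (l 16862008) (l 16821280)) (c (l 16843240) (l 16803360))) (b (b (l 6) (c (l 16860352) (l 16841072))) (c (c (l 16805024) (l 16806184)) (c (a (l 16803704) (l 16811128)) (b (l 16812648) (l 16825672)))))) (b (l 6) (c (c (l 16772736) (l 16817376)) (c (c (l 16819536) (l 16821032)) (c (b (l 16826752) (l 16818472)) (b (l 16828232) (l 16841152)))))))) (b (l 6) (c (b (a (c (l 16798720) (l 16844240)) (l 6)) (a (c (l 16789392) (l 16835216)) (c (l 16828472) (l 16842776)))) (a (c (a (l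 16856624) (l 16855736)) (b (a (l 16863544) (l 6)) (a (c (l 16834328) (l 16836384)) (c (l 16829368) (l 16847280))))) (a (b (l 6) (c (l 16821456) (c (l 16858336) (l 16833904)))) (l 6)))))), by decide +kernel⟩

def k4_B00pm_101_s1 : ∃ t, chk3 f_B00pm_101_s1 t 32 122 1 = true :=
  ⟨(a (b (a (c (c (l 16803112) (l 16804872)) (c (l 16806832) (a (l 16805544) (l 16812448)))) (c (l 16795816) (c (l 16820392) (a (l 16819480) (l 16826664))))) (c (c (l 16777904) (a (l 16794864) (l 16808152))) (c (a (l 16797480) (l 16811208)) (a (c (l 16799592) (a (l 16797584) (l 16804592))) (c (l 16813648) (a (l 16811736) (l 16819008))))))) (c (c (b (l 16793552) (l 16783552)) (a (l 16805744) (l 16798976))) (a (b (c (l 16834504) (c (l 16836888) (l 16817576))) (c (l 16804464) (a (l 16814984) (l 16822480)))) (c (c (l 16801784) (l 16824704)) (c (b (l 16810072) (l 16801448)) (b (l 16832992) (l 16824624))))))), by decide +kernel⟩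

def k5_B00pm_101_s1 : ∃ t, chk3 f_B00pm_101_s1 t 64 123 1 = true :=
  ⟨(b (c (c (a (a (l 16757088) (l 16784560)) (l 16794488)) (a (l 16784328) (l 16797888))) (c (a (c (l 16786776) (l 16788488)) (c (l 16800616) (l 16802520))) (c (a (a (l 16786792) (l 16793784)) (l 16794008)) (a (c (a (l 16788144) (l 16795200)) (a (l 16789064) (l 16796168))) (a (l 16802896) (l 16810216)))))) (c (a (b (b (c (l 16753016) (l 16777440)) (b (c (a (b (l 16768776) (l 16747120)) (l 16774960)) (l 16754232)) (l 16752448))) (c (l 16752064) (l 16776520))) (b (b (l 16789264) (b (c (l 16785104) (l 16789000)) (l 16786912))) (l 16788016))) (b (a (c (b (l 16781192) (b (c (l 16757120) (l 16769624)) (l 16779144))) (b (c (l 16784200) (c (l 16785768) (l 16786840))) (b (c (b (l 16782648) (c (l 16760552) (l 16772112))) (b (l 16779568) (b (l 16784352) (a (l 16780688) (l 16787792))))) (c (l 16782256) (l 16784432))))) (c (b (l 16795280) (b (c (l 16792128) (l 16794304)) (l 16793112))) (b (c (l 16798544) (l 16800808)) (b (a (b (l 16794504)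 (a (l 16786816) (l 16790440))) (c (l 16800232) (l 16802608))) (l 16797624))))) (c (a (l 16780304) (l 16794016)) (a (a (l 16775696) (l 16777344)) (c (l 16797264) (l 16799528))))))), by decide +kernel⟩

def k6_B00pm_101_s1 : ∃ t, chk3 f_B00pm_101_s1 t 65 123 1 = true :=
  ⟨(b (c (c (l 16773128) (c (l 16776104) (l 16778176))) (c (a (l 16794984) (l 16809896)) (c (a (l 16798232) (l 16813464)) (a (a (l 16817672) (l 16825256)) (c (l 16815304) (l 16816560)))))) (c (a (b (b (l 16803256) (b (l 16801080) (l 16800792))) (l 16801656)) (b (b (l 16817688) (c (l 16813128) (l 16796776))) (l 16815744))) (a (b (c (b (l 16809808) (b (l 16807792) (l 16807520))) (b (c (l 16813344) (l 16815792)) (b (c (l 16811416) (a (l 16810128) (l 16817792))) (l 16812392)))) (c (l 16808168) (c (l 16811672) (l 16814104)))) (b (c (b (l 16824824) (b (l 16822920) (l 16822520))) (b (c (l 16828656) (l 16810328)) (b (c (l 16826824) (l 16808560)) (c (l 16826432) (l 16808168))))) (c (l 16822792) (l 16817384)))))), by decide +kernel⟩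

def k7_B00pm_101_s1 : ∃ t, chk3 f_B00pm_101_s1 t 33 61 2 = true :=
  ⟨(a (b (c (a (l 16809696) (l 16782608)) (a (l 16813768) (l 16829208))) (b (c (l 16802256) (l 16817648)) (b (c (b (l 16795816) (b (l 16751896) (l 16793264))) (b (l 16800976) (b (l 16799080) (l 16819488)))) (l 16795872)))) (b (c (a (l 16790296) (l 16820992)) (a (l 16825744) (l 16834800))) (b (c (l 16824232) (l 16827680)) (b (c (b (l 16781200) (l 16822832)) (b (l 16815992) (b (l 16815632) (l 16815000)))) (l 16815144))))), by decide +kernel⟩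

def k8_B00pm_101_s1 : ∃ t, chk3 f_B00pm_101_s1 t 33 61 3 = true :=
  ⟨(b (c (a (a (c (l 16817000) (l 16840200)) (c (l 16832368) (l 16829240))) (a (c (l 16820688) (l 16838200)) (b (l 16807056) (l 16826472)))) (a (b (a (c (l 16825864) (l 16849096)) (c (l 16827184) (l 16844968))) (a (c (l 16817224) (l 16840672)) (c (l 16824752) (l 16842392)))) (a (a (b (l 16837104) (l 16834896)) (b (l 16841032) (l 16839032))) (c (b (l 16822280) (l 16820648)) (b (c (l 16840320) (l 16827856)) (c (l 16817672) (l 16826144))))))) (c (b (a (a (l 16804392) (l 16820464)) (a (l 16815832) (l 16824688))) (a (b (b (c (l 16805048) (l 16807864)) (b (c (l 16803216) (l 16806072)) (a (l 16796072) (l 16812112)))) (l 16824792)) (b (b (c (l 16810424) (l 16806616)) (b (l 16829104) (a (l 16813288) (l 16822592)))) (l 16825392)))) (b (a (a (c (l 16808304) (l 16831976)) (c (l 16822160) (l 16839648))) (a (a (l 16842976) (l 16836816)) (c (l 16818760) (a (l 16838960) (l 16832360))))) (a (a (b (b (c (l 16802576) (l 16805432)) (b (l 16823232)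 (c (l 16800296) (l 16824184)))) (l 16822456)) (b (b (l 16839648) (b (l 16839120) (c (l 16816664) (l 16836376)))) (l 16834800))) (a (b (b (c (l 16808824) (l 16825952)) (b (c (l 16850312) (l 16825472)) (b (a (l 16830144) (l 16834688)) (l 16805616)))) (l 16823696)) (b (c (b (l 16838432) (b (l 16838040) (l 16827048))) (b (l 16813360) (b (l 16812944) (b (c (l 16834856) (l 16822288)) (l 16833296))))) (c (l 16834832) (l 16809888)))))))), by decide +kernel⟩

def k9_B00pm_101_s1 : ∃ t, chk3 f_B00pm_101_s1 t 34 60 1 = true :=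
  ⟨(l 6), by decide +kernel⟩

def k10_B00pm_101_s1 : ∃ t, chk3 f_B00pm_101_s1 t 34 61 2 = true :=
  ⟨(a (b (a (b (l 16826544) (l 16825440)) (c (l 16796272) (b (l 6) (l 16829112)))) (b (c (l 16800888) (c (l 16794760) (l 16811552))) (b (c (a (l 16806456) (l 16794152)) (b (l 16791776) (a (l 16818992) (l 16806272)))) (l 16803120)))) (b (b (l 6) (a (a (l 16823240) (l 16816232)) (a (l 16809112) (l 6)))) (b (c (a (l 16823384) (l 16809560)) (a (l 16814240) (l 16799760))) (b (a (c (l 16823016) (b (l 16813648) (l 16792744))) (c (l 16809112) (l 16778480))) (a (l 16815800) (l 16760296)))))), by decide +kernel⟩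

def k11_B00pm_101_s1 : ∃ t, chk3 f_B00pm_101_s1 t 68 61 3 = true :=
  ⟨(b (a (c (b (l 16814416) (l 16813280)) (b (b (l 6) (a (l 16809336) (l 16812488))) (c (l 16806944) (a (l 16827184) (l 16819952))))) (b (l 6) (c (c (l 16822480) (l 16817960)) (c (a (l 16817064) (l 16809616)) (a (c (l 16813632) (l 16811312)) (c (l 16806048) (l 16803640))))))) (c (b (a (l 16811848) (c (l 16821448) (l 16816944))) (b (b (c (l 16785392) (l 16802008)) (c (a (l 16812824) (l 16799696)) (b (l 16801720) (a (l 16808096) (l 16805312))))) (c (l 16782456) (l 16799216)))) (b (c (a (l 16815952) (a (l 16815960) (l 16808712))) (a (c (l 16812704) (b (l 16810888) (l 16810072))) (a (c (l 16812528) (l 16810216)) (c (l 16805160) (l 16802768))))) (b (c (b (a (l 16825376) (l 16811552)) (b (a (l 16825048) (l 16811296)) (a (b (l 16824944) (l 16824488)) (b (l 16811168) (l 16800424))))) (a (b (l 16810512) (b (l 16810176) (a (b (l 16823920) (l 16823512)) (b (l 16817064) (l 16816728))))) (b (a (l 16810496) (l 16803240)) (b (c (l 16807800)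 (l 16805448)) (b (c (l 16807672) (l 16805312)) (b (a (l 16809968) (l 16802856)) (l 16806256))))))) (a (a (l 16813032) (l 16806568)) (c (l 16809216) (b (l 16794952) (l 16793480)))))))), by decide +kernel⟩

def k12_B00pm_101_s1 : ∃ t, chk3 f_B00pm_101_s1 t 69 61 3 = true :=
  ⟨(b (b (l 6) (a (b (l 6) (c (l 16805312) (c (l 16797920) (a (l 16796848) (l 16788864))))) (a (a (c (l 16795944) (l 16785552)) (l 6)) (l 6)))) (b (c (a (c (l 16807168) (l 16802336)) (c (l 16792184) (l 16787024))) (a (c (a (l 16801224) (l 16793592)) (a (c (l 16797552) (l 16795072)) (c (l 16789792) (l 16787232)))) (c (a (l 16785744) (l 16777720)) (a (b (l 16780568) (l 16780376)) (l 16772304))))) (b (c (a (b (l 16804224) (c (l 16785728) (b (l 16801632) (l 16791208)))) (a (c (l 16795728) (l 16790712)) (l 16785464))) (a (b (c (l 16796928) (c (l 16793208) (l 16790704))) (c (b (l 16796752) (b (l 16796664) (a (l 16800256) (l 16792896)))) (b (c (l 16793040) (l 16790536)) (b (c (l 16792944) (l 16790448)) (a (b (l 16795480) (l 16795296))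 (b (l 16787832) (l 16787720))))))) (a (c (b (l 16785408) (l 16785512)) (b (l 16780200) (b (l 16780112) (b (l 16780056) (c (l 16781416) (l 16778808)))))) (c (l 16777608) (c (l 16773600) (a (l 16762456) (l 16747808))))))) (c (a (l 16802264) (l 16787816)) (c (a (l 16795216) (l 16780320)) (a (a (l 16794072) (l 16786712)) (a (l 16779128) (l 16771312)))))))), by decide +kernel⟩

def k13_B00pm_101_s1 : ∃ t, chk3 f_B00pm_101_s1 t 35 30 1 = true :=
  ⟨(b (l 6) (a (b (l 6) (b (c (a (c (l 16795112) (l 16784640)) (c (l 16780208) (l 16769040))) (a (c (c (l 16776552) (l 16771048)) (a (c (l 16769576) (l 16763984)) (c (l 16761296) (l 16755528)))) (a (a (c (l 16763688) (l 16752056)) (l 6)) (l 6)))) (c (b (a (c (l 16794480) (l 16784184)) (c (l 16779464) (l 16768528))) (a (c (l 16792640) (l 16761688)) (c (l 16777800) (b (l 16746712) (l 16767224))))) (b (a (c (a (l 16777496) (l 16769456)) (c (l 16765312) (a (l 16763880) (l 16755440)))) (c (l 16757224) (a (l 16749840) (l 16741256)))) (a (c (a (l 16776360) (l 16768432))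 (c (a (l 16768512) (l 16760336)) (b (a (l 16763432) (l 16755040)) (l 16759008)))) (c (b (a (l 16760712) (l 16752488)) (l 16756416)) (b (b (b (a (c (l 16752592) (l 16746800)) (l 16741224)) (l 16745488)) (l 16745416)) (l 16745272)))))))) (b (l 6) (b (l 6) (a (b (a (c (l 16762264) (c (l 16744704) (l 16732544))) (l 6)) (c (b (b (c (l 16763504) (l 16752040)) (l 16757624)) (l 16757112)) (a (b (c (l 16744136) (b (b (l 16732600) (l 16732560)) (l 16732560))) (l 16717464)) (b (b (l 6) (l 16729960)) (l 16729952))))) (a (b (l 6) (b (l 6) (c (l 16745224) (l 16721328)))) (l 6))))))), by decide +kernel⟩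

def k14_B00pm_101_s1 : ∃ t, chk3 f_B00pm_101_s1 t 32 62 1 = true :=
  ⟨(a (c (b (a (a (b (b (l 16763056) (l 16764960)) (l 14)) (b (l 16780816) (l 16783960))) (b (l 16769448) (l 16772104))) (a (l 14) (b (l 16774040) (l 14)))) (b (c (b (a (l 16772376) (l 16795984)) (a (l 16785744) (l 16798104))) (b (a (c (l 16775208) (b (l 16786960) (l 16788344))) (a (l 16791392) (l 16803432))) (a (c (l 16788328) (l 16779640)) (c (l 16800816) (l 16781720))))) (a (l 14) (b (c (l 16799536) (l 16781824)) (l 14))))) (b (c (a (b (l 16782568) (l 16805520)) (c (l 16773920) (l 16798776))) (b (c (a (l 16809528) (l 16781608)) (a (a (l 16810352) (l 16817400)) (c (l 16806056) (l 16808456)))) (c (a (l 16810872) (l 16782160)) (a (l 16804256) (l 16807256))))) (c (a (b (l 16764880) (l 16765416)) (c (l 16817552) (l 16778600))) (a (b (c (l 16811568) (l 16794008)) (b (l 16792144) (l 14))) (b (b (l 16804992) (l 16783688)) (l 16803792)))))), by decide +kernel⟩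

def k15_B00pm_101_s1 : ∃ t, chk3 f_B00pm_101_s1 t 33 62 1 = true :=
  ⟨(b (c (b (a (c (l 16794032) (l 16798696)) (c (l 16809360) (l 16803080))) (a (c (l 16794472) (l 16798608)) (c (l 16797248) (l 16791776)))) (c (a (b (a (l 16796136) (l 16811232)) (b (l 16803200) (l 16799832))) (b (a (l 16801624) (l 16791280)) (a (l 16790552) (l 16781456)))) (a (a (b (c (l 16799880) (l 16823432)) (l 16821304)) (b (c (l 16806696) (l 16824512)) (l 16814632))) (a (a (b (l 16818576) (l 16808056)) (b (l 16823832) (l 16803472))) (b (c (l 16806968) (b (l 16805528) (l 16822152))) (b (l 16798472) (l 16794056))))))) (c (a (b (c (l 16794360) (l 16794680)) (a (l 16786152) (l 16780848))) (b (c (l 16785400) (l 16801688)) (a (l 16775064) (l 16768744)))) (a (b (a (c (l 16793784) (l 16810488)) (c (l 16787040) (l 16803440))) (c (a (l 16781120) (l 16775464)) (a (l 16798544) (l 16792656)))) (c (a (b (l 16779736) (l 16811200)) (b (l 16813760) (l 16804416))) (a (b (c (l 16818016) (l 16794544)) (l 16786160)) (b (c (l 16809832) (l 16796664))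 (b (l 16802112) (l 16797976)))))))), by decide +kernel⟩

def k16_B00pm_101_s1 : ∃ t, chk3 f_B00pm_101_s1 t 34 62 1 = true :=
  ⟨(a (c (a (b (b (l 16791048) (l 16781112)) (b (l 16792320) (l 16782816))) (b (b (l 16801000) (l 16792296)) (b (l 16783704) (l 16775304)))) (c (b (b (a (l 16801208) (l 16789432)) (a (l 16792656) (l 16782168))) (b (a (l 16805200) (l 16774992)) (a (l 16797024) (l 16788968)))) (b (c (b (a (l 16806056) (b (l 16805984) (l 16802736))) (a (l 16787728) (l 16787384))) (a (b (b (l 16804024) (l 16789864)) (b (l 16807160) (l 16803504))) (b (b (a (l 16805016) (l 16798432)) (l 16793512)) (b (l 16785272) (l 16792768))))) (b (a (b (l 16780424) (l 16797704)) (b (l 16780928) (l 16777872))) (a (b (l 16794080) (l 16790536)) (b (l 16785352) (l 16782416))))))) (c (b (b (c (l 16787184) (a (l 16806176) (l 16793368))) (c (l 16779864) (a (l 16799208) (l 16787704)))) (b (c (a (l 16798384) (l 16788592)) (a (l 16792296) (l 16782040))) (c (a (l 16790672) (l 16740088)) (a (l 16785528) (l 16776472)))))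 (c (b (b (a (c (l 16799960) (l 16795728)) (c (l 16786736) (l 16782224))) (a (c (l 16793760) (l 16790040)) (c (l 16781864) (l 16777896)))) (b (a (l 16775512) (a (l 16757056) (l 16751496))) (a (l 16769736) (b (l 16750872) (l 16748648))))) (b (b (a (b (c (l 16792688) (a (l 16791640) (l 16784640))) (a (l 16780792) (l 16774208))) (b (c (l 16778544) (a (l 16777424) (l 16769984))) (a (l 16777904) (l 16770896)))) (a (a (b (l 16788656) (l 16786040)) (b (l 16782424) (l 16780144))) (a (b (l 16775984) (l 16774040)) (b (l 16769328) (l 16757248))))) (b (a (b (c (l 16782392) (l 16778944)) (c (l 16779848) (l 16776672))) (b (c (l 16770984) (l 16767296)) (c (l 16769088) (l 16765680)))) (a (b (c (l 16777344) (l 16774432)) (l 16763088)) (b (c (l 16746256) (l 16764096)) (b (l 16753912) (l 16742600))))))))), by decide +kernel⟩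

def k17_B00pm_101_s1 : ∃ t, chk3 f_B00pm_101_s1 t 35 124 1 = true :=
  ⟨(c (a (b (a (c (l 16788856) (l 16779704)) (c (l 16775064) (l 16765312))) (a (c (l 16783480) (l 16775392)) (c (l 16770872) (l 16762224)))) (b (a (c (l 16760600) (l 16750232)) (c (l 16703680) (l 16734616))) (a (c (l 16736560) (l 16748304)) (c (l 16722544) (l 16712712))))) (a (b (a (c (b (l 16771032) (l 16769424)) (a (b (l 16764840) (l 16763672)) (c (l 16759152) (l 16754112)))) (c (a (l 16759048) (l 16751344)) (a (c (l 16730432) (l 16746208)) (b (l 16740896) (l 16740672))))) (b (a (c (l 16767840) (c (l 16761184) (l 16756664))) (c (l 16753776) (c (l 16746680) (l 16741856)))) (a (c (l 16766200) (c (l 16759968) (l 16755736))) (c (l 16752792) (c (l 16746136) (l 16741624)))))) (b (a (c (b (l 16739736) (l 16739312)) (a (l 16732640) (l 16724336))) (c (l 16723272) (a (l 16715880) (l 16707280)))) (a (c (b (l 16738920) (l 16738592)) (a (c (l 16714296) (l 16709408)) (l 16725064))) (c (l 16723560) (b (l 16712728) (l 16713536))))))), by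 decide +kernel⟩

def k18_B00pm_101_s1 : ∃ t, chk3 f_B00pm_101_s1 t 35 125 1 = true :=
  ⟨(a (c (b (a (c (l 16778056) (l 16771016)) (c (l 16724792) (l 16738200))) (a (c (l 16730736) (l 16745704)) (c (l 16741600) (l 16735120)))) (b (a (c (b (l 16764552) (l 16741936)) (c (b (l 16758744) (l 16736552)) (b (l 16754800) (l 16753864)))) (c (b (l 16751856) (l 16729904)) (c (b (l 16745640) (l 16724128)) (a (l 16734176) (l 16727432))))) (a (c (b (l 16740312) (l 16738712)) (b (c (l 16735344) (l 16742456)) (c (l 16734168) (l 16741568)))) (c (b (l 16728928) (l 16727968)) (b (c (l 16723592) (l 16730456)) (a (l 16724304) (l 16718480))))))) (c (b (a (c (l 16733584) (l 16735968)) (c (l 16720680) (c (l 16714200) (l 16709808)))) (a (c (l 16730696) (a (l 16726648) (l 16720736))) (c (l 16729416) (a (l 16714568) (l 16708240))))) (b (a (c (b (l 16717296) (l 16716960)) (b (c (l 16710656) (l 16727120)) (c (l 16710776) (l 16727560)))) (c (a (l 16706664) (l 16699432)) (b (l 16714400) (l 16715344)))) (a (c (b (l 16716688)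 (l 16716392)) (b (c (l 16710960) (l 16707080)) (c (l 16711120) (l 16718032)))) (c (b (l 16703552) (l 16703888)) (b (l 16716304) (c (l 16698224) (l 16694384)))))))), by decide +kernel⟩

def k19_B00pm_101_s1 : ∃ t, chk3 f_B00pm_101_s1 t 16 63 1 = true :=
  ⟨(a (b (a (l 14) (a (l 14) (b (c (l 16776056) (l 16792776)) (l 14)))) (l 14)) (b (b (c (a (a (l 16773056) (l 16768688)) (a (l 16784832) (l 16779512))) (a (a (c (l 16769016) (l 16787144)) (c (l 16806336) (l 16782352))) (a (c (l 16801192) (l 16787480)) (c (l 16795480) (l 16781512))))) (a (c (a (l 16781600) (l 16778096)) (a (c (l 16757584) (l 16776416)) (c (l 16795872) (l 16772680)))) (c (a (l 16774168) (l 16769776)) (a (c (l 16791728) (l 16768384)) (c (l 16787048) (b (l 16786304) (l 16782696))))))) (b (a (b (a (l 14) (c (l 16790832) (l 16787672))) (l 14)) (c (a (b (l 16787536) (l 16772216)) (b (l 16762840) (l 16758424))) (a (b (l 16784200) (l 16774960)) (b (l 16769704) (l 16766208))))) (a (l 14) (b (b (a (c (l 16768704) (b (l 16767320) (l 14)))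 (c (l 16776192) (l 16763704))) (a (l 14) (c (l 16763624) (c (l 16772960) (l 16761720))))) (b (a (l 14) (c (c (l 16772360) (l 16761328)) (a (c (l 16772000) (l 16771504)) (l 16765032)))) (a (l 14) (a (l 14) (c (c (l 16769608) (l 16769272)) (c (l 16768976) (l 16763472))))))))))), by decide +kernel⟩

def k20_B00pm_101_s1 : ∃ t, chk3 f_B00pm_101_s1 t 34 126 1 = true :=
  ⟨(c (a (b (a (l 16773648) (l 16767200)) (a (l 16764896) (b (l 16761344) (l 16757584)))) (b (c (a (l 16783184) (l 16733704)) (a (l 16779000) (l 16750120))) (a (c (l 16734056) (l 16751824)) (c (l 16748544) (l 16745016))))) (a (b (c (a (l 16789184) (l 16782272)) (a (b (l 16787088) (l 16783752)) (b (l 16779560) (l 16776808)))) (a (c (l 16781808) (a (l 16780432) (l 16756568))) (c (l 16775976) (b (l 16753192) (l 16750680))))) (b (a (c (l 16764200) (b (l 16771328) (l 16758688))) (c (b (l 16746480) (l 16744384)) (b (b (l 16741784) (l 16740992)) (b (l 16740216) (l 16739464))))) (a (c (l 16759024) (b (l 16756632) (l 16744200))) (c (b (l 16742360)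 (l 16740440)) (b (l 16748872) (l 16747520))))))), by decide +kernel⟩

def k21_B00pm_101_s1 : ∃ t, chk3 f_B00pm_101_s1 t 35 126 1 = true :=
  ⟨(a (c (b (a (c (l 16746456) (l 16741504)) (c (l 16737512) (l 16742616))) (a (c (l 16741408) (l 16748016)) (c (l 16733584) (a (l 16731440) (l 16727152))))) (b (a (c (b (l 16737152) (l 16735656)) (b (c (l 16733040) (l 16740728)) (c (l 16731968) (l 16739960)))) (c (b (l 16727048) (l 16726160)) (a (b (l 16723808) (l 16723360)) (b (l 16718312) (l 16718192))))) (a (c (b (l 16734224) (l 16732880)) (b (c (l 16730976) (l 16739264)) (c (l 16730072) (l 16738664)))) (c (b (l 16725336) (l 16735072)) (b (c (l 16721784) (l 16729872)) (c (l 16721496) (l 16729896))))))) (c (a (b (c (l 16727808) (b (l 16722384) (l 16721544))) (c (l 16735520) (b (l 16720736) (l 16719976)))) (b (c (l 16727792) (b (l 16711088) (l 16710864))) (c (b (l 16716088) (l 16715328)) (b (l 16710672) (l 16710520))))) (b (a (c (b (l 16716104) (l 16726344)) (a (b (l 16712608) (l 16712816)) (c (l 16708536)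 (l 16715864)))) (c (b (l 16714792) (l 16715192)) (b (c (l 16699112) (l 16695600)) (c (l 16699992) (l 16696816))))) (a (c (b (l 16726144) (l 16726000)) (b (c (l 16711776) (l 16719648)) (c (l 16712120) (l 16720312)))) (c (b (l 16715624) (l 16716112)) (a (c (l 16704136) (l 16712000)) (c (l 16698648) (l 16706392)))))))), by decide +kernel⟩

def k22_B00pm_101_s1 : ∃ t, chk3 f_B00pm_101_s1 t 34 127 1 = true :=
  ⟨(b (a (c (a (b (l 16758648) (l 16754672)) (c (l 16753144) (l 16751200))) (a (c (l 16775000) (b (l 16753616) (l 16750880))) (c (l 16759704) (b (l 16748320) (l 16746120))))) (c (a (c (l 16748232) (l 16746040)) (c (l 16742752) (l 16740280))) (a (c (l 16754304) (b (l 16742392) (l 16740736))) (c (b (l 16738624) (l 16736936)) (b (l 16746280) (l 16745184)))))) (a (b (c (a (c (l 16772328) (l 16750344)) (b (l 16768848) (l 16756712))) (a (c (l 16759824) (l 16758824)) (a (l 16756264) (l 16754040)))) (a (a (c (c (l 16758704) (l 16758208)) (b (l 16763432) (c (l 16767504) (b (l 16767504) (l 16766920)))))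 (c (c (l 16767648) (l 16756608)) (c (a (l 16767000) (l 16766144)) (c (l 16755720) (l 16760736))))) (c (a (c (l 16766000) (l 16754888)) (c (l 16764240) (l 16753040))) (c (a (a (l 16765248) (l 16764312)) (l 16752368)) (b (l 16753192) (a (l 16753280) (l 16761816))))))) (b (c (a (l 16753208) (l 16748320)) (a (c (l 16761600) (l 16739248)) (c (l 16735384) (l 16744240)))) (c (a (b (l 16751120) (a (l 16750760) (l 16759240))) (b (l 16746584) (a (l 16757088) (l 16754800)))) (a (a (b (l 16750336) (c (l 16760296) (l 16759712))) (b (l 16758488) (c (l 16758136) (l 16757456)))) (c (b (l 16755280) (l 16744136)) (a (l 16744768) (l 16742128)))))))), by decide +kernel⟩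

def k23_B00pm_101_s1 : ∃ t, chk3 f_B00pm_101_s1 t 35 254 1 = true :=
  ⟨(a (c (a (c (l 16736648) (l 16744360)) (c (l 16740376) (b (l 16727376) (l 16726192)))) (a (c (b (l 16731632) (l 16730496)) (b (c (l 16729272) (l 16727688)) (l 16738448))) (c (b (l 16734408) (l 16733840)) (b (c (l 16721296) (l 16730016)) (c (l 16721208) (l 16730256)))))) (c (a (c (a (l 16724376) (l 16720472)) (b (l 16719280) (l 16718656))) (c (b (l 16714600) (l 16713920)) (b (l 16720904) (l 16715616)))) (a (c (b (l 16725936) (l 16725952)) (b (c (l 16712536) (l 16721064)) (c (l 16713056) (l 16721920)))) (c (b (l 16716656) (c (l 16707696) (l 16705896))) (a (c (l 16716408) (l 16714472)) (c (l 16711560) (l 16709520))))))), by decide +kernel⟩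

def k24_B00pm_101_s1 : ∃ t, chk3 f_B00pm_101_s1 t 35 255 1 = true :=
  ⟨(c (b (a (a (b (l 16732808) (l 16731880)) (a (l 16727800) (l 16724568))) (a (c (l 16720664) (l 16723368)) (c (l 16718552) (a (l 16733384) (l 16729336))))) (a (a (b (l 16741464) (c (l 16751664) (l 16750504))) (a (c (l 16748120) (l 16746600)) (c (l 16745216) (l 16743552)))) (a (a (c (l 16742152) (l 16740336)) (b (l 16738064) (a (l 16738608) (l 16736936)))) (a (b (l 16734504) (c (l 16735344) (l 16733368))) (b (l 16715032) (c (l 16731824) (b (l 16729632) (l 16729712)))))))) (b (a (a (c (l 16729480) (l 16738072)) (c (l 16733384) (c (l 16721248) (l 16730632)))) (a (c (l 16726072) (c (l 16713688) (l 16722904))) (c (c (l 16708240) (l 16717272)) (a (l 16727768) (l 16702368))))) (a (a (a (c (l 16750984) (l 16739320)) (c (l 16748136) (l 16736336))) (a (c (l 16734632) (b (l 16743592) (l 16743736))) (b (l 16730576) (c (l 16741888) (l 16729976))))) (a (c (b (l 16715744) (a (l 16738592) (l 16735104))) (b (l 16724216) (a (b (l 16736896)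 (l 16737120)) (c (l 16733792) (l 16722448))))) (c (b (l 16718592) (c (b (l 16729928) (l 16719624)) (b (l 16718392) (a (l 16731064) (l 16727192))))) (a (b (l 16728792) (b (l 16718848) (c (l 16730160) (l 16718776)))) (b (l 16714112) (b (c (l 16725792) (l 16724712)) (a (c (l 16727200) (l 16726240)) (c (l 16725176) (c (l 16724416) (l 16723912)))))))))))), by decide +kernel⟩

def k25_B00pm_101_s1 : ∃ t, chk3 f_B00pm_101_s1 t 18 14 1 = true :=
  ⟨(l 6), by decide +kernel⟩

def k26_B00pm_101_s1 : ∃ t, chk3 f_B00pm_101_s1 t 18 30 1 = true :=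
  ⟨(l 6), by decide +kernel⟩

def k27_B00pm_101_s1 : ∃ t, chk3 f_B00pm_101_s1 t 72 62 1 = true :=
  ⟨(b (c (b (a (c (l 16709136) (l 16718440)) (c (l 16693080) (l 16701712))) (a (c (l 16708016) (l 16697552)) (c (l 16692936) (l 16692304)))) (b (c (a (l 16706440) (l 16689032)) (a (l 16694088) (l 16670752))) (c (a (l 16697272) (b (l 16690752) (l 16691968))) (a (b (l 16696016) (l 16697368)) (b (l 16678696) (l 16680568)))))) (c (b (a (c (l 16707096) (l 16708312)) (c (l 16703480) (b (l 16682744) (l 16683440)))) (a (c (a (l 16709624) (l 16703192)) (b (l 16698184) (l 16698528))) (c (b (l 16693184) (l 16693400)) (b (l 16684200) (l 16685032))))) (b (c (a (b (l 16687888) (l 16688704)) (b (l 16693240) (l 16673592))) (a (b (l 16698768) (l 16700224)) (b (l 16682488) (l 16684472)))) (a (c (b (l 16689592) (l 16690568)) (b (l 16701760) (c (l 16684464) (l 16701312)))) (c (b (l 16685480) (l 16686952)) (b (c (l 16688912) (l 16684136)) (a (l 16671432) (l 16663920)))))))), by decide +kernel⟩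

def k28_B00pm_101_s1 : ∃ t, chk3 f_B00pm_101_s1 t 72 126 1 = true :=
  ⟨(c (b (a (c (b (l 16706064) (l 16705848)) (b (l 16698904) (l 16709784))) (c (b (l 16693688) (l 16699304)) (b (l 16696432) (b (l 16686688) (l 16687200))))) (a (c (b (l 16705696) (l 16710776)) (b (l 16710264) (l 16710728))) (c (b (b (l 16694360) (l 16694576)) (b (l 16694792) (l 16695048))) (b (a (l 16691024) (l 16684928)) (a (l 16691984) (l 16691424)))))) (b (a (c (b (l 16702064) (b (l 16692352) (l 16692912))) (b (b (l 16683648) (l 16684504)) (a (l 16689064) (l 16682496)))) (c (b (b (l 16677616) (l 16678416)) (a (l 16682992) (l 16686792))) (b (a (l 16673528) (l 16676768)) (a (l 16686208) (l 16679224))))) (a (c (b (c (l 16695256) (l 16692208)) (c (l 16696216) (l 16693504))) (b (a (l 16690656) (l 16684448)) (a (l 16692304) (l 16696912)))) (c (b (a (l 16684568) (l 16688672)) (a (l 16696688) (a (l 16686912) (l 16689056)))) (b (a (l 16688472) (c (l 16673040) (l 16669568))) (a (a (l 16681864) (l 16689232)) (c (l 16685984) (l 16682880)))))))),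 by decide +kernel⟩

def k29_B00pm_101_s1 : ∃ t, chk3 f_B00pm_101_s1 t 72 254 1 = true :=
  ⟨(c (a (c (b (l 16710640) (c (l 16706296) (l 16704312))) (b (b (l 16700616) (l 16700888)) (c (l 16702312) (l 16700312)))) (c (b (b (l 16700528) (l 16700776)) (b (l 16701024) (l 16701288))) (b (a (l 16692960) (l 16692736)) (a (l 16699224) (b (l 16709456) (l 16710136)))))) (a (c (b (a (l 16719632) (l 16693376)) (a (l 16720720) (l 16705264))) (b (a (l 16694016) (l 16698952)) (a (l 16695808) (l 16701072)))) (c (b (a (l 16698344) (b (l 16692104) (l 16693112))) (a (l 16700064) (c (l 16690576) (l 16693480)))) (b (a (b (l 16682080) (l 16693776)) (c (l 16688528) (l 16685784))) (a (c (l 16686248) (l 16684016)) (c (l 16691120) (l 16688752))))))), by decide +kernel⟩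

def k30_B00pm_101_s1 : ∃ t, chk3 f_B00pm_101_s1 t 72 255 1 = true :=
  ⟨(c (b (a (c (c (l 16706080) (l 16704424)) (c (l 16702768) (l 16706352))) (c (a (b (l 16719600) (l 16719808)) (b (l 16714920) (l 16715280))) (a (l 16700304) (b (l 16710832) (l 16711536))))) (a (c (b (l 16710496) (a (l 16728144) (l 16724304))) (b (l 16707696) (a (b (l 16725720) (l 16725872)) (b (l 16721624) (l 16721848))))) (a (b (c (l 16720032) (l 16716880)) (c (l 16720264) (b (l 16717320) (l 16717624)))) (b (c (l 16715648) (l 16712256)) (c (l 16716032) (b (l 16712816) (l 16713184))))))) (b (a (c (a (l 16721888) (l 16701496)) (a (l 16708184) (l 16703280))) (c (b (c (l 16699840) (l 16697832)) (c (l 16700736) (l 16698920))) (a (c (l 16688592) (l 16697224)) (c (l 16693792) (l 16691808))))) (b (a (a (c (l 16722824) (b (l 16719904) (l 16720416))) (c (l 16718384) (b (l 16715192) (l 16715784)))) (c (c (l 16701664) (l 16700032)) (a (l 16700112) (b (l 16694632) (l 16695376))))) (c (b (a (a (l 16723312) (l 16718992)) (c (l 16702368)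 (l 16700880))) (a (c (a (l 16724200) (l 16720008)) (a (l 16723096) (l 16718792))) (c (a (l 16715608) (l 16711000)) (a (l 16714272) (l 16709544))))) (a (b (a (c (l 16721528) (l 16720344)) (c (l 16717024) (l 16715728))) (a (a (c (l 16723080) (c (l 16722280) (l 16721752))) (c (l 16720920) (a (l 16720360) (l 16719240)))) (b (c (l 16717440) (l 16716216)) (c (l 16717720) (a (l 16717696) (l 16715384)))))) (b (a (c (l 16712312) (l 16710896)) (c (l 16707384) (l 16705840))) (b (a (c (l 16712792) (l 16711440)) (c (l 16707920) (l 16706448))) (a (c (l 16713104) (a (l 16713016) (l 16710592))) (c (a (l 16709504) (l 16707032)) (a (l 16708112) (l 16705584))))))))))), by decide +kernel⟩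

def k31_B00pm_101_s1 : ∃ t, chk3 f_B00pm_101_s1 t 73 62 1 = true :=
  ⟨(b (b (l 6) (c (a (c (l 16687784) (a (l 16669648) (l 16661352))) (b (l 6) (c (l 16682544) (l 16649424)))) (c (a (b (l 16673528) (l 16675248)) (b (l 6) (l 16657936))) (a (b (l 16660784) (l 16663168)) (b (l 6) (l 16645168)))))) (c (b (a (c (b (l 16678032) (l 16678600)) (b (l 16667176) (l 16678856))) (c (b (l 16662560) (l 16663600)) (b (l 16661528) (l 16663200)))) (a (c (b (l 16679232) (l 16690416)) (b (l 16680112) (b (l 16670608) (l 16671288)))) (c (b (l 16675200) (l 16676368)) (b (b (l 16654016) (l 16665384)) (a (l 16670488) (l 16663000)))))) (b (c (a (b (l 16677016) (l 16678848)) (b (l 16660208) (l 16659912))) (a (b (l 16665600) (c (l 16670816) (l 16665376))) (b (l 16648104) (c (l 16653992) (l 16648216))))) (c (a (b (b (l 16659296) (l 16660264)) (a (l 16665496) (l 16668480))) (b (a (l 16658464) (l 16650400)) (a (l 16660816) (a (l 16654968) (l 16651024))))) (a (b (a (l 16653728) (l 16666616)) (a (l 16666736) (l 16658912)))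 (b (c (l 16656904) (l 16651472)) (a (l 16661416) (l 16653272)))))))), by decide +kernel⟩

def k32_B00pm_101_s1 : ∃ t, chk3 f_B00pm_101_s1 t 73 126 2 = true :=
  ⟨(b (a (c (b (b (l 16680496) (l 16680904)) (b (l 16681320) (l 16687008))) (b (a (l 16675808) (l 16674112)) (a (l 16682416) (l 16675720)))) (c (b (a (l 16670576) (l 16663648)) (a (l 16677024) (l 16670328))) (b (a (l 16672256) (l 16665016)) (b (a (l 16684120) (l 16671816)) (c (l 16673184) (l 16669072)))))) (a (c (c (b (l 16689448) (b (l 16684848) (l 16690520))) (b (l 16685960) (b (l 16686840) (l 16687440)))) (c (b (l 16687680) (b (l 16683568) (l 16684336))) (b (b (l 16673192) (l 16684568)) (b (l 16685512) (l 16686448))))) (c (b (a (b (l 16693704) (l 16694360)) (b (l 16687184) (l 16687968))) (a (b (l 16695048) (l 16695752)) (b (c (l 16690568) (l 16686960)) (c (l 16691304) (l 16687864))))) (c (a (b (l 16685808) (b (l 16689816) (l 16690776))) (b (b (l 16681232) (l 16682264)) (b (l 16683320) (l 16684400)))) (b (b (l 16670192) (b (l 16671048)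 (l 16671624))) (b (b (l 16672208) (l 16672800)) (b (l 16673392) (l 16674000)))))))), by decide +kernel⟩

def k33_B00pm_101_s1 : ∃ t, chk3 f_B00pm_101_s1 t 73 126 3 = true :=
  ⟨(b (a (c (b (a (l 16677920) (l 16670664)) (a (l 16679952) (b (l 16682848) (l 16673528)))) (b (a (l 16669360) (b (l 16671544) (l 16662520))) (a (b (l 16660896) (l 16672768)) (c (l 16666832) (l 16662696))))) (c (b (a (b (l 16673120) (l 16663880)) (b (l 16655008) (l 16656376))) (a (c (l 16667888) (l 16663688)) (c (l 16660656) (l 16656288)))) (b (a (c (l 16645896) (l 16641248)) (c (l 16648576) (l 16633280))) (a (c (l 16659440) (l 16655152)) (c (c (l 16652992) (l 16650784)) (c (l 16648560) (l 16635832))))))) (b (a (c (a (a (l 16683744) (l 16680408)) (c (l 16677176) (l 16673480))) (a (c (l 16676712) (l 16673096)) (c (l 16669744) (l 16665968)))) (c (a (c (l 16670352) (l 16666496)) (c (c (l 16664360) (l 16662360)) (a (l 16661152) (l 16657544)))) (a (c (c (l 16663584) (l 16661632)) (a (l 16660520) (l 16656832))) (c (b (l 16664928)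 (l 16656184)) (b (l 16660752) (l 16652192)))))) (a (c (a (b (l 16683744) (l 16684888)) (c (l 16679496) (l 16676144))) (a (c (l 16679488) (l 16676232)) (c (c (l 16673616) (l 16671920)) (b (l 16678984) (l 16670232))))) (c (a (c (l 16672912) (b (l 16679160) (l 16670160))) (c (b (l 16665456) (l 16666896)) (b (l 16661720) (l 16663336)))) (a (c (b (l 16665056) (l 16666728)) (b (l 16661408) (l 16663272))) (c (b (l 16657952) (b (l 16669784) (l 16660208))) (b (l 16659392) (l 16661384)))))))), by decide +kernel⟩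

def k34_B00pm_101_s1 : ∃ t, chk3 f_B00pm_101_s1 t 73 254 2 = true :=
  ⟨(a (c (b (a (b (l 16708080) (l 16708568)) (b (l 16702368) (l 16697752))) (a (b (l 16709048) (l 16709536)) (b (c (l 16704944) (l 16702304)) (c (l 16705512) (l 16703040))))) (b (a (c (b (l 16703792) (l 16704528)) (l 16685624)) (c (b (l 16697872) (l 16698752)) (b (l 16694840) (l 16695896)))) (a (b (c (l 16705264) (l 16702728)) (c (l 16706016) (l 16703656))) (c (b (l 16699640) (l 16700560)) (b (l 16696968) (l 16698064)))))) (b (c (a (b (c (l 16698032) (l 16694912)) (c (l 16698704) (l 16695744))) (b (c (l 16692064) (l 16688800)) (c (l 16692848) (l 16689752)))) (a (b (c (l 16691760) (l 16688592)) (c (l 16692776) (l 16689776))) (b (c (l 16685504) (a (l 16683800) (l 16680560))) (c (a (l 16688184) (l 16685080)) (a (l 16685080) (l 16681904)))))) (c (a (b (c (l 16699392) (l 16696608)) (c (l 16700096) (l 16697488))) (b (c (l 16693656) (l 16690736)) (c (l 16694480) (a (l 16693192) (l 16690280))))) (a (b (c (l 16693816) (a (l 16692504)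 (l 16689472))) (c (a (l 16696312) (l 16693416)) (a (l 16693712) (l 16690744)))) (b (c (a (l 16689312) (l 16686264)) (a (l 16686392) (l 16683272))) (c (a (l 16690464) (l 16687480)) (a (l 16687728) (l 16684672)))))))), by decide +kernel⟩

def k35_B00pm_101_s1 : ∃ t, chk3 f_B00pm_101_s1 t 146 254 3 = true :=
  ⟨(c (c (b (a (l 16682800) (l 16681920)) (a (b (l 16700176) (l 16701280)) (b (l 16691656) (a (l 16697008) (l 16694080))))) (b (a (l 16685200) (a (l 16680520) (l 16677336))) (a (l 16687768) (b (l 16681080) (l 16682544))))) (b (a (c (c (l 16683056) (l 16681616)) (b (l 16668152) (l 16680280))) (c (b (l 16675128) (l 16676728)) (b (l 16672000) (l 16673800)))) (a (c (c (l 16685896) (l 16684648)) (b (l 16681928) (l 16683600))) (c (b (l 16678352) (l 16680008)) (b (l 16675616) (b (l 16677000) (l 16677920))))))), by decide +kernel⟩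

def k36_B00pm_101_s1 : ∃ t, chk3 f_B00pm_101_s1 t 147 254 3 = true :=
  ⟨(b (c (a (c (b (l 16680152) (a (l 16688344) (l 16685168))) (b (l 16671680) (l 16673240))) (c (b (a (l 16680496) (l 16677176)) (a (l 16681960) (l 16678704))) (b (c (l 16665832) (l 16664136)) (b (l 16666240) (l 16667088))))) (a (c (b (l 16668440) (b (l 16680224) (l 16670616))) (b (l 16670408) (l 16672344))) (c (b (b (l 16661128) (l 16662056)) (a (l 16665152) (b (l 16671760) (l 16672720)))) (b (b (l 16657656) (l 16663920)) (b (l 16664952) (l 16665992)))))) (c (a (b (c (a (l 16689712) (l 16686600)) (b (l 16674424) (l 16675224))) (c (a (l 16691096) (l 16688064)) (b (l 16676032) (l 16676848)))) (c (b (a (l 16683448) (l 16680264)) (a (l 16684976) (b (l 16681448) (l 16682248)))) (b (b (l 16667944) (b (l 16668592) (l 16669024))) (b (b (l 16669464) (l 16669904)) (c (l 16671256) (l 16669872)))))) (a (c (b (b (l 16671512) (l 16672408)) (b (l 16673304) (l 16674216))) (b (a (l 16670728) (l 16667400)) (a (l 16672696) (b (l 16679416) (l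 16680440))))) (c (b (a (b (l 16677040) (l 16677984)) (b (l 16673688) (l 16674664))) (a (b (l 16678944) (l 16679904)) (b (l 16675656) (c (l 16677352) (l 16675944))))) (b (a (b (l 16673992) (l 16675040)) (b (l 16670568) (l 16669024))) (c (a (l 16677328) (a (l 16674832) (l 16673160))) (b (l 16668448) (l 16669552)))))))), by decide +kernel⟩

def k37_B00pm_101_s1 : ∃ t, chk3 f_B00pm_101_s1 t 73 510 2 = true :=
  ⟨(a (c (a (b (l 16710032) (l 16710544)) (b (c (l 16706080) (l 16703784)) (c (l 16706648) (l 16704528)))) (a (b (c (l 16706776) (l 16704592)) (c (l 16707552) (l 16705544))) (b (c (l 16701472) (l 16699160)) (c (l 16702400) (l 16700272))))) (c (a (b (c (l 16700808) (l 16698376)) (c (l 16701544) (a (l 16700624) (l 16697944)))) (b (c (a (l 16696728) (l 16693936)) (a (l 16694192) (l 16691336))) (c (a (l 16697560) (l 16694848)) (a (l 16695208) (l 16692424))))) (a (b (c (a (l 16697352) (l 16694528)) (a (l 16694936) (l 16692040))) (c (a (l 16698400) (l 16695656)) (a (l 16696168) (l 16693360)))) (b (c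 (a (l 16691648) (l 16688728)) (a (l 16689096) (c (l 16686760) (l 16685448)))) (c (a (l 16692856) (l 16690000)) (a (l 16690488) (b (l 16687192) (l 16687936)))))))), by decide +kernel⟩

def k38_B00pm_101_s1 : ∃ t, chk3 f_B00pm_101_s1 t 73 510 3 = true :=
  ⟨(a (c (a (c (b (l 16702400) (l 16703544)) (c (l 16690912) (l 16689856))) (c (b (a (l 16698248) (l 16695408)) (a (l 16699512) (l 16696752))) (b (l 16684016) (l 16685512)))) (a (c (b (l 16687512) (l 16689032)) (b (l 16685296) (l 16687008))) (c (b (l 16681672) (l 16683360)) (b (b (l 16678856) (l 16679792)) (b (l 16680736) (l 16681680)))))) (c (a (c (b (a (l 16692512) (l 16689544)) (a (l 16693928) (l 16691056))) (b (b (l 16677664) (l 16678488)) (b (l 16679320) (l 16680152)))) (a (c (b (b (l 16686136) (l 16686928)) (b (l 16687720) (l 16688512))) (b (b (l 16683512) (l 16684400)) (b (l 16685288) (l 16686184)))) (c (b (b (l 16683056) (l 16683880)) (c (l 16685736) (l 16684512))) (b (b (l 16680360) (l 16678656)) (c (a (l 16684048) (l 16682512)) (a (l 16682832)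 (l 16681280))))))) (a (a (c (b (l 16687624) (l 16678952)) (b (l 16674688) (b (l 16686672) (l 16687688)))) (c (b (b (l 16684056) (l 16685000)) (b (l 16685944) (l 16686896))) (b (b (l 16681480) (l 16682520)) (b (l 16683568) (l 16674136))))) (b (c (a (b (l 16680880) (l 16671376)) (b (c (l 16678336) (l 16676976)) (c (l 16679320) (l 16678016)))) (a (b (c (l 16678896) (l 16677568)) (c (l 16679952) (l 16678672))) (c (b (l 16675616) (l 16676704)) (b (l 16674248) (l 16675392))))) (c (c (a (l 16673456) (b (l 16680320) (l 16681328))) (a (b (l 16682240) (l 16683256)) (b (l 16679064) (l 16680128)))) (a (b (c (l 16681016) (l 16679792)) (c (l 16682088) (l 16680912))) (c (b (l 16677808) (l 16678920)) (b (a (l 16677360) (l 16675728)) (a (l 16678512) (l 16676896)))))))))), by decide +kernel⟩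

def k39_B00pm_101_s1 : ∃ t, chk3 f_B00pm_101_s1 t 73 511 2 = true :=
  ⟨(a (a (a (b (c (l 16712224) (l 16708656)) (c (l 16712720) (l 16709512))) (c (b (l 16709880) (l 16710448)) (b (l 16706184) (l 16707112)))) (c (b (c (l 16707232) (l 16705288)) (a (l 16708120) (l 16705744))) (b (c (l 16703344) (a (l 16702696) (l 16700088))) (c (l 16704296) (a (l 16703800) (l 16701264)))))) (c (a (b (c (l 16702272) (a (l 16701496) (l 16698896))) (c (a (l 16704232) (l 16701776)) (a (l 16702384) (l 16699864)))) (b (c (a (l 16698416) (l 16695768)) (a (l 16696248) (l 16693528))) (c (a (l 16699272) (l 16696704)) (a (l 16697288) (l 16694656))))) (a (b (c (a (l 16699456) (l 16696792)) (a (l 16697416) (l 16694688))) (c (a (l 16700528) (l 16697944)) (a (l 16698672) (l 16696024)))) (b (c (a (l 16694072) (b (l 16690968) (l 16691616))) (a (c (l 16692440) (l 16691352)) (b (l 16688672) (l 16689424)))) (c (a (l 16695304) (c (l 16693112) (l 16692088))) (a (c (l 16693816) (l 16692824)) (c (l 16691064) (l 16690040)))))))), by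 decide +kernel⟩

def k40_B00pm_101_s1 : ∃ t, chk3 f_B00pm_101_s1 t 73 1022 3 = true :=
  ⟨(a (c (c (a (l 16704696) (a (l 16700784) (l 16698104))) (a (l 16702880) (l 16687016))) (a (c (l 16690576) (l 16688752)) (c (b (l 16684640) (l 16685496)) (b (l 16682632) (l 16683592))))) (c (c (a (a (l 16695368) (l 16692576)) (a (c (l 16690264) (l 16689176)) (b (l 16683760) (c (l 16687776) (l 16686672))))) (a (a (l 16693320) (a (l 16691176) (l 16689736))) (b (a (l 16687080) (c (l 16684656) (l 16683504))) (a (l 16687984) (c (l 16685576) (l 16684472)))))) (a (b (c (c (l 16679392) (l 16678320)) (c (l 16677248) (l 16676184))) (c (c (l 16680304) (l 16679288)) (c (l 16678272) (l 16677248)))) (c (a (b (c (l 16685408) (l 16684288)) (c (l 16686384) (l 16685312))) (c (b (l 16682344) (l 16683368)) (b (l 16681192) (l 16682264)))) (a (c (b (l 16683160) (l 16684248)) (b (l 16682040) (l 16683176))) (c (b (a (l 16680824) (l 16679248)) (a (l 16681936) (l 16680384))) (b (a (l 16679672) (l 16678080)) (a (l 16680840) (l 16679264))))))))),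 by decide +kernel⟩

def k41_B00pm_101_s1 : ∃ t, chk3 f_B00pm_101_s1 t 73 1023 3 = true :=
  ⟨(b (a (c (c (a (l 16705576) (l 16700448)) (a (l 16703904) (l 16698648))) (a (a (l 16702720) (l 16700056)) (c (l 16686360) (l 16684560)))) (c (c (a (a (l 16696456) (l 16693720)) (a (l 16690928) (c (l 16688600) (l 16687552)))) (a (a (l 16694560) (l 16691752)) (a (l 16688896) (c (l 16686496) (l 16685448))))) (a (c (c (l 16681224) (l 16680264)) (c (l 16679296) (b (l 16678056) (l 16678600)))) (a (c (c (l 16687368) (l 16686352)) (c (l 16685336) (l 16684320))) (c (c (l 16684400) (a (l 16684104) (l 16682584))) (c (a (l 16683056) (l 16681520)) (a (l 16682016) (l 16680464)))))))) (a (a (c (c (l 16706168) (b (l 16704424) (l 16704768))) (a (c (l 16704312) (b (l 16702552) (l 16702992))) (c (l 16701720) (a (l 16700784) (l 16699448))))) (a (c (c (l 16702408) (l 16700736)) (c (l 16699064) (a (l 16698088) (l 16696712)))) (c (c (l 16699824) (l 16698088)) (c (l 16696360) (c (l 16695064) (l 16694200)))))) (b (c (c (a (l 16695656)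 (a (l 16691536) (l 16688712))) (a (a (l 16695176) (l 16692408)) (a (l 16689576) (c (l 16687200) (l 16686184))))) (a (a (c (l 16693360) (l 16691536)) (c (l 16690520) (l 16688632))) (a (c (l 16687624) (c (l 16686152) (l 16685176))) (c (c (l 16685168) (l 16684160)) (c (l 16683144) (l 16682136)))))) (c (c (a (a (l 16697376) (l 16694688)) (a (l 16691944) (l 16689144))) (a (a (l 16695600) (l 16692848)) (a (l 16690040) (b (l 16687048) (l 16687288))))) (a (a (c (l 16693824) (c (l 16692496) (l 16691616))) (c (a (l 16691720) (l 16690296)) (c (l 16689632) (l 16688712)))) (a (c (a (l 16688856) (l 16687400)) (b (l 16686088) (c (l 16686840) (l 16685896)))) (a (c (l 16685936) (c (l 16684464) (l 16683488))) (c (b (l 16684320) (l 16684584)) (c (l 16682960) (l 16681960)))))))))), by decide +kernel⟩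

def k42_B00pm_101_s1 : ∃ t, chk3 f_B00pm_101_s1 t 148 62 1 = true :=
  ⟨(b (l 6) (c (a (b (a (c (l 16653280) (l 16652144)) (c (c (l 16652224) (l 16646400)) (b (l 16636488) (l 16638576)))) (c (a (l 16661320) (b (l 16651560) (l 16658384))) (a (c (l 16648352) (l 16653608)) (b (l 16651224) (c (l 16645536) (l 16640392)))))) (b (c (a (l 16647216) (l 16646456)) (a (c (l 16638344) (l 16632344)) (l 16645080))) (c (a (b (l 16670472) (l 16651120)) (c (l 16652120) (l 16646888))) (a (b (l 16638600) (l 16646112)) (b (l 16637800) (l 16645280)))))) (a (b (c (a (b (l 16649400) (l 16652040)) (b (l 16624080) (l 16637320))) (a (l 16638536) (b (l 16632344) (l 16635784)))) (c (a (b (l 16654744) (l 16647048)) (b (c (l 16632456) (l 16626848)) (c (l 16645672) (l 16640416)))) (a (b (l 16643584) (l 16636584)) (b (c (l 16621184) (l 16636432)) (c (l 16635104) (l 16640216)))))) (b (c (a (c (l 16626264) (l 16620120)) (c (l 16625504) (l 16619360))) (a (b (l 16630000) (l 16633472)) (b (l 6) (l 16632688)))) (c (a (b (l 16637936)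 (b (l 16650616) (l 16641624))) (b (l 16637128) (b (l 16649784) (l 16651256)))) (a (b (l 16626536) (b (l 16618760) (l 16631088))) (b (l 16636200) (a (l 16619016) (l 16618592))))))))), by decide +kernel⟩

def k43_B00pm_101_s1 : ∃ t, chk3 f_B00pm_101_s1 t 149 62 1 = true :=
  ⟨(b (l 6) (c (a (a (b (c (l 16645696) (l 16644312)) (c (a (l 16648880) (l 16648472)) (b (l 16657968) (l 16644448)))) (b (c (l 16644936) (l 16643552)) (c (a (l 16648072) (l 16647664)) (b (l 16657160) (l 16638376))))) (a (b (c (l 16644176) (l 16632304)) (c (l 16652328) (b (l 16656360) (l 16637544)))) (b (c (l 16643416) (l 16631536)) (c (l 16651520) (c (l 16638320) (l 16632952)))))) (a (b (b (l 6) (a (c (l 16644008) (l 16631912)) (c (l 16643224) (l 16631128)))) (c (b (a (l 16625832) (l 16625016)) (a (l 16639192) (l 16638344))) (a (c (l 16629480) (l 16634368)) (b (l 16634568) (l 16638096))))) (a (b (c (l 16630632) (l 16628688)) (c (c (l 16638832) (l 16622864)) (b (l 16633744) (l 16637232)))) (b (c (l 16629864) (l 16627912)) (c (c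 (l 16627520) (l 16622024)) (b (l 16632920) (l 16636376)))))))), by decide +kernel⟩

def k44_B00pm_101_s1 : ∃ t, chk3 f_B00pm_101_s1 t 148 252 2 = true :=
  ⟨(a (c (a (b (l 16679320) (l 16659968)) (a (b (l 16676640) (l 16678352)) (b (l 16653896) (b (l 16676176) (l 16677080))))) (a (c (b (l 16672320) (l 16674432)) (b (l 16667592) (l 16670048))) (b (c (l 16652928) (c (l 16644080) (l 16646904))) (a (b (l 16668936) (l 16670144)) (c (l 16669984) (a (l 16665928) (l 16665048))))))) (c (b (a (b (l 16673352) (l 16674216)) (l 16651968)) (a (b (l 16675096) (l 16655024)) (b (l 16674240) (l 16675128)))) (b (a (b (l 16647864) (l 16649056)) (c (l 16665752) (l 16660896))) (a (b (c (l 16668296) (l 16663696)) (c (l 16669448) (l 16665024))) (b (c (l 16667416) (l 16662816)) (c (l 16668560) (l 16664128))))))), by decide +kernel⟩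

def k45_B00pm_101_s1 : ∃ t, chk3 f_B00pm_101_s1 t 148 253 2 = true :=
  ⟨(a (c (c (a (b (l 16684616) (l 16686232)) (a (b (l 16682144) (l 16683840)) (b (l 16680504) (l 16682256)))) (a (b (l 16680648) (l 16682592)) (a (b (l 16678112) (l 16680152)) (b (l 16676432) (b (l 16678000) (l 16679064)))))) (a (c (b (l 16676632) (b (l 16678344) (l 16679512))) (b (l 16672592) (b (l 16674560) (l 16675904)))) (a (c (b (l 16674048) (l 16676432)) (b (l 16669944) (b (l 16671984) (l 16673376)))) (b (b (c (l 16671728) (l 16667504)) (c (l 16672928) (l 16668872))) (b (c (l 16674152) (l 16670272)) (c (l 16675400) (a (l 16672104) (l 16671280)))))))) (b (c (a (c (l 16679432) (a (l 16675552) (l 16675104))) (c (l 16678552) (a (l 16674656) (l 16674208)))) (a (a (c (l 16671424) (l 16667264)) (c (l 16670976) (l 16666808))) (b (c (l 16669720) (l 16665456)) (c (l 16670904) (l 16666816))))) (c (a (b (c (l 16680744) (l 16676912)) (c (l 16681648) (l 16677984))) (b (c (l 16679848) (l 16676000)) (c (l 16680736) (l 16677064)))) (a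 (b (c (l 16673048) (a (l 16669360) (l 16668888))) (c (a (l 16674504) (l 16674040)) (a (l 16670784) (l 16670312)))) (a (c (l 16672944) (b (l 16668416) (l 16669832))) (c (l 16672480) (b (l 16667944) (l 16669352)))))))), by decide +kernel⟩

def k46_B00pm_101_s1 : ∃ t, chk3 f_B00pm_101_s1 t 148 252 3 = true :=
  ⟨(a (c (a (b (b (l 16659672) (l 16661136)) (b (l 16662616) (l 16653640))) (b (c (l 16648496) (c (l 16644816) (l 16642352))) (c (b (l 16650672) (l 16652152)) (b (l 16646024) (l 16647680))))) (a (b (c (l 16653104) (l 16648168)) (b (l 16642904) (l 16650016))) (a (b (l 16642360) (c (l 16653688) (l 16649056))) (b (b (l 16634152) (l 16641288)) (c (l 16641272) (l 16636600)))))) (c (b (a (c (l 16646376) (l 16641424)) (c (l 16635016) (l 16630064))) (a (c (b (l 16659056) (l 16660560)) (c (l 16645880) (l 16643568))) (c (l 16648424) (l 16643816)))) (b (a (c (l 16636424) (l 16620880)) (c (l 16625048) (l 16619992))) (a (c (c (l 16641248) (l 16638912)) (c (l 16636568) (l 16623728))) (c (l 16639160) (l 16634464)))))),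 by decide +kernel⟩

def k47_B00pm_101_s1 : ∃ t, chk3 f_B00pm_101_s1 t 148 253 3 = true :=
  ⟨(a (c (a (b (c (l 16658016) (l 16653896)) (b (c (l 16670736) (l 16666888)) (c (l 16672264) (l 16668600)))) (a (c (b (l 16665800) (b (l 16668104) (l 16669680))) (b (l 16661616) (b (l 16664192) (l 16665952)))) (c (b (b (l 16663232) (l 16664776)) (b (a (l 16666776) (l 16665928)) (a (l 16668376) (l 16667536)))) (b (c (l 16650360) (l 16648240)) (b (l 16651920) (a (l 16664624) (l 16663768))))))) (a (b (c (b (l 16659304) (l 16661136)) (l 16650776)) (b (c (l 16663000) (l 16659088)) (c (l 16664904) (l 16661176)))) (b (c (a (l 16646912) (c (l 16646104) (l 16643968))) (a (l 16642648) (c (l 16641816) (l 16639656)))) (c (a (b (l 16660248) (l 16662200)) (b (b (l 16657936) (l 16658920)) (c (l 16650872) (l 16648968)))) (a (b (l 16656272) (l 16658408)) (b (l 16649168) (c (l 16647056) (l 16645136)))))))) (c (c (a (a (b (b (l 16662288) (l 16663840)) (b (l 16665424) (l 16667040))) (b (b (l 16661824) (l 16663376)) (b (l 16664952)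 (l 16666552)))) (a (b (l 16662136) (b (l 16664472) (l 16666064))) (b (l 16661672) (b (l 16663992) (l 16665584))))) (a (b (b (l 16647264) (l 16648992)) (b (b (l 16650312) (l 16651200)) (a (l 16663256) (l 16662760)))) (a (b (l 16647400) (b (l 16660496) (l 16662272))) (b (l 16646928) (b (l 16660008) (l 16661776)))))) (b (a (c (b (l 16642888) (b (l 16654808) (l 16645288))) (b (l 16638480) (l 16645824))) (c (b (l 16641944) (l 16643840)) (b (l 16637520) (l 16639608)))) (a (c (a (b (l 16657456) (l 16659440)) (c (l 16648456) (l 16646488))) (a (b (l 16653424) (l 16658224)) (b (l 16652928) (l 16655096)))) (c (b (c (l 16646776) (l 16644760)) (c (l 16648688) (l 16646768))) (b (l 16646968) (c (l 16644840) (l 16642904)))))))), by decide +kernel⟩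

def k48_B00pm_101_s1 : ∃ t, chk3 f_B00pm_101_s1 t 296 254 2 = true :=
  ⟨(b (c (a (c (l 16687928) (b (l 16684112) (l 16685160))) (b (a (l 16683456) (c (l 16683632) (l 16680160))) (a (l 16684464) (c (l 16684576) (l 16681280))))) (a (c (b (l 16680712) (l 16681936)) (b (l 16677280) (l 16678688))) (c (b (a (l 16678280) (l 16676664)) (a (l 16679552) (a (l 16678352) (l 16677576)))) (b (a (l 16674792) (a (l 16673544) (l 16672736))) (a (l 16676248) (a (l 16675016) (l 16674224))))))) (c (c (a (b (l 16689256) (l 16690176)) (a (l 16687504) (b (l 16685544) (l 16686536)))) (b (a (l 16686232) (a (l 16683944) (a (l 16682792) (l 16682048)))) (a (l 16687328) (a (l 16685088) (a (l 16683952) (l 16683224)))))) (b (a (c (l 16683184) (l 16680120)) (a (c (l 16680840) (l 16677720)) (c (a (l 16679664) (l 16678904)) (a (l 16676520) (c (l 16676536) (l 16674944)))))) (a (c (l 16684456) (b (l 16681208) (l 16681944))) (a (c (l 16682168) (l 16679232)) (c (a (l 16681008) (c (l 16681008) (l 16679520))) (a (l 16678048) (c (l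 16678032) (l 16676536))))))))), by decide +kernel⟩

def k49_B00pm_101_s1 : ∃ t, chk3 f_B00pm_101_s1 t 297 254 2 = true :=
  ⟨(b (c (a (b (c (l 16682576) (a (l 16679296) (l 16678832))) (c (l 16683520) (a (l 16680424) (l 16679952)))) (b (c (l 16681648) (l 16678144)) (c (l 16682584) (a (l 16679472) (l 16679000))))) (a (b (c (a (l 16675784) (l 16675304)) (a (l 16672248) (l 16671760))) (c (a (l 16677088) (l 16676608)) (a (l 16673728) (l 16673240)))) (b (c (a (l 16674832) (l 16674352)) (a (l 16671272) (l 16670792))) (c (a (l 16676120) (l 16675640)) (a (l 16672744) (l 16672256)))))) (b (c (a (c (a (l 16684712) (l 16684240)) (a (l 16681576) (l 16681096))) (c (l 16683544) (a (l 16680608) (l 16680128)))) (c (a (a (l 16678416) (l 16677928)) (a (l 16677440) (l 16676944))) (a (a (c (l 16676040) (l 16674448)) (c (l 16675544) (l 16673944))) (a (c (l 16675048) (l 16673440)) (l 16673744))))) (c (a (c (a (l 16685704) (l 16685224)) (a (l 16682752) (l 16682264))) (c (a (l 16684752) (l 16684272)) (a (l 16681776) (l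 16681288)))) (a (c (a (l 16679776) (l 16679280)) (a (c (l 16677536) (l 16676040)) (c (l 16677032) (l 16675528)))) (c (a (l 16678784) (l 16678288)) (a (c (l 16676528) (l 16675016)) (c (l 16676024) (l 16674512)))))))), by decide +kernel⟩

def k50_B00pm_101_s1 : ∃ t, chk3 f_B00pm_101_s1 t 296 254 6 = true :=
  ⟨(b (a (c (b (l 16673824) (b (l 16675008) (l 16675816))) (b (l 16659856) (b (l 16671672) (l 16672568)))) (c (b (a (l 16671280) (a (l 16670000) (c (l 16670072) (l 16668288)))) (a (l 16672920) (a (l 16671664) (c (l 16671696) (l 16670008))))) (a (b (l 16667744) (l 16669568)) (a (b (l 16666432) (l 16668280)) (b (a (l 16665776) (l 16665408)) (c (l 16668304) (l 16666600))))))) (a (c (b (b (l 16676624) (l 16677440)) (b (l 16678264) (l 16679096))) (b (b (l 16673472) (l 16674384)) (b (l 16672680) (c (l 16676952) (l 16675512))))) (c (b (a (l 16674584) (a (l 16673352) (c (l 16673352) (a (l 16671928) (l 16671576))))) (a (c (l 16677016) (l 16675536)) (a (c (l 16675816) (l 16674320)) (a (l 16674464) (b (l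 16673672) (l 16674552)))))) (a (b (c (l 16672216) (l 16670624)) (c (l 16674056) (l 16672568))) (a (b (c (l 16670960) (l 16669360)) (c (l 16672824) (l 16671320))) (a (b (l 16669528) (c (l 16672208) (l 16670696))) (b (c (l 16669968) (l 16668360)) (c (l 16671856) (b (l 16669840) (l 16670840)))))))))), by decide +kernel⟩

def k51_B00pm_101_s1 : ∃ t, chk3 f_B00pm_101_s1 t 296 254 7 = true :=
  ⟨(a (b (c (b (b (l 16666344) (l 16667320)) (b (l 16668304) (l 16669296))) (b (l 16658056) (b (l 16664912) (l 16666000)))) (c (b (b (l 16670296) (c (l 16672072) (l 16670536))) (b (c (l 16673072) (l 16671576)) (c (l 16674072) (l 16672632)))) (b (b (c (l 16667904) (l 16666296)) (c (l 16668984) (l 16667432))) (b (c (l 16670080) (l 16668576)) (c (l 16671184) (l 16669728)))))) (b (c (b (a (l 16664176) (a (l 16662840) (a (l 16662168) (l 16661792)))) (a (b (l 16665680) (l 16666696)) (a (l 16664880) (a (l 16664216) (a (l 16663896) (l 16663792)))))) (b (a (l 16660584) (c (b (l 16659152) (l 16649752)) (l 16652624))) (a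 (b (l 16662240) (l 16663352)) (a (b (l 16660888) (l 16662016)) (a (l 16660776) (b (l 16659824) (l 16660960))))))) (b (c (a (c (l 16669040) (l 16667440)) (a (c (l 16667752) (l 16666144)) (a (b (l 16665776) (l 16666832)) (c (l 16666744) (l 16665128))))) (a (b (l 16664472) (l 16665608)) (a (b (l 16663152) (l 16664296)) (a (b (l 16662488) (l 16663640)) (c (l 16663496) (l 16661864)))))) (c (a (c (l 16671072) (l 16669576)) (a (c (l 16669816) (l 16668304)) (b (a (l 16667888) (c (l 16668296) (l 16666752))) (a (l 16668960) (c (l 16669344) (l 16667848)))))) (a (c (b (l 16667512) (l 16668640)) (b (l 16665984) (l 16667160))) (a (c (l 16666792) (l 16665272)) (a (c (l 16666144) (l 16664624)) (c (b (l 16665200) (l 16666352)) (b (l 16663648) (l 16664848)))))))))), by decide +kernel⟩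

def k52_B00pm_101_s1 : ∃ t, chk3 f_B00pm_101_s1 t 297 508 3 = true :=
  ⟨(c (a (a (c (b (l 16668680) (c (l 16671192) (l 16669496))) (b (c (l 16665984) (l 16664176)) (c (l 16667792) (l 16666080)))) (c (b (l 16668184) (c (l 16670696) (l 16668992))) (b (c (l 16665488) (l 16663672)) (c (l 16667288) (l 16665576))))) (a (c (b (l 16667688) (c (l 16670200) (l 16668496))) (b (l 16664080) (c (l 16666784) (l 16665064)))) (c (b (l 16667200) (l 16668848)) (b (l 16663584) (c (l 16666272) (l 16664552)))))) (b (a (a (c (b (l 16660952) (l 16661968)) (b (l 16657248) (l 16658368))) (c (b (l 16660448) (l 16661456)) (b (l 16656736) (l 16657848)))) (c (c (b (l 16650144) (l 16651128)) (b (l 16648296) (l 16649328))) (c (b (l 16646440) (l 16647512)) (l 16650376)))) (a (a (c (c (l 16664368) (l 16662648)) (c (l 16660920) (l 16659184))) (c (b (l 16662480) (l 16663504)) (c (l 16660400) (l 16658664)))) (a (c (b (l 16661960) (l 16662992)) (b (l 16658448) (l 16659568))) (c (b (l 16661448) (l 16662472)) (b (l 16657920) (l 16659040))))))),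 by decide +kernel⟩

def k53_B00pm_101_s1 : ∃ t, chk3 f_B00pm_101_s1 t 297 509 6 = true :=
  ⟨(b (c (a (a (c (l 16672848) (l 16671248)) (c (l 16672344) (l 16670736))) (a (c (l 16671840) (l 16670224)) (c (l 16671328) (l 16669712)))) (a (a (c (l 16669640) (b (l 16667536) (l 16668512))) (c (l 16669120) (l 16667504))) (a (c (l 16668608) (l 16666984)) (c (l 16668096) (l 16666472))))) (c (a (a (c (l 16674536) (b (l 16672576) (l 16673472))) (c (l 16674024) (l 16672512))) (a (c (l 16673504) (l 16671992)) (c (l 16672992) (l 16671472)))) (a (a (c (b (l 16671040) (l 16671992)) (b (l 16669504) (l 16670496))) (c (b (l 16670520) (l 16671464)) (b (l 16668976) (l 16669968)))) (a (c (b (l 16670000) (l 16670936)) (b (l 16668448) (l 16669440))) (c (b (l 16669480) (l 16670416)) (b (l 16667928) (l 16668912))))))), by decide +kernel⟩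

def k54_B00pm_101_s1 : ∃ t, chk3 f_B00pm_101_s1 t 297 509 7 = true :=
  ⟨(b (a (c (c (b (a (l 16665888) (l 16665368)) (a (l 16666920) (l 16666392))) (b (a (l 16664240) (l 16663720)) (a (l 16665320) (l 16664792)))) (c (b (a (l 16662592) (l 16662064)) (a (l 16663720) (l 16663184))) (b (a (l 16660928) (l 16660400)) (a (l 16662112) (l 16661568))))) (a (c (c (l 16665360) (a (l 16663856) (l 16663592))) (b (c (l 16661536) (l 16659864)) (c (l 16662648) (l 16661032)))) (c (c (l 16664840) (l 16663200)) (b (c (l 16661000) (l 16659336)) (c (l 16662120) (l 16660496)))))) (a (c (c (b (a (l 16667952) (l 16667424)) (a (l 16669000) (l 16668472))) (b (a (l 16666408) (l 16665872)) (a (l 16667504) (l 16666968)))) (b (c (a (l 16664856) (l 16664312)) (a (l 16663296) (l 16662752))) (c (a (a (l 16666128) (l 16665856)) (l 16665456)) (a (a (l 16664624) (l 16664352)) (a (l 16664080) (l 16663800)))))) (c (c (b (a (l 16666896) (l 16666368)) (a (l 16667936) (l 16667400))) (b (a (l 16665336) (l 16664808)) (a (l 16666424) (l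 16665888)))) (c (b (a (l 16663776) (l 16663240)) (a (l 16664912) (l 16664368))) (b (a (l 16662208) (l 16661664)) (a (l 16663400) (l 16662848))))))), by decide +kernel⟩

def k55_B00pm_101_s1 : ∃ t, chk3 f_B00pm_101_s1 t 296 510 2 = true :=
  ⟨(c (b (a (c (l 16691112) (l 16688448)) (a (c (l 16688968) (l 16686248)) (c (a (l 16687888) (l 16687192)) (a (l 16685144) (l 16684432))))) (a (c (l 16692080) (l 16689592)) (a (c (l 16689984) (l 16687440)) (c (a (l 16688920) (l 16688240)) (a (l 16686360) (c (l 16686304) (l 16685008))))))) (b (a (c (c (l 16686432) (l 16685088)) (b (l 16682696) (l 16683448))) (a (c (l 16683512) (c (l 16681456) (l 16680080))) (c (a (l 16682384) (c (l 16682344) (l 16680952))) (a (l 16679608) (c (l 16679560) (a (l 16678328) (l 16677992))))))) (a (c (b (l 16686760) (l 16687432)) (b (l 16684208) (l 16684976))) (a (c (l 16684896) (c (l 16682976) (l 16681696))) (c (a (l 16683784) (c (l 16683720) (l 16682416))) (a (c (l 16681848) (l 16680552)) (c (a (l 16681280) (l 16680952)) (a (l 16679984)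 (l 16679648))))))))), by decide +kernel⟩

def k56_B00pm_101_s1 : ∃ t, chk3 f_B00pm_101_s1 t 296 511 2 = true :=
  ⟨(c (b (a (c (l 16693072) (b (l 16690472) (l 16691064))) (a (c (l 16691016) (l 16688664)) (c (a (l 16689976) (l 16689312)) (a (l 16687600) (c (l 16687512) (l 16686312)))))) (a (c (b (l 16693824) (l 16694328)) (b (l 16691664) (l 16692264))) (a (c (l 16692072) (c (l 16690448) (l 16689368))) (c (a (l 16691064) (c (l 16690952) (l 16689856))) (a (l 16688872) (c (l 16688752) (a (l 16687800) (l 16687496)))))))) (b (a (c (c (l 16689040) (l 16687880)) (c (a (l 16687456) (l 16686000)) (a (l 16686304) (l 16684832)))) (a (c (c (l 16686896) (l 16685712)) (c (l 16684528) (l 16683344))) (c (a (l 16685216) (c (l 16685112) (a (l 16684072) (l 16683752)))) (a (c (l 16683424) (l 16682224)) (c (a (l 16682872) (l 16682544)) (a (l 16681664) (b (l 16680912) (l 16681768)))))))) (a (c (b (l 16689496) (l 16690192)) (b (c (l 16687872) (l 16686792)) (c (l 16688640) (l 16687608)))) (a (c (c (l 16688280) (l 16687200))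 (c (l 16686112) (b (l 16684608) (l 16685456)))) (c (a (c (l 16687224) (l 16686128)) (c (a (l 16686696) (l 16686384)) (a (l 16685592) (l 16685280)))) (a (c (l 16685032) (l 16683936)) (c (a (l 16684488) (b (l 16683760) (l 16684584))) (a (l 16683384) (b (l 16682632) (l 16683504)))))))))), by decide +kernel⟩

def k57_B00pm_101_s1 : ∃ t, chk3 f_B00pm_101_s1 t 297 510 2 = true :=
  ⟨(c (b (a (c (a (l 16686728) (l 16686240)) (a (l 16683952) (l 16683456))) (c (a (l 16685760) (l 16685272)) (a (l 16682960) (l 16682472)))) (a (c (a (l 16687768) (l 16687280)) (a (c (l 16685824) (l 16684528)) (l 16684680))) (c (a (l 16686792) (l 16686304)) (a (l 16684176) (l 16683680))))) (b (a (c (a (c (l 16681864) (l 16680464)) (c (l 16681360) (l 16679960))) (a (c (l 16679064) (l 16677656)) (c (l 16678552) (l 16677144)))) (c (a (c (l 16680856) (l 16679448)) (c (l 16680360) (l 16678944))) (a (c (l 16678040) (l 16676624)) (c (l 16677528) (l 16676112))))) (c (a (a (c (l 16683232) (l 16681928)) (c (l 16682720) (l 16681416)))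 (a (c (l 16682216) (l 16680896)) (c (l 16681704) (l 16680384)))) (a (a (c (l 16680624) (b (l 16678896) (l 16679728))) (c (l 16680104) (b (l 16678376) (l 16679208)))) (a (c (l 16679584) (b (l 16677856) (l 16678680))) (c (l 16679064) (b (l 16677328) (l 16678152)))))))), by decide +kernel⟩

def k58_B00pm_101_s1 : ∃ t, chk3 f_B00pm_101_s1 t 297 1022 2 = true :=
  ⟨(c (a (c (a (l 16688840) (l 16688344)) (a (c (l 16687032) (l 16685832)) (c (l 16686536) (l 16685320)))) (c (a (l 16687848) (l 16687352)) (a (c (l 16686032) (l 16684816)) (c (l 16685528) (l 16684304))))) (c (a (a (c (l 16684624) (b (l 16683040) (l 16683792))) (c (l 16684112) (b (l 16682520) (l 16683272)))) (a (c (l 16683600) (l 16682376)) (c (l 16683080) (l 16681856)))) (a (a (c (b (l 16681808) (l 16682608)) (b (l 16680576) (l 16681424))) (c (b (l 16681288) (l 16682080)) (b (l 16680048) (l 16680896)))) (a (c (b (l 16680760) (l 16681560)) (b (l 16679520) (l 16680360))) (c (b (l 16680240) (l 16681032)) (b (l 16678984) (l 16679832))))))), by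 decide +kernel⟩

def k59_B00pm_101_s1 : ∃ t, chk3 f_B00pm_101_s1 t 297 1023 2 = true :=
  ⟨(b (c (a (c (a (l 16689656) (l 16689160)) (a (l 16687392) (l 16686880))) (c (a (l 16688656) (l 16688160)) (a (l 16686368) (l 16685856)))) (a (c (a (c (l 16685688) (l 16684560)) (c (l 16685176) (l 16684032))) (a (c (l 16683424) (l 16682288)) (c (l 16682888) (l 16681752)))) (c (a (c (l 16684656) (l 16683504)) (c (l 16684136) (l 16682984))) (a (c (l 16682360) (l 16681216)) (c (l 16681832) (l 16680680)))))) (b (c (a (c (a (l 16690072) (l 16689568)) (a (l 16687880) (l 16687368))) (c (a (l 16689064) (l 16688568)) (a (l 16686848) (l 16686336)))) (a (c (a (l 16685680) (l 16685160)) (a (c (l 16684032) (l 16682936)) (c (l 16683504) (l 16682400)))) (c (a (l 16684632) (l 16684112)) (a (c (l 16682968) (l 16681856)) (c (l 16682440) (l 16681320)))))) (a (c (c (a (l 16690352) (l 16689848)) (a (l 16688200) (l 16687688))) (c (a (l 16686056) (l 16685528)) (c (a (l 16684448) (l 16683912)) (a (l 16683368) (l 16682832))))) (c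 (c (a (l 16689344) (l 16688840)) (a (l 16687176) (l 16686656))) (c (a (l 16685008) (l 16684480)) (a (c (l 16683376) (l 16682288)) (c (l 16682840) (l 16681752)))))))), by decide +kernel⟩

def k60_B00pm_101_s1 : ∃ t, chk3 f_B00pm_101_s1 t 296 510 6 = true :=
  ⟨(b (a (c (b (l 16679936) (c (l 16681456) (l 16680120))) (b (c (l 16677864) (l 16676480)) (c (l 16678784) (l 16677448)))) (c (a (c (l 16678696) (l 16677312)) (a (c (l 16677520) (l 16676120)) (c (a (l 16676928) (l 16676584)) (a (l 16675528) (l 16675176))))) (a (c (l 16675928) (b (l 16674040) (l 16675040))) (a (c (l 16674720) (l 16673320)) (c (a (l 16674120) (b (l 16673288) (l 16674256))) (a (l 16672704) (b (l 16671848) (l 16672864)))))))) (a (c (b (c (l 16682288) (l 16681000)) (c (l 16683128) (l 16681896))) (c (a (l 16680968) (l 16679408)) (b (l 16678432) (l 16679424)))) (a (c (c (l 16680416) (l 16679128)) (c (b (l 16677360) (l 16678320)) (b (l 16676040) (l 16677056)))) (c (a (c (l 16679256) (l 16677960)) (c (a (l 16678680) (b (l 16677896)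 (l 16678784))) (a (l 16677376) (b (l 16676568) (l 16677504))))) (a (c (l 16676656) (b (l 16674840) (l 16675872))) (c (a (l 16676064) (b (l 16675232) (l 16676216))) (a (b (l 16674240) (l 16675272)) (b (l 16673888) (a (l 16674976) (l 16674872)))))))))), by decide +kernel⟩

def k61_B00pm_101_s1 : ∃ t, chk3 f_B00pm_101_s1 t 296 511 6 = true :=
  ⟨(b (a (b (c (c (l 16683984) (l 16682800)) (c (l 16681608) (a (l 16681200) (l 16679648)))) (c (c (l 16684840) (l 16683704)) (c (a (l 16683328) (l 16681808)) (a (l 16682200) (l 16680664))))) (a (c (c (l 16682160) (b (l 16680512) (l 16681440))) (c (b (l 16679296) (l 16680280)) (b (l 16678080) (l 16679120)))) (c (a (c (l 16681032) (l 16679832)) (c (a (l 16680464) (b (l 16679680) (l 16680584))) (a (l 16679256) (b (l 16678448) (l 16679400))))) (a (c (b (l 16678136) (l 16679128)) (b (l 16676904) (l 16677952))) (c (a (b (l 16677544) (l 16678552)) (b (a (l 16677256) (l 16677160)) (a (l 16678264) (l 16678160)))) (a (b (l 16676312) (l 16677368)) (b (a (l 16676024) (l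 16675920)) (a (l 16677080) (l 16676976))))))))) (a (b (c (c (l 16685704) (l 16684616)) (c (a (l 16684280) (l 16682784)) (a (l 16683208) (l 16681688)))) (c (c (l 16686576) (l 16685544)) (a (b (l 16684480) (l 16684976)) (c (l 16683768) (l 16682720))))) (a (c (c (b (l 16683496) (l 16684392)) (b (l 16682384) (l 16683336))) (c (b (l 16681272) (l 16682272)) (b (l 16680160) (b (l 16680952) (l 16681480))))) (c (a (c (b (l 16682384) (l 16683296)) (b (l 16681256) (l 16682216))) (c (a (l 16682280) (b (l 16681496) (l 16682416))) (a (b (l 16680688) (l 16681656)) (b (a (l 16680408) (l 16680312)) (a (l 16681384) (l 16681280)))))) (a (c (b (l 16680136) (l 16681144)) (b (l 16679008) (l 16680072))) (c (a (b (l 16679560) (l 16680576)) (b (a (l 16679280) (l 16679176)) (a (l 16680304) (l 16680200)))) (a (b (l 16678424) (l 16679496)) (b (a (c (l 16678424) (l 16677856)) (l 16678040)) (a (c (l 16679488) (l 16678944)) (l 16679112)))))))))), by decide +kernel⟩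

def k62_B00pm_101_s1 : ∃ t, chk3 f_B00pm_101_s1 t 296 1020 7 = true :=
  ⟨(a (c (b (c (l 16675088) (l 16673696)) (c (l 16676112) (l 16674768))) (b (c (l 16672296) (l 16670896)) (c (a (l 16674240) (l 16672592)) (a (l 16672904) (l 16671232))))) (c (b (a (c (l 16672624) (l 16671200)) (a (c (l 16671384) (l 16669952)) (a (c (l 16670760) (l 16669320)) (c (l 16670408) (l 16668960))))) (a (c (l 16673672) (l 16672296)) (a (c (l 16672440) (l 16671056)) (a (c (l 16671824) (l 16670432)) (c (l 16671472) (a (l 16670128) (l 16670024))))))) (b (c (a (l 16669776) (a (l 16668512) (a (l 16667872) (l 16667512)))) (a (l 16668352) (a (l 16667072) (a (l 16666424) (a (l 16666112) (l 16666000)))))) (a (c (l 16670928) (l 16669552)) (a (c (l 16669672) (l 16668280)) (a (c (l 16669040) (l 16667640)) (c (a (l 16668728) (l 16668624)) (a (l 16667328) (l 16667224))))))))), by decide +kernel⟩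

def k63_B00pm_101_s1 : ∃ t, chk3 f_B00pm_101_s1 t 296 1021 7 = true :=
  ⟨(a (c (b (c (l 16677136) (a (l 16676656) (l 16675032))) (c (a (l 16678976) (l 16677384)) (a (l 16677736) (l 16676136)))) (b (c (a (l 16675368) (l 16673728)) (a (l 16674080) (l 16672424))) (c (a (l 16676504) (l 16674880)) (a (l 16675272) (l 16673632))))) (c (b (a (c (l 16674728) (l 16673408)) (a (c (l 16673512) (l 16672176)) (a (c (l 16672904) (l 16671560)) (c (a (l 16672600) (l 16672496)) (a (l 16671256) (l 16671152)))))) (a (c (l 16675792) (l 16674520)) (a (c (l 16674584) (l 16673304)) (a (c (l 16673984) (l 16672696)) (c (a (l 16673688) (l 16673584)) (a (l 16672392) (l 16672288))))))) (b (a (c (l 16672080) (l 16670760)) (c (a (l 16670840) (a (l 16670216) (a (l 16669912) (l 16669808)))) (a (l 16669504) (a (l 16668872) (a (c (l 16668896) (l 16668224)) (l 16668456)))))) (a (c (l 16673248) (b (l 16671672) (l 16672288))) (c (a (l 16672024) (a (l 16671400) (a (c (l 16671424) (l 16670776)) (l 16670992)))) (a (l 16670736) (a (l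 16670112) (a (c (l 16670128) (l 16669480)) (l 16669696))))))))), by decide +kernel⟩

def k64_B00pm_101_s1 : ∃ t, chk3 f_B00pm_101_s1 t 296 1022 7 = true :=
  ⟨(a (c (b (c (a (l 16680016) (l 16678448)) (a (l 16678832) (l 16677248))) (c (a (l 16681072) (l 16679520)) (a (l 16679936) (l 16678368)))) (b (c (a (l 16677656) (l 16676048)) (a (l 16676464) (c (l 16675144) (l 16674544)))) (c (a (l 16678808) (a (l 16677616) (l 16676824))) (a (l 16677672) (a (l 16676472) (l 16675664)))))) (c (b (a (c (l 16676864) (l 16675648)) (a (c (l 16675672) (l 16674448)) (a (c (l 16675080) (l 16673840)) (c (a (l 16674784) (l 16674680)) (a (c (l 16673856) (l 16673232)) (l 16673440)))))) (a (c (l 16677952) (c (l 16677080) (l 16676496))) (a (c (l 16676776) (l 16675592)) (a (c (l 16676184) (l 16674992)) (c (a (c (l 16676184) (l 16675592)) (l 16675784)) (a (c (l 16675000) (l 16674400)) (l 16674600))))))) (b (a (c (c (l 16674736) (l 16674128)) (c (l 16673512) (l 16672904))) (a (c (l 16673216) (c (l 16672288) (l 16671672)))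 (a (c (l 16672600) (c (l 16671672) (l 16671048))) (c (a (c (l 16672608) (l 16671992)) (l 16672192)) (a (c (l 16671368) (a (l 16670792) (l 16670696))) (c (l 16671264) (l 16670640))))))) (a (c (c (l 16675912) (l 16675328)) (c (l 16674744) (a (l 16674568) (l 16673752)))) (a (c (c (l 16674712) (l 16674120)) (c (l 16673528) (l 16672936))) (a (c (c (l 16674104) (l 16673512)) (c (l 16672920) (l 16672328))) (c (a (c (l 16673808) (a (l 16673256) (l 16673168))) (c (l 16673704) (l 16673104))) (b (a (c (l 16672304) (l 16671704)) (l 16671896)) (a (c (l 16672928) (l 16672344)) (l 16672528)))))))))), by decide +kernel⟩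

def k65_B00pm_101_s1 : ∃ t, chk3 f_B00pm_101_s1 t 296 2046 7 = true :=
  ⟨(a (c (c (a (l 16682128) (l 16680592)) (a (l 16681048) (l 16679496))) (c (a (l 16679968) (c (l 16678680) (l 16678128))) (a (l 16678896) (c (l 16677584) (l 16677032))))) (c (a (c (a (l 16679440) (l 16678664)) (a (l 16678328) (l 16677544))) (a (c (l 16677880) (c (l 16677040) (l 16676472))) (a (c (l 16677296) (c (l 16676448) (l 16675880))) (c (a (c (l 16677288) (l 16676720)) (l 16676904)) (a (c (l 16676152) (a (l 16675632) (l 16675544))) (c (l 16676048) (l 16675480))))))) (a (c (a (l 16677216) (c (l 16676704) (l 16676144))) (a (c (l 16676384) (l 16675832)) (c (l 16675584) (l 16675024)))) (a (c (c (l 16675912) (l 16675344)) (c (l 16674784) (l 16674216))) (a (c (c (l 16675312) (l 16674744)) (c (l 16674176) (l 16673608))) (c (b (a (c (l 16674712) (l 16674136)) (l 16674320)) (a (c (l 16675320) (l 16674760)) (l 16674936))) (a (c (a (l 16673928) (b (l 16673520) (l 16674152))) (a (l 16673360) (b (l 16672944) (l 16673592)))) (c (l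 16673776) (l 16673208))))))))), by decide +kernel⟩

def k66_B00pm_101_s1 : ∃ t, chk3 f_B00pm_101_s1 t 296 4094 7 = true :=
  ⟨(a (c (c (a (l 16682928) (l 16681408)) (a (l 16681888) (l 16680352))) (c (a (l 16680848) (l 16679296)) (a (l 16679808) (l 16678240)))) (c (a (c (l 16679880) (l 16678800)) (a (c (l 16678720) (l 16677632)) (a (c (l 16678136) (l 16677040)) (c (a (l 16677848) (l 16677752)) (a (c (l 16677032) (l 16676480)) (l 16676648)))))) (a (c (c (l 16678000) (l 16677464)) (c (l 16676920) (l 16676384))) (c (a (l 16676544) (a (l 16675952) (a (c (l 16675928) (a (l 16675424) (l 16675336))) (l 16675552)))) (a (c (l 16675728) (l 16675184)) (a (c (l 16675128) (l 16674584)) (a (c (a (l 16674880) (l 16674792)) (a (l 16674328) (a (l 16674256) (l 16674224)))) (c (l 16674728) (l 16674176))))))))), by decide +kernel⟩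

def k67_B00pm_101_s1 : ∃ t, chk3 f_B00pm_101_s1 t 296 4095 7 = true :=
  ⟨(b (a (c (c (l 16682576) (l 16681544)) (c (a (l 16681288) (l 16679744)) (a (l 16680264) (l 16678704)))) (c (a (c (l 16680296) (l 16679240)) (a (c (l 16679136) (l 16678072)) (a (c (l 16678560) (l 16677488)) (c (a (l 16678272) (l 16678176)) (a (c (l 16677464) (l 16676928)) (l 16677096)))))) (a (c (l 16678184) (a (l 16677528) (l 16676736))) (c (a (l 16677008) (a (l 16676416) (a (c (l 16676392) (l 16675848)) (l 16676016)))) (a (c (l 16676208) (l 16675672)) (a (l 16675336) (a (a (l 16675088) (c (l 16675264) (l 16674728))) (c (l 16675208) (l 16674664))))))))) (a (a (c (c (l 16683592) (l 16682584)) (c (l 16681584) (l 16680576))) (c (c (l 16682088) (l 16681064)) (c (l 16680040) (l 16679016)))) (b (c (a (c (l 16680504) (l 16679456)) (a (c (l 16679352) (l 16678296)) (a (c (l 16678776) (l 16677712)) (c (a (l 16678488) (l 16678384)) (a (l 16677424) (l 16677320)))))) (c (a (l 16678416) (a (l 16677240) (a (l 16676648) (a (c (l 16676624)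 (l 16676088)) (l 16676248))))) (a (l 16677368) (a (l 16676176) (a (l 16675584) (a (a (l 16675328) (a (l 16675256) (l 16675224))) (l 16675184))))))) (c (a (c (l 16680640) (l 16679600)) (a (c (l 16679488) (l 16678440)) (a (c (l 16678912) (l 16677856)) (c (a (l 16678632) (l 16678528)) (a (l 16677568) (l 16677464)))))) (a (c (l 16678568) (c (l 16677784) (l 16677272))) (a (c (l 16677392) (l 16676336)) (a (c (l 16676800) (l 16675744)) (c (a (c (l 16676776) (l 16676240)) (l 16676408)) (a (a (l 16675496) (c (l 16675672) (l 16675136))) (l 16675344)))))))))), by decide +kernel⟩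

def k68_B00pm_101_s1 : ∃ t, chk3 f_B00pm_101_s1 t 297 510 6 = true :=
  ⟨(b (c (a (a (c (b (l 16675816) (l 16676688)) (b (l 16674384) (l 16675296))) (c (b (l 16675296) (l 16676160)) (b (l 16673856) (l 16674768)))) (a (c (b (l 16674784) (l 16675640)) (b (l 16673336) (l 16674248))) (c (b (l 16674264) (l 16675120)) (b (l 16672816) (l 16673720))))) (a (a (c (b (l 16672944) (l 16673912)) (b (l 16671504) (a (l 16672648) (l 16672376)))) (c (b (l 16672416) (l 16673376)) (b (l 16670968) (a (l 16672112) (l 16671840))))) (a (c (b (l 16671888) (l 16672848)) (b (l 16670440) (l 16671440))) (c (b (l 16671360) (l 16672312)) (b (l 16669904) (l 16670904)))))) (c (a (a (c (b (l 16677560) (l 16678448)) (b (l 16676224) (l 16677160))) (c (b (l 16677032) (l 16677912)) (b (l 16675696) (l 16676624)))) (a (c (b (l 16676512) (l 16677384)) (b (l 16675160) (l 16676088))) (c (b (l 16675984) (l 16676856)) (b (l 16674632) (l 16675552))))) (a (a (c (b (a (l 16675016) (l 16674744)) (a (l 16676000) (l 16675728))) (b (a (l 16673672)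 (l 16673400)) (a (l 16674704) (l 16674432)))) (c (b (l 16674344) (a (l 16675456) (l 16675184))) (b (a (l 16673128) (l 16672864)) (a (l 16674160) (l 16673888))))) (a (c (b (l 16673808) (a (l 16674920) (l 16674648))) (b (a (l 16672592) (l 16672320)) (a (l 16673616) (l 16673344)))) (c (b (l 16673272) (a (l 16674376) (l 16674104))) (b (a (l 16672048) (l 16671776)) (a (l 16673072) (l 16672800)))))))), by decide +kernel⟩

def k69_B00pm_101_s1 : ∃ t, chk3 f_B00pm_101_s1 t 297 1022 6 = true :=
  ⟨(c (a (a (c (b (l 16679336) (a (l 16680368) (l 16680096))) (b (a (l 16678232) (l 16677960)) (a (l 16679184) (l 16678912)))) (c (b (l 16678800) (l 16679704)) (b (a (l 16677688) (l 16677424)) (a (l 16678640) (l 16678368))))) (a (c (b (l 16678272) (l 16679160)) (b (a (l 16677152) (l 16676880)) (a (l 16678096) (l 16677824)))) (c (b (l 16677736) (l 16678624)) (b (a (l 16676616) (l 16676344)) (a (l 16677552) (l 16677280)))))) (a (a (c (b (a (l 16676992) (l 16676720)) (a (l 16677992) (l 16677720))) (b (a (l 16675752)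 (l 16675472)) (a (l 16676808) (l 16676528)))) (c (b (a (l 16676448) (l 16676176)) (a (l 16677448) (l 16677168))) (b (a (l 16675200) (l 16674928)) (a (l 16676248) (l 16675976))))) (a (c (b (a (l 16675904) (l 16675632)) (a (l 16676896) (l 16676624))) (b (a (l 16674648) (l 16674376)) (a (l 16675696) (l 16675424)))) (c (b (a (l 16675360) (l 16675088)) (a (l 16676352) (l 16676072))) (b (a (l 16674104) (l 16673824)) (a (l 16675144) (l 16674864))))))), by decide +kernel⟩

def k70_B00pm_101_s1 : ∃ t, chk3 f_B00pm_101_s1 t 297 2046 6 = true :=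
  ⟨(c (a (a (c (a (l 16681280) (l 16681008)) (a (l 16680144) (l 16679872))) (c (a (l 16680736) (l 16680464)) (a (l 16679600) (l 16679320)))) (a (c (a (l 16680200) (l 16679928)) (a (l 16679048) (l 16678776))) (c (a (l 16679656) (l 16679384)) (a (l 16678504) (l 16678232))))) (a (a (c (a (l 16679008) (l 16678728)) (a (c (l 16678152) (l 16677584)) (c (l 16677872) (l 16677304)))) (c (a (l 16678456) (l 16678176)) (a (c (l 16677600) (l 16677024)) (c (l 16677320) (l 16676744))))) (a (c (a (l 16677904) (l 16677624)) (a (c (l 16677040) (l 16676464)) (c (l 16676760) (l 16676184)))) (c (a (l 16677352) (l 16677072)) (a (c (l 16676488) (l 16675904)) (c (l 16676208) (l 16675624))))))), by decide +kernel⟩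

def k71_B00pm_101_s1 : ∃ t, chk3 f_B00pm_101_s1 t 297 2047 6 = true :=
  ⟨(b (c (a (a (c (l 16681840) (a (l 16680872) (l 16680592))) (c (l 16681296) (a (l 16680320) (l 16680048)))) (a (c (l 16680752) (a (l 16679768) (l 16679496))) (c (l 16680208) (a (l 16679224) (l 16678944))))) (a (a (c (a (l 16679768) (l 16679496)) (a (l 16678672) (l 16678392))) (c (a (l 16679216) (l 16678936)) (a (l 16678112) (l 16677832)))) (a (c (a (l 16678664) (l 16678384)) (a (l 16677552) (l 16677272))) (c (a (l 16678104) (l 16677832)) (a (l 16676992) (l 16676712)))))) (b (a (c (a (c (l 16682184) (l 16681104)) (c (l 16681640) (l 16680552))) (a (c (a (l 16680152) (l 16679880)) (a (l 16679080) (l 16678792))) (c (a (l 16679600) (l 16679320)) (a (l 16678512) (l 16678232))))) (c (a (c (l 16681088) (l 16680000)) (c (l 16680544) (l 16679448))) (a (c (a (l 16679040) (l 16678768)) (a (l 16677952) (l 16677672))) (c (a (l 16678488) (l 16678208)) (a (l 16677392) (l 16677112)))))) (a (c (a (c (l 16682416) (l 16681344)) (c (l 16681864)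 (l 16680792))) (a (a (c (l 16680416) (l 16679344)) (c (l 16680136) (l 16679064))) (a (c (l 16679856) (l 16678784)) (c (l 16679576) (l 16678504))))) (c (a (c (l 16681320) (l 16680240)) (c (l 16680776) (l 16679688))) (a (a (c (l 16679296) (l 16678224)) (c (l 16679016) (l 16677936))) (a (c (l 16678744) (l 16677656)) (c (l 16678464) (l 16677376)))))))), by decide +kernel⟩

def k72_B00pm_101_s1 : ∃ t, chk3 f_B00pm_101_s1 t 297 1020 7 = true :=
  ⟨(a (c (a (c (b (a (l 16670184) (l 16669920)) (a (l 16671256) (l 16670984))) (b (a (l 16668736) (l 16668464)) (a (l 16669856) (l 16669584)))) (c (b (l 16669520) (a (l 16670712) (l 16670440))) (b (a (l 16668200) (l 16667928)) (a (l 16669312) (l 16669032))))) (a (c (b (a (l 16667288) (l 16667016)) (a (l 16668456) (l 16668176))) (b (a (l 16665832) (l 16665560)) (a (l 16667048) (l 16666776)))) (c (b (a (l 16666744) (l 16666464)) (a (l 16667904) (l 16667624))) (b (a (l 16665280) (l 16665008)) (a (l 16666496) (l 16666216)))))) (a (c (c (b (l 16668984) (a (l 16670168)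 (l 16669896))) (b (a (l 16667656) (l 16667384)) (a (l 16668760) (l 16668488)))) (b (c (a (l 16666192) (l 16665920)) (a (l 16664728) (l 16664456))) (c (a (l 16667352) (l 16667072)) (a (l 16665936) (l 16665664))))) (c (c (b (l 16668440) (a (l 16669624) (l 16669352))) (b (l 16666984) (a (l 16668216) (l 16667944)))) (b (c (a (l 16665648) (l 16665376)) (a (l 16664176) (l 16663904))) (c (a (l 16666800) (l 16666528)) (a (l 16665384) (l 16665104))))))), by decide +kernel⟩

def k73_B00pm_101_s1 : ∃ t, chk3 f_B00pm_101_s1 t 297 1021 7 = true :=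
  ⟨(a (c (a (c (b (a (l 16672328) (l 16672056)) (a (l 16673416) (l 16673136))) (b (a (l 16670984) (l 16670704)) (a (c (l 16672440) (l 16671792)) (l 16671840)))) (c (b (a (l 16671784) (l 16671512)) (a (l 16672864) (l 16672584))) (b (a (l 16670432) (l 16670152)) (a (l 16671560) (l 16671288))))) (a (c (b (a (l 16669632) (l 16669352)) (a (c (l 16671144) (l 16670496)) (c (l 16670864) (l 16670216)))) (b (a (b (l 16667968) (l 16668592)) (b (l 16667696) (l 16668312))) (a (c (l 16669848) (l 16669200)) (b (l 16668928) (l 16669552))))) (c (b (a (l 16669080) (l 16668800)) (a (c (l 16670584) (l 16669936)) (c (l 16670304) (l 16669656)))) (b (a (l 16667720) (l 16667440)) (a (b (l 16668648) (l 16669264)) (b (l 16668360) (l 16668984))))))) (c (a (c (b (a (l 16671232) (l 16670960)) (a (l 16672312) (l 16672040))) (b (a (l 16669880) (l 16669600)) (a (l 16671008) (l 16670728)))) (c (b (a (l 16670688) (l 16670416)) (a (l 16671760) (l 16671488))) (b (a (l 16669328) (l 16669056)) (a (l 16670448) (l 16670176))))) (a (c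 (b (a (l 16668520) (l 16668240)) (a (c (l 16670024) (l 16669376)) (b (l 16669128) (l 16669712)))) (b (a (l 16667160) (l 16666880)) (a (b (l 16668080) (l 16668696)) (b (l 16667800) (l 16668416))))) (c (b (a (l 16667968) (l 16667688)) (a (b (l 16668848) (l 16669432)) (l 16668856))) (b (a (l 16666600) (l 16666320)) (a (b (l 16667520) (l 16668136)) (b (l 16667232) (l 16667848)))))))), by decide +kernel⟩

def k74_B00pm_101_s1 : ∃ t, chk3 f_B00pm_101_s1 t 594 1022 7 = true :=
  ⟨(c (a (c (b (a (c (l 16674816) (l 16674200)) (l 16674232)) (a (c (l 16675912) (l 16675312)) (c (l 16675632) (l 16675040)))) (b (a (c (l 16673576) (l 16672952)) (c (l 16673296) (l 16672672))) (a (c (l 16674720) (l 16674128)) (c (l 16674440) (l 16673840))))) (c (b (a (l 16673952) (l 16673680)) (a (c (l 16675352) (l 16674760)) (c (l 16675072) (l 16674480)))) (b (a (c (l 16673016) (l 16672392)) (c (l 16672736) (l 16672112))) (a (c (l 16674160) (l 16673560)) (c (l 16673880) (l 16673280)))))) (b (a (c (a (c (l 16672328) (l 16671712))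 (c (l 16672048) (l 16671424))) (a (c (l 16671088) (b (l 16670144) (l 16670776))) (c (l 16670800) (b (l 16669856) (l 16670496))))) (c (a (c (l 16671768) (l 16671144)) (c (l 16671488) (l 16670856))) (a (c (l 16670512) (l 16669888)) (c (l 16670232) (l 16669600))))) (a (c (a (c (b (l 16673224) (l 16673832)) (b (l 16672624) (l 16673240))) (c (l 16673240) (b (l 16672336) (l 16672952)))) (a (c (b (l 16672024) (l 16672648)) (b (l 16671416) (l 16672056))) (c (b (l 16671736) (l 16672360)) (b (l 16671128) (l 16671768))))) (c (a (c (l 16672960) (b (l 16672056) (l 16672664))) (c (l 16672672) (b (l 16671768) (l 16672384)))) (a (c (b (l 16671448) (l 16672072)) (b (l 16670840) (l 16671480))) (c (b (l 16671160) (l 16671784)) (b (l 16670552) (l 16671192)))))))), by decide +kernel⟩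

def k75_B00pm_101_s1 : ∃ t, chk3 f_B00pm_101_s1 t 595 1022 7 = true :=
  ⟨(c (b (c (a (a (l 16673400) (l 16673120)) (a (l 16672848) (l 16672568))) (b (a (a (l 16671856) (l 16671584)) (a (l 16671304) (l 16671024))) (a (a (l 16672432) (l 16672152)) (a (l 16671872) (l 16671592))))) (b (a (c (a (l 16674224) (l 16673944)) (a (l 16673008) (l 16672728))) (c (a (l 16673664) (l 16673384)) (a (l 16672440) (l 16672160)))) (a (c (a (l 16674776) (l 16674496)) (a (l 16673584) (l 16673304))) (c (a (l 16674216) (l 16673936)) (a (l 16673016) (l 16672736)))))) (b (a (c (a (c (l 16671208) (l 16670576)) (c (l 16670920) (l 16670296))) (a (c (l 16669944) (l 16669320)) (c (l 16669664) (l 16669032)))) (c (a (c (l 16670640) (l 16670008)) (c (l 16670360) (l 16669728))) (a (b (l 16668752) (l 16669376)) (b (l 16668464) (l 16669088))))) (a (c (a (c (l 16672392) (b (l 16671488) (l 16672096))) (c (l 16672104) (b (l 16671200) (l 16671808)))) (a (c (b (l 16670880) (l 16671496)) (b (l 16670264) (l 16670904))) (c (b (l 16670592)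 (l 16671208)) (b (l 16669976) (l 16670616))))) (c (a (c (l 16671824) (b (l 16670912) (l 16671520))) (c (l 16671536) (b (l 16670632) (l 16671240)))) (a (c (b (l 16670304) (l 16670928)) (b (l 16669688) (l 16670328))) (c (b (l 16670016) (l 16670640)) (l 22))))))), by decide +kernel⟩

def k76_B00pm_101_s1 : ∃ t, chk3 f_B00pm_101_s1 t 594 2046 7 = true :=
  ⟨(c (a (c (a (c (l 16677016) (l 16676448)) (c (l 16676736) (l 16676160))) (a (c (l 16675872) (b (l 16675008) (l 16675600))) (c (l 16675592) (b (l 16674728) (l 16675320))))) (c (a (c (l 16676456) (l 16675880)) (c (l 16676168) (l 16675600))) (a (c (l 16675312) (b (l 16674440) (l 16675032))) (c (l 16675024) (b (l 16674152) (l 16674744)))))) (c (b (a (a (c (l 16674432) (l 16673856)) (c (l 16674144) (l 16673568))) (a (c (l 16673864) (l 16673280)) (c (l 16673576) (l 16672992)))) (a (a (c (l 16675040) (l 16674472)) (c (l 16674752) (l 16674184))) (a (c (l 16674464) (l 16673896)) (c (l 16674176) (l 16673608))))) (b (a (a (c (l 16673280) (l 16672704)) (c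 (l 16672992) (l 16672408))) (a (c (l 16672704) (l 16672120)) (c (l 16672416) (l 16671832)))) (a (a (c (l 16673912) (a (l 16673416) (l 16673272))) (c (l 16673624) (a (l 16673128) (l 16672984)))) (a (c (l 16673336) (a (l 16672840) (l 16672696))) (c (l 16673040) (a (l 16672544) (l 16672400)))))))), by decide +kernel⟩

def k77_B00pm_101_s1 : ∃ t, chk3 f_B00pm_101_s1 t 595 2046 7 = true :=
  ⟨(c (a (c (a (c (l 16675888) (l 16675320)) (c (l 16675608) (l 16675032))) (a (c (l 16674744) (b (l 16673872) (l 16674464))) (c (l 16674456) (b (l 16673584) (l 16674176))))) (c (a (c (l 16675328) (l 16674752)) (c (l 16675048) (l 16674472))) (a (c (l 16674176) (b (l 16673304) (l 16673888))) (c (l 16673888) (b (l 16673016) (l 16673600)))))) (c (b (a (a (c (l 16673288) (l 16672704)) (c (l 16673000) (l 16672424))) (a (c (l 16672720) (l 16672136)) (c (l 16672432) (l 16671848)))) (a (a (c (l 16673888) (l 16673320)) (c (l 16673608) (l 16673032))) (a (c (l 16673320) (l 16672744)) (c (l 16673032) (l 16672456))))) (a (a (c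 (b (l 16672128) (l 16672752)) (b (l 16671544) (a (l 16672256) (l 16672112)))) (c (b (l 16671840) (l 16672464)) (b (l 16671256) (a (l 16671968) (l 16671816))))) (a (c (b (l 16671544) (l 16672176)) (b (l 16670960) (a (l 16671672) (l 16671528)))) (c (b (l 16671256) (l 16671888)) (l 22)))))), by decide +kernel⟩

def k78_B00pm_101_s1 : ∃ t, chk3 f_B00pm_101_s1 t 297 4094 7 = true :=
  ⟨(a (c (a (c (a (l 16677576) (l 16677288)) (a (c (l 16676744) (l 16676200)) (c (l 16676464) (l 16675912)))) (c (a (l 16677008) (l 16676720)) (a (c (l 16676176) (l 16675624)) (c (l 16675896) (l 16675336))))) (c (a (a (c (l 16675648) (l 16675096)) (c (l 16675360) (l 16674808))) (a (c (l 16675072) (l 16674520)) (c (l 16674784) (l 16674232)))) (a (a (c (a (l 16674616) (l 16674472)) (a (l 16674072) (l 16673920))) (c (a (l 16674328) (l 16674184)) (a (l 16673776) (l 16673632)))) (a (c (a (l 16674040) (l 16673896)) (a (l 16673488) (l 16673336))) (c (a (l 16673744) (l 16673600)) (a (l 16673192) (l 16673048))))))) (c (a (c (a (l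 16676440) (l 16676160)) (a (c (l 16675608) (l 16675056)) (c (l 16675320) (l 16674768)))) (c (a (c (l 16676152) (l 16675592)) (c (l 16675872) (l 16675312))) (a (c (l 16675040) (l 16674480)) (c (l 16674752) (l 16674192))))) (c (a (a (c (l 16674496) (a (l 16674016) (l 16673864))) (c (l 16674208) (a (l 16673720) (l 16673576)))) (a (c (l 16673920) (a (l 16673432) (l 16673288))) (c (l 16673632) (a (l 16673144) (l 16673000))))) (a (a (c (a (l 16673456) (l 16673312)) (a (l 16672904) (l 16672752))) (c (a (l 16673168) (l 16673024)) (a (l 16672608) (l 16672464)))) (a (c (a (l 16672872) (l 16672728)) (a (l 16672320) (l 16672168))) (c (a (l 16672584) (l 16672440)) (l 22))))))), by decide +kernel⟩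

def k79_B00pm_101_s1 : ∃ t, chk3 f_B00pm_101_s1 t 297 8190 7 = true :=
  ⟨(a (c (a (c (a (l 16678000) (l 16677712)) (a (c (l 16677184) (l 16676648)) (c (l 16676904) (l 16676360)))) (c (a (l 16677432) (l 16677144)) (a (c (l 16676616) (l 16676072)) (c (l 16676328) (l 16675784))))) (a (c (a (c (l 16676104) (l 16675568)) (c (l 16675816) (l 16675280))) (a (c (l 16675024) (a (l 16674560) (l 16674416))) (c (l 16674736) (a (l 16674264) (l 16674120))))) (c (a (c (l 16675528) (l 16674984)) (c (l 16675240) (l 16674696))) (a (c (l 16674440) (a (l 16673976) (l 16673824))) (c (l 16674152) (a (l 16673680) (l 16673536))))))) (c (a (c (a (l 16676864) (l 16676576)) (a (c (l 16676040) (l 16675496)) (c (l 16675760) (l 16675208)))) (c (a (l 16676296) (l 16676008)) (a (c (l 16675472) (l 16674920)) (c (l 16675184) (l 16674632))))) (a (c (a (c (l 16674952) (l 16674408)) (c (l 16674664) (l 16674120))) (a (c (l 16673864) (a (l 16673384) (l 16673240))) (c (l 16673568) (a (l 16673096) (l 16672944))))) (c (a (c (l 16674376)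 (l 16673824)) (c (l 16674088) (l 16673536))) (a (c (a (l 16673352) (l 16673200)) (a (l 16672800) (l 16672656))) (c (a (l 16673056) (l 16672912)) (l 22))))))), by decide +kernel⟩

def k80_B00pm_101_s1 : ∃ t, chk3 f_B00pm_101_s1 t 594 8191 7 = true :=
  ⟨(b (c (a (c (a (l 16678208) (l 16677928)) (a (l 16677136) (l 16676856))) (c (a (l 16677640) (l 16677360)) (a (l 16676568) (l 16676280)))) (a (c (a (c (l 16676336) (l 16675800)) (c (l 16676048) (l 16675512))) (a (c (l 16675264) (l 16674728)) (c (l 16674976) (a (l 16674512) (l 16674360))))) (c (a (c (l 16675760) (l 16675224)) (c (l 16675472) (l 16674928))) (a (c (l 16674680) (a (l 16674216) (l 16674072))) (c (l 16674392) (a (l 16673920) (l 16673776))))))) (c (a (c (a (l 16678352) (l 16678064)) (a (l 16677288) (l 16677000))) (c (a (l 16677784) (l 16677496)) (a (l 16676712) (l 16676424)))) (b (a (c (a (c (l 16676448) (l 16675920)) (c (l 16676160) (l 16675632))) (a (c (l 16675384) (l 16674856)) (c (l 16675096) (l 16674560)))) (c (a (c (l 16675872) (l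 16675336)) (c (l 16675584) (l 16675048))) (a (c (l 16674800) (l 16674264)) (c (l 16674512) (a (l 16674048) (l 16673896)))))) (a (c (a (c (l 16676528) (l 16676000)) (c (l 16676240) (l 16675704))) (a (c (l 16675464) (l 16674936)) (c (l 16675176) (l 16674640)))) (c (a (c (l 16675952) (l 16675416)) (c (l 16675664) (l 16675128))) (a (c (l 16674880) (b (l 16674328) (l 16674368))) (c (l 16674592) (b (l 16674032) (l 16674072))))))))), by decide +kernel⟩

def k81_B00pm_101_s1 : ∃ t, chk3 f_B00pm_101_s1 t 595 8191 7 = true :=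
  ⟨(c (b (a (c (a (l 16677072) (l 16676792)) (a (l 16675992) (l 16675704))) (c (a (l 16676504) (l 16676216)) (a (c (l 16675688) (l 16675144)) (c (l 16675400) (l 16674856))))) (a (c (a (l 16677216) (l 16676928)) (a (b (l 16676104) (l 16676176)) (b (l 16675816) (l 16675888)))) (c (a (l 16676648) (l 16676360)) (a (b (l 16675528) (l 16675600)) (a (l 16675344) (l 16675200)))))) (b (a (c (a (c (l 16675184) (l 16674640)) (c (l 16674888) (l 16674352))) (a (c (l 16674096) (a (l 16673632) (l 16673480))) (c (l 16673808) (a (l 16673336) (l 16673192))))) (c (a (c (l 16674600) (l 16674056)) (c (l 16674312) (l 16673768))) (a (c (l 16673512) (a (l 16673040) (l 16672896))) (c (l 16673224) (l 22))))) (b (a (c (a (c (l 16675296) (l 16674760)) (c (l 16675008) (l 16674464))) (a (c (l 16674216) (a (l 16673752) (l 16673608))) (c (l 16673928) (a (l 16673456) (l 16673312))))) (c (a (c (l 16674712) (l 16674176)) (c (l 16674424) (l 16673880))) (a (c (l 16673632) (a (l 16673168) (l 16673016))) (c (l 16673344) (l 22)))))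 (a (c (a (c (l 16675368) (l 16674832)) (c (l 16675080) (l 16674544))) (a (c (l 16674296) (a (l 16673832) (l 16673688))) (c (l 16674008) (a (l 16673536) (l 16673392))))) (c (a (c (l 16674792) (l 16674256)) (c (l 16674504) (l 16673960))) (a (c (l 16673712) (a (l 16673248) (l 16673096))) (c (l 16673424) (l 22)))))))), by decide +kernel⟩

def k82_B00pm_101_s1 : ∃ t, chk3 f_B00pm_101_s1 t 149 252 1 = true :=
  ⟨(c (a (c (b (a (l 16651128) (l 16650280)) (a (b (l 16673376) (l 16674256)) (b (l 16672512) (l 16673384)))) (c (a (b (l 16664896) (l 16667104)) (b (l 16664040) (l 16666224))) (a (b (l 16660032) (b (l 16661928) (l 16663224))) (b (l 16659168) (b (l 16661040) (l 16662328)))))) (c (b (a (l 16649440) (l 16669560)) (a (b (l 16671656) (l 16672504)) (l 16650240))) (b (a (l 16645016) (l 16644152)) (a (c (l 16665336) (l 16660792)) (b (l 16661592) (l 16662760)))))) (a (c (b (a (b (l 16641400) (l 16642904)) (a (l 16641472) (l 16641032))) (a (c (l 16647520) (l 16642904)) (c (l 16646616) (l 16641984)))) (b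 (a (c (l 16624168) (l 16619096)) (b (l 16619824) (l 16632152))) (a (c (l 16638240) (l 16633528)) (c (l 16637312) (l 16622112))))) (c (b (a (b (l 16650152) (l 16651624)) (l 16639520)) (a (c (l 16645712) (l 16641072)) (b (l 16641728) (l 16643240)))) (b (a (a (l 16630536) (l 16619608)) (l 16639928)) (a (c (l 16625904) (l 16621176)) (c (l 16624976) (l 16620240))))))), by decide +kernel⟩

def k83_B00pm_101_s1 : ∃ t, chk3 f_B00pm_101_s1 t 149 253 2 = true :=
  ⟨(a (b (b (c (a (l 16675152) (l 16674272)) (c (a (l 16668816) (l 16667912)) (a (l 16664544) (l 16663632)))) (c (a (b (l 16675840) (l 16676312)) (b (l 16674952) (l 16675408))) (c (a (l 16669992) (l 16669072)) (a (l 16665888) (l 16664960))))) (c (a (b (c (l 16678944) (l 16675080)) (c (l 16679824) (l 16676136))) (c (l 16678480) (a (l 16674896) (l 16674432)))) (a (b (c (l 16671192) (l 16667264)) (c (l 16672408) (a (l 16668872) (l 16668400)))) (b (c (l 16670256) (l 16666320)) (c (l 16671464) (a (l 16667920) (l 16667440))))))) (c (b (a (b (l 16673384)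 (l 16674280)) (b (l 16672496) (l 16673384))) (a (c (l 16677568) (a (l 16673976) (l 16673512))) (c (l 16676656) (a (l 16673048) (l 16672584))))) (b (a (b (c (l 16667008) (l 16662712)) (c (l 16668160) (l 16664032))) (c (l 16666672) (a (l 16662656) (l 16662192)))) (a (b (c (l 16669328) (l 16665368)) (c (l 16670520) (l 16666744))) (b (c (l 16668392) (l 16664424)) (c (l 16669576) (l 16665776))))))), by decide +kernel⟩

def k84_B00pm_101_s1 : ∃ t, chk3 f_B00pm_101_s1 t 149 253 3 = true :=
  ⟨(a (b (c (a (c (b (l 16660232) (l 16661752)) (c (l 16647312) (l 16645168))) (c (l 16649568) (c (l 16646368) (l 16644224)))) (a (c (c (l 16643016) (l 16640856)) (a (l 16637816) (l 16637328))) (c (c (l 16642064) (l 16639896)) (c (l 16637720) (l 16625048))))) (c (a (b (c (a (l 16663520) (l 16663040)) (l 16648816)) (c (a (l 16665096) (l 16664608)) (b (l 16650128) (l 16651016)))) (b (c (a (l 16662560) (l 16662080)) (l 16647848)) (c (a (l 16664128) (l 16663640)) (b (l 16659632) (l 16650024))))) (a (c (b (b (l 16654792)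 (l 16655752)) (c (l 16647696) (l 16645768))) (b (l 16645968) (c (l 16643832) (l 16641888)))) (c (b (l 16643808) (c (l 16646696) (l 16644760))) (b (l 16639728) (l 16647088)))))) (c (b (a (c (l 16648640) (l 16644344)) (c (l 16647696) (l 16643400))) (a (c (b (l 16661384) (a (l 16663152) (l 16662664))) (b (l 16646872) (l 16648600))) (a (c (l 16650928) (l 16646984)) (c (l 16660928) (l 16646488))))) (b (a (c (c (l 16641104) (l 16628448)) (l 16635656)) (c (l 16639064) (l 16634688))) (a (c (b (l 16642816) (b (l 16654736) (l 16655696))) (b (l 16638728) (l 16646072))) (c (b (l 16641832) (l 16643728)) (b (l 16627248) (l 16639808))))))), by decide +kernel⟩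

def k85_B00pm_101_s1 : ∃ t, chk3 f_B00pm_101_s1 t 298 254 2 = true :=
  ⟨(b (c (a (a (c (l 16681400) (l 16677968)) (c (l 16680936) (l 16677496))) (b (c (l 16679800) (l 16676264)) (c (l 16680712) (l 16677352)))) (a (b (c (a (l 16673880) (l 16673400)) (a (l 16670304) (l 16669816))) (c (a (l 16675152) (l 16674672)) (a (l 16671760) (l 16671264)))) (b (c (a (l 16672920) (l 16672440)) (a (l 16669336) (l 16668848))) (c (a (l 16674184) (l 16673696)) (a (l 16670776) (l 16670280)))))) (b (c (a (c (l 16682600) (a (l 16679648) (l 16679168))) (c (l 16681648) (a (l 16678680) (l 16678200)))) (c (a (a (l 16676456) (l 16675968)) (a (l 16675472) (l 16674984))) (a (a (l 16673248) (l 16672744)) (a (l 16672248) (l 16671744))))) (c (a (c (a (l 16683792) (l 16683312)) (a (l 16680800) (l 16680312))) (c (a (l 16682832) (l 16682352)) (a (l 16679824) (l 16679328)))) (c (a (a (l 16677784) (l 16677288)) (a (l 16676792) (l 16676296))) (a (a (c (l 16675520) (l 16674000)) (c (l 16675016) (l 16673496))) (a (c (l 16674512) (l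 16672984)) (c (l 16674008) (l 16672472)))))))), by decide +kernel⟩

def k86_B00pm_101_s1 : ∃ t, chk3 f_B00pm_101_s1 t 299 254 2 = true :=
  ⟨(b (c (a (b (c (l 16678880) (l 16675320)) (c (l 16679776) (l 16676392))) (b (c (l 16677952) (l 16674376)) (c (l 16678840) (l 16675440)))) (a (b (c (l 16671744) (a (l 16668360) (l 16667872))) (c (a (l 16673216) (l 16672728)) (a (l 16669792) (l 16669296)))) (b (c (l 16670784) (a (l 16667384) (l 16666896))) (c (a (l 16672240) (l 16671760)) (a (l 16668800) (l 16668304)))))) (b (c (c (a (l 16680704) (l 16679752)) (a (a (l 16677720) (l 16677232)) (a (l 16676752) (l 16676264)))) (c (a (a (l 16674488) (l 16674000)) (a (l 16673504) (l 16673016))) (a (a (l 16671248) (l 16670744)) (a (l 16670240) (l 16669744))))) (c (c (a (l 16681648) (l 16680688)) (a (a (l 16678840) (l 16678352)) (a (l 16677864) (l 16677376)))) (c (a (a (l 16675792) (l 16675296)) (a (l 16674800) (l 16674296))) (a (a (c (l 16673496) (l 16671960)) (l 16672224)) (a (l 16671720) (l 16671208))))))), by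 decide +kernel⟩

def k87_B00pm_101_s1 : ∃ t, chk3 f_B00pm_101_s1 t 298 508 3 = true :=
  ⟨(c (a (a (b (c (l 16666704) (l 16663080)) (c (l 16668344) (a (l 16665024) (l 16664776)))) (b (c (l 16666216) (l 16662576)) (c (l 16667848) (a (l 16664520) (l 16664264))))) (a (b (c (l 16665720) (l 16662080)) (c (l 16667344) (a (l 16664008) (l 16663752)))) (b (c (l 16665224) (l 16661576)) (c (l 16666840) (l 16663376))))) (a (a (b (c (l 16659424) (l 16650504)) (c (b (l 16660936) (l 16661952)) (b (l 16657400) (l 16658512)))) (c (b (l 16658920) (a (l 16661048) (l 16660792))) (c (l 16651992) (l 16650184)))) (c (b (c (l 16648608) (l 16646768)) (a (a (l 16660536) (l 16660272)) (a (l 16660016) (l 16659760)))) (b (c (l 16644920) (l 16643064)) (a (l 16651664) (l 16651136)))))), by decide +kernel⟩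

def k88_B00pm_101_s1 : ∃ t, chk3 f_B00pm_101_s1 t 298 509 3 = true :=
  ⟨(c (a (a (c (b (c (l 16670824) (l 16669208)) (c (l 16672480) (l 16670952))) (b (c (l 16667576) (l 16665952)) (c (l 16669424) (b (l 16667400) (l 16668384))))) (c (b (c (l 16670320) (l 16668696)) (c (l 16671968) (l 16670440))) (b (c (l 16667064) (l 16665432)) (c (l 16668904) (b (l 16666872) (l 16667848)))))) (a (c (b (c (l 16669816) (l 16668184)) (c (l 16671456) (l 16669920))) (c (b (l 16666552) (l 16668376)) (b (l 16664912) (l 16666840)))) (c (b (c (l 16669304) (l 16667672)) (c (l 16670936) (l 16669400))) (c (b (l 16666032) (l 16667856)) (b (l 16664392) (l 16666312)))))) (b (a (a (c (c (l 16664312) (l 16662672)) (c (l 16661032) (l 16659376))) (c (b (l 16662456) (l 16663480)) (c (l 16660496) (l 16658840)))) (a (c (b (l 16661928) (l 16662952)) (c (l 16659960) (l 22))) (c (b (l 16661408) (l 16662424)) (b (l 16658040) (l 16659160))))) (a (c (c (b (a (l 16665840) (l 16665312)) (a (l 16666864) (l 16666336))) (b (a (l 16664272)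 (l 16663736)) (a (l 16665352) (l 16664808)))) (c (b (a (l 16662704) (l 16662160)) (a (l 16663832) (l 16663288))) (b (a (l 16661128) (l 16660584)) (a (l 16662304) (l 16661752))))) (c (c (b (a (l 16664776) (l 16664248)) (a (l 16665800) (l 16665264))) (b (a (l 16663200) (l 16662664)) (a (l 16664272) (l 16663736)))) (c (b (a (l 16661624) (l 16661080)) (a (l 16662744) (l 16662200))) (l 22)))))), by decide +kernel⟩

def k89_B00pm_101_s1 : ∃ t, chk3 f_B00pm_101_s1 t 299 254 3 = true :=
  ⟨(b (c (a (a (b (c (l 16664728) (l 16661072)) (c (l 16666336) (l 16662872))) (b (c (l 16664240) (l 16660576)) (c (l 16665840) (l 16662360)))) (a (b (c (l 16663744) (l 16660072)) (c (l 16665336) (l 16661848))) (b (c (l 16663248) (l 16659568)) (c (l 16664832) (l 16661336))))) (a (c (a (b (l 16657392) (a (l 16659496) (l 16659240))) (b (l 16656880) (l 16658856))) (b (c (l 16643888) (l 16642024)) (a (l 16650608) (l 16650088)))) (c (a (b (l 16656368) (l 16658336)) (b (l 16655864) (l 16657816))) (b (l 16647168) (c (l 16650200)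 (l 22)))))) (c (a (a (c (b (c (l 16668800) (l 16667160)) (c (l 16670424) (l 16668880))) (c (b (l 16665520) (l 16667336)) (b (l 16663872) (l 16665776)))) (c (b (l 16667472) (c (l 16669912) (l 16668360))) (c (b (l 16665000) (l 16666808)) (b (l 16663352) (l 16665248))))) (b (c (a (l 16666960) (l 16666448)) (b (a (l 16663200) (l 16662688)) (a (l 16664112) (l 16663592)))) (c (a (c (l 16669392) (l 16667840)) (c (l 16668880) (l 16667320))) (b (a (l 16665040) (l 16664512)) (a (l 16665968) (l 16665440)))))) (b (a (a (c (b (l 16660880) (l 16661896)) (b (l 16657504) (l 16658624))) (c (b (l 16660360) (l 16661368)) (b (l 16656976) (l 16658088)))) (a (c (b (l 16659832) (l 16660840)) (l 16651752)) (c (b (l 16659304) (l 16660312)) (l 16651216)))) (c (a (a (b (l 16662928) (c (l 16664728) (l 16663192))) (c (l 16663688) (l 16662128))) (a (c (l 16663160) (l 16661592)) (c (l 16662624) (l 16661048)))) (c (a (b (a (l 16660544) (l 16660000)) (a (l 16661656) (l 16661112))) (a (l 16660016) (l 16659472))) (l 22)))))), by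 decide +kernel⟩

def k90_B00pm_101_s1 : ∃ t, chk3 f_B00pm_101_s1 t 149 510 2 = true :=
  ⟨(a (c (a (c (b (a (l 16684792) (l 16684304)) (a (l 16685808) (l 16685320))) (b (a (l 16681976) (l 16681480)) (a (l 16683176) (l 16682680)))) (c (b (a (l 16683816) (l 16683336)) (a (l 16684832) (l 16684336))) (b (a (l 16680984) (l 16680488)) (a (l 16682176) (l 16681672))))) (b (b (a (c (a (l 16678800) (l 16678304)) (a (l 16675920) (l 16675408))) (c (a (l 16677800) (l 16677296)) (a (l 16674888) (l 16674376)))) (a (c (a (l 16679488) (l 16678984)) (a (l 16676696) (l 16676184))) (c (a (l 16678480) (l 16677968)) (a (l 16675664) (l 16675152))))) (a (c (a (c (l 16681200) (l 16679872)) (c (l 16680688) (l 16679360))) (a (c (l 16678544) (b (l 16676808) (l 16677632))) (c (l 16678032) (b (l 16676288) (l 16677104))))) (c (a (c (l 16680176) (l 16678848)) (c (l 16679672) (l 16678336))) (a (c (l 16677512) (b (l 16675768) (l 16676576))) (c (l 16676992) (b (l 16675240) (l 16676056)))))))) (c (a (c (b (a (l 16682848) (l 16682360))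 (a (l 16683848) (l 16683352))) (b (a (l 16679992) (l 16679496)) (a (l 16681176) (l 16680672)))) (c (b (a (l 16681872) (l 16681392)) (a (l 16682864) (l 16682368))) (b (a (l 16679000) (l 16678504)) (a (l 16680168) (l 16679664))))) (b (a (c (a (l 16677128) (l 16676624)) (a (c (l 16674968) (l 16673528)) (c (l 16674456) (l 16673008)))) (c (a (l 16676120) (l 16675608)) (a (c (l 16673944) (l 16672496)) (c (l 16673432) (l 16671976))))) (a (c (a (c (l 16679160) (l 16677816)) (c (l 16678656) (l 16677304))) (a (c (l 16676472) (b (l 16674720) (l 16675528))) (c (l 16675952) (l 16674600)))) (c (a (c (l 16678144) (l 16676792)) (c (l 16677632) (l 16676272))) (a (c (l 16675432) (l 16674072)) (c (l 16674912) (l 16673552)))))))), by decide +kernel⟩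

def k91_B00pm_101_s1 : ∃ t, chk3 f_B00pm_101_s1 t 298 510 6 = true :=
  ⟨(b (a (c (a (c (l 16674168) (b (l 16672288) (l 16673192))) (c (l 16673648) (b (l 16671768) (l 16672664)))) (a (c (b (l 16670832) (l 16671784)) (b (l 16669368) (l 16670368))) (c (b (l 16670304) (l 16671248)) (b (l 16668840) (l 16669832))))) (c (a (c (l 16673128) (b (l 16671240) (l 16672136))) (c (l 16672608) (b (l 16670712) (l 16671608)))) (b (a (c (l 16669776) (l 16668304)) (c (l 16669240) (l 16667768))) (a (c (l 16670712) (l 16669296)) (c (l 16670184) (l 16668752)))))) (c (a (a (c (b (l 16675456) (l 16676328)) (b (l 16674096) (l 16675016))) (c (b (l 16674928) (l 16675792)) (b (l 16673568) (l 16674480)))) (a (c (b (l 16674400) (l 16675264)) (b (l 16673032) (l 16673944))) (c (b (l 16673872) (l 16674728)) (b (l 16672504) (l 16673408))))) (a (a (c (b (l 16672736) (a (l 16673840) (l 16673568))) (b (a (l 16671504) (l 16671240)) (a (l 16672528) (l 16672256)))) (c (b (l 16672200) (a (l 16673296) (l 16673024))) (b (l 16670832) (a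 (l 16671976) (l 16671704))))) (a (c (b (l 16671664) (l 16672624)) (b (l 16670296) (a (l 16671432) (l 16671160)))) (c (b (l 16671128) (l 16672080)) (b (l 16669752) (a (l 16670888) (l 16670616)))))))), by decide +kernel⟩

def k92_B00pm_101_s1 : ∃ t, chk3 f_B00pm_101_s1 t 299 510 6 = true :=
  ⟨(b (a (c (a (c (l 16672080) (l 16670632)) (c (l 16671560) (l 16670104))) (b (a (c (l 16668712) (l 16667232)) (c (l 16668184) (l 16666696))) (a (c (l 16669648) (l 16668216)) (c (l 16669112) (l 16667680))))) (c (a (c (l 16671040) (l 16669576)) (c (l 16670512) (l 16669048))) (b (a (c (l 16667656) (l 16666168)) (c (l 16667128) (l 16665632))) (a (c (l 16668576) (l 16667136)) (c (l 16668048) (l 16666600)))))) (b (c (a (a (c (l 16673344) (l 16671968)) (c (l 16672816) (l 16671440))) (a (c (l 16672288) (l 16670904)) (c (l 16671760) (l 16670368)))) (a (a (c (l 16670592) (l 16669208)) (c (l 16670056) (l 16668664))) (a (c (l 16669512) (l 16668120)) (c (l 16668976) (l 16667576))))) (c (a (a (c (l 16674200) (l 16672872))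 (c (l 16673672) (l 16672336))) (a (c (l 16673136) (l 16671800)) (c (l 16672608) (l 16671264)))) (a (a (c (l 16671544) (a (l 16670344) (l 16670064))) (c (l 16671000) (a (l 16669792) (l 16669520)))) (a (c (l 16670456) (a (l 16669248) (l 16668976))) (c (l 16669920) (l 16668568))))))), by decide +kernel⟩

def k93_B00pm_101_s1 : ∃ t, chk3 f_B00pm_101_s1 t 298 510 7 = true :=
  ⟨(b (a (c (b (c (a (l 16667904) (l 16667368)) (a (l 16666440) (l 16665896))) (c (a (l 16668952) (l 16668408)) (a (a (l 16667664) (l 16667392)) (a (l 16667120) (l 16666848))))) (b (c (a (l 16664968) (l 16664416)) (a (l 16663488) (l 16662936))) (c (a (a (l 16666248) (l 16665976)) (a (l 16665696) (l 16665424))) (c (a (l 16665048) (l 16664488)) (l 22))))) (c (b (c (a (l 16666832) (l 16666288)) (a (l 16665352) (l 16664808))) (c (a (l 16667872) (l 16667328)) (a (l 16666440) (l 16665896)))) (c (b (a (l 16663872) (l 16663320)) (a (a (l 16665144) (l 16664864)) (l 16664456))) (l 22)))) (a (c (a (c (b (a (l 16670144) (l 16669872)) (a (l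 16671208) (l 16670936))) (b (a (l 16668776) (l 16668504)) (a (l 16669896) (l 16669616)))) (c (b (a (l 16669600) (l 16669320)) (a (l 16670664) (l 16670384))) (b (a (l 16668224) (l 16667952)) (a (l 16669344) (l 16669064))))) (a (c (b (a (l 16667408) (l 16667128)) (a (l 16668576) (l 16668296))) (b (a (l 16666040) (l 16665760)) (c (a (l 16667592) (l 16667304)) (l 22)))) (c (b (a (l 16666848) (l 16666576)) (a (l 16668016) (l 16667736))) (c (c (a (l 16666592) (l 16666312)) (l 22)) (l 22))))) (a (c (c (b (a (l 16669048) (l 16668776)) (a (l 16670112) (l 16669832))) (b (a (l 16667672) (l 16667400)) (a (l 16668784) (l 16668504)))) (c (b (a (l 16666296) (l 16666016)) (a (l 16667456) (l 16667176))) (l 22))) (c (c (b (a (l 16668504) (l 16668232)) (a (l 16669560) (l 16669280))) (b (a (l 16667120) (l 16666848)) (a (l 16668224) (l 16667952)))) (c (a (b (l 16665736) (l 16666896)) (b (l 16665456) (l 16666616))) (l 22)))))), by decide +kernel⟩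

def k94_B00pm_101_s1 : ∃ t, chk3 f_B00pm_101_s1 t 299 510 7 = true :=
  ⟨(b (a (c (b (c (a (l 16665752) (l 16665208)) (a (l 16664264) (l 16663720))) (c (a (l 16666784) (l 16666240)) (a (l 16665344) (l 16664800)))) (c (b (a (l 16662776) (l 16662224)) (a (l 16663904) (l 16663352))) (l 22))) (c (b (c (a (l 16664672) (l 16664136)) (a (l 16663176) (l 16662632))) (c (a (l 16665696) (l 16665152)) (a (l 16664248) (l 16663696)))) (c (b (a (l 16661680) (l 16661128)) (a (l 16662800) (l 16662248))) (l 22)))) (a (a (c (c (b (l 16667824) (a (l 16669008) (l 16668728))) (b (a (l 16666568) (l 16666296)) (a (l 16667672) (l 16667392)))) (c (a (b (l 16665184) (l 16666336)) (b (l 16664904) (l 16666056))) (l 22))) (c (c (b (l 16667272) (a (l 16668456) (l 16668176))) (b (a (l 16666016) (l 16665744)) (a (l 16667112) (l 16666840)))) (c (c (a (l 16665536) (l 16665264)) (l 22)) (l 22)))) (a (c (b (c (l 16666728) (a (l 16665464) (l 16665192))) (c (a (l 16667904) (l 16667624)) (a (l 16666560) (l 16666280)))) (c (c (a (l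 16664984) (l 16664704)) (l 22)) (l 22))) (c (b (c (l 16666176) (l 16664776)) (c (a (l 16667352) (l 16667072)) (a (l 16666000) (l 16665720)))) (a (c (b (l 16663512) (l 16664648)) (l 22)) (l 22)))))), by decide +kernel⟩

def k95_B00pm_101_s1 : ∃ t, chk3 f_B00pm_101_s1 t 149 1022 2 = true :=
  ⟨(a (c (a (c (a (l 16686856) (l 16686360)) (a (c (l 16685024) (l 16683792)) (c (l 16684520) (l 16683288)))) (c (a (l 16685864) (l 16685368)) (a (c (l 16684008) (l 16682776)) (c (l 16683504) (l 16682264))))) (a (c (a (c (l 16682568) (l 16681336)) (c (l 16682056) (l 16680816))) (a (c (b (l 16679712) (l 16680504)) (b (l 16678456) (l 16679296))) (c (b (l 16679192) (l 16679976)) (b (l 16677928) (l 16678760))))) (c (a (c (l 16681536) (l 16680296)) (c (l 16681024) (l 16679776))) (a (c (b (l 16678664) (l 16679448)) (b (l 16677400) (l 16678232))) (c (b (l 16678144) (l 16678920)) (b (l 16676872) (l 16677696))))))) (c (a (c (a (l 16684872) (l 16684376)) (a (c (l 16683000) (l 16681752)) (c (l 16682496) (l 16681248))))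 (c (a (l 16683872) (l 16683376)) (a (c (l 16681992) (l 16680736)) (c (l 16681488) (l 16680224))))) (a (c (a (c (l 16680504) (l 16679256)) (c (l 16679992) (l 16678736))) (a (c (b (l 16677616) (l 16678392)) (b (l 16676344) (l 16677168))) (c (b (l 16677096) (l 16677864)) (b (l 16675816) (l 16676632))))) (c (a (c (l 16679472) (l 16678216)) (c (l 16678960) (l 16677696))) (a (c (b (l 16676568) (l 16677336)) (b (l 16675280) (l 16676096))) (c (b (l 16676048) (l 16676808)) (b (l 16674752) (l 16675568)))))))), by decide +kernel⟩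

def k96_B00pm_101_s1 : ∃ t, chk3 f_B00pm_101_s1 t 298 1022 6 = true :=
  ⟨(c (a (a (c (b (l 16677200) (l 16678088)) (b (a (l 16676072) (l 16675800)) (a (l 16677008) (l 16676736)))) (c (b (l 16676664) (l 16677552)) (b (a (l 16675536) (l 16675264)) (a (l 16676464) (l 16676192))))) (a (c (b (l 16676136) (l 16677016)) (b (l 16674864) (a (l 16675920) (l 16675656)))) (c (b (l 16675600) (l 16676472)) (b (l 16674320) (a (l 16675384) (l 16675112)))))) (b (a (a (c (a (l 16674816) (l 16674544)) (a (l 16673552) (l 16673280))) (c (a (l 16674272) (l 16674000)) (a (l 16673000) (l 16672728)))) (a (c (a (l 16673728) (l 16673456)) (a (l 16672456) (l 16672176))) (c (a (l 16673176) (l 16672904)) (a (l 16671904) (l 16671624))))) (a (a (c (a (l 16675800) (l 16675528)) (a (l 16674592) (l 16674312))) (c (a (l 16675256) (l 16674976)) (a (l 16674040) (l 16673760)))) (a (c (a (l 16674704) (l 16674432)) (a (l 16673480) (l 16673208))) (c (a (l 16674152) (l 16673880)) (a (l 16672928) (l 16672648))))))), by decide +kernel⟩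

def k97_B00pm_101_s1 : ∃ t, chk3 f_B00pm_101_s1 t 596 1022 7 = true :=
  ⟨(c (a (c (b (a (l 16672288) (l 16672016)) (a (c (l 16673680) (l 16673072)) (c (l 16673400) (l 16672792)))) (b (a (c (l 16671344) (l 16670712)) (c (l 16671064) (l 16670432))) (a (c (l 16672472) (l 16671864)) (c (l 16672184) (l 16671576))))) (c (b (a (l 16671736) (l 16671456)) (a (c (l 16673120) (l 16672512)) (c (l 16672848) (l 16672232)))) (b (a (c (l 16670784) (l 16670144)) (c (l 16670504) (l 16669864))) (a (c (l 16671904) (l 16671296)) (c (l 16671624) (l 16671016)))))) (b (c (b (a (a (l 16669464) (l 16669184)) (a (l 16668896) (l 16668616))) (a (a (l 16670056) (l 16669776)) (a (l 16669488) (l 16669208)))) (b (a (a (l 16668184) (l 16667896)) (a (l 16667616) (l 16667328))) (a (a (l 16668800) (l 16668512)) (a (l 16668232) (l 16667944))))) (a (c (a (c (l 16671256) (b (l 16670344) (l 16670952))) (c (l 16670968) (l 16670360))) (c (a (b (l 16669728) (l 16670352)) (b (l 16669448) (l 16670064))) (l 22))) (c (a (c (l 16670688) (l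 16670080)) (c (l 16670400) (l 16669792))) (c (c (a (l 16669616) (l 16669336)) (l 22)) (l 22)))))), by decide +kernel⟩

def k98_B00pm_101_s1 : ∃ t, chk3 f_B00pm_101_s1 t 597 1022 7 = true :=
  ⟨(c (a (c (b (a (l 16671176) (l 16670904)) (a (c (l 16672568) (l 16671952)) (c (l 16672288) (l 16671672)))) (b (a (b (l 16669624) (l 16670184)) (l 16669624)) (a (c (l 16671344) (l 16670728)) (c (l 16671064) (l 16670448))))) (c (b (a (l 16670624) (l 16670344)) (a (c (l 16672008) (l 16671392)) (c (l 16671728) (l 16671112)))) (b (a (l 16669344) (l 16669064)) (a (c (l 16670776) (l 16670168)) (b (l 16669904) (l 16670472)))))) (c (b (b (a (a (l 16668336) (l 16668056)) (a (l 16667768) (l 16667488))) (a (a (l 16668920) (l 16668640)) (a (l 16668360) (l 16668072)))) (b (a (a (l 16669512) (l 16669232)) (a (l 16668944) (l 16668664))) (a (a (c (l 16670416) (l 16669808)) (c (l 16670128) (l 16669520))) (a (c (l 16669840) (l 16669232)) (c (l 16669560) (l 16668944)))))) (l 22))), by decide +kernel⟩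

def k99_B00pm_101_s1 : ∃ t, chk3 f_B00pm_101_s1 t 299 1022 6 = true :=
  ⟨(b (c (a (a (c (l 16675064) (l 16673784)) (c (l 16674528) (l 16673240))) (a (c (l 16673992) (l 16672704)) (c (l 16673456) (l 16672160)))) (a (a (c (a (l 16672632) (l 16672360)) (a (l 16671352) (l 16671080))) (c (a (l 16672088) (l 16671816)) (a (l 16670800) (l 16670528)))) (a (c (a (l 16671544) (l 16671272)) (a (l 16670248) (l 16669976))) (c (a (l 16671000) (l 16670728)) (a (l 16669704) (l 16669424)))))) (c (a (a (c (l 16675936) (a (l 16674840) (l 16674568))) (c (l 16675400) (a (l 16674296) (l 16674024)))) (a (c (l 16674856) (a (l 16673752) (l 16673480))) (c (l 16674320) (a (l 16673208) (l 16672936))))) (a (a (c (a (l 16673608) (l 16673328)) (a (l 16672376) (l 16672096))) (c (a (l 16673056) (l 16672784)) (a (l 16671816) (l 16671544)))) (a (c (a (l 16672504) (l 16672232)) (a (l 16671264) (l 16670984))) (c (a (l 16671960) (l 16671680)) (a (l 16670712) (l 16670432))))))), by decide +kernel⟩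

def k100_B00pm_101_s1 : ∃ t, chk3 f_B00pm_101_s1 t 299 1022 7 = true :=
  ⟨(a (c (a (c (b (a (l 16670072) (l 16669792)) (a (c (l 16671448) (l 16670832)) (c (l 16671168) (l 16670552)))) (b (a (l 16668784) (l 16668504)) (a (b (l 16669624) (l 16670192)) (b (l 16669344) (l 16669904))))) (c (b (a (l 16669512) (l 16669232)) (a (b (l 16670312) (l 16670848)) (b (l 16670032) (l 16670568)))) (b (a (l 16668224) (l 16667944)) (a (b (l 16669064) (l 16669624)) (b (l 16668776) (l 16669336)))))) (c (b (b (a (a (l 16667208) (l 16666920)) (a (l 16666640) (l 16666360))) (a (a (l 16667792) (l 16667504)) (a (l 16667224) (l 16666936)))) (b (a (a (l 16668376) (l 16668088)) (a (l 16667808) (l 16667520))) (a (a (c (l 16669272) (l 16668664)) (c (l 16668984) (l 22))) (a (l 16668392) (l 16668112))))) (l 22))) (c (a (c (b (a (l 16668960) (l 16668680)) (a (b (l 16669752) (l 16670288)) (b (l 16669472) (l 16670008)))) (b (a (l 16667664) (l 16667384)) (a (b (l 16668496) (l 16669056)) (b (l 16668216) (l 16668776))))) (c (b (a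 (l 16668400) (l 16668120)) (a (b (l 16669192) (l 16669728)) (b (l 16668912) (l 16669448)))) (b (a (l 16667104) (l 16666816)) (a (b (l 16667928) (l 16668488)) (b (l 16667648) (l 16668208)))))) (a (c (c (b (a (l 16666688) (l 16666408)) (a (l 16667840) (l 16667560))) (l 22)) (l 22)) (a (c (b (l 16665800) (b (l 16666664) (l 16667248))) (l 22)) (l 22))))), by decide +kernel⟩

def k101_B00pm_101_s1 : ∃ t, chk3 f_B00pm_101_s1 t 149 2046 2 = true :=
  ⟨(a (c (a (c (a (l 16687656) (l 16687160)) (a (l 16685344) (l 16684840))) (c (a (l 16686656) (l 16686152)) (a (l 16684328) (l 16683816)))) (a (c (a (c (l 16683616) (l 16682456)) (c (l 16683096) (l 16681936))) (a (c (l 16681304) (l 16680144)) (c (l 16680768) (l 16679608)))) (c (a (c (l 16682576) (l 16681408)) (c (l 16682056) (l 16680880))) (a (c (l 16680240) (l 16679072)) (c (l 16679704) (l 16678536)))))) (c (a (c (a (l 16685656) (l 16685152)) (a (l 16683304) (l 16682792))) (c (a (l 16684648) (l 16684152)) (a (l 16682272) (l 16681760)))) (a (c (a (c (l 16681536)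 (l 16680352)) (c (l 16681016) (l 16679832))) (a (c (l 16679176) (l 16678000)) (c (l 16678648) (l 16677456)))) (c (a (c (l 16680496) (l 16679304)) (c (l 16679968) (l 16678776))) (a (c (l 16678112) (l 16676920)) (c (l 16677584) (l 16676384))))))), by decide +kernel⟩

def k102_B00pm_101_s1 : ∃ t, chk3 f_B00pm_101_s1 t 149 2047 2 = true :=
  ⟨(a (b (c (a (c (a (l 16688064) (l 16687560)) (a (l 16685824) (l 16685312))) (c (a (l 16687056) (l 16686552)) (a (l 16684800) (l 16684280)))) (a (c (a (l 16683584) (l 16683056)) (a (c (l 16681904) (l 16680784)) (c (l 16681368) (l 16680240)))) (c (a (l 16682536) (l 16682008)) (a (c (l 16680840) (l 16679704)) (c (l 16680304) (l 16679168)))))) (a (c (c (a (l 16688336) (l 16687832)) (a (l 16686144) (l 16685632))) (c (a (l 16683952) (l 16683424)) (a (c (l 16682304) (l 16681208)) (c (l 16681776) (l 16680672))))) (c (c (a (l 16687328) (l 16686824)) (a (l 16685112) (l 16684600))) (c (a (c (l 16683456) (l 16682344)) (c (l 16682928) (l 16681816))) (a (c (l 16681240) (l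 16680128)) (c (l 16680704) (l 16679592))))))) (b (c (a (c (a (l 16686048) (l 16685544)) (a (l 16683768) (l 16683256))) (c (a (l 16685040) (l 16684536)) (a (l 16682736) (l 16682224)))) (a (c (a (l 16681480) (l 16680960)) (a (c (l 16679768) (l 16678624)) (c (l 16679232) (l 16678088)))) (c (a (l 16680432) (c (l 16680488) (l 16679328))) (a (c (l 16678704) (l 16677544)) (c (l 16678168) (l 16677008)))))) (a (c (c (a (l 16686320) (l 16685816)) (a (l 16684080) (l 16683568))) (c (a (c (l 16682400) (l 16681288)) (c (l 16681880) (l 16680752))) (a (c (l 16680168) (l 16679048)) (c (l 16679632) (l 16678504))))) (c (c (a (l 16685304) (l 16684800)) (a (l 16683048) (l 16682536))) (c (a (c (l 16681352) (l 16680224)) (c (l 16680832) (l 16679696))) (a (c (l 16679096) (l 16677968)) (c (l 16678560) (l 16677424)))))))), by decide +kernel⟩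

def k103_B00pm_101_s1 : ∃ t, chk3 f_B00pm_101_s1 t 298 2046 6 = true :=
  ⟨(c (a (a (c (a (l 16679112) (l 16678840)) (a (l 16677960) (l 16677680))) (c (a (l 16678576) (l 16678304)) (a (l 16677408) (l 16677136)))) (a (c (a (l 16678032) (l 16677760)) (a (l 16676864) (l 16676592))) (c (a (l 16677488) (l 16677216)) (a (l 16676312) (l 16676040))))) (a (a (c (a (l 16676800) (l 16676520)) (a (c (l 16675928) (l 16675344)) (c (l 16675648) (l 16675072)))) (c (a (l 16676248) (l 16675968)) (a (c (l 16675368) (l 16674792)) (c (l 16675096) (l 16674512))))) (a (c (a (l 16675696) (l 16675416)) (a (c (l 16674816) (l 16674232)) (c (l 16674536) (l 16673952)))) (c (a (l 16675136) (l 16674864)) (a (c (l 16674256) (l 16673672)) (c (l 16673976) (l 16673392))))))), by decide +kernel⟩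

def k104_B00pm_101_s1 : ∃ t, chk3 f_B00pm_101_s1 t 298 2046 7 = true :=
  ⟨(a (c (a (c (a (c (l 16674768) (l 16674184)) (c (l 16674488) (l 16673904))) (a (c (l 16673608) (b (l 16672736) (l 16673320))) (c (l 16673320) (b (l 16672448) (l 16673032))))) (c (a (c (l 16674208) (l 16673624)) (c (l 16673928) (l 16673344))) (a (c (l 16673040) (b (l 16672168) (l 16672744))) (c (l 16672752) (b (l 16671880) (l 16672464)))))) (a (c (a (c (b (l 16672144) (l 16672744)) (b (l 16671560) (l 16672168))) (c (b (l 16671864) (l 16672456)) (b (l 16671272) (l 16671880)))) (c (a (b (l 16670968) (l 16671592)) (b (l 16670680) (l 16671304))) (l 22))) (c (a (c (b (l 16671576) (l 16672168)) (b (l 16670984) (l 16671592))) (c (b (l 16671288) (l 16671880)) (b (l 16670696) (l 16671304)))) (c (a (b (l 16670392) (l 16671016)) (b (l 16670104) (l 16670728))) (l 22))))) (c (a (c (a (c (l 16673640) (l 16673056)) (c (l 16673360) (l 16672776))) (a (c (l 16672472) (b (l 16671592) (l 16672176))) (c (l 16672184) (b (l 16671312) (l 16671888)))))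 (c (a (c (l 16673080) (l 16672496)) (c (l 16672800) (l 16672208))) (a (c (l 16671904) (b (l 16671024) (l 16671608))) (c (l 16671624) (b (l 16670744) (l 16671320)))))) (c (b (a (a (c (l 16671000) (l 16670408)) (c (l 16670720) (l 16670120))) (a (c (l 16670432) (l 16669832)) (c (l 16670144) (l 16669544)))) (a (a (c (l 16671592) (l 16671016)) (c (l 16671312) (l 16670728))) (a (c (l 16671024) (l 16670440)) (c (l 16670736) (l 16670152))))) (l 22)))), by decide +kernel⟩

def k105_B00pm_101_s1 : ∃ t, chk3 f_B00pm_101_s1 t 299 2046 6 = true :=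
  ⟨(c (a (a (c (a (l 16676944) (l 16676680)) (a (l 16675768) (l 16675496))) (c (a (l 16676408) (l 16676136)) (a (l 16675216) (l 16674944)))) (a (c (a (l 16675864) (l 16675592)) (a (l 16674672) (l 16674400))) (c (a (l 16675320) (l 16675048)) (a (l 16674120) (l 16673848))))) (a (a (c (a (l 16674584) (l 16674312)) (a (c (l 16673704) (l 16673112)) (c (l 16673424) (l 16672832)))) (c (a (l 16674032) (l 16673760)) (a (c (l 16673144) (l 16672552)) (c (l 16672864) (l 16672272))))) (a (c (a (l 16673480) (l 16673200)) (a (c (l 16672584) (l 16671992)) (c (l 16672304) (l 16671712)))) (c (a (l 16672928) (l 16672648)) (a (c (l 16672032) (l 16671432)) (b (l 16671192) (l 16671704))))))), by decide +kernel⟩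

def k106_B00pm_101_s1 : ∃ t, chk3 f_B00pm_101_s1 t 299 2046 7 = true :=
  ⟨(a (c (a (c (a (c (l 16672520) (l 16671928)) (c (l 16672240) (l 16671648))) (a (c (l 16671336) (b (l 16670456) (l 16671032))) (c (l 16671056) (b (l 16670168) (l 16670744))))) (c (a (c (l 16671960) (l 16671360)) (c (l 16671672) (l 16671080))) (a (c (l 16670768) (b (l 16669888) (l 16670464))) (b (l 16669904) (c (l 16670760) (l 16670176)))))) (c (c (b (a (a (l 16669856) (l 16669576)) (a (l 16669288) (l 16669000))) (a (a (l 16670448) (l 16670160)) (a (l 16669872) (l 16669584)))) (a (a (a (l 16669632) (l 16669488)) (l 22)) (l 22))) (l 22))) (c (b (c (a (a (l 16670824) (l 16670544)) (a (l 16670264) (l 16669984))) (a (a (l 16669616) (l 16669336)) (a (l 16669048) (l 16668768)))) (a (c (a (l 16671368) (l 16671080)) (a (c (l 16670480) (l 16669888)) (c (l 16670192) (l 16669600)))) (c (a (l 16670800) (l 16670520)) (a (c (l 16669912) (l 16669320)) (c (l 16669624) (l 16669032)))))) (c (c (a (c (a (l 16669152) (l 16668872)) (l 22)) (a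 (b (l 16668144) (l 16668720)) (l 22))) (l 22)) (l 22)))), by decide +kernel⟩

def k107_B00pm_101_s1 : ∃ t, chk3 f_B00pm_101_s1 t 298 4094 3 = true :=
  ⟨(c (c (a (a (c (l 16679664) (a (l 16678672) (l 16678400))) (c (l 16679112) (a (l 16678120) (l 16677848)))) (a (c (l 16678568) (a (l 16677576) (l 16677296))) (c (l 16678024) (a (l 16677024) (l 16676744))))) (a (a (c (a (l 16677552) (l 16677272)) (a (l 16676432) (l 16676152))) (c (a (l 16676992) (l 16676720)) (a (l 16675872) (l 16675592)))) (a (c (a (l 16676440) (l 16676160)) (a (l 16675304) (l 16675024))) (c (a (l 16675888) (l 16675608)) (a (l 16674744) (l 16674464)))))) (a (c (a (c (a (c (l 16675592) (l 16675024)) (c (l 16675304) (l 16674744))) (a (c (l 16674464) (l 16673904)) (c (l 16674184) (l 16673616)))) (c (a (c (l 16675024) (l 16674456)) (c (l 16674744) (l 16674176))) (a (c (l 16673896) (l 16673336)) (c (l 16673608) (l 16673048))))) (c (a (a (c (l 16673344) (a (l 16672856) (l 16672712))) (c (l 16673056) (a (l 16672568) (l 16672424)))) (a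 (c (l 16672768) (a (l 16672272) (l 16672128))) (c (l 16672480) (a (l 16671984) (l 16671840))))) (c (c (a (a (l 16672360) (l 16672072)) (a (l 16671784) (l 16671488))) (a (a (l 16672080) (l 16671792)) (l 22))) (l 22)))) (c (c (a (a (c (l 16674456) (l 16673888)) (c (l 16674176) (l 16673608))) (a (c (l 16673896) (l 16673320)) (c (l 16673608) (l 16673040)))) (a (a (c (l 16673328) (l 16672760)) (c (l 16673040) (l 16672472))) (a (c (l 16672752) (l 16672184)) (c (l 16672472) (l 16671896))))) (c (a (a (c (l 16672192) (a (l 16671696) (l 16671552))) (c (l 16671904) (a (l 16671408) (l 16671264)))) (a (c (l 16671616) (a (l 16671120) (l 16670976))) (c (l 16671328) (a (l 16670824) (l 16670680))))) (l 22))))), by decide +kernel⟩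

def k108_B00pm_101_s1 : ∃ t, chk3 f_B00pm_101_s1 t 298 4095 6 = true :=
  ⟨(b (a (c (a (c (l 16680000) (l 16678896)) (c (l 16679456) (l 16678344))) (a (c (a (l 16677928) (l 16677648)) (a (l 16676824) (l 16676544))) (c (a (l 16677376) (l 16677096)) (a (l 16676264) (l 16675984))))) (c (a (c (l 16678912) (l 16677792)) (c (l 16678360) (a (l 16677376) (l 16677104)))) (a (c (a (l 16676816) (l 16676536)) (a (l 16675704) (l 16675424))) (c (a (l 16676256) (l 16675984)) (a (l 16675144) (l 16674856)))))) (a (c (a (c (l 16680232) (l 16679136)) (c (l 16679680) (b (l 16678528) (l 16678648)))) (a (a (c (l 16678184) (l 16677096)) (c (l 16677904) (l 16676816))) (a (c (l 16677624) (l 16676528)) (c (l 16677344) (l 16676248))))) (c (a (c (l 16679136) (b (l 16677976) (l 16678096))) (c (l 16678584) (b (l 16677424) (l 16677544)))) (a (a (c (l 16677064) (l 16675968)) (c (l 16676792) (l 16675688))) (a (c (l 16676512) (l 16675400)) (c (l 16676232) (l 16675120))))))), by decide +kernel⟩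

def k109_B00pm_101_s1 : ∃ t, chk3 f_B00pm_101_s1 t 298 8190 7 = true :=
  ⟨(a (c (a (c (a (l 16675728) (l 16675440)) (a (c (l 16674896) (l 16674344)) (c (l 16674616) (l 16674064)))) (c (a (l 16675160) (l 16674872)) (a (c (l 16674328) (l 16673776)) (c (l 16674040) (l 16673488))))) (a (c (a (c (l 16673800) (l 16673248)) (c (l 16673504) (l 16672952))) (c (a (a (l 16672768) (l 16672624)) (a (l 16672472) (l 16672328))) (l 22))) (c (a (c (l 16673216) (l 16672664)) (c (l 16672928) (l 16672376))) (c (c (a (l 16672248) (l 16671960)) (l 22)) (l 22))))) (c (a (c (a (l 16674592) (l 16674304)) (a (c (l 16673752) (l 16673200)) (c (l 16673472) (l 16672912)))) (c (a (l 16674024) (l 16673736)) (a (c (l 16673184) (l 16672624)) (c (l 16672896) (l 16672336))))) (c (a (a (c (l 16672640) (l 16672088)) (c (l 16672352) (l 16671792))) (a (c (l 16672064) (l 16671504)) (c (l 16671776) (a (l 16671288) (l 16671136))))) (l 22)))), by decide +kernel⟩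

def k110_B00pm_101_s1 : ∃ t, chk3 f_B00pm_101_s1 t 596 8191 7 = true :=
  ⟨(c (b (a (c (a (l 16675936) (l 16675648)) (a (c (l 16675112) (l 16674568)) (c (l 16674832) (l 16674280)))) (c (a (l 16675368) (l 16675080)) (a (c (l 16674544) (l 16673992)) (c (l 16674256) (l 16673704))))) (a (c (a (l 16676072) (l 16675792)) (c (a (l 16675264) (l 16674976)) (a (l 16674720) (l 16674432)))) (c (a (l 16675504) (l 16675224)) (c (a (l 16674688) (l 16674400)) (a (l 16674144) (l 16673856)))))) (b (a (c (a (c (l 16674024) (l 16673480)) (c (l 16673736) (l 16673184))) (c (a (l 16672928) (l 16672640)) (l 22))) (c (a (c (l 16673448) (l 16672896)) (c (l 16673152) (l 16672608))) (c (c (a (l 16672480) (l 16672192)) (l 22)) (l 22)))) (b (a (c (a (c (l 16674136) (l 16673592)) (c (l 16673848) (l 16673304))) (c (a (l 16673048) (l 16672760)) (l 22))) (c (a (c (l 16673560) (l 16673008)) (c (l 16673272) (l 16672720))) (c (a (l 16672464) (a (l 16672248) (l 16672096))) (l 22)))) (a (c (a (c (l 16674216) (l 16673672)) (c (l 16673920)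 (l 16673376))) (c (a (l 16673128) (l 16672832)) (l 22))) (c (a (c (l 16673632) (l 16673088)) (c (l 16673344) (l 16672800))) (c (c (a (l 16672680) (l 16672384)) (l 22)) (l 22))))))), by decide +kernel⟩

def k111_B00pm_101_s1 : ∃ t, chk3 f_B00pm_101_s1 t 597 8191 7 = true :=
  ⟨(c (b (a (c (a (l 16674800) (l 16674512)) (a (c (l 16673968) (l 16673416)) (c (l 16673680) (l 16673128)))) (c (a (l 16674232) (l 16673944)) (a (c (l 16673400) (l 16672840)) (c (l 16673112) (l 16672552))))) (a (c (a (l 16674936) (l 16674648)) (c (a (l 16674112) (l 16673824)) (a (l 16673568) (l 16673280)))) (c (a (l 16674368) (l 16674080)) (c (a (l 16673536) (l 16673256)) (a (l 16672992) (l 16672696)))))) (c (c (a (a (l 16672944) (l 16672648)) (a (l 16672360) (l 16672072))) (a (b (a (l 16672312) (l 16672024)) (a (l 16672464) (l 16672176))) (a (a (l 16671880) (l 16671736)) (a (l 16671592) (l 16671448))))) (l 22))), by decide +kernel⟩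

def k112_B00pm_101_s1 : ∃ t, chk3 f_B00pm_101_s1 t 299 4094 3 = true :=
  ⟨(c (c (a (a (c (l 16677480) (a (l 16676472) (l 16676200))) (c (l 16676936) (a (l 16675920) (l 16675648)))) (a (c (l 16676392) (a (l 16675368) (l 16675096))) (c (l 16675848) (a (l 16674816) (l 16674544))))) (a (a (c (a (l 16675328) (l 16675048)) (a (l 16674184) (l 16673904))) (c (a (l 16674776) (l 16674496)) (a (l 16673624) (l 16673344)))) (a (c (a (l 16674216) (l 16673936)) (a (l 16673064) (l 16672784))) (c (a (l 16673656) (l 16673384)) (a (l 16672496) (l 16672216)))))) (a (c (a (c (a (c (l 16673328) (l 16672752)) (c (l 16673048) (l 16672472))) (a (c (l 16672184) (l 16671608)) (c (l 16671896) (l 16671328)))) (c (a (c (l 16672760) (l 16672184)) (c (l 16672480) (l 16671904))) (a (c (l 16671616) (l 16671040)) (c (l 16671328) (l 16670752))))) (c (c (a (a (l 16671040) (a (l 16670824) (l 16670680))) (a (a (l 16670536) (l 16670392)) (a (l 16670248) (l 16670104)))) (a (a (a (l 16670536) (l 16670392)) (l 22)) (l 22))) (l 22)))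 (c (a (c (a (c (l 16672192) (l 16671616)) (c (l 16671912) (l 16671336))) (a (c (l 16671040) (l 16670464)) (c (l 16670752) (l 16670176)))) (c (a (c (l 16671632) (l 16671048)) (c (l 16671344) (l 16670768))) (a (c (l 16670472) (l 16669888)) (c (l 16670184) (l 16669600))))) (c (c (c (a (a (l 16670032) (l 16669744)) (a (l 16669456) (l 22))) (l 22)) (l 22)) (l 22))))), by decide +kernel⟩

def k113_B00pm_101_s1 : ∃ t, chk3 f_B00pm_101_s1 t 299 4095 6 = true :=
  ⟨(b (a (c (a (c (l 16677816) (a (l 16676824) (l 16676552))) (c (l 16677272) (a (l 16676272) (l 16676000)))) (a (c (a (l 16675704) (l 16675424)) (a (l 16674576) (l 16674296))) (c (a (l 16675144) (l 16674864)) (a (l 16674016) (l 16673736))))) (c (a (c (l 16676720) (a (l 16675720) (l 16675448))) (c (l 16676176) (a (l 16675168) (l 16674896)))) (a (c (a (l 16674584) (l 16674304)) (a (l 16673448) (l 16673168))) (c (a (l 16674032) (l 16673752)) (a (l 16672888) (l 16672608)))))) (a (c (a (c (l 16678040) (a (l 16677064) (l 16676784))) (c (l 16677496)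 (a (l 16676512) (l 16676232)))) (a (a (c (l 16675952) (l 16674840)) (c (l 16675672) (l 16674560))) (a (c (l 16675392) (l 16674272)) (c (l 16675112) (l 16673992))))) (c (a (c (l 16676944) (a (l 16675960) (l 16675680))) (c (l 16676400) (a (l 16675400) (l 16675128)))) (a (a (c (l 16674832) (l 16673712)) (c (l 16674552) (l 16673432))) (a (c (l 16674272) (l 16673144)) (c (l 16673992) (l 16672864))))))), by decide +kernel⟩

def k114_B00pm_101_s1 : ∃ t, chk3 f_B00pm_101_s1 t 299 8190 7 = true :=
  ⟨(a (c (a (c (a (l 16673456) (l 16673168)) (a (c (l 16672608) (l 16672048)) (c (l 16672320) (l 16671760)))) (c (a (c (l 16673168) (l 16672600)) (c (l 16672880) (l 16672320))) (a (c (l 16672040) (l 16671472)) (c (l 16671752) (l 16671184))))) (c (c (a (a (l 16671488) (l 16671192)) (a (l 16670904) (l 16670616))) (a (a (a (l 16670992) (l 16670848)) (l 22)) (l 22))) (l 22))) (c (a (c (a (c (l 16672600) (l 16672032)) (c (l 16672312) (l 16671744))) (a (c (l 16671464) (l 16670896)) (c (l 16671176) (l 16670608)))) (c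 (a (c (l 16672032) (l 16671464)) (c (l 16671744) (l 16671176))) (a (c (l 16670888) (l 16670320)) (c (l 16670600) (l 16670032))))) (c (c (a (a (l 16670328) (l 16670040)) (a (l 16669752) (l 22))) (l 22)) (l 22)))), by decide +kernel⟩

def k115_B00pm_101_s1 : ∃ t, chk3 f_B00pm_101_s1 t 299 8191 7 = true :=
  ⟨(a (c (b (a (c (a (l 16673656) (l 16673376)) (a (c (l 16672824) (l 16672264)) (c (l 16672536) (l 16671976)))) (c (a (l 16673088) (l 16672808)) (a (c (l 16672248) (l 16671688)) (c (l 16671960) (l 16671400))))) (a (c (a (l 16673800) (l 16673512)) (c (a (l 16672968) (l 16672680)) (a (l 16672408) (l 16672120)))) (c (a (l 16673224) (b (l 16672904) (l 16672976))) (c (a (l 16672392) (l 16672104)) (a (l 16671832) (l 16671544)))))) (c (c (a (b (a (l 16671704) (l 16671416)) (a (l 16671856) (l 16671568))) (b (a (l 16671128) (l 16670840)) (a (l 16671280) (l 16670984)))) (a (a (a (l 16671296) (l 16671152)) (l 22)) (l 22))) (l 22))) (c (b (a (c (a (l 16672520) (l 16672232)) (a (c (l 16671672) (l 16671112))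 (c (l 16671392) (l 16670824)))) (c (a (c (l 16672232) (l 16671664)) (c (l 16671952) (l 16671384))) (a (c (l 16671104) (l 16670536)) (c (l 16670816) (l 16670248))))) (b (a (c (a (l 16672624) (l 16672336)) (a (c (l 16671784) (l 16671224)) (c (l 16671496) (l 16670936)))) (c (a (l 16672056) (c (l 16672048) (l 16671488))) (a (c (l 16671208) (l 16670640)) (c (l 16670920) (l 16670352))))) (a (c (a (l 16672688) (l 16672408)) (a (c (l 16671856) (l 16671296)) (c (l 16671568) (l 16671008)))) (c (a (c (l 16672400) (l 16671840)) (c (l 16672120) (l 16671552))) (a (c (l 16671280) (l 16670720)) (c (l 16670992) (l 16670424))))))) (c (c (c (a (a (l 16670760) (l 16670472)) (a (l 16670184) (l 22))) (l 22)) (l 22)) (l 22)))), by decide +kernel⟩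

def k116_B00pm_101_s1 : ∃ t, chk3 f_B00pm_101_s1 t 75 62 1 = true :=
  ⟨(b (l 6) (a (b (l 6) (c (a (c (b (l 16644416) (l 16651120)) (b (l 16643944) (c (l 16638144) (l 16643408)))) (a (c (l 16643840) (l 16643656)) (c (l 16643024) (l 16642824)))) (a (c (b (c (l 16625080) (l 16619416)) (c (l 16638128) (l 16632792))) (b (a (l 16632096) (l 16631264)) (a (l 16635512) (l 16634648)))) (c (b (l 16631088) (c (l 16625936) (l 16620584))) (b (l 16630112) (a (l 16633784) (l 16632912))))))) (b (l 6) (b (l 6) (c (a (c (l 16642552) (l 16642640)) (c (l 16640888) (l 16640944))) (a (c (c (l 16624216) (l 16597888)) (l 16634312)) (c (l 16630304) (l 16623064)))))))), by decide +kernel⟩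

def k117_B00pm_101_s1 : ∃ t, chk3 f_B00pm_101_s1 t 150 126 2 = true :=
  ⟨(b (a (c (b (b (l 16647008) (l 16653040)) (a (l 16649368) (l 16648496))) (b (a (l 16638048) (l 16637184)) (a (b (l 16660704) (l 16661864)) (b (l 16659816) (l 16660960))))) (c (b (b (l 16645320) (l 16646080)) (a (l 16647624) (l 16667720))) (b (a (l 16636312) (l 16656416)) (a (l 16643768) (l 16648112))))) (a (c (b (a (b (l 16671608) (l 16672480)) (b (l 16670720) (l 16671576))) (a (b (l 16670752) (c (l 16676168) (l 16672408))) (c (l 16674832) (l 16670984)))) (b (a (c (l 16665760) (a (l 16661736) (l 16661272))) (c (l 16664840) (a (l 16660808) (l 16660344)))) (a (b (c (l 16667464) (l 16663480)) (c (l 16668632) (l 16664816))) (b (c (l 16666528) (l 16662528)) (c (l 16667680) (l 16663856)))))) (c (b (a (b (l 16669824) (l 16670672)) (b (l 16668936) (l 16669768))) (a (c (l 16673920) (l 16670056)) (c (l 16673008) (l 16669128)))) (b (a (c (l 16663928) (l 16659664)) (c (l 16663008) (l 16658736))) (a (b (c (l 16665592) (l 16661576))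 (c (l 16666736) (l 16662888))) (b (c (l 16664656) (l 16660624)) (c (l 16665784) (l 16661928)))))))), by decide +kernel⟩

def k118_B00pm_101_s1 : ∃ t, chk3 f_B00pm_101_s1 t 150 126 3 = true :=
  ⟨(b (a (c (b (a (l 16638640) (l 16637752)) (a (a (l 16641776) (l 16641320)) (a (l 16640864) (l 16640408)))) (b (a (l 16639032) (l 16638128)) (a (b (l 16620760) (l 16633088)) (b (l 16619840) (l 16632144))))) (c (b (a (l 16636872) (l 16625496)) (a (b (l 16649496) (l 16650952)) (l 16638824))) (b (a (l 16637232) (l 16636328)) (a (l 16640784) (l 16639848))))) (a (c (b (a (c (l 16646760) (l 16642448)) (c (l 16645824) (l 16641496))) (a (c (b (l 16659464) (l 16660976)) (a (l 16646000) (l 16645512))) (c (c (l 16649752) (l 16647776)) (c (l 16645784) (l 16643792))))) (b (a (c (l 16638096) (l 16633712)) (c (l 16637136) (l 16622248))) (a (c (a (l 16642016) (l 16641512)) (a (l 16637992) (l 16637488))) (c (c (l 16641792) (l 16639776)) (a (l 16636984) (l 16625992)))))) (c (b (a (c (l 16644880) (l 16640544)) (b (l 16641016)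 (l 16642512))) (a (c (l 16647792) (c (l 16644808) (l 16642800))) (c (l 16646816) (l 16642816)))) (b (a (c (l 16625680) (l 16642240)) (c (l 16624712) (l 16641264))) (a (c (c (l 16640792) (l 16638776)) (c (l 16626264) (l 16624232))) (c (c (l 16629312) (l 16627288)) (l 16634720))))))), by decide +kernel⟩

def k119_B00pm_101_s1 : ∃ t, chk3 f_B00pm_101_s1 t 151 126 1 = true :=
  ⟨(c (b (a (c (b (l 16649232) (b (l 16645112) (l 16651136))) (b (c (l 16636672) (l 16631736)) (a (l 16647216) (l 16635832)))) (c (b (l 16647520) (b (l 16643360) (l 16649360))) (b (c (l 16634928) (l 16629976)) (a (l 16634928) (l 16634024))))) (a (c (b (a (b (l 16668040) (l 16668864)) (l 16646576)) (a (b (l 16669712) (l 16670584)) (b (l 16668792) (l 16669648)))) (b (a (b (l 16659376) (l 16660528)) (l 16648536)) (a (b (c (l 16663712) (l 16659672)) (c (l 16664832) (l 16660960))) (c (l 16663328) (l 16648872))))) (c (b (a (l 16645680) (l 16644776)) (a (b (l 16667872) (l 16668720)) (b (l 16666952) (l 16667784)))) (b (a (l 16647608)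 (l 16646680)) (a (c (l 16662376) (l 16647904)) (c (l 16661424) (l 16646944))))))) (b (a (c (b (a (l 16624608) (l 16623712)) (a (l 16637904) (l 16636984))) (b (a (l 16635424) (l 16634512)) (a (l 16638904) (l 16637960)))) (c (b (c (l 16624968) (l 16619920)) (a (l 16636056) (l 16635128))) (b (a (l 16633600) (l 16632688)) (a (l 16637016) (l 16636072))))) (a (c (b (a (a (l 16641032) (l 16640560)) (a (l 16640080) (l 16639608))) (a (c (l 16645848) (l 16641832)) (c (l 16644872) (l 16640840)))) (b (a (c (l 16623744) (l 16640280)) (b (l 16640624) (l 16631952))) (a (c (l 16637784) (l 16644192)) (c (l 16636776) (l 16643176))))) (c (b (a (a (l 16639128) (l 16638656)) (b (l 16647720) (l 16638672))) (a (c (l 16643896) (l 16639848)) (c (l 16642912) (l 16638856)))) (b (a (b (l 16639648) (l 16641448)) (b (l 16638680) (l 16640456))) (a (c (l 16635776) (l 16642152)) (c (l 16624280) (l 16641128)))))))), by decide +kernel⟩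

def k120_B00pm_101_s1 : ∃ t, chk3 f_B00pm_101_s1 t 150 254 2 = true :=
  ⟨(b (a (c (a (b (c (l 16677024) (l 16673432)) (c (l 16677896) (l 16674480))) (b (c (l 16676088) (l 16672488)) (c (l 16676960) (l 16673528)))) (a (b (c (l 16669824) (a (l 16666408) (l 16665920))) (c (a (l 16671272) (l 16670784)) (a (l 16667808) (l 16667320)))) (b (c (l 16668864) (l 16665208)) (c (l 16670072) (a (l 16666824) (l 16666328)))))) (c (a (b (c (l 16675160) (l 16671544)) (c (l 16676016) (l 16672568))) (b (c (l 16674232) (l 16670592)) (c (l 16675072) (l 16671608)))) (a (b (c (l 16667904) (l 16664232)) (c (l 16669096) (a (l 16665832) (l 16665336)))) (b (c (l 16666936) (l 16663248)) (c (l 16668120) (a (l 16664840) (l 16664344))))))) (a (b (c (c (a (l 16678800) (l 16677848)) (a (l 16675552) (l 16674584))) (c (a (a (l 16672520) (l 16672024)) (a (l 16671536) (l 16671040))) (a (a (l 16669240) (l 16668736)) (a (l 16668240) (l 16667736))))) (c (c (a (l 16679728) (l 16678760)) (a (a (l 16676880) (l 16676392)) (a (l 16675904)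 (l 16675408)))) (c (a (a (l 16673800) (l 16673296)) (a (l 16672800) (l 16672296))) (a (a (l 16670696) (l 16670192)) (a (l 16669680) (l 16669168)))))) (c (a (b (c (l 16676896) (l 16673616)) (c (l 16677800) (a (l 16674920) (l 16674424)))) (b (c (l 16675944) (l 16672640)) (c (l 16676832) (a (l 16673936) (l 16673440))))) (a (b (c (a (l 16670544) (l 16670048)) (a (l 16667232) (l 16666728))) (c (a (l 16671800) (l 16671296)) (a (l 16668664) (l 16668152)))) (b (c (a (l 16669560) (l 16669064)) (a (l 16666224) (l 16665720))) (c (a (l 16670800) (l 16670296)) (a (l 16667640) (l 16667128)))))))), by decide +kernel⟩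

def k121_B00pm_101_s1 : ∃ t, chk3 f_B00pm_101_s1 t 300 254 3 = true :=
  ⟨(b (b (c (a (c (a (l 16662752) (l 16662256)) (l 16648344)) (c (l 16651040) (l 16647336))) (a (c (b (l 16654632) (l 16645112)) (b (l 16650840) (l 22))) (c (l 16643608) (l 16639848)))) (c (a (c (a (l 16664328) (l 16663824)) (b (l 16649656) (l 16650544))) (c (a (l 16663320) (l 16662816)) (c (l 16649960) (l 16648192)))) (c (a (c (l 16647456) (l 16645688)) (c (l 16646416) (l 16644640))) (l 22)))) (c (a (a (b (c (l 16665944) (b (l 16662168) (l 16663072))) (c (c (l 16668360) (l 16666800)) (b (l 16663992) (l 16664912)))) (b (c (l 16665432) (l 16662104)) (c (c (l 16667848) (l 16666280)) (b (l 16663464) (l 16664384))))) (a (b (c (l 16664920) (l 16661584)) (c (b (l 16666136) (l 16666960)) (b (l 16662936) (l 16663856)))) (b (c (l 16664408) (l 16661064)) (c (b (l 16665616) (l 16666440)) (b (l 16662408) (l 16663320)))))) (c (a (a (c (b (l 16660120) (l 16662088)) (b (l 16658440) (l 16660512))) (c (b (l 16659592) (l 16661560)) (b (l 16657912)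 (l 16659976)))) (a (c (b (l 16659064) (l 16661024)) (b (l 16657384) (l 16659432))) (c (b (l 16658536) (l 16660488)) (b (l 16656856) (l 16658896))))) (l 22)))), by decide +kernel⟩

def k122_B00pm_101_s1 : ∃ t, chk3 f_B00pm_101_s1 t 301 254 3 = true :=
  ⟨(b (c (a (c (b (l 16650048) (l 16651592)) (b (l 16646328) (b (l 16658104) (l 16648488)))) (c (a (l 16650056) (l 16649552)) (b (l 16645320) (b (l 16657080) (l 16657944))))) (a (c (b (l 16642584) (l 16649736)) (b (l 16638808) (l 22))) (c (b (l 16641552) (l 16648688)) (b (l 16637768) (l 22))))) (c (a (a (b (c (l 16663896) (l 16660544)) (c (b (l 16665104) (l 16665920)) (b (l 16661888) (l 16662792)))) (b (c (l 16663384) (l 16660024)) (c (b (l 16664584) (l 16665392)) (b (l 16661360) (l 16662264))))) (a (b (c (l 16662872) (l 16659504)) (c (l 16664472) (a (l 16661408) (l 16661144)))) (b (c (l 16662360) (l 16658976)) (c (l 16663952) (a (l 16660880) (l 16660616)))))) (c (c (a (a (b (l 16658016) (l 16659952)) (b (l 16657488) (l 16659416))) (b (l 16646224)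 (a (l 16658880) (l 16658344)))) (a (a (a (l 16652224) (l 22)) (l 22)) (l 22))) (l 22)))), by decide +kernel⟩

def k123_B00pm_101_s1 : ∃ t, chk3 f_B00pm_101_s1 t 151 254 2 = true :=
  ⟨(b (a (c (a (b (c (l 16673296) (l 16669648)) (c (l 16674128) (l 16670648))) (c (l 16672776) (a (l 16669416) (l 16668936)))) (a (b (c (l 16665968) (l 16662272)) (c (l 16667136) (l 16663608))) (b (c (l 16665008) (l 16661288)) (c (l 16666160) (l 16662616))))) (c (a (c (l 16671832) (a (l 16668456) (l 16667976))) (c (l 16670888) (a (l 16667496) (l 16667016)))) (a (b (c (l 16664040) (l 16660304)) (c (l 16665176) (l 16661616))) (c (b (l 16663072) (l 16664200)) (l 16649480))))) (a (c (a (b (c (l 16674984) (l 16671672)) (c (l 16675864) (a (l 16672952) (l 16672456)))) (b (c (l 16674032) (l 16670696)) (c (l 16674896) (a (l 16671968) (l 16671472))))) (a (b (c (a (l 16668568) (l 16668072)) (a (l 16665216) (l 16664712))) (c (a (l 16669792) (l 16669288)) (a (l 16666616) (l 16666112)))) (b (c (l 16667344) (a (l 16664208) (l 16663704)))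 (c (a (l 16668792) (l 16668288)) (a (l 16665600) (l 16665088)))))) (c (a (b (c (l 16673072) (l 16669720)) (c (l 16673928) (l 16670744))) (b (c (l 16672112) (l 16668744)) (c (l 16672960) (l 16669752)))) (a (b (c (l 16666352) (a (l 16663200) (l 16662688))) (c (a (l 16667784) (l 16667280)) (a (l 16664576) (l 16664056)))) (b (c (l 16665352) (a (l 16662184) (l 16661680))) (c (a (l 16666776) (l 16666272)) (a (l 16663544) (l 16663032)))))))), by decide +kernel⟩

def k124_B00pm_101_s1 : ∃ t, chk3 f_B00pm_101_s1 t 151 254 3 = true :=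
  ⟨(a (c (b (a (b (c (l 16658544) (l 16654792)) (c (l 16649576) (l 16646000))) (c (b (l 16657544) (l 16648560)) (b (l 16653776) (l 16644968)))) (a (a (b (c (l 16661848) (l 16658456)) (c (l 16663432) (a (l 16660352) (l 16660088)))) (b (c (l 16661336) (l 16657936)) (c (l 16662912) (a (l 16659824) (l 16659560))))) (a (b (c (l 16660824) (l 16657416)) (c (l 16662392) (a (l 16659296) (l 16659032)))) (b (c (l 16660304) (l 16656888)) (c (l 16661864) (a (l 16658760) (l 16658496))))))) (b (b (a (c (l 16640528) (l 16626240)) (c (l 16649984) (l 16625192))) (a (c (l 16642400) (l 22)) (l 22))) (a (a (c (c (b (l 16655904) (l 16657808)) (l 22)) (l 22)) (c (c (l 16651080) (l 22)) (l 22))) (l 22)))) (c (b (a (c (b (l 16656544) (l 16647544)) (b (l 16652760) (l 16643936))) (c (c (l 16646720) (l 16644872)) (b (l 16651744) (l 16642904)))) (a (c (b (l 16649064) (a (l 16661344) (l 16660824))) (c (b (l 16656984) (b (l 16658240) (l 16659088))) (b (l 16655264) (b (l 16656592) (l 16657488))))) (c (b (l 16648032) (a (l 16660304)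 (l 16659776))) (a (b (l 16655320) (l 16657040)) (b (l 16654800) (l 16656512)))))) (b (b (a (c (l 16648952) (l 16645120)) (c (l 16647920) (l 16644072))) (l 22)) (l 22)))), by decide +kernel⟩

def k125_B00pm_101_s1 : ∃ t, chk3 f_B00pm_101_s1 t 150 510 2 = true :=
  ⟨(a (c (a (c (b (a (l 16680904) (l 16680416)) (a (l 16681880) (l 16681384))) (b (a (l 16678008) (l 16677512)) (a (l 16679168) (l 16678664)))) (c (b (a (l 16679928) (l 16679440)) (a (l 16680896) (l 16680400))) (b (a (l 16677016) (l 16676520)) (a (l 16678160) (l 16677656))))) (b (a (c (a (l 16675104) (l 16674600)) (a (c (l 16672920) (l 16671456)) (c (l 16672408) (l 16670936)))) (c (a (l 16674096) (l 16673584)) (a (c (l 16671888) (l 16670424)) (c (l 16671376) (l 16669904))))) (a (c (a (c (l 16677120) (l 16675760)) (c (l 16676616) (l 16675248))) (a (c (l 16674392) (l 16673024)) (c (l 16673872) (l 16672496)))) (c (a (c (l 16676104) (l 16674728)) (c (l 16675592) (l 16674216))) (a (c (l 16673352) (l 16671976)) (c (l 16672832) (l 16671448)))))))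 (c (a (c (b (a (l 16678952) (l 16678464)) (a (l 16679904) (l 16679416))) (b (a (l 16676024) (l 16675528)) (a (l 16677152) (l 16676648)))) (c (b (a (l 16677976) (l 16677488)) (a (l 16678920) (l 16678424))) (b (a (l 16675024) (l 16674528)) (a (l 16676144) (l 16675640))))) (a (c (b (a (l 16673080) (l 16672568)) (a (c (l 16675080) (l 16673696)) (c (l 16674568) (l 16673184)))) (b (a (c (l 16670864) (l 16669384)) (c (l 16670352) (l 16668864))) (a (c (l 16672312) (l 16670920)) (c (l 16671792) (l 16670392))))) (c (b (a (l 16672064) (l 16671560)) (a (c (l 16674056) (l 16672664)) (c (l 16673544) (l 16672144)))) (b (a (c (l 16669832) (l 16668344)) (c (l 16669320) (l 16667824))) (a (c (l 16671264) (l 16669872)) (b (l 16669672) (l 16670416)))))))), by decide +kernel⟩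

def k126_B00pm_101_s1 : ∃ t, chk3 f_B00pm_101_s1 t 300 510 6 = true :=
  ⟨(b (a (a (c (c (l 16669992) (l 16668520)) (c (l 16667056) (a (l 16665704) (l 16665440)))) (c (c (l 16669472) (l 16667992)) (b (l 16665312) (c (l 16666976) (l 16665520))))) (a (c (c (l 16668944) (l 16667464)) (b (l 16664776) (c (l 16666440) (l 16664984)))) (c (c (l 16668424) (l 16666936)) (b (l 16664248) (c (l 16665904) (l 16664440)))))) (a (a (c (c (b (l 16671232) (l 16672072)) (b (l 16669840) (l 16670728))) (c (b (l 16668440) (l 16669376)) (b (l 16667032) (l 16668024)))) (c (c (b (l 16670704) (l 16671544)) (b (l 16669304) (l 16670184))) (c (b (l 16667896) (l 16668832)) (b (l 16666496) (l 16667472))))) (a (c (c (b (l 16670176) (l 16671008)) (b (l 16668768) (l 16669648))) (b (c (l 16667360) (l 16665952)) (c (l 16668288) (l 16666928)))) (b (c (c (l 16669648) (l 16668240)) (c (l 16666824) (l 16665408))) (c (c (l 16670480) (l 16669112)) (c (l 16667744) (l 16666376))))))), by decide +kernel⟩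

def k127_B00pm_101_s1 : ∃ t, chk3 f_B00pm_101_s1 t 301 510 6 = true :=
  ⟨(b (b (a (a (c (l 16666736) (l 16663712)) (c (l 16666216) (l 16663176))) (a (c (l 16665688) (l 16662640)) (c (l 16665160) (l 16662104)))) (a (c (a (l 16667568) (l 16667040)) (c (a (l 16665368) (l 16664832)) (a (l 16663904) (l 16663360)))) (c (a (l 16666512) (l 16665984)) (c (a (l 16664296) (l 16663760)) (a (l 16662816) (l 16662280)))))) (a (b (c (a (c (l 16669120) (l 16667704)) (c (l 16668592) (l 16667168))) (c (a (l 16666280) (l 16665744)) (a (l 16664864) (l 16664312)))) (c (a (c (l 16669944) (l 16668576)) (c (l 16669408) (l 16668032))) (c (a (l 16667200) (l 16666656)) (a (l 16665832) (l 16665280))))) (b (c (a (c (l 16668056) (l 16666632)) (c (l 16667528) (l 16666096))) (c (a (l 16665200) (l 16664664)) (a (l 16663768) (l 16663224)))) (c (a (c (l 16668880) (l 16667496)) (c (l 16668344) (l 16666960))) (c (a (l 16666112) (l 16665568)) (a (l 16664728) (l 16664184))))))), by decide +kernel⟩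

def k128_B00pm_101_s1 : ∃ t, chk3 f_B00pm_101_s1 t 150 510 7 = true :=
  ⟨(a (b (c (a (b (c (a (l 16663592) (l 16663056)) (a (l 16662088) (l 16661544))) (c (a (l 16664608) (l 16664064)) (a (l 16663152) (l 16662600)))) (b (c (a (l 16662512) (l 16661968)) (a (l 16661000) (l 16660448))) (c (a (l 16663520) (l 16662976)) (a (l 16662056) (l 16661504))))) (l 22)) (c (c (a (b (a (l 16665632) (l 16665080)) (a (a (l 16666800) (l 16666520)) (a (l 16666248) (l 16665968)))) (b (a (l 16664536) (l 16663984)) (a (a (l 16665696) (l 16665416)) (l 16665008)))) (a (b (a (l 16664224) (l 16663672)) (a (a (l 16665440) (l 16665168)) (a (l 16664888) (l 16664608)))) (b (a (l 16663120) (l 16662560)) (c (a (l 16664536) (l 16663976)) (l 22))))) (l 22))) (c (c (b (a (b (a (l 16661432) (l 16660888)) (a (l 16662432) (l 16661880))) (a (l 16660840) (l 16660296))) (a (b (a (l 16663440) (l 16662888)) (a (l 16664456) (l 16663904))) (b (a (l 16662336) (l 16661784)) (a (l 16663344) (l 16662792))))) (a (a (a (a (b (l 16660632) (l 16662744))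 (l 22)) (l 22)) (l 22)) (l 22))) (l 22))), by decide +kernel⟩

def k129_B00pm_101_s1 : ∃ t, chk3 f_B00pm_101_s1 t 151 510 2 = true :=
  ⟨(a (c (a (c (b (a (l 16677000) (l 16676512)) (a (l 16677928) (l 16677432))) (b (a (l 16674032) (l 16673528)) (a (l 16675136) (l 16674632)))) (c (b (a (l 16676024) (l 16675528)) (a (l 16676944) (l 16676448))) (b (a (l 16673032) (l 16672536)) (a (l 16674128) (l 16673624))))) (b (c (a (a (l 16671048) (l 16670536)) (a (l 16670032) (l 16669520))) (a (a (b (l 16667688) (l 16668416)) (b (l 16667176) (l 16667896))) (a (b (l 16666656) (l 16667376)) (b (l 16666144) (l 16666856))))) (b (c (a (a (l 16672008) (l 16671496)) (a (l 16670984) (l 16670464))) (a (a (l 16669152) (l 16668624)) (a (l 16668104) (l 16667576)))) (c (a (a (l 16672656) (l 16672136)) (a (l 16671624) (l 16671104))) (a (a (l 16669888) (l 16669360)) (a (l 16668832) (l 16668312))))))) (c (a (c (b (l 16674808) (a (l 16675952) (l 16675456))) (b (a (l 16672032) (l 16671536)) (a (l 16673112) (l 16672608)))) (c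 (b (l 16673824) (a (l 16674960) (l 16674464))) (b (a (l 16671032) (l 16670528)) (a (l 16672104) (l 16671592))))) (b (c (a (a (l 16669008) (l 16668504)) (a (l 16667992) (l 16667480))) (a (a (b (l 16665624) (l 16666336)) (l 16665456)) (a (l 16664936) (l 16664416)))) (b (c (a (a (l 16669952) (l 16669440)) (a (l 16668920) (l 16668408))) (a (a (l 16667056) (l 16666528)) (a (l 16666000) (l 16665480)))) (c (a (a (l 16670592) (l 16670072)) (a (l 16669552) (l 16669032))) (a (a (l 16667784) (l 16667256)) (a (l 16666728) (l 16666192)))))))), by decide +kernel⟩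

def k130_B00pm_101_s1 : ∃ t, chk3 f_B00pm_101_s1 t 151 510 3 = true :=
  ⟨(c (a (b (a (a (c (b (l 16664640) (l 16665456)) (b (l 16661568) (l 16662480))) (c (b (l 16664112) (l 16664928)) (b (l 16661040) (l 16661944)))) (a (c (b (l 16663584) (l 16664392)) (b (l 16660504) (l 16661400))) (c (b (l 16663056) (l 16663864)) (b (l 16659968) (l 16660864))))) (a (b (c (a (l 16666280) (l 16665744)) (c (a (l 16664120) (l 16663584)) (a (l 16662680) (l 16662136)))) (c (a (c (l 16667808) (l 16666416)) (c (l 16667272) (l 16665880))) (c (a (l 16665024) (l 16664480)) (a (l 16663632) (l 16663080))))) (b (c (a (l 16665216) (l 16664680)) (c (a (l 16663040) (l 16662496)) (a (l 16661592) (l 16661040)))) (c (a (c (l 16666736) (l 16665336)) (c (l 16666208) (l 16664800))) (c (a (l 16663936) (l 16663392)) (a (l 16662536) (l 16661984))))))) (b (a (a (c (b (l 16662536) (l 16663336)) (b (l 16659432) (l 16660320))) (c (b (l 16662008) (l 16662800)) (b (l 16658888) (l 16659784)))) (a (c (b (l 16661480) (l 16662272)) (b (l 16658352)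 (l 16659240))) (c (b (l 16660952) (l 16661744)) (b (l 16657816) (l 16658704))))) (a (a (c (b (l 16664144) (c (l 16665672) (l 16664256))) (b (c (l 16661960) (l 16660496)) (c (l 16662848) (l 16661432)))) (c (b (l 16663608) (c (l 16665136) (l 16663720))) (b (c (l 16661416) (l 16659952)) (c (l 16662304) (l 16660880))))) (a (c (b (l 16663072) (c (l 16664600) (l 16663176))) (b (c (l 16660872) (l 16659400)) (c (l 16661752) (l 16660328)))) (c (b (l 16662544) (c (l 16664064) (l 16662640))) (c (a (l 16660904) (l 16660632)) (l 22))))))) (c (c (a (a (a (b (l 16659752) (b (l 16661240) (l 16662240))) (b (l 16659208) (b (l 16660688) (l 16661680)))) (l 22)) (l 22)) (l 22)) (l 22))), by decide +kernel⟩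

def k131_B00pm_101_s1 : ∃ t, chk3 f_B00pm_101_s1 t 150 1022 2 = true :=
  ⟨(a (c (a (c (a (l 16682880) (l 16682384)) (a (c (l 16680984) (l 16679712)) (c (l 16680472) (l 16679200)))) (c (a (l 16681880) (l 16681384)) (a (c (l 16679968) (l 16678688)) (c (l 16679464) (l 16678176))))) (a (c (a (c (l 16678440) (l 16677168)) (c (l 16677928) (l 16676648))) (a (c (b (l 16675520) (l 16676280)) (b (l 16674224) (l 16675032))) (c (b (l 16674992) (l 16675752)) (b (l 16673688) (l 16674496))))) (c (a (c (l 16677408) (l 16676128)) (c (l 16676888) (l 16675608))) (a (c (b (l 16674464) (l 16675224)) (b (l 16673160) (l 16673960))) (c (b (l 16673944) (l 16674696)) (b (l 16672632) (l 16673424))))))) (c (a (c (a (l 16680888) (l 16680384)) (a (c (l 16678952) (l 16677664)) (c (l 16678448) (l 16677152)))) (c (a (l 16679888) (l 16679384)) (a (b (l 16677000) (l 16677576)) (b (l 16676488) (l 16677064))))) (a (c (a (c (l 16676376) (l 16675080)) (c (l 16675856) (l 16674560))) (a (c (b (l 16673416) (l 16674160)) (b (l 16672096)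 (l 16672888))) (c (b (l 16672888) (l 16673632)) (b (l 16671568) (l 16672360))))) (c (a (c (l 16675336) (l 16674040)) (c (l 16674824) (l 16673512))) (a (c (b (l 16672360) (l 16673104)) (b (l 16671032) (l 16671824))) (b (c (l 16671832) (l 16670504)) (c (l 16672576) (l 16671288)))))))), by decide +kernel⟩

def k132_B00pm_101_s1 : ∃ t, chk3 f_B00pm_101_s1 t 300 1022 3 = true :=
  ⟨(c (b (c (a (a (c (l 16672920) (l 16671624)) (c (l 16672384) (l 16671080))) (a (c (l 16671848) (l 16670536)) (c (l 16671312) (l 16670000)))) (a (b (a (c (l 16670080) (l 16668768)) (c (l 16669536) (l 16668216))) (a (c (l 16670560) (l 16669264)) (c (l 16670008) (l 16668712)))) (b (a (c (l 16668992) (l 16667664)) (c (l 16668448) (l 16667112))) (a (c (l 16669464) (l 16668160)) (c (l 16668912) (l 16667608)))))) (c (a (a (c (l 16673776) (a (l 16672656) (l 16672384))) (c (l 16673240) (a (l 16672112) (l 16671840)))) (a (c (l 16672704) (a (l 16671568) (l 16671296))) (c (l 16672160) (a (l 16671024) (l 16670752))))) (a (a (c (a (l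 16671408) (l 16671136)) (a (l 16670152) (l 16669880))) (c (a (l 16670856) (l 16670584)) (a (l 16669600) (l 16669320)))) (a (c (a (l 16670304) (l 16670032)) (a (l 16669040) (l 16668768))) (c (a (l 16669760) (l 16669480)) (a (l 16668488) (l 16668208))))))) (c (a (a (c (b (a (l 16667848) (l 16667568)) (a (b (l 16668632) (l 16669168)) (b (l 16668352) (l 16668888)))) (b (a (l 16666536) (l 16666256)) (a (b (l 16667368) (l 16667920)) (b (l 16667088) (l 16667640))))) (c (b (a (l 16667288) (l 16667008)) (a (b (l 16668072) (l 16668600)) (b (l 16667792) (l 16668320)))) (b (a (l 16665976) (l 16665696)) (a (b (l 16666800) (l 16667352)) (b (l 16666520) (l 16667072)))))) (a (b (c (a (l 16666728) (l 16666456)) (a (l 16665416) (l 16665136))) (c (a (b (l 16667512) (l 16668040)) (b (l 16667232) (l 16667760))) (c (a (l 16666832) (l 16666544)) (l 22)))) (b (c (a (l 16666176) (l 16665896)) (a (l 16664856) (l 16664568))) (c (a (b (l 16666952) (l 16667480)) (b (l 16666672) (l 16667200))) (c (a (l 16666264) (l 16665984))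 (l 22)))))) (l 22))), by decide +kernel⟩

def k133_B00pm_101_s1 : ∃ t, chk3 f_B00pm_101_s1 t 301 1022 3 = true :=
  ⟨(c (a (a (c (c (b (l 16670776) (l 16671616)) (b (l 16669456) (a (l 16670480) (l 16670208)))) (b (c (l 16668136) (a (l 16666944) (l 16666664))) (c (a (l 16669208) (l 16668928)) (a (l 16667928) (l 16667656))))) (b (c (c (l 16670240) (l 16668912)) (c (l 16667584) (a (l 16666392) (l 16666112)))) (c (c (l 16671080) (a (l 16669936) (l 16669664))) (c (a (l 16668656) (l 16668376)) (a (l 16667376) (l 16667096)))))) (a (b (c (c (l 16669704) (l 16668368)) (c (l 16667040) (a (l 16665840) (l 16665560)))) (c (c (l 16670536) (a (l 16669384) (l 16669112))) (c (a (l 16668104) (l 16667832)) (a (l 16666816) (l 16666544))))) (b (c (c (l 16669168) (l 16667832)) (c (l 16666488) (a (l 16665288) (l 16665008)))) (c (c (l 16670000) (a (l 16668840) (l 16668568))) (c (a (l 16667552) (l 16667280)) (a (l 16666264) (l 16665984))))))) (c (a (a (a (c (b (l 16665616) (l 16666656)) (b (l 16664288) (b (l 16665104)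 (l 16665656)))) (c (b (l 16665336) (l 16666376)) (l 22))) (c (a (b (l 16665056) (l 16666096)) (b (l 16664784) (l 16665816))) (l 22))) (a (c (a (b (l 16664504) (l 16665536)) (b (l 16664224) (l 16665248))) (l 22)) (c (a (b (l 16663944) (l 16664968)) (b (l 16663664) (l 16664688))) (l 22)))) (l 22))), by decide +kernel⟩

def k134_B00pm_101_s1 : ∃ t, chk3 f_B00pm_101_s1 t 151 1022 2 = true :=
  ⟨(a (c (a (c (a (l 16678888) (l 16678384)) (a (b (l 16675984) (l 16676552)) (b (l 16675472) (l 16676040)))) (c (a (l 16677888) (l 16677384)) (a (b (l 16674960) (l 16675528)) (b (l 16674456) (l 16675016))))) (b (a (c (a (l 16673312) (l 16672792)) (a (c (l 16671304) (l 16669968)) (c (l 16670784) (l 16669432)))) (c (a (l 16672272) (l 16671752)) (a (c (l 16670256) (l 16668904)) (c (l 16669720) (l 16668368))))) (a (c (a (c (l 16674624) (l 16673336)) (c (l 16674104) (l 16672808))) (a (c (l 16672040) (l 16670752)) (c (l 16671512) (l 16670216)))) (c (a (c (l 16673584) (l 16672280)) (c (l 16673064) (l 16671752))) (a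 (c (l 16670976) (l 16669680)) (c (l 16670448) (l 16669136))))))) (c (a (c (a (l 16676880) (l 16676384)) (a (b (l 16673944) (l 16674504)) (b (l 16673432) (l 16673992)))) (c (a (l 16675880) (l 16675376)) (a (b (l 16672920) (l 16673480)) (b (l 16672408) (l 16672960))))) (b (a (c (a (l 16671232) (l 16670712)) (a (c (l 16669192) (l 16667832)) (c (l 16668664) (l 16667304)))) (c (a (l 16670192) (l 16669664)) (a (c (l 16668136) (l 16666768)) (c (l 16667608) (l 16666232))))) (a (c (a (c (l 16672536) (l 16671232)) (c (l 16672016) (l 16670704))) (a (c (l 16669912) (l 16668600)) (c (l 16669384) (l 16668064)))) (c (a (c (l 16671496) (l 16670176)) (c (l 16670976) (l 16669648))) (a (c (l 16668848) (l 16667528)) (c (l 16668320) (l 16666992)))))))), by decide +kernel⟩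

def k135_B00pm_101_s1 : ∃ t, chk3 f_B00pm_101_s1 t 151 1022 6 = true :=
  ⟨(a (a (a (b (c (c (l 16668624) (l 16667288)) (c (l 16665944) (a (l 16664728) (l 16664456)))) (c (c (l 16669456) (a (l 16668296) (l 16668024))) (c (a (l 16667000) (l 16666728)) (a (l 16665704) (l 16665424))))) (b (c (c (l 16668088) (l 16666744)) (c (l 16665392) (a (l 16664176) (l 16663904)))) (c (c (l 16668912) (a (l 16667752) (l 16667472))) (c (a (l 16666448) (l 16666176)) (a (l 16665144) (l 16664872)))))) (a (b (c (c (l 16667552) (l 16666200)) (c (l 16664848) (a (l 16663624) (l 16663344)))) (c (c (l 16668376) (a (l 16667200) (l 16666928))) (c (a (l 16665896) (l 16665616)) (a (l 16664592) (l 16664312))))) (b (c (c (l 16667016) (l 16665656)) (c (l 16664296) (a (l 16663072) (l 16662792)))) (c (c (l 16667832) (a (l 16666656) (l 16666376))) (c (a (l 16665344) (l 16665064)) (a (l 16664032) (l 16663752))))))) (a (a (b (c (c (l 16666472) (l 16665112)) (c (l 16663744) (a (l 16662512) (l 16662240)))) (c (c (l 16667288) (a (l 16666104)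 (l 16665832))) (c (a (l 16664792) (l 16664512)) (a (l 16663472) (l 16663192))))) (b (c (c (l 16665936) (l 16664568)) (c (l 16663200) (a (l 16661960) (l 16661680)))) (c (c (l 16666744) (a (l 16665560) (l 16665288))) (c (a (l 16664240) (l 16663960)) (a (l 16662912) (l 16662640)))))) (a (b (c (c (l 16665392) (l 16664024)) (c (l 16662648) (l 16661272))) (c (c (l 16666200) (a (l 16665008) (l 16664736))) (c (a (l 16663680) (l 16663408)) (a (l 16662360) (l 22))))) (b (c (c (l 16664856) (l 16663480)) (c (l 16662096) (l 22))) (c (c (l 16665656) (a (l 16664464) (l 16664184))) (c (a (l 16663128) (l 16662856)) (l 22))))))), by decide +kernel⟩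

def k136_B00pm_101_s1 : ∃ t, chk3 f_B00pm_101_s1 t 151 1022 7 = true :=
  ⟨(a (c (c (c (a (b (a (l 16663584) (l 16663032)) (b (a (l 16664344) (l 16663784)) (a (l 16664848) (l 16664288)))) (l 22)) (l 22)) (l 22)) (l 22)) (l 22)), by decide +kernel⟩

def k137_B00pm_101_s1 : ∃ t, chk3 f_B00pm_101_s1 t 150 2046 2 = true :=
  ⟨(a (c (a (c (a (l 16683648) (l 16683144)) (a (l 16681248) (l 16680736))) (c (a (l 16682640) (l 16682136)) (a (l 16680224) (l 16679712)))) (a (c (a (c (l 16679448) (l 16678248)) (c (l 16678928) (l 16677720))) (a (c (l 16677048) (l 16675848)) (c (l 16676520) (l 16675312)))) (c (a (c (l 16678408) (l 16677200)) (c (l 16677888) (l 16676672))) (a (c (l 16675984) (l 16674768)) (c (l 16675448) (a (l 16674368) (l 16674096))))))) (c (a (c (a (l 16681632) (l 16681128)) (a (l 16679192) (l 16678680))) (c (a (l 16680624) (l 16680120)) (a (l 16678168) (l 16677648)))) (a (c (a (c (l 16677360) (l 16676144)) (c (l 16676840) (l 16675616))) (a (c (l 16674920) (a (l 16673824) (l 16673560))) (c (l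 16674384) (a (l 16673288) (l 16673016))))) (c (a (c (l 16676320) (l 16675088)) (c (l 16675792) (l 16674560))) (a (c (l 16673848) (a (l 16672752) (l 16672480))) (c (l 16673320) (a (l 16672208) (l 16671944)))))))), by decide +kernel⟩

def k138_B00pm_101_s1 : ∃ t, chk3 f_B00pm_101_s1 t 150 2047 2 = true :=
  ⟨(a (b (c (a (c (a (l 16684032) (l 16683528)) (a (l 16681704) (l 16681192))) (c (a (l 16683024) (l 16682520)) (a (l 16680680) (l 16680160)))) (a (c (a (c (l 16679960) (l 16678800)) (c (l 16679440) (l 16678264))) (a (c (l 16677632) (l 16676464)) (c (l 16677096) (l 16675928)))) (c (a (c (l 16678912) (l 16677736)) (c (l 16678392) (l 16677208))) (a (c (l 16676560) (l 16675384)) (c (l 16676024) (l 16674848)))))) (c (a (c (a (l 16684296) (l 16683792)) (a (l 16682016) (l 16681496))) (c (a (l 16683288) (l 16682776)) (a (l 16680984) (l 16680464)))) (a (c (a (c (l 16680304) (l 16679160)) (c (l 16679776) (l 16678632))) (a (c (l 16678024) (l 16676880)) (c (l 16677488) (l 16676336)))) (c (a (c (l 16679256)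 (l 16678104)) (c (l 16678728) (l 16677568))) (a (c (l 16676952) (l 16675800)) (c (l 16676408) (l 16675256))))))) (b (c (a (c (a (l 16682016) (l 16681512)) (a (l 16679640) (l 16679128))) (c (a (l 16681000) (l 16680496)) (a (l 16678608) (l 16678096)))) (a (c (a (c (l 16677864) (l 16676680)) (c (l 16677336) (l 16676144))) (a (c (l 16675488) (l 16674304)) (c (l 16674952) (l 16673760)))) (c (a (c (l 16676816) (l 16675616)) (c (l 16676288) (l 16675088))) (a (c (l 16674416) (l 16673224)) (c (l 16673880) (l 16672680)))))) (c (a (c (a (l 16682272) (l 16681768)) (a (l 16679944) (l 16679424))) (c (a (l 16681256) (l 16680752)) (a (l 16678912) (l 16678392)))) (a (c (a (c (l 16678200) (l 16677040)) (c (l 16677672) (l 16676504))) (a (c (l 16675872) (l 16674712)) (c (l 16675336) (b (l 16674064) (l 16674272))))) (c (a (c (l 16677144) (l 16675976)) (c (l 16676624) (l 16675440))) (a (c (l 16674800) (b (l 16673520) (l 16673728))) (c (l 16674264) (b (l 16672984) (l 16673184))))))))), by decide +kernel⟩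

def k139_B00pm_101_s1 : ∃ t, chk3 f_B00pm_101_s1 t 300 2046 3 = true :=
  ⟨(c (c (a (a (c (a (l 16674776) (l 16674504)) (a (l 16673576) (l 16673304))) (c (a (l 16674232) (l 16673960)) (a (l 16673024) (l 16672752)))) (a (c (a (l 16673688) (l 16673416)) (a (l 16672480) (l 16672200))) (c (a (l 16673144) (l 16672872)) (a (l 16671928) (l 16671656))))) (c (a (a (a (l 16672376) (l 16672096)) (a (l 16671816) (l 16671544))) (a (a (l 16671264) (l 16670984)) (a (l 16670712) (b (l 16670192) (l 16670672))))) (a (b (a (a (l 16670912) (l 16670632)) (a (l 16670360) (l 16670080))) (a (a (l 16671424) (l 16671144)) (a (l 16670864) (l 16670584)))) (b (a (a (l 16669800) (l 16669520)) (a (l 16669240) (l 16668960))) (a (a (l 16670304) (l 16670024)) (a (l 16669744) (l 16669464))))))) (c (a (b (a (c (a (l 16669696) (l 16669416)) (a (l 16668480) (l 16668200))) (c (a (l 16669136) (l 16668856)) (a (l 16667912) (l 16667624)))) (a (c (a (l 16670232) (l 16669952)) (a (c (l 16669344) (l 16668744)) (c (l 16669056) (l 16668456))))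 (c (a (c (l 16669968) (l 16669368)) (c (l 16669688) (l 16669088))) (a (c (l 16668768) (l 16668168)) (c (l 16668488) (l 16667888)))))) (b (c (a (a (l 16668568) (l 16668288)) (a (l 16668008) (l 16667728))) (a (a (l 16667344) (l 16667056)) (a (l 16666776) (l 16666488)))) (c (a (a (c (l 16669400) (l 16668800)) (c (l 16669120) (l 16668520))) (a (c (l 16668840) (l 16668232)) (c (l 16668552) (l 16667952)))) (c (a (a (l 16668200) (l 16667912)) (a (l 16667632) (l 16667344))) (l 22))))) (l 22))), by decide +kernel⟩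

def k140_B00pm_101_s1 : ∃ t, chk3 f_B00pm_101_s1 t 301 2046 3 = true :=
  ⟨(c (c (a (a (c (a (l 16672600) (l 16672328)) (a (l 16671384) (l 16671104))) (c (a (l 16672056) (l 16671784)) (a (l 16670832) (l 16670552)))) (a (c (a (l 16671512) (l 16671240)) (a (l 16670280) (l 16670008))) (c (a (l 16670968) (l 16670696)) (a (l 16669728) (l 16669456))))) (a (b (a (c (a (l 16669920) (l 16669640)) (a (l 16668680) (l 16668400))) (c (a (l 16669360) (l 16669088)) (a (l 16668120) (l 16667840)))) (a (c (a (l 16670392) (l 16670120)) (a (l 16669184) (l 16668904))) (c (a (l 16669840) (l 16669560)) (a (l 16668624) (l 16668344))))) (b (a (c (a (l 16668808) (l 16668536)) (a (l 16667560) (l 16667280))) (c (a (l 16668256) (l 16667976)) (a (l 16667000) (l 16666720)))) (a (c (a (l 16669280) (l 16669008)) (a (l 16668056) (l 16667776))) (c (a (l 16668728) (l 16668448)) (a (l 16667496) (l 16667216))))))) (c (a (a (c (a (c (l 16668016) (l 16667400)) (c (l 16667728) (l 16667112))) (a (b (l 16666200) (c (l 16667056) (l 22)))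 (l 22))) (c (a (c (l 16667448) (l 16666832)) (c (l 16667168) (l 16666552))) (l 22))) (c (b (a (a (l 16666312) (l 16666032)) (a (l 16665744) (l 16665464))) (c (a (a (l 16667144) (l 16666856)) (a (l 16666576) (l 16666296))) (a (a (l 16666528) (l 16666248)) (l 22)))) (l 22))) (l 22))), by decide +kernel⟩

def k141_B00pm_101_s1 : ∃ t, chk3 f_B00pm_101_s1 t 300 4094 3 = true :=
  ⟨(c (c (a (a (c (l 16675304) (a (l 16674272) (l 16673992))) (c (a (l 16674888) (l 16674616)) (a (l 16673720) (l 16673440)))) (a (c (a (l 16674344) (l 16674072)) (a (l 16673168) (l 16672888))) (c (a (l 16673792) (l 16673520)) (a (l 16672616) (l 16672336))))) (a (a (c (a (l 16673104) (l 16672824)) (a (l 16671936) (l 16671656))) (c (a (l 16672544) (l 16672264)) (a (l 16671376) (l 16671096)))) (a (c (a (l 16671992) (l 16671712)) (a (l 16670816) (c (l 16670824) (l 16670240)))) (c (a (l 16671432) (l 16671152)) (a (c (l 16670544) (l 16669952)) (c (l 16670264) (l 16669672))))))) (c (a (a (c (a (c (l 16671064) (l 16670480)) (c (l 16670784)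 (l 16670192))) (a (c (l 16669896) (l 16669312)) (c (l 16669608) (l 16669024)))) (c (a (c (l 16670496) (l 16669912)) (c (l 16670216) (l 16669624))) (a (c (l 16669328) (l 16668736)) (c (l 16669040) (l 16668448))))) (c (a (a (c (l 16669928) (l 16669344)) (c (l 16669648) (l 16669056))) (a (c (l 16669360) (l 16668776)) (c (l 16669080) (l 16668488)))) (c (a (a (l 16668752) (l 16668464)) (a (l 16668184) (l 16667896))) (l 22)))) (l 22))), by decide +kernel⟩

def k142_B00pm_101_s1 : ∃ t, chk3 f_B00pm_101_s1 t 300 4095 6 = true :=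
  ⟨(b (a (c (a (c (l 16675632) (a (l 16674616) (l 16674344))) (c (l 16675080) (a (l 16674064) (l 16673784)))) (a (c (a (l 16673472) (l 16673192)) (a (l 16672320) (l 16672040))) (c (a (l 16672912) (l 16672632)) (a (l 16671760) (l 16671480))))) (c (a (c (l 16674536) (a (l 16673512) (l 16673232))) (c (l 16673984) (a (l 16672960) (l 16672680)))) (a (c (a (l 16672352) (l 16672072)) (a (l 16671200) (l 16670912))) (c (a (l 16671792) (l 16671512)) (a (l 16670632) (l 16670352)))))) (b (a (c (a (c (l 16675792) (a (l 16674792) (l 16674512))) (c (l 16675248) (a (l 16674240) (l 16673960)))) (a (c (a (l 16673656) (l 16673376)) (a (l 16672520) (l 16672232))) (c (a (l 16673096) (l 16672816)) (a (l 16671952) (l 16671672))))) (c (a (c (l 16674696) (a (l 16673688) (l 16673408))) (c (l 16674152) (a (l 16673128) (l 16672856)))) (a (c (a (l 16672536) (l 16672256)) (a (l 16671392) (l 16671104))) (c (a (l 16671976) (l 16671696)) (a (l 16670824) (l 16670544)))))) (a (c (a (c (l 16675904) (a (l 16674912) (l 16674632)))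 (c (l 16675360) (a (l 16674352) (l 16674080)))) (a (c (a (l 16673776) (l 16673496)) (a (l 16672648) (l 16672368))) (c (a (l 16673216) (l 16672936)) (a (l 16672080) (l 16671800))))) (c (a (c (l 16674808) (a (l 16673800) (l 16673520))) (c (l 16674256) (a (l 16673248) (l 16672968)))) (a (c (a (l 16672656) (l 16672376)) (a (l 16671520) (l 16671232))) (c (a (l 16672096) (l 16671816)) (a (l 16670952) (l 16670672)))))))), by decide +kernel⟩

def k143_B00pm_101_s1 : ∃ t, chk3 f_B00pm_101_s1 t 300 8190 7 = true :=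
  ⟨(c (a (a (c (a (c (l 16671464) (l 16670888)) (c (l 16671176) (l 16670608))) (a (c (l 16670320) (l 16669744)) (c (l 16670032) (l 16669456)))) (c (a (c (l 16670896) (l 16670320)) (c (l 16670608) (l 16670032))) (a (c (l 16669744) (l 16669168)) (c (l 16669456) (l 16668880))))) (a (c (a (c (l 16670328) (l 16669752)) (c (l 16670040) (l 16669464))) (c (a (l 16669168) (l 16668880)) (l 22))) (c (a (c (l 16669760) (l 16669176)) (c (l 16669472) (l 16668888))) (c (a (l 16668592) (l 16668312)) (l 22))))) (l 22)), by decide +kernel⟩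

def k144_B00pm_101_s1 : ∃ t, chk3 f_B00pm_101_s1 t 300 8191 7 = true :=
  ⟨(c (a (b (a (c (a (c (l 16671664) (l 16671096)) (c (l 16671384) (l 16670808))) (a (c (l 16670528) (l 16669960)) (c (l 16670240) (l 16669672)))) (c (a (c (l 16671096) (l 16670528)) (c (l 16670808) (l 16670240))) (a (c (l 16669952) (l 16669384)) (c (l 16669664) (l 16669096))))) (b (a (c (a (c (l 16671768) (l 16671200)) (c (l 16671480) (l 16670912))) (a (c (l 16670632) (l 16670064)) (c (l 16670344) (l 16669776)))) (c (a (c (l 16671200) (l 16670624)) (c (l 16670912) (l 16670344))) (a (c (l 16670056) (l 16669488)) (c (l 16669768) (l 16669200))))) (a (c (a (c (l 16671832) (l 16671264)) (c (l 16671544) (l 16670984))) (a (c (l 16670704) (l 16670136)) (c (l 16670416) (l 16669848)))) (c (a (c (l 16671264) (l 16670696)) (c (l 16670976) (l 16670408))) (a (c (l 16670128) (l 16669560)) (c (l 16669840) (l 16669272))))))) (b (a (c (a (c (l 16670528) (l 16669952)) (c (l 16670240) (l 16669664))) (c (a (l 16669376) (l 16669088)) (l 22)))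 (c (a (c (l 16669960) (l 16669384)) (c (l 16669672) (l 16669096))) (c (a (l 16668800) (l 16668520)) (l 22)))) (b (a (c (a (c (l 16670624) (l 16670056)) (c (l 16670344) (l 16669768))) (c (a (l 16669480) (l 16669192)) (l 22))) (c (a (c (l 16670056) (l 16669480)) (c (l 16669776) (l 16669200))) (c (a (l 16668912) (l 16668624)) (l 22)))) (a (c (a (c (l 16670696) (l 16670120)) (c (l 16670408) (l 16669840))) (c (a (l 16669552) (l 16669264)) (l 22))) (c (a (c (l 16670120) (l 16669552)) (c (l 16669840) (l 16669264))) (c (a (l 16668976) (l 16668688)) (l 22))))))) (l 22)), by decide +kernel⟩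

def k145_B00pm_101_s1 : ∃ t, chk3 f_B00pm_101_s1 t 301 4094 3 = true :=
  ⟨(c (c (a (a (c (a (l 16673248) (l 16672976)) (a (l 16672064) (l 16671784))) (c (a (l 16672704) (l 16672432)) (a (l 16671512) (l 16671232)))) (a (c (a (l 16672152) (l 16671880)) (a (l 16670960) (l 16670680))) (c (a (l 16671608) (l 16671336)) (a (l 16670408) (l 16670128))))) (a (a (c (a (l 16670872) (l 16670592)) (a (c (l 16669984) (l 16669392)) (c (l 16669704) (l 16669104)))) (c (a (l 16670320) (l 16670040)) (a (c (l 16669424) (l 16668824)) (c (l 16669144) (l 16668544))))) (a (c (a (l 16669760) (l 16669480)) (a (c (l 16668864) (l 16668264)) (c (l 16668576) (l 16667976)))) (c (a (l 16669200) (l 16668920)) (a (c (l 16668296) (l 16667696)) (c (l 16668016) (l 16667416))))))) (c (a (c (a (a (c (l 16668800) (l 16668200)) (c (l 16668512) (l 16667920))) (a (c (l 16668232) (l 16667632)) (c (l 16667944) (l 16667344)))) (a (a (c (l 16667608) (l 22)) (l 22)) (l 22))) (c (c (a (a (l 16667664) (l 16667376)) (a (l 16667096) (l 16666808)))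 (a (a (l 16667064) (l 16666776)) (l 22))) (l 22))) (l 22))), by decide +kernel⟩

def k146_B00pm_101_s1 : ∃ t, chk3 f_B00pm_101_s1 t 301 8190 6 = true :=
  ⟨(a (c (a (c (l 16673440) (a (l 16672408) (l 16672128))) (c (l 16672888) (a (l 16671848) (l 16671576)))) (a (c (a (l 16671240) (l 16670960)) (a (l 16670064) (l 16669784))) (c (a (l 16670680) (l 16670400)) (a (l 16669504) (c (l 16669512) (l 16668928)))))) (c (a (c (a (l 16672480) (l 16672200)) (a (l 16671296) (l 16671024))) (c (a (l 16671928) (l 16671656)) (a (l 16670744) (l 16670464)))) (a (c (a (l 16670120) (l 16669840)) (a (c (l 16669232) (l 16668640)) (c (l 16668952) (l 16668360)))) (c (a (l 16669560) (l 16669280)) (a (c (l 16668672) (l 16668080)) (c (l 16668384) (l 16667792))))))), by decide +kernel⟩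

def k147_B00pm_101_s1 : ∃ t, chk3 f_B00pm_101_s1 t 301 8191 6 = true :=
  ⟨(b (a (c (a (c (l 16673600) (a (l 16672576) (l 16672296))) (c (l 16673056) (a (l 16672024) (l 16671744)))) (a (c (a (l 16671416) (l 16671136)) (a (l 16670256) (l 16669976))) (c (a (l 16670856) (l 16670576)) (a (l 16669696) (l 16669408))))) (c (a (c (l 16672504) (a (l 16671464) (l 16671192))) (c (a (l 16672088) (l 16671816)) (a (l 16670912) (l 16670632)))) (a (c (a (l 16670296) (l 16670016)) (a (l 16669128) (c (l 16669136) (l 16668552)))) (c (a (l 16669736) (l 16669456)) (a (c (l 16668856) (l 16668264)) (c (l 16668576) (l 16667984))))))) (a (c (a (c (l 16673712) (a (l 16672688) (l 16672416))) (c (a (l 16673296) (l 16673024)) (a (l 16672136) (l 16671856)))) (a (c (a (l 16671536) (l 16671256)) (a (l 16670384) (b (l 16670072) (l 16670136)))) (c (a (l 16670976) (l 16670696)) (a (b (l 16669784) (l 16669848)) (b (l 16669504) (l 16669568)))))) (a (c (c (a (l 16672744) (l 16672472)) (a (l 16671584) (l 16671304))) (c (a (l 16670416)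 (l 16670136)) (a (a (l 16669320) (l 16669184)) (a (l 16669040) (l 16668896))))) (c (c (a (l 16672200) (l 16671920)) (a (l 16671024) (l 16670752))) (c (a (l 16669856) (l 16669576)) (c (a (l 16668976) (l 16668696)) (a (l 16668392) (l 16668112)))))))), by decide +kernel⟩

def k148_B00pm_101_s1 : ∃ t, chk3 f_B00pm_101_s1 t 301 4095 7 = true :=
  ⟨(b (c (c (c (a (a (a (l 16669192) (l 16668904)) (a (l 16668624) (l 16668336))) (a (a (l 16668056) (l 16667768)) (a (l 16667480) (l 16667200)))) (a (a (a (l 16668608) (l 16668320)) (a (l 16668032) (l 16667752))) (a (a (l 16667464) (l 16667176)) (l 22)))) (a (a (a (c (l 16668024) (l 22)) (l 22)) (l 22)) (l 22))) (l 22)) (c (a (b (a (c (a (c (l 16669392) (l 16668808)) (c (l 16669104) (l 16668520))) (a (c (l 16668232) (l 22)) (l 22))) (c (a (c (l 16668816) (l 16668240)) (c (l 16668536) (l 16667952))) (l 22))) (a (c (c (a (l 16669520) (l 16669232)) (a (l 16668944) (l 16668656))) (a (c (l 16668368) (l 22)) (l 22))) (c (c (a (l 16668952) (l 16668664)) (a (l 16668368)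 (l 16668088))) (l 22)))) (c (c (a (a (l 16668312) (l 16668032)) (a (l 16667744) (l 16667456))) (a (a (l 16667728) (a (l 16667512) (l 22))) (l 22))) (l 22))) (l 22))), by decide +kernel⟩

def k149_B00pm_101_s1 : ∃ t, chk3 f_B00pm_101_s1 t 151 2046 2 = true :=
  ⟨(a (c (a (c (a (l 16679616) (l 16679112)) (a (l 16677136) (l 16676624))) (c (a (l 16678608) (l 16678104)) (a (l 16676104) (l 16675592)))) (a (c (a (c (l 16675272) (l 16674032)) (c (l 16674752) (l 16673496))) (a (c (l 16672784) (a (l 16671672) (l 16671400))) (c (l 16672248) (a (l 16671128) (l 16670864))))) (c (a (c (l 16674224) (l 16672968)) (c (l 16673704) (l 16672440))) (a (c (l 16671712) (a (l 16670592) (l 16670320))) (c (l 16671176) (a (l 16670048) (l 16669784))))))) (c (a (c (a (l 16677600) (l 16677096)) (a (l 16675072) (c (l 16675192) (l 16673920)))) (c (a (l 16676584) (l 16676080)) (a (c (l 16674672) (l 16673400)) (c (l 16674160) (l 16672880))))) (a (c (a (c (l 16673176) (l 16671912)) (c (l 16672648) (l 16671384))) (a (c (l 16670648)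 (a (l 16669512) (l 16669240))) (c (l 16670112) (a (l 16668968) (l 16668696))))) (c (a (c (l 16672128) (l 16670848)) (c (l 16671600) (l 16670320))) (a (c (l 16669576) (a (l 16668432) (l 16668160))) (c (l 16669040) (a (l 16667888) (l 16667616)))))))), by decide +kernel⟩

def k150_B00pm_101_s1 : ∃ t, chk3 f_B00pm_101_s1 t 302 2047 2 = true :=
  ⟨(b (c (a (c (a (l 16679992) (l 16679488)) (a (l 16677576) (l 16677056))) (c (a (l 16678976) (l 16678472)) (a (l 16676544) (l 16676024)))) (a (c (a (c (l 16675760) (l 16674552)) (c (l 16675240) (l 16674024))) (a (c (l 16673344) (l 16672136)) (c (l 16672808) (l 16671592)))) (c (a (c (l 16674712) (l 16673488)) (c (l 16674184) (l 16672960))) (a (c (l 16672272) (l 16671048)) (c (l 16671736) (l 16670512)))))) (c (a (c (a (l 16680240) (l 16679736)) (a (l 16677872) (l 16677352))) (c (a (l 16679224) (l 16678712)) (a (l 16676832) (l 16676312)))) (b (a (c (a (c (l 16676008) (l 16674816)) (c (l 16675480) (l 16674288))) (a (c (l 16673632) (l 16672440)) (c (l 16673088)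 (l 16671896)))) (c (a (c (l 16674960) (l 16673752)) (c (l 16674432) (l 16673224))) (a (c (l 16672552) (l 16671352)) (c (l 16672016) (l 16670808))))) (a (c (a (c (l 16676176) (l 16675000)) (c (l 16675648) (l 16674464))) (a (c (l 16673816) (l 16672640)) (c (l 16673280) (l 16672096)))) (c (a (c (l 16675120) (l 16673928)) (c (l 16674592) (l 16673392))) (a (c (l 16672736) (l 16671552)) (c (l 16672200) (b (l 16670952) (l 16671056))))))))), by decide +kernel⟩

def k151_B00pm_101_s1 : ∃ t, chk3 f_B00pm_101_s1 t 303 2047 2 = true :=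
  ⟨(b (c (a (c (a (l 16677960) (l 16677456)) (a (l 16675504) (l 16674984))) (c (a (l 16676944) (l 16676440)) (a (l 16674464) (l 16673944)))) (a (c (a (c (l 16673656) (l 16672424)) (c (l 16673128) (l 16671896))) (a (c (l 16671200) (l 16669968)) (c (l 16670656) (a (l 16669552) (l 16669280))))) (c (a (c (l 16672600) (l 16671360)) (c (l 16672072) (l 16670832))) (a (c (l 16670120) (a (l 16669008) (l 16668736))) (c (l 16669584) (a (l 16668464) (l 16668192))))))) (c (a (c (a (l 16678208) (l 16677696)) (a (l 16675792) (c (l 16675880) (l 16674664)))) (c (a (l 16677184) (l 16676680)) (a (c (l 16675360) (l 16674144)) (c (l 16674840) (l 16673616))))) (b (a (c (a (c (l 16673904) (l 16672688)) (c (l 16673376) (l 16672152))) (a (c (l 16671472) (l 16670264)) (c (l 16670936) (l 16669712)))) (c (a (c (l 16672840) (l 16671616)) (c (l 16672312) (l 16671088))) (a (c (l 16670392) (l 16669168)) (c (l 16669856) (a (l 16668760) (l 16668488)))))) (a (c (a (c (l 16674064) (l 16672864)) (c (l 16673536) (l 16672328))) (a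 (c (l 16671656) (b (l 16670408) (l 16670504))) (c (l 16671120) (b (l 16669864) (l 16669960))))) (c (a (c (l 16673008) (l 16671792)) (c (l 16672472) (l 16671256))) (a (c (l 16670576) (a (l 16669496) (l 16669224))) (c (l 16670040) (a (l 16668952) (l 16668680))))))))), by decide +kernel⟩

def k152_B00pm_101_s1 : ∃ t, chk3 f_B00pm_101_s1 t 151 2046 3 = true :=
  ⟨(c (a (a (c (a (c (a (l 16670424) (l 16670152)) (a (l 16669184) (l 16668904))) (c (a (l 16669880) (l 16669608)) (a (l 16668632) (l 16668352)))) (b (a (c (a (l 16667704) (l 16667424)) (a (l 16666440) (l 16666160))) (c (a (l 16667144) (l 16666864)) (a (l 16665880) (l 16665600)))) (a (c (a (l 16668168) (l 16667888)) (a (l 16666936) (l 16666656))) (c (a (l 16667616) (l 16667336)) (a (l 16666376) (l 16666096)))))) (c (a (c (a (l 16669336) (l 16669064)) (a (l 16668080) (l 16667808))) (c (a (l 16668792) (l 16668520)) (a (l 16667528) (l 16667256)))) (b (a (c (a (l 16666592) (l 16666312)) (a (l 16665320) (l 16665040))) (c (a (l 16666032) (l 16665760))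 (a (l 16664760) (l 16664480)))) (a (c (a (l 16667056) (l 16666776)) (a (l 16665808) (l 16665528))) (c (a (l 16666496) (l 16666224)) (a (l 16665248) (l 16664968))))))) (a (a (c (c (a (l 16668248) (l 16667968)) (a (l 16666976) (l 16666704))) (c (a (b (l 16665480) (l 16665944)) (b (l 16665200) (l 16665664))) (c (a (l 16664760) (l 16664480)) (l 22)))) (c (c (a (l 16667696) (l 16667424)) (a (l 16666424) (l 16666152))) (c (a (b (l 16664920) (l 16665384)) (b (l 16664648) (l 16665104))) (c (a (l 16664200) (l 16663920)) (l 22))))) (c (a (c (a (l 16667152) (l 16666880)) (a (l 16665872) (l 16665600))) (c (a (l 16666608) (l 16666328)) (a (l 16665320) (l 16665048)))) (a (c (a (b (l 16664368) (l 16664824)) (b (l 16664088) (l 16664544))) (a (b (l 16663072) (l 16663560)) (l 22))) (c (a (b (l 16663808) (l 16664264)) (b (l 16663528) (l 16663984))) (l 22)))))) (a (c (c (c (a (a (a (l 16665752) (l 16665472)) (a (l 16665192) (l 22))) (l 22)) (l 22)) (l 22)) (l 22)) (l 22))), by decide +kernel⟩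

def k153_B00pm_101_s1 : ∃ t, chk3 f_B00pm_101_s1 t 302 4094 3 = true :=
  ⟨(c (c (a (a (c (a (l 16671064) (l 16670784)) (a (l 16669848) (l 16669576))) (c (a (l 16670512) (l 16670240)) (a (l 16669296) (l 16669024)))) (a (c (a (l 16669968) (l 16669688)) (a (l 16668744) (l 16668464))) (c (a (l 16669416) (l 16669144)) (a (l 16668192) (l 16667912))))) (a (a (c (a (l 16668640) (l 16668360)) (a (c (l 16667736) (l 16667128)) (c (l 16667456) (l 16666848)))) (c (a (l 16668080) (l 16667808)) (a (c (l 16667176) (l 16666568)) (c (l 16666888) (l 16666280))))) (a (c (a (l 16667528) (l 16667248)) (a (c (l 16666608) (l 16666000)) (c (l 16666328) (l 16665720)))) (c (a (l 16666968) (l 16666688)) (a (c (l 16666048) (l 16665432)) (c (l 16665768) (l 16665152))))))) (c (a (c (c (a (a (l 16666528) (l 16666240)) (a (l 16665960) (l 22))) (l 22)) (l 22)) (l 22)) (l 22))), by decide +kernel⟩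

def k154_B00pm_101_s1 : ∃ t, chk3 f_B00pm_101_s1 t 302 8190 6 = true :=
  ⟨(a (c (a (c (a (l 16671376) (l 16671104)) (a (l 16670192) (l 16669912))) (c (a (l 16670832) (l 16670552)) (a (l 16669632) (l 16669360)))) (a (c (a (l 16669000) (l 16668720)) (a (c (l 16668104) (l 16667512)) (c (l 16667824) (l 16667224)))) (c (a (l 16668440) (l 16668160)) (a (c (l 16667544) (l 16666944)) (c (l 16667256) (l 16666656)))))) (c (a (c (a (l 16670280) (l 16670008)) (a (l 16669080) (l 16668800))) (c (a (l 16669728) (l 16669456)) (a (l 16668528) (l 16668248)))) (a (c (a (l 16667880) (l 16667600)) (a (c (l 16666976) (l 16666376)) (c (l 16666696) (l 16666088)))) (c (a (l 16667320) (l 16667040)) (a (c (l 16666408) (l 16665808)) (c (l 16666128) (l 16665520))))))), by decide +kernel⟩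

def k155_B00pm_101_s1 : ∃ t, chk3 f_B00pm_101_s1 t 302 8191 6 = true :=
  ⟨(b (a (c (a (c (a (l 16671536) (l 16671264)) (a (l 16670360) (l 16670080))) (c (a (l 16670992) (l 16670712)) (a (l 16669800) (l 16669528)))) (a (c (a (l 16669176) (l 16668896)) (a (c (l 16668288) (l 16667696)) (c (l 16668008) (l 16667416)))) (c (a (l 16668616) (l 16668336)) (a (c (l 16667728) (l 16667128)) (c (l 16667440) (l 16666848)))))) (c (a (c (a (l 16670440) (l 16670168)) (a (l 16669248) (l 16668968))) (c (a (l 16669888) (l 16669616)) (a (l 16668688) (l 16668416)))) (a (c (a (l 16668056) (l 16667776)) (a (c (l 16667160) (l 16666560)) (c (l 16666880) (l 16666280)))) (c (a (l 16667496) (l 16667216)) (a (c (l 16666592) (l 16665992)) (c (l 16666312) (l 16665712))))))) (a (a (c (c (a (l 16671648) (l 16671368)) (a (l 16670472) (l 16670192))) (c (a (l 16669296) (l 16669016)) (c (a (l 16668416) (l 16668128)) (a (l 16667824) (l 16667544))))) (c (c (a (l 16671096) (l 16670824)) (a (l 16669912) (l 16669640))) (c (a (l 16668736)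 (l 16668456)) (c (a (l 16667848) (l 16667568)) (a (l 16667256) (l 16666976)))))) (c (a (c (a (l 16670544) (l 16670272)) (a (l 16669360) (l 16669080))) (c (a (l 16669992) (l 16669720)) (a (l 16668800) (l 16668528)))) (a (c (a (l 16668176) (l 16667888)) (c (a (l 16667280) (l 16667000)) (a (l 16666688) (l 16666408)))) (c (a (l 16667608) (b (l 16667304) (l 16667360))) (c (a (l 16666720) (l 16666432)) (a (l 16666120) (l 16665840)))))))), by decide +kernel⟩

def k156_B00pm_101_s1 : ∃ t, chk3 f_B00pm_101_s1 t 302 4095 7 = true :=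
  ⟨(b (c (a (c (c (a (a (l 16666912) (l 16666632)) (a (l 16666344) (l 22))) (l 22)) (l 22)) (l 22)) (l 22)) (c (c (c (a (a (a (l 16667176) (l 16666888)) (a (l 16666600) (l 22))) (l 22)) (l 22)) (l 22)) (l 22))), by decide +kernel⟩

def k157_B00pm_101_s1 : ∃ t, chk3 f_B00pm_101_s1 t 303 4094 3 = true :=
  ⟨(c (a (a (c (c (a (l 16668864) (l 16668592)) (a (l 16667640) (l 16667360))) (c (a (c (l 16666712) (l 16666096)) (c (l 16666432) (l 16665816))) (c (a (l 16665480) (l 16665200)) (l 22)))) (c (c (a (l 16668320) (l 16668048)) (a (l 16667080) (l 16666808))) (c (a (c (l 16666152) (l 16665536)) (c (l 16665872) (l 16665256))) (c (a (l 16664920) (l 16664640)) (l 22))))) (a (c (c (a (l 16667768) (l 16667496)) (a (l 16666528) (l 16666248))) (c (a (c (l 16665600) (l 16664976)) (c (l 16665320) (l 16664696))) (a (c (l 16664352) (l 22)) (l 22)))) (c (c (a (l 16667216) (l 16666944)) (a (l 16665976) (l 16665696))) (c (a (c (l 16665040) (l 16664416)) (c (l 16664760) (l 16664136))) (l 22))))) (l 22)), by decide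 +kernel⟩

def k158_B00pm_101_s1 : ∃ t, chk3 f_B00pm_101_s1 t 303 8190 6 = true :=
  ⟨(a (c (a (c (a (l 16669184) (l 16668904)) (a (l 16667968) (l 16667688))) (c (a (l 16668632) (l 16668352)) (a (l 16667416) (l 16667136)))) (a (c (a (l 16666752) (l 16666472)) (c (a (l 16665848) (l 16665560)) (l 22))) (c (a (l 16666192) (c (l 16666216) (l 16665608))) (c (a (l 16665280) (l 16665000)) (l 22))))) (c (a (c (a (l 16668080) (l 16667808)) (a (l 16666856) (l 16666576))) (c (a (l 16667528) (l 16667256)) (a (l 16666304) (l 16666024)))) (a (c (a (c (l 16665936) (l 16665328)) (c (l 16665656) (l 16665048))) (a (c (l 16664712) (l 22)) (l 22))) (c (a (c (l 16665376) (l 16664768)) (c (l 16665096) (l 16664480))) (l 22))))), by decide +kernel⟩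

def k159_B00pm_101_s1 : ∃ t, chk3 f_B00pm_101_s1 t 303 8191 6 = true :=
  ⟨(a (b (c (a (c (a (l 16669336) (l 16669064)) (a (l 16668136) (l 16667856))) (c (a (l 16668784) (l 16668512)) (a (l 16667576) (l 16667304)))) (a (c (a (l 16666928) (l 16666648)) (c (a (l 16666032) (l 16665744)) (l 22))) (c (a (l 16666368) (l 16666088)) (c (a (l 16665464) (l 16665176)) (l 22))))) (c (a (c (a (l 16669440) (l 16669168)) (a (l 16668248) (l 16667968))) (c (a (l 16668896) (l 16668616)) (a (l 16667688) (l 16667408)))) (a (c (a (b (l 16667016) (l 16667080)) (b (l 16666736) (l 16666800))) (c (a (l 16666152) (l 16665864)) (l 22))) (c (a (a (l 16666552) (l 16666416)) (a (l 16666272) (l 16666136))) (c (a (l 16665584) (l 16665304)) (l 22)))))) (b (c (a (c (a (l 16668240) (l 16667960)) (a (l 16667024) (l 16666744))) (c (a (l 16667688) (l 16667408)) (a (l 16666464) (l 16666184)))) (a (c (a (c (l 16666112) (l 16665504)) (c (l 16665832) (l 16665224))) (a (c (l 16664896) (l 22)) (l 22))) (c (a (c (l 16665552) (l 16664936))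 (c (l 16665272) (l 16664656))) (l 22)))) (c (a (c (a (l 16668344) (l 16668064)) (a (l 16667136) (l 16666856))) (c (a (l 16667792) (l 16667512)) (a (l 16666576) (l 16666296)))) (a (c (c (a (l 16666224) (l 16665944)) (a (l 16665624) (l 16665336))) (a (c (l 16665016) (l 22)) (l 22))) (c (c (a (l 16665664) (l 16665384)) (a (l 16665056) (l 16664776))) (l 22)))))), by decide +kernel⟩

def k160_B00pm_101_s1 : ∃ t, chk3 f_B00pm_101_s1 t 303 4095 7 = true :=
  ⟨(l 22), by decide +kernel⟩

def k161_B00pm_101_s1 : ∃ t, chk3 f_B00pm_101_s1 t 19 14 1 = true :=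
  ⟨(l 6), by decide +kernel⟩

def k162_B00pm_101_s1 : ∃ t, chk3 f_B00pm_101_s1 t 19 30 1 = true :=
  ⟨(l 6), by decide +kernel⟩

def k163_B00pm_101_s1 : ∃ t, chk3 f_B00pm_101_s1 t 19 62 1 = true :=
  ⟨(a (a (b (l 6) (l 6)) (l 6)) (l 6)), by decide +kernel⟩

def k164_B00pm_101_s1 : ∃ t, chk3 f_B00pm_101_s1 t 152 126 1 = true :=
  ⟨(c (b (a (c (b (l 16640552) (b (l 16641608) (l 16642336))) (b (l 16641184) (c (l 16635056) (l 16630392)))) (c (b (l 16638824) (l 16645440)) (b (l 16639416) (c (l 16633248) (l 16628560))))) (a (c (b (a (l 16643864) (l 16642960)) (a (l 16650712) (l 16649784))) (b (a (l 16645744) (l 16644808)) (a (a (l 16648208) (l 16647728)) (b (l 16656944) (l 16647592))))) (c (b (b (l 16641280) (l 16647272)) (a (l 16648848) (l 16647912))) (b (a (l 16643872) (l 16642936)) (a (b (l 16655992) (l 16646624)) (b (l 16655032) (l 16645656))))))) (b (a (c (b (c (l 16623184) (l 16597136)) (a (l 16623720) (l 16622792))) (b (a (l 16625136) (l 16609664)) (a (l 16635120) (l 16634168)))) (c (b (l 16639816)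 (a (l 16621856) (l 16620920))) (b (l 16629120) (a (l 16619552) (l 16604248))))) (a (c (b (a (a (l 16637216) (l 16636736)) (a (l 16636256) (l 16625296))) (a (c (l 16641936) (l 16627376)) (c (l 16630464) (l 16626376)))) (b (a (l 16638584) (l 16637600)) (a (c (l 16623272) (l 16640104)) (c (l 16622256) (l 16639080))))) (c (b (a (l 16635072) (l 16634112)) (a (b (l 16637192) (l 16638648)) (b (l 16636208) (l 16637640)))) (b (a (l 16636616) (l 16629600)) (a (c (l 16642216) (l 16630888)) (c (l 16641200) (l 16614976)))))))), by decide +kernel⟩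

def k165_B00pm_101_s1 : ∃ t, chk3 f_B00pm_101_s1 t 153 126 1 = true :=
  ⟨(c (b (b (a (c (l 16637088) (l 16627152)) (l 6)) (a (c (l 16643656) (c (l 16631432) (l 16626720))) (c (l 16636624) (l 16637728)))) (a (c (b (b (l 16639464) (l 16645432)) (a (l 16646976) (l 16646040))) (b (a (l 16642000) (l 16630576)) (a (b (l 16654072) (l 16644680)) (a (l 16643392) (l 16642912))))) (c (b (b (l 16637640) (l 16638336)) (a (l 16645104) (l 16644160))) (b (a (l 16629632) (l 16628680)) (a (l 16642200) (l 16641224)))))) (b (b (a (c (l 16638000) (l 16600272)) (l 6)) (a (c (c (l 16621968) (l 16638152)) (a (l 16589304) (l 16574696))) (c (l 16638672) (c (l 16591944) (l 16515064))))) (a (c (b (a (l 16633144) (l 16632176)) (a (b (l 16645704) (l 16636640)) (b (l 16644712) (l 16635640)))) (b (a (l 16614112) (l 16619960)) (c (a (l 16640184) (l 16639168)) (a (l 16599432) (l 16584256))))) (c (b (a (l 16620720) (l 16619752)) (a (b (l 16643728) (l 16634632)) (b (l 16642728) (l 16633624)))) (b (c (l 16615872) (l 16538176))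 (c (a (l 16638144) (l 16632912)) (a (l 16569416) (l 16554920)))))))), by decide +kernel⟩

def k166_B00pm_101_s1 : ∃ t, chk3 f_B00pm_101_s1 t 77 126 1 = true :=
  ⟨(c (a (b (a (a (c (l 16634600) (l 16635376)) (l 6)) (l 6)) (a (c (b (l 16646632) (a (l 16643216) (l 16642272))) (b (a (l 16627736) (l 16626784)) (a (l 16640256) (l 16639280)))) (c (b (l 16644784) (a (l 16636080) (l 16635136))) (b (c (l 16627640) (l 16623168)) (a (l 16638304) (l 16637320)))))) (b (l 6) (b (a (c (l 16642920) (c (l 16625744) (l 16621240))) (l 6)) (a (c (a (l 16634184) (l 16633232)) (a (l 16636344) (l 16635360))) (c (a (l 16632272) (l 16631320)) (a (l 16634368) (l 16633384))))))) (b (a (a (a (c (l 16635976) (l 16626624)) (l 6)) (l 6)) (l 6)) (a (a (c (b (a (l 16639752) (l 16638776)) (c (a (l 16644512) (l 16643512)) (l 16639864))) (b (c (l 16586712) (l 16510824)) (c (l 16631440) (l 16617712)))) (c (b (a (l 16637800) (l 16636816)) (a (l 16640408) (l 16639400))) (b (c (l 16558840) (l 16484672)) (c (l 16623568) (l 16506744)))))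 (c (a (b (a (l 16635832) (l 16634368)) (c (l 16640048) (l 16627512))) (b (l 6) (c (l 16638032) (l 16599480)))) (a (b (c (l 16532168) (l 16459672)) (c (l 16554040) (l 16480840))) (b (l 6) (c (l 16527640) (l 16456056)))))))), by decide +kernel⟩

def k167_B00pm_101_s1 : ∃ t, chk3 f_B00pm_101_s1 t 152 254 2 = true :=
  ⟨(b (a (c (a (c (l 16669944) (a (l 16666536) (l 16666056))) (b (l 16666752) (c (l 16669384) (l 16665816)))) (a (c (b (l 16662096) (l 16663216)) (l 16648488)) (c (b (l 16661128) (l 16662232)) (l 16647496)))) (c (a (b (l 16665800) (c (l 16668432) (l 16664848))) (b (l 16664848) (c (l 16667480) (l 16663880)))) (a (b (l 16647768) (c (l 16661240) (l 16657608))) (b (l 16646784) (c (l 16660256) (l 16656608)))))) (a (c (a (b (c (l 16671152) (l 16667760)) (c (l 16671984) (l 16668768))) (b (c (l 16670184) (l 16666784)) (c (l 16671008) (l 16667768)))) (a (c (b (l 16664360) (a (l 16665768) (l 16665264))) (b (a (l 16661168) (l 16660664)) (a (l 16662520) (l 16662008)))) (c (b (l 16663360) (a (l 16664760)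 (l 16664248))) (b (a (l 16660160) (l 16659648)) (a (l 16661488) (l 16660976)))))) (b (c (c (a (l 16669224) (l 16668256)) (a (l 16665800) (l 16664816))) (c (a (l 16662360) (l 16661360)) (a (l 16658896) (l 16657880)))) (c (c (a (l 16670040) (l 16669056)) (a (l 16666776) (l 16665784))) (c (a (a (l 16663744) (l 16663240)) (a (l 16662736) (l 16662224))) (a (a (l 16660464) (l 16659944)) (l 16648696))))))), by decide +kernel⟩

def k168_B00pm_101_s1 : ∃ t, chk3 f_B00pm_101_s1 t 152 254 3 = true :=
  ⟨(a (c (b (a (c (c (l 16645712) (l 16643856)) (a (l 16641296) (l 16640784))) (c (c (l 16644704) (l 16642840)) (c (l 16640968) (l 16639088)))) (a (c (b (l 16647000) (c (l 16649344) (l 16647704))) (b (l 16643536) (a (l 16655976) (l 16655448)))) (c (b (l 16645968) (b (l 16657584) (l 16647856))) (b (l 16642488) (a (l 16654912) (l 16654376)))))) (b (b (a (a (l 16639960) (l 16639440)) (a (l 16638920) (l 16643640))) (l 22)) (l 22))) (c (c (b (a (c (l 16643696) (l 16641824)) (l 16641744)) (a (b (l 16644936) (b (l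 16656536) (l 16646800))) (b (l 16643896) (b (l 16655488) (l 16645752))))) (b (b (a (l 16648688) (l 16647664)) (l 22)) (l 22))) (b (b (b (a (l 16642408) (l 16641368)) (l 22)) (l 22)) (l 22)))), by decide +kernel⟩

def k169_B00pm_101_s1 : ∃ t, chk3 f_B00pm_101_s1 t 153 254 1 = true :=
  ⟨(c (b (a (c (a (c (l 16666152) (l 16662456)) (c (l 16665200) (l 16661488))) (a (b (l 16645800) (b (l 16646656) (l 16647240))) (b (l 16644816) (c (l 16658272) (l 16654592))))) (c (a (c (l 16664248) (l 16660512)) (c (l 16663288) (l 16659544))) (a (c (l 16646272) (l 16642496)) (c (l 16645280) (l 16641488))))) (a (c (a (b (c (l 16667288) (l 16663832)) (c (l 16668080) (l 16664784))) (b (c (l 16666320) (l 16662848)) (c (l 16667104) (l 16663784)))) (c (b (a (l 16660352) (l 16659352)) (a (a (l 16661720) (l 16661208)) (a (l 16660704) (l 16660192)))) (a (b (l 16656856) (l 16647664)) (b (l 16655840) (l 16646632))))) (c (a (b (c (l 16665352) (l 16661856)) (c (l 16666120) (l 16662784))) (b (c (l 16664376) (l 16660864)) (c (l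 16665136) (l 16661784)))) (c (b (a (l 16658344) (l 16657336)) (a (l 16659440) (l 16658416))) (a (b (l 16654816) (l 16645592)) (b (l 16653792) (l 16644552))))))) (a (c (c (b (a (l 16640728) (l 16639712)) (a (b (l 16642856) (b (l 16654440) (l 16655176))) (b (l 16652304) (b (l 16653392) (l 16654120))))) (b (a (l 16636936) (l 16635904)) (l 22))) (b (b (c (l 16642264) (l 16632184)) (l 22)) (l 22))) (c (b (a (c (l 16638688) (l 16634864)) (c (l 16637672) (l 16633832))) (a (c (b (l 16651264) (l 16642216)) (l 22)) (l 22))) (b (b (a (l 16638376) (l 16633512)) (l 22)) (l 22))))), by decide +kernel⟩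

def k170_B00pm_101_s1 : ∃ t, chk3 f_B00pm_101_s1 t 77 254 2 = true :=
  ⟨(a (b (b (a (c (c (l 16640584) (l 16641968)) (a (l 16641840) (l 16640848))) (c (c (l 16638664) (l 16640024)) (a (l 16639848) (l 16638848)))) (a (c (c (l 16646520) (a (l 16658992) (l 16658016))) (a (l 16642936) (l 16641928))) (c (c (l 16644584) (a (l 16657032) (l 16656040))) (a (l 16640920) (l 16639912))))) (a (c (a (b (c (l 16663408) (l 16659872)) (c (l 16664152) (l 16660784))) (b (c (l 16662432) (l 16658880)) (c (l 16663160) (l 16659776)))) (a (c (b (l 16656328) (l 16657400)) (b (l 16652760) (l 16643512))) (c (b (l 16655312) (l 16656376)) (b (l 16651728) (l 16642472))))) (c (a (b (c (l 16661448) (l 16657888)) (c (l 16662176) (l 16658768))) (b (c (l 16660472) (l 16656888)) (c (l 16661184) (l 16657760)))) (a (c (b (l 16654304) (l 16655344)) (b (l 16650704) (l 16641424))) (c (b (l 16653288) (l 16654320)) (b (l 16649664) (l 16640376))))))) (b (a (c (a (b (l 16656208) (l 16656936)) (b (l 16655232) (l 16655952))) (a (b (l 16637848)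 (l 16638896)) (c (l 16649792) (l 16624928)))) (c (a (b (l 16654264) (l 16654968)) (l 16643152)) (a (c (l 16648792) (l 16623912)) (b (l 16645320) (l 16635840))))) (a (c (a (b (c (l 16659488) (l 16655888)) (c (l 16660192) (l 16656744))) (b (c (l 16658504) (l 16654888)) (c (l 16659200) (l 16655736)))) (a (c (b (l 16652272) (l 16653288)) (b (l 16648632) (l 16639328))) (c (b (l 16651248) (l 16652256)) (l 22)))) (c (a (c (b (l 16657520) (l 16658200)) (l 16643816)) (c (b (l 16656528) (l 16657200)) (l 16642800))) (c (a (b (l 16650232) (l 16651224)) (b (l 16649208) (l 16650184))) (l 22)))))), by decide +kernel⟩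

def k171_B00pm_101_s1 : ∃ t, chk3 f_B00pm_101_s1 t 77 254 3 = true :=
  ⟨(a (b (b (a (c (a (l 16634008) (l 16632984)) (c (l 16628816) (l 16551648))) (c (c (l 16633472) (l 16639976)) (c (l 16599240) (l 16523840)))) (l 22)) (l 22)) (b (b (b (a (b (c (l 16639400) (l 16613752)) (l 22)) (c (l 16637496) (l 16589008))) (l 22)) (l 22)) (l 22))), by decide +kernel⟩

def k172_B00pm_101_s1 : ∃ t, chk3 f_B00pm_101_s1 t 152 510 2 = true :=
  ⟨(a (c (a (c (b (l 16672840) (a (l 16673960) (l 16673464))) (b (a (l 16670032) (l 16669528)) (a (l 16671088) (l 16670576)))) (b (c (l 16671856) (a (l 16669024) (l 16668520))) (c (a (l 16672968) (l 16672472)) (a (l 16670072) (l 16669560))))) (b (c (a (a (l 16666968) (l 16666456)) (a (l 16665944) (l 16665432))) (a (a (l 16663896) (l 16663376)) (a (l 16662856) (l 16662336)))) (b (c (a (a (l 16667888) (l 16667376)) (a (l 16666856) (l 16666344))) (a (a (l 16664952) (l 16664424)) (a (l 16663904) (l 16663376)))) (c (a (a (l 16668512) (l 16667992)) (a (l 16667472) (l 16666952)))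 (a (a (l 16665664) (l 16665136)) (a (l 16664608) (l 16664080))))))) (c (a (b (c (l 16670872) (a (l 16668024) (l 16667520))) (c (a (l 16671968) (l 16671472)) (a (l 16669056) (l 16668544)))) (b (c (l 16669888) (a (l 16667016) (l 16666512))) (c (a (l 16670976) (l 16670472)) (a (l 16668040) (l 16667528))))) (b (c (a (a (l 16664920) (l 16664408)) (a (l 16663896) (l 16663384))) (c (a (a (l 16662592) (l 16662072)) (a (l 16661552) (l 16661032))) (a (b (l 16660432) (l 16661136)) (l 16649248)))) (b (c (a (a (l 16665824) (l 16665304)) (a (l 16664792) (l 16664272))) (a (a (l 16662848) (l 16662320)) (a (l 16661792) (l 16661264)))) (c (a (a (l 16666432) (l 16665912)) (a (l 16665392) (l 16664872))) (a (a (l 16663544) (l 16663016)) (a (l 16662488) (l 16661952)))))))), by decide +kernel⟩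

def k173_B00pm_101_s1 : ∃ t, chk3 f_B00pm_101_s1 t 152 510 3 = true :=
  ⟨(a (c (b (a (a (c (b (l 16660424) (l 16661208)) (b (l 16657280) (l 16658160))) (c (b (l 16659896) (l 16660680)) (b (l 16656744) (l 16657616)))) (a (c (b (l 16659360) (l 16660144)) (b (l 16656200) (l 16657072))) (c (b (l 16658832) (l 16659608)) (b (l 16655664) (l 16656528))))) (b (a (a (c (l 16662008) (c (l 16659784) (l 22))) (c (l 16661472) (c (l 16659248) (l 22)))) (a (c (l 16660936) (c (l 16658704) (l 22))) (c (l 16660400) (c (l 16658160) (l 22))))) (a (a (c (c (l 16663528) (l 16662096)) (c (l 16660664) (l 22))) (c (c (l 16662984) (l 16661552)) (c (l 16660112) (l 22)))) (a (c (c (l 16662448) (l 16661008)) (c (l 16659568) (l 22))) (c (c (l 16661912) (l 16660464)) (c (l 16659024) (l 22))))))) (l 22)) (c (c (c (a (a (b (l 16659472) (l 16660992)) (b (l 16658944) (l 16660456))) (a (b (l 16658416) (l 16659920)) (b (l 16657880) (l 16659376)))) (a (a (b (l 16657912) (l 16659520)) (b (l 16657376) (l 16658976))) (a (b (l 16656840)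 (l 16658432)) (b (l 16656304) (l 16657888))))) (l 22)) (l 22))), by decide +kernel⟩

def k174_B00pm_101_s1 : ∃ t, chk3 f_B00pm_101_s1 t 153 510 1 = true :=
  ⟨(c (a (c (a (b (c (l 16668896) (a (l 16666008) (l 16665504))) (c (a (l 16669976) (l 16669472)) (a (l 16667016) (l 16666504)))) (b (c (l 16667904) (a (l 16665000) (l 16664488))) (c (a (l 16668968) (l 16668472)) (a (l 16665992) (l 16665480))))) (a (a (c (b (l 16662872) (b (l 16663752) (l 16664352))) (b (l 16659720) (b (l 16660736) (l 16661424)))) (c (b (l 16662352) (b (l 16663232) (l 16663832))) (b (l 16659200) (b (l 16660208) (l 16660888))))) (a (c (b (l 16661840) (b (l 16662712) (l 16663304))) (b (l 16658672) (b (l 16659680) (l 16660360)))) (c (b (l 16661328) (b (l 16662192) (l 16662784))) (b (l 16658152) (b (l 16659144) (l 16659824))))))) (c (a (b (c (l 16666912) (a (l 16663984) (l 16663480))) (c (a (l 16667968) (l 16667464)) (a (l 16664968) (l 16664456)))) (b (c (l 16665920) (a (l 16662968) (l 16662464))) (c (a (l 16666960) (l 16666456))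 (a (l 16663944) (l 16663432))))) (a (a (c (b (l 16660808) (b (l 16661672) (l 16662256))) (b (l 16657624) (b (l 16658616) (l 16659288)))) (b (c (l 16660296) (l 16657096)) (c (b (l 16661152) (l 16661736)) (b (l 16658088) (l 16658752))))) (a (b (c (l 16659776) (l 16656568)) (c (b (l 16660632) (l 16661208)) (b (l 16657552) (l 16658224)))) (b (c (l 16659264) (l 16656048)) (c (b (l 16660112) (l 16660688)) (b (l 16657024) (l 16657688)))))))) (a (c (c (c (a (a (b (l 16657352) (l 16658840)) (b (l 16656824) (l 16658304))) (a (b (l 16656288) (l 16657768)) (b (l 16655760) (l 16657224)))) (c (a (a (b (l 16656168) (l 16657720)) (l 22)) (l 22)) (l 22))) (l 22)) (l 22)) (c (a (c (c (b (l 16644488) (a (l 16656688) (l 16656144))) (l 22)) (l 22)) (l 22)) (l 22)))), by decide +kernel⟩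

def k175_B00pm_101_s1 : ∃ t, chk3 f_B00pm_101_s1 t 152 1022 2 = true :=
  ⟨(a (c (a (c (a (l 16674872) (l 16674368)) (a (b (l 16671896) (l 16672448)) (b (l 16671384) (l 16671928)))) (c (a (l 16673864) (l 16673360)) (a (b (l 16670872) (l 16671416)) (b (l 16670360) (l 16670904))))) (b (a (c (a (l 16669144) (l 16668624)) (a (c (l 16667080) (l 16665696)) (c (l 16666544) (l 16665160)))) (c (a (l 16668104) (l 16667576)) (a (c (l 16666016) (l 16664624)) (c (l 16665488) (l 16664088))))) (a (c (a (c (l 16670448) (l 16669120)) (c (l 16669928) (l 16668592))) (a (c (l 16667784) (l 16666448)) (c (l 16667248) (l 16665912)))) (c (a (c (l 16669408) (l 16668064)) (c (l 16668880) (l 16667536))) (a (c (l 16666720) (l 16665376)) (c (l 16666184) (l 16664832))))))) (c (a (c (a (l 16672856) (l 16672352)) (a (b (l 16669848) (l 16670384)) (b (l 16669336) (l 16669872)))) (c (a (b (l 16671624) (l 16672072)) (b (l 16671120) (l 16671568))) (a (b (l 16668816) (l 16669352)) (b (l 16668304) (l 16668832))))) (b (c (a (a (l 16667056)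 (l 16666528)) (a (l 16666008) (l 16665480))) (a (a (c (l 16664952) (l 16663552)) (c (l 16664424) (l 16663016))) (a (c (l 16663888) (l 16662480)) (c (l 16663360) (l 16661944))))) (a (c (a (c (l 16668360) (l 16667000)) (c (l 16667832) (l 16666472))) (a (c (l 16665648) (l 16664296)) (c (l 16665112) (l 16663752)))) (c (a (c (l 16667304) (l 16665944)) (c (l 16666784) (l 16665416))) (a (c (l 16664576) (l 16663216)) (c (l 16664040) (l 16662672)))))))), by decide +kernel⟩

def k176_B00pm_101_s1 : ∃ t, chk3 f_B00pm_101_s1 t 152 1022 3 = true :=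
  ⟨(c (a (b (a (a (c (c (l 16664312) (l 16662928)) (c (l 16661544) (l 22))) (c (c (l 16663776) (l 16662384)) (c (l 16660992) (l 22)))) (c (c (a (l 16663232) (l 16662696)) (a (l 16661840) (l 16661296))) (c (a (l 16660448) (l 16659896)) (l 22)))) (a (a (c (c (l 16665112) (a (l 16663912) (l 16663640))) (c (a (l 16662576) (l 16662296)) (l 22))) (c (c (l 16664568) (a (l 16663360) (l 16663088))) (c (a (l 16662024) (l 16661744)) (l 22)))) (a (c (c (l 16664024) (b (l 16662472) (l 16662888))) (c (b (l 16661112) (l 16661552)) (l 22))) (c (c (l 16663480) (b (l 16661920) (l 16662336))) (c (b (l 16660552) (l 16661000)) (l 22)))))) (c (c (b (a (a (l 16662152) (l 16661608)) (a (l 16661064) (l 16660528))) (a (a (l 16662936) (l 16662392)) (a (l 16661848) (l 16661296)))) (b (a (a (l 16660744) (l 16660200)) (a (l 16659656) (l 16659104))) (a (a (b (l 16661368) (l 16661792)) (b (l 16660824) (l 16661240))) (a (b (l 16660272) (l 16660688)) (b (l 16659720) (l 16660136)))))) (l 22))) (l 22)), by decide +kernel⟩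

def k177_B00pm_101_s1 : ∃ t, chk3 f_B00pm_101_s1 t 153 1022 2 = true :=
  ⟨(c (a (b (a (c (a (l 16670616) (l 16670112)) (a (l 16667792) (l 16667272))) (c (a (l 16669608) (l 16669104)) (a (l 16666760) (l 16666248)))) (a (c (a (l 16671056) (l 16670552)) (a (l 16668320) (l 16667800))) (c (a (l 16670040) (l 16669536)) (a (l 16667280) (l 16666760))))) (b (a (c (a (l 16668600) (l 16668088)) (a (l 16665728) (l 16665208))) (c (a (l 16667584) (l 16667080)) (a (l 16664696) (l 16664176)))) (a (c (a (l 16669024) (l 16668520)) (a (l 16666240) (l 16665720))) (c (a (l 16668008) (l 16667496)) (a (l 16665200) (l 16664680)))))) (a (b (c (a (a (l 16664960) (l 16664432)) (a (l 16663904) (l 16663376))) (a (c (a (l 16662824) (l 16662296)) (a (l 16661408) (l 16660864))) (c (a (l 16661760) (l 16661224)) (a (l 16660328) (l 16659792))))) (c (a (a (c (l 16666256) (l 16664880)) (c (l 16665728) (l 16664352))) (a (c (l 16665208) (l 16663824)) (c (l 16664680) (l 16663288)))) (a (a (c (l 16663504) (l 16662128)) (c (l 16662968)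 (l 16661592))) (c (a (l 16662432) (l 16661896)) (a (l 16661048) (l 16660504)))))) (b (c (a (a (l 16662856) (l 16662328)) (a (l 16661800) (l 16661272))) (a (b (a (l 16659800) (l 16659264)) (a (l 16660144) (l 16659608))) (b (a (l 16658728) (l 16658192)) (a (l 16659064) (l 16658528))))) (c (a (a (c (l 16664152) (l 16662752)) (c (l 16663624) (l 16662224))) (a (c (l 16663096) (l 16661688)) (c (l 16662568) (l 16661160)))) (c (a (a (l 16661360) (l 16660824)) (a (l 16660280) (l 16659744))) (a (a (l 16659960) (l 16659416)) (a (l 16658872) (l 16658328)))))))), by decide +kernel⟩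

def k178_B00pm_101_s1 : ∃ t, chk3 f_B00pm_101_s1 t 153 1022 3 = true :=
  ⟨(a (c (c (c (b (a (a (l 16659984) (l 16659440)) (a (l 16658896) (l 16658352))) (a (a (l 16660752) (l 16660208)) (a (l 16659656) (l 16659112)))) (a (a (b (l 16658560) (b (l 16659168) (l 16659576))) (l 22)) (l 22))) (l 22)) (l 22)) (c (c (c (a (b (a (l 16657808) (l 16657264)) (a (l 16658560) (l 16658016))) (l 22)) (l 22)) (l 22)) (l 22))), by decide +kernel⟩

def k179_B00pm_101_s1 : ∃ t, chk3 f_B00pm_101_s1 t 152 2046 2 = true :=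
  ⟨(a (c (a (c (a (l 16675576) (l 16675064)) (a (c (l 16673648) (l 16672360)) (c (l 16673128) (l 16671840)))) (c (a (l 16674560) (l 16674048)) (a (c (l 16672616) (l 16671320)) (c (l 16672096) (l 16670800))))) (a (c (a (c (l 16671072) (l 16669784)) (c (l 16670552) (l 16669256))) (a (c (l 16668504) (a (l 16667344) (l 16667072))) (c (l 16667960) (a (l 16666800) (l 16666528))))) (c (a (c (l 16670024) (l 16668728)) (c (l 16669496) (l 16668192))) (a (c (l 16667424) (b (l 16665936) (l 16666320))) (c (b (l 16666712) (l 16667064)) (b (l 16665392) (l 16665776))))))) (c (a (c (a (l 16673544) (l 16673032)) (a (c (l 16671584) (l 16670272)) (c (l 16671064) (l 16669752)))) (c (a (l 16672520) (l 16672016)) (a (c (l 16670552) (l 16669232)) (c (l 16670032) (l 16668712))))) (a (c (a (c (l 16668968) (l 16667656)) (c (l 16668440) (l 16667128))) (a (c (b (l 16666176) (l 16666528)) (b (l 16664856) (l 16665232))) (c (b (l 16665640) (l 16665992)) (b (l 16664312) (l 16664688))))) (c (a (c (l 16667912) (l 16666592)) (c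 (l 16667384) (l 16666064))) (a (c (b (l 16665096) (l 16665448)) (b (l 16663768) (l 16664144))) (c (b (l 16664560) (l 16664912)) (b (l 16663224) (l 16663592)))))))), by decide +kernel⟩

def k180_B00pm_101_s1 : ∃ t, chk3 f_B00pm_101_s1 t 152 4094 2 = true :=
  ⟨(c (a (a (c (a (l 16675928) (l 16675416)) (a (l 16673424) (l 16672904))) (c (a (l 16674912) (l 16674400)) (a (l 16672384) (l 16671864)))) (a (c (a (l 16673888) (l 16673376)) (a (l 16671344) (c (l 16671456) (l 16670184)))) (c (a (l 16672864) (l 16672352)) (a (c (l 16670944) (l 16669656)) (c (l 16670424) (l 16669128)))))) (a (a (c (a (c (l 16671544) (l 16670296)) (c (l 16671016) (l 16669760))) (a (c (l 16669040) (a (l 16667920) (l 16667648))) (c (l 16668504) (a (l 16667376) (l 16667104))))) (c (a (c (l 16670488) (l 16669224)) (c (l 16669960) (l 16668696))) (a (c (l 16667960) (a (l 16666832) (l 16666560))) (c (l 16667424) (a (l 16666288) (l 16666016)))))) (a (c (a (c (l 16669432) (l 16668160)) (c (l 16668904) (l 16667624))) (a (c (l 16666880)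 (a (l 16665744) (l 16665472))) (c (l 16666344) (a (l 16665192) (l 16664920))))) (c (a (c (l 16668368) (l 16667088)) (c (l 16667840) (l 16666552))) (a (c (l 16665800) (a (l 16664648) (l 16664376))) (c (a (l 16665392) (l 16665120)) (a (l 16664104) (l 16663832)))))))), by decide +kernel⟩

def k181_B00pm_101_s1 : ∃ t, chk3 f_B00pm_101_s1 t 152 4095 4 = true :=
  ⟨(a (a (c (a (l 16676168) (l 16675656)) (a (c (l 16674320) (l 16673096)) (c (l 16673808) (l 16672568)))) (c (a (l 16675144) (l 16674632)) (a (c (l 16673288) (l 16672048)) (c (l 16672768) (l 16671520))))) (a (c (a (l 16674120) (l 16673608)) (a (c (l 16672248) (l 16670992)) (c (l 16671728) (l 16670472)))) (c (a (l 16673096) (l 16672584)) (a (c (l 16671208) (l 16669944)) (c (l 16670680) (l 16669416)))))), by decide +kernel⟩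

def k182_B00pm_101_s1 : ∃ t, chk3 f_B00pm_101_s1 t 152 4095 5 = true :=
  ⟨(a (b (a (c (a (c (l 16671784) (l 16670552)) (c (l 16671256) (l 16670016))) (a (c (l 16669312) (a (l 16668216) (l 16667936))) (c (l 16668776) (a (l 16667664) (l 16667392))))) (c (a (c (l 16670728) (l 16669480)) (c (l 16670192) (l 16668944))) (a (c (l 16668232) (a (l 16667120) (l 16666848))) (c (l 16667696) (a (l 16666576) (l 16666304)))))) (a (c (a (c (l 16671944) (l 16670720)) (c (l 16671416) (l 16670184))) (a (c (l 16669496) (a (l 16668408) (l 16668136))) (c (l 16668952) (a (l 16667864) (l 16667584))))) (c (a (c (l 16670880) (l 16669648)) (c (l 16670352) (l 16669112))) (a (c (l 16668416) (a (l 16667312) (l 16667040))) (a (c (l 16668008) (l 16666768)) (c (l 16667736) (l 16666496))))))) (b (a (c (a (c (l 16669664) (l 16668408)) (c (l 16669136) (l 16667872))) (a (c (l 16667152) (a (l 16666024) (l 16665752))) (c (l 16666608) (a (l 16665480) (l 16665208))))) (c (a (c (l 16668600) (l 16667336)) (c (l 16668072) (l 16666800)))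 (a (c (l 16666064) (a (l 16664936) (l 16664656))) (c (l 16665520) (a (l 16664384) (l 16664112)))))) (a (c (a (c (l 16669824) (l 16668576)) (c (l 16669288) (l 16668040))) (a (a (c (l 16667464) (l 16666216)) (c (l 16667192) (l 16665944))) (a (c (l 16666920) (l 16665672)) (c (l 16666648) (l 16665392))))) (c (a (c (l 16668760) (l 16667504)) (c (l 16668224) (l 16666960))) (a (a (c (l 16666376) (l 16665120)) (c (l 16666104) (l 16664848))) (a (c (l 16665832) (l 16664576)) (c (l 16665560) (l 16664296)))))))), by decide +kernel⟩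

def k183_B00pm_101_s1 : ∃ t, chk3 f_B00pm_101_s1 t 152 2046 3 = true :=
  ⟨(c (a (a (a (c (c (a (l 16666056) (l 16665784)) (a (l 16664768) (l 16664496))) (c (a (b (l 16663256) (l 16663704)) (b (l 16662976) (l 16663432))) (l 22))) (c (c (a (l 16665512) (l 16665240)) (a (l 16664216) (l 16663936))) (c (c (a (l 16663248) (l 16662968)) (l 22)) (l 22)))) (a (c (c (a (l 16664960) (l 16664688)) (a (b (l 16663448) (l 16663880)) (b (l 16663176) (l 16663600)))) (c (c (a (l 16662688) (l 16662408)) (l 22)) (l 22))) (c (a (c (l 16664416) (b (l 16662896) (l 16663320))) (c (l 16664136) (b (l 16662624) (l 16663048)))) (c (c (a (l 16662128) (l 16661856)) (l 22)) (l 22))))) (c (a (a (a (c (l 16663864) (b (l 16662344) (l 16662768))) (c (l 16663592) (b (l 16662064) (l 16662488)))) (a (c (l 16663320) (b (l 16661792) (l 16662216))) (c (l 16663040) (b (l 16661512) (l 16661936))))) (a (a (c (l 16662768) (b (l 16661240) (l 16661656))) (c (l 16662496) (b (l 16660960) (l 16661376)))) (a (c (l 16662216) (b (l 16660680) (l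 16661104))) (c (l 16661944) (b (l 16660408) (l 16660824)))))) (l 22))) (l 22)), by decide +kernel⟩

def k184_B00pm_101_s1 : ∃ t, chk3 f_B00pm_101_s1 t 304 4094 3 = true :=
  ⟨(c (a (c (a (c (a (l 16666672) (l 16666392)) (a (l 16665416) (l 16665136))) (c (a (l 16666120) (l 16665848)) (a (l 16664864) (l 16664584)))) (c (c (a (a (l 16664480) (l 16664200)) (a (l 16663920) (l 16663640))) (a (a (l 16663848) (l 16663568)) (l 22))) (l 22))) (a (c (c (a (l 16665568) (l 16665296)) (a (l 16664304) (l 16664032))) (c (c (a (l 16663360) (l 16663080)) (l 22)) (l 22))) (c (c (a (l 16665016) (l 16664744)) (a (l 16663752) (l 16663472))) (c (c (a (l 16662800) (l 16662520)) (l 22)) (l 22))))) (l 22)), by decide +kernel⟩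

def k185_B00pm_101_s1 : ∃ t, chk3 f_B00pm_101_s1 t 304 4095 3 = true :=
  ⟨(c (b (a (c (a (c (a (l 16666976) (l 16666704)) (a (l 16665744) (l 16665464))) (c (a (l 16666424) (l 16666152)) (a (l 16665184) (l 16664912)))) (c (c (a (a (l 16664816) (l 16664536)) (a (l 16664256) (l 16663976))) (a (a (l 16664200) (l 16663920)) (l 22))) (l 22))) (c (a (c (a (l 16665872) (l 16665600)) (a (l 16664632) (l 16664352))) (c (a (l 16665320) (l 16665048)) (a (l 16664072) (l 16663792)))) (c (c (a (a (l 16663696) (l 16663416)) (a (l 16663136) (l 16662856))) (l 22)) (l 22)))) (a (b (c (a (c (a (l 16667136) (l 16666856)) (a (l 16665904) (l 16665632))) (c (a (l 16666584) (l 16666304)) (a (l 16665352) (l 16665072)))) (c (c (a (a (l 16664992) (l 16664704)) (a (l 16664424) (l 16664144))) (a (a (l 16664376) (l 16664096)) (l 22))) (l 22))) (c (a (c (a (l 16667240) (l 16666960)) (a (l 16666016) (l 16665736))) (c (a (l 16666680) (l 16666408)) (a (l 16665456) (l 16665176)))) (c (c (a (a (l 16665104) (l 16664824)) (a (l 16664544)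 (l 16664256))) (a (a (l 16664496) (l 16664208)) (l 22))) (l 22)))) (b (c (a (c (a (l 16666032) (l 16665752)) (a (l 16664792) (l 16664512))) (c (a (l 16665472) (l 16665200)) (a (l 16664232) (l 16663952)))) (c (c (a (a (l 16663864) (l 16663584)) (a (l 16663304) (l 16663024))) (l 22)) (l 22))) (c (a (c (a (l 16666128) (l 16665856)) (a (l 16664904) (b (l 16664592) (l 16664648)))) (c (a (l 16665576) (l 16665304)) (a (b (l 16664312) (l 16664368)) (a (l 16664128) (l 16663992))))) (c (c (a (a (l 16663976) (l 16663696)) (a (l 16663416) (l 16663136))) (l 22)) (l 22)))))) (l 22)), by decide +kernel⟩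

def k186_B00pm_101_s1 : ∃ t, chk3 f_B00pm_101_s1 t 305 2047 3 = true :=
  ⟨(b (c (c (c (a (a (a (l 16664464) (l 16664192)) (a (l 16663920) (l 16663640))) (a (a (l 16663368) (l 16663088)) (a (l 16662816) (l 16662536)))) (a (a (a (l 16663192) (l 16662912)) (a (c (l 16662960) (l 16662320)) (c (l 16662680) (l 16662040)))) (c (a (a (l 16662400) (l 16662120)) (a (l 16661848) (l 16661568))) (a (a (l 16661760) (l 22)) (l 22))))) (l 22)) (l 22)) (c (b (c (a (a (c (a (l 16664768) (l 16664496)) (a (l 16663512) (l 16663232))) (c (a (l 16664216) (l 16663944)) (a (c (l 16663272) (l 16662640)) (c (l 16662992) (l 16662360))))) (a (c (a (l 16663664) (l 16663392)) (a (c (l 16662712) (l 16662080)) (c (l 16662432) (l 22)))) (c (a (l 16663112) (l 16662832)) (c (a (l 16662160) (l 16661880)) (l 22))))) (l 22)) (c (b (a (a (c (a (l 16664920) (l 16664648)) (a (l 16663672) (l 16663392))) (c (a (l 16664368) (l 16664096)) (a (c (l 16663432) (l 16662800)) (c (l 16663152) (l 16662520))))) (a (c (a (l 16663816) (l 16663536))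 (a (c (l 16662872) (l 16662240)) (c (l 16662592) (l 22)))) (c (a (l 16663264) (l 16662984)) (c (a (l 16662312) (l 16662032)) (l 22))))) (a (a (c (a (l 16665024) (l 16664744)) (a (a (l 16663856) (l 16663712)) (a (l 16663576) (l 16663432)))) (c (a (l 16664472) (l 16664192)) (c (a (l 16663536) (l 16663256)) (a (l 16662912) (l 16662632))))) (a (c (a (l 16663920) (l 16663640)) (c (a (l 16662976) (l 16662696)) (a (l 16662352) (l 22)))) (c (a (l 16663360) (l 16663088)) (c (a (l 16662416) (l 16662136)) (l 22)))))) (l 22))) (l 22))), by decide +kernel⟩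

def k187_B00pm_101_s1 : ∃ t, chk3 f_B00pm_101_s1 t 153 2046 2 = true :=
  ⟨(c (a (a (c (a (l 16671504) (l 16670992)) (a (c (l 16669512) (l 16668184)) (c (l 16668992) (l 16667664)))) (c (a (l 16670480) (l 16669976)) (a (c (l 16668480) (l 16667136)) (c (l 16667960) (l 16666616))))) (a (c (a (l 16669464) (l 16668952)) (a (c (l 16667440) (l 16666088)) (c (l 16666920) (l 16665560)))) (c (a (l 16668440) (l 16667920)) (a (c (l 16666400) (l 16665040)) (c (l 16665880) (l 16664512)))))) (a (c (a (a (c (l 16666856) (l 16665528)) (c (l 16666328) (l 16664992))) (a (c (l 16665800) (l 16664456)) (c (l 16665264) (l 16663920)))) (a (a (c (b (l 16664024) (l 16664368)) (b (l 16662680) (l 16663048))) (c (b (l 16663480) (l 16663832)) (b (l 16662136) (l 16662504)))) (c (a (b (l 16662944) (l 16663288)) (b (l 16662408) (l 16662744))) (a (b (l 16661592) (l 16661960)) (a (l 16661360) (l 16661088)))))) (c (a (a (c (l 16664736) (l 16663384)) (c (l 16664208) (l 16662848))) (a (c (l 16663680) (l 16662312)) (c (l 16663144)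 (l 16661776)))) (c (a (a (b (l 16661864) (l 16662208)) (b (l 16661328) (l 16661664))) (a (b (l 16660784) (l 16661120)) (b (l 16660240) (l 16660576)))) (c (a (a (l 16661024) (l 16660472)) (a (l 16659928) (l 16659384))) (a (a (l 16660344) (l 16659800)) (a (b (l 16659064) (l 16659432)) (b (l 16658520) (l 16658880))))))))), by decide +kernel⟩

def k188_B00pm_101_s1 : ∃ t, chk3 f_B00pm_101_s1 t 153 2047 4 = true :=
  ⟨(b (a (a (c (a (l 16671840) (l 16671328)) (a (c (l 16669904) (l 16668608)) (c (l 16669384) (l 16668080)))) (c (a (l 16670816) (l 16670304)) (a (c (l 16668856) (l 16667552)) (c (l 16668336) (l 16667024))))) (a (c (a (l 16669792) (l 16669280)) (a (c (l 16667816) (l 16666496)) (c (l 16667296) (l 16665976)))) (c (a (l 16668760) (l 16668248)) (a (c (l 16666768) (l 16665448)) (c (l 16666248) (l 16664912)))))) (a (a (c (a (l 16672072) (l 16671560)) (a (c (l 16670160) (l 16668888)) (c (l 16669640) (l 16668360)))) (c (a (l 16671040) (l 16670528)) (a (c (l 16669120) (l 16667832)) (c (l 16668592)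 (l 16667304))))) (a (c (a (l 16670016) (l 16669496)) (a (c (l 16668072) (l 16666776)) (c (l 16667544) (l 16666248)))) (c (a (c (l 16669632) (l 16668328)) (c (l 16669120) (l 16667808))) (a (c (l 16667024) (l 16665720)) (c (l 16666496) (l 16665192))))))), by decide +kernel⟩

def k189_B00pm_101_s1 : ∃ t, chk3 f_B00pm_101_s1 t 153 4094 5 = true :=
  ⟨(a (a (c (a (c (l 16667312) (l 16666016)) (c (l 16666776) (l 16665480))) (a (c (a (l 16664848) (l 16664576)) (a (l 16663552) (l 16663280))) (c (a (l 16664312) (l 16664040)) (a (l 16663008) (l 16662736))))) (c (a (c (l 16666248) (l 16664944)) (c (l 16665712) (l 16664400))) (a (c (a (l 16663768) (l 16663496)) (a (l 16662464) (l 16662184))) (c (a (l 16663224) (l 16662952)) (a (l 16661912) (l 16661640)))))) (c (a (a (c (l 16665184) (l 16663864)) (c (l 16664648) (l 16663328))) (a (c (l 16664120) (l 16662792)) (c (l 16663584) (l 16662248)))) (c (a (a (a (l 16662680) (l 16662408)) (a (l 16662136) (l 16661864))) (a (a (l 16661592) (l 16661320)) (a (l 16661048)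 (l 16660776)))) (a (a (a (l 16661360) (l 16661088)) (a (l 16660816) (l 16660544))) (a (a (l 16660264) (l 16659992)) (a (l 16659712) (l 16659440))))))), by decide +kernel⟩

def k190_B00pm_101_s1 : ∃ t, chk3 f_B00pm_101_s1 t 306 4095 5 = true :=
  ⟨(b (a (c (a (c (l 16667536) (l 16666256)) (c (l 16667008) (l 16665720))) (a (c (a (l 16665112) (l 16664840)) (a (l 16663832) (l 16663560))) (c (a (l 16664568) (l 16664296)) (a (l 16663288) (l 16663016))))) (c (a (c (l 16666472) (l 16665184)) (c (l 16665944) (l 16664648))) (a (c (a (l 16664024) (l 16663752)) (a (l 16662736) (l 16662464))) (c (a (l 16663480) (l 16663208)) (a (l 16662192) (l 16661912)))))) (a (c (a (c (l 16667688) (l 16666424)) (c (l 16667160) (l 16665888))) (a (a (c (l 16665288) (l 16664024)) (c (l 16665016) (l 16663752))) (a (c (l 16664744) (l 16663472)) (c (l 16664472) (l 16663200))))) (c (a (c (l 16666624) (l 16665344)) (c (l 16666088) (b (l 16664768) (l 16664848)))) (a (a (c (l 16664200) (l 16662928)) (c (l 16663928) (l 16662648)))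 (a (c (l 16663656) (l 16662376)) (c (l 16663384) (l 16662096))))))), by decide +kernel⟩

def k191_B00pm_101_s1 : ∃ t, chk3 f_B00pm_101_s1 t 307 4095 5 = true :=
  ⟨(b (a (c (a (c (l 16665408) (l 16664104)) (c (l 16664872) (l 16663568))) (a (c (a (l 16662936) (l 16662664)) (a (l 16661640) (l 16661360))) (c (a (l 16662392) (l 16662120)) (a (l 16661088) (l 16660816))))) (c (a (c (l 16664336) (l 16663024)) (c (l 16663800) (l 16662488))) (a (c (a (l 16661848) (l 16661576)) (a (l 16660536) (l 16660264))) (c (a (l 16661304) (l 16661032)) (a (l 16659984) (l 16659712)))))) (a (c (a (c (l 16665560) (b (l 16664224) (l 16664304))) (c (l 16665024) (a (l 16663856) (l 16663592)))) (a (a (c (l 16663112) (l 16661824)) (c (l 16662840) (l 16661544))) (a (c (l 16662568) (l 16661272)) (c (l 16662296) (c (l 16661320) (l 16660672)))))) (c (a (c (l 16664488) (a (l 16663320) (l 16663048))) (c (l 16663952) (a (l 16662776) (l 16662504)))) (a (a (c (l 16662016) (c (l 16661048) (l 16660392))) (c (l 16661744) (c (l 16660768)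 (l 16660120)))) (a (c (l 16661472) (c (l 16660496) (l 16659840))) (c (l 16661200) (c (l 16660216) (l 16659568)))))))), by decide +kernel⟩

def k192_B00pm_101_s1 : ∃ t, chk3 f_B00pm_101_s1 t 153 2046 3 = true :=
  ⟨(c (a (c (a (a (a (c (l 16661672) (b (l 16660128) (l 16660544))) (c (l 16661392) (b (l 16659848) (l 16660264)))) (c (a (l 16661120) (l 16660840)) (l 22))) (c (a (a (l 16660568) (l 16660296)) (a (l 16660016) (l 16659744))) (l 22))) (l 22)) (c (c (c (a (a (b (l 16659480) (l 16659856)) (b (l 16658928) (l 16659304))) (l 22)) (l 22)) (l 22)) (l 22))) (l 22)), by decide +kernel⟩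

def k193_B00pm_101_s1 : ∃ t, chk3 f_B00pm_101_s1 t 153 2047 3 = true :=
  ⟨(c (b (a (c (c (a (a (a (l 16662264) (l 16661984)) (a (l 16661704) (l 16661432))) (a (a (l 16661152) (l 16660880)) (a (l 16660600) (l 16660320)))) (a (a (c (a (l 16661288) (l 16661008)) (l 22)) (l 22)) (l 22))) (l 22)) (c (c (a (a (a (l 16660048) (l 16659768)) (a (l 16659496) (c (l 16659544) (l 22)))) (l 22)) (l 22)) (l 22))) (a (b (c (c (a (a (a (l 16662560) (l 16662280)) (a (l 16662000) (l 16661728))) (a (a (l 16661448) (l 16661168)) (a (l 16660896) (l 16660616)))) (a (a (c (a (l 16661600) (l 16661320)) (l 22)) (l 22)) (l 22))) (l 22)) (c (b (c (a (a (a (l 16662704) (l 16662432)) (a (l 16662152) (l 16661872))) (a (a (l 16661600) (l 16661320)) (a (l 16661040) (l 16660760)))) (a (a (c (a (l 16661752) (l 16661472)) (l 22)) (l 22)) (l 22))) (c (c (a (a (a (l 16663120) (l 16662848)) (a (l 16662568) (l 16662296))) (a (a (l 16662016) (l 16661736)) (a (l 16661464) (l 16661184)))) (a (a (a (l 16662488) (l 16662216)) (a (l 16661936)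 (l 16661656))) (a (a (l 16661376) (l 16661096)) (a (l 16660824) (l 22))))) (c (a (a (a (l 16661856) (l 16661576)) (l 22)) (l 22)) (l 22)))) (l 22))) (b (c (c (c (a (a (a (l 16660664) (l 16660384)) (a (l 16660112) (l 16659832))) (l 22)) (l 22)) (l 22)) (l 22)) (c (a (c (c (a (a (l 16660856) (l 16660576)) (a (l 16660304) (l 16660024))) (l 22)) (l 22)) (l 22)) (l 22))))) (l 22)), by decide +kernel⟩

def k194_B00pm_101_s1 : ∃ t, chk3 f_B00pm_101_s1 t 154 510 1 = true :=
  ⟨(c (a (c (a (b (c (l 16664920) (a (l 16661960) (l 16661448))) (c (a (l 16665960) (l 16665456)) (a (l 16662920) (l 16662408)))) (b (c (l 16663920) (a (l 16660944) (l 16660432))) (c (a (l 16664944) (l 16664440)) (a (l 16661888) (l 16661376))))) (a (a (b (c (l 16658744) (l 16655520)) (c (b (l 16659592) (l 16660160)) (b (l 16656488) (l 16657152)))) (b (c (l 16658224) (l 16654992)) (c (b (l 16659064) (l 16659632)) (b (l 16655960) (l 16656616))))) (a (b (c (l 16657704) (l 16654464)) (c (b (l 16658544) (l 16659112)) (b (l 16655424) (l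 16656080)))) (b (c (l 16657192) (l 16653936)) (c (b (l 16658016) (l 16658584)) (b (l 16654896) (l 16655544))))))) (b (c (c (a (l 16662920) (l 16661920)) (a (a (l 16659920) (l 16659408)) (a (l 16658904) (l 16658392)))) (c (a (l 16645936) (l 16644896)) (c (a (l 16653968) (l 16652912)) (l 22)))) (c (c (a (a (l 16663936) (l 16663432)) (a (l 16662928) (l 16662416))) (a (a (l 16660864) (l 16660344)) (a (l 16659832) (l 16659312)))) (a (a (c (b (l 16657496) (l 16658056)) (b (l 16654360) (l 16655008))) (c (b (l 16656968) (l 16657528)) (b (l 16653824) (l 16654472)))) (c (b (l 16645712) (a (l 16657000) (l 16656472))) (c (a (l 16654392) (l 16653856)) (l 22))))))) (l 22)), by decide +kernel⟩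

def k195_B00pm_101_s1 : ∃ t, chk3 f_B00pm_101_s1 t 155 510 1 = true :=
  ⟨(c (a (b (c (c (a (l 16660920) (l 16659912)) (a (a (l 16657880) (l 16657368)) (a (l 16656856) (l 16656344)))) (a (c (l 16643848) (b (l 16650720) (l 16640856))) (c (l 16642808) (l 22)))) (a (a (c (c (l 16661912) (l 16658792)) (c (b (l 16655400) (l 16655944)) (b (l 16652224) (l 16652856)))) (c (c (l 16661400) (l 16658280)) (c (b (l 16654872) (l 16655416)) (l 22)))) (c (c (b (l 16660464) (l 16660840)) (a (l 16657760) (l 16657240))) (c (b (l 16643600) (a (l 16654888) (l 16654352))) (l 22))))) (c (a (b (c (l 16658904) (a (l 16655832) (l 16655312))) (c (b (l 16659448) (l 16659816)) (a (l 16656720) (l 16656200)))) (b (c (l 16657896) (b (l 16654336) (l 16654768))) (a (c (l 16658856) (l 16655680)) (c (l 16658344) (l 16655160))))) (c (a (b (l 16641760) (b (l 16642552) (a (l 16653824) (l 16653296)))) (b (l 16640712) (b (l 16641488) (a (l 16652760) (l 16652232))))) (l 22)))) (l 22)), by decide +kernel⟩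

def k196_B00pm_101_s1 : ∃ t, chk3 f_B00pm_101_s1 t 154 1022 2 = true :=
  ⟨(a (c (b (a (c (a (l 16666568) (l 16666064)) (a (l 16663656) (l 16663144))) (c (a (l 16665552) (l 16665040)) (a (l 16662624) (l 16662104)))) (a (c (a (l 16666984) (l 16666480)) (a (l 16664160) (l 16663640))) (c (a (l 16665968) (l 16665456)) (a (l 16663120) (l 16662592))))) (b (a (c (a (l 16660744) (l 16660216)) (c (a (l 16658552) (l 16658016)) (a (l 16657088) (l 16656544)))) (c (a (l 16659688) (l 16659152)) (c (a (l 16657480) (l 16656944)) (a (l 16656008) (l 22))))) (c (a (a (c (l 16662040) (l 16660624)) (c (l 16661512) (l 16660088))) (a (c (l 16660976) (l 16659552)) (c (l 16660448) (l 16659016)))) (a (c (a (l 16659208) (l 16658664)) (a (l 16657784) (l 16657240))) (c (a (l 16658128) (l 16657584)) (a (l 16656696) (l 22))))))) (c (b (a (c (a (l 16664536) (l 16664024)) (a (l 16661584) (l 16661064))) (c (a (l 16663512) (l 16663000)) (a (l 16660544) (l 16660024)))) (a (c (a (l 16664944) (l 16664432)) (a (l 16662072) (l 16661552)))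 (c (a (l 16663912) (l 16663400)) (a (l 16661024) (l 16660504))))) (b (a (c (a (l 16658624) (l 16658096)) (c (a (l 16656400) (l 16655864)) (l 22))) (a (c (l 16657560) (c (l 16655328) (l 22))) (c (l 16657032) (c (l 16654784) (l 22))))) (a (c (a (c (l 16659920) (l 16658480)) (c (l 16659392) (l 16657944))) (c (a (l 16657048) (l 16656504)) (l 22))) (c (c (a (l 16658856) (l 16658328)) (a (l 16657408) (l 16656872))) (c (a (l 16655960) (l 16655416)) (l 22))))))), by decide +kernel⟩

def k197_B00pm_101_s1 : ∃ t, chk3 f_B00pm_101_s1 t 155 1022 2 = true :=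
  ⟨(a (c (b (a (c (a (l 16662488) (l 16661984)) (a (l 16659496) (l 16658976))) (c (a (l 16661464) (l 16660952)) (a (l 16658456) (l 16657928)))) (a (c (a (l 16662888) (l 16662376)) (a (c (l 16660704) (l 16659248)) (c (l 16660184) (l 16658720)))) (c (a (l 16661856) (l 16661344)) (a (c (l 16659664) (l 16658192)) (c (l 16659136) (l 16657664)))))) (c (a (a (b (l 16656504) (c (l 16657792) (l 16656336))) (b (l 16655968) (c (l 16657264) (l 16655800)))) (a (b (l 16655432) (c (l 16656728) (l 16655256))) (b (l 16654904) (c (l 16656192) (l 16654720))))) (c (a (a (a (l 16654696) (l 22)) (l 22)) (l 22)) (l 22)))) (c (a (c (b (a (l 16660440) (l 16659928)) (a (l 16660824) (l 16660312))) (a (c (l 16658392) (l 16656896)) (c (l 16657864) (l 16656368)))) (c (b (a (l 16659416) (l 16658896)) (a (l 16659792) (l 16659272))) (a (c (l 16657344) (l 16655832)) (c (l 16656816) (l 16655304))))) (c (c (c (a (a (l 16655768) (l 16655240)) (a (l 16654704) (l 16654168))) (a (a (l 16655016) (l 16654488)) (a (l 16653952) (l 16653416))))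 (c (a (a (l 16654272) (l 16653728)) (l 22)) (l 22))) (l 22)))), by decide +kernel⟩

def k198_B00pm_101_s1 : ∃ t, chk3 f_B00pm_101_s1 t 77 1022 3 = true :=
  ⟨(l 22), by decide +kernel⟩

def k199_B00pm_101_s1 : ∃ t, chk3 f_B00pm_101_s1 t 154 2046 2 = true :=
  ⟨(a (c (a (c (a (l 16667408) (l 16666896)) (a (c (l 16665352) (l 16663984)) (c (l 16664832) (l 16663456)))) (c (a (l 16666384) (l 16665872)) (a (c (l 16664312) (l 16662928)) (c (l 16663792) (l 16662400))))) (a (a (c (c (l 16662616) (b (l 16661088) (l 16661400))) (a (c (l 16660000) (l 16658632)) (c (l 16659728) (l 16658352)))) (c (c (l 16662080) (b (l 16660552) (l 16660856))) (a (c (l 16659456) (l 16658080)) (c (l 16659184) (l 16657808))))) (a (c (c (l 16661552) (b (l 16660008) (l 16660320))) (a (c (l 16658912) (l 16657536)) (c (l 16658640) (l 16657256)))) (c (c (l 16661016) (b (l 16659472) (l 16659776))) (c (b (l 16658072) (l 16658400)) (l 22)))))) (c (a (c (a (c (l 16666048) (l 16664656)) (c (l 16665536) (l 16664144))) (a (c (l 16663264)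 (l 16661872)) (c (l 16662744) (l 16661344)))) (c (a (c (l 16665024) (l 16663624)) (c (l 16664512) (l 16663104))) (a (c (l 16662216) (l 16660816)) (c (l 16661696) (l 16660288))))) (c (a (a (c (l 16660480) (b (l 16658936) (l 16659240))) (c (l 16659944) (b (l 16658400) (l 16658704)))) (c (a (l 16659416) (l 16658880)) (a (b (l 16657856) (l 16658160)) (b (l 16657320) (l 16657616))))) (c (c (a (a (l 16658040) (l 16657496)) (a (l 16656952) (l 16656408))) (a (a (l 16657344) (l 16656800)) (l 22))) (l 22))))), by decide +kernel⟩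

def k200_B00pm_101_s1 : ∃ t, chk3 f_B00pm_101_s1 t 155 2046 2 = true :=
  ⟨(a (c (a (c (a (c (l 16663992) (l 16662584)) (c (l 16663480) (l 16662064))) (a (c (l 16661168) (l 16659760)) (c (l 16660648) (l 16659224)))) (c (a (c (l 16662968) (l 16661544)) (c (l 16662448) (l 16661024))) (a (c (l 16660120) (l 16658696)) (c (l 16659592) (l 16658160))))) (c (c (a (a (l 16658344) (l 16657808)) (a (b (l 16657136) (l 16657408)) (b (l 16656600) (l 16656872)))) (a (b (a (l 16656776) (l 16656240)) (a (l 16657080) (l 16656536))) (b (a (l 16655696) (l 16655160)) (a (l 16655992) (l 16655448))))) (c (a (a (a (l 16655648) (l 22)) (l 22)) (l 22)) (l 22)))) (c (a (c (a (c (l 16661936) (l 16660504)) (c (l 16661416) (l 16659976))) (a (c (l 16659064) (l 16657632)) (c (l 16658536) (l 16657096)))) (c (a (c (l 16660896) (l 16659456)) (c (l 16660384) (l 16658936))) (a (c (l 16658008) (l 16656568)) (c (l 16657480) (l 16656032))))) (c (c (a (a (b (l 16656064) (l 16656336)) (b (l 16655528) (l 16655792))) (b (a (l 16654984)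 (l 16654448)) (a (l 16655256) (l 16654712)))) (a (c (a (l 16655120) (l 16654576)) (l 22)) (l 22))) (l 22)))), by decide +kernel⟩

def k201_B00pm_101_s1 : ∃ t, chk3 f_B00pm_101_s1 t 77 2046 3 = true :=
  ⟨(l 22), by decide +kernel⟩

def k202_B00pm_101_s1 : ∃ t, chk3 f_B00pm_101_s1 t 154 4094 2 = true :=
  ⟨(a (c (a (c (a (l 16667736) (l 16667216)) (a (c (l 16665728) (l 16664384)) (c (l 16665200) (l 16663856)))) (c (a (l 16666704) (l 16666184)) (a (c (l 16664680) (l 16663328)) (c (l 16664152) (l 16662800))))) (a (a (c (c (l 16663048) (l 16661712)) (c (a (l 16660504) (l 16660232)) (a (l 16659168) (l 16658888)))) (c (c (l 16662512) (a (l 16661304) (l 16661032))) (c (a (l 16659960) (l 16659688)) (a (l 16658616) (l 16658336))))) (a (c (c (l 16661976) (a (l 16660760) (l 16660488))) (c (a (l 16659416) (l 16659144)) (a (l 16658064) (l 16657792)))) (c (c (l 16661440) (a (l 16660224) (l 16659952))) (c (a (l 16658864) (l 16658592)) (l 22)))))) (c (a (c (a (l 16665664) (l 16665152)) (a (c (l 16663632) (l 16662272))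 (c (l 16663104) (l 16661736)))) (c (a (l 16664632) (c (l 16664800) (l 16663424))) (a (c (l 16662576) (l 16661208)) (c (l 16662048) (l 16660672))))) (a (a (c (c (l 16660904) (a (l 16659680) (l 16659408))) (c (a (l 16658320) (l 16658048)) (l 22))) (c (c (l 16660368) (a (l 16659136) (l 16658864))) (c (a (l 16657776) (l 16657504)) (l 22)))) (a (c (c (l 16659832) (a (l 16658600) (l 16658328))) (c (a (l 16657224) (l 16656952)) (l 22))) (c (c (l 16659296) (a (l 16658056) (l 16657784))) (c (a (l 16656680) (l 16656408)) (l 22))))))), by decide +kernel⟩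

def k203_B00pm_101_s1 : ∃ t, chk3 f_B00pm_101_s1 t 154 4095 4 = true :=
  ⟨(a (a (c (a (c (l 16668608) (l 16667288)) (c (l 16668096) (l 16666768))) (a (c (l 16665976) (l 16664656)) (c (l 16665448) (l 16664128)))) (c (a (c (l 16667576) (l 16666248)) (c (l 16667064) (l 16665728))) (a (c (l 16664928) (l 16663600)) (c (l 16664400) (l 16663064))))) (a (a (c (c (l 16666544) (l 16665208)) (c (l 16663872) (l 16662536))) (c (c (l 16666032) (l 16664688)) (c (l 16663344) (a (l 16662128) (l 16661864))))) (a (c (c (l 16665512) (l 16664168)) (c (l 16662816) (a (l 16661600) (l 16661336)))) (c (c (l 16665000) (l 16663640)) (c (l 16662288) (a (l 16661064) (l 16660800))))))), by decide +kernel⟩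

def k204_B00pm_101_s1 : ∃ t, chk3 f_B00pm_101_s1 t 308 4095 5 = true :=
  ⟨(b (c (a (a (c (l 16663264) (a (l 16662080) (l 16661808))) (c (l 16662736) (a (l 16661536) (l 16661264)))) (a (c (l 16662200) (a (l 16661000) (l 16660728))) (c (l 16661656) (a (l 16660456) (l 16660184))))) (a (a (c (a (l 16660760) (l 16660488)) (a (l 16659432) (l 16659160))) (c (a (l 16660208) (l 16659936)) (a (l 16658880) (l 16658608)))) (a (c (a (l 16659664) (l 16659392)) (a (l 16658328) (l 16658056))) (c (a (l 16659120) (l 16658840)) (l 22))))) (b (a (c (a (c (l 16663376) (a (l 16662200) (l 16661928))) (c (l 16662840) (a (l 16661656) (l 16661384)))) (a (c (a (l 16660888) (l 16660608)) (a (l 16659568) (l 16659296))) (c (a (l 16660336) (l 16660064)) (a (l 16659016) (l 16658744))))) (c (a (c (l 16662304) (a (l 16661112) (l 16660840))) (c (l 16661768) (a (l 16660568) (l 16660296)))) (a (c (a (l 16659792) (l 16659512)) (a (l 16658464) (c (l 16658520) (l 22)))) (c (a (l 16659240) (l 16658968)) (l 22))))) (a (c (a (c (l 16663448)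 (a (l 16662280) (l 16662008))) (c (l 16662912) (a (l 16661736) (l 16661464)))) (a (c (a (l 16660968) (l 16660696)) (a (b (l 16659640) (l 16659688)) (a (l 16659456) (l 16659312)))) (c (a (l 16660424) (l 16660144)) (c (a (l 16659440) (l 16659160)) (l 22))))) (c (a (c (l 16662376) (a (l 16661192) (l 16660920))) (c (l 16661840) (a (l 16660648) (l 16660376)))) (a (c (a (l 16659872) (l 16659600)) (c (a (l 16658888) (l 16658608)) (l 22))) (c (a (l 16659328) (l 16659048)) (l 22))))))), by decide +kernel⟩

def k205_B00pm_101_s1 : ∃ t, chk3 f_B00pm_101_s1 t 309 4095 5 = true :=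
  ⟨(b (a (c (a (c (l 16661120) (a (l 16659912) (l 16659640))) (c (l 16660584) (a (l 16659368) (l 16659096)))) (c (a (a (l 16658568) (l 16658296)) (a (l 16658024) (l 16657744))) (l 22))) (c (a (c (l 16660048) (a (l 16658824) (l 16658552))) (c (l 16659512) (a (l 16658280) (l 16658008)))) (c (a (a (l 16657472) (l 16657200)) (a (l 16656920) (l 16656648))) (l 22)))) (b (a (c (a (c (l 16661232) (a (l 16660032) (l 16659760))) (c (l 16660696) (a (l 16659488) (l 16659216)))) (c (a (a (l 16658696) (l 16658416)) (a (l 16658144) (l 16657872))) (l 22))) (c (a (c (l 16660152) (a (l 16658944) (l 16658672))) (c (a (l 16659744) (l 16659480)) (a (l 16658400) (l 16658128)))) (c (a (a (l 16657592) (l 16657320)) (a (l 16657048) (l 16656768))) (l 22)))) (a (c (a (c (l 16661304) (a (l 16660104) (l 16659832))) (c (a (l 16660896) (l 16660624)) (a (l 16659560) (l 16659288)))) (c (a (a (l 16658776) (l 16658504)) (a (l 16658224) (l 16657952))) (l 22))) (c (a (c (a (l 16660360) (l 16660088)) (a (l 16659016) (l 16658744)))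 (c (a (l 16659816) (l 16659552)) (a (l 16658472) (l 16658200)))) (c (a (c (a (l 16658016) (l 16657736)) (l 22)) (c (a (l 16657464) (l 16657192)) (l 22))) (l 22)))))), by decide +kernel⟩

def k206_B00pm_101_s1 : ∃ t, chk3 f_B00pm_101_s1 t 155 4094 2 = true :=
  ⟨(c (a (a (c (a (c (l 16664288) (l 16662904)) (c (l 16663768) (l 16662384))) (a (c (l 16661520) (l 16660144)) (c (l 16660992) (l 16659608)))) (c (a (c (l 16663248) (l 16661856)) (c (l 16662736) (l 16661336))) (a (c (l 16660464) (l 16659072)) (c (l 16659936) (l 16658544))))) (a (c (a (c (l 16662216) (l 16660816)) (c (l 16661696) (l 16660288))) (a (c (l 16659408) (l 16658008)) (c (l 16658880) (l 16657472)))) (c (a (c (l 16661176) (l 16659768)) (c (l 16660656) (l 16659240))) (a (c (l 16658352) (l 16656936)) (c (l 16657824) (l 16656400)))))) (a (c (a (a (c (l 16658760) (a (l 16657512) (l 16657240))) (c (a (l 16658352) (l 16658088)) (a (l 16656968) (l 16656696)))) (a (c (a (l 16657816) (l 16657544)) (a (l 16656424) (l 16656152))) (c (a (l 16657280)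 (l 16657008)) (a (l 16655880) (l 16655608))))) (c (a (a (a (l 16656128) (l 22)) (l 22)) (l 22)) (l 22))) (c (c (a (a (a (l 16656736) (l 16656464)) (a (l 16656200) (l 16655928))) (a (a (l 16655656) (l 16655384)) (a (l 16655120) (l 16654848)))) (a (c (a (l 16655552) (l 16655008)) (l 22)) (l 22))) (l 22)))), by decide +kernel⟩

def k207_B00pm_101_s1 : ∃ t, chk3 f_B00pm_101_s1 t 155 4095 4 = true :=
  ⟨(a (a (a (c (c (l 16664480) (l 16663120)) (c (l 16661760) (a (l 16660536) (l 16660264)))) (c (c (l 16663960) (l 16662600)) (c (l 16661232) (a (l 16660000) (l 16659728))))) (a (c (c (l 16663440) (l 16662072)) (c (l 16660704) (a (l 16659464) (l 16659200)))) (c (c (l 16662928) (l 16661552)) (c (l 16660176) (a (l 16658928) (l 16658664)))))) (a (a (c (c (l 16662408) (l 16661024)) (c (a (l 16659776) (l 16659504)) (a (l 16658392) (l 16658128)))) (c (c (l 16661888) (l 16660496)) (c (a (l 16659240) (l 16658976)) (a (l 16657856) (l 16657592))))) (a (c (c (l 16661368) (l 16659976)) (c (a (l 16658712) (l 16658448))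 (a (l 16657320) (l 16657056)))) (c (c (l 16660848) (l 16659448)) (c (a (l 16658176) (l 16657912)) (a (l 16656784) (l 16656512))))))), by decide +kernel⟩

def k208_B00pm_101_s1 : ∃ t, chk3 f_B00pm_101_s1 t 310 4095 5 = true :=
  ⟨(b (c (a (a (c (a (l 16659104) (l 16658832)) (a (l 16657736) (l 16657464))) (c (a (l 16658560) (l 16658296)) (a (l 16657192) (l 16656920)))) (a (c (a (l 16658024) (l 16657752)) (a (l 16656648) (l 16656376))) (c (a (l 16657488) (l 16657216)) (a (l 16656104) (l 16655832))))) (a (a (c (a (l 16656376) (l 22)) (l 22)) (l 22)) (l 22))) (b (c (a (a (c (a (l 16659208) (l 16658936)) (a (l 16657856) (l 16657584))) (c (a (l 16658672) (l 16658400)) (a (l 16657304) (l 16657032)))) (a (c (a (l 16658128) (l 16657856)) (a (l 16656760) (l 16656488))) (c (a (l 16657592) (l 16657320)) (a (l 16656216) (l 16655944))))) (a (a (c (a (l 16656496) (l 22)) (l 22)) (l 22)) (l 22))) (c (a (a (c (a (l 16659280) (l 16659008)) (a (l 16657928) (l 16657656))) (c (a (l 16658736) (l 16658472)) (a (l 16657384)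 (l 16657112)))) (a (c (a (l 16658200) (l 16657928)) (a (l 16656840) (l 16656568))) (c (a (l 16657656) (l 16657384)) (a (l 16656288) (l 16656016))))) (a (a (c (a (c (l 16656912) (l 22)) (l 22)) (l 22)) (l 22)) (l 22))))), by decide +kernel⟩

def k209_B00pm_101_s1 : ∃ t, chk3 f_B00pm_101_s1 t 311 4095 5 = true :=
  ⟨(b (c (c (a (a (a (l 16656944) (l 16656672)) (a (l 16656400) (l 16656128))) (a (a (l 16655864) (l 16655592)) (a (l 16655320) (l 16655048)))) (a (c (a (l 16655768) (l 16655224)) (l 22)) (l 22))) (l 22)) (b (c (c (a (a (a (l 16657048) (l 16656776)) (a (l 16656504) (l 16656232))) (a (a (l 16655960) (l 16655696)) (a (l 16655424) (l 16655152)))) (a (a (a (l 16655672) (l 16655392)) (a (l 16655120) (l 22))) (l 22))) (l 22)) (c (c (a (a (a (l 16657120) (l 16656848)) (a (l 16656576) (l 16656304))) (a (a (l 16656032) (l 16655760)) (a (l 16655488) (l 16655216)))) (a (c (c (a (l 16656128) (l 16655576)) (l 22)) (l 22)) (l 22))) (l 22)))), by decide +kernel⟩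

def k210_B00pm_101_s1 : ∃ t, chk3 f_B00pm_101_s1 t 77 2047 3 = true :=
  ⟨(l 22), by decide +kernel⟩

def k211_B00pm_101_s1 : ∃ t, chk3 f_B00pm_101_s1 t 39 126 1 = true :=
  ⟨(b (l 6) (b (l 6) (b (l 6) (a (a (a (c (c (l 16640720) (b (l 16621680) (l 16632640))) (c (c (l 16636584) (l 16577936)) (l 16556280))) (l 6)) (l 6)) (l 6))))), by decide +kernel⟩

def k212_B00pm_101_s1 : ∃ t, chk3 f_B00pm_101_s1 t 39 254 1 = true :=
  ⟨(a (c (a (b (a (c (a (l 16642168) (l 16641184)) (c (b (l 16624888) (l 16636280)) (b (l 16620856) (l 22)))) (c (a (l 16640200) (l 16639208)) (b (c (l 16622872) (l 16618808)) (l 22)))) (c (a (a (c (b (l 16655544) (l 16656200)) (l 16641792)) (b (l 16642224) (c (l 16655200) (l 16651664)))) (c (b (l 16637360) (a (l 16654192) (l 16653184))) (a (l 16639752) (l 16638736)))) (a (c (a (b (l 16648176) (l 16649152)) (l 16637144)) (l 22)) (l 22)))) (b (b (a (a (c (l 16648384) (l 16640256)) (l 6)) (l 6)) (c (a (c (l 16629536) (l 16625632)) (c (l 16627552) (l 16623616))) (l 22))) (c (a (a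 (b (l 16639200) (b (l 16639720) (l 16640072))) (c (l 16640376) (l 16636688))) (a (c (l 16639368) (l 16635664)) (c (l 16638352) (l 22)))) (l 22)))) (b (b (b (a (a (c (l 16631864) (l 16563976)) (c (l 16636304) (l 16456120))) (l 6)) (c (l 22) (a (a (l 22) (l 16545000)) (a (l 16437944) (l 6))))) (c (l 22) (c (l 22) (a (a (l 22) (l 16434072)) (l 16400416))))) (a (l 22) (c (l 22) (c (l 22) (a (l 16426008) (l 16403648))))))) (b (l 6) (a (c (c (c (a (b (l 16636576) (l 16637144)) (b (l 6) (l 16635096))) (l 22)) (l 22)) (c (l 22) (a (c (l 16447632) (l 16382208)) (l 16477560)))) (l 6)))), by decide +kernel⟩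

def k213_B00pm_101_s1 : ∃ t, chk3 f_B00pm_101_s1 t 78 510 1 = true :=
  ⟨(c (a (c (a (a (c (b (l 16656880) (b (l 16657408) (l 16657768))) (b (b (l 16653304) (l 16653736)) (c (l 16655192) (l 16643096)))) (c (b (l 16655864) (b (l 16656384) (l 16656744))) (b (l 16642000) (a (l 16653592) (l 16653072))))) (a (c (b (l 16654848) (b (l 16655360) (l 16655712))) (b (l 16640968) (a (l 16652552) (l 16652024)))) (b (c (l 16653832) (l 16639928)) (a (c (l 16654760) (l 16651504)) (c (l 16654240) (l 16650976)))))) (a (c (c (b (a (l 16650992) (l 16649944)) (c (a (l 16652384) (l 16651328)) (l 22))) (l 22)) (l 22)) (l 22))) (c (a (b (a (c (l 16652816) (l 16638888)) (c (l 16651792) (l 16637848))) (a (a (c (l 16653728) (l 16650448)) (c (l 16653208) (l 16649928))) (a (c (l 16652696) (l 16649400)) (c (l 16652176) (l 16648872))))) (b (a (c (l 16650768) (l 16636800)) (c (l 16649736) (l 22))) (a (a (c (l 16651656) (l 16648344)) (c (l 16651136) (l 22))) (c (b (l 16650208) (l 16650528)) (l 22))))) (l 22))) (c (l 22) (a (l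 22) (a (l 22) (c (l 22) (l 16423120)))))), by decide +kernel⟩

def k214_B00pm_101_s1 : ∃ t, chk3 f_B00pm_101_s1 t 78 1022 1 = true :=
  ⟨(c (a (c (a (a (c (b (a (l 16658384) (l 16657864)) (a (l 16658760) (l 16658240))) (a (c (l 16656296) (l 16654776)) (c (l 16655768) (l 16654248)))) (c (b (a (l 16657352) (l 16656832)) (a (l 16657720) (l 16657200))) (a (c (l 16655248) (l 16653720)) (b (l 16653728) (a (l 16654304) (l 16654040)))))) (b (c (a (a (l 16656320) (l 16655800)) (a (l 16655280) (l 16654760))) (c (a (l 16653728) (l 16652672)) (a (l 16641680) (l 16640616)))) (c (a (a (l 16656680) (l 16656160)) (a (l 16655640) (l 16655112))) (b (a (a (l 16653536) (l 16653000)) (a (l 16652472) (l 16651944))) (a (a (l 16653760) (l 16653224)) (a (l 16652696) (l 16652160))))))) (c (c (c (a (a (a (l 16653640) (l 16653104)) (a (l 16652568) (l 22))) (l 22)) (l 22)) (l 22)) (l 22))) (c (a (c (b (a (a (l 16654240) (l 16653720)) (a (l 16653200) (l 16652680))) (a (a (l 16654592) (l 16654072)) (a (l 16653544) (l 16653024))))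 (c (a (a (l 16652080) (l 16651552)) (a (l 16651024) (l 16650488))) (l 22))) (c (b (a (a (l 16652160) (l 16651632)) (a (l 16651112) (l 16650584))) (a (a (l 16652496) (l 16651976)) (a (l 16648824) (c (l 16651704) (l 16650136))))) (c (a (a (l 16649960) (l 22)) (l 22)) (l 22)))) (l 22))) (l 22)), by decide +kernel⟩

def k215_B00pm_101_s1 : ∃ t, chk3 f_B00pm_101_s1 t 156 2046 2 = true :=
  ⟨(c (a (a (c (a (c (l 16659864) (l 16658408)) (c (l 16659344) (l 16657888))) (a (c (l 16656952) (l 16655496)) (c (l 16656424) (l 16654968)))) (c (a (c (l 16658824) (l 16657360)) (c (l 16658304) (l 16656840))) (a (c (l 16655896) (l 16654432)) (c (l 16655368) (l 16653896))))) (a (c (a (c (l 16657784) (l 16656312)) (c (l 16657264) (l 16655784))) (c (a (l 16654832) (l 16654304)) (b (a (l 16653240) (l 16652704)) (a (l 16653480) (l 16652936))))) (a (c (c (l 16656744) (l 16655256)) (c (l 16653768) (b (l 16652168) (l 16652400)))) (c (c (l 16656224) (l 16654728)) (c (l 16653240) (b (l 16651632) (l 16651864))))))) (a (c (c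 (a (c (a (l 16654408) (l 16653872)) (l 22)) (a (a (l 16653096) (l 22)) (l 22))) (l 22)) (l 22)) (l 22))), by decide +kernel⟩

def k216_B00pm_101_s1 : ∃ t, chk3 f_B00pm_101_s1 t 156 4094 2 = true :=
  ⟨(c (a (a (c (a (c (l 16660136) (l 16658712)) (c (l 16659616) (l 16658192))) (a (c (l 16657288) (l 16655864)) (c (l 16656760) (a (l 16655464) (l 16655192))))) (c (a (c (l 16659096) (l 16657664)) (c (l 16658576) (l 16657136))) (a (c (l 16656224) (a (l 16654928) (l 16654656))) (c (l 16655696) (a (l 16654384) (l 16654120)))))) (a (c (a (c (l 16658056) (l 16656608)) (c (l 16657528) (l 16656080))) (a (c (l 16655160) (a (l 16653848) (l 16653576))) (c (l 16654632) (a (l 16653312) (l 16653040))))) (c (a (c (l 16657008) (l 16655552)) (c (l 16656480) (l 16655024))) (c (a (l 16654096) (l 16653560)) (c (a (l 16653000) (l 16652464)) (l 22)))))) (a (c (c (c (a (a (l 16654800) (l 16654256)) (a (l 16653720) (l 22))) (l 22)) (l 22)) (l 22)) (l 22))), by decide +kernel⟩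

def k217_B00pm_101_s1 : ∃ t, chk3 f_B00pm_101_s1 t 156 4095 4 = true :=
  ⟨(b (a (a (c (a (c (l 16660280) (l 16658872)) (c (l 16659752) (l 16658344))) (a (c (l 16657456) (a (l 16656184) (l 16655912))) (c (l 16656928) (a (l 16655648) (l 16655376))))) (c (a (c (l 16659232) (l 16657816)) (c (l 16658712) (l 16657288))) (a (c (l 16656392) (a (l 16655112) (l 16654840))) (c (l 16655864) (a (l 16654568) (l 16654296)))))) (a (c (a (c (l 16658184) (l 16656760)) (c (l 16657664) (l 16656224))) (a (c (l 16655328) (a (l 16654032) (l 16653760))) (c (l 16654792) (a (l 16653488) (l 16653224))))) (c (a (c (l 16657136) (l 16655696)) (c (l 16656616) (l 16655168))) (a (c (l 16654256) (a (l 16652952) (l 16652680))) (c (a (l 16653856) (l 16653584)) (a (l 16652408) (l 22))))))) (a (a (c (a (c (l 16660368) (l 16658968)) (c (l 16659848) (l 16658440))) (a (a (c (l 16657704) (l 16656312)) (c (l 16657440) (l 16656040))) (a (c (l 16657168) (l 16655768)) (c (l 16656904) (l 16655504))))) (c (a (c (l 16659320) (l 16657912))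 (c (l 16658800) (l 16657384))) (a (a (c (l 16656640) (l 16655232)) (c (l 16656368) (l 16654960))) (a (c (l 16656104) (l 16654688)) (c (l 16655840) (l 16654424)))))) (a (c (a (c (l 16658280) (l 16656856)) (c (l 16657752) (l 16656328))) (a (a (c (l 16655568) (l 16654152)) (c (l 16655304) (l 16653880))) (a (c (l 16655032) (l 16653608)) (c (l 16654768) (l 16653344))))) (c (a (c (l 16657224) (l 16655800)) (c (l 16656704) (b (l 16655240) (l 16655288)))) (a (a (c (l 16654496) (l 16653072)) (c (l 16654232) (l 16652800))) (a (c (l 16653960) (c (l 16652888) (l 22))) (c (l 16653696) (l 22)))))))), by decide +kernel⟩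

def k218_B00pm_101_s1 : ∃ t, chk3 f_B00pm_101_s1 t 156 4095 5 = true :=
  ⟨(a (b (c (c (c (a (a (l 16654992) (l 16654456)) (a (l 16653912) (l 22))) (l 22)) (l 22)) (l 22)) (c (c (c (a (c (a (l 16655304) (l 16654760)) (a (l 16654952) (l 22))) (a (a (l 16654176) (l 22)) (l 22))) (l 22)) (l 22)) (l 22))) (l 22)), by decide +kernel⟩

def k219_B00pm_101_s1 : ∃ t, chk3 f_B00pm_101_s1 t 157 2046 2 = true :=
  ⟨(c (a (a (a (c (c (l 16655696) (l 16654200)) (c (l 16652704) (l 22))) (c (c (l 16655176) (l 16653672)) (c (l 16652176) (l 22)))) (a (c (c (l 16654656) (l 16653144)) (c (l 16651640) (l 22))) (c (c (l 16654128) (l 16652616)) (c (l 16651104) (l 22))))) (c (a (a (c (l 16653608) (l 16652088)) (c (l 16653080) (l 16651560))) (a (c (l 16652552) (l 16651024)) (c (l 16652024) (l 16650496)))) (c (a (a (a (l 16650704) (l 22)) (l 22)) (l 22)) (l 22)))) (l 22)), by decide +kernel⟩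

def k220_B00pm_101_s1 : ∃ t, chk3 f_B00pm_101_s1 t 157 4094 2 = true :=
  ⟨(c (a (a (a (c (c (l 16655960) (l 16654488)) (c (l 16653024) (l 22))) (c (c (l 16655432) (l 16653960)) (c (a (l 16652624) (l 16652352)) (l 22)))) (a (c (c (l 16654904) (l 16653432)) (c (a (l 16652088) (l 16651816)) (l 22))) (c (c (l 16654384) (l 16652896)) (c (a (l 16651552) (l 16651280)) (l 22))))) (a (a (c (c (l 16653856) (l 16652368)) (c (a (l 16651008) (l 22)) (l 22))) (c (c (l 16653328) (l 16651832)) (l 22))) (c (a (c (l 16652800) (l 16651304)) (c (l 16652272) (l 16650768))) (l 22)))) (l 22)), by decide +kernel⟩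

def k221_B00pm_101_s1 : ∃ t, chk3 f_B00pm_101_s1 t 157 4095 2 = true :=
  ⟨(c (b (a (a (c (a (c (l 16656088) (l 16654640)) (c (l 16655560) (l 16654104))) (c (a (a (l 16653320) (l 16653048)) (a (l 16652784) (l 16652512))) (l 22))) (c (a (c (l 16655032) (l 16653576)) (c (l 16654512) (l 16653040))) (c (c (a (l 16652480) (l 16651944)) (l 22)) (l 22)))) (a (c (a (c (l 16653984) (l 16652512)) (c (l 16653456) (l 16651976))) (a (c (a (l 16651168) (l 22)) (l 22)) (l 22))) (c (a (c (l 16652920) (a (l 16651576) (l 16651304))) (c (l 16652392) (a (l 16651040) (l 16650768)))) (l 22)))) (a (a (c (a (c (l 16656176) (a (l 16654864) (l 16654600))) (c (l 16655648) (a (l 16654336) (l 16654064)))) (c (c (a (l 16653656) (l 16653120)) (a (l 16652936) (b (l 16652368) (l 16652424)))) (l 22))) (c (a (c (l 16655120) (a (l 16653800) (l 16653536))) (c (l 16654592) (a (l 16653272) (l 16653000)))) (c (c (a (l 16652584) (l 16652048)) (l 22)) (l 22)))) (b (a (c (a (c (l 16654040) (a (l 16652712) (l 16652440))) (c (l 16653512)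 (a (l 16652176) (l 16651912)))) (a (c (a (l 16651248) (l 22)) (l 22)) (l 22))) (c (a (c (l 16652984) (a (l 16651640) (l 16651376))) (c (l 16652456) (a (l 16651104) (l 16650840)))) (l 22))) (a (c (a (c (l 16654088) (a (l 16652760) (l 16652488))) (c (l 16653560) (a (l 16652224) (l 16651960)))) (a (a (c (l 16651304) (l 22)) (l 22)) (l 22))) (c (a (c (l 16653024) (a (l 16651688) (l 16651424))) (c (l 16652496) (a (l 16651152) (l 16650888)))) (l 22)))))) (l 22)), by decide +kernel⟩

def k222_B00pm_101_s1 : ∃ t, chk3 f_B00pm_101_s1 t 78 1023 3 = true :=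
  ⟨(l 22), by decide +kernel⟩

def k223_B00pm_101_s1 : ∃ t, chk3 f_B00pm_101_s1 t 79 510 1 = true :=
  ⟨(c (a (c (c (a (a (b (l 16648704) (b (l 16649168) (l 16639000))) (b (l 16647672) (b (l 16648128) (l 16637952)))) (a (b (l 16646640) (b (l 16647088) (l 16636904))) (b (l 16645600) (b (l 16646040) (l 16635856))))) (l 22)) (l 22)) (l 22)) (c (l 22) (a (a (c (l 22) (l 16400936)) (c (l 16444232) (l 16379648))) (c (a (l 16422512) (l 16401648)) (l 16349384))))), by decide +kernel⟩

def k224_B00pm_101_s1 : ∃ t, chk3 f_B00pm_101_s1 t 79 511 2 = true :=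
  ⟨(b (a (c (a (c (c (a (a (l 16651024) (l 16650504)) (a (l 16649976) (l 16649456))) (a (a (l 16649432) (l 16648904)) (l 22))) (l 22)) (c (c (a (a (l 16648928) (l 16648400)) (a (l 16647872) (l 22))) (l 22)) (l 22))) (l 22)) (l 22)) (b (a (c (c (c (a (a (a (l 16651496) (l 16650968)) (a (l 16650440) (l 16649912))) (a (a (l 16649384) (l 16648856)) (a (l 16648328) (l 22)))) (a (a (a (l 16649960) (l 16649432)) (l 22)) (l 22))) (l 22)) (l 22)) (l 22)) (a (b (c (c (c (a (a (a (l 16651744) (l 16651208)) (a (l 16650680) (l 16650152))) (a (a (l 16649616) (l 16649088)) (a (l 16648552) (l 22)))) (a (a (c (a (l 16650608) (l 16650080)) (l 22)) (l 22)) (l 22))) (l 22)) (l 22)) (c (b (c (c (a (a (a (l 16651864) (l 16651336)) (a (l 16650800) (l 16650272))) (a (a (l 16649736) (a (l 16649336) (l 16649072))) (a (a (l 16648800) (l 16648536)) (l 22)))) (a (a (c (a (l 16650744) (l 16650208)) (l 22)) (l 22)) (l 22))) (l 22)) (a (b (c (c (a (a (l 16651928) (l 16651392)) (a (l 16650864) (a (l 16650464) (l 16650192))))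 (a (c (a (l 16650808) (l 16650272)) (l 22)) (l 22))) (l 22)) (c (a (a (a (c (l 16652096) (l 16650616)) (c (l 16651832) (l 16650352))) (a (c (l 16651568) (l 16650080)) (c (l 16651304) (l 16649816)))) (c (c (a (l 16651272) (l 16650744)) (a (l 16650528) (l 16649992))) (l 22))) (l 22))) (a (c (c (a (a (l 16649952) (l 16649680)) (a (l 16649416) (l 16649152))) (l 22)) (l 22)) (a (c (c (a (l 16648880) (l 16648616)) (l 22)) (l 22)) (l 22))))) (l 22))) (l 22)))), by decide +kernel⟩

def k225_B00pm_101_s1 : ∃ t, chk3 f_B00pm_101_s1 t 79 511 3 = true :=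
  ⟨(c (l 22) (c (a (l 22) (a (l 16524896) (l 16419464))) (a (a (l 16420440) (l 16398424)) (b (l 16362608) (l 16371656))))), by decide +kernel⟩

def k226_B00pm_101_s1 : ∃ t, chk3 f_B00pm_101_s1 t 5 3 1 = true :=
  ⟨(b (l 6) (a (b (l 6) (a (b (l 6) (b (l 6) (a (a (b (l 6) (b (l 6) (b (l 6) (c (l 22) (c (b (a (a (l 22) (l 6)) (l 6)) (c (l 22) (a (a (l 22) (l 16443264)) (a (l 16422840) (l 6))))) (a (a (l 16452024) (l 16348832)) (c (l 16350496) (l 16292120)))))))) (l 6)) (l 6)))) (l 6))) (l 6))), by decide +kernel⟩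

def k227_B00pm_101_s1 : ∃ t, chk3 f_B00pm_101_s1 t 3 1 1 = true :=
  ⟨(l 6), by decide +kernel⟩

theorem t228_B00pm_101_s1 : ∃ t, chk3 f_B00pm_101_s1 t 79 511 1 = true := ex3_c k224_B00pm_101_s1 k225_B00pm_101_s1

theorem t229_B00pm_101_s1 : ∃ t, chk3 f_B00pm_101_s1 t 79 255 1 = true := ex3_b k223_B00pm_101_s1 t228_B00pm_101_s1

theorem t230_B00pm_101_s1 : ∃ t, chk3 f_B00pm_101_s1 t 157 2047 2 = true := ex3_b k220_B00pm_101_s1 k221_B00pm_101_s1

theorem t231_B00pm_101_s1 : ∃ t, chk3 f_B00pm_101_s1 t 157 1023 2 = true := ex3_b k219_B00pm_101_s1 t230_B00pm_101_s1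

theorem t232_B00pm_101_s1 : ∃ t, chk3 f_B00pm_101_s1 t 156 4095 2 = true := ex3_c k217_B00pm_101_s1 k218_B00pm_101_s1

theorem t233_B00pm_101_s1 : ∃ t, chk3 f_B00pm_101_s1 t 156 2047 2 = true := ex3_b k216_B00pm_101_s1 t232_B00pm_101_s1

theorem t234_B00pm_101_s1 : ∃ t, chk3 f_B00pm_101_s1 t 156 1023 2 = true := ex3_b k215_B00pm_101_s1 t233_B00pm_101_s1

theorem t235_B00pm_101_s1 : ∃ t, chk3 f_B00pm_101_s1 t 78 1023 2 = true := ex3_a t234_B00pm_101_s1 t231_B00pm_101_s1

theorem t236_B00pm_101_s1 : ∃ t, chk3 f_B00pm_101_s1 t 78 1023 1 = true := ex3_c t235_B00pm_101_s1 k222_B00pm_101_s1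

theorem t237_B00pm_101_s1 : ∃ t, chk3 f_B00pm_101_s1 t 78 511 1 = true := ex3_b k214_B00pm_101_s1 t236_B00pm_101_s1

theorem t238_B00pm_101_s1 : ∃ t, chk3 f_B00pm_101_s1 t 78 255 1 = true := ex3_b k213_B00pm_101_s1 t237_B00pm_101_s1

theorem t239_B00pm_101_s1 : ∃ t, chk3 f_B00pm_101_s1 t 39 255 1 = true := ex3_a t238_B00pm_101_s1 t229_B00pm_101_s1

theorem t240_B00pm_101_s1 : ∃ t, chk3 f_B00pm_101_s1 t 39 127 1 = true := ex3_b k212_B00pm_101_s1 t239_B00pm_101_s1

theorem t241_B00pm_101_s1 : ∃ t, chk3 f_B00pm_101_s1 t 39 63 1 = true := ex3_b k211_B00pm_101_s1 t240_B00pm_101_s1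

theorem t242_B00pm_101_s1 : ∃ t, chk3 f_B00pm_101_s1 t 155 4095 5 = true := ex3_a k208_B00pm_101_s1 k209_B00pm_101_s1

theorem t243_B00pm_101_s1 : ∃ t, chk3 f_B00pm_101_s1 t 155 4095 2 = true := ex3_c k207_B00pm_101_s1 t242_B00pm_101_s1

theorem t244_B00pm_101_s1 : ∃ t, chk3 f_B00pm_101_s1 t 155 2047 2 = true := ex3_b k206_B00pm_101_s1 t243_B00pm_101_s1

theorem t245_B00pm_101_s1 : ∃ t, chk3 f_B00pm_101_s1 t 154 4095 5 = true := ex3_a k204_B00pm_101_s1 k205_B00pm_101_s1

theorem t246_B00pm_101_s1 : ∃ t, chk3 f_B00pm_101_s1 t 154 4095 2 = true := ex3_c k203_B00pm_101_s1 t245_B00pm_101_s1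

theorem t247_B00pm_101_s1 : ∃ t, chk3 f_B00pm_101_s1 t 154 2047 2 = true := ex3_b k202_B00pm_101_s1 t246_B00pm_101_s1

theorem t248_B00pm_101_s1 : ∃ t, chk3 f_B00pm_101_s1 t 77 2047 2 = true := ex3_a t247_B00pm_101_s1 t244_B00pm_101_s1

theorem t249_B00pm_101_s1 : ∃ t, chk3 f_B00pm_101_s1 t 77 2047 1 = true := ex3_c t248_B00pm_101_s1 k210_B00pm_101_s1

theorem t250_B00pm_101_s1 : ∃ t, chk3 f_B00pm_101_s1 t 77 2046 2 = true := ex3_a k199_B00pm_101_s1 k200_B00pm_101_s1

theorem t251_B00pm_101_s1 : ∃ t, chk3 f_B00pm_101_s1 t 77 2046 1 = true := ex3_c t250_B00pm_101_s1 k201_B00pm_101_s1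

theorem t252_B00pm_101_s1 : ∃ t, chk3 f_B00pm_101_s1 t 77 1023 1 = true := ex3_b t251_B00pm_101_s1 t249_B00pm_101_s1

theorem t253_B00pm_101_s1 : ∃ t, chk3 f_B00pm_101_s1 t 77 1022 2 = true := ex3_a k196_B00pm_101_s1 k197_B00pm_101_s1

theorem t254_B00pm_101_s1 : ∃ t, chk3 f_B00pm_101_s1 t 77 1022 1 = true := ex3_c t253_B00pm_101_s1 k198_B00pm_101_s1

theorem t255_B00pm_101_s1 : ∃ t, chk3 f_B00pm_101_s1 t 77 511 1 = true := ex3_b t254_B00pm_101_s1 t252_B00pm_101_s1

theorem t256_B00pm_101_s1 : ∃ t, chk3 f_B00pm_101_s1 t 77 510 1 = true := ex3_a k194_B00pm_101_s1 k195_B00pm_101_s1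

theorem t257_B00pm_101_s1 : ∃ t, chk3 f_B00pm_101_s1 t 77 255 1 = true := ex3_b t256_B00pm_101_s1 t255_B00pm_101_s1

theorem t258_B00pm_101_s1 : ∃ t, chk3 f_B00pm_101_s1 t 153 1023 3 = true := ex3_b k192_B00pm_101_s1 k193_B00pm_101_s1

theorem t259_B00pm_101_s1 : ∃ t, chk3 f_B00pm_101_s1 t 153 4095 5 = true := ex3_a k190_B00pm_101_s1 k191_B00pm_101_s1

theorem t260_B00pm_101_s1 : ∃ t, chk3 f_B00pm_101_s1 t 153 2047 5 = true := ex3_b k189_B00pm_101_s1 t259_B00pm_101_s1

theorem t261_B00pm_101_s1 : ∃ t, chk3 f_B00pm_101_s1 t 153 2047 2 = true := ex3_c k188_B00pm_101_s1 t260_B00pm_101_s1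

theorem t262_B00pm_101_s1 : ∃ t, chk3 f_B00pm_101_s1 t 153 1023 2 = true := ex3_b k187_B00pm_101_s1 t261_B00pm_101_s1

theorem t263_B00pm_101_s1 : ∃ t, chk3 f_B00pm_101_s1 t 153 1023 1 = true := ex3_c t262_B00pm_101_s1 t258_B00pm_101_s1

theorem t264_B00pm_101_s1 : ∃ t, chk3 f_B00pm_101_s1 t 304 2047 3 = true := ex3_b k184_B00pm_101_s1 k185_B00pm_101_s1

theorem t265_B00pm_101_s1 : ∃ t, chk3 f_B00pm_101_s1 t 152 2047 3 = true := ex3_a t264_B00pm_101_s1 k186_B00pm_101_s1

theorem t266_B00pm_101_s1 : ∃ t, chk3 f_B00pm_101_s1 t 152 1023 3 = true := ex3_b k183_B00pm_101_s1 t265_B00pm_101_s1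

theorem t267_B00pm_101_s1 : ∃ t, chk3 f_B00pm_101_s1 t 152 4095 2 = true := ex3_c k181_B00pm_101_s1 k182_B00pm_101_s1

theorem t268_B00pm_101_s1 : ∃ t, chk3 f_B00pm_101_s1 t 152 2047 2 = true := ex3_b k180_B00pm_101_s1 t267_B00pm_101_s1

theorem t269_B00pm_101_s1 : ∃ t, chk3 f_B00pm_101_s1 t 152 1023 2 = true := ex3_b k179_B00pm_101_s1 t268_B00pm_101_s1

theorem t270_B00pm_101_s1 : ∃ t, chk3 f_B00pm_101_s1 t 152 1023 1 = true := ex3_c t269_B00pm_101_s1 t266_B00pm_101_s1

theorem t271_B00pm_101_s1 : ∃ t, chk3 f_B00pm_101_s1 t 76 1023 1 = true := ex3_a t270_B00pm_101_s1 t263_B00pm_101_s1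

theorem t272_B00pm_101_s1 : ∃ t, chk3 f_B00pm_101_s1 t 153 1022 1 = true := ex3_c k177_B00pm_101_s1 k178_B00pm_101_s1

theorem t273_B00pm_101_s1 : ∃ t, chk3 f_B00pm_101_s1 t 152 1022 1 = true := ex3_c k175_B00pm_101_s1 k176_B00pm_101_s1

theorem t274_B00pm_101_s1 : ∃ t, chk3 f_B00pm_101_s1 t 76 1022 1 = true := ex3_a t273_B00pm_101_s1 t272_B00pm_101_s1

theorem t275_B00pm_101_s1 : ∃ t, chk3 f_B00pm_101_s1 t 76 511 1 = true := ex3_b t274_B00pm_101_s1 t271_B00pm_101_s1

theorem t276_B00pm_101_s1 : ∃ t, chk3 f_B00pm_101_s1 t 152 510 1 = true := ex3_c k172_B00pm_101_s1 k173_B00pm_101_s1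

theorem t277_B00pm_101_s1 : ∃ t, chk3 f_B00pm_101_s1 t 76 510 1 = true := ex3_a t276_B00pm_101_s1 k174_B00pm_101_s1

theorem t278_B00pm_101_s1 : ∃ t, chk3 f_B00pm_101_s1 t 76 255 1 = true := ex3_b t277_B00pm_101_s1 t275_B00pm_101_s1

theorem t279_B00pm_101_s1 : ∃ t, chk3 f_B00pm_101_s1 t 38 255 1 = true := ex3_a t278_B00pm_101_s1 t257_B00pm_101_s1

theorem t280_B00pm_101_s1 : ∃ t, chk3 f_B00pm_101_s1 t 77 254 1 = true := ex3_c k170_B00pm_101_s1 k171_B00pm_101_s1

theorem t281_B00pm_101_s1 : ∃ t, chk3 f_B00pm_101_s1 t 152 254 1 = true := ex3_c k167_B00pm_101_s1 k168_B00pm_101_s1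

theorem t282_B00pm_101_s1 : ∃ t, chk3 f_B00pm_101_s1 t 76 254 1 = true := ex3_a t281_B00pm_101_s1 k169_B00pm_101_s1

theorem t283_B00pm_101_s1 : ∃ t, chk3 f_B00pm_101_s1 t 38 254 1 = true := ex3_a t282_B00pm_101_s1 t280_B00pm_101_s1

theorem t284_B00pm_101_s1 : ∃ t, chk3 f_B00pm_101_s1 t 38 127 1 = true := ex3_b t283_B00pm_101_s1 t279_B00pm_101_s1

theorem t285_B00pm_101_s1 : ∃ t, chk3 f_B00pm_101_s1 t 76 126 1 = true := ex3_a k164_B00pm_101_s1 k165_B00pm_101_s1

theorem t286_B00pm_101_s1 : ∃ t, chk3 f_B00pm_101_s1 t 38 126 1 = true := ex3_a t285_B00pm_101_s1 k166_B00pm_101_s1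

theorem t287_B00pm_101_s1 : ∃ t, chk3 f_B00pm_101_s1 t 38 63 1 = true := ex3_b t286_B00pm_101_s1 t284_B00pm_101_s1

theorem t288_B00pm_101_s1 : ∃ t, chk3 f_B00pm_101_s1 t 19 63 1 = true := ex3_a t287_B00pm_101_s1 t241_B00pm_101_s1

theorem t289_B00pm_101_s1 : ∃ t, chk3 f_B00pm_101_s1 t 19 31 1 = true := ex3_b k163_B00pm_101_s1 t288_B00pm_101_s1

theorem t290_B00pm_101_s1 : ∃ t, chk3 f_B00pm_101_s1 t 19 15 1 = true := ex3_b k162_B00pm_101_s1 t289_B00pm_101_s1

theorem t291_B00pm_101_s1 : ∃ t, chk3 f_B00pm_101_s1 t 19 7 1 = true := ex3_b k161_B00pm_101_s1 t290_B00pm_101_s1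

theorem t292_B00pm_101_s1 : ∃ t, chk3 f_B00pm_101_s1 t 303 4095 6 = true := ex3_b k158_B00pm_101_s1 k159_B00pm_101_s1

theorem t293_B00pm_101_s1 : ∃ t, chk3 f_B00pm_101_s1 t 303 4095 3 = true := ex3_c t292_B00pm_101_s1 k160_B00pm_101_s1

theorem t294_B00pm_101_s1 : ∃ t, chk3 f_B00pm_101_s1 t 303 2047 3 = true := ex3_b k157_B00pm_101_s1 t293_B00pm_101_s1

theorem t295_B00pm_101_s1 : ∃ t, chk3 f_B00pm_101_s1 t 302 4095 6 = true := ex3_b k154_B00pm_101_s1 k155_B00pm_101_s1

theorem t296_B00pm_101_s1 : ∃ t, chk3 f_B00pm_101_s1 t 302 4095 3 = true := ex3_c t295_B00pm_101_s1 k156_B00pm_101_s1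

theorem t297_B00pm_101_s1 : ∃ t, chk3 f_B00pm_101_s1 t 302 2047 3 = true := ex3_b k153_B00pm_101_s1 t296_B00pm_101_s1

theorem t298_B00pm_101_s1 : ∃ t, chk3 f_B00pm_101_s1 t 151 2047 3 = true := ex3_a t297_B00pm_101_s1 t294_B00pm_101_s1

theorem t299_B00pm_101_s1 : ∃ t, chk3 f_B00pm_101_s1 t 151 1023 3 = true := ex3_b k152_B00pm_101_s1 t298_B00pm_101_s1

theorem t300_B00pm_101_s1 : ∃ t, chk3 f_B00pm_101_s1 t 151 2047 2 = true := ex3_a k150_B00pm_101_s1 k151_B00pm_101_s1

theorem t301_B00pm_101_s1 : ∃ t, chk3 f_B00pm_101_s1 t 151 1023 2 = true := ex3_b k149_B00pm_101_s1 t300_B00pm_101_s1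

theorem t302_B00pm_101_s1 : ∃ t, chk3 f_B00pm_101_s1 t 151 1023 1 = true := ex3_c t301_B00pm_101_s1 t299_B00pm_101_s1

theorem t303_B00pm_101_s1 : ∃ t, chk3 f_B00pm_101_s1 t 301 4095 6 = true := ex3_b k146_B00pm_101_s1 k147_B00pm_101_s1

theorem t304_B00pm_101_s1 : ∃ t, chk3 f_B00pm_101_s1 t 301 4095 3 = true := ex3_c t303_B00pm_101_s1 k148_B00pm_101_s1

theorem t305_B00pm_101_s1 : ∃ t, chk3 f_B00pm_101_s1 t 301 2047 3 = true := ex3_b k145_B00pm_101_s1 t304_B00pm_101_s1

theorem t306_B00pm_101_s1 : ∃ t, chk3 f_B00pm_101_s1 t 300 4095 7 = true := ex3_b k143_B00pm_101_s1 k144_B00pm_101_s1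

theorem t307_B00pm_101_s1 : ∃ t, chk3 f_B00pm_101_s1 t 300 4095 3 = true := ex3_c k142_B00pm_101_s1 t306_B00pm_101_s1

theorem t308_B00pm_101_s1 : ∃ t, chk3 f_B00pm_101_s1 t 300 2047 3 = true := ex3_b k141_B00pm_101_s1 t307_B00pm_101_s1

theorem t309_B00pm_101_s1 : ∃ t, chk3 f_B00pm_101_s1 t 150 2047 3 = true := ex3_a t308_B00pm_101_s1 t305_B00pm_101_s1

theorem t310_B00pm_101_s1 : ∃ t, chk3 f_B00pm_101_s1 t 150 2046 3 = true := ex3_a k139_B00pm_101_s1 k140_B00pm_101_s1

theorem t311_B00pm_101_s1 : ∃ t, chk3 f_B00pm_101_s1 t 150 1023 3 = true := ex3_b t310_B00pm_101_s1 t309_B00pm_101_s1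

theorem t312_B00pm_101_s1 : ∃ t, chk3 f_B00pm_101_s1 t 150 1023 2 = true := ex3_b k137_B00pm_101_s1 k138_B00pm_101_s1

theorem t313_B00pm_101_s1 : ∃ t, chk3 f_B00pm_101_s1 t 150 1023 1 = true := ex3_c t312_B00pm_101_s1 t311_B00pm_101_s1

theorem t314_B00pm_101_s1 : ∃ t, chk3 f_B00pm_101_s1 t 75 1023 1 = true := ex3_a t313_B00pm_101_s1 t302_B00pm_101_s1

theorem t315_B00pm_101_s1 : ∃ t, chk3 f_B00pm_101_s1 t 151 1022 3 = true := ex3_c k135_B00pm_101_s1 k136_B00pm_101_s1

theorem t316_B00pm_101_s1 : ∃ t, chk3 f_B00pm_101_s1 t 151 1022 1 = true := ex3_c k134_B00pm_101_s1 t315_B00pm_101_s1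

theorem t317_B00pm_101_s1 : ∃ t, chk3 f_B00pm_101_s1 t 150 1022 3 = true := ex3_a k132_B00pm_101_s1 k133_B00pm_101_s1

theorem t318_B00pm_101_s1 : ∃ t, chk3 f_B00pm_101_s1 t 150 1022 1 = true := ex3_c k131_B00pm_101_s1 t317_B00pm_101_s1

theorem t319_B00pm_101_s1 : ∃ t, chk3 f_B00pm_101_s1 t 75 1022 1 = true := ex3_a t318_B00pm_101_s1 t316_B00pm_101_s1

theorem t320_B00pm_101_s1 : ∃ t, chk3 f_B00pm_101_s1 t 75 511 1 = true := ex3_b t319_B00pm_101_s1 t314_B00pm_101_s1

theorem t321_B00pm_101_s1 : ∃ t, chk3 f_B00pm_101_s1 t 151 510 1 = true := ex3_c k129_B00pm_101_s1 k130_B00pm_101_s1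

theorem t322_B00pm_101_s1 : ∃ t, chk3 f_B00pm_101_s1 t 150 510 6 = true := ex3_a k126_B00pm_101_s1 k127_B00pm_101_s1

theorem t323_B00pm_101_s1 : ∃ t, chk3 f_B00pm_101_s1 t 150 510 3 = true := ex3_c t322_B00pm_101_s1 k128_B00pm_101_s1

theorem t324_B00pm_101_s1 : ∃ t, chk3 f_B00pm_101_s1 t 150 510 1 = true := ex3_c k125_B00pm_101_s1 t323_B00pm_101_s1

theorem t325_B00pm_101_s1 : ∃ t, chk3 f_B00pm_101_s1 t 75 510 1 = true := ex3_a t324_B00pm_101_s1 t321_B00pm_101_s1

theorem t326_B00pm_101_s1 : ∃ t, chk3 f_B00pm_101_s1 t 75 255 1 = true := ex3_b t325_B00pm_101_s1 t320_B00pm_101_s1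

theorem t327_B00pm_101_s1 : ∃ t, chk3 f_B00pm_101_s1 t 151 254 1 = true := ex3_c k123_B00pm_101_s1 k124_B00pm_101_s1

theorem t328_B00pm_101_s1 : ∃ t, chk3 f_B00pm_101_s1 t 150 254 3 = true := ex3_a k121_B00pm_101_s1 k122_B00pm_101_s1

theorem t329_B00pm_101_s1 : ∃ t, chk3 f_B00pm_101_s1 t 150 254 1 = true := ex3_c k120_B00pm_101_s1 t328_B00pm_101_s1

theorem t330_B00pm_101_s1 : ∃ t, chk3 f_B00pm_101_s1 t 75 254 1 = true := ex3_a t329_B00pm_101_s1 t327_B00pm_101_s1

theorem t331_B00pm_101_s1 : ∃ t, chk3 f_B00pm_101_s1 t 75 127 1 = true := ex3_b t330_B00pm_101_s1 t326_B00pm_101_s1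

theorem t332_B00pm_101_s1 : ∃ t, chk3 f_B00pm_101_s1 t 150 126 1 = true := ex3_c k117_B00pm_101_s1 k118_B00pm_101_s1

theorem t333_B00pm_101_s1 : ∃ t, chk3 f_B00pm_101_s1 t 75 126 1 = true := ex3_a t332_B00pm_101_s1 k119_B00pm_101_s1

theorem t334_B00pm_101_s1 : ∃ t, chk3 f_B00pm_101_s1 t 75 63 1 = true := ex3_b t333_B00pm_101_s1 t331_B00pm_101_s1

theorem t335_B00pm_101_s1 : ∃ t, chk3 f_B00pm_101_s1 t 75 31 1 = true := ex3_b k116_B00pm_101_s1 t334_B00pm_101_s1

theorem t336_B00pm_101_s1 : ∃ t, chk3 f_B00pm_101_s1 t 299 4095 7 = true := ex3_b k114_B00pm_101_s1 k115_B00pm_101_s1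

theorem t337_B00pm_101_s1 : ∃ t, chk3 f_B00pm_101_s1 t 299 4095 3 = true := ex3_c k113_B00pm_101_s1 t336_B00pm_101_s1

theorem t338_B00pm_101_s1 : ∃ t, chk3 f_B00pm_101_s1 t 299 2047 3 = true := ex3_b k112_B00pm_101_s1 t337_B00pm_101_s1

theorem t339_B00pm_101_s1 : ∃ t, chk3 f_B00pm_101_s1 t 298 8191 7 = true := ex3_a k110_B00pm_101_s1 k111_B00pm_101_s1

theorem t340_B00pm_101_s1 : ∃ t, chk3 f_B00pm_101_s1 t 298 4095 7 = true := ex3_b k109_B00pm_101_s1 t339_B00pm_101_s1

theorem t341_B00pm_101_s1 : ∃ t, chk3 f_B00pm_101_s1 t 298 4095 3 = true := ex3_c k108_B00pm_101_s1 t340_B00pm_101_s1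

theorem t342_B00pm_101_s1 : ∃ t, chk3 f_B00pm_101_s1 t 298 2047 3 = true := ex3_b k107_B00pm_101_s1 t341_B00pm_101_s1

theorem t343_B00pm_101_s1 : ∃ t, chk3 f_B00pm_101_s1 t 149 2047 3 = true := ex3_a t342_B00pm_101_s1 t338_B00pm_101_s1

theorem t344_B00pm_101_s1 : ∃ t, chk3 f_B00pm_101_s1 t 299 2046 3 = true := ex3_c k105_B00pm_101_s1 k106_B00pm_101_s1

theorem t345_B00pm_101_s1 : ∃ t, chk3 f_B00pm_101_s1 t 298 2046 3 = true := ex3_c k103_B00pm_101_s1 k104_B00pm_101_s1

theorem t346_B00pm_101_s1 : ∃ t, chk3 f_B00pm_101_s1 t 149 2046 3 = true := ex3_a t345_B00pm_101_s1 t344_B00pm_101_s1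

theorem t347_B00pm_101_s1 : ∃ t, chk3 f_B00pm_101_s1 t 149 1023 3 = true := ex3_b t346_B00pm_101_s1 t343_B00pm_101_s1

theorem t348_B00pm_101_s1 : ∃ t, chk3 f_B00pm_101_s1 t 149 1023 2 = true := ex3_b k101_B00pm_101_s1 k102_B00pm_101_s1

theorem t349_B00pm_101_s1 : ∃ t, chk3 f_B00pm_101_s1 t 149 1023 1 = true := ex3_c t348_B00pm_101_s1 t347_B00pm_101_s1

theorem t350_B00pm_101_s1 : ∃ t, chk3 f_B00pm_101_s1 t 299 1022 3 = true := ex3_c k99_B00pm_101_s1 k100_B00pm_101_s1

theorem t351_B00pm_101_s1 : ∃ t, chk3 f_B00pm_101_s1 t 298 1022 7 = true := ex3_a k97_B00pm_101_s1 k98_B00pm_101_s1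

theorem t352_B00pm_101_s1 : ∃ t, chk3 f_B00pm_101_s1 t 298 1022 3 = true := ex3_c k96_B00pm_101_s1 t351_B00pm_101_s1

theorem t353_B00pm_101_s1 : ∃ t, chk3 f_B00pm_101_s1 t 149 1022 3 = true := ex3_a t352_B00pm_101_s1 t350_B00pm_101_s1

theorem t354_B00pm_101_s1 : ∃ t, chk3 f_B00pm_101_s1 t 149 1022 1 = true := ex3_c k95_B00pm_101_s1 t353_B00pm_101_s1

theorem t355_B00pm_101_s1 : ∃ t, chk3 f_B00pm_101_s1 t 149 511 1 = true := ex3_b t354_B00pm_101_s1 t349_B00pm_101_s1

theorem t356_B00pm_101_s1 : ∃ t, chk3 f_B00pm_101_s1 t 149 510 7 = true := ex3_a k93_B00pm_101_s1 k94_B00pm_101_s1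

theorem t357_B00pm_101_s1 : ∃ t, chk3 f_B00pm_101_s1 t 149 510 6 = true := ex3_a k91_B00pm_101_s1 k92_B00pm_101_s1

theorem t358_B00pm_101_s1 : ∃ t, chk3 f_B00pm_101_s1 t 149 510 3 = true := ex3_c t357_B00pm_101_s1 t356_B00pm_101_s1

theorem t359_B00pm_101_s1 : ∃ t, chk3 f_B00pm_101_s1 t 149 510 1 = true := ex3_c k90_B00pm_101_s1 t358_B00pm_101_s1

theorem t360_B00pm_101_s1 : ∃ t, chk3 f_B00pm_101_s1 t 149 255 1 = true := ex3_b t359_B00pm_101_s1 t355_B00pm_101_s1

theorem t361_B00pm_101_s1 : ∃ t, chk3 f_B00pm_101_s1 t 298 254 3 = true := ex3_b k87_B00pm_101_s1 k88_B00pm_101_s1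

theorem t362_B00pm_101_s1 : ∃ t, chk3 f_B00pm_101_s1 t 149 254 3 = true := ex3_a t361_B00pm_101_s1 k89_B00pm_101_s1

theorem t363_B00pm_101_s1 : ∃ t, chk3 f_B00pm_101_s1 t 149 254 2 = true := ex3_a k85_B00pm_101_s1 k86_B00pm_101_s1

theorem t364_B00pm_101_s1 : ∃ t, chk3 f_B00pm_101_s1 t 149 254 1 = true := ex3_c t363_B00pm_101_s1 t362_B00pm_101_s1

theorem t365_B00pm_101_s1 : ∃ t, chk3 f_B00pm_101_s1 t 149 127 1 = true := ex3_b t364_B00pm_101_s1 t360_B00pm_101_s1

theorem t366_B00pm_101_s1 : ∃ t, chk3 f_B00pm_101_s1 t 149 253 1 = true := ex3_c k83_B00pm_101_s1 k84_B00pm_101_s1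

theorem t367_B00pm_101_s1 : ∃ t, chk3 f_B00pm_101_s1 t 149 126 1 = true := ex3_b k82_B00pm_101_s1 t366_B00pm_101_s1

theorem t368_B00pm_101_s1 : ∃ t, chk3 f_B00pm_101_s1 t 149 63 1 = true := ex3_b t367_B00pm_101_s1 t365_B00pm_101_s1

theorem t369_B00pm_101_s1 : ∃ t, chk3 f_B00pm_101_s1 t 297 8191 7 = true := ex3_a k80_B00pm_101_s1 k81_B00pm_101_s1

theorem t370_B00pm_101_s1 : ∃ t, chk3 f_B00pm_101_s1 t 297 4095 7 = true := ex3_b k79_B00pm_101_s1 t369_B00pm_101_s1

theorem t371_B00pm_101_s1 : ∃ t, chk3 f_B00pm_101_s1 t 297 2047 7 = true := ex3_b k78_B00pm_101_s1 t370_B00pm_101_s1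

theorem t372_B00pm_101_s1 : ∃ t, chk3 f_B00pm_101_s1 t 297 2046 7 = true := ex3_a k76_B00pm_101_s1 k77_B00pm_101_s1

theorem t373_B00pm_101_s1 : ∃ t, chk3 f_B00pm_101_s1 t 297 1023 7 = true := ex3_b t372_B00pm_101_s1 t371_B00pm_101_s1

theorem t374_B00pm_101_s1 : ∃ t, chk3 f_B00pm_101_s1 t 297 1022 7 = true := ex3_a k74_B00pm_101_s1 k75_B00pm_101_s1

theorem t375_B00pm_101_s1 : ∃ t, chk3 f_B00pm_101_s1 t 297 511 7 = true := ex3_b t374_B00pm_101_s1 t373_B00pm_101_s1

theorem t376_B00pm_101_s1 : ∃ t, chk3 f_B00pm_101_s1 t 297 510 7 = true := ex3_b k72_B00pm_101_s1 k73_B00pm_101_s1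

theorem t377_B00pm_101_s1 : ∃ t, chk3 f_B00pm_101_s1 t 297 255 7 = true := ex3_b t376_B00pm_101_s1 t375_B00pm_101_s1

theorem t378_B00pm_101_s1 : ∃ t, chk3 f_B00pm_101_s1 t 297 1023 6 = true := ex3_b k70_B00pm_101_s1 k71_B00pm_101_s1

theorem t379_B00pm_101_s1 : ∃ t, chk3 f_B00pm_101_s1 t 297 511 6 = true := ex3_b k69_B00pm_101_s1 t378_B00pm_101_s1

theorem t380_B00pm_101_s1 : ∃ t, chk3 f_B00pm_101_s1 t 297 255 6 = true := ex3_b k68_B00pm_101_s1 t379_B00pm_101_s1

theorem t381_B00pm_101_s1 : ∃ t, chk3 f_B00pm_101_s1 t 297 255 3 = true := ex3_c t380_B00pm_101_s1 t377_B00pm_101_s1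

theorem t382_B00pm_101_s1 : ∃ t, chk3 f_B00pm_101_s1 t 296 2047 7 = true := ex3_b k66_B00pm_101_s1 k67_B00pm_101_s1

theorem t383_B00pm_101_s1 : ∃ t, chk3 f_B00pm_101_s1 t 296 1023 7 = true := ex3_b k65_B00pm_101_s1 t382_B00pm_101_s1

theorem t384_B00pm_101_s1 : ∃ t, chk3 f_B00pm_101_s1 t 296 511 7 = true := ex3_b k64_B00pm_101_s1 t383_B00pm_101_s1

theorem t385_B00pm_101_s1 : ∃ t, chk3 f_B00pm_101_s1 t 296 510 7 = true := ex3_b k62_B00pm_101_s1 k63_B00pm_101_s1

theorem t386_B00pm_101_s1 : ∃ t, chk3 f_B00pm_101_s1 t 296 255 7 = true := ex3_b t385_B00pm_101_s1 t384_B00pm_101_s1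

theorem t387_B00pm_101_s1 : ∃ t, chk3 f_B00pm_101_s1 t 296 255 6 = true := ex3_b k60_B00pm_101_s1 k61_B00pm_101_s1

theorem t388_B00pm_101_s1 : ∃ t, chk3 f_B00pm_101_s1 t 296 255 3 = true := ex3_c t387_B00pm_101_s1 t386_B00pm_101_s1

theorem t389_B00pm_101_s1 : ∃ t, chk3 f_B00pm_101_s1 t 148 255 3 = true := ex3_a t388_B00pm_101_s1 t381_B00pm_101_s1

theorem t390_B00pm_101_s1 : ∃ t, chk3 f_B00pm_101_s1 t 297 511 2 = true := ex3_b k58_B00pm_101_s1 k59_B00pm_101_s1

theorem t391_B00pm_101_s1 : ∃ t, chk3 f_B00pm_101_s1 t 297 255 2 = true := ex3_b k57_B00pm_101_s1 t390_B00pm_101_s1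

theorem t392_B00pm_101_s1 : ∃ t, chk3 f_B00pm_101_s1 t 296 255 2 = true := ex3_b k55_B00pm_101_s1 k56_B00pm_101_s1

theorem t393_B00pm_101_s1 : ∃ t, chk3 f_B00pm_101_s1 t 148 255 2 = true := ex3_a t392_B00pm_101_s1 t391_B00pm_101_s1

theorem t394_B00pm_101_s1 : ∃ t, chk3 f_B00pm_101_s1 t 148 255 1 = true := ex3_c t393_B00pm_101_s1 t389_B00pm_101_s1

theorem t395_B00pm_101_s1 : ∃ t, chk3 f_B00pm_101_s1 t 297 509 3 = true := ex3_c k53_B00pm_101_s1 k54_B00pm_101_s1

theorem t396_B00pm_101_s1 : ∃ t, chk3 f_B00pm_101_s1 t 297 254 3 = true := ex3_b k52_B00pm_101_s1 t395_B00pm_101_s1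

theorem t397_B00pm_101_s1 : ∃ t, chk3 f_B00pm_101_s1 t 296 254 3 = true := ex3_c k50_B00pm_101_s1 k51_B00pm_101_s1

theorem t398_B00pm_101_s1 : ∃ t, chk3 f_B00pm_101_s1 t 148 254 3 = true := ex3_a t397_B00pm_101_s1 t396_B00pm_101_s1

theorem t399_B00pm_101_s1 : ∃ t, chk3 f_B00pm_101_s1 t 148 254 2 = true := ex3_a k48_B00pm_101_s1 k49_B00pm_101_s1

theorem t400_B00pm_101_s1 : ∃ t, chk3 f_B00pm_101_s1 t 148 254 1 = true := ex3_c t399_B00pm_101_s1 t398_B00pm_101_s1

theorem t401_B00pm_101_s1 : ∃ t, chk3 f_B00pm_101_s1 t 148 127 1 = true := ex3_b t400_B00pm_101_s1 t394_B00pm_101_s1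

theorem t402_B00pm_101_s1 : ∃ t, chk3 f_B00pm_101_s1 t 148 126 3 = true := ex3_b k46_B00pm_101_s1 k47_B00pm_101_s1

theorem t403_B00pm_101_s1 : ∃ t, chk3 f_B00pm_101_s1 t 148 126 2 = true := ex3_b k44_B00pm_101_s1 k45_B00pm_101_s1

theorem t404_B00pm_101_s1 : ∃ t, chk3 f_B00pm_101_s1 t 148 126 1 = true := ex3_c t403_B00pm_101_s1 t402_B00pm_101_s1

theorem t405_B00pm_101_s1 : ∃ t, chk3 f_B00pm_101_s1 t 148 63 1 = true := ex3_b t404_B00pm_101_s1 t401_B00pm_101_s1

theorem t406_B00pm_101_s1 : ∃ t, chk3 f_B00pm_101_s1 t 74 63 1 = true := ex3_a t405_B00pm_101_s1 t368_B00pm_101_s1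

theorem t407_B00pm_101_s1 : ∃ t, chk3 f_B00pm_101_s1 t 74 62 1 = true := ex3_a k42_B00pm_101_s1 k43_B00pm_101_s1

theorem t408_B00pm_101_s1 : ∃ t, chk3 f_B00pm_101_s1 t 74 31 1 = true := ex3_b t407_B00pm_101_s1 t406_B00pm_101_s1

theorem t409_B00pm_101_s1 : ∃ t, chk3 f_B00pm_101_s1 t 37 31 1 = true := ex3_a t408_B00pm_101_s1 t335_B00pm_101_s1

theorem t410_B00pm_101_s1 : ∃ t, chk3 f_B00pm_101_s1 t 73 511 3 = true := ex3_b k40_B00pm_101_s1 k41_B00pm_101_s1

theorem t411_B00pm_101_s1 : ∃ t, chk3 f_B00pm_101_s1 t 73 511 1 = true := ex3_c k39_B00pm_101_s1 t410_B00pm_101_s1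

theorem t412_B00pm_101_s1 : ∃ t, chk3 f_B00pm_101_s1 t 73 510 1 = true := ex3_c k37_B00pm_101_s1 k38_B00pm_101_s1

theorem t413_B00pm_101_s1 : ∃ t, chk3 f_B00pm_101_s1 t 73 255 1 = true := ex3_b t412_B00pm_101_s1 t411_B00pm_101_s1

theorem t414_B00pm_101_s1 : ∃ t, chk3 f_B00pm_101_s1 t 73 254 3 = true := ex3_a k35_B00pm_101_s1 k36_B00pm_101_s1

theorem t415_B00pm_101_s1 : ∃ t, chk3 f_B00pm_101_s1 t 73 254 1 = true := ex3_c k34_B00pm_101_s1 t414_B00pm_101_s1

theorem t416_B00pm_101_s1 : ∃ t, chk3 f_B00pm_101_s1 t 73 127 1 = true := ex3_b t415_B00pm_101_s1 t413_B00pm_101_s1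

theorem t417_B00pm_101_s1 : ∃ t, chk3 f_B00pm_101_s1 t 73 126 1 = true := ex3_c k32_B00pm_101_s1 k33_B00pm_101_s1

theorem t418_B00pm_101_s1 : ∃ t, chk3 f_B00pm_101_s1 t 73 63 1 = true := ex3_b t417_B00pm_101_s1 t416_B00pm_101_s1

theorem t419_B00pm_101_s1 : ∃ t, chk3 f_B00pm_101_s1 t 73 31 1 = true := ex3_b k31_B00pm_101_s1 t418_B00pm_101_s1

theorem t420_B00pm_101_s1 : ∃ t, chk3 f_B00pm_101_s1 t 72 127 1 = true := ex3_b k29_B00pm_101_s1 k30_B00pm_101_s1

theorem t421_B00pm_101_s1 : ∃ t, chk3 f_B00pm_101_s1 t 72 63 1 = true := ex3_b k28_B00pm_101_s1 t420_B00pm_101_s1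

theorem t422_B00pm_101_s1 : ∃ t, chk3 f_B00pm_101_s1 t 72 31 1 = true := ex3_b k27_B00pm_101_s1 t421_B00pm_101_s1

theorem t423_B00pm_101_s1 : ∃ t, chk3 f_B00pm_101_s1 t 36 31 1 = true := ex3_a t422_B00pm_101_s1 t419_B00pm_101_s1

theorem t424_B00pm_101_s1 : ∃ t, chk3 f_B00pm_101_s1 t 18 31 1 = true := ex3_a t423_B00pm_101_s1 t409_B00pm_101_s1

theorem t425_B00pm_101_s1 : ∃ t, chk3 f_B00pm_101_s1 t 18 15 1 = true := ex3_b k26_B00pm_101_s1 t424_B00pm_101_s1

theorem t426_B00pm_101_s1 : ∃ t, chk3 f_B00pm_101_s1 t 18 7 1 = true := ex3_b k25_B00pm_101_s1 t425_B00pm_101_s1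

theorem t427_B00pm_101_s1 : ∃ t, chk3 f_B00pm_101_s1 t 9 7 1 = true := ex3_a t426_B00pm_101_s1 t291_B00pm_101_s1

theorem t428_B00pm_101_s1 : ∃ t, chk3 f_B00pm_101_s1 t 35 127 1 = true := ex3_b k23_B00pm_101_s1 k24_B00pm_101_s1

theorem t429_B00pm_101_s1 : ∃ t, chk3 f_B00pm_101_s1 t 17 127 1 = true := ex3_a k22_B00pm_101_s1 t428_B00pm_101_s1

theorem t430_B00pm_101_s1 : ∃ t, chk3 f_B00pm_101_s1 t 17 126 1 = true := ex3_a k20_B00pm_101_s1 k21_B00pm_101_s1

theorem t431_B00pm_101_s1 : ∃ t, chk3 f_B00pm_101_s1 t 17 63 1 = true := ex3_b t430_B00pm_101_s1 t429_B00pm_101_s1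

theorem t432_B00pm_101_s1 : ∃ t, chk3 f_B00pm_101_s1 t 8 63 1 = true := ex3_a k19_B00pm_101_s1 t431_B00pm_101_s1

theorem t433_B00pm_101_s1 : ∃ t, chk3 f_B00pm_101_s1 t 35 62 1 = true := ex3_b k17_B00pm_101_s1 k18_B00pm_101_s1

theorem t434_B00pm_101_s1 : ∃ t, chk3 f_B00pm_101_s1 t 17 62 1 = true := ex3_a k16_B00pm_101_s1 t433_B00pm_101_s1

theorem t435_B00pm_101_s1 : ∃ t, chk3 f_B00pm_101_s1 t 16 62 1 = true := ex3_a k14_B00pm_101_s1 k15_B00pm_101_s1

theorem t436_B00pm_101_s1 : ∃ t, chk3 f_B00pm_101_s1 t 8 62 1 = true := ex3_a t435_B00pm_101_s1 t434_B00pm_101_s1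

theorem t437_B00pm_101_s1 : ∃ t, chk3 f_B00pm_101_s1 t 8 31 1 = true := ex3_b t436_B00pm_101_s1 t432_B00pm_101_s1

theorem t438_B00pm_101_s1 : ∃ t, chk3 f_B00pm_101_s1 t 34 61 3 = true := ex3_a k11_B00pm_101_s1 k12_B00pm_101_s1

theorem t439_B00pm_101_s1 : ∃ t, chk3 f_B00pm_101_s1 t 34 61 1 = true := ex3_c k10_B00pm_101_s1 t438_B00pm_101_s1

theorem t440_B00pm_101_s1 : ∃ t, chk3 f_B00pm_101_s1 t 34 30 1 = true := ex3_b k9_B00pm_101_s1 t439_B00pm_101_s1

theorem t441_B00pm_101_s1 : ∃ t, chk3 f_B00pm_101_s1 t 17 30 1 = true := ex3_a t440_B00pm_101_s1 k13_B00pm_101_s1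

theorem t442_B00pm_101_s1 : ∃ t, chk3 f_B00pm_101_s1 t 33 61 1 = true := ex3_c k7_B00pm_101_s1 k8_B00pm_101_s1

theorem t443_B00pm_101_s1 : ∃ t, chk3 f_B00pm_101_s1 t 32 123 1 = true := ex3_a k5_B00pm_101_s1 k6_B00pm_101_s1

theorem t444_B00pm_101_s1 : ∃ t, chk3 f_B00pm_101_s1 t 32 61 1 = true := ex3_b k4_B00pm_101_s1 t443_B00pm_101_s1

theorem t445_B00pm_101_s1 : ∃ t, chk3 f_B00pm_101_s1 t 16 61 1 = true := ex3_a t444_B00pm_101_s1 t442_B00pm_101_s1

theorem t446_B00pm_101_s1 : ∃ t, chk3 f_B00pm_101_s1 t 16 30 1 = true := ex3_b k3_B00pm_101_s1 t445_B00pm_101_s1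

theorem t447_B00pm_101_s1 : ∃ t, chk3 f_B00pm_101_s1 t 8 30 1 = true := ex3_a t446_B00pm_101_s1 t441_B00pm_101_s1

theorem t448_B00pm_101_s1 : ∃ t, chk3 f_B00pm_101_s1 t 8 15 1 = true := ex3_b t447_B00pm_101_s1 t437_B00pm_101_s1

theorem t449_B00pm_101_s1 : ∃ t, chk3 f_B00pm_101_s1 t 8 7 1 = true := ex3_b k2_B00pm_101_s1 t448_B00pm_101_s1

theorem t450_B00pm_101_s1 : ∃ t, chk3 f_B00pm_101_s1 t 4 7 1 = true := ex3_a t449_B00pm_101_s1 t427_B00pm_101_s1

theorem t451_B00pm_101_s1 : ∃ t, chk3 f_B00pm_101_s1 t 4 3 1 = true := ex3_b k1_B00pm_101_s1 t450_B00pm_101_s1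

theorem t452_B00pm_101_s1 : ∃ t, chk3 f_B00pm_101_s1 t 2 3 1 = true := ex3_a t451_B00pm_101_s1 k226_B00pm_101_s1

theorem t453_B00pm_101_s1 : ∃ t, chk3 f_B00pm_101_s1 t 2 1 1 = true := ex3_b k0_B00pm_101_s1 t452_B00pm_101_s1

theorem t454_B00pm_101_s1 : ∃ t, chk3 f_B00pm_101_s1 t 1 1 1 = true := ex3_a t453_B00pm_101_s1 k227_B00pm_101_s1

theorem c_B00pm_101_s1 : CertF 536870912 536870912 536870912 536870912 923417968 42949674 false true false .npn 1 0 1
    ndB0q1 ndB0q1 pcB0 cut_B00pm_101_s1 Ext.none :=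
  certF2 (fam := false) (s1 := true) (s2 := false) (a := 1) (b := 0) (c := 1) (cn := .npn) (n1 := ndB0q1) (n2 := ndB0q1) (pc := pcB0) (cut := cut_B00pm_101_s1) (xt := Ext.none) (P1 := 536870912) (W1 := 536870912) (P2 := 536870912) (W2 := 536870912) (P3 := 923417968) (W3 := 42949674)
    rfl (fun _ => rfl) t454_B00pm_101_s1

theorem s_B00pm_101_s1 {κ x : ℝ} (hκ : κ * h0 = ken x) (hx : ((923417968 : ℕ) : ℝ) / S ≤ x)
    (hx' : x ≤ (((923417968 : ℕ) : ℝ) + (42949674 : ℕ)) / S)
    (H : CutB (VFD κ) PP tK tL pcB (Cut.of [[⟨0, 1, 0, 33554432⟩, ⟨1, 0, 0, 33554432⟩, ⟨2, 1, 0, 33554432⟩], [⟨0, 0, 1, 20971520⟩, ⟨1, 1, 2, 20971520⟩, ⟨2, 1, 0, 8388608⟩]]) 1 0 1 0 0 (sgb true) (sgb false) x) :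
    AltB (VFD κ) PP tK tL pcB [⟨3, 0, 0, 1449551462⟩] 1 0 1 0 0 (sgb true) (sgb false) x :=
  strip_altBD (m := 1449551462) true rfl hκ (SH.κ0 hκ (SH.hx1 hx).le (SH.hx2 hx').le) (SH.hx1 hx).le (SH.hx2 hx') (covB01).cov (covB01).cov hx hx' c_B00pm_101_s1 H (noExt_B)

end Pool.Agent.Strip051.G.I8600_9000.Tab.St.C
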