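import Pool.Agent.Strip051.G.I8600_9000.StH
import Pool.Agent.Strip051.G.I8600_9000.StF

/-! # Unit strips 16 (generated) -/

set_option linter.all false
set_option maxRecDepth 100000

namespace Pool.Agent.Strip051.G.I8600_9000.Tab.St.C

open Pool.Agent.Strip051.PB Pool.Agent.Strip051.PB.T Pool.Agent.StripNear Pool.Agent.Strip051.LC
open Pool.Agent.Strip051.G.I8600_9000.Tab Pool.Agent.Strip051.G.I8600_9000.Tab.St

noncomputable def cut_B00pm_101_s3 : Cut := Cut.of [[⟨3, 0, 0, 2845415833⟩], [⟨0, 1, 0, 33554432⟩, ⟨1, 0, 0, 33554432⟩, ⟨2, 1, 0, 33554432⟩], [⟨0, 0, 1, 20971520⟩, ⟨1, 1, 2, 20971520⟩, ⟨2, 1, 0, 8388608⟩]]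

noncomputable def xt_B00pm_101_s3 : Ext := strExt dd false true false .u0 .u0m .s0m .npn 1 0 1 rfl rfl gl0 vv ndB0q1 ndB0q1

noncomputable def f_B00pm_101_s3 : ℕ → ℕ → ℕ → ℕ → Bool := onCell 536870912 536870912 536870912 536870912 923417968 42949674
    (rowF 0 false true false .npn 1 0 1 (qsf 536870912 536870912 536870912 536870912 0) ndB0q1 ndB0q1 pcB0 cut_B00pm_101_s3 xt_B00pm_101_s3)

def k0_B00pm_101_s3 : ∃ t, chk3 f_B00pm_101_s3 t 4 4 1 = true :=
  ⟨(b (a (l 4) (a (a (l 4) (l 1)) (l 1))) (a (b (a (l 4) (c (l 530106895) (l 529637135))) (a (c (l 531513615) (l 530681871)) (c (l 531106319) (l 530313487)))) (b (a (c (l 530286095) (l 529283087)) (a (a (l 530881807) (l 1)) (l 1))) (a (c (l 530985999) (l 529941007)) (c (b (l 530280207) (l 530481679)) (l 529588239)))))), by decide +kernel⟩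

def k1_B00pm_101_s3 : ∃ t, chk3 f_B00pm_101_s3 t 4 5 1 = true :=
  ⟨(b (a (b (c (a (b (l 531049999) (l 531526927)) (b (l 530917391) (l 531135247))) (a (b (l 531158031) (l 531444751)) (b (l 530812943) (l 531124751)))) (a (c (b (a (l 531446799) (l 531411471)) (a (l 531790863) (l 531516431))) (b (a (l 531724047) (l 531618063)) (a (l 531813391) (l 531757071)))) (b (c (l 531331855) (l 531403791)) (c (l 531472911) (l 531603727))))) (b (a (c (c (l 530980623) (l 530814991)) (l 530602767)) (c (b (l 530692623) (l 530908175)) (l 530238479))) (a (c (b (l 531221775) (l 531392783)) (b (l 531078415) (l 531330575))) (a (b (l 530974991) (l 531205647)) (b (l 530865679) (l 531105807)))))) (a (b (b (a (c (a (l 531568143) (l 531583759)) (a (l 531852815) (l 531837199))) (c (c (l 531547407) (l 531606799)) (l 531743247))) (a (c (a (l 531602447) (l 531632143)) (a (l 531867663) (l 531882511))) (c (c (l 531613711) (l 531686927)) (l 531837711)))) (c (b (a (c (a (l 531564047)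 (l 531611663)) (l 531443215)) (c (l 531662863) (l 531744527))) (a (c (a (l 531612431) (l 531660815)) (a (l 531743503) (l 531777551))) (a (l 531749903) (l 531774479)))) (b (a (a (l 531866639) (l 531903247)) (c (l 531843343) (l 531953935))) (a (a (l 531858703) (l 531933199)) (a (l 531953423) (l 531951631)))))) (a (b (b (c (l 531529743) (l 531532815)) (c (l 531906831) (l 531691023))) (c (b (a (l 531721999) (l 531727375)) (a (l 531794703) (l 531811599))) (b (l 531810063) (a (l 531930383) (l 531891727))))) (b (c (b (l 531472655) (l 531611407)) (b (l 531262223) (l 531473935))) (c (b (a (l 531729167) (l 531729679)) (a (l 531826191) (l 6))) (b (l 531648527) (l 531801103))))))), by decide +kernel⟩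

def k2_B00pm_101_s3 : ∃ t, chk3 f_B00pm_101_s3 t 5 2 1 = true :=
  ⟨(b (a (b (l 1) (a (a (b (l 1) (b (l 1) (l 529982479))) (l 1)) (l 1))) (l 1)) (a (a (b (b (c (c (l 530964495) (l 530524687)) (c (l 530101775) (l 529694991))) (c (b (l 531052559) (l 531247119)) (a (l 530619663) (l 530453775)))) (b (c (a (l 531515919) (l 531505423)) (b (l 530964495) (l 531216911))) (l 6))) (a (b (b (b (l 1) (l 531143439)) (c (l 531137807) (l 530294287))) (l 6)) (b (b (l 1) (b (c (l 531069199) (l 90227290055)) (l 6))) (l 6)))) (a (b (b (l 1) (l 6)) (l 6)) (b (l 1) (l 6))))), by decide +kernel⟩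

def k3_B00pm_101_s3 : ∃ t, chk3 f_B00pm_101_s3 t 2 3 1 = true :=
  ⟨(a (b (a (b (c (b (a (b (c (c (l 532239631) (l 532038159)) (c (l 531834639) (l 531894287))) (c (a (l 531853839) (l 531884047)) (a (l 531995919) (l 16579072)))) (b (c (a (l 531795727) (l 531831567)) (l 531637519)) (c (a (l 531914255) (l 531945743)) (a (l 16525200) (l 16502536))))) (a (b (c (a (l 532006927) (l 532025871)) (a (l 532154895) (l 16527688))) (c (a (l 532167695) (l 532175631)) (a (l 532211727) (l 16508760)))) (a (c (b (l 532047631) (l 532054031)) (b (l 16505336) (l 16487120))) (b (c (l 532072463) (l 16482856)) (l 6))))) (b (a (b (c (l 531965967) (l 531471631)) (a (l 531666447) (l 531925775))) (b (a (l 532038415) (l 532047119)) (a (l 532107535) (l 532158479)))) (a (b (a (c (l 531806223) (l 531172111)) (l 531536655)) (a (c (l 531695631) (l 530674959)) (c (l 16445040) (l 531298063)))) (b (a (l 532052751) (l 532230927)) (a (c (l 16477096) (l 16359192)) (l 6)))))) (a (a (b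 (b (c (c (c (l 16500840) (l 16507536)) (l 532218895)) (c (l 531566607) (l 530575119))) (l 6)) (l 6)) (l 6)) (l 6))) (b (a (b (a (c (b (l 531894543) (l 532011791)) (b (l 532039951) (l 532159759))) (b (c (l 531916047) (l 532018191)) (l 6))) (l 6)) (l 6)) (l 6))) (l 6)) (b (l 6) (l 6))), by decide +kernel⟩

def k4_B00pm_101_s3 : ∃ t, chk3 f_B00pm_101_s3 t 3 1 1 = true :=
  ⟨(b (a (b (l 1) (l 6)) (l 1)) (l 6)), by decide +kernel⟩

theorem t5_B00pm_101_s3 : ∃ t, chk3 f_B00pm_101_s3 t 4 2 1 = true := ex3_b k0_B00pm_101_s3 k1_B00pm_101_s3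

theorem t6_B00pm_101_s3 : ∃ t, chk3 f_B00pm_101_s3 t 2 2 1 = true := ex3_a t5_B00pm_101_s3 k2_B00pm_101_s3

theorem t7_B00pm_101_s3 : ∃ t, chk3 f_B00pm_101_s3 t 2 1 1 = true := ex3_b t6_B00pm_101_s3 k3_B00pm_101_s3

theorem t8_B00pm_101_s3 : ∃ t, chk3 f_B00pm_101_s3 t 1 1 1 = true := ex3_a t7_B00pm_101_s3 k4_B00pm_101_s3

theorem c_B00pm_101_s3 : CertF 536870912 536870912 536870912 536870912 923417968 42949674 false true false .npn 1 0 1
    ndB0q1 ndB0q1 pcB0 cut_B00pm_101_s3 xt_B00pm_101_s3 :=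
  certF0 (fam := false) (s1 := true) (s2 := false) (a := 1) (b := 0) (c := 1) (cn := .npn) (n1 := ndB0q1) (n2 := ndB0q1) (pc := pcB0) (cut := cut_B00pm_101_s3) (xt := xt_B00pm_101_s3) (P1 := 536870912) (W1 := 536870912) (P2 := 536870912) (W2 := 536870912) (P3 := 923417968) (W3 := 42949674)
    rfl t8_B00pm_101_s3

theorem s_B00pm_101_s3 {κ x : ℝ} (hκ : κ * h0 = ken x) (hx : ((923417968 : ℕ) : ℝ) / S ≤ x)
    (hx' : x ≤ (((923417968 : ℕ) : ℝ) + (42949674 : ℕ)) / S)
    (H : CutB (VFD κ) PP tK tL pcB (Cut.of [[⟨0, 1, 0, 33554432⟩, ⟨1, 0, 0, 33554432⟩, ⟨2, 1, 0, 33554432⟩], [⟨0, 0, 1, 20971520⟩, ⟨1, 1, 2, 20971520⟩, ⟨2, 1, 0, 8388608⟩]]) 1 0 1 0 0 (sgb true) (sgb false) x) :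
    AltB (VFD κ) PP tK tL pcB [⟨4, 0, 0, 2845415833⟩] 1 0 1 0 0 (sgb true) (sgb false) x :=
  strip_altBD (m := 2845415833) false rfl hκ (SH.κ0 hκ (SH.hx1 hx).le (SH.hx2 hx').le) (SH.hx1 hx).le (SH.hx2 hx') (covB01).cov (covB01).cov hx hx' c_B00pm_101_s3 H ((okx hx hx').extB (T := tt) (sideB hx hx') hκ rfl rfl (.O 1 true) (.O 1 false) (Or.inl rfl))

end Pool.Agent.Strip051.G.I8600_9000.Tab.St.C
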