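import Pool.Agent.Strip051.G.I8600_9000.StH
import Pool.Agent.Strip051.G.I8600_9000.StF

/-! # Unit strips 17 (generated) -/

set_option linter.all false
set_option maxRecDepth 100000

namespace Pool.Agent.Strip051.G.I8600_9000.Tab.St.C

open Pool.Agent.Strip051.PB Pool.Agent.Strip051.PB.T Pool.Agent.StripNear Pool.Agent.Strip051.LC
open Pool.Agent.Strip051.G.I8600_9000.Tab Pool.Agent.Strip051.G.I8600_9000.Tab.St

noncomputable def cut_B00pm_102_s1 : Cut := Cut.of [[⟨4, 0, 0, 1449551462⟩], [⟨0, 1, 0, 53687091⟩, ⟨1, 0, 0, 53687091⟩, ⟨2, 1, 0, 53687091⟩], [⟨0, 0, 1, 20971520⟩, ⟨1, 1, 2, 20971520⟩, ⟨2, 1, 0, 8388608⟩]]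

noncomputable def xt_B00pm_102_s1 : Ext := strExt dd false true false .u0 .u2 .u0m .npp 1 0 2 rfl rfl gf0 vv ndB0q1 ndB0q2

noncomputable def f_B00pm_102_s1 : ℕ → ℕ → ℕ → ℕ → Bool := onCell 536870912 536870912 0 536870912 923417968 42949674
    (rowF 0 false true false .npp 1 0 2 (qsf 536870912 536870912 0 536870912 0) ndB0q1 ndB0q2 pcB0 cut_B00pm_102_s1 xt_B00pm_102_s1)

def k0_B00pm_102_s1 : ∃ t, chk3 f_B00pm_102_s1 t 2 2 1 = true :=
  ⟨(a (b (l 2) (a (l 2) (a (l 2) (b (l 2) (b (l 2) (a (l 2) (l 16569848))))))) (b (a (b (a (l 533897487) (l 3)) (a (b (l 534135311) (a (l 2) (l 533838351))) (b (a (l 533904911) (l 3)) (l 533301263)))) (a (b (l 3) (b (l 3) (l 533165583))) (l 3))) (a (b (a (b (a (l 606764532903) (l 533597711)) (a (l 533515279) (l 533350415))) (a (b (l 533407247) (l 533156623)) (b (l 533206031) (l 532956687)))) (b (a (a (l 533359119) (l 533196047)) (a (l 533013519) (l 532830223))) (a (a (l 16579736) (l 16632256)) (a (l 532911887) (l 532741391))))) (b (a (b (c (l 533008655) (l 532750351))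 (a (c (l 532919055) (l 532617487)) (b (l 532602895) (l 532531471)))) (a (a (b (l 532628495) (l 532424719)) (b (a (l 532547855) (l 3)) (l 532363535))) (b (l 3) (l 532317199)))) (a (b (c (l 532734479) (a (l 532465679) (l 532291343))) (c (l 532687375) (a (l 532374031) (l 532216591)))) (b (a (a (l 532394511) (l 532351759)) (c (l 532484111) (l 532084239))) (c (a (l 532520719) (l 532444687)) (a (l 532094223) (l 532006159))))))))), by decide +kernel⟩

def k1_B00pm_102_s1 : ∃ t, chk3 f_B00pm_102_s1 t 2 3 1 = true :=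
  ⟨(b (a (l 6) (a (b (a (b (b (a (l 16547408) (l 16556952)) (a (l 6) (c (l 16544088) (l 16439592)))) (l 6)) (b (a (l 16556304) (l 532638735)) (b (a (c (l 16531568) (l 16425144)) (c (l 16542992) (l 16519672))) (a (l 6) (c (l 16518616) (l 16494744)))))) (l 6)) (b (a (b (c (a (l 16593320) (l 16610432)) (a (l 16574912) (l 16677160))) (a (b (l 16546472) (a (l 16431912) (l 16523024))) (b (l 16563792) (l 16535656)))) (b (c (a (l 16629824) (l 16734920)) (a (l 531980047) (l 531877391))) (c (a (l 16579672) (l 16600624)) (a (l 16557816) (l 16580632))))) (b (a (a (l 16479944) (b (b (l 16513552) (l 16499464)) (l 16477808))) (a (b (b (l 16532168) (l 16516504)) (c (l 16506320) (l 16478304))) (b (l 16545688) (a (l 16591120) (l 16517808))))) (a (l 6) (a (l 16442528) (a (l 16455248) (l 16464736)))))))) (a (l 6) (l 6))), by decide +kernel⟩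

def k2_B00pm_102_s1 : ∃ t, chk3 f_B00pm_102_s1 t 3 2 1 = true :=
  ⟨(a (b (l 3) (a (b (a (a (b (l 3) (l 532256783)) (l 3)) (l 3)) (a (b (c (l 532385039) (a (l 532005135) (l 531919375))) (a (c (l 532370191) (l 531911951)) (b (l 532098831) (l 532045327)))) (b (a (c (l 532304143) (l 531829775)) (l 3)) (b (a (l 532018447) (l 3)) (c (a (l 532216591) (l 532163855)) (a (l 531666447) (c (l 531722511) (l 531388175)))))))) (l 3))) (l 3)), by decide +kernel⟩

def k3_B00pm_102_s1 : ∃ t, chk3 f_B00pm_102_s1 t 6 6 1 = true :=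
  ⟨(a (b (a (b (a (c (l 532273423) (l 531767055)) (c (l 532193295) (l 531650063))) (c (a (l 16622896) (l 532028175)) (a (l 531558671) (l 531424015)))) (b (c (a (l 532122127) (l 532065551)) (a (c (l 531691023) (l 531361807)) (a (l 531441935) (l 531383823)))) (a (c (l 531949327) (b (l 531360271) (l 16642144))) (c (l 531877647) (b (l 531230735) (l 531071247)))))) (a (b (a (c (l 16564464) (b (l 16555856) (l 16519760))) (c (l 16588600) (l 16563408))) (b (b (a (c (l 16523224) (l 16491392)) (l 16532656)) (a (l 16490096) (c (l 16530216) (l 16495992)))) (a (l 16461136) (c (l 16501792) (l 16466304))))) (a (b (c (l 16614560) (l 530935055)) (b (l 16550560) (c (b (l 16539688) (l 16520896)) (b (l 16502568) (l 16481648))))) (b (c (l 531622159) (l 530782735)) (b (l 16664224) (a (c (l 16553288) (l 16514576)) (l 16550768))))))) (b (a (b (a (l 531678223) (a (l 531632143) (l 3))) (a (c (l 531862031) (l 531034127)) (c (a (l 531837711) (l 531833103)) (a (l 530926351) (l 530853647))))) (b (l 3) (c (a (l 531833103) (l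 531888655)) (a (l 530735887) (l 530608399))))) (a (b (a (c (l 531588111) (l 530636559)) (c (l 531588623) (l 530496271))) (a (b (c (l 16626600) (l 16597328)) (c (l 16594424) (l 16556768))) (c (b (l 16743464) (l 16629624)) (b (l 16633016) (l 16593976))))) (b (a (l 531289103) (c (l 531780879) (l 530292495))) (a (b (l 530839055) (c (l 531504911) (l 529941775))) (b (c (l 531771151) (l 530087439)) (c (l 531819023) (l 529979919)))))))), by decide +kernel⟩

def k4_B00pm_102_s1 : ∃ t, chk3 f_B00pm_102_s1 t 12 7 1 = true :=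
  ⟨(b (b (b (a (a (l 16419072) (l 16442496)) (a (c (l 16489808) (l 16449328)) (b (a (l 16504600) (c (l 16542704) (l 16498160))) (l 16575504)))) (a (a (l 6) (l 16395296)) (a (c (l 16444168) (l 16401000)) (c (l 16480160) (l 16431944))))) (a (l 6) (a (b (c (l 16393496) (l 16346384)) (l 6)) (b (c (l 16431024) (l 16377696)) (c (l 16377712) (l 16317608)))))) (l 6)), by decide +kernel⟩

def k5_B00pm_102_s1 : ∃ t, chk3 f_B00pm_102_s1 t 13 14 1 = true :=
  ⟨(b (a (c (b (a (b (l 16569296) (a (l 16542152) (l 16561600))) (a (l 16589288) (l 16608960))) (a (l 16521432) (b (a (b (l 16569192) (l 16560232)) (b (l 16590424) (l 16582736))) (a (l 16545424) (a (l 16563736) (l 16576240)))))) (b (a (b (l 16524680) (a (l 16493544) (l 16512040))) (a (l 16542576) (l 16562992))) (a (l 16468296) (b (a (l 16509928) (l 16531224)) (a (l 16487192) (l 16509448)))))) (a (b (c (l 531508751) (l 16679096)) (b (c (l 16619600) (l 16565264)) (a (c (b (l 16598224) (a (l 16584584) (l 16597376))) (b (l 16538000) (l 16527512))) (c (l 16618760)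 (l 16557240))))) (b (c (l 531929871) (l 529910799)) (c (b (l 16748368) (l 16738984)) (b (l 16613520) (l 16595584)))))) (a (a (b (c (a (l 16463800) (l 16487816)) (l 16416024)) (c (a (l 16412800) (l 16439048)) (l 16357528))) (b (c (a (l 16513488) (l 16540688)) (a (l 16449376) (l 16473704))) (c (a (l 16467600) (l 16498424)) (a (l 16393456) (l 16420328))))) (b (a (a (c (l 16653088) (l 16499592)) (b (c (b (a (l 16603192) (l 16616512)) (l 16602624)) (b (l 16626224) (l 16532176))) (c (l 16590888) (l 16515984)))) (b (a (a (b (l 16596568) (c (l 16624440) (l 16552776))) (c (l 16640256) (l 16571096))) (c (l 16660144) (l 16591928))) (a (c (a (l 16614640) (l 16630736)) (l 16545600)) (c (b (a (l 16648664) (l 16663144)) (a (l 16644232) (l 16660680))) (b (a (l 16572528) (l 16587336)) (l 16655768)))))) (a (c (a (c (l 16550984) (l 16511472)) (b (l 16574632) (l 16558176))) (a (l 16449528) (l 16480968))) (c (a (b (l 16609640) (l 16596608)) (b (l 16645680) (l 16636744))) (a (l 16514480) (l 16633688))))))), by decide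 +kernel⟩

def k6_B00pm_102_s1 : ∃ t, chk3 f_B00pm_102_s1 t 26 15 1 = true :=
  ⟨(b (b (a (c (b (l 16386576) (l 16360168)) (a (l 16282944) (l 16306496))) (c (b (a (l 16431944) (l 16465808)) (a (l 16408128) (l 16444288))) (a (l 16333000) (l 16362576)))) (a (l 6) (c (b (a (l 16384704) (l 16423472)) (a (l 6) (l 16403824))) (b (l 16385272) (c (l 16298696) (l 16241944)))))) (a (l 6) (a (l 6) (b (b (c (l 16469744) (l 16258368)) (l 6)) (l 6))))), by decide +kernel⟩

def k7_B00pm_102_s1 : ∃ t, chk3 f_B00pm_102_s1 t 27 30 1 = true :=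
  ⟨(a (b (c (b (a (l 16502536) (l 16542040)) (a (l 16483856) (l 16526808))) (b (l 16510040) (a (l 16381504) (l 16418672)))) (c (b (a (l 16466256) (l 16513136)) (c (l 16527736) (l 16443712))) (b (c (l 16402584) (l 16343432)) (c (l 16379608) (l 16314472))))) (b (a (c (b (l 16584200) (l 16573136)) (b (l 16481512) (l 16459352))) (c (b (l 16628736) (l 16706176)) (b (l 16521856) (l 16503224)))) (a (b (c (a (l 16551056) (l 16577552)) (l 16437680)) (c (a (l 16543320) (l 16571096)) (a (l 16404696) (l 16428784)))) (b (c (b (l 16618552) (l 16616392)) (a (l 16472816) (l 16496888))) (c (b (l 16614680) (l 16613624)) (a (l 16453640) (l 16479656))))))), by decide +kernel⟩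

def k8_B00pm_102_s1 : ∃ t, chk3 f_B00pm_102_s1 t 27 62 1 = true :=
  ⟨(a (a (b (c (l 16520576) (l 16299624)) (b (c (l 16428472) (l 16280592)) (l 6))) (b (c (a (l 16478944) (b (l 16509744) (l 16506224))) (a (l 16334360) (l 16358488))) (c (a (b (l 16473240) (l 16553424)) (b (l 16502576) (l 16499200))) (a (b (l 16317120) (l 16305520)) (l 16419880))))) (c (b (a (b (l 16636576) (a (l 16535112) (l 16565248))) (b (l 16697192) (a (l 16597096) (l 16630752)))) (a (b (a (l 16532448) (l 16564096)) (a (l 16614424) (l 16647704))) (b (a (l 16597640) (l 16633184)) (a (l 16683064) (b (l 16635696) (l 16637792)))))) (b (a (b (l 16400920) (l 16390456)) (b (l 16537352) (a (l 16430840) (l 16459856)))) (a (b (a (l 16366968) (l 16393840)) (a (l 16356616) (l 16384632))) (b (a (l 16422408) (l 16452776)) (a (l 16498376) (c (l 16494256) (l 16398144)))))))), by decide +kernel⟩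

def k9_B00pm_102_s1 : ∃ t, chk3 f_B00pm_102_s1 t 27 63 1 = true :=
  ⟨(a (b (a (l 6) (b (a (l 6) (c (c (l 16540496) (l 16452488)) (l 16319304))) (l 6))) (l 6)) (b (c (c (b (a (a (l 16574776) (l 16611248)) (a (l 16650080) (l 16679080))) (l 22)) (a (b (a (l 16484024) (l 16517624)) (a (l 16565416) (b (l 16516920) (l 16516808)))) (b (a (l 16553448) (l 16675536)) (a (b (l 16554200) (l 22)) (l 22))))) (a (b (a (l 16346688) (c (l 16423328) (l 16328360))) (a (c (l 16385472) (l 16288920)) (c (l 16417640) (l 16317880)))) (b (a (c (l 16456104) (l 16358064)) (c (l 16491112) (l 16389840))) (a (c (b (l 16452944) (l 16451160)) (l 16348928)) (c (b (l 16489344) (l 16488528)) (l 16382248)))))) (c (c (l 22) (a (a (l 6) (b (c (l 22) (a (l 16481736) (l 16500568))) (l 6))) (l 22))) (a (b (a (l 6) (c (b (l 16413856) (l 16495528)) (l 16307976))) (l 6)) (c (c (a (b (b (l 16476344) (l 16559656)) (b (a (l 16465496) (l 22)) (l 22))) (l 22)) (b (a (b (l 16422872) (l 16420896)) (b (l 16460304) (l 16543232))) (a (b (l 16461136)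 (a (l 6) (l 16427544))) (b (a (l 16448456) (l 16468960)) (a (b (l 16447944) (l 16447720)) (l 22)))))) (b (a (b (l 16342480) (l 16338448)) (b (l 16377024) (l 16457752))) (a (b (l 16334624) (c (l 16359944) (l 16302112))) (b (c (l 16400208) (l 16341680)) (c (a (l 16388376) (l 16408320)) (l 16338264)))))))))), by decide +kernel⟩

def k10_B00pm_102_s1 : ∃ t, chk3 f_B00pm_102_s1 t 7 6 1 = true :=
  ⟨(b (l 3) (a (a (a (b (b (l 3) (l 531155471)) (c (b (l 532154383) (l 532321807)) (b (l 530163983) (l 530140175)))) (b (l 3) (b (a (l 531454479) (l 3)) (a (l 531634191) (l 531973647))))) (a (b (l 3) (a (b (l 3) (l 532395023)) (l 3))) (l 3))) (l 3))), by decide +kernel⟩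

def k11_B00pm_102_s1 : ∃ t, chk3 f_B00pm_102_s1 t 28 14 1 = true :=
  ⟨(b (a (b (c (a (l 532400399) (l 532803087)) (l 530719759)) (c (a (l 16735976) (l 533256207)) (a (l 16726752) (l 530464015)))) (b (a (l 533003791) (c (l 533893391) (l 530857487))) (c (a (l 533895695) (l 535211791)) (a (l 530822415) (l 531278863))))) (b (a (a (a (b (l 16646976) (c (b (l 16677280) (l 16676224)) (l 16598760))) (c (l 16691528) (l 16620384))) (c (b (l 16711520) (l 16712280)) (l 16726328))) (a (c (b (l 16735352) (l 16739280)) (b (l 16676336) (l 16667456))) (c (b (l 16767232) (b (l 16761696) (l 16766624))) (b (l 16745168) (l 532402959))))) (a (b (a (a (c (l 16673112) (l 16584880)) (b (c (l 16691496) (l 16605336)) (l 16645600))) (b (a (a (l 16745392) (l 16669528)) (l 16681360)) (a (c (l 16751096) (l 16617224)) (c (l 16726648) (l 16634936))))) (a (c (l 16678016) (l 16579248)) (c (l 16719608) (l 16619008)))) (b (c (a (l 16747960) (b (l 16773056) (l 16739232))) (a (l 16661712) (c (l 16715504) (l 16673200)))) (a (a (b (c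 (l 16748592) (l 16734312)) (l 16742992)) (b (c (l 16766640) (b (l 16669072) (l 16669152))) (c (l 16773920) (l 16668736)))) (c (b (l 16763008) (a (b (l 16743984) (a (l 16791600) (l 16744680))) (l 16762072))) (b (l 16695944) (a (b (l 16688592) (a (l 16684480) (l 16694768))) (l 16729232))))))))), by decide +kernel⟩

def k12_B00pm_102_s1 : ∃ t, chk3 f_B00pm_102_s1 t 29 28 1 = true :=
  ⟨(a (b (a (c (l 534620943) (l 531265807)) (a (c (l 535268367) (l 531644175)) (b (l 3) (c (b (l 535898639) (l 536210959)) (b (l 532024591) (l 532215823)))))) (a (c (b (l 535341327) (l 535928335)) (b (l 531685391) (l 532041743))) (c (a (b (l 536133135) (l 536767247)) (b (l 536327183) (l 536638223))) (a (b (l 532171535) (l 532621071)) (b (l 532540431) (l 533059343)))))) (a (a (b (b (l 3) (c (l 536415503) (l 532453391))) (c (l 535953935) (l 533237263))) (b (l 3) (c (b (l 536346127) (l 536408591)) (b (l 533410063) (l 534109967))))) (b (l 3) (b (l 3) (a (c (l 536312335) (l 534742799)) (c (l 536229647) (l 534801423))))))),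 by decide +kernel⟩

def k13_B00pm_102_s1 : ∃ t, chk3 f_B00pm_102_s1 t 58 29 1 = true :=
  ⟨(c (a (b (b (a (l 16770448) (l 536892175)) (c (l 16772408) (l 16770184))) (b (c (l 16773816) (l 16763480)) (a (c (l 16786800) (l 16774400)) (b (l 16778608) (l 16757792))))) (b (a (b (l 536793615) (l 536824335)) (b (l 536682511) (l 536179471))) (a (b (b (l 16776824) (l 16755936)) (c (l 16782248) (l 16771696))) (b (c (l 16769104) (l 16771640)) (c (l 537084175) (l 536431887)))))) (b (a (b (c (l 16760864) (l 16737312)) (c (l 16739864) (l 16708944))) (a (b (l 533169167) (l 533842959)) (b (l 533695759) (l 534473231)))) (a (b (c (l 16745080) (l 16705728)) (a (b (l 16721904) (l 16726744)) (b (l 16738456) (l 16744648)))) (a (b (l 534668303) (c (l 16760784) (l 16734240))) (b (c (l 16763432) (l 16742464)) (c (l 535757583) (l 535057167))))))), by decide +kernel⟩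

def k14_B00pm_102_s1 : ∃ t, chk3 f_B00pm_102_s1 t 59 29 1 = true :=
  ⟨(c (a (b (b (a (l 536566799) (l 536463631)) (a (l 536607247) (l 535706127))) (a (b (c (l 536968463) (l 536306703)) (c (l 536993807) (l 536333327))) (b (c (l 536883727) (l 536213775)) (c (l 536647695) (b (l 16770432) (l 536255503)))))) (b (b (a (l 536374287) (l 536298255)) (a (l 535623439) (c (l 536701199) (l 536012559)))) (c (a (b (l 536812303) (b (l 536843023) (l 536861199))) (b (l 536485135) (b (l 536790287) (l 536812303)))) (a (b (l 536133903) (b (l 536165903) (l 536184847))) (b (b (l 536054799) (l 536080655)) (b (l 536104719) (l 536127247))))))) (b (a (b (a (l 534288399) (l 534958607)) (a (l 535183887) (l 534585871))) (b (a (l 534966031) (l 534871311)) (a (c (l 535382543) (l 534655247)) (c (l 535299599) (l 534562063))))) (a (a (b (c (l 535622415) (l 534774287)) (c (l 535650319) (l 534944015))) (b (c (l 535520527) (l 534803983)) (c (b (l 16757752) (l 535564047)) (b (l 16750056) (l 534848527))))) (a (b (c (l 535431695) (l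 534705167)) (c (b (l 535464719) (l 535484175)) (b (l 534739215) (l 534758927)))) (b (c (b (l 535343119) (l 535369487)) (b (l 534606863) (l 534633743))) (c (b (l 535394319) (l 535417359)) (b (l 534658831) (l 534682127)))))))), by decide +kernel⟩

def k15_B00pm_102_s1 : ∃ t, chk3 f_B00pm_102_s1 t 28 30 1 = true :=
  ⟨(a (b (a (b (c (l 16674880) (l 16564432)) (c (l 16673016) (l 16549480))) (b (c (l 16722080) (l 16608840)) (c (a (l 16712656) (l 16740080)) (a (l 16586088) (l 16611568))))) (a (b (c (a (l 16658728) (l 16687680)) (a (l 16521904) (l 16548056))) (c (a (l 16659944) (l 16692400)) (a (l 16507024) (l 16535824)))) (b (c (a (l 16717768) (l 16749000)) (a (l 16575360) (l 16603816))) (c (a (l 16726392) (l 16741000)) (a (b (l 16568176) (l 16564032)) (b (l 16599088) (l 16596712))))))) (b (c (b (a (a (l 16758424) (l 16782904)) (a (b (a (l 16713456) (l 16713816)) (l 16727800)) (b (b (a (l 16745328) (l 16762296)) (l 16750024)) (c (l 16727984) (l 16714768))))) (a (a (l 16768200) (l 16796904)) (a (l 16784136)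 (c (l 16747952) (l 16738560))))) (a (b (a (l 16643424) (l 16666928)) (a (l 16637824) (l 16664800))) (b (a (l 16690608) (b (b (a (l 16706536) (l 16737928)) (l 16713528)) (l 16715680))) (a (l 16776280) (b (l 16718752) (l 16722248)))))) (a (b (c (a (l 16781352) (l 16758808)) (a (l 16717304) (b (l 16664072) (l 16664304)))) (c (a (b (l 16776632) (l 16764512)) (b (l 16782408) (l 16770128))) (a (b (l 16631440) (l 16631064)) (b (l 16665264) (l 16667136))))) (b (c (a (l 16764816) (b (l 16735040) (l 16722560))) (a (b (l 16694784) (l 16697232)) (b (l 16726368) (l 16731320)))) (c (a (b (l 16788168) (l 16775720)) (b (l 16793904) (l 16781304))) (a (b (l 16700568) (l 16704968)) (b (l 16737320) (l 16744592)))))))), by decide +kernel⟩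

def k16_B00pm_102_s1 : ∃ t, chk3 f_B00pm_102_s1 t 56 62 2 = true :=
  ⟨(b (a (a (b (l 16662976) (l 16666328)) (b (l 16698392) (l 16703928))) (a (b (l 16735696) (l 16729344)) (b (l 16746832) (l 16734704)))) (a (b (a (l 16670864) (l 16710816)) (a (b (l 16675064) (l 16678352)) (b (l 16702992) (l 16696968)))) (a (b (l 16717288) (b (l 16708112) (l 16702016))) (b (l 16701520) (b (l 16713200) (l 16707032)))))), by decide +kernel⟩

def k17_B00pm_102_s1 : ∃ t, chk3 f_B00pm_102_s1 t 56 126 2 = true :=
  ⟨(c (a (b (a (l 16683984) (b (l 16691648) (l 16685896))) (a (l 22) (a (l 16676016) (l 16678368)))) (a (b (b (l 16696512) (l 16690688)) (b (l 16684848) (b (l 16659440) (l 16666992)))) (b (b (l 16701344) (l 16695448)) (b (l 16679048) (a (l 16682328) (l 16663656)))))) (a (b (a (l 16674368) (b (l 16673976) (l 16677928))) (l 22)) (a (b (b (l 16695328) (l 16688888)) (l 22)) (b (b (l 16700376) (l 16693856)) (b (l 16676832) (a (l 22) (l 16681832))))))), by decide +kernel⟩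

def k18_B00pm_102_s1 : ∃ t, chk3 f_B00pm_102_s1 t 56 254 2 = true :=
  ⟨(a (c (c (a (l 22) (b (b (l 16649912) (l 16657568)) (a (l 16641632) (l 16654352)))) (l 22)) (l 22)) (c (a (b (a (l 16650880) (l 16653160)) (a (b (l 16646448) (l 16653984)) (b (l 16648696) (l 16656216)))) (b (a (l 16655424) (l 16657688)) (a (b (l 16650928) (l 16658440)) (b (l 16653160) (l 16660648))))) (c (a (l 22) (a (l 22) (b (l 16655112) (l 16659144)))) (l 22)))), by decide +kernel⟩

def k19_B00pm_102_s1 : ∃ t, chk3 f_B00pm_102_s1 t 112 255 2 = true :=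
  ⟨(b (c (c (a (l 22) (a (a (l 16645848) (l 16646952)) (a (l 16648048) (l 16649144)))) (l 22)) (l 22)) (b (a (l 22) (c (c (c (a (a (l 16642272) (l 16643352)) (a (l 16644432) (l 16645512))) (a (l 22) (a (l 22) (l 16644144)))) (l 22)) (l 22))) (a (l 22) (c (b (c (c (a (a (a (l 22) (l 16650904)) (a (l 16651440) (l 16651976))) (a (a (l 16652512) (l 16653048)) (a (l 16653584) (l 16654120)))) (a (l 22) (a (l 22) (a (l 16652160) (l 16652696))))) (l 22)) (a (b (c (c (a (a (l 22) (l 16649848)) (a (l 16650384) (l 16650920))) (l 22)) (l 22)) (b (c (c (a (a (l 22) (l 16649320)) (a (l 16649856) (l 16650384))) (l 22)) (l 22)) (c (c (a (a (l 22) (a (a (l 22) (l 16648896)) (l 16649096))) (c (a (b (l 16649960) (l 16649784)) (l 16650408)) (a (l 22) (a (l 22) (l 16649792))))) (l 22)) (l 22)))) (b (c (c (a (a (l 16651456) (l 16651984)) (a (l 16652520) (l 16653056))) (a (l 22) (a (l 16651064) (l 16651600)))) (l 22)) (b (c (c (a (a (l 16650920) (l 16651456)) (a (l 16651984) (l 16652520))) (a (l 22) (a (a (l 16650384)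 (l 16650648)) (l 16651056)))) (l 22)) (c (c (c (a (a (l 16650944) (l 16651472)) (a (l 16652000) (l 16652536))) (a (a (b (l 16650280) (l 16650104)) (b (l 16650816) (l 16650640))) (a (l 16651264) (l 16651800)))) (c (a (l 22) (a (a (l 16650384) (l 16650656)) (b (l 16651152) (l 16650968)))) (l 22))) (l 22)))))) (l 22))))), by decide +kernel⟩

def k20_B00pm_102_s1 : ∃ t, chk3 f_B00pm_102_s1 t 113 510 2 = true :=
  ⟨(a (c (a (a (c (l 16650240) (l 22)) (b (l 16651560) (b (l 16659816) (l 16647848)))) (b (a (l 16652664) (l 16653768)) (a (b (l 16660912) (l 16648944)) (b (l 16662008) (l 16650040))))) (l 22)) (c (a (b (a (l 16654864) (l 16655968)) (a (a (l 16651600) (l 16652144)) (a (l 16652688) (l 16653232)))) (b (a (l 16657064) (l 16658160)) (a (a (l 16653776) (l 16654320)) (a (l 16654864) (l 16655400))))) (c (a (l 22) (b (l 16654256) (a (l 16650424) (l 16651544)))) (l 22)))), by decide +kernel⟩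

def k21_B00pm_102_s1 : ∃ t, chk3 f_B00pm_102_s1 t 113 1022 2 = true :=
  ⟨(a (c (a (a (c (b (l 16657104) (l 16645176)) (l 22)) (a (c (l 16646704) (l 22)) (c (l 16647240) (l 16644552)))) (a (a (c (l 16647784) (l 16645104)) (c (l 16648320) (l 16645656))) (c (b (l 16660336) (a (l 16658608) (l 16659144))) (a (l 16646200) (l 16646744))))) (l 22)) (a (c (a (c (b (l 16661416) (a (l 16659680) (l 16660216))) (a (l 16647296) (l 16647840))) (c (b (l 16662488) (a (l 16660744) (l 16661280))) (a (l 16648384) (l 16648928)))) (l 22)) (c (c (a (b (l 16663552) (a (l 16661816) (l 16662344))) (a (l 16660992) (l 16661528))) (a (a (l 16649480) (l 16650024)) (a (l 16650568) (l 16651104)))) (c (c (c (a (l 16648152) (l 16649248)) (l 22)) (l 22)) (l 22))))), by decide +kernel⟩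

def k22_B00pm_102_s1 : ∃ t, chk3 f_B00pm_102_s1 t 226 2046 2 = true :=
  ⟨(c (a (a (c (a (a (l 16653808) (l 16654080)) (a (l 16654344) (l 16654616))) (l 22)) (a (c (b (l 16655376) (l 16654656)) (l 22)) (c (b (l 16655912) (l 16655192)) (c (l 16653456) (l 22))))) (a (c (a (b (l 16656448) (l 16655728)) (b (l 16656984) (l 16656256))) (c (a (l 16653992) (l 16654536)) (l 22))) (a (c (b (l 16657520) (l 16656792)) (b (l 16654768) (l 16651384))) (c (b (l 16658048) (l 16657320)) (b (l 16655312) (l 16654544)))))) (l 22)), by decide +kernel⟩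

def k23_B00pm_102_s1 : ∃ t, chk3 f_B00pm_102_s1 t 452 2047 4 = true :=
  ⟨(b (a (c (c (a (l 16653584) (l 16654120)) (a (l 16652144) (l 16652680))) (l 22)) (c (a (c (l 16654648) (l 16653216)) (c (l 16655184) (l 16653752))) (c (a (l 22) (l 16652320)) (l 22)))) (b (a (c (a (c (l 16653056) (l 16651592)) (c (l 16653584) (l 16652128))) (l 22)) (a (c (c (l 16654112) (l 16652664)) (l 22)) (c (c (l 16654648) (l 16653200)) (c (a (l 22) (l 16651888)) (l 22))))) (a (c (a (a (c (l 16652560) (l 16651088)) (c (l 16652824) (l 16651360))) (a (c (l 16653096) (l 16651632)) (c (l 16653360) (l 16651896)))) (l 22)) (a (c (a (c (l 16653624) (l 16652160)) (c (l 16653888) (l 16652432))) (l 22)) (a (c (c (l 16654152) (l 16652696)) (l 22)) (c (c (l 16654416) (l 16652968)) (c (b (l 16651608) (l 16651424)) (l 22)))))))), by decide +kernel⟩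

def k24_B00pm_102_s1 : ∃ t, chk3 f_B00pm_102_s1 t 453 2047 4 = true :=
  ⟨(b (a (c (a (c (l 16655712) (l 16654288)) (c (l 16656240) (l 16654824))) (c (a (l 16652864) (l 16653408)) (l 22))) (c (a (c (l 16656768) (l 16655360)) (c (l 16657296) (l 16655888))) (c (a (l 16653944) (l 16654488)) (l 22)))) (b (a (a (c (c (l 16655176) (l 16653736)) (c (a (l 16652160) (l 16652432)) (l 22))) (c (c (l 16655704) (l 16654272)) (c (a (l 16652704) (l 16652968)) (l 22)))) (a (c (c (l 16656232) (l 16654808)) (c (l 16653376) (l 22))) (c (c (l 16656760) (l 16655336)) (c (l 16653920) (l 22))))) (a (a (c (a (c (l 16654680) (l 16653232)) (c (l 16654944) (l 16653504))) (c (c (a (l 16652144) (l 16652416)) (l 22)) (l 22))) (c (c (l 16655344) (a (l 16653768) (l 16654032))) (c (c (a (l 16652688) (l 16652952)) (l 22)) (l 22)))) (a (a (c (c (l 16655736) (l 16654304)) (c (l 16652864) (l 22))) (c (c (l 16656000) (l 16654568)) (c (l 16653136) (l 22)))) (a (c (c (l 16656264) (l 16654832)) (c (l 16653400) (l 22))) (c (c (l 16656528)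 (l 16655096)) (c (l 16653672) (l 22)))))))), by decide +kernel⟩

def k25_B00pm_102_s1 : ∃ t, chk3 f_B00pm_102_s1 t 226 2047 5 = true :=
  ⟨(l 22), by decide +kernel⟩

def k26_B00pm_102_s1 : ∃ t, chk3 f_B00pm_102_s1 t 227 2046 2 = true :=
  ⟨(c (a (c (b (a (a (l 16658584) (l 16659120)) (a (l 16659648) (l 16660176))) (a (a (l 16657856) (l 16658384)) (a (l 16658920) (l 16659448)))) (a (a (a (l 16655336) (l 16655608)) (a (l 16655880) (l 16656152))) (a (b (l 16656944) (l 16656176)) (b (l 16657488) (l 16656712))))) (c (a (a (b (l 16660712) (l 16659976)) (l 16658256)) (a (l 16661408) (l 16661936))) (b (a (a (l 16658024) (l 16658568)) (a (l 16659112) (l 16659648))) (a (a (l 16657256) (l 16657792)) (a (l 16658336) (l 16658872)))))) (c (c (a (l 22) (a (a (l 22) (l 16656168)) (a (l 16656712) (l 16657264)))) (l 22)) (l 22))), by decide +kernel⟩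

def k27_B00pm_102_s1 : ∃ t, chk3 f_B00pm_102_s1 t 454 2047 4 = true :=
  ⟨(b (c (a (a (c (l 16657824) (l 16656424)) (c (l 16658352) (l 16656960))) (a (c (l 16658880) (l 16657488)) (c (l 16659408) (l 16658024)))) (c (a (a (l 16655024) (l 16655560)) (a (l 16656096) (l 16656640))) (a (a (l 16653624) (l 16654168)) (a (l 16654712) (l 16655248))))) (b (a (c (a (c (l 16657288) (l 16655872)) (c (l 16657816) (l 16656400))) (c (a (l 16654456) (l 16654992)) (c (a (l 16653392) (l 16653936)) (l 22)))) (c (a (c (l 16658336) (l 16656936)) (c (l 16658864) (l 16657464))) (a (c (l 16655528) (a (l 16653984) (l 16654256))) (c (l 16656064) (a (l 16654528) (l 16654800)))))) (a (c (a (c (l 16656928) (a (l 16655368) (l 16655632))) (c (l 16657456) (b (l 16656128) (l 16655936)))) (a (a (c (l 16653936) (l 22)) (c (l 16654208) (a (l 16652712) (l 16652848)))) (a (c (l 16654472) (a (l 16652984) (l 16653120))) (c (l 16654744) (a (l 16653256) (l 16653392)))))) (c (a (c (l 16657976) (b (l 16656656) (l 16656472))) (c (l 16658504)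 (b (l 16657184) (l 16657000)))) (a (a (c (l 16655016) (b (l 16653696) (l 16653496))) (c (l 16655280) (b (l 16653968) (l 16653768)))) (a (c (l 16655552) (b (l 16654232) (l 16654040))) (c (l 16655816) (b (l 16654504) (l 16654312))))))))), by decide +kernel⟩

def k28_B00pm_102_s1 : ∃ t, chk3 f_B00pm_102_s1 t 455 2047 4 = true :=
  ⟨(b (a (c (a (c (l 16659936) (l 16658552)) (c (l 16660456) (l 16659088))) (c (a (l 16657176) (l 16657712)) (a (l 16655792) (l 16656336)))) (c (a (c (l 16660984) (l 16659616)) (c (l 16661512) (l 16660144))) (a (c (l 16658248) (l 16656880)) (c (l 16658784) (l 16657416))))) (b (a (c (a (c (l 16659392) (l 16657992)) (c (l 16659912) (l 16658528))) (a (c (l 16656600) (a (l 16655072) (l 16655336))) (c (l 16657136) (l 16655744)))) (c (a (c (l 16660440) (l 16659056)) (c (l 16660960) (l 16659584))) (a (c (l 16657672) (l 16656288)) (c (l 16658208) (l 16656824))))) (a (c (a (c (l 16659024) (l 16657624)) (c (l 16659552) (l 16658152))) (a (a (c (l 16656080) (b (l 16654776) (l 16654584)))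 (c (l 16656352) (l 16654952))) (a (c (l 16656616) (l 16655216)) (c (l 16656888) (l 16655488))))) (c (a (c (l 16660072) (l 16658680)) (c (l 16660600) (l 16659208))) (a (a (c (l 16657152) (l 16655760)) (c (l 16657424) (l 16656032))) (a (c (l 16657688) (l 16656296)) (c (l 16657952) (l 16656568)))))))), by decide +kernel⟩

def k29_B00pm_102_s1 : ∃ t, chk3 f_B00pm_102_s1 t 227 2047 5 = true :=
  ⟨(a (l 22) (b (c (c (a (a (l 22) (b (l 16655160) (l 16654760))) (a (l 16655504) (l 16656056))) (l 22)) (l 22)) (c (b (c (c (a (a (l 22) (l 16654704)) (a (l 16655248) (l 16655792))) (l 22)) (l 22)) (c (c (a (a (l 22) (a (l 22) (l 16654440))) (a (a (l 16654712) (l 16654984)) (a (l 16655256) (l 16655528)))) (l 22)) (l 22))) (l 22)))), by decide +kernel⟩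

def k30_B00pm_102_s1 : ∃ t, chk3 f_B00pm_102_s1 t 57 62 2 = true :=
  ⟨(a (b (a (b (l 16752312) (l 16740032)) (b (l 16757768) (l 16724360))) (a (b (b (l 16730696) (l 16724488)) (b (l 16718256) (l 16712016))) (a (b (l 16731416) (l 16718840)) (b (l 16733984) (l 16700360))))) (b (a (b (l 16763208) (l 16729640)) (b (l 16726680) (a (l 16754456) (l 16757080)))) (a (b (a (l 16736544) (l 16739096)) (a (l 16702848) (l 16705328))) (b (a (l 16741648) (l 16744192)) (b (l 16712320) (a (l 16725464) (l 16727912))))))), by decide +kernel⟩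

def k31_B00pm_102_s1 : ∃ t, chk3 f_B00pm_102_s1 t 57 126 2 = true :=
  ⟨(a (a (b (b (a (l 16704416) (l 16706864)) (a (l 16698144) (l 16700552))) (b (a (l 16691864) (l 16683744)) (a (c (l 16665944) (l 16684224)) (c (l 16668224) (l 16686600))))) (b (b (a (l 16709296) (l 16711728)) (a (l 16702952) (l 16705344))) (b (a (b (l 16677184) (l 16673992)) (b (l 16679544) (l 16676336))) (a (c (l 16670496) (l 16668008)) (c (l 16672760) (l 16670376)))))) (a (b (b (a (l 16714152) (l 16716576)) (a (l 16707728) (l 16689144))) (b (a (b (l 16681904) (l 16678680)) (b (l 16684256) (l 16681008))) (a (c (l 16675024) (l 16672736)) (c (l 16677272) (l 16675088))))) (b (a (b (l 16718984) (l 16691520)) (b (l 16721392) (l 16693888))) (b (a (b (l 16686600) (l 16683336)) (b (l 16688936) (l 16685656))) (a (c (l 16679520) (l 16677440)) (c (l 16681768) (l 16679792))))))), by decide +kernel⟩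

def k32_B00pm_102_s1 : ∃ t, chk3 f_B00pm_102_s1 t 114 254 2 = true :=
  ⟨(a (b (a (c (l 16670424) (l 16667096)) (c (l 16672664) (l 16669440))) (a (a (c (l 16663800) (l 16659824)) (c (l 16664904) (l 16660976))) (a (c (l 16666008) (l 16662120)) (c (l 16667104) (l 16663272))))) (b (a (c (l 16674904) (l 16671776)) (c (l 16677128) (l 16674104))) (a (a (c (l 16668208) (l 16664416)) (c (l 16669304) (l 16665560))) (a (c (l 16670400) (l 16666704)) (c (l 16671488) (l 16667848)))))), by decide +kernel⟩

def k33_B00pm_102_s1 : ∃ t, chk3 f_B00pm_102_s1 t 114 510 2 = true :=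
  ⟨(a (a (c (b (a (l 16659248) (l 16660344)) (a (c (l 16667912) (l 16665520)) (c (l 16668976) (l 16666616)))) (c (b (l 16656512) (a (l 16652656) (l 16653776))) (l 22))) (c (b (c (l 16657856) (l 16660928)) (a (c (l 16670048) (l 16667704)) (c (l 16671112) (l 16668800)))) (b (a (l 16657072) (l 16658208)) (a (c (l 16654888) (l 22)) (c (l 16656000) (l 16653696)))))) (a (c (b (c (l 16660008) (l 16663128)) (a (c (l 16672176) (l 16667264)) (c (l 16673240) (l 16668344)))) (b (a (l 16659344) (l 16660472)) (a (c (l 16657112) (l 16654824)) (c (l 16658216) (l 16655960))))) (c (b (c (a (l 16677296) (l 16678368)) (l 16665312)) (a (c (l 16674304) (l 16669432)) (b (l 16675008) (a (l 16673184) (l 16673720))))) (b (a (l 16661600) (l 16662728)) (a (c (l 16659328) (l 16657088)) (c (l 16660432) (l 16658216))))))), by decide +kernel⟩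

def k34_B00pm_102_s1 : ∃ t, chk3 f_B00pm_102_s1 t 114 1022 2 = true :=
  ⟨(a (a (c (c (a (a (l 16662056) (l 16662592)) (a (l 16663120) (l 16666272))) (a (a (l 16651648) (l 16652192)) (b (l 16664272) (a (l 16662440) (l 16662976))))) (c (c (a (b (l 16661312) (l 16659704)) (b (l 16662416) (l 16660800))) (a (l 22) (b (l 16661184) (l 16649040)))) (l 22))) (b (c (c (a (l 16667816) (l 16668872)) (a (l 16665360) (l 16666440))) (a (c (l 16662904) (l 22)) (c (l 16664008) (l 16651104)))) (c (c (a (a (l 16666056) (l 16666584)) (a (l 16667112) (l 16667640))) (a (a (l 16663512) (l 16664056)) (a (l 16664592) (l 16665128)))) (a (c (b (l 16661672) (l 16650368)) (l 22)) (a (c (l 16662080) (l 22)) (c (l 16662632) (l 16660128))))))) (a (c (c (a (a (l 16668920) (l 16669440)) (a (l 16669968) (l 16670496))) (b (a (l 16667520) (l 16668600)) (a (a (l 16665672) (l 16666208)) (a (l 16666744) (l 16667280))))) (a (c (a (l 16653520) (l 16654072)) (b (l 16652224) (a (l 16660688) (l 16661248)))) (c (a (l 16654624) (l 16655168))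 (b (l 16653352) (a (l 16661808) (l 16662368)))))) (c (c (a (a (l 16671024) (l 16671544)) (a (l 16672072) (l 16672600))) (b (a (l 16669672) (l 16670752)) (a (a (l 16667816) (l 16668352)) (a (l 16668888) (l 16669416))))) (a (c (a (l 16655720) (l 16656264)) (b (l 16654472) (a (l 16662928) (l 16663480)))) (c (a (l 16656816) (l 16657360)) (b (l 16655592) (a (l 16664040) (l 16664600)))))))), by decide +kernel⟩

def k35_B00pm_102_s1 : ∃ t, chk3 f_B00pm_102_s1 t 228 2046 2 = true :=
  ⟨(a (c (c (a (a (l 16662464) (l 16662992)) (a (l 16663520) (l 16664048))) (b (a (a (l 16660192) (l 16660728)) (a (l 16661264) (l 16661808))) (a (a (l 16659416) (l 16659952)) (a (l 16660488) (l 16661024))))) (c (c (a (a (l 16657808) (l 16658360)) (a (l 16658904) (l 16659448))) (a (l 22) (a (l 16657584) (l 16658136)))) (l 22))) (c (c (a (a (l 16664568) (l 16665096)) (a (l 16665624) (l 16666144))) (b (a (a (l 16662344) (l 16662880)) (a (l 16663416) (l 16663952))) (a (a (l 16661560) (l 16662096)) (a (l 16662632) (l 16663168)))))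 (a (c (a (c (l 16659992) (l 16658688)) (c (l 16660536) (l 16659240))) (l 22)) (a (c (c (l 16661080) (l 16659792)) (l 22)) (c (a (l 16658224) (l 16658496)) (c (l 16659048) (l 22))))))), by decide +kernel⟩

def k36_B00pm_102_s1 : ∃ t, chk3 f_B00pm_102_s1 t 456 2047 2 = true :=
  ⟨(c (b (a (c (a (c (l 16662032) (l 16660672)) (c (l 16662552) (l 16661200))) (a (c (l 16659312) (l 16657960)) (c (l 16659848) (l 16658496)))) (c (a (l 16659784) (l 16662928)) (a (c (l 16660384) (l 16659040)) (c (l 16660920) (l 16659576))))) (b (a (c (a (c (l 16661488) (l 16660112)) (c (l 16662008) (l 16660640))) (a (c (l 16658736) (l 16657368)) (c (l 16659272) (l 16657904)))) (c (a (c (l 16662528) (l 16661168)) (c (l 16663048) (l 16661696))) (a (c (l 16659808) (l 16658440)) (c (l 16660336) (l 16658984))))) (a (c (a (c (l 16661120) (l 16659736)) (c (l 16661640) (l 16660264))) (a (a (c (l 16658224) (l 16656840)) (c (l 16658488) (l 16657104))) (c (b (l 16658984) (l 16658792)) (a (l 16657376) (l 16657640))))) (c (a (c (l 16662160)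 (l 16660792)) (c (l 16662688) (l 16661320))) (a (c (b (l 16659520) (l 16659328)) (a (l 16657912) (l 16658184))) (c (b (l 16660048) (l 16659856)) (a (l 16658448) (l 16658720)))))))) (b (c (a (c (a (l 16656600) (l 16657144)) (l 22)) (c (a (l 16657688) (l 16658232)) (c (a (l 16656680) (l 16657224)) (l 22)))) (l 22)) (c (b (c (a (a (a (l 16655856) (l 16656128)) (a (l 16656400) (l 16656672))) (a (a (l 16656944) (l 16657216)) (a (l 16657488) (l 16657760)))) (a (l 22) (c (a (l 16656064) (l 16656608)) (l 22)))) (a (c (a (a (b (l 16655552) (l 16655352)) (b (l 16655824) (l 16655624))) (a (b (l 16656096) (l 16655896)) (b (l 16656368) (l 16656168)))) (l 22)) (a (c (a (b (l 16656640) (l 16656440)) (b (l 16656912) (l 16656712))) (a (l 22) (c (l 16655784) (l 22)))) (c (a (l 16657080) (l 16657352)) (c (a (l 16656056) (l 16656328)) (l 22)))))) (l 22)))), by decide +kernel⟩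

def k37_B00pm_102_s1 : ∃ t, chk3 f_B00pm_102_s1 t 457 2047 4 = true :=
  ⟨(b (a (c (a (l 16663456) (l 16663976)) (a (c (l 16661448) (l 16660112)) (c (l 16661984) (l 16660648)))) (c (a (l 16664504) (l 16665024)) (a (c (l 16662512) (l 16661184)) (c (l 16663048) (l 16661728))))) (b (a (c (a (c (l 16663568) (l 16662224)) (l 16663416)) (a (c (l 16660872) (l 16659520)) (c (l 16661400) (l 16660056)))) (c (a (l 16663944) (l 16664464)) (a (c (l 16661928) (l 16660592)) (c (l 16662464) (l 16661128))))) (a (c (a (c (l 16663208) (l 16661848)) (c (l 16663728) (l 16662368))) (a (c (l 16660480) (a (l 16658984) (l 16659256))) (c (l 16661016) (a (l 16659520) (l 16659792))))) (c (a (c (l 16664248) (l 16662896)) (c (l 16664760) (l 16663416))) (a (c (l 16661544) (a (l 16660056) (l 16660328))) (c (l 16662072) (a (l 16660592) (l 16660864)))))))), by decide +kernel⟩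

def k38_B00pm_102_s1 : ∃ t, chk3 f_B00pm_102_s1 t 457 2047 5 = true :=
  ⟨(b (c (c (a (a (l 16658776) (l 16659320)) (a (l 16659864) (l 16660408))) (a (a (b (l 16657648) (l 16657232)) (b (l 16658200) (l 16657784))) (a (b (l 16658744) (l 16658328)) (l 16659088)))) (c (a (l 22) (a (l 22) (b (l 16657976) (l 16657552)))) (l 22))) (c (b (c (a (a (a (l 16658032) (l 16658304)) (l 16658712)) (a (l 16659248) (l 16659792))) (a (a (a (l 16656680) (l 16656952)) (a (l 16657224) (l 16657496))) (a (a (l 16657776) (l 16658048)) (a (l 16658320) (l 16658592))))) (a (a (c (a (l 16657624) (l 16657896)) (c (a (l 16656600) (l 16656880)) (l 22))) (c (a (l 16658168) (l 16658440)) (a (a (l 16656744) (l 16656880)) (a (l 16657016) (l 16657152))))) (a (c (a (l 16658704) (l 16658976)) (a (a (l 16657288) (l 16657424)) (b (l 16657736) (l 16657528)))) (c (a (l 16659248) (l 16659520)) (a (b (l 16658008) (l 16657800)) (b (l 16658280) (l 16658072))))))) (c (c (a (l 22) (a (l 22) (a (l 22) (a (l 22) (l 16657448))))) (l 22)) (l 22)))),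 by decide +kernel⟩

def k39_B00pm_102_s1 : ∃ t, chk3 f_B00pm_102_s1 t 229 2046 2 = true :=
  ⟨(a (c (c (a (a (l 16666672) (l 16667192)) (a (l 16667720) (l 16668240))) (a (a (b (l 16664488) (l 16663704)) (b (l 16665024) (l 16664240))) (a (b (l 16665560) (l 16664768)) (b (l 16666096) (l 16665304))))) (a (c (a (a (l 16658768) (l 16659040)) (b (l 16662488) (l 16659040))) (c (a (l 16659600) (l 16660160)) (l 22))) (c (a (b (l 16663032) (l 16662208)) (b (l 16663576) (l 16662752))) (c (a (l 16660712) (l 16661264)) (l 22))))) (c (c (a (a (l 16668760) (l 16669288)) (a (l 16669808) (l 16670328))) (a (a (b (l 16666624) (l 16665840)) (b (l 16667160) (l 16666368))) (a (b (l 16667696) (l 16666904)) (b (l 16668224) (l 16667432))))) (a (c (a (b (l 16664120) (l 16663296)) (b (l 16664664) (l 16663832))) (a (c (l 16661816) (l 22)) (b (l 16662176) (c (l 16661936) (l 16660672))))) (c (a (b (l 16665208) (l 16664376)) (b (l 16665752) (l 16664920))) (a (b (l 16662728) (c (l 16662488) (l 16661224))) (b (l 16663288) (c (l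 16663040) (l 16661784)))))))), by decide +kernel⟩

def k40_B00pm_102_s1 : ∃ t, chk3 f_B00pm_102_s1 t 458 2047 4 = true :=
  ⟨(b (a (c (a (l 16665544) (l 16666072)) (a (c (l 16663576) (l 16662264)) (c (l 16664104) (l 16662800)))) (c (a (l 16666592) (l 16667112)) (a (c (l 16664632) (l 16663328)) (c (l 16665168) (l 16663864))))) (b (a (c (a (l 16664984) (l 16665504)) (a (c (l 16662992) (l 16661664)) (c (l 16663520) (l 16662200)))) (c (a (l 16666032) (l 16666552)) (a (c (l 16664048) (l 16662736)) (c (l 16664576) (l 16663264))))) (a (c (a (c (l 16665280) (l 16663944)) (c (l 16665800) (l 16664464))) (a (c (l 16662608) (a (l 16661128) (l 16661400))) (c (l 16663136) (a (l 16661664) (l 16661928))))) (c (a (c (l 16666320) (l 16664992)) (c (l 16666832) (l 16665512))) (a (c (l 16663664) (a (l 16662200) (l 16662464))) (c (l 16664192) (l 16662864))))))), by decide +kernel⟩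

def k41_B00pm_102_s1 : ∃ t, chk3 f_B00pm_102_s1 t 458 2047 5 = true :=
  ⟨(b (a (a (c (c (l 16660944) (l 16659632)) (c (b (l 16658528) (l 16658104)) (l 22))) (c (c (l 16661488) (l 16660176)) (c (b (l 16659080) (l 16658656)) (l 22)))) (a (c (c (l 16662032) (l 16660728)) (c (b (l 16659632) (l 16659208)) (l 22))) (c (c (l 16662568) (l 16661272)) (c (b (l 16660184) (l 16659760)) (l 22))))) (a (c (a (c (b (l 16660336) (a (l 16659792) (l 16660056))) (a (c (l 16658992) (l 16658328)) (c (l 16659264) (l 16658600)))) (c (a (l 16660536) (l 16660800)) (a (a (l 16659136) (l 16659272)) (a (l 16659408) (l 16659544))))) (c (c (b (a (l 16658008) (l 16658560)) (a (a (l 16657440) (l 16657720)) (a (l 16657992) (l 16658264)))) (l 22)) (l 22))) (c (a (c (a (l 16661072) (l 16661344)) (b (a (l 16659960) (l 16660232)) (a (l 16659536) (l 16659808)))) (c (a (l 16661616) (l 16661880)) (b (a (l 16660504) (l 16660776)) (a (l 16660080) (l 16660352))))) (c (c (a (a (a (l 16658688) (l 16658824)) (l 16659032)) (a (l 16659304)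 (l 16659576))) (b (a (l 16658448) (l 16659000)) (a (a (l 22) (l 16658152)) (a (l 16658432) (l 16658704))))) (l 22))))), by decide +kernel⟩

def k42_B00pm_102_s1 : ∃ t, chk3 f_B00pm_102_s1 t 459 2047 4 = true :=
  ⟨(b (a (c (a (l 16667632) (l 16668152)) (a (c (l 16665696) (l 16664400)) (c (l 16666224) (l 16664936)))) (c (a (l 16668672) (l 16669192)) (a (c (l 16666752) (l 16665472)) (c (l 16667280) (l 16666000))))) (b (a (c (a (l 16667072) (l 16667592)) (a (c (l 16665104) (l 16663800)) (c (l 16665632) (l 16664336)))) (c (a (l 16668104) (l 16668624)) (a (c (l 16666160) (l 16664864)) (c (l 16666688) (l 16665400))))) (a (c (a (c (l 16667352) (l 16666032)) (c (l 16667864) (l 16666552))) (a (c (l 16664720) (l 16663400)) (c (l 16665248) (l 16663936)))) (c (a (c (l 16668384) (l 16667080)) (c (l 16668896) (l 16667600))) (a (c (l 16665768) (l 16664464)) (c (l 16666296) (l 16665000))))))), by decide +kernel⟩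

def k43_B00pm_102_s1 : ∃ t, chk3 f_B00pm_102_s1 t 459 2047 5 = true :=
  ⟨(b (c (a (a (c (l 16663112) (l 16661816)) (c (l 16663648) (l 16662360))) (a (c (l 16664184) (l 16662904)) (c (l 16664728) (l 16663448)))) (c (a (a (b (l 16660736) (l 16660312)) (b (l 16661288) (l 16660856))) (a (b (l 16661840) (l 16661408)) (b (l 16662392) (l 16661960)))) (a (a (l 22) (b (l 16660008) (l 16659568))) (a (b (l 16660568) (l 16660120)) (b (l 16661120) (l 16660680)))))) (b (a (a (c (c (l 16662496) (a (l 16661048) (l 16661320))) (c (a (l 16659736) (l 16660016)) (l 22))) (c (c (l 16663032) (l 16661728)) (c (a (l 16660288) (l 16660560)) (a (l 16658984) (l 16659264))))) (c (a (c (l 16663568) (l 16662272)) (c (l 16664104) (l 16662816))) (a (c (a (l 16660840) (l 16661112)) (a (l 16659544) (l 16659816))) (c (a (l 16661384) (l 16661664)) (a (l 16660096) (l 16660368)))))) (a (a (c (c (a (l 16661944) (l 16662216)) (a (l 16660624) (l 16660896))) (c (a (a (l 16659240) (l 16659376)) (a (l 16659512) (l 16659648))) (l 22)))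 (c (c (a (l 16662480) (l 16662752)) (a (l 16661168) (l 16661440))) (c (a (b (l 16659968) (l 16659752)) (b (l 16660240) (l 16660024))) (c (a (l 16658872) (l 16659152)) (l 22))))) (c (a (c (a (l 16663024) (l 16663288)) (a (l 16661712) (l 16661984))) (c (a (l 16663560) (l 16663824)) (a (l 16662256) (l 16662528)))) (b (a (c (a (l 16660512) (l 16660784)) (a (l 16659208) (l 16659488))) (c (a (l 16661064) (l 16661336)) (a (l 16659760) (l 16660040)))) (a (c (a (l 16660296) (l 16660576)) (c (a (l 16659312) (l 16659592)) (l 22))) (c (a (l 16660848) (l 16661120)) (a (c (l 16659864) (l 22)) (c (l 16660144) (l 16659496)))))))))), by decide +kernel⟩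

def k44_B00pm_102_s1 : ∃ t, chk3 f_B00pm_102_s1 t 115 254 2 = true :=
  ⟨(a (b (a (c (l 16679352) (a (l 16665304) (l 16666464))) (c (l 16681568) (a (l 16667624) (l 16668776)))) (a (a (c (l 16672584) (l 16668992)) (c (l 16673672) (l 16670128))) (a (c (l 16674760) (l 16671264)) (c (l 16675848) (a (l 16672096) (l 16672664)))))) (b (a (c (l 16683784) (a (l 16669936) (l 16671088))) (c (l 16685992) (b (l 16674560) (l 16671104)))) (a (c (a (l 16671696) (l 16672776)) (b (l 16675848) (c (l 16673280) (l 16671520)))) (c (b (l 16675992) (c (l 16673720) (l 16671984))) (b (l 16678120) (c (l 16675512) (l 16673800))))))), by decide +kernel⟩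

def k45_B00pm_102_s1 : ∃ t, chk3 f_B00pm_102_s1 t 115 510 2 = true :=
  ⟨(a (a (c (b (c (a (l 16679432) (l 16680496)) (a (l 16677384) (l 16678472))) (c (a (l 16676416) (l 16677472)) (b (a (l 16675000) (l 16676080)) (a (l 16673408) (l 16674488))))) (b (a (l 16663848) (l 16664976)) (a (c (l 16661536) (l 16659344)) (c (l 16662632) (l 16660464))))) (a (c (c (b (l 16681560) (l 16678528)) (b (l 16679560) (b (l 16677160) (l 16675560)))) (b (l 16666096) (c (l 16663736) (l 16661592)))) (b (c (b (l 16682400) (l 16680840)) (l 16667216)) (b (c (l 16679280) (l 16664624)) (c (c (l 16678808) (l 16676632)) (c (l 16674464) (l 16672304))))))) (a (c (b (c (a (l 16683680) (l 16684744)) (b (l 16667376) (l 16665776))) (a (b (l 16680344) (c (l 16679856) (l 16677704))) (b (l 16681408) (c (l 16680904) (l 16678776))))) (b (a (l 16668336) (l 16669448)) (c (b (a (l 16677248) (l 16678344)) (a (l 16675560) (l 16676656))) (a (l 16663832) (l 16664952))))) (c (b (c (a (l 16685800) (l 16686856)) (b (l 16669544) (l 16667928)))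 (a (b (l 16682472) (c (l 16681952) (l 16679848))) (b (l 16683528) (c (l 16682992) (l 16680912))))) (b (a (l 16670568) (l 16671680)) (a (c (b (l 16679440) (l 16677744)) (l 16666072)) (c (b (l 16680536) (l 16678840)) (l 16667184))))))), by decide +kernel⟩

def k46_B00pm_102_s1 : ∃ t, chk3 f_B00pm_102_s1 t 230 1022 2 = true :=
  ⟨(a (c (c (a (a (l 16673120) (l 16673648)) (a (l 16674168) (l 16674688))) (b (a (l 16671824) (l 16672896)) (a (a (l 16669952) (l 16670488)) (a (l 16671024) (l 16671552))))) (a (c (b (l 16669504) (a (l 16667552) (l 16668096))) (b (l 16656712) (a (l 16665152) (l 16665712)))) (b (c (l 16670600) (l 16657824)) (c (a (l 16668640) (l 16669184)) (c (l 16656664) (l 16655480)))))) (b (c (c (a (l 16676240) (l 16677288)) (a (l 16673960) (l 16675032))) (c (a (l 16671696) (l 16672784)) (a (l 16658944) (l 16660056)))) (c (c (a (a (l 16674448) (l 16674968)) (l 16673136)) (a (a (l 16672088) (l 16672616)) (a (l 16673152) (l 16673680)))) (c (a (a (l 16669728) (l 16670272)) (a (l 16670816) (l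 16671360))) (a (c (l 16657768) (l 16656592)) (a (l 16668488) (l 16669040))))))), by decide +kernel⟩

def k47_B00pm_102_s1 : ∃ t, chk3 f_B00pm_102_s1 t 230 2046 2 = true :=
  ⟨(a (c (c (a (a (l 16670848) (l 16671368)) (a (l 16671888) (l 16672408))) (a (a (b (l 16668760) (l 16667968)) (b (l 16669288) (l 16668496))) (a (l 16666808) (l 16669960)))) (c (a (a (b (l 16666296) (l 16665464)) (b (l 16666840) (l 16666008))) (a (b (l 16667384) (l 16666544)) (b (l 16667928) (l 16667088)))) (a (a (b (l 16663840) (c (l 16663592) (l 16662336))) (b (l 16664392) (c (l 16664136) (l 16662896)))) (a (b (l 16664944) (c (l 16664688) (l 16663448))) (b (l 16665504) (c (l 16665240) (l 16664008))))))) (c (c (a (a (l 16672928) (l 16673448)) (a (l 16673960) (l 16674480))) (a (a (l 16670488) (l 16671016)) (a (l 16671544) (l 16672080)))) (c (a (a (b (l 16668464) (l 16667632)) (b (l 16669008) (l 16668168))) (a (b (l 16669552) (l 16668712)) (b (l 16670088) (l 16669248)))) (a (a (c (l 16666224) (l 16662384)) (c (l 16666776) (l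 16665560))) (a (c (l 16667320) (l 16666120)) (c (l 16667872) (l 16666672))))))), by decide +kernel⟩

def k48_B00pm_102_s1 : ∃ t, chk3 f_B00pm_102_s1 t 230 2047 4 = true :=
  ⟨(a (b (a (c (a (l 16669712) (l 16670232)) (a (c (l 16667808) (l 16666536)) (c (l 16668336) (l 16667064)))) (c (a (l 16670752) (l 16671264)) (a (c (l 16668856) (l 16667600)) (l 16666136)))) (a (c (a (b (l 16669144) (l 16668768)) (b (l 16669664) (l 16669280))) (c (a (l 16667024) (l 16667544)) (a (b (l 16665928) (l 16665528)) (b (l 16666464) (l 16666056))))) (c (a (b (l 16670176) (l 16669800)) (b (l 16670696) (l 16670320))) (c (a (l 16668072) (l 16668600)) (a (b (l 16666992) (l 16666592)) (b (l 16667520) (l 16667120))))))) (b (a (c (a (l 16671784) (l 16672304)) (a (l 16669288) (l 16669816))) (c (a (l 16672816) (l 16673336)) (a (l 16670344) (l 16670872)))) (a (c (a (b (l 16671216) (l 16670832)) (b (l 16671728) (l 16671344))) (c (a (l 16669120) (l 16669648)) (a (l 16667856) (l 16668384)))) (c (a (b (l 16672240) (l 16671864)) (b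 (l 16672760) (l 16672376))) (a (c (l 16670168) (l 16668912)) (a (l 16669928) (l 16670192))))))), by decide +kernel⟩

def k49_B00pm_102_s1 : ∃ t, chk3 f_B00pm_102_s1 t 460 2047 5 = true :=
  ⟨(b (c (a (a (c (l 16665264) (l 16663992)) (c (l 16665800) (l 16664536))) (a (c (l 16666336) (l 16665080)) (c (l 16666880) (l 16665624)))) (c (a (a (l 16662728) (l 16663272)) (a (l 16663824) (l 16664368))) (a (a (b (l 16661672) (l 16661232)) (b (l 16662232) (l 16661784))) (a (b (l 16662784) (l 16662336)) (b (l 16663336) (l 16662896)))))) (c (a (a (a (c (l 16664304) (l 16663008)) (c (l 16664568) (l 16663280))) (a (c (l 16664840) (l 16663552)) (c (l 16665104) (l 16663824)))) (a (a (c (l 16665376) (l 16664096)) (c (l 16665640) (l 16664368))) (a (c (l 16665912) (l 16664632)) (c (l 16666176) (l 16664904))))) (a (a (c (b (a (l 16661936) (l 16662208)) (a (l 16661504) (l 16661776))) (c (b (l 16661112) (a (l 16660528) (l 16660808))) (b (a (l 16660328) (l 16660600)) (a (l 16659880) (l 16660160))))) (c (b (a (l 16662480)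 (l 16662760)) (a (l 16662048) (l 16662320))) (c (a (l 16661304) (l 16661576)) (b (l 16661024) (a (l 16660432) (l 16660712)))))) (b (a (c (a (l 16663032) (l 16663304)) (a (l 16661752) (l 16662032))) (c (a (l 16663576) (l 16663848)) (a (l 16662304) (l 16662584)))) (a (c (a (l 16662600) (l 16662872)) (a (a (l 16661240) (l 16661376)) (a (l 16661520) (l 16661656)))) (c (a (l 16663144) (l 16663416)) (a (a (l 16661792) (l 16661928)) (b (l 16662248) (l 16662024))))))))), by decide +kernel⟩

def k50_B00pm_102_s1 : ∃ t, chk3 f_B00pm_102_s1 t 461 2047 5 = true :=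
  ⟨(b (a (c (a (c (l 16667416) (l 16666168)) (c (l 16667952) (l 16666704))) (a (c (l 16664920) (b (l 16663888) (l 16663448))) (c (l 16665464) (b (l 16664440) (l 16664000))))) (c (a (c (l 16668488) (l 16667248)) (c (l 16669024) (l 16667792))) (a (c (l 16666008) (b (l 16665000) (l 16664552))) (c (l 16666560) (b (l 16665552) (l 16665104)))))) (c (a (a (a (c (l 16666448) (l 16665176)) (c (l 16666712) (l 16665448))) (a (c (l 16666984) (l 16665720)) (c (l 16667248) (l 16665984)))) (a (a (c (l 16667520) (l 16666256)) (c (l 16667784) (l 16666528))) (a (c (l 16668048) (l 16666800)) (c (l 16668320) (l 16667064))))) (b (a (a (c (a (l 16664120) (l 16664400)) (a (l 16662856) (l 16663136))) (c (l 16664808) (a (l 16663408) (l 16663688)))) (a (c (l 16665352) (a (l 16663960) (l 16664240))) (c (l 16665904) (a (l 16664512) (l 16664792))))) (a (a (c (a (l 16663688) (l 16663960)) (a (b (l 16662528) (l 16662304)) (b (l 16662800) (l 16662576)))) (c (a (l 16664232) (l 16664504)) (a (b (l 16663080) (l 16662856)) (b (l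 16663352) (l 16663128))))) (a (c (a (l 16664784) (l 16665056)) (a (b (l 16663624) (l 16663408)) (b (l 16663904) (l 16663680)))) (c (a (l 16665328) (l 16665600)) (a (l 16664064) (l 16664344)))))))), by decide +kernel⟩

def k51_B00pm_102_s1 : ∃ t, chk3 f_B00pm_102_s1 t 231 1022 2 = true :=
  ⟨(a (b (c (c (a (l 16678328) (l 16679368)) (a (l 16676096) (l 16677168))) (c (a (l 16673872) (l 16674960)) (a (l 16661168) (l 16662280)))) (c (c (a (l 16676800) (l 16677840)) (a (a (l 16674216) (l 16674744)) (a (l 16675272) (l 16675800)))) (c (a (a (l 16671904) (l 16672440)) (a (l 16672984) (l 16673528))) (a (a (l 16669592) (l 16670144)) (a (l 16670696) (l 16671248)))))) (c (b (c (a (l 16680416) (l 16681456)) (a (l 16678232) (l 16679288))) (c (a (l 16678872) (l 16679912)) (a (a (l 16676336) (l 16676864)) (a (l 16677392) (l 16677920))))) (b (c (a (l 16676048) (l 16677136)) (a (a (l 16673584) (l 16674136)) (a (l 16674688) (l 16675240)))) (c (a (a (l 16674064) (l 16674608)) (a (l 16675144) (l 16675688))) (a (a (l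 16671800) (l 16672352)) (a (l 16672904) (l 16673456))))))), by decide +kernel⟩

def k52_B00pm_102_s1 : ∃ t, chk3 f_B00pm_102_s1 t 231 2046 2 = true :=
  ⟨(a (c (c (a (a (l 16675000) (l 16675520)) (a (l 16676032) (l 16676552))) (a (a (l 16672608) (l 16673136)) (a (l 16673664) (l 16674192)))) (c (a (a (b (l 16670632) (l 16669784)) (b (l 16671168) (l 16670328))) (a (b (l 16671712) (l 16670864)) (b (l 16672248) (l 16671400)))) (a (a (c (l 16668416) (l 16667224)) (c (l 16668968) (l 16667776))) (a (c (l 16669512) (l 16668328)) (a (l 16666712) (l 16666984)))))) (c (c (a (a (l 16677064) (l 16677584)) (a (l 16678096) (l 16678608))) (a (a (l 16674712) (l 16675240)) (a (l 16675768) (l 16676296)))) (c (a (a (b (l 16672792) (l 16671944)) (b (l 16673328) (l 16672480))) (a (b (l 16673864) (l 16673016)) (b (l 16674400) (l 16673552)))) (c (a (a (l 16670608) (l 16671152)) (a (l 16671704) (l 16672248))) (a (a (l 16669440) (l 16669992)) (a (l 16670544) (l 16671088))))))), by decide +kernel⟩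

def k53_B00pm_102_s1 : ∃ t, chk3 f_B00pm_102_s1 t 462 2047 2 = true :=
  ⟨(c (b (a (c (a (l 16673848) (l 16674368)) (a (l 16671392) (l 16671920))) (c (a (l 16674880) (l 16675392)) (a (l 16672448) (l 16672976)))) (a (c (a (l 16670464) (l 16673600)) (a (a (l 16670456) (l 16670720)) (a (l 16670984) (l 16671248)))) (c (a (l 16674112) (l 16674624)) (a (a (l 16671504) (l 16671768)) (a (l 16672032) (l 16672296)))))) (b (a (c (a (c (l 16669552) (l 16668328)) (c (l 16670088) (l 16668872))) (a (c (l 16667104) (b (l 16666104) (l 16665656))) (c (l 16667648) (l 16666432)))) (c (a (c (l 16670624) (l 16669408)) (c (l 16671160) (l 16669952))) (a (c (l 16668192) (l 16666984)) (c (l 16668744) (l 16667528))))) (c (a (a (a (c (l 16668584) (l 16667336)) (c (l 16668848) (l 16667608))) (a (c (l 16669120) (l 16667872)) (c (l 16669384) (l 16668144)))) (a (a (c (l 16669648) (l 16668416)) (c (l 16669920) (l 16668680))) (b (c (l 16670528) (l 16669304)) (c (l 16670112) (l 16668872))))) (a (a (a (c (l 16666088) (b (l 16665064)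 (l 16664616))) (c (l 16666360) (b (l 16665336) (l 16664888)))) (a (c (l 16666632) (b (l 16665616) (l 16665168))) (c (l 16666904) (b (l 16665888) (l 16665440))))) (a (a (c (l 16667176) (b (l 16666168) (l 16665720))) (c (l 16667448) (b (l 16666440) (l 16665992)))) (a (c (l 16667720) (b (l 16666712) (l 16666264))) (c (l 16667992) (b (l 16666992) (l 16666536))))))))), by decide +kernel⟩

def k54_B00pm_102_s1 : ∃ t, chk3 f_B00pm_102_s1 t 463 2047 2 = true :=
  ⟨(c (b (a (c (a (l 16675912) (l 16676424)) (a (l 16673496) (l 16674024))) (c (a (l 16676936) (l 16677448)) (a (l 16674552) (l 16675072)))) (a (c (a (l 16675136) (l 16675648)) (a (a (l 16672552) (l 16672816)) (a (l 16673080) (l 16673344)))) (c (a (l 16676168) (l 16676680)) (a (a (l 16673600) (l 16673864)) (a (l 16674128) (l 16674384)))))) (b (a (c (a (c (l 16671696) (l 16670488)) (c (l 16672224) (l 16671024))) (a (c (l 16669288) (l 16668080)) (c (l 16669832) (l 16668632)))) (c (a (c (l 16672760) (l 16671568)) (c (l 16673288) (l 16672104))) (a (c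 (l 16670376) (l 16669184)) (c (l 16670920) (l 16669728))))) (c (c (a (a (l 16670856) (l 16671384)) (a (l 16671920) (l 16672448))) (a (a (b (l 16669840) (l 16669416)) (b (l 16670384) (l 16669952))) (a (b (l 16670920) (l 16670488)) (b (l 16671456) (l 16671024))))) (a (a (a (c (l 16668264) (b (l 16667264) (l 16666816))) (c (l 16668536) (b (l 16667536) (l 16667088)))) (c (a (l 16668808) (l 16669080)) (b (l 16667952) (a (l 16667360) (l 16667640))))) (a (a (c (l 16669352) (a (l 16668064) (l 16668208))) (c (l 16669624) (l 16668408))) (a (c (l 16669896) (l 16668688)) (c (l 16670168) (l 16668960)))))))), by decide +kernel⟩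

def k55_B00pm_102_s1 : ∃ t, chk3 f_B00pm_102_s1 t 56 31 3 = true :=
  ⟨(b (a (b (b (a (l 16496784) (l 16527776)) (a (l 16490608) (l 16523208))) (b (a (l 16568944) (l 16645216)) (a (c (l 16529712) (l 16430544)) (c (l 16567504) (l 16465136))))) (b (a (b (l 16560520) (l 16641648)) (b (l 16595096) (l 16678272))) (c (a (b (l 16605656) (l 16607808)) (b (l 16646040) (l 16650816))) (a (b (l 16505848) (l 16502080)) (b (l 16543128) (l 16625448)))))) (b (a (c (b (a (l 16612416) (b (l 16568096) (l 16568936))) (a (a (l 16518264) (l 16622616)) (l 22))) (b (a (l 16423856) (l 16460296)) (a (b (l 16419336) (l 16416648)) (b (l 16457248) (l 16539488))))) (c (b (a (b (l 16610256) (l 16612408)) (b (l 16655368) (l 16659016))) (l 22)) (b (a (b (l 16499864) (l 16498776)) (b (l 16541120) (l 16541280))) (a (b (l 16581880) (a (l 16486688) (l 16508440))) (a (a (l 16525080) (l 16620296)) (l 22)))))) (a (b (c (a (b (a (l 16518584) (l 22)) (l 22)) (l 22)) (a (b (l 16498096) (a (l 16402152) (l 16421968))) (b (a (l 16443888)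 (l 16464672)) (a (l 16442552) (l 16547840))))) (c (l 22) (c (a (b (a (l 16430096) (l 16451056)) (a (l 16429056) (l 22))) (l 22)) (a (b (l 16379768) (a (l 16367232) (l 16387576))) (b (a (l 16410264) (l 16431680)) (a (l 16408760) (b (l 16430968) (l 16430632)))))))) (c (l 22) (c (l 22) (a (b (b (l 16550272) (a (l 16454544) (l 22))) (b (a (l 16453976) (l 22)) (l 22))) (l 22))))))), by decide +kernel⟩

def k56_B00pm_102_s1 : ∃ t, chk3 f_B00pm_102_s1 t 57 62 3 = true :=
  ⟨(b (a (a (b (l 16631592) (l 16706592)) (b (l 16753968) (c (l 16725496) (l 16622768)))) (a (b (l 16731632) (a (l 16706664) (l 16729064))) (b (a (l 16742432) (l 16764336)) (a (l 16752112) (l 16722800))))) (c (a (a (b (l 16688984) (l 16696720)) (b (l 16734640) (b (l 16724640) (l 16717344)))) (a (b (l 16741128) (b (l 16730008) (l 16722624))) (b (l 16725640) (a (l 16730248) (l 16732896))))) (a (a (b (l 16582824) (b (l 16583344) (l 16584160))) (b (l 16625096) (b (l 16627736) (l 16630056)))) (a (b (l 16712064) (b (l 16675192) (l 16679232)))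 (b (a (l 16705704) (l 16730448)) (b (l 16725928) (l 16728824))))))), by decide +kernel⟩

def k57_B00pm_102_s1 : ∃ t, chk3 f_B00pm_102_s1 t 57 126 3 = true :=
  ⟨(a (b (a (b (c (l 16703672) (l 16585352)) (c (l 16697552) (l 16670848))) (a (c (l 16705016) (l 16663904)) (c (l 16707592) (l 16688928)))) (l 22)) (c (a (b (a (l 16689200) (l 16691768)) (b (a (l 16698960) (l 16701456)) (a (l 16691512) (l 16693976)))) (b (a (l 16694336) (b (l 16721552) (l 16714008))) (b (a (l 16703960) (l 16706456)) (a (l 16696432) (l 16698880))))) (b (a (b (l 16683808) (a (l 16675256) (l 16702696))) (b (a (l 16719152) (l 16721848)) (a (l 16710968) (l 16713616)))) (l 22)))), by decide +kernel⟩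

def k58_B00pm_102_s1 : ∃ t, chk3 f_B00pm_102_s1 t 114 127 3 = true :=
  ⟨(l 22), by decide +kernel⟩

def k59_B00pm_102_s1 : ∃ t, chk3 f_B00pm_102_s1 t 115 254 3 = true :=
  ⟨(c (c (a (b (a (l 16684768) (l 16666184)) (a (b (l 16658272) (l 16665104)) (b (l 16660632) (l 16667440)))) (a (b (l 16668568) (b (l 16662984) (l 16669776))) (b (l 16681440) (b (l 16665336) (l 16672104))))) (a (l 22) (a (l 22) (b (l 16690672) (b (l 16663824) (l 16670416)))))) (l 22)), by decide +kernel⟩

def k60_B00pm_102_s1 : ∃ t, chk3 f_B00pm_102_s1 t 115 510 3 = true :=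
  ⟨(a (c (c (a (a (l 22) (b (l 16672464) (l 16658304))) (b (b (l 16664664) (l 16662824)) (a (l 16659456) (l 16660600)))) (l 22)) (l 22)) (c (c (a (b (b (l 16666976) (l 16665128)) (a (l 16661744) (l 16662880))) (b (b (l 16669288) (l 16667424)) (a (l 16664024) (l 16665168)))) (a (l 22) (b (a (l 16655392) (l 16656568)) (a (l 16661984) (l 16663152))))) (l 22))), by decide +kernel⟩

def k61_B00pm_102_s1 : ∃ t, chk3 f_B00pm_102_s1 t 230 511 3 = true :=
  ⟨(b (c (c (c (a (a (l 22) (a (l 16654912) (l 16655480))) (a (a (l 16656048) (l 16656608)) (a (l 16657176) (l 16657736)))) (a (l 22) (a (l 22) (a (l 22) (l 16656600))))) (l 22)) (l 22)) (c (a (b (c (c (a (l 22) (c (a (l 16662976) (l 16663536)) (l 22))) (l 22)) (l 22)) (a (l 22) (c (c (c (b (a (l 16661616) (l 16662176)) (b (a (a (l 16660800) (l 16661080)) (a (l 16661352) (l 16661632))) (a (a (l 16660344) (l 16660624)) (a (l 16660904) (l 16661184))))) (l 22)) (l 22)) (l 22)))) (b (c (a (b (a (l 16663640) (l 16664208)) (c (a (l 16663336) (l 16663896)) (l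 22))) (a (b (l 16664768) (c (l 16664456) (l 22))) (b (l 16665328) (c (l 16665008) (l 16663800))))) (l 22)) (b (c (c (a (a (b (l 16662648) (l 16662192)) (b (l 16663208) (l 16662752))) (a (b (l 16663768) (l 16663312)) (b (l 16664320) (l 16663864)))) (a (l 22) (a (l 22) (a (l 16662720) (l 16663000))))) (l 22)) (c (a (c (c (b (a (a (l 16661912) (l 16662192)) (l 16662608)) (a (a (l 16661456) (l 16661736)) (a (l 16662016) (l 16662288)))) (c (b (a (l 16661576) (l 16662136)) (a (a (l 22) (l 16661256)) (a (l 16661536) (l 16661816)))) (l 22))) (l 22)) (a (c (c (b (l 16663168) (a (l 16662568) (l 16662848))) (b (a (l 16662400) (l 16662672)) (a (l 16661936) (l 16662216)))) (l 22)) (c (c (b (l 16663720) (a (l 16663120) (l 16663400))) (b (a (l 16662952) (l 16663232)) (a (l 16662496) (l 16662776)))) (c (a (a (l 22) (l 16662168)) (a (l 16662304) (l 16662448))) (l 22))))) (l 22))))) (l 22))), by decide +kernel⟩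

def k62_B00pm_102_s1 : ∃ t, chk3 f_B00pm_102_s1 t 231 1022 3 = true :=
  ⟨(a (c (c (c (a (a (l 16658304) (l 16658864)) (a (l 16659424) (l 16659992))) (a (a (l 16657168) (l 16657736)) (a (l 16658304) (l 16658872)))) (l 22)) (l 22)) (c (a (c (b (l 16661216) (a (l 16669544) (l 16670104))) (c (a (l 16658336) (l 16658912)) (l 22))) (c (b (l 16662352) (a (l 16670672) (l 16671232))) (c (a (l 16659480) (l 16660056)) (l 22)))) (l 22))), by decide +kernel⟩

def k63_B00pm_102_s1 : ∃ t, chk3 f_B00pm_102_s1 t 462 1023 6 = true :=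
  ⟨(b (c (a (a (b (l 16665896) (c (l 16665568) (l 16664368))) (b (l 16666456) (c (l 16666128) (l 16664928)))) (a (b (l 16667016) (c (l 16666688) (l 16665496))) (b (l 16667576) (c (l 16667240) (l 16666056))))) (l 22)) (b (c (a (b (c (a (l 16664880) (l 16665440)) (a (l 16663664) (l 16664224))) (c (a (l 16664424) (l 16664976)) (a (a (l 16663048) (l 16663328)) (a (l 16663608) (l 16663888))))) (b (c (a (l 16665992) (l 16666552)) (a (l 16664784) (l 16665352))) (c (a (l 16665536) (l 16666088)) (a (a (l 16664176) (l 16664456)) (a (l 16664736) (l 16665016)))))) (l 22)) (a (c (b (c (a (a (l 16663824) (l 16664104)) (a (l 16664376) (l 16664656))) (a (a (l 16662584) (l 16662864)) (a (l 16663144) (l 16663424)))) (b (a (c (a (l 16663480) (l 16663760)) (c (a (l 16662544) (l 16662824)) (l 22))) (c (a (l 16664032) (l 16664312)) (a (c (l 16663104) (l 22)) (l 16663072)))) (a (c (a (c (l 16663560) (l 16662936)) (c (l 16663840) (l 16663216))) (c (a (l 16662312) (l 16662584)) (l 22))) (c (a (c (l 16664120) (l 16663496))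 (c (l 16664392) (l 16663768))) (a (c (l 16662864) (l 22)) (c (l 16663144) (l 16662520))))))) (l 22)) (c (b (c (a (a (l 16664936) (l 16665208)) (a (l 16665488) (l 16665768))) (a (a (l 16663704) (l 16663984)) (a (l 16664264) (l 16664544)))) (b (a (c (a (l 16664592) (l 16664864)) (a (l 16663352) (l 16663632))) (c (a (l 16665144) (l 16665424)) (a (l 16663912) (l 16664192)))) (a (c (a (c (l 16664672) (l 16664048)) (l 16664640)) (a (c (l 16663424) (l 16662808)) (c (l 16663704) (l 16663088)))) (c (a (l 16664912) (l 16665192)) (a (c (l 16663984) (l 16663368)) (c (l 16664264) (l 16663648))))))) (l 22))))), by decide +kernel⟩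

def k64_B00pm_102_s1 : ∃ t, chk3 f_B00pm_102_s1 t 463 2046 6 = true :=
  ⟨(a (c (a (b (l 16668144) (c (l 16667800) (l 16666616))) (b (l 16668704) (c (l 16668360) (l 16667184)))) (c (b (a (l 16666400) (l 16666968)) (a (l 16665440) (l 16666008))) (l 22))) (c (a (b (l 16669264) (c (l 16668912) (l 16667744))) (b (l 16669824) (c (l 16669472) (l 16668304)))) (c (b (a (l 16667536) (l 16668112)) (a (l 16666576) (l 16667144))) (l 22)))), by decide +kernel⟩

def k65_B00pm_102_s1 : ∃ t, chk3 f_B00pm_102_s1 t 463 4094 6 = true :=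
  ⟨(a (c (b (a (c (l 16667104) (l 16665912)) (c (l 16667664) (l 16666472))) (a (c (l 16666648) (a (l 16665296) (l 16665576))) (c (l 16667200) (l 16666000)))) (c (a (a (l 16664328) (l 16664608)) (a (l 16664896) (l 16665176))) (l 22))) (c (b (a (c (l 16668216) (l 16667032)) (c (l 16668776) (l 16667592))) (a (c (l 16667760) (l 16666560)) (c (l 16668312) (l 16667120)))) (c (a (a (l 16665464) (l 16665744)) (a (l 16666024) (l 16666312))) (l 22)))), by decide +kernel⟩

def k66_B00pm_102_s1 : ∃ t, chk3 f_B00pm_102_s1 t 463 4095 6 = true :=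
  ⟨(a (c (b (a (c (a (l 16666048) (l 16666320)) (a (l 16664824) (l 16665104))) (c (a (l 16666600) (l 16666872)) (a (l 16665384) (l 16665664)))) (b (a (c (a (l 16665696) (l 16665976)) (a (l 16664472) (l 16664752))) (c (a (l 16666256) (l 16666528)) (a (l 16665032) (l 16665312)))) (a (c (a (l 16665464) (l 16665744)) (a (c (l 16664544) (l 16663928)) (c (l 16664824) (l 16664208)))) (c (a (l 16666024) (l 16666296)) (a (c (l 16665104) (l 16664488)) (c (l 16665376) (l 16664768))))))) (c (c (b (a (a (l 16663912) (l 16664192)) (a (l 16664472) (l 16664752))) (c (a (a (l 16663584) (l 16663864)) (a (l 16664144) (l 16664424))) (a (l 22) (a (l 22) (l 16664120))))) (l 22)) (l 22))) (c (b (a (c (a (l 16667152) (l 16667432)) (a (l 16665944) (l 16666224))) (c (a (l 16667704) (l 16667984)) (a (l 16666504) (l 16666784)))) (a (c (a (l 16666688) (l 16666968)) (a (a (l 16665400) (l 16665544)) (a (l 16665680) (l 16665816)))) (c (a (l 16667240) (l 16667520)) (a (a (l 16665960) (l 16666096)) (a (l 16666240) (l 16666376))))))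 (c (c (b (a (a (l 16665040) (l 16665320)) (a (l 16665600) (l 16665880))) (a (a (b (l 16664680) (l 16664440)) (l 16664840)) (a (l 16665120) (l 16665400)))) (a (l 22) (b (a (l 16665000) (l 16665280)) (c (a (l 16664664) (l 16664944)) (l 22))))) (l 22)))), by decide +kernel⟩

def k67_B00pm_102_s1 : ∃ t, chk3 f_B00pm_102_s1 t 231 1023 7 = true :=
  ⟨(l 22), by decide +kernel⟩

def k68_B00pm_102_s1 : ∃ t, chk3 f_B00pm_102_s1 t 116 60 1 = true :=
  ⟨(c (b (a (b (b (l 16780936) (a (b (l 16740064) (l 16742424)) (l 16759568))) (a (l 16711264) (c (l 16774448) (l 16761072)))) (b (c (l 16785184) (l 16772480)) (b (a (b (l 16779464) (a (l 16739536) (l 16758552))) (l 16778456)) (a (l 16744248) (b (a (l 16758744) (l 16757312)) (l 16760920)))))) (b (a (c (l 16732216) (l 16719752)) (c (a (l 16722152) (l 16757400)) (l 16748080))) (a (l 16744608) (a (b (l 16729760) (l 16739128)) (c (l 16733472) (l 16721744)))))) (b (b (a (b (l 16731720) (a (b (l 16729592) (l 16731144)) (l 16740768))) (c (l 16759360) (l 16724648)))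 (a (b (c (l 16745888) (l 16728816)) (l 16741624)) (b (a (b (l 16751688) (c (l 16759936) (l 16725952))) (l 16751400)) (a (l 16716760) (b (c (l 16737704) (l 16739136)) (c (l 16761496) (l 16741144))))))) (a (b (l 16745840) (l 16751896)) (b (c (l 16734976) (l 16738720)) (l 16760792))))), by decide +kernel⟩

def k69_B00pm_102_s1 : ∃ t, chk3 f_B00pm_102_s1 t 117 60 2 = true :=
  ⟨(b (a (a (b (l 16756536) (b (l 16777528) (c (l 16773712) (b (l 16771016) (l 16771232))))) (c (l 16772128) (l 16765400))) (c (b (l 16780928) (l 16781288)) (b (l 16770080) (l 16759120)))) (b (a (c (b (a (b (l 16765544) (l 16790464)) (b (l 16783128) (b (l 16773408) (l 16764256)))) (l 16751872)) (b (a (b (l 16762928) (l 16777528)) (b (l 16770224) (a (l 16772664) (l 16770504)))) (l 16739240))) (b (c (a (l 16782032) (l 16781064)) (a (l 16769488) (l 16768992))) (a (b (c (a (l 16773328) (l 16782096)) (a (l 16760512) (l 16769368))) (c (l 16765200) (l 16752552))) (a (b (l 16754248) (c (b (l 16781576) (l 16782568)) (b (l 16768928) (l 16769928))))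 (c (l 16780984) (l 16768608)))))) (a (c (b (l 16760848) (l 16769920)) (b (l 16748720) (l 16758304))) (b (a (l 16765760) (a (l 16760760) (b (c (l 16772240) (b (l 16758728) (l 16770960))) (l 16759752)))) (a (l 16754104) (l 16768392)))))), by decide +kernel⟩

def k70_B00pm_102_s1 : ∃ t, chk3 f_B00pm_102_s1 t 117 60 3 = true :=
  ⟨(b (a (a (b (l 16752664) (a (b (l 16751400) (c (l 16757800) (l 16733272))) (l 16740512))) (c (l 535849231) (l 535160335))) (a (c (l 535797519) (l 535103759)) (c (l 535745039) (l 535046671)))) (a (b (b (a (a (l 16714600) (b (c (l 16758344) (l 16744328)) (l 16755568))) (b (c (l 16756880) (l 16743088)) (a (c (l 16759240) (l 16745360)) (b (l 16739216) (c (l 16757368) (l 16743512)))))) (c (l 16726176) (l 16712672))) (c (l 16741184) (l 16728456))) (b (b (c (a (l 16756512) (l 16756496)) (a (l 16743096) (l 16743576))) (a (b (b (a (c (l 16756752) (l 16742992)) (l 16749360)) (a (l 16730608) (c (l 16756232) (l 16742576)))) (c (l 16739464) (l 16725928))) (a (b (l 16749344) (c (b (l 16755832)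 (l 16756832)) (b (l 16742288) (l 16743296)))) (c (l 16755792) (l 16742544))))) (a (c (l 16730888) (l 16717984)) (a (c (l 16746728) (l 16712760)) (b (b (c (b (a (l 16756552) (l 16755616)) (l 16758024)) (b (a (l 16743072) (l 16742176)) (l 16744648))) (l 16744752)) (l 16742024))))))), by decide +kernel⟩

def k71_B00pm_102_s1 : ∃ t, chk3 f_B00pm_102_s1 t 58 61 1 = true :=
  ⟨(a (c (b (a (b (l 16741136) (l 16770408)) (b (l 16789176) (l 16776320))) (a (b (l 16757696) (l 16744920)) (b (l 16763424) (l 16750480)))) (b (a (b (l 16758696) (l 16766472)) (b (l 16749640) (l 16760608))) (a (b (l 16775480) (a (l 16775432) (l 16712688))) (b (c (l 16733824) (l 16768808)) (c (l 16718896) (l 16779368)))))) (b (c (b (a (c (l 16783688) (b (l 16726048) (l 16735848))) (c (b (a (l 16769096) (l 16762456)) (l 16774984)) (b (l 16754440) (l 16764208)))) (a (l 16782224) (b (l 16779240) (l 16784808)))) (b (a (c (b (l 16714544) (l 16724896)) (l 16742792)) (c (b (l 16742712) (l 16753032)) (a (l 16697560) (l 16732512)))) (a (c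 (b (l 16735360) (l 16745936)) (l 16795984)) (c (b (l 16721536) (l 16732096)) (b (l 16710536) (l 16721688)))))) (a (c (b (l 16769152) (l 16777008)) (b (c (l 16740024) (l 16808664)) (c (l 16724896) (l 16732592)))) (c (b (l 16795856) (a (l 16760120) (l 16762888))) (b (c (l 16746240) (b (a (l 16736528) (l 16729504)) (l 16744360))) (c (l 16772856) (l 16780864))))))), by decide +kernel⟩

def k72_B00pm_102_s1 : ∃ t, chk3 f_B00pm_102_s1 t 118 60 2 = true :=
  ⟨(b (a (c (b (l 16779280) (l 536748303)) (b (l 16769400) (b (l 16769000) (l 16768728)))) (c (a (l 536689935) (l 536658191)) (b (l 536001039) (b (l 16768760) (l 16763216))))) (a (b (c (c (l 16782712) (l 16777032)) (c (l 16771248) (l 16765360))) (c (b (a (b (a (b (l 16780632) (l 16781072)) (l 16780240)) (a (l 16783600) (b (l 16780480) (l 16781632)))) (a (l 16769416) (l 16779536))) (a (l 16767728) (b (a (b (l 16770384) (l 16782712)) (b (l 16779616) (a (l 16780520) (l 16779680)))) (l 16774024)))) (b (a (b (a (b (l 16768240) (a (l 16768848) (l 16768168)))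 (l 16768032)) (a (l 16750288) (b (l 16762888) (l 16758824)))) (b (l 16767832) (a (l 16762536) (l 16767632)))) (a (l 16755728) (b (a (b (a (l 16769064) (l 16767984)) (l 16770560)) (b (l 16767520) (a (l 16757864) (l 16767560)))) (l 16762048)))))) (a (b (c (l 16778880) (l 536308751)) (b (c (l 16779064) (l 16767592)) (c (b (l 16779152) (a (b (a (l 16779856) (l 16779280)) (l 16770480)) (b (l 16779048) (l 16768712)))) (b (l 16767368) (c (a (b (l 16770672) (l 16772016)) (l 16770280)) (a (b (a (l 16764696) (l 16764208)) (l 16765912)) (b (l 16764208) (l 16764240)))))))) (c (b (l 16767856) (l 536683535)) (b (l 536275471) (b (l 16767544) (l 16767240))))))), by decide +kernel⟩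

def k73_B00pm_102_s1 : ∃ t, chk3 f_B00pm_102_s1 t 118 120 3 = true :=
  ⟨(a (c (b (l 16753928) (b (l 16758112) (l 16757408))) (b (l 534961679) (b (l 16746864) (l 16745696)))) (c (b (b (l 16760376) (l 16759640)) (c (l 16761080) (l 16755944))) (b (b (l 16751088) (l 16749888)) (a (l 16742336) (l 534853647))))), by decide +kernel⟩

def k74_B00pm_102_s1 : ∃ t, chk3 f_B00pm_102_s1 t 118 121 3 = true :=
  ⟨(a (b (c (c (l 16759368) (l 16753280)) (a (l 16738344) (l 534954255))) (a (b (b (c (a (b (l 16755408) (a (l 16755912) (l 16755296))) (l 16755392)) (a (b (l 16742136) (a (l 16742528) (l 16741968))) (l 16742312))) (a (c (l 16747984) (l 16734752)) (c (b (a (l 16755424) (l 16755144)) (a (l 16757120) (l 16755792))) (b (a (l 16736896) (l 16741960)) (c (l 16746672) (l 16739960)))))) (c (l 16743288) (l 16730408))) (b (c (a (c (l 16758480) (l 16752112)) (l 16755448)) (a (c (l 16745640) (l 16739056)) (l 16742760))) (b (a (c (b (a (l 16756360) (b (l 16754984) (l 16755464))) (l 16757968)) (b (a (l 16743224) (b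 (l 16741856) (l 16742336))) (l 16744928))) (b (c (l 16754992) (l 16742024)) (c (a (b (l 16755216) (l 16756112)) (b (l 16754896) (l 16755024))) (a (b (l 16742136) (l 16743064)) (b (l 16741904) (l 16742000)))))) (c (a (l 16761760) (l 16747984)) (a (l 16748928) (l 16735096))))))) (b (c (a (l 535620623) (b (l 16757664) (l 16756912))) (a (b (l 16745792) (l 16744600)) (b (l 16746792) (l 16745592)))) (c (a (b (l 16755712) (b (l 16755160) (a (b (a (b (l 16754888) (l 16755464)) (l 16754840)) (a (l 16757216) (c (l 16758920) (l 16752592)))) (a (b (l 16754936) (c (l 16758096) (l 16751784))) (l 16754944))))) (c (l 16758728) (l 16752832))) (a (b (l 16743408) (b (l 16742520) (a (b (a (b (l 16741920) (l 16742504)) (l 16741968)) (a (l 16744344) (c (l 16746152) (l 16739600)))) (b (l 16742304) (a (b (l 16741960) (a (l 16742248) (l 16741928))) (l 16742120)))))) (c (l 535059215) (l 534695183)))))), by decide +kernel⟩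

def k75_B00pm_102_s1 : ∃ t, chk3 f_B00pm_102_s1 t 119 60 1 = true :=
  ⟨(c (b (a (c (a (l 536629775) (l 536604687)) (b (l 535933967) (c (l 16770992) (l 536045583)))) (c (b (l 536564495) (c (l 16778872) (l 16775112))) (b (a (l 536160015) (l 536136207)) (a (l 536178703) (l 536156687))))) (a (c (b (a (l 16772664) (l 16772320)) (c (l 16780488) (l 16775368))) (b (a (l 536245775) (l 536219151)) (a (b (l 16767600) (l 16767288)) (b (l 16767752) (l 16767432))))) (c (a (b (l 16772048) (l 536622095)) (b (l 536861199) (l 536608015))) (a (b (l 535927311) (b (l 16767992) (l 16767664))) (b (l 535907343) (b (l 16768312) (l 16767984))))))) (b (a (c (b (a (l 16760928) (l 535484431)) (a (l 535534607) (l 535501583))) (b (a (l 16746984) (l 534757135)) (a (l 534812431) (l 534774287)))) (c (b (a (l 535452687) (l 535424271)) (a (l 535471631) (l 535445007))) (b (a (l 534720271) (l 534686735)) (a (l 534739471) (l 534707471))))) (c (a (b (a (b (l 16758256) (l 16757496)) (b (l 16758952) (l 16758176))) (a (c (l 16759168)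 (l 535383567)) (c (l 16759704) (l 535352847)))) (a (b (c (l 16761664) (l 16757016)) (c (l 16760336) (l 535056911))) (b (c (l 16762408) (l 16758032)) (c (l 16761064) (l 535032591))))) (a (b (a (b (l 16747920) (l 16746704)) (c (l 16751080) (l 16745984))) (a (c (l 535023119) (l 534656271)) (c (l 534990095) (l 534620687)))) (b (a (c (l 16752288) (l 534569999)) (c (l 534913807) (l 534538767))) (a (c (l 534959887) (l 534588175)) (c (l 534933263) (l 534558735)))))))), by decide +kernel⟩

def k76_B00pm_102_s1 : ∃ t, chk3 f_B00pm_102_s1 t 118 122 2 = true :=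
  ⟨(b (a (c (b (l 16773600) (a (l 16765104) (l 16758616))) (a (l 16770240) (l 16763648))) (b (c (a (a (l 16765576) (b (c (l 16773704) (l 16773136)) (l 16785656))) (b (a (b (l 16778848) (b (l 16773936) (l 16769336))) (l 16778592)) (a (l 16761520) (b (a (l 16768824) (l 16778632)) (l 16770064))))) (a (a (l 16753896) (b (b (a (l 16768832) (b (l 16767232) (l 16767888))) (l 16770416)) (l 16774048))) (b (a (b (l 16761824) (a (l 16762896) (b (l 16766992) (l 16762088)))) (l 16767000)) (a (l 16760352) (b (a (b (l 16761880) (l 16767864)) (c (l 16759424) (l 16753480))) (c (l 16771856) (l 16765928))))))) (c (a (l 16773176) (l 16766840)) (a (l 16762008) (a (l 16757168) (l 16753952)))))) (a (c (b (l 16771128) (l 16780512)) (b (l 16760696) (l 16770648))) (b (c (a (l 16761496) (l 16776120)) (l 16768600)) (c (l 16767664) (l 16778536))))), by decide +kernel⟩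

def k77_B00pm_102_s1 : ∃ t, chk3 f_B00pm_102_s1 t 118 122 3 = true :=
  ⟨(b (a (c (b (a (l 16732504) (l 16746760)) (l 16760400)) (b (a (l 16720168) (l 16734312)) (l 16748576))) (b (a (a (c (l 16741784) (l 16729240)) (c (b (b (a (l 16756480) (b (a (l 16754912) (l 16754736)) (l 16755544))) (l 16758176)) (l 16762016)) (b (b (a (l 16743688) (b (a (l 16742088) (l 16741960)) (a (l 16743072) (l 16742376)))) (l 16745504)) (l 16749552)))) (c (c (b (a (b (l 16757944) (a (l 16758976) (b (l 16757856) (l 16758184)))) (l 16758032)) (a (l 16761808) (b (a (b (l 16758016) (l 16758776)) (l 16757912)) (l 16754648)))) (b (a (b (l 16751728) (a (l 16752736) (b (l 16751632) (l 16751952)))) (l 16751920)) (a (l 16755656) (b (a (b (l 16751816) (l 16752584)) (l 16751744)) (a (l 16754480) (l 16752952)))))) (c (b (a (b (l 16745408) (a (l 16746384) (b (l 16745296) (l 16745608)))) (l 16745696)) (a (l 16749392) (b (a (b (l 16745496) (l 16746288)) (l 16745472)) (a (l 16748224) (b (l 16746056) (l 16747240)))))) (b (a (b (l 16738968)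 (a (b (l 16739296) (l 16740424)) (b (l 16738856) (l 16739160)))) (l 16739368)) (a (l 16743016) (b (a (b (l 16739072) (l 16739872)) (b (l 16739104) (l 16739056))) (a (l 16741864) (b (l 16739672) (l 16740880))))))))) (c (a (l 16750424) (a (l 16745488) (l 16752704))) (a (l 16738408) (c (l 16734784) (l 16728616)))))) (a (c (b (l 16749856) (l 16760392)) (b (l 16738608) (l 16749752))) (b (a (c (l 16739864) (l 16728440)) (c (l 16754256) (l 16742704))) (c (l 16768048) (l 16757152))))), by decide +kernel⟩

def k78_B00pm_102_s1 : ∃ t, chk3 f_B00pm_102_s1 t 119 244 2 = true :=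
  ⟨(a (c (b (a (b (l 16778256) (a (b (l 16778400) (a (l 16773544) (l 16778376))) (l 16778208))) (l 16777920)) (a (b (a (b (a (l 16780432) (l 16768648)) (l 16781952)) (b (l 16773072) (a (l 16779664) (l 16773368)))) (l 16762880)) (b (l 16772760) (a (b (a (l 16768528) (l 16772976)) (l 16769880)) (b (l 16777960) (a (b (l 16778112) (l 16778704)) (l 16777968))))))) (b (a (b (l 16767048) (a (b (l 16766904) (a (b (l 16766864) (c (l 16770248) (l 16764320))) (l 16766832))) (l 16766912))) (b (l 16767192) (l 16767032))) (a (b (a (b (a (l 16768872) (b (c (l 16770016) (l 16764120)) (l 16767904))) (l 16770512)) (b (a (c (l 16764560) (l 16758696)) (l 16766808)) (a (l 16762944) (b (l 16766808) (c (l 16770232) (l 16764392)))))) (l 16762104)) (b (c (l 16764448) (l 16758776)) (a (b (a (b (c (l 16759512) (l 16764192)) (l 16768016)) (b (l 16766744) (c (l 16759328) (l 16758792)))) (a (l 16769848) (l 16763056))) (b (l 16766792) (a (b (a (l 16761608) (l 16766720)) (a (l 16767696) (l 16761832))) (b (l 16766760) (l 16766752)))))))))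 (c (c (l 16780088) (a (l 16764616) (l 16764536))) (a (c (l 16764600) (l 535916559)) (c (l 16764784) (l 16762304))))), by decide +kernel⟩

def k79_B00pm_102_s1 : ∃ t, chk3 f_B00pm_102_s1 t 119 245 2 = true :=
  ⟨(a (b (a (c (l 16769848) (l 16759000)) (c (a (l 16765176) (b (c (l 16783528) (l 16767584)) (l 16785384))) (b (a (l 16762256) (b (a (l 16769144) (b (c (l 16759560) (l 16759080)) (l 16768184))) (l 16770824))) (l 16765616)))) (c (a (l 16758232) (l 16772984)) (a (l 16768928) (l 16762584)))) (b (c (a (b (a (b (a (l 16772856) (l 16777840)) (a (l 16779584) (l 16773184))) (l 16772536)) (b (a (l 16781136) (a (l 16768448) (l 16772792))) (l 16771432))) (b (l 16777616) (a (b (l 16777696) (a (l 16773168) (l 16777776))) (l 16777624)))) (a (b (a (b (a (b (l 16766736) (a (l 16761896) (l 16766784))) (l 16766776)) (a (l 16757992) (b (c (l 16764464) (l 16758800)) (l 16762336)))) (c (l 16764384) (c (l 16760216) (l 16757408)))) (a (l 16760896) (b (a (b (c (l 16759664) (l 16759280)) (l 16768408)) (b (l 16766784)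 (a (l 16767312) (l 16761648)))) (l 16759000)))) (b (l 16767080) (a (b (l 16766880) (a (b (a (l 16761864) (l 16766824)) (l 16762560)) (b (l 16766856) (a (l 16761720) (l 16766840))))) (l 16767008))))) (c (a (l 16766808) (b (a (l 16770400) (b (a (l 16772776) (l 16777648)) (a (l 16779720) (l 16773208)))) (l 16763032))) (a (b (l 16764288) (l 16758792)) (b (a (c (l 16767624) (c (l 16763528) (l 16760760))) (b (a (b (l 16761656) (c (l 16764856) (l 16759352))) (l 16766936)) (a (l 16768992) (b (a (l 16762080) (l 16766976)) (l 16768072))))) (l 16763024)))))), by decide +kernel⟩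

def k80_B00pm_102_s1 : ∃ t, chk3 f_B00pm_102_s1 t 238 488 3 = true :=
  ⟨(c (a (b (l 16755416) (a (a (b (l 16754912) (b (l 16754800) (c (l 16758280) (l 16752136)))) (l 16754960)) (l 16755192))) (c (l 16748248) (l 16753016))) (a (a (b (l 16743088) (b (l 16742632) (a (b (c (l 16745464) (l 16739104)) (a (l 16742880) (b (l 16742248) (l 16742472)))) (l 16742472)))) (c (l 16746400) (l 16740280))) (c (l 16747208) (l 16741288)))), by decide +kernel⟩

def k81_B00pm_102_s1 : ∃ t, chk3 f_B00pm_102_s1 t 476 489 3 = true :=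
  ⟨(b (c (a (b (a (l 16756880) (b (c (l 16758112) (a (l 16752088) (l 16741272))) (l 16755920))) (l 16758640)) (b (a (b (l 16754880) (a (c (l 16752792) (l 16751936)) (l 16754824))) (l 16754992)) (c (a (l 16759296) (b (l 16752680) (l 16758448))) (a (l 16753232) (b (l 16746624) (a (l 16752616) (l 16752056))))))) (a (b (c (a (l 16747600) (b (a (l 16745856) (l 16745536)) (l 16746648))) (a (l 16741272) (b (a (l 16739512) (l 16739208)) (l 16740328)))) (l 16746336)) (b (a (b (l 16742528) (a (c (l 16745728) (l 16739408)) (l 16742448))) (l 16742744)) (c (a (b (l 16746416) (l 16747664)) (b (l 16745704) (a (l 16746448) (l 16745896)))) (a (b (l 16740120) (l 16741392)) (b (l 16739432) (a (l 16740168) (l 16739624)))))))) (c (c (l 16753376) (l 16747424)) (c (l 16741360) (l 16735200)))), by decide +kernel⟩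

def k82_B00pm_102_s1 : ∃ t, chk3 f_B00pm_102_s1 t 477 489 3 = true :=
  ⟨(c (a (b (c (l 16752856) (l 16746904)) (b (a (b (a (c (l 16747920) (l 16752376)) (c (l 16752752) (l 16746728))) (l 16756216)) (b (l 16754992) (b (c (l 16752728) (l 16746728)) (a (l 16755360) (l 16754960))))) (c (l 16760344) (l 16749144)))) (b (l 16755496) (b (l 16755208) (a (b (a (c (l 16752840) (b (l 16751960) (l 16746912))) (l 16755024)) (b (c (l 16753152) (l 16752424)) (l 16755920))) (c (l 16752832) (b (l 16752192) (l 16746872))))))) (b (a (c (l 16746096) (l 16739936)) (l 16743656)) (a (c (b (a (b (a (l 16746232) (l 16745832)) (l 16747080)) (b (l 16745896) (a (l 16746080) (l 16740616)))) (a (l 16749096) (l 16747512))) (b (a (b (a (l 16739976) (l 16739592)) (l 16740856)) (b (l 16739696) (a (l 16739856) (l 16734400)))) (a (l 16742928) (l 16741328)))) (b (l 16743200) (b (a (a (b (l 16742784) (c (l 16740824) (l 16739864))) (l 16742896)) (l 16743136)) (a (a (l 16743840) (b (c (l 16740784) (l 16739840)) (l 16743384))) (a (a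 (c (l 16740760) (l 16734584)) (l 16742936)) (l 16743064)))))))), by decide +kernel⟩

def k83_B00pm_102_s1 : ∃ t, chk3 f_B00pm_102_s1 t 239 244 3 = true :=
  ⟨(c (a (c (b (l 16748872) (l 16753456)) (b (l 16753912) (l 16753032))) (c (b (l 16760072) (l 16754168)) (b (l 16754896) (l 16754008)))) (a (c (b (l 16748368) (l 16747256)) (b (l 16742728) (l 16741384))) (c (b (l 16749632) (l 16748512)) (b (l 16744272) (l 16742920))))), by decide +kernel⟩

def k84_B00pm_102_s1 : ∃ t, chk3 f_B00pm_102_s1 t 238 245 3 = true :=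
  ⟨(b (a (b (c (l 16755608) (l 16743784)) (c (l 16750352) (l 16738824))) (b (a (c (l 16750760) (l 16738840)) (c (a (l 16748344) (b (b (b (a (l 16755400) (l 16755064)) (c (l 16753392) (l 16752696))) (l 16756576)) (l 16758528))) (b (a (l 16745488) (b (a (c (l 16746680) (l 16740528)) (b (a (l 16742944) (l 16742984)) (c (l 16741040) (l 16740128)))) (l 16744536))) (l 16742176)))) (c (l 16754376) (a (l 16754848) (l 16741080))))) (c (a (l 16758256) (l 16751784)) (a (l 16747176) (b (l 16737784) (l 16743376))))), by decide +kernel⟩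

def k85_B00pm_102_s1 : ∃ t, chk3 f_B00pm_102_s1 t 478 490 3 = true :=
  ⟨(c (b (a (b (a (b (l 16755152) (a (c (l 16753216) (b (l 16747024) (l 16752728))) (c (l 16752880) (b (l 16752168) (l 16746984))))) (l 16755304)) (a (c (l 16759864) (l 16753992)) (b (a (c (l 16753064) (a (l 16747216) (l 16747048))) (l 16755216)) (c (l 16758984) (c (l 16749344) (l 16746384)))))) (b (l 16755600) (a (b (l 16755360) (a (c (l 16752992) (b (l 16752296) (l 16747160))) (l 16755312))) (l 16755512)))) (b (a (l 16748248) (a (b (a (l 16756096) (b (a (l 16755328) (l 16755264)) (l 16753040))) (l 16756992)) (c (b (l 16758272) (a (l 16753528) (l 16753120))) (b (l 16747216) (a (l 16747712) (b (l 16752432) (l 16747352))))))) (c (l 16752128) (l 16751616)))) (b (a (b (a (b (l 16743152) (a (b (c (l 16740992) (l 16740096)) (l 16743656)) (b (l 16743120) (c (l 16740968) (c (l 16736384) (l 16733296)))))) (l 16743400)) (a (c (l 16748016) (l 16741928)) (b (a (c (b (l 16740976) (l 16741280)) (b (l 16734872) (l 16740416))) (b (l 16743296)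 (l 16743224))) (a (l 16744424) (c (l 16746760) (a (l 16740784) (l 16740496))))))) (b (l 16743904) (a (b (l 16743512) (a (b (l 16743312) (a (b (l 16743304) (l 16743528)) (l 16743304))) (l 16743440))) (l 16743776)))) (a (c (l 16751272) (l 16745288)) (b (a (b (b (a (l 16743848) (a (b (l 16743320) (l 16743448)) (l 16743368))) (c (l 16747168) (l 16741120))) (l 16745152)) (b (c (l 16741304) (a (l 16735200) (l 16740616))) (a (c (b (l 16741472) (l 16747280)) (l 16740992)) (b (l 16743512) (c (c (l 16742920) (l 16739928)) (c (l 16736912) (l 16733872))))))) (c (l 16749392) (l 16743408)))))), by decide +kernel⟩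

def k86_B00pm_102_s1 : ∃ t, chk3 f_B00pm_102_s1 t 479 490 3 = true :=
  ⟨(c (a (b (l 16755928) (b (l 16755640) (a (b (a (c (l 16753368) (b (l 16747320) (l 16752960))) (c (l 16758352) (l 16747328))) (c (l 16754096) (l 16753568))) (a (b (l 16755552) (b (l 16755488) (a (l 16755784) (l 16755560)))) (l 16755608))))) (b (l 16756368) (l 16753368))) (c (b (l 16742440) (a (b (l 16746944) (a (b (a (b (c (l 16742904) (l 16739920)) (l 16747056)) (b (l 16746688) (l 16741432))) (l 16747696)) (b (l 16746888) (a (b (l 16746720) (c (l 16743168) (l 16740200))) (l 16746832))))) (l 16747448))) (b (l 16741904) (a (b (l 16741008) (a (b (a (b (c (l 16736912) (l 16733880)) (l 16741048)) (c (l 16736960) (l 16733936))) (l 16741712)) (b (l 16740952) (a (b (l 16740736) (c (l 16737208) (l 16734192))) (l 16740880))))) (l 16741632))))), by decide +kernel⟩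

def k87_B00pm_102_s1 : ∃ t, chk3 f_B00pm_102_s1 t 239 491 3 = true :=
  ⟨(a (c (c (l 16758624) (l 16753056)) (a (l 16746152) (c (l 16745768) (l 16739976)))) (b (c (a (a (l 16749224) (a (l 16748032) (b (b (c (l 16753536) (b (l 16747520) (l 16753200))) (l 16757064)) (l 16759040)))) (b (a (b (c (l 16753272) (c (l 16748992) (l 16746104))) (b (a (l 16753368) (l 16753024)) (c (l 16753880) (l 16748160)))) (b (l 16755856) (l 16755760))) (a (l 16757848) (b (a (c (l 16753728) (b (l 16747744) (l 16753464))) (b (l 16755752) (a (l 16755848) (l 16755744)))) (c (l 16759760) (l 16754088)))))) (a (b (a (l 16746744) (b (a (l 16744832) (b (c (c (l 16743136) (l 16740184)) (c (l 16737200) (l 16734192))) (l 16744384))) (l 16745816))) (l 16743480)) (b (a (b (a (a (b (l 16743888) (b (l 16743848) (l 16743992))) (l 16743936)) (l 16744080)) (a (c (l 16742360) (l 16741664)) (b (c (l 16741704) (l 16735768)) (a (l 16744352) (b (l 16743984) (l 16744144)))))) (c (l 16747192) (l 16741320))) (a (l 16746288) (b (a (b (c (c (l 16743392)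 (l 16740464)) (c (l 16737504) (l 16734520))) (l 16744728)) (a (b (l 16744128) (b (l 16744120) (l 16744312))) (l 16744184))) (c (l 16748312) (l 16742432))))))) (c (c (l 16754880) (l 16749328)) (c (l 16743672) (l 16737912))))), by decide +kernel⟩

def k88_B00pm_102_s1 : ∃ t, chk3 f_B00pm_102_s1 t 59 123 1 = true :=
  ⟨(a (c (a (b (a (l 16779056) (l 16781784)) (a (l 16765600) (l 16768240))) (b (b (c (l 16777112) (l 16767600)) (l 16782232)) (a (l 16770808) (l 16773320)))) (c (b (a (b (l 16771040) (l 16739848)) (b (l 16757712) (l 16768456))) (a (l 16778744) (l 16784352))) (b (a (b (l 16761016) (a (l 16733944) (l 16727072))) (b (l 16768408) (l 16758808))) (a (l 16797552) (b (a (l 16731784) (l 16725056)) (l 16739960)))))) (b (c (a (b (c (l 16785512) (l 16775760)) (c (l 16774056) (l 16764912))) (b (c (a (l 16776248) (l 16770120)) (a (l 16766320) (l 16760064))) (c (a (l 16764800) (l 16758664)) (l 16773280)))) (a (b (c (l 16765624) (a (l 16737456) (l 16751824))) (c (l 16776360) (l 16766464))) (b (a (c (l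 16755992) (l 16745272)) (b (c (l 16757432) (l 16746424)) (c (l 16752288) (l 16741592)))) (c (a (l 16745760) (l 16760352)) (a (l 16735672) (l 16750128)))))) (c (a (a (l 16775776) (l 16778192)) (b (c (l 16771288) (l 16783488)) (l 16787408))) (a (b (c (l 16766232) (l 16756984)) (c (l 16777168) (l 16768584))) (b (c (l 16774352) (l 16764840)) (c (l 16764320) (l 16776448))))))), by decide +kernel⟩

def k89_B00pm_102_s1 : ∃ t, chk3 f_B00pm_102_s1 t 58 62 2 = true :=
  ⟨(a (b (a (b (l 16753056) (a (l 16759696) (l 16762312))) (b (l 16758448) (a (l 16764928) (l 16767544)))) (a (b (a (l 16746736) (l 16749272)) (a (b (l 16736896) (l 16730360)) (b (l 16739376) (l 16732800)))) (b (a (l 16751808) (l 16754344)) (a (b (l 16741848) (l 16735232)) (b (l 16744320) (l 16737664)))))) (b (b (a (a (l 16783368) (l 16786056)) (a (l 16788744) (l 16749480))) (a (a (l 16770152) (l 16772760)) (c (l 16753584) (l 16758152)))) (a (b (a (l 16735904) (l 16738432)) (a (b (l 16746792) (l 16740096)) (b (l 16749256) (l 16742520)))) (b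 (a (l 16740960) (l 16743472)) (a (b (l 16751720) (l 16744944)) (b (l 16754176) (l 16747360))))))), by decide +kernel⟩

def k90_B00pm_102_s1 : ∃ t, chk3 f_B00pm_102_s1 t 58 126 2 = true :=
  ⟨(a (a (b (a (b (l 16723800) (l 16696256)) (b (l 16705232) (l 16698616))) (b (a (b (l 16691272) (l 16687976)) (b (l 16693608) (l 16690288))) (a (c (l 16684000) (l 16682128)) (c (l 16686232) (l 16684472))))) (b (a (b (l 16707624) (l 16700976)) (b (l 16710016) (l 16703328))) (a (b (c (l 16694816) (l 16693824)) (c (l 16688464) (l 16686800))) (b (c (l 16697080) (l 16696192)) (c (l 16690688) (l 16689136)))))) (a (b (a (b (l 16712408) (l 16716168)) (b (l 16714800) (l 16718512))) (a (b (c (l 16699336) (l 16698560)) (c (l 16692904) (l 16691464))) (b (c (l 16701592) (l 16700928)) (c (l 16695128) (l 16704272))))) (b (a (b (l 16717184) (l 16720864)) (b (l 16719560) (l 16723200))) (a (b (c (l 16703840) (l 16703288)) (c (l 16697336) (l 16706600))) (b (c (l 16706080) (l 16705648)) (c (l 16710032) (l 16708912))))))), by decide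 +kernel⟩

def k91_B00pm_102_s1 : ∃ t, chk3 f_B00pm_102_s1 t 116 254 2 = true :=
  ⟨(a (b (a (c (l 16688192) (b (l 16676872) (l 16673392))) (c (c (l 16680520) (l 16679288)) (b (l 16679176) (l 16675680)))) (a (c (b (l 16678168) (c (l 16675848) (l 16674160))) (b (l 16680392) (c (l 16677736) (l 16676072)))) (c (b (l 16680336) (c (l 16677976) (l 16676336))) (b (l 16682656) (c (l 16674712) (l 16678344)))))) (a (b (c (a (l 16681472) (l 16682568)) (b (l 16681480) (l 16677960))) (c (b (l 16682496) (b (l 16680072) (l 16678472))) (b (l 16684920) (a (l 16691256) (l 16692376))))) (b (c (a (l 16683656) (l 16684752)) (b (l 16683776) (l 16690720))) (c (b (l 16684656) (a (l 16696568) (l 16697632))) (b (l 16687176) (a (l 16693488) (l 16694608))))))), by decide +kernel⟩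

def k92_B00pm_102_s1 : ∃ t, chk3 f_B00pm_102_s1 t 116 510 2 = true :=
  ⟨(a (a (a (b (c (b (l 16687760) (l 16686176)) (l 16672792)) (c (b (l 16684592) (c (l 16684040) (l 16681976))) (c (b (l 16681632) (l 16679928)) (l 16668304)))) (b (c (b (l 16688824) (l 16687240)) (l 16673912)) (c (b (l 16685648) (c (l 16685080) (l 16683040))) (c (b (l 16682728) (l 16681016)) (l 16669416))))) (c (a (b (a (l 16688824) (l 16689352)) (b (l 16686704) (a (l 16684832) (l 16685360)))) (b (a (l 16689888) (l 16690416)) (b (l 16687760) (a (l 16685880) (l 16686408))))) (b (a (a (l 16685208) (l 16685760)) (a (l 16686320) (l 16686872))) (c (b (a (l 16683816) (l 16684904)) (a (l 16682104) (l 16683184))) (a (l 16670528) (b (l 16683016) (l 16681208))))))) (a (c (c (a (a (l 16674568) (l 16675096)) (b (l 16693160) (l 16690032))) (b (b (l 16676016) (l 16674376)) (b (a (l 16687872) (l 16688936)) (a (l 16686232) (l 16687288))))) (b (a (a (l 16687424) (l 16687984)) (a (l 16688536) (l 16689088))) (c (b (a (l 16686000) (l 16687088))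 (a (l 16684272) (l 16685352))) (b (a (l 16684128) (l 16685240)) (a (l 16682320) (l 16683424)))))) (c (b (a (b (l 16694144) (l 16692528)) (b (l 16695200) (l 16693584))) (a (b (l 16690920) (c (l 16690264) (l 16688352))) (b (l 16691968) (c (l 16691304) (l 16689408))))) (b (a (a (l 16689640) (l 16690192)) (a (l 16690752) (l 16691304))) (c (b (a (l 16688176) (l 16689256)) (a (l 16686440) (l 16687520))) (b (a (l 16686352) (l 16687464)) (a (l 16684528) (l 16685632)))))))), by decide +kernel⟩

def k93_B00pm_102_s1 : ∃ t, chk3 f_B00pm_102_s1 t 232 1022 2 = true :=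
  ⟨(a (c (b (c (a (l 16682488) (l 16683528)) (a (l 16680352) (l 16681416))) (c (a (l 16680944) (l 16681976)) (a (a (l 16678448) (l 16678976)) (a (l 16679504) (l 16680032))))) (c (b (a (l 16678216) (l 16679304)) (a (a (l 16676224) (l 16676768)) (a (l 16677304) (l 16677840)))) (a (b (a (l 16675800) (l 16676352)) (a (l 16674008) (l 16674560))) (b (a (l 16676904) (l 16677456)) (a (l 16675112) (l 16675656)))))) (c (b (c (a (l 16684560) (l 16685600)) (a (l 16682472) (l 16683528))) (c (a (l 16683008) (l 16684040)) (a (a (l 16680560) (l 16681080)) (a (l 16681608) (l 16682136))))) (c (b (a (l 16680384) (l 16681464)) (a (a (l 16678384) (l 16678920)) (a (l 16679456) (l 16679992)))) (b (a (a (l 16678008) (l 16678560)) (a (l 16679112) (l 16679664))) (a (a (l 16676208) (l 16676760)) (a (l 16677304) (l 16677856))))))), by decide +kernel⟩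

def k94_B00pm_102_s1 : ∃ t, chk3 f_B00pm_102_s1 t 464 1023 2 = true :=
  ⟨(c (b (c (a (a (l 16679128) (l 16679640)) (a (l 16680152) (l 16680664))) (a (a (l 16676824) (l 16677344)) (a (l 16677872) (l 16678400)))) (b (a (c (a (l 16677960) (l 16678472)) (a (l 16675600) (l 16676120))) (c (a (l 16678984) (l 16679496)) (a (l 16676640) (l 16677168)))) (a (c (a (l 16677192) (l 16677696)) (a (a (l 16674648) (l 16674912)) (b (l 16675504) (l 16675104)))) (c (a (l 16678208) (l 16678720)) (a (b (l 16676032) (l 16675624)) (b (l 16676552) (l 16676144))))))) (b (c (a (a (b (l 16674944) (l 16674088)) (b (l 16675480) (l 16674624))) (a (b (l 16676016) (l 16675160)) (b (l 16676552) (l 16675696)))) (a (a (b (l 16672664) (l 16671768)) (b (l 16673208) (l 16672312))) (a (b (l 16673760) (l 16672864)) (b (l 16674304) (l 16673408))))) (b (a (c (a (c (l 16673824) (l 16672640)) (c (l 16674360) (l 16673184))) (a (c (l 16671464) (l 16670280)) (c (l 16672008) (l 16670832)))) (c (a (c (l 16674888) (l 16673720)) (c (l 16675416)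 (l 16674256))) (a (c (l 16672544) (l 16671376)) (c (l 16673088) (l 16671928))))) (c (c (a (a (l 16672976) (l 16673512)) (a (l 16674040) (l 16674568))) (a (a (b (l 16671992) (l 16671560)) (b (l 16672528) (l 16672096))) (a (b (l 16673064) (l 16672632)) (b (l 16673600) (l 16673168))))) (a (a (a (c (l 16670440) (l 16669232)) (c (l 16670704) (l 16669504))) (a (c (l 16670976) (l 16669784)) (c (l 16671248) (l 16670056)))) (a (a (c (l 16671520) (l 16670328)) (c (l 16671792) (l 16670600))) (a (c (l 16672064) (l 16670872)) (c (l 16672328) (l 16671144))))))))), by decide +kernel⟩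

def k95_B00pm_102_s1 : ∃ t, chk3 f_B00pm_102_s1 t 465 1023 2 = true :=
  ⟨(c (b (c (a (a (l 16681184) (l 16681696)) (a (l 16682208) (l 16682720))) (a (a (l 16678920) (l 16679448)) (a (l 16679968) (l 16680496)))) (b (a (c (a (l 16680008) (l 16680520)) (a (l 16677688) (l 16678216))) (c (a (l 16681032) (l 16681544)) (a (l 16678736) (l 16679256)))) (a (c (a (l 16679232) (l 16679744)) (a (b (l 16677072) (l 16676664)) (b (l 16677592) (l 16677184)))) (c (a (l 16680248) (l 16680760)) (a (b (l 16678120) (l 16677704)) (b (l 16678640) (l 16678224))))))) (b (c (a (a (b (l 16677088) (l 16676232)) (b (l 16677624) (l 16676768))) (a (b (l 16678160) (l 16677296)) (b (l 16678696) (l 16677832)))) (a (a (b (l 16674856) (l 16673952)) (b (l 16675400) (l 16674496))) (a (b (l 16675952) (l 16675048)) (b (l 16676496) (l 16675592))))) (b (c (a (a (c (l 16675952) (l 16674792)) (c (l 16676480) (l 16675328))) (a (l 16673816) (l 16676968))) (a (a (c (l 16673632) (l 16672472)) (c (l 16674176) (l 16673024))) (a (c (l 16674712)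 (l 16673568)) (c (l 16675256) (l 16674112))))) (c (c (a (a (l 16675104) (l 16675632)) (a (l 16676160) (l 16676688))) (a (a (b (l 16674136) (l 16673704)) (b (l 16674672) (l 16674240))) (a (l 16674992) (l 16675528)))) (a (a (a (c (l 16672600) (l 16671424)) (c (l 16672872) (l 16671696))) (a (c (l 16673144) (l 16671968)) (c (l 16673416) (l 16672240)))) (a (a (c (l 16673680) (l 16672512)) (c (l 16673952) (l 16672784))) (a (c (l 16674224) (l 16673056)) (c (l 16674496) (l 16673328))))))))), by decide +kernel⟩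

def k96_B00pm_102_s1 : ∃ t, chk3 f_B00pm_102_s1 t 233 1022 2 = true :=
  ⟨(a (c (c (b (a (l 16686632) (l 16687664)) (a (l 16685072) (l 16686096))) (b (a (l 16684584) (l 16685640)) (a (a (l 16682664) (l 16683184)) (a (l 16683712) (l 16684232))))) (c (b (a (l 16682544) (l 16683624)) (a (a (l 16680528) (l 16681064)) (a (l 16681600) (l 16682144)))) (b (a (a (l 16680216) (l 16680768)) (a (l 16681312) (l 16681864))) (a (a (l 16678400) (l 16678952)) (a (l 16679504) (l 16680048)))))) (c (c (b (a (l 16688696) (l 16689728)) (a (l 16687120) (l 16688152))) (b (a (l 16686696) (l 16687752)) (a (a (l 16684760) (l 16685288)) (a (l 16685808) (l 16686336))))) (b (c (a (l 16684696) (l 16685776)) (a (a (l 16682416) (l 16682968)) (a (l 16683512) (l 16684064)))) (c (a (a (l 16682680) (l 16683216)) (a (l 16683744) (l 16684280))) (a (a (l 16680592) (l 16681144)) (a (l 16681688) (l 16682240))))))), by decide +kernel⟩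

def k97_B00pm_102_s1 : ∃ t, chk3 f_B00pm_102_s1 t 466 1023 2 = true :=
  ⟨(c (b (c (a (a (l 16683232) (l 16683744)) (a (l 16684256) (l 16684768))) (a (a (l 16681016) (l 16681536)) (a (l 16682064) (l 16682584)))) (b (a (c (a (l 16682056) (l 16682560)) (a (l 16679776) (l 16680296))) (c (a (l 16683072) (l 16683584)) (a (l 16680816) (l 16681344)))) (a (c (a (l 16681272) (l 16681776)) (a (b (l 16679160) (l 16678744)) (b (l 16679680) (l 16679264)))) (c (a (l 16682288) (l 16682792)) (a (b (l 16680200) (l 16679784)) (b (l 16680720) (l 16680304))))))) (b (c (a (a (b (l 16679232) (l 16678368)) (b (l 16679768) (l 16678904))) (a (l 16677248) (l 16677784))) (a (a (b (l 16677040) (l 16676136)) (b (l 16677584) (l 16676680))) (a (b (l 16678136) (l 16677224)) (b (l 16678680) (l 16677768))))) (b (c (a (a (l 16677504) (l 16678032)) (a (l 16678568) (l 16679096))) (a (a (c (l 16675800) (l 16674664)) (c (l 16676336) (l 16675208))) (a (c (l 16676880) (l 16675752)) (c (l 16677416) (l 16676304))))) (c (c (a (a (l 16677216)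 (l 16677744)) (a (l 16678272) (l 16678800))) (a (a (l 16676064) (l 16676592)) (a (l 16677128) (l 16677664)))) (a (a (a (c (l 16674760) (l 16673608)) (c (l 16675032) (l 16673880))) (a (c (l 16675304) (l 16674152)) (c (l 16675576) (l 16674424)))) (a (a (c (l 16675840) (l 16674696)) (c (l 16676112) (l 16674968))) (a (c (l 16676384) (l 16675240)) (c (l 16676648) (l 16675512))))))))), by decide +kernel⟩

def k98_B00pm_102_s1 : ∃ t, chk3 f_B00pm_102_s1 t 467 1023 2 = true :=
  ⟨(c (b (c (a (a (l 16685272) (l 16685784)) (a (l 16686296) (l 16686808))) (a (a (l 16683104) (l 16683632)) (a (l 16684152) (l 16684672)))) (b (a (c (a (l 16684088) (l 16684600)) (a (l 16681864) (l 16682384))) (c (a (l 16685112) (l 16685616)) (a (l 16682904) (l 16683424)))) (a (c (a (l 16683304) (l 16683808)) (a (l 16678408) (l 16681552))) (c (a (l 16684320) (l 16684824)) (a (l 16682072) (l 16682592)))))) (b (c (a (a (l 16680936) (l 16681472)) (a (l 16682008) (l 16682536))) (a (a (b (l 16679224) (l 16678312)) (b (l 16679768) (l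 16678856))) (a (b (l 16680312) (l 16679400)) (b (l 16680864) (l 16679944))))) (b (c (a (a (l 16679632) (l 16680160)) (a (l 16680696) (l 16681224))) (a (a (c (l 16677960) (l 16676848)) (c (l 16678496) (l 16677392))) (a (c (l 16679040) (l 16677936)) (c (l 16679576) (l 16678480))))) (c (c (a (a (l 16679328) (l 16679856)) (a (l 16680384) (l 16680912))) (a (a (l 16678192) (l 16678728)) (a (l 16679264) (l 16679792)))) (a (a (a (c (l 16676920) (l 16675784)) (c (l 16677192) (l 16676056))) (b (c (l 16677824) (l 16676696)) (c (l 16677368) (l 16676232)))) (a (b (c (l 16678360) (l 16677240)) (c (l 16677912) (l 16676776))) (b (c (l 16678896) (l 16677784)) (c (l 16678448) (l 16677320))))))))), by decide +kernel⟩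

def k99_B00pm_102_s1 : ∃ t, chk3 f_B00pm_102_s1 t 117 254 2 = true :=
  ⟨(a (a (b (c (a (l 16685840) (l 16686928)) (a (l 16683696) (l 16684840))) (c (b (l 16686808) (a (l 16698704) (l 16699768))) (b (l 16689432) (a (l 16695720) (l 16696840))))) (a (b (c (l 16688016) (l 16685984)) (c (c (l 16682216) (l 16680848)) (c (l 16689976) (l 16688632)))) (b (c (l 16689104) (l 16687120)) (c (c (l 16683272) (l 16681928)) (c (l 16691080) (l 16689768)))))) (a (a (b (c (l 16690192) (l 16688264)) (c (a (l 16683368) (l 16683896)) (c (l 16686944) (l 16690896)))) (b (c (l 16691280) (l 16689400)) (c (a (l 16684432) (l 16684968)) (c (l 16688056) (l 16692032))))) (a (b (c (l 16692368) (l 16690536)) (c (a (l 16685496) (l 16686032)) (c (l 16689160) (l 16693160)))) (b (c (l 16693440) (l 16691664)) (c (a (l 16686560) (l 16687080)) (c (l 16690248) (l 16694280))))))), by decide +kernel⟩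

def k100_B00pm_102_s1 : ∃ t, chk3 f_B00pm_102_s1 t 117 510 2 = true :=
  ⟨(a (a (c (b (a (b (l 16696256) (l 16694640)) (b (l 16697320) (l 16695696))) (a (b (l 16693016) (c (l 16692336) (l 16690464))) (a (l 16692984) (l 16693512)))) (b (a (a (l 16691856) (l 16692408)) (a (l 16692960) (l 16693512))) (b (c (a (l 16690344) (l 16691432)) (a (l 16688568) (l 16689680))) (c (a (l 16688600) (l 16689680)) (a (l 16686736) (l 16687840)))))) (c (b (b (a (l 16698376) (l 16699432)) (a (l 16696744) (l 16697800))) (a (a (l 16694032) (l 16694560)) (a (l 16695080) (l 16695600)))) (b (a (b (l 16695240) (l 16693448)) (b (l 16696352) (l 16694544))) (b (c (a (l 16692512) (l 16693600)) (a (l 16690784) (l 16691896))) (c (a (l 16690760) (l 16691840)) (a (l 16688944) (l 16690048))))))) (a (c (a (a (b (l 16699400) (l 16696120)) (b (l 16699928) (l 16696648))) (a (b (l 16700448) (l 16697168)) (b (l 16700976) (l 16697688)))) (b (b (a (l 16697456) (l 16698560)) (a (l 16695648) (l 16696744))) (b (c (a (l 16694680) (l 16695760))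 (a (l 16693000) (l 16694104))) (c (a (l 16692912) (l 16693992)) (a (l 16691152) (l 16692248)))))) (c (a (a (b (l 16701504) (l 16698208)) (b (l 16702024) (l 16698728))) (b (b (l 16703640) (l 16701984)) (a (b (l 16700056) (l 16698408)) (b (l 16700624) (a (l 16698936) (l 16699504)))))) (b (b (a (l 16699664) (l 16700752)) (a (l 16697848) (l 16698928))) (a (b (a (l 16695736) (l 16696280)) (a (l 16693912) (l 16694456))) (a (b (l 16696816) (c (l 16695848) (l 16694144))) (b (a (l 16697208) (l 16697568)) (a (l 16695552) (l 16696144))))))))), by decide +kernel⟩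

def k101_B00pm_102_s1 : ∃ t, chk3 f_B00pm_102_s1 t 234 1022 2 = true :=
  ⟨(a (c (b (c (a (l 16690752) (l 16691784)) (a (l 16688800) (l 16689856))) (a (c (l 16689176) (a (l 16686856) (l 16687376))) (c (l 16690200) (a (l 16687904) (l 16688424))))) (b (c (a (l 16686856) (l 16687928)) (a (a (l 16684616) (l 16685160)) (a (l 16685712) (l 16686264)))) (c (a (a (l 16684816) (l 16685352)) (a (l 16685888) (l 16686424))) (a (a (l 16682784) (l 16683328)) (a (l 16683880) (l 16684424)))))) (c (b (a (c (l 16692808) (l 16690904)) (a (l 16692616) (l 16693136))) (a (c (l 16691216) (a (l 16688952) (l 16689472))) (a (c (l 16691968) (l 16689992)) (l 16688872)))) (b (c (a (l 16689000) (l 16690072)) (a (a (l 16686808) (l 16687360)) (a (l 16687904) (l 16688456)))) (c (a (a (l 16686960) (l 16687488)) (a (l 16688024) (l 16688560))) (a (a (l 16684968) (l 16685512)) (a (l 16686056) (l 16686608))))))), by decide +kernel⟩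

def k102_B00pm_102_s1 : ∃ t, chk3 f_B00pm_102_s1 t 468 1023 2 = true :=
  ⟨(c (b (a (c (a (l 16687320) (l 16687824)) (a (l 16685192) (l 16685712))) (c (a (l 16688336) (l 16688848)) (a (l 16686232) (l 16686752)))) (b (a (c (a (l 16686128) (l 16686632)) (a (l 16683936) (l 16684456))) (c (a (l 16687144) (l 16687648)) (a (l 16684976) (l 16685496)))) (a (c (a (l 16685336) (l 16685840)) (a (l 16683104) (l 16683624))) (c (a (l 16686344) (l 16686856)) (a (l 16684144) (l 16684664)))))) (b (a (c (a (l 16683072) (l 16683600)) (a (b (l 16681408) (l 16680488)) (b (l 16681952) (l 16681032)))) (c (a (l 16684136) (l 16684664)) (a (b (l 16682496) (l 16681576)) (b (l 16683040) (l 16682120))))) (b (a (c (a (l 16681752) (l 16682288)) (a (c (l 16680120) (l 16679024)) (c (l 16680656) (l 16679568)))) (c (a (l 16682816) (l 16683344)) (a (c (l 16681192) (l 16680112)) (c (l 16681736) (l 16680664))))) (a (c (a (a (l 16680744) (l 16681008)) (a (l 16681272) (l 16681536))) (c (a (b (l 16679440) (l 16678984)) (l 16679752))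 (a (b (l 16678328) (l 16677864)) (b (l 16678872) (l 16678408))))) (c (a (a (l 16681800) (l 16682064)) (a (l 16682328) (l 16682592))) (c (a (l 16680288) (l 16680824)) (a (b (l 16679416) (l 16678952)) (b (l 16679960) (l 16679496))))))))), by decide +kernel⟩

def k103_B00pm_102_s1 : ∃ t, chk3 f_B00pm_102_s1 t 469 1023 2 = true :=
  ⟨(c (a (b (a (c (l 16689352) (l 16687272)) (c (l 16689864) (l 16687792))) (a (c (b (l 16688152) (l 16687360)) (b (l 16686016) (l 16685176))) (c (b (l 16688664) (l 16687864)) (b (l 16686536) (l 16685696))))) (b (a (c (l 16690368) (l 16688312)) (c (l 16690880) (l 16688832))) (a (c (l 16686152) (b (l 16687048) (l 16686216))) (c (l 16689280) (b (l 16687568) (l 16686728)))))) (b (a (c (a (l 16685200) (l 16685728)) (a (b (l 16683584) (l 16682664)) (b (l 16684128) (l 16683200)))) (a (c (l 16686264) (b (l 16684672) (l 16683744))) (c (l 16686792) (b (l 16685216) (l 16684288))))) (b (c (a (a (l 16683880) (l 16684408)) (a (l 16684936) (l 16685464))) (a (a (c (l 16682272) (l 16681208))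 (c (l 16682808) (l 16681752))) (a (c (l 16683352) (l 16682288)) (c (l 16683888) (l 16682832))))) (c (c (a (a (l 16683544) (l 16684064)) (a (l 16684592) (l 16685120))) (a (a (l 16682456) (l 16682984)) (a (l 16683512) (l 16684048)))) (c (a (a (l 16681360) (l 16681896)) (a (l 16682432) (l 16682968))) (a (a (b (l 16680504) (l 16680040)) (b (l 16681048) (l 16680576))) (a (b (l 16681592) (l 16681120)) (b (l 16682128) (l 16681664))))))))), by decide +kernel⟩

def k104_B00pm_102_s1 : ∃ t, chk3 f_B00pm_102_s1 t 470 511 2 = true :=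
  ⟨(c (a (b (b (a (l 16693656) (l 16694168)) (a (l 16689392) (l 16692528))) (b (a (c (l 16691384) (l 16689352)) (c (l 16691896) (l 16689872))) (a (c (l 16689784) (b (l 16688088) (l 16687248))) (c (l 16690296) (b (l 16688608) (l 16687760)))))) (b (b (a (l 16694688) (l 16695208)) (a (l 16693040) (l 16693560))) (b (a (c (l 16692400) (l 16690392)) (c (l 16692912) (l 16690912))) (a (c (l 16690800) (b (l 16689120) (l 16688280))) (c (l 16691304) (b (l 16689640) (l 16688792))))))) (b (a (b (c (l 16691144) (a (l 16689000) (l 16689552))) (a (c (l 16689096) (l 16687152)) (c (l 16689624) (l 16687696)))) (b (a (l 16688392) (l 16691552)) (a (c (l 16690160) (l 16688240)) (c (l 16690696) (l 16688784))))) (b (a (a (c (l 16687328) (b (l 16685752) (l 16684832))) (c (l 16687856) (b (l 16686296) (l 16685368)))) (a (c (l 16688384) (b (l 16686840) (l 16685912))) (c (l 16688920) (b (l 16687384) (l 16686456))))) (b (c (a (a (l 16685992) (l 16686520)) (a (l 16687048) (l 16687584))) (a (a (c (l 16684424) (l 16683376)) (c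 (l 16684960) (l 16683920))) (a (c (l 16685496) (l 16684464)) (c (l 16686040) (l 16685008))))) (c (a (a (b (l 16685328) (l 16684888)) (b (l 16685856) (l 16685416))) (a (b (l 16686384) (l 16685944)) (b (l 16686912) (l 16686472)))) (c (a (a (l 16683512) (l 16684048)) (a (l 16684584) (l 16685120))) (a (a (b (l 16682672) (l 16682208)) (b (l 16683216) (l 16682744))) (a (b (l 16683760) (l 16683288)) (b (l 16684296) (l 16683832)))))))))), by decide +kernel⟩

def k105_B00pm_102_s1 : ∃ t, chk3 f_B00pm_102_s1 t 471 511 2 = true :=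
  ⟨(b (c (b (a (a (l 16695728) (l 16696240)) (a (a (l 16696656) (l 16697112)) (l 16698056))) (a (a (l 16694072) (a (l 16694448) (b (l 16695128) (l 16694416)))) (a (b (l 16695920) (l 16695360)) (l 16696952)))) (b (a (a (l 16689472) (l 16692632)) (a (a (b (l 16693480) (l 16692632)) (b (l 16693880) (l 16693200))) (l 16694544))) (a (a (c (l 16691224) (l 16689328)) (a (c (l 16691608) (l 16689720)) (b (l 16691408) (c (l 16691560) (l 16689664))))) (a (b (c (l 16693160) (l 16691320)) (l 16691600)) (l 16693296))))) (a (c (b (b (a (l 16692832) (a (c (l 16694248) (l 16692288)) (l 16693816))) (a (c (l 16693016) (l 16691008)) (c (l 16693936) (l 16691952)))) (a (a (b (c (l 16692072) (l 16690024)) (c (l 16691328) (a (l 16689112) (l 16689320)))) (b (c (l 16692456) (l 16690408)) (l 16688208))) (c (l 16693136) (l 16691096)))) (b (c (a (b (l 16689888) (a (l 16688856) (l 16689136))) (a (b (l 16690336) (l 16689624)) (l 16690600))) (a (b (l 16687928) (a (l 16686856) (l 16687136))) (a (b (l 16688384) (l 16687632)) (l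 16688648)))) (c (a (a (b (l 16687968) (a (l 16687016) (b (l 16687400) (l 16687048)))) (b (a (l 16688216) (l 16688488)) (l 16687712))) (l 16689064)) (a (a (b (l 16685920) (a (c (l 16685448) (l 16684400)) (b (l 16685320) (l 16684944)))) (b (a (b (l 16686360) (l 16685960)) (l 16686456)) (l 16685640))) (l 16687024))))) (c (c (l 16695632) (l 16693680)) (c (b (l 16692328) (l 16691136)) (b (l 16690416) (l 16683904)))))), by decide +kernel⟩

def k106_B00pm_102_s1 : ∃ t, chk3 f_B00pm_102_s1 t 58 62 3 = true :=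
  ⟨(b (a (b (a (a (l 16699304) (l 16702280)) (a (l 16705256) (l 16750184))) (a (a (l 16725688) (l 16728568)) (c (l 16730760) (l 16756328)))) (a (b (c (l 16751656) (l 16757936)) (a (l 16737224) (l 16761088))) (b (c (l 16757480) (l 16785040)) (a (l 16763976) (c (l 16785248) (l 16790480)))))) (a (a (b (a (c (l 16750576) (l 16753440)) (c (l 16753312) (l 16756304))) (a (b (l 16740120) (l 16732224)) (b (l 16742840) (l 16713936)))) (b (a (c (l 16756040) (l 16759160)) (c (l 16758768) (l 16762016))) (a (b (l 16745568) (l 16716608)) (b (l 16748288) (l 16719288))))) (b (a (a (c (l 16761488) (l 16764880)) (c (l 16764216) (l 16767736))) (a (c (l 16766944) (l 16770600)) (c (l 16769664) (l 16731512)))) (b (a (a (l 16751008) (l 16753728)) (a (l 16756448) (l 16759168))) (a (a (l 16721960) (l 16724640)) (a (l 16727312) (l 16729976))))))), by decide +kernel⟩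

def k107_B00pm_102_s1 : ∃ t, chk3 f_B00pm_102_s1 t 58 126 3 = true :=
  ⟨(a (b (a (a (b (c (l 16724128) (l 16724544)) (c (l 16716544) (l 16716264))) (b (c (l 16726704) (l 16727240)) (c (l 16719072) (l 16718912)))) (a (b (c (l 16729272) (l 16729928)) (c (l 16721600) (l 16721552))) (b (c (l 16731840) (l 16732616)) (c (l 16724128) (l 16724192))))) (a (a (c (b (l 16708944) (l 16701328)) (l 22)) (b (c (l 16711432) (l 16710568)) (c (l 16703776) (b (l 16704248) (l 16700064))))) (a (b (c (l 16713912) (l 16713160)) (c (l 16695728) (b (l 16706808) (l 16702600)))) (b (c (l 16716400) (l 16715752)) (c (l 16698168) (b (l 16709368) (l 16705128))))))) (b (a (a (b (c (l 16734408) (l 16735312)) (c (l 16726656) (l 16726840))) (b (c (l 16736976) (l 16738000)) (c (l 16729176) (l 16729480)))) (a (b (c (l 16739544) (l 16740688)) (c (l 16731696) (l 16732120))) (b (c (l 16742104) (l 16743368)) (c (l 16734216) (l 16734752))))) (a (a (b (c (l 16718880) (l 16718352)) (c (l 16700600) (b (l 16711920) (l 16686688)))) (b (c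 (l 16721360) (l 16720944)) (c (l 16703040) (b (l 16714472) (l 16689224))))) (a (b (c (l 16702864) (l 16723536)) (c (l 16705472) (b (l 16696056) (l 16691752)))) (b (c (l 16705336) (l 16726120)) (c (a (l 16696728) (l 16697928)) (b (l 16698608) (l 16694272)))))))), by decide +kernel⟩

def k108_B00pm_102_s1 : ∃ t, chk3 f_B00pm_102_s1 t 116 254 3 = true :=
  ⟨(a (b (a (c (b (l 16674592) (l 16681256)) (l 22)) (c (b (l 16677000) (l 16683640)) (b (l 16695872) (l 16686440)))) (a (c (b (c (l 16667680) (l 16666216)) (a (l 16672960) (l 16674136))) (l 22)) (a (c (b (l 16689640) (l 16675304)) (l 22)) (c (b (l 16690816) (l 16676472)) (b (l 16667072) (l 16673344)))))) (b (a (a (c (l 16676856) (l 16695632)) (c (l 16678048) (l 16696880))) (a (c (l 16679248) (l 16698128)) (c (l 16680440) (l 16699376)))) (a (c (b (c (l 16672360) (l 16670992)) (a (l 16677640) (l 16678808))) (c (a (l 16677432) (l 16678640)) (l 22))) (c (b (c (l 16674688) (l 16683864)) (a (l 16679976) (l 16681144))) (c (a (l 16679856) (l 16681064)) (l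 22)))))), by decide +kernel⟩

def k109_B00pm_102_s1 : ∃ t, chk3 f_B00pm_102_s1 t 116 510 3 = true :=
  ⟨(a (a (c (b (a (a (l 16668824) (l 16669408)) (a (l 16669984) (l 16670568))) (a (c (l 16666304) (b (l 16675760) (l 16663320))) (c (l 16667440) (b (l 16676928) (l 16664472))))) (l 22)) (a (c (b (a (l 16671144) (l 16671728)) (c (l 16668576) (b (l 16678088) (l 16665632)))) (l 22)) (c (b (a (l 16672304) (l 16672880)) (c (l 16669712) (b (l 16679248) (l 16666792)))) (c (b (l 16670000) (a (l 16665560) (l 16666152))) (l 22))))) (a (c (b (a (a (l 16673464) (l 16674040)) (a (l 16674616) (l 16675192))) (a (c (l 16670848) (b (l 16680408) (l 16667944))) (c (l 16671984) (b (l 16681568) (l 16669096))))) (c (b (a (l 16671192) (l 16672392)) (a (a (l 16666744) (l 16667328)) (a (l 16667920) (l 16668512)))) (l 22))) (c (b (a (a (l 16675776) (l 16676352)) (a (l 16676928) (l 16677504))) (a (c (l 16673112) (b (l 16682728) (l 16670248))) (c (l 16674248) (b (l 16683888) (l 16671400))))) (c (b (a (l 16673584) (l 16674768))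 (a (a (l 16669104) (l 16669688)) (a (l 16670280) (l 16670872)))) (l 22))))), by decide +kernel⟩

def k110_B00pm_102_s1 : ∃ t, chk3 f_B00pm_102_s1 t 232 1022 3 = true :=
  ⟨(c (a (a (c (b (l 16663480) (a (l 16671792) (l 16672352))) (a (c (l 16660624) (l 22)) (b (l 16672120) (b (l 16670640) (l 16669664))))) (c (b (l 16664608) (a (l 16672920) (l 16673480))) (c (a (l 16661768) (l 16662344)) (b (l 16661984) (a (l 16670184) (l 16670760)))))) (a (a (c (c (l 16665040) (l 16663976)) (b (l 16673840) (b (l 16672360) (l 16671376)))) (c (c (l 16665592) (l 16664536)) (b (l 16674416) (b (l 16672936) (l 16671944))))) (a (c (c (l 16666152) (l 16665104)) (b (l 16674992) (b (l 16673504) (l 16672520)))) (c (b (l 16677616) (l 16675720)) (b (l 16675568) (b (l 16674080) (l 16673088))))))) (a (l 22) (a (l 22) (c (a (a (l 22) (l 16666816)) (a (l 16667104) (l 16667400))) (l 22))))), by decide +kernel⟩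

def k111_B00pm_102_s1 : ∃ t, chk3 f_B00pm_102_s1 t 464 2046 6 = true :=
  ⟨(a (c (a (b (l 16670384) (c (l 16670024) (l 16668864))) (b (l 16670944) (c (l 16670584) (l 16669424)))) (a (c (a (l 16668048) (l 16668336)) (l 22)) (b (c (l 16669248) (l 16668112)) (c (l 16668272) (l 16667120))))) (c (a (b (l 16671504) (c (l 16671136) (l 16669992))) (b (l 16672064) (c (l 16671696) (l 16670552)))) (a (b (c (l 16669816) (l 16668688)) (c (l 16668840) (l 16667696))) (b (c (l 16670384) (l 16669264)) (c (l 16669408) (l 16668264)))))), by decide +kernel⟩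

def k112_B00pm_102_s1 : ∃ t, chk3 f_B00pm_102_s1 t 464 4094 6 = true :=
  ⟨(a (a (c (c (b (l 16669328) (l 16668864)) (b (l 16668152) (l 16667680))) (c (a (l 16666592) (l 16666872)) (l 22))) (c (c (b (l 16669880) (l 16669416)) (b (l 16668712) (l 16668240))) (c (a (l 16667160) (l 16667440)) (a (l 22) (l 16666264))))) (a (c (c (b (l 16670440) (l 16669976)) (a (l 16668896) (l 16669176))) (c (a (l 16667720) (l 16668008)) (a (l 16666552) (l 16666840)))) (c (c (l 16670760) (a (l 16669456) (l 16669736))) (c (a (l 16668288) (l 16668568)) (a (l 16667120) (l 16667408)))))), by decide +kernel⟩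

def k113_B00pm_102_s1 : ∃ t, chk3 f_B00pm_102_s1 t 464 4095 6 = true :=
  ⟨(a (b (c (a (c (a (l 16668264) (l 16668536)) (a (l 16667064) (l 16667344))) (c (a (l 16668816) (l 16669088)) (a (l 16667624) (l 16667904)))) (c (a (a (l 16665864) (l 16666144)) (a (l 16666432) (l 16666712))) (a (l 22) (a (l 22) (c (l 16665816) (l 22)))))) (c (a (c (a (l 16667800) (l 16668072)) (a (a (l 16666520) (l 16666656)) (a (l 16666800) (l 16666936)))) (c (a (l 16668352) (l 16668624)) (a (a (l 16667072) (l 16667216)) (b (l 16667544) (l 16667304))))) (a (c (c (a (l 16665680) (l 16665960)) (a (b (l 16665200) (l 16664952)) (b (l 16665480) (l 16665240)))) (l 22)) (c (a (b (l 16666064) (c (l 16666120) (l 16665520))) (b (l 16666344) (c (l 16666408) (l 16665800)))) (a (l 22) (c (a (l 16665256) (l 16665392)) (l 22))))))) (b (c (a (c (a (l 16669368) (l 16669640)) (a (l 16668176) (l 16668456))) (c (a (l 16669920) (l 16670192)) (a (l 16668736) (l 16669016)))) (c (a (a (l 16666992) (l 16667272)) (a (l 16667560) (l 16667840)))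 (c (a (a (l 16666104) (l 16666384)) (a (l 16666672) (l 16666952))) (l 22)))) (c (a (c (a (l 16668904) (l 16669176)) (a (b (l 16667824) (l 16667584)) (b (l 16668104) (l 16667864)))) (c (a (l 16669456) (l 16669728)) (a (b (l 16668384) (l 16668144)) (b (l 16668656) (l 16668424))))) (b (a (c (a (l 16666632) (l 16666912)) (c (a (l 16665736) (l 16666016)) (l 22))) (c (a (l 16667192) (l 16667472)) (c (a (l 16666296) (l 16666584)) (l 22)))) (a (c (a (c (l 16666688) (l 16666088)) (c (l 16666968) (l 16666368))) (c (a (l 16665488) (l 16665768)) (l 22))) (c (a (c (l 16667248) (l 16666648)) (c (l 16667528) (l 16666928))) (c (a (l 16666056) (l 16666336)) (l 22)))))))), by decide +kernel⟩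

def k114_B00pm_102_s1 : ∃ t, chk3 f_B00pm_102_s1 t 465 2046 6 = true :=
  ⟨(a (c (b (a (l 16672624) (l 16673176)) (a (c (l 16672248) (l 16671112)) (c (l 16672800) (l 16671672)))) (a (b (c (l 16670952) (l 16669832)) (c (l 16669976) (l 16668840))) (b (c (l 16671512) (l 16670408)) (c (l 16670536) (l 16669408))))) (c (a (b (l 16673736) (c (l 16673352) (l 16672232))) (b (l 16674296) (c (l 16673912) (l 16672792)))) (a (b (c (l 16672080) (l 16670976)) (c (l 16671104) (l 16669976))) (b (l 16669480) (c (l 16671672) (l 16670552)))))), by decide +kernel⟩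

def k115_B00pm_102_s1 : ∃ t, chk3 f_B00pm_102_s1 t 465 4094 6 = true :=
  ⟨(a (a (c (c (l 16671312) (a (l 16670016) (l 16670288))) (c (a (l 16668856) (l 16669136)) (a (l 16667696) (l 16667976)))) (c (c (l 16671864) (a (l 16670568) (l 16670848))) (c (a (l 16669416) (l 16669696)) (a (l 16668264) (l 16668552))))) (a (c (c (l 16672424) (a (l 16671128) (l 16671408))) (c (a (l 16669984) (l 16670264)) (a (l 16668832) (l 16669120)))) (c (c (l 16672976) (a (l 16671688) (l 16671968))) (c (a (l 16670544) (l 16670824)) (a (l 16669400) (l 16669688)))))), by decide +kernel⟩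

def k116_B00pm_102_s1 : ∃ t, chk3 f_B00pm_102_s1 t 930 4095 6 = true :=
  ⟨(b (c (a (c (a (l 16670472) (l 16670744)) (a (l 16669296) (l 16669576))) (c (a (l 16671024) (l 16671296)) (a (l 16669856) (l 16670136)))) (c (a (a (l 16668120) (l 16668400)) (a (l 16668680) (l 16668968))) (a (a (l 16666944) (l 16667232)) (a (l 16667512) (l 16667800))))) (c (a (c (a (l 16670008) (l 16670280)) (a (b (l 16668936) (l 16668696)) (b (l 16669216) (l 16668976)))) (c (a (l 16670560) (l 16670832)) (a (l 16669376) (l 16669656)))) (b (a (c (a (l 16667752) (l 16668032)) (a (c (l 16666864) (l 16666272)) (c (l 16667152) (l 16666560)))) (c (a (l 16668320) (l 16668600)) (a (c (l 16667432) (l 16666848)) (c (l 16667720) (l 16667128))))) (a (c (a (c (l 16667808) (l 16667216)) (c (l 16668088) (l 16667496))) (c (a (l 16666616) (l 16666904)) (c (a (l 16666176) (l 16666456)) (l 22)))) (c (a (c (l 16668368) (l 16667776)) (c (l 16668648) (l 16668056))) (a (c (l 16667184) (b (l 16666656) (l 16666528))) (c (l 16667472) (l 16666880)))))))),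 by decide +kernel⟩

def k117_B00pm_102_s1 : ∃ t, chk3 f_B00pm_102_s1 t 931 4095 6 = true :=
  ⟨(c (a (c (b (l 16671720) (a (l 16671112) (l 16671384))) (b (a (l 16670408) (l 16670688)) (a (l 16669936) (l 16670208)))) (a (c (l 16671896) (b (l 16670968) (l 16670488))) (c (l 16672168) (b (l 16671248) (l 16670768))))) (b (c (a (a (l 16669248) (l 16669528)) (a (l 16669808) (l 16670088))) (a (a (l 16668080) (l 16668368)) (a (l 16668648) (l 16668936)))) (b (a (c (a (l 16668880) (l 16669160)) (a (c (l 16668000) (l 16667416)) (c (l 16668280) (l 16667696)))) (c (a (l 16669440) (l 16669720)) (a (c (l 16668568) (l 16667984)) (l 16668560)))) (a (c (a (c (l 16668928) (l 16668344)) (c (l 16669208) (l 16668624))) (a (c (l 16667752) (l 16667160)) (c (l 16668032) (l 16667448)))) (c (a (c (l 16669488) (l 16668904)) (c (l 16669768) (l 16669184))) (a (c (l 16668320) (l 16667728)) (c (l 16668600) (l 16668016)))))))), by decide +kernel⟩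

def k118_B00pm_102_s1 : ∃ t, chk3 f_B00pm_102_s1 t 232 1023 7 = true :=
  ⟨(a (l 22) (b (c (c (a (l 22) (b (a (l 16669880) (l 16670456)) (a (l 16668856) (l 16669432)))) (l 22)) (l 22)) (b (c (c (c (a (l 22) (b (a (l 16668376) (l 16668944)) (a (l 16667864) (l 16668440)))) (l 22)) (l 22)) (l 22)) (c (c (c (a (l 22) (a (a (l 22) (b (l 16667496) (a (l 16666912) (l 16667056)))) (b (a (l 16667784) (l 16668072)) (a (a (l 16667200) (l 16667344)) (a (l 16667488) (l 16667632)))))) (l 22)) (l 22)) (l 22))))), by decide +kernel⟩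

def k119_B00pm_102_s1 : ∃ t, chk3 f_B00pm_102_s1 t 233 1022 3 = true :=
  ⟨(c (a (b (a (c (l 16667992) (c (l 16666464) (l 16665456))) (a (c (l 16679304) (l 16677288)) (c (l 16679864) (l 16677864)))) (a (c (a (l 16676280) (l 16676840)) (a (b (l 16674648) (l 16673664)) (l 16664248))) (c (a (l 16677400) (l 16677960)) (a (l 16664816) (l 16665384))))) (a (c (a (b (l 16680424) (l 16678520)) (b (l 16680984) (l 16679080))) (b (c (l 16668752) (l 16667760)) (a (l 16665960) (l 16666528)))) (c (a (b (l 16681544) (l 16679632)) (b (l 16682112) (l 16680192))) (b (c (l 16669888) (l 16668912)) (a (l 16667096) (l 16667672)))))) (c (a (a (c (b (l 16664440) (a (l 16672576) (l 16673152))) (l 22)) (c (b (l 16665608) (a (l 16673728) (l 16674312))) (a (l 22) (l 16669088)))) (a (c (b (l 16666776) (a (l 16674888) (l 16675472))) (a (l 16669680) (l 16670264))) (b (b (l 16667968) (l 16666920)) (a (b (l 16676056) (l 16675008)) (b (l 16676640) (l 16675592)))))) (l 22))), by decide +kernel⟩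

def k120_B00pm_102_s1 : ∃ t, chk3 f_B00pm_102_s1 t 466 2046 6 = true :=
  ⟨(a (c (a (b (l 16674856) (c (l 16674464) (l 16673352))) (b (l 16675408) (c (l 16675016) (l 16673904)))) (a (b (l 16672672) (c (l 16672232) (l 16671120))) (b (l 16673240) (c (l 16672800) (l 16671688))))) (c (a (b (l 16675968) (c (l 16675568) (l 16674464))) (b (l 16676528) (c (l 16676120) (l 16675024)))) (a (b (l 16673808) (c (l 16673368) (l 16672264))) (b (l 16674376) (c (l 16673928) (l 16672832)))))), by decide +kernel⟩

def k121_B00pm_102_s1 : ∃ t, chk3 f_B00pm_102_s1 t 466 4094 6 = true :=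
  ⟨(c (a (a (c (l 16673528) (a (l 16672248) (l 16672528))) (c (l 16674080) (a (l 16672800) (l 16673080)))) (a (c (l 16674632) (a (l 16673360) (l 16673640))) (c (l 16675184) (a (l 16673920) (l 16674200))))) (a (a (c (a (l 16671112) (l 16671392)) (a (l 16669968) (l 16670256))) (c (a (l 16671672) (l 16671952)) (a (l 16670544) (l 16670824)))) (a (c (a (l 16672232) (l 16672520)) (a (l 16671112) (l 16671392))) (c (a (l 16672800) (l 16673080)) (a (l 16671680) (l 16671960)))))), by decide +kernel⟩

def k122_B00pm_102_s1 : ∃ t, chk3 f_B00pm_102_s1 t 466 4095 6 = true :=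
  ⟨(c (a (a (a (c (l 16672448) (b (l 16671528) (l 16671048))) (c (l 16672720) (b (l 16671800) (l 16671320)))) (a (c (l 16673000) (b (l 16672080) (l 16671600))) (c (l 16673272) (b (l 16672360) (l 16671880))))) (a (a (c (l 16673544) (b (l 16672640) (l 16672160))) (c (l 16673824) (b (l 16672920) (l 16672432)))) (a (c (l 16674096) (b (l 16673192) (l 16672712))) (c (l 16674368) (b (l 16673472) (l 16672992)))))) (a (b (c (a (a (l 16670376) (l 16670656)) (a (l 16670936) (l 16671216))) (a (a (l 16669216) (l 16669504)) (a (l 16669784) (l 16670072)))) (b (a (c (a (l 16670000) (l 16670288)) (a (l 16668840) (l 16669128))) (c (a (l 16670568) (l 16670848)) (a (l 16669408) (l 16669696)))) (a (c (a (c (l 16670048) (l 16669464)) (l 16670040)) (a (c (l 16668880) (l 16668304)) (c (l 16669168) (l 16668584)))) (c (a (l 16670320) (l 16670600)) (a (c (l 16669448) (l 16668872)) (c (l 16669728) (l 16669152))))))) (b (a (c (a (l 16671496) (l 16671776)) (a (l 16670352) (l 16670640))) (c (a (l 16672056) (l 16672336)) (a (l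 16670920) (l 16671208)))) (b (a (c (a (l 16671128) (l 16671408)) (a (l 16669976) (l 16670264))) (c (a (l 16671688) (l 16671968)) (a (l 16670544) (l 16670824)))) (a (c (a (l 16670880) (l 16671160)) (a (c (l 16670016) (l 16669440)) (c (l 16670296) (l 16669720)))) (c (a (l 16671440) (l 16671720)) (a (c (l 16670576) (l 16670008)) (c (l 16670864) (l 16670288))))))))), by decide +kernel⟩

def k123_B00pm_102_s1 : ∃ t, chk3 f_B00pm_102_s1 t 467 2046 6 = true :=
  ⟨(a (c (a (b (l 16677080) (c (l 16676672) (l 16675584))) (b (l 16677640) (c (l 16677232) (l 16676144)))) (a (b (l 16674944) (c (l 16674496) (l 16673400))) (b (l 16675512) (c (l 16675056) (l 16673968))))) (c (a (b (l 16678200) (c (l 16677784) (l 16676696))) (a (l 16675512) (l 16675792))) (a (b (l 16676080) (c (l 16675616) (l 16674544))) (b (l 16676648) (c (l 16676184) (l 16675112)))))), by decide +kernel⟩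

def k124_B00pm_102_s1 : ∃ t, chk3 f_B00pm_102_s1 t 467 2047 6 = true :=
  ⟨(b (c (a (a (c (l 16675736) (a (l 16674472) (l 16674752))) (c (l 16676280) (a (l 16675032) (l 16675312)))) (a (c (l 16676832) (l 16675736)) (c (l 16677384) (l 16676288)))) (c (a (a (a (l 16673360) (l 16673640)) (a (l 16673920) (l 16674208))) (a (a (l 16674488) (l 16674768)) (a (l 16675048) (l 16675328)))) (a (a (a (l 16672248) (l 16672528)) (a (l 16672816) (l 16673096))) (a (a (l 16673384) (l 16673664)) (a (l 16673952) (l 16674232)))))) (c (a (a (a (c (l 16674648) (b (l 16673752) (l 16673272))) (c (l 16674920) (b (l 16674032) (l 16673544)))) (a (c (l 16675200) (b (l 16674304) (l 16673824))) (c (l 16675472) (b (l 16674584) (l 16674104))))) (a (a (c (l 16675744) (b (l 16674864) (l 16674376))) (c (l 16676024) (l 16674896))) (a (c (l 16676296) (l 16675176)) (c (l 16676568) (l 16675456))))) (a (b (a (c (a (l 16672616) (l 16672904)) (a (l 16671488) (l 16671776))) (c (a (l 16673184) (l 16673464)) (a (l 16672056) (l 16672336))))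 (a (c (a (b (l 16672248) (l 16672000)) (l 16672408)) (a (a (l 16670912) (l 16671056)) (a (l 16671200) (l 16671336)))) (c (a (l 16672688) (l 16672968)) (a (a (l 16671480) (l 16671624)) (a (l 16671760) (l 16671904)))))) (a (c (b (a (l 16673744) (l 16674024)) (a (l 16673248) (l 16673528))) (b (a (l 16672624) (l 16672904)) (a (a (l 16672048) (l 16672184)) (a (l 16672328) (l 16672472))))) (c (b (a (l 16674304) (l 16674584)) (a (l 16673808) (l 16674088))) (b (a (l 16673192) (l 16673472)) (a (a (l 16672608) (l 16672752)) (b (l 16673088) (l 16672840))))))))), by decide +kernel⟩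

def k125_B00pm_102_s1 : ∃ t, chk3 f_B00pm_102_s1 t 466 1023 7 = true :=
  ⟨(b (c (c (a (b (a (l 16671032) (l 16671608)) (a (l 16670008) (l 16670584))) (b (a (l 16672184) (l 16672768)) (a (l 16671160) (l 16671736)))) (a (l 22) (a (l 22) (a (l 22) (l 16671312))))) (l 22)) (b (c (c (a (a (a (l 16668832) (l 16669120)) (a (l 16669408) (l 16669696))) (a (a (l 16669984) (l 16670272)) (a (l 16670560) (l 16670848)))) (a (l 22) (a (l 22) (a (l 22) (a (l 22) (l 16669800)))))) (l 22)) (c (a (c (c (b (a (a (l 16668352) (l 16668640)) (a (l 16668928) (l 16669216))) (b (a (a (l 16667968) (l 16668256)) (a (l 16668544) (l 16668832))) (a (a (b (l 16667784) (l 16667656)) (b (l 16668064) (l 16667936))) (a (l 16668288) (l 16668576))))) (c (a (l 22) (a (a (l 22) (l 16668312)) (a (l 16668456) (l 16668600)))) (l 22))) (l 22)) (b (c (a (a (c (l 16669496) (l 16668928)) (c (l 16669784) (l 16669216))) (a (l 16669784) (l 16670072))) (a (l 22) (a (l 22) (c (l 16669224) (l 22))))) (a (c (a (a (c (l 16668912) (l 16668336)) (c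 (l 16669056) (l 16668480))) (a (c (l 16669200) (l 16668624)) (c (l 16669344) (l 16668768)))) (l 22)) (c (a (a (c (l 16669488) (l 16668912)) (c (l 16669632) (l 16669056))) (a (c (l 16669768) (l 16669200)) (c (l 16669912) (l 16669344)))) (c (a (l 22) (a (l 22) (l 16668768))) (l 22)))))) (l 22)))), by decide +kernel⟩

def k126_B00pm_102_s1 : ∃ t, chk3 f_B00pm_102_s1 t 467 2046 7 = true :=
  ⟨(c (a (a (a (c (l 16672680) (l 16671600)) (c (l 16672968) (l 16671888))) (a (c (l 16673256) (l 16672184)) (c (l 16673544) (l 16672472)))) (a (a (c (l 16673832) (l 16672760)) (c (l 16674120) (l 16673056))) (a (c (l 16674408) (l 16673344)) (c (l 16674696) (l 16673632))))) (l 22)), by decide +kernel⟩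

def k127_B00pm_102_s1 : ∃ t, chk3 f_B00pm_102_s1 t 467 4094 7 = true :=
  ⟨(c (a (a (c (a (l 16671136) (l 16671416)) (c (a (l 16670296) (l 16670584)) (l 22))) (c (a (l 16671704) (l 16671992)) (a (l 16670600) (l 16670888)))) (a (c (a (l 16672280) (l 16672568)) (a (l 16671176) (l 16671464))) (c (a (l 16672856) (l 16673136)) (a (l 16671752) (l 16672048))))) (l 22)), by decide +kernel⟩

def k128_B00pm_102_s1 : ∃ t, chk3 f_B00pm_102_s1 t 467 4095 7 = true :=
  ⟨(a (c (b (c (a (a (l 16670360) (l 16670648)) (a (l 16670928) (l 16671216))) (c (a (a (l 16669512) (l 16669800)) (a (l 16670088) (l 16670376))) (l 22))) (c (b (a (a (c (l 16670256) (l 16669688)) (c (l 16670544) (l 16669976))) (a (c (l 16670824) (l 16670264)) (c (l 16671112) (l 16670544)))) (a (a (c (l 16670000) (b (l 16669496) (l 16669360))) (c (l 16670288) (l 16669712))) (a (c (l 16670568) (l 16670000)) (c (l 16670856) (l 16670288))))) (c (c (b (a (a (l 16669256) (l 16669544)) (a (l 16669832) (l 16670120))) (a (a (l 16669000) (l 16669288)) (a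 (l 16669576) (l 16669864)))) (a (l 22) (a (a (l 16669344) (l 16669488)) (a (l 16669640) (l 16669784))))) (l 22)))) (l 22)) (c (b (c (a (a (l 16671504) (l 16671792)) (a (l 16672072) (l 16672360))) (a (a (c (l 16670664) (l 16670104)) (c (l 16670952) (l 16670392))) (a (c (l 16671240) (l 16670680)) (c (l 16671528) (l 16670976))))) (c (b (a (a (c (l 16671400) (l 16670832)) (l 16671400)) (a (l 16671688) (l 16671976))) (a (a (c (l 16671144) (l 16670576)) (c (l 16671424) (l 16670864))) (a (c (l 16671712) (l 16671144)) (c (l 16671992) (l 16671432))))) (b (a (a (c (l 16670272) (l 16669704)) (c (l 16670560) (l 16669992))) (a (c (l 16670848) (l 16670288)) (c (l 16671136) (l 16670576)))) (a (a (a (c (l 16669936) (l 22)) (c (l 16670080) (l 16669512))) (a (c (l 16670224) (l 16669656)) (c (l 16670368) (l 16669800)))) (a (a (c (l 16670512) (l 16669944)) (c (l 16670656) (l 16670088))) (a (c (l 16670800) (l 16670232)) (c (l 16670944) (l 16670376)))))))) (l 22))), by decide +kernel⟩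

def k129_B00pm_102_s1 : ∃ t, chk3 f_B00pm_102_s1 t 117 254 3 = true :=
  ⟨(a (a (a (b (c (l 16681632) (l 16700616)) (c (b (l 16696704) (l 16682312)) (b (l 16673216) (l 16679432)))) (b (c (l 16682832) (l 16701864)) (c (b (l 16697880) (l 16683472)) (b (l 16674440) (l 16680648))))) (a (b (c (l 16684024) (l 16692624)) (c (b (l 16699056) (l 16684640)) (b (l 16675664) (l 16681856)))) (b (c (l 16685216) (l 16693872)) (c (b (l 16700232) (l 16685800)) (b (l 16676896) (l 16683072)))))) (a (a (b (c (l 16686408) (l 16695120)) (c (b (l 16701408) (l 16686968)) (b (l 16678120) (l 16684288)))) (b (c (l 16687600) (l 16696360)) (c (b (l 16702584) (l 16688128)) (b (l 16679344) (l 16685504))))) (b (c (a (l 16699280) (l 16700456)) (a (l 16697608) (l 16698840))) (c (a (b (l 16703760) (l 16689288)) (b (l 16704920) (l 16690440))) (b (a (l 16680568) (l 16681784)) (a (l 16686712) (l 16687912))))))), by decide +kernel⟩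

def k130_B00pm_102_s1 : ∃ t, chk3 f_B00pm_102_s1 t 234 510 3 = true :=
  ⟨(a (c (b (a (a (l 16678080) (l 16678656)) (a (l 16679232) (l 16679808))) (a (c (l 16675376) (b (l 16685048) (l 16672552))) (c (l 16676504) (b (l 16686200) (l 16673704))))) (b (a (c (l 16675960) (l 16674352)) (c (l 16677152) (l 16675568))) (a (c (a (l 16671456) (l 16672048)) (b (l 16671064) (l 16668880))) (c (a (l 16672640) (l 16673224)) (b (l 16672272) (l 16670080)))))) (c (b (a (a (l 16680384) (l 16680960)) (a (l 16681536) (l 16682112))) (a (c (l 16677640) (b (l 16687360) (l 16674856))) (c (l 16678768) (b (l 16688512) (l 16676008))))) (b (a (c (l 16678344) (l 16676784)) (c (l 16679536) (l 16678000))) (a (c (a (l 16673816) (l 16674400)) (b (l 16673472) (l 16671272))) (c (a (l 16674992) (l 16675576)) (b (l 16674680) (l 16672472))))))), by decide +kernel⟩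

def k131_B00pm_102_s1 : ∃ t, chk3 f_B00pm_102_s1 t 234 1022 3 = true :=
  ⟨(a (c (a (c (b (a (l 16682672) (l 16683232)) (a (l 16680752) (l 16681312))) (b (c (l 16671032) (l 16670064)) (a (l 16668240) (l 16668808)))) (a (c (b (l 16683792) (l 16681864)) (b (l 16681872) (l 16669376))) (c (b (l 16684352) (l 16682424)) (b (l 16682448) (l 16669944))))) (a (a (c (b (l 16678792) (b (l 16677216) (l 16676168))) (c (l 16671032) (l 22))) (c (b (l 16679376) (b (l 16677800) (l 16676752))) (c (l 16671624) (l 22)))) (a (c (b (l 16679960) (b (l 16678384) (l 16677336))) (c (l 16672216) (l 22))) (c (b (l 16680544) (b (l 16678968) (l 16677912))) (c (l 16672808) (l 22)))))) (c (a (a (c (b (l 16684912) (l 16682984)) (b (l 16683016) (l 16670512))) (c (b (l 16685472) (l 16683544)) (c (l 16672592) (l 16671624)))) (a (c (b (l 16686032) (l 16684096)) (c (l 16673152) (l 16672200))) (c (b (l 16686592) (l 16684656)) (c (l 16673720) (l 16672776))))) (a (a (c (b (l 16681128) (b (l 16679544) (l 16678496))) (c (l 16673400) (l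 22))) (c (b (l 16681712) (b (l 16680128) (l 16679072))) (b (l 16679840) (b (l 16678184) (l 16677088))))) (a (c (b (l 16682296) (b (l 16680704) (l 16679648))) (b (l 16680440) (b (l 16678776) (l 16677680)))) (c (b (l 16682880) (b (l 16681288) (l 16680232))) (b (l 16681032) (b (l 16679368) (l 16678272)))))))), by decide +kernel⟩

def k132_B00pm_102_s1 : ∃ t, chk3 f_B00pm_102_s1 t 468 1023 6 = true :=
  ⟨(b (c (a (a (a (l 16676064) (l 16678968)) (a (l 16679240) (l 16679520))) (a (a (l 16679800) (l 16680080)) (b (l 16680976) (l 16677392)))) (a (a (b (l 16677216) (c (l 16676744) (l 16675680))) (b (l 16677784) (c (l 16677312) (l 16676248)))) (a (b (l 16678352) (c (l 16677872) (l 16676816))) (b (l 16678920) (c (l 16678432) (l 16677384)))))) (b (c (a (a (c (l 16677936) (l 16676848)) (c (l 16678488) (l 16677400))) (a (c (l 16679040) (l 16677960)) (c (l 16679584) (l 16678512)))) (a (a (c (a (l 16675608) (l 16675888)) (a (l 16674520) (l 16674800))) (c (a (l 16676168) (l 16676448)) (a (l 16675088) (l 16675368))))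 (a (c (a (l 16676736) (l 16677016)) (a (l 16675648) (l 16675936))) (c (a (l 16677296) (l 16677576)) (a (l 16676216) (l 16676504)))))) (c (a (a (a (c (l 16676848) (l 16675728)) (c (l 16677120) (l 16676008))) (a (c (l 16677392) (l 16676288)) (c (l 16677672) (l 16676560)))) (a (a (c (l 16677944) (l 16676840)) (c (l 16678216) (l 16677120))) (a (c (l 16678488) (l 16677392)) (c (l 16678768) (l 16677672))))) (a (a (c (b (a (l 16674864) (l 16675144)) (a (l 16674368) (l 16674648))) (b (a (l 16673752) (l 16674040)) (a (b (l 16673376) (l 16673120)) (b (l 16673656) (l 16673400))))) (c (b (a (l 16675424) (l 16675704)) (a (l 16674928) (l 16675208))) (b (a (l 16674320) (l 16674608)) (a (b (l 16673944) (l 16673688)) (b (l 16674224) (l 16673968)))))) (a (c (b (a (l 16675984) (l 16676264)) (a (l 16675488) (l 16675768))) (b (a (l 16674888) (l 16675168)) (a (b (l 16674504) (l 16674248)) (b (l 16674792) (l 16674536))))) (c (b (a (l 16676544) (l 16676824)) (a (l 16676048) (l 16676328))) (a (b (l 16675456) (b (l 16675072)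 (l 16674816))) (a (l 16675408) (l 16675552))))))))), by decide +kernel⟩

def k133_B00pm_102_s1 : ∃ t, chk3 f_B00pm_102_s1 t 468 2046 7 = true :=
  ⟨(a (c (a (a (c (l 16674984) (l 16673928)) (c (l 16675272) (l 16674216))) (b (c (l 16676224) (l 16675184)) (c (l 16675184) (l 16674120)))) (c (b (a (l 16673560) (l 16674144)) (c (a (l 16672744) (l 16673328)) (l 22))) (l 22))) (c (a (b (c (l 16676800) (l 16675768)) (c (l 16675760) (l 16674704))) (b (c (l 16677376) (l 16676344)) (c (l 16676336) (l 16675280)))) (c (a (b (l 16674736) (a (l 16673496) (l 16673792))) (b (l 16675320) (a (l 16674080) (l 16674376)))) (l 22)))), by decide +kernel⟩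

def k134_B00pm_102_s1 : ∃ t, chk3 f_B00pm_102_s1 t 468 4094 7 = true :=
  ⟨(a (a (c (c (a (l 16673424) (l 16673712)) (a (l 16672336) (l 16672624))) (c (a (l 22) (b (l 16671808) (l 16671264))) (l 22))) (c (c (a (l 16674000) (l 16674288)) (a (l 16672912) (l 16673200))) (c (c (a (l 16672096) (l 16672392)) (l 22)) (l 22)))) (a (c (c (a (l 16674568) (l 16674856)) (a (l 16673488) (l 16673784))) (c (c (a (l 16672680) (l 16672976)) (l 22)) (l 22))) (c (c (a (l 16675144) (l 16675432)) (a (l 16674072) (l 16674360))) (c (a (b (l 16673264) (l 16672720)) (b (l 16673560) (l 16673016))) (l 22))))), by decide +kernel⟩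

def k135_B00pm_102_s1 : ∃ t, chk3 f_B00pm_102_s1 t 936 4095 7 = true :=
  ⟨(c (b (c (a (a (l 16672648) (l 16672936)) (a (l 16673216) (l 16673504))) (a (a (c (l 16671816) (l 16671264)) (c (l 16672104) (l 16671552))) (a (c (l 16672392) (l 16671840)) (c (l 16672680) (l 16672128))))) (c (b (a (a (l 16672256) (l 16672544)) (a (l 16672832) (l 16673112))) (a (a (c (l 16672280) (l 16671720)) (c (l 16672568) (l 16672008))) (a (c (l 16672848) (l 16672288)) (c (l 16673136) (l 16672576))))) (b (a (a (c (l 16671424) (l 16670864)) (c (l 16671712) (l 16671152))) (a (c (l 16672000) (l 16671440)) (c (l 16672288) (l 16671728)))) (a (a (c (l 16671160) (a (l 16670520) (l 16670664))) (c (l 16671448) (a (l 16670816) (l 16670960)))) (a (c (l 16671736) (a (l 16671104) (l 16671248))) (c (l 16672024) (b (l 16671528) (l 16671400)))))))) (a (a (l 22) (a (l 22) (a (l 22) (c (b (l 16670832) (c (l 16670568) (l 22))) (l 22))))) (c (c (c (b (a (l 16671424) (l 16671720)) (a (a (l 16670816) (l 16670960)) (b (l 16671312) (l 16671048))))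 (l 22)) (l 22)) (l 22)))), by decide +kernel⟩

def k136_B00pm_102_s1 : ∃ t, chk3 f_B00pm_102_s1 t 937 4095 7 = true :=
  ⟨(c (b (c (a (a (l 16673792) (l 16674080)) (a (l 16674360) (l 16674648))) (a (a (c (l 16672968) (l 16672416)) (c (l 16673256) (l 16672712))) (a (l 16673272) (l 16673560)))) (c (b (a (a (l 16673400) (l 16673688)) (a (l 16673968) (l 16674256))) (a (a (c (l 16673416) (l 16672864)) (c (l 16673704) (l 16673152))) (a (c (l 16673984) (l 16673432)) (c (l 16674272) (l 16673720))))) (b (a (a (c (l 16672568) (l 16672016)) (c (l 16672856) (l 16672312))) (a (c (l 16673144) (l 16672600)) (c (l 16673432) (l 16672888)))) (a (a (c (l 16672304) (b (l 16671816) (l 16671688))) (c (l 16672592) (b (l 16672104) (l 16671976)))) (a (c (l 16672880) (b (l 16672400) (l 16672264))) (c (l 16673168) (l 16672616))))))) (b (c (c (a (a (l 16671872) (l 16672160)) (a (l 16672456) (l 16672744))) (a (l 22) (a (l 22) (l 16672200)))) (l 22)) (c (c (b (a (a (l 16671464) (l 16671760)) (a (l 16672048) (l 16672336))) (c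 (a (a (l 16671336) (l 16671624)) (a (l 16671912) (l 16672208))) (a (a (b (l 16671128) (l 16670992)) (b (l 16671416) (l 16671280))) (a (l 16671640) (l 16671928))))) (a (l 22) (a (l 22) (b (l 16671792) (a (l 16671440) (l 16671584)))))) (l 22)))), by decide +kernel⟩

def k137_B00pm_102_s1 : ∃ t, chk3 f_B00pm_102_s1 t 469 1023 6 = true :=
  ⟨(b (c (a (a (b (l 16681528) (l 16680568)) (b (l 16682088) (l 16681120))) (a (b (l 16682640) (l 16681672)) (b (l 16683200) (l 16682224)))) (a (a (b (l 16679480) (c (l 16679000) (l 16677952))) (b (l 16680048) (c (l 16679560) (l 16678520)))) (a (b (l 16680616) (c (l 16680120) (l 16679088))) (b (l 16681184) (c (l 16680688) (l 16679656)))))) (b (c (a (a (c (l 16680136) (l 16679064)) (c (l 16680688) (l 16679624))) (a (c (l 16681232) (l 16680176)) (c (l 16681784) (l 16680736)))) (a (a (c (a (l 16677856) (l 16678136)) (a (l 16676784) (l 16677072))) (c (a (l 16678416) (l 16678696)) (a (l 16677352) (l 16677632)))) (a (c (a (l 16678976) (l 16679256)) (a (l 16677920) (l 16678200)))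 (c (a (l 16679536) (l 16679816)) (a (l 16678488) (l 16678768)))))) (c (a (a (a (c (l 16679040) (l 16677944)) (c (l 16679312) (l 16678224))) (a (c (l 16679584) (l 16678504)) (c (l 16679864) (l 16678776)))) (a (a (c (l 16680136) (l 16679056)) (c (l 16680408) (l 16679336))) (a (c (l 16680680) (l 16679608)) (c (l 16680960) (l 16679888))))) (a (a (c (b (a (l 16677104) (l 16677384)) (a (l 16676608) (l 16676888))) (a (a (l 16675696) (l 16675832)) (a (l 16675976) (l 16676120)))) (c (b (a (l 16677664) (l 16677944)) (a (l 16677168) (l 16677448))) (b (a (l 16676584) (l 16676864)) (a (l 16676072) (l 16676360))))) (a (b (c (a (l 16678224) (l 16678504)) (a (l 16677152) (l 16677432))) (c (a (l 16677720) (l 16678000)) (a (l 16676640) (l 16676920)))) (a (c (b (l 16678784) (l 16678280)) (b (l 16677712) (l 16677200))) (c (l 16678816) (b (l 16678000) (l 16677488))))))))), by decide +kernel⟩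

def k138_B00pm_102_s1 : ∃ t, chk3 f_B00pm_102_s1 t 469 2046 7 = true :=
  ⟨(a (c (a (b (c (l 16677952) (l 16676928)) (c (l 16676904) (l 16675864))) (b (c (l 16678528) (l 16677512)) (c (l 16677480) (l 16676440)))) (c (a (a (l 16672592) (l 16675504)) (a (l 16675800) (l 16676096))) (l 22))) (c (a (c (b (l 16679104) (l 16678056)) (b (l 16678088) (l 16677024))) (c (b (l 16679672) (l 16678632)) (b (l 16678672) (l 16677600)))) (a (c (a (l 16676384) (l 16676680)) (b (l 16676072) (a (l 16674800) (l 16675096)))) (c (a (l 16676968) (l 16677264)) (b (l 16676664) (a (l 16675392) (l 16675688))))))), by decide +kernel⟩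

def k139_B00pm_102_s1 : ∃ t, chk3 f_B00pm_102_s1 t 469 4094 7 = true :=
  ⟨(a (a (c (c (a (l 16675720) (l 16676000)) (a (l 16674648) (l 16674936))) (c (a (b (l 16673848) (l 16673304)) (b (l 16674144) (l 16673600))) (l 22))) (c (c (a (l 16676288) (l 16676576)) (a (l 16675224) (l 16675512))) (c (a (b (l 16674432) (l 16673888)) (b (l 16674728) (l 16674184))) (l 22)))) (a (c (c (a (l 16676864) (l 16677144)) (a (l 16675800) (l 16676096))) (c (a (l 16674744) (l 16675040)) (c (a (l 16673952) (l 16674248)) (l 22)))) (c (c (a (l 16677432) (l 16677720)) (a (l 16676384) (l 16676672))) (c (a (l 16675328) (l 16675624)) (c (a (l 16674544) (l 16674832)) (l 22)))))), by decide +kernel⟩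

def k140_B00pm_102_s1 : ∃ t, chk3 f_B00pm_102_s1 t 938 4095 7 = true :=
  ⟨(c (b (c (a (a (l 16674936) (l 16675216)) (a (l 16675504) (l 16675792))) (a (a (l 16673848) (l 16674136)) (a (l 16674424) (l 16674712)))) (c (b (a (a (l 16674544) (l 16674824)) (a (l 16675112) (l 16675400))) (a (a (c (l 16674560) (l 16674008)) (c (l 16674840) (l 16674296))) (a (c (l 16675128) (l 16674576)) (c (l 16675408) (l 16674864))))) (c (a (a (b (l 16673720) (l 16673456)) (b (l 16674008) (l 16673744))) (a (l 16674168) (l 16674448))) (b (a (a (l 16673176) (l 16673464)) (a (l 16673752) (l 16674040))) (a (a (l 16672904) (l 16673192)) (a (l 16673488) (l 16673776))))))) (b (c (a (a (c (l 16673032) (l 16672488)) (c (l 16673328) (l 16672784))) (a (c (l 16673616) (l 16673072)) (c (l 16673904) (l 16673368)))) (l 22)) (c (b (a (a (c (l 16672624) (l 16672080)) (c (l 16672920) (l 16672376))) (a (c (l 16673208) (l 16672664)) (c (l 16673496) (l 16672952)))) (a (a (a (c (l 16672280) (l 16671736)) (c (l 16672432) (l 16671880))) (a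 (c (l 16672576) (l 16672024)) (c (l 16672720) (l 16672168)))) (a (a (c (l 16672864) (l 16672320)) (c (l 16673008) (l 16672464))) (a (c (l 16673152) (l 16672608)) (c (l 16673296) (l 16672752)))))) (l 22)))), by decide +kernel⟩

def k141_B00pm_102_s1 : ∃ t, chk3 f_B00pm_102_s1 t 939 4095 7 = true :=
  ⟨(c (b (c (a (a (l 16676072) (l 16676360)) (a (l 16676648) (l 16676928))) (a (a (l 16675000) (l 16675288)) (a (l 16675576) (l 16675864)))) (c (c (a (a (l 16675824) (l 16676112)) (a (l 16676392) (l 16676680))) (a (a (l 16675280) (l 16675568)) (a (l 16675856) (l 16676136)))) (c (a (a (l 16674736) (l 16675024)) (a (l 16675312) (l 16675600))) (a (a (b (l 16674328) (l 16674064)) (b (l 16674616) (l 16674352))) (a (b (l 16674904) (l 16674640)) (b (l 16675192) (l 16674928))))))) (b (c (a (a (c (l 16674200) (l 16673656)) (c (l 16674488) (l 16673952))) (a (c (l 16674776) (l 16674240)) (c (l 16675064) (l 16674536)))) (c (a (a (l 16673120) (l 16673416)) (a (l 16673712) (l 16674000))) (l 22))) (c (b (a (a (c (l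 16673792) (l 16673248)) (c (l 16674080) (l 16673536))) (a (c (l 16674368) (l 16673832)) (c (l 16674656) (l 16674120)))) (a (a (c (b (l 16673584) (l 16673448)) (a (l 16672896) (l 16673048))) (c (b (l 16673872) (l 16673736)) (a (l 16673192) (l 16673336)))) (a (c (b (l 16674168) (l 16674032)) (a (l 16673480) (l 16673624))) (c (l 16674384) (a (l 16673776) (l 16673920)))))) (c (b (a (a (l 16672704) (l 16673000)) (a (l 16673288) (l 16673584))) (a (a (a (l 16672352) (l 16672504)) (a (l 16672648) (l 16672792))) (a (a (l 16672944) (l 16673088)) (a (l 16673232) (l 16673376))))) (l 22))))), by decide +kernel⟩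

def k142_B00pm_102_s1 : ∃ t, chk3 f_B00pm_102_s1 t 235 510 3 = true :=
  ⟨(a (c (b (a (a (l 16682688) (l 16683264)) (a (l 16683840) (l 16684416))) (b (a (l 16680016) (c (l 16692464) (l 16690824))) (c (a (l 16689392) (l 16690520)) (a (l 16677152) (l 16678304))))) (b (a (c (l 16680720) (l 16679208)) (c (l 16681912) (l 16680424))) (a (c (a (l 16676168) (l 16676752)) (b (l 16675880) (l 16673672))) (c (a (l 16677344) (l 16677928)) (b (l 16677080) (l 16674864)))))) (b (c (a (c (l 16686048) (l 16684568)) (a (l 16686136) (l 16686696))) (a (c (l 16683096) (l 16681640)) (c (l 16684272) (l 16682832)))) (a (c (a (a (l 16680856) (l 16681136)) (a (l 16681424) (l 16681704))) (c (a (l 16678520) (l 16679104)) (b (l 16678288) (l 16676064)))) (c (a (b (l 16693608) (c (l 16692456) (l 16690768))) (c (b (l 16695024) (l 16693360)) (a (l 16681832) (l 16682344)))) (a (b (l 16679944) (c (l 16689088) (l 16676936))) (b (c (l 16681384) (l 16679816)) (c (l 16679552) (l 16677904)))))))), by decide +kernel⟩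

def k143_B00pm_102_s1 : ∃ t, chk3 f_B00pm_102_s1 t 470 1022 3 = true :=
  ⟨(c (b (c (a (a (l 16687152) (l 16687712)) (a (l 16688272) (l 16688832))) (a (l 16675128) (a (l 16686448) (l 16687016)))) (c (a (a (l 16685208) (l 16685768)) (a (l 16686328) (l 16686880))) (a (a (l 16683280) (l 16683848)) (a (l 16684416) (l 16684984))))) (a (a (c (b (l 16683464) (b (l 16681872) (l 16680808))) (b (l 16681624) (b (l 16679968) (l 16678856)))) (c (b (l 16684048) (b (l 16682448) (l 16681392))) (b (l 16682224) (b (l 16680560) (l 16679448))))) (a (c (b (l 16684632) (b (l 16683032) (l 16681968))) (b (l 16682816) (b (l 16681152) (l 16680040)))) (c (b (l 16685216) (b (l 16683608) (l 16682544))) (b (l 16683408) (b (l 16681744) (l 16680632))))))), by decide +kernel⟩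

def k144_B00pm_102_s1 : ∃ t, chk3 f_B00pm_102_s1 t 470 2046 3 = true :=
  ⟨(c (c (a (a (b (l 16683752) (l 16682784)) (b (l 16684304) (l 16683336))) (a (b (l 16684864) (l 16683888)) (b (l 16685416) (l 16684440)))) (a (a (b (l 16681752) (c (l 16681248) (l 16680224))) (b (l 16682320) (c (l 16681808) (l 16680792)))) (a (b (l 16682880) (c (l 16682368) (l 16681360))) (b (l 16683448) (c (l 16682928) (l 16681928)))))) (a (c (a (c (b (l 16680248) (l 16679200)) (b (l 16679248) (l 16678184))) (c (b (l 16680824) (l 16679776)) (b (l 16679832) (l 16678760)))) (a (c (a (l 16677560) (l 16677848)) (b (l 16677256) (a (l 16675984) (l 16676280)))) (c (a (l 16678144) (l 16678432)) (b (l 16677848) (a (l 16676576) (l 16676872)))))) (c (a (c (b (l 16681400) (l 16680352)) (b (l 16680416) (l 16679336))) (c (b (l 16681976) (l 16680920)) (b (l 16680992) (l 16679920)))) (a (c (a (l 16678728) (l 16679024)) (b (l 16678440) (a (l 16677168) (l 16677464)))) (c (a (l 16679312) (l 16679608)) (b (l 16679032) (a (l 16677760) (l 16678048)))))))),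 by decide +kernel⟩

def k145_B00pm_102_s1 : ∃ t, chk3 f_B00pm_102_s1 t 470 2047 6 = true :=
  ⟨(b (c (a (a (c (l 16682336) (l 16681288)) (c (l 16682880) (l 16681840))) (a (c (l 16683432) (l 16682400)) (c (l 16683976) (l 16682952)))) (a (a (c (a (l 16680096) (l 16680376)) (a (l 16679048) (l 16679336))) (c (a (l 16680656) (l 16680936)) (a (l 16679616) (l 16679896)))) (a (c (l 16681360) (a (l 16680184) (l 16680464))) (c (l 16681920) (a (l 16680752) (l 16681032)))))) (c (a (a (a (c (l 16681232) (l 16680160)) (c (l 16681504) (l 16680440))) (a (c (l 16681776) (l 16680712)) (c (l 16682056) (l 16680992)))) (a (a (c (l 16682328) (l 16681272)) (c (l 16682600) (l 16681544))) (a (c (l 16682872) (l 16681824)) (c (l 16683144) (l 16682096))))) (a (a (a (c (l 16679096) (b (l 16678280) (l 16677768))) (c (l 16679376) (b (l 16678560) (l 16678048)))) (a (c (l 16679656) (b (l 16678848) (l 16678328))) (c (l 16679928) (b (l 16679128) (l 16678616))))) (a (a (c (l 16680208) (b (l 16679408) (l 16678896))) (c (l 16680488)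 (b (l 16679688) (l 16679176)))) (a (c (l 16680768) (b (l 16679976) (l 16679456))) (c (l 16681048) (b (l 16680256) (l 16679744)))))))), by decide +kernel⟩

def k146_B00pm_102_s1 : ∃ t, chk3 f_B00pm_102_s1 t 940 4094 7 = true :=
  ⟨(a (c (c (a (l 16678008) (l 16678288)) (a (l 16676960) (l 16677248))) (c (a (l 16675912) (l 16676208)) (a (b (l 16675144) (l 16674584)) (b (l 16675440) (l 16674880))))) (c (c (a (l 16678576) (l 16678864)) (a (l 16677536) (l 16677824))) (c (a (l 16676496) (l 16676792)) (a (b (l 16675736) (l 16675176)) (b (l 16676032) (l 16675472)))))), by decide +kernel⟩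

def k147_B00pm_102_s1 : ∃ t, chk3 f_B00pm_102_s1 t 940 4095 7 = true :=
  ⟨(c (b (a (c (a (l 16677216) (l 16677504)) (a (l 16676152) (l 16676440))) (c (a (l 16677784) (l 16678072)) (a (l 16676728) (l 16677016)))) (b (a (c (a (l 16676824) (l 16677112)) (a (l 16675752) (l 16676040))) (c (a (l 16677392) (l 16677680)) (a (l 16676328) (l 16676616)))) (a (c (a (l 16676560) (l 16676848)) (a (c (l 16675752) (l 16675216)) (c (l 16676040) (l 16675504)))) (c (a (l 16677128) (l 16677416)) (a (c (l 16676328) (l 16675792)) (c (l 16676616) (l 16676080))))))) (b (c (a (a (c (l 16675360) (l 16674824)) (c (l 16675648) (l 16675120))) (a (c (l 16675936) (l 16675408)) (c (l 16676232) (l 16675704)))) (a (a (c (l 16674296) (l 22)) (c (l 16674584) (l 16674056))) (a (c (l 16674880) (l 16674352)) (c (l 16675176) (l 16674648))))) (c (b (a (a (c (l 16674952) (l 16674416)) (c (l 16675240) (l 16674704))) (a (c (l 16675528) (l 16674992)) (c (l 16675816) (l 16675288)))) (a (a (c (l 16674680) (a (l 16674064) (l 16674208))) (c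 (l 16674968) (a (l 16674352) (l 16674504)))) (a (c (l 16675256) (a (l 16674648) (l 16674792))) (c (l 16675544) (a (l 16674936) (l 16675080)))))) (b (a (a (c (l 16673880) (l 22)) (c (l 16674168) (l 16673640))) (a (c (l 16674464) (l 16673928)) (c (l 16674752) (l 16674224)))) (a (a (c (a (l 16673528) (l 16673672)) (l 22)) (c (a (l 16673816) (l 16673968)) (a (l 16673280) (l 16673424)))) (a (c (a (l 16674112) (l 16674256)) (a (l 16673576) (l 16673720))) (c (a (l 16674400) (l 16674552)) (a (l 16673872) (l 16674016))))))))), by decide +kernel⟩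

def k148_B00pm_102_s1 : ∃ t, chk3 f_B00pm_102_s1 t 941 2047 7 = true :=
  ⟨(b (a (c (c (a (l 16679152) (l 16679432)) (a (l 16678112) (l 16678400))) (c (a (l 16677080) (l 16677368)) (a (b (l 16676328) (l 16675768)) (b (l 16676616) (l 16676056))))) (c (c (a (l 16679720) (l 16680008)) (a (l 16678688) (l 16678976))) (c (a (l 16677664) (l 16677952)) (a (b (l 16676912) (l 16676352)) (b (l 16677208) (l 16676648)))))) (c (b (a (c (a (l 16678360) (l 16678640)) (a (l 16677304) (l 16677592))) (c (a (l 16678928) (l 16679216)) (a (l 16677880) (l 16678168)))) (a (c (a (b (l 16677960) (l 16677704)) (b (l 16678248) (l 16677984))) (a (a (l 16676696) (l 16676840)) (a (l 16676984) (l 16677128)))) (c (a (b (l 16678536) (l 16678272)) (b (l 16678816) (l 16678552))) (a (a (l 16677272) (l 16677416)) (a (l 16677560) (l 16677704)))))) (b (c (a (a (c (l 16676520) (l 16675992)) (c (l 16676808) (l 16676288))) (a (l 16676840) (l 16677128))) (a (a (c (l 16675464) (l 16674944)) (c (l 16675760) (l 16675232))) (a (c (l 16676056)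 (l 16675528)) (c (l 16676344) (l 16675824))))) (c (a (a (a (c (l 16675896) (l 16675368)) (c (l 16676040) (l 16675512))) (a (c (l 16676192) (l 16675656)) (c (l 16676336) (l 16675800)))) (a (a (c (l 16676480) (l 16675952)) (c (l 16676624) (l 16676096))) (b (c (l 16676976) (l 16676456)) (c (l 16676704) (l 16676176))))) (b (a (a (c (l 16675048) (l 16674520)) (c (l 16675344) (l 16674816))) (a (c (l 16675632) (l 16675104)) (c (l 16675928) (l 16675400)))) (a (a (c (a (l 16674696) (l 16674840)) (a (l 16674160) (l 16674312))) (c (a (l 16674984) (l 16675136)) (a (l 16674456) (l 16674600)))) (a (c (a (l 16675280) (l 16675424)) (a (l 16674752) (l 16674896))) (c (a (l 16675576) (l 16675720)) (a (l 16675040) (l 16675192)))))))))), by decide +kernel⟩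

def k149_B00pm_102_s1 : ∃ t, chk3 f_B00pm_102_s1 t 471 1022 3 = true :=
  ⟨(a (c (a (c (b (l 16689392) (l 16687440)) (b (l 16687592) (l 16685552))) (b (c (l 16689944) (l 16688160)) (a (c (l 16687840) (l 16685960)) (c (b (l 16688624) (l 16687768)) (b (l 16686768) (a (l 16685712) (l 16686008))))))) (a (c (b (l 16685792) (b (l 16684192) (l 16683128))) (b (l 16684008) (b (l 16682336) (l 16681224)))) (b (c (l 16686376) (l 16684600)) (a (c (l 16684088) (b (l 16682768) (l 16681656))) (c (b (l 16684928) (b (l 16684192) (l 16683752))) (b (l 16683080) (c (l 16682568) (l 16671144)))))))) (c (a (c (b (a (l 16690392) (l 16690896)) (b (l 16689480) (l 16688792))) (b (a (l 16688616) (l 16689128)) (b (l 16687656) (l 16686928)))) (c (l 16691240) (l 16689464))) (a (b (c (a (l 16676360) (l 16676880)) (a (l 16674592) (l 16675128))) (c (b (l 16675344) (l 16685064)) (b (a (l 16683616) (l 16684376)) (l 16683200)))) (c (l 16687688) (l 16685920))))), by decide +kernel⟩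

def k150_B00pm_102_s1 : ∃ t, chk3 f_B00pm_102_s1 t 471 2046 3 = true :=
  ⟨(c (a (c (a (b (l 16685968) (a (l 16684848) (b (l 16685368) (l 16684896)))) (a (b (a (l 16686312) (l 16686536)) (b (l 16685816) (l 16685464))) (l 16686696))) (a (b (l 16684016) (a (l 16682848) (b (l 16683384) (a (l 16682800) (l 16682976))))) (a (b (a (l 16684368) (l 16684592)) (c (l 16684160) (l 16683168))) (l 16684744)))) (c (l 16688504) (l 16686600))) (a (a (c (b (c (l 16682552) (l 16681576)) (a (l 16680848) (b (l 16681400) (a (l 16680792) (c (l 16681472) (l 16680472)))))) (b (c (l 16680600) (l 16679624)) (a (c (l 16679344) (l 16678344)) (b (l 16679416) (a (l 16678784) (c (l 16679464) (l 16678464))))))) (c (a (b (b (l 16682776) (a (l 16682152) (l 16682424))) (b (a (l 16681688) (l 16682040)) (l 16681480))) (l 16682800)) (a (a (b (a (l 16680432) (l 16680512)) (b (a (l 16679624) (l 16679784)) (l 16679288))) (b (b (l 16680928) (l 16680472)) (l 16679880))) (l 16680856)))) (c (c (l 16685168) (l 16684216)) (c (l 16683264) (l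 16682312))))), by decide +kernel⟩

def k151_B00pm_102_s1 : ∃ t, chk3 f_B00pm_102_s1 t 471 2047 6 = true :=
  ⟨(a (b (a (a (c (l 16683872) (c (l 16682336) (l 16681312))) (c (a (b (l 16684328) (c (l 16684416) (l 16683392))) (l 16684416)) (a (b (l 16682296) (c (l 16682368) (l 16681344))) (b (l 16682560) (l 16682200))))) (c (l 16685328) (l 16683312))) (a (a (c (b (a (l 16683072) (c (l 16683760) (l 16682720))) (a (c (l 16683120) (l 16682064)) (c (l 16683376) (l 16682320)))) (b (a (l 16680984) (c (a (l 16681616) (l 16681728)) (a (l 16680576) (l 16680688)))) (b (a (c (l 16681128) (l 16680080)) (c (l 16681360) (l 16680312))) (a (c (a (l 16680840) (l 16680928)) (a (l 16679784) (l 16679872))) (l 16680656))))) (c (l 16683560) (c (l 16682000) (l 16680968)))) (c (l 16684664) (c (l 16683120) (l 16682096))))) (c (c (l 16687664) (l 16686672)) (c (l 16685680) (l 16682072)))), by decide +kernel⟩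

def k152_B00pm_102_s1 : ∃ t, chk3 f_B00pm_102_s1 t 942 4094 7 = true :=
  ⟨(c (b (a (a (l 16680048) (a (c (l 16680776) (l 16679760)) (c (l 16681040) (l 16680032)))) (l 16681488)) (a (a (c (l 16680024) (l 16679000)) (a (c (a (l 16680232) (l 16680384)) (a (l 16679208) (l 16679360))) (l 16680160))) (l 16681120))) (a (b (c (a (l 16678520) (a (l 16678744) (l 16679016))) (a (l 16677504) (a (b (l 16677864) (l 16677592)) (l 16678008)))) (c (a (l 16677968) (a (a (b (l 16678288) (l 16678056)) (l 16678336)) (l 16678624))) (a (l 16676936) (a (a (b (l 16677272) (l 16677024)) (l 16677312)) (l 16677600))))) (c (l 16679792) (l 16678792)))), by decide +kernel⟩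

def k153_B00pm_102_s1 : ∃ t, chk3 f_B00pm_102_s1 t 942 4095 7 = true :=
  ⟨(a (c (a (c (a (b (l 16679424) (b (l 16679032) (a (l 16678728) (a (l 16678784) (l 16678848))))) (b (a (l 16679536) (b (l 16679752) (l 16679544))) (b (a (l 16679176) (l 16679352)) (l 16679080)))) (b (a (l 16678384) (a (l 16678496) (b (l 16678720) (l 16678504)))) (a (b (l 16677984) (a (l 16677672) (b (a (l 16677800) (l 16677840)) (a (l 16677664) (l 16677736))))) (b (a (a (l 16678088) (l 16678168)) (l 16678312)) (l 16678024))))) (c (l 16679928) (l 16678888))) (b (c (a (a (l 16677344) (a (c (l 16677720) (l 16677200)) (b (l 16677680) (l 16677456)))) (l 16678040)) (a (a (l 16676304) (c (a (l 16676680) (b (l 16676904) (l 16676680))) (a (b (l 16676296) (l 16676016)) (b (l 16676384) (l 16676160))))) (l 16677008))) (c (a (a (b (l 16676928) (a (l 16676616) (c (a (l 16676944) (b (l 16677056) (l 16676944))) (a (l 16676416) (b (l 16676528) (l 16676416)))))) (b (a (a (b (l 16677096) (l 16676976)) (l 16677120)) (l 16677264)) (l 16676976)))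 (l 16677656)) (b (a (a (c (l 16676144) (l 16675616)) (a (b (a (l 16676048) (l 16676120)) (c (l 16676240) (l 16675712))) (l 16676216))) (l 16676712)) (a (a (a (c (l 16675832) (l 16675304)) (b (a (l 16675688) (c (l 16676000) (a (l 16675456) (l 16675488)))) (a (c (a (l 16675800) (l 16675824)) (a (l 16675272) (b (l 16675328) (l 16675264)))) (c (l 16675888) (l 16675360))))) (l 16675920)) (l 16676520)))))) (c (c (l 16681072) (l 16680048)) (a (c (l 16678632) (l 16677608)) (c (l 16679416) (l 16678392))))), by decide +kernel⟩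

def k154_B00pm_102_s1 : ∃ t, chk3 f_B00pm_102_s1 t 943 2047 7 = true :=
  ⟨(c (a (c (l 16682952) (l 16681952)) (c (l 16684448) (l 16683472))) (c (b (l 16682112) (a (l 16680576) (l 16682112))) (b (l 16681128) (a (b (l 16679760) (l 16679368)) (l 16681120))))), by decide +kernel⟩

def k155_B00pm_102_s1 : ∃ t, chk3 f_B00pm_102_s1 t 118 62 1 = true :=
  ⟨(b (b (a (a (c (l 16752104) (l 16765032)) (c (l 16754656) (l 16788848))) (c (a (l 16757144) (l 16759560)) (a (l 16791632) (l 16794360)))) (a (c (a (l 16759536) (l 16762000)) (a (c (l 16788000) (l 16709488)) (c (l 16790680) (l 16754256)))) (c (a (l 16764400) (l 16766744)) (a (c (l 16793288) (l 16757008)) (b (l 16760872) (l 16794480)))))) (b (a (c (a (l 16745936) (b (l 16772648) (l 16765784))) (a (c (l 16772320) (l 16734312)) (c (l 16774912) (l 16737032)))) (c (a (b (l 16774984) (l 16768080)) (b (l 16777264) (l 16770312))) (a (c (l 16777432) (l 16739688)) (c (l 16779888) (l 16742288))))) (b (a (c (a (l 16756576) (l 16758904)) (a (l 16761824) (l 16764400)))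 (c (a (l 16761160) (l 16763352)) (a (l 16766920) (l 16769376)))) (a (c (a (l 16749720) (l 16752008)) (a (l 16732592) (l 16735120))) (c (a (l 16754224) (l 16756384)) (a (l 16737592) (l 16740000))))))), by decide +kernel⟩

def k156_B00pm_102_s1 : ∃ t, chk3 f_B00pm_102_s1 t 119 62 1 = true :=
  ⟨(b (a (b (c (a (l 16761936) (l 16785232)) (a (l 16797024) (l 16799656))) (c (a (l 16769024) (l 16771264)) (a (c (l 16756400) (l 16762352)) (b (l 16766016) (l 16757584))))) (b (b (c (l 16792192) (c (l 16775352) (l 16767184))) (c (l 16785160) (l 16799320))) (c (a (a (l 16751896) (l 16773872)) (b (l 16758208) (l 16793448))) (a (b (l 16768528) (l 16760032)) (b (l 16771088) (l 16762976)))))) (b (a (c (a (b (l 16779488) (l 16772496)) (b (l 16781664) (l 16774696))) (a (c (l 16782296) (l 16744832)) (b (l 16791072) (l 16761712)))) (c (a (b (l 16784040) (l 16777632)) (l 16784008)) (a (b (l 16772784) (l 16765000)) (l 16751496)))) (a (c (a (b (l 16765464) (l 16758736)) (b (l 16768160) (l 16762080))) (a (b (l 16750768)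 (c (l 16762312) (l 16764952))) (b (c (l 16773016) (l 16776544)) (l 16767344)))) (c (c (l 16768896) (l 16771952)) (c (l 16775232) (l 16736800)))))), by decide +kernel⟩

def k157_B00pm_102_s1 : ∃ t, chk3 f_B00pm_102_s1 t 59 126 2 = true :=
  ⟨(a (b (a (a (b (l 16721880) (l 16725480)) (b (l 16724120) (l 16727680))) (a (b (l 16726304) (c (l 16719016) (l 16719600))) (b (c (l 16727776) (l 16729176)) (a (l 16721056) (l 16722848))))) (a (a (b (c (l 16708272) (l 16707944)) (c (l 16712176) (l 16711168))) (b (c (l 16710384) (l 16710168)) (b (l 16715472) (a (l 16721880) (l 16712576))))) (a (b (a (l 16722216) (a (l 16712720) (l 16713608))) (a (c (l 16705904) (l 16705120)) (l 16728584))) (c (l 16734656) (l 16713496))))) (b (a (a (b (c (l 16730816) (l 16732392)) (l 16746864)) (l 16753576)) (c (l 16758232) (l 16760040))) (a (c (l 16719800) (l 16740920)) (c (l 16727256) (l 16748816))))), by decide +kernel⟩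

def k158_B00pm_102_s1 : ∃ t, chk3 f_B00pm_102_s1 t 118 127 2 = true :=
  ⟨(a (b (a (b (c (a (l 16694488) (l 16695528)) (a (l 16692768) (l 16693856))) (a (b (c (l 16710464) (l 16708232)) (c (a (l 16706880) (l 16707416)) (c (l 16684256) (l 16688224)))) (b (c (l 16695896) (l 16693720)) (c (a (l 16708256) (l 16709384)) (a (l 16690008) (l 16706920)))))) (b (a (b (a (l 16718112) (l 16702936)) (c (l 16716168) (l 16693424))) (b (l 16709616) (l 16717464))) (b (a (c (l 16713576) (l 16711496)) (l 16714952)) (c (l 16712424) (l 16710120))))) (b (a (a (a (c (b (b (l 16704384) (l 16702896)) (b (l 16701608) (l 16700472))) (b (b (l 16701536) (l 16699880)) (b (l 16698448) (l 16697168)))) (c (b (b (l 16705208) (l 16704008)) (l 16702312)) (b (b (l 16702400) (l 16701056)) (l 16699144)))) (c (l 16705328) (b (l 16703680) (l 16701136)))) (c (b (l 16710136) (l 16707896)) (l 16695784))) (c (c (a (b (l 16701584) (a (l 16698208) (l 16700728))) (b (l 16706496) (l 16704408))) (b (a (l 16699864) (l 16704904)) (a (a (l 16696320)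 (l 16698912)) (l 16702680)))) (a (b (c (l 16698160) (a (l 16695096) (l 16697800))) (c (a (l 16694440) (l 16697088)) (a (b (l 16693184) (l 16691928)) (l 16695272)))) (b (c (l 16703320) (l 16701744)) (c (l 16695720) (a (l 16697936) (l 16700536)))))))) (b (c (b (l 16704208) (l 16710016)) (b (l 16703000) (l 16708224))) (c (b (c (l 16700872) (l 16699680)) (c (a (l 16710152) (l 16714640)) (b (l 16696312) (a (l 16707528) (l 16712152))))) (b (a (l 16700752) (l 16695016)) (b (c (l 16694920) (l 16698776)) (c (a (l 16705928) (l 16710672)) (a (l 16704336) (l 16709208)))))))), by decide +kernel⟩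

def k159_B00pm_102_s1 : ∃ t, chk3 f_B00pm_102_s1 t 119 127 2 = true :=
  ⟨(b (a (c (a (l 16708264) (l 16712280)) (b (l 16711864) (l 16706704))) (c (l 16728416) (l 16727824))) (a (c (b (l 16708864) (a (l 16718280) (l 16722416))) (b (l 16712208) (b (l 16708608) (a (l 16709288) (l 16718920))))) (c (b (l 16711408) (a (l 16726360) (l 16730104))) (b (l 16720440) (c (l 16716256) (b (l 16726944) (l 16714088))))))), by decide +kernel⟩

def k160_B00pm_102_s1 : ∃ t, chk3 f_B00pm_102_s1 t 59 126 3 = true :=
  ⟨(a (b (a (a (b (c (l 16744608) (l 16745992)) (c (l 16736672) (l 16737328))) (b (c (l 16747032) (l 16748544)) (c (l 16739056) (l 16739832)))) (a (b (c (l 16749392) (l 16751024)) (c (l 16741320) (l 16742216))) (b (c (l 16751728) (l 16753488)) (c (l 16744312) (a (l 16744232) (l 16746272)))))) (a (a (b (c (l 16707744) (l 16728648)) (c (a (l 16699104) (l 16700272)) (b (l 16701096) (l 16696736)))) (b (c (l 16710080) (l 16731096)) (c (a (l 16701416) (l 16713096)) (a (l 16721664) (l 16712440))))) (a (b (c (a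 (l 16711672) (l 16713304)) (a (l 16732776) (l 16734480))) (a (c (l 16714928) (l 16714360)) (l 16716976))) (c (l 16734400) (l 16734448))))) (b (a (a (b (c (l 16755120) (l 16757064)) (l 16749088)) (c (l 16756000) (l 16757832))) (c (l 16762024) (l 16743216))) (a (c (l 16730720) (b (l 16745040) (l 16738248))) (c (l 16749536) (l 16729424))))), by decide +kernel⟩

def k161_B00pm_102_s1 : ∃ t, chk3 f_B00pm_102_s1 t 236 127 3 = true :=
  ⟨(b (a (b (c (a (l 16701616) (l 16702752)) (a (l 16700048) (l 16701240))) (a (c (b (l 16706056) (c (l 16692208) (l 16690952))) (b (l 16682976) (c (l 16689720) (l 16688496)))) (c (b (l 16696848) (a (l 16692784) (l 16704512))) (b (b (l 16685256) (l 16693736)) (a (l 16690360) (l 16702152)))))) (b (a (c (b (l 16716344) (l 16702216)) (b (l 16694096) (l 16700592))) (c (a (l 16705528) (l 16717216)) (b (l 16696008) (l 16713568)))) (b (c (a (l 16688512) (l 16712104)) (a (l 16697056) (l 16710288))) (c (l 16707864) (l 16684704))))) (b (a (a (c (b (a (c (l 16682848) (l 16686656))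 (l 16688432)) (b (c (l 16696800) (l 16684776)) (l 16694592))) (b (a (c (l 16685232) (l 16683824)) (b (l 16686432) (l 16695264))) (b (c (l 16683240) (l 16681720)) (l 16680888)))) (c (l 16689024) (c (l 16697360) (l 16685456)))) (c (c (l 16693760) (l 16692424)) (c (l 16691096) (l 16689776)))) (b (c (a (c (l 16684264) (l 16682568)) (c (l 16700176) (l 16698616))) (a (c (c (l 16681304) (l 16680464)) (b (l 16679992) (l 16678416))) (c (l 16686576) (l 16685024)))) (c (a (a (c (b (l 16691344) (l 16690016)) (c (l 16689272) (l 16677848))) (c (l 16693464) (b (l 16692352) (l 16690960)))) (a (c (l 16696192) (b (l 16695144) (l 16693752))) (c (l 16698856) (l 16697184)))) (b (a (c (c (l 16679096) (l 16678200)) (a (c (l 16686296) (l 16685376)) (l 16688824))) (c (l 16684360) (a (l 16691744) (l 16694608)))) (c (a (a (c (l 16686672) (l 16683096)) (a (l 16688392) (l 16689840))) (a (a (l 16691272) (l 16692688)) (l 16694784))) (c (a (a (b (l 16685144) (l 16684384)) (l 16687736)) (a (l 16690648) (l 16693504))) (a (a (a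 (l 16683048) (l 16684568)) (a (l 16686072) (l 16687560))) (a (l 16689760) (l 16692648)))))))))), by decide +kernel⟩

def k162_B00pm_102_s1 : ∃ t, chk3 f_B00pm_102_s1 t 237 127 3 = true :=
  ⟨(b (c (b (l 16712368) (c (l 16696440) (l 16695592))) (b (l 16711336) (a (l 16702224) (l 16696928)))) (b (c (a (l 16698312) (l 16703304)) (a (c (l 16686024) (l 16684832)) (b (l 16713192) (l 16699624)))) (b (c (a (l 16694168) (l 16699200)) (a (c (l 16702512) (l 16690608)) (c (l 16707736) (l 16695960)))) (c (a (c (b (l 16703400) (l 16702104)) (b (l 16701856) (l 16690000))) (c (l 16707744) (l 16695808))) (a (c (a (b (l 16698976) (l 16697528)) (l 16690440)) (a (b (l 16697408) (c (l 16696296) (l 16695472))) (c (l 16699776) (l 16696384)))) (a (c (l 16703552) (c (l 16702448) (l 16701712))) (c (l 16706120) (c (l 16705064) (l 16704360))))))))), by decide +kernel⟩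

def k163_B00pm_102_s1 : ∃ t, chk3 f_B00pm_102_s1 t 119 127 3 = true :=
  ⟨(b (a (c (b (l 16711224) (l 16715944)) (b (l 16731648) (c (l 16704568) (l 16724976)))) (c (b (l 16719704) (l 16714040)) (b (l 16740584) (l 16734296)))) (b (a (c (c (l 16700344) (l 16709920)) (a (b (l 16718192) (l 16704656)) (b (l 16722968) (l 16709464)))) (c (c (l 16708912) (l 16718720)) (a (b (l 16727528) (l 16714048)) (b (l 16731880) (l 16718424))))) (c (a (a (b (l 16704016) (c (l 16712520) (l 16700704))) (c (l 16707864) (b (l 16718560) (l 16715872)))) (a (c (l 16712200) (b (l 16723000) (l 16720336))) (c (l 16716328) (b (l 16727232) (l 16724592))))) (b (c (a (a (l 16712728) (l 16717504)) (a (l 16722056) (l 16726400))) (a (a (l 16711560) (l 16716456)) (a (l 16721128) (l 16725584)))) (a (b (a (c (l 16710576) (a (l 16708032) (l 16710544))) (c (l 16715368) (c (l 16714496) (l 16713920)))) (a (c (c (l 16709496) (l 16708816)) (a (l 16706536) (l 16709056))) (a (c (l 16712784) (l 16711520)) (c (l 16715128) (l 16713928))))) (c (a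 (a (l 16718120) (l 16720360)) (a (l 16722544) (l 16724680))) (a (a (b (l 16717752) (l 16716280)) (c (l 16719568) (l 16719048))) (a (c (l 16721800) (l 16721304)) (b (l 16724464) (a (l 16722472) (l 16723560))))))))))), by decide +kernel⟩

def k164_B00pm_102_s1 : ∃ t, chk3 f_B00pm_102_s1 t 15 14 1 = true :=
  ⟨(b (l 3) (a (a (c (a (b (a (b (a (l 536249103) (l 536221455)) (a (c (l 536659727) (l 535965199)) (c (l 536637455) (l 535938319)))) (b (l 3) (c (l 536611343) (l 535905295)))) (a (b (a (c (l 536718351) (l 536025359)) (c (l 536699407) (l 536002063))) (c (a (l 536770831) (l 536755471)) (a (l 536079119) (l 536059151)))) (b (c (l 536678671) (l 535973903)) (c (a (l 536743439) (l 536734735)) (a (l 536042511) (l 536029199)))))) (b (a (a (b (l 3) (l 535969039)) (l 3)) (l 3)) (a (b (c (l 536392207) (a (l 535951375) (l 535941135))) (c (a (l 536729103) (l 536726543)) (a (l 536018959) (l 536012047)))) (b (a (c (l 536654351) (l 535933967)) (l 3)) (a (c (l 536727567) (l 536008207)) (c (l 536731663) (l 536007695)))))))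 (a (b (a (b (a (l 534808079) (l 534770191)) (a (c (l 535245839) (l 534501135)) (c (l 535214095) (l 534464015)))) (b (l 3) (c (l 535173391) (l 534415119)))) (a (b (a (c (l 535307023) (l 534563343)) (c (l 535278863) (l 534529807))) (c (a (l 535361807) (l 535336975)) (a (l 534618639) (l 534588431)))) (b (c (a (l 535253775) (l 535232015)) (a (l 534499343) (l 534472207))) (c (a (l 535315215) (l 535297039)) (a (l 534561551) (l 534537743)))))) (b (a (b (l 3) (c (l 535129615) (l 534360591))) (l 3)) (a (b (c (a (l 535213327) (l 535197967)) (a (l 534448399) (l 534427663))) (c (a (l 535281679) (l 535269903)) (a (l 534517263) (l 534500111)))) (a (b (c (l 535185935) (l 534410255)) (c (l 535261199) (l 534485775))) (b (l 3) (c (l 535255567) (l 534475023)))))))) (b (l 3) (b (l 3) (a (a (c (a (c (l 536738831) (l 536010511)) (c (l 536749327) (l 536016399))) (a (c (l 535253263) (l 534467343)) (c (l 535254287) (l 534462735)))) (l 3)) (l 3))))) (l 3))), by decide +kernel⟩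

def k165_B00pm_102_s1 : ∃ t, chk3 f_B00pm_102_s1 t 60 60 2 = true :=
  ⟨(a (b (a (c (a (b (l 536806671) (l 536828687)) (b (l 536794127) (l 536817679))) (a (b (l 536115727) (l 536137999)) (b (l 536098575) (l 536122639)))) (c (a (b (l 536784655) (l 536809999)) (l 536523535)) (a (b (l 536084495) (l 536110351)) (b (l 536073743) (l 536101391))))) (a (c (a (b (l 536848911) (l 536865807)) (b (l 536839695) (l 536858383))) (a (b (l 535890447) (b (l 16768712) (l 16768368))) (b (l 535876623) (b (l 16769168) (l 16768824))))) (c (a (b (l 536833807) (l 536854287)) (b (l 536831247) (l 536853007))) (a (b (l 536134671) (l 535955471)) (b (l 536127503) (l 535882767)))))) (a (b (c (a (l 536521487) (l 536488975)) (a (b (l 536066319) (l 536095503)) (b (l 536061711) (l 536092943)))) (c (a (b (l 536831759) (l 536855055)) (b (l 536835343) (l 536860431))) (a (b (l 536123407) (l 536148751)) (b (l 536122383) (l 536149519))))) (b (c (a (b (l 536779023) (l 536811535)) (b (l 536785679) (l 536819983))) (a (b (l 536060687) (l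 536093455)) (b (l 536062735) (l 536097295)))) (a (c (b (l 536842255) (l 536868623)) (b (l 536124687) (l 536153615))) (c (b (l 536852239) (l 536880143)) (b (l 536130063) (l 536160527))))))), by decide +kernel⟩

def k166_B00pm_102_s1 : ∃ t, chk3 f_B00pm_102_s1 t 60 60 3 = true :=
  ⟨(a (b (a (c (a (b (l 535398927) (l 535421455)) (b (l 535376911) (l 535400975))) (a (b (l 534656271) (l 534678799)) (b (l 534628879) (l 534653199)))) (c (a (b (l 535357967) (l 535383823)) (b (l 535342095) (l 535369999))) (a (b (l 534604559) (l 534630415)) (b (l 534583311) (l 534611215))))) (a (c (a (b (c (l 16763224) (l 534990863)) (c (l 16761864) (l 535011599))) (b (c (l 16764112) (l 534971151)) (c (l 16762736) (l 534993423)))) (a (b (c (l 534888207) (l 534510351)) (c (l 534640911) (l 534532367))) (b (c (l 534597135) (l 534485007)) (c (l 534620431) (l 534508815))))) (c (a (b (a (l 535411983) (l 535405071)) (c (l 535347727) (l 534978575))) (b (l 535295503) (c (l 535338511) (l 534966799)))) (a (b (c (l 534577679) (l 534462735))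 (c (l 534602767) (l 534220303))) (b (c (l 534561551) (l 534175503)) (c (l 534588431) (l 534203151))))))) (a (b (c (a (b (l 535329551) (l 535358991)) (b (l 535320335) (l 535351311))) (a (b (l 534565391) (l 534594831)) (b (l 534550799) (l 534581775)))) (c (a (b (l 535387151) (c (l 535332367) (l 534958351))) (b (l 535381263) (l 535410703))) (a (b (c (l 534548495) (l 534159375)) (c (l 534577167) (l 534189327))) (b (l 534611983) (l 534643215))))) (b (c (a (b (l 535313935) (l 535346959)) (b (l 535311119) (l 535345679))) (a (b (l 534539023) (l 534571791)) (b (l 534530831) (l 534565135)))) (c (a (b (l 535378447) (l 535409679)) (b (l 535378959) (l 535411983))) (a (b (l 534603791) (l 534637071)) (b (l 534598671) (l 534633999))))))), by decide +kernel⟩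

def k167_B00pm_102_s1 : ∃ t, chk3 f_B00pm_102_s1 t 240 122 2 = true :=
  ⟨(b (c (a (l 536645647) (l 536606223)) (a (c (l 16765032) (l 16765448)) (b (l 16768488) (l 16762920)))) (c (a (b (l 16777504) (b (a (b (l 16777600) (l 16772464)) (l 16777560)) (a (b (a (l 16779064) (l 16772808)) (l 16780616)) (b (l 16777608) (a (l 16768048) (l 16772536)))))) (b (l 16777424) (l 16777536))) (a (b (a (l 16767280) (l 16767488)) (b (a (b (l 16767080) (a (b (l 16766976) (a (l 16761920) (l 16766968))) (l 16767056))) (l 16767248)) (a (b (a (b (l 16762576) (l 16769000)) (b (a (l 16767072) (l 16767016)) (c (l 16759824) (l 16759656)))) (l 16770096)) (b (l 16761896) (a (b (c (l 16764896) (l 16759504)) (l 16768400)) (b (l 16767128) (c (l 16764768) (l 16759408)))))))) (c (l 16764920) (a (l 16759768) (l 16760080)))))), by decide +kernel⟩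

def k168_B00pm_102_s1 : ∃ t, chk3 f_B00pm_102_s1 t 240 244 3 = true :=
  ⟨(c (a (c (l 535528207) (b (l 16755968) (l 16749832))) (c (l 535380239) (b (l 16757112) (l 16750976)))) (a (c (b (l 16750976) (l 16749856)) (b (l 16745904) (l 16744544))) (c (b (l 16752408) (l 16751280)) (b (l 16747624) (l 16746256))))), by decide +kernel⟩

def k169_B00pm_102_s1 : ∃ t, chk3 f_B00pm_102_s1 t 480 245 3 = true :=
  ⟨(b (c (c (l 16754296) (l 16748944)) (c (l 16748736) (a (l 16742776) (l 16743608)))) (c (b (a (b (l 16756160) (a (b (l 16755896) (a (c (l 16753608) (b (l 16747728) (l 16748040))) (l 16755864))) (l 16756088))) (l 16756544)) (a (b (a (a (l 16757712) (c (l 16754552) (c (l 16750336) (l 16747496)))) (a (b (b (l 16755904) (a (l 16756072) (l 16755920))) (l 16756800)) (b (l 16756000) (b (a (l 16756024) (l 16755960)) (l 16756376))))) (l 16748688)) (b (c (l 16753776) (a (l 16748096) (l 16753616))) (a (b (a (c (l 16754152) (l 16748552)) (b (l 16756080) (a (l 16756312) (l 16756120)))) (l 16757464)) (b (l 16756240)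 (a (c (l 16754008) (b (l 16748184) (l 16753832))) (b (l 16756224) (l 16753616)))))))) (b (a (b (l 16744832) (a (a (b (l 16744320) (b (c (l 16741952) (a (l 16736040) (l 16741296))) (c (l 16742264) (a (l 16741744) (l 16736200))))) (c (l 16742096) (l 16736248))) (l 16744712))) (c (l 16748248) (l 16742592))) (a (b (a (b (a (l 16745544) (b (a (l 16744616) (a (l 16744400) (l 16744344))) (l 16745080))) (l 16746536)) (b (a (b (l 16744424) (a (a (l 16744608) (l 16744480)) (l 16744424))) (l 16744568)) (a (l 16745336) (b (a (a (l 16744560) (l 16744488)) (l 16744504)) (c (l 16742576) (l 16736744)))))) (c (l 16750704) (l 16744928))) (b (b (l 16745048) (c (c (l 16743944) (l 16741088)) (c (l 16738208) (l 16735304)))) (a (b (a (b (c (l 16742528) (c (l 16738168) (l 16735240))) (l 16745456)) (b (l 16744688) (a (l 16744904) (a (l 16744720) (l 16744688))))) (l 16746112)) (b (l 16744936) (b (a (a (a (l 16744904) (l 16744800)) (l 16744784)) (l 16744912)) (a (l 16745280) (c (l 16742528) (a (l 16736736) (l 16741992)))))))))))),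 by decide +kernel⟩

def k170_B00pm_102_s1 : ∃ t, chk3 f_B00pm_102_s1 t 481 245 3 = true :=
  ⟨(c (c (b (l 16755160) (l 16754504)) (b (l 16750088) (l 16749200))) (c (b (l 16750160) (l 16749040)) (b (l 16744896) (a (l 16743104) (l 16738736))))), by decide +kernel⟩

def k171_B00pm_102_s1 : ∃ t, chk3 f_B00pm_102_s1 t 241 122 1 = true :=
  ⟨(c (a (c (b (l 536872207) (l 536620303)) (b (b (l 16769000) (l 16768672)) (b (l 16768344) (l 16762784)))) (c (b (l 536872719) (l 16772216)) (b (b (l 16769560) (l 16769224)) (b (l 16768904) (l 16768592))))) (c (a (b (c (l 16762320) (l 535001871)) (c (l 535524879) (b (l 16746048) (l 16750408)))) (b (c (l 16763304) (l 534992143)) (c (l 16759360) (l 535150095)))) (a (b (c (l 534761487) (b (l 16749432) (l 16748056))) (c (b (l 16751656) (l 16745288)) (b (l 16746688) (l 16745328)))) (b (c (l 534614799) (l 534230543)) (a (c (l 16752256) (l 16747392)) (b (l 16751328) (l 16750088))))))), by decide +kernel⟩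

def k172_B00pm_102_s1 : ∃ t, chk3 f_B00pm_102_s1 t 121 122 1 = true :=
  ⟨(c (a (a (c (b (l 536876303) (l 16772264)) (b (l 536172559) (b (l 16769504) (l 16769192)))) (c (b (l 536882959) (l 16772328)) (b (l 536175119) (l 535930895)))) (a (b (c (l 536892687) (l 536180751)) (c (l 536915727) (b (l 16770792) (l 16770488)))) (b (c (l 536905487) (l 536189199)) (c (l 536930063) (b (l 16771464) (l 16771160)))))) (a (c (a (b (c (l 16764336) (l 534985487)) (c (l 16760384) (l 535011087))) (b (c (l 16765408) (l 534981903)) (c (l 16764080) (l 535009295)))) (c (a (b (l 534605583) (l 534800143)) (b (l 534599439) (l 534762511))) (a (b (l 534218767) (b (l 16750472) (l 16749104))) (b (l 534210063) (l 534407951))))) (b (a (c (l 535305487) (a (l 534670607) (l 534669327))) (c (l 535175439) (a (l 534668815) (l 534669071)))) (a (c (a (l 535467023) (l 535469327)) (a (l 534701327) (l 534701071))) (c (a (l 535472143) (l 535475727)) (a (l 534701583) (l 534669327))))))), by decide +kernel⟩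

def k173_B00pm_102_s1 : ∃ t, chk3 f_B00pm_102_s1 t 120 246 4 = true :=
  ⟨(a (b (a (b (l 16772152) (l 16766400)) (b (a (b (a (l 16772888) (l 16777640)) (l 16768896)) (c (l 16769720) (l 16769960))) (a (l 16782832) (b (a (l 16779384) (l 16767760)) (l 16780992))))) (a (l 16773544) (l 16767488))) (b (a (a (b (l 16777600) (b (l 16777688) (b (l 16772816) (l 16768264)))) (l 16777640)) (l 16777656)) (a (a (l 16773464) (b (a (l 16774248) (b (a (l 16777824) (a (l 16777720) (l 16777728))) (b (l 16773248) (l 16779576)))) (l 16783304))) (b (b (l 16777744) (a (a (b (l 16777848) (l 16778248)) (l 16777800)) (l 16777792))) (a (b (a (l 16779856) (b (l 16772880) (l 16778928))) (l 16781472)) (b (a (l 16772776) (l 16777832)) (a (l 16768720) (b (l 16777992) (l 16773200))))))))), by decide +kernel⟩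

def k174_B00pm_102_s1 : ∃ t, chk3 f_B00pm_102_s1 t 120 246 5 = true :=
  ⟨(a (b (a (b (b (c (l 16763216) (l 16757912)) (l 16763080)) (l 16756368)) (b (a (b (a (b (a (l 16767312) (l 16767192)) (l 16762680)) (l 16767280)) (a (l 16769696) (b (c (l 16759904) (l 16759848)) (l 16768776)))) (b (l 16767448) (a (b (l 16767328) (c (l 16759768) (l 16759744))) (l 16767432)))) (a (l 16762216) (b (a (l 16769136) (b (c (l 16759680) (l 16759688)) (l 16768280))) (l 16770880))))) (a (l 16763968) (l 16768264))) (b (a (b (l 16767800) (a (b (a (l 16762288) (l 16767616)) (a (b (l 16762856) (l 16769200)) (b (l 16767568) (l 16762720)))) (l 16767776))) (l 16763040)) (a (b (a (l 16761112) (a (b (b (l 16762640) (l 16768688)) (l 16770552)) (a (b (l 16767808) (l 16769400)) (b (a (l 16767752) (l 16767784)) (b (b (c (l 16765208) (l 16760112)) (l 16768312)) (l 16769264)))))) (l 16764640)) (b (b (l 16768096) (a (a (b (l 16767912) (a (l 16768488) (l 16762808))) (l 16767976)) (l 16768168))) (a (b (a (l 16770008) (b (a (l 16763072)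 (l 16768048)) (l 16769088))) (l 16771768)) (b (a (b (l 16768040) (a (b (l 16768056) (l 16768320)) (l 16768080))) (l 16768168)) (c (a (l 16771928) (b (l 16760240) (l 16765936))) (a (l 16761712) (b (l 16760512) (a (l 16766464) (l 16760688))))))))))), by decide +kernel⟩

def k175_B00pm_102_s1 : ∃ t, chk3 f_B00pm_102_s1 t 120 247 2 = true :=
  ⟨(a (b (c (a (l 16762176) (l 16777072)) (a (l 16753216) (l 16767984))) (c (l 16789712) (l 16781320))) (b (a (c (l 16770992) (l 16761768)) (c (l 16775392) (b (l 16763528) (l 16758048)))) (c (a (l 16759480) (l 16774272)) (l 16768672)))), by decide +kernel⟩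

def k176_B00pm_102_s1 : ∃ t, chk3 f_B00pm_102_s1 t 240 246 3 = true :=
  ⟨(b (c (a (b (a (l 16752672) (c (l 16757504) (b (l 16750672) (l 16758584)))) (l 16756424)) (b (a (b (a (b (a (c (l 16753944) (b (l 16753480) (l 16748464))) (l 16756352)) (c (l 16754592) (a (l 16754576) (b (l 16748440) (l 16754128))))) (c (l 16754008) (c (l 16749904) (l 16747136)))) (a (l 16758952) (b (a (l 16757136) (b (l 16756480) (l 16756752))) (l 16758040)))) (b (l 16756888) (a (b (l 16756616) (a (b (l 16754088) (l 16757200)) (b (l 16756608) (l 16756696)))) (l 16756832)))) (a (l 16751688) (b (a (l 16753240) (b (a (a (l 16754336) (l 16754168)) (l 16756760)) (c (l 16755096) (l 16749672)))) (l 16760360))))) (a (b (a (l 16741560) (b (a (l 16748216) (a (l 16747000) (c (l 16749096) (l 16743360)))) (l 16750224))) (a (l 16757704) (l 16743984))) (b (a (b (a (b (a (b (l 16744968) (c (l 16742816) (c (l 16738504) (l 16735608)))) (l 16745112)) (a (l 16746096) (b (a (l 16745224) (l 16745088)) (l 16745656)))) (b (l 16745408) (a (b (l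 16745192) (c (l 16742824) (c (l 16738536) (l 16735656)))) (l 16745352)))) (a (l 16747808) (b (a (c (l 16743528) (l 16737824)) (b (a (l 16745240) (l 16745288)) (c (l 16743144) (l 16737440)))) (l 16746896)))) (b (l 16745936) (a (b (l 16745496) (a (a (l 16745928) (b (l 16745408) (l 16745848))) (a (b (l 16745432) (l 16745568)) (l 16745504)))) (l 16745824)))) (a (c (l 16754008) (l 16748448)) (b (a (c (l 16750232) (l 16744600)) (b (a (b (c (l 16743168) (l 16737512)) (a (l 16746048) (l 16745752))) (l 16745704)) (a (l 16746912) (b (c (l 16743464) (l 16737832)) (l 16746456))))) (l 16749440)))))) (a (c (l 16754000) (a (l 16745272) (l 16742040))) (c (b (l 16755480) (l 16750392)) (c (l 16750344) (l 16745000))))), by decide +kernel⟩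

def k177_B00pm_102_s1 : ∃ t, chk3 f_B00pm_102_s1 t 241 492 3 = true :=
  ⟨(a (c (a (b (l 16757328) (b (a (b (l 16756952) (a (b (l 16756816) (l 16756944)) (l 16756928))) (l 16757176)) (a (b (a (l 16757728) (c (l 16754624) (l 16749224))) (l 16758664)) (b (l 16757048) (a (l 16757560) (b (l 16757032) (l 16757216))))))) (l 535490063)) (a (b (l 16746600) (b (a (a (b (l 16745904) (a (b (l 16745736) (l 16745936)) (l 16745816))) (l 16746032)) (l 16746344)) (a (b (a (l 16746728) (b (c (l 16743488) (l 16737880)) (l 16746320))) (l 16747736)) (b (c (l 16743648) (l 16738088)) (a (c (l 16744144) (l 16738568)) (b (l 16746104) (c (l 16743808) (l 16738240)))))))) (b (l 16747432) (l 16746816)))) (c (b (l 16758728) (l 16755720)) (c (l 16745736) (l 16745824)))), by decide +kernel⟩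

def k178_B00pm_102_s1 : ∃ t, chk3 f_B00pm_102_s1 t 482 493 3 = true :=
  ⟨(b (c (a (c (l 16763872) (l 16758592)) (a (b (b (a (b (l 16757208) (l 16757616)) (l 16757224)) (l 16758248)) (l 16760232)) (b (b (l 16757400) (a (b (l 16757272) (l 16757504)) (a (l 16757336) (l 16757408)))) (b (a (l 16758376) (b (a (b (l 16754800) (l 16757624)) (b (l 16757344) (l 16757392))) (l 16757928))) (l 16759328))))) (a (c (l 16753224) (l 16747744)) (a (b (b (a (b (c (l 16743824) (l 16738264)) (l 16746728)) (c (l 16743872) (l 16738344))) (c (l 16744920) (l 16739400))) (l 16749504)) (b (b (l 16746640) (a (b (l 16746440) (l 16746664)) (a (l 16746536) (l 16746648)))) (b (a (l 16747584) (b (a (b (a (l 16746584) (l 16746520)) (l 16746808)) (b (l 16746552) (l 16746584))) (l 16747144))) (l 16748608)))))) (c (a (l 16766632) (l 16753000)) (c (l 16746752) (l 16741424)))), by decide +kernel⟩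

def k179_B00pm_102_s1 : ∃ t, chk3 f_B00pm_102_s1 t 483 493 3 = true :=
  ⟨(b (a (b (c (l 16757776) (l 16747208)) (c (a (b (a (l 16754904) (l 16757560)) (a (l 16755520) (b (l 16757552) (l 16755160)))) (l 16757752)) (a (b (a (b (l 16746688) (c (l 16744232) (l 16738744))) (l 16746864)) (a (c (l 16744880) (l 16739408)) (b (l 16746824) (a (l 16747152) (c (l 16744384) (l 16738920)))))) (l 16747144)))) (c (l 16758256) (l 16747920))) (c (a (a (l 16750632) (b (b (a (b (c (l 16755136) (l 16749888)) (l 16758256)) (b (l 16757680) (c (l 16755144) (l 16749912)))) (a (l 16759272) (l 16758480))) (l 16760888))) (b (a (b (l 16757872) (a (b (l 16757824) (l 16755464)) (l 16757896))) (l 16758120)) (a (b (a (l 16759048) (b (a (l 16758136) (l 16757936)) (l 16758608))) (l 16760000)) (b (a (a (b (l 16757904) (l 16758088)) (l 16758000)) (l 16758056)) (a (l 16758824) (b (a (l 16758088) (l 16758040)) (l 16755792))))))) (a (b (a (l 16749144) (b (a (b (a (l 16747104) (l 16746960)) (l 16747584)) (a (b (l 16746976) (a (l 16747120)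 (l 16747040))) (l 16747080))) (c (l 16745680) (l 16740272)))) (l 16745936)) (b (a (b (l 16747320) (a (b (a (c (l 16744608) (l 16739184)) (l 16747144)) (a (l 16747616) (c (l 16744752) (l 16739344)))) (l 16747320))) (l 16747680)) (a (b (a (l 16748480) (b (a (l 16747528) (a (l 16747336) (l 16747296))) (l 16748040))) (l 16749496)) (b (a (b (l 16747384) (a (b (l 16747376) (l 16747624)) (l 16747416))) (l 16747560)) (a (b (l 16747944) (l 16748664)) (a (b (b (l 16747448) (l 16747576)) (l 16748072)) (b (l 16747512) (b (l 16747584) (l 16747856))))))))))), by decide +kernel⟩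

def k180_B00pm_102_s1 : ∃ t, chk3 f_B00pm_102_s1 t 120 247 3 = true :=
  ⟨(a (a (b (c (l 16764856) (l 16755152)) (l 16771336)) (b (c (l 16758520) (l 16748680)) (c (l 16748456) (l 16760248)))) (b (a (c (a (l 16753776) (l 16750568)) (a (l 16743832) (l 16751040))) (b (c (c (l 16756136) (l 16751096)) (c (l 16745952) (l 16740712))) (c (l 16758952) (a (l 16761096) (l 16747392))))) (a (c (l 16762888) (l 16753568)) (c (l 16756432) (l 16757448))))), by decide +kernel⟩

def k181_B00pm_102_s1 : ∃ t, chk3 f_B00pm_102_s1 t 121 246 2 = true :=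
  ⟨(c (a (a (b (l 16777712) (l 16772704)) (l 536656655)) (a (b (l 16777880) (l 16778048)) (l 536551439))) (c (a (b (l 16766136) (a (l 16765792) (l 16771448))) (a (l 16766816) (l 16767352))) (c (a (b (l 16762880) (a (l 16762256) (l 16768128))) (b (l 16764352) (l 16764016))) (a (b (l 16760680) (a (l 16759872) (l 16765888))) (a (l 16761760) (l 16762664)))))), by decide +kernel⟩

def k182_B00pm_102_s1 : ∃ t, chk3 f_B00pm_102_s1 t 242 247 2 = true :=
  ⟨(b (c (a (b (a (b (a (b (l 16773064) (l 16779216)) (b (l 16777936) (l 16772976))) (l 16769720)) (b (l 16777976) (a (b (l 16778160) (l 16778680)) (l 16778128)))) (b (a (l 16782584) (a (l 16780392) (b (l 16773280) (l 16779520)))) (l 16762472))) (b (l 16778072) (a (b (a (b (l 16778112) (l 16773184)) (l 16778128)) (a (l 16779784) (b (l 16778368) (l 16778960)))) (l 16773080)))) (a (b (a (b (a (b (a (l 16763496) (b (l 16768272) (l 16768440))) (l 16769592)) (b (l 16768352) (a (b (l 16768424) (l 16768776)) (l 16768440)))) (c (l 16773096) (l 16762992))) (b (l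 16768576) (a (b (a (b (l 16768456) (l 16768648)) (l 16768496)) (a (l 16769472) (b (l 16768624) (l 16769032)))) (b (l 16768608) (l 16763424))))) (a (l 16774448) (b (a (l 16770960) (b (a (l 16769224) (b (l 16768648) (l 16768864))) (l 16770096))) (l 16772696)))) (b (l 16769032) (a (b (a (b (l 16768728) (a (b (l 16768840) (l 16769296)) (l 16763584))) (l 16768848)) (a (l 16765208) (b (a (b (l 16768848) (l 16769104)) (l 16768880)) (c (l 16766760) (l 16762008))))) (a (a (b (l 16768976) (c (l 16766152) (l 16761416))) (l 16769024)) (l 16769152)))))) (c (a (l 16768272) (b (b (a (l 16781408) (a (b (l 16773536) (l 16779832)) (b (l 16778320) (l 16773416)))) (l 16771784)) (l 16764736))) (a (l 16769888) (b (a (l 16762952) (b (a (b (a (l 16769752) (b (l 16769056) (l 16769352))) (l 16770624)) (b (l 16769128) (a (l 16764320) (b (l 16769112) (l 16769272))))) (l 16761248))) (l 16766376))))), by decide +kernel⟩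

def k183_B00pm_102_s1 : ∃ t, chk3 f_B00pm_102_s1 t 243 247 2 = true :=
  ⟨(c (a (b (l 16778232) (b (a (b (l 16778320) (a (b (l 16773352) (l 16779272)) (l 16778544))) (l 16778408)) (a (b (a (l 16781000) (l 16774344)) (l 16782568)) (b (a (b (l 16778544) (l 16773688)) (l 16778536)) (a (l 16780464) (b (l 16773608) (l 16779616))))))) (b (l 16778352) (b (l 16778512) (a (b (l 16778560) (a (l 16773536) (l 16778632))) (l 16778656))))) (a (b (b (l 16769712) (l 16769584)) (b (a (b (l 16769312) (a (b (a (b (l 16769272) (l 16769616)) (l 16769296)) (l 16764920)) (b (l 16769352) (a (c (l 16766536) (l 16761888)) (l 16769368))))) (l 16769624)) (a (b (a (l 16772000) (b (a (l 16770320) (b (l 16769504) (l 16769896))) (l 16771176))) (l 16773712)) (b (a (b (l 16764312) (a (l 16770088) (a (l 16764464) (l 16769608)))) (l 16769648)) (a (l 16771560) (b (a (b (l 16769736) (l 16770184)) (l 16764496)) (l 16770720))))))) (a (b (l 16770168) (b (l 16769976) (b (l 16769888) (a (b (l 16769752) (a (b (l 16764528) (l 16770016))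 (l 16769808))) (l 16769920))))) (b (l 16770520) (l 16770272))))), by decide +kernel⟩

def k184_B00pm_102_s1 : ∃ t, chk3 f_B00pm_102_s1 t 121 246 3 = true :=
  ⟨(c (c (c (a (b (l 16758456) (a (b (l 16762760) (l 16757288)) (l 16763624))) (a (l 16759696) (l 16760760))) (a (a (b (l 16760880) (b (l 16760360) (l 16754824))) (l 535315471)) (a (l 16757616) (l 16758832)))) (a (a (b (l 16752120) (b (l 16756712) (a (b (l 16756048) (l 16750648)) (l 16756608)))) (b (l 16753488) (l 535142159))) (a (b (l 16754896) (l 16754032)) (b (l 16756336) (l 16755472))))) (c (a (a (b (l 16747352) (a (a (b (l 16751144) (c (l 16746712) (l 16744104))) (l 16751280)) (l 16746656))) (a (l 534722319) (l 534654991))) (a (a (l 534655247) (l 534656527)) (a (l 534658319) (l 534661135)))) (a (a (b (l 16747744) (b (l 16741480) (a (b (l 16745728) (a (c (l 16741304) (l 16738624)) (l 16745632))) (l 16746536)))) (b (l 16749720) (a (l 16742616) (l 16743616)))) (a (a (l 534333455) (l 534366735)) (a (l 534333967) (l 534268431)))))), by decide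 +kernel⟩

def k185_B00pm_102_s1 : ∃ t, chk3 f_B00pm_102_s1 t 484 988 3 = true :=
  ⟨(a (c (b (a (b (a (b (a (l 16758480) (l 16755616)) (l 16758960)) (b (l 16758208) (a (l 16758408) (l 16758264)))) (l 16759568)) (b (l 16758384) (a (b (a (l 16755768) (l 16758312)) (l 16758752)) (c (l 16755744) (l 16750648))))) (a (l 16761568) (b (a (l 16759752) (b (a (l 16758848) (l 16755928)) (l 16759320))) (l 16760696)))) (b (a (b (a (a (l 16748336) (b (b (l 16747640) (l 16747792)) (l 16748304))) (b (l 16747760) (c (a (l 16745352) (l 16745208)) (a (l 16740016) (c (l 16741224) (l 16738536)))))) (c (l 16751800) (l 16746496))) (b (l 16748024) (a (a (b (b (l 16747840) (l 16748016)) (l 16748544)) (b (l 16747896) (b (l 16748008) (l 16748328)))) (b (l 16748024) (a (c (l 16745400) (c (l 16741432) (l 16738752))) (l 16748008)))))) (a (l 16751272) (b (a (l 16749400) (b (a (l 16748464) (b (a (l 16748040) (l 16748000)) (l 16748248))) (l 16748968))) (l 16750416))))) (c (b (l 16758792) (a (b (a (b (l 16758496) (a (l 16758752)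 (l 16755936))) (l 16758584)) (a (l 16759552) (b (a (l 16756088) (b (l 16758560) (l 16753360))) (l 16759112)))) (a (a (b (l 16758688) (b (l 16758624) (l 16756088))) (l 16758736)) (l 16758832)))) (b (l 16748624) (a (b (a (a (b (b (l 16748056) (l 16748080)) (b (l 16748224) (l 16748560))) (b (l 16748152) (b (l 16748120) (a (l 16748272) (l 16748160))))) (l 16748296)) (a (l 16749248) (c (b (a (c (l 16747056) (l 16744448)) (l 16745656)) (l 16751424)) (b (b (c (l 16741712) (l 16739064)) (a (l 16745840) (l 16745632))) (l 16746176))))) (b (l 16748624) (a (a (a (b (l 16748312) (b (l 16748296) (l 16748512))) (b (l 16748368) (b (l 16748304) (l 16748376)))) (l 16748432)) (l 16748584))))))), by decide +kernel⟩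

def k186_B00pm_102_s1 : ∃ t, chk3 f_B00pm_102_s1 t 484 989 3 = true :=
  ⟨(a (c (l 16754280) (c (l 16757256) (l 16752128))) (c (b (c (a (l 16763640) (b (a (l 16756608) (b (l 16761288) (l 16756264))) (l 16762784))) (a (l 16758640) (b (a (l 16751576) (b (l 16751016) (a (l 16756584) (l 16751104)))) (l 16757784)))) (l 16752544)) (a (c (l 16754920) (l 16749768)) (b (b (a (a (l 16749288) (b (a (l 16748648) (b (l 16748400) (l 16748632))) (l 16749256))) (a (b (a (b (l 16748400) (l 16748480)) (l 16748464)) (l 16748864)) (b (l 16748520) (b (a (l 16748504) (l 16748504)) (a (l 16748752) (l 16748592)))))) (l 16750112)) (l 16752200))))), by decide +kernel⟩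

def k187_B00pm_102_s1 : ∃ t, chk3 f_B00pm_102_s1 t 485 988 3 = true :=
  ⟨(c (a (l 16759312) (l 16759936)) (a (c (l 16751904) (l 16746840)) (b (l 16750464) (l 16750152)))), by decide +kernel⟩

def k188_B00pm_102_s1 : ∃ t, chk3 f_B00pm_102_s1 t 485 989 6 = true :=
  ⟨(a (b (a (b (l 16758952) (a (b (a (l 16756424) (c (l 16761400) (l 16751144))) (l 16759488)) (b (l 16758936) (a (b (l 16753688) (l 16759096)) (l 16753720))))) (l 16759192)) (a (c (l 16757952) (l 16753000)) (b (c (a (b (l 16756320) (l 16756584)) (l 16761640)) (a (b (a (l 16751312) (l 16756544)) (a (l 16757000) (l 16751456))) (l 16756688))) (a (l 16760296) (b (a (l 16759408) (c (l 16761688) (l 16751488))) (l 16759872)))))) (b (l 16759664) (a (b (l 16759368) (a (c (b (l 16761680) (l 16756568)) (a (b (l 16756704) (l 16751640)) (l 16751568))) (l 16759352))) (l 16759632)))), by decide +kernel⟩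

def k189_B00pm_102_s1 : ∃ t, chk3 f_B00pm_102_s1 t 485 989 7 = true :=
  ⟨(a (b (b (c (l 16746344) (c (l 16747736) (l 16745144))) (a (a (b (c (a (b (l 16751272) (l 16751560)) (b (l 16751216) (l 16746040))) (a (c (l 16742272) (l 16739648)) (b (l 16746016) (c (l 16747392) (l 16739520))))) (l 16749296)) (b (l 16748768) (b (c (l 16746112) (c (l 16742232) (l 16739616))) (a (l 16748904) (c (l 16751352) (l 16746168)))))) (l 16749080))) (a (a (l 16751048) (a (l 16750472) (b (b (c (l 16746392) (c (l 16742512) (l 16739896))) (l 16749736)) (l 16750784)))) (b (b (b (c (l 16751560) (l 16746416)) (a (a (a (l 16748936) (c (l 16751432) (l 16746256))) (l 16748888)) (l 16749056))) (a (a (l 16749360) (b (c (l 16746272) (c (l 16747640) (l 16739792))) (l 16749144))) (c (l 16746368) (c (l 16742512) (l 16739920))))) (a (l 16750208) (a (c (l 16746944) (c (l 16743096) (l 16740496))) (a (b (b (c (l 16751568) (l 16746416)) (l 16749176)) (l 16749696)) (b (c (l 16751632) (c (l 16747784) (l 16745184))) (l 16749504))))))))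 (a (b (l 16749616) (b (l 16749384) (b (l 16749280) (a (b (a (a (l 16749160) (c (l 16751664) (l 16746528))) (l 16749152)) (a (l 16749392) (c (l 16751744) (c (l 16747904) (l 16745312))))) (l 16749312))))) (b (l 16750080) (l 16749776)))), by decide +kernel⟩

def k190_B00pm_102_s1 : ∃ t, chk3 f_B00pm_102_s1 t 242 495 3 = true :=
  ⟨(a (c (a (l 16751712) (l 16759104)) (c (l 16753472) (l 16748576))) (b (c (a (a (l 16754208) (l 16752704)) (b (a (b (a (b (l 16759768) (l 16760432)) (b (c (l 16756608) (a (l 16751656) (l 16756872))) (a (l 16759880) (l 16756920)))) (l 16761040)) (b (a (c (l 16761920) (l 16751776)) (l 16759576)) (a (b (a (l 16759784) (b (l 16754208) (l 16754352))) (l 16760256)) (b (l 16754288) (a (l 16757104) (c (l 16762016) (l 16751888))))))) (c (l 16764656) (l 16759824)))) (a (c (l 16756568) (l 16751536)) (b (a (b (a (c (l 16747360) (b (l 16741896) (l 16747856))) (a (a (b (b (c (l 16751768) (l 16746640)) (l 16749424)) (l 16749944)) (b (b (l 16749224) (c (l 16751840) (l 16746712))) (l 16749752)))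 (b (c (l 16751856) (l 16746744)) (a (c (l 16752104) (l 16746992)) (b (c (l 16751864) (l 16746752)) (l 16749552)))))) (l 16751080)) (b (a (a (b (l 16749408) (b (l 16749352) (c (l 16746704) (c (l 16742880) (l 16740304))))) (l 16749488)) (l 16749664)) (a (b (b (a (l 16749608) (c (l 16751984) (l 16744264))) (c (l 16747056) (a (l 16747400) (l 16744416)))) (l 16750288)) (b (c (l 16752096) (l 16747024)) (b (a (a (l 16747016) (c (l 16752072) (l 16746984))) (l 16749560)) (a (l 16749896) (a (c (l 16752160) (l 16747080)) (c (l 16752104) (l 16747024))))))))) (c (l 16754888) (l 16749864))))) (c (c (l 16769984) (l 16754800)) (c (l 16750008) (l 16745128))))), by decide +kernel⟩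

def k191_B00pm_102_s1 : ∃ t, chk3 f_B00pm_102_s1 t 486 494 3 = true :=
  ⟨(c (c (l 16757728) (a (l 16752816) (l 16753528))) (a (c (l 534675215) (l 534353679)) (c (l 16748960) (l 534287119)))), by decide +kernel⟩

def k192_B00pm_102_s1 : ∃ t, chk3 f_B00pm_102_s1 t 486 990 3 = true :=
  ⟨(c (a (b (l 16759928) (a (b (a (b (c (l 16756904) (a (c (l 16753248) (l 16750784)) (l 16757208))) (l 16757456)) (c (l 16756960) (b (l 16757304) (a (l 16752064) (l 16757296))))) (a (l 16761056) (b (a (l 16760176) (b (c (l 16762192) (l 16757336)) (l 16759968))) (l 16760640)))) (b (l 16759952) (b (c (l 16762320) (l 16752264)) (a (a (l 16760096) (c (l 16762320) (l 16752240))) (l 16759928)))))) (l 16757856)) (a (b (c (l 16752648) (l 16747680)) (a (b (a (b (b (a (a (c (l 16752176) (l 16747096)) (l 16747008)) (l 16749704)) (a (c (l 16752360) (l 16747288)) (c (l 16752232) (l 16747168)))) (a (l 16750352) (a (l 16750064) (b (c (l 16752280) (l 16747216)) (l 16750056))))) (b (l 16749864) (a (b (c (l 16752280) (l 16747232))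 (a (c (l 16752384) (l 16747328)) (c (l 16752312) (l 16747256)))) (l 16749848)))) (a (l 16751192) (b (a (l 16750288) (c (b (c (l 16753632) (l 16751136)) (l 16752592)) (b (a (l 16747344) (l 16747312)) (l 16747552)))) (l 16750792)))) (b (l 16747560) (a (b (a (c (l 16747200) (b (l 16747384) (l 16744776))) (l 16750008)) (b (a (c (l 16752576) (l 16744920)) (c (l 16752480) (l 16747456))) (a (l 16750400) (a (a (l 16750168) (l 16747448)) (c (l 16752512) (l 16747488)))))) (c (l 16752640) (l 16747648)))))) (c (l 16753376) (l 16748536)))), by decide +kernel⟩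

def k193_B00pm_102_s1 : ∃ t, chk3 f_B00pm_102_s1 t 972 991 3 = true :=
  ⟨(a (c (l 16753440) (c (l 16756712) (l 16751784))) (c (b (b (a (l 16760880) (b (c (l 16757208) (a (l 16752400) (l 16757552))) (l 16760464))) (l 16761808)) (l 16763744)) (b (b (a (l 16751072) (b (b (a (a (c (l 16752608) (l 16747592)) (c (l 16752552) (l 16747536))) (l 16750112)) (a (l 16747712) (c (l 16747392) (c (l 16748888) (l 16741120))))) (c (l 16753144) (c (l 16749408) (l 16746888))))) (l 16752072)) (l 16754128)))), by decide +kernel⟩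

def k194_B00pm_102_s1 : ∃ t, chk3 f_B00pm_102_s1 t 973 991 3 = true :=
  ⟨(c (b (a (b (a (b (l 16760032) (c (l 16757248) (a (c (l 16753632) (l 16751208)) (l 16757640)))) (l 16760168)) (c (a (l 16757848) (b (l 16762544) (l 16757520))) (a (c (l 16754264) (l 16751848)) (b (l 16752520) (a (l 16758080) (c (l 16753816) (l 16751400))))))) (c (l 16762744) (l 16758024))) (a (l 16762280) (b (a (b (c (c (l 16758696) (l 16756344)) (a (l 16752792) (l 16752664))) (l 16760864)) (b (l 16760336) (c (l 16757552) (a (c (l 16753992) (l 16751592)) (l 16757984))))) (c (l 16758560) (l 16753832))))) (b (a (b (a (b (l 16750264) (b (c (l 16752728) (l 16745120)) (c (a (l 16747552) (l 16752728)) (a (c (l 16749064) (l 16741296)) (l 16747744))))) (l 16750464)) (a (a (l 16751136) (b (a (c (l 16752992) (l 16748008)) (b (c (l 16752760) (l 16747776)) (l 16750504))) (l 16751112))) (a (b (b (l 16750312) (a (c (l 16752840) (l 16747856)) (c (l 16752808) (l 16747832)))) (c (l 16753208) (l 16748232))) (a (b (l 16750384) (b (c (l 16752864)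 (l 16747888)) (l 16750632))) (b (l 16750440) (b (l 16750392) (c (l 16752952) (l 16747984)))))))) (c (l 16747968) (b (l 16748368) (l 16745608)))) (a (c (l 16755080) (l 16750168)) (b (a (b (b (a (a (a (l 16750648) (l 16747936)) (c (l 16752968) (l 16748008))) (l 16750528)) (a (l 16750856) (a (c (l 16753064) (l 16748104)) (c (l 16753008) (l 16748056))))) (c (l 16753632) (l 16748696))) (b (l 16750680) (c (a (b (l 16747848) (l 16753256)) (l 16753152)) (b (a (c (l 16749392) (l 16741656)) (l 16748208)) (a (l 16748320) (l 16748208)))))) (a (l 16752208) (a (l 16751648) (b (a (l 16751032) (b (c (l 16753184) (l 16748256)) (l 16751016))) (l 16751624)))))))), by decide +kernel⟩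

def k195_B00pm_102_s1 : ∃ t, chk3 f_B00pm_102_s1 t 487 247 3 = true :=
  ⟨(c (a (b (l 535319311) (b (l 16761128) (b (l 16760856) (a (a (b (l 16760480) (b (c (l 16757608) (a (l 16752848) (l 16758080))) (a (l 16760896) (b (c (l 16762848) (l 16758120)) (l 16760688))))) (c (l 16762968) (l 16753040))) (l 16760840))))) (b (l 535257359) (b (l 16761784) (l 16761424)))) (c (b (b (l 16750552) (l 16750008)) (a (b (l 16754256) (b (l 16753848) (a (b (l 16753424) (a (b (a (b (l 16753192) (c (l 16754488) (l 16752048))) (l 16753264)) (a (l 16753696) (b (c (l 16754512) (l 16752080)) (l 16753496)))) (c (l 16754648) (l 16746984)))) (l 16753800)))) (l 534696207))) (b (c (l 16746968) (l 16744736)) (a (b (l 16749568) (b (l 16749064) (a (b (l 16748552) (a (b (a (b (l 16748272) (a (l 16748368) (l 16748296))) (l 16748360)) (a (l 16748784) (b (a (l 16748376) (l 16748352)) (l 16748584)))) (b (l 16748552) (a (c (l 16749688) (l 16741968)) (l 16748536))))) (l 16748984)))) (b (l 16750608) (l 16749936)))))), by decide +kernel⟩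

def k196_B00pm_102_s1 : ∃ t, chk3 f_B00pm_102_s1 t 122 30 2 = true :=
  ⟨(b (a (b (a (c (b (l 536795663) (l 536831759)) (b (l 536068111) (l 536104207))) (c (b (l 536808719) (l 536846607)) (b (l 536076559) (l 536114447)))) (a (c (b (l 536865551) (l 536894479)) (b (l 536138767) (l 536170767))) (b (c (l 536881935) (l 536150543)) (c (l 536911887) (l 536183823))))) (b (a (c (b (l 536825103) (l 536864527)) (b (l 536088079) (l 536127759))) (c (l 536596751) (b (l 536102927) (l 536144399)))) (a (b (c (l 536901135) (l 536165391)) (c (l 536932111) (l 536200207))) (b (c (l 536924175) (l 536183567)) (c (l 536953359) (l 536218895)))))) (a (b (a (b (c (l 536921359) (l 536200975)) (c (l 536947215) (b (l 16769528) (l 16769224)))) (b (c (l 536939791) (l 536215823)) (c (l 536967695) (l 535977999)))) (a (b (c (l 536704783) (b (l 16771568) (l 16766056))) (a (c (l 16778552) (l 536012303)) (c (l 16778616) (l 536021519)))) (b (c (l 536727311) (b (l 16772264) (l 16772000))) (c (b (l 16778600) (l 16778832)) (b (l 16766520)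 (l 16766296)))))) (b (a (b (c (l 536961295) (l 536233487)) (c (l 536991503) (l 535997711))) (b (c (l 536986895) (l 536254735)) (c (l 537019151) (l 536289295)))) (a (b (c (l 536752911) (b (l 16772952) (l 16772696))) (a (c (l 16773552) (l 536322319)) (c (l 16773592) (l 536334095)))) (b (c (l 537050383) (b (l 16771000) (l 536330767))) (c (l 536808719) (b (l 16770528) (l 16770312)))))))), by decide +kernel⟩

def k197_B00pm_102_s1 : ∃ t, chk3 f_B00pm_102_s1 t 122 60 3 = true :=
  ⟨(a (b (a (c (b (l 535311375) (l 535347471)) (b (l 534525455) (l 534561295))) (c (b (l 535314703) (l 535352591)) (b (l 534523407) (l 534560783)))) (a (c (b (l 535382543) (l 535417359)) (b (l 534596879) (l 534634511))) (c (b (l 535389199) (l 535426063)) (b (l 534598159) (l 534638095))))) (b (a (c (b (a (l 535318799) (l 535322895)) (l 535360783)) (b (a (l 534523407) (l 534524687)) (l 534563343))) (c (b (l 535330831) (l 535372047)) (b (l 534528527) (l 534568975)))) (a (b (c (l 535399183) (l 534602767)) (c (l 535169551) (a (l 534642703)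 (l 534647311)))) (b (c (l 535412239) (a (l 534607887) (l 534612751))) (a (c (l 535448591) (l 534652687)) (c (l 535456783) (l 534658319))))))), by decide +kernel⟩

def k198_B00pm_102_s1 : ∃ t, chk3 f_B00pm_102_s1 t 122 61 3 = true :=
  ⟨(a (b (a (c (b (a (l 535448591) (l 535452943)) (a (l 535480335) (l 535485711))) (b (a (l 534670351) (l 534672399)) (a (l 534704911) (l 534707983)))) (c (b (a (l 535458319) (l 535464207)) (a (l 535491599) (l 535498511))) (b (a (l 534675215) (l 534679055)) (a (l 534711567) (l 534716175))))) (c (a (b (a (b (l 16764456) (l 16763712)) (l 535382031)) (a (b (l 535263247) (l 535344143)) (b (l 16761024) (l 535283983)))) (b (a (l 535523087) (l 535530767)) (a (b (l 16764304) (l 16760968)) (b (l 16764968) (l 16764264))))) (a (b (a (b (l 534729743) (l 534610703)) (b (l 534733071) (l 534480399))) (a (b (c (l 16751616) (l 16747432)) (c (l 16750520) (l 534307343))) (b (l 534696719) (c (l 16751416) (l 16747144))))) (b (a (b (l 534468879) (l 534485007)) (b (l 16760168) (l 534490127)))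 (a (b (l 534634511) (b (l 16755816) (l 16755216))) (b (l 534505743) (l 534654991))))))) (b (a (c (b (a (l 535471119) (l 535478543)) (a (l 535505935) (l 535514127))) (b (a (l 534683663) (l 534688527)) (a (l 534721039) (l 534726671)))) (c (b (l 535491599) (a (l 535523087) (l 535532815))) (b (a (l 534694159) (l 534700303)) (a (l 534733071) (l 534739727))))) (c (a (b (a (l 535538959) (l 535548175)) (a (b (l 16765632) (l 16762304)) (b (l 16766296) (l 16765600)))) (b (a (l 535557903) (l 535568399)) (a (l 535323663) (l 535335951)))) (a (b (a (l 534688783) (l 534761999)) (a (b (l 534512143) (l 534661903)) (b (l 534519055) (l 534536975)))) (b (a (l 534768911) (l 534777103)) (a (b (l 534528015) (l 534548495)) (c (l 534749455) (l 534348559)))))))), by decide +kernel⟩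

def k199_B00pm_102_s1 : ∃ t, chk3 f_B00pm_102_s1 t 123 60 1 = true :=
  ⟨(c (b (a (a (b (l 3) (c (l 536643599) (l 535896079))) (l 3)) (l 3)) (a (a (b (a (l 536035855) (l 536317967)) (a (l 536340495) (l 536354575))) (b (l 535803663) (c (l 537016079) (l 536269327)))) (a (b (c (l 537014287) (l 536257807)) (c (l 537051407) (l 536298767))) (b (l 3) (c (l 537086991) (l 536330767)))))) (a (b (a (b (l 3) (b (l 3) (a (l 534991119) (l 534897935)))) (l 3)) (a (b (c (a (l 535424271) (l 535432463)) (a (l 534619919) (l 534624015))) (a (c (l 535465487) (l 534664207)) (c (l 535474703) (l 534669839)))) (c (b (l 535447055) (l 535490575)) (b (l 534632975) (l 534680079))))) (b (l 3) (a (c (a (l 535484175) (l 535496207)) (b (l 534647823) (l 534696975))) (b (l 3) (a (l 535126799) (l 535140879))))))), by decide +kernel⟩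

def k200_B00pm_102_s1 : ∃ t, chk3 f_B00pm_102_s1 t 123 61 1 = true :=
  ⟨(c (a (b (a (b (c (l 537017359) (l 536279567)) (c (l 537050895) (l 536315663))) (b (a (l 536406287) (l 536422415)) (c (l 537083407) (l 536344335)))) (a (b (c (l 537080079) (a (l 536342031) (l 536355855))) (c (l 536835855) (a (l 536372751) (l 536387087)))) (b (c (l 537109775) (l 536109839)) (c (l 536865551) (a (l 536401935) (l 536417295)))))) (c (a (b (b (l 537085455) (l 537114383)) (b (l 537140239) (l 536896783))) (b (b (l 537117967) (l 537145615)) (b (l 537172239) (l 536929551)))) (b (a (b (l 536338191) (l 536374543)) (b (l 536369935) (l 536407055))) (a (b (l 536140815) (a (l 536433423) (l 536450319))) (b (l 536174607) (a (l 536467727) (l 536485903))))))) (a (c (b (a (b (l 535242255) (a (l 535543055) (l 535554063))) (b (l 535264015) (l 535305231))) (a (b (a (l 535580175) (l 535592975)) (a (l 535349519) (l 535363599))) (b (a (l 535607055) (l 535621903)) (a (l 535378447) (l 535394063))))) (b (a (b (a (l 534706703) (l 534713103))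 (a (l 534746639) (l 534754575))) (b (a (l 534720527) (l 534728719)) (a (l 534764303) (l 534776335)))) (a (b (a (l 534787087) (l 534798607)) (a (c (l 534762767) (l 534361615)) (l 534711311))) (b (a (l 534543631) (l 534558479)) (a (l 534725903) (l 534607631)))))) (b (a (c (b (l 535289871) (l 535602959)) (a (a (l 534760463) (l 534767119)) (l 534777871))) (a (c (l 535602447) (l 534793743)) (c (l 535619343) (l 534810895)))) (a (c (b (b (l 535636239) (l 535657487)) (a (l 535410703) (l 535428367))) (b (a (l 534574351) (l 534591247)) (a (l 534624783) (l 534642959)))) (c (b (b (l 535670799) (l 535693071)) (a (l 535446799) (l 535465999))) (b (a (l 534609423) (l 534628623)) (a (l 534662159) (l 534682639)))))))), by decide +kernel⟩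

def k201_B00pm_102_s1 : ∃ t, chk3 f_B00pm_102_s1 t 120 124 1 = true :=
  ⟨(c (a (a (b (l 16792064) (b (l 16760936) (l 16796472))) (b (b (l 16771400) (l 16770328)) (l 16760616))) (b (b (c (l 16765696) (l 16778616)) (l 16792224)) (l 16785608))) (b (a (b (c (l 16783472) (a (l 16757512) (l 16750768))) (c (l 16773304) (l 16786520))) (b (c (l 16770224) (l 16761488)) (c (l 16759760) (l 16751680)))) (a (b (a (l 16774168) (l 16776912)) (l 16768080)) (a (l 16775272) (b (l 16763128) (l 16773712)))))), by decide +kernel⟩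

def k202_B00pm_102_s1 : ∃ t, chk3 f_B00pm_102_s1 t 121 248 2 = true :=
  ⟨(a (b (c (a (l 16777480) (l 16771576)) (a (l 16769224) (l 16763192))) (c (l 16783584) (a (l 16757992) (l 16772856)))) (c (b (a (l 16776328) (b (a (b (a (l 16769432) (b (l 16778792) (l 16773984))) (l 16781504)) (b (l 16778800) (a (b (l 16773888) (l 16779992)) (l 16773792)))) (a (l 16784856) (l 16771560)))) (a (l 16774808) (l 16769160))) (b (a (b (l 16765416) (l 16759736)) (b (a (b (a (a (l 16771488) (c (l 16767768) (l 16763272))) (b (a (l 16764720) (l 16769920)) (a (l 16770664) (b (l 16764752) (l 16770288))))) (l 16772824)) (b (l 16770184) (a (b (a (l 16765256) (b (l 16770072) (l 16770224))) (l 16771312)) (b (l 16770176) (a (b (l 16770240) (l 16770568)) (l 16765024)))))) (a (l 16776416) (a (l 16774296) (c (l 16775016) (l 16765424)))))) (a (l 16766920) (l 16771640))))), by decide +kernel⟩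

def k203_B00pm_102_s1 : ∃ t, chk3 f_B00pm_102_s1 t 242 248 3 = true :=
  ⟨(b (c (a (l 16760624) (l 16764944)) (a (l 16751664) (c (l 16747672) (l 16753520)))) (c (l 16767856) (a (l 16741728) (l 16756312)))), by decide +kernel⟩

def k204_B00pm_102_s1 : ∃ t, chk3 f_B00pm_102_s1 t 243 496 6 = true :=
  ⟨(a (b (c (l 16758680) (l 16754072)) (l 16761520)) (b (a (b (a (b (a (l 16761672) (a (l 16758496) (b (c (l 16762984) (l 16753032)) (l 16761096)))) (l 16762592)) (b (a (b (l 16760656) (c (l 16757872) (a (l 16753184) (l 16758344)))) (l 16760792)) (b (a (l 16761184) (c (l 16757920) (a (l 16753216) (l 16758432)))) (c (l 16758544) (c (l 16755056) (l 16752696)))))) (l 16758544)) (b (a (c (l 16758104) (c (l 16754656) (l 16752320))) (l 16761320)) (a (b (a (b (c (l 16758192) (a (l 16758872) (l 16753408))) (l 16761680)) (b (l 16760992) (c (l 16758200) (a (l 16753592) (l 16753472))))) (l 16762272)) (b (l 16761192) (a (b (c (l 16758240) (a (l 16753608) (l 16758800))) (l 16758904)) (c (l 16758304) (b (l 16758904)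 (l 16753696)))))))) (a (l 16757128) (a (l 16754968) (b (b (a (l 16762480) (b (a (l 16761632) (b (l 16756008) (l 16761432))) (l 16762088))) (l 16763392)) (l 16765296)))))), by decide +kernel⟩

def k205_B00pm_102_s1 : ∃ t, chk3 f_B00pm_102_s1 t 486 496 7 = true :=
  ⟨(c (a (l 16753576) (l 16750576)) (a (l 16748888) (c (l 16747048) (l 16744664)))), by decide +kernel⟩

def k206_B00pm_102_s1 : ∃ t, chk3 f_B00pm_102_s1 t 487 992 7 = true :=
  ⟨(a (b (a (b (a (l 16752088) (b (b (a (c (l 16753488) (l 16745960)) (c (l 16753392) (l 16748504))) (a (l 16751368) (a (l 16748472) (c (l 16753432) (l 16748536))))) (l 16751696))) (l 16753088)) (b (a (b (l 16748480) (c (a (b (c (l 16754720) (l 16752304)) (l 16753744)) (b (l 16753520) (l 16748312))) (a (a (l 16746168) (b (l 16748592) (l 16748768))) (b (l 16748648) (c (l 16749904) (l 16742200)))))) (l 16751296)) (a (c (l 16749144) (c (l 16750752) (l 16743056))) (a (a (b (b (c (l 16753576) (l 16748704)) (l 16751352)) (l 16751864)) (b (b (l 16751168) (c (l 16753656)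 (l 16748784))) (l 16751680))) (b (c (l 16753672) (l 16748824)) (b (a (c (l 16753760) (l 16748896)) (c (l 16753688) (l 16748832))) (l 16751576))))))) (c (l 16756768) (l 16751976))) (b (a (a (a (b (l 16751480) (b (l 16751360) (b (l 16751304) (c (l 16748528) (a (l 16748912) (l 16748888)))))) (l 16751520)) (l 16749080)) (l 16749448)) (a (b (a (b (b (a (a (l 16751648) (l 16748840)) (a (c (l 16753792) (l 16748952)) (l 16751384))) (c (l 16748872) (a (l 16749464) (l 16746496)))) (l 16752216)) (b (c (l 16753936) (l 16749120)) (c (a (b (l 16748720) (l 16754240)) (b (l 16753928) (l 16748744))) (a (a (l 16749336) (b (l 16749072) (l 16749328))) (a (b (l 16749072) (l 16749168)) (l 16749144)))))) (c (l 16755248) (l 16750456))) (b (l 16749216) (b (a (c (a (b (l 16754024) (l 16754192)) (l 16754088)) (b (a (c (l 16750424) (l 16748000)) (l 16749280)) (a (l 16749384) (l 16749272)))) (l 16751848)) (b (a (a (l 16752128) (a (l 16751856) (b (l 16749064) (l 16751768)))) (l 16749184)) (a (l 16752288) (a (c (l 16748968)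 (c (l 16745384) (l 16742960))) (l 16751816))))))))), by decide +kernel⟩

def k207_B00pm_102_s1 : ∃ t, chk3 f_B00pm_102_s1 t 487 993 7 = true :=
  ⟨(a (c (l 16760776) (l 16756104)) (b (a (l 16754896) (b (a (l 16753128) (b (b (a (l 16752080) (a (b (l 16749176) (l 16751896)) (l 16749208))) (c (l 16754608) (l 16749832))) (l 16752744))) (l 16754120))) (c (l 16759184) (l 16754520)))), by decide +kernel⟩

def k208_B00pm_102_s1 : ∃ t, chk3 f_B00pm_102_s1 t 243 497 3 = true :=
  ⟨(a (c (l 16758688) (l 16760600)) (c (b (l 16760752) (l 16755312)) (c (l 16756784) (l 16752344)))), by decide +kernel⟩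

def k209_B00pm_102_s1 : ∃ t, chk3 f_B00pm_102_s1 t 121 249 1 = true :=
  ⟨(c (a (c (l 16787040) (l 16769280)) (b (c (l 16780792) (a (l 16755424) (l 16770560))) (l 16786192))) (a (b (c (l 16757128) (l 16770392)) (c (l 16767256) (l 16760216))) (b (c (l 16765800) (a (l 16760888) (l 16754792))) (c (l 16775776) (l 16768456))))), by decide +kernel⟩

def k210_B00pm_102_s1 : ∃ t, chk3 f_B00pm_102_s1 t 60 125 1 = true :=
  ⟨(c (a (b (a (a (l 16787184) (l 16769208)) (l 16773344)) (a (c (l 16775232) (l 16778688)) (c (l 16780840) (l 16784664)))) (a (b (l 16778264) (a (l 16786608) (l 16768016))) (b (c (l 16779720) (l 16785448)) (a (l 16770264) (l 16772368))))) (a (b (a (c (l 16754168) (l 16759464)) (c (l 16760352) (l 16766024))) (a (c (l 16782368) (l 16744352)) (b (l 16773376) (l 16766440)))) (a (b (c (l 16765784) (l 16771816)) (c (l 16773368) (l 16757056))) (b (a (l 16780040) (c (l 16766504) (l 16760128))) (c (l 16778248) (l 16783176)))))), by decide +kernel⟩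

def k211_B00pm_102_s1 : ∃ t, chk3 f_B00pm_102_s1 t 122 248 2 = true :=
  ⟨(a (b (c (a (b (l 16778880) (a (b (a (b (l 16779056) (l 16779544)) (l 16779040)) (a (l 16781168) (b (l 16774184) (l 16780368)))) (b (l 16779008) (a (b (l 16779064) (l 16779360)) (l 16779096))))) (l 16779088)) (a (b (l 16770648) (a (b (a (b (a (c (l 16767392) (l 16762992)) (l 16770360)) (a (l 16771272) (b (l 16770488) (l 16770864)))) (l 16770560)) (a (l 16772704) (b (a (l 16771064) (c (l 16767608) (l 16763264))) (l 16771912)))) (b (l 16770752) (a (b (l 16770640) (a (l 16765720) (l 16765504))) (l 16770792))))) (a (l 16771144) (l 16771504)))) (c (a (b (a (l 16783808) (b (a (l 16780648) (b (l 16779336) (l 16779896))) (l 16782208))) (l 16765864)) (b (a (b (l 16779336) (a (l 16774984) (b (l 16779344) (l 16779664)))) (l 16779304)) (a (l 16772296) (b (a (b (l 16779600) (l 16780224)) (l 16779544)) (l 16775904))))) (a (b (a (l 16775552) (b (a (l 16772280) (b (a (c (l 16767840) (l 16763552)) (l 16770840)) (a (l 16771872) (l 16771240))))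 (l 16773976))) (l 16768376)) (b (a (b (a (a (l 16765760) (l 16770968)) (l 16771104)) (a (b (a (l 16771672) (l 16765968)) (l 16772512)) (b (l 16771128) (a (l 16771520) (l 16771248))))) (l 16771352)) (a (l 16764240) (b (a (b (a (l 16766224) (l 16771312)) (l 16772120)) (b (l 16771376) (a (l 16771488) (l 16771400)))) (a (l 16773872) (b (a (l 16772280) (l 16766480)) (l 16773096))))))))) (a (a (c (b (l 16779160) (b (l 16779336) (b (l 16779424) (a (b (l 16779544) (l 16779896)) (l 16779520))))) (b (l 16771864) (b (l 16771704) (b (l 16771632) (a (b (l 16766352) (a (l 16772088) (l 16766488))) (l 16771696)))))) (c (l 16774064) (l 536093711))) (a (c (l 16774088) (l 536106255)) (c (l 16774112) (l 536119567))))), by decide +kernel⟩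

def k212_B00pm_102_s1 : ∃ t, chk3 f_B00pm_102_s1 t 122 249 2 = true :=
  ⟨(a (b (a (c (l 16772384) (l 16764880)) (c (l 16777408) (b (l 16767520) (l 16761632)))) (c (l 16778168) (a (l 16774088) (l 16768472)))) (c (b (a (b (a (b (a (l 16781336) (b (l 16779816) (l 16780528))) (l 16782808)) (b (l 16774512) (a (l 16770312) (b (l 16779744) (l 16780144))))) (l 16774176)) (b (l 16779712) (a (b (a (b (l 16774800) (l 16780848)) (l 16774712)) (l 16771248)) (b (l 16779776) (a (b (l 16779960) (l 16780408)) (l 16779928)))))) (a (l 16769992) (b (b (a (l 16783872) (a (l 16781928) (b (l 16775040) (l 16781160)))) (l 16774168)) (l 16766792)))) (b (a (b (a (b (a (l 16773480) (b (a (l 16766744) (l 16766544)) (l 16772696))) (l 16775104)) (b (a (b (l 16771816) (a (c (l 16768720) (l 16764736)) (l 16771872))) (l 16771984)) (a (c (l 16769800) (l 16765864)) (b (l 16766824) (a (l 16772672) (b (l 16766824) (l 16772328))))))) (l 16766704)) (a (b (l 16772288) (b (a (b (a (l 16772536) (l 16767032)) (l 16773304)) (b (l 16772264)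 (b (l 16767104) (a (l 16772616) (l 16772352))))) (c (l 16776200) (l 16767160)))) (b (l 16772584) (b (l 16772520) (a (b (a (b (l 16772392) (l 16767312)) (l 16772448)) (a (l 16773288) (l 16770136))) (l 16767408)))))) (a (l 16773488) (b (b (a (l 16776608) (a (l 16774648) (b (a (l 16773104) (c (l 16769384) (l 16765656))) (l 16773912)))) (l 16767048)) (l 16770400)))))), by decide +kernel⟩

def k213_B00pm_102_s1 : ∃ t, chk3 f_B00pm_102_s1 t 976 496 3 = true :=
  ⟨(b (c (l 16761736) (c (l 16754952) (l 16750320))) (c (b (a (b (a (b (l 16756080) (c (l 16758536) (b (l 16753848) (l 16754016)))) (l 16761440)) (a (l 16762336) (b (c (l 16758568) (b (l 16753912) (l 16754024))) (l 16761936)))) (b (l 16761680) (a (b (l 16761528) (c (l 16758616) (a (l 16754040) (l 16759264)))) (l 16761672)))) (a (l 16763872) (c (b (a (l 16759192) (b (l 16763920) (l 16758888))) (l 16765336)) (b (a (l 16754664) (b (l 16759400) (a (l 16759696) (l 16754240)))) (l 16760840))))) (b (a (b (a (a (b (c (l 16754304) (c (l 16750728) (l 16748320)))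 (c (l 16754576) (a (l 16749896) (l 16747104)))) (a (b (l 16751968) (b (l 16749320) (l 16749480))) (c (l 16749168) (c (l 16745608) (l 16743208))))) (l 16749536)) (a (l 16753032) (b (c (a (b (l 16749224) (l 16754688)) (l 16749272)) (a (b (c (l 16750904) (l 16743264)) (l 16749936)) (c (l 16750968) (l 16743328)))) (c (l 16755000) (l 16745016))))) (a (a (a (b (l 16752304) (b (l 16752184) (b (l 16749552) (l 16752368)))) (b (l 16752360) (b (l 16752248) (b (l 16752192) (a (l 16749632) (l 16749600)))))) (c (l 16754728) (l 16750032))) (l 16752560))) (a (l 16752064) (b (a (a (l 16753120) (b (b (a (l 16749736) (l 16749664)) (l 16752592)) (l 16753096))) (a (b (c (l 16749488) (b (l 16749960) (c (l 16751192) (l 16748816)))) (l 16750112)) (a (b (l 16752400) (b (l 16749784) (l 16752640))) (b (l 16752464) (b (l 16752416) (l 16749872)))))) (l 16753920)))))), by decide +kernel⟩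

def k214_B00pm_102_s1 : ∃ t, chk3 f_B00pm_102_s1 t 977 496 3 = true :=
  ⟨(c (b (l 16762400) (b (l 16762136) (a (b (l 16756616) (a (b (c (l 16758904) (b (l 16754296) (l 16754432))) (l 16762352)) (b (l 16761856) (c (l 16758944) (a (l 16754440) (l 16759632)))))) (l 16762128)))) (b (a (l 16753384) (l 16753872)) (a (b (l 16750312) (b (c (l 16755048) (l 16750384)) (a (b (c (a (l 16749816) (l 16749704)) (a (b (c (l 16751408) (l 16749032)) (l 16750504)) (b (l 16750200) (c (l 16751440) (l 16749072))))) (l 16750552)) (b (l 16752712) (c (a (c (l 16751000) (l 16748688)) (l 16755056)) (a (b (l 16750312) (l 16750472)) (l 16750392))))))) (l 534662159)))), by decide +kernel⟩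

def k215_B00pm_102_s1 : ∃ t, chk3 f_B00pm_102_s1 t 489 496 3 = true :=
  ⟨(a (c (l 535305999) (c (l 16751248) (l 534329871))) (c (l 535315215) (c (l 16752160) (l 534336015)))), by decide +kernel⟩

def k216_B00pm_102_s1 : ∃ t, chk3 f_B00pm_102_s1 t 488 497 3 = true :=
  ⟨(b (c (a (l 16756464) (b (a (c (l 16760528) (l 16756072)) (b (c (a (a (l 16759176) (l 16759080)) (l 16764336)) (a (b (l 16754528) (l 16754776)) (l 16759896))) (a (l 16763160) (b (c (l 16759248) (c (l 16755912) (l 16753664))) (l 16762784))))) (l 16765384))) (a (c (l 16760264) (l 16755696)) (b (a (a (l 16754856) (b (c (l 16750536) (c (l 16747056) (l 16744704))) (l 16754808))) (b (a (a (b (a (b (l 16752752) (l 16750248)) (l 16750200)) (l 16753272)) (b (l 16752872) (b (a (l 16750264) (l 16752864)) (l 16750464)))) (c (l 16755360) (b (l 16750736) (l 16745456)))) (a (l 16754096) (a (c (l 16755856) (l 16745992)) (b (b (l 16753016) (a (l 16753136) (l 16750424))) (l 16753544)))))) (c (l 16758720) (l 16754160))))) (c (l 16760056) (c (l 16753592)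 (l 16749176)))), by decide +kernel⟩

def k217_B00pm_102_s1 : ∃ t, chk3 f_B00pm_102_s1 t 489 994 3 = true :=
  ⟨(c (a (b (a (b (l 16762336) (a (b (l 16762192) (c (l 16759280) (c (l 16755960) (l 16753720)))) (l 16762336))) (l 16762632)) (a (b (b (a (l 16757456) (a (l 16757112) (l 16762328))) (l 16760360)) (l 16763928)) (b (a (l 16757232) (l 16762592)) (a (b (c (l 16759600) (l 16755208)) (l 16763200)) (a (b (l 16762504) (l 16757472)) (l 16757376)))))) (l 16763064)) (a (b (a (b (l 16753392) (a (b (l 16753160) (a (c (l 16750312) (b (l 16745568) (l 16751032))) (c (l 16755488) (l 16745640)))) (l 16753360))) (l 16753808)) (a (a (c (l 16751688) (l 16747120)) (a (b (b (b (l 16750624) (a (l 16753400) (l 16750672))) (l 16753816)) (l 16754808)) (b (b (l 16753328) (c (l 16750552) (c (l 16747120) (l 16744800)))) (l 16754456)))) (a (a (b (c (l 16750496) (b (l 16751144) (l 16745888))) (l 16754096)) (b (l 16753520) (b (b (l 16750856) (l 16750984)) (l 16754088)))) (b (l 16753712) (b (l 16751008) (c (b (l 16750688)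 (l 16750816)) (a (b (l 16751344) (l 16751624)) (c (l 16752536) (l 16745000))))))))) (c (l 16756624) (l 16752224)))), by decide +kernel⟩

def k218_B00pm_102_s1 : ∃ t, chk3 f_B00pm_102_s1 t 489 995 3 = true :=
  ⟨(a (a (c (l 16756552) (c (l 16760520) (l 16756064))) (c (b (l 16759160) (l 16766904)) (c (l 16759112) (l 16749408)))) (c (b (a (c (b (b (l 16759728) (a (l 16765240) (l 16764984))) (l 16760568)) (b (a (b (l 16755320) (l 16760896)) (l 16755432)) (c (l 16757336) (l 16755160)))) (b (l 16763032) (a (b (l 16762920) (a (l 16757896) (l 16757744))) (l 16763040)))) (a (l 16765536) (b (a (l 16763896) (b (c (l 16760024) (c (l 16756816) (l 16754656))) (l 16758272))) (l 16764792)))) (b (a (b (b (a (a (b (l 16751112) (l 16751272)) (l 16751200)) (l 16753984)) (a (c (l 16751216) (a (l 16752112) (l 16746544))) (a (a (b (l 16753848) (l 16753960)) (l 16751296)) (l 16753976)))) (a (l 16755208) (a (l 16754688) (b (b (a (l 16751368) (l 16753976)) (l 16751560)) (l 16754680))))) (b (l 16754336) (a (a (b (l 16751456)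 (c (l 16756576) (l 16752096))) (b (l 16754168) (a (b (l 16754104) (l 16754248)) (l 16751560)))) (l 16754328)))) (a (l 16756856) (b (a (l 16755160) (b (a (a (l 16751792) (b (l 16754232) (l 16754400))) (b (l 16754304) (l 16751704))) (c (l 16757008) (l 16752568)))) (l 16756144)))))), by decide +kernel⟩

def k219_B00pm_102_s1 : ∃ t, chk3 f_B00pm_102_s1 t 245 248 3 = true :=
  ⟨(c (a (a (b (l 535325455) (b (l 16758512) (b (l 16763504) (a (b (a (a (c (l 16765296) (l 16755792)) (l 16763184)) (l 16763296)) (a (l 16761152) (b (l 16758048) (c (l 16760352) (a (l 16761448) (l 16756008)))))) (l 16758296))))) (c (l 535535375) (l 535153423))) (a (b (l 16762992) (l 535366927)) (b (l 16763664) (l 535380751)))) (c (a (a (b (l 16753088) (b (l 16757568) (b (l 16757192) (a (b (a (b (l 16756680) (a (c (l 16757784) (l 16750344)) (l 16756688))) (l 16756888)) (a (b (a (l 16757160) (l 16751624)) (l 16757640)) (b (l 16751608) (a (l 16757128) (c (l 16752784) (l 16750600)))))) (l 16757200))))) (b (l 16759272) (l 534773775)))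 (a (b (l 16760216) (l 16753968)) (b (l 16761152) (l 16754912)))) (a (a (b (l 534345231) (b (l 16753344) (b (l 16752880) (a (b (a (b (l 16752256) (a (b (l 16752168) (l 16752272)) (l 16752264))) (l 16752504)) (a (b (a (l 16752736) (b (c (l 16753432) (l 16751200)) (l 16752560))) (l 16753232)) (b (c (l 16748312) (l 16746088)) (b (a (l 16752560) (l 16752448)) (c (l 16753832) (l 16751608)))))) (l 16752872))))) (b (l 16750168) (l 534377487))) (a (b (l 16751288) (l 534390543)) (a (l 534389775) (l 534396687)))))), by decide +kernel⟩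

def k220_B00pm_102_s1 : ∃ t, chk3 f_B00pm_102_s1 t 244 249 3 = true :=
  ⟨(b (a (c (l 16767528) (a (l 16750328) (l 16757912))) (c (c (l 16763920) (l 16759880)) (b (c (l 16753160) (l 16748872)) (l 16756296)))) (a (c (l 16766912) (l 16759416)) (c (l 16761232) (l 16764160)))), by decide +kernel⟩

def k221_B00pm_102_s1 : ∃ t, chk3 f_B00pm_102_s1 t 980 996 3 = true :=
  ⟨(c (a (l 16756032) (b (b (a (b (a (l 16758304) (l 16758200)) (l 16763960)) (b (l 16763504) (c (l 16760432) (a (l 16756224) (l 16761440))))) (a (l 16764896) (l 16761584))) (l 16766400))) (b (a (l 16754136) (b (a (b (c (a (l 16751888) (l 16751800)) (a (b (c (l 16753720) (l 16751504)) (l 16752880)) (b (l 16752608) (c (l 16753768) (l 16751560))))) (l 16752776)) (b (l 16754984) (c (a (c (l 16753024) (l 16750864)) (l 16757168)) (a (b (l 16752728) (l 16752880)) (l 16752824))))) (b (a (l 16756064) (a (l 16755560) (a (l 16755296) (b (l 16752416) (l 16755304))))) (l 16756384)))) (c (l 16760824) (l 16756560)))), by decide +kernel⟩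

def k222_B00pm_102_s1 : ∃ t, chk3 f_B00pm_102_s1 t 981 996 3 = true :=
  ⟨(b (c (a (b (l 16763744) (a (b (c (l 16765744) (l 16756344)) (a (l 16764024) (c (l 16765848) (l 16756448)))) (l 16758544))) (l 16764048)) (a (b (l 16755336) (a (a (b (a (b (l 16755032) (l 16752520)) (l 16752488)) (l 16755536)) (a (b (l 16755136) (b (l 16752552) (l 16755448))) (b (l 16755200) (b (l 16755168) (l 16752664))))) (c (l 16757504) (c (l 16754288) (l 16752120))))) (l 16753168))) (c (a (a (l 16765392) (a (b (l 16759024) (l 16765504)) (b (b (b (l 16763768) (l 16758608)) (l 16764256)) (l 16765168)))) (b (a (b (l 16763872) (c (l 16760784) (a (l 16756672) (l 16761856)))) (l 16764016)) (c (a (l 16766688) (a (l 16761040) (l 16760928))) (a (l 16762600) (b (l 16756760) (l 16757032)))))) (a (b (a (l 16756352) (a (c (l 16752736) (c (l 16749520) (l 16747352))) (b (b (l 16755328) (a (l 16755432) (l 16752744))) (l 16755840)))) (l 16757328)) (b (a (b (l 16755488) (a (b (a (l 16752832) (l 16755432)) (l 16755664)) (c (l 16757664)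 (b (l 16753352) (l 16753376))))) (l 16755712)) (a (c (l 16753176) (b (l 16748592) (l 16754512))) (a (a (b (b (l 16752944) (l 16755736)) (l 16756224)) (b (b (l 16755592) (l 16753016)) (l 16756056))) (b (l 16755688) (a (l 16753272) (b (l 16753072) (l 16755880)))))))))), by decide +kernel⟩

def k223_B00pm_102_s1 : ∃ t, chk3 f_B00pm_102_s1 t 490 997 3 = true :=
  ⟨(c (c (l 16760888) (l 16756904)) (a (l 16752144) (c (l 16761976) (l 16752584)))), by decide +kernel⟩

def k224_B00pm_102_s1 : ∃ t, chk3 f_B00pm_102_s1 t 491 996 3 = true :=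
  ⟨(a (a (c (c (l 16761120) (b (l 16762408) (l 16757032))) (a (a (b (l 16756112) (b (l 16755904) (a (b (l 16755768) (b (l 16755720) (l 16753152))) (l 16755816)))) (l 16753488)) (l 16753680))) (c (l 16764664) (l 534608399))) (c (l 535393551) (c (l 16759424) (l 16755496)))), by decide +kernel⟩

def k225_B00pm_102_s1 : ∃ t, chk3 f_B00pm_102_s1 t 982 997 3 = true :=
  ⟨(c (b (a (b (a (b (c (l 16761120) (a (l 16762376) (l 16756944))) (l 16764864)) (b (l 16764248) (c (l 16761152) (b (l 16757016) (l 16757144))))) (l 16765440)) (a (b (l 16764384) (b (c (l 16761200) (a (l 16757168) (l 16762376))) (a (l 16764928) (l 16759368)))) (c (l 16761320) (b (l 16762568) (l 16757304))))) (a (l 16767264) (b (a (l 16765672) (b (c (l 16761496) (a (l 16762864) (l 16757384))) (l 16765312))) (l 16766552)))) (b (a (b (a (b (b (a (l 16753344) (l 16753232)) (c (l 16758224) (c (l 16755064) (l 16747688)))) (l 16756608)) (b (l 16753392) (b (a (a (l 16756032) (l 16753344)) (l 16756008)) (a (l 16756272) (a (l 16753432) (l 16756032))))))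 (c (l 16759320) (l 16755144))) (b (l 16756352) (b (a (c (a (a (l 16758304) (l 16753016)) (l 16758288)) (a (b (l 16754016) (l 16754160)) (l 16754112))) (l 16756376)) (b (a (a (l 16756584) (a (l 16756328) (l 16753616))) (l 16756336)) (a (l 16756744) (a (a (l 16753720) (l 16753680)) (l 16756360))))))) (a (l 16759200) (b (a (l 16757552) (a (l 16757048) (a (b (b (l 16753760) (l 16756640)) (l 16757128)) (b (b (l 16756368) (l 16753864)) (l 16756960))))) (l 16758512))))), by decide +kernel⟩

def k226_B00pm_102_s1 : ∃ t, chk3 f_B00pm_102_s1 t 983 997 3 = true :=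
  ⟨(c (b (l 16759704) (a (b (a (a (b (l 16764584) (l 16759584)) (c (l 16766664) (l 16757464))) (l 16764752)) (a (l 16765568) (b (c (l 16761560) (a (l 16757608) (l 16762800))) (l 16759960)))) (b (l 16765008) (a (b (l 16764864) (a (c (l 16766848) (l 16757672)) (l 16764880))) (l 16765016))))) (a (b (l 16754184) (b (a (a (b (b (l 16756456) (l 16753840)) (c (l 16758776) (c (l 16755688) (l 16748360)))) (a (b (l 16756536) (b (l 16756504) (l 16754008))) (b (l 16756600) (b (l 16756552) (l 16753952))))) (l 16756728)) (a (l 16757520) (b (c (a (b (l 16758712) (l 16758904)) (l 16758776)) (a (a (l 16754728) (b (l 16754568) (l 16754712))) (b (l 16754648) (l 16754664)))) (c (l 16759216) (c (l 16756152) (l 16754080))))))) (a (a (b (l 16757128) (a (b (l 16756888) (b (l 16756792) (b (l 16754152) (l 16756928)))) (b (l 16756952) (b (l 16756856) (b (l 16756808) (l 16754224)))))) (c (l 16759136) (l 16755112))) (l 534903311)))), by decide +kernel⟩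

def k227_B00pm_102_s1 : ∃ t, chk3 f_B00pm_102_s1 t 245 499 3 = true :=
  ⟨(a (c (a (l 16757072) (l 16764832)) (c (l 16760512) (l 16756632))) (b (a (c (l 16759744) (c (l 16764392) (l 16760408))) (c (a (l 16757760) (b (b (c (a (l 16762160) (b (l 16766944) (l 16761888))) (a (b (l 16757976) (l 16763808)) (b (l 16763056) (a (l 16763312) (l 16757896))))) (l 16766336)) (l 16768136))) (a (c (l 16762400) (l 16758400)) (b (b (b (b (a (a (l 16757176) (a (l 16754320) (l 16754280))) (l 16757032)) (a (l 16757328) (a (a (l 16754360) (l 16756976)) (l 16757064)))) (a (l 16757816) (c (a (l 16759336) (b (l 16759080) (l 16759200))) (b (a (l 16755120) (l 16755032)) (c (l 16751064) (a (l 16754424) (l 16754120))))))) (l 16758448)) (l 16760376))))) (c (l 16763216) (c (l 16768112) (l 16753808))))), by decide +kernel⟩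

def k228_B00pm_102_s1 : ∃ t, chk3 f_B00pm_102_s1 t 123 124 2 = true :=
  ⟨(b (a (a (c (b (l 16779248) (l 16779504)) (a (l 536402191) (l 536417039))) (c (b (l 16779240) (l 16779512)) (a (l 536432655) (l 536448783)))) (a (c (b (l 16773944) (l 16779472)) (a (l 536465679) (l 536483087))) (a (c (l 537213199) (l 536501007)) (c (l 537230351) (l 536519951))))) (c (a (a (b (l 16779776) (b (a (b (a (b (l 16779928) (l 16774968)) (l 16779944)) (a (l 16781400) (b (l 16780168) (l 16780680)))) (l 16774872)) (a (l 16783888) (b (a (b (l 16775288) (l 16781464)) (b (l 16780144) (l 16775200))) (l 16782352))))) (b (l 16779800) (b (l 16780016) (a (b (l 16780128) (a (b (l 16780384) (l 16780960)) (l 16780336))) (l 16780176))))) (a (b (l 16779776) (l 16780088)) (b (l 16774456) (l 14)))) (b (a (a (b (l 16773104) (l 16773024)) (b (l 16773768) (l 16773696))) (a (b (l 16774400) (l 16774336)) (b (l 16774984) (l 16774928)))) (a (a (b (a (b (a (b (l 16772728) (a (l 16770408) (l 16767592))) (l 16772880)) (a (l 16769016) (a (b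 (c (l 16769600) (l 16765944)) (l 16773880)) (b (l 16772928) (l 16770680))))) (a (b (l 16773056) (c (l 16769664) (l 16766088))) (l 16773208))) (a (l 16766488) (b (a (b (a (l 16773696) (l 16770664)) (l 16774496)) (b (l 16773216) (a (l 16773576) (b (l 16773216) (l 16768104))))) (l 16765016)))) (b (l 16773632) (a (b (l 16773416) (a (a (b (l 16770920) (l 16774472)) (b (l 16773408) (l 16773856))) (b (l 16773480) (a (b (l 16773456) (l 16768360)) (l 16773504))))) (l 16773736)))) (a (b (l 16774280) (l 16774224)) (l 14)))))), by decide +kernel⟩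

def k229_B00pm_102_s1 : ∃ t, chk3 f_B00pm_102_s1 t 123 248 6 = true :=
  ⟨(a (a (a (b (l 16764336) (l 535395087)) (b (l 535392015) (l 535410447))) (a (b (l 535407631) (l 535426575)) (b (l 535424271) (l 535443471)))) (a (a (b (l 535709967) (l 535461391)) (l 535469583)) (a (l 535489039) (l 535509007)))), by decide +kernel⟩

def k230_B00pm_102_s1 : ∃ t, chk3 f_B00pm_102_s1 t 123 249 6 = true :=
  ⟨(a (a (b (a (c (l 16767536) (l 16758624)) (l 535495695)) (b (a (b (a (b (l 16765216) (a (b (c (l 16761920) (b (l 16757968) (l 16758088))) (l 16765656)) (b (l 16765232) (c (l 16761984) (a (l 16758112) (l 16763328)))))) (l 16765504)) (a (b (c (l 16762872) (l 16759048)) (l 16767432)) (b (a (b (c (l 16767296) (l 16758232)) (c (l 16762272) (a (l 16763800) (l 16758336)))) (l 16760272)) (a (l 16766464) (b (c (l 16762296) (b (l 16758400) (l 16758544))) (l 16766112)))))) (b (l 16760776) (a (b (l 16765736) (a (b (l 16765600) (c (l 16762336) (a (l 16758560) (l 16763752)))) (l 16765752))) (l 16766040)))) (a (c (l 16771592)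 (l 16767912)) (b (a (b (a (a (l 16766520) (l 16760944)) (b (a (c (l 16767624) (l 16758624)) (l 16765744)) (a (l 16766176) (b (l 16760560) (l 16766000))))) (l 16767232)) (b (c (l 16767816) (l 16758880)) (a (b (c (l 16762664) (a (l 16764256) (l 16758840))) (l 16766560)) (b (l 16765984) (c (l 16762704) (a (l 16764256) (l 16764176))))))) (c (l 16770168) (l 16761272)))))) (a (b (l 535445007) (b (l 535458831) (b (l 535465743) (a (b (c (a (b (l 16762760) (l 16768296)) (l 16768088)) (a (b (a (l 16759064) (l 16764288)) (l 16759384)) (b (l 16764408) (l 16759192)))) (a (l 16767352) (b (c (l 16763048) (a (l 16764744) (l 16759288))) (l 16767016)))) (b (l 16766472) (a (b (l 16766368) (c (l 16763072) (a (l 16764720) (l 16764608)))) (l 16766488))))))) (b (l 535462415) (a (l 535476495) (l 535485711))))) (a (a (b (l 535480847) (c (l 16769416) (l 16760968))) (b (l 535500047) (l 535519503))) (a (b (l 535520015) (l 14)) (l 14)))), by decide +kernel⟩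

def k231_B00pm_102_s1 : ∃ t, chk3 f_B00pm_102_s1 t 246 248 7 = true :=
  ⟨(a (a (b (l 534596623) (b (l 16759592) (l 534757903))) (b (l 534611471) (b (l 16760616) (l 534639375)))) (a (b (l 534627087) (l 534784271)) (b (l 534643983) (l 534801679)))), by decide +kernel⟩

def k232_B00pm_102_s1 : ∃ t, chk3 f_B00pm_102_s1 t 492 498 7 = true :=
  ⟨(a (a (c (l 16754648) (l 534705679)) (l 534777359)) (a (l 534785295) (l 534793743))), by decide +kernel⟩

def k233_B00pm_102_s1 : ∃ t, chk3 f_B00pm_102_s1 t 492 998 7 = true :=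
  ⟨(a (b (a (b (c (l 16759376) (l 16755376)) (a (b (b (a (a (l 16754616) (l 16754552)) (l 16757224)) (a (l 16757472) (a (l 16754640) (l 16757248)))) (l 16755160)) (b (l 16757400) (a (b (a (l 16754688) (l 16757320)) (a (l 16757544) (l 16754784))) (l 16754800))))) (l 16755200)) (a (b (a (l 16758752) (a (l 16758256) (b (a (l 16757688) (b (l 16754832) (l 16757696))) (l 16758256)))) (l 16759704)) (b (c (a (b (a (c (l 16760512) (l 16753296)) (l 16759568)) (a (l 16759904) (b (l 16759584) (l 16759744)))) (l 16759744)) (a (b (a (a (b (l 16755448) (l 16755544)) (l 16755520)) (l 16755600)) (b (a (l 16755760) (a (l 16755592) (l 16755592))) (l 16755920))) (b (l 16755808) (l 16755768)))) (a (l 16758728) (b (b (a (a (l 16757840) (l 16755104)) (l 16757752)) (a (l 16758080) (a (l 16755216) (l 16755160)))) (l 16758392)))))) (a (b (l 16755720) (b (l 16758136) (a (b (l 16757912) (c (a (b (l 16759840) (l 16760024)) (l 16759904)) (a (b (a (l 16755888) (l 16755872)) (l 16756088)) (b (l 16755960) (l 16755968))))) (l 16758136))))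 (l 534675727))), by decide +kernel⟩

def k234_B00pm_102_s1 : ∃ t, chk3 f_B00pm_102_s1 t 492 999 7 = true :=
  ⟨(a (c (l 16764152) (l 16755072)) (b (a (b (a (c (l 16755384) (c (l 16752464) (l 16750488))) (a (a (b (b (l 16755368) (l 16758136)) (l 16758616)) (b (b (l 16758024) (l 16755432)) (l 16758456))) (a (b (l 16758080) (b (l 16755536) (l 16758448))) (b (l 16758136) (b (l 16755496) (l 16758288)))))) (l 16759648)) (b (a (b (l 16758296) (a (a (b (l 16758152) (l 16755576)) (l 16758216)) (l 16758296))) (l 16758528)) (a (b (c (a (l 16760448) (b (l 16760216) (l 16760320))) (b (a (l 16756416) (l 16756336)) (c (l 16752320) (a (l 16755760) (l 16755464))))) (l 16759000)) (b (l 16755824) (b (a (a (l 16755824) (l 16755768)) (l 16758440)) (a (l 16758672) (a (l 16755856) (l 16758464)))))))) (c (l 16757544) (c (l 16754704) (l 16752776))))), by decide +kernel⟩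

def k235_B00pm_102_s1 : ∃ t, chk3 f_B00pm_102_s1 t 493 249 7 = true :=
  ⟨(b (a (a (l 534802191) (l 534676751)) (a (l 534685711) (l 534694927))) (b (a (c (l 16761304) (l 16755048)) (c (l 16762240) (l 16758784))) (a (a (b (l 16756224) (b (a (a (a (b (b (l 16755912) (l 16758744)) (l 16759224)) (b (b (l 16758544) (l 16756000)) (l 16759064))) (a (b (l 16755992) (l 16756272)) (b (l 16758656) (b (l 16756048) (l 16758904))))) (a (b (l 16758752) (b (l 16758704) (a (l 16756144) (l 16756112)))) (l 16758848))) (a (l 16759928) (a (l 16756824) (a (b (b (l 16756184) (l 16759056)) (l 16759528)) (a (b (b (l 16758792) (l 16758928)) (l 16759408)) (b (b (l 16758816) (l 16756256)) (l 16759328)))))))) (b (l 16756744) (b (l 16759168) (a (c (b (l 16760848) (a (b (l 16760888) (l 16761160)) (b (l 16760848) (l 16760920)))) (b (l 16757080) (b (a (a (l 16757144) (l 16757048)) (l 16757080)) (a (l 16757384) (a (l 16757160) (l 16757112)))))) (l 16759168))))) (c (l 16761784) (l 16755592))))), by decide +kernel⟩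

def k236_B00pm_102_s1 : ∃ t, chk3 f_B00pm_102_s1 t 247 124 7 = true :=
  ⟨(b (a (a (b (l 534662159) (l 534685967)) (b (l 534681103) (l 534705679))) (a (b (l 534701327) (l 534726671)) (b (l 534722575) (l 534748431)))) (a (a (b (b (l 16762584) (l 534849807)) (a (l 534861839) (l 534872079))) (b (b (l 16763584) (l 534736143)) (a (l 534882575) (l 534758927)))) (a (b (l 534885647) (l 14)) (l 14)))), by decide +kernel⟩

def k237_B00pm_102_s1 : ∃ t, chk3 f_B00pm_102_s1 t 122 125 1 = true :=
  ⟨(b (a (c (b (l 16783480) (l 16783448)) (b (c (l 16773776) (l 16766936)) (c (l 16762400) (l 16756256)))) (c (b (c (l 16775608) (a (l 16771952) (l 16766560))) (l 16780928)) (c (b (a (l 16765320) (l 16770360)) (l 16772024)) (b (a (l 16758392) (l 16763384)) (l 16765760))))) (a (c (c (l 16772968) (l 16777576)) (c (l 16782440) (l 16766584))) (c (b (l 16781232) (l 16775976)) (a (l 16786192) (l 16780536))))), by decide +kernel⟩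

def k238_B00pm_102_s1 : ∃ t, chk3 f_B00pm_102_s1 t 123 250 2 = true :=
  ⟨(a (b (a (c (l 16778240) (b (l 16769608) (l 16763496))) (c (b (a (b (a (l 16782504) (l 16775992)) (l 16783896)) (b (a (b (l 16780344) (l 16775424)) (l 16780304)) (a (l 16782016) (b (l 16775352) (l 16781248))))) (l 16775168)) (b (a (b (a (l 16775800) (b (a (l 16774304) (l 16771184)) (l 16775080))) (l 16777352)) (b (a (b (l 16768448) (a (l 16774136) (c (l 16770272) (l 16766872)))) (l 16773792)) (a (l 16775456) (b (a (l 16771448) (l 16768648)) (l 16774720))))) (l 16768848)))) (a (c (l 16775800) (l 16769992)) (c (l 16770656) (l 16775304)))) (a (a (a (b (b (b (l 536595471) (l 14)) (l 14)) (l 14)) (l 14)) (l 14)) (l 14))), by decide +kernel⟩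

def k239_B00pm_102_s1 : ∃ t, chk3 f_B00pm_102_s1 t 492 500 3 = true :=
  ⟨(c (c (l 16766776) (l 16763336)) (a (l 16759360) (c (l 16758520) (l 16754928)))), by decide +kernel⟩

def k240_B00pm_102_s1 : ∃ t, chk3 f_B00pm_102_s1 t 493 500 6 = true :=
  ⟨(b (a (a (l 16764728) (b (b (a (l 16767256) (b (c (l 16763120) (a (l 16759512) (l 16764712))) (a (l 16767080) (l 16761520)))) (l 16768120)) (l 16769872))) (b (c (a (b (l 16763272) (a (l 16763696) (b (l 16768512) (l 16763440)))) (l 16768720)) (a (b (a (b (l 16764816) (a (l 16759584) (l 16764824))) (l 16764984)) (a (b (a (l 16765240) (l 16759736)) (l 16765680)) (b (l 16764968) (a (l 16765200) (l 16759800))))) (l 16765240))) (a (l 16768608) (b (a (b (c (l 16763480) (a (l 16759968) (l 16765136))) (l 16767360)) (a (b (l 16766928) (b (l 16766944) (l 16767064))) (l 16767016))) (a (l 16768248) (a (l 16767776) (l 14))))))) (c (l 16763928) (l 16760552))), by decide +kernel⟩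

def k241_B00pm_102_s1 : ∃ t, chk3 f_B00pm_102_s1 t 493 500 7 = true :=
  ⟨(b (a (b (a (l 16758880) (b (a (l 16757288) (b (c (a (b (l 16760968) (l 16761144)) (l 16761040)) (b (a (a (l 16757200) (l 16757192)) (l 16757272)) (a (l 16757392) (l 16757288)))) (a (l 16759752) (a (l 16759512) (b (l 16756608) (l 16759512)))))) (l 16760848))) (c (l 16765184) (l 16761544))) (b (a (b (a (a (a (b (l 16759232) (b (l 16756592) (l 16759352))) (b (l 16759296) (b (l 16759248) (l 16756656)))) (l 16759368)) (l 16759560)) (a (a (l 16760056) (b (b (a (l 16756752) (l 16756728)) (l 16759576)) (l 16760056))) (b (a (b (l 16759416) (a (l 16756800) (l 16759424))) (l 16759528)) (c (a (l 16761576) (b (l 16761352) (l 16761448))) (b (a (l 16757728) (l 16757656)) (a (l 16758040) (a (l 16757800) (l 16757704)))))))) (c (l 16761696) (l 16758080))) (a (c (l 16763272) (l 16759632)) (b (a (c (b (a (b (l 16761488) (l 16761712)) (b (l 16761496) (l 16761544))) (l 16762008)) (b (b (a (a (l 16757816) (l 16757768)) (l 16757832)) (a (l 16758040)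 (a (l 16757856) (l 16757848)))) (l 16758352))) (a (a (b (l 16759752) (b (l 16757136) (l 16759968))) (b (l 16759816) (b (l 16759776) (l 16757224)))) (l 16757288))) (a (l 16761136) (a (l 16760664) (l 14))))))) (a (l 16756640) (c (l 16766320) (l 16757560)))), by decide +kernel⟩

def k242_B00pm_102_s1 : ∃ t, chk3 f_B00pm_102_s1 t 246 501 3 = true :=
  ⟨(c (a (l 16763920) (l 16769184)) (a (l 16768056) (a (l 16764096) (l 16761512)))), by decide +kernel⟩

def k243_B00pm_102_s1 : ∃ t, chk3 f_B00pm_102_s1 t 247 250 3 = true :=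
  ⟨(b (b (c (b (a (c (l 16769432) (l 16760936)) (l 14)) (l 14)) (b (a (a (a (l 16757776) (l 14)) (l 14)) (l 14)) (l 14))) (l 14)) (l 14)), by decide +kernel⟩

def k244_B00pm_102_s1 : ∃ t, chk3 f_B00pm_102_s1 t 123 251 1 = true :=
  ⟨(a (a (c (l 16780720) (b (l 16770320) (l 16779704))) (l 14)) (l 14)), by decide +kernel⟩

def k245_B00pm_102_s1 : ∃ t, chk3 f_B00pm_102_s1 t 60 126 1 = true :=
  ⟨(a (c (a (b (c (l 16764744) (l 16766944)) (c (l 16733944) (l 16755912))) (b (c (l 16770520) (l 16773104)) (c (l 16760896) (l 16762264)))) (a (b (b (l 16753000) (l 16746344)) (c (l 16757048) (l 16737368))) (b (a (l 16754768) (l 16757944)) (c (l 16763776) (l 16754960))))) (b (c (a (c (l 16775664) (l 16778568)) (c (l 16780240) (l 16783376))) (a (a (l 16760920) (l 16763696)) (a (l 16766272) (l 16768680)))) (c (a (c (l 16766272) (l 16767928)) (c (l 16771048) (l 16772936))) (a (a (l 16748288) (l 16751144)) (a (l 16753824) (l 16756336)))))), by decide +kernel⟩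

def k246_B00pm_102_s1 : ∃ t, chk3 f_B00pm_102_s1 t 60 127 1 = true :=
  ⟨(c (b (a (a (c (l 16735296) (c (l 16724664) (l 16724600))) (c (l 16741512) (l 16741680))) (a (c (l 16736616) (l 16758032)) (c (l 16741576) (l 16763232)))) (a (a (c (a (l 16725192) (l 16728576)) (b (l 16727888) (c (l 16723712) (b (l 16734568) (l 16721776))))) (c (b (l 16745808) (l 16726184)) (b (l 16724128) (l 16730144)))) (a (c (c (l 16728840) (l 16738944)) (b (l 16751120) (l 16736264))) (c (c (l 16733920) (l 16744160)) (a (l 16732056) (l 16734592)))))) (b (a (a (c (a (l 16722712) (l 16726368)) (b (l 16748680) (c (l 16721584) (l 16742432)))) (c (b (l 16755208) (l 16728760)) (b (l 16755912) (l 16749800)))) (a (c (l 16758592) (b (l 16762296) (l 16756288))) (c (l 16764040) (b (l 16767936) (l 16762040))))) (a (c (a (b (a (l 16725040) (l 16718280)) (a (c (l 16720256) (b (l 16731248) (l 16718144))) (c (l 16734472) (l 16723264)))) (b (l 16733976) (c (l 16729216) (l 16728608)))) (a (b (a (c (l 16734776) (l 16723808)) (c (l 16738640)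 (l 16727776))) (a (c (b (l 16730528) (c (l 16727976) (l 16717056))) (b (a (l 16728792) (l 16730840)) (a (b (l 16726592) (c (l 16725376) (l 16722296))) (l 16717432)))) (c (l 16722552) (b (l 16733800) (l 16720416))))) (b (c (l 16723056) (l 16733280)) (c (b (l 16718896) (l 16726680)) (a (l 16725640) (l 16729224)))))) (a (c (b (l 16729792) (c (l 16725072) (l 16735096))) (b (l 16740008) (a (l 16732840) (l 16736008)))) (c (a (l 16742088) (l 16744752)) (b (l 16745872) (a (l 16739000) (l 16741816)))))))), by decide +kernel⟩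

def k247_B00pm_102_s1 : ∃ t, chk3 f_B00pm_102_s1 t 61 63 1 = true :=
  ⟨(a (a (b (c (b (c (l 16784240) (l 16787568)) (c (l 16775216) (l 16777312))) (b (c (l 16770128) (l 16773872)) (a (l 16758672) (l 16760856)))) (b (c (c (l 16745928) (l 16767808)) (c (l 16768824) (b (l 16772888) (l 16767096)))) (l 14))) (b (c (b (a (l 16767592) (l 16769208)) (c (l 16778824) (l 16781096))) (b (c (l 16773888) (l 16777792)) (a (l 16762872) (l 14)))) (l 14))) (l 14)), by decide +kernel⟩

def k248_B00pm_102_s1 : ∃ t, chk3 f_B00pm_102_s1 t 31 15 1 = true :=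
  ⟨(b (b (l 3) (a (a (c (a (b (a (b (c (l 537150223) (l 536403727)) (c (l 537178639) (l 536442127))) (b (l 3) (a (l 536571407) (l 536589839)))) (a (b (a (l 536299535) (l 536317455)) (c (l 536964367) (a (l 536504591) (l 536523791)))) (b (a (l 536336143) (l 536355087)) (a (c (l 537257999) (l 536543759)) (c (l 537276431) (l 536564495)))))) (a (b (b (l 3) (a (l 536609039) (l 3))) (b (a (l 536374543) (l 536394511)) (l 14))) (b (l 3) (a (b (l 536415247) (l 14)) (l 14))))) (a (c (a (b (b (l 535624207) (l 535404559)) (b (a (l 535709199) (l 535729167)) (a (l 535486223) (l 535507215)))) (b (a (l 535675663) (l 535696143)) (a (b (l 535750159) (l 535528975)) (b (l 535772175) (l 535551759))))) (a (a (b (l 534829583) (b (l 534648847) (l 534704143))) (b (l 534849039) (b (l 534670351) (l 534726671)))) (b (a (l 534869775) (l 534891791)) (a (b (l 534692879) (l 534750479)) (b (l 534716431) (l 534775311)))))) (b (a (a (c (l 535717391) (l 534914831)) (l 3)) (l 3)) (b (a (a (c (l 535794703) (l 534741263)) (c (l 535818255)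 (l 534767119))) (a (c (l 535842831) (l 534794255)) (l 14))) (l 14))))) (b (l 3) (l 14))) (l 3))) (b (a (a (a (a (b (b (c (a (c (l 537248015) (l 536539151)) (c (l 537265935) (l 536559119))) (a (c (l 535530255) (b (l 534745103) (l 534771471))) (c (l 535552015) (b (l 534768655) (l 14))))) (l 14)) (l 14)) (l 14)) (l 14)) (l 14)) (l 14)) (l 14))), by decide +kernel⟩

theorem t249_B00pm_102_s1 : ∃ t, chk3 f_B00pm_102_s1 t 60 63 1 = true := ex3_b k245_B00pm_102_s1 k246_B00pm_102_s1

theorem t250_B00pm_102_s1 : ∃ t, chk3 f_B00pm_102_s1 t 30 63 1 = true := ex3_a t249_B00pm_102_s1 k247_B00pm_102_s1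

theorem t251_B00pm_102_s1 : ∃ t, chk3 f_B00pm_102_s1 t 493 500 3 = true := ex3_c k240_B00pm_102_s1 k241_B00pm_102_s1

theorem t252_B00pm_102_s1 : ∃ t, chk3 f_B00pm_102_s1 t 246 500 3 = true := ex3_a k239_B00pm_102_s1 t251_B00pm_102_s1

theorem t253_B00pm_102_s1 : ∃ t, chk3 f_B00pm_102_s1 t 246 250 3 = true := ex3_b t252_B00pm_102_s1 k242_B00pm_102_s1

theorem t254_B00pm_102_s1 : ∃ t, chk3 f_B00pm_102_s1 t 123 250 3 = true := ex3_a t253_B00pm_102_s1 k243_B00pm_102_s1

theorem t255_B00pm_102_s1 : ∃ t, chk3 f_B00pm_102_s1 t 123 250 1 = true := ex3_c k238_B00pm_102_s1 t254_B00pm_102_s1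

theorem t256_B00pm_102_s1 : ∃ t, chk3 f_B00pm_102_s1 t 123 125 1 = true := ex3_b t255_B00pm_102_s1 k244_B00pm_102_s1

theorem t257_B00pm_102_s1 : ∃ t, chk3 f_B00pm_102_s1 t 61 125 1 = true := ex3_a k237_B00pm_102_s1 t256_B00pm_102_s1

theorem t258_B00pm_102_s1 : ∃ t, chk3 f_B00pm_102_s1 t 492 499 7 = true := ex3_b k233_B00pm_102_s1 k234_B00pm_102_s1

theorem t259_B00pm_102_s1 : ∃ t, chk3 f_B00pm_102_s1 t 492 249 7 = true := ex3_b k232_B00pm_102_s1 t258_B00pm_102_s1

theorem t260_B00pm_102_s1 : ∃ t, chk3 f_B00pm_102_s1 t 246 249 7 = true := ex3_a t259_B00pm_102_s1 k235_B00pm_102_s1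

theorem t261_B00pm_102_s1 : ∃ t, chk3 f_B00pm_102_s1 t 246 124 7 = true := ex3_b k231_B00pm_102_s1 t260_B00pm_102_s1

theorem t262_B00pm_102_s1 : ∃ t, chk3 f_B00pm_102_s1 t 123 124 7 = true := ex3_a t261_B00pm_102_s1 k236_B00pm_102_s1

theorem t263_B00pm_102_s1 : ∃ t, chk3 f_B00pm_102_s1 t 123 124 6 = true := ex3_b k229_B00pm_102_s1 k230_B00pm_102_s1

theorem t264_B00pm_102_s1 : ∃ t, chk3 f_B00pm_102_s1 t 123 124 3 = true := ex3_c t263_B00pm_102_s1 t262_B00pm_102_s1

theorem t265_B00pm_102_s1 : ∃ t, chk3 f_B00pm_102_s1 t 123 124 1 = true := ex3_c k228_B00pm_102_s1 t264_B00pm_102_s1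

theorem t266_B00pm_102_s1 : ∃ t, chk3 f_B00pm_102_s1 t 491 997 3 = true := ex3_a k225_B00pm_102_s1 k226_B00pm_102_s1

theorem t267_B00pm_102_s1 : ∃ t, chk3 f_B00pm_102_s1 t 491 498 3 = true := ex3_b k224_B00pm_102_s1 t266_B00pm_102_s1

theorem t268_B00pm_102_s1 : ∃ t, chk3 f_B00pm_102_s1 t 490 996 3 = true := ex3_a k221_B00pm_102_s1 k222_B00pm_102_s1

theorem t269_B00pm_102_s1 : ∃ t, chk3 f_B00pm_102_s1 t 490 498 3 = true := ex3_b t268_B00pm_102_s1 k223_B00pm_102_s1

theorem t270_B00pm_102_s1 : ∃ t, chk3 f_B00pm_102_s1 t 245 498 3 = true := ex3_a t269_B00pm_102_s1 t267_B00pm_102_s1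

theorem t271_B00pm_102_s1 : ∃ t, chk3 f_B00pm_102_s1 t 245 249 3 = true := ex3_b t270_B00pm_102_s1 k227_B00pm_102_s1

theorem t272_B00pm_102_s1 : ∃ t, chk3 f_B00pm_102_s1 t 122 249 3 = true := ex3_a k220_B00pm_102_s1 t271_B00pm_102_s1

theorem t273_B00pm_102_s1 : ∃ t, chk3 f_B00pm_102_s1 t 489 497 3 = true := ex3_b k217_B00pm_102_s1 k218_B00pm_102_s1

theorem t274_B00pm_102_s1 : ∃ t, chk3 f_B00pm_102_s1 t 244 497 3 = true := ex3_a k216_B00pm_102_s1 t273_B00pm_102_s1

theorem t275_B00pm_102_s1 : ∃ t, chk3 f_B00pm_102_s1 t 488 496 3 = true := ex3_a k213_B00pm_102_s1 k214_B00pm_102_s1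

theorem t276_B00pm_102_s1 : ∃ t, chk3 f_B00pm_102_s1 t 244 496 3 = true := ex3_a t275_B00pm_102_s1 k215_B00pm_102_s1

theorem t277_B00pm_102_s1 : ∃ t, chk3 f_B00pm_102_s1 t 244 248 3 = true := ex3_b t276_B00pm_102_s1 t274_B00pm_102_s1

theorem t278_B00pm_102_s1 : ∃ t, chk3 f_B00pm_102_s1 t 122 248 3 = true := ex3_a t277_B00pm_102_s1 k219_B00pm_102_s1

theorem t279_B00pm_102_s1 : ∃ t, chk3 f_B00pm_102_s1 t 122 124 3 = true := ex3_b t278_B00pm_102_s1 t272_B00pm_102_s1

theorem t280_B00pm_102_s1 : ∃ t, chk3 f_B00pm_102_s1 t 122 124 2 = true := ex3_b k211_B00pm_102_s1 k212_B00pm_102_s1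

theorem t281_B00pm_102_s1 : ∃ t, chk3 f_B00pm_102_s1 t 122 124 1 = true := ex3_c t280_B00pm_102_s1 t279_B00pm_102_s1

theorem t282_B00pm_102_s1 : ∃ t, chk3 f_B00pm_102_s1 t 61 124 1 = true := ex3_a t281_B00pm_102_s1 t265_B00pm_102_s1

theorem t283_B00pm_102_s1 : ∃ t, chk3 f_B00pm_102_s1 t 61 62 1 = true := ex3_b t282_B00pm_102_s1 t257_B00pm_102_s1

theorem t284_B00pm_102_s1 : ∃ t, chk3 f_B00pm_102_s1 t 487 496 7 = true := ex3_b k206_B00pm_102_s1 k207_B00pm_102_s1

theorem t285_B00pm_102_s1 : ∃ t, chk3 f_B00pm_102_s1 t 243 496 7 = true := ex3_a k205_B00pm_102_s1 t284_B00pm_102_s1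

theorem t286_B00pm_102_s1 : ∃ t, chk3 f_B00pm_102_s1 t 243 496 3 = true := ex3_c k204_B00pm_102_s1 t285_B00pm_102_s1

theorem t287_B00pm_102_s1 : ∃ t, chk3 f_B00pm_102_s1 t 243 248 3 = true := ex3_b t286_B00pm_102_s1 k208_B00pm_102_s1

theorem t288_B00pm_102_s1 : ∃ t, chk3 f_B00pm_102_s1 t 121 248 3 = true := ex3_a k203_B00pm_102_s1 t287_B00pm_102_s1

theorem t289_B00pm_102_s1 : ∃ t, chk3 f_B00pm_102_s1 t 121 248 1 = true := ex3_c k202_B00pm_102_s1 t288_B00pm_102_s1

theorem t290_B00pm_102_s1 : ∃ t, chk3 f_B00pm_102_s1 t 121 124 1 = true := ex3_b t289_B00pm_102_s1 k209_B00pm_102_s1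

theorem t291_B00pm_102_s1 : ∃ t, chk3 f_B00pm_102_s1 t 60 124 1 = true := ex3_a k201_B00pm_102_s1 t290_B00pm_102_s1

theorem t292_B00pm_102_s1 : ∃ t, chk3 f_B00pm_102_s1 t 60 62 1 = true := ex3_b t291_B00pm_102_s1 k210_B00pm_102_s1

theorem t293_B00pm_102_s1 : ∃ t, chk3 f_B00pm_102_s1 t 30 62 1 = true := ex3_a t292_B00pm_102_s1 t283_B00pm_102_s1

theorem t294_B00pm_102_s1 : ∃ t, chk3 f_B00pm_102_s1 t 30 31 1 = true := ex3_b t293_B00pm_102_s1 t250_B00pm_102_s1

theorem t295_B00pm_102_s1 : ∃ t, chk3 f_B00pm_102_s1 t 123 30 1 = true := ex3_b k199_B00pm_102_s1 k200_B00pm_102_s1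

theorem t296_B00pm_102_s1 : ∃ t, chk3 f_B00pm_102_s1 t 122 30 3 = true := ex3_b k197_B00pm_102_s1 k198_B00pm_102_s1

theorem t297_B00pm_102_s1 : ∃ t, chk3 f_B00pm_102_s1 t 122 30 1 = true := ex3_c k196_B00pm_102_s1 t296_B00pm_102_s1

theorem t298_B00pm_102_s1 : ∃ t, chk3 f_B00pm_102_s1 t 61 30 1 = true := ex3_a t297_B00pm_102_s1 t295_B00pm_102_s1

theorem t299_B00pm_102_s1 : ∃ t, chk3 f_B00pm_102_s1 t 486 991 3 = true := ex3_a k193_B00pm_102_s1 k194_B00pm_102_s1

theorem t300_B00pm_102_s1 : ∃ t, chk3 f_B00pm_102_s1 t 486 495 3 = true := ex3_b k192_B00pm_102_s1 t299_B00pm_102_s1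

theorem t301_B00pm_102_s1 : ∃ t, chk3 f_B00pm_102_s1 t 486 247 3 = true := ex3_b k191_B00pm_102_s1 t300_B00pm_102_s1

theorem t302_B00pm_102_s1 : ∃ t, chk3 f_B00pm_102_s1 t 243 247 3 = true := ex3_a t301_B00pm_102_s1 k195_B00pm_102_s1

theorem t303_B00pm_102_s1 : ∃ t, chk3 f_B00pm_102_s1 t 485 989 3 = true := ex3_c k188_B00pm_102_s1 k189_B00pm_102_s1

theorem t304_B00pm_102_s1 : ∃ t, chk3 f_B00pm_102_s1 t 485 494 3 = true := ex3_b k187_B00pm_102_s1 t303_B00pm_102_s1

theorem t305_B00pm_102_s1 : ∃ t, chk3 f_B00pm_102_s1 t 484 494 3 = true := ex3_b k185_B00pm_102_s1 k186_B00pm_102_s1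

theorem t306_B00pm_102_s1 : ∃ t, chk3 f_B00pm_102_s1 t 242 494 3 = true := ex3_a t305_B00pm_102_s1 t304_B00pm_102_s1

theorem t307_B00pm_102_s1 : ∃ t, chk3 f_B00pm_102_s1 t 242 247 3 = true := ex3_b t306_B00pm_102_s1 k190_B00pm_102_s1

theorem t308_B00pm_102_s1 : ∃ t, chk3 f_B00pm_102_s1 t 121 247 3 = true := ex3_a t307_B00pm_102_s1 t302_B00pm_102_s1

theorem t309_B00pm_102_s1 : ∃ t, chk3 f_B00pm_102_s1 t 121 123 3 = true := ex3_b k184_B00pm_102_s1 t308_B00pm_102_s1

theorem t310_B00pm_102_s1 : ∃ t, chk3 f_B00pm_102_s1 t 121 247 2 = true := ex3_a k182_B00pm_102_s1 k183_B00pm_102_s1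

theorem t311_B00pm_102_s1 : ∃ t, chk3 f_B00pm_102_s1 t 121 123 2 = true := ex3_b k181_B00pm_102_s1 t310_B00pm_102_s1

theorem t312_B00pm_102_s1 : ∃ t, chk3 f_B00pm_102_s1 t 121 123 1 = true := ex3_c t311_B00pm_102_s1 t309_B00pm_102_s1

theorem t313_B00pm_102_s1 : ∃ t, chk3 f_B00pm_102_s1 t 241 493 3 = true := ex3_a k178_B00pm_102_s1 k179_B00pm_102_s1

theorem t314_B00pm_102_s1 : ∃ t, chk3 f_B00pm_102_s1 t 241 246 3 = true := ex3_b k177_B00pm_102_s1 t313_B00pm_102_s1

theorem t315_B00pm_102_s1 : ∃ t, chk3 f_B00pm_102_s1 t 120 246 3 = true := ex3_a k176_B00pm_102_s1 t314_B00pm_102_s1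

theorem t316_B00pm_102_s1 : ∃ t, chk3 f_B00pm_102_s1 t 120 123 3 = true := ex3_b t315_B00pm_102_s1 k180_B00pm_102_s1

theorem t317_B00pm_102_s1 : ∃ t, chk3 f_B00pm_102_s1 t 120 246 2 = true := ex3_c k173_B00pm_102_s1 k174_B00pm_102_s1

theorem t318_B00pm_102_s1 : ∃ t, chk3 f_B00pm_102_s1 t 120 123 2 = true := ex3_b t317_B00pm_102_s1 k175_B00pm_102_s1

theorem t319_B00pm_102_s1 : ∃ t, chk3 f_B00pm_102_s1 t 120 123 1 = true := ex3_c t318_B00pm_102_s1 t316_B00pm_102_s1

theorem t320_B00pm_102_s1 : ∃ t, chk3 f_B00pm_102_s1 t 60 123 1 = true := ex3_a t319_B00pm_102_s1 t312_B00pm_102_s1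

theorem t321_B00pm_102_s1 : ∃ t, chk3 f_B00pm_102_s1 t 240 245 3 = true := ex3_a k169_B00pm_102_s1 k170_B00pm_102_s1

theorem t322_B00pm_102_s1 : ∃ t, chk3 f_B00pm_102_s1 t 240 122 3 = true := ex3_b k168_B00pm_102_s1 t321_B00pm_102_s1

theorem t323_B00pm_102_s1 : ∃ t, chk3 f_B00pm_102_s1 t 240 122 1 = true := ex3_c k167_B00pm_102_s1 t322_B00pm_102_s1

theorem t324_B00pm_102_s1 : ∃ t, chk3 f_B00pm_102_s1 t 120 122 1 = true := ex3_a t323_B00pm_102_s1 k171_B00pm_102_s1

theorem t325_B00pm_102_s1 : ∃ t, chk3 f_B00pm_102_s1 t 60 122 1 = true := ex3_a t324_B00pm_102_s1 k172_B00pm_102_s1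

theorem t326_B00pm_102_s1 : ∃ t, chk3 f_B00pm_102_s1 t 60 61 1 = true := ex3_b t325_B00pm_102_s1 t320_B00pm_102_s1

theorem t327_B00pm_102_s1 : ∃ t, chk3 f_B00pm_102_s1 t 60 60 1 = true := ex3_c k165_B00pm_102_s1 k166_B00pm_102_s1

theorem t328_B00pm_102_s1 : ∃ t, chk3 f_B00pm_102_s1 t 60 30 1 = true := ex3_b t327_B00pm_102_s1 t326_B00pm_102_s1

theorem t329_B00pm_102_s1 : ∃ t, chk3 f_B00pm_102_s1 t 30 30 1 = true := ex3_a t328_B00pm_102_s1 t298_B00pm_102_s1

theorem t330_B00pm_102_s1 : ∃ t, chk3 f_B00pm_102_s1 t 30 15 1 = true := ex3_b t329_B00pm_102_s1 t294_B00pm_102_s1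

theorem t331_B00pm_102_s1 : ∃ t, chk3 f_B00pm_102_s1 t 15 15 1 = true := ex3_a t330_B00pm_102_s1 k248_B00pm_102_s1

theorem t332_B00pm_102_s1 : ∃ t, chk3 f_B00pm_102_s1 t 15 7 1 = true := ex3_b k164_B00pm_102_s1 t331_B00pm_102_s1

theorem t333_B00pm_102_s1 : ∃ t, chk3 f_B00pm_102_s1 t 118 127 3 = true := ex3_a k161_B00pm_102_s1 k162_B00pm_102_s1

theorem t334_B00pm_102_s1 : ∃ t, chk3 f_B00pm_102_s1 t 59 127 3 = true := ex3_a t333_B00pm_102_s1 k163_B00pm_102_s1

theorem t335_B00pm_102_s1 : ∃ t, chk3 f_B00pm_102_s1 t 59 63 3 = true := ex3_b k160_B00pm_102_s1 t334_B00pm_102_s1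

theorem t336_B00pm_102_s1 : ∃ t, chk3 f_B00pm_102_s1 t 59 127 2 = true := ex3_a k158_B00pm_102_s1 k159_B00pm_102_s1

theorem t337_B00pm_102_s1 : ∃ t, chk3 f_B00pm_102_s1 t 59 63 2 = true := ex3_b k157_B00pm_102_s1 t336_B00pm_102_s1

theorem t338_B00pm_102_s1 : ∃ t, chk3 f_B00pm_102_s1 t 59 63 1 = true := ex3_c t337_B00pm_102_s1 t335_B00pm_102_s1

theorem t339_B00pm_102_s1 : ∃ t, chk3 f_B00pm_102_s1 t 59 62 1 = true := ex3_a k155_B00pm_102_s1 k156_B00pm_102_s1

theorem t340_B00pm_102_s1 : ∃ t, chk3 f_B00pm_102_s1 t 59 31 1 = true := ex3_b t339_B00pm_102_s1 t338_B00pm_102_s1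

theorem t341_B00pm_102_s1 : ∃ t, chk3 f_B00pm_102_s1 t 942 2047 7 = true := ex3_b k152_B00pm_102_s1 k153_B00pm_102_s1

theorem t342_B00pm_102_s1 : ∃ t, chk3 f_B00pm_102_s1 t 471 2047 7 = true := ex3_a t341_B00pm_102_s1 k154_B00pm_102_s1

theorem t343_B00pm_102_s1 : ∃ t, chk3 f_B00pm_102_s1 t 471 2047 3 = true := ex3_c k151_B00pm_102_s1 t342_B00pm_102_s1

theorem t344_B00pm_102_s1 : ∃ t, chk3 f_B00pm_102_s1 t 471 1023 3 = true := ex3_b k150_B00pm_102_s1 t343_B00pm_102_s1

theorem t345_B00pm_102_s1 : ∃ t, chk3 f_B00pm_102_s1 t 471 511 3 = true := ex3_b k149_B00pm_102_s1 t344_B00pm_102_s1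

theorem t346_B00pm_102_s1 : ∃ t, chk3 f_B00pm_102_s1 t 940 2047 7 = true := ex3_b k146_B00pm_102_s1 k147_B00pm_102_s1

theorem t347_B00pm_102_s1 : ∃ t, chk3 f_B00pm_102_s1 t 470 2047 7 = true := ex3_a t346_B00pm_102_s1 k148_B00pm_102_s1

theorem t348_B00pm_102_s1 : ∃ t, chk3 f_B00pm_102_s1 t 470 2047 3 = true := ex3_c k145_B00pm_102_s1 t347_B00pm_102_s1

theorem t349_B00pm_102_s1 : ∃ t, chk3 f_B00pm_102_s1 t 470 1023 3 = true := ex3_b k144_B00pm_102_s1 t348_B00pm_102_s1

theorem t350_B00pm_102_s1 : ∃ t, chk3 f_B00pm_102_s1 t 470 511 3 = true := ex3_b k143_B00pm_102_s1 t349_B00pm_102_s1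

theorem t351_B00pm_102_s1 : ∃ t, chk3 f_B00pm_102_s1 t 235 511 3 = true := ex3_a t350_B00pm_102_s1 t345_B00pm_102_s1

theorem t352_B00pm_102_s1 : ∃ t, chk3 f_B00pm_102_s1 t 235 255 3 = true := ex3_b k142_B00pm_102_s1 t351_B00pm_102_s1

theorem t353_B00pm_102_s1 : ∃ t, chk3 f_B00pm_102_s1 t 469 4095 7 = true := ex3_a k140_B00pm_102_s1 k141_B00pm_102_s1

theorem t354_B00pm_102_s1 : ∃ t, chk3 f_B00pm_102_s1 t 469 2047 7 = true := ex3_b k139_B00pm_102_s1 t353_B00pm_102_s1

theorem t355_B00pm_102_s1 : ∃ t, chk3 f_B00pm_102_s1 t 469 1023 7 = true := ex3_b k138_B00pm_102_s1 t354_B00pm_102_s1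

theorem t356_B00pm_102_s1 : ∃ t, chk3 f_B00pm_102_s1 t 469 1023 3 = true := ex3_c k137_B00pm_102_s1 t355_B00pm_102_s1

theorem t357_B00pm_102_s1 : ∃ t, chk3 f_B00pm_102_s1 t 468 4095 7 = true := ex3_a k135_B00pm_102_s1 k136_B00pm_102_s1

theorem t358_B00pm_102_s1 : ∃ t, chk3 f_B00pm_102_s1 t 468 2047 7 = true := ex3_b k134_B00pm_102_s1 t357_B00pm_102_s1

theorem t359_B00pm_102_s1 : ∃ t, chk3 f_B00pm_102_s1 t 468 1023 7 = true := ex3_b k133_B00pm_102_s1 t358_B00pm_102_s1

theorem t360_B00pm_102_s1 : ∃ t, chk3 f_B00pm_102_s1 t 468 1023 3 = true := ex3_c k132_B00pm_102_s1 t359_B00pm_102_s1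

theorem t361_B00pm_102_s1 : ∃ t, chk3 f_B00pm_102_s1 t 234 1023 3 = true := ex3_a t360_B00pm_102_s1 t356_B00pm_102_s1

theorem t362_B00pm_102_s1 : ∃ t, chk3 f_B00pm_102_s1 t 234 511 3 = true := ex3_b k131_B00pm_102_s1 t361_B00pm_102_s1

theorem t363_B00pm_102_s1 : ∃ t, chk3 f_B00pm_102_s1 t 234 255 3 = true := ex3_b k130_B00pm_102_s1 t362_B00pm_102_s1

theorem t364_B00pm_102_s1 : ∃ t, chk3 f_B00pm_102_s1 t 117 255 3 = true := ex3_a t363_B00pm_102_s1 t352_B00pm_102_s1

theorem t365_B00pm_102_s1 : ∃ t, chk3 f_B00pm_102_s1 t 117 127 3 = true := ex3_b k129_B00pm_102_s1 t364_B00pm_102_s1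

theorem t366_B00pm_102_s1 : ∃ t, chk3 f_B00pm_102_s1 t 467 2047 7 = true := ex3_b k127_B00pm_102_s1 k128_B00pm_102_s1

theorem t367_B00pm_102_s1 : ∃ t, chk3 f_B00pm_102_s1 t 467 1023 7 = true := ex3_b k126_B00pm_102_s1 t366_B00pm_102_s1

theorem t368_B00pm_102_s1 : ∃ t, chk3 f_B00pm_102_s1 t 233 1023 7 = true := ex3_a k125_B00pm_102_s1 t367_B00pm_102_s1

theorem t369_B00pm_102_s1 : ∃ t, chk3 f_B00pm_102_s1 t 467 1023 6 = true := ex3_b k123_B00pm_102_s1 k124_B00pm_102_s1

theorem t370_B00pm_102_s1 : ∃ t, chk3 f_B00pm_102_s1 t 466 2047 6 = true := ex3_b k121_B00pm_102_s1 k122_B00pm_102_s1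

theorem t371_B00pm_102_s1 : ∃ t, chk3 f_B00pm_102_s1 t 466 1023 6 = true := ex3_b k120_B00pm_102_s1 t370_B00pm_102_s1

theorem t372_B00pm_102_s1 : ∃ t, chk3 f_B00pm_102_s1 t 233 1023 6 = true := ex3_a t371_B00pm_102_s1 t369_B00pm_102_s1

theorem t373_B00pm_102_s1 : ∃ t, chk3 f_B00pm_102_s1 t 233 1023 3 = true := ex3_c t372_B00pm_102_s1 t368_B00pm_102_s1

theorem t374_B00pm_102_s1 : ∃ t, chk3 f_B00pm_102_s1 t 233 511 3 = true := ex3_b k119_B00pm_102_s1 t373_B00pm_102_s1

theorem t375_B00pm_102_s1 : ∃ t, chk3 f_B00pm_102_s1 t 465 4095 6 = true := ex3_a k116_B00pm_102_s1 k117_B00pm_102_s1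

theorem t376_B00pm_102_s1 : ∃ t, chk3 f_B00pm_102_s1 t 465 2047 6 = true := ex3_b k115_B00pm_102_s1 t375_B00pm_102_s1

theorem t377_B00pm_102_s1 : ∃ t, chk3 f_B00pm_102_s1 t 465 1023 6 = true := ex3_b k114_B00pm_102_s1 t376_B00pm_102_s1

theorem t378_B00pm_102_s1 : ∃ t, chk3 f_B00pm_102_s1 t 464 2047 6 = true := ex3_b k112_B00pm_102_s1 k113_B00pm_102_s1

theorem t379_B00pm_102_s1 : ∃ t, chk3 f_B00pm_102_s1 t 464 1023 6 = true := ex3_b k111_B00pm_102_s1 t378_B00pm_102_s1

theorem t380_B00pm_102_s1 : ∃ t, chk3 f_B00pm_102_s1 t 232 1023 6 = true := ex3_a t379_B00pm_102_s1 t377_B00pm_102_s1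

theorem t381_B00pm_102_s1 : ∃ t, chk3 f_B00pm_102_s1 t 232 1023 3 = true := ex3_c t380_B00pm_102_s1 k118_B00pm_102_s1

theorem t382_B00pm_102_s1 : ∃ t, chk3 f_B00pm_102_s1 t 232 511 3 = true := ex3_b k110_B00pm_102_s1 t381_B00pm_102_s1

theorem t383_B00pm_102_s1 : ∃ t, chk3 f_B00pm_102_s1 t 116 511 3 = true := ex3_a t382_B00pm_102_s1 t374_B00pm_102_s1

theorem t384_B00pm_102_s1 : ∃ t, chk3 f_B00pm_102_s1 t 116 255 3 = true := ex3_b k109_B00pm_102_s1 t383_B00pm_102_s1

theorem t385_B00pm_102_s1 : ∃ t, chk3 f_B00pm_102_s1 t 116 127 3 = true := ex3_b k108_B00pm_102_s1 t384_B00pm_102_s1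

theorem t386_B00pm_102_s1 : ∃ t, chk3 f_B00pm_102_s1 t 58 127 3 = true := ex3_a t385_B00pm_102_s1 t365_B00pm_102_s1

theorem t387_B00pm_102_s1 : ∃ t, chk3 f_B00pm_102_s1 t 58 63 3 = true := ex3_b k107_B00pm_102_s1 t386_B00pm_102_s1

theorem t388_B00pm_102_s1 : ∃ t, chk3 f_B00pm_102_s1 t 58 31 3 = true := ex3_b k106_B00pm_102_s1 t387_B00pm_102_s1

theorem t389_B00pm_102_s1 : ∃ t, chk3 f_B00pm_102_s1 t 235 511 2 = true := ex3_a k104_B00pm_102_s1 k105_B00pm_102_s1

theorem t390_B00pm_102_s1 : ∃ t, chk3 f_B00pm_102_s1 t 234 1023 2 = true := ex3_a k102_B00pm_102_s1 k103_B00pm_102_s1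

theorem t391_B00pm_102_s1 : ∃ t, chk3 f_B00pm_102_s1 t 234 511 2 = true := ex3_b k101_B00pm_102_s1 t390_B00pm_102_s1

theorem t392_B00pm_102_s1 : ∃ t, chk3 f_B00pm_102_s1 t 117 511 2 = true := ex3_a t391_B00pm_102_s1 t389_B00pm_102_s1

theorem t393_B00pm_102_s1 : ∃ t, chk3 f_B00pm_102_s1 t 117 255 2 = true := ex3_b k100_B00pm_102_s1 t392_B00pm_102_s1

theorem t394_B00pm_102_s1 : ∃ t, chk3 f_B00pm_102_s1 t 117 127 2 = true := ex3_b k99_B00pm_102_s1 t393_B00pm_102_s1

theorem t395_B00pm_102_s1 : ∃ t, chk3 f_B00pm_102_s1 t 233 1023 2 = true := ex3_a k97_B00pm_102_s1 k98_B00pm_102_s1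

theorem t396_B00pm_102_s1 : ∃ t, chk3 f_B00pm_102_s1 t 233 511 2 = true := ex3_b k96_B00pm_102_s1 t395_B00pm_102_s1

theorem t397_B00pm_102_s1 : ∃ t, chk3 f_B00pm_102_s1 t 232 1023 2 = true := ex3_a k94_B00pm_102_s1 k95_B00pm_102_s1

theorem t398_B00pm_102_s1 : ∃ t, chk3 f_B00pm_102_s1 t 232 511 2 = true := ex3_b k93_B00pm_102_s1 t397_B00pm_102_s1

theorem t399_B00pm_102_s1 : ∃ t, chk3 f_B00pm_102_s1 t 116 511 2 = true := ex3_a t398_B00pm_102_s1 t396_B00pm_102_s1

theorem t400_B00pm_102_s1 : ∃ t, chk3 f_B00pm_102_s1 t 116 255 2 = true := ex3_b k92_B00pm_102_s1 t399_B00pm_102_s1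

theorem t401_B00pm_102_s1 : ∃ t, chk3 f_B00pm_102_s1 t 116 127 2 = true := ex3_b k91_B00pm_102_s1 t400_B00pm_102_s1

theorem t402_B00pm_102_s1 : ∃ t, chk3 f_B00pm_102_s1 t 58 127 2 = true := ex3_a t401_B00pm_102_s1 t394_B00pm_102_s1

theorem t403_B00pm_102_s1 : ∃ t, chk3 f_B00pm_102_s1 t 58 63 2 = true := ex3_b k90_B00pm_102_s1 t402_B00pm_102_s1

theorem t404_B00pm_102_s1 : ∃ t, chk3 f_B00pm_102_s1 t 58 31 2 = true := ex3_b k89_B00pm_102_s1 t403_B00pm_102_s1

theorem t405_B00pm_102_s1 : ∃ t, chk3 f_B00pm_102_s1 t 58 31 1 = true := ex3_c t404_B00pm_102_s1 t388_B00pm_102_s1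

theorem t406_B00pm_102_s1 : ∃ t, chk3 f_B00pm_102_s1 t 29 31 1 = true := ex3_a t405_B00pm_102_s1 t340_B00pm_102_s1

theorem t407_B00pm_102_s1 : ∃ t, chk3 f_B00pm_102_s1 t 239 490 3 = true := ex3_a k85_B00pm_102_s1 k86_B00pm_102_s1

theorem t408_B00pm_102_s1 : ∃ t, chk3 f_B00pm_102_s1 t 239 245 3 = true := ex3_b t407_B00pm_102_s1 k87_B00pm_102_s1

theorem t409_B00pm_102_s1 : ∃ t, chk3 f_B00pm_102_s1 t 119 245 3 = true := ex3_a k84_B00pm_102_s1 t408_B00pm_102_s1

theorem t410_B00pm_102_s1 : ∃ t, chk3 f_B00pm_102_s1 t 238 489 3 = true := ex3_a k81_B00pm_102_s1 k82_B00pm_102_s1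

theorem t411_B00pm_102_s1 : ∃ t, chk3 f_B00pm_102_s1 t 238 244 3 = true := ex3_b k80_B00pm_102_s1 t410_B00pm_102_s1

theorem t412_B00pm_102_s1 : ∃ t, chk3 f_B00pm_102_s1 t 119 244 3 = true := ex3_a t411_B00pm_102_s1 k83_B00pm_102_s1

theorem t413_B00pm_102_s1 : ∃ t, chk3 f_B00pm_102_s1 t 119 122 3 = true := ex3_b t412_B00pm_102_s1 t409_B00pm_102_s1

theorem t414_B00pm_102_s1 : ∃ t, chk3 f_B00pm_102_s1 t 119 122 2 = true := ex3_b k78_B00pm_102_s1 k79_B00pm_102_s1

theorem t415_B00pm_102_s1 : ∃ t, chk3 f_B00pm_102_s1 t 119 122 1 = true := ex3_c t414_B00pm_102_s1 t413_B00pm_102_s1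

theorem t416_B00pm_102_s1 : ∃ t, chk3 f_B00pm_102_s1 t 118 122 1 = true := ex3_c k76_B00pm_102_s1 k77_B00pm_102_s1

theorem t417_B00pm_102_s1 : ∃ t, chk3 f_B00pm_102_s1 t 59 122 1 = true := ex3_a t416_B00pm_102_s1 t415_B00pm_102_s1

theorem t418_B00pm_102_s1 : ∃ t, chk3 f_B00pm_102_s1 t 59 61 1 = true := ex3_b t417_B00pm_102_s1 k88_B00pm_102_s1

theorem t419_B00pm_102_s1 : ∃ t, chk3 f_B00pm_102_s1 t 118 60 3 = true := ex3_b k73_B00pm_102_s1 k74_B00pm_102_s1

theorem t420_B00pm_102_s1 : ∃ t, chk3 f_B00pm_102_s1 t 118 60 1 = true := ex3_c k72_B00pm_102_s1 t419_B00pm_102_s1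

theorem t421_B00pm_102_s1 : ∃ t, chk3 f_B00pm_102_s1 t 59 60 1 = true := ex3_a t420_B00pm_102_s1 k75_B00pm_102_s1

theorem t422_B00pm_102_s1 : ∃ t, chk3 f_B00pm_102_s1 t 59 30 1 = true := ex3_b t421_B00pm_102_s1 t418_B00pm_102_s1

theorem t423_B00pm_102_s1 : ∃ t, chk3 f_B00pm_102_s1 t 117 60 1 = true := ex3_c k69_B00pm_102_s1 k70_B00pm_102_s1

theorem t424_B00pm_102_s1 : ∃ t, chk3 f_B00pm_102_s1 t 58 60 1 = true := ex3_a k68_B00pm_102_s1 t423_B00pm_102_s1

theorem t425_B00pm_102_s1 : ∃ t, chk3 f_B00pm_102_s1 t 58 30 1 = true := ex3_b t424_B00pm_102_s1 k71_B00pm_102_s1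

theorem t426_B00pm_102_s1 : ∃ t, chk3 f_B00pm_102_s1 t 29 30 1 = true := ex3_a t425_B00pm_102_s1 t422_B00pm_102_s1

theorem t427_B00pm_102_s1 : ∃ t, chk3 f_B00pm_102_s1 t 29 15 1 = true := ex3_b t426_B00pm_102_s1 t406_B00pm_102_s1

theorem t428_B00pm_102_s1 : ∃ t, chk3 f_B00pm_102_s1 t 463 2047 6 = true := ex3_b k65_B00pm_102_s1 k66_B00pm_102_s1

theorem t429_B00pm_102_s1 : ∃ t, chk3 f_B00pm_102_s1 t 463 1023 6 = true := ex3_b k64_B00pm_102_s1 t428_B00pm_102_s1

theorem t430_B00pm_102_s1 : ∃ t, chk3 f_B00pm_102_s1 t 231 1023 6 = true := ex3_a k63_B00pm_102_s1 t429_B00pm_102_s1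

theorem t431_B00pm_102_s1 : ∃ t, chk3 f_B00pm_102_s1 t 231 1023 3 = true := ex3_c t430_B00pm_102_s1 k67_B00pm_102_s1

theorem t432_B00pm_102_s1 : ∃ t, chk3 f_B00pm_102_s1 t 231 511 3 = true := ex3_b k62_B00pm_102_s1 t431_B00pm_102_s1

theorem t433_B00pm_102_s1 : ∃ t, chk3 f_B00pm_102_s1 t 115 511 3 = true := ex3_a k61_B00pm_102_s1 t432_B00pm_102_s1

theorem t434_B00pm_102_s1 : ∃ t, chk3 f_B00pm_102_s1 t 115 255 3 = true := ex3_b k60_B00pm_102_s1 t433_B00pm_102_s1

theorem t435_B00pm_102_s1 : ∃ t, chk3 f_B00pm_102_s1 t 115 127 3 = true := ex3_b k59_B00pm_102_s1 t434_B00pm_102_s1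

theorem t436_B00pm_102_s1 : ∃ t, chk3 f_B00pm_102_s1 t 57 127 3 = true := ex3_a k58_B00pm_102_s1 t435_B00pm_102_s1

theorem t437_B00pm_102_s1 : ∃ t, chk3 f_B00pm_102_s1 t 57 63 3 = true := ex3_b k57_B00pm_102_s1 t436_B00pm_102_s1

theorem t438_B00pm_102_s1 : ∃ t, chk3 f_B00pm_102_s1 t 57 31 3 = true := ex3_b k56_B00pm_102_s1 t437_B00pm_102_s1

theorem t439_B00pm_102_s1 : ∃ t, chk3 f_B00pm_102_s1 t 28 31 3 = true := ex3_a k55_B00pm_102_s1 t438_B00pm_102_s1

theorem t440_B00pm_102_s1 : ∃ t, chk3 f_B00pm_102_s1 t 231 2047 2 = true := ex3_a k53_B00pm_102_s1 k54_B00pm_102_s1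

theorem t441_B00pm_102_s1 : ∃ t, chk3 f_B00pm_102_s1 t 231 1023 2 = true := ex3_b k52_B00pm_102_s1 t440_B00pm_102_s1

theorem t442_B00pm_102_s1 : ∃ t, chk3 f_B00pm_102_s1 t 231 511 2 = true := ex3_b k51_B00pm_102_s1 t441_B00pm_102_s1

theorem t443_B00pm_102_s1 : ∃ t, chk3 f_B00pm_102_s1 t 230 2047 5 = true := ex3_a k49_B00pm_102_s1 k50_B00pm_102_s1

theorem t444_B00pm_102_s1 : ∃ t, chk3 f_B00pm_102_s1 t 230 2047 2 = true := ex3_c k48_B00pm_102_s1 t443_B00pm_102_s1

theorem t445_B00pm_102_s1 : ∃ t, chk3 f_B00pm_102_s1 t 230 1023 2 = true := ex3_b k47_B00pm_102_s1 t444_B00pm_102_s1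

theorem t446_B00pm_102_s1 : ∃ t, chk3 f_B00pm_102_s1 t 230 511 2 = true := ex3_b k46_B00pm_102_s1 t445_B00pm_102_s1

theorem t447_B00pm_102_s1 : ∃ t, chk3 f_B00pm_102_s1 t 115 511 2 = true := ex3_a t446_B00pm_102_s1 t442_B00pm_102_s1

theorem t448_B00pm_102_s1 : ∃ t, chk3 f_B00pm_102_s1 t 115 255 2 = true := ex3_b k45_B00pm_102_s1 t447_B00pm_102_s1

theorem t449_B00pm_102_s1 : ∃ t, chk3 f_B00pm_102_s1 t 115 127 2 = true := ex3_b k44_B00pm_102_s1 t448_B00pm_102_s1

theorem t450_B00pm_102_s1 : ∃ t, chk3 f_B00pm_102_s1 t 459 2047 2 = true := ex3_c k42_B00pm_102_s1 k43_B00pm_102_s1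

theorem t451_B00pm_102_s1 : ∃ t, chk3 f_B00pm_102_s1 t 458 2047 2 = true := ex3_c k40_B00pm_102_s1 k41_B00pm_102_s1

theorem t452_B00pm_102_s1 : ∃ t, chk3 f_B00pm_102_s1 t 229 2047 2 = true := ex3_a t451_B00pm_102_s1 t450_B00pm_102_s1

theorem t453_B00pm_102_s1 : ∃ t, chk3 f_B00pm_102_s1 t 229 1023 2 = true := ex3_b k39_B00pm_102_s1 t452_B00pm_102_s1

theorem t454_B00pm_102_s1 : ∃ t, chk3 f_B00pm_102_s1 t 457 2047 2 = true := ex3_c k37_B00pm_102_s1 k38_B00pm_102_s1

theorem t455_B00pm_102_s1 : ∃ t, chk3 f_B00pm_102_s1 t 228 2047 2 = true := ex3_a k36_B00pm_102_s1 t454_B00pm_102_s1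

theorem t456_B00pm_102_s1 : ∃ t, chk3 f_B00pm_102_s1 t 228 1023 2 = true := ex3_b k35_B00pm_102_s1 t455_B00pm_102_s1

theorem t457_B00pm_102_s1 : ∃ t, chk3 f_B00pm_102_s1 t 114 1023 2 = true := ex3_a t456_B00pm_102_s1 t453_B00pm_102_s1

theorem t458_B00pm_102_s1 : ∃ t, chk3 f_B00pm_102_s1 t 114 511 2 = true := ex3_b k34_B00pm_102_s1 t457_B00pm_102_s1

theorem t459_B00pm_102_s1 : ∃ t, chk3 f_B00pm_102_s1 t 114 255 2 = true := ex3_b k33_B00pm_102_s1 t458_B00pm_102_s1

theorem t460_B00pm_102_s1 : ∃ t, chk3 f_B00pm_102_s1 t 114 127 2 = true := ex3_b k32_B00pm_102_s1 t459_B00pm_102_s1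

theorem t461_B00pm_102_s1 : ∃ t, chk3 f_B00pm_102_s1 t 57 127 2 = true := ex3_a t460_B00pm_102_s1 t449_B00pm_102_s1

theorem t462_B00pm_102_s1 : ∃ t, chk3 f_B00pm_102_s1 t 57 63 2 = true := ex3_b k31_B00pm_102_s1 t461_B00pm_102_s1

theorem t463_B00pm_102_s1 : ∃ t, chk3 f_B00pm_102_s1 t 57 31 2 = true := ex3_b k30_B00pm_102_s1 t462_B00pm_102_s1

theorem t464_B00pm_102_s1 : ∃ t, chk3 f_B00pm_102_s1 t 227 2047 4 = true := ex3_a k27_B00pm_102_s1 k28_B00pm_102_s1

theorem t465_B00pm_102_s1 : ∃ t, chk3 f_B00pm_102_s1 t 227 2047 2 = true := ex3_c t464_B00pm_102_s1 k29_B00pm_102_s1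

theorem t466_B00pm_102_s1 : ∃ t, chk3 f_B00pm_102_s1 t 227 1023 2 = true := ex3_b k26_B00pm_102_s1 t465_B00pm_102_s1

theorem t467_B00pm_102_s1 : ∃ t, chk3 f_B00pm_102_s1 t 226 2047 4 = true := ex3_a k23_B00pm_102_s1 k24_B00pm_102_s1

theorem t468_B00pm_102_s1 : ∃ t, chk3 f_B00pm_102_s1 t 226 2047 2 = true := ex3_c t467_B00pm_102_s1 k25_B00pm_102_s1

theorem t469_B00pm_102_s1 : ∃ t, chk3 f_B00pm_102_s1 t 226 1023 2 = true := ex3_b k22_B00pm_102_s1 t468_B00pm_102_s1

theorem t470_B00pm_102_s1 : ∃ t, chk3 f_B00pm_102_s1 t 113 1023 2 = true := ex3_a t469_B00pm_102_s1 t466_B00pm_102_s1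

theorem t471_B00pm_102_s1 : ∃ t, chk3 f_B00pm_102_s1 t 113 511 2 = true := ex3_b k21_B00pm_102_s1 t470_B00pm_102_s1

theorem t472_B00pm_102_s1 : ∃ t, chk3 f_B00pm_102_s1 t 113 255 2 = true := ex3_b k20_B00pm_102_s1 t471_B00pm_102_s1

theorem t473_B00pm_102_s1 : ∃ t, chk3 f_B00pm_102_s1 t 56 255 2 = true := ex3_a k19_B00pm_102_s1 t472_B00pm_102_s1

theorem t474_B00pm_102_s1 : ∃ t, chk3 f_B00pm_102_s1 t 56 127 2 = true := ex3_b k18_B00pm_102_s1 t473_B00pm_102_s1

theorem t475_B00pm_102_s1 : ∃ t, chk3 f_B00pm_102_s1 t 56 63 2 = true := ex3_b k17_B00pm_102_s1 t474_B00pm_102_s1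

theorem t476_B00pm_102_s1 : ∃ t, chk3 f_B00pm_102_s1 t 56 31 2 = true := ex3_b k16_B00pm_102_s1 t475_B00pm_102_s1

theorem t477_B00pm_102_s1 : ∃ t, chk3 f_B00pm_102_s1 t 28 31 2 = true := ex3_a t476_B00pm_102_s1 t463_B00pm_102_s1

theorem t478_B00pm_102_s1 : ∃ t, chk3 f_B00pm_102_s1 t 28 31 1 = true := ex3_c t477_B00pm_102_s1 t439_B00pm_102_s1

theorem t479_B00pm_102_s1 : ∃ t, chk3 f_B00pm_102_s1 t 28 15 1 = true := ex3_b k15_B00pm_102_s1 t478_B00pm_102_s1

theorem t480_B00pm_102_s1 : ∃ t, chk3 f_B00pm_102_s1 t 14 15 1 = true := ex3_a t479_B00pm_102_s1 t427_B00pm_102_s1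

theorem t481_B00pm_102_s1 : ∃ t, chk3 f_B00pm_102_s1 t 29 29 1 = true := ex3_a k13_B00pm_102_s1 k14_B00pm_102_s1

theorem t482_B00pm_102_s1 : ∃ t, chk3 f_B00pm_102_s1 t 29 14 1 = true := ex3_b k12_B00pm_102_s1 t481_B00pm_102_s1

theorem t483_B00pm_102_s1 : ∃ t, chk3 f_B00pm_102_s1 t 14 14 1 = true := ex3_a k11_B00pm_102_s1 t482_B00pm_102_s1

theorem t484_B00pm_102_s1 : ∃ t, chk3 f_B00pm_102_s1 t 14 7 1 = true := ex3_b t483_B00pm_102_s1 t480_B00pm_102_s1

theorem t485_B00pm_102_s1 : ∃ t, chk3 f_B00pm_102_s1 t 7 7 1 = true := ex3_a t484_B00pm_102_s1 t332_B00pm_102_s1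

theorem t486_B00pm_102_s1 : ∃ t, chk3 f_B00pm_102_s1 t 7 3 1 = true := ex3_b k10_B00pm_102_s1 t485_B00pm_102_s1

theorem t487_B00pm_102_s1 : ∃ t, chk3 f_B00pm_102_s1 t 27 31 1 = true := ex3_b k8_B00pm_102_s1 k9_B00pm_102_s1

theorem t488_B00pm_102_s1 : ∃ t, chk3 f_B00pm_102_s1 t 27 15 1 = true := ex3_b k7_B00pm_102_s1 t487_B00pm_102_s1

theorem t489_B00pm_102_s1 : ∃ t, chk3 f_B00pm_102_s1 t 13 15 1 = true := ex3_a k6_B00pm_102_s1 t488_B00pm_102_s1

theorem t490_B00pm_102_s1 : ∃ t, chk3 f_B00pm_102_s1 t 13 7 1 = true := ex3_b k5_B00pm_102_s1 t489_B00pm_102_s1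

theorem t491_B00pm_102_s1 : ∃ t, chk3 f_B00pm_102_s1 t 6 7 1 = true := ex3_a k4_B00pm_102_s1 t490_B00pm_102_s1

theorem t492_B00pm_102_s1 : ∃ t, chk3 f_B00pm_102_s1 t 6 3 1 = true := ex3_b k3_B00pm_102_s1 t491_B00pm_102_s1

theorem t493_B00pm_102_s1 : ∃ t, chk3 f_B00pm_102_s1 t 3 3 1 = true := ex3_a t492_B00pm_102_s1 t486_B00pm_102_s1

theorem t494_B00pm_102_s1 : ∃ t, chk3 f_B00pm_102_s1 t 3 1 1 = true := ex3_b k2_B00pm_102_s1 t493_B00pm_102_s1

theorem t495_B00pm_102_s1 : ∃ t, chk3 f_B00pm_102_s1 t 2 1 1 = true := ex3_b k0_B00pm_102_s1 k1_B00pm_102_s1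

theorem t496_B00pm_102_s1 : ∃ t, chk3 f_B00pm_102_s1 t 1 1 1 = true := ex3_a t495_B00pm_102_s1 t494_B00pm_102_s1

theorem c_B00pm_102_s1 : CertF 536870912 536870912 0 536870912 923417968 42949674 false true false .npp 1 0 2
    ndB0q1 ndB0q2 pcB0 cut_B00pm_102_s1 xt_B00pm_102_s1 :=
  certF0 (fam := false) (s1 := true) (s2 := false) (a := 1) (b := 0) (c := 2) (cn := .npp) (n1 := ndB0q1) (n2 := ndB0q2) (pc := pcB0) (cut := cut_B00pm_102_s1) (xt := xt_B00pm_102_s1) (P1 := 536870912) (W1 := 536870912) (P2 := 0) (W2 := 536870912) (P3 := 923417968) (W3 := 42949674)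
    rfl t496_B00pm_102_s1

theorem s_B00pm_102_s1 {κ x : ℝ} (hκ : κ * h0 = ken x) (hx : ((923417968 : ℕ) : ℝ) / S ≤ x)
    (hx' : x ≤ (((923417968 : ℕ) : ℝ) + (42949674 : ℕ)) / S)
    (H : CutB (VFD κ) PP tK tL pcB (Cut.of [[⟨0, 1, 0, 53687091⟩, ⟨1, 0, 0, 53687091⟩, ⟨2, 1, 0, 53687091⟩], [⟨0, 0, 1, 20971520⟩, ⟨1, 1, 2, 20971520⟩, ⟨2, 1, 0, 8388608⟩]]) 1 0 2 0 0 (sgb true) (sgb false) x) :
    AltB (VFD κ) PP tK tL pcB [⟨3, 0, 0, 1449551462⟩] 1 0 2 0 0 (sgb true) (sgb false) x :=
  strip_altBD (m := 1449551462) true rfl hκ (SH.κ0 hκ (SH.hx1 hx).le (SH.hx2 hx').le) (SH.hx1 hx).le (SH.hx2 hx') (covB01).cov (covB02).cov hx hx' c_B00pm_102_s1 H ((okx hx hx').extB (T := tt) (sideB hx hx') hκ rfl rfl (.O 1 true) (.O 2 false) (Or.inl rfl))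

end Pool.Agent.Strip051.G.I8600_9000.Tab.St.C
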