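import Pool.Agent.Strip051.G.I8600_9000.StH
import Pool.Agent.Strip051.G.I8600_9000.StF

/-! # Unit strips 18 (generated) -/

set_option linter.all false
set_option maxRecDepth 100000

namespace Pool.Agent.Strip051.G.I8600_9000.Tab.St.C

open Pool.Agent.Strip051.PB Pool.Agent.Strip051.PB.T Pool.Agent.StripNear Pool.Agent.Strip051.LC
open Pool.Agent.Strip051.G.I8600_9000.Tab Pool.Agent.Strip051.G.I8600_9000.Tab.St

noncomputable def cut_B00pm_102_s3 : Cut := Cut.of [[⟨3, 0, 0, 2845415833⟩], [⟨0, 1, 0, 53687091⟩, ⟨1, 0, 0, 53687091⟩, ⟨2, 1, 0, 53687091⟩], [⟨0, 0, 1, 20971520⟩, ⟨1, 1, 2, 20971520⟩, ⟨2, 1, 0, 8388608⟩]]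

noncomputable def f_B00pm_102_s3 : ℕ → ℕ → ℕ → ℕ → Bool := onCell 536870912 536870912 0 536870912 923417968 42949674
    (rowF 0 false true false .npp 1 0 2 (qsf 536870912 536870912 0 536870912 0) ndB0q1 ndB0q2 pcB0 cut_B00pm_102_s3 Ext.none)

def k0_B00pm_102_s3 : ∃ t, chk3 f_B00pm_102_s3 t 1 1 1 = true :=
  ⟨(l 6), by decide +kernel⟩

theorem c_B00pm_102_s3 : CertF 536870912 536870912 0 536870912 923417968 42949674 false true false .npp 1 0 2
    ndB0q1 ndB0q2 pcB0 cut_B00pm_102_s3 Ext.none :=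
  certF0 (fam := false) (s1 := true) (s2 := false) (a := 1) (b := 0) (c := 2) (cn := .npp) (n1 := ndB0q1) (n2 := ndB0q2) (pc := pcB0) (cut := cut_B00pm_102_s3) (xt := Ext.none) (P1 := 536870912) (W1 := 536870912) (P2 := 0) (W2 := 536870912) (P3 := 923417968) (W3 := 42949674)
    rfl k0_B00pm_102_s3

theorem s_B00pm_102_s3 {κ x : ℝ} (hκ : κ * h0 = ken x) (hx : ((923417968 : ℕ) : ℝ) / S ≤ x)
    (hx' : x ≤ (((923417968 : ℕ) : ℝ) + (42949674 : ℕ)) / S)
    (H : CutB (VFD κ) PP tK tL pcB (Cut.of [[⟨0, 1, 0, 53687091⟩, ⟨1, 0, 0, 53687091⟩, ⟨2, 1, 0, 53687091⟩], [⟨0, 0, 1, 20971520⟩, ⟨1, 1, 2, 20971520⟩, ⟨2, 1, 0, 8388608⟩]]) 1 0 2 0 0 (sgb true) (sgb false) x) :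
    AltB (VFD κ) PP tK tL pcB [⟨4, 0, 0, 2845415833⟩] 1 0 2 0 0 (sgb true) (sgb false) x :=
  strip_altBD (m := 2845415833) false rfl hκ (SH.κ0 hκ (SH.hx1 hx).le (SH.hx2 hx').le) (SH.hx1 hx).le (SH.hx2 hx') (covB01).cov (covB02).cov hx hx' c_B00pm_102_s3 H (noExt_B)

noncomputable def cut_B00pm_112_s1 : Cut := Cut.of [[⟨4, 0, 0, 1449551462⟩]]

noncomputable def xt_B00pm_112_s1 : Ext := strExt dd false true false .u0 .u2 .u0m .dn 1 1 2 rfl rfl gf1 vv ndB0q1 ndB0q2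

noncomputable def f_B00pm_112_s1 : ℕ → ℕ → ℕ → ℕ → Bool := onCell 536870912 536870912 0 536870912 923417968 42949674
    (rowF 2 false true false .dn 1 1 2 (qsf 536870912 536870912 0 536870912 1) ndB0q1 ndB0q2 pcB1 cut_B00pm_112_s1 xt_B00pm_112_s1)

def k0_B00pm_112_s1 : ∃ t, chk3 f_B00pm_112_s1 t 4 4 1 = true :=
  ⟨(a (b (b (a (l 3) (c (a (l 525732111) (l 526190095)) (l 527250959))) (a (c (a (c (l 524654863) (l 525424655)) (l 525536015)) (a (l 526684943) (l 527139855))) (c (a (l 526011151) (l 526461967)) (a (l 527565327) (l 527965711))))) (a (b (a (b (c (l 525250319) (l 526879759)) (c (a (l 525264143) (l 525516047)) (a (l 526889743) (l 527117839)))) (c (b (l 525747471) (l 525885199)) (b (l 527329295) (l 527451919)))) (a (b (c (a (l 525388815) (l 525645839)) (a (l 526995471) (l 527230479))) (c (c (l 525281295) (l 526016015)) (l 526682127))) (c (b (c (l 525659407) (l 526382095)) (c (l 525787919) (l 526502671)))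 (b (l 527564559) (l 527672079))))) (c (b (a (b (l 526217231) (l 526351887)) (l 526728463)) (a (b (l 526480399) (l 526604815)) (b (l 526921743) (l 527045647)))) (b (b (l 527681039) (l 527800079)) (b (a (l 527983631) (l 528376847)) (a (l 528092431) (l 528486415))))))) (b (a (c (a (b (l 526626063) (l 526891279)) (b (l 527043343) (l 527302415))) (b (l 528289551) (l 528525583))) (c (a (b (l 527444239) (l 527697423)) (b (l 527831311) (l 528079119))) (a (l 528664847) (l 528997391)))) (b (a (c (a (l 527151887) (l 527557135)) (a (l 528578319) (l 528933391))) (c (a (l 527947023) (l 528323855)) (a (l 529273103) (l 529599503)))) (a (c (a (b (l 527342095) (l 527464975)) (l 527805199)) (a (l 528803343) (l 529156367))) (a (c (l 528191759) (l 529493775)) (c (l 528565263) (l 529818383))))))), by decide +kernel⟩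

def k1_B00pm_112_s1 : ∃ t, chk3 f_B00pm_112_s1 t 8 5 2 = true :=
  ⟨(b (c (a (a (b (b (l 525408783) (l 525536015)) (b (a (l 525533967) (l 525793807)) (a (l 525669903) (l 525927695)))) (b (b (l 525914895) (l 526041103)) (b (l 526167567) (l 526299151)))) (b (a (b (l 526390543) (l 526515983)) (l 526903311)) (a (b (l 526641423) (l 526770447)) (b (l 527090191) (l 527217167))))) (a (b (a (b (l 526134799) (l 526253583)) (b (l 526621455) (l 526739727))) (a (b (l 526373391) (l 526500367)) (b (l 526858255) (l 526982415)))) (b (a (l 527135759) (l 527565071)) (a (a (l 527262735) (l 527482639)) (a (l 527696655) (l 527905039)))))) (a (b (a (b (c (a (l 525812239) (l 526067471)) (l 526633743)) (a (c (l 525958159) (l 526648591)) (c (l 526210575) (l 526892559)))) (b (a (c (l 526315023) (l 16321104)) (l 526884879)) (c (a (l 526455567) (l 16218152)) (l 527243791)))) (c (a (b (a (l 526105615) (l 526355215)) (a (l 526253839) (l 6)))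 (b (a (l 526597391) (l 6)) (l 6))) (a (b (a (l 526789135) (l 16203280)) (a (l 526930447) (l 6))) (b (l 527377679) (l 6))))) (b (c (a (b (l 526903311) (l 527038223)) (b (l 527347215) (l 6))) (a (b (l 527560719) (l 527688975)) (b (l 527985423) (l 6)))) (l 6)))), by decide +kernel⟩

def k2_B00pm_112_s1 : ∃ t, chk3 f_B00pm_112_s1 t 8 5 3 = true :=
  ⟨(b (a (a (b (b (l 526787087) (l 526891791)) (b (l 526997775) (l 527111695))) (b (b (l 527777807) (l 527346191)) (b (l 527452175) (l 527563791)))) (b (a (b (l 528199183) (l 528305167)) (l 528378639)) (b (a (l 527874319) (l 528806927)) (a (l 527984655) (a (l 16357456) (l 16327176)))))) (a (b (b (a (c (l 527378447) (l 528173839)) (l 527681039)) (a (c (l 527507727) (l 528294927)) (l 527936015))) (b (a (c (l 527639311) (l 528418319)) (c (l 528088335) (l 16247576))) (a (b (l 527582223) (l 6)) (l 6)))) (b (b (a (l 528099343) (a (l 16294104) (l 16286104))) (a (c (l 528387087)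 (l 16265328)) (l 6))) (l 6)))), by decide +kernel⟩

def k3_B00pm_112_s1 : ∃ t, chk3 f_B00pm_112_s1 t 9 5 1 = true :=
  ⟨(c (b (a (b (a (c (l 527332367) (l 527972879)) (c (l 527743247) (l 528361999))) (a (b (a (l 527725327) (l 527929359)) (a (l 527847951) (l 528051471))) (b (l 528227343) (c (l 16220296) (l 16258448))))) (b (a (c (l 528139023) (l 528735759)) (b (l 528744719) (l 528863759))) (a (b (l 528611343) (l 6)) (l 6)))) (b (l 6) (l 6))) (a (b (a (b (l 528750863) (b (l 529179919) (l 529288975))) (b (l 529104655) (b (l 529534223) (l 529643023)))) (l 6)) (a (b (b (l 529442319) (c (l 529597199) (l 530266639))) (l 6)) (b (b (l 529766927) (l 6)) (l 6))))), by decide +kernel⟩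

def k4_B00pm_112_s1 : ∃ t, chk3 f_B00pm_112_s1 t 5 2 1 = true :=
  ⟨(a (a (a (b (c (b (b (l 528206863) (l 528449807)) (b (l 528689935) (l 528928015))) (b (l 529586959) (b (l 529915151) (l 530131983)))) (b (b (c (a (l 529075983) (l 529254159)) (l 530080783)) (l 6)) (l 6))) (b (b (c (b (l 528571919) (l 528809999)) (l 529897999)) (b (c (l 529046031) (l 530221071)) (c (l 529281039) (l 530167823)))) (b (l 6) (l 1)))) (b (b (l 1) (l 1)) (l 1))) (l 1)), by decide +kernel⟩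

def k5_B00pm_112_s1 : ∃ t, chk3 f_B00pm_112_s1 t 2 3 1 = true :=
  ⟨(a (b (l 6) (l 6)) (l 6)), by decide +kernel⟩

def k6_B00pm_112_s1 : ∃ t, chk3 f_B00pm_112_s1 t 3 1 1 = true :=
  ⟨(l 1), by decide +kernel⟩

theorem t7_B00pm_112_s1 : ∃ t, chk3 f_B00pm_112_s1 t 8 5 1 = true := ex3_c k1_B00pm_112_s1 k2_B00pm_112_s1

theorem t8_B00pm_112_s1 : ∃ t, chk3 f_B00pm_112_s1 t 4 5 1 = true := ex3_a t7_B00pm_112_s1 k3_B00pm_112_s1

theorem t9_B00pm_112_s1 : ∃ t, chk3 f_B00pm_112_s1 t 4 2 1 = true := ex3_b k0_B00pm_112_s1 t8_B00pm_112_s1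

theorem t10_B00pm_112_s1 : ∃ t, chk3 f_B00pm_112_s1 t 2 2 1 = true := ex3_a t9_B00pm_112_s1 k4_B00pm_112_s1

theorem t11_B00pm_112_s1 : ∃ t, chk3 f_B00pm_112_s1 t 2 1 1 = true := ex3_b t10_B00pm_112_s1 k5_B00pm_112_s1

theorem t12_B00pm_112_s1 : ∃ t, chk3 f_B00pm_112_s1 t 1 1 1 = true := ex3_a t11_B00pm_112_s1 k6_B00pm_112_s1

theorem c_B00pm_112_s1 : CertF 536870912 536870912 0 536870912 923417968 42949674 false true false .dn 1 1 2
    ndB0q1 ndB0q2 pcB1 cut_B00pm_112_s1 xt_B00pm_112_s1 :=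
  certF2 (fam := false) (s1 := true) (s2 := false) (a := 1) (b := 1) (c := 2) (cn := .dn) (n1 := ndB0q1) (n2 := ndB0q2) (pc := pcB1) (cut := cut_B00pm_112_s1) (xt := xt_B00pm_112_s1) (P1 := 536870912) (W1 := 536870912) (P2 := 0) (W2 := 536870912) (P3 := 923417968) (W3 := 42949674)
    rfl (fun _ => rfl) t12_B00pm_112_s1

theorem s_B00pm_112_s1 {κ x : ℝ} (hκ : κ * h0 = ken x) (hx : ((923417968 : ℕ) : ℝ) / S ≤ x)
    (hx' : x ≤ (((923417968 : ℕ) : ℝ) + (42949674 : ℕ)) / S) :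
    AltB (VFD κ) PP tK tL pcB [⟨3, 0, 0, 1449551462⟩] 1 1 2 0 0 (sgb true) (sgb false) x :=
  strip_altBD (m := 1449551462) true rfl hκ (SH.κ0 hκ (SH.hx1 hx).le (SH.hx2 hx').le) (SH.hx1 hx).le (SH.hx2 hx') (covB01).cov (covB02).cov hx hx' c_B00pm_112_s1 cutB_nil ((okx hx hx').extB (T := tt) (sideB hx hx') hκ rfl rfl (.O 1 true) (.O 2 false) (Or.inr rfl))

noncomputable def cut_B00pm_112_s3 : Cut := Cut.of [[⟨3, 0, 0, 2845415833⟩]]

noncomputable def f_B00pm_112_s3 : ℕ → ℕ → ℕ → ℕ → Bool := onCell 536870912 536870912 0 536870912 923417968 42949674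
    (rowF 0 false true false .dn 1 1 2 (qsf 536870912 536870912 0 536870912 1) ndB0q1 ndB0q2 pcB1 cut_B00pm_112_s3 Ext.none)

def k0_B00pm_112_s3 : ∃ t, chk3 f_B00pm_112_s3 t 1 1 1 = true :=
  ⟨(l 6), by decide +kernel⟩

theorem c_B00pm_112_s3 : CertF 536870912 536870912 0 536870912 923417968 42949674 false true false .dn 1 1 2
    ndB0q1 ndB0q2 pcB1 cut_B00pm_112_s3 Ext.none :=
  certF0 (fam := false) (s1 := true) (s2 := false) (a := 1) (b := 1) (c := 2) (cn := .dn) (n1 := ndB0q1) (n2 := ndB0q2) (pc := pcB1) (cut := cut_B00pm_112_s3) (xt := Ext.none) (P1 := 536870912) (W1 := 536870912) (P2 := 0) (W2 := 536870912) (P3 := 923417968) (W3 := 42949674)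
    rfl k0_B00pm_112_s3

theorem s_B00pm_112_s3 {κ x : ℝ} (hκ : κ * h0 = ken x) (hx : ((923417968 : ℕ) : ℝ) / S ≤ x)
    (hx' : x ≤ (((923417968 : ℕ) : ℝ) + (42949674 : ℕ)) / S) :
    AltB (VFD κ) PP tK tL pcB [⟨4, 0, 0, 2845415833⟩] 1 1 2 0 0 (sgb true) (sgb false) x :=
  strip_altBD (m := 2845415833) false rfl hκ (SH.κ0 hκ (SH.hx1 hx).le (SH.hx2 hx').le) (SH.hx1 hx).le (SH.hx2 hx') (covB01).cov (covB02).cov hx hx' c_B00pm_112_s3 cutB_nil (noExt_B)

noncomputable def cut_B00pm_202_s1 : Cut := Cut.of [[⟨4, 0, 0, 1449551462⟩], [⟨0, 1, 0, 67108864⟩, ⟨1, 0, 0, 67108864⟩, ⟨2, 1, 0, 67108864⟩]]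

noncomputable def f_B00pm_202_s1 : ℕ → ℕ → ℕ → ℕ → Bool := onCell 0 536870912 0 536870912 923417968 42949674
    (rowF 0 false true false .pp 2 0 2 (qsf 0 536870912 0 536870912 0) ndB0q2 ndB0q2 pcB0 cut_B00pm_202_s1 Ext.none)

def k0_B00pm_202_s1 : ∃ t, chk3 f_B00pm_202_s1 t 1 1 1 = true :=
  ⟨(a (l 3) (b (l 3) (a (l 3) (b (l 3) (b (l 3) (a (l 3) (l 14))))))), by decide +kernel⟩

theorem c_B00pm_202_s1 : CertF 0 536870912 0 536870912 923417968 42949674 false true false .pp 2 0 2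
    ndB0q2 ndB0q2 pcB0 cut_B00pm_202_s1 Ext.none :=
  certF0 (fam := false) (s1 := true) (s2 := false) (a := 2) (b := 0) (c := 2) (cn := .pp) (n1 := ndB0q2) (n2 := ndB0q2) (pc := pcB0) (cut := cut_B00pm_202_s1) (xt := Ext.none) (P1 := 0) (W1 := 536870912) (P2 := 0) (W2 := 536870912) (P3 := 923417968) (W3 := 42949674)
    rfl k0_B00pm_202_s1

theorem s_B00pm_202_s1 {κ x : ℝ} (hκ : κ * h0 = ken x) (hx : ((923417968 : ℕ) : ℝ) / S ≤ x)
    (hx' : x ≤ (((923417968 : ℕ) : ℝ) + (42949674 : ℕ)) / S)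
    (H : CutB (VFD κ) PP tK tL pcB (Cut.of [[⟨0, 1, 0, 67108864⟩, ⟨1, 0, 0, 67108864⟩, ⟨2, 1, 0, 67108864⟩]]) 2 0 2 0 0 (sgb true) (sgb false) x) :
    AltB (VFD κ) PP tK tL pcB [⟨3, 0, 0, 1449551462⟩] 2 0 2 0 0 (sgb true) (sgb false) x :=
  strip_altBD (m := 1449551462) true rfl hκ (SH.κ0 hκ (SH.hx1 hx).le (SH.hx2 hx').le) (SH.hx1 hx).le (SH.hx2 hx') (covB02).cov (covB02).cov hx hx' c_B00pm_202_s1 H (noExt_B)

noncomputable def cut_B00pm_202_s3 : Cut := Cut.of [[⟨3, 0, 0, 2845415833⟩], [⟨0, 1, 0, 67108864⟩, ⟨1, 0, 0, 67108864⟩, ⟨2, 1, 0, 67108864⟩]]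

noncomputable def f_B00pm_202_s3 : ℕ → ℕ → ℕ → ℕ → Bool := onCell 0 536870912 0 536870912 923417968 42949674
    (rowF 0 false true false .pp 2 0 2 (qsf 0 536870912 0 536870912 0) ndB0q2 ndB0q2 pcB0 cut_B00pm_202_s3 Ext.none)

def k0_B00pm_202_s3 : ∃ t, chk3 f_B00pm_202_s3 t 1 1 1 = true :=
  ⟨(l 6), by decide +kernel⟩

theorem c_B00pm_202_s3 : CertF 0 536870912 0 536870912 923417968 42949674 false true false .pp 2 0 2
    ndB0q2 ndB0q2 pcB0 cut_B00pm_202_s3 Ext.none :=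
  certF0 (fam := false) (s1 := true) (s2 := false) (a := 2) (b := 0) (c := 2) (cn := .pp) (n1 := ndB0q2) (n2 := ndB0q2) (pc := pcB0) (cut := cut_B00pm_202_s3) (xt := Ext.none) (P1 := 0) (W1 := 536870912) (P2 := 0) (W2 := 536870912) (P3 := 923417968) (W3 := 42949674)
    rfl k0_B00pm_202_s3

theorem s_B00pm_202_s3 {κ x : ℝ} (hκ : κ * h0 = ken x) (hx : ((923417968 : ℕ) : ℝ) / S ≤ x)
    (hx' : x ≤ (((923417968 : ℕ) : ℝ) + (42949674 : ℕ)) / S)
    (H : CutB (VFD κ) PP tK tL pcB (Cut.of [[⟨0, 1, 0, 67108864⟩, ⟨1, 0, 0, 67108864⟩, ⟨2, 1, 0, 67108864⟩]]) 2 0 2 0 0 (sgb true) (sgb false) x) :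
    AltB (VFD κ) PP tK tL pcB [⟨4, 0, 0, 2845415833⟩] 2 0 2 0 0 (sgb true) (sgb false) x :=
  strip_altBD (m := 2845415833) false rfl hκ (SH.κ0 hκ (SH.hx1 hx).le (SH.hx2 hx').le) (SH.hx1 hx).le (SH.hx2 hx') (covB02).cov (covB02).cov hx hx' c_B00pm_202_s3 H (noExt_B)

noncomputable def cut_B00mm_001_s1 : Cut := Cut.of [[⟨4, 0, 0, 1449551462⟩]]

noncomputable def f_B00mm_001_s1 : ℕ → ℕ → ℕ → ℕ → Bool := onCell 0 536870912 0 536870912 923417968 42949674
    (rowF 1 false false false .up 0 0 1 (qsf 0 536870912 536870912 536870912 0) ndB0q0 ndB0q1 pcB0 cut_B00mm_001_s1 Ext.none)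

def k0_B00mm_001_s1 : ∃ t, chk3 f_B00mm_001_s1 t 1 1 1 = true :=
  ⟨(l 3), by decide +kernel⟩

theorem c_B00mm_001_s1 : CertF 0 536870912 536870912 536870912 923417968 42949674 false false false .up 0 0 1
    ndB0q0 ndB0q1 pcB0 cut_B00mm_001_s1 Ext.none :=
  certF1 (fam := false) (s1 := false) (s2 := false) (a := 0) (b := 0) (c := 1) (cn := .up) (n1 := ndB0q0) (n2 := ndB0q1) (pc := pcB0) (cut := cut_B00mm_001_s1) (xt := Ext.none) (P1 := 0) (W1 := 536870912) (P2 := 536870912) (W2 := 536870912) (P3 := 923417968) (W3 := 42949674)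
    rfl (fun _ => rfl) k0_B00mm_001_s1

theorem s_B00mm_001_s1 {κ x : ℝ} (hκ : κ * h0 = ken x) (hx : ((923417968 : ℕ) : ℝ) / S ≤ x)
    (hx' : x ≤ (((923417968 : ℕ) : ℝ) + (42949674 : ℕ)) / S) :
    AltB (VFD κ) PP tK tL pcB [⟨3, 0, 0, 1449551462⟩] 0 0 1 0 0 (sgb false) (sgb false) x :=
  strip_altBD (m := 1449551462) true rfl hκ (SH.κ0 hκ (SH.hx1 hx).le (SH.hx2 hx').le) (SH.hx1 hx).le (SH.hx2 hx') (covB00).cov (covB01).cov hx hx' c_B00mm_001_s1 cutB_nil (noExt_B)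

noncomputable def cut_B00mm_001_s3 : Cut := Cut.of [[⟨3, 0, 0, 2845415833⟩]]

noncomputable def f_B00mm_001_s3 : ℕ → ℕ → ℕ → ℕ → Bool := onCell 0 536870912 536870912 536870912 923417968 42949674
    (rowF 0 false false false .up 0 0 1 (qsf 0 536870912 536870912 536870912 0) ndB0q0 ndB0q1 pcB0 cut_B00mm_001_s3 Ext.none)

def k0_B00mm_001_s3 : ∃ t, chk3 f_B00mm_001_s3 t 1 1 1 = true :=
  ⟨(l 6), by decide +kernel⟩

theorem c_B00mm_001_s3 : CertF 0 536870912 536870912 536870912 923417968 42949674 false false false .up 0 0 1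
    ndB0q0 ndB0q1 pcB0 cut_B00mm_001_s3 Ext.none :=
  certF0 (fam := false) (s1 := false) (s2 := false) (a := 0) (b := 0) (c := 1) (cn := .up) (n1 := ndB0q0) (n2 := ndB0q1) (pc := pcB0) (cut := cut_B00mm_001_s3) (xt := Ext.none) (P1 := 0) (W1 := 536870912) (P2 := 536870912) (W2 := 536870912) (P3 := 923417968) (W3 := 42949674)
    rfl k0_B00mm_001_s3

theorem s_B00mm_001_s3 {κ x : ℝ} (hκ : κ * h0 = ken x) (hx : ((923417968 : ℕ) : ℝ) / S ≤ x)
    (hx' : x ≤ (((923417968 : ℕ) : ℝ) + (42949674 : ℕ)) / S) :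
    AltB (VFD κ) PP tK tL pcB [⟨4, 0, 0, 2845415833⟩] 0 0 1 0 0 (sgb false) (sgb false) x :=
  strip_altBD (m := 2845415833) false rfl hκ (SH.κ0 hκ (SH.hx1 hx).le (SH.hx2 hx').le) (SH.hx1 hx).le (SH.hx2 hx') (covB00).cov (covB01).cov hx hx' c_B00mm_001_s3 cutB_nil (noExt_B)

noncomputable def cut_B00mm_011_s1 : Cut := Cut.of [[⟨4, 0, 0, 1449551462⟩]]

noncomputable def f_B00mm_011_s1 : ℕ → ℕ → ℕ → ℕ → Bool := onCell 0 536870912 536870912 536870912 923417968 42949674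
    (rowF 1 false false false .pnn 0 1 1 (qsf 0 536870912 536870912 536870912 1) ndB0q0 ndB0q1 pcB1 cut_B00mm_011_s1 Ext.none)

def k0_B00mm_011_s1 : ∃ t, chk3 f_B00mm_011_s1 t 1 1 1 = true :=
  ⟨(l 5), by decide +kernel⟩

theorem c_B00mm_011_s1 : CertF 0 536870912 536870912 536870912 923417968 42949674 false false false .pnn 0 1 1
    ndB0q0 ndB0q1 pcB1 cut_B00mm_011_s1 Ext.none :=
  certF1 (fam := false) (s1 := false) (s2 := false) (a := 0) (b := 1) (c := 1) (cn := .pnn) (n1 := ndB0q0) (n2 := ndB0q1) (pc := pcB1) (cut := cut_B00mm_011_s1) (xt := Ext.none) (P1 := 0) (W1 := 536870912) (P2 := 536870912) (W2 := 536870912) (P3 := 923417968) (W3 := 42949674)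
    rfl (fun _ => rfl) k0_B00mm_011_s1

theorem s_B00mm_011_s1 {κ x : ℝ} (hκ : κ * h0 = ken x) (hx : ((923417968 : ℕ) : ℝ) / S ≤ x)
    (hx' : x ≤ (((923417968 : ℕ) : ℝ) + (42949674 : ℕ)) / S) :
    AltB (VFD κ) PP tK tL pcB [⟨3, 0, 0, 1449551462⟩] 0 1 1 0 0 (sgb false) (sgb false) x :=
  strip_altBD (m := 1449551462) true rfl hκ (SH.κ0 hκ (SH.hx1 hx).le (SH.hx2 hx').le) (SH.hx1 hx).le (SH.hx2 hx') (covB00).cov (covB01).cov hx hx' c_B00mm_011_s1 cutB_nil (noExt_B)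

noncomputable def cut_B00mm_011_s3 : Cut := Cut.of [[⟨3, 0, 0, 2845415833⟩]]

noncomputable def f_B00mm_011_s3 : ℕ → ℕ → ℕ → ℕ → Bool := onCell 0 536870912 536870912 536870912 923417968 42949674
    (rowF 0 false false false .pnn 0 1 1 (qsf 0 536870912 536870912 536870912 1) ndB0q0 ndB0q1 pcB1 cut_B00mm_011_s3 Ext.none)

def k0_B00mm_011_s3 : ∃ t, chk3 f_B00mm_011_s3 t 1 1 1 = true :=
  ⟨(l 6), by decide +kernel⟩

theorem c_B00mm_011_s3 : CertF 0 536870912 536870912 536870912 923417968 42949674 false false false .pnn 0 1 1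
    ndB0q0 ndB0q1 pcB1 cut_B00mm_011_s3 Ext.none :=
  certF0 (fam := false) (s1 := false) (s2 := false) (a := 0) (b := 1) (c := 1) (cn := .pnn) (n1 := ndB0q0) (n2 := ndB0q1) (pc := pcB1) (cut := cut_B00mm_011_s3) (xt := Ext.none) (P1 := 0) (W1 := 536870912) (P2 := 536870912) (W2 := 536870912) (P3 := 923417968) (W3 := 42949674)
    rfl k0_B00mm_011_s3

theorem s_B00mm_011_s3 {κ x : ℝ} (hκ : κ * h0 = ken x) (hx : ((923417968 : ℕ) : ℝ) / S ≤ x)
    (hx' : x ≤ (((923417968 : ℕ) : ℝ) + (42949674 : ℕ)) / S) :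
    AltB (VFD κ) PP tK tL pcB [⟨4, 0, 0, 2845415833⟩] 0 1 1 0 0 (sgb false) (sgb false) x :=
  strip_altBD (m := 2845415833) false rfl hκ (SH.κ0 hκ (SH.hx1 hx).le (SH.hx2 hx').le) (SH.hx1 hx).le (SH.hx2 hx') (covB00).cov (covB01).cov hx hx' c_B00mm_011_s3 cutB_nil (noExt_B)

noncomputable def cut_B00mm_012_s1 : Cut := Cut.of [[⟨4, 0, 0, 1449551462⟩]]

noncomputable def f_B00mm_012_s1 : ℕ → ℕ → ℕ → ℕ → Bool := onCell 0 536870912 0 536870912 923417968 42949674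
    (rowF 0 false false false .pnp 0 1 2 (qsf 0 536870912 0 536870912 1) ndB0q0 ndB0q2 pcB1 cut_B00mm_012_s1 Ext.none)

def k0_B00mm_012_s1 : ∃ t, chk3 f_B00mm_012_s1 t 1 1 1 = true :=
  ⟨(l 5), by decide +kernel⟩

theorem c_B00mm_012_s1 : CertF 0 536870912 0 536870912 923417968 42949674 false false false .pnp 0 1 2
    ndB0q0 ndB0q2 pcB1 cut_B00mm_012_s1 Ext.none :=
  certF0 (fam := false) (s1 := false) (s2 := false) (a := 0) (b := 1) (c := 2) (cn := .pnp) (n1 := ndB0q0) (n2 := ndB0q2) (pc := pcB1) (cut := cut_B00mm_012_s1) (xt := Ext.none) (P1 := 0) (W1 := 536870912) (P2 := 0) (W2 := 536870912) (P3 := 923417968) (W3 := 42949674)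
    rfl k0_B00mm_012_s1

theorem s_B00mm_012_s1 {κ x : ℝ} (hκ : κ * h0 = ken x) (hx : ((923417968 : ℕ) : ℝ) / S ≤ x)
    (hx' : x ≤ (((923417968 : ℕ) : ℝ) + (42949674 : ℕ)) / S) :
    AltB (VFD κ) PP tK tL pcB [⟨3, 0, 0, 1449551462⟩] 0 1 2 0 0 (sgb false) (sgb false) x :=
  strip_altBD (m := 1449551462) true rfl hκ (SH.κ0 hκ (SH.hx1 hx).le (SH.hx2 hx').le) (SH.hx1 hx).le (SH.hx2 hx') (covB00).cov (covB02).cov hx hx' c_B00mm_012_s1 cutB_nil (noExt_B)

noncomputable def cut_B00mm_012_s3 : Cut := Cut.of [[⟨3, 0, 0, 2845415833⟩]]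

noncomputable def f_B00mm_012_s3 : ℕ → ℕ → ℕ → ℕ → Bool := onCell 0 536870912 0 536870912 923417968 42949674
    (rowF 0 false false false .pnp 0 1 2 (qsf 0 536870912 0 536870912 1) ndB0q0 ndB0q2 pcB1 cut_B00mm_012_s3 Ext.none)

def k0_B00mm_012_s3 : ∃ t, chk3 f_B00mm_012_s3 t 1 1 1 = true :=
  ⟨(l 5), by decide +kernel⟩

theorem c_B00mm_012_s3 : CertF 0 536870912 0 536870912 923417968 42949674 false false false .pnp 0 1 2
    ndB0q0 ndB0q2 pcB1 cut_B00mm_012_s3 Ext.none :=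
  certF0 (fam := false) (s1 := false) (s2 := false) (a := 0) (b := 1) (c := 2) (cn := .pnp) (n1 := ndB0q0) (n2 := ndB0q2) (pc := pcB1) (cut := cut_B00mm_012_s3) (xt := Ext.none) (P1 := 0) (W1 := 536870912) (P2 := 0) (W2 := 536870912) (P3 := 923417968) (W3 := 42949674)
    rfl k0_B00mm_012_s3

theorem s_B00mm_012_s3 {κ x : ℝ} (hκ : κ * h0 = ken x) (hx : ((923417968 : ℕ) : ℝ) / S ≤ x)
    (hx' : x ≤ (((923417968 : ℕ) : ℝ) + (42949674 : ℕ)) / S) :
    AltB (VFD κ) PP tK tL pcB [⟨4, 0, 0, 2845415833⟩] 0 1 2 0 0 (sgb false) (sgb false) x :=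
  strip_altBD (m := 2845415833) false rfl hκ (SH.κ0 hκ (SH.hx1 hx).le (SH.hx2 hx').le) (SH.hx1 hx).le (SH.hx2 hx') (covB00).cov (covB02).cov hx hx' c_B00mm_012_s3 cutB_nil (noExt_B)

noncomputable def cut_B00mm_022_s1 : Cut := Cut.of [[⟨4, 0, 0, 1449551462⟩]]

noncomputable def f_B00mm_022_s1 : ℕ → ℕ → ℕ → ℕ → Bool := onCell 0 536870912 0 536870912 923417968 42949674
    (rowF 0 false false false .pp 0 2 2 (qsf 0 536870912 0 536870912 2) ndB0q0 ndB0q2 pcB2 cut_B00mm_022_s1 Ext.none)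

def k0_B00mm_022_s1 : ∃ t, chk3 f_B00mm_022_s1 t 1 1 1 = true :=
  ⟨(l 5), by decide +kernel⟩

theorem c_B00mm_022_s1 : CertF 0 536870912 0 536870912 923417968 42949674 false false false .pp 0 2 2
    ndB0q0 ndB0q2 pcB2 cut_B00mm_022_s1 Ext.none :=
  certF0 (fam := false) (s1 := false) (s2 := false) (a := 0) (b := 2) (c := 2) (cn := .pp) (n1 := ndB0q0) (n2 := ndB0q2) (pc := pcB2) (cut := cut_B00mm_022_s1) (xt := Ext.none) (P1 := 0) (W1 := 536870912) (P2 := 0) (W2 := 536870912) (P3 := 923417968) (W3 := 42949674)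
    rfl k0_B00mm_022_s1

theorem s_B00mm_022_s1 {κ x : ℝ} (hκ : κ * h0 = ken x) (hx : ((923417968 : ℕ) : ℝ) / S ≤ x)
    (hx' : x ≤ (((923417968 : ℕ) : ℝ) + (42949674 : ℕ)) / S) :
    AltB (VFD κ) PP tK tL pcB [⟨3, 0, 0, 1449551462⟩] 0 2 2 0 0 (sgb false) (sgb false) x :=
  strip_altBD (m := 1449551462) true rfl hκ (SH.κ0 hκ (SH.hx1 hx).le (SH.hx2 hx').le) (SH.hx1 hx).le (SH.hx2 hx') (covB00).cov (covB02).cov hx hx' c_B00mm_022_s1 cutB_nil (noExt_B)

noncomputable def cut_B00mm_022_s3 : Cut := Cut.of [[⟨3, 0, 0, 2845415833⟩]]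

noncomputable def f_B00mm_022_s3 : ℕ → ℕ → ℕ → ℕ → Bool := onCell 0 536870912 0 536870912 923417968 42949674
    (rowF 0 false false false .pp 0 2 2 (qsf 0 536870912 0 536870912 2) ndB0q0 ndB0q2 pcB2 cut_B00mm_022_s3 Ext.none)

def k0_B00mm_022_s3 : ∃ t, chk3 f_B00mm_022_s3 t 1 1 1 = true :=
  ⟨(l 5), by decide +kernel⟩

theorem c_B00mm_022_s3 : CertF 0 536870912 0 536870912 923417968 42949674 false false false .pp 0 2 2
    ndB0q0 ndB0q2 pcB2 cut_B00mm_022_s3 Ext.none :=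
  certF0 (fam := false) (s1 := false) (s2 := false) (a := 0) (b := 2) (c := 2) (cn := .pp) (n1 := ndB0q0) (n2 := ndB0q2) (pc := pcB2) (cut := cut_B00mm_022_s3) (xt := Ext.none) (P1 := 0) (W1 := 536870912) (P2 := 0) (W2 := 536870912) (P3 := 923417968) (W3 := 42949674)
    rfl k0_B00mm_022_s3

theorem s_B00mm_022_s3 {κ x : ℝ} (hκ : κ * h0 = ken x) (hx : ((923417968 : ℕ) : ℝ) / S ≤ x)
    (hx' : x ≤ (((923417968 : ℕ) : ℝ) + (42949674 : ℕ)) / S) :
    AltB (VFD κ) PP tK tL pcB [⟨4, 0, 0, 2845415833⟩] 0 2 2 0 0 (sgb false) (sgb false) x :=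
  strip_altBD (m := 2845415833) false rfl hκ (SH.κ0 hκ (SH.hx1 hx).le (SH.hx2 hx').le) (SH.hx1 hx).le (SH.hx2 hx') (covB00).cov (covB02).cov hx hx' c_B00mm_022_s3 cutB_nil (noExt_B)

noncomputable def cut_B00mm_101_s1 : Cut := Cut.of [[⟨4, 0, 0, 1449551462⟩]]

noncomputable def f_B00mm_101_s1 : ℕ → ℕ → ℕ → ℕ → Bool := onCell 536870912 536870912 536870912 536870912 923417968 42949674
    (rowF 0 false false false .npn 1 0 1 (qsf 536870912 536870912 536870912 536870912 0) ndB0q1 ndB0q1 pcB0 cut_B00mm_101_s1 Ext.none)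

def k0_B00mm_101_s1 : ∃ t, chk3 f_B00mm_101_s1 t 1 1 1 = true :=
  ⟨(l 3), by decide +kernel⟩

theorem c_B00mm_101_s1 : CertF 536870912 536870912 536870912 536870912 923417968 42949674 false false false .npn 1 0 1
    ndB0q1 ndB0q1 pcB0 cut_B00mm_101_s1 Ext.none :=
  certF0 (fam := false) (s1 := false) (s2 := false) (a := 1) (b := 0) (c := 1) (cn := .npn) (n1 := ndB0q1) (n2 := ndB0q1) (pc := pcB0) (cut := cut_B00mm_101_s1) (xt := Ext.none) (P1 := 536870912) (W1 := 536870912) (P2 := 536870912) (W2 := 536870912) (P3 := 923417968) (W3 := 42949674)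
    rfl k0_B00mm_101_s1

theorem s_B00mm_101_s1 {κ x : ℝ} (hκ : κ * h0 = ken x) (hx : ((923417968 : ℕ) : ℝ) / S ≤ x)
    (hx' : x ≤ (((923417968 : ℕ) : ℝ) + (42949674 : ℕ)) / S) :
    AltB (VFD κ) PP tK tL pcB [⟨3, 0, 0, 1449551462⟩] 1 0 1 0 0 (sgb false) (sgb false) x :=
  strip_altBD (m := 1449551462) true rfl hκ (SH.κ0 hκ (SH.hx1 hx).le (SH.hx2 hx').le) (SH.hx1 hx).le (SH.hx2 hx') (covB01).cov (covB01).cov hx hx' c_B00mm_101_s1 cutB_nil (noExt_B)

noncomputable def cut_B00mm_101_s3 : Cut := Cut.of [[⟨3, 0, 0, 2845415833⟩]]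

noncomputable def f_B00mm_101_s3 : ℕ → ℕ → ℕ → ℕ → Bool := onCell 536870912 536870912 536870912 536870912 923417968 42949674
    (rowF 0 false false false .npn 1 0 1 (qsf 536870912 536870912 536870912 536870912 0) ndB0q1 ndB0q1 pcB0 cut_B00mm_101_s3 Ext.none)

def k0_B00mm_101_s3 : ∃ t, chk3 f_B00mm_101_s3 t 1 1 1 = true :=
  ⟨(l 3), by decide +kernel⟩

theorem c_B00mm_101_s3 : CertF 536870912 536870912 536870912 536870912 923417968 42949674 false false false .npn 1 0 1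
    ndB0q1 ndB0q1 pcB0 cut_B00mm_101_s3 Ext.none :=
  certF0 (fam := false) (s1 := false) (s2 := false) (a := 1) (b := 0) (c := 1) (cn := .npn) (n1 := ndB0q1) (n2 := ndB0q1) (pc := pcB0) (cut := cut_B00mm_101_s3) (xt := Ext.none) (P1 := 536870912) (W1 := 536870912) (P2 := 536870912) (W2 := 536870912) (P3 := 923417968) (W3 := 42949674)
    rfl k0_B00mm_101_s3

theorem s_B00mm_101_s3 {κ x : ℝ} (hκ : κ * h0 = ken x) (hx : ((923417968 : ℕ) : ℝ) / S ≤ x)
    (hx' : x ≤ (((923417968 : ℕ) : ℝ) + (42949674 : ℕ)) / S) :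
    AltB (VFD κ) PP tK tL pcB [⟨4, 0, 0, 2845415833⟩] 1 0 1 0 0 (sgb false) (sgb false) x :=
  strip_altBD (m := 2845415833) false rfl hκ (SH.κ0 hκ (SH.hx1 hx).le (SH.hx2 hx').le) (SH.hx1 hx).le (SH.hx2 hx') (covB01).cov (covB01).cov hx hx' c_B00mm_101_s3 cutB_nil (noExt_B)

noncomputable def cut_B00mm_102_s1 : Cut := Cut.of [[⟨4, 0, 0, 1449551462⟩]]

noncomputable def f_B00mm_102_s1 : ℕ → ℕ → ℕ → ℕ → Bool := onCell 536870912 536870912 0 536870912 923417968 42949674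
    (rowF 0 false false false .npp 1 0 2 (qsf 536870912 536870912 0 536870912 0) ndB0q1 ndB0q2 pcB0 cut_B00mm_102_s1 Ext.none)

def k0_B00mm_102_s1 : ∃ t, chk3 f_B00mm_102_s1 t 1 1 1 = true :=
  ⟨(a (l 5) (l 3)), by decide +kernel⟩

theorem c_B00mm_102_s1 : CertF 536870912 536870912 0 536870912 923417968 42949674 false false false .npp 1 0 2
    ndB0q1 ndB0q2 pcB0 cut_B00mm_102_s1 Ext.none :=
  certF0 (fam := false) (s1 := false) (s2 := false) (a := 1) (b := 0) (c := 2) (cn := .npp) (n1 := ndB0q1) (n2 := ndB0q2) (pc := pcB0) (cut := cut_B00mm_102_s1) (xt := Ext.none) (P1 := 536870912) (W1 := 536870912) (P2 := 0) (W2 := 536870912) (P3 := 923417968) (W3 := 42949674)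
    rfl k0_B00mm_102_s1

theorem s_B00mm_102_s1 {κ x : ℝ} (hκ : κ * h0 = ken x) (hx : ((923417968 : ℕ) : ℝ) / S ≤ x)
    (hx' : x ≤ (((923417968 : ℕ) : ℝ) + (42949674 : ℕ)) / S) :
    AltB (VFD κ) PP tK tL pcB [⟨3, 0, 0, 1449551462⟩] 1 0 2 0 0 (sgb false) (sgb false) x :=
  strip_altBD (m := 1449551462) true rfl hκ (SH.κ0 hκ (SH.hx1 hx).le (SH.hx2 hx').le) (SH.hx1 hx).le (SH.hx2 hx') (covB01).cov (covB02).cov hx hx' c_B00mm_102_s1 cutB_nil (noExt_B)

noncomputable def cut_B00mm_102_s3 : Cut := Cut.of [[⟨3, 0, 0, 2845415833⟩]]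

noncomputable def f_B00mm_102_s3 : ℕ → ℕ → ℕ → ℕ → Bool := onCell 536870912 536870912 0 536870912 923417968 42949674
    (rowF 0 false false false .npp 1 0 2 (qsf 536870912 536870912 0 536870912 0) ndB0q1 ndB0q2 pcB0 cut_B00mm_102_s3 Ext.none)

def k0_B00mm_102_s3 : ∃ t, chk3 f_B00mm_102_s3 t 1 1 1 = true :=
  ⟨(l 6), by decide +kernel⟩

theorem c_B00mm_102_s3 : CertF 536870912 536870912 0 536870912 923417968 42949674 false false false .npp 1 0 2
    ndB0q1 ndB0q2 pcB0 cut_B00mm_102_s3 Ext.none :=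
  certF0 (fam := false) (s1 := false) (s2 := false) (a := 1) (b := 0) (c := 2) (cn := .npp) (n1 := ndB0q1) (n2 := ndB0q2) (pc := pcB0) (cut := cut_B00mm_102_s3) (xt := Ext.none) (P1 := 536870912) (W1 := 536870912) (P2 := 0) (W2 := 536870912) (P3 := 923417968) (W3 := 42949674)
    rfl k0_B00mm_102_s3

theorem s_B00mm_102_s3 {κ x : ℝ} (hκ : κ * h0 = ken x) (hx : ((923417968 : ℕ) : ℝ) / S ≤ x)
    (hx' : x ≤ (((923417968 : ℕ) : ℝ) + (42949674 : ℕ)) / S) :
    AltB (VFD κ) PP tK tL pcB [⟨4, 0, 0, 2845415833⟩] 1 0 2 0 0 (sgb false) (sgb false) x :=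
  strip_altBD (m := 2845415833) false rfl hκ (SH.κ0 hκ (SH.hx1 hx).le (SH.hx2 hx').le) (SH.hx1 hx).le (SH.hx2 hx') (covB01).cov (covB02).cov hx hx' c_B00mm_102_s3 cutB_nil (noExt_B)

noncomputable def cut_B00mm_112_s1 : Cut := Cut.of [[⟨4, 0, 0, 1449551462⟩]]

noncomputable def f_B00mm_112_s1 : ℕ → ℕ → ℕ → ℕ → Bool := onCell 536870912 536870912 0 536870912 923417968 42949674
    (rowF 2 false false false .dn 1 1 2 (qsf 536870912 536870912 0 536870912 1) ndB0q1 ndB0q2 pcB1 cut_B00mm_112_s1 Ext.none)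

def k0_B00mm_112_s1 : ∃ t, chk3 f_B00mm_112_s1 t 1 1 1 = true :=
  ⟨(l 5), by decide +kernel⟩

theorem c_B00mm_112_s1 : CertF 536870912 536870912 0 536870912 923417968 42949674 false false false .dn 1 1 2
    ndB0q1 ndB0q2 pcB1 cut_B00mm_112_s1 Ext.none :=
  certF2 (fam := false) (s1 := false) (s2 := false) (a := 1) (b := 1) (c := 2) (cn := .dn) (n1 := ndB0q1) (n2 := ndB0q2) (pc := pcB1) (cut := cut_B00mm_112_s1) (xt := Ext.none) (P1 := 536870912) (W1 := 536870912) (P2 := 0) (W2 := 536870912) (P3 := 923417968) (W3 := 42949674)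
    rfl (fun _ => rfl) k0_B00mm_112_s1

theorem s_B00mm_112_s1 {κ x : ℝ} (hκ : κ * h0 = ken x) (hx : ((923417968 : ℕ) : ℝ) / S ≤ x)
    (hx' : x ≤ (((923417968 : ℕ) : ℝ) + (42949674 : ℕ)) / S) :
    AltB (VFD κ) PP tK tL pcB [⟨3, 0, 0, 1449551462⟩] 1 1 2 0 0 (sgb false) (sgb false) x :=
  strip_altBD (m := 1449551462) true rfl hκ (SH.κ0 hκ (SH.hx1 hx).le (SH.hx2 hx').le) (SH.hx1 hx).le (SH.hx2 hx') (covB01).cov (covB02).cov hx hx' c_B00mm_112_s1 cutB_nil (noExt_B)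

noncomputable def cut_B00mm_112_s3 : Cut := Cut.of [[⟨3, 0, 0, 2845415833⟩]]

noncomputable def f_B00mm_112_s3 : ℕ → ℕ → ℕ → ℕ → Bool := onCell 536870912 536870912 0 536870912 923417968 42949674
    (rowF 0 false false false .dn 1 1 2 (qsf 536870912 536870912 0 536870912 1) ndB0q1 ndB0q2 pcB1 cut_B00mm_112_s3 Ext.none)

def k0_B00mm_112_s3 : ∃ t, chk3 f_B00mm_112_s3 t 1 1 1 = true :=
  ⟨(l 6), by decide +kernel⟩

theorem c_B00mm_112_s3 : CertF 536870912 536870912 0 536870912 923417968 42949674 false false false .dn 1 1 2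
    ndB0q1 ndB0q2 pcB1 cut_B00mm_112_s3 Ext.none :=
  certF0 (fam := false) (s1 := false) (s2 := false) (a := 1) (b := 1) (c := 2) (cn := .dn) (n1 := ndB0q1) (n2 := ndB0q2) (pc := pcB1) (cut := cut_B00mm_112_s3) (xt := Ext.none) (P1 := 536870912) (W1 := 536870912) (P2 := 0) (W2 := 536870912) (P3 := 923417968) (W3 := 42949674)
    rfl k0_B00mm_112_s3

theorem s_B00mm_112_s3 {κ x : ℝ} (hκ : κ * h0 = ken x) (hx : ((923417968 : ℕ) : ℝ) / S ≤ x)
    (hx' : x ≤ (((923417968 : ℕ) : ℝ) + (42949674 : ℕ)) / S) :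
    AltB (VFD κ) PP tK tL pcB [⟨4, 0, 0, 2845415833⟩] 1 1 2 0 0 (sgb false) (sgb false) x :=
  strip_altBD (m := 2845415833) false rfl hκ (SH.κ0 hκ (SH.hx1 hx).le (SH.hx2 hx').le) (SH.hx1 hx).le (SH.hx2 hx') (covB01).cov (covB02).cov hx hx' c_B00mm_112_s3 cutB_nil (noExt_B)

noncomputable def cut_B00mm_202_s1 : Cut := Cut.of [[⟨4, 0, 0, 1449551462⟩]]

noncomputable def f_B00mm_202_s1 : ℕ → ℕ → ℕ → ℕ → Bool := onCell 0 536870912 0 536870912 923417968 42949674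
    (rowF 0 false false false .pp 2 0 2 (qsf 0 536870912 0 536870912 0) ndB0q2 ndB0q2 pcB0 cut_B00mm_202_s1 Ext.none)

def k0_B00mm_202_s1 : ∃ t, chk3 f_B00mm_202_s1 t 1 1 1 = true :=
  ⟨(l 3), by decide +kernel⟩

theorem c_B00mm_202_s1 : CertF 0 536870912 0 536870912 923417968 42949674 false false false .pp 2 0 2
    ndB0q2 ndB0q2 pcB0 cut_B00mm_202_s1 Ext.none :=
  certF0 (fam := false) (s1 := false) (s2 := false) (a := 2) (b := 0) (c := 2) (cn := .pp) (n1 := ndB0q2) (n2 := ndB0q2) (pc := pcB0) (cut := cut_B00mm_202_s1) (xt := Ext.none) (P1 := 0) (W1 := 536870912) (P2 := 0) (W2 := 536870912) (P3 := 923417968) (W3 := 42949674)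
    rfl k0_B00mm_202_s1

theorem s_B00mm_202_s1 {κ x : ℝ} (hκ : κ * h0 = ken x) (hx : ((923417968 : ℕ) : ℝ) / S ≤ x)
    (hx' : x ≤ (((923417968 : ℕ) : ℝ) + (42949674 : ℕ)) / S) :
    AltB (VFD κ) PP tK tL pcB [⟨3, 0, 0, 1449551462⟩] 2 0 2 0 0 (sgb false) (sgb false) x :=
  strip_altBD (m := 1449551462) true rfl hκ (SH.κ0 hκ (SH.hx1 hx).le (SH.hx2 hx').le) (SH.hx1 hx).le (SH.hx2 hx') (covB02).cov (covB02).cov hx hx' c_B00mm_202_s1 cutB_nil (noExt_B)

noncomputable def cut_B00mm_202_s3 : Cut := Cut.of [[⟨3, 0, 0, 2845415833⟩]]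

noncomputable def f_B00mm_202_s3 : ℕ → ℕ → ℕ → ℕ → Bool := onCell 0 536870912 0 536870912 923417968 42949674
    (rowF 0 false false false .pp 2 0 2 (qsf 0 536870912 0 536870912 0) ndB0q2 ndB0q2 pcB0 cut_B00mm_202_s3 Ext.none)

def k0_B00mm_202_s3 : ∃ t, chk3 f_B00mm_202_s3 t 1 1 1 = true :=
  ⟨(l 3), by decide +kernel⟩

theorem c_B00mm_202_s3 : CertF 0 536870912 0 536870912 923417968 42949674 false false false .pp 2 0 2
    ndB0q2 ndB0q2 pcB0 cut_B00mm_202_s3 Ext.none :=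
  certF0 (fam := false) (s1 := false) (s2 := false) (a := 2) (b := 0) (c := 2) (cn := .pp) (n1 := ndB0q2) (n2 := ndB0q2) (pc := pcB0) (cut := cut_B00mm_202_s3) (xt := Ext.none) (P1 := 0) (W1 := 536870912) (P2 := 0) (W2 := 536870912) (P3 := 923417968) (W3 := 42949674)
    rfl k0_B00mm_202_s3

theorem s_B00mm_202_s3 {κ x : ℝ} (hκ : κ * h0 = ken x) (hx : ((923417968 : ℕ) : ℝ) / S ≤ x)
    (hx' : x ≤ (((923417968 : ℕ) : ℝ) + (42949674 : ℕ)) / S) :
    AltB (VFD κ) PP tK tL pcB [⟨4, 0, 0, 2845415833⟩] 2 0 2 0 0 (sgb false) (sgb false) x :=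
  strip_altBD (m := 2845415833) false rfl hκ (SH.κ0 hκ (SH.hx1 hx).le (SH.hx2 hx').le) (SH.hx1 hx).le (SH.hx2 hx') (covB02).cov (covB02).cov hx hx' c_B00mm_202_s3 cutB_nil (noExt_B)

noncomputable def cut_B04pp_001_s1 : Cut := Cut.of [[⟨4, 0, 0, 1449551462⟩]]

noncomputable def f_B04pp_001_s1 : ℕ → ℕ → ℕ → ℕ → Bool := onCell 0 536870912 0 536870912 923417968 42949674
    (rowF 1 false true true .up 0 0 1 (qsf 0 536870912 536870912 536870912 0) ndB0q0 ndB4q1 pcB0 cut_B04pp_001_s1 Ext.none)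

def k0_B04pp_001_s1 : ∃ t, chk3 f_B04pp_001_s1 t 1 1 1 = true :=
  ⟨(l 3), by decide +kernel⟩

theorem c_B04pp_001_s1 : CertF 0 536870912 536870912 536870912 923417968 42949674 false true true .up 0 0 1
    ndB0q0 ndB4q1 pcB0 cut_B04pp_001_s1 Ext.none :=
  certF1 (fam := false) (s1 := true) (s2 := true) (a := 0) (b := 0) (c := 1) (cn := .up) (n1 := ndB0q0) (n2 := ndB4q1) (pc := pcB0) (cut := cut_B04pp_001_s1) (xt := Ext.none) (P1 := 0) (W1 := 536870912) (P2 := 536870912) (W2 := 536870912) (P3 := 923417968) (W3 := 42949674)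
    rfl (fun _ => rfl) k0_B04pp_001_s1

theorem s_B04pp_001_s1 {κ x : ℝ} (hκ : κ * h0 = ken x) (hx : ((923417968 : ℕ) : ℝ) / S ≤ x)
    (hx' : x ≤ (((923417968 : ℕ) : ℝ) + (42949674 : ℕ)) / S) :
    AltB (VFD κ) PP tK tL pcB [⟨3, 0, 0, 1449551462⟩] 0 0 1 0 4 (sgb true) (sgb true) x :=
  strip_altBD (m := 1449551462) true rfl hκ (SH.κ0 hκ (SH.hx1 hx).le (SH.hx2 hx').le) (SH.hx1 hx).le (SH.hx2 hx') (covB00).cov (covB41).cov hx hx' c_B04pp_001_s1 cutB_nil (noExt_B)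

noncomputable def cut_B04pp_011_s1 : Cut := Cut.of [[⟨4, 0, 0, 1449551462⟩], [⟨0, 0, 0, 67108864⟩, ⟨1, 1, 0, 67108864⟩, ⟨2, 1, 0, 67108864⟩]]

noncomputable def f_B04pp_011_s1 : ℕ → ℕ → ℕ → ℕ → Bool := onCell 0 536870912 536870912 536870912 923417968 42949674
    (rowF 1 false true true .pnn 0 1 1 (qsf 0 536870912 536870912 536870912 1) ndB0q0 ndB4q1 pcB1 cut_B04pp_011_s1 Ext.none)

def k0_B04pp_011_s1 : ∃ t, chk3 f_B04pp_011_s1 t 1 1 1 = true :=
  ⟨(b (l 3) (a (b (l 3) (a (b (l 3) (a (a (b (l 3) (l 14)) (l 3)) (l 3))) (l 3))) (l 3))), by decide +kernel⟩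

theorem c_B04pp_011_s1 : CertF 0 536870912 536870912 536870912 923417968 42949674 false true true .pnn 0 1 1
    ndB0q0 ndB4q1 pcB1 cut_B04pp_011_s1 Ext.none :=
  certF1 (fam := false) (s1 := true) (s2 := true) (a := 0) (b := 1) (c := 1) (cn := .pnn) (n1 := ndB0q0) (n2 := ndB4q1) (pc := pcB1) (cut := cut_B04pp_011_s1) (xt := Ext.none) (P1 := 0) (W1 := 536870912) (P2 := 536870912) (W2 := 536870912) (P3 := 923417968) (W3 := 42949674)
    rfl (fun _ => rfl) k0_B04pp_011_s1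

theorem s_B04pp_011_s1 {κ x : ℝ} (hκ : κ * h0 = ken x) (hx : ((923417968 : ℕ) : ℝ) / S ≤ x)
    (hx' : x ≤ (((923417968 : ℕ) : ℝ) + (42949674 : ℕ)) / S)
    (H : CutB (VFD κ) PP tK tL pcB (Cut.of [[⟨0, 0, 0, 67108864⟩, ⟨1, 1, 0, 67108864⟩, ⟨2, 1, 0, 67108864⟩]]) 0 1 1 0 4 (sgb true) (sgb true) x) :
    AltB (VFD κ) PP tK tL pcB [⟨3, 0, 0, 1449551462⟩] 0 1 1 0 4 (sgb true) (sgb true) x :=
  strip_altBD (m := 1449551462) true rfl hκ (SH.κ0 hκ (SH.hx1 hx).le (SH.hx2 hx').le) (SH.hx1 hx).le (SH.hx2 hx') (covB00).cov (covB41).cov hx hx' c_B04pp_011_s1 H (noExt_B)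

noncomputable def cut_B04pp_012_s1 : Cut := Cut.of [[⟨4, 0, 0, 1449551462⟩], [⟨0, 0, 0, 67108864⟩, ⟨1, 1, 0, 67108864⟩, ⟨2, 1, 0, 67108864⟩]]

noncomputable def f_B04pp_012_s1 : ℕ → ℕ → ℕ → ℕ → Bool := onCell 0 536870912 536870912 536870912 923417968 42949674
    (rowF 1 false true true .pnp 0 1 2 (qsf 0 536870912 1073741824 536870912 1) ndB0q0 ndB4q2 pcB1 cut_B04pp_012_s1 Ext.none)

def k0_B04pp_012_s1 : ∃ t, chk3 f_B04pp_012_s1 t 1 1 1 = true :=
  ⟨(b (l 3) (a (b (l 3) (a (a (a (b (l 1) (b (l 3) (l 14))) (l 3)) (l 3)) (l 3))) (l 3))), by decide +kernel⟩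

theorem c_B04pp_012_s1 : CertF 0 536870912 1073741824 536870912 923417968 42949674 false true true .pnp 0 1 2
    ndB0q0 ndB4q2 pcB1 cut_B04pp_012_s1 Ext.none :=
  certF1 (fam := false) (s1 := true) (s2 := true) (a := 0) (b := 1) (c := 2) (cn := .pnp) (n1 := ndB0q0) (n2 := ndB4q2) (pc := pcB1) (cut := cut_B04pp_012_s1) (xt := Ext.none) (P1 := 0) (W1 := 536870912) (P2 := 1073741824) (W2 := 536870912) (P3 := 923417968) (W3 := 42949674)
    rfl (fun _ => rfl) k0_B04pp_012_s1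

theorem s_B04pp_012_s1 {κ x : ℝ} (hκ : κ * h0 = ken x) (hx : ((923417968 : ℕ) : ℝ) / S ≤ x)
    (hx' : x ≤ (((923417968 : ℕ) : ℝ) + (42949674 : ℕ)) / S)
    (H : CutB (VFD κ) PP tK tL pcB (Cut.of [[⟨0, 0, 0, 67108864⟩, ⟨1, 1, 0, 67108864⟩, ⟨2, 1, 0, 67108864⟩]]) 0 1 2 0 4 (sgb true) (sgb true) x) :
    AltB (VFD κ) PP tK tL pcB [⟨3, 0, 0, 1449551462⟩] 0 1 2 0 4 (sgb true) (sgb true) x :=
  strip_altBD (m := 1449551462) true rfl hκ (SH.κ0 hκ (SH.hx1 hx).le (SH.hx2 hx').le) (SH.hx1 hx).le (SH.hx2 hx') (covB00).cov (covB42).cov hx hx' c_B04pp_012_s1 H (noExt_B)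

noncomputable def cut_B04pp_022_s1 : Cut := Cut.of [[⟨4, 0, 0, 1449551462⟩], [⟨0, 0, 0, 67108864⟩, ⟨1, 1, 0, 67108864⟩, ⟨2, 1, 0, 67108864⟩]]

noncomputable def xt_B04pp_022_s1 : Ext := strExt dd false true true .u0 .s2 .u2 .pp 0 2 2 rfl rfl gf2 vv ndB0q0 ndB4q2

noncomputable def f_B04pp_022_s1 : ℕ → ℕ → ℕ → ℕ → Bool := onCell 1073741824 536870912 1073741824 536870912 923417968 42949674
    (rowF 2 false true true .pp 0 2 2 (qsf 0 536870912 1073741824 536870912 2) ndB0q0 ndB4q2 pcB2 cut_B04pp_022_s1 xt_B04pp_022_s1)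

def k0_B04pp_022_s1 : ∃ t, chk3 f_B04pp_022_s1 t 8 8 1 = true :=
  ⟨(a (b (l 14) (a (b (l 14) (b (l 14) (l 3))) (b (l 14) (a (b (l 14) (b (l 14) (b (l 14) (a (l 3) (a (l 524071807) (l 523925119)))))) (b (l 14) (b (l 14) (c (a (a (l 16761736) (l 16755008)) (l 16744624)) (a (a (l 16762240) (l 16755664)) (l 16745488))))))))) (b (a (l 14) (l 1)) (a (b (l 14) (b (l 14) (a (a (c (l 16726624) (l 16727824)) (a (l 16672528) (l 16663968))) (a (l 16651232) (l 16634464))))) (a (b (l 14) (b (l 14) (a (l 16659880) (l 16643624)))) (b (l 1) (b (l 16611400) (a (l 16627632) (l 16611936)))))))), by decide +kernel⟩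

def k1_B04pp_022_s1 : ∃ t, chk3 f_B04pp_022_s1 t 16 9 1 = true :=
  ⟨(b (a (l 3) (b (a (a (l 3) (b (b (a (l 524018559) (l 523869055)) (a (l 3) (l 523817599))) (b (a (l 3) (l 523773823)) (l 3)))) (b (a (b (a (b (l 523752831) (l 523722879)) (c (l 16759136) (l 16759648))) (a (l 523671679) (l 523531391))) (b (c (l 16748824) (l 16749536)) (a (c (l 16756464) (l 16756976)) (l 16749816)))) (a (b (a (l 523625087) (l 523482495)) (a (l 523586431) (l 523441023))) (b (a (l 523345791) (l 16753968)) (a (l 523301759) (l 523168639)))))) (a (l 3) (b (a (b (l 523478911) (l 523455615)) (b (a (l 523265407) (l 523129471)) (l 523161983))) (a (l 3) (b (l 523141247) (l 523128191))))))) (a (l 3) (b (a (l 3) (b (a (l 3) (b (l 523123071) (l 3))) (l 3))) (l 3)))), by decide +kernel⟩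

def k2_B04pp_022_s1 : ∃ t, chk3 f_B04pp_022_s1 t 136 18 1 = true :=
  ⟨(b (b (b (c (l 16713392) (l 16735304)) (l 16739232)) (b (c (l 16722128) (l 16743744)) (c (l 16747352) (l 16747904)))) (b (b (c (l 16754256) (l 16754712)) (a (l 522965887) (l 16752560))) (b (l 524478335) (l 522848895)))), by decide +kernel⟩

def k3_B04pp_022_s1 : ∃ t, chk3 f_B04pp_022_s1 t 274 18 4 = true :=
  ⟨(a (c (a (c (b (b (l 16727736) (l 16736840)) (b (l 16745512) (l 16754232))) (b (b (l 16727840) (l 16736912)) (b (l 16745560) (l 16754272)))) (c (b (b (l 16725688) (l 16735008)) (b (l 16743688) (l 16752416))) (b (b (l 16725792) (l 16735080)) (b (l 16743736) (l 16752456))))) (a (c (b (b (l 16727944) (l 16736984)) (b (l 16745616) (l 16754304))) (b (b (l 16728048) (l 16737064)) (b (l 16745672) (l 16754344)))) (c (b (b (l 16725896) (l 16735160)) (b (l 16743792) (l 16752496))) (b (b (l 16726008) (l 16735232)) (b (l 16743848) (l 16752544))))))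 (c (a (c (b (b (l 16723584) (l 16733168)) (b (l 16741856) (l 16750600))) (b (b (l 16723696) (l 16733248)) (b (l 16741912) (l 16750640)))) (c (b (b (l 16721440) (l 16731320)) (b (l 16740016) (l 16748768))) (b (b (l 16721552) (l 16731400)) (b (l 16740072) (l 16748816))))) (a (c (b (b (l 16723808) (l 16733320)) (b (l 16741968) (l 16750680))) (b (b (l 16723920) (l 16733400)) (b (l 16742024) (l 16750728)))) (c (b (b (l 16721664) (l 16731480)) (b (l 16740128) (l 16748856))) (b (l 16705656) (b (l 16740192) (l 16748904))))))), by decide +kernel⟩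

def k4_B04pp_022_s1 : ∃ t, chk3 f_B04pp_022_s1 t 548 18 5 = true :=
  ⟨(c (a (c (b (b (l 16728160) (l 16737136)) (b (l 16745728) (l 16754392))) (a (b (b (l 16728800) (l 16737672)) (b (l 16746240) (l 16754880))) (b (b (l 16727792) (l 16736768)) (b (l 16745328) (l 16753984))))) (c (b (b (l 16726120) (l 16735312)) (b (l 16743912) (l 16752584))) (a (b (l 16710304) (b (l 16744424) (l 16753080))) (b (l 16709328) (b (l 16743512) (l 16752176)))))) (a (c (a (c (b (l 16712304) (b (l 16746280) (l 16754912))) (b (l 16712360) (b (l 16746312) (l 16754936)))) (b (l 16711368) (b (l 16745392) (l 16754024)))) (a (c (b (l 16712408) (b (l 16746344) (l 16754960))) (a (b (l 16712704) (b (l 16746600) (l 16755200))) (b (l 16712232) (b (l 16746144) (l 16754752))))) (c (b (l 16711448) (b (l 16745440) (l 16754056))) (b (l 16711504) (b (l 16745464) (l 16754080)))))) (c (a (b (l 16710408) (b (l 16744488) (l 16753128))) (c (b (l 16709408)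 (b (l 16743560) (l 16752208))) (b (l 16709464) (b (l 16743592) (l 16752232))))) (b (b (l 16726480) (l 16735568)) (b (l 16744096) (l 16752720)))))), by decide +kernel⟩

def k5_B04pp_022_s1 : ∃ t, chk3 f_B04pp_022_s1 t 549 18 5 = true :=
  ⟨(c (a (c (b (b (l 16724040) (l 16733488)) (b (l 16742088) (l 16750768))) (a (b (l 16708352) (b (l 16742600) (l 16751272))) (b (l 16707368) (b (l 16741688) (l 16750360))))) (c (b (l 16705752) (b (l 16740256) (l 16748952))) (a (b (l 16706384) (b (l 16740776) (l 16749456))) (b (l 16705384) (b (l 16739856) (l 16748544)))))) (a (c (a (c (b (l 16708432) (b (l 16742648) (l 16751304))) (b (l 16708488) (b (l 16742680) (l 16751328)))) (c (b (l 16707448) (b (l 16741736) (l 16750400))) (b (l 16707504) (b (l 16741768) (l 16750424))))) (a (c (b (l 16708536) (b (l 16742712) (l 16751352))) (a (b (l 16708848) (b (l 16742976) (l 16751608))) (b (l 16708360) (b (l 16742520) (l 16751152))))) (c (b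 (l 16707560) (b (l 16741800) (l 16750448))) (a (b (l 16707872) (b (l 16742064) (l 16750704))) (b (l 16707376) (b (l 16741608) (l 16750248))))))) (c (a (c (b (l 16706464) (b (l 16740824) (l 16749488))) (b (l 16706512) (b (l 16740856) (l 16749512)))) (b (l 16705496) (b (l 16739928) (l 16748592)))) (a (c (b (l 16706568) (b (l 16740888) (l 16749544))) (a (b (l 16706880) (b (l 16741152) (l 16749792))) (b (l 16706392) (b (l 16740696) (l 16749344))))) (c (b (l 16705576) (b (l 16739976) (l 16748632))) (a (b (l 16705896) (b (l 16740240) (l 16748888))) (b (l 16705392) (b (l 16739784) (l 16748432))))))))), by decide +kernel⟩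

def k6_B04pp_022_s1 : ∃ t, chk3 f_B04pp_022_s1 t 275 18 2 = true :=
  ⟨(c (a (c (a (c (b (l 16703352) (b (l 16738168) (l 16746936))) (b (l 16703448) (b (l 16738232) (l 16746976)))) (b (l 16701360) (b (l 16736352) (l 16745112)))) (a (c (b (l 16703544) (b (l 16738288) (l 16747024))) (b (l 16703648) (b (l 16738352) (l 16747072)))) (b (l 16701568) (b (l 16736472) (l 16745208))))) (b (b (l 16713904) (l 16724656)) (b (l 16733624) (l 16742392)))) (a (c (a (c (b (l 16703752) (b (l 16738416) (l 16747120))) (b (l 16703856) (b (l 16738480) (l 16747176)))) (b (l 16701776) (b (l 16736608) (l 16745312)))) (a (c (a (b (l 16704496) (b (l 16739008) (l 16747680))) (b (l 16703488) (b (l 16738088) (l 16746768)))) (a (b (l 16704608) (b (l 16739080) (l 16747736))) (b (l 16703600) (b (l 16738160) (l 16746824))))) (b (l 16702008) (b (l 16736744) (l 16745424))))) (b (b (l 16714456) (l 16725032)) (b (l 16733896) (l 16742600))))), by decide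 +kernel⟩

def k7_B04pp_022_s1 : ∃ t, chk3 f_B04pp_022_s1 t 548 18 6 = true :=
  ⟨(c (a (c (a (c (a (b (l 16712760) (b (l 16746624) (l 16755224))) (b (l 16712280) (b (l 16746176) (l 16754776)))) (a (c (b (l 16712800) (b (l 16746648) (l 16755240))) (b (l 16712824) (b (l 16746664) (l 16755256)))) (b (l 16712336) (b (l 16746208) (l 16754800))))) (c (a (c (b (l 16711792) (b (l 16745720) (l 16754320))) (b (l 16711816) (b (l 16745736) (l 16754336)))) (b (l 16711328) (b (l 16745272) (l 16753880)))) (a (c (b (l 16711848) (b (l 16745752) (l 16754344))) (a (b (l 16711992) (b (l 16745880) (l 16754472))) (b (l 16711760) (b (l 16745656) (l 16754248))))) (b (l 16711376) (b (l 16745304) (l 16753904)))))) (a (c (a (c (a (b (l 16712976) (b (l 16746792) (l 16755376))) (b (l 16712736) (b (l 16746568) (l 16755152)))) (a (b (l 16713000) (b (l 16746808) (l 16755384))) (b (l 16712768) (b (l 16746584) (l 16755168))))) (b (l 16712392)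 (b (l 16746240) (l 16754824)))) (a (c (b (l 16712904) (b (l 16746712) (l 16755288))) (b (l 16712936) (b (l 16746728) (l 16755296)))) (b (l 16712440) (b (l 16746272) (l 16754848))))) (c (a (b (l 16711912) (b (l 16745792) (l 16754376))) (c (b (l 16711416) (b (l 16745328) (l 16753920))) (b (l 16711448) (b (l 16745344) (l 16753936))))) (b (l 16711720) (b (l 16745600) (l 16754176)))))) (b (b (l 16726664) (l 16735704)) (b (l 16744192) (l 16752792)))) (a (c (a (c (a (b (l 16712976) (b (l 16746752) (l 16755320))) (b (l 16712496) (b (l 16746304) (l 16754872)))) (b (l 16712784) (b (l 16746560) (l 16755120)))) (b (l 16711800) (b (l 16745648) (l 16754208)))) (b (a (l 16712864) (l 16711912)) (b (l 16746160) (l 16754704)))) (b (b (l 16726920) (l 16735888)) (b (l 16744328) (l 16752896))))), by decide +kernel⟩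

def k8_B04pp_022_s1 : ∃ t, chk3 f_B04pp_022_s1 t 1098 18 12 = true :=
  ⟨(c (b (l 16708160) (l 16751904)) (b (l 16708272) (l 16751968))), by decide +kernel⟩

def k9_B04pp_022_s1 : ∃ t, chk3 f_B04pp_022_s1 t 1099 18 24 = true :=
  ⟨(a (c (a (c (b (l 16706928) (b (l 16741176) (l 16749816))) (b (l 16706952) (b (l 16741192) (l 16749824)))) (b (l 16706448) (b (l 16740728) (l 16749368)))) (a (c (b (l 16706984) (b (l 16741216) (l 16749840))) (a (b (l 16707136) (b (l 16741344) (l 16749968))) (b (l 16706896) (b (l 16741112) (l 16749736))))) (c (b (l 16706488) (b (l 16740760) (l 16749384))) (a (b (l 16706648) (b (l 16740888) (l 16749512))) (b (l 16706400) (b (l 16740656) (l 16749288))))))) (c (a (b (l 16705952) (b (l 16740272) (l 16748912))) (b (l 16705448) (b (l 16739816) (l 16748456)))) (a (c (b (l 16705992) (b (l 16740296) (l 16748936))) (b (l 16706024) (b (l 16740320) (l 16748944)))) (c (b (l 16705496) (b (l 16739840)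 (l 16748480))) (b (l 16705520) (b (l 16739864) (l 16748488))))))), by decide +kernel⟩

def k10_B04pp_022_s1 : ∃ t, chk3 f_B04pp_022_s1 t 1099 18 25 = true :=
  ⟨(a (c (a (c (a (c (b (l 16707160) (b (l 16741360) (l 16749976))) (b (l 16707176) (b (l 16741368) (l 16749984)))) (c (b (l 16706912) (b (l 16741128) (l 16749752))) (b (l 16706928) (b (l 16741136) (l 16749752))))) (a (b (l 16707200) (b (l 16741376) (l 16749992))) (b (l 16706952) (b (l 16741152) (l 16749768))))) (c (a (c (b (l 16706664) (b (l 16740904) (l 16749520))) (b (l 16706680) (b (l 16740912) (l 16749528)))) (b (l 16706424) (b (l 16740680) (l 16749296)))) (a (b (l 16706704) (b (l 16740920) (l 16749536))) (b (l 16706456) (b (l 16740696) (l 16749312)))))) (a (c (b (l 16707096) (b (l 16741280) (l 16749896))) (b (l 16707128) (b (l 16741304) (l 16749904)))) (c (b (l 16706600) (b (l 16740824) (l 16749440))) (b (l 16706632) (b (l 16740848) (l 16749456))))))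 (c (a (c (a (b (l 16706176) (b (l 16740448) (l 16749072))) (b (l 16705928) (b (l 16740224) (l 16748848)))) (a (c (b (l 16706200) (b (l 16740464) (l 16749080))) (b (l 16706216) (b (l 16740472) (l 16749088)))) (c (b (l 16705952) (b (l 16740232) (l 16748856))) (b (l 16705968) (b (l 16740240) (l 16748864)))))) (c (a (b (l 16705680) (b (l 16739992) (l 16748616))) (b (l 16705432) (b (l 16739768) (l 16748392)))) (a (c (b (l 16705704) (b (l 16740008) (l 16748632))) (b (l 16705720) (b (l 16740016) (l 16748632)))) (b (l 16705464) (b (l 16739784) (l 16748408)))))) (a (c (a (b (l 16706240) (b (l 16740488) (l 16749096))) (b (l 16705992) (b (l 16740256) (l 16748872)))) (b (l 16706136) (b (l 16740392) (l 16749000)))) (c (a (b (l 16705744) (b (l 16740032) (l 16748648))) (b (l 16705496) (b (l 16739800) (l 16748416)))) (b (l 16705640) (b (l 16739936) (l 16748544))))))), by decide +kernel⟩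

def k11_B04pp_022_s1 : ∃ t, chk3 f_B04pp_022_s1 t 549 18 13 = true :=
  ⟨(b (b (l 16723784) (l 16733160)) (b (l 16741608) (l 16750192))), by decide +kernel⟩

def k12_B04pp_022_s1 : ∃ t, chk3 f_B04pp_022_s1 t 274 18 7 = true :=
  ⟨(a (c (a (b (b (l 16729200) (l 16737880)) (b (l 16746264) (l 16733808))) (b (b (l 16727192) (l 16736080)) (b (l 16744464) (l 16753000)))) (a (c (b (l 16733688) (b (l 16746368) (l 16733888))) (b (l 16733808) (b (l 16746448) (l 16733944)))) (b (b (l 16727464) (l 16736280)) (b (l 16744616) (l 16732136))))) (b (b (l 16724216) (l 16733464)) (b (l 16741832) (l 16729392)))), by decide +kernel⟩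

def k13_B04pp_022_s1 : ∃ t, chk3 f_B04pp_022_s1 t 275 18 3 = true :=
  ⟨(c (a (c (a (c (a (b (l 16704720) (b (l 16739144) (l 16747792))) (b (l 16703720) (b (l 16738232) (l 16746880)))) (a (c (a (c (b (l 16705056) (b (l 16739424) (l 16748048))) (a (b (l 16705216) (b (l 16739552) (l 16748176))) (b (l 16704968) (b (l 16739328) (l 16747952))))) (b (l 16704568) (b (l 16738976) (l 16747600)))) (a (c (a (c (b (l 16705232) (b (l 16739568) (l 16748192))) (b (l 16705248) (b (l 16739576) (l 16748192)))) (c (b (l 16704984) (b (l 16739336) (l 16747960))) (b (l 16705000) (b (l 16739352) (l 16747968))))) (a (b (l 16705272) (b (l 16739592) (l 16748208))) (b (l 16705024) (b (l 16739360) (l 16747976))))) (c (b (l 16704616) (b (l 16739000) (l 16747624))) (a (b (l 16704776) (b (l 16739136) (l 16747752))) (b (l 16704528) (b (l 16738904) (l 16747528))))))) (c (b (l 16703808) (b (l 16738288) (l 16746920))) (b (l 16703864) (b (l 16738320)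 (l 16746944)))))) (b (l 16702240) (b (l 16736888) (l 16745536)))) (b (b (l 16719536) (l 16729432)) (l 16747512))) (c (b (l 16699136) (b (l 16734128) (l 16742784))) (a (b (l 16700456) (b (l 16735208) (l 16743824))) (b (l 16698408) (b (l 16733360) (l 16741992)))))) (b (b (l 16717856) (l 16727768)) (b (l 16736368) (l 16723960)))), by decide +kernel⟩

def k14_B04pp_022_s1 : ∃ t, chk3 f_B04pp_022_s1 t 69 18 1 = true :=
  ⟨(b (a (b (b (l 16659288) (l 16664720)) (c (l 16693336) (l 16694296))) (b (l 16644880) (l 16676512))) (b (a (a (l 16707496) (l 16699744)) (b (l 16663664) (l 16689936))) (b (a (l 16710256) (l 16694824)) (a (c (l 16714392) (l 16714928)) (l 16699424))))), by decide +kernel⟩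

def k15_B04pp_022_s1 : ∃ t, chk3 f_B04pp_022_s1 t 34 19 1 = true :=
  ⟨(b (a (b (a (b (l 522838143) (l 522835327)) (b (l 522579327) (a (l 522639231) (l 522514303)))) (a (b (l 522840191) (l 522852991)) (b (a (l 522638975) (l 522510975)) (c (l 522164607) (l 522733695))))) (b (a (b (l 523959311) (l 522333055)) (c (l 16705848) (l 16706472))) (a (b (l 522325631) (l 522326399)) (b (l 522111103) (l 520762751))))) (a (b (a (c (l 522718079) (l 523047807)) (c (l 522443903) (l 523285119))) (a (l 3) (c (l 521968767) (l 522815871)))) (b (a (b (l 522335103) (a (l 522418815) (l 522294655))) (b (l 521033087) (l 520774783))) (a (c (l 521703807) (l 522535039)) (b (l 521866879) (l 522161535)))))), by decide +kernel⟩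

def k16_B04pp_022_s1 : ∃ t, chk3 f_B04pp_022_s1 t 35 9 1 = true :=
  ⟨(b (b (a (a (b (l 16669912) (l 16638312)) (b (l 16653224) (l 16663216))) (b (l 16586688) (l 16596088))) (a (a (b (l 16648912) (c (l 16659232) (l 16660104))) (b (l 16673536) (l 16642160))) (b (a (l 16656384) (l 16639424)) (a (l 16666696) (l 16649448))))) (b (a (b (a (a (l 16694568) (l 16665576)) (a (l 16657240) (l 16690440))) (c (a (l 16699352) (l 16662392)) (a (l 16679136) (l 16663312)))) (b (a (l 16635312) (l 16659792)) (a (l 16667024) (l 16670376)))) (c (a (b (a (l 16708448) (l 16713720)) (a (l 521792127) (l 16701992))) (a (b (l 16697528) (l 16707072)) (b (l 16680536) (l 16690736)))) (a (b (a (l 16709224) (l 16714656)) (a (l 522058111) (l 16681928))) (a (b (l 16698656) (l 16708176)) (b (l 16681872) (l 16692056))))))), by decide +kernel⟩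

def k17_B04pp_022_s1 : ∃ t, chk3 f_B04pp_022_s1 t 8 5 1 = true :=
  ⟨(a (l 3) (b (b (a (a (l 3) (b (b (a (l 522464383) (l 520595727)) (c (l 522287487) (l 522589567))) (b (c (l 522426495) (l 522736767)) (l 3)))) (b (a (b (c (a (l 521846399) (l 521114751)) (a (l 522120319) (l 16712088))) (a (l 521797247) (l 521046655))) (b (a (c (l 16716464) (l 16717488)) (l 16659080)) (a (c (l 16704912) (l 16684816)) (l 16689504)))) (a (b (a (l 522187391) (l 521960063)) (a (l 522341247) (l 522100095))) (b (a (l 521763967) (l 16698960)) (a (l 521889407) (l 521712255)))))) (a (l 3) (b (a (b (c (l 522247039) (l 522543743)) (a (l 3) (l 522476927))) (b (a (l 522047615) (l 521854847)) (a (l 522238079) (l 522030207)))) (b (a (l 522841727) (a (l 522460543) (l 522238079))) (a (l 3) (a (l 522714751) (l 522478463))))))) (a (l 3) (b (a (l 3) (b (b (l 521522559) (c (l 521542783) (l 523467647))) (l 3))) (l 3))))), by decide +kernel⟩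

def k18_B04pp_022_s1 : ∃ t, chk3 f_B04pp_022_s1 t 9 4 1 = true :=
  ⟨(b (a (b (l 1) (a (b (l 1) (b (l 1) (a (l 16588952) (l 1)))) (l 1))) (l 1)) (a (b (a (b (a (b (l 16554856) (l 16605288)) (b (l 16566144) (l 16573568))) (a (a (l 16585536) (l 16526864)) (b (l 16581712) (l 16590480)))) (b (a (l 16455912) (l 1)) (a (b (l 16550104) (l 16557960)) (b (l 16519632) (l 16526432))))) (a (b (a (b (l 16591896) (l 16602192)) (a (l 16571256) (l 16596208))) (a (a (b (l 16663504) (l 16632400)) (b (l 16645952) (l 16656672))) (b (l 16535912) (l 16588376)))) (b (a (b (l 16566504) (l 16575664)) (l 16454304)) (a (a (l 16599040) (l 16581848)) (l 16472408))))) (b (b (l 1) (a (a (l 16493120) (l 1)) (l 1))) (a (b (a (l 16443352) (l 16475376)) (a (l 16522832) (l 16490120))) (b (l 16347280) (a (l 16458288) (l 16427456))))))), by decide +kernel⟩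

def k19_B04pp_022_s1 : ∃ t, chk3 f_B04pp_022_s1 t 18 5 1 = true :=
  ⟨(b (a (b (a (b (a (b (l 16642752) (l 16694496)) (b (l 16667584) (l 16636184))) (a (b (l 16704048) (l 16671640)) (b (l 16646152) (l 16697736)))) (b (a (b (l 16649920) (l 16660904)) (l 16595872)) (a (b (l 16629744) (l 16681840)) (c (l 16616984) (l 16619088))))) (c (b (a (b (a (l 16722600) (l 16706800)) (a (l 16711032) (l 16716408))) (a (l 16653912) (l 16679936))) (a (b (a (l 521920895) (l 16725888)) (a (l 522145151) (l 16714208))) (b (l 16660736) (l 521894783)))) (b (a (a (b (l 16723560) (l 16711848)) (l 16691816)) (a (l 16655336) (l 16681696))) (a (b (a (l 522199679) (l 16726832)) (a (l 522427775) (l 16715008))) (b (l 16662112) (l 16692664)))))) (b (a (b (a (l 16578320) (l 16602760)) (a (l 16600528) (l 16582984))) (b (l 16513720) (a (l 16607384) (l 16589880)))) (b (a (a (a (l 16626832) (l 16618600)) (b (l 16642008) (l 16653488))) (a (l 16588424)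 (l 16529040))) (a (a (l 16643232) (l 16627648)) (a (l 16611512) (l 16552704)))))) (a (b (b (a (c (a (l 522004095) (l 521324927)) (a (l 522294655) (l 521345663))) (b (a (l 522326143) (l 16673088)) (a (l 522631551) (l 16703488)))) (a (c (b (a (l 523034495) (l 523017855)) (l 522386559)) (b (a (l 523333503) (l 523326335)) (l 522956415))) (b (l 522146431) (a (l 523316863) (l 523290239))))) (a (b (a (l 3) (l 523559807)) (l 3)) (b (a (l 523559551) (l 522483071)) (l 523859839)))) (b (a (b (b (l 16650608) (l 521416063)) (b (l 522295935) (l 521852543))) (c (b (l 16624200) (l 16645344)) (b (l 16626616) (l 16647440)))) (b (a (b (a (l 523470207) (l 16681368)) (l 523644287)) (b (l 16671256) (l 522832767))) (a (l 523324799) (l 523869311)))))), by decide +kernel⟩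

def k20_B04pp_022_s1 : ∃ t, chk3 f_B04pp_022_s1 t 19 5 1 = true :=
  ⟨(b (b (a (b (a (l 16542168) (l 16508192)) (a (l 16479776) (l 16528952))) (b (a (l 16474824) (l 16442168)) (a (l 16494576) (l 16460656)))) (a (b (a (a (l 16595456) (l 16577984)) (l 16467872)) (a (a (l 16619376) (l 16602088)) (l 16492144))) (b (a (l 16516912) (l 16482256)) (a (l 16541200) (l 16506312))))) (a (b (b (a (a (l 16559640) (l 16626728)) (l 16517304)) (a (a (l 16582440) (l 16567128)) (l 16563776))) (a (c (b (l 16594464) (l 16654136)) (b (l 16597008) (l 16656296))) (b (a (l 16574128) (l 16558880)) (l 16670264)))) (b (b (a (l 16482960) (l 16532224)) (a (l 16509344) (l 16559320))) (b (c (l 16515848) (l 16521368)) (a (l 16641680) (l 16526744)))))), by decide +kernel⟩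

def k21_B04pp_022_s1 : ∃ t, chk3 f_B04pp_022_s1 t 8 3 1 = true :=
  ⟨(l 3), by decide +kernel⟩

def k22_B04pp_022_s1 : ∃ t, chk3 f_B04pp_022_s1 t 9 3 2 = true :=
  ⟨(a (b (b (a (b (a (l 3) (l 524167551)) (l 3)) (b (b (l 524003455) (l 524317311)) (a (l 524789375) (l 524777343)))) (a (l 3) (b (a (l 3) (l 525409407)) (l 3)))) (l 3)) (a (b (b (b (a (b (l 16680392) (l 524332671)) (b (l 16602128) (l 16659384))) (a (l 524771967) (l 524777343))) (b (a (l 525398143) (l 525398655)) (a (b (l 525882751) (l 3)) (b (l 525877631) (l 527020671))))) (b (b (a (l 3) (b (l 526402687) (l 3))) (l 3)) (l 3))) (b (b (b (a (b (l 16575456) (l 16675904)) (b (l 16630360) (l 16565736))) (a (b (l 16691168) (l 16663600)) (l 16673968))) (b (a (l 525418623) (b (l 16695608) (l 16625016))) (a (l 527660815) (b (l 16721336) (l 16753928))))) (b (b (a (b (l 526486655) (l 526612607)) (b (l 526562175) (l 526701839))) (a (b (l 526707071) (a (l 3) (l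 526796671))) (a (l 526793855) (l 526831231)))) (b (a (l 3) (a (l 527385615) (l 526875775))) (l 3)))))), by decide +kernel⟩

def k23_B04pp_022_s1 : ∃ t, chk3 f_B04pp_022_s1 t 9 3 3 = true :=
  ⟨(a (b (b (a (b (a (l 3) (b (l 524317823) (l 3))) (l 3)) (b (b (a (l 524328319) (l 524343423)) (l 524611967)) (a (l 525030783) (l 525040255)))) (a (l 3) (b (a (l 3) (l 525601919)) (l 3)))) (l 3)) (a (b (b (b (a (b (l 16682112) (l 524651903)) (b (l 16604624) (l 16619456))) (a (l 525054591) (l 525076607))) (b (a (l 525612927) (l 525634175)) (a (b (l 526032511) (l 3)) (b (l 526050431) (l 526338431))))) (b (b (a (l 3) (a (l 3) (l 526527615))) (l 3)) (l 3))) (a (b (b (b (b (l 16578800) (l 16678672)) (b (l 16609568) (l 16707352))) (b (l 525673087) (l 526222975))) (b (b (b (l 526591615) (l 526660223)) (b (l 526691455) (a (l 3) (l 526716031)))) (l 3))) (b (b (b (b (l 16634880) (l 16569416)) (l 16676808)) (b (b (l 16697624) (l 16710464))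 (l 526838287))) (b (b (b (l 526698623) (l 526785295)) (a (l 526774655) (l 526831487))) (b (b (a (l 526737279) (l 526785407)) (l 526693903)) (l 3))))))), by decide +kernel⟩

def k24_B04pp_022_s1 : ∃ t, chk3 f_B04pp_022_s1 t 5 2 1 = true :=
  ⟨(b (a (b (l 1) (a (b (l 1) (a (b (l 1) (l 16299264)) (l 1))) (l 1))) (l 1)) (a (b (a (a (b (b (a (l 16410328) (l 16379400)) (l 16326784)) (b (l 16346792) (a (l 16471464) (l 16436720)))) (b (a (b (l 16349376) (l 16362408)) (b (l 1) (l 16246432))) (a (l 16306872) (a (l 16365192) (l 16263872))))) (b (b (l 1) (l 16177576)) (a (b (l 16300160) (l 16318352)) (l 16082912)))) (a (a (b (b (a (l 16497392) (l 16462424)) (a (l 16524984) (l 16490272))) (a (a (l 16490312) (l 16473752)) (l 16448552))) (b (a (b (l 16427288) (l 16455160)) (a (l 16414544) (b (l 16382616) (l 16410184)))) (a (b (l 16483952) (l 16512112)) (a (l 16388208) (a (l 16374616) (l 16365448)))))) (b (a (b (l 16341248) (l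 16368080)) (l 16206320)) (a (a (l 16344528) (l 16311528)) (l 16177872))))) (b (b (l 1) (a (a (l 16197056) (l 1)) (l 1))) (a (b (a (l 16144272) (l 16169320)) (a (l 16279536) (l 16214528))) (b (l 15921680) (a (l 16151648) (l 16091960))))))), by decide +kernel⟩

def k25_B04pp_022_s1 : ∃ t, chk3 f_B04pp_022_s1 t 5 6 1 = true :=
  ⟨(a (a (a (b (b (b (c (l 16499456) (l 16506600)) (c (l 16521520) (l 16527576))) (a (b (l 16641288) (l 16657984)) (b (l 16613440) (l 16631296)))) (b (a (b (l 16673160) (l 16687016)) (b (l 16648120) (l 16663496))) (a (b (l 16699904) (l 16711968)) (b (l 16677520) (l 16690432))))) (a (b (b (l 16551400) (l 16594568)) (b (l 16671808) (a (l 16708936) (l 16654752)))) (b (b (a (l 16443160) (a (l 16430408) (l 16421776))) (a (l 16572632) (b (l 16462552) (l 16483584)))) (b (a (l 16609632) (c (l 16508072) (l 16599800))) (a (l 16642136) (a (l 16632392) (l 16625792))))))) (a (b (b (a (l 16401928) (l 16370256))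 (b (l 16425656) (l 16448536))) (b (b (l 16469328) (l 16571744)) (c (l 16511552) (l 16601520)))) (b (b (b (l 16390512) (l 16420216)) (l 16378360)) (b (l 16509424) (l 16548296))))) (b (b (a (a (l 16255488) (l 16272384)) (l 16004520)) (a (b (l 16184280) (l 16298192)) (a (l 16267664) (l 16199928)))) (b (a (b (l 16326552) (l 16351864)) (c (l 16207864) (l 16220576))) (a (a (l 16497736) (l 16359168)) (l 16355760))))), by decide +kernel⟩

def k26_B04pp_022_s1 : ∃ t, chk3 f_B04pp_022_s1 t 5 7 1 = true :=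
  ⟨(a (a (b (b (b (a (a (c (l 16722696) (l 16723552)) (l 16702176)) (a (l 16680472) (a (l 16663104) (l 16650896)))) (a (a (c (l 16732688) (l 16754152)) (l 16712512)) (a (l 16712680) (a (l 16675280) (l 16663608))))) (a (a (a (b (l 526859135) (l 526878847)) (b (l 16736768) (l 526922623))) (a (b (l 16726688) (l 16735176)) (b (l 16716664) (l 16725112)))) (a (b (l 16701392) (l 16730936)) (a (b (l 16685656) (l 16694608)) (a (l 16703240) (l 16676752)))))) (a (b (b (a (a (l 526863999) (l 526904191)) (a (l 526944639) (l 16733128))) (a (a (l 526814591) (l 526849151)) (a (l 526885247) (l 16740760)))) (b (a (l 526740751) (a (l 526785407) (l 526818431))) (a (a (l 3) (l 526625407)) (a (l 526644607) (l 526669183))))) (b (a (a (b (l 16723040) (l 16730600)) (c (l 16717008) (l 16716744))) (a (b (l 16702784) (l 16710400)) (a (b (l 16695096) (l 16702832)) (l 16693952)))) (b (a (a (l 16737792) (l 16727632)) (a (l 16717568) (a (l 16710056)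 (l 16705056)))) (a (a (l 526714751) (l 16734456)) (a (l 16724384) (a (l 16716896) (l 16711912)))))))) (b (b (a (b (l 16621592) (l 16635352)) (l 16582104)) (a (a (l 16663400) (l 16641960)) (l 16609360))) (b (a (b (l 16666832) (l 16674840)) (l 16629808)) (a (b (l 16682368) (l 16689360)) (l 16645688))))) (b (b (a (l 16508744) (l 16405288)) (a (l 16541016) (l 16359960))) (a (b (l 16565824) (l 16626880)) (b (l 16392104) (l 16416664))))), by decide +kernel⟩

def k27_B04pp_022_s1 : ∃ t, chk3 f_B04pp_022_s1 t 3 1 1 = true :=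
  ⟨(b (b (l 1) (a (b (l 1) (a (b (l 1) (a (l 15926856) (l 1))) (l 1))) (l 1))) (a (a (b (b (b (a (l 15961224) (l 15932776)) (a (l 16014752) (l 15969720))) (b (a (l 16078744) (l 16025920)) (a (l 16061408) (l 16092792)))) (b (a (b (l 16205552) (l 16255800)) (b (l 16077736) (l 16222864))) (b (a (l 16378440) (l 16273616)) (l 16152624)))) (a (b (l 6) (b (b (l 16023776) (l 16093824)) (l 15931328))) (l 6))) (l 6))), by decide +kernel⟩

theorem t28_B04pp_022_s1 : ∃ t, chk3 f_B04pp_022_s1 t 5 3 1 = true := ex3_b k25_B04pp_022_s1 k26_B04pp_022_s1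

theorem t29_B04pp_022_s1 : ∃ t, chk3 f_B04pp_022_s1 t 5 1 1 = true := ex3_b k24_B04pp_022_s1 t28_B04pp_022_s1

theorem t30_B04pp_022_s1 : ∃ t, chk3 f_B04pp_022_s1 t 9 3 1 = true := ex3_c k22_B04pp_022_s1 k23_B04pp_022_s1

theorem t31_B04pp_022_s1 : ∃ t, chk3 f_B04pp_022_s1 t 4 3 1 = true := ex3_a k21_B04pp_022_s1 t30_B04pp_022_s1

theorem t32_B04pp_022_s1 : ∃ t, chk3 f_B04pp_022_s1 t 9 5 1 = true := ex3_a k19_B04pp_022_s1 k20_B04pp_022_s1

theorem t33_B04pp_022_s1 : ∃ t, chk3 f_B04pp_022_s1 t 9 2 1 = true := ex3_b k18_B04pp_022_s1 t32_B04pp_022_s1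

theorem t34_B04pp_022_s1 : ∃ t, chk3 f_B04pp_022_s1 t 1099 18 12 = true := ex3_c k9_B04pp_022_s1 k10_B04pp_022_s1

theorem t35_B04pp_022_s1 : ∃ t, chk3 f_B04pp_022_s1 t 549 18 12 = true := ex3_a k8_B04pp_022_s1 t34_B04pp_022_s1

theorem t36_B04pp_022_s1 : ∃ t, chk3 f_B04pp_022_s1 t 549 18 6 = true := ex3_c t35_B04pp_022_s1 k11_B04pp_022_s1

theorem t37_B04pp_022_s1 : ∃ t, chk3 f_B04pp_022_s1 t 274 18 6 = true := ex3_a k7_B04pp_022_s1 t36_B04pp_022_s1

theorem t38_B04pp_022_s1 : ∃ t, chk3 f_B04pp_022_s1 t 274 18 3 = true := ex3_c t37_B04pp_022_s1 k12_B04pp_022_s1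

theorem t39_B04pp_022_s1 : ∃ t, chk3 f_B04pp_022_s1 t 137 18 3 = true := ex3_a t38_B04pp_022_s1 k13_B04pp_022_s1

theorem t40_B04pp_022_s1 : ∃ t, chk3 f_B04pp_022_s1 t 274 18 5 = true := ex3_a k4_B04pp_022_s1 k5_B04pp_022_s1

theorem t41_B04pp_022_s1 : ∃ t, chk3 f_B04pp_022_s1 t 274 18 2 = true := ex3_c k3_B04pp_022_s1 t40_B04pp_022_s1

theorem t42_B04pp_022_s1 : ∃ t, chk3 f_B04pp_022_s1 t 137 18 2 = true := ex3_a t41_B04pp_022_s1 k6_B04pp_022_s1

theorem t43_B04pp_022_s1 : ∃ t, chk3 f_B04pp_022_s1 t 137 18 1 = true := ex3_c t42_B04pp_022_s1 t39_B04pp_022_s1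

theorem t44_B04pp_022_s1 : ∃ t, chk3 f_B04pp_022_s1 t 68 18 1 = true := ex3_a k2_B04pp_022_s1 t43_B04pp_022_s1

theorem t45_B04pp_022_s1 : ∃ t, chk3 f_B04pp_022_s1 t 34 18 1 = true := ex3_a t44_B04pp_022_s1 k14_B04pp_022_s1

theorem t46_B04pp_022_s1 : ∃ t, chk3 f_B04pp_022_s1 t 34 9 1 = true := ex3_b t45_B04pp_022_s1 k15_B04pp_022_s1

theorem t47_B04pp_022_s1 : ∃ t, chk3 f_B04pp_022_s1 t 17 9 1 = true := ex3_a t46_B04pp_022_s1 k16_B04pp_022_s1

theorem t48_B04pp_022_s1 : ∃ t, chk3 f_B04pp_022_s1 t 8 9 1 = true := ex3_a k1_B04pp_022_s1 t47_B04pp_022_s1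

theorem t49_B04pp_022_s1 : ∃ t, chk3 f_B04pp_022_s1 t 8 4 1 = true := ex3_b k0_B04pp_022_s1 t48_B04pp_022_s1

theorem t50_B04pp_022_s1 : ∃ t, chk3 f_B04pp_022_s1 t 8 2 1 = true := ex3_b t49_B04pp_022_s1 k17_B04pp_022_s1

theorem t51_B04pp_022_s1 : ∃ t, chk3 f_B04pp_022_s1 t 4 2 1 = true := ex3_a t50_B04pp_022_s1 t33_B04pp_022_s1

theorem t52_B04pp_022_s1 : ∃ t, chk3 f_B04pp_022_s1 t 4 1 1 = true := ex3_b t51_B04pp_022_s1 t31_B04pp_022_s1

theorem t53_B04pp_022_s1 : ∃ t, chk3 f_B04pp_022_s1 t 2 1 1 = true := ex3_a t52_B04pp_022_s1 t29_B04pp_022_s1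

theorem t54_B04pp_022_s1 : ∃ t, chk3 f_B04pp_022_s1 t 1 1 1 = true := ex3_a t53_B04pp_022_s1 k27_B04pp_022_s1

theorem c_B04pp_022_s1 : CertF 0 536870912 1073741824 536870912 923417968 42949674 false true true .pp 0 2 2
    ndB0q0 ndB4q2 pcB2 cut_B04pp_022_s1 xt_B04pp_022_s1 :=
  certF2 (fam := false) (s1 := true) (s2 := true) (a := 0) (b := 2) (c := 2) (cn := .pp) (n1 := ndB0q0) (n2 := ndB4q2) (pc := pcB2) (cut := cut_B04pp_022_s1) (xt := xt_B04pp_022_s1) (P1 := 0) (W1 := 536870912) (P2 := 1073741824) (W2 := 536870912) (P3 := 923417968) (W3 := 42949674)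
    rfl (fun _ => rfl) t54_B04pp_022_s1

theorem s_B04pp_022_s1 {κ x : ℝ} (hκ : κ * h0 = ken x) (hx : ((923417968 : ℕ) : ℝ) / S ≤ x)
    (hx' : x ≤ (((923417968 : ℕ) : ℝ) + (42949674 : ℕ)) / S)
    (H : CutB (VFD κ) PP tK tL pcB (Cut.of [[⟨0, 0, 0, 67108864⟩, ⟨1, 1, 0, 67108864⟩, ⟨2, 1, 0, 67108864⟩]]) 0 2 2 0 4 (sgb true) (sgb true) x) :
    AltB (VFD κ) PP tK tL pcB [⟨3, 0, 0, 1449551462⟩] 0 2 2 0 4 (sgb true) (sgb true) x :=
  strip_altBD (m := 1449551462) true rfl hκ (SH.κ0 hκ (SH.hx1 hx).le (SH.hx2 hx').le) (SH.hx1 hx).le (SH.hx2 hx') (covB00).cov (covB42).cov hx hx' c_B04pp_022_s1 H ((okx hx hx').extB (T := tt) (sideB hx hx') hκ rfl rfl (.O 0 true) (.N 2 true) rfl)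

noncomputable def cut_B04pp_023_s1 : Cut := Cut.of [[⟨4, 0, 0, 1449551462⟩]]

noncomputable def xt_B04pp_023_s1 : Ext := strExt dd false true true .u0 .s2 .u2 .up 0 2 3 rfl rfl gf2 vv ndB0q0 ndB4q3

noncomputable def f_B04pp_023_s1 : ℕ → ℕ → ℕ → ℕ → Bool := onCell 1073741824 536870912 0 1230186008 923417968 42949674
    (rowF 2 false true true .up 0 2 3 (qsf 0 536870912 0 1230186008 2) ndB0q0 ndB4q3 pcB2 cut_B04pp_023_s1 xt_B04pp_023_s1)

def k0_B04pp_023_s1 : ∃ t, chk3 f_B04pp_023_s1 t 1 2 1 = true :=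
  ⟨(a (l 2) (a (l 2) (l 6))), by decide +kernel⟩

def k1_B04pp_023_s1 : ∃ t, chk3 f_B04pp_023_s1 t 4 3 1 = true :=
  ⟨(b (l 2) (b (l 2) (l 3))), by decide +kernel⟩

def k2_B04pp_023_s1 : ∃ t, chk3 f_B04pp_023_s1 t 5 6 1 = true :=
  ⟨(a (l 2) (b (l 2) (a (l 2) (b (l 2) (l 370004265687))))), by decide +kernel⟩

def k3_B04pp_023_s1 : ∃ t, chk3 f_B04pp_023_s1 t 10 14 1 = true :=
  ⟨(a (b (l 2) (c (a (l 3) (a (l 3) (b (l 2) (a (a (b (l 3) (l 529522303)) (a (b (l 530232591) (l 529820175)) (a (l 530067071) (l 530062207)))) (b (a (a (l 530260351) (l 530267455)) (b (l 16770776) (l 16769664))) (b (a (a (l 16772984) (l 16771128)) (l 16768320)) (a (l 16765360) (l 16766752)))))))) (a (l 3) (a (l 3) (b (l 2) (a (a (b (l 3) (l 529475455)) (b (b (l 2) (l 530223887)) (a (l 529813631) (l 530347135)))) (b (a (a (l 531368831) (l 530302271)) (b (l 16770808) (l 16769696))) (b (a (a (l 16772992) (l 16771128)) (l 16768328)) (a (l 16760088)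 (l 16766696)))))))))) (a (b (l 2) (b (l 530644063) (b (l 530274911) (a (b (l 16737904) (l 16735976)) (l 16742240))))) (b (l 531310175) (b (l 530664287) (a (l 16728952) (l 16713024)))))), by decide +kernel⟩

def k4_B04pp_023_s1 : ∃ t, chk3 f_B04pp_023_s1 t 10 15 1 = true :=
  ⟨(a (b (a (l 3) (b (a (a (l 3) (b (a (l 3) (l 528447103)) (l 527746319))) (a (a (b (a (l 528672383) (l 528837503)) (l 527597327)) (a (b (b (l 529173775) (l 530446207)) (l 529950479)) (b (l 528867711) (l 528459391)))) (b (a (b (a (l 16759408) (l 16767896)) (l 16756488)) (b (l 16764896) (l 16762848))) (b (a (l 16764824) (l 16760568)) (l 16749752))))) (a (a (b (l 3) (l 526446975)) (b (l 526976527) (l 526513167))) (a (a (b (l 527564815) (l 527041039)) (a (b (l 527732239) (l 527174671)) (l 527532159))) (b (b (l 16736568) (l 16754584)) (a (l 16752080) (l 16726264))))))) (a (b (a (l 3) (a (l 3) (a (b (l 3) (l 525787775)) (b (l 525876607) (l 525704831)))))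 (a (b (l 3) (a (l 3) (l 526439807))) (b (a (l 526177663) (l 526172799)) (a (l 526444671) (l 526452751))))) (b (a (a (a (b (l 526001279) (l 525830783)) (b (l 526147199) (l 525975423))) (b (a (l 526291327) (l 526437247)) (a (l 526067839) (l 526314879)))) (a (b (a (l 526306319) (c (l 16750304) (l 16749400))) (a (l 16747912) (l 16742864))) (b (l 16752816) (l 16735352)))) (a (a (b (a (l 526195583) (l 526278783)) (l 526501647)) (b (l 526423055) (c (l 16741912) (l 16741192)))) (a (b (a (l 16741096) (l 16736080)) (a (l 16733904) (l 16728912))) (b (l 16728600) (l 16721432))))))) (b (a (a (a (b (b (b (l 16758856) (l 16756616)) (l 16731808)) (b (l 16725880) (l 16718752))) (b (b (l 16749472) (l 16743984)) (b (l 16737520) (l 16729968)))) (b (b (l 16736888) (l 16730592)) (b (l 16723328) (l 16715088)))) (b (b (l 16711032) (l 16703128)) (a (l 16657496) (l 16595928)))) (a (b (b (a (l 16706392) (l 16707104)) (l 16731272)) (b (l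 16703632) (l 16696464))) (b (l 16705240) (l 16660272))))), by decide +kernel⟩

def k5_B04pp_023_s1 : ∃ t, chk3 f_B04pp_023_s1 t 11 7 1 = true :=
  ⟨(b (b (a (b (l 16618704) (l 16612112)) (b (l 16652576) (l 16640824))) (a (b (l 530361183) (l 529767263)) (b (l 16620984) (l 16599072)))) (a (b (b (a (l 16585752) (l 16631776)) (a (l 16567000) (l 16610944))) (b (a (l 16550480) (l 16595192)) (l 16600504))) (b (b (l 16575736) (l 16553000)) (b (l 16536360) (l 16436736))))), by decide +kernel⟩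

def k6_B04pp_023_s1 : ∃ t, chk3 f_B04pp_023_s1 t 3 3 1 = true :=
  ⟨(a (b (b (a (l 2) (b (l 16581520) (l 16647240))) (a (b (l 193910995095) (a (l 16618896) (l 16568672))) (b (a (l 16555608) (l 6)) (l 16313744)))) (b (b (b (a (l 16482192) (l 16437816)) (a (l 16459880) (l 16403528))) (b (a (l 16433128) (l 16371432)) (a (l 16403024) (l 16340192)))) (a (b (b (l 16376488) (l 16270736)) (b (l 16248856) (a (l 16436944) (l 16347696)))) (a (b (l 16331488) (l 16101008)) (l 6))))) (l 6)), by decide +kernel⟩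

theorem t7_B04pp_023_s1 : ∃ t, chk3 f_B04pp_023_s1 t 10 7 1 = true := ex3_b k3_B04pp_023_s1 k4_B04pp_023_s1

theorem t8_B04pp_023_s1 : ∃ t, chk3 f_B04pp_023_s1 t 5 7 1 = true := ex3_a t7_B04pp_023_s1 k5_B04pp_023_s1

theorem t9_B04pp_023_s1 : ∃ t, chk3 f_B04pp_023_s1 t 5 3 1 = true := ex3_b k2_B04pp_023_s1 t8_B04pp_023_s1

theorem t10_B04pp_023_s1 : ∃ t, chk3 f_B04pp_023_s1 t 2 3 1 = true := ex3_a k1_B04pp_023_s1 t9_B04pp_023_s1

theorem t11_B04pp_023_s1 : ∃ t, chk3 f_B04pp_023_s1 t 1 3 1 = true := ex3_a t10_B04pp_023_s1 k6_B04pp_023_s1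

theorem t12_B04pp_023_s1 : ∃ t, chk3 f_B04pp_023_s1 t 1 1 1 = true := ex3_b k0_B04pp_023_s1 t11_B04pp_023_s1

theorem c_B04pp_023_s1 : CertF 0 536870912 0 1230186008 923417968 42949674 false true true .up 0 2 3
    ndB0q0 ndB4q3 pcB2 cut_B04pp_023_s1 xt_B04pp_023_s1 :=
  certF2 (fam := false) (s1 := true) (s2 := true) (a := 0) (b := 2) (c := 3) (cn := .up) (n1 := ndB0q0) (n2 := ndB4q3) (pc := pcB2) (cut := cut_B04pp_023_s1) (xt := xt_B04pp_023_s1) (P1 := 0) (W1 := 536870912) (P2 := 0) (W2 := 1230186008) (P3 := 923417968) (W3 := 42949674)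
    rfl (fun _ => rfl) t12_B04pp_023_s1

theorem s_B04pp_023_s1 {κ x : ℝ} (hκ : κ * h0 = ken x) (hx : ((923417968 : ℕ) : ℝ) / S ≤ x)
    (hx' : x ≤ (((923417968 : ℕ) : ℝ) + (42949674 : ℕ)) / S) :
    AltB (VFD κ) PP tK tL pcB [⟨3, 0, 0, 1449551462⟩] 0 2 3 0 4 (sgb true) (sgb true) x :=
  strip_altBD (m := 1449551462) true rfl hκ (SH.κ0 hκ (SH.hx1 hx).le (SH.hx2 hx').le) (SH.hx1 hx).le (SH.hx2 hx') (covB00).cov (covB43).cov hx hx' c_B04pp_023_s1 cutB_nil ((okx hx hx').extB (T := tt) (sideB hx hx') hκ rfl rfl (.O 0 true) (.N 3 true) rfl)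

noncomputable def cut_B04pp_033_s1 : Cut := Cut.of [[⟨4, 0, 0, 1449551462⟩]]

noncomputable def f_B04pp_033_s1 : ℕ → ℕ → ℕ → ℕ → Bool := onCell 1610612736 536870912 0 1230186008 923417968 42949674
    (rowF 2 false true true .pnn 0 3 3 (qsf 0 536870912 0 1230186008 3) ndB0q0 ndB4q3 pcB3 cut_B04pp_033_s1 Ext.none)

def k0_B04pp_033_s1 : ∃ t, chk3 f_B04pp_033_s1 t 1 1 1 = true :=
  ⟨(b (l 6) (l 6)), by decide +kernel⟩

theorem c_B04pp_033_s1 : CertF 0 536870912 0 1230186008 923417968 42949674 false true true .pnn 0 3 3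
    ndB0q0 ndB4q3 pcB3 cut_B04pp_033_s1 Ext.none :=
  certF2 (fam := false) (s1 := true) (s2 := true) (a := 0) (b := 3) (c := 3) (cn := .pnn) (n1 := ndB0q0) (n2 := ndB4q3) (pc := pcB3) (cut := cut_B04pp_033_s1) (xt := Ext.none) (P1 := 0) (W1 := 536870912) (P2 := 0) (W2 := 1230186008) (P3 := 923417968) (W3 := 42949674)
    rfl (fun _ => rfl) k0_B04pp_033_s1

theorem s_B04pp_033_s1 {κ x : ℝ} (hκ : κ * h0 = ken x) (hx : ((923417968 : ℕ) : ℝ) / S ≤ x)
    (hx' : x ≤ (((923417968 : ℕ) : ℝ) + (42949674 : ℕ)) / S) :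
    AltB (VFD κ) PP tK tL pcB [⟨3, 0, 0, 1449551462⟩] 0 3 3 0 4 (sgb true) (sgb true) x :=
  strip_altBD (m := 1449551462) true rfl hκ (SH.κ0 hκ (SH.hx1 hx).le (SH.hx2 hx').le) (SH.hx1 hx).le (SH.hx2 hx') (covB00).cov (covB43).cov hx hx' c_B04pp_033_s1 cutB_nil (noExt_B)

noncomputable def cut_B04pp_101_s1 : Cut := Cut.of [[⟨4, 0, 0, 1449551462⟩]]

noncomputable def f_B04pp_101_s1 : ℕ → ℕ → ℕ → ℕ → Bool := onCell 536870912 536870912 536870912 536870912 923417968 42949674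
    (rowF 0 false true true .npn 1 0 1 (qsf 536870912 536870912 536870912 536870912 0) ndB0q1 ndB4q1 pcB0 cut_B04pp_101_s1 Ext.none)

def k0_B04pp_101_s1 : ∃ t, chk3 f_B04pp_101_s1 t 1 1 1 = true :=
  ⟨(a (l 3) (l 5)), by decide +kernel⟩

theorem c_B04pp_101_s1 : CertF 536870912 536870912 536870912 536870912 923417968 42949674 false true true .npn 1 0 1
    ndB0q1 ndB4q1 pcB0 cut_B04pp_101_s1 Ext.none :=
  certF0 (fam := false) (s1 := true) (s2 := true) (a := 1) (b := 0) (c := 1) (cn := .npn) (n1 := ndB0q1) (n2 := ndB4q1) (pc := pcB0) (cut := cut_B04pp_101_s1) (xt := Ext.none) (P1 := 536870912) (W1 := 536870912) (P2 := 536870912) (W2 := 536870912) (P3 := 923417968) (W3 := 42949674)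
    rfl k0_B04pp_101_s1

theorem s_B04pp_101_s1 {κ x : ℝ} (hκ : κ * h0 = ken x) (hx : ((923417968 : ℕ) : ℝ) / S ≤ x)
    (hx' : x ≤ (((923417968 : ℕ) : ℝ) + (42949674 : ℕ)) / S) :
    AltB (VFD κ) PP tK tL pcB [⟨3, 0, 0, 1449551462⟩] 1 0 1 0 4 (sgb true) (sgb true) x :=
  strip_altBD (m := 1449551462) true rfl hκ (SH.κ0 hκ (SH.hx1 hx).le (SH.hx2 hx').le) (SH.hx1 hx).le (SH.hx2 hx') (covB01).cov (covB41).cov hx hx' c_B04pp_101_s1 cutB_nil (noExt_B)

noncomputable def cut_B04pp_102_s1 : Cut := Cut.of [[⟨4, 0, 0, 1449551462⟩]]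

noncomputable def f_B04pp_102_s1 : ℕ → ℕ → ℕ → ℕ → Bool := onCell 536870912 536870912 1073741824 536870912 923417968 42949674
    (rowF 0 false true true .npp 1 0 2 (qsf 536870912 536870912 1073741824 536870912 0) ndB0q1 ndB4q2 pcB0 cut_B04pp_102_s1 Ext.none)

def k0_B04pp_102_s1 : ∃ t, chk3 f_B04pp_102_s1 t 1 1 1 = true :=
  ⟨(a (l 3) (b (l 5) (l 3))), by decide +kernel⟩

theorem c_B04pp_102_s1 : CertF 536870912 536870912 1073741824 536870912 923417968 42949674 false true true .npp 1 0 2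
    ndB0q1 ndB4q2 pcB0 cut_B04pp_102_s1 Ext.none :=
  certF0 (fam := false) (s1 := true) (s2 := true) (a := 1) (b := 0) (c := 2) (cn := .npp) (n1 := ndB0q1) (n2 := ndB4q2) (pc := pcB0) (cut := cut_B04pp_102_s1) (xt := Ext.none) (P1 := 536870912) (W1 := 536870912) (P2 := 1073741824) (W2 := 536870912) (P3 := 923417968) (W3 := 42949674)
    rfl k0_B04pp_102_s1

theorem s_B04pp_102_s1 {κ x : ℝ} (hκ : κ * h0 = ken x) (hx : ((923417968 : ℕ) : ℝ) / S ≤ x)
    (hx' : x ≤ (((923417968 : ℕ) : ℝ) + (42949674 : ℕ)) / S) :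
    AltB (VFD κ) PP tK tL pcB [⟨3, 0, 0, 1449551462⟩] 1 0 2 0 4 (sgb true) (sgb true) x :=
  strip_altBD (m := 1449551462) true rfl hκ (SH.κ0 hκ (SH.hx1 hx).le (SH.hx2 hx').le) (SH.hx1 hx).le (SH.hx2 hx') (covB01).cov (covB42).cov hx hx' c_B04pp_102_s1 cutB_nil (noExt_B)

noncomputable def cut_B04pp_112_s1 : Cut := Cut.of [[⟨4, 0, 0, 1449551462⟩]]

noncomputable def f_B04pp_112_s1 : ℕ → ℕ → ℕ → ℕ → Bool := onCell 536870912 536870912 1073741824 536870912 923417968 42949674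
    (rowF 0 false true true .dn 1 1 2 (qsf 536870912 536870912 1073741824 536870912 1) ndB0q1 ndB4q2 pcB1 cut_B04pp_112_s1 Ext.none)

def k0_B04pp_112_s1 : ∃ t, chk3 f_B04pp_112_s1 t 1 1 1 = true :=
  ⟨(a (l 3) (b (l 5) (l 3))), by decide +kernel⟩

theorem c_B04pp_112_s1 : CertF 536870912 536870912 1073741824 536870912 923417968 42949674 false true true .dn 1 1 2
    ndB0q1 ndB4q2 pcB1 cut_B04pp_112_s1 Ext.none :=
  certF0 (fam := false) (s1 := true) (s2 := true) (a := 1) (b := 1) (c := 2) (cn := .dn) (n1 := ndB0q1) (n2 := ndB4q2) (pc := pcB1) (cut := cut_B04pp_112_s1) (xt := Ext.none) (P1 := 536870912) (W1 := 536870912) (P2 := 1073741824) (W2 := 536870912) (P3 := 923417968) (W3 := 42949674)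
    rfl k0_B04pp_112_s1

theorem s_B04pp_112_s1 {κ x : ℝ} (hκ : κ * h0 = ken x) (hx : ((923417968 : ℕ) : ℝ) / S ≤ x)
    (hx' : x ≤ (((923417968 : ℕ) : ℝ) + (42949674 : ℕ)) / S) :
    AltB (VFD κ) PP tK tL pcB [⟨3, 0, 0, 1449551462⟩] 1 1 2 0 4 (sgb true) (sgb true) x :=
  strip_altBD (m := 1449551462) true rfl hκ (SH.κ0 hκ (SH.hx1 hx).le (SH.hx2 hx').le) (SH.hx1 hx).le (SH.hx2 hx') (covB01).cov (covB42).cov hx hx' c_B04pp_112_s1 cutB_nil (noExt_B)

noncomputable def cut_B04pp_113_s1 : Cut := Cut.of [[⟨4, 0, 0, 1449551462⟩], [⟨0, 1, 0, 67108864⟩, ⟨1, 1, 0, 67108864⟩, ⟨2, 2, 0, 16252928⟩]]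

noncomputable def f_B04pp_113_s1 : ℕ → ℕ → ℕ → ℕ → Bool := onCell 536870912 536870912 0 1230186008 923417968 42949674
    (rowF 2 false true true .nn 1 1 3 (qsf 536870912 536870912 0 1230186008 1) ndB0q1 ndB4q3 pcB1 cut_B04pp_113_s1 Ext.none)

def k0_B04pp_113_s1 : ∃ t, chk3 f_B04pp_113_s1 t 1 1 1 = true :=
  ⟨(b (a (l 2) (a (l 2) (b (a (l 2) (a (l 2) (b (l 14) (l 3)))) (l 3)))) (a (a (b (l 2) (b (l 2) (l 3))) (b (b (l 2) (a (l 2) (l 3))) (l 3))) (b (a (l 3) (l 3)) (l 3)))), by decide +kernel⟩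

theorem c_B04pp_113_s1 : CertF 536870912 536870912 0 1230186008 923417968 42949674 false true true .nn 1 1 3
    ndB0q1 ndB4q3 pcB1 cut_B04pp_113_s1 Ext.none :=
  certF2 (fam := false) (s1 := true) (s2 := true) (a := 1) (b := 1) (c := 3) (cn := .nn) (n1 := ndB0q1) (n2 := ndB4q3) (pc := pcB1) (cut := cut_B04pp_113_s1) (xt := Ext.none) (P1 := 536870912) (W1 := 536870912) (P2 := 0) (W2 := 1230186008) (P3 := 923417968) (W3 := 42949674)
    rfl (fun _ => rfl) k0_B04pp_113_s1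

theorem s_B04pp_113_s1 {κ x : ℝ} (hκ : κ * h0 = ken x) (hx : ((923417968 : ℕ) : ℝ) / S ≤ x)
    (hx' : x ≤ (((923417968 : ℕ) : ℝ) + (42949674 : ℕ)) / S)
    (H : CutB (VFD κ) PP tK tL pcB (Cut.of [[⟨0, 1, 0, 67108864⟩, ⟨1, 1, 0, 67108864⟩, ⟨2, 2, 0, 16252928⟩]]) 1 1 3 0 4 (sgb true) (sgb true) x) :
    AltB (VFD κ) PP tK tL pcB [⟨3, 0, 0, 1449551462⟩] 1 1 3 0 4 (sgb true) (sgb true) x :=
  strip_altBD (m := 1449551462) true rfl hκ (SH.κ0 hκ (SH.hx1 hx).le (SH.hx2 hx').le) (SH.hx1 hx).le (SH.hx2 hx') (covB01).cov (covB43).cov hx hx' c_B04pp_113_s1 H (noExt_B)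

noncomputable def cut_B04pp_123_s1 : Cut := Cut.of [[⟨4, 0, 0, 1449551462⟩], [⟨0, 1, 0, 67108864⟩, ⟨1, 1, 0, 67108864⟩, ⟨2, 2, 0, 16252928⟩]]

noncomputable def xt_B04pp_123_s1 : Ext := strExt dd false true true .u0 .s2 .u2 .npn 1 2 3 rfl rfl gf2 vv ndB0q1 ndB4q3

noncomputable def f_B04pp_123_s1 : ℕ → ℕ → ℕ → ℕ → Bool := onCell 1073741824 536870912 0 1230186008 923417968 42949674
    (rowF 2 false true true .npn 1 2 3 (qsf 536870912 536870912 0 1230186008 2) ndB0q1 ndB4q3 pcB2 cut_B04pp_123_s1 xt_B04pp_123_s1)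

def k0_B04pp_123_s1 : ∃ t, chk3 f_B04pp_123_s1 t 4 4 1 = true :=
  ⟨(a (b (a (l 14) (a (l 14) (a (l 14) (b (l 16578392) (b (l 16623864) (b (l 16646480) (a (l 16750312) (l 16740440)))))))) (a (l 3) (b (b (a (l 14) (a (c (l 533177631) (l 533609503)) (b (a (b (l 16717616) (l 16763888)) (l 16754096)) (l 532673679)))) (a (l 3) (a (a (l 3) (l 533184143)) (a (l 533113999) (l 533108367))))) (l 3)))) (b (a (b (a (l 16561864) (l 16632336)) (a (b (l 16601760) (a (l 16636136) (l 16705464))) (b (l 16665280) (l 16604656)))) (b (a (l 16627760) (l 16627640)) (a (l 16579104) (l 16655768)))) (a (b (a (b (a (b (l 16741312) (a (l 16757072) (l 16750168))) (l 16731680)) (a (b (a (l 533206159) (l 16759720)) (l 532655647)) (b (a (l 16753944) (l 16747272)) (a (l 16761872) (l 16756856))))) (b (a (l 16634072) (l 16706264)) (a (b (l 16736184) (l 16747752)) (l 16728712)))) (a (b (a (a (l 532783647) (l 533197199)) (l 532628623)) (a (l 3)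 (l 533296271))) (b (a (b (a (l 16759032) (l 16754192)) (l 533706639)) (b (l 16745176) (l 16753752))) (a (l 532802191) (b (l 16760176) (l 533882255)))))) (b (a (c (l 16609368) (l 16711816)) (l 16687864)) (a (b (a (l 16737560) (l 16726432)) (a (b (l 16751344) (l 16757808)) (l 16744504))) (b (l 16712896) (l 16729264))))))), by decide +kernel⟩

def k1_B04pp_123_s1 : ∃ t, chk3 f_B04pp_123_s1 t 4 5 1 = true :=
  ⟨(a (l 3) (a (b (b (a (l 3) (b (a (l 532943759) (l 533790095)) (a (l 3) (l 533672335)))) (l 3)) (l 3)) (b (a (b (b (a (l 534099343) (b (l 16755720) (l 16760304))) (a (l 533981071) (l 534305567))) (b (a (l 533870735) (l 534194463)) (a (l 3) (c (l 532686879) (l 534439711))))) (b (b (a (l 16749840) (l 16740400)) (a (a (l 16761728) (l 16759400)) (l 16712128))) (a (b (l 533705503) (l 534221711)) (b (a (l 16763616) (l 16761760)) (a (l 534736783) (l 16766760)))))) (a (l 3) (b (a (b (l 534356111) (l 3)) (b (a (l 534638879)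 (l 534792735)) (c (l 534294559) (b (l 534981151) (l 534922783))))) (a (l 3) (b (a (l 3) (l 534560399)) (l 3)))))))), by decide +kernel⟩

def k2_B04pp_123_s1 : ∃ t, chk3 f_B04pp_123_s1 t 5 2 1 = true :=
  ⟨(b (b (a (a (a (b (l 16628216) (l 16654144)) (a (l 16638336) (b (l 6) (l 16658256)))) (b (l 6) (l 16660424))) (l 6)) (a (a (b (a (l 16679360) (a (l 16676248) (l 16675040))) (a (l 16707040) (a (l 16699352) (l 16694776)))) (b (l 16678640) (l 16691312))) (b (a (l 16687960) (l 6)) (l 16436752)))) (a (a (a (b (b (b (l 16727400) (l 16656744)) (a (b (l 16756944) (a (l 16764696) (l 16762712))) (b (l 16748240) (l 16715624)))) (b (a (b (b (l 16766968) (l 534953503)) (c (l 534576015) (l 535203615))) (b (a (l 16764680) (l 16762256)) (a (l 16768536) (l 16766208)))) (a (b (a (l 534711695) (l 534835855)) (a (l 3) (l 534728479))) (b (a (l 534927759) (l 534972047)) (a (l 534833551) (l 534911775)))))) (b (b (a (l 16722296) (a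 (l 16716704) (l 16712664))) (a (b (l 16738424) (l 16747888)) (a (l 16735456) (b (l 16725992) (l 16733696))))) (c (a (b (b (l 16752904) (a (l 16761720) (l 16757528))) (b (a (l 16765840) (l 16762040)) (a (l 536198799) (l 16765616)))) (a (b (b (l 16742848) (l 16751384)) (b (l 16757056) (l 16760720))) (b (l 16738560) (b (a (l 16751776) (l 16746920)) (a (l 16756336) (l 16710728)))))) (a (b (b (l 16758816) (a (l 16765192) (l 16761408))) (b (a (l 16768376) (l 16764768)) (a (l 535088927) (l 16767536)))) (a (b (l 16754160) (b (l 16760016) (l 16762600))) (b (l 16748856) (b (l 16754296) (a (l 16758296) (l 16755224))))))))) (b (b (l 16536480) (a (l 16637336) (l 16709776))) (a (b (b (l 16729464) (l 16733976)) (b (l 16737152) (l 16740576))) (b (l 16714472) (l 16718232))))) (b (a (b (l 16692584) (l 16692776)) (b (l 16681000) (l 16673408))) (a (b (l 16523856) (l 16690704)) (b (l 16665320) (l 16663152)))))), by decide +kernel⟩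

def k3_B04pp_123_s1 : ∃ t, chk3 f_B04pp_123_s1 t 3 2 1 = true :=
  ⟨(a (b (l 6) (a (b (b (l 6) (l 16655712)) (b (l 16642072) (a (l 16641840) (l 16624216)))) (l 6))) (l 6)), by decide +kernel⟩

def k4_B04pp_123_s1 : ∃ t, chk3 f_B04pp_123_s1 t 4 6 1 = true :=
  ⟨(l 3), by decide +kernel⟩

def k5_B04pp_123_s1 : ∃ t, chk3 f_B04pp_123_s1 t 40 6 1 = true :=
  ⟨(b (b (a (l 3) (b (a (l 534715279) (l 534820895)) (a (l 3) (b (l 534732319) (l 3))))) (l 3)) (l 3)), by decide +kernel⟩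

def k6_B04pp_123_s1 : ∃ t, chk3 f_B04pp_123_s1 t 41 12 1 = true :=
  ⟨(b (a (b (a (b (l 534792223) (l 534754847)) (b (l 16768656) (l 534218271))) (a (b (l 534449183) (l 534379919)) (b (l 533995807) (l 533950751)))) (b (b (a (l 16763440) (a (l 16759008) (l 16755992))) (a (a (l 16766104) (l 16763152)) (l 16758648))) (a (a (l 533648671) (l 16776104)) (l 16761168)))) (a (b (a (l 534301727) (l 533014559)) (a (l 3) (b (l 533680927) (l 533589023)))) (b (a (a (c (l 533315615) (l 533526559)) (b (l 16768488) (a (l 16770968) (l 16769512)))) (b (l 16764088) (l 16765920))) (a (a (b (l 533196943) (l 533060751)) (a (b (l 16775288) (l 532784271)) (b (l 16771240) (l 532617871)))) (b (l 16757216) (b (l 16769000) (l 16759360))))))), by decide +kernel⟩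

def k7_B04pp_123_s1 : ∃ t, chk3 f_B04pp_123_s1 t 41 13 1 = true :=
  ⟨(a (l 3) (a (b (b (a (b (l 532909967) (l 3)) (a (b (l 532598671) (l 532387871)) (b (l 532432783) (l 532177551)))) (l 532159055)) (l 3)) (b (b (b (a (a (l 532393871) (l 532381071)) (l 16759296)) (b (a (l 16776248) (l 16770960)) (a (l 532323983) (l 16771672)))) (a (l 532185935) (a (b (b (l 16772984) (l 16773584)) (b (l 16768904) (a (l 532109359) (l 16774320)))) (l 532208223)))) (b (a (l 531942991) (a (a (l 531952943) (a (a (b (l 532019759) (l 531889711)) (a (b (b (l 16774920) (l 531988783)) (b (l 531923759) (l 531856943))) (a (b (b (l 16774856) (l 16770032)) (b (b (l 16775560) (l 16775736)) (b (l 16775896) (l 16776048)))) (b (b (l 16774808) (l 16769984)) (b (b (l 16775520) (l 16775696)) (b (l 16775856) (l 16776000))))))) (b (b (l 16774616) (l 16769792)) (b (l 531925599) (l 531858527))))) (l 531962975))) (a (a (l 3) (l 531671119)) (a (a (l 531676207)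 (a (a (b (l 531751471) (l 531604015)) (a (b (b (l 531787823) (l 531716399)) (b (l 531642671) (l 531566639))) (a (b (b (b (l 16776184) (l 16776304)) (b (b (l 16776392) (l 16776440)) (l 16776512))) (b (b (b (l 16776576) (l 16776608)) (b (l 16776640) (l 16776672))) (b (b (l 16776696) (l 16776720)) (b (l 16776736) (l 16776752))))) (b (b (b (l 16776136) (l 16776264)) (b (l 16776368) (l 16776464))) (b (b (b (l 16776528) (l 16776568)) (b (l 16776600) (l 16776624))) (b (b (l 16776656) (l 16776672)) (b (l 16776696) (l 16776704)))))))) (b (b (l 531789407) (l 531717983)) (b (l 531644255) (l 531567967))))) (l 531684959))))))), by decide +kernel⟩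

def k8_B04pp_123_s1 : ∃ t, chk3 f_B04pp_123_s1 t 21 6 1 = true :=
  ⟨(b (a (b (b (a (l 16749392) (l 16737776)) (a (l 16710576) (l 16741504))) (a (b (l 16735568) (b (l 16759448) (l 16740368))) (b (l 16745800) (l 16750136)))) (b (b (l 16721952) (l 16726256)) (b (l 16731216) (l 16735584)))) (b (b (a (a (b (l 16742224) (a (l 16746392) (l 16762128))) (l 16711576)) (l 16738856)) (a (a (b (a (l 16758088) (l 16763232)) (l 532187743)) (l 16734768)) (l 16740136))) (l 531940703))), by decide +kernel⟩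

def k9_B04pp_123_s1 : ∃ t, chk3 f_B04pp_123_s1 t 11 6 1 = true :=
  ⟨(b (a (a (b (l 16621968) (l 16631280)) (b (l 16689072) (l 16698560))) (b (l 16667376) (l 16590472))) (a (a (b (l 16656960) (l 532077663)) (b (l 16700616) (l 16612112))) (b (l 16588600) (b (l 16666296) (l 16660904))))), by decide +kernel⟩

def k10_B04pp_123_s1 : ∃ t, chk3 f_B04pp_123_s1 t 3 6 1 = true :=
  ⟨(a (b (a (b (l 16630016) (l 16711456)) (b (l 16581456) (l 16562936))) (a (b (a (l 16635128) (l 16597488)) (a (l 16534744) (l 16568048))) (b (l 178274547351) (l 1)))) (l 6)), by decide +kernel⟩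

def k11_B04pp_123_s1 : ∃ t, chk3 f_B04pp_123_s1 t 4 7 1 = true :=
  ⟨(b (l 3) (l 3)), by decide +kernel⟩

def k12_B04pp_123_s1 : ∃ t, chk3 f_B04pp_123_s1 t 20 28 1 = true :=
  ⟨(a (l 3) (a (l 3) (a (l 3) (b (a (l 3) (a (a (l 531362351) (a (a (b (l 531447087) (l 531280175)) (a (b (b (l 531488047) (l 531407151)) (b (l 531323695) (l 531237679))) (a (b (b (b (b (l 16776768) (l 16776768)) (c (l 16776776) (l 16776776))) (b (c (l 16776760) (l 16776768)) (c (l 16776736) (l 16776736)))) (b (b (b (l 16776704) (l 16776680)) (b (l 16776648) (l 16776616))) (b (b (l 16776576) (l 16776528)) (b (l 16776480) (l 16776432))))) (b (c (b (b (l 16776720) (l 16776728)) (b (l 16776712) (l 16776688))) (b (b (l 16776720) (l 16776728)) (b (l 16776720) (l 16776688)))) (b (b (b (l 16776656) (l 16776632)) (b (l 16776600) (l 16776568))) (b (b (l 16776528) (l 16776480)) (l 16776408))))))) (c (b (b (l 531472991) (l 531392095)) (b (l 531308639)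 (l 531222879))) (b (b (l 531513439) (l 531432287)) (b (l 531348575) (l 531262303)))))) (l 531369823))) (a (l 531001407) (a (a (l 531007791) (a (a (b (l 531103023) (l 530915119)) (a (b (b (l 531149103) (l 531057711)) (b (l 530963759) (l 530867247))) (a (b (b (b (l 16776344) (l 16776208)) (b (l 16776056) (l 16775880))) (b (b (l 16775688) (l 16775472)) (b (l 16775232) (l 16774976)))) (b (b (b (l 16776288) (l 16773536)) (b (l 16776000) (l 16775832))) (b (b (l 16775632) (l 16775424)) (b (l 16775184) (l 16774928))))))) (b (b (l 531150175) (l 531059039)) (b (l 530965087) (l 530868319))))) (l 531013983))))))), by decide +kernel⟩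

def k13_B04pp_123_s1 : ∃ t, chk3 f_B04pp_123_s1 t 20 29 1 = true :=
  ⟨(c (a (l 3) (a (l 3) (b (a (l 530578495) (a (l 530591039) (a (a (l 530596143) (a (a (b (l 530701615) (l 530493231)) (a (b (b (l 16774616) (l 16773960)) (b (l 16773208) (l 16772352))) (a (b (b (l 16774536) (l 16773880)) (b (l 16773128) (l 16772272))) (b (b (l 16774488) (l 16773832)) (b (l 16773072) (l 16772216)))))) (b (b (l 16774248) (l 16773592)) (b (l 16772832) (l 16771968))))) (l 530601055)))) (a (b (a (l 3) (a (l 530232591) (l 530260351))) (l 1)) (a (b (a (l 530260351) (l 530267455)) (l 1)) (b (b (l 16770768) (l 1)) (l 1))))))) (a (l 3) (a (l 3) (b (a (l 530615359) (a (l 530627903) (a (a (l 530633007) (a (a (b (l 530739247) (l 530529839)) (a (b (b (l 16774632) (l 16773984)) (b (l 16773232) (l 16772376))) (a (b (b (l 16774552) (l 16773904)) (b (l 16773152) (l 16772296))) (b (b (l 16774504) (l 16773848)) (b (l 16773096) (l 16772240))))))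 (b (b (l 16774264) (l 16773608)) (b (l 16772856) (l 16772000))))) (l 530638175)))) (a (b (a (l 3) (b (l 530353727) (l 530223887))) (l 1)) (a (b (a (l 531368831) (l 530302271)) (l 1)) (b (b (l 16770808) (l 1)) (l 1)))))))), by decide +kernel⟩

def k14_B04pp_123_s1 : ∃ t, chk3 f_B04pp_123_s1 t 21 14 1 = true :=
  ⟨(a (b (l 531237727) (b (l 530644063) (b (l 530274911) (l 1)))) (b (l 531310175) (b (l 530664287) (l 1)))), by decide +kernel⟩

def k15_B04pp_123_s1 : ∃ t, chk3 f_B04pp_123_s1 t 11 14 1 = true :=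
  ⟨(b (a (b (l 531593823) (l 531165791)) (b (l 16652424) (l 1))) (l 1)), by decide +kernel⟩

def k16_B04pp_123_s1 : ∃ t, chk3 f_B04pp_123_s1 t 5 15 1 = true :=
  ⟨(a (a (b (a (l 3) (l 1)) (l 1)) (l 1)) (l 1)), by decide +kernel⟩

def k17_B04pp_123_s1 : ∃ t, chk3 f_B04pp_123_s1 t 3 7 1 = true :=
  ⟨(l 1), by decide +kernel⟩

theorem t18_B04pp_123_s1 : ∃ t, chk3 f_B04pp_123_s1 t 20 14 1 = true := ex3_b k12_B04pp_123_s1 k13_B04pp_123_s1

theorem t19_B04pp_123_s1 : ∃ t, chk3 f_B04pp_123_s1 t 10 14 1 = true := ex3_a t18_B04pp_123_s1 k14_B04pp_123_s1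

theorem t20_B04pp_123_s1 : ∃ t, chk3 f_B04pp_123_s1 t 5 14 1 = true := ex3_a t19_B04pp_123_s1 k15_B04pp_123_s1

theorem t21_B04pp_123_s1 : ∃ t, chk3 f_B04pp_123_s1 t 5 7 1 = true := ex3_b t20_B04pp_123_s1 k16_B04pp_123_s1

theorem t22_B04pp_123_s1 : ∃ t, chk3 f_B04pp_123_s1 t 2 7 1 = true := ex3_a k11_B04pp_123_s1 t21_B04pp_123_s1

theorem t23_B04pp_123_s1 : ∃ t, chk3 f_B04pp_123_s1 t 1 7 1 = true := ex3_a t22_B04pp_123_s1 k17_B04pp_123_s1

theorem t24_B04pp_123_s1 : ∃ t, chk3 f_B04pp_123_s1 t 41 6 1 = true := ex3_b k6_B04pp_123_s1 k7_B04pp_123_s1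

theorem t25_B04pp_123_s1 : ∃ t, chk3 f_B04pp_123_s1 t 20 6 1 = true := ex3_a k5_B04pp_123_s1 t24_B04pp_123_s1

theorem t26_B04pp_123_s1 : ∃ t, chk3 f_B04pp_123_s1 t 10 6 1 = true := ex3_a t25_B04pp_123_s1 k8_B04pp_123_s1

theorem t27_B04pp_123_s1 : ∃ t, chk3 f_B04pp_123_s1 t 5 6 1 = true := ex3_a t26_B04pp_123_s1 k9_B04pp_123_s1

theorem t28_B04pp_123_s1 : ∃ t, chk3 f_B04pp_123_s1 t 2 6 1 = true := ex3_a k4_B04pp_123_s1 t27_B04pp_123_s1

theorem t29_B04pp_123_s1 : ∃ t, chk3 f_B04pp_123_s1 t 1 6 1 = true := ex3_a t28_B04pp_123_s1 k10_B04pp_123_s1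

theorem t30_B04pp_123_s1 : ∃ t, chk3 f_B04pp_123_s1 t 1 3 1 = true := ex3_b t29_B04pp_123_s1 t23_B04pp_123_s1

theorem t31_B04pp_123_s1 : ∃ t, chk3 f_B04pp_123_s1 t 4 2 1 = true := ex3_b k0_B04pp_123_s1 k1_B04pp_123_s1

theorem t32_B04pp_123_s1 : ∃ t, chk3 f_B04pp_123_s1 t 2 2 1 = true := ex3_a t31_B04pp_123_s1 k2_B04pp_123_s1

theorem t33_B04pp_123_s1 : ∃ t, chk3 f_B04pp_123_s1 t 1 2 1 = true := ex3_a t32_B04pp_123_s1 k3_B04pp_123_s1

theorem t34_B04pp_123_s1 : ∃ t, chk3 f_B04pp_123_s1 t 1 1 1 = true := ex3_b t33_B04pp_123_s1 t30_B04pp_123_s1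

theorem c_B04pp_123_s1 : CertF 536870912 536870912 0 1230186008 923417968 42949674 false true true .npn 1 2 3
    ndB0q1 ndB4q3 pcB2 cut_B04pp_123_s1 xt_B04pp_123_s1 :=
  certF2 (fam := false) (s1 := true) (s2 := true) (a := 1) (b := 2) (c := 3) (cn := .npn) (n1 := ndB0q1) (n2 := ndB4q3) (pc := pcB2) (cut := cut_B04pp_123_s1) (xt := xt_B04pp_123_s1) (P1 := 536870912) (W1 := 536870912) (P2 := 0) (W2 := 1230186008) (P3 := 923417968) (W3 := 42949674)
    rfl (fun _ => rfl) t34_B04pp_123_s1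

theorem s_B04pp_123_s1 {κ x : ℝ} (hκ : κ * h0 = ken x) (hx : ((923417968 : ℕ) : ℝ) / S ≤ x)
    (hx' : x ≤ (((923417968 : ℕ) : ℝ) + (42949674 : ℕ)) / S)
    (H : CutB (VFD κ) PP tK tL pcB (Cut.of [[⟨0, 1, 0, 67108864⟩, ⟨1, 1, 0, 67108864⟩, ⟨2, 2, 0, 16252928⟩]]) 1 2 3 0 4 (sgb true) (sgb true) x) :
    AltB (VFD κ) PP tK tL pcB [⟨3, 0, 0, 1449551462⟩] 1 2 3 0 4 (sgb true) (sgb true) x :=
  strip_altBD (m := 1449551462) true rfl hκ (SH.κ0 hκ (SH.hx1 hx).le (SH.hx2 hx').le) (SH.hx1 hx).le (SH.hx2 hx') (covB01).cov (covB43).cov hx hx' c_B04pp_123_s1 H ((okx hx hx').extB (T := tt) (sideB hx hx') hκ rfl rfl (.O 1 true) (.N 3 true) rfl)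

noncomputable def cut_B04pp_133_s1 : Cut := Cut.of [[⟨4, 0, 0, 1449551462⟩]]

noncomputable def f_B04pp_133_s1 : ℕ → ℕ → ℕ → ℕ → Bool := onCell 1610612736 536870912 0 1230186008 923417968 42949674
    (rowF 2 false true true .dn 1 3 3 (qsf 536870912 536870912 0 1230186008 3) ndB0q1 ndB4q3 pcB3 cut_B04pp_133_s1 Ext.none)

def k0_B04pp_133_s1 : ∃ t, chk3 f_B04pp_133_s1 t 1 1 1 = true :=
  ⟨(b (l 6) (l 1)), by decide +kernel⟩

theorem c_B04pp_133_s1 : CertF 536870912 536870912 0 1230186008 923417968 42949674 false true true .dn 1 3 3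
    ndB0q1 ndB4q3 pcB3 cut_B04pp_133_s1 Ext.none :=
  certF2 (fam := false) (s1 := true) (s2 := true) (a := 1) (b := 3) (c := 3) (cn := .dn) (n1 := ndB0q1) (n2 := ndB4q3) (pc := pcB3) (cut := cut_B04pp_133_s1) (xt := Ext.none) (P1 := 536870912) (W1 := 536870912) (P2 := 0) (W2 := 1230186008) (P3 := 923417968) (W3 := 42949674)
    rfl (fun _ => rfl) k0_B04pp_133_s1

theorem s_B04pp_133_s1 {κ x : ℝ} (hκ : κ * h0 = ken x) (hx : ((923417968 : ℕ) : ℝ) / S ≤ x)
    (hx' : x ≤ (((923417968 : ℕ) : ℝ) + (42949674 : ℕ)) / S) :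
    AltB (VFD κ) PP tK tL pcB [⟨3, 0, 0, 1449551462⟩] 1 3 3 0 4 (sgb true) (sgb true) x :=
  strip_altBD (m := 1449551462) true rfl hκ (SH.κ0 hκ (SH.hx1 hx).le (SH.hx2 hx').le) (SH.hx1 hx).le (SH.hx2 hx') (covB01).cov (covB43).cov hx hx' c_B04pp_133_s1 cutB_nil (noExt_B)

noncomputable def cut_B04pp_202_s1 : Cut := Cut.of [[⟨4, 0, 0, 1449551462⟩]]

noncomputable def f_B04pp_202_s1 : ℕ → ℕ → ℕ → ℕ → Bool := onCell 0 536870912 1073741824 536870912 923417968 42949674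
    (rowF 0 false true true .pp 2 0 2 (qsf 0 536870912 1073741824 536870912 0) ndB0q2 ndB4q2 pcB0 cut_B04pp_202_s1 Ext.none)

def k0_B04pp_202_s1 : ∃ t, chk3 f_B04pp_202_s1 t 1 1 1 = true :=
  ⟨(l 5), by decide +kernel⟩

theorem c_B04pp_202_s1 : CertF 0 536870912 1073741824 536870912 923417968 42949674 false true true .pp 2 0 2
    ndB0q2 ndB4q2 pcB0 cut_B04pp_202_s1 Ext.none :=
  certF0 (fam := false) (s1 := true) (s2 := true) (a := 2) (b := 0) (c := 2) (cn := .pp) (n1 := ndB0q2) (n2 := ndB4q2) (pc := pcB0) (cut := cut_B04pp_202_s1) (xt := Ext.none) (P1 := 0) (W1 := 536870912) (P2 := 1073741824) (W2 := 536870912) (P3 := 923417968) (W3 := 42949674)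
    rfl k0_B04pp_202_s1

theorem s_B04pp_202_s1 {κ x : ℝ} (hκ : κ * h0 = ken x) (hx : ((923417968 : ℕ) : ℝ) / S ≤ x)
    (hx' : x ≤ (((923417968 : ℕ) : ℝ) + (42949674 : ℕ)) / S) :
    AltB (VFD κ) PP tK tL pcB [⟨3, 0, 0, 1449551462⟩] 2 0 2 0 4 (sgb true) (sgb true) x :=
  strip_altBD (m := 1449551462) true rfl hκ (SH.κ0 hκ (SH.hx1 hx).le (SH.hx2 hx').le) (SH.hx1 hx).le (SH.hx2 hx') (covB02).cov (covB42).cov hx hx' c_B04pp_202_s1 cutB_nil (noExt_B)

noncomputable def cut_B04pp_203_s1 : Cut := Cut.of [[⟨4, 0, 0, 1449551462⟩]]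

noncomputable def f_B04pp_203_s1 : ℕ → ℕ → ℕ → ℕ → Bool := onCell 0 536870912 0 1230186008 923417968 42949674
    (rowF 0 false true true .up 2 0 3 (qsf 0 536870912 0 1230186008 0) ndB0q2 ndB4q3 pcB0 cut_B04pp_203_s1 Ext.none)

def k0_B04pp_203_s1 : ∃ t, chk3 f_B04pp_203_s1 t 1 1 1 = true :=
  ⟨(b (l 2) (b (l 2) (a (l 5) (l 3)))), by decide +kernel⟩

theorem c_B04pp_203_s1 : CertF 0 536870912 0 1230186008 923417968 42949674 false true true .up 2 0 3
    ndB0q2 ndB4q3 pcB0 cut_B04pp_203_s1 Ext.none :=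
  certF0 (fam := false) (s1 := true) (s2 := true) (a := 2) (b := 0) (c := 3) (cn := .up) (n1 := ndB0q2) (n2 := ndB4q3) (pc := pcB0) (cut := cut_B04pp_203_s1) (xt := Ext.none) (P1 := 0) (W1 := 536870912) (P2 := 0) (W2 := 1230186008) (P3 := 923417968) (W3 := 42949674)
    rfl k0_B04pp_203_s1

theorem s_B04pp_203_s1 {κ x : ℝ} (hκ : κ * h0 = ken x) (hx : ((923417968 : ℕ) : ℝ) / S ≤ x)
    (hx' : x ≤ (((923417968 : ℕ) : ℝ) + (42949674 : ℕ)) / S) :
    AltB (VFD κ) PP tK tL pcB [⟨3, 0, 0, 1449551462⟩] 2 0 3 0 4 (sgb true) (sgb true) x :=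
  strip_altBD (m := 1449551462) true rfl hκ (SH.κ0 hκ (SH.hx1 hx).le (SH.hx2 hx').le) (SH.hx1 hx).le (SH.hx2 hx') (covB02).cov (covB43).cov hx hx' c_B04pp_203_s1 cutB_nil (noExt_B)

noncomputable def cut_B04pp_213_s1 : Cut := Cut.of [[⟨4, 0, 0, 1449551462⟩], [⟨0, 1, 0, 67108864⟩, ⟨1, 1, 0, 67108864⟩, ⟨2, 2, 0, 16252928⟩]]

noncomputable def f_B04pp_213_s1 : ℕ → ℕ → ℕ → ℕ → Bool := onCell 0 536870912 0 1230186008 923417968 42949674
    (rowF 0 false true true .pnn 2 1 3 (qsf 0 536870912 0 1230186008 1) ndB0q2 ndB4q3 pcB1 cut_B04pp_213_s1 Ext.none)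

def k0_B04pp_213_s1 : ∃ t, chk3 f_B04pp_213_s1 t 1 1 1 = true :=
  ⟨(a (b (l 3) (l 5)) (b (b (a (l 3) (b (a (l 3) (l 14)) (l 3))) (l 3)) (b (l 3) (l 3)))), by decide +kernel⟩

theorem c_B04pp_213_s1 : CertF 0 536870912 0 1230186008 923417968 42949674 false true true .pnn 2 1 3
    ndB0q2 ndB4q3 pcB1 cut_B04pp_213_s1 Ext.none :=
  certF0 (fam := false) (s1 := true) (s2 := true) (a := 2) (b := 1) (c := 3) (cn := .pnn) (n1 := ndB0q2) (n2 := ndB4q3) (pc := pcB1) (cut := cut_B04pp_213_s1) (xt := Ext.none) (P1 := 0) (W1 := 536870912) (P2 := 0) (W2 := 1230186008) (P3 := 923417968) (W3 := 42949674)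
    rfl k0_B04pp_213_s1

theorem s_B04pp_213_s1 {κ x : ℝ} (hκ : κ * h0 = ken x) (hx : ((923417968 : ℕ) : ℝ) / S ≤ x)
    (hx' : x ≤ (((923417968 : ℕ) : ℝ) + (42949674 : ℕ)) / S)
    (H : CutB (VFD κ) PP tK tL pcB (Cut.of [[⟨0, 1, 0, 67108864⟩, ⟨1, 1, 0, 67108864⟩, ⟨2, 2, 0, 16252928⟩]]) 2 1 3 0 4 (sgb true) (sgb true) x) :
    AltB (VFD κ) PP tK tL pcB [⟨3, 0, 0, 1449551462⟩] 2 1 3 0 4 (sgb true) (sgb true) x :=
  strip_altBD (m := 1449551462) true rfl hκ (SH.κ0 hκ (SH.hx1 hx).le (SH.hx2 hx').le) (SH.hx1 hx).le (SH.hx2 hx') (covB02).cov (covB43).cov hx hx' c_B04pp_213_s1 H (noExt_B)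

noncomputable def cut_B04pm_001_s1 : Cut := Cut.of [[⟨4, 0, 0, 1449551462⟩]]

noncomputable def f_B04pm_001_s1 : ℕ → ℕ → ℕ → ℕ → Bool := onCell 0 536870912 536870912 536870912 923417968 42949674
    (rowF 0 false true false .up 0 0 1 (qsf 0 536870912 536870912 536870912 0) ndB0q0 ndB4q1 pcB0 cut_B04pm_001_s1 Ext.none)

def k0_B04pm_001_s1 : ∃ t, chk3 f_B04pm_001_s1 t 1 1 1 = true :=
  ⟨(l 4), by decide +kernel⟩

theorem c_B04pm_001_s1 : CertF 0 536870912 536870912 536870912 923417968 42949674 false true false .up 0 0 1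
    ndB0q0 ndB4q1 pcB0 cut_B04pm_001_s1 Ext.none :=
  certF0 (fam := false) (s1 := true) (s2 := false) (a := 0) (b := 0) (c := 1) (cn := .up) (n1 := ndB0q0) (n2 := ndB4q1) (pc := pcB0) (cut := cut_B04pm_001_s1) (xt := Ext.none) (P1 := 0) (W1 := 536870912) (P2 := 536870912) (W2 := 536870912) (P3 := 923417968) (W3 := 42949674)
    rfl k0_B04pm_001_s1

theorem s_B04pm_001_s1 {κ x : ℝ} (hκ : κ * h0 = ken x) (hx : ((923417968 : ℕ) : ℝ) / S ≤ x)
    (hx' : x ≤ (((923417968 : ℕ) : ℝ) + (42949674 : ℕ)) / S) :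
    AltB (VFD κ) PP tK tL pcB [⟨3, 0, 0, 1449551462⟩] 0 0 1 0 4 (sgb true) (sgb false) x :=
  strip_altBD (m := 1449551462) true rfl hκ (SH.κ0 hκ (SH.hx1 hx).le (SH.hx2 hx').le) (SH.hx1 hx).le (SH.hx2 hx') (covB00).cov (covB41).cov hx hx' c_B04pm_001_s1 cutB_nil (noExt_B)

noncomputable def cut_B04pm_011_s1 : Cut := Cut.of [[⟨4, 0, 0, 1449551462⟩]]

noncomputable def f_B04pm_011_s1 : ℕ → ℕ → ℕ → ℕ → Bool := onCell 0 536870912 536870912 536870912 923417968 42949674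
    (rowF 0 false true false .pnn 0 1 1 (qsf 0 536870912 536870912 536870912 1) ndB0q0 ndB4q1 pcB1 cut_B04pm_011_s1 Ext.none)

def k0_B04pm_011_s1 : ∃ t, chk3 f_B04pm_011_s1 t 1 1 1 = true :=
  ⟨(l 4), by decide +kernel⟩

theorem c_B04pm_011_s1 : CertF 0 536870912 536870912 536870912 923417968 42949674 false true false .pnn 0 1 1
    ndB0q0 ndB4q1 pcB1 cut_B04pm_011_s1 Ext.none :=
  certF0 (fam := false) (s1 := true) (s2 := false) (a := 0) (b := 1) (c := 1) (cn := .pnn) (n1 := ndB0q0) (n2 := ndB4q1) (pc := pcB1) (cut := cut_B04pm_011_s1) (xt := Ext.none) (P1 := 0) (W1 := 536870912) (P2 := 536870912) (W2 := 536870912) (P3 := 923417968) (W3 := 42949674)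
    rfl k0_B04pm_011_s1

theorem s_B04pm_011_s1 {κ x : ℝ} (hκ : κ * h0 = ken x) (hx : ((923417968 : ℕ) : ℝ) / S ≤ x)
    (hx' : x ≤ (((923417968 : ℕ) : ℝ) + (42949674 : ℕ)) / S) :
    AltB (VFD κ) PP tK tL pcB [⟨3, 0, 0, 1449551462⟩] 0 1 1 0 4 (sgb true) (sgb false) x :=
  strip_altBD (m := 1449551462) true rfl hκ (SH.κ0 hκ (SH.hx1 hx).le (SH.hx2 hx').le) (SH.hx1 hx).le (SH.hx2 hx') (covB00).cov (covB41).cov hx hx' c_B04pm_011_s1 cutB_nil (noExt_B)

noncomputable def cut_B04pm_012_s1 : Cut := Cut.of [[⟨4, 0, 0, 1449551462⟩]]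

noncomputable def f_B04pm_012_s1 : ℕ → ℕ → ℕ → ℕ → Bool := onCell 0 536870912 1073741824 536870912 923417968 42949674
    (rowF 0 false true false .pnp 0 1 2 (qsf 0 536870912 1073741824 536870912 1) ndB0q0 ndB4q2 pcB1 cut_B04pm_012_s1 Ext.none)

def k0_B04pm_012_s1 : ∃ t, chk3 f_B04pm_012_s1 t 1 1 1 = true :=
  ⟨(l 4), by decide +kernel⟩

theorem c_B04pm_012_s1 : CertF 0 536870912 1073741824 536870912 923417968 42949674 false true false .pnp 0 1 2
    ndB0q0 ndB4q2 pcB1 cut_B04pm_012_s1 Ext.none :=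
  certF0 (fam := false) (s1 := true) (s2 := false) (a := 0) (b := 1) (c := 2) (cn := .pnp) (n1 := ndB0q0) (n2 := ndB4q2) (pc := pcB1) (cut := cut_B04pm_012_s1) (xt := Ext.none) (P1 := 0) (W1 := 536870912) (P2 := 1073741824) (W2 := 536870912) (P3 := 923417968) (W3 := 42949674)
    rfl k0_B04pm_012_s1

theorem s_B04pm_012_s1 {κ x : ℝ} (hκ : κ * h0 = ken x) (hx : ((923417968 : ℕ) : ℝ) / S ≤ x)
    (hx' : x ≤ (((923417968 : ℕ) : ℝ) + (42949674 : ℕ)) / S) :
    AltB (VFD κ) PP tK tL pcB [⟨3, 0, 0, 1449551462⟩] 0 1 2 0 4 (sgb true) (sgb false) x :=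
  strip_altBD (m := 1449551462) true rfl hκ (SH.κ0 hκ (SH.hx1 hx).le (SH.hx2 hx').le) (SH.hx1 hx).le (SH.hx2 hx') (covB00).cov (covB42).cov hx hx' c_B04pm_012_s1 cutB_nil (noExt_B)

noncomputable def cut_B04pm_022_s1 : Cut := Cut.of [[⟨4, 0, 0, 1449551462⟩]]

noncomputable def f_B04pm_022_s1 : ℕ → ℕ → ℕ → ℕ → Bool := onCell 0 536870912 1073741824 536870912 923417968 42949674
    (rowF 0 false true false .pp 0 2 2 (qsf 0 536870912 1073741824 536870912 2) ndB0q0 ndB4q2 pcB2 cut_B04pm_022_s1 Ext.none)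

def k0_B04pm_022_s1 : ∃ t, chk3 f_B04pm_022_s1 t 1 1 1 = true :=
  ⟨(l 4), by decide +kernel⟩

theorem c_B04pm_022_s1 : CertF 0 536870912 1073741824 536870912 923417968 42949674 false true false .pp 0 2 2
    ndB0q0 ndB4q2 pcB2 cut_B04pm_022_s1 Ext.none :=
  certF0 (fam := false) (s1 := true) (s2 := false) (a := 0) (b := 2) (c := 2) (cn := .pp) (n1 := ndB0q0) (n2 := ndB4q2) (pc := pcB2) (cut := cut_B04pm_022_s1) (xt := Ext.none) (P1 := 0) (W1 := 536870912) (P2 := 1073741824) (W2 := 536870912) (P3 := 923417968) (W3 := 42949674)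
    rfl k0_B04pm_022_s1

theorem s_B04pm_022_s1 {κ x : ℝ} (hκ : κ * h0 = ken x) (hx : ((923417968 : ℕ) : ℝ) / S ≤ x)
    (hx' : x ≤ (((923417968 : ℕ) : ℝ) + (42949674 : ℕ)) / S) :
    AltB (VFD κ) PP tK tL pcB [⟨3, 0, 0, 1449551462⟩] 0 2 2 0 4 (sgb true) (sgb false) x :=
  strip_altBD (m := 1449551462) true rfl hκ (SH.κ0 hκ (SH.hx1 hx).le (SH.hx2 hx').le) (SH.hx1 hx).le (SH.hx2 hx') (covB00).cov (covB42).cov hx hx' c_B04pm_022_s1 cutB_nil (noExt_B)

noncomputable def cut_B04pm_023_s1 : Cut := Cut.of [[⟨4, 0, 0, 1449551462⟩]]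

noncomputable def f_B04pm_023_s1 : ℕ → ℕ → ℕ → ℕ → Bool := onCell 0 536870912 0 1230186008 923417968 42949674
    (rowF 0 false true false .up 0 2 3 (qsf 0 536870912 0 1230186008 2) ndB0q0 ndB4q3 pcB2 cut_B04pm_023_s1 Ext.none)

def k0_B04pm_023_s1 : ∃ t, chk3 f_B04pm_023_s1 t 1 1 1 = true :=
  ⟨(l 6), by decide +kernel⟩

theorem c_B04pm_023_s1 : CertF 0 536870912 0 1230186008 923417968 42949674 false true false .up 0 2 3
    ndB0q0 ndB4q3 pcB2 cut_B04pm_023_s1 Ext.none :=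
  certF0 (fam := false) (s1 := true) (s2 := false) (a := 0) (b := 2) (c := 3) (cn := .up) (n1 := ndB0q0) (n2 := ndB4q3) (pc := pcB2) (cut := cut_B04pm_023_s1) (xt := Ext.none) (P1 := 0) (W1 := 536870912) (P2 := 0) (W2 := 1230186008) (P3 := 923417968) (W3 := 42949674)
    rfl k0_B04pm_023_s1

theorem s_B04pm_023_s1 {κ x : ℝ} (hκ : κ * h0 = ken x) (hx : ((923417968 : ℕ) : ℝ) / S ≤ x)
    (hx' : x ≤ (((923417968 : ℕ) : ℝ) + (42949674 : ℕ)) / S) :
    AltB (VFD κ) PP tK tL pcB [⟨3, 0, 0, 1449551462⟩] 0 2 3 0 4 (sgb true) (sgb false) x :=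
  strip_altBD (m := 1449551462) true rfl hκ (SH.κ0 hκ (SH.hx1 hx).le (SH.hx2 hx').le) (SH.hx1 hx).le (SH.hx2 hx') (covB00).cov (covB43).cov hx hx' c_B04pm_023_s1 cutB_nil (noExt_B)

noncomputable def cut_B04pm_033_s1 : Cut := Cut.of [[⟨4, 0, 0, 1449551462⟩]]

noncomputable def f_B04pm_033_s1 : ℕ → ℕ → ℕ → ℕ → Bool := onCell 0 536870912 0 1230186008 923417968 42949674
    (rowF 0 false true false .pnn 0 3 3 (qsf 0 536870912 0 1230186008 3) ndB0q0 ndB4q3 pcB3 cut_B04pm_033_s1 Ext.none)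

def k0_B04pm_033_s1 : ∃ t, chk3 f_B04pm_033_s1 t 1 1 1 = true :=
  ⟨(l 6), by decide +kernel⟩

theorem c_B04pm_033_s1 : CertF 0 536870912 0 1230186008 923417968 42949674 false true false .pnn 0 3 3
    ndB0q0 ndB4q3 pcB3 cut_B04pm_033_s1 Ext.none :=
  certF0 (fam := false) (s1 := true) (s2 := false) (a := 0) (b := 3) (c := 3) (cn := .pnn) (n1 := ndB0q0) (n2 := ndB4q3) (pc := pcB3) (cut := cut_B04pm_033_s1) (xt := Ext.none) (P1 := 0) (W1 := 536870912) (P2 := 0) (W2 := 1230186008) (P3 := 923417968) (W3 := 42949674)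
    rfl k0_B04pm_033_s1

theorem s_B04pm_033_s1 {κ x : ℝ} (hκ : κ * h0 = ken x) (hx : ((923417968 : ℕ) : ℝ) / S ≤ x)
    (hx' : x ≤ (((923417968 : ℕ) : ℝ) + (42949674 : ℕ)) / S) :
    AltB (VFD κ) PP tK tL pcB [⟨3, 0, 0, 1449551462⟩] 0 3 3 0 4 (sgb true) (sgb false) x :=
  strip_altBD (m := 1449551462) true rfl hκ (SH.κ0 hκ (SH.hx1 hx).le (SH.hx2 hx').le) (SH.hx1 hx).le (SH.hx2 hx') (covB00).cov (covB43).cov hx hx' c_B04pm_033_s1 cutB_nil (noExt_B)

noncomputable def cut_B04pm_101_s1 : Cut := Cut.of [[⟨4, 0, 0, 1449551462⟩]]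

noncomputable def f_B04pm_101_s1 : ℕ → ℕ → ℕ → ℕ → Bool := onCell 536870912 536870912 536870912 536870912 923417968 42949674
    (rowF 0 false true false .npn 1 0 1 (qsf 536870912 536870912 536870912 536870912 0) ndB0q1 ndB4q1 pcB0 cut_B04pm_101_s1 Ext.none)

def k0_B04pm_101_s1 : ∃ t, chk3 f_B04pm_101_s1 t 1 1 1 = true :=
  ⟨(l 4), by decide +kernel⟩

theorem c_B04pm_101_s1 : CertF 536870912 536870912 536870912 536870912 923417968 42949674 false true false .npn 1 0 1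
    ndB0q1 ndB4q1 pcB0 cut_B04pm_101_s1 Ext.none :=
  certF0 (fam := false) (s1 := true) (s2 := false) (a := 1) (b := 0) (c := 1) (cn := .npn) (n1 := ndB0q1) (n2 := ndB4q1) (pc := pcB0) (cut := cut_B04pm_101_s1) (xt := Ext.none) (P1 := 536870912) (W1 := 536870912) (P2 := 536870912) (W2 := 536870912) (P3 := 923417968) (W3 := 42949674)
    rfl k0_B04pm_101_s1

theorem s_B04pm_101_s1 {κ x : ℝ} (hκ : κ * h0 = ken x) (hx : ((923417968 : ℕ) : ℝ) / S ≤ x)
    (hx' : x ≤ (((923417968 : ℕ) : ℝ) + (42949674 : ℕ)) / S) :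
    AltB (VFD κ) PP tK tL pcB [⟨3, 0, 0, 1449551462⟩] 1 0 1 0 4 (sgb true) (sgb false) x :=
  strip_altBD (m := 1449551462) true rfl hκ (SH.κ0 hκ (SH.hx1 hx).le (SH.hx2 hx').le) (SH.hx1 hx).le (SH.hx2 hx') (covB01).cov (covB41).cov hx hx' c_B04pm_101_s1 cutB_nil (noExt_B)

noncomputable def cut_B04pm_102_s1 : Cut := Cut.of [[⟨4, 0, 0, 1449551462⟩]]

noncomputable def f_B04pm_102_s1 : ℕ → ℕ → ℕ → ℕ → Bool := onCell 536870912 536870912 1073741824 536870912 923417968 42949674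
    (rowF 0 false true false .npp 1 0 2 (qsf 536870912 536870912 1073741824 536870912 0) ndB0q1 ndB4q2 pcB0 cut_B04pm_102_s1 Ext.none)

def k0_B04pm_102_s1 : ∃ t, chk3 f_B04pm_102_s1 t 1 1 1 = true :=
  ⟨(l 6), by decide +kernel⟩

theorem c_B04pm_102_s1 : CertF 536870912 536870912 1073741824 536870912 923417968 42949674 false true false .npp 1 0 2
    ndB0q1 ndB4q2 pcB0 cut_B04pm_102_s1 Ext.none :=
  certF0 (fam := false) (s1 := true) (s2 := false) (a := 1) (b := 0) (c := 2) (cn := .npp) (n1 := ndB0q1) (n2 := ndB4q2) (pc := pcB0) (cut := cut_B04pm_102_s1) (xt := Ext.none) (P1 := 536870912) (W1 := 536870912) (P2 := 1073741824) (W2 := 536870912) (P3 := 923417968) (W3 := 42949674)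
    rfl k0_B04pm_102_s1

theorem s_B04pm_102_s1 {κ x : ℝ} (hκ : κ * h0 = ken x) (hx : ((923417968 : ℕ) : ℝ) / S ≤ x)
    (hx' : x ≤ (((923417968 : ℕ) : ℝ) + (42949674 : ℕ)) / S) :
    AltB (VFD κ) PP tK tL pcB [⟨3, 0, 0, 1449551462⟩] 1 0 2 0 4 (sgb true) (sgb false) x :=
  strip_altBD (m := 1449551462) true rfl hκ (SH.κ0 hκ (SH.hx1 hx).le (SH.hx2 hx').le) (SH.hx1 hx).le (SH.hx2 hx') (covB01).cov (covB42).cov hx hx' c_B04pm_102_s1 cutB_nil (noExt_B)

noncomputable def cut_B04pm_112_s1 : Cut := Cut.of [[⟨4, 0, 0, 1449551462⟩]]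

noncomputable def f_B04pm_112_s1 : ℕ → ℕ → ℕ → ℕ → Bool := onCell 536870912 536870912 1073741824 536870912 923417968 42949674
    (rowF 0 false true false .dn 1 1 2 (qsf 536870912 536870912 1073741824 536870912 1) ndB0q1 ndB4q2 pcB1 cut_B04pm_112_s1 Ext.none)

def k0_B04pm_112_s1 : ∃ t, chk3 f_B04pm_112_s1 t 1 1 1 = true :=
  ⟨(l 6), by decide +kernel⟩

theorem c_B04pm_112_s1 : CertF 536870912 536870912 1073741824 536870912 923417968 42949674 false true false .dn 1 1 2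
    ndB0q1 ndB4q2 pcB1 cut_B04pm_112_s1 Ext.none :=
  certF0 (fam := false) (s1 := true) (s2 := false) (a := 1) (b := 1) (c := 2) (cn := .dn) (n1 := ndB0q1) (n2 := ndB4q2) (pc := pcB1) (cut := cut_B04pm_112_s1) (xt := Ext.none) (P1 := 536870912) (W1 := 536870912) (P2 := 1073741824) (W2 := 536870912) (P3 := 923417968) (W3 := 42949674)
    rfl k0_B04pm_112_s1

theorem s_B04pm_112_s1 {κ x : ℝ} (hκ : κ * h0 = ken x) (hx : ((923417968 : ℕ) : ℝ) / S ≤ x)
    (hx' : x ≤ (((923417968 : ℕ) : ℝ) + (42949674 : ℕ)) / S) :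
    AltB (VFD κ) PP tK tL pcB [⟨3, 0, 0, 1449551462⟩] 1 1 2 0 4 (sgb true) (sgb false) x :=
  strip_altBD (m := 1449551462) true rfl hκ (SH.κ0 hκ (SH.hx1 hx).le (SH.hx2 hx').le) (SH.hx1 hx).le (SH.hx2 hx') (covB01).cov (covB42).cov hx hx' c_B04pm_112_s1 cutB_nil (noExt_B)

noncomputable def cut_B04pm_113_s1 : Cut := Cut.of [[⟨4, 0, 0, 1449551462⟩], [⟨0, 1, 0, 67108864⟩, ⟨1, 1, 0, 67108864⟩, ⟨2, 2, 0, 16252928⟩]]

noncomputable def f_B04pm_113_s1 : ℕ → ℕ → ℕ → ℕ → Bool := onCell 536870912 536870912 0 1230186008 923417968 42949674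
    (rowF 0 false true false .nn 1 1 3 (qsf 536870912 536870912 0 1230186008 1) ndB0q1 ndB4q3 pcB1 cut_B04pm_113_s1 Ext.none)

def k0_B04pm_113_s1 : ∃ t, chk3 f_B04pm_113_s1 t 1 1 1 = true :=
  ⟨(b (a (l 2) (a (l 2) (b (a (l 2) (a (l 2) (b (l 14) (b (a (l 2) (l 16692264)) (l 16608528))))) (a (l 6) (b (b (a (l 6) (l 16692632)) (l 6)) (l 6)))))) (a (l 6) (l 6))), by decide +kernel⟩

theorem c_B04pm_113_s1 : CertF 536870912 536870912 0 1230186008 923417968 42949674 false true false .nn 1 1 3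
    ndB0q1 ndB4q3 pcB1 cut_B04pm_113_s1 Ext.none :=
  certF0 (fam := false) (s1 := true) (s2 := false) (a := 1) (b := 1) (c := 3) (cn := .nn) (n1 := ndB0q1) (n2 := ndB4q3) (pc := pcB1) (cut := cut_B04pm_113_s1) (xt := Ext.none) (P1 := 536870912) (W1 := 536870912) (P2 := 0) (W2 := 1230186008) (P3 := 923417968) (W3 := 42949674)
    rfl k0_B04pm_113_s1

theorem s_B04pm_113_s1 {κ x : ℝ} (hκ : κ * h0 = ken x) (hx : ((923417968 : ℕ) : ℝ) / S ≤ x)
    (hx' : x ≤ (((923417968 : ℕ) : ℝ) + (42949674 : ℕ)) / S)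
    (H : CutB (VFD κ) PP tK tL pcB (Cut.of [[⟨0, 1, 0, 67108864⟩, ⟨1, 1, 0, 67108864⟩, ⟨2, 2, 0, 16252928⟩]]) 1 1 3 0 4 (sgb true) (sgb false) x) :
    AltB (VFD κ) PP tK tL pcB [⟨3, 0, 0, 1449551462⟩] 1 1 3 0 4 (sgb true) (sgb false) x :=
  strip_altBD (m := 1449551462) true rfl hκ (SH.κ0 hκ (SH.hx1 hx).le (SH.hx2 hx').le) (SH.hx1 hx).le (SH.hx2 hx') (covB01).cov (covB43).cov hx hx' c_B04pm_113_s1 H (noExt_B)

noncomputable def cut_B04pm_123_s1 : Cut := Cut.of [[⟨4, 0, 0, 1449551462⟩], [⟨0, 1, 0, 67108864⟩, ⟨1, 1, 0, 67108864⟩, ⟨2, 2, 0, 16252928⟩]]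

noncomputable def f_B04pm_123_s1 : ℕ → ℕ → ℕ → ℕ → Bool := onCell 1073741824 536870912 0 1230186008 923417968 42949674
    (rowF 2 false true false .npn 1 2 3 (qsf 536870912 536870912 0 1230186008 2) ndB0q1 ndB4q3 pcB2 cut_B04pm_123_s1 Ext.none)

def k0_B04pm_123_s1 : ∃ t, chk3 f_B04pm_123_s1 t 1 1 1 = true :=
  ⟨(b (a (a (b (a (b (a (l 14) (a (l 14) (b (l 16438176) (l 16594648)))) (a (b (a (l 16627424) (l 16630896)) (a (l 16693168) (l 16670864))) (b (a (l 16620576) (l 16600056)) (l 6)))) (b (a (b (a (l 16597992) (l 16595736)) (l 16582064)) (b (l 16505640) (l 6))) (l 6))) (b (l 6) (l 6))) (b (b (l 6) (l 6)) (l 6))) (l 6)) (l 6)), by decide +kernel⟩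

theorem c_B04pm_123_s1 : CertF 536870912 536870912 0 1230186008 923417968 42949674 false true false .npn 1 2 3
    ndB0q1 ndB4q3 pcB2 cut_B04pm_123_s1 Ext.none :=
  certF2 (fam := false) (s1 := true) (s2 := false) (a := 1) (b := 2) (c := 3) (cn := .npn) (n1 := ndB0q1) (n2 := ndB4q3) (pc := pcB2) (cut := cut_B04pm_123_s1) (xt := Ext.none) (P1 := 536870912) (W1 := 536870912) (P2 := 0) (W2 := 1230186008) (P3 := 923417968) (W3 := 42949674)
    rfl (fun _ => rfl) k0_B04pm_123_s1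

theorem s_B04pm_123_s1 {κ x : ℝ} (hκ : κ * h0 = ken x) (hx : ((923417968 : ℕ) : ℝ) / S ≤ x)
    (hx' : x ≤ (((923417968 : ℕ) : ℝ) + (42949674 : ℕ)) / S)
    (H : CutB (VFD κ) PP tK tL pcB (Cut.of [[⟨0, 1, 0, 67108864⟩, ⟨1, 1, 0, 67108864⟩, ⟨2, 2, 0, 16252928⟩]]) 1 2 3 0 4 (sgb true) (sgb false) x) :
    AltB (VFD κ) PP tK tL pcB [⟨3, 0, 0, 1449551462⟩] 1 2 3 0 4 (sgb true) (sgb false) x :=
  strip_altBD (m := 1449551462) true rfl hκ (SH.κ0 hκ (SH.hx1 hx).le (SH.hx2 hx').le) (SH.hx1 hx).le (SH.hx2 hx') (covB01).cov (covB43).cov hx hx' c_B04pm_123_s1 H (noExt_B)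

noncomputable def cut_B04pm_133_s1 : Cut := Cut.of [[⟨4, 0, 0, 1449551462⟩]]

noncomputable def f_B04pm_133_s1 : ℕ → ℕ → ℕ → ℕ → Bool := onCell 1610612736 536870912 0 1230186008 923417968 42949674
    (rowF 2 false true false .dn 1 3 3 (qsf 536870912 536870912 0 1230186008 3) ndB0q1 ndB4q3 pcB3 cut_B04pm_133_s1 Ext.none)

def k0_B04pm_133_s1 : ∃ t, chk3 f_B04pm_133_s1 t 1 1 1 = true :=
  ⟨(l 6), by decide +kernel⟩

theorem c_B04pm_133_s1 : CertF 536870912 536870912 0 1230186008 923417968 42949674 false true false .dn 1 3 3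
    ndB0q1 ndB4q3 pcB3 cut_B04pm_133_s1 Ext.none :=
  certF2 (fam := false) (s1 := true) (s2 := false) (a := 1) (b := 3) (c := 3) (cn := .dn) (n1 := ndB0q1) (n2 := ndB4q3) (pc := pcB3) (cut := cut_B04pm_133_s1) (xt := Ext.none) (P1 := 536870912) (W1 := 536870912) (P2 := 0) (W2 := 1230186008) (P3 := 923417968) (W3 := 42949674)
    rfl (fun _ => rfl) k0_B04pm_133_s1

theorem s_B04pm_133_s1 {κ x : ℝ} (hκ : κ * h0 = ken x) (hx : ((923417968 : ℕ) : ℝ) / S ≤ x)
    (hx' : x ≤ (((923417968 : ℕ) : ℝ) + (42949674 : ℕ)) / S) :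
    AltB (VFD κ) PP tK tL pcB [⟨3, 0, 0, 1449551462⟩] 1 3 3 0 4 (sgb true) (sgb false) x :=
  strip_altBD (m := 1449551462) true rfl hκ (SH.κ0 hκ (SH.hx1 hx).le (SH.hx2 hx').le) (SH.hx1 hx).le (SH.hx2 hx') (covB01).cov (covB43).cov hx hx' c_B04pm_133_s1 cutB_nil (noExt_B)

noncomputable def cut_B04pm_202_s1 : Cut := Cut.of [[⟨4, 0, 0, 1449551462⟩]]

noncomputable def f_B04pm_202_s1 : ℕ → ℕ → ℕ → ℕ → Bool := onCell 0 536870912 1073741824 536870912 923417968 42949674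
    (rowF 0 false true false .pp 2 0 2 (qsf 0 536870912 1073741824 536870912 0) ndB0q2 ndB4q2 pcB0 cut_B04pm_202_s1 Ext.none)

def k0_B04pm_202_s1 : ∃ t, chk3 f_B04pm_202_s1 t 1 1 1 = true :=
  ⟨(a (b (l 6) (b (l 6) (l 6))) (l 6)), by decide +kernel⟩

theorem c_B04pm_202_s1 : CertF 0 536870912 1073741824 536870912 923417968 42949674 false true false .pp 2 0 2
    ndB0q2 ndB4q2 pcB0 cut_B04pm_202_s1 Ext.none :=
  certF0 (fam := false) (s1 := true) (s2 := false) (a := 2) (b := 0) (c := 2) (cn := .pp) (n1 := ndB0q2) (n2 := ndB4q2) (pc := pcB0) (cut := cut_B04pm_202_s1) (xt := Ext.none) (P1 := 0) (W1 := 536870912) (P2 := 1073741824) (W2 := 536870912) (P3 := 923417968) (W3 := 42949674)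
    rfl k0_B04pm_202_s1

theorem s_B04pm_202_s1 {κ x : ℝ} (hκ : κ * h0 = ken x) (hx : ((923417968 : ℕ) : ℝ) / S ≤ x)
    (hx' : x ≤ (((923417968 : ℕ) : ℝ) + (42949674 : ℕ)) / S) :
    AltB (VFD κ) PP tK tL pcB [⟨3, 0, 0, 1449551462⟩] 2 0 2 0 4 (sgb true) (sgb false) x :=
  strip_altBD (m := 1449551462) true rfl hκ (SH.κ0 hκ (SH.hx1 hx).le (SH.hx2 hx').le) (SH.hx1 hx).le (SH.hx2 hx') (covB02).cov (covB42).cov hx hx' c_B04pm_202_s1 cutB_nil (noExt_B)

noncomputable def cut_B04pm_203_s1 : Cut := Cut.of [[⟨4, 0, 0, 1449551462⟩]]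

noncomputable def xt_B04pm_203_s1 : Ext := strExt dd false true false .u2 .s2m .u0m .up 2 0 3 rfl rfl gf0 vv ndB0q2 ndB4q3

noncomputable def f_B04pm_203_s1 : ℕ → ℕ → ℕ → ℕ → Bool := onCell 0 536870912 0 1230186008 923417968 42949674
    (rowF 0 false true false .up 2 0 3 (qsf 0 536870912 0 1230186008 0) ndB0q2 ndB4q3 pcB0 cut_B04pm_203_s1 xt_B04pm_203_s1)

def k0_B04pm_203_s1 : ∃ t, chk3 f_B04pm_203_s1 t 1 1 1 = true :=
  ⟨(b (l 2) (b (l 2) (a (b (b (l 2) (a (a (l 534403343) (b (l 2) (l 16636448))) (b (l 2) (l 6)))) (a (b (a (b (l 16666400) (l 16635360)) (b (l 16605024) (l 6))) (a (b (l 16508792) (l 16524968)) (l 6))) (l 6))) (l 6)))), by decide +kernel⟩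

theorem c_B04pm_203_s1 : CertF 0 536870912 0 1230186008 923417968 42949674 false true false .up 2 0 3
    ndB0q2 ndB4q3 pcB0 cut_B04pm_203_s1 xt_B04pm_203_s1 :=
  certF0 (fam := false) (s1 := true) (s2 := false) (a := 2) (b := 0) (c := 3) (cn := .up) (n1 := ndB0q2) (n2 := ndB4q3) (pc := pcB0) (cut := cut_B04pm_203_s1) (xt := xt_B04pm_203_s1) (P1 := 0) (W1 := 536870912) (P2 := 0) (W2 := 1230186008) (P3 := 923417968) (W3 := 42949674)
    rfl k0_B04pm_203_s1

theorem s_B04pm_203_s1 {κ x : ℝ} (hκ : κ * h0 = ken x) (hx : ((923417968 : ℕ) : ℝ) / S ≤ x)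
    (hx' : x ≤ (((923417968 : ℕ) : ℝ) + (42949674 : ℕ)) / S) :
    AltB (VFD κ) PP tK tL pcB [⟨3, 0, 0, 1449551462⟩] 2 0 3 0 4 (sgb true) (sgb false) x :=
  strip_altBD (m := 1449551462) true rfl hκ (SH.κ0 hκ (SH.hx1 hx).le (SH.hx2 hx').le) (SH.hx1 hx).le (SH.hx2 hx') (covB02).cov (covB43).cov hx hx' c_B04pm_203_s1 cutB_nil ((okx hx hx').extB (T := tt) (sideB hx hx') hκ rfl rfl (.O 2 true) (.N 3 false) (Or.inl rfl))

noncomputable def cut_B04pm_213_s1 : Cut := Cut.of [[⟨4, 0, 0, 1449551462⟩], [⟨0, 1, 0, 67108864⟩, ⟨1, 1, 0, 67108864⟩, ⟨2, 2, 0, 16252928⟩]]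

noncomputable def xt_B04pm_213_s1 : Ext := strExt dd false true false .u2 .s2m .u0m .pnn 2 1 3 rfl rfl gf1 vv ndB0q2 ndB4q3

noncomputable def f_B04pm_213_s1 : ℕ → ℕ → ℕ → ℕ → Bool := onCell 0 536870912 0 1230186008 923417968 42949674
    (rowF 0 false true false .pnn 2 1 3 (qsf 0 536870912 0 1230186008 1) ndB0q2 ndB4q3 pcB1 cut_B04pm_213_s1 xt_B04pm_213_s1)

def k0_B04pm_213_s1 : ∃ t, chk3 f_B04pm_213_s1 t 1 2 1 = true :=
  ⟨(a (a (l 3) (b (l 3) (b (l 3) (a (b (l 3) (a (l 3) (l 532502031))) (b (a (l 3) (b (l 533407759) (l 533173519))) (a (l 532608015) (b (l 532919823) (l 532643855)))))))) (b (a (b (l 3) (a (l 3) (b (l 3) (a (l 3) (a (l 536712207) (l 537088783)))))) (b (a (a (l 3) (l 14)) (l 14)) (a (a (b (a (b (l 3) (l 536704271)) (l 536156175)) (a (b (l 536980239) (l 537284111)) (b (l 536579087) (l 16735240)))) (b (a (a (l 535824911) (l 535607311)) (a (l 535396111) (l 535191055))) (a (b (l 536061455) (l 16769080))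 (b (l 16757256) (l 16756448))))) (a (b (b (l 14) (a (l 16747904) (l 16729528))) (a (l 16740560) (l 16720768))) (b (b (l 14) (l 16694856)) (b (l 16686768) (l 16682880))))))) (a (b (a (a (b (l 3) (b (l 3) (l 533936399))) (b (a (l 3) (l 535244047)) (b (l 534662671) (l 534397967)))) (a (b (l 535759887) (b (l 535422223) (l 535088655))) (b (l 535134223) (a (l 535780111) (l 16675568))))) (a (a (b (b (l 533695759) (l 533438991)) (b (l 533167119) (l 16689728))) (b (b (l 534099727) (l 533813519)) (c (l 16664304) (l 16678784)))) (b (a (c (l 16708152) (l 16713424)) (l 16716376)) (a (l 16652456) (l 16643464))))) (b (b (a (a (a (l 537020687) (l 16704888)) (a (l 16779120) (l 16764992))) (a (l 16736536) (l 16686728))) (a (a (l 16646120) (l 16805616)) (a (l 16765880) (l 16713392)))) (a (b (a (l 16739464) (l 16779888)) (a (l 16654864) (l 6))) (b (l 6) (l 6))))))), by decide +kernel⟩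

def k1_B04pm_213_s1 : ∃ t, chk3 f_B04pm_213_s1 t 1 3 1 = true :=
  ⟨(b (a (a (b (b (l 3) (a (l 3) (a (l 3) (l 531184911)))) (b (a (b (l 3) (l 530207247)) (b (a (l 530616591) (l 530753039)) (l 529033743))) (a (l 529736719) (a (l 529852431) (l 529702159))))) (b (a (b (a (l 530923535) (b (l 532236047) (l 531788559))) (a (l 531170063) (b (l 531436047) (l 531030543)))) (b (a (l 531749903) (l 531089167)) (a (b (l 531570191) (l 16609064)) (l 529956879)))) (a (b (a (l 530650639) (l 529465615)) (a (l 530021903) (l 528915727))) (a (b (l 529675023) (l 16208048)) (b (l 16294432) (b (l 16351000) (l 6))))))) (a (b (a (b (a (c (l 16529904) (l 16557240)) (l 16592744)) (a (l 16362864) (l 16485424))) (b (a (l 16563352) (l 16544904)) (a (l 16358808) (l 6)))) (b (a (a (l 16405040) (l 6)) (l 6)) (l 6))) (b (l 6) (l 6)))) (a (b (a (a (b (l 528996623) (b (l 528314127) (l 527755279))) (b (b (l 529363983) (l 528949263)) (b (l 528476687)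 (a (l 16308968) (l 16222192))))) (a (b (b (l 16294104) (a (l 16331616) (l 16245496))) (b (a (l 16236968) (l 6)) (l 6))) (l 6))) (a (l 1) (l 6))) (l 6))), by decide +kernel⟩

theorem t2_B04pm_213_s1 : ∃ t, chk3 f_B04pm_213_s1 t 1 1 1 = true := ex3_b k0_B04pm_213_s1 k1_B04pm_213_s1

theorem c_B04pm_213_s1 : CertF 0 536870912 0 1230186008 923417968 42949674 false true false .pnn 2 1 3
    ndB0q2 ndB4q3 pcB1 cut_B04pm_213_s1 xt_B04pm_213_s1 :=
  certF0 (fam := false) (s1 := true) (s2 := false) (a := 2) (b := 1) (c := 3) (cn := .pnn) (n1 := ndB0q2) (n2 := ndB4q3) (pc := pcB1) (cut := cut_B04pm_213_s1) (xt := xt_B04pm_213_s1) (P1 := 0) (W1 := 536870912) (P2 := 0) (W2 := 1230186008) (P3 := 923417968) (W3 := 42949674)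
    rfl t2_B04pm_213_s1

theorem s_B04pm_213_s1 {κ x : ℝ} (hκ : κ * h0 = ken x) (hx : ((923417968 : ℕ) : ℝ) / S ≤ x)
    (hx' : x ≤ (((923417968 : ℕ) : ℝ) + (42949674 : ℕ)) / S)
    (H : CutB (VFD κ) PP tK tL pcB (Cut.of [[⟨0, 1, 0, 67108864⟩, ⟨1, 1, 0, 67108864⟩, ⟨2, 2, 0, 16252928⟩]]) 2 1 3 0 4 (sgb true) (sgb false) x) :
    AltB (VFD κ) PP tK tL pcB [⟨3, 0, 0, 1449551462⟩] 2 1 3 0 4 (sgb true) (sgb false) x :=
  strip_altBD (m := 1449551462) true rfl hκ (SH.κ0 hκ (SH.hx1 hx).le (SH.hx2 hx').le) (SH.hx1 hx).le (SH.hx2 hx') (covB02).cov (covB43).cov hx hx' c_B04pm_213_s1 H ((okx hx hx').extB (T := tt) (sideB hx hx') hκ rfl rfl (.O 2 true) (.N 3 false) (Or.inr rfl))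

noncomputable def cut_B04mm_001_s1 : Cut := Cut.of [[⟨4, 0, 0, 1449551462⟩]]

noncomputable def f_B04mm_001_s1 : ℕ → ℕ → ℕ → ℕ → Bool := onCell 0 536870912 0 536870912 923417968 42949674
    (rowF 1 false false false .up 0 0 1 (qsf 0 536870912 536870912 536870912 0) ndB0q0 ndB4q1 pcB0 cut_B04mm_001_s1 Ext.none)

def k0_B04mm_001_s1 : ∃ t, chk3 f_B04mm_001_s1 t 1 1 1 = true :=
  ⟨(l 3), by decide +kernel⟩

theorem c_B04mm_001_s1 : CertF 0 536870912 536870912 536870912 923417968 42949674 false false false .up 0 0 1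
    ndB0q0 ndB4q1 pcB0 cut_B04mm_001_s1 Ext.none :=
  certF1 (fam := false) (s1 := false) (s2 := false) (a := 0) (b := 0) (c := 1) (cn := .up) (n1 := ndB0q0) (n2 := ndB4q1) (pc := pcB0) (cut := cut_B04mm_001_s1) (xt := Ext.none) (P1 := 0) (W1 := 536870912) (P2 := 536870912) (W2 := 536870912) (P3 := 923417968) (W3 := 42949674)
    rfl (fun _ => rfl) k0_B04mm_001_s1

theorem s_B04mm_001_s1 {κ x : ℝ} (hκ : κ * h0 = ken x) (hx : ((923417968 : ℕ) : ℝ) / S ≤ x)
    (hx' : x ≤ (((923417968 : ℕ) : ℝ) + (42949674 : ℕ)) / S) :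
    AltB (VFD κ) PP tK tL pcB [⟨3, 0, 0, 1449551462⟩] 0 0 1 0 4 (sgb false) (sgb false) x :=
  strip_altBD (m := 1449551462) true rfl hκ (SH.κ0 hκ (SH.hx1 hx).le (SH.hx2 hx').le) (SH.hx1 hx).le (SH.hx2 hx') (covB00).cov (covB41).cov hx hx' c_B04mm_001_s1 cutB_nil (noExt_B)

noncomputable def cut_B04mm_011_s1 : Cut := Cut.of [[⟨4, 0, 0, 1449551462⟩]]

noncomputable def f_B04mm_011_s1 : ℕ → ℕ → ℕ → ℕ → Bool := onCell 0 536870912 536870912 536870912 923417968 42949674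
    (rowF 1 false false false .pnn 0 1 1 (qsf 0 536870912 536870912 536870912 1) ndB0q0 ndB4q1 pcB1 cut_B04mm_011_s1 Ext.none)

def k0_B04mm_011_s1 : ∃ t, chk3 f_B04mm_011_s1 t 1 1 1 = true :=
  ⟨(l 5), by decide +kernel⟩

theorem c_B04mm_011_s1 : CertF 0 536870912 536870912 536870912 923417968 42949674 false false false .pnn 0 1 1
    ndB0q0 ndB4q1 pcB1 cut_B04mm_011_s1 Ext.none :=
  certF1 (fam := false) (s1 := false) (s2 := false) (a := 0) (b := 1) (c := 1) (cn := .pnn) (n1 := ndB0q0) (n2 := ndB4q1) (pc := pcB1) (cut := cut_B04mm_011_s1) (xt := Ext.none) (P1 := 0) (W1 := 536870912) (P2 := 536870912) (W2 := 536870912) (P3 := 923417968) (W3 := 42949674)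
    rfl (fun _ => rfl) k0_B04mm_011_s1

theorem s_B04mm_011_s1 {κ x : ℝ} (hκ : κ * h0 = ken x) (hx : ((923417968 : ℕ) : ℝ) / S ≤ x)
    (hx' : x ≤ (((923417968 : ℕ) : ℝ) + (42949674 : ℕ)) / S) :
    AltB (VFD κ) PP tK tL pcB [⟨3, 0, 0, 1449551462⟩] 0 1 1 0 4 (sgb false) (sgb false) x :=
  strip_altBD (m := 1449551462) true rfl hκ (SH.κ0 hκ (SH.hx1 hx).le (SH.hx2 hx').le) (SH.hx1 hx).le (SH.hx2 hx') (covB00).cov (covB41).cov hx hx' c_B04mm_011_s1 cutB_nil (noExt_B)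

noncomputable def cut_B04mm_012_s1 : Cut := Cut.of [[⟨4, 0, 0, 1449551462⟩]]

noncomputable def f_B04mm_012_s1 : ℕ → ℕ → ℕ → ℕ → Bool := onCell 0 536870912 1073741824 536870912 923417968 42949674
    (rowF 0 false false false .pnp 0 1 2 (qsf 0 536870912 1073741824 536870912 1) ndB0q0 ndB4q2 pcB1 cut_B04mm_012_s1 Ext.none)

def k0_B04mm_012_s1 : ∃ t, chk3 f_B04mm_012_s1 t 1 1 1 = true :=
  ⟨(l 5), by decide +kernel⟩

theorem c_B04mm_012_s1 : CertF 0 536870912 1073741824 536870912 923417968 42949674 false false false .pnp 0 1 2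
    ndB0q0 ndB4q2 pcB1 cut_B04mm_012_s1 Ext.none :=
  certF0 (fam := false) (s1 := false) (s2 := false) (a := 0) (b := 1) (c := 2) (cn := .pnp) (n1 := ndB0q0) (n2 := ndB4q2) (pc := pcB1) (cut := cut_B04mm_012_s1) (xt := Ext.none) (P1 := 0) (W1 := 536870912) (P2 := 1073741824) (W2 := 536870912) (P3 := 923417968) (W3 := 42949674)
    rfl k0_B04mm_012_s1

theorem s_B04mm_012_s1 {κ x : ℝ} (hκ : κ * h0 = ken x) (hx : ((923417968 : ℕ) : ℝ) / S ≤ x)
    (hx' : x ≤ (((923417968 : ℕ) : ℝ) + (42949674 : ℕ)) / S) :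
    AltB (VFD κ) PP tK tL pcB [⟨3, 0, 0, 1449551462⟩] 0 1 2 0 4 (sgb false) (sgb false) x :=
  strip_altBD (m := 1449551462) true rfl hκ (SH.κ0 hκ (SH.hx1 hx).le (SH.hx2 hx').le) (SH.hx1 hx).le (SH.hx2 hx') (covB00).cov (covB42).cov hx hx' c_B04mm_012_s1 cutB_nil (noExt_B)

noncomputable def cut_B04mm_022_s1 : Cut := Cut.of [[⟨4, 0, 0, 1449551462⟩]]

noncomputable def f_B04mm_022_s1 : ℕ → ℕ → ℕ → ℕ → Bool := onCell 0 536870912 1073741824 536870912 923417968 42949674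
    (rowF 0 false false false .pp 0 2 2 (qsf 0 536870912 1073741824 536870912 2) ndB0q0 ndB4q2 pcB2 cut_B04mm_022_s1 Ext.none)

def k0_B04mm_022_s1 : ∃ t, chk3 f_B04mm_022_s1 t 1 1 1 = true :=
  ⟨(l 5), by decide +kernel⟩

theorem c_B04mm_022_s1 : CertF 0 536870912 1073741824 536870912 923417968 42949674 false false false .pp 0 2 2
    ndB0q0 ndB4q2 pcB2 cut_B04mm_022_s1 Ext.none :=
  certF0 (fam := false) (s1 := false) (s2 := false) (a := 0) (b := 2) (c := 2) (cn := .pp) (n1 := ndB0q0) (n2 := ndB4q2) (pc := pcB2) (cut := cut_B04mm_022_s1) (xt := Ext.none) (P1 := 0) (W1 := 536870912) (P2 := 1073741824) (W2 := 536870912) (P3 := 923417968) (W3 := 42949674)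
    rfl k0_B04mm_022_s1

theorem s_B04mm_022_s1 {κ x : ℝ} (hκ : κ * h0 = ken x) (hx : ((923417968 : ℕ) : ℝ) / S ≤ x)
    (hx' : x ≤ (((923417968 : ℕ) : ℝ) + (42949674 : ℕ)) / S) :
    AltB (VFD κ) PP tK tL pcB [⟨3, 0, 0, 1449551462⟩] 0 2 2 0 4 (sgb false) (sgb false) x :=
  strip_altBD (m := 1449551462) true rfl hκ (SH.κ0 hκ (SH.hx1 hx).le (SH.hx2 hx').le) (SH.hx1 hx).le (SH.hx2 hx') (covB00).cov (covB42).cov hx hx' c_B04mm_022_s1 cutB_nil (noExt_B)

noncomputable def cut_B04mm_023_s1 : Cut := Cut.of [[⟨4, 0, 0, 1449551462⟩]]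

noncomputable def f_B04mm_023_s1 : ℕ → ℕ → ℕ → ℕ → Bool := onCell 0 536870912 0 1230186008 923417968 42949674
    (rowF 0 false false false .up 0 2 3 (qsf 0 536870912 0 1230186008 2) ndB0q0 ndB4q3 pcB2 cut_B04mm_023_s1 Ext.none)

def k0_B04mm_023_s1 : ∃ t, chk3 f_B04mm_023_s1 t 1 1 1 = true :=
  ⟨(l 5), by decide +kernel⟩

theorem c_B04mm_023_s1 : CertF 0 536870912 0 1230186008 923417968 42949674 false false false .up 0 2 3
    ndB0q0 ndB4q3 pcB2 cut_B04mm_023_s1 Ext.none :=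
  certF0 (fam := false) (s1 := false) (s2 := false) (a := 0) (b := 2) (c := 3) (cn := .up) (n1 := ndB0q0) (n2 := ndB4q3) (pc := pcB2) (cut := cut_B04mm_023_s1) (xt := Ext.none) (P1 := 0) (W1 := 536870912) (P2 := 0) (W2 := 1230186008) (P3 := 923417968) (W3 := 42949674)
    rfl k0_B04mm_023_s1

theorem s_B04mm_023_s1 {κ x : ℝ} (hκ : κ * h0 = ken x) (hx : ((923417968 : ℕ) : ℝ) / S ≤ x)
    (hx' : x ≤ (((923417968 : ℕ) : ℝ) + (42949674 : ℕ)) / S) :
    AltB (VFD κ) PP tK tL pcB [⟨3, 0, 0, 1449551462⟩] 0 2 3 0 4 (sgb false) (sgb false) x :=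
  strip_altBD (m := 1449551462) true rfl hκ (SH.κ0 hκ (SH.hx1 hx).le (SH.hx2 hx').le) (SH.hx1 hx).le (SH.hx2 hx') (covB00).cov (covB43).cov hx hx' c_B04mm_023_s1 cutB_nil (noExt_B)

noncomputable def cut_B04mm_033_s1 : Cut := Cut.of [[⟨4, 0, 0, 1449551462⟩]]

noncomputable def f_B04mm_033_s1 : ℕ → ℕ → ℕ → ℕ → Bool := onCell 0 536870912 0 1230186008 923417968 42949674
    (rowF 0 false false false .pnn 0 3 3 (qsf 0 536870912 0 1230186008 3) ndB0q0 ndB4q3 pcB3 cut_B04mm_033_s1 Ext.none)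

def k0_B04mm_033_s1 : ∃ t, chk3 f_B04mm_033_s1 t 1 1 1 = true :=
  ⟨(l 5), by decide +kernel⟩

theorem c_B04mm_033_s1 : CertF 0 536870912 0 1230186008 923417968 42949674 false false false .pnn 0 3 3
    ndB0q0 ndB4q3 pcB3 cut_B04mm_033_s1 Ext.none :=
  certF0 (fam := false) (s1 := false) (s2 := false) (a := 0) (b := 3) (c := 3) (cn := .pnn) (n1 := ndB0q0) (n2 := ndB4q3) (pc := pcB3) (cut := cut_B04mm_033_s1) (xt := Ext.none) (P1 := 0) (W1 := 536870912) (P2 := 0) (W2 := 1230186008) (P3 := 923417968) (W3 := 42949674)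
    rfl k0_B04mm_033_s1

theorem s_B04mm_033_s1 {κ x : ℝ} (hκ : κ * h0 = ken x) (hx : ((923417968 : ℕ) : ℝ) / S ≤ x)
    (hx' : x ≤ (((923417968 : ℕ) : ℝ) + (42949674 : ℕ)) / S) :
    AltB (VFD κ) PP tK tL pcB [⟨3, 0, 0, 1449551462⟩] 0 3 3 0 4 (sgb false) (sgb false) x :=
  strip_altBD (m := 1449551462) true rfl hκ (SH.κ0 hκ (SH.hx1 hx).le (SH.hx2 hx').le) (SH.hx1 hx).le (SH.hx2 hx') (covB00).cov (covB43).cov hx hx' c_B04mm_033_s1 cutB_nil (noExt_B)

noncomputable def cut_B04mm_101_s1 : Cut := Cut.of [[⟨4, 0, 0, 1449551462⟩], [⟨0, 1, 0, 67108864⟩, ⟨1, 0, 0, 67108864⟩, ⟨2, 1, 0, 67108864⟩]]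

noncomputable def f_B04mm_101_s1 : ℕ → ℕ → ℕ → ℕ → Bool := onCell 536870912 536870912 0 536870912 923417968 42949674
    (rowF 1 false false false .npn 1 0 1 (qsf 536870912 536870912 536870912 536870912 0) ndB0q1 ndB4q1 pcB0 cut_B04mm_101_s1 Ext.none)

def k0_B04mm_101_s1 : ∃ t, chk3 f_B04mm_101_s1 t 1 1 1 = true :=
  ⟨(a (l 3) (b (a (l 3) (b (a (l 3) (b (b (a (l 3) (l 14)) (l 3)) (l 3))) (l 3))) (l 3))), by decide +kernel⟩

theorem c_B04mm_101_s1 : CertF 536870912 536870912 536870912 536870912 923417968 42949674 false false false .npn 1 0 1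
    ndB0q1 ndB4q1 pcB0 cut_B04mm_101_s1 Ext.none :=
  certF1 (fam := false) (s1 := false) (s2 := false) (a := 1) (b := 0) (c := 1) (cn := .npn) (n1 := ndB0q1) (n2 := ndB4q1) (pc := pcB0) (cut := cut_B04mm_101_s1) (xt := Ext.none) (P1 := 536870912) (W1 := 536870912) (P2 := 536870912) (W2 := 536870912) (P3 := 923417968) (W3 := 42949674)
    rfl (fun _ => rfl) k0_B04mm_101_s1

theorem s_B04mm_101_s1 {κ x : ℝ} (hκ : κ * h0 = ken x) (hx : ((923417968 : ℕ) : ℝ) / S ≤ x)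
    (hx' : x ≤ (((923417968 : ℕ) : ℝ) + (42949674 : ℕ)) / S)
    (H : CutB (VFD κ) PP tK tL pcB (Cut.of [[⟨0, 1, 0, 67108864⟩, ⟨1, 0, 0, 67108864⟩, ⟨2, 1, 0, 67108864⟩]]) 1 0 1 0 4 (sgb false) (sgb false) x) :
    AltB (VFD κ) PP tK tL pcB [⟨3, 0, 0, 1449551462⟩] 1 0 1 0 4 (sgb false) (sgb false) x :=
  strip_altBD (m := 1449551462) true rfl hκ (SH.κ0 hκ (SH.hx1 hx).le (SH.hx2 hx').le) (SH.hx1 hx).le (SH.hx2 hx') (covB01).cov (covB41).cov hx hx' c_B04mm_101_s1 H (noExt_B)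

noncomputable def cut_B04mm_102_s1 : Cut := Cut.of [[⟨4, 0, 0, 1449551462⟩], [⟨0, 1, 0, 67108864⟩, ⟨1, 0, 0, 67108864⟩, ⟨2, 1, 0, 67108864⟩]]

noncomputable def f_B04mm_102_s1 : ℕ → ℕ → ℕ → ℕ → Bool := onCell 536870912 536870912 0 536870912 923417968 42949674
    (rowF 1 false false false .npp 1 0 2 (qsf 536870912 536870912 1073741824 536870912 0) ndB0q1 ndB4q2 pcB0 cut_B04mm_102_s1 Ext.none)

def k0_B04mm_102_s1 : ∃ t, chk3 f_B04mm_102_s1 t 1 1 1 = true :=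
  ⟨(a (l 3) (b (a (l 3) (b (a (l 3) (b (a (l 3) (b (l 14) (l 3))) (l 3))) (l 3))) (l 3))), by decide +kernel⟩

theorem c_B04mm_102_s1 : CertF 536870912 536870912 1073741824 536870912 923417968 42949674 false false false .npp 1 0 2
    ndB0q1 ndB4q2 pcB0 cut_B04mm_102_s1 Ext.none :=
  certF1 (fam := false) (s1 := false) (s2 := false) (a := 1) (b := 0) (c := 2) (cn := .npp) (n1 := ndB0q1) (n2 := ndB4q2) (pc := pcB0) (cut := cut_B04mm_102_s1) (xt := Ext.none) (P1 := 536870912) (W1 := 536870912) (P2 := 1073741824) (W2 := 536870912) (P3 := 923417968) (W3 := 42949674)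
    rfl (fun _ => rfl) k0_B04mm_102_s1

theorem s_B04mm_102_s1 {κ x : ℝ} (hκ : κ * h0 = ken x) (hx : ((923417968 : ℕ) : ℝ) / S ≤ x)
    (hx' : x ≤ (((923417968 : ℕ) : ℝ) + (42949674 : ℕ)) / S)
    (H : CutB (VFD κ) PP tK tL pcB (Cut.of [[⟨0, 1, 0, 67108864⟩, ⟨1, 0, 0, 67108864⟩, ⟨2, 1, 0, 67108864⟩]]) 1 0 2 0 4 (sgb false) (sgb false) x) :
    AltB (VFD κ) PP tK tL pcB [⟨3, 0, 0, 1449551462⟩] 1 0 2 0 4 (sgb false) (sgb false) x :=
  strip_altBD (m := 1449551462) true rfl hκ (SH.κ0 hκ (SH.hx1 hx).le (SH.hx2 hx').le) (SH.hx1 hx).le (SH.hx2 hx') (covB01).cov (covB42).cov hx hx' c_B04mm_102_s1 H (noExt_B)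

noncomputable def cut_B04mm_112_s1 : Cut := Cut.of [[⟨4, 0, 0, 1449551462⟩]]

noncomputable def f_B04mm_112_s1 : ℕ → ℕ → ℕ → ℕ → Bool := onCell 536870912 536870912 1073741824 536870912 923417968 42949674
    (rowF 2 false false false .dn 1 1 2 (qsf 536870912 536870912 1073741824 536870912 1) ndB0q1 ndB4q2 pcB1 cut_B04mm_112_s1 Ext.none)

def k0_B04mm_112_s1 : ∃ t, chk3 f_B04mm_112_s1 t 1 1 1 = true :=
  ⟨(a (l 3) (l 5)), by decide +kernel⟩

theorem c_B04mm_112_s1 : CertF 536870912 536870912 1073741824 536870912 923417968 42949674 false false false .dn 1 1 2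
    ndB0q1 ndB4q2 pcB1 cut_B04mm_112_s1 Ext.none :=
  certF2 (fam := false) (s1 := false) (s2 := false) (a := 1) (b := 1) (c := 2) (cn := .dn) (n1 := ndB0q1) (n2 := ndB4q2) (pc := pcB1) (cut := cut_B04mm_112_s1) (xt := Ext.none) (P1 := 536870912) (W1 := 536870912) (P2 := 1073741824) (W2 := 536870912) (P3 := 923417968) (W3 := 42949674)
    rfl (fun _ => rfl) k0_B04mm_112_s1

theorem s_B04mm_112_s1 {κ x : ℝ} (hκ : κ * h0 = ken x) (hx : ((923417968 : ℕ) : ℝ) / S ≤ x)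
    (hx' : x ≤ (((923417968 : ℕ) : ℝ) + (42949674 : ℕ)) / S) :
    AltB (VFD κ) PP tK tL pcB [⟨3, 0, 0, 1449551462⟩] 1 1 2 0 4 (sgb false) (sgb false) x :=
  strip_altBD (m := 1449551462) true rfl hκ (SH.κ0 hκ (SH.hx1 hx).le (SH.hx2 hx').le) (SH.hx1 hx).le (SH.hx2 hx') (covB01).cov (covB42).cov hx hx' c_B04mm_112_s1 cutB_nil (noExt_B)

noncomputable def cut_B04mm_113_s1 : Cut := Cut.of [[⟨4, 0, 0, 1449551462⟩]]

noncomputable def f_B04mm_113_s1 : ℕ → ℕ → ℕ → ℕ → Bool := onCell 536870912 536870912 0 1230186008 923417968 42949674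
    (rowF 0 false false false .nn 1 1 3 (qsf 536870912 536870912 0 1230186008 1) ndB0q1 ndB4q3 pcB1 cut_B04mm_113_s1 Ext.none)

def k0_B04mm_113_s1 : ∃ t, chk3 f_B04mm_113_s1 t 1 1 1 = true :=
  ⟨(b (l 5) (a (l 5) (b (a (l 5) (l 3)) (l 3)))), by decide +kernel⟩

theorem c_B04mm_113_s1 : CertF 536870912 536870912 0 1230186008 923417968 42949674 false false false .nn 1 1 3
    ndB0q1 ndB4q3 pcB1 cut_B04mm_113_s1 Ext.none :=
  certF0 (fam := false) (s1 := false) (s2 := false) (a := 1) (b := 1) (c := 3) (cn := .nn) (n1 := ndB0q1) (n2 := ndB4q3) (pc := pcB1) (cut := cut_B04mm_113_s1) (xt := Ext.none) (P1 := 536870912) (W1 := 536870912) (P2 := 0) (W2 := 1230186008) (P3 := 923417968) (W3 := 42949674)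
    rfl k0_B04mm_113_s1

theorem s_B04mm_113_s1 {κ x : ℝ} (hκ : κ * h0 = ken x) (hx : ((923417968 : ℕ) : ℝ) / S ≤ x)
    (hx' : x ≤ (((923417968 : ℕ) : ℝ) + (42949674 : ℕ)) / S) :
    AltB (VFD κ) PP tK tL pcB [⟨3, 0, 0, 1449551462⟩] 1 1 3 0 4 (sgb false) (sgb false) x :=
  strip_altBD (m := 1449551462) true rfl hκ (SH.κ0 hκ (SH.hx1 hx).le (SH.hx2 hx').le) (SH.hx1 hx).le (SH.hx2 hx') (covB01).cov (covB43).cov hx hx' c_B04mm_113_s1 cutB_nil (noExt_B)

noncomputable def cut_B04mm_123_s1 : Cut := Cut.of [[⟨4, 0, 0, 1449551462⟩]]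

noncomputable def f_B04mm_123_s1 : ℕ → ℕ → ℕ → ℕ → Bool := onCell 1073741824 536870912 0 1230186008 923417968 42949674
    (rowF 2 false false false .npn 1 2 3 (qsf 536870912 536870912 0 1230186008 2) ndB0q1 ndB4q3 pcB2 cut_B04mm_123_s1 Ext.none)

def k0_B04mm_123_s1 : ∃ t, chk3 f_B04mm_123_s1 t 1 1 1 = true :=
  ⟨(b (l 5) (l 5)), by decide +kernel⟩

theorem c_B04mm_123_s1 : CertF 536870912 536870912 0 1230186008 923417968 42949674 false false false .npn 1 2 3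
    ndB0q1 ndB4q3 pcB2 cut_B04mm_123_s1 Ext.none :=
  certF2 (fam := false) (s1 := false) (s2 := false) (a := 1) (b := 2) (c := 3) (cn := .npn) (n1 := ndB0q1) (n2 := ndB4q3) (pc := pcB2) (cut := cut_B04mm_123_s1) (xt := Ext.none) (P1 := 536870912) (W1 := 536870912) (P2 := 0) (W2 := 1230186008) (P3 := 923417968) (W3 := 42949674)
    rfl (fun _ => rfl) k0_B04mm_123_s1

theorem s_B04mm_123_s1 {κ x : ℝ} (hκ : κ * h0 = ken x) (hx : ((923417968 : ℕ) : ℝ) / S ≤ x)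
    (hx' : x ≤ (((923417968 : ℕ) : ℝ) + (42949674 : ℕ)) / S) :
    AltB (VFD κ) PP tK tL pcB [⟨3, 0, 0, 1449551462⟩] 1 2 3 0 4 (sgb false) (sgb false) x :=
  strip_altBD (m := 1449551462) true rfl hκ (SH.κ0 hκ (SH.hx1 hx).le (SH.hx2 hx').le) (SH.hx1 hx).le (SH.hx2 hx') (covB01).cov (covB43).cov hx hx' c_B04mm_123_s1 cutB_nil (noExt_B)

noncomputable def cut_B04mm_133_s1 : Cut := Cut.of [[⟨4, 0, 0, 1449551462⟩]]

noncomputable def f_B04mm_133_s1 : ℕ → ℕ → ℕ → ℕ → Bool := onCell 1610612736 536870912 0 1230186008 923417968 42949674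
    (rowF 2 false false false .dn 1 3 3 (qsf 536870912 536870912 0 1230186008 3) ndB0q1 ndB4q3 pcB3 cut_B04mm_133_s1 Ext.none)

def k0_B04mm_133_s1 : ∃ t, chk3 f_B04mm_133_s1 t 1 1 1 = true :=
  ⟨(l 5), by decide +kernel⟩

theorem c_B04mm_133_s1 : CertF 536870912 536870912 0 1230186008 923417968 42949674 false false false .dn 1 3 3
    ndB0q1 ndB4q3 pcB3 cut_B04mm_133_s1 Ext.none :=
  certF2 (fam := false) (s1 := false) (s2 := false) (a := 1) (b := 3) (c := 3) (cn := .dn) (n1 := ndB0q1) (n2 := ndB4q3) (pc := pcB3) (cut := cut_B04mm_133_s1) (xt := Ext.none) (P1 := 536870912) (W1 := 536870912) (P2 := 0) (W2 := 1230186008) (P3 := 923417968) (W3 := 42949674)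
    rfl (fun _ => rfl) k0_B04mm_133_s1

theorem s_B04mm_133_s1 {κ x : ℝ} (hκ : κ * h0 = ken x) (hx : ((923417968 : ℕ) : ℝ) / S ≤ x)
    (hx' : x ≤ (((923417968 : ℕ) : ℝ) + (42949674 : ℕ)) / S) :
    AltB (VFD κ) PP tK tL pcB [⟨3, 0, 0, 1449551462⟩] 1 3 3 0 4 (sgb false) (sgb false) x :=
  strip_altBD (m := 1449551462) true rfl hκ (SH.κ0 hκ (SH.hx1 hx).le (SH.hx2 hx').le) (SH.hx1 hx).le (SH.hx2 hx') (covB01).cov (covB43).cov hx hx' c_B04mm_133_s1 cutB_nil (noExt_B)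

noncomputable def cut_B04mm_202_s1 : Cut := Cut.of [[⟨4, 0, 0, 1449551462⟩], [⟨0, 1, 0, 67108864⟩, ⟨1, 0, 0, 67108864⟩, ⟨2, 1, 0, 67108864⟩]]

noncomputable def xt_B04mm_202_s1 : Ext := strExt dd false false false .u2 .s2m .u0m .pp 2 0 2 rfl rfl gf0 vv ndB0q2 ndB4q2

noncomputable def f_B04mm_202_s1 : ℕ → ℕ → ℕ → ℕ → Bool := onCell 0 536870912 0 536870912 923417968 42949674
    (rowF 1 false false false .pp 2 0 2 (qsf 0 536870912 1073741824 536870912 0) ndB0q2 ndB4q2 pcB0 cut_B04mm_202_s1 xt_B04mm_202_s1)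

def k0_B04mm_202_s1 : ∃ t, chk3 f_B04mm_202_s1 t 2 1 1 = true :=
  ⟨(b (a (a (l 6) (b (l 6) (b (l 6) (a (l 6) (l 16520976))))) (b (a (a (l 6) (b (l 6) (l 6))) (b (b (l 6) (b (l 16328736) (a (l 6) (l 16392912)))) (b (b (a (l 6) (l 16416352)) (b (l 16413568) (l 16443992))) (b (l 16483904) (l 16529056))))) (b (a (b (b (l 16459136) (l 16497400)) (l 16538440)) (a (b (l 16561480) (l 16618600)) (b (l 16614504) (b (l 16635584) (l 16631608))))) (b (a (l 16581184) (a (b (l 16644184) (l 16646864)) (b (l 16644752) (l 16664952)))) (a (a (l 16601168) (l 16564968)) (a (l 16673800) (l 532883983))))))) (b (a (b (a (l 16485336) (b (l 16567624) (a (l 16592024) (l 16627896)))) (a (b (l 16569384) (l 198742381495)) (b (a (l 16626440) (l 16654104)) (l 16667560)))) (b (a (a (b (l 16635736) (l 16659384)) (b (l 16670576) (l 16689952))) (a (b (l 16699536) (b (l 16715272) (l 16727128))) (b (a (l 16720904) (l 533042191)) (a (l 532844047)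 (l 532751375))))) (a (a (b (l 16682360) (l 258872296375)) (b (l 532871695) (l 532725519))) (a (b (l 532754191) (l 532614159)) (b (a (l 532640015) (l 532547343)) (l 532459535)))))) (a (l 2) (a (l 2) (a (l 2) (l 3)))))), by decide +kernel⟩

def k1_B04mm_202_s1 : ∃ t, chk3 f_B04mm_202_s1 t 6 2 1 = true :=
  ⟨(b (a (b (b (b (l 16352560) (a (l 16372144) (l 16432224))) (b (a (l 16414752) (l 16458848)) (a (l 16440208) (l 16496000)))) (b (b (l 16420352) (b (l 16536000) (l 16562888))) (b (a (l 16571144) (l 16631152)) (l 16517360)))) (a (b (b (b (b (l 16431304) (l 16457688)) (l 16392344)) (l 16531952)) (b (b (l 16596384) (l 16562216)) (b (l 16564008) (a (l 16632872) (l 16643984))))) (a (b (b (b (l 16401752) (l 16518128)) (l 16575912)) (b (b (l 16646800) (l 16661696)) (b (l 16648760) (l 16671000)))) (b (b (b (l 16511320) (l 16544664)) (b (l 16584776) (l 16631360))) (b (b (l 16682312) (b (l 16660344) (l 16656904))) (b (l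 16672552) (l 16699336))))))) (b (a (a (b (b (l 16643856) (l 16628568)) (b (a (l 16623960) (l 16633456)) (l 16650800))) (b (b (l 16631032) (l 16640336)) (l 530933263))) (b (a (a (b (l 16645056) (l 16674544)) (l 529844239)) (a (l 529671695) (b (l 529383439) (l 529818895)))) (a (a (l 530759439) (l 530645007)) (a (l 530530831) (l 530416399))))) (a (a (b (l 531919631) (b (l 16718736) (l 532759055))) (b (l 531681551) (a (l 532433935) (l 532317967)))) (a (b (l 531450383) (l 532143631)) (a (b (l 531274511) (l 3)) (l 3)))))), by decide +kernel⟩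

def k2_B04mm_202_s1 : ∃ t, chk3 f_B04mm_202_s1 t 7 4 1 = true :=
  ⟨(a (b (b (a (b (a (l 16538704) (l 16565976)) (a (l 16572768) (l 16603208))) (a (b (l 16512704) (l 16553112)) (b (b (l 14) (l 16640224)) (b (l 16662064) (l 16686304))))) (a (a (b (l 16615952) (l 16665568)) (b (l 16649488) (b (l 16688616) (l 16693312)))) (a (b (l 16686392) (b (a (l 16705128) (l 16704816)) (a (l 16696640) (l 16707552)))) (a (b (b (l 16702576) (l 16714872)) (b (l 16713416) (l 16721752))) (b (b (l 16722792) (l 16698968)) (b (l 16725768) (l 528594959))))))) (b (b (a (a (b (l 16684344) (l 16672128)) (b (l 16645320) (l 16691728))) (a (b (l 16710464) (l 528535311)) (a (l 528503311) (l 528439055)))) (a (a (b (a (l 16665560) (l 16679448)) (l 16600056)) (l 528540175)) (a (a (l 528511503) (l 528475663)) (a (l 528426767) (l 528363535))))) (a (a (b (l 528630287) (l 528304143)) (b (l 528611855) (l 528830991))) (a (a (l 528670479) (b (l 528547087)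 (l 528767247))) (a (b (l 528498959) (l 3)) (l 3)))))) (b (b (a (b (l 14) (a (b (l 14) (a (l 16716128) (b (l 14) (l 16734400)))) (l 14))) (l 14)) (a (a (b (b (a (b (l 16728760) (l 16725808)) (b (l 16733592) (l 16736352))) (a (b (l 16727616) (l 16732328)) (l 528746255))) (a (a (l 528605711) (l 528561423)) (a (l 528512783) (l 528459279)))) (a (b (a (l 528768783) (l 528704783)) (a (l 528401423) (l 528338191))) (a (b (l 528635407) (l 528270095)) (b (a (l 528582415) (l 528544015)) (l 3))))) (b (a (a (b (l 14) (a (l 528376335) (l 3))) (l 3)) (l 3)) (l 3)))) (b (a (a (a (b (a (l 528383247) (l 528339727)) (l 528285199)) (b (a (l 528291855) (l 528239375)) (l 3))) (l 3)) (l 3)) (l 3)))), by decide +kernel⟩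

def k3_B04mm_202_s1 : ∃ t, chk3 f_B04mm_202_s1 t 7 5 1 = true :=
  ⟨(b (a (a (b (a (b (l 529207055) (a (l 529734671) (l 529700111))) (b (l 529198351) (a (l 529672463) (l 3)))) (a (l 530301711) (l 3))) (l 3)) (l 3)) (l 3)), by decide +kernel⟩

def k4_B04mm_202_s1 : ∃ t, chk3 f_B04mm_202_s1 t 3 3 1 = true :=
  ⟨(a (b (a (b (a (b (b (l 533019407) (l 532800783)) (l 532581647)) (b (a (l 532665359) (l 532451855)) (l 3))) (l 3)) (l 3)) (l 3)) (l 3)), by decide +kernel⟩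

theorem t5_B04mm_202_s1 : ∃ t, chk3 f_B04mm_202_s1 t 7 2 1 = true := ex3_b k2_B04mm_202_s1 k3_B04mm_202_s1

theorem t6_B04mm_202_s1 : ∃ t, chk3 f_B04mm_202_s1 t 3 2 1 = true := ex3_a k1_B04mm_202_s1 t5_B04mm_202_s1

theorem t7_B04mm_202_s1 : ∃ t, chk3 f_B04mm_202_s1 t 3 1 1 = true := ex3_b t6_B04mm_202_s1 k4_B04mm_202_s1

theorem t8_B04mm_202_s1 : ∃ t, chk3 f_B04mm_202_s1 t 1 1 1 = true := ex3_a k0_B04mm_202_s1 t7_B04mm_202_s1

theorem c_B04mm_202_s1 : CertF 0 536870912 1073741824 536870912 923417968 42949674 false false false .pp 2 0 2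
    ndB0q2 ndB4q2 pcB0 cut_B04mm_202_s1 xt_B04mm_202_s1 :=
  certF1 (fam := false) (s1 := false) (s2 := false) (a := 2) (b := 0) (c := 2) (cn := .pp) (n1 := ndB0q2) (n2 := ndB4q2) (pc := pcB0) (cut := cut_B04mm_202_s1) (xt := xt_B04mm_202_s1) (P1 := 0) (W1 := 536870912) (P2 := 1073741824) (W2 := 536870912) (P3 := 923417968) (W3 := 42949674)
    rfl (fun _ => rfl) t8_B04mm_202_s1

theorem s_B04mm_202_s1 {κ x : ℝ} (hκ : κ * h0 = ken x) (hx : ((923417968 : ℕ) : ℝ) / S ≤ x)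
    (hx' : x ≤ (((923417968 : ℕ) : ℝ) + (42949674 : ℕ)) / S)
    (H : CutB (VFD κ) PP tK tL pcB (Cut.of [[⟨0, 1, 0, 67108864⟩, ⟨1, 0, 0, 67108864⟩, ⟨2, 1, 0, 67108864⟩]]) 2 0 2 0 4 (sgb false) (sgb false) x) :
    AltB (VFD κ) PP tK tL pcB [⟨3, 0, 0, 1449551462⟩] 2 0 2 0 4 (sgb false) (sgb false) x :=
  strip_altBD (m := 1449551462) true rfl hκ (SH.κ0 hκ (SH.hx1 hx).le (SH.hx2 hx').le) (SH.hx1 hx).le (SH.hx2 hx') (covB02).cov (covB42).cov hx hx' c_B04mm_202_s1 H ((okx hx hx').extB (T := tt) (sideB hx hx') hκ rfl rfl (.O 2 false) (.N 2 false) (Or.inl rfl))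

noncomputable def cut_B04mm_203_s1 : Cut := Cut.of [[⟨4, 0, 0, 1449551462⟩]]

noncomputable def xt_B04mm_203_s1 : Ext := strExt dd false false false .u2 .s2m .u0m .up 2 0 3 rfl rfl gf0 vv ndB0q2 ndB4q3

noncomputable def f_B04mm_203_s1 : ℕ → ℕ → ℕ → ℕ → Bool := onCell 0 536870912 0 1230186008 923417968 42949674
    (rowF 0 false false false .up 2 0 3 (qsf 0 536870912 0 1230186008 0) ndB0q2 ndB4q3 pcB0 cut_B04mm_203_s1 xt_B04mm_203_s1)

def k0_B04mm_203_s1 : ∃ t, chk3 f_B04mm_203_s1 t 1 1 1 = true :=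
  ⟨(b (l 2) (b (l 2) (a (a (b (b (l 2) (a (l 534220559) (b (l 2) (a (l 533995535) (l 3))))) (b (a (b (c (l 16713960) (l 16715520)) (l 16687992)) (a (b (l 533846031) (l 533703439)) (l 533431311))) (a (b (l 16655960) (a (l 16603136) (l 16634464))) (b (a (l 16694928) (l 533206031)) (b (l 16684200) (l 16667952)))))) (b (l 3) (b (a (a (l 533057039) (l 3)) (l 3)) (a (b (a (b (l 532889359) (l 532755471)) (l 532579343)) (a (b (l 532803343) (l 16715200)) (l 532655375))) (a (b (l 3) (l 532534543)) (l 3)))))) (l 3)))), by decide +kernel⟩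

theorem c_B04mm_203_s1 : CertF 0 536870912 0 1230186008 923417968 42949674 false false false .up 2 0 3
    ndB0q2 ndB4q3 pcB0 cut_B04mm_203_s1 xt_B04mm_203_s1 :=
  certF0 (fam := false) (s1 := false) (s2 := false) (a := 2) (b := 0) (c := 3) (cn := .up) (n1 := ndB0q2) (n2 := ndB4q3) (pc := pcB0) (cut := cut_B04mm_203_s1) (xt := xt_B04mm_203_s1) (P1 := 0) (W1 := 536870912) (P2 := 0) (W2 := 1230186008) (P3 := 923417968) (W3 := 42949674)
    rfl k0_B04mm_203_s1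

theorem s_B04mm_203_s1 {κ x : ℝ} (hκ : κ * h0 = ken x) (hx : ((923417968 : ℕ) : ℝ) / S ≤ x)
    (hx' : x ≤ (((923417968 : ℕ) : ℝ) + (42949674 : ℕ)) / S) :
    AltB (VFD κ) PP tK tL pcB [⟨3, 0, 0, 1449551462⟩] 2 0 3 0 4 (sgb false) (sgb false) x :=
  strip_altBD (m := 1449551462) true rfl hκ (SH.κ0 hκ (SH.hx1 hx).le (SH.hx2 hx').le) (SH.hx1 hx).le (SH.hx2 hx') (covB02).cov (covB43).cov hx hx' c_B04mm_203_s1 cutB_nil ((okx hx hx').extB (T := tt) (sideB hx hx') hκ rfl rfl (.O 2 false) (.N 3 false) (Or.inl rfl))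

noncomputable def cut_B04mm_213_s1 : Cut := Cut.of [[⟨4, 0, 0, 1449551462⟩]]

noncomputable def xt_B04mm_213_s1 : Ext := strExt dd false false false .u2 .s2m .u0m .pnn 2 1 3 rfl rfl gf1 vv ndB0q2 ndB4q3

noncomputable def f_B04mm_213_s1 : ℕ → ℕ → ℕ → ℕ → Bool := onCell 0 536870912 0 1230186008 923417968 42949674
    (rowF 0 false false false .pnn 2 1 3 (qsf 0 536870912 0 1230186008 1) ndB0q2 ndB4q3 pcB1 cut_B04mm_213_s1 xt_B04mm_213_s1)

def k0_B04mm_213_s1 : ∃ t, chk3 f_B04mm_213_s1 t 1 1 1 = true :=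
  ⟨(b (a (l 3) (b (l 5) (l 3))) (b (a (a (b (l 3) (l 3)) (l 3)) (l 3)) (a (b (a (b (a (l 528879119) (l 3)) (a (b (l 528176655) (l 527607311)) (b (a (l 528051983) (l 3)) (a (l 527442703) (l 3))))) (l 3)) (a (l 1) (b (a (l 1) (l 3)) (l 1)))) (l 3)))), by decide +kernel⟩

theorem c_B04mm_213_s1 : CertF 0 536870912 0 1230186008 923417968 42949674 false false false .pnn 2 1 3
    ndB0q2 ndB4q3 pcB1 cut_B04mm_213_s1 xt_B04mm_213_s1 :=
  certF0 (fam := false) (s1 := false) (s2 := false) (a := 2) (b := 1) (c := 3) (cn := .pnn) (n1 := ndB0q2) (n2 := ndB4q3) (pc := pcB1) (cut := cut_B04mm_213_s1) (xt := xt_B04mm_213_s1) (P1 := 0) (W1 := 536870912) (P2 := 0) (W2 := 1230186008) (P3 := 923417968) (W3 := 42949674)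
    rfl k0_B04mm_213_s1

theorem s_B04mm_213_s1 {κ x : ℝ} (hκ : κ * h0 = ken x) (hx : ((923417968 : ℕ) : ℝ) / S ≤ x)
    (hx' : x ≤ (((923417968 : ℕ) : ℝ) + (42949674 : ℕ)) / S) :
    AltB (VFD κ) PP tK tL pcB [⟨3, 0, 0, 1449551462⟩] 2 1 3 0 4 (sgb false) (sgb false) x :=
  strip_altBD (m := 1449551462) true rfl hκ (SH.κ0 hκ (SH.hx1 hx).le (SH.hx2 hx').le) (SH.hx1 hx).le (SH.hx2 hx') (covB02).cov (covB43).cov hx hx' c_B04mm_213_s1 cutB_nil ((okx hx hx').extB (T := tt) (sideB hx hx') hκ rfl rfl (.O 2 false) (.N 3 false) (Or.inr rfl))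

noncomputable def cut_B40pp_001_s1 : Cut := Cut.of [[⟨4, 0, 0, 1449551462⟩]]

noncomputable def xt_B40pp_001_s1 : Ext := strExt dd false true true .s0 .u0 .u0m .up 0 0 1 rfl rfl gf0 vv ndB4q0 ndB0q1

noncomputable def f_B40pp_001_s1 : ℕ → ℕ → ℕ → ℕ → Bool := onCell 0 536870912 0 536870912 923417968 42949674
    (rowF 1 false true true .up 0 0 1 (qsf 0 536870912 536870912 536870912 0) ndB4q0 ndB0q1 pcB0 cut_B40pp_001_s1 xt_B40pp_001_s1)

def k0_B40pp_001_s1 : ∃ t, chk3 f_B40pp_001_s1 t 1 1 1 = true :=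
  ⟨(a (b (l 3) (b (l 3) (a (l 3) (b (l 3) (a (a (l 525958927) (b (l 3) (l 526787599))) (b (l 526345743) (a (l 526809615) (l 526881295)))))))) (b (l 3) (a (b (l 3) (b (a (b (l 3) (a (l 525953551) (l 525990927))) (b (a (l 526027023) (l 526742543)) (a (l 526480655) (l 527192335)))) (a (b (a (l 526284047) (l 526805519)) (a (l 527074575) (l 527560463))) (b (a (l 527313423) (l 527830287)) (a (l 16607728) (l 16470128)))))) (b (a (b (l 3) (b (l 3) (a (l 527133199) (l 527709967)))) (b (b (l 3) (a (l 3) (l 528531983))) (b (a (l 528091919) (l 528536847)) (a (l 528206607) (b (l 528614159) (l 16666928)))))) (b (a (b (a (l 527389199) (l 527940879)) (a (b (l 527654927) (l 16585088)) (l 528268303))) (b (a (l 528416015) (l 528846095)) (a (l 16500440) (l 16443808)))) (a (b (a (l 16511064) (l 16455768)) (a (l 16414888) (l 16355072))) (b (a (l 16398960) (b (l 16361344) (l 16296256))) (a (b (l 16314424) (l 6)) (l 6))))))))), by decide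 +kernel⟩

theorem c_B40pp_001_s1 : CertF 0 536870912 536870912 536870912 923417968 42949674 false true true .up 0 0 1
    ndB4q0 ndB0q1 pcB0 cut_B40pp_001_s1 xt_B40pp_001_s1 :=
  certF1 (fam := false) (s1 := true) (s2 := true) (a := 0) (b := 0) (c := 1) (cn := .up) (n1 := ndB4q0) (n2 := ndB0q1) (pc := pcB0) (cut := cut_B40pp_001_s1) (xt := xt_B40pp_001_s1) (P1 := 0) (W1 := 536870912) (P2 := 536870912) (W2 := 536870912) (P3 := 923417968) (W3 := 42949674)
    rfl (fun _ => rfl) k0_B40pp_001_s1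

theorem s_B40pp_001_s1 {κ x : ℝ} (hκ : κ * h0 = ken x) (hx : ((923417968 : ℕ) : ℝ) / S ≤ x)
    (hx' : x ≤ (((923417968 : ℕ) : ℝ) + (42949674 : ℕ)) / S) :
    AltB (VFD κ) PP tK tL pcB [⟨3, 0, 0, 1449551462⟩] 0 0 1 4 0 (sgb true) (sgb true) x :=
  strip_altBD (m := 1449551462) true rfl hκ (SH.κ0 hκ (SH.hx1 hx).le (SH.hx2 hx').le) (SH.hx1 hx).le (SH.hx2 hx') (covB40).cov (covB01).cov hx hx' c_B40pp_001_s1 cutB_nil ((okx hx hx').extB (T := tt) (sideB hx hx') hκ rfl rfl (.N 0 true) (.O 1 true) (Or.inl rfl))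

noncomputable def cut_B40pp_011_s1 : Cut := Cut.of [[⟨4, 0, 0, 1449551462⟩]]

noncomputable def xt_B40pp_011_s1 : Ext := strExt dd false true true .s0 .u0 .u0m .pnn 0 1 1 rfl rfl gf1 vv ndB4q0 ndB0q1

noncomputable def f_B40pp_011_s1 : ℕ → ℕ → ℕ → ℕ → Bool := onCell 536870912 536870912 536870912 536870912 923417968 42949674
    (rowF 2 false true true .pnn 0 1 1 (qsf 0 536870912 536870912 536870912 1) ndB4q0 ndB0q1 pcB1 cut_B40pp_011_s1 xt_B40pp_011_s1)

def k0_B40pp_011_s1 : ∃ t, chk3 f_B40pp_011_s1 t 1 1 1 = true :=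
  ⟨(a (b (a (b (b (a (l 3) (a (c (l 518169871) (l 519442191)) (l 1))) (a (a (l 516198927) (l 517256463)) (a (l 518350863) (l 520338703)))) (a (b (b (l 517661455) (a (c (l 517117199) (l 518844431)) (l 518564367))) (a (b (l 516769551) (l 518325007)) (b (l 518872591) (l 519159055)))) (b (b (l 518947599) (a (l 519090703) (l 519493903))) (a (b (l 519475471) (l 519791119)) (a (l 520014607) (l 520236559)))))) (b (a (b (l 1) (a (l 520766991) (l 1))) (l 1)) (a (b (a (b (l 520291599) (l 520289807)) (c (l 520849679) (l 521881615))) (a (b (l 520315663) (l 520715535)) (a (l 520781839) (l 520881935)))) (b (a (c (l 521936911) (l 522773775)) (l 1)) (b (a (l 521778447) (l 16063504)) (a (l 16031912) (l 15902528))))))) (b (a (b (a (a (b (l 518744591) (l 519261199)) (b (l 519593231) (l 520122383))) (b (a (l 520250639) (l 520773135)) (a (l 520800783) (l 15757352)))) (a (b (a (l 519759119) (l 520635919)) (a (c (l 15893032) (l 16035912))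 (c (l 15924520) (l 15988816)))) (b (a (l 521339151) (l 15955952)) (a (l 15821848) (l 15854760))))) (b (a (a (a (l 521390607) (l 521592591)) (a (l 521778959) (l 521943311))) (b (a (l 15934136) (l 15875600)) (a (l 15855200) (l 6)))) (a (b (a (l 15897120) (l 6)) (l 6)) (l 6)))) (a (b (a (b (a (c (l 15841848) (l 15910928)) (c (l 15795928) (l 15869904))) (a (b (l 15773552) (l 6)) (l 6))) (b (l 6) (l 6))) (l 6)) (l 6)))) (b (a (b (l 1) (b (l 1) (a (a (b (l 1) (l 15963616)) (l 1)) (l 1)))) (l 1)) (a (b (b (l 6) (l 6)) (l 6)) (l 6)))), by decide +kernel⟩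

theorem c_B40pp_011_s1 : CertF 0 536870912 536870912 536870912 923417968 42949674 false true true .pnn 0 1 1
    ndB4q0 ndB0q1 pcB1 cut_B40pp_011_s1 xt_B40pp_011_s1 :=
  certF2 (fam := false) (s1 := true) (s2 := true) (a := 0) (b := 1) (c := 1) (cn := .pnn) (n1 := ndB4q0) (n2 := ndB0q1) (pc := pcB1) (cut := cut_B40pp_011_s1) (xt := xt_B40pp_011_s1) (P1 := 0) (W1 := 536870912) (P2 := 536870912) (W2 := 536870912) (P3 := 923417968) (W3 := 42949674)
    rfl (fun _ => rfl) k0_B40pp_011_s1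

theorem s_B40pp_011_s1 {κ x : ℝ} (hκ : κ * h0 = ken x) (hx : ((923417968 : ℕ) : ℝ) / S ≤ x)
    (hx' : x ≤ (((923417968 : ℕ) : ℝ) + (42949674 : ℕ)) / S) :
    AltB (VFD κ) PP tK tL pcB [⟨3, 0, 0, 1449551462⟩] 0 1 1 4 0 (sgb true) (sgb true) x :=
  strip_altBD (m := 1449551462) true rfl hκ (SH.κ0 hκ (SH.hx1 hx).le (SH.hx2 hx').le) (SH.hx1 hx).le (SH.hx2 hx') (covB40).cov (covB01).cov hx hx' c_B40pp_011_s1 cutB_nil ((okx hx hx').extB (T := tt) (sideB hx hx') hκ rfl rfl (.N 0 true) (.O 1 true) (Or.inr rfl))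

noncomputable def cut_B40pp_012_s1 : Cut := Cut.of [[⟨4, 0, 0, 1449551462⟩]]

noncomputable def f_B40pp_012_s1 : ℕ → ℕ → ℕ → ℕ → Bool := onCell 0 536870912 0 536870912 923417968 42949674
    (rowF 0 false true true .pnp 0 1 2 (qsf 0 536870912 0 536870912 1) ndB4q0 ndB0q2 pcB1 cut_B40pp_012_s1 Ext.none)

def k0_B40pp_012_s1 : ∃ t, chk3 f_B40pp_012_s1 t 1 1 1 = true :=
  ⟨(b (l 6) (l 6)), by decide +kernel⟩

theorem c_B40pp_012_s1 : CertF 0 536870912 0 536870912 923417968 42949674 false true true .pnp 0 1 2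
    ndB4q0 ndB0q2 pcB1 cut_B40pp_012_s1 Ext.none :=
  certF0 (fam := false) (s1 := true) (s2 := true) (a := 0) (b := 1) (c := 2) (cn := .pnp) (n1 := ndB4q0) (n2 := ndB0q2) (pc := pcB1) (cut := cut_B40pp_012_s1) (xt := Ext.none) (P1 := 0) (W1 := 536870912) (P2 := 0) (W2 := 536870912) (P3 := 923417968) (W3 := 42949674)
    rfl k0_B40pp_012_s1

theorem s_B40pp_012_s1 {κ x : ℝ} (hκ : κ * h0 = ken x) (hx : ((923417968 : ℕ) : ℝ) / S ≤ x)
    (hx' : x ≤ (((923417968 : ℕ) : ℝ) + (42949674 : ℕ)) / S) :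
    AltB (VFD κ) PP tK tL pcB [⟨3, 0, 0, 1449551462⟩] 0 1 2 4 0 (sgb true) (sgb true) x :=
  strip_altBD (m := 1449551462) true rfl hκ (SH.κ0 hκ (SH.hx1 hx).le (SH.hx2 hx').le) (SH.hx1 hx).le (SH.hx2 hx') (covB40).cov (covB02).cov hx hx' c_B40pp_012_s1 cutB_nil (noExt_B)

noncomputable def cut_B40pp_022_s1 : Cut := Cut.of [[⟨4, 0, 0, 1449551462⟩]]

noncomputable def f_B40pp_022_s1 : ℕ → ℕ → ℕ → ℕ → Bool := onCell 1073741824 536870912 0 536870912 923417968 42949674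
    (rowF 2 false true true .pp 0 2 2 (qsf 0 536870912 0 536870912 2) ndB4q0 ndB0q2 pcB2 cut_B40pp_022_s1 Ext.none)

def k0_B40pp_022_s1 : ∃ t, chk3 f_B40pp_022_s1 t 1 1 1 = true :=
  ⟨(l 6), by decide +kernel⟩

theorem c_B40pp_022_s1 : CertF 0 536870912 0 536870912 923417968 42949674 false true true .pp 0 2 2
    ndB4q0 ndB0q2 pcB2 cut_B40pp_022_s1 Ext.none :=
  certF2 (fam := false) (s1 := true) (s2 := true) (a := 0) (b := 2) (c := 2) (cn := .pp) (n1 := ndB4q0) (n2 := ndB0q2) (pc := pcB2) (cut := cut_B40pp_022_s1) (xt := Ext.none) (P1 := 0) (W1 := 536870912) (P2 := 0) (W2 := 536870912) (P3 := 923417968) (W3 := 42949674)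
    rfl (fun _ => rfl) k0_B40pp_022_s1

theorem s_B40pp_022_s1 {κ x : ℝ} (hκ : κ * h0 = ken x) (hx : ((923417968 : ℕ) : ℝ) / S ≤ x)
    (hx' : x ≤ (((923417968 : ℕ) : ℝ) + (42949674 : ℕ)) / S) :
    AltB (VFD κ) PP tK tL pcB [⟨3, 0, 0, 1449551462⟩] 0 2 2 4 0 (sgb true) (sgb true) x :=
  strip_altBD (m := 1449551462) true rfl hκ (SH.κ0 hκ (SH.hx1 hx).le (SH.hx2 hx').le) (SH.hx1 hx).le (SH.hx2 hx') (covB40).cov (covB02).cov hx hx' c_B40pp_022_s1 cutB_nil (noExt_B)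

noncomputable def cut_B40pp_101_s1 : Cut := Cut.of [[⟨4, 0, 0, 1449551462⟩], [⟨0, 1, 0, 67108864⟩, ⟨1, 0, 0, 67108864⟩, ⟨2, 1, 0, 67108864⟩]]

noncomputable def xt_B40pp_101_s1 : Ext := strExt dd false true true .s0 .u0 .u0m .npn 1 0 1 rfl rfl gf0 vv ndB4q1 ndB0q1

noncomputable def f_B40pp_101_s1 : ℕ → ℕ → ℕ → ℕ → Bool := onCell 536870912 536870912 536870912 536870912 923417968 42949674
    (rowF 0 false true true .npn 1 0 1 (qsf 536870912 536870912 536870912 536870912 0) ndB4q1 ndB0q1 pcB0 cut_B40pp_101_s1 xt_B40pp_101_s1)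

def k0_B40pp_101_s1 : ∃ t, chk3 f_B40pp_101_s1 t 2 1 1 = true :=
  ⟨(b (l 3) (a (b (b (a (b (l 3) (a (l 528947471) (l 3))) (l 3)) (a (b (a (l 528905743) (l 529373455)) (a (l 528969231) (l 529287439))) (b (a (l 529642511) (l 3)) (a (l 529691151) (l 529910799))))) (b (a (b (a (l 16544352) (l 529363983)) (a (l 16438968) (l 16487944))) (b (a (b (l 16703392) (l 16613104)) (l 530014223)) (a (l 16537144) (b (l 16609112) (l 16559504))))) (a (b (a (l 16398200) (l 16537080)) (l 6)) (a (b (l 16612784) (l 16253784)) (b (l 16561768) (l 16321984)))))) (b (a (b (l 3) (b (l 3) (a (l 529563151) (l 529171215)))) (l 3)) (b (a (b (a (l 529968655) (l 529574671)) (a (l 530372367) (b (l 529896719) (l 16632592)))) (b (a (l 529138703) (b (l 3) (l 528730639))) (a (b (l 529464079) (l 529655055)) (b (l 528983567) (l 529191183))))) (b (a (a (l 16531560) (b (l 16585184) (l 16538192))) (a (b (l 16610800) (l 16560136)) (b (l 16681488) (l 16585152))))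 (b (a (a (l 16438720) (l 16496800)) (a (l 16516208) (l 16534800))) (a (l 16371712) (a (l 16470400) (l 16508224))))))))), by decide +kernel⟩

def k1_B40pp_101_s1 : ∃ t, chk3 f_B40pp_101_s1 t 3 1 1 = true :=
  ⟨(b (l 3) (a (b (l 3) (a (b (b (l 3) (a (b (a (l 528587023) (l 528444431)) (a (l 528725519) (l 528317967))) (b (l 3) (l 528071695)))) (b (a (b (l 528636687) (l 16613552)) (b (l 528025359) (a (l 16638352) (l 528084239)))) (a (b (l 16557736) (l 16519728)) (b (l 16587344) (l 16539496))))) (b (b (l 3) (a (b (l 3) (a (l 527885583) (l 3))) (l 3))) (b (a (a (b (l 527804943) (l 527928335)) (b (l 527712271) (l 527799567))) (b (a (l 527649039) (l 527612175)) (a (l 527720463) (l 527673359)))) (a (b (a (l 16531360) (l 16636168)) (b (l 16496320) (l 16556120))) (b (a (l 527981071) (l 527915279)) (b (l 16621816) (l 16592488)))))))) (b (l 3) (a (b (l 3) (b (b (l 3) (a (a (b (l 527630351) (l 527699215)) (b (l 3) (l 527706639)))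 (a (a (l 527703055) (l 3)) (l 3)))) (a (b (a (l 527883535) (a (l 527894287) (l 527904015))) (a (b (l 16656032) (l 16624528)) (l 528283919))) (a (b (a (l 527920399) (l 527943439)) (b (l 528189967) (l 16670832))) (b (a (l 527972623) (l 528007951)) (a (l 528357647) (l 528391951))))))) (a (b (l 3) (b (l 3) (a (a (a (b (l 528049167) (l 528431631)) (l 14)) (l 14)) (l 14)))) (b (l 1) (b (l 3) (l 14)))))))), by decide +kernel⟩

theorem t2_B40pp_101_s1 : ∃ t, chk3 f_B40pp_101_s1 t 1 1 1 = true := ex3_a k0_B40pp_101_s1 k1_B40pp_101_s1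

theorem c_B40pp_101_s1 : CertF 536870912 536870912 536870912 536870912 923417968 42949674 false true true .npn 1 0 1
    ndB4q1 ndB0q1 pcB0 cut_B40pp_101_s1 xt_B40pp_101_s1 :=
  certF0 (fam := false) (s1 := true) (s2 := true) (a := 1) (b := 0) (c := 1) (cn := .npn) (n1 := ndB4q1) (n2 := ndB0q1) (pc := pcB0) (cut := cut_B40pp_101_s1) (xt := xt_B40pp_101_s1) (P1 := 536870912) (W1 := 536870912) (P2 := 536870912) (W2 := 536870912) (P3 := 923417968) (W3 := 42949674)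
    rfl t2_B40pp_101_s1

theorem s_B40pp_101_s1 {κ x : ℝ} (hκ : κ * h0 = ken x) (hx : ((923417968 : ℕ) : ℝ) / S ≤ x)
    (hx' : x ≤ (((923417968 : ℕ) : ℝ) + (42949674 : ℕ)) / S)
    (H : CutB (VFD κ) PP tK tL pcB (Cut.of [[⟨0, 1, 0, 67108864⟩, ⟨1, 0, 0, 67108864⟩, ⟨2, 1, 0, 67108864⟩]]) 1 0 1 4 0 (sgb true) (sgb true) x) :
    AltB (VFD κ) PP tK tL pcB [⟨3, 0, 0, 1449551462⟩] 1 0 1 4 0 (sgb true) (sgb true) x :=
  strip_altBD (m := 1449551462) true rfl hκ (SH.κ0 hκ (SH.hx1 hx).le (SH.hx2 hx').le) (SH.hx1 hx).le (SH.hx2 hx') (covB41).cov (covB01).cov hx hx' c_B40pp_101_s1 H ((okx hx hx').extB (T := tt) (sideB hx hx') hκ rfl rfl (.N 1 true) (.O 1 true) (Or.inl rfl))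

noncomputable def cut_B40pp_102_s1 : Cut := Cut.of [[⟨4, 0, 0, 1449551462⟩], [⟨0, 1, 0, 67108864⟩, ⟨1, 0, 0, 67108864⟩, ⟨2, 1, 0, 67108864⟩]]

noncomputable def f_B40pp_102_s1 : ℕ → ℕ → ℕ → ℕ → Bool := onCell 0 536870912 0 536870912 923417968 42949674
    (rowF 2 false true true .npp 1 0 2 (qsf 536870912 536870912 0 536870912 0) ndB4q1 ndB0q2 pcB0 cut_B40pp_102_s1 Ext.none)

def k0_B40pp_102_s1 : ∃ t, chk3 f_B40pp_102_s1 t 1 1 1 = true :=
  ⟨(a (b (a (l 6) (l 6)) (a (b (b (a (l 2) (l 6)) (b (a (l 2) (a (a (l 2) (a (l 15691968) (l 15702464))) (l 6))) (a (l 2) (a (a (l 15866016) (a (l 15771992) (l 15864176))) (a (l 15837216) (l 15895200)))))) (a (a (b (l 2) (l 14)) (a (b (b (l 2) (l 14)) (l 14)) (b (b (b (l 2) (l 16103544)) (b (l 16112024) (l 16208240))) (b (b (l 16391280) (l 16492424)) (b (l 16510664) (b (l 16671008) (l 16627864))))))) (a (b (a (b (b (l 15994656) (l 16084896)) (a (l 16232208) (l 16224776))) (b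 (a (l 15947400) (l 16037112)) (a (l 16221000) (l 16223984)))) (a (b (b (l 16378160) (l 16480688)) (b (l 16583968) (b (l 16661128) (l 16689248)))) (b (a (l 16254872) (l 16422360)) (b (l 16575488) (l 16592088))))) (a (b (b (l 16047712) (l 16229648)) (b (b (l 16373200) (l 16471048)) (b (l 16569208) (l 16662864)))) (b (b (l 16058704) (l 16234760)) (b (l 16420760) (l 16441096))))))) (b (a (a (b (l 6) (a (l 15838024) (l 6))) (l 6)) (l 6)) (a (b (a (b (a (l 16070056) (l 16081336)) (a (l 16239832) (l 16244496))) (b (l 16080448) (l 16237840))) (a (b (a (l 16418584) (l 16415664)) (b (l 16549696) (l 16614432))) (b (l 16317792) (l 16564608)))) (b (b (l 6) (l 16192672)) (b (a (l 16368048) (l 16326624)) (a (l 16523856) (l 16474016)))))))) (b (l 6) (b (l 6) (a (b (l 6) (a (b (l 16085016) (l 16387384)) (b (l 6) (l 16262928)))) (l 6))))), by decide +kernel⟩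

theorem c_B40pp_102_s1 : CertF 536870912 536870912 0 536870912 923417968 42949674 false true true .npp 1 0 2
    ndB4q1 ndB0q2 pcB0 cut_B40pp_102_s1 Ext.none :=
  certF2 (fam := false) (s1 := true) (s2 := true) (a := 1) (b := 0) (c := 2) (cn := .npp) (n1 := ndB4q1) (n2 := ndB0q2) (pc := pcB0) (cut := cut_B40pp_102_s1) (xt := Ext.none) (P1 := 536870912) (W1 := 536870912) (P2 := 0) (W2 := 536870912) (P3 := 923417968) (W3 := 42949674)
    rfl (fun _ => rfl) k0_B40pp_102_s1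

theorem s_B40pp_102_s1 {κ x : ℝ} (hκ : κ * h0 = ken x) (hx : ((923417968 : ℕ) : ℝ) / S ≤ x)
    (hx' : x ≤ (((923417968 : ℕ) : ℝ) + (42949674 : ℕ)) / S)
    (H : CutB (VFD κ) PP tK tL pcB (Cut.of [[⟨0, 1, 0, 67108864⟩, ⟨1, 0, 0, 67108864⟩, ⟨2, 1, 0, 67108864⟩]]) 1 0 2 4 0 (sgb true) (sgb true) x) :
    AltB (VFD κ) PP tK tL pcB [⟨3, 0, 0, 1449551462⟩] 1 0 2 4 0 (sgb true) (sgb true) x :=
  strip_altBD (m := 1449551462) true rfl hκ (SH.κ0 hκ (SH.hx1 hx).le (SH.hx2 hx').le) (SH.hx1 hx).le (SH.hx2 hx') (covB41).cov (covB02).cov hx hx' c_B40pp_102_s1 H (noExt_B)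

noncomputable def cut_B40pp_112_s1 : Cut := Cut.of [[⟨4, 0, 0, 1449551462⟩]]

noncomputable def f_B40pp_112_s1 : ℕ → ℕ → ℕ → ℕ → Bool := onCell 536870912 536870912 0 536870912 923417968 42949674
    (rowF 2 false true true .dn 1 1 2 (qsf 536870912 536870912 0 536870912 1) ndB4q1 ndB0q2 pcB1 cut_B40pp_112_s1 Ext.none)

def k0_B40pp_112_s1 : ∃ t, chk3 f_B40pp_112_s1 t 1 1 1 = true :=
  ⟨(b (l 6) (l 6)), by decide +kernel⟩

theorem c_B40pp_112_s1 : CertF 536870912 536870912 0 536870912 923417968 42949674 false true true .dn 1 1 2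
    ndB4q1 ndB0q2 pcB1 cut_B40pp_112_s1 Ext.none :=
  certF2 (fam := false) (s1 := true) (s2 := true) (a := 1) (b := 1) (c := 2) (cn := .dn) (n1 := ndB4q1) (n2 := ndB0q2) (pc := pcB1) (cut := cut_B40pp_112_s1) (xt := Ext.none) (P1 := 536870912) (W1 := 536870912) (P2 := 0) (W2 := 536870912) (P3 := 923417968) (W3 := 42949674)
    rfl (fun _ => rfl) k0_B40pp_112_s1

theorem s_B40pp_112_s1 {κ x : ℝ} (hκ : κ * h0 = ken x) (hx : ((923417968 : ℕ) : ℝ) / S ≤ x)
    (hx' : x ≤ (((923417968 : ℕ) : ℝ) + (42949674 : ℕ)) / S) :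
    AltB (VFD κ) PP tK tL pcB [⟨3, 0, 0, 1449551462⟩] 1 1 2 4 0 (sgb true) (sgb true) x :=
  strip_altBD (m := 1449551462) true rfl hκ (SH.κ0 hκ (SH.hx1 hx).le (SH.hx2 hx').le) (SH.hx1 hx).le (SH.hx2 hx') (covB41).cov (covB02).cov hx hx' c_B40pp_112_s1 cutB_nil (noExt_B)

noncomputable def cut_B40pp_202_s1 : Cut := Cut.of [[⟨4, 0, 0, 1449551462⟩], [⟨0, 1, 0, 67108864⟩, ⟨1, 0, 0, 67108864⟩, ⟨2, 1, 0, 67108864⟩]]

noncomputable def f_B40pp_202_s1 : ℕ → ℕ → ℕ → ℕ → Bool := onCell 0 536870912 0 536870912 923417968 42949674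
    (rowF 2 false true true .pp 2 0 2 (qsf 1073741824 536870912 0 536870912 0) ndB4q2 ndB0q2 pcB0 cut_B40pp_202_s1 Ext.none)

def k0_B40pp_202_s1 : ∃ t, chk3 f_B40pp_202_s1 t 1 1 1 = true :=
  ⟨(a (b (a (l 6) (l 6)) (a (b (b (a (a (b (l 16191272) (l 16079496)) (a (l 16041040) (l 15911784))) (l 6)) (b (a (a (a (l 16364168) (l 16253064)) (a (l 16125944) (l 15988576))) (a (a (l 15851936) (a (l 15756784) (l 15708752))) (l 6))) (a (a (a (b (l 16415376) (l 16439168)) (b (l 16290760) (l 16318920))) (a (l 16179000) (l 16049352))) (a (a (l 15917072) (a (l 15906600) (l 1))) (l 1))))) (a (a (b (b (a (l 16311904) (l 16360264)) (l 14)) (l 14)) (a (b (b (l 16238584) (l 14)) (l 14)) (b (b (b (l 16097416) (l 16132712)) (b (l 16171960) (l 16173016))) (l 1)))) (a (b (a (b (l 402148226679) (l 1)) (l 1)) (l 1)) (l 1)))) (b (l 1) (l 1)))) (l 1)), by decide +kernel⟩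

theorem c_B40pp_202_s1 : CertF 1073741824 536870912 0 536870912 923417968 42949674 false true true .pp 2 0 2
    ndB4q2 ndB0q2 pcB0 cut_B40pp_202_s1 Ext.none :=
  certF2 (fam := false) (s1 := true) (s2 := true) (a := 2) (b := 0) (c := 2) (cn := .pp) (n1 := ndB4q2) (n2 := ndB0q2) (pc := pcB0) (cut := cut_B40pp_202_s1) (xt := Ext.none) (P1 := 1073741824) (W1 := 536870912) (P2 := 0) (W2 := 536870912) (P3 := 923417968) (W3 := 42949674)
    rfl (fun _ => rfl) k0_B40pp_202_s1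

theorem s_B40pp_202_s1 {κ x : ℝ} (hκ : κ * h0 = ken x) (hx : ((923417968 : ℕ) : ℝ) / S ≤ x)
    (hx' : x ≤ (((923417968 : ℕ) : ℝ) + (42949674 : ℕ)) / S)
    (H : CutB (VFD κ) PP tK tL pcB (Cut.of [[⟨0, 1, 0, 67108864⟩, ⟨1, 0, 0, 67108864⟩, ⟨2, 1, 0, 67108864⟩]]) 2 0 2 4 0 (sgb true) (sgb true) x) :
    AltB (VFD κ) PP tK tL pcB [⟨3, 0, 0, 1449551462⟩] 2 0 2 4 0 (sgb true) (sgb true) x :=
  strip_altBD (m := 1449551462) true rfl hκ (SH.κ0 hκ (SH.hx1 hx).le (SH.hx2 hx').le) (SH.hx1 hx).le (SH.hx2 hx') (covB42).cov (covB02).cov hx hx' c_B40pp_202_s1 H (noExt_B)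

noncomputable def cut_B40pm_001_s1 : Cut := Cut.of [[⟨4, 0, 0, 1449551462⟩]]

noncomputable def f_B40pm_001_s1 : ℕ → ℕ → ℕ → ℕ → Bool := onCell 0 536870912 536870912 536870912 923417968 42949674
    (rowF 0 false true false .up 0 0 1 (qsf 0 536870912 536870912 536870912 0) ndB4q0 ndB0q1 pcB0 cut_B40pm_001_s1 Ext.none)

def k0_B40pm_001_s1 : ∃ t, chk3 f_B40pm_001_s1 t 1 1 1 = true :=
  ⟨(l 4), by decide +kernel⟩

theorem c_B40pm_001_s1 : CertF 0 536870912 536870912 536870912 923417968 42949674 false true false .up 0 0 1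
    ndB4q0 ndB0q1 pcB0 cut_B40pm_001_s1 Ext.none :=
  certF0 (fam := false) (s1 := true) (s2 := false) (a := 0) (b := 0) (c := 1) (cn := .up) (n1 := ndB4q0) (n2 := ndB0q1) (pc := pcB0) (cut := cut_B40pm_001_s1) (xt := Ext.none) (P1 := 0) (W1 := 536870912) (P2 := 536870912) (W2 := 536870912) (P3 := 923417968) (W3 := 42949674)
    rfl k0_B40pm_001_s1

theorem s_B40pm_001_s1 {κ x : ℝ} (hκ : κ * h0 = ken x) (hx : ((923417968 : ℕ) : ℝ) / S ≤ x)
    (hx' : x ≤ (((923417968 : ℕ) : ℝ) + (42949674 : ℕ)) / S) :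
    AltB (VFD κ) PP tK tL pcB [⟨3, 0, 0, 1449551462⟩] 0 0 1 4 0 (sgb true) (sgb false) x :=
  strip_altBD (m := 1449551462) true rfl hκ (SH.κ0 hκ (SH.hx1 hx).le (SH.hx2 hx').le) (SH.hx1 hx).le (SH.hx2 hx') (covB40).cov (covB01).cov hx hx' c_B40pm_001_s1 cutB_nil (noExt_B)

noncomputable def cut_B40pm_011_s1 : Cut := Cut.of [[⟨4, 0, 0, 1449551462⟩]]

noncomputable def f_B40pm_011_s1 : ℕ → ℕ → ℕ → ℕ → Bool := onCell 0 536870912 536870912 536870912 923417968 42949674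
    (rowF 0 false true false .pnn 0 1 1 (qsf 0 536870912 536870912 536870912 1) ndB4q0 ndB0q1 pcB1 cut_B40pm_011_s1 Ext.none)

def k0_B40pm_011_s1 : ∃ t, chk3 f_B40pm_011_s1 t 1 1 1 = true :=
  ⟨(l 4), by decide +kernel⟩

theorem c_B40pm_011_s1 : CertF 0 536870912 536870912 536870912 923417968 42949674 false true false .pnn 0 1 1
    ndB4q0 ndB0q1 pcB1 cut_B40pm_011_s1 Ext.none :=
  certF0 (fam := false) (s1 := true) (s2 := false) (a := 0) (b := 1) (c := 1) (cn := .pnn) (n1 := ndB4q0) (n2 := ndB0q1) (pc := pcB1) (cut := cut_B40pm_011_s1) (xt := Ext.none) (P1 := 0) (W1 := 536870912) (P2 := 536870912) (W2 := 536870912) (P3 := 923417968) (W3 := 42949674)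
    rfl k0_B40pm_011_s1

theorem s_B40pm_011_s1 {κ x : ℝ} (hκ : κ * h0 = ken x) (hx : ((923417968 : ℕ) : ℝ) / S ≤ x)
    (hx' : x ≤ (((923417968 : ℕ) : ℝ) + (42949674 : ℕ)) / S) :
    AltB (VFD κ) PP tK tL pcB [⟨3, 0, 0, 1449551462⟩] 0 1 1 4 0 (sgb true) (sgb false) x :=
  strip_altBD (m := 1449551462) true rfl hκ (SH.κ0 hκ (SH.hx1 hx).le (SH.hx2 hx').le) (SH.hx1 hx).le (SH.hx2 hx') (covB40).cov (covB01).cov hx hx' c_B40pm_011_s1 cutB_nil (noExt_B)

noncomputable def cut_B40pm_012_s1 : Cut := Cut.of [[⟨4, 0, 0, 1449551462⟩]]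

noncomputable def f_B40pm_012_s1 : ℕ → ℕ → ℕ → ℕ → Bool := onCell 0 536870912 0 536870912 923417968 42949674
    (rowF 0 false true false .pnp 0 1 2 (qsf 0 536870912 0 536870912 1) ndB4q0 ndB0q2 pcB1 cut_B40pm_012_s1 Ext.none)

def k0_B40pm_012_s1 : ∃ t, chk3 f_B40pm_012_s1 t 1 1 1 = true :=
  ⟨(l 6), by decide +kernel⟩

theorem c_B40pm_012_s1 : CertF 0 536870912 0 536870912 923417968 42949674 false true false .pnp 0 1 2
    ndB4q0 ndB0q2 pcB1 cut_B40pm_012_s1 Ext.none :=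
  certF0 (fam := false) (s1 := true) (s2 := false) (a := 0) (b := 1) (c := 2) (cn := .pnp) (n1 := ndB4q0) (n2 := ndB0q2) (pc := pcB1) (cut := cut_B40pm_012_s1) (xt := Ext.none) (P1 := 0) (W1 := 536870912) (P2 := 0) (W2 := 536870912) (P3 := 923417968) (W3 := 42949674)
    rfl k0_B40pm_012_s1

theorem s_B40pm_012_s1 {κ x : ℝ} (hκ : κ * h0 = ken x) (hx : ((923417968 : ℕ) : ℝ) / S ≤ x)
    (hx' : x ≤ (((923417968 : ℕ) : ℝ) + (42949674 : ℕ)) / S) :
    AltB (VFD κ) PP tK tL pcB [⟨3, 0, 0, 1449551462⟩] 0 1 2 4 0 (sgb true) (sgb false) x :=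
  strip_altBD (m := 1449551462) true rfl hκ (SH.κ0 hκ (SH.hx1 hx).le (SH.hx2 hx').le) (SH.hx1 hx).le (SH.hx2 hx') (covB40).cov (covB02).cov hx hx' c_B40pm_012_s1 cutB_nil (noExt_B)

noncomputable def cut_B40pm_022_s1 : Cut := Cut.of [[⟨4, 0, 0, 1449551462⟩]]

noncomputable def f_B40pm_022_s1 : ℕ → ℕ → ℕ → ℕ → Bool := onCell 0 536870912 0 536870912 923417968 42949674
    (rowF 0 false true false .pp 0 2 2 (qsf 0 536870912 0 536870912 2) ndB4q0 ndB0q2 pcB2 cut_B40pm_022_s1 Ext.none)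

def k0_B40pm_022_s1 : ∃ t, chk3 f_B40pm_022_s1 t 1 1 1 = true :=
  ⟨(l 6), by decide +kernel⟩

theorem c_B40pm_022_s1 : CertF 0 536870912 0 536870912 923417968 42949674 false true false .pp 0 2 2
    ndB4q0 ndB0q2 pcB2 cut_B40pm_022_s1 Ext.none :=
  certF0 (fam := false) (s1 := true) (s2 := false) (a := 0) (b := 2) (c := 2) (cn := .pp) (n1 := ndB4q0) (n2 := ndB0q2) (pc := pcB2) (cut := cut_B40pm_022_s1) (xt := Ext.none) (P1 := 0) (W1 := 536870912) (P2 := 0) (W2 := 536870912) (P3 := 923417968) (W3 := 42949674)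
    rfl k0_B40pm_022_s1

theorem s_B40pm_022_s1 {κ x : ℝ} (hκ : κ * h0 = ken x) (hx : ((923417968 : ℕ) : ℝ) / S ≤ x)
    (hx' : x ≤ (((923417968 : ℕ) : ℝ) + (42949674 : ℕ)) / S) :
    AltB (VFD κ) PP tK tL pcB [⟨3, 0, 0, 1449551462⟩] 0 2 2 4 0 (sgb true) (sgb false) x :=
  strip_altBD (m := 1449551462) true rfl hκ (SH.κ0 hκ (SH.hx1 hx).le (SH.hx2 hx').le) (SH.hx1 hx).le (SH.hx2 hx') (covB40).cov (covB02).cov hx hx' c_B40pm_022_s1 cutB_nil (noExt_B)

noncomputable def cut_B40pm_101_s1 : Cut := Cut.of [[⟨4, 0, 0, 1449551462⟩]]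

noncomputable def f_B40pm_101_s1 : ℕ → ℕ → ℕ → ℕ → Bool := onCell 536870912 536870912 536870912 536870912 923417968 42949674
    (rowF 0 false true false .npn 1 0 1 (qsf 536870912 536870912 536870912 536870912 0) ndB4q1 ndB0q1 pcB0 cut_B40pm_101_s1 Ext.none)

def k0_B40pm_101_s1 : ∃ t, chk3 f_B40pm_101_s1 t 1 1 1 = true :=
  ⟨(l 4), by decide +kernel⟩

theorem c_B40pm_101_s1 : CertF 536870912 536870912 536870912 536870912 923417968 42949674 false true false .npn 1 0 1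
    ndB4q1 ndB0q1 pcB0 cut_B40pm_101_s1 Ext.none :=
  certF0 (fam := false) (s1 := true) (s2 := false) (a := 1) (b := 0) (c := 1) (cn := .npn) (n1 := ndB4q1) (n2 := ndB0q1) (pc := pcB0) (cut := cut_B40pm_101_s1) (xt := Ext.none) (P1 := 536870912) (W1 := 536870912) (P2 := 536870912) (W2 := 536870912) (P3 := 923417968) (W3 := 42949674)
    rfl k0_B40pm_101_s1

theorem s_B40pm_101_s1 {κ x : ℝ} (hκ : κ * h0 = ken x) (hx : ((923417968 : ℕ) : ℝ) / S ≤ x)
    (hx' : x ≤ (((923417968 : ℕ) : ℝ) + (42949674 : ℕ)) / S) :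
    AltB (VFD κ) PP tK tL pcB [⟨3, 0, 0, 1449551462⟩] 1 0 1 4 0 (sgb true) (sgb false) x :=
  strip_altBD (m := 1449551462) true rfl hκ (SH.κ0 hκ (SH.hx1 hx).le (SH.hx2 hx').le) (SH.hx1 hx).le (SH.hx2 hx') (covB41).cov (covB01).cov hx hx' c_B40pm_101_s1 cutB_nil (noExt_B)

noncomputable def cut_B40pm_102_s1 : Cut := Cut.of [[⟨4, 0, 0, 1449551462⟩]]

noncomputable def f_B40pm_102_s1 : ℕ → ℕ → ℕ → ℕ → Bool := onCell 536870912 536870912 0 536870912 923417968 42949674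
    (rowF 0 false true false .npp 1 0 2 (qsf 536870912 536870912 0 536870912 0) ndB4q1 ndB0q2 pcB0 cut_B40pm_102_s1 Ext.none)

def k0_B40pm_102_s1 : ∃ t, chk3 f_B40pm_102_s1 t 1 1 1 = true :=
  ⟨(l 6), by decide +kernel⟩

theorem c_B40pm_102_s1 : CertF 536870912 536870912 0 536870912 923417968 42949674 false true false .npp 1 0 2
    ndB4q1 ndB0q2 pcB0 cut_B40pm_102_s1 Ext.none :=
  certF0 (fam := false) (s1 := true) (s2 := false) (a := 1) (b := 0) (c := 2) (cn := .npp) (n1 := ndB4q1) (n2 := ndB0q2) (pc := pcB0) (cut := cut_B40pm_102_s1) (xt := Ext.none) (P1 := 536870912) (W1 := 536870912) (P2 := 0) (W2 := 536870912) (P3 := 923417968) (W3 := 42949674)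
    rfl k0_B40pm_102_s1

theorem s_B40pm_102_s1 {κ x : ℝ} (hκ : κ * h0 = ken x) (hx : ((923417968 : ℕ) : ℝ) / S ≤ x)
    (hx' : x ≤ (((923417968 : ℕ) : ℝ) + (42949674 : ℕ)) / S) :
    AltB (VFD κ) PP tK tL pcB [⟨3, 0, 0, 1449551462⟩] 1 0 2 4 0 (sgb true) (sgb false) x :=
  strip_altBD (m := 1449551462) true rfl hκ (SH.κ0 hκ (SH.hx1 hx).le (SH.hx2 hx').le) (SH.hx1 hx).le (SH.hx2 hx') (covB41).cov (covB02).cov hx hx' c_B40pm_102_s1 cutB_nil (noExt_B)

noncomputable def cut_B40pm_112_s1 : Cut := Cut.of [[⟨4, 0, 0, 1449551462⟩]]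

noncomputable def f_B40pm_112_s1 : ℕ → ℕ → ℕ → ℕ → Bool := onCell 536870912 536870912 0 536870912 923417968 42949674
    (rowF 0 false true false .dn 1 1 2 (qsf 536870912 536870912 0 536870912 1) ndB4q1 ndB0q2 pcB1 cut_B40pm_112_s1 Ext.none)

def k0_B40pm_112_s1 : ∃ t, chk3 f_B40pm_112_s1 t 1 1 1 = true :=
  ⟨(l 6), by decide +kernel⟩

theorem c_B40pm_112_s1 : CertF 536870912 536870912 0 536870912 923417968 42949674 false true false .dn 1 1 2
    ndB4q1 ndB0q2 pcB1 cut_B40pm_112_s1 Ext.none :=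
  certF0 (fam := false) (s1 := true) (s2 := false) (a := 1) (b := 1) (c := 2) (cn := .dn) (n1 := ndB4q1) (n2 := ndB0q2) (pc := pcB1) (cut := cut_B40pm_112_s1) (xt := Ext.none) (P1 := 536870912) (W1 := 536870912) (P2 := 0) (W2 := 536870912) (P3 := 923417968) (W3 := 42949674)
    rfl k0_B40pm_112_s1

theorem s_B40pm_112_s1 {κ x : ℝ} (hκ : κ * h0 = ken x) (hx : ((923417968 : ℕ) : ℝ) / S ≤ x)
    (hx' : x ≤ (((923417968 : ℕ) : ℝ) + (42949674 : ℕ)) / S) :
    AltB (VFD κ) PP tK tL pcB [⟨3, 0, 0, 1449551462⟩] 1 1 2 4 0 (sgb true) (sgb false) x :=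
  strip_altBD (m := 1449551462) true rfl hκ (SH.κ0 hκ (SH.hx1 hx).le (SH.hx2 hx').le) (SH.hx1 hx).le (SH.hx2 hx') (covB41).cov (covB02).cov hx hx' c_B40pm_112_s1 cutB_nil (noExt_B)

noncomputable def cut_B40pm_202_s1 : Cut := Cut.of [[⟨4, 0, 0, 1449551462⟩]]

noncomputable def f_B40pm_202_s1 : ℕ → ℕ → ℕ → ℕ → Bool := onCell 0 536870912 0 536870912 923417968 42949674
    (rowF 2 false true false .pp 2 0 2 (qsf 1073741824 536870912 0 536870912 0) ndB4q2 ndB0q2 pcB0 cut_B40pm_202_s1 Ext.none)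

def k0_B40pm_202_s1 : ∃ t, chk3 f_B40pm_202_s1 t 1 1 1 = true :=
  ⟨(l 6), by decide +kernel⟩

theorem c_B40pm_202_s1 : CertF 1073741824 536870912 0 536870912 923417968 42949674 false true false .pp 2 0 2
    ndB4q2 ndB0q2 pcB0 cut_B40pm_202_s1 Ext.none :=
  certF2 (fam := false) (s1 := true) (s2 := false) (a := 2) (b := 0) (c := 2) (cn := .pp) (n1 := ndB4q2) (n2 := ndB0q2) (pc := pcB0) (cut := cut_B40pm_202_s1) (xt := Ext.none) (P1 := 1073741824) (W1 := 536870912) (P2 := 0) (W2 := 536870912) (P3 := 923417968) (W3 := 42949674)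
    rfl (fun _ => rfl) k0_B40pm_202_s1

theorem s_B40pm_202_s1 {κ x : ℝ} (hκ : κ * h0 = ken x) (hx : ((923417968 : ℕ) : ℝ) / S ≤ x)
    (hx' : x ≤ (((923417968 : ℕ) : ℝ) + (42949674 : ℕ)) / S) :
    AltB (VFD κ) PP tK tL pcB [⟨3, 0, 0, 1449551462⟩] 2 0 2 4 0 (sgb true) (sgb false) x :=
  strip_altBD (m := 1449551462) true rfl hκ (SH.κ0 hκ (SH.hx1 hx).le (SH.hx2 hx').le) (SH.hx1 hx).le (SH.hx2 hx') (covB42).cov (covB02).cov hx hx' c_B40pm_202_s1 cutB_nil (noExt_B)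

noncomputable def cut_B40mm_001_s1 : Cut := Cut.of [[⟨4, 0, 0, 1449551462⟩]]

noncomputable def f_B40mm_001_s1 : ℕ → ℕ → ℕ → ℕ → Bool := onCell 0 536870912 536870912 536870912 923417968 42949674
    (rowF 0 false false false .up 0 0 1 (qsf 0 536870912 536870912 536870912 0) ndB4q0 ndB0q1 pcB0 cut_B40mm_001_s1 Ext.none)

def k0_B40mm_001_s1 : ∃ t, chk3 f_B40mm_001_s1 t 1 1 1 = true :=
  ⟨(l 5), by decide +kernel⟩

theorem c_B40mm_001_s1 : CertF 0 536870912 536870912 536870912 923417968 42949674 false false false .up 0 0 1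
    ndB4q0 ndB0q1 pcB0 cut_B40mm_001_s1 Ext.none :=
  certF0 (fam := false) (s1 := false) (s2 := false) (a := 0) (b := 0) (c := 1) (cn := .up) (n1 := ndB4q0) (n2 := ndB0q1) (pc := pcB0) (cut := cut_B40mm_001_s1) (xt := Ext.none) (P1 := 0) (W1 := 536870912) (P2 := 536870912) (W2 := 536870912) (P3 := 923417968) (W3 := 42949674)
    rfl k0_B40mm_001_s1

theorem s_B40mm_001_s1 {κ x : ℝ} (hκ : κ * h0 = ken x) (hx : ((923417968 : ℕ) : ℝ) / S ≤ x)
    (hx' : x ≤ (((923417968 : ℕ) : ℝ) + (42949674 : ℕ)) / S) :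
    AltB (VFD κ) PP tK tL pcB [⟨3, 0, 0, 1449551462⟩] 0 0 1 4 0 (sgb false) (sgb false) x :=
  strip_altBD (m := 1449551462) true rfl hκ (SH.κ0 hκ (SH.hx1 hx).le (SH.hx2 hx').le) (SH.hx1 hx).le (SH.hx2 hx') (covB40).cov (covB01).cov hx hx' c_B40mm_001_s1 cutB_nil (noExt_B)

noncomputable def cut_B40mm_011_s1 : Cut := Cut.of [[⟨4, 0, 0, 1449551462⟩]]

noncomputable def f_B40mm_011_s1 : ℕ → ℕ → ℕ → ℕ → Bool := onCell 0 536870912 536870912 536870912 923417968 42949674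
    (rowF 0 false false false .pnn 0 1 1 (qsf 0 536870912 536870912 536870912 1) ndB4q0 ndB0q1 pcB1 cut_B40mm_011_s1 Ext.none)

def k0_B40mm_011_s1 : ∃ t, chk3 f_B40mm_011_s1 t 1 1 1 = true :=
  ⟨(l 5), by decide +kernel⟩

theorem c_B40mm_011_s1 : CertF 0 536870912 536870912 536870912 923417968 42949674 false false false .pnn 0 1 1
    ndB4q0 ndB0q1 pcB1 cut_B40mm_011_s1 Ext.none :=
  certF0 (fam := false) (s1 := false) (s2 := false) (a := 0) (b := 1) (c := 1) (cn := .pnn) (n1 := ndB4q0) (n2 := ndB0q1) (pc := pcB1) (cut := cut_B40mm_011_s1) (xt := Ext.none) (P1 := 0) (W1 := 536870912) (P2 := 536870912) (W2 := 536870912) (P3 := 923417968) (W3 := 42949674)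
    rfl k0_B40mm_011_s1

theorem s_B40mm_011_s1 {κ x : ℝ} (hκ : κ * h0 = ken x) (hx : ((923417968 : ℕ) : ℝ) / S ≤ x)
    (hx' : x ≤ (((923417968 : ℕ) : ℝ) + (42949674 : ℕ)) / S) :
    AltB (VFD κ) PP tK tL pcB [⟨3, 0, 0, 1449551462⟩] 0 1 1 4 0 (sgb false) (sgb false) x :=
  strip_altBD (m := 1449551462) true rfl hκ (SH.κ0 hκ (SH.hx1 hx).le (SH.hx2 hx').le) (SH.hx1 hx).le (SH.hx2 hx') (covB40).cov (covB01).cov hx hx' c_B40mm_011_s1 cutB_nil (noExt_B)

noncomputable def cut_B40mm_012_s1 : Cut := Cut.of [[⟨4, 0, 0, 1449551462⟩]]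

noncomputable def f_B40mm_012_s1 : ℕ → ℕ → ℕ → ℕ → Bool := onCell 0 536870912 0 536870912 923417968 42949674
    (rowF 0 false false false .pnp 0 1 2 (qsf 0 536870912 0 536870912 1) ndB4q0 ndB0q2 pcB1 cut_B40mm_012_s1 Ext.none)

def k0_B40mm_012_s1 : ∃ t, chk3 f_B40mm_012_s1 t 1 1 1 = true :=
  ⟨(l 5), by decide +kernel⟩

theorem c_B40mm_012_s1 : CertF 0 536870912 0 536870912 923417968 42949674 false false false .pnp 0 1 2
    ndB4q0 ndB0q2 pcB1 cut_B40mm_012_s1 Ext.none :=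
  certF0 (fam := false) (s1 := false) (s2 := false) (a := 0) (b := 1) (c := 2) (cn := .pnp) (n1 := ndB4q0) (n2 := ndB0q2) (pc := pcB1) (cut := cut_B40mm_012_s1) (xt := Ext.none) (P1 := 0) (W1 := 536870912) (P2 := 0) (W2 := 536870912) (P3 := 923417968) (W3 := 42949674)
    rfl k0_B40mm_012_s1

theorem s_B40mm_012_s1 {κ x : ℝ} (hκ : κ * h0 = ken x) (hx : ((923417968 : ℕ) : ℝ) / S ≤ x)
    (hx' : x ≤ (((923417968 : ℕ) : ℝ) + (42949674 : ℕ)) / S) :
    AltB (VFD κ) PP tK tL pcB [⟨3, 0, 0, 1449551462⟩] 0 1 2 4 0 (sgb false) (sgb false) x :=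
  strip_altBD (m := 1449551462) true rfl hκ (SH.κ0 hκ (SH.hx1 hx).le (SH.hx2 hx').le) (SH.hx1 hx).le (SH.hx2 hx') (covB40).cov (covB02).cov hx hx' c_B40mm_012_s1 cutB_nil (noExt_B)

noncomputable def cut_B40mm_022_s1 : Cut := Cut.of [[⟨4, 0, 0, 1449551462⟩]]

noncomputable def f_B40mm_022_s1 : ℕ → ℕ → ℕ → ℕ → Bool := onCell 0 536870912 0 536870912 923417968 42949674
    (rowF 0 false false false .pp 0 2 2 (qsf 0 536870912 0 536870912 2) ndB4q0 ndB0q2 pcB2 cut_B40mm_022_s1 Ext.none)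

def k0_B40mm_022_s1 : ∃ t, chk3 f_B40mm_022_s1 t 1 1 1 = true :=
  ⟨(l 5), by decide +kernel⟩

theorem c_B40mm_022_s1 : CertF 0 536870912 0 536870912 923417968 42949674 false false false .pp 0 2 2
    ndB4q0 ndB0q2 pcB2 cut_B40mm_022_s1 Ext.none :=
  certF0 (fam := false) (s1 := false) (s2 := false) (a := 0) (b := 2) (c := 2) (cn := .pp) (n1 := ndB4q0) (n2 := ndB0q2) (pc := pcB2) (cut := cut_B40mm_022_s1) (xt := Ext.none) (P1 := 0) (W1 := 536870912) (P2 := 0) (W2 := 536870912) (P3 := 923417968) (W3 := 42949674)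
    rfl k0_B40mm_022_s1

theorem s_B40mm_022_s1 {κ x : ℝ} (hκ : κ * h0 = ken x) (hx : ((923417968 : ℕ) : ℝ) / S ≤ x)
    (hx' : x ≤ (((923417968 : ℕ) : ℝ) + (42949674 : ℕ)) / S) :
    AltB (VFD κ) PP tK tL pcB [⟨3, 0, 0, 1449551462⟩] 0 2 2 4 0 (sgb false) (sgb false) x :=
  strip_altBD (m := 1449551462) true rfl hκ (SH.κ0 hκ (SH.hx1 hx).le (SH.hx2 hx').le) (SH.hx1 hx).le (SH.hx2 hx') (covB40).cov (covB02).cov hx hx' c_B40mm_022_s1 cutB_nil (noExt_B)

noncomputable def cut_B40mm_101_s1 : Cut := Cut.of [[⟨4, 0, 0, 1449551462⟩]]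

noncomputable def f_B40mm_101_s1 : ℕ → ℕ → ℕ → ℕ → Bool := onCell 0 536870912 536870912 536870912 923417968 42949674
    (rowF 2 false false false .npn 1 0 1 (qsf 536870912 536870912 536870912 536870912 0) ndB4q1 ndB0q1 pcB0 cut_B40mm_101_s1 Ext.none)

def k0_B40mm_101_s1 : ∃ t, chk3 f_B40mm_101_s1 t 1 1 1 = true :=
  ⟨(l 5), by decide +kernel⟩

theorem c_B40mm_101_s1 : CertF 536870912 536870912 536870912 536870912 923417968 42949674 false false false .npn 1 0 1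
    ndB4q1 ndB0q1 pcB0 cut_B40mm_101_s1 Ext.none :=
  certF2 (fam := false) (s1 := false) (s2 := false) (a := 1) (b := 0) (c := 1) (cn := .npn) (n1 := ndB4q1) (n2 := ndB0q1) (pc := pcB0) (cut := cut_B40mm_101_s1) (xt := Ext.none) (P1 := 536870912) (W1 := 536870912) (P2 := 536870912) (W2 := 536870912) (P3 := 923417968) (W3 := 42949674)
    rfl (fun _ => rfl) k0_B40mm_101_s1

theorem s_B40mm_101_s1 {κ x : ℝ} (hκ : κ * h0 = ken x) (hx : ((923417968 : ℕ) : ℝ) / S ≤ x)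
    (hx' : x ≤ (((923417968 : ℕ) : ℝ) + (42949674 : ℕ)) / S) :
    AltB (VFD κ) PP tK tL pcB [⟨3, 0, 0, 1449551462⟩] 1 0 1 4 0 (sgb false) (sgb false) x :=
  strip_altBD (m := 1449551462) true rfl hκ (SH.κ0 hκ (SH.hx1 hx).le (SH.hx2 hx').le) (SH.hx1 hx).le (SH.hx2 hx') (covB41).cov (covB01).cov hx hx' c_B40mm_101_s1 cutB_nil (noExt_B)

noncomputable def cut_B40mm_102_s1 : Cut := Cut.of [[⟨4, 0, 0, 1449551462⟩]]

noncomputable def f_B40mm_102_s1 : ℕ → ℕ → ℕ → ℕ → Bool := onCell 536870912 536870912 0 536870912 923417968 42949674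
    (rowF 0 false false false .npp 1 0 2 (qsf 536870912 536870912 0 536870912 0) ndB4q1 ndB0q2 pcB0 cut_B40mm_102_s1 Ext.none)

def k0_B40mm_102_s1 : ∃ t, chk3 f_B40mm_102_s1 t 1 1 1 = true :=
  ⟨(l 5), by decide +kernel⟩

theorem c_B40mm_102_s1 : CertF 536870912 536870912 0 536870912 923417968 42949674 false false false .npp 1 0 2
    ndB4q1 ndB0q2 pcB0 cut_B40mm_102_s1 Ext.none :=
  certF0 (fam := false) (s1 := false) (s2 := false) (a := 1) (b := 0) (c := 2) (cn := .npp) (n1 := ndB4q1) (n2 := ndB0q2) (pc := pcB0) (cut := cut_B40mm_102_s1) (xt := Ext.none) (P1 := 536870912) (W1 := 536870912) (P2 := 0) (W2 := 536870912) (P3 := 923417968) (W3 := 42949674)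
    rfl k0_B40mm_102_s1

theorem s_B40mm_102_s1 {κ x : ℝ} (hκ : κ * h0 = ken x) (hx : ((923417968 : ℕ) : ℝ) / S ≤ x)
    (hx' : x ≤ (((923417968 : ℕ) : ℝ) + (42949674 : ℕ)) / S) :
    AltB (VFD κ) PP tK tL pcB [⟨3, 0, 0, 1449551462⟩] 1 0 2 4 0 (sgb false) (sgb false) x :=
  strip_altBD (m := 1449551462) true rfl hκ (SH.κ0 hκ (SH.hx1 hx).le (SH.hx2 hx').le) (SH.hx1 hx).le (SH.hx2 hx') (covB41).cov (covB02).cov hx hx' c_B40mm_102_s1 cutB_nil (noExt_B)

noncomputable def cut_B40mm_112_s1 : Cut := Cut.of [[⟨4, 0, 0, 1449551462⟩]]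

noncomputable def f_B40mm_112_s1 : ℕ → ℕ → ℕ → ℕ → Bool := onCell 536870912 536870912 0 536870912 923417968 42949674
    (rowF 0 false false false .dn 1 1 2 (qsf 536870912 536870912 0 536870912 1) ndB4q1 ndB0q2 pcB1 cut_B40mm_112_s1 Ext.none)

def k0_B40mm_112_s1 : ∃ t, chk3 f_B40mm_112_s1 t 1 1 1 = true :=
  ⟨(l 5), by decide +kernel⟩

theorem c_B40mm_112_s1 : CertF 536870912 536870912 0 536870912 923417968 42949674 false false false .dn 1 1 2
    ndB4q1 ndB0q2 pcB1 cut_B40mm_112_s1 Ext.none :=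
  certF0 (fam := false) (s1 := false) (s2 := false) (a := 1) (b := 1) (c := 2) (cn := .dn) (n1 := ndB4q1) (n2 := ndB0q2) (pc := pcB1) (cut := cut_B40mm_112_s1) (xt := Ext.none) (P1 := 536870912) (W1 := 536870912) (P2 := 0) (W2 := 536870912) (P3 := 923417968) (W3 := 42949674)
    rfl k0_B40mm_112_s1

theorem s_B40mm_112_s1 {κ x : ℝ} (hκ : κ * h0 = ken x) (hx : ((923417968 : ℕ) : ℝ) / S ≤ x)
    (hx' : x ≤ (((923417968 : ℕ) : ℝ) + (42949674 : ℕ)) / S) :
    AltB (VFD κ) PP tK tL pcB [⟨3, 0, 0, 1449551462⟩] 1 1 2 4 0 (sgb false) (sgb false) x :=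
  strip_altBD (m := 1449551462) true rfl hκ (SH.κ0 hκ (SH.hx1 hx).le (SH.hx2 hx').le) (SH.hx1 hx).le (SH.hx2 hx') (covB41).cov (covB02).cov hx hx' c_B40mm_112_s1 cutB_nil (noExt_B)

noncomputable def cut_B40mm_202_s1 : Cut := Cut.of [[⟨4, 0, 0, 1449551462⟩]]

noncomputable def f_B40mm_202_s1 : ℕ → ℕ → ℕ → ℕ → Bool := onCell 1073741824 536870912 0 536870912 923417968 42949674
    (rowF 0 false false false .pp 2 0 2 (qsf 1073741824 536870912 0 536870912 0) ndB4q2 ndB0q2 pcB0 cut_B40mm_202_s1 Ext.none)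

def k0_B40mm_202_s1 : ∃ t, chk3 f_B40mm_202_s1 t 1 1 1 = true :=
  ⟨(l 5), by decide +kernel⟩

theorem c_B40mm_202_s1 : CertF 1073741824 536870912 0 536870912 923417968 42949674 false false false .pp 2 0 2
    ndB4q2 ndB0q2 pcB0 cut_B40mm_202_s1 Ext.none :=
  certF0 (fam := false) (s1 := false) (s2 := false) (a := 2) (b := 0) (c := 2) (cn := .pp) (n1 := ndB4q2) (n2 := ndB0q2) (pc := pcB0) (cut := cut_B40mm_202_s1) (xt := Ext.none) (P1 := 1073741824) (W1 := 536870912) (P2 := 0) (W2 := 536870912) (P3 := 923417968) (W3 := 42949674)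
    rfl k0_B40mm_202_s1

theorem s_B40mm_202_s1 {κ x : ℝ} (hκ : κ * h0 = ken x) (hx : ((923417968 : ℕ) : ℝ) / S ≤ x)
    (hx' : x ≤ (((923417968 : ℕ) : ℝ) + (42949674 : ℕ)) / S) :
    AltB (VFD κ) PP tK tL pcB [⟨3, 0, 0, 1449551462⟩] 2 0 2 4 0 (sgb false) (sgb false) x :=
  strip_altBD (m := 1449551462) true rfl hκ (SH.κ0 hκ (SH.hx1 hx).le (SH.hx2 hx').le) (SH.hx1 hx).le (SH.hx2 hx') (covB42).cov (covB02).cov hx hx' c_B40mm_202_s1 cutB_nil (noExt_B)

end Pool.Agent.Strip051.G.I8600_9000.Tab.St.C
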