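import Pool.Agent.Strip051.G.I8600_9000.Tab
import Pool.Agent.Strip051.PB.StripB

/-! # Strips, near vertex: certificates 7 (generated) -/

set_option linter.all false
set_option maxRecDepth 100000

namespace Pool.Agent.Strip051.G.I8600_9000.Tab.CS.BB00

open Pool.Agent.Strip051.PB Pool.Agent.Strip051.PB.T
open Pool.Agent.Strip051.G.I8600_9000.Tab

noncomputable def cut_pm_101_t : Cut := Cut.of [[⟨3, 0, 0, 2845415833⟩], [⟨0, 1, 0, 33554432⟩, ⟨1, 0, 0, 33554432⟩, ⟨2, 1, 0, 33554432⟩], [⟨0, 0, 1, 20971520⟩, ⟨1, 1, 2, 20971520⟩, ⟨2, 1, 0, 8388608⟩]]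

noncomputable def f_pm_101_t : ℕ → ℕ → ℕ → ℕ → Bool := onCell 536870912 536870912 0 536870912 923417968 42949674
    (rowNE 3 eng mog cd0q1 cd0q1 pd0 1 false true false .npn 1 0 1 (qsf 536870912 536870912 536870912 536870912 0) ndB0q1 ndB0q1 pcB0 cut_pm_101_t Ext.none)

def k0_pm_101_t : ∃ t, chk3 f_pm_101_t t 4 8 1 = true :=
  ⟨(a (a (l 4) (b (a (l 4) (b (l 4) (a (l 4) (b (l 4) (l 114051427943))))) (a (b (l 4) (a (l 4) (b (l 4) (l 114051428087)))) (b (a (b (l 4) (l 114051428263)) (b (b (l 16750288) (l 16753672)) (l 16760080))) (a (b (c (l 16742464) (l 16752984)) (l 16760112)) (b (l 16751368) (l 16695128))))))) (a (b (b (a (a (b (l 4) (l 114051428407)) (b (b (l 16747472) (l 16753664)) (l 16759704))) (c (a (l 16743816) (l 16734792)) (b (l 16731536) (l 16652872)))) (a (b (a (b (l 16750152) (l 16753704)) (l 16750440)) (a (l 16759944) (l 16693400))) (c (l 16742160) (l 16756272)))) (b (a (c (b (l 16737224) (l 16723176)) (l 16747888)) (c (l 16694336) (l 16707576))) (a (b (l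 16749400) (a (l 16708392) (l 16680048))) (c (l 16669272) (l 16661712))))) (b (b (a (c (l 16690456) (l 16699576)) (c (l 16612152) (l 16592760))) (a (c (l 16643064) (l 16630256)) (c (l 16587944) (l 16568608)))) (b (a (c (l 16618456) (l 16605760)) (c (l 16565096) (l 16546624))) (c (a (l 16595072) (l 16543560)) (a (l 16583280) (l 16526816))))))), by decide +kernel⟩

def k1_pm_101_t : ∃ t, chk3 f_pm_101_t t 4 9 1 = true :=
  ⟨(a (a (b (a (l 4) (b (l 4) (a (l 4) (b (l 4) (l 114051427575))))) (a (b (l 4) (b (l 4) (c (l 194582104583) (l 192971491767)))) (b (a (b (l 4) (b (l 4) (l 114051446791))) (b (b (l 16749136) (l 16752896)) (l 16759608))) (b (a (b (l 16749088) (l 16752504)) (l 16751944)) (a (l 16764480) (l 16697288)))))) (b (b (a (a (b (l 4) (l 114051427415)) (b (c (l 16742784) (l 16753328)) (l 16760048))) (c (b (l 16738160) (l 16724656)) (l 16750752))) (a (b (a (c (l 16743176) (l 16753752)) (l 16751864)) (a (l 16759880) (l 16696416))) (b (c (l 16648616) (l 16689048)) (c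 (l 16719880) (l 16697768))))) (b (a (c (b (l 16738688) (l 16725832)) (b (l 16738528) (l 16726072))) (c (b (l 16686416) (l 16674224)) (l 16721912))) (a (c (b (l 16713080) (l 16658688)) (b (l 16713824) (l 16681072))) (c (l 16677152) (b (l 16663064) (l 16651872))))))) (b (a (b (a (b (l 16723160) (l 16710920)) (c (l 16624352) (l 16617720))) (a (c (l 16673752) (l 16691880)) (c (l 16601496) (l 16596536)))) (b (c (a (l 16572880) (l 16522504)) (a (l 16562784) (l 16508008))) (c (a (l 16550976) (l 16501592)) (a (l 16543040) (l 16489736))))) (a (b (a (c (l 16629280) (l 16628072)) (c (l 16578776) (l 16575864))) (c (a (l 16605800) (l 16555912)) (a (l 16606504) (l 16555232)))) (b (c (a (l 16529056) (l 16480144)) (a (l 16523568) (l 16471064))) (c (a (l 16506456) (l 16458992)) (a (l 16503424) (l 16452856))))))), by decide +kernel⟩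

def k2_pm_101_t : ∃ t, chk3 f_pm_101_t t 8 5 1 = true :=
  ⟨(b (a (b (b (a (a (b (l 4) (c (l 113514562199) (l 114051435687))) (b (c (l 16753856) (l 16754256)) (l 16762760))) (a (b (l 16751896) (l 16718368)) (b (l 16726784) (l 16714608)))) (b (a (a (c (l 16753480) (l 16753976)) (l 16751576)) (c (l 16713560) (l 16716120))) (a (a (l 16763408) (l 16718208)) (c (l 16700936) (l 16704272))))) (b (b (a (c (l 16737888) (l 16739960)) (c (l 16646304) (l 16692352))) (a (c (l 16704072) (l 16727872)) (c (l 16654520) (l 16680328)))) (a (c (b (l 16712160) (l 16699200)) (b (l 16715712) (l 16703432))) (c (l 16698096) (l 16661992))))) (b (b (a (c (l 16724096) (c (l 16642000) (l 16664736))) (c (l 16652960) (l 16572120))) (a (c (b (l 16663592) (l 16651104)) (l 16661584)) (c (l 16628456) (l 16549384)))) (c (b (a (b (l 16638520) (l 16625832)) (l 16603072)) (a (b (l 16613024) (l 16599896)) (l 16578104))) (b (a (l 16637952) (l 16588392)) (a (l 16613144) (l 16564696)))))) (b (a (b (c (a (c (l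 16594480) (l 16680816)) (l 16650624)) (a (b (l 16691000) (l 16678376)) (l 16636472))) (c (a (c (l 16588232) (l 16654232)) (l 16603688)) (a (l 16616632) (l 16611200)))) (b (c (a (c (l 16578840) (l 16582512)) (l 16553736)) (a (l 16588576) (l 16541304))) (c (a (l 16555768) (l 16552288)) (a (l 16564368) (l 16519608))))) (a (b (a (c (c (l 16582544) (l 16628256)) (l 16632784)) (c (l 16578488) (l 16586392))) (c (a (l 16642880) (l 16555416)) (a (l 16604344) (l 16558944)))) (c (b (a (l 16532968) (l 16489536)) (a (l 16511872) (l 16470160))) (b (a (l 16541912) (l 16498960)) (a (l 16514688) (l 16471360))))))), by decide +kernel⟩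

def k3_pm_101_t : ∃ t, chk3 f_pm_101_t t 9 5 1 = true :=
  ⟨(b (b (a (c (b (a (l 16582072) (l 16532264)) (a (l 16557488) (l 16508904))) (b (a (l 16584776) (l 16533712)) (a (l 16561984) (l 16512408)))) (a (b (c (l 16484128) (l 16483608)) (c (l 16462152) (l 16463976))) (l 6))) (a (c (b (a (l 16533232) (l 16485944)) (a (l 16509488) (l 16464696))) (b (a (l 16539376) (l 16491288)) (a (l 16517000) (l 16471696)))) (l 6))) (b (a (a (c (b (l 16487584) (l 16467160)) (b (l 16496248) (l 16476584))) (l 6)) (l 6)) (l 6))), by decide +kernel⟩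

def k4_pm_101_t : ∃ t, chk3 f_pm_101_t t 5 2 1 = true :=
  ⟨(b (a (a (a (b (b (b (c (l 16557048) (l 16529384)) (c (l 16534664) (l 16507856))) (b (c (l 16513752) (l 16488672)) (c (l 16493544) (l 16470792)))) (b (b (c (l 16473680) (l 16453752)) (c (l 16453472) (l 16436624))) (l 6))) (b (b (b (c (l 16504168) (l 16467168)) (c (l 16483792) (l 16448544))) (b (c (l 16464408) (l 16431552)) (c (l 16445600) (l 16415728)))) (l 6))) (b (a (b (b (c (l 16454024) (l 16406432)) (c (l 16435360) (l 16390264))) (l 6)) (l 6)) (l 6))) (l 6)) (b (l 6) (l 6))), by decide +kernel⟩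

def k5_pm_101_t : ∃ t, chk3 f_pm_101_t t 2 3 1 = true :=
  ⟨(a (a (b (a (a (b (b (b (c (c (l 16574808) (l 16580288)) (l 16572608)) (c (c (l 16552768) (l 16559432)) (l 16537312))) (c (b (c (l 16532312) (l 16537544)) (c (l 16513192) (l 16511424))) (b (c (l 16515056) (l 16479408)) (b (l 16466928) (l 16360896))))) (a (b (b (c (l 16506872) (c (l 16450096) (l 16395392))) (l 6)) (l 6)) (l 6))) (b (b (b (c (l 16534152) (l 16526416)) (c (c (l 16510376) (l 16518272)) (l 16489384))) (a (b (c (l 16506552) (l 16460760)) (l 6)) (l 6))) (l 6))) (a (b (b (b (c (l 16492360) (l 16480880)) (c (l 16474272) (l 16441712))) (l 6)) (l 6)) (l 6))) (l 6)) (b (l 6) (l 6))) (b (l 6) (l 6))), by decide +kernel⟩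

def k6_pm_101_t : ∃ t, chk3 f_pm_101_t t 3 1 1 = true :=
  ⟨(b (a (l 6) (l 6)) (l 6)), by decide +kernel⟩

theorem s7_pm_101_t : ∃ t, chk3 f_pm_101_t t 4 5 1 = true := ex3_a k2_pm_101_t k3_pm_101_t

theorem s8_pm_101_t : ∃ t, chk3 f_pm_101_t t 4 4 1 = true := ex3_b k0_pm_101_t k1_pm_101_t

theorem s9_pm_101_t : ∃ t, chk3 f_pm_101_t t 4 2 1 = true := ex3_b s8_pm_101_t s7_pm_101_t

theorem s10_pm_101_t : ∃ t, chk3 f_pm_101_t t 2 2 1 = true := ex3_a s9_pm_101_t k4_pm_101_t

theorem s11_pm_101_t : ∃ t, chk3 f_pm_101_t t 2 1 1 = true := ex3_b s10_pm_101_t k5_pm_101_t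

theorem s12_pm_101_t : ∃ t, chk3 f_pm_101_t t 1 1 1 = true := ex3_a s11_pm_101_t k6_pm_101_t

theorem c_pm_101_t : CertNE 536870912 536870912 536870912 536870912 923417968 42949674 3 eng mog cd0q1 cd0q1 pd0 false true false .npn 1 0 1
    ndB0q1 ndB0q1 pcB0 cut_pm_101_t Ext.none :=
  certNE1 (fam := false) (s1 := true) (s2 := false) (a := 1) (b := 0) (c := 1) (cn := .npn) (n1 := ndB0q1) (n2 := ndB0q1) (pc := pcB0) (cut := cut_pm_101_t) (xt := Ext.none) (P1 := 536870912) (W1 := 536870912) (P2 := 536870912) (W2 := 536870912) (P3 := 923417968) (W3 := 42949674) (N0 := 3) (En := eng) (mo := mog) (C1 := cd0q1) (C2 := cd0q1) (C3 := pd0)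
    rfl (fun _ => rfl) s12_pm_101_t

end Pool.Agent.Strip051.G.I8600_9000.Tab.CS.BB00

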