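import Pool.Agent.Strip051.G.I8600_9000.Tab
import Pool.Agent.Strip051.PB.StripB

/-! # Strips, near vertex: certificates 9 (generated) -/

set_option linter.all false
set_option maxRecDepth 100000

namespace Pool.Agent.Strip051.G.I8600_9000.Tab.CS.BB00

open Pool.Agent.Strip051.PB Pool.Agent.Strip051.PB.T
open Pool.Agent.Strip051.G.I8600_9000.Tab

noncomputable def cut_pm_102_t : Cut := Cut.of [[⟨3, 0, 0, 2845415833⟩], [⟨0, 1, 0, 53687091⟩, ⟨1, 0, 0, 53687091⟩, ⟨2, 1, 0, 53687091⟩], [⟨0, 0, 1, 20971520⟩, ⟨1, 1, 2, 20971520⟩, ⟨2, 1, 0, 8388608⟩]]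

noncomputable def f_pm_102_t : ℕ → ℕ → ℕ → ℕ → Bool := onCell 536870912 536870912 0 536870912 923417968 42949674
    (rowNE 3 eng mog cd0q1 cd0q2 pd0 0 false true false .npp 1 0 2 (qsf 536870912 536870912 0 536870912 0) ndB0q1 ndB0q2 pcB0 cut_pm_102_t Ext.none)

def k0_pm_102_t : ∃ t, chk3 f_pm_102_t t 1 1 1 = true :=
  ⟨(l 6), by decide +kernel⟩

theorem c_pm_102_t : CertNE 536870912 536870912 0 536870912 923417968 42949674 3 eng mog cd0q1 cd0q2 pd0 false true false .npp 1 0 2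
    ndB0q1 ndB0q2 pcB0 cut_pm_102_t Ext.none :=
  certNE0 (fam := false) (s1 := true) (s2 := false) (a := 1) (b := 0) (c := 2) (cn := .npp) (n1 := ndB0q1) (n2 := ndB0q2) (pc := pcB0) (cut := cut_pm_102_t) (xt := Ext.none) (P1 := 536870912) (W1 := 536870912) (P2 := 0) (W2 := 536870912) (P3 := 923417968) (W3 := 42949674) (N0 := 3) (En := eng) (mo := mog) (C1 := cd0q1) (C2 := cd0q2) (C3 := pd0)
    rfl k0_pm_102_t

noncomputable def cut_pm_112_s : Cut := Cut.of [[⟨4, 0, 0, 1449551462⟩]]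

noncomputable def f_pm_112_s : ℕ → ℕ → ℕ → ℕ → Bool := onCell 536870912 536870912 0 536870912 923417968 42949674
    (rowNE 3 eng mog cd0q1 cd0q2 pd1 2 false true false .dn 1 1 2 (qsf 536870912 536870912 0 536870912 1) ndB0q1 ndB0q2 pcB1 cut_pm_112_s Ext.none)

def k0_pm_112_s : ∃ t, chk3 f_pm_112_s t 8 4 1 = true :=
  ⟨(b (a (b (l 3) (a (b (l 3) (l 128479791079)) (b (l 129553536215) (a (b (l 16770112) (l 16747536)) (b (l 16748264) (l 16747568)))))) (b (a (l 183777571063) (b (l 131701022695) (a (b (l 16769104) (l 16770816)) (b (l 16771168) (l 16752064))))) (a (b (a (b (l 16769520) (l 16748880)) (b (l 16770376) (l 16750112))) (c (a (l 16733736) (l 16688824)) (l 16708624))) (c (b (a (l 16736752) (l 16692712)) (b (l 16667152) (l 16663464))) (b (l 16711624) (l 16648528)))))) (a (a (b (b (a (b (l 16770928) (l 32916828583)) (b (l 37211798471) (l 16744360))) (c (a (l 16714976) (l 16657680)) (a (l 16732712) (l 16689600)))) (b (c (a (l 16667344) (l 16642904))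 (l 16588280)) (c (a (l 16608848) (l 16585856)) (l 16580560)))) (c (b (b (a (l 16730016) (l 16684176)) (c (l 16596384) (l 16645912))) (b (a (l 16619600) (l 16597368)) (a (l 16563952) (l 16543104)))) (b (b (a (l 16736712) (l 16694456)) (l 16616392)) (a (l 16555272) (l 16557992))))) (c (b (a (b (b (l 16661856) (l 16656920)) (a (l 16628880) (l 16607408))) (b (a (l 16636936) (l 16616200)) (l 16577032))) (a (b (l 16586936) (l 16513720)) (b (l 16527512) (l 16477864)))) (b (a (a (l 16588800) (l 16590968)) (b (l 16648352) (l 16606224))) (a (b (l 16596528) (l 16551904)) (b (l 16564032) (l 16521760))))))), by decide +kernel⟩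

def k1_pm_112_s : ∃ t, chk3 f_pm_112_s t 8 5 1 = true :=
  ⟨(b (a (b (c (a (b (a (l 16550008) (l 16528496)) (a (l 16490856) (l 16470872))) (b (l 16517872) (l 16453296))) (a (a (l 16451432) (l 16475920)) (b (l 16538088) (l 16490616)))) (c (a (b (c (l 16410752) (l 16433944)) (c (l 16350312) (l 16377344))) (c (b (l 16374504) (l 16317224)) (l 16373744))) (a (b (l 16471920) (l 16421616)) (b (l 16443032) (l 16395600))))) (c (a (b (b (l 16461304) (l 16408760)) (c (b (l 16342128) (l 16287880)) (l 16324416))) (b (c (l 16369672) (l 16416304)) (c (b (l 16313376) (l 16262056)) (l 16299408)))) (b (a (b (l 16507144) (l 16462288)) (b (l 16479432) (l 16437088))) (a (c (l 16377968) (l 16412736)) (c (l 16355384) (l 16392744)))))) (a (b (c (a (c (b (a (l 16298104) (l 16282208)) (a (l 16237192) (l 16222952))) (b (l 16320960) (l 16264784))) (c (b (l 16260152) (a (l 16209624) (l 16197176))) (b (l 16293640) (l 16240592)))) (b (a (l 16371584) (l 16348464)) (a (l 16321816) (l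 16301624)))) (b (c (a (c (a (l 16176472) (l 16163904)) (l 16208856)) (c (a (l 16152216) (l 6)) (l 16187816))) (a (l 16272336) (l 16255112))) (a (a (a (b (c (l 16154072) (l 16241744)) (l 6)) (l 6)) (l 6)) (l 6)))) (b (b (a (c (c (l 16233872) (l 16269704)) (l 16328336)) (c (c (l 16211000) (l 16248952)) (l 16311000))) (a (c (c (l 16180128) (l 16219648)) (l 16284296)) (l 6))) (l 6)))), by decide +kernel⟩

def k2_pm_112_s : ∃ t, chk3 f_pm_112_s t 9 2 1 = true :=
  ⟨(b (a (a (b (b (b (a (l 122037362935) (b (l 16771656) (l 16753488))) (c (l 16706904) (l 16735016))) (c (b (l 16597008) (l 16570968)) (c (l 16607344) (l 16637632)))) (c (b (b (l 16586856) (l 16539816)) (c (l 16458736) (l 16479992))) (b (l 16489888) (l 16451816)))) (b (b (c (b (l 16709128) (l 16622368)) (b (l 16736928) (l 16677688))) (c (b (l 16598520) (l 16595656)) (b (l 16660448) (l 16622312)))) (c (b (c (l 16520096) (l 16537248)) (c (l 16427528) (l 16451048))) (b (l 16502368) (l 16489480))))) (b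 (c (a (a (b (l 16593464) (l 16590880)) (b (l 16595288) (l 16573816))) (b (b (l 16651416) (l 16610688)) (c (l 16542056) (l 16557744)))) (a (b (b (l 16680888) (l 16665416)) (l 16548032)) (b (l 16589536) (l 16583376)))) (c (b (a (c (l 16487536) (l 16506968)) (l 16468888)) (a (c (l 16399696) (l 16425264)) (l 16388576))) (b (a (l 16538720) (l 16514920)) (a (l 16467016) (l 16447224)))))) (b (b (a (a (b (c (l 16398440) (l 16454720)) (c (l 16351312) (l 16414792))) (c (c (l 16335096) (l 16365072)) (l 16414048))) (a (c (c (l 16312288) (l 16344072)) (l 16395992)) (c (c (l 16292632) (l 16326008)) (l 16380504)))) (a (a (c (a (c (l 16269480) (l 16303688)) (l 16254648)) (b (l 16374984) (l 16335456))) (c (a (l 16244768) (l 16235640)) (l 16339336))) (a (b (c (l 16265088) (l 16343296)) (l 6)) (l 6)))) (a (l 6) (l 6)))), by decide +kernel⟩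

def k3_pm_112_s : ∃ t, chk3 f_pm_112_s t 5 2 1 = true :=
  ⟨(a (b (a (c (b (a (b (b (l 16617120) (l 16578368)) (l 16520504)) (b (c (l 16560616) (l 16574992)) (l 16494408))) (b (a (l 16443840) (l 16421832)) (a (l 16367968) (l 16329384)))) (b (b (a (l 16603112) (l 16598480)) (a (l 16558552) (l 16536424))) (a (b (l 16493792) (l 16430024)) (b (l 16475216) (l 16415352))))) (b (l 1) (l 1))) (b (a (b (a (c (l 16272168) (l 16367536)) (l 6)) (l 6)) (l 1)) (l 6))) (l 1)), by decide +kernel⟩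

def k4_pm_112_s : ∃ t, chk3 f_pm_112_s t 2 3 1 = true :=
  ⟨(a (b (l 6) (l 6)) (l 6)), by decide +kernel⟩

def k5_pm_112_s : ∃ t, chk3 f_pm_112_s t 3 1 1 = true :=
  ⟨(l 1), by decide +kernel⟩

theorem s6_pm_112_s : ∃ t, chk3 f_pm_112_s t 8 2 1 = true := ex3_b k0_pm_112_s k1_pm_112_s

theorem s7_pm_112_s : ∃ t, chk3 f_pm_112_s t 4 2 1 = true := ex3_a s6_pm_112_s k2_pm_112_s

theorem s8_pm_112_s : ∃ t, chk3 f_pm_112_s t 2 2 1 = true := ex3_a s7_pm_112_s k3_pm_112_s

theorem s9_pm_112_s : ∃ t, chk3 f_pm_112_s t 2 1 1 = true := ex3_b s8_pm_112_s k4_pm_112_s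

theorem s10_pm_112_s : ∃ t, chk3 f_pm_112_s t 1 1 1 = true := ex3_a s9_pm_112_s k5_pm_112_s

theorem c_pm_112_s : CertNE 536870912 536870912 0 536870912 923417968 42949674 3 eng mog cd0q1 cd0q2 pd1 false true false .dn 1 1 2
    ndB0q1 ndB0q2 pcB1 cut_pm_112_s Ext.none :=
  certNE2 (fam := false) (s1 := true) (s2 := false) (a := 1) (b := 1) (c := 2) (cn := .dn) (n1 := ndB0q1) (n2 := ndB0q2) (pc := pcB1) (cut := cut_pm_112_s) (xt := Ext.none) (P1 := 536870912) (W1 := 536870912) (P2 := 0) (W2 := 536870912) (P3 := 923417968) (W3 := 42949674) (N0 := 3) (En := eng) (mo := mog) (C1 := cd0q1) (C2 := cd0q2) (C3 := pd1)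
    rfl (fun _ => rfl) s10_pm_112_s

noncomputable def cut_pm_112_t : Cut := Cut.of [[⟨3, 0, 0, 2845415833⟩]]

noncomputable def f_pm_112_t : ℕ → ℕ → ℕ → ℕ → Bool := onCell 536870912 536870912 0 536870912 923417968 42949674
    (rowNE 3 eng mog cd0q1 cd0q2 pd1 0 false true false .dn 1 1 2 (qsf 536870912 536870912 0 536870912 1) ndB0q1 ndB0q2 pcB1 cut_pm_112_t Ext.none)

def k0_pm_112_t : ∃ t, chk3 f_pm_112_t t 1 1 1 = true :=
  ⟨(l 6), by decide +kernel⟩

theorem c_pm_112_t : CertNE 536870912 536870912 0 536870912 923417968 42949674 3 eng mog cd0q1 cd0q2 pd1 false true false .dn 1 1 2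
    ndB0q1 ndB0q2 pcB1 cut_pm_112_t Ext.none :=
  certNE0 (fam := false) (s1 := true) (s2 := false) (a := 1) (b := 1) (c := 2) (cn := .dn) (n1 := ndB0q1) (n2 := ndB0q2) (pc := pcB1) (cut := cut_pm_112_t) (xt := Ext.none) (P1 := 536870912) (W1 := 536870912) (P2 := 0) (W2 := 536870912) (P3 := 923417968) (W3 := 42949674) (N0 := 3) (En := eng) (mo := mog) (C1 := cd0q1) (C2 := cd0q2) (C3 := pd1)
    rfl k0_pm_112_t

noncomputable def cut_pm_202_s : Cut := Cut.of [[⟨4, 0, 0, 1449551462⟩], [⟨0, 1, 0, 67108864⟩, ⟨1, 0, 0, 67108864⟩, ⟨2, 1, 0, 67108864⟩]]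

noncomputable def f_pm_202_s : ℕ → ℕ → ℕ → ℕ → Bool := onCell 0 536870912 0 536870912 923417968 42949674
    (rowNE 3 eng mog cd0q2 cd0q2 pd0 0 false true false .pp 2 0 2 (qsf 0 536870912 0 536870912 0) ndB0q2 ndB0q2 pcB0 cut_pm_202_s Ext.none)

def k0_pm_202_s : ∃ t, chk3 f_pm_202_s t 1 1 1 = true :=
  ⟨(a (l 3) (b (l 3) (a (l 3) (b (l 3) (b (l 3) (a (l 3) (l 14))))))), by decide +kernel⟩

theorem c_pm_202_s : CertNE 0 536870912 0 536870912 923417968 42949674 3 eng mog cd0q2 cd0q2 pd0 false true false .pp 2 0 2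
    ndB0q2 ndB0q2 pcB0 cut_pm_202_s Ext.none :=
  certNE0 (fam := false) (s1 := true) (s2 := false) (a := 2) (b := 0) (c := 2) (cn := .pp) (n1 := ndB0q2) (n2 := ndB0q2) (pc := pcB0) (cut := cut_pm_202_s) (xt := Ext.none) (P1 := 0) (W1 := 536870912) (P2 := 0) (W2 := 536870912) (P3 := 923417968) (W3 := 42949674) (N0 := 3) (En := eng) (mo := mog) (C1 := cd0q2) (C2 := cd0q2) (C3 := pd0)
    rfl k0_pm_202_s

noncomputable def cut_pm_202_t : Cut := Cut.of [[⟨3, 0, 0, 2845415833⟩], [⟨0, 1, 0, 67108864⟩, ⟨1, 0, 0, 67108864⟩, ⟨2, 1, 0, 67108864⟩]]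

noncomputable def f_pm_202_t : ℕ → ℕ → ℕ → ℕ → Bool := onCell 0 536870912 0 536870912 923417968 42949674
    (rowNE 3 eng mog cd0q2 cd0q2 pd0 0 false true false .pp 2 0 2 (qsf 0 536870912 0 536870912 0) ndB0q2 ndB0q2 pcB0 cut_pm_202_t Ext.none)

def k0_pm_202_t : ∃ t, chk3 f_pm_202_t t 1 1 1 = true :=
  ⟨(l 6), by decide +kernel⟩

theorem c_pm_202_t : CertNE 0 536870912 0 536870912 923417968 42949674 3 eng mog cd0q2 cd0q2 pd0 false true false .pp 2 0 2
    ndB0q2 ndB0q2 pcB0 cut_pm_202_t Ext.none :=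
  certNE0 (fam := false) (s1 := true) (s2 := false) (a := 2) (b := 0) (c := 2) (cn := .pp) (n1 := ndB0q2) (n2 := ndB0q2) (pc := pcB0) (cut := cut_pm_202_t) (xt := Ext.none) (P1 := 0) (W1 := 536870912) (P2 := 0) (W2 := 536870912) (P3 := 923417968) (W3 := 42949674) (N0 := 3) (En := eng) (mo := mog) (C1 := cd0q2) (C2 := cd0q2) (C3 := pd0)
    rfl k0_pm_202_t

noncomputable def cut_mm_001_s : Cut := Cut.of [[⟨4, 0, 0, 1449551462⟩]]

noncomputable def f_mm_001_s : ℕ → ℕ → ℕ → ℕ → Bool := onCell 0 536870912 0 536870912 923417968 42949674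
    (rowNE 3 eng mog cd0q0 cd0q1 pd0 1 false false false .up 0 0 1 (qsf 0 536870912 536870912 536870912 0) ndB0q0 ndB0q1 pcB0 cut_mm_001_s Ext.none)

def k0_mm_001_s : ∃ t, chk3 f_mm_001_s t 1 1 1 = true :=
  ⟨(l 3), by decide +kernel⟩

theorem c_mm_001_s : CertNE 0 536870912 536870912 536870912 923417968 42949674 3 eng mog cd0q0 cd0q1 pd0 false false false .up 0 0 1
    ndB0q0 ndB0q1 pcB0 cut_mm_001_s Ext.none :=
  certNE1 (fam := false) (s1 := false) (s2 := false) (a := 0) (b := 0) (c := 1) (cn := .up) (n1 := ndB0q0) (n2 := ndB0q1) (pc := pcB0) (cut := cut_mm_001_s) (xt := Ext.none) (P1 := 0) (W1 := 536870912) (P2 := 536870912) (W2 := 536870912) (P3 := 923417968) (W3 := 42949674) (N0 := 3) (En := eng) (mo := mog) (C1 := cd0q0) (C2 := cd0q1) (C3 := pd0)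
    rfl (fun _ => rfl) k0_mm_001_s

noncomputable def cut_mm_001_t : Cut := Cut.of [[⟨3, 0, 0, 2845415833⟩]]

noncomputable def f_mm_001_t : ℕ → ℕ → ℕ → ℕ → Bool := onCell 0 536870912 536870912 536870912 923417968 42949674
    (rowNE 3 eng mog cd0q0 cd0q1 pd0 0 false false false .up 0 0 1 (qsf 0 536870912 536870912 536870912 0) ndB0q0 ndB0q1 pcB0 cut_mm_001_t Ext.none)

def k0_mm_001_t : ∃ t, chk3 f_mm_001_t t 1 1 1 = true :=
  ⟨(l 6), by decide +kernel⟩

theorem c_mm_001_t : CertNE 0 536870912 536870912 536870912 923417968 42949674 3 eng mog cd0q0 cd0q1 pd0 false false false .up 0 0 1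
    ndB0q0 ndB0q1 pcB0 cut_mm_001_t Ext.none :=
  certNE0 (fam := false) (s1 := false) (s2 := false) (a := 0) (b := 0) (c := 1) (cn := .up) (n1 := ndB0q0) (n2 := ndB0q1) (pc := pcB0) (cut := cut_mm_001_t) (xt := Ext.none) (P1 := 0) (W1 := 536870912) (P2 := 536870912) (W2 := 536870912) (P3 := 923417968) (W3 := 42949674) (N0 := 3) (En := eng) (mo := mog) (C1 := cd0q0) (C2 := cd0q1) (C3 := pd0)
    rfl k0_mm_001_t

noncomputable def cut_mm_011_s : Cut := Cut.of [[⟨4, 0, 0, 1449551462⟩]]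

noncomputable def f_mm_011_s : ℕ → ℕ → ℕ → ℕ → Bool := onCell 0 536870912 536870912 536870912 923417968 42949674
    (rowNE 3 eng mog cd0q0 cd0q1 pd1 1 false false false .pnn 0 1 1 (qsf 0 536870912 536870912 536870912 1) ndB0q0 ndB0q1 pcB1 cut_mm_011_s Ext.none)

def k0_mm_011_s : ∃ t, chk3 f_mm_011_s t 1 1 1 = true :=
  ⟨(l 5), by decide +kernel⟩

theorem c_mm_011_s : CertNE 0 536870912 536870912 536870912 923417968 42949674 3 eng mog cd0q0 cd0q1 pd1 false false false .pnn 0 1 1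
    ndB0q0 ndB0q1 pcB1 cut_mm_011_s Ext.none :=
  certNE1 (fam := false) (s1 := false) (s2 := false) (a := 0) (b := 1) (c := 1) (cn := .pnn) (n1 := ndB0q0) (n2 := ndB0q1) (pc := pcB1) (cut := cut_mm_011_s) (xt := Ext.none) (P1 := 0) (W1 := 536870912) (P2 := 536870912) (W2 := 536870912) (P3 := 923417968) (W3 := 42949674) (N0 := 3) (En := eng) (mo := mog) (C1 := cd0q0) (C2 := cd0q1) (C3 := pd1)
    rfl (fun _ => rfl) k0_mm_011_s

noncomputable def cut_mm_011_t : Cut := Cut.of [[⟨3, 0, 0, 2845415833⟩]]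

noncomputable def f_mm_011_t : ℕ → ℕ → ℕ → ℕ → Bool := onCell 0 536870912 536870912 536870912 923417968 42949674
    (rowNE 3 eng mog cd0q0 cd0q1 pd1 0 false false false .pnn 0 1 1 (qsf 0 536870912 536870912 536870912 1) ndB0q0 ndB0q1 pcB1 cut_mm_011_t Ext.none)

def k0_mm_011_t : ∃ t, chk3 f_mm_011_t t 1 1 1 = true :=
  ⟨(l 6), by decide +kernel⟩

theorem c_mm_011_t : CertNE 0 536870912 536870912 536870912 923417968 42949674 3 eng mog cd0q0 cd0q1 pd1 false false false .pnn 0 1 1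
    ndB0q0 ndB0q1 pcB1 cut_mm_011_t Ext.none :=
  certNE0 (fam := false) (s1 := false) (s2 := false) (a := 0) (b := 1) (c := 1) (cn := .pnn) (n1 := ndB0q0) (n2 := ndB0q1) (pc := pcB1) (cut := cut_mm_011_t) (xt := Ext.none) (P1 := 0) (W1 := 536870912) (P2 := 536870912) (W2 := 536870912) (P3 := 923417968) (W3 := 42949674) (N0 := 3) (En := eng) (mo := mog) (C1 := cd0q0) (C2 := cd0q1) (C3 := pd1)
    rfl k0_mm_011_t

noncomputable def cut_mm_012_s : Cut := Cut.of [[⟨4, 0, 0, 1449551462⟩]]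

noncomputable def f_mm_012_s : ℕ → ℕ → ℕ → ℕ → Bool := onCell 0 536870912 0 536870912 923417968 42949674
    (rowNE 3 eng mog cd0q0 cd0q2 pd1 0 false false false .pnp 0 1 2 (qsf 0 536870912 0 536870912 1) ndB0q0 ndB0q2 pcB1 cut_mm_012_s Ext.none)

def k0_mm_012_s : ∃ t, chk3 f_mm_012_s t 1 1 1 = true :=
  ⟨(l 5), by decide +kernel⟩

theorem c_mm_012_s : CertNE 0 536870912 0 536870912 923417968 42949674 3 eng mog cd0q0 cd0q2 pd1 false false false .pnp 0 1 2
    ndB0q0 ndB0q2 pcB1 cut_mm_012_s Ext.none :=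
  certNE0 (fam := false) (s1 := false) (s2 := false) (a := 0) (b := 1) (c := 2) (cn := .pnp) (n1 := ndB0q0) (n2 := ndB0q2) (pc := pcB1) (cut := cut_mm_012_s) (xt := Ext.none) (P1 := 0) (W1 := 536870912) (P2 := 0) (W2 := 536870912) (P3 := 923417968) (W3 := 42949674) (N0 := 3) (En := eng) (mo := mog) (C1 := cd0q0) (C2 := cd0q2) (C3 := pd1)
    rfl k0_mm_012_s

noncomputable def cut_mm_012_t : Cut := Cut.of [[⟨3, 0, 0, 2845415833⟩]]

noncomputable def f_mm_012_t : ℕ → ℕ → ℕ → ℕ → Bool := onCell 0 536870912 0 536870912 923417968 42949674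
    (rowNE 3 eng mog cd0q0 cd0q2 pd1 0 false false false .pnp 0 1 2 (qsf 0 536870912 0 536870912 1) ndB0q0 ndB0q2 pcB1 cut_mm_012_t Ext.none)

def k0_mm_012_t : ∃ t, chk3 f_mm_012_t t 1 1 1 = true :=
  ⟨(l 5), by decide +kernel⟩

theorem c_mm_012_t : CertNE 0 536870912 0 536870912 923417968 42949674 3 eng mog cd0q0 cd0q2 pd1 false false false .pnp 0 1 2
    ndB0q0 ndB0q2 pcB1 cut_mm_012_t Ext.none :=
  certNE0 (fam := false) (s1 := false) (s2 := false) (a := 0) (b := 1) (c := 2) (cn := .pnp) (n1 := ndB0q0) (n2 := ndB0q2) (pc := pcB1) (cut := cut_mm_012_t) (xt := Ext.none) (P1 := 0) (W1 := 536870912) (P2 := 0) (W2 := 536870912) (P3 := 923417968) (W3 := 42949674) (N0 := 3) (En := eng) (mo := mog) (C1 := cd0q0) (C2 := cd0q2) (C3 := pd1)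
    rfl k0_mm_012_t

noncomputable def cut_mm_022_s : Cut := Cut.of [[⟨4, 0, 0, 1449551462⟩]]

noncomputable def f_mm_022_s : ℕ → ℕ → ℕ → ℕ → Bool := onCell 0 536870912 0 536870912 923417968 42949674
    (rowNE 3 eng mog cd0q0 cd0q2 pd2 0 false false false .pp 0 2 2 (qsf 0 536870912 0 536870912 2) ndB0q0 ndB0q2 pcB2 cut_mm_022_s Ext.none)

def k0_mm_022_s : ∃ t, chk3 f_mm_022_s t 1 1 1 = true :=
  ⟨(l 5), by decide +kernel⟩

theorem c_mm_022_s : CertNE 0 536870912 0 536870912 923417968 42949674 3 eng mog cd0q0 cd0q2 pd2 false false false .pp 0 2 2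
    ndB0q0 ndB0q2 pcB2 cut_mm_022_s Ext.none :=
  certNE0 (fam := false) (s1 := false) (s2 := false) (a := 0) (b := 2) (c := 2) (cn := .pp) (n1 := ndB0q0) (n2 := ndB0q2) (pc := pcB2) (cut := cut_mm_022_s) (xt := Ext.none) (P1 := 0) (W1 := 536870912) (P2 := 0) (W2 := 536870912) (P3 := 923417968) (W3 := 42949674) (N0 := 3) (En := eng) (mo := mog) (C1 := cd0q0) (C2 := cd0q2) (C3 := pd2)
    rfl k0_mm_022_s

noncomputable def cut_mm_022_t : Cut := Cut.of [[⟨3, 0, 0, 2845415833⟩]]

noncomputable def f_mm_022_t : ℕ → ℕ → ℕ → ℕ → Bool := onCell 0 536870912 0 536870912 923417968 42949674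
    (rowNE 3 eng mog cd0q0 cd0q2 pd2 0 false false false .pp 0 2 2 (qsf 0 536870912 0 536870912 2) ndB0q0 ndB0q2 pcB2 cut_mm_022_t Ext.none)

def k0_mm_022_t : ∃ t, chk3 f_mm_022_t t 1 1 1 = true :=
  ⟨(l 5), by decide +kernel⟩

theorem c_mm_022_t : CertNE 0 536870912 0 536870912 923417968 42949674 3 eng mog cd0q0 cd0q2 pd2 false false false .pp 0 2 2
    ndB0q0 ndB0q2 pcB2 cut_mm_022_t Ext.none :=
  certNE0 (fam := false) (s1 := false) (s2 := false) (a := 0) (b := 2) (c := 2) (cn := .pp) (n1 := ndB0q0) (n2 := ndB0q2) (pc := pcB2) (cut := cut_mm_022_t) (xt := Ext.none) (P1 := 0) (W1 := 536870912) (P2 := 0) (W2 := 536870912) (P3 := 923417968) (W3 := 42949674) (N0 := 3) (En := eng) (mo := mog) (C1 := cd0q0) (C2 := cd0q2) (C3 := pd2)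
    rfl k0_mm_022_t

noncomputable def cut_mm_101_s : Cut := Cut.of [[⟨4, 0, 0, 1449551462⟩]]

noncomputable def f_mm_101_s : ℕ → ℕ → ℕ → ℕ → Bool := onCell 536870912 536870912 536870912 536870912 923417968 42949674
    (rowNE 3 eng mog cd0q1 cd0q1 pd0 0 false false false .npn 1 0 1 (qsf 536870912 536870912 536870912 536870912 0) ndB0q1 ndB0q1 pcB0 cut_mm_101_s Ext.none)

def k0_mm_101_s : ∃ t, chk3 f_mm_101_s t 1 1 1 = true :=
  ⟨(l 3), by decide +kernel⟩

theorem c_mm_101_s : CertNE 536870912 536870912 536870912 536870912 923417968 42949674 3 eng mog cd0q1 cd0q1 pd0 false false false .npn 1 0 1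
    ndB0q1 ndB0q1 pcB0 cut_mm_101_s Ext.none :=
  certNE0 (fam := false) (s1 := false) (s2 := false) (a := 1) (b := 0) (c := 1) (cn := .npn) (n1 := ndB0q1) (n2 := ndB0q1) (pc := pcB0) (cut := cut_mm_101_s) (xt := Ext.none) (P1 := 536870912) (W1 := 536870912) (P2 := 536870912) (W2 := 536870912) (P3 := 923417968) (W3 := 42949674) (N0 := 3) (En := eng) (mo := mog) (C1 := cd0q1) (C2 := cd0q1) (C3 := pd0)
    rfl k0_mm_101_s

noncomputable def cut_mm_101_t : Cut := Cut.of [[⟨3, 0, 0, 2845415833⟩]]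

noncomputable def f_mm_101_t : ℕ → ℕ → ℕ → ℕ → Bool := onCell 536870912 536870912 536870912 536870912 923417968 42949674
    (rowNE 3 eng mog cd0q1 cd0q1 pd0 0 false false false .npn 1 0 1 (qsf 536870912 536870912 536870912 536870912 0) ndB0q1 ndB0q1 pcB0 cut_mm_101_t Ext.none)

def k0_mm_101_t : ∃ t, chk3 f_mm_101_t t 1 1 1 = true :=
  ⟨(l 3), by decide +kernel⟩

theorem c_mm_101_t : CertNE 536870912 536870912 536870912 536870912 923417968 42949674 3 eng mog cd0q1 cd0q1 pd0 false false false .npn 1 0 1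
    ndB0q1 ndB0q1 pcB0 cut_mm_101_t Ext.none :=
  certNE0 (fam := false) (s1 := false) (s2 := false) (a := 1) (b := 0) (c := 1) (cn := .npn) (n1 := ndB0q1) (n2 := ndB0q1) (pc := pcB0) (cut := cut_mm_101_t) (xt := Ext.none) (P1 := 536870912) (W1 := 536870912) (P2 := 536870912) (W2 := 536870912) (P3 := 923417968) (W3 := 42949674) (N0 := 3) (En := eng) (mo := mog) (C1 := cd0q1) (C2 := cd0q1) (C3 := pd0)
    rfl k0_mm_101_t

noncomputable def cut_mm_102_s : Cut := Cut.of [[⟨4, 0, 0, 1449551462⟩]]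

noncomputable def f_mm_102_s : ℕ → ℕ → ℕ → ℕ → Bool := onCell 536870912 536870912 0 536870912 923417968 42949674
    (rowNE 3 eng mog cd0q1 cd0q2 pd0 0 false false false .npp 1 0 2 (qsf 536870912 536870912 0 536870912 0) ndB0q1 ndB0q2 pcB0 cut_mm_102_s Ext.none)

def k0_mm_102_s : ∃ t, chk3 f_mm_102_s t 1 1 1 = true :=
  ⟨(a (l 5) (l 3)), by decide +kernel⟩

theorem c_mm_102_s : CertNE 536870912 536870912 0 536870912 923417968 42949674 3 eng mog cd0q1 cd0q2 pd0 false false false .npp 1 0 2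
    ndB0q1 ndB0q2 pcB0 cut_mm_102_s Ext.none :=
  certNE0 (fam := false) (s1 := false) (s2 := false) (a := 1) (b := 0) (c := 2) (cn := .npp) (n1 := ndB0q1) (n2 := ndB0q2) (pc := pcB0) (cut := cut_mm_102_s) (xt := Ext.none) (P1 := 536870912) (W1 := 536870912) (P2 := 0) (W2 := 536870912) (P3 := 923417968) (W3 := 42949674) (N0 := 3) (En := eng) (mo := mog) (C1 := cd0q1) (C2 := cd0q2) (C3 := pd0)
    rfl k0_mm_102_s

noncomputable def cut_mm_102_t : Cut := Cut.of [[⟨3, 0, 0, 2845415833⟩]]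

noncomputable def f_mm_102_t : ℕ → ℕ → ℕ → ℕ → Bool := onCell 536870912 536870912 0 536870912 923417968 42949674
    (rowNE 3 eng mog cd0q1 cd0q2 pd0 0 false false false .npp 1 0 2 (qsf 536870912 536870912 0 536870912 0) ndB0q1 ndB0q2 pcB0 cut_mm_102_t Ext.none)

def k0_mm_102_t : ∃ t, chk3 f_mm_102_t t 1 1 1 = true :=
  ⟨(l 6), by decide +kernel⟩

theorem c_mm_102_t : CertNE 536870912 536870912 0 536870912 923417968 42949674 3 eng mog cd0q1 cd0q2 pd0 false false false .npp 1 0 2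
    ndB0q1 ndB0q2 pcB0 cut_mm_102_t Ext.none :=
  certNE0 (fam := false) (s1 := false) (s2 := false) (a := 1) (b := 0) (c := 2) (cn := .npp) (n1 := ndB0q1) (n2 := ndB0q2) (pc := pcB0) (cut := cut_mm_102_t) (xt := Ext.none) (P1 := 536870912) (W1 := 536870912) (P2 := 0) (W2 := 536870912) (P3 := 923417968) (W3 := 42949674) (N0 := 3) (En := eng) (mo := mog) (C1 := cd0q1) (C2 := cd0q2) (C3 := pd0)
    rfl k0_mm_102_t

noncomputable def cut_mm_112_s : Cut := Cut.of [[⟨4, 0, 0, 1449551462⟩]]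

noncomputable def f_mm_112_s : ℕ → ℕ → ℕ → ℕ → Bool := onCell 536870912 536870912 0 536870912 923417968 42949674
    (rowNE 3 eng mog cd0q1 cd0q2 pd1 2 false false false .dn 1 1 2 (qsf 536870912 536870912 0 536870912 1) ndB0q1 ndB0q2 pcB1 cut_mm_112_s Ext.none)

def k0_mm_112_s : ∃ t, chk3 f_mm_112_s t 1 1 1 = true :=
  ⟨(l 5), by decide +kernel⟩

theorem c_mm_112_s : CertNE 536870912 536870912 0 536870912 923417968 42949674 3 eng mog cd0q1 cd0q2 pd1 false false false .dn 1 1 2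
    ndB0q1 ndB0q2 pcB1 cut_mm_112_s Ext.none :=
  certNE2 (fam := false) (s1 := false) (s2 := false) (a := 1) (b := 1) (c := 2) (cn := .dn) (n1 := ndB0q1) (n2 := ndB0q2) (pc := pcB1) (cut := cut_mm_112_s) (xt := Ext.none) (P1 := 536870912) (W1 := 536870912) (P2 := 0) (W2 := 536870912) (P3 := 923417968) (W3 := 42949674) (N0 := 3) (En := eng) (mo := mog) (C1 := cd0q1) (C2 := cd0q2) (C3 := pd1)
    rfl (fun _ => rfl) k0_mm_112_s

noncomputable def cut_mm_112_t : Cut := Cut.of [[⟨3, 0, 0, 2845415833⟩]]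

noncomputable def f_mm_112_t : ℕ → ℕ → ℕ → ℕ → Bool := onCell 536870912 536870912 0 536870912 923417968 42949674
    (rowNE 3 eng mog cd0q1 cd0q2 pd1 0 false false false .dn 1 1 2 (qsf 536870912 536870912 0 536870912 1) ndB0q1 ndB0q2 pcB1 cut_mm_112_t Ext.none)

def k0_mm_112_t : ∃ t, chk3 f_mm_112_t t 1 1 1 = true :=
  ⟨(l 6), by decide +kernel⟩

theorem c_mm_112_t : CertNE 536870912 536870912 0 536870912 923417968 42949674 3 eng mog cd0q1 cd0q2 pd1 false false false .dn 1 1 2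
    ndB0q1 ndB0q2 pcB1 cut_mm_112_t Ext.none :=
  certNE0 (fam := false) (s1 := false) (s2 := false) (a := 1) (b := 1) (c := 2) (cn := .dn) (n1 := ndB0q1) (n2 := ndB0q2) (pc := pcB1) (cut := cut_mm_112_t) (xt := Ext.none) (P1 := 536870912) (W1 := 536870912) (P2 := 0) (W2 := 536870912) (P3 := 923417968) (W3 := 42949674) (N0 := 3) (En := eng) (mo := mog) (C1 := cd0q1) (C2 := cd0q2) (C3 := pd1)
    rfl k0_mm_112_t

noncomputable def cut_mm_202_s : Cut := Cut.of [[⟨4, 0, 0, 1449551462⟩]]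

noncomputable def f_mm_202_s : ℕ → ℕ → ℕ → ℕ → Bool := onCell 0 536870912 0 536870912 923417968 42949674
    (rowNE 3 eng mog cd0q2 cd0q2 pd0 0 false false false .pp 2 0 2 (qsf 0 536870912 0 536870912 0) ndB0q2 ndB0q2 pcB0 cut_mm_202_s Ext.none)

def k0_mm_202_s : ∃ t, chk3 f_mm_202_s t 1 1 1 = true :=
  ⟨(l 3), by decide +kernel⟩

theorem c_mm_202_s : CertNE 0 536870912 0 536870912 923417968 42949674 3 eng mog cd0q2 cd0q2 pd0 false false false .pp 2 0 2
    ndB0q2 ndB0q2 pcB0 cut_mm_202_s Ext.none :=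
  certNE0 (fam := false) (s1 := false) (s2 := false) (a := 2) (b := 0) (c := 2) (cn := .pp) (n1 := ndB0q2) (n2 := ndB0q2) (pc := pcB0) (cut := cut_mm_202_s) (xt := Ext.none) (P1 := 0) (W1 := 536870912) (P2 := 0) (W2 := 536870912) (P3 := 923417968) (W3 := 42949674) (N0 := 3) (En := eng) (mo := mog) (C1 := cd0q2) (C2 := cd0q2) (C3 := pd0)
    rfl k0_mm_202_s

noncomputable def cut_mm_202_t : Cut := Cut.of [[⟨3, 0, 0, 2845415833⟩]]

noncomputable def f_mm_202_t : ℕ → ℕ → ℕ → ℕ → Bool := onCell 0 536870912 0 536870912 923417968 42949674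
    (rowNE 3 eng mog cd0q2 cd0q2 pd0 0 false false false .pp 2 0 2 (qsf 0 536870912 0 536870912 0) ndB0q2 ndB0q2 pcB0 cut_mm_202_t Ext.none)

def k0_mm_202_t : ∃ t, chk3 f_mm_202_t t 1 1 1 = true :=
  ⟨(l 3), by decide +kernel⟩

theorem c_mm_202_t : CertNE 0 536870912 0 536870912 923417968 42949674 3 eng mog cd0q2 cd0q2 pd0 false false false .pp 2 0 2
    ndB0q2 ndB0q2 pcB0 cut_mm_202_t Ext.none :=
  certNE0 (fam := false) (s1 := false) (s2 := false) (a := 2) (b := 0) (c := 2) (cn := .pp) (n1 := ndB0q2) (n2 := ndB0q2) (pc := pcB0) (cut := cut_mm_202_t) (xt := Ext.none) (P1 := 0) (W1 := 536870912) (P2 := 0) (W2 := 536870912) (P3 := 923417968) (W3 := 42949674) (N0 := 3) (En := eng) (mo := mog) (C1 := cd0q2) (C2 := cd0q2) (C3 := pd0)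
    rfl k0_mm_202_t

end Pool.Agent.Strip051.G.I8600_9000.Tab.CS.BB00

namespace Pool.Agent.Strip051.G.I8600_9000.Tab.CS.BB04

open Pool.Agent.Strip051.PB Pool.Agent.Strip051.PB.T
open Pool.Agent.Strip051.G.I8600_9000.Tab

noncomputable def cut_pp_001_s : Cut := Cut.of [[⟨4, 0, 0, 1449551462⟩]]

noncomputable def f_pp_001_s : ℕ → ℕ → ℕ → ℕ → Bool := onCell 0 536870912 0 536870912 923417968 42949674
    (rowNE 3 eng mog cd0q0 cd4q1 pd0 1 false true true .up 0 0 1 (qsf 0 536870912 536870912 536870912 0) ndB0q0 ndB4q1 pcB0 cut_pp_001_s Ext.none)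

def k0_pp_001_s : ∃ t, chk3 f_pp_001_s t 1 1 1 = true :=
  ⟨(l 3), by decide +kernel⟩

theorem c_pp_001_s : CertNE 0 536870912 536870912 536870912 923417968 42949674 3 eng mog cd0q0 cd4q1 pd0 false true true .up 0 0 1
    ndB0q0 ndB4q1 pcB0 cut_pp_001_s Ext.none :=
  certNE1 (fam := false) (s1 := true) (s2 := true) (a := 0) (b := 0) (c := 1) (cn := .up) (n1 := ndB0q0) (n2 := ndB4q1) (pc := pcB0) (cut := cut_pp_001_s) (xt := Ext.none) (P1 := 0) (W1 := 536870912) (P2 := 536870912) (W2 := 536870912) (P3 := 923417968) (W3 := 42949674) (N0 := 3) (En := eng) (mo := mog) (C1 := cd0q0) (C2 := cd4q1) (C3 := pd0)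
    rfl (fun _ => rfl) k0_pp_001_s

noncomputable def cut_pp_011_s : Cut := Cut.of [[⟨4, 0, 0, 1449551462⟩], [⟨0, 0, 0, 67108864⟩, ⟨1, 1, 0, 67108864⟩, ⟨2, 1, 0, 67108864⟩]]

noncomputable def f_pp_011_s : ℕ → ℕ → ℕ → ℕ → Bool := onCell 0 536870912 536870912 536870912 923417968 42949674
    (rowNE 3 eng mog cd0q0 cd4q1 pd1 1 false true true .pnn 0 1 1 (qsf 0 536870912 536870912 536870912 1) ndB0q0 ndB4q1 pcB1 cut_pp_011_s Ext.none)

def k0_pp_011_s : ∃ t, chk3 f_pp_011_s t 1 1 1 = true :=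
  ⟨(b (l 3) (a (b (l 3) (a (b (l 3) (a (b (l 3) (a (l 14) (l 3))) (l 3))) (l 3))) (l 3))), by decide +kernel⟩

theorem c_pp_011_s : CertNE 0 536870912 536870912 536870912 923417968 42949674 3 eng mog cd0q0 cd4q1 pd1 false true true .pnn 0 1 1
    ndB0q0 ndB4q1 pcB1 cut_pp_011_s Ext.none :=
  certNE1 (fam := false) (s1 := true) (s2 := true) (a := 0) (b := 1) (c := 1) (cn := .pnn) (n1 := ndB0q0) (n2 := ndB4q1) (pc := pcB1) (cut := cut_pp_011_s) (xt := Ext.none) (P1 := 0) (W1 := 536870912) (P2 := 536870912) (W2 := 536870912) (P3 := 923417968) (W3 := 42949674) (N0 := 3) (En := eng) (mo := mog) (C1 := cd0q0) (C2 := cd4q1) (C3 := pd1)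
    rfl (fun _ => rfl) k0_pp_011_s

noncomputable def cut_pp_012_s : Cut := Cut.of [[⟨4, 0, 0, 1449551462⟩], [⟨0, 0, 0, 67108864⟩, ⟨1, 1, 0, 67108864⟩, ⟨2, 1, 0, 67108864⟩]]

noncomputable def f_pp_012_s : ℕ → ℕ → ℕ → ℕ → Bool := onCell 0 536870912 536870912 536870912 923417968 42949674
    (rowNE 3 eng mog cd0q0 cd4q2 pd1 1 false true true .pnp 0 1 2 (qsf 0 536870912 1073741824 536870912 1) ndB0q0 ndB4q2 pcB1 cut_pp_012_s Ext.none)

def k0_pp_012_s : ∃ t, chk3 f_pp_012_s t 1 1 1 = true :=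
  ⟨(b (l 3) (a (b (l 3) (a (a (a (b (l 1) (b (l 3) (l 14))) (l 3)) (l 3)) (l 3))) (l 3))), by decide +kernel⟩

theorem c_pp_012_s : CertNE 0 536870912 1073741824 536870912 923417968 42949674 3 eng mog cd0q0 cd4q2 pd1 false true true .pnp 0 1 2
    ndB0q0 ndB4q2 pcB1 cut_pp_012_s Ext.none :=
  certNE1 (fam := false) (s1 := true) (s2 := true) (a := 0) (b := 1) (c := 2) (cn := .pnp) (n1 := ndB0q0) (n2 := ndB4q2) (pc := pcB1) (cut := cut_pp_012_s) (xt := Ext.none) (P1 := 0) (W1 := 536870912) (P2 := 1073741824) (W2 := 536870912) (P3 := 923417968) (W3 := 42949674) (N0 := 3) (En := eng) (mo := mog) (C1 := cd0q0) (C2 := cd4q2) (C3 := pd1)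
    rfl (fun _ => rfl) k0_pp_012_s

noncomputable def cut_pp_022_s : Cut := Cut.of [[⟨4, 0, 0, 1449551462⟩], [⟨0, 0, 0, 67108864⟩, ⟨1, 1, 0, 67108864⟩, ⟨2, 1, 0, 67108864⟩]]

noncomputable def f_pp_022_s : ℕ → ℕ → ℕ → ℕ → Bool := onCell 0 536870912 1073741824 536870912 923417968 42949674
    (rowNE 3 eng mog cd0q0 cd4q2 pd2 1 false true true .pp 0 2 2 (qsf 0 536870912 1073741824 536870912 2) ndB0q0 ndB4q2 pcB2 cut_pp_022_s Ext.none)

def k0_pp_022_s : ∃ t, chk3 f_pp_022_s t 16 16 1 = true :=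
  ⟨(b (l 14) (a (l 14) (b (l 14) (a (l 14) (a (l 14) (a (l 14) (b (l 14) (l 16744096)))))))), by decide +kernel⟩

def k1_pp_022_s : ∃ t, chk3 f_pp_022_s t 17 32 1 = true :=
  ⟨(a (a (l 14) (l 3)) (l 3)), by decide +kernel⟩

def k2_pp_022_s : ∃ t, chk3 f_pp_022_s t 34 33 1 = true :=
  ⟨(b (b (a (l 14) (a (a (l 14) (l 3)) (l 3))) (a (a (l 14) (b (l 14) (c (l 16767328) (l 16767680)))) (a (a (b (b (l 14) (l 16771152)) (a (l 16769992) (l 16770344))) (b (a (b (b (l 14) (a (l 14) (l 16777080))) (l 16775264)) (c (b (l 638507287895) (l 16776264)) (b (l 656760898871) (l 16776280)))) (c (l 16772432) (l 16772592)))) (a (b (b (l 3) (b (c (l 585357067495) (l 599315711159)) (a (l 16776736) (c (l 329806514503) (l 327122159991))))) (b (c (l 16775592) (l 16775656)) (l 16773424))) (b (l 3) (b (b (c (l 548849845287) (l 560124134407)) (a (l 16776592) (c (l 270750714071) (l 265918875911)))) (c (l 16775424) (l 16775488)))))))) (a (b (a (c (l 16756360) (l 16757016)) (b (a (l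 16761984) (l 16764000)) (l 16758368))) (c (a (l 16746768) (l 16750920)) (a (l 16747544) (l 16751560)))) (b (c (a (b (l 16766880) (l 16762248)) (b (a (l 16769976) (l 16772048)) (l 16766416))) (a (b (l 16767200) (l 16762664)) (b (l 16769896) (l 16766704)))) (c (a (l 16755112) (l 16759320)) (a (l 16755624) (l 16759728)))))), by decide +kernel⟩

def k3_pp_022_s : ∃ t, chk3 f_pp_022_s t 35 33 1 = true :=
  ⟨(b (b (l 3) (a (a (a (b (l 3) (b (l 3) (b (c (l 510732009031) (a (l 16777992) (l 3))) (a (l 16776432) (a (l 16777136) (l 357186930807)))))) (l 3)) (l 3)) (l 3))) (b (a (a (b (a (c (l 16773472) (l 16774216)) (b (b (a (a (l 16777080) (l 304573581479)) (l 3)) (c (l 16778088) (l 16776752))) (l 16772480))) (c (l 16769288) (l 16770776))) (b (b (l 3) (b (a (a (l 16778440) (l 540259912791)) (l 3)) (a (c (l 16776616) (l 16776624)) (l 694878733863)))) (b (a (l 16774912) (a (c (l 16776472) (l 16776496)) (b (l 429664504807) (l 16776936)))) (c (l 16773632) (l 16773728)))))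 (b (l 3) (a (b (a (c (l 668035188695) (l 687899412391)) (l 3)) (a (a (l 16776936) (b (l 347523255287) (l 16776752))) (c (l 595020744439) (l 651392190151)))) (l 3)))) (a (a (b (c (l 16765920) (l 16766192)) (l 16761304)) (c (b (l 16770144) (l 16765392)) (b (l 16770312) (l 16765648)))) (b (b (a (a (l 16774504) (a (l 16776072) (b (l 275582552935) (l 16776544)))) (a (c (l 559587264007) (l 570324682215)) (l 3))) (a (c (l 16773200) (l 16773296)) (c (a (l 16778040) (l 522543170839)) (a (l 16776432) (l 531669976311))))) (a (c (l 16769656) (l 16769816)) (a (a (l 16772368) (l 16773424)) (b (c (l 16776176) (l 16776208)) (l 16773832)))))))), by decide +kernel⟩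

def k4_pp_022_s : ∃ t, chk3 f_pp_022_s t 8 17 1 = true :=
  ⟨(a (b (a (a (l 14) (b (l 14) (b (l 14) (l 16652904)))) (b (a (b (l 14) (c (l 16685632) (l 16687416))) (b (c (l 16729456) (l 16730560)) (c (l 16696952) (l 16698160)))) (b (a (a (l 16693192) (l 16677576)) (a (l 16682984) (l 16688440))) (a (l 16663248) (l 16673856))))) (a (b (a (a (l 14) (l 16628384)) (a (l 16633192) (l 16638096))) (a (c (l 16621696) (l 16626864)) (c (l 16631496) (l 16635352)))) (a (b (c (l 16644512) (l 16646920)) (c (l 16641600) (l 16644464))) (b (b (l 16661944) (l 16649984)) (c (l 16651960) (l 16654104)))))) (b (a (b (a (b (a (l 16737184) (l 16741328)) (c (l 16712568) (l 16708168))) (b (c (l 16748688) (l 16747928)) (c (l 16716184) (l 16716784)))) (a (b (c (l 16696088) (l 16696960)) (a (l 16681936) (l 16687376))) (b (c (l 16705624) (l 16706280)) (c (l 16694512) (l 16695256))))) (b (a (b (c (a (l 16753792) (l 16758096)) (a (l 16754208) (l 16758440))) (a (l 16733400) (l 16749536)))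 (b (c (a (b (l 16764840) (l 16738960)) (b (l 16769136) (l 16764256))) (a (l 16762672) (b (l 16769296) (l 16764496)))) (c (b (l 16757112) (l 16741544)) (a (l 16731800) (l 16757096))))) (a (b (c (l 16714416) (l 16714952)) (c (l 16703640) (l 16704272))) (b (c (b (l 16725880) (l 16720616)) (l 16728992)) (c (l 16712592) (l 16713208)))))) (b (b (a (a (l 16672592) (a (l 16680680) (l 16685912))) (a (a (l 16690648) (l 16716160)) (b (l 16704736) (l 16699240)))) (a (a (l 16660496) (l 16671200)) (a (a (l 16679160) (l 16683984)) (l 16690912)))) (a (a (b (l 16648376) (l 16657208)) (c (l 16652248) (l 16653632))) (a (c (b (l 16690184) (l 16677816)) (l 16664296)) (b (l 16679608) (l 16668024))))))), by decide +kernel⟩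

def k5_pp_022_s : ∃ t, chk3 f_pp_022_s t 9 16 1 = true :=
  ⟨(a (b (l 3) (a (b (l 3) (b (l 3) (a (b (l 3) (a (b (a (c (l 484962206743) (c (l 317995356535) (l 322290323799))) (l 3)) (b (a (l 16776544) (l 447381246951)) (a (l 16775352) (a (l 16776960) (l 379735510199))))) (l 3))) (l 3)))) (l 3))) (l 3)), by decide +kernel⟩

def k6_pp_022_s : ∃ t, chk3 f_pp_022_s t 18 34 1 = true :=
  ⟨(a (b (b (b (a (b (a (c (l 16774624) (l 16774680)) (a (c (c (l 240685944711) (l 233169752087)) (c (l 233169752055) (l 234780364775))) (l 3))) (a (c (l 16772224) (l 16772328)) (a (l 16775464) (a (l 71571607351) (a (l 277193166631) (l 473687920695)))))) (l 3)) (a (a (c (l 16768584) (l 16768752)) (c (l 16772904) (l 16772992))) (b (a (a (c (l 148344146759) (l 145659793463)) (l 722259151095)) (l 3)) (a (a (l 16774936) (a (l 16776552) (l 205252464279))) (a (l 685215057895) (l 3)))))) (a (c (a (l 16761144) (b (l 16768000) (l 16742024))) (a (l 16761424) (l 16765744))) (a (b (c (l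 16772336) (l 16772440)) (l 16767472)) (a (b (c (l 16777568) (l 16775648)) (l 16770712)) (b (b (l 594483873479) (l 16776552)) (l 16772872)))))) (a (b (c (a (l 16729912) (l 16744840)) (a (l 16730360) (l 16734760))) (c (l 16726840) (l 16722184))) (b (c (a (l 16749280) (l 16764200)) (a (l 16760112) (l 16764456))) (a (l 16739088) (l 16742248))))) (a (b (b (l 3) (b (a (c (b (l 3) (l 592873261543)) (l 731922826551)) (l 3)) (b (a (a (l 16776248) (l 323364066551)) (l 3)) (a (l 16775856) (a (l 275045684151) (l 3)))))) (b (a (c (l 16768600) (l 16768776)) (b (a (l 16774408) (b (l 226190430823) (l 16775312))) (l 16770512))) (c (l 16760568) (l 16760896)))) (b (l 3) (a (b (b (a (b (l 3) (l 164450275927)) (l 3)) (c (b (l 16776072) (l 16773544)) (l 16774872))) (b (l 16769824) (l 16764744))) (b (b (l 3) (a (b (l 813527202855) (l 16776816)) (l 807621621319))) (b (c (l 16774120) (l 16774184)) (l 16769104))))))), by decide +kernel⟩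

def k7_pp_022_s : ∃ t, chk3 f_pp_022_s t 18 35 1 = true :=
  ⟨(a (b (b (a (c (l 16710752) (l 16711528)) (c (l 16719928) (l 16720584))) (a (l 16700128) (b (l 16712104) (l 16706624)))) (a (c (l 16682824) (l 16684008)) (b (l 16698336) (l 16687160)))) (b (a (b (c (l 16729064) (l 16729568)) (c (l 16718280) (l 16718952))) (b (c (l 16759056) (l 16759400)) (c (l 16727464) (l 16727984)))) (a (b (l 16707680) (l 16696624)) (b (l 16716952) (l 16706032))))), by decide +kernel⟩

def k8_pp_022_s : ∃ t, chk3 f_pp_022_s t 19 17 1 = true :=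
  ⟨(b (b (l 3) (a (b (l 3) (a (a (b (a (b (l 359334417719) (l 16776104)) (l 693268115943)) (l 16773424)) (b (l 3) (c (b (l 340007066119) (l 16776440)) (b (l 337322711703) (l 16776464))))) (l 3))) (l 3))) (b (a (b (a (c (b (l 16770464) (l 16765312)) (l 16766784)) (b (a (a (l 16778488) (a (l 160692180679) (l 294909909463))) (l 807621612167)) (a (l 16771888) (c (c (l 16776112) (l 16776128)) (l 16776160))))) (a (b (l 16760248) (l 16734040)) (c (l 16766296) (l 16766512)))) (b (a (b (l 3) (a (l 708837365607) (l 3))) (l 3)) (a (b (a (c (l 16775280) (l 16775328)) (l 655687147495)) (a (l 16770240) (l 16774440))) (a (c (l 668035175863) (l 663203329207)) (l 3))))) (a (a (b (c (l 16725832) (l 16726384)) (l 16715328)) (b (c (l 16734848) (l 16735256)) (c (l 16724176) (l 16724776)))) (a (b (c (l 16764600) (l 16764848)) (c (l 16733152) (l 16733600))) (b (a (b (l 16773552) (l 16768496)) (b (a (l 16776640) (l 293299297815)) (l 16772648))) (c (l 16762832) (l 16763120))))))),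 by decide +kernel⟩

def k9_pp_022_s : ∃ t, chk3 f_pp_022_s t 5 8 1 = true :=
  ⟨(a (b (l 3) (b (l 3) (a (b (l 3) (a (b (a (b (l 795810456439) (a (c (l 16776704) (l 16776736)) (l 743197098791))) (l 3)) (a (a (l 16769208) (c (l 16778472) (l 16773328))) (a (b (l 644412855175) (l 16774768)) (c (l 683067557063) (l 686288776215))))) (l 3))) (l 3)))) (l 3)), by decide +kernel⟩

def k10_pp_022_s : ∃ t, chk3 f_pp_022_s t 4 18 1 = true :=
  ⟨(a (a (b (a (b (a (l 16580056) (l 16588840)) (c (l 16558088) (l 16563872))) (b (c (a (l 16617488) (l 16627592)) (l 16583648)) (a (l 16574168) (l 16583736)))) (a (b (a (l 16554000) (l 16562208)) (a (l 16530216) (l 16538240))) (b (c (l 16573600) (l 16578208)) (c (l 16548992) (l 16554576))))) (b (a (a (b (c (l 16637944) (l 16640208)) (l 16572768)) (b (c (l 16648512) (l 16650512)) (l 16604112))) (b (c (a (l 16659248) (l 16670216)) (a (l 16661112) (l 16671912))) (a (l 16593800) (c (l 16645512) (l 16647912))))) (a (b (c (l 16593880)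 (l 16597616)) (c (l 16569272) (l 16573952))) (b (a (l 16590552) (l 16601544)) (c (l 16591136) (l 16595304)))))) (b (a (a (b (c (a (l 16659704) (l 16690664)) (b (l 16671872) (l 16660528))) (a (c (l 16656656) (l 16658840)) (c (l 16667664) (l 16669560)))) (b (b (c (l 16689768) (l 16690888)) (a (l 16695344) (l 16704984))) (a (b (l 16684328) (l 16673328)) (l 16667728)))) (a (b (a (c (l 16698568) (l 16699592)) (c (l 16708008) (l 16708896))) (a (l 16677528) (l 16687248))) (a (b (b (l 16722832) (l 16712320)) (c (l 16696272) (l 16697448))) (b (b (l 16752648) (l 16721368)) (c (l 16705712) (l 16706744)))))) (b (a (a (a (l 16612744) (l 16603120)) (a (l 16624944) (l 16625240))) (a (c (l 16660768) (l 16662624)) (a (l 16676616) (l 16686512)))) (a (a (a (l 16610064) (l 16600696)) (c (l 16617024) (l 16619920))) (a (c (l 16639912) (l 16642376)) (c (l 16661304) (l 16663464))))))), by decide +kernel⟩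

def k11_pp_022_s : ∃ t, chk3 f_pp_022_s t 4 19 1 = true :=
  ⟨(a (a (b (a (b (c (l 16506080) (l 16514744)) (l 16444248)) (b (l 16485584) (l 16503496))) (a (b (l 16462176) (l 16438200)) (b (l 16479576) (l 16455808)))) (b (a (b (l 16495032) (l 16502664)) (b (c (l 16566968) (l 16572128)) (l 16504048))) (a (b (l 16500040) (l 16476688)) (b (l 16522920) (l 16500200))))) (a (b (a (b (c (l 16590584) (l 16595160)) (l 16507040)) (b (c (l 16615104) (l 16618952)) (l 16553000))) (a (b (l 16526632) (l 16525704)) (c (l 16518056) (l 16545704)))) (b (a (b (c (l 16619000) (l 16622152)) (l 16578488)) (b (c (l 16641936) (l 16644744)) (l 16602944))) (a (c (l 16544808) (l 16550704)) (c (l 16570488) (l 16596584)))))), by decide +kernel⟩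

def k12_pp_022_s : ∃ t, chk3 f_pp_022_s t 5 18 1 = true :=
  ⟨(a (b (a (b (a (b (a (c (l 16761024) (l 16761352)) (c (l 16769272) (l 16769440))) (a (l 16751096) (l 16759544))) (b (a (b (a (c (l 16779032) (l 16776136)) (l 749639544999)) (a (l 16772768) (l 16780512))) (b (l 3) (l 661055840471))) (b (a (l 16769856) (a (l 16775496) (l 317995361671))) (a (l 16765080) (l 16772576))))) (a (a (c (l 16714952) (l 16715840)) (b (l 16749840) (l 16719256))) (a (b (l 16757912) (l 16748384)) (b (l 16765448) (l 16755984))))) (b (a (b (l 3) (a (b (l 3) (l 591799504007)) (l 3))) (l 3)) (a (b (a (b (c (l 16775088) (l 16775160)) (l 16770392)) (c (l 525764383255) (l 555292280551))) (a (l 16763352) (c (l 16770416) (l 16770576)))) (b (l 3) (a (b (a (l 306184143879) (l 3)) (l 234243447527)) (l 683067558231)))))) (a (a (b (a (l 16696032) (l 16705056)) (a (l 16677160) (l 16686256))) (b (c (l 16745624) (l 16738744)) (a (l 16694568) (l 16702360)))) (b (a (a (b (l 16754008) (l 16723736))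 (b (l 16761200) (l 16751960))) (a (b (l 16768160) (l 16758984)) (b (c (b (l 16777128) (l 16772552)) (l 16748744)) (l 16765776)))) (a (c (l 16734136) (l 16735240)) (c (l 16759016) (l 16749240)))))) (b (l 3) (a (b (a (b (a (c (l 571935274119) (l 583209559575)) (l 3)) (a (l 252497062887) (b (l 387788585063) (l 16755488)))) (a (l 3) (l 3))) (a (b (a (l 16763336) (l 16769736)) (a (l 16754384) (l 16760848))) (b (a (c (l 273435008759) (l 16776000)) (l 614348072439)) (a (l 16767088) (l 16762648))))) (b (l 3) (a (b (l 3) (a (c (l 273971864791) (l 286319894727)) (l 3))) (l 3)))))), by decide +kernel⟩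

def k13_pp_022_s : ∃ t, chk3 f_pp_022_s t 5 19 1 = true :=
  ⟨(a (b (a (a (b (l 16642320) (l 16665920)) (b (l 16701216) (l 16662192))) (a (b (l 16716488) (l 16698616)) (b (c (l 16730360) (l 16731552)) (l 16713232)))) (a (a (b (l 16647072) (l 16606528)) (b (l 16665392) (l 16646992))) (a (b (l 16660160) (l 16663856)) (b (l 16695936) (l 16679064))))) (b (b (a (a (c (l 16744072) (l 16744872)) (c (l 16767376) (l 16757352))) (b (a (c (l 241222750935) (l 251423297655)) (a (l 385641064967) (l 3))) (a (l 16767216) (c (l 241222741687) (l 251423287703))))) (a (a (l 16747936) (c (l 16739448) (l 16740304))) (a (c (l 16751632) (l 16752152)) (b (l 16767224) (l 16758880))))) (a (a (b (l 16709864) (l 16693216)) (b (l 16722936) (l 16706504))) (a (b (l 16735168) (l 16718944)) (b (c (l 16746360) (l 16746896)) (l 16730640)))))), by decide +kernel⟩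

def k14_pp_022_s : ∃ t, chk3 f_pp_022_s t 4 5 1 = true :=
  ⟨(b (b (a (b (a (a (b (l 16414280) (l 16390416)) (b (l 16432208) (l 16408768))) (a (b (l 16453616) (l 16430808)) (b (l 16477848) (l 16455856)))) (a (b (a (l 16366528) (l 16385408)) (b (l 16273816) (a (l 16335912) (l 16355608)))) (b (a (l 16408176) (l 16434280)) (b (l 16320640) (a (l 16379424) (l 16406656)))))) (a (b (a (b (l 16504400) (l 16483288)) (b (l 16531976) (l 16511656))) (b (a (l 16462376) (l 16491176)) (b (l 16377456) (a (l 16435680) (l 16464792))))) (b (a (b (l 16559328) (l 16539208)) (b (l 16584872) (l 16565064))) (b (a (l 16519040) (l 16545224)) (c (b (l 16511592) (l 16479232)) (l 16435128)))))) (a (a (a (b (l 16308832) (l 16267816)) (b (l 16329472) (l 16290344))) (a (b (l 16354560) (l 16316704)) (b (l 16382440) (l 16345776)))) (a (a (b (l 16412032) (l 16375672)) (b (l 16441496) (l 16405680))) (b (c (l 16435192) (l 16450104)) (a (l 16434872) (l 16462400)))))) (a (a (b (a (b (l 16228288)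 (l 16189632)) (b (l 16252096) (l 16214648))) (a (l 16133040) (l 16158696))) (b (b (l 16168560) (l 16194640)) (b (l 16220912) (l 16184480)))) (a (a (b (l 16237872) (l 16250256)) (b (l 16268712) (l 16282288))) (b (c (l 16265456) (l 16320616)) (b (l 16345536) (l 16311880)))))), by decide +kernel⟩

def k15_pp_022_s : ∃ t, chk3 f_pp_022_s t 5 5 1 = true :=
  ⟨(b (b (b (a (a (c (a (l 16574088) (l 16594720)) (a (l 16580704) (l 16600240))) (b (a (l 16645768) (l 16662096)) (a (l 16626984) (l 16644168)))) (a (b (a (l 16676824) (l 16690408)) (a (l 16659928) (l 16674272))) (b (a (l 16703080) (l 16714920)) (a (l 16687456) (l 16699416))))) (a (a (b (c (l 16554864) (l 16563000)) (c (b (l 16560488) (l 16528648)) (l 16565360))) (b (l 16627720) (b (l 16603120) (c (l 16568728) (l 16597736))))) (b (a (a (l 16642024) (l 16657200)) (a (l 16671080) (l 16683544))) (b (a (l 16636368) (l 16664784)) (a (c (l 16624936) (l 16630144)) (c (l 16654704) (l 16657464))))))) (b (a (a (c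 (l 16485440) (l 16497184)) (c (l 16526344) (l 16576728))) (a (a (l 16598352) (l 16614272)) (a (l 16628888) (l 16641784)))) (a (a (a (l 16487448) (l 16509424)) (l 16539528)) (a (l 16574472) (l 16603536))))) (a (a (b (a (l 16373960) (l 16397056)) (l 16466592)) (b (b (l 16506696) (l 16474192)) (l 16425280))) (b (a (b (l 16542072) (l 16510064)) (b (l 16571184) (l 16538696))) (a (l 16461592) (l 16490048))))), by decide +kernel⟩

def k16_pp_022_s : ∃ t, chk3 f_pp_022_s t 2 3 1 = true :=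
  ⟨(b (b (a (a (a (b (b (l 16089112) (l 16051848)) (l 15954760)) (b (l 15962840) (l 15996816))) (a (b (a (l 16179752) (l 16213384)) (l 16065256)) (b (l 16177736) (l 16173168)))) (a (a (b (l 16253424) (l 16250488)) (b (l 16318376) (l 16294392))) (b (a (l 16354224) (l 16403832)) (a (l 16330808) (l 16359592))))) (b (a (a (l 6) (a (l 16059336) (l 16127264))) (a (a (l 16183872) (l 16228672)) (l 16282664))) (a (l 6) (l 6)))) (l 6)), by decide +kernel⟩

def k17_pp_022_s : ∃ t, chk3 f_pp_022_s t 3 2 1 = true :=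
  ⟨(b (b (l 3) (a (b (l 3) (a (b (a (b (a (b (l 3) (l 597168208007)) (l 3)) (a (c (b (l 238001511431) (l 16769352)) (b (l 248738928023) (l 16769464))) (b (l 3) (a (l 16755568) (l 324437733543))))) (l 3)) (a (b (a (b (l 16761232) (l 16753192)) (b (l 16760496) (l 16762944))) (a (l 16741336) (l 16772008))) (b (a (b (l 305647242023) (l 16772016)) (b (l 3) (l 302426017575))) (a (b (l 16763968) (l 16755968)) (b (l 16772624) (l 16764536)))))) (b (l 3) (a (b (l 3) (a (b (l 295446697863) (l 16772784)) (b (l 3) (l 288467380423)))) (l 3))))) (l 3))) (a (b (b (b (a (b (a (a (l 16725720) (l 16735256)) (a (l 16744048) (l 16752448))) (a (a (l 16710184) (l 16719560)) (a (l 16728144) (l 16736272)))) (a (b (a (l 16760512) (b (l 16772480) (l 16764120))) (a (l 16744024) (l 16751464))) (a (b (b (l 16751016) (l 16771664)) (l 16758688)) (b (b (l 3) (l 16774144)) (b (l 16770280) (l 16761312)))))) (b (a (a (a (l 16694344) (l 16703688)) (a (l 16712096) (l 16719976))) (a (a (l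 16727408) (l 16734472)) (a (l 16741264) (l 35534061335)))) (b (a (a (l 16686936) (l 16703872)) (a (l 16718536) (l 16731808))) (a (a (b (l 16680520) (l 16676184)) (b (l 16697656) (l 16693488))) (a (b (l 16712304) (l 16708176)) (l 16723440)))))) (b (a (a (l 16658040) (l 16675152)) (a (l 16731584) (l 16702576))) (a (a (l 16625520) (l 16642232)) (a (l 16656376) (l 2))))) (a (b (a (b (l 16592888) (l 16560176)) (l 16655984)) (a (l 16511376) (l 16526912))) (b (a (l 16627216) (l 2)) (l 2)))) (b (b (b (b (b (l 3) (l 2)) (l 2)) (l 2)) (l 2)) (l 2)))), by decide +kernel⟩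

def k18_pp_022_s : ∃ t, chk3 f_pp_022_s t 3 3 1 = true :=
  ⟨(a (b (b (a (a (b (l 16445840) (l 2)) (l 2)) (l 2)) (l 2)) (l 2)) (l 2)), by decide +kernel⟩

theorem s19_pp_022_s : ∃ t, chk3 f_pp_022_s t 3 1 1 = true := ex3_b k17_pp_022_s k18_pp_022_s

theorem s20_pp_022_s : ∃ t, chk3 f_pp_022_s t 2 5 1 = true := ex3_a k14_pp_022_s k15_pp_022_s

theorem s21_pp_022_s : ∃ t, chk3 f_pp_022_s t 5 9 1 = true := ex3_b k12_pp_022_s k13_pp_022_s

theorem s22_pp_022_s : ∃ t, chk3 f_pp_022_s t 4 9 1 = true := ex3_b k10_pp_022_s k11_pp_022_s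

theorem s23_pp_022_s : ∃ t, chk3 f_pp_022_s t 2 9 1 = true := ex3_a s22_pp_022_s s21_pp_022_s

theorem s24_pp_022_s : ∃ t, chk3 f_pp_022_s t 18 17 1 = true := ex3_b k6_pp_022_s k7_pp_022_s

theorem s25_pp_022_s : ∃ t, chk3 f_pp_022_s t 9 17 1 = true := ex3_a s24_pp_022_s k8_pp_022_s

theorem s26_pp_022_s : ∃ t, chk3 f_pp_022_s t 9 8 1 = true := ex3_b k5_pp_022_s s25_pp_022_s

theorem s27_pp_022_s : ∃ t, chk3 f_pp_022_s t 17 33 1 = true := ex3_a k2_pp_022_s k3_pp_022_s

theorem s28_pp_022_s : ∃ t, chk3 f_pp_022_s t 17 16 1 = true := ex3_b k1_pp_022_s s27_pp_022_s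

theorem s29_pp_022_s : ∃ t, chk3 f_pp_022_s t 8 16 1 = true := ex3_a k0_pp_022_s s28_pp_022_s

theorem s30_pp_022_s : ∃ t, chk3 f_pp_022_s t 8 8 1 = true := ex3_b s29_pp_022_s k4_pp_022_s

theorem s31_pp_022_s : ∃ t, chk3 f_pp_022_s t 4 8 1 = true := ex3_a s30_pp_022_s s26_pp_022_s

theorem s32_pp_022_s : ∃ t, chk3 f_pp_022_s t 2 8 1 = true := ex3_a s31_pp_022_s k9_pp_022_s

theorem s33_pp_022_s : ∃ t, chk3 f_pp_022_s t 2 4 1 = true := ex3_b s32_pp_022_s s23_pp_022_s

theorem s34_pp_022_s : ∃ t, chk3 f_pp_022_s t 2 2 1 = true := ex3_b s33_pp_022_s s20_pp_022_s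

theorem s35_pp_022_s : ∃ t, chk3 f_pp_022_s t 2 1 1 = true := ex3_b s34_pp_022_s k16_pp_022_s

theorem s36_pp_022_s : ∃ t, chk3 f_pp_022_s t 1 1 1 = true := ex3_a s35_pp_022_s s19_pp_022_s

theorem c_pp_022_s : CertNE 0 536870912 1073741824 536870912 923417968 42949674 3 eng mog cd0q0 cd4q2 pd2 false true true .pp 0 2 2
    ndB0q0 ndB4q2 pcB2 cut_pp_022_s Ext.none :=
  certNE1 (fam := false) (s1 := true) (s2 := true) (a := 0) (b := 2) (c := 2) (cn := .pp) (n1 := ndB0q0) (n2 := ndB4q2) (pc := pcB2) (cut := cut_pp_022_s) (xt := Ext.none) (P1 := 0) (W1 := 536870912) (P2 := 1073741824) (W2 := 536870912) (P3 := 923417968) (W3 := 42949674) (N0 := 3) (En := eng) (mo := mog) (C1 := cd0q0) (C2 := cd4q2) (C3 := pd2)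
    rfl (fun _ => rfl) s36_pp_022_s

noncomputable def cut_pp_023_s : Cut := Cut.of [[⟨4, 0, 0, 1449551462⟩]]

noncomputable def f_pp_023_s : ℕ → ℕ → ℕ → ℕ → Bool := onCell 1073741824 536870912 0 1230186008 923417968 42949674
    (rowNE 3 eng mog cd0q0 cd4q3 pd2 2 false true true .up 0 2 3 (qsf 0 536870912 0 1230186008 2) ndB0q0 ndB4q3 pcB2 cut_pp_023_s Ext.none)

def k0_pp_023_s : ∃ t, chk3 f_pp_023_s t 2 1 1 = true :=
  ⟨(b (l 2) (a (b (l 2) (b (l 2) (l 3))) (b (a (l 2) (b (l 2) (a (l 2) (b (l 2) (l 353361480903))))) (b (b (a (a (l 2) (a (l 2) (l 234713278791))) (a (b (l 16702584) (l 16675024)) (b (l 16652576) (l 16640824)))) (b (a (a (l 2) (a (l 16757816) (l 16729976))) (a (l 16685800) (l 16620984))) (a (a (a (l 3) (a (l 3) (a (c (l 247665312423) (l 246054699911)) (l 16770712)))) (a (l 16772760) (l 16721024))) (a (l 16671312) (l 16599072))))) (a (a (a (b (l 3) (b (a (l 3) (a (l 3) (b (l 254644496487) (l 16755072)))) (a (b (l 3) (a (l 3) (l 355576250935)))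 (a (b (l 16727920) (l 16773448)) (b (l 16770456) (l 16762664)))))) (a (b (b (a (l 3) (b (l 16768848) (l 16774024))) (a (b (l 3) (l 16772720)) (b (l 16774816) (l 16769320)))) (b (a (b (l 16773592) (l 16766760)) (b (l 16762712) (l 16755720))) (b (a (l 16759424) (l 16748784)) (a (l 16751936) (l 16741520))))) (b (a (b (a (l 16774240) (l 16769984)) (b (l 16765192) (l 16759296))) (b (l 16763728) (l 16752912))) (a (b (b (l 16752352) (l 16745376)) (b (l 16738576) (l 16731400))) (b (l 16718104) (l 16725048)))))) (b (b (a (l 16763392) (l 16707072)) (b (l 16734168) (l 16726152))) (b (b (a (l 16717504) (l 16677248)) (l 16690312)) (b (l 16683648) (l 16676440))))) (a (b (b (l 16587776) (a (l 16650888) (l 16610944))) (b (b (l 16618200) (l 16611360)) (l 16600504))) (b (b (l 16575736) (l 16553000)) (b (l 16536360) (l 16478680))))))))), by decide +kernel⟩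

def k1_pp_023_s : ∃ t, chk3 f_pp_023_s t 3 1 1 = true :=
  ⟨(a (b (l 2) (a (b (b (l 2) (b (l 219143938439) (a (l 16618896) (l 16568672)))) (b (b (b (l 16503168) (l 16480848)) (b (l 16412152) (l 16403024))) (b (b (l 16376488) (a (l 16476192) (l 16398864))) (b (a (l 16457720) (l 16375240)) (a (l 16436944) (l 16347696)))))) (b (b (b (l 16560552) (a (l 16580536) (l 6))) (b (l 16630176) (l 16334720))) (a (b (b (l 16455600) (l 16391256)) (b (l 16310512) (b (l 16287112) (l 16250232)))) (b (l 6) (l 6)))))) (b (l 6) (l 6))), by decide +kernel⟩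

theorem s2_pp_023_s : ∃ t, chk3 f_pp_023_s t 1 1 1 = true := ex3_a k0_pp_023_s k1_pp_023_s

theorem c_pp_023_s : CertNE 0 536870912 0 1230186008 923417968 42949674 3 eng mog cd0q0 cd4q3 pd2 false true true .up 0 2 3
    ndB0q0 ndB4q3 pcB2 cut_pp_023_s Ext.none :=
  certNE2 (fam := false) (s1 := true) (s2 := true) (a := 0) (b := 2) (c := 3) (cn := .up) (n1 := ndB0q0) (n2 := ndB4q3) (pc := pcB2) (cut := cut_pp_023_s) (xt := Ext.none) (P1 := 0) (W1 := 536870912) (P2 := 0) (W2 := 1230186008) (P3 := 923417968) (W3 := 42949674) (N0 := 3) (En := eng) (mo := mog) (C1 := cd0q0) (C2 := cd4q3) (C3 := pd2)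
    rfl (fun _ => rfl) s2_pp_023_s

noncomputable def cut_pp_033_s : Cut := Cut.of [[⟨4, 0, 0, 1449551462⟩]]

noncomputable def f_pp_033_s : ℕ → ℕ → ℕ → ℕ → Bool := onCell 1610612736 536870912 0 1230186008 923417968 42949674
    (rowNE 3 eng mog cd0q0 cd4q3 pd3 2 false true true .pnn 0 3 3 (qsf 0 536870912 0 1230186008 3) ndB0q0 ndB4q3 pcB3 cut_pp_033_s Ext.none)

def k0_pp_033_s : ∃ t, chk3 f_pp_033_s t 1 1 1 = true :=
  ⟨(b (l 6) (l 6)), by decide +kernel⟩

theorem c_pp_033_s : CertNE 0 536870912 0 1230186008 923417968 42949674 3 eng mog cd0q0 cd4q3 pd3 false true true .pnn 0 3 3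
    ndB0q0 ndB4q3 pcB3 cut_pp_033_s Ext.none :=
  certNE2 (fam := false) (s1 := true) (s2 := true) (a := 0) (b := 3) (c := 3) (cn := .pnn) (n1 := ndB0q0) (n2 := ndB4q3) (pc := pcB3) (cut := cut_pp_033_s) (xt := Ext.none) (P1 := 0) (W1 := 536870912) (P2 := 0) (W2 := 1230186008) (P3 := 923417968) (W3 := 42949674) (N0 := 3) (En := eng) (mo := mog) (C1 := cd0q0) (C2 := cd4q3) (C3 := pd3)
    rfl (fun _ => rfl) k0_pp_033_s

noncomputable def cut_pp_101_s : Cut := Cut.of [[⟨4, 0, 0, 1449551462⟩]]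

noncomputable def f_pp_101_s : ℕ → ℕ → ℕ → ℕ → Bool := onCell 536870912 536870912 536870912 536870912 923417968 42949674
    (rowNE 3 eng mog cd0q1 cd4q1 pd0 0 false true true .npn 1 0 1 (qsf 536870912 536870912 536870912 536870912 0) ndB0q1 ndB4q1 pcB0 cut_pp_101_s Ext.none)

def k0_pp_101_s : ∃ t, chk3 f_pp_101_s t 1 1 1 = true :=
  ⟨(a (l 3) (l 5)), by decide +kernel⟩

theorem c_pp_101_s : CertNE 536870912 536870912 536870912 536870912 923417968 42949674 3 eng mog cd0q1 cd4q1 pd0 false true true .npn 1 0 1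
    ndB0q1 ndB4q1 pcB0 cut_pp_101_s Ext.none :=
  certNE0 (fam := false) (s1 := true) (s2 := true) (a := 1) (b := 0) (c := 1) (cn := .npn) (n1 := ndB0q1) (n2 := ndB4q1) (pc := pcB0) (cut := cut_pp_101_s) (xt := Ext.none) (P1 := 536870912) (W1 := 536870912) (P2 := 536870912) (W2 := 536870912) (P3 := 923417968) (W3 := 42949674) (N0 := 3) (En := eng) (mo := mog) (C1 := cd0q1) (C2 := cd4q1) (C3 := pd0)
    rfl k0_pp_101_s

noncomputable def cut_pp_102_s : Cut := Cut.of [[⟨4, 0, 0, 1449551462⟩]]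

noncomputable def f_pp_102_s : ℕ → ℕ → ℕ → ℕ → Bool := onCell 536870912 536870912 1073741824 536870912 923417968 42949674
    (rowNE 3 eng mog cd0q1 cd4q2 pd0 0 false true true .npp 1 0 2 (qsf 536870912 536870912 1073741824 536870912 0) ndB0q1 ndB4q2 pcB0 cut_pp_102_s Ext.none)

def k0_pp_102_s : ∃ t, chk3 f_pp_102_s t 1 1 1 = true :=
  ⟨(a (l 3) (b (l 5) (l 3))), by decide +kernel⟩

theorem c_pp_102_s : CertNE 536870912 536870912 1073741824 536870912 923417968 42949674 3 eng mog cd0q1 cd4q2 pd0 false true true .npp 1 0 2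
    ndB0q1 ndB4q2 pcB0 cut_pp_102_s Ext.none :=
  certNE0 (fam := false) (s1 := true) (s2 := true) (a := 1) (b := 0) (c := 2) (cn := .npp) (n1 := ndB0q1) (n2 := ndB4q2) (pc := pcB0) (cut := cut_pp_102_s) (xt := Ext.none) (P1 := 536870912) (W1 := 536870912) (P2 := 1073741824) (W2 := 536870912) (P3 := 923417968) (W3 := 42949674) (N0 := 3) (En := eng) (mo := mog) (C1 := cd0q1) (C2 := cd4q2) (C3 := pd0)
    rfl k0_pp_102_s

noncomputable def cut_pp_112_s : Cut := Cut.of [[⟨4, 0, 0, 1449551462⟩]]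

noncomputable def f_pp_112_s : ℕ → ℕ → ℕ → ℕ → Bool := onCell 536870912 536870912 1073741824 536870912 923417968 42949674
    (rowNE 3 eng mog cd0q1 cd4q2 pd1 0 false true true .dn 1 1 2 (qsf 536870912 536870912 1073741824 536870912 1) ndB0q1 ndB4q2 pcB1 cut_pp_112_s Ext.none)

def k0_pp_112_s : ∃ t, chk3 f_pp_112_s t 1 1 1 = true :=
  ⟨(a (l 3) (b (l 5) (l 3))), by decide +kernel⟩

theorem c_pp_112_s : CertNE 536870912 536870912 1073741824 536870912 923417968 42949674 3 eng mog cd0q1 cd4q2 pd1 false true true .dn 1 1 2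
    ndB0q1 ndB4q2 pcB1 cut_pp_112_s Ext.none :=
  certNE0 (fam := false) (s1 := true) (s2 := true) (a := 1) (b := 1) (c := 2) (cn := .dn) (n1 := ndB0q1) (n2 := ndB4q2) (pc := pcB1) (cut := cut_pp_112_s) (xt := Ext.none) (P1 := 536870912) (W1 := 536870912) (P2 := 1073741824) (W2 := 536870912) (P3 := 923417968) (W3 := 42949674) (N0 := 3) (En := eng) (mo := mog) (C1 := cd0q1) (C2 := cd4q2) (C3 := pd1)
    rfl k0_pp_112_s

noncomputable def cut_pp_113_s : Cut := Cut.of [[⟨4, 0, 0, 1449551462⟩], [⟨0, 1, 0, 67108864⟩, ⟨1, 1, 0, 67108864⟩, ⟨2, 2, 0, 16252928⟩]]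

noncomputable def f_pp_113_s : ℕ → ℕ → ℕ → ℕ → Bool := onCell 536870912 536870912 0 1230186008 923417968 42949674
    (rowNE 3 eng mog cd0q1 cd4q3 pd1 2 false true true .nn 1 1 3 (qsf 536870912 536870912 0 1230186008 1) ndB0q1 ndB4q3 pcB1 cut_pp_113_s Ext.none)

def k0_pp_113_s : ∃ t, chk3 f_pp_113_s t 1 1 1 = true :=
  ⟨(a (b (l 2) (a (b (l 2) (b (l 2) (l 3))) (b (b (l 2) (a (l 2) (l 3))) (l 3)))) (a (b (l 2) (b (l 3) (l 3))) (b (b (a (l 2) (a (l 2) (b (l 14) (l 3)))) (l 3)) (l 3)))), by decide +kernel⟩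

theorem c_pp_113_s : CertNE 536870912 536870912 0 1230186008 923417968 42949674 3 eng mog cd0q1 cd4q3 pd1 false true true .nn 1 1 3
    ndB0q1 ndB4q3 pcB1 cut_pp_113_s Ext.none :=
  certNE2 (fam := false) (s1 := true) (s2 := true) (a := 1) (b := 1) (c := 3) (cn := .nn) (n1 := ndB0q1) (n2 := ndB4q3) (pc := pcB1) (cut := cut_pp_113_s) (xt := Ext.none) (P1 := 536870912) (W1 := 536870912) (P2 := 0) (W2 := 1230186008) (P3 := 923417968) (W3 := 42949674) (N0 := 3) (En := eng) (mo := mog) (C1 := cd0q1) (C2 := cd4q3) (C3 := pd1)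
    rfl (fun _ => rfl) k0_pp_113_s

noncomputable def cut_pp_123_s : Cut := Cut.of [[⟨4, 0, 0, 1449551462⟩], [⟨0, 1, 0, 67108864⟩, ⟨1, 1, 0, 67108864⟩, ⟨2, 2, 0, 16252928⟩]]

noncomputable def f_pp_123_s : ℕ → ℕ → ℕ → ℕ → Bool := onCell 1073741824 536870912 0 1230186008 923417968 42949674
    (rowNE 3 eng mog cd0q1 cd4q3 pd2 2 false true true .npn 1 2 3 (qsf 536870912 536870912 0 1230186008 2) ndB0q1 ndB4q3 pcB2 cut_pp_123_s Ext.none)

def k0_pp_123_s : ∃ t, chk3 f_pp_123_s t 8 2 1 = true :=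
  ⟨(b (b (a (l 14) (a (l 14) (a (l 14) (b (l 16599360) (b (l 16686784) (b (l 16709392) (c (l 16722624) (l 16747568)))))))) (b (a (l 3) (b (a (l 14) (a (a (l 14) (a (b (l 14) (b (l 14) (b (c (l 375977402871) (l 374366795239)) (l 3)))) (b (l 16756128) (c (b (l 16772136) (b (l 16775184) (l 327659017975))) (c (l 228874771223) (l 233169738615)))))) (b (a (a (l 16742488) (l 16739000)) (l 16775072)) (b (c (l 16763936) (l 16765512)) (a (c (l 16773920) (l 16771992)) (l 16765480)))))) (a (l 3) (b (a (a (l 3) (a (l 3) (a (l 3) (c (l 408726527799) (l 405505302087))))) (a (a (b (c (b (l 231022258615) (l 358797529287)) (l 322290306167)) (l 3)) (b (c (l 16773728) (l 16774136)) (c (b (l 308331664311) (l 389936051175)) (l 341617660343)))) (a (b (l 16760352) (c (l 220284840743) (l 16774832))) (c (l 16769208) (l 16770176))))) (a (l 3) (a (l 3) (b (c (c (a (l 365239979351) (l 222969194935)) (l 317458462247)) (a (l 360945022295) (l 239075320983))) (a (l 3) (c (l 382956723287)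 (l 379735502903)))))))))) (l 3))) (l 3)), by decide +kernel⟩

def k1_pp_123_s : ∃ t, chk3 f_pp_123_s t 18 4 1 = true :=
  ⟨(b (b (a (l 16540888) (l 16611368)) (a (b (l 16622736) (a (l 16678080) (l 16705464))) (b (l 16665280) (l 16667576)))) (a (b (b (a (b (l 16762280) (a (l 16736104) (l 16750168))) (c (l 16728128) (l 16735520))) (a (b (a (c (l 16743488) (l 16766064)) (l 16759720)) (a (c (b (l 16770424) (a (a (l 301889217239) (l 16775136)) (l 16772744))) (c (l 227801027991) (l 232632866071))) (c (l 16766264) (l 16767744)))) (b (c (l 16748280) (l 16752624)) (c (l 16757736) (l 16760840))))) (a (b (b (c (a (b (a (l 399062854647) (l 302426083911)) (l 419463944967)) (b (l 16771920) (a (l 320142825191) (l 16774072)))) (a (b (a (l 395304758119) (l 303499828039)) (l 422685170231)) (c (l 233169735351) (l 236390960743)))) (a (l 3) (b (a (l 3) (c (l 335175209751) (l 323900920999))) (l 3)))) (l 3)) (a (b (b (c (l 16767872) (l 16769232)) (c (b (l 224042935495) (a (l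 349670733911) (l 16773840))) (c (l 237464701047) (l 238538442855)))) (b (b (a (l 3) (c (l 362555634951) (l 329269629079))) (l 3)) (l 3))) (b (b (l 16763544) (c (l 16769152) (l 16770408))) (c (b (c (a (l 319605948983) (l 226190418567)) (l 297057362999)) (b (l 392083530647) (l 3))) (b (c (l 241759666663) (l 240685925255)) (l 415705847319))))))) (b (b (a (l 16696984) (l 16706264)) (a (b (l 16715208) (l 16747752)) (l 16728712))) (b (a (b (c (l 16754408) (l 16758464)) (c (l 16761424) (l 16764136))) (c (l 16746248) (l 16752104))) (b (a (a (c (l 16770224) (l 16771376)) (l 16766120)) (l 16739200)) (c (a (a (c (b (l 232095997831) (l 335712069367)) (l 306721040839)) (l 16771080)) (l 16763840)) (a (a (b (l 239612188695) (l 335712068935)) (l 16772144)) (l 16766392)))))))), by decide +kernel⟩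

def k2_pp_123_s : ∃ t, chk3 f_pp_123_s t 18 5 1 = true :=
  ⟨(a (l 3) (b (b (a (b (a (b (c (l 412484621127) (l 416779588327)) (l 3)) (c (b (b (l 243370284279) (l 340543917095)) (l 411410878759)) (b (b (l 243907155111) (l 340543927303)) (l 415705846023)))) (l 3)) (b (c (b (a (l 16771744) (l 16766960)) (a (a (l 339470174887) (l 250349605783)) (l 16772224))) (b (a (l 16772744) (l 16768952)) (a (b (l 288467440583) (l 317995335719)) (l 16773184)))) (a (l 3) (b (c (a (l 330880250471) (l 270213829431)) (l 307257914807)) (l 3))))) (l 3)) (l 3))), by decide +kernel⟩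

def k3_pp_123_s : ∃ t, chk3 f_pp_123_s t 19 2 1 = true :=
  ⟨(b (b (b (a (l 16627760) (l 16627640)) (c (l 16600720) (l 16634240))) (b (a (c (l 16651312) (l 16711816)) (l 16687864)) (a (b (a (l 16737560) (l 16726432)) (a (c (l 16751432) (l 16756960)) (l 16744504))) (c (l 16713144) (l 16729936))))) (a (a (b (b (b (b (l 16762360) (c (l 16765520) (l 16767968))) (a (c (b (l 16772552) (l 294909881031)) (b (l 16773488) (l 301889205959))) (b (l 16769072) (c (l 16772728) (l 16773672))))) (b (a (l 3) (b (c (l 287393709415) (l 295446755495)) (a (l 3) (l 393157271751)))) (l 3))) (l 3)) (b (c (b (b (l 16755232) (l 16764496)) (b (a (b (l 16772784) (l 276656273495)) (l 16770792)) (a (l 386714813591) (b (l 260013276119) (l 378124885543))))) (b (b (l 16760496) (l 16767400)) (b (a (b (l 16773752) (l 286319950279)) (l 16772264)) (a (l 391009781207) (b (l 272898178807) (l 380272369415)))))) (l 3))) (b (b (b (c (l 16740304) (l 16749760)) (a (c (l 16758088) (l 16763088))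 (l 16754072))) (a (b (c (l 16765664) (l 16768568)) (a (b (l 16773200) (c (l 16768480) (l 16776704))) (b (l 16770256) (l 16773072)))) (b (l 16762680) (a (l 16769040) (l 16766760))))) (b (a (b (a (b (l 355576309127) (l 3)) (b (l 254107692407) (l 313700362535))) (l 3)) (a (b (b (l 16772864) (l 16770184)) (b (l 305647301255) (l 3))) (b (l 16771432) (b (l 16774856) (l 298667982103))))) (a (l 3) (b (a (l 3) (l 348596983431)) (l 3))))))), by decide +kernel⟩

def k4_pp_123_s : ∃ t, chk3 f_pp_123_s t 5 2 1 = true :=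
  ⟨(b (b (a (a (a (b (l 16628216) (l 16654144)) (a (l 16512504) (b (l 6) (l 16658256)))) (b (l 6) (l 16660424))) (l 6)) (a (a (a (b (l 16679360) (c (l 16694832) (l 16720104))) (b (a (l 16676248) (l 16675040)) (a (l 16699352) (l 16694776)))) (b (l 16678640) (l 16691312))) (a (b (l 16687960) (l 16690272)) (b (l 6) (l 16689032))))) (a (a (a (b (b (c (l 16726720) (l 16741896)) (b (a (l 16756944) (l 16748240)) (a (l 16763800) (l 16757568)))) (b (b (a (l 16768016) (l 16763104)) (a (a (l 16773256) (l 16770832)) (l 16767576))) (a (b (a (b (l 16776488) (l 305647301719)) (l 229411626247)) (a (l 3) (l 302426068519))) (a (b (l 16772136) (l 16786096)) (b (l 16769792) (l 16773072)))))) (b (b (a (l 16722296) (c (l 16701248) (l 16728480))) (a (b (l 16738424) (l 16747888)) (c (l 16723816) (l 16741456)))) (b (b (a (l 16755744) (a (l 16747192) (l 16740512))) (a (l 16761176) (a (l 16753856) (l 16746576)))) (b (a (l 16765424) (a (l 16758472) (l 16730856))) (a (a (l 16770336)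 (l 16766536)) (a (l 16761616) (a (l 16757264) (l 16753888)))))))) (b (b (c (l 16687848) (l 16721784)) (a (l 16721224) (l 16709776))) (a (b (l 16731768) (b (l 16737152) (l 16740576))) (b (l 16714472) (l 16718232))))) (a (b (b (l 16692584) (l 16692776)) (b (l 16691632) (l 16690704))) (b (b (l 16681000) (l 16673408)) (b (l 16665320) (l 16663152)))))), by decide +kernel⟩

def k5_pp_123_s : ∃ t, chk3 f_pp_123_s t 3 2 1 = true :=
  ⟨(a (b (l 6) (a (b (b (l 6) (l 16655712)) (b (l 16642072) (a (l 16641840) (l 16624216)))) (l 6))) (l 6)), by decide +kernel⟩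

def k6_pp_123_s : ∃ t, chk3 f_pp_123_s t 1 6 1 = true :=
  ⟨(a (a (l 3) (a (a (a (b (b (a (l 3) (b (a (l 304573552871) (l 16786704)) (a (l 3) (l 298668023479)))) (l 3)) (l 3)) (b (a (b (a (b (l 16773104) (l 16786744)) (b (l 16769208) (l 16772192))) (a (b (l 291688702263) (l 3)) (b (l 16775608) (l 16791280)))) (b (a (b (l 16764008) (l 16767096)) (b (l 16778992) (l 16761168))) (a (b (l 16791752) (a (l 16775432) (l 16772776))) (b (l 16764992) (l 16768544))))) (a (l 3) (b (a (b (b (l 16797488) (l 16797472)) (l 286320015527)) (b (l 16771856) (l 16774536))) (a (l 3) (b (l 16776440) (l 16776856))))))) (b (a (b (b (l 16743960) (l 16747016)) (b (l 16751168) (l 16755416))) (b (l 16723848) (l 16733448))) (b (a (b (l 16758744) (l 16761112)) (l 16739680)) (a (b (l 16762456) (l 16762928)) (l 16761096))))) (b (a (b (b (l 16695184) (l 16678904)) (l 16727408)) (b (l 16667376) (l 16632408))) (a (b (l 16710376) (b (l 16708416) (l 16705704))) (b (l 16651520) (b (l 16666296)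 (l 16660904))))))) (a (b (a (b (l 16630016) (a (l 16642960) (l 16611832))) (b (l 16581456) (l 16562936))) (a (b (a (l 16635128) (l 16597488)) (b (l 16538568) (l 16502352))) (b (a (l 16555200) (l 1)) (l 1)))) (l 6))), by decide +kernel⟩

def k7_pp_123_s : ∃ t, chk3 f_pp_123_s t 1 7 1 = true :=
  ⟨(a (b (a (l 3) (a (a (a (l 3) (a (l 3) (b (a (l 3) (b (l 16776608) (l 16776856))) (a (b (l 273435117239) (c (l 248202185863) (l 246591573031))) (b (l 16774632) (l 16770664)))))) (b (b (a (l 16762392) (l 16737976)) (a (l 16760656) (l 16734792))) (b (a (l 16789232) (l 16729904)) (a (b (l 16753808) (l 1)) (l 1))))) (b (a (b (l 16702552) (l 16695872)) (b (l 16652424) (l 1))) (l 1)))) (a (l 3) (a (a (a (b (l 3) (l 1)) (l 1)) (l 1)) (l 1)))) (l 1)), by decide +kernel⟩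

theorem s8_pp_123_s : ∃ t, chk3 f_pp_123_s t 1 3 1 = true := ex3_b k6_pp_123_s k7_pp_123_s

theorem s9_pp_123_s : ∃ t, chk3 f_pp_123_s t 18 2 1 = true := ex3_b k1_pp_123_s k2_pp_123_s

theorem s10_pp_123_s : ∃ t, chk3 f_pp_123_s t 9 2 1 = true := ex3_a s9_pp_123_s k3_pp_123_s

theorem s11_pp_123_s : ∃ t, chk3 f_pp_123_s t 4 2 1 = true := ex3_a k0_pp_123_s s10_pp_123_s

theorem s12_pp_123_s : ∃ t, chk3 f_pp_123_s t 2 2 1 = true := ex3_a s11_pp_123_s k4_pp_123_s

theorem s13_pp_123_s : ∃ t, chk3 f_pp_123_s t 1 2 1 = true := ex3_a s12_pp_123_s k5_pp_123_s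

theorem s14_pp_123_s : ∃ t, chk3 f_pp_123_s t 1 1 1 = true := ex3_b s13_pp_123_s s8_pp_123_s

theorem c_pp_123_s : CertNE 536870912 536870912 0 1230186008 923417968 42949674 3 eng mog cd0q1 cd4q3 pd2 false true true .npn 1 2 3
    ndB0q1 ndB4q3 pcB2 cut_pp_123_s Ext.none :=
  certNE2 (fam := false) (s1 := true) (s2 := true) (a := 1) (b := 2) (c := 3) (cn := .npn) (n1 := ndB0q1) (n2 := ndB4q3) (pc := pcB2) (cut := cut_pp_123_s) (xt := Ext.none) (P1 := 536870912) (W1 := 536870912) (P2 := 0) (W2 := 1230186008) (P3 := 923417968) (W3 := 42949674) (N0 := 3) (En := eng) (mo := mog) (C1 := cd0q1) (C2 := cd4q3) (C3 := pd2)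
    rfl (fun _ => rfl) s14_pp_123_s

noncomputable def cut_pp_133_s : Cut := Cut.of [[⟨4, 0, 0, 1449551462⟩]]

noncomputable def f_pp_133_s : ℕ → ℕ → ℕ → ℕ → Bool := onCell 1610612736 536870912 0 1230186008 923417968 42949674
    (rowNE 3 eng mog cd0q1 cd4q3 pd3 2 false true true .dn 1 3 3 (qsf 536870912 536870912 0 1230186008 3) ndB0q1 ndB4q3 pcB3 cut_pp_133_s Ext.none)

def k0_pp_133_s : ∃ t, chk3 f_pp_133_s t 1 1 1 = true :=
  ⟨(b (l 6) (l 1)), by decide +kernel⟩

theorem c_pp_133_s : CertNE 536870912 536870912 0 1230186008 923417968 42949674 3 eng mog cd0q1 cd4q3 pd3 false true true .dn 1 3 3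
    ndB0q1 ndB4q3 pcB3 cut_pp_133_s Ext.none :=
  certNE2 (fam := false) (s1 := true) (s2 := true) (a := 1) (b := 3) (c := 3) (cn := .dn) (n1 := ndB0q1) (n2 := ndB4q3) (pc := pcB3) (cut := cut_pp_133_s) (xt := Ext.none) (P1 := 536870912) (W1 := 536870912) (P2 := 0) (W2 := 1230186008) (P3 := 923417968) (W3 := 42949674) (N0 := 3) (En := eng) (mo := mog) (C1 := cd0q1) (C2 := cd4q3) (C3 := pd3)
    rfl (fun _ => rfl) k0_pp_133_s

noncomputable def cut_pp_202_s : Cut := Cut.of [[⟨4, 0, 0, 1449551462⟩]]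

noncomputable def f_pp_202_s : ℕ → ℕ → ℕ → ℕ → Bool := onCell 0 536870912 1073741824 536870912 923417968 42949674
    (rowNE 3 eng mog cd0q2 cd4q2 pd0 0 false true true .pp 2 0 2 (qsf 0 536870912 1073741824 536870912 0) ndB0q2 ndB4q2 pcB0 cut_pp_202_s Ext.none)

def k0_pp_202_s : ∃ t, chk3 f_pp_202_s t 1 1 1 = true :=
  ⟨(l 5), by decide +kernel⟩

theorem c_pp_202_s : CertNE 0 536870912 1073741824 536870912 923417968 42949674 3 eng mog cd0q2 cd4q2 pd0 false true true .pp 2 0 2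
    ndB0q2 ndB4q2 pcB0 cut_pp_202_s Ext.none :=
  certNE0 (fam := false) (s1 := true) (s2 := true) (a := 2) (b := 0) (c := 2) (cn := .pp) (n1 := ndB0q2) (n2 := ndB4q2) (pc := pcB0) (cut := cut_pp_202_s) (xt := Ext.none) (P1 := 0) (W1 := 536870912) (P2 := 1073741824) (W2 := 536870912) (P3 := 923417968) (W3 := 42949674) (N0 := 3) (En := eng) (mo := mog) (C1 := cd0q2) (C2 := cd4q2) (C3 := pd0)
    rfl k0_pp_202_s

noncomputable def cut_pp_203_s : Cut := Cut.of [[⟨4, 0, 0, 1449551462⟩]]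

noncomputable def f_pp_203_s : ℕ → ℕ → ℕ → ℕ → Bool := onCell 0 536870912 0 1230186008 923417968 42949674
    (rowNE 3 eng mog cd0q2 cd4q3 pd0 0 false true true .up 2 0 3 (qsf 0 536870912 0 1230186008 0) ndB0q2 ndB4q3 pcB0 cut_pp_203_s Ext.none)

def k0_pp_203_s : ∃ t, chk3 f_pp_203_s t 1 1 1 = true :=
  ⟨(b (l 2) (b (l 2) (a (l 5) (l 3)))), by decide +kernel⟩

theorem c_pp_203_s : CertNE 0 536870912 0 1230186008 923417968 42949674 3 eng mog cd0q2 cd4q3 pd0 false true true .up 2 0 3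
    ndB0q2 ndB4q3 pcB0 cut_pp_203_s Ext.none :=
  certNE0 (fam := false) (s1 := true) (s2 := true) (a := 2) (b := 0) (c := 3) (cn := .up) (n1 := ndB0q2) (n2 := ndB4q3) (pc := pcB0) (cut := cut_pp_203_s) (xt := Ext.none) (P1 := 0) (W1 := 536870912) (P2 := 0) (W2 := 1230186008) (P3 := 923417968) (W3 := 42949674) (N0 := 3) (En := eng) (mo := mog) (C1 := cd0q2) (C2 := cd4q3) (C3 := pd0)
    rfl k0_pp_203_s

noncomputable def cut_pp_213_s : Cut := Cut.of [[⟨4, 0, 0, 1449551462⟩], [⟨0, 1, 0, 67108864⟩, ⟨1, 1, 0, 67108864⟩, ⟨2, 2, 0, 16252928⟩]]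

noncomputable def f_pp_213_s : ℕ → ℕ → ℕ → ℕ → Bool := onCell 0 536870912 0 1230186008 923417968 42949674
    (rowNE 3 eng mog cd0q2 cd4q3 pd1 0 false true true .pnn 2 1 3 (qsf 0 536870912 0 1230186008 1) ndB0q2 ndB4q3 pcB1 cut_pp_213_s Ext.none)

def k0_pp_213_s : ∃ t, chk3 f_pp_213_s t 1 1 1 = true :=
  ⟨(a (b (l 3) (l 5)) (b (b (a (l 3) (a (l 3) (b (l 14) (l 3)))) (l 3)) (b (l 3) (l 3)))), by decide +kernel⟩

theorem c_pp_213_s : CertNE 0 536870912 0 1230186008 923417968 42949674 3 eng mog cd0q2 cd4q3 pd1 false true true .pnn 2 1 3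
    ndB0q2 ndB4q3 pcB1 cut_pp_213_s Ext.none :=
  certNE0 (fam := false) (s1 := true) (s2 := true) (a := 2) (b := 1) (c := 3) (cn := .pnn) (n1 := ndB0q2) (n2 := ndB4q3) (pc := pcB1) (cut := cut_pp_213_s) (xt := Ext.none) (P1 := 0) (W1 := 536870912) (P2 := 0) (W2 := 1230186008) (P3 := 923417968) (W3 := 42949674) (N0 := 3) (En := eng) (mo := mog) (C1 := cd0q2) (C2 := cd4q3) (C3 := pd1)
    rfl k0_pp_213_s

noncomputable def cut_pm_001_s : Cut := Cut.of [[⟨4, 0, 0, 1449551462⟩]]

noncomputable def f_pm_001_s : ℕ → ℕ → ℕ → ℕ → Bool := onCell 0 536870912 536870912 536870912 923417968 42949674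
    (rowNE 3 eng mog cd0q0 cd4q1 pd0 0 false true false .up 0 0 1 (qsf 0 536870912 536870912 536870912 0) ndB0q0 ndB4q1 pcB0 cut_pm_001_s Ext.none)

def k0_pm_001_s : ∃ t, chk3 f_pm_001_s t 1 1 1 = true :=
  ⟨(l 4), by decide +kernel⟩

theorem c_pm_001_s : CertNE 0 536870912 536870912 536870912 923417968 42949674 3 eng mog cd0q0 cd4q1 pd0 false true false .up 0 0 1
    ndB0q0 ndB4q1 pcB0 cut_pm_001_s Ext.none :=
  certNE0 (fam := false) (s1 := true) (s2 := false) (a := 0) (b := 0) (c := 1) (cn := .up) (n1 := ndB0q0) (n2 := ndB4q1) (pc := pcB0) (cut := cut_pm_001_s) (xt := Ext.none) (P1 := 0) (W1 := 536870912) (P2 := 536870912) (W2 := 536870912) (P3 := 923417968) (W3 := 42949674) (N0 := 3) (En := eng) (mo := mog) (C1 := cd0q0) (C2 := cd4q1) (C3 := pd0)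
    rfl k0_pm_001_s

noncomputable def cut_pm_011_s : Cut := Cut.of [[⟨4, 0, 0, 1449551462⟩]]

noncomputable def f_pm_011_s : ℕ → ℕ → ℕ → ℕ → Bool := onCell 0 536870912 536870912 536870912 923417968 42949674
    (rowNE 3 eng mog cd0q0 cd4q1 pd1 0 false true false .pnn 0 1 1 (qsf 0 536870912 536870912 536870912 1) ndB0q0 ndB4q1 pcB1 cut_pm_011_s Ext.none)

def k0_pm_011_s : ∃ t, chk3 f_pm_011_s t 1 1 1 = true :=
  ⟨(l 4), by decide +kernel⟩

theorem c_pm_011_s : CertNE 0 536870912 536870912 536870912 923417968 42949674 3 eng mog cd0q0 cd4q1 pd1 false true false .pnn 0 1 1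
    ndB0q0 ndB4q1 pcB1 cut_pm_011_s Ext.none :=
  certNE0 (fam := false) (s1 := true) (s2 := false) (a := 0) (b := 1) (c := 1) (cn := .pnn) (n1 := ndB0q0) (n2 := ndB4q1) (pc := pcB1) (cut := cut_pm_011_s) (xt := Ext.none) (P1 := 0) (W1 := 536870912) (P2 := 536870912) (W2 := 536870912) (P3 := 923417968) (W3 := 42949674) (N0 := 3) (En := eng) (mo := mog) (C1 := cd0q0) (C2 := cd4q1) (C3 := pd1)
    rfl k0_pm_011_s

noncomputable def cut_pm_012_s : Cut := Cut.of [[⟨4, 0, 0, 1449551462⟩]]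

noncomputable def f_pm_012_s : ℕ → ℕ → ℕ → ℕ → Bool := onCell 0 536870912 1073741824 536870912 923417968 42949674
    (rowNE 3 eng mog cd0q0 cd4q2 pd1 0 false true false .pnp 0 1 2 (qsf 0 536870912 1073741824 536870912 1) ndB0q0 ndB4q2 pcB1 cut_pm_012_s Ext.none)

def k0_pm_012_s : ∃ t, chk3 f_pm_012_s t 1 1 1 = true :=
  ⟨(l 4), by decide +kernel⟩

theorem c_pm_012_s : CertNE 0 536870912 1073741824 536870912 923417968 42949674 3 eng mog cd0q0 cd4q2 pd1 false true false .pnp 0 1 2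
    ndB0q0 ndB4q2 pcB1 cut_pm_012_s Ext.none :=
  certNE0 (fam := false) (s1 := true) (s2 := false) (a := 0) (b := 1) (c := 2) (cn := .pnp) (n1 := ndB0q0) (n2 := ndB4q2) (pc := pcB1) (cut := cut_pm_012_s) (xt := Ext.none) (P1 := 0) (W1 := 536870912) (P2 := 1073741824) (W2 := 536870912) (P3 := 923417968) (W3 := 42949674) (N0 := 3) (En := eng) (mo := mog) (C1 := cd0q0) (C2 := cd4q2) (C3 := pd1)
    rfl k0_pm_012_s

noncomputable def cut_pm_022_s : Cut := Cut.of [[⟨4, 0, 0, 1449551462⟩]]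

noncomputable def f_pm_022_s : ℕ → ℕ → ℕ → ℕ → Bool := onCell 0 536870912 1073741824 536870912 923417968 42949674
    (rowNE 3 eng mog cd0q0 cd4q2 pd2 0 false true false .pp 0 2 2 (qsf 0 536870912 1073741824 536870912 2) ndB0q0 ndB4q2 pcB2 cut_pm_022_s Ext.none)

def k0_pm_022_s : ∃ t, chk3 f_pm_022_s t 1 1 1 = true :=
  ⟨(l 4), by decide +kernel⟩

theorem c_pm_022_s : CertNE 0 536870912 1073741824 536870912 923417968 42949674 3 eng mog cd0q0 cd4q2 pd2 false true false .pp 0 2 2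
    ndB0q0 ndB4q2 pcB2 cut_pm_022_s Ext.none :=
  certNE0 (fam := false) (s1 := true) (s2 := false) (a := 0) (b := 2) (c := 2) (cn := .pp) (n1 := ndB0q0) (n2 := ndB4q2) (pc := pcB2) (cut := cut_pm_022_s) (xt := Ext.none) (P1 := 0) (W1 := 536870912) (P2 := 1073741824) (W2 := 536870912) (P3 := 923417968) (W3 := 42949674) (N0 := 3) (En := eng) (mo := mog) (C1 := cd0q0) (C2 := cd4q2) (C3 := pd2)
    rfl k0_pm_022_s

noncomputable def cut_pm_023_s : Cut := Cut.of [[⟨4, 0, 0, 1449551462⟩]]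

noncomputable def f_pm_023_s : ℕ → ℕ → ℕ → ℕ → Bool := onCell 0 536870912 0 1230186008 923417968 42949674
    (rowNE 3 eng mog cd0q0 cd4q3 pd2 0 false true false .up 0 2 3 (qsf 0 536870912 0 1230186008 2) ndB0q0 ndB4q3 pcB2 cut_pm_023_s Ext.none)

def k0_pm_023_s : ∃ t, chk3 f_pm_023_s t 1 1 1 = true :=
  ⟨(l 6), by decide +kernel⟩

theorem c_pm_023_s : CertNE 0 536870912 0 1230186008 923417968 42949674 3 eng mog cd0q0 cd4q3 pd2 false true false .up 0 2 3
    ndB0q0 ndB4q3 pcB2 cut_pm_023_s Ext.none :=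
  certNE0 (fam := false) (s1 := true) (s2 := false) (a := 0) (b := 2) (c := 3) (cn := .up) (n1 := ndB0q0) (n2 := ndB4q3) (pc := pcB2) (cut := cut_pm_023_s) (xt := Ext.none) (P1 := 0) (W1 := 536870912) (P2 := 0) (W2 := 1230186008) (P3 := 923417968) (W3 := 42949674) (N0 := 3) (En := eng) (mo := mog) (C1 := cd0q0) (C2 := cd4q3) (C3 := pd2)
    rfl k0_pm_023_s

noncomputable def cut_pm_033_s : Cut := Cut.of [[⟨4, 0, 0, 1449551462⟩]]

noncomputable def f_pm_033_s : ℕ → ℕ → ℕ → ℕ → Bool := onCell 0 536870912 0 1230186008 923417968 42949674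
    (rowNE 3 eng mog cd0q0 cd4q3 pd3 0 false true false .pnn 0 3 3 (qsf 0 536870912 0 1230186008 3) ndB0q0 ndB4q3 pcB3 cut_pm_033_s Ext.none)

def k0_pm_033_s : ∃ t, chk3 f_pm_033_s t 1 1 1 = true :=
  ⟨(l 6), by decide +kernel⟩

theorem c_pm_033_s : CertNE 0 536870912 0 1230186008 923417968 42949674 3 eng mog cd0q0 cd4q3 pd3 false true false .pnn 0 3 3
    ndB0q0 ndB4q3 pcB3 cut_pm_033_s Ext.none :=
  certNE0 (fam := false) (s1 := true) (s2 := false) (a := 0) (b := 3) (c := 3) (cn := .pnn) (n1 := ndB0q0) (n2 := ndB4q3) (pc := pcB3) (cut := cut_pm_033_s) (xt := Ext.none) (P1 := 0) (W1 := 536870912) (P2 := 0) (W2 := 1230186008) (P3 := 923417968) (W3 := 42949674) (N0 := 3) (En := eng) (mo := mog) (C1 := cd0q0) (C2 := cd4q3) (C3 := pd3)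
    rfl k0_pm_033_s

noncomputable def cut_pm_101_s : Cut := Cut.of [[⟨4, 0, 0, 1449551462⟩]]

noncomputable def f_pm_101_s : ℕ → ℕ → ℕ → ℕ → Bool := onCell 536870912 536870912 536870912 536870912 923417968 42949674
    (rowNE 3 eng mog cd0q1 cd4q1 pd0 0 false true false .npn 1 0 1 (qsf 536870912 536870912 536870912 536870912 0) ndB0q1 ndB4q1 pcB0 cut_pm_101_s Ext.none)

def k0_pm_101_s : ∃ t, chk3 f_pm_101_s t 1 1 1 = true :=
  ⟨(l 4), by decide +kernel⟩

theorem c_pm_101_s : CertNE 536870912 536870912 536870912 536870912 923417968 42949674 3 eng mog cd0q1 cd4q1 pd0 false true false .npn 1 0 1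
    ndB0q1 ndB4q1 pcB0 cut_pm_101_s Ext.none :=
  certNE0 (fam := false) (s1 := true) (s2 := false) (a := 1) (b := 0) (c := 1) (cn := .npn) (n1 := ndB0q1) (n2 := ndB4q1) (pc := pcB0) (cut := cut_pm_101_s) (xt := Ext.none) (P1 := 536870912) (W1 := 536870912) (P2 := 536870912) (W2 := 536870912) (P3 := 923417968) (W3 := 42949674) (N0 := 3) (En := eng) (mo := mog) (C1 := cd0q1) (C2 := cd4q1) (C3 := pd0)
    rfl k0_pm_101_s

noncomputable def cut_pm_102_s : Cut := Cut.of [[⟨4, 0, 0, 1449551462⟩]]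

noncomputable def f_pm_102_s : ℕ → ℕ → ℕ → ℕ → Bool := onCell 536870912 536870912 1073741824 536870912 923417968 42949674
    (rowNE 3 eng mog cd0q1 cd4q2 pd0 0 false true false .npp 1 0 2 (qsf 536870912 536870912 1073741824 536870912 0) ndB0q1 ndB4q2 pcB0 cut_pm_102_s Ext.none)

def k0_pm_102_s : ∃ t, chk3 f_pm_102_s t 1 1 1 = true :=
  ⟨(l 6), by decide +kernel⟩

theorem c_pm_102_s : CertNE 536870912 536870912 1073741824 536870912 923417968 42949674 3 eng mog cd0q1 cd4q2 pd0 false true false .npp 1 0 2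
    ndB0q1 ndB4q2 pcB0 cut_pm_102_s Ext.none :=
  certNE0 (fam := false) (s1 := true) (s2 := false) (a := 1) (b := 0) (c := 2) (cn := .npp) (n1 := ndB0q1) (n2 := ndB4q2) (pc := pcB0) (cut := cut_pm_102_s) (xt := Ext.none) (P1 := 536870912) (W1 := 536870912) (P2 := 1073741824) (W2 := 536870912) (P3 := 923417968) (W3 := 42949674) (N0 := 3) (En := eng) (mo := mog) (C1 := cd0q1) (C2 := cd4q2) (C3 := pd0)
    rfl k0_pm_102_s

noncomputable def cut_pm_112_s : Cut := Cut.of [[⟨4, 0, 0, 1449551462⟩]]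

noncomputable def f_pm_112_s : ℕ → ℕ → ℕ → ℕ → Bool := onCell 536870912 536870912 1073741824 536870912 923417968 42949674
    (rowNE 3 eng mog cd0q1 cd4q2 pd1 0 false true false .dn 1 1 2 (qsf 536870912 536870912 1073741824 536870912 1) ndB0q1 ndB4q2 pcB1 cut_pm_112_s Ext.none)

def k0_pm_112_s : ∃ t, chk3 f_pm_112_s t 1 1 1 = true :=
  ⟨(l 6), by decide +kernel⟩

theorem c_pm_112_s : CertNE 536870912 536870912 1073741824 536870912 923417968 42949674 3 eng mog cd0q1 cd4q2 pd1 false true false .dn 1 1 2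
    ndB0q1 ndB4q2 pcB1 cut_pm_112_s Ext.none :=
  certNE0 (fam := false) (s1 := true) (s2 := false) (a := 1) (b := 1) (c := 2) (cn := .dn) (n1 := ndB0q1) (n2 := ndB4q2) (pc := pcB1) (cut := cut_pm_112_s) (xt := Ext.none) (P1 := 536870912) (W1 := 536870912) (P2 := 1073741824) (W2 := 536870912) (P3 := 923417968) (W3 := 42949674) (N0 := 3) (En := eng) (mo := mog) (C1 := cd0q1) (C2 := cd4q2) (C3 := pd1)
    rfl k0_pm_112_s

noncomputable def cut_pm_113_s : Cut := Cut.of [[⟨4, 0, 0, 1449551462⟩], [⟨0, 1, 0, 67108864⟩, ⟨1, 1, 0, 67108864⟩, ⟨2, 2, 0, 16252928⟩]]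

noncomputable def f_pm_113_s : ℕ → ℕ → ℕ → ℕ → Bool := onCell 536870912 536870912 0 1230186008 923417968 42949674
    (rowNE 3 eng mog cd0q1 cd4q3 pd1 0 false true false .nn 1 1 3 (qsf 536870912 536870912 0 1230186008 1) ndB0q1 ndB4q3 pcB1 cut_pm_113_s Ext.none)

def k0_pm_113_s : ∃ t, chk3 f_pm_113_s t 1 1 1 = true :=
  ⟨(a (b (l 2) (l 6)) (b (a (l 2) (b (a (l 2) (a (l 2) (b (l 14) (a (l 1464684132695) (b (l 16692264) (l 16675304)))))) (a (l 6) (b (b (a (l 6) (l 16692632)) (l 6)) (l 6))))) (l 6))), by decide +kernel⟩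

theorem c_pm_113_s : CertNE 536870912 536870912 0 1230186008 923417968 42949674 3 eng mog cd0q1 cd4q3 pd1 false true false .nn 1 1 3
    ndB0q1 ndB4q3 pcB1 cut_pm_113_s Ext.none :=
  certNE0 (fam := false) (s1 := true) (s2 := false) (a := 1) (b := 1) (c := 3) (cn := .nn) (n1 := ndB0q1) (n2 := ndB4q3) (pc := pcB1) (cut := cut_pm_113_s) (xt := Ext.none) (P1 := 536870912) (W1 := 536870912) (P2 := 0) (W2 := 1230186008) (P3 := 923417968) (W3 := 42949674) (N0 := 3) (En := eng) (mo := mog) (C1 := cd0q1) (C2 := cd4q3) (C3 := pd1)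
    rfl k0_pm_113_s

noncomputable def cut_pm_123_s : Cut := Cut.of [[⟨4, 0, 0, 1449551462⟩], [⟨0, 1, 0, 67108864⟩, ⟨1, 1, 0, 67108864⟩, ⟨2, 2, 0, 16252928⟩]]

noncomputable def f_pm_123_s : ℕ → ℕ → ℕ → ℕ → Bool := onCell 1073741824 536870912 0 1230186008 923417968 42949674
    (rowNE 3 eng mog cd0q1 cd4q3 pd2 2 false true false .npn 1 2 3 (qsf 536870912 536870912 0 1230186008 2) ndB0q1 ndB4q3 pcB2 cut_pm_123_s Ext.none)

def k0_pm_123_s : ∃ t, chk3 f_pm_123_s t 1 1 1 = true :=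
  ⟨(b (a (b (b (a (a (a (l 14) (a (l 14) (a (l 14) (b (l 16601216) (l 16593488))))) (a (b (a (l 16535080) (l 16595736)) (l 16582064)) (b (a (l 16592936) (l 16583280)) (l 6)))) (l 6)) (a (a (a (b (a (l 16627424) (l 16630896)) (a (l 16693168) (l 16670864))) (b (a (l 16620576) (l 16600056)) (l 6))) (l 6)) (l 6))) (b (l 6) (l 6))) (l 6)) (l 6)), by decide +kernel⟩

theorem c_pm_123_s : CertNE 536870912 536870912 0 1230186008 923417968 42949674 3 eng mog cd0q1 cd4q3 pd2 false true false .npn 1 2 3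
    ndB0q1 ndB4q3 pcB2 cut_pm_123_s Ext.none :=
  certNE2 (fam := false) (s1 := true) (s2 := false) (a := 1) (b := 2) (c := 3) (cn := .npn) (n1 := ndB0q1) (n2 := ndB4q3) (pc := pcB2) (cut := cut_pm_123_s) (xt := Ext.none) (P1 := 536870912) (W1 := 536870912) (P2 := 0) (W2 := 1230186008) (P3 := 923417968) (W3 := 42949674) (N0 := 3) (En := eng) (mo := mog) (C1 := cd0q1) (C2 := cd4q3) (C3 := pd2)
    rfl (fun _ => rfl) k0_pm_123_s

noncomputable def cut_pm_133_s : Cut := Cut.of [[⟨4, 0, 0, 1449551462⟩]]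

noncomputable def f_pm_133_s : ℕ → ℕ → ℕ → ℕ → Bool := onCell 1610612736 536870912 0 1230186008 923417968 42949674
    (rowNE 3 eng mog cd0q1 cd4q3 pd3 2 false true false .dn 1 3 3 (qsf 536870912 536870912 0 1230186008 3) ndB0q1 ndB4q3 pcB3 cut_pm_133_s Ext.none)

def k0_pm_133_s : ∃ t, chk3 f_pm_133_s t 1 1 1 = true :=
  ⟨(l 6), by decide +kernel⟩

theorem c_pm_133_s : CertNE 536870912 536870912 0 1230186008 923417968 42949674 3 eng mog cd0q1 cd4q3 pd3 false true false .dn 1 3 3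
    ndB0q1 ndB4q3 pcB3 cut_pm_133_s Ext.none :=
  certNE2 (fam := false) (s1 := true) (s2 := false) (a := 1) (b := 3) (c := 3) (cn := .dn) (n1 := ndB0q1) (n2 := ndB4q3) (pc := pcB3) (cut := cut_pm_133_s) (xt := Ext.none) (P1 := 536870912) (W1 := 536870912) (P2 := 0) (W2 := 1230186008) (P3 := 923417968) (W3 := 42949674) (N0 := 3) (En := eng) (mo := mog) (C1 := cd0q1) (C2 := cd4q3) (C3 := pd3)
    rfl (fun _ => rfl) k0_pm_133_s

noncomputable def cut_pm_202_s : Cut := Cut.of [[⟨4, 0, 0, 1449551462⟩]]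

noncomputable def f_pm_202_s : ℕ → ℕ → ℕ → ℕ → Bool := onCell 0 536870912 1073741824 536870912 923417968 42949674
    (rowNE 3 eng mog cd0q2 cd4q2 pd0 0 false true false .pp 2 0 2 (qsf 0 536870912 1073741824 536870912 0) ndB0q2 ndB4q2 pcB0 cut_pm_202_s Ext.none)

def k0_pm_202_s : ∃ t, chk3 f_pm_202_s t 1 1 1 = true :=
  ⟨(a (b (l 6) (a (l 6) (l 6))) (l 6)), by decide +kernel⟩

theorem c_pm_202_s : CertNE 0 536870912 1073741824 536870912 923417968 42949674 3 eng mog cd0q2 cd4q2 pd0 false true false .pp 2 0 2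
    ndB0q2 ndB4q2 pcB0 cut_pm_202_s Ext.none :=
  certNE0 (fam := false) (s1 := true) (s2 := false) (a := 2) (b := 0) (c := 2) (cn := .pp) (n1 := ndB0q2) (n2 := ndB4q2) (pc := pcB0) (cut := cut_pm_202_s) (xt := Ext.none) (P1 := 0) (W1 := 536870912) (P2 := 1073741824) (W2 := 536870912) (P3 := 923417968) (W3 := 42949674) (N0 := 3) (En := eng) (mo := mog) (C1 := cd0q2) (C2 := cd4q2) (C3 := pd0)
    rfl k0_pm_202_s

noncomputable def cut_pm_203_s : Cut := Cut.of [[⟨4, 0, 0, 1449551462⟩]]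

noncomputable def f_pm_203_s : ℕ → ℕ → ℕ → ℕ → Bool := onCell 0 536870912 0 1230186008 923417968 42949674
    (rowNE 3 eng mog cd0q2 cd4q3 pd0 0 false true false .up 2 0 3 (qsf 0 536870912 0 1230186008 0) ndB0q2 ndB4q3 pcB0 cut_pm_203_s Ext.none)

def k0_pm_203_s : ∃ t, chk3 f_pm_203_s t 1 1 1 = true :=
  ⟨(b (l 2) (b (l 2) (a (b (b (l 2) (b (a (l 2) (l 2)) (a (a (l 16689536) (l 16636448)) (l 6)))) (a (a (b (b (l 16666400) (a (l 16651264) (l 16622808))) (b (a (l 16614360) (l 16568720)) (l 16524968))) (b (b (l 16605024) (l 6)) (l 6))) (l 6))) (l 6)))), by decide +kernel⟩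

theorem c_pm_203_s : CertNE 0 536870912 0 1230186008 923417968 42949674 3 eng mog cd0q2 cd4q3 pd0 false true false .up 2 0 3
    ndB0q2 ndB4q3 pcB0 cut_pm_203_s Ext.none :=
  certNE0 (fam := false) (s1 := true) (s2 := false) (a := 2) (b := 0) (c := 3) (cn := .up) (n1 := ndB0q2) (n2 := ndB4q3) (pc := pcB0) (cut := cut_pm_203_s) (xt := Ext.none) (P1 := 0) (W1 := 536870912) (P2 := 0) (W2 := 1230186008) (P3 := 923417968) (W3 := 42949674) (N0 := 3) (En := eng) (mo := mog) (C1 := cd0q2) (C2 := cd4q3) (C3 := pd0)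
    rfl k0_pm_203_s

noncomputable def cut_pm_213_s : Cut := Cut.of [[⟨4, 0, 0, 1449551462⟩], [⟨0, 1, 0, 67108864⟩, ⟨1, 1, 0, 67108864⟩, ⟨2, 2, 0, 16252928⟩]]

noncomputable def f_pm_213_s : ℕ → ℕ → ℕ → ℕ → Bool := onCell 0 536870912 0 1230186008 923417968 42949674
    (rowNE 3 eng mog cd0q2 cd4q3 pd1 0 false true false .pnn 2 1 3 (qsf 0 536870912 0 1230186008 1) ndB0q2 ndB4q3 pcB1 cut_pm_213_s Ext.none)

def k0_pm_213_s : ∃ t, chk3 f_pm_213_s t 2 2 1 = true :=
  ⟨(b (l 3) (b (l 3) (a (l 3) (a (b (l 3) (a (l 3) (b (l 3) (a (l 3) (b (l 3) (l 320679699015)))))) (b (a (l 3) (b (a (l 3) (b (l 3) (l 327122179767))) (a (b (l 3) (c (l 302962962103) (l 306184188567))) (b (a (l 303499833703) (b (l 286319943095) (l 16771784))) (b (a (l 265918848535) (l 16766016)) (l 16743224)))))) (a (a (b (l 3) (b (a (l 3) (l 295446750103)) (c (l 249812698535) (l 250349576743)))) (b (b (l 318532214231) (c (l 283098695591) (l 290614931207))) (b (c (l 221358551591) (l 16766248))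 (l 16750440)))) (c (b (a (b (a (l 284172450935) (l 16766664)) (l 16756832)) (l 16743648)) (l 16762448)) (b (a (b (l 259476385079) (l 16761360)) (l 16750624)) (l 16753272))))))))), by decide +kernel⟩

def k1_pm_213_s : ∃ t, chk3 f_pm_213_s t 6 4 1 = true :=
  ⟨(a (l 3) (b (l 3) (a (l 3) (a (b (l 3) (b (l 3) (b (l 3) (c (a (b (l 3) (l 315847864775)) (c (b (l 307794803447) (l 256792066039)) (l 271824453479))) (a (l 330880249607) (b (l 308868545287) (l 263234509319))))))) (a (b (l 3) (b (l 3) (c (b (b (l 314774123799) (a (l 306721062295) (l 258402674503))) (b (l 16771008) (l 16775288))) (b (b (l 314237253431) (l 272898195159)) (l 16767768))))) (b (l 3) (b (b (l 3) (c (b (l 332490862599) (a (l 315847866391) (l 268066357335))) (l 312089782855))) (b (b (c (a (l 261087028567) (l 16776920)) (l 261087026535)) (c (l 16776480) (l 16777528))) (l 16757168))))))))), by decide +kernel⟩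

def k2_pm_213_s : ∃ t, chk3 f_pm_213_s t 7 8 1 = true :=
  ⟨(a (a (l 3) (l 14)) (l 14)), by decide +kernel⟩

def k3_pm_213_s : ∃ t, chk3 f_pm_213_s t 7 9 1 = true :=
  ⟨(b (b (a (a (l 3) (a (a (b (l 3) (b (a (l 3) (a (l 3) (l 14))) (c (a (b (l 3) (l 313700383895)) (c (l 259476419079) (l 257328937463))) (a (l 315847867143) (l 254107706151))))) (l 14)) (l 14))) (l 14)) (a (a (b (a (l 3) (c (a (b (l 3) (l 336785829895)) (b (a (l 3) (a (l 320142834279) (l 311552902999))) (a (b (l 317458480039) (l 264308260407)) (l 256255191607)))) (a (l 340543926183) (b (l 316921613623) (a (l 309405416311) (l 16775728)))))) (a (a (l 3) (a (l 3) (b (l 3) (c (l 317458479335) (l 315310996055))))) (a (c (b (a (l 322290317063) (b (l 313163513127) (l 258939547847))) (a (b (l 266992615015) (l 16777344)) (l 16777256))) (b (a (l 319605963063) (l 265918872343)) (a (l 261623899815) (l 16775632)))) (b (c (a (l 16776984) (l 16776456)) (l 16774856)) (l 16775008))))) (a (a (b (b (a (c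 (b (l 257865805575) (l 16776568)) (l 251960223207)) (l 16774880)) (c (l 16775632) (l 16772864))) (l 16772544)) (c (l 16772616) (l 16766920))) (c (l 16766488) (l 16757504)))) (a (a (l 16747904) (l 16729528)) (a (l 16707240) (l 16681576))))) (a (a (a (b (a (b (a (l 3) (b (l 3) (c (l 309405416727) (l 308868545655)))) (c (b (a (l 270213840695) (l 16777408)) (l 16777312)) (b (l 263234509959) (l 16776760)))) (c (b (b (a (l 313163512567) (l 265918868727)) (a (l 259476417415) (l 16778136))) (l 16778296)) (b (b (a (l 311552899943) (l 261087029063)) (l 244444027543)) (l 16775576)))) (b (c (l 16777520) (l 16776256)) (l 16760296))) (b (b (a (c (l 16770024) (l 16774640)) (l 16774168)) (c (l 16779024) (l 16771576))) (c (l 16783152) (l 16771000)))) (b (a (c (l 16773528) (l 16763144)) (l 16757256)) (a (l 16769080) (l 16756448)))) (a (b (a (l 16741888) (l 16722528)) (l 16730288)) (a (l 16676464) (l 16671080))))), by decide +kernel⟩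

def k4_pm_213_s : ∃ t, chk3 f_pm_213_s t 3 10 1 = true :=
  ⟨(a (a (b (a (l 3) (b (l 3) (a (l 3) (b (l 3) (a (l 3) (b (l 3) (l 299204856631))))))) (b (a (l 3) (a (a (l 3) (b (l 3) (c (l 294909881063) (l 294909902135)))) (a (b (c (l 301352350487) (l 298667996487)) (b (c (l 251960214791) (l 16775128)) (l 16771672))) (b (c (b (l 278266902103) (l 16772816)) (l 275045660279)) (l 16747992))))) (a (a (l 3) (c (b (l 323900921959) (a (l 313700380679) (l 263234492391))) (b (l 317458473111) (l 282561869719)))) (c (a (b (a (l 287393675895) (l 16767352)) (l 16763432)) (b (l 16760728) (l 16750840))) (a (b (a (l 290078062935) (l 16771424)) (l 16766064)) (l 16759592)))))) (a (a (b (b (l 3) (c (b (a (l 329806504759) (b (l 303499834775) (l 273435063975))) (a (b (l 288467451495) (l 248202120215)) (l 16771888))) (b (a (l 326048409927) (l 296520515287)) (a (l 280951257639) (l 16773496))))) (b (b (c (l 16767240) (l 16769632)) (l 16763848)) (l 16710168))) (b (a (b (b (l 3)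 (c (b (l 324974669431) (l 280414366791)) (l 303499835527))) (b (c (b (l 245517767495) (l 16772432)) (l 250349602423)) (l 16771040))) (c (b (b (b (l 3) (l 306184190039)) (b (l 264308248279) (l 16774184))) (l 16768104)) (b (b (l 310479156071) (l 265381987655)) (l 16772200)))) (b (c (l 16756528) (l 16761552)) (l 16748856)))) (b (a (c (b (b (a (b (a (l 307257932535) (l 261087027511)) (l 243907156423)) (l 16774488)) (l 16769184)) (l 16765128)) (b (b (a (l 272898174839) (l 16778096)) (l 16777248)) (l 16772880))) (b (c (l 16772072) (l 16760360)) (l 16772368))) (b (c (l 16752448) (l 16762824)) (l 16750376))))) (a (b (a (b (a (l 16739280) (l 16783752)) (l 16719904)) (b (l 16747296) (l 16778512))) (a (b (l 16776488) (l 16765752)) (l 16805616))) (b (a (b (l 16732824) (l 16741232)) (l 16686728)) (a (l 16765880) (l 16713392))))), by decide +kernel⟩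

def k5_pm_213_s : ∃ t, chk3 f_pm_213_s t 3 11 1 = true :=
  ⟨(b (a (b (a (a (c (a (b (a (l 3) (l 304036707335)) (a (l 278266901399) (l 16768456))) (b (a (l 247665238471) (l 16763680)) (l 16755800))) (a (b (l 299204866311) (l 269676935575)) (b (l 251960201879) (l 16759896)))) (a (b (l 16755872) (l 16745192)) (l 16739768))) (a (l 16708160) (l 16731040))) (a (a (a (b (c (l 16760272) (l 16763720)) (l 16750456)) (b (l 16747200) (l 16734680))) (c (l 16713536) (l 16722616))) (a (l 16702848) (l 16700752)))) (a (a (l 16739464) (l 16779888)) (l 6))) (a (a (a (b (a (l 16688360) (l 16713656)) (c (l 16678944) (l 16696080))) (b (l 16691568) (l 16656872))) (c (a (l 16642664) (l 16636272)) (l 16638568))) (a (a (l 16654864) (l 6)) (l 6)))), by decide +kernel⟩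

def k6_pm_213_s : ∃ t, chk3 f_pm_213_s t 2 12 1 = true :=
  ⟨(a (b (l 3) (a (l 3) (a (l 3) (b (a (l 3) (b (l 3) (l 315310993111))) (a (b (l 339470179431) (a (l 309942285607) (l 249812690807))) (b (a (l 292762365671) (l 219747929079)) (c (l 16750192) (l 16754560)))))))) (a (b (b (a (l 3) (c (a (b (l 3) (l 301889220487)) (b (l 280414359735) (l 16759952))) (a (l 316384732983) (b (l 289004316663) (l 16763640))))) (a (a (l 3) (b (l 321216571383) (b (l 296520467463) (l 248738955463)))) (b (a (c (l 236927794119) (l 239612155463)) (l 16745272)) (c (l 16734264) (l 16742984))))) (a (b (a (b (a (l 321216572519) (l 289004271639)) (a (l 248202082631) (l 16758280))) (b (a (l 16742840) (l 16751232)) (l 16737936))) (c (b (l 16728192) (l 16705152)) (b (l 16735984) (l 16716328)))) (b (c (l 16702000) (l 16716920)) (c (l 16654216) (l 16677216))))) (b (b (a (b (c (l 16761072) (l 16748416)) (a (l 16739576) (l 16716992))) (c (l 16681448) (l 16700744))) (a (c (l 16688984) (l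 16707784)) (c (l 16636264) (l 16663840)))) (c (b (a (l 16640952) (l 16584336)) (l 16512448)) (b (l 16708160) (l 16600528)))))), by decide +kernel⟩

def k7_pm_213_s : ∃ t, chk3 f_pm_213_s t 2 13 1 = true :=
  ⟨(a (b (a (b (l 3) (a (l 3) (a (l 3) (b (l 3) (a (l 315310993639) (l 278803713527)))))) (a (b (b (c (l 319069064295) (l 320679699895)) (a (l 320679700007) (a (l 277193082151) (l 16759560)))) (b (a (a (l 296520457799) (l 226727241559)) (l 16744688)) (c (l 16753456) (l 16740368)))) (b (b (a (a (l 225116632791) (l 16752512)) (l 16731440)) (a (l 16737960) (l 16708936))) (c (l 16679056) (l 16696024))))) (a (b (b (a (l 3) (a (a (l 3) (l 297594198119)) (b (l 214916082199) (l 16753240)))) (a (l 330880241863) (a (b (l 242296491559) (l 16739456)) (l 16734656)))) (a (a (b (l 3) (b (l 308868541655) (l 282561807431))) (b (b (l 293299229239) (l 228874719047)) (c (l 16746400) (l 16751856)))) (b (c (l 16720032) (l 16730112)) (a (l 16714800) (l 16679944))))) (b (a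 (c (l 16754272) (l 16748368)) (c (l 16619800) (l 16646856))) (a (c (l 16629456) (l 16655184)) (l 16487256))))) (b (a (a (b (c (l 16646648) (l 16663056)) (l 16498720)) (b (l 16569456) (l 16554464))) (b (a (l 16553216) (l 16495072)) (l 16269208))) (a (b (a (l 16544368) (l 16490648)) (a (l 16497800) (l 16417712))) (b (l 16299160) (a (l 16333024) (l 6)))))), by decide +kernel⟩

def k8_pm_213_s : ∃ t, chk3 f_pm_213_s t 3 6 1 = true :=
  ⟨(a (b (a (b (c (a (l 16550872) (l 16575872)) (a (l 16620160) (l 16601496))) (b (l 16367176) (l 16414312))) (b (a (l 16521408) (l 16544904)) (a (l 16295896) (l 6)))) (b (a (a (l 16321152) (l 6)) (l 6)) (l 6))) (b (l 6) (l 6))), by decide +kernel⟩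

def k9_pm_213_s : ∃ t, chk3 f_pm_213_s t 1 7 1 = true :=
  ⟨(a (a (b (b (a (b (a (b (a (b (l 204178659655) (l 16749760)) (l 16721504)) (a (l 16728376) (l 16691736))) (c (l 16556280) (l 16664072))) (a (b (c (l 16669480) (l 16688248)) (l 16581824)) (c (l 16564792) (l 16601408)))) (b (c (a (l 16558280) (l 16474752)) (l 16456064)) (a (l 16417336) (l 16417872)))) (b (a (c (a (l 16571088) (l 16476800)) (a (l 16606312) (l 16527800))) (a (l 16392072) (l 16322336))) (b (a (a (l 16524232) (l 16431584)) (a (l 16336816) (l 16240168))) (l 1)))) (l 1)) (b (a (b (b (a (l 16420512) (l 16334360)) (a (l 16331616) (l 16245496))) (b (a (l 16048224) (l 6)) (l 6))) (l 6)) (l 6))) (l 6)), by decide +kernel⟩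

theorem s10_pm_213_s : ∃ t, chk3 f_pm_213_s t 2 6 1 = true := ex3_b k6_pm_213_s k7_pm_213_s

theorem s11_pm_213_s : ∃ t, chk3 f_pm_213_s t 1 6 1 = true := ex3_a s10_pm_213_s k8_pm_213_s

theorem s12_pm_213_s : ∃ t, chk3 f_pm_213_s t 1 3 1 = true := ex3_b s11_pm_213_s k9_pm_213_s

theorem s13_pm_213_s : ∃ t, chk3 f_pm_213_s t 3 5 1 = true := ex3_b k4_pm_213_s k5_pm_213_s

theorem s14_pm_213_s : ∃ t, chk3 f_pm_213_s t 7 4 1 = true := ex3_b k2_pm_213_s k3_pm_213_s

theorem s15_pm_213_s : ∃ t, chk3 f_pm_213_s t 3 4 1 = true := ex3_a k1_pm_213_s s14_pm_213_s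

theorem s16_pm_213_s : ∃ t, chk3 f_pm_213_s t 3 2 1 = true := ex3_b s15_pm_213_s s13_pm_213_s

theorem s17_pm_213_s : ∃ t, chk3 f_pm_213_s t 1 2 1 = true := ex3_a k0_pm_213_s s16_pm_213_s

theorem s18_pm_213_s : ∃ t, chk3 f_pm_213_s t 1 1 1 = true := ex3_b s17_pm_213_s s12_pm_213_s

theorem c_pm_213_s : CertNE 0 536870912 0 1230186008 923417968 42949674 3 eng mog cd0q2 cd4q3 pd1 false true false .pnn 2 1 3
    ndB0q2 ndB4q3 pcB1 cut_pm_213_s Ext.none :=
  certNE0 (fam := false) (s1 := true) (s2 := false) (a := 2) (b := 1) (c := 3) (cn := .pnn) (n1 := ndB0q2) (n2 := ndB4q3) (pc := pcB1) (cut := cut_pm_213_s) (xt := Ext.none) (P1 := 0) (W1 := 536870912) (P2 := 0) (W2 := 1230186008) (P3 := 923417968) (W3 := 42949674) (N0 := 3) (En := eng) (mo := mog) (C1 := cd0q2) (C2 := cd4q3) (C3 := pd1)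
    rfl s18_pm_213_s

noncomputable def cut_mm_001_s : Cut := Cut.of [[⟨4, 0, 0, 1449551462⟩]]

noncomputable def f_mm_001_s : ℕ → ℕ → ℕ → ℕ → Bool := onCell 0 536870912 0 536870912 923417968 42949674
    (rowNE 3 eng mog cd0q0 cd4q1 pd0 1 false false false .up 0 0 1 (qsf 0 536870912 536870912 536870912 0) ndB0q0 ndB4q1 pcB0 cut_mm_001_s Ext.none)

def k0_mm_001_s : ∃ t, chk3 f_mm_001_s t 1 1 1 = true :=
  ⟨(l 3), by decide +kernel⟩

theorem c_mm_001_s : CertNE 0 536870912 536870912 536870912 923417968 42949674 3 eng mog cd0q0 cd4q1 pd0 false false false .up 0 0 1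
    ndB0q0 ndB4q1 pcB0 cut_mm_001_s Ext.none :=
  certNE1 (fam := false) (s1 := false) (s2 := false) (a := 0) (b := 0) (c := 1) (cn := .up) (n1 := ndB0q0) (n2 := ndB4q1) (pc := pcB0) (cut := cut_mm_001_s) (xt := Ext.none) (P1 := 0) (W1 := 536870912) (P2 := 536870912) (W2 := 536870912) (P3 := 923417968) (W3 := 42949674) (N0 := 3) (En := eng) (mo := mog) (C1 := cd0q0) (C2 := cd4q1) (C3 := pd0)
    rfl (fun _ => rfl) k0_mm_001_s

noncomputable def cut_mm_011_s : Cut := Cut.of [[⟨4, 0, 0, 1449551462⟩]]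

noncomputable def f_mm_011_s : ℕ → ℕ → ℕ → ℕ → Bool := onCell 0 536870912 536870912 536870912 923417968 42949674
    (rowNE 3 eng mog cd0q0 cd4q1 pd1 1 false false false .pnn 0 1 1 (qsf 0 536870912 536870912 536870912 1) ndB0q0 ndB4q1 pcB1 cut_mm_011_s Ext.none)

def k0_mm_011_s : ∃ t, chk3 f_mm_011_s t 1 1 1 = true :=
  ⟨(l 5), by decide +kernel⟩

theorem c_mm_011_s : CertNE 0 536870912 536870912 536870912 923417968 42949674 3 eng mog cd0q0 cd4q1 pd1 false false false .pnn 0 1 1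
    ndB0q0 ndB4q1 pcB1 cut_mm_011_s Ext.none :=
  certNE1 (fam := false) (s1 := false) (s2 := false) (a := 0) (b := 1) (c := 1) (cn := .pnn) (n1 := ndB0q0) (n2 := ndB4q1) (pc := pcB1) (cut := cut_mm_011_s) (xt := Ext.none) (P1 := 0) (W1 := 536870912) (P2 := 536870912) (W2 := 536870912) (P3 := 923417968) (W3 := 42949674) (N0 := 3) (En := eng) (mo := mog) (C1 := cd0q0) (C2 := cd4q1) (C3 := pd1)
    rfl (fun _ => rfl) k0_mm_011_s

noncomputable def cut_mm_012_s : Cut := Cut.of [[⟨4, 0, 0, 1449551462⟩]]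

noncomputable def f_mm_012_s : ℕ → ℕ → ℕ → ℕ → Bool := onCell 0 536870912 1073741824 536870912 923417968 42949674
    (rowNE 3 eng mog cd0q0 cd4q2 pd1 0 false false false .pnp 0 1 2 (qsf 0 536870912 1073741824 536870912 1) ndB0q0 ndB4q2 pcB1 cut_mm_012_s Ext.none)

def k0_mm_012_s : ∃ t, chk3 f_mm_012_s t 1 1 1 = true :=
  ⟨(l 5), by decide +kernel⟩

theorem c_mm_012_s : CertNE 0 536870912 1073741824 536870912 923417968 42949674 3 eng mog cd0q0 cd4q2 pd1 false false false .pnp 0 1 2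
    ndB0q0 ndB4q2 pcB1 cut_mm_012_s Ext.none :=
  certNE0 (fam := false) (s1 := false) (s2 := false) (a := 0) (b := 1) (c := 2) (cn := .pnp) (n1 := ndB0q0) (n2 := ndB4q2) (pc := pcB1) (cut := cut_mm_012_s) (xt := Ext.none) (P1 := 0) (W1 := 536870912) (P2 := 1073741824) (W2 := 536870912) (P3 := 923417968) (W3 := 42949674) (N0 := 3) (En := eng) (mo := mog) (C1 := cd0q0) (C2 := cd4q2) (C3 := pd1)
    rfl k0_mm_012_s

noncomputable def cut_mm_022_s : Cut := Cut.of [[⟨4, 0, 0, 1449551462⟩]]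

noncomputable def f_mm_022_s : ℕ → ℕ → ℕ → ℕ → Bool := onCell 0 536870912 1073741824 536870912 923417968 42949674
    (rowNE 3 eng mog cd0q0 cd4q2 pd2 0 false false false .pp 0 2 2 (qsf 0 536870912 1073741824 536870912 2) ndB0q0 ndB4q2 pcB2 cut_mm_022_s Ext.none)

def k0_mm_022_s : ∃ t, chk3 f_mm_022_s t 1 1 1 = true :=
  ⟨(l 5), by decide +kernel⟩

theorem c_mm_022_s : CertNE 0 536870912 1073741824 536870912 923417968 42949674 3 eng mog cd0q0 cd4q2 pd2 false false false .pp 0 2 2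
    ndB0q0 ndB4q2 pcB2 cut_mm_022_s Ext.none :=
  certNE0 (fam := false) (s1 := false) (s2 := false) (a := 0) (b := 2) (c := 2) (cn := .pp) (n1 := ndB0q0) (n2 := ndB4q2) (pc := pcB2) (cut := cut_mm_022_s) (xt := Ext.none) (P1 := 0) (W1 := 536870912) (P2 := 1073741824) (W2 := 536870912) (P3 := 923417968) (W3 := 42949674) (N0 := 3) (En := eng) (mo := mog) (C1 := cd0q0) (C2 := cd4q2) (C3 := pd2)
    rfl k0_mm_022_s

noncomputable def cut_mm_023_s : Cut := Cut.of [[⟨4, 0, 0, 1449551462⟩]]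

noncomputable def f_mm_023_s : ℕ → ℕ → ℕ → ℕ → Bool := onCell 0 536870912 0 1230186008 923417968 42949674
    (rowNE 3 eng mog cd0q0 cd4q3 pd2 0 false false false .up 0 2 3 (qsf 0 536870912 0 1230186008 2) ndB0q0 ndB4q3 pcB2 cut_mm_023_s Ext.none)

def k0_mm_023_s : ∃ t, chk3 f_mm_023_s t 1 1 1 = true :=
  ⟨(l 5), by decide +kernel⟩

theorem c_mm_023_s : CertNE 0 536870912 0 1230186008 923417968 42949674 3 eng mog cd0q0 cd4q3 pd2 false false false .up 0 2 3
    ndB0q0 ndB4q3 pcB2 cut_mm_023_s Ext.none :=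
  certNE0 (fam := false) (s1 := false) (s2 := false) (a := 0) (b := 2) (c := 3) (cn := .up) (n1 := ndB0q0) (n2 := ndB4q3) (pc := pcB2) (cut := cut_mm_023_s) (xt := Ext.none) (P1 := 0) (W1 := 536870912) (P2 := 0) (W2 := 1230186008) (P3 := 923417968) (W3 := 42949674) (N0 := 3) (En := eng) (mo := mog) (C1 := cd0q0) (C2 := cd4q3) (C3 := pd2)
    rfl k0_mm_023_s

noncomputable def cut_mm_033_s : Cut := Cut.of [[⟨4, 0, 0, 1449551462⟩]]

noncomputable def f_mm_033_s : ℕ → ℕ → ℕ → ℕ → Bool := onCell 0 536870912 0 1230186008 923417968 42949674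
    (rowNE 3 eng mog cd0q0 cd4q3 pd3 0 false false false .pnn 0 3 3 (qsf 0 536870912 0 1230186008 3) ndB0q0 ndB4q3 pcB3 cut_mm_033_s Ext.none)

def k0_mm_033_s : ∃ t, chk3 f_mm_033_s t 1 1 1 = true :=
  ⟨(l 5), by decide +kernel⟩

theorem c_mm_033_s : CertNE 0 536870912 0 1230186008 923417968 42949674 3 eng mog cd0q0 cd4q3 pd3 false false false .pnn 0 3 3
    ndB0q0 ndB4q3 pcB3 cut_mm_033_s Ext.none :=
  certNE0 (fam := false) (s1 := false) (s2 := false) (a := 0) (b := 3) (c := 3) (cn := .pnn) (n1 := ndB0q0) (n2 := ndB4q3) (pc := pcB3) (cut := cut_mm_033_s) (xt := Ext.none) (P1 := 0) (W1 := 536870912) (P2 := 0) (W2 := 1230186008) (P3 := 923417968) (W3 := 42949674) (N0 := 3) (En := eng) (mo := mog) (C1 := cd0q0) (C2 := cd4q3) (C3 := pd3)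
    rfl k0_mm_033_s

noncomputable def cut_mm_101_s : Cut := Cut.of [[⟨4, 0, 0, 1449551462⟩], [⟨0, 1, 0, 67108864⟩, ⟨1, 0, 0, 67108864⟩, ⟨2, 1, 0, 67108864⟩]]

noncomputable def f_mm_101_s : ℕ → ℕ → ℕ → ℕ → Bool := onCell 536870912 536870912 0 536870912 923417968 42949674
    (rowNE 3 eng mog cd0q1 cd4q1 pd0 1 false false false .npn 1 0 1 (qsf 536870912 536870912 536870912 536870912 0) ndB0q1 ndB4q1 pcB0 cut_mm_101_s Ext.none)

def k0_mm_101_s : ∃ t, chk3 f_mm_101_s t 1 1 1 = true :=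
  ⟨(a (l 3) (b (a (l 3) (b (a (l 3) (b (b (a (l 3) (l 14)) (l 3)) (l 3))) (l 3))) (l 3))), by decide +kernel⟩

theorem c_mm_101_s : CertNE 536870912 536870912 536870912 536870912 923417968 42949674 3 eng mog cd0q1 cd4q1 pd0 false false false .npn 1 0 1
    ndB0q1 ndB4q1 pcB0 cut_mm_101_s Ext.none :=
  certNE1 (fam := false) (s1 := false) (s2 := false) (a := 1) (b := 0) (c := 1) (cn := .npn) (n1 := ndB0q1) (n2 := ndB4q1) (pc := pcB0) (cut := cut_mm_101_s) (xt := Ext.none) (P1 := 536870912) (W1 := 536870912) (P2 := 536870912) (W2 := 536870912) (P3 := 923417968) (W3 := 42949674) (N0 := 3) (En := eng) (mo := mog) (C1 := cd0q1) (C2 := cd4q1) (C3 := pd0)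
    rfl (fun _ => rfl) k0_mm_101_s

noncomputable def cut_mm_102_s : Cut := Cut.of [[⟨4, 0, 0, 1449551462⟩], [⟨0, 1, 0, 67108864⟩, ⟨1, 0, 0, 67108864⟩, ⟨2, 1, 0, 67108864⟩]]

noncomputable def f_mm_102_s : ℕ → ℕ → ℕ → ℕ → Bool := onCell 536870912 536870912 0 536870912 923417968 42949674
    (rowNE 3 eng mog cd0q1 cd4q2 pd0 1 false false false .npp 1 0 2 (qsf 536870912 536870912 1073741824 536870912 0) ndB0q1 ndB4q2 pcB0 cut_mm_102_s Ext.none)

def k0_mm_102_s : ∃ t, chk3 f_mm_102_s t 1 1 1 = true :=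
  ⟨(a (l 3) (b (a (l 3) (b (a (l 3) (b (a (l 3) (b (l 14) (l 3))) (l 3))) (l 3))) (l 3))), by decide +kernel⟩

theorem c_mm_102_s : CertNE 536870912 536870912 1073741824 536870912 923417968 42949674 3 eng mog cd0q1 cd4q2 pd0 false false false .npp 1 0 2
    ndB0q1 ndB4q2 pcB0 cut_mm_102_s Ext.none :=
  certNE1 (fam := false) (s1 := false) (s2 := false) (a := 1) (b := 0) (c := 2) (cn := .npp) (n1 := ndB0q1) (n2 := ndB4q2) (pc := pcB0) (cut := cut_mm_102_s) (xt := Ext.none) (P1 := 536870912) (W1 := 536870912) (P2 := 1073741824) (W2 := 536870912) (P3 := 923417968) (W3 := 42949674) (N0 := 3) (En := eng) (mo := mog) (C1 := cd0q1) (C2 := cd4q2) (C3 := pd0)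
    rfl (fun _ => rfl) k0_mm_102_s

noncomputable def cut_mm_112_s : Cut := Cut.of [[⟨4, 0, 0, 1449551462⟩]]

noncomputable def f_mm_112_s : ℕ → ℕ → ℕ → ℕ → Bool := onCell 536870912 536870912 1073741824 536870912 923417968 42949674
    (rowNE 3 eng mog cd0q1 cd4q2 pd1 2 false false false .dn 1 1 2 (qsf 536870912 536870912 1073741824 536870912 1) ndB0q1 ndB4q2 pcB1 cut_mm_112_s Ext.none)

def k0_mm_112_s : ∃ t, chk3 f_mm_112_s t 1 1 1 = true :=
  ⟨(a (l 3) (l 5)), by decide +kernel⟩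

theorem c_mm_112_s : CertNE 536870912 536870912 1073741824 536870912 923417968 42949674 3 eng mog cd0q1 cd4q2 pd1 false false false .dn 1 1 2
    ndB0q1 ndB4q2 pcB1 cut_mm_112_s Ext.none :=
  certNE2 (fam := false) (s1 := false) (s2 := false) (a := 1) (b := 1) (c := 2) (cn := .dn) (n1 := ndB0q1) (n2 := ndB4q2) (pc := pcB1) (cut := cut_mm_112_s) (xt := Ext.none) (P1 := 536870912) (W1 := 536870912) (P2 := 1073741824) (W2 := 536870912) (P3 := 923417968) (W3 := 42949674) (N0 := 3) (En := eng) (mo := mog) (C1 := cd0q1) (C2 := cd4q2) (C3 := pd1)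
    rfl (fun _ => rfl) k0_mm_112_s

noncomputable def cut_mm_113_s : Cut := Cut.of [[⟨4, 0, 0, 1449551462⟩]]

noncomputable def f_mm_113_s : ℕ → ℕ → ℕ → ℕ → Bool := onCell 536870912 536870912 0 1230186008 923417968 42949674
    (rowNE 3 eng mog cd0q1 cd4q3 pd1 0 false false false .nn 1 1 3 (qsf 536870912 536870912 0 1230186008 1) ndB0q1 ndB4q3 pcB1 cut_mm_113_s Ext.none)

def k0_mm_113_s : ∃ t, chk3 f_mm_113_s t 1 1 1 = true :=
  ⟨(a (l 5) (b (l 5) (a (b (l 5) (l 3)) (l 3)))), by decide +kernel⟩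

theorem c_mm_113_s : CertNE 536870912 536870912 0 1230186008 923417968 42949674 3 eng mog cd0q1 cd4q3 pd1 false false false .nn 1 1 3
    ndB0q1 ndB4q3 pcB1 cut_mm_113_s Ext.none :=
  certNE0 (fam := false) (s1 := false) (s2 := false) (a := 1) (b := 1) (c := 3) (cn := .nn) (n1 := ndB0q1) (n2 := ndB4q3) (pc := pcB1) (cut := cut_mm_113_s) (xt := Ext.none) (P1 := 536870912) (W1 := 536870912) (P2 := 0) (W2 := 1230186008) (P3 := 923417968) (W3 := 42949674) (N0 := 3) (En := eng) (mo := mog) (C1 := cd0q1) (C2 := cd4q3) (C3 := pd1)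
    rfl k0_mm_113_s

noncomputable def cut_mm_123_s : Cut := Cut.of [[⟨4, 0, 0, 1449551462⟩]]

noncomputable def f_mm_123_s : ℕ → ℕ → ℕ → ℕ → Bool := onCell 1073741824 536870912 0 1230186008 923417968 42949674
    (rowNE 3 eng mog cd0q1 cd4q3 pd2 2 false false false .npn 1 2 3 (qsf 536870912 536870912 0 1230186008 2) ndB0q1 ndB4q3 pcB2 cut_mm_123_s Ext.none)

def k0_mm_123_s : ∃ t, chk3 f_mm_123_s t 1 1 1 = true :=
  ⟨(b (l 5) (l 5)), by decide +kernel⟩

theorem c_mm_123_s : CertNE 536870912 536870912 0 1230186008 923417968 42949674 3 eng mog cd0q1 cd4q3 pd2 false false false .npn 1 2 3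
    ndB0q1 ndB4q3 pcB2 cut_mm_123_s Ext.none :=
  certNE2 (fam := false) (s1 := false) (s2 := false) (a := 1) (b := 2) (c := 3) (cn := .npn) (n1 := ndB0q1) (n2 := ndB4q3) (pc := pcB2) (cut := cut_mm_123_s) (xt := Ext.none) (P1 := 536870912) (W1 := 536870912) (P2 := 0) (W2 := 1230186008) (P3 := 923417968) (W3 := 42949674) (N0 := 3) (En := eng) (mo := mog) (C1 := cd0q1) (C2 := cd4q3) (C3 := pd2)
    rfl (fun _ => rfl) k0_mm_123_s

noncomputable def cut_mm_133_s : Cut := Cut.of [[⟨4, 0, 0, 1449551462⟩]]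

noncomputable def f_mm_133_s : ℕ → ℕ → ℕ → ℕ → Bool := onCell 1610612736 536870912 0 1230186008 923417968 42949674
    (rowNE 3 eng mog cd0q1 cd4q3 pd3 2 false false false .dn 1 3 3 (qsf 536870912 536870912 0 1230186008 3) ndB0q1 ndB4q3 pcB3 cut_mm_133_s Ext.none)

def k0_mm_133_s : ∃ t, chk3 f_mm_133_s t 1 1 1 = true :=
  ⟨(l 5), by decide +kernel⟩

theorem c_mm_133_s : CertNE 536870912 536870912 0 1230186008 923417968 42949674 3 eng mog cd0q1 cd4q3 pd3 false false false .dn 1 3 3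
    ndB0q1 ndB4q3 pcB3 cut_mm_133_s Ext.none :=
  certNE2 (fam := false) (s1 := false) (s2 := false) (a := 1) (b := 3) (c := 3) (cn := .dn) (n1 := ndB0q1) (n2 := ndB4q3) (pc := pcB3) (cut := cut_mm_133_s) (xt := Ext.none) (P1 := 536870912) (W1 := 536870912) (P2 := 0) (W2 := 1230186008) (P3 := 923417968) (W3 := 42949674) (N0 := 3) (En := eng) (mo := mog) (C1 := cd0q1) (C2 := cd4q3) (C3 := pd3)
    rfl (fun _ => rfl) k0_mm_133_s

noncomputable def cut_mm_202_s : Cut := Cut.of [[⟨4, 0, 0, 1449551462⟩], [⟨0, 1, 0, 67108864⟩, ⟨1, 0, 0, 67108864⟩, ⟨2, 1, 0, 67108864⟩]]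

noncomputable def f_mm_202_s : ℕ → ℕ → ℕ → ℕ → Bool := onCell 0 536870912 0 536870912 923417968 42949674
    (rowNE 3 eng mog cd0q2 cd4q2 pd0 1 false false false .pp 2 0 2 (qsf 0 536870912 1073741824 536870912 0) ndB0q2 ndB4q2 pcB0 cut_mm_202_s Ext.none)

def k0_mm_202_s : ∃ t, chk3 f_mm_202_s t 2 1 1 = true :=
  ⟨(b (a (a (l 6) (b (l 6) (b (l 6) (a (l 6) (l 16520976))))) (b (a (a (l 6) (b (l 6) (l 6))) (b (b (l 6) (b (l 16328736) (a (l 6) (l 16392912)))) (b (b (a (l 6) (l 16416352)) (b (l 16350656) (l 16443992))) (b (l 16483904) (l 16529056))))) (b (b (a (b (l 16459136) (l 16497400)) (b (l 16568872) (l 16603624))) (a (l 16538440) (b (l 16632280) (a (l 16629616) (l 16631608))))) (a (b (l 16581184) (a (l 16601168) (b (l 16643672) (l 16656864)))) (a (b (b (l 16644184) (l 16646864)) (l 16673800)) (b (b (l 16644752) (l 16664952)) (b (l 16687920) (l 16708216)))))))) (b (b (a (a (b (l 6) (l 16512792)) (b (l 16567624) (a (l 16592024) (l 16627896)))) (a (b (a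 (l 16635736) (l 16670576)) (a (l 16659384) (l 16689952))) (b (a (l 16699536) (b (l 16722944) (l 16733408))) (a (b (l 16715272) (l 16727128)) (b (a (l 16737688) (l 16752680)) (a (l 16750184) (b (l 16762344) (l 16748008)))))))) (a (a (b (l 16569384) (a (l 16598136) (l 16629736))) (b (a (l 16626440) (l 16654104)) (l 16667560))) (a (b (c (l 16739360) (l 16777960)) (a (l 16709200) (b (l 16734672) (l 269609836327)))) (b (a (b (l 16739912) (a (l 16745416) (l 16761384))) (b (a (b (l 16760120) (l 16766912)) (a (l 266992546935) (l 352891936375))) (a (a (l 264308203687) (l 327122141143)) (l 3)))) (a (b (a (l 16759360) (a (l 255718278231) (l 276656213095))) (a (b (l 16770072) (l 277193098599)) (l 378124849783))) (a (b (l 383493550391) (l 3)) (l 3))))))) (a (l 2) (a (l 2) (a (l 2) (l 3)))))), by decide +kernel⟩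

def k1_mm_202_s : ∃ t, chk3 f_mm_202_s t 6 4 1 = true :=
  ⟨(a (b (b (b (l 16268680) (a (l 16372144) (b (l 16420376) (l 16439664)))) (b (a (l 16414752) (l 16458848)) (a (l 16440208) (l 16496000)))) (b (b (l 16399384) (b (l 16536000) (l 16562888))) (b (a (l 16571144) (l 16631152)) (a (l 16613928) (l 16642424))))) (b (b (b (a (b (l 16431304) (l 16457688)) (b (a (l 16481424) (l 16505488)) (l 16506272))) (a (b (l 16469888) (l 16488440)) (l 16510144))) (b (a (l 16513472) (l 16506776)) (a (l 16552672) (l 16614784)))) (b (b (a (l 16596384) (l 16601352)) (a (b (l 16632648) (l 16659360)) (b (a (l 16670192) (l 16660344)) (a (l 16652768) (l 16656904))))) (a (b (b (l 16653336) (l 16641360)) (a (l 16632872) (l 16643984))) (b (a (b (l 16644824) (l 16649696)) (l 16672552)) (a (l 16671000) (l 16699336))))))), by decide +kernel⟩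

def k2_mm_202_s : ∃ t, chk3 f_mm_202_s t 6 10 1 = true :=
  ⟨(b (a (a (b (l 16643856) (l 16628568)) (b (l 16631032) (a (l 16629104) (l 16649880)))) (a (b (a (l 16645056) (l 16672384)) (a (l 16674544) (l 16699384))) (b (a (l 16698856) (a (l 16718848) (l 16732272))) (a (l 16766312) (b (l 16743752) (a (l 16748560) (l 16760936))))))) (b (a (a (a (l 16623960) (l 16633456)) (l 16665936)) (b (a (l 16705944) (a (l 16741336) (a (l 16759192) (b (l 16768656) (b (l 286319935303) (l 323364033943)))))) (a (l 16717712) (a (l 16772896) (a (c (l 257328902903) (l 16768592)) (a (b (l 282024959527) (l 425906390679)) (l 465097971207))))))) (a (a (l 16650800) (l 16691320)) (a (a (l 16723216) (a (l 16739360) (l 16771200))) (a (b (c (l 16782584) (l 16760776)) (a (l 16765808) (a (b (l 16771608) (l 282561832151)) (b (l 214379276727) (l 452213058439))))) (a (b (b (a (l 16773448) (l 401747204983)) (l 432885709047)) (l 3)) (l 3))))))), by decide +kernel⟩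

def k3_mm_202_s : ∃ t, chk3 f_mm_202_s t 6 11 1 = true :=
  ⟨(a (b (b (a (l 16675456) (l 16714000)) (a (l 16698424) (a (l 16724848) (l 16743096)))) (b (a (l 16718736) (a (l 16743136) (b (l 16755984) (l 16784856)))) (a (a (l 16729048) (l 16743776)) (a (b (l 16755240) (l 16762632)) (a (b (l 16767152) (l 265381955415)) (b (l 268066298967) (l 399062833719))))))) (b (a (b (a (l 16775104) (b (a (l 16754056) (l 16764376)) (a (l 16763112) (c (l 279877463095) (l 277729977447))))) (a (b (l 16757304) (a (l 16761080) (l 226190397767))) (a (b (b (l 16769512) (l 275045640407)) (a (l 276119361127) (l 424832639047))) (b (b (l 369534949079) (l 437717533831)) (l 3))))) (a (b (b (a (c (l 282561801063) (l 281488056247)) (a (l 443086246999) (l 3))) (c (l 444160000007) (l 445770608583))) (l 3)) (l 3))) (a (a (b (a (b (l 16769072) (a (l 16753400) (l 315310948631))) (b (a (l 272361277911) (l 384567329463)) (l 429664458839))) (a (b (l 413558340263) (l 3)) (l 3))) (l 3)) (l 3)))),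 by decide +kernel⟩

def k4_mm_202_s : ∃ t, chk3 f_mm_202_s t 14 8 1 = true :=
  ⟨(b (b (a (b (l 16545016) (l 16559976)) (b (a (l 16588416) (l 14)) (a (l 16605800) (l 16640224)))) (a (a (l 16572768) (l 16582240)) (b (a (l 16626048) (l 16662064)) (a (l 16648728) (l 16686304))))) (b (b (a (l 16578624) (a (l 16673456) (l 16712592))) (a (l 16644712) (a (l 16699920) (a (l 16714872) (b (l 16718424) (l 16719224)))))) (b (a (l 16670312) (a (a (l 16705128) (l 16704816)) (a (l 16692440) (l 16725768)))) (a (a (l 16678808) (l 16693312)) (a (a (l 16696640) (l 16707552)) (c (l 16733144) (l 16745872))))))), by decide +kernel⟩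

def k5_mm_202_s : ∃ t, chk3 f_mm_202_s t 14 18 1 = true :=
  ⟨(a (b (a (b (l 16684344) (l 16672128)) (b (a (l 16681216) (l 16689872)) (l 16691728))) (a (b (a (l 16665560) (l 16679448)) (l 16662968)) (b (l 16702912) (l 16714888)))) (b (b (a (c (l 16715912) (l 16683752)) (a (l 16722168) (b (l 16744584) (l 16750208)))) (b (a (l 16718808) (c (l 16771768) (l 16771800))) (a (l 16724520) (a (l 16746824) (a (l 16757936) (l 16765360)))))) (b (a (a (l 16725664) (l 16740648)) (a (c (l 16757144) (l 16753832)) (a (c (l 16780528) (l 16778928)) (b (c (l 16771600) (l 16770672)) (b (a (l 16773640) (c (l 215989883639) (l 218137367111))) (a (c (l 176798306295) (l 16779248)) (l 475298531847))))))) (a (c (l 16774896) (a (l 16734408) (l 16750472))) (b (a (c (l 16765200) (l 16763272)) (a (b (c (l 16779360) (l 16773600)) (a (l 16774928) (l 385104215879))) (a (b (l 426980147943) (l 3)) (l 3)))) (a (a (l 16766376) (a (l 16771904) (b (l 16774144) (a (l 16776096) (l 257865814903)))))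 (a (a (b (c (l 241759687767) (l 241759687767)) (l 3)) (l 3)) (l 3)))))))), by decide +kernel⟩

def k6_mm_202_s : ∃ t, chk3 f_mm_202_s t 14 19 1 = true :=
  ⟨(a (a (b (c (l 16708272) (l 16655336)) (c (l 16752640) (l 16766632))) (b (c (a (l 16729288) (l 16743152)) (a (l 16700744) (l 16758792))) (a (b (l 16743896) (l 16776792)) (b (a (l 16754768) (l 16772464)) (a (c (l 16767136) (l 16765632)) (b (l 16770592) (a (l 16780328) (b (l 16776472) (l 312626650311))))))))) (a (b (b (a (l 16772960) (a (l 16776144) (c (l 16778912) (l 16777544)))) (a (c (l 16772776) (l 16759992)) (a (b (l 16769152) (b (l 16780344) (c (l 185925114103) (l 182167017735)))) (b (a (b (l 16773160) (l 16779920)) (b (l 188072597063) (l 518785067351))) (a (l 486035939319) (l 3)))))) (a (b (c (a (b (l 16767008) (l 16772344)) (b (l 109689444711) (l 387251695463))) (a (l 45264937335) (b (l 16779648) (l 409263399143)))) (a (b (a (b (l 16774464) (l 213305530183)) (l 444696879735)) (l 519321922231))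 (l 3))) (a (b (b (c (l 455434299175) (l 466171710135)) (l 3)) (l 3)) (l 3)))) (b (a (b (a (c (b (l 16777784) (a (b (l 16774864) (l 229948527495)) (l 425369533239))) (b (l 16771792) (a (l 149954762823) (l 478519746647)))) (b (a (b (l 137069860215) (l 458655528247)) (l 546702355495)) (l 3))) (c (l 556366024007) (l 550460453479))) (l 3)) (l 3)))), by decide +kernel⟩

def k7_mm_202_s : ∃ t, chk3 f_mm_202_s t 15 16 1 = true :=
  ⟨(a (b (l 14) (a (b (l 14) (a (l 16716128) (b (l 14) (l 16734400)))) (l 14))) (l 14)), by decide +kernel⟩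

def k8_mm_202_s : ∃ t, chk3 f_mm_202_s t 15 34 1 = true :=
  ⟨(b (a (a (a (b (l 16728760) (l 16725808)) (b (l 16712616) (l 16736352))) (a (c (l 16760472) (b (l 16721640) (l 16727032))) (a (b (l 14) (a (l 16758944) (l 16762472))) (l 14)))) (l 14)) (b (a (a (a (l 16727616) (l 16741328)) (a (c (l 16757104) (l 16732624)) (a (c (l 16766920) (l 16765152)) (a (c (l 16777136) (l 16777544)) (b (l 14) (c (a (c (l 16775744) (l 16775616)) (b (l 123111212903) (l 392083538743))) (a (l 41506834759) (b (l 139217340279) (l 394231022391))))))))) (b (l 14) (b (l 14) (l 3)))) (a (a (a (l 16732328) (l 16746464)) (a (c (l 16775136) (a (l 16755456) (l 16763240))) (b (a (c (l 16770704) (l 16769584)) (b (a (c (l 16775088) (l 16774728)) (a (a (a (l 16778272) (l 235854104711)) (l 433422598983)) (l 3))) (a (a (l 16775392) (a (l 109152569495) (a (l 241759684775) (l 338933319927)))) (l 3)))) (a (a (l 16771104) (a (l 16773840) (c (l 75329702311) (l 16778152)))) (a (c (a (b (l 158007822311)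 (l 403894698935)) (l 475835402215)) (a (b (l 152639113239) (l 407115924391)) (l 486035949479))) (l 3)))))) (l 3)))), by decide +kernel⟩

def k9_mm_202_s : ∃ t, chk3 f_mm_202_s t 15 35 1 = true :=
  ⟨(a (b (a (a (c (l 16743160) (l 16715888)) (c (a (l 16752984) (l 16759600)) (b (l 16728624) (l 16755488)))) (a (b (a (c (l 16763712) (l 16740360)) (c (c (l 16770680) (l 16770112)) (c (l 16769520) (l 16768888)))) (a (c (l 16779304) (l 16777824)) (a (b (l 16777424) (a (l 16774088) (c (l 95193926375) (l 16778424)))) (a (b (c (l 16775120) (l 16774752)) (b (a (l 16776600) (l 244444039831)) (l 448454984887))) (b (b (l 16778688) (a (l 170355853655) (l 312626645783))) (l 3)))))) (a (b (a (b (c (l 16774152) (l 16773624)) (c (a (l 84993378887) (b (l 171966466167) (l 433959470135))) (a (l 16778280) (b (l 172503336999) (l 440401921063))))) (a (b (b (l 16778560) (a (l 127943051495) (l 292762421911))) (c (l 484962207847) (l 495699626023))) (b (b (c (l 356113187351) (l 273435069079))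 (l 3)) (l 3)))) (a (a (b (a (b (l 233706621527) (l 3)) (l 487646560695)) (l 3)) (l 3)) (l 3))) (l 3)))) (a (a (c (l 16763552) (b (l 16724664) (l 16730680))) (a (b (l 16759056) (c (l 16765672) (l 16763600))) (b (b (l 16764968) (l 16775648)) (b (c (l 16771136) (l 16770064)) (a (l 16771608) (a (l 16774392) (b (l 16775528) (l 171429596455)))))))) (a (a (b (b (c (l 16779256) (l 16778464)) (a (l 16778552) (c (a (l 105931344807) (b (l 204715592087) (l 465097983319))) (a (l 16778584) (l 341080802055))))) (a (a (b (c (l 16775392) (l 16775064)) (c (l 354502574951) (l 352891962263))) (b (b (l 16778984) (a (l 214916139687) (l 375440542775))) (l 3))) (b (c (a (l 419463956071) (l 3)) (l 460266146199)) (l 3)))) (b (a (b (a (b (l 16778832) (a (l 190756948503) (l 334101482391))) (b (l 380809249591) (l 3))) (l 3)) (l 3)) (l 3))) (l 3)))) (l 3)), by decide +kernel⟩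

def k10_mm_202_s : ∃ t, chk3 f_mm_202_s t 15 9 1 = true :=
  ⟨(b (a (a (b (b (b (a (c (l 16760728) (l 16757784)) (a (c (c (l 16771152) (l 16770624)) (c (l 16770072) (l 16769488))) (a (b (c (l 16774688) (l 16774240)) (c (a (l 127406181575) (l 366850606087)) (a (l 16776304) (l 366313735207)))) (b (a (b (l 16779144) (l 282025004663)) (b (l 432885728359) (l 3))) (l 3))))) (a (a (l 16761272) (c (l 16769336) (l 16767976))) (b (b (a (c (l 72645349383) (l 16778896)) (a (l 466171725927) (l 3))) (a (a (l 16773512) (c (l 206326206183) (l 204178722583))) (l 3))) (a (a (c (l 111300054967) (l 105931345943)) (c (l 422685181991) (l 427517020183))) (l 3))))) (a (a (a (c (l 16779216) (l 16777800)) (b (l 16768856) (b (l 16773192) (b (l 16775360) (l 177872048263))))) (b (b (c (l 62981673511) (l 16777888)) (a (l 16774016) (c (l 316921610823) (a (l 16776696) (l 398525990263))))) (a (b (c (a (l 16776064) (l 253033975639)) (l 190220079479)) (l 446307497239)) (l 3)))) (a (b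 (a (b (c (a (l 234780364935) (l 475298531463)) (l 358797542759)) (l 3)) (l 3)) (l 3)) (l 3)))) (a (b (a (b (a (b (c (l 16775400) (l 16775088)) (c (l 339470189543) (l 260013298967))) (b (c (l 383493605063) (l 406042182215)) (l 3))) (l 3)) (l 3)) (l 3)) (l 3))) (l 3)) (l 3)) (l 3)), by decide +kernel⟩

def k11_mm_202_s : ∃ t, chk3 f_mm_202_s t 7 5 1 = true :=
  ⟨(b (a (a (b (b (b (a (a (l 16739624) (l 16753480)) (b (a (l 16764480) (a (c (l 144049183959) (l 139754216663)) (l 491941510247))) (a (c (l 104320737159) (l 92509576983)) (c (l 486572797751) (l 484962174567))))) (a (a (l 16751616) (c (l 16765752) (l 16764048))) (a (a (b (l 16772192) (a (l 160692182647) (l 435033202407))) (b (c (l 389399177671) (l 399599722567)) (l 3))) (l 3)))) (a (a (b (a (l 16759664) (l 16766032)) (a (b (l 16767624) (l 16772744)) (b (l 286319938247) (l 388862304663)))) (b (a (b (l 16769808) (l 283635599703)) (b (c (l 195051921847) (l 191830696263)) (l 472077284967))) (c (l 473687903479)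 (l 472614150919)))) (a (b (b (l 499994573607) (l 3)) (l 3)) (l 3)))) (a (b (a (a (b (c (l 409263394823) (l 418390197079)) (l 3)) (l 3)) (l 3)) (l 3)) (l 3))) (l 3)) (l 3)) (l 3)), by decide +kernel⟩

def k12_mm_202_s : ∃ t, chk3 f_mm_202_s t 3 3 1 = true :=
  ⟨(b (a (b (a (b (a (b (a (l 16743768) (l 16778872)) (a (l 16755232) (b (l 16767016) (l 274508741991)))) (b (a (b (a (l 16765728) (l 16757272)) (a (l 16771888) (l 349670723943))) (a (b (l 385641068327) (l 3)) (l 3))) (a (a (b (l 281488061591) (l 3)) (l 3)) (l 3)))) (a (b (a (b (l 16764648) (l 270213789351)) (a (b (l 269140049095) (l 379198610231)) (l 386177910743))) (a (b (l 286856772327) (l 375977378039)) (l 3))) (l 3))) (l 3)) (l 3)) (l 3)) (l 3)), by decide +kernel⟩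

theorem s13_mm_202_s : ∃ t, chk3 f_mm_202_s t 15 17 1 = true := ex3_b k8_mm_202_s k9_mm_202_s

theorem s14_mm_202_s : ∃ t, chk3 f_mm_202_s t 15 8 1 = true := ex3_b k7_mm_202_s s13_mm_202_s

theorem s15_mm_202_s : ∃ t, chk3 f_mm_202_s t 15 4 1 = true := ex3_b s14_mm_202_s k10_mm_202_s

theorem s16_mm_202_s : ∃ t, chk3 f_mm_202_s t 14 9 1 = true := ex3_b k5_mm_202_s k6_mm_202_s

theorem s17_mm_202_s : ∃ t, chk3 f_mm_202_s t 14 4 1 = true := ex3_b k4_mm_202_s s16_mm_202_s

theorem s18_mm_202_s : ∃ t, chk3 f_mm_202_s t 7 4 1 = true := ex3_a s17_mm_202_s s15_mm_202_s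

theorem s19_mm_202_s : ∃ t, chk3 f_mm_202_s t 7 2 1 = true := ex3_b s18_mm_202_s k11_mm_202_s

theorem s20_mm_202_s : ∃ t, chk3 f_mm_202_s t 6 5 1 = true := ex3_b k2_mm_202_s k3_mm_202_s

theorem s21_mm_202_s : ∃ t, chk3 f_mm_202_s t 6 2 1 = true := ex3_b k1_mm_202_s s20_mm_202_s

theorem s22_mm_202_s : ∃ t, chk3 f_mm_202_s t 3 2 1 = true := ex3_a s21_mm_202_s s19_mm_202_s

theorem s23_mm_202_s : ∃ t, chk3 f_mm_202_s t 3 1 1 = true := ex3_b s22_mm_202_s k12_mm_202_s

theorem s24_mm_202_s : ∃ t, chk3 f_mm_202_s t 1 1 1 = true := ex3_a k0_mm_202_s s23_mm_202_s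

theorem c_mm_202_s : CertNE 0 536870912 1073741824 536870912 923417968 42949674 3 eng mog cd0q2 cd4q2 pd0 false false false .pp 2 0 2
    ndB0q2 ndB4q2 pcB0 cut_mm_202_s Ext.none :=
  certNE1 (fam := false) (s1 := false) (s2 := false) (a := 2) (b := 0) (c := 2) (cn := .pp) (n1 := ndB0q2) (n2 := ndB4q2) (pc := pcB0) (cut := cut_mm_202_s) (xt := Ext.none) (P1 := 0) (W1 := 536870912) (P2 := 1073741824) (W2 := 536870912) (P3 := 923417968) (W3 := 42949674) (N0 := 3) (En := eng) (mo := mog) (C1 := cd0q2) (C2 := cd4q2) (C3 := pd0)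
    rfl (fun _ => rfl) s24_mm_202_s

noncomputable def cut_mm_203_s : Cut := Cut.of [[⟨4, 0, 0, 1449551462⟩]]

noncomputable def f_mm_203_s : ℕ → ℕ → ℕ → ℕ → Bool := onCell 0 536870912 0 1230186008 923417968 42949674
    (rowNE 3 eng mog cd0q2 cd4q3 pd0 0 false false false .up 2 0 3 (qsf 0 536870912 0 1230186008 0) ndB0q2 ndB4q3 pcB0 cut_mm_203_s Ext.none)

def k0_mm_203_s : ∃ t, chk3 f_mm_203_s t 1 1 1 = true :=
  ⟨(b (l 2) (b (l 2) (a (b (a (b (l 2) (b (l 2) (a (b (l 353898553687) (l 16732136)) (a (a (b (l 254644535815) (l 16763104)) (b (l 339470165527) (l 282561815767))) (l 3))))) (l 3)) (b (a (a (b (l 16756520) (l 16687992)) (b (a (b (l 16758176) (l 16745880)) (b (a (l 293836155623) (l 3)) (a (l 16766568) (l 312089758759)))) (a (l 16725592) (b (a (l 16753352) (l 240685890199)) (l 16746712))))) (a (b (l 3) (a (b (a (l 333564585767) (l 3)) (a (l 252497032679) (l 349670702039))) (l 3))) (l 3))) (a (a (b (l 16655960) (a (l 16603136) (l 16634464))) (b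 (a (l 16694928) (b (l 16731512) (l 16715208))) (a (l 16661952) (l 16690120)))) (a (b (a (b (a (l 16755904) (b (l 280951194039) (l 16769784))) (a (l 16739656) (l 16757536))) (a (b (l 375440493191) (b (l 313700372919) (l 254644529335))) (l 3))) (a (b (l 16731816) (l 16715200)) (b (a (l 205789293559) (a (l 256792001463) (l 344302002983))) (a (l 16743352) (b (l 16767096) (l 16758728)))))) (b (l 3) (a (b (l 3) (a (a (l 277193081959) (l 355039410807)) (l 3))) (l 3))))))) (l 3)))), by decide +kernel⟩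

theorem c_mm_203_s : CertNE 0 536870912 0 1230186008 923417968 42949674 3 eng mog cd0q2 cd4q3 pd0 false false false .up 2 0 3
    ndB0q2 ndB4q3 pcB0 cut_mm_203_s Ext.none :=
  certNE0 (fam := false) (s1 := false) (s2 := false) (a := 2) (b := 0) (c := 3) (cn := .up) (n1 := ndB0q2) (n2 := ndB4q3) (pc := pcB0) (cut := cut_mm_203_s) (xt := Ext.none) (P1 := 0) (W1 := 536870912) (P2 := 0) (W2 := 1230186008) (P3 := 923417968) (W3 := 42949674) (N0 := 3) (En := eng) (mo := mog) (C1 := cd0q2) (C2 := cd4q3) (C3 := pd0)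
    rfl k0_mm_203_s

noncomputable def cut_mm_213_s : Cut := Cut.of [[⟨4, 0, 0, 1449551462⟩]]

noncomputable def f_mm_213_s : ℕ → ℕ → ℕ → ℕ → Bool := onCell 0 536870912 0 1230186008 923417968 42949674
    (rowNE 3 eng mog cd0q2 cd4q3 pd1 0 false false false .pnn 2 1 3 (qsf 0 536870912 0 1230186008 1) ndB0q2 ndB4q3 pcB1 cut_mm_213_s Ext.none)

def k0_mm_213_s : ∃ t, chk3 f_mm_213_s t 1 1 1 = true :=
  ⟨(b (a (l 3) (b (l 5) (l 3))) (b (a (b (l 3) (a (l 3) (l 3))) (l 3)) (a (b (a (b (a (b (a (b (c (l 319069083639) (l 321753437047)) (a (b (l 237464648375) (l 16736128)) (l 318532215479))) (l 3)) (a (b (a (c (l 16731504) (l 16739496)) (b (l 286319901271) (a (l 16755888) (l 16750776)))) (c (l 16749728) (l 16728504))) (a (b (l 328732760343) (a (b (l 285246180247) (l 16763488)) (l 298131067975))) (l 3)))) (l 3)) (b (a (c (a (b (l 16682048) (l 16642632)) (a (b (l 140291019495) (l 16711176)) (b (l 289541140839) (b (l 199883692135) (l 16746744))))) (a (b (l 16698440)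 (l 16665600)) (b (a (l 16752240) (l 294373021191)) (a (l 16722432) (l 194514972919))))) (a (b (l 3) (c (l 316921571671) (l 318532203815))) (l 3))) (b (a (a (l 16530488) (c (l 16736808) (l 16708736))) (a (a (b (a (l 16763208) (l 291151762711)) (a (l 16746248) (l 16745552))) (l 315310983847)) (l 3))) (l 1)))) (l 3)) (b (a (l 1) (a (l 1) (l 3))) (l 1))) (l 3)))), by decide +kernel⟩

theorem c_mm_213_s : CertNE 0 536870912 0 1230186008 923417968 42949674 3 eng mog cd0q2 cd4q3 pd1 false false false .pnn 2 1 3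
    ndB0q2 ndB4q3 pcB1 cut_mm_213_s Ext.none :=
  certNE0 (fam := false) (s1 := false) (s2 := false) (a := 2) (b := 1) (c := 3) (cn := .pnn) (n1 := ndB0q2) (n2 := ndB4q3) (pc := pcB1) (cut := cut_mm_213_s) (xt := Ext.none) (P1 := 0) (W1 := 536870912) (P2 := 0) (W2 := 1230186008) (P3 := 923417968) (W3 := 42949674) (N0 := 3) (En := eng) (mo := mog) (C1 := cd0q2) (C2 := cd4q3) (C3 := pd1)
    rfl k0_mm_213_s

end Pool.Agent.Strip051.G.I8600_9000.Tab.CS.BB04

namespace Pool.Agent.Strip051.G.I8600_9000.Tab.CS.BB40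

open Pool.Agent.Strip051.PB Pool.Agent.Strip051.PB.T
open Pool.Agent.Strip051.G.I8600_9000.Tab

noncomputable def cut_pp_001_s : Cut := Cut.of [[⟨4, 0, 0, 1449551462⟩]]

noncomputable def f_pp_001_s : ℕ → ℕ → ℕ → ℕ → Bool := onCell 0 536870912 536870912 536870912 923417968 42949674
    (rowNE 3 eng mog cd4q0 cd0q1 pd0 2 false true true .up 0 0 1 (qsf 0 536870912 536870912 536870912 0) ndB4q0 ndB0q1 pcB0 cut_pp_001_s Ext.none)

def k0_pp_001_s : ∃ t, chk3 f_pp_001_s t 2 1 1 = true :=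
  ⟨(b (l 3) (b (b (l 3) (l 2)) (l 2))), by decide +kernel⟩

def k1_pp_001_s : ∃ t, chk3 f_pp_001_s t 3 2 1 = true :=
  ⟨(a (l 3) (b (l 3) (a (b (l 3) (b (a (l 3) (b (l 3) (a (l 3) (b (l 474761630935) (l 307794733415))))) (a (b (a (l 3) (b (l 3) (l 497847063671))) (a (b (l 3) (l 473687886919)) (b (l 307794717703) (l 16743504)))) (b (a (b (l 313163413511) (l 247128330679)) (b (l 16759816) (l 16745136))) (a (l 16768264) (l 16723096)))))) (b (a (b (l 3) (b (l 3) (a (l 3) (b (l 503752648711) (l 313700307895))))) (b (b (l 3) (a (l 3) (l 461876725303))) (b (a (l 445233708823) (a (l 16747448) (l 16762736))) (a (b (l 16750704) (l 16758752)) (l 16742728))))) (b (a (b (a (b (l 503215782343) (l 310479083511)) (b (l 16747424) (l 16754856))) (a (b (l 16764456) (l 16750320)) (l 16733880))) (a (b (l 16738584) (l 16711016)) (b (l 16716168) (l 16688720)))) (a (b (a (l 16728544) (l 16705312)) (l 16687824)) (b (l 16671392) (l 16643024)))))))), by decide +kernel⟩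

def k2_pp_001_s : ∃ t, chk3 f_pp_001_s t 3 3 1 = true :=
  ⟨(b (a (b (a (b (l 3) (a (l 3) (b (l 3) (a (l 3) (b (l 3) (a (l 474761619191) (l 294372963191))))))) (b (a (l 3) (b (a (l 3) (b (l 3) (l 305647222391))) (a (b (l 483351555047) (l 300815399767)) (b (l 244443983271) (l 16754344))))) (a (b (a (b (l 3) (l 475298486023)) (a (a (l 435033188071) (l 284172396871)) (l 283098665735))) (a (c (b (l 294372944023) (l 16763320)) (b (l 299741654311) (l 16764072))) (b (l 16756648) (l 16743416)))) (a (b (b (l 16762440) (l 16748976)) (l 16728656)) (b (l 16733680) (l 16706520)))))) (a (b (a (l 2) (b (a (l 2) (b (l 278199726903) (l 2))) (l 2))) (l 2)) (b (a (b (a (l 16783328) (l 16723384)) (a (l 16717928) (l 16696872))) (b (a (l 16701832) (l 16679448)) (l 16663240))) (a (b (l 16751248) (l 2)) (b (l 16636040) (l 16608592)))))) (a (b (b (a (b (a (b (l 303499762759) (l 16759528)) (l 16742928)) (a (l 16717472) (l 16714856))) (a (b (l 16718552) (l 16690528)) (l 16680200)))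 (a (b (a (l 16710880) (l 16687240)) (l 16671384)) (b (l 16650808) (l 16623560)))) (b (a (b (l 16644112) (l 16616832)) (l 16582248)) (a (l 16574688) (l 16527352)))) (b (a (b (b (l 16659712) (l 16632256)) (l 16591192)) (b (l 16601840) (l 16549008))) (b (a (l 16537264) (l 16496496)) (a (l 16461792) (l 16442056)))))) (a (b (a (l 2) (b (a (l 2) (l 16608056)) (l 2))) (l 2)) (b (a (b (a (l 16518400) (l 16470944)) (a (l 16461248) (l 16413328))) (b (a (l 16426296) (l 16385320)) (a (l 16368224) (l 16302888)))) (a (b (b (l 103716319687) (l 2)) (l 2)) (b (a (l 16287008) (l 6)) (l 6)))))), by decide +kernel⟩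

theorem s3_pp_001_s : ∃ t, chk3 f_pp_001_s t 3 1 1 = true := ex3_b k1_pp_001_s k2_pp_001_s

theorem s4_pp_001_s : ∃ t, chk3 f_pp_001_s t 1 1 1 = true := ex3_a k0_pp_001_s s3_pp_001_s

theorem c_pp_001_s : CertNE 0 536870912 536870912 536870912 923417968 42949674 3 eng mog cd4q0 cd0q1 pd0 false true true .up 0 0 1
    ndB4q0 ndB0q1 pcB0 cut_pp_001_s Ext.none :=
  certNE2 (fam := false) (s1 := true) (s2 := true) (a := 0) (b := 0) (c := 1) (cn := .up) (n1 := ndB4q0) (n2 := ndB0q1) (pc := pcB0) (cut := cut_pp_001_s) (xt := Ext.none) (P1 := 0) (W1 := 536870912) (P2 := 536870912) (W2 := 536870912) (P3 := 923417968) (W3 := 42949674) (N0 := 3) (En := eng) (mo := mog) (C1 := cd4q0) (C2 := cd0q1) (C3 := pd0)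
    rfl (fun _ => rfl) s4_pp_001_s

noncomputable def cut_pp_011_s : Cut := Cut.of [[⟨4, 0, 0, 1449551462⟩]]

noncomputable def f_pp_011_s : ℕ → ℕ → ℕ → ℕ → Bool := onCell 536870912 536870912 536870912 536870912 923417968 42949674
    (rowNE 3 eng mog cd4q0 cd0q1 pd1 2 false true true .pnn 0 1 1 (qsf 0 536870912 536870912 536870912 1) ndB4q0 ndB0q1 pcB1 cut_pp_011_s Ext.none)

def k0_pp_011_s : ∃ t, chk3 f_pp_011_s t 4 4 1 = true :=
  ⟨(a (b (l 3) (a (b (l 3) (a (l 3) (b (l 3) (a (l 3) (l 503752657831))))) (b (a (l 3) (b (l 3) (a (l 3) (l 534354296423)))) (c (a (b (l 534891155223) (a (l 310479065159) (l 16747000))) (b (a (l 312089677511) (l 55465418327)) (a (l 16735704) (l 16713584)))) (a (b (l 526838092743) (a (l 320142750183) (l 16759184))) (b (b (l 320142748023) (l 16739544)) (l 16728608))))))) (b (a (a (l 3) (l 1)) (l 1)) (a (a (b (b (a (l 3) (l 539723005063)) (a (b (l 323900859847) (l 166597700967)) (b (l 204178664807) (l 16751392)))) (b (c (b (l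 16738776) (l 16694968)) (l 16731072)) (c (l 16639192) (l 16688344)))) (a (b (a (b (l 281890700199) (l 16725344)) (b (l 1) (l 16729384))) (b (l 16656088) (l 16654144))) (b (b (l 1) (l 258268219143)) (b (l 16656640) (l 16634184))))) (a (b (b (l 1) (l 287796001623)) (b (c (l 16643584) (l 16653336)) (c (l 16598320) (l 16611488)))) (b (l 1) (c (l 16667520) (l 286185149767))))))), by decide +kernel⟩

def k1_pp_011_s : ∃ t, chk3 f_pp_011_s t 4 5 1 = true :=
  ⟨(b (a (a (c (b (a (b (l 511268840295) (a (l 276656198999) (l 16751648))) (b (a (l 297594163095) (l 16754992)) (l 16715392))) (a (b (a (l 16724384) (l 16701912)) (l 16661376)) (b (l 16668552) (l 16617928)))) (b (a (b (l 505363261095) (a (l 288467366999) (l 16753888))) (b (a (l 307794719863) (l 16756920)) (l 16723144))) (a (b (l 16718536) (l 16671104)) (b (l 16677960) (l 16631464))))) (a (b (b (a (b (l 16746392) (l 16723224)) (l 16660664)) (c (l 16673456) (l 16682448))) (b (c (l 16624960) (l 16638128)) (l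 16583560))) (b (c (b (l 16655744) (l 16629560)) (b (l 16685296) (l 16642264))) (b (l 16590120) (l 16543264))))) (a (b (a (b (c (l 16633640) (l 16644608)) (l 16573032)) (b (l 16536336) (l 16553016))) (a (b (l 16549360) (l 16503392)) (c (l 16474080) (l 16499248)))) (b (a (b (l 16560808) (l 16515688)) (b (l 16523168) (l 16479208))) (c (a (l 16432856) (l 16395744)) (l 16525608))))) (a (a (b (a (b (c (l 16587400) (l 16622160)) (l 16457608)) (b (l 16469520) (l 16460016))) (a (b (l 16445552) (l 16453672)) (b (l 16449072) (l 16416432)))) (b (b (a (l 16471504) (l 16453040)) (c (l 16346664) (l 16435872))) (c (b (l 16398392) (l 16344776)) (b (l 16428224) (l 16378176))))) (b (a (c (l 16473224) (l 16427352)) (c (l 16318216) (l 16353888))) (a (c (l 16441440) (l 16247744)) (c (l 16240480) (l 16239936)))))), by decide +kernel⟩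

def k2_pp_011_s : ∃ t, chk3 f_pp_011_s t 5 2 1 = true :=
  ⟨(b (a (b (l 1) (a (a (a (b (l 1) (l 153578290599)) (l 1)) (l 1)) (l 1))) (l 1)) (a (b (a (b (b (a (l 16488056) (l 16458392)) (a (l 16443304) (l 16410312))) (c (l 16364448) (l 16373728))) (b (c (l 254509566839) (l 16430488)) (c (l 16260872) (l 16314200)))) (a (b (c (l 16240440) (l 16280328)) (c (l 16145248) (l 16190040))) (b (c (l 16177784) (l 16215528)) (l 16156064)))) (b (b (l 1) (a (c (l 16236200) (l 16267376)) (l 1))) (a (b (c (l 16123912) (l 16161456)) (l 16031912)) (b (l 189011275255) (l 15977232)))))), by decide +kernel⟩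

def k3_pp_011_s : ∃ t, chk3 f_pp_011_s t 2 3 1 = true :=
  ⟨(b (a (c (b (a (b (a (b (l 16365576) (l 16309280)) (a (l 16282624) (l 16246624))) (a (a (l 16239920) (l 16206456)) (l 16156104))) (b (a (l 16192304) (l 16121536)) (a (l 16090448) (l 16024928)))) (a (b (a (l 16103160) (l 16044144)) (a (l 15955944) (l 15924520))) (b (a (l 15985256) (l 15926248)) (a (l 15873080) (l 15821032))))) (b (a (b (a (b (l 16396472) (l 16344152)) (l 16281904)) (a (l 16263464) (l 16202912))) (b (a (l 16236096) (l 16169032)) (a (l 16141736) (l 16079280)))) (a (b (a (l 16152784) (l 16099408)) (a (l 16035912) (l 15988816))) (b (a (l 16044672) (l 15988296)) (l 15704544))))) (a (b (b (a (c (l 16051312) (l 16101336)) (l 16005512)) (a (c (l 15959792) (l 16015944)) (l 15968640))) (b (a (l 15897120) (l 6)) (l 6))) (b (a (b (l 15934136) (l 15855200)) (b (l 15875600) (l 6))) (l 6)))) (a (b (a (b (a (c (l 15904760) (l 15910928)) (c (l 15795928) (l 15869904))) (a (b (l 15773552) (l 6))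 (l 6))) (b (l 6) (l 6))) (l 6)) (l 6))), by decide +kernel⟩

def k4_pp_011_s : ∃ t, chk3 f_pp_011_s t 3 1 1 = true :=
  ⟨(b (a (b (l 1) (a (b (l 1) (a (b (l 1) (l 15984592)) (l 1))) (l 1))) (l 1)) (a (b (b (l 6) (l 6)) (l 6)) (l 6))), by decide +kernel⟩

theorem s5_pp_011_s : ∃ t, chk3 f_pp_011_s t 4 2 1 = true := ex3_b k0_pp_011_s k1_pp_011_s

theorem s6_pp_011_s : ∃ t, chk3 f_pp_011_s t 2 2 1 = true := ex3_a s5_pp_011_s k2_pp_011_s

theorem s7_pp_011_s : ∃ t, chk3 f_pp_011_s t 2 1 1 = true := ex3_b s6_pp_011_s k3_pp_011_s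

theorem s8_pp_011_s : ∃ t, chk3 f_pp_011_s t 1 1 1 = true := ex3_a s7_pp_011_s k4_pp_011_s

theorem c_pp_011_s : CertNE 0 536870912 536870912 536870912 923417968 42949674 3 eng mog cd4q0 cd0q1 pd1 false true true .pnn 0 1 1
    ndB4q0 ndB0q1 pcB1 cut_pp_011_s Ext.none :=
  certNE2 (fam := false) (s1 := true) (s2 := true) (a := 0) (b := 1) (c := 1) (cn := .pnn) (n1 := ndB4q0) (n2 := ndB0q1) (pc := pcB1) (cut := cut_pp_011_s) (xt := Ext.none) (P1 := 0) (W1 := 536870912) (P2 := 536870912) (W2 := 536870912) (P3 := 923417968) (W3 := 42949674) (N0 := 3) (En := eng) (mo := mog) (C1 := cd4q0) (C2 := cd0q1) (C3 := pd1)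
    rfl (fun _ => rfl) s8_pp_011_s

noncomputable def cut_pp_012_s : Cut := Cut.of [[⟨4, 0, 0, 1449551462⟩]]

noncomputable def f_pp_012_s : ℕ → ℕ → ℕ → ℕ → Bool := onCell 0 536870912 0 536870912 923417968 42949674
    (rowNE 3 eng mog cd4q0 cd0q2 pd1 0 false true true .pnp 0 1 2 (qsf 0 536870912 0 536870912 1) ndB4q0 ndB0q2 pcB1 cut_pp_012_s Ext.none)

def k0_pp_012_s : ∃ t, chk3 f_pp_012_s t 1 1 1 = true :=
  ⟨(b (l 6) (l 6)), by decide +kernel⟩

theorem c_pp_012_s : CertNE 0 536870912 0 536870912 923417968 42949674 3 eng mog cd4q0 cd0q2 pd1 false true true .pnp 0 1 2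
    ndB4q0 ndB0q2 pcB1 cut_pp_012_s Ext.none :=
  certNE0 (fam := false) (s1 := true) (s2 := true) (a := 0) (b := 1) (c := 2) (cn := .pnp) (n1 := ndB4q0) (n2 := ndB0q2) (pc := pcB1) (cut := cut_pp_012_s) (xt := Ext.none) (P1 := 0) (W1 := 536870912) (P2 := 0) (W2 := 536870912) (P3 := 923417968) (W3 := 42949674) (N0 := 3) (En := eng) (mo := mog) (C1 := cd4q0) (C2 := cd0q2) (C3 := pd1)
    rfl k0_pp_012_s

noncomputable def cut_pp_022_s : Cut := Cut.of [[⟨4, 0, 0, 1449551462⟩]]

noncomputable def f_pp_022_s : ℕ → ℕ → ℕ → ℕ → Bool := onCell 1073741824 536870912 0 536870912 923417968 42949674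
    (rowNE 3 eng mog cd4q0 cd0q2 pd2 2 false true true .pp 0 2 2 (qsf 0 536870912 0 536870912 2) ndB4q0 ndB0q2 pcB2 cut_pp_022_s Ext.none)

def k0_pp_022_s : ∃ t, chk3 f_pp_022_s t 1 1 1 = true :=
  ⟨(l 6), by decide +kernel⟩

theorem c_pp_022_s : CertNE 0 536870912 0 536870912 923417968 42949674 3 eng mog cd4q0 cd0q2 pd2 false true true .pp 0 2 2
    ndB4q0 ndB0q2 pcB2 cut_pp_022_s Ext.none :=
  certNE2 (fam := false) (s1 := true) (s2 := true) (a := 0) (b := 2) (c := 2) (cn := .pp) (n1 := ndB4q0) (n2 := ndB0q2) (pc := pcB2) (cut := cut_pp_022_s) (xt := Ext.none) (P1 := 0) (W1 := 536870912) (P2 := 0) (W2 := 536870912) (P3 := 923417968) (W3 := 42949674) (N0 := 3) (En := eng) (mo := mog) (C1 := cd4q0) (C2 := cd0q2) (C3 := pd2)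
    rfl (fun _ => rfl) k0_pp_022_s

noncomputable def cut_pp_101_s : Cut := Cut.of [[⟨4, 0, 0, 1449551462⟩], [⟨0, 1, 0, 67108864⟩, ⟨1, 0, 0, 67108864⟩, ⟨2, 1, 0, 67108864⟩]]

noncomputable def f_pp_101_s : ℕ → ℕ → ℕ → ℕ → Bool := onCell 0 536870912 536870912 536870912 923417968 42949674
    (rowNE 3 eng mog cd4q1 cd0q1 pd0 2 false true true .npn 1 0 1 (qsf 536870912 536870912 536870912 536870912 0) ndB4q1 ndB0q1 pcB0 cut_pp_101_s Ext.none)

def k0_pp_101_s : ∃ t, chk3 f_pp_101_s t 2 2 1 = true :=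
  ⟨(l 3), by decide +kernel⟩

def k1_pp_101_s : ∃ t, chk3 f_pp_101_s t 4 6 1 = true :=
  ⟨(l 3), by decide +kernel⟩

def k2_pp_101_s : ∃ t, chk3 f_pp_101_s t 8 14 1 = true :=
  ⟨(l 3), by decide +kernel⟩

def k3_pp_101_s : ∃ t, chk3 f_pp_101_s t 8 30 1 = true :=
  ⟨(a (l 3) (b (l 3) (a (l 3) (b (l 3) (a (l 3) (b (l 3) (a (l 3) (b (l 3) (b (a (l 3) (a (l 3) (b (l 520395687287) (l 212768656631)))) (a (a (l 3) (b (l 3) (l 247128394999))) (a (b (l 232632880263) (l 16776080)) (l 16775296)))))))))))), by decide +kernel⟩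

def k4_pp_101_s : ∃ t, chk3 f_pp_101_s t 16 31 1 = true :=
  ⟨(b (b (l 3) (l 14)) (l 14)), by decide +kernel⟩

def k5_pp_101_s : ∃ t, chk3 f_pp_101_s t 34 62 1 = true :=
  ⟨(b (a (l 3) (b (l 3) (a (l 3) (b (l 3) (b (l 3) (a (l 3) (b (a (l 3) (a (l 467782337319) (l 227801040951))) (c (a (l 389936054823) (l 16776416)) (a (l 302962968919) (l 16776280)))))))))) (a (b (b (l 3) (l 14)) (l 14)) (a (a (b (b (l 3) (b (b (b (l 3) (l 14)) (l 14)) (l 14))) (l 14)) (b (b (b (l 3) (b (a (l 3) (c (l 426980148023) (l 430201373495))) (c (a (l 438791308167) (l 16778056)) (a (l 443623146359) (l 16776656))))) (b (a (b (c (l 130627405527) (l 151028500183)) (l 16775472)) (l 16777344)) (c (l 16773096) (l 16772464)))) (c (l 16766960) (l 16765376)))) (b (b (b (b (a (a (l 3) (a (l 523616912343) (l 275582551959))) (c (l 16778464) (l 16775624))) (a (c (a (l 415168987863) (l 16776584)) (a (l 416779600615) (l 16776472))) (l 16778024))) (a (a (c (l 86067120007) (l 16777824)) (l 16774552))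 (l 16776368))) (a (c (l 16771704) (l 16770856)) (l 16768472))) (c (l 16763040) (l 16760824)))))), by decide +kernel⟩

def k6_pp_101_s : ∃ t, chk3 f_pp_101_s t 35 62 1 = true :=
  ⟨(a (b (b (a (l 3) (b (l 3) (b (a (l 3) (c (l 491941529943) (l 502142077223))) (a (c (l 507510786599) (l 518785075687)) (a (b (l 481204110407) (a (l 232632879191) (l 16776624))) (c (l 16777592) (l 16776128))))))) (a (b (b (l 3) (a (l 3) (a (c (c (l 392083538759) (l 393157280599)) (l 391009796983)) (b (a (l 301889226791) (l 16776928)) (l 16775968))))) (b (a (a (c (c (l 410874020871) (l 411947762711)) (l 411410891815)) (b (a (l 335175223527) (l 194515044247)) (l 16777472))) (c (l 16774872) (l 16774512))) (a (c (l 16777672) (l 16774720)) (l 16772048)))) (b (a (c (b (a (l 371145572359) (l 121500600743)) (l 16774680)) (b (a (l 369534960343) (l 123111213527)) (l 16774296))) (c (l 16773256) (l 16772656))) (c (l 16769664) (l 16768504))))) (b (a (c (c (l 16778416) (l 16777712)) (b (l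 16774176) (l 16742272))) (c (l 16762296) (l 16759952))) (c (l 16755160) (l 16768360)))) (b (a (b (b (b (a (l 3) (c (a (l 3) (l 422685181143)) (l 468319209351))) (a (c (l 476372271975) (l 485499078743)) (c (a (c (l 215453010471) (l 216526752295)) (l 16775872)) (c (l 166060886967) (l 169818983191))))) (a (a (b (a (b (l 3) (l 16777112)) (b (l 308868548903) (l 16776408))) (l 16774784)) (c (l 16778616) (l 16777104))) (c (l 16772848) (l 16772184)))) (c (l 16777616) (a (l 16766728) (l 16753160)))) (b (a (b (b (a (c (l 190756948903) (l 192367561623)) (l 16778160)) (l 16778864)) (l 16774896)) (c (l 16775192) (l 16779328))) (c (l 16761456) (l 16738024)))) (c (b (l 16754312) (l 16744544)) (b (l 16750672) (l 16718272))))), by decide +kernel⟩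

def k7_pp_101_s : ∃ t, chk3 f_pp_101_s t 17 63 1 = true :=
  ⟨(b (a (a (l 14) (a (l 14) (b (l 16751464) (l 14)))) (c (a (l 16761576) (l 16730024)) (a (b (l 16719336) (l 16729088)) (l 16701240)))) (a (l 14) (a (a (l 14) (l 16714376)) (l 16705776)))), by decide +kernel⟩

def k8_pp_101_s : ∃ t, chk3 f_pp_101_s t 9 14 1 = true :=
  ⟨(a (l 3) (b (l 3) (b (l 3) (a (l 3) (b (l 3) (a (a (l 3) (b (l 3) (c (l 519858800567) (l 515026954039)))) (b (a (l 3) (c (l 474761648423) (l 486572803959))) (b (a (a (l 527911867351) (c (l 206326208375) (l 16776928))) (l 16780792)) (c (l 69424127879) (l 16781104)))))))))), by decide +kernel⟩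

def k9_pp_101_s : ∃ t, chk3 f_pp_101_s t 36 15 1 = true :=
  ⟨(b (b (l 3) (b (a (l 3) (b (l 3) (a (b (l 3) (a (l 3) (c (l 508584529767) (l 552071071895)))) (b (a (l 3) (c (l 460803017991) (l 557439777143))) (b (a (l 481204111559) (c (l 138680471095) (l 16776360))) (a (c (l 182703886103) (l 184851369687)) (l 16773872))))))) (a (b (a (l 3) (b (l 3) (a (b (l 3) (a (l 438254437799) (a (l 242296557159) (l 143512308887)))) (a (b (a (l 480667239927) (l 294373035879)) (l 16775712)) (c (l 109689442023) (l 114521280071)))))) (b (a (b (a (l 3) (c (a (l 485499078327) (l 232632880439)) (l 372756186167))) (a (a (l 510195140503) (b (l 382419865239) (l 179482659783))) (c (l 16775632) (l 16775384)))) (a (c (l 16779408) (l 16773712)) (l 16777608))) (a (a (b (c (l 103783861703) (l 104857603591)) (l 16773136)) (c (l 16771952) (l 16771168))) (c (l 16767904) (l 16766528))))) (b (a (b (b (a (l 519321946887) (c (l 207399948087) (l 205252464583))) (a (c (a (l 291151810487) (l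 16776640)) (c (l 225653559143) (l 227801042775))) (l 16774448))) (c (l 16778856) (l 16776856))) (b (c (l 16771768) (l 16771024)) (l 16774024))) (c (a (l 16764936) (l 16759480)) (a (l 16763152) (l 16735976))))))) (a (b (c (b (a (c (l 16777296) (l 16776112)) (l 16766064)) (l 16738656)) (b (b (a (l 16774688) (l 16737024)) (l 16749672)) (a (l 16714592) (l 16708344)))) (b (l 16714624) (l 16694200))) (b (c (b (l 16768392) (l 16706800)) (b (b (l 16727688) (l 16716208)) (l 16698952))) (b (l 16702936) (l 16682552))))), by decide +kernel⟩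

def k10_pp_101_s : ∃ t, chk3 f_pp_101_s t 37 15 1 = true :=
  ⟨(b (a (b (l 3) (b (b (a (b (l 3) (a (l 3) (c (l 430201375383) (l 537575551447)))) (b (a (l 3) (c (l 398525990935) (l 498920845351))) (a (b (a (l 516637589655) (l 227801042807)) (l 16779136)) (c (l 16774128) (l 16773728))))) (a (b (a (c (b (l 417853343367) (l 16776216)) (b (l 497310235255) (l 16776056))) (c (l 16774720) (l 16774376))) (c (l 16771208) (l 16770408))) (c (l 16768192) (l 16767008)))) (c (c (l 16777840) (l 16776464)) (c (l 16775008) (l 16775104))))) (b (b (l 3) (b (l 3) (a (b (l 3) (a (l 3) (c (l 382419861911) (l 442549400359)))) (a (b (l 597705091543) (c (l 116131893671) (l 16775344))) (b (b (l 537038680791) (l 135996117799)) (l 16772624)))))) (b (a (b (b (a (c (b (l 229948526999) (l 16775032)) (l 145122923543)) (l 16773288)) (l 16777456)) (l 16761808)) (c (l 16777840) (l 16775928))) (b (l 16748392) (l 16737784))))) (b (c (b (a (l 16736432) (l 16704392)) (l 16711264)) (b (a (l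 16709456) (l 16696976)) (l 16659200))) (b (l 16685344) (l 16665040)))), by decide +kernel⟩

def k11_pp_101_s : ∃ t, chk3 f_pp_101_s t 19 15 1 = true :=
  ⟨(b (b (a (b (a (l 3) (b (c (l 580525221223) (l 577303994631)) (a (b (l 583746438279) (a (c (l 421611435911) (l 266992622711)) (c (l 16775552) (l 16775336)))) (b (a (c (l 227801045431) (l 232096012567)) (l 16779944)) (l 16771216))))) (b (a (a (b (l 3) (a (l 545628612823) (c (l 202031241047) (l 204178724631)))) (b (a (l 499994586103) (c (l 145122923527) (l 16776088))) (c (l 16772912) (l 16772400)))) (a (c (l 16769864) (l 16769008)) (l 16763720))) (a (a (a (c (l 16777792) (l 16771968)) (l 16779880)) (l 16777200)) (c (l 16757560) (l 16734264))))) (b (a (b (a (a (c (l 446844365495) (l 470466681575)) (b (l 485499070519) (l 16773936))) (a (c (l 96267671591) (l 16773304)) (l 16770736))) (c (l 16765784) (l 16764512))) (c (l 16780696) (l 16778808))) (a (c (l 16751488) (l 16748536)) (l 16738656)))) (a (c (b (a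 (l 16774856) (l 16742888)) (l 16728576)) (b (a (l 16771952) (l 16717744)) (b (l 16707056) (l 16695656)))) (c (b (l 16726448) (l 16685536)) (b (l 16678528) (l 16676832))))) (b (a (b (a (l 16710008) (l 16677312)) (l 16682824)) (b (l 16638912) (l 16638608))) (a (b (l 16661904) (l 16620792)) (b (l 16638808) (l 16597896))))), by decide +kernel⟩

def k12_pp_101_s : ∃ t, chk3 f_pp_101_s t 5 6 1 = true :=
  ⟨(a (l 3) (b (l 3) (b (l 3) (a (b (l 3) (a (l 3) (b (l 3) (a (l 3) (b (l 3) (l 472077285527)))))) (b (a (l 3) (a (c (l 482814685447) (l 479056562295)) (b (l 485499029015) (c (l 285783031415) (l 284709291175))))) (a (b (a (l 3) (b (l 480130340343) (l 294372975655))) (a (c (l 291151729527) (l 291151729575)) (c (l 16766912) (l 16766424)))) (a (c (l 235854046119) (l 239075272791)) (a (l 16779392) (l 16754320))))))))), by decide +kernel⟩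

def k13_pp_101_s : ∃ t, chk3 f_pp_101_s t 5 28 1 = true :=
  ⟨(a (a (l 3) (b (l 3) (a (a (l 3) (b (l 3) (b (l 3) (c (l 414632105719) (l 428053876359))))) (b (a (b (l 3) (l 524153772903)) (b (a (l 3) (l 467782319975)) (c (l 296520451927) (l 296520451495)))) (a (b (a (l 464561097479) (l 291688634775)) (c (l 16769968) (l 16769408))) (c (l 16764536) (l 16763592))))))) (a (a (b (b (l 3) (a (c (l 468856044439) (l 468856039463)) (b (a (l 467245447479) (l 291151763015)) (l 260013261319)))) (b (a (c (l 275045626519) (l 273971885447)) (l 16781568)) (c (l 16751232) (l 16749384)))) (c (b (b (a (l 386714775079) (l 275582499079)) (l 16782872)) (l 16741232)) (b (b (a (l 395841599815) (l 16752192)) (l 16768856)) (l 16738904)))) (b (a (c (l 16772712) (b (l 16757304) (l 16743392))) (c (l 16735400) (l 16733504))) (c (l 16758760) (l 16755288))))), by decide +kernel⟩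

def k14_pp_101_s : ∃ t, chk3 f_pp_101_s t 5 29 1 = true :=
  ⟨(b (a (a (a (l 3) (b (a (l 3) (a (l 3) (c (l 499457683863) (l 497310191975)))) (a (c (b (l 544554839479) (a (l 467782325511) (b (l 185388244775) (l 16772576)))) (b (l 541870475015) (a (l 473151031447) (l 292762370263)))) (b (a (b (l 509658253943) (l 355576298391)) (l 279877486167)) (c (l 16767296) (l 16766392)))))) (a (a (c (b (b (l 473687896487) (a (l 170892732807) (l 16771160))) (l 16761752)) (b (b (l 495699599591) (l 294372971687)) (l 16760384))) (b (a (b (l 293836121751) (l 16766000)) (l 16775632)) (l 16751360))) (b (a (l 16776336) (l 16748640)) (l 16763464)))) (a (a (a (l 16763272) (l 16723008)) (l 16752176)) (a (l 16693928) (l 16678400)))) (a (b (a (b (a (a (l 3) (b (c (l 513416347271) (l 513416341943)) (a (l 488183420343) (l 299204844903)))) (a (c (l 16768816) (l 16768016)) (l 16758168))) (a (a (a (l 560660995607) (b (l 530596218167) (c (l 148344151031) (l 16775688)))) (a (c (l 98952027591)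 (l 16772472)) (l 16767368))) (c (l 16776248) (l 16753192)))) (a (c (l 16740592) (l 16737272)) (l 16720312))) (a (a (b (a (a (b (c (l 193978179847) (l 197199405031)) (l 16772112)) (l 16779448)) (l 16776552)) (a (a (l 16765024) (l 16759520)) (l 16751312))) (a (l 16745304) (l 16734952))) (a (l 16720264) (l 16701968)))) (a (a (l 16693776) (l 16677240)) (l 16654136)))), by decide +kernel⟩

def k15_pp_101_s : ∃ t, chk3 f_pp_101_s t 5 15 1 = true :=
  ⟨(a (b (a (a (b (b (c (l 16764752) (l 16769112)) (a (l 16727344) (l 16695192))) (b (l 16700776) (l 16658480))) (b (c (l 16713296) (l 16727696)) (c (l 16652648) (l 16641136)))) (a (b (a (l 16694944) (l 16685432)) (l 16647744)) (b (l 16671976) (l 16629816)))) (a (b (a (l 16647368) (l 16583616)) (b (l 16563664) (l 16587280))) (b (l 16596216) (b (l 16566320) (l 16551904))))) (b (a (b (a (l 16655384) (l 16639632)) (l 16605840)) (b (l 16617776) (l 16578696))) (a (b (l 16564632) (l 16533008)) (b (l 16539472) (l 16514920))))),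 by decide +kernel⟩

def k16_pp_101_s : ∃ t, chk3 f_pp_101_s t 3 1 1 = true :=
  ⟨(b (a (l 3) (l 1)) (b (a (b (a (b (l 3) (a (l 3) (b (l 3) (a (l 3) (b (l 3) (a (l 474761619143) (l 294372963815))))))) (b (l 1) (a (b (l 1) (a (c (l 350610156663) (l 358126353815)) (l 1))) (l 1)))) (a (b (a (b (l 3) (a (b (l 3) (a (l 3) (l 451139315319))) (b (a (l 464024202439) (l 285783026119)) (c (l 283635550087) (l 276656229991))))) (b (a (b (a (l 3) (l 447918085543)) (a (l 295446690183) (l 16750688))) (b (a (l 290078008215) (l 16765632)) (l 16757656))) (a (b (a (l 16768368) (l 16759200)) (l 16751344)) (b (l 16744904) (l 16732120))))) (b (a (a (b (a (b (l 305647241127) (l 283098695607)) (l 275582506535)) (a (l 16766664) (l 16758176))) (b (l 16778200) (l 16744968))) (a (l 16732600) (l 16712872))) (a (a (a (l 16748240) (l 16739976)) (l 16726528)) (l 16755136)))) (a (a (b (b (l 16765392) (l 16718376)) (l 16679024)) (b (l 310881619127) (l 16657240))) (b (l 315713367239) (l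 16644232))))) (a (b (l 1) (a (b (l 1) (l 16576304)) (l 1))) (l 1))) (a (b (a (b (a (b (a (l 16718688) (l 16701688)) (l 16726256)) (a (l 16669400) (l 16648296))) (a (b (l 16656424) (l 16625936)) (l 16690848))) (b (a (l 16677856) (l 16568120)) (a (l 16560896) (l 16512576)))) (a (a (b (b (l 16591392) (l 16554464)) (b (l 16519736) (l 16506072))) (b (l 16550504) (b (l 16503664) (l 16454664)))) (a (b (l 16506864) (l 16549384)) (b (l 16452960) (l 16356984))))) (b (a (b (a (l 16520200) (l 16472592)) (l 16564560)) (b (l 1) (l 16450152))) (a (b (c (l 16507384) (l 16546992)) (a (l 16288152) (l 6))) (b (a (l 16288888) (l 6)) (l 6))))))), by decide +kernel⟩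

theorem s17_pp_101_s : ∃ t, chk3 f_pp_101_s t 5 14 1 = true := ex3_b k13_pp_101_s k14_pp_101_s

theorem s18_pp_101_s : ∃ t, chk3 f_pp_101_s t 5 7 1 = true := ex3_b s17_pp_101_s k15_pp_101_s

theorem s19_pp_101_s : ∃ t, chk3 f_pp_101_s t 5 3 1 = true := ex3_b k12_pp_101_s s18_pp_101_s

theorem s20_pp_101_s : ∃ t, chk3 f_pp_101_s t 18 15 1 = true := ex3_a k9_pp_101_s k10_pp_101_s

theorem s21_pp_101_s : ∃ t, chk3 f_pp_101_s t 9 15 1 = true := ex3_a s20_pp_101_s k11_pp_101_s

theorem s22_pp_101_s : ∃ t, chk3 f_pp_101_s t 9 7 1 = true := ex3_b k8_pp_101_s s21_pp_101_s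

theorem s23_pp_101_s : ∃ t, chk3 f_pp_101_s t 17 62 1 = true := ex3_a k5_pp_101_s k6_pp_101_s

theorem s24_pp_101_s : ∃ t, chk3 f_pp_101_s t 17 31 1 = true := ex3_b s23_pp_101_s k7_pp_101_s

theorem s25_pp_101_s : ∃ t, chk3 f_pp_101_s t 8 31 1 = true := ex3_a k4_pp_101_s s24_pp_101_s

theorem s26_pp_101_s : ∃ t, chk3 f_pp_101_s t 8 15 1 = true := ex3_b k3_pp_101_s s25_pp_101_s

theorem s27_pp_101_s : ∃ t, chk3 f_pp_101_s t 8 7 1 = true := ex3_b k2_pp_101_s s26_pp_101_s

theorem s28_pp_101_s : ∃ t, chk3 f_pp_101_s t 4 7 1 = true := ex3_a s27_pp_101_s s22_pp_101_s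

theorem s29_pp_101_s : ∃ t, chk3 f_pp_101_s t 4 3 1 = true := ex3_b k1_pp_101_s s28_pp_101_s

theorem s30_pp_101_s : ∃ t, chk3 f_pp_101_s t 2 3 1 = true := ex3_a s29_pp_101_s s19_pp_101_s

theorem s31_pp_101_s : ∃ t, chk3 f_pp_101_s t 2 1 1 = true := ex3_b k0_pp_101_s s30_pp_101_s

theorem s32_pp_101_s : ∃ t, chk3 f_pp_101_s t 1 1 1 = true := ex3_a s31_pp_101_s k16_pp_101_s

theorem c_pp_101_s : CertNE 536870912 536870912 536870912 536870912 923417968 42949674 3 eng mog cd4q1 cd0q1 pd0 false true true .npn 1 0 1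
    ndB4q1 ndB0q1 pcB0 cut_pp_101_s Ext.none :=
  certNE2 (fam := false) (s1 := true) (s2 := true) (a := 1) (b := 0) (c := 1) (cn := .npn) (n1 := ndB4q1) (n2 := ndB0q1) (pc := pcB0) (cut := cut_pp_101_s) (xt := Ext.none) (P1 := 536870912) (W1 := 536870912) (P2 := 536870912) (W2 := 536870912) (P3 := 923417968) (W3 := 42949674) (N0 := 3) (En := eng) (mo := mog) (C1 := cd4q1) (C2 := cd0q1) (C3 := pd0)
    rfl (fun _ => rfl) s32_pp_101_s

noncomputable def cut_pp_102_s : Cut := Cut.of [[⟨4, 0, 0, 1449551462⟩], [⟨0, 1, 0, 67108864⟩, ⟨1, 0, 0, 67108864⟩, ⟨2, 1, 0, 67108864⟩]]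

noncomputable def f_pp_102_s : ℕ → ℕ → ℕ → ℕ → Bool := onCell 0 536870912 0 536870912 923417968 42949674
    (rowNE 3 eng mog cd4q1 cd0q2 pd0 2 false true true .npp 1 0 2 (qsf 536870912 536870912 0 536870912 0) ndB4q1 ndB0q2 pcB0 cut_pp_102_s Ext.none)

def k0_pp_102_s : ∃ t, chk3 f_pp_102_s t 1 1 1 = true :=
  ⟨(a (b (a (l 6) (l 6)) (a (a (b (l 2) (b (a (l 2) (b (a (l 2) (b (l 2) (l 16166456))) (a (l 14) (a (l 14) (l 16263608))))) (a (l 14) (a (l 14) (a (l 14) (b (b (l 16387984) (l 16489520)) (b (l 16591984) (b (l 16668656) (l 16705976))))))))) (b (b (l 6) (b (a (a (l 2) (a (l 15817800) (l 15702464))) (l 6)) (a (a (b (l 15824136) (l 15907928)) (a (a (l 15853752) (l 15857000)) (l 15864176))) (a (a (l 15872392) (l 15880792)) (l 15958120))))) (a (b (a (b (b (l 15994656) (l 16084896)) (a (l 16232208) (l 16224776))) (b (a (l 16010312) (l 16037112)) (a (l 16241976) (l 16223984)))) (a (b (b (l 16378160) (l 16480688)) (b (l 16521056) (b (l 16661128) (l 16689248))))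 (b (a (b (l 16371112) (l 16473640)) (b (l 16371680) (l 16472480))) (b (a (l 16576752) (l 16573752)) (b (l 16651544) (l 16667184)))))) (b (a (b (a (l 16042832) (l 16048664)) (a (l 16226840) (l 16229704))) (b (l 16037728) (l 16234760))) (b (a (b (l 16373200) (l 16471048)) (l 16294928)) (b (a (l 16569208) (l 16561888)) (a (l 16641896) (l 16642536)))))))) (b (a (a (b (l 6) (a (c (l 15840848) (l 15814000)) (l 6))) (l 6)) (l 6)) (a (b (b (a (a (l 16070056) (l 16081336)) (l 16080448)) (a (a (l 16239832) (l 16244496)) (l 16174920))) (a (b (a (l 16418584) (l 16415664)) (b (l 16549696) (l 16614432))) (b (l 16296824) (l 16480720)))) (b (b (l 6) (a (l 16209312) (l 16175520))) (b (a (l 16368048) (l 16326624)) (a (l 16523856) (l 16474016)))))))) (b (l 6) (b (l 6) (a (b (l 6) (a (b (a (l 16278440) (l 6)) (a (l 16417440) (l 16357496))) (b (l 6) (l 16262928)))) (l 6))))), by decide +kernel⟩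

theorem c_pp_102_s : CertNE 536870912 536870912 0 536870912 923417968 42949674 3 eng mog cd4q1 cd0q2 pd0 false true true .npp 1 0 2
    ndB4q1 ndB0q2 pcB0 cut_pp_102_s Ext.none :=
  certNE2 (fam := false) (s1 := true) (s2 := true) (a := 1) (b := 0) (c := 2) (cn := .npp) (n1 := ndB4q1) (n2 := ndB0q2) (pc := pcB0) (cut := cut_pp_102_s) (xt := Ext.none) (P1 := 536870912) (W1 := 536870912) (P2 := 0) (W2 := 536870912) (P3 := 923417968) (W3 := 42949674) (N0 := 3) (En := eng) (mo := mog) (C1 := cd4q1) (C2 := cd0q2) (C3 := pd0)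
    rfl (fun _ => rfl) k0_pp_102_s

noncomputable def cut_pp_112_s : Cut := Cut.of [[⟨4, 0, 0, 1449551462⟩]]

noncomputable def f_pp_112_s : ℕ → ℕ → ℕ → ℕ → Bool := onCell 536870912 536870912 0 536870912 923417968 42949674
    (rowNE 3 eng mog cd4q1 cd0q2 pd1 2 false true true .dn 1 1 2 (qsf 536870912 536870912 0 536870912 1) ndB4q1 ndB0q2 pcB1 cut_pp_112_s Ext.none)

def k0_pp_112_s : ∃ t, chk3 f_pp_112_s t 1 1 1 = true :=
  ⟨(b (l 6) (l 6)), by decide +kernel⟩

theorem c_pp_112_s : CertNE 536870912 536870912 0 536870912 923417968 42949674 3 eng mog cd4q1 cd0q2 pd1 false true true .dn 1 1 2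
    ndB4q1 ndB0q2 pcB1 cut_pp_112_s Ext.none :=
  certNE2 (fam := false) (s1 := true) (s2 := true) (a := 1) (b := 1) (c := 2) (cn := .dn) (n1 := ndB4q1) (n2 := ndB0q2) (pc := pcB1) (cut := cut_pp_112_s) (xt := Ext.none) (P1 := 536870912) (W1 := 536870912) (P2 := 0) (W2 := 536870912) (P3 := 923417968) (W3 := 42949674) (N0 := 3) (En := eng) (mo := mog) (C1 := cd4q1) (C2 := cd0q2) (C3 := pd1)
    rfl (fun _ => rfl) k0_pp_112_s

noncomputable def cut_pp_202_s : Cut := Cut.of [[⟨4, 0, 0, 1449551462⟩], [⟨0, 1, 0, 67108864⟩, ⟨1, 0, 0, 67108864⟩, ⟨2, 1, 0, 67108864⟩]]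

noncomputable def f_pp_202_s : ℕ → ℕ → ℕ → ℕ → Bool := onCell 0 536870912 0 536870912 923417968 42949674
    (rowNE 3 eng mog cd4q2 cd0q2 pd0 2 false true true .pp 2 0 2 (qsf 1073741824 536870912 0 536870912 0) ndB4q2 ndB0q2 pcB0 cut_pp_202_s Ext.none)

def k0_pp_202_s : ∃ t, chk3 f_pp_202_s t 1 1 1 = true :=
  ⟨(a (b (a (l 6) (l 6)) (a (b (b (a (a (a (l 16273792) (l 16161848)) (a (l 16041040) (l 15911784))) (l 6)) (b (a (a (a (l 16364168) (l 16169176)) (a (b (l 16113016) (l 16137048)) (b (l 15978480) (l 16005848)))) (a (a (a (l 15887032) (l 15819456)) (a (l 15861640) (l 15708752))) (l 6))) (a (a (a (a (l 16373104) (l 16395808)) (b (l 16290760) (l 16318920))) (a (l 16179000) (l 16028384))) (a (a (l 16021928) (a (l 337186997607) (l 1))) (l 1))))) (a (a (b (b (a (b (l 16466616) (l 16493536)) (b (l 16345928) (l 16375488))) (l 14)) (l 14)) (a (b (b (b (l 16222896) (l 16255232)) (l 14)) (l 14)) (b (b (c (l 16113376) (l 16094384)) (b (l 16150992) (l 16193984)))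 (l 1)))) (a (a (b (b (b (l 15969560) (l 16008016)) (l 1)) (l 1)) (l 1)) (l 1)))) (b (l 1) (l 1)))) (l 1)), by decide +kernel⟩

theorem c_pp_202_s : CertNE 1073741824 536870912 0 536870912 923417968 42949674 3 eng mog cd4q2 cd0q2 pd0 false true true .pp 2 0 2
    ndB4q2 ndB0q2 pcB0 cut_pp_202_s Ext.none :=
  certNE2 (fam := false) (s1 := true) (s2 := true) (a := 2) (b := 0) (c := 2) (cn := .pp) (n1 := ndB4q2) (n2 := ndB0q2) (pc := pcB0) (cut := cut_pp_202_s) (xt := Ext.none) (P1 := 1073741824) (W1 := 536870912) (P2 := 0) (W2 := 536870912) (P3 := 923417968) (W3 := 42949674) (N0 := 3) (En := eng) (mo := mog) (C1 := cd4q2) (C2 := cd0q2) (C3 := pd0)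
    rfl (fun _ => rfl) k0_pp_202_s

noncomputable def cut_pm_001_s : Cut := Cut.of [[⟨4, 0, 0, 1449551462⟩]]

noncomputable def f_pm_001_s : ℕ → ℕ → ℕ → ℕ → Bool := onCell 0 536870912 536870912 536870912 923417968 42949674
    (rowNE 3 eng mog cd4q0 cd0q1 pd0 0 false true false .up 0 0 1 (qsf 0 536870912 536870912 536870912 0) ndB4q0 ndB0q1 pcB0 cut_pm_001_s Ext.none)

def k0_pm_001_s : ∃ t, chk3 f_pm_001_s t 1 1 1 = true :=
  ⟨(l 4), by decide +kernel⟩

theorem c_pm_001_s : CertNE 0 536870912 536870912 536870912 923417968 42949674 3 eng mog cd4q0 cd0q1 pd0 false true false .up 0 0 1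
    ndB4q0 ndB0q1 pcB0 cut_pm_001_s Ext.none :=
  certNE0 (fam := false) (s1 := true) (s2 := false) (a := 0) (b := 0) (c := 1) (cn := .up) (n1 := ndB4q0) (n2 := ndB0q1) (pc := pcB0) (cut := cut_pm_001_s) (xt := Ext.none) (P1 := 0) (W1 := 536870912) (P2 := 536870912) (W2 := 536870912) (P3 := 923417968) (W3 := 42949674) (N0 := 3) (En := eng) (mo := mog) (C1 := cd4q0) (C2 := cd0q1) (C3 := pd0)
    rfl k0_pm_001_s

noncomputable def cut_pm_011_s : Cut := Cut.of [[⟨4, 0, 0, 1449551462⟩]]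

noncomputable def f_pm_011_s : ℕ → ℕ → ℕ → ℕ → Bool := onCell 0 536870912 536870912 536870912 923417968 42949674
    (rowNE 3 eng mog cd4q0 cd0q1 pd1 0 false true false .pnn 0 1 1 (qsf 0 536870912 536870912 536870912 1) ndB4q0 ndB0q1 pcB1 cut_pm_011_s Ext.none)

def k0_pm_011_s : ∃ t, chk3 f_pm_011_s t 1 1 1 = true :=
  ⟨(l 4), by decide +kernel⟩

theorem c_pm_011_s : CertNE 0 536870912 536870912 536870912 923417968 42949674 3 eng mog cd4q0 cd0q1 pd1 false true false .pnn 0 1 1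
    ndB4q0 ndB0q1 pcB1 cut_pm_011_s Ext.none :=
  certNE0 (fam := false) (s1 := true) (s2 := false) (a := 0) (b := 1) (c := 1) (cn := .pnn) (n1 := ndB4q0) (n2 := ndB0q1) (pc := pcB1) (cut := cut_pm_011_s) (xt := Ext.none) (P1 := 0) (W1 := 536870912) (P2 := 536870912) (W2 := 536870912) (P3 := 923417968) (W3 := 42949674) (N0 := 3) (En := eng) (mo := mog) (C1 := cd4q0) (C2 := cd0q1) (C3 := pd1)
    rfl k0_pm_011_s

noncomputable def cut_pm_012_s : Cut := Cut.of [[⟨4, 0, 0, 1449551462⟩]]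

noncomputable def f_pm_012_s : ℕ → ℕ → ℕ → ℕ → Bool := onCell 0 536870912 0 536870912 923417968 42949674
    (rowNE 3 eng mog cd4q0 cd0q2 pd1 0 false true false .pnp 0 1 2 (qsf 0 536870912 0 536870912 1) ndB4q0 ndB0q2 pcB1 cut_pm_012_s Ext.none)

def k0_pm_012_s : ∃ t, chk3 f_pm_012_s t 1 1 1 = true :=
  ⟨(l 6), by decide +kernel⟩

theorem c_pm_012_s : CertNE 0 536870912 0 536870912 923417968 42949674 3 eng mog cd4q0 cd0q2 pd1 false true false .pnp 0 1 2
    ndB4q0 ndB0q2 pcB1 cut_pm_012_s Ext.none :=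
  certNE0 (fam := false) (s1 := true) (s2 := false) (a := 0) (b := 1) (c := 2) (cn := .pnp) (n1 := ndB4q0) (n2 := ndB0q2) (pc := pcB1) (cut := cut_pm_012_s) (xt := Ext.none) (P1 := 0) (W1 := 536870912) (P2 := 0) (W2 := 536870912) (P3 := 923417968) (W3 := 42949674) (N0 := 3) (En := eng) (mo := mog) (C1 := cd4q0) (C2 := cd0q2) (C3 := pd1)
    rfl k0_pm_012_s

noncomputable def cut_pm_022_s : Cut := Cut.of [[⟨4, 0, 0, 1449551462⟩]]

noncomputable def f_pm_022_s : ℕ → ℕ → ℕ → ℕ → Bool := onCell 0 536870912 0 536870912 923417968 42949674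
    (rowNE 3 eng mog cd4q0 cd0q2 pd2 0 false true false .pp 0 2 2 (qsf 0 536870912 0 536870912 2) ndB4q0 ndB0q2 pcB2 cut_pm_022_s Ext.none)

def k0_pm_022_s : ∃ t, chk3 f_pm_022_s t 1 1 1 = true :=
  ⟨(l 6), by decide +kernel⟩

theorem c_pm_022_s : CertNE 0 536870912 0 536870912 923417968 42949674 3 eng mog cd4q0 cd0q2 pd2 false true false .pp 0 2 2
    ndB4q0 ndB0q2 pcB2 cut_pm_022_s Ext.none :=
  certNE0 (fam := false) (s1 := true) (s2 := false) (a := 0) (b := 2) (c := 2) (cn := .pp) (n1 := ndB4q0) (n2 := ndB0q2) (pc := pcB2) (cut := cut_pm_022_s) (xt := Ext.none) (P1 := 0) (W1 := 536870912) (P2 := 0) (W2 := 536870912) (P3 := 923417968) (W3 := 42949674) (N0 := 3) (En := eng) (mo := mog) (C1 := cd4q0) (C2 := cd0q2) (C3 := pd2)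
    rfl k0_pm_022_s

noncomputable def cut_pm_101_s : Cut := Cut.of [[⟨4, 0, 0, 1449551462⟩]]

noncomputable def f_pm_101_s : ℕ → ℕ → ℕ → ℕ → Bool := onCell 536870912 536870912 536870912 536870912 923417968 42949674
    (rowNE 3 eng mog cd4q1 cd0q1 pd0 0 false true false .npn 1 0 1 (qsf 536870912 536870912 536870912 536870912 0) ndB4q1 ndB0q1 pcB0 cut_pm_101_s Ext.none)

def k0_pm_101_s : ∃ t, chk3 f_pm_101_s t 1 1 1 = true :=
  ⟨(l 4), by decide +kernel⟩

theorem c_pm_101_s : CertNE 536870912 536870912 536870912 536870912 923417968 42949674 3 eng mog cd4q1 cd0q1 pd0 false true false .npn 1 0 1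
    ndB4q1 ndB0q1 pcB0 cut_pm_101_s Ext.none :=
  certNE0 (fam := false) (s1 := true) (s2 := false) (a := 1) (b := 0) (c := 1) (cn := .npn) (n1 := ndB4q1) (n2 := ndB0q1) (pc := pcB0) (cut := cut_pm_101_s) (xt := Ext.none) (P1 := 536870912) (W1 := 536870912) (P2 := 536870912) (W2 := 536870912) (P3 := 923417968) (W3 := 42949674) (N0 := 3) (En := eng) (mo := mog) (C1 := cd4q1) (C2 := cd0q1) (C3 := pd0)
    rfl k0_pm_101_s

noncomputable def cut_pm_102_s : Cut := Cut.of [[⟨4, 0, 0, 1449551462⟩]]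

noncomputable def f_pm_102_s : ℕ → ℕ → ℕ → ℕ → Bool := onCell 536870912 536870912 0 536870912 923417968 42949674
    (rowNE 3 eng mog cd4q1 cd0q2 pd0 0 false true false .npp 1 0 2 (qsf 536870912 536870912 0 536870912 0) ndB4q1 ndB0q2 pcB0 cut_pm_102_s Ext.none)

def k0_pm_102_s : ∃ t, chk3 f_pm_102_s t 1 1 1 = true :=
  ⟨(l 6), by decide +kernel⟩

theorem c_pm_102_s : CertNE 536870912 536870912 0 536870912 923417968 42949674 3 eng mog cd4q1 cd0q2 pd0 false true false .npp 1 0 2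
    ndB4q1 ndB0q2 pcB0 cut_pm_102_s Ext.none :=
  certNE0 (fam := false) (s1 := true) (s2 := false) (a := 1) (b := 0) (c := 2) (cn := .npp) (n1 := ndB4q1) (n2 := ndB0q2) (pc := pcB0) (cut := cut_pm_102_s) (xt := Ext.none) (P1 := 536870912) (W1 := 536870912) (P2 := 0) (W2 := 536870912) (P3 := 923417968) (W3 := 42949674) (N0 := 3) (En := eng) (mo := mog) (C1 := cd4q1) (C2 := cd0q2) (C3 := pd0)
    rfl k0_pm_102_s

noncomputable def cut_pm_112_s : Cut := Cut.of [[⟨4, 0, 0, 1449551462⟩]]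

noncomputable def f_pm_112_s : ℕ → ℕ → ℕ → ℕ → Bool := onCell 536870912 536870912 0 536870912 923417968 42949674
    (rowNE 3 eng mog cd4q1 cd0q2 pd1 0 false true false .dn 1 1 2 (qsf 536870912 536870912 0 536870912 1) ndB4q1 ndB0q2 pcB1 cut_pm_112_s Ext.none)

def k0_pm_112_s : ∃ t, chk3 f_pm_112_s t 1 1 1 = true :=
  ⟨(l 6), by decide +kernel⟩

theorem c_pm_112_s : CertNE 536870912 536870912 0 536870912 923417968 42949674 3 eng mog cd4q1 cd0q2 pd1 false true false .dn 1 1 2
    ndB4q1 ndB0q2 pcB1 cut_pm_112_s Ext.none :=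
  certNE0 (fam := false) (s1 := true) (s2 := false) (a := 1) (b := 1) (c := 2) (cn := .dn) (n1 := ndB4q1) (n2 := ndB0q2) (pc := pcB1) (cut := cut_pm_112_s) (xt := Ext.none) (P1 := 536870912) (W1 := 536870912) (P2 := 0) (W2 := 536870912) (P3 := 923417968) (W3 := 42949674) (N0 := 3) (En := eng) (mo := mog) (C1 := cd4q1) (C2 := cd0q2) (C3 := pd1)
    rfl k0_pm_112_s

noncomputable def cut_pm_202_s : Cut := Cut.of [[⟨4, 0, 0, 1449551462⟩]]

noncomputable def f_pm_202_s : ℕ → ℕ → ℕ → ℕ → Bool := onCell 0 536870912 0 536870912 923417968 42949674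
    (rowNE 3 eng mog cd4q2 cd0q2 pd0 2 false true false .pp 2 0 2 (qsf 1073741824 536870912 0 536870912 0) ndB4q2 ndB0q2 pcB0 cut_pm_202_s Ext.none)

def k0_pm_202_s : ∃ t, chk3 f_pm_202_s t 1 1 1 = true :=
  ⟨(l 6), by decide +kernel⟩

theorem c_pm_202_s : CertNE 1073741824 536870912 0 536870912 923417968 42949674 3 eng mog cd4q2 cd0q2 pd0 false true false .pp 2 0 2
    ndB4q2 ndB0q2 pcB0 cut_pm_202_s Ext.none :=
  certNE2 (fam := false) (s1 := true) (s2 := false) (a := 2) (b := 0) (c := 2) (cn := .pp) (n1 := ndB4q2) (n2 := ndB0q2) (pc := pcB0) (cut := cut_pm_202_s) (xt := Ext.none) (P1 := 1073741824) (W1 := 536870912) (P2 := 0) (W2 := 536870912) (P3 := 923417968) (W3 := 42949674) (N0 := 3) (En := eng) (mo := mog) (C1 := cd4q2) (C2 := cd0q2) (C3 := pd0)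
    rfl (fun _ => rfl) k0_pm_202_s

noncomputable def cut_mm_001_s : Cut := Cut.of [[⟨4, 0, 0, 1449551462⟩]]

noncomputable def f_mm_001_s : ℕ → ℕ → ℕ → ℕ → Bool := onCell 0 536870912 536870912 536870912 923417968 42949674
    (rowNE 3 eng mog cd4q0 cd0q1 pd0 0 false false false .up 0 0 1 (qsf 0 536870912 536870912 536870912 0) ndB4q0 ndB0q1 pcB0 cut_mm_001_s Ext.none)

def k0_mm_001_s : ∃ t, chk3 f_mm_001_s t 1 1 1 = true :=
  ⟨(l 5), by decide +kernel⟩

theorem c_mm_001_s : CertNE 0 536870912 536870912 536870912 923417968 42949674 3 eng mog cd4q0 cd0q1 pd0 false false false .up 0 0 1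
    ndB4q0 ndB0q1 pcB0 cut_mm_001_s Ext.none :=
  certNE0 (fam := false) (s1 := false) (s2 := false) (a := 0) (b := 0) (c := 1) (cn := .up) (n1 := ndB4q0) (n2 := ndB0q1) (pc := pcB0) (cut := cut_mm_001_s) (xt := Ext.none) (P1 := 0) (W1 := 536870912) (P2 := 536870912) (W2 := 536870912) (P3 := 923417968) (W3 := 42949674) (N0 := 3) (En := eng) (mo := mog) (C1 := cd4q0) (C2 := cd0q1) (C3 := pd0)
    rfl k0_mm_001_s

noncomputable def cut_mm_011_s : Cut := Cut.of [[⟨4, 0, 0, 1449551462⟩]]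

noncomputable def f_mm_011_s : ℕ → ℕ → ℕ → ℕ → Bool := onCell 0 536870912 536870912 536870912 923417968 42949674
    (rowNE 3 eng mog cd4q0 cd0q1 pd1 0 false false false .pnn 0 1 1 (qsf 0 536870912 536870912 536870912 1) ndB4q0 ndB0q1 pcB1 cut_mm_011_s Ext.none)

def k0_mm_011_s : ∃ t, chk3 f_mm_011_s t 1 1 1 = true :=
  ⟨(l 5), by decide +kernel⟩

theorem c_mm_011_s : CertNE 0 536870912 536870912 536870912 923417968 42949674 3 eng mog cd4q0 cd0q1 pd1 false false false .pnn 0 1 1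
    ndB4q0 ndB0q1 pcB1 cut_mm_011_s Ext.none :=
  certNE0 (fam := false) (s1 := false) (s2 := false) (a := 0) (b := 1) (c := 1) (cn := .pnn) (n1 := ndB4q0) (n2 := ndB0q1) (pc := pcB1) (cut := cut_mm_011_s) (xt := Ext.none) (P1 := 0) (W1 := 536870912) (P2 := 536870912) (W2 := 536870912) (P3 := 923417968) (W3 := 42949674) (N0 := 3) (En := eng) (mo := mog) (C1 := cd4q0) (C2 := cd0q1) (C3 := pd1)
    rfl k0_mm_011_s

noncomputable def cut_mm_012_s : Cut := Cut.of [[⟨4, 0, 0, 1449551462⟩]]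

noncomputable def f_mm_012_s : ℕ → ℕ → ℕ → ℕ → Bool := onCell 0 536870912 0 536870912 923417968 42949674
    (rowNE 3 eng mog cd4q0 cd0q2 pd1 0 false false false .pnp 0 1 2 (qsf 0 536870912 0 536870912 1) ndB4q0 ndB0q2 pcB1 cut_mm_012_s Ext.none)

def k0_mm_012_s : ∃ t, chk3 f_mm_012_s t 1 1 1 = true :=
  ⟨(l 5), by decide +kernel⟩

theorem c_mm_012_s : CertNE 0 536870912 0 536870912 923417968 42949674 3 eng mog cd4q0 cd0q2 pd1 false false false .pnp 0 1 2
    ndB4q0 ndB0q2 pcB1 cut_mm_012_s Ext.none :=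
  certNE0 (fam := false) (s1 := false) (s2 := false) (a := 0) (b := 1) (c := 2) (cn := .pnp) (n1 := ndB4q0) (n2 := ndB0q2) (pc := pcB1) (cut := cut_mm_012_s) (xt := Ext.none) (P1 := 0) (W1 := 536870912) (P2 := 0) (W2 := 536870912) (P3 := 923417968) (W3 := 42949674) (N0 := 3) (En := eng) (mo := mog) (C1 := cd4q0) (C2 := cd0q2) (C3 := pd1)
    rfl k0_mm_012_s

noncomputable def cut_mm_022_s : Cut := Cut.of [[⟨4, 0, 0, 1449551462⟩]]

noncomputable def f_mm_022_s : ℕ → ℕ → ℕ → ℕ → Bool := onCell 0 536870912 0 536870912 923417968 42949674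
    (rowNE 3 eng mog cd4q0 cd0q2 pd2 0 false false false .pp 0 2 2 (qsf 0 536870912 0 536870912 2) ndB4q0 ndB0q2 pcB2 cut_mm_022_s Ext.none)

def k0_mm_022_s : ∃ t, chk3 f_mm_022_s t 1 1 1 = true :=
  ⟨(l 5), by decide +kernel⟩

theorem c_mm_022_s : CertNE 0 536870912 0 536870912 923417968 42949674 3 eng mog cd4q0 cd0q2 pd2 false false false .pp 0 2 2
    ndB4q0 ndB0q2 pcB2 cut_mm_022_s Ext.none :=
  certNE0 (fam := false) (s1 := false) (s2 := false) (a := 0) (b := 2) (c := 2) (cn := .pp) (n1 := ndB4q0) (n2 := ndB0q2) (pc := pcB2) (cut := cut_mm_022_s) (xt := Ext.none) (P1 := 0) (W1 := 536870912) (P2 := 0) (W2 := 536870912) (P3 := 923417968) (W3 := 42949674) (N0 := 3) (En := eng) (mo := mog) (C1 := cd4q0) (C2 := cd0q2) (C3 := pd2)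
    rfl k0_mm_022_s

noncomputable def cut_mm_101_s : Cut := Cut.of [[⟨4, 0, 0, 1449551462⟩]]

noncomputable def f_mm_101_s : ℕ → ℕ → ℕ → ℕ → Bool := onCell 0 536870912 536870912 536870912 923417968 42949674
    (rowNE 3 eng mog cd4q1 cd0q1 pd0 2 false false false .npn 1 0 1 (qsf 536870912 536870912 536870912 536870912 0) ndB4q1 ndB0q1 pcB0 cut_mm_101_s Ext.none)

def k0_mm_101_s : ∃ t, chk3 f_mm_101_s t 1 1 1 = true :=
  ⟨(l 5), by decide +kernel⟩

theorem c_mm_101_s : CertNE 536870912 536870912 536870912 536870912 923417968 42949674 3 eng mog cd4q1 cd0q1 pd0 false false false .npn 1 0 1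
    ndB4q1 ndB0q1 pcB0 cut_mm_101_s Ext.none :=
  certNE2 (fam := false) (s1 := false) (s2 := false) (a := 1) (b := 0) (c := 1) (cn := .npn) (n1 := ndB4q1) (n2 := ndB0q1) (pc := pcB0) (cut := cut_mm_101_s) (xt := Ext.none) (P1 := 536870912) (W1 := 536870912) (P2 := 536870912) (W2 := 536870912) (P3 := 923417968) (W3 := 42949674) (N0 := 3) (En := eng) (mo := mog) (C1 := cd4q1) (C2 := cd0q1) (C3 := pd0)
    rfl (fun _ => rfl) k0_mm_101_s

noncomputable def cut_mm_102_s : Cut := Cut.of [[⟨4, 0, 0, 1449551462⟩]]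

noncomputable def f_mm_102_s : ℕ → ℕ → ℕ → ℕ → Bool := onCell 536870912 536870912 0 536870912 923417968 42949674
    (rowNE 3 eng mog cd4q1 cd0q2 pd0 0 false false false .npp 1 0 2 (qsf 536870912 536870912 0 536870912 0) ndB4q1 ndB0q2 pcB0 cut_mm_102_s Ext.none)

def k0_mm_102_s : ∃ t, chk3 f_mm_102_s t 1 1 1 = true :=
  ⟨(l 5), by decide +kernel⟩

theorem c_mm_102_s : CertNE 536870912 536870912 0 536870912 923417968 42949674 3 eng mog cd4q1 cd0q2 pd0 false false false .npp 1 0 2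
    ndB4q1 ndB0q2 pcB0 cut_mm_102_s Ext.none :=
  certNE0 (fam := false) (s1 := false) (s2 := false) (a := 1) (b := 0) (c := 2) (cn := .npp) (n1 := ndB4q1) (n2 := ndB0q2) (pc := pcB0) (cut := cut_mm_102_s) (xt := Ext.none) (P1 := 536870912) (W1 := 536870912) (P2 := 0) (W2 := 536870912) (P3 := 923417968) (W3 := 42949674) (N0 := 3) (En := eng) (mo := mog) (C1 := cd4q1) (C2 := cd0q2) (C3 := pd0)
    rfl k0_mm_102_s

noncomputable def cut_mm_112_s : Cut := Cut.of [[⟨4, 0, 0, 1449551462⟩]]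

noncomputable def f_mm_112_s : ℕ → ℕ → ℕ → ℕ → Bool := onCell 536870912 536870912 0 536870912 923417968 42949674
    (rowNE 3 eng mog cd4q1 cd0q2 pd1 0 false false false .dn 1 1 2 (qsf 536870912 536870912 0 536870912 1) ndB4q1 ndB0q2 pcB1 cut_mm_112_s Ext.none)

def k0_mm_112_s : ∃ t, chk3 f_mm_112_s t 1 1 1 = true :=
  ⟨(l 5), by decide +kernel⟩

theorem c_mm_112_s : CertNE 536870912 536870912 0 536870912 923417968 42949674 3 eng mog cd4q1 cd0q2 pd1 false false false .dn 1 1 2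
    ndB4q1 ndB0q2 pcB1 cut_mm_112_s Ext.none :=
  certNE0 (fam := false) (s1 := false) (s2 := false) (a := 1) (b := 1) (c := 2) (cn := .dn) (n1 := ndB4q1) (n2 := ndB0q2) (pc := pcB1) (cut := cut_mm_112_s) (xt := Ext.none) (P1 := 536870912) (W1 := 536870912) (P2 := 0) (W2 := 536870912) (P3 := 923417968) (W3 := 42949674) (N0 := 3) (En := eng) (mo := mog) (C1 := cd4q1) (C2 := cd0q2) (C3 := pd1)
    rfl k0_mm_112_s

noncomputable def cut_mm_202_s : Cut := Cut.of [[⟨4, 0, 0, 1449551462⟩]]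

noncomputable def f_mm_202_s : ℕ → ℕ → ℕ → ℕ → Bool := onCell 1073741824 536870912 0 536870912 923417968 42949674
    (rowNE 3 eng mog cd4q2 cd0q2 pd0 0 false false false .pp 2 0 2 (qsf 1073741824 536870912 0 536870912 0) ndB4q2 ndB0q2 pcB0 cut_mm_202_s Ext.none)

def k0_mm_202_s : ∃ t, chk3 f_mm_202_s t 1 1 1 = true :=
  ⟨(l 5), by decide +kernel⟩

theorem c_mm_202_s : CertNE 1073741824 536870912 0 536870912 923417968 42949674 3 eng mog cd4q2 cd0q2 pd0 false false false .pp 2 0 2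
    ndB4q2 ndB0q2 pcB0 cut_mm_202_s Ext.none :=
  certNE0 (fam := false) (s1 := false) (s2 := false) (a := 2) (b := 0) (c := 2) (cn := .pp) (n1 := ndB4q2) (n2 := ndB0q2) (pc := pcB0) (cut := cut_mm_202_s) (xt := Ext.none) (P1 := 1073741824) (W1 := 536870912) (P2 := 0) (W2 := 536870912) (P3 := 923417968) (W3 := 42949674) (N0 := 3) (En := eng) (mo := mog) (C1 := cd4q2) (C2 := cd0q2) (C3 := pd0)
    rfl k0_mm_202_s

end Pool.Agent.Strip051.G.I8600_9000.Tab.CS.BB40

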