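import Pool.Agent.Strip051.G.I8600_9000.Tab
import Pool.Agent.Strip051.PB.ExtD2

/-! # Certificates B0 (generated) -/

set_option linter.all false
set_option maxRecDepth 100000

namespace Pool.Agent.Strip051.G.I8600_9000.Tab.C.BA00

open Pool.Agent.Strip051.PB Pool.Agent.Strip051.PB.T
open Pool.Agent.Strip051.G.I8600_9000.Tab

noncomputable def cut_pp_001 : Cut := Cut.of [[⟨3, 0, 0, 1449551462⟩], [⟨4, 0, 0, 2845415833⟩]]

noncomputable def f_pp_001 : ℕ → ℕ → ℕ → ℕ → Bool := onCell 0 536870912 0 536870912 923417968 42949674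
    (rowB 3 eng mog cd0q0 cd0q0 pd1 0 true true true .up 0 0 1 (qsf 0 536870912 0 536870912 1) ndB0q0 ndB0q0 pcB1 cut_pp_001 Ext.none)

def k0_pp_001 : ∃ t, chk3 f_pp_001 t 1 1 1 = true :=
  ⟨(l 4), by decide +kernel⟩

theorem c_pp_001 : CertB 0 536870912 0 536870912 923417968 42949674 3 eng mog cd0q0 cd0q0 pd1 true true true .up 0 0 1
    ndB0q0 ndB0q0 pcB1 cut_pp_001 Ext.none :=
  certB0 (fam := true) (s1 := true) (s2 := true) (a := 0) (b := 0) (c := 1) (cn := .up) (n1 := ndB0q0) (n2 := ndB0q0) (pc := pcB1) (cut := cut_pp_001) (xt := Ext.none) (P1 := 0) (W1 := 536870912) (P2 := 0) (W2 := 536870912) (P3 := 923417968) (W3 := 42949674) (N0 := 3) (En := eng) (mo := mog) (C1 := cd0q0) (C2 := cd0q0) (C3 := pd1)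
    rfl k0_pp_001

noncomputable def cut_pp_011 : Cut := Cut.of [[⟨3, 0, 0, 1449551462⟩], [⟨4, 0, 0, 2845415833⟩], [⟨0, 0, 0, 67108864⟩, ⟨1, 1, 0, 67108864⟩, ⟨2, 1, 0, 67108864⟩]]

noncomputable def f_pp_011 : ℕ → ℕ → ℕ → ℕ → Bool := onCell 0 536870912 536870912 536870912 923417968 42949674
    (rowB 3 eng mog cd0q0 cd0q1 pd1 0 true true true .pnn 0 1 1 (qsf 0 536870912 536870912 536870912 1) ndB0q0 ndB0q1 pcB1 cut_pp_011 Ext.none)

def k0_pp_011 : ∃ t, chk3 f_pp_011 t 1 1 1 = true :=
  ⟨(l 14), by decide +kernel⟩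

theorem c_pp_011 : CertB 0 536870912 536870912 536870912 923417968 42949674 3 eng mog cd0q0 cd0q1 pd1 true true true .pnn 0 1 1
    ndB0q0 ndB0q1 pcB1 cut_pp_011 Ext.none :=
  certB0 (fam := true) (s1 := true) (s2 := true) (a := 0) (b := 1) (c := 1) (cn := .pnn) (n1 := ndB0q0) (n2 := ndB0q1) (pc := pcB1) (cut := cut_pp_011) (xt := Ext.none) (P1 := 0) (W1 := 536870912) (P2 := 536870912) (W2 := 536870912) (P3 := 923417968) (W3 := 42949674) (N0 := 3) (En := eng) (mo := mog) (C1 := cd0q0) (C2 := cd0q1) (C3 := pd1)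
    rfl k0_pp_011

noncomputable def cut_pp_012 : Cut := Cut.of [[⟨3, 0, 0, 1449551462⟩], [⟨4, 0, 0, 2845415833⟩], [⟨0, 0, 0, 67108864⟩, ⟨1, 1, 0, 67108864⟩, ⟨2, 1, 0, 67108864⟩]]

noncomputable def f_pp_012 : ℕ → ℕ → ℕ → ℕ → Bool := onCell 0 536870912 536870912 536870912 923417968 42949674
    (rowB 3 eng mog cd0q0 cd0q1 pd2 0 true true true .pnp 0 1 2 (qsf 0 536870912 536870912 536870912 2) ndB0q0 ndB0q1 pcB2 cut_pp_012 Ext.none)

def k0_pp_012 : ∃ t, chk3 f_pp_012 t 1 1 1 = true :=
  ⟨(l 14), by decide +kernel⟩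

theorem c_pp_012 : CertB 0 536870912 536870912 536870912 923417968 42949674 3 eng mog cd0q0 cd0q1 pd2 true true true .pnp 0 1 2
    ndB0q0 ndB0q1 pcB2 cut_pp_012 Ext.none :=
  certB0 (fam := true) (s1 := true) (s2 := true) (a := 0) (b := 1) (c := 2) (cn := .pnp) (n1 := ndB0q0) (n2 := ndB0q1) (pc := pcB2) (cut := cut_pp_012) (xt := Ext.none) (P1 := 0) (W1 := 536870912) (P2 := 536870912) (W2 := 536870912) (P3 := 923417968) (W3 := 42949674) (N0 := 3) (En := eng) (mo := mog) (C1 := cd0q0) (C2 := cd0q1) (C3 := pd2)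
    rfl k0_pp_012

noncomputable def cut_pp_022 : Cut := Cut.of [[⟨3, 0, 0, 1449551462⟩], [⟨4, 0, 0, 2845415833⟩], [⟨0, 0, 0, 67108864⟩, ⟨1, 1, 0, 67108864⟩, ⟨2, 1, 0, 67108864⟩]]

noncomputable def f_pp_022 : ℕ → ℕ → ℕ → ℕ → Bool := onCell 0 536870912 0 536870912 923417968 42949674
    (rowB 3 eng mog cd0q0 cd0q2 pd2 0 true true true .pp 0 2 2 (qsf 0 536870912 0 536870912 2) ndB0q0 ndB0q2 pcB2 cut_pp_022 Ext.none)

def k0_pp_022 : ∃ t, chk3 f_pp_022 t 4 2 1 = true :=
  ⟨(a (b (a (a (b (l 16315264) (b (l 16321752) (l 16326704))) (b (l 16387848) (b (l 16388064) (l 16389160)))) (a (b (l 16458000) (l 16367312)) (b (l 16456216) (l 16495296)))) (a (b (a (b (l 16310312) (c (l 16320840) (l 16311240))) (b (l 16390152) (l 16350536))) (b (a (c (l 16332552) (l 16321432)) (c (l 16382632) (l 16396584))) (b (a (c (l 16366920) (l 16333976)) (a (l 16398160) (l 16422720))) (a (c (l 16357192) (a (l 16353312) (l 16378168))) (c (l 16403216) (l 16415392)))))) (b (b (a (l 16426624) (l 16503000)) (a (l 16425768)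 (l 16478152))) (a (b (b (l 16449240) (l 16453240)) (b (l 16438056) (c (l 16469072) (l 16464288)))) (b (b (l 16478392) (l 16480832)) (b (l 16464056) (a (l 16500824) (l 16523016)))))))) (b (a (b (a (l 16394280) (l 16378800)) (a (l 16441736) (l 16350176))) (b (a (l 16347160) (l 16320584)) (c (b (l 16393496) (l 16427904)) (b (l 16369376) (l 16406416))))) (b (a (a (b (l 16507320) (l 16541952)) (b (l 16484016) (l 16521928))) (a (b (l 16464952) (l 16484976)) (b (l 16450344) (l 16494280)))) (a (a (b (l 16505696) (c (l 16509584) (a (l 16522376) (l 16565536)))) (b (l 16538176) (b (l 16585192) (l 16575056)))) (b (a (c (l 16550664) (l 16520112)) (b (l 16526656) (l 16547328))) (a (c (l 16586568) (l 16527656)) (b (l 16567384) (l 14)))))))), by decide +kernel⟩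

def k1_pp_022 : ∃ t, chk3 f_pp_022 t 5 2 1 = true :=
  ⟨(b (a (a (b (a (l 16278344) (l 16262472)) (a (b (l 16355760) (l 16396272)) (b (l 16344864) (l 16388352)))) (b (c (a (l 16290352) (l 16283784)) (l 16227888)) (a (b (l 16338240) (l 16384528)) (b (l 16335232) (l 16384128))))) (a (b (a (b (l 16236336) (l 16285904)) (b (l 16234960) (l 16287144))) (a (b (l 16335664) (l 16386976)) (b (l 16339312) (l 16392856)))) (b (a (b (l 16237048) (l 16291640)) (b (l 16242560) (l 16299360))) (a (b (l 16345984) (l 16401544)) (b (l 16355680) (l 16434000)))))) (a (b (b (a (a (l 16440432) (l 16435312)) (a (l 16434128) (l 16436184))) (a (a (l 16487168) (l 16484712)) (a (l 16465064) (l 16485192)))) (a (b (a (b (l 16521568) (l 16543544)) (b (l 16521040) (l 16523296))) (a (b (l 16564880) (l 14)) (l 14))) (b (a (b (l 16524184) (l 14)) (l 14)) (l 14)))) (b (b (a (a (l 16462280) (l 16428304)) (b (a (l 16445040) (l 16457784)) (l 14))) (a (a (b (l 16483768) (l 14)) (l 14)) (l 14))) (l 14)))), by decide +kernel⟩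

def k2_pp_022 : ∃ t, chk3 f_pp_022 t 8 6 1 = true :=
  ⟨(b (b (a (a (a (b (c (l 16379976) (l 16366552)) (c (l 16395280) (b (l 16377784) (l 16385920)))) (b (c (l 16402400) (l 16390496)) (c (l 16416896) (l 16383888)))) (b (a (c (l 16424608) (l 16414424)) (c (l 16446560) (l 16438224))) (a (c (l 16438304) (l 16406904)) (c (l 16459456) (l 16429808))))) (a (b (a (l 16444032) (l 16466288)) (a (c (l 16480304) (l 16452472)) (c (l 16500816) (l 16495784)))) (b (a (l 16488136) (l 16530480)) (c (a (l 16520944) (l 16540664)) (a (l 16517704) (l 16539096)))))) (a (a (a (b (c (b (l 16407936) (l 16416896)) (b (l 16394552) (a (l 16398152) (l 16409104)))) (c (b (l 16426184) (a (l 16430784) (l 16440784))) (b (a (l 16407704) (l 16418440)) (a (l 16417624) (l 16428144))))) (b (c (b (l 16428960) (l 16437536)) (b (l 16416928) (l 16425568))) (c (b (l 16446440) (a (l 16450736) (l 16460624))) (b (a (l 16429192) (l 16439944)) (a (l 16438688) (l 16449232)))))) (b (a (c (l 16432872) (c (l 16425040) (l 16419704)))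 (c (l 16453224) (b (l 16461504) (l 16469256)))) (a (c (b (l 16466480) (l 16475352)) (b (l 16435080) (l 16446664))) (c (c (l 16471688) (l 16467344)) (b (l 16456424) (l 16464960)))))) (a (b (a (c (l 16473280) (b (l 16483496) (l 16490808))) (c (l 16492992) (l 16498096))) (a (a (b (l 16476120) (l 14)) (l 14)) (l 14))) (a (b (b (l 16507232) (l 14)) (l 14)) (l 14))))) (a (b (a (b (b (a (c (a (l 16440816) (l 16450648)) (a (l 16427928) (l 16438240))) (c (a (l 16460416) (l 16470136)) (a (l 16448568) (l 16458904)))) (a (c (a (l 16451184) (l 16460856)) (a (l 16438624) (l 16448728))) (l 14))) (l 14)) (l 14)) (l 14)) (l 14))), by decide +kernel⟩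

def k3_pp_022 : ∃ t, chk3 f_pp_022 t 9 6 1 = true :=
  ⟨(b (a (b (a (b (c (l 16539904) (l 16520392)) (c (l 16527496) (a (l 16559880) (l 16579984)))) (b (a (l 16591176) (l 16610088)) (l 14))) (l 14)) (l 14)) (l 14)), by decide +kernel⟩

def k4_pp_022 : ∃ t, chk3 f_pp_022 t 4 7 1 = true :=
  ⟨(l 14), by decide +kernel⟩

def k5_pp_022 : ∃ t, chk3 f_pp_022 t 5 3 1 = true :=
  ⟨(l 14), by decide +kernel⟩

def k6_pp_022 : ∃ t, chk3 f_pp_022 t 3 1 1 = true :=
  ⟨(b (b (a (a (b (b (a (a (l 16251424) (l 16263432)) (a (l 16278144) (l 16295240))) (a (a (l 16310248) (l 16324112)) (a (l 16340520) (l 16359160)))) (b (a (a (l 16368376) (l 16404864)) (a (l 16422760) (l 16463696))) (a (a (l 16469288) (c (l 16458376) (l 16429864))) (l 14)))) (b (a (a (b (l 16314568) (l 16379880)) (b (l 16335976) (l 16402536))) (a (b (l 16359344) (l 14)) (l 2))) (l 14))) (l 2)) (l 14)) (l 14)), by decide +kernel⟩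

theorem s7_pp_022 : ∃ t, chk3 f_pp_022 t 4 6 1 = true := ex3_a k2_pp_022 k3_pp_022

theorem s8_pp_022 : ∃ t, chk3 f_pp_022 t 4 3 1 = true := ex3_b s7_pp_022 k4_pp_022

theorem s9_pp_022 : ∃ t, chk3 f_pp_022 t 2 3 1 = true := ex3_a s8_pp_022 k5_pp_022

theorem s10_pp_022 : ∃ t, chk3 f_pp_022 t 2 2 1 = true := ex3_a k0_pp_022 k1_pp_022

theorem s11_pp_022 : ∃ t, chk3 f_pp_022 t 2 1 1 = true := ex3_b s10_pp_022 s9_pp_022

theorem s12_pp_022 : ∃ t, chk3 f_pp_022 t 1 1 1 = true := ex3_a s11_pp_022 k6_pp_022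

theorem c_pp_022 : CertB 0 536870912 0 536870912 923417968 42949674 3 eng mog cd0q0 cd0q2 pd2 true true true .pp 0 2 2
    ndB0q0 ndB0q2 pcB2 cut_pp_022 Ext.none :=
  certB0 (fam := true) (s1 := true) (s2 := true) (a := 0) (b := 2) (c := 2) (cn := .pp) (n1 := ndB0q0) (n2 := ndB0q2) (pc := pcB2) (cut := cut_pp_022) (xt := Ext.none) (P1 := 0) (W1 := 536870912) (P2 := 0) (W2 := 536870912) (P3 := 923417968) (W3 := 42949674) (N0 := 3) (En := eng) (mo := mog) (C1 := cd0q0) (C2 := cd0q2) (C3 := pd2)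
    rfl s12_pp_022

noncomputable def cut_pp_023 : Cut := Cut.of [[⟨3, 0, 0, 1449551462⟩], [⟨4, 0, 0, 2845415833⟩]]

noncomputable def f_pp_023 : ℕ → ℕ → ℕ → ℕ → Bool := onCell 1610612736 536870912 0 536870912 923417968 42949674
    (rowB 3 eng mog cd0q0 cd0q2 pd3 2 true true true .up 0 2 3 (qsf 0 536870912 0 536870912 3) ndB0q0 ndB0q2 pcB3 cut_pp_023 Ext.none)

def k0_pp_023 : ∃ t, chk3 f_pp_023 t 1 1 1 = true :=
  ⟨(a (b (a (a (b (b (b (a (c (c (l 16624016) (l 16492800)) (a (c (l 16508856) (l 16447360)) (c (l 16536136) (l 16479888)))) (l 14)) (l 14)) (l 14)) (l 14)) (l 14)) (l 14)) (l 4)) (l 2)), by decide +kernel⟩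

theorem c_pp_023 : CertB 0 536870912 0 536870912 923417968 42949674 3 eng mog cd0q0 cd0q2 pd3 true true true .up 0 2 3
    ndB0q0 ndB0q2 pcB3 cut_pp_023 Ext.none :=
  certB2 (fam := true) (s1 := true) (s2 := true) (a := 0) (b := 2) (c := 3) (cn := .up) (n1 := ndB0q0) (n2 := ndB0q2) (pc := pcB3) (cut := cut_pp_023) (xt := Ext.none) (P1 := 0) (W1 := 536870912) (P2 := 0) (W2 := 536870912) (P3 := 923417968) (W3 := 42949674) (N0 := 3) (En := eng) (mo := mog) (C1 := cd0q0) (C2 := cd0q2) (C3 := pd3)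
    rfl (fun _ => rfl) k0_pp_023

noncomputable def cut_pp_101 : Cut := Cut.of [[⟨3, 0, 0, 1449551462⟩], [⟨4, 0, 0, 2845415833⟩]]

noncomputable def f_pp_101 : ℕ → ℕ → ℕ → ℕ → Bool := onCell 536870912 536870912 0 536870912 923417968 42949674
    (rowB 3 eng mog cd0q1 cd0q0 pd1 0 true true true .npn 1 0 1 (qsf 536870912 536870912 0 536870912 1) ndB0q1 ndB0q0 pcB1 cut_pp_101 Ext.none)

def k0_pp_101 : ∃ t, chk3 f_pp_101 t 1 1 1 = true :=
  ⟨(l 14), by decide +kernel⟩

theorem c_pp_101 : CertB 536870912 536870912 0 536870912 923417968 42949674 3 eng mog cd0q1 cd0q0 pd1 true true true .npn 1 0 1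
    ndB0q1 ndB0q0 pcB1 cut_pp_101 Ext.none :=
  certB0 (fam := true) (s1 := true) (s2 := true) (a := 1) (b := 0) (c := 1) (cn := .npn) (n1 := ndB0q1) (n2 := ndB0q0) (pc := pcB1) (cut := cut_pp_101) (xt := Ext.none) (P1 := 536870912) (W1 := 536870912) (P2 := 0) (W2 := 536870912) (P3 := 923417968) (W3 := 42949674) (N0 := 3) (En := eng) (mo := mog) (C1 := cd0q1) (C2 := cd0q0) (C3 := pd1)
    rfl k0_pp_101

noncomputable def cut_pp_102 : Cut := Cut.of [[⟨3, 0, 0, 1449551462⟩], [⟨4, 0, 0, 2845415833⟩]]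

noncomputable def f_pp_102 : ℕ → ℕ → ℕ → ℕ → Bool := onCell 536870912 536870912 0 536870912 923417968 42949674
    (rowB 3 eng mog cd0q1 cd0q0 pd2 0 true true true .npp 1 0 2 (qsf 536870912 536870912 0 536870912 2) ndB0q1 ndB0q0 pcB2 cut_pp_102 Ext.none)

def k0_pp_102 : ∃ t, chk3 f_pp_102 t 1 1 1 = true :=
  ⟨(l 14), by decide +kernel⟩

theorem c_pp_102 : CertB 536870912 536870912 0 536870912 923417968 42949674 3 eng mog cd0q1 cd0q0 pd2 true true true .npp 1 0 2
    ndB0q1 ndB0q0 pcB2 cut_pp_102 Ext.none :=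
  certB0 (fam := true) (s1 := true) (s2 := true) (a := 1) (b := 0) (c := 2) (cn := .npp) (n1 := ndB0q1) (n2 := ndB0q0) (pc := pcB2) (cut := cut_pp_102) (xt := Ext.none) (P1 := 536870912) (W1 := 536870912) (P2 := 0) (W2 := 536870912) (P3 := 923417968) (W3 := 42949674) (N0 := 3) (En := eng) (mo := mog) (C1 := cd0q1) (C2 := cd0q0) (C3 := pd2)
    rfl k0_pp_102

noncomputable def cut_pp_112 : Cut := Cut.of [[⟨3, 0, 0, 1449551462⟩], [⟨4, 0, 0, 2845415833⟩]]

noncomputable def f_pp_112 : ℕ → ℕ → ℕ → ℕ → Bool := onCell 536870912 536870912 536870912 536870912 923417968 42949674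
    (rowB 3 eng mog cd0q1 cd0q1 pd2 0 true true true .dn 1 1 2 (qsf 536870912 536870912 536870912 536870912 2) ndB0q1 ndB0q1 pcB2 cut_pp_112 Ext.none)

def k0_pp_112 : ∃ t, chk3 f_pp_112 t 1 1 1 = true :=
  ⟨(l 4), by decide +kernel⟩

theorem c_pp_112 : CertB 536870912 536870912 536870912 536870912 923417968 42949674 3 eng mog cd0q1 cd0q1 pd2 true true true .dn 1 1 2
    ndB0q1 ndB0q1 pcB2 cut_pp_112 Ext.none :=
  certB0 (fam := true) (s1 := true) (s2 := true) (a := 1) (b := 1) (c := 2) (cn := .dn) (n1 := ndB0q1) (n2 := ndB0q1) (pc := pcB2) (cut := cut_pp_112) (xt := Ext.none) (P1 := 536870912) (W1 := 536870912) (P2 := 536870912) (W2 := 536870912) (P3 := 923417968) (W3 := 42949674) (N0 := 3) (En := eng) (mo := mog) (C1 := cd0q1) (C2 := cd0q1) (C3 := pd2)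
    rfl k0_pp_112

noncomputable def cut_pp_113 : Cut := Cut.of [[⟨3, 0, 0, 1449551462⟩], [⟨4, 0, 0, 2845415833⟩]]

noncomputable def f_pp_113 : ℕ → ℕ → ℕ → ℕ → Bool := onCell 536870912 536870912 536870912 536870912 923417968 42949674
    (rowB 3 eng mog cd0q1 cd0q1 pd3 0 true true true .nn 1 1 3 (qsf 536870912 536870912 536870912 536870912 3) ndB0q1 ndB0q1 pcB3 cut_pp_113 Ext.none)

def k0_pp_113 : ∃ t, chk3 f_pp_113 t 1 1 1 = true :=
  ⟨(l 4), by decide +kernel⟩

theorem c_pp_113 : CertB 536870912 536870912 536870912 536870912 923417968 42949674 3 eng mog cd0q1 cd0q1 pd3 true true true .nn 1 1 3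
    ndB0q1 ndB0q1 pcB3 cut_pp_113 Ext.none :=
  certB0 (fam := true) (s1 := true) (s2 := true) (a := 1) (b := 1) (c := 3) (cn := .nn) (n1 := ndB0q1) (n2 := ndB0q1) (pc := pcB3) (cut := cut_pp_113) (xt := Ext.none) (P1 := 536870912) (W1 := 536870912) (P2 := 536870912) (W2 := 536870912) (P3 := 923417968) (W3 := 42949674) (N0 := 3) (En := eng) (mo := mog) (C1 := cd0q1) (C2 := cd0q1) (C3 := pd3)
    rfl k0_pp_113

noncomputable def cut_pp_123 : Cut := Cut.of [[⟨3, 0, 0, 1449551462⟩], [⟨4, 0, 0, 2845415833⟩]]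

noncomputable def f_pp_123 : ℕ → ℕ → ℕ → ℕ → Bool := onCell 536870912 536870912 0 536870912 923417968 42949674
    (rowB 3 eng mog cd0q1 cd0q2 pd3 0 true true true .npn 1 2 3 (qsf 536870912 536870912 0 536870912 3) ndB0q1 ndB0q2 pcB3 cut_pp_123 Ext.none)

def k0_pp_123 : ∃ t, chk3 f_pp_123 t 1 1 1 = true :=
  ⟨(a (l 14) (l 4)), by decide +kernel⟩

theorem c_pp_123 : CertB 536870912 536870912 0 536870912 923417968 42949674 3 eng mog cd0q1 cd0q2 pd3 true true true .npn 1 2 3
    ndB0q1 ndB0q2 pcB3 cut_pp_123 Ext.none :=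
  certB0 (fam := true) (s1 := true) (s2 := true) (a := 1) (b := 2) (c := 3) (cn := .npn) (n1 := ndB0q1) (n2 := ndB0q2) (pc := pcB3) (cut := cut_pp_123) (xt := Ext.none) (P1 := 536870912) (W1 := 536870912) (P2 := 0) (W2 := 536870912) (P3 := 923417968) (W3 := 42949674) (N0 := 3) (En := eng) (mo := mog) (C1 := cd0q1) (C2 := cd0q2) (C3 := pd3)
    rfl k0_pp_123

noncomputable def cut_pp_202 : Cut := Cut.of [[⟨3, 0, 0, 1449551462⟩], [⟨4, 0, 0, 2845415833⟩]]

noncomputable def f_pp_202 : ℕ → ℕ → ℕ → ℕ → Bool := onCell 0 536870912 0 536870912 923417968 42949674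
    (rowB 3 eng mog cd0q2 cd0q0 pd2 0 true true true .pp 2 0 2 (qsf 0 536870912 0 536870912 2) ndB0q2 ndB0q0 pcB2 cut_pp_202 Ext.none)

def k0_pp_202 : ∃ t, chk3 f_pp_202 t 1 1 1 = true :=
  ⟨(l 5), by decide +kernel⟩

theorem c_pp_202 : CertB 0 536870912 0 536870912 923417968 42949674 3 eng mog cd0q2 cd0q0 pd2 true true true .pp 2 0 2
    ndB0q2 ndB0q0 pcB2 cut_pp_202 Ext.none :=
  certB0 (fam := true) (s1 := true) (s2 := true) (a := 2) (b := 0) (c := 2) (cn := .pp) (n1 := ndB0q2) (n2 := ndB0q0) (pc := pcB2) (cut := cut_pp_202) (xt := Ext.none) (P1 := 0) (W1 := 536870912) (P2 := 0) (W2 := 536870912) (P3 := 923417968) (W3 := 42949674) (N0 := 3) (En := eng) (mo := mog) (C1 := cd0q2) (C2 := cd0q0) (C3 := pd2)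
    rfl k0_pp_202

noncomputable def cut_pp_203 : Cut := Cut.of [[⟨3, 0, 0, 1449551462⟩], [⟨4, 0, 0, 2845415833⟩]]

noncomputable def f_pp_203 : ℕ → ℕ → ℕ → ℕ → Bool := onCell 0 536870912 0 536870912 923417968 42949674
    (rowB 3 eng mog cd0q2 cd0q0 pd3 0 true true true .up 2 0 3 (qsf 0 536870912 0 536870912 3) ndB0q2 ndB0q0 pcB3 cut_pp_203 Ext.none)

def k0_pp_203 : ∃ t, chk3 f_pp_203 t 1 1 1 = true :=
  ⟨(l 5), by decide +kernel⟩

theorem c_pp_203 : CertB 0 536870912 0 536870912 923417968 42949674 3 eng mog cd0q2 cd0q0 pd3 true true true .up 2 0 3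
    ndB0q2 ndB0q0 pcB3 cut_pp_203 Ext.none :=
  certB0 (fam := true) (s1 := true) (s2 := true) (a := 2) (b := 0) (c := 3) (cn := .up) (n1 := ndB0q2) (n2 := ndB0q0) (pc := pcB3) (cut := cut_pp_203) (xt := Ext.none) (P1 := 0) (W1 := 536870912) (P2 := 0) (W2 := 536870912) (P3 := 923417968) (W3 := 42949674) (N0 := 3) (En := eng) (mo := mog) (C1 := cd0q2) (C2 := cd0q0) (C3 := pd3)
    rfl k0_pp_203

noncomputable def cut_pp_213 : Cut := Cut.of [[⟨3, 0, 0, 1449551462⟩], [⟨4, 0, 0, 2845415833⟩]]

noncomputable def f_pp_213 : ℕ → ℕ → ℕ → ℕ → Bool := onCell 0 536870912 536870912 536870912 923417968 42949674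
    (rowB 3 eng mog cd0q2 cd0q1 pd3 0 true true true .pnn 2 1 3 (qsf 0 536870912 536870912 536870912 3) ndB0q2 ndB0q1 pcB3 cut_pp_213 Ext.none)

def k0_pp_213 : ∃ t, chk3 f_pp_213 t 1 1 1 = true :=
  ⟨(a (l 5) (l 4)), by decide +kernel⟩

theorem c_pp_213 : CertB 0 536870912 536870912 536870912 923417968 42949674 3 eng mog cd0q2 cd0q1 pd3 true true true .pnn 2 1 3
    ndB0q2 ndB0q1 pcB3 cut_pp_213 Ext.none :=
  certB0 (fam := true) (s1 := true) (s2 := true) (a := 2) (b := 1) (c := 3) (cn := .pnn) (n1 := ndB0q2) (n2 := ndB0q1) (pc := pcB3) (cut := cut_pp_213) (xt := Ext.none) (P1 := 0) (W1 := 536870912) (P2 := 536870912) (W2 := 536870912) (P3 := 923417968) (W3 := 42949674) (N0 := 3) (En := eng) (mo := mog) (C1 := cd0q2) (C2 := cd0q1) (C3 := pd3)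
    rfl k0_pp_213

noncomputable def cut_pm_001 : Cut := Cut.of [[⟨3, 0, 0, 1449551462⟩], [⟨4, 0, 0, 2845415833⟩]]

noncomputable def f_pm_001 : ℕ → ℕ → ℕ → ℕ → Bool := onCell 0 536870912 0 536870912 923417968 42949674
    (rowB 3 eng mog cd0q0 cd0q0 pd1 0 true true false .up 0 0 1 (qsf 0 536870912 0 536870912 1) ndB0q0 ndB0q0 pcB1 cut_pm_001 Ext.none)

def k0_pm_001 : ∃ t, chk3 f_pm_001 t 1 1 1 = true :=
  ⟨(l 3), by decide +kernel⟩

theorem c_pm_001 : CertB 0 536870912 0 536870912 923417968 42949674 3 eng mog cd0q0 cd0q0 pd1 true true false .up 0 0 1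
    ndB0q0 ndB0q0 pcB1 cut_pm_001 Ext.none :=
  certB0 (fam := true) (s1 := true) (s2 := false) (a := 0) (b := 0) (c := 1) (cn := .up) (n1 := ndB0q0) (n2 := ndB0q0) (pc := pcB1) (cut := cut_pm_001) (xt := Ext.none) (P1 := 0) (W1 := 536870912) (P2 := 0) (W2 := 536870912) (P3 := 923417968) (W3 := 42949674) (N0 := 3) (En := eng) (mo := mog) (C1 := cd0q0) (C2 := cd0q0) (C3 := pd1)
    rfl k0_pm_001

noncomputable def cut_pm_011 : Cut := Cut.of [[⟨3, 0, 0, 1449551462⟩], [⟨4, 0, 0, 2845415833⟩], [⟨0, 0, 0, 67108864⟩, ⟨1, 1, 0, 67108864⟩, ⟨2, 1, 0, 67108864⟩]]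

noncomputable def f_pm_011 : ℕ → ℕ → ℕ → ℕ → Bool := onCell 0 536870912 536870912 536870912 923417968 42949674
    (rowB 3 eng mog cd0q0 cd0q1 pd1 1 true true false .pnn 0 1 1 (qsf 0 536870912 536870912 536870912 1) ndB0q0 ndB0q1 pcB1 cut_pm_011 Ext.none)

def k0_pm_011 : ∃ t, chk3 f_pm_011 t 1 1 1 = true :=
  ⟨(l 6), by decide +kernel⟩

theorem c_pm_011 : CertB 0 536870912 536870912 536870912 923417968 42949674 3 eng mog cd0q0 cd0q1 pd1 true true false .pnn 0 1 1
    ndB0q0 ndB0q1 pcB1 cut_pm_011 Ext.none :=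
  certB1 (fam := true) (s1 := true) (s2 := false) (a := 0) (b := 1) (c := 1) (cn := .pnn) (n1 := ndB0q0) (n2 := ndB0q1) (pc := pcB1) (cut := cut_pm_011) (xt := Ext.none) (P1 := 0) (W1 := 536870912) (P2 := 536870912) (W2 := 536870912) (P3 := 923417968) (W3 := 42949674) (N0 := 3) (En := eng) (mo := mog) (C1 := cd0q0) (C2 := cd0q1) (C3 := pd1)
    rfl (fun _ => rfl) k0_pm_011

noncomputable def cut_pm_012 : Cut := Cut.of [[⟨3, 0, 0, 1449551462⟩], [⟨4, 0, 0, 2845415833⟩], [⟨0, 0, 0, 67108864⟩, ⟨1, 1, 0, 67108864⟩, ⟨2, 1, 0, 67108864⟩]]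

noncomputable def f_pm_012 : ℕ → ℕ → ℕ → ℕ → Bool := onCell 0 536870912 536870912 536870912 923417968 42949674
    (rowB 3 eng mog cd0q0 cd0q1 pd2 0 true true false .pnp 0 1 2 (qsf 0 536870912 536870912 536870912 2) ndB0q0 ndB0q1 pcB2 cut_pm_012 Ext.none)

def k0_pm_012 : ∃ t, chk3 f_pm_012 t 1 2 1 = true :=
  ⟨(l 6), by decide +kernel⟩

def k1_pm_012 : ∃ t, chk3 f_pm_012 t 2 3 1 = true :=
  ⟨(b (l 6) (a (l 6) (b (l 6) (a (l 6) (b (l 6) (a (l 6) (b (l 6) (c (a (b (l 6) (l 16405136)) (l 16338688)) (a (l 16443720) (l 16432744)))))))))), by decide +kernel⟩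

def k2_pm_012 : ∃ t, chk3 f_pm_012 t 3 6 1 = true :=
  ⟨(a (l 6) (b (l 6) (a (b (l 6) (a (l 6) (b (l 6) (a (l 6) (l 16494056))))) (b (a (l 6) (b (l 16478352) (l 16453272))) (a (c (l 16476000) (l 16432904)) (b (l 16449112) (l 16423120))))))), by decide +kernel⟩

def k3_pm_012 : ∃ t, chk3 f_pm_012 t 3 7 1 = true :=
  ⟨(a (b (a (l 6) (b (l 6) (a (a (l 6) (b (l 6) (l 16454992))) (c (b (l 16493080) (l 16456832)) (c (l 16408792) (l 16422560)))))) (a (b (a (a (l 6) (a (l 6) (b (l 6) (l 16371104)))) (c (b (l 16482976) (l 16376104)) (b (l 16475760) (l 16438384)))) (a (c (b (a (l 16429448) (l 16416408)) (a (l 16347248) (l 16356360))) (b (l 16406608) (l 16333192))) (c (b (a (l 16403368) (l 16389920)) (a (l 16365392) (l 16352976))) (b (l 16382264) (c (l 16400920) (l 16432192)))))) (b (a (c (b (l 16451376) (l 16367248)) (c (l 16394888) (l 16478968))) (c (b (l 16417408) (l 16376768)) (c (l 16381592) (l 16381232)))) (c (a (b (l 16284896) (a (l 16339976) (l 16326256))) (b (l 16275048) (a (l 16311696)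 (l 16296216)))) (a (b (l 16417456) (l 16348672)) (b (l 16385384) (l 16360320))))))) (b (a (b (a (c (b (l 16518624) (l 16486472)) (b (l 16528736) (l 16500664))) (b (a (l 16488568) (l 16465880)) (l 16364336))) (a (b (l 16357336) (l 16324944)) (c (l 16268992) (l 16349904)))) (b (a (b (l 16434176) (l 16405856)) (c (l 16381888) (l 16384216))) (a (c (l 16334704) (l 16348896)) (c (l 16321072) (l 16331880))))) (a (b (c (a (b (l 16380368) (l 16341056)) (b (l 16340768) (l 16302600))) (a (b (l 16410912) (l 16357440)) (b (l 16367472) (l 16335992)))) (c (a (b (l 16261688) (a (l 16279776) (l 16262336))) (b (l 16224392) (a (l 16244000) (l 16225856)))) (a (b (l 16306408) (l 16324712)) (b (l 16265024) (l 16284400))))) (b (c (a (b (l 16303008) (l 16265776)) (b (l 16269472) (l 16232928))) (a (l 16184264) (l 16168096))) (c (a (b (l 16230440) (a (l 16208512) (l 16191936))) (b (l 16198264) (l 16147656))) (a (b (l 16266520) (l 16202712)) (b (l 16229912) (l 16208384)))))))), by decide +kernel⟩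

theorem s4_pm_012 : ∃ t, chk3 f_pm_012 t 3 3 1 = true := ex3_b k2_pm_012 k3_pm_012

theorem s5_pm_012 : ∃ t, chk3 f_pm_012 t 1 3 1 = true := ex3_a k1_pm_012 s4_pm_012

theorem s6_pm_012 : ∃ t, chk3 f_pm_012 t 1 1 1 = true := ex3_b k0_pm_012 s5_pm_012

theorem c_pm_012 : CertB 0 536870912 536870912 536870912 923417968 42949674 3 eng mog cd0q0 cd0q1 pd2 true true false .pnp 0 1 2
    ndB0q0 ndB0q1 pcB2 cut_pm_012 Ext.none :=
  certB0 (fam := true) (s1 := true) (s2 := false) (a := 0) (b := 1) (c := 2) (cn := .pnp) (n1 := ndB0q0) (n2 := ndB0q1) (pc := pcB2) (cut := cut_pm_012) (xt := Ext.none) (P1 := 0) (W1 := 536870912) (P2 := 536870912) (W2 := 536870912) (P3 := 923417968) (W3 := 42949674) (N0 := 3) (En := eng) (mo := mog) (C1 := cd0q0) (C2 := cd0q1) (C3 := pd2)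
    rfl s6_pm_012

noncomputable def cut_pm_022 : Cut := Cut.of [[⟨3, 0, 0, 1449551462⟩], [⟨4, 0, 0, 2845415833⟩], [⟨0, 0, 0, 67108864⟩, ⟨1, 1, 0, 67108864⟩, ⟨2, 1, 0, 67108864⟩]]

noncomputable def f_pm_022 : ℕ → ℕ → ℕ → ℕ → Bool := onCell 1073741824 536870912 0 536870912 923417968 42949674
    (rowB 3 eng mog cd0q0 cd0q2 pd2 2 true true false .pp 0 2 2 (qsf 0 536870912 0 536870912 2) ndB0q0 ndB0q2 pcB2 cut_pm_022 Ext.none)

def k0_pm_022 : ∃ t, chk3 f_pm_022 t 4 1 1 = true :=
  ⟨(b (b (l 1) (a (l 1) (b (l 1) (a (l 1) (a (l 1) (a (l 1) (b (l 1) (b (l 16165224) (a (l 16177320) (l 16187104)))))))))) (b (a (l 1) (a (b (l 1) (b (b (a (l 1) (a (l 1) (c (l 16294264) (a (l 1) (l 16227232))))) (l 6)) (l 6))) (b (b (a (a (l 1) (b (l 1) (c (l 16224040) (l 16156480)))) (a (c (b (l 16215880) (l 16238608)) (b (l 16149496) (l 16170456))) (c (b (l 16233120) (l 16254128)) (b (l 16166712) (l 16185832))))) (a (a (b (l 1) (c (l 16268672) (a (l 16197600) (l 16201656)))) (c (b (l 16250264) (l 16278784))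 (b (c (l 16199024) (l 16163016)) (c (l 16226600) (l 16189888))))) (c (a (l 16234616) (l 16247472)) (a (b (l 16193360) (l 16218696)) (b (l 16206824) (l 16230168)))))) (b (a (c (a (b (l 16301544) (l 16337024)) (b (l 16309840) (l 16343432))) (a (b (c (l 16249584) (l 16213016)) (l 16224392)) (b (l 16217488) (l 16271280)))) (c (a (l 16313928) (l 16322976)) (a (b (l 16246712) (l 16277408)) (b (l 16256088) (l 16284568))))) (b (a (a (l 6) (c (l 16379560) (l 16306912))) (c (l 16366696) (l 16271120))) (a (l 6) (c (l 16423064) (l 16326864)))))))) (l 6))), by decide +kernel⟩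

def k1_pm_022 : ∃ t, chk3 f_pm_022 t 20 1 1 = true :=
  ⟨(b (a (b (l 1) (b (b (l 16247296) (c (l 16183768) (l 16131952))) (b (b (c (l 16201160) (l 16145232)) (a (l 16173272) (l 16197944))) (a (b (l 16187096) (l 16160336)) (c (l 16246976) (l 16185288)))))) (b (b (b (l 16238032) (c (l 16219304) (l 16224832))) (b (l 16218304) (l 16188424))) (b (b (c (l 16229680) (l 16188840)) (c (l 16241776) (l 16194176))) (b (b (l 16207544) (l 16215664)) (c (l 16259504) (l 16199944)))))) (b (a (b (b (a (c (l 16260952) (b (l 16185216) (l 16202416))) (b (l 16217248) (l 16233640))) (c (b (l 16298968) (l 16321080)) (b (a (l 16221432) (l 16237008)) (a (l 16242696) (l 16256112))))) (b (c (a (l 16332728) (l 16364048)) (a (l 16227120) (l 16268536))) (c (b (l 16400816) (l 16431704)) (b (l 16303200) (l 16332744))))) (b (b (c (l 16286152) (b (l 16235984) (l 16248088))) (a (b (l 16288840) (l 16264984)) (b (l 16305568) (l 16321512)))) (b (c (a (l 16374912) (l 16386184)) (b (l 16274464) (l 16294464))) (c (b (l 16415912)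 (l 16442072)) (b (l 16316456) (l 16361368)))))) (b (a (b (b (c (l 16464888) (a (l 16386184) (l 16386744))) (l 6)) (l 6)) (a (b (b (c (l 16468904) (l 16387488)) (l 16363448)) (l 6)) (b (b (b (l 16424168) (a (l 16438432) (a (l 16438816) (l 16376120)))) (a (l 16405848) (a (l 16406040) (l 16364160)))) (a (l 6) (a (l 6) (b (l 16427872) (l 6))))))) (l 6)))), by decide +kernel⟩

def k2_pm_022 : ∃ t, chk3 f_pm_022 t 21 1 1 = true :=
  ⟨(b (a (b (b (c (l 16236728) (l 16250120)) (b (l 16302624) (l 16286840))) (b (b (l 16280072) (l 16281688)) (b (b (l 16286256) (l 16290688)) (c (l 16327064) (l 16250160))))) (b (b (b (l 16398096) (l 16339760)) (b (l 16367856) (l 16366280))) (b (b (l 16352512) (l 16346864)) (b (l 16325360) (c (l 16375032) (l 16323176)))))) (b (c (b (b (a (l 16346432) (l 16386976)) (a (l 16371528) (l 16404040))) (a (b (l 16361672) (l 16379776)) (b (l 16427304) (l 16456424)))) (b (b (a (l 16262936) (l 16327056)) (a (b (l 16296840) (l 16307776)) (l 16336032))) (b (a (a (l 16301408)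 (l 16312912)) (l 16351208)) (a (b (l 16330864) (l 16369880)) (l 16351600))))) (b (b (c (b (a (l 16475928) (l 16480968)) (l 16446696)) (b (a (l 16347912) (l 16391552)) (a (l 16426152) (l 16422344)))) (a (b (a (l 16427320) (l 16404984)) (l 16406504)) (b (l 16359880) (l 16399704)))) (a (l 6) (b (b (l 16460584) (l 6)) (l 6)))))), by decide +kernel⟩

def k3_pm_022 : ∃ t, chk3 f_pm_022 t 11 1 1 = true :=
  ⟨(b (b (b (a (b (l 16412344) (l 16297392)) (a (l 16371960) (l 16326984))) (a (b (c (l 16291000) (a (l 16478160) (l 16416432))) (l 16318512)) (b (b (a (l 16351536) (l 16297752)) (a (l 16367304) (l 16302832))) (a (l 16385248) (l 16345384))))) (a (a (b (c (l 16431288) (l 16365568)) (b (l 16362800) (l 16316448))) (b (l 16342104) (b (l 16441760) (l 16366456)))) (b (b (l 16278992) (l 16324520)) (b (l 16389368) (b (l 16464664) (l 16411208)))))) (b (b (b (a (a (c (l 16427792) (l 16370520)) (l 16357584)) (b (l 16379336) (l 16348048))) (a (c (l 16326528) (a (l 16369632) (l 16402416))) (a (l 16340768)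 (l 16368288)))) (a (c (b (a (l 16450488) (l 16472312)) (a (l 16469168) (l 16479904))) (b (a (l 16374096) (l 16395856)) (a (l 16383552) (l 16392720)))) (b (a (a (l 16366568) (l 16375728)) (c (l 16509128) (l 16433248))) (a (c (l 16489048) (l 16400584)) (c (l 16496576) (l 16407144)))))) (c (b (a (b (b (a (l 16484960) (l 16487248)) (c (l 16527456) (l 16483952))) (a (l 16516736) (l 16529768))) (b (b (l 16446288) (c (l 16518672) (l 16472008))) (l 16432456))) (a (b (a (l 16425840) (l 16413488)) (b (c (l 16447168) (l 16454752)) (a (l 6) (l 16347512)))) (b (a (l 16401904) (l 16411992)) (b (l 16331432) (a (l 16355544) (l 16364320)))))) (b (b (a (b (a (l 16392568) (l 16392224)) (a (l 16416200) (l 16408376))) (b (l 16368800) (b (l 16282432) (l 16400808)))) (a (a (l 16371464) (l 16380664)) (c (l 16407088) (l 16357840)))) (b (a (b (l 16445992) (l 16506384)) (a (l 16442400) (l 16446888))) (b (a (l 16439016) (l 16440848)) (a (a (l 6) (l 16424328)) (l 16356768)))))))), by decide +kernel⟩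

def k4_pm_022 : ∃ t, chk3 f_pm_022 t 6 4 1 = true :=
  ⟨(a (b (a (a (l 16287256) (l 16232072)) (a (b (l 16242600) (l 16206584)) (b (l 16221800) (l 16181928)))) (a (b (a (b (l 16251736) (b (l 16242824) (l 16247792))) (c (l 16225568) (l 16229456))) (c (l 16145016) (l 16140128))) (b (a (l 16169840) (l 16141424)) (b (a (b (a (l 16164184) (l 16141832)) (l 16167800)) (b (l 16116168) (a (l 16129016) (l 16147920)))) (a (l 16194120) (l 16165568)))))) (a (b (a (b (l 16205840) (l 16162432)) (b (l 16194088) (l 16147336))) (b (a (l 16118264) (c (l 16125328) (l 16073656))) (a (b (c (l 16132680) (l 16080992)) (c (l 16120344) (l 16072760))) (b (l 16062576) (b (a (c (l 16083072) (l 16028384)) (c (l 16069096) (l 16012248))) (c (l 16087528) (l 16035368))))))) (b (b (a (l 16186392) (l 16182544)) (a (l 16136528) (l 16129800))) (b (a (c (l 16112416) (l 16058712)) (c (l 16103632) (l 16048296))) (a (b (l 16046312) (c (b (l 16055040) (a (l 16058312) (l 16064600))) (b (l 15996024) (a (l 16000992) (l 15983808)))))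 (a (b (l 16037064) (c (l 16039768) (l 15978848))) (b (l 16032272) (l 16002656)))))))), by decide +kernel⟩

def k5_pm_022 : ∃ t, chk3 f_pm_022 t 6 5 1 = true :=
  ⟨(a (b (a (b (a (l 16344392) (l 16293104)) (a (l 16397688) (l 16351688))) (b (c (a (l 16254712) (l 16211888)) (l 16125616)) (a (l 16308048) (l 16245528)))) (a (b (a (l 16449464) (l 16408696)) (b (l 16385536) (l 16433000))) (b (a (l 16370048) (l 16332824)) (c (l 16402272) (l 16407280))))) (b (a (c (b (a (l 16170840) (b (l 16114184) (l 16148688))) (a (l 16234264) (l 16198728))) (b (a (l 16137448) (l 16091616)) (l 16198104))) (b (a (b (c (l 16075920) (l 16024368)) (c (l 16112184) (l 16070544))) (b (a (c (l 16048392) (l 15991792)) (b (b (c (l 16019392) (l 15956216)) (l 15995632)) (l 16012112))) (c (l 16077528) (l 16029496)))) (a (c (l 16164864) (l 16137760)) (c (l 16132704) (l 16099672))))) (a (b (c (l 16259208) (l 16279960)) (c (l 16343080) (l 16360712))) (b (c (a (l 16233936) (l 16205056)) (l 16208784)) (a (l 16306896) (l 16278904)))))),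 by decide +kernel⟩

def k6_pm_022 : ∃ t, chk3 f_pm_022 t 7 4 1 = true :=
  ⟨(a (b (a (b (a (l 16182384) (l 16185856)) (a (l 16126992) (l 16128008))) (a (b (l 16192824) (l 16132720)) (b (l 16203064) (l 16161784)))) (a (b (a (c (l 16098792) (l 16042208)) (c (l 16097784) (l 16040320))) (a (c (l 16042496) (l 15980688)) (c (l 16039152) (l 15976224)))) (b (a (c (l 16100480) (l 16042480)) (c (l 16106576) (l 16048360))) (a (c (l 16039688) (l 15975992)) (c (l 16043736) (l 15979576)))))) (b (a (a (b (l 16216152) (l 16151928)) (b (l 16231744) (l 16165696))) (a (b (l 16249712) (l 16181976)) (b (l 16269888) (l 16200616)))) (a (b (a (c (l 16115608) (l 16057456)) (c (l 16127344) (l 16069504))) (a (c (l 16050824) (l 15986480)) (c (l 16060760) (l 15996488)))) (b (a (c (l 16141608) (l 16084320)) (c (l 16158232) (l 16101752))) (a (c (l 16073360) (l 16009400)) (c (l 16088432) (l 16025056))))))), by decide +kernel⟩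

def k7_pm_022 : ∃ t, chk3 f_pm_022 t 14 5 1 = true :=
  ⟨(b (b (a (b (a (b (a (c (b (l 16011136) (l 16010088)) (b (l 15946432) (l 15945808))) (c (l 16004560) (l 15938888))) (a (c (l 16023512) (l 15962920)) (c (l 16028064) (l 15943184)))) (b (c (l 16000432) (l 15933600)) (a (b (c (l 16012928) (l 15924680)) (c (l 15996120) (l 15930312))) (b (l 15974936) (c (a (l 15985744) (l 15981600)) (b (l 15914560) (l 15915704))))))) (a (c (l 16044752) (l 15990360)) (c (b (l 16003776) (l 16023952)) (a (l 15962272) (l 15944184))))) (b (a (c (a (l 15991600) (l 15991712)) (a (l 15923280) (l 15922896))) (c (l 15993912) (l 15924640))) (a (b (a (c (b (b (l 15976216) (l 15978952)) (l 15986864)) (b (b (l 15906488) (l 15910096)) (l 15920064))) (b (c (l 15971960) (l 15901184)) (c (a (l 15976280) (l 15969896)) (l 15924200)))) (c (l 15995392) (l 15931056))) (b (a (a (b (l 15936016) (c (l 15986912) (l 15894280))) (c (l 15968280) (l 15896472))) (c (l 15969000) (l 15896800))) (a (c (l 15974984) (l 15905944)) (b (a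 (c (b (l 15959504) (l 15962520)) (l 15888720)) (c (l 15979416) (l 15885152))) (c (l 15967288) (l 15896528)))))))) (a (a (b (c (l 16083088) (l 16038968)) (l 16104024)) (b (c (l 16053752) (l 16003536)) (c (l 16093112) (l 16053328)))) (b (a (c (l 16026144) (l 15969816)) (c (b (l 15989576) (l 16010520)) (b (l 15924432) (l 15950776)))) (a (c (l 16066840) (l 16021160)) (c (l 16041904) (l 15990272)))))) (c (a (b (a (l 16177720) (l 16151960)) (l 16261352)) (b (a (l 16127568) (l 16104280)) (a (l 16206800) (l 16185568)))) (a (b (a (l 16159040) (l 16127800)) (l 16239376)) (b (a (l 16097824) (l 16068848)) (l 16163896))))), by decide +kernel⟩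

def k8_pm_022 : ∃ t, chk3 f_pm_022 t 15 10 2 = true :=
  ⟨(b (a (a (b (l 15999552) (b (l 15973000) (a (b (l 15958352) (b (a (l 15955488) (l 15952928)) (l 15957248))) (c (l 15975568) (l 15939104))))) (b (l 16008136) (l 15971688))) (a (b (l 16019480) (l 15982184)) (b (l 16033376) (l 15995304)))) (a (b (a (a (l 16002408) (a (l 15972392) (b (c (l 15973872) (l 15937776)) (l 15977256)))) (b (a (b (b (l 15948952) (a (l 15947592) (l 15945800))) (l 15952256)) (b (l 15950568) (b (l 15965736) (a (l 15946472) (l 15942648))))) (a (l 15968640) (l 15957440)))) (a (l 16018232) (b (l 15984888) (l 16006712)))) (b (a (b (a (l 15950944) (l 15956376)) (a (b (b (a (l 15941744) (l 15940768)) (l 15943840)) (l 15952120)) (b (a (l 15941432) (l 15943296)) (b (a (l 15941408) (l 15938448)) (l 15944424))))) (a (b (l 15962648) (b (l 15947952) (b (l 15940784) (a (l 15937920) (l 15937816))))) (l 15959672))) (a (a (l 15979824) (l 15990536)) (b (a (c (l 15967120) (l 15929376)) (b (b (l 15938336) (a (l 15938240) (l 15936232)))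 (l 15944304))) (l 15966008)))))), by decide +kernel⟩

def k9_pm_022 : ∃ t, chk3 f_pm_022 t 15 10 3 = true :=
  ⟨(b (a (a (b (l 15929896) (b (l 15900472) (b (l 15907096) (a (b (a (l 15881776) (l 15878408)) (l 15884040)) (a (l 15877648) (l 15877640)))))) (b (l 15938360) (l 15897912))) (a (b (l 15949840) (l 15908416)) (b (l 15964152) (l 15921840)))) (a (b (a (b (a (l 15900968) (b (a (l 15882768) (l 15918072)) (l 15892536))) (l 15920264)) (b (a (b (a (b (l 15872008) (l 15871864)) (l 15871712)) (l 15877704)) (b (l 15874112) (b (l 15888736) (a (l 15870344) (l 15865328))))) (a (l 15898248) (l 15884008)))) (a (l 15960616) (b (l 15918496) (l 15945840)))) (b (a (b (a (l 15873968) (l 15879368)) (a (b (b (a (l 15864104) (l 15862488)) (l 15866680)) (l 15877056)) (b (a (l 15862952) (l 15864608)) (b (a (l 15863392) (l 15859368)) (l 15867072))))) (a (b (l 15885744) (b (l 15869336) (a (b (l 15859696) (l 15858536)) (l 15860536)))) (l 15881792))) (a (a (l 15911696) (l 15898464)) (b (b (a (a (l 15867720)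 (l 15861472)) (a (b (l 15856520) (l 15858488)) (l 15878624))) (l 15872192)) (l 15893272)))))), by decide +kernel⟩

def k10_pm_022 : ∃ t, chk3 f_pm_022 t 15 11 1 = true :=
  ⟨(a (b (a (c (l 16082080) (l 16040864)) (b (c (l 16039320) (l 15986728)) (l 16061552))) (b (a (l 16131976) (l 16109280)) (a (l 16177952) (l 16156064)))) (b (b (a (c (l 16018912) (l 15960416)) (c (l 15999640) (l 15935280))) (a (c (l 16062672) (l 16015296)) (c (l 16044008) (l 15990808)))) (b (a (l 16087456) (l 16066528)) (a (l 16134912) (l 16114536))))), by decide +kernel⟩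

def k11_pm_022 : ∃ t, chk3 f_pm_022 t 3 6 1 = true :=
  ⟨(a (a (b (a (b (b (l 16458904) (l 16442064)) (b (l 16414592) (l 16396016))) (b (c (l 16455448) (l 16497448)) (c (l 16504744) (l 16547224)))) (a (b (a (l 16341800) (l 16357304)) (c (l 16423152) (a (l 16413784) (l 16420384)))) (b (c (l 16547440) (l 16404600)) (a (l 16274512) (l 16291208))))) (b (a (b (a (l 16349792) (l 16344112)) (c (l 16459840) (l 16512544))) (b (c (l 16356024) (l 16383656)) (a (l 16325416) (l 16303880)))) (a (b (c (l 16509176) (l 16475280)) (c (l 16529256) (l 16316960))) (b (c (l 16473248) (l 16538080)) (c (l 16518784) (l 16351744)))))) (a (b (b (a (c (l 16312808) (l 16331936)) (c (l 16272784) (l 16282472))) (a (a (l 16282824) (l 16304136)) (c (l 16343312) (l 16373656)))) (a (b (b (l 16303552) (l 16376896)) (c (l 16486984) (l 16409856))) (b (a (l 16290888) (l 16271696)) (c (l 16453888) (l 16492656))))) (b (a (b (c (l 16235144) (l 16234544)) (c (l 16308056) (l 16328728))) (b (c (l 16220984) (a (l 16199680) (l 16177168)))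 (c (l 16274408) (l 16284552)))) (a (b (a (l 16273440) (l 16254216)) (c (l 16419856) (l 16481256))) (a (b (l 16256040) (l 16272376)) (b (l 16236944) (l 16231912))))))), by decide +kernel⟩

def k12_pm_022 : ∃ t, chk3 f_pm_022 t 3 14 1 = true :=
  ⟨(a (c (a (b (a (b (l 16488976) (c (l 16507752) (l 16437696))) (b (l 16488952) (a (l 16473928) (l 16467920)))) (a (l 16454040) (l 16451968))) (b (a (b (l 16488104) (l 16376088)) (b (l 16487752) (l 16452936))) (a (l 16449192) (l 16344496)))) (a (b (a (b (l 16387400) (a (l 16381000) (l 16351232))) (b (l 16386128) (b (l 16364208) (l 16315864)))) (a (c (l 16403240) (l 16392344)) (b (l 16376472) (l 16384976)))) (b (b (a (l 16386056) (l 16388808)) (a (a (l 16350224) (l 16345608)) (l 16279576))) (a (l 16237952) (b (l 16266096) (l 16351648)))))) (b (c (a (a (l 16407696) (l 16453416)) (a (l 16434408) (l 16419136))) (a (a (b (l 16397080) (l 16345040)) (b (l 16411360) (l 16333560))) (a (l 16255664) (l 16361728)))) (a (a (b (c (l 16426440) (b (l 16310912)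 (l 16314608))) (l 16239760)) (b (c (l 16396488) (b (l 16310984) (l 16304168))) (l 16246672))) (a (b (c (l 16373800) (b (l 16325224) (l 16304192))) (l 16280728)) (b (a (l 16227568) (l 16295616)) (l 16316832)))))), by decide +kernel⟩

def k13_pm_022 : ∃ t, chk3 f_pm_022 t 3 15 1 = true :=
  ⟨(b (c (a (a (a (b (l 16523152) (l 16417088)) (b (l 16504992) (l 16418800))) (a (l 16296360) (l 16253856))) (a (a (l 16228984) (l 16199864)) (a (l 16168984) (l 16185376)))) (a (a (a (a (l 16430008) (l 16433792)) (b (l 16414192) (l 16463248))) (a (l 16290488) (l 16303832))) (a (a (l 16322880) (l 16307184)) (a (l 16316288) (l 16326568))))) (b (a (a (a (a (l 16306584) (l 16297024)) (a (l 16287488) (l 16277664))) (a (a (l 16267040) (l 16255528)) (a (l 16243032) (l 16229456)))) (a (a (a (l 16214736) (l 16198832)) (a (l 16160536) (l 16142616))) (a (a (l 16145440) (l 16127976)) (c (l 16180376) (l 16302680))))) (c (a (a (a (a (l 16373752) (l 16362784)) (a (l 16372864) (l 16361512))) (a (a (l 16349576) (l 16336912))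 (c (l 16302048) (l 16331608)))) (a (a (a (l 16293576) (l 16277152)) (a (l 16259704) (l 16242032))) (a (a (l 16225024) (l 16208712)) (l 16080944)))) (a (a (a (l 16348304) (l 16349808)) (a (l 16347664) (l 16361688))) (a (a (l 16328352) (l 16268712)) (a (l 16271488) (l 16235480))))))), by decide +kernel⟩

theorem s14_pm_022 : ∃ t, chk3 f_pm_022 t 3 7 1 = true := ex3_b k12_pm_022 k13_pm_022

theorem s15_pm_022 : ∃ t, chk3 f_pm_022 t 3 3 1 = true := ex3_b k11_pm_022 s14_pm_022

theorem s16_pm_022 : ∃ t, chk3 f_pm_022 t 15 10 1 = true := ex3_c k8_pm_022 k9_pm_022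

theorem s17_pm_022 : ∃ t, chk3 f_pm_022 t 15 5 1 = true := ex3_b s16_pm_022 k10_pm_022

theorem s18_pm_022 : ∃ t, chk3 f_pm_022 t 7 5 1 = true := ex3_a k7_pm_022 s17_pm_022

theorem s19_pm_022 : ∃ t, chk3 f_pm_022 t 7 2 1 = true := ex3_b k6_pm_022 s18_pm_022

theorem s20_pm_022 : ∃ t, chk3 f_pm_022 t 6 2 1 = true := ex3_b k4_pm_022 k5_pm_022

theorem s21_pm_022 : ∃ t, chk3 f_pm_022 t 3 2 1 = true := ex3_a s20_pm_022 s19_pm_022

theorem s22_pm_022 : ∃ t, chk3 f_pm_022 t 3 1 1 = true := ex3_b s21_pm_022 s15_pm_022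

theorem s23_pm_022 : ∃ t, chk3 f_pm_022 t 10 1 1 = true := ex3_a k1_pm_022 k2_pm_022

theorem s24_pm_022 : ∃ t, chk3 f_pm_022 t 5 1 1 = true := ex3_a s23_pm_022 k3_pm_022

theorem s25_pm_022 : ∃ t, chk3 f_pm_022 t 2 1 1 = true := ex3_a k0_pm_022 s24_pm_022

theorem s26_pm_022 : ∃ t, chk3 f_pm_022 t 1 1 1 = true := ex3_a s25_pm_022 s22_pm_022

theorem c_pm_022 : CertB 0 536870912 0 536870912 923417968 42949674 3 eng mog cd0q0 cd0q2 pd2 true true false .pp 0 2 2
    ndB0q0 ndB0q2 pcB2 cut_pm_022 Ext.none :=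
  certB2 (fam := true) (s1 := true) (s2 := false) (a := 0) (b := 2) (c := 2) (cn := .pp) (n1 := ndB0q0) (n2 := ndB0q2) (pc := pcB2) (cut := cut_pm_022) (xt := Ext.none) (P1 := 0) (W1 := 536870912) (P2 := 0) (W2 := 536870912) (P3 := 923417968) (W3 := 42949674) (N0 := 3) (En := eng) (mo := mog) (C1 := cd0q0) (C2 := cd0q2) (C3 := pd2)
    rfl (fun _ => rfl) s26_pm_022

noncomputable def cut_pm_023 : Cut := Cut.of [[⟨3, 0, 0, 1449551462⟩], [⟨4, 0, 0, 2845415833⟩]]

noncomputable def f_pm_023 : ℕ → ℕ → ℕ → ℕ → Bool := onCell 1610612736 536870912 0 536870912 923417968 42949674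
    (rowB 3 eng mog cd0q0 cd0q2 pd3 2 true true false .up 0 2 3 (qsf 0 536870912 0 536870912 3) ndB0q0 ndB0q2 pcB3 cut_pm_023 Ext.none)

def k0_pm_023 : ∃ t, chk3 f_pm_023 t 4 4 1 = true :=
  ⟨(b (a (a (c (c (l 16596456) (a (l 16523144) (l 16547216))) (a (b (l 16349560) (l 16327392)) (b (l 16381056) (l 16360504)))) (a (c (l 16451360) (b (l 16411728) (l 16392848))) (c (b (l 16627048) (l 16608280)) (b (l 16420744) (l 16403784))))) (b (a (a (c (l 16645728) (l 16450448)) (l 14)) (l 14)) (a (c (a (l 16627536) (l 16645392)) (a (l 16434848) (l 16485480))) (a (c (l 16661120) (l 16512768)) (l 14))))) (a (a (c (c (l 16566456) (a (l 16473568) (l 16499992))) (a (b (l 16286232) (l 16226128)) (b (l 16320944) (l 16283336)))) (a (c (l 16436512) (b (l 16354968) (l 16318952))) (c (l 16458016) (b (l 16388528) (l 16354120))))) (a (a (c (l 16498984) (b (l 16421064) (l 16409144))) (c (l 16538248) (b (l 16472984) (l 16440792)))) (c (a (l 16574928) (l 16588432)) (a (a (l 16374000) (l 16408752)) (a (l 16421952)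 (l 16434576))))))), by decide +kernel⟩

def k1_pm_023 : ∃ t, chk3 f_pm_023 t 4 5 1 = true :=
  ⟨(a (c (b (a (b (l 16314960) (a (l 16309272) (l 16375272))) (b (l 16382928) (l 16390120))) (a (b (l 16257736) (l 16494256)) (b (b (l 16382376) (l 16528584)) (l 16529544)))) (b (a (b (a (l 16168088) (l 16226640)) (b (a (l 16246272) (l 16284760)) (a (b (l 16192552) (l 16237960)) (l 16080832)))) (a (b (l 16284672) (l 16231128)) (b (l 16321248) (l 16289464)))) (a (b (a (l 16203984) (c (l 16346376) (l 16231056))) (l 16158576)) (b (b (a (l 16178496) (l 16207672)) (l 16209096)) (l 16178928))))) (b (a (c (b (l 16486168) (l 16492376)) (a (b (l 16377128) (l 16345848)) (b (l 16430320) (l 16399280)))) (c (c (l 16607880) (l 16565368)) (a (b (l 16459928) (l 16429000)) (b (l 16486992) (l 16456040))))) (c (a (b (b (l 16481200) (l 16497528)) (l 16556088)) (b (a (l 16580896) (l 16588464)) (c (l 16539328) (l 16548336)))) (a (b (a (b (l 16301904) (l 16325208)) (b (l 16397192) (l 16326336))) (c (l 16448432) (l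 16357696))) (b (a (b (l 16426864) (l 16349992)) (l 16424976)) (a (l 16300376) (b (l 16370000) (l 16445504)))))))), by decide +kernel⟩

def k2_pm_023 : ∃ t, chk3 f_pm_023 t 5 2 1 = true :=
  ⟨(a (b (b (l 14) (a (c (a (l 16599888) (l 16588520)) (c (a (l 16561192) (l 16580272)) (a (l 16468224) (l 16472280)))) (l 2))) (a (b (c (c (l 16613184) (l 16572080)) (c (b (l 16531712) (l 16525832)) (b (l 16449800) (l 16477320)))) (a (b (c (l 16587176) (l 16449448)) (b (c (l 16566584) (l 16387104)) (l 2))) (l 2))) (l 2))) (l 2)), by decide +kernel⟩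

def k3_pm_023 : ∃ t, chk3 f_pm_023 t 2 3 1 = true :=
  ⟨(a (b (a (b (c (a (l 16397304) (l 16445264)) (a (b (l 16310992) (l 16420808)) (b (l 16369408) (l 16451440)))) (a (c (b (l 16502064) (l 16451168)) (b (l 16463352) (l 16463320))) (c (b (l 16475048) (l 16422824)) (b (l 16484128) (l 16436096))))) (b (c (a (b (l 16536824) (l 16499888)) (b (l 16526992) (l 16488216))) (a (c (l 16484624) (l 16343448)) (b (l 16420336) (l 16486640)))) (b (a (c (l 16455448) (l 16494112)) (c (l 16442208) (l 16481400))) (a (c (l 16401808) (l 16416000)) (l 2))))) (b (a (b (a (c (l 16389440) (l 16366400)) (c (l 16318144) (l 16277584))) (a (c (b (l 16291384) (l 16286264)) (b (l 16282472) (l 16224480))) (c (b (l 16303400) (l 16257808)) (b (l 16257928) (l 16199384))))) (b (a (c (l 16337544) (l 16279320)) (l 2)) (l 2))) (a (b (a (b (l 16199200) (c (l 16169880) (l 16104456))) (b (l 16172880) (l 2))) (a (b (a (l 16083576) (l 16069656)) (a (l 16104200) (l 2))) (l 2))) (l 2)))) (b (l 2) (l 2))), by decide +kernel⟩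

def k4_pm_023 : ∃ t, chk3 f_pm_023 t 3 1 1 = true :=
  ⟨(l 2), by decide +kernel⟩

theorem s5_pm_023 : ∃ t, chk3 f_pm_023 t 4 2 1 = true := ex3_b k0_pm_023 k1_pm_023

theorem s6_pm_023 : ∃ t, chk3 f_pm_023 t 2 2 1 = true := ex3_a s5_pm_023 k2_pm_023

theorem s7_pm_023 : ∃ t, chk3 f_pm_023 t 2 1 1 = true := ex3_b s6_pm_023 k3_pm_023

theorem s8_pm_023 : ∃ t, chk3 f_pm_023 t 1 1 1 = true := ex3_a s7_pm_023 k4_pm_023

theorem c_pm_023 : CertB 0 536870912 0 536870912 923417968 42949674 3 eng mog cd0q0 cd0q2 pd3 true true false .up 0 2 3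
    ndB0q0 ndB0q2 pcB3 cut_pm_023 Ext.none :=
  certB2 (fam := true) (s1 := true) (s2 := false) (a := 0) (b := 2) (c := 3) (cn := .up) (n1 := ndB0q0) (n2 := ndB0q2) (pc := pcB3) (cut := cut_pm_023) (xt := Ext.none) (P1 := 0) (W1 := 536870912) (P2 := 0) (W2 := 536870912) (P3 := 923417968) (W3 := 42949674) (N0 := 3) (En := eng) (mo := mog) (C1 := cd0q0) (C2 := cd0q2) (C3 := pd3)
    rfl (fun _ => rfl) s8_pm_023

noncomputable def cut_pm_101 : Cut := Cut.of [[⟨3, 0, 0, 1449551462⟩], [⟨4, 0, 0, 2845415833⟩], [⟨0, 1, 0, 67108864⟩, ⟨1, 0, 0, 67108864⟩, ⟨2, 1, 0, 67108864⟩]]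

noncomputable def f_pm_101 : ℕ → ℕ → ℕ → ℕ → Bool := onCell 536870912 536870912 536870912 536870912 923417968 42949674
    (rowB 3 eng mog cd0q1 cd0q0 pd1 1 true true false .npn 1 0 1 (qsf 536870912 536870912 0 536870912 1) ndB0q1 ndB0q0 pcB1 cut_pm_101 Ext.none)

def k0_pm_101 : ∃ t, chk3 f_pm_101 t 1 1 1 = true :=
  ⟨(l 6), by decide +kernel⟩

theorem c_pm_101 : CertB 536870912 536870912 0 536870912 923417968 42949674 3 eng mog cd0q1 cd0q0 pd1 true true false .npn 1 0 1
    ndB0q1 ndB0q0 pcB1 cut_pm_101 Ext.none :=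
  certB1 (fam := true) (s1 := true) (s2 := false) (a := 1) (b := 0) (c := 1) (cn := .npn) (n1 := ndB0q1) (n2 := ndB0q0) (pc := pcB1) (cut := cut_pm_101) (xt := Ext.none) (P1 := 536870912) (W1 := 536870912) (P2 := 0) (W2 := 536870912) (P3 := 923417968) (W3 := 42949674) (N0 := 3) (En := eng) (mo := mog) (C1 := cd0q1) (C2 := cd0q0) (C3 := pd1)
    rfl (fun _ => rfl) k0_pm_101

noncomputable def cut_pm_102 : Cut := Cut.of [[⟨3, 0, 0, 1449551462⟩], [⟨4, 0, 0, 2845415833⟩], [⟨0, 1, 0, 67108864⟩, ⟨1, 0, 0, 67108864⟩, ⟨2, 1, 0, 67108864⟩]]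

noncomputable def f_pm_102 : ℕ → ℕ → ℕ → ℕ → Bool := onCell 536870912 536870912 0 536870912 923417968 42949674
    (rowB 3 eng mog cd0q1 cd0q0 pd2 0 true true false .npp 1 0 2 (qsf 536870912 536870912 0 536870912 2) ndB0q1 ndB0q0 pcB2 cut_pm_102 Ext.none)

def k0_pm_102 : ∃ t, chk3 f_pm_102 t 2 1 1 = true :=
  ⟨(l 6), by decide +kernel⟩

def k1_pm_102 : ∃ t, chk3 f_pm_102 t 3 2 1 = true :=
  ⟨(a (l 6) (b (l 6) (a (l 6) (b (l 6) (a (l 6) (b (l 6) (a (l 6) (c (b (a (l 6) (l 16405136)) (l 16338688)) (b (l 16443720) (l 16432744)))))))))), by decide +kernel⟩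

def k2_pm_102 : ∃ t, chk3 f_pm_102 t 6 3 1 = true :=
  ⟨(b (l 6) (a (l 6) (b (a (l 6) (b (l 6) (a (l 6) (b (l 6) (l 16494056))))) (a (b (l 6) (a (l 16478352) (l 16453272))) (b (c (l 16476000) (l 16432904)) (a (l 16449112) (l 16423120))))))), by decide +kernel⟩

def k3_pm_102 : ∃ t, chk3 f_pm_102 t 7 6 1 = true :=
  ⟨(a (b (l 6) (a (l 6) (b (a (l 6) (b (l 6) (l 16434016))) (c (a (l 16493080) (l 16456832)) (c (l 16408792) (l 16422560)))))) (b (a (b (a (l 6) (a (l 6) (b (l 6) (l 16385088)))) (c (a (l 16462008) (l 16376104)) (a (l 16475760) (l 16438384)))) (b (c (a (b (l 16429448) (l 16416408)) (b (l 16347248) (l 16356360))) (a (l 16406608) (l 16333192))) (c (a (b (l 16403368) (l 16389920)) (b (l 16365392) (l 16352976))) (a (l 16382264) (c (l 16400920) (l 16432192)))))) (a (b (c (a (l 16451376) (l 16367248)) (a (l 16465040) (l 16408624))) (c (a (l 16417408) (l 16376768)) (c (l 16381592) (l 16381232)))) (c (b (a (l 16284896) (b (l 16339976) (l 16326256))) (a (l 16275048) (b (l 16311696)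 (l 16296216)))) (b (a (l 16417456) (l 16348672)) (a (l 16385384) (l 16360320))))))), by decide +kernel⟩

def k4_pm_102 : ∃ t, chk3 f_pm_102 t 7 7 1 = true :=
  ⟨(a (b (a (a (b (b (l 6) (l 16511784)) (b (l 16488568) (l 16465880))) (b (c (l 16486472) (l 16500664)) (l 16364336))) (b (c (a (l 16453464) (l 16418488)) (l 16352904)) (c (l 16268992) (l 16349904)))) (a (b (c (l 16418008) (l 16423192)) (c (l 16381888) (l 16384216))) (b (a (l 16335080) (l 16262624)) (c (l 16321072) (l 16331880))))) (b (a (c (b (a (l 16380368) (l 16341056)) (a (l 16340768) (l 16302600))) (b (a (l 16410912) (l 16357440)) (a (l 16367472) (l 16335992)))) (c (b (a (l 16261688) (b (l 16279776) (l 16262336))) (a (l 16224392) (b (l 16244000) (l 16225856)))) (b (a (l 16306408) (l 16324712)) (a (l 16265024) (l 16284400))))) (a (c (b (a (l 16303008) (l 16265776)) (a (l 16269472) (l 16232928))) (b (l 16184264) (l 16168096))) (c (b (a (l 16230440) (b (l 16208512) (l 16191936))) (a (l 16198264) (l 16147656))) (b (a (l 16266520)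 (l 16202712)) (a (l 16229912) (l 16208384))))))), by decide +kernel⟩

theorem s5_pm_102 : ∃ t, chk3 f_pm_102 t 7 3 1 = true := ex3_b k3_pm_102 k4_pm_102

theorem s6_pm_102 : ∃ t, chk3 f_pm_102 t 3 3 1 = true := ex3_a k2_pm_102 s5_pm_102

theorem s7_pm_102 : ∃ t, chk3 f_pm_102 t 3 1 1 = true := ex3_b k1_pm_102 s6_pm_102

theorem s8_pm_102 : ∃ t, chk3 f_pm_102 t 1 1 1 = true := ex3_a k0_pm_102 s7_pm_102

theorem c_pm_102 : CertB 536870912 536870912 0 536870912 923417968 42949674 3 eng mog cd0q1 cd0q0 pd2 true true false .npp 1 0 2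
    ndB0q1 ndB0q0 pcB2 cut_pm_102 Ext.none :=
  certB0 (fam := true) (s1 := true) (s2 := false) (a := 1) (b := 0) (c := 2) (cn := .npp) (n1 := ndB0q1) (n2 := ndB0q0) (pc := pcB2) (cut := cut_pm_102) (xt := Ext.none) (P1 := 536870912) (W1 := 536870912) (P2 := 0) (W2 := 536870912) (P3 := 923417968) (W3 := 42949674) (N0 := 3) (En := eng) (mo := mog) (C1 := cd0q1) (C2 := cd0q0) (C3 := pd2)
    rfl s8_pm_102

noncomputable def cut_pm_112 : Cut := Cut.of [[⟨3, 0, 0, 1449551462⟩], [⟨4, 0, 0, 2845415833⟩]]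

noncomputable def f_pm_112 : ℕ → ℕ → ℕ → ℕ → Bool := onCell 536870912 536870912 536870912 536870912 923417968 42949674
    (rowB 3 eng mog cd0q1 cd0q1 pd2 0 true true false .dn 1 1 2 (qsf 536870912 536870912 536870912 536870912 2) ndB0q1 ndB0q1 pcB2 cut_pm_112 Ext.none)

def k0_pm_112 : ∃ t, chk3 f_pm_112 t 2 1 1 = true :=
  ⟨(b (a (b (l 6) (b (l 6) (a (l 6) (b (a (l 6) (l 16555784)) (a (l 16536904) (l 16500512)))))) (b (a (l 6) (b (l 6) (a (b (l 6) (l 16555784)) (b (l 16536904) (l 16500512))))) (b (a (a (b (l 6) (l 16566192)) (b (l 16566192) (l 16525720))) (b (a (l 16518600) (l 16465016)) (a (l 16480032) (l 16428552)))) (a (a (b (l 16518600) (l 16465016)) (b (l 16480032) (l 16428552))) (b (a (l 16436672) (l 16387968)) (a (l 16387968) (l 16342784))))))) (b (a (b (a (b (a (l 6) (l 16517000)) (a (b (l 16513672) (l 16466920)) (l 16464696))) (b (a (l 16481048) (l 16446064)) (a (l 16429936) (l 16396280)))) (a (b (a (c (l 16455112) (l 16446584)) (c (l 16421216) (l 16410992))) (a (c (l 16404328)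 (l 16398728)) (l 16346408))) (b (a (l 16445104) (l 16370704)) (a (l 16313640) (l 16366056))))) (b (a (b (a (l 16412240) (l 16377936)) (a (l 16364040) (l 16331872))) (b (a (l 16340344) (l 16299160)) (a (l 16297392) (l 16260584)))) (a (a (b (l 16318984) (l 16336568)) (b (l 16288912) (l 16287472))) (b (a (l 16257648) (l 2)) (l 2))))) (a (b (a (b (a (c (l 16349264) (l 16348936)) (c (l 16317928) (l 16314368))) (c (a (l 16289624) (l 16259272)) (a (l 16297088) (l 16262616)))) (b (a (l 16262416) (l 16294576)) (c (a (l 16230088) (l 16202728)) (a (l 16228352) (l 16194872))))) (a (b (c (a (b (l 16238808) (l 16202736)) (l 16128064)) (a (l 16175488) (l 16182704))) (c (a (b (l 16168504) (l 16139264)) (b (l 16139288) (l 2))) (a (b (l 16195400) (l 16173832)) (l 16022376)))) (a (b (b (l 16180944) (l 2)) (l 2)) (l 2)))) (b (a (b (a (l 16307976) (l 2)) (l 2)) (l 2)) (l 2))))), by decide +kernel⟩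

def k1_pm_112 : ∃ t, chk3 f_pm_112 t 3 1 1 = true :=
  ⟨(b (a (b (a (b (a (b (l 6) (l 16517000)) (b (a (l 16513672) (l 16466920)) (l 16464696))) (a (b (l 16481048) (l 16446064)) (b (l 16429936) (l 16396280)))) (b (a (b (c (l 16455112) (l 16446584)) (c (l 16421216) (l 16410992))) (b (c (l 16404328) (l 16398728)) (l 16346408))) (a (b (l 16445104) (l 16370704)) (b (l 16313640) (l 16366056))))) (a (b (a (b (l 16412240) (l 16377936)) (b (l 16364040) (l 16331872))) (a (b (l 16340344) (l 16299160)) (b (l 16297392) (l 16260584)))) (b (a (b (l 16318984) (l 16288912)) (b (l 16336568) (l 16287472))) (a (b (l 16257648) (l 2)) (l 2))))) (b (a (b (a (c (b (l 16349264) (l 16317928)) (b (l 16348936) (l 16314368))) (b (c (l 16289624) (l 16297088)) (c (l 16259272) (l 16262616)))) (a (b (l 16262416) (l 16294576)) (b (c (l 16230088) (l 16228352)) (c (l 16202728) (l 16194872))))) (b (a (c (b (a (l 16238808) (l 16202736)) (l 16128064)) (b (l 16175488) (l 16182704))) (c (b (a (l 16168504) (l 16139264)) (a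 (l 16139288) (l 2))) (b (a (l 16195400) (l 16173832)) (l 16022376)))) (a (a (b (l 16180944) (l 2)) (l 2)) (l 2)))) (a (b (a (b (l 16307976) (l 2)) (l 2)) (l 2)) (l 2)))) (a (b (b (a (b (l 51639621255) (l 2)) (l 2)) (l 2)) (l 2)) (l 2))), by decide +kernel⟩

theorem s2_pm_112 : ∃ t, chk3 f_pm_112 t 1 1 1 = true := ex3_a k0_pm_112 k1_pm_112

theorem c_pm_112 : CertB 536870912 536870912 536870912 536870912 923417968 42949674 3 eng mog cd0q1 cd0q1 pd2 true true false .dn 1 1 2
    ndB0q1 ndB0q1 pcB2 cut_pm_112 Ext.none :=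
  certB0 (fam := true) (s1 := true) (s2 := false) (a := 1) (b := 1) (c := 2) (cn := .dn) (n1 := ndB0q1) (n2 := ndB0q1) (pc := pcB2) (cut := cut_pm_112) (xt := Ext.none) (P1 := 536870912) (W1 := 536870912) (P2 := 536870912) (W2 := 536870912) (P3 := 923417968) (W3 := 42949674) (N0 := 3) (En := eng) (mo := mog) (C1 := cd0q1) (C2 := cd0q1) (C3 := pd2)
    rfl s2_pm_112

noncomputable def cut_pm_113 : Cut := Cut.of [[⟨3, 0, 0, 1449551462⟩], [⟨4, 0, 0, 2845415833⟩], [⟨0, 1, 0, 67108864⟩, ⟨1, 1, 0, 67108864⟩, ⟨2, 2, 0, 16252928⟩], [⟨0, 0, 1, 20971520⟩, ⟨1, 1, 0, 8388608⟩, ⟨2, 1, 1, 20971520⟩], [⟨0, 1, 0, 8388608⟩, ⟨1, 0, 1, 20971520⟩, ⟨2, 1, 1, 20971520⟩]]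

noncomputable def xt_pm_113 : Ext := extD2 3 ⟨4, 1, 1, 5, 17, 5, 87, 100, 43, 100, 1, 8⟩ eng cd0q1 cd0q1 pd3 true true false .nn 1 1 3 rfl ndB0q1 ndB0q1 pcB3

noncomputable def f_pm_113 : ℕ → ℕ → ℕ → ℕ → Bool := onCell 536870912 536870912 536870912 536870912 923417968 42949674
    (rowB 3 eng mog cd0q1 cd0q1 pd3 0 true true false .nn 1 1 3 (qsf 536870912 536870912 536870912 536870912 3) ndB0q1 ndB0q1 pcB3 cut_pm_113 xt_pm_113)

def k0_pm_113 : ∃ t, chk3 f_pm_113 t 2 2 1 = true :=
  ⟨(a (l 1) (b (l 1) (b (l 1) (a (l 1) (b (l 1) (a (l 1) (l 16342784))))))), by decide +kernel⟩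

def k1_pm_113 : ∃ t, chk3 f_pm_113 t 2 6 1 = true :=
  ⟨(a (b (l 1) (a (l 1) (b (l 1) (a (l 1) (b (l 1) (l 16214904)))))) (b (a (b (l 1) (a (l 1) (l 16313680))) (b (a (l 16336200) (l 16298072)) (a (l 16287088) (l 16255888)))) (a (b (a (l 41371912583) (l 16257616)) (a (b (a (l 16228408) (l 16221760)) (a (l 16200368) (l 16191904))) (b (l 16212992) (c (l 16201376) (l 16164720))))) (b (a (l 16237888) (l 16214664)) (a (b (l 16199144) (l 16171344)) (l 16234352)))))), by decide +kernel⟩

def k2_pm_113 : ∃ t, chk3 f_pm_113 t 2 7 1 = true :=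
  ⟨(a (b (a (b (l 1) (a (l 1) (b (l 1) (l 16131632)))) (b (a (c (l 16209032) (l 16176896)) (c (l 16189824) (l 16154520))) (a (b (l 16144248) (l 16108992)) (b (l 16125512) (l 16091536))))) (a (b (a (b (l 1) (c (l 16100864) (l 16049464))) (b (l 16196336) (c (l 16075360) (l 16022688)))) (a (b (c (l 16062800) (l 16003968)) (c (l 16050576) (l 15963008))) (b (c (l 16037736) (l 15978208)) (c (l 16004792) (l 15938232))))) (b (a (b (l 16069856) (c (l 16055544) (l 16001168))) (b (l 16053552) (c (l 16041536) (l 15984736)))) (a (b (c (l 16018384) (l 15957728)) (c (l 15985664) (l 15918736))) (b (c (l 16004936) (l 15942416)) (c (l 15972528) (l 15904448))))))) (b (a (b (a (c (l 16175752) (l 16136616)) (c (l 16165664) (l 16121416))) (a (b (l 16111960) (l 16079512)) (b (l 16102512) (l 16072096)))) (b (a (b (a (l 16146480) (l 16141480)) (l 16120280)) (b (a (l 16137424) (l 16134816)) (a (l 16114528) (l 16113088)))) (a (b (l 16095856) (l 16068488)) (b (c (l 16128632) (l 16058848)) (c (l 16108472) (l 16033368))))))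 (a (b (a (c (b (l 16070512) (l 16033904)) (l 16078472)) (b (l 16037408) (c (l 16032768) (l 15967392)))) (a (b (c (l 15998096) (l 15932656)) (c (l 15966184) (l 15895832))) (b (c (l 15998288) (l 15928008)) (c (l 15967384) (l 15892672))))) (b (a (b (l 16120640) (c (l 16039000) (l 15965472))) (b (c (l 16083856) (l 16003592)) (c (l 16056344) (l 15971120)))) (a (b (c (l 16006984) (l 15928664)) (c (l 15978216) (l 15895664))) (b (c (l 16028768) (l 15938480)) (c (a (l 15995808) (l 16013920)) (a (l 15904528) (l 15915448))))))))), by decide +kernel⟩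

def k3_pm_113 : ∃ t, chk3 f_pm_113 t 6 2 1 = true :=
  ⟨(b (a (l 1) (b (l 1) (a (l 1) (b (l 1) (a (l 1) (l 16214904)))))) (a (b (a (l 1) (b (l 1) (l 16313680))) (a (b (l 16336200) (l 16298072)) (b (l 16287088) (l 16255888)))) (b (a (b (l 26876397959) (l 16257616)) (b (a (b (l 16228408) (l 16221760)) (b (l 16200368) (l 16191904))) (a (l 16212992) (c (l 16201376) (l 16164720))))) (a (b (l 16237888) (l 16214664)) (b (a (l 16199144) (l 16171344)) (l 16234352)))))), by decide +kernel⟩

def k4_pm_113 : ∃ t, chk3 f_pm_113 t 7 2 1 = true :=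
  ⟨(b (a (b (a (l 1) (b (l 1) (a (l 1) (l 16131632)))) (a (b (c (l 16209032) (l 16176896)) (c (l 16189824) (l 16154520))) (b (a (l 16144248) (l 16108992)) (c (l 16131112) (l 16086712))))) (b (b (a (a (l 1) (c (l 16100864) (l 16049464))) (a (c (l 16062800) (l 16003968)) (c (l 16050576) (l 15963008)))) (a (a (l 16196336) (c (l 16075360) (l 16022688))) (a (c (l 16037736) (l 15978208)) (c (l 16004792) (l 15938232))))) (a (b (a (l 16069856) (c (l 16055544) (l 16001168))) (c (a (l 16079208) (l 16041536)) (l 16090192))) (b (a (c (l 16018384) (l 15957728)) (c (l 15985664) (l 15918736))) (c (a (l 16004936) (l 15972528)) (a (l 15942416) (l 15904448))))))) (a (b (a (c (b (l 16175752) (l 16165664)) (b (l 16136616) (l 16121416))) (b (c (l 16120376) (l 16072024)) (a (l 16102512) (l 16072096)))) (a (b (a (b (l 16146480) (l 16141480)) (l 16120280)) (a (b (l 16137424) (l 16134816)) (b (l 16114528) (l 16113088)))) (b (a (l 16095856) (l 16068488)) (a (c (l 16128632) (l 16058848)) (c (l 16108472) (l 16033368))))))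 (b (a (b (c (a (l 16070512) (l 16033904)) (l 16078472)) (a (l 16058376) (c (l 16032768) (l 15967392)))) (b (a (c (l 15998096) (l 15932656)) (c (l 15966184) (l 15895832))) (a (c (l 15998288) (l 15928008)) (c (l 15967384) (l 15892672))))) (a (b (a (c (l 16071208) (l 16002336)) (c (l 16039000) (l 15965472))) (a (c (l 16083856) (l 16003592)) (c (l 16056344) (l 15971120)))) (b (a (c (l 16006984) (l 15928664)) (c (b (l 15974376) (l 15983008)) (l 15895664))) (a (c (l 16028768) (l 15938480)) (c (b (l 15995808) (l 16013920)) (b (l 15904528) (l 15915448))))))))), by decide +kernel⟩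

def k5_pm_113 : ∃ t, chk3 f_pm_113 t 12 3 1 = true :=
  ⟨(b (b (b (a (l 16260312) (l 16225992)) (a (l 16225992) (l 16200576))) (b (a (l 16193840) (l 16178736)) (a (l 16161392) (l 16158656)))) (b (b (a (b (l 16135304) (a (l 16115176) (l 16120528))) (b (l 16143720) (l 16134072))) (a (b (a (l 16098368) (l 16189976)) (c (l 16129616) (l 16041472))) (b (a (a (l 16114608) (l 16142592)) (a (l 16129688) (l 16138800))) (a (l 16107792) (a (l 16123056) (l 16134936)))))) (b (a (b (c (l 16112064) (l 16018048)) (c (l 16112632) (l 15991952))) (b (c (a (l 16146904) (l 16177944)) (l 16051544)) (a (b (l 16082200) (l 16094824)) (c (l 16171408) (l 16049544))))) (a (b (c (a (l 16058176) (l 16085744)) (l 15965552)) (c (a (l 16059352) (b (l 16073712) (l 16067184))) (a (l 15931880) (l 15954664)))) (b (c (a (l 16120904) (a (l 16153128) (l 16177848))) (a (l 16001736) (l 16035392))) (b (c (a (l 16112952) (c (l 16196048) (l 16128712))) (a (l 15988632) (l 16026584))) (c (a (c (l 16140736) (l 16077536)) (c (a (l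 16181688) (l 138326429999169551)) (l 16127560))) (a (l 15981808) (l 16043560))))))))), by decide +kernel⟩

def k6_pm_113 : ∃ t, chk3 f_pm_113 t 13 6 1 = true :=
  ⟨(b (a (b (l 16193840) (l 16178736)) (b (l 16161392) (l 16158656))) (b (a (l 16168960) (l 16163584)) (a (l 16163584) (l 16176680)))), by decide +kernel⟩

def k7_pm_113 : ∃ t, chk3 f_pm_113 t 13 14 1 = true :=
  ⟨(b (a (b (l 16162224) (l 16226120)) (b (l 16192984) (l 16334024))) (a (b (a (l 16154496) (l 16179640)) (a (c (l 16255232) (l 16097624)) (c (b (l 16247464) (l 16254840)) (l 16147112)))) (b (c (l 16292488) (l 16163952)) (a (c (l 16454160) (l 16161368)) (c (l 16353160) (l 16204656)))))), by decide +kernel⟩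

def k8_pm_113 : ∃ t, chk3 f_pm_113 t 13 30 1 = true :=
  ⟨(a (b (c (a (l 16216552) (l 16264272)) (c (l 16142288) (l 16077032))) (c (a (c (l 16250856) (l 16185232)) (c (l 16312008) (l 16240312))) (a (l 16085480) (l 16215112)))) (b (b (a (c (l 16338008) (l 16172040)) (c (l 16532072) (l 16246776))) (c (a (l 16329568) (a (l 16386240) (l 16429808))) (a (l 16178856) (c (l 16282808) (l 16198600))))) (a (c (b (l 16342376) (l 16418736)) (c (l 16229560) (l 16148784))) (c (b (l 16555272) (a (l 16426272) (b (l 16474272) (l 16487968)))) (b (l 16255688) (a (l 16249888) (l 16294368))))))), by decide +kernel⟩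

def k9_pm_113 : ∃ t, chk3 f_pm_113 t 26 31 2 = true :=
  ⟨(b (a (b (l 16219736) (l 16263616)) (b (l 16349216) (b (l 16292096) (l 16422192)))) (b (a (a (l 16249752) (c (l 16280624) (l 16204688))) (a (b (l 16279984) (l 139983875203989519)) (c (b (l 16364984) (l 16371992)) (l 16284072)))) (a (a (c (b (l 16247200) (l 138702531770793999)) (l 16173704)) (c (b (l 16286184) (c (l 139391719526645775) (l 16270664))) (l 138632918857695247))) (b (a (c (l 139700819773259791) (l 16247632)) (c (a (l 140110456648974351) (l 140388701864247311)) (l 16292408))) (c (a (c (l 140280193737293839) (l 139443671460888591)) (a (c (b (l 140355372920487951) (l 140359908414783503)) (l 139863616259391503)) (b (a (l 140326098420170767) (l 140654233950633999)) (b (a (l 140331802143653903) (l 140484634289979407)) (c (a (l 140590668463931407) (l 140750853595742223)) (l 140158560316260367)))))) (a (l 138722666581639183) (a (l 139116429253787663) (b (l 139382648554110991) (a (l 139314959863726095) (l 139454254270480399)))))))))),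 by decide +kernel⟩

def k10_pm_113 : ∃ t, chk3 f_pm_113 t 27 62 2 = true :=
  ⟨(a (b (c (l 16412112) (l 16328288)) (a (l 16444936) (c (c (l 16480608) (l 16435760)) (l 16368064)))) (b (a (b (l 16442688) (l 16454288)) (c (l 16558048) (l 16461352))) (a (b (l 16571496) (b (l 16476512) (l 16525416))) (b (l 16659616) (a (l 16532368) (l 16591344)))))), by decide +kernel⟩

def k11_pm_113 : ∃ t, chk3 f_pm_113 t 27 63 4 = true :=
  ⟨(a (a (a (b (l 140650316941410319) (b (b (l 140676224207699983) (a (l 140613277162176527) (l 140770438636404751))) (b (c (a (l 140887330493480975) (l 141054181415829519)) (l 140450274542682127)) (c (a (b (l 140904853969420303) (l 140917292201148431)) (c (l 30) (l 140950277556125711))) (a (l 140389320362573839) (l 140552666590855183)))))) (b (b (l 16430408) (l 141680215807623183)) (b (b (l 140992471301898255) (c (l 141283292188557327) (l 140754220840386575))) (b (c (a (l 141226942214275087) (l 30)) (l 140960448002719759)) (c (l 30) (b (l 141342047266947087) (a (l 140729069524156431)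 (l 140905816052875279)))))))) (b (b (b (l 16472472) (l 16478688)) (b (l 16527184) (a (l 16475312) (l 16530560)))) (a (b (b (l 141335656436121615) (c (l 30) (l 141098849083736079))) (c (l 30) (b (a (l 141043461182144527) (l 141227079659814927)) (a (b (l 141070261788966927) (l 30)) (l 30))))) (b (b (l 141703786745036815) (a (l 141653346646540303) (l 30))) (l 30))))) (b (a (b (l 16586024) (b (l 16619608) (a (l 16567216) (l 16606456)))) (b (l 16643552) (b (l 16649032) (a (l 16627544) (l 16656608))))) (b (b (a (a (l 142279312439803919) (l 142884387515072527)) (b (a (l 142960391339229199) (l 16653368)) (l 30))) (l 30)) (l 30)))), by decide +kernel⟩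

def k12_pm_113 : ∃ t, chk3 f_pm_113 t 27 63 5 = true :=
  ⟨(a (b (a (b (l 16328304) (b (l 16333728) (l 16337616))) (b (l 16382040) (c (l 16437640) (l 16368504)))) (b (a (a (b (l 16328184) (l 16353176)) (b (l 16355744) (l 139952607998787599))) (a (b (l 16385616) (l 140272909542572047)) (b (l 16480504) (c (l 140902448787963919) (l 16398808))))) (a (a (b (l 139663642549764111) (c (l 139941338013237263) (l 139408830691590159))) (b (c (l 140241023702515727) (l 16341912)) (c (a (l 140180756717142031) (l 140347951236726799)) (l 139714769861935119)))) (a (b (c (l 140578573838204943) (l 140018510001127439)) (c (a (l 140701444258873359) (b (l 140692235880431631) (l 140710171671068687))) (a (l 139959411246874639) (l 140130316618776591)))) (b (c (a (l 140848229117476879) (l 141036520520318991)) (l 140363825438916623)) (c (a (c (l 30) (l 140743088306618383)) (b (l 141069849478447119) (l 30))) (a (l 140307750342164495) (b (l 140482160406167567) (l 140501814183886863))))))))) (b (a (b (l 16444448)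 (b (l 16454928) (c (l 16488128) (l 16436352)))) (b (l 16579056) (b (l 16613536) (a (l 16539816) (l 16581032))))) (b (b (a (a (l 140944917429501967) (l 141332907670421519)) (a (l 142651565790298127) (a (l 142085454805499919) (l 142319375949348879)))) (a (a (c (l 141282467568140303) (l 140693197947846671)) (c (l 30) (l 141082974895308815))) (l 30))) (a (a (c (b (a (l 141231958750068751) (l 30)) (l 30)) (c (b (l 140885475086155791) (a (l 141013499468349455) (l 30))) (b (l 140586132991016975) (a (l 140532806673793039) (l 140728863378800655))))) (b (a (c (l 30) (l 141033771747311631)) (l 30)) (l 30))) (l 30))))), by decide +kernel⟩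

def k13_pm_113 : ∃ t, chk3 f_pm_113 t 26 31 3 = true :=
  ⟨(b (a (a (l 16066816) (l 16091224)) (c (l 16173272) (l 16094368))) (a (b (l 16075408) (c (l 16113856) (l 16036320))) (b (a (l 16120912) (l 16198352)) (a (c (l 16166160) (l 16082256)) (b (l 16244816) (c (a (l 16198400) (c (l 16243520) (l 16198128))) (l 16119936))))))), by decide +kernel⟩

def k14_pm_113 : ∃ t, chk3 f_pm_113 t 27 62 3 = true :=
  ⟨(a (b (l 16221688) (a (l 16188896) (b (l 16228344) (l 16234048)))) (b (a (l 16368944) (a (l 16300936) (l 16348816))) (c (a (l 16328568) (c (l 16413992) (l 16362224))) (a (l 16230944) (l 16284088))))), by decide +kernel⟩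

def k15_pm_113 : ∃ t, chk3 f_pm_113 t 27 63 3 = true :=
  ⟨(c (a (b (a (a (l 16230752) (l 16253736)) (b (l 16287768) (l 16295992))) (a (b (c (l 16274336) (l 16227784)) (a (c (l 16268744) (l 16221896)) (c (l 139156286570020879) (l 16247680)))) (a (b (l 16290936) (c (b (l 16322808) (l 139474251654463503)) (l 16275360))) (b (c (l 16345272) (l 16294792)) (b (l 139669483688001551) (a (l 139430683501838351) (a (l 139557470960992271) (l 139644057518440463)))))))) (b (a (b (l 16344024) (b (l 16352480) (l 16358408))) (b (l 16408824) (b (l 16420000) (c (l 16455680) (l 16399880))))) (b (a (a (b (l 16348328) (l 139800600503222287)) (b (l 16381472) (l 140701650351882255))) (a (b (l 16480016) (a (l 140450274561720335) (l 140652653459603471))) (b (l 141087991387439119) (a (l 140863003818278927) (l 141261920422641679))))) (a (a (c (b (l 140135058263965711) (a (l 140080151398334479) (l 140268717678903311))) (b (l 16334016) (l 139561869012205583))) (c (b (a (l 140417976404344847) (l 140615888535486479))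 (a (b (l 140452679751876623) (l 140476800296288271)) (b (l 140654852491362319) (l 140862041722322959)))) (b (l 139890829204127759) (a (l 139837296728080399) (l 140030261055832079))))) (a (c (c (l 30) (b (l 140766452939620367) (b (l 140990890764107791) (l 30)))) (b (l 140641314684534799) (a (l 140411104434421775) (b (l 140425260682248207) (l 140454329029738511))))) (c (l 30) (a (b (l 140594241903050767) (c (l 30) (l 140488276457750543))) (b (l 140813800673198095) (l 30))))))))) (a (b (a (l 16151608) (l 16237648)) (a (b (l 16157776) (l 16184024)) (b (l 16205720) (c (c (l 16251736) (l 16226256)) (l 16188008))))) (b (a (c (l 16272760) (l 16221336)) (b (l 16300616) (l 16375600))) (b (a (c (l 16287952) (l 16234616)) (c (a (l 16336856) (l 16393608)) (l 16339064))) (a (a (b (l 16253992) (l 138816812279431183)) (c (b (l 16312736) (l 139296336910843919)) (l 16260216))) (a (c (b (l 16347304) (a (l 139577674502619151) (l 139774968158109711))) (b (l 16289928) (l 16296504))) (a (b (l 139589906569478159)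 (c (l 139980439432806415) (l 16323320))) (b (l 139971849459712015) (b (l 139833792043548687) (l 14)))))))))), by decide +kernel⟩

def k16_pm_113 : ∃ t, chk3 f_pm_113 t 14 6 1 = true :=
  ⟨(b (a (b (a (l 16135304) (b (l 16115176) (l 16120528))) (a (l 16143720) (l 16134072))) (b (a (b (l 16098368) (l 16189976)) (c (l 16129616) (l 16041472))) (a (b (b (l 16114608) (l 16142592)) (b (l 16129688) (l 16138800))) (b (l 16107792) (b (l 16123056) (l 16134936)))))) (a (b (a (l 16162224) (l 16226120)) (a (l 16192984) (l 16334024))) (b (a (b (l 16154496) (l 16179640)) (b (c (l 16255232) (l 16097624)) (c (a (l 16247464) (l 16254840)) (l 16147112)))) (a (c (l 16292488) (l 16163952)) (b (c (l 16454160) (l 16161368)) (c (l 16353160) (l 16204656))))))), by decide +kernel⟩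

def k17_pm_113 : ∃ t, chk3 f_pm_113 t 15 12 1 = true :=
  ⟨(a (b (a (c (l 16112064) (l 16018048)) (c (l 16112632) (l 15991952))) (a (c (b (l 16146904) (l 16177944)) (l 16051544)) (a (b (l 16082200) (l 16176352)) (c (l 16211976) (l 16030304))))) (b (a (c (b (l 16058176) (l 16085744)) (l 16007496)) (c (b (a (l 16042928) (l 16034248)) (a (l 16073712) (l 16067184))) (b (l 15931880) (l 15954664)))) (a (c (b (l 16120904) (b (l 16153128) (l 16177848))) (b (l 16001736) (l 16035392))) (a (c (b (l 16112952) (c (l 16196048) (l 16128712))) (b (l 15988632) (l 16026584))) (c (b (c (l 16140736) (l 16077536)) (c (b (l 16181688) (l 138326429999169567)) (l 16127560))) (b (l 15981808) (l 16043560))))))), by decide +kernel⟩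

def k18_pm_113 : ∃ t, chk3 f_pm_113 t 30 13 1 = true :=
  ⟨(b (a (c (b (l 16216552) (l 16264272)) (c (l 16142288) (l 16077032))) (c (b (c (l 16250856) (l 16185232)) (c (l 16312008) (l 16240312))) (b (l 16085480) (l 16215112)))) (a (a (b (c (l 16338008) (l 16172040)) (c (l 16532072) (l 16246776))) (c (b (l 16329568) (b (l 16386240) (l 16429808))) (b (l 16178856) (c (l 16282808) (l 16198600))))) (b (c (a (l 16342376) (l 16418736)) (c (l 16229560) (l 16148784))) (c (a (l 16555272) (a (l 16446824) (b (l 16431640) (l 16487968)))) (a (l 16255688) (b (l 16249888) (l 16294328))))))), by decide +kernel⟩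

def k19_pm_113 : ∃ t, chk3 f_pm_113 t 31 26 1 = true :=
  ⟨(c (a (b (a (l 16219736) (l 16263616)) (a (l 16349216) (b (l 16274440) (l 16315112)))) (a (b (b (l 16270720) (c (l 16280624) (l 16204688))) (a (b (l 16279984) (l 16344328)) (b (l 139983875203989535) (c (l 16371992) (l 16286728))))) (b (b (c (a (l 16247200) (l 138702531770794015)) (l 16173704)) (c (a (l 16286184) (c (l 139391719526645791) (l 16270664))) (l 138632918857695263))) (a (b (c (l 139700819773259807) (l 16247632)) (c (b (l 140110456648974367) (l 140388701864247327)) (l 16292408))) (c (b (c (l 140280193737293855) (l 139443671460888607)) (b (c (a (l 140355372920487967) (l 140359908414783519)) (l 139863616259391519)) (a (b (l 140326098420170783) (l 140654233950617631)) (a (b (l 140331802143653919) (l 140484634289979423)) (c (b (l 140590668463931423) (l 140750853595742239)) (l 140158560316260383)))))) (b (l 138722666581639199) (b (l 139116429253787679) (c (a (l 16332152) (l 139642339511222303)) (l 139576231277592607)))))))))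 (a (b (b (l 16066816) (l 16091224)) (c (l 16173272) (l 16094368))) (b (a (l 16075408) (c (l 16113856) (l 16036320))) (a (b (l 16120912) (l 16219328)) (b (c (l 16166160) (l 16082256)) (a (l 16265784) (c (b (l 16198400) (c (l 16243520) (l 16198128))) (l 16119936)))))))), by decide +kernel⟩

def k20_pm_113 : ∃ t, chk3 f_pm_113 t 62 27 1 = true :=
  ⟨(b (a (c (c (l 16412112) (l 16328288)) (l 16221688)) (b (c (l 16465912) (l 16188896)) (c (c (c (l 16480544) (l 16435704)) (l 16368008)) (a (l 16228344) (l 16234048))))) (c (a (b (a (l 16442688) (l 16454288)) (c (l 16558104) (l 16461400))) (b (a (l 16571496) (a (l 16476512) (l 16525416))) (a (l 16659616) (b (l 16532368) (l 16591344))))) (a (b (l 16368904) (b (l 16300936) (l 16348816))) (b (a (l 16275688) (l 16347120)) (c (c (l 16413992) (l 16362224)) (l 16284088)))))), by decide +kernel⟩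

def k21_pm_113 : ∃ t, chk3 f_pm_113 t 63 54 2 = true :=
  ⟨(a (a (b (l 140643513684934687) (c (a (l 16472472) (l 16478688)) (l 16382040))) (b (b (l 140516932355211295) (c (l 141680215807606815) (l 16348992))) (c (a (l 16569128) (b (l 16475312) (l 16530560))) (b (l 16377544) (l 16408280))))) (a (b (b (c (a (l 140676224207699999) (b (l 140613277162176543) (l 140770507355897887))) (a (l 16328184) (l 16374152))) (c (a (l 140992471301898271) (c (l 141283292188557343) (l 140754220840386591))) (a (l 16355744) (l 139952607998787615)))) (b (c (a (l 141335656436121631) (c (l 38) (l 141098849083736095))) (a (l 16385616) (l 140272909542572063))) (c (a (l 141703786745036831) (b (l 141653346646540319) (l 38))) (a (l 140584483703865375) (c (l 140902448787963935) (l 16398808)))))) (b (b (c (a (c (b (l 140887399212990495) (l 141054181415829535)) (l 140450274542682143)) (c (b (a (l 140904853969420319) (l 140917292201148447)) (c (l 38) (l 140950277556125727))) (b (l 140389320362573855) (l 140552666590855199))))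 (a (l 139663642549764127) (c (l 139941338013237279) (l 139408830691590175)))) (c (a (c (b (l 141226942214275103) (l 38)) (l 140960448002719775)) (c (l 38) (a (l 141342047266947103) (b (l 140729069524156447) (l 140905816052875295))))) (a (c (l 140241023702515743) (l 16341912)) (c (b (l 140180756717142047) (l 140347951236726815)) (l 139714769861935135))))) (b (c (c (l 38) (a (b (l 141043461182144543) (l 141227079659814943)) (b (a (l 141070261788966943) (l 38)) (l 38)))) (a (c (l 140578573838204959) (l 140018510001127455)) (c (b (l 140701444258873375) (a (l 140692235880431647) (l 140710171671068703))) (b (l 139959411246874655) (l 140130316618776607))))) (c (l 38) (a (c (b (l 140848229117476895) (l 141036520520319007)) (l 140363825438916639)) (c (b (c (l 38) (l 140743088306618399)) (a (l 141069849478447135) (l 38))) (b (l 140307750342164511) (a (l 140482160406167583) (l 140501814183886879)))))))))), by decide +kernel⟩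

def k22_pm_113 : ∃ t, chk3 f_pm_113 t 63 54 3 = true :=
  ⟨(c (a (a (b (l 16239424) (l 16287768)) (b (l 16244840) (l 16295992))) (b (a (c (l 16274336) (l 16227784)) (b (c (l 16268784) (l 16221936)) (c (l 139156286570020895) (l 16247680)))) (b (a (l 16290936) (c (a (l 16322808) (l 139474251654463519)) (l 16275360))) (a (c (l 16345272) (l 16294792)) (a (l 139669483688001567) (a (l 139508267804377119) (b (l 139436936977170463) (l 139607979787894815)))))))) (a (b (l 16151568) (c (l 16219832) (l 16171616))) (b (a (l 16157776) (l 16225968)) (a (l 16205720) (c (c (l 16272712) (l 16226256)) (l 16188008)))))), by decide +kernel⟩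

def k23_pm_113 : ∃ t, chk3 f_pm_113 t 63 110 1 = true :=
  ⟨(a (c (a (c (l 16627960) (l 16444448)) (b (c (a (l 16537936) (l 16588192)) (l 141245152801603615)) (c (a (l 16576120) (l 16627432)) (a (l 16472656) (l 16480464))))) (a (b (l 16279496) (l 16370952)) (c (a (l 16352480) (l 16358408)) (l 16251608)))) (b (c (a (c (a (l 142279312439803935) (l 38)) (a (l 140944917429501983) (c (l 141282467568140319) (l 140693197947846687)))) (c (l 38) (c (a (b (l 141231958750068767) (l 38)) (l 38)) (c (a (l 140885475086155807) (b (l 141013499468349471) (l 38))) (a (l 140586132991016991) (b (l 140532806673793055) (l 140728863378800671))))))) (c (a (a (l 16348328) (l 139800600503222303)) (c (a (l 140135058263965727) (b (l 140080151398334495) (l 140268717678903327))) (a (l 16334016) (l 139561869012205599)))) (a (l 16246640) (a (l 16253992) (l 138816812279431199))))) (c (a (c (a (l 142884387515072543) (l 38)) (a (l 141332907670421535) (c (l 38) (l 141082974895308831)))) (c (l 38) (a (b (c (l 38) (l 141033771747311647))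 (l 38)) (l 38)))) (c (a (a (l 16381472) (l 140701650351882271)) (c (a (b (l 140417976404344863) (l 140615888535486495)) (b (a (l 140452679751876639) (l 140476800296288287)) (a (l 140654852491362335) (l 140862041722322975)))) (a (l 139890829204127775) (b (l 139837296728080415) (l 140030261055832095))))) (a (l 16276536) (c (a (l 16312736) (l 139296336910843935)) (l 16260216))))))), by decide +kernel⟩

def k24_pm_113 : ∃ t, chk3 f_pm_113 t 63 111 1 = true :=
  ⟨(a (c (a (c (c (l 16649056) (l 16596056)) (c (l 16542840) (l 16489400))) (b (c (a (l 16617016) (l 16627544)) (a (l 16509984) (l 16539816))) (c (a (l 16660864) (l 16656608)) (a (l 16550056) (l 16602008))))) (c (a (l 16408824) (a (l 16420000) (c (l 16455680) (l 16399880)))) (a (l 16300616) (c (l 16340544) (l 16284784))))) (b (c (a (a (c (b (l 142863565579468831) (l 143100647818936351)) (l 142651565790298143)) (l 38)) (l 38)) (c (a (a (l 140499408990650399) (a (l 140537479592853535) (l 140563867880177695))) (c (c (l 38) (a (l 140766452939620383)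 (a (l 140990890764107807) (l 38)))) (a (l 140641314684534815) (b (l 140411104434421791) (a (l 140425260682248223) (l 140454329029738527)))))) (a (c (l 16336856) (l 16280616)) (c (a (l 16347304) (b (l 139577674502619167) (l 139774968158109727))) (a (l 16289928) (l 16296504)))))) (c (a (a (a (c (l 143172116083228767) (l 142181593370361887)) (l 38)) (l 38)) (l 38)) (c (a (a (l 141087991387439135) (b (l 140863003818278943) (l 141261920422641695))) (c (l 38) (a (b (l 140594241903050783) (l 140813800673198111)) (b (c (l 38) (l 140488276457750559)) (l 38))))) (a (c (l 16414576) (l 16314320)) (a (c (l 140028886666887199) (l 16325056)) (a (b (l 139627496135032863) (l 139833792043548703)) (b (l 140374201977323551) (l 14))))))))), by decide +kernel⟩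

def k25_pm_113 : ∃ t, chk3 f_pm_113 t 14 14 1 = true :=
  ⟨(b (a (b (l 16429680) (c (l 16347744) (l 16206608))) (c (a (l 16442528) (b (l 16423296) (l 16511840))) (a (l 16243848) (b (l 16258576) (l 16326760))))) (a (c (b (l 16442528) (a (l 16423296) (l 16511840))) (b (l 16243848) (a (l 16258576) (l 16326760)))) (b (a (c (l 16519832) (l 16333632)) (c (l 16624440) (l 16414072))) (a (c (l 16624440) (l 16414072)) (c (l 16768248) (l 16526816)))))), by decide +kernel⟩

def k26_pm_113 : ∃ t, chk3 f_pm_113 t 14 30 1 = true :=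
  ⟨(a (c (b (a (b (l 16470408) (b (l 16517144) (a (l 16486416) (l 16542992)))) (b (l 16578848) (a (l 16594800) (l 16665200)))) (a (b (a (l 16530952) (b (l 16562816) (l 16582840))) (a (b (l 16534792) (l 16552264)) (b (l 16603800) (l 16625744)))) (a (b (b (l 16631480) (l 16677624)) (b (l 16682504) (l 16709720))) (b (b (l 16688520) (a (l 16718560) (l 16763424))) (c (l 16734592) (a (l 16705616) (l 16753392))))))) (b (a (b (l 16292832) (b (l 16312128) (a (l 16303560) (l 16432856)))) (b (l 16378024) (a (l 16390376) (l 16446304)))) (a (a (b (l 16320800) (c (l 16395200) (l 16294840))) (b (c (l 16422464) (l 16320752)) (c (l 16456672) (l 16349728)))) (b (a (b (c (l 16473048) (l 16366048)) (c (l 16494272) (l 16384424))) (b (b (l 16476160) (l 16488792)) (c (l 16566464) (l 16448832)))) (a (c (l 16547976) (l 16412656)) (c (a (l 16586512) (l 16629848)) (a (l 16465984) (l 16504848)))))))) (b (a (c (b (l 16718880) (c (l 16796352) (l 16729304))) (b (l 16488272) (c (l 16607008) (l 16484720)))) (c (b (l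 16841640) (l 16795416)) (b (l 16633080) (l 16695888)))) (a (a (b (c (a (b (l 16775576) (l 16763840)) (l 16773024)) (b (l 16554128) (c (l 16648816) (l 16522144)))) (c (a (b (l 16750432) (l 16757944)) (b (l 16753128) (l 16739904))) (b (c (b (l 16674792) (l 16692216)) (b (l 16545432) (l 16581928))) (c (l 16718936) (l 16605536))))) (b (c (b (l 16805080) (l 16770912)) (b (l 16637032) (l 16675320))) (a (b (c (a (l 16755240) (l 16756712)) (c (l 16759464) (l 16663000))) (l 14)) (l 14)))) (a (b (c (l 16785184) (b (l 16733472) (l 16780080))) (l 14)) (l 14))))), by decide +kernel⟩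

def k27_pm_113 : ∃ t, chk3 f_pm_113 t 28 62 1 = true :=
  ⟨(a (c (b (a (c (l 16631600) (l 16528600)) (c (l 16694704) (l 16668504))) (a (b (b (l 16605424) (l 16616008)) (c (l 16684032) (l 16577072))) (b (c (l 16701656) (l 16641240)) (c (l 16691088) (l 16666808))))) (b (a (b (l 16364880) (l 16441744)) (c (b (l 16484456) (l 16504136)) (l 16381360))) (a (a (b (l 16376936) (l 16454408)) (c (l 16496344) (l 16362184))) (b (a (l 16489008) (l 16590992)) (c (l 16588808) (l 16425728)))))) (a (b (c (b (a (l 16714808) (l 16735960)) (c (l 16719304) (l 16708536))) (c (c (l 16604528) (l 16544384)) (c (l 16483888) (l 16423032)))) (c (b (c (l 16708280) (l 16711896)) (c (l 16698072) (l 16679080))) (b (c (l 16613552) (l 16486976)) (c (c (l 16673936) (l 16608960)) (c (l 16543656) (l 16478016)))))) (b (c (b (c (l 16736984) (l 16744344)) (c (l 16725536) (l 16731304))) (c (a (l 16642920) (l 16692968)) (b (l 16523624) (l 16571984)))) (a (a (b (c (l 16714336) (l 16651888)) (l 14)) (l 14)) (l 14))))), by decide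 +kernel⟩

def k28_pm_113 : ∃ t, chk3 f_pm_113 t 28 63 1 = true :=
  ⟨(b (b (a (c (a (c (c (l 16674120) (l 16673776)) (c (l 16627256) (l 16569968))) (c (b (l 16683728) (l 16679072)) (b (l 16684016) (l 16678560)))) (a (c (c (l 16512440) (l 16454664)) (l 16367552)) (c (b (l 16564264) (l 16597296)) (c (l 16476672) (l 16413968))))) (b (a (a (a (c (l 16688536) (l 16580688)) (l 14)) (l 14)) (l 14)) (l 14))) (a (c (a (b (c (l 16656472) (c (l 16645136) (l 16586464))) (c (a (l 16660600) (l 16664560)) (a (l 16625360) (l 16652112)))) (a (c (c (l 16671064) (l 16670104)) (c (l 16669184) (l 16665064))) (l 14))) (a (c (b (l 16602936) (a (l 16486944) (l 16551200))) (c (l 16476448) (l 16353608))) (a (c (c (l 16602280) (l 16539288)) (b (l 16439392) (l 16449536))) (l 14)))) (l 14))) (a (a (a (c (b (b (b (c (l 16657424) (l 16655072)) (l 30)) (l 30)) (l 30)) (b (c (c (b (l 16547624) (l 30)) (b (l 16466848) (l 141264119449600015))) (c (b (l 16406896) (l 16415720)) (l 16350720))) (a (b (b (c (l 30) (l 139986692902371343))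 (l 14)) (l 14)) (l 14)))) (b (b (c (b (c (l 16650968) (l 16658416)) (c (l 143214378530930767) (l 30))) (c (a (l 141703855490400271) (l 141952345165725711)) (l 140777447992967183))) (l 14)) (l 14))) (l 14)) (l 14))), by decide +kernel⟩

def k29_pm_113 : ∃ t, chk3 f_pm_113 t 29 31 1 = true :=
  ⟨(b (a (a (a (b (b (c (l 16745232) (a (l 16648104) (l 16673800))) (l 14)) (l 14)) (l 14)) (l 14)) (l 14)) (l 14)), by decide +kernel⟩

def k30_pm_113 : ∃ t, chk3 f_pm_113 t 30 14 1 = true :=
  ⟨(a (c (b (b (a (l 16470408) (a (l 16517144) (b (l 16486416) (l 16542992)))) (a (l 16578848) (a (l 16615920) (l 16642024)))) (b (a (l 16718880) (c (l 16796352) (l 16729304))) (a (l 16841640) (l 16795416)))) (b (b (a (l 16292832) (a (l 16312128) (b (l 16303560) (l 16432856)))) (a (l 16378024) (a (l 16407128) (l 16448968)))) (b (a (l 16488272) (c (l 16607008) (l 16484720))) (a (l 16633080) (l 16695888))))) (b (b (a (c (b (l 16530912) (a (l 16562816) (l 16582840))) (b (l 16320776) (c (l 16422456) (l 16320744))))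 (c (b (a (l 16534792) (l 16552264)) (a (l 16603800) (l 16625744))) (b (c (l 16395232) (l 16294864)) (c (l 16456672) (l 16349728))))) (b (a (c (a (l 16631480) (l 16677624)) (a (c (l 16473048) (l 16366048)) (c (l 16494272) (l 16384424)))) (c (a (l 16682504) (l 16709720)) (c (l 16547976) (l 16412656)))) (a (c (a (l 16688520) (a (l 16732792) (l 16748480))) (a (a (l 16476160) (l 16488792)) (c (l 16566464) (l 16448832)))) (c (c (l 16734592) (b (l 16705616) (l 16753392))) (c (b (l 16586512) (l 16629848)) (b (l 16465984) (l 16504848))))))) (b (b (a (c (a (l 16799160) (b (l 16763840) (l 16787432))) (a (l 16554128) (c (l 16648816) (l 16522144)))) (c (a (b (l 16750432) (l 16753128)) (c (l 16754712) (l 16764272))) (a (c (a (l 16674792) (l 16692216)) (a (l 16545432) (l 16581928))) (c (l 16718936) (l 16605536))))) (a (c (a (l 16805080) (l 16770912)) (a (l 16637032) (l 16675320))) (b (a (c (a (l 16780328) (l 16773616)) (c (l 16759464) (l 16663000))) (l 14)) (l 14)))) (a (b (c (l 16785184) (a (l 16733472)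 (l 16780080))) (l 14)) (l 14))))), by decide +kernel⟩

def k31_pm_113 : ∃ t, chk3 f_pm_113 t 62 28 1 = true :=
  ⟨(b (a (c (b (c (l 16631600) (l 16528600)) (c (l 16694704) (l 16668504))) (a (b (l 16364880) (l 16533848)) (b (l 16441744) (a (l 16463480) (l 16514728))))) (c (b (a (a (l 16605424) (l 16616008)) (c (l 16684032) (l 16577072))) (a (c (l 16701656) (l 16641240)) (c (l 16691088) (l 16666808)))) (a (b (c (l 16448264) (l 16338504)) (b (l 16489008) (l 16590992))) (b (c (l 16465368) (l 16352568)) (c (l 16588808) (l 16425728)))))) (b (a (c (a (b (l 16714808) (l 16735960)) (c (l 16719304) (l 16708536))) (c (c (l 16604528) (l 16544384)) (c (l 16483888) (l 16423032)))) (c (a (c (l 16708280) (l 16711896)) (c (l 16698072) (l 16679080))) (a (c (l 16613552) (l 16486976)) (c (c (l 16673936) (l 16608960)) (c (l 16543656) (l 16478016)))))) (a (c (a (c (l 16736984) (l 16744344)) (c (l 16725536) (l 16731304))) (c (a (l 16651968) (l 16683424)) (a (l 16523624) (l 16571984)))) (a (a (b (c (l 16718008)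 (l 16615072)) (l 14)) (l 14)) (l 14))))), by decide +kernel⟩

def k32_pm_113 : ∃ t, chk3 f_pm_113 t 63 28 1 = true :=
  ⟨(a (a (b (c (b (c (c (l 16674120) (l 16673776)) (c (l 16627256) (l 16569968))) (c (a (l 16683728) (l 16679072)) (a (l 16684016) (l 16678560)))) (b (c (c (l 16512440) (l 16454664)) (l 16367552)) (c (a (l 16564264) (l 16597296)) (c (l 16476672) (l 16413968))))) (a (a (b (b (c (l 16690728) (l 16610520)) (l 14)) (l 14)) (l 14)) (l 14))) (b (b (c (c (b (a (l 16665032) (l 16660600)) (c (l 16667232) (l 16666168))) (b (a (l 16593104) (l 16625360)) (c (l 16665144) (l 16615552)))) (c (b (a (l 16477472) (l 16486944)) (a (l 16519488) (l 16572168))) (b (l 16364864) (l 16466008)))) (b (c (c (c (l 16671064) (l 16670104)) (c (l 16669184) (l 16665064))) (c (c (l 16602280) (l 16539288)) (a (l 16439392) (l 16449536)))) (l 14))) (l 14))) (b (b (b (c (a (a (a (c (l 16657424) (l 142664072909307935)) (l 38)) (l 38)) (l 38)) (a (c (c (a (l 16568600) (l 38)) (a (l 16466848) (l 141264119449600031)))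 (c (a (l 16406896) (l 16436696)) (l 16350720))) (a (a (b (c (l 38) (l 139986692902371359)) (l 14)) (l 14)) (l 14)))) (a (a (c (a (c (l 16656208) (l 16658416)) (c (l 143214378530930783) (l 38))) (c (b (l 141703855490400287) (l 141952345165725727)) (l 140777447992967199))) (l 14)) (l 14))) (l 14)) (l 14))), by decide +kernel⟩

def k33_pm_113 : ∃ t, chk3 f_pm_113 t 31 29 1 = true :=
  ⟨(a (b (b (b (a (a (c (l 16745232) (a (l 16652376) (l 16669400))) (l 14)) (l 14)) (l 14)) (l 14)) (l 14)) (l 14)), by decide +kernel⟩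

def k34_pm_113 : ∃ t, chk3 f_pm_113 t 15 15 1 = true :=
  ⟨(a (b (a (a (b (b (l 16839048) (l 14)) (l 14)) (l 14)) (l 14)) (l 14)) (l 14)), by decide +kernel⟩

theorem s35_pm_113 : ∃ t, chk3 f_pm_113 t 31 28 1 = true := ex3_a k31_pm_113 k32_pm_113

theorem s36_pm_113 : ∃ t, chk3 f_pm_113 t 31 14 1 = true := ex3_b s35_pm_113 k33_pm_113

theorem s37_pm_113 : ∃ t, chk3 f_pm_113 t 15 14 1 = true := ex3_a k30_pm_113 s36_pm_113

theorem s38_pm_113 : ∃ t, chk3 f_pm_113 t 15 7 1 = true := ex3_b s37_pm_113 k34_pm_113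

theorem s39_pm_113 : ∃ t, chk3 f_pm_113 t 28 31 1 = true := ex3_b k27_pm_113 k28_pm_113

theorem s40_pm_113 : ∃ t, chk3 f_pm_113 t 14 31 1 = true := ex3_a s39_pm_113 k29_pm_113

theorem s41_pm_113 : ∃ t, chk3 f_pm_113 t 14 15 1 = true := ex3_b k26_pm_113 s40_pm_113

theorem s42_pm_113 : ∃ t, chk3 f_pm_113 t 14 7 1 = true := ex3_b k25_pm_113 s41_pm_113

theorem s43_pm_113 : ∃ t, chk3 f_pm_113 t 7 7 1 = true := ex3_a s42_pm_113 s38_pm_113

theorem s44_pm_113 : ∃ t, chk3 f_pm_113 t 63 55 1 = true := ex3_b k23_pm_113 k24_pm_113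

theorem s45_pm_113 : ∃ t, chk3 f_pm_113 t 63 54 1 = true := ex3_c k21_pm_113 k22_pm_113

theorem s46_pm_113 : ∃ t, chk3 f_pm_113 t 63 27 1 = true := ex3_b s45_pm_113 s44_pm_113

theorem s47_pm_113 : ∃ t, chk3 f_pm_113 t 31 27 1 = true := ex3_a k20_pm_113 s46_pm_113

theorem s48_pm_113 : ∃ t, chk3 f_pm_113 t 31 13 1 = true := ex3_b k19_pm_113 s47_pm_113

theorem s49_pm_113 : ∃ t, chk3 f_pm_113 t 15 13 1 = true := ex3_a k18_pm_113 s48_pm_113

theorem s50_pm_113 : ∃ t, chk3 f_pm_113 t 15 6 1 = true := ex3_b k17_pm_113 s49_pm_113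

theorem s51_pm_113 : ∃ t, chk3 f_pm_113 t 7 6 1 = true := ex3_a k16_pm_113 s50_pm_113

theorem s52_pm_113 : ∃ t, chk3 f_pm_113 t 7 3 1 = true := ex3_b s51_pm_113 s43_pm_113

theorem s53_pm_113 : ∃ t, chk3 f_pm_113 t 27 31 3 = true := ex3_b k14_pm_113 k15_pm_113

theorem s54_pm_113 : ∃ t, chk3 f_pm_113 t 13 31 3 = true := ex3_a k13_pm_113 s53_pm_113

theorem s55_pm_113 : ∃ t, chk3 f_pm_113 t 27 63 2 = true := ex3_c k11_pm_113 k12_pm_113

theorem s56_pm_113 : ∃ t, chk3 f_pm_113 t 27 31 2 = true := ex3_b k10_pm_113 s55_pm_113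

theorem s57_pm_113 : ∃ t, chk3 f_pm_113 t 13 31 2 = true := ex3_a k9_pm_113 s56_pm_113

theorem s58_pm_113 : ∃ t, chk3 f_pm_113 t 13 31 1 = true := ex3_c s57_pm_113 s54_pm_113

theorem s59_pm_113 : ∃ t, chk3 f_pm_113 t 13 15 1 = true := ex3_b k8_pm_113 s58_pm_113

theorem s60_pm_113 : ∃ t, chk3 f_pm_113 t 13 7 1 = true := ex3_b k7_pm_113 s59_pm_113

theorem s61_pm_113 : ∃ t, chk3 f_pm_113 t 13 3 1 = true := ex3_b k6_pm_113 s60_pm_113

theorem s62_pm_113 : ∃ t, chk3 f_pm_113 t 6 3 1 = true := ex3_a k5_pm_113 s61_pm_113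

theorem s63_pm_113 : ∃ t, chk3 f_pm_113 t 3 3 1 = true := ex3_a s62_pm_113 s52_pm_113

theorem s64_pm_113 : ∃ t, chk3 f_pm_113 t 3 2 1 = true := ex3_a k3_pm_113 k4_pm_113

theorem s65_pm_113 : ∃ t, chk3 f_pm_113 t 3 1 1 = true := ex3_b s64_pm_113 s63_pm_113

theorem s66_pm_113 : ∃ t, chk3 f_pm_113 t 2 3 1 = true := ex3_b k1_pm_113 k2_pm_113

theorem s67_pm_113 : ∃ t, chk3 f_pm_113 t 2 1 1 = true := ex3_b k0_pm_113 s66_pm_113

theorem s68_pm_113 : ∃ t, chk3 f_pm_113 t 1 1 1 = true := ex3_a s67_pm_113 s65_pm_113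

theorem c_pm_113 : CertB 536870912 536870912 536870912 536870912 923417968 42949674 3 eng mog cd0q1 cd0q1 pd3 true true false .nn 1 1 3
    ndB0q1 ndB0q1 pcB3 cut_pm_113 xt_pm_113 :=
  certB0 (fam := true) (s1 := true) (s2 := false) (a := 1) (b := 1) (c := 3) (cn := .nn) (n1 := ndB0q1) (n2 := ndB0q1) (pc := pcB3) (cut := cut_pm_113) (xt := xt_pm_113) (P1 := 536870912) (W1 := 536870912) (P2 := 536870912) (W2 := 536870912) (P3 := 923417968) (W3 := 42949674) (N0 := 3) (En := eng) (mo := mog) (C1 := cd0q1) (C2 := cd0q1) (C3 := pd3)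
    rfl s68_pm_113

noncomputable def cut_pm_123 : Cut := Cut.of [[⟨3, 0, 0, 1449551462⟩], [⟨4, 0, 0, 2845415833⟩], [⟨0, 1, 0, 67108864⟩, ⟨1, 1, 0, 67108864⟩, ⟨2, 2, 0, 16252928⟩], [⟨0, 0, 1, 20971520⟩, ⟨1, 1, 0, 8388608⟩, ⟨2, 1, 1, 20971520⟩]]

noncomputable def xt_pm_123 : Ext := extD2 3 ⟨4, 1, 1, 5, 17, 5, 87, 100, 43, 100, 1, 8⟩ eng cd0q1 cd0q2 pd3 true true false .npn 1 2 3 rfl ndB0q1 ndB0q2 pcB3

noncomputable def f_pm_123 : ℕ → ℕ → ℕ → ℕ → Bool := onCell 1610612736 536870912 0 536870912 923417968 42949674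
    (rowB 3 eng mog cd0q1 cd0q2 pd3 2 true true false .npn 1 2 3 (qsf 536870912 536870912 0 536870912 3) ndB0q1 ndB0q2 pcB3 cut_pm_123 xt_pm_123)

def k0_pm_123 : ∃ t, chk3 f_pm_123 t 2 2 1 = true :=
  ⟨(a (b (l 1) (a (l 1) (a (l 1) (a (l 1) (b (l 1) (b (l 1) (c (l 16559800) (b (l 16369984) (l 16445488))))))))) (a (b (b (l 14) (a (a (l 1) (b (l 14) (c (l 16663488) (l 16543384)))) (l 14))) (b (a (c (c (l 16613184) (l 16530088)) (a (a (l 1) (l 16418072)) (a (l 16429472) (l 16461376)))) (c (a (l 16610496) (l 16614384)) (c (b (l 16609984) (l 16582920)) (b (l 16499240) (l 16506648))))) (c (a (b (l 16566032) (b (l 16545072) (l 16549800))) (b (l 16589320) (c (l 16544952) (l 16572296)))) (a (b (a (l 16428464) (l 16493240)) (a (b (l 16387096) (l 16455816)) (b (l 16470208) (l 16425144)))) (b (c (l 16555752) (l 16492968)) (b (l 16418928) (a (l 16460192) (l 16498240)))))))) (b (l 14) (b (b (l 14) (a (a (c (l 16625296) (l 16586200)) (c (l 16630912) (l 16604856))) (l 14))) (b (a (c (l 16575568) (a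 (l 16555720) (l 16574440))) (a (c (l 16605192) (l 16592016)) (l 14))) (c (a (l 16522616) (a (l 16572200) (l 16579072))) (a (a (l 16525352) (l 16544120)) (a (l 16561624) (l 16577560))))))))), by decide +kernel⟩

def k1_pm_123 : ∃ t, chk3 f_pm_123 t 4 3 1 = true :=
  ⟨(b (a (l 1) (b (a (l 1) (c (b (l 16527000) (l 16488216)) (b (l 16399304) (l 16486592)))) (a (c (b (l 16455472) (l 16401824)) (b (l 16494040) (l 16416024))) (c (b (l 16442216) (l 16386968)) (b (l 16481400) (l 16401040)))))) (b (a (a (l 1) (b (c (l 16297216) (l 16256672)) (c (b (l 16303424) (l 16257824)) (b (l 16257960) (l 16199408))))) (b (a (c (l 16316584) (l 16258368)) (c (l 16321200) (l 16307392))) (c (a (b (l 16280024) (l 16234904)) (b (l 16262328) (l 16217136))) (a (b (l 16239832) (l 16180536)) (c (l 16207776) (l 16163104)))))) (a (b (a (a (l 1) (a (l 16165320) (l 16158504))) (b (l 16172896) (l 16113216))) (a (b (a (l 16083592) (l 16069664)) (a (c (l 16053856) (l 15984320)) (l 16027624))) (b (c (l 16083096) (l 16017096))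 (c (l 16021680) (l 15953192))))) (b (a (b (l 16152672) (l 16093112)) (b (l 16137400) (l 16078304))) (a (b (l 16073592) (c (l 16002184) (l 15934160))) (b (l 16017328) (c (l 15988592) (l 15920344)))))))), by decide +kernel⟩

def k2_pm_123 : ∃ t, chk3 f_pm_123 t 5 6 1 = true :=
  ⟨(a (b (a (c (b (l 16522656) (l 16482232)) (b (l 16374336) (l 16496592))) (b (a (c (l 16522800) (l 16491344)) (c (l 16524440) (l 16415816))) (c (l 16481680) (l 16505312)))) (c (a (b (l 16434576) (l 16377800)) (b (l 16432688) (l 16374688))) (a (b (l 16469296) (l 16390056)) (b (l 16460960) (l 16383208))))) (b (c (a (b (c (l 16540944) (l 16538288)) (l 16486824)) (b (a (l 16536832) (l 16543520)) (a (l 16494656) (l 16501904)))) (a (b (b (a (l 16507400) (l 16521816)) (l 16409072)) (l 16491920)) (b (a (b (l 16538248) (l 16527000)) (l 16483280)) (a (l 16517200) (l 16517744))))) (a (c (b (l 16457912) (l 16378248)) (b (l 16456768) (l 16380936))) (c (b (l 16552816) (l 16452336)) (b (l 16478488) (a (l 16382776) (l 16385984))))))),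 by decide +kernel⟩

def k3_pm_123 : ∃ t, chk3 f_pm_123 t 5 7 1 = true :=
  ⟨(b (a (b (a (c (l 16310600) (l 16297624)) (c (l 16306456) (l 16292392))) (a (c (b (l 16250744) (l 16205288)) (b (l 16217672) (l 16158296))) (c (b (l 16245960) (l 16200392)) (b (l 16213776) (l 16155576))))) (a (b (c (l 16393544) (a (l 16291784) (l 16293152))) (c (a (l 16225056) (l 16228968)) (a (l 16186104) (l 16188728)))) (b (c (a (l 16317608) (l 16326064)) (a (l 16296048) (l 16300792))) (c (a (l 16235560) (l 16245312)) (a (l 16193112) (l 16199600)))))) (a (b (a (a (l 16100232) (b (l 16126104) (l 16067816))) (b (a (l 16124368) (l 16124296)) (l 16066392))) (a (b (l 16008816) (c (l 15981824) (l 15912336))) (b (c (l 16039344) (l 15973184)) (c (l 15982472) (l 15909584))))) (b (a (b (c (l 16196608) (l 16120176)) (l 16112984)) (b (c (a (l 16165008) (l 16176352)) (a (l 16106240) (l 16114064))) (a (l 16080880) (l 16091664)))) (a (b (c (l 16047728) (l 15976904)) (c (l 15993104) (l 15913648))) (b (c (l 16069408) (l 15989680))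 (c (a (l 16010488) (l 16028448)) (l 15928168))))))), by decide +kernel⟩

def k4_pm_123 : ∃ t, chk3 f_pm_123 t 3 2 1 = true :=
  ⟨(a (a (b (l 14) (a (a (a (b (l 14) (b (l 14) (l 16569720))) (l 14)) (l 14)) (l 14))) (l 14)) (l 14)), by decide +kernel⟩

def k5_pm_123 : ∃ t, chk3 f_pm_123 t 12 6 1 = true :=
  ⟨(b (a (b (a (c (l 16551632) (l 16557888)) (c (l 16561560) (l 16564840))) (c (a (b (l 16522136) (l 16499360)) (b (l 16532536) (l 16510528))) (a (b (l 16531776) (l 16507032)) (b (l 16535192) (l 16511632))))) (b (l 14) (a (c (b (l 16545144) (l 16524056)) (b (l 16541504) (l 16518824))) (l 14)))) (a (c (b (a (l 16461352) (l 16473192)) (a (l 16403784) (l 16416928))) (b (a (l 16462264) (l 16468104)) (a (l 16391176) (l 16398856)))) (c (b (a (l 16487864) (l 16547624)) (a (l 16433424) (l 16453752))) (b (a (l 16476816) (b (l 16503408) (l 16473848))) (a (l 16409616) (l 16424072)))))), by decide +kernel⟩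

def k6_pm_123 : ∃ t, chk3 f_pm_123 t 12 7 1 = true :=
  ⟨(b (a (b (c (a (l 16337560) (l 16352640)) (a (l 16307792) (l 16317664))) (c (a (l 16300824) (b (l 16297232) (l 16256448))) (a (l 16208848) (l 16221600)))) (b (c (a (l 16371896) (b (l 16410968) (l 16380184))) (a (l 16331096) (l 16390592))) (a (c (b (l 16319320) (l 16281032)) (b (l 16263352) (l 16213712))) (c (b (l 16346816) (l 16311640)) (b (l 16284136) (l 16237152)))))) (b (a (b (c (a (l 16192280) (c (l 16232032) (l 16195320))) (a (l 16125296) (l 16140896))) (a (l 16148928) (c (l 16169936) (l 16085512)))) (c (b (a (c (l 16261544) (l 16221072)) (c (l 16298208) (l 16253472))) (a (a (l 16192568) (l 16210024)) (c (a (l 16254536) (l 16277672)) (l 16214680)))) (b (a (c (l 16181288) (l 16142208)) (l 16209328)) (a (l 16108912) (c (l 16164128) (l 16114128)))))) (a (b (a (c (l 16098744) (l 16009552)) (c (l 16126448) (l 16029464))) (c (a (l 16052760) (a (l 16075768) (l 16093688))) (a (l 15950928) (l 15973800)))) (c (b (a (c (l 16188280)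 (l 16135368)) (a (l 16194272) (l 16219168))) (a (b (l 16133864) (c (l 16147304) (l 16085256))) (b (c (l 16215328) (l 16151112)) (c (a (l 16188192) (l 16219640)) (l 16135136))))) (b (a (l 16055960) (l 16090176)) (a (l 16004080) (a (l 16032552) (l 16054744)))))))), by decide +kernel⟩

def k7_pm_123 : ∃ t, chk3 f_pm_123 t 13 6 1 = true :=
  ⟨(b (l 14) (a (b (l 14) (a (c (l 16477928) (l 16442472)) (l 14))) (l 14))), by decide +kernel⟩

def k8_pm_123 : ∃ t, chk3 f_pm_123 t 13 14 1 = true :=
  ⟨(a (a (b (c (b (l 16438328) (l 16410144)) (b (l 16389888) (l 16351616))) (c (b (l 16380104) (a (l 16339000) (l 16359568))) (b (l 16310248) (l 16266600)))) (b (c (a (l 16449080) (l 16509240)) (a (l 16390840) (l 16405832))) (a (c (b (l 16409296) (l 16382152)) (b (l 16333784) (l 16293200))) (c (b (l 16431032) (a (l 16400504) (l 16413656))) (b (l 16351552) (l 16313376)))))) (a (b (l 14) (a (c (b (l 16455080) (c (l 16460928) (l 16409432))) (b (l 16371128) (l 16335872))) (a (b (l 14) (c (l 16457752) (l 16354472)))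 (l 14)))) (l 14))), by decide +kernel⟩

def k9_pm_123 : ∃ t, chk3 f_pm_123 t 26 15 1 = true :=
  ⟨(c (b (a (b (c (b (l 16349976) (l 16336560)) (l 16293616)) (b (a (l 16283384) (c (l 16337904) (l 16281480))) (c (l 16311336) (l 16252664)))) (b (a (a (l 16349472) (l 16363104)) (a (l 16398384) (c (l 16421680) (l 16364288)))) (b (a (b (l 16341432) (l 16398728)) (a (c (l 16393760) (l 16331568)) (c (l 16433104) (l 16348040)))) (a (l 16327496) (a (l 16353248) (l 16456008)))))) (a (a (b (a (l 16239744) (l 16254456)) (b (l 16291320) (c (l 139242323270615055) (l 16181112)))) (c (b (l 16311448) (b (l 16299792) (b (l 16316640) (l 139330078121787407)))) (b (l 16244960) (b (l 16226624) (l 16237664))))) (a (c (b (c (l 16365872) (l 16330544)) (b (l 139664604631400463) (b (l 139659794264850447) (c (l 139904092047294479) (l 139431164522659855))))) (b (l 16277896) (b (l 16263616) (b (l 16258296) (l 138716275677528079))))) (a (b (c (l 16378568) (l 16305184)) (b (c (l 140051838952898575) (l 16294400)) (c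 (b (l 140071767602544655) (c (b (l 140333382697091087) (l 140352211836420111)) (l 139851521637859343))) (b (l 16291120) (l 139110107068956687))))) (c (b (b (l 16402256) (l 16400024)) (b (b (l 16400016) (l 140343759342780431)) (b (a (l 140293662833459215) (c (l 140692785628643343) (l 16387832))) (b (a (l 140316752581148687) (l 140470409361195023)) (c (a (l 140584277553299471) (l 140743981648740367)) (l 140154918185091087)))))) (b (l 16325232) (b (l 16317072) (b (l 16357248) (a (l 139316815293218831) (l 139457003053187087)))))))))) (b (a (b (c (l 16245408) (l 16198584)) (c (l 16246672) (l 16149800))) (b (a (l 16252144) (c (l 16302056) (l 16248936))) (a (c (l 16241712) (l 16182472)) (b (c (l 16278040) (l 16217880)) (l 16229992))))) (a (b (a (l 16121840) (l 16146312)) (b (l 16103224) (a (l 16070184) (l 16099768)))) (b (a (l 16173840) (c (l 16262424) (l 16168728))) (a (b (l 16148200) (c (l 16174496) (l 16092184))) (b (c (l 16223976) (l 16142848)) (c (a (l 16204408) (l 16247448)) (l 16128104)))))))),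 by decide +kernel⟩

def k10_pm_123 : ∃ t, chk3 f_pm_123 t 54 30 1 = true :=
  ⟨(c (b (a (c (b (l 16450816) (l 16487672)) (a (l 16379968) (l 16396488))) (c (b (l 16487480) (c (l 16502728) (l 16469232))) (b (l 16426392) (l 16419816)))) (a (b (c (a (c (l 16448856) (l 16415376)) (b (l 16453432) (l 16473760))) (a (l 16365904) (l 16384784))) (c (a (l 16428312) (l 16451304)) (l 16367592))) (b (a (c (a (l 16469552) (l 16480880)) (l 16404712)) (c (a (l 16492512) (l 16504456)) (l 16425744))) (a (c (c (l 16494776) (l 16456552)) (l 16399920)) (b (c (a (l 16494440) (l 16528360)) (l 16423880)) (c (l 16501944) (l 16422416))))))) (b (a (c (l 16329912) (l 16273488)) (c (b (l 16367144) (l 16355480)) (l 16301208))) (a (b (c (l 16309592) (l 16245584)) (c (l 16296952) (l 16227720))) (b (c (c (l 16362528) (l 16328016)) (l 16277040)) (c (c (l 16354576) (l 16317248)) (l 16261984)))))), by decide +kernel⟩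

def k11_pm_123 : ∃ t, chk3 f_pm_123 t 54 62 1 = true :=
  ⟨(c (c (a (a (b (l 16425696) (l 16425376)) (b (l 16450528) (a (l 16445392) (l 16459264)))) (b (a (c (l 16497224) (l 16456536)) (c (l 16525840) (l 16483776))) (a (c (l 16502560) (l 16459248)) (b (l 16530280) (l 16576400))))) (a (b (l 16361040) (c (l 16377016) (l 16336216))) (a (b (l 16396080) (l 16394704)) (b (l 16421272) (l 16464144))))) (c (a (a (l 16269936) (l 16290632)) (b (l 16327608) (c (l 16343136) (l 16300024)))) (a (l 16202672) (a (l 16231400) (l 16252208))))), by decide +kernel⟩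

def k12_pm_123 : ∃ t, chk3 f_pm_123 t 54 63 1 = true :=
  ⟨(c (b (a (a (c (c (b (l 16448208) (l 140890766480048143)) (l 16427312)) (l 16362816)) (b (c (l 16455600) (l 16368104)) (c (a (l 140880939595563023) (l 141041056008011791)) (l 16368608)))) (a (c (a (b (l 16478312) (l 141206876138094607)) (b (l 16494072) (l 141378606230159375))) (b (l 16395680) (l 140256279441817615))) (c (c (b (l 16542192) (l 30)) (b (l 16495240) (l 141381148768157711))) (b (l 16425136) (l 141299097693405199))))) (c (a (a (a (b (l 140781777335861263) (b (l 140627914432954383) (c (l 140909458181308431) (l 140389251646914575)))) (b (l 141118846400282639) (c (c (l 30) (l 140934609516363791)) (l 140541534037196815)))) (c (b (a (l 141177876510343183) (l 141350362430914575)) (a (b (l 141223437532299279) (l 30)) (l 30))) (b (l 140745699642277903) (b (l 140961203928530959) (a (l 140722060138053647) (l 140897638435471375)))))) (c (l 30) (a (a (b (l 140998930963824655) (c (l 30) (l 140924026721255439))) (b (l 141175540053639183)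 (l 30))) (b (a (l 141358471336509455) (l 30)) (l 30))))) (a (a (b (l 139670651946975247) (c (l 139937627164147727) (l 139412060510633999))) (b (c (l 140225493107818511) (l 16346784)) (c (b (l 140246864869933071) (l 140265419132649487)) (l 139713807792160783)))) (a (b (c (l 140549917821141007) (l 140010744707989519)) (c (b (l 140584415005687823) (a (l 140522979781771279) (l 140702818687418383))) (b (l 140030261044068367) (l 140047853234044943)))) (b (c (a (l 140808852860157967) (l 140989516399755279)) (l 140341903931080719)) (c (b (a (l 140854070284992527) (l 141042361687867407)) (a (l 141069505851555855) (l 30))) (b (l 140375301603950607) (a (l 140311255039606799) (l 140495354553483279))))))))) (b (a (c (l 16309832) (l 16181472)) (c (a (l 16305112) (l 16353112)) (l 16226048))) (a (a (c (b (l 16251744) (l 16249760)) (l 16159240)) (c (b (l 16277024) (l 138895083798413327)) (l 16182064))) (a (c (b (l 16304136) (c (l 139476313241976847) (l 16279896))) (l 16206608)) (c (b (l 139502289211424783)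 (c (l 139987998530207759) (l 139223975282311183))) (b (l 16233936) (l 16232352))))))), by decide +kernel⟩

def k13_pm_123 : ∃ t, chk3 f_pm_123 t 220 15 1 = true :=
  ⟨(b (b (l 14) (c (b (c (a (l 16558656) (l 14)) (l 16489912)) (a (c (c (c (l 16552056) (l 16531704)) (l 16501360)) (l 16441352)) (c (b (a (a (l 16529216) (l 16553632)) (l 14)) (l 16536976)) (c (l 16474224) (l 16433856))))) (b (c (l 16374736) (l 16303280)) (c (l 16368360) (l 16290744))))) (b (c (b (c (b (l 16574592) (l 16578304)) (l 16490008)) (c (b (c (l 16563840) (l 16518232)) (c (l 16570224) (l 16523152))) (c (l 16474488) (l 16428648)))) (c (b (l 16363048) (l 16360344)) (l 16274456))) (b (c (c (b (c (l 16577784) (l 16529184)) (l 30)) (b (l 16498568) (a (l 140835653463785487) (l 141015080095531023)))) (c (b (l 16360512) (l 16361896)) (l 16263888))) (c (c (l 30) (c (b (a (l 141176914449317903) (l 30)) (l 30)) (b (a (l 140606611407044623) (l 140791466835394575)) (a (b (l 140651347795607567) (l 140686532174774287)) (c (l 30)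 (l 140713195338383375)))))) (c (b (c (l 140120764618719247) (l 16338696)) (c (a (l 140073348171792399) (l 140259028233830415)) (l 139562143892783119))) (b (l 16261624) (l 138650786028371983))))))), by decide +kernel⟩

def k14_pm_123 : ∃ t, chk3 f_pm_123 t 221 15 1 = true :=
  ⟨(b (a (b (l 14) (b (l 14) (b (l 14) (c (c (l 16551728) (l 16467384)) (l 16343896))))) (l 14)) (b (c (b (c (c (c (l 16599824) (l 16577224)) (l 16585432)) (c (l 16498816) (l 16454488))) (c (b (c (l 16598408) (l 16551192)) (c (l 16606448) (l 16557704))) (b (l 16480904) (l 16526976)))) (b (c (l 16388648) (l 16302080)) (c (l 16388472) (l 16295120)))) (c (b (c (b (a (l 16602048) (l 16621248)) (l 30)) (c (b (l 16515312) (l 30)) (b (l 16465352) (l 141010338410627087)))) (b (c (l 30) (c (l 30) (a (l 140983331651649551) (l 141182480733782031)))) (l 30))) (b (c (b (l 16390776) (l 140327816409382927)) (l 16291456)) (c (b (c (l 140665160384020495) (l 16392272)) (c (b (l 140893309056729103) (a (l 140469928348827663) (l 140673475478093839)))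 (b (l 139915224632000527) (l 139940719563440143)))) (b (l 16291424) (c (l 139300116485111823) (l 16265328)))))))), by decide +kernel⟩

def k15_pm_123 : ∃ t, chk3 f_pm_123 t 111 15 1 = true :=
  ⟨(b (l 14) (a (b (a (a (b (l 14) (b (l 14) (c (c (l 16605368) (l 16506200)) (l 16443152)))) (l 14)) (l 14)) (c (b (a (c (b (l 16641088) (l 30)) (b (l 16538088) (a (l 141543464340865039) (l 30)))) (b (l 14) (l 30))) (l 30)) (b (c (c (b (l 16448928) (l 16454576)) (l 16399264)) (l 16342056)) (c (b (c (a (l 140776692151156751) (l 140980651597447183)) (l 140257378971598863)) (c (b (a (l 140837852497756175) (l 30)) (l 30)) (b (l 140304314384138255) (a (l 140238343674380303) (l 140446907326251023))))) (b (l 140041943242375183) (c (b (l 16375304) (l 139685701543526415)) (l 16298224))))))) (b (l 14) (l 14)))), by decide +kernel⟩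

def k16_pm_123 : ∃ t, chk3 f_pm_123 t 7 3 1 = true :=
  ⟨(b (l 14) (a (l 14) (l 14))), by decide +kernel⟩

theorem s17_pm_123 : ∃ t, chk3 f_pm_123 t 110 15 1 = true := ex3_a k13_pm_123 k14_pm_123

theorem s18_pm_123 : ∃ t, chk3 f_pm_123 t 55 15 1 = true := ex3_a s17_pm_123 k15_pm_123

theorem s19_pm_123 : ∃ t, chk3 f_pm_123 t 54 31 1 = true := ex3_b k11_pm_123 k12_pm_123

theorem s20_pm_123 : ∃ t, chk3 f_pm_123 t 54 15 1 = true := ex3_b k10_pm_123 s19_pm_123

theorem s21_pm_123 : ∃ t, chk3 f_pm_123 t 27 15 1 = true := ex3_a s20_pm_123 s18_pm_123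

theorem s22_pm_123 : ∃ t, chk3 f_pm_123 t 13 15 1 = true := ex3_a k9_pm_123 s21_pm_123

theorem s23_pm_123 : ∃ t, chk3 f_pm_123 t 13 7 1 = true := ex3_b k8_pm_123 s22_pm_123

theorem s24_pm_123 : ∃ t, chk3 f_pm_123 t 13 3 1 = true := ex3_b k7_pm_123 s23_pm_123

theorem s25_pm_123 : ∃ t, chk3 f_pm_123 t 12 3 1 = true := ex3_b k5_pm_123 k6_pm_123

theorem s26_pm_123 : ∃ t, chk3 f_pm_123 t 6 3 1 = true := ex3_a s25_pm_123 s24_pm_123

theorem s27_pm_123 : ∃ t, chk3 f_pm_123 t 3 3 1 = true := ex3_a s26_pm_123 k16_pm_123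

theorem s28_pm_123 : ∃ t, chk3 f_pm_123 t 3 1 1 = true := ex3_b k4_pm_123 s27_pm_123

theorem s29_pm_123 : ∃ t, chk3 f_pm_123 t 5 3 1 = true := ex3_b k2_pm_123 k3_pm_123

theorem s30_pm_123 : ∃ t, chk3 f_pm_123 t 2 3 1 = true := ex3_a k1_pm_123 s29_pm_123

theorem s31_pm_123 : ∃ t, chk3 f_pm_123 t 2 1 1 = true := ex3_b k0_pm_123 s30_pm_123

theorem s32_pm_123 : ∃ t, chk3 f_pm_123 t 1 1 1 = true := ex3_a s31_pm_123 s28_pm_123

theorem c_pm_123 : CertB 536870912 536870912 0 536870912 923417968 42949674 3 eng mog cd0q1 cd0q2 pd3 true true false .npn 1 2 3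
    ndB0q1 ndB0q2 pcB3 cut_pm_123 xt_pm_123 :=
  certB2 (fam := true) (s1 := true) (s2 := false) (a := 1) (b := 2) (c := 3) (cn := .npn) (n1 := ndB0q1) (n2 := ndB0q2) (pc := pcB3) (cut := cut_pm_123) (xt := xt_pm_123) (P1 := 536870912) (W1 := 536870912) (P2 := 0) (W2 := 536870912) (P3 := 923417968) (W3 := 42949674) (N0 := 3) (En := eng) (mo := mog) (C1 := cd0q1) (C2 := cd0q2) (C3 := pd3)
    rfl (fun _ => rfl) s32_pm_123

end Pool.Agent.Strip051.G.I8600_9000.Tab.C.BA00

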