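import Pool.Agent.Strip051.G.I8600_9000.Tab
import Pool.Agent.Strip051.PB.ExtD2

/-! # Certificates B1 (generated) -/

set_option linter.all false
set_option maxRecDepth 100000

namespace Pool.Agent.Strip051.G.I8600_9000.Tab.C.BA00

open Pool.Agent.Strip051.PB Pool.Agent.Strip051.PB.T
open Pool.Agent.Strip051.G.I8600_9000.Tab

noncomputable def cut_pm_202 : Cut := Cut.of [[⟨3, 0, 0, 1449551462⟩], [⟨4, 0, 0, 2845415833⟩], [⟨0, 1, 0, 67108864⟩, ⟨1, 0, 0, 67108864⟩, ⟨2, 1, 0, 67108864⟩]]

noncomputable def f_pm_202 : ℕ → ℕ → ℕ → ℕ → Bool := onCell 0 536870912 1073741824 536870912 923417968 42949674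
    (rowB 3 eng mog cd0q2 cd0q0 pd2 1 true true false .pp 2 0 2 (qsf 0 536870912 0 536870912 2) ndB0q2 ndB0q0 pcB2 cut_pm_202 Ext.none)

def k0_pm_202 : ∃ t, chk3 f_pm_202 t 2 2 1 = true :=
  ⟨(b (a (l 1) (b (l 1) (a (l 1) (b (l 1) (b (l 1) (a (l 1) (b (l 1) (c (l 16204808) (a (l 16133464) (l 16149296)))))))))) (a (b (b (b (l 1) (a (a (l 16238032) (c (l 16219304) (l 16224832))) (a (l 16218304) (l 16188424)))) (a (b (a (l 16319120) (a (l 16320360) (l 16318744))) (a (l 16398096) (l 16339760))) (b (a (l 16302624) (l 16286840)) (a (l 16367856) (l 16366280))))) (a (b (a (l 16412344) (l 16297392)) (b (l 16371960) (l 16326984))) (b (a (c (l 16291000) (b (l 16478160) (l 16416432))) (l 16318512)) (a (a (b (l 16351536) (l 16297752)) (b (l 16367304) (l 16302832))) (b (l 16385248) (l 16345384)))))) (b (a (b (b (b (l 1) (a (l 16158896) (l 16214992))) (a (c (l 16229680) (l 16188840)) (c (l 16241776) (l 16194176)))) (a (c (l 16247168) (l 16216464)) (b (l 16281688) (l 16346864)))) (b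 (a (b (a (b (l 16160688) (l 16187128)) (b (l 16173272) (l 16197944))) (b (l 16198200) (l 16225512))) (b (a (c (l 16228288) (l 16167224)) (b (l 16160336) (l 16223384))) (c (l 16259504) (l 16199944)))) (b (a (a (l 16286256) (l 16290688)) (c (l 16327064) (l 16250160))) (a (l 16325360) (c (l 16375032) (l 16323176)))))) (b (b (a (c (l 16431288) (l 16365568)) (a (l 16362800) (l 16316448))) (a (l 16342104) (a (l 16441760) (l 16366456)))) (a (a (l 16278992) (l 16324520)) (a (l 16389368) (a (l 16464664) (l 16411208)))))))), by decide +kernel⟩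

def k1_pm_202 : ∃ t, chk3 f_pm_202 t 6 4 1 = true :=
  ⟨(b (l 1) (b (a (l 1) (a (a (b (l 1) (b (l 1) (c (l 16315232) (b (l 1) (l 16227232))))) (l 6)) (l 6))) (a (a (b (b (l 1) (a (l 1) (c (l 16224040) (l 16156480)))) (b (c (a (l 16215880) (l 16238608)) (a (l 16149496) (l 16170456))) (c (a (l 16233120) (l 16254128)) (a (l 16166712) (l 16185832))))) (b (a (b (l 1) (c (l 16250264) (c (l 16199024) (l 16163016)))) (b (c (l 16268672) (b (l 16197600) (l 16201656))) (c (l 16278784) (c (l 16226600) (l 16189888))))) (c (b (l 16234616) (l 16247472)) (b (a (l 16193360) (l 16218696)) (a (l 16206824) (l 16230168)))))) (a (b (c (b (a (l 16301544) (l 16337024)) (a (l 16309840) (l 16343432))) (b (a (c (l 16249584) (l 16213016)) (l 16224392)) (a (c (l 16256904) (l 16219600)) (l 16271280)))) (c (b (a (l 16319056) (l 16350712)) (l 16322976)) (b (a (l 16246712) (l 16277408)) (a (l 16256088) (l 16284568))))) (a (b (b (l 6) (c (l 16379560) (l 16306912))) (c (l 16366696) (l 16260632))) (b (l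 6) (c (l 16423064) (l 16326864)))))))), by decide +kernel⟩

def k2_pm_202 : ∃ t, chk3 f_pm_202 t 6 5 1 = true :=
  ⟨(a (a (b (b (b (b (c (l 16260952) (a (l 16185216) (l 16202416))) (a (l 16217248) (l 16233640))) (c (l 16286152) (a (l 16235984) (l 16248088)))) (b (c (l 16346432) (l 16262936)) (c (l 16386976) (l 16327056)))) (b (b (c (l 16427792) (l 16370520)) (l 16357584)) (a (l 16379336) (l 16348048)))) (b (b (a (b (c (l 16298968) (b (l 16221432) (l 16237008))) (b (l 16288840) (l 16305568))) (b (c (l 16321080) (b (l 16242696) (l 16256112))) (c (l 16348928) (l 16256568)))) (b (c (l 16371528) (b (l 16273208) (l 16310816))) (c (l 16404040) (l 16336032)))) (b (c (l 16326528) (b (l 16369632) (l 16402416))) (b (l 16340768) (l 16368288))))) (a (b (b (c (b (b (l 16332728) (l 16364048)) (b (l 16374912) (l 16386184))) (b (b (a (l 16266432) (l 16292600)) (l 16268536)) (a (l 16274464) (l 16294464)))) (b (c (l 16361672) (b (l 16301408) (l 16312912))) (c (l 16427304) (l 16351208))))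 (b (c (b (l 16450488) (l 16472312)) (b (l 16374096) (l 16395856))) (b (b (l 16366568) (l 16375728)) (b (l 16384448) (l 16371688))))) (b (b (c (b (a (l 16400816) (l 16431704)) (a (l 16415912) (l 16442072))) (b (a (l 16303200) (l 16332744)) (a (l 16316456) (l 16361368)))) (c (b (l 16358808) (l 16456424)) (b (a (l 16330864) (l 16369880)) (l 16330632)))) (b (c (b (l 16469168) (l 16479904)) (b (l 16383552) (l 16392720))) (b (c (l 16489048) (l 16400584)) (c (l 16496576) (l 16407144))))))), by decide +kernel⟩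

def k3_pm_202 : ∃ t, chk3 f_pm_202 t 7 2 1 = true :=
  ⟨(b (l 6) (b (a (b (b (a (a (c (l 16464888) (b (l 16386184) (l 16386744))) (l 6)) (l 6)) (b (a (a (c (l 16468904) (l 16387488)) (l 16363448)) (l 6)) (a (a (a (l 16403200) (b (l 16438432) (b (l 16438816) (l 16376120)))) (b (l 16405848) (b (l 16406040) (l 16364160)))) (a (b (l 6) (b (l 6) (l 16427872))) (l 6))))) (a (c (a (b (l 16475928) (l 16480968)) (l 16446696)) (a (b (l 16347912) (l 16391552)) (b (l 16426152) (l 16422344)))) (b (a (b (l 16406352) (l 16404984)) (l 16406504)) (a (l 16359880) (l 16399704))))) (b (l 6) (a (a (b (l 6) (l 16460584)) (l 6)) (l 6)))) (c (a (b (a (a (b (l 16484960) (l 16487248)) (b (l 16507664) (l 16461832))) (b (l 16495768) (l 16529768))) (a (a (l 16446288) (c (l 16518672) (l 16472008))) (l 16432456))) (b (a (b (l 16425840) (l 16413488)) (a (c (l 16447168) (l 16454752)) (b (l 6) (l 16347512)))) (a (c (l 16399536) (l 16457088)) (a (l 16331432) (b (l 16355544) (l 16364320)))))) (a (a (b (a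 (b (l 16392568) (l 16392224)) (b (l 16416200) (l 16408376))) (a (l 16368800) (b (l 16399232) (l 16390096)))) (b (b (l 16371464) (l 16380664)) (c (l 16407088) (l 16357840)))) (a (b (a (l 16445992) (l 16506384)) (b (l 16442400) (l 16446888))) (a (b (l 16439016) (l 16440848)) (b (b (l 6) (l 16424328)) (l 16356768)))))))), by decide +kernel⟩

def k4_pm_202 : ∃ t, chk3 f_pm_202 t 4 6 1 = true :=
  ⟨(b (a (b (b (l 16287256) (l 16232072)) (b (a (l 16242600) (l 16206584)) (a (l 16221800) (l 16181928)))) (b (a (a (l 16210360) (a (b (l 16242824) (l 16199704)) (b (l 16247792) (l 16258456)))) (c (l 16124040) (l 16140128))) (a (b (l 16169840) (l 16141424)) (a (b (a (b (l 16164184) (l 16141832)) (l 16167800)) (a (l 16116168) (b (l 16129016) (l 16147920)))) (b (l 16194120) (l 16165568)))))) (b (a (b (a (l 16205840) (l 16162432)) (a (l 16194088) (l 16147336))) (a (b (l 16118264) (c (l 16125328) (l 16073656))) (a (b (c (l 16132680) (l 16080992)) (l 16062576)) (c (b (l 16120344) (a (b (l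 16083072) (l 16069096)) (l 16087528))) (b (l 16072760) (a (b (l 16028384) (l 16012248)) (l 16035368))))))) (a (b (a (l 16186392) (l 16136528)) (a (l 16182544) (l 16129800))) (a (b (c (l 16112416) (l 16058712)) (c (l 16103632) (l 16048296))) (b (a (l 16046312) (c (a (l 16055040) (b (l 16058312) (l 16064600))) (a (l 15996024) (b (l 16000992) (l 15983808))))) (a (c (l 16063704) (l 16004728)) (b (c (l 16039768) (l 15978848)) (l 16002656)))))))), by decide +kernel⟩

def k5_pm_202 : ∃ t, chk3 f_pm_202 t 5 6 1 = true :=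
  ⟨(b (a (b (a (b (l 16344392) (l 16293104)) (b (l 16397688) (l 16351688))) (a (c (b (l 16254712) (l 16211888)) (l 16125616)) (b (l 16308048) (l 16245528)))) (b (a (b (l 16449464) (l 16408696)) (a (l 16385536) (l 16433000))) (a (b (l 16370048) (l 16332824)) (c (l 16402272) (l 16407280))))) (a (b (c (a (b (l 16170840) (a (l 16114184) (l 16148688))) (b (l 16234264) (l 16198728))) (a (b (l 16137448) (l 16091616)) (l 16198104))) (a (b (a (c (l 16075920) (l 16024368)) (c (l 16112184) (l 16070544))) (a (b (c (l 16048392) (l 15991792)) (a (a (c (l 16019392) (l 15956216)) (l 15995632)) (l 16012112))) (c (l 16077528) (l 16029496)))) (b (c (l 16164864) (l 16137760)) (c (l 16132704) (l 16099672))))) (b (a (c (l 16259208) (l 16279960)) (c (l 16343080) (l 16360712))) (a (c (b (l 16233936) (l 16205056)) (l 16208784)) (b (l 16306896) (l 16278904)))))), by decide +kernel⟩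

def k6_pm_202 : ∃ t, chk3 f_pm_202 t 4 14 1 = true :=
  ⟨(a (b (a (b (l 16182384) (l 16185856)) (b (l 16126992) (l 16128008))) (a (b (l 16192824) (l 16203064)) (b (l 16132720) (l 16161784)))) (b (a (b (c (l 16098792) (l 16042208)) (c (l 16097784) (l 16040320))) (b (c (l 16042496) (l 15980688)) (c (l 16039152) (l 15976224)))) (a (b (c (l 16100480) (l 16042480)) (c (l 16106576) (l 16048360))) (b (c (l 16039688) (l 15975992)) (c (l 16043736) (l 15979576)))))), by decide +kernel⟩

def k7_pm_202 : ∃ t, chk3 f_pm_202 t 5 14 1 = true :=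
  ⟨(a (a (b (a (b (a (b (c (a (l 16011136) (l 16010088)) (a (l 15946432) (l 15945808))) (c (l 16004560) (l 15938888))) (b (c (l 16023512) (l 15962920)) (c (l 16049032) (l 15943184)))) (a (c (l 16000432) (l 15933600)) (b (a (c (l 16012928) (l 15924680)) (c (l 15996120) (l 15930312))) (a (l 15974936) (c (b (l 15985744) (l 15981600)) (a (l 15914560) (l 15915704))))))) (b (c (l 16044752) (l 15990360)) (c (a (l 16003776) (l 16023952)) (b (l 15962272) (l 15944184))))) (a (b (c (b (l 15991600) (l 15991712)) (b (l 15923280) (l 15922896))) (c (l 15993912) (l 15924640))) (b (a (b (c (a (a (l 15976216) (l 15978952)) (l 15986864)) (a (a (l 15906488) (l 15910096)) (l 15920064))) (a (c (l 15971960) (l 15901184)) (c (b (l 15976280) (l 15969896)) (l 15924200)))) (c (l 15995392) (l 15931056))) (a (b (b (a (l 15936016) (c (l 15986912) (l 15894280))) (c (l 15968280) (l 15896472))) (c (l 15969000) (l 15896800))) (b (c (l 15974984) (l 15905944)) (a (a (c (l 15959504) (l 15886408)) (c (b (l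 15962520) (l 15957256)) (l 15887304))) (c (l 15967288) (l 15896528)))))))) (b (b (a (c (l 16083088) (l 16038968)) (l 16104024)) (a (c (l 16053752) (l 16003536)) (c (l 16093112) (l 16053328)))) (a (b (c (l 16026144) (l 15969816)) (c (a (l 15989576) (l 16010520)) (a (l 15924432) (l 15950776)))) (b (c (l 16066840) (l 16021160)) (c (l 16041904) (l 15990272)))))) (c (b (a (b (l 16177720) (l 16151960)) (l 16282320)) (a (b (l 16127568) (l 16104280)) (b (l 16206800) (l 16185568)))) (b (a (b (l 16159040) (l 16127800)) (l 16239376)) (a (b (l 16097824) (l 16068848)) (l 16163896))))), by decide +kernel⟩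

def k8_pm_202 : ∃ t, chk3 f_pm_202 t 4 15 1 = true :=
  ⟨(a (b (b (a (l 16216152) (l 16151928)) (a (l 16231744) (l 16165696))) (b (a (l 16249712) (l 16181976)) (a (l 16269888) (l 16200616)))) (b (a (b (c (l 16115608) (l 16057456)) (c (l 16127344) (l 16069504))) (b (c (l 16050824) (l 15986480)) (c (l 16060760) (l 15996488)))) (a (b (c (l 16141608) (l 16084320)) (c (l 16158232) (l 16101752))) (b (c (l 16073360) (l 16009400)) (c (l 16088432) (l 16025056)))))), by decide +kernel⟩

def k9_pm_202 : ∃ t, chk3 f_pm_202 t 10 15 2 = true :=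
  ⟨(a (b (b (a (l 15999552) (a (l 15973000) (b (a (l 15958352) (a (b (l 15955488) (l 15952928)) (l 15957248))) (c (l 15975568) (l 15939104))))) (a (l 16008136) (l 15971688))) (b (a (l 16019480) (l 15982184)) (a (l 16033376) (l 15995304)))) (b (a (b (a (a (b (l 15965368) (c (l 15971808) (l 15935456))) (l 15969992)) (l 15986088)) (a (b (a (a (l 15948952) (b (l 15947592) (l 15945800))) (l 15952256)) (a (l 15950568) (a (l 15965736) (b (l 15946472) (l 15942648))))) (b (l 15968640) (l 15957440)))) (b (l 16018232) (a (l 15984888) (l 16006712)))) (a (b (a (b (l 15950944) (l 15956376)) (b (a (a (b (l 15941744) (l 15940768)) (l 15943840)) (l 15952120)) (a (b (l 15941432) (l 15943296)) (a (b (l 15941408) (l 15938448)) (l 15944424))))) (b (a (l 15962648) (a (l 15947952) (a (l 15940784) (b (l 15937920) (l 15937816))))) (l 15959672))) (b (a (b (l 15968744) (l 15958392)) (l 15985752)) (a (b (c (l 15967120) (l 15929376)) (a (a (l 15938336) (b (l 15938240) (l 15936232))) (l 15944304)))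 (l 15966008)))))), by decide +kernel⟩

def k10_pm_202 : ∃ t, chk3 f_pm_202 t 10 15 3 = true :=
  ⟨(a (b (b (a (l 15929896) (a (l 15900472) (a (l 15907096) (b (a (b (l 15881776) (l 15878408)) (l 15884040)) (b (l 15877648) (l 15877640)))))) (a (l 15938360) (l 15897912))) (b (a (l 15949840) (l 15908416)) (a (l 15964152) (l 15921840)))) (b (a (b (a (b (l 15900968) (a (b (l 15882768) (l 15918072)) (l 15892536))) (l 15920264)) (a (b (a (a (l 15872960) (b (l 15871864) (l 15869328))) (l 15877704)) (a (l 15874112) (a (l 15888736) (b (l 15870344) (l 15865328))))) (b (l 15898248) (l 15884008)))) (b (l 15960616) (a (l 15918496) (l 15945840)))) (a (b (a (b (l 15873968) (l 15879368)) (b (a (a (b (l 15864104) (l 15862488)) (l 15866680)) (l 15877056)) (a (b (l 15862952) (l 15864608)) (a (b (l 15863392) (l 15859368)) (l 15867072))))) (b (a (l 15885744) (a (l 15869336) (b (a (l 15859696) (l 15858536)) (l 15860536)))) (l 15881792))) (b (b (l 15911696) (l 15898464)) (a (a (a (b (l 15861176)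 (l 15858032)) (b (l 15868008) (b (l 15858488) (l 15855560)))) (l 15872192)) (l 15893272)))))), by decide +kernel⟩

def k11_pm_202 : ∃ t, chk3 f_pm_202 t 11 15 1 = true :=
  ⟨(b (a (b (c (l 16082080) (l 16040864)) (a (c (l 16039320) (l 15986728)) (l 16061552))) (b (c (l 16165184) (l 16145704)) (a (l 16109280) (l 16156064)))) (a (b (a (c (l 16018912) (l 15960416)) (c (l 16062672) (l 16015296))) (a (c (l 15999640) (l 15935280)) (c (l 16044008) (l 15990808)))) (a (b (l 16087456) (l 16066528)) (b (l 16134912) (l 16114536))))), by decide +kernel⟩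

def k12_pm_202 : ∃ t, chk3 f_pm_202 t 6 3 1 = true :=
  ⟨(b (b (a (b (a (a (l 16458904) (l 16442064)) (a (l 16414592) (l 16396016))) (a (c (l 16455448) (l 16497448)) (c (l 16504744) (l 16547224)))) (b (a (b (l 16341800) (l 16357304)) (c (l 16423152) (b (l 16413784) (l 16420384)))) (a (c (l 16547440) (l 16404600)) (b (c (l 16516648) (l 16426944)) (l 16291208))))) (a (b (a (b (l 16349792) (l 16344112)) (a (l 16322672) (l 16395432))) (a (c (l 16356024) (l 16383656)) (b (l 16325416) (l 16303880)))) (b (a (c (l 16509176) (l 16475280)) (c (l 16529256) (l 16316960))) (a (c (l 16473248) (l 16538080)) (c (l 16518784) (l 16351744)))))) (b (a (a (b (c (l 16312808) (l 16331936)) (c (l 16272784) (l 16282472))) (b (b (l 16282824) (l 16304136)) (c (l 16343312) (l 16373656)))) (b (a (a (l 16303552) (l 16376896)) (c (l 16486984) (l 16409856))) (a (b (l 16290888) (l 16271696)) (c (l 16453888) (l 16492656))))) (a (b (a (c (l 16235144) (l 16234544)) (c (l 16308056) (l 16328728))) (a (c (l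 16220984) (b (l 16199680) (l 16177168))) (c (l 16274408) (l 16284552)))) (b (a (b (l 16273440) (l 16254216)) (c (l 16419856) (l 16481256))) (a (a (l 16292592) (l 16220320)) (a (l 16228520) (l 16274824))))))), by decide +kernel⟩

def k13_pm_202 : ∃ t, chk3 f_pm_202 t 7 3 2 = true :=
  ⟨(b (a (b (a (b (a (l 16468008) (c (l 16507752) (l 16437696))) (a (l 16488952) (c (l 16495976) (l 16424464)))) (b (l 16433064) (l 16451968))) (a (b (b (l 16369768) (l 16409464)) (a (l 16487752) (l 16452936))) (b (l 16449192) (l 16323520)))) (b (b (a (b (l 16401704) (l 16412912)) (a (c (l 16419240) (l 16410280)) (b (l 16373752) (l 16362784)))) (a (a (l 16504992) (l 16418800)) (a (b (l 16377768) (l 16367464)) (b (l 16372864) (l 16361512))))) (b (a (l 16296360) (a (c (l 16376104) (l 16410648)) (b (l 16349576) (l 16336912)))) (a (l 16253856) (a (c (l 16351696) (l 16385760)) (c (l 16302048) (l 16331608))))))) (a (b (a (b (l 16407696) (l 16453416)) (a (b (l 16426440) (l 16396488)) (l 16321656)))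 (a (b (l 16434408) (l 16419136)) (b (a (l 16373800) (l 16408872)) (a (l 16418448) (l 16399256))))) (b (b (a (l 16228984) (a (c (l 16324064) (l 16356856)) (b (l 16293576) (l 16277152)))) (a (l 16199864) (a (c (l 16292848) (l 16323528)) (b (l 16259704) (l 16242032))))) (a (b (l 16168984) (l 16190616)) (b (b (a (l 16282376) (l 16225024)) (l 16090568)) (a (l 16180376) (l 16080944))))))), by decide +kernel⟩

def k14_pm_202 : ∃ t, chk3 f_pm_202 t 7 3 3 = true :=
  ⟨(b (a (b (a (b (a (l 16387400) (b (l 16381000) (l 16351232))) (a (l 16386128) (a (l 16364208) (l 16315864)))) (b (a (l 16402648) (l 16393600)) (a (l 16376472) (l 16384976)))) (a (a (b (l 16386056) (l 16388808)) (b (b (l 16350224) (l 16345608)) (l 16279576))) (b (l 16237952) (a (l 16266096) (l 16351648))))) (b (a (b (b (l 16430008) (l 16433792)) (a (l 16414192) (l 16463248))) (b (b (l 16337504) (l 16328600)) (b (l 16340344) (l 16351576)))) (b (a (l 16290488) (c (l 16315728) (l 16401976))) (a (l 16303832) (c (l 16310248)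 (l 16389368)))))) (a (b (a (a (b (l 16397080) (l 16411360)) (b (l 16345040) (l 16333560))) (b (a (a (l 16310912) (l 16314608)) (l 16331968)) (a (a (l 16310984) (l 16304168)) (l 16318832)))) (a (b (l 16255664) (l 16361728)) (b (a (a (l 16325224) (l 16304192)) (l 16312976)) (a (a (l 16344592) (l 16291672)) (l 16309912))))) (b (b (a (l 16322880) (c (l 16278880) (l 16361776))) (a (l 16328152) (c (l 16221384) (l 16340488)))) (a (b (l 16316288) (l 16326568)) (b (c (l 16199432) (l 16322632)) (c (l 16211984) (l 16285672))))))), by decide +kernel⟩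

theorem s15_pm_202 : ∃ t, chk3 f_pm_202 t 7 3 1 = true := ex3_c k13_pm_202 k14_pm_202

theorem s16_pm_202 : ∃ t, chk3 f_pm_202 t 3 3 1 = true := ex3_a k12_pm_202 s15_pm_202

theorem s17_pm_202 : ∃ t, chk3 f_pm_202 t 10 15 1 = true := ex3_c k9_pm_202 k10_pm_202

theorem s18_pm_202 : ∃ t, chk3 f_pm_202 t 5 15 1 = true := ex3_a s17_pm_202 k11_pm_202

theorem s19_pm_202 : ∃ t, chk3 f_pm_202 t 2 15 1 = true := ex3_a k8_pm_202 s18_pm_202

theorem s20_pm_202 : ∃ t, chk3 f_pm_202 t 2 14 1 = true := ex3_a k6_pm_202 k7_pm_202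

theorem s21_pm_202 : ∃ t, chk3 f_pm_202 t 2 7 1 = true := ex3_b s20_pm_202 s19_pm_202

theorem s22_pm_202 : ∃ t, chk3 f_pm_202 t 2 6 1 = true := ex3_a k4_pm_202 k5_pm_202

theorem s23_pm_202 : ∃ t, chk3 f_pm_202 t 2 3 1 = true := ex3_b s22_pm_202 s21_pm_202

theorem s24_pm_202 : ∃ t, chk3 f_pm_202 t 1 3 1 = true := ex3_a s23_pm_202 s16_pm_202

theorem s25_pm_202 : ∃ t, chk3 f_pm_202 t 6 2 1 = true := ex3_b k1_pm_202 k2_pm_202

theorem s26_pm_202 : ∃ t, chk3 f_pm_202 t 3 2 1 = true := ex3_a s25_pm_202 k3_pm_202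

theorem s27_pm_202 : ∃ t, chk3 f_pm_202 t 1 2 1 = true := ex3_a k0_pm_202 s26_pm_202

theorem s28_pm_202 : ∃ t, chk3 f_pm_202 t 1 1 1 = true := ex3_b s27_pm_202 s24_pm_202

theorem c_pm_202 : CertB 0 536870912 0 536870912 923417968 42949674 3 eng mog cd0q2 cd0q0 pd2 true true false .pp 2 0 2
    ndB0q2 ndB0q0 pcB2 cut_pm_202 Ext.none :=
  certB1 (fam := true) (s1 := true) (s2 := false) (a := 2) (b := 0) (c := 2) (cn := .pp) (n1 := ndB0q2) (n2 := ndB0q0) (pc := pcB2) (cut := cut_pm_202) (xt := Ext.none) (P1 := 0) (W1 := 536870912) (P2 := 0) (W2 := 536870912) (P3 := 923417968) (W3 := 42949674) (N0 := 3) (En := eng) (mo := mog) (C1 := cd0q2) (C2 := cd0q0) (C3 := pd2)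
    rfl (fun _ => rfl) s28_pm_202

noncomputable def cut_pm_203 : Cut := Cut.of [[⟨3, 0, 0, 1449551462⟩], [⟨4, 0, 0, 2845415833⟩]]

noncomputable def f_pm_203 : ℕ → ℕ → ℕ → ℕ → Bool := onCell 0 536870912 1610612736 536870912 923417968 42949674
    (rowB 3 eng mog cd0q2 cd0q0 pd3 1 true true false .up 2 0 3 (qsf 0 536870912 0 536870912 3) ndB0q2 ndB0q0 pcB3 cut_pm_203 Ext.none)

def k0_pm_203 : ∃ t, chk3 f_pm_203 t 4 4 1 = true :=
  ⟨(b (c (b (a (c (l 16596456) (b (l 16523144) (l 16547216))) (c (l 16566456) (b (l 16473568) (l 16499992)))) (a (b (l 16451360) (a (l 16627048) (l 16608280))) (b (l 16436512) (l 16458016)))) (b (a (b (a (l 16349560) (l 16327392)) (a (l 16381056) (l 16360504))) (b (a (l 16286232) (l 16226128)) (a (l 16320944) (l 16283336)))) (a (b (a (l 16411728) (l 16392848)) (a (l 16420744) (l 16403784))) (b (a (l 16354968) (l 16318952)) (a (l 16388528) (l 16354120)))))) (b (b (c (a (a (l 16645728) (l 16627536)) (l 16498984)) (a (a (l 16450448) (l 16434848))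 (a (l 16421064) (l 16409144)))) (a (a (l 14) (c (l 16645392) (l 16485480))) (c (l 16538248) (a (l 16472984) (l 16440792))))) (b (a (a (l 14) (c (l 16661120) (l 16512768))) (c (l 16574928) (a (l 16501336) (l 16469952)))) (a (l 14) (c (l 16588432) (a (l 16506424) (l 16496688))))))), by decide +kernel⟩

def k1_pm_203 : ∃ t, chk3 f_pm_203 t 5 4 1 = true :=
  ⟨(b (c (a (b (a (l 16314960) (b (l 16309272) (l 16375272))) (a (l 16382928) (l 16390120))) (a (b (l 16257736) (a (l 16382376) (l 16528584))) (b (l 16494256) (l 16529544)))) (a (b (a (b (l 16168088) (l 16226640)) (a (b (l 16246272) (l 16284760)) (b (a (l 16192552) (l 16237960)) (l 16080832)))) (a (b (l 16284672) (l 16321248)) (b (l 16231128) (l 16289464)))) (b (a (b (l 16203984) (c (l 16346376) (l 16231056))) (l 16158576)) (a (a (b (l 16178496) (l 16207672)) (l 16209096)) (l 16178928))))) (a (b (c (a (l 16486168) (l 16492376)) (b (a (l 16377128) (l 16345848)) (a (l 16430320) (l 16399280)))) (c (c (l 16607880) (l 16565368))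 (b (a (l 16459928) (l 16429000)) (a (l 16486992) (l 16456040))))) (c (b (a (a (l 16481200) (l 16497528)) (l 16556088)) (a (b (l 16580896) (l 16588464)) (c (l 16539328) (l 16548336)))) (b (a (b (a (l 16301904) (l 16325208)) (a (l 16397192) (l 16326336))) (c (l 16448432) (l 16357696))) (a (b (a (l 16426864) (l 16349992)) (l 16424976)) (b (l 16300376) (a (l 16370000) (l 16445504)))))))), by decide +kernel⟩

def k2_pm_203 : ∃ t, chk3 f_pm_203 t 2 5 1 = true :=
  ⟨(b (a (a (l 14) (b (c (b (l 16599888) (l 16588520)) (c (b (l 16561192) (l 16580272)) (b (l 16468224) (l 16472280)))) (l 2))) (b (a (c (c (l 16613184) (l 16572080)) (c (a (l 16531712) (l 16525832)) (a (l 16449800) (l 16477320)))) (b (a (c (l 16587176) (l 16449448)) (a (c (l 16566584) (l 16387104)) (l 2))) (l 2))) (l 2))) (l 2)), by decide +kernel⟩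

def k3_pm_203 : ∃ t, chk3 f_pm_203 t 3 2 1 = true :=
  ⟨(b (a (b (a (c (b (l 16397304) (l 16424288)) (b (a (l 16310992) (l 16420808)) (a (l 16369408) (l 16451440)))) (b (c (a (l 16502064) (l 16451168)) (a (l 16463352) (l 16463320))) (c (a (l 16475048) (l 16422824)) (a (l 16484128) (l 16436096))))) (a (c (b (c (l 16502344) (l 16528760)) (a (l 16526992) (l 16488216))) (b (c (l 16484624) (l 16343448)) (a (l 16420336) (l 16486640)))) (a (b (c (l 16455448) (l 16494112)) (c (l 16442208) (l 16481400))) (b (c (l 16401808) (l 16416000)) (l 2))))) (a (b (a (b (c (l 16389440) (l 16366400)) (c (l 16318144) (l 16277584))) (b (c (a (l 16291384) (l 16286264)) (a (l 16282472) (l 16224480))) (c (a (l 16303400) (l 16257808)) (a (l 16257928) (l 16199384))))) (a (b (c (l 16337544) (l 16279320)) (l 2)) (l 2))) (b (a (b (a (l 16199200) (c (l 16169880) (l 16104456))) (a (l 16172880) (l 2))) (b (a (b (l 16083576) (l 16069656)) (b (l 16104200) (l 2))) (l 2))) (l 2)))) (a (l 2) (l 2))), by decide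 +kernel⟩

def k4_pm_203 : ∃ t, chk3 f_pm_203 t 1 3 1 = true :=
  ⟨(l 2), by decide +kernel⟩

theorem s5_pm_203 : ∃ t, chk3 f_pm_203 t 2 4 1 = true := ex3_a k0_pm_203 k1_pm_203

theorem s6_pm_203 : ∃ t, chk3 f_pm_203 t 2 2 1 = true := ex3_b s5_pm_203 k2_pm_203

theorem s7_pm_203 : ∃ t, chk3 f_pm_203 t 1 2 1 = true := ex3_a s6_pm_203 k3_pm_203

theorem s8_pm_203 : ∃ t, chk3 f_pm_203 t 1 1 1 = true := ex3_b s7_pm_203 k4_pm_203

theorem c_pm_203 : CertB 0 536870912 0 536870912 923417968 42949674 3 eng mog cd0q2 cd0q0 pd3 true true false .up 2 0 3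
    ndB0q2 ndB0q0 pcB3 cut_pm_203 Ext.none :=
  certB1 (fam := true) (s1 := true) (s2 := false) (a := 2) (b := 0) (c := 3) (cn := .up) (n1 := ndB0q2) (n2 := ndB0q0) (pc := pcB3) (cut := cut_pm_203) (xt := Ext.none) (P1 := 0) (W1 := 536870912) (P2 := 0) (W2 := 536870912) (P3 := 923417968) (W3 := 42949674) (N0 := 3) (En := eng) (mo := mog) (C1 := cd0q2) (C2 := cd0q0) (C3 := pd3)
    rfl (fun _ => rfl) s8_pm_203

noncomputable def cut_pm_213 : Cut := Cut.of [[⟨3, 0, 0, 1449551462⟩], [⟨4, 0, 0, 2845415833⟩], [⟨0, 1, 0, 67108864⟩, ⟨1, 1, 0, 67108864⟩, ⟨2, 2, 0, 16252928⟩], [⟨0, 1, 0, 8388608⟩, ⟨1, 0, 1, 20971520⟩, ⟨2, 1, 1, 20971520⟩]]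

noncomputable def xt_pm_213 : Ext := extD2 3 ⟨4, 1, 1, 5, 17, 5, 87, 100, 43, 100, 1, 8⟩ eng cd0q2 cd0q1 pd3 true true false .pnn 2 1 3 rfl ndB0q2 ndB0q1 pcB3

noncomputable def f_pm_213 : ℕ → ℕ → ℕ → ℕ → Bool := onCell 0 536870912 1610612736 536870912 923417968 42949674
    (rowB 3 eng mog cd0q2 cd0q1 pd3 1 true true false .pnn 2 1 3 (qsf 0 536870912 536870912 536870912 3) ndB0q2 ndB0q1 pcB3 cut_pm_213 xt_pm_213)

def k0_pm_213 : ∃ t, chk3 f_pm_213 t 2 1 1 = true :=
  ⟨(b (b (a (l 1) (b (l 1) (b (l 1) (b (l 1) (a (l 1) (a (l 1) (c (l 16559800) (a (l 16369984) (l 16445488))))))))) (b (a (a (l 14) (b (b (l 1) (a (l 14) (c (l 16663488) (l 16543384)))) (l 14))) (a (b (c (c (l 16613184) (l 16530088)) (a (b (l 16490520) (l 16513280)) (b (l 16480464) (l 16503176)))) (c (b (l 16610496) (l 16614384)) (c (a (l 16609984) (l 16582920)) (a (l 16499240) (l 16506648))))) (c (b (a (l 16566032) (a (l 16545072) (l 16549800))) (a (l 16589320) (c (l 16544952) (l 16572296)))) (b (a (b (l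 16428464) (l 16493240)) (b (a (l 16387096) (l 16455816)) (a (l 16470208) (l 16425144)))) (a (c (l 16555752) (l 16492968)) (a (l 16418928) (b (l 16460192) (l 16498240)))))))) (a (l 14) (a (a (l 14) (b (b (c (l 16625296) (l 16586200)) (c (l 16630912) (l 16604856))) (l 14))) (a (b (c (l 16575568) (b (l 16555720) (l 16574440))) (b (c (l 16605192) (l 16592016)) (l 14))) (c (b (l 16522616) (a (l 16583960) (l 16566944))) (b (b (l 16525352) (l 16544120)) (b (l 16561624) (l 16577560))))))))) (a (l 14) (b (b (b (b (a (l 14) (a (l 14) (a (l 14) (l 16541568)))) (l 14)) (l 14)) (l 14)) (l 14)))), by decide +kernel⟩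

def k1_pm_213 : ∃ t, chk3 f_pm_213 t 3 4 1 = true :=
  ⟨(a (b (l 1) (a (b (l 1) (c (a (l 16527000) (l 16488216)) (a (l 16399304) (l 16486592)))) (b (c (a (l 16455472) (l 16401824)) (a (l 16494040) (l 16416024))) (c (a (l 16442216) (l 16386968)) (a (l 16481400) (l 16401040)))))) (a (b (b (l 1) (a (c (l 16297216) (l 16256672)) (c (a (l 16303424) (l 16257824)) (a (l 16257960) (l 16199408))))) (a (b (c (l 16316584) (l 16258368)) (c (l 16321200) (l 16307392))) (c (b (a (l 16280024) (l 16234904)) (a (l 16262328) (l 16217136))) (b (a (l 16239832) (l 16180536)) (c (l 16207776) (l 16163104)))))) (b (a (a (b (l 16220232) (l 16172896)) (b (a (l 16154080) (l 16123312)) (l 16113216))) (b (a (b (l 16083592) (l 16069664)) (b (c (l 16053856) (l 15984320)) (l 16027624))) (a (c (l 16083096) (l 16017096)) (c (l 16021680) (l 15953192))))) (a (b (a (l 16152672) (l 16093112)) (a (l 16137400) (l 16078304))) (b (a (l 16073592) (c (l 16002184) (l 15934160))) (a (l 16017328) (c (l 15988592) (l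 15920344)))))))), by decide +kernel⟩

def k2_pm_213 : ∃ t, chk3 f_pm_213 t 6 5 1 = true :=
  ⟨(b (a (b (c (a (l 16522656) (l 16482232)) (a (l 16374336) (l 16496592))) (a (b (c (l 16522800) (l 16491344)) (c (l 16524440) (l 16415816))) (c (l 16481680) (l 16505312)))) (c (b (a (l 16434576) (l 16377800)) (a (l 16432688) (l 16374688))) (b (a (l 16469296) (l 16390056)) (a (l 16460960) (l 16383208))))) (a (b (a (c (c (l 16540944) (l 16538288)) (a (a (l 16390392) (l 16397688)) (l 16409072))) (c (l 16486824) (l 16491920))) (a (c (b (l 16536832) (l 16543520)) (b (a (l 16538248) (l 16527000)) (l 16483280))) (c (b (l 16494656) (l 16501904)) (b (l 16517200) (l 16517744))))) (b (c (a (l 16457912) (l 16378248)) (a (l 16456768) (l 16380936))) (c (a (l 16552816) (l 16452336)) (a (l 16478488) (b (l 16382776) (l 16385984))))))), by decide +kernel⟩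

def k3_pm_213 : ∃ t, chk3 f_pm_213 t 7 5 1 = true :=
  ⟨(a (b (a (b (c (l 16310600) (l 16297624)) (c (l 16306456) (l 16292392))) (b (c (a (l 16250744) (l 16205288)) (a (l 16217672) (l 16158296))) (c (a (l 16245960) (l 16200392)) (a (l 16213776) (l 16155576))))) (b (a (c (l 16393544) (b (l 16291784) (l 16293152))) (c (b (l 16225056) (l 16228968)) (b (l 16186104) (l 16188728)))) (a (c (b (l 16317608) (l 16326064)) (b (l 16296048) (l 16300792))) (c (b (l 16235560) (l 16245312)) (b (l 16193112) (l 16199600)))))) (b (a (b (b (l 16100232) (a (l 16126104) (l 16067816))) (a (b (l 16124368) (l 16124296)) (l 16066392))) (b (a (l 16008816) (c (l 15981824) (l 15912336))) (a (c (l 16039344) (l 15973184)) (c (l 15982472) (l 15909584))))) (a (b (a (c (l 16196608) (l 16120176)) (l 16112984)) (a (c (b (l 16165008) (l 16176352)) (b (l 16106240) (l 16114064))) (b (l 16080880) (l 16091664)))) (b (a (c (l 16047728) (l 15976904)) (c (l 15993104) (l 15913648))) (a (c (l 16069408) (l 15989680))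 (c (b (l 16010488) (l 16028448)) (l 15970104))))))), by decide +kernel⟩

def k4_pm_213 : ∃ t, chk3 f_pm_213 t 6 3 1 = true :=
  ⟨(b (b (a (a (b (b (c (l 16551632) (l 16557888)) (c (l 16561560) (l 16564840))) (l 14)) (b (c (b (a (l 16522136) (l 16499360)) (a (l 16532536) (l 16510528))) (b (a (l 16531776) (l 16507032)) (a (l 16535192) (l 16511632)))) (b (a (c (l 16545144) (l 16541504)) (c (l 16524056) (l 16518824))) (l 14)))) (b (c (a (b (l 16461352) (l 16473192)) (b (l 16403784) (l 16416928))) (a (b (l 16462264) (l 16468104)) (b (l 16391176) (l 16398856)))) (a (c (b (l 16487864) (l 16547624)) (b (l 16476816) (a (l 16503408) (l 16473848)))) (c (b (l 16433424) (l 16453752)) (b (l 16409616) (l 16424072)))))) (a (l 14) (b (a (l 14) (b (c (l 16477928) (l 16442472)) (l 14))) (l 14)))) (l 14)), by decide +kernel⟩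

def k5_pm_213 : ∃ t, chk3 f_pm_213 t 7 12 1 = true :=
  ⟨(a (b (a (c (b (l 16337560) (l 16352640)) (b (l 16307792) (l 16317664))) (c (b (l 16300824) (a (l 16297232) (l 16256448))) (b (l 16208848) (l 16221600)))) (a (c (b (l 16371896) (a (l 16410968) (l 16380184))) (b (l 16331096) (l 16390592))) (c (b (a (l 16319320) (l 16281032)) (a (l 16346816) (l 16311640))) (b (a (l 16263352) (l 16213712)) (a (l 16284136) (l 16237152)))))) (a (b (a (c (b (l 16192280) (c (l 16232032) (l 16195320))) (b (l 16125296) (l 16140896))) (b (l 16148928) (c (l 16169936) (l 16085512)))) (c (a (b (c (l 16261544) (l 16221072)) (c (l 16298208) (l 16253472))) (b (b (l 16192568) (l 16210024)) (c (b (l 16254536) (l 16277672)) (l 16214680)))) (a (b (c (l 16181288) (l 16142208)) (l 16209328)) (b (l 16108912) (c (l 16164128) (l 16114128)))))) (b (a (b (c (l 16098744) (l 16009552)) (c (l 16126448) (l 16029464))) (c (b (l 16052760) (b (l 16075768) (l 16093688))) (b (l 15950928) (l 15973800)))) (c (a (b (c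 (l 16188280) (l 16135368)) (b (l 16194272) (l 16219168))) (b (a (l 16133864) (c (l 16147304) (l 16085256))) (a (c (l 16215328) (l 16151112)) (c (a (l 16206288) (l 138444008998436895)) (l 16135136))))) (a (b (l 16055960) (l 16090176)) (b (l 16004080) (b (l 16032552) (l 16054744)))))))), by decide +kernel⟩

def k6_pm_213 : ∃ t, chk3 f_pm_213 t 14 13 1 = true :=
  ⟨(b (b (a (c (a (l 16438328) (l 16410144)) (a (l 16389888) (l 16351616))) (c (a (l 16380104) (b (l 16339000) (l 16359568))) (a (l 16310248) (l 16266600)))) (a (c (b (l 16449080) (l 16509240)) (b (l 16390840) (l 16405832))) (c (b (a (l 16409296) (l 16382152)) (a (l 16431032) (b (l 16400504) (l 16413656)))) (b (a (l 16333784) (l 16293200)) (a (l 16351552) (l 16313376)))))) (b (a (l 14) (a (b (c (l 16455080) (l 16371128)) (l 14)) (c (b (c (l 16460928) (l 16409432)) (c (l 16493088) (l 16438832))) (b (l 16335872) (l 16402968))))) (l 14))), by decide +kernel⟩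

def k7_pm_213 : ∃ t, chk3 f_pm_213 t 15 26 1 = true :=
  ⟨(c (a (b (a (c (a (l 16349976) (l 16336560)) (l 16293616)) (a (b (l 16283384) (c (l 16337904) (l 16281480))) (c (l 16311336) (l 16252664)))) (a (b (b (l 16349472) (l 16363104)) (b (l 16398384) (c (l 16421680) (l 16364288)))) (a (b (a (l 16341432) (l 16398728)) (b (c (l 16393760) (l 16331568)) (c (l 16433104) (l 16348040)))) (b (l 16327496) (b (l 16353248) (l 16456008)))))) (c (b (b (a (l 16278568) (a (l 16263088) (l 139242323270615071))) (a (l 16311448) (a (l 16299792) (a (l 16337616) (l 139330078121787423))))) (a (b (c (l 16365872) (l 16330544)) (b (l 16378568) (a (l 16402256) (l 16400024)))) (a (b (l 139664604631400479) (b (l 140051838952898591) (a (l 16400016) (l 140343759342780447)))) (b (a (l 139659794264850463) (c (l 139904092047294495) (l 139431164522659871))) (b (a (l 140071767602544671) (c (a (l 140333382697091103) (l 140352211836420127)) (l 139851521637859359))) (a (b (l 140293662833459231) (c (l 140692785628643359)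 (l 16408808))) (a (b (l 140316752581148703) (l 140470409361195039)) (c (b (l 140584277553299487) (l 140743981648740383)) (l 140154918185091103))))))))) (b (a (b (l 16215552) (l 16244960)) (a (l 16209720) (b (l 16181112) (l 16237664)))) (a (b (l 16277896) (a (l 16319256) (l 16311312))) (a (b (l 16263616) (b (l 16294400) (l 16317072))) (b (a (l 16258296) (l 138716275677528095)) (b (a (l 16291120) (l 139110107068956703)) (a (l 139569153225605151) (b (l 139316815293218847) (l 139457003053187103)))))))))) (a (b (a (c (l 16245408) (l 16198584)) (c (l 16246672) (l 16149800))) (a (b (l 16252144) (c (l 16302056) (l 16248936))) (b (c (l 16241712) (l 16182472)) (a (c (l 16278040) (l 16217880)) (l 16229992))))) (b (a (b (l 16121840) (l 16146312)) (a (l 16103224) (b (l 16070184) (l 16099768)))) (a (b (l 16173840) (c (l 16262424) (l 16168728))) (b (a (l 16148200) (c (l 16174496) (l 16092184))) (a (c (l 16223976) (l 16142848)) (c (b (l 16204408) (l 16289392)) (l 16128104)))))))), by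 decide +kernel⟩

def k8_pm_213 : ∃ t, chk3 f_pm_213 t 30 54 1 = true :=
  ⟨(c (a (b (c (a (l 16450816) (l 16487672)) (b (l 16379968) (l 16396488))) (c (a (l 16487480) (c (l 16502728) (l 16469232))) (a (l 16426392) (l 16419816)))) (b (a (c (b (c (l 16448856) (l 16415376)) (a (l 16453432) (l 16473760))) (b (l 16365904) (l 16384784))) (c (b (l 16428312) (l 16451304)) (l 16367592))) (a (b (c (b (l 16469552) (l 16480880)) (l 16404712)) (c (b (l 16492512) (l 16504456)) (l 16425744))) (b (c (c (l 16494776) (l 16456552)) (l 16399920)) (a (c (b (l 16494440) (l 16528360)) (l 16423880)) (c (l 16501944) (l 16422416))))))) (a (b (c (l 16329912) (l 16273488)) (c (a (l 16367144) (l 16355480)) (l 16301208))) (b (a (c (l 16309592) (l 16245584)) (c (l 16296952) (l 16227720))) (a (c (c (l 16362528) (l 16328016)) (l 16277040)) (c (c (l 16354576) (l 16317248)) (l 16261984)))))), by decide +kernel⟩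

def k9_pm_213 : ∃ t, chk3 f_pm_213 t 62 54 1 = true :=
  ⟨(c (c (b (b (a (l 16425696) (l 16425376)) (a (l 16450528) (a (l 16451544) (l 16453160)))) (a (b (c (l 16497224) (l 16456536)) (c (l 16525840) (l 16483776))) (a (b (l 16479544) (l 16530280)) (b (l 16482368) (l 16576400))))) (b (a (l 16361040) (c (l 16377016) (l 16336216))) (a (b (l 16396080) (l 16421272)) (b (l 16394704) (l 16464144))))) (c (b (b (l 16269936) (l 16290632)) (a (l 16327608) (c (l 16343136) (l 16300024)))) (b (l 16202672) (b (l 16231400) (l 16252208))))), by decide +kernel⟩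

def k10_pm_213 : ∃ t, chk3 f_pm_213 t 63 54 1 = true :=
  ⟨(c (c (a (b (b (a (l 16426944) (a (l 16428432) (l 140656158142906399))) (a (l 16455600) (a (l 140951239634026527) (l 140970274933063711)))) (b (a (c (l 16508840) (l 16463456)) (b (l 141206876138094623) (l 141378606230159391))) (c (a (l 16542192) (l 30)) (a (l 16495240) (l 141381148768157727))))) (b (b (b (a (l 140781777335861279) (a (l 140627914432954399) (c (l 140909458181308447) (l 140389251646914591)))) (a (l 141118846400282655) (c (c (l 30) (l 140934609516363807)) (l 140541534037196831)))) (c (a (a (l 141248863743787039) (l 141278825441493023)) (a (b (l 141223437532299295) (l 30)) (l 30))) (a (l 140745699642277919) (a (l 140961203928530975) (b (l 140722060138053663) (l 140897638435471391)))))) (c (l 30) (a (a (b (l 141071979781832735) (l 141433238141779999)) (b (l 141101941479653407) (l 30))) (b (b (c (l 30) (l 140924026721255455)) (l 30)) (l 30)))))) (a (b (a (l 16375944) (b (l 16341592) (l 16368608))) (b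 (a (l 16395680) (l 140256279441817631)) (a (l 16425136) (l 141299097693405215)))) (b (b (a (l 139670651946975263) (c (l 139937627164147743) (l 139412060510634015))) (a (c (l 140225493107818527) (l 16346784)) (c (a (l 140246864869933087) (l 140265419132649503)) (l 139713807792160799)))) (b (a (c (l 140549917821141023) (l 140010744707989535)) (c (a (l 140584415005687839) (b (l 140522979781771295) (l 140702818687418399))) (a (l 140030261044068383) (l 140047853234044959)))) (a (c (b (l 140808852860157983) (l 140989516399755295)) (l 140341903931080735)) (c (a (b (l 140854070284992543) (l 141042361687867423)) (b (l 141069505851555871) (l 30))) (a (l 140375301603950623) (b (l 140311255039606815) (l 140495354553483295))))))))) (a (b (c (a (l 16269504) (l 16266432)) (l 16181472)) (c (b (l 16305112) (l 16353112)) (l 16226048))) (c (b (a (c (l 16287032) (l 16241336)) (b (l 16249760) (l 138895083798413343))) (b (a (l 16304136) (c (l 139476313241976863) (l 16279896))) (a (l 139502289211424799)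 (c (l 139987998530207775) (l 139223975282311199))))) (b (a (l 16172912) (l 16168168)) (a (l 16220824) (c (l 16243848) (l 16193248))))))), by decide +kernel⟩

def k11_pm_213 : ∃ t, chk3 f_pm_213 t 15 220 1 = true :=
  ⟨(a (a (l 14) (c (a (c (b (l 16558656) (l 14)) (l 16489912)) (a (a (c (b (l 16562240) (a (l 16533400) (l 16534224))) (l 16490024)) (c (l 16570016) (l 16447824))) (c (c (l 16550560) (l 16509056)) (l 16447528)))) (a (c (l 16374736) (l 16303280)) (c (l 16368360) (l 16290744))))) (a (c (a (c (a (l 16574592) (l 16578304)) (l 16490008)) (c (a (c (l 16563840) (l 16518232)) (c (l 16570224) (l 16523152))) (c (l 16474488) (l 16428648)))) (c (a (l 16363048) (l 16360344)) (l 16274456))) (c (a (c (a (c (l 16577784) (l 16529184)) (l 30)) (a (l 16498568) (a (l 16523032) (l 140938526669537311)))) (c (l 30) (c (a (b (l 141176914449317919) (l 30)) (l 30)) (a (b (l 140606611407044639) (l 140791466835394591)) (b (a (l 140651347795607583) (l 140686532174774303)) (c (l 30) (l 140713195338383391)))))))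 (c (a (a (l 16360512) (l 16361896)) (a (c (l 140120764618719263) (l 16338696)) (c (b (l 140073348171792415) (l 140259028233830431)) (l 139562143892783135)))) (a (l 16263888) (a (l 16261624) (l 138650786028371999))))))), by decide +kernel⟩

def k12_pm_213 : ∃ t, chk3 f_pm_213 t 15 221 1 = true :=
  ⟨(a (b (a (l 14) (a (l 14) (a (l 14) (c (c (l 16551728) (l 16467384)) (l 16343896))))) (l 14)) (a (c (a (c (c (c (l 16599824) (l 16577224)) (l 16585432)) (c (l 16498816) (l 16454488))) (c (a (c (l 16598408) (l 16551192)) (c (l 16606448) (l 16557704))) (a (l 16480904) (l 16526976)))) (c (a (l 16388648) (l 16388472)) (c (l 16320640) (l 16275984)))) (c (a (c (a (b (l 16602048) (l 16621248)) (l 30)) (c (a (l 16515312) (l 30)) (a (l 16465352) (l 141010338410627103)))) (a (c (l 30) (c (l 30) (b (l 140983331651649567) (l 141182480733782047)))) (l 30))) (a (c (a (l 16390776) (l 140327816409382943)) (l 16291456)) (c (a (c (l 140665160384020511) (l 16392272)) (c (a (l 140893309056729119)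 (b (l 140469928348827679) (l 140673475478093855))) (a (l 139915224632000543) (l 139940719563440159)))) (a (l 16291424) (c (l 139300116485111839) (l 16265328)))))))), by decide +kernel⟩

def k13_pm_213 : ∃ t, chk3 f_pm_213 t 15 111 1 = true :=
  ⟨(a (l 14) (b (a (b (a (l 14) (b (a (l 14) (c (c (l 16605368) (l 16506200)) (l 16443152))) (l 14))) (l 14)) (c (a (b (c (a (l 16641088) (l 30)) (a (l 16538088) (a (l 16543912) (l 30)))) (a (l 14) (l 30))) (l 30)) (a (c (c (a (l 16448928) (l 16475544)) (l 16399264)) (l 16342056)) (c (a (c (b (l 140776692151156767) (l 140980651597447199)) (l 140257378971598879)) (c (a (b (l 140837852497756191) (l 30)) (l 30)) (a (l 140304314384138271) (b (l 140238343674380319) (l 140446907326251039))))) (a (l 140041943242375199) (c (a (l 16396280) (l 139685701543526431)) (l 16298224))))))) (a (l 14) (l 14)))), by decide +kernel⟩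

def k14_pm_213 : ∃ t, chk3 f_pm_213 t 7 7 1 = true :=
  ⟨(a (l 14) (l 14)), by decide +kernel⟩

theorem s15_pm_213 : ∃ t, chk3 f_pm_213 t 15 110 1 = true := ex3_b k11_pm_213 k12_pm_213

theorem s16_pm_213 : ∃ t, chk3 f_pm_213 t 15 55 1 = true := ex3_b s15_pm_213 k13_pm_213

theorem s17_pm_213 : ∃ t, chk3 f_pm_213 t 31 54 1 = true := ex3_a k9_pm_213 k10_pm_213

theorem s18_pm_213 : ∃ t, chk3 f_pm_213 t 15 54 1 = true := ex3_a k8_pm_213 s17_pm_213

theorem s19_pm_213 : ∃ t, chk3 f_pm_213 t 15 27 1 = true := ex3_b s18_pm_213 s16_pm_213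

theorem s20_pm_213 : ∃ t, chk3 f_pm_213 t 15 13 1 = true := ex3_b k7_pm_213 s19_pm_213

theorem s21_pm_213 : ∃ t, chk3 f_pm_213 t 7 13 1 = true := ex3_a k6_pm_213 s20_pm_213

theorem s22_pm_213 : ∃ t, chk3 f_pm_213 t 7 6 1 = true := ex3_b k5_pm_213 s21_pm_213

theorem s23_pm_213 : ∃ t, chk3 f_pm_213 t 7 3 1 = true := ex3_b s22_pm_213 k14_pm_213

theorem s24_pm_213 : ∃ t, chk3 f_pm_213 t 3 3 1 = true := ex3_a k4_pm_213 s23_pm_213

theorem s25_pm_213 : ∃ t, chk3 f_pm_213 t 3 5 1 = true := ex3_a k2_pm_213 k3_pm_213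

theorem s26_pm_213 : ∃ t, chk3 f_pm_213 t 3 2 1 = true := ex3_b k1_pm_213 s25_pm_213

theorem s27_pm_213 : ∃ t, chk3 f_pm_213 t 3 1 1 = true := ex3_b s26_pm_213 s24_pm_213

theorem s28_pm_213 : ∃ t, chk3 f_pm_213 t 1 1 1 = true := ex3_a k0_pm_213 s27_pm_213

theorem c_pm_213 : CertB 0 536870912 536870912 536870912 923417968 42949674 3 eng mog cd0q2 cd0q1 pd3 true true false .pnn 2 1 3
    ndB0q2 ndB0q1 pcB3 cut_pm_213 xt_pm_213 :=
  certB1 (fam := true) (s1 := true) (s2 := false) (a := 2) (b := 1) (c := 3) (cn := .pnn) (n1 := ndB0q2) (n2 := ndB0q1) (pc := pcB3) (cut := cut_pm_213) (xt := xt_pm_213) (P1 := 0) (W1 := 536870912) (P2 := 536870912) (W2 := 536870912) (P3 := 923417968) (W3 := 42949674) (N0 := 3) (En := eng) (mo := mog) (C1 := cd0q2) (C2 := cd0q1) (C3 := pd3)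
    rfl (fun _ => rfl) s28_pm_213

noncomputable def cut_mm_001 : Cut := Cut.of [[⟨3, 0, 0, 1449551462⟩], [⟨4, 0, 0, 2845415833⟩]]

noncomputable def f_mm_001 : ℕ → ℕ → ℕ → ℕ → Bool := onCell 0 536870912 0 536870912 923417968 42949674
    (rowB 3 eng mog cd0q0 cd0q0 pd1 0 true false false .up 0 0 1 (qsf 0 536870912 0 536870912 1) ndB0q0 ndB0q0 pcB1 cut_mm_001 Ext.none)

def k0_mm_001 : ∃ t, chk3 f_mm_001 t 1 1 1 = true :=
  ⟨(l 4), by decide +kernel⟩

theorem c_mm_001 : CertB 0 536870912 0 536870912 923417968 42949674 3 eng mog cd0q0 cd0q0 pd1 true false false .up 0 0 1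
    ndB0q0 ndB0q0 pcB1 cut_mm_001 Ext.none :=
  certB0 (fam := true) (s1 := false) (s2 := false) (a := 0) (b := 0) (c := 1) (cn := .up) (n1 := ndB0q0) (n2 := ndB0q0) (pc := pcB1) (cut := cut_mm_001) (xt := Ext.none) (P1 := 0) (W1 := 536870912) (P2 := 0) (W2 := 536870912) (P3 := 923417968) (W3 := 42949674) (N0 := 3) (En := eng) (mo := mog) (C1 := cd0q0) (C2 := cd0q0) (C3 := pd1)
    rfl k0_mm_001

noncomputable def cut_mm_011 : Cut := Cut.of [[⟨3, 0, 0, 1449551462⟩], [⟨4, 0, 0, 2845415833⟩]]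

noncomputable def f_mm_011 : ℕ → ℕ → ℕ → ℕ → Bool := onCell 0 536870912 536870912 536870912 923417968 42949674
    (rowB 3 eng mog cd0q0 cd0q1 pd1 0 true false false .pnn 0 1 1 (qsf 0 536870912 536870912 536870912 1) ndB0q0 ndB0q1 pcB1 cut_mm_011 Ext.none)

def k0_mm_011 : ∃ t, chk3 f_mm_011 t 1 1 1 = true :=
  ⟨(l 14), by decide +kernel⟩

theorem c_mm_011 : CertB 0 536870912 536870912 536870912 923417968 42949674 3 eng mog cd0q0 cd0q1 pd1 true false false .pnn 0 1 1
    ndB0q0 ndB0q1 pcB1 cut_mm_011 Ext.none :=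
  certB0 (fam := true) (s1 := false) (s2 := false) (a := 0) (b := 1) (c := 1) (cn := .pnn) (n1 := ndB0q0) (n2 := ndB0q1) (pc := pcB1) (cut := cut_mm_011) (xt := Ext.none) (P1 := 0) (W1 := 536870912) (P2 := 536870912) (W2 := 536870912) (P3 := 923417968) (W3 := 42949674) (N0 := 3) (En := eng) (mo := mog) (C1 := cd0q0) (C2 := cd0q1) (C3 := pd1)
    rfl k0_mm_011

noncomputable def cut_mm_012 : Cut := Cut.of [[⟨3, 0, 0, 1449551462⟩], [⟨4, 0, 0, 2845415833⟩]]

noncomputable def f_mm_012 : ℕ → ℕ → ℕ → ℕ → Bool := onCell 0 536870912 536870912 536870912 923417968 42949674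
    (rowB 3 eng mog cd0q0 cd0q1 pd2 0 true false false .pnp 0 1 2 (qsf 0 536870912 536870912 536870912 2) ndB0q0 ndB0q1 pcB2 cut_mm_012 Ext.none)

def k0_mm_012 : ∃ t, chk3 f_mm_012 t 1 1 1 = true :=
  ⟨(l 14), by decide +kernel⟩

theorem c_mm_012 : CertB 0 536870912 536870912 536870912 923417968 42949674 3 eng mog cd0q0 cd0q1 pd2 true false false .pnp 0 1 2
    ndB0q0 ndB0q1 pcB2 cut_mm_012 Ext.none :=
  certB0 (fam := true) (s1 := false) (s2 := false) (a := 0) (b := 1) (c := 2) (cn := .pnp) (n1 := ndB0q0) (n2 := ndB0q1) (pc := pcB2) (cut := cut_mm_012) (xt := Ext.none) (P1 := 0) (W1 := 536870912) (P2 := 536870912) (W2 := 536870912) (P3 := 923417968) (W3 := 42949674) (N0 := 3) (En := eng) (mo := mog) (C1 := cd0q0) (C2 := cd0q1) (C3 := pd2)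
    rfl k0_mm_012

noncomputable def cut_mm_022 : Cut := Cut.of [[⟨3, 0, 0, 1449551462⟩], [⟨4, 0, 0, 2845415833⟩]]

noncomputable def f_mm_022 : ℕ → ℕ → ℕ → ℕ → Bool := onCell 0 536870912 0 536870912 923417968 42949674
    (rowB 3 eng mog cd0q0 cd0q2 pd2 0 true false false .pp 0 2 2 (qsf 0 536870912 0 536870912 2) ndB0q0 ndB0q2 pcB2 cut_mm_022 Ext.none)

def k0_mm_022 : ∃ t, chk3 f_mm_022 t 1 1 1 = true :=
  ⟨(l 5), by decide +kernel⟩

theorem c_mm_022 : CertB 0 536870912 0 536870912 923417968 42949674 3 eng mog cd0q0 cd0q2 pd2 true false false .pp 0 2 2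
    ndB0q0 ndB0q2 pcB2 cut_mm_022 Ext.none :=
  certB0 (fam := true) (s1 := false) (s2 := false) (a := 0) (b := 2) (c := 2) (cn := .pp) (n1 := ndB0q0) (n2 := ndB0q2) (pc := pcB2) (cut := cut_mm_022) (xt := Ext.none) (P1 := 0) (W1 := 536870912) (P2 := 0) (W2 := 536870912) (P3 := 923417968) (W3 := 42949674) (N0 := 3) (En := eng) (mo := mog) (C1 := cd0q0) (C2 := cd0q2) (C3 := pd2)
    rfl k0_mm_022

noncomputable def cut_mm_023 : Cut := Cut.of [[⟨3, 0, 0, 1449551462⟩], [⟨4, 0, 0, 2845415833⟩]]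

noncomputable def f_mm_023 : ℕ → ℕ → ℕ → ℕ → Bool := onCell 0 536870912 0 536870912 923417968 42949674
    (rowB 3 eng mog cd0q0 cd0q2 pd3 0 true false false .up 0 2 3 (qsf 0 536870912 0 536870912 3) ndB0q0 ndB0q2 pcB3 cut_mm_023 Ext.none)

def k0_mm_023 : ∃ t, chk3 f_mm_023 t 1 1 1 = true :=
  ⟨(l 5), by decide +kernel⟩

theorem c_mm_023 : CertB 0 536870912 0 536870912 923417968 42949674 3 eng mog cd0q0 cd0q2 pd3 true false false .up 0 2 3
    ndB0q0 ndB0q2 pcB3 cut_mm_023 Ext.none :=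
  certB0 (fam := true) (s1 := false) (s2 := false) (a := 0) (b := 2) (c := 3) (cn := .up) (n1 := ndB0q0) (n2 := ndB0q2) (pc := pcB3) (cut := cut_mm_023) (xt := Ext.none) (P1 := 0) (W1 := 536870912) (P2 := 0) (W2 := 536870912) (P3 := 923417968) (W3 := 42949674) (N0 := 3) (En := eng) (mo := mog) (C1 := cd0q0) (C2 := cd0q2) (C3 := pd3)
    rfl k0_mm_023

noncomputable def cut_mm_101 : Cut := Cut.of [[⟨3, 0, 0, 1449551462⟩], [⟨4, 0, 0, 2845415833⟩], [⟨0, 1, 0, 67108864⟩, ⟨1, 0, 0, 67108864⟩, ⟨2, 1, 0, 67108864⟩]]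

noncomputable def f_mm_101 : ℕ → ℕ → ℕ → ℕ → Bool := onCell 536870912 536870912 0 536870912 923417968 42949674
    (rowB 3 eng mog cd0q1 cd0q0 pd1 0 true false false .npn 1 0 1 (qsf 536870912 536870912 0 536870912 1) ndB0q1 ndB0q0 pcB1 cut_mm_101 Ext.none)

def k0_mm_101 : ∃ t, chk3 f_mm_101 t 1 1 1 = true :=
  ⟨(l 14), by decide +kernel⟩

theorem c_mm_101 : CertB 536870912 536870912 0 536870912 923417968 42949674 3 eng mog cd0q1 cd0q0 pd1 true false false .npn 1 0 1
    ndB0q1 ndB0q0 pcB1 cut_mm_101 Ext.none :=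
  certB0 (fam := true) (s1 := false) (s2 := false) (a := 1) (b := 0) (c := 1) (cn := .npn) (n1 := ndB0q1) (n2 := ndB0q0) (pc := pcB1) (cut := cut_mm_101) (xt := Ext.none) (P1 := 536870912) (W1 := 536870912) (P2 := 0) (W2 := 536870912) (P3 := 923417968) (W3 := 42949674) (N0 := 3) (En := eng) (mo := mog) (C1 := cd0q1) (C2 := cd0q0) (C3 := pd1)
    rfl k0_mm_101

noncomputable def cut_mm_102 : Cut := Cut.of [[⟨3, 0, 0, 1449551462⟩], [⟨4, 0, 0, 2845415833⟩], [⟨0, 1, 0, 67108864⟩, ⟨1, 0, 0, 67108864⟩, ⟨2, 1, 0, 67108864⟩]]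

noncomputable def f_mm_102 : ℕ → ℕ → ℕ → ℕ → Bool := onCell 536870912 536870912 0 536870912 923417968 42949674
    (rowB 3 eng mog cd0q1 cd0q0 pd2 0 true false false .npp 1 0 2 (qsf 536870912 536870912 0 536870912 2) ndB0q1 ndB0q0 pcB2 cut_mm_102 Ext.none)

def k0_mm_102 : ∃ t, chk3 f_mm_102 t 1 1 1 = true :=
  ⟨(l 14), by decide +kernel⟩

theorem c_mm_102 : CertB 536870912 536870912 0 536870912 923417968 42949674 3 eng mog cd0q1 cd0q0 pd2 true false false .npp 1 0 2
    ndB0q1 ndB0q0 pcB2 cut_mm_102 Ext.none :=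
  certB0 (fam := true) (s1 := false) (s2 := false) (a := 1) (b := 0) (c := 2) (cn := .npp) (n1 := ndB0q1) (n2 := ndB0q0) (pc := pcB2) (cut := cut_mm_102) (xt := Ext.none) (P1 := 536870912) (W1 := 536870912) (P2 := 0) (W2 := 536870912) (P3 := 923417968) (W3 := 42949674) (N0 := 3) (En := eng) (mo := mog) (C1 := cd0q1) (C2 := cd0q0) (C3 := pd2)
    rfl k0_mm_102

noncomputable def cut_mm_112 : Cut := Cut.of [[⟨3, 0, 0, 1449551462⟩], [⟨4, 0, 0, 2845415833⟩]]

noncomputable def f_mm_112 : ℕ → ℕ → ℕ → ℕ → Bool := onCell 536870912 536870912 536870912 536870912 923417968 42949674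
    (rowB 3 eng mog cd0q1 cd0q1 pd2 0 true false false .dn 1 1 2 (qsf 536870912 536870912 536870912 536870912 2) ndB0q1 ndB0q1 pcB2 cut_mm_112 Ext.none)

def k0_mm_112 : ∃ t, chk3 f_mm_112 t 1 1 1 = true :=
  ⟨(l 4), by decide +kernel⟩

theorem c_mm_112 : CertB 536870912 536870912 536870912 536870912 923417968 42949674 3 eng mog cd0q1 cd0q1 pd2 true false false .dn 1 1 2
    ndB0q1 ndB0q1 pcB2 cut_mm_112 Ext.none :=
  certB0 (fam := true) (s1 := false) (s2 := false) (a := 1) (b := 1) (c := 2) (cn := .dn) (n1 := ndB0q1) (n2 := ndB0q1) (pc := pcB2) (cut := cut_mm_112) (xt := Ext.none) (P1 := 536870912) (W1 := 536870912) (P2 := 536870912) (W2 := 536870912) (P3 := 923417968) (W3 := 42949674) (N0 := 3) (En := eng) (mo := mog) (C1 := cd0q1) (C2 := cd0q1) (C3 := pd2)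
    rfl k0_mm_112

noncomputable def cut_mm_113 : Cut := Cut.of [[⟨3, 0, 0, 1449551462⟩], [⟨4, 0, 0, 2845415833⟩]]

noncomputable def f_mm_113 : ℕ → ℕ → ℕ → ℕ → Bool := onCell 536870912 536870912 536870912 536870912 923417968 42949674
    (rowB 3 eng mog cd0q1 cd0q1 pd3 0 true false false .nn 1 1 3 (qsf 536870912 536870912 536870912 536870912 3) ndB0q1 ndB0q1 pcB3 cut_mm_113 Ext.none)

def k0_mm_113 : ∃ t, chk3 f_mm_113 t 1 1 1 = true :=
  ⟨(l 4), by decide +kernel⟩

theorem c_mm_113 : CertB 536870912 536870912 536870912 536870912 923417968 42949674 3 eng mog cd0q1 cd0q1 pd3 true false false .nn 1 1 3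
    ndB0q1 ndB0q1 pcB3 cut_mm_113 Ext.none :=
  certB0 (fam := true) (s1 := false) (s2 := false) (a := 1) (b := 1) (c := 3) (cn := .nn) (n1 := ndB0q1) (n2 := ndB0q1) (pc := pcB3) (cut := cut_mm_113) (xt := Ext.none) (P1 := 536870912) (W1 := 536870912) (P2 := 536870912) (W2 := 536870912) (P3 := 923417968) (W3 := 42949674) (N0 := 3) (En := eng) (mo := mog) (C1 := cd0q1) (C2 := cd0q1) (C3 := pd3)
    rfl k0_mm_113

noncomputable def cut_mm_123 : Cut := Cut.of [[⟨3, 0, 0, 1449551462⟩], [⟨4, 0, 0, 2845415833⟩]]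

noncomputable def f_mm_123 : ℕ → ℕ → ℕ → ℕ → Bool := onCell 536870912 536870912 0 536870912 923417968 42949674
    (rowB 3 eng mog cd0q1 cd0q2 pd3 0 true false false .npn 1 2 3 (qsf 536870912 536870912 0 536870912 3) ndB0q1 ndB0q2 pcB3 cut_mm_123 Ext.none)

def k0_mm_123 : ∃ t, chk3 f_mm_123 t 1 1 1 = true :=
  ⟨(a (l 5) (l 4)), by decide +kernel⟩

theorem c_mm_123 : CertB 536870912 536870912 0 536870912 923417968 42949674 3 eng mog cd0q1 cd0q2 pd3 true false false .npn 1 2 3
    ndB0q1 ndB0q2 pcB3 cut_mm_123 Ext.none :=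
  certB0 (fam := true) (s1 := false) (s2 := false) (a := 1) (b := 2) (c := 3) (cn := .npn) (n1 := ndB0q1) (n2 := ndB0q2) (pc := pcB3) (cut := cut_mm_123) (xt := Ext.none) (P1 := 536870912) (W1 := 536870912) (P2 := 0) (W2 := 536870912) (P3 := 923417968) (W3 := 42949674) (N0 := 3) (En := eng) (mo := mog) (C1 := cd0q1) (C2 := cd0q2) (C3 := pd3)
    rfl k0_mm_123

noncomputable def cut_mm_202 : Cut := Cut.of [[⟨3, 0, 0, 1449551462⟩], [⟨4, 0, 0, 2845415833⟩], [⟨0, 1, 0, 67108864⟩, ⟨1, 0, 0, 67108864⟩, ⟨2, 1, 0, 67108864⟩]]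

noncomputable def f_mm_202 : ℕ → ℕ → ℕ → ℕ → Bool := onCell 0 536870912 0 536870912 923417968 42949674
    (rowB 3 eng mog cd0q2 cd0q0 pd2 0 true false false .pp 2 0 2 (qsf 0 536870912 0 536870912 2) ndB0q2 ndB0q0 pcB2 cut_mm_202 Ext.none)

def k0_mm_202 : ∃ t, chk3 f_mm_202 t 2 4 1 = true :=
  ⟨(b (a (b (b (a (l 16315264) (a (l 16321752) (l 16326704))) (a (l 16366872) (a (l 16388064) (l 16389160)))) (a (b (l 16458000) (l 16456216)) (b (l 16367312) (l 16474328)))) (b (a (b (a (l 16310312) (c (l 16320840) (l 16311240))) (a (l 16390152) (l 16350536))) (c (a (b (b (l 16340840) (l 16366120)) (l 16382632)) (b (a (l 16366920) (l 16357192)) (a (l 16414568) (l 16403216)))) (b (a (l 16321432) (a (l 16333976) (b (l 16353312) (l 16378168)))) (a (l 16396584) (a (l 16406400) (l 16415392)))))) (a (a (b (l 16426624) (l 16503000)) (b (l 16425768) (l 16478152))) (b (a (a (l 16449240) (l 16453240)) (a (l 16417088) (c (l 16469072) (l 16464288)))) (a (a (l 16478392) (l 16480832)) (a (l 16464056)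 (b (l 16500824) (l 16523016)))))))) (a (b (a (b (l 16394280) (l 16378800)) (b (l 16441736) (l 16350176))) (a (b (l 16347160) (l 16320584)) (c (a (l 16393496) (l 16427904)) (a (l 16369376) (l 16406416))))) (a (b (b (a (l 16507320) (l 16541952)) (a (l 16484016) (l 16521928))) (b (a (l 16464952) (l 16484976)) (a (l 16450344) (l 16494280)))) (b (b (a (l 16505696) (b (a (l 16539840) (l 16544664)) (l 16521632))) (a (l 16538176) (a (l 16585192) (l 16575056)))) (b (a (c (l 16550664) (l 16520112)) (c (l 16586568) (l 16527656))) (a (a (l 16526656) (l 16547328)) (a (l 16567384) (l 14)))))))), by decide +kernel⟩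

def k1_mm_202 : ∃ t, chk3 f_mm_202 t 2 5 1 = true :=
  ⟨(a (b (b (a (b (l 16278344) (l 16262472)) (a (b (l 16355760) (l 16344864)) (b (l 16396272) (l 16388352)))) (a (c (b (l 16290352) (l 16283784)) (l 16227888)) (b (a (l 16338240) (l 16384528)) (a (l 16335232) (l 16384128))))) (b (b (a (a (l 16236336) (l 16285904)) (a (l 16335664) (l 16386976))) (a (a (l 16234960) (l 16287144)) (a (l 16339312) (l 16392856)))) (b (a (a (l 16237048) (l 16291640)) (a (l 16345984) (l 16422520))) (a (a (l 16242560) (l 16299360)) (a (l 16355680) (l 16434000)))))) (b (a (b (b (a (l 16440432) (l 16487168)) (a (l 16435312) (l 16484712))) (a (b (l 16434128) (l 16436184)) (b (l 16465064) (l 16485192)))) (b (a (b (a (l 16521568) (l 16543544)) (a (l 16521040) (l 16523296))) (b (a (l 16564880) (l 14)) (l 14))) (a (b (a (l 16524184) (l 14)) (l 14)) (l 14)))) (a (a (b (b (l 16462280) (l 16428304)) (a (b (l 16445040) (l 16457784)) (l 14))) (b (b (a (l 16483768) (l 14)) (l 14)) (l 14))) (l 14)))), by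 decide +kernel⟩

def k2_mm_202 : ∃ t, chk3 f_mm_202 t 6 8 1 = true :=
  ⟨(a (a (b (b (b (a (c (l 16379976) (l 16366552)) (c (l 16395280) (a (l 16377784) (l 16385920)))) (a (c (l 16402400) (l 16390496)) (c (l 16416896) (l 16383888)))) (a (b (c (l 16424608) (l 16414424)) (c (l 16446560) (l 16438224))) (b (c (l 16438304) (l 16406904)) (c (l 16459456) (l 16429808))))) (b (a (b (l 16444032) (l 16466288)) (b (c (l 16480304) (l 16452472)) (c (l 16500816) (l 16495784)))) (a (b (l 16488136) (l 16530480)) (c (b (l 16520944) (l 16540664)) (b (l 16517704) (l 16539096)))))) (b (b (a (b (c (a (l 16407936) (l 16416896)) (a (l 16394552) (b (l 16398152) (l 16409104)))) (c (a (l 16428960) (l 16437536)) (a (l 16416928) (l 16425568)))) (b (c (a (l 16426184) (b (l 16430784) (l 16440784))) (a (b (l 16407704) (l 16418440)) (b (l 16417624) (l 16428144)))) (c (a (l 16446440) (b (l 16450736) (l 16460624))) (a (b (l 16429192) (l 16439944)) (b (l 16438688) (l 16449232)))))) (c (a (b (l 16432872)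 (l 16453224)) (b (a (l 16466480) (l 16475352)) (c (l 16471688) (l 16472584)))) (a (b (c (l 16425040) (l 16419704)) (a (l 16461504) (l 16469256))) (b (a (l 16435080) (l 16446664)) (a (l 16456424) (l 16464960)))))) (b (a (b (c (l 16473280) (a (l 16483496) (l 16490808))) (c (l 16492992) (l 16503336))) (a (b (b (l 16476120) (l 14)) (l 14)) (l 14))) (a (a (b (l 16507232) (l 14)) (l 14)) (l 14))))) (b (a (b (a (a (b (c (b (l 16440816) (l 16450648)) (b (l 16427928) (l 16438240))) (c (b (l 16460416) (l 16470136)) (b (l 16448568) (l 16458904)))) (b (c (b (l 16451184) (l 16460856)) (b (l 16438624) (l 16448728))) (l 14))) (l 14)) (l 14)) (l 14)) (l 14))), by decide +kernel⟩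

def k3_mm_202 : ∃ t, chk3 f_mm_202 t 6 9 1 = true :=
  ⟨(a (b (a (b (a (c (l 16539904) (l 16520392)) (c (l 16527496) (b (l 16559880) (l 16579984)))) (a (b (l 16591176) (l 16610088)) (l 14))) (l 14)) (l 14)) (l 14)), by decide +kernel⟩

def k4_mm_202 : ∃ t, chk3 f_mm_202 t 7 4 1 = true :=
  ⟨(l 14), by decide +kernel⟩

def k5_mm_202 : ∃ t, chk3 f_mm_202 t 3 5 1 = true :=
  ⟨(l 14), by decide +kernel⟩

def k6_mm_202 : ∃ t, chk3 f_mm_202 t 1 3 1 = true :=
  ⟨(a (a (b (b (a (a (b (b (l 16251424) (l 16263432)) (b (l 16278144) (l 16295240))) (b (b (l 16310248) (l 16324112)) (b (l 16340520) (l 16359160)))) (a (b (b (l 16368376) (l 16404864)) (b (l 16422760) (l 16463696))) (b (b (l 16469288) (c (l 16458376) (l 16429864))) (l 14)))) (a (b (b (a (l 16314568) (l 16379880)) (a (l 16335976) (l 16402536))) (b (a (l 16359344) (l 14)) (l 2))) (l 14))) (l 2)) (l 14)) (l 14)), by decide +kernel⟩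

theorem s7_mm_202 : ∃ t, chk3 f_mm_202 t 6 4 1 = true := ex3_b k2_mm_202 k3_mm_202

theorem s8_mm_202 : ∃ t, chk3 f_mm_202 t 3 4 1 = true := ex3_a s7_mm_202 k4_mm_202

theorem s9_mm_202 : ∃ t, chk3 f_mm_202 t 3 2 1 = true := ex3_b s8_mm_202 k5_mm_202

theorem s10_mm_202 : ∃ t, chk3 f_mm_202 t 2 2 1 = true := ex3_b k0_mm_202 k1_mm_202

theorem s11_mm_202 : ∃ t, chk3 f_mm_202 t 1 2 1 = true := ex3_a s10_mm_202 s9_mm_202

theorem s12_mm_202 : ∃ t, chk3 f_mm_202 t 1 1 1 = true := ex3_b s11_mm_202 k6_mm_202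

theorem c_mm_202 : CertB 0 536870912 0 536870912 923417968 42949674 3 eng mog cd0q2 cd0q0 pd2 true false false .pp 2 0 2
    ndB0q2 ndB0q0 pcB2 cut_mm_202 Ext.none :=
  certB0 (fam := true) (s1 := false) (s2 := false) (a := 2) (b := 0) (c := 2) (cn := .pp) (n1 := ndB0q2) (n2 := ndB0q0) (pc := pcB2) (cut := cut_mm_202) (xt := Ext.none) (P1 := 0) (W1 := 536870912) (P2 := 0) (W2 := 536870912) (P3 := 923417968) (W3 := 42949674) (N0 := 3) (En := eng) (mo := mog) (C1 := cd0q2) (C2 := cd0q0) (C3 := pd2)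
    rfl s12_mm_202

noncomputable def cut_mm_203 : Cut := Cut.of [[⟨3, 0, 0, 1449551462⟩], [⟨4, 0, 0, 2845415833⟩]]

noncomputable def f_mm_203 : ℕ → ℕ → ℕ → ℕ → Bool := onCell 0 536870912 1610612736 536870912 923417968 42949674
    (rowB 3 eng mog cd0q2 cd0q0 pd3 1 true false false .up 2 0 3 (qsf 0 536870912 0 536870912 3) ndB0q2 ndB0q0 pcB3 cut_mm_203 Ext.none)

def k0_mm_203 : ∃ t, chk3 f_mm_203 t 1 1 1 = true :=
  ⟨(a (b (b (b (a (a (a (b (c (c (l 16624016) (l 16492800)) (b (c (l 16508856) (l 16447360)) (c (l 16536136) (l 16479888)))) (l 14)) (l 14)) (l 14)) (l 14)) (l 14)) (l 14)) (l 2)) (l 14)), by decide +kernel⟩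

theorem c_mm_203 : CertB 0 536870912 0 536870912 923417968 42949674 3 eng mog cd0q2 cd0q0 pd3 true false false .up 2 0 3
    ndB0q2 ndB0q0 pcB3 cut_mm_203 Ext.none :=
  certB1 (fam := true) (s1 := false) (s2 := false) (a := 2) (b := 0) (c := 3) (cn := .up) (n1 := ndB0q2) (n2 := ndB0q0) (pc := pcB3) (cut := cut_mm_203) (xt := Ext.none) (P1 := 0) (W1 := 536870912) (P2 := 0) (W2 := 536870912) (P3 := 923417968) (W3 := 42949674) (N0 := 3) (En := eng) (mo := mog) (C1 := cd0q2) (C2 := cd0q0) (C3 := pd3)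
    rfl (fun _ => rfl) k0_mm_203

noncomputable def cut_mm_213 : Cut := Cut.of [[⟨3, 0, 0, 1449551462⟩], [⟨4, 0, 0, 2845415833⟩]]

noncomputable def f_mm_213 : ℕ → ℕ → ℕ → ℕ → Bool := onCell 0 536870912 536870912 536870912 923417968 42949674
    (rowB 3 eng mog cd0q2 cd0q1 pd3 0 true false false .pnn 2 1 3 (qsf 0 536870912 536870912 536870912 3) ndB0q2 ndB0q1 pcB3 cut_mm_213 Ext.none)

def k0_mm_213 : ∃ t, chk3 f_mm_213 t 1 1 1 = true :=
  ⟨(a (l 14) (l 4)), by decide +kernel⟩

theorem c_mm_213 : CertB 0 536870912 536870912 536870912 923417968 42949674 3 eng mog cd0q2 cd0q1 pd3 true false false .pnn 2 1 3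
    ndB0q2 ndB0q1 pcB3 cut_mm_213 Ext.none :=
  certB0 (fam := true) (s1 := false) (s2 := false) (a := 2) (b := 1) (c := 3) (cn := .pnn) (n1 := ndB0q2) (n2 := ndB0q1) (pc := pcB3) (cut := cut_mm_213) (xt := Ext.none) (P1 := 0) (W1 := 536870912) (P2 := 536870912) (W2 := 536870912) (P3 := 923417968) (W3 := 42949674) (N0 := 3) (En := eng) (mo := mog) (C1 := cd0q2) (C2 := cd0q1) (C3 := pd3)
    rfl k0_mm_213

end Pool.Agent.Strip051.G.I8600_9000.Tab.C.BA00

namespace Pool.Agent.Strip051.G.I8600_9000.Tab.C.BA01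

open Pool.Agent.Strip051.PB Pool.Agent.Strip051.PB.T
open Pool.Agent.Strip051.G.I8600_9000.Tab

noncomputable def f_pp_001 : ℕ → ℕ → ℕ → ℕ → Bool := onCell 0 536870912 0 536870912 923417968 42949674
    (rowB 3 eng mog cd0q0 cd1q0 pd1 0 true true true .up 0 0 1 (qsf 0 536870912 0 536870912 1) ndB0q0 ndB1q0 pcB1 Cut.none Ext.none)

def k0_pp_001 : ∃ t, chk3 f_pp_001 t 1 1 1 = true :=
  ⟨(l 4), by decide +kernel⟩

theorem c_pp_001 : CertB 0 536870912 0 536870912 923417968 42949674 3 eng mog cd0q0 cd1q0 pd1 true true true .up 0 0 1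
    ndB0q0 ndB1q0 pcB1 Cut.none Ext.none :=
  certB0 (fam := true) (s1 := true) (s2 := true) (a := 0) (b := 0) (c := 1) (cn := .up) (n1 := ndB0q0) (n2 := ndB1q0) (pc := pcB1) (cut := Cut.none) (xt := Ext.none) (P1 := 0) (W1 := 536870912) (P2 := 0) (W2 := 536870912) (P3 := 923417968) (W3 := 42949674) (N0 := 3) (En := eng) (mo := mog) (C1 := cd0q0) (C2 := cd1q0) (C3 := pd1)
    rfl k0_pp_001

noncomputable def f_pp_011 : ℕ → ℕ → ℕ → ℕ → Bool := onCell 0 536870912 536870912 536870912 923417968 42949674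
    (rowB 3 eng mog cd0q0 cd1q1 pd1 0 true true true .pnn 0 1 1 (qsf 0 536870912 536870912 536870912 1) ndB0q0 ndB1q1 pcB1 Cut.none Ext.none)

def k0_pp_011 : ∃ t, chk3 f_pp_011 t 1 1 1 = true :=
  ⟨(l 4), by decide +kernel⟩

theorem c_pp_011 : CertB 0 536870912 536870912 536870912 923417968 42949674 3 eng mog cd0q0 cd1q1 pd1 true true true .pnn 0 1 1
    ndB0q0 ndB1q1 pcB1 Cut.none Ext.none :=
  certB0 (fam := true) (s1 := true) (s2 := true) (a := 0) (b := 1) (c := 1) (cn := .pnn) (n1 := ndB0q0) (n2 := ndB1q1) (pc := pcB1) (cut := Cut.none) (xt := Ext.none) (P1 := 0) (W1 := 536870912) (P2 := 536870912) (W2 := 536870912) (P3 := 923417968) (W3 := 42949674) (N0 := 3) (En := eng) (mo := mog) (C1 := cd0q0) (C2 := cd1q1) (C3 := pd1)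
    rfl k0_pp_011

noncomputable def f_pp_012 : ℕ → ℕ → ℕ → ℕ → Bool := onCell 0 536870912 536870912 536870912 923417968 42949674
    (rowB 3 eng mog cd0q0 cd1q1 pd2 0 true true true .pnp 0 1 2 (qsf 0 536870912 536870912 536870912 2) ndB0q0 ndB1q1 pcB2 Cut.none Ext.none)

def k0_pp_012 : ∃ t, chk3 f_pp_012 t 1 1 1 = true :=
  ⟨(l 4), by decide +kernel⟩

theorem c_pp_012 : CertB 0 536870912 536870912 536870912 923417968 42949674 3 eng mog cd0q0 cd1q1 pd2 true true true .pnp 0 1 2
    ndB0q0 ndB1q1 pcB2 Cut.none Ext.none :=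
  certB0 (fam := true) (s1 := true) (s2 := true) (a := 0) (b := 1) (c := 2) (cn := .pnp) (n1 := ndB0q0) (n2 := ndB1q1) (pc := pcB2) (cut := Cut.none) (xt := Ext.none) (P1 := 0) (W1 := 536870912) (P2 := 536870912) (W2 := 536870912) (P3 := 923417968) (W3 := 42949674) (N0 := 3) (En := eng) (mo := mog) (C1 := cd0q0) (C2 := cd1q1) (C3 := pd2)
    rfl k0_pp_012

noncomputable def cut_pp_022_a : Cut := Cut.of [[⟨0, 0, 0, 67108864⟩, ⟨1, 1, 0, 67108864⟩, ⟨2, 1, 0, 67108864⟩]]

noncomputable def f_pp_022_a : ℕ → ℕ → ℕ → ℕ → Bool := onCell 0 536870912 0 536870912 923417968 42949674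
    (rowB 3 eng mog cd0q0 cd1q2a pd2 0 true true true .pp 0 2 2 (qsf 0 536870912 0 536870912 2) ndB0q0 ndB1q2a pcB2 cut_pp_022_a Ext.none)

def k0_pp_022_a : ∃ t, chk3 f_pp_022_a t 4 2 1 = true :=
  ⟨(a (b (a (b (a (l 16315328) (l 16382000)) (a (c (l 16350160) (l 16346360)) (b (l 16385904) (l 16391952)))) (b (a (l 16406304) (l 16471552)) (a (b (l 16427656) (l 16431472)) (l 16406728)))) (a (b (b (a (l 16363672) (l 16401040)) (a (c (l 16380256) (l 16376528)) (l 16371616))) (a (b (c (l 16398592) (l 16394912)) (c (l 16420984) (l 16417408))) (b (c (l 16430888) (l 16429088)) (c (l 16451528) (l 16449592))))) (b (a (b (l 16438392) (l 16427840)) (b (l 16454376) (l 16462600))) (a (b (a (l 16454816) (l 16471344)) (c (l 16481784) (l 16481952))) (b (l 16432952) (a (l 16504872) (l 16520032))))))) (b (a (b (a (l 16513696) (l 16510680)) (a (l 16465952) (l 16543536))) (b (a (l 16504776) (l 16481728)) (a (l 16542448) (l 16544336)))) (a (b (a (c (l 16511416) (l 16496392)) (b (l 16544176)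 (l 16549200))) (a (b (l 16485824) (b (l 16517072) (l 16525560))) (b (l 16557840) (b (l 16545992) (l 16553520))))) (b (a (b (l 16573528) (l 16577616)) (b (l 16577968) (l 16601600))) (b (a (l 16585136) (l 16608416)) (a (l 16596728) (l 16618904))))))), by decide +kernel⟩

def k1_pp_022_a : ∃ t, chk3 f_pp_022_a t 4 6 1 = true :=
  ⟨(a (a (b (a (b (a (l 16438576) (l 16453368)) (c (a (l 16472208) (l 16486128)) (a (l 16468848) (l 16483152)))) (a (b (l 16468208) (c (l 16499928) (l 16497600))) (b (l 16483032) (c (l 16513616) (l 16512048))))) (b (a (a (b (l 16476448) (l 16517016)) (b (l 16511120) (l 16530512))) (b (c (l 16532608) (l 16530744)) (a (l 16543944) (l 16557248)))) (a (a (b (l 16537840) (c (l 16560856) (l 16558944))) (b (l 16551184) (c (l 16574112) (l 16572208)))) (b (a (c (l 16565416) (l 16563512)) (l 16556552)) (a (c (l 16587120) (l 16585464)) (c (l 16599816) (l 16598640))))))) (b (a (b (c (l 16505296) (l 16505184)) (c (b (l 16526056) (l 16541688)) (b (l 16525800) (l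 16541368)))) (a (b (l 16526832) (a (l 16550664) (l 16557368))) (b (l 16541024) (l 16525376)))) (b (a (b (c (l 16558696) (l 16558344)) (a (l 16570376) (l 16583256))) (b (a (l 16577944) (l 16590576)) (a (l 16595840) (l 16608088)))) (a (b (c (l 16576000) (l 16575696)) (a (c (l 16612192) (l 16611616)) (l 16603256))) (b (c (l 16599888) (l 16600888)) (a (l 16615256) (l 16626840))))))) (b (a (a (a (b (l 16554928) (l 16538320)) (b (l 16568496) (l 16550896))) (b (b (l 16562272) (l 16572192)) (c (l 16567608) (l 16570688)))) (a (b (a (l 16585792) (l 16597328)) (c (l 16590064) (l 16593352))) (b (l 16633792) (b (l 16626792) (l 41036750263))))) (b (a (a (b (a (l 16602848) (l 16614712)) (c (l 16624848) (l 16605848))) (b (a (l 16626144) (l 16637088)) (c (l 16625480) (l 16627776)))) (a (b (c (l 16629896) (l 16632552)) (a (l 16640496) (l 4))) (b (l 102240059015) (l 4)))) (a (a (b (a (l 16617648) (l 16628656)) (a (l 16637960) (c (l 16667888) (l 16669640)))) (b (a (l 16638736) (l 16647072))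 (a (l 102776966647) (l 4)))) (l 4))))), by decide +kernel⟩

def k2_pp_022_a : ∃ t, chk3 f_pp_022_a t 8 7 1 = true :=
  ⟨(b (a (b (c (a (a (b (l 16583832) (l 16607920)) (b (l 16597104) (l 16621280))) (b (a (l 16610096) (l 16622752)) (a (l 16634328) (l 16647008)))) (a (a (b (l 16582408) (l 16607024)) (b (l 16595632) (l 16620304))) (b (a (l 16608800) (l 16621816)) (a (l 16633472) (l 16646424))))) (a (b (a (a (l 6) (a (l 6) (l 16616944))) (c (b (l 16640104) (l 16653040)) (l 16614696))) (a (l 6) (b (c (l 16666240) (l 16666184)) (l 6)))) (a (b (c (b (l 16653240) (l 16666264)) (l 16633200)) (b (c (l 16679568) (l 16679600)) (c (l 16672176) (l 16672480)))) (b (b (l 16644856) (a (l 16675832) (l 16682192))) (c (b (l 16692464) (l 16685176)) (b (l 16692696) (l 16685680))))))) (b (a (b (a (c (l 16635040) (l 16634616)) (c (l 16646936) (l 16647096))) (a (c (l 16638312) (l 16638128)) (c (l 16650144) (l 16650456)))) (b (a (c (l 16658424) (l 16659176)) (a (l 16667280) (l 16651816))) (a (b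 (l 16655648) (c (l 16688488) (l 16689328))) (b (l 16665888) (l 16676040))))) (a (b (b (a (l 16657336) (l 16666752)) (a (c (l 16691424) (l 16691704)) (c (l 16681848) (l 16682448)))) (a (b (c (l 16683912) (l 16684416)) (a (l 16694880) (l 143579269479))) (b (c (l 16693392) (l 16694064)) (l 4)))) (a (b (a (b (l 16677624) (l 16688392)) (l 136599903367)) (l 4)) (l 4))))) (a (b (a (l 6) (b (a (l 6) (b (a (l 16696240) (c (l 16702240) (l 16703056))) (a (l 6) (c (l 16735480) (l 16736440))))) (l 6))) (l 6)) (b (a (b (a (b (a (c (l 16706968) (l 16707808)) (l 4)) (l 4)) (l 4)) (l 4)) (l 4)) (l 4)))), by decide +kernel⟩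

def k3_pp_022_a : ∃ t, chk3 f_pp_022_a t 9 7 1 = true :=
  ⟨(b (a (b (a (b (a (c (l 16657776) (l 16659272)) (l 105998212263)) (l 4)) (l 4)) (l 4)) (l 4)) (l 4)), by decide +kernel⟩

def k4_pp_022_a : ∃ t, chk3 f_pp_022_a t 5 1 1 = true :=
  ⟨(b (a (b (a (b (c (l 16452344) (l 16435728)) (a (l 16550032) (l 16559568))) (a (b (l 16519920) (l 16572096)) (b (l 16531768) (l 16586952)))) (a (b (a (b (l 16586072) (l 16611136)) (b (l 16597880) (l 16624304))) (a (b (l 16627248) (l 16636712)) (b (l 16641312) (l 16649920)))) (b (a (b (l 16612520) (l 16640216)) (b (l 16629304) (l 16657384))) (a (b (l 16651936) (l 15803909703)) (b (l 16661352) (l 4)))))) (b (a (b (a (l 16504048) (b (l 16547272) (l 16577392))) (a (l 16582952) (b (l 16607576) (l 16637856)))) (b (a (b (l 16565032) (l 16596368)) (b (l 16584936) (l 16617296))) (a (b (l 16627568) (l 16658704)) (b (l 16649288) (l 16679904))))) (b (a (a (b (l 16647992) (l 16664728)) (b (l 16668200) (l 22246432807))) (b (a (l 16703296) (l 33520742471))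 (l 4))) (a (a (b (l 17951466119) (l 4)) (l 4)) (l 4))))) (b (a (b (a (a (b (c (l 16648856) (l 16652648)) (c (l 97945082711) (l 16670408))) (b (b (l 16659512) (l 4)) (l 4))) (l 4)) (l 4)) (l 4)) (l 4))), by decide +kernel⟩

def k5_pp_022_a : ∃ t, chk3 f_pp_022_a t 3 1 1 = true :=
  ⟨(b (a (b (b (a (a (a (b (l 16606960) (l 16640144)) (b (l 16630856) (l 16664576))) (a (b (l 16656120) (l 15267048695)) (b (l 16682280) (b (l 16703520) (l 16702192))))) (a (b (a (b (l 16700184) (l 49626912919)) (b (l 60901207959) (l 4))) (l 4)) (l 4))) (a (a (b (a (l 16672528) (a (l 16689672) (l 16693904))) (a (l 33520751895) (l 4))) (a (b (l 55532466167) (l 4)) (l 4))) (l 4))) (l 4)) (l 4)) (l 4)), by decide +kernel⟩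

theorem s6_pp_022_a : ∃ t, chk3 f_pp_022_a t 4 7 1 = true := ex3_a k2_pp_022_a k3_pp_022_a

theorem s7_pp_022_a : ∃ t, chk3 f_pp_022_a t 4 3 1 = true := ex3_b k1_pp_022_a s6_pp_022_a

theorem s8_pp_022_a : ∃ t, chk3 f_pp_022_a t 4 1 1 = true := ex3_b k0_pp_022_a s7_pp_022_a

theorem s9_pp_022_a : ∃ t, chk3 f_pp_022_a t 2 1 1 = true := ex3_a s8_pp_022_a k4_pp_022_a

theorem s10_pp_022_a : ∃ t, chk3 f_pp_022_a t 1 1 1 = true := ex3_a s9_pp_022_a k5_pp_022_a

theorem c_pp_022_a : CertB 0 536870912 0 536870912 923417968 42949674 3 eng mog cd0q0 cd1q2a pd2 true true true .pp 0 2 2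
    ndB0q0 ndB1q2a pcB2 cut_pp_022_a Ext.none :=
  certB0 (fam := true) (s1 := true) (s2 := true) (a := 0) (b := 2) (c := 2) (cn := .pp) (n1 := ndB0q0) (n2 := ndB1q2a) (pc := pcB2) (cut := cut_pp_022_a) (xt := Ext.none) (P1 := 0) (W1 := 536870912) (P2 := 0) (W2 := 536870912) (P3 := 923417968) (W3 := 42949674) (N0 := 3) (En := eng) (mo := mog) (C1 := cd0q0) (C2 := cd1q2a) (C3 := pd2)
    rfl s10_pp_022_a

noncomputable def cut_pp_022_b : Cut := Cut.of [[⟨0, 0, 0, 67108864⟩, ⟨1, 1, 0, 67108864⟩, ⟨2, 1, 0, 67108864⟩]]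

noncomputable def f_pp_022_b : ℕ → ℕ → ℕ → ℕ → Bool := onCell 1073741824 536870912 1239849684 370763052 923417968 42949674
    (rowB 3 eng mog cd0q0 cd1q2b pd2 2 true true true .pp 0 2 2 (qsf 0 536870912 1239849684 370763052 2) ndB0q0 ndB1q2b pcB2 cut_pp_022_b Ext.none)

def k0_pp_022_b : ∃ t, chk3 f_pp_022_b t 2 1 1 = true :=
  ⟨(b (a (l 1) (b (a (b (a (b (a (l 1) (b (l 16266928) (l 1))) (l 1)) (b (a (b (l 16314184) (l 16267960)) (b (l 16361752) (l 16313720))) (a (l 1) (l 16285904)))) (l 1)) (b (a (b (a (l 16300424) (l 16430416)) (a (l 16203616) (l 16310800))) (b (a (l 16474664) (l 16482960)) (a (l 16375512) (l 16417528)))) (a (b (a (l 16195592) (l 16236088)) (l 1)) (b (a (l 16277440) (l 16297440)) (a (l 16183128) (l 16221160)))))) (a (l 1) (b (a (l 1) (b (l 15985824) (l 1))) (l 1))))) (l 1)), by decide +kernel⟩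

def k1_pp_022_b : ∃ t, chk3 f_pp_022_b t 3 1 1 = true :=
  ⟨(a (b (b (a (b (a (b (a (l 16474968) (l 16470688)) (a (l 16448808) (l 16444424))) (b (a (l 16470312) (l 16453088)) (l 16444240))) (a (b (a (l 16358200) (l 16396000)) (l 16278280)) (b (l 16415008) (l 16350240)))) (b (a (b (a (l 16460288) (l 16491768)) (l 16456848)) (b (a (l 16504616) (l 16519728)) (l 16440120))) (a (b (l 16426360) (l 16393640)) (b (l 16450056) (l 16416456))))) (a (b (a (b (l 16096960) (l 16045840)) (a (l 16100776) (l 16218584))) (a (l 1) (b (l 16057608) (l 15968416)))) (b (a (a (l 16251456) (l 16282544)) (b (l 16370736) (l 16276992))) (a (b (l 16118944) (l 16022160)) (l 16130048))))) (b (a (l 1) (b (a (b (l 15930168) (l 1)) (l 15830056)) (a (l 1) (l 15717896)))) (l 1))) (b (b (a (b (b (a (a (l 16537032) (l 16556592)) (a (l 16578304) (l 16581008))) (a (l 16474736) (l 16559888))) (a (b (l 16484640) (l 16450048)) (b (l 16527640) (l 16493064)))) (a (b (b (a (l 16627152) (l 16653480)) (l 16609944))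 (a (l 16541352) (l 16540280))) (b (a (b (l 16680256) (l 16629384)) (b (b (l 16732696) (l 16672672)) (l 16630424))) (a (l 16539768) (l 4))))) (a (a (b (l 16366632) (l 16185248)) (b (l 16393952) (l 16227856))) (b (a (l 16405368) (l 16419712)) (a (l 16172480) (l 55531205847))))) (a (b (b (a (l 15925992) (l 15957288)) (a (l 15797624) (l 15844728))) (b (a (l 1) (l 15659144)) (l 1))) (b (a (b (l 15938352) (l 15893696)) (b (l 16129720) (l 15888984))) (a (b (l 15699048) (l 15521064)) (b (l 15755728) (l 15560968))))))), by decide +kernel⟩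

theorem s2_pp_022_b : ∃ t, chk3 f_pp_022_b t 1 1 1 = true := ex3_a k0_pp_022_b k1_pp_022_b

theorem c_pp_022_b : CertB 0 536870912 1239849684 370763052 923417968 42949674 3 eng mog cd0q0 cd1q2b pd2 true true true .pp 0 2 2
    ndB0q0 ndB1q2b pcB2 cut_pp_022_b Ext.none :=
  certB2 (fam := true) (s1 := true) (s2 := true) (a := 0) (b := 2) (c := 2) (cn := .pp) (n1 := ndB0q0) (n2 := ndB1q2b) (pc := pcB2) (cut := cut_pp_022_b) (xt := Ext.none) (P1 := 0) (W1 := 536870912) (P2 := 1239849684) (W2 := 370763052) (P3 := 923417968) (W3 := 42949674) (N0 := 3) (En := eng) (mo := mog) (C1 := cd0q0) (C2 := cd1q2b) (C3 := pd2)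
    rfl (fun _ => rfl) s2_pp_022_b

noncomputable def f_pp_023_a : ℕ → ℕ → ℕ → ℕ → Bool := onCell 1610612736 536870912 0 536870912 923417968 42949674
    (rowB 3 eng mog cd0q0 cd1q2a pd3 2 true true true .up 0 2 3 (qsf 0 536870912 0 536870912 3) ndB0q0 ndB1q2a pcB3 Cut.none Ext.none)

def k0_pp_023_a : ∃ t, chk3 f_pp_023_a t 1 1 1 = true :=
  ⟨(a (a (b (l 4) (l 4)) (l 4)) (l 2)), by decide +kernel⟩

theorem c_pp_023_a : CertB 0 536870912 0 536870912 923417968 42949674 3 eng mog cd0q0 cd1q2a pd3 true true true .up 0 2 3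
    ndB0q0 ndB1q2a pcB3 Cut.none Ext.none :=
  certB2 (fam := true) (s1 := true) (s2 := true) (a := 0) (b := 2) (c := 3) (cn := .up) (n1 := ndB0q0) (n2 := ndB1q2a) (pc := pcB3) (cut := Cut.none) (xt := Ext.none) (P1 := 0) (W1 := 536870912) (P2 := 0) (W2 := 536870912) (P3 := 923417968) (W3 := 42949674) (N0 := 3) (En := eng) (mo := mog) (C1 := cd0q0) (C2 := cd1q2a) (C3 := pd3)
    rfl (fun _ => rfl) k0_pp_023_a

noncomputable def f_pp_023_b : ℕ → ℕ → ℕ → ℕ → Bool := onCell 1610612736 536870912 1239849684 370763052 923417968 42949674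
    (rowB 3 eng mog cd0q0 cd1q2b pd3 2 true true true .up 0 2 3 (qsf 0 536870912 1239849684 370763052 3) ndB0q0 ndB1q2b pcB3 Cut.none Ext.none)

def k0_pp_023_b : ∃ t, chk3 f_pp_023_b t 1 1 1 = true :=
  ⟨(a (b (a (a (b (l 4) (l 4)) (l 4)) (l 4)) (l 4)) (l 4)), by decide +kernel⟩

theorem c_pp_023_b : CertB 0 536870912 1239849684 370763052 923417968 42949674 3 eng mog cd0q0 cd1q2b pd3 true true true .up 0 2 3
    ndB0q0 ndB1q2b pcB3 Cut.none Ext.none :=
  certB2 (fam := true) (s1 := true) (s2 := true) (a := 0) (b := 2) (c := 3) (cn := .up) (n1 := ndB0q0) (n2 := ndB1q2b) (pc := pcB3) (cut := Cut.none) (xt := Ext.none) (P1 := 0) (W1 := 536870912) (P2 := 1239849684) (W2 := 370763052) (P3 := 923417968) (W3 := 42949674) (N0 := 3) (En := eng) (mo := mog) (C1 := cd0q0) (C2 := cd1q2b) (C3 := pd3)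
    rfl (fun _ => rfl) k0_pp_023_b

noncomputable def f_pp_033 : ℕ → ℕ → ℕ → ℕ → Bool := onCell 0 536870912 1610612736 536870912 923417968 42949674
    (rowB 3 eng mog cd0q0 cd1q3 pd3 1 true true true .pnn 0 3 3 (qsf 0 536870912 1610612736 536870912 3) ndB0q0 ndB1q3 pcB3 Cut.none Ext.none)

def k0_pp_033 : ∃ t, chk3 f_pp_033 t 1 1 1 = true :=
  ⟨(b (b (a (l 4) (l 1)) (l 4)) (l 4)), by decide +kernel⟩

theorem c_pp_033 : CertB 0 536870912 1610612736 536870912 923417968 42949674 3 eng mog cd0q0 cd1q3 pd3 true true true .pnn 0 3 3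
    ndB0q0 ndB1q3 pcB3 Cut.none Ext.none :=
  certB1 (fam := true) (s1 := true) (s2 := true) (a := 0) (b := 3) (c := 3) (cn := .pnn) (n1 := ndB0q0) (n2 := ndB1q3) (pc := pcB3) (cut := Cut.none) (xt := Ext.none) (P1 := 0) (W1 := 536870912) (P2 := 1610612736) (W2 := 536870912) (P3 := 923417968) (W3 := 42949674) (N0 := 3) (En := eng) (mo := mog) (C1 := cd0q0) (C2 := cd1q3) (C3 := pd3)
    rfl (fun _ => rfl) k0_pp_033

noncomputable def f_pp_101 : ℕ → ℕ → ℕ → ℕ → Bool := onCell 536870912 536870912 0 536870912 923417968 42949674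
    (rowB 3 eng mog cd0q1 cd1q0 pd1 0 true true true .npn 1 0 1 (qsf 536870912 536870912 0 536870912 1) ndB0q1 ndB1q0 pcB1 Cut.none Ext.none)

def k0_pp_101 : ∃ t, chk3 f_pp_101 t 1 1 1 = true :=
  ⟨(l 5), by decide +kernel⟩

theorem c_pp_101 : CertB 536870912 536870912 0 536870912 923417968 42949674 3 eng mog cd0q1 cd1q0 pd1 true true true .npn 1 0 1
    ndB0q1 ndB1q0 pcB1 Cut.none Ext.none :=
  certB0 (fam := true) (s1 := true) (s2 := true) (a := 1) (b := 0) (c := 1) (cn := .npn) (n1 := ndB0q1) (n2 := ndB1q0) (pc := pcB1) (cut := Cut.none) (xt := Ext.none) (P1 := 536870912) (W1 := 536870912) (P2 := 0) (W2 := 536870912) (P3 := 923417968) (W3 := 42949674) (N0 := 3) (En := eng) (mo := mog) (C1 := cd0q1) (C2 := cd1q0) (C3 := pd1)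
    rfl k0_pp_101

noncomputable def f_pp_102 : ℕ → ℕ → ℕ → ℕ → Bool := onCell 536870912 536870912 0 536870912 923417968 42949674
    (rowB 3 eng mog cd0q1 cd1q0 pd2 0 true true true .npp 1 0 2 (qsf 536870912 536870912 0 536870912 2) ndB0q1 ndB1q0 pcB2 Cut.none Ext.none)

def k0_pp_102 : ∃ t, chk3 f_pp_102 t 1 1 1 = true :=
  ⟨(l 5), by decide +kernel⟩

theorem c_pp_102 : CertB 536870912 536870912 0 536870912 923417968 42949674 3 eng mog cd0q1 cd1q0 pd2 true true true .npp 1 0 2
    ndB0q1 ndB1q0 pcB2 Cut.none Ext.none :=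
  certB0 (fam := true) (s1 := true) (s2 := true) (a := 1) (b := 0) (c := 2) (cn := .npp) (n1 := ndB0q1) (n2 := ndB1q0) (pc := pcB2) (cut := Cut.none) (xt := Ext.none) (P1 := 536870912) (W1 := 536870912) (P2 := 0) (W2 := 536870912) (P3 := 923417968) (W3 := 42949674) (N0 := 3) (En := eng) (mo := mog) (C1 := cd0q1) (C2 := cd1q0) (C3 := pd2)
    rfl k0_pp_102

noncomputable def f_pp_112 : ℕ → ℕ → ℕ → ℕ → Bool := onCell 536870912 536870912 536870912 536870912 923417968 42949674
    (rowB 3 eng mog cd0q1 cd1q1 pd2 0 true true true .dn 1 1 2 (qsf 536870912 536870912 536870912 536870912 2) ndB0q1 ndB1q1 pcB2 Cut.none Ext.none)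

def k0_pp_112 : ∃ t, chk3 f_pp_112 t 1 1 1 = true :=
  ⟨(l 4), by decide +kernel⟩

theorem c_pp_112 : CertB 536870912 536870912 536870912 536870912 923417968 42949674 3 eng mog cd0q1 cd1q1 pd2 true true true .dn 1 1 2
    ndB0q1 ndB1q1 pcB2 Cut.none Ext.none :=
  certB0 (fam := true) (s1 := true) (s2 := true) (a := 1) (b := 1) (c := 2) (cn := .dn) (n1 := ndB0q1) (n2 := ndB1q1) (pc := pcB2) (cut := Cut.none) (xt := Ext.none) (P1 := 536870912) (W1 := 536870912) (P2 := 536870912) (W2 := 536870912) (P3 := 923417968) (W3 := 42949674) (N0 := 3) (En := eng) (mo := mog) (C1 := cd0q1) (C2 := cd1q1) (C3 := pd2)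
    rfl k0_pp_112

noncomputable def f_pp_113 : ℕ → ℕ → ℕ → ℕ → Bool := onCell 536870912 536870912 536870912 536870912 923417968 42949674
    (rowB 3 eng mog cd0q1 cd1q1 pd3 0 true true true .nn 1 1 3 (qsf 536870912 536870912 536870912 536870912 3) ndB0q1 ndB1q1 pcB3 Cut.none Ext.none)

def k0_pp_113 : ∃ t, chk3 f_pp_113 t 1 1 1 = true :=
  ⟨(l 4), by decide +kernel⟩

theorem c_pp_113 : CertB 536870912 536870912 536870912 536870912 923417968 42949674 3 eng mog cd0q1 cd1q1 pd3 true true true .nn 1 1 3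
    ndB0q1 ndB1q1 pcB3 Cut.none Ext.none :=
  certB0 (fam := true) (s1 := true) (s2 := true) (a := 1) (b := 1) (c := 3) (cn := .nn) (n1 := ndB0q1) (n2 := ndB1q1) (pc := pcB3) (cut := Cut.none) (xt := Ext.none) (P1 := 536870912) (W1 := 536870912) (P2 := 536870912) (W2 := 536870912) (P3 := 923417968) (W3 := 42949674) (N0 := 3) (En := eng) (mo := mog) (C1 := cd0q1) (C2 := cd1q1) (C3 := pd3)
    rfl k0_pp_113

noncomputable def f_pp_123_a : ℕ → ℕ → ℕ → ℕ → Bool := onCell 536870912 536870912 0 536870912 923417968 42949674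
    (rowB 3 eng mog cd0q1 cd1q2a pd3 0 true true true .npn 1 2 3 (qsf 536870912 536870912 0 536870912 3) ndB0q1 ndB1q2a pcB3 Cut.none Ext.none)

def k0_pp_123_a : ∃ t, chk3 f_pp_123_a t 1 1 1 = true :=
  ⟨(l 4), by decide +kernel⟩

theorem c_pp_123_a : CertB 536870912 536870912 0 536870912 923417968 42949674 3 eng mog cd0q1 cd1q2a pd3 true true true .npn 1 2 3
    ndB0q1 ndB1q2a pcB3 Cut.none Ext.none :=
  certB0 (fam := true) (s1 := true) (s2 := true) (a := 1) (b := 2) (c := 3) (cn := .npn) (n1 := ndB0q1) (n2 := ndB1q2a) (pc := pcB3) (cut := Cut.none) (xt := Ext.none) (P1 := 536870912) (W1 := 536870912) (P2 := 0) (W2 := 536870912) (P3 := 923417968) (W3 := 42949674) (N0 := 3) (En := eng) (mo := mog) (C1 := cd0q1) (C2 := cd1q2a) (C3 := pd3)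
    rfl k0_pp_123_a

noncomputable def f_pp_123_b : ℕ → ℕ → ℕ → ℕ → Bool := onCell 536870912 536870912 1239849684 370763052 923417968 42949674
    (rowB 3 eng mog cd0q1 cd1q2b pd3 0 true true true .npn 1 2 3 (qsf 536870912 536870912 1239849684 370763052 3) ndB0q1 ndB1q2b pcB3 Cut.none Ext.none)

def k0_pp_123_b : ∃ t, chk3 f_pp_123_b t 1 1 1 = true :=
  ⟨(a (l 4) (l 4)), by decide +kernel⟩

theorem c_pp_123_b : CertB 536870912 536870912 1239849684 370763052 923417968 42949674 3 eng mog cd0q1 cd1q2b pd3 true true true .npn 1 2 3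
    ndB0q1 ndB1q2b pcB3 Cut.none Ext.none :=
  certB0 (fam := true) (s1 := true) (s2 := true) (a := 1) (b := 2) (c := 3) (cn := .npn) (n1 := ndB0q1) (n2 := ndB1q2b) (pc := pcB3) (cut := Cut.none) (xt := Ext.none) (P1 := 536870912) (W1 := 536870912) (P2 := 1239849684) (W2 := 370763052) (P3 := 923417968) (W3 := 42949674) (N0 := 3) (En := eng) (mo := mog) (C1 := cd0q1) (C2 := cd1q2b) (C3 := pd3)
    rfl k0_pp_123_b

noncomputable def f_pp_133 : ℕ → ℕ → ℕ → ℕ → Bool := onCell 536870912 536870912 1610612736 536870912 923417968 42949674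
    (rowB 3 eng mog cd0q1 cd1q3 pd3 0 true true true .dn 1 3 3 (qsf 536870912 536870912 1610612736 536870912 3) ndB0q1 ndB1q3 pcB3 Cut.none Ext.none)

def k0_pp_133 : ∃ t, chk3 f_pp_133 t 1 1 1 = true :=
  ⟨(l 4), by decide +kernel⟩

theorem c_pp_133 : CertB 536870912 536870912 1610612736 536870912 923417968 42949674 3 eng mog cd0q1 cd1q3 pd3 true true true .dn 1 3 3
    ndB0q1 ndB1q3 pcB3 Cut.none Ext.none :=
  certB0 (fam := true) (s1 := true) (s2 := true) (a := 1) (b := 3) (c := 3) (cn := .dn) (n1 := ndB0q1) (n2 := ndB1q3) (pc := pcB3) (cut := Cut.none) (xt := Ext.none) (P1 := 536870912) (W1 := 536870912) (P2 := 1610612736) (W2 := 536870912) (P3 := 923417968) (W3 := 42949674) (N0 := 3) (En := eng) (mo := mog) (C1 := cd0q1) (C2 := cd1q3) (C3 := pd3)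
    rfl k0_pp_133

noncomputable def f_pp_202 : ℕ → ℕ → ℕ → ℕ → Bool := onCell 0 536870912 0 536870912 923417968 42949674
    (rowB 3 eng mog cd0q2 cd1q0 pd2 0 true true true .pp 2 0 2 (qsf 0 536870912 0 536870912 2) ndB0q2 ndB1q0 pcB2 Cut.none Ext.none)

def k0_pp_202 : ∃ t, chk3 f_pp_202 t 1 1 1 = true :=
  ⟨(l 5), by decide +kernel⟩

theorem c_pp_202 : CertB 0 536870912 0 536870912 923417968 42949674 3 eng mog cd0q2 cd1q0 pd2 true true true .pp 2 0 2
    ndB0q2 ndB1q0 pcB2 Cut.none Ext.none :=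
  certB0 (fam := true) (s1 := true) (s2 := true) (a := 2) (b := 0) (c := 2) (cn := .pp) (n1 := ndB0q2) (n2 := ndB1q0) (pc := pcB2) (cut := Cut.none) (xt := Ext.none) (P1 := 0) (W1 := 536870912) (P2 := 0) (W2 := 536870912) (P3 := 923417968) (W3 := 42949674) (N0 := 3) (En := eng) (mo := mog) (C1 := cd0q2) (C2 := cd1q0) (C3 := pd2)
    rfl k0_pp_202

noncomputable def f_pp_203 : ℕ → ℕ → ℕ → ℕ → Bool := onCell 0 536870912 0 536870912 923417968 42949674
    (rowB 3 eng mog cd0q2 cd1q0 pd3 0 true true true .up 2 0 3 (qsf 0 536870912 0 536870912 3) ndB0q2 ndB1q0 pcB3 Cut.none Ext.none)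

def k0_pp_203 : ∃ t, chk3 f_pp_203 t 1 1 1 = true :=
  ⟨(l 5), by decide +kernel⟩

theorem c_pp_203 : CertB 0 536870912 0 536870912 923417968 42949674 3 eng mog cd0q2 cd1q0 pd3 true true true .up 2 0 3
    ndB0q2 ndB1q0 pcB3 Cut.none Ext.none :=
  certB0 (fam := true) (s1 := true) (s2 := true) (a := 2) (b := 0) (c := 3) (cn := .up) (n1 := ndB0q2) (n2 := ndB1q0) (pc := pcB3) (cut := Cut.none) (xt := Ext.none) (P1 := 0) (W1 := 536870912) (P2 := 0) (W2 := 536870912) (P3 := 923417968) (W3 := 42949674) (N0 := 3) (En := eng) (mo := mog) (C1 := cd0q2) (C2 := cd1q0) (C3 := pd3)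
    rfl k0_pp_203

noncomputable def f_pp_213 : ℕ → ℕ → ℕ → ℕ → Bool := onCell 0 536870912 536870912 536870912 923417968 42949674
    (rowB 3 eng mog cd0q2 cd1q1 pd3 0 true true true .pnn 2 1 3 (qsf 0 536870912 536870912 536870912 3) ndB0q2 ndB1q1 pcB3 Cut.none Ext.none)

def k0_pp_213 : ∃ t, chk3 f_pp_213 t 1 1 1 = true :=
  ⟨(l 4), by decide +kernel⟩

theorem c_pp_213 : CertB 0 536870912 536870912 536870912 923417968 42949674 3 eng mog cd0q2 cd1q1 pd3 true true true .pnn 2 1 3
    ndB0q2 ndB1q1 pcB3 Cut.none Ext.none :=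
  certB0 (fam := true) (s1 := true) (s2 := true) (a := 2) (b := 1) (c := 3) (cn := .pnn) (n1 := ndB0q2) (n2 := ndB1q1) (pc := pcB3) (cut := Cut.none) (xt := Ext.none) (P1 := 0) (W1 := 536870912) (P2 := 536870912) (W2 := 536870912) (P3 := 923417968) (W3 := 42949674) (N0 := 3) (En := eng) (mo := mog) (C1 := cd0q2) (C2 := cd1q1) (C3 := pd3)
    rfl k0_pp_213

noncomputable def f_pm_001 : ℕ → ℕ → ℕ → ℕ → Bool := onCell 0 536870912 0 536870912 923417968 42949674
    (rowB 3 eng mog cd0q0 cd1q0 pd1 0 true true false .up 0 0 1 (qsf 0 536870912 0 536870912 1) ndB0q0 ndB1q0 pcB1 Cut.none Ext.none)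

def k0_pm_001 : ∃ t, chk3 f_pm_001 t 1 1 1 = true :=
  ⟨(l 3), by decide +kernel⟩

theorem c_pm_001 : CertB 0 536870912 0 536870912 923417968 42949674 3 eng mog cd0q0 cd1q0 pd1 true true false .up 0 0 1
    ndB0q0 ndB1q0 pcB1 Cut.none Ext.none :=
  certB0 (fam := true) (s1 := true) (s2 := false) (a := 0) (b := 0) (c := 1) (cn := .up) (n1 := ndB0q0) (n2 := ndB1q0) (pc := pcB1) (cut := Cut.none) (xt := Ext.none) (P1 := 0) (W1 := 536870912) (P2 := 0) (W2 := 536870912) (P3 := 923417968) (W3 := 42949674) (N0 := 3) (En := eng) (mo := mog) (C1 := cd0q0) (C2 := cd1q0) (C3 := pd1)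
    rfl k0_pm_001

noncomputable def f_pm_011 : ℕ → ℕ → ℕ → ℕ → Bool := onCell 0 536870912 536870912 536870912 923417968 42949674
    (rowB 3 eng mog cd0q0 cd1q1 pd1 1 true true false .pnn 0 1 1 (qsf 0 536870912 536870912 536870912 1) ndB0q0 ndB1q1 pcB1 Cut.none Ext.none)

def k0_pm_011 : ∃ t, chk3 f_pm_011 t 1 1 1 = true :=
  ⟨(l 3), by decide +kernel⟩

theorem c_pm_011 : CertB 0 536870912 536870912 536870912 923417968 42949674 3 eng mog cd0q0 cd1q1 pd1 true true false .pnn 0 1 1
    ndB0q0 ndB1q1 pcB1 Cut.none Ext.none :=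
  certB1 (fam := true) (s1 := true) (s2 := false) (a := 0) (b := 1) (c := 1) (cn := .pnn) (n1 := ndB0q0) (n2 := ndB1q1) (pc := pcB1) (cut := Cut.none) (xt := Ext.none) (P1 := 0) (W1 := 536870912) (P2 := 536870912) (W2 := 536870912) (P3 := 923417968) (W3 := 42949674) (N0 := 3) (En := eng) (mo := mog) (C1 := cd0q0) (C2 := cd1q1) (C3 := pd1)
    rfl (fun _ => rfl) k0_pm_011

noncomputable def f_pm_012 : ℕ → ℕ → ℕ → ℕ → Bool := onCell 0 536870912 1073741824 536870912 923417968 42949674
    (rowB 3 eng mog cd0q0 cd1q1 pd2 1 true true false .pnp 0 1 2 (qsf 0 536870912 536870912 536870912 2) ndB0q0 ndB1q1 pcB2 Cut.none Ext.none)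

def k0_pm_012 : ∃ t, chk3 f_pm_012 t 1 4 1 = true :=
  ⟨(a (b (l 3) (a (b (l 3) (a (l 2) (l 3))) (l 3))) (l 3)), by decide +kernel⟩

def k1_pm_012 : ∃ t, chk3 f_pm_012 t 4 5 1 = true :=
  ⟨(b (b (b (a (l 2) (a (l 2) (l 3))) (l 2)) (l 2)) (l 2)), by decide +kernel⟩

def k2_pm_012 : ∃ t, chk3 f_pm_012 t 5 5 1 = true :=
  ⟨(b (b (b (l 3) (b (a (a (a (b (l 3) (l 2)) (l 3)) (l 3)) (l 3)) (b (a (a (a (l 2) (b (b (a (a (l 2) (l 1065855887735)) (l 3)) (a (l 2) (c (l 16450336) (l 16438016)))) (a (l 2) (c (b (l 16448696) (l 16447192)) (b (a (l 16410656) (l 16420408)) (l 16414248)))))) (b (l 3) (a (c (b (l 16456024) (l 16454568)) (b (l 16422872) (l 16421624))) (c (l 16469176) (c (l 16465840) (l 16456688)))))) (l 3)) (a (a (a (l 2) (a (l 2) (a (l 16443672) (c (l 16448336) (l 16415880))))) (a (c (l 16450952) (l 16418512)) (c (l 16506968) (l 16464128)))) (a (a (c (l 16538712) (a (l 16498896) (l 16514104))) (c (l 16525240) (c (l 16543968) (l 16526624)))) (c (c (l 16573664) (l 16554848))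 (c (l 162839149111) (a (l 16552568) (l 171965990151))))))))) (a (a (a (l 2) (a (l 2) (b (c (l 16449168) (l 16418480)) (l 2)))) (a (b (b (a (b (l 16420400) (l 16414776)) (l 16436208)) (c (l 16430240) (l 16400368))) (b (l 16425176) (l 2))) (b (c (l 16471888) (b (l 16446432) (l 16457504))) (c (l 16469600) (l 16442032))))) (a (a (b (b (c (l 16530608) (l 16499760)) (l 16442688)) (l 16426944)) (b (c (l 16512224) (b (l 16508056) (l 16520160))) (l 16457248))) (b (c (b (l 16499672) (l 16536704)) (a (b (l 16513336) (l 16546896)) (b (l 16515696) (l 16549720)))) (a (l 16463408) (l 16487424)))))) (a (a (l 2) (b (a (l 2) (b (l 16433248) (l 2))) (l 2))) (a (b (a (b (l 16467960) (l 16445024)) (b (l 16499296) (l 16477488))) (b (l 16396280) (l 2))) (b (a (l 16433248) (l 16479640)) (a (l 16473752) (l 16501232)))))), by decide +kernel⟩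

def k3_pm_012 : ∃ t, chk3 f_pm_012 t 6 10 1 = true :=
  ⟨(b (b (l 3) (b (l 3) (a (b (l 3) (a (c (a (l 16544496) (l 16539144)) (c (c (l 16528072) (l 156396718199)) (a (l 171429163239) (l 155323024599)))) (c (a (l 16492928) (l 16468296)) (c (a (l 16542016) (l 16518832)) (a (c (l 16568176) (l 140827505847)) (c (l 16545776) (l 16585336))))))) (b (b (a (l 3) (a (l 3) (a (l 3) (c (l 16370520) (l 16488976))))) (a (a (l 3) (c (l 16422552) (b (l 3) (c (l 16475712) (l 16514096))))) (c (a (l 16398752) (l 16374872)) (a (c (l 16453552) (l 135995558631)) (c (l 16430784) (l 16470936)))))) (a (c (a (l 16444136) (l 16420240)) (c (a (l 16496008) (l 16473376)) (a (l 16554152) (l 16532448)))) (c (a (l 16396432) (l 16372568)) (a (c (l 16450760) (l 16489752)) (l 16468616)))))))) (b (a (a (c (a (l 16537640) (c (l 16496632) (l 16525920))) (a (a (l 16548560) (l 16549376)) (b (a (l 16582800) (l 16581440)) (l 16569488)))) (c (a (l 16506584) (l 16460832)) (a (b (c (l 16536592) (l 16565760)) (l 16556496))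 (c (l 16509712) (a (l 16529240) (l 16539184)))))) (a (a (c (l 16436576) (c (l 16486808) (l 16543784))) (c (l 16412624) (c (l 16464128) (l 16522048)))) (c (a (l 16388800) (l 16364952)) (a (c (l 16441528) (l 16479384)) (l 16500816))))) (a (a (c (l 16492920) (b (l 16490848) (l 16568000))) (c (a (l 16474512) (l 16449424)) (a (l 16535080) (l 16449040)))) (a (c (l 16412960) (a (l 16489312) (l 16466968))) (c (l 16365096) (a (l 16444752) (l 16422504))))))), by decide +kernel⟩

def k4_pm_012 : ∃ t, chk3 f_pm_012 t 7 10 1 = true :=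
  ⟨(b (b (b (l 3) (a (l 3) (b (a (l 3) (a (l 3) (c (l 16210832) (l 16282080)))) (a (a (l 3) (c (l 16245464) (l 233168837287))) (c (a (l 16225944) (l 16208040)) (a (l 179481699511) (l 16276088))))))) (b (b (a (a (l 3) (a (l 3) (c (l 16306552) (l 243906352055)))) (a (c (a (l 16263072) (l 16242152)) (a (l 185387365847) (l 16311536))) (c (a (l 16222840) (l 16205160)) (a (l 16309496) (l 16293560))))) (a (a (a (l 3) (b (l 3) (c (l 16329808) (l 16471952)))) (c (a (l 16347840) (l 16281936)) (a (b (l 228874012439) (l 16385272)) (a (l 16358576) (l 16337120))))) (a (c (a (l 16259608) (l 16238888)) (a (l 16332000) (l 16323216))) (c (a (l 16219784) (l 16202312)) (a (l 16305744) (l 16290096)))))) (b (a (a (c (b (a (l 16352440) (l 16328008)) (a (l 16350800) (l 16326400))) (b (a (a (l 16435664) (l 16424192)) (l 16411992)) (a (a (l 16433576) (l 16422120)) (l 16404720)))) (c (b (a (l 16303256) (l 16279408)) (a (l 16301688) (l 16277880))) (b (a (l 16383080) (l 16360368)) (a (l 16381112)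 (l 16358464))))) (a (c (b (l 16246760) (l 16245296)) (a (b (l 16339472) (l 16337632)) (l 16298504))) (c (a (l 16216896) (l 16199544)) (b (l 16274368) (l 16272704))))) (a (a (c (l 16327280) (a (l 16445960) (l 16401872))) (c (l 16329696) (a (l 16378312) (l 16355728)))) (a (c (l 16243160) (l 16325328)) (a (l 16276072) (l 16238760))))))) (c (c (a (a (l 16327112) (l 16278168)) (a (l 16212392) (l 16174384))) (a (a (l 16323504) (l 16355680)) (a (l 16249312) (l 16213104)))) (a (a (b (a (l 16436320) (l 16392368)) (l 16409776)) (b (a (l 16368984) (l 16346592)) (l 16343232))) (a (b (l 16321792) (l 16302392)) (b (l 16261976) (l 16269544)))))), by decide +kernel⟩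

def k5_pm_012 : ∃ t, chk3 f_pm_012 t 3 11 1 = true :=
  ⟨(a (a (a (b (c (l 16500552) (l 16489776)) (l 16467656)) (b (c (l 16342056) (a (l 16514872) (l 16449048))) (l 16391304))) (c (b (a (l 16396736) (l 16348264)) (a (l 16377896) (l 16327920))) (a (b (b (l 16379624) (l 16449504)) (l 16430296)) (b (l 16495376) (l 16383696))))) (a (b (c (a (l 16300088) (l 16251984)) (a (l 16366504) (l 16321344))) (a (l 16380920) (l 16281680))) (c (b (a (l 16208376) (l 16171984)) (l 16148496)) (a (l 16298816) (l 16235928))))), by decide +kernel⟩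

def k6_pm_012 : ∃ t, chk3 f_pm_012 t 1 3 1 = true :=
  ⟨(a (a (l 2) (b (b (a (l 2) (a (l 2) (b (l 16441888) (l 2)))) (l 2)) (l 2))) (a (b (a (b (a (b (l 16494808) (l 16450168)) (b (l 16440080) (l 16433680))) (a (l 2) (b (l 16437720) (l 2)))) (b (a (b (l 16322344) (l 16373080)) (b (l 16334224) (l 16317936))) (a (l 16309152) (l 16306328)))) (a (l 2) (b (a (l 2) (l 16326032)) (l 2)))) (b (a (b (a (b (l 16285184) (l 16266144)) (b (l 16237576) (l 16216864))) (b (l 15994696) (l 16088704))) (a (b (l 16080160) (l 16147096)) (b (l 16025568) (l 16111232)))) (a (b (a (l 16247208) (l 16179824)) (a (l 2) (l 16205744))) (b (a (l 16124912) (l 16082840)) (a (l 16130688) (l 16075112))))))), by decide +kernel⟩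

theorem s7_pm_012 : ∃ t, chk3 f_pm_012 t 3 10 1 = true := ex3_a k3_pm_012 k4_pm_012

theorem s8_pm_012 : ∃ t, chk3 f_pm_012 t 3 5 1 = true := ex3_b s7_pm_012 k5_pm_012

theorem s9_pm_012 : ∃ t, chk3 f_pm_012 t 2 5 1 = true := ex3_a k1_pm_012 k2_pm_012

theorem s10_pm_012 : ∃ t, chk3 f_pm_012 t 1 5 1 = true := ex3_a s9_pm_012 s8_pm_012

theorem s11_pm_012 : ∃ t, chk3 f_pm_012 t 1 2 1 = true := ex3_b k0_pm_012 s10_pm_012

theorem s12_pm_012 : ∃ t, chk3 f_pm_012 t 1 1 1 = true := ex3_b s11_pm_012 k6_pm_012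

theorem c_pm_012 : CertB 0 536870912 536870912 536870912 923417968 42949674 3 eng mog cd0q0 cd1q1 pd2 true true false .pnp 0 1 2
    ndB0q0 ndB1q1 pcB2 Cut.none Ext.none :=
  certB1 (fam := true) (s1 := true) (s2 := false) (a := 0) (b := 1) (c := 2) (cn := .pnp) (n1 := ndB0q0) (n2 := ndB1q1) (pc := pcB2) (cut := Cut.none) (xt := Ext.none) (P1 := 0) (W1 := 536870912) (P2 := 536870912) (W2 := 536870912) (P3 := 923417968) (W3 := 42949674) (N0 := 3) (En := eng) (mo := mog) (C1 := cd0q0) (C2 := cd1q1) (C3 := pd2)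
    rfl (fun _ => rfl) s12_pm_012

noncomputable def cut_pm_022_a : Cut := Cut.of [[⟨0, 0, 0, 67108864⟩, ⟨1, 1, 0, 67108864⟩, ⟨2, 1, 0, 67108864⟩]]

noncomputable def f_pm_022_a : ℕ → ℕ → ℕ → ℕ → Bool := onCell 1073741824 536870912 0 536870912 923417968 42949674
    (rowB 3 eng mog cd0q0 cd1q2a pd2 2 true true false .pp 0 2 2 (qsf 0 536870912 0 536870912 2) ndB0q0 ndB1q2a pcB2 cut_pm_022_a Ext.none)

def k0_pm_022_a : ∃ t, chk3 f_pm_022_a t 8 1 1 = true :=
  ⟨(b (l 1) (b (l 1) (a (b (l 1) (l 6)) (a (b (b (l 1) (l 6)) (l 6)) (a (b (b (l 1) (l 6)) (l 6)) (a (b (b (b (l 1) (b (l 1) (l 6))) (l 6)) (l 6)) (a (b (b (b (l 1) (b (b (l 1) (l 6)) (l 6))) (l 6)) (l 6)) (b (b (b (l 1) (b (c (c (b (l 16473760) (l 16483376)) (l 51035655703)) (c (l 49961867703) (l 16403408))) (a (l 6) (c (l 16486856) (l 16459872))))) (b (c (b (l 16507528) (l 16528856)) (b (l 16462192) (l 16486104))) (c (l 16562088) (l 16523464)))) (a (l 6) (b (b (c (l 16608432) (l 16575600)) (l 16581104)) (b (l 16655880)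 (b (l 16634464) (b (l 16659808) (l 16627368)))))))))))))), by decide +kernel⟩

def k1_pm_022_a : ∃ t, chk3 f_pm_022_a t 9 2 1 = true :=
  ⟨(b (l 1) (a (l 1) (b (l 1) (a (l 1) (a (l 1) (b (l 1) (c (l 16206560) (l 16070832)))))))), by decide +kernel⟩

def k2_pm_022_a : ∃ t, chk3 f_pm_022_a t 18 6 1 = true :=
  ⟨(b (l 1) (b (a (l 1) (b (a (l 1) (a (l 1) (b (l 1) (c (l 16310472) (l 16229816))))) (b (a (l 1) (c (a (l 16346792) (l 16347200)) (l 71973286455))) (a (a (l 1) (c (l 16362640) (l 16268024))) (c (a (l 118144349223) (l 16342552)) (a (l 16266824) (l 16265904))))))) (a (a (l 1) (b (a (l 1) (a (l 1) (b (l 1) (c (l 16374896) (l 16308016))))) (c (a (b (c (l 16407048) (l 16377008)) (c (l 16424552) (l 16395504))) (b (c (l 16407592) (l 16376824)) (c (l 16425208) (l 16395480)))) (c (b (l 16366024) (a (l 16365112) (l 16364344))) (a (l 16365000) (l 26339334327)))))) (c (a (b (a (b (l 16378984) (c (l 16391144) (l 16358656))) (b (l 91837698583) (l 16396480))) (a (b (c (l 16408304)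 (l 16376840)) (l 16411016)) (b (l 16393304) (l 16411672)))) (c (b (b (l 16376464) (l 16393320)) (l 16419704)) (b (a (l 16350080) (l 16350472)) (l 16387288)))) (a (b (a (b (l 16287936) (l 16307040)) (b (l 16286656) (l 16305984))) (b (a (l 16326848) (l 16326000)) (a (l 16347360) (l 16346704)))) (b (b (a (l 16285672) (l 16284952)) (l 16325864)) (c (l 16353272) (l 16317656)))))))), by decide +kernel⟩

def k3_pm_022_a : ∃ t, chk3 f_pm_022_a t 19 6 1 = true :=
  ⟨(a (a (b (b (l 1) (b (l 1) (c (b (a (l 1) (l 16287192)) (a (l 16280840) (l 16281264))) (a (l 16207768) (l 16227520))))) (b (c (c (b (a (l 16322880) (l 16323816)) (l 16375192)) (b (a (l 16283232) (l 16283504)) (l 16316224))) (b (a (l 16262096) (l 16219312)) (c (l 16276344) (l 16234600)))) (c (b (b (l 16360728) (l 16378312)) (l 16384824)) (b (a (l 16294424) (l 16294256)) (l 16335456))))) (b (b (b (l 1) (c (l 16256488) (l 16123480))) (b (c (a (l 16285216) (l 16265328)) (c (l 16176264) (l 16128608))) (c (b (a (l 16287640)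 (l 16267368)) (a (l 16281888) (l 16282704))) (a (l 16184704) (l 16184160))))) (b (c (b (a (l 16325680) (l 16305680)) (a (l 16336904) (l 16338064))) (b (c (l 16240984) (l 16195624)) (l 16255224))) (c (b (l 16371872) (l 16408384)) (b (l 16294360) (l 16335928)))))) (b (b (c (a (b (l 16192224) (l 16260280)) (b (l 16198208) (l 16223272))) (a (b (l 16099224) (l 16125064)) (b (l 16103472) (l 16128232)))) (c (a (b (a (l 16245728) (l 16247376)) (b (l 16268912) (l 16284248))) (b (l 16250328) (l 16279328))) (b (a (l 16153240) (l 16155272)) (a (b (l 16175848) (l 16192096)) (l 16184744))))) (b (c (a (b (l 16307432) (l 16340056)) (b (l 16310304) (l 16343160))) (a (b (l 16218432) (l 16255600)) (l 16217024))) (c (b (a (l 16374712) (l 16377984)) (l 16413008)) (b (l 16274736) (l 16316632)))))), by decide +kernel⟩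

def k4_pm_022_a : ∃ t, chk3 f_pm_022_a t 9 14 2 = true :=
  ⟨(a (b (a (a (b (a (b (l 1) (c (a (l 16459856) (l 16460104)) (a (l 16434480) (l 16434384)))) (b (c (l 40298213079) (l 16435680)) (c (a (l 16460392) (l 16460720)) (l 118681357911)))) (a (b (c (a (l 127808228535) (l 16479152)) (b (l 16454672) (l 16459640))) (c (l 16498600) (l 16475296))) (b (c (l 16479680) (l 16454592)) (l 16487584)))) (b (a (b (c (l 16442624) (l 16414640)) (c (l 16461280) (l 16434416))) (b (l 16439736) (l 16448568))) (b (a (l 16467808) (l 16468480)) (a (l 16488216) (l 16488976))))) (b (a (a (b (l 16429856) (l 16449280)) (l 16424664)) (c (l 16456648) (l 16426664))) (a (a (l 16469104) (l 16480544)) (l 16482176)))) (a (a (b (b (a (l 16489536) (l 16508480)) (a (l 16529288) (l 16529976))) (b (l 16541168) (l 16574280))) (b (a (l 16520008) (l 16520872)) (c (l 16574568) (l 16554648)))) (a (b (l 16522344) (l 16566784)) (c (l 16474464) (l 16472328))))) (b (b (a (a (l 16444192) (l 16446936)) (l 16451624))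 (a (a (l 16484672) (l 16487464)) (l 16492040))) (a (b (a (l 16527136) (l 16529848)) (l 16509784)) (b (l 16534144) (l 16535760))))), by decide +kernel⟩

def k5_pm_022_a : ∃ t, chk3 f_pm_022_a t 9 15 2 = true :=
  ⟨(a (b (a (b (a (b (l 16597464) (l 16621192)) (l 16569248)) (c (l 16602400) (l 16609984))) (b (a (l 16592232) (l 16573376)) (l 16599440))) (b (a (a (l 16625848) (l 16610112)) (a (l 16594456) (l 16578976))) (a (a (b (l 16617904) (b (l 16612912) (a (l 16616992) (l 16608408)))) (b (l 16601408) (a (b (l 16631728) (l 16610368)) (c (l 16593592) (l 16621360))))) (b (a (l 16585112) (l 16569104)) (b (a (l 16600464) (l 16594728)) (a (c (a (l 16600656) (l 16592136)) (l 16592984)) (c (a (l 16583712) (l 16575400)) (l 16579128)))))))) (b (a (b (l 16576600) (l 16594784)) (c (l 16532504) (l 16551136))) (b (a (a (l 16563744) (l 16548888)) (a (l 16534464) (l 16520536))) (a (b (a (b (l 16600816) (l 16590016)) (l 16590768)) (a (a (c (l 16559544) (l 16571496)) (c (l 16548880) (l 16566616)))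 (b (l 16562392) (c (a (l 16551224) (l 16543448)) (a (l 16561216) (l 16554000)))))) (b (a (b (l 16571128) (l 16560192)) (b (l 16557120) (l 16546176))) (b (a (a (l 16552648) (l 16545480)) (c (l 16528416) (l 16541912))) (a (c (a (l 16535824) (l 16528360)) (a (l 16546952) (l 16540088))) (c (a (l 16521072) (l 16513960)) (a (l 16533400) (l 16526896)))))))))), by decide +kernel⟩

def k6_pm_022_a : ∃ t, chk3 f_pm_022_a t 9 14 3 = true :=
  ⟨(a (b (a (a (b (a (b (l 1) (c (a (l 16407952) (l 16407480)) (l 16400784))) (b (c (l 16386144) (l 16356320)) (c (l 16406880) (l 16378208)))) (a (b (c (a (l 16439624) (l 16428768)) (a (l 16402608) (l 16401864))) (c (l 16450904) (l 16425424))) (b (c (l 16428320) (l 16400872)) (l 16458496)))) (b (a (b (c (l 16385344) (l 16354736)) (c (l 16406280) (l 16376872))) (c (l 16395336) (l 16364608))) (a (b (l 16413984) (l 16436944)) (b (l 16413432) (l 16436552))))) (b (a (a (c (l 16395064) (l 16363656)) (l 16379136)) (l 16357904)) (a (a (l 16403744) (l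 16424584)) (l 16424648)))) (c (a (b (a (a (l 16469544) (l 16485072)) (l 16464072)) (a (l 16533400) (l 16533704))) (b (l 16485816) (l 16534760))) (a (b (a (a (l 16440808) (l 16460960)) (l 16439080)) (a (l 16512504) (l 16511744))) (b (l 16438208) (l 16511256))))) (b (a (b (a (l 16379104) (l 16379848)) (a (l 16425152) (l 16426008))) (b (l 16381624) (l 16427640))) (a (b (l 16473840) (l 16482184)) (b (l 16475440) (l 16482896))))), by decide +kernel⟩

def k7_pm_022_a : ∃ t, chk3 f_pm_022_a t 9 15 3 = true :=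
  ⟨(a (b (b (a (a (b (l 16562040) (l 16588896)) (l 16575520)) (a (l 16575720) (l 16575960))) (a (a (l 16588472) (l 16588512)) (a (l 16588512) (l 16588344)))) (a (b (b (l 16630984) (l 16628920)) (a (b (l 16633816) (a (l 16634168) (l 16626536))) (b (l 16619192) (c (b (l 16638640) (l 16626376)) (l 16598208))))) (a (b (l 16619512) (b (l 16604936) (b (l 16607152) (a (l 16618848) (l 16607048))))) (b (l 16606184) (b (l 16591144) (a (c (l 16606344) (l 16595008)) (b (l 16610680) (a (l 16599352) (l 16595920))))))))) (b (a (b (l 16513208) (b (l 16574048) (l 16622040))) (b (l 16512680) (l 16585344))) (a (b (a (l 16593256) (l 16580776)) (b (a (l 16567336) (b (l 16613312) (l 16558736))) (b (a (c (l 16594912) (l 16606552)) (a (l 16590928) (l 16584672))) (a (c (a (l 16585752) (l 16578816)) (a (l 16596144) (l 16589848))) (c (a (l 16572048) (l 16565456)) (a (l 16583736) (l 16567312))))))) (b (a (l 16568808) (l 16557432)) (b (a (c (l 16587192) (l 16602840)) (a (l 16544304) (l 16538776)))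 (a (c (b (l 16568600) (a (l 16559032) (l 16552808))) (b (l 16582888) (a (l 16561576) (l 16561288)))) (c (b (l 16556504) (a (l 16546776) (l 16540944))) (b (l 16572208) (a (l 16555960) (l 16550848)))))))))), by decide +kernel⟩

def k8_pm_022_a : ∃ t, chk3 f_pm_022_a t 5 2 1 = true :=
  ⟨(a (b (a (a (l 1) (c (b (l 16117760) (b (l 16111616) (l 16115880))) (b (l 16048904) (b (l 16034408) (l 16033624))))) (b (c (a (l 16168560) (l 16222232)) (a (l 16102936) (l 16161280))) (c (b (l 16159160) (l 16136616)) (a (b (l 16081768) (l 16076648)) (l 16108096))))) (a (b (a (b (c (l 16093152) (l 16006512)) (c (l 16114328) (a (l 1) (l 16030720)))) (c (b (l 16126528) (l 16143808)) (b (a (l 16030888) (l 16048968)) (a (l 16045288) (l 16061208))))) (a (b (c (a (l 16136784) (l 16148520)) (a (l 16043872) (l 16054864))) (c (a (l 16173256) (l 16182936)) (a (l 16078216) (l 16087056)))) (c (b (l 16167944) (l 16199144)) (b (a (l 16067280) (l 16080952)) (a (l 16097184) (l 16108432)))))) (a (b (b (c (l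 16163656) (l 16078392)) (c (l 16176888) (l 16087248))) (a (b (l 16122712) (c (l 16217176) (l 16120648))) (b (l 16138144) (l 16141136)))) (b (b (l 16142480) (c (l 16212752) (l 16125208))) (c (b (l 16228248) (l 16250192)) (b (l 16136288) (l 16154344))))))) (b (a (b (c (l 16201280) (l 16127968)) (c (a (l 16251184) (l 16300656)) (a (l 16181552) (l 16235648)))) (b (c (l 16377896) (l 16253768)) (a (l 16195440) (l 16267984)))) (a (b (c (a (l 16227584) (l 16289824)) (a (l 16145512) (l 16210792))) (c (a (l 16270408) (l 16302016)) (a (b (l 16171248) (l 16183328)) (l 16168632)))) (b (c (l 16246984) (a (l 16255392) (l 16299416))) (c (a (l 16333560) (l 16363912)) (a (l 16222368) (l 16275288))))))), by decide +kernel⟩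

def k9_pm_022_a : ∃ t, chk3 f_pm_022_a t 5 6 2 = true :=
  ⟨(a (a (b (a (b (a (l 16217320) (l 16224784)) (a (b (l 16255128) (l 16282920)) (l 16253088))) (a (b (l 16233104) (l 16279896)) (b (l 16242184) (l 16286456)))) (a (b (a (l 16330280) (l 16334128)) (b (l 16383520) (l 16420224))) (a (b (l 16338432) (l 16408016)) (a (b (l 16341792) (l 16411160)) (b (a (l 16343544) (l 16344696)) (l 16350312)))))) (b (b (a (l 16256976) (l 16278528)) (a (l 16297208) (l 16312960))) (b (a (l 16350048) (l 16359440)) (a (l 16417784) (l 16424000))))) (b (a (b (a (l 16301296) (l 16324376)) (l 16274728)) (b (l 16357304) (l 16367504))) (a (b (a (l 16368280) (l 16375928)) (l 16324456)) (b (b (l 16377280) (l 16390984)) (l 16366584))))), by decide +kernel⟩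

def k10_pm_022_a : ∃ t, chk3 f_pm_022_a t 5 7 2 = true :=
  ⟨(a (b (a (a (b (b (l 16458632) (l 16498552)) (a (l 16476064) (l 16520400))) (a (b (l 16483864) (l 16522512)) (b (a (l 16486472) (l 16446368)) (b (l 16441416) (l 16481632))))) (b (a (l 16449088) (l 16451504)) (b (l 16526344) (l 16583872)))) (a (a (b (b (l 16625280) (l 16540264)) (b (a (l 16486200) (l 16473416)) (a (b (b (l 16543752) (l 16532832)) (b (c (l 16514504) (l 16529248)) (a (c (l 16507024) (l 16520592)) (c (l 16500280) (l 16514488))))) (b (a (l 16528752) (l 16522592)) (c (b (l 16501288) (a (l 16493720) (l 16487336))) (a (l 16498704) (l 16487736))))))) (a (b (l 16498184) (b (l 16461192) (b (a (l 16516592) (l 16510728)) (a (b (l 16500216) (c (l 16481144) (l 16497408))) (b (l 16494440) (l 16462376)))))) (b (a (l 16531120) (b (l 16606024) (l 16506488))) (b (a (l 16536176) (a (l 16531600) (l 16528464))) (a (b (l 16504896) (a (l 16484600) (l 16481672))) (a (b (l 16500296) (l 16478464)) (b (l 16497208) (l 16454352))))))))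 (b (a (l 16450240) (l 16454840)) (b (a (l 16476624) (l 16481888)) (a (b (l 16487448) (l 16465520)) (b (l 16471528) (l 16449552))))))) (b (a (b (l 16387296) (l 16450976)) (b (l 16462456) (l 16538768))) (a (b (a (l 16461440) (l 16447792)) (b (a (l 16488048) (l 16474168)) (a (l 16361792) (l 16368768)))) (b (l 16366056) (b (l 16371096) (a (l 16376592) (l 16385168))))))), by decide +kernel⟩

def k11_pm_022_a : ∃ t, chk3 f_pm_022_a t 5 6 3 = true :=
  ⟨(a (b (a (a (b (a (l 16121088) (l 16127568)) (b (l 16181712) (a (l 16186680) (l 16189688)))) (a (b (l 16135184) (l 16139312)) (b (l 16143768) (l 16186912)))) (b (a (a (l 16153176) (l 16163248)) (a (l 16173832) (l 16184768))) (a (l 16175424) (l 16189640)))) (a (a (b (a (l 16218584) (l 16241600)) (a (l 16319264) (l 16321216))) (a (b (l 16244160) (l 16323248)) (a (b (l 16246232) (l 16324800)) (b (a (l 16247312) (l 16248048)) (a (l 16325576) (l 16326080)))))) (b (a (b (l 16212072) (l 16269072)) (l 16194792)) (a (l 16328016) (l 16330552)))))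 (b (a (b (a (l 16201624) (l 16224376)) (a (l 16225640) (l 16240736))) (b (l 16257392) (l 16177104))) (a (b (a (l 16179568) (l 16184320)) (a (l 16331608) (l 16330016))) (b (b (l 16245080) (l 16195384)) (a (l 16326360) (l 16320704)))))), by decide +kernel⟩

def k12_pm_022_a : ∃ t, chk3 f_pm_022_a t 5 7 3 = true :=
  ⟨(a (b (a (a (b (b (l 16384592) (l 16429872)) (a (l 16396000) (l 16437864))) (b (a (l 16409192) (a (l 16409888) (l 16410328))) (a (l 16437480) (a (l 16478872) (l 16415488))))) (b (a (l 16410592) (l 16409560)) (a (l 16413056) (l 16427600)))) (a (a (b (b (l 16510616) (l 16560128)) (b (a (l 16525736) (l 16515728)) (a (b (a (l 16533448) (l 16528312)) (c (b (l 16545200) (a (l 16535320) (l 16529920))) (b (l 16562368) (a (l 16551208) (l 16546560))))) (b (c (l 16553112) (l 16573144)) (a (b (l 16546264) (c (l 16524736) (l 16542160))) (c (l 16505056) (l 16544688))))))) (a (b (b (l 16549736) (l 16597232)) (b (l 16506480) (b (c (l 16543320) (l 16565008)) (c (a (l 16521304)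 (l 16516704)) (a (l 16540800) (l 16537088)))))) (a (b (l 16550424) (b (l 16541992) (c (l 16482448) (l 16504656)))) (b (b (l 16535960) (l 16571096)) (a (b (l 16538952) (l 16448392)) (b (l 16536904) (l 16467448))))))) (b (b (l 16473112) (l 16515256)) (a (b (l 16508320) (l 16438976)) (a (l 16412040) (l 16427008)))))) (b (a (b (a (l 16405832) (l 16400064)) (a (l 16419096) (l 16429384))) (b (l 16345928) (c (l 16455504) (l 16430784)))) (a (b (b (l 16511136) (l 16548296)) (a (a (l 16421184) (l 16415544)) (l 16386456))) (b (l 16436552) (a (l 16376056) (l 16366104)))))), by decide +kernel⟩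

def k13_pm_022_a : ∃ t, chk3 f_pm_022_a t 12 1 1 = true :=
  ⟨(b (b (a (b (l 16358888) (c (l 16469768) (l 16358648))) (b (l 16217160) (l 16342760))) (a (b (a (l 16251992) (l 16289984)) (c (a (l 16391888) (l 16418008)) (a (l 16305048) (l 16333240)))) (b (c (l 16496592) (l 16353216)) (b (l 16279192) (l 16234440))))) (b (b (b (a (c (l 16394936) (l 16295968)) (l 16171184)) (a (a (l 16250672) (l 16282400)) (c (l 16412984) (l 16306224)))) (a (b (c (l 16265504) (b (l 16277072) (l 16255336))) (c (l 16422744) (l 16311128))) (c (b (l 16357592) (c (l 16440976) (l 16387360))) (b (l 16198904) (l 16256440))))) (b (a (b (a (l 16258624) (l 16271368)) (b (l 16294664) (l 16342336))) (a (b (l 16262592) (l 16332192)) (b (l 16253344) (l 16340488)))) (b (a (a (l 16344896) (l 16331928)) (a (l 16336832) (l 16341760))) (b (a (a (l 16323880) (l 16313736)) (a (l 16282680) (l 16293312))) (c (a (a (l 16394416) (l 16383272)) (a (l 16372208) (l 16360696))) (a (l 16347752) (l 16369832)))))))), by decide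 +kernel⟩

def k14_pm_022_a : ∃ t, chk3 f_pm_022_a t 13 1 1 = true :=
  ⟨(b (b (b (a (l 16145464) (c (l 16265944) (l 16269864))) (a (l 16217440) (l 16179848))) (b (a (l 16324000) (l 16252472)) (a (c (l 16496600) (l 16338320)) (c (l 16508856) (l 16469296))))) (c (b (b (a (l 16361680) (l 16447176)) (b (a (l 16408968) (l 16417432)) (a (b (l 16397256) (l 16410544)) (b (l 16392456) (l 16396712))))) (b (a (b (l 16437608) (l 16472208)) (l 16351160)) (b (a (l 16364656) (l 16362504)) (a (b (c (l 16371080) (l 16404960)) (a (l 16348600) (l 16335792))) (b (c (l 16345896) (l 16379256)) (l 16189240)))))) (b (b (a (l 16200368) (b (l 16398696) (l 16351704))) (b (a (l 16293232) (l 16304664)) (a (b (l 16275408) (l 16292520)) (b (l 16270512) (l 16276336))))) (b (b (a (l 16328368) (l 16308528)) (a (l 16333864) (l 16351840))) (a (b (l 16421656) (l 16268328)) (b (l 16393536) (l 16262168))))))), by decide +kernel⟩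

def k15_pm_022_a : ∃ t, chk3 f_pm_022_a t 7 1 1 = true :=
  ⟨(b (b (a (b (a (c (l 16314640) (l 16202688)) (c (b (l 16133352) (l 16184736)) (l 16119800))) (a (l 16104360) (c (l 16259792) (l 16268888)))) (b (a (b (a (l 16080760) (l 16055664)) (a (l 16140632) (l 16116464))) (b (a (l 16031688) (l 16008848)) (a (l 16093264) (l 16071048)))) (a (c (l 16218288) (l 16216480)) (c (l 16179912) (l 16145664))))) (a (b (a (c (l 16393536) (l 16438032)) (c (l 16353200) (l 16388648))) (a (l 16251832) (c (l 16435024) (l 16494784)))) (b (a (c (l 16315520) (l 16340984)) (c (l 16279896) (l 16294528))) (a (c (l 16400088) (l 16450792)) (c (l 16366320) (l 16406952)))))) (b (a (b (a (c (l 16489176) (l 16257376)) (c (l 16500120) (l 16372192))) (b (a (c (l 16427184) (l 16319824)) (l 16225776)) (a (c (l 16328216) (b (l 16276912) (l 16266640))) (c (l 16392608) (b (l 16292392) (l 16266368)))))) (b (a (c (l 16466176) (l 16469208)) (c (l 16432336) (l 16496176))) (a (b (l 16310824) (c (l 16402112) (l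 16191320))) (b (l 16400488) (l 16208672))))) (b (b (a (c (l 16314176) (a (l 16293312) (l 16283984))) (a (c (l 16388672) (l 16283776)) (c (l 16388336) (l 16290328)))) (a (a (l 16216560) (l 16265760)) (a (l 16278928) (l 16315392)))) (c (b (a (a (l 16357224) (l 16326944)) (a (l 16316080) (l 16305520))) (a (a (b (c (l 16317576) (l 16349640)) (l 16137200)) (b (c (l 16285792) (l 16315720)) (l 16102480))) (a (b (l 16203448) (l 16089080)) (a (l 16133152) (l 16118320))))) (a (a (b (l 16370824) (l 16208816)) (b (l 16354976) (l 16170944))) (a (b (l 16342592) (l 16131752)) (b (l 16330992) (l 16095704)))))))), by decide +kernel⟩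

theorem s16_pm_022_a : ∃ t, chk3 f_pm_022_a t 6 1 1 = true := ex3_a k13_pm_022_a k14_pm_022_a

theorem s17_pm_022_a : ∃ t, chk3 f_pm_022_a t 3 1 1 = true := ex3_a s16_pm_022_a k15_pm_022_a

theorem s18_pm_022_a : ∃ t, chk3 f_pm_022_a t 5 3 3 = true := ex3_b k11_pm_022_a k12_pm_022_a

theorem s19_pm_022_a : ∃ t, chk3 f_pm_022_a t 5 3 2 = true := ex3_b k9_pm_022_a k10_pm_022_a

theorem s20_pm_022_a : ∃ t, chk3 f_pm_022_a t 5 3 1 = true := ex3_c s19_pm_022_a s18_pm_022_a

theorem s21_pm_022_a : ∃ t, chk3 f_pm_022_a t 5 1 1 = true := ex3_b k8_pm_022_a s20_pm_022_a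

theorem s22_pm_022_a : ∃ t, chk3 f_pm_022_a t 9 7 3 = true := ex3_b k6_pm_022_a k7_pm_022_a

theorem s23_pm_022_a : ∃ t, chk3 f_pm_022_a t 9 7 2 = true := ex3_b k4_pm_022_a k5_pm_022_a

theorem s24_pm_022_a : ∃ t, chk3 f_pm_022_a t 9 7 1 = true := ex3_c s23_pm_022_a s22_pm_022_a

theorem s25_pm_022_a : ∃ t, chk3 f_pm_022_a t 9 6 1 = true := ex3_a k2_pm_022_a k3_pm_022_a

theorem s26_pm_022_a : ∃ t, chk3 f_pm_022_a t 9 3 1 = true := ex3_b s25_pm_022_a s24_pm_022_a

theorem s27_pm_022_a : ∃ t, chk3 f_pm_022_a t 9 1 1 = true := ex3_b k1_pm_022_a s26_pm_022_a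

theorem s28_pm_022_a : ∃ t, chk3 f_pm_022_a t 4 1 1 = true := ex3_a k0_pm_022_a s27_pm_022_a

theorem s29_pm_022_a : ∃ t, chk3 f_pm_022_a t 2 1 1 = true := ex3_a s28_pm_022_a s21_pm_022_a

theorem s30_pm_022_a : ∃ t, chk3 f_pm_022_a t 1 1 1 = true := ex3_a s29_pm_022_a s17_pm_022_a

theorem c_pm_022_a : CertB 0 536870912 0 536870912 923417968 42949674 3 eng mog cd0q0 cd1q2a pd2 true true false .pp 0 2 2
    ndB0q0 ndB1q2a pcB2 cut_pm_022_a Ext.none :=
  certB2 (fam := true) (s1 := true) (s2 := false) (a := 0) (b := 2) (c := 2) (cn := .pp) (n1 := ndB0q0) (n2 := ndB1q2a) (pc := pcB2) (cut := cut_pm_022_a) (xt := Ext.none) (P1 := 0) (W1 := 536870912) (P2 := 0) (W2 := 536870912) (P3 := 923417968) (W3 := 42949674) (N0 := 3) (En := eng) (mo := mog) (C1 := cd0q0) (C2 := cd1q2a) (C3 := pd2)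
    rfl (fun _ => rfl) s30_pm_022_a

noncomputable def cut_pm_022_b : Cut := Cut.of [[⟨0, 0, 0, 67108864⟩, ⟨1, 1, 0, 67108864⟩, ⟨2, 1, 0, 67108864⟩]]

noncomputable def f_pm_022_b : ℕ → ℕ → ℕ → ℕ → Bool := onCell 0 536870912 1073741824 536870912 923417968 42949674
    (rowB 3 eng mog cd0q0 cd1q2b pd2 1 true true false .pp 0 2 2 (qsf 0 536870912 1239849684 370763052 2) ndB0q0 ndB1q2b pcB2 cut_pm_022_b Ext.none)

def k0_pm_022_b : ∃ t, chk3 f_pm_022_b t 1 2 1 = true :=
  ⟨(a (a (b (l 1) (a (b (a (b (a (b (l 1) (l 16169656)) (l 1)) (a (b (l 16144752) (l 16122496)) (l 198674749735))) (b (l 1) (b (l 1) (l 297995667687)))) (a (b (c (l 16161920) (l 16106504)) (c (l 16130616) (l 16079496))) (b (b (l 193842674999) (l 16206464)) (l 16100584)))) (b (l 1) (a (b (a (l 16315032) (l 1)) (c (l 16441640) (l 16410232))) (b (l 1) (l 280816209623)))))) (l 1)) (l 1)), by decide +kernel⟩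

def k1_pm_022_b : ∃ t, chk3 f_pm_022_b t 1 3 1 = true :=
  ⟨(a (b (a (a (b (a (b (l 15981512) (l 15992056)) (b (l 16247352) (l 16235176))) (a (b (l 16073104) (l 16076136)) (b (l 16230504) (l 16124744)))) (b (a (b (l 16403656) (l 16366624)) (b (l 16404944) (l 16368448))) (a (b (l 16267688) (l 16160904)) (b (l 16281160) (l 16185624))))) (a (b (a (b (l 274910482919) (l 16236696)) (b (l 1) (l 298532982215))) (a (b (l 16286368) (l 16201640)) (b (l 132639693543) (l 16211368)))) (b (l 1) (a (b (l 289943148167) (c (l 16219632) (l 16210696))) (b (l 1) (c (l 277058037495) (l 289406064343))))))) (a (b (a (b (a (l 15941624) (l 16000088)) (a (l 15715384) (l 15752216))) (b (a (l 16046968) (l 16082560)) (a (l 15927896) (l 15971512)))) (a (b (l 15762320) (l 15785464)) (b (a (l 15875392) (l 15991264)) (a (l 15871672) (l 15910768))))) (b (a (a (b (l 16109048) (l 16009488)) (b (l 16128656) (l 16038688))) (b (a (l 16162720) (b (l 16208552) (l 16132576))) (a (l 16061056) (c (l 16094120) (l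 16061496))))) (a (b (a (b (l 15935424) (l 15921944)) (b (l 15967400) (l 15935824))) (a (l 15935464) (l 15947704))) (b (a (b (l 15996528) (l 15953192)) (l 16062256)) (a (l 16014840) (b (l 16051664) (l 15951656)))))))) (b (l 1) (a (b (a (b (a (b (l 1) (l 274910407447)) (l 1)) (a (c (l 102574806535) (l 84321154119)) (b (l 1) (l 268467866087)))) (l 1)) (a (b (a (c (l 16042640) (l 15997288)) (b (l 233571207367) (a (l 16016072) (l 16024184)))) (a (b (l 15963272) (a (l 15944128) (l 15942792))) (b (l 15986216) (a (l 15946384) (l 15956552))))) (b (a (b (l 1) (l 263099085687)) (l 1)) (a (b (a (l 15999760) (l 259877764359)) (a (l 15967136) (l 15976560))) (a (c (l 264172718903) (l 261488322935)) (l 1)))))) (l 1)))), by decide +kernel⟩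

theorem s2_pm_022_b : ∃ t, chk3 f_pm_022_b t 1 1 1 = true := ex3_b k0_pm_022_b k1_pm_022_b

theorem c_pm_022_b : CertB 0 536870912 1239849684 370763052 923417968 42949674 3 eng mog cd0q0 cd1q2b pd2 true true false .pp 0 2 2
    ndB0q0 ndB1q2b pcB2 cut_pm_022_b Ext.none :=
  certB1 (fam := true) (s1 := true) (s2 := false) (a := 0) (b := 2) (c := 2) (cn := .pp) (n1 := ndB0q0) (n2 := ndB1q2b) (pc := pcB2) (cut := cut_pm_022_b) (xt := Ext.none) (P1 := 0) (W1 := 536870912) (P2 := 1239849684) (W2 := 370763052) (P3 := 923417968) (W3 := 42949674) (N0 := 3) (En := eng) (mo := mog) (C1 := cd0q0) (C2 := cd1q2b) (C3 := pd2)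
    rfl (fun _ => rfl) s2_pm_022_b

noncomputable def f_pm_023_a : ℕ → ℕ → ℕ → ℕ → Bool := onCell 1610612736 536870912 0 536870912 923417968 42949674
    (rowB 3 eng mog cd0q0 cd1q2a pd3 2 true true false .up 0 2 3 (qsf 0 536870912 0 536870912 3) ndB0q0 ndB1q2a pcB3 Cut.none Ext.none)

def k0_pm_023_a : ∃ t, chk3 f_pm_023_a t 1 1 1 = true :=
  ⟨(a (a (b (b (a (c (a (c (l 16483264) (l 16401144)) (b (l 16321320) (l 16485616))) (b (a (c (l 16289456) (l 16174736)) (b (a (l 16259976) (l 16288984)) (l 16290872))) (a (l 16279528) (l 16283024)))) (c (a (b (l 16404184) (l 16522792)) (b (l 16501720) (l 16552528))) (a (b (b (a (l 16321976) (l 16357864)) (l 16213616)) (l 16305488)) (b (b (l 16408776) (l 16266984)) (c (l 16449528) (l 16363568)))))) (a (c (a (a (l 16447600) (l 16467208)) (l 16388096)) (a (b (l 16334936) (l 16398144)) (b (l 16376832) (l 16432888)))) (c (a (l 16458032) (l 16378072)) (a (b (l 16415864) (l 16462752)) (b (l 16446816) (l 16483080)))))) (b (a (b (a (c (l 16473224)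 (l 16460040)) (c (l 16474016) (l 16483232))) (a (c (l 16423528) (l 16405640)) (c (l 16392992) (l 16378592)))) (b (a (c (l 16453440) (l 16483800)) (c (l 16439128) (l 16469488))) (a (c (l 16370232) (l 16359840)) (b (l 16379496) (l 2))))) (a (b (b (a (b (l 16334928) (l 16297392)) (a (l 16294816) (l 16177880))) (a (l 16256048) (l 16208728))) (b (a (b (l 16167312) (l 16118224)) (l 340475493991)) (a (a (b (l 16073264) (l 16038728)) (l 409195074519)) (l 2)))) (b (b (a (c (l 16287912) (l 16244120)) (l 2)) (l 2)) (l 2))))) (b (a (a (b (b (a (l 16334440) (l 16395368)) (b (a (l 16339984) (l 16397232)) (l 16307256))) (c (b (l 16543200) (l 16495480)) (b (l 16470064) (l 16497552)))) (b (b (l 2) (l 2)) (l 2))) (l 2)) (b (l 2) (l 2)))) (l 2)), by decide +kernel⟩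

theorem c_pm_023_a : CertB 0 536870912 0 536870912 923417968 42949674 3 eng mog cd0q0 cd1q2a pd3 true true false .up 0 2 3
    ndB0q0 ndB1q2a pcB3 Cut.none Ext.none :=
  certB2 (fam := true) (s1 := true) (s2 := false) (a := 0) (b := 2) (c := 3) (cn := .up) (n1 := ndB0q0) (n2 := ndB1q2a) (pc := pcB3) (cut := Cut.none) (xt := Ext.none) (P1 := 0) (W1 := 536870912) (P2 := 0) (W2 := 536870912) (P3 := 923417968) (W3 := 42949674) (N0 := 3) (En := eng) (mo := mog) (C1 := cd0q0) (C2 := cd1q2a) (C3 := pd3)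
    rfl (fun _ => rfl) k0_pm_023_a

noncomputable def f_pm_023_b : ℕ → ℕ → ℕ → ℕ → Bool := onCell 1610612736 536870912 1239849684 370763052 923417968 42949674
    (rowB 3 eng mog cd0q0 cd1q2b pd3 2 true true false .up 0 2 3 (qsf 0 536870912 1239849684 370763052 3) ndB0q0 ndB1q2b pcB3 Cut.none Ext.none)

def k0_pm_023_b : ∃ t, chk3 f_pm_023_b t 1 2 1 = true :=
  ⟨(b (a (a (a (a (c (b (c (l 16455376) (l 16202272)) (a (l 16219688) (l 16333576))) (b (b (a (l 16174152) (l 16200816)) (a (l 16121976) (l 16156480))) (b (a (l 16074792) (l 16117808)) (l 16055192)))) (b (c (c (l 16499472) (l 16257544)) (b (a (l 16234536) (l 16274344)) (l 16134024))) (c (c (l 16421160) (l 16325976)) (b (l 16180232) (l 16141032))))) (a (b (c (b (l 16521688) (l 16485960)) (b (l 16186472) (l 16193536))) (c (l 16384928) (b (l 16260448) (l 16222496)))) (b (c (b (l 16562216) (l 16530680)) (b (l 16321680) (l 16332048))) (c (l 16455368) (b (l 16339088) (l 16301104)))))) (a (c (b (a (l 16475552) (l 16543912))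 (a (l 16520928) (l 16561480))) (b (a (b (l 16403240) (l 16443112)) (b (l 16518256) (l 16500616))) (a (l 16248832) (l 16402128)))) (a (b (b (l 2) (l 16443856)) (c (l 16592792) (l 16521760))) (b (l 2) (l 219143278519))))) (l 2)) (a (a (a (c (a (b (l 16098616) (l 16113152)) (b (l 16184008) (l 16188688))) (b (a (b (l 16010736) (l 15962080)) (l 15910864)) (a (l 15880744) (l 15983712)))) (a (c (b (l 16344184) (l 16253456)) (b (l 16099656) (l 16076552))) (b (c (l 16395192) (l 16242816)) (c (l 16310592) (l 16162288))))) (a (a (b (c (l 16446072) (l 16302584)) (c (l 16361192) (l 16241440))) (b (c (l 16492096) (l 16398024)) (l 16346912))) (a (b (l 16355672) (l 16430280)) (b (l 16509048) (l 16487024))))) (a (a (a (b (l 16568072) (l 16535728)) (b (l 16618704) (l 16574744))) (a (a (l 186394865959) (l 2)) (l 2))) (l 2)))), by decide +kernel⟩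

def k1_pm_023_b : ∃ t, chk3 f_pm_023_b t 1 3 1 = true :=
  ⟨(a (a (b (a (a (b (c (l 15836248) (b (l 15787912) (l 15719704))) (c (l 15824944) (l 15601560))) (b (c (l 16071272) (l 15871616)) (c (l 15933712) (l 15738720)))) (a (b (c (l 16148520) (l 15976688)) (c (l 16024240) (l 15857112))) (b (c (l 16214480) (l 16070488)) (l 15807520)))) (a (a (b (c (l 15640776) (l 15419248)) (c (l 15440680) (l 15216880))) (b (c (l 15767720) (l 15575568)) (c (l 15577520) (l 15385632)))) (b (a (c (l 15879496) (l 15716096)) (a (l 15885968) (l 15935192))) (a (a (l 15595608) (l 15664376)) (a (l 15728440) (l 15789096)))))) (a (b (a (b (l 16050576) (l 16057432)) (b (l 16221328) (l 16194600))) (a (b (l 16006408) (l 15978416)) (b (l 16091832) (l 15972480)))) (b (a (b (l 16347432) (l 16261600)) (b (l 16389032) (l 16324840))) (a (b (l 16168752) (l 16062056)) (b (l 16238024) (l 16140824)))))) (a (a (b (a (c (l 16331984) (l 16291248)) (a (l 16362384) (l 16321984))) (a (b (l 16300152) (l 16210504)) (b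 (l 16356080) (l 4)))) (b (a (b (l 16444680) (l 4)) (l 4)) (l 4))) (l 4))), by decide +kernel⟩

theorem s2_pm_023_b : ∃ t, chk3 f_pm_023_b t 1 1 1 = true := ex3_b k0_pm_023_b k1_pm_023_b

theorem c_pm_023_b : CertB 0 536870912 1239849684 370763052 923417968 42949674 3 eng mog cd0q0 cd1q2b pd3 true true false .up 0 2 3
    ndB0q0 ndB1q2b pcB3 Cut.none Ext.none :=
  certB2 (fam := true) (s1 := true) (s2 := false) (a := 0) (b := 2) (c := 3) (cn := .up) (n1 := ndB0q0) (n2 := ndB1q2b) (pc := pcB3) (cut := Cut.none) (xt := Ext.none) (P1 := 0) (W1 := 536870912) (P2 := 1239849684) (W2 := 370763052) (P3 := 923417968) (W3 := 42949674) (N0 := 3) (En := eng) (mo := mog) (C1 := cd0q0) (C2 := cd1q2b) (C3 := pd3)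
    rfl (fun _ => rfl) s2_pm_023_b

noncomputable def f_pm_033 : ℕ → ℕ → ℕ → ℕ → Bool := onCell 0 536870912 1610612736 536870912 923417968 42949674
    (rowB 3 eng mog cd0q0 cd1q3 pd3 1 true true false .pnn 0 3 3 (qsf 0 536870912 1610612736 536870912 3) ndB0q0 ndB1q3 pcB3 Cut.none Ext.none)

def k0_pm_033 : ∃ t, chk3 f_pm_033 t 1 1 1 = true :=
  ⟨(b (a (b (a (b (b (a (c (l 115994742999) (l 128879747623)) (l 1)) (a (c (l 15328496) (l 15370216)) (c (l 15533768) (l 202968360759)))) (a (b (c (l 15506408) (l 15369760)) (c (l 15471992) (l 15363736))) (c (b (l 15588688) (l 15640264)) (b (l 15623304) (l 15621184))))) (b (l 1) (a (b (l 1) (l 212632261735)) (l 1)))) (a (b (a (b (c (l 15437392) (l 15353376)) (c (l 15404632) (l 15339256))) (b (l 15655960) (l 15633104))) (a (b (c (l 15375624) (l 15321472)) (b (l 15331232) (l 4))) (b (a (l 15546696) (l 15669432)) (c (l 15603512) (l 15567536))))) (b (a (b (l 15870512) (l 15849112)) (b (l 1) (l 16014664))) (a (b (l 15826056) (l 15802720))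 (b (l 15992224) (l 15968944)))))) (b (l 1) (a (b (l 1) (a (b (l 1) (l 16103696)) (l 1))) (l 1)))) (b (a (a (l 4) (b (b (a (l 15780112) (l 15945264)) (l 4)) (l 4))) (a (b (b (a (l 16079672) (l 1)) (a (l 4) (l 16175072))) (l 4)) (b (l 1) (b (l 1) (l 4))))) (l 4))), by decide +kernel⟩

theorem c_pm_033 : CertB 0 536870912 1610612736 536870912 923417968 42949674 3 eng mog cd0q0 cd1q3 pd3 true true false .pnn 0 3 3
    ndB0q0 ndB1q3 pcB3 Cut.none Ext.none :=
  certB1 (fam := true) (s1 := true) (s2 := false) (a := 0) (b := 3) (c := 3) (cn := .pnn) (n1 := ndB0q0) (n2 := ndB1q3) (pc := pcB3) (cut := Cut.none) (xt := Ext.none) (P1 := 0) (W1 := 536870912) (P2 := 1610612736) (W2 := 536870912) (P3 := 923417968) (W3 := 42949674) (N0 := 3) (En := eng) (mo := mog) (C1 := cd0q0) (C2 := cd1q3) (C3 := pd3)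
    rfl (fun _ => rfl) k0_pm_033

noncomputable def cut_pm_101 : Cut := Cut.of [[⟨0, 1, 0, 67108864⟩, ⟨1, 0, 0, 67108864⟩, ⟨2, 1, 0, 67108864⟩]]

noncomputable def f_pm_101 : ℕ → ℕ → ℕ → ℕ → Bool := onCell 536870912 536870912 0 536870912 923417968 42949674
    (rowB 3 eng mog cd0q1 cd1q0 pd1 2 true true false .npn 1 0 1 (qsf 536870912 536870912 0 536870912 1) ndB0q1 ndB1q0 pcB1 cut_pm_101 Ext.none)

def k0_pm_101 : ∃ t, chk3 f_pm_101 t 1 1 1 = true :=
  ⟨(a (l 3) (b (a (l 3) (b (a (l 3) (b (a (l 3) (a (l 3) (b (l 6) (l 3)))) (l 3))) (l 3))) (l 3))), by decide +kernel⟩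

theorem c_pm_101 : CertB 536870912 536870912 0 536870912 923417968 42949674 3 eng mog cd0q1 cd1q0 pd1 true true false .npn 1 0 1
    ndB0q1 ndB1q0 pcB1 cut_pm_101 Ext.none :=
  certB2 (fam := true) (s1 := true) (s2 := false) (a := 1) (b := 0) (c := 1) (cn := .npn) (n1 := ndB0q1) (n2 := ndB1q0) (pc := pcB1) (cut := cut_pm_101) (xt := Ext.none) (P1 := 536870912) (W1 := 536870912) (P2 := 0) (W2 := 536870912) (P3 := 923417968) (W3 := 42949674) (N0 := 3) (En := eng) (mo := mog) (C1 := cd0q1) (C2 := cd1q0) (C3 := pd1)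
    rfl (fun _ => rfl) k0_pm_101

end Pool.Agent.Strip051.G.I8600_9000.Tab.C.BA01

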