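import Pool.Agent.Strip051.G.I8600_9000.Tab
import Pool.Agent.Strip051.PB.ExtD2

/-! # Certificates B2 (generated) -/

set_option linter.all false
set_option maxRecDepth 100000

namespace Pool.Agent.Strip051.G.I8600_9000.Tab.C.BA01

open Pool.Agent.Strip051.PB Pool.Agent.Strip051.PB.T
open Pool.Agent.Strip051.G.I8600_9000.Tab

noncomputable def cut_pm_102 : Cut := Cut.of [[⟨0, 1, 0, 67108864⟩, ⟨1, 0, 0, 67108864⟩, ⟨2, 1, 0, 67108864⟩]]

noncomputable def xt_pm_102 : Ext := extD2 3 ⟨4, 1, 1, 5, 17, 5, 87, 100, 43, 100, 1, 8⟩ eng cd0q1 cd1q0 pd2 true true false .npp 1 0 2 rfl ndB0q1 ndB1q0 pcB2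

noncomputable def f_pm_102 : ℕ → ℕ → ℕ → ℕ → Bool := onCell 536870912 536870912 1073741824 536870912 923417968 42949674
    (rowB 3 eng mog cd0q1 cd1q0 pd2 1 true true false .npp 1 0 2 (qsf 536870912 536870912 0 536870912 2) ndB0q1 ndB1q0 pcB2 cut_pm_102 xt_pm_102)

def k0_pm_102 : ∃ t, chk3 f_pm_102 t 2 4 1 = true :=
  ⟨(b (l 3) (a (b (l 3) (a (l 2) (b (l 3) (a (l 2) (b (l 16534928) (l 16550696)))))) (b (a (l 3) (b (l 3) (b (a (l 3) (l 333027284839)) (a (l 16494896) (l 16513128))))) (a (b (b (a (l 3) (l 16505720)) (a (l 16520200) (l 16523992))) (a (b (l 16536536) (l 16555368)) (b (l 16543488) (l 16564200)))) (b (a (b (l 16515736) (l 16536904)) (b (l 16536408) (l 16559736))) (a (b (l 16558648) (l 16580520)) (b (l 16582808) (l 16604960)))))))), by decide +kernel⟩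

def k1_pm_102 : ∃ t, chk3 f_pm_102 t 6 4 1 = true :=
  ⟨(b (b (l 3) (a (l 3) (b (l 3) (a (a (l 3) (b (l 3) (c (b (l 359870861319) (l 168744870679)) (l 327121681031)))) (c (b (a (b (l 3) (l 345375411239)) (b (l 328195693095) (l 243370074743))) (a (b (l 205789026311) (l 16610376)) (l 16648384))) (b (a (l 356649548375) (b (l 338396019543) (l 221358232455))) (a (b (l 16540856) (l 16553824)) (l 16589400)))))))) (b (a (b (b (a (l 3) (b (l 3) (a (l 3) (l 327658594599)))) (a (l 346985923415) (a (l 301888791575) (l 16535080)))) (a (b (c (l 16530528) (l 16497816)) (l 16540136)) (b (l 16613248) (l 16576384)))) (b (a (b (a (b (l 315847469223) (l 16540680)) (b (l 16579256) (l 16569928))) (a (l 16559592) (l 16588056))) (b (a (b (l 16592944) (l 16603600)) (l 16636592)) (a (l 16620568) (l 16655912)))) (a (b (a (l 16585320) (l 16613048)) (a (l 16611144) (l 16637096))) (b (c (l 16669400) (l 16647104)) (l 16680208))))) (a (b (a (b (l 16565160) (l 16589688)) (b (l 16601832) (l 16624992))) (a (b (l 16612472) (l 16631568))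 (l 16653664))) (b (a (b (l 16667192) (l 16666520)) (l 16647160)) (a (l 16691552) (l 16685872)))))), by decide +kernel⟩

def k2_pm_102 : ∃ t, chk3 f_pm_102 t 14 32 1 = true :=
  ⟨(l 3), by decide +kernel⟩

def k3_pm_102 : ∃ t, chk3 f_pm_102 t 28 33 1 = true :=
  ⟨(l 3), by decide +kernel⟩

def k4_pm_102 : ∃ t, chk3 f_pm_102 t 29 66 1 = true :=
  ⟨(l 3), by decide +kernel⟩

def k5_pm_102 : ∃ t, chk3 f_pm_102 t 58 67 1 = true :=
  ⟨(l 3), by decide +kernel⟩

def k6_pm_102 : ∃ t, chk3 f_pm_102 t 59 134 1 = true :=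
  ⟨(a (l 3) (b (l 3) (b (a (l 3) (a (b (l 3) (a (l 3) (c (c (l 358260671543) (l 360945004007)) (c (c (l 364703083271) (l 367924286583)) (c (l 370608634487) (l 373829850487)))))) (c (c (b (l 347523242503) (l 302426088695)) (b (a (l 377051131511) (l 329269614967)) (a (l 317995325367) (l 16766256)))) (c (b (a (l 380272329079) (c (l 333564565447) (l 6115348754663324084637522991))) (a (c (l 320142786919) (l 323364006007)) (l 16754912))) (b (a (c (l 384030413159) (l 387251626679)) (c (b (l 360408088183) (l 319069030471)) (b (l 362555559975) (l 321753373783)))) (a (b (c (l 338933250951) (l 341080722583)) (l 299204802967)) (l 16743136))))))) (a (b (l 3) (a (l 3) (c (c (l 342691405031) (a (l 379198615015) (l 333027711063))) (a (c (l 386177913239) (l 389399114231)) (c (c (l 337322655607) (l 340543874359)) (c (l 6192719699000388245626887215) (b (l 367387400919) (l 315847792599)))))))) (a (c (c (b (l 323900922487) (l 16777328)) (b (a (l 346986354903) (l 304573552599)) (l 287930554167))) (c (a (b (c (l 351281299655)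 (l 353965647623)) (l 290614888199)) (c (l 298667956855) (l 299741687863))) (c (b (a (l 357186863687) (l 308868482711)) (l 16744744)) (b (a (l 6492533185819744315650907183) (l 311015954823)) (l 16739416))))) (c (c (l 16776728) (l 16765624)) (c (l 16754104) (l 16742152)))))))), by decide +kernel⟩

def k7_pm_102 : ∃ t, chk3 f_pm_102 t 59 135 1 = true :=
  ⟨(a (b (b (l 3) (a (l 3) (a (c (c (l 368461221687) (l 374366777767)) (c (l 380272330359) (b (l 3) (l 383493532631)))) (c (c (b (l 344302029639) (l 294909899447)) (b (a (l 380272357399) (l 335712071271)) (l 295446748567))) (c (a (b (l 387788525623) (l 307257887191)) (c (l 320679667031) (l 323900880023))) (b (c (l 360944960887) (l 364166173463)) (a (l 309405348887) (l 16741368)))))))) (b (a (a (l 3) (b (l 3) (c (c (l 345375773607) (l 351281329159)) (c (l 357186883815) (l 363629308503))))) (a (c (c (l 294909895751) (b (l 309405391815) (l 16766656))) (c (b (a (l 357186883607) (l 290078018167)) (l 16754080)) (b (a (l 363629308615) (l 292225479607)) (l 16741056))))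 (c (c (l 16777920) (l 16765904)) (c (l 16753456) (l 16740560))))) (a (c (a (c (l 340007065767) (l 345912620887)) (c (l 277730033399) (l 277730010647))) (a (c (b (l 377587979175) (l 301352309223)) (b (l 384030403479) (l 303499766119))) (c (l 278266858775) (b (l 287930512727) (l 16740688))))) (c (a (l 16751200) (l 16771168)) (a (l 16746736) (l 16745896)))))) (b (a (c (b (a (c (b (l 363629381767) (l 316384730791)) (b (l 369534928215) (a (l 349670714919) (l 297594231639)))) (c (l 295983638775) (c (l 296520494535) (l 297057355063)))) (a (c (l 16772448) (l 277730007527)) (l 16770992))) (b (b (a (a (l 3) (c (l 369534912119) (c (l 373829863559) (l 377051076439)))) (a (c (c (l 314237216535) (l 315847811943)) (c (l 317458412359) (l 319605888727))) (c (l 16754328) (l 16742072)))) (c (a (c (l 5786520460183249564927613999) (a (l 357186877367) (l 299741688071))) (l 16753904)) (a (a (c (l 360408090343) (l 363629303079)) (c (l 300815418679) (l 302426019799))) (l 16741520)))) (a (b (c (l 280951211687) (a (l 284709286743)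 (l 16741320))) (l 16747200)) (l 16746808)))) (c (c (l 16775904) (l 16764480)) (c (l 16752616) (l 16740328)))) (c (a (l 16749232) (l 16768680)) (c (l 16751104) (l 16738344))))), by decide +kernel⟩

def k8_pm_102 : ∃ t, chk3 f_pm_102 t 14 17 1 = true :=
  ⟨(b (a (b (a (l 3) (b (l 3) (a (l 3) (b (c (l 391009789607) (l 409263267799)) (a (c (l 375977427575) (l 395841464231)) (c (l 254107693479) (l 250886409671))))))) (c (a (b (l 380809135207) (a (l 338933135911) (l 245517739159))) (b (a (b (l 372756160455) (l 223506057879)) (b (l 222432305591) (l 16783248))) (l 16761784))) (a (b (l 397451912567) (a (l 348596634519) (l 221358369863))) (b (a (b (l 391009564279) (l 16659672)) (l 211157951831)) (l 16674752))))) (b (a (b (a (a (l 3) (b (l 3) (b (l 3) (c (l 349133836759) (a (l 389399131639) (l 347523173079)))))) (b (b (a (l 3) (c (a (l 374903644887) (c (l 326585294439) (l 332490849063))) (a (c (l 381882948263) (l 388325371783)) (c (l 338933273719) (l 345375697463))))) (a (a (l 3) (b (l 3) (c (l 350207584551) (l 364703042343))))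 (c (c (l 270750704759) (l 270213808711)) (c (l 270213781687) (l 270750624343))))) (a (c (b (a (l 346449489863) (l 258402652631)) (l 16755304)) (b (a (l 359334336887) (l 257865727879)) (l 16748624))) (c (l 16752896) (l 16725688))))) (a (c (b (a (b (l 370608709015) (l 261623883287)) (l 243907137367)) (l 16757704)) (b (a (l 363092430375) (l 241759597511)) (l 16740128))) (b (c (l 16753088) (l 16746032)) (l 16738096)))) (b (c (a (a (b (c (l 259476411127) (b (l 16766736) (l 16765928))) (l 16771416)) (l 16748976)) (l 16767536)) (a (b (a (a (c (l 16753752) (l 16734912)) (l 16746000)) (l 16744688)) (l 16743624)) (l 16741848))) (a (b (l 16734952) (l 16754888)) (l 16721784)))) (a (a (c (l 16756304) (l 16725504)) (b (l 16736776) (l 16736064))) (b (a (l 16733200) (l 16733400)) (l 16714504))))) (a (b (a (b (c (l 255181345575) (l 16617120)) (l 16658944)) (b (l 16713000) (l 16710048))) (a (b (l 16662464) (l 16667520)) (b (l 16709624) (l 16711336)))) (a (b (b (l 16718032) (l 16734992)) (l 16750296)) (b (l 16719576) (l 16767888))))),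 by decide +kernel⟩

def k9_pm_102 : ∃ t, chk3 f_pm_102 t 30 32 1 = true :=
  ⟨(a (l 3) (a (l 3) (l 6))), by decide +kernel⟩

def k10_pm_102 : ∃ t, chk3 f_pm_102 t 60 132 1 = true :=
  ⟨(b (l 3) (b (l 3) (b (l 3) (b (l 3) (a (l 3) (a (l 3) (a (l 3) (a (l 3) (c (c (l 363629382631) (l 368461203399)) (c (l 373293018183) (a (l 409263355495) (b (l 386714775063) (l 344838843543))))))))))))), by decide +kernel⟩

def k11_pm_102 : ∃ t, chk3 f_pm_102 t 120 133 1 = true :=
  ⟨(b (l 3) (a (l 3) (b (a (l 3) (a (l 3) (c (c (l 381882991703) (l 387788552247)) (c (l 394767848567) (b (l 3) (l 401210283591)))))) (a (a (l 3) (b (l 3) (c (c (l 359334413175) (l 363629360343)) (c (l 367387430551) (c (l 370071763655) (l 372219241479)))))) (c (c (b (l 331417125767) (l 16773424)) (b (a (l 373293037207) (l 316921585223)) (l 296520490039))) (c (b (a (l 379198596599) (c (l 319069055383) (l 320679656855))) (a (l 306184148231) (l 16756928))) (c (b (a (l 384030418807) (l 322290258951)) (l 301352293719)) (b (a (l 387251633367) (b (l 339470117671)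 (l 16744088))) (l 302962896151))))))))), by decide +kernel⟩

def k12_pm_102 : ∃ t, chk3 f_pm_102 t 121 266 1 = true :=
  ⟨(b (a (l 3) (a (b (l 3) (c (c (l 357186930855) (a (l 391546651015) (l 348060096967))) (a (c (l 396378459783) (c (l 401747164679) (l 403894638279))) (c (c (l 351281313655) (b (l 375440500631) (l 334101434439))) (c (b (l 6811690585063589095131782703) (l 6057320792054864039180262959)) (b (a (l 3) (l 368998024999)) (a (l 355576251511) (l 16747664)))))))) (c (c (b (l 337859578343) (l 16778080)) (b (a (l 362555612247) (l 314237233911)) (l 299204847815))) (c (b (a (c (l 366313694855) (l 6598919833061075253586026031)) (c (l 316921576439) (l 320142792407))) (a (l 307257894743) (l 16759768))) (b (b (a (a (l 3) (l 395841579463)) (a (b (l 367924292503) (l 322827135591)) (l 16751232))) (a (a (c (l 380809200807) (l 382956674647)) (c (l 332490815143) (l 334638290487))) (l 16750808))) (a (c (l 311015976327) (l 313700321335)) (l 16750128))))))) (a (a (l 3) (c (c (b (l 377051154183) (l 336248964647))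 (b (l 382419844711) (a (l 365776846151) (l 318532199351)))) (b (a (l 3) (a (l 3) (c (l 379735466087) (c (l 384030421111) (l 387251633783))))) (a (b (l 3) (c (a (l 390472888439) (l 346449469255)) (a (l 396378445447) (c (l 350744420807) (l 353965636343))))) (c (c (l 321216541063) (l 322827143575)) (b (c (l 337322648503) (a (l 364166183847) (l 313163447703))) (l 297594198727))))))) (a (c (c (l 308868539895) (b (a (l 331417103239) (l 16768872)) (l 16768344))) (c (b (a (c (l 336248927207) (b (l 356113138903) (l 314774080471))) (l 16759392)) (l 16758720)) (b (a (b (a (l 7005118670373299954959359535) (c (l 341617618631) (l 340543865431))) (c (l 316384683623) (l 318532157511))) (l 16749528)) (l 16748712)))) (c (l 16762272) (c (l 16758704) (l 16748864)))))), by decide +kernel⟩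

def k13_pm_102 : ∃ t, chk3 f_pm_102 t 121 267 1 = true :=
  ⟨(a (c (c (b (a (b (l 359871284551) (l 314774119495)) (l 293299282935)) (l 16776680)) (b (a (b (a (l 3) (l 352891943703)) (a (l 340543912151) (l 16767968))) (b (l 299741716807) (l 16767576))) (l 16764296))) (a (b (b (a (l 3) (c (c (l 357186885687) (l 360408106263)) (a (c (l 381346066711) (l 384567276407)) (b (l 384030413911) (l 314774066775))))) (a (c (c (l 344301982999) (l 347523203431)) (c (b (l 371145518615) (l 316921551447)) (b (l 374366728183) (l 319069024903)))) (c (l 16755984) (c (l 16750176) (l 16742248))))) (c (l 16756960) (b (l 16746768) (l 16745936)))) (b (c (a (c (l 299741704071) (l 301352306695)) (l 16757896)) (b (a (c (l 309942231159) (b (l 319069026567) (l 16745384))) (l 16748072)) (l 16747296))) (l 16751352)))) (c (b (l 16761392) (l 16770800)) (c (l 16756712) (l 16746488)))), by decide +kernel⟩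

def k14_pm_102 : ∃ t, chk3 f_pm_102 t 60 67 1 = true :=
  ⟨(a (b (b (b (a (a (l 3) (c (c (l 364166240615) (b (l 396915356183) (a (l 382419841399) (l 323900911959)))) (c (b (l 400673431095) (a (l 386177916119) (c (l 328195852711) (l 330880201543)))) (b (l 404968376103) (a (c (l 389399124807) (l 391009726103)) (c (l 6037977518060658505790872623) (b (l 366313664775) (l 315310924631)))))))) (a (c (c (l 302962956071) (b (a (l 337322685207) (l 16767224)) (l 16766784))) (c (b (a (c (l 342691378487) (l 344838840839)) (l 299741696551)) (l 16756104)) (b (a (c (l 346986318711) (l 6357133830387754817135205423)) (l 304036645047)) (l 16745024)))) (c (l 16761136) (c (l 16755984) (l 16745056))))) (a (a (c (c (b (l 370071831239) (l 330343372967)) (b (l 373829901175) (a (l 350744451751) (l 300815456263)))) (b (a (l 3) (c (c (l 369534922839) (l 371145513911)) (c (l 373292991399) (l 375440466087)))) (a (c (c (l 353428784471) (l 355576262039)) (c (b (l 381882930647) (l 341080735767)) (b (l 384030402583) (l 343228207655))))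 (c (c (l 304573537463) (l 306184140247)) (c (l 309405354743) (l 312089698279)))))) (c (c (l 293299282503) (c (l 296520494727) (l 299204838727))) (c (b (a (c (l 316921569111) (l 319605913543)) (l 16755792)) (l 16755248)) (b (a (c (l 322290257111) (l 324974600807)) (l 16744528)) (l 16743848))))) (a (c (l 16771176) (l 16749512)) (c (l 16770584) (l 16749128))))) (a (c (b (a (c (l 16776840) (l 285783070055)) (l 16770808)) (l 16770192)) (b (a (c (c (l 16755024) (l 16750616)) (c (l 293299226903) (l 295983569927))) (l 16748544)) (l 16747432))) (c (l 16769456) (l 16747296)))) (b (c (l 16768360) (l 16745232)) (l 16734280))) (b (a (b (c (l 16770280) (l 16749336)) (l 16736832)) (b (l 16738304) (l 16757200))) (c (l 16746296) (l 16744672)))), by decide +kernel⟩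

def k15_pm_102 : ∃ t, chk3 f_pm_102 t 61 33 1 = true :=
  ⟨(b (a (b (b (a (l 3) (l 6)) (b (a (a (l 3) (b (a (l 3) (l 6)) (c (c (l 327659024247) (a (l 355039421751) (l 16770768))) (b (a (c (l 382956692103) (a (l 3) (l 375440489463))) (l 6)) (a (c (l 344301991399) (a (l 6685962546260639270679060015) (l 315847817287))) (c (l 16761992) (l 16753032))))))) (l 6)) (a (a (c (c (b (l 358797544711) (l 310479154311)) (b (a (l 392083524167) (l 335175197271)) (a (l 326048394599) (l 16769888)))) (c (b (a (l 396915339287) (c (l 337322667735) (l 6183049497822904278710967855))) (a (c (l 328732737367) (l 5979949913146095264630119983)) (l 16760960))) (b (a (c (l 400136556167) (b (l 3) (l 398525933927))) (c (b (l 374903616343) (l 322827141911)) (b (a (l 406042127639) (l 348596937527)) (l 325511483815)))) (a (c (b (l 6366806036783965671553228335) (l 16753960)) (b (a (l 378661709751) (l 324974616135)) (l 308868488199))) (l 16751664))))) (c (c (l 16778288) (l 16769848)) (b (c (l 16758848) (a (l 16751136) (l 16752312))) (l 16756096))))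 (c (l 16762728) (l 16756096))))) (b (a (c (a (c (l 16777208) (l 16768328)) (l 16772288)) (a (b (c (l 16759864) (l 16750360)) (l 16753520)) (l 16754024))) (c (l 16771496) (l 16753656))) (a (c (l 16770360) (l 16751144)) (l 16739304)))) (b (l 6) (b (l 6) (a (l 16740240) (l 6))))) (a (b (b (c (l 16747880) (l 16749080)) (l 16738000)) (l 16739672)) (c (l 16754896) (l 16735240)))), by decide +kernel⟩

def k16_pm_102 : ∃ t, chk3 f_pm_102 t 31 16 1 = true :=
  ⟨(b (l 6) (a (b (l 6) (a (b (l 6) (l 16774416)) (l 6))) (l 6))), by decide +kernel⟩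

def k17_pm_102 : ∃ t, chk3 f_pm_102 t 15 17 1 = true :=
  ⟨(a (a (b (b (b (a (b (l 16732968) (l 16732680)) (l 16736344)) (a (l 16734144) (l 16760456))) (b (l 16739960) (l 16763952))) (c (l 16766152) (l 16756984))) (b (b (a (l 16723168) (l 16751232)) (l 16687728)) (c (l 16711872) (l 16759472)))) (b (a (a (b (l 16719192) (l 16722552)) (b (l 16678464) (l 16682320))) (b (l 6) (a (l 16663120) (l 6)))) (a (b (l 16633408) (l 16638656)) (c (b (l 16626880) (l 16652320)) (b (l 16650120) (l 16658464)))))), by decide +kernel⟩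

def k18_pm_102 : ∃ t, chk3 f_pm_102 t 7 9 1 = true :=
  ⟨(b (a (a (b (b (a (l 16677080) (l 16717112)) (l 16711432)) (c (l 16735640) (l 16735872))) (a (b (l 16715824) (l 16759864)) (b (l 16730744) (l 16740480)))) (a (b (a (l 16682872) (l 16609008)) (a (l 16693856) (l 16600544))) (b (a (c (l 16642488) (l 16696136)) (c (l 16565960) (l 16619784))) (a (l 16546776) (c (l 16599640) (l 16619264)))))) (b (a (a (l 16642768) (l 16594048)) (a (a (l 16685936) (l 16573144)) (a (l 16542120) (c (l 16572352) (l 16620736))))) (a (a (l 16696840) (l 16607104)) (a (b (l 16504832) (l 16491992)) (a (l 16518152) (c (l 16546712) (l 16602816))))))), by decide +kernel⟩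

def k19_pm_102 : ∃ t, chk3 f_pm_102 t 1 5 1 = true :=
  ⟨(a (b (a (b (b (a (l 2) (b (a (l 2) (l 16569368)) (l 2))) (l 2)) (l 2)) (b (b (a (b (a (l 16575256) (l 16584912)) (a (l 16594888) (l 16604008))) (b (a (l 16601552) (l 16623112)) (a (l 16618264) (l 16637040)))) (a (b (a (l 16611016) (l 16618336)) (b (l 16622016) (l 16625128))) (b (l 16597176) (a (l 16639080) (l 16634392))))) (a (a (l 16646232) (l 16653368)) (a (l 16652776) (l 16648520))))) (a (l 2) (a (a (l 2) (l 16624448)) (c (a (l 16595888) (l 16580280)) (l 16454392))))) (a (b (a (a (b (b (l 16653000) (b (l 16666216) (l 16620976))) (l 16643784)) (b (b (l 16678040) (b (l 16678136) (l 16584032))) (l 16599872))) (b (b (a (l 16700688) (l 16702408)) (b (a (l 16683992) (l 16681488)) (a (c (l 16647816) (l 16693872)) (l 16541312)))) (a (c (l 16618184) (l 16663888)) (l 16562600)))) (a (a (l 16396112) (a (l 16516016) (l 16492192))) (c (a (l 16551808) (l 16543352)) (a (l 16595112) (l 16592976))))) (a (b (b (b (a (l 16688928) (l 16600632)) (a (b (l 16668048)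 (l 16528112)) (b (l 16643760) (c (l 16602376) (l 16660536))))) (a (l 16539408) (c (l 16571240) (l 16633744)))) (a (c (l 16485928) (l 16586104)) (c (l 16399168) (l 16572824)))) (b (a (b (b (b (l 16500448) (l 16488224)) (b (l 16476208) (c (l 16516552) (l 16623760)))) (c (l 16508232) (l 16600104))) (b (b (c (l 16472696) (a (l 16610912) (l 16586104))) (b (c (l 16517504) (l 16585016)) (b (l 16416552) (a (l 16528680) (l 16442280))))) (a (l 16423320) (l 16380696)))) (a (c (l 16318688) (l 16525000)) (b (c (l 16439632) (l 16527424)) (l 16238512))))))), by decide +kernel⟩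

def k20_pm_102 : ∃ t, chk3 f_pm_102 t 1 3 1 = true :=
  ⟨(a (a (l 2) (b (a (l 2) (b (a (l 2) (l 16529880)) (l 2))) (l 2))) (a (b (a (b (c (l 16384232) (l 16455808)) (a (l 2) (l 16431760))) (b (c (a (l 16472728) (l 16461912)) (l 16509504)) (c (l 16357280) (l 16433896)))) (a (l 2) (b (c (l 16344408) (l 16367104)) (l 2)))) (b (a (a (b (c (l 16445904) (l 16504632)) (l 16400408)) (b (c (l 16423456) (l 16496112)) (l 16281080))) (b (a (c (l 16367472) (l 16476832)) (b (a (l 16423224) (l 16151208)) (a (l 16387976) (c (l 16282760) (l 16407560))))) (a (b (l 16378832) (c (l 16300048) (l 16388400))) (a (b (l 16135800) (l 16205240)) (c (l 16058704) (l 16296464)))))) (a (b (a (l 16335424) (l 16320408)) (a (l 2) (b (l 16275016) (l 2)))) (b (a (c (b (l 16158144) (l 16223912)) (b (l 16346528) (l 16299336))) (c (b (l 16144480) (l 16083368)) (b (l 16221360) (l 16145320)))) (a (b (a (l 16242120) (l 16175000)) (l 15949040)) (c (b (l 16026848) (l 15976920)) (b (l 16072008) (l 16003736))))))))), by decide +kernel⟩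

theorem s21_pm_102 : ∃ t, chk3 f_pm_102 t 121 133 1 = true := ex3_b k12_pm_102 k13_pm_102

theorem s22_pm_102 : ∃ t, chk3 f_pm_102 t 60 133 1 = true := ex3_a k11_pm_102 s21_pm_102

theorem s23_pm_102 : ∃ t, chk3 f_pm_102 t 60 66 1 = true := ex3_b k10_pm_102 s22_pm_102

theorem s24_pm_102 : ∃ t, chk3 f_pm_102 t 60 33 1 = true := ex3_b s23_pm_102 k14_pm_102

theorem s25_pm_102 : ∃ t, chk3 f_pm_102 t 30 33 1 = true := ex3_a s24_pm_102 k15_pm_102

theorem s26_pm_102 : ∃ t, chk3 f_pm_102 t 30 16 1 = true := ex3_b k9_pm_102 s25_pm_102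

theorem s27_pm_102 : ∃ t, chk3 f_pm_102 t 15 16 1 = true := ex3_a s26_pm_102 k16_pm_102

theorem s28_pm_102 : ∃ t, chk3 f_pm_102 t 15 8 1 = true := ex3_b s27_pm_102 k17_pm_102

theorem s29_pm_102 : ∃ t, chk3 f_pm_102 t 59 67 1 = true := ex3_b k6_pm_102 k7_pm_102

theorem s30_pm_102 : ∃ t, chk3 f_pm_102 t 29 67 1 = true := ex3_a k5_pm_102 s29_pm_102

theorem s31_pm_102 : ∃ t, chk3 f_pm_102 t 29 33 1 = true := ex3_b k4_pm_102 s30_pm_102

theorem s32_pm_102 : ∃ t, chk3 f_pm_102 t 14 33 1 = true := ex3_a k3_pm_102 s31_pm_102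

theorem s33_pm_102 : ∃ t, chk3 f_pm_102 t 14 16 1 = true := ex3_b k2_pm_102 s32_pm_102

theorem s34_pm_102 : ∃ t, chk3 f_pm_102 t 14 8 1 = true := ex3_b s33_pm_102 k8_pm_102

theorem s35_pm_102 : ∃ t, chk3 f_pm_102 t 7 8 1 = true := ex3_a s34_pm_102 s28_pm_102

theorem s36_pm_102 : ∃ t, chk3 f_pm_102 t 7 4 1 = true := ex3_b s35_pm_102 k18_pm_102

theorem s37_pm_102 : ∃ t, chk3 f_pm_102 t 3 4 1 = true := ex3_a k1_pm_102 s36_pm_102

theorem s38_pm_102 : ∃ t, chk3 f_pm_102 t 1 4 1 = true := ex3_a k0_pm_102 s37_pm_102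

theorem s39_pm_102 : ∃ t, chk3 f_pm_102 t 1 2 1 = true := ex3_b s38_pm_102 k19_pm_102

theorem s40_pm_102 : ∃ t, chk3 f_pm_102 t 1 1 1 = true := ex3_b s39_pm_102 k20_pm_102

theorem c_pm_102 : CertB 536870912 536870912 0 536870912 923417968 42949674 3 eng mog cd0q1 cd1q0 pd2 true true false .npp 1 0 2
    ndB0q1 ndB1q0 pcB2 cut_pm_102 xt_pm_102 :=
  certB1 (fam := true) (s1 := true) (s2 := false) (a := 1) (b := 0) (c := 2) (cn := .npp) (n1 := ndB0q1) (n2 := ndB1q0) (pc := pcB2) (cut := cut_pm_102) (xt := xt_pm_102) (P1 := 536870912) (W1 := 536870912) (P2 := 0) (W2 := 536870912) (P3 := 923417968) (W3 := 42949674) (N0 := 3) (En := eng) (mo := mog) (C1 := cd0q1) (C2 := cd1q0) (C3 := pd2)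
    rfl (fun _ => rfl) s40_pm_102

noncomputable def f_pm_112 : ℕ → ℕ → ℕ → ℕ → Bool := onCell 536870912 536870912 1073741824 536870912 923417968 42949674
    (rowB 3 eng mog cd0q1 cd1q1 pd2 1 true true false .dn 1 1 2 (qsf 536870912 536870912 536870912 536870912 2) ndB0q1 ndB1q1 pcB2 Cut.none Ext.none)

def k0_pm_112 : ∃ t, chk3 f_pm_112 t 1 4 1 = true :=
  ⟨(a (b (l 3) (a (b (l 3) (a (l 3) (a (b (l 3) (b (l 3) (a (b (l 3) (c (l 129015491159) (l 131700036215))) (c (c (b (l 16099184) (l 16097192)) (l 140289832839)) (b (l 16176120) (l 122573199863)))))) (b (l 3) (b (a (l 3) (b (l 3) (c (c (a (l 16072464) (l 16064192)) (l 16113368)) (c (l 16161712) (l 16213368))))) (c (c (a (b (l 16082856) (l 16081136)) (b (l 16066616) (l 16065136))) (a (b (l 16128032) (l 16126424)) (b (l 16111792) (l 16110472)))) (a (b (l 141900461879) (l 16200552)) (c (l 16159736) (l 16211648))))))))) (b (l 1) (a (a (a (b (l 1) (b (l 1) (b (l 1) (c (l 230886576439) (l 16168600))))) (l 1)) (l 1)) (l 1))))) (l 1)), by decide +kernel⟩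

def k1_pm_112 : ∃ t, chk3 f_pm_112 t 4 40 1 = true :=
  ⟨(a (b (a (a (l 3) (b (l 3) (c (l 16179824) (l 159617429255)))) (c (a (b (l 16165760) (l 16163496)) (b (l 145121649719) (l 16147464))) (b (a (l 16260264) (l 16245000)) (a (l 16257792) (l 16242848))))) (a (c (b (a (l 16193920) (l 16177440)) (a (l 16191320) (l 16175072))) (b (a (l 16306112) (l 16270152)) (a (l 16282056) (l 16267392)))) (c (c (b (l 16131720) (l 16129728)) (b (l 16175896) (l 16173784))) (b (l 16232336) (l 16224800))))) (c (b (a (c (a (l 66201583911) (l 16094640)) (a (l 16155456) (l 16139864))) (c (a (l 16078856) (l 16063104)) (a (l 16124288) (l 16108648)))) (a (c (b (l 16100024) (l 16098376)) (b (l 16145104) (l 16143424))) (c (a (l 16076032) (l 16060592)) (l 16113936)))) (b (a (b (a (l 16229792) (l 16214592)) (l 16199536)) (a (b (l 16199272) (l 16197992)) (l 16183240))) (a (c (l 16234584) (l 16286152)) (a (l 16196096) (l 16181184)))))), by decide +kernel⟩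

def k2_pm_112 : ∃ t, chk3 f_pm_112 t 4 41 1 = true :=
  ⟨(b (b (a (a (c (a (l 16188688) (l 16172664)) (l 16250776)) (c (l 16149264) (l 16243384))) (a (c (l 16118760) (l 16215240)) (c (c (l 16066136) (l 16111808)) (l 16186576)))) (a (a (c (a (l 16186032) (l 16170192)) (l 16247736)) (c (l 16147048) (l 16240848))) (a (c (l 16116848) (l 16213160)) (c (l 16086904) (l 16184896))))) (b (a (a (c (a (l 16183392) (l 16167672)) (l 16244688)) (c (a (l 16152288) (l 16137152)) (a (l 16244976) (l 16231352)))) (a (c (a (l 16122200) (l 16107328)) (l 16231824)) (c (c (l 16062376) (l 16108088)) (a (l 16190032) (l 16175760))))) (a (a (c (l 16172976) (l 16262616)) (b (c (l 16142912) (l 16236120)) (a (c (l 16149224) (l 16241440)) (c (l 16134136) (l 16227992))))) (a (c (b (a (l 16120456) (l 16105512)) (l 16111544)) (b (l 16209016) (l 16207728))) (c (c (b (l 16060168) (l 16058464)) (l 16105408)) (l 16180656)))))), by decide +kernel⟩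

def k3_pm_112 : ∃ t, chk3 f_pm_112 t 4 21 1 = true :=
  ⟨(a (a (c (b (l 16166584) (l 16156304)) (l 16227856)) (c (c (l 16110728) (l 16153312)) (l 16201944))) (c (a (c (l 16080624) (l 16124936)) (c (a (l 16058064) (l 16042936)) (l 16096400))) (a (l 16197336) (l 16171336)))), by decide +kernel⟩

def k4_pm_112 : ∃ t, chk3 f_pm_112 t 5 10 1 = true :=
  ⟨(a (a (c (b (b (a (b (c (l 51034812743) (l 16092856)) (c (l 16045096) (l 16090896))) (b (l 1) (l 282426177447))) (b (c (b (l 16035688) (l 16033872)) (b (l 16081656) (l 16079984))) (b (a (l 16061792) (l 16045840)) (c (b (a (l 16036528) (l 16020424)) (a (l 16034768) (c (l 16007328) (l 16030176)))) (l 98816425847))))) (c (a (l 16027616) (b (l 16014984) (l 16009056))) (l 16067352))) (b (b (b (a (l 16167496) (l 1)) (a (l 16165936) (l 16150320))) (b (b (l 16156984) (a (l 16162856) (l 16147560))) (b (a (l 16161032) (l 16145824)) (l 16151824)))) (l 16165472))) (b (a (b (l 1) (b (l 1) (c (b (l 1) (c (b (l 1) (l 194916118871)) (l 16050304))) (l 126733801863)))) (l 1))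 (c (c (c (a (l 153040189143) (l 155724505847)) (l 154650854247)) (l 155724678711)) (l 87005402807)))) (a (a (b (l 1) (b (l 1) (c (l 181494293991) (l 16084712)))) (l 1)) (l 1))), by decide +kernel⟩

def k5_pm_112 : ∃ t, chk3 f_pm_112 t 2 11 1 = true :=
  ⟨(a (a (a (c (b (l 16141064) (l 16120968)) (l 16210712)) (b (c (l 16112456) (l 16199528)) (l 16007024))) (c (a (b (l 16084936) (l 16067288)) (b (c (l 16035760) (l 16080376)) (l 16041856))) (a (l 16144632) (l 16122856)))) (a (c (c (a (b (l 16007488) (l 15994576)) (b (a (l 15985112) (l 15968920)) (l 15966592))) (a (l 16047104) (b (l 16025096) (l 16013512)))) (a (l 16100952) (b (l 16103320) (l 16090120)))) (c (c (a (b (a (l 76267576903) (l 155187560167)) (l 15933912)) (b (l 180957333415) (l 76804369095))) (a (b (l 15990320) (l 15981952)) (l 155724572263))) (b (a (l 16069528) (l 187400074775)) (a (l 16060368) (l 16022896)))))), by decide +kernel⟩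

def k6_pm_112 : ∃ t, chk3 f_pm_112 t 3 5 1 = true :=
  ⟨(a (b (l 1) (b (l 1) (a (a (a (c (l 177199186647) (l 15993672)) (l 1)) (l 1)) (l 1)))) (l 1)), by decide +kernel⟩

def k7_pm_112 : ∃ t, chk3 f_pm_112 t 2 3 1 = true :=
  ⟨(c (a (b (a (b (a (l 16092552) (l 16065776)) (l 16045744)) (b (a (l 16041248) (l 16018072)) (a (l 16008264) (l 15986928)))) (a (b (l 16020520) (l 16009184)) (b (l 15991152) (l 15951376)))) (b (a (b (a (b (l 16002592) (l 15988296)) (b (l 15977904) (l 15965704))) (a (l 15967344) (l 15947384))) (b (a (b (l 15948536) (l 15938888)) (b (c (l 15890384) (l 15937904)) (l 15907048))) (a (l 15923920) (l 15917088)))) (a (b (a (l 15941368) (l 15923912)) (l 15955208)) (b (a (l 15904024) (l 15880784)) (l 16066368))))) (a (b (a (b (l 16064576) (l 16099144)) (b (l 16068448) (l 16042760))) (a (b (l 16056424) (l 16027424)) (b (l 16018896) (l 15980952)))) (b (a (b (a (l 16084904) (l 16066496)) (a (l 16042856) (l 16029048))) (a (b (l 16042144) (l 16010520)) (b (l 16052808) (l 15986168)))) (a (b (l 15994064)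 (l 15954488)) (b (l 16047848) (l 15928640)))))), by decide +kernel⟩

def k8_pm_112 : ∃ t, chk3 f_pm_112 t 3 3 1 = true :=
  ⟨(a (b (a (b (c (a (b (c (l 15855304) (l 15903248)) (l 15875520)) (b (l 175588554439) (l 15847104))) (a (l 140692352247) (l 148208480007))) (c (a (c (l 15847776) (l 15891296)) (c (l 15823664) (l 15868840))) (a (l 15962392) (l 15942760)))) (a (b (c (b (l 1) (l 15819984)) (l 182568163975)) (c (c (l 15801376) (l 15848392)) (l 15925656))) (b (l 1) (c (l 156798134071) (l 15907296))))) (a (b (c (a (l 15859080) (l 15841656)) (l 16160864)) (c (a (l 15850744) (l 15838144)) (l 15903584))) (b (c (a (l 15826896) (l 15811128)) (a (l 15915712) (l 15906680))) (c (a (l 15828832) (l 15819272)) (l 15896488))))) (b (a (a (b (l 1) (c (l 205653327639) (l 15882744))) (l 1)) (l 1)) (a (b (c (a (l 15789856) (l 15761520)) (a (l 15892792) (l 15872424))) (a (c (l 15805048) (l 15889776)) (b (c (l 15778120) (l 15877480)) (c (l 15931968) (l 15872528))))) (a (a (b (b (l 1) (c (l 15733408) (l 15846232))) (b (c (l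 15736056) (l 15837816)) (l 16017776))) (b (l 1) (c (b (l 15663664) (l 15653912)) (l 15740128)))) (b (l 1) (c (b (l 473014768199) (a (l 15572456) (l 15486592))) (b (l 15600680) (l 15571920)))))))), by decide +kernel⟩

theorem s9_pm_112 : ∃ t, chk3 f_pm_112 t 1 3 1 = true := ex3_a k7_pm_112 k8_pm_112

theorem s10_pm_112 : ∃ t, chk3 f_pm_112 t 4 20 1 = true := ex3_b k1_pm_112 k2_pm_112

theorem s11_pm_112 : ∃ t, chk3 f_pm_112 t 4 10 1 = true := ex3_b s10_pm_112 k3_pm_112

theorem s12_pm_112 : ∃ t, chk3 f_pm_112 t 2 10 1 = true := ex3_a s11_pm_112 k4_pm_112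

theorem s13_pm_112 : ∃ t, chk3 f_pm_112 t 2 5 1 = true := ex3_b s12_pm_112 k5_pm_112

theorem s14_pm_112 : ∃ t, chk3 f_pm_112 t 1 5 1 = true := ex3_a s13_pm_112 k6_pm_112

theorem s15_pm_112 : ∃ t, chk3 f_pm_112 t 1 2 1 = true := ex3_b k0_pm_112 s14_pm_112

theorem s16_pm_112 : ∃ t, chk3 f_pm_112 t 1 1 1 = true := ex3_b s15_pm_112 s9_pm_112

theorem c_pm_112 : CertB 536870912 536870912 536870912 536870912 923417968 42949674 3 eng mog cd0q1 cd1q1 pd2 true true false .dn 1 1 2
    ndB0q1 ndB1q1 pcB2 Cut.none Ext.none :=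
  certB1 (fam := true) (s1 := true) (s2 := false) (a := 1) (b := 1) (c := 2) (cn := .dn) (n1 := ndB0q1) (n2 := ndB1q1) (pc := pcB2) (cut := Cut.none) (xt := Ext.none) (P1 := 536870912) (W1 := 536870912) (P2 := 536870912) (W2 := 536870912) (P3 := 923417968) (W3 := 42949674) (N0 := 3) (En := eng) (mo := mog) (C1 := cd0q1) (C2 := cd1q1) (C3 := pd2)
    rfl (fun _ => rfl) s16_pm_112

noncomputable def f_pm_113 : ℕ → ℕ → ℕ → ℕ → Bool := onCell 536870912 536870912 1610612736 536870912 923417968 42949674
    (rowB 3 eng mog cd0q1 cd1q1 pd3 1 true true false .nn 1 1 3 (qsf 536870912 536870912 536870912 536870912 3) ndB0q1 ndB1q1 pcB3 Cut.none Ext.none)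

def k0_pm_113 : ∃ t, chk3 f_pm_113 t 2 1 1 = true :=
  ⟨(b (b (a (b (a (a (l 16029152) (l 16027912)) (b (l 16011808) (l 16006680))) (a (a (l 2) (l 15994848)) (b (l 15997672) (l 15986160)))) (a (b (a (b (l 15963928) (l 15967800)) (c (l 15904512) (l 15949432))) (a (l 15973168) (b (l 15936248) (l 15945928)))) (b (c (l 16038208) (l 15892824)) (c (l 15914272) (l 15897128))))) (a (b (a (l 2) (a (l 2) (l 15975256))) (l 2)) (a (b (a (l 15969024) (l 15789656)) (b (l 15970408) (l 2))) (a (b (l 16076608) (l 15958136)) (b (l 15895744) (l 15941264)))))) (a (l 2) (b (b (a (l 2) (a (l 2) (l 16130816))) (l 2)) (l 2)))), by decide +kernel⟩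

def k1_pm_113 : ∃ t, chk3 f_pm_113 t 3 2 1 = true :=
  ⟨(a (b (a (b (c (a (l 15807232) (l 15788728)) (l 15828872)) (c (l 15886384) (l 15836576))) (b (c (a (l 15776496) (l 15767160)) (l 15784520)) (c (l 15950808) (l 15799184)))) (a (b (a (l 15871440) (l 15856496)) (a (l 15925840) (l 15919272))) (b (c (l 15861624) (l 15834040)) (c (a (l 15948592) (l 15960552)) (l 16023456))))) (b (a (b (a (c (l 15756160) (l 15749624)) (c (b (l 15732696) (l 15744712)) (b (l 15716936) (l 15724744)))) (c (a (l 15793992) (b (l 15763248) (l 15789888))) (a (l 15771504) (b (l 15738248) (l 15758304))))) (b (c (a (c (l 15701568) (l 15691496)) (c (l 15647248) (l 15642736))) (a (b (l 15681416) (l 15692392)) (c (l 15646736) (l 15659344)))) (c (a (c (l 15747848) (l 15730648)) (c (l 15702536) (l 15686800))) (a (l 15717640) (l 15788600))))) (a (b (a (c (l 15860104) (l 15816224)) (c (l 15848496) (l 15800456))) (c (a (l 15970504) (l 15973880)) (a (l 15895944) (l 15889056)))) (b (c (a (l 15821568) (l 15785944)) (a (l 15772160) (l 15737400)))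 (c (a (l 15962336) (l 15938688)) (a (l 15863920) (l 15826432))))))), by decide +kernel⟩

def k2_pm_113 : ∃ t, chk3 f_pm_113 t 3 3 1 = true :=
  ⟨(a (b (b (a (a (l 16005584) (l 16019696)) (a (l 16040872) (c (l 16120968) (l 16017696)))) (a (b (a (l 2) (l 16135752)) (l 2)) (b (a (l 16184040) (l 16240360)) (a (l 16320032) (l 16408216))))) (a (l 2) (b (b (a (l 2) (l 16557968)) (l 2)) (l 2)))) (b (b (a (a (b (l 16044520) (l 16152608)) (c (l 16185720) (l 16044936))) (a (c (l 16196792) (l 16026440)) (c (l 16186784) (l 15983536)))) (a (b (a (l 16302160) (l 16349992)) (a (l 16516144) (l 16603600))) (b (a (l 16362784) (l 16339792)) (a (l 16638832) (l 16620016))))) (a (b (b (a (l 16690736) (l 16771904)) (b (a (l 16701576) (l 16778832)) (a (l 2) (l 16787384)))) (b (b (a (l 2) (l 16801368)) (l 2)) (l 2))) (b (b (a (l 16847344) (l 16856840)) (a (l 16856488) (l 16781968))) (b (b (l 16760192) (l 16717832)) (b (a (l 16770224) (l 4)) (l 4))))))), by decide +kernel⟩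

theorem s3_pm_113 : ∃ t, chk3 f_pm_113 t 3 1 1 = true := ex3_b k1_pm_113 k2_pm_113

theorem s4_pm_113 : ∃ t, chk3 f_pm_113 t 1 1 1 = true := ex3_a k0_pm_113 s3_pm_113

theorem c_pm_113 : CertB 536870912 536870912 536870912 536870912 923417968 42949674 3 eng mog cd0q1 cd1q1 pd3 true true false .nn 1 1 3
    ndB0q1 ndB1q1 pcB3 Cut.none Ext.none :=
  certB1 (fam := true) (s1 := true) (s2 := false) (a := 1) (b := 1) (c := 3) (cn := .nn) (n1 := ndB0q1) (n2 := ndB1q1) (pc := pcB3) (cut := Cut.none) (xt := Ext.none) (P1 := 536870912) (W1 := 536870912) (P2 := 536870912) (W2 := 536870912) (P3 := 923417968) (W3 := 42949674) (N0 := 3) (En := eng) (mo := mog) (C1 := cd0q1) (C2 := cd1q1) (C3 := pd3)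
    rfl (fun _ => rfl) s4_pm_113

end Pool.Agent.Strip051.G.I8600_9000.Tab.C.BA01

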