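import Pool.Agent.Strip051.G.I8600_9000.Tab

/-! # Certificates B4 (generated) -/

set_option linter.all false
set_option maxRecDepth 100000

namespace Pool.Agent.Strip051.G.I8600_9000.Tab.C.BA02

open Pool.Agent.Strip051.PB Pool.Agent.Strip051.PB.T
open Pool.Agent.Strip051.G.I8600_9000.Tab

noncomputable def cut_pm_011 : Cut := Cut.of [[⟨0, 0, 0, 67108864⟩, ⟨1, 1, 0, 67108864⟩, ⟨2, 1, 0, 67108864⟩]]

noncomputable def f_pm_011 : ℕ → ℕ → ℕ → ℕ → Bool := onCell 0 536870912 536870912 536870912 923417968 42949674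
    (rowB 3 eng mog cd0q0 cd2q1 pd1 1 true true false .pnn 0 1 1 (qsf 0 536870912 536870912 536870912 1) ndB0q0 ndB2q1 pcB1 cut_pm_011 Ext.none)

def k0_pm_011 : ∃ t, chk3 f_pm_011 t 1 1 1 = true :=
  ⟨(a (b (l 3) (b (l 3) (b (l 3) (b (l 3) (b (l 3) (a (b (l 3) (a (a (l 6) (a (l 6) (b (l 3) (a (l 6) (c (l 16694488) (l 271287352999)))))) (a (a (b (l 3) (c (a (l 16683928) (l 16694192)) (a (l 16648040) (l 16645280)))) (c (a (l 280414126807) (l 275045393543)) (b (l 1450792651207) (b (l 16628648) (l 16643752))))) (a (c (a (l 270213532311) (l 265918542647)) (b (l 278803397271) (l 16600808))) (c (a (l 16606544) (l 16618584)) (b (l 268602802423) (l 16598912))))))) (a (a (b (l 3) (c (a (l 16590616) (l 16613424)) (a (l 261623410215) (l 16525632)))) (b (c (l 1637623593351) (l 1734260251975)) (c (l 16553376) (a (l 16552944) (l 16539384))))) (c (a (a (l 254644044855) (l 249275284343)) (a (l 16454176) (l 16451112))) (a (c (l 211694388583) (l 249812089127)) (l 210083625383)))))))))) (b (l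 3) (b (l 3) (b (l 3) (b (l 3) (a (a (b (l 3) (c (a (c (l 236927052791) (l 16490616)) (c (l 16353568) (l 16442616))) (a (l 16448320) (l 16471496)))) (b (l 3) (a (b (b (l 16278616) (l 16288288)) (l 16282056)) (c (l 210620081543) (l 16402456))))) (c (a (a (b (l 533816347703) (l 16226008)) (b (l 244979730663) (l 16175304))) (b (b (l 3) (a (l 230484170583) (l 222431043575))) (a (l 16167464) (l 16116640)))) (a (a (b (l 393693170199) (l 16367384)) (b (l 249274825559) (l 16336800))) (b (a (l 243369180871) (l 238000396983)) (a (l 16305832) (l 16272056))))))))))), by decide +kernel⟩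

theorem c_pm_011 : CertB 0 536870912 536870912 536870912 923417968 42949674 3 eng mog cd0q0 cd2q1 pd1 true true false .pnn 0 1 1
    ndB0q0 ndB2q1 pcB1 cut_pm_011 Ext.none :=
  certB1 (fam := true) (s1 := true) (s2 := false) (a := 0) (b := 1) (c := 1) (cn := .pnn) (n1 := ndB0q0) (n2 := ndB2q1) (pc := pcB1) (cut := cut_pm_011) (xt := Ext.none) (P1 := 0) (W1 := 536870912) (P2 := 536870912) (W2 := 536870912) (P3 := 923417968) (W3 := 42949674) (N0 := 3) (En := eng) (mo := mog) (C1 := cd0q0) (C2 := cd2q1) (C3 := pd1)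
    rfl (fun _ => rfl) k0_pm_011

noncomputable def cut_pm_012 : Cut := Cut.of [[⟨0, 0, 0, 67108864⟩, ⟨1, 1, 0, 67108864⟩, ⟨2, 1, 0, 67108864⟩]]

noncomputable def f_pm_012 : ℕ → ℕ → ℕ → ℕ → Bool := onCell 0 536870912 1073741824 536870912 923417968 42949674
    (rowB 3 eng mog cd0q0 cd2q1 pd2 1 true true false .pnp 0 1 2 (qsf 0 536870912 536870912 536870912 2) ndB0q0 ndB2q1 pcB2 cut_pm_012 Ext.none)

def k0_pm_012 : ∃ t, chk3 f_pm_012 t 4 16 1 = true :=
  ⟨(a (a (l 6) (a (l 6) (a (l 6) (a (l 6) (a (l 6) (c (b (b (l 16648448) (l 16602176)) (b (l 16596800) (l 16548472))) (b (b (l 16624752) (l 16618696)) (b (l 16569432) (l 16518960))))))))) (a (c (b (a (b (a (a (l 16623904) (l 16640088)) (l 16643328)) (a (b (l 16650168) (l 16626992)) (b (l 16641064) (l 16618256)))) (b (a (l 16633672) (l 16634608)) (a (l 16578824) (l 16590984)))) (a (b (a (b (l 16603560) (l 16579872)) (l 16583560)) (a (l 16543880) (l 16536416))) (b (b (l 16582664) (l 16559888)) (a (l 16528936) (l 16521576)))))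 (b (b (a (a (c (l 16623720) (l 16610344)) (a (l 16607992) (l 16601952))) (a (l 16572000) (l 16581200))) (a (a (b (l 16623504) (l 16599408)) (b (l 16611888) (l 16588144))) (c (l 16591824) (l 16574392)))) (a (b (a (b (l 16574992) (l 16550280)) (l 16551952)) (a (l 16512656) (l 16502640))) (b (c (l 16545288) (l 16526856)) (a (l 16492776) (l 16483144)))))) (b (c (a (b (l 16599768) (l 16536264)) (b (l 16603496) (l 16541464))) (b (a (a (l 16569760) (l 16579720)) (l 16522296)) (a (b (l 16572992) (l 16550488)) (l 16542264)))) (a (c (b (b (l 16566584) (l 16544528)) (l 16510992)) (b (l 16516168) (l 16469368))) (c (b (l 16541288) (l 16498144)) (b (l 16498080) (l 16452720))))))), by decide +kernel⟩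

def k1_pm_012 : ∃ t, chk3 f_pm_012 t 4 17 1 = true :=
  ⟨(a (a (b (l 6) (l 2)) (a (b (l 6) (b (l 6) (l 2))) (a (b (l 6) (b (l 6) (b (l 6) (l 2)))) (a (b (l 6) (b (l 6) (b (l 6) (b (l 6) (l 2))))) (b (b (c (l 16489520) (l 16447528)) (c (l 16433952) (l 16394688))) (b (c (b (l 16411336) (l 16385496)) (l 16340768)) (c (b (l 16359432) (c (l 16342792) (l 16323344))) (b (l 16320592) (l 16292848))))))))) (a (b (a (c (b (a (l 16495040) (l 16488296)) (a (c (l 16453840) (l 16436512)) (l 16418272))) (b (a (l 16461472) (l 16452176)) (a (l 16401312) (l 16379632)))) (c (b (a (l 16481544) (l 16474912)) (a (l 16433216) (l 16427312))) (b (a (l 16443032) (l 16434120)) (a (l 16392176) (l 16383984))))) (a (c (a (b (b (l 16407328) (l 16381760)) (b (a (l 16357128) (l 16354784)) (c (l 16340072) (l 16319656)))) (b (b (l 16401848) (l 16376640)) (b (l 16351216) (l 16325568)))) (b (a (c (l 16365768) (l 16345640)) (l 16326976)) (a (c (l 16312056) (l 16290480)) (b (l 16307752) (l 16280648))))) (c (b (a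 (l 16383976) (l 16378792)) (a (b (l 16346456) (l 16321168)) (l 16329384))) (b (a (l 16340248) (l 16332776)) (a (l 16287264) (l 16280528)))))) (b (c (a (b (l 16465416) (l 16397928)) (c (l 16443160) (l 16419800))) (a (b (l 16421424) (l 16351408)) (c (l 16395272) (l 16369584)))) (c (a (b (l 16350496) (a (l 16325136) (l 16321200))) (c (l 16331544) (l 16305544))) (a (c (l 16307264) (l 16283504)) (c (l 16278336) (l 16270896))))))), by decide +kernel⟩

def k2_pm_012 : ∃ t, chk3 f_pm_012 t 5 8 1 = true :=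
  ⟨(a (b (a (b (c (a (b (l 16609352) (l 16527832)) (l 16515040)) (a (b (l 16524960) (l 16525384)) (b (l 16530744) (l 16511640)))) (c (a (b (l 16529120) (l 16487440)) (b (l 16519592) (l 16479392))) (a (b (l 16482640) (l 16438720)) (b (l 16470344) (l 16427872))))) (b (c (a (l 16546696) (l 16557968)) (c (l 16496240) (l 16416176))) (c (c (l 16480480) (l 16434224)) (b (l 16455208) (l 16414936))))) (a (c (b (a (b (l 16444784) (l 16401176)) (l 16417264)) (a (l 16334064) (l 16331128))) (b (a (c (l 16384328) (l 16356856)) (l 16362088)) (a (l 16276344) (l 16270608)))) (c (a (b (l 16412936) (l 16329728)) (b (l 16409256) (l 16329000))) (b (a (l 16355360) (l 16349608)) (l 16279808))))) (b (c (a (b (l 16460648) (l 16434904)) (b (l 16437632) (l 16466480))) (a (b (l 16426384) (l 16335752)) (c (l 16413904) (l 16363552)))) (c (a (b (l 16342048) (l 16329176)) (b (l 16400760) (l 16331040))) (a (b (l 16342800) (l 16261680)) (b (l 16336208) (l 16261128)))))), by decide +kernel⟩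

def k3_pm_012 : ∃ t, chk3 f_pm_012 t 8 9 1 = true :=
  ⟨(b (a (l 2) (b (a (l 2) (a (l 2) (a (l 2) (a (l 2) (b (c (l 16334832) (l 16249944)) (l 2)))))) (l 2))) (l 2)), by decide +kernel⟩

def k4_pm_012 : ∃ t, chk3 f_pm_012 t 9 18 1 = true :=
  ⟨(a (b (a (a (a (b (c (b (l 16325696) (l 16278200)) (b (l 16261512) (l 16233448))) (l 2)) (b (c (b (l 16302736) (l 16276392)) (b (l 16258200) (l 16230312))) (c (l 16299416) (l 16188024)))) (c (b (c (l 16297968) (l 16275232)) (a (b (l 16248184) (l 16221608)) (b (l 16246520) (l 16220120)))) (b (c (l 16251632) (l 16227168)) (b (l 16197808) (l 16190680))))) (c (a (b (c (l 16294656) (l 16270808)) (c (l 16243584) (l 16218192))) (b (l 16279112) (l 16248968))) (a (b (l 16233272) (l 16178280)) (b (l 16227264) (l 16173008))))) (a (a (l 2) (b (c (a (l 2) (l 16201128)) (l 16190032)) (l 2))) (a (b (c (b (l 16212560) (a (l 16165600) (l 16164504))) (b (l 16136400) (l 16108184))) (c (b (l 16138328) (l 2)) (l 16065440))) (b (c (c (l 16189944) (l 16161896))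 (l 16117784)) (c (b (l 16136560) (l 16109992)) (l 16124536)))))) (b (a (c (a (b (l 16275584) (l 16225192)) (b (l 16272368) (l 16222696))) (c (a (l 16209272) (l 16204928)) (l 16160936))) (c (a (l 16224240) (l 16222288)) (a (l 16164792) (l 16161072)))) (a (c (b (a (l 16173968) (l 16172200)) (a (l 16142920) (l 16120896))) (b (a (l 16113576) (l 16109808)) (a (l 16058144) (l 16055112)))) (c (b (l 16170344) (a (l 16120240) (l 16120080))) (b (l 16105200) (l 16051608)))))), by decide +kernel⟩

def k5_pm_012 : ∃ t, chk3 f_pm_012 t 9 19 1 = true :=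
  ⟨(a (a (l 2) (b (b (a (l 2) (c (l 16111736) (l 16004544))) (l 2)) (l 2))) (b (a (c (a (b (c (l 16085200) (l 16052768)) (l 16036552)) (b (l 16068800) (c (l 16033336) (l 15998216)))) (a (b (l 16001800) (l 15944560)) (b (l 15999496) (l 15942984)))) (c (b (a (l 16068864) (l 16069424)) (a (l 16016720) (l 16017992))) (b (l 15997096) (l 15941688)))) (a (b (a (l 2) (c (l 15962368) (l 15885600))) (l 2)) (c (b (a (l 15984816) (l 15965824)) (a (l 15910256) (l 15912936))) (b (a (l 15885288) (l 15885616)) (a (l 15827784) (l 15828832))))))), by decide +kernel⟩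

def k6_pm_012 : ∃ t, chk3 f_pm_012 t 5 9 1 = true :=
  ⟨(a (b (a (b (c (a (l 16225744) (l 16220464)) (a (l 16167376) (l 16154088))) (c (a (b (l 16169784) (l 16120992)) (b (l 16171904) (l 16124544))) (a (b (l 16101424) (l 16049296)) (l 16075624)))) (b (c (l 16244040) (l 16174264)) (c (a (l 16152744) (l 16157832)) (l 16063528)))) (a (b (a (c (b (l 16071408) (l 16021048)) (b (l 15996256) (l 15942312))) (c (b (l 16076392) (l 16027456)) (l 15972488))) (a (c (b (l 15969944) (l 15918120)) (b (l 15887488) (l 15831808))) (c (b (l 15977768) (l 15927352)) (l 15865792)))) (b (a (c (l 16059304) (l 15977528)) (c (l 16067256) (l 15983600))) (a (c (l 15962784) (l 15873776)) (c (l 15973576) (l 15882792)))))) (b (a (c (b (l 16249728) (l 16166800)) (b (l 16176504) (l 16087440))) (c (b (l 16257568) (l 16180544)) (b (l 16181976) (l 16098920)))) (c (a (b (l 16101528) (l 16012128)) (b (l 16100120) (l 16016480))) (a (a (l 15963248) (l 15951712)) (a (l 15961960) (l 15972888)))))), by decide +kernel⟩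

def k7_pm_012 : ∃ t, chk3 f_pm_012 t 3 4 1 = true :=
  ⟨(c (b (a (a (b (a (a (l 16352192) (l 16324968)) (a (l 16298112) (l 16272024))) (a (l 16282632) (l 16365384))) (b (a (a (l 16246840) (l 16222696)) (a (l 16199736) (l 16178064))) (a (l 16359912) (l 16348752)))) (a (b (a (b (l 16194056) (l 16290808)) (b (l 16158528) (l 16254856))) (a (l 16331008) (l 16304032))) (b (a (b (l 16123760) (l 16219640)) (b (l 16066736) (l 16183096))) (a (l 16268440) (l 16231488))))) (a (a (b (a (b (l 16266856) (l 16195832)) (l 16138408)) (a (l 16103928) (l 16106432))) (b (a (l 16250624) (l 16252528)) (a (l 16126120) (l 16140584)))) (a (b (l 16243072) (l 16150208)) (b (l 16155672) (l 16151592))))) (b (a (a (b (a (b (l 16456528) (l 16396424)) (l 16328912)) (a (b (l 16331784) (l 16262848)) (l 16262072))) (b (a (l 16310664) (l 16287328)) (a (l 16290656) (l 16280152)))) (a (b (a (l 16229152) (l 16171592)) (a (l 16263672) (l 16241472))) (b (a (l 16155392) (l 16094112)) (a (l 16218704) (l 16198064)))))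 (a (a (b (a (l 16172864) (l 16162632)) (a (l 15990512) (l 16013592))) (b (a (l 16169824) (l 16172160)) (a (l 16033328) (l 16048376)))) (a (b (a (l 16168576) (l 16159240)) (a (l 16057624) (l 16061192))) (b (l 16146616) (l 15942400)))))), by decide +kernel⟩

def k8_pm_012 : ∃ t, chk3 f_pm_012 t 4 5 1 = true :=
  ⟨(b (a (l 2) (b (b (b (a (l 2) (a (l 2) (c (a (l 2) (l 15859384)) (l 15770288)))) (l 2)) (l 2)) (l 2))) (l 2)), by decide +kernel⟩

def k9_pm_012 : ∃ t, chk3 f_pm_012 t 5 5 1 = true :=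
  ⟨(b (a (b (b (a (a (c (b (a (l 15863344) (l 15867984)) (a (l 15809864) (l 15815192))) (b (l 15775288) (l 15717952))) (c (b (l 15876240) (l 15824488)) (b (l 15783496) (l 15727616)))) (c (a (l 15863416) (l 15877016)) (a (l 15766616) (l 15778568)))) (a (b (a (c (l 15779832) (l 15659864)) (c (l 15772224) (l 15670960))) (a (l 2) (b (c (l 15732816) (l 15627976)) (c (b (l 15713368) (l 15700424)) (l 15662112))))) (b (a (c (l 15787168) (l 15684064)) (c (l 15802832) (l 15698208))) (b (a (c (l 15748760) (l 15642168)) (l 15733552)) (c (a (b (l 15729776) (l 15717136)) (l 15740704)) (a (l 15614096) (l 15630048))))))) (a (a (l 2) (b (c (a (l 2) (l 15642600)) (l 15525584)) (l 2))) (a (b (c (l 15761264) (l 15542280)) (c (l 15545824) (l 15424856))) (c (b (l 15675488) (l 15567792)) (b (l 15560088) (l 15445560)))))) (b (b (a (c (a (l 15891312) (l 15906256)) (l 15798488)) (c (l 15929800) (l 15827880))) (b (a (c (l 15827744) (l 15721432)) (l 15978184)) (a (b (a (l 15729464) (l 15747128)) (c (b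 (l 15774056) (l 15762192)) (l 15655992))) (c (b (l 15829056) (l 15806568)) (l 15705960))))) (a (c (a (b (l 15695296) (l 15590528)) (b (l 15715760) (l 15613928))) (a (b (l 15578928) (l 15467360)) (l 15544800))) (c (a (l 15687744) (l 15710784)) (l 15557416))))) (a (a (l 2) (b (a (l 2) (c (b (l 15457536) (l 2)) (l 15436728))) (l 2))) (a (a (b (c (b (l 15483120) (l 15373200)) (b (l 15353056) (l 15236168))) (l 2)) (b (c (b (l 15509408) (l 15402296)) (l 15405960)) (c (l 15258096) (l 15088912)))) (b (c (a (l 15484544) (l 15513384)) (a (l 15350040) (l 15378768))) (c (a (l 15312928) (l 15305472)) (a (l 15122448) (l 15156864))))))), by decide +kernel⟩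

def k10_pm_012 : ∃ t, chk3 f_pm_012 t 3 5 1 = true :=
  ⟨(a (b (a (b (b (a (l 15933632) (l 15945056)) (b (a (l 15847312) (l 15884120)) (a (c (l 15920608) (l 15745464)) (b (l 15853056) (l 15832232))))) (a (c (l 15746296) (l 15625384)) (c (l 15792968) (l 15672720)))) (b (b (a (l 15974040) (l 15998224)) (b (a (l 15917600) (l 15946352)) (a (l 15879136) (l 15910864)))) (a (l 15820392) (l 15817832)))) (a (a (b (c (a (l 15542672) (l 15572264)) (l 15423272)) (c (a (l 15340432) (l 15375712)) (l 15230968))) (b (c (l 15616008) (l 15482528)) (c (l 15428032) (l 15280856)))) (a (b (l 15638376) (c (l 15494712) (l 15349064))) (b (l 15658408) (l 15487176))))) (b (a (b (b (a (l 16016464) (l 16028816)) (b (l 15978208) (a (l 15936752) (l 15956856)))) (a (l 15851472) (l 15879400))) (b (b (a (l 16040128) (l 16053072)) (b (l 16012064) (a (l 15976024) (l 15996968)))) (a (l 15906472) (l 15935416)))) (a (c (a (l 15691416) (l 15736200)) (a (l 15557040) (l 15604904))) (b (a (l 15784216) (l 15825800))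 (a (l 15649392) (l 15703336)))))), by decide +kernel⟩

def k11_pm_012 : ∃ t, chk3 f_pm_012 t 1 3 1 = true :=
  ⟨(a (a (l 2) (b (a (l 2) (b (a (l 2) (b (c (a (l 2) (l 15087784)) (l 15114760)) (l 2))) (l 2))) (l 2))) (a (b (a (b (a (b (c (a (l 15128160) (l 15168960)) (l 92976005895)) (c (l 14971880) (l 14752704))) (b (c (l 15229664) (l 15068296)) (c (l 15021464) (l 14845480)))) (a (l 2) (b (c (l 14804264) (l 14613264)) (l 2)))) (c (b (a (b (l 15307600) (l 15110400)) (b (l 15381192) (l 15195152))) (a (b (l 14903664) (l 14688192)) (b (l 14999320) (l 103713030023)))) (b (a (b (l 15147968) (l 14936272)) (l 15125344)) (a (b (l 14714584) (l 14483744)) (b (l 14812928) (l 14594416)))))) (a (l 2) (b (a (l 2) (b (b (c (l 14640392) (l 14428816)) (l 2)) (l 2))) (l 2)))) (b (a (c (b (a (l 15363440) (l 15442752)) (a (b (l 15091416) (a (l 14876544) (l 14935120))) (b (l 15183544) (l 15022128)))) (b (a (l 15202192) (l 15275016)) (a (b (l 14908992) (a (l 14679560) (l 14743544))) (b (l 15008224)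 (l 14840048))))) (b (b (a (l 15503136) (l 15571616)) (a (b (l 15388200) (l 15312496)) (l 15436368))) (a (b (l 15200280) (l 15049488)) (b (l 15298664) (l 15159240))))) (a (b (a (b (c (l 14730640) (l 14530192)) (c (l 14559072) (l 14355496))) (b (c (l 14861640) (l 14675296)) (c (l 14702776) (l 14514512)))) (b (a (l 2) (c (l 14547408) (l 14359896))) (l 2))) (b (a (b (l 14962144) (c (l 14835440) (l 14662120))) (b (l 15019848) (l 14882256))) (a (b (c (l 14690992) (l 14519368)) (l 227192948471)) (b (l 14769328) (l 14787920)))))))), by decide +kernel⟩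

theorem s12_pm_012 : ∃ t, chk3 f_pm_012 t 2 5 1 = true := ex3_a k8_pm_012 k9_pm_012

theorem s13_pm_012 : ∃ t, chk3 f_pm_012 t 1 5 1 = true := ex3_a s12_pm_012 k10_pm_012

theorem s14_pm_012 : ∃ t, chk3 f_pm_012 t 9 9 1 = true := ex3_b k4_pm_012 k5_pm_012

theorem s15_pm_012 : ∃ t, chk3 f_pm_012 t 4 9 1 = true := ex3_a k3_pm_012 s14_pm_012

theorem s16_pm_012 : ∃ t, chk3 f_pm_012 t 2 9 1 = true := ex3_a s15_pm_012 k6_pm_012

theorem s17_pm_012 : ∃ t, chk3 f_pm_012 t 4 8 1 = true := ex3_b k0_pm_012 k1_pm_012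

theorem s18_pm_012 : ∃ t, chk3 f_pm_012 t 2 8 1 = true := ex3_a s17_pm_012 k2_pm_012

theorem s19_pm_012 : ∃ t, chk3 f_pm_012 t 2 4 1 = true := ex3_b s18_pm_012 s16_pm_012

theorem s20_pm_012 : ∃ t, chk3 f_pm_012 t 1 4 1 = true := ex3_a s19_pm_012 k7_pm_012

theorem s21_pm_012 : ∃ t, chk3 f_pm_012 t 1 2 1 = true := ex3_b s20_pm_012 s13_pm_012

theorem s22_pm_012 : ∃ t, chk3 f_pm_012 t 1 1 1 = true := ex3_b s21_pm_012 k11_pm_012

theorem c_pm_012 : CertB 0 536870912 536870912 536870912 923417968 42949674 3 eng mog cd0q0 cd2q1 pd2 true true false .pnp 0 1 2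
    ndB0q0 ndB2q1 pcB2 cut_pm_012 Ext.none :=
  certB1 (fam := true) (s1 := true) (s2 := false) (a := 0) (b := 1) (c := 2) (cn := .pnp) (n1 := ndB0q0) (n2 := ndB2q1) (pc := pcB2) (cut := cut_pm_012) (xt := Ext.none) (P1 := 0) (W1 := 536870912) (P2 := 536870912) (W2 := 536870912) (P3 := 923417968) (W3 := 42949674) (N0 := 3) (En := eng) (mo := mog) (C1 := cd0q0) (C2 := cd2q1) (C3 := pd2)
    rfl (fun _ => rfl) s22_pm_012

noncomputable def f_pm_022 : ℕ → ℕ → ℕ → ℕ → Bool := onCell 0 536870912 1073741824 536870912 923417968 42949674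
    (rowB 3 eng mog cd0q0 cd2q2 pd2 1 true true false .pp 0 2 2 (qsf 0 536870912 1073741824 536870912 2) ndB0q0 ndB2q2 pcB2 Cut.none Ext.none)

def k0_pm_022 : ∃ t, chk3 f_pm_022 t 2 8 1 = true :=
  ⟨(l 3), by decide +kernel⟩

def k1_pm_022 : ∃ t, chk3 f_pm_022 t 8 36 1 = true :=
  ⟨(a (b (b (l 3) (b (l 3) (b (l 3) (a (a (c (c (l 16465704) (l 16438176)) (c (l 16409288) (l 16373808))) (c (l 131700610199) (l 16469960))) (l 3))))) (a (c (a (c (a (b (l 16456600) (l 16435144)) (b (l 16479352) (l 16457896))) (b (a (l 16427144) (l 16451664)) (a (l 16403976) (l 16428496)))) (c (a (l 16491352) (l 16514056)) (a (l 16464608) (l 16489128)))) (a (c (b (a (l 16417224) (l 16422616)) (a (l 16371296) (l 16397656))) (b (a (l 16363920) (l 16392184)) (a (l 16337096) (l 16365352)))) (c (a (l 16436520) (l 16462928)) (b (l 16434696) (l 16407856))))) (a (c (c (b (l 16558760) (l 16537304)) (b (l 16537456) (l 16514288))) (b (a (l 16489696) (l 16517064)) (a (l 16463808) (l 16491184)))) (c (b (l 16553208)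 (l 16530928)) (c (l 16492272) (l 197198755831)))))) (b (l 3) (a (c (c (l 16569856) (l 16542272)) (b (l 242832930919) (l 16508648))) (a (c (l 189682719991) (l 229411195367)) (b (c (l 218136823239) (l 276655754263)) (c (l 16549168) (l 16562504))))))), by decide +kernel⟩

def k2_pm_022 : ∃ t, chk3 f_pm_022 t 8 37 1 = true :=
  ⟨(b (a (a (c (a (c (b (a (l 16413768) (l 16436520)) (a (l 16392472) (l 16415216))) (b (a (l 16380896) (l 16405416)) (l 16349176))) (c (a (l 16448592) (l 16471296)) (l 16441832))) (a (c (b (a (l 16346424) (l 16372776)) (l 16334800)) (b (l 16303488) (l 16297792))) (c (l 16410440) (l 16378216)))) (a (c (c (l 16505272) (l 16479688)) (c (l 16452760) (l 16424488))) (c (b (l 16550664) (l 16528528)) (b (l 16506344) (l 16480608))))) (c (a (b (l 16536480) (l 16514376)) (c (l 16514256) (l 16525168))) (a (b (l 16482856) (l 16457144)) (c (l 16515792) (l 16549048))))) (a (a (c (a (c (b (a (l 16371232) (l 16393976)) (l 16382376)) (b (l 16347208) (l 16324328))) (c (l 16417456)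 (l 16384792))) (a (c (b (l 16310072) (l 16285416)) (b (l 16271200) (l 16244688))) (c (l 16350480) (l 16314512)))) (a (c (c (l 16462784) (l 16433792)) (l 16418912)) (c (c (l 16507896) (l 16482616)) (l 16463096)))) (a (c (c (l 16491008) (l 16471336)) (c (l 16450512) (l 16428520))) (a (l 16503960) (l 16511152))))), by decide +kernel⟩

def k3_pm_022 : ∃ t, chk3 f_pm_022 t 18 36 1 = true :=
  ⟨(b (l 3) (a (a (b (b (l 3) (a (c (l 16532736) (l 16537240)) (b (l 3) (c (l 242832885639) (l 277192626471))))) (c (c (a (l 16538448) (l 16518976)) (l 16510216)) (c (l 16512992) (l 16495152)))) (b (b (l 3) (b (l 3) (a (c (c (a (l 16498408) (c (l 315176203239) (l 309270610887))) (a (l 16497280) (l 314102447351))) (a (c (l 16496360) (l 16495648)) (a (c (l 16487432) (l 315847276919)) (c (b (l 450467656455) (l 16482280)) (b (a (l 421073973079) (l 772590196247)) (l 294238212151)))))) (a (c (c (l 597570281719) (l 631930014087)) (c (l 663605392199) (l 693670157847))) (l 1))))) (a (c (c (b (c (l 16497152)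 (l 16496664)) (l 16501536)) (b (a (l 16501480) (l 16490576)) (l 16501656))) (b (a (l 16501336) (b (c (l 16487776) (l 16486592)) (l 16490776))) (l 16481376))) (a (c (c (b (b (l 468184396663) (l 307123120247)) (l 16486592)) (b (l 442951461623) (l 16485320))) (b (b (a (c (l 416107905271) (l 398928031399)) (l 602938977367)) (c (l 16479200) (l 285111394311))) (c (l 16484256) (l 16483416)))) (b (b (l 1) (c (l 565358034279) (l 605086449575))) (c (c (l 444562068247) (l 428455926327)) (c (l 405370467639) (l 384969367495)))))))) (a (b (l 1) (a (a (a (b (l 1) (c (l 562136779911) (l 606160183687))) (l 1)) (l 1)) (l 1))) (l 1)))), by decide +kernel⟩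

def k4_pm_022 : ∃ t, chk3 f_pm_022 t 18 37 1 = true :=
  ⟨(a (b (a (c (b (l 16518824) (l 16549592)) (c (l 16532312) (l 16517648))) (b (b (c (a (l 16506672) (c (l 16486304) (l 16485560))) (c (l 16475936) (l 16476664))) (c (a (l 16511760) (l 16491104)) (l 16462504))) (c (c (l 16507880) (l 16510536)) (l 16494264)))) (a (c (l 16522248) (l 16542040)) (c (b (l 16519368) (l 16529528)) (l 16494768)))) (b (a (b (b (a (c (a (b (l 469258112167) (l 320544873863)) (l 560526151383)) (a (l 410739173015) (l 608844521767))) (l 1)) (a (c (c (l 297459410967) (l 305512468807)) (c (l 16426104) (l 16466872))) (c (l 559452409511) (l 611528853703)))) (c (a (c (l 16478248) (l 16478144)) (c (a (l 413423518599) (l 472479308951)) (l 439730189463))) (a (l 16457528) (c (l 307122995991) (l 311417977911))))) (b (l 1) (a (c (b (l 1) (l 558915497063)) (l 608844471655)) (l 1)))) (a (c (b (c (l 16436000) (l 16478904)) (l 16468032)) (c (l 16424160) (l 16447856))) (c (b (a (b (l 468184323927) (l 314102372007))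 (l 557841729495)) (c (a (l 16457952) (l 426845232967)) (l 251288421751))) (b (a (l 394633019303) (l 605086355767)) (c (l 228202966439) (l 16425752))))))), by decide +kernel⟩

def k5_pm_022 : ∃ t, chk3 f_pm_022 t 19 18 1 = true :=
  ⟨(b (l 1) (a (a (b (l 1) (b (l 1) (c (l 558915472279) (l 605086311751)))) (l 1)) (l 1))), by decide +kernel⟩

def k6_pm_022 : ∃ t, chk3 f_pm_022 t 4 38 1 = true :=
  ⟨(c (a (a (a (b (a (b (c (l 16340240) (l 16301488)) (c (a (l 16307880) (l 16330552)) (l 16278792))) (c (l 16364640) (l 16339080))) (a (c (a (l 16301000) (l 16302504)) (a (l 16235936) (l 16260192))) (c (l 16336168) (l 16296560)))) (a (b (l 16425448) (c (l 16381024) (l 16345120))) (b (l 16451440) (l 16430832)))) (a (b (c (l 16469720) (l 16446656)) (b (l 16405000) (l 16406640))) (b (l 16549720) (l 16486224)))) (a (a (b (l 16480384) (l 16478376)) (a (b (l 16483920) (l 16525632)) (b (c (l 16442080) (l 16444392)) (l 16444016)))) (a (b (a (b (a (l 427382090471) (l 554083593991)) (a (l 16438768)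 (l 424697716183))) (b (l 1) (l 553009812375))) (a (b (l 16439864) (l 16451104)) (b (l 456373071991) (c (l 329134665911) (l 16410288))))) (b (l 1) (a (b (l 1) (l 588443257047)) (l 1)))))) (a (a (a (b (a (c (b (l 16260816) (l 16236352)) (l 16184048)) (c (l 16301216) (l 16261520))) (a (c (l 16202696) (l 16155184)) (c (l 16254944) (l 16211304)))) (a (b (l 16357336) (l 16287744)) (b (l 16391024) (l 16342072)))) (b (a (c (l 16443232) (l 16438480)) (l 16495272)) (a (c (l 16437728) (l 16408176)) (c (l 16477120) (l 16476512))))) (a (a (b (l 16483552) (l 16531600)) (b (c (a (l 16514408) (l 16468088)) (l 16412600)) (l 16418576))) (a (b (a (b (l 436508897799) (l 187400710007)) (l 602938838727)) (b (a (l 16444032) (l 316249686439)) (a (l 16459496) (l 16390120)))) (b (l 1) (a (l 628708545639) (l 1))))))), by decide +kernel⟩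

def k7_pm_022 : ∃ t, chk3 f_pm_022 t 4 39 1 = true :=
  ⟨(a (a (c (a (c (b (a (a (l 16244480) (l 16266944)) (l 16300624)) (a (l 16220664) (l 16265552))) (b (a (l 16229640) (l 16257168)) (a (l 16169752) (l 16218216)))) (c (a (l 16327960) (l 16372608)) (a (l 16286216) (l 16334584)))) (a (c (a (b (l 16159248) (l 16116240)) (l 16184704)) (a (b (l 16107464) (l 16060128)) (l 16118848))) (a (b (l 16242072) (l 16196824)) (b (l 16296320) (l 16251040))))) (a (b (c (a (l 16418544) (l 16464376)) (c (l 16393936) (l 16360056))) (c (c (l 16421400) (l 16387080)) (l 16269008))) (c (a (l 16386400) (l 16494024)) (a (l 16329552) (l 16402840))))) (a (a (c (l 16496720) (l 16458504)) (c (c (l 16460152) (l 16453840)) (l 16435720))) (a (b (c (c (l 16379032) (l 16447160)) (l 16351248)) (c (l 16398320) (l 16440568))) (b (c (a (c (l 442951270807) (l 345240693543)) (b (l 1) (l 522944964231))) (c (l 425234489351) (l 393559097447))) (c (a (c (l 16399928) (l 16404360)) (b (l 489658986599) (l 391948485527)))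 (c (l 183105560439) (l 16327560))))))), by decide +kernel⟩

def k8_pm_022 : ∃ t, chk3 f_pm_022 t 5 9 1 = true :=
  ⟨(b (l 1) (a (b (l 1) (b (l 1) (a (a (c (a (b (l 1) (l 546030370967)) (l 1)) (l 544956556439)) (l 1)) (l 1)))) (l 1))), by decide +kernel⟩

def k9_pm_022 : ∃ t, chk3 f_pm_022 t 3 4 1 = true :=
  ⟨(l 1), by decide +kernel⟩

def k10_pm_022 : ∃ t, chk3 f_pm_022 t 8 20 1 = true :=
  ⟨(a (b (c (a (b (a (c (l 16186192) (l 16131376)) (l 16190032)) (a (c (l 16152408) (l 16093624)) (l 16190952))) (b (a (l 16252360) (l 16298824)) (a (l 16216552) (l 16263008)))) (c (a (b (l 16078760) (a (l 16031752) (l 16083792))) (a (l 16157064) (l 16209248))) (a (c (l 16012408) (l 15981240)) (l 16151080)))) (b (c (a (a (c (l 16119608) (l 16056712)) (c (l 16164400) (l 16105024))) (a (l 16181656) (l 16228096))) (a (c (a (l 15990456) (l 16042432)) (l 15948680)) (c (l 16120616) (l 16060696)))) (c (a (b (c (l 16118312) (l 16053888)) (b (a (c (l 16085184) (l 16017096)) (l 16098104)) (a (c (b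 (l 16080504) (l 16076784)) (l 16008800)) (c (l 16122992) (l 16057056))))) (b (l 16179560) (b (l 16167840) (a (l 16137000) (l 16183432))))) (a (b (c (l 15985952) (l 15914528)) (b (c (l 15971208) (l 15897592)) (a (c (l 15935576) (l 15858576)) (l 15972256)))) (b (l 16058656) (b (l 16021808) (c (l 16065536) (l 15998112)))))))) (a (b (c (c (a (l 16348064) (l 16392080)) (l 16350736)) (c (l 16287088) (l 16242096))) (b (c (a (l 16274312) (l 16320192)) (l 16198864)) (c (b (l 16271960) (b (l 16260248) (l 16252640))) (b (l 16166424) (b (l 16150520) (l 16139968)))))) (b (c (c (l 16394280) (l 16382320)) (c (l 16389288) (l 16352272))) (b (c (l 16367144) (l 16305016)) (c (b (l 16362824) (b (l 16351144) (l 16343552))) (b (l 16272568) (l 16251344))))))), by decide +kernel⟩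

def k11_pm_022 : ∃ t, chk3 f_pm_022 t 8 21 1 = true :=
  ⟨(a (c (a (b (a (c (b (l 16056376) (l 16020640)) (b (l 15984952) (l 15946456))) (c (l 16083112) (l 16013768))) (c (a (b (l 15985592) (l 15951248)) (l 16012872)) (a (b (l 15908728) (l 15871752)) (l 15938112)))) (b (c (l 16150088) (l 16080880)) (a (l 16002488) (l 16068560)))) (c (a (b (a (b (l 15909600) (l 15868168)) (l 15940552)) (a (l 15849520) (l 15859120))) (b (l 16008000) (l 15957744))) (a (b (a (b (l 15830328) (l 15785784)) (l 15863456)) (a (l 15720632) (l 15775888))) (b (l 15926224) (l 15859312))))) (c (b (c (a (l 16238784) (l 16326064)) (a (l 16182160) (l 16276744))) (a (a (l 16114640) (l 16160440)) (l 16249352))) (b (c (a (l 16122152) (l 16224320)) (a (l 16058776) (l 16168824))) (a (l 16045160) (l 16111760))))), by decide +kernel⟩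

def k12_pm_022 : ∃ t, chk3 f_pm_022 t 9 10 1 = true :=
  ⟨(b (b (a (c (b (l 16420312) (l 16386128)) (c (l 16326672) (l 16301016))) (a (c (c (l 16434928) (l 16430824)) (l 16395440)) (c (b (c (l 16375592) (l 16403944)) (l 16375616)) (c (l 16340664) (l 16373344))))) (a (b (a (c (l 16429256) (l 16408072)) (l 16409080)) (b (c (l 16326320) (l 16257872)) (c (c (l 16327808) (l 16293200)) (a (l 16354480) (l 16411440))))) (b (c (b (l 16299848) (l 16328360)) (l 16347720)) (c (b (l 16335328) (b (l 16339744) (b (l 16320320) (l 16342888)))) (b (l 16387760) (l 16347616)))))) (b (a (c (a (c (l 16390152) (l 16368856)) (l 16412536)) (a (l 16132352) (l 16315272))) (c (c (l 16325696) (l 16379296)) (l 16369832))) (a (c (c (a (l 16340496) (l 16422480)) (l 16169664)) (c (l 16122144) (l 16092560))) (c (l 16374504) (l 16274896))))), by decide +kernel⟩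

def k13_pm_022 : ∃ t, chk3 f_pm_022 t 4 11 1 = true :=
  ⟨(a (a (b (c (a (b (c (a (l 15901040) (l 15945392)) (a (l 15817720) (l 15865472))) (c (a (l 15836528) (l 15880672)) (a (l 15748336) (l 15795848)))) (b (c (l 16011936) (l 15937312)) (c (l 15946960) (l 15867376)))) (a (b (a (c (l 15729656) (l 15636856)) (c (l 15780952) (l 15691840))) (a (c (l 15655032) (l 15556624)) (c (l 15706056) (l 15611304)))) (c (b (l 15858296) (l 15783048)) (b (l 15774912) (l 15693984))))) (c (a (c (b (l 15796728) (l 15737656)) (b (a (l 15681984) (l 15729240)) (l 15642112))) (b (c (l 15884720) (l 15800432)) (c (l 15825208) (l 15736464)))) (c (a (b (l 15650944) (l 15540792)) (b (l 15711024) (l 15642232))) (a (b (l 15507032) (l 15433704)) (b (l 15616528) (l 15542544)))))) (b (c (a (b (l 16067056) (l 15999360)) (b (l 16157736) (l 16089864))) (a (b (l 15924096) (l 15845656)) (b (l 16029800) (l 15951088)))) (c (a (b (l 15934480) (l 15872416)) (l 16045672)) (a (a (l 15686784) (l 15739584)) (l 15881032)))))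 (a (a (b (c (b (l 16246328) (l 16178400)) (b (l 16132880) (l 16054040))) (c (l 16081600) (l 15941720))) (c (b (b (l 16331776) (l 16263928)) (l 16167144)) (b (b (l 16232160) (l 16153328)) (l 16040912)))) (b (c (b (l 16346472) (l 16279040)) (a (l 16077216) (l 16281344))) (c (a (l 16185760) (l 16283216)) (b (l 16154776) (l 16145208)))))), by decide +kernel⟩

def k14_pm_022 : ∃ t, chk3 f_pm_022 t 10 10 1 = true :=
  ⟨(b (a (b (b (a (c (c (a (l 491269541863) (l 563747062359)) (l 505765063079)) (a (l 333429394599) (l 562136443335))) (l 1)) (a (c (c (a (l 16356384) (l 405370154343)) (l 214780879191)) (a (l 16375272) (l 16287152))) (c (a (l 598643631143) (l 1)) (l 602938532439)))) (b (a (c (c (l 16332600) (l 16363824)) (l 16339248)) (c (c (a (l 315712674455) (l 474089540391)) (l 362957304551)) (c (l 231423754263) (l 199748357751)))) (c (a (b (l 16371352) (b (l 16376736) (l 16296248))) (b (a (l 16315120) (l 345777406951)) (b (a (l 16320944) (c (l 16279608) (l 16287552))) (c (a (l 16318232)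 (a (l 16291584) (b (a (l 16276784) (l 351682984071)) (l 16274104)))) (a (l 16331344) (l 246456306599)))))) (a (b (l 16402512) (b (l 16412856) (l 16419704))) (b (l 161630563287) (b (l 16240064) (a (l 16353480) (l 16287960)))))))) (a (a (b (l 1) (b (l 1) (b (l 1) (b (l 1) (b (l 1) (c (l 462278355623) (l 473552594007))))))) (l 1)) (l 1))) (a (a (c (b (c (l 16350416) (l 16394096)) (l 16339464)) (b (l 16347480) (l 16445200))) (b (c (c (a (l 16340752) (b (l 16295288) (l 16316552))) (b (l 16284968) (l 16351560))) (c (l 16251864) (l 16291696))) (c (l 16249592) (l 16341728)))) (b (b (a (c (a (c (b (l 350609213671) (l 231960724407)) (l 360809742231)) (l 547640866183)) (a (l 208875201783) (l 528850325639))) (l 1)) (a (c (a (c (l 16281640) (l 16294264)) (c (l 302290773159) (l 358125360839))) (a (l 16315776) (l 207801434983))) (c (a (l 542808918023) (l 1)) (l 527776514007)))) (a (c (c (b (l 16285808) (l 16307024)) (l 16292080)) (b (l 16283336) (l 16356128))) (c (b (c (l 406443732247) (l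 358125344551)) (c (l 275984074439) (l 16207632))) (c (b (l 226054937159) (l 16262496)) (l 300143089095))))))), by decide +kernel⟩

def k15_pm_022 : ∃ t, chk3 f_pm_022 t 11 10 1 = true :=
  ⟨(b (l 1) (a (b (l 1) (a (c (b (l 1) (l 536903271575)) (l 511670306231)) (l 1))) (l 1))), by decide +kernel⟩

def k16_pm_022 : ∃ t, chk3 f_pm_022 t 5 11 1 = true :=
  ⟨(a (a (b (c (c (l 16241104) (l 16298984)) (b (l 16353912) (l 16415272))) (c (l 16323136) (b (l 16340728) (l 16263760)))) (b (a (c (b (l 16286536) (l 16328808)) (l 16241176)) (b (c (c (l 16250024) (l 16288120)) (l 16233056)) (c (l 16303832) (l 16314632)))) (c (b (l 16253136) (l 16375440)) (l 16275432)))) (b (a (b (a (c (c (a (l 358125294919) (l 415570455191)) (l 217464981559)) (c (l 182568303767) (l 307122363079))) (c (l 531534573655) (l 501469714599))) (a (c (c (l 16246864) (l 16264512)) (l 16252336)) (c (b (l 357051421719) (l 165925314615)) (l 163240870087)))) (b (l 1) (a (c (l 523481360695) (l 492879737895)) (l 1)))) (b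 (a (c (c (l 16131232) (l 16173688)) (l 16104760)) (a (c (c (l 366178229799) (l 16146976)) (l 160556468631)) (c (l 516501996791) (l 485363504967)))) (a (c (l 16165736) (l 16227288)) (a (c (l 16211416) (l 16252168)) (c (l 222296581047) (l 16083856))))))), by decide +kernel⟩

def k17_pm_022 : ∃ t, chk3 f_pm_022 t 3 5 1 = true :=
  ⟨(b (l 1) (a (a (b (l 1) (a (b (l 1) (a (c (l 506838280535) (l 335576185863)) (l 1))) (l 1))) (l 1)) (l 1))), by decide +kernel⟩

def k18_pm_022 : ∃ t, chk3 f_pm_022 t 4 6 1 = true :=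
  ⟨(a (b (a (c (b (a (c (b (l 15681344) (l 15627800)) (b (l 15581680) (l 15524264))) (b (l 15722688) (l 15666704))) (a (b (c (l 15577016) (l 15469880)) (l 15474664)) (b (l 15613568) (l 15563288)))) (b (a (b (c (l 15475864) (l 15363904)) (c (l 15414208) (l 15297632))) (b (l 15546048) (l 15460432))) (a (b (c (l 15355832) (l 15234888)) (l 15260080)) (b (l 15399144) (l 15341200))))) (c (b (a (l 15768864) (l 15874112)) (a (b (l 15703088) (l 15652264)) (l 15766032))) (b (a (b (l 15630112) (l 15564864)) (l 15701112)) (a (b (l 15502904) (l 15444248)) (l 15576096))))) (a (c (b (a (b (l 15427912) (l 15384040)) (b (l 15515856) (l 15471272))) (a (b (l 15343064) (l 15304968)) (l 15409736))) (b (a (b (l 15185416) (l 15135128)) (b (l 15286624) (l 15235392))) (a (b (l 15088256) (l 15044800)) (l 15164848)))) (c (b (a (l 15581280) (l 15669008)) (a (l 15496464) (l 15583024))) (b (a (l 15362432) (l 15464048)) (a (l 15264920) (l 15364976)))))) (b (a (b (c (a (l 15962056) (l 16047432)) (a (l 15803120)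 (l 15901952))) (c (a (l 15853384) (l 15938384)) (a (l 15677240) (l 15775464)))) (c (b (b (l 16197000) (l 16139856)) (l 16058960)) (b (a (l 15996680) (l 16086272)) (l 15915224)))) (a (c (b (l 15798056) (l 15710688)) (b (l 15613136) (l 15491192))) (c (b (l 15960144) (l 15871672)) (b (l 15800432) (l 15697752)))))), by decide +kernel⟩

def k19_pm_022 : ∃ t, chk3 f_pm_022 t 4 7 1 = true :=
  ⟨(a (b (a (c (b (a (l 15253248) (l 15337640)) (a (l 15194376) (l 15276920))) (b (a (l 15027976) (l 15082568)) (a (l 14919688) (l 15013792)))) (c (b (a (l 15422856) (l 15508072)) (l 15402288)) (b (a (l 15180648) (l 15278912)) (l 15178720)))) (a (b (c (a (l 15147032) (l 15227560)) (a (l 14867120) (l 14958552))) (c (a (b (l 15119096) (a (l 15107736) (l 15123352))) (l 15189568)) (a (b (l 14836768) (b (l 14824520) (l 14883024))) (l 14916904)))) (c (b (l 15350200) (l 15309216)) (b (l 15098896) (l 15116184))))) (b (c (a (b (l 15634072) (l 15568192)) (b (l 15793520) (l 15725696))) (a (b (l 15423824)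 (l 15348152)) (b (l 15607192) (l 15528800)))) (a (c (b (l 15513040) (l 15468624)) (b (l 15285192) (l 15234976))) (b (l 15569656) (l 15498440))))), by decide +kernel⟩

def k20_pm_022 : ∃ t, chk3 f_pm_022 t 5 3 1 = true :=
  ⟨(b (a (b (a (c (b (l 16226072) (l 16117768)) (b (l 15998920) (l 16082272))) (b (c (l 16427944) (l 16308120)) (c (l 16321776) (l 16162648)))) (a (c (b (l 16103152) (l 16014488)) (b (l 15967392) (l 15864040))) (c (b (l 16224736) (l 16136944)) (b (l 16111824) (l 16008960))))) (b (c (a (b (l 16165464) (l 16421984)) (b (a (l 16176032) (l 16026320)) (l 16146272))) (a (b (l 16268728) (l 16348352)) (b (c (l 16121608) (l 16151832)) (l 16292352)))) (a (c (l 16262944) (a (l 16134616) (l 16214016))) (b (l 16148200) (l 16247384))))) (a (b (c (a (l 15899944) (l 16022680)) (a (l 15730616) (l 15875104))) (c (a (l 15781832) (l 15903192)) (a (l 15593600) (l 15735480)))) (b (c (a (l 16129896) (l 16220568)) (a (l 16003656) (l 16115472))) (c (a (l 16010992) (l 16104488)) (a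 (l 15863592) (l 15977344)))))), by decide +kernel⟩

def k21_pm_022 : ∃ t, chk3 f_pm_022 t 3 3 1 = true :=
  ⟨(a (b (b (a (b (a (b (c (a (l 222296541767) (l 492879585079)) (c (l 174514849207) (l 289942096983))) (c (a (l 16171736) (l 16082136)) (l 129954644199))) (a (c (l 500395700279) (l 454761680759)) (l 1))) (a (c (b (l 16081872) (l 16191320)) (l 16036104)) (a (c (l 190084124759) (l 16018992)) (c (l 270614621159) (l 273835843351))))) (a (a (b (l 1) (c (l 486436980135) (l 300142339975))) (l 1)) (l 1))) (b (c (a (a (l 16172616) (l 15985664)) (a (c (l 206190034391) (l 182030823015)) (l 473551921575))) (a (a (l 16318728) (b (l 16115472) (l 16239328))) (a (c (l 15846744) (l 15861704)) (l 424696717447)))) (a (a (l 16177712) (a (l 16209712) (l 16059896))) (a (c (l 15991184) (b (l 16119008) (l 16222360))) (c (b (l 207263695895) (l 16024632)) (l 157871588263)))))) (a (b (c (a (l 16293216) (l 16326712)) (a (l 16209296) (l 16285352))) (c (l 16215760) (a (l 16075760) (l 16159480))))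 (b (a (c (b (l 16228752) (l 16308992)) (l 16113248)) (b (c (l 15995416) (a (l 16192360) (l 16109224))) (c (l 16192960) (l 16269712)))) (b (a (l 16288336) (l 16280984)) (l 16038312))))) (b (b (l 1) (a (a (b (l 1) (c (l 464425028359) (b (l 1) (l 269003606487)))) (l 1)) (l 1))) (a (b (a (b (c (l 199747389495) (l 161092722695)) (c (l 15997944) (a (l 16150104) (l 16064400)))) (b (c (l 460666839303) (l 272761486551)) (c (l 205652882471) (l 15718040)))) (a (c (l 16032680) (l 16158512)) (b (c (l 16020392) (a (l 16105208) (l 16017912))) (c (l 16119032) (l 16186000))))) (b (a (b (l 1) (c (l 452613687751) (l 263097712631))) (l 1)) (a (b (c (l 207800284151) (l 15734840)) (c (l 15982608) (l 15956248))) (b (c (l 448318642727) (l 258802658999)) (c (l 212632050087) (l 15714920)))))))), by decide +kernel⟩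

theorem s22_pm_022 : ∃ t, chk3 f_pm_022 t 4 3 1 = true := ex3_b k18_pm_022 k19_pm_022

theorem s23_pm_022 : ∃ t, chk3 f_pm_022 t 2 3 1 = true := ex3_a s22_pm_022 k20_pm_022

theorem s24_pm_022 : ∃ t, chk3 f_pm_022 t 1 3 1 = true := ex3_a s23_pm_022 k21_pm_022

theorem s25_pm_022 : ∃ t, chk3 f_pm_022 t 5 10 1 = true := ex3_a k14_pm_022 k15_pm_022

theorem s26_pm_022 : ∃ t, chk3 f_pm_022 t 5 5 1 = true := ex3_b s25_pm_022 k16_pm_022

theorem s27_pm_022 : ∃ t, chk3 f_pm_022 t 8 10 1 = true := ex3_b k10_pm_022 k11_pm_022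

theorem s28_pm_022 : ∃ t, chk3 f_pm_022 t 4 10 1 = true := ex3_a s27_pm_022 k12_pm_022

theorem s29_pm_022 : ∃ t, chk3 f_pm_022 t 4 5 1 = true := ex3_b s28_pm_022 k13_pm_022

theorem s30_pm_022 : ∃ t, chk3 f_pm_022 t 2 5 1 = true := ex3_a s29_pm_022 s26_pm_022

theorem s31_pm_022 : ∃ t, chk3 f_pm_022 t 1 5 1 = true := ex3_a s30_pm_022 k17_pm_022

theorem s32_pm_022 : ∃ t, chk3 f_pm_022 t 4 19 1 = true := ex3_b k6_pm_022 k7_pm_022

theorem s33_pm_022 : ∃ t, chk3 f_pm_022 t 18 18 1 = true := ex3_b k3_pm_022 k4_pm_022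

theorem s34_pm_022 : ∃ t, chk3 f_pm_022 t 9 18 1 = true := ex3_a s33_pm_022 k5_pm_022

theorem s35_pm_022 : ∃ t, chk3 f_pm_022 t 8 18 1 = true := ex3_b k1_pm_022 k2_pm_022

theorem s36_pm_022 : ∃ t, chk3 f_pm_022 t 4 18 1 = true := ex3_a s35_pm_022 s34_pm_022

theorem s37_pm_022 : ∃ t, chk3 f_pm_022 t 4 9 1 = true := ex3_b s36_pm_022 s32_pm_022

theorem s38_pm_022 : ∃ t, chk3 f_pm_022 t 2 9 1 = true := ex3_a s37_pm_022 k8_pm_022

theorem s39_pm_022 : ∃ t, chk3 f_pm_022 t 2 4 1 = true := ex3_b k0_pm_022 s38_pm_022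

theorem s40_pm_022 : ∃ t, chk3 f_pm_022 t 1 4 1 = true := ex3_a s39_pm_022 k9_pm_022

theorem s41_pm_022 : ∃ t, chk3 f_pm_022 t 1 2 1 = true := ex3_b s40_pm_022 s31_pm_022

theorem s42_pm_022 : ∃ t, chk3 f_pm_022 t 1 1 1 = true := ex3_b s41_pm_022 s24_pm_022

theorem c_pm_022 : CertB 0 536870912 1073741824 536870912 923417968 42949674 3 eng mog cd0q0 cd2q2 pd2 true true false .pp 0 2 2
    ndB0q0 ndB2q2 pcB2 Cut.none Ext.none :=
  certB1 (fam := true) (s1 := true) (s2 := false) (a := 0) (b := 2) (c := 2) (cn := .pp) (n1 := ndB0q0) (n2 := ndB2q2) (pc := pcB2) (cut := Cut.none) (xt := Ext.none) (P1 := 0) (W1 := 536870912) (P2 := 1073741824) (W2 := 536870912) (P3 := 923417968) (W3 := 42949674) (N0 := 3) (En := eng) (mo := mog) (C1 := cd0q0) (C2 := cd2q2) (C3 := pd2)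
    rfl (fun _ => rfl) s42_pm_022

noncomputable def f_pm_023 : ℕ → ℕ → ℕ → ℕ → Bool := onCell 1610612736 536870912 1073741824 536870912 923417968 42949674
    (rowB 3 eng mog cd0q0 cd2q2 pd3 2 true true false .up 0 2 3 (qsf 0 536870912 1073741824 536870912 3) ndB0q0 ndB2q2 pcB3 Cut.none Ext.none)

def k0_pm_023 : ∃ t, chk3 f_pm_023 t 2 2 1 = true :=
  ⟨(b (a (b (a (b (a (b (l 15686592) (l 15743184)) (l 465029017047)) (a (b (l 15818768) (l 15891920)) (c (l 15846880) (l 15819808)))) (b (l 2) (a (l 15818616) (l 2)))) (a (b (a (l 15998928) (l 15973680)) (a (l 16129912) (l 16104336))) (b (a (l 15957232) (l 15948240)) (a (l 16086048) (l 16075664))))) (b (l 2) (a (b (l 2) (l 16051480)) (l 2)))) (a (b (a (b (a (l 16246960) (l 16221888)) (l 16334256)) (b (l 15988296) (l 16300464))) (a (b (l 16389736) (l 16333656)) (b (l 16385808) (l 16400096)))) (b (a (b (l 16103784) (l 16228072)) (l 364097973015)) (a (b (l 16378816) (l 16446904)) (b (l 16392808) (l 16465240)))))), by decide +kernel⟩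

def k1_pm_023 : ∃ t, chk3 f_pm_023 t 2 3 1 = true :=
  ⟨(a (b (b (a (b (l 16258496) (l 16083632)) (b (l 16348880) (l 16283464))) (a (a (b (l 16022320) (l 15895632)) (l 15984072)) (b (l 16203832) (l 16111632)))) (a (b (a (b (l 15751120) (b (l 15632416) (l 15548024))) (b (l 15864080) (a (l 15691112) (l 15752472)))) (a (b (b (l 15461056) (a (l 15334440) (l 15410288))) (c (a (b (l 15301024) (l 15220488)) (b (l 15374584) (l 15295608))) (a (b (l 15185768) (l 15090728)) (l 15219904)))) (b (c (l 15622696) (l 15672880)) (c (a (l 15410904) (l 15486480)) (a (l 15300232) (l 15380168)))))) (b (a (b (l 15962520) (c (l 15859560) (l 15818272))) (b (l 16052616) (l 16006944))) (a (b (c (l 15734736) (l 15665432)) (c (l 15596984) (l 15496264))) (b (c (l 15855496) (l 15789272)) (c (l 15733920) (l 15638720))))))) (b (a (b (b (l 16432392) (l 16382440)) (a (l 16256632) (l 16316936))) (b (b (l 16498528) (l 16418184)) (a (l 16377080) (l 16436848)))) (a (b (a (b (l 16134472) (l 16038976)) (l 15957176))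 (a (b (l 15931992) (c (l 15856552) (l 15766536))) (c (l 16011752) (l 15939152)))) (b (a (l 16240336) (l 16307904)) (a (b (l 16118360) (l 16026160)) (l 15927504)))))), by decide +kernel⟩

def k2_pm_023 : ∃ t, chk3 f_pm_023 t 3 1 1 = true :=
  ⟨(b (a (b (l 2) (a (b (l 2) (b (l 2) (l 16496920))) (l 2))) (l 2)) (a (a (b (b (a (l 16548368) (l 16576904)) (a (l 16492904) (l 16539560))) (b (a (l 16374128) (l 16440304)) (a (l 16236744) (l 16308608)))) (b (a (b (l 16603096) (l 16588072)) (b (l 2) (l 16627808))) (a (b (l 16500216) (l 16380336)) (b (l 16550864) (l 16457816))))) (b (a (a (b (l 2) (l 16655736)) (l 2)) (l 2)) (b (a (a (l 16605920) (l 16640552)) (a (a (l 16653968) (l 2)) (l 2))) (a (a (l 16524416) (l 16569416)) (a (a (l 16600896) (l 16661080)) (l 4))))))), by decide +kernel⟩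

theorem s3_pm_023 : ∃ t, chk3 f_pm_023 t 2 1 1 = true := ex3_b k0_pm_023 k1_pm_023

theorem s4_pm_023 : ∃ t, chk3 f_pm_023 t 1 1 1 = true := ex3_a s3_pm_023 k2_pm_023

theorem c_pm_023 : CertB 0 536870912 1073741824 536870912 923417968 42949674 3 eng mog cd0q0 cd2q2 pd3 true true false .up 0 2 3
    ndB0q0 ndB2q2 pcB3 Cut.none Ext.none :=
  certB2 (fam := true) (s1 := true) (s2 := false) (a := 0) (b := 2) (c := 3) (cn := .up) (n1 := ndB0q0) (n2 := ndB2q2) (pc := pcB3) (cut := Cut.none) (xt := Ext.none) (P1 := 0) (W1 := 536870912) (P2 := 1073741824) (W2 := 536870912) (P3 := 923417968) (W3 := 42949674) (N0 := 3) (En := eng) (mo := mog) (C1 := cd0q0) (C2 := cd2q2) (C3 := pd3)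
    rfl (fun _ => rfl) s4_pm_023

noncomputable def f_pm_033 : ℕ → ℕ → ℕ → ℕ → Bool := onCell 1610612736 536870912 0 1230186008 923417968 42949674
    (rowB 3 eng mog cd0q0 cd2q3 pd3 2 true true false .pnn 0 3 3 (qsf 0 536870912 0 1230186008 3) ndB0q0 ndB2q3 pcB3 Cut.none Ext.none)

def k0_pm_033 : ∃ t, chk3 f_pm_033 t 2 1 1 = true :=
  ⟨(b (l 1) (b (b (l 1) (a (l 1) (a (l 1) (b (l 1) (a (l 1) (a (l 1) (l 15109016))))))) (a (b (l 1) (a (b (l 1) (a (b (l 1) (c (c (a (l 211557491703) (l 15259688)) (l 193303976215)) (b (l 194914638855) (l 15250496)))) (b (c (a (l 207799495991) (l 186324775431)) (a (l 176660914519) (l 15187032))) (c (a (b (l 15281448) (l 15357736)) (l 15387536)) (b (l 15283592) (l 15372880)))))) (b (a (b (l 1) (c (a (l 206188875383) (l 15231800)) (a (l 15089856) (l 15148536)))) (b (c (l 222295226983) (l 176661017335)) (c (a (l 15296904) (l 15363400)) (a (l 15209952) (l 15272968))))) (a (b (c (a (l 15305176) (l 15372376)) (a (l 15247768) (l 15309784))) (c (a (l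 15456112) (l 15524192)) (b (l 15407600) (l 15496792)))) (b (c (a (l 15440224) (l 15507680)) (l 15404224)) (c (l 15623656) (l 15573512))))))) (b (a (b (a (l 1) (a (l 1) (b (l 1) (l 245917405527)))) (a (b (l 1) (c (l 222295209095) (l 180955978647))) (b (c (l 15213360) (l 15079280)) (c (l 15331832) (l 15208072))))) (b (a (b (a (l 1) (l 15110896)) (a (l 15141096) (l 15211296))) (a (l 15314896) (l 15303648))) (a (b (a (l 15251016) (l 15322512)) (a (l 15374968) (l 15443712))) (b (l 15516936) (a (l 15513672) (l 15583832)))))) (a (b (a (b (c (l 15369440) (l 15301104)) (c (l 15464096) (l 15369400))) (b (c (l 15461032) (l 15349192)) (c (l 15596000) (l 15496896)))) (a (b (c (l 15606608) (l 15528200)) (c (l 15746280) (l 15683128))) (b (c (l 15729192) (l 15642024)) (l 15880888)))) (b (a (b (c (l 15592768) (l 15480920)) (l 15752720)) (b (a (l 15634152) (l 15694544)) (l 15777440))) (a (b (l 15792464) (l 15907208)) (b (l 15884400) (l 15988240))))))))), by decide +kernel⟩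

def k1_pm_033 : ∃ t, chk3 f_pm_033 t 3 1 1 = true :=
  ⟨(a (b (l 1) (b (b (a (l 1) (b (l 4) (a (b (l 4) (l 15231592)) (l 4)))) (a (b (a (l 406978754295) (l 15185648)) (a (a (l 15176944) (l 15248672)) (l 15361664))) (a (b (l 15345320) (l 15519656)) (b (l 4) (l 15789328))))) (b (a (b (a (a (l 15377448) (l 15451616)) (a (l 15525384) (l 15598072))) (a (b (l 15577112) (l 15683128)) (l 15863320))) (b (a (l 15702280) (l 15837216)) (a (l 15874320) (l 15975984)))) (a (b (a (b (l 15782608) (l 15875824)) (l 15806120)) (a (b (l 15968576) (l 16060512)) (b (l 16049536) (l 16127792)))) (b (a (l 16023104) (l 16106464)) (a (l 15975488) (l 16233008))))))) (b (l 4) (b (l 4) (a (b (a (b (l 15969384) (l 16073040)) (l 4)) (a (b (l 16180048) (l 16295680)) (b (a (l 16231352) (l 4)) (a (l 16338728) (l 16363976))))) (a (b (l 4) (b (l 4) (a (l 16394952) (l 4)))) (l 4)))))), by decide +kernel⟩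

theorem s2_pm_033 : ∃ t, chk3 f_pm_033 t 1 1 1 = true := ex3_a k0_pm_033 k1_pm_033

theorem c_pm_033 : CertB 0 536870912 0 1230186008 923417968 42949674 3 eng mog cd0q0 cd2q3 pd3 true true false .pnn 0 3 3
    ndB0q0 ndB2q3 pcB3 Cut.none Ext.none :=
  certB2 (fam := true) (s1 := true) (s2 := false) (a := 0) (b := 3) (c := 3) (cn := .pnn) (n1 := ndB0q0) (n2 := ndB2q3) (pc := pcB3) (cut := Cut.none) (xt := Ext.none) (P1 := 0) (W1 := 536870912) (P2 := 0) (W2 := 1230186008) (P3 := 923417968) (W3 := 42949674) (N0 := 3) (En := eng) (mo := mog) (C1 := cd0q0) (C2 := cd2q3) (C3 := pd3)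
    rfl (fun _ => rfl) s2_pm_033

noncomputable def f_pm_101 : ℕ → ℕ → ℕ → ℕ → Bool := onCell 536870912 536870912 0 536870912 923417968 42949674
    (rowB 3 eng mog cd0q1 cd2q0 pd1 2 true true false .npn 1 0 1 (qsf 536870912 536870912 0 536870912 1) ndB0q1 ndB2q0 pcB1 Cut.none Ext.none)

def k0_pm_101 : ∃ t, chk3 f_pm_101 t 2 2 1 = true :=
  ⟨(l 3), by decide +kernel⟩

def k1_pm_101 : ∃ t, chk3 f_pm_101 t 6 2 1 = true :=
  ⟨(l 3), by decide +kernel⟩

def k2_pm_101 : ∃ t, chk3 f_pm_101 t 14 2 1 = true :=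
  ⟨(l 3), by decide +kernel⟩

def k3_pm_101 : ∃ t, chk3 f_pm_101 t 30 8 1 = true :=
  ⟨(a (l 3) (a (l 3) (a (l 3) (b (a (a (l 3) (b (b (b (c (c (l 213305486887) (l 16764616)) (c (l 391546645383) (a (b (l 437717563159) (l 437180711495)) (l 16773808)))) (c (l 390472920919) (c (l 405505334647) (b (l 401747244647) (l 403357873527))))) (c (l 372219314311) (c (l 377588046663) (b (a (l 398526029655) (l 16813312)) (l 380809316551))))) (b (c (l 368461275655) (c (l 373830010391) (b (l 379198734823) (l 378125025495)))) (a (l 3) (c (l 16839616) (c (l 16828456) (b (l 16831760) (l 361481983735)))))))) (b (b (c (c (b (l 16776688) (l 16790128)) (l 16766288)) (c (l 16770448) (a (l 16773128) (l 16797632)))) (c (l 16792192) (c (l 16799344) (l 16794008)))) (c (b (l 16821736) (l 16809744)) (b (b (l 16825008) (l 16821920)) (c (l 16819544) (a (l 16815216) (l 16808192))))))) (a (a (l 3) (a (l 3) (b (c (b (l 16806400) (l 345912648343)) (b (c (l 354502623111) (c (l 356650098567) (b (l 359334474295)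 (l 338396485607)))) (b (c (l 16789328) (b (l 336248985559) (l 336248991975))) (c (l 347523253575) (c (l 341617675991) (l 336785834999)))))) (b (b (c (l 343765139047) (c (l 338396431591) (l 334101422791))) (l 3)) (l 3))))) (c (b (b (l 16787192) (a (l 16775568) (l 16800544))) (b (b (l 16761896) (l 16747120)) (b (l 308868445703) (l 298667897831)))) (a (b (b (c (l 16798864) (b (l 16796576) (l 16783216))) (c (a (l 16773304) (l 16791056)) (a (b (l 16770752) (c (l 16779336) (l 16774080))) (l 16760056)))) (b (b (c (l 16770312) (b (l 16763360) (l 16755312))) (c (l 16754576) (l 318532121943))) (b (c (l 16738336) (l 16726120)) (a (l 313163380567) (l 16713600))))) (b (b (l 16787640) (l 16760200)) (b (l 16719160) (l 16717560)))))))))), by decide +kernel⟩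

def k4_pm_101 : ∃ t, chk3 f_pm_101 t 30 9 1 = true :=
  ⟨(a (l 3) (a (l 3) (a (l 3) (a (b (l 3) (l 3)) (b (b (c (b (a (c (l 301352203271) (l 304036521799)) (l 16709424)) (a (c (l 287393518183) (l 292225324551)) (l 16675000))) (a (b (c (l 305110234999) (l 306183947767)) (c (l 295446517223) (l 298130822279))) (b (l 16661480) (l 16624320)))) (b (b (c (b (c (l 272361092423) (l 277192902311)) (b (l 278266639335) (l 278266639079))) (b (c (l 273434795463) (l 286319618551)) (c (l 272361042391) (l 285245875319)))) (c (b (a (l 286319705863) (l 16647072)) (a (l 285782834263) (l 16646128))) (b (c (l 271824171783) (l 284172131319)) (c (l 270750430407) (l 283098388119))))) (b (c (b (a (l 285782833239) (l 16645184)) (l 275582282087)) (b (a (l 276656010983) (l 16604160)) (c (l 280414066839) (l 280414001799)))) (c (b (l 274508539351) (l 273971667495)) (b (c (l 279340321255) (l 278266464839)) (c (l 278266576839) (l 276118928855))))))) (b (b (b (c (b (l 273434795639) (l 272361052679)) (b (l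 277192814007) (l 276119067847))) (c (b (l 271824180615) (l 271287308039)) (c (l 273434684247) (l 270750088327)))) (c (b (b (l 270213565175) (l 269676692551)) (b (l 269676676263) (l 268602930423))) (b (c (l 270750274039) (l 266991907703)) (c (l 266992089847) (l 264307475543))))) (a (l 3) (b (c (b (l 261623600375) (l 260012983703)) (b (l 258938957335) (l 256791399991))) (b (c (l 257865458487) (l 16311824)) (c (l 255181026119) (l 16243040))))))))))), by decide +kernel⟩

def k5_pm_101 : ∃ t, chk3 f_pm_101 t 30 5 1 = true :=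
  ⟨(b (b (b (a (l 3) (a (l 3) (a (l 3) (b (a (l 3) (c (b (l 254644080631) (l 251959674295)) (b (l 252496233079) (l 250348693495)))) (b (c (l 249275099175) (l 248738028967)) (l 3)))))) (l 3)) (l 3)) (l 3)), by decide +kernel⟩

def k6_pm_101 : ∃ t, chk3 f_pm_101 t 31 8 1 = true :=
  ⟨(b (a (c (b (a (a (b (c (l 16772152) (l 16776216)) (l 16781488)) (l 16758648)) (l 16788832)) (a (a (l 16777968) (l 16792776)) (b (l 16763312) (l 16765528)))) (a (b (a (b (l 16761888) (l 16791456)) (l 16768536)) (a (a (l 16781256) (l 16777832)) (l 16757392))) (b (l 16755792) (l 16718208)))) (b (a (b (l 16764904) (l 16726488)) (l 16672120)) (a (c (l 16727296) (l 16711656)) (l 16676248)))) (a (a (a (b (b (c (l 16787928) (l 16770768)) (c (l 16784296) (l 16743944))) (c (b (l 16756736) (l 16726616)) (b (l 16714000) (l 16702320)))) (b (a (l 16726464) (l 16734672)) (c (l 16717888) (l 16694824)))) (b (c (l 16733768) (l 16715080)) (a (l 16662120) (l 16660248)))) (b (a (l 16677736) (l 16634664)) (a (l 16627664)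 (l 16586328))))), by decide +kernel⟩

def k7_pm_101 : ∃ t, chk3 f_pm_101 t 31 9 1 = true :=
  ⟨(b (b (a (c (a (a (b (l 16694504) (l 16660408)) (l 16654696)) (l 16622368)) (a (a (b (l 16667560) (l 16630728)) (l 16626368)) (l 16593928))) (a (l 16566704) (l 16528072))) (a (b (a (a (b (c (b (l 16638248) (l 16633688)) (b (l 16606816) (l 16602000))) (c (b (l 16632792) (l 16631896)) (b (l 16601224) (l 16600432)))) (b (c (l 16613912) (l 16582328)) (c (l 16610696) (l 16579160)))) (b (c (l 16581848) (l 16550128)) (a (l 16573640) (l 16552904)))) (a (b (c (a (b (l 16630984) (l 16630064)) (l 16608936)) (a (b (l 16599632) (l 16593328)) (l 16577608))) (c (a (b (l 16629136) (l 16628200)) (l 16607152)) (c (a (l 16605896) (l 16583920)) (l 16489208)))) (b (a (l 16572088) (l 16551472)) (a (l 16570504) (l 16549992))))) (a (b (b (l 16525976) (l 16523200)) (b (l 16521920) (l 16520600))) (b (b (l 16488928) (l 16486240)) (l 16486376))))) (b (a (b (a (c (a (b (b (l 16627256) (l 16626296)) (a (l 16630704)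 (l 16619680))) (c (l 16613312) (l 16598216))) (b (c (l 16586920) (l 16441328)) (c (l 16536584) (l 16397688)))) (c (l 16574520) (l 16531136))) (a (c (b (c (l 16619696) (l 16604688)) (c (l 16617664) (l 16578208))) (a (b (l 16498240) (l 16417768)) (l 16517984))) (c (l 16570784) (l 16438384)))) (b (c (l 16516888) (l 16485528)) (c (l 16513768) (l 16479384)))) (a (b (a (c (a (b (l 16588800) (l 16567080)) (l 16583440)) (a (b (l 16340440) (l 16307888)) (l 16339160))) (c (l 16566912) (l 16360576))) (a (c (a (b (l 16548584) (l 16512048)) (l 16501504)) (a (b (l 16277904) (l 16250232)) (l 16276560))) (c (l 16519424) (l 16294776)))) (b (c (l 16510520) (l 16397216)) (c (l 16507096) (l 16327592)))))), by decide +kernel⟩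

def k8_pm_101 : ∃ t, chk3 f_pm_101 t 31 5 1 = true :=
  ⟨(b (b (a (c (a (b (b (a (b (l 16478160) (l 16467672)) (l 16431256)) (a (b (l 16438456) (l 16369368)) (l 16370704))) (b (a (b (l 16344152) (l 16320704)) (l 16318392)) (c (a (l 224578966535) (l 16316304)) (l 220820767303)))) (b (b (l 16446256) (l 16383176)) (b (l 16328656) (l 16281368)))) (a (b (b (b (l 16293048) (l 16226984)) (c (l 16283680) (l 16126392))) (b (a (l 16215440) (l 16138576)) (a (l 16099456) (l 16105040)))) (b (b (l 16238752) (l 16190776)) (b (l 16149592) (l 16114136))))) (b (b (a (l 16359720) (l 16375016)) (a (l 16302024) (l 16316440))) (b (a (l 16252112) (l 16265608)) (a (l 16208856) (l 16221272))))) (b (a (a (b (b (c (a (l 16322520) (l 16243024)) (l 16080600)) (c (l 216525783751) (l 16066576))) (c (a (l 16209416) (l 16189960)) (l 16046992))) (b (c (l 16238480) (l 16082696)) (l 16142512))) (b (c (l 16251520) (l 16100104)) (l 16131040))) (a (c (a (a (a (l 214915095527) (l 16138528)) (l 16137552)) (l 16136184))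 (a (l 16100976) (l 16016800))) (a (l 16076408) (l 16079584))))) (b (a (c (a (b (a (l 203640672839) (l 16087840)) (l 193976915911)) (l 16104824)) (a (b (l 15993368) (l 15984448)) (l 15979288))) (c (l 16094392) (l 15974008))) (a (c (a (b (l 16065904) (l 16041032)) (l 16025120)) (b (l 188608072967) (l 184313121639))) (c (l 16007144) (l 15965224))))), by decide +kernel⟩

def k9_pm_101 : ∃ t, chk3 f_pm_101 t 1 3 1 = true :=
  ⟨(a (l 3) (a (l 3) (a (l 3) (a (b (l 3) (l 3)) (b (b (b (a (a (c (b (l 16046120) (l 16058392)) (l 177333863975)) (b (l 16012528) (l 16029512))) (c (l 16030800) (l 15994792))) (a (c (b (l 168207042151) (l 165522721783)) (a (l 148342948343) (l 16067584))) (a (l 16196336) (l 16038208)))) (b (a (b (a (l 108614561351) (l 16100904)) (a (l 134921160503) (l 16097016))) (b (l 16067664) (l 16062160))) (a (b (a (l 175186412007) (l 16087864)) (a (l 193439963255) (l 16056168))) (b (l 16052712) (l 16049472))))) (b (a (b (a (b (l 981566409799) (l 3)) (b (l 16050800) (c (l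 16083744) (l 16028280)))) (a (l 3) (b (c (l 16078768) (l 16018488)) (c (l 16096912) (l 16011512))))) (b (b (a (l 16042592) (l 16020104)) (a (l 16054368) (l 16010944))) (a (b (l 16068136) (l 16126336)) (b (l 16003816) (l 15999200))))) (a (a (l 3) (b (b (c (l 151564096119) (l 16070632)) (c (l 156395935975) (l 162301402631))) (b (a (c (l 16111272) (l 16016560)) (c (l 16078328) (l 16004992))) (c (l 312491173975) (l 321080996951))))) (b (a (b (c (l 16052240) (l 15984824)) (c (l 16055104) (l 15984688))) (b (l 15997464) (l 16019888))) (b (a (c (l 16061160) (l 15988264)) (l 16024776)) (a (c (l 16070648) (l 15995760)) (l 16075168))))))))))), by decide +kernel⟩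

theorem s10_pm_101 : ∃ t, chk3 f_pm_101 t 31 4 1 = true := ex3_b k6_pm_101 k7_pm_101

theorem s11_pm_101 : ∃ t, chk3 f_pm_101 t 31 2 1 = true := ex3_b s10_pm_101 k8_pm_101

theorem s12_pm_101 : ∃ t, chk3 f_pm_101 t 30 4 1 = true := ex3_b k3_pm_101 k4_pm_101

theorem s13_pm_101 : ∃ t, chk3 f_pm_101 t 30 2 1 = true := ex3_b s12_pm_101 k5_pm_101

theorem s14_pm_101 : ∃ t, chk3 f_pm_101 t 15 2 1 = true := ex3_a s13_pm_101 s11_pm_101

theorem s15_pm_101 : ∃ t, chk3 f_pm_101 t 7 2 1 = true := ex3_a k2_pm_101 s14_pm_101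

theorem s16_pm_101 : ∃ t, chk3 f_pm_101 t 3 2 1 = true := ex3_a k1_pm_101 s15_pm_101

theorem s17_pm_101 : ∃ t, chk3 f_pm_101 t 1 2 1 = true := ex3_a k0_pm_101 s16_pm_101

theorem s18_pm_101 : ∃ t, chk3 f_pm_101 t 1 1 1 = true := ex3_b s17_pm_101 k9_pm_101

theorem c_pm_101 : CertB 536870912 536870912 0 536870912 923417968 42949674 3 eng mog cd0q1 cd2q0 pd1 true true false .npn 1 0 1
    ndB0q1 ndB2q0 pcB1 Cut.none Ext.none :=
  certB2 (fam := true) (s1 := true) (s2 := false) (a := 1) (b := 0) (c := 1) (cn := .npn) (n1 := ndB0q1) (n2 := ndB2q0) (pc := pcB1) (cut := Cut.none) (xt := Ext.none) (P1 := 536870912) (W1 := 536870912) (P2 := 0) (W2 := 536870912) (P3 := 923417968) (W3 := 42949674) (N0 := 3) (En := eng) (mo := mog) (C1 := cd0q1) (C2 := cd2q0) (C3 := pd1)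
    rfl (fun _ => rfl) s18_pm_101

noncomputable def f_pm_102 : ℕ → ℕ → ℕ → ℕ → Bool := onCell 1073741824 536870912 0 536870912 923417968 42949674
    (rowB 3 eng mog cd0q1 cd2q0 pd2 2 true true false .npp 1 0 2 (qsf 536870912 536870912 0 536870912 2) ndB0q1 ndB2q0 pcB2 Cut.none Ext.none)

def k0_pm_102 : ∃ t, chk3 f_pm_102 t 8 4 1 = true :=
  ⟨(b (a (b (a (b (a (b (a (l 16475280) (l 16460136)) (a (l 16458280) (l 16445224))) (b (a (l 16445064) (l 2)) (a (l 16430472) (l 16415784)))) (a (a (l 16433640) (l 16416368)) (b (l 16412000) (l 16386832)))) (b (a (b (l 2) (a (l 16401544) (l 2))) (l 2)) (a (b (l 16380216) (l 16369704)) (b (b (l 2) (l 16355504)) (a (l 16347592) (l 16340952)))))) (a (b (a (l 16368304) (b (l 16366968) (l 16347616))) (c (l 16327384) (l 16315040))) (b (a (b (l 16356872) (l 16325448)) (b (l 16331408) (l 16318560))) (a (l 16291152) (l 16292168))))) (b (b (l 2) (a (a (b (l 2) (l 16339160)) (l 2)) (l 2))) (a (b (a (l 16312872) (b (l 16315776) (l 16297560))) (a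 (l 16280920) (l 16272824))) (b (b (l 2) (l 16284728)) (a (l 16262184) (l 16250008)))))) (b (b (a (a (c (l 16281904) (l 16265192)) (a (l 16244960) (l 16226264))) (a (a (l 16242424) (l 16239488)) (a (l 16230000) (l 16216408)))) (a (b (a (b (c (l 16251048) (l 16231544)) (c (l 16250872) (l 16231568))) (c (l 16200800) (l 16191016))) (a (c (b (l 16251800) (l 16273536)) (l 16235072)) (l 16210496))) (b (a (b (a (l 16203864) (l 16216832)) (l 16277168)) (b (l 16205840) (l 16210080))) (a (a (l 16188440) (l 16219424)) (b (l 16215472) (l 16220632)))))) (b (a (a (b (c (l 16291784) (l 16236832)) (c (l 16276120) (l 16237264))) (b (l 16213360) (l 16215856))) (a (b (l 16168168) (l 16190168)) (b (l 16228728) (l 16235552)))) (a (a (b (a (l 16269104) (l 16246656)) (a (l 16269064) (l 16247360))) (b (l 16218048) (l 16218968))) (a (b (l 16191352) (l 16192840)) (b (l 16238080) (l 16232328))))))), by decide +kernel⟩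

def k1_pm_102 : ∃ t, chk3 f_pm_102 t 9 4 1 = true :=
  ⟨(b (a (b (l 2) (a (b (l 2) (a (l 16236936) (l 2))) (l 2))) (l 2)) (b (b (a (a (a (l 16200360) (l 16182688)) (a (l 16163944) (l 2))) (l 2)) (a (b (a (b (l 16173632) (l 16178304)) (b (l 16132472) (l 16136160))) (a (l 16314952) (b (l 16141728) (l 16147832)))) (b (l 2) (a (l 16221736) (l 2))))) (b (a (b (a (l 16202024) (l 16158848)) (a (l 16215184) (l 16173064))) (b (a (l 16106416) (l 2)) (a (l 16119560) (l 16058568)))) (a (c (b (l 16213096) (l 16226160)) (b (l 16291256) (l 16222368))) (b (a (l 16134640) (l 16071784)) (a (l 16151000) (l 16087416))))))), by decide +kernel⟩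

def k2_pm_102 : ∃ t, chk3 f_pm_102 t 4 5 1 = true :=
  ⟨(b (a (b (a (b (a (b (a (l 16216176) (l 16234072)) (a (l 16163184) (l 16187312))) (b (l 16220232) (l 16215432))) (a (c (a (l 16179704) (l 16199536)) (c (l 16074576) (l 16000656))) (c (l 16223016) (l 16115720)))) (b (a (l 16197232) (l 16200272)) (a (l 16197904) (l 16191704)))) (a (b (a (b (c (l 16126080) (l 15987632)) (a (l 15994512) (l 16029696))) (c (l 16148384) (l 16053440))) (a (a (l 15940192) (l 15974808)) (l 16024128))) (b (a (l 16151912) (l 16169608)) (c (l 16113960) (l 16090304))))) (b (a (b (b (l 16216112) (l 16227792)) (c (l 16344600) (l 16264632))) (b (b (l 16032496) (l 16155528)) (c (l 16163504) (l 16184512)))) (a (b (a (l 16232848) (l 16255280)) (c (l 16195824) (l 16207920))) (b (c (l 16350000) (l 16204784)) (l 16161632))))) (a (a (b (a (c (a (l 15914248) (l 15939488)) (l 15874880)) (c (l 15975176) (l 15925096))) (a (c (l 15880072) (l 15841136)) (b (l 15911368) (l 15902352)))) (b (a (l 16000864) (l 16036216))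 (a (l 15945808) (l 15975176)))) (a (b (a (l 16096464) (l 16146160)) (c (l 16043056) (l 16051424))) (b (a (l 16170376) (l 16123216)) (a (l 16069104) (l 16056960)))))), by decide +kernel⟩

def k3_pm_102 : ∃ t, chk3 f_pm_102 t 5 2 1 = true :=
  ⟨(b (a (b (l 2) (b (l 2) (b (l 2) (a (a (b (l 2) (l 16015904)) (l 2)) (l 2))))) (l 2)) (b (a (b (a (b (a (b (l 16031856) (l 16050024)) (b (l 2) (l 15968336))) (a (l 16143920) (l 267461217735))) (b (l 2) (a (l 213774007751) (l 2)))) (a (b (a (l 16108344) (l 16027392)) (l 16043592)) (b (a (l 15998392) (l 15982032)) (a (l 15936952) (l 15836912))))) (b (l 2) (a (b (l 2) (a (l 15728320) (l 2))) (l 2)))) (a (a (b (a (l 16078496) (l 16100704)) (a (l 16030720) (l 15985592))) (a (b (l 15937976) (l 15926040)) (b (l 15865624) (l 15851024)))) (a (b (a (l 15885584) (l 182634967879)) (a (l 15759344) (l 15653336))) (b (a (b (l 2) (l 15507768)) (l 2)) (a (l 15534920) (l 241690336023))))))), by decide +kernel⟩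

def k4_pm_102 : ∃ t, chk3 f_pm_102 t 2 6 1 = true :=
  ⟨(a (a (b (a (b (a (b (l 15888656) (c (l 15888512) (l 15880112))) (l 16032720)) (a (b (l 16071968) (l 15930056)) (c (l 15930128) (l 15933744)))) (b (a (l 15934968) (l 15961008)) (a (l 15936200) (l 15934936)))) (a (b (a (c (l 15957472) (l 15942000)) (b (l 15938864) (l 15936288))) (a (b (l 15950536) (b (l 15947888) (l 15924696))) (b (l 15910384) (l 15904112)))) (b (c (l 15926576) (l 15904280)) (a (b (l 15913160) (l 15905104)) (b (l 15895592) (l 15885920)))))) (b (a (b (c (l 15963632) (l 15961424)) (a (l 15932568) (l 15930304))) (a (b (l 15994128) (l 15927600)) (b (l 15986840) (l 15921512)))) (a (b (a (l 15939832) (l 15885568)) (a (b (l 15878072) (l 15867320)) (l 15854696))) (b (a (l 15876032) (l 15865624)) (a (l 15838840) (l 15822800)))))) (a (b (a (b (l 15973344) (l 15977384)) (b (a (l 15893784) (l 15835288)) (l 15824296))) (a (b (l 16070376) (a (l 15805408) (l 15783192))) (b (l 15780616) (l 15740856)))) (b (a (b (a (l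 15763560) (l 15677064)) (l 15902072)) (b (a (l 15574408) (l 15457928)) (a (l 15595768) (l 15499528)))) (a (b (l 15688928) (l 15661680)) (b (l 15641592) (l 15551000)))))), by decide +kernel⟩

def k5_pm_102 : ∃ t, chk3 f_pm_102 t 2 7 1 = true :=
  ⟨(a (a (b (a (b (a (b (l 15932072) (c (l 15962880) (l 15913152))) (b (c (l 15939560) (l 15896016)) (l 16018408))) (a (c (b (l 15963512) (l 15965840)) (b (l 15908896) (l 15906968))) (c (b (l 15935896) (l 15936736)) (b (l 15881928) (l 15878472))))) (b (a (b (l 15897112) (l 15911312)) (b (l 15876880) (l 15868616))) (a (c (l 15909504) (l 15854432)) (b (l 15862160) (l 15857520))))) (a (b (a (c (b (l 15970296) (l 15977256)) (b (l 15907744) (l 15911552))) (c (b (l 15939824) (l 15945464)) (b (l 15877776) (l 15880120)))) (a (c (b (l 15987008) (l 15999800)) (b (l 15918664) (l 15929320))) (c (b (l 15953912) (l 15965400)) (b (l 15885752) (l 15894888))))) (b (a (b (l 15923824) (l 15947376)) (c (l 15885560) (l 15823888))) (a (b (l 15973984) (l 15982880))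 (c (l 15897256) (l 15829080)))))) (b (a (b (a (c (l 15872624) (l 15830320)) (l 15833208)) (a (c (l 15862160) (l 15810552)) (l 15879760))) (b (a (l 15813368) (l 15795472)) (a (l 15797416) (l 15778352)))) (a (b (a (c (l 15859904) (l 15799800)) (b (l 15809696) (l 15807680))) (a (c (l 15868936) (l 15801880)) (l 15873720))) (b (a (l 15808032) (l 15767104)) (a (l 15786816) (l 15765336)))))) (a (b (a (a (b (l 15775560) (l 15757128)) (b (l 15751280) (l 15733664))) (b (l 15708640) (l 15774848))) (a (a (b (l 15748008) (l 15744464)) (a (b (l 15732440) (l 15729760)) (b (l 15720216) (a (l 15722112) (l 15716272))))) (b (l 15726016) (l 15729488)))) (b (a (b (l 15637736) (l 15620632)) (b (l 15541464) (l 15534872))) (a (b (l 15617368) (l 15624256)) (b (l 15534560) (l 15547344)))))), by decide +kernel⟩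

def k6_pm_102 : ∃ t, chk3 f_pm_102 t 3 1 1 = true :=
  ⟨(b (a (b (l 2) (b (l 2) (a (a (b (l 2) (a (b (l 2) (l 15286416)) (l 2))) (l 2)) (l 2)))) (l 2)) (a (b (a (b (a (b (a (l 15329768) (l 15402600)) (a (l 15387936) (l 15263544))) (b (a (b (l 2) (l 15071072)) (l 2)) (a (l 15128920) (b (l 14966008) (l 15011088))))) (a (b (a (l 15426728) (l 15322592)) (l 15444128)) (b (a (l 15204360) (l 15074976)) (a (l 15260120) (l 15150080))))) (b (a (b (l 2) (a (b (l 2) (l 401676821911)) (l 2))) (l 2)) (a (b (a (b (l 14913736) (l 14962568)) (b (l 14829424) (l 14838816))) (a (l 15027792) (l 15041184))) (b (a (l 14808648) (l 2)) (a (b (l 14792016) (l 14804896)) (l 14774600)))))) (a (b (a (b (l 15414032) (l 15423376)) (b (l 15270968) (l 15280984))) (a (b (l 15435520) (l 15453480)) (b (l 15310176) (l 15342264)))) (b (a (b (a (l 15099296) (l 14985576)) (l 15104056)) (b (a (l 14860168) (b (l 14765744) (l 14778928))) (a (l 14947376) (l 14831072)))) (a (b (l 15154432) (l 15204232)) (b (l 14967048)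 (l 15036712)))))) (b (a (b (l 2) (a (b (l 2) (a (l 14788424) (l 2))) (l 2))) (l 2)) (a (b (a (b (l 14759192) (a (b (l 14747920) (l 14759256)) (l 14743304))) (b (l 484891697927) (l 14772616))) (a (b (a (l 14806816) (l 14976912)) (a (l 14894760) (l 14790760))) (b (l 14749496) (a (l 14740128) (l 14744696))))) (b (a (b (l 2) (l 14936400)) (l 2)) (a (b (l 14813864) (l 14786672)) (b (l 14945664) (l 14880520)))))))), by decide +kernel⟩

theorem s7_pm_102 : ∃ t, chk3 f_pm_102 t 2 3 1 = true := ex3_b k4_pm_102 k5_pm_102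

theorem s8_pm_102 : ∃ t, chk3 f_pm_102 t 4 4 1 = true := ex3_a k0_pm_102 k1_pm_102

theorem s9_pm_102 : ∃ t, chk3 f_pm_102 t 4 2 1 = true := ex3_b s8_pm_102 k2_pm_102

theorem s10_pm_102 : ∃ t, chk3 f_pm_102 t 2 2 1 = true := ex3_a s9_pm_102 k3_pm_102

theorem s11_pm_102 : ∃ t, chk3 f_pm_102 t 2 1 1 = true := ex3_b s10_pm_102 s7_pm_102

theorem s12_pm_102 : ∃ t, chk3 f_pm_102 t 1 1 1 = true := ex3_a s11_pm_102 k6_pm_102

theorem c_pm_102 : CertB 536870912 536870912 0 536870912 923417968 42949674 3 eng mog cd0q1 cd2q0 pd2 true true false .npp 1 0 2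
    ndB0q1 ndB2q0 pcB2 Cut.none Ext.none :=
  certB2 (fam := true) (s1 := true) (s2 := false) (a := 1) (b := 0) (c := 2) (cn := .npp) (n1 := ndB0q1) (n2 := ndB2q0) (pc := pcB2) (cut := Cut.none) (xt := Ext.none) (P1 := 536870912) (W1 := 536870912) (P2 := 0) (W2 := 536870912) (P3 := 923417968) (W3 := 42949674) (N0 := 3) (En := eng) (mo := mog) (C1 := cd0q1) (C2 := cd2q0) (C3 := pd2)
    rfl (fun _ => rfl) s12_pm_102

noncomputable def f_pm_112 : ℕ → ℕ → ℕ → ℕ → Bool := onCell 536870912 536870912 1073741824 536870912 923417968 42949674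
    (rowB 3 eng mog cd0q1 cd2q1 pd2 1 true true false .dn 1 1 2 (qsf 536870912 536870912 536870912 536870912 2) ndB0q1 ndB2q1 pcB2 Cut.none Ext.none)

def k0_pm_112 : ∃ t, chk3 f_pm_112 t 1 2 1 = true :=
  ⟨(b (a (a (a (c (b (b (a (b (l 16051944) (l 16146800)) (l 332355154007)) (a (l 16194752) (l 16160360))) (b (l 16187880) (l 16147568))) (b (b (a (l 16052768) (l 15992536)) (a (l 16177232) (l 16152720))) (b (l 16129656) (l 16078104)))) (b (b (l 1) (a (l 240550037959) (l 1))) (b (c (l 16140888) (l 16097856)) (a (l 16107624) (l 16096288))))) (b (l 1) (a (b (l 1) (l 218538571751)) (l 1)))) (l 1)) (a (a (b (b (a (b (l 16070432) (b (l 16044784) (a (l 16017544) (l 16034256)))) (b (l 16077400) (b (l 16061640) (b (l 16052968) (l 16046984))))) (a (a (l 15964096) (l 15988952)) (a (l 16009072) (l 16022960)))) (a (c (b (l 15935024) (l 15837248)) (b (l 15834040) (l 15726264))) (b (a (l 15936744) (l 15960720)) (l 15868312)))) (b (a (b (b (l 16062904) (b (l 16056368) (b (l 16052128) (l 16027952))))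 (a (l 16029560) (l 16026720))) (b (l 1) (l 15997560))) (a (b (l 15979800) (l 15915360)) (c (l 15966568) (l 15906928))))) (a (b (l 1) (a (c (l 15888056) (l 15848648)) (l 1))) (l 1)))), by decide +kernel⟩

def k1_pm_112 : ∃ t, chk3 f_pm_112 t 1 3 1 = true :=
  ⟨(a (b (a (b (a (a (a (l 15561368) (l 15597096)) (l 15709296)) (b (l 15776576) (l 15676912))) (a (a (b (l 15390272) (l 15260880)) (b (l 15471488) (l 15350848))) (b (l 15571240) (l 15461312)))) (b (a (a (l 15784632) (l 15806408)) (c (l 15821480) (l 15769232))) (a (b (l 15658472) (l 15558144)) (b (l 15679624) (l 15584200))))) (a (b (a (a (b (l 15130904) (l 15002104)) (b (l 15228904) (l 15107416))) (a (l 15233912) (l 15304648))) (a (b (a (l 14876344) (l 14988232)) (a (l 14755624) (l 14873336))) (b (l 15312016) (a (l 14972000) (l 15050632))))) (b (a (a (l 15358824) (l 15415456)) (b (l 15482088) (l 15374872))) (a (c (l 14997136) (l 14989224)) (b (l 15264264) (l 15152168)))))) (a (b (b (a (c (l 15777608) (l 15722448)) (b (l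 1) (l 15632488))) (a (b (l 15638936) (l 15544720)) (b (l 15547912) (l 15452232)))) (b (a (b (l 15441840) (l 15331688)) (b (l 15346816) (l 15232928))) (a (b (l 15215760) (l 14949088)) (b (a (l 15143280) (l 15089928)) (a (l 15037960) (l 15047080)))))) (b (a (b (l 1) (a (l 15490992) (l 1))) (l 1)) (a (b (a (b (l 15231296) (l 15123088)) (b (l 15124808) (l 15078184))) (a (b (l 15077584) (l 15084400)) (l 15104416))) (b (b (l 1) (l 15028808)) (a (l 15110600) (l 15093480))))))), by decide +kernel⟩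

theorem s2_pm_112 : ∃ t, chk3 f_pm_112 t 1 1 1 = true := ex3_b k0_pm_112 k1_pm_112

theorem c_pm_112 : CertB 536870912 536870912 536870912 536870912 923417968 42949674 3 eng mog cd0q1 cd2q1 pd2 true true false .dn 1 1 2
    ndB0q1 ndB2q1 pcB2 Cut.none Ext.none :=
  certB1 (fam := true) (s1 := true) (s2 := false) (a := 1) (b := 1) (c := 2) (cn := .dn) (n1 := ndB0q1) (n2 := ndB2q1) (pc := pcB2) (cut := Cut.none) (xt := Ext.none) (P1 := 536870912) (W1 := 536870912) (P2 := 536870912) (W2 := 536870912) (P3 := 923417968) (W3 := 42949674) (N0 := 3) (En := eng) (mo := mog) (C1 := cd0q1) (C2 := cd2q1) (C3 := pd2)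
    rfl (fun _ => rfl) s2_pm_112

noncomputable def f_pm_113 : ℕ → ℕ → ℕ → ℕ → Bool := onCell 536870912 536870912 1610612736 536870912 923417968 42949674
    (rowB 3 eng mog cd0q1 cd2q1 pd3 1 true true false .nn 1 1 3 (qsf 536870912 536870912 536870912 536870912 3) ndB0q1 ndB2q1 pcB3 Cut.none Ext.none)

def k0_pm_113 : ∃ t, chk3 f_pm_113 t 2 1 1 = true :=
  ⟨(b (b (a (b (a (c (b (a (l 14519416) (l 14648200)) (a (l 14350568) (l 14486824))) (b (a (l 14356544) (l 14478104)) (a (l 14178568) (l 14302576)))) (b (c (l 14833168) (l 14664128)) (a (a (l 14495408) (l 14560872)) (l 14784160)))) (a (a (l 2) (a (l 2) (b (l 257257298199) (l 2)))) (c (b (l 222898092839) (l 221287111575)) (b (l 199812242135) (l 204643735847))))) (b (a (c (a (l 14939368) (l 15053056)) (b (l 14910568) (l 14761616))) (b (a (l 15156280) (l 15256392)) (a (l 15029512) (l 15140328)))) (a (b (a (l 14697024) (l 14768096)) (a (c (l 14573400) (l 14364808)) (l 14850584))) (b (a (l 14897104) (l 15018360)) (a (l 14760144)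 (l 14891456)))))) (a (b (a (l 2) (b (a (l 2) (c (l 14268648) (l 14052984))) (l 2))) (l 2)) (b (a (b (a (c (l 14417048) (l 14201376)) (l 14469720)) (a (l 350672642135) (l 14319120))) (b (a (l 14620024) (l 14761456)) (a (l 14475752) (l 14628120)))) (a (b (a (l 2) (l 14168776)) (l 2)) (b (a (l 14329416) (l 14491168)) (l 355504693015)))))) (a (l 2) (b (b (a (l 2) (b (l 359799375111) (l 2))) (l 2)) (l 2)))), by decide +kernel⟩

def k1_pm_113 : ∃ t, chk3 f_pm_113 t 3 1 1 = true :=
  ⟨(b (a (b (b (a (b (a (l 15351432) (l 15440720)) (a (l 15244896) (l 15340336))) (b (l 15737640) (l 15462976))) (a (b (l 15185192) (l 15075040)) (b (l 15378752) (l 15295528)))) (b (a (b (l 14963016) (l 14848992)) (b (l 15212992) (l 15131312))) (a (b (l 14733080) (l 14615336)) (b (l 15051344) (l 14974096))))) (b (a (b (b (l 15628392) (l 15568616)) (b (l 15514696) (l 15466224))) (b (b (l 15595568) (l 15563184)) (b (l 15542264) (l 15533216)))) (b (a (b (l 15423456) (l 15387576)) (b (l 15538328) (l 15564376)))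 (a (b (l 15361720) (l 15351008)) (b (l 15616840) (l 4)))))) (b (a (b (b (a (l 14497336) (l 14902960)) (a (l 350136213591) (l 4))) (b (a (l 339935457111) (l 4)) (l 4))) (a (l 4) (l 4))) (l 4))), by decide +kernel⟩

theorem s2_pm_113 : ∃ t, chk3 f_pm_113 t 1 1 1 = true := ex3_a k0_pm_113 k1_pm_113

theorem c_pm_113 : CertB 536870912 536870912 536870912 536870912 923417968 42949674 3 eng mog cd0q1 cd2q1 pd3 true true false .nn 1 1 3
    ndB0q1 ndB2q1 pcB3 Cut.none Ext.none :=
  certB1 (fam := true) (s1 := true) (s2 := false) (a := 1) (b := 1) (c := 3) (cn := .nn) (n1 := ndB0q1) (n2 := ndB2q1) (pc := pcB3) (cut := Cut.none) (xt := Ext.none) (P1 := 536870912) (W1 := 536870912) (P2 := 536870912) (W2 := 536870912) (P3 := 923417968) (W3 := 42949674) (N0 := 3) (En := eng) (mo := mog) (C1 := cd0q1) (C2 := cd2q1) (C3 := pd3)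
    rfl (fun _ => rfl) s2_pm_113

noncomputable def f_pm_123 : ℕ → ℕ → ℕ → ℕ → Bool := onCell 1610612736 536870912 1073741824 536870912 923417968 42949674
    (rowB 3 eng mog cd0q1 cd2q2 pd3 2 true true false .npn 1 2 3 (qsf 536870912 536870912 1073741824 536870912 3) ndB0q1 ndB2q2 pcB3 Cut.none Ext.none)

def k0_pm_123 : ∃ t, chk3 f_pm_123 t 2 1 1 = true :=
  ⟨(b (b (a (b (a (c (b (a (l 15771376) (l 15710144)) (a (l 15868384) (l 15846936))) (b (a (l 15679984) (l 15657856)) (a (l 15844152) (l 15819888)))) (b (a (b (l 15630576) (l 15707728)) (c (l 15691048) (l 15631408))) (a (l 15818624) (l 15810000)))) (a (b (a (l 1) (l 15973832)) (l 1)) (b (a (l 15957280) (l 15948248)) (a (l 16086152) (l 16075696))))) (b (a (b (a (b (l 15621240) (l 15697656)) (b (l 15627000) (l 15703288))) (a (l 15807736) (l 15812712))) (b (a (b (l 15641800) (l 15717184)) (b (l 15669600) (l 15742088))) (a (l 15824816) (l 15846784)))) (a (b (a (l 15945256) (l 15948632)) (l 15904672)) (b (a (l 15959184) (l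 15977584)) (a (l 16082984) (l 16098632)))))) (a (b (a (l 1) (b (a (l 1) (l 16192304)) (l 1))) (l 1)) (b (a (b (l 15998936) (l 16290984)) (b (l 16202312) (l 16303704))) (a (b (l 16378664) (l 1)) (b (l 16392768) (l 16465032)))))) (a (l 1) (b (a (l 1) (b (b (l 16497536) (l 1)) (l 1))) (l 1)))), by decide +kernel⟩

def k1_pm_123 : ∃ t, chk3 f_pm_123 t 6 2 1 = true :=
  ⟨(b (a (b (b (a (b (l 15718448) (l 15784728)) (c (l 15989800) (l 15805592))) (a (l 15882376) (l 15937968))) (b (a (l 16006552) (l 16050656)) (a (l 16122776) (l 16158048)))) (b (a (b (b (c (l 15993912) (l 15838064)) (l 15955456)) (l 16084024)) (b (b (a (l 16047384) (l 16165824)) (l 16110008)) (b (l 16128192) (l 16155944)))) (a (b (l 16115048) (l 16209664)) (b (l 16206536) (l 16280816))))) (a (b (b (l 16096792) (l 16339216)) (b (l 16425040) (l 16496928))) (b (a (b (l 16300120) (l 16386224)) (b (l 16356640) (l 16429392))) (a (b (l 16464624) (l 16534024)) (b (l 16499848) (l 16564360)))))), by decide +kernel⟩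

def k2_pm_123 : ∃ t, chk3 f_pm_123 t 7 4 1 = true :=
  ⟨(a (a (b (b (b (a (l 16323512) (l 16353520)) (l 16352144)) (b (l 16323376) (l 16316760))) (b (l 16332560) (l 16378208))) (a (b (b (b (a (l 16365640) (l 16374536)) (l 16391360)) (l 16427824)) (b (l 16458664) (l 16470576))) (b (b (b (c (l 16380672) (l 16373472)) (l 16406920)) (l 16444168)) (b (l 16504080) (l 16544936))))) (a (b (b (a (b (c (l 16390472) (l 16386800)) (l 16420360)) (b (a (l 16411256) (l 16408400)) (l 16440640))) (a (l 16394040) (b (l 16459112) (l 16485032)))) (b (a (l 16519840) (l 16531872)) (a (l 16591680) (l 16593576)))) (a (b (b (a (b (l 16436952) (l 16462840)) (b (l 16478456) (l 16491616))) (b (a (l 16475528) (l 16497768)) (l 16504912))) (b (b (l 16529752) (l 16559640)) (l 16553736))) (a (b (b (a (b (l 16527672) (l 16523560)) (b (l 16517880) (l 16542512))) (b (l 16525944) (l 16534592))) (b (b (l 16548904) (l 16572472)) (l 16603272))) (b (a (b (b (a (l 16548208) (l 16531024)) (a (l 16552016) (l 16559192)))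 (b (a (l 16554872) (l 16561112)) (l 16560248))) (a (b (b (c (l 16467824) (l 2116579374647)) (l 16531536)) (b (l 16499608) (l 16576464))) (a (b (l 1877134884743) (b (l 16560824) (l 16572880))) (b (l 4) (a (l 16562032) (a (l 16556016) (l 4))))))) (a (b (l 16529736) (l 16608816)) (a (b (l 16580936) (l 16614232)) (a (b (l 16460144) (l 16574600)) (a (b (l 16545064) (l 16620384)) (a (b (l 16586344) (l 16622776)) (b (c (l 16504392) (l 16539680)) (c (l 16579936) (l 16652336))))))))))))), by decide +kernel⟩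

def k3_pm_123 : ∃ t, chk3 f_pm_123 t 7 5 1 = true :=
  ⟨(a (a (b (b (l 16432560) (l 16426568)) (a (l 16564504) (l 16590256))) (b (a (b (l 16504176) (l 16545112)) (l 16441232)) (a (l 16621296) (l 16649312)))) (a (b (a (b (l 16613008) (l 16627080)) (b (l 16647624) (l 16672512))) (a (l 16687344) (l 16692168))) (a (b (b (l 16638536) (l 16664832)) (b (l 16695320) (l 16710488))) (a (b (b (l 16636048) (l 16670496)) (c (l 16675712) (l 16757968))) (a (b (b (l 16594008) (l 16676120)) (l 16723752)) (b (a (l 16417464) (a (l 16574504) (a (l 16683552) (a (l 16691104) (l 16448920))))) (a (l 16742376) (l 4)))))))), by decide +kernel⟩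

def k4_pm_123 : ∃ t, chk3 f_pm_123 t 3 3 1 = true :=
  ⟨(a (a (b (b (b (l 16549000) (l 16563808)) (a (l 1) (l 16538392))) (l 1)) (b (b (a (l 16603112) (l 16633504)) (a (l 16587528) (l 16627648))) (b (a (l 1) (l 16549824)) (l 1)))) (b (a (a (b (l 16415088) (l 16655752)) (b (a (l 16691376) (l 16700072)) (a (l 16675368) (l 16684160)))) (a (b (a (l 16698400) (l 16669448)) (a (l 16685936) (l 16688944))) (a (b (a (l 16698304) (l 16716728)) (l 16727280)) (a (b (l 16740152) (l 4)) (l 4))))) (a (a (b (l 16605456) (l 1)) (b (l 16640416) (l 16568536))) (a (b (a (l 16653960) (l 16668360)) (a (l 16600568) (l 16660880))) (a (b (l 16699480) (l 4)) (l 4)))))), by decide +kernel⟩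

theorem s5_pm_123 : ∃ t, chk3 f_pm_123 t 7 2 1 = true := ex3_b k2_pm_123 k3_pm_123

theorem s6_pm_123 : ∃ t, chk3 f_pm_123 t 3 2 1 = true := ex3_a k1_pm_123 s5_pm_123

theorem s7_pm_123 : ∃ t, chk3 f_pm_123 t 3 1 1 = true := ex3_b s6_pm_123 k4_pm_123

theorem s8_pm_123 : ∃ t, chk3 f_pm_123 t 1 1 1 = true := ex3_a k0_pm_123 s7_pm_123

theorem c_pm_123 : CertB 536870912 536870912 1073741824 536870912 923417968 42949674 3 eng mog cd0q1 cd2q2 pd3 true true false .npn 1 2 3
    ndB0q1 ndB2q2 pcB3 Cut.none Ext.none :=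
  certB2 (fam := true) (s1 := true) (s2 := false) (a := 1) (b := 2) (c := 3) (cn := .npn) (n1 := ndB0q1) (n2 := ndB2q2) (pc := pcB3) (cut := Cut.none) (xt := Ext.none) (P1 := 536870912) (W1 := 536870912) (P2 := 1073741824) (W2 := 536870912) (P3 := 923417968) (W3 := 42949674) (N0 := 3) (En := eng) (mo := mog) (C1 := cd0q1) (C2 := cd2q2) (C3 := pd3)
    rfl (fun _ => rfl) s8_pm_123

noncomputable def f_pm_133 : ℕ → ℕ → ℕ → ℕ → Bool := onCell 536870912 536870912 0 1230186008 923417968 42949674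
    (rowB 3 eng mog cd0q1 cd2q3 pd3 0 true true false .dn 1 3 3 (qsf 536870912 536870912 0 1230186008 3) ndB0q1 ndB2q3 pcB3 Cut.none Ext.none)

def k0_pm_133 : ∃ t, chk3 f_pm_133 t 1 1 1 = true :=
  ⟨(b (l 2) (b (l 2) (a (l 4) (l 2)))), by decide +kernel⟩

theorem c_pm_133 : CertB 536870912 536870912 0 1230186008 923417968 42949674 3 eng mog cd0q1 cd2q3 pd3 true true false .dn 1 3 3
    ndB0q1 ndB2q3 pcB3 Cut.none Ext.none :=
  certB0 (fam := true) (s1 := true) (s2 := false) (a := 1) (b := 3) (c := 3) (cn := .dn) (n1 := ndB0q1) (n2 := ndB2q3) (pc := pcB3) (cut := Cut.none) (xt := Ext.none) (P1 := 536870912) (W1 := 536870912) (P2 := 0) (W2 := 1230186008) (P3 := 923417968) (W3 := 42949674) (N0 := 3) (En := eng) (mo := mog) (C1 := cd0q1) (C2 := cd2q3) (C3 := pd3)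
    rfl k0_pm_133

noncomputable def f_pm_202 : ℕ → ℕ → ℕ → ℕ → Bool := onCell 0 536870912 0 536870912 923417968 42949674
    (rowB 3 eng mog cd0q2 cd2q0 pd2 0 true true false .pp 2 0 2 (qsf 0 536870912 0 536870912 2) ndB0q2 ndB2q0 pcB2 Cut.none Ext.none)

def k0_pm_202 : ∃ t, chk3 f_pm_202 t 2 1 1 = true :=
  ⟨(b (a (b (b (b (b (l 16363728) (l 16406392)) (a (l 16304360) (l 16290832))) (b (b (l 16211520) (b (l 16180088) (l 16174568))) (b (l 16151464) (l 16172640)))) (b (b (b (l 16180552) (l 16195200)) (b (l 16207184) (l 16205256))) (b (l 16079456) (a (l 16257608) (l 16164672))))) (a (b (b (b (b (c (l 16450336) (l 16356152)) (l 16435208)) (l 16121360)) (b (b (l 16163464) (b (l 16116448) (l 16101464))) (b (l 16127720) (l 16068552)))) (b (b (b (l 16060096) (l 16059416)) (l 16048056)) (l 15997032))) (b (b (b (a (l 16250128) (b (l 16405440) (l 16531432))) (b (a (l 16356464) (l 16408888)) (a (l 16246552) (l 16277992)))) (b (b (l 16012744) (b (l 16091784) (l 16065240))) (b (b (l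 16044496) (l 16026368)) (l 16005496)))) (b (b (b (l 15982824) (l 15968800)) (l 15916520)) (b (l 15886552) (l 15860192)))))) (b (b (a (a (l 4) (b (l 16170792) (l 16159272))) (a (b (l 16033488) (l 16051488)) (l 15629232))) (a (l 4) (a (b (l 16054912) (l 4)) (b (l 15899384) (l 15923192))))) (b (a (l 2) (a (l 2) (b (l 15930616) (l 2)))) (l 2)))), by decide +kernel⟩

def k1_pm_202 : ∃ t, chk3 f_pm_202 t 6 2 1 = true :=
  ⟨(b (a (b (b (a (b (l 16377808) (l 16540080)) (b (l 16347488) (l 16539608))) (b (l 16363824) (a (l 16337872) (l 16389272)))) (b (b (a (l 16209056) (l 16267064)) (b (a (l 16219224) (l 16178232)) (a (l 16073040) (l 16133104)))) (b (b (a (l 16037952) (l 16087008)) (a (l 16008256) (l 16038656))) (a (l 15974544) (b (l 15996488) (l 15961464)))))) (b (b (a (b (l 16356328) (l 16556088)) (b (l 16408880) (l 16572952))) (b (a (l 16537384) (l 16553776)) (a (l 16429152) (l 16453464)))) (b (b (a (l 16313864) (l 16345560)) (b (b (l 16260568) (l 16219320)) (l 16211992))) (b (b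 (l 16150808) (l 16109832)) (c (l 16067096) (l 16051792)))))) (b (b (a (b (a (l 15939288) (l 15923944)) (l 15897848)) (b (a (b (l 15971000) (l 15925296)) (l 16012720)) (a (l 16086496) (l 15927528)))) (a (b (l 15865680) (l 15817760)) (b (a (l 15816016) (l 16038192)) (a (l 15748104) (l 15725560))))) (a (b (l 15758832) (l 15704320)) (b (a (l 15668064) (l 15615424)) (l 15548744))))), by decide +kernel⟩

def k2_pm_202 : ∃ t, chk3 f_pm_202 t 7 2 1 = true :=
  ⟨(b (a (b (b (a (b (l 16446576) (l 16632312)) (b (b (l 16642336) (l 16636664)) (l 16506632))) (a (b (l 16550112) (l 16458424)) (b (a (l 16529592) (l 16506008)) (l 16436488)))) (b (b (a (l 16358504) (l 16345352)) (b (a (l 16265448) (l 16258856)) (a (l 16254120) (l 16252624)))) (b (a (b (l 16220496) (l 16185952)) (b (l 16223952) (l 16194232))) (a (l 16113640) (b (l 16163488) (l 16131768)))))) (b (b (a (b (a (l 16525792) (b (l 16545288) (l 16527816))) (a (l 16538096) (l 16493376))) (a (b (b (c (l 16485920) (l 16496528)) (l 16472544))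 (l 16441280)) (a (b (c (l 16449320) (l 16432584)) (b (l 16408704) (l 16387520))) (b (b (c (l 16483712) (l 16460464)) (l 16428432)) (b (l 16388208) (l 16357656)))))) (a (b (a (l 16474752) (l 16436072)) (l 16300664)) (b (a (l 16390336) (l 16317104)) (c (l 16286592) (l 16302864))))) (b (b (a (l 16303176) (c (l 16237688) (l 16231952))) (b (a (l 16119112) (a (l 16348728) (a (l 16175504) (l 16198184)))) (a (a (l 16233280) (l 16212168)) (a (l 16185000) (l 16152344))))) (b (a (b (l 16263112) (l 16175816)) (b (a (l 16166312) (l 16136848)) (a (l 16146312) (l 16119968)))) (a (b (l 16150272) (l 16123616)) (b (l 16134800) (l 16092792))))))) (b (b (a (b (a (l 16080712) (l 16188840)) (a (l 15982224) (l 16014872))) (b (a (b (l 16095888) (l 16067160)) (b (l 16070544) (l 16047136))) (a (l 16128256) (b (l 16022632) (l 15997080))))) (a (b (a (l 15890160) (l 15930216)) (a (l 15768624) (l 15814544))) (b (a (l 16009816) (b (l 15967240) (l 15919000))) (a (l 15837600) (l 15841392))))) (a (b (a (b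 (l 15644568) (l 15543848)) (l 15636736)) (a (l 15440480) (b (l 15455440) (l 15440280)))) (a (b (l 15752696) (l 15440408)) (b (c (l 15709416) (l 15655680)) (l 15612992)))))), by decide +kernel⟩

def k3_pm_202 : ∃ t, chk3 f_pm_202 t 3 3 1 = true :=
  ⟨(b (a (b (a (b (l 15674616) (l 15667672)) (b (l 15488656) (l 15455728))) (a (b (l 15682256) (l 15716928)) (b (l 15447808) (l 15463872)))) (a (b (b (a (l 15346328) (b (l 15281648) (l 15227072))) (l 15231912)) (b (l 15197048) (l 15190032))) (b (a (b (a (b (l 15257336) (l 15165760)) (l 15219856)) (a (l 15091936) (l 15132944))) (b (l 15271720) (b (l 15092968) (a (l 14987000) (l 15001960))))) (b (a (l 15001280) (a (l 14913736) (b (l 14907008) (l 14845208)))) (a (l 14974368) (l 14836552)))))) (a (b (a (b (l 15764000) (l 2)) (b (l 15502648) (l 15563112))) (l 2)) (a (b (b (l 15209584) (l 15254232)) (b (l 15322664) (l 2))) (b (b (l 15150888) (l 14923608)) (a (l 15100168) (l 14924360)))))), by decide +kernel⟩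

theorem s4_pm_202 : ∃ t, chk3 f_pm_202 t 3 2 1 = true := ex3_a k1_pm_202 k2_pm_202

theorem s5_pm_202 : ∃ t, chk3 f_pm_202 t 3 1 1 = true := ex3_b s4_pm_202 k3_pm_202

theorem s6_pm_202 : ∃ t, chk3 f_pm_202 t 1 1 1 = true := ex3_a k0_pm_202 s5_pm_202

theorem c_pm_202 : CertB 0 536870912 0 536870912 923417968 42949674 3 eng mog cd0q2 cd2q0 pd2 true true false .pp 2 0 2
    ndB0q2 ndB2q0 pcB2 Cut.none Ext.none :=
  certB0 (fam := true) (s1 := true) (s2 := false) (a := 2) (b := 0) (c := 2) (cn := .pp) (n1 := ndB0q2) (n2 := ndB2q0) (pc := pcB2) (cut := Cut.none) (xt := Ext.none) (P1 := 0) (W1 := 536870912) (P2 := 0) (W2 := 536870912) (P3 := 923417968) (W3 := 42949674) (N0 := 3) (En := eng) (mo := mog) (C1 := cd0q2) (C2 := cd2q0) (C3 := pd2)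
    rfl s6_pm_202

noncomputable def f_pm_203 : ℕ → ℕ → ℕ → ℕ → Bool := onCell 0 536870912 1610612736 536870912 923417968 42949674
    (rowB 3 eng mog cd0q2 cd2q0 pd3 1 true true false .up 2 0 3 (qsf 0 536870912 0 536870912 3) ndB0q2 ndB2q0 pcB3 Cut.none Ext.none)

def k0_pm_203 : ∃ t, chk3 f_pm_203 t 1 1 1 = true :=
  ⟨(b (a (b (b (a (l 4) (b (a (l 4) (l 15933888)) (l 4))) (l 4)) (l 4)) (b (a (b (b (c (l 15832552) (l 15768672)) (a (l 15826472) (l 15726064))) (b (a (l 4) (l 15732584)) (l 4))) (b (a (b (l 15629672) (l 15610424)) (b (l 15435928) (l 15434192))) (a (b (l 15616472) (l 2)) (l 2)))) (a (l 2) (l 2)))) (l 2)), by decide +kernel⟩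

theorem c_pm_203 : CertB 0 536870912 0 536870912 923417968 42949674 3 eng mog cd0q2 cd2q0 pd3 true true false .up 2 0 3
    ndB0q2 ndB2q0 pcB3 Cut.none Ext.none :=
  certB1 (fam := true) (s1 := true) (s2 := false) (a := 2) (b := 0) (c := 3) (cn := .up) (n1 := ndB0q2) (n2 := ndB2q0) (pc := pcB3) (cut := Cut.none) (xt := Ext.none) (P1 := 0) (W1 := 536870912) (P2 := 0) (W2 := 536870912) (P3 := 923417968) (W3 := 42949674) (N0 := 3) (En := eng) (mo := mog) (C1 := cd0q2) (C2 := cd2q0) (C3 := pd3)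
    rfl (fun _ => rfl) k0_pm_203

noncomputable def f_pm_213 : ℕ → ℕ → ℕ → ℕ → Bool := onCell 0 536870912 1610612736 536870912 923417968 42949674
    (rowB 3 eng mog cd0q2 cd2q1 pd3 1 true true false .pnn 2 1 3 (qsf 0 536870912 536870912 536870912 3) ndB0q2 ndB2q1 pcB3 Cut.none Ext.none)

def k0_pm_213 : ∃ t, chk3 f_pm_213 t 1 1 1 = true :=
  ⟨(b (a (b (b (l 1) (l 4)) (l 4)) (b (a (b (l 1) (b (a (l 1) (l 15978904)) (l 4))) (b (a (b (l 1) (l 15840440)) (b (l 15665504) (l 15647784))) (a (b (l 15839048) (l 15854040)) (b (l 15641880) (l 15647672))))) (a (l 4) (b (a (l 4) (b (l 15672056) (l 4))) (l 4))))) (l 4)), by decide +kernel⟩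

theorem c_pm_213 : CertB 0 536870912 536870912 536870912 923417968 42949674 3 eng mog cd0q2 cd2q1 pd3 true true false .pnn 2 1 3
    ndB0q2 ndB2q1 pcB3 Cut.none Ext.none :=
  certB1 (fam := true) (s1 := true) (s2 := false) (a := 2) (b := 1) (c := 3) (cn := .pnn) (n1 := ndB0q2) (n2 := ndB2q1) (pc := pcB3) (cut := Cut.none) (xt := Ext.none) (P1 := 0) (W1 := 536870912) (P2 := 536870912) (W2 := 536870912) (P3 := 923417968) (W3 := 42949674) (N0 := 3) (En := eng) (mo := mog) (C1 := cd0q2) (C2 := cd2q1) (C3 := pd3)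
    rfl (fun _ => rfl) k0_pm_213

noncomputable def f_mm_001 : ℕ → ℕ → ℕ → ℕ → Bool := onCell 0 536870912 0 536870912 923417968 42949674
    (rowB 3 eng mog cd0q0 cd2q0 pd1 0 true false false .up 0 0 1 (qsf 0 536870912 0 536870912 1) ndB0q0 ndB2q0 pcB1 Cut.none Ext.none)

def k0_mm_001 : ∃ t, chk3 f_mm_001 t 1 1 1 = true :=
  ⟨(l 4), by decide +kernel⟩

theorem c_mm_001 : CertB 0 536870912 0 536870912 923417968 42949674 3 eng mog cd0q0 cd2q0 pd1 true false false .up 0 0 1
    ndB0q0 ndB2q0 pcB1 Cut.none Ext.none :=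
  certB0 (fam := true) (s1 := false) (s2 := false) (a := 0) (b := 0) (c := 1) (cn := .up) (n1 := ndB0q0) (n2 := ndB2q0) (pc := pcB1) (cut := Cut.none) (xt := Ext.none) (P1 := 0) (W1 := 536870912) (P2 := 0) (W2 := 536870912) (P3 := 923417968) (W3 := 42949674) (N0 := 3) (En := eng) (mo := mog) (C1 := cd0q0) (C2 := cd2q0) (C3 := pd1)
    rfl k0_mm_001

noncomputable def f_mm_011 : ℕ → ℕ → ℕ → ℕ → Bool := onCell 0 536870912 536870912 536870912 923417968 42949674
    (rowB 3 eng mog cd0q0 cd2q1 pd1 0 true false false .pnn 0 1 1 (qsf 0 536870912 536870912 536870912 1) ndB0q0 ndB2q1 pcB1 Cut.none Ext.none)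

def k0_mm_011 : ∃ t, chk3 f_mm_011 t 1 1 1 = true :=
  ⟨(l 4), by decide +kernel⟩

theorem c_mm_011 : CertB 0 536870912 536870912 536870912 923417968 42949674 3 eng mog cd0q0 cd2q1 pd1 true false false .pnn 0 1 1
    ndB0q0 ndB2q1 pcB1 Cut.none Ext.none :=
  certB0 (fam := true) (s1 := false) (s2 := false) (a := 0) (b := 1) (c := 1) (cn := .pnn) (n1 := ndB0q0) (n2 := ndB2q1) (pc := pcB1) (cut := Cut.none) (xt := Ext.none) (P1 := 0) (W1 := 536870912) (P2 := 536870912) (W2 := 536870912) (P3 := 923417968) (W3 := 42949674) (N0 := 3) (En := eng) (mo := mog) (C1 := cd0q0) (C2 := cd2q1) (C3 := pd1)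
    rfl k0_mm_011

noncomputable def f_mm_012 : ℕ → ℕ → ℕ → ℕ → Bool := onCell 0 536870912 536870912 536870912 923417968 42949674
    (rowB 3 eng mog cd0q0 cd2q1 pd2 0 true false false .pnp 0 1 2 (qsf 0 536870912 536870912 536870912 2) ndB0q0 ndB2q1 pcB2 Cut.none Ext.none)

def k0_mm_012 : ∃ t, chk3 f_mm_012 t 1 1 1 = true :=
  ⟨(l 4), by decide +kernel⟩

theorem c_mm_012 : CertB 0 536870912 536870912 536870912 923417968 42949674 3 eng mog cd0q0 cd2q1 pd2 true false false .pnp 0 1 2
    ndB0q0 ndB2q1 pcB2 Cut.none Ext.none :=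
  certB0 (fam := true) (s1 := false) (s2 := false) (a := 0) (b := 1) (c := 2) (cn := .pnp) (n1 := ndB0q0) (n2 := ndB2q1) (pc := pcB2) (cut := Cut.none) (xt := Ext.none) (P1 := 0) (W1 := 536870912) (P2 := 536870912) (W2 := 536870912) (P3 := 923417968) (W3 := 42949674) (N0 := 3) (En := eng) (mo := mog) (C1 := cd0q0) (C2 := cd2q1) (C3 := pd2)
    rfl k0_mm_012

noncomputable def f_mm_022 : ℕ → ℕ → ℕ → ℕ → Bool := onCell 0 536870912 1073741824 536870912 923417968 42949674
    (rowB 3 eng mog cd0q0 cd2q2 pd2 0 true false false .pp 0 2 2 (qsf 0 536870912 1073741824 536870912 2) ndB0q0 ndB2q2 pcB2 Cut.none Ext.none)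

def k0_mm_022 : ∃ t, chk3 f_mm_022 t 1 1 1 = true :=
  ⟨(l 4), by decide +kernel⟩

theorem c_mm_022 : CertB 0 536870912 1073741824 536870912 923417968 42949674 3 eng mog cd0q0 cd2q2 pd2 true false false .pp 0 2 2
    ndB0q0 ndB2q2 pcB2 Cut.none Ext.none :=
  certB0 (fam := true) (s1 := false) (s2 := false) (a := 0) (b := 2) (c := 2) (cn := .pp) (n1 := ndB0q0) (n2 := ndB2q2) (pc := pcB2) (cut := Cut.none) (xt := Ext.none) (P1 := 0) (W1 := 536870912) (P2 := 1073741824) (W2 := 536870912) (P3 := 923417968) (W3 := 42949674) (N0 := 3) (En := eng) (mo := mog) (C1 := cd0q0) (C2 := cd2q2) (C3 := pd2)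
    rfl k0_mm_022

noncomputable def f_mm_023 : ℕ → ℕ → ℕ → ℕ → Bool := onCell 0 536870912 1073741824 536870912 923417968 42949674
    (rowB 3 eng mog cd0q0 cd2q2 pd3 0 true false false .up 0 2 3 (qsf 0 536870912 1073741824 536870912 3) ndB0q0 ndB2q2 pcB3 Cut.none Ext.none)

def k0_mm_023 : ∃ t, chk3 f_mm_023 t 1 1 1 = true :=
  ⟨(l 4), by decide +kernel⟩

theorem c_mm_023 : CertB 0 536870912 1073741824 536870912 923417968 42949674 3 eng mog cd0q0 cd2q2 pd3 true false false .up 0 2 3
    ndB0q0 ndB2q2 pcB3 Cut.none Ext.none :=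
  certB0 (fam := true) (s1 := false) (s2 := false) (a := 0) (b := 2) (c := 3) (cn := .up) (n1 := ndB0q0) (n2 := ndB2q2) (pc := pcB3) (cut := Cut.none) (xt := Ext.none) (P1 := 0) (W1 := 536870912) (P2 := 1073741824) (W2 := 536870912) (P3 := 923417968) (W3 := 42949674) (N0 := 3) (En := eng) (mo := mog) (C1 := cd0q0) (C2 := cd2q2) (C3 := pd3)
    rfl k0_mm_023

noncomputable def f_mm_033 : ℕ → ℕ → ℕ → ℕ → Bool := onCell 0 536870912 0 1230186008 923417968 42949674
    (rowB 3 eng mog cd0q0 cd2q3 pd3 0 true false false .pnn 0 3 3 (qsf 0 536870912 0 1230186008 3) ndB0q0 ndB2q3 pcB3 Cut.none Ext.none)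

def k0_mm_033 : ∃ t, chk3 f_mm_033 t 1 1 1 = true :=
  ⟨(l 5), by decide +kernel⟩

theorem c_mm_033 : CertB 0 536870912 0 1230186008 923417968 42949674 3 eng mog cd0q0 cd2q3 pd3 true false false .pnn 0 3 3
    ndB0q0 ndB2q3 pcB3 Cut.none Ext.none :=
  certB0 (fam := true) (s1 := false) (s2 := false) (a := 0) (b := 3) (c := 3) (cn := .pnn) (n1 := ndB0q0) (n2 := ndB2q3) (pc := pcB3) (cut := Cut.none) (xt := Ext.none) (P1 := 0) (W1 := 536870912) (P2 := 0) (W2 := 1230186008) (P3 := 923417968) (W3 := 42949674) (N0 := 3) (En := eng) (mo := mog) (C1 := cd0q0) (C2 := cd2q3) (C3 := pd3)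
    rfl k0_mm_033

noncomputable def f_mm_101 : ℕ → ℕ → ℕ → ℕ → Bool := onCell 536870912 536870912 0 536870912 923417968 42949674
    (rowB 3 eng mog cd0q1 cd2q0 pd1 0 true false false .npn 1 0 1 (qsf 536870912 536870912 0 536870912 1) ndB0q1 ndB2q0 pcB1 Cut.none Ext.none)

def k0_mm_101 : ∃ t, chk3 f_mm_101 t 1 1 1 = true :=
  ⟨(a (l 4) (l 4)), by decide +kernel⟩

theorem c_mm_101 : CertB 536870912 536870912 0 536870912 923417968 42949674 3 eng mog cd0q1 cd2q0 pd1 true false false .npn 1 0 1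
    ndB0q1 ndB2q0 pcB1 Cut.none Ext.none :=
  certB0 (fam := true) (s1 := false) (s2 := false) (a := 1) (b := 0) (c := 1) (cn := .npn) (n1 := ndB0q1) (n2 := ndB2q0) (pc := pcB1) (cut := Cut.none) (xt := Ext.none) (P1 := 536870912) (W1 := 536870912) (P2 := 0) (W2 := 536870912) (P3 := 923417968) (W3 := 42949674) (N0 := 3) (En := eng) (mo := mog) (C1 := cd0q1) (C2 := cd2q0) (C3 := pd1)
    rfl k0_mm_101

noncomputable def f_mm_102 : ℕ → ℕ → ℕ → ℕ → Bool := onCell 536870912 536870912 0 536870912 923417968 42949674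
    (rowB 3 eng mog cd0q1 cd2q0 pd2 0 true false false .npp 1 0 2 (qsf 536870912 536870912 0 536870912 2) ndB0q1 ndB2q0 pcB2 Cut.none Ext.none)

def k0_mm_102 : ∃ t, chk3 f_mm_102 t 1 1 1 = true :=
  ⟨(a (l 4) (l 4)), by decide +kernel⟩

theorem c_mm_102 : CertB 536870912 536870912 0 536870912 923417968 42949674 3 eng mog cd0q1 cd2q0 pd2 true false false .npp 1 0 2
    ndB0q1 ndB2q0 pcB2 Cut.none Ext.none :=
  certB0 (fam := true) (s1 := false) (s2 := false) (a := 1) (b := 0) (c := 2) (cn := .npp) (n1 := ndB0q1) (n2 := ndB2q0) (pc := pcB2) (cut := Cut.none) (xt := Ext.none) (P1 := 536870912) (W1 := 536870912) (P2 := 0) (W2 := 536870912) (P3 := 923417968) (W3 := 42949674) (N0 := 3) (En := eng) (mo := mog) (C1 := cd0q1) (C2 := cd2q0) (C3 := pd2)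
    rfl k0_mm_102

noncomputable def f_mm_112 : ℕ → ℕ → ℕ → ℕ → Bool := onCell 536870912 536870912 536870912 536870912 923417968 42949674
    (rowB 3 eng mog cd0q1 cd2q1 pd2 0 true false false .dn 1 1 2 (qsf 536870912 536870912 536870912 536870912 2) ndB0q1 ndB2q1 pcB2 Cut.none Ext.none)

def k0_mm_112 : ∃ t, chk3 f_mm_112 t 1 1 1 = true :=
  ⟨(l 4), by decide +kernel⟩

theorem c_mm_112 : CertB 536870912 536870912 536870912 536870912 923417968 42949674 3 eng mog cd0q1 cd2q1 pd2 true false false .dn 1 1 2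
    ndB0q1 ndB2q1 pcB2 Cut.none Ext.none :=
  certB0 (fam := true) (s1 := false) (s2 := false) (a := 1) (b := 1) (c := 2) (cn := .dn) (n1 := ndB0q1) (n2 := ndB2q1) (pc := pcB2) (cut := Cut.none) (xt := Ext.none) (P1 := 536870912) (W1 := 536870912) (P2 := 536870912) (W2 := 536870912) (P3 := 923417968) (W3 := 42949674) (N0 := 3) (En := eng) (mo := mog) (C1 := cd0q1) (C2 := cd2q1) (C3 := pd2)
    rfl k0_mm_112

noncomputable def f_mm_113 : ℕ → ℕ → ℕ → ℕ → Bool := onCell 536870912 536870912 536870912 536870912 923417968 42949674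
    (rowB 3 eng mog cd0q1 cd2q1 pd3 0 true false false .nn 1 1 3 (qsf 536870912 536870912 536870912 536870912 3) ndB0q1 ndB2q1 pcB3 Cut.none Ext.none)

def k0_mm_113 : ∃ t, chk3 f_mm_113 t 1 1 1 = true :=
  ⟨(l 4), by decide +kernel⟩

theorem c_mm_113 : CertB 536870912 536870912 536870912 536870912 923417968 42949674 3 eng mog cd0q1 cd2q1 pd3 true false false .nn 1 1 3
    ndB0q1 ndB2q1 pcB3 Cut.none Ext.none :=
  certB0 (fam := true) (s1 := false) (s2 := false) (a := 1) (b := 1) (c := 3) (cn := .nn) (n1 := ndB0q1) (n2 := ndB2q1) (pc := pcB3) (cut := Cut.none) (xt := Ext.none) (P1 := 536870912) (W1 := 536870912) (P2 := 536870912) (W2 := 536870912) (P3 := 923417968) (W3 := 42949674) (N0 := 3) (En := eng) (mo := mog) (C1 := cd0q1) (C2 := cd2q1) (C3 := pd3)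
    rfl k0_mm_113

noncomputable def f_mm_123 : ℕ → ℕ → ℕ → ℕ → Bool := onCell 536870912 536870912 1073741824 536870912 923417968 42949674
    (rowB 3 eng mog cd0q1 cd2q2 pd3 0 true false false .npn 1 2 3 (qsf 536870912 536870912 1073741824 536870912 3) ndB0q1 ndB2q2 pcB3 Cut.none Ext.none)

def k0_mm_123 : ∃ t, chk3 f_mm_123 t 1 1 1 = true :=
  ⟨(l 4), by decide +kernel⟩

theorem c_mm_123 : CertB 536870912 536870912 1073741824 536870912 923417968 42949674 3 eng mog cd0q1 cd2q2 pd3 true false false .npn 1 2 3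
    ndB0q1 ndB2q2 pcB3 Cut.none Ext.none :=
  certB0 (fam := true) (s1 := false) (s2 := false) (a := 1) (b := 2) (c := 3) (cn := .npn) (n1 := ndB0q1) (n2 := ndB2q2) (pc := pcB3) (cut := Cut.none) (xt := Ext.none) (P1 := 536870912) (W1 := 536870912) (P2 := 1073741824) (W2 := 536870912) (P3 := 923417968) (W3 := 42949674) (N0 := 3) (En := eng) (mo := mog) (C1 := cd0q1) (C2 := cd2q2) (C3 := pd3)
    rfl k0_mm_123

noncomputable def f_mm_133 : ℕ → ℕ → ℕ → ℕ → Bool := onCell 1610612736 536870912 0 1230186008 923417968 42949674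
    (rowB 3 eng mog cd0q1 cd2q3 pd3 2 true false false .dn 1 3 3 (qsf 536870912 536870912 0 1230186008 3) ndB0q1 ndB2q3 pcB3 Cut.none Ext.none)

def k0_mm_133 : ∃ t, chk3 f_mm_133 t 1 1 1 = true :=
  ⟨(l 5), by decide +kernel⟩

theorem c_mm_133 : CertB 536870912 536870912 0 1230186008 923417968 42949674 3 eng mog cd0q1 cd2q3 pd3 true false false .dn 1 3 3
    ndB0q1 ndB2q3 pcB3 Cut.none Ext.none :=
  certB2 (fam := true) (s1 := false) (s2 := false) (a := 1) (b := 3) (c := 3) (cn := .dn) (n1 := ndB0q1) (n2 := ndB2q3) (pc := pcB3) (cut := Cut.none) (xt := Ext.none) (P1 := 536870912) (W1 := 536870912) (P2 := 0) (W2 := 1230186008) (P3 := 923417968) (W3 := 42949674) (N0 := 3) (En := eng) (mo := mog) (C1 := cd0q1) (C2 := cd2q3) (C3 := pd3)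
    rfl (fun _ => rfl) k0_mm_133

noncomputable def f_mm_202 : ℕ → ℕ → ℕ → ℕ → Bool := onCell 0 536870912 0 536870912 923417968 42949674
    (rowB 3 eng mog cd0q2 cd2q0 pd2 0 true false false .pp 2 0 2 (qsf 0 536870912 0 536870912 2) ndB0q2 ndB2q0 pcB2 Cut.none Ext.none)

def k0_mm_202 : ∃ t, chk3 f_mm_202 t 1 1 1 = true :=
  ⟨(b (a (a (b (b (b (a (l 16438232) (l 16446960)) (a (l 16325968) (l 16351800))) (b (b (l 16281560) (b (l 16264480) (l 16268192))) (b (l 16153584) (l 16233464)))) (b (b (b (l 16255352) (l 16279792)) (a (l 16334056) (l 4))) (b (l 16156480) (l 4)))) (b (a (b (b (l 16466120) (l 16363016)) (b (b (l 16343080) (b (l 16333512) (l 16342704))) (b (l 16361216) (l 16383776)))) (b (b (b (l 16506696) (l 16461896)) (l 16496496)) (b (b (l 16382952) (b (l 16379488) (l 4))) (l 4)))) (l 4))) (b (b (a (b (a (b (l 16503336) (l 16463224)) (b (a (l 16492640) (l 88280941527)) (a (l 16470208) (l 4)))) (a (a (l 16343624) (l 62510948983)) (l 4))) (l 4)) (l 4)) (l 4))) (l 4)), by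 decide +kernel⟩

theorem c_mm_202 : CertB 0 536870912 0 536870912 923417968 42949674 3 eng mog cd0q2 cd2q0 pd2 true false false .pp 2 0 2
    ndB0q2 ndB2q0 pcB2 Cut.none Ext.none :=
  certB0 (fam := true) (s1 := false) (s2 := false) (a := 2) (b := 0) (c := 2) (cn := .pp) (n1 := ndB0q2) (n2 := ndB2q0) (pc := pcB2) (cut := Cut.none) (xt := Ext.none) (P1 := 0) (W1 := 536870912) (P2 := 0) (W2 := 536870912) (P3 := 923417968) (W3 := 42949674) (N0 := 3) (En := eng) (mo := mog) (C1 := cd0q2) (C2 := cd2q0) (C3 := pd2)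
    rfl k0_mm_202

noncomputable def f_mm_203 : ℕ → ℕ → ℕ → ℕ → Bool := onCell 0 536870912 1610612736 536870912 923417968 42949674
    (rowB 3 eng mog cd0q2 cd2q0 pd3 1 true false false .up 2 0 3 (qsf 0 536870912 0 536870912 3) ndB0q2 ndB2q0 pcB3 Cut.none Ext.none)

def k0_mm_203 : ∃ t, chk3 f_mm_203 t 1 1 1 = true :=
  ⟨(l 4), by decide +kernel⟩

theorem c_mm_203 : CertB 0 536870912 0 536870912 923417968 42949674 3 eng mog cd0q2 cd2q0 pd3 true false false .up 2 0 3
    ndB0q2 ndB2q0 pcB3 Cut.none Ext.none :=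
  certB1 (fam := true) (s1 := false) (s2 := false) (a := 2) (b := 0) (c := 3) (cn := .up) (n1 := ndB0q2) (n2 := ndB2q0) (pc := pcB3) (cut := Cut.none) (xt := Ext.none) (P1 := 0) (W1 := 536870912) (P2 := 0) (W2 := 536870912) (P3 := 923417968) (W3 := 42949674) (N0 := 3) (En := eng) (mo := mog) (C1 := cd0q2) (C2 := cd2q0) (C3 := pd3)
    rfl (fun _ => rfl) k0_mm_203

noncomputable def f_mm_213 : ℕ → ℕ → ℕ → ℕ → Bool := onCell 0 536870912 536870912 536870912 923417968 42949674
    (rowB 3 eng mog cd0q2 cd2q1 pd3 0 true false false .pnn 2 1 3 (qsf 0 536870912 536870912 536870912 3) ndB0q2 ndB2q1 pcB3 Cut.none Ext.none)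

def k0_mm_213 : ∃ t, chk3 f_mm_213 t 1 1 1 = true :=
  ⟨(l 4), by decide +kernel⟩

theorem c_mm_213 : CertB 0 536870912 536870912 536870912 923417968 42949674 3 eng mog cd0q2 cd2q1 pd3 true false false .pnn 2 1 3
    ndB0q2 ndB2q1 pcB3 Cut.none Ext.none :=
  certB0 (fam := true) (s1 := false) (s2 := false) (a := 2) (b := 1) (c := 3) (cn := .pnn) (n1 := ndB0q2) (n2 := ndB2q1) (pc := pcB3) (cut := Cut.none) (xt := Ext.none) (P1 := 0) (W1 := 536870912) (P2 := 536870912) (W2 := 536870912) (P3 := 923417968) (W3 := 42949674) (N0 := 3) (En := eng) (mo := mog) (C1 := cd0q2) (C2 := cd2q1) (C3 := pd3)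
    rfl k0_mm_213

end Pool.Agent.Strip051.G.I8600_9000.Tab.C.BA02

namespace Pool.Agent.Strip051.G.I8600_9000.Tab.C.BA03

open Pool.Agent.Strip051.PB Pool.Agent.Strip051.PB.T
open Pool.Agent.Strip051.G.I8600_9000.Tab

noncomputable def f_pp_001 : ℕ → ℕ → ℕ → ℕ → Bool := onCell 0 536870912 0 536870912 923417968 42949674
    (rowB 3 eng mog cd0q0 cd3q0 pd1 0 true true true .up 0 0 1 (qsf 0 536870912 0 536870912 1) ndB0q0 ndB3q0 pcB1 Cut.none Ext.none)

def k0_pp_001 : ∃ t, chk3 f_pp_001 t 1 1 1 = true :=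
  ⟨(l 4), by decide +kernel⟩

theorem c_pp_001 : CertB 0 536870912 0 536870912 923417968 42949674 3 eng mog cd0q0 cd3q0 pd1 true true true .up 0 0 1
    ndB0q0 ndB3q0 pcB1 Cut.none Ext.none :=
  certB0 (fam := true) (s1 := true) (s2 := true) (a := 0) (b := 0) (c := 1) (cn := .up) (n1 := ndB0q0) (n2 := ndB3q0) (pc := pcB1) (cut := Cut.none) (xt := Ext.none) (P1 := 0) (W1 := 536870912) (P2 := 0) (W2 := 536870912) (P3 := 923417968) (W3 := 42949674) (N0 := 3) (En := eng) (mo := mog) (C1 := cd0q0) (C2 := cd3q0) (C3 := pd1)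
    rfl k0_pp_001

noncomputable def f_pp_011 : ℕ → ℕ → ℕ → ℕ → Bool := onCell 0 536870912 536870912 536870912 923417968 42949674
    (rowB 3 eng mog cd0q0 cd3q1 pd1 0 true true true .pnn 0 1 1 (qsf 0 536870912 536870912 536870912 1) ndB0q0 ndB3q1 pcB1 Cut.none Ext.none)

def k0_pp_011 : ∃ t, chk3 f_pp_011 t 1 1 1 = true :=
  ⟨(l 4), by decide +kernel⟩

theorem c_pp_011 : CertB 0 536870912 536870912 536870912 923417968 42949674 3 eng mog cd0q0 cd3q1 pd1 true true true .pnn 0 1 1
    ndB0q0 ndB3q1 pcB1 Cut.none Ext.none :=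
  certB0 (fam := true) (s1 := true) (s2 := true) (a := 0) (b := 1) (c := 1) (cn := .pnn) (n1 := ndB0q0) (n2 := ndB3q1) (pc := pcB1) (cut := Cut.none) (xt := Ext.none) (P1 := 0) (W1 := 536870912) (P2 := 536870912) (W2 := 536870912) (P3 := 923417968) (W3 := 42949674) (N0 := 3) (En := eng) (mo := mog) (C1 := cd0q0) (C2 := cd3q1) (C3 := pd1)
    rfl k0_pp_011

noncomputable def f_pp_012 : ℕ → ℕ → ℕ → ℕ → Bool := onCell 0 536870912 536870912 536870912 923417968 42949674
    (rowB 3 eng mog cd0q0 cd3q1 pd2 0 true true true .pnp 0 1 2 (qsf 0 536870912 536870912 536870912 2) ndB0q0 ndB3q1 pcB2 Cut.none Ext.none)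

def k0_pp_012 : ∃ t, chk3 f_pp_012 t 1 1 1 = true :=
  ⟨(l 4), by decide +kernel⟩

theorem c_pp_012 : CertB 0 536870912 536870912 536870912 923417968 42949674 3 eng mog cd0q0 cd3q1 pd2 true true true .pnp 0 1 2
    ndB0q0 ndB3q1 pcB2 Cut.none Ext.none :=
  certB0 (fam := true) (s1 := true) (s2 := true) (a := 0) (b := 1) (c := 2) (cn := .pnp) (n1 := ndB0q0) (n2 := ndB3q1) (pc := pcB2) (cut := Cut.none) (xt := Ext.none) (P1 := 0) (W1 := 536870912) (P2 := 536870912) (W2 := 536870912) (P3 := 923417968) (W3 := 42949674) (N0 := 3) (En := eng) (mo := mog) (C1 := cd0q0) (C2 := cd3q1) (C3 := pd2)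
    rfl k0_pp_012

noncomputable def f_pp_022 : ℕ → ℕ → ℕ → ℕ → Bool := onCell 0 536870912 1073741824 536870912 923417968 42949674
    (rowB 3 eng mog cd0q0 cd3q2 pd2 0 true true true .pp 0 2 2 (qsf 0 536870912 1073741824 536870912 2) ndB0q0 ndB3q2 pcB2 Cut.none Ext.none)

def k0_pp_022 : ∃ t, chk3 f_pp_022 t 1 1 1 = true :=
  ⟨(l 4), by decide +kernel⟩

theorem c_pp_022 : CertB 0 536870912 1073741824 536870912 923417968 42949674 3 eng mog cd0q0 cd3q2 pd2 true true true .pp 0 2 2
    ndB0q0 ndB3q2 pcB2 Cut.none Ext.none :=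
  certB0 (fam := true) (s1 := true) (s2 := true) (a := 0) (b := 2) (c := 2) (cn := .pp) (n1 := ndB0q0) (n2 := ndB3q2) (pc := pcB2) (cut := Cut.none) (xt := Ext.none) (P1 := 0) (W1 := 536870912) (P2 := 1073741824) (W2 := 536870912) (P3 := 923417968) (W3 := 42949674) (N0 := 3) (En := eng) (mo := mog) (C1 := cd0q0) (C2 := cd3q2) (C3 := pd2)
    rfl k0_pp_022

noncomputable def f_pp_023 : ℕ → ℕ → ℕ → ℕ → Bool := onCell 0 536870912 1073741824 536870912 923417968 42949674
    (rowB 3 eng mog cd0q0 cd3q2 pd3 0 true true true .up 0 2 3 (qsf 0 536870912 1073741824 536870912 3) ndB0q0 ndB3q2 pcB3 Cut.none Ext.none)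

def k0_pp_023 : ∃ t, chk3 f_pp_023 t 1 1 1 = true :=
  ⟨(l 4), by decide +kernel⟩

theorem c_pp_023 : CertB 0 536870912 1073741824 536870912 923417968 42949674 3 eng mog cd0q0 cd3q2 pd3 true true true .up 0 2 3
    ndB0q0 ndB3q2 pcB3 Cut.none Ext.none :=
  certB0 (fam := true) (s1 := true) (s2 := true) (a := 0) (b := 2) (c := 3) (cn := .up) (n1 := ndB0q0) (n2 := ndB3q2) (pc := pcB3) (cut := Cut.none) (xt := Ext.none) (P1 := 0) (W1 := 536870912) (P2 := 1073741824) (W2 := 536870912) (P3 := 923417968) (W3 := 42949674) (N0 := 3) (En := eng) (mo := mog) (C1 := cd0q0) (C2 := cd3q2) (C3 := pd3)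
    rfl k0_pp_023

noncomputable def f_pp_033 : ℕ → ℕ → ℕ → ℕ → Bool := onCell 0 536870912 0 1230186008 923417968 42949674
    (rowB 3 eng mog cd0q0 cd3q3 pd3 0 true true true .pnn 0 3 3 (qsf 0 536870912 0 1230186008 3) ndB0q0 ndB3q3 pcB3 Cut.none Ext.none)

def k0_pp_033 : ∃ t, chk3 f_pp_033 t 1 1 1 = true :=
  ⟨(b (l 4) (l 4)), by decide +kernel⟩

theorem c_pp_033 : CertB 0 536870912 0 1230186008 923417968 42949674 3 eng mog cd0q0 cd3q3 pd3 true true true .pnn 0 3 3
    ndB0q0 ndB3q3 pcB3 Cut.none Ext.none :=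
  certB0 (fam := true) (s1 := true) (s2 := true) (a := 0) (b := 3) (c := 3) (cn := .pnn) (n1 := ndB0q0) (n2 := ndB3q3) (pc := pcB3) (cut := Cut.none) (xt := Ext.none) (P1 := 0) (W1 := 536870912) (P2 := 0) (W2 := 1230186008) (P3 := 923417968) (W3 := 42949674) (N0 := 3) (En := eng) (mo := mog) (C1 := cd0q0) (C2 := cd3q3) (C3 := pd3)
    rfl k0_pp_033

noncomputable def f_pp_101 : ℕ → ℕ → ℕ → ℕ → Bool := onCell 536870912 536870912 0 536870912 923417968 42949674
    (rowB 3 eng mog cd0q1 cd3q0 pd1 0 true true true .npn 1 0 1 (qsf 536870912 536870912 0 536870912 1) ndB0q1 ndB3q0 pcB1 Cut.none Ext.none)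

def k0_pp_101 : ∃ t, chk3 f_pp_101 t 1 1 1 = true :=
  ⟨(l 4), by decide +kernel⟩

theorem c_pp_101 : CertB 536870912 536870912 0 536870912 923417968 42949674 3 eng mog cd0q1 cd3q0 pd1 true true true .npn 1 0 1
    ndB0q1 ndB3q0 pcB1 Cut.none Ext.none :=
  certB0 (fam := true) (s1 := true) (s2 := true) (a := 1) (b := 0) (c := 1) (cn := .npn) (n1 := ndB0q1) (n2 := ndB3q0) (pc := pcB1) (cut := Cut.none) (xt := Ext.none) (P1 := 536870912) (W1 := 536870912) (P2 := 0) (W2 := 536870912) (P3 := 923417968) (W3 := 42949674) (N0 := 3) (En := eng) (mo := mog) (C1 := cd0q1) (C2 := cd3q0) (C3 := pd1)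
    rfl k0_pp_101

noncomputable def f_pp_102 : ℕ → ℕ → ℕ → ℕ → Bool := onCell 536870912 536870912 0 536870912 923417968 42949674
    (rowB 3 eng mog cd0q1 cd3q0 pd2 0 true true true .npp 1 0 2 (qsf 536870912 536870912 0 536870912 2) ndB0q1 ndB3q0 pcB2 Cut.none Ext.none)

def k0_pp_102 : ∃ t, chk3 f_pp_102 t 1 1 1 = true :=
  ⟨(l 4), by decide +kernel⟩

theorem c_pp_102 : CertB 536870912 536870912 0 536870912 923417968 42949674 3 eng mog cd0q1 cd3q0 pd2 true true true .npp 1 0 2
    ndB0q1 ndB3q0 pcB2 Cut.none Ext.none :=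
  certB0 (fam := true) (s1 := true) (s2 := true) (a := 1) (b := 0) (c := 2) (cn := .npp) (n1 := ndB0q1) (n2 := ndB3q0) (pc := pcB2) (cut := Cut.none) (xt := Ext.none) (P1 := 536870912) (W1 := 536870912) (P2 := 0) (W2 := 536870912) (P3 := 923417968) (W3 := 42949674) (N0 := 3) (En := eng) (mo := mog) (C1 := cd0q1) (C2 := cd3q0) (C3 := pd2)
    rfl k0_pp_102

noncomputable def f_pp_112 : ℕ → ℕ → ℕ → ℕ → Bool := onCell 536870912 536870912 536870912 536870912 923417968 42949674
    (rowB 3 eng mog cd0q1 cd3q1 pd2 0 true true true .dn 1 1 2 (qsf 536870912 536870912 536870912 536870912 2) ndB0q1 ndB3q1 pcB2 Cut.none Ext.none)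

def k0_pp_112 : ∃ t, chk3 f_pp_112 t 1 1 1 = true :=
  ⟨(l 4), by decide +kernel⟩

theorem c_pp_112 : CertB 536870912 536870912 536870912 536870912 923417968 42949674 3 eng mog cd0q1 cd3q1 pd2 true true true .dn 1 1 2
    ndB0q1 ndB3q1 pcB2 Cut.none Ext.none :=
  certB0 (fam := true) (s1 := true) (s2 := true) (a := 1) (b := 1) (c := 2) (cn := .dn) (n1 := ndB0q1) (n2 := ndB3q1) (pc := pcB2) (cut := Cut.none) (xt := Ext.none) (P1 := 536870912) (W1 := 536870912) (P2 := 536870912) (W2 := 536870912) (P3 := 923417968) (W3 := 42949674) (N0 := 3) (En := eng) (mo := mog) (C1 := cd0q1) (C2 := cd3q1) (C3 := pd2)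
    rfl k0_pp_112

noncomputable def f_pp_113 : ℕ → ℕ → ℕ → ℕ → Bool := onCell 536870912 536870912 536870912 536870912 923417968 42949674
    (rowB 3 eng mog cd0q1 cd3q1 pd3 0 true true true .nn 1 1 3 (qsf 536870912 536870912 536870912 536870912 3) ndB0q1 ndB3q1 pcB3 Cut.none Ext.none)

def k0_pp_113 : ∃ t, chk3 f_pp_113 t 1 1 1 = true :=
  ⟨(l 4), by decide +kernel⟩

theorem c_pp_113 : CertB 536870912 536870912 536870912 536870912 923417968 42949674 3 eng mog cd0q1 cd3q1 pd3 true true true .nn 1 1 3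
    ndB0q1 ndB3q1 pcB3 Cut.none Ext.none :=
  certB0 (fam := true) (s1 := true) (s2 := true) (a := 1) (b := 1) (c := 3) (cn := .nn) (n1 := ndB0q1) (n2 := ndB3q1) (pc := pcB3) (cut := Cut.none) (xt := Ext.none) (P1 := 536870912) (W1 := 536870912) (P2 := 536870912) (W2 := 536870912) (P3 := 923417968) (W3 := 42949674) (N0 := 3) (En := eng) (mo := mog) (C1 := cd0q1) (C2 := cd3q1) (C3 := pd3)
    rfl k0_pp_113

noncomputable def f_pp_123 : ℕ → ℕ → ℕ → ℕ → Bool := onCell 536870912 536870912 1073741824 536870912 923417968 42949674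
    (rowB 3 eng mog cd0q1 cd3q2 pd3 0 true true true .npn 1 2 3 (qsf 536870912 536870912 1073741824 536870912 3) ndB0q1 ndB3q2 pcB3 Cut.none Ext.none)

def k0_pp_123 : ∃ t, chk3 f_pp_123 t 1 1 1 = true :=
  ⟨(l 4), by decide +kernel⟩

theorem c_pp_123 : CertB 536870912 536870912 1073741824 536870912 923417968 42949674 3 eng mog cd0q1 cd3q2 pd3 true true true .npn 1 2 3
    ndB0q1 ndB3q2 pcB3 Cut.none Ext.none :=
  certB0 (fam := true) (s1 := true) (s2 := true) (a := 1) (b := 2) (c := 3) (cn := .npn) (n1 := ndB0q1) (n2 := ndB3q2) (pc := pcB3) (cut := Cut.none) (xt := Ext.none) (P1 := 536870912) (W1 := 536870912) (P2 := 1073741824) (W2 := 536870912) (P3 := 923417968) (W3 := 42949674) (N0 := 3) (En := eng) (mo := mog) (C1 := cd0q1) (C2 := cd3q2) (C3 := pd3)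
    rfl k0_pp_123

noncomputable def f_pp_133 : ℕ → ℕ → ℕ → ℕ → Bool := onCell 536870912 536870912 0 1230186008 923417968 42949674
    (rowB 3 eng mog cd0q1 cd3q3 pd3 0 true true true .dn 1 3 3 (qsf 536870912 536870912 0 1230186008 3) ndB0q1 ndB3q3 pcB3 Cut.none Ext.none)

def k0_pp_133 : ∃ t, chk3 f_pp_133 t 1 1 1 = true :=
  ⟨(l 4), by decide +kernel⟩

theorem c_pp_133 : CertB 536870912 536870912 0 1230186008 923417968 42949674 3 eng mog cd0q1 cd3q3 pd3 true true true .dn 1 3 3
    ndB0q1 ndB3q3 pcB3 Cut.none Ext.none :=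
  certB0 (fam := true) (s1 := true) (s2 := true) (a := 1) (b := 3) (c := 3) (cn := .dn) (n1 := ndB0q1) (n2 := ndB3q3) (pc := pcB3) (cut := Cut.none) (xt := Ext.none) (P1 := 536870912) (W1 := 536870912) (P2 := 0) (W2 := 1230186008) (P3 := 923417968) (W3 := 42949674) (N0 := 3) (En := eng) (mo := mog) (C1 := cd0q1) (C2 := cd3q3) (C3 := pd3)
    rfl k0_pp_133

noncomputable def f_pp_202 : ℕ → ℕ → ℕ → ℕ → Bool := onCell 0 536870912 0 536870912 923417968 42949674
    (rowB 3 eng mog cd0q2 cd3q0 pd2 0 true true true .pp 2 0 2 (qsf 0 536870912 0 536870912 2) ndB0q2 ndB3q0 pcB2 Cut.none Ext.none)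

def k0_pp_202 : ∃ t, chk3 f_pp_202 t 1 1 1 = true :=
  ⟨(l 5), by decide +kernel⟩

theorem c_pp_202 : CertB 0 536870912 0 536870912 923417968 42949674 3 eng mog cd0q2 cd3q0 pd2 true true true .pp 2 0 2
    ndB0q2 ndB3q0 pcB2 Cut.none Ext.none :=
  certB0 (fam := true) (s1 := true) (s2 := true) (a := 2) (b := 0) (c := 2) (cn := .pp) (n1 := ndB0q2) (n2 := ndB3q0) (pc := pcB2) (cut := Cut.none) (xt := Ext.none) (P1 := 0) (W1 := 536870912) (P2 := 0) (W2 := 536870912) (P3 := 923417968) (W3 := 42949674) (N0 := 3) (En := eng) (mo := mog) (C1 := cd0q2) (C2 := cd3q0) (C3 := pd2)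
    rfl k0_pp_202

noncomputable def f_pp_203 : ℕ → ℕ → ℕ → ℕ → Bool := onCell 0 536870912 0 536870912 923417968 42949674
    (rowB 3 eng mog cd0q2 cd3q0 pd3 0 true true true .up 2 0 3 (qsf 0 536870912 0 536870912 3) ndB0q2 ndB3q0 pcB3 Cut.none Ext.none)

def k0_pp_203 : ∃ t, chk3 f_pp_203 t 1 1 1 = true :=
  ⟨(l 5), by decide +kernel⟩

theorem c_pp_203 : CertB 0 536870912 0 536870912 923417968 42949674 3 eng mog cd0q2 cd3q0 pd3 true true true .up 2 0 3
    ndB0q2 ndB3q0 pcB3 Cut.none Ext.none :=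
  certB0 (fam := true) (s1 := true) (s2 := true) (a := 2) (b := 0) (c := 3) (cn := .up) (n1 := ndB0q2) (n2 := ndB3q0) (pc := pcB3) (cut := Cut.none) (xt := Ext.none) (P1 := 0) (W1 := 536870912) (P2 := 0) (W2 := 536870912) (P3 := 923417968) (W3 := 42949674) (N0 := 3) (En := eng) (mo := mog) (C1 := cd0q2) (C2 := cd3q0) (C3 := pd3)
    rfl k0_pp_203

noncomputable def f_pp_213 : ℕ → ℕ → ℕ → ℕ → Bool := onCell 0 536870912 536870912 536870912 923417968 42949674
    (rowB 3 eng mog cd0q2 cd3q1 pd3 0 true true true .pnn 2 1 3 (qsf 0 536870912 536870912 536870912 3) ndB0q2 ndB3q1 pcB3 Cut.none Ext.none)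

def k0_pp_213 : ∃ t, chk3 f_pp_213 t 1 1 1 = true :=
  ⟨(l 4), by decide +kernel⟩

theorem c_pp_213 : CertB 0 536870912 536870912 536870912 923417968 42949674 3 eng mog cd0q2 cd3q1 pd3 true true true .pnn 2 1 3
    ndB0q2 ndB3q1 pcB3 Cut.none Ext.none :=
  certB0 (fam := true) (s1 := true) (s2 := true) (a := 2) (b := 1) (c := 3) (cn := .pnn) (n1 := ndB0q2) (n2 := ndB3q1) (pc := pcB3) (cut := Cut.none) (xt := Ext.none) (P1 := 0) (W1 := 536870912) (P2 := 536870912) (W2 := 536870912) (P3 := 923417968) (W3 := 42949674) (N0 := 3) (En := eng) (mo := mog) (C1 := cd0q2) (C2 := cd3q1) (C3 := pd3)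
    rfl k0_pp_213

noncomputable def f_pm_001 : ℕ → ℕ → ℕ → ℕ → Bool := onCell 0 536870912 536870912 536870912 923417968 42949674
    (rowB 3 eng mog cd0q0 cd3q0 pd1 1 true true false .up 0 0 1 (qsf 0 536870912 0 536870912 1) ndB0q0 ndB3q0 pcB1 Cut.none Ext.none)

def k0_pm_001 : ∃ t, chk3 f_pm_001 t 1 2 1 = true :=
  ⟨(l 3), by decide +kernel⟩

def k1_pm_001 : ∃ t, chk3 f_pm_001 t 1 6 1 = true :=
  ⟨(l 3), by decide +kernel⟩

def k2_pm_001 : ∃ t, chk3 f_pm_001 t 2 7 1 = true :=
  ⟨(l 2), by decide +kernel⟩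

def k3_pm_001 : ∃ t, chk3 f_pm_001 t 6 7 1 = true :=
  ⟨(b (b (l 3) (l 2)) (l 2)), by decide +kernel⟩

def k4_pm_001 : ∃ t, chk3 f_pm_001 t 7 28 1 = true :=
  ⟨(b (l 3) (b (l 3) (a (l 3) (a (l 3) (a (a (l 3) (c (c (l 214378402471) (l 194514222007)) (b (l 3) (c (l 16234256) (l 265917455415))))) (c (c (l 211157136487) (l 164986304855)) (c (a (l 184850211239) (l 16181672)) (c (l 173575798647) (a (l 177870613575) (l 173575637319)))))))))), by decide +kernel⟩

def k5_pm_001 : ∃ t, chk3 f_pm_001 t 7 58 1 = true :=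
  ⟨(b (a (b (l 3) (a (l 2) (a (l 3) (c (c (l 314236400039) (l 213841487767)) (c (l 208472751479) (l 213841132679)))))) (c (a (c (a (b (l 3) (l 224042066615)) (l 220820820343)) (a (a (l 214915330119) (l 207399107143)) (c (l 16387600) (l 16336184)))) (c (a (l 216525834007) (l 16380920)) (a (a (l 16345192) (l 16334608)) (l 16320336)))) (a (a (b (l 3) (c (l 200419605095) (a (l 209009208791) (l 16083680)))) (b (c (l 195050834295) (a (l 214914759639) (l 198808575319))) (c (l 16225136) (a (l 16123448) (l 16112032))))) (a (c (a (l 16190792) (l 16223088)) (a (b (l 16045760) (l 16101848)) (b (l 16100184) (l 16092880)))) (c (c (l 16239744) (l 16180576)) (a (l 16088992) (l 16082672))))))) (a (a (l 2) (c (a (c (c (b (l 316920974743) (l 94052404199)) (l 229410876375)) (l 227263323207)) (c (c (a (l 16444400) (l 16420192)) (l 16459336)) (c (l 16433160) (l 16382704)))) (c (a (b (l 214915295287) (l 16330464)) (b (l 66738826631) (l 16294136))) (a (b (l 220283675671) (l 16181704)) (a (l 211693642903)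 (l 16116984)))))) (c (a (c (a (b (l 16321744) (l 16363304)) (l 16336008)) (c (a (l 16402376) (l 16374728)) (a (l 16351400) (l 16323768)))) (c (a (l 16405400) (l 16386432)) (a (l 16325832) (l 16304992)))) (a (c (a (b (l 16246072) (l 16262120)) (l 16216264)) (a (b (l 16096056) (l 16133328)) (c (l 16142128) (l 16075000)))) (a (c (l 16214160) (a (l 16092072) (l 16082392))) (c (l 16195320) (l 16070192))))))), by decide +kernel⟩

def k6_pm_001 : ∃ t, chk3 f_pm_001 t 7 59 1 = true :=
  ⟨(a (a (l 2) (a (b (c (c (b (l 110695129463) (l 2)) (l 16393320)) (c (l 16325880) (l 16177952))) (l 2)) (c (c (b (b (l 16317952) (l 16306024)) (l 16287880)) (l 16300840)) (c (b (l 16288336) (l 16281216)) (b (l 16139344) (l 16154120)))))) (c (a (c (a (b (l 16325848) (l 16387272)) (l 16263200)) (c (l 16371184) (b (l 16326264) (l 16316008)))) (a (b (l 16233280) (l 16304248)) (a (l 16208776) (l 16218648)))) (a (c (a (l 16250616) (l 16220800)) (b (a (l 16126712) (l 16098064)) (l 16081808))) (c (b (l 16190808)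 (l 16177928)) (a (b (l 16074352) (l 16062456)) (l 16048568)))))), by decide +kernel⟩

def k7_pm_001 : ∃ t, chk3 f_pm_001 t 7 15 1 = true :=
  ⟨(a (a (l 2) (a (l 2) (b (a (l 2) (a (l 2) (b (c (l 16228552) (l 16196192)) (l 2)))) (l 2)))) (a (b (c (b (a (b (l 16287952) (l 16340672)) (l 16209968)) (l 85998649655)) (b (c (a (l 16234632) (l 16201568)) (l 16090848)) (c (l 16203376) (l 16078088)))) (a (l 2) (c (l 16085280) (l 15899480)))) (b (b (c (c (l 16331736) (l 16269712)) (c (l 16160168) (l 16013232))) (c (l 16209368) (a (l 16092696) (l 16065296)))) (c (b (l 16275768) (l 16263096)) (c (l 16116720) (l 15991952)))))), by decide +kernel⟩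

theorem s8_pm_001 : ∃ t, chk3 f_pm_001 t 7 29 1 = true := ex3_b k5_pm_001 k6_pm_001

theorem s9_pm_001 : ∃ t, chk3 f_pm_001 t 7 14 1 = true := ex3_b k4_pm_001 s8_pm_001

theorem s10_pm_001 : ∃ t, chk3 f_pm_001 t 7 7 1 = true := ex3_b s9_pm_001 k7_pm_001

theorem s11_pm_001 : ∃ t, chk3 f_pm_001 t 3 7 1 = true := ex3_a k3_pm_001 s10_pm_001

theorem s12_pm_001 : ∃ t, chk3 f_pm_001 t 1 7 1 = true := ex3_a k2_pm_001 s11_pm_001

theorem s13_pm_001 : ∃ t, chk3 f_pm_001 t 1 3 1 = true := ex3_b k1_pm_001 s12_pm_001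

theorem s14_pm_001 : ∃ t, chk3 f_pm_001 t 1 1 1 = true := ex3_b k0_pm_001 s13_pm_001

theorem c_pm_001 : CertB 0 536870912 0 536870912 923417968 42949674 3 eng mog cd0q0 cd3q0 pd1 true true false .up 0 0 1
    ndB0q0 ndB3q0 pcB1 Cut.none Ext.none :=
  certB1 (fam := true) (s1 := true) (s2 := false) (a := 0) (b := 0) (c := 1) (cn := .up) (n1 := ndB0q0) (n2 := ndB3q0) (pc := pcB1) (cut := Cut.none) (xt := Ext.none) (P1 := 0) (W1 := 536870912) (P2 := 0) (W2 := 536870912) (P3 := 923417968) (W3 := 42949674) (N0 := 3) (En := eng) (mo := mog) (C1 := cd0q0) (C2 := cd3q0) (C3 := pd1)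
    rfl (fun _ => rfl) s14_pm_001

noncomputable def cut_pm_011 : Cut := Cut.of [[⟨0, 0, 0, 67108864⟩, ⟨1, 1, 0, 67108864⟩, ⟨2, 1, 0, 67108864⟩]]

noncomputable def f_pm_011 : ℕ → ℕ → ℕ → ℕ → Bool := onCell 0 536870912 536870912 536870912 923417968 42949674
    (rowB 3 eng mog cd0q0 cd3q1 pd1 1 true true false .pnn 0 1 1 (qsf 0 536870912 536870912 536870912 1) ndB0q0 ndB3q1 pcB1 cut_pm_011 Ext.none)

def k0_pm_011 : ∃ t, chk3 f_pm_011 t 1 2 1 = true :=
  ⟨(l 3), by decide +kernel⟩

def k1_pm_011 : ∃ t, chk3 f_pm_011 t 1 6 1 = true :=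
  ⟨(l 3), by decide +kernel⟩

def k2_pm_011 : ∃ t, chk3 f_pm_011 t 1 14 1 = true :=
  ⟨(b (a (l 3) (a (l 3) (a (l 3) (l 1)))) (a (l 3) (b (a (l 3) (a (b (a (l 3) (a (l 3) (l 1))) (a (a (l 3) (b (l 3) (a (l 165523365703) (l 164449605719)))) (a (c (c (l 163375872215) (l 16384072)) (l 16342656)) (c (l 236256070711) (l 16326792))))) (l 1))) (a (a (l 3) (a (b (l 3) (c (b (a (l 3) (l 169281578231)) (a (l 168744735415) (l 16473424))) (a (l 183240183367) (l 16425776)))) (b (b (l 3) (c (a (l 169281551751) (l 166597155911)) (l 222968391031))) (c (a (b (l 16481864) (l 16431168)) (l 16436312)) (a (l 16383008) (l 16362920)))))) (a (a (c (b (a (c (l 165523392183) (l 16401408)) (l 122573687447)) (a (l 16396352) (l 16378472))) (b (a (l 16360104) (l 16342672)) (l 16356504))) (c (a (b (l 16378896) (l 16361616)) (l 16416520)) (a (l 16318968) (l 16303464)))) (a (c (l 220149880679) (l 16342992)) (l 1))))))), by decide +kernel⟩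

def k3_pm_011 : ∃ t, chk3 f_pm_011 t 2 30 1 = true :=
  ⟨(a (l 3) (a (a (l 3) (b (l 3) (b (l 3) (b (a (l 3) (c (c (l 279877235415) (l 504826081399)) (a (l 211157772711) (l 16624944)))) (c (a (c (l 352891701511) (l 497846794503)) (c (l 16641576) (l 16606360))) (a (a (l 525227178007) (l 292762047639)) (a (l 16610304) (l 16597552)))))))) (b (b (l 3) (a (l 3) (a (l 3) (c (b (l 3) (l 155323133847)) (l 183240381335))))) (a (a (a (b (l 3) (c (l 234243143527) (l 16629560))) (c (b (b (l 3) (l 489793651735)) (l 16597752)) (b (l 210620859687) (l 16574504)))) (c (b (b (l 484961771383) (a (l 288467033687) (l 16552256))) (a (l 16596144) (l 16541984))) (b (b (l 207936478535) (l 16584912)) (l 16575768)))) (c (a (b (c (b (l 280950821287) (l 16584280)) (l 16612176)) (b (l 16547688) (l 16562200))) (b (c (l 16584216) (l 16544392)) (l 16519328))) (b (a (l 195588414183) (l 16513240)) (a (l 16528216) (l 16501352)))))))), by decide +kernel⟩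

def k4_pm_011 : ∃ t, chk3 f_pm_011 t 3 30 1 = true :=
  ⟨(a (a (b (b (a (a (l 3) (b (l 3) (c (l 161765527255) (l 16484600)))) (c (a (b (l 167134200759) (l 16547552)) (b (l 16542296) (l 16481168))) (a (l 185924606119) (l 16457016)))) (a (a (c (b (l 156396851143) (l 16560880)) (l 185924682151)) (c (c (l 16549640) (l 16507648)) (l 16472776))) (c (a (l 16514256) (l 16469064)) (a (l 16446480) (l 16421336))))) (a (c (b (a (l 16549608) (l 16503168)) (a (l 16514920) (l 16489408))) (b (a (l 16486280) (l 16459376)) (l 16481656))) (c (b (l 16528728) (l 16472944)) (b (l 16420264) (l 16408040))))) (a (b (c (b (a (l 16503944) (l 16439672)) (l 16512984)) (b (a (l 16411800) (l 16389104)) (l 16385704))) (c (b (l 16419040) (l 16405120)) (l 16381352))) (b (c (b (a (l 16418424) (l 16398288)) (l 16391792)) (a (l 16360248) (l 16340176))) (c (l 16411184) (l 16322480))))) (a (a (b (c (b (l 16391176) (l 16353888)) (l 16302216)) (c (l 16331480) (l 16285136))) (b (c (l 16390984) (l 16280512)) (c (l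 16298128) (l 16253168)))) (a (b (c (l 16295336) (l 16249640)) (l 16308336)) (b (l 1) (l 16234560))))), by decide +kernel⟩

def k5_pm_011 : ∃ t, chk3 f_pm_011 t 2 62 1 = true :=
  ⟨(a (a (l 3) (a (a (l 3) (b (l 3) (b (l 3) (b (a (l 3) (c (a (l 448454835463) (l 306184032167)) (l 450602288279))) (a (c (a (l 431811849223) (l 300278464951)) (a (l 439328021607) (l 300815317687))) (c (a (l 286856680791) (l 16688176)) (l 284709173751))))))) (a (b (l 3) (b (b (a (l 3) (c (l 471540247943) (l 482814516567))) (a (c (l 456507874007) (l 466708402759)) (c (a (l 298667816167) (l 16680752)) (l 294372821111)))) (a (c (b (a (l 293299118999) (l 16683016)) (l 16680400)) (b (l 289540997831) (l 16696160))) (c (b (a (l 16677992) (l 16673080)) (l 16670352)) (l 16689192))))) (b (b (l 3) (a (l 3) (c (b (l 3) (l 475835184935)) (l 496236250103)))) (c (b (a (c (b (l 297594056599) (l 16666736)) (l 289541000903)) (b (l 278266679847) (l 16661992))) (a (l 16658128) (l 16654328))) (b (a (a (l 293299068519)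 (l 16661776)) (l 16649560)) (l 16663200))))))) (c (a (a (a (b (c (b (l 499457490663) (a (l 294909674183) (l 16655488))) (a (l 283098536103) (l 266455524103))) (b (a (l 16645608) (l 16669376)) (l 16631520))) (b (a (b (l 285245981783) (l 16651304)) (b (l 263234262679) (l 16661848))) (b (l 16638216) (l 16649032)))) (a (b (b (a (l 16656704) (l 16645528)) (l 16645384)) (l 16637776)) (b (l 16604512) (l 16615264)))) (a (b (a (l 16602056) (l 16577984)) (l 16579992)) (b (l 16540840) (l 16530960)))) (a (a (b (a (b (a (l 3) (l 518784792743)) (a (b (l 504289298759) (l 16648448)) (l 283098452199))) (b (a (l 301352047095) (l 288467120951)) (a (l 16627752) (l 16636912)))) (a (a (l 16653472) (l 16653528)) (l 16626024))) (b (a (b (a (l 16629736) (l 16617456)) (l 16597800)) (b (l 16598664) (l 16593896))) (a (l 16612504) (l 16566752)))) (a (b (a (l 16570624) (l 16544480)) (l 16486232)) (a (l 16492432) (l 16486488)))))), by decide +kernel⟩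

def k6_pm_011 : ∃ t, chk3 f_pm_011 t 3 62 1 = true :=
  ⟨(a (a (a (c (l 16484824) (a (l 16459360) (l 16432216))) (c (a (l 16446984) (l 16422600)) (l 16392704))) (a (c (l 16387672) (l 16344024)) (c (l 16345088) (l 16300672)))) (a (a (l 16328456) (l 16275328)) (a (l 16223408) (l 16191792)))), by decide +kernel⟩

def k7_pm_011 : ∃ t, chk3 f_pm_011 t 4 63 1 = true :=
  ⟨(a (a (l 6) (b (a (b (l 3) (l 6)) (b (a (l 3) (a (l 3) (b (l 3) (c (l 354502477639) (l 429664375815))))) (a (a (b (b (l 3) (l 6)) (l 6)) (c (b (l 267529402631) (l 16737504)) (b (l 310479044407) (l 16707808)))) (c (b (a (l 278803679367) (l 16723272)) (a (l 16734512) (l 16730688))) (b (a (l 295446651895) (l 16702880)) (l 16723888)))))) (a (l 6) (b (b (a (c (l 16722480) (l 16728960)) (a (l 16707424) (l 16704368))) (a (l 6) (l 16704352))) (a (l 6) (c (l 16712496) (l 16719416))))))) (c (a (b (a (b (a (b (a (l 3) (l 401747104071)) (a (l 294372922807) (l 287393588535))) (b (a (l 307257811335) (l 294372897239)) (a (l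 16714960) (l 16699000)))) (a (a (b (l 16709832) (l 16725240)) (l 16704256)) (b (l 16696224) (l 16711544)))) (a (b (b (a (l 16704184) (l 16693536)) (l 16690848)) (l 16682520)) (b (a (l 16685504) (l 16680216)) (l 16692784)))) (a (b (a (l 16713776) (l 16702808)) (a (l 16701608) (l 16669688))) (b (l 16691800) (l 16653464)))) (b (b (a (a (l 16672432) (l 16683352)) (c (l 16644168) (l 16673368))) (a (c (l 16653016) (l 16680720)) (l 16658168))) (a (c (l 16625432) (l 16641856)) (l 16598808)))) (a (b (a (b (a (b (a (l 3) (l 430201235911)) (a (l 302425962135) (l 16708552))) (b (a (l 308868401239) (l 294372879415)) (l 16708720))) (a (c (l 16720768) (l 16694464)) (l 16711536))) (b (a (b (l 16693168) (l 16707120)) (l 16700880)) (a (l 16704784) (l 16697800)))) (a (b (a (l 16715472) (l 16708992)) (l 16704208)) (b (l 16697760) (l 16684392)))) (b (a (b (l 16673848) (l 16686656)) (l 16642568)) (a (l 16672472) (l 16655696)))))), by decide +kernel⟩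

def k8_pm_011 : ∃ t, chk3 f_pm_011 t 5 63 1 = true :=
  ⟨(b (a (a (a (a (b (l 16644704) (l 16654224)) (l 16600520)) (c (l 16633104) (l 16630192))) (a (l 16576496) (l 16594992))) (a (c (l 16572336) (l 16543216)) (l 16507392))) (a (a (a (b (l 16617736) (l 16626264)) (l 16578192)) (c (l 16592880) (l 16590888))) (a (l 16533296) (l 16503440)))), by decide +kernel⟩

def k9_pm_011 : ∃ t, chk3 f_pm_011 t 3 63 1 = true :=
  ⟨(a (a (a (c (l 16469888) (l 16433680)) (l 16379736)) (a (c (l 16372456) (l 16331304)) (l 16246816))) (a (a (l 16272552) (l 16240848)) (a (l 16210344) (l 16178936)))), by decide +kernel⟩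

theorem s10_pm_011 : ∃ t, chk3 f_pm_011 t 2 63 1 = true := ex3_a k7_pm_011 k8_pm_011

theorem s11_pm_011 : ∃ t, chk3 f_pm_011 t 1 63 1 = true := ex3_a s10_pm_011 k9_pm_011

theorem s12_pm_011 : ∃ t, chk3 f_pm_011 t 1 62 1 = true := ex3_a k5_pm_011 k6_pm_011

theorem s13_pm_011 : ∃ t, chk3 f_pm_011 t 1 31 1 = true := ex3_b s12_pm_011 s11_pm_011

theorem s14_pm_011 : ∃ t, chk3 f_pm_011 t 1 30 1 = true := ex3_a k3_pm_011 k4_pm_011

theorem s15_pm_011 : ∃ t, chk3 f_pm_011 t 1 15 1 = true := ex3_b s14_pm_011 s13_pm_011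

theorem s16_pm_011 : ∃ t, chk3 f_pm_011 t 1 7 1 = true := ex3_b k2_pm_011 s15_pm_011

theorem s17_pm_011 : ∃ t, chk3 f_pm_011 t 1 3 1 = true := ex3_b k1_pm_011 s16_pm_011

theorem s18_pm_011 : ∃ t, chk3 f_pm_011 t 1 1 1 = true := ex3_b k0_pm_011 s17_pm_011

theorem c_pm_011 : CertB 0 536870912 536870912 536870912 923417968 42949674 3 eng mog cd0q0 cd3q1 pd1 true true false .pnn 0 1 1
    ndB0q0 ndB3q1 pcB1 cut_pm_011 Ext.none :=
  certB1 (fam := true) (s1 := true) (s2 := false) (a := 0) (b := 1) (c := 1) (cn := .pnn) (n1 := ndB0q0) (n2 := ndB3q1) (pc := pcB1) (cut := cut_pm_011) (xt := Ext.none) (P1 := 0) (W1 := 536870912) (P2 := 536870912) (W2 := 536870912) (P3 := 923417968) (W3 := 42949674) (N0 := 3) (En := eng) (mo := mog) (C1 := cd0q0) (C2 := cd3q1) (C3 := pd1)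
    rfl (fun _ => rfl) s18_pm_011

end Pool.Agent.Strip051.G.I8600_9000.Tab.C.BA03

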