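import Pool.Agent.Strip051.G.I8600_9000.Tab

/-! # Certificates B5 (generated) -/

set_option linter.all false
set_option maxRecDepth 100000

namespace Pool.Agent.Strip051.G.I8600_9000.Tab.C.BA03

open Pool.Agent.Strip051.PB Pool.Agent.Strip051.PB.T
open Pool.Agent.Strip051.G.I8600_9000.Tab

noncomputable def cut_pm_012 : Cut := Cut.of [[⟨0, 0, 0, 67108864⟩, ⟨1, 1, 0, 67108864⟩, ⟨2, 1, 0, 67108864⟩]]

noncomputable def f_pm_012 : ℕ → ℕ → ℕ → ℕ → Bool := onCell 1073741824 536870912 536870912 536870912 923417968 42949674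
    (rowB 3 eng mog cd0q0 cd3q1 pd2 2 true true false .pnp 0 1 2 (qsf 0 536870912 536870912 536870912 2) ndB0q0 ndB3q1 pcB2 cut_pm_012 Ext.none)

def k0_pm_012 : ∃ t, chk3 f_pm_012 t 4 2 1 = true :=
  ⟨(b (a (b (a (b (a (b (l 15898096) (l 15931456)) (l 15961648)) (a (b (l 15992272) (l 15953232)) (b (l 15981320) (l 15998680)))) (b (l 16034192) (a (l 16041272) (l 16085720)))) (a (b (a (c (l 16014592) (l 15965680)) (c (l 16047904) (l 16016296))) (a (b (l 16051832) (l 16057472)) (c (l 16097960) (l 16066248)))) (b (a (l 16013024) (l 16118864)) (a (l 16120152) (l 16158416))))) (b (a (b (l 2) (l 16137712)) (l 2)) (a (b (l 16173944) (l 16041960)) (b (l 16160920) (l 16168208))))) (a (b (a (b (a (c (l 16123016) (l 16075616)) (c (l 16150264) (l 16118744))) (a (b (l 16167408) (l 16220728)) (c (l 16207776) (l 16177464)))) (b (a (l 16128648) (l 16204440)) (a (l 16182064) (l 16254112)))) (a (b (a (b (l 16275224) (l 16309768)) (c (l 16270128) (l 16241944))) (a (c (b (l 16301496)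 (l 16336360)) (b (l 16262040) (l 16299120))) (a (l 16234864) (l 16330408)))) (b (a (l 16283448) (l 16309424)) (a (l 16347704) (l 16369936))))) (b (a (b (a (l 16236384) (l 16230536)) (l 16163632)) (b (l 16171408) (l 16173344))) (a (b (l 16237368) (c (l 16270048) (l 16292184))) (b (l 16192072) (l 16039616)))))), by decide +kernel⟩

def k1_pm_012 : ∃ t, chk3 f_pm_012 t 4 6 1 = true :=
  ⟨(b (a (c (a (b (a (b (l 16371328) (l 16405776)) (l 16404840)) (a (a (l 16367936) (l 16460608)) (l 16472560))) (b (l 16307896) (b (l 16393176) (l 16393168)))) (b (a (a (b (l 16336512) (l 16373536)) (l 16383816)) (l 16354032)) (a (a (b (l 16410104) (l 16425112)) (l 16456296)) (a (l 16448784) (l 16373184))))) (a (a (b (l 16306368) (l 16253704)) (b (l 16243112) (l 16227480))) (b (a (l 16181360) (l 16121064)) (c (l 16133008) (l 16125984))))) (a (a (b (a (c (b (l 16484216) (l 16515704)) (a (b (l 16474168) (l 16508608)) (l 16505816))) (c (l 16510704) (l 16526472))) (a (b (a (c (l 16562824)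 (l 16521304)) (l 16564440)) (a (c (l 16591536) (l 16568720)) (l 16553448))) (b (c (l 16518240) (l 16532072)) (a (l 16530584) (l 16484352))))) (b (a (c (l 16431552) (l 16444280)) (c (l 16355200) (l 16361200))) (a (c (a (l 16456096) (l 16413776)) (l 16355792)) (c (l 16351792) (l 16349168))))) (a (b (a (c (l 16281728) (l 16280984)) (l 16207752)) (a (c (l 16250704) (l 16261672)) (b (l 16191344) (l 16159752)))) (b (c (l 16121032) (l 16093136)) (a (c (l 16120696) (l 16096064)) (c (l 16050000) (l 16018200))))))), by decide +kernel⟩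

def k2_pm_012 : ∃ t, chk3 f_pm_012 t 4 14 1 = true :=
  ⟨(b (a (a (a (c (b (a (l 16617816) (l 16600728)) (a (l 16599320) (l 16612392))) (a (b (l 16582128) (l 16587280)) (a (l 16607912) (l 16603672)))) (a (b (c (l 16552976) (l 16561424)) (a (l 16556368) (l 16551352))) (b (l 16466384) (c (l 16512464) (l 16513472))))) (a (b (c (l 16458520) (l 16436280)) (c (l 16463880) (l 16456608))) (b (c (l 16349672) (l 16340560)) (c (l 16348408) (l 16335016))))) (a (a (c (b (l 16264496) (l 16260256)) (l 16243168)) (c (b (l 16182504) (l 16174912)) (l 16130496))) (a (c (l 16140328) (l 16063072)) (c (l 16021200) (l 15978016))))) (b (c (a (a (a (a (a (l 16659608) (l 16665632)) (l 16609896)) (a (l 16572920) (l 16521104))) (a (b (l 16443928) (l 16446896)) (l 16346048))) (a (a (l 16235088) (l 16167768)) (a (l 16082376) (l 16000344)))) (a (a (a (a (a (l 16627816) (l 16657616)) (l 16610856)) (a (l 16574872) (l 16518752))) (a (a (l 16463616) (l 16409608)) (l 16331144))) (a (a (l 16208888)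 (l 16133000)) (a (l 16039080) (l 15948600))))) (a (a (a (a (b (c (l 16636040) (l 16628296)) (a (a (l 16658112) (l 16682856)) (l 16666776))) (a (b (l 16652264) (l 16617016)) (c (l 16626016) (l 16628392)))) (c (a (a (l 16598760) (l 16571664)) (l 16531392)) (a (l 16563272) (l 16525912)))) (a (a (c (l 16457432) (l 16468360)) (c (l 16426352) (l 16411736))) (c (c (l 16334576) (l 16324176)) (l 16343296)))) (a (a (c (a (l 16277184) (l 16229848)) (l 16201864)) (c (a (l 16183584) (l 16138568)) (l 16142040))) (c (a (l 16072408) (l 15987096)) (a (l 16023856) (l 15929696))))))), by decide +kernel⟩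

def k3_pm_012 : ∃ t, chk3 f_pm_012 t 16 15 1 = true :=
  ⟨(b (a (a (b (a (b (a (l 16668600) (l 16693280)) (l 6)) (c (l 16675048) (l 16679504))) (l 6)) (b (a (c (c (l 16646448) (l 16647448)) (l 16628136)) (c (b (l 16636432) (l 16643256)) (l 16618736))) (a (l 6) (a (l 6) (b (l 16641552) (l 6)))))) (a (a (b (c (l 16611952) (l 16609424)) (b (c (l 16621552) (l 16617288)) (l 6))) (b (c (l 16584120) (l 16579240)) (c (c (l 16577128) (l 16594552)) (l 16594296)))) (b (c (b (l 16539736) (l 16545464)) (b (l 16532048) (l 16536352))) (c (b (l 16551160) (l 16564584)) (b (l 16540736) (l 16555568)))))) (b (b (a (l 6) (a (l 6) (a (l 6) (b (l 16529232) (l 6))))) (l 6)) (l 6))), by decide +kernel⟩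

def k4_pm_012 : ∃ t, chk3 f_pm_012 t 17 15 1 = true :=
  ⟨(b (a (b (a (c (l 16482592) (l 16474672)) (c (l 16412824) (l 16394856))) (a (c (b (l 16474344) (l 16495072)) (b (l 16479936) (l 16483584))) (c (b (l 16440032) (l 16423408)) (b (l 16419712) (l 16401568))))) (b (c (b (l 16347984) (a (l 16382152) (l 16329440))) (b (l 16328920) (l 16329632))) (c (b (a (l 16385480) (l 16331776)) (a (l 16389024) (l 16334424))) (a (l 16340176) (b (l 16301448) (l 16302376)))))) (a (b (a (b (c (b (l 16483016) (l 16495880)) (l 16487208)) (a (l 6) (c (l 16495536) (l 16475080)))) (c (a (b (l 16462760) (l 16467080)) (b (l 16434624) (l 16438696))) (b (l 16414968) (a (l 16443896) (l 16412800))))) (a (l 6) (a (l 6) (a (l 6) (b (b (l 16462904) (l 6)) (l 6)))))) (a (b (c (b (a (l 16406608) (l 16378736)) (c (l 16403488) (l 16389040))) (b (l 16343224) (l 16349352))) (a (b (c (c (l 16421200) (l 16406776)) (l 16384168)) (l 6)) (b (c (l 16406616) (l 16352960)) (a (l 6) (c (l 16402656) (l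 16347048)))))) (b (b (c (l 16337280) (l 16303576)) (c (c (l 16348712) (l 16331664)) (a (l 16320232) (l 16289672)))) (b (c (c (l 16352040) (l 16334272)) (c (l 16315856) (l 16296800))) (c (c (b (l 16354448) (l 16355984)) (b (l 16336168) (l 16337384))) (c (l 16338656) (l 16297904)))))))), by decide +kernel⟩

def k5_pm_012 : ∃ t, chk3 f_pm_012 t 9 15 1 = true :=
  ⟨(a (b (a (a (b (c (l 16277368) (l 16244928)) (c (b (l 16279024) (l 16280680)) (l 16264552))) (b (c (l 16227480) (l 16190256)) (c (b (l 16227344) (l 16227912)) (l 16186288)))) (b (c (a (l 16179064) (l 16131704)) (a (l 16137088) (l 16085008))) (c (a (l 16197464) (l 16126600)) (a (l 16130144) (l 16075264))))) (a (b (c (b (a (l 16282648) (l 16228888)) (a (l 16305800) (l 16230176))) (b (a (l 16243688) (l 16184680)) (c (l 16204256) (l 16181800)))) (c (b (a (c (l 16297264) (l 16276840)) (c (l 16243104) (l 16220056))) (a (c (b (l 16299264) (l 16300584)) (l 16299736)) (c (l 16266144) (l 16221288)))) (b (a (c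 (l 16255664) (l 16233744)) (l 16183880)) (a (c (l 16256816) (l 16234088)) (c (l 16196512) (l 16170856)))))) (b (c (a (b (l 16176104) (l 16176416)) (b (l 16124424) (l 16123648))) (a (b (l 16126672) (l 16125008)) (l 16089296))) (c (a (b (l 16198008) (c (l 16191048) (l 16164480))) (b (l 16123288) (c (l 16137744) (l 16108488)))) (a (b (l 16123736) (l 16122760)) (b (l 16064512) (l 16062520))))))) (b (a (b (c (a (l 16085448) (l 16040456)) (l 16071768)) (c (a (l 16078192) (l 16030872)) (a (l 16021920) (l 15969696)))) (b (c (l 15974384) (l 15911408)) (c (a (l 15984680) (l 15939784)) (l 15977272)))) (a (b (c (a (b (l 16073936) (l 16071984)) (b (l 16024736) (l 16021536))) (a (l 16012000) (l 15956984))) (c (a (b (l 16070552) (l 16090512)) (b (l 16018928) (l 16016840))) (a (b (l 16006336) (l 16003216)) (b (l 15949312) (l 15944976))))) (a (b (c (l 15995736) (l 15903528)) (c (b (l 15968536) (l 15965288)) (l 15932624))) (b (c (l 15927560) (l 15851216)) (c (b (l 15919472)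 (l 15914968)) (l 15835584))))))), by decide +kernel⟩

def k6_pm_012 : ∃ t, chk3 f_pm_012 t 5 2 1 = true :=
  ⟨(b (a (b (l 2) (a (l 16107104) (l 2))) (l 2)) (a (b (a (c (l 15972800) (l 16109856)) (b (l 16033728) (l 16012512))) (a (a (b (l 16095496) (l 16081256)) (a (l 16051336) (a (l 16012216) (l 15916672)))) (b (l 15985536) (l 15934576)))) (a (b (l 15833704) (c (l 15890152) (l 15892992))) (b (l 2) (c (l 15800320) (l 15826048)))))), by decide +kernel⟩

def k7_pm_012 : ∃ t, chk3 f_pm_012 t 5 6 1 = true :=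
  ⟨(a (b (a (c (a (l 16033736) (a (l 16012080) (a (l 15991040) (l 15977056)))) (a (l 16044336) (a (l 15997480) (l 16092600)))) (b (l 15900424) (l 15927616))) (a (a (b (l 16001640) (c (l 15981968) (l 15943088))) (a (b (l 15952928) (l 15911048)) (c (b (l 15938000) (l 15921696)) (b (l 15902864) (l 15853024))))) (b (l 15822368) (c (l 15821936) (l 15766288))))) (b (a (c (b (l 15835400) (l 15793072)) (b (l 15813176) (l 15754360))) (b (l 15744000) (l 15829544))) (a (b (a (l 15753072) (l 15695248)) (c (l 15701320) (l 15633968))) (b (a (l 15640312) (l 15591184)) (a (l 15578904) (l 15522256)))))), by decide +kernel⟩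

def k8_pm_012 : ∃ t, chk3 f_pm_012 t 5 7 1 = true :=
  ⟨(a (b (a (a (b (c (l 15947288) (l 15896328)) (c (b (l 15921704) (l 15905256)) (l 15850448))) (a (b (l 15866464) (c (l 15855592) (l 15786072))) (b (c (a (l 15868136) (l 15851280)) (l 15799024)) (c (a (l 15827472) (l 15809256)) (l 15786360))))) (b (c (l 15859200) (l 15727048)) (c (b (l 15738944) (l 15714568)) (b (l 15659224) (l 15627792))))) (c (a (a (b (b (l 15889312) (l 15873968)) (b (a (l 15881520) (l 15836832)) (a (b (l 15871880) (l 15866008)) (l 15864000)))) (b (a (l 15860952) (a (l 15788608) (b (l 15778720) (l 15759112)))) (a (b (l 15792992) (l 15797384)) (a (b (l 15760864) (l 15743312)) (b (l 15782072) (a (l 15727208) (l 15716608))))))) (b (b (l 15711720) (a (l 15707808) (l 15627704))) (b (a (l 15686752) (l 15603280)) (a (l 15729280) (l 15579480))))) (a (a (b (b (l 15817120) (l 15795824)) (b (a (l 15800104) (l 15750360)) (a (l 15782072) (l 15729744)))) (b (a (l 15736760) (b (l 15704440) (l 15699568)))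 (a (b (l 15701360) (l 15678656)) (b (a (l 15665248) (l 15641568)) (a (l 15641360) (l 15616760)))))) (b (b (l 15596920) (l 15650432)) (b (a (l 15582752) (l 15491608)) (a (l 15555592) (l 15460744))))))) (b (a (b (c (l 15647544) (l 15565808)) (c (b (l 15603816) (l 15574408)) (l 15597776))) (b (c (l 15527912) (l 15434232)) (c (l 15462808) (l 15353656)))) (b (a (b (c (l 15544536) (l 15436848)) (c (l 15514608) (l 15399392))) (c (b (l 15410816) (l 15375992)) (b (l 15289920) (l 15247184)))) (a (b (c (l 15611136) (l 15404520)) (c (a (l 15496488) (l 15417296)) (a (l 15370056) (l 15283408)))) (b (c (l 15340784) (l 15204032)) (c (l 15389472) (l 15160896))))))), by decide +kernel⟩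

def k9_pm_012 : ∃ t, chk3 f_pm_012 t 3 1 1 = true :=
  ⟨(b (a (b (l 2) (a (b (l 2) (a (l 15595600) (l 2))) (l 2))) (l 2)) (a (b (a (b (a (c (l 15889808) (l 15607632)) (b (l 15621664) (l 15549072))) (a (b (l 15741632) (a (l 15574576) (l 15425616))) (b (l 15465568) (a (l 15389312) (l 15356024))))) (b (a (b (l 2) (l 15498888)) (l 2)) (a (b (l 15414040) (l 15337696)) (b (l 15371440) (l 15274512))))) (a (b (a (b (a (l 15393400) (l 15422904)) (c (l 15344520) (l 15223192))) (b (a (b (l 15315200) (l 15265544)) (l 15253456)) (a (l 15198296) (b (l 15170872) (l 15120152))))) (c (b (a (l 15268632) (l 15152016)) (a (b (l 15208792) (l 15168824)) (b (l 15087560) (l 15043608)))) (b (a (l 15130872) (l 15001832)) (a (b (l 15058632) (l 15010368)) (l 15003280))))) (b (a (b (a (l 15222344) (l 15194544)) (a (b (l 15135440) (l 15074904)) (l 15075432))) (b (l 15289288) (a (l 15050528) (l 15029000)))) (a (c (b (a (l 15071848) (l 15026808)) (l 14951208)) (b (a (l 14913408) (l 14865472))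 (l 14771088))) (b (a (b (l 14950728) (l 14880760)) (l 14893224)) (a (b (l 14937736) (l 14751496)) (b (l 14782088) (c (l 14802496) (l 14605608))))))))) (b (a (b (l 2) (a (b (l 2) (l 15240784)) (l 2))) (l 2)) (a (b (a (b (l 15131944) (c (l 15063776) (l 14946992))) (b (l 15108408) (l 15155592))) (c (a (b (l 14941360) (l 14930352)) (b (l 14915072) (l 14778496))) (a (b (l 14792504) (l 14621808)) (b (l 14779968) (l 14608712))))) (b (a (b (l 2) (l 14975848)) (l 2)) (a (b (c (l 14900640) (l 14783216)) (c (l 14766104) (l 14613440))) (b (l 14886688) (c (l 14765112) (l 14633584))))))))), by decide +kernel⟩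

theorem s10_pm_012 : ∃ t, chk3 f_pm_012 t 5 3 1 = true := ex3_b k7_pm_012 k8_pm_012

theorem s11_pm_012 : ∃ t, chk3 f_pm_012 t 5 1 1 = true := ex3_b k6_pm_012 s10_pm_012

theorem s12_pm_012 : ∃ t, chk3 f_pm_012 t 8 15 1 = true := ex3_a k3_pm_012 k4_pm_012

theorem s13_pm_012 : ∃ t, chk3 f_pm_012 t 4 15 1 = true := ex3_a s12_pm_012 k5_pm_012

theorem s14_pm_012 : ∃ t, chk3 f_pm_012 t 4 7 1 = true := ex3_b k2_pm_012 s13_pm_012

theorem s15_pm_012 : ∃ t, chk3 f_pm_012 t 4 3 1 = true := ex3_b k1_pm_012 s14_pm_012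

theorem s16_pm_012 : ∃ t, chk3 f_pm_012 t 4 1 1 = true := ex3_b k0_pm_012 s15_pm_012

theorem s17_pm_012 : ∃ t, chk3 f_pm_012 t 2 1 1 = true := ex3_a s16_pm_012 s11_pm_012

theorem s18_pm_012 : ∃ t, chk3 f_pm_012 t 1 1 1 = true := ex3_a s17_pm_012 k9_pm_012

theorem c_pm_012 : CertB 0 536870912 536870912 536870912 923417968 42949674 3 eng mog cd0q0 cd3q1 pd2 true true false .pnp 0 1 2
    ndB0q0 ndB3q1 pcB2 cut_pm_012 Ext.none :=
  certB2 (fam := true) (s1 := true) (s2 := false) (a := 0) (b := 1) (c := 2) (cn := .pnp) (n1 := ndB0q0) (n2 := ndB3q1) (pc := pcB2) (cut := cut_pm_012) (xt := Ext.none) (P1 := 0) (W1 := 536870912) (P2 := 536870912) (W2 := 536870912) (P3 := 923417968) (W3 := 42949674) (N0 := 3) (En := eng) (mo := mog) (C1 := cd0q0) (C2 := cd3q1) (C3 := pd2)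
    rfl (fun _ => rfl) s18_pm_012

noncomputable def f_pm_022 : ℕ → ℕ → ℕ → ℕ → Bool := onCell 0 536870912 1073741824 536870912 923417968 42949674
    (rowB 3 eng mog cd0q0 cd3q2 pd2 1 true true false .pp 0 2 2 (qsf 0 536870912 1073741824 536870912 2) ndB0q0 ndB3q2 pcB2 Cut.none Ext.none)

def k0_pm_022 : ∃ t, chk3 f_pm_022 t 1 2 1 = true :=
  ⟨(b (l 3) (a (b (b (b (l 3) (b (l 3) (b (l 3) (a (a (a (l 16273784) (l 16301552)) (a (l 16374880) (l 260012596455))) (a (a (a (l 16376592) (a (l 16381608) (c (l 16393536) (l 16374440)))) (a (a (l 442414422711) (l 1)) (l 1))) (l 1)))))) (a (a (a (l 16261680) (l 16312704)) (a (b (l 16319832) (l 16350880)) (c (l 16360456) (l 16371408)))) (a (b (a (a (l 16386416) (b (a (l 16387904) (l 16390592)) (l 16397144))) (a (b (a (l 418792129447) (l 437045732359)) (l 206191279367)) (l 431140146615))) (a (l 16382680) (a (l 16413160) (l 415034107175)))) (a (a (l 427918944279) (l 1)) (l 1))))) (a (a (a (b (l 16288976) (l 16283440)) (l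 16260648)) (a (b (l 16360240) (l 16362272)) (b (l 16393944) (l 16393008)))) (a (a (b (l 16418104) (l 16424984)) (b (b (l 16406744) (l 16436640)) (l 16444128))) (b (a (b (l 388190509143) (l 16426528)) (l 415034113399)) (a (l 16457312) (l 353830727815)))))) (a (a (a (b (l 1) (l 479458655511)) (l 1)) (l 1)) (l 1)))), by decide +kernel⟩

def k1_pm_022 : ∃ t, chk3 f_pm_022 t 1 3 1 = true :=
  ⟨(a (a (b (a (b (a (l 16151280) (l 16172728)) (a (l 15922888) (l 15981528))) (b (a (l 16192880) (l 16214256)) (a (l 15997384) (l 16013904)))) (a (b (a (l 15710128) (l 15828424)) (c (l 15628632) (l 15589584))) (b (a (l 15841232) (l 15853952)) (a (l 15719936) (l 15730176))))) (b (a (b (a (l 16135984) (l 16274832)) (a (l 16033968) (l 16059584))) (a (b (l 16314928) (l 16090240)) (b (l 16382728) (l 16126640)))) (a (b (l 15856400) (l 15746584)) (b (l 15921728) (l 15775432))))) (a (b (a (b (b (a (l 16482544) (l 299606847783)) (a (l 16307896) (l 16407344))) (a (l 16148496) (b (l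 16278104) (l 16160416)))) (b (b (l 1) (a (l 163778591495) (l 1))) (a (b (l 16249312) (l 16209864)) (l 371009987815)))) (a (b (a (l 15967384) (l 16004832)) (l 15820088)) (b (a (l 16046136) (l 16153024)) (l 15882048)))) (b (a (b (l 1) (a (b (l 1) (l 361346467047)) (l 1))) (l 1)) (a (b (a (l 336113062647) (l 359198559447)) (a (l 15935456) (l 15972960))) (b (a (l 350071829415) (l 1)) (a (l 184716083399) (b (l 236255736615) (l 16012656)))))))), by decide +kernel⟩

theorem s2_pm_022 : ∃ t, chk3 f_pm_022 t 1 1 1 = true := ex3_b k0_pm_022 k1_pm_022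

theorem c_pm_022 : CertB 0 536870912 1073741824 536870912 923417968 42949674 3 eng mog cd0q0 cd3q2 pd2 true true false .pp 0 2 2
    ndB0q0 ndB3q2 pcB2 Cut.none Ext.none :=
  certB1 (fam := true) (s1 := true) (s2 := false) (a := 0) (b := 2) (c := 2) (cn := .pp) (n1 := ndB0q0) (n2 := ndB3q2) (pc := pcB2) (cut := Cut.none) (xt := Ext.none) (P1 := 0) (W1 := 536870912) (P2 := 1073741824) (W2 := 536870912) (P3 := 923417968) (W3 := 42949674) (N0 := 3) (En := eng) (mo := mog) (C1 := cd0q0) (C2 := cd3q2) (C3 := pd2)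
    rfl (fun _ => rfl) s2_pm_022

noncomputable def f_pm_023 : ℕ → ℕ → ℕ → ℕ → Bool := onCell 0 536870912 1610612736 536870912 923417968 42949674
    (rowB 3 eng mog cd0q0 cd3q2 pd3 1 true true false .up 0 2 3 (qsf 0 536870912 1073741824 536870912 3) ndB0q0 ndB3q2 pcB3 Cut.none Ext.none)

def k0_pm_023 : ∃ t, chk3 f_pm_023 t 1 1 1 = true :=
  ⟨(a (b (a (b (a (b (a (b (l 15406000) (l 15377272)) (b (l 15412448) (l 15385328))) (b (a (l 2) (l 15364856)) (l 2))) (b (a (b (l 15418480) (l 15392768)) (b (l 15429448) (l 15398288))) (a (l 15620144) (l 15376408)))) (b (a (l 2) (a (l 2) (l 15366808))) (l 2))) (b (a (a (b (b (l 15457712) (l 15406080)) (l 15380424)) (b (l 15464648) (l 15382072))) (b (l 15523048) (a (l 15398896) (l 15427424)))) (a (b (a (l 15374136) (l 15376184)) (a (l 2) (l 15388992))) (b (b (l 15376896) (l 15378288)) (l 15391512))))) (a (l 2) (b (b (a (l 2) (l 15416320)) (l 2)) (l 2)))) (b (a (b (a (b (l 15613096) (l 15484152)) (b (l 15715520) (l 15573632)))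 (b (a (l 15488976) (l 15469520)) (a (l 15384336) (l 15415800)))) (b (a (b (a (l 15798392) (l 15855384)) (l 15673704)) (b (a (l 15914720) (l 16061904)) (a (l 15753792) (l 15810720)))) (a (b (l 15557168) (l 15480112)) (b (l 15653472) (l 15562552))))) (a (b (b (a (l 15414888) (l 15412616)) (b (a (l 15435792) (l 15439144)) (a (l 2) (l 15450968)))) (a (l 2) (b (b (l 15463080) (l 2)) (l 2)))) (b (b (a (l 15452064) (l 15512480)) (a (l 15464040) (l 15508240))) (a (b (b (l 15489160) (b (l 15501728) (l 15514624))) (b (b (l 15551160) (l 2)) (l 2))) (b (b (l 15525368) (b (l 15538536) (l 15554856))) (b (b (l 15576248) (l 15598224)) (b (l 15627616) (b (l 15649008) (b (l 15659528) (l 4))))))))))), by decide +kernel⟩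

theorem c_pm_023 : CertB 0 536870912 1073741824 536870912 923417968 42949674 3 eng mog cd0q0 cd3q2 pd3 true true false .up 0 2 3
    ndB0q0 ndB3q2 pcB3 Cut.none Ext.none :=
  certB1 (fam := true) (s1 := true) (s2 := false) (a := 0) (b := 2) (c := 3) (cn := .up) (n1 := ndB0q0) (n2 := ndB3q2) (pc := pcB3) (cut := Cut.none) (xt := Ext.none) (P1 := 0) (W1 := 536870912) (P2 := 1073741824) (W2 := 536870912) (P3 := 923417968) (W3 := 42949674) (N0 := 3) (En := eng) (mo := mog) (C1 := cd0q0) (C2 := cd3q2) (C3 := pd3)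
    rfl (fun _ => rfl) k0_pm_023

noncomputable def f_pm_033 : ℕ → ℕ → ℕ → ℕ → Bool := onCell 1610612736 536870912 0 1230186008 923417968 42949674
    (rowB 3 eng mog cd0q0 cd3q3 pd3 2 true true false .pnn 0 3 3 (qsf 0 536870912 0 1230186008 3) ndB0q0 ndB3q3 pcB3 Cut.none Ext.none)

def k0_pm_033 : ∃ t, chk3 f_pm_033 t 2 1 1 = true :=
  ⟨(b (l 1) (b (a (l 1) (b (l 1) (a (l 1) (a (l 1) (a (l 1) (b (l 1) (b (l 1) (l 15147864)))))))) (b (a (l 1) (a (b (a (l 1) (b (l 1) (c (l 281887696295) (a (l 1) (l 302288681703))))) (a (b (l 1) (c (l 300678261159) (l 303899141351))) (b (c (l 15217112) (l 15082096)) (b (l 15252712) (l 15325152))))) (b (a (b (c (l 305509952503) (l 296382946167)) (c (l 231958828679) (l 280814076807))) (c (b (l 15266056) (l 15374384)) (b (l 15143896) (l 15271056)))) (b (a (c (l 15350664) (a (l 15198744) (l 15284544))) (c (l 15491032) (l 15413008))) (a (b (l 15404640) (l 15476040)) (c (l 15611728) (l 15558392))))))) (a (b (a (l 1) (b (a (l 1) (b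 (l 305509940567) (l 324837517815))) (a (b (l 326448013543) (l 343628133015)) (b (l 344701963991) (l 15370944))))) (a (b (a (l 1) (c (l 359197527655) (l 344164591895))) (a (c (b (l 15312568) (l 15399032)) (b (l 328058205591) (l 15170624))) (c (b (l 15427864) (l 15515192)) (b (l 15228064) (l 15328536))))) (b (a (b (c (l 15378424) (l 15198296)) (l 15466816)) (c (l 15539488) (l 15408328))) (a (c (l 15589064) (l 15440520)) (b (l 15612848) (l 15701328)))))) (b (a (b (a (b (l 15252912) (l 15330440)) (b (l 15400264) (l 15477272))) (a (b (l 15410976) (l 15493512)) (c (l 15626728) (l 15551232)))) (b (a (c (l 15611000) (l 15548112)) (l 15722464)) (a (l 15727968) (l 15848992)))) (a (b (a (b (l 15577096) (l 15660632)) (l 15685360)) (a (l 15782464) (l 15894168))) (b (a (l 15864656) (l 15967240)) (l 16037184)))))))), by decide +kernel⟩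

def k1_pm_033 : ∃ t, chk3 f_pm_033 t 3 2 1 = true :=
  ⟨(a (l 1) (b (l 4) (l 4))), by decide +kernel⟩

def k2_pm_033 : ∃ t, chk3 f_pm_033 t 3 6 1 = true :=
  ⟨(b (a (a (l 1) (a (b (l 1) (l 15261520)) (b (l 15359416) (l 15460792)))) (a (a (b (l 15579920) (l 15700432)) (l 4)) (l 4))) (a (a (b (a (c (l 365102810583) (b (l 1) (l 15035312))) (b (l 15187320) (a (l 15216136) (l 15301432)))) (a (c (l 193841264391) (b (l 15107688) (l 15203160))) (b (a (l 15298328) (l 15388208)) (l 15438200)))) (a (b (a (l 15352488) (l 15446536)) (b (l 15524864) (l 15614256))) (b (l 15594832) (b (l 15708224) (l 15786312))))) (a (a (b (l 15806376) (l 15921528)) (a (b (l 15969872) (l 16052776)) (b (l 16022776) (l 16141520)))) (a (b (l 4) (l 16034488)) (l 4))))), by decide +kernel⟩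

def k3_pm_033 : ∃ t, chk3 f_pm_033 t 3 7 1 = true :=
  ⟨(b (a (a (b (b (a (c (l 15412944) (l 15319480)) (l 15541200)) (a (c (l 15519480) (l 15446752)) (l 15648704))) (a (b (c (l 15629688) (l 15579968)) (c (l 15738496) (l 15713392))) (b (l 15755712) (l 15860232)))) (b (a (b (l 15706120) (l 15797704)) (b (l 15861856) (l 15936360))) (a (b (l 15888264) (l 15975704)) (l 16047928)))) (b (a (a (l 16020184) (l 16171040)) (a (a (l 16269112) (l 16315376)) (l 4))) (a (a (b (l 16125472) (l 16186224)) (a (l 16234696) (l 16283144))) (a (c (l 16333896) (l 16338856)) (a (l 16444048) (l 4)))))) (a (a (c (b (b (l 15894408) (l 15983496)) (l 16111336)) (b (a (l 15672216) (l 16019024)) (l 16159056))) (b (a (b (l 16063264) (l 16148472)) (l 15989440)) (b (a (l 16230960) (l 16312640)) (l 16139656)))) (b (a (a (b (l 16251688) (l 16319248)) (a (l 16345480) (l 16383808))) (a (a (l 16418392) (l 16447400)) (a (l 16496568) (a (l 16544232) (l 4))))) (a (a (b (l 16391896) (l 16466616))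 (a (l 16446616) (l 16527232))) (a (a (l 16554472) (l 16567512)) (a (c (l 16518896) (l 16657640)) (a (l 16607472) (a (l 16635744) (l 4))))))))), by decide +kernel⟩

theorem s4_pm_033 : ∃ t, chk3 f_pm_033 t 3 3 1 = true := ex3_b k2_pm_033 k3_pm_033

theorem s5_pm_033 : ∃ t, chk3 f_pm_033 t 3 1 1 = true := ex3_b k1_pm_033 s4_pm_033

theorem s6_pm_033 : ∃ t, chk3 f_pm_033 t 1 1 1 = true := ex3_a k0_pm_033 s5_pm_033

theorem c_pm_033 : CertB 0 536870912 0 1230186008 923417968 42949674 3 eng mog cd0q0 cd3q3 pd3 true true false .pnn 0 3 3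
    ndB0q0 ndB3q3 pcB3 Cut.none Ext.none :=
  certB2 (fam := true) (s1 := true) (s2 := false) (a := 0) (b := 3) (c := 3) (cn := .pnn) (n1 := ndB0q0) (n2 := ndB3q3) (pc := pcB3) (cut := Cut.none) (xt := Ext.none) (P1 := 0) (W1 := 536870912) (P2 := 0) (W2 := 1230186008) (P3 := 923417968) (W3 := 42949674) (N0 := 3) (En := eng) (mo := mog) (C1 := cd0q0) (C2 := cd3q3) (C3 := pd3)
    rfl (fun _ => rfl) s6_pm_033

noncomputable def f_pm_101 : ℕ → ℕ → ℕ → ℕ → Bool := onCell 536870912 536870912 536870912 536870912 923417968 42949674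
    (rowB 3 eng mog cd0q1 cd3q0 pd1 1 true true false .npn 1 0 1 (qsf 536870912 536870912 0 536870912 1) ndB0q1 ndB3q0 pcB1 Cut.none Ext.none)

def k0_pm_101 : ∃ t, chk3 f_pm_101 t 2 2 1 = true :=
  ⟨(a (l 3) (b (a (b (l 1) (l 3)) (l 1)) (l 3))), by decide +kernel⟩

def k1_pm_101 : ∃ t, chk3 f_pm_101 t 2 6 1 = true :=
  ⟨(a (l 3) (b (l 3) (b (l 3) (b (a (l 3) (a (l 3) (b (l 3) (c (l 188071707351) (l 16169760))))) (a (a (a (l 3) (c (c (l 182166101079) (l 198272183591)) (l 424294469303))) (c (c (a (l 168744309383) (l 171965516823)) (l 164986207079)) (c (l 16241296) (l 16240272)))) (a (c (c (l 174113045831) (l 16211344)) (c (l 16197888) (l 16189000))) (c (c (l 16248176) (l 16194184)) (l 16154416)))))))), by decide +kernel⟩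

def k2_pm_101 : ∃ t, chk3 f_pm_101 t 8 7 1 = true :=
  ⟨(a (b (b (a (b (l 3) (b (l 3) (c (c (l 209009610823) (l 159080688039)) (c (a (l 16175736) (l 16212392)) (a (l 174112527447) (l 16091632)))))) (b (l 3) (c (c (b (l 362554676983) (l 16379464)) (b (l 292224684151) (l 16307944))) (b (c (l 328194804583) (a (l 344837507927) (l 162838269639))) (c (l 16205624) (a (l 16088728) (l 16086552))))))) (c (c (b (a (b (l 16381440) (l 16365224)) (l 16353368)) (l 16331480)) (b (a (b (l 16303712) (l 16287024)) (l 16280008)) (a (l 16263472) (l 16245648)))) (c (b (a (b (l 16197056) (l 16180104)) (l 16155768)) (l 16148512)) (b (a (b (l 16074944) (l 16057528)) (b (l 16067272) (l 16048008))) (a (l 16033112) (l 16020856)))))) (b (c (c (l 16433536) (b (l 16224328) (l 16198136))) (b (a (l 16067160) (l 16050176)) (l 16010528))) (c (l 16107632) (c (l 16059952) (l 15914976))))) (b (a (b (b (l 3) (c (c (a (l 207398920423) (l 205251418311)) (b (l 16317176) (l 16296152))) (c (l 158006656471)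 (b (l 153711490903) (l 16084600))))) (b (c (b (l 16252344) (l 16296816)) (b (l 16121616) (l 16101040))) (c (l 16249544) (l 16071880)))) (b (b (a (l 3) (b (l 3) (c (l 372755119863) (l 403893501063)))) (b (c (a (l 181629084887) (l 16253632)) (c (l 16217288) (l 16109240))) (c (l 16236416) (l 16140656)))) (c (b (c (l 16311904) (l 16254352)) (l 16253840)) (b (b (l 16117424) (l 16095232)) (l 16063648))))) (b (c (b (l 16186672) (l 16199104)) (c (l 16091168) (l 15931128))) (c (l 16143320) (c (l 16014968) (l 15872680)))))), by decide +kernel⟩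

def k3_pm_101 : ∃ t, chk3 f_pm_101 t 9 7 1 = true :=
  ⟨(b (b (b (a (b (l 3) (c (c (a (l 131700401127) (l 16319152)) (l 159080526199)) (a (c (l 16241504) (l 16140864)) (l 137605562887)))) (c (c (c (a (l 16300304) (l 16278728)) (l 180555486359)) (l 75328985239)) (c (l 135994950839) (l 108077678855)))) (a (a (c (c (l 16381400) (l 16287128)) (b (l 16155608) (l 16140272))) (c (c (l 16294008) (l 16277736)) (b (l 16169008) (l 16141760)))) (c (c (a (l 16269808) (l 16246272)) (l 16261096)) (c (l 16201752) (l 16115816))))) (c (a (b (c (l 16275976) (l 16238208)) (l 16146576)) (b (c (l 16227504) (l 16217584)) (l 16199832))) (a (b (a (l 16103552) (l 16102896)) (a (l 16057856) (l 16054296))) (b (a (l 16103992) (l 16106496)) (l 16052600))))) (b (c (a (b (l 16194520) (l 16162272)) (b (l 16163760) (l 16130360))) (b (a (l 16012176) (l 16003528)) (a (l 15972920) (l 15958872)))) (c (a (l 16123448) (l 16089096)) (a (b (l 15938736) (l 15910168)) (l 15902024))))), by decide +kernel⟩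

def k4_pm_101 : ∃ t, chk3 f_pm_101 t 5 7 1 = true :=
  ⟨(b (a (b (c (a (b (c (a (l 16259496) (l 16239696)) (l 16337016)) (c (l 16213264) (l 16221096))) (b (c (l 16214256) (l 16208400)) (c (l 16175752) (l 16172784)))) (a (b (a (l 16228448) (l 16229240)) (a (l 16168032) (l 16171584))) (b (c (l 16206688) (l 16203704)) (l 16168248)))) (a (c (b (l 16271096) (l 16162912)) (b (l 16112016) (l 16055984))) (c (b (l 16140632) (l 16113256)) (b (l 16115888) (l 16060424))))) (b (c (a (b (c (l 16191232) (l 16173912)) (l 16141136)) (b (l 16172176) (l 16126848))) (a (b (l 16158200) (l 16124392)) (b (l 16121368) (l 16082720)))) (c (a (b (l 16103016) (l 16070288)) (b (l 16081008) (l 16039472))) (a (l 16015680) (l 16031808))))) (a (b (c (a (l 16158576) (l 16081808)) (a (b (l 16002672) (l 15953536)) (l 15978768))) (c (a (l 16060224) (l 16034104)) (a (l 15890064) (l 15884792)))) (b (c (a (l 16035264) (l 15993128)) (a (l 15978408) (l 15971624))) (a (c (l 16007208) (l 15881736))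 (c (l 15977320) (l 15879528)))))), by decide +kernel⟩

def k5_pm_101 : ∃ t, chk3 f_pm_101 t 3 2 1 = true :=
  ⟨(a (b (l 1) (a (b (l 1) (l 3)) (l 1))) (l 1)), by decide +kernel⟩

def k6_pm_101 : ∃ t, chk3 f_pm_101 t 6 3 1 = true :=
  ⟨(b (b (l 3) (a (b (l 3) (a (c (b (b (l 204714725479) (l 186461127079)) (c (l 16262888) (l 16209608))) (b (l 205788378839) (l 16139256))) (b (c (b (l 233705892439) (l 16326040)) (a (l 16144528) (l 16161440))) (c (l 16323360) (l 16167200))))) (b (b (l 3) (b (l 3) (b (a (l 3) (l 1)) (a (a (l 3) (a (l 3) (c (l 233705935127) (c (l 243906224039) (l 249274599511))))) (a (a (c (l 652331454631) (c (l 661457701143) (l 665215428071))) (l 1)) (l 1)))))) (b (a (c (b (a (l 16428536) (a (l 16514736) (l 16587928))) (l 16506960)) (a (l 215452042119) (b (a (l 16221832) (c (l 16340760) (l 16177832))) (l 16278624)))) (b (a (c (c (l 508987219175) (l 528851079719)) (a (a (c (l 519723647751) (l 532608183751)) (l 547104112199)) (l 683469438279))) (l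 1)) (c (a (l 16728640) (l 668974633495)) (a (a (l 16355640) (l 532608509479)) (l 699575958135))))) (a (c (l 16521248) (l 16313744)) (c (a (l 16699480) (l 482680167655)) (a (l 16442960) (b (l 551399522391) (l 16656648))))))))) (b (a (b (a (c (b (l 16199360) (l 16148280)) (b (l 16111632) (l 16069328))) (c (b (l 16291792) (l 16234264)) (l 16131800))) (c (a (l 16062328) (l 16121320)) (a (l 16000424) (l 16016216)))) (b (b (a (c (l 16499584) (l 16274728)) (c (l 16593896) (l 16564192))) (a (l 16331920) (l 16455056))) (a (c (l 16271680) (l 16116960)) (c (l 16333744) (l 16290440))))) (a (b (c (a (l 15967376) (l 15976800)) (a (l 15950096) (l 15910632))) (c (l 16148216) (a (l 15882584) (l 15889328)))) (b (a (c (l 16053304) (l 15936424)) (c (l 16144336) (l 16062840))) (a (l 16080168) (l 16026824)))))), by decide +kernel⟩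

def k7_pm_101 : ∃ t, chk3 f_pm_101 t 7 3 1 = true :=
  ⟨(b (a (b (l 1) (b (l 1) (a (a (a (b (l 1) (l 660384423303)) (l 1)) (l 1)) (l 1)))) (l 1)) (b (a (b (b (a (c (l 488585540727) (l 541198909479)) (l 1)) (a (a (l 16525552) (l 16428328)) (a (l 592738268311) (l 1)))) (a (b (l 16347488) (l 16328728)) (b (a (l 16471672) (l 555694002647)) (l 176126152023)))) (a (b (l 1) (b (l 1) (a (l 16410072) (l 1)))) (l 1))) (a (b (a (b (l 16229712) (l 16133584)) (b (l 16287960) (l 16198384))) (a (l 16054400) (b (l 16112112) (l 16026144)))) (b (a (b (a (l 16317680) (l 16338272)) (a (l 16231968) (l 16252968))) (b (l 1) (l 507375499863))) (a (c (l 16108168) (l 16115808)) (c (l 142303612215) (l 16175136))))))), by decide +kernel⟩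

theorem s8_pm_101 : ∃ t, chk3 f_pm_101 t 3 3 1 = true := ex3_a k6_pm_101 k7_pm_101

theorem s9_pm_101 : ∃ t, chk3 f_pm_101 t 3 1 1 = true := ex3_b k5_pm_101 s8_pm_101

theorem s10_pm_101 : ∃ t, chk3 f_pm_101 t 4 7 1 = true := ex3_a k2_pm_101 k3_pm_101

theorem s11_pm_101 : ∃ t, chk3 f_pm_101 t 2 7 1 = true := ex3_a s10_pm_101 k4_pm_101

theorem s12_pm_101 : ∃ t, chk3 f_pm_101 t 2 3 1 = true := ex3_b k1_pm_101 s11_pm_101

theorem s13_pm_101 : ∃ t, chk3 f_pm_101 t 2 1 1 = true := ex3_b k0_pm_101 s12_pm_101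

theorem s14_pm_101 : ∃ t, chk3 f_pm_101 t 1 1 1 = true := ex3_a s13_pm_101 s9_pm_101

theorem c_pm_101 : CertB 536870912 536870912 0 536870912 923417968 42949674 3 eng mog cd0q1 cd3q0 pd1 true true false .npn 1 0 1
    ndB0q1 ndB3q0 pcB1 Cut.none Ext.none :=
  certB1 (fam := true) (s1 := true) (s2 := false) (a := 1) (b := 0) (c := 1) (cn := .npn) (n1 := ndB0q1) (n2 := ndB3q0) (pc := pcB1) (cut := Cut.none) (xt := Ext.none) (P1 := 536870912) (W1 := 536870912) (P2 := 0) (W2 := 536870912) (P3 := 923417968) (W3 := 42949674) (N0 := 3) (En := eng) (mo := mog) (C1 := cd0q1) (C2 := cd3q0) (C3 := pd1)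
    rfl (fun _ => rfl) s14_pm_101

noncomputable def f_pm_102 : ℕ → ℕ → ℕ → ℕ → Bool := onCell 536870912 536870912 1073741824 536870912 923417968 42949674
    (rowB 3 eng mog cd0q1 cd3q0 pd2 1 true true false .npp 1 0 2 (qsf 536870912 536870912 0 536870912 2) ndB0q1 ndB3q0 pcB2 Cut.none Ext.none)

def k0_pm_102 : ∃ t, chk3 f_pm_102 t 2 1 1 = true :=
  ⟨(b (a (b (b (a (c (b (a (b (l 15744696) (l 16037480)) (c (l 15973432) (l 16001240))) (a (l 16091824) (l 16063936))) (b (a (c (l 15977288) (l 15865240)) (c (l 15909880) (l 15797608))) (a (l 15918368) (l 15824960)))) (c (b (a (l 15978648) (l 15929208)) (a (l 16003688) (l 15951072))) (b (a (b (l 15798528) (l 15801832)) (l 15756088)) (a (l 15806024) (l 15756088))))) (a (a (l 2) (c (l 16097680) (l 155254070343))) (c (b (l 15992424) (l 16005352)) (b (a (l 15811776) (l 15755088)) (l 15660664))))) (a (l 2) (b (c (l 103177975511) (a (l 2) (l 15763512))) (l 2)))) (b (b (a (c (b (a (l 15886968) (l 15850544)) (l 15885704))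 (b (a (l 15722816) (l 15697928)) (a (l 15716728) (l 15685440)))) (a (b (c (l 15818208) (l 15677768)) (l 15733136)) (b (c (l 15789976) (l 15661696)) (l 15726808)))) (a (a (b (l 15651552) (l 15816288)) (b (l 15776888) (l 15765592))) (c (a (l 15824336) (l 15782864)) (a (l 15619424) (l 15581000))))) (a (b (c (l 15805056) (a (l 15694664) (l 15630448))) (c (l 15891928) (l 172433492711))) (b (c (l 15763344) (a (l 15567096) (l 15503888))) (c (l 15725696) (a (l 15530624) (l 15439720))))))) (a (l 2) (b (a (l 2) (b (c (l 15702520) (l 174043702823)) (l 2))) (l 2)))), by decide +kernel⟩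

def k1_pm_102 : ∃ t, chk3 f_pm_102 t 6 2 1 = true :=
  ⟨(b (b (a (b (c (c (l 15767424) (l 15743624)) (b (l 15660992) (l 15649624))) (c (l 15773800) (l 15452328))) (b (a (c (l 15745296) (l 15677064)) (c (l 15741872) (l 15700472))) (c (l 15772896) (l 15663264)))) (a (c (a (l 15748808) (l 15724704)) (b (l 15568464) (l 15510432))) (b (c (l 15732704) (l 15544912)) (a (l 15585728) (l 15571928))))) (a (b (c (a (l 15677352) (l 15628936)) (a (l 15446704) (l 15398552))) (c (a (l 15603664) (l 15528312)) (a (l 15351976) (l 15270264)))) (b (b (a (l 15512560) (l 15482392)) (a (l 15437744) (l 15390544))) (c (b (l 15456976) (l 15385872)) (b (l 15198736) (l 15109984)))))), by decide +kernel⟩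

def k2_pm_102 : ∃ t, chk3 f_pm_102 t 7 4 1 = true :=
  ⟨(a (b (b (a (b (l 15699768) (l 15767664)) (a (b (l 15756632) (l 15798200)) (b (l 15779944) (l 15823056)))) (a (a (l 15736168) (l 15727096)) (c (a (l 15814392) (l 15823976)) (b (l 15737248) (l 15683128))))) (a (b (l 15659080) (l 15537736)) (c (b (l 15732192) (l 15627456)) (b (l 15589464) (l 15453016))))) (b (a (b (b (a (a (l 15829880) (l 15910520)) (c (b (l 15915280) (l 15897112)) (b (l 15860424) (l 15858008)))) (a (b (l 15850952) (l 15839824)) (a (l 15862600) (l 15870816)))) (a (b (l 15806528) (l 15750584)) (c (l 15973640) (b (l 15771464) (l 15699152))))) (b (b (b (b (c (a (l 15947960) (a (l 15968816) (a (l 15988904) (l 15991000)))) (a (l 15910112) (a (l 15941872) (a (b (l 15963080) (l 15960640)) (b (l 15977824) (l 15968968)))))) (c (a (l 15934392) (a (l 15966232) (b (l 15979472) (l 15973096)))) (a (l 15893056) (a (l 15937808) (a (l 15950152) (l 15955472)))))) (a (a (l 15909312) (l 15923904)) (a (c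 (l 15951816) (l 15916272)) (a (b (l 15947144) (l 15930968)) (c (l 15955800) (l 15928240)))))) (a (c (l 15907768) (a (l 15848016) (l 15855416))) (a (c (l 15910032) (l 15903944)) (c (b (l 15925520) (l 15894312)) (b (l 15888016) (l 15848416)))))) (a (b (a (l 15815160) (l 15815592)) (a (l 15746256) (l 15743520))) (b (c (b (l 15862912) (l 15830056)) (b (l 15805216) (l 15763632))) (c (l 15778976) (l 15699120)))))) (a (b (c (a (l 15721216) (l 15707168)) (a (l 15588528) (l 15582256))) (c (l 15589352) (a (l 15434944) (l 15416856)))) (b (a (c (l 15689920) (l 15573160)) (c (b (l 15708128) (l 15634712)) (b (l 15609744) (l 15517216)))) (c (a (l 15549552) (l 15521184)) (a (l 15395728) (l 15374112))))))), by decide +kernel⟩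

def k3_pm_102 : ∃ t, chk3 f_pm_102 t 7 5 1 = true :=
  ⟨(a (b (a (b (l 15430240) (l 15341160)) (c (b (l 15515848) (l 15401808)) (l 15238240))) (a (b (l 15231488) (l 15124440)) (b (l 15198888) (c (l 15177960) (l 14880472))))) (b (a (c (b (l 15458960) (l 15327104)) (b (l 15260776) (l 15093304))) (a (b (l 15331080) (b (l 15186200) (l 15106104))) (b (b (l 15317632) (l 15228912)) (b (l 15145600) (l 15072048))))) (a (b (a (l 15086872) (l 15045128)) (a (l 14971168) (l 14940520))) (b (c (l 15125088) (l 14864240)) (l 14903032))))), by decide +kernel⟩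

def k4_pm_102 : ∃ t, chk3 f_pm_102 t 3 3 1 = true :=
  ⟨(a (b (a (b (c (l 15490048) (a (l 15280328) (l 15162688))) (a (l 2) (l 15231480))) (b (c (a (l 15337472) (l 15236416)) (b (l 15026528) (l 14949888))) (a (b (l 15111256) (l 15024048)) (b (l 14982192) (l 14963032))))) (a (l 2) (b (a (l 2) (l 15013600)) (l 2)))) (b (a (b (a (b (l 15021544) (l 14920984)) (b (c (l 15096888) (l 14775240)) (l 14886800))) (a (b (l 14907664) (l 14914704)) (l 14875688))) (b (a (b (l 14887296) (l 14850104)) (b (l 14842064) (l 14809432))) (a (b (l 14839008) (l 14851856)) (b (l 14802752) (l 14819576))))) (a (b (a (l 14972112) (l 14941528)) (a (l 2) (l 15087032))) (b (a (l 14911976) (b (l 14857728) (l 14915480))) (a (l 15058616) (l 15034664)))))), by decide +kernel⟩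

theorem s5_pm_102 : ∃ t, chk3 f_pm_102 t 7 2 1 = true := ex3_b k2_pm_102 k3_pm_102

theorem s6_pm_102 : ∃ t, chk3 f_pm_102 t 3 2 1 = true := ex3_a k1_pm_102 s5_pm_102

theorem s7_pm_102 : ∃ t, chk3 f_pm_102 t 3 1 1 = true := ex3_b s6_pm_102 k4_pm_102

theorem s8_pm_102 : ∃ t, chk3 f_pm_102 t 1 1 1 = true := ex3_a k0_pm_102 s7_pm_102

theorem c_pm_102 : CertB 536870912 536870912 0 536870912 923417968 42949674 3 eng mog cd0q1 cd3q0 pd2 true true false .npp 1 0 2
    ndB0q1 ndB3q0 pcB2 Cut.none Ext.none :=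
  certB1 (fam := true) (s1 := true) (s2 := false) (a := 1) (b := 0) (c := 2) (cn := .npp) (n1 := ndB0q1) (n2 := ndB3q0) (pc := pcB2) (cut := Cut.none) (xt := Ext.none) (P1 := 536870912) (W1 := 536870912) (P2 := 0) (W2 := 536870912) (P3 := 923417968) (W3 := 42949674) (N0 := 3) (En := eng) (mo := mog) (C1 := cd0q1) (C2 := cd3q0) (C3 := pd2)
    rfl (fun _ => rfl) s8_pm_102

noncomputable def f_pm_112 : ℕ → ℕ → ℕ → ℕ → Bool := onCell 536870912 536870912 1073741824 536870912 923417968 42949674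
    (rowB 3 eng mog cd0q1 cd3q1 pd2 1 true true false .dn 1 1 2 (qsf 536870912 536870912 536870912 536870912 2) ndB0q1 ndB3q1 pcB2 Cut.none Ext.none)

def k0_pm_112 : ∃ t, chk3 f_pm_112 t 1 1 1 = true :=
  ⟨(a (b (a (b (b (a (b (a (c (l 15940408) (l 15899136)) (l 505764414215)) (a (l 16048816) (l 16020592))) (b (l 1) (l 504153781015))) (a (c (b (l 16127176) (l 16133008)) (l 15966912)) (b (l 16076496) (l 16125840)))) (a (b (c (l 16050688) (l 16094656)) (c (l 15804136) (l 15845264))) (b (c (l 16043680) (l 16106384)) (a (l 15938448) (l 15949976))))) (b (a (b (l 1) (b (l 1) (l 16065320))) (l 1)) (a (b (c (l 16004384) (l 16076624)) (l 15943080)) (b (l 286720710311) (l 15881504))))) (a (b (a (b (a (l 15649456) (l 15708952)) (a (l 15371312) (l 15453816))) (b (a (l 15753928) (l 15783432)) (a (l 15539592) (l 15585552)))) (b (a (b (a (l 15188480) (l 15287680)) (a (l 15050360) (l 15160424))) (a (l 15454648) (l 15368856))) (a (a (b (l 14912144) (l 14775480)) (b (l 15032872)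 (l 14906648))) (a (b (l 15129624) (l 15011920)) (l 15124472))))) (b (a (b (a (l 15796928) (l 15792720)) (a (l 15611936) (l 15616872))) (b (a (l 15769032) (l 15726816)) (a (l 15598672) (l 15558656)))) (a (b (a (l 15406456) (l 15418712)) (a (l 15192664) (l 15210416))) (b (l 15386728) (a (l 15197392) (l 15153864))))))) (b (a (b (l 1) (a (b (l 1) (l 321616712583)) (l 1))) (l 1)) (a (b (a (b (a (l 15671056) (l 15604024)) (l 15468496)) (b (a (l 15524536) (l 1)) (b (a (l 15395120) (l 15304168)) (l 15281624)))) (a (b (a (l 15305184) (l 15239528)) (b (l 15149936) (l 15092432))) (b (a (b (l 15228160) (l 15187672)) (l 15220600)) (l 15179576)))) (b (a (b (l 1) (a (l 15251680) (l 1))) (l 1)) (a (b (l 15242792) (l 15269208)) (b (l 279203769031) (l 15283648))))))), by decide +kernel⟩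

theorem c_pm_112 : CertB 536870912 536870912 536870912 536870912 923417968 42949674 3 eng mog cd0q1 cd3q1 pd2 true true false .dn 1 1 2
    ndB0q1 ndB3q1 pcB2 Cut.none Ext.none :=
  certB1 (fam := true) (s1 := true) (s2 := false) (a := 1) (b := 1) (c := 2) (cn := .dn) (n1 := ndB0q1) (n2 := ndB3q1) (pc := pcB2) (cut := Cut.none) (xt := Ext.none) (P1 := 536870912) (W1 := 536870912) (P2 := 536870912) (W2 := 536870912) (P3 := 923417968) (W3 := 42949674) (N0 := 3) (En := eng) (mo := mog) (C1 := cd0q1) (C2 := cd3q1) (C3 := pd2)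
    rfl (fun _ => rfl) k0_pm_112

noncomputable def f_pm_113 : ℕ → ℕ → ℕ → ℕ → Bool := onCell 536870912 536870912 1610612736 536870912 923417968 42949674
    (rowB 3 eng mog cd0q1 cd3q1 pd3 1 true true false .nn 1 1 3 (qsf 536870912 536870912 536870912 536870912 3) ndB0q1 ndB3q1 pcB3 Cut.none Ext.none)

def k0_pm_113 : ∃ t, chk3 f_pm_113 t 2 1 1 = true :=
  ⟨(b (b (a (b (a (c (a (b (l 14519408) (l 265847121495)) (b (l 14646328) (l 14486816))) (b (a (l 14356528) (l 14488976)) (a (l 14168128) (l 14302560)))) (b (c (l 14829432) (l 14693520)) (a (a (l 14498704) (l 14566672)) (l 14898976)))) (b (a (a (l 2) (c (l 14321568) (l 14116240))) (a (c (l 14457976) (l 14256112)) (c (l 14590912) (l 14403952)))) (a (l 2) (c (l 256720636615) (a (l 14072952) (l 14218928)))))) (b (a (c (a (l 14934744) (l 15048104)) (a (l 14817472) (l 14957704))) (b (a (l 15193592) (l 15299696)) (a (l 15059912) (l 15175096)))) (a (b (a (l 14749136) (l 14911088)) (a (c (l 14571336) (l 14377144))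 (c (l 14705696) (l 14547760)))) (b (a (l 14921360) (l 15046480)) (a (l 14778888) (l 14914432)))))) (a (b (a (l 2) (a (l 2) (b (c (l 14271904) (l 310943846487)) (l 2)))) (l 2)) (b (a (b (a (c (l 14417112) (l 14201536)) (l 14476304)) (a (l 424760815415) (l 14319112))) (b (a (l 14632424) (l 14778864)) (a (l 14481880) (l 14639720)))) (a (b (a (l 2) (l 430666409463)) (l 2)) (b (a (l 14329408) (l 14496904)) (l 432277227911)))))) (a (l 2) (b (b (a (l 2) (b (l 432276933031) (l 2))) (l 2)) (l 2)))), by decide +kernel⟩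

def k1_pm_113 : ∃ t, chk3 f_pm_113 t 3 1 1 = true :=
  ⟨(b (a (b (a (b (c (l 15380040) (l 15380376)) (b (l 15216488) (l 15102728))) (b (c (l 15524848) (l 15546600)) (b (l 15410288) (l 15326016)))) (b (a (b (l 14986352) (l 14867464)) (b (l 15241192) (l 15156296))) (a (b (l 14746376) (l 14623288)) (b (l 15072504) (l 14991752))))) (b (a (b (b (l 15644800) (l 15591088)) (b (l 15541168) (l 15494552))) (b (b (l 15590408) (l 15568760)) (b (l 15555520) (l 15553000)))) (b (a (b (l 15451856) (l 15415624)) (b (l 15606320) (l 15592488))) (a (b (l 15390472) (l 15377992)) (l 4))))) (b (a (b (b (a (l 14499928) (l 14916472)) (a (l 422076910663) (l 4))) (b (a (l 405970564183) (l 4)) (l 4))) (l 4)) (l 4))), by decide +kernel⟩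

theorem s2_pm_113 : ∃ t, chk3 f_pm_113 t 1 1 1 = true := ex3_a k0_pm_113 k1_pm_113

theorem c_pm_113 : CertB 536870912 536870912 536870912 536870912 923417968 42949674 3 eng mog cd0q1 cd3q1 pd3 true true false .nn 1 1 3
    ndB0q1 ndB3q1 pcB3 Cut.none Ext.none :=
  certB1 (fam := true) (s1 := true) (s2 := false) (a := 1) (b := 1) (c := 3) (cn := .nn) (n1 := ndB0q1) (n2 := ndB3q1) (pc := pcB3) (cut := Cut.none) (xt := Ext.none) (P1 := 536870912) (W1 := 536870912) (P2 := 536870912) (W2 := 536870912) (P3 := 923417968) (W3 := 42949674) (N0 := 3) (En := eng) (mo := mog) (C1 := cd0q1) (C2 := cd3q1) (C3 := pd3)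
    rfl (fun _ => rfl) s2_pm_113

noncomputable def f_pm_123 : ℕ → ℕ → ℕ → ℕ → Bool := onCell 536870912 536870912 1610612736 536870912 923417968 42949674
    (rowB 3 eng mog cd0q1 cd3q2 pd3 1 true true false .npn 1 2 3 (qsf 536870912 536870912 1073741824 536870912 3) ndB0q1 ndB3q2 pcB3 Cut.none Ext.none)

def k0_pm_123 : ∃ t, chk3 f_pm_123 t 2 1 1 = true :=
  ⟨(b (a (b (a (b (a (b (l 16090800) (l 15998168)) (l 324301745895)) (a (l 15870504) (l 15994864))) (b (a (b (l 1) (l 330207537271)) (l 1)) (a (b (l 16079336) (l 15952160)) (b (l 204580393191) (l 16171240))))) (a (b (l 15904488) (l 15650536)) (b (a (l 15840240) (b (l 15924496) (l 15855584))) (a (l 15722152) (l 15768592))))) (b (a (b (l 1) (a (b (l 1) (l 222297078919)) (l 1))) (l 1)) (a (b (a (b (l 16132240) (l 15893008)) (b (l 237866308679) (l 253972252359))) (a (l 15828560) (b (l 15872944) (l 15825048)))) (b (a (b (l 1) (l 258804271351)) (l 1)) (a (b (l 272762723543) (l 15868504)) (b (l 280815972855)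 (l 286721418647))))))) (a (b (b (a (l 15582696) (l 15789216)) (a (l 15556712) (a (l 15604120) (l 15641944)))) (b (b (a (l 15563472) (l 15620608)) (a (l 15578632) (l 15631984))) (b (a (l 15609576) (l 15646400)) (b (a (l 15633328) (l 15661880)) (b (a (l 15647432) (l 15670984)) (b (l 15622400) (a (l 15536280) (b (l 15677952) (l 15680456))))))))) (b (b (a (a (l 15725856) (l 15771200)) (a (l 16031688) (b (l 15886824) (l 15870456)))) (a (b (l 15714568) (l 15705816)) (b (a (l 15797904) (l 15864816)) (l 16000192)))) (a (b (b (l 15707240) (b (l 15713960) (l 15703728))) (b (b (l 15699080) (l 15707624)) (b (l 15719920) (b (l 15729184) (b (l 15730832) (b (l 15730552) (a (l 15712280) (l 15746032)))))))) (b (b (a (l 15801560) (l 15883408)) (b (l 15854016) (l 15827176))) (b (a (l 15783928) (l 15879976)) (b (b (l 15849280) (l 15853120)) (b (l 15845888) (b (l 15842624) (b (l 15833056) (l 15819368))))))))))), by decide +kernel⟩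

def k1_pm_123 : ∃ t, chk3 f_pm_123 t 3 1 1 = true :=
  ⟨(b (a (b (l 1) (a (b (l 1) (a (b (l 1) (l 287795350455)) (l 1))) (l 1))) (l 1)) (a (b (b (a (a (b (l 295311424343) (l 15936752)) (b (l 287795492567) (b (l 299069687047) (l 301754010503)))) (a (b (l 1) (b (l 1) (a (l 322154933767) (l 1)))) (l 1))) (a (b (a (b (l 15937352) (l 15941536)) (b (a (l 16000616) (l 16052392)) (l 16032568))) (a (b (l 15948240) (l 15957312)) (b (l 16042792) (l 16056848)))) (b (a (b (l 315175700823) (b (l 16171480) (l 16170440))) (b (l 1) (c (l 336114352951) (l 318934524903)))) (a (b (b (l 16172872) (l 16178560)) (l 16190464)) (b (c (l 16531744) (l 332893058247)) (l 222297470823)))))) (a (b (b (b (a (l 15969480) (l 16075568)) (l 16041384)) (b (a (l 16008544) (l 16130376)) (l 16059536))) (b (b (l 16053952) (l 16037152)) (b (b (l 16028136) (l 16024808)) (b (l 16002464) (b (l 15982440) (l 4)))))) (b (b (b (a (l 16212320) (l 16433224)) (a (l 16241344) (l 16456848))) (b (a (l 16278768)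 (l 16465440)) (a (l 16272736) (l 16422296)))) (b (b (a (l 16243816) (l 16382808)) (a (l 16216712) (l 16345704))) (b (b (l 16233032) (l 16204872)) (l 4)))))) (b (b (l 1) (a (b (l 1) (a (b (l 1) (l 357589262215)) (l 1))) (l 1))) (a (b (b (a (b (a (l 16692472) (l 16782656)) (l 16654000)) (a (l 504692019447) (l 1))) (a (b (l 16637216) (l 16586568)) (b (l 16796304) (l 16766600)))) (b (b (a (l 16540584) (l 16713288)) (a (l 16488624) (l 16644640))) (l 4))) (b (b (l 1) (a (b (l 1) (l 448857094167)) (l 1))) (b (a (b (l 236256254263) (l 4)) (l 4)) (l 4))))))), by decide +kernel⟩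

theorem s2_pm_123 : ∃ t, chk3 f_pm_123 t 1 1 1 = true := ex3_a k0_pm_123 k1_pm_123

theorem c_pm_123 : CertB 536870912 536870912 1073741824 536870912 923417968 42949674 3 eng mog cd0q1 cd3q2 pd3 true true false .npn 1 2 3
    ndB0q1 ndB3q2 pcB3 Cut.none Ext.none :=
  certB1 (fam := true) (s1 := true) (s2 := false) (a := 1) (b := 2) (c := 3) (cn := .npn) (n1 := ndB0q1) (n2 := ndB3q2) (pc := pcB3) (cut := Cut.none) (xt := Ext.none) (P1 := 536870912) (W1 := 536870912) (P2 := 1073741824) (W2 := 536870912) (P3 := 923417968) (W3 := 42949674) (N0 := 3) (En := eng) (mo := mog) (C1 := cd0q1) (C2 := cd3q2) (C3 := pd3)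
    rfl (fun _ => rfl) s2_pm_123

noncomputable def f_pm_133 : ℕ → ℕ → ℕ → ℕ → Bool := onCell 536870912 536870912 0 1230186008 923417968 42949674
    (rowB 3 eng mog cd0q1 cd3q3 pd3 0 true true false .dn 1 3 3 (qsf 536870912 536870912 0 1230186008 3) ndB0q1 ndB3q3 pcB3 Cut.none Ext.none)

def k0_pm_133 : ∃ t, chk3 f_pm_133 t 1 1 1 = true :=
  ⟨(b (l 2) (b (l 2) (a (b (l 2) (a (b (l 2) (l 4)) (l 2))) (l 2)))), by decide +kernel⟩

theorem c_pm_133 : CertB 536870912 536870912 0 1230186008 923417968 42949674 3 eng mog cd0q1 cd3q3 pd3 true true false .dn 1 3 3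
    ndB0q1 ndB3q3 pcB3 Cut.none Ext.none :=
  certB0 (fam := true) (s1 := true) (s2 := false) (a := 1) (b := 3) (c := 3) (cn := .dn) (n1 := ndB0q1) (n2 := ndB3q3) (pc := pcB3) (cut := Cut.none) (xt := Ext.none) (P1 := 536870912) (W1 := 536870912) (P2 := 0) (W2 := 1230186008) (P3 := 923417968) (W3 := 42949674) (N0 := 3) (En := eng) (mo := mog) (C1 := cd0q1) (C2 := cd3q3) (C3 := pd3)
    rfl k0_pm_133

noncomputable def f_pm_202 : ℕ → ℕ → ℕ → ℕ → Bool := onCell 0 536870912 0 536870912 923417968 42949674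
    (rowB 3 eng mog cd0q2 cd3q0 pd2 0 true true false .pp 2 0 2 (qsf 0 536870912 0 536870912 2) ndB0q2 ndB3q0 pcB2 Cut.none Ext.none)

def k0_pm_202 : ∃ t, chk3 f_pm_202 t 2 2 1 = true :=
  ⟨(b (b (a (b (a (l 15905264) (l 15899000)) (a (l 15914184) (l 15880320))) (a (b (b (l 15902184) (l 15871040)) (l 15837128)) (b (b (l 15906336) (l 15856624)) (b (l 15815240) (l 15781384))))) (a (b (a (l 15939376) (l 15883784)) (l 15684408)) (a (b (l 15814072) (l 15812112)) (b (l 15763712) (l 15712416))))) (a (b (b (l 15815496) (l 4)) (l 4)) (b (a (b (l 15829776) (l 15857304)) (b (l 15704824) (l 15717208))) (a (b (l 15883872) (l 4)) (b (l 15745920) (l 15779296)))))), by decide +kernel⟩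

def k1_pm_202 : ∃ t, chk3 f_pm_202 t 6 4 1 = true :=
  ⟨(b (a (b (b (a (l 15929048) (l 15955192)) (a (l 15863288) (l 15877488))) (a (l 15781448) (l 15799672))) (b (a (b (l 15990008) (l 15899328)) (b (b (l 16062328) (l 16007264)) (l 15929784))) (a (b (l 15818736) (l 15747616)) (b (l 15835624) (l 15751480))))) (a (b (a (l 15699736) (l 15676696)) (a (l 15645408) (l 15603856))) (b (a (l 15657400) (l 15642856)) (a (l 15564536) (l 15527736))))), by decide +kernel⟩

def k2_pm_202 : ∃ t, chk3 f_pm_202 t 7 8 1 = true :=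
  ⟨(a (b (a (b (a (b (l 16105328) (l 16045264)) (b (l 16115696) (l 16064208))) (a (l 15959448) (b (l 16010744) (l 15954208)))) (b (a (b (l 16111768) (l 16064752)) (b (l 16100296) (l 16055568))) (a (b (l 16016528) (l 15965056)) (l 15986152)))) (a (b (l 15861952) (l 15763664)) (b (a (l 15885800) (l 15888008)) (a (l 15777472) (l 15786640))))) (b (b (b (b (a (a (l 16092816) (c (l 16072488) (l 16064912))) (a (a (l 16046240) (c (l 16035832) (l 16024688))) (b (a (c (l 16022904) (l 16010976)) (a (c (l 16009552) (l 15996200)) (c (l 16000328) (a (l 15988552) (l 15983432))))) (a (l 16008048) (a (l 15994256) (a (l 15987152) (l 15982368))))))) (a (a (l 16071984) (l 16048736)) (a (a (l 16027632) (l 16011944)) (a (c (l 16003864) (l 15986904)) (a (l 15981696) (c (l 15982432) (l 15963216))))))) (a (a (l 16040088) (c (l 16028320) (l 16009592))) (a (c (l 16002576) (a (l 15989144) (l 15973776))) (a (c (l 15980336) (l 15957168)) (c (b (l 15971920) (l 15956672)) (b (l 15949136)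 (l 15929800))))))) (b (a (a (l 15996424) (l 15977440)) (a (c (l 15968200) (l 15938440)) (a (l 15931840) (c (l 15933192) (l 15900048))))) (a (a (l 15951552) (l 15934952)) (a (l 15913160) (c (l 15907560) (l 15866472)))))) (a (b (a (l 15882264) (c (l 15895072) (l 15843040))) (a (l 15786648) (l 15777984))) (b (a (c (l 15877368) (l 15824488)) (c (l 15855880) (b (l 15823352) (l 15778976)))) (a (l 15785512) (c (l 15783536) (l 15710304))))))), by decide +kernel⟩

def k3_pm_202 : ∃ t, chk3 f_pm_202 t 7 9 1 = true :=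
  ⟨(a (b (a (b (l 15675408) (l 15596704)) (b (l 15682736) (l 15587328))) (a (l 15495520) (l 15550160))) (b (a (b (a (l 15685816) (l 15683656)) (a (l 15587424) (l 15584912))) (b (a (l 15674728) (l 15662112)) (a (l 15582256) (l 15574192)))) (a (b (a (l 15492000) (l 15489712)) (l 15402048)) (a (b (l 15486144) (l 15392688)) (b (l 15484096) (l 15392448)))))), by decide +kernel⟩

def k4_pm_202 : ∃ t, chk3 f_pm_202 t 3 5 1 = true :=
  ⟨(a (b (a (b (l 15585312) (l 15570352)) (b (a (l 15499576) (l 15443328)) (l 15422632))) (a (b (l 15576240) (l 15600544)) (b (l 15399488) (l 15398688)))) (a (b (b (a (l 15389264) (l 15336120)) (a (l 15312784) (l 15238720))) (b (a (l 15264168) (l 15170968)) (l 15373760))) (b (a (b (l 15351368) (l 15167832)) (b (b (a (l 15304896) (l 15299064)) (l 15220784)) (l 15111144))) (b (a (l 15079784) (l 15000536)) (a (l 15021232) (l 14922168)))))), by decide +kernel⟩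

def k5_pm_202 : ∃ t, chk3 f_pm_202 t 1 3 1 = true :=
  ⟨(a (b (a (l 4) (b (a (l 4) (b (l 15809568) (l 4))) (l 4))) (l 4)) (b (a (b (a (b (l 15640232) (l 15684640)) (b (l 15417680) (l 15455224))) (a (a (l 4) (l 15623344)) (b (l 15509616) (l 15573096)))) (a (b (b (l 15177880) (l 15192552)) (b (l 15227544) (l 15281048))) (b (b (a (l 14990576) (l 14873704)) (a (l 14985120) (l 14852576))) (b (a (l 15002368) (l 14856280)) (a (l 15040448) (l 14882288)))))) (a (a (l 4) (b (b (l 15552440) (l 15696336)) (l 2))) (a (b (b (l 15352536) (l 15438160)) (b (a (l 15607344) (l 15453032)) (l 2))) (b (b (a (l 15097624) (l 14928808)) (l 15080608)) (b (l 15167200) (l 15268296))))))), by decide +kernel⟩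

theorem s6_pm_202 : ∃ t, chk3 f_pm_202 t 7 4 1 = true := ex3_b k2_pm_202 k3_pm_202

theorem s7_pm_202 : ∃ t, chk3 f_pm_202 t 3 4 1 = true := ex3_a k1_pm_202 s6_pm_202

theorem s8_pm_202 : ∃ t, chk3 f_pm_202 t 3 2 1 = true := ex3_b s7_pm_202 k4_pm_202

theorem s9_pm_202 : ∃ t, chk3 f_pm_202 t 1 2 1 = true := ex3_a k0_pm_202 s8_pm_202

theorem s10_pm_202 : ∃ t, chk3 f_pm_202 t 1 1 1 = true := ex3_b s9_pm_202 k5_pm_202

theorem c_pm_202 : CertB 0 536870912 0 536870912 923417968 42949674 3 eng mog cd0q2 cd3q0 pd2 true true false .pp 2 0 2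
    ndB0q2 ndB3q0 pcB2 Cut.none Ext.none :=
  certB0 (fam := true) (s1 := true) (s2 := false) (a := 2) (b := 0) (c := 2) (cn := .pp) (n1 := ndB0q2) (n2 := ndB3q0) (pc := pcB2) (cut := Cut.none) (xt := Ext.none) (P1 := 0) (W1 := 536870912) (P2 := 0) (W2 := 536870912) (P3 := 923417968) (W3 := 42949674) (N0 := 3) (En := eng) (mo := mog) (C1 := cd0q2) (C2 := cd3q0) (C3 := pd2)
    rfl s10_pm_202

noncomputable def f_pm_203 : ℕ → ℕ → ℕ → ℕ → Bool := onCell 0 536870912 1610612736 536870912 923417968 42949674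
    (rowB 3 eng mog cd0q2 cd3q0 pd3 1 true true false .up 2 0 3 (qsf 0 536870912 0 536870912 3) ndB0q2 ndB3q0 pcB3 Cut.none Ext.none)

def k0_pm_203 : ∃ t, chk3 f_pm_203 t 1 1 1 = true :=
  ⟨(b (a (l 4) (b (a (l 4) (b (a (b (l 15440232) (l 15431032)) (b (l 15437432) (l 15478672))) (a (l 4) (l 2)))) (l 4))) (l 2)), by decide +kernel⟩

theorem c_pm_203 : CertB 0 536870912 0 536870912 923417968 42949674 3 eng mog cd0q2 cd3q0 pd3 true true false .up 2 0 3
    ndB0q2 ndB3q0 pcB3 Cut.none Ext.none :=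
  certB1 (fam := true) (s1 := true) (s2 := false) (a := 2) (b := 0) (c := 3) (cn := .up) (n1 := ndB0q2) (n2 := ndB3q0) (pc := pcB3) (cut := Cut.none) (xt := Ext.none) (P1 := 0) (W1 := 536870912) (P2 := 0) (W2 := 536870912) (P3 := 923417968) (W3 := 42949674) (N0 := 3) (En := eng) (mo := mog) (C1 := cd0q2) (C2 := cd3q0) (C3 := pd3)
    rfl (fun _ => rfl) k0_pm_203

noncomputable def f_pm_213 : ℕ → ℕ → ℕ → ℕ → Bool := onCell 0 536870912 1610612736 536870912 923417968 42949674
    (rowB 3 eng mog cd0q2 cd3q1 pd3 1 true true false .pnn 2 1 3 (qsf 0 536870912 536870912 536870912 3) ndB0q2 ndB3q1 pcB3 Cut.none Ext.none)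

def k0_pm_213 : ∃ t, chk3 f_pm_213 t 1 1 1 = true :=
  ⟨(b (a (l 4) (b (a (l 4) (b (a (b (l 1) (l 15837328)) (b (l 15633912) (l 15633536))) (a (l 4) (b (l 15648056) (l 15672568))))) (l 4))) (l 4)), by decide +kernel⟩

theorem c_pm_213 : CertB 0 536870912 536870912 536870912 923417968 42949674 3 eng mog cd0q2 cd3q1 pd3 true true false .pnn 2 1 3
    ndB0q2 ndB3q1 pcB3 Cut.none Ext.none :=
  certB1 (fam := true) (s1 := true) (s2 := false) (a := 2) (b := 1) (c := 3) (cn := .pnn) (n1 := ndB0q2) (n2 := ndB3q1) (pc := pcB3) (cut := Cut.none) (xt := Ext.none) (P1 := 0) (W1 := 536870912) (P2 := 536870912) (W2 := 536870912) (P3 := 923417968) (W3 := 42949674) (N0 := 3) (En := eng) (mo := mog) (C1 := cd0q2) (C2 := cd3q1) (C3 := pd3)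
    rfl (fun _ => rfl) k0_pm_213

noncomputable def f_mm_001 : ℕ → ℕ → ℕ → ℕ → Bool := onCell 0 536870912 0 536870912 923417968 42949674
    (rowB 3 eng mog cd0q0 cd3q0 pd1 0 true false false .up 0 0 1 (qsf 0 536870912 0 536870912 1) ndB0q0 ndB3q0 pcB1 Cut.none Ext.none)

def k0_mm_001 : ∃ t, chk3 f_mm_001 t 1 1 1 = true :=
  ⟨(l 4), by decide +kernel⟩

theorem c_mm_001 : CertB 0 536870912 0 536870912 923417968 42949674 3 eng mog cd0q0 cd3q0 pd1 true false false .up 0 0 1
    ndB0q0 ndB3q0 pcB1 Cut.none Ext.none :=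
  certB0 (fam := true) (s1 := false) (s2 := false) (a := 0) (b := 0) (c := 1) (cn := .up) (n1 := ndB0q0) (n2 := ndB3q0) (pc := pcB1) (cut := Cut.none) (xt := Ext.none) (P1 := 0) (W1 := 536870912) (P2 := 0) (W2 := 536870912) (P3 := 923417968) (W3 := 42949674) (N0 := 3) (En := eng) (mo := mog) (C1 := cd0q0) (C2 := cd3q0) (C3 := pd1)
    rfl k0_mm_001

noncomputable def f_mm_011 : ℕ → ℕ → ℕ → ℕ → Bool := onCell 0 536870912 536870912 536870912 923417968 42949674
    (rowB 3 eng mog cd0q0 cd3q1 pd1 0 true false false .pnn 0 1 1 (qsf 0 536870912 536870912 536870912 1) ndB0q0 ndB3q1 pcB1 Cut.none Ext.none)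

def k0_mm_011 : ∃ t, chk3 f_mm_011 t 1 1 1 = true :=
  ⟨(l 4), by decide +kernel⟩

theorem c_mm_011 : CertB 0 536870912 536870912 536870912 923417968 42949674 3 eng mog cd0q0 cd3q1 pd1 true false false .pnn 0 1 1
    ndB0q0 ndB3q1 pcB1 Cut.none Ext.none :=
  certB0 (fam := true) (s1 := false) (s2 := false) (a := 0) (b := 1) (c := 1) (cn := .pnn) (n1 := ndB0q0) (n2 := ndB3q1) (pc := pcB1) (cut := Cut.none) (xt := Ext.none) (P1 := 0) (W1 := 536870912) (P2 := 536870912) (W2 := 536870912) (P3 := 923417968) (W3 := 42949674) (N0 := 3) (En := eng) (mo := mog) (C1 := cd0q0) (C2 := cd3q1) (C3 := pd1)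
    rfl k0_mm_011

noncomputable def f_mm_012 : ℕ → ℕ → ℕ → ℕ → Bool := onCell 0 536870912 536870912 536870912 923417968 42949674
    (rowB 3 eng mog cd0q0 cd3q1 pd2 0 true false false .pnp 0 1 2 (qsf 0 536870912 536870912 536870912 2) ndB0q0 ndB3q1 pcB2 Cut.none Ext.none)

def k0_mm_012 : ∃ t, chk3 f_mm_012 t 1 1 1 = true :=
  ⟨(l 4), by decide +kernel⟩

theorem c_mm_012 : CertB 0 536870912 536870912 536870912 923417968 42949674 3 eng mog cd0q0 cd3q1 pd2 true false false .pnp 0 1 2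
    ndB0q0 ndB3q1 pcB2 Cut.none Ext.none :=
  certB0 (fam := true) (s1 := false) (s2 := false) (a := 0) (b := 1) (c := 2) (cn := .pnp) (n1 := ndB0q0) (n2 := ndB3q1) (pc := pcB2) (cut := Cut.none) (xt := Ext.none) (P1 := 0) (W1 := 536870912) (P2 := 536870912) (W2 := 536870912) (P3 := 923417968) (W3 := 42949674) (N0 := 3) (En := eng) (mo := mog) (C1 := cd0q0) (C2 := cd3q1) (C3 := pd2)
    rfl k0_mm_012

noncomputable def f_mm_022 : ℕ → ℕ → ℕ → ℕ → Bool := onCell 0 536870912 1073741824 536870912 923417968 42949674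
    (rowB 3 eng mog cd0q0 cd3q2 pd2 0 true false false .pp 0 2 2 (qsf 0 536870912 1073741824 536870912 2) ndB0q0 ndB3q2 pcB2 Cut.none Ext.none)

def k0_mm_022 : ∃ t, chk3 f_mm_022 t 1 1 1 = true :=
  ⟨(l 4), by decide +kernel⟩

theorem c_mm_022 : CertB 0 536870912 1073741824 536870912 923417968 42949674 3 eng mog cd0q0 cd3q2 pd2 true false false .pp 0 2 2
    ndB0q0 ndB3q2 pcB2 Cut.none Ext.none :=
  certB0 (fam := true) (s1 := false) (s2 := false) (a := 0) (b := 2) (c := 2) (cn := .pp) (n1 := ndB0q0) (n2 := ndB3q2) (pc := pcB2) (cut := Cut.none) (xt := Ext.none) (P1 := 0) (W1 := 536870912) (P2 := 1073741824) (W2 := 536870912) (P3 := 923417968) (W3 := 42949674) (N0 := 3) (En := eng) (mo := mog) (C1 := cd0q0) (C2 := cd3q2) (C3 := pd2)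
    rfl k0_mm_022

noncomputable def f_mm_023 : ℕ → ℕ → ℕ → ℕ → Bool := onCell 0 536870912 1073741824 536870912 923417968 42949674
    (rowB 3 eng mog cd0q0 cd3q2 pd3 0 true false false .up 0 2 3 (qsf 0 536870912 1073741824 536870912 3) ndB0q0 ndB3q2 pcB3 Cut.none Ext.none)

def k0_mm_023 : ∃ t, chk3 f_mm_023 t 1 1 1 = true :=
  ⟨(l 4), by decide +kernel⟩

theorem c_mm_023 : CertB 0 536870912 1073741824 536870912 923417968 42949674 3 eng mog cd0q0 cd3q2 pd3 true false false .up 0 2 3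
    ndB0q0 ndB3q2 pcB3 Cut.none Ext.none :=
  certB0 (fam := true) (s1 := false) (s2 := false) (a := 0) (b := 2) (c := 3) (cn := .up) (n1 := ndB0q0) (n2 := ndB3q2) (pc := pcB3) (cut := Cut.none) (xt := Ext.none) (P1 := 0) (W1 := 536870912) (P2 := 1073741824) (W2 := 536870912) (P3 := 923417968) (W3 := 42949674) (N0 := 3) (En := eng) (mo := mog) (C1 := cd0q0) (C2 := cd3q2) (C3 := pd3)
    rfl k0_mm_023

noncomputable def f_mm_033 : ℕ → ℕ → ℕ → ℕ → Bool := onCell 0 536870912 0 1230186008 923417968 42949674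
    (rowB 3 eng mog cd0q0 cd3q3 pd3 0 true false false .pnn 0 3 3 (qsf 0 536870912 0 1230186008 3) ndB0q0 ndB3q3 pcB3 Cut.none Ext.none)

def k0_mm_033 : ∃ t, chk3 f_mm_033 t 1 1 1 = true :=
  ⟨(l 5), by decide +kernel⟩

theorem c_mm_033 : CertB 0 536870912 0 1230186008 923417968 42949674 3 eng mog cd0q0 cd3q3 pd3 true false false .pnn 0 3 3
    ndB0q0 ndB3q3 pcB3 Cut.none Ext.none :=
  certB0 (fam := true) (s1 := false) (s2 := false) (a := 0) (b := 3) (c := 3) (cn := .pnn) (n1 := ndB0q0) (n2 := ndB3q3) (pc := pcB3) (cut := Cut.none) (xt := Ext.none) (P1 := 0) (W1 := 536870912) (P2 := 0) (W2 := 1230186008) (P3 := 923417968) (W3 := 42949674) (N0 := 3) (En := eng) (mo := mog) (C1 := cd0q0) (C2 := cd3q3) (C3 := pd3)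
    rfl k0_mm_033

noncomputable def f_mm_101 : ℕ → ℕ → ℕ → ℕ → Bool := onCell 536870912 536870912 0 536870912 923417968 42949674
    (rowB 3 eng mog cd0q1 cd3q0 pd1 0 true false false .npn 1 0 1 (qsf 536870912 536870912 0 536870912 1) ndB0q1 ndB3q0 pcB1 Cut.none Ext.none)

def k0_mm_101 : ∃ t, chk3 f_mm_101 t 1 1 1 = true :=
  ⟨(l 4), by decide +kernel⟩

theorem c_mm_101 : CertB 536870912 536870912 0 536870912 923417968 42949674 3 eng mog cd0q1 cd3q0 pd1 true false false .npn 1 0 1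
    ndB0q1 ndB3q0 pcB1 Cut.none Ext.none :=
  certB0 (fam := true) (s1 := false) (s2 := false) (a := 1) (b := 0) (c := 1) (cn := .npn) (n1 := ndB0q1) (n2 := ndB3q0) (pc := pcB1) (cut := Cut.none) (xt := Ext.none) (P1 := 536870912) (W1 := 536870912) (P2 := 0) (W2 := 536870912) (P3 := 923417968) (W3 := 42949674) (N0 := 3) (En := eng) (mo := mog) (C1 := cd0q1) (C2 := cd3q0) (C3 := pd1)
    rfl k0_mm_101

noncomputable def f_mm_102 : ℕ → ℕ → ℕ → ℕ → Bool := onCell 536870912 536870912 0 536870912 923417968 42949674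
    (rowB 3 eng mog cd0q1 cd3q0 pd2 0 true false false .npp 1 0 2 (qsf 536870912 536870912 0 536870912 2) ndB0q1 ndB3q0 pcB2 Cut.none Ext.none)

def k0_mm_102 : ∃ t, chk3 f_mm_102 t 1 1 1 = true :=
  ⟨(l 4), by decide +kernel⟩

theorem c_mm_102 : CertB 536870912 536870912 0 536870912 923417968 42949674 3 eng mog cd0q1 cd3q0 pd2 true false false .npp 1 0 2
    ndB0q1 ndB3q0 pcB2 Cut.none Ext.none :=
  certB0 (fam := true) (s1 := false) (s2 := false) (a := 1) (b := 0) (c := 2) (cn := .npp) (n1 := ndB0q1) (n2 := ndB3q0) (pc := pcB2) (cut := Cut.none) (xt := Ext.none) (P1 := 536870912) (W1 := 536870912) (P2 := 0) (W2 := 536870912) (P3 := 923417968) (W3 := 42949674) (N0 := 3) (En := eng) (mo := mog) (C1 := cd0q1) (C2 := cd3q0) (C3 := pd2)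
    rfl k0_mm_102

noncomputable def f_mm_112 : ℕ → ℕ → ℕ → ℕ → Bool := onCell 536870912 536870912 536870912 536870912 923417968 42949674
    (rowB 3 eng mog cd0q1 cd3q1 pd2 0 true false false .dn 1 1 2 (qsf 536870912 536870912 536870912 536870912 2) ndB0q1 ndB3q1 pcB2 Cut.none Ext.none)

def k0_mm_112 : ∃ t, chk3 f_mm_112 t 1 1 1 = true :=
  ⟨(l 4), by decide +kernel⟩

theorem c_mm_112 : CertB 536870912 536870912 536870912 536870912 923417968 42949674 3 eng mog cd0q1 cd3q1 pd2 true false false .dn 1 1 2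
    ndB0q1 ndB3q1 pcB2 Cut.none Ext.none :=
  certB0 (fam := true) (s1 := false) (s2 := false) (a := 1) (b := 1) (c := 2) (cn := .dn) (n1 := ndB0q1) (n2 := ndB3q1) (pc := pcB2) (cut := Cut.none) (xt := Ext.none) (P1 := 536870912) (W1 := 536870912) (P2 := 536870912) (W2 := 536870912) (P3 := 923417968) (W3 := 42949674) (N0 := 3) (En := eng) (mo := mog) (C1 := cd0q1) (C2 := cd3q1) (C3 := pd2)
    rfl k0_mm_112

noncomputable def f_mm_113 : ℕ → ℕ → ℕ → ℕ → Bool := onCell 536870912 536870912 536870912 536870912 923417968 42949674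
    (rowB 3 eng mog cd0q1 cd3q1 pd3 0 true false false .nn 1 1 3 (qsf 536870912 536870912 536870912 536870912 3) ndB0q1 ndB3q1 pcB3 Cut.none Ext.none)

def k0_mm_113 : ∃ t, chk3 f_mm_113 t 1 1 1 = true :=
  ⟨(l 4), by decide +kernel⟩

theorem c_mm_113 : CertB 536870912 536870912 536870912 536870912 923417968 42949674 3 eng mog cd0q1 cd3q1 pd3 true false false .nn 1 1 3
    ndB0q1 ndB3q1 pcB3 Cut.none Ext.none :=
  certB0 (fam := true) (s1 := false) (s2 := false) (a := 1) (b := 1) (c := 3) (cn := .nn) (n1 := ndB0q1) (n2 := ndB3q1) (pc := pcB3) (cut := Cut.none) (xt := Ext.none) (P1 := 536870912) (W1 := 536870912) (P2 := 536870912) (W2 := 536870912) (P3 := 923417968) (W3 := 42949674) (N0 := 3) (En := eng) (mo := mog) (C1 := cd0q1) (C2 := cd3q1) (C3 := pd3)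
    rfl k0_mm_113

noncomputable def f_mm_123 : ℕ → ℕ → ℕ → ℕ → Bool := onCell 536870912 536870912 1073741824 536870912 923417968 42949674
    (rowB 3 eng mog cd0q1 cd3q2 pd3 0 true false false .npn 1 2 3 (qsf 536870912 536870912 1073741824 536870912 3) ndB0q1 ndB3q2 pcB3 Cut.none Ext.none)

def k0_mm_123 : ∃ t, chk3 f_mm_123 t 1 1 1 = true :=
  ⟨(l 4), by decide +kernel⟩

theorem c_mm_123 : CertB 536870912 536870912 1073741824 536870912 923417968 42949674 3 eng mog cd0q1 cd3q2 pd3 true false false .npn 1 2 3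
    ndB0q1 ndB3q2 pcB3 Cut.none Ext.none :=
  certB0 (fam := true) (s1 := false) (s2 := false) (a := 1) (b := 2) (c := 3) (cn := .npn) (n1 := ndB0q1) (n2 := ndB3q2) (pc := pcB3) (cut := Cut.none) (xt := Ext.none) (P1 := 536870912) (W1 := 536870912) (P2 := 1073741824) (W2 := 536870912) (P3 := 923417968) (W3 := 42949674) (N0 := 3) (En := eng) (mo := mog) (C1 := cd0q1) (C2 := cd3q2) (C3 := pd3)
    rfl k0_mm_123

noncomputable def f_mm_133 : ℕ → ℕ → ℕ → ℕ → Bool := onCell 536870912 536870912 0 1230186008 923417968 42949674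
    (rowB 3 eng mog cd0q1 cd3q3 pd3 0 true false false .dn 1 3 3 (qsf 536870912 536870912 0 1230186008 3) ndB0q1 ndB3q3 pcB3 Cut.none Ext.none)

def k0_mm_133 : ∃ t, chk3 f_mm_133 t 1 1 1 = true :=
  ⟨(l 4), by decide +kernel⟩

theorem c_mm_133 : CertB 536870912 536870912 0 1230186008 923417968 42949674 3 eng mog cd0q1 cd3q3 pd3 true false false .dn 1 3 3
    ndB0q1 ndB3q3 pcB3 Cut.none Ext.none :=
  certB0 (fam := true) (s1 := false) (s2 := false) (a := 1) (b := 3) (c := 3) (cn := .dn) (n1 := ndB0q1) (n2 := ndB3q3) (pc := pcB3) (cut := Cut.none) (xt := Ext.none) (P1 := 536870912) (W1 := 536870912) (P2 := 0) (W2 := 1230186008) (P3 := 923417968) (W3 := 42949674) (N0 := 3) (En := eng) (mo := mog) (C1 := cd0q1) (C2 := cd3q3) (C3 := pd3)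
    rfl k0_mm_133

noncomputable def f_mm_202 : ℕ → ℕ → ℕ → ℕ → Bool := onCell 0 536870912 0 536870912 923417968 42949674
    (rowB 3 eng mog cd0q2 cd3q0 pd2 0 true false false .pp 2 0 2 (qsf 0 536870912 0 536870912 2) ndB0q2 ndB3q0 pcB2 Cut.none Ext.none)

def k0_mm_202 : ∃ t, chk3 f_mm_202 t 1 1 1 = true :=
  ⟨(b (a (b (a (a (b (b (l 16125728) (l 15951456)) (l 4)) (l 4)) (l 4)) (l 4)) (l 4)) (l 4)), by decide +kernel⟩

theorem c_mm_202 : CertB 0 536870912 0 536870912 923417968 42949674 3 eng mog cd0q2 cd3q0 pd2 true false false .pp 2 0 2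
    ndB0q2 ndB3q0 pcB2 Cut.none Ext.none :=
  certB0 (fam := true) (s1 := false) (s2 := false) (a := 2) (b := 0) (c := 2) (cn := .pp) (n1 := ndB0q2) (n2 := ndB3q0) (pc := pcB2) (cut := Cut.none) (xt := Ext.none) (P1 := 0) (W1 := 536870912) (P2 := 0) (W2 := 536870912) (P3 := 923417968) (W3 := 42949674) (N0 := 3) (En := eng) (mo := mog) (C1 := cd0q2) (C2 := cd3q0) (C3 := pd2)
    rfl k0_mm_202

noncomputable def f_mm_203 : ℕ → ℕ → ℕ → ℕ → Bool := onCell 0 536870912 1610612736 536870912 923417968 42949674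
    (rowB 3 eng mog cd0q2 cd3q0 pd3 1 true false false .up 2 0 3 (qsf 0 536870912 0 536870912 3) ndB0q2 ndB3q0 pcB3 Cut.none Ext.none)

def k0_mm_203 : ∃ t, chk3 f_mm_203 t 1 1 1 = true :=
  ⟨(l 4), by decide +kernel⟩

theorem c_mm_203 : CertB 0 536870912 0 536870912 923417968 42949674 3 eng mog cd0q2 cd3q0 pd3 true false false .up 2 0 3
    ndB0q2 ndB3q0 pcB3 Cut.none Ext.none :=
  certB1 (fam := true) (s1 := false) (s2 := false) (a := 2) (b := 0) (c := 3) (cn := .up) (n1 := ndB0q2) (n2 := ndB3q0) (pc := pcB3) (cut := Cut.none) (xt := Ext.none) (P1 := 0) (W1 := 536870912) (P2 := 0) (W2 := 536870912) (P3 := 923417968) (W3 := 42949674) (N0 := 3) (En := eng) (mo := mog) (C1 := cd0q2) (C2 := cd3q0) (C3 := pd3)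
    rfl (fun _ => rfl) k0_mm_203

noncomputable def f_mm_213 : ℕ → ℕ → ℕ → ℕ → Bool := onCell 0 536870912 536870912 536870912 923417968 42949674
    (rowB 3 eng mog cd0q2 cd3q1 pd3 0 true false false .pnn 2 1 3 (qsf 0 536870912 536870912 536870912 3) ndB0q2 ndB3q1 pcB3 Cut.none Ext.none)

def k0_mm_213 : ∃ t, chk3 f_mm_213 t 1 1 1 = true :=
  ⟨(l 4), by decide +kernel⟩

theorem c_mm_213 : CertB 0 536870912 536870912 536870912 923417968 42949674 3 eng mog cd0q2 cd3q1 pd3 true false false .pnn 2 1 3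
    ndB0q2 ndB3q1 pcB3 Cut.none Ext.none :=
  certB0 (fam := true) (s1 := false) (s2 := false) (a := 2) (b := 1) (c := 3) (cn := .pnn) (n1 := ndB0q2) (n2 := ndB3q1) (pc := pcB3) (cut := Cut.none) (xt := Ext.none) (P1 := 0) (W1 := 536870912) (P2 := 536870912) (W2 := 536870912) (P3 := 923417968) (W3 := 42949674) (N0 := 3) (En := eng) (mo := mog) (C1 := cd0q2) (C2 := cd3q1) (C3 := pd3)
    rfl k0_mm_213

end Pool.Agent.Strip051.G.I8600_9000.Tab.C.BA03

namespace Pool.Agent.Strip051.G.I8600_9000.Tab.C.BA04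

open Pool.Agent.Strip051.PB Pool.Agent.Strip051.PB.T
open Pool.Agent.Strip051.G.I8600_9000.Tab

noncomputable def cut_pp_001 : Cut := Cut.of [[⟨3, 0, 0, 1449551462⟩]]

noncomputable def f_pp_001 : ℕ → ℕ → ℕ → ℕ → Bool := onCell 0 536870912 0 536870912 923417968 42949674
    (rowB 3 eng mog cd0q0 cd4q0 pd1 0 true true true .up 0 0 1 (qsf 0 536870912 0 536870912 1) ndB0q0 ndB4q0 pcB1 cut_pp_001 Ext.none)

def k0_pp_001 : ∃ t, chk3 f_pp_001 t 1 1 1 = true :=
  ⟨(l 4), by decide +kernel⟩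

theorem c_pp_001 : CertB 0 536870912 0 536870912 923417968 42949674 3 eng mog cd0q0 cd4q0 pd1 true true true .up 0 0 1
    ndB0q0 ndB4q0 pcB1 cut_pp_001 Ext.none :=
  certB0 (fam := true) (s1 := true) (s2 := true) (a := 0) (b := 0) (c := 1) (cn := .up) (n1 := ndB0q0) (n2 := ndB4q0) (pc := pcB1) (cut := cut_pp_001) (xt := Ext.none) (P1 := 0) (W1 := 536870912) (P2 := 0) (W2 := 536870912) (P3 := 923417968) (W3 := 42949674) (N0 := 3) (En := eng) (mo := mog) (C1 := cd0q0) (C2 := cd4q0) (C3 := pd1)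
    rfl k0_pp_001

noncomputable def cut_pp_011 : Cut := Cut.of [[⟨3, 0, 0, 1449551462⟩]]

noncomputable def f_pp_011 : ℕ → ℕ → ℕ → ℕ → Bool := onCell 0 536870912 536870912 536870912 923417968 42949674
    (rowB 3 eng mog cd0q0 cd4q1 pd1 0 true true true .pnn 0 1 1 (qsf 0 536870912 536870912 536870912 1) ndB0q0 ndB4q1 pcB1 cut_pp_011 Ext.none)

def k0_pp_011 : ∃ t, chk3 f_pp_011 t 1 1 1 = true :=
  ⟨(l 4), by decide +kernel⟩

theorem c_pp_011 : CertB 0 536870912 536870912 536870912 923417968 42949674 3 eng mog cd0q0 cd4q1 pd1 true true true .pnn 0 1 1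
    ndB0q0 ndB4q1 pcB1 cut_pp_011 Ext.none :=
  certB0 (fam := true) (s1 := true) (s2 := true) (a := 0) (b := 1) (c := 1) (cn := .pnn) (n1 := ndB0q0) (n2 := ndB4q1) (pc := pcB1) (cut := cut_pp_011) (xt := Ext.none) (P1 := 0) (W1 := 536870912) (P2 := 536870912) (W2 := 536870912) (P3 := 923417968) (W3 := 42949674) (N0 := 3) (En := eng) (mo := mog) (C1 := cd0q0) (C2 := cd4q1) (C3 := pd1)
    rfl k0_pp_011

noncomputable def cut_pp_012 : Cut := Cut.of [[⟨3, 0, 0, 1449551462⟩]]

noncomputable def f_pp_012 : ℕ → ℕ → ℕ → ℕ → Bool := onCell 0 536870912 536870912 536870912 923417968 42949674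
    (rowB 3 eng mog cd0q0 cd4q1 pd2 0 true true true .pnp 0 1 2 (qsf 0 536870912 536870912 536870912 2) ndB0q0 ndB4q1 pcB2 cut_pp_012 Ext.none)

def k0_pp_012 : ∃ t, chk3 f_pp_012 t 1 1 1 = true :=
  ⟨(l 4), by decide +kernel⟩

theorem c_pp_012 : CertB 0 536870912 536870912 536870912 923417968 42949674 3 eng mog cd0q0 cd4q1 pd2 true true true .pnp 0 1 2
    ndB0q0 ndB4q1 pcB2 cut_pp_012 Ext.none :=
  certB0 (fam := true) (s1 := true) (s2 := true) (a := 0) (b := 1) (c := 2) (cn := .pnp) (n1 := ndB0q0) (n2 := ndB4q1) (pc := pcB2) (cut := cut_pp_012) (xt := Ext.none) (P1 := 0) (W1 := 536870912) (P2 := 536870912) (W2 := 536870912) (P3 := 923417968) (W3 := 42949674) (N0 := 3) (En := eng) (mo := mog) (C1 := cd0q0) (C2 := cd4q1) (C3 := pd2)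
    rfl k0_pp_012

noncomputable def cut_pp_022 : Cut := Cut.of [[⟨3, 0, 0, 1449551462⟩]]

noncomputable def f_pp_022 : ℕ → ℕ → ℕ → ℕ → Bool := onCell 0 536870912 1073741824 536870912 923417968 42949674
    (rowB 3 eng mog cd0q0 cd4q2 pd2 0 true true true .pp 0 2 2 (qsf 0 536870912 1073741824 536870912 2) ndB0q0 ndB4q2 pcB2 cut_pp_022 Ext.none)

def k0_pp_022 : ∃ t, chk3 f_pp_022 t 1 1 1 = true :=
  ⟨(l 4), by decide +kernel⟩

theorem c_pp_022 : CertB 0 536870912 1073741824 536870912 923417968 42949674 3 eng mog cd0q0 cd4q2 pd2 true true true .pp 0 2 2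
    ndB0q0 ndB4q2 pcB2 cut_pp_022 Ext.none :=
  certB0 (fam := true) (s1 := true) (s2 := true) (a := 0) (b := 2) (c := 2) (cn := .pp) (n1 := ndB0q0) (n2 := ndB4q2) (pc := pcB2) (cut := cut_pp_022) (xt := Ext.none) (P1 := 0) (W1 := 536870912) (P2 := 1073741824) (W2 := 536870912) (P3 := 923417968) (W3 := 42949674) (N0 := 3) (En := eng) (mo := mog) (C1 := cd0q0) (C2 := cd4q2) (C3 := pd2)
    rfl k0_pp_022

noncomputable def cut_pp_023 : Cut := Cut.of [[⟨3, 0, 0, 1449551462⟩]]

noncomputable def f_pp_023 : ℕ → ℕ → ℕ → ℕ → Bool := onCell 0 536870912 1073741824 536870912 923417968 42949674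
    (rowB 3 eng mog cd0q0 cd4q2 pd3 0 true true true .up 0 2 3 (qsf 0 536870912 1073741824 536870912 3) ndB0q0 ndB4q2 pcB3 cut_pp_023 Ext.none)

def k0_pp_023 : ∃ t, chk3 f_pp_023 t 1 1 1 = true :=
  ⟨(l 4), by decide +kernel⟩

theorem c_pp_023 : CertB 0 536870912 1073741824 536870912 923417968 42949674 3 eng mog cd0q0 cd4q2 pd3 true true true .up 0 2 3
    ndB0q0 ndB4q2 pcB3 cut_pp_023 Ext.none :=
  certB0 (fam := true) (s1 := true) (s2 := true) (a := 0) (b := 2) (c := 3) (cn := .up) (n1 := ndB0q0) (n2 := ndB4q2) (pc := pcB3) (cut := cut_pp_023) (xt := Ext.none) (P1 := 0) (W1 := 536870912) (P2 := 1073741824) (W2 := 536870912) (P3 := 923417968) (W3 := 42949674) (N0 := 3) (En := eng) (mo := mog) (C1 := cd0q0) (C2 := cd4q2) (C3 := pd3)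
    rfl k0_pp_023

noncomputable def cut_pp_033 : Cut := Cut.of [[⟨3, 0, 0, 1449551462⟩]]

noncomputable def f_pp_033 : ℕ → ℕ → ℕ → ℕ → Bool := onCell 0 536870912 0 1230186008 923417968 42949674
    (rowB 3 eng mog cd0q0 cd4q3 pd3 0 true true true .pnn 0 3 3 (qsf 0 536870912 0 1230186008 3) ndB0q0 ndB4q3 pcB3 cut_pp_033 Ext.none)

def k0_pp_033 : ∃ t, chk3 f_pp_033 t 1 1 1 = true :=
  ⟨(l 4), by decide +kernel⟩

theorem c_pp_033 : CertB 0 536870912 0 1230186008 923417968 42949674 3 eng mog cd0q0 cd4q3 pd3 true true true .pnn 0 3 3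
    ndB0q0 ndB4q3 pcB3 cut_pp_033 Ext.none :=
  certB0 (fam := true) (s1 := true) (s2 := true) (a := 0) (b := 3) (c := 3) (cn := .pnn) (n1 := ndB0q0) (n2 := ndB4q3) (pc := pcB3) (cut := cut_pp_033) (xt := Ext.none) (P1 := 0) (W1 := 536870912) (P2 := 0) (W2 := 1230186008) (P3 := 923417968) (W3 := 42949674) (N0 := 3) (En := eng) (mo := mog) (C1 := cd0q0) (C2 := cd4q3) (C3 := pd3)
    rfl k0_pp_033

noncomputable def cut_pp_101 : Cut := Cut.of [[⟨3, 0, 0, 1449551462⟩]]

noncomputable def f_pp_101 : ℕ → ℕ → ℕ → ℕ → Bool := onCell 536870912 536870912 0 536870912 923417968 42949674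
    (rowB 3 eng mog cd0q1 cd4q0 pd1 0 true true true .npn 1 0 1 (qsf 536870912 536870912 0 536870912 1) ndB0q1 ndB4q0 pcB1 cut_pp_101 Ext.none)

def k0_pp_101 : ∃ t, chk3 f_pp_101 t 1 1 1 = true :=
  ⟨(l 4), by decide +kernel⟩

theorem c_pp_101 : CertB 536870912 536870912 0 536870912 923417968 42949674 3 eng mog cd0q1 cd4q0 pd1 true true true .npn 1 0 1
    ndB0q1 ndB4q0 pcB1 cut_pp_101 Ext.none :=
  certB0 (fam := true) (s1 := true) (s2 := true) (a := 1) (b := 0) (c := 1) (cn := .npn) (n1 := ndB0q1) (n2 := ndB4q0) (pc := pcB1) (cut := cut_pp_101) (xt := Ext.none) (P1 := 536870912) (W1 := 536870912) (P2 := 0) (W2 := 536870912) (P3 := 923417968) (W3 := 42949674) (N0 := 3) (En := eng) (mo := mog) (C1 := cd0q1) (C2 := cd4q0) (C3 := pd1)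
    rfl k0_pp_101

noncomputable def cut_pp_102 : Cut := Cut.of [[⟨3, 0, 0, 1449551462⟩]]

noncomputable def f_pp_102 : ℕ → ℕ → ℕ → ℕ → Bool := onCell 536870912 536870912 0 536870912 923417968 42949674
    (rowB 3 eng mog cd0q1 cd4q0 pd2 0 true true true .npp 1 0 2 (qsf 536870912 536870912 0 536870912 2) ndB0q1 ndB4q0 pcB2 cut_pp_102 Ext.none)

def k0_pp_102 : ∃ t, chk3 f_pp_102 t 1 1 1 = true :=
  ⟨(l 4), by decide +kernel⟩

theorem c_pp_102 : CertB 536870912 536870912 0 536870912 923417968 42949674 3 eng mog cd0q1 cd4q0 pd2 true true true .npp 1 0 2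
    ndB0q1 ndB4q0 pcB2 cut_pp_102 Ext.none :=
  certB0 (fam := true) (s1 := true) (s2 := true) (a := 1) (b := 0) (c := 2) (cn := .npp) (n1 := ndB0q1) (n2 := ndB4q0) (pc := pcB2) (cut := cut_pp_102) (xt := Ext.none) (P1 := 536870912) (W1 := 536870912) (P2 := 0) (W2 := 536870912) (P3 := 923417968) (W3 := 42949674) (N0 := 3) (En := eng) (mo := mog) (C1 := cd0q1) (C2 := cd4q0) (C3 := pd2)
    rfl k0_pp_102

noncomputable def cut_pp_112 : Cut := Cut.of [[⟨3, 0, 0, 1449551462⟩]]

noncomputable def f_pp_112 : ℕ → ℕ → ℕ → ℕ → Bool := onCell 536870912 536870912 536870912 536870912 923417968 42949674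
    (rowB 3 eng mog cd0q1 cd4q1 pd2 0 true true true .dn 1 1 2 (qsf 536870912 536870912 536870912 536870912 2) ndB0q1 ndB4q1 pcB2 cut_pp_112 Ext.none)

def k0_pp_112 : ∃ t, chk3 f_pp_112 t 1 1 1 = true :=
  ⟨(l 4), by decide +kernel⟩

theorem c_pp_112 : CertB 536870912 536870912 536870912 536870912 923417968 42949674 3 eng mog cd0q1 cd4q1 pd2 true true true .dn 1 1 2
    ndB0q1 ndB4q1 pcB2 cut_pp_112 Ext.none :=
  certB0 (fam := true) (s1 := true) (s2 := true) (a := 1) (b := 1) (c := 2) (cn := .dn) (n1 := ndB0q1) (n2 := ndB4q1) (pc := pcB2) (cut := cut_pp_112) (xt := Ext.none) (P1 := 536870912) (W1 := 536870912) (P2 := 536870912) (W2 := 536870912) (P3 := 923417968) (W3 := 42949674) (N0 := 3) (En := eng) (mo := mog) (C1 := cd0q1) (C2 := cd4q1) (C3 := pd2)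
    rfl k0_pp_112

noncomputable def cut_pp_113 : Cut := Cut.of [[⟨3, 0, 0, 1449551462⟩]]

noncomputable def f_pp_113 : ℕ → ℕ → ℕ → ℕ → Bool := onCell 536870912 536870912 536870912 536870912 923417968 42949674
    (rowB 3 eng mog cd0q1 cd4q1 pd3 0 true true true .nn 1 1 3 (qsf 536870912 536870912 536870912 536870912 3) ndB0q1 ndB4q1 pcB3 cut_pp_113 Ext.none)

def k0_pp_113 : ∃ t, chk3 f_pp_113 t 1 1 1 = true :=
  ⟨(l 4), by decide +kernel⟩

theorem c_pp_113 : CertB 536870912 536870912 536870912 536870912 923417968 42949674 3 eng mog cd0q1 cd4q1 pd3 true true true .nn 1 1 3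
    ndB0q1 ndB4q1 pcB3 cut_pp_113 Ext.none :=
  certB0 (fam := true) (s1 := true) (s2 := true) (a := 1) (b := 1) (c := 3) (cn := .nn) (n1 := ndB0q1) (n2 := ndB4q1) (pc := pcB3) (cut := cut_pp_113) (xt := Ext.none) (P1 := 536870912) (W1 := 536870912) (P2 := 536870912) (W2 := 536870912) (P3 := 923417968) (W3 := 42949674) (N0 := 3) (En := eng) (mo := mog) (C1 := cd0q1) (C2 := cd4q1) (C3 := pd3)
    rfl k0_pp_113

noncomputable def cut_pp_123 : Cut := Cut.of [[⟨3, 0, 0, 1449551462⟩]]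

noncomputable def f_pp_123 : ℕ → ℕ → ℕ → ℕ → Bool := onCell 536870912 536870912 1073741824 536870912 923417968 42949674
    (rowB 3 eng mog cd0q1 cd4q2 pd3 0 true true true .npn 1 2 3 (qsf 536870912 536870912 1073741824 536870912 3) ndB0q1 ndB4q2 pcB3 cut_pp_123 Ext.none)

def k0_pp_123 : ∃ t, chk3 f_pp_123 t 1 1 1 = true :=
  ⟨(l 4), by decide +kernel⟩

theorem c_pp_123 : CertB 536870912 536870912 1073741824 536870912 923417968 42949674 3 eng mog cd0q1 cd4q2 pd3 true true true .npn 1 2 3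
    ndB0q1 ndB4q2 pcB3 cut_pp_123 Ext.none :=
  certB0 (fam := true) (s1 := true) (s2 := true) (a := 1) (b := 2) (c := 3) (cn := .npn) (n1 := ndB0q1) (n2 := ndB4q2) (pc := pcB3) (cut := cut_pp_123) (xt := Ext.none) (P1 := 536870912) (W1 := 536870912) (P2 := 1073741824) (W2 := 536870912) (P3 := 923417968) (W3 := 42949674) (N0 := 3) (En := eng) (mo := mog) (C1 := cd0q1) (C2 := cd4q2) (C3 := pd3)
    rfl k0_pp_123

noncomputable def cut_pp_133 : Cut := Cut.of [[⟨3, 0, 0, 1449551462⟩]]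

noncomputable def f_pp_133 : ℕ → ℕ → ℕ → ℕ → Bool := onCell 536870912 536870912 0 1230186008 923417968 42949674
    (rowB 3 eng mog cd0q1 cd4q3 pd3 0 true true true .dn 1 3 3 (qsf 536870912 536870912 0 1230186008 3) ndB0q1 ndB4q3 pcB3 cut_pp_133 Ext.none)

def k0_pp_133 : ∃ t, chk3 f_pp_133 t 1 1 1 = true :=
  ⟨(l 4), by decide +kernel⟩

theorem c_pp_133 : CertB 536870912 536870912 0 1230186008 923417968 42949674 3 eng mog cd0q1 cd4q3 pd3 true true true .dn 1 3 3
    ndB0q1 ndB4q3 pcB3 cut_pp_133 Ext.none :=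
  certB0 (fam := true) (s1 := true) (s2 := true) (a := 1) (b := 3) (c := 3) (cn := .dn) (n1 := ndB0q1) (n2 := ndB4q3) (pc := pcB3) (cut := cut_pp_133) (xt := Ext.none) (P1 := 536870912) (W1 := 536870912) (P2 := 0) (W2 := 1230186008) (P3 := 923417968) (W3 := 42949674) (N0 := 3) (En := eng) (mo := mog) (C1 := cd0q1) (C2 := cd4q3) (C3 := pd3)
    rfl k0_pp_133

noncomputable def cut_pp_202 : Cut := Cut.of [[⟨3, 0, 0, 1449551462⟩]]

noncomputable def f_pp_202 : ℕ → ℕ → ℕ → ℕ → Bool := onCell 0 536870912 0 536870912 923417968 42949674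
    (rowB 3 eng mog cd0q2 cd4q0 pd2 0 true true true .pp 2 0 2 (qsf 0 536870912 0 536870912 2) ndB0q2 ndB4q0 pcB2 cut_pp_202 Ext.none)

def k0_pp_202 : ∃ t, chk3 f_pp_202 t 1 1 1 = true :=
  ⟨(l 4), by decide +kernel⟩

theorem c_pp_202 : CertB 0 536870912 0 536870912 923417968 42949674 3 eng mog cd0q2 cd4q0 pd2 true true true .pp 2 0 2
    ndB0q2 ndB4q0 pcB2 cut_pp_202 Ext.none :=
  certB0 (fam := true) (s1 := true) (s2 := true) (a := 2) (b := 0) (c := 2) (cn := .pp) (n1 := ndB0q2) (n2 := ndB4q0) (pc := pcB2) (cut := cut_pp_202) (xt := Ext.none) (P1 := 0) (W1 := 536870912) (P2 := 0) (W2 := 536870912) (P3 := 923417968) (W3 := 42949674) (N0 := 3) (En := eng) (mo := mog) (C1 := cd0q2) (C2 := cd4q0) (C3 := pd2)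
    rfl k0_pp_202

noncomputable def cut_pp_203 : Cut := Cut.of [[⟨3, 0, 0, 1449551462⟩]]

noncomputable def f_pp_203 : ℕ → ℕ → ℕ → ℕ → Bool := onCell 0 536870912 0 536870912 923417968 42949674
    (rowB 3 eng mog cd0q2 cd4q0 pd3 0 true true true .up 2 0 3 (qsf 0 536870912 0 536870912 3) ndB0q2 ndB4q0 pcB3 cut_pp_203 Ext.none)

def k0_pp_203 : ∃ t, chk3 f_pp_203 t 1 1 1 = true :=
  ⟨(l 4), by decide +kernel⟩

theorem c_pp_203 : CertB 0 536870912 0 536870912 923417968 42949674 3 eng mog cd0q2 cd4q0 pd3 true true true .up 2 0 3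
    ndB0q2 ndB4q0 pcB3 cut_pp_203 Ext.none :=
  certB0 (fam := true) (s1 := true) (s2 := true) (a := 2) (b := 0) (c := 3) (cn := .up) (n1 := ndB0q2) (n2 := ndB4q0) (pc := pcB3) (cut := cut_pp_203) (xt := Ext.none) (P1 := 0) (W1 := 536870912) (P2 := 0) (W2 := 536870912) (P3 := 923417968) (W3 := 42949674) (N0 := 3) (En := eng) (mo := mog) (C1 := cd0q2) (C2 := cd4q0) (C3 := pd3)
    rfl k0_pp_203

noncomputable def cut_pp_213 : Cut := Cut.of [[⟨3, 0, 0, 1449551462⟩]]

noncomputable def f_pp_213 : ℕ → ℕ → ℕ → ℕ → Bool := onCell 0 536870912 536870912 536870912 923417968 42949674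
    (rowB 3 eng mog cd0q2 cd4q1 pd3 0 true true true .pnn 2 1 3 (qsf 0 536870912 536870912 536870912 3) ndB0q2 ndB4q1 pcB3 cut_pp_213 Ext.none)

def k0_pp_213 : ∃ t, chk3 f_pp_213 t 1 1 1 = true :=
  ⟨(l 4), by decide +kernel⟩

theorem c_pp_213 : CertB 0 536870912 536870912 536870912 923417968 42949674 3 eng mog cd0q2 cd4q1 pd3 true true true .pnn 2 1 3
    ndB0q2 ndB4q1 pcB3 cut_pp_213 Ext.none :=
  certB0 (fam := true) (s1 := true) (s2 := true) (a := 2) (b := 1) (c := 3) (cn := .pnn) (n1 := ndB0q2) (n2 := ndB4q1) (pc := pcB3) (cut := cut_pp_213) (xt := Ext.none) (P1 := 0) (W1 := 536870912) (P2 := 536870912) (W2 := 536870912) (P3 := 923417968) (W3 := 42949674) (N0 := 3) (En := eng) (mo := mog) (C1 := cd0q2) (C2 := cd4q1) (C3 := pd3)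
    rfl k0_pp_213

noncomputable def cut_pm_001 : Cut := Cut.of [[⟨3, 0, 0, 1449551462⟩]]

noncomputable def f_pm_001 : ℕ → ℕ → ℕ → ℕ → Bool := onCell 0 536870912 0 536870912 923417968 42949674
    (rowB 3 eng mog cd0q0 cd4q0 pd1 0 true true false .up 0 0 1 (qsf 0 536870912 0 536870912 1) ndB0q0 ndB4q0 pcB1 cut_pm_001 Ext.none)

def k0_pm_001 : ∃ t, chk3 f_pm_001 t 1 1 1 = true :=
  ⟨(a (l 3) (b (l 6) (a (l 6) (b (l 6) (a (l 6) (b (l 6) (a (l 6) (b (l 6) (l 16247904))))))))), by decide +kernel⟩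

theorem c_pm_001 : CertB 0 536870912 0 536870912 923417968 42949674 3 eng mog cd0q0 cd4q0 pd1 true true false .up 0 0 1
    ndB0q0 ndB4q0 pcB1 cut_pm_001 Ext.none :=
  certB0 (fam := true) (s1 := true) (s2 := false) (a := 0) (b := 0) (c := 1) (cn := .up) (n1 := ndB0q0) (n2 := ndB4q0) (pc := pcB1) (cut := cut_pm_001) (xt := Ext.none) (P1 := 0) (W1 := 536870912) (P2 := 0) (W2 := 536870912) (P3 := 923417968) (W3 := 42949674) (N0 := 3) (En := eng) (mo := mog) (C1 := cd0q0) (C2 := cd4q0) (C3 := pd1)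
    rfl k0_pm_001

noncomputable def cut_pm_011 : Cut := Cut.of [[⟨3, 0, 0, 1449551462⟩], [⟨0, 0, 0, 67108864⟩, ⟨1, 1, 0, 67108864⟩, ⟨2, 1, 0, 67108864⟩]]

noncomputable def f_pm_011 : ℕ → ℕ → ℕ → ℕ → Bool := onCell 0 536870912 536870912 536870912 923417968 42949674
    (rowB 3 eng mog cd0q0 cd4q1 pd1 1 true true false .pnn 0 1 1 (qsf 0 536870912 536870912 536870912 1) ndB0q0 ndB4q1 pcB1 cut_pm_011 Ext.none)

def k0_pm_011 : ∃ t, chk3 f_pm_011 t 1 1 1 = true :=
  ⟨(b (l 6) (a (l 6) (b (l 6) (a (l 6) (b (l 6) (a (l 6) (b (l 6) (l 16248088)))))))), by decide +kernel⟩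

theorem c_pm_011 : CertB 0 536870912 536870912 536870912 923417968 42949674 3 eng mog cd0q0 cd4q1 pd1 true true false .pnn 0 1 1
    ndB0q0 ndB4q1 pcB1 cut_pm_011 Ext.none :=
  certB1 (fam := true) (s1 := true) (s2 := false) (a := 0) (b := 1) (c := 1) (cn := .pnn) (n1 := ndB0q0) (n2 := ndB4q1) (pc := pcB1) (cut := cut_pm_011) (xt := Ext.none) (P1 := 0) (W1 := 536870912) (P2 := 536870912) (W2 := 536870912) (P3 := 923417968) (W3 := 42949674) (N0 := 3) (En := eng) (mo := mog) (C1 := cd0q0) (C2 := cd4q1) (C3 := pd1)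
    rfl (fun _ => rfl) k0_pm_011

noncomputable def cut_pm_012 : Cut := Cut.of [[⟨3, 0, 0, 1449551462⟩], [⟨0, 0, 0, 67108864⟩, ⟨1, 1, 0, 67108864⟩, ⟨2, 1, 0, 67108864⟩]]

noncomputable def f_pm_012 : ℕ → ℕ → ℕ → ℕ → Bool := onCell 0 536870912 536870912 536870912 923417968 42949674
    (rowB 3 eng mog cd0q0 cd4q1 pd2 0 true true false .pnp 0 1 2 (qsf 0 536870912 536870912 536870912 2) ndB0q0 ndB4q1 pcB2 cut_pm_012 Ext.none)

def k0_pm_012 : ∃ t, chk3 f_pm_012 t 2 1 1 = true :=
  ⟨(b (l 6) (a (l 6) (b (l 6) (a (l 6) (a (b (l 6) (b (l 6) (a (b (l 6) (c (l 15535200) (l 15410488))) (c (b (l 15557568) (l 15453984)) (b (l 15436552) (l 15321680)))))) (b (a (l 6) (b (l 6) (b (l 6) (l 15659672)))) (b (c (b (l 15645568) (l 15544000)) (c (l 15510256) (l 15450544))) (c (b (l 15441752) (l 15402192)) (b (l 15309736) (l 15195984)))))))))), by decide +kernel⟩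

def k1_pm_012 : ∃ t, chk3 f_pm_012 t 3 2 1 = true :=
  ⟨(a (b (l 6) (a (l 6) (b (l 6) (a (l 6) (b (l 6) (l 16164976)))))) (b (a (b (l 6) (a (l 6) (b (l 6) (l 16199224)))) (b (a (c (l 441876598679) (l 513817396839)) (l 315175099159)) (a (b (l 16175280) (l 16135144)) (l 16073816)))) (a (b (a (b (l 6) (l 16220144)) (l 16085336)) (a (b (l 16144144) (l 16052192)) (l 15994952))) (b (a (l 16053032) (l 15968216)) (a (l 15901464) (l 15820440)))))), by decide +kernel⟩

def k2_pm_012 : ∃ t, chk3 f_pm_012 t 6 3 1 = true :=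
  ⟨(b (b (a (l 6) (a (b (l 16177328) (c (l 16066672) (l 16024480))) (b (l 16013600) (l 15926808)))) (b (a (a (l 6) (a (l 6) (b (l 16030456) (a (l 15964480) (b (l 15951480) (a (l 15917352) (b (l 15911144) (l 15889256)))))))) (a (b (l 15932864) (a (a (b (a (l 15926288) (l 15910176)) (l 15875224)) (l 15865216)) (l 15819840))) (l 15776424))) (a (a (l 6) (a (b (a (l 6) (b (l 15934096) (b (l 15900632) (a (l 15886744) (l 15869048))))) (c (a (b (b (l 6) (l 15900936)) (l 15868008)) (l 15856520)) (l 15778664))) (b (c (a (b (b (l 15941400) (l 15919936)) (l 15888456)) (l 15876984)) (l 15802808)) (l 15768776)))) (a (c (l 15758064) (l 15674656)) (l 15606024))))) (b (b (b (a (a (a (l 6) (a (b (l 6) (l 15954400)) (b (l 15903784) (l 15771672)))) (l 15708176)) (a (l 15555288) (l 15466616))) (a (a (a (a (l 6) (b (l 6) (l 15745200))) (l 15715416)) (l 15610184)) (a (l 15604288) (l 15474344)))) (a (a (c (l 15649344) (l 15545632)) (c (l 15515536) (l 15398520))) (a (c (l 15391184)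 (l 15261344)) (a (c (l 15306736) (l 15169032)) (l 15195648))))) (a (a (b (c (b (l 15501104) (l 15400832)) (l 15301968)) (c (b (l 15299952) (l 15198928)) (b (l 15153968) (l 15041664)))) (b (c (l 15319608) (l 15178184)) (c (l 15183576) (l 14955560)))) (a (b (c (l 15197672) (l 15043328)) (c (l 15001408) (l 14823280))) (b (a (c (l 15112632) (l 14949304)) (c (l 15066808) (l 14900888))) (a (l 14993920) (c (l 14868808) (l 14676848)))))))), by decide +kernel⟩

def k3_pm_012 : ∃ t, chk3 f_pm_012 t 7 3 1 = true :=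
  ⟨(b (a (b (a (b (l 15944496) (l 15819352)) (b (l 15843392) (l 15723080))) (a (c (l 15634688) (l 15552216)) (c (l 15549120) (l 15466160)))) (b (a (l 15699976) (l 15628744)) (a (c (l 15477224) (l 15397416)) (l 15383416)))) (b (b (a (a (l 15584120) (l 15261064)) (a (l 15206160) (l 15166848))) (a (a (c (l 15207872) (l 15070696)) (l 15186600)) (a (l 15039272) (l 15012664)))) (a (a (b (c (l 15020328) (l 14857736)) (c (l 14828040) (l 14639976))) (b (c (l 14970696) (l 14815664)) (c (l 14792488) (l 14614992)))) (a (b (l 15055880) (c (l 14772856) (l 14610304))) (b (l 14854896) (c (l 14767224) (l 14624160))))))), by decide +kernel⟩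

theorem s4_pm_012 : ∃ t, chk3 f_pm_012 t 3 3 1 = true := ex3_a k2_pm_012 k3_pm_012

theorem s5_pm_012 : ∃ t, chk3 f_pm_012 t 3 1 1 = true := ex3_b k1_pm_012 s4_pm_012

theorem s6_pm_012 : ∃ t, chk3 f_pm_012 t 1 1 1 = true := ex3_a k0_pm_012 s5_pm_012

theorem c_pm_012 : CertB 0 536870912 536870912 536870912 923417968 42949674 3 eng mog cd0q0 cd4q1 pd2 true true false .pnp 0 1 2
    ndB0q0 ndB4q1 pcB2 cut_pm_012 Ext.none :=
  certB0 (fam := true) (s1 := true) (s2 := false) (a := 0) (b := 1) (c := 2) (cn := .pnp) (n1 := ndB0q0) (n2 := ndB4q1) (pc := pcB2) (cut := cut_pm_012) (xt := Ext.none) (P1 := 0) (W1 := 536870912) (P2 := 536870912) (W2 := 536870912) (P3 := 923417968) (W3 := 42949674) (N0 := 3) (En := eng) (mo := mog) (C1 := cd0q0) (C2 := cd4q1) (C3 := pd2)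
    rfl s6_pm_012

noncomputable def cut_pm_022 : Cut := Cut.of [[⟨3, 0, 0, 1449551462⟩], [⟨0, 0, 0, 67108864⟩, ⟨1, 1, 0, 67108864⟩, ⟨2, 1, 0, 67108864⟩]]

noncomputable def f_pm_022 : ℕ → ℕ → ℕ → ℕ → Bool := onCell 0 536870912 1073741824 536870912 923417968 42949674
    (rowB 3 eng mog cd0q0 cd4q2 pd2 0 true true false .pp 0 2 2 (qsf 0 536870912 1073741824 536870912 2) ndB0q0 ndB4q2 pcB2 cut_pm_022 Ext.none)

def k0_pm_022 : ∃ t, chk3 f_pm_022 t 2 1 1 = true :=
  ⟨(b (a (b (b (l 6) (b (l 6) (a (l 6) (a (l 6) (c (l 16009192) (l 15926200)))))) (b (a (l 6) (a (b (l 6) (l 16118432)) (b (a (l 16020592) (l 15942584)) (l 15991512)))) (a (a (b (l 6) (c (l 16141032) (l 16172528))) (b (l 16272632) (l 16225712))) (a (b (l 16128968) (l 16113512)) (b (l 15996568) (l 15996328)))))) (b (b (a (a (l 6) (a (b (l 6) (b (l 15727936) (l 15636816))) (b (b (l 6) (c (l 15584600) (l 15461616))) (b (l 15581144) (l 15556344))))) (b (a (c (b (a (l 15489616) (l 15410376)) (l 15466344))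 (b (a (l 15359152) (l 15272480)) (l 15332408))) (c (b (l 15319496) (l 15321344)) (b (l 15149888) (l 15173600)))) (a (b (a (l 15459152) (l 15382832)) (l 15673352)) (c (l 15359600) (l 15214936))))) (a (b (a (c (l 15809000) (l 15729560)) (b (l 15592560) (l 15611352))) (a (c (l 15853928) (l 15756984)) (c (l 15715400) (l 15605920)))) (b (a (c (l 15540776) (l 15414048)) (c (l 15416584) (l 15278032))) (a (l 15510216) (l 15455272))))) (a (b (b (a (l 15833760) (l 15702552)) (a (l 15858640) (l 15740600))) (b (a (l 15877912) (l 15772776)) (l 15592152))) (b (b (a (l 15584264) (l 15478208)) (a (l 15634632) (l 15540104))) (b (l 15635936) (l 15679504)))))) (a (b (a (b (b (a (l 16022560) (l 16151032)) (a (l 16005272) (l 16077320))) (a (b (l 15931280) (l 15858592)) (l 15969784))) (b (a (l 16086264) (l 15991448)) (a (l 16039152) (l 15976792)))) (a (b (a (l 15583120) (l 15829040)) (b (l 15684592) (l 15615800))) (b (l 15936872) (l 15812600)))) (b (a (b (b (l 15777600) (l 15876616))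 (l 15892712)) (b (l 15486912) (l 15805928))) (a (b (l 15905312) (l 2)) (l 2))))), by decide +kernel⟩

def k1_pm_022 : ∃ t, chk3 f_pm_022 t 3 1 1 = true :=
  ⟨(b (a (b (b (a (b (a (c (b (l 15161808) (l 15190352)) (b (l 14999496) (l 15029528))) (c (l 15053864) (l 14879336))) (a (c (l 15237072) (l 15080200)) (c (l 15126096) (l 14957568)))) (b (a (c (l 14941472) (l 14754456)) (a (l 14914056) (b (l 14713752) (l 14739336)))) (a (c (l 15024344) (l 14844520)) (l 14985152)))) (a (b (a (l 15462896) (l 15147704)) (a (l 15307848) (l 15213216))) (b (a (l 15030528) (l 14943024)) (a (l 15127688) (l 15050880))))) (b (a (b (a (l 15383792) (l 15299720)) (l 15418416)) (b (l 15295208) (l 15288480))) (a (b (l 15489384) (l 15553432)) (b (l 15379152) (l 2))))) (b (a (b (a (b (a (c (l 14782704) (l 14581352)) (l 14883896)) (a (c (l 14876088) (l 14681120)) (l 14777064))) (b (c (l 14756136) (l 14571384)) (c (l 14867088) (l 14691552)))) (a (b (a (l 14888808) (l 14886256)) (a (l 15001608)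 (l 14998520))) (b (l 15112944) (l 15026872)))) (b (a (b (c (l 14751424) (l 14584632)) (c (l 14875928) (l 14720872))) (b (c (l 14759344) (l 14614896)) (l 15019840))) (a (b (l 14935808) (l 2)) (l 2)))) (a (b (a (b (l 15365848) (l 2)) (l 2)) (l 2)) (l 2)))) (a (b (b (a (l 15642136) (l 2)) (l 2)) (l 2)) (l 2))), by decide +kernel⟩

theorem s2_pm_022 : ∃ t, chk3 f_pm_022 t 1 1 1 = true := ex3_a k0_pm_022 k1_pm_022

theorem c_pm_022 : CertB 0 536870912 1073741824 536870912 923417968 42949674 3 eng mog cd0q0 cd4q2 pd2 true true false .pp 0 2 2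
    ndB0q0 ndB4q2 pcB2 cut_pm_022 Ext.none :=
  certB0 (fam := true) (s1 := true) (s2 := false) (a := 0) (b := 2) (c := 2) (cn := .pp) (n1 := ndB0q0) (n2 := ndB4q2) (pc := pcB2) (cut := cut_pm_022) (xt := Ext.none) (P1 := 0) (W1 := 536870912) (P2 := 1073741824) (W2 := 536870912) (P3 := 923417968) (W3 := 42949674) (N0 := 3) (En := eng) (mo := mog) (C1 := cd0q0) (C2 := cd4q2) (C3 := pd2)
    rfl s2_pm_022

noncomputable def cut_pm_023 : Cut := Cut.of [[⟨3, 0, 0, 1449551462⟩]]

noncomputable def f_pm_023 : ℕ → ℕ → ℕ → ℕ → Bool := onCell 0 536870912 1610612736 536870912 923417968 42949674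
    (rowB 3 eng mog cd0q0 cd4q2 pd3 1 true true false .up 0 2 3 (qsf 0 536870912 1073741824 536870912 3) ndB0q0 ndB4q2 pcB3 cut_pm_023 Ext.none)

def k0_pm_023 : ∃ t, chk3 f_pm_023 t 2 1 1 = true :=
  ⟨(b (a (b (a (b (a (b (l 15367792) (l 15342240)) (b (l 15501456) (l 15463304))) (a (l 2) (l 15437552))) (b (a (l 15435856) (l 15754184)) (a (l 15512560) (l 15671672)))) (a (l 2) (b (a (l 2) (l 15641472)) (l 2)))) (b (a (b (a (l 15866120) (l 15954392)) (l 15827440)) (b (l 15753952) (l 15966264))) (a (b (b (l 15783880) (l 15770200)) (l 15772656)) (b (l 15913064) (l 15889768))))) (a (l 2) (b (b (a (l 2) (l 15901640)) (l 2)) (l 2)))), by decide +kernel⟩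

def k1_pm_023 : ∃ t, chk3 f_pm_023 t 3 1 1 = true :=
  ⟨(b (a (b (a (b (a (l 15833800) (l 15620344)) (l 15873400)) (a (b (l 15533312) (l 15740528)) (b (l 15197464) (l 15631648)))) (a (b (l 15929952) (l 15951304)) (b (l 15802960) (l 15888384)))) (b (a (b (a (b (c (l 15231504) (l 15217896)) (l 15345344)) (b (c (l 15062288) (l 15012432)) (c (l 15194912) (l 15153160)))) (a (b (l 15454168) (l 15550224)) (b (l 15301080) (l 15415920)))) (b (a (b (c (l 14885480) (l 14795032)) (c (l 15028112) (l 14947952))) (b (c (l 14703696) (l 14574008)) (c (l 14852752) (l 14734504)))) (b (a (l 15130416) (c (l 15000112) (l 14892752))) (a (l 15263808) (l 15094920))))) (a (b (a (l 15670896) (b (l 15518288) (l 15608264))) (b (l 15733672) (l 15798008))) (b (b (a (l 15384600) (l 15233744)) (a (l 15493192) (l 15360216))) (b (a (l 15589720) (l 15474792)) (l 15628448)))))) (a (b (b (a (l 15956160) (l 15948384)) (a (b (l 15978264) (l 2)) (b (l 15980688) (l 15997640)))) (a (l 2) (b (b (l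 16031720) (l 2)) (l 2)))) (b (b (a (a (l 15904648) (l 15858344)) (b (l 15716616) (l 15796472))) (a (b (l 15959424) (l 16006120)) (b (l 15872632) (l 15945960)))) (a (b (b (l 16051192) (b (l 16087288) (l 16129680))) (b (a (l 2) (l 16184768)) (l 2))) (b (b (l 16017872) (b (l 16071088) (l 16108816))) (b (b (l 16147016) (l 16191912)) (b (l 16232472) (b (l 16259792) (l 4))))))))), by decide +kernel⟩

theorem s2_pm_023 : ∃ t, chk3 f_pm_023 t 1 1 1 = true := ex3_a k0_pm_023 k1_pm_023

theorem c_pm_023 : CertB 0 536870912 1073741824 536870912 923417968 42949674 3 eng mog cd0q0 cd4q2 pd3 true true false .up 0 2 3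
    ndB0q0 ndB4q2 pcB3 cut_pm_023 Ext.none :=
  certB1 (fam := true) (s1 := true) (s2 := false) (a := 0) (b := 2) (c := 3) (cn := .up) (n1 := ndB0q0) (n2 := ndB4q2) (pc := pcB3) (cut := cut_pm_023) (xt := Ext.none) (P1 := 0) (W1 := 536870912) (P2 := 1073741824) (W2 := 536870912) (P3 := 923417968) (W3 := 42949674) (N0 := 3) (En := eng) (mo := mog) (C1 := cd0q0) (C2 := cd4q2) (C3 := pd3)
    rfl (fun _ => rfl) s2_pm_023

noncomputable def cut_pm_033 : Cut := Cut.of [[⟨3, 0, 0, 1449551462⟩]]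

noncomputable def f_pm_033 : ℕ → ℕ → ℕ → ℕ → Bool := onCell 1610612736 536870912 0 1230186008 923417968 42949674
    (rowB 3 eng mog cd0q0 cd4q3 pd3 2 true true false .pnn 0 3 3 (qsf 0 536870912 0 1230186008 3) ndB0q0 ndB4q3 pcB3 cut_pm_033 Ext.none)

def k0_pm_033 : ∃ t, chk3 f_pm_033 t 2 1 1 = true :=
  ⟨(b (l 1) (b (a (l 1) (b (l 1) (a (l 1) (b (l 1) (a (l 1) (l 15084424)))))) (b (a (l 1) (b (a (b (l 1) (l 15225264)) (b (l 15178160) (l 15290912))) (a (b (l 15158856) (l 15273936)) (b (l 15405232) (l 15518072))))) (a (b (a (l 1) (b (l 15154104) (l 15281952))) (a (b (l 372081410695) (l 265244394455)) (b (l 15414992) (l 15290488)))) (b (a (b (l 15394808) (l 15512864)) (b (l 15622432) (l 15714968))) (a (b (l 15620696) (l 15722840)) (b (l 15791768) (l 15857480)))))))), by decide +kernel⟩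

def k1_pm_033 : ∃ t, chk3 f_pm_033 t 3 1 1 = true :=
  ⟨(a (b (l 1) (b (a (b (l 1) (b (a (l 15046248) (l 15183408)) (l 425769473223))) (b (a (b (l 1) (l 15223640)) (b (l 15363928) (l 15410712))) (b (a (l 15343352) (l 15513240)) (a (l 15507840) (l 15654464))))) (b (a (b (c (l 15515288) (l 15470344)) (b (l 15643704) (l 15734312))) (b (a (l 15679024) (l 15792712)) (l 15878160))) (a (b (l 15846472) (l 15931656)) (b (l 15965792) (a (l 15980096) (l 15994880))))))) (b (b (l 4) (a (b (a (l 1) (l 4)) (a (b (l 1) (l 15502464)) (c (l 15595480) (l 15519392)))) (a (b (l 4) (a (l 15634720) (l 4))) (l 4)))) (a (b (a (b (b (l 15565144) (l 15630816)) (b (l 15690736) (l 15788000))) (b (b (l 15702600) (a (l 15739896) (l 15812176))) (a (b (l 15809072) (l 15874768)) (b (l 15879640) (l 15921192))))) (b (a (b (l 15896784) (l 15982168)) (b (l 15984456) (l 16062808))) (a (b (l 16035512) (l 16029944)) (b (l 16106808) (a (l 16093320) (l 16132208)))))) (b (a (b (b (l 15810936) (l 15912128))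 (b (a (l 15940424) (l 16005488)) (a (l 15983272) (l 16066320)))) (a (b (l 15930552) (l 15916304)) (b (l 4) (a (l 16107952) (b (l 4) (a (l 16155992) (l 16144328))))))) (a (b (b (l 16080176) (l 16141824)) (b (l 16178512) (a (l 16167272) (l 16202816)))) (a (b (b (l 16150904) (l 16195496)) (b (l 16229128) (l 16236848))) (b (a (b (l 16187832) (l 16222800)) (b (a (l 16206216) (l 16161560)) (a (l 16235728) (b (l 16233152) (l 16252008))))) (a (b (l 16252712) (l 16264648)) (b (a (l 16266904) (l 16279040)) (a (l 16272312) (l 4))))))))))), by decide +kernel⟩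

theorem s2_pm_033 : ∃ t, chk3 f_pm_033 t 1 1 1 = true := ex3_a k0_pm_033 k1_pm_033

theorem c_pm_033 : CertB 0 536870912 0 1230186008 923417968 42949674 3 eng mog cd0q0 cd4q3 pd3 true true false .pnn 0 3 3
    ndB0q0 ndB4q3 pcB3 cut_pm_033 Ext.none :=
  certB2 (fam := true) (s1 := true) (s2 := false) (a := 0) (b := 3) (c := 3) (cn := .pnn) (n1 := ndB0q0) (n2 := ndB4q3) (pc := pcB3) (cut := cut_pm_033) (xt := Ext.none) (P1 := 0) (W1 := 536870912) (P2 := 0) (W2 := 1230186008) (P3 := 923417968) (W3 := 42949674) (N0 := 3) (En := eng) (mo := mog) (C1 := cd0q0) (C2 := cd4q3) (C3 := pd3)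
    rfl (fun _ => rfl) s2_pm_033

noncomputable def cut_pm_101 : Cut := Cut.of [[⟨3, 0, 0, 1449551462⟩]]

noncomputable def f_pm_101 : ℕ → ℕ → ℕ → ℕ → Bool := onCell 536870912 536870912 536870912 536870912 923417968 42949674
    (rowB 3 eng mog cd0q1 cd4q0 pd1 1 true true false .npn 1 0 1 (qsf 536870912 536870912 0 536870912 1) ndB0q1 ndB4q0 pcB1 cut_pm_101 Ext.none)

def k0_pm_101 : ∃ t, chk3 f_pm_101 t 1 1 1 = true :=
  ⟨(b (a (b (l 6) (a (l 6) (a (l 6) (b (l 6) (a (l 6) (b (l 6) (l 15980008))))))) (a (b (l 1) (b (l 1) (a (a (b (l 1) (l 15898888)) (l 1)) (l 1)))) (l 1))) (a (b (a (l 6) (a (b (a (l 6) (b (l 6) (l 16002680))) (a (b (l 6) (l 16071400)) (l 16075928))) (b (a (b (l 15999440) (l 15930344)) (b (l 15917832) (l 15858488))) (a (l 15900768) (l 15800120))))) (a (b (a (l 6) (b (l 16160688) (l 16138288))) (a (b (l 16202784) (l 16167472)) (b (l 16114840) (l 16091416)))) (b (a (b (l 16027232) (l 16022528)) (a (l 15916064) (l 15831472))) (a (b (l 16016496)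 (l 16009984)) (a (l 15922304) (l 15827816)))))) (a (b (a (b (a (b (l 15835072) (l 15781016)) (b (l 15761904) (l 15705296))) (a (b (l 15728440) (l 15702104)) (b (l 15656952) (l 15604048)))) (b (a (b (l 1) (l 15638160)) (l 1)) (a (b (l 15578936) (l 15518680)) (b (l 15499936) (l 15427016))))) (b (a (a (l 15724824) (l 15597480)) (b (l 15396664) (l 15378288))) (a (c (l 15637720) (l 15651608)) (a (l 15422576) (l 15289688))))) (a (b (b (l 1) (a (b (l 1) (l 15334264)) (l 1))) (b (a (b (l 15245536) (l 15151472)) (b (a (l 15162272) (l 1)) (a (l 15059184) (l 14994896)))) (a (b (l 15122872) (l 15113968)) (b (l 14924648) (l 14917440))))) (b (l 1) (b (a (b (l 1) (c (l 362417847863) (l 390871817687))) (l 1)) (a (b (a (l 14805912) (l 14743992)) (c (l 14691744) (l 14627192))) (b (c (l 419862625495) (l 421472970423)) (c (l 14517944) (l 14415240)))))))))), by decide +kernel⟩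

theorem c_pm_101 : CertB 536870912 536870912 0 536870912 923417968 42949674 3 eng mog cd0q1 cd4q0 pd1 true true false .npn 1 0 1
    ndB0q1 ndB4q0 pcB1 cut_pm_101 Ext.none :=
  certB1 (fam := true) (s1 := true) (s2 := false) (a := 1) (b := 0) (c := 1) (cn := .npn) (n1 := ndB0q1) (n2 := ndB4q0) (pc := pcB1) (cut := cut_pm_101) (xt := Ext.none) (P1 := 536870912) (W1 := 536870912) (P2 := 0) (W2 := 536870912) (P3 := 923417968) (W3 := 42949674) (N0 := 3) (En := eng) (mo := mog) (C1 := cd0q1) (C2 := cd4q0) (C3 := pd1)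
    rfl (fun _ => rfl) k0_pm_101

noncomputable def cut_pm_102 : Cut := Cut.of [[⟨3, 0, 0, 1449551462⟩]]

noncomputable def f_pm_102 : ℕ → ℕ → ℕ → ℕ → Bool := onCell 536870912 536870912 1073741824 536870912 923417968 42949674
    (rowB 3 eng mog cd0q1 cd4q0 pd2 1 true true false .npp 1 0 2 (qsf 536870912 536870912 0 536870912 2) ndB0q1 ndB4q0 pcB2 cut_pm_102 Ext.none)

def k0_pm_102 : ∃ t, chk3 f_pm_102 t 1 1 1 = true :=
  ⟨(a (b (a (b (a (b (b (a (l 16095440) (l 16053000)) (l 16044736)) (b (l 16012120) (l 2))) (b (b (l 15990280) (l 15960784)) (b (l 15928160) (l 15892296)))) (a (l 2) (b (a (l 2) (l 15809072)) (l 2)))) (b (a (b (a (l 15915000) (l 15874168)) (b (l 15833480) (l 15728376))) (b (b (l 15829288) (l 15691552)) (a (l 15725264) (l 15658792)))) (a (b (a (l 15755752) (l 15693152)) (b (l 15571776) (l 2))) (b (a (l 15619680) (l 15535936)) (a (l 15511904) (l 15413200)))))) (a (l 2) (b (a (l 2) (b (a (l 2) (l 15299128)) (l 2))) (l 2)))) (b (a (b (a (b (a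 (l 15724248) (b (l 15695752) (l 15618656))) (a (l 15585776) (l 15504008))) (b (a (l 15511640) (a (l 15429272) (l 15353136))) (b (l 15373400) (l 15322392)))) (a (b (a (l 15448808) (l 15373080)) (l 15340128)) (b (a (l 15297320) (l 15215368)) (b (l 15205480) (l 15177168))))) (b (a (b (a (b (l 15251792) (l 15209424)) (b (l 15055712) (l 15030896))) (a (l 15159368) (l 15008968))) (b (a (b (l 14824808) (l 14820368)) (b (a (l 14632760) (l 14497792)) (l 14581816))) (a (b (l 14825656) (l 14839944)) (b (l 14609768) (l 14646640))))) (a (b (a (l 15121320) (l 15009392)) (a (l 15100680) (l 15025376))) (b (a (l 14870672) (l 14711376)) (a (l 14927768) (l 14810952)))))) (a (b (a (b (l 15210616) (l 15149784)) (b (l 15291168) (l 15249368))) (a (l 2) (b (l 382886912343) (l 2)))) (b (a (b (a (l 15097400) (l 15054400)) (a (l 15113888) (l 15097088))) (b (a (l 14990832) (l 14912736)) (a (l 15063688) (l 15019144)))) (a (b (a (l 15145200) (l 15154440)) (a (l 2) (l 15222464))) (b (b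 (l 15114120) (l 15165288)) (b (l 15218704) (l 15270688)))))))), by decide +kernel⟩

theorem c_pm_102 : CertB 536870912 536870912 0 536870912 923417968 42949674 3 eng mog cd0q1 cd4q0 pd2 true true false .npp 1 0 2
    ndB0q1 ndB4q0 pcB2 cut_pm_102 Ext.none :=
  certB1 (fam := true) (s1 := true) (s2 := false) (a := 1) (b := 0) (c := 2) (cn := .npp) (n1 := ndB0q1) (n2 := ndB4q0) (pc := pcB2) (cut := cut_pm_102) (xt := Ext.none) (P1 := 536870912) (W1 := 536870912) (P2 := 0) (W2 := 536870912) (P3 := 923417968) (W3 := 42949674) (N0 := 3) (En := eng) (mo := mog) (C1 := cd0q1) (C2 := cd4q0) (C3 := pd2)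
    rfl (fun _ => rfl) k0_pm_102

noncomputable def cut_pm_112 : Cut := Cut.of [[⟨3, 0, 0, 1449551462⟩]]

noncomputable def f_pm_112 : ℕ → ℕ → ℕ → ℕ → Bool := onCell 536870912 536870912 1073741824 536870912 923417968 42949674
    (rowB 3 eng mog cd0q1 cd4q1 pd2 1 true true false .dn 1 1 2 (qsf 536870912 536870912 536870912 536870912 2) ndB0q1 ndB4q1 pcB2 cut_pm_112 Ext.none)

def k0_pm_112 : ∃ t, chk3 f_pm_112 t 1 1 1 = true :=
  ⟨(a (b (a (b (a (b (b (l 16075432) (l 16048936)) (l 15998704)) (b (l 16104856) (l 15914712))) (a (b (l 15907160) (l 15785240)) (b (l 15837584) (l 15741752)))) (b (a (b (l 1) (l 15816032)) (l 1)) (a (b (l 15624632) (l 15636976)) (b (l 15581696) (l 15467240))))) (a (b (a (b (a (l 15615384) (l 15638144)) (a (l 15398536) (l 15454696))) (b (l 15541192) (l 15484616))) (a (b (a (b (l 15205120) (l 15066040)) (l 15106152)) (a (b (l 14923016) (l 14780064)) (b (l 15043616) (l 14914144)))) (b (a (l 15294928) (l 15320120)) (a (l 14885232) (l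 15111016))))) (b (a (b (l 15533464) (l 15417992)) (b (l 15356384) (a (l 15292960) (l 15210464)))) (a (b (l 15288840) (b (l 15177984) (l 15098760))) (b (a (l 15179912) (l 15132680)) (a (l 15076096) (l 15062936))))))) (b (a (b (l 1) (a (b (l 1) (l 15137752)) (l 1))) (l 1)) (a (b (a (b (l 15219336) (l 15161296)) (b (l 15152368) (l 15132928))) (b (a (l 15115176) (l 15129728)) (a (l 15071576) (l 15131528)))) (b (a (b (l 1) (l 15112112)) (l 1)) (a (b (l 15156960) (l 15212808)) (b (l 15143168) (l 15246680))))))), by decide +kernel⟩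

theorem c_pm_112 : CertB 536870912 536870912 536870912 536870912 923417968 42949674 3 eng mog cd0q1 cd4q1 pd2 true true false .dn 1 1 2
    ndB0q1 ndB4q1 pcB2 cut_pm_112 Ext.none :=
  certB1 (fam := true) (s1 := true) (s2 := false) (a := 1) (b := 1) (c := 2) (cn := .dn) (n1 := ndB0q1) (n2 := ndB4q1) (pc := pcB2) (cut := cut_pm_112) (xt := Ext.none) (P1 := 536870912) (W1 := 536870912) (P2 := 536870912) (W2 := 536870912) (P3 := 923417968) (W3 := 42949674) (N0 := 3) (En := eng) (mo := mog) (C1 := cd0q1) (C2 := cd4q1) (C3 := pd2)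
    rfl (fun _ => rfl) k0_pm_112

noncomputable def cut_pm_113 : Cut := Cut.of [[⟨3, 0, 0, 1449551462⟩]]

noncomputable def f_pm_113 : ℕ → ℕ → ℕ → ℕ → Bool := onCell 536870912 536870912 1610612736 536870912 923417968 42949674
    (rowB 3 eng mog cd0q1 cd4q1 pd3 1 true true false .nn 1 1 3 (qsf 536870912 536870912 536870912 536870912 3) ndB0q1 ndB4q1 pcB3 cut_pm_113 Ext.none)

def k0_pm_113 : ∃ t, chk3 f_pm_113 t 2 1 1 = true :=
  ⟨(b (b (a (b (a (c (a (b (l 14518976) (l 297522593143)) (b (l 14635384) (l 14486384))) (a (b (l 14356072) (l 252962018247)) (b (l 14466896) (l 14302096)))) (a (b (c (l 14753504) (l 14591272)) (c (l 14605336) (l 14420584))) (b (l 14800744) (c (l 14726088) (l 14554024))))) (a (a (l 2) (b (c (l 302354397127) (l 270141824839)) (l 2))) (c (a (b (l 14457544) (l 306112454487)) (b (l 14579520) (l 14433320))) (a (b (l 14255656) (l 286247885687)) (b (l 14382648) (l 14218472)))))) (b (b (a (a (l 14925576) (l 15045872)) (l 15197024)) (a (a (l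 14775672) (l 14906824)) (l 15164872))) (a (a (b (c (l 14704080) (l 14526896)) (c (l 14559952) (l 14358128))) (b (l 14761384) (l 14612600))) (b (a (l 14894912) (l 15012248)) (a (l 14755192) (l 14885872)))))) (a (b (a (l 2) (b (a (l 2) (c (l 309870512135) (l 302890848871))) (l 2))) (l 2)) (b (a (a (b (c (l 14416688) (l 432277098519)) (c (l 448920106599) (l 498848825543))) (b (l 14483952) (l 477374490295))) (b (a (l 14611880) (l 14753624)) (a (l 14467952) (l 14618160)))) (a (b (a (l 2) (l 516565802887)) (l 2)) (b (a (l 14328968) (l 14482464)) (a (l 14327960) (l 14351960))))))) (a (l 2) (b (b (a (l 2) (b (a (l 2) (l 14234496)) (l 2))) (l 2)) (l 2)))), by decide +kernel⟩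

def k1_pm_113 : ∃ t, chk3 f_pm_113 t 3 1 1 = true :=
  ⟨(a (b (b (b (a (b (l 15337376) (l 15251056)) (b (l 15417728) (l 15363984))) (a (b (l 15159360) (l 15060624)) (b (l 15310736) (l 15249096)))) (b (a (b (l 14952472) (l 14838264)) (b (l 15183360) (l 15113144))) (a (b (l 14720856) (l 14645248)) (b (l 15038512) (l 14963896))))) (b (b (a (b (a (l 14399632) (l 14584520)) (a (l 14297896) (l 14488312))) (b (l 14934456) (l 4))) (a (a (l 2) (l 4)) (l 4))) (l 4))) (b (a (b (b (b (l 15433728) (l 15415112)) (b (l 15397096) (l 15380728))) (b (b (l 15369040) (l 15356304)) (b (l 15349120) (l 4)))) (b (b (b (l 15612488) (l 15574728)) (b (l 15415960) (l 4))) (l 4))) (l 4))), by decide +kernel⟩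

theorem s2_pm_113 : ∃ t, chk3 f_pm_113 t 1 1 1 = true := ex3_a k0_pm_113 k1_pm_113

theorem c_pm_113 : CertB 536870912 536870912 536870912 536870912 923417968 42949674 3 eng mog cd0q1 cd4q1 pd3 true true false .nn 1 1 3
    ndB0q1 ndB4q1 pcB3 cut_pm_113 Ext.none :=
  certB1 (fam := true) (s1 := true) (s2 := false) (a := 1) (b := 1) (c := 3) (cn := .nn) (n1 := ndB0q1) (n2 := ndB4q1) (pc := pcB3) (cut := cut_pm_113) (xt := Ext.none) (P1 := 536870912) (W1 := 536870912) (P2 := 536870912) (W2 := 536870912) (P3 := 923417968) (W3 := 42949674) (N0 := 3) (En := eng) (mo := mog) (C1 := cd0q1) (C2 := cd4q1) (C3 := pd3)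
    rfl (fun _ => rfl) s2_pm_113

noncomputable def cut_pm_123 : Cut := Cut.of [[⟨3, 0, 0, 1449551462⟩]]

noncomputable def f_pm_123 : ℕ → ℕ → ℕ → ℕ → Bool := onCell 536870912 536870912 1610612736 536870912 923417968 42949674
    (rowB 3 eng mog cd0q1 cd4q2 pd3 1 true true false .npn 1 2 3 (qsf 536870912 536870912 1073741824 536870912 3) ndB0q1 ndB4q2 pcB3 cut_pm_123 Ext.none)

def k0_pm_123 : ∃ t, chk3 f_pm_123 t 2 2 1 = true :=
  ⟨(b (a (a (b (b (a (c (l 14516352) (l 14351168)) (c (l 210482345399) (l 222830038503))) (a (c (l 14671912) (l 14517128)) (c (l 14485192) (l 14297336)))) (b (a (c (l 14825440) (l 14682832)) (c (l 14644072) (l 14467528))) (a (l 15144656) (c (l 14802344) (l 14639280))))) (a (b (b (l 1) (c (l 223367222039) (l 235178025127))) (b (c (l 14457744) (l 14250936)) (c (l 14620440) (l 14426376)))) (b (l 1) (b (c (l 236788977479) (l 245378534071)) (c (l 14434856) (l 14213736)))))) (a (b (l 1) (b (l 1) (a (c (l 391407847223) (l 374227563543))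 (l 1)))) (l 1))) (a (a (b (b (a (l 15066616) (l 14929216)) (a (l 15210904) (l 15045760))) (b (a (l 15343136) (l 15196184)) (a (l 15463824) (l 15334904)))) (b (b (a (c (l 14784128) (l 14605280)) (c (l 14602256) (l 14395640))) (a (l 14868744) (c (l 14772784) (l 14584216)))) (a (b (l 15034040) (l 15191848)) (b (l 14863368) (l 15040344))))) (b (a (b (a (c (l 14419576) (l 14197048)) (c (l 14248008) (l 14028640))) (a (b (l 14452248) (l 14548168)) (l 14467592))) (b (l 1) (a (l 454221600151) (l 1)))) (a (b (a (l 14692120) (l 14513768)) (a (l 14882848) (l 14714464))) (b (a (l 14333944) (l 14170544)) (a (l 14536360) (l 14359952))))))), by decide +kernel⟩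

def k1_pm_123 : ∃ t, chk3 f_pm_123 t 2 3 1 = true :=
  ⟨(a (b (b (a (b (l 15310184) (l 15627888)) (b (a (l 15339928) (l 15210920)) (l 15425400))) (a (b (l 15732336) (l 15831504)) (b (l 15565144) (l 15692800)))) (a (b (b (l 15928688) (l 16020864)) (b (l 16120624) (b (l 16198568) (l 4)))) (b (b (l 15815968) (l 15934536)) (b (l 16072296) (l 4))))) (b (b (a (b (a (l 15068736) (l 14914000)) (a (l 15246800) (l 15109288))) (b (a (l 14749360) (l 14576480)) (l 14947736))) (a (b (l 15355224) (l 15522744)) (b (l 15105352) (l 15407248)))) (b (a (b (l 15683400) (l 15841184)) (b (l 15537680) (l 4))) (l 4)))), by decide +kernel⟩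

def k2_pm_123 : ∃ t, chk3 f_pm_123 t 3 1 1 = true :=
  ⟨(a (b (b (l 1) (b (l 1) (a (b (l 1) (c (l 14250368) (l 14037768))) (l 1)))) (b (b (b (a (a (l 14410272) (l 14275928)) (l 1)) (a (a (l 14646728) (l 14500440)) (l 4))) (a (b (a (l 14902472) (l 4)) (l 4)) (l 4))) (l 4))) (b (l 1) (l 4))), by decide +kernel⟩

theorem s3_pm_123 : ∃ t, chk3 f_pm_123 t 2 1 1 = true := ex3_b k0_pm_123 k1_pm_123

theorem s4_pm_123 : ∃ t, chk3 f_pm_123 t 1 1 1 = true := ex3_a s3_pm_123 k2_pm_123

theorem c_pm_123 : CertB 536870912 536870912 1073741824 536870912 923417968 42949674 3 eng mog cd0q1 cd4q2 pd3 true true false .npn 1 2 3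
    ndB0q1 ndB4q2 pcB3 cut_pm_123 Ext.none :=
  certB1 (fam := true) (s1 := true) (s2 := false) (a := 1) (b := 2) (c := 3) (cn := .npn) (n1 := ndB0q1) (n2 := ndB4q2) (pc := pcB3) (cut := cut_pm_123) (xt := Ext.none) (P1 := 536870912) (W1 := 536870912) (P2 := 1073741824) (W2 := 536870912) (P3 := 923417968) (W3 := 42949674) (N0 := 3) (En := eng) (mo := mog) (C1 := cd0q1) (C2 := cd4q2) (C3 := pd3)
    rfl (fun _ => rfl) s4_pm_123

noncomputable def cut_pm_133 : Cut := Cut.of [[⟨3, 0, 0, 1449551462⟩]]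

noncomputable def f_pm_133 : ℕ → ℕ → ℕ → ℕ → Bool := onCell 536870912 536870912 0 1230186008 923417968 42949674
    (rowB 3 eng mog cd0q1 cd4q3 pd3 0 true true false .dn 1 3 3 (qsf 536870912 536870912 0 1230186008 3) ndB0q1 ndB4q3 pcB3 cut_pm_133 Ext.none)

def k0_pm_133 : ∃ t, chk3 f_pm_133 t 1 1 1 = true :=
  ⟨(b (l 2) (b (l 2) (a (b (l 2) (l 4)) (l 2)))), by decide +kernel⟩

theorem c_pm_133 : CertB 536870912 536870912 0 1230186008 923417968 42949674 3 eng mog cd0q1 cd4q3 pd3 true true false .dn 1 3 3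
    ndB0q1 ndB4q3 pcB3 cut_pm_133 Ext.none :=
  certB0 (fam := true) (s1 := true) (s2 := false) (a := 1) (b := 3) (c := 3) (cn := .dn) (n1 := ndB0q1) (n2 := ndB4q3) (pc := pcB3) (cut := cut_pm_133) (xt := Ext.none) (P1 := 536870912) (W1 := 536870912) (P2 := 0) (W2 := 1230186008) (P3 := 923417968) (W3 := 42949674) (N0 := 3) (En := eng) (mo := mog) (C1 := cd0q1) (C2 := cd4q3) (C3 := pd3)
    rfl k0_pm_133

noncomputable def cut_pm_202 : Cut := Cut.of [[⟨3, 0, 0, 1449551462⟩]]

noncomputable def f_pm_202 : ℕ → ℕ → ℕ → ℕ → Bool := onCell 0 536870912 1073741824 536870912 923417968 42949674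
    (rowB 3 eng mog cd0q2 cd4q0 pd2 1 true true false .pp 2 0 2 (qsf 0 536870912 0 536870912 2) ndB0q2 ndB4q0 pcB2 cut_pm_202 Ext.none)

def k0_pm_202 : ∃ t, chk3 f_pm_202 t 1 1 1 = true :=
  ⟨(b (a (b (b (l 1) (l 4)) (l 4)) (b (a (b (l 1) (a (b (l 1) (b (l 14668800) (l 14751512))) (b (c (l 14582512) (l 14484440)) (l 14688272)))) (b (a (b (l 1) (a (b (l 1) (l 14507384)) (b (l 14452248) (l 14506136)))) (a (a (b (l 14538776) (l 14472704)) (b (l 14419344) (l 14471440))) (b (a (l 14445088) (b (c (l 14478760) (l 14365680)) (l 14434440))) (b (l 14450760) (l 14470832))))) (a (b (a (l 14574112) (l 14558472)) (l 14652312)) (b (a (l 14531584) (l 14505944)) (a (l 14599280) (l 14561920)))))) (a (b (b (a (l 14869536) (l 14808528)) (a (l 4) (l 14933568))) (a (l 4) (b (l 15056200) (l 15171496)))) (b (a (b (l 14746176) (l 14844176)) (b (l 14647216) (l 14721000))) (a (l 15198032) (b (l 14795488) (l 14869488))))))) (a (l 4) (b (a (b (a (l 4) (l 15324584)) (l 4)) (b (a (l 15241944)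 (l 14978072)) (a (l 15406984) (l 15122536)))) (a (l 4) (a (l 4) (b (b (l 15226576) (l 15286712)) (l 15507656))))))), by decide +kernel⟩

theorem c_pm_202 : CertB 0 536870912 0 536870912 923417968 42949674 3 eng mog cd0q2 cd4q0 pd2 true true false .pp 2 0 2
    ndB0q2 ndB4q0 pcB2 cut_pm_202 Ext.none :=
  certB1 (fam := true) (s1 := true) (s2 := false) (a := 2) (b := 0) (c := 2) (cn := .pp) (n1 := ndB0q2) (n2 := ndB4q0) (pc := pcB2) (cut := cut_pm_202) (xt := Ext.none) (P1 := 0) (W1 := 536870912) (P2 := 0) (W2 := 536870912) (P3 := 923417968) (W3 := 42949674) (N0 := 3) (En := eng) (mo := mog) (C1 := cd0q2) (C2 := cd4q0) (C3 := pd2)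
    rfl (fun _ => rfl) k0_pm_202

noncomputable def cut_pm_203 : Cut := Cut.of [[⟨3, 0, 0, 1449551462⟩]]

noncomputable def f_pm_203 : ℕ → ℕ → ℕ → ℕ → Bool := onCell 0 536870912 1610612736 536870912 923417968 42949674
    (rowB 3 eng mog cd0q2 cd4q0 pd3 1 true true false .up 2 0 3 (qsf 0 536870912 0 536870912 3) ndB0q2 ndB4q0 pcB3 cut_pm_203 Ext.none)

def k0_pm_203 : ∃ t, chk3 f_pm_203 t 1 1 1 = true :=
  ⟨(a (l 4) (b (l 4) (l 2))), by decide +kernel⟩

theorem c_pm_203 : CertB 0 536870912 0 536870912 923417968 42949674 3 eng mog cd0q2 cd4q0 pd3 true true false .up 2 0 3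
    ndB0q2 ndB4q0 pcB3 cut_pm_203 Ext.none :=
  certB1 (fam := true) (s1 := true) (s2 := false) (a := 2) (b := 0) (c := 3) (cn := .up) (n1 := ndB0q2) (n2 := ndB4q0) (pc := pcB3) (cut := cut_pm_203) (xt := Ext.none) (P1 := 0) (W1 := 536870912) (P2 := 0) (W2 := 536870912) (P3 := 923417968) (W3 := 42949674) (N0 := 3) (En := eng) (mo := mog) (C1 := cd0q2) (C2 := cd4q0) (C3 := pd3)
    rfl (fun _ => rfl) k0_pm_203

noncomputable def cut_pm_213 : Cut := Cut.of [[⟨3, 0, 0, 1449551462⟩]]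

noncomputable def f_pm_213 : ℕ → ℕ → ℕ → ℕ → Bool := onCell 0 536870912 536870912 536870912 923417968 42949674
    (rowB 3 eng mog cd0q2 cd4q1 pd3 0 true true false .pnn 2 1 3 (qsf 0 536870912 536870912 536870912 3) ndB0q2 ndB4q1 pcB3 cut_pm_213 Ext.none)

def k0_pm_213 : ∃ t, chk3 f_pm_213 t 1 1 1 = true :=
  ⟨(a (l 4) (b (l 4) (l 4))), by decide +kernel⟩

theorem c_pm_213 : CertB 0 536870912 536870912 536870912 923417968 42949674 3 eng mog cd0q2 cd4q1 pd3 true true false .pnn 2 1 3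
    ndB0q2 ndB4q1 pcB3 cut_pm_213 Ext.none :=
  certB0 (fam := true) (s1 := true) (s2 := false) (a := 2) (b := 1) (c := 3) (cn := .pnn) (n1 := ndB0q2) (n2 := ndB4q1) (pc := pcB3) (cut := cut_pm_213) (xt := Ext.none) (P1 := 0) (W1 := 536870912) (P2 := 536870912) (W2 := 536870912) (P3 := 923417968) (W3 := 42949674) (N0 := 3) (En := eng) (mo := mog) (C1 := cd0q2) (C2 := cd4q1) (C3 := pd3)
    rfl k0_pm_213

noncomputable def cut_mm_001 : Cut := Cut.of [[⟨3, 0, 0, 1449551462⟩]]

noncomputable def f_mm_001 : ℕ → ℕ → ℕ → ℕ → Bool := onCell 0 536870912 0 536870912 923417968 42949674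
    (rowB 3 eng mog cd0q0 cd4q0 pd1 0 true false false .up 0 0 1 (qsf 0 536870912 0 536870912 1) ndB0q0 ndB4q0 pcB1 cut_mm_001 Ext.none)

def k0_mm_001 : ∃ t, chk3 f_mm_001 t 1 1 1 = true :=
  ⟨(l 4), by decide +kernel⟩

theorem c_mm_001 : CertB 0 536870912 0 536870912 923417968 42949674 3 eng mog cd0q0 cd4q0 pd1 true false false .up 0 0 1
    ndB0q0 ndB4q0 pcB1 cut_mm_001 Ext.none :=
  certB0 (fam := true) (s1 := false) (s2 := false) (a := 0) (b := 0) (c := 1) (cn := .up) (n1 := ndB0q0) (n2 := ndB4q0) (pc := pcB1) (cut := cut_mm_001) (xt := Ext.none) (P1 := 0) (W1 := 536870912) (P2 := 0) (W2 := 536870912) (P3 := 923417968) (W3 := 42949674) (N0 := 3) (En := eng) (mo := mog) (C1 := cd0q0) (C2 := cd4q0) (C3 := pd1)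
    rfl k0_mm_001

noncomputable def cut_mm_011 : Cut := Cut.of [[⟨3, 0, 0, 1449551462⟩]]

noncomputable def f_mm_011 : ℕ → ℕ → ℕ → ℕ → Bool := onCell 0 536870912 536870912 536870912 923417968 42949674
    (rowB 3 eng mog cd0q0 cd4q1 pd1 0 true false false .pnn 0 1 1 (qsf 0 536870912 536870912 536870912 1) ndB0q0 ndB4q1 pcB1 cut_mm_011 Ext.none)

def k0_mm_011 : ∃ t, chk3 f_mm_011 t 1 1 1 = true :=
  ⟨(l 4), by decide +kernel⟩

theorem c_mm_011 : CertB 0 536870912 536870912 536870912 923417968 42949674 3 eng mog cd0q0 cd4q1 pd1 true false false .pnn 0 1 1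
    ndB0q0 ndB4q1 pcB1 cut_mm_011 Ext.none :=
  certB0 (fam := true) (s1 := false) (s2 := false) (a := 0) (b := 1) (c := 1) (cn := .pnn) (n1 := ndB0q0) (n2 := ndB4q1) (pc := pcB1) (cut := cut_mm_011) (xt := Ext.none) (P1 := 0) (W1 := 536870912) (P2 := 536870912) (W2 := 536870912) (P3 := 923417968) (W3 := 42949674) (N0 := 3) (En := eng) (mo := mog) (C1 := cd0q0) (C2 := cd4q1) (C3 := pd1)
    rfl k0_mm_011

noncomputable def cut_mm_012 : Cut := Cut.of [[⟨3, 0, 0, 1449551462⟩]]

noncomputable def f_mm_012 : ℕ → ℕ → ℕ → ℕ → Bool := onCell 0 536870912 536870912 536870912 923417968 42949674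
    (rowB 3 eng mog cd0q0 cd4q1 pd2 0 true false false .pnp 0 1 2 (qsf 0 536870912 536870912 536870912 2) ndB0q0 ndB4q1 pcB2 cut_mm_012 Ext.none)

def k0_mm_012 : ∃ t, chk3 f_mm_012 t 1 1 1 = true :=
  ⟨(l 4), by decide +kernel⟩

theorem c_mm_012 : CertB 0 536870912 536870912 536870912 923417968 42949674 3 eng mog cd0q0 cd4q1 pd2 true false false .pnp 0 1 2
    ndB0q0 ndB4q1 pcB2 cut_mm_012 Ext.none :=
  certB0 (fam := true) (s1 := false) (s2 := false) (a := 0) (b := 1) (c := 2) (cn := .pnp) (n1 := ndB0q0) (n2 := ndB4q1) (pc := pcB2) (cut := cut_mm_012) (xt := Ext.none) (P1 := 0) (W1 := 536870912) (P2 := 536870912) (W2 := 536870912) (P3 := 923417968) (W3 := 42949674) (N0 := 3) (En := eng) (mo := mog) (C1 := cd0q0) (C2 := cd4q1) (C3 := pd2)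
    rfl k0_mm_012

noncomputable def cut_mm_022 : Cut := Cut.of [[⟨3, 0, 0, 1449551462⟩]]

noncomputable def f_mm_022 : ℕ → ℕ → ℕ → ℕ → Bool := onCell 0 536870912 1073741824 536870912 923417968 42949674
    (rowB 3 eng mog cd0q0 cd4q2 pd2 0 true false false .pp 0 2 2 (qsf 0 536870912 1073741824 536870912 2) ndB0q0 ndB4q2 pcB2 cut_mm_022 Ext.none)

def k0_mm_022 : ∃ t, chk3 f_mm_022 t 1 1 1 = true :=
  ⟨(l 4), by decide +kernel⟩

theorem c_mm_022 : CertB 0 536870912 1073741824 536870912 923417968 42949674 3 eng mog cd0q0 cd4q2 pd2 true false false .pp 0 2 2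
    ndB0q0 ndB4q2 pcB2 cut_mm_022 Ext.none :=
  certB0 (fam := true) (s1 := false) (s2 := false) (a := 0) (b := 2) (c := 2) (cn := .pp) (n1 := ndB0q0) (n2 := ndB4q2) (pc := pcB2) (cut := cut_mm_022) (xt := Ext.none) (P1 := 0) (W1 := 536870912) (P2 := 1073741824) (W2 := 536870912) (P3 := 923417968) (W3 := 42949674) (N0 := 3) (En := eng) (mo := mog) (C1 := cd0q0) (C2 := cd4q2) (C3 := pd2)
    rfl k0_mm_022

noncomputable def cut_mm_023 : Cut := Cut.of [[⟨3, 0, 0, 1449551462⟩]]

noncomputable def f_mm_023 : ℕ → ℕ → ℕ → ℕ → Bool := onCell 0 536870912 1073741824 536870912 923417968 42949674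
    (rowB 3 eng mog cd0q0 cd4q2 pd3 0 true false false .up 0 2 3 (qsf 0 536870912 1073741824 536870912 3) ndB0q0 ndB4q2 pcB3 cut_mm_023 Ext.none)

def k0_mm_023 : ∃ t, chk3 f_mm_023 t 1 1 1 = true :=
  ⟨(l 4), by decide +kernel⟩

theorem c_mm_023 : CertB 0 536870912 1073741824 536870912 923417968 42949674 3 eng mog cd0q0 cd4q2 pd3 true false false .up 0 2 3
    ndB0q0 ndB4q2 pcB3 cut_mm_023 Ext.none :=
  certB0 (fam := true) (s1 := false) (s2 := false) (a := 0) (b := 2) (c := 3) (cn := .up) (n1 := ndB0q0) (n2 := ndB4q2) (pc := pcB3) (cut := cut_mm_023) (xt := Ext.none) (P1 := 0) (W1 := 536870912) (P2 := 1073741824) (W2 := 536870912) (P3 := 923417968) (W3 := 42949674) (N0 := 3) (En := eng) (mo := mog) (C1 := cd0q0) (C2 := cd4q2) (C3 := pd3)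
    rfl k0_mm_023

noncomputable def cut_mm_033 : Cut := Cut.of [[⟨3, 0, 0, 1449551462⟩]]

noncomputable def f_mm_033 : ℕ → ℕ → ℕ → ℕ → Bool := onCell 0 536870912 0 1230186008 923417968 42949674
    (rowB 3 eng mog cd0q0 cd4q3 pd3 0 true false false .pnn 0 3 3 (qsf 0 536870912 0 1230186008 3) ndB0q0 ndB4q3 pcB3 cut_mm_033 Ext.none)

def k0_mm_033 : ∃ t, chk3 f_mm_033 t 1 1 1 = true :=
  ⟨(l 4), by decide +kernel⟩

theorem c_mm_033 : CertB 0 536870912 0 1230186008 923417968 42949674 3 eng mog cd0q0 cd4q3 pd3 true false false .pnn 0 3 3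
    ndB0q0 ndB4q3 pcB3 cut_mm_033 Ext.none :=
  certB0 (fam := true) (s1 := false) (s2 := false) (a := 0) (b := 3) (c := 3) (cn := .pnn) (n1 := ndB0q0) (n2 := ndB4q3) (pc := pcB3) (cut := cut_mm_033) (xt := Ext.none) (P1 := 0) (W1 := 536870912) (P2 := 0) (W2 := 1230186008) (P3 := 923417968) (W3 := 42949674) (N0 := 3) (En := eng) (mo := mog) (C1 := cd0q0) (C2 := cd4q3) (C3 := pd3)
    rfl k0_mm_033

noncomputable def cut_mm_101 : Cut := Cut.of [[⟨3, 0, 0, 1449551462⟩]]

noncomputable def f_mm_101 : ℕ → ℕ → ℕ → ℕ → Bool := onCell 536870912 536870912 0 536870912 923417968 42949674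
    (rowB 3 eng mog cd0q1 cd4q0 pd1 0 true false false .npn 1 0 1 (qsf 536870912 536870912 0 536870912 1) ndB0q1 ndB4q0 pcB1 cut_mm_101 Ext.none)

def k0_mm_101 : ∃ t, chk3 f_mm_101 t 1 1 1 = true :=
  ⟨(l 4), by decide +kernel⟩

theorem c_mm_101 : CertB 536870912 536870912 0 536870912 923417968 42949674 3 eng mog cd0q1 cd4q0 pd1 true false false .npn 1 0 1
    ndB0q1 ndB4q0 pcB1 cut_mm_101 Ext.none :=
  certB0 (fam := true) (s1 := false) (s2 := false) (a := 1) (b := 0) (c := 1) (cn := .npn) (n1 := ndB0q1) (n2 := ndB4q0) (pc := pcB1) (cut := cut_mm_101) (xt := Ext.none) (P1 := 536870912) (W1 := 536870912) (P2 := 0) (W2 := 536870912) (P3 := 923417968) (W3 := 42949674) (N0 := 3) (En := eng) (mo := mog) (C1 := cd0q1) (C2 := cd4q0) (C3 := pd1)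
    rfl k0_mm_101

noncomputable def cut_mm_102 : Cut := Cut.of [[⟨3, 0, 0, 1449551462⟩]]

noncomputable def f_mm_102 : ℕ → ℕ → ℕ → ℕ → Bool := onCell 536870912 536870912 0 536870912 923417968 42949674
    (rowB 3 eng mog cd0q1 cd4q0 pd2 0 true false false .npp 1 0 2 (qsf 536870912 536870912 0 536870912 2) ndB0q1 ndB4q0 pcB2 cut_mm_102 Ext.none)

def k0_mm_102 : ∃ t, chk3 f_mm_102 t 1 1 1 = true :=
  ⟨(l 4), by decide +kernel⟩

theorem c_mm_102 : CertB 536870912 536870912 0 536870912 923417968 42949674 3 eng mog cd0q1 cd4q0 pd2 true false false .npp 1 0 2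
    ndB0q1 ndB4q0 pcB2 cut_mm_102 Ext.none :=
  certB0 (fam := true) (s1 := false) (s2 := false) (a := 1) (b := 0) (c := 2) (cn := .npp) (n1 := ndB0q1) (n2 := ndB4q0) (pc := pcB2) (cut := cut_mm_102) (xt := Ext.none) (P1 := 536870912) (W1 := 536870912) (P2 := 0) (W2 := 536870912) (P3 := 923417968) (W3 := 42949674) (N0 := 3) (En := eng) (mo := mog) (C1 := cd0q1) (C2 := cd4q0) (C3 := pd2)
    rfl k0_mm_102

noncomputable def cut_mm_112 : Cut := Cut.of [[⟨3, 0, 0, 1449551462⟩]]

noncomputable def f_mm_112 : ℕ → ℕ → ℕ → ℕ → Bool := onCell 536870912 536870912 536870912 536870912 923417968 42949674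
    (rowB 3 eng mog cd0q1 cd4q1 pd2 0 true false false .dn 1 1 2 (qsf 536870912 536870912 536870912 536870912 2) ndB0q1 ndB4q1 pcB2 cut_mm_112 Ext.none)

def k0_mm_112 : ∃ t, chk3 f_mm_112 t 1 1 1 = true :=
  ⟨(l 4), by decide +kernel⟩

theorem c_mm_112 : CertB 536870912 536870912 536870912 536870912 923417968 42949674 3 eng mog cd0q1 cd4q1 pd2 true false false .dn 1 1 2
    ndB0q1 ndB4q1 pcB2 cut_mm_112 Ext.none :=
  certB0 (fam := true) (s1 := false) (s2 := false) (a := 1) (b := 1) (c := 2) (cn := .dn) (n1 := ndB0q1) (n2 := ndB4q1) (pc := pcB2) (cut := cut_mm_112) (xt := Ext.none) (P1 := 536870912) (W1 := 536870912) (P2 := 536870912) (W2 := 536870912) (P3 := 923417968) (W3 := 42949674) (N0 := 3) (En := eng) (mo := mog) (C1 := cd0q1) (C2 := cd4q1) (C3 := pd2)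
    rfl k0_mm_112

noncomputable def cut_mm_113 : Cut := Cut.of [[⟨3, 0, 0, 1449551462⟩]]

noncomputable def f_mm_113 : ℕ → ℕ → ℕ → ℕ → Bool := onCell 536870912 536870912 536870912 536870912 923417968 42949674
    (rowB 3 eng mog cd0q1 cd4q1 pd3 0 true false false .nn 1 1 3 (qsf 536870912 536870912 536870912 536870912 3) ndB0q1 ndB4q1 pcB3 cut_mm_113 Ext.none)

def k0_mm_113 : ∃ t, chk3 f_mm_113 t 1 1 1 = true :=
  ⟨(l 4), by decide +kernel⟩

theorem c_mm_113 : CertB 536870912 536870912 536870912 536870912 923417968 42949674 3 eng mog cd0q1 cd4q1 pd3 true false false .nn 1 1 3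
    ndB0q1 ndB4q1 pcB3 cut_mm_113 Ext.none :=
  certB0 (fam := true) (s1 := false) (s2 := false) (a := 1) (b := 1) (c := 3) (cn := .nn) (n1 := ndB0q1) (n2 := ndB4q1) (pc := pcB3) (cut := cut_mm_113) (xt := Ext.none) (P1 := 536870912) (W1 := 536870912) (P2 := 536870912) (W2 := 536870912) (P3 := 923417968) (W3 := 42949674) (N0 := 3) (En := eng) (mo := mog) (C1 := cd0q1) (C2 := cd4q1) (C3 := pd3)
    rfl k0_mm_113

noncomputable def cut_mm_123 : Cut := Cut.of [[⟨3, 0, 0, 1449551462⟩]]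

noncomputable def f_mm_123 : ℕ → ℕ → ℕ → ℕ → Bool := onCell 536870912 536870912 1073741824 536870912 923417968 42949674
    (rowB 3 eng mog cd0q1 cd4q2 pd3 0 true false false .npn 1 2 3 (qsf 536870912 536870912 1073741824 536870912 3) ndB0q1 ndB4q2 pcB3 cut_mm_123 Ext.none)

def k0_mm_123 : ∃ t, chk3 f_mm_123 t 1 1 1 = true :=
  ⟨(l 4), by decide +kernel⟩

theorem c_mm_123 : CertB 536870912 536870912 1073741824 536870912 923417968 42949674 3 eng mog cd0q1 cd4q2 pd3 true false false .npn 1 2 3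
    ndB0q1 ndB4q2 pcB3 cut_mm_123 Ext.none :=
  certB0 (fam := true) (s1 := false) (s2 := false) (a := 1) (b := 2) (c := 3) (cn := .npn) (n1 := ndB0q1) (n2 := ndB4q2) (pc := pcB3) (cut := cut_mm_123) (xt := Ext.none) (P1 := 536870912) (W1 := 536870912) (P2 := 1073741824) (W2 := 536870912) (P3 := 923417968) (W3 := 42949674) (N0 := 3) (En := eng) (mo := mog) (C1 := cd0q1) (C2 := cd4q2) (C3 := pd3)
    rfl k0_mm_123

noncomputable def cut_mm_133 : Cut := Cut.of [[⟨3, 0, 0, 1449551462⟩]]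

noncomputable def f_mm_133 : ℕ → ℕ → ℕ → ℕ → Bool := onCell 536870912 536870912 0 1230186008 923417968 42949674
    (rowB 3 eng mog cd0q1 cd4q3 pd3 0 true false false .dn 1 3 3 (qsf 536870912 536870912 0 1230186008 3) ndB0q1 ndB4q3 pcB3 cut_mm_133 Ext.none)

def k0_mm_133 : ∃ t, chk3 f_mm_133 t 1 1 1 = true :=
  ⟨(l 4), by decide +kernel⟩

theorem c_mm_133 : CertB 536870912 536870912 0 1230186008 923417968 42949674 3 eng mog cd0q1 cd4q3 pd3 true false false .dn 1 3 3
    ndB0q1 ndB4q3 pcB3 cut_mm_133 Ext.none :=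
  certB0 (fam := true) (s1 := false) (s2 := false) (a := 1) (b := 3) (c := 3) (cn := .dn) (n1 := ndB0q1) (n2 := ndB4q3) (pc := pcB3) (cut := cut_mm_133) (xt := Ext.none) (P1 := 536870912) (W1 := 536870912) (P2 := 0) (W2 := 1230186008) (P3 := 923417968) (W3 := 42949674) (N0 := 3) (En := eng) (mo := mog) (C1 := cd0q1) (C2 := cd4q3) (C3 := pd3)
    rfl k0_mm_133

noncomputable def cut_mm_202 : Cut := Cut.of [[⟨3, 0, 0, 1449551462⟩]]

noncomputable def f_mm_202 : ℕ → ℕ → ℕ → ℕ → Bool := onCell 0 536870912 0 536870912 923417968 42949674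
    (rowB 3 eng mog cd0q2 cd4q0 pd2 0 true false false .pp 2 0 2 (qsf 0 536870912 0 536870912 2) ndB0q2 ndB4q0 pcB2 cut_mm_202 Ext.none)

def k0_mm_202 : ∃ t, chk3 f_mm_202 t 1 1 1 = true :=
  ⟨(l 4), by decide +kernel⟩

theorem c_mm_202 : CertB 0 536870912 0 536870912 923417968 42949674 3 eng mog cd0q2 cd4q0 pd2 true false false .pp 2 0 2
    ndB0q2 ndB4q0 pcB2 cut_mm_202 Ext.none :=
  certB0 (fam := true) (s1 := false) (s2 := false) (a := 2) (b := 0) (c := 2) (cn := .pp) (n1 := ndB0q2) (n2 := ndB4q0) (pc := pcB2) (cut := cut_mm_202) (xt := Ext.none) (P1 := 0) (W1 := 536870912) (P2 := 0) (W2 := 536870912) (P3 := 923417968) (W3 := 42949674) (N0 := 3) (En := eng) (mo := mog) (C1 := cd0q2) (C2 := cd4q0) (C3 := pd2)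
    rfl k0_mm_202

noncomputable def cut_mm_203 : Cut := Cut.of [[⟨3, 0, 0, 1449551462⟩]]

noncomputable def f_mm_203 : ℕ → ℕ → ℕ → ℕ → Bool := onCell 0 536870912 0 536870912 923417968 42949674
    (rowB 3 eng mog cd0q2 cd4q0 pd3 0 true false false .up 2 0 3 (qsf 0 536870912 0 536870912 3) ndB0q2 ndB4q0 pcB3 cut_mm_203 Ext.none)

def k0_mm_203 : ∃ t, chk3 f_mm_203 t 1 1 1 = true :=
  ⟨(l 4), by decide +kernel⟩

theorem c_mm_203 : CertB 0 536870912 0 536870912 923417968 42949674 3 eng mog cd0q2 cd4q0 pd3 true false false .up 2 0 3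
    ndB0q2 ndB4q0 pcB3 cut_mm_203 Ext.none :=
  certB0 (fam := true) (s1 := false) (s2 := false) (a := 2) (b := 0) (c := 3) (cn := .up) (n1 := ndB0q2) (n2 := ndB4q0) (pc := pcB3) (cut := cut_mm_203) (xt := Ext.none) (P1 := 0) (W1 := 536870912) (P2 := 0) (W2 := 536870912) (P3 := 923417968) (W3 := 42949674) (N0 := 3) (En := eng) (mo := mog) (C1 := cd0q2) (C2 := cd4q0) (C3 := pd3)
    rfl k0_mm_203

noncomputable def cut_mm_213 : Cut := Cut.of [[⟨3, 0, 0, 1449551462⟩]]

noncomputable def f_mm_213 : ℕ → ℕ → ℕ → ℕ → Bool := onCell 0 536870912 536870912 536870912 923417968 42949674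
    (rowB 3 eng mog cd0q2 cd4q1 pd3 0 true false false .pnn 2 1 3 (qsf 0 536870912 536870912 536870912 3) ndB0q2 ndB4q1 pcB3 cut_mm_213 Ext.none)

def k0_mm_213 : ∃ t, chk3 f_mm_213 t 1 1 1 = true :=
  ⟨(l 4), by decide +kernel⟩

theorem c_mm_213 : CertB 0 536870912 536870912 536870912 923417968 42949674 3 eng mog cd0q2 cd4q1 pd3 true false false .pnn 2 1 3
    ndB0q2 ndB4q1 pcB3 cut_mm_213 Ext.none :=
  certB0 (fam := true) (s1 := false) (s2 := false) (a := 2) (b := 1) (c := 3) (cn := .pnn) (n1 := ndB0q2) (n2 := ndB4q1) (pc := pcB3) (cut := cut_mm_213) (xt := Ext.none) (P1 := 0) (W1 := 536870912) (P2 := 536870912) (W2 := 536870912) (P3 := 923417968) (W3 := 42949674) (N0 := 3) (En := eng) (mo := mog) (C1 := cd0q2) (C2 := cd4q1) (C3 := pd3)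
    rfl k0_mm_213

end Pool.Agent.Strip051.G.I8600_9000.Tab.C.BA04

namespace Pool.Agent.Strip051.G.I8600_9000.Tab.C.BA11

open Pool.Agent.Strip051.PB Pool.Agent.Strip051.PB.T
open Pool.Agent.Strip051.G.I8600_9000.Tab

noncomputable def f_pp_001 : ℕ → ℕ → ℕ → ℕ → Bool := onCell 0 536870912 0 536870912 923417968 42949674
    (rowB 3 eng mog cd1q0 cd1q0 pd1 0 true true true .up 0 0 1 (qsf 0 536870912 0 536870912 1) ndB1q0 ndB1q0 pcB1 Cut.none Ext.none)

def k0_pp_001 : ∃ t, chk3 f_pp_001 t 1 1 1 = true :=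
  ⟨(l 4), by decide +kernel⟩

theorem c_pp_001 : CertB 0 536870912 0 536870912 923417968 42949674 3 eng mog cd1q0 cd1q0 pd1 true true true .up 0 0 1
    ndB1q0 ndB1q0 pcB1 Cut.none Ext.none :=
  certB0 (fam := true) (s1 := true) (s2 := true) (a := 0) (b := 0) (c := 1) (cn := .up) (n1 := ndB1q0) (n2 := ndB1q0) (pc := pcB1) (cut := Cut.none) (xt := Ext.none) (P1 := 0) (W1 := 536870912) (P2 := 0) (W2 := 536870912) (P3 := 923417968) (W3 := 42949674) (N0 := 3) (En := eng) (mo := mog) (C1 := cd1q0) (C2 := cd1q0) (C3 := pd1)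
    rfl k0_pp_001

noncomputable def f_pp_011 : ℕ → ℕ → ℕ → ℕ → Bool := onCell 0 536870912 536870912 536870912 923417968 42949674
    (rowB 3 eng mog cd1q0 cd1q1 pd1 0 true true true .pnn 0 1 1 (qsf 0 536870912 536870912 536870912 1) ndB1q0 ndB1q1 pcB1 Cut.none Ext.none)

def k0_pp_011 : ∃ t, chk3 f_pp_011 t 1 1 1 = true :=
  ⟨(l 4), by decide +kernel⟩

theorem c_pp_011 : CertB 0 536870912 536870912 536870912 923417968 42949674 3 eng mog cd1q0 cd1q1 pd1 true true true .pnn 0 1 1
    ndB1q0 ndB1q1 pcB1 Cut.none Ext.none :=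
  certB0 (fam := true) (s1 := true) (s2 := true) (a := 0) (b := 1) (c := 1) (cn := .pnn) (n1 := ndB1q0) (n2 := ndB1q1) (pc := pcB1) (cut := Cut.none) (xt := Ext.none) (P1 := 0) (W1 := 536870912) (P2 := 536870912) (W2 := 536870912) (P3 := 923417968) (W3 := 42949674) (N0 := 3) (En := eng) (mo := mog) (C1 := cd1q0) (C2 := cd1q1) (C3 := pd1)
    rfl k0_pp_011

noncomputable def f_pp_012 : ℕ → ℕ → ℕ → ℕ → Bool := onCell 0 536870912 536870912 536870912 923417968 42949674
    (rowB 3 eng mog cd1q0 cd1q1 pd2 0 true true true .pnp 0 1 2 (qsf 0 536870912 536870912 536870912 2) ndB1q0 ndB1q1 pcB2 Cut.none Ext.none)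

def k0_pp_012 : ∃ t, chk3 f_pp_012 t 1 1 1 = true :=
  ⟨(l 4), by decide +kernel⟩

theorem c_pp_012 : CertB 0 536870912 536870912 536870912 923417968 42949674 3 eng mog cd1q0 cd1q1 pd2 true true true .pnp 0 1 2
    ndB1q0 ndB1q1 pcB2 Cut.none Ext.none :=
  certB0 (fam := true) (s1 := true) (s2 := true) (a := 0) (b := 1) (c := 2) (cn := .pnp) (n1 := ndB1q0) (n2 := ndB1q1) (pc := pcB2) (cut := Cut.none) (xt := Ext.none) (P1 := 0) (W1 := 536870912) (P2 := 536870912) (W2 := 536870912) (P3 := 923417968) (W3 := 42949674) (N0 := 3) (En := eng) (mo := mog) (C1 := cd1q0) (C2 := cd1q1) (C3 := pd2)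
    rfl k0_pp_012

noncomputable def cut_pp_022_a : Cut := Cut.of [[⟨0, 0, 0, 67108864⟩, ⟨1, 1, 0, 67108864⟩, ⟨2, 1, 0, 67108864⟩]]

noncomputable def f_pp_022_a : ℕ → ℕ → ℕ → ℕ → Bool := onCell 0 536870912 0 536870912 923417968 42949674
    (rowB 3 eng mog cd1q0 cd1q2a pd2 0 true true true .pp 0 2 2 (qsf 0 536870912 0 536870912 2) ndB1q0 ndB1q2a pcB2 cut_pp_022_a Ext.none)

def k0_pp_022_a : ∃ t, chk3 f_pp_022_a t 2 2 1 = true :=
  ⟨(a (a (b (a (b (a (l 16291984) (l 16370960)) (a (c (l 16348832) (l 16343424)) (l 16378648))) (b (a (l 16403568) (l 16432472)) (a (l 16406992) (l 16431912)))) (a (b (a (b (l 16340936) (c (l 16379576) (l 16374296))) (b (l 16391680) (l 16405120))) (a (b (c (l 16377328) (l 16393104)) (c (l 16421152) (l 16416096))) (b (l 16422608) (l 16444552)))) (b (a (l 16381280) (l 16444776)) (a (b (l 16445152) (l 16465912)) (b (l 16464080) (l 16483472)))))) (b (a (b (l 16469112) (l 16462864)) (b (l 16505120) (l 16493512))) (a (b (a (l 16463096)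 (l 16478784)) (a (l 16447472) (l 16459520))) (b (l 16497128) (a (l 16490560) (l 4)))))) (a (b (a (b (l 16529120) (l 16514352)) (b (l 16546344) (l 16537496))) (a (b (l 16519112) (l 4)) (l 4))) (b (a (b (l 16569136) (l 4)) (l 4)) (l 4)))), by decide +kernel⟩

def k1_pp_022_a : ∃ t, chk3 f_pp_022_a t 2 3 1 = true :=
  ⟨(a (b (a (a (b (c (a (b (l 16406544) (a (l 16473056) (l 16487600))) (b (l 16474944) (l 16506856))) (a (b (l 16422664) (a (l 16469056) (l 16482424))) (b (l 16467736) (l 16499832)))) (a (b (a (b (l 16498240) (l 16518040)) (b (l 16512352) (l 16532344))) (a (b (l 16518112) (c (l 16562616) (l 16560136))) (b (l 16553664) (l 16576304)))) (b (c (b (l 16534144) (l 16554240)) (l 16495560)) (a (b (l 16566616) (l 16589560)) (b (l 16578040) (l 16601232)))))) (b (a (b (l 16491808) (l 16502304)) (b (l 16508216) (l 16516952))) (a (b (b (l 16550520) (l 16570624)) (a (b (l 16588048) (l 16610240)) (l 16560616))) (b (a (l 16569264) (l 16570112)) (l 4))))) (b (a (a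 (b (l 16519960) (l 16543928)) (b (l 16526816) (l 4))) (l 4)) (l 4))) (a (b (a (a (b (a (b (c (l 16585824) (l 16583856)) (b (l 16603112) (l 16594728))) (b (l 16600240) (c (l 16626848) (l 16624016)))) (b (a (a (l 6) (l 16618496)) (b (l 16645064) (l 16658552))) (a (l 6) (b (l 16651344) (l 6))))) (b (b (a (l 16613904) (l 16625776)) (a (l 16618640) (l 16628224))) (a (b (c (l 16646816) (l 16643032)) (a (l 16668656) (l 16670352))) (b (l 16649256) (l 4))))) (b (a (b (a (l 16630704) (l 4)) (l 4)) (l 4)) (l 4))) (a (a (l 6) (a (a (l 6) (l 4)) (l 4))) (l 4))) (l 4))) (l 4)), by decide +kernel⟩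

def k2_pp_022_a : ∃ t, chk3 f_pp_022_a t 3 1 1 = true :=
  ⟨(l 4), by decide +kernel⟩

theorem s3_pp_022_a : ∃ t, chk3 f_pp_022_a t 2 1 1 = true := ex3_b k0_pp_022_a k1_pp_022_a

theorem s4_pp_022_a : ∃ t, chk3 f_pp_022_a t 1 1 1 = true := ex3_a s3_pp_022_a k2_pp_022_a

theorem c_pp_022_a : CertB 0 536870912 0 536870912 923417968 42949674 3 eng mog cd1q0 cd1q2a pd2 true true true .pp 0 2 2
    ndB1q0 ndB1q2a pcB2 cut_pp_022_a Ext.none :=
  certB0 (fam := true) (s1 := true) (s2 := true) (a := 0) (b := 2) (c := 2) (cn := .pp) (n1 := ndB1q0) (n2 := ndB1q2a) (pc := pcB2) (cut := cut_pp_022_a) (xt := Ext.none) (P1 := 0) (W1 := 536870912) (P2 := 0) (W2 := 536870912) (P3 := 923417968) (W3 := 42949674) (N0 := 3) (En := eng) (mo := mog) (C1 := cd1q0) (C2 := cd1q2a) (C3 := pd2)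
    rfl s4_pp_022_a

noncomputable def cut_pp_022_b : Cut := Cut.of [[⟨0, 0, 0, 67108864⟩, ⟨1, 1, 0, 67108864⟩, ⟨2, 1, 0, 67108864⟩]]

noncomputable def f_pp_022_b : ℕ → ℕ → ℕ → ℕ → Bool := onCell 0 536870912 1073741824 536870912 923417968 42949674
    (rowB 3 eng mog cd1q0 cd1q2b pd2 1 true true true .pp 0 2 2 (qsf 0 536870912 1239849684 370763052 2) ndB1q0 ndB1q2b pcB2 cut_pp_022_b Ext.none)

def k0_pp_022_b : ∃ t, chk3 f_pp_022_b t 1 1 1 = true :=
  ⟨(b (b (l 1) (a (a (b (a (a (b (b (l 1) (l 165925680055)) (b (l 16276312) (l 16315968))) (b (l 1) (l 186863777527))) (l 1)) (a (b (a (b (l 16311696) (l 16284792)) (l 16334624)) (a (l 16219816) (l 16313656))) (b (a (l 16539672) (l 1)) (a (l 16472264) (l 16581296))))) (l 1)) (l 1))) (b (a (a (b (b (a (a (l 16174712) (l 16284952)) (a (l 16355632) (l 16511096))) (a (l 16008200) (l 16372352))) (a (b (l 16011112) (l 15988816)) (b (l 16201160) (l 16173376)))) (b (a (b (l 328598017255) (l 172368669959)) (l 1)) (a (b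 (l 16500680) (l 16407176)) (b (l 416644841111) (a (l 16568424) (l 330745775863)))))) (l 1)) (a (b (a (a (b (l 15900248) (l 15809048)) (b (l 16081896) (l 16019032))) (a (b (l 16217312) (l 4)) (l 4))) (a (a (b (l 15723160) (l 15647200)) (l 4)) (l 4))) (l 4)))), by decide +kernel⟩

theorem c_pp_022_b : CertB 0 536870912 1239849684 370763052 923417968 42949674 3 eng mog cd1q0 cd1q2b pd2 true true true .pp 0 2 2
    ndB1q0 ndB1q2b pcB2 cut_pp_022_b Ext.none :=
  certB1 (fam := true) (s1 := true) (s2 := true) (a := 0) (b := 2) (c := 2) (cn := .pp) (n1 := ndB1q0) (n2 := ndB1q2b) (pc := pcB2) (cut := cut_pp_022_b) (xt := Ext.none) (P1 := 0) (W1 := 536870912) (P2 := 1239849684) (W2 := 370763052) (P3 := 923417968) (W3 := 42949674) (N0 := 3) (En := eng) (mo := mog) (C1 := cd1q0) (C2 := cd1q2b) (C3 := pd2)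
    rfl (fun _ => rfl) k0_pp_022_b

noncomputable def f_pp_023_a : ℕ → ℕ → ℕ → ℕ → Bool := onCell 1610612736 536870912 0 536870912 923417968 42949674
    (rowB 3 eng mog cd1q0 cd1q2a pd3 2 true true true .up 0 2 3 (qsf 0 536870912 0 536870912 3) ndB1q0 ndB1q2a pcB3 Cut.none Ext.none)

def k0_pp_023_a : ∃ t, chk3 f_pp_023_a t 1 1 1 = true :=
  ⟨(l 4), by decide +kernel⟩

theorem c_pp_023_a : CertB 0 536870912 0 536870912 923417968 42949674 3 eng mog cd1q0 cd1q2a pd3 true true true .up 0 2 3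
    ndB1q0 ndB1q2a pcB3 Cut.none Ext.none :=
  certB2 (fam := true) (s1 := true) (s2 := true) (a := 0) (b := 2) (c := 3) (cn := .up) (n1 := ndB1q0) (n2 := ndB1q2a) (pc := pcB3) (cut := Cut.none) (xt := Ext.none) (P1 := 0) (W1 := 536870912) (P2 := 0) (W2 := 536870912) (P3 := 923417968) (W3 := 42949674) (N0 := 3) (En := eng) (mo := mog) (C1 := cd1q0) (C2 := cd1q2a) (C3 := pd3)
    rfl (fun _ => rfl) k0_pp_023_a

noncomputable def f_pp_023_b : ℕ → ℕ → ℕ → ℕ → Bool := onCell 1610612736 536870912 1239849684 370763052 923417968 42949674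
    (rowB 3 eng mog cd1q0 cd1q2b pd3 2 true true true .up 0 2 3 (qsf 0 536870912 1239849684 370763052 3) ndB1q0 ndB1q2b pcB3 Cut.none Ext.none)

def k0_pp_023_b : ∃ t, chk3 f_pp_023_b t 1 1 1 = true :=
  ⟨(a (a (l 4) (l 4)) (l 4)), by decide +kernel⟩

theorem c_pp_023_b : CertB 0 536870912 1239849684 370763052 923417968 42949674 3 eng mog cd1q0 cd1q2b pd3 true true true .up 0 2 3
    ndB1q0 ndB1q2b pcB3 Cut.none Ext.none :=
  certB2 (fam := true) (s1 := true) (s2 := true) (a := 0) (b := 2) (c := 3) (cn := .up) (n1 := ndB1q0) (n2 := ndB1q2b) (pc := pcB3) (cut := Cut.none) (xt := Ext.none) (P1 := 0) (W1 := 536870912) (P2 := 1239849684) (W2 := 370763052) (P3 := 923417968) (W3 := 42949674) (N0 := 3) (En := eng) (mo := mog) (C1 := cd1q0) (C2 := cd1q2b) (C3 := pd3)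
    rfl (fun _ => rfl) k0_pp_023_b

noncomputable def f_pp_033 : ℕ → ℕ → ℕ → ℕ → Bool := onCell 0 536870912 1610612736 536870912 923417968 42949674
    (rowB 3 eng mog cd1q0 cd1q3 pd3 1 true true true .pnn 0 3 3 (qsf 0 536870912 1610612736 536870912 3) ndB1q0 ndB1q3 pcB3 Cut.none Ext.none)

def k0_pp_033 : ∃ t, chk3 f_pp_033 t 1 1 1 = true :=
  ⟨(b (b (a (l 4) (l 1)) (l 4)) (l 4)), by decide +kernel⟩

theorem c_pp_033 : CertB 0 536870912 1610612736 536870912 923417968 42949674 3 eng mog cd1q0 cd1q3 pd3 true true true .pnn 0 3 3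
    ndB1q0 ndB1q3 pcB3 Cut.none Ext.none :=
  certB1 (fam := true) (s1 := true) (s2 := true) (a := 0) (b := 3) (c := 3) (cn := .pnn) (n1 := ndB1q0) (n2 := ndB1q3) (pc := pcB3) (cut := Cut.none) (xt := Ext.none) (P1 := 0) (W1 := 536870912) (P2 := 1610612736) (W2 := 536870912) (P3 := 923417968) (W3 := 42949674) (N0 := 3) (En := eng) (mo := mog) (C1 := cd1q0) (C2 := cd1q3) (C3 := pd3)
    rfl (fun _ => rfl) k0_pp_033

noncomputable def f_pp_101 : ℕ → ℕ → ℕ → ℕ → Bool := onCell 536870912 536870912 0 536870912 923417968 42949674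
    (rowB 3 eng mog cd1q1 cd1q0 pd1 0 true true true .npn 1 0 1 (qsf 536870912 536870912 0 536870912 1) ndB1q1 ndB1q0 pcB1 Cut.none Ext.none)

def k0_pp_101 : ∃ t, chk3 f_pp_101 t 1 1 1 = true :=
  ⟨(l 4), by decide +kernel⟩

theorem c_pp_101 : CertB 536870912 536870912 0 536870912 923417968 42949674 3 eng mog cd1q1 cd1q0 pd1 true true true .npn 1 0 1
    ndB1q1 ndB1q0 pcB1 Cut.none Ext.none :=
  certB0 (fam := true) (s1 := true) (s2 := true) (a := 1) (b := 0) (c := 1) (cn := .npn) (n1 := ndB1q1) (n2 := ndB1q0) (pc := pcB1) (cut := Cut.none) (xt := Ext.none) (P1 := 536870912) (W1 := 536870912) (P2 := 0) (W2 := 536870912) (P3 := 923417968) (W3 := 42949674) (N0 := 3) (En := eng) (mo := mog) (C1 := cd1q1) (C2 := cd1q0) (C3 := pd1)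
    rfl k0_pp_101

noncomputable def f_pp_102 : ℕ → ℕ → ℕ → ℕ → Bool := onCell 536870912 536870912 0 536870912 923417968 42949674
    (rowB 3 eng mog cd1q1 cd1q0 pd2 0 true true true .npp 1 0 2 (qsf 536870912 536870912 0 536870912 2) ndB1q1 ndB1q0 pcB2 Cut.none Ext.none)

def k0_pp_102 : ∃ t, chk3 f_pp_102 t 1 1 1 = true :=
  ⟨(l 4), by decide +kernel⟩

theorem c_pp_102 : CertB 536870912 536870912 0 536870912 923417968 42949674 3 eng mog cd1q1 cd1q0 pd2 true true true .npp 1 0 2
    ndB1q1 ndB1q0 pcB2 Cut.none Ext.none :=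
  certB0 (fam := true) (s1 := true) (s2 := true) (a := 1) (b := 0) (c := 2) (cn := .npp) (n1 := ndB1q1) (n2 := ndB1q0) (pc := pcB2) (cut := Cut.none) (xt := Ext.none) (P1 := 536870912) (W1 := 536870912) (P2 := 0) (W2 := 536870912) (P3 := 923417968) (W3 := 42949674) (N0 := 3) (En := eng) (mo := mog) (C1 := cd1q1) (C2 := cd1q0) (C3 := pd2)
    rfl k0_pp_102

noncomputable def f_pp_112 : ℕ → ℕ → ℕ → ℕ → Bool := onCell 536870912 536870912 536870912 536870912 923417968 42949674
    (rowB 3 eng mog cd1q1 cd1q1 pd2 0 true true true .dn 1 1 2 (qsf 536870912 536870912 536870912 536870912 2) ndB1q1 ndB1q1 pcB2 Cut.none Ext.none)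

def k0_pp_112 : ∃ t, chk3 f_pp_112 t 1 1 1 = true :=
  ⟨(l 4), by decide +kernel⟩

theorem c_pp_112 : CertB 536870912 536870912 536870912 536870912 923417968 42949674 3 eng mog cd1q1 cd1q1 pd2 true true true .dn 1 1 2
    ndB1q1 ndB1q1 pcB2 Cut.none Ext.none :=
  certB0 (fam := true) (s1 := true) (s2 := true) (a := 1) (b := 1) (c := 2) (cn := .dn) (n1 := ndB1q1) (n2 := ndB1q1) (pc := pcB2) (cut := Cut.none) (xt := Ext.none) (P1 := 536870912) (W1 := 536870912) (P2 := 536870912) (W2 := 536870912) (P3 := 923417968) (W3 := 42949674) (N0 := 3) (En := eng) (mo := mog) (C1 := cd1q1) (C2 := cd1q1) (C3 := pd2)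
    rfl k0_pp_112

noncomputable def f_pp_113 : ℕ → ℕ → ℕ → ℕ → Bool := onCell 536870912 536870912 536870912 536870912 923417968 42949674
    (rowB 3 eng mog cd1q1 cd1q1 pd3 0 true true true .nn 1 1 3 (qsf 536870912 536870912 536870912 536870912 3) ndB1q1 ndB1q1 pcB3 Cut.none Ext.none)

def k0_pp_113 : ∃ t, chk3 f_pp_113 t 1 1 1 = true :=
  ⟨(l 4), by decide +kernel⟩

theorem c_pp_113 : CertB 536870912 536870912 536870912 536870912 923417968 42949674 3 eng mog cd1q1 cd1q1 pd3 true true true .nn 1 1 3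
    ndB1q1 ndB1q1 pcB3 Cut.none Ext.none :=
  certB0 (fam := true) (s1 := true) (s2 := true) (a := 1) (b := 1) (c := 3) (cn := .nn) (n1 := ndB1q1) (n2 := ndB1q1) (pc := pcB3) (cut := Cut.none) (xt := Ext.none) (P1 := 536870912) (W1 := 536870912) (P2 := 536870912) (W2 := 536870912) (P3 := 923417968) (W3 := 42949674) (N0 := 3) (En := eng) (mo := mog) (C1 := cd1q1) (C2 := cd1q1) (C3 := pd3)
    rfl k0_pp_113

noncomputable def f_pp_123_a : ℕ → ℕ → ℕ → ℕ → Bool := onCell 536870912 536870912 0 536870912 923417968 42949674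
    (rowB 3 eng mog cd1q1 cd1q2a pd3 0 true true true .npn 1 2 3 (qsf 536870912 536870912 0 536870912 3) ndB1q1 ndB1q2a pcB3 Cut.none Ext.none)

def k0_pp_123_a : ∃ t, chk3 f_pp_123_a t 1 1 1 = true :=
  ⟨(l 4), by decide +kernel⟩

theorem c_pp_123_a : CertB 536870912 536870912 0 536870912 923417968 42949674 3 eng mog cd1q1 cd1q2a pd3 true true true .npn 1 2 3
    ndB1q1 ndB1q2a pcB3 Cut.none Ext.none :=
  certB0 (fam := true) (s1 := true) (s2 := true) (a := 1) (b := 2) (c := 3) (cn := .npn) (n1 := ndB1q1) (n2 := ndB1q2a) (pc := pcB3) (cut := Cut.none) (xt := Ext.none) (P1 := 536870912) (W1 := 536870912) (P2 := 0) (W2 := 536870912) (P3 := 923417968) (W3 := 42949674) (N0 := 3) (En := eng) (mo := mog) (C1 := cd1q1) (C2 := cd1q2a) (C3 := pd3)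
    rfl k0_pp_123_a

noncomputable def f_pp_123_b : ℕ → ℕ → ℕ → ℕ → Bool := onCell 536870912 536870912 1239849684 370763052 923417968 42949674
    (rowB 3 eng mog cd1q1 cd1q2b pd3 0 true true true .npn 1 2 3 (qsf 536870912 536870912 1239849684 370763052 3) ndB1q1 ndB1q2b pcB3 Cut.none Ext.none)

def k0_pp_123_b : ∃ t, chk3 f_pp_123_b t 1 1 1 = true :=
  ⟨(l 4), by decide +kernel⟩

theorem c_pp_123_b : CertB 536870912 536870912 1239849684 370763052 923417968 42949674 3 eng mog cd1q1 cd1q2b pd3 true true true .npn 1 2 3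
    ndB1q1 ndB1q2b pcB3 Cut.none Ext.none :=
  certB0 (fam := true) (s1 := true) (s2 := true) (a := 1) (b := 2) (c := 3) (cn := .npn) (n1 := ndB1q1) (n2 := ndB1q2b) (pc := pcB3) (cut := Cut.none) (xt := Ext.none) (P1 := 536870912) (W1 := 536870912) (P2 := 1239849684) (W2 := 370763052) (P3 := 923417968) (W3 := 42949674) (N0 := 3) (En := eng) (mo := mog) (C1 := cd1q1) (C2 := cd1q2b) (C3 := pd3)
    rfl k0_pp_123_b

noncomputable def f_pp_133 : ℕ → ℕ → ℕ → ℕ → Bool := onCell 536870912 536870912 1610612736 536870912 923417968 42949674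
    (rowB 3 eng mog cd1q1 cd1q3 pd3 0 true true true .dn 1 3 3 (qsf 536870912 536870912 1610612736 536870912 3) ndB1q1 ndB1q3 pcB3 Cut.none Ext.none)

def k0_pp_133 : ∃ t, chk3 f_pp_133 t 1 1 1 = true :=
  ⟨(l 4), by decide +kernel⟩

theorem c_pp_133 : CertB 536870912 536870912 1610612736 536870912 923417968 42949674 3 eng mog cd1q1 cd1q3 pd3 true true true .dn 1 3 3
    ndB1q1 ndB1q3 pcB3 Cut.none Ext.none :=
  certB0 (fam := true) (s1 := true) (s2 := true) (a := 1) (b := 3) (c := 3) (cn := .dn) (n1 := ndB1q1) (n2 := ndB1q3) (pc := pcB3) (cut := Cut.none) (xt := Ext.none) (P1 := 536870912) (W1 := 536870912) (P2 := 1610612736) (W2 := 536870912) (P3 := 923417968) (W3 := 42949674) (N0 := 3) (En := eng) (mo := mog) (C1 := cd1q1) (C2 := cd1q3) (C3 := pd3)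
    rfl k0_pp_133

noncomputable def f_pp_202_a : ℕ → ℕ → ℕ → ℕ → Bool := onCell 0 536870912 0 536870912 923417968 42949674
    (rowB 3 eng mog cd1q2a cd1q0 pd2 0 true true true .pp 2 0 2 (qsf 0 536870912 0 536870912 2) ndB1q2a ndB1q0 pcB2 Cut.none Ext.none)

def k0_pp_202_a : ∃ t, chk3 f_pp_202_a t 1 1 1 = true :=
  ⟨(l 5), by decide +kernel⟩

theorem c_pp_202_a : CertB 0 536870912 0 536870912 923417968 42949674 3 eng mog cd1q2a cd1q0 pd2 true true true .pp 2 0 2
    ndB1q2a ndB1q0 pcB2 Cut.none Ext.none :=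
  certB0 (fam := true) (s1 := true) (s2 := true) (a := 2) (b := 0) (c := 2) (cn := .pp) (n1 := ndB1q2a) (n2 := ndB1q0) (pc := pcB2) (cut := Cut.none) (xt := Ext.none) (P1 := 0) (W1 := 536870912) (P2 := 0) (W2 := 536870912) (P3 := 923417968) (W3 := 42949674) (N0 := 3) (En := eng) (mo := mog) (C1 := cd1q2a) (C2 := cd1q0) (C3 := pd2)
    rfl k0_pp_202_a

noncomputable def f_pp_202_b : ℕ → ℕ → ℕ → ℕ → Bool := onCell 1239849684 370763052 0 536870912 923417968 42949674
    (rowB 3 eng mog cd1q2b cd1q0 pd2 0 true true true .pp 2 0 2 (qsf 1239849684 370763052 0 536870912 2) ndB1q2b ndB1q0 pcB2 Cut.none Ext.none)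

def k0_pp_202_b : ∃ t, chk3 f_pp_202_b t 1 1 1 = true :=
  ⟨(l 5), by decide +kernel⟩

theorem c_pp_202_b : CertB 1239849684 370763052 0 536870912 923417968 42949674 3 eng mog cd1q2b cd1q0 pd2 true true true .pp 2 0 2
    ndB1q2b ndB1q0 pcB2 Cut.none Ext.none :=
  certB0 (fam := true) (s1 := true) (s2 := true) (a := 2) (b := 0) (c := 2) (cn := .pp) (n1 := ndB1q2b) (n2 := ndB1q0) (pc := pcB2) (cut := Cut.none) (xt := Ext.none) (P1 := 1239849684) (W1 := 370763052) (P2 := 0) (W2 := 536870912) (P3 := 923417968) (W3 := 42949674) (N0 := 3) (En := eng) (mo := mog) (C1 := cd1q2b) (C2 := cd1q0) (C3 := pd2)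
    rfl k0_pp_202_b

noncomputable def f_pp_203_a : ℕ → ℕ → ℕ → ℕ → Bool := onCell 0 536870912 0 536870912 923417968 42949674
    (rowB 3 eng mog cd1q2a cd1q0 pd3 0 true true true .up 2 0 3 (qsf 0 536870912 0 536870912 3) ndB1q2a ndB1q0 pcB3 Cut.none Ext.none)

def k0_pp_203_a : ∃ t, chk3 f_pp_203_a t 1 1 1 = true :=
  ⟨(l 5), by decide +kernel⟩

theorem c_pp_203_a : CertB 0 536870912 0 536870912 923417968 42949674 3 eng mog cd1q2a cd1q0 pd3 true true true .up 2 0 3
    ndB1q2a ndB1q0 pcB3 Cut.none Ext.none :=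
  certB0 (fam := true) (s1 := true) (s2 := true) (a := 2) (b := 0) (c := 3) (cn := .up) (n1 := ndB1q2a) (n2 := ndB1q0) (pc := pcB3) (cut := Cut.none) (xt := Ext.none) (P1 := 0) (W1 := 536870912) (P2 := 0) (W2 := 536870912) (P3 := 923417968) (W3 := 42949674) (N0 := 3) (En := eng) (mo := mog) (C1 := cd1q2a) (C2 := cd1q0) (C3 := pd3)
    rfl k0_pp_203_a

noncomputable def f_pp_203_b : ℕ → ℕ → ℕ → ℕ → Bool := onCell 1239849684 370763052 0 536870912 923417968 42949674
    (rowB 3 eng mog cd1q2b cd1q0 pd3 0 true true true .up 2 0 3 (qsf 1239849684 370763052 0 536870912 3) ndB1q2b ndB1q0 pcB3 Cut.none Ext.none)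

def k0_pp_203_b : ∃ t, chk3 f_pp_203_b t 1 1 1 = true :=
  ⟨(l 5), by decide +kernel⟩

theorem c_pp_203_b : CertB 1239849684 370763052 0 536870912 923417968 42949674 3 eng mog cd1q2b cd1q0 pd3 true true true .up 2 0 3
    ndB1q2b ndB1q0 pcB3 Cut.none Ext.none :=
  certB0 (fam := true) (s1 := true) (s2 := true) (a := 2) (b := 0) (c := 3) (cn := .up) (n1 := ndB1q2b) (n2 := ndB1q0) (pc := pcB3) (cut := Cut.none) (xt := Ext.none) (P1 := 1239849684) (W1 := 370763052) (P2 := 0) (W2 := 536870912) (P3 := 923417968) (W3 := 42949674) (N0 := 3) (En := eng) (mo := mog) (C1 := cd1q2b) (C2 := cd1q0) (C3 := pd3)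
    rfl k0_pp_203_b

noncomputable def f_pp_213_a : ℕ → ℕ → ℕ → ℕ → Bool := onCell 0 536870912 536870912 536870912 923417968 42949674
    (rowB 3 eng mog cd1q2a cd1q1 pd3 0 true true true .pnn 2 1 3 (qsf 0 536870912 536870912 536870912 3) ndB1q2a ndB1q1 pcB3 Cut.none Ext.none)

def k0_pp_213_a : ∃ t, chk3 f_pp_213_a t 1 1 1 = true :=
  ⟨(l 4), by decide +kernel⟩

theorem c_pp_213_a : CertB 0 536870912 536870912 536870912 923417968 42949674 3 eng mog cd1q2a cd1q1 pd3 true true true .pnn 2 1 3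
    ndB1q2a ndB1q1 pcB3 Cut.none Ext.none :=
  certB0 (fam := true) (s1 := true) (s2 := true) (a := 2) (b := 1) (c := 3) (cn := .pnn) (n1 := ndB1q2a) (n2 := ndB1q1) (pc := pcB3) (cut := Cut.none) (xt := Ext.none) (P1 := 0) (W1 := 536870912) (P2 := 536870912) (W2 := 536870912) (P3 := 923417968) (W3 := 42949674) (N0 := 3) (En := eng) (mo := mog) (C1 := cd1q2a) (C2 := cd1q1) (C3 := pd3)
    rfl k0_pp_213_a

noncomputable def f_pp_213_b : ℕ → ℕ → ℕ → ℕ → Bool := onCell 1239849684 370763052 536870912 536870912 923417968 42949674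
    (rowB 3 eng mog cd1q2b cd1q1 pd3 0 true true true .pnn 2 1 3 (qsf 1239849684 370763052 536870912 536870912 3) ndB1q2b ndB1q1 pcB3 Cut.none Ext.none)

def k0_pp_213_b : ∃ t, chk3 f_pp_213_b t 1 1 1 = true :=
  ⟨(l 4), by decide +kernel⟩

theorem c_pp_213_b : CertB 1239849684 370763052 536870912 536870912 923417968 42949674 3 eng mog cd1q2b cd1q1 pd3 true true true .pnn 2 1 3
    ndB1q2b ndB1q1 pcB3 Cut.none Ext.none :=
  certB0 (fam := true) (s1 := true) (s2 := true) (a := 2) (b := 1) (c := 3) (cn := .pnn) (n1 := ndB1q2b) (n2 := ndB1q1) (pc := pcB3) (cut := Cut.none) (xt := Ext.none) (P1 := 1239849684) (W1 := 370763052) (P2 := 536870912) (W2 := 536870912) (P3 := 923417968) (W3 := 42949674) (N0 := 3) (En := eng) (mo := mog) (C1 := cd1q2b) (C2 := cd1q1) (C3 := pd3)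
    rfl k0_pp_213_b

noncomputable def f_pp_303 : ℕ → ℕ → ℕ → ℕ → Bool := onCell 1610612736 536870912 0 536870912 923417968 42949674
    (rowB 3 eng mog cd1q3 cd1q0 pd3 0 true true true .npn 3 0 3 (qsf 1610612736 536870912 0 536870912 3) ndB1q3 ndB1q0 pcB3 Cut.none Ext.none)

def k0_pp_303 : ∃ t, chk3 f_pp_303 t 1 1 1 = true :=
  ⟨(l 5), by decide +kernel⟩

theorem c_pp_303 : CertB 1610612736 536870912 0 536870912 923417968 42949674 3 eng mog cd1q3 cd1q0 pd3 true true true .npn 3 0 3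
    ndB1q3 ndB1q0 pcB3 Cut.none Ext.none :=
  certB0 (fam := true) (s1 := true) (s2 := true) (a := 3) (b := 0) (c := 3) (cn := .npn) (n1 := ndB1q3) (n2 := ndB1q0) (pc := pcB3) (cut := Cut.none) (xt := Ext.none) (P1 := 1610612736) (W1 := 536870912) (P2 := 0) (W2 := 536870912) (P3 := 923417968) (W3 := 42949674) (N0 := 3) (En := eng) (mo := mog) (C1 := cd1q3) (C2 := cd1q0) (C3 := pd3)
    rfl k0_pp_303

noncomputable def f_pp_313 : ℕ → ℕ → ℕ → ℕ → Bool := onCell 1610612736 536870912 536870912 536870912 923417968 42949674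
    (rowB 3 eng mog cd1q3 cd1q1 pd3 0 true true true .dn 3 1 3 (qsf 1610612736 536870912 536870912 536870912 3) ndB1q3 ndB1q1 pcB3 Cut.none Ext.none)

def k0_pp_313 : ∃ t, chk3 f_pp_313 t 1 1 1 = true :=
  ⟨(l 4), by decide +kernel⟩

theorem c_pp_313 : CertB 1610612736 536870912 536870912 536870912 923417968 42949674 3 eng mog cd1q3 cd1q1 pd3 true true true .dn 3 1 3
    ndB1q3 ndB1q1 pcB3 Cut.none Ext.none :=
  certB0 (fam := true) (s1 := true) (s2 := true) (a := 3) (b := 1) (c := 3) (cn := .dn) (n1 := ndB1q3) (n2 := ndB1q1) (pc := pcB3) (cut := Cut.none) (xt := Ext.none) (P1 := 1610612736) (W1 := 536870912) (P2 := 536870912) (W2 := 536870912) (P3 := 923417968) (W3 := 42949674) (N0 := 3) (En := eng) (mo := mog) (C1 := cd1q3) (C2 := cd1q1) (C3 := pd3)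
    rfl k0_pp_313

noncomputable def f_pm_001 : ℕ → ℕ → ℕ → ℕ → Bool := onCell 0 536870912 0 536870912 923417968 42949674
    (rowB 3 eng mog cd1q0 cd1q0 pd1 0 true true false .up 0 0 1 (qsf 0 536870912 0 536870912 1) ndB1q0 ndB1q0 pcB1 Cut.none Ext.none)

def k0_pm_001 : ∃ t, chk3 f_pm_001 t 1 1 1 = true :=
  ⟨(l 3), by decide +kernel⟩

theorem c_pm_001 : CertB 0 536870912 0 536870912 923417968 42949674 3 eng mog cd1q0 cd1q0 pd1 true true false .up 0 0 1
    ndB1q0 ndB1q0 pcB1 Cut.none Ext.none :=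
  certB0 (fam := true) (s1 := true) (s2 := false) (a := 0) (b := 0) (c := 1) (cn := .up) (n1 := ndB1q0) (n2 := ndB1q0) (pc := pcB1) (cut := Cut.none) (xt := Ext.none) (P1 := 0) (W1 := 536870912) (P2 := 0) (W2 := 536870912) (P3 := 923417968) (W3 := 42949674) (N0 := 3) (En := eng) (mo := mog) (C1 := cd1q0) (C2 := cd1q0) (C3 := pd1)
    rfl k0_pm_001

noncomputable def f_pm_011 : ℕ → ℕ → ℕ → ℕ → Bool := onCell 0 536870912 536870912 536870912 923417968 42949674
    (rowB 3 eng mog cd1q0 cd1q1 pd1 1 true true false .pnn 0 1 1 (qsf 0 536870912 536870912 536870912 1) ndB1q0 ndB1q1 pcB1 Cut.none Ext.none)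

def k0_pm_011 : ∃ t, chk3 f_pm_011 t 1 1 1 = true :=
  ⟨(l 3), by decide +kernel⟩

theorem c_pm_011 : CertB 0 536870912 536870912 536870912 923417968 42949674 3 eng mog cd1q0 cd1q1 pd1 true true false .pnn 0 1 1
    ndB1q0 ndB1q1 pcB1 Cut.none Ext.none :=
  certB1 (fam := true) (s1 := true) (s2 := false) (a := 0) (b := 1) (c := 1) (cn := .pnn) (n1 := ndB1q0) (n2 := ndB1q1) (pc := pcB1) (cut := Cut.none) (xt := Ext.none) (P1 := 0) (W1 := 536870912) (P2 := 536870912) (W2 := 536870912) (P3 := 923417968) (W3 := 42949674) (N0 := 3) (En := eng) (mo := mog) (C1 := cd1q0) (C2 := cd1q1) (C3 := pd1)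
    rfl (fun _ => rfl) k0_pm_011

noncomputable def f_pm_012 : ℕ → ℕ → ℕ → ℕ → Bool := onCell 1073741824 536870912 536870912 536870912 923417968 42949674
    (rowB 3 eng mog cd1q0 cd1q1 pd2 2 true true false .pnp 0 1 2 (qsf 0 536870912 536870912 536870912 2) ndB1q0 ndB1q1 pcB2 Cut.none Ext.none)

def k0_pm_012 : ∃ t, chk3 f_pm_012 t 1 1 1 = true :=
  ⟨(b (a (a (l 3) (a (a (a (l 3) (a (l 3) (b (l 2) (a (l 3) (b (l 16189144) (l 16257136)))))) (b (l 2) (b (l 16160400) (l 16221864)))) (b (l 2) (b (l 16094448) (l 15970536))))) (a (b (l 2) (a (b (l 2) (l 16051024)) (l 2))) (l 2))) (a (a (l 3) (a (a (a (b (l 3) (b (l 3) (a (l 3) (b (l 3) (l 16429032))))) (b (a (b (l 3) (l 455970267895)) (a (b (l 16295072) (l 16324536)) (b (l 16348560) (l 16418848)))) (a (b (l 16409048) (b (l 16515736) (l 16366344))) (a (b (l 16498904) (b (l 16517768) (l 16432608))) (b (l 16592320) (l 16312264)))))) (b (b (l 16181448) (c (l 16369072) (l 16462592))) (b (l 16353024) (b (l 16535208)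 (l 16454152))))) (b (b (c (l 16161168) (l 16257376)) (c (l 16257568) (l 16325728))) (b (b (l 16385176) (l 16449168)) (b (l 16519920) (l 16490800)))))) (b (a (b (a (l 16098080) (l 16015704)) (a (l 16108672) (l 16068512))) (b (l 2) (l 15795488))) (a (b (a (c (l 16234792) (l 16310672)) (l 16150576)) (a (b (l 16364432) (l 16437104)) (l 16264904))) (b (a (l 16054528) (l 15983488)) (a (l 16152968) (l 16064088))))))), by decide +kernel⟩

theorem c_pm_012 : CertB 0 536870912 536870912 536870912 923417968 42949674 3 eng mog cd1q0 cd1q1 pd2 true true false .pnp 0 1 2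
    ndB1q0 ndB1q1 pcB2 Cut.none Ext.none :=
  certB2 (fam := true) (s1 := true) (s2 := false) (a := 0) (b := 1) (c := 2) (cn := .pnp) (n1 := ndB1q0) (n2 := ndB1q1) (pc := pcB2) (cut := Cut.none) (xt := Ext.none) (P1 := 0) (W1 := 536870912) (P2 := 536870912) (W2 := 536870912) (P3 := 923417968) (W3 := 42949674) (N0 := 3) (En := eng) (mo := mog) (C1 := cd1q0) (C2 := cd1q1) (C3 := pd2)
    rfl (fun _ => rfl) k0_pm_012

noncomputable def cut_pm_022_a : Cut := Cut.of [[⟨0, 0, 0, 67108864⟩, ⟨1, 1, 0, 67108864⟩, ⟨2, 1, 0, 67108864⟩]]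

noncomputable def f_pm_022_a : ℕ → ℕ → ℕ → ℕ → Bool := onCell 1073741824 536870912 0 536870912 923417968 42949674
    (rowB 3 eng mog cd1q0 cd1q2a pd2 2 true true false .pp 0 2 2 (qsf 0 536870912 0 536870912 2) ndB1q0 ndB1q2a pcB2 cut_pm_022_a Ext.none)

def k0_pm_022_a : ∃ t, chk3 f_pm_022_a t 2 2 1 = true :=
  ⟨(b (a (l 1) (b (a (a (a (l 1) (c (l 168609817431) (l 129418018167))) (a (a (l 16103680) (l 16154080)) (l 16095416))) (a (a (l 16265208) (l 16312272)) (l 16334432))) (a (a (a (l 1) (c (b (l 16111080) (l 16116080)) (b (l 16033856) (l 16033808)))) (a (b (l 16102352) (l 16100664)) (a (l 16162032) (l 16189528)))) (a (a (l 16232592) (l 16293016)) (l 16220712))))) (b (a (l 1) (a (b (a (a (c (l 16091760) (l 16005072)) (c (l 16127568) (a (l 16031120) (l 16050576)))) (a (l 16084664) (l 16173112))) (a (a (c (l 114385857479) (a (l 1) (l 16030672))) (a (l 16050800) (l 16068024))) (a (c (l 16182672) (l 16091848)) (l 16180592)))) (a (a (l 16183976) (l 16278304))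 (l 16152568)))) (a (a (l 1) (a (l 1) (a (l 1) (b (l 1) (a (l 1) (c (l 334503008391) (l 16070912))))))) (a (a (b (a (c (a (l 16136696) (l 16149184)) (a (l 16043832) (l 16055280))) (a (l 16074944) (l 16110952))) (a (a (c (l 16173592) (l 16078208)) (c (l 16184024) (l 16087296))) (c (l 16202248) (l 16104072)))) (c (a (l 16217568) (l 16252784)) (a (l 16099448) (l 16135232)))) (a (a (l 16119896) (l 16247536)) (c (l 16401544) (l 16317408))))))), by decide +kernel⟩

def k1_pm_022_a : ∃ t, chk3 f_pm_022_a t 8 3 1 = true :=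
  ⟨(b (l 1) (b (a (l 1) (a (b (l 1) (l 6)) (b (a (l 1) (b (l 1) (b (a (l 1) (a (b (l 1) (l 6)) (c (c (a (l 221760636487) (l 275447728695)) (l 259341569511)) (c (l 254509684343) (l 245382827383))))) (a (l 6) (a (l 6) (a (l 6) (c (l 16488368) (l 16439096)))))))) (a (l 6) (a (l 6) (a (l 6) (b (c (l 16521232) (l 16463776)) (c (l 16566944) (l 16522776))))))))) (a (l 6) (a (l 6) (a (l 6) (a (l 6) (b (b (l 16510800) (l 16583080)) (l 16561312)))))))), by decide +kernel⟩

def k2_pm_022_a : ∃ t, chk3 f_pm_022_a t 18 6 1 = true :=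
  ⟨(b (l 1) (a (b (l 1) (a (l 1) (a (b (l 1) (c (b (c (l 134250559655) (l 136934856951)) (c (l 260415260455) (l 262562687319))) (b (l 137471677495) (a (l 215317993495) (l 272226310215))))) (b (a (l 1) (c (b (l 1) (l 153041005175)) (l 145524674231))) (c (b (a (l 206191252903) (l 300680534967)) (a (l 16432112) (l 16411728))) (b (l 243235243271) (l 16369064))))))) (b (b (a (l 1) (a (l 1) (b (l 1) (c (l 252362024135) (l 16229872))))) (a (a (l 1) (b (l 1) (c (l 189548177431) (l 190084912855)))) (c (a (b (l 220686666775) (l 326450262967)) (b (l 351146301175) (l 16343400))) (c (l 257193752695) (l 246993128487))))) (a (c (b (b (c (l 242161560167) (l 245919591335)) (a (a (l 236255998423) (l 16396536)) (l 16376408))) (a (b (c (l 16409488) (l 16377464)) (l 16412568)) (l 16404192))) (b (a (b (l 168610113159) (l 263636300631)) (b (l 286721712903) (l 16305552))) (a (b (l 16326568) (l 16346664)) (l 16335136)))) (b (c (a (b (l 16359656) (l 16377440)) (l 16369544)) (a (l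 16294568) (l 16292960))) (c (l 16405584) (l 16332704))))))), by decide +kernel⟩

def k3_pm_022_a : ∃ t, chk3 f_pm_022_a t 19 6 1 = true :=
  ⟨(b (b (a (a (l 1) (b (l 1) (c (l 223907694439) (l 246992970951)))) (a (c (b (l 296385223799) (l 184179256263)) (b (l 16099464) (l 16124768))) (c (b (l 16198184) (l 16223024)) (l 16115272)))) (a (b (a (l 1) (c (a (l 265783670391) (l 251825030279)) (a (l 16153192) (l 16152360)))) (a (c (a (b (l 1) (l 179884395687)) (b (l 229813370039) (l 307659679655))) (a (l 162704347399) (l 219612663431))) (c (a (b (l 16287384) (l 16282048)) (l 16274528)) (a (l 16204880) (l 16182520))))) (c (a (b (l 16266912) (l 16275504)) (l 16264024)) (a (b (l 16152048) (l 16181312)) (l 16167424))))) (a (b (a (c (b (c (a (l 285111125735) (l 16324832)) (l 302827793943)) (a (l 16336024) (l 16336912))) (b (a (l 299069618407) (l 16218256)) (l 16295664))) (c (b (a (l 16305416) (l 16306128)) (l 16338112)) (b (l 16215736) (l 16250224)))) (c (b (a (l 16370840)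 (l 16372280)) (l 16386808)) (a (b (l 16290408) (l 16329176)) (l 16306216)))) (c (b (a (b (l 16306768) (l 16339488)) (l 16324488)) (a (l 16391472) (l 16392304))) (b (a (l 16208864) (l 16227472)) (l 16300384))))), by decide +kernel⟩

def k4_pm_022_a : ∃ t, chk3 f_pm_022_a t 9 7 1 = true :=
  ⟨(a (b (b (a (a (b (a (b (l 1) (c (c (a (l 196527672695) (l 222297480023)) (a (l 198675119127) (l 224444924695))) (c (a (l 199748809223) (l 209412485863)) (l 252898978871)))) (c (c (b (a (l 202433226551) (l 244309160919)) (a (l 16461280) (l 16462208))) (b (l 255046531207) (l 322692305975))) (b (a (l 204043743671) (l 255046481095)) (c (l 16407160) (l 16377992))))) (a (b (c (a (c (l 335040403031) (l 347925270151)) (b (l 16463016) (l 16473496))) (a (c (l 344703998119) (l 16402552)) (l 16436528))) (c (l 16469512) (l 16459344))) (c (b (l 16469208) (l 16490360)) (b (l 16414632) (l 16437096))))) (b (c (a (b (c (l 16443800) (l 16415344)) (l 16449792)) (b (l 16430912) (l 16450888)))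 (a (b (a (l 16391440) (l 16369816)) (l 16391440)) (l 16358464))) (c (a (l 16459952) (l 16481896)) (a (l 16424520) (l 16423008))))) (c (b (a (l 16434568) (l 16444056)) (a (l 16483152) (l 16484456))) (a (b (l 16356176) (l 16420536)) (b (l 16373744) (l 16416864))))) (a (b (c (a (a (l 16522104) (l 16523152)) (l 16524480)) (a (a (l 16473312) (l 16471928)) (l 16469592))) (a (c (l 16568096) (l 16520944)) (c (l 16569488) (l 16517536)))) (c (a (l 16485360) (l 16507016)) (b (l 16464104) (l 16511496))))) (b (a (a (c (l 16556456) (l 16513984)) (a (l 16492640) (l 16491672))) (a (l 16469016) (l 16487328))) (a (a (a (l 16554904) (l 16548656)) (l 16518600)) (a (l 16506960) (l 16495832))))) (b (b (a (c (b (l 16445816) (l 16485704)) (b (l 16368024) (l 16410728))) (c (l 16466744) (l 16380720))) (c (a (l 16486304) (l 16527192)) (a (l 16478904) (l 16468816)))) (b (a (l 16440648) (l 16454072)) (a (b (l 16585104) (l 16500200)) (l 16418216))))), by decide +kernel⟩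

def k5_pm_022_a : ∃ t, chk3 f_pm_022_a t 5 3 1 = true :=
  ⟨(a (c (b (b (a (a (b (a (l 16217576) (l 16225880)) (l 16271600)) (b (l 16240872) (l 16286416))) (a (l 16286016) (l 16312152))) (a (a (b (l 16328736) (l 16393448)) (a (l 16324328) (l 16371392))) (b (l 16362224) (l 16413272)))) (a (b (a (b (l 16466280) (l 16545760)) (a (l 16379464) (b (l 16338824) (l 16456640)))) (a (l 16384016) (a (l 16452584) (a (l 16487016) (l 16398208))))) (b (a (l 16357288) (l 16400976)) (l 16314920)))) (b (b (a (a (b (l 16081368) (l 16129792)) (b (l 16139936) (l 16183288))) (a (l 16140352) (l 16208216))) (a (a (b (l 16227864) (l 16293592)) (a (l 16157304) (l 16265760))) (a (l 16231584) (l 16288616)))) (b (a (a (b (l 16371328) (l 16458032)) (a (l 16324144) (a (l 16341632) (l 16255640)))) (b (l 16279736) (l 16349000))) (a (a (b (l 16551200) (l 16624848)) (a (l 16485392) (b (l 16429120) (l 16524128)))) (l 16353064))))) (b (b (a (b (l 16084960) (l 16154136)) (c (l 16429648) (l 16334584)))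 (a (c (b (l 16407008) (l 16447432)) (l 16236064)) (c (l 16479152) (l 16333952)))) (b (a (b (l 16250912) (a (l 16380592) (l 16473064))) (c (l 16546280) (l 16396432))) (b (a (a (l 16467696) (l 16483024)) (l 16335136)) (a (l 16287024) (c (l 16428224) (l 16534768))))))), by decide +kernel⟩

def k6_pm_022_a : ∃ t, chk3 f_pm_022_a t 3 1 1 = true :=
  ⟨(b (a (a (b (a (b (l 16371520) (l 16442512)) (b (l 16237176) (l 16318512))) (a (b (l 16459904) (l 16421832)) (b (l 16388048) (l 16442264)))) (b (b (a (b (l 16059760) (l 16124776)) (b (l 16009088) (l 16089360))) (a (l 16191696) (l 16064224))) (a (b (l 16270400) (l 16333240)) (b (l 16151496) (l 16222600))))) (a (b (a (b (l 15974592) (b (l 15943080) (l 15961704))) (b (l 15977872) (l 15994976))) (a (b (l 16033424) (l 16112384)) (b (b (l 15898048) (l 15941872)) (l 16004664)))) (b (a (l 15957464) (l 15991912)) (b (a (b (l 15857184) (l 15846912)) (l 15856320)) (a (l 15901544) (b (l 15808480) (l 15825008))))))) (a (b (b (a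 (a (l 16363736) (l 16476432)) (a (l 16375432) (l 16272696))) (a (a (l 16367472) (l 16484000)) (a (l 16390608) (l 16253480)))) (a (a (b (l 16324072) (b (l 16459432) (c (l 16373168) (l 16479592)))) (b (l 16309120) (c (l 16332696) (l 16432096)))) (b (a (l 16286216) (c (l 16249712) (l 16318696))) (c (a (l 16259728) (l 16185736)) (a (l 16349616) (l 16263432)))))) (b (a (b (a (l 16170256) (l 16070144)) (a (l 16200592) (l 16108224))) (b (a (l 15974416) (l 15885128)) (a (l 16020360) (l 15939040)))) (a (b (a (l 16194976) (l 16110208)) (a (l 15932544) (l 15959816))) (b (a (l 16030208) (l 15957112)) (a (l 15991840) (l 15988944))))))), by decide +kernel⟩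

theorem s7_pm_022_a : ∃ t, chk3 f_pm_022_a t 9 6 1 = true := ex3_a k2_pm_022_a k3_pm_022_a

theorem s8_pm_022_a : ∃ t, chk3 f_pm_022_a t 9 3 1 = true := ex3_b s7_pm_022_a k4_pm_022_a

theorem s9_pm_022_a : ∃ t, chk3 f_pm_022_a t 4 3 1 = true := ex3_a k1_pm_022_a s8_pm_022_a

theorem s10_pm_022_a : ∃ t, chk3 f_pm_022_a t 2 3 1 = true := ex3_a s9_pm_022_a k5_pm_022_a

theorem s11_pm_022_a : ∃ t, chk3 f_pm_022_a t 2 1 1 = true := ex3_b k0_pm_022_a s10_pm_022_a

theorem s12_pm_022_a : ∃ t, chk3 f_pm_022_a t 1 1 1 = true := ex3_a s11_pm_022_a k6_pm_022_a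

theorem c_pm_022_a : CertB 0 536870912 0 536870912 923417968 42949674 3 eng mog cd1q0 cd1q2a pd2 true true false .pp 0 2 2
    ndB1q0 ndB1q2a pcB2 cut_pm_022_a Ext.none :=
  certB2 (fam := true) (s1 := true) (s2 := false) (a := 0) (b := 2) (c := 2) (cn := .pp) (n1 := ndB1q0) (n2 := ndB1q2a) (pc := pcB2) (cut := cut_pm_022_a) (xt := Ext.none) (P1 := 0) (W1 := 536870912) (P2 := 0) (W2 := 536870912) (P3 := 923417968) (W3 := 42949674) (N0 := 3) (En := eng) (mo := mog) (C1 := cd1q0) (C2 := cd1q2a) (C3 := pd2)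
    rfl (fun _ => rfl) s12_pm_022_a

noncomputable def cut_pm_022_b : Cut := Cut.of [[⟨0, 0, 0, 67108864⟩, ⟨1, 1, 0, 67108864⟩, ⟨2, 1, 0, 67108864⟩]]

noncomputable def f_pm_022_b : ℕ → ℕ → ℕ → ℕ → Bool := onCell 0 536870912 1073741824 536870912 923417968 42949674
    (rowB 3 eng mog cd1q0 cd1q2b pd2 1 true true false .pp 0 2 2 (qsf 0 536870912 1239849684 370763052 2) ndB1q0 ndB1q2b pcB2 cut_pm_022_b Ext.none)

def k0_pm_022_b : ∃ t, chk3 f_pm_022_b t 1 1 1 = true :=
  ⟨(b (a (b (l 1) (a (b (a (a (a (b (b (l 1) (l 16170960)) (b (l 16146936) (l 16125504))) (b (l 1) (l 218538952199))) (b (l 1) (l 263099024919))) (l 1)) (a (a (b (c (l 16148448) (l 16114384)) (c (l 16140472) (l 16090296))) (b (a (l 16273640) (l 16338280)) (l 16293480))) (b (l 284037264183) (a (l 16464128) (l 16427264))))) (l 1))) (l 1)) (a (b (a (b (b (a (a (l 15973056) (l 16278792)) (a (l 16372368) (l 16334992))) (a (a (l 16027280) (l 16271576)) (l 16126808))) (a (b (a (l 16088640) (l 16170160))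 (l 15922584)) (b (l 16121792) (a (l 16034904) (l 16033936))))) (b (a (b (l 309806579511) (l 219075783607)) (l 1)) (a (b (a (l 16095232) (l 16127544)) (l 16183688)) (b (a (l 16053920) (l 1)) (l 16009312))))) (a (b (a (b (a (l 15911256) (l 15911984)) (a (l 15779872) (l 15881952))) (a (l 15807440) (l 15987240))) (a (b (l 15821704) (l 15801096)) (l 15949840))) (b (a (b (l 16022824) (l 16023488)) (b (l 16017616) (l 16037144))) (a (l 16021472) (l 16106192))))) (b (l 1) (a (b (a (b (l 386579301943) (l 16003824)) (l 1)) (a (b (l 16050600) (l 16106816)) (l 462815285415))) (l 1))))), by decide +kernel⟩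

theorem c_pm_022_b : CertB 0 536870912 1239849684 370763052 923417968 42949674 3 eng mog cd1q0 cd1q2b pd2 true true false .pp 0 2 2
    ndB1q0 ndB1q2b pcB2 cut_pm_022_b Ext.none :=
  certB1 (fam := true) (s1 := true) (s2 := false) (a := 0) (b := 2) (c := 2) (cn := .pp) (n1 := ndB1q0) (n2 := ndB1q2b) (pc := pcB2) (cut := cut_pm_022_b) (xt := Ext.none) (P1 := 0) (W1 := 536870912) (P2 := 1239849684) (W2 := 370763052) (P3 := 923417968) (W3 := 42949674) (N0 := 3) (En := eng) (mo := mog) (C1 := cd1q0) (C2 := cd1q2b) (C3 := pd2)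
    rfl (fun _ => rfl) k0_pm_022_b

noncomputable def f_pm_023_a : ℕ → ℕ → ℕ → ℕ → Bool := onCell 1610612736 536870912 0 536870912 923417968 42949674
    (rowB 3 eng mog cd1q0 cd1q2a pd3 2 true true false .up 0 2 3 (qsf 0 536870912 0 536870912 3) ndB1q0 ndB1q2a pcB3 Cut.none Ext.none)

def k0_pm_023_a : ∃ t, chk3 f_pm_023_a t 1 1 1 = true :=
  ⟨(a (a (b (a (b (c (l 16564296) (l 16213560)) (a (c (l 16520160) (l 16299376)) (l 16355368))) (b (c (l 16551672) (l 16515184)) (c (l 16494912) (l 16454712)))) (b (a (c (b (l 16455952) (l 16372376)) (b (l 16327376) (l 16393744))) (c (b (l 16421272) (l 16336360)) (a (l 16413416) (l 16439640)))) (b (a (c (l 16254120) (l 16351016)) (c (l 16218432) (l 16308392))) (a (c (l 15947848) (l 16143592)) (l 2))))) (b (a (c (b (l 16564112) (l 16496272)) (b (l 16598704) (l 16550440))) (l 2)) (b (l 2) (l 2)))) (l 2)), by decide +kernel⟩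

theorem c_pm_023_a : CertB 0 536870912 0 536870912 923417968 42949674 3 eng mog cd1q0 cd1q2a pd3 true true false .up 0 2 3
    ndB1q0 ndB1q2a pcB3 Cut.none Ext.none :=
  certB2 (fam := true) (s1 := true) (s2 := false) (a := 0) (b := 2) (c := 3) (cn := .up) (n1 := ndB1q0) (n2 := ndB1q2a) (pc := pcB3) (cut := Cut.none) (xt := Ext.none) (P1 := 0) (W1 := 536870912) (P2 := 0) (W2 := 536870912) (P3 := 923417968) (W3 := 42949674) (N0 := 3) (En := eng) (mo := mog) (C1 := cd1q0) (C2 := cd1q2a) (C3 := pd3)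
    rfl (fun _ => rfl) k0_pm_023_a

noncomputable def f_pm_023_b : ℕ → ℕ → ℕ → ℕ → Bool := onCell 1610612736 536870912 1239849684 370763052 923417968 42949674
    (rowB 3 eng mog cd1q0 cd1q2b pd3 2 true true false .up 0 2 3 (qsf 0 536870912 1239849684 370763052 3) ndB1q0 ndB1q2b pcB3 Cut.none Ext.none)

def k0_pm_023_b : ∃ t, chk3 f_pm_023_b t 1 1 1 = true :=
  ⟨(a (a (b (a (b (a (c (l 16457568) (l 16284864)) (l 16324592)) (a (c (l 16189000) (l 15999232)) (l 16196392))) (b (a (l 16449432) (l 16564232)) (a (l 16283144) (l 16361216)))) (a (b (a (c (l 15868848) (l 15664040)) (c (l 15970392) (l 15798072))) (a (c (b (l 15606192) (l 15425888)) (b (l 15390864) (l 15204768))) (c (l 15632152) (l 15445928)))) (b (a (l 15806368) (l 16093936)) (a (c (l 15739240) (l 15584496)) (l 15654832))))) (a (b (b (a (l 16606112) (l 16625376)) (a (l 16431992) (l 16495584))) (b (a (l 16185984) (l 16271360)) (a (l 15890040) (l 15993688)))) (b (a (b (l 16641912) (l 16546944)) (l 4))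 (a (b (l 16343624) (l 16085720)) (l 4))))) (a (l 4) (l 4))), by decide +kernel⟩

theorem c_pm_023_b : CertB 0 536870912 1239849684 370763052 923417968 42949674 3 eng mog cd1q0 cd1q2b pd3 true true false .up 0 2 3
    ndB1q0 ndB1q2b pcB3 Cut.none Ext.none :=
  certB2 (fam := true) (s1 := true) (s2 := false) (a := 0) (b := 2) (c := 3) (cn := .up) (n1 := ndB1q0) (n2 := ndB1q2b) (pc := pcB3) (cut := Cut.none) (xt := Ext.none) (P1 := 0) (W1 := 536870912) (P2 := 1239849684) (W2 := 370763052) (P3 := 923417968) (W3 := 42949674) (N0 := 3) (En := eng) (mo := mog) (C1 := cd1q0) (C2 := cd1q2b) (C3 := pd3)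
    rfl (fun _ => rfl) k0_pm_023_b

noncomputable def f_pm_033 : ℕ → ℕ → ℕ → ℕ → Bool := onCell 0 536870912 1610612736 536870912 923417968 42949674
    (rowB 3 eng mog cd1q0 cd1q3 pd3 1 true true false .pnn 0 3 3 (qsf 0 536870912 1610612736 536870912 3) ndB1q0 ndB1q3 pcB3 Cut.none Ext.none)

def k0_pm_033 : ∃ t, chk3 f_pm_033 t 1 1 1 = true :=
  ⟨(b (b (a (a (b (a (b (c (l 15489480) (l 15353040)) (c (l 15523824) (l 15356808))) (c (l 310879446295) (l 355976066151))) (a (b (c (l 15490120) (l 15353432)) (c (l 15454160) (l 15344760))) (b (l 15642904) (l 15618712)))) (b (l 1) (b (l 1) (l 302826549623)))) (l 1)) (a (b (a (a (b (c (l 15418328) (l 15332048)) (l 15225880)) (b (l 15508528) (l 15565064))) (b (l 15901496) (l 15872344))) (a (b (a (l 15073688) (l 15452216)) (a (l 4) (l 4))) (b (l 15839400) (l 4)))) (b (l 1) (b (l 1) (l 4))))) (l 4)), by decide +kernel⟩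

theorem c_pm_033 : CertB 0 536870912 1610612736 536870912 923417968 42949674 3 eng mog cd1q0 cd1q3 pd3 true true false .pnn 0 3 3
    ndB1q0 ndB1q3 pcB3 Cut.none Ext.none :=
  certB1 (fam := true) (s1 := true) (s2 := false) (a := 0) (b := 3) (c := 3) (cn := .pnn) (n1 := ndB1q0) (n2 := ndB1q3) (pc := pcB3) (cut := Cut.none) (xt := Ext.none) (P1 := 0) (W1 := 536870912) (P2 := 1610612736) (W2 := 536870912) (P3 := 923417968) (W3 := 42949674) (N0 := 3) (En := eng) (mo := mog) (C1 := cd1q0) (C2 := cd1q3) (C3 := pd3)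
    rfl (fun _ => rfl) k0_pm_033

noncomputable def f_pm_101 : ℕ → ℕ → ℕ → ℕ → Bool := onCell 536870912 536870912 0 536870912 923417968 42949674
    (rowB 3 eng mog cd1q1 cd1q0 pd1 2 true true false .npn 1 0 1 (qsf 536870912 536870912 0 536870912 1) ndB1q1 ndB1q0 pcB1 Cut.none Ext.none)

def k0_pm_101 : ∃ t, chk3 f_pm_101 t 1 1 1 = true :=
  ⟨(l 3), by decide +kernel⟩

theorem c_pm_101 : CertB 536870912 536870912 0 536870912 923417968 42949674 3 eng mog cd1q1 cd1q0 pd1 true true false .npn 1 0 1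
    ndB1q1 ndB1q0 pcB1 Cut.none Ext.none :=
  certB2 (fam := true) (s1 := true) (s2 := false) (a := 1) (b := 0) (c := 1) (cn := .npn) (n1 := ndB1q1) (n2 := ndB1q0) (pc := pcB1) (cut := Cut.none) (xt := Ext.none) (P1 := 536870912) (W1 := 536870912) (P2 := 0) (W2 := 536870912) (P3 := 923417968) (W3 := 42949674) (N0 := 3) (En := eng) (mo := mog) (C1 := cd1q1) (C2 := cd1q0) (C3 := pd1)
    rfl (fun _ => rfl) k0_pm_101

noncomputable def f_pm_102 : ℕ → ℕ → ℕ → ℕ → Bool := onCell 536870912 536870912 1073741824 536870912 923417968 42949674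
    (rowB 3 eng mog cd1q1 cd1q0 pd2 1 true true false .npp 1 0 2 (qsf 536870912 536870912 0 536870912 2) ndB1q1 ndB1q0 pcB2 Cut.none Ext.none)

def k0_pm_102 : ∃ t, chk3 f_pm_102 t 1 1 1 = true :=
  ⟨(a (b (b (l 3) (b (b (b (l 3) (b (l 3) (a (l 2) (b (l 3) (a (l 16189144) (l 16257136)))))) (a (l 2) (a (l 16160400) (l 16221864)))) (a (l 2) (a (l 16094448) (l 15970536))))) (b (a (l 2) (b (a (l 2) (l 16051024)) (l 2))) (l 2))) (b (b (l 3) (b (b (b (a (l 3) (a (l 3) (b (l 3) (a (l 3) (l 16429032))))) (a (b (a (l 3) (l 455970267895)) (b (a (l 16295072) (l 16324536)) (a (l 16348560) (l 16418848)))) (b (a (l 16409048) (a (l 16515736) (l 16366344))) (b (a (l 16498904) (a (l 16517768) (l 16432608))) (a (l 16592320) (l 16312264)))))) (a (a (l 16181448) (c (l 16369072) (l 16462592))) (a (l 16353024) (a (l 16535208) (l 16454152))))) (a (a (c (l 16161168) (l 16257376)) (c (l 16257568) (l 16325728))) (a (a (l 16385176) (l 16449168)) (a (l 16519920) (l 16490800)))))) (a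 (b (a (b (l 16098080) (l 16015704)) (b (l 16108672) (l 16068512))) (a (l 2) (l 15774512))) (b (a (b (c (l 16234792) (l 16310672)) (l 16150576)) (b (a (l 16364432) (l 16437104)) (l 16264904))) (a (b (l 16054528) (l 15983488)) (b (l 16152968) (l 16064088))))))), by decide +kernel⟩

theorem c_pm_102 : CertB 536870912 536870912 0 536870912 923417968 42949674 3 eng mog cd1q1 cd1q0 pd2 true true false .npp 1 0 2
    ndB1q1 ndB1q0 pcB2 Cut.none Ext.none :=
  certB1 (fam := true) (s1 := true) (s2 := false) (a := 1) (b := 0) (c := 2) (cn := .npp) (n1 := ndB1q1) (n2 := ndB1q0) (pc := pcB2) (cut := Cut.none) (xt := Ext.none) (P1 := 536870912) (W1 := 536870912) (P2 := 0) (W2 := 536870912) (P3 := 923417968) (W3 := 42949674) (N0 := 3) (En := eng) (mo := mog) (C1 := cd1q1) (C2 := cd1q0) (C3 := pd2)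
    rfl (fun _ => rfl) k0_pm_102

noncomputable def f_pm_112 : ℕ → ℕ → ℕ → ℕ → Bool := onCell 1073741824 536870912 536870912 536870912 923417968 42949674
    (rowB 3 eng mog cd1q1 cd1q1 pd2 2 true true false .dn 1 1 2 (qsf 536870912 536870912 536870912 536870912 2) ndB1q1 ndB1q1 pcB2 Cut.none Ext.none)

def k0_pm_112 : ∃ t, chk3 f_pm_112 t 1 1 1 = true :=
  ⟨(b (a (a (l 3) (a (a (a (l 3) (a (l 3) (b (a (l 3) (c (c (b (l 15454088) (l 15451744)) (l 15537296)) (b (l 15676448) (l 15676032)))) (a (l 3) (b (c (c (l 15459392) (l 15541656)) (l 15677408)) (l 1)))))) (b (c (b (c (l 15444816) (l 15527224)) (c (l 15440928) (l 15524512))) (b (l 15663392) (l 15662560))) (c (b (c (l 15447416) (l 15529048)) (c (l 261487177943) (l 15540832))) (b (l 15663968) (l 15667672))))) (b (c (b (c (l 15425208) (l 15502752)) (c (l 15416496) (l 15496296))) (b (l 15631600) (l 15628784))) (c (b (c (l 15419376) (l 15498424)) (c (l 15433848) (l 15509128))) (b (l 15629688) (l 15634352))))))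 (c (a (b (a (b (l 15446568) (l 15431088)) (b (l 15449512) (l 15422720))) (a (b (l 15427960) (l 15437128)) (b (l 15411288) (l 15414952)))) (b (a (l 15457136) (l 15657368)) (a (l 15409320) (l 15427736)))) (a (b (a (b (l 15598256) (l 15590360)) (l 15572224)) (b (l 15655952) (l 15827336))) (b (a (l 15568712) (l 15593096)) (a (l 15534568) (l 15527904)))))) (a (a (l 1) (a (l 1) (b (b (c (l 256118715943) (l 15642936)) (l 1)) (l 1)))) (b (b (a (c (a (l 15458704) (l 15433784)) (l 237328620743)) (c (l 15421744) (l 15533120))) (a (c (a (l 15492952) (l 15468176)) (l 249676691511)) (c (l 15452312) (l 15555504)))) (a (b (c (l 269003889015) (l 273835941367)) (l 1)) (b (c (l 15504816) (l 15594672)) (c (l 228201803095) (l 15780632))))))), by decide +kernel⟩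

theorem c_pm_112 : CertB 536870912 536870912 536870912 536870912 923417968 42949674 3 eng mog cd1q1 cd1q1 pd2 true true false .dn 1 1 2
    ndB1q1 ndB1q1 pcB2 Cut.none Ext.none :=
  certB2 (fam := true) (s1 := true) (s2 := false) (a := 1) (b := 1) (c := 2) (cn := .dn) (n1 := ndB1q1) (n2 := ndB1q1) (pc := pcB2) (cut := Cut.none) (xt := Ext.none) (P1 := 536870912) (W1 := 536870912) (P2 := 536870912) (W2 := 536870912) (P3 := 923417968) (W3 := 42949674) (N0 := 3) (En := eng) (mo := mog) (C1 := cd1q1) (C2 := cd1q1) (C3 := pd2)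
    rfl (fun _ => rfl) k0_pm_112

noncomputable def f_pm_113 : ℕ → ℕ → ℕ → ℕ → Bool := onCell 536870912 536870912 536870912 536870912 923417968 42949674
    (rowB 3 eng mog cd1q1 cd1q1 pd3 0 true true false .nn 1 1 3 (qsf 536870912 536870912 536870912 536870912 3) ndB1q1 ndB1q1 pcB3 Cut.none Ext.none)

def k0_pm_113 : ∃ t, chk3 f_pm_113 t 1 1 1 = true :=
  ⟨(a (b (b (l 1) (a (l 1) (b (l 1) (a (l 1) (l 15463744))))) (b (a (b (l 1) (a (l 1) (l 250213248439))) (b (a (l 15460288) (l 15471344)) (a (l 15462832) (l 15497968)))) (b (a (a (l 249676344631) (l 15446952)) (a (l 15486832) (l 15557512))) (a (a (b (l 15429320) (l 15465416)) (b (l 15465976) (l 15520680))) (a (b (l 15535720) (l 15611864)) (l 15695608)))))) (b (a (b (a (l 1) (b (l 1) (l 250213248439))) (a (b (l 15460288) (l 15471344)) (b (l 15462832) (l 15497968)))) (a (b (b (l 237328313655) (l 15446952)) (b (l 15486832) (l 15557512))) (b (b (a (l 15429320) (l 15465416)) (a (l 15465976) (l 15520680))) (b (a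 (l 15535720) (l 15611864)) (l 15695608))))) (a (b (b (a (l 15502152) (l 15560832)) (l 15607120)) (b (l 15747712) (a (l 15888840) (b (l 16091352) (l 16358264))))) (b (a (l 15747712) (b (l 15888840) (a (l 16091352) (l 16358264)))) (a (b (l 16162728) (b (l 16617560) (a (l 16810904) (l 16816256)))) (b (a (l 16617560) (b (l 16810904) (l 16899224))) (a (b (l 16880992) (b (l 16830800) (l 16793064))) (b (a (l 16830800) (l 16793064)) (a (l 16809744) (b (l 16791888) (b (l 16793528) (a (l 16784240) (a (l 16785040) (b (l 16780608) (a (l 16781104) (l 16779032)))))))))))))))), by decide +kernel⟩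

theorem c_pm_113 : CertB 536870912 536870912 536870912 536870912 923417968 42949674 3 eng mog cd1q1 cd1q1 pd3 true true false .nn 1 1 3
    ndB1q1 ndB1q1 pcB3 Cut.none Ext.none :=
  certB0 (fam := true) (s1 := true) (s2 := false) (a := 1) (b := 1) (c := 3) (cn := .nn) (n1 := ndB1q1) (n2 := ndB1q1) (pc := pcB3) (cut := Cut.none) (xt := Ext.none) (P1 := 536870912) (W1 := 536870912) (P2 := 536870912) (W2 := 536870912) (P3 := 923417968) (W3 := 42949674) (N0 := 3) (En := eng) (mo := mog) (C1 := cd1q1) (C2 := cd1q1) (C3 := pd3)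
    rfl k0_pm_113

noncomputable def f_pm_123_a : ℕ → ℕ → ℕ → ℕ → Bool := onCell 1610612736 536870912 0 536870912 923417968 42949674
    (rowB 3 eng mog cd1q1 cd1q2a pd3 2 true true false .npn 1 2 3 (qsf 536870912 536870912 0 536870912 3) ndB1q1 ndB1q2a pcB3 Cut.none Ext.none)

def k0_pm_123_a : ∃ t, chk3 f_pm_123_a t 1 1 1 = true :=
  ⟨(a (a (b (a (l 1) (a (l 1) (b (l 1) (l 16054400)))) (b (a (l 1) (c (b (l 102037711799) (a (l 16046464) (l 16067544))) (b (l 16326992) (a (l 16237464) (l 16243064))))) (c (a (b (c (l 15873568) (l 15928200)) (c (l 15720320) (l 15738328))) (b (l 16085984) (c (l 15773336) (l 15781408)))) (a (b (l 15877480) (c (l 15766288) (l 15804384))) (b (l 15910936) (c (l 15801704) (l 15834512))))))) (b (a (b (a (l 16268432) (l 16258056)) (c (l 16200296) (l 16346952))) (b (a (l 16266088) (l 16077408)) (c (l 16225584) (l 16358688)))) (b (a (a (c (l 16126200) (l 16158656)) (b (l 16248552) (l 16180320))) (c (a (l 16188456) (l 16229024)) (a (l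 16285968) (l 16300264)))) (a (b (c (a (l 15988912) (l 16032544)) (a (l 16087296) (l 16103600))) (c (c (l 15871320) (l 15858832)) (c (l 15860528) (l 15876824)))) (b (a (c (l 16084088) (l 16120272)) (l 16142664)) (c (a (l 15960368) (l 16044272)) (a (l 15918600) (l 15962408)))))))) (b (a (a (a (b (l 66268554487) (l 16260952)) (b (l 4) (l 16076088))) (a (b (l 4) (l 58215623063)) (l 4))) (l 4)) (b (a (a (a (c (l 16274504) (l 16324320)) (c (l 16323208) (l 16358544))) (a (b (l 16381968) (l 16391528)) (c (l 16411776) (l 16443384)))) (a (a (a (l 16452144) (l 4)) (l 4)) (l 4))) (a (a (b (a (l 16200608) (l 16274448)) (a (c (l 16147776) (l 16021904)) (l 16186184))) (b (a (l 16366808) (l 16480560)) (a (l 16331232) (l 16525504)))) (a (a (b (l 16612976) (l 16787248)) (b (l 4) (a (l 16848000) (l 16815696)))) (l 4)))))), by decide +kernel⟩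

theorem c_pm_123_a : CertB 536870912 536870912 0 536870912 923417968 42949674 3 eng mog cd1q1 cd1q2a pd3 true true false .npn 1 2 3
    ndB1q1 ndB1q2a pcB3 Cut.none Ext.none :=
  certB2 (fam := true) (s1 := true) (s2 := false) (a := 1) (b := 2) (c := 3) (cn := .npn) (n1 := ndB1q1) (n2 := ndB1q2a) (pc := pcB3) (cut := Cut.none) (xt := Ext.none) (P1 := 536870912) (W1 := 536870912) (P2 := 0) (W2 := 536870912) (P3 := 923417968) (W3 := 42949674) (N0 := 3) (En := eng) (mo := mog) (C1 := cd1q1) (C2 := cd1q2a) (C3 := pd3)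
    rfl (fun _ => rfl) k0_pm_123_a

noncomputable def f_pm_123_b : ℕ → ℕ → ℕ → ℕ → Bool := onCell 1610612736 536870912 1239849684 370763052 923417968 42949674
    (rowB 3 eng mog cd1q1 cd1q2b pd3 2 true true false .npn 1 2 3 (qsf 536870912 536870912 1239849684 370763052 3) ndB1q1 ndB1q2b pcB3 Cut.none Ext.none)

def k0_pm_123_b : ∃ t, chk3 f_pm_123_b t 1 1 1 = true :=
  ⟨(b (a (a (l 1) (a (b (c (l 16183128) (l 16330616)) (l 1)) (a (b (c (l 16248040) (l 16349192)) (l 1)) (l 4)))) (l 4)) (a (l 1) (l 4))), by decide +kernel⟩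

theorem c_pm_123_b : CertB 536870912 536870912 1239849684 370763052 923417968 42949674 3 eng mog cd1q1 cd1q2b pd3 true true false .npn 1 2 3
    ndB1q1 ndB1q2b pcB3 Cut.none Ext.none :=
  certB2 (fam := true) (s1 := true) (s2 := false) (a := 1) (b := 2) (c := 3) (cn := .npn) (n1 := ndB1q1) (n2 := ndB1q2b) (pc := pcB3) (cut := Cut.none) (xt := Ext.none) (P1 := 536870912) (W1 := 536870912) (P2 := 1239849684) (W2 := 370763052) (P3 := 923417968) (W3 := 42949674) (N0 := 3) (En := eng) (mo := mog) (C1 := cd1q1) (C2 := cd1q2b) (C3 := pd3)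
    rfl (fun _ => rfl) k0_pm_123_b

noncomputable def f_pm_133 : ℕ → ℕ → ℕ → ℕ → Bool := onCell 536870912 536870912 1610612736 536870912 923417968 42949674
    (rowB 3 eng mog cd1q1 cd1q3 pd3 0 true true false .dn 1 3 3 (qsf 536870912 536870912 1610612736 536870912 3) ndB1q1 ndB1q3 pcB3 Cut.none Ext.none)

def k0_pm_133 : ∃ t, chk3 f_pm_133 t 1 1 1 = true :=
  ⟨(l 4), by decide +kernel⟩

theorem c_pm_133 : CertB 536870912 536870912 1610612736 536870912 923417968 42949674 3 eng mog cd1q1 cd1q3 pd3 true true false .dn 1 3 3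
    ndB1q1 ndB1q3 pcB3 Cut.none Ext.none :=
  certB0 (fam := true) (s1 := true) (s2 := false) (a := 1) (b := 3) (c := 3) (cn := .dn) (n1 := ndB1q1) (n2 := ndB1q3) (pc := pcB3) (cut := Cut.none) (xt := Ext.none) (P1 := 536870912) (W1 := 536870912) (P2 := 1610612736) (W2 := 536870912) (P3 := 923417968) (W3 := 42949674) (N0 := 3) (En := eng) (mo := mog) (C1 := cd1q1) (C2 := cd1q3) (C3 := pd3)
    rfl k0_pm_133

end Pool.Agent.Strip051.G.I8600_9000.Tab.C.BA11

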