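import Pool.Agent.Strip051.G.I8600_9000.Tab
import Pool.Agent.Strip051.PB.ExtD2

/-! # Certificates B10 (generated) -/

set_option linter.all false
set_option maxRecDepth 100000

namespace Pool.Agent.Strip051.G.I8600_9000.Tab.C.BB00

open Pool.Agent.Strip051.PB Pool.Agent.Strip051.PB.T
open Pool.Agent.Strip051.G.I8600_9000.Tab

noncomputable def cut_pm_102 : Cut := Cut.of [[⟨3, 0, 0, 1449551462⟩], [⟨4, 0, 0, 2845415833⟩], [⟨0, 1, 0, 53687091⟩, ⟨1, 0, 0, 53687091⟩, ⟨2, 1, 0, 53687091⟩], [⟨0, 0, 1, 20971520⟩, ⟨1, 1, 2, 20971520⟩, ⟨2, 1, 0, 8388608⟩]]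

noncomputable def xt_pm_102 : Ext := extD2 3 ⟨4, 1, 1, 5, 17, 5, 87, 100, 43, 100, 1, 8⟩ eng cd0q1 cd0q2 pd0 false true false .npp 1 0 2 rfl ndB0q1 ndB0q2 pcB0

noncomputable def f_pm_102 : ℕ → ℕ → ℕ → ℕ → Bool := onCell 0 536870912 0 536870912 923417968 42949674
    (rowB 3 eng mog cd0q1 cd0q2 pd0 2 false true false .npp 1 0 2 (qsf 536870912 536870912 0 536870912 0) ndB0q1 ndB0q2 pcB0 cut_pm_102 xt_pm_102)

def k0_pm_102 : ∃ t, chk3 f_pm_102 t 2 2 1 = true :=
  ⟨(l 6), by decide +kernel⟩

def k1_pm_102 : ∃ t, chk3 f_pm_102 t 2 6 1 = true :=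
  ⟨(a (l 3) (l 6)), by decide +kernel⟩

def k2_pm_102 : ∃ t, chk3 f_pm_102 t 4 7 1 = true :=
  ⟨(a (l 6) (a (l 6) (b (l 6) (l 6)))), by decide +kernel⟩

def k3_pm_102 : ∃ t, chk3 f_pm_102 t 10 14 1 = true :=
  ⟨(l 6), by decide +kernel⟩

def k4_pm_102 : ∃ t, chk3 f_pm_102 t 20 30 1 = true :=
  ⟨(l 6), by decide +kernel⟩

def k5_pm_102 : ∃ t, chk3 f_pm_102 t 40 31 1 = true :=
  ⟨(a (b (l 6) (a (l 6) (b (l 6) (b (l 6) (c (l 30) (c (c (l 30) (a (b (l 6) (l 140551773266919471)) (b (l 140504150658121775) (l 140340323396468783)))) (c (a (l 139974598276890671) (l 139774899439222831)) (l 139217034627727407)))))))) (b (l 6) (b (l 6) (a (c (l 30) (b (a (l 6) (c (l 141012812246745135) (l 16331752))) (c (c (c (l 30) (a (l 140694366202511407) (l 140491231390154799))) (a (l 140219583251447855) (l 140024419899949103))) (a (l 139263007962578991) (l 139083856252289071))))) (c (c (l 30) (c (l 30) (a (l 30) (b (l 141148052263206959) (b (l 140929661727064111) (l 140781090191949871)))))) (c (b (a (l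 140461132250447919) (l 140276757858598959)) (a (c (b (l 140526553205112879) (l 140369804050874415)) (l 139836678253314095)) (c (l 140257791280889903) (l 139656083433570351)))) (c (b (l 16333872) (l 139135533304627247)) (l 16265928)))))))), by decide +kernel⟩

def k6_pm_102 : ∃ t, chk3 f_pm_102 t 41 31 1 = true :=
  ⟨(a (b (l 6) (b (b (a (l 6) (a (l 6) (c (l 142473925948489775) (l 16347768)))) (c (c (l 30) (a (a (l 141516388723114031) (l 141329884026732591)) (l 141242816397180975))) (c (a (l 140325961008414767) (l 16374496)) (a (l 16307304) (l 16279064))))) (c (c (l 30) (a (c (a (l 30) (a (l 30) (a (l 30) (b (l 141259102952898607) (l 140979689510633519))))) (b (a (l 140956805922226223) (l 140772362810720303)) (a (b (l 140736903557447727) (l 140587576107991087)) (l 140476387971792943)))) (b (a (l 140869532166406191) (l 140693816429985839)) (a (c (b (l 140934059767955503) (l 140791604267417647)) (l 140297098822123567)) (c (b (l 140752846472429615) (l 140609635057582127)) (l 140124269304463407))))))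 (b (c (a (a (l 140099117976715311) (l 139927937726824495)) (l 139683227622359087)) (a (l 16277448) (l 16249328))) (c (c (a (a (l 140074310242467887) (l 139897563714027567)) (l 139645294465826863)) (a (l 139398454065365039) (l 139076297095839791))) (a (l 138510185949691951) (l 16219304))))))) (a (b (l 6) (c (b (c (b (l 141985399228137519) (a (l 141831811171041327) (l 141654927202926639))) (b (l 16461392) (l 140726664341209135))) (c (c (l 30) (b (a (l 141318751464030255) (l 141143379324895279)) (a (b (l 141118983909523503) (l 141343421696475183)) (b (l 140942237380706351) (l 140805554317312047))))) (b (a (l 140524216728141871) (l 140360595621871663)) (c (a (l 140506280943058991) (l 140337437155655727)) (l 140057473924792367))))) (b (c (l 16358584) (l 16267328)) (c (b (l 139376601257066543) (l 139053963257266223)) (l 16208240))))) (b (b (l 6) (b (l 6) (c (l 141787693184729135) (l 16328504)))) (c (b (c (b (l 16538344) (l 141581122434531375)) (b (l 16431232) (l 140413166026276911)))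 (c (c (a (l 30) (b (l 141312291825483823) (b (l 141120427012341807) (l 140989928702984239)))) (b (l 140892003429367855) (a (b (l 140771606886449199) (l 140634236628221999)) (l 140538098059968559)))) (b (l 140306444627984431) (a (l 140089084886450223) (l 139755795394183215))))) (b (c (l 16331096) (l 16242616)) (c (b (l 16290480) (l 138768983531356207)) (l 16183960))))))), by decide +kernel⟩

def k7_pm_102 : ∃ t, chk3 f_pm_102 t 21 30 1 = true :=
  ⟨(a (l 6) (b (l 6) (b (l 6) (a (c (l 16443616) (l 16320680)) (c (l 16397784) (l 16282968)))))), by decide +kernel⟩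

def k8_pm_102 : ∃ t, chk3 f_pm_102 t 21 31 1 = true :=
  ⟨(b (b (a (a (l 6) (c (c (l 16484600) (l 16415720)) (l 16310760))) (c (a (c (l 16429992) (l 16365808)) (l 16372368)) (c (l 16280384) (l 16217144)))) (a (c (b (a (a (l 16489992) (l 16460224)) (l 16457928)) (a (a (l 141848716019859503) (l 16437472)) (c (l 16429544) (l 16355440)))) (a (a (l 16317504) (l 16292808)) (l 16256872))) (c (a (b (l 16404752) (c (l 16373160) (l 16304592))) (c (l 16335136) (l 16272496))) (c (l 16270376) (l 16162456))))) (a (c (a (b (a (c (b (l 16486504) (l 141261095767687215)) (b (l 16402896) (l 16378392))) (c (l 140869532146155567) (l 16361488))) (c (b (a (a (l 140900181045264431) (l 140743844204675119)) (l 140475013560221743)) (a (a (c (b (l 140953919687344175) (l 140822665463676975)) (l 140378875000979503)) (c (b (l 140792909921517615) (l 140660968503017519)) (l 140225012062191663))) (c (a (l 140545657197772847) (l 140355372930105391)) (l 139961885135142959)))) (a (b (l 139831799143907375) (a (l 139608117209579567)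 (l 139465455547727919))) (b (l 139517751074914351) (l 139223150626226223))))) (a (b (c (b (l 16422232) (l 140387258768146479)) (l 16332112)) (c (b (c (l 140350012805775407) (l 139892959482478639)) (c (l 140090390575317039) (l 139621586219466799))) (b (l 16294352) (l 138913019566555183)))) (c (b (b (l 16391864) (l 140067163382628399)) (b (l 139804861091627055) (c (l 139762529886109743) (l 139313310584750127)))) (b (l 16304696) (l 138778054483820591))))) (a (a (b (c (l 16305336) (l 16219504)) (c (b (l 16264872) (l 138504276054835247)) (l 16161344))) (c (b (l 16279152) (l 16225040)) (l 16167392))) (b (a (l 16213424) (l 16190816)) (c (c (l 16206896) (l 16166464)) (l 16105808))))) (c (c (b (a (b (l 16391792) (l 139642545649238063)) (b (l 16300032) (l 139147009400307759))) (a (a (b (l 139513627890139183) (l 139424292564254767)) (b (l 139244041327951919) (l 138972668065153071))) (b (l 138877422844313647) (c (l 138797502079057967) (l 138411710866341935))))) (a (b (l 138972255751782447)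 (b (l 138546813393649711) (l 138258878733975599))) (b (l 16222792) (l 137973005647347759)))) (c (a (b (l 16195776) (l 16142328)) (b (l 16157320) (l 16104984))) (a (l 16096240) (l 16064480)))))), by decide +kernel⟩

def k9_pm_102 : ∃ t, chk3 f_pm_102 t 11 7 1 = true :=
  ⟨(a (b (l 6) (a (b (a (b (l 6) (c (a (l 16389272) (l 16369888)) (l 16274952))) (b (c (c (l 16452888) (l 16409592)) (l 16342576)) (c (c (l 16366672) (l 16318704)) (l 16245400)))) (c (c (b (a (b (l 16337744) (l 16291640)) (l 16276472)) (a (b (l 138857081863503919) (b (l 138453423584886831) (l 138181431847616559))) (b (l 16207544) (l 137961185874083887)))) (b (b (l 16264640) (l 16216424)) (a (b (l 16184784) (l 16135640)) (b (l 16152352) (l 16104512))))) (b (a (l 16172384) (l 16145144)) (a (c (l 16099112) (l 16038320)) (c (l 16072560) (l 16017136)))))) (b (b (c (b (l 16404648) (l 16361624)) (c (l 16322984) (l 16281648))) (c (b (l 16317600) (l 16314808)) (c (l 16230048) (l 16185904)))) (b (c (a (c (l 16243088) (l 16194824))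 (l 16191944)) (c (l 16135368) (l 16088864))) (c (c (a (a (l 137998294389325871) (l 16145776)) (l 16126320)) (a (l 16101632) (l 16079592))) (b (l 16041008) (l 15994488))))))) (b (b (l 6) (a (b (l 6) (c (c (l 16427568) (l 16395744)) (l 16345864))) (b (a (l 6) (l 16405640)) (c (l 16366320) (l 16308336))))) (c (b (a (b (c (l 16346568) (l 16312160)) (c (l 16262752) (l 16225872))) (b (l 16286848) (l 16206160))) (a (b (a (l 16168856) (l 16149384)) (a (c (l 16104216) (l 16061688)) (l 16066720))) (b (l 16126248) (a (l 16054008) (l 16044392))))) (b (a (b (l 16259056) (l 16169848)) (b (l 16226184) (l 16143184))) (a (b (l 16080800) (a (l 15998968) (l 15990808))) (b (l 16061640) (l 15983976))))))), by decide +kernel⟩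

def k10_pm_102 : ∃ t, chk3 f_pm_102 t 3 2 1 = true :=
  ⟨(a (l 6) (a (l 6) (b (l 6) (b (l 6) (a (l 6) (b (l 6) (a (c (l 16595400) (l 16580512)) (l 16578104)))))))), by decide +kernel⟩

def k11_pm_102 : ∃ t, chk3 f_pm_102 t 6 3 1 = true :=
  ⟨(b (b (l 6) (a (b (l 6) (a (l 6) (l 6))) (a (b (l 6) (b (a (l 6) (l 16481920)) (a (l 16455496) (l 16436112)))) (b (b (l 6) (a (b (l 6) (l 16494312)) (l 16486792))) (a (l 16483880) (l 16428464)))))) (a (b (a (b (b (l 6) (a (l 6) (b (l 16432800) (l 16400376)))) (a (b (a (l 16387472) (l 16371048)) (a (l 16312296) (l 16297808))) (b (l 16391528) (a (l 16285216) (l 16274424))))) (b (a (c (l 16479800) (l 16400536)) (c (l 16412536) (l 16379616))) (a (b (l 16326536) (l 16261360)) (b (l 16309288) (l 16249088))))) (b (a (b (a (a (l 16234832) (l 16222928)) (c (l 16230304) (l 16187000))) (a (c (l 16178816) (l 16126288)) (c (l 16160680) (l 16117536)))) (b (a (l 16196192) (l 16189624)) (a (l 16153696) (l 16132512)))) (a (a (b (c (l 16105240) (l 16052424))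 (c (l 16035072) (l 15983288))) (c (b (l 16093616) (l 16030656)) (b (l 16051152) (l 15990288)))) (b (a (c (l 16089664) (l 16056520)) (l 16079368)) (a (c (l 16033744) (l 16003568)) (l 16074120)))))) (b (a (b (a (b (l 16404720) (l 16351776)) (c (l 16375944) (l 16351000))) (a (b (l 16297152) (l 16242192)) (b (l 16289792) (l 16240176)))) (a (b (l 16375080) (b (l 16287168) (l 16242872))) (b (l 16348696) (l 16185048)))) (a (b (a (b (l 16188432) (l 16137616)) (b (l 16192296) (l 16147664))) (a (b (l 16091320) (l 16072264)) (c (l 16094032) (l 16087584)))) (b (a (c (l 16122200) (l 16176664)) (c (l 16197288) (l 16195136))) (c (a (l 16114048) (l 16137112)) (a (l 16115272) (l 16137160)))))))), by decide +kernel⟩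

def k12_pm_102 : ∃ t, chk3 f_pm_102 t 7 3 1 = true :=
  ⟨(b (a (b (b (l 6) (a (a (l 6) (b (l 6) (b (l 6) (c (l 16528904) (l 16502888))))) (b (a (l 16542456) (b (l 16535920) (l 16563456))) (a (b (l 16560736) (l 16504632)) (l 16502728))))) (a (b (b (a (b (c (l 16528016) (l 16501048)) (l 16498176)) (l 16493488)) (a (l 16472712) (l 16462320))) (a (l 16419088) (l 16413552))) (b (a (l 16469688) (l 16464776)) (l 16432952)))) (b (a (b (a (c (l 16568672) (l 16549120)) (b (l 16561336) (a (l 16537440) (l 16553968)))) (a (b (b (l 16566840) (l 16513544)) (l 16497224)) (l 16514368))) (b (b (a (l 16551096) (c (l 16551168) (l 16575088))) (a (b (l 16532840) (l 16523672)) (l 16524752))) (c (l 16506528) (l 16494680)))) (a (b (a (l 16462648) (l 16462920)) (l 16419384)) (b (l 16466552) (l 16427792))))) (b (a (a (b (a (l 16326408) (l 16349912)) (a (l 16277144) (l 16288544))) (b (a (l 16355632) (l 16364024)) (a (l 16302568) (l 16294536)))) (a (b (l 16366712) (b (l 16302592) (l 16259112))) (b (l 16348016)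 (b (l 16286936) (l 16246528))))) (a (a (a (b (l 16130256) (c (l 16147320) (l 16129288))) (b (l 16199728) (b (l 16154528) (l 16112448)))) (b (b (l 16231664) (l 16187240)) (b (a (l 16147592) (l 16141080)) (a (l 16106176) (l 16100856))))) (b (a (b (l 16216088) (l 16090336)) (b (l 16207072) (l 16169088))) (a (b (c (l 16153352) (l 16113224)) (a (l 16097272) (l 16075040))) (c (a (l 16117368) (l 16122320)) (a (l 16089184) (l 16070184)))))))), by decide +kernel⟩

theorem s13_pm_102 : ∃ t, chk3 f_pm_102 t 3 3 1 = true := ex3_a k11_pm_102 k12_pm_102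

theorem s14_pm_102 : ∃ t, chk3 f_pm_102 t 3 1 1 = true := ex3_b k10_pm_102 s13_pm_102

theorem s15_pm_102 : ∃ t, chk3 f_pm_102 t 21 15 1 = true := ex3_b k7_pm_102 k8_pm_102

theorem s16_pm_102 : ∃ t, chk3 f_pm_102 t 20 31 1 = true := ex3_a k5_pm_102 k6_pm_102

theorem s17_pm_102 : ∃ t, chk3 f_pm_102 t 20 15 1 = true := ex3_b k4_pm_102 s16_pm_102

theorem s18_pm_102 : ∃ t, chk3 f_pm_102 t 10 15 1 = true := ex3_a s17_pm_102 s15_pm_102

theorem s19_pm_102 : ∃ t, chk3 f_pm_102 t 10 7 1 = true := ex3_b k3_pm_102 s18_pm_102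

theorem s20_pm_102 : ∃ t, chk3 f_pm_102 t 5 7 1 = true := ex3_a s19_pm_102 k9_pm_102

theorem s21_pm_102 : ∃ t, chk3 f_pm_102 t 2 7 1 = true := ex3_a k2_pm_102 s20_pm_102

theorem s22_pm_102 : ∃ t, chk3 f_pm_102 t 2 3 1 = true := ex3_b k1_pm_102 s21_pm_102

theorem s23_pm_102 : ∃ t, chk3 f_pm_102 t 2 1 1 = true := ex3_b k0_pm_102 s22_pm_102

theorem s24_pm_102 : ∃ t, chk3 f_pm_102 t 1 1 1 = true := ex3_a s23_pm_102 s14_pm_102

theorem c_pm_102 : CertB 536870912 536870912 0 536870912 923417968 42949674 3 eng mog cd0q1 cd0q2 pd0 false true false .npp 1 0 2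
    ndB0q1 ndB0q2 pcB0 cut_pm_102 xt_pm_102 :=
  certB2 (fam := false) (s1 := true) (s2 := false) (a := 1) (b := 0) (c := 2) (cn := .npp) (n1 := ndB0q1) (n2 := ndB0q2) (pc := pcB0) (cut := cut_pm_102) (xt := xt_pm_102) (P1 := 536870912) (W1 := 536870912) (P2 := 0) (W2 := 536870912) (P3 := 923417968) (W3 := 42949674) (N0 := 3) (En := eng) (mo := mog) (C1 := cd0q1) (C2 := cd0q2) (C3 := pd0)
    rfl (fun _ => rfl) s24_pm_102

noncomputable def cut_pm_112 : Cut := Cut.of [[⟨3, 0, 0, 1449551462⟩], [⟨4, 0, 0, 2845415833⟩]]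

noncomputable def f_pm_112 : ℕ → ℕ → ℕ → ℕ → Bool := onCell 536870912 536870912 0 536870912 923417968 42949674
    (rowB 3 eng mog cd0q1 cd0q2 pd1 0 false true false .dn 1 1 2 (qsf 536870912 536870912 0 536870912 1) ndB0q1 ndB0q2 pcB1 cut_pm_112 Ext.none)

def k0_pm_112 : ∃ t, chk3 f_pm_112 t 8 4 1 = true :=
  ⟨(a (a (b (l 6) (b (l 6) (b (l 6) (c (a (l 16338192) (l 16346592)) (l 16408568))))) (l 6)) (l 6)), by decide +kernel⟩

def k1_pm_112 : ∃ t, chk3 f_pm_112 t 8 5 2 = true :=
  ⟨(b (a (b (a (b (c (l 16291408) (l 16325016)) (c (l 16255656) (l 16291960))) (b (c (l 16308456) (l 16340696)) (c (l 16270728) (l 16305728)))) (a (b (c (l 16219744) (l 16258768)) (b (a (l 16210264) (l 16215272)) (a (l 16199560) (b (l 16201968) (l 16194168))))) (b (c (l 16232800) (l 16270600)) (c (l 16194600) (l 16235232))))) (b (a (b (l 6) (c (l 16288864) (l 16322352))) (l 6)) (a (b (c (l 16248896) (l 16285248)) (c (l 16208656) (l 16247904))) (b (c (l 16268080) (l 16302768)) (c (l 16225768) (l 16263416))))))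 (a (b (a (b (c (l 16174632) (l 16214904)) (l 16193576)) (a (b (b (b (l 16188976) (l 16184160)) (l 16182584)) (l 16183056)) (b (b (l 16189184) (b (l 16177936) (l 16175416))) (l 16175776)))) (a (b (l 16194384) (l 16195968)) (b (l 16180840) (l 16182952)))) (b (b (a (a (b (l 16195360) (b (l 16180800) (l 16172256))) (l 16192080)) (c (l 16183104) (l 16223744))) (b (a (a (l 16168840) (b (l 16167296) (l 16162168))) (a (l 16168160) (l 16175520))) (a (l 16164848) (a (b (a (l 16155880) (l 16155080)) (l 16153584)) (b (l 16159624) (a (l 16149624) (l 16150592))))))) (a (c (l 16149288) (l 16186736)) (b (a (l 16154920) (c (l 16127032) (l 16169664))) (l 16154160)))))), by decide +kernel⟩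

def k2_pm_112 : ∃ t, chk3 f_pm_112 t 8 5 3 = true :=
  ⟨(b (a (b (a (b (l 16379880) (l 16340720)) (c (l 16338312) (l 16376688))) (a (b (l 16311984) (b (l 16285224) (a (l 16288824) (l 16287968)))) (b (l 16321832) (l 16291080)))) (b (a (c (l 16365400) (l 16411848)) (l 6)) (a (b (c (l 16324192) (l 16365712)) (l 16309392)) (c (b (l 16339936) (l 16303752)) (b (l 16379576) (l 16346776)))))) (a (b (a (b (a (l 16281776) (l 16299584)) (l 16273008)) (b (b (a (b (l 16280232) (l 16275616)) (l 16280096)) (a (l 16271880) (l 16269240))) (c (l 16242504) (l 16288128)))) (b (a (l 16266896) (l 16259160)) (a (l 16261520) (l 16254056)))) (b (b (a (a (b (l 16284880) (b (l 16272672) (l 16265192))) (l 16281664)) (c (l 16267288) (l 16313728))) (a (b (a (l 16260640) (b (l 16260640) (l 16255704))) (l 16254592)) (b (a (l 16260904) (l 16266584)) (a (b (l 16250224) (l 16246928)) (b (l 16253144) (l 16245056)))))) (a (c (l 16226952) (l 16269952)) (b (c (l 16218368) (l 16266400)) (l 16236488)))))), by decide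 +kernel⟩

def k3_pm_112 : ∃ t, chk3 f_pm_112 t 9 4 1 = true :=
  ⟨(l 6), by decide +kernel⟩

def k4_pm_112 : ∃ t, chk3 f_pm_112 t 9 10 1 = true :=
  ⟨(b (l 6) (b (l 6) (a (a (c (c (a (l 16240656) (l 16251576)) (l 16281824)) (a (l 16336280) (l 16323680))) (l 6)) (l 6)))), by decide +kernel⟩

def k5_pm_112 : ∃ t, chk3 f_pm_112 t 18 11 1 = true :=
  ⟨(b (b (c (a (c (a (l 16196408) (l 16206248)) (l 16240088)) (c (a (l 16216896) (l 16228368)) (a (l 16254296) (l 16264704)))) (a (c (l 16281760) (l 16326208)) (a (l 16294480) (l 16313664)))) (c (a (c (a (l 16151696) (l 16160456)) (l 16197920)) (c (a (l 16170016) (l 16180376)) (a (l 16210536) (l 16219864)))) (a (c (l 16242896) (l 16290872)) (a (l 16255832) (l 16263504))))) (c (a (b (a (b (c (b (l 16123864) (l 16118576)) (b (l 16168080) (l 16162856))) (l 16139624)) (a (b (l 16145072) (l 16134320)) (b (l 16149240) (b (l 16112104) (l 16129832))))) (c (l 16118232) (l 16159184))) (a (b (b (l 16155504) (b (l 16138160) (a (c (l 16105680) (l 16150368))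 (l 16128488)))) (c (b (l 16104056) (l 16106320)) (l 16148576))) (b (c (l 16131760) (l 16174440)) (b (c (b (a (l 16099992) (l 16103240)) (a (l 16097096) (l 16094552))) (b (l 16146232) (l 16141056))) (l 16118304))))) (b (a (a (b (b (l 16240368) (l 16235248)) (l 16232096)) (b (c (l 16216224) (l 16266352)) (b (l 16187584) (l 16226264)))) (a (b (l 16247480) (b (l 16232688) (a (l 16223480) (l 16224136)))) (l 16223288))) (a (c (l 16203160) (l 16250144)) (b (a (l 16219696) (b (a (l 16217960) (l 16220376)) (l 16172000))) (l 16172192)))))), by decide +kernel⟩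

def k6_pm_112 : ∃ t, chk3 f_pm_112 t 19 11 1 = true :=
  ⟨(b (b (l 6) (a (a (c (c (l 16191560) (l 16229968)) (c (l 16271168) (l 16315152))) (a (b (l 6) (c (l 16206736) (l 16289048))) (l 6))) (l 6))) (c (a (b (c (a (l 16141808) (b (l 16165472) (l 16139832))) (a (l 16183424) (l 16193184))) (b (c (a (a (l 16101408) (l 16106400)) (l 16113976)) (a (l 16147688) (l 16156920))) (b (a (c (a (l 16090024) (b (l 16090368) (l 16086512))) (a (l 16134672) (l 16133536))) (c (l 16094424) (l 16138608))) (a (l 16089080) (c (a (b (l 16083584) (l 16082024)) (b (l 16087064) (l 16080984))) (a (l 16128136) (l 16128600))))))) (a (b (c (b (l 16177496) (l 16151264)) (l 16203736)) (c (b (l 16124808) (l 16098112)) (l 16154112))) (b (a (c (l 16173792) (l 16212192)) (l 6)) (c (b (l 16136504) (l 16109192)) (b (l 16177072) (l 16151432)))))) (a (b (a (c (l 16228080) (l 16275752)) (c (l 16236648) (l 16283056))) (b (a (c (l 16194920) (l 16245352)) (l 16227240)) (a (b (a (l 16207768) (l 16206848)) (l 16204640)) (b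 (l 16210952) (a (l 16201424) (l 16201728)))))) (b (a (c (l 16245944) (l 16291024)) (c (l 16255992) (l 16299680))) (a (c (l 16199864) (l 16248736)) (c (l 16208752) (l 16256256))))))), by decide +kernel⟩

def k7_pm_112 : ∃ t, chk3 f_pm_112 t 5 2 1 = true :=
  ⟨(a (b (l 6) (b (l 6) (b (l 6) (b (l 6) (l 1))))) (l 1)), by decide +kernel⟩

def k8_pm_112 : ∃ t, chk3 f_pm_112 t 2 6 1 = true :=
  ⟨(a (a (b (c (b (a (a (l 16199944) (l 16187640)) (a (l 16195400) (a (l 16163896) (l 16156584)))) (a (a (l 16208184) (l 16196624)) (a (l 16184176) (l 16170800)))) (a (b (a (l 16255008) (l 16247872)) (a (l 16249136) (l 16242240))) (b (b (a (l 16241616) (l 16232616)) (a (l 16238216) (l 16229408))) (a (l 16234504) (l 16225872))))) (a (c (b (l 16214344) (l 16228800)) (b (l 16243184) (l 16243288))) (c (b (a (l 16196600) (l 16183688)) (l 16204840)) (b (l 16227536) (l 16226696))))) (b (a (c (a (b (c (l 16127872) (l 16163144)) (l 16187920)) (b (b (c (l 16106872) (l 16146560)) (l 16131808)) (c (l 16126496)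 (l 16156352)))) (c (b (a (l 16201112) (l 16188864)) (a (l 16200480) (l 16188640))) (b (a (l 16241792) (l 16232312)) (l 16270080)))) (a (b (a (c (c (b (l 16093016) (l 16100784)) (l 16136432)) (b (l 16202720) (l 16200072))) (c (b (b (a (l 16105312) (c (l 16079832) (l 16123928))) (l 16105904)) (l 16110472)) (b (c (l 16173016) (l 16222136)) (l 16193864)))) (c (c (l 16109032) (l 16141104)) (b (l 16194912) (l 16193200)))) (b (a (b (b (a (b (c (c (b (l 16078792) (l 16075232)) (l 16122136)) (c (l 16170152) (l 16221440))) (c (l 16096824) (l 16191824))) (c (b (c (l 16080392) (l 16124800)) (c (b (a (l 16071792) (l 16071808)) (l 16070864)) (l 16116760))) (b (l 16197528) (l 16189896)))) (c (c (l 16075632) (l 16118640)) (l 16189152))) (c (c (l 16081888) (l 16121816)) (l 16187376))) (a (b (b (b (c (l 16107288) (l 16201360)) (l 1)) (l 1)) (l 1)) (l 1))) (l 1)))) (b (a (c (c (l 16152304) (l 16173240)) (a (l 16213448) (l 16202832))) (a (c (l 106332789527) (l 16191168)) (l 1))) (a (c (l 88079330263)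 (l 16206560)) (l 1))))) (l 1)), by decide +kernel⟩

def k9_pm_112 : ∃ t, chk3 f_pm_112 t 2 7 1 = true :=
  ⟨(a (b (a (b (a (l 16182104) (a (l 16207976) (l 16196264))) (a (l 16212344) (b (l 16207376) (l 16209688)))) (b (a (c (l 109017350711) (l 16205096)) (l 1)) (l 1))) (a (b (a (c (l 16271536) (l 16248824)) (l 78415644215)) (a (c (l 16166424) (l 16246432)) (l 1))) (l 1))) (l 1)), by decide +kernel⟩

def k10_pm_112 : ∃ t, chk3 f_pm_112 t 3 1 1 = true :=
  ⟨(l 1), by decide +kernel⟩

theorem s11_pm_112 : ∃ t, chk3 f_pm_112 t 2 3 1 = true := ex3_b k8_pm_112 k9_pm_112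

theorem s12_pm_112 : ∃ t, chk3 f_pm_112 t 9 11 1 = true := ex3_a k5_pm_112 k6_pm_112

theorem s13_pm_112 : ∃ t, chk3 f_pm_112 t 9 5 1 = true := ex3_b k4_pm_112 s12_pm_112

theorem s14_pm_112 : ∃ t, chk3 f_pm_112 t 9 2 1 = true := ex3_b k3_pm_112 s13_pm_112

theorem s15_pm_112 : ∃ t, chk3 f_pm_112 t 8 5 1 = true := ex3_c k1_pm_112 k2_pm_112

theorem s16_pm_112 : ∃ t, chk3 f_pm_112 t 8 2 1 = true := ex3_b k0_pm_112 s15_pm_112

theorem s17_pm_112 : ∃ t, chk3 f_pm_112 t 4 2 1 = true := ex3_a s16_pm_112 s14_pm_112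

theorem s18_pm_112 : ∃ t, chk3 f_pm_112 t 2 2 1 = true := ex3_a s17_pm_112 k7_pm_112

theorem s19_pm_112 : ∃ t, chk3 f_pm_112 t 2 1 1 = true := ex3_b s18_pm_112 s11_pm_112

theorem s20_pm_112 : ∃ t, chk3 f_pm_112 t 1 1 1 = true := ex3_a s19_pm_112 k10_pm_112

theorem c_pm_112 : CertB 536870912 536870912 0 536870912 923417968 42949674 3 eng mog cd0q1 cd0q2 pd1 false true false .dn 1 1 2
    ndB0q1 ndB0q2 pcB1 cut_pm_112 Ext.none :=
  certB0 (fam := false) (s1 := true) (s2 := false) (a := 1) (b := 1) (c := 2) (cn := .dn) (n1 := ndB0q1) (n2 := ndB0q2) (pc := pcB1) (cut := cut_pm_112) (xt := Ext.none) (P1 := 536870912) (W1 := 536870912) (P2 := 0) (W2 := 536870912) (P3 := 923417968) (W3 := 42949674) (N0 := 3) (En := eng) (mo := mog) (C1 := cd0q1) (C2 := cd0q2) (C3 := pd1)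
    rfl s20_pm_112

noncomputable def cut_pm_202 : Cut := Cut.of [[⟨3, 0, 0, 1449551462⟩], [⟨4, 0, 0, 2845415833⟩], [⟨0, 1, 0, 67108864⟩, ⟨1, 0, 0, 67108864⟩, ⟨2, 1, 0, 67108864⟩]]

noncomputable def f_pm_202 : ℕ → ℕ → ℕ → ℕ → Bool := onCell 0 536870912 0 536870912 923417968 42949674
    (rowB 3 eng mog cd0q2 cd0q2 pd0 0 false true false .pp 2 0 2 (qsf 0 536870912 0 536870912 0) ndB0q2 ndB0q2 pcB0 cut_pm_202 Ext.none)

def k0_pm_202 : ∃ t, chk3 f_pm_202 t 1 1 1 = true :=
  ⟨(l 6), by decide +kernel⟩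

theorem c_pm_202 : CertB 0 536870912 0 536870912 923417968 42949674 3 eng mog cd0q2 cd0q2 pd0 false true false .pp 2 0 2
    ndB0q2 ndB0q2 pcB0 cut_pm_202 Ext.none :=
  certB0 (fam := false) (s1 := true) (s2 := false) (a := 2) (b := 0) (c := 2) (cn := .pp) (n1 := ndB0q2) (n2 := ndB0q2) (pc := pcB0) (cut := cut_pm_202) (xt := Ext.none) (P1 := 0) (W1 := 536870912) (P2 := 0) (W2 := 536870912) (P3 := 923417968) (W3 := 42949674) (N0 := 3) (En := eng) (mo := mog) (C1 := cd0q2) (C2 := cd0q2) (C3 := pd0)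
    rfl k0_pm_202

noncomputable def cut_mm_001 : Cut := Cut.of [[⟨3, 0, 0, 1449551462⟩], [⟨4, 0, 0, 2845415833⟩]]

noncomputable def f_mm_001 : ℕ → ℕ → ℕ → ℕ → Bool := onCell 0 536870912 536870912 536870912 923417968 42949674
    (rowB 3 eng mog cd0q0 cd0q1 pd0 0 false false false .up 0 0 1 (qsf 0 536870912 536870912 536870912 0) ndB0q0 ndB0q1 pcB0 cut_mm_001 Ext.none)

def k0_mm_001 : ∃ t, chk3 f_mm_001 t 1 1 1 = true :=
  ⟨(l 6), by decide +kernel⟩

theorem c_mm_001 : CertB 0 536870912 536870912 536870912 923417968 42949674 3 eng mog cd0q0 cd0q1 pd0 false false false .up 0 0 1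
    ndB0q0 ndB0q1 pcB0 cut_mm_001 Ext.none :=
  certB0 (fam := false) (s1 := false) (s2 := false) (a := 0) (b := 0) (c := 1) (cn := .up) (n1 := ndB0q0) (n2 := ndB0q1) (pc := pcB0) (cut := cut_mm_001) (xt := Ext.none) (P1 := 0) (W1 := 536870912) (P2 := 536870912) (W2 := 536870912) (P3 := 923417968) (W3 := 42949674) (N0 := 3) (En := eng) (mo := mog) (C1 := cd0q0) (C2 := cd0q1) (C3 := pd0)
    rfl k0_mm_001

noncomputable def cut_mm_011 : Cut := Cut.of [[⟨3, 0, 0, 1449551462⟩], [⟨4, 0, 0, 2845415833⟩]]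

noncomputable def f_mm_011 : ℕ → ℕ → ℕ → ℕ → Bool := onCell 0 536870912 536870912 536870912 923417968 42949674
    (rowB 3 eng mog cd0q0 cd0q1 pd1 0 false false false .pnn 0 1 1 (qsf 0 536870912 536870912 536870912 1) ndB0q0 ndB0q1 pcB1 cut_mm_011 Ext.none)

def k0_mm_011 : ∃ t, chk3 f_mm_011 t 1 1 1 = true :=
  ⟨(l 6), by decide +kernel⟩

theorem c_mm_011 : CertB 0 536870912 536870912 536870912 923417968 42949674 3 eng mog cd0q0 cd0q1 pd1 false false false .pnn 0 1 1
    ndB0q0 ndB0q1 pcB1 cut_mm_011 Ext.none :=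
  certB0 (fam := false) (s1 := false) (s2 := false) (a := 0) (b := 1) (c := 1) (cn := .pnn) (n1 := ndB0q0) (n2 := ndB0q1) (pc := pcB1) (cut := cut_mm_011) (xt := Ext.none) (P1 := 0) (W1 := 536870912) (P2 := 536870912) (W2 := 536870912) (P3 := 923417968) (W3 := 42949674) (N0 := 3) (En := eng) (mo := mog) (C1 := cd0q0) (C2 := cd0q1) (C3 := pd1)
    rfl k0_mm_011

noncomputable def cut_mm_012 : Cut := Cut.of [[⟨3, 0, 0, 1449551462⟩], [⟨4, 0, 0, 2845415833⟩]]

noncomputable def f_mm_012 : ℕ → ℕ → ℕ → ℕ → Bool := onCell 0 536870912 0 536870912 923417968 42949674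
    (rowB 3 eng mog cd0q0 cd0q2 pd1 0 false false false .pnp 0 1 2 (qsf 0 536870912 0 536870912 1) ndB0q0 ndB0q2 pcB1 cut_mm_012 Ext.none)

def k0_mm_012 : ∃ t, chk3 f_mm_012 t 1 1 1 = true :=
  ⟨(l 5), by decide +kernel⟩

theorem c_mm_012 : CertB 0 536870912 0 536870912 923417968 42949674 3 eng mog cd0q0 cd0q2 pd1 false false false .pnp 0 1 2
    ndB0q0 ndB0q2 pcB1 cut_mm_012 Ext.none :=
  certB0 (fam := false) (s1 := false) (s2 := false) (a := 0) (b := 1) (c := 2) (cn := .pnp) (n1 := ndB0q0) (n2 := ndB0q2) (pc := pcB1) (cut := cut_mm_012) (xt := Ext.none) (P1 := 0) (W1 := 536870912) (P2 := 0) (W2 := 536870912) (P3 := 923417968) (W3 := 42949674) (N0 := 3) (En := eng) (mo := mog) (C1 := cd0q0) (C2 := cd0q2) (C3 := pd1)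
    rfl k0_mm_012

noncomputable def cut_mm_022 : Cut := Cut.of [[⟨3, 0, 0, 1449551462⟩], [⟨4, 0, 0, 2845415833⟩]]

noncomputable def f_mm_022 : ℕ → ℕ → ℕ → ℕ → Bool := onCell 0 536870912 0 536870912 923417968 42949674
    (rowB 3 eng mog cd0q0 cd0q2 pd2 0 false false false .pp 0 2 2 (qsf 0 536870912 0 536870912 2) ndB0q0 ndB0q2 pcB2 cut_mm_022 Ext.none)

def k0_mm_022 : ∃ t, chk3 f_mm_022 t 1 1 1 = true :=
  ⟨(l 5), by decide +kernel⟩

theorem c_mm_022 : CertB 0 536870912 0 536870912 923417968 42949674 3 eng mog cd0q0 cd0q2 pd2 false false false .pp 0 2 2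
    ndB0q0 ndB0q2 pcB2 cut_mm_022 Ext.none :=
  certB0 (fam := false) (s1 := false) (s2 := false) (a := 0) (b := 2) (c := 2) (cn := .pp) (n1 := ndB0q0) (n2 := ndB0q2) (pc := pcB2) (cut := cut_mm_022) (xt := Ext.none) (P1 := 0) (W1 := 536870912) (P2 := 0) (W2 := 536870912) (P3 := 923417968) (W3 := 42949674) (N0 := 3) (En := eng) (mo := mog) (C1 := cd0q0) (C2 := cd0q2) (C3 := pd2)
    rfl k0_mm_022

noncomputable def cut_mm_101 : Cut := Cut.of [[⟨3, 0, 0, 1449551462⟩], [⟨4, 0, 0, 2845415833⟩]]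

noncomputable def f_mm_101 : ℕ → ℕ → ℕ → ℕ → Bool := onCell 536870912 536870912 536870912 536870912 923417968 42949674
    (rowB 3 eng mog cd0q1 cd0q1 pd0 0 false false false .npn 1 0 1 (qsf 536870912 536870912 536870912 536870912 0) ndB0q1 ndB0q1 pcB0 cut_mm_101 Ext.none)

def k0_mm_101 : ∃ t, chk3 f_mm_101 t 1 1 1 = true :=
  ⟨(l 3), by decide +kernel⟩

theorem c_mm_101 : CertB 536870912 536870912 536870912 536870912 923417968 42949674 3 eng mog cd0q1 cd0q1 pd0 false false false .npn 1 0 1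
    ndB0q1 ndB0q1 pcB0 cut_mm_101 Ext.none :=
  certB0 (fam := false) (s1 := false) (s2 := false) (a := 1) (b := 0) (c := 1) (cn := .npn) (n1 := ndB0q1) (n2 := ndB0q1) (pc := pcB0) (cut := cut_mm_101) (xt := Ext.none) (P1 := 536870912) (W1 := 536870912) (P2 := 536870912) (W2 := 536870912) (P3 := 923417968) (W3 := 42949674) (N0 := 3) (En := eng) (mo := mog) (C1 := cd0q1) (C2 := cd0q1) (C3 := pd0)
    rfl k0_mm_101

noncomputable def cut_mm_102 : Cut := Cut.of [[⟨3, 0, 0, 1449551462⟩], [⟨4, 0, 0, 2845415833⟩]]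

noncomputable def f_mm_102 : ℕ → ℕ → ℕ → ℕ → Bool := onCell 536870912 536870912 0 536870912 923417968 42949674
    (rowB 3 eng mog cd0q1 cd0q2 pd0 0 false false false .npp 1 0 2 (qsf 536870912 536870912 0 536870912 0) ndB0q1 ndB0q2 pcB0 cut_mm_102 Ext.none)

def k0_mm_102 : ∃ t, chk3 f_mm_102 t 1 1 1 = true :=
  ⟨(a (l 5) (l 3)), by decide +kernel⟩

theorem c_mm_102 : CertB 536870912 536870912 0 536870912 923417968 42949674 3 eng mog cd0q1 cd0q2 pd0 false false false .npp 1 0 2
    ndB0q1 ndB0q2 pcB0 cut_mm_102 Ext.none :=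
  certB0 (fam := false) (s1 := false) (s2 := false) (a := 1) (b := 0) (c := 2) (cn := .npp) (n1 := ndB0q1) (n2 := ndB0q2) (pc := pcB0) (cut := cut_mm_102) (xt := Ext.none) (P1 := 536870912) (W1 := 536870912) (P2 := 0) (W2 := 536870912) (P3 := 923417968) (W3 := 42949674) (N0 := 3) (En := eng) (mo := mog) (C1 := cd0q1) (C2 := cd0q2) (C3 := pd0)
    rfl k0_mm_102

noncomputable def cut_mm_112 : Cut := Cut.of [[⟨3, 0, 0, 1449551462⟩], [⟨4, 0, 0, 2845415833⟩]]

noncomputable def f_mm_112 : ℕ → ℕ → ℕ → ℕ → Bool := onCell 536870912 536870912 0 536870912 923417968 42949674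
    (rowB 3 eng mog cd0q1 cd0q2 pd1 2 false false false .dn 1 1 2 (qsf 536870912 536870912 0 536870912 1) ndB0q1 ndB0q2 pcB1 cut_mm_112 Ext.none)

def k0_mm_112 : ∃ t, chk3 f_mm_112 t 1 1 1 = true :=
  ⟨(l 5), by decide +kernel⟩

theorem c_mm_112 : CertB 536870912 536870912 0 536870912 923417968 42949674 3 eng mog cd0q1 cd0q2 pd1 false false false .dn 1 1 2
    ndB0q1 ndB0q2 pcB1 cut_mm_112 Ext.none :=
  certB2 (fam := false) (s1 := false) (s2 := false) (a := 1) (b := 1) (c := 2) (cn := .dn) (n1 := ndB0q1) (n2 := ndB0q2) (pc := pcB1) (cut := cut_mm_112) (xt := Ext.none) (P1 := 536870912) (W1 := 536870912) (P2 := 0) (W2 := 536870912) (P3 := 923417968) (W3 := 42949674) (N0 := 3) (En := eng) (mo := mog) (C1 := cd0q1) (C2 := cd0q2) (C3 := pd1)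
    rfl (fun _ => rfl) k0_mm_112

noncomputable def cut_mm_202 : Cut := Cut.of [[⟨3, 0, 0, 1449551462⟩], [⟨4, 0, 0, 2845415833⟩]]

noncomputable def f_mm_202 : ℕ → ℕ → ℕ → ℕ → Bool := onCell 0 536870912 0 536870912 923417968 42949674
    (rowB 3 eng mog cd0q2 cd0q2 pd0 0 false false false .pp 2 0 2 (qsf 0 536870912 0 536870912 0) ndB0q2 ndB0q2 pcB0 cut_mm_202 Ext.none)

def k0_mm_202 : ∃ t, chk3 f_mm_202 t 1 1 1 = true :=
  ⟨(l 3), by decide +kernel⟩

theorem c_mm_202 : CertB 0 536870912 0 536870912 923417968 42949674 3 eng mog cd0q2 cd0q2 pd0 false false false .pp 2 0 2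
    ndB0q2 ndB0q2 pcB0 cut_mm_202 Ext.none :=
  certB0 (fam := false) (s1 := false) (s2 := false) (a := 2) (b := 0) (c := 2) (cn := .pp) (n1 := ndB0q2) (n2 := ndB0q2) (pc := pcB0) (cut := cut_mm_202) (xt := Ext.none) (P1 := 0) (W1 := 536870912) (P2 := 0) (W2 := 536870912) (P3 := 923417968) (W3 := 42949674) (N0 := 3) (En := eng) (mo := mog) (C1 := cd0q2) (C2 := cd0q2) (C3 := pd0)
    rfl k0_mm_202

end Pool.Agent.Strip051.G.I8600_9000.Tab.C.BB00

namespace Pool.Agent.Strip051.G.I8600_9000.Tab.C.BB01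

open Pool.Agent.Strip051.PB Pool.Agent.Strip051.PB.T
open Pool.Agent.Strip051.G.I8600_9000.Tab

noncomputable def f_pp_001 : ℕ → ℕ → ℕ → ℕ → Bool := onCell 0 536870912 536870912 536870912 923417968 42949674
    (rowB 3 eng mog cd0q0 cd1q1 pd0 0 false true true .up 0 0 1 (qsf 0 536870912 536870912 536870912 0) ndB0q0 ndB1q1 pcB0 Cut.none Ext.none)

def k0_pp_001 : ∃ t, chk3 f_pp_001 t 1 1 1 = true :=
  ⟨(l 3), by decide +kernel⟩

theorem c_pp_001 : CertB 0 536870912 536870912 536870912 923417968 42949674 3 eng mog cd0q0 cd1q1 pd0 false true true .up 0 0 1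
    ndB0q0 ndB1q1 pcB0 Cut.none Ext.none :=
  certB0 (fam := false) (s1 := true) (s2 := true) (a := 0) (b := 0) (c := 1) (cn := .up) (n1 := ndB0q0) (n2 := ndB1q1) (pc := pcB0) (cut := Cut.none) (xt := Ext.none) (P1 := 0) (W1 := 536870912) (P2 := 536870912) (W2 := 536870912) (P3 := 923417968) (W3 := 42949674) (N0 := 3) (En := eng) (mo := mog) (C1 := cd0q0) (C2 := cd1q1) (C3 := pd0)
    rfl k0_pp_001

noncomputable def f_pp_011 : ℕ → ℕ → ℕ → ℕ → Bool := onCell 0 536870912 536870912 536870912 923417968 42949674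
    (rowB 3 eng mog cd0q0 cd1q1 pd1 0 false true true .pnn 0 1 1 (qsf 0 536870912 536870912 536870912 1) ndB0q0 ndB1q1 pcB1 Cut.none Ext.none)

def k0_pp_011 : ∃ t, chk3 f_pp_011 t 1 1 1 = true :=
  ⟨(l 3), by decide +kernel⟩

theorem c_pp_011 : CertB 0 536870912 536870912 536870912 923417968 42949674 3 eng mog cd0q0 cd1q1 pd1 false true true .pnn 0 1 1
    ndB0q0 ndB1q1 pcB1 Cut.none Ext.none :=
  certB0 (fam := false) (s1 := true) (s2 := true) (a := 0) (b := 1) (c := 1) (cn := .pnn) (n1 := ndB0q0) (n2 := ndB1q1) (pc := pcB1) (cut := Cut.none) (xt := Ext.none) (P1 := 0) (W1 := 536870912) (P2 := 536870912) (W2 := 536870912) (P3 := 923417968) (W3 := 42949674) (N0 := 3) (En := eng) (mo := mog) (C1 := cd0q0) (C2 := cd1q1) (C3 := pd1)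
    rfl k0_pp_011

noncomputable def cut_pp_012_a : Cut := Cut.of [[⟨0, 0, 0, 67108864⟩, ⟨1, 1, 0, 67108864⟩, ⟨2, 1, 0, 67108864⟩]]

noncomputable def xt_pp_012_a : Ext := extD2 3 ⟨4, 1, 1, 5, 17, 5, 87, 100, 43, 100, 1, 8⟩ eng cd0q0 cd1q2a pd1 false true true .pnp 0 1 2 rfl ndB0q0 ndB1q2a pcB1

noncomputable def f_pp_012_a : ℕ → ℕ → ℕ → ℕ → Bool := onCell 536870912 536870912 0 536870912 923417968 42949674
    (rowB 3 eng mog cd0q0 cd1q2a pd1 2 false true true .pnp 0 1 2 (qsf 0 536870912 0 536870912 1) ndB0q0 ndB1q2a pcB1 cut_pp_012_a xt_pp_012_a)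

def k0_pp_012_a : ∃ t, chk3 f_pp_012_a t 2 1 1 = true :=
  ⟨(a (l 3) (l 3)), by decide +kernel⟩

def k1_pp_012_a : ∃ t, chk3 f_pp_012_a t 24 4 1 = true :=
  ⟨(b (a (l 3) (b (b (c (a (a (b (l 120426790551) (l 3)) (b (b (c (l 55465415239) (l 16749392)) (a (l 110763117927) (l 75329637127))) (l 122574272615))) (a (b (c (l 16733648) (l 16734184)) (a (b (l 77477120167) (l 123111139815)) (b (l 16736864) (l 87140795639)))) (b (l 16727464) (c (l 16743736) (l 16733776))))) (a (a (l 137069790327) (b (a (l 131164192375) (l 83919572759)) (l 135996044839))) (a (b (l 16724744) (a (l 137606642519) (l 126869217431))) (b (l 16729936) (l 16724312))))) (a (l 3) (a (l 3) (b (c (b (a (l 90362020167) (l 16736424)) (a (l 3) (l 93046373719))) (a (l 138680383623) (l 129016700039))) (l 3))))) (l 3))) (l 3)), by decide +kernel⟩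

def k2_pp_012_a : ∃ t, chk3 f_pp_012_a t 50 4 1 = true :=
  ⟨(b (b (c (a (b (a (b (l 16721232) (l 16727120)) (l 16739048)) (a (b (c (l 16743328) (l 16733368)) (b (a (l 95730727431) (l 16741216)) (a (l 3) (l 98415078119)))) (b (l 16737280) (c (c (l 16742808) (l 16743040)) (l 16743448))))) (b (a (l 16712168) (l 16706448)) (a (b (l 16720680) (l 16736952)) (b (l 16714760) (l 16720416))))) (a (b (a (l 16706240) (l 16722232)) (a (b (b (l 16733184) (l 16725120)) (l 136532890311)) (c (l 16741584) (l 16721712)))) (b (l 16715088) (a (l 16716104) (l 16721720))))) (a (b (a (l 3) (b (c (b (a (l 114521196055) (c (l 16740632) (l 16735672))) (a (l 3) (l 109689357271))) (l 137069760423)) (l 3))) (l 3)) (b (a (c (b (c (a (b (l 16732176) (l 62444723511)) (l 16730456)) (l 57076017239)) (a (b (l 110226227607) (l 3)) (b (c (l 64055335607) (l 16735224)) (l 108078745383)))) (b (a (l 16728376) (l 16732408)) (l 137069759703))) (c (a (b (l 16727680) (c (b (l 16731792) (l 65129076967)) (l 16744144))) (c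 (l 16737568) (l 16728032))) (b (l 16728640) (a (l 119889885831) (l 16732104))))) (b (a (l 3) (c (b (a (l 108615615751) (c (l 66202818151) (l 16734792))) (a (l 3) (l 109152486119))) (l 136532888135))) (l 3))))) (l 3)), by decide +kernel⟩

def k3_pp_012_a : ∃ t, chk3 f_pp_012_a t 51 4 1 = true :=
  ⟨(a (b (b (c (b (l 16698224) (a (l 16711800) (l 16706184))) (b (l 16706184) (l 16693760))) (c (b (a (c (l 16732848) (l 16744672)) (b (l 16714344) (l 16719904))) (a (b (c (a (b (l 16731416) (l 67276559511)) (l 16729728)) (a (l 67276560695) (l 16730448))) (a (l 110763097207) (b (a (l 83382686999) (l 64592203655)) (l 109689355991)))) (b (c (l 16724992) (l 16726112)) (a (b (l 16731320) (a (l 83919557447) (l 65665945063))) (a (l 16735720) (l 16728960)))))) (b (c (a (l 16725232) (l 16720176)) (l 16703728)) (a (b (a (l 119353014231) (l 16731816)) (l 135459145735)) (b (l 16728120) (a (l 118816142679) (l 16731544))))))) (b (b (b (a (l 3) (c (a (l 110226222679) (b (a (l 84456427895) (l 69424039559))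 (l 109689354999))) (l 133848532311))) (l 3)) (l 3)) (l 3))) (b (c (c (b (l 16691008) (b (l 16728336) (b (l 16736808) (a (l 16724664) (l 16718568))))) (b (l 16695144) (b (l 16710000) (a (l 16744136) (l 16717656))))) (b (l 16681064) (b (l 16693504) (a (b (l 16723352) (l 16727888)) (l 16700000))))) (b (b (c (a (b (c (b (l 16739552) (a (c (l 72645266087) (l 76403362375)) (l 16730448))) (a (l 69424042791) (l 16729784))) (a (l 109689356071) (b (c (c (l 73182136183) (l 76403361751)) (l 16738784)) (l 3)))) (b (c (l 16734808) (l 16725528)) (c (b (l 16735232) (a (c (l 73182135703) (l 76403361287)) (l 16730040))) (a (l 68887170791) (l 16729448))))) (b (a (l 116668651431) (l 16727680)) (a (l 131164177127) (l 115594909079)))) (a (l 3) (c (b (a (l 3) (b (c (c (l 73182135047) (l 76403360679)) (l 16738376)) (l 3))) (l 3)) (l 117205530247)))) (l 3)))), by decide +kernel⟩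

def k4_pp_012_a : ∃ t, chk3 f_pp_012_a t 12 5 1 = true :=
  ⟨(l 3), by decide +kernel⟩

def k5_pp_012_a : ∃ t, chk3 f_pp_012_a t 13 8 1 = true :=
  ⟨(a (c (a (b (a (l 16662184) (l 16673984)) (a (b (l 16677000) (c (l 16727984) (l 16709712))) (b (l 16688000) (l 16676848)))) (b (l 16619568) (a (b (l 16678712) (l 16688008)) (l 16674520)))) (b (a (l 16648648) (l 16656656)) (a (a (b (l 16705968) (l 16693312)) (l 16681104)) (c (l 16666920) (l 16673528))))) (c (a (b (l 16646976) (a (l 16666184) (l 16658328))) (b (l 16634576) (l 16647536))) (a (c (l 16646984) (l 16677584)) (l 16662584)))), by decide +kernel⟩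

def k6_pp_012_a : ∃ t, chk3 f_pp_012_a t 52 9 1 = true :=
  ⟨(b (c (c (a (b (a (c (l 16731272) (l 16742456)) (l 16736160)) (a (a (b (b (l 16729832) (c (l 72645263479) (l 75866489303))) (l 3)) (b (l 16733424) (b (c (l 72645262983) (l 75329617767)) (l 3)))) (b (l 16734088) (a (b (l 16729400) (c (l 71571520647) (l 74792746391))) (l 43654230887))))) (b (l 16727568) (a (c (l 16730552) (l 16741800)) (l 16735560)))) (b (a (a (l 16733112) (l 16717208)) (l 16709400)) (a (a (b (a (l 67813427879) (l 16729112)) (l 103783772743)) (b (l 16724928) (a (l 66739684967) (l 16728760)))) (a (l 16732552) (l 16716744))))) (b (a (a (b (l 16723008) (l 16706504)) (l 16699720)) (l 16693176)) (a (a (b (l 113984295847) (l 112910559431)) (c (l 109152448711) (l 16719736))) (c (b (l 16719208) (l 16713304)) (l 16702904))))) (a (a (l 3) (b (c (b (a (l 3) (c (b (c (l 71571519991) (l 74255874855)) (l 3)) (l 79087717687))) (l 3)) (l 109689336551)) (l 3))) (a (b (c (b (c (a (b (l 16728952) (c (l 70497777575) (l 73719003479)))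 (l 43117359095)) (a (l 64592200567) (l 16728408))) (a (l 3) (c (c (l 88751379303) (l 90898866279)) (l 76403362183)))) (b (l 111299940039) (l 105931236631))) (l 3)) (b (c (c (b (l 16733296) (a (b (l 16728488) (c (l 69960905543) (l 72645260551))) (l 43117358183))) (b (l 16724296) (a (l 62981586727) (l 16728040)))) (c (l 105931222247) (l 16719432))) (b (c (a (l 3) (c (b (l 68350293991) (l 3)) (l 74255877575))) (l 102173139799)) (l 3)))))), by decide +kernel⟩

def k7_pp_012_a : ∃ t, chk3 f_pp_012_a t 53 9 1 = true :=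
  ⟨(c (c (b (a (b (l 16695760) (l 16727096)) (b (l 16685616) (l 16695456))) (a (b (a (b (l 16716936) (l 16732872)) (l 16734888)) (a (b (a (b (l 16728000) (l 67813422583)) (l 42043615399)) (a (l 3) (b (l 67276550983) (l 3)))) (b (l 16732432) (a (b (l 16727504) (l 66739679559)) (l 16731136))))) (b (a (l 16708328) (l 16702888)) (a (c (l 16728872) (l 16740288)) (l 16734128))))) (b (a (b (l 16699592) (l 16709064)) (l 16673992)) (b (a (a (l 16731960) (l 16716240)) (l 16687712)) (a (a (b (a (l 61370972871) (l 16727664)) (l 95730705991)) (b (l 16723624) (a (l 58686617511) (l 16727272)))) (a (l 16731312) (l 16715656)))))) (b (a (c (l 16687104) (l 16691152)) (l 16681304)) (b (a (c (b (l 16718880) (l 16712880)) (l 16702720)) (l 16713904)) (a (a (c (l 108078715159) (l 111299944823)) (c (l 100562512407) (l 16719136))) (c (a (l 16702080) (l 16718424)) (l 16702512)))))), by decide +kernel⟩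

def k8_pp_012_a : ∃ t, chk3 f_pp_012_a t 27 9 1 = true :=
  ⟨(c (a (b (a (b (l 16678848) (l 16687744)) (l 16653432)) (a (b (a (l 16699440) (l 16694472)) (c (a (l 16707568) (l 16702096)) (l 16687096))) (b (l 16687216) (a (l 16698688) (l 16693688))))) (b (a (l 16665984) (l 16658128)) (a (b (l 16678000) (l 16686424)) (l 16652336)))) (b (a (a (l 16673968) (l 16666992)) (l 16678272)) (a (a (b (l 16684888) (l 16713552)) (l 16670360)) (a (l 16673312) (l 16666216))))), by decide +kernel⟩

def k9_pp_012_a : ∃ t, chk3 f_pp_012_a t 26 10 1 = true :=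
  ⟨(a (l 3) (b (b (a (a (l 3) (a (l 3) (c (b (c (l 85530153799) (l 68350296263)) (l 3)) (l 108615594087)))) (c (c (a (b (a (a (l 53854777687) (l 47412324487)) (l 16725384)) (c (l 86067025239) (l 87677638999))) (b (l 16721000) (a (b (l 16726448) (l 61370968311)) (l 16724816)))) (a (b (l 94656938151) (l 90898866183)) (b (l 16722864) (l 92509453607)))) (a (b (l 99488777143) (l 105931238087)) (c (l 95193801783) (l 16718760))))) (b (a (l 3) (a (l 3) (a (l 3) (c (c (l 57612876647) (l 59223489975)) (l 102173141943))))) (l 3))) (l 3))), by decide +kernel⟩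

def k10_pp_012_a : ∃ t, chk3 f_pp_012_a t 54 10 1 = true :=
  ⟨(a (a (b (b (c (c (b (l 16715224) (l 16720408)) (l 16730488)) (c (l 16701448) (l 16704128))) (b (c (c (a (l 42580488087) (l 16724160)) (l 89825097975)) (l 93046324375)) (c (a (l 3) (l 96804425367)) (l 99488785175)))) (l 3)) (b (b (c (c (l 16712096) (l 16714776)) (l 16719320)) (c (b (c (l 16719736) (l 16721792)) (c (a (l 39359261191) (l 16723408)) (l 86603871239))) (c (l 88751349015) (l 16718064)))) (b (b (c (a (l 3) (l 93046327255)) (l 96267558439)) (l 3)) (l 3)))) (b (c (b (c (a (l 16706480) (l 16700984)) (l 16686160)) (a (c (l 16726944) (l 16729304)) (b (l 16709728) (l 16703960)))) (b (l 16691896) (a (b (l 16699872) (l 16703848)) (l 16697408)))) (a (b (b (c (c (a (l 37211775287) (l 16722576)) (l 83919515399)) (l 86603870855)) (c (a (l 3) (l 88751358199)) (l 92509460247))) (l 3)) (b (b (c (c (l 16718128) (l 16720368)) (l 16703240)) (c (c (a (l 16724544) (l 16721656)) (l 80161417575)) (l 83382643815))) (b (c (a (l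 49559814615) (l 84993259895)) (l 88214491303)) (l 3)))))), by decide +kernel⟩

def k11_pp_012_a : ∃ t, chk3 f_pp_012_a t 55 10 1 = true :=
  ⟨(a (c (b (b (a (l 16697640) (l 16692632)) (c (l 16723280) (l 16684904))) (b (a (c (l 16725256) (l 16727784)) (b (l 16708184) (l 16702264))) (a (b (a (b (l 16723328) (l 16730848)) (l 16732136)) (a (l 42043620535) (l 76403323703))) (b (c (l 16716200) (l 16718616)) (c (l 17884419863) (l 16733528)))))) (a (b (b (l 16706648) (l 16693040)) (b (b (l 16698696) (l 16702544)) (c (l 82845773303) (l 86603875655)))) (b (l 16685264) (b (l 16696136) (b (l 16701760) (l 77477059847)))))) (c (b (b (l 16685376) (a (l 16696312) (l 16691320))) (c (b (l 16721608) (a (l 16723264) (l 16707088))) (b (l 16688616) (a (l 16725960) (l 16710248))))) (b (b (l 16675816) (l 16682584)) (b (a (l 16691736) (l 16687480)) (a (b (l 16697192) (l 16700912)) (l 16694592)))))), by decide +kernel⟩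

def k12_pp_012_a : ∃ t, chk3 f_pp_012_a t 13 11 1 = true :=
  ⟨(b (a (l 3) (a (l 3) (a (a (l 3) (b (b (c (a (l 36674910263) (c (l 16734656) (l 16725976))) (l 80161423383)) (l 3)) (l 3))) (b (a (b (c (c (l 16730400) (l 16722016)) (l 74255832567)) (c (a (l 32379941239) (c (l 16723072) (l 16724952))) (l 75866453975))) (b (c (c (l 16714096) (l 16716664)) (l 16700056)) (c (a (l 16810677127) (l 16718512)) (l 71034605335)))) (a (l 3) (b (c (c (l 22716258519) (l 21642522599)) (l 72108355687)) (l 3))))))) (l 3)), by decide +kernel⟩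

def k13_pp_012_a : ∃ t, chk3 f_pp_012_a t 6 3 1 = true :=
  ⟨(l 3), by decide +kernel⟩

def k14_pp_012_a : ∃ t, chk3 f_pp_012_a t 7 4 1 = true :=
  ⟨(b (a (a (a (c (l 16588160) (l 16654504)) (c (l 16601240) (l 16649208))) (a (l 16569736) (l 16633800))) (a (a (l 16631808) (l 16607080)) (a (l 16577272) (l 16541352)))) (a (b (a (a (c (l 16626504) (l 16667096)) (l 16586752)) (a (l 16599104) (l 16638600))) (a (a (c (b (l 16636472) (l 16633088)) (l 16677520)) (c (l 16626632) (l 16667184))) (a (c (l 16617232) (l 16660488)) (l 16602376)))) (a (a (b (l 16639616) (l 16642904)) (l 16585640)) (a (l 16578824) (l 16534248))))), by decide +kernel⟩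

def k15_pp_012_a : ∃ t, chk3 f_pp_012_a t 56 5 1 = true :=
  ⟨(a (b (c (b (b (l 16676240) (l 16663200)) (b (a (l 16694800) (l 16689952)) (a (b (l 16701176) (l 16705520)) (l 16677320)))) (b (l 16671712) (b (l 16681384) (a (l 16690296) (l 16686176))))) (b (c (c (b (a (l 16721272) (l 16705280)) (a (b (l 16717800) (l 20031904471)) (b (l 16712144) (l 16716808)))) (b (a (l 16713624) (l 16708576)) (a (b (l 16720048) (l 19495036727)) (l 6073258327)))) (b (a (a (l 16709040) (l 16696352)) (l 16703616)) (a (b (l 68350249079) (l 68887128359)) (b (l 16698472) (l 65665892887))))) (b (a (l 3) (b (c (a (l 16724592) (l 16721024)) (l 65129030327)) (l 3))) (l 3)))) (b (c (b (b (l 16667880) (l 16675328)) (b (l 16662096) (a (l 16693432) (l 16688784)))) (b (l 16685824) (b (l 16673912) (l 16680336)))) (b (c (b (a (c (l 16699984) (l 16703720)) (l 16675968)) (a (c (l 16708984) (l 16711952)) (b (l 16703200) (l 16707472)))) (b (a (l 16689000) (l 16685048)) (a (a (l 16707536) (l 16694928)) (l 16697088))))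 (c (c (b (a (b (l 16715872) (l 16730880)) (l 16723208)) (a (l 21105638919) (b (l 16719528) (l 16723904)))) (b (a (b (l 16718256) (l 16722456)) (l 16725848)) (a (b (l 16726560) (l 3)) (b (l 16721640) (l 16725800))))) (b (a (c (l 58149701927) (l 61907803431)) (b (l 16697056) (l 16711104))) (a (l 64055293783) (b (l 58686575351) (l 57612842615)))))))), by decide +kernel⟩

def k16_pp_012_a : ∃ t, chk3 f_pp_012_a t 57 5 1 = true :=
  ⟨(a (b (c (b (l 16642976) (b (l 16674656) (l 16661240))) (b (l 16679760) (b (l 16667208) (l 16673216)))) (b (c (b (a (l 16692288) (l 16687856)) (a (b (l 16698392) (l 16702552)) (l 16695832))) (b (l 16679480) (a (l 16687888) (l 16684128)))) (c (b (a (b (l 16706776) (l 16711056)) (b (l 16701968) (l 16706152))) (a (b (l 16715400) (c (l 16718720) (l 16720872))) (b (l 16710392) (l 16714696)))) (b (a (a (l 16695728) (l 16693704)) (l 16690760)) (a (b (l 16710432) (l 47949155383)) (b (l 16716824) (l 16709816))))))) (b (c (b (l 16657168) (b (l 16667152) (l 16674248)))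 (b (l 16674528) (l 16685136))) (c (b (b (l 16660656) (a (l 16691408) (l 16687216))) (b (a (l 16688952) (l 16695024)) (a (b (l 16705600) (l 16709800)) (b (l 16701032) (l 16705136))))) (b (b (l 16672760) (l 16678864)) (b (a (l 16687008) (l 16683464)) (a (b (l 16712936) (l 16716320)) (l 16689936))))))), by decide +kernel⟩

def k17_pp_012_a : ∃ t, chk3 f_pp_012_a t 29 5 1 = true :=
  ⟨(c (a (b (b (a (l 16651368) (l 16646616)) (a (l 16643016) (l 16637272))) (b (a (b (l 16674152) (l 16660392)) (b (l 16667704) (l 16674456))) (a (a (b (l 16690856) (l 16698720)) (b (l 16686920) (l 16694568))) (b (l 16660536) (a (l 16690672) (l 16687016)))))) (b (b (l 16641016) (b (l 16627344) (l 16632728))) (b (a (l 16633808) (l 16638928)) (a (b (l 16674928) (l 16660840)) (a (l 16652656) (l 16649648)))))) (b (a (b (l 16668464) (a (l 16679896) (l 16675576))) (b (l 16662944) (l 16649352))) (a (b (a (b (l 16687848) (l 16672576)) (l 16654136)) (a (b (l 16678528) (a (l 16686408) (l 16683088))) (b (l 16672752)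 (b (l 16677048) (l 16680008))))) (b (a (l 16681112) (l 16676992)) (a (b (l 16688600) (l 16673024)) (b (l 16683808) (l 16688768))))))), by decide +kernel⟩

def k18_pp_012_a : ∃ t, chk3 f_pp_012_a t 15 5 1 = true :=
  ⟨(a (a (b (b (l 16585000) (a (l 16613648) (l 16632704))) (c (b (a (l 16634344) (l 16651832)) (a (b (l 16663464) (l 16669376)) (l 16640984))) (b (a (l 16673536) (l 16671056)) (a (l 16660992) (l 16678504))))) (b (b (l 16623128) (a (l 16653144) (l 16650080))) (b (a (l 16617576) (l 16617616)) (a (b (l 16644144) (l 16648368)) (c (l 16657384) (l 16669648)))))) (b (a (a (b (l 16624744) (l 16637144)) (l 16553256)) (b (l 16563616) (c (l 16606416) (l 16566984)))) (a (a (b (l 16629400) (b (l 16639960) (l 16647384))) (b (l 16615240) (b (l 16646824) (l 16633176)))) (b (a (l 16598992) (l 16559496)) (a (c (l 16641624) (l 16605000)) (c (l 16602024) (l 16606504))))))), by decide +kernel⟩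

def k19_pp_012_a : ∃ t, chk3 f_pp_012_a t 28 6 1 = true :=
  ⟨(b (a (l 3) (b (b (a (a (c (b (l 16731960) (l 3)) (l 53854742855)) (c (c (l 16720224) (l 16724936)) (b (l 42580444967) (l 49559776007)))) (c (b (a (l 16714064) (l 16709296)) (a (l 16718392) (l 16713520))) (a (b (l 16719752) (l 37211734663)) (c (l 16715952) (l 16719312))))) (a (l 3) (a (a (l 3) (c (l 16723800) (l 45264806983))) (c (b (l 16717824) (l 16722256)) (b (l 16712296) (l 16716144)))))) (l 3))) (l 3)), by decide +kernel⟩

def k20_pp_012_a : ∃ t, chk3 f_pp_012_a t 29 12 1 = true :=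
  ⟨(a (b (c (a (a (b (l 16712080) (c (l 16714024) (l 16716488))) (b (l 16702488) (l 16713288))) (b (a (l 16698376) (l 16694520)) (a (l 16706352) (l 16702288)))) (a (b (a (c (l 16712016) (l 16715832)) (l 16689408)) (a (c (l 16719192) (l 16722136)) (c (l 16715256) (l 16718656)))) (b (a (l 16686128) (l 16683064)) (a (l 16702968) (l 16689240))))) (a (b (a (b (c (l 16721784) (l 68350254343)) (l 3)) (c (b (l 16716944) (l 16731880)) (b (l 40969829351) (c (l 16724592) (l 16726984))))) (l 3)) (a (b (c (b (l 16712480) (l 16716664)) (b (l 16718336) (c (l 16720352) (l 16723088)))) (b (a (c (l 16722296) (l 16729104)) (c (l 16719864) (l 24863733879))) (l 3))) (b (c (b (l 16708264) (l 16712352)) (c (l 16714944) (l 16707856))) (c (b (l 16726992) (c (l 16719960) (l 16732392))) (b (c (l 16720184) (l 16722920)) (c (l 22716246615) (a (l 16727360) (l 16725336))))))))) (b (a (b (c (a (l 16690816) (l 16687184)) (a (l 16680128) (l 16677224))) (c (a (l 16698384) (l 16694528)) (a (l 16686120) (l 16683016))))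 (b (c (l 16660976) (l 16673024)) (c (a (l 16690784) (l 16687176)) (b (l 16677080) (l 16679888))))) (c (a (b (a (b (l 16704208) (l 16708192)) (l 16723128)) (a (b (l 16712240) (c (l 16715248) (l 16717528))) (b (l 16708032) (l 16712048)))) (b (a (l 16698192) (l 16694368)) (a (b (l 16703904) (l 16707824)) (b (l 16699920) (l 16703728))))) (a (b (a (b (l 16711704) (l 16714864)) (b (l 16708464) (l 16711528))) (b (a (c (l 16716536) (l 16719696)) (a (l 16715512) (l 16713808))) (a (c (l 16720024) (l 16722744)) (c (l 16716304) (l 16719440))))) (b (a (l 16691064) (l 16682696)) (a (b (l 16711288) (a (l 16715240) (l 16713528))) (c (l 16707504) (l 16701160)))))))), by decide +kernel⟩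

def k21_pp_012_a : ∃ t, chk3 f_pp_012_a t 58 13 1 = true :=
  ⟨(b (b (b (b (a (l 3) (a (l 3) (a (l 3) (c (l 16723152) (l 16727120))))) (l 3)) (l 3)) (l 3)) (l 3)), by decide +kernel⟩

def k22_pp_012_a : ∃ t, chk3 f_pp_012_a t 59 26 1 = true :=
  ⟨(a (b (c (b (a (a (l 13589449383) (l 16729968)) (c (l 16715032) (l 16717288))) (a (c (l 16724712) (l 16726384)) (c (a (l 16720720) (l 16718240)) (a (l 16722528) (l 16720192))))) (a (a (b (c (l 16735352) (l 16727912)) (l 3)) (b (c (l 16722680) (l 16725064)) (c (l 16732184) (l 20568772119)))) (b (c (l 16719768) (b (l 16721688) (l 16723208))) (c (a (b (l 16723416) (l 16725536)) (l 16732824)) (a (c (l 16723520) (l 32916797255)) (b (l 16723880) (l 16725456))))))) (a (l 3) (a (l 3) (b (b (c (l 16722560) (a (l 16732152) (l 11441957239))) (l 3)) (l 3))))) (a (a (b (c (b (l 16712880) (l 16727448)) (b (l 16728896) (c (l 16720392) (l 16728176)))) (b (c (b (l 16720072) (l 9831348871)) (c (b (l 16723024) (l 16725064)) (b (l 16730472) (l 10905087527))))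 (l 3))) (b (c (b (l 16710744) (l 16725264)) (b (l 16716656) (c (l 16718488) (l 16721232)))) (b (c (c (l 16717944) (l 16719856)) (c (l 16727200) (b (l 16723472) (l 16730240)))) (b (c (l 29158685735) (c (l 16730056) (a (l 16727336) (l 16731416)))) (l 3))))) (b (c (b (l 16707608) (c (l 16710296) (l 16712880))) (b (a (l 16714920) (l 16713224)) (c (l 16726176) (l 16719712)))) (c (b (c (l 16725008) (a (l 16717744) (l 16715672))) (c (a (l 16730544) (l 16717672)) (a (b (l 16720664) (l 16722792)) (l 16719528)))) (b (c (a (l 16720032) (l 16718144)) (a (b (l 16721768) (l 16723264)) (l 16726072))) (c (a (c (l 16720200) (l 17884401511)) (b (l 16720704) (l 16722440))) (a (b (l 16730016) (a (l 16729640) (l 16731152))) (b (l 16723048) (l 16729792))))))))), by decide +kernel⟩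

def k23_pp_012_a : ∃ t, chk3 f_pp_012_a t 59 27 1 = true :=
  ⟨(b (b (a (l 3) (a (l 3) (b (c (c (l 9294460695) (a (l 16725240) (l 16722584))) (a (c (l 16726872) (l 16727360)) (c (a (l 16724856) (l 16723712)) (a (l 4999504791) (l 16730888))))) (a (l 3) (a (l 3) (c (l 16723520) (c (l 16725864) (l 16725008)))))))) (l 3)) (l 3)), by decide +kernel⟩

def k24_pp_012_a : ∃ t, chk3 f_pp_012_a t 14 7 1 = true :=
  ⟨(l 3), by decide +kernel⟩

def k25_pp_012_a : ∃ t, chk3 f_pp_012_a t 30 12 1 = true :=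
  ⟨(a (b (a (b (a (l 16651936) (l 16649296)) (c (l 16661176) (l 16693976))) (c (a (l 16653712) (l 16651264)) (b (l 16684768) (l 16689368)))) (b (a (c (a (l 16690728) (l 16687320)) (a (l 16679728) (l 16676960))) (c (a (l 16684184) (l 16681376)) (a (l 16674440) (l 16693176)))) (a (c (a (b (l 16696112) (l 16699808)) (l 16710080)) (a (b (l 16704904) (l 16707800)) (a (l 16683152) (l 16681720)))) (a (c (l 16690984) (a (l 16680352) (l 16679056))) (c (l 16687888) (l 16682440)))))) (b (a (c (a (l 16649184) (l 16647504)) (b (l 16681880) (l 16686032))) (c (l 16656256) (b (l 16680608) (l 16684280)))) (a (c (b (l 16656816) (a (l 16685248) (l 16683056))) (b (l 16669448) (c (l 16671336) (l 16698248)))) (c (b (l 16653800) (b (l 16679192) (l 16661416))) (b (l 16688416) (a (l 16693352) (l 16692848))))))), by decide +kernel⟩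

def k26_pp_012_a : ∃ t, chk3 f_pp_012_a t 60 26 1 = true :=
  ⟨(a (b (c (a (b (l 16703584) (c (l 16706000) (l 16708928))) (b (l 16699784) (l 16703528))) (a (b (a (l 16711568) (l 16709952)) (a (l 16714608) (l 16712952))) (b (c (l 16705560) (l 16709776)) (a (l 16711336) (l 16709784))))) (c (b (a (c (l 16710112) (l 16723128)) (c (l 16705928) (l 16708784))) (a (c (a (l 16715416) (l 16713208)) (a (l 16717456) (l 16715416))) (c (l 16720528) (a (l 16713456) (l 16711576))))) (a (b (c (l 16714080) (b (l 16717640) (l 16724320))) (c (a (l 16724928) (l 16728312)) (a (a (l 16727768) (l 16721688)) (b (l 16719720) (l 16721176))))) (b (c (l 16706640) (l 16716536)) (c (b (l 16714336) (l 16726504)) (b (l 16727832) (l 600994776981600914927423))))))) (b (c (b (a (l 16696256) (l 16693040)) (a (l 16699880) (l 16696616))) (a (b (l 16694264) (c (l 16705536) (l 16709664))) (c (l 16701272) (l 16695448)))) (c (b (a (c (l 16702064) (l 16705248)) (l 16700328)) (a (c (l 16706144) (l 16719416)) (c (l 16702704)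 (l 16705816)))) (a (b (a (l 16711216) (l 16709784)) (c (l 16709336) (b (l 16714472) (l 16715944)))) (b (c (l 16705872) (l 16709896)) (a (l 16714176) (l 16710368))))))), by decide +kernel⟩

def k27_pp_012_a : ∃ t, chk3 f_pp_012_a t 120 54 1 = true :=
  ⟨(c (b (a (c (a (b (l 16718616) (l 16720856)) (l 16717480)) (a (b (l 16720344) (l 16717800)) (b (l 16718288) (l 16720248)))) (c (a (l 16715320) (l 16713280)) (a (l 16727784) (l 16715432)))) (a (c (a (l 15200045223) (b (l 16720800) (l 16723368))) (a (b (l 16724792) (l 3)) (b (l 16717392) (l 16720136)))) (c (a (b (l 16718624) (l 16720904)) (l 16728208)) (a (b (l 16720296) (l 16717304)) (b (l 16718432) (l 16720496)))))) (a (a (b (c (b (l 16722248) (a (l 16724600) (l 16723528))) (b (a (l 16724760) (l 16723904)) (a (b (l 16725912) (l 16726864)) (l 16730664)))) (a (l 3) (b (c (l 16725632) (l 8757602263)) (l 3)))) (b (b (c (l 16720384) (l 16722656)) (c (l 16722128) (a (l 16724576) (l 16723760)))) (c (b (a (l 16724448) (l 16723464)) (a (l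 16726848) (l 16725552))) (b (a (b (l 16725744) (l 16726656)) (l 16725328)) (a (l 16728464) (l 8757601751)))))) (b (c (a (b (l 16718584) (l 16720344)) (l 16728256)) (a (c (l 16721208) (l 16727680)) (b (l 16719536) (l 16721080)))) (c (a (b (l 16722144) (a (l 16724456) (l 16723560))) (b (l 16720456) (l 16722312))) (a (b (a (l 16724536) (l 16723768)) (c (l 16730576) (c (l 16726032) (l 16731752)))) (b (l 16722664) (l 16729528))))))), by decide +kernel⟩

def k28_pp_012_a : ∃ t, chk3 f_pp_012_a t 121 54 1 = true :=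
  ⟨(c (a (b (c (a (l 16711336) (l 16709504)) (a (l 16713656) (l 16711992))) (c (a (l 16715784) (l 16713952)) (a (l 16728192) (l 16716048)))) (b (c (l 16717456) (l 16720184)) (c (a (l 16712232) (l 16710624)) (a (l 16714488) (l 16713048))))) (a (a (b (c (l 16716176) (l 16724144)) (c (b (l 16718872) (l 16720736)) (b (l 16721264) (l 16722904)))) (b (b (l 16715280) (l 16716944)) (c (l 16723568) (l 16719480)))) (b (c (l 16711344) (b (l 16715040) (l 16727096))) (c (a (l 16716944) (l 16715680)) (b (l 16723456) (l 16718552)))))), by decide +kernel⟩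

def k29_pp_012_a : ∃ t, chk3 f_pp_012_a t 60 55 1 = true :=
  ⟨(a (a (l 3) (a (b (b (c (c (l 16723488) (l 14663173287)) (c (a (l 16726832) (l 16725624)) (c (l 16724504) (a (l 16728816) (l 16727672))))) (l 3)) (l 3)) (b (c (c (b (l 16721168) (l 16723752)) (b (l 16722616) (l 14126302663))) (c (b (c (l 16723800) (l 16724640)) (c (l 16726088) (l 16722896))) (b (c (l 16725512) (l 16726424)) (c (l 16724336) (l 8757604423))))) (a (l 3) (b (c (l 16726592) (l 16727240)) (l 3)))))) (a (c (b (c (a (b (l 16719224) (l 16721584)) (l 16723816)) (a (b (l 16720848) (l 16723008)) (b (l 16719192) (l 16721352)))) (a (b (c (l 16726784) (l 13052561607)) (c (l 16727144) (l 16728272))) (b (c (l 16722152) (l 16723552)) (c (l 16724720) (l 16721352))))) (b (c (a (b (l 16722632) (l 16724576)) (b (l 16721160) (l 16723104))) (a (b (l 16729824) (l 16730232)) (b (l 16723296) (l 16725016)))) (a (c (b (c (l 16726440) (l 16721920)) (l 16729520)) (b (c (l 16723992) (l 16726096)) (l 16725656))) (c (b (l 16725096)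 (l 16724016)) (b (l 16726784) (c (l 16723152) (l 16723928))))))) (a (c (b (c (l 16716848) (l 16714784)) (c (b (l 16720416) (l 16722856)) (b (l 16721992) (l 16724240)))) (b (c (l 16718144) (l 16721664)) (c (b (l 16723728) (l 16725760)) (a (l 16721560) (l 16726240))))) (b (c (c (l 16715232) (l 16717272)) (b (l 16719752) (l 16720280))) (c (c (l 16714776) (l 16717736)) (c (l 16720856) (l 16722824))))))), by decide +kernel⟩

def k30_pp_012_a : ∃ t, chk3 f_pp_012_a t 61 13 1 = true :=
  ⟨(b (a (c (b (a (b (l 16690256) (l 16693808)) (b (l 16688008) (l 16691560))) (a (b (l 16697536) (l 16702088)) (b (l 16695272) (l 16699160)))) (b (a (c (l 16698920) (l 16693408)) (b (l 16677336) (l 16680128))) (a (b (c (l 16703552) (l 16707912)) (c (l 16706864) (l 16710808))) (b (l 16693568) (c (l 16705064) (l 16709336)))))) (c (b (a (l 16672400) (l 16666112)) (a (b (l 16693576) (l 16697432)) (b (l 16692488) (l 16696312)))) (b (a (b (l 16697208) (l 16700008)) (l 16698112)) (a (b (l 16681984) (l 16695576))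 (c (l 16680512) (l 16706576)))))) (a (b (c (b (a (b (l 16699216) (l 16703912)) (l 16704680)) (a (c (l 16718920) (l 16716352)) (a (l 16707960) (l 16706928)))) (a (b (c (l 16699864) (l 16713872)) (c (l 16712688) (l 16717920))) (b (c (l 16708536) (l 16712408)) (c (l 16712176) (l 16715632))))) (c (b (a (c (a (l 16713736) (l 16712352)) (a (l 16715944) (l 16714736))) (c (l 16721000) (l 16707904))) (a (a (c (l 16718504) (l 16720336)) (c (l 16717112) (l 16719112))) (a (l 16715584) (l 16713208)))) (a (b (c (a (l 16718344) (l 16717304)) (a (l 16720928) (l 16720072))) (c (b (l 16715520) (l 16717552)) (a (l 16719232) (l 16723616)))) (b (c (l 16710736) (l 16719016)) (c (l 16718624) (l 16722552)))))) (b (b (c (a (l 16701456) (l 16700304)) (a (c (l 16707264) (l 16711464)) (l 16698280))) (c (a (a (l 16706032) (l 16705288)) (l 16704440)) (a (c (l 16710880) (l 16714680)) (l 16701016)))) (a (c (b (a (l 16710384) (l 16709616)) (c (l 16707968) (l 16705312))) (b (c (l 16714656) (l 16718048)) (c (l 16718584)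 (l 16721560)))) (c (a (b (l 16708992) (l 16713448)) (b (l 16708520) (l 16712944))) (b (b (l 16704304) (l 16706112)) (b (l 16707952) (l 16709832)))))))), by decide +kernel⟩

def k31_pp_012_a : ∃ t, chk3 f_pp_012_a t 31 6 1 = true :=
  ⟨(b (a (b (a (b (l 16630480) (c (l 16668912) (l 16677112))) (a (l 16627280) (l 16619440))) (b (a (a (l 16660016) (l 16660648)) (c (l 16676488) (l 16670328))) (a (c (l 16680152) (l 16672320)) (c (l 16682312) (l 16636480))))) (b (a (c (l 16655312) (l 16599104)) (b (l 16583440) (l 16590424))) (a (a (b (l 16643000) (l 16650480)) (b (l 16633696) (l 16641056))) (b (l 16597512) (c (l 16632168) (l 16618792)))))) (a (c (b (a (a (b (l 16665720) (l 16672984)) (b (l 16686984) (l 16694160))) (b (l 16688744) (a (l 16695056) (l 16696648)))) (a (b (a (a (l 16691432) (l 16680832)) (l 16686208)) (a (b (l 16708104) (l 16701992)) (b (l 16687128) (l 16691424)))) (a (b (l 16702696) (l 16710880)) (b (l 16704152) (l 16712160))))) (b (a (b (b (l 16676136) (l 16678888)) (a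 (l 16693560) (l 16683776))) (b (b (l 16663600) (l 16667736)) (a (l 16678200) (l 16669648)))) (a (b (a (c (l 16687248) (l 16712808)) (l 16697992)) (a (b (l 16705152) (l 16708784)) (a (l 16696840) (l 16697256)))) (b (a (l 16686752) (l 16678128)) (a (l 16700768) (l 16686864)))))) (b (a (b (a (l 16647576) (l 16627576)) (c (l 16666200) (a (l 16660464) (l 16671584)))) (b (c (l 16639136) (l 16626552)) (a (b (l 16644048) (l 16647896)) (l 16624552)))) (a (b (a (b (l 16671720) (l 16675736)) (b (l 16662088) (l 16666096))) (a (b (l 16679824) (l 16683984)) (b (l 16670176) (l 16674344)))) (b (a (b (l 16651808) (l 16655800)) (b (l 16640856) (l 16644840))) (a (c (l 16666616) (l 16677984)) (b (l 16648912) (l 16653104)))))))), by decide +kernel⟩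

def k32_pp_012_a : ∃ t, chk3 f_pp_012_a t 60 14 1 = true :=
  ⟨(b (a (l 3) (b (b (b (a (a (l 3) (a (l 3) (c (l 16722320) (l 16727392)))) (c (a (c (l 16725424) (l 16721376)) (c (l 16723704) (l 16725072))) (a (c (l 16722696) (l 16724144)) (l 16726056)))) (a (l 3) (a (a (l 3) (c (l 16723024) (l 16725400))) (c (a (l 16721992) (l 16726424)) (a (l 16724488) (l 16729096)))))) (b (a (l 3) (a (l 3) (a (c (l 16730264) (l 16732480)) (c (l 16723864) (l 16720928))))) (l 3))) (l 3))) (l 3)), by decide +kernel⟩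

def k33_pp_012_a : ∃ t, chk3 f_pp_012_a t 122 28 1 = true :=
  ⟨(a (a (b (b (c (c (l 16718200) (l 16719640)) (b (l 16721056) (l 16723056))) (c (b (c (l 16727264) (l 16728408)) (b (l 16724600) (l 16720912))) (b (l 16725120) (l 16727624)))) (l 3)) (b (b (c (b (l 16721608) (l 16718776)) (a (l 16726576) (l 16726120))) (c (b (l 16721216) (l 16723704)) (b (l 16729368) (l 16720960)))) (b (c (b (b (l 16725688) (l 16727208)) (l 16732416)) (b (b (l 16733144) (l 16724032)) (l 16736936))) (l 3)))) (b (c (a (b (c (l 16720736) (l 16722520)) (c (l 16725784) (l 16727192))) (b (l 16719208) (c (l 16724584) (l 16726168)))) (b (c (l 16722728) (l 16726232)) (c (l 16725672) (l 16730064)))) (a (b (c (b (l 16726272) (c (l 13052576231) (l 16728184))) (b (l 16722192) (c (l 16729232) (l 16730384)))) (a (l 3) (b (c (l 16732960) (l 16732208)) (l 3)))) (b (c (b (l 16723824) (c (l 16731048) (l 16732160))) (c (l 16727032) (l 16728472))) (b (c (c (b (l 16733040) (l 16729600)) (l 16810679607)) (c (l 16733160)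 (l 16731664))) (c (c (b (l 16731560) (l 16737944)) (l 29158718471)) (c (l 16737448) (l 16737120)))))))), by decide +kernel⟩

def k34_pp_012_a : ∃ t, chk3 f_pp_012_a t 123 28 1 = true :=
  ⟨(b (c (a (b (c (l 16712800) (l 16715016)) (c (l 16720392) (l 16719616))) (b (a (l 16718048) (l 16717512)) (a (l 16722784) (l 16722208)))) (c (a (b (l 16722648) (l 16726856)) (b (l 16721776) (l 16725920))) (a (b (l 16725216) (l 16729008)) (a (l 16716184) (l 16716032))))) (c (b (b (a (c (l 16721576) (l 16728392)) (l 16719536)) (a (a (l 16727936) (l 16719160)) (a (l 16728872) (l 16728240)))) (a (b (a (c (l 16732552) (l 16733656)) (c (l 16731528) (l 16732816))) (a (c (b (l 16734544) (a (l 16736280) (l 16735600))) (a (l 16732520) (l 16735896))) (c (l 16729576) (l 16735264)))) (b (c (l 16725016) (l 16726552)) (a (c (l 16733256) (l 16734528)) (l 16727952))))) (b (a (a (b (l 16731272) (l 16722888)) (b (l 16730744) (l 16732832))) (b (l 16719696) (l 16727000))) (a (a (b (c (l 16734864) (l 16736176)) (c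 (a (l 16732176) (l 16736952)) (l 21642528551))) (b (l 16734952) (b (l 16731312) (l 16732392)))) (a (b (l 16734512) (l 16736632)) (b (l 16734192) (l 16736296))))))), by decide +kernel⟩

def k35_pp_012_a : ∃ t, chk3 f_pp_012_a t 122 29 1 = true :=
  ⟨(l 3), by decide +kernel⟩

def k36_pp_012_a : ∃ t, chk3 f_pp_012_a t 246 58 1 = true :=
  ⟨(b (b (a (a (c (c (l 16738944) (l 16739704)) (l 8220763479)) (c (c (b (l 16737024) (l 16738696)) (l 37748653815)) (c (l 36674915303) (l 16739240)))) (c (c (b (l 16736160) (a (l 16737800) (l 16737248))) (a (l 27011233079) (l 16737536))) (c (a (l 16736312) (l 16738584)) (a (l 16737360) (l 16739720))))) (a (l 3) (c (c (b (a (l 16739424) (l 16738608)) (a (l 3) (c (l 16740016) (l 16740368)))) (a (l 22716274151) (b (l 16739424) (l 7683884839)))) (c (a (l 16740608) (b (l 16740320) (l 16739128))) (a (l 16741496) (b (l 16741296) (l 16737408))))))) (l 3)), by decide +kernel⟩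

def k37_pp_012_a : ∃ t, chk3 f_pp_012_a t 247 58 1 = true :=
  ⟨(a (b (b (c (c (l 16732288) (l 16731736)) (a (l 16733656) (l 16733440))) (c (a (b (l 16735272) (c (l 16739456) (l 16740264))) (b (l 16738152) (l 16736160))) (c (a (l 16737952) (l 16740304)) (a (l 16738976) (l 16741416))))) (a (b (c (c (b (c (l 16740808) (l 16741160)) (l 16742776)) (c (l 28084985111) (l 27011244855))) (b (c (l 16739896) (l 16740776)) (l 16743296))) (l 3)) (b (b (c (c (l 16740336) (l 16741136)) (l 16740848)) (c (c (c (l 8220768951) (l 16743952)) (c (l 16744960) (l 16745336))) (a (l 26474377847) (l 27548118743)))) (a (l 3) (b (c (l 20031923831) (l 16743752)) (l 3)))))) (b (b (c (c (l 16735096) (l 16736352)) (l 16735632)) (c (c (a (l 16737920) (l 16737544)) (l 16736176)) (a (l 16738032) (l 16740488)))) (a (b (c (b (l 16737720) (c (l 16741248) (l 16742040))) (c (l 16739712) (l 16740712))) (c (c (b (c (l 11978866823) (l 14663221959)) (c (l 16744208) (l 16744512))) (b (a (l 16746112) (l 16743208)) (l 16742632)))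 (c (b (l 24326892807) (l 16743752)) (b (l 23253153991) (l 16743872))))) (b (c (b (l 16739992) (l 16738656)) (c (l 16742112) (l 16743200))) (b (c (c (l 16742176) (l 16742960)) (l 16743288)) (c (c (a (l 13052610247) (l 16743416)) (a (l 16745656) (l 16744120))) (c (l 29695603831) (l 16744368)))))))), by decide +kernel⟩

def k38_pp_012_a : ∃ t, chk3 f_pp_012_a t 123 59 1 = true :=
  ⟨(a (l 3) (a (l 3) (a (l 3) (b (b (b (c (c (a (l 16745424) (c (l 16744776) (l 16745080))) (l 24326895991)) (c (l 21105673207) (l 16746280))) (l 3)) (l 3)) (l 3))))), by decide +kernel⟩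

def k39_pp_012_a : ∃ t, chk3 f_pp_012_a t 30 15 1 = true :=
  ⟨(l 3), by decide +kernel⟩

def k40_pp_012_a : ∃ t, chk3 f_pp_012_a t 31 28 1 = true :=
  ⟨(a (c (a (b (a (b (l 16706496) (l 16711128)) (b (l 16695848) (l 16700384))) (a (b (c (l 16725320) (l 16727440)) (a (b (l 16730184) (l 16732648)) (l 16720552))) (b (l 16715512) (b (l 16729528) (l 16721432))))) (b (a (l 16709048) (l 16699632)) (a (b (l 16726248) (l 16720368)) (b (l 16727128) (l 16731600))))) (a (b (a (b (l 16712552) (l 16716432)) (a (l 16704264) (l 16704608))) (a (b (b (l 16708920) (l 16721424)) (a (l 16729808) (l 16724496))) (b (l 16720672) (a (l 16724568) (l 16735272))))) (b (a (l 16704584) (l 16695920)) (a (a (l 16722504) (l 16722416)) (b (l 16723976) (l 16707888)))))) (a (b (a (b (l 16688240) (l 16692608)) (b (l 16678616) (l 16683008))) (a (b (a (l 16699384) (l 16694760)) (a (l 16703992) (l 16699400))) (c (b (l 16711960) (l 16695416)) (b (l 16704856) (l 16688848))))) (b (c (a (l 16674728) (l 16685184)) (a (l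 16666120) (l 16675752))) (c (a (b (l 16702144) (l 16706656)) (b (l 16691736) (l 16696336))) (a (b (l 16694288) (l 16699280)) (b (l 16682984) (l 16688016))))))), by decide +kernel⟩

def k41_pp_012_a : ∃ t, chk3 f_pp_012_a t 31 58 1 = true :=
  ⟨(b (a (a (a (c (a (b (l 16729896) (c (l 16737040) (l 16738272))) (b (l 16734704) (l 16737176))) (a (c (l 16739152) (l 16737408)) (a (l 16733904) (l 16728632)))) (c (a (b (l 16734416) (l 16736856)) (l 16724992)) (a (l 16731280) (l 16728816)))) (a (c (a (l 16724984) (l 16735608)) (b (l 16738824) (l 16730312))) (c (l 16725624) (b (l 16732616) (l 16714200))))) (a (a (c (l 16730048) (l 16714256)) (a (l 16704736) (l 16694624))) (a (a (l 16689600) (l 6)) (l 6)))) (a (a (b (a (c (a (c (l 16737040) (l 16738080)) (c (l 16739080) (l 16740280))) (a (a (l 16742496) (l 16742384)) (a (l 16742296) (l 16742248)))) (c (a (l 16739312) (l 16739088)) (a (l 16742240) (l 16731856)))) (a (a (a (c (b (l 16739608) (a (l 16740968) (l 16743424))) (b (l 16738872) (l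 16743888))) (c (a (l 16741328) (l 16739872)) (b (l 16743984) (l 16739816)))) (c (c (l 16739056) (l 16740080)) (a (l 16744424) (l 16744360)))) (c (a (a (l 16741864) (l 16741696)) (l 16736280)) (a (l 16739080) (l 16739152))))) (a (c (a (a (l 16729752) (l 16729736)) (l 16729792)) (a (l 16736408) (l 16733528))) (c (b (l 16739496) (l 16741760)) (b (l 16727288) (l 16729928))))) (a (a (c (l 16721640) (a (l 16711352) (l 16706656))) (c (l 16715320) (b (l 16718920) (l 6)))) (l 6)))), by decide +kernel⟩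

def k42_pp_012_a : ∃ t, chk3 f_pp_012_a t 31 118 1 = true :=
  ⟨(a (a (b (a (a (a (c (a (b (c (l 16745888) (l 16745240)) (a (l 3) (l 16810704551))) (b (l 16742088) (c (c (l 16745664) (l 16745952)) (l 36138056775)))) (c (b (l 35601185639) (c (l 16745032) (l 16745544))) (b (l 16744752) (l 20031935975)))) (b (c (c (l 16744104) (l 16744864)) (l 16744824)) (c (c (c (l 16745272) (l 16745584)) (l 16743472)) (c (l 16744208) (l 16745008))))) (c (c (a (l 16741816) (l 16744144)) (c (l 16742288) (l 16742720))) (c (c (l 16743176) (l 16743648)) (a (l 16747040) (l 16747000))))) (c (a (c (l 16741144) (l 16742144)) (c (l 16743384) (l 16744544))) (a (c (l 16745840) (l 16747000)) (c (l 16745792) (l 16747128))))) (a (b (a (a (l 3) (a (b (c (l 28621865143) (l 16746904)) (l 3)) (b (c (l 16746632) (l 16747992)) (c (l 22179415095) (l 16747328))))) (a (c (c (l 16746408) (l 16747064)) (c (l 16747784) (l 16748568))) (c (c (l 16746096) (l 16746832)) (l 16747416)))) (a (a (l 3) (b (c (l 4999549527) (l 16748416))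 (l 3))) (c (a (c (a (l 29695608615) (l 15200101863)) (a (l 16746576) (l 16745624))) (c (l 16747400) (l 16748048))) (a (c (a (l 16747520) (l 16746272)) (a (l 16748520) (l 16746976))) (c (l 16748760) (l 16749528)))))) (a (c (c (a (l 16743848) (l 16746216)) (c (l 16744328) (l 16744752))) (c (c (l 16745192) (l 16745656)) (a (l 16749000) (l 16749008)))) (c (c (l 16740664) (l 16746896)) (b (l 16742752) (l 16746408)))))) (a (c (a (b (l 16738552) (l 16740936)) (b (l 16743776) (l 16735624))) (a (b (l 16736144) (l 16743416)) (b (l 16746968) (l 16748960)))) (c (b (l 16733536) (l 16741040)) (a (l 16736128) (l 16731776))))) (a (a (a (b (l 16728032) (l 6)) (l 6)) (l 6)) (l 6))), by decide +kernel⟩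

def k43_pp_012_a : ∃ t, chk3 f_pp_012_a t 31 119 1 = true :=
  ⟨(a (a (b (a (a (l 3) (a (b (c (c (l 16747624) (l 16748800)) (c (l 16749368) (l 16749992))) (l 3)) (c (c (b (a (l 34527448967) (l 16748632)) (l 12515746167)) (b (c (l 31843095447) (l 31843096599)) (l 8220781031))) (b (c (c (l 16748088) (l 16748488)) (c (l 16749152) (l 16749504))) (c (l 16750856) (l 16751792)))))) (a (c (c (a (a (b (l 16748480) (l 16747368)) (l 16747016)) (l 16747136)) (a (b (l 16749048) (l 36674937063)) (l 16748152))) (c (a (b (l 16749744) (l 36674939255)) (l 16748896)) (a (b (l 16750504) (l 34527457927)) (l 16751008)))) (a (c (c (l 16748536) (l 16749304)) (c (l 16750136) (l 16751032))) (c (c (l 16748328) (l 16749184)) (l 16747976))))) (a (l 3) (a (b (c (a (c (l 15200102807) (l 12515750391)) (c (l 16748656) (l 16749296))) (a (c (l 11442010471) (l 10905141239)) (c (l 16750552) (l 16751216)))) (a (l 3) (c (c (l 20031942967) (l 17884461447)) (c (l 17347592439) (l 15200109671))))) (c (a (b (l 16749432)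 (a (l 16750704) (l 16751904))) (b (l 16750560) (l 16749144))) (c (a (l 42580523767) (l 16752264)) (a (l 37211817207) (l 16753064))))))) (a (a (c (b (c (l 16748072) (l 16749072)) (c (l 16750528) (l 16751360))) (b (a (l 16745408) (l 16740256)) (c (l 16752248) (l 16747960)))) (b (c (l 16743200) (l 16745704)) (l 6))) (l 6))) (l 6)), by decide +kernel⟩

def k44_pp_012_a : ∃ t, chk3 f_pp_012_a t 31 15 1 = true :=
  ⟨(a (b (a (a (l 3) (a (l 3) (b (b (b (b (a (c (c (l 23790041655) (l 23253172551)) (c (l 21642561863) (l 20568822023))) (a (c (l 16753016) (l 16754200)) (l 6))) (a (a (l 3) (l 6)) (l 6))) (l 6)) (l 3)) (l 3)))) (l 6)) (l 3)) (l 6)), by decide +kernel⟩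

theorem s45_pp_012_a : ∃ t, chk3 f_pp_012_a t 31 59 1 = true := ex3_b k42_pp_012_a k43_pp_012_a

theorem s46_pp_012_a : ∃ t, chk3 f_pp_012_a t 31 29 1 = true := ex3_b k41_pp_012_a s45_pp_012_a

theorem s47_pp_012_a : ∃ t, chk3 f_pp_012_a t 31 14 1 = true := ex3_b k40_pp_012_a s46_pp_012_a

theorem s48_pp_012_a : ∃ t, chk3 f_pp_012_a t 31 7 1 = true := ex3_b s47_pp_012_a k44_pp_012_a

theorem s49_pp_012_a : ∃ t, chk3 f_pp_012_a t 123 58 1 = true := ex3_a k36_pp_012_a k37_pp_012_a

theorem s50_pp_012_a : ∃ t, chk3 f_pp_012_a t 123 29 1 = true := ex3_b s49_pp_012_a k38_pp_012_a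

theorem s51_pp_012_a : ∃ t, chk3 f_pp_012_a t 61 29 1 = true := ex3_a k35_pp_012_a s50_pp_012_a

theorem s52_pp_012_a : ∃ t, chk3 f_pp_012_a t 61 28 1 = true := ex3_a k33_pp_012_a k34_pp_012_a

theorem s53_pp_012_a : ∃ t, chk3 f_pp_012_a t 61 14 1 = true := ex3_b s52_pp_012_a s51_pp_012_a

theorem s54_pp_012_a : ∃ t, chk3 f_pp_012_a t 30 14 1 = true := ex3_a k32_pp_012_a s53_pp_012_a

theorem s55_pp_012_a : ∃ t, chk3 f_pp_012_a t 30 7 1 = true := ex3_b s54_pp_012_a k39_pp_012_a

theorem s56_pp_012_a : ∃ t, chk3 f_pp_012_a t 15 7 1 = true := ex3_a s55_pp_012_a s48_pp_012_a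

theorem s57_pp_012_a : ∃ t, chk3 f_pp_012_a t 60 54 1 = true := ex3_a k27_pp_012_a k28_pp_012_a

theorem s58_pp_012_a : ∃ t, chk3 f_pp_012_a t 60 27 1 = true := ex3_b s57_pp_012_a k29_pp_012_a

theorem s59_pp_012_a : ∃ t, chk3 f_pp_012_a t 60 13 1 = true := ex3_b k26_pp_012_a s58_pp_012_a

theorem s60_pp_012_a : ∃ t, chk3 f_pp_012_a t 30 13 1 = true := ex3_a s59_pp_012_a k30_pp_012_a

theorem s61_pp_012_a : ∃ t, chk3 f_pp_012_a t 30 6 1 = true := ex3_b k25_pp_012_a s60_pp_012_a

theorem s62_pp_012_a : ∃ t, chk3 f_pp_012_a t 15 6 1 = true := ex3_a s61_pp_012_a k31_pp_012_a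

theorem s63_pp_012_a : ∃ t, chk3 f_pp_012_a t 15 3 1 = true := ex3_b s62_pp_012_a s56_pp_012_a

theorem s64_pp_012_a : ∃ t, chk3 f_pp_012_a t 59 13 1 = true := ex3_b k22_pp_012_a k23_pp_012_a

theorem s65_pp_012_a : ∃ t, chk3 f_pp_012_a t 29 13 1 = true := ex3_a k21_pp_012_a s64_pp_012_a

theorem s66_pp_012_a : ∃ t, chk3 f_pp_012_a t 29 6 1 = true := ex3_b k20_pp_012_a s65_pp_012_a

theorem s67_pp_012_a : ∃ t, chk3 f_pp_012_a t 14 6 1 = true := ex3_a k19_pp_012_a s66_pp_012_a

theorem s68_pp_012_a : ∃ t, chk3 f_pp_012_a t 14 3 1 = true := ex3_b s67_pp_012_a k24_pp_012_a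

theorem s69_pp_012_a : ∃ t, chk3 f_pp_012_a t 7 3 1 = true := ex3_a s68_pp_012_a s63_pp_012_a

theorem s70_pp_012_a : ∃ t, chk3 f_pp_012_a t 28 5 1 = true := ex3_a k15_pp_012_a k16_pp_012_a

theorem s71_pp_012_a : ∃ t, chk3 f_pp_012_a t 14 5 1 = true := ex3_a s70_pp_012_a k17_pp_012_a

theorem s72_pp_012_a : ∃ t, chk3 f_pp_012_a t 7 5 1 = true := ex3_a s71_pp_012_a k18_pp_012_a

theorem s73_pp_012_a : ∃ t, chk3 f_pp_012_a t 7 2 1 = true := ex3_b k14_pp_012_a s72_pp_012_a

theorem s74_pp_012_a : ∃ t, chk3 f_pp_012_a t 7 1 1 = true := ex3_b s73_pp_012_a s69_pp_012_a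

theorem s75_pp_012_a : ∃ t, chk3 f_pp_012_a t 27 10 1 = true := ex3_a k10_pp_012_a k11_pp_012_a

theorem s76_pp_012_a : ∃ t, chk3 f_pp_012_a t 13 10 1 = true := ex3_a k9_pp_012_a s75_pp_012_a

theorem s77_pp_012_a : ∃ t, chk3 f_pp_012_a t 13 5 1 = true := ex3_b s76_pp_012_a k12_pp_012_a

theorem s78_pp_012_a : ∃ t, chk3 f_pp_012_a t 26 9 1 = true := ex3_a k6_pp_012_a k7_pp_012_a

theorem s79_pp_012_a : ∃ t, chk3 f_pp_012_a t 13 9 1 = true := ex3_a s78_pp_012_a k8_pp_012_a

theorem s80_pp_012_a : ∃ t, chk3 f_pp_012_a t 13 4 1 = true := ex3_b k5_pp_012_a s79_pp_012_a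

theorem s81_pp_012_a : ∃ t, chk3 f_pp_012_a t 13 2 1 = true := ex3_b s80_pp_012_a s77_pp_012_a

theorem s82_pp_012_a : ∃ t, chk3 f_pp_012_a t 25 4 1 = true := ex3_a k2_pp_012_a k3_pp_012_a

theorem s83_pp_012_a : ∃ t, chk3 f_pp_012_a t 12 4 1 = true := ex3_a k1_pp_012_a s82_pp_012_a

theorem s84_pp_012_a : ∃ t, chk3 f_pp_012_a t 12 2 1 = true := ex3_b s83_pp_012_a k4_pp_012_a

theorem s85_pp_012_a : ∃ t, chk3 f_pp_012_a t 6 2 1 = true := ex3_a s84_pp_012_a s81_pp_012_a

theorem s86_pp_012_a : ∃ t, chk3 f_pp_012_a t 6 1 1 = true := ex3_b s85_pp_012_a k13_pp_012_a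

theorem s87_pp_012_a : ∃ t, chk3 f_pp_012_a t 3 1 1 = true := ex3_a s86_pp_012_a s74_pp_012_a

theorem s88_pp_012_a : ∃ t, chk3 f_pp_012_a t 1 1 1 = true := ex3_a k0_pp_012_a s87_pp_012_a

theorem c_pp_012_a : CertB 0 536870912 0 536870912 923417968 42949674 3 eng mog cd0q0 cd1q2a pd1 false true true .pnp 0 1 2
    ndB0q0 ndB1q2a pcB1 cut_pp_012_a xt_pp_012_a :=
  certB2 (fam := false) (s1 := true) (s2 := true) (a := 0) (b := 1) (c := 2) (cn := .pnp) (n1 := ndB0q0) (n2 := ndB1q2a) (pc := pcB1) (cut := cut_pp_012_a) (xt := xt_pp_012_a) (P1 := 0) (W1 := 536870912) (P2 := 0) (W2 := 536870912) (P3 := 923417968) (W3 := 42949674) (N0 := 3) (En := eng) (mo := mog) (C1 := cd0q0) (C2 := cd1q2a) (C3 := pd1)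
    rfl (fun _ => rfl) s88_pp_012_a

noncomputable def cut_pp_012_b : Cut := Cut.of [[⟨0, 0, 0, 67108864⟩, ⟨1, 1, 0, 67108864⟩, ⟨2, 1, 0, 67108864⟩]]

noncomputable def f_pp_012_b : ℕ → ℕ → ℕ → ℕ → Bool := onCell 536870912 536870912 1239849684 370763052 923417968 42949674
    (rowB 3 eng mog cd0q0 cd1q2b pd1 2 false true true .pnp 0 1 2 (qsf 0 536870912 1239849684 370763052 1) ndB0q0 ndB1q2b pcB1 cut_pp_012_b Ext.none)

def k0_pp_012_b : ∃ t, chk3 f_pp_012_b t 2 1 1 = true :=
  ⟨(b (a (l 2) (l 3)) (l 2)), by decide +kernel⟩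

def k1_pp_012_b : ∃ t, chk3 f_pp_012_b t 12 2 1 = true :=
  ⟨(a (b (a (l 3) (b (b (a (b (a (b (a (l 3) (c (l 93046379095) (l 16737800))) (l 3)) (b (c (c (l 16744360) (l 16733960)) (l 16744768)) (c (l 16737104) (l 16726264)))) (a (l 3) (c (l 16735952) (l 16713632)))) (c (b (a (b (l 16727336) (l 16720288)) (l 16738392)) (a (l 16709688) (l 16703224))) (b (a (l 16704008) (l 16719728)) (a (l 16709248) (l 16703976))))) (a (l 3) (c (b (l 16712680) (l 16676648)) (b (l 16690280) (l 16673744))))) (b (a (l 3) (b (l 16655376) (l 3))) (l 3)))) (l 3)) (b (b (a (b (c (a (b (a (l 16711208) (l 16705192)) (l 16693872)) (b (l 16696544) (l 16682088))) (a (b (l 16691232) (l 16696392)) (l 16652968))) (a (c (b (l 16679544) (l 16665120)) (l 16630360)) (c (l 16660448) (l 16662936)))) (b (c (a (b (l 16685680) (l 16671064)) (l 16647240)) (a (l 16665184) (l 16678072))) (a (c (l 16649224) (l 16654032)) (l 16600120)))) (a (b (a (c (l 16644240) (l 16641096)) (c (l 16631608) (l 16630768))) (a (l 16611144) (l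 16602832))) (a (b (l 16599552) (l 16590928)) (b (l 16610784) (l 16580536))))) (b (a (b (a (l 3) (l 16577296)) (l 118815794983)) (b (c (l 16560448) (l 16556984)) (l 16536976))) (a (l 3) (b (l 16493536) (l 16495192)))))), by decide +kernel⟩

def k2_pp_012_b : ∃ t, chk3 f_pp_012_b t 13 2 1 = true :=
  ⟨(b (b (b (a (a (c (a (l 16658688) (l 16649856)) (l 16625248)) (c (l 16616928) (l 16612936))) (a (a (l 16594832) (l 16589208)) (l 16602696))) (a (a (c (l 16624248) (l 16634616)) (c (l 16607240) (l 16621808))) (a (l 16538424) (l 16548248)))) (a (a (b (c (l 16594384) (l 16601864)) (c (l 16564400) (l 16568688))) (b (l 16540576) (l 16529208))) (a (c (l 16504256) (l 16498040)) (b (l 16557280) (l 16524616))))) (a (b (a (b (l 16536392) (l 16510056)) (b (l 16518920) (l 16489296))) (a (b (l 16487344) (l 16468184)) (b (l 16463456) (l 16441472)))) (b (a (b (l 16504296) (l 16472864)) (b (l 16491936) (l 16458920))) (a (l 16367720) (l 16351496))))), by decide +kernel⟩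

def k3_pp_012_b : ∃ t, chk3 f_pp_012_b t 6 3 1 = true :=
  ⟨(a (l 2) (b (a (b (a (l 165456237175) (b (l 16422256) (l 2))) (l 2)) (b (a (l 16386904) (l 16363168)) (a (l 2) (l 16323912)))) (l 2))), by decide +kernel⟩

def k4_pp_012_b : ∃ t, chk3 f_pp_012_b t 7 1 1 = true :=
  ⟨(a (b (b (b (b (a (a (l 16615464) (l 16610352)) (b (l 16514664) (l 16494640))) (a (a (l 16539168) (l 16574528)) (c (l 16555320) (l 16586488)))) (a (a (b (l 16547376) (l 16514096)) (l 16522936)) (a (l 16517736) (l 16514704)))) (a (a (b (l 16422656) (l 16398928)) (b (l 16434504) (l 16387744))) (b (c (l 16371584) (l 16459512)) (a (l 16379696) (l 16375232))))) (b (a (b (a (l 16343304) (l 16325840)) (a (l 16299496) (l 16277704))) (b (b (l 16325784) (l 16293376)) (a (l 16259856) (l 16245232)))) (a (l 2) (b (a (l 16216512) (l 16197920)) (l 2))))) (b (b (a (b (a (b (l 16617144) (l 16573936)) (l 16461832)) (c (l 16522640) (l 16533752))) (a (b (l 16507616) (l 16532240)) (b (b (l 16533680) (l 16540240)) (l 16542864))))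 (b (a (a (l 16400736) (l 16444848)) (a (l 16452488) (l 16468032))) (a (a (l 16372056) (l 16372712)) (a (l 16378952) (l 16392224))))) (b (a (b (a (l 16301016) (l 16300016)) (a (l 16234912) (l 16231248))) (b (l 16227624) (l 16153760))) (a (b (l 16050288) (l 189614402279)) (b (l 16169584) (l 16114704)))))), by decide +kernel⟩

theorem s5_pp_012_b : ∃ t, chk3 f_pp_012_b t 6 2 1 = true := ex3_a k1_pp_012_b k2_pp_012_b

theorem s6_pp_012_b : ∃ t, chk3 f_pp_012_b t 6 1 1 = true := ex3_b s5_pp_012_b k3_pp_012_b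

theorem s7_pp_012_b : ∃ t, chk3 f_pp_012_b t 3 1 1 = true := ex3_a s6_pp_012_b k4_pp_012_b

theorem s8_pp_012_b : ∃ t, chk3 f_pp_012_b t 1 1 1 = true := ex3_a k0_pp_012_b s7_pp_012_b

theorem c_pp_012_b : CertB 0 536870912 1239849684 370763052 923417968 42949674 3 eng mog cd0q0 cd1q2b pd1 false true true .pnp 0 1 2
    ndB0q0 ndB1q2b pcB1 cut_pp_012_b Ext.none :=
  certB2 (fam := false) (s1 := true) (s2 := true) (a := 0) (b := 1) (c := 2) (cn := .pnp) (n1 := ndB0q0) (n2 := ndB1q2b) (pc := pcB1) (cut := cut_pp_012_b) (xt := Ext.none) (P1 := 0) (W1 := 536870912) (P2 := 1239849684) (W2 := 370763052) (P3 := 923417968) (W3 := 42949674) (N0 := 3) (En := eng) (mo := mog) (C1 := cd0q0) (C2 := cd1q2b) (C3 := pd1)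
    rfl (fun _ => rfl) s8_pp_012_b

noncomputable def cut_pp_022_a : Cut := Cut.of [[⟨0, 0, 0, 67108864⟩, ⟨1, 1, 0, 67108864⟩, ⟨2, 1, 0, 67108864⟩]]

noncomputable def f_pp_022_a : ℕ → ℕ → ℕ → ℕ → Bool := onCell 1073741824 536870912 0 536870912 923417968 42949674
    (rowB 3 eng mog cd0q0 cd1q2a pd2 2 false true true .pp 0 2 2 (qsf 0 536870912 0 536870912 2) ndB0q0 ndB1q2a pcB2 cut_pp_022_a Ext.none)

def k0_pp_022_a : ∃ t, chk3 f_pp_022_a t 8 2 1 = true :=
  ⟨(b (a (b (a (a (c (b (l 16524720) (l 16503024)) (l 16463904)) (a (l 16474000) (l 16484952))) (a (l 16501264) (l 16536656))) (a (a (b (c (a (l 16477848) (l 16490056)) (l 16494920)) (c (a (l 16439632) (l 16474128)) (l 16456216))) (b (l 16473632) (c (l 16494216) (l 16508800)))) (b (l 16470400) (l 16449936)))) (b (a (a (l 16510616) (l 16462712)) (l 16378928)) (a (a (l 16537248) (l 16485312)) (a (l 16453488) (l 16462864))))) (a (a (a (b (c (b (a (b (l 16449064) (l 16442152)) (l 16460560)) (a (b (l 16435840) (l 16430112)) (l 16449400)))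 (a (b (l 16452968) (l 16438984)) (b (l 16470496) (l 16458232)))) (c (b (a (b (l 16424976) (l 16420432)) (l 16440600)) (a (b (l 16416480) (l 16413120)) (l 16434176))) (b (l 16395904) (l 16408408)))) (b (b (c (l 16482776) (l 16496640)) (c (l 16473744) (l 16486880))) (c (b (l 16467112) (l 16462824)) (b (l 16479472) (l 16474376))))) (a (b (b (l 16479264) (l 16472864)) (c (l 16459488) (l 16477824))) (b (l 16467024) (c (l 16515768) (l 16561360))))) (b (a (a (l 16519824) (l 16506696)) (c (a (l 16526944) (l 16491912)) (l 16413256))) (c (a (l 16504072) (a (l 16544896) (l 16504920))) (a (l 16493688) (b (l 16484600) (l 16469112))))))), by decide +kernel⟩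

def k1_pp_022_a : ∃ t, chk3 f_pp_022_a t 8 6 1 = true :=
  ⟨(a (c (b (a (a (b (b (l 16420568) (a (c (l 16408200) (l 16408432)) (l 16429224))) (a (b (l 16423248) (l 16449112)) (l 16434704))) (b (l 16439800) (a (l 16475016) (l 16494336)))) (b (l 16457848) (a (l 16439288) (l 16498024)))) (a (b (a (b (a (l 16475480) (l 16494376)) (b (l 16483888) (l 16502568))) (b (l 16522496) (l 16548400))) (b (a (a (l 16514352) (l 16547712)) (l 16574616)) (a (a (c (l 16556864) (l 16557592)) (l 16574864)) (l 16580088)))) (b (b (l 16493776) (l 16518376)) (b (l 16543200) (l 16557608))))) (b (a (a (b (b (l 16424384) (l 16400960)) (a (l 16416520) (l 16460488))) (b (l 16471464) (l 16453080))) (b (l 16479176) (b (l 16467896) (l 16511360)))) (a (b (a (b (l 16488192) (l 16514976)) (l 16461856)) (a (b (a (l 16531416) (l 16552824)) (a (l 16559152) (l 16580056))) (c (l 16532528) (l 16537992)))) (a (b (l 16526312) (l 16555664)) (b (l 16611016) (l 16608248)))))) (a (b (b (b (l 16523600) (l 16488600)) (c (b (l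 16542880) (l 16604592)) (b (l 16562048) (l 16557064)))) (b (c (b (l 16580264) (l 16552600)) (c (l 16512400) (l 16496240))) (c (a (l 16564632) (c (l 16549592) (l 16533120))) (b (l 16472936) (c (l 16495232) (l 16478728)))))) (b (b (c (l 16453816) (l 16453984)) (c (b (l 16460216) (l 16477448)) (b (l 16437240) (l 16453744)))) (a (b (c (l 16489400) (l 16489880)) (c (b (l 16542120) (a (l 16546784) (l 16524376))) (b (l 16500296) (a (l 16506656) (l 16480720))))) (b (c (b (l 16510760) (l 16503800)) (b (l 16461968) (l 16454800))) (c (b (l 16497048) (a (l 16501888) (l 16466232))) (b (l 16447976) (a (l 16454720) (l 16412936))))))))), by decide +kernel⟩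

def k2_pp_022_a : ∃ t, chk3 f_pp_022_a t 8 7 1 = true :=
  ⟨(a (b (b (b (a (a (a (c (c (l 16584632) (l 16585472)) (l 16587144)) (c (l 16602192) (l 16607496))) (c (l 16585640) (l 16595816))) (a (b (l 16599496) (l 16612184)) (b (l 16589992) (l 16586856)))) (b (b (a (a (c (a (l 16602400) (l 16619224)) (l 16614672)) (l 16586112)) (c (l 16616648) (l 16577400))) (l 6)) (l 6))) (l 6)) (l 6)) (b (a (b (b (a (c (l 16576120) (l 16548024)) (c (c (l 16582112) (l 16565512)) (a (l 16551808) (l 16526224)))) (b (a (c (l 16592592) (l 16585408)) (b (c (l 16570224) (l 16535400)) (l 6))) (l 6))) (l 6)) (a (b (b (c (a (l 16540576) (b (l 16519744) (l 16516800))) (a (l 16479576) (b (l 16476232) (l 16473480)))) (b (a (c (l 16536248) (l 16496496)) (b (c (l 16514704) (l 16471576)) (l 6))) (l 6))) (l 6)) (a (b (b (c (b (l 16497328) (c (l 16505464) (l 16483184))) (b (l 16450400) (c (l 16459856) (l 16435464)))) (b (b (b (c (l 16492744) (l 16446296)) (l 6)) (l 6)) (l 6))) (l 6)) (b (a (b (c (b (l 16480496)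 (l 16477344)) (b (l 16431016) (l 16449488))) (b (b (b (c (l 16476008) (l 16427104)) (l 6)) (l 6)) (l 6))) (b (c (b (l 16469256) (c (l 16478472) (l 16454200))) (b (l 16418080) (b (l 16416256) (l 16436088)))) (b (c (c (l 92374741559) (l 88616615223)) (c (l 82174121975) (l 16400288))) (l 1)))) (l 1))))) (a (l 6) (l 1)))), by decide +kernel⟩

def k3_pp_022_a : ∃ t, chk3 f_pp_022_a t 9 2 1 = true :=
  ⟨(b (a (a (b (l 16363128) (c (l 16431280) (l 16393472))) (b (l 16335560) (c (l 16367592) (l 16321320)))) (b (a (b (l 16288720) (l 16285136)) (b (l 16232672) (l 16224536))) (a (c (l 16303600) (l 16248600)) (c (l 16240352) (l 16155600))))) (a (a (c (b (l 16438384) (b (l 16442864) (l 16445728))) (b (l 16374024) (b (l 16394672) (l 16393864)))) (b (c (l 16365920) (b (l 16315136) (l 16309512))) (c (b (l 16363408) (l 16361368)) (b (l 16303136) (l 16296360))))) (b (c (a (l 16293232) (b (l 16226664) (l 16216192))) (a (b (l 16234496) (l 16223400)) (b (l 16154680) (l 16117352)))) (c (b (a (l 16283824)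 (l 16184120)) (a (a (l 16298096) (l 16256112)) (a (l 16214440) (l 183105430967)))) (a (b (l 16211464) (a (l 16223328) (l 16175016))) (b (l 16100152) (c (l 107406473383) (l 16037768)))))))), by decide +kernel⟩

def k4_pp_022_a : ∃ t, chk3 f_pp_022_a t 18 12 1 = true :=
  ⟨(a (b (c (a (l 16471360) (l 16426768)) (a (l 16419056) (l 16367376))) (b (c (a (l 16475424) (l 16428968)) (a (l 16420224) (l 16366280))) (c (a (l 16472288) (l 16426272)) (a (l 16416120) (l 16362392))))) (b (c (a (l 16382056) (l 16316368)) (b (l 16291392) (l 16309176))) (c (b (a (l 16382328) (l 16314776)) (a (c (l 16396616) (l 16362608)) (a (l 16365856) (a (l 16327384) (l 16336672))))) (b (a (l 16312256) (l 16258432)) (a (l 16308312) (c (l 16274616) (l 16233224))))))), by decide +kernel⟩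

def k5_pp_022_a : ∃ t, chk3 f_pp_022_a t 18 13 1 = true :=
  ⟨(a (a (b (c (b (l 16465208) (l 16458288)) (b (l 16408848) (l 16401872))) (a (b (c (l 16463032) (l 16408544)) (c (b (l 16458288) (l 16455264)) (b (l 16404016) (l 16401240)))) (b (c (l 16440280) (l 16382200)) (c (b (l 16435624) (c (l 16446224) (l 16418800))) (b (l 16377864) (c (l 16390080) (l 16360072))))))) (b (c (b (l 16419280) (a (l 16423976) (l 16401024))) (b (l 16355360) (c (l 16365224) (l 16331816)))) (a (b (c (b (l 16419080) (l 16415944)) (a (l 16362440) (l 16349264))) (c (b (c (l 16427368) (l 16398152)) (c (l 117607595303) (l 16395376))) (c (a (l 155725337047) (l 175052666023)) (l 106333132215)))) (b (c (b (l 16396224) (c (l 16408488) (l 16377464))) (b (l 16330920) (l 16349128))) (b (c (c (l 16405480) (l 16374624)) (l 153040923767)) (l 1)))))) (a (b (c (b (c (l 16389888) (l 16355888)) (b (c (l 16384904) (l 16350992)) (c (l 186863852855) (l 16347856)))) (b (l 16285968) (c (a (l 16326720) (l 16301056)) (l 16276712))))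 (b (c (c (a (l 176126459415) (l 111165036359)) (a (l 175589522983) (l 110091225687))) (c (b (l 16309576) (l 110091159719)) (l 143914004679))) (l 1))) (b (c (b (a (b (l 16340032) (l 16336760)) (b (l 16316824) (l 193306225047))) (a (b (l 198674971143) (l 131566100695)) (b (l 121365516663) (l 1)))) (b (a (l 16261448) (l 190084851463)) (a (l 160020119831) (l 93984947991)))) (l 1)))), by decide +kernel⟩

def k6_pp_022_a : ∃ t, chk3 f_pp_022_a t 19 6 1 = true :=
  ⟨(b (b (c (a (b (a (l 16294088) (l 16250344)) (a (l 16291584) (a (l 16257872) (l 16235496)))) (a (b (l 16206960) (l 346314231319)) (l 320007498295))) (a (b (l 16189968) (a (l 16209952) (l 16158352))) (a (a (l 193305884599) (l 157335488855)) (l 352219563127)))) (a (c (b (a (a (l 16300936) (l 16298776)) (a (l 214244089255) (l 271152362663))) (a (b (a (l 16299536) (l 223370933463)) (a (l 16296824) (l 16315472))) (b (a (l 228739597847) (l 1)) (l 1)))) (b (a (c (l 16226840) (l 16182664)) (c (l 16175720) (l 16128048))) (a (a (l 226055168391)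 (l 238403148087)) (a (l 184179135575) (l 1))))) (l 1))) (a (a (a (b (b (c (b (l 179347544903) (l 16332448)) (l 134787097991)) (l 1)) (l 1)) (l 1)) (l 1)) (l 1))), by decide +kernel⟩

def k7_pp_022_a : ∃ t, chk3 f_pp_022_a t 9 7 1 = true :=
  ⟨(b (a (a (a (b (a (b (b (c (c (l 16465056) (l 16439416)) (c (l 16412568) (l 16384520))) (c (c (b (l 130492557351) (l 66068044375)) (b (l 16437440) (l 68752361239))) (c (b (l 16410752) (l 52109309831)) (l 64994158871)))) (a (a (b (b (c (l 16456144) (l 16425456)) (l 1)) (l 1)) (l 1)) (l 1))) (b (c (b (c (l 110091433495) (l 102575191799)) (c (l 65531142039) (l 64457352087))) (b (c (l 86469007431) (l 16357824)) (c (l 16406344) (l 16355904)))) (l 1))) (l 1)) (a (b (b (a (b (c (l 68215459047) (l 16374504)) (l 1)) (l 1)) (l 1)) (l 1)) (l 1))) (l 1)) (l 1)) (l 1)), by decide +kernel⟩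

def k8_pp_022_a : ∃ t, chk3 f_pp_022_a t 5 1 1 = true :=
  ⟨(b (a (b (b (a (a (c (l 16201832) (l 16141256)) (c (l 16151592) (l 16085312))) (l 1)) (a (c (b (l 16156384) (a (l 16172456) (l 16111216))) (a (l 16085712) (l 16019440))) (l 1))) (a (a (b (c (b (l 16158528) (l 16143672)) (b (l 16077144) (l 16013808))) (a (b (c (l 16147200) (l 16055168)) (c (l 345240368983) (l 16034008))) (b (c (l 16109360) (l 16012392)) (l 1)))) (b (c (b (l 16092944) (l 16073784)) (b (l 16003384) (l 153040204967))) (l 1))) (l 1))) (l 1)) (b (l 1) (l 1))), by decide +kernel⟩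

def k9_pp_022_a : ∃ t, chk3 f_pp_022_a t 3 1 1 = true :=
  ⟨(l 1), by decide +kernel⟩

theorem s10_pp_022_a : ∃ t, chk3 f_pp_022_a t 18 6 1 = true := ex3_b k4_pp_022_a k5_pp_022_a

theorem s11_pp_022_a : ∃ t, chk3 f_pp_022_a t 9 6 1 = true := ex3_a s10_pp_022_a k6_pp_022_a

theorem s12_pp_022_a : ∃ t, chk3 f_pp_022_a t 9 3 1 = true := ex3_b s11_pp_022_a k7_pp_022_a

theorem s13_pp_022_a : ∃ t, chk3 f_pp_022_a t 9 1 1 = true := ex3_b k3_pp_022_a s12_pp_022_a

theorem s14_pp_022_a : ∃ t, chk3 f_pp_022_a t 8 3 1 = true := ex3_b k1_pp_022_a k2_pp_022_a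

theorem s15_pp_022_a : ∃ t, chk3 f_pp_022_a t 8 1 1 = true := ex3_b k0_pp_022_a s14_pp_022_a

theorem s16_pp_022_a : ∃ t, chk3 f_pp_022_a t 4 1 1 = true := ex3_a s15_pp_022_a s13_pp_022_a

theorem s17_pp_022_a : ∃ t, chk3 f_pp_022_a t 2 1 1 = true := ex3_a s16_pp_022_a k8_pp_022_a

theorem s18_pp_022_a : ∃ t, chk3 f_pp_022_a t 1 1 1 = true := ex3_a s17_pp_022_a k9_pp_022_a

theorem c_pp_022_a : CertB 0 536870912 0 536870912 923417968 42949674 3 eng mog cd0q0 cd1q2a pd2 false true true .pp 0 2 2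
    ndB0q0 ndB1q2a pcB2 cut_pp_022_a Ext.none :=
  certB2 (fam := false) (s1 := true) (s2 := true) (a := 0) (b := 2) (c := 2) (cn := .pp) (n1 := ndB0q0) (n2 := ndB1q2a) (pc := pcB2) (cut := cut_pp_022_a) (xt := Ext.none) (P1 := 0) (W1 := 536870912) (P2 := 0) (W2 := 536870912) (P3 := 923417968) (W3 := 42949674) (N0 := 3) (En := eng) (mo := mog) (C1 := cd0q0) (C2 := cd1q2a) (C3 := pd2)
    rfl (fun _ => rfl) s18_pp_022_a

noncomputable def cut_pp_022_b : Cut := Cut.of [[⟨0, 0, 0, 67108864⟩, ⟨1, 1, 0, 67108864⟩, ⟨2, 1, 0, 67108864⟩]]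

noncomputable def f_pp_022_b : ℕ → ℕ → ℕ → ℕ → Bool := onCell 0 536870912 1073741824 536870912 923417968 42949674
    (rowB 3 eng mog cd0q0 cd1q2b pd2 1 false true true .pp 0 2 2 (qsf 0 536870912 1239849684 370763052 2) ndB0q0 ndB1q2b pcB2 cut_pp_022_b Ext.none)

def k0_pp_022_b : ∃ t, chk3 f_pp_022_b t 1 2 1 = true :=
  ⟨(a (a (b (a (b (l 1) (a (b (l 1) (a (l 1) (l 251824930583))) (b (a (l 1) (l 171294563975)) (a (l 189011094935) (l 222834025815))))) (b (a (b (l 1) (c (l 231424070951) (l 210486040391))) (b (b (l 1) (l 178274039575)) (b (a (l 16492608) (l 16464544)) (l 127271137799)))) (a (b (c (l 153577651383) (l 150356358487)) (c (l 16328224) (l 16290704))) (b (c (l 16403128) (l 16396592)) (l 16306536))))) (a (b (a (b (c (l 215317574439) (l 216928093431)) (a (l 16081728) (l 16124632))) (b (a (l 16196168) (l 16219776)) (l 16160080))) (a (b (c (l 16101880) (l 16046160)) (l 16045912)) (b (l 16121504) (l 16091632)))) (a (b (b (l 16212344) (l 16207240)) (b (l 16168416) (l 16137008)))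 (b (b (l 16294200) (l 16247688)) (l 16191216))))) (b (a (b (a (b (b (a (l 16530192) (a (l 16517608) (l 16491064))) (a (l 16512672) (l 16543992))) (b (l 16478208) (l 16484448))) (b (b (a (a (l 16475520) (l 16476208)) (l 16425760)) (l 16442704)) (l 16476168))) (b (a (l 16434320) (l 16444360)) (a (l 16374040) (l 16386136)))) (b (b (a (b (a (l 16430048) (l 16394224)) (l 16391072)) (b (l 16343776) (l 16346448))) (c (l 16364152) (l 16388592))) (b (l 16362520) (l 16337192)))) (a (b (a (l 16297320) (l 16310880)) (a (l 16216544) (l 16217312))) (b (l 16275464) (l 16149664))))) (a (b (b (b (a (a (l 16264048) (l 16228760)) (a (l 16173952) (l 16119672))) (a (a (l 16289920) (l 16238496)) (l 16101880))) (a (b (l 16259368) (l 16242192)) (l 16167536))) (b (a (l 16191216) (l 16122784)) (a (l 16077080) (l 15958728)))) (b (a (b (a (l 15913120) (l 15863072)) (l 15965152)) (b (a (l 15922776) (l 15905464)) (l 15947752))) (b (a (l 16026576) (l 2)) (l 2))))), by decide +kernel⟩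

def k1_pp_022_b : ∃ t, chk3 f_pp_022_b t 1 3 1 = true :=
  ⟨(a (b (a (a (b (c (a (l 16039304) (l 16075432)) (a (l 15937008) (l 16046368))) (b (l 15837200) (l 15982264))) (b (a (l 16101456) (l 16133104)) (a (l 15957344) (l 15904360)))) (b (a (l 16058888) (l 15976256)) (a (l 15835152) (l 15675640)))) (a (b (a (b (l 15844536) (a (l 15763200) (l 15718720))) (b (a (l 15758664) (l 15711488)) (l 15666352))) (a (l 15692784) (l 15644336))) (b (a (b (l 15653304) (l 2)) (l 2)) (l 2)))) (b (a (b (a (l 15828256) (l 2)) (l 2)) (l 2)) (l 2))), by decide +kernel⟩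

theorem s2_pp_022_b : ∃ t, chk3 f_pp_022_b t 1 1 1 = true := ex3_b k0_pp_022_b k1_pp_022_b

theorem c_pp_022_b : CertB 0 536870912 1239849684 370763052 923417968 42949674 3 eng mog cd0q0 cd1q2b pd2 false true true .pp 0 2 2
    ndB0q0 ndB1q2b pcB2 cut_pp_022_b Ext.none :=
  certB1 (fam := false) (s1 := true) (s2 := true) (a := 0) (b := 2) (c := 2) (cn := .pp) (n1 := ndB0q0) (n2 := ndB1q2b) (pc := pcB2) (cut := cut_pp_022_b) (xt := Ext.none) (P1 := 0) (W1 := 536870912) (P2 := 1239849684) (W2 := 370763052) (P3 := 923417968) (W3 := 42949674) (N0 := 3) (En := eng) (mo := mog) (C1 := cd0q0) (C2 := cd1q2b) (C3 := pd2)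
    rfl (fun _ => rfl) s2_pp_022_b

noncomputable def f_pp_023 : ℕ → ℕ → ℕ → ℕ → Bool := onCell 0 536870912 1073741824 536870912 923417968 42949674
    (rowB 3 eng mog cd0q0 cd1q3 pd2 1 false true true .up 0 2 3 (qsf 0 536870912 1610612736 536870912 2) ndB0q0 ndB1q3 pcB2 Cut.none Ext.none)

def k0_pp_023 : ∃ t, chk3 f_pp_023 t 1 1 1 = true :=
  ⟨(b (a (a (l 1) (b (l 1) (a (l 1) (b (l 1) (l 366177299687))))) (a (b (a (l 1) (b (l 1) (l 367251086231))) (b (a (l 352755613575) (l 162703194807)) (a (l 200284060183) (l 15826728)))) (b (a (b (a (l 1) (l 394632253543)) (b (l 15955440) (l 15882408))) (a (b (l 403758984743) (l 15850800)) (b (b (l 15721824) (l 15779152)) (l 15845200)))) (b (a (l 16045288) (l 15924264)) (a (l 15827936) (l 15861224)))))) (a (b (a (a (l 1) (b (l 1) (a (l 1) (l 364566181703)))) (a (b (c (l 364029616823) (l 15583336)) (b (l 15662360) (l 15691464))) (b (l 197599494023) (b (l 15603720) (l 15496304))))) (a (b (a (b (l 1) (a (l 1) (l 15666728))) (b (a (l 15706704)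 (l 15474072)) (a (l 15444760) (l 15421008)))) (a (b (l 225517224871) (l 234107139735)) (a (l 15563832) (l 15432104)))) (b (a (b (a (l 15441232) (l 15417728)) (l 15401664)) (b (l 15399264) (l 15396296))) (a (b (l 15419072) (l 15451152)) (l 15452304))))) (b (a (b (a (l 15710960) (l 15702760)) (a (l 15633160) (l 15535192))) (b (a (l 15726248) (l 15779504)) (a (l 15572904) (l 15615184)))) (a (b (a (b (l 15395240) (l 15410160)) (b (l 15414272) (l 15441944))) (a (l 15484304) (l 15530352))) (b (a (l 15462952) (b (l 15526128) (l 15569752))) (a (l 15598248) (l 15546080))))))), by decide +kernel⟩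

theorem c_pp_023 : CertB 0 536870912 1610612736 536870912 923417968 42949674 3 eng mog cd0q0 cd1q3 pd2 false true true .up 0 2 3
    ndB0q0 ndB1q3 pcB2 Cut.none Ext.none :=
  certB1 (fam := false) (s1 := true) (s2 := true) (a := 0) (b := 2) (c := 3) (cn := .up) (n1 := ndB0q0) (n2 := ndB1q3) (pc := pcB2) (cut := Cut.none) (xt := Ext.none) (P1 := 0) (W1 := 536870912) (P2 := 1610612736) (W2 := 536870912) (P3 := 923417968) (W3 := 42949674) (N0 := 3) (En := eng) (mo := mog) (C1 := cd0q0) (C2 := cd1q3) (C3 := pd2)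
    rfl (fun _ => rfl) k0_pp_023

noncomputable def f_pp_033 : ℕ → ℕ → ℕ → ℕ → Bool := onCell 0 536870912 1610612736 536870912 923417968 42949674
    (rowB 3 eng mog cd0q0 cd1q3 pd3 1 false true true .pnn 0 3 3 (qsf 0 536870912 1610612736 536870912 3) ndB0q0 ndB1q3 pcB3 Cut.none Ext.none)

def k0_pp_033 : ∃ t, chk3 f_pp_033 t 1 1 1 = true :=
  ⟨(a (b (b (a (b (a (b (c (l 15319080) (l 198135520119)) (c (l 15372384) (l 15390592))) (c (l 15742320) (b (l 15682920) (l 15672504)))) (a (b (a (l 15398352) (l 15500472)) (l 15498136)) (b (l 15678464) (l 15652728)))) (b (a (b (l 15926240) (l 15898992)) (l 16054728)) (a (b (l 15872120) (l 15847424)) (l 16003168)))) (a (b (a (c (l 15423344) (b (l 15355808) (l 15337424))) (b (l 15628224) (l 15606744))) (a (b (b (l 15346752) (l 15336464)) (l 4)) (b (l 15593008) (l 4)))) (b (a (b (l 15826480) (l 15811408)) (b (l 15979712) (l 15974296))) (b (a (l 15814016) (l 16003168)) (l 4))))) (a (l 4) (b (l 4) (a (b (l 4) (l 2)) (l 2))))) (b (a (b (b (a (l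 16164472) (b (l 16277992) (l 16251312))) (a (b (l 16129176) (l 16114800)) (b (l 16243384) (l 16248392)))) (b (a (b (l 16117648) (l 16133208)) (b (l 16256328) (l 16281648))) (a (l 4) (l 4)))) (b (b (a (b (l 16389520) (l 16380096)) (b (l 16509728) (l 16500424))) (a (l 16465112) (l 16505112))) (a (b (b (l 16401976) (l 2)) (l 2)) (l 2)))) (a (b (a (b (l 4) (l 2)) (l 2)) (l 2)) (l 2)))), by decide +kernel⟩

theorem c_pp_033 : CertB 0 536870912 1610612736 536870912 923417968 42949674 3 eng mog cd0q0 cd1q3 pd3 false true true .pnn 0 3 3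
    ndB0q0 ndB1q3 pcB3 Cut.none Ext.none :=
  certB1 (fam := false) (s1 := true) (s2 := true) (a := 0) (b := 3) (c := 3) (cn := .pnn) (n1 := ndB0q0) (n2 := ndB1q3) (pc := pcB3) (cut := Cut.none) (xt := Ext.none) (P1 := 0) (W1 := 536870912) (P2 := 1610612736) (W2 := 536870912) (P3 := 923417968) (W3 := 42949674) (N0 := 3) (En := eng) (mo := mog) (C1 := cd0q0) (C2 := cd1q3) (C3 := pd3)
    rfl (fun _ => rfl) k0_pp_033

noncomputable def f_pp_101 : ℕ → ℕ → ℕ → ℕ → Bool := onCell 536870912 536870912 536870912 536870912 923417968 42949674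
    (rowB 3 eng mog cd0q1 cd1q1 pd0 0 false true true .npn 1 0 1 (qsf 536870912 536870912 536870912 536870912 0) ndB0q1 ndB1q1 pcB0 Cut.none Ext.none)

def k0_pp_101 : ∃ t, chk3 f_pp_101 t 1 1 1 = true :=
  ⟨(l 3), by decide +kernel⟩

theorem c_pp_101 : CertB 536870912 536870912 536870912 536870912 923417968 42949674 3 eng mog cd0q1 cd1q1 pd0 false true true .npn 1 0 1
    ndB0q1 ndB1q1 pcB0 Cut.none Ext.none :=
  certB0 (fam := false) (s1 := true) (s2 := true) (a := 1) (b := 0) (c := 1) (cn := .npn) (n1 := ndB0q1) (n2 := ndB1q1) (pc := pcB0) (cut := Cut.none) (xt := Ext.none) (P1 := 536870912) (W1 := 536870912) (P2 := 536870912) (W2 := 536870912) (P3 := 923417968) (W3 := 42949674) (N0 := 3) (En := eng) (mo := mog) (C1 := cd0q1) (C2 := cd1q1) (C3 := pd0)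
    rfl k0_pp_101

noncomputable def f_pp_102_a : ℕ → ℕ → ℕ → ℕ → Bool := onCell 536870912 536870912 0 536870912 923417968 42949674
    (rowB 3 eng mog cd0q1 cd1q2a pd0 0 false true true .npp 1 0 2 (qsf 536870912 536870912 0 536870912 0) ndB0q1 ndB1q2a pcB0 Cut.none Ext.none)

def k0_pp_102_a : ∃ t, chk3 f_pp_102_a t 1 1 1 = true :=
  ⟨(a (l 3) (l 3)), by decide +kernel⟩

theorem c_pp_102_a : CertB 536870912 536870912 0 536870912 923417968 42949674 3 eng mog cd0q1 cd1q2a pd0 false true true .npp 1 0 2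
    ndB0q1 ndB1q2a pcB0 Cut.none Ext.none :=
  certB0 (fam := false) (s1 := true) (s2 := true) (a := 1) (b := 0) (c := 2) (cn := .npp) (n1 := ndB0q1) (n2 := ndB1q2a) (pc := pcB0) (cut := Cut.none) (xt := Ext.none) (P1 := 536870912) (W1 := 536870912) (P2 := 0) (W2 := 536870912) (P3 := 923417968) (W3 := 42949674) (N0 := 3) (En := eng) (mo := mog) (C1 := cd0q1) (C2 := cd1q2a) (C3 := pd0)
    rfl k0_pp_102_a

noncomputable def f_pp_102_b : ℕ → ℕ → ℕ → ℕ → Bool := onCell 536870912 536870912 0 536870912 923417968 42949674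
    (rowB 3 eng mog cd0q1 cd1q2b pd0 1 false true true .npp 1 0 2 (qsf 536870912 536870912 1239849684 370763052 0) ndB0q1 ndB1q2b pcB0 Cut.none Ext.none)

def k0_pp_102_b : ∃ t, chk3 f_pp_102_b t 1 1 1 = true :=
  ⟨(l 3), by decide +kernel⟩

theorem c_pp_102_b : CertB 536870912 536870912 1239849684 370763052 923417968 42949674 3 eng mog cd0q1 cd1q2b pd0 false true true .npp 1 0 2
    ndB0q1 ndB1q2b pcB0 Cut.none Ext.none :=
  certB1 (fam := false) (s1 := true) (s2 := true) (a := 1) (b := 0) (c := 2) (cn := .npp) (n1 := ndB0q1) (n2 := ndB1q2b) (pc := pcB0) (cut := Cut.none) (xt := Ext.none) (P1 := 536870912) (W1 := 536870912) (P2 := 1239849684) (W2 := 370763052) (P3 := 923417968) (W3 := 42949674) (N0 := 3) (En := eng) (mo := mog) (C1 := cd0q1) (C2 := cd1q2b) (C3 := pd0)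
    rfl (fun _ => rfl) k0_pp_102_b

noncomputable def f_pp_112_a : ℕ → ℕ → ℕ → ℕ → Bool := onCell 536870912 536870912 0 536870912 923417968 42949674
    (rowB 3 eng mog cd0q1 cd1q2a pd1 0 false true true .dn 1 1 2 (qsf 536870912 536870912 0 536870912 1) ndB0q1 ndB1q2a pcB1 Cut.none Ext.none)

def k0_pp_112_a : ∃ t, chk3 f_pp_112_a t 1 1 1 = true :=
  ⟨(a (l 3) (l 1)), by decide +kernel⟩

theorem c_pp_112_a : CertB 536870912 536870912 0 536870912 923417968 42949674 3 eng mog cd0q1 cd1q2a pd1 false true true .dn 1 1 2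
    ndB0q1 ndB1q2a pcB1 Cut.none Ext.none :=
  certB0 (fam := false) (s1 := true) (s2 := true) (a := 1) (b := 1) (c := 2) (cn := .dn) (n1 := ndB0q1) (n2 := ndB1q2a) (pc := pcB1) (cut := Cut.none) (xt := Ext.none) (P1 := 536870912) (W1 := 536870912) (P2 := 0) (W2 := 536870912) (P3 := 923417968) (W3 := 42949674) (N0 := 3) (En := eng) (mo := mog) (C1 := cd0q1) (C2 := cd1q2a) (C3 := pd1)
    rfl k0_pp_112_a

noncomputable def f_pp_112_b : ℕ → ℕ → ℕ → ℕ → Bool := onCell 536870912 536870912 536870912 536870912 923417968 42949674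
    (rowB 3 eng mog cd0q1 cd1q2b pd1 1 false true true .dn 1 1 2 (qsf 536870912 536870912 1239849684 370763052 1) ndB0q1 ndB1q2b pcB1 Cut.none Ext.none)

def k0_pp_112_b : ∃ t, chk3 f_pp_112_b t 1 1 1 = true :=
  ⟨(b (a (l 3) (l 3)) (a (b (a (b (a (b (l 3) (a (b (l 3) (l 16492312)) (l 3))) (l 3)) (a (b (a (b (l 16452784) (l 16411560)) (l 83919189447)) (a (l 16351584) (l 16327200))) (b (a (l 78550424439) (l 129552800567)) (a (l 16305360) (l 16285936))))) (b (l 3) (b (l 3) (a (a (l 107004407575) (l 115057439367)) (l 2))))) (a (b (a (b (a (l 16275320) (l 16249264)) (a (l 16204912) (l 16177120))) (b (a (l 16225856) (l 16205240)) (a (l 16152088) (l 16130064)))) (a (b (l 16062128) (l 16074928)) (b (l 15987400) (l 2)))) (b (a (b (a (l 16187952) (l 2)) (l 2)) (l 2)) (l 2)))) (b (a (l 3) (l 2)) (l 2)))), by decide +kernel⟩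

theorem c_pp_112_b : CertB 536870912 536870912 1239849684 370763052 923417968 42949674 3 eng mog cd0q1 cd1q2b pd1 false true true .dn 1 1 2
    ndB0q1 ndB1q2b pcB1 Cut.none Ext.none :=
  certB1 (fam := false) (s1 := true) (s2 := true) (a := 1) (b := 1) (c := 2) (cn := .dn) (n1 := ndB0q1) (n2 := ndB1q2b) (pc := pcB1) (cut := Cut.none) (xt := Ext.none) (P1 := 536870912) (W1 := 536870912) (P2 := 1239849684) (W2 := 370763052) (P3 := 923417968) (W3 := 42949674) (N0 := 3) (En := eng) (mo := mog) (C1 := cd0q1) (C2 := cd1q2b) (C3 := pd1)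
    rfl (fun _ => rfl) k0_pp_112_b

end Pool.Agent.Strip051.G.I8600_9000.Tab.C.BB01

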