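import Pool.Agent.Strip051.G.I8600_9000.Tab
import Pool.Agent.Strip051.PB.ExtD2

/-! # Certificates B11 (generated) -/

set_option linter.all false
set_option maxRecDepth 100000

namespace Pool.Agent.Strip051.G.I8600_9000.Tab.C.BB01

open Pool.Agent.Strip051.PB Pool.Agent.Strip051.PB.T
open Pool.Agent.Strip051.G.I8600_9000.Tab

noncomputable def cut_pp_113 : Cut := Cut.of [[⟨0, 1, 0, 67108864⟩, ⟨1, 1, 0, 67108864⟩, ⟨2, 2, 0, 16252928⟩]]

noncomputable def xt_pp_113 : Ext := extD2 3 ⟨4, 1, 1, 5, 17, 5, 87, 100, 43, 100, 1, 8⟩ eng cd0q1 cd1q3 pd1 false true true .nn 1 1 3 rfl ndB0q1 ndB1q3 pcB1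

noncomputable def f_pp_113 : ℕ → ℕ → ℕ → ℕ → Bool := onCell 536870912 536870912 536870912 536870912 923417968 42949674
    (rowB 3 eng mog cd0q1 cd1q3 pd1 1 false true true .nn 1 1 3 (qsf 536870912 536870912 1610612736 536870912 1) ndB0q1 ndB1q3 pcB1 cut_pp_113 xt_pp_113)

def k0_pp_113 : ∃ t, chk3 f_pp_113 t 1 2 1 = true :=
  ⟨(a (l 3) (l 3)), by decide +kernel⟩

def k1_pp_113 : ∃ t, chk3 f_pp_113 t 2 3 1 = true :=
  ⟨(b (a (b (l 1) (a (l 1) (b (l 1) (a (l 1) (l 144451135271))))) (b (l 3) (b (l 3) (a (a (b (l 16267416) (l 16182768)) (b (l 3) (l 16222272))) (a (b (l 3) (l 223505164503)) (l 3)))))) (a (b (a (b (l 1) (a (l 1) (l 16052272))) (b (c (l 16238968) (l 16155312)) (a (l 16040344) (l 16034088)))) (a (b (a (l 15985352) (l 15968456)) (a (l 15915648) (l 15900144))) (b (c (l 15970040) (l 15940912)) (l 16077536)))) (b (a (b (a (b (l 16138856) (l 16095776)) (b (l 16138768) (l 16097320))) (a (l 16033496) (l 16079320))) (b (a (b (l 136532038375) (l 16100600)) (b (l 251959297527) (l 151027523847)))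 (a (b (l 16063080) (l 16026424)) (b (l 16072872) (l 16040248))))) (a (b (a (l 15954464) (l 15961248)) (a (l 15891568) (l 15901424))) (b (a (l 15973128) (b (l 16008200) (l 15979064))) (a (l 15918376) (l 15946680))))))), by decide +kernel⟩

def k2_pp_113 : ∃ t, chk3 f_pp_113 t 3 6 2 = true :=
  ⟨(a (l 3) (l 3)), by decide +kernel⟩

def k3_pp_113 : ∃ t, chk3 f_pp_113 t 6 7 2 = true :=
  ⟨(b (a (b (a (b (l 3) (l 262159776151)) (l 3)) (a (b (l 16133352) (l 16108912)) (b (l 194514121111) (l 16158984)))) (b (l 3) (a (b (l 334637264599) (b (l 298130331559) (l 202030451271))) (b (l 3) (a (l 357185984935) (l 3)))))) (a (b (a (l 16074280) (a (l 16119848) (l 16158312))) (a (l 16046288) (l 16129936))) (b (a (b (l 16408736) (l 16234480)) (b (a (b (l 16399400) (l 16324792)) (b (l 360944248199) (l 236927384151))) (b (l 16378160) (l 16395552)))) (a (l 16255424) (b (l 16426976) (l 16481648)))))), by decide +kernel⟩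

def k4_pp_113 : ∃ t, chk3 f_pp_113 t 7 14 2 = true :=
  ⟨(l 3), by decide +kernel⟩

def k5_pp_113 : ∃ t, chk3 f_pp_113 t 14 15 2 = true :=
  ⟨(a (b (b (a (b (l 3) (a (l 253570477399) (l 363092068775))) (l 3)) (a (b (b (l 257865593671) (l 16547192)) (l 16574472)) (b (a (b (l 307794515031) (l 16655600)) (b (l 346986252295) (b (l 328195812199) (l 281487941735)))) (c (l 16727056) (l 16681368))))) (b (a (l 16636224) (l 16710440)) (l 16658472))) (b (b (l 3) (a (a (b (b (l 3) (l 6172775235096875851069522191)) (b (c (l 286856818695) (l 292225529687)) (l 16756384))) (b (l 3) (c (b (l 336785812119) (b (l 334101417271) (l 16754992))) (b (l 335712071815) (b (l 323364033543) (l 16765680)))))) (b (l 3) (a (b (l 3) (a (c (l 301352332439) (l 307794762567)) (b (l 3) (l 349133814695)))) (l 3))))) (a (b (a (l 16699488) (b (l 16705104) (l 16715040))) (l 16677496)) (a (b (b (b (a (b (l 16759080) (l 16751720)) (b (c (l 284172459863) (l 284172486951)) (l 16756456))) (l 16743384)) (l 16723520)) (l 16691320))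 (b (c (b (b (b (a (l 350207583383) (l 3)) (a (l 286856807015) (l 350744450423))) (b (a (l 16749776) (l 289004284599)) (l 16745640))) (l 16729464)) (b (b (b (l 6733716815398336810618568975) (a (l 286856833431) (l 353965673831))) (b (a (l 16759168) (l 289004310215)) (l 16754712))) (l 16737992))) (l 16662296)))))), by decide +kernel⟩

def k6_pp_113 : ∃ t, chk3 f_pp_113 t 15 30 2 = true :=
  ⟨(l 3), by decide +kernel⟩

def k7_pp_113 : ∃ t, chk3 f_pp_113 t 30 62 2 = true :=
  ⟨(a (b (a (b (l 3) (b (a (c (a (l 304573545303) (l 355576289287)) (a (l 313700374103) (l 360945016343))) (l 3)) (b (a (c (l 295983600407) (l 295983625639)) (a (c (l 349670682663) (l 356113171831)) (l 3))) (a (l 16756872) (a (c (l 301352307207) (l 301889202519)) (c (b (l 336785793031) (l 330880213287)) (b (l 343765142119) (l 326585269623)))))))) (l 3)) (a (b (b (a (l 16751776) (a (b (l 16758024) (l 16754992)) (b (c (l 311552856103) (l 16766064)) (l 16759264)))) (a (l 16745408) (l 16753136))) (l 16741464)) (b (a (c (b (b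 (a (l 5863290225275599639268557007) (l 331417106839)) (a (l 16759952) (l 317995321799))) (l 16755728)) (b (b (a (l 327122144439) (l 342154540103)) (a (l 16767488) (l 326048405207))) (l 16765408))) (b (b (l 3) (a (c (l 331417099751) (l 342154542439)) (l 3))) (b (a (c (l 322290292023) (l 322827182663)) (c (l 331953979191) (l 342154544679))) (a (l 16766936) (c (l 321753423927) (l 322290313143)))))) (a (l 16754048) (c (l 16761536) (l 16770648)))))) (b (l 3) (b (a (b (l 3) (a (b (l 3) (a (c (l 331953982343) (l 342154546839)) (l 3))) (l 3))) (l 3)) (a (b (a (a (b (c (l 321216555879) (l 322290314519)) (l 16769968)) (b (c (l 6143761015426022084010885327) (b (l 346986388903) (l 337322703431))) (c (l 320142816775) (l 321216574311)))) (b (l 3) (a (c (b (l 338396446039) (l 344302014951)) (b (l 346986385479) (l 342691417159))) (l 3)))) (a (b (l 16769352) (l 16766728)) (b (a (c (l 16767800) (l 309942296151)) (c (b (l 335175215319) (l 329269632023)) (b (l 343765164343) (l 329806516455)))) (a (l 16772704)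 (c (l 16774496) (l 16778824)))))) (b (l 3) (a (b (a (c (l 341617676967) (l 353965721879)) (l 3)) (a (a (c (l 329269632999) (l 329806516791)) (c (l 6066389762970840779257102543) (l 6056718356413900312530862287))) (a (c (l 337859585463) (l 346449522695)) (l 3)))) (l 3))))))), by decide +kernel⟩

def k8_pp_113 : ∃ t, chk3 f_pp_113 t 30 63 2 = true :=
  ⟨(a (b (a (l 16727632) (l 16743728)) (l 16719504)) (b (a (b (b (a (l 16762872) (l 16770704)) (l 16761776)) (l 16754536)) (a (b (b (a (c (l 16774536) (l 16778352)) (b (c (b (l 6182446641653835215707291727) (l 307257943191)) (b (a (l 316384756183) (l 341080817335)) (l 312626659399))) (l 16778776))) (l 16772992)) (l 16765392)) (b (b (b (a (a (b (l 3) (c (l 321753462215) (l 338396463335))) (l 3)) (l 3)) (a (c (b (l 333027739863) (l 16780112)) (b (a (l 16783888) (l 318532247319)) (l 16783344))) (c (a (l 331417132903) (l 339470206279)) (c (l 340007077079) (l 6182446641653630294251651151))))) (b (a (l 16779672) (a (b (l 16782960) (l 16781608)) (b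 (c (l 314774142743) (l 312089797943)) (l 16783312)))) (l 16778744))) (l 16772240)))) (a (l 16741304) (l 16754728)))), by decide +kernel⟩

def k9_pp_113 : ∃ t, chk3 f_pp_113 t 31 62 2 = true :=
  ⟨(l 3), by decide +kernel⟩

def k10_pp_113 : ∃ t, chk3 f_pp_113 t 62 63 2 = true :=
  ⟨(b (a (b (a (b (l 3) (b (a (c (a (l 6105075389198251283541573711) (l 336785847655)) (b (l 345912663767) (a (l 309405444103) (l 341080823543)))) (l 3)) (a (a (l 16782944) (c (l 305647339095) (l 306184217543))) (c (b (l 335175238231) (a (l 16784328) (l 315847892823))) (b (a (l 338933334823) (l 3)) (a (l 16786736) (l 336785851287))))))) (l 3)) (b (b (a (a (l 16781072) (c (l 16783136) (l 16790640))) (a (a (b (c (l 312626668375) (l 312089802839)) (l 16791112)) (c (l 332490884487) (b (l 347523278695) (l 311016060679)))) (a (c (l 340543954727) (l 350744506167)) (l 3)))) (a (l 16780008) (a (c (l 16783616) (l 16785576)) (c (b (a (l 305110476135) (l 337322727255)) (l 300815508359)) (b (a (l 309942318471) (l 343765181895))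 (a (l 16787008) (l 308331705303))))))) (a (l 16776080) (b (a (l 16781888) (l 16784744)) (l 16780672))))) (b (l 3) (b (a (a (a (b (l 3) (b (l 3) (c (l 335712114487) (l 341617697959)))) (l 3)) (l 3)) (l 3)) (a (a (b (c (b (a (l 16791960) (l 334101501655)) (l 16786040)) (b (a (l 308868575207) (l 340007082231)) (l 302962995111))) (l 16784744)) (b (a (c (l 337859599863) (b (l 3) (l 338396469063))) (l 3)) (b (a (l 16792608) (c (l 307794833415) (c (l 310479188967) (l 311016061271)))) (l 16786616)))) (a (b (l 3) (c (a (l 5989018510515128204248268879) (l 351818246263)) (b (l 360408183719) (a (l 304573610039) (l 350744504695))))) (l 3)))))) (a (b (b (l 16773968) (l 16769008)) (l 16761912)) (b (a (b (b (l 16783336) (l 16780672)) (l 16776768)) (b (b (a (a (l 16786360) (c (l 295983672487) (l 326048438087))) (c (b (l 352891987095) (a (l 302962992615) (l 341080824583))) (b (a (l 350207632951) (l 3)) (a (l 302426124023) (l 349133890199))))) (a (l 16784208) (c (l 317995370199) (b (l 324437824055) (l 16786136)))))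 (l 16791760))) (l 16750520)))), by decide +kernel⟩

def k11_pp_113 : ∃ t, chk3 f_pp_113 t 63 63 2 = true :=
  ⟨(b (l 3) (a (b (a (b (b (l 3) (a (b (a (c (l 340007081959) (l 348597018263)) (l 3)) (a (l 322827210407) (c (l 339470210151) (l 347523275351)))) (l 3))) (b (a (c (l 16785272) (l 16785976)) (b (a (c (l 330343403879) (l 341080823223)) (c (l 360945048311) (l 366850629655))) (a (l 16786280) (c (l 326585306567) (c (l 329806532903) (l 327659050263)))))) (a (l 16782880) (c (l 16784368) (l 16784904))))) (b (l 3) (a (b (a (b (l 3) (c (l 361481917911) (l 365776886343))) (l 3)) (b (a (c (l 322827209143) (c (l 326585306183) (l 290614959767))) (c (l 361481916487) (c (l 363629400855) (l 365776884999)))) (a (l 16785128) (c (l 285783119063) (l 283635636423))))) (b (l 3) (l 6))))) (a (b (l 16779720) (l 16774456)) (b (a (b (l 16783408) (l 6)) (l 6)) (l 6)))) (b (l 3) (l 6)))), by decide +kernel⟩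

def k12_pp_113 : ∃ t, chk3 f_pp_113 t 3 6 3 = true :=
  ⟨(a (l 3) (l 3)), by decide +kernel⟩

def k13_pp_113 : ∃ t, chk3 f_pp_113 t 6 7 3 = true :=
  ⟨(b (a (b (a (l 271286550807) (l 3)) (a (b (l 16052456) (l 16023248)) (b (l 223504964903) (l 16057104)))) (b (l 3) (a (b (l 342153235927) (b (l 311551863271) (l 201493330503))) (b (l 3) (a (l 373828711127) (l 3)))))) (a (b (a (l 15981032) (l 16027224)) (a (l 15941424) (l 16005904))) (b (a (b (l 16102224) (l 16098432)) (b (a (l 219210162695) (b (l 386176862119) (l 233705821207))) (b (l 16215088) (l 16227040)))) (a (l 16107592) (b (l 16250272) (l 16294568)))))), by decide +kernel⟩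

def k14_pp_113 : ∃ t, chk3 f_pp_113 t 7 14 3 = true :=
  ⟨(l 3), by decide +kernel⟩

def k15_pp_113 : ∃ t, chk3 f_pp_113 t 14 15 3 = true :=
  ⟨(b (a (b (a (b (l 3) (a (l 249275154167) (l 400135736871))) (l 3)) (a (b (a (l 16319560) (l 257328379719)) (l 16372656)) (b (a (b (l 270750103991) (l 16439112)) (b (l 400672890903) (b (l 384029946199) (l 286319767687)))) (c (l 16628248) (l 16468624))))) (a (b (l 3) (b (a (c (l 379198355431) (l 408189135815)) (l 3)) (b (a (b (a (l 292762253063) (l 367924060583)) (a (l 16603816) (l 294372874375))) (a (c (l 342691381863) (l 378661456679)) (l 3))) (a (l 16651872) (c (a (l 16779200) (l 303499807719)) (b (a (l 16649624) (l 354502426567)) (l 16696064))))))) (b (l 3) (a (b (l 3) (a (b (l 3) (b (l 3) (c (l 309942300775) (l 319605959959)))) (b (l 3) (c (l 351281361943) (l 6617659936714733244749086991))))) (l 3))))) (a (b (a (l 16422680) (l 16585312)) (l 16604544)) (b (b (b (c (a (l 16761736) (a (b (a (l 16775136) (l 309942293687)) (l 16769664)) (a (b (l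 353428849671) (b (l 350744455719) (l 16774784))) (c (l 359334407863) (l 359871273607))))) (a (l 16670648) (a (b (a (l 16786664) (b (l 339470199703) (l 314774125031))) (l 16780880)) (a (b (l 6559631497373956103586578703) (c (l 315311012951) (l 317995357687))) (b (l 3) (c (l 357723806215) (l 6627331343272290812420653327))))))) (a (l 16752824) (a (l 16763960) (c (b (a (l 16769176) (b (l 294373044295) (l 16772424))) (l 16764384)) (b (a (l 16779800) (b (a (l 16785296) (l 5960004290844904869610897679)) (l 16782712))) (l 16774656)))))) (a (l 16732016) (b (a (l 16749704) (l 16758712)) (l 16740624)))) (a (l 16696248) (b (l 16723088) (l 16703816)))))), by decide +kernel⟩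

def k16_pp_113 : ∃ t, chk3 f_pp_113 t 15 30 3 = true :=
  ⟨(l 3), by decide +kernel⟩

def k17_pp_113 : ∃ t, chk3 f_pp_113 t 60 62 3 = true :=
  ⟨(b (a (b (l 3) (b (a (c (b (l 365240003815) (a (l 301352362295) (l 362018772247))) (a (b (l 364703149575) (a (l 323900930103) (l 324974673175))) (c (l 367387501383) (l 368461232631)))) (l 3)) (a (c (c (l 297594250439) (l 297594262615)) (a (l 16780848) (c (l 301889242103) (l 301889254455)))) (b (a (c (l 6230803674438497829559075087) (b (l 372219339351) (a (l 311016057575) (l 369534981559)))) (l 3)) (a (c (l 301889226711) (c (l 309405431271) (l 309405443415))) (c (c (l 340543928023) (l 344302033527)) (c (b (l 354502592263) (l 338396460567)) (b (l 357186956551) (a (l 324974698343) (l 348597019351)))))))))) (l 3)) (a (b (b (a (l 16769880) (b (a (l 16760072) (c (l 307257935143) (a (l 16782920) (l 307794828551)))) (a (l 16772432) (l 16776032)))) (a (l 16762984) (l 16769576))) (l 16757224)) (b (b (a (b (a (c (b (l 340543935607) (l 317995358407)) (c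 (l 341080817799) (a (l 340543953751) (l 349670763383)))) (c (l 350744490711) (c (l 355039470631) (l 359334446663)))) (a (c (l 16775528) (l 16786680)) (c (b (l 338933324231) (l 319605971367)) (c (l 338933334695) (a (l 324974701239) (l 346986408663)))))) (a (b (l 3) (c (l 351281362807) (c (l 355576341847) (l 358260704519)))) (l 3))) (c (a (l 16778184) (c (b (a (l 329806513447) (l 346449522215)) (l 320142838951)) (b (a (l 332490876695) (l 351818238439)) (l 320679718887)))) (a (b (l 16787800) (l 16779344)) (b (a (b (a (l 323900958503) (l 351281373831)) (l 318532249223)) (b (l 3) (a (l 350744508199) (l 3)))) (a (l 16784520) (c (l 334638368471) (l 5911647258060154363593687247))))))) (a (l 16767800) (a (l 16752160) (c (l 16773488) (l 16785200))))))), by decide +kernel⟩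

def k18_pp_113 : ∃ t, chk3 f_pp_113 t 61 62 3 = true :=
  ⟨(b (l 3) (a (b (b (l 3) (a (b (l 3) (a (b (l 3) (c (l 347523266471) (a (l 343228312871) (l 364166280135)))) (l 3))) (l 3))) (b (a (b (a (c (l 321753460871) (c (l 327659049159) (l 327659057703))) (c (b (l 358260689847) (l 6114746795755410965419868367)) (b (a (l 363629409127) (l 3)) (a (l 330880282455) (l 362555669831))))) (a (l 16781728) (c (l 321216590231) (c (l 327122177783) (l 327122185703))))) (b (l 3) (a (a (c (l 5969675697401644331899830479) (c (l 339470213111) (l 6076061169527732730081706191))) (c (l 357723822567) (c (l 362018795559) (l 6375874772792180213025800399)))) (l 3)))) (a (b (l 16785656) (l 16777384)) (b (a (c (l 16783568) (b (l 323364088471) (l 16787528))) (c (b (a (l 327659045463) (l 359334435367)) (a (l 16784816) (l 318532240663))) (b (a (c (l 341617698631) (l 345375795175)) (l 371145605719)) (a (l 16789960) (c (l 344838921815) (l 343228313895)))))) (a (l 16782504) (c (l 16783448) (l 16789672))))))) (b (l 3)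 (b (l 3) (a (a (a (b (c (l 362018792439) (c (l 366850638039) (l 371682481351))) (c (a (l 312089797527) (l 332490884359)) (b (c (l 321216611911) (l 343765186183)) (l 16789944)))) (b (l 3) (c (c (l 336248977319) (l 339470209863)) (b (c (l 359334442743) (l 363629414807)) (c (l 320142869655) (l 342154572855)))))) (a (b (l 3) (b (l 3) (c (l 351281369719) (c (l 356650088007) (l 360408188935))))) (l 3))) (l 3)))))), by decide +kernel⟩

def k19_pp_113 : ∃ t, chk3 f_pp_113 t 30 63 3 = true :=
  ⟨(a (b (b (l 16732032) (l 16742512)) (l 16728384)) (a (b (b (b (a (l 16772928) (l 16784888)) (l 16770504)) (l 16762176)) (l 16746992)) (b (b (a (b (c (b (a (l 16783904) (b (a (l 312089801863) (l 348597015319)) (l 309942306039))) (l 16782632)) (b (a (l 16788344) (c (b (a (l 318532256567) (l 353965728023)) (l 313700418055)) (b (a (l 320142873703) (l 6482260244918219545481527503)) (l 314774154951)))) (l 16786744))) (l 16780168)) (a (a (b (b (b (l 3) (c (c (l 344302048887) (l 347523278183)) (c (l 350744502359)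 (b (l 360408189095) (l 331417154775))))) (c (l 307794833623) (b (l 330343411399) (l 16789744)))) (l 16784056)) (b (b (l 3) (c (c (l 338396464199) (l 334638372023)) (b (c (l 342691441095) (a (l 324437832631) (l 355039476759))) (l 16796480)))) (l 16789848))) (b (b (l 3) (b (a (c (l 355576344215) (c (l 360945058759) (l 365240029815))) (l 3)) (a (c (c (l 320142865463) (l 320142868871)) (c (l 340543957207) (b (l 352355121815) (l 322827227735)))) (c (l 352891986951) (c (l 358260703815) (l 362555674647)))))) (b (c (b (a (l 16787704) (a (l 313700415335) (l 317995384871))) (l 16787000)) (b (a (l 16791128) (c (l 319069119831) (b (l 348597024935) (l 16795664)))) (l 16790280))) (l 16786344))))) (c (l 16773088) (l 16755184))) (l 16758656)))), by decide +kernel⟩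

def k20_pp_113 : ∃ t, chk3 f_pp_113 t 31 62 3 = true :=
  ⟨(l 3), by decide +kernel⟩

def k21_pp_113 : ∃ t, chk3 f_pp_113 t 124 126 3 = true :=
  ⟨(b (a (b (l 3) (a (b (b (a (c (c (l 348597020615) (l 352355120135)) (c (l 355576348839) (l 359334448567))) (l 3)) (a (c (l 312626665271) (c (l 318532258471) (b (a (l 16793296) (l 331417163207)) (l 16792840)))) (c (c (l 346449536919) (l 349670765335)) (c (l 352891991223) (b (l 363629416327) (a (l 330343420775) (l 360945060359))))))) (c (c (l 306184221847) (l 306721085127)) (b (a (l 16790856) (c (l 317458516023) (b (l 346986411495) (l 16792624)))) (l 16790000)))) (b (l 3) (b (a (c (c (l 343765182263) (l 346986410503)) (c (l 350207636199) (b (l 359871319223) (a (l 326585323671) (l 355576350535))))) (l 3)) (a (c (l 311016061959) (c (l 316921644119) (l 318532259703))) (c (c (l 341617698471) (l 344838921287)) (c (b (l 353428864759) (l 324974709783)) (b (l 356650090391) (a (l 16793384) (l 350744511623)))))))))) (l 3)) (a (b (b (a (l 16786264) (a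 (l 16788392) (c (l 16793776) (c (l 16790424) (l 16796976))))) (l 16784712)) (l 16780344)) (b (b (b (a (a (c (c (l 339470214647) (l 342154566375)) (c (b (l 350207638711) (l 349133891991)) (b (a (l 332490904343) (l 362018802247)) (l 348597024759)))) (c (l 355576346951) (c (l 359334446983) (l 364703158615)))) (l 3)) (a (a (c (l 16789200) (l 16791608)) (c (c (l 316921642487) (l 338933340503)) (c (b (l 346986412631) (l 320142869767)) (b (a (l 327122194343) (l 357186963175)) (l 321216613959))))) (a (c (l 352891991911) (c (l 357186962583) (l 362018803143))) (l 3)))) (a (c (l 16787688) (b (l 16790704) (l 16789168))) (b (a (c (c (l 314774158391) (l 315311031415)) (c (b (l 352891989895) (l 16791672)) (b (l 6346860553121294560091045967) (l 16792776)))) (c (l 351281378631) (c (l 355039478151) (b (l 3) (l 353965735991))))) (a (l 16790976) (a (c (l 16789952) (l 16794600)) (c (l 313700417879) (c (l 319605999559) (l 348060153895)))))))) (a (l 16784352) (c (l 16785976) (l 16790464)))))), by decide +kernel⟩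

def k22_pp_113 : ∃ t, chk3 f_pp_113 t 125 126 3 = true :=
  ⟨(b (l 3) (a (b (a (a (b (l 3) (b (l 3) (c (l 6211460861324321196189466703) (c (l 352355122775) (b (l 362555673207) (l 6404888992462782672985129039)))))) (l 3)) (l 3)) (b (b (a (a (c (l 309405449767) (c (l 314774160439) (b (l 320679742119) (l 16792016)))) (c (c (l 344302054663) (l 346449537447)) (c (l 350207638247) (b (l 359334446647) (l 6337189146564345297258709071))))) (l 3)) (a (c (l 327659052647) (c (l 309405450327) (l 331954024695))) (a (c (c (l 342154570391) (l 344838923927)) (c (l 348060153687) (b (l 356650090951) (l 350207636951)))) (l 3)))) (a (l 16789152) (c (b (a (l 16789544) (c (l 339470215127) (l 342691439447))) (l 16788656)) (b (a (l 16793744) (c (l 345912669063) (b (l 353428864327) (l 317995381175)))) (l 16790144)))))) (b (l 3) (b (l 3) (a (b (a (c (l 360945055591) (c (l 364703154183) (l 368998122999))) (l 3)) (a (c (c (l 310479190695) (a (l 315311028039) (l 344302054535))) (c (l 343765184391) (b (l 349670766727)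 (l 318532255575)))) (c (l 359334441831) (c (l 362555669319) (b (l 3) (l 361481927655)))))) (l 3)))))), by decide +kernel⟩

def k23_pp_113 : ∃ t, chk3 f_pp_113 t 62 127 3 = true :=
  ⟨(a (b (a (l 16771992) (l 16777080)) (l 16764120)) (b (a (b (c (l 16783912) (l 16795792)) (l 16778920)) (b (b (b (a (a (l 16790176) (c (l 334101505431) (c (l 339470216263) (b (l 6288832113779681996223119439) (l 16791136))))) (a (a (c (l 351818247127) (c (l 355039474423) (l 359334442983))) (l 3)) (l 3))) (a (a (l 16788032) (l 16789064)) (a (c (l 333027762487) (c (l 337322731399) (l 336248991287))) (b (c (l 362018795175) (l 368998119271)) (c (l 348597020231) (c (l 351281376391) (l 355039473879))))))) (a (l 16786344) (b (a (l 16788560) (c (l 330880277783) (c (l 335712117351) (l 335175247943)))) (l 16787560)))) (b (l 16784432) (l 16781576)))) (l 16751880))), by decide +kernel⟩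

def k24_pp_113 : ∃ t, chk3 f_pp_113 t 63 63 3 = true :=
  ⟨(b (l 3) (a (b (a (b (b (l 3) (a (b (a (c (c (l 351818245111) (l 355039471543)) (c (b (l 363092537191) (l 348597020455)) (b (l 366313763703) (l 351818246919)))) (l 3)) (a (c (l 16788480) (l 328195924727)) (c (c (l 350744502039) (l 353428857447)) (c (b (l 360408181111) (l 343765180983)) (b (l 363629407495) (l 343765182183)))))) (l 3))) (b (a (c (l 16788048) (c (l 16787336) (l 16790384))) (c (b (a (c (l 344838920679) (l 348597017799)) (l 7323672615369621707234263119)) (a (l 16787264) (c (l 343228306519) (l 346449532631)))) (b (a (c (b (l 358260695863) (l 338933341207)) (b (l 360945051223) (l 337859600471))) (l 7391372461268055440828760143)) (a (l 16787976) (a (l 327122181399) (b (l 365240016919) (l 337322727767))))))) (a (l 16784224) (c (l 16785480) (l 16788728))))) (b (l 3) (b (b (l 3) (a (a (c (l 7284986989141940929258225743) (c (l 7323672615369626586317127759) (l 7352686835040384146141478991))) (l 3)) (l 3))) (a (b (b (a (c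 (l 338933339847) (a (l 336785855879) (l 361481918679))) (l 3)) (a (c (l 16786952) (l 16787504)) (a (c (l 346986402535) (l 359334434071)) (l 3)))) (a (l 16786112) (a (a (l 16786528) (l 6)) (l 6)))) (l 6))))) (a (b (l 16780744) (l 16775224)) (a (a (b (l 16782488) (l 6)) (l 6)) (l 6)))) (b (l 3) (l 6)))), by decide +kernel⟩

theorem s25_pp_113 : ∃ t, chk3 f_pp_113 t 62 126 3 = true := ex3_a k21_pp_113 k22_pp_113

theorem s26_pp_113 : ∃ t, chk3 f_pp_113 t 62 63 3 = true := ex3_b s25_pp_113 k23_pp_113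

theorem s27_pp_113 : ∃ t, chk3 f_pp_113 t 31 63 3 = true := ex3_a s26_pp_113 k24_pp_113

theorem s28_pp_113 : ∃ t, chk3 f_pp_113 t 31 31 3 = true := ex3_b k20_pp_113 s27_pp_113

theorem s29_pp_113 : ∃ t, chk3 f_pp_113 t 30 62 3 = true := ex3_a k17_pp_113 k18_pp_113

theorem s30_pp_113 : ∃ t, chk3 f_pp_113 t 30 31 3 = true := ex3_b s29_pp_113 k19_pp_113

theorem s31_pp_113 : ∃ t, chk3 f_pp_113 t 15 31 3 = true := ex3_a s30_pp_113 s28_pp_113

theorem s32_pp_113 : ∃ t, chk3 f_pp_113 t 15 15 3 = true := ex3_b k16_pp_113 s31_pp_113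

theorem s33_pp_113 : ∃ t, chk3 f_pp_113 t 7 15 3 = true := ex3_a k15_pp_113 s32_pp_113

theorem s34_pp_113 : ∃ t, chk3 f_pp_113 t 7 7 3 = true := ex3_b k14_pp_113 s33_pp_113

theorem s35_pp_113 : ∃ t, chk3 f_pp_113 t 3 7 3 = true := ex3_a k13_pp_113 s34_pp_113

theorem s36_pp_113 : ∃ t, chk3 f_pp_113 t 3 3 3 = true := ex3_b k12_pp_113 s35_pp_113

theorem s37_pp_113 : ∃ t, chk3 f_pp_113 t 31 63 2 = true := ex3_a k10_pp_113 k11_pp_113

theorem s38_pp_113 : ∃ t, chk3 f_pp_113 t 31 31 2 = true := ex3_b k9_pp_113 s37_pp_113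

theorem s39_pp_113 : ∃ t, chk3 f_pp_113 t 30 31 2 = true := ex3_b k7_pp_113 k8_pp_113

theorem s40_pp_113 : ∃ t, chk3 f_pp_113 t 15 31 2 = true := ex3_a s39_pp_113 s38_pp_113

theorem s41_pp_113 : ∃ t, chk3 f_pp_113 t 15 15 2 = true := ex3_b k6_pp_113 s40_pp_113

theorem s42_pp_113 : ∃ t, chk3 f_pp_113 t 7 15 2 = true := ex3_a k5_pp_113 s41_pp_113

theorem s43_pp_113 : ∃ t, chk3 f_pp_113 t 7 7 2 = true := ex3_b k4_pp_113 s42_pp_113

theorem s44_pp_113 : ∃ t, chk3 f_pp_113 t 3 7 2 = true := ex3_a k3_pp_113 s43_pp_113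

theorem s45_pp_113 : ∃ t, chk3 f_pp_113 t 3 3 2 = true := ex3_b k2_pp_113 s44_pp_113

theorem s46_pp_113 : ∃ t, chk3 f_pp_113 t 3 3 1 = true := ex3_c s45_pp_113 s36_pp_113

theorem s47_pp_113 : ∃ t, chk3 f_pp_113 t 1 3 1 = true := ex3_a k1_pp_113 s46_pp_113

theorem s48_pp_113 : ∃ t, chk3 f_pp_113 t 1 1 1 = true := ex3_b k0_pp_113 s47_pp_113

theorem c_pp_113 : CertB 536870912 536870912 1610612736 536870912 923417968 42949674 3 eng mog cd0q1 cd1q3 pd1 false true true .nn 1 1 3
    ndB0q1 ndB1q3 pcB1 cut_pp_113 xt_pp_113 :=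
  certB1 (fam := false) (s1 := true) (s2 := true) (a := 1) (b := 1) (c := 3) (cn := .nn) (n1 := ndB0q1) (n2 := ndB1q3) (pc := pcB1) (cut := cut_pp_113) (xt := xt_pp_113) (P1 := 536870912) (W1 := 536870912) (P2 := 1610612736) (W2 := 536870912) (P3 := 923417968) (W3 := 42949674) (N0 := 3) (En := eng) (mo := mog) (C1 := cd0q1) (C2 := cd1q3) (C3 := pd1)
    rfl (fun _ => rfl) s48_pp_113

noncomputable def cut_pp_123 : Cut := Cut.of [[⟨0, 1, 0, 67108864⟩, ⟨1, 1, 0, 67108864⟩, ⟨2, 2, 0, 16252928⟩]]

noncomputable def f_pp_123 : ℕ → ℕ → ℕ → ℕ → Bool := onCell 536870912 536870912 1073741824 536870912 923417968 42949674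
    (rowB 3 eng mog cd0q1 cd1q3 pd2 1 false true true .npn 1 2 3 (qsf 536870912 536870912 1610612736 536870912 2) ndB0q1 ndB1q3 pcB2 cut_pp_123 Ext.none)

def k0_pp_123 : ∃ t, chk3 f_pp_123 t 2 1 1 = true :=
  ⟨(b (a (b (b (a (b (a (l 15700128) (l 15685208)) (l 15849104)) (b (a (l 15676456) (l 15673800)) (l 15769672))) (a (b (l 15826728) (l 15875064)) (b (l 15851352) (l 15917816)))) (b (a (l 15919600) (l 15985328)) (a (l 15922032) (l 16009672)))) (b (a (b (b (a (l 15677688) (l 15688424)) (l 15864648)) (b (l 15905472) (l 15991624))) (b (b (a (l 15707720) (l 15740736)) (a (l 15849064) (l 15899096))) (b (l 16002728) (l 16113304)))) (a (b (l 16083808) (b (l 16129384) (l 16129728))) (b (b (l 16202152) (l 16267856)) (b (l 16310560) (a (l 16250024) (l 16319512))))))) (a (b (b (a (l 15853496) (l 15949872)) (a (l 15710056) (b (l 15851792) (l 15755040)))) (b (a (b (l 15597480) (l 15658472)) (b (l 15690688) (l 15752808))) (a (l 15811968) (l 15928272)))) (b (b (a (b (l 16107248) (l 16036352)) (b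 (l 16222720) (l 16130664))) (a (b (l 15943656) (l 15824912)) (b (l 16007160) (l 2)))) (a (b (b (l 15767624) (l 2)) (l 2)) (l 2))))), by decide +kernel⟩

def k1_pp_123 : ∃ t, chk3 f_pp_123 t 6 2 1 = true :=
  ⟨(b (b (a (c (b (a (l 15851824) (l 15944680)) (l 16062912)) (b (a (l 15737696) (l 15814136)) (l 15972840))) (b (a (b (b (l 15953608) (l 16000968)) (l 16074288)) (c (l 16361944) (l 16180640))) (a (l 16218760) (b (l 16403520) (l 16449896))))) (a (b (l 16180280) (l 16317528)) (b (a (l 16399776) (l 16413072)) (a (l 16510352) (l 16434336))))) (b (a (b (l 16347232) (a (l 16436072) (l 16497584))) (b (a (l 16543808) (l 16563232)) (a (l 16541704) (l 16568184)))) (b (a (a (l 16422072) (l 16471696)) (a (l 16507560) (l 2))) (a (l 16159528) (l 2))))), by decide +kernel⟩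

def k2_pp_123 : ∃ t, chk3 f_pp_123 t 7 2 1 = true :=
  ⟨(b (b (a (b (a (b (c (a (l 16438064) (l 16471056)) (l 16466344)) (a (l 16452144) (l 16486496))) (b (a (c (l 16510984) (l 16519928)) (c (l 16559152) (l 16564184))) (a (l 16526880) (l 16570312)))) (a (b (l 16486904) (l 16509528)) (a (l 16488472) (b (l 16581568) (l 16596216))))) (b (a (a (b (b (c (l 16611272) (l 16612472)) (l 16613008)) (l 16574200)) (b (a (c (l 16629640) (l 16650664)) (b (b (l 16677288) (l 16676080)) (l 16674520))) (b (l 16661856) (l 16620192)))) (b (a (b (a (c (l 16681056) (l 16700736)) (b (c (l 16726592) (l 16725312)) (l 16723184))) (a (l 16697688) (b (l 16720520) (l 6)))) (b (b (b (a (a (l 16732680) (l 6)) (l 6)) (l 6)) (l 6)) (a (l 6) (a (l 6) (l 2))))) (a (b (a (l 16694792) (l 6)) (l 16656472)) (b (c (l 16733928) (l 16740072)) (l 2))))) (a (a (b (b (l 16620648) (l 16625216)) (l 16630664)) (b (b (l 16661672) (l 16662504)) (l 16652000))) (a (b (l 16689344) (l 2)) (l 2))))) (a (b (a (b (l 16535320) (l 16565408))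 (a (l 16484672) (b (l 16610864) (l 16626288)))) (a (c (l 16571896) (l 16618512)) (c (l 16574872) (l 16633248)))) (b (a (c (l 16614760) (l 16653360)) (l 2)) (l 2)))) (a (b (a (b (l 16608648) (l 2)) (l 2)) (l 2)) (l 2))), by decide +kernel⟩

def k3_pp_123 : ∃ t, chk3 f_pp_123 t 3 3 1 = true :=
  ⟨(a (b (a (b (b (l 16301824) (l 2)) (l 2)) (l 2)) (l 2)) (l 2)), by decide +kernel⟩

theorem s4_pp_123 : ∃ t, chk3 f_pp_123 t 3 2 1 = true := ex3_a k1_pp_123 k2_pp_123

theorem s5_pp_123 : ∃ t, chk3 f_pp_123 t 3 1 1 = true := ex3_b s4_pp_123 k3_pp_123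

theorem s6_pp_123 : ∃ t, chk3 f_pp_123 t 1 1 1 = true := ex3_a k0_pp_123 s5_pp_123

theorem c_pp_123 : CertB 536870912 536870912 1610612736 536870912 923417968 42949674 3 eng mog cd0q1 cd1q3 pd2 false true true .npn 1 2 3
    ndB0q1 ndB1q3 pcB2 cut_pp_123 Ext.none :=
  certB1 (fam := false) (s1 := true) (s2 := true) (a := 1) (b := 2) (c := 3) (cn := .npn) (n1 := ndB0q1) (n2 := ndB1q3) (pc := pcB2) (cut := cut_pp_123) (xt := Ext.none) (P1 := 536870912) (W1 := 536870912) (P2 := 1610612736) (W2 := 536870912) (P3 := 923417968) (W3 := 42949674) (N0 := 3) (En := eng) (mo := mog) (C1 := cd0q1) (C2 := cd1q3) (C3 := pd2)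
    rfl (fun _ => rfl) s6_pp_123

noncomputable def f_pp_133 : ℕ → ℕ → ℕ → ℕ → Bool := onCell 536870912 536870912 1610612736 536870912 923417968 42949674
    (rowB 3 eng mog cd0q1 cd1q3 pd3 1 false true true .dn 1 3 3 (qsf 536870912 536870912 1610612736 536870912 3) ndB0q1 ndB1q3 pcB3 Cut.none Ext.none)

def k0_pp_133 : ∃ t, chk3 f_pp_133 t 1 1 1 = true :=
  ⟨(a (b (a (b (a (b (l 16559576) (l 2)) (l 2)) (l 2)) (l 2)) (l 2)) (l 2)), by decide +kernel⟩

theorem c_pp_133 : CertB 536870912 536870912 1610612736 536870912 923417968 42949674 3 eng mog cd0q1 cd1q3 pd3 false true true .dn 1 3 3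
    ndB0q1 ndB1q3 pcB3 Cut.none Ext.none :=
  certB1 (fam := false) (s1 := true) (s2 := true) (a := 1) (b := 3) (c := 3) (cn := .dn) (n1 := ndB0q1) (n2 := ndB1q3) (pc := pcB3) (cut := Cut.none) (xt := Ext.none) (P1 := 536870912) (W1 := 536870912) (P2 := 1610612736) (W2 := 536870912) (P3 := 923417968) (W3 := 42949674) (N0 := 3) (En := eng) (mo := mog) (C1 := cd0q1) (C2 := cd1q3) (C3 := pd3)
    rfl (fun _ => rfl) k0_pp_133

noncomputable def f_pp_202_a : ℕ → ℕ → ℕ → ℕ → Bool := onCell 0 536870912 0 536870912 923417968 42949674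
    (rowB 3 eng mog cd0q2 cd1q2a pd0 0 false true true .pp 2 0 2 (qsf 0 536870912 0 536870912 0) ndB0q2 ndB1q2a pcB0 Cut.none Ext.none)

def k0_pp_202_a : ∃ t, chk3 f_pp_202_a t 1 1 1 = true :=
  ⟨(l 3), by decide +kernel⟩

theorem c_pp_202_a : CertB 0 536870912 0 536870912 923417968 42949674 3 eng mog cd0q2 cd1q2a pd0 false true true .pp 2 0 2
    ndB0q2 ndB1q2a pcB0 Cut.none Ext.none :=
  certB0 (fam := false) (s1 := true) (s2 := true) (a := 2) (b := 0) (c := 2) (cn := .pp) (n1 := ndB0q2) (n2 := ndB1q2a) (pc := pcB0) (cut := Cut.none) (xt := Ext.none) (P1 := 0) (W1 := 536870912) (P2 := 0) (W2 := 536870912) (P3 := 923417968) (W3 := 42949674) (N0 := 3) (En := eng) (mo := mog) (C1 := cd0q2) (C2 := cd1q2a) (C3 := pd0)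
    rfl k0_pp_202_a

noncomputable def f_pp_202_b : ℕ → ℕ → ℕ → ℕ → Bool := onCell 0 536870912 1239849684 370763052 923417968 42949674
    (rowB 3 eng mog cd0q2 cd1q2b pd0 0 false true true .pp 2 0 2 (qsf 0 536870912 1239849684 370763052 0) ndB0q2 ndB1q2b pcB0 Cut.none Ext.none)

def k0_pp_202_b : ∃ t, chk3 f_pp_202_b t 1 1 1 = true :=
  ⟨(l 3), by decide +kernel⟩

theorem c_pp_202_b : CertB 0 536870912 1239849684 370763052 923417968 42949674 3 eng mog cd0q2 cd1q2b pd0 false true true .pp 2 0 2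
    ndB0q2 ndB1q2b pcB0 Cut.none Ext.none :=
  certB0 (fam := false) (s1 := true) (s2 := true) (a := 2) (b := 0) (c := 2) (cn := .pp) (n1 := ndB0q2) (n2 := ndB1q2b) (pc := pcB0) (cut := Cut.none) (xt := Ext.none) (P1 := 0) (W1 := 536870912) (P2 := 1239849684) (W2 := 370763052) (P3 := 923417968) (W3 := 42949674) (N0 := 3) (En := eng) (mo := mog) (C1 := cd0q2) (C2 := cd1q2b) (C3 := pd0)
    rfl k0_pp_202_b

noncomputable def f_pp_203 : ℕ → ℕ → ℕ → ℕ → Bool := onCell 0 536870912 0 536870912 923417968 42949674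
    (rowB 3 eng mog cd0q2 cd1q3 pd0 1 false true true .up 2 0 3 (qsf 0 536870912 1610612736 536870912 0) ndB0q2 ndB1q3 pcB0 Cut.none Ext.none)

def k0_pp_203 : ∃ t, chk3 f_pp_203 t 1 1 1 = true :=
  ⟨(l 3), by decide +kernel⟩

theorem c_pp_203 : CertB 0 536870912 1610612736 536870912 923417968 42949674 3 eng mog cd0q2 cd1q3 pd0 false true true .up 2 0 3
    ndB0q2 ndB1q3 pcB0 Cut.none Ext.none :=
  certB1 (fam := false) (s1 := true) (s2 := true) (a := 2) (b := 0) (c := 3) (cn := .up) (n1 := ndB0q2) (n2 := ndB1q3) (pc := pcB0) (cut := Cut.none) (xt := Ext.none) (P1 := 0) (W1 := 536870912) (P2 := 1610612736) (W2 := 536870912) (P3 := 923417968) (W3 := 42949674) (N0 := 3) (En := eng) (mo := mog) (C1 := cd0q2) (C2 := cd1q3) (C3 := pd0)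
    rfl (fun _ => rfl) k0_pp_203

noncomputable def cut_pp_213 : Cut := Cut.of [[⟨0, 1, 0, 67108864⟩, ⟨1, 1, 0, 67108864⟩, ⟨2, 2, 0, 16252928⟩]]

noncomputable def f_pp_213 : ℕ → ℕ → ℕ → ℕ → Bool := onCell 0 536870912 1610612736 536870912 923417968 42949674
    (rowB 3 eng mog cd0q2 cd1q3 pd1 0 false true true .pnn 2 1 3 (qsf 0 536870912 1610612736 536870912 1) ndB0q2 ndB1q3 pcB1 cut_pp_213 Ext.none)

def k0_pp_213 : ∃ t, chk3 f_pp_213 t 1 1 1 = true :=
  ⟨(b (l 3) (a (l 3) (b (l 3) (a (l 3) (b (l 3) (a (l 3) (b (l 3) (b (l 3) (b (l 3) (l 6)))))))))), by decide +kernel⟩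

theorem c_pp_213 : CertB 0 536870912 1610612736 536870912 923417968 42949674 3 eng mog cd0q2 cd1q3 pd1 false true true .pnn 2 1 3
    ndB0q2 ndB1q3 pcB1 cut_pp_213 Ext.none :=
  certB0 (fam := false) (s1 := true) (s2 := true) (a := 2) (b := 1) (c := 3) (cn := .pnn) (n1 := ndB0q2) (n2 := ndB1q3) (pc := pcB1) (cut := cut_pp_213) (xt := Ext.none) (P1 := 0) (W1 := 536870912) (P2 := 1610612736) (W2 := 536870912) (P3 := 923417968) (W3 := 42949674) (N0 := 3) (En := eng) (mo := mog) (C1 := cd0q2) (C2 := cd1q3) (C3 := pd1)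
    rfl k0_pp_213

noncomputable def f_pm_001 : ℕ → ℕ → ℕ → ℕ → Bool := onCell 0 536870912 536870912 536870912 923417968 42949674
    (rowB 3 eng mog cd0q0 cd1q1 pd0 0 false true false .up 0 0 1 (qsf 0 536870912 536870912 536870912 0) ndB0q0 ndB1q1 pcB0 Cut.none Ext.none)

def k0_pm_001 : ∃ t, chk3 f_pm_001 t 1 1 1 = true :=
  ⟨(l 4), by decide +kernel⟩

theorem c_pm_001 : CertB 0 536870912 536870912 536870912 923417968 42949674 3 eng mog cd0q0 cd1q1 pd0 false true false .up 0 0 1
    ndB0q0 ndB1q1 pcB0 Cut.none Ext.none :=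
  certB0 (fam := false) (s1 := true) (s2 := false) (a := 0) (b := 0) (c := 1) (cn := .up) (n1 := ndB0q0) (n2 := ndB1q1) (pc := pcB0) (cut := Cut.none) (xt := Ext.none) (P1 := 0) (W1 := 536870912) (P2 := 536870912) (W2 := 536870912) (P3 := 923417968) (W3 := 42949674) (N0 := 3) (En := eng) (mo := mog) (C1 := cd0q0) (C2 := cd1q1) (C3 := pd0)
    rfl k0_pm_001

noncomputable def f_pm_011 : ℕ → ℕ → ℕ → ℕ → Bool := onCell 0 536870912 536870912 536870912 923417968 42949674
    (rowB 3 eng mog cd0q0 cd1q1 pd1 0 false true false .pnn 0 1 1 (qsf 0 536870912 536870912 536870912 1) ndB0q0 ndB1q1 pcB1 Cut.none Ext.none)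

def k0_pm_011 : ∃ t, chk3 f_pm_011 t 1 1 1 = true :=
  ⟨(l 4), by decide +kernel⟩

theorem c_pm_011 : CertB 0 536870912 536870912 536870912 923417968 42949674 3 eng mog cd0q0 cd1q1 pd1 false true false .pnn 0 1 1
    ndB0q0 ndB1q1 pcB1 Cut.none Ext.none :=
  certB0 (fam := false) (s1 := true) (s2 := false) (a := 0) (b := 1) (c := 1) (cn := .pnn) (n1 := ndB0q0) (n2 := ndB1q1) (pc := pcB1) (cut := Cut.none) (xt := Ext.none) (P1 := 0) (W1 := 536870912) (P2 := 536870912) (W2 := 536870912) (P3 := 923417968) (W3 := 42949674) (N0 := 3) (En := eng) (mo := mog) (C1 := cd0q0) (C2 := cd1q1) (C3 := pd1)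
    rfl k0_pm_011

noncomputable def cut_pm_012_a : Cut := Cut.of [[⟨0, 0, 0, 67108864⟩, ⟨1, 1, 0, 67108864⟩, ⟨2, 1, 0, 67108864⟩]]

noncomputable def f_pm_012_a : ℕ → ℕ → ℕ → ℕ → Bool := onCell 0 536870912 0 536870912 923417968 42949674
    (rowB 3 eng mog cd0q0 cd1q2a pd1 0 false true false .pnp 0 1 2 (qsf 0 536870912 0 536870912 1) ndB0q0 ndB1q2a pcB1 cut_pm_012_a Ext.none)

def k0_pm_012_a : ∃ t, chk3 f_pm_012_a t 4 2 1 = true :=
  ⟨(a (l 2) (b (l 2) (a (l 2) (b (l 2) (a (l 2) (b (l 2) (a (l 2) (l 16128200)))))))), by decide +kernel⟩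

def k1_pm_012_a : ∃ t, chk3 f_pm_012_a t 4 6 1 = true :=
  ⟨(a (l 2) (a (b (l 2) (a (b (l 2) (a (l 2) (b (c (l 16288464) (l 16263880)) (c (l 16319744) (l 16294896))))) (b (a (b (l 2) (l 16244800)) (b (l 16217128) (l 16241824))) (b (a (c (l 16285688) (l 16259352)) (l 16269144)) (a (l 16303232) (l 16299104)))))) (b (a (b (a (l 2) (l 16212760)) (a (b (l 2) (l 16193216)) (b (l 16172992) (l 16191688)))) (b (c (l 16164208) (l 16134928)) (c (l 16196200) (l 16165608)))) (a (b (b (a (l 16214856) (l 16212848)) (c (l 16252408) (l 16222688))) (b (a (l 16265800) (l 16262752)) (a (l 16295168) (l 16291544)))) (b (c (l 16237744) (l 16205968)) (c (l 16289128) (l 16256272))))))), by decide +kernel⟩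

def k2_pm_012_a : ∃ t, chk3 f_pm_012_a t 4 7 1 = true :=
  ⟨(a (b (a (l 2) (b (a (l 2) (a (l 2) (b (l 2) (a (b (l 2) (l 6)) (b (l 16377920) (l 16397592)))))) (a (l 6) (a (l 6) (a (l 6) (b (l 16407576) (l 16451232))))))) (a (l 6) (a (l 6) (a (l 6) (a (l 6) (b (b (l 16518768) (b (l 16555496) (l 16580968))) (b (b (l 16607168) (l 16634096)) (b (l 16619808) (l 16627200))))))))) (a (c (b (b (a (a (b (l 16357656) (l 16395096)) (b (l 16353752) (l 16390528))) (a (l 16346928) (l 16363640))) (a (b (a (l 16435368) (l 16430088)) (l 16467624)) (a (l 16445648) (l 16440024)))) (b (a (b (l 16521072) (b (l 16557024) (l 16581952))) (b (l 16507416) (l 16554216))) (b (a (c (l 16574208) (l 16572864)) (l 16540840)) (a (b (l 16619048) (l 16667752)) (b (l 16621592) (l 16669336)))))) (b (b (a (a (b (l 16334592) (l 16371880)) (l 16336552)) (a (l 16319888) (l 16334864))) (a (b (l 16395208) (l 16445672)) (a (l 16418160) (l 16410688)))) (b (a (b (l 16506872) (a (l 16549672) (l 16539792))) (b (l 16478648) (l 16525256)))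 (b (a (b (l 16582760) (l 16609080)) (l 16585112)) (a (b (l 16594160) (a (l 16648880) (l 16636848))) (b (l 16613344) (l 16598136))))))) (b (b (a (c (l 16336600) (l 16305448)) (a (l 16314896) (l 16311256))) (a (b (l 16375424) (l 16436096)) (b (l 16365136) (l 16424360)))) (b (a (b (l 16488968) (c (l 16539480) (l 16506848))) (b (l 16465208) (c (l 16526088) (l 16490312)))) (b (a (b (l 16558992) (l 16520592)) (c (l 16572208) (l 16536080))) (c (a (l 16616720) (l 16620776)) (a (b (l 16591704) (l 16596472)) (l 16542416)))))))), by decide +kernel⟩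

def k3_pm_012_a : ∃ t, chk3 f_pm_012_a t 5 2 1 = true :=
  ⟨(a (b (a (a (l 2) (b (b (l 16213376) (l 16182008)) (b (l 16156664) (l 16137800)))) (c (b (a (l 16210728) (l 16216816)) (a (l 16164432) (l 16171816))) (b (l 16181920) (a (l 16146192) (l 16154736))))) (a (b (a (b (l 16139816) (a (l 2) (l 16116088))) (b (l 16125864) (l 16121264))) (a (b (c (l 16131824) (l 16104648)) (c (l 16144824) (l 16115832))) (b (l 16124392) (l 16177568)))) (b (a (b (l 16133864) (l 16128976)) (b (l 16142008) (l 16136896))) (a (b (l 16131552) (l 16141976)) (b (l 16139000) (l 16148688)))))) (b (a (b (c (a (l 16222720) (l 16228456)) (l 16197680)) (a (c (l 16179128) (l 16163552)) (c (l 16186352) (l 16172600)))) (b (c (a (l 16234016) (l 16239392)) (a (l 16230808) (l 16238992))) (c (a (l 16193480) (l 16200488)) (a (l 16181832) (l 16191192))))) (a (b (a (b (l 16150328) (l 16145064)) (b (l 16158800) (l 16153432))) (a (b (l 16146752) (l 16155776)) (b (l 16154776) (l 16163184)))) (b (c (a (l 16174240) (l 16181944)) (a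 (l 16155208) (l 16164808))) (c (b (l 16178760) (l 16187920)) (b (l 16155456) (l 16161408))))))), by decide +kernel⟩

def k4_pm_012_a : ∃ t, chk3 f_pm_012_a t 5 3 1 = true :=
  ⟨(b (a (a (b (a (b (c (l 16166448) (l 16135800)) (c (l 16197040) (l 16164888))) (b (l 16231328) (c (l 16200112) (l 16166944)))) (b (a (c (l 16236912) (l 16203376)) (c (l 16238408) (l 16203648))) (a (c (l 16286344) (l 16251536)) (c (l 16285976) (l 16249720))))) (b (b (a (l 16160592) (l 16166312)) (a (l 16187720) (l 16192168))) (b (a (l 16223640) (l 16226544)) (a (l 16247632) (l 16269664))))) (b (a (b (a (l 16172464) (l 16179000)) (a (l 16197120) (l 16202512))) (b (c (l 16204008) (l 16174440)) (a (l 16208272) (l 16214336)))) (a (b (a (l 16230008) (l 16233968)) (a (l 16271336) (l 16273560))) (b (l 16219760) (l 16277792))))) (a (b (a (b (a (c (l 16345576) (l 16309568)) (l 16324560)) (a (c (l 16414736) (l 16377608)) (c (l 16409680) (l 16370680)))) (b (a (l 16322784) (l 16321680)) (c (l 16404472) (l 16363424)))) (a (b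 (a (b (l 16454240) (l 16496056)) (b (l 16446096) (l 16486312))) (a (b (c (l 16559200) (l 16520352)) (c (l 16605952) (l 16545768))) (b (l 16444960) (c (l 16593720) (l 16552240))))) (b (c (b (l 16457264) (l 16495416)) (b (l 16415040) (l 16452472))) (c (b (l 16535648) (l 16577840)) (b (l 16492072) (l 16533744)))))) (b (a (b (a (l 16321240) (l 16321384)) (c (l 16399376) (l 16356688))) (b (l 16322584) (c (l 16396056) (l 16352776)))) (c (b (a (l 16465696) (l 16456784)) (a (l 16476512) (l 16481768))) (b (a (l 16421088) (l 16411232)) (a (b (l 16474216) (l 16512128)) (l 16476472))))))), by decide +kernel⟩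

def k5_pm_012_a : ∃ t, chk3 f_pm_012_a t 3 2 1 = true :=
  ⟨(a (a (b (a (b (c (l 16310056) (a (l 16247184) (l 16255264))) (c (l 16252728) (a (l 16200624) (l 16209984)))) (b (c (l 16254984) (a (l 16262576) (l 16268704))) (c (l 16222200) (a (l 16218624) (l 16226112))))) (a (b (c (l 16235376) (a (l 16174552) (l 16184296))) (c (l 16240256) (b (l 16174248) (l 16179032)))) (b (c (l 16206648) (b (l 16201200) (l 16193752))) (c (l 16211456) (b (l 16191760) (l 16195520)))))) (b (a (b (c (l 16257632) (a (l 16273528) (l 16276928))) (c (l 16228552) (a (l 16232320) (l 16237136)))) (b (c (l 16254000) (l 16268712)) (c (l 16228728) (a (l 16240464) (l 16242168))))) (a (b (c (l 16215016) (b (l 16214648) (l 16207272))) (c (l 16219992) (l 16227320))) (b (c (l 16217376) (l 16239808)) (c (l 16222752) (l 16213552)))))) (a (b (a (b (c (l 16243176) (l 16255200)) (c (l 16221800) (l 16283440))) (b (c (l 16246312) (l 16258752)) (c (l 16207952) (l 16276904)))) (b (a (c (l 16212792) (l 16220104)) (c (l 16201440) (l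 16215048))) (a (c (l 16218768) (l 16214376)) (c (l 16208224) (l 16209032))))) (b (a (b (c (l 16247168) (l 16235168)) (c (l 16191896) (l 16248544))) (b (c (a (l 16190432) (l 16180744)) (a (l 16249776) (l 16246232))) (c (l 16176528) (l 16264648)))) (b (a (c (l 16188016) (l 16209232)) (c (l 16175360) (l 16206032))) (a (c (l 16195800) (l 16203096)) (c (l 16184288) (l 16199880))))))), by decide +kernel⟩

def k6_pm_012_a : ∃ t, chk3 f_pm_012_a t 3 3 1 = true :=
  ⟨(a (b (b (b (a (a (c (l 16217368) (l 16190360)) (l 16217416)) (a (l 16226480) (l 16230088))) (a (a (l 16286864) (l 16235440)) (a (l 16242776) (l 16244760)))) (a (a (b (l 16229776) (l 16284568)) (c (l 16291608) (l 16258104))) (a (c (l 16294048) (l 16262632)) (l 16214096)))) (a (b (a (c (l 16222880) (l 16223232)) (b (l 16327448) (l 16328432))) (b (a (l 16343152) (l 16397632)) (a (b (l 16470848) (l 16372200)) (c (l 16427168) (l 16446384))))) (b (a (b (l 16325632) (l 16363888)) (b (l 16318784) (l 16352440))) (a (b (l 16406360) (c (l 16386880)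 (l 16427408))) (b (l 16389208) (c (l 16372544) (l 16403712))))))) (b (a (a (b (b (l 16227280) (l 16240448)) (l 16269208)) (b (b (l 16218256) (l 16230056)) (l 16192608))) (a (b (c (l 16216672) (l 16210368)) (l 16199072)) (b (l 16183648) (c (l 16235456) (l 16221624))))) (a (b (a (b (l 16306008) (l 16335192)) (b (l 16287592) (l 16312504))) (c (b (l 16267232) (a (l 16342912) (l 16318400))) (a (l 16276360) (l 16224704)))) (b (a (b (l 16268520) (l 16289256)) (c (l 16273472) (l 16246328))) (a (b (l 16309840) (c (l 16294728) (l 16306520))) (b (l 16283512) (c (l 16269640) (l 16275408)))))))), by decide +kernel⟩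

theorem s7_pm_012_a : ∃ t, chk3 f_pm_012_a t 3 1 1 = true := ex3_b k5_pm_012_a k6_pm_012_a

theorem s8_pm_012_a : ∃ t, chk3 f_pm_012_a t 5 1 1 = true := ex3_b k3_pm_012_a k4_pm_012_a

theorem s9_pm_012_a : ∃ t, chk3 f_pm_012_a t 4 3 1 = true := ex3_b k1_pm_012_a k2_pm_012_a

theorem s10_pm_012_a : ∃ t, chk3 f_pm_012_a t 4 1 1 = true := ex3_b k0_pm_012_a s9_pm_012_a

theorem s11_pm_012_a : ∃ t, chk3 f_pm_012_a t 2 1 1 = true := ex3_a s10_pm_012_a s8_pm_012_a

theorem s12_pm_012_a : ∃ t, chk3 f_pm_012_a t 1 1 1 = true := ex3_a s11_pm_012_a s7_pm_012_a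

theorem c_pm_012_a : CertB 0 536870912 0 536870912 923417968 42949674 3 eng mog cd0q0 cd1q2a pd1 false true false .pnp 0 1 2
    ndB0q0 ndB1q2a pcB1 cut_pm_012_a Ext.none :=
  certB0 (fam := false) (s1 := true) (s2 := false) (a := 0) (b := 1) (c := 2) (cn := .pnp) (n1 := ndB0q0) (n2 := ndB1q2a) (pc := pcB1) (cut := cut_pm_012_a) (xt := Ext.none) (P1 := 0) (W1 := 536870912) (P2 := 0) (W2 := 536870912) (P3 := 923417968) (W3 := 42949674) (N0 := 3) (En := eng) (mo := mog) (C1 := cd0q0) (C2 := cd1q2a) (C3 := pd1)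
    rfl s12_pm_012_a

noncomputable def cut_pm_012_b : Cut := Cut.of [[⟨0, 0, 0, 67108864⟩, ⟨1, 1, 0, 67108864⟩, ⟨2, 1, 0, 67108864⟩]]

noncomputable def f_pm_012_b : ℕ → ℕ → ℕ → ℕ → Bool := onCell 536870912 536870912 1239849684 370763052 923417968 42949674
    (rowB 3 eng mog cd0q0 cd1q2b pd1 2 false true false .pnp 0 1 2 (qsf 0 536870912 1239849684 370763052 1) ndB0q0 ndB1q2b pcB1 cut_pm_012_b Ext.none)

def k0_pm_012_b : ∃ t, chk3 f_pm_012_b t 2 1 1 = true :=
  ⟨(b (a (l 2) (b (a (b (a (a (l 2) (a (l 2) (b (l 16201984) (l 2)))) (b (c (a (l 16170824) (l 16180896)) (a (l 16246368) (l 16249776))) (c (l 16164392) (l 16198928)))) (l 2)) (b (a (b (c (a (l 16190528) (l 16200328)) (a (l 16253040) (l 16256960))) (a (l 16187696) (l 16191664))) (b (c (l 16321016) (b (l 16254304) (l 16253120))) (a (l 16195832) (l 16200104)))) (a (b (c (l 16128368) (l 16194768)) (l 2)) (c (l 16227936) (l 16177160))))) (a (l 2) (b (a (l 2) (a (l 2) (l 16097480))) (l 2))))) (l 2)), by decide +kernel⟩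

def k1_pm_012_b : ∃ t, chk3 f_pm_012_b t 3 1 1 = true :=
  ⟨(a (b (b (a (b (c (a (b (l 16275600) (l 16188328)) (b (l 16246528) (l 16198456))) (a (b (b (l 16263840) (l 16261272)) (l 16227808)) (b (l 16267016) (l 16228616)))) (a (c (l 16128768) (l 16169672)) (b (l 16168616) (l 16128976)))) (b (a (b (a (l 16241576) (l 16240288)) (l 16192120)) (b (a (l 16237416) (l 16233056)) (a (l 16207328) (l 16201392)))) (a (a (l 16145552) (l 16141240)) (b (l 16156360) (l 16111112))))) (a (b (a (c (l 16069136) (l 16115104)) (l 15953888)) (a (l 2) (l 15949448))) (b (a (l 16003360) (l 16048608)) (a (l 15988144) (l 16067408))))) (b (a (l 2) (b (a (l 16080048) (l 15938368)) (a (l 2) (l 15916528)))) (l 2))) (b (b (a (b (a (b (a (c (l 16243488) (l 16253352)) (l 16220440)) (a (l 16193824) (l 16184744))) (b (a (l 16213112) (l 16205120)) (l 16147816))) (a (b (l 16138232) (l 16090608)) (c (l 16067936) (l 16085104)))) (b (a (b (a (l 16197192) (l 16210080)) (l 16123864)) (b (a (l 16201856) (l 16193504)) (a (l 16125944)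 (l 16113048)))) (a (c (l 16038696) (l 16049136)) (a (l 16005696) (l 15985912))))) (a (b (a (l 16005136) (l 15972776)) (a (l 15950592) (l 15933880))) (b (a (l 15931680) (b (l 15928792) (l 15877832))) (a (l 15868248) (l 15812024))))) (b (a (b (a (l 15896960) (l 15850328)) (a (l 15867112) (l 15809920))) (b (a (l 15797960) (l 15737752)) (a (l 15748200) (l 15678664)))) (a (b (a (l 2) (l 15794928)) (l 2)) (b (a (l 15721856) (l 15641032)) (a (l 15721344) (l 15632088))))))), by decide +kernel⟩

theorem s2_pm_012_b : ∃ t, chk3 f_pm_012_b t 1 1 1 = true := ex3_a k0_pm_012_b k1_pm_012_b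

theorem c_pm_012_b : CertB 0 536870912 1239849684 370763052 923417968 42949674 3 eng mog cd0q0 cd1q2b pd1 false true false .pnp 0 1 2
    ndB0q0 ndB1q2b pcB1 cut_pm_012_b Ext.none :=
  certB2 (fam := false) (s1 := true) (s2 := false) (a := 0) (b := 1) (c := 2) (cn := .pnp) (n1 := ndB0q0) (n2 := ndB1q2b) (pc := pcB1) (cut := cut_pm_012_b) (xt := Ext.none) (P1 := 0) (W1 := 536870912) (P2 := 1239849684) (W2 := 370763052) (P3 := 923417968) (W3 := 42949674) (N0 := 3) (En := eng) (mo := mog) (C1 := cd0q0) (C2 := cd1q2b) (C3 := pd1)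
    rfl (fun _ => rfl) s2_pm_012_b

noncomputable def cut_pm_022_a : Cut := Cut.of [[⟨0, 0, 0, 67108864⟩, ⟨1, 1, 0, 67108864⟩, ⟨2, 1, 0, 67108864⟩]]

noncomputable def f_pm_022_a : ℕ → ℕ → ℕ → ℕ → Bool := onCell 1073741824 536870912 0 536870912 923417968 42949674
    (rowB 3 eng mog cd0q0 cd1q2a pd2 2 false true false .pp 0 2 2 (qsf 0 536870912 0 536870912 2) ndB0q0 ndB1q2a pcB2 cut_pm_022_a Ext.none)

def k0_pm_022_a : ∃ t, chk3 f_pm_022_a t 4 2 1 = true :=
  ⟨(a (b (a (b (l 16323776) (l 16222216)) (b (l 16364008) (l 16281824))) (a (b (a (l 16233648) (l 16268936)) (a (l 16203888) (l 16272160))) (b (a (l 16309592) (l 16354000)) (a (b (l 16315344) (l 16331552)) (b (l 16367248) (l 16388360)))))) (a (b (a (b (l 16426496) (l 16400056)) (l 16344936)) (b (a (l 16400936) (l 16449240)) (a (b (l 16421072) (l 16425624)) (l 16448688)))) (b (b (l 16335328) (a (l 16476480) (l 16430040))) (b (a (l 16483912) (l 16369624)) (a (b (l 16484008) (l 16417880)) (b (l 16386968) (a (l 16437896) (l 16387680)))))))),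 by decide +kernel⟩

def k1_pm_022_a : ∃ t, chk3 f_pm_022_a t 4 3 1 = true :=
  ⟨(b (a (a (b (a (b (l 16242624) (l 16269864)) (b (l 16298688) (l 16331584))) (a (b (c (l 16323056) (l 16297008)) (c (b (l 16361352) (l 16391808)) (b (l 16337040) (l 16369024)))) (a (b (l 16360248) (l 16439712)) (b (l 16394376) (l 16476048))))) (a (b (b (l 16358104) (l 16437968)) (b (a (l 16428928) (l 16463744)) (b (l 16408376) (a (l 16509032) (l 16546080))))) (b (b (l 16419616) (l 16378040)) (a (b (l 16477704) (l 16533408)) (b (l 16533576) (l 16559280)))))) (a (b (a (b (l 16482008) (l 16507112)) (b (l 16511416) (b (l 16507592) (l 16462240)))) (a (b (b (l 16569632) (l 16513176)) (a (b (l 16586720) (l 16561424)) (b (l 16557192) (l 292090800935)))) (b (a (l 206191392311) (b (l 16506088) (l 482143007543))) (a (b (l 467647540247) (l 1)) (l 1))))) (b (a (b (c (l 16454280) (l 16433256)) (a (l 229276743879) (l 471942423895))) (b (a (l 383895475143) (l 453688644743)) (l 1))) (a (b (a (b (l 500933442535) (l 1)) (l 1))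 (l 1)) (l 1))))) (a (b (a (b (b (a (c (l 16426096) (l 16405184)) (a (l 16471968) (l 16509728))) (a (a (l 16436104) (l 16474288)) (a (l 16512744) (l 16551312)))) (l 6)) (b (a (b (a (l 16547568) (l 16585328)) (a (l 16547904) (l 16628200))) (a (b (l 16622872) (l 16589864)) (b (l 16565344) (c (l 292627777207) (l 293164644967))))) (a (l 6) (a (l 6) (a (l 6) (l 1)))))) (a (l 6) (a (l 6) (l 1)))) (b (a (b (a (a (b (c (l 290480246039) (l 16556024)) (l 647499464503)) (b (l 592738581111) (l 1))) (l 1)) (l 1)) (l 1)) (l 1)))), by decide +kernel⟩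

def k2_pm_022_a : ∃ t, chk3 f_pm_022_a t 5 1 1 = true :=
  ⟨(b (a (b (b (a (a (l 16374832) (l 16329344)) (l 1)) (a (a (l 16360136) (c (l 16312192) (l 16307496))) (l 1))) (a (b (a (c (l 190084917847) (l 209412264727)) (b (l 243235056247) (l 489658828055))) (a (b (c (l 250214469799) (l 241087651911)) (a (l 453151743671) (l 1))) (l 1))) (l 1))) (l 1)) (b (l 1) (l 1))), by decide +kernel⟩

def k3_pm_022_a : ∃ t, chk3 f_pm_022_a t 3 1 1 = true :=
  ⟨(l 1), by decide +kernel⟩

theorem s4_pm_022_a : ∃ t, chk3 f_pm_022_a t 4 1 1 = true := ex3_b k0_pm_022_a k1_pm_022_a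

theorem s5_pm_022_a : ∃ t, chk3 f_pm_022_a t 2 1 1 = true := ex3_a s4_pm_022_a k2_pm_022_a

theorem s6_pm_022_a : ∃ t, chk3 f_pm_022_a t 1 1 1 = true := ex3_a s5_pm_022_a k3_pm_022_a

theorem c_pm_022_a : CertB 0 536870912 0 536870912 923417968 42949674 3 eng mog cd0q0 cd1q2a pd2 false true false .pp 0 2 2
    ndB0q0 ndB1q2a pcB2 cut_pm_022_a Ext.none :=
  certB2 (fam := false) (s1 := true) (s2 := false) (a := 0) (b := 2) (c := 2) (cn := .pp) (n1 := ndB0q0) (n2 := ndB1q2a) (pc := pcB2) (cut := cut_pm_022_a) (xt := Ext.none) (P1 := 0) (W1 := 536870912) (P2 := 0) (W2 := 536870912) (P3 := 923417968) (W3 := 42949674) (N0 := 3) (En := eng) (mo := mog) (C1 := cd0q0) (C2 := cd1q2a) (C3 := pd2)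
    rfl (fun _ => rfl) s6_pm_022_a

noncomputable def cut_pm_022_b : Cut := Cut.of [[⟨0, 0, 0, 67108864⟩, ⟨1, 1, 0, 67108864⟩, ⟨2, 1, 0, 67108864⟩]]

noncomputable def f_pm_022_b : ℕ → ℕ → ℕ → ℕ → Bool := onCell 0 536870912 1073741824 536870912 923417968 42949674
    (rowB 3 eng mog cd0q0 cd1q2b pd2 1 false true false .pp 0 2 2 (qsf 0 536870912 1239849684 370763052 2) ndB0q0 ndB1q2b pcB2 cut_pm_022_b Ext.none)

def k0_pm_022_b : ∃ t, chk3 f_pm_022_b t 1 2 1 = true :=
  ⟨(a (a (b (a (b (l 1) (a (b (l 1) (l 325913198615)) (b (l 320007760615) (l 205117343207)))) (b (a (b (l 1) (l 346314559575)) (b (b (l 1) (l 16489968)) (b (l 16432528) (l 16337384)))) (a (b (l 16452864) (l 16360024)) (b (l 16244120) (l 16223760))))) (a (b (b (a (a (l 191695460791) (l 16321608)) (l 16360904)) (a (a (l 16256784) (l 16323928)) (l 16341072))) (b (a (l 16179576) (l 16271808)) (a (l 16208328) (l 16210304)))) (b (a (b (l 16280592) (l 16191464)) (b (l 16153720) (l 16094872))) (a (l 16126168) (l 16022576))))) (b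 (b (a (a (b (l 283500234967) (l 16206008)) (b (l 16124864) (l 16152144))) (b (a (l 16142800) (l 16050608)) (a (l 16050784) (l 15964160)))) (a (b (a (l 16179168) (l 16069576)) (a (l 16104208) (l 16001568))) (b (l 15932688) (l 15873176)))) (a (b (b (l 15803952) (l 15945392)) (b (l 15906864) (l 15876256))) (b (b (l 15826360) (l 15790488)) (l 15752872))))) (b (a (b (a (b (a (l 15973552) (l 15909536)) (l 15860912)) (b (a (l 15855880) (l 15811632)) (l 15760456))) (a (b (l 15795832) (l 15744496)) (b (l 15701496) (l 15655768)))) (b (a (a (l 15824040) (l 15841352)) (a (l 15766984) (l 15770600))) (a (b (l 15641544) (l 15600440)) (l 15813624)))) (a (b (a (l 15795048) (l 15609432)) (a (l 15651704) (l 15581608))) (a (b (l 15560592) (l 2)) (l 2))))), by decide +kernel⟩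

def k1_pm_022_b : ∃ t, chk3 f_pm_022_b t 1 3 1 = true :=
  ⟨(a (a (b (a (b (b (a (l 16145136) (l 16157336)) (l 16038328)) (a (l 15959936) (l 16017200))) (b (a (l 16039768) (l 15955056)) (l 15947880))) (b (a (b (l 15867808) (l 15784848)) (l 15919184)) (a (a (l 15409488) (l 15702040)) (l 15815912)))) (b (a (b (l 15783520) (l 15832408)) (b (l 15732184) (l 15742384))) (b (a (l 15841160) (l 2)) (l 2)))) (b (a (b (a (l 15647152) (l 2)) (l 2)) (l 2)) (l 2))), by decide +kernel⟩

theorem s2_pm_022_b : ∃ t, chk3 f_pm_022_b t 1 1 1 = true := ex3_b k0_pm_022_b k1_pm_022_b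

theorem c_pm_022_b : CertB 0 536870912 1239849684 370763052 923417968 42949674 3 eng mog cd0q0 cd1q2b pd2 false true false .pp 0 2 2
    ndB0q0 ndB1q2b pcB2 cut_pm_022_b Ext.none :=
  certB1 (fam := false) (s1 := true) (s2 := false) (a := 0) (b := 2) (c := 2) (cn := .pp) (n1 := ndB0q0) (n2 := ndB1q2b) (pc := pcB2) (cut := cut_pm_022_b) (xt := Ext.none) (P1 := 0) (W1 := 536870912) (P2 := 1239849684) (W2 := 370763052) (P3 := 923417968) (W3 := 42949674) (N0 := 3) (En := eng) (mo := mog) (C1 := cd0q0) (C2 := cd1q2b) (C3 := pd2)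
    rfl (fun _ => rfl) s2_pm_022_b

noncomputable def f_pm_023 : ℕ → ℕ → ℕ → ℕ → Bool := onCell 0 536870912 1073741824 536870912 923417968 42949674
    (rowB 3 eng mog cd0q0 cd1q3 pd2 1 false true false .up 0 2 3 (qsf 0 536870912 1610612736 536870912 2) ndB0q0 ndB1q3 pcB2 Cut.none Ext.none)

def k0_pm_023 : ∃ t, chk3 f_pm_023 t 1 1 1 = true :=
  ⟨(b (a (a (l 1) (b (l 1) (a (l 1) (b (l 1) (l 15982720))))) (b (a (b (l 1) (a (l 1) (l 296920911911))) (a (b (a (l 1) (l 302289762663)) (b (l 15854376) (l 15806328))) (b (a (l 299068518471) (b (l 15937112) (l 15865888))) (a (l 15790816) (l 15776664))))) (a (b (a (l 15729912) (l 15742072)) (a (l 15871960) (l 15775648))) (b (a (l 15749400) (l 15698120)) (a (l 15697800) (l 15645376)))))) (a (a (b (b (l 1) (a (l 1) (l 551935556599))) (b (a (l 438654213655) (l 500395633287)) (a (b (l 15496944) (l 15429136)) (b (l 15670008) (l 15624312))))) (b (a (b (l 16050880) (l 15940672)) (b (l 15950456) (l 15929064))) (b (a (l 15849080) (l 15884616)) (a (l 15784488)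 (l 15851944))))) (b (a (b (a (l 15842104) (l 15746960)) (l 15949632)) (a (b (l 15673000) (l 15676776)) (b (l 15625024) (l 15639176)))) (a (b (l 15916472) (a (l 15844520) (l 15797576))) (b (a (l 15709776) (l 15689352)) (a (l 15774608) (l 15785624))))))), by decide +kernel⟩

theorem c_pm_023 : CertB 0 536870912 1610612736 536870912 923417968 42949674 3 eng mog cd0q0 cd1q3 pd2 false true false .up 0 2 3
    ndB0q0 ndB1q3 pcB2 Cut.none Ext.none :=
  certB1 (fam := false) (s1 := true) (s2 := false) (a := 0) (b := 2) (c := 3) (cn := .up) (n1 := ndB0q0) (n2 := ndB1q3) (pc := pcB2) (cut := Cut.none) (xt := Ext.none) (P1 := 0) (W1 := 536870912) (P2 := 1610612736) (W2 := 536870912) (P3 := 923417968) (W3 := 42949674) (N0 := 3) (En := eng) (mo := mog) (C1 := cd0q0) (C2 := cd1q3) (C3 := pd2)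
    rfl (fun _ => rfl) k0_pm_023

noncomputable def f_pm_033 : ℕ → ℕ → ℕ → ℕ → Bool := onCell 1610612736 536870912 1610612736 536870912 923417968 42949674
    (rowB 3 eng mog cd0q0 cd1q3 pd3 2 false true false .pnn 0 3 3 (qsf 0 536870912 1610612736 536870912 3) ndB0q0 ndB1q3 pcB3 Cut.none Ext.none)

def k0_pm_033 : ∃ t, chk3 f_pm_033 t 1 1 1 = true :=
  ⟨(a (b (a (a (b (b (l 4) (a (a (l 15569240) (l 4)) (l 4))) (b (a (l 15723008) (l 699775806983)) (a (l 15866928) (l 15799376)))) (l 4)) (l 4)) (a (b (a (b (a (l 15989864) (l 15932096)) (l 16058576)) (b (a (l 15877032) (l 4)) (a (l 16002856) (l 15959416)))) (a (b (a (l 16242664) (l 16179096)) (a (l 16438768) (l 16379384))) (b (a (l 16125360) (l 16079160)) (a (l 16319736) (l 16260688))))) (b (l 4) (a (b (a (l 16042880) (l 4)) (a (l 16209824) (l 16171856))) (l 4))))) (l 4)), by decide +kernel⟩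

theorem c_pm_033 : CertB 0 536870912 1610612736 536870912 923417968 42949674 3 eng mog cd0q0 cd1q3 pd3 false true false .pnn 0 3 3
    ndB0q0 ndB1q3 pcB3 Cut.none Ext.none :=
  certB2 (fam := false) (s1 := true) (s2 := false) (a := 0) (b := 3) (c := 3) (cn := .pnn) (n1 := ndB0q0) (n2 := ndB1q3) (pc := pcB3) (cut := Cut.none) (xt := Ext.none) (P1 := 0) (W1 := 536870912) (P2 := 1610612736) (W2 := 536870912) (P3 := 923417968) (W3 := 42949674) (N0 := 3) (En := eng) (mo := mog) (C1 := cd0q0) (C2 := cd1q3) (C3 := pd3)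
    rfl (fun _ => rfl) k0_pm_033

noncomputable def f_pm_101 : ℕ → ℕ → ℕ → ℕ → Bool := onCell 0 536870912 536870912 536870912 923417968 42949674
    (rowB 3 eng mog cd0q1 cd1q1 pd0 2 false true false .npn 1 0 1 (qsf 536870912 536870912 536870912 536870912 0) ndB0q1 ndB1q1 pcB0 Cut.none Ext.none)

def k0_pm_101 : ∃ t, chk3 f_pm_101 t 1 1 1 = true :=
  ⟨(b (l 4) (a (a (b (a (b (a (b (l 4) (a (l 15686640) (l 4))) (l 4)) (a (b (a (l 15649072) (l 15655960)) (l 15643816)) (b (a (l 15667928) (l 15684104)) (c (l 15638200) (l 15664944))))) (b (l 4) (b (l 4) (a (c (l 15637040) (l 15678384)) (a (l 15703112) (l 4)))))) (a (b (a (b (l 15685904) (c (l 15847136) (l 15778528))) (b (l 15672672) (l 15717976))) (a (b (a (l 15838304) (l 15829128)) (b (a (l 15930576) (l 15889584)) (l 15914200))) (b (c (l 15785824) (l 15777560)) (a (l 15850696) (l 15828720))))) (b (a (b (l 15640032) (l 15665056)) (b (l 15695240) (l 15688232))) (a (b (l 15707608) (a (l 15784168) (l 15757840))) (b (l 15714344) (l 15764648))))))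 (b (l 4) (a (b (a (b (c (l 15736312) (l 15799752)) (l 15750776)) (b (l 4) (c (l 15786832) (l 15832312)))) (a (b (l 15762400) (l 16007912)) (a (l 15777464) (l 15811976)))) (b (a (b (l 4) (b (l 4) (l 15864000))) (l 4)) (a (b (l 15845824) (l 15813528)) (b (c (l 15883232) (l 15915544)) (l 15871136))))))) (a (b (l 4) (b (l 4) (a (a (b (a (l 15942552) (l 4)) (l 15916768)) (b (l 4) (c (l 15956680) (l 15976464)))) (a (b (l 4) (a (l 16001264) (l 4))) (l 4))))) (l 4)))), by decide +kernel⟩

theorem c_pm_101 : CertB 536870912 536870912 536870912 536870912 923417968 42949674 3 eng mog cd0q1 cd1q1 pd0 false true false .npn 1 0 1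
    ndB0q1 ndB1q1 pcB0 Cut.none Ext.none :=
  certB2 (fam := false) (s1 := true) (s2 := false) (a := 1) (b := 0) (c := 1) (cn := .npn) (n1 := ndB0q1) (n2 := ndB1q1) (pc := pcB0) (cut := Cut.none) (xt := Ext.none) (P1 := 536870912) (W1 := 536870912) (P2 := 536870912) (W2 := 536870912) (P3 := 923417968) (W3 := 42949674) (N0 := 3) (En := eng) (mo := mog) (C1 := cd0q1) (C2 := cd1q1) (C3 := pd0)
    rfl (fun _ => rfl) k0_pm_101

end Pool.Agent.Strip051.G.I8600_9000.Tab.C.BB01

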