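import Pool.Agent.Strip051.G.I8600_9000.Tab
import Pool.Agent.Strip051.PB.ExtD2

/-! # Certificates B13 (generated) -/

set_option linter.all false
set_option maxRecDepth 100000

namespace Pool.Agent.Strip051.G.I8600_9000.Tab.C.BB01

open Pool.Agent.Strip051.PB Pool.Agent.Strip051.PB.T
open Pool.Agent.Strip051.G.I8600_9000.Tab

noncomputable def cut_pm_102_b : Cut := Cut.of [[⟨0, 1, 0, 53687091⟩, ⟨1, 0, 0, 53687091⟩, ⟨2, 1, 0, 53687091⟩], [⟨0, 0, 1, 20971520⟩, ⟨1, 1, 2, 20971520⟩, ⟨2, 1, 0, 8388608⟩]]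

noncomputable def f_pm_102_b : ℕ → ℕ → ℕ → ℕ → Bool := onCell 536870912 536870912 0 536870912 923417968 42949674
    (rowB 3 eng mog cd0q1 cd1q2b pd0 1 false true false .npp 1 0 2 (qsf 536870912 536870912 1239849684 370763052 0) ndB0q1 ndB1q2b pcB0 cut_pm_102_b Ext.none)

def k0_pm_102_b : ∃ t, chk3 f_pm_102_b t 1 1 1 = true :=
  ⟨(a (b (l 1) (b (l 1) (a (l 1) (b (a (l 1) (b (a (l 1) (b (l 1) (a (l 1) (b (l 1) (l 92375236807))))) (a (b (l 1) (a (l 1) (l 156799617607))) (b (a (b (l 1) (l 16711768)) (a (l 16702440) (b (l 16737936) (l 16723720)))) (a (l 16673736) (l 16668016)))))) (a (b (a (l 1) (a (l 1) (l 227666408263))) (a (b (l 1) (l 128345224343)) (b (l 26339862327) (l 16670480)))) (b (a (b (a (l 16636928) (l 16713008)) (l 7549484983)) (b (a (l 16711200) (l 16683872)) (l 16631144))) (a (b (l 16700984) (l 16679840)) (l 16555248)))))))) (a (b (l 1) (b (a (a (a (l 1) (a (l 1) (l 3))) (l 3)) (l 3)) (a (b (b (a (b (a (a (l 1) (b (l 1) (c (l 104723293431) (l 88617168103)))) (a (a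 (b (l 1) (c (b (l 83919551175) (l 16739224)) (b (l 16725192) (l 16739296)))) (b (l 3) (b (l 3) (l 224579732087)))) (l 3))) (a (b (a (l 16731816) (b (c (l 16742072) (l 16722072)) (l 16714528))) (a (l 16717600) (l 16724912))) (a (b (b (a (l 16732304) (l 16725336)) (l 16721928)) (l 16711472)) (b (l 3) (l 16697376))))) (l 3)) (a (a (b (b (l 16675464) (l 16703264)) (l 16682808)) (b (b (a (l 16697320) (l 16683768)) (l 16676640)) (l 16635496))) (b (l 3) (a (l 325511187063) (l 3))))) (a (b (b (a (l 16656920) (l 16630856)) (l 16619488)) (l 16523360)) (a (b (b (l 16604960) (l 16581712)) (l 16549376)) (b (l 3) (l 266455237975))))) (l 3)))) (l 3))), by decide +kernel⟩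

theorem c_pm_102_b : CertB 536870912 536870912 1239849684 370763052 923417968 42949674 3 eng mog cd0q1 cd1q2b pd0 false true false .npp 1 0 2
    ndB0q1 ndB1q2b pcB0 cut_pm_102_b Ext.none :=
  certB1 (fam := false) (s1 := true) (s2 := false) (a := 1) (b := 0) (c := 2) (cn := .npp) (n1 := ndB0q1) (n2 := ndB1q2b) (pc := pcB0) (cut := cut_pm_102_b) (xt := Ext.none) (P1 := 536870912) (W1 := 536870912) (P2 := 1239849684) (W2 := 370763052) (P3 := 923417968) (W3 := 42949674) (N0 := 3) (En := eng) (mo := mog) (C1 := cd0q1) (C2 := cd1q2b) (C3 := pd0)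
    rfl (fun _ => rfl) k0_pm_102_b

noncomputable def f_pm_112_a : ℕ → ℕ → ℕ → ℕ → Bool := onCell 536870912 536870912 0 536870912 923417968 42949674
    (rowB 3 eng mog cd0q1 cd1q2a pd1 2 false true false .dn 1 1 2 (qsf 536870912 536870912 0 536870912 1) ndB0q1 ndB1q2a pcB1 Cut.none Ext.none)

def k0_pm_112_a : ∃ t, chk3 f_pm_112_a t 8 4 1 = true :=
  ⟨(a (b (a (b (c (c (a (l 16279384) (l 16262056)) (l 16322480)) (a (l 16359136) (l 16345440))) (c (c (l 16263112) (l 16235520)) (c (l 16273472) (l 16314048)))) (b (c (c (l 16237880) (l 16271432)) (c (l 16307456) (l 16345952))) (c (c (l 16170664) (l 16208504)) (l 16270496)))) (b (a (c (c (l 16128744) (l 16168640)) (l 16234032)) (c (c (l 16102624) (l 16144896)) (l 16193176))) (a (b (c (l 16095856) (l 16189112)) (c (c (a (b (l 16053272) (l 16038904)) (b (l 16045152) (l 16042176))) (a (l 16091032) (l 16090096))) (a (b (l 16171008) (l 16158488)) (l 16163688)))) (c (b (c (a (l 16058392) (l 16057336)) (a (l 16103216) (l 16102168))) (l 16075600))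 (b (a (l 16176648) (l 16175592)) (l 16168784)))))) (b (a (b (c (c (l 16208864) (l 16244792)) (l 16303632)) (c (c (l 16144696) (l 16184792)) (l 16229464))) (c (b (c (l 16183320) (l 16221384)) (l 16142760)) (c (l 16214808) (l 16281696)))) (b (b (a (c (l 16117456) (l 16210376)) (a (c (l 16104096) (l 16199432)) (c (l 16103616) (l 16198616)))) (a (c (c (a (l 16070392) (l 16069536)) (a (l 16115064) (l 16114152))) (a (l 16188224) (l 16187200))) (c (l 16098728) (l 16191048)))) (c (a (c (l 16068864) (l 16110768)) (l 16103728)) (a (l 16179464) (l 16187672)))))), by decide +kernel⟩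

def k1_pm_112_a : ∃ t, chk3 f_pm_112_a t 9 4 1 = true :=
  ⟨(a (b (c (b (a (l 16180680) (a (l 16166688) (l 16158048))) (a (b (l 16138352) (a (l 16115888) (l 16115992))) (b (a (l 16127872) (l 16128688)) (l 16123048)))) (a (b (l 16266368) (a (l 16200496) (l 16197248))) (b (l 16251192) (l 16198712)))) (c (a (b (l 16112336) (l 16117320)) (l 16127720)) (b (a (l 16200912) (l 16207720)) (l 16198432)))) (b (b (a (c (b (l 16160168) (a (l 16140224) (l 16141832))) (a (l 16221192) (l 16219280))) (c (a (l 16151288) (l 16154840)) (l 16221272))) (c (a (l 16136472) (l 16148824)) (a (l 16222368) (l 16228168)))) (c (a (l 16139496) (l 16150152)) (a (l 16210216) (l 16214688))))), by decide +kernel⟩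

def k2_pm_112_a : ∃ t, chk3 f_pm_112_a t 4 5 1 = true :=
  ⟨(a (b (a (c (b (a (c (l 16046464) (l 16088360)) (l 16082992)) (a (l 16079480) (l 16094816))) (b (a (l 16157136) (l 16167344)) (l 16162352))) (c (c (a (l 16087024) (l 16101624)) (l 16126776)) (b (l 16180664) (l 16179336)))) (a (b (c (l 16101232) (l 16163896)) (c (l 16116904) (l 16166888))) (c (b (l 16127480) (l 16141480)) (l 16201568)))) (a (b (b (c (l 16130176) (l 16194072)) (c (l 16138544) (l 16191344))) (c (l 16155200) (l 16191024))) (b (a (l 16152432) (l 16158328)) (c (l 16170880) (l 16196496))))), by decide +kernel⟩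

def k3_pm_112_a : ∃ t, chk3 f_pm_112_a t 4 3 1 = true :=
  ⟨(b (a (b (a (b (l 15984280) (l 16144000)) (b (l 16149776) (l 16162008))) (a (c (l 16164832) (l 16170264)) (c (l 16186360) (l 16205520)))) (b (a (c (l 16184824) (l 16197896)) (c (l 16198976) (l 16203448))) (a (c (l 16203840) (l 16194792)) (c (l 16240760) (l 16204304))))) (a (b (a (b (l 16194392) (l 16194384)) (b (l 16234368) (l 16174160))) (a (b (c (l 16272744) (l 16243232)) (a (l 16123040) (l 16136856))) (b (l 16264424) (l 1)))) (b (a (b (l 16251640) (l 1)) (l 1)) (l 1)))), by decide +kernel⟩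

def k4_pm_112_a : ∃ t, chk3 f_pm_112_a t 5 1 1 = true :=
  ⟨(b (a (b (a (b (c (a (l 16161552) (l 16172360)) (b (l 16226568) (l 16234992))) (c (a (l 16159704) (l 16168152)) (a (l 16218120) (l 16220504)))) (b (l 1) (l 1))) (a (b (c (l 16169056) (l 16225888)) (c (l 16183952) (l 16200080))) (l 1))) (l 1)) (b (l 1) (l 1))), by decide +kernel⟩

def k5_pm_112_a : ∃ t, chk3 f_pm_112_a t 3 1 1 = true :=
  ⟨(l 1), by decide +kernel⟩

theorem s6_pm_112_a : ∃ t, chk3 f_pm_112_a t 4 4 1 = true := ex3_a k0_pm_112_a k1_pm_112_a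

theorem s7_pm_112_a : ∃ t, chk3 f_pm_112_a t 4 2 1 = true := ex3_b s6_pm_112_a k2_pm_112_a

theorem s8_pm_112_a : ∃ t, chk3 f_pm_112_a t 4 1 1 = true := ex3_b s7_pm_112_a k3_pm_112_a

theorem s9_pm_112_a : ∃ t, chk3 f_pm_112_a t 2 1 1 = true := ex3_a s8_pm_112_a k4_pm_112_a

theorem s10_pm_112_a : ∃ t, chk3 f_pm_112_a t 1 1 1 = true := ex3_a s9_pm_112_a k5_pm_112_a

theorem c_pm_112_a : CertB 536870912 536870912 0 536870912 923417968 42949674 3 eng mog cd0q1 cd1q2a pd1 false true false .dn 1 1 2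
    ndB0q1 ndB1q2a pcB1 Cut.none Ext.none :=
  certB2 (fam := false) (s1 := true) (s2 := false) (a := 1) (b := 1) (c := 2) (cn := .dn) (n1 := ndB0q1) (n2 := ndB1q2a) (pc := pcB1) (cut := Cut.none) (xt := Ext.none) (P1 := 536870912) (W1 := 536870912) (P2 := 0) (W2 := 536870912) (P3 := 923417968) (W3 := 42949674) (N0 := 3) (En := eng) (mo := mog) (C1 := cd0q1) (C2 := cd1q2a) (C3 := pd1)
    rfl (fun _ => rfl) s10_pm_112_a

noncomputable def f_pm_112_b : ℕ → ℕ → ℕ → ℕ → Bool := onCell 536870912 536870912 536870912 536870912 923417968 42949674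
    (rowB 3 eng mog cd0q1 cd1q2b pd1 1 false true false .dn 1 1 2 (qsf 536870912 536870912 1239849684 370763052 1) ndB0q1 ndB1q2b pcB1 Cut.none Ext.none)

def k0_pm_112_b : ∃ t, chk3 f_pm_112_b t 2 4 1 = true :=
  ⟨(a (a (b (l 1) (a (a (l 1) (b (l 1) (c (c (l 124049618151) (l 62846413927)) (l 55867130391)))) (a (b (l 1) (c (b (l 16175336) (l 133713217351)) (l 109017305495))) (c (b (b (l 1) (l 16189632)) (l 158409318471)) (b (l 16265248) (l 16230856)))))) (b (b (b (l 1) (a (l 1) (a (l 1) (c (l 229276461639) (l 16348720))))) (a (a (l 1) (a (l 1) (c (l 227665802439) (l 16295680)))) (c (a (b (l 225518305831) (l 95595502871)) (b (l 85395015191) (l 16239208))) (a (l 93448153847) (b (l 16330640) (l 16312280)))))) (c (a (b (a (b (l 219075757319) (l 16189416)) (b (l 16209240) (l 16191288))) (a (l 16163128) (l 16164296))) (b (a (b (l 16213680) (l 16195192)) (l 16210520)) (l 16169912))) (a (b (a (l 103648628967) (l 140692709655)) (l 16225544)) (b (a (l 16282024) (l 16284200)) (l 16245440))))))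 (c (b (a (b (b (a (a (c (l 234108302807) (l 80563309575)) (a (l 83784510615) (l 103111880503))) (a (b (l 16341680) (l 16330816)) (l 16352136))) (a (a (b (l 16292808) (l 16282904)) (l 16300424)) (a (l 16314568) (l 16329416)))) (a (a (b (l 16268040) (l 16248240)) (l 16269424)) (a (l 16282248) (l 16295680)))) (b (a (a (l 16377400) (l 16372288)) (a (l 16387880) (l 16403768))) (a (l 16358424) (l 16343648)))) (a (b (a (l 16223752) (l 16245848)) (a (l 16183896) (l 16203384))) (a (b (l 16269848) (l 16224640)) (b (l 16293600) (l 16245720))))) (a (b (a (b (a (b (l 16373544) (l 71973441271)) (b (a (l 16379944) (l 16384776)) (l 16362928))) (a (l 16305568) (l 16333312))) (b (b (a (l 16392528) (l 16402744)) (l 16355856)) (l 16324280))) (b (a (l 16291000) (l 16303096)) (l 16214120))) (a (b (b (b (l 16417552) (l 16394344)) (l 16359904)) (l 16166040)) (b (b (l 16400992) (l 16371896)) (b (l 16323424) (l 16276200))))))), by decide +kernel⟩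

def k1_pm_112_b : ∃ t, chk3 f_pm_112_b t 2 5 1 = true :=
  ⟨(b (a (a (a (b (c (b (l 72510047159) (l 134250174727)) (a (l 16252160) (l 16221200))) (c (l 16143256) (l 16219936))) (b (a (c (b (l 16143552) (l 16130328)) (l 16204520)) (c (l 16129920) (l 16216304))) (c (l 16105904) (l 16188000)))) (a (b (c (l 16128344) (l 16209856)) (l 16131520)) (b (c (l 16132768) (l 16207104)) (l 16109752)))) (a (b (a (l 16176576) (l 16168176)) (a (l 16136824) (l 16147464))) (b (a (l 16244232) (l 16298088)) (a (l 16158760) (l 16169152))))) (b (a (a (a (c (l 16115240) (l 16183664)) (l 16031512)) (a (l 16095008) (l 16092872))) (a (a (l 16096920) (l 16105480)) (a (l 16114912) (l 16123872)))) (a (a (a (l 16112472) (l 16082904)) (a (l 16062232) (l 16055936))) (a (c (l 16036200) (l 16087576)) (a (l 16071568) (l 16079176)))))), by decide +kernel⟩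

def k2_pm_112_b : ∃ t, chk3 f_pm_112_b t 3 2 1 = true :=
  ⟨(a (b (b (a (b (a (c (b (l 16444856) (l 16415712)) (l 16440144)) (b (a (l 16471296) (l 16483960)) (a (l 16441344) (l 16455080)))) (a (c (l 16373624) (l 16386152)) (c (l 16384952) (l 16404304)))) (a (b (b (l 3) (l 284708546103)) (a (b (l 16431984) (l 16406728)) (l 16409056))) (l 3))) (a (b (a (c (l 16320368) (l 16334640)) (c (l 16349992) (l 16349992))) (a (c (l 16270040) (l 16285128)) (c (l 16297696) (l 16298400)))) (a (b (a (l 16365656) (l 82308506023)) (c (l 16322712) (l 16311816))) (b (l 3) (a (l 16379280) (l 3)))))) (b (a (b (a (l 16334136) (c (l 16249072) (l 16249464))) (a (l 16183064) (l 16285536))) (a (b (c (l 16273976) (l 16262168)) (c (l 16228248) (l 16214080))) (b (a (l 16380088) (l 16265792)) (a (l 16230448) (l 2))))) (a (b (a (l 16136880) (l 16155232)) (a (l 16091536) (l 16110152))) (b (a (l 117674607447) (l 2)) (l 2))))) (b (l 3) (b (b (l 3) (l 2)) (l 2)))), by decide +kernel⟩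

def k3_pm_112_b : ∃ t, chk3 f_pm_112_b t 1 3 1 = true :=
  ⟨(a (b (c (a (a (b (l 16163920) (l 15934816)) (b (a (l 15988608) (l 15978416)) (l 15924208))) (a (b (l 16237152) (l 16119296)) (b (a (l 16001392) (l 16015496)) (l 16206968)))) (a (a (b (l 16063328) (l 15957328)) (b (l 16036704) (l 15955144))) (a (b (l 16028056) (l 15957352)) (b (a (l 16027472) (l 16027008)) (l 15959152))))) (a (a (b (a (l 15829216) (l 15829368)) (l 15684976)) (b (l 16036160) (l 15731888))) (b (a (a (l 15882472) (l 2)) (l 2)) (l 2)))) (b (a (b (a (b (a (l 16051160) (l 2)) (l 2)) (l 2)) (l 2)) (l 2)) (l 2))), by decide +kernel⟩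

theorem s4_pm_112_b : ∃ t, chk3 f_pm_112_b t 2 2 1 = true := ex3_b k0_pm_112_b k1_pm_112_b

theorem s5_pm_112_b : ∃ t, chk3 f_pm_112_b t 1 2 1 = true := ex3_a s4_pm_112_b k2_pm_112_b

theorem s6_pm_112_b : ∃ t, chk3 f_pm_112_b t 1 1 1 = true := ex3_b s5_pm_112_b k3_pm_112_b

theorem c_pm_112_b : CertB 536870912 536870912 1239849684 370763052 923417968 42949674 3 eng mog cd0q1 cd1q2b pd1 false true false .dn 1 1 2
    ndB0q1 ndB1q2b pcB1 Cut.none Ext.none :=
  certB1 (fam := false) (s1 := true) (s2 := false) (a := 1) (b := 1) (c := 2) (cn := .dn) (n1 := ndB0q1) (n2 := ndB1q2b) (pc := pcB1) (cut := Cut.none) (xt := Ext.none) (P1 := 536870912) (W1 := 536870912) (P2 := 1239849684) (W2 := 370763052) (P3 := 923417968) (W3 := 42949674) (N0 := 3) (En := eng) (mo := mog) (C1 := cd0q1) (C2 := cd1q2b) (C3 := pd1)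
    rfl (fun _ => rfl) s6_pm_112_b

noncomputable def cut_pm_113 : Cut := Cut.of [[⟨0, 1, 0, 67108864⟩, ⟨1, 1, 0, 67108864⟩, ⟨2, 2, 0, 16252928⟩]]

noncomputable def xt_pm_113 : Ext := extD2 3 ⟨4, 1, 1, 5, 17, 5, 87, 100, 43, 100, 1, 8⟩ eng cd0q1 cd1q3 pd1 false true false .nn 1 1 3 rfl ndB0q1 ndB1q3 pcB1

noncomputable def f_pm_113 : ℕ → ℕ → ℕ → ℕ → Bool := onCell 536870912 536870912 536870912 536870912 923417968 42949674
    (rowB 3 eng mog cd0q1 cd1q3 pd1 1 false true false .nn 1 1 3 (qsf 536870912 536870912 1610612736 536870912 1) ndB0q1 ndB1q3 pcB1 cut_pm_113 xt_pm_113)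

def k0_pm_113 : ∃ t, chk3 f_pm_113 t 1 2 1 = true :=
  ⟨(a (b (l 1) (a (l 1) (b (l 1) (a (l 1) (b (l 1) (c (l 84321220919) (l 16056776))))))) (a (b (a (l 1) (a (l 1) (a (l 1) (l 3)))) (b (a (b (l 1) (a (l 1) (c (l 16134432) (l 16140208)))) (a (b (c (l 16226336) (l 16192944)) (c (l 16165704) (l 16151744))) (b (a (b (l 16219048) (l 16201256)) (l 116131064759)) (a (c (l 16187080) (l 16159120)) (c (l 16192968) (l 16157136)))))) (a (b (a (c (l 16069424) (l 16091640)) (c (l 16096120) (l 16098952))) (a (l 16125808) (c (l 16060608) (l 16058760)))) (b (a (c (l 16128760) (l 16111320)) (c (l 16264040) (l 16122352))) (a (c (l 16095064) (l 16072208)) (c (l 16129632) (l 16086128))))))) (b (l 3) (a (a (b (l 3) (b (a (b (l 16148328) (l 16137440)) (l 3)) (a (b (l 16125408) (l 16113640)) (b (l 16118952) (l 116130845031))))) (l 3)) (l 3))))), by decide +kernel⟩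

def k1_pm_113 : ∃ t, chk3 f_pm_113 t 2 3 1 = true :=
  ⟨(b (a (b (l 1) (a (l 1) (c (l 15838344) (l 16012176)))) (a (a (b (l 1) (l 15782184)) (b (l 169682699111) (l 15918800))) (b (b (a (l 16004376) (l 16002800)) (a (l 15979728) (l 15977712))) (b (a (l 15960528) (l 15958504)) (a (l 15946112) (l 15944216)))))) (a (b (a (l 283499215783) (c (l 15918056) (l 15943456))) (a (l 129953915335) (b (l 15873600) (l 15825608)))) (b (a (c (l 16174848) (l 15848176)) (b (l 16080736) (l 15929704))) (a (b (l 15911656) (l 15877360)) (b (l 15993976) (l 15976816)))))), by decide +kernel⟩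

def k2_pm_113 : ∃ t, chk3 f_pm_113 t 3 6 1 = true :=
  ⟨(a (b (a (b (a (l 16009864) (l 16132592)) (a (l 15985296) (l 16004984))) (b (a (c (l 16069496) (l 16040104)) (c (l 16109768) (l 16058328))) (a (c (l 16054344) (l 16017616)) (c (l 16102456) (l 16042120))))) (a (b (a (l 15967304) (l 15989840)) (a (l 15954672) (l 15980984))) (b (a (l 16172376) (c (l 16107568) (l 16037064))) (a (l 16023928) (c (l 16125008) (l 16042432)))))) (a (b (a (b (a (c (l 16135280) (l 16068576)) (b (l 16235784) (l 16108608))) (c (b (l 16144608) (l 16151336)) (b (l 16065008) (l 16065624)))) (b (a (b (l 3) (l 129552622263)) (l 3)) (a (c (b (l 16163448) (l 16178848)) (c (l 16098248) (l 16050664))) (c (l 140826920279) (l 144047956999))))) (a (b (c (b (l 16162400) (l 16178152)) (b (l 16070064) (l 16078560))) (c (b (l 16198880) (l 16225008)) (l 16098928))) (b (a (c (a (l 16204992) (l 16217320)) (l 16141248)) (b (c (l 130089578215) (l 16183128)) (c (l 121499731191) (l 16124784)))) (a (c (a (l 16267944) (l 16290376))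 (l 16146240)) (b (c (a (l 16287184) (l 16303520)) (l 16157624)) (c (l 16351960) (l 16199496))))))) (b (l 3) (a (a (b (l 3) (b (c (a (l 134384718503) (l 3)) (l 142974418935)) (c (a (a (l 16380800) (l 16391560)) (l 135458695511)) (a (l 16225656) (l 141363905943))))) (l 3)) (l 3))))), by decide +kernel⟩

def k3_pm_113 : ∃ t, chk3 f_pm_113 t 6 7 1 = true :=
  ⟨(b (a (b (a (l 15946800) (l 15977760)) (a (l 15945040) (l 15981896))) (b (a (l 16029984) (c (l 16156152) (l 16058456))) (a (l 16046288) (c (l 16206256) (l 16088856))))) (a (b (c (l 15994896) (l 15945576)) (l 16095792)) (b (a (l 16075016) (a (l 16168144) (l 16251936))) (a (l 16126456) (l 16306520))))), by decide +kernel⟩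

def k4_pm_113 : ∃ t, chk3 f_pm_113 t 14 14 1 = true :=
  ⟨(b (c (a (a (l 16243720) (l 16311216)) (a (l 16469336) (b (l 16422744) (l 16511680)))) (a (l 16142984) (a (l 16223624) (b (l 16252904) (l 16320808))))) (a (c (l 16523672) (l 16213888)) (a (b (l 16426064) (l 16493784)) (b (b (l 16571664) (l 16543424)) (b (l 16606152) (l 16676952)))))), by decide +kernel⟩

def k5_pm_113 : ∃ t, chk3 f_pm_113 t 30 14 1 = true :=
  ⟨(b (a (b (c (a (l 16473320) (b (l 125258274839) (a (l 16525872) (l 16543832)))) (a (l 16292752) (b (l 135458475015) (l 16383928)))) (c (a (l 16584120) (b (l 16598512) (l 16670832))) (a (l 16378904) (b (l 16392008) (l 16449056))))) (a (b (b (l 3) (c (l 130626990343) (l 134384885815))) (b (a (c (l 120426652183) (l 46338145239)) (c (l 135459040327) (l 129553171863))) (c (c (l 116668637239) (l 119352927527)) (c (l 124184610039) (l 131163705863))))) (l 3))) (a (b (c (b (l 16719720) (l 16806576)) (b (l 16612216) (l 16554984))) (c (c (l 16818904) (l 16822872)) (a (l 16633928)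 (l 16722272)))) (a (b (c (b (c (l 16754440) (l 16718040)) (a (l 16822264) (l 16781056))) (b (c (l 82845721895) (l 16509504)) (a (l 16642112) (l 16679360)))) (b (c (l 16801392) (l 16762736)) (c (l 16812360) (l 16812768)))) (b (b (a (c (c (l 120963647127) (l 121500480263)) (c (l 122574170711) (l 128479553415))) (l 3)) (c (a (c (l 93583253431) (l 98415115383)) (b (l 131701046087) (a (l 92509501031) (l 120963638439)))) (c (a (a (l 16778496) (l 85530091031)) (b (l 124184949863) (l 119889947399))) (a (c (l 85530069975) (l 71034418007)) (b (l 124184714151) (l 123111063447)))))) (c (b (a (a (l 16798064) (l 16767504)) (b (c (l 124184882871) (l 123111162279)) (c (l 16772320) (l 16782464)))) (a (l 16784160) (b (l 16762600) (l 16789944)))) (c (a (b (l 16809560) (l 16820680)) (b (b (l 122037443335) (l 16772272)) (l 16781088))) (b (a (l 16756720) (a (a (l 16786680) (l 16715032)) (b (l 124721679063) (l 16778936)))) (b (l 16777632) (l 16804152))))))))), by decide +kernel⟩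

def k6_pm_113 : ∃ t, chk3 f_pm_113 t 31 14 1 = true :=
  ⟨(b (l 3) (a (a (a (b (l 3) (b (b (l 3) (a (c (c (l 124721751015) (l 122574285927)) (c (l 120963694327) (l 119353104823))) (l 3))) (c (a (b (c (l 16765120) (l 16774848)) (l 16755576)) (b (c (l 125795488951) (l 123111151127)) (c (l 94120121047) (l 96267621031)))) (c (b (a (l 16764216) (l 120963687735)) (b (l 127406153895) (l 16767480))) (c (b (l 2207498546760994206482153759) (l 103783857095)) (a (b (l 16778008) (l 16804792)) (b (l 124184976311) (l 103783868935)))))))) (a (a (b (l 3) (b (l 3) (b (l 3) (b (l 3) (c (c (l 16755616) (l 148881000487)) (c (l 122574315895) (l 120963722775))))))) (l 3)) (l 3))) (l 3)) (l 3))), by decide +kernel⟩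

def k7_pm_113 : ∃ t, chk3 f_pm_113 t 14 15 1 = true :=
  ⟨(a (b (b (l 16385320) (l 16464640)) (c (l 16651456) (l 16494688))) (a (b (b (l 16604464) (l 16717960)) (c (l 16695480) (l 16669664))) (b (b (l 16727288) (l 16693864)) (b (l 16663376) (l 16676768))))), by decide +kernel⟩

def k8_pm_113 : ∃ t, chk3 f_pm_113 t 30 15 1 = true :=
  ⟨(b (c (a (b (l 16828760) (l 16787904)) (b (a (l 16787464) (a (l 16781608) (b (l 16778648) (l 16791576)))) (b (c (l 16784008) (l 16791704)) (l 16775024)))) (a (b (a (l 16814160) (l 16818016)) (l 16723928)) (b (a (l 16800976) (b (a (l 16816480) (l 16777304)) (a (l 16827776) (l 16810160)))) (a (l 16754904) (b (l 16808192) (l 16823696)))))) (a (b (c (l 16726024) (l 16726904)) (a (l 16715104) (l 16726528))) (b (c (a (l 16766648) (l 16778544)) (c (l 16777560) (l 16733368))) (c (l 16686656) (a (l 16732128) (l 16745432)))))), by decide +kernel⟩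

def k9_pm_113 : ∃ t, chk3 f_pm_113 t 62 120 1 = true :=
  ⟨(b (a (a (c (c (l 16774384) (l 16762536)) (c (l 16772224) (l 16782488))) (a (c (b (c (l 147270363383) (l 128479875447)) (c (l 16758168) (l 100025725799))) (c (b (l 126332408871) (l 101636355191)) (b (c (l 124721818551) (l 123648086951)) (c (l 16768080) (l 105931354935))))) (b (l 3) (a (c (c (l 140827901831) (l 146196638919)) (c (l 120963699751) (b (l 175187702167) (l 119353109687)))) (l 3))))) (l 3)) (a (c (a (l 16764672) (c (a (l 16768792) (a (c (l 117742459543) (l 122574311207)) (b (l 151565316999) (a (l 130090493991) (l 125795521607))))) (a (l 16777416) (a (c (l 105931307975) (l 104320701543)) (b (l 144049152039) (a (l 138680454231) (l 135996095031))))))) (a (a (l 16808856) (l 16779096)) (c (a (l 16765608) (b (c (l 126332408279) (l 124721804039)) (a (l 16781920) (c (l 114521261671) (l 111836912567))))) (c (a (l 16793808) (b (a (l 101099505047) (l 129553669015)) (c (l 111836920807) (l 112373796487)))) (a (l 16798800)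 (a (b (l 101636385415) (l 16793856)) (b (l 126332453335) (b (l 119353123591) (l 122037483479))))))))) (b (l 3) (b (l 3) (b (l 3) (a (a (a (c (c (l 129553614119) (l 131701122775)) (c (l 137606726231) (l 122574359591))) (l 3)) (l 3)) (l 3))))))), by decide +kernel⟩

def k10_pm_113 : ∃ t, chk3 f_pm_113 t 62 121 1 = true :=
  ⟨(a (c (a (b (l 16771560) (l 16800528)) (b (b (a (l 16778584) (c (l 16767488) (l 16775528))) (c (l 16775800) (l 16783688))) (b (l 16763488) (l 16789152)))) (b (a (l 16789752) (c (a (l 16793784) (c (l 16784120) (l 16767456))) (a (l 16803024) (a (l 16776080) (c (l 16790960) (l 16784984)))))) (a (l 16796776) (c (l 16777448) (l 16785752))))) (a (b (a (a (c (b (c (l 138680429383) (l 144049163463)) (c (l 16757168) (l 16775072))) (b (c (a (l 147270412535) (l 145659795703)) (c (l 117742501719) (a (l 120963741415) (l 113447543751)))) (c (l 16782960) (c (l 16789192) (l 16793496))))) (b (l 3) (c (c (l 139217303815) (l 142975423591)) (c (a (l 149954767703) (l 141901699511))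 (c (l 116668760455) (a (l 119353128695) (l 109689447415))))))) (l 3)) (a (c (c (c (l 123648048711) (l 121500570199)) (c (l 120963705127) (l 121500583079))) (c (c (l 122037461255) (l 123648081479)) (b (c (l 16780824) (l 127406195607)) (l 16797176)))) (b (a (c (c (l 139217307191) (l 142975425511)) (c (a (l 146733542679) (l 139217345271)) (c (l 116131890215) (a (l 114521290599) (l 122037490839))))) (l 3)) (c (a (c (l 144586028647) (l 153712854791)) (c (l 139217310407) (l 143512298375))) (a (c (a (l 16785184) (l 151565385399)) (c (l 122037480599) (l 122574358615))) (c (a (l 145659801351) (l 138143603671)) (c (l 131164291079) (l 127406201879)))))))) (l 3))), by decide +kernel⟩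

def k11_pm_113 : ∃ t, chk3 f_pm_113 t 62 122 1 = true :=
  ⟨(a (c (c (l 16761856) (l 16768680)) (a (l 16808152) (b (l 16789384) (l 16796888)))) (a (c (b (b (a (l 16783808) (a (c (l 16775896) (l 16781976)) (c (l 144586032487) (l 152102244007)))) (a (l 16788328) (c (l 16779000) (l 16784688)))) (c (l 16768008) (l 16773448))) (c (b (a (l 16795832) (b (c (l 119353112167) (l 119353118087)) (l 16790744))) (l 16779216)) (b (a (l 16802816) (b (a (l 16795312) (c (l 118279384535) (l 118816261975))) (l 16786680))) (l 16787960)))) (a (a (b (b (b (l 3) (c (c (l 141364799511) (l 142438558775)) (c (l 144049188535) (a (l 145122947287) (l 3))))) (c (c (l 144049164919) (l 149954762151)) (c (c (l 123648087047) (l 116131896295)) (c (l 114521288039) (a (l 16794128) (l 111836940775)))))) (c (b (c (l 16778864) (l 16784000)) (l 16785720)) (c (b (l 16789464) (l 16793352)) (b (l 16787408) (l 16798840))))) (b (a (b (l 3) (b (l 3) (b (l 3) (c (l 148344139527) (c (l 139217350295) (l 141364849751)))))) (l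 3)) (c (b (b (c (l 147807259111) (l 148881016535)) (c (l 141901684279) (l 143512311383))) (c (l 16780216) (l 16784896))) (b (b (c (l 151028515607) (a (l 145659821351) (l 141364849575))) (c (l 148344165079) (c (l 141901721319) (l 117742525895)))) (c (l 16789888) (c (l 16793840) (l 16796568))))))) (a (b (l 3) (c (c (b (l 151565350615) (a (l 145659783975) (l 148344134599))) (b (l 146196653527) (a (l 147807281303) (l 148881018967)))) (b (c (l 137069867239) (c (l 132238033047) (l 127943071255))) (b (c (l 150491645015) (c (l 124184968103) (l 137069883495))) (c (l 158007842087) (a (l 16793352) (c (l 141364845783) (l 140827981319)))))))) (l 3))))), by decide +kernel⟩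

def k12_pm_113 : ∃ t, chk3 f_pm_113 t 62 123 1 = true :=
  ⟨(c (a (l 16781728) (a (b (l 16779048) (l 16786864)) (b (a (c (l 16788232) (l 16771632)) (b (a (c (l 16778848) (l 163376546663)) (b (c (l 146733522775) (l 146733535415)) (c (l 154249720871) (l 155323475287)))) (c (a (l 16785680) (l 163376536567)) (c (l 132238021095) (l 130090540503))))) (a (l 16777272) (a (l 16777768) (c (l 16788648) (l 16781648))))))) (a (a (l 16814976) (l 16807408)) (a (c (l 16790328) (l 16795528)) (a (b (b (c (l 16795408) (l 16800488)) (l 16780464)) (l 16785552)) (b (a (b (c (b (l 16789304) (l 16791176)) (c (l 16793832) (l 129553688423))) (c (l 16793936) (l 16798456))) (b (b (c (l 145659805623) (c (l 141901716183) (l 137069882791))) (c (a (l 16787944) (l 146196677719)) (c (l 131164299223) (a (l 16793744) (l 138680496919))))) (b (c (l 160155329847) (c (l 154249755559) (l 129553689303))) (c (l 16791440) (l 16795712))))) (b (c (l 16795800) (l 16789480)) (a (l 16802912) (l 16788960)))))))), by decide +kernel⟩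

def k13_pm_113 : ∃ t, chk3 f_pm_113 t 63 30 1 = true :=
  ⟨(b (l 3) (a (b (l 3) (a (b (b (l 3) (a (a (b (c (c (l 158007821735) (l 153175990887)) (c (l 145659805975) (c (l 141901715815) (l 136533011015)))) (c (c (l 153712852359) (l 154786605623)) (c (a (l 151028520359) (l 142975452199)) (a (c (l 144586074935) (l 145659822327)) (c (l 137069877831) (l 139217367591)))))) (l 3)) (l 3))) (a (b (b (c (a (c (l 154786598967) (l 158544706599)) (c (l 158007823543) (l 153175991879))) (a (c (c (l 152639131783) (l 152639136935)) (a (l 16794712) (c (l 144049203831) (l 145122951015)))) (b (l 3) (c (l 147270420007) (l 2681397468049782676685062367))))) (c (a (c (l 16784616) (l 16788000)) (c (l 153712854775) (l 155323477847))) (a (c (l 16791616) (c (l 16794480) (l 16796456))) (a (c (l 155323487895) (c (l 148881041815) (l 149417917847))) (l 3))))) (c (a (c (l 16787528) (l 16790752)) (c (c (l 159618439735) (l 161765928311)) (c (l 162302803927) (l 136532996439)))) (a (c (l 16794200) (l 16787368))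 (c (b (a (l 16785600) (l 154249746103)) (l 171429622967)) (a (c (l 16794328) (l 142975465079)) (b (c (l 148881041847) (l 147807304615)) (c (l 16788152) (l 158544726071)))))))) (a (a (b (l 3) (b (l 3) (c (c (l 150491630823) (l 152102253111)) (c (l 153176004231) (c (l 147270428775) (l 146733562231)))))) (l 3)) (l 3)))) (l 3))) (l 3))), by decide +kernel⟩

def k14_pm_113 : ∃ t, chk3 f_pm_113 t 62 31 1 = true :=
  ⟨(b (c (a (b (l 16803448) (l 16798632)) (b (b (a (l 16815040) (l 16781352)) (l 16783776)) (c (l 16789664) (l 16786728)))) (a (b (l 16792696) (l 16768608)) (a (b (l 16803632) (l 16799776)) (b (a (l 16794880) (b (l 16790184) (l 16790776))) (l 16774776))))) (a (b (l 16729984) (l 16752664)) (b (c (l 16785528) (l 16759768)) (a (l 16760776) (l 16744944))))), by decide +kernel⟩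

def k15_pm_113 : ∃ t, chk3 f_pm_113 t 252 31 1 = true :=
  ⟨(c (b (a (b (b (b (c (l 16789752) (l 16782216)) (l 16784192)) (l 16778616)) (l 16787224)) (b (a (b (b (b (c (l 162302796327) (l 162839675879)) (c (l 167134638695) (l 168745259735))) (c (l 16788816) (l 16791360))) (b (l 16793376) (l 16796520))) (b (b (c (l 164450276871) (a (l 2816797159846546033849745503) (l 3))) (b (c (l 161765926967) (l 163913418743)) (c (l 169818994919) (l 171966486231)))) (b (c (l 16778744) (l 16786224)) (l 16793472)))) (b (l 16788880) (l 16804528)))) (b (l 16792480) (l 16771744))) (b (b (c (b (b (a (l 16785368) (a (a (b (l 163376555399) (l 16792528)) (b (l 152102262311) (l 162302813511))) (c (l 154249741191) (l 149417907063)))) (a (l 16799040) (a (l 16788840) (a (b (l 163376555511) (l 16792408)) (b (l 154786615127) (l 162302813479)))))) (b (a (l 16802072) (c (l 16784376) (l 16785648))) (l 16791168))) (b (a (a (l 16781472) (c (l 16787672) (l 16791912))) (b (a (a (c (l 142438589943) (b (l 159081596823)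 (l 16796416))) (b (c (l 146196686551) (l 2623369028708270030941093983)) (c (l 157470979447) (l 158007854439)))) (a (b (l 3) (c (l 151028525927) (l 147807302135))) (l 3))) (a (c (l 16796240) (l 16797728)) (a (b (c (l 156397237207) (a (l 16792208) (l 151028530071))) (l 16795136)) (b (c (l 149954783591) (l 146733558295)) (c (l 158544720695) (a (l 160155336919) (l 148344174807)))))))) (b (a (l 16804992) (b (c (l 16791488) (l 16792864)) (l 16788320))) (l 16793744)))) (b (b (l 16789824) (l 16787040)) (l 16785368))) (b (b (l 16794880) (l 16784232)) (l 16769864)))), by decide +kernel⟩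

def k16_pm_113 : ∃ t, chk3 f_pm_113 t 253 124 1 = true :=
  ⟨(a (a (b (b (l 3) (b (l 3) (a (b (l 3) (c (l 153712866743) (c (l 144586068711) (l 147807301687)))) (l 3)))) (b (b (a (c (c (l 160155315319) (l 161765935335)) (c (l 164450297159) (c (l 158544720471) (a (l 157470981671) (l 148344174375))))) (l 3)) (c (c (l 171429609287) (c (l 167134645047) (l 157470969447))) (c (a (l 16789552) (l 162839684055)) (a (c (l 16793952) (l 16792560)) (c (l 156934107111) (a (l 156934110327) (l 145659818967))))))) (b (c (c (l 16783440) (l 16789368)) (c (a (l 16793624) (l 174650847143)) (c (l 151565396695) (a (l 16796520) (l 169282143975))))) (c (l 16791200) (c (l 16794224) (l 16796400)))))) (b (l 3) (b (l 3) (b (a (c (c (l 159618445767) (l 161229064887)) (c (l 161765941767) (c (l 139754234295) (a (l 156397238903) (l 150491657575))))) (l 3)) (c (c (l 173577094183) (a (l 16788528) (l 160692193895))) (c (a (l 175187717959) (l 160692199415)) (a (c (l 169819011591) (l 150491657623)) (c (l 160155329479)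 (l 155860366855))))))))) (l 3)), by decide +kernel⟩

def k17_pm_113 : ∃ t, chk3 f_pm_113 t 253 125 1 = true :=
  ⟨(b (a (b (c (a (l 16782912) (c (c (l 156934093783) (l 153175998039)) (c (l 151028515591) (l 149954775175)))) (a (c (l 16796256) (l 16798304)) (c (c (l 149954776903) (a (l 16794328) (l 149954779671))) (a (l 16790560) (b (c (l 155323493943) (c (l 148344172583) (l 146196689623))) (l 16794760)))))) (c (a (l 16796176) (l 16782680)) (c (l 16786720) (l 16788544)))) (a (b (c (b (c (l 173040221703) (l 167671515655)) (c (l 176261449607) (a (l 172503357639) (l 159618451799)))) (b (a (c (l 159081586055) (c (l 159081589431) (l 154249753111))) (l 3)) (c (a (l 176798330359) (l 162839679751)) (a (c (l 147270427975) (b (l 162302818759) (l 172503367527))) (c (l 158007846663) (l 153176010199)))))) (c (b (c (l 183240774807) (c (l 156397225815) (l 152102259367))) (c (l 16790144) (l 16791552))) (b (c (a (l 16792608) (l 177872071783)) (a (l 16794312) (c (l 142975459191) (a (l 171429624967)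 (l 160692204711))))) (c (l 16793056) (b (l 16790432) (l 16794936)))))) (a (b (l 3) (b (a (c (l 163913418935) (c (l 153712875927) (l 154249751287))) (l 3)) (c (c (l 172503353095) (l 173040228263)) (c (c (l 157470972263) (l 144049198775)) (c (a (l 170892751063) (l 159081588951)) (a (l 169819011143) (l 139217364439))))))) (l 3)))) (c (a (l 16787984) (c (a (l 16782872) (b (a (l 16789912) (a (l 185925129815) (l 182167032039))) (l 16791616))) (b (a (l 16793416) (a (l 160692194519) (b (l 173577098871) (l 16784976)))) (l 16783736)))) (a (a (l 16782144) (l 16790688)) (b (a (c (l 16794824) (l 16785824)) (b (c (a (l 16791880) (c (l 146196680663) (l 140291101127))) (a (c (l 16792952) (l 16793696)) (b (c (l 141901716951) (l 161229074151)) (c (l 150491653111) (l 141901718775))))) (c (a (l 16793024) (l 159618456423)) (c (l 155323490551) (l 153712879207))))) (a (l 16787184) (c (l 16783384) (l 16789864))))))), by decide +kernel⟩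

def k18_pm_113 : ∃ t, chk3 f_pm_113 t 253 63 1 = true :=
  ⟨(b (c (b (b (l 16785696) (l 16778744)) (l 16791296)) (b (c (l 16790408) (l 16789176)) (l 16789464))) (b (b (l 16761704) (l 16777808)) (l 16760472))), by decide +kernel⟩

def k19_pm_113 : ∃ t, chk3 f_pm_113 t 127 62 1 = true :=
  ⟨(b (l 3) (a (b (l 3) (a (a (b (a (b (l 3) (c (c (l 171966481943) (l 174650840295)) (c (c (l 140827970039) (l 136533003367)) (c (l 166597781415) (a (l 143512330727) (l 159081588823)))))) (l 3)) (c (b (c (a (l 16783568) (l 174113965607)) (a (l 185388261415) (l 142975451047))) (c (l 156934094327) (l 156934095927))) (b (a (c (l 155323487495) (c (l 153176006439) (l 151028523847))) (a (c (l 168208391719) (b (l 156397233495) (l 170355878775))) (l 3))) (c (c (l 155323485703) (l 153712874023)) (a (l 16793176) (b (c (l 148881038343) (l 145122942759)) (l 160155329031))))))) (a (b (l 3) (b (l 3) (a (b (l 3) (c (l 176261451767) (c (l 168208391047) (l 171966490551)))) (l 3)))) (l 3))) (l 3))) (l 3))), by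 decide +kernel⟩

def k20_pm_113 : ∃ t, chk3 f_pm_113 t 127 252 1 = true :=
  ⟨(a (a (a (b (c (c (l 16790920) (l 16786560)) (c (l 16787504) (a (l 16794552) (l 16790328)))) (c (l 16782816) (l 16784472))) (c (b (a (b (c (l 186998870679) (l 153175999655)) (l 16789648)) (b (c (l 182167029303) (l 175724579879)) (c (l 155860351975) (l 149417901863)))) (c (l 16784760) (l 16785456))) (b (b (c (a (c (l 151028517991) (l 148344164199)) (l 166597776007)) (a (c (l 146733552407) (b (l 141364844903) (l 155323490423))) (b (l 3) (l 160692198535)))) (c (a (l 16790896) (c (l 148881032871) (l 145122937223))) (a (l 16791800) (a (b (l 182703908743) (l 16790824)) (b (l 168745262887) (l 184314520823)))))) (b (c (l 16785776) (l 16788560)) (l 16786984))))) (a (a (b (a (b (l 3) (c (l 181630159511) (c (l 168745259415) (l 159081584583)))) (l 3)) (c (b (c (l 150491641191) (l 145659804103)) (c (l 16788288) (l 16788896))) (b (c (c (l 145659805959) (l 145659806519)) (c (a (l 156397228711) (l 138143615015)) (a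 (l 148344165655) (l 138143617079)))) (c (l 16786928) (c (l 16790072) (l 16787808)))))) (b (l 3) (b (l 3) (c (c (l 146733543495) (c (l 144586061319) (l 142438578263))) (c (c (l 142438578855) (l 142975450551)) (c (a (l 151565388551) (l 133848645991)) (a (l 151565389223) (l 164450292887)))))))) (l 3))) (l 3)), by decide +kernel⟩

def k21_pm_113 : ∃ t, chk3 f_pm_113 t 127 253 1 = true :=
  ⟨(a (a (b (c (l 16783056) (l 16787024)) (c (l 16791672) (l 16790512))) (a (c (b (c (l 166597768647) (c (l 16785304) (l 164987158551))) (l 16780104)) (b (b (a (l 16785408) (c (l 160692192855) (c (l 159618452823) (l 158544711623)))) (l 16786640)) (l 16786256))) (b (a (c (b (c (l 142975445815) (c (l 140827963527) (l 139754222199))) (c (l 161229060023) (l 160155319095))) (c (b (b (l 170892740983) (l 140827966215)) (c (l 159081578711) (l 157470966551))) (b (a (b (l 135996130743) (l 149954775799)) (b (l 3) (l 132238033399))) (c (l 156397225239) (l 155323483943))))) (b (l 3) (b (b (l 3) (l 6)) (l 6))))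 (l 6)))) (b (l 3) (l 6))), by decide +kernel⟩

def k22_pm_113 : ∃ t, chk3 f_pm_113 t 127 127 1 = true :=
  ⟨(a (a (b (c (l 16783904) (l 16783072)) (l 6)) (l 6)) (l 6)), by decide +kernel⟩

theorem s23_pm_113 : ∃ t, chk3 f_pm_113 t 127 126 1 = true := ex3_b k20_pm_113 k21_pm_113

theorem s24_pm_113 : ∃ t, chk3 f_pm_113 t 127 63 1 = true := ex3_b s23_pm_113 k22_pm_113

theorem s25_pm_113 : ∃ t, chk3 f_pm_113 t 127 31 1 = true := ex3_b k19_pm_113 s24_pm_113

theorem s26_pm_113 : ∃ t, chk3 f_pm_113 t 253 62 1 = true := ex3_b k16_pm_113 k17_pm_113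

theorem s27_pm_113 : ∃ t, chk3 f_pm_113 t 253 31 1 = true := ex3_b s26_pm_113 k18_pm_113

theorem s28_pm_113 : ∃ t, chk3 f_pm_113 t 126 31 1 = true := ex3_a k15_pm_113 s27_pm_113

theorem s29_pm_113 : ∃ t, chk3 f_pm_113 t 63 31 1 = true := ex3_a s28_pm_113 s25_pm_113

theorem s30_pm_113 : ∃ t, chk3 f_pm_113 t 31 31 1 = true := ex3_a k14_pm_113 s29_pm_113

theorem s31_pm_113 : ∃ t, chk3 f_pm_113 t 62 61 1 = true := ex3_b k11_pm_113 k12_pm_113

theorem s32_pm_113 : ∃ t, chk3 f_pm_113 t 62 60 1 = true := ex3_b k9_pm_113 k10_pm_113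

theorem s33_pm_113 : ∃ t, chk3 f_pm_113 t 62 30 1 = true := ex3_b s32_pm_113 s31_pm_113

theorem s34_pm_113 : ∃ t, chk3 f_pm_113 t 31 30 1 = true := ex3_a s33_pm_113 k13_pm_113

theorem s35_pm_113 : ∃ t, chk3 f_pm_113 t 31 15 1 = true := ex3_b s34_pm_113 s30_pm_113

theorem s36_pm_113 : ∃ t, chk3 f_pm_113 t 15 15 1 = true := ex3_a k8_pm_113 s35_pm_113

theorem s37_pm_113 : ∃ t, chk3 f_pm_113 t 7 15 1 = true := ex3_a k7_pm_113 s36_pm_113

theorem s38_pm_113 : ∃ t, chk3 f_pm_113 t 15 14 1 = true := ex3_a k5_pm_113 k6_pm_113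

theorem s39_pm_113 : ∃ t, chk3 f_pm_113 t 7 14 1 = true := ex3_a k4_pm_113 s38_pm_113

theorem s40_pm_113 : ∃ t, chk3 f_pm_113 t 7 7 1 = true := ex3_b s39_pm_113 s37_pm_113

theorem s41_pm_113 : ∃ t, chk3 f_pm_113 t 3 7 1 = true := ex3_a k3_pm_113 s40_pm_113

theorem s42_pm_113 : ∃ t, chk3 f_pm_113 t 3 3 1 = true := ex3_b k2_pm_113 s41_pm_113

theorem s43_pm_113 : ∃ t, chk3 f_pm_113 t 1 3 1 = true := ex3_a k1_pm_113 s42_pm_113

theorem s44_pm_113 : ∃ t, chk3 f_pm_113 t 1 1 1 = true := ex3_b k0_pm_113 s43_pm_113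

theorem c_pm_113 : CertB 536870912 536870912 1610612736 536870912 923417968 42949674 3 eng mog cd0q1 cd1q3 pd1 false true false .nn 1 1 3
    ndB0q1 ndB1q3 pcB1 cut_pm_113 xt_pm_113 :=
  certB1 (fam := false) (s1 := true) (s2 := false) (a := 1) (b := 1) (c := 3) (cn := .nn) (n1 := ndB0q1) (n2 := ndB1q3) (pc := pcB1) (cut := cut_pm_113) (xt := xt_pm_113) (P1 := 536870912) (W1 := 536870912) (P2 := 1610612736) (W2 := 536870912) (P3 := 923417968) (W3 := 42949674) (N0 := 3) (En := eng) (mo := mog) (C1 := cd0q1) (C2 := cd1q3) (C3 := pd1)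
    rfl (fun _ => rfl) s44_pm_113

noncomputable def cut_pm_123 : Cut := Cut.of [[⟨0, 1, 0, 67108864⟩, ⟨1, 1, 0, 67108864⟩, ⟨2, 2, 0, 16252928⟩]]

noncomputable def f_pm_123 : ℕ → ℕ → ℕ → ℕ → Bool := onCell 536870912 536870912 1073741824 536870912 923417968 42949674
    (rowB 3 eng mog cd0q1 cd1q3 pd2 1 false true false .npn 1 2 3 (qsf 536870912 536870912 1610612736 536870912 2) ndB0q1 ndB1q3 pcB2 cut_pm_123 Ext.none)

def k0_pm_123 : ∃ t, chk3 f_pm_123 t 2 1 1 = true :=
  ⟨(b (a (b (a (b (b (a (l 15938784) (l 15948456)) (l 15888672)) (b (l 15801400) (l 15744680))) (b (a (b (l 15966624) (l 15887112)) (b (l 15958928) (l 15890296))) (a (l 15785848) (l 15800872)))) (a (b (l 15677632) (l 15621016)) (b (l 15951256) (l 15875600)))) (b (a (b (b (a (l 15917864) (l 15883176)) (l 16075352)) (a (l 15816640) (l 15845368))) (b (b (a (l 15859152) (l 15936368)) (a (l 15867640) (l 15894472))) (a (l 15894720) (l 15971856)))) (a (b (a (l 15769088) (l 15849840)) (a (l 15755728) (l 15890152))) (b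 (a (l 15958904) (l 16102728)) (a (l 16051912) (b (l 16185496) (l 16211320))))))) (a (b (a (b (l 15603120) (l 15626488)) (b (a (l 15613992) (l 15650424)) (a (l 15643952) (l 15673640)))) (a (b (l 15651248) (l 15802144)) (b (a (l 15707336) (l 15728888)) (a (l 15787688) (l 2))))) (b (a (b (a (l 15778392) (l 15932040)) (a (l 15807824) (l 15994192))) (b (a (l 16099304) (l 16179968)) (a (l 16201008) (l 2)))) (a (b (a (l 15891416) (l 2)) (l 2)) (l 2))))), by decide +kernel⟩

def k1_pm_123 : ∃ t, chk3 f_pm_123 t 6 2 1 = true :=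
  ⟨(b (a (a (b (b (b (l 15853864) (l 15891280)) (l 15950784)) (l 16081784)) (b (b (c (l 15987392) (l 15875760)) (l 16045624)) (b (l 16166952) (l 16292424)))) (b (b (a (c (l 16266968) (l 15967312)) (b (a (l 16135904) (l 16266248)) (l 16288552))) (a (l 16194144) (b (l 16379160) (l 16415272)))) (a (b (l 16346640) (l 16424312)) (b (l 16446672) (b (l 16486904) (l 16520912)))))) (a (b (a (l 16257656) (b (l 16372888) (l 16411432))) (a (b (l 16324384) (l 16378968)) (b (l 16475664) (l 16549560)))) (b (a (b (l 16428560) (l 16545208)) (b (l 16524280) (l 16686776))) (a (b (l 16631264) (l 2)) (l 2))))), by decide +kernel⟩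

def k2_pm_123 : ∃ t, chk3 f_pm_123 t 7 2 1 = true :=
  ⟨(b (b (a (a (b (b (c (l 16400864) (l 16356328)) (l 16340752)) (b (l 16428672) (l 16455568))) (b (a (c (l 16375968) (l 16388584)) (b (a (l 16395520) (l 16421504)) (l 16452080))) (a (b (l 16450760) (l 16492952)) (b (l 16499432) (l 16551944))))) (a (b (a (b (b (l 16471640) (l 16493544)) (l 16527592)) (b (c (c (l 16578688) (l 16572032)) (b (l 16549992) (l 16574208))) (b (l 16600848) (a (l 16602152) (l 16645832))))) (a (b (c (l 16571976) (l 16579872)) (a (l 16611664) (l 16653352))) (b (a (l 16640384) (l 16600928)) (l 16626968)))) (b (a (b (b (a (b (l 16621000) (l 16630784)) (c (l 16674464) (l 16668504))) (a (l 16645992) (b (l 16686400) (l 6)))) (a (b (l 16646416) (l 6)) (b (l 6) (l 16737016)))) (a (b (b (b (a (l 16701128) (l 6)) (l 6)) (l 6)) (b (l 730781806711) (l 2))) (b (a (l 6) (b (l 6) (l 2))) (l 2)))) (a (b (l 717896737271) (l 2)) (l 2))))) (a (b (a (b (l 16487856) (l 16421848)) (a (b (l 16543216) (l 16602920)) (b (l 16611600)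 (l 16670416)))) (a (c (l 16516512) (l 16479968)) (a (l 16689112) (l 2)))) (a (b (a (l 647029511239) (l 2)) (l 2)) (l 2)))) (a (b (b (a (b (l 16685656) (l 2)) (l 2)) (l 2)) (l 2)) (l 2))), by decide +kernel⟩

def k3_pm_123 : ∃ t, chk3 f_pm_123 t 3 3 1 = true :=
  ⟨(a (b (a (b (a (l 16315448) (l 2)) (l 2)) (l 2)) (l 2)) (l 2)), by decide +kernel⟩

theorem s4_pm_123 : ∃ t, chk3 f_pm_123 t 3 2 1 = true := ex3_a k1_pm_123 k2_pm_123

theorem s5_pm_123 : ∃ t, chk3 f_pm_123 t 3 1 1 = true := ex3_b s4_pm_123 k3_pm_123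

theorem s6_pm_123 : ∃ t, chk3 f_pm_123 t 1 1 1 = true := ex3_a k0_pm_123 s5_pm_123

theorem c_pm_123 : CertB 536870912 536870912 1610612736 536870912 923417968 42949674 3 eng mog cd0q1 cd1q3 pd2 false true false .npn 1 2 3
    ndB0q1 ndB1q3 pcB2 cut_pm_123 Ext.none :=
  certB1 (fam := false) (s1 := true) (s2 := false) (a := 1) (b := 2) (c := 3) (cn := .npn) (n1 := ndB0q1) (n2 := ndB1q3) (pc := pcB2) (cut := cut_pm_123) (xt := Ext.none) (P1 := 536870912) (W1 := 536870912) (P2 := 1610612736) (W2 := 536870912) (P3 := 923417968) (W3 := 42949674) (N0 := 3) (En := eng) (mo := mog) (C1 := cd0q1) (C2 := cd1q3) (C3 := pd2)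
    rfl (fun _ => rfl) s6_pm_123

noncomputable def f_pm_133 : ℕ → ℕ → ℕ → ℕ → Bool := onCell 536870912 536870912 1610612736 536870912 923417968 42949674
    (rowB 3 eng mog cd0q1 cd1q3 pd3 1 false true false .dn 1 3 3 (qsf 536870912 536870912 1610612736 536870912 3) ndB0q1 ndB1q3 pcB3 Cut.none Ext.none)

def k0_pm_133 : ∃ t, chk3 f_pm_133 t 1 1 1 = true :=
  ⟨(a (b (a (b (a (b (l 16660664) (l 2)) (l 2)) (l 2)) (l 2)) (l 2)) (l 2)), by decide +kernel⟩

theorem c_pm_133 : CertB 536870912 536870912 1610612736 536870912 923417968 42949674 3 eng mog cd0q1 cd1q3 pd3 false true false .dn 1 3 3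
    ndB0q1 ndB1q3 pcB3 Cut.none Ext.none :=
  certB1 (fam := false) (s1 := true) (s2 := false) (a := 1) (b := 3) (c := 3) (cn := .dn) (n1 := ndB0q1) (n2 := ndB1q3) (pc := pcB3) (cut := Cut.none) (xt := Ext.none) (P1 := 536870912) (W1 := 536870912) (P2 := 1610612736) (W2 := 536870912) (P3 := 923417968) (W3 := 42949674) (N0 := 3) (En := eng) (mo := mog) (C1 := cd0q1) (C2 := cd1q3) (C3 := pd3)
    rfl (fun _ => rfl) k0_pm_133

noncomputable def cut_pm_202_a : Cut := Cut.of [[⟨0, 1, 0, 67108864⟩, ⟨1, 0, 0, 67108864⟩, ⟨2, 1, 0, 67108864⟩]]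

noncomputable def f_pm_202_a : ℕ → ℕ → ℕ → ℕ → Bool := onCell 0 536870912 0 536870912 923417968 42949674
    (rowB 3 eng mog cd0q2 cd1q2a pd0 0 false true false .pp 2 0 2 (qsf 0 536870912 0 536870912 0) ndB0q2 ndB1q2a pcB0 cut_pm_202_a Ext.none)

def k0_pm_202_a : ∃ t, chk3 f_pm_202_a t 1 1 1 = true :=
  ⟨(a (l 3) (b (l 3) (a (l 3) (b (l 3) (a (l 3) (b (l 3) (l 6))))))), by decide +kernel⟩

theorem c_pm_202_a : CertB 0 536870912 0 536870912 923417968 42949674 3 eng mog cd0q2 cd1q2a pd0 false true false .pp 2 0 2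
    ndB0q2 ndB1q2a pcB0 cut_pm_202_a Ext.none :=
  certB0 (fam := false) (s1 := true) (s2 := false) (a := 2) (b := 0) (c := 2) (cn := .pp) (n1 := ndB0q2) (n2 := ndB1q2a) (pc := pcB0) (cut := cut_pm_202_a) (xt := Ext.none) (P1 := 0) (W1 := 536870912) (P2 := 0) (W2 := 536870912) (P3 := 923417968) (W3 := 42949674) (N0 := 3) (En := eng) (mo := mog) (C1 := cd0q2) (C2 := cd1q2a) (C3 := pd0)
    rfl k0_pm_202_a

noncomputable def cut_pm_202_b : Cut := Cut.of [[⟨0, 1, 0, 67108864⟩, ⟨1, 0, 0, 67108864⟩, ⟨2, 1, 0, 67108864⟩]]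

noncomputable def f_pm_202_b : ℕ → ℕ → ℕ → ℕ → Bool := onCell 0 536870912 1239849684 370763052 923417968 42949674
    (rowB 3 eng mog cd0q2 cd1q2b pd0 0 false true false .pp 2 0 2 (qsf 0 536870912 1239849684 370763052 0) ndB0q2 ndB1q2b pcB0 cut_pm_202_b Ext.none)

def k0_pm_202_b : ∃ t, chk3 f_pm_202_b t 1 1 1 = true :=
  ⟨(l 3), by decide +kernel⟩

theorem c_pm_202_b : CertB 0 536870912 1239849684 370763052 923417968 42949674 3 eng mog cd0q2 cd1q2b pd0 false true false .pp 2 0 2
    ndB0q2 ndB1q2b pcB0 cut_pm_202_b Ext.none :=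
  certB0 (fam := false) (s1 := true) (s2 := false) (a := 2) (b := 0) (c := 2) (cn := .pp) (n1 := ndB0q2) (n2 := ndB1q2b) (pc := pcB0) (cut := cut_pm_202_b) (xt := Ext.none) (P1 := 0) (W1 := 536870912) (P2 := 1239849684) (W2 := 370763052) (P3 := 923417968) (W3 := 42949674) (N0 := 3) (En := eng) (mo := mog) (C1 := cd0q2) (C2 := cd1q2b) (C3 := pd0)
    rfl k0_pm_202_b

noncomputable def f_pm_203 : ℕ → ℕ → ℕ → ℕ → Bool := onCell 0 536870912 0 536870912 923417968 42949674
    (rowB 3 eng mog cd0q2 cd1q3 pd0 1 false true false .up 2 0 3 (qsf 0 536870912 1610612736 536870912 0) ndB0q2 ndB1q3 pcB0 Cut.none Ext.none)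

def k0_pm_203 : ∃ t, chk3 f_pm_203 t 1 1 1 = true :=
  ⟨(l 3), by decide +kernel⟩

theorem c_pm_203 : CertB 0 536870912 1610612736 536870912 923417968 42949674 3 eng mog cd0q2 cd1q3 pd0 false true false .up 2 0 3
    ndB0q2 ndB1q3 pcB0 Cut.none Ext.none :=
  certB1 (fam := false) (s1 := true) (s2 := false) (a := 2) (b := 0) (c := 3) (cn := .up) (n1 := ndB0q2) (n2 := ndB1q3) (pc := pcB0) (cut := Cut.none) (xt := Ext.none) (P1 := 0) (W1 := 536870912) (P2 := 1610612736) (W2 := 536870912) (P3 := 923417968) (W3 := 42949674) (N0 := 3) (En := eng) (mo := mog) (C1 := cd0q2) (C2 := cd1q3) (C3 := pd0)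
    rfl (fun _ => rfl) k0_pm_203

noncomputable def cut_pm_213 : Cut := Cut.of [[⟨0, 1, 0, 67108864⟩, ⟨1, 1, 0, 67108864⟩, ⟨2, 2, 0, 16252928⟩]]

noncomputable def f_pm_213 : ℕ → ℕ → ℕ → ℕ → Bool := onCell 0 536870912 1610612736 536870912 923417968 42949674
    (rowB 3 eng mog cd0q2 cd1q3 pd1 0 false true false .pnn 2 1 3 (qsf 0 536870912 1610612736 536870912 1) ndB0q2 ndB1q3 pcB1 cut_pm_213 Ext.none)

def k0_pm_213 : ∃ t, chk3 f_pm_213 t 1 1 1 = true :=
  ⟨(b (l 3) (a (l 3) (b (l 3) (a (l 3) (b (l 3) (a (l 3) (b (l 3) (b (l 3) (b (l 3) (l 6)))))))))), by decide +kernel⟩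

theorem c_pm_213 : CertB 0 536870912 1610612736 536870912 923417968 42949674 3 eng mog cd0q2 cd1q3 pd1 false true false .pnn 2 1 3
    ndB0q2 ndB1q3 pcB1 cut_pm_213 Ext.none :=
  certB0 (fam := false) (s1 := true) (s2 := false) (a := 2) (b := 1) (c := 3) (cn := .pnn) (n1 := ndB0q2) (n2 := ndB1q3) (pc := pcB1) (cut := cut_pm_213) (xt := Ext.none) (P1 := 0) (W1 := 536870912) (P2 := 1610612736) (W2 := 536870912) (P3 := 923417968) (W3 := 42949674) (N0 := 3) (En := eng) (mo := mog) (C1 := cd0q2) (C2 := cd1q3) (C3 := pd1)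
    rfl k0_pm_213

noncomputable def f_mm_001 : ℕ → ℕ → ℕ → ℕ → Bool := onCell 0 536870912 536870912 536870912 923417968 42949674
    (rowB 3 eng mog cd0q0 cd1q1 pd0 0 false false false .up 0 0 1 (qsf 0 536870912 536870912 536870912 0) ndB0q0 ndB1q1 pcB0 Cut.none Ext.none)

def k0_mm_001 : ∃ t, chk3 f_mm_001 t 1 1 1 = true :=
  ⟨(l 3), by decide +kernel⟩

theorem c_mm_001 : CertB 0 536870912 536870912 536870912 923417968 42949674 3 eng mog cd0q0 cd1q1 pd0 false false false .up 0 0 1
    ndB0q0 ndB1q1 pcB0 Cut.none Ext.none :=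
  certB0 (fam := false) (s1 := false) (s2 := false) (a := 0) (b := 0) (c := 1) (cn := .up) (n1 := ndB0q0) (n2 := ndB1q1) (pc := pcB0) (cut := Cut.none) (xt := Ext.none) (P1 := 0) (W1 := 536870912) (P2 := 536870912) (W2 := 536870912) (P3 := 923417968) (W3 := 42949674) (N0 := 3) (En := eng) (mo := mog) (C1 := cd0q0) (C2 := cd1q1) (C3 := pd0)
    rfl k0_mm_001

noncomputable def f_mm_011 : ℕ → ℕ → ℕ → ℕ → Bool := onCell 0 536870912 536870912 536870912 923417968 42949674
    (rowB 3 eng mog cd0q0 cd1q1 pd1 0 false false false .pnn 0 1 1 (qsf 0 536870912 536870912 536870912 1) ndB0q0 ndB1q1 pcB1 Cut.none Ext.none)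

def k0_mm_011 : ∃ t, chk3 f_mm_011 t 1 1 1 = true :=
  ⟨(l 3), by decide +kernel⟩

theorem c_mm_011 : CertB 0 536870912 536870912 536870912 923417968 42949674 3 eng mog cd0q0 cd1q1 pd1 false false false .pnn 0 1 1
    ndB0q0 ndB1q1 pcB1 Cut.none Ext.none :=
  certB0 (fam := false) (s1 := false) (s2 := false) (a := 0) (b := 1) (c := 1) (cn := .pnn) (n1 := ndB0q0) (n2 := ndB1q1) (pc := pcB1) (cut := Cut.none) (xt := Ext.none) (P1 := 0) (W1 := 536870912) (P2 := 536870912) (W2 := 536870912) (P3 := 923417968) (W3 := 42949674) (N0 := 3) (En := eng) (mo := mog) (C1 := cd0q0) (C2 := cd1q1) (C3 := pd1)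
    rfl k0_mm_011

noncomputable def f_mm_012_a : ℕ → ℕ → ℕ → ℕ → Bool := onCell 0 536870912 0 536870912 923417968 42949674
    (rowB 3 eng mog cd0q0 cd1q2a pd1 0 false false false .pnp 0 1 2 (qsf 0 536870912 0 536870912 1) ndB0q0 ndB1q2a pcB1 Cut.none Ext.none)

def k0_mm_012_a : ∃ t, chk3 f_mm_012_a t 1 1 1 = true :=
  ⟨(l 5), by decide +kernel⟩

theorem c_mm_012_a : CertB 0 536870912 0 536870912 923417968 42949674 3 eng mog cd0q0 cd1q2a pd1 false false false .pnp 0 1 2
    ndB0q0 ndB1q2a pcB1 Cut.none Ext.none :=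
  certB0 (fam := false) (s1 := false) (s2 := false) (a := 0) (b := 1) (c := 2) (cn := .pnp) (n1 := ndB0q0) (n2 := ndB1q2a) (pc := pcB1) (cut := Cut.none) (xt := Ext.none) (P1 := 0) (W1 := 536870912) (P2 := 0) (W2 := 536870912) (P3 := 923417968) (W3 := 42949674) (N0 := 3) (En := eng) (mo := mog) (C1 := cd0q0) (C2 := cd1q2a) (C3 := pd1)
    rfl k0_mm_012_a

noncomputable def f_mm_012_b : ℕ → ℕ → ℕ → ℕ → Bool := onCell 0 536870912 1239849684 370763052 923417968 42949674
    (rowB 3 eng mog cd0q0 cd1q2b pd1 0 false false false .pnp 0 1 2 (qsf 0 536870912 1239849684 370763052 1) ndB0q0 ndB1q2b pcB1 Cut.none Ext.none)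

def k0_mm_012_b : ∃ t, chk3 f_mm_012_b t 1 1 1 = true :=
  ⟨(l 5), by decide +kernel⟩

theorem c_mm_012_b : CertB 0 536870912 1239849684 370763052 923417968 42949674 3 eng mog cd0q0 cd1q2b pd1 false false false .pnp 0 1 2
    ndB0q0 ndB1q2b pcB1 Cut.none Ext.none :=
  certB0 (fam := false) (s1 := false) (s2 := false) (a := 0) (b := 1) (c := 2) (cn := .pnp) (n1 := ndB0q0) (n2 := ndB1q2b) (pc := pcB1) (cut := Cut.none) (xt := Ext.none) (P1 := 0) (W1 := 536870912) (P2 := 1239849684) (W2 := 370763052) (P3 := 923417968) (W3 := 42949674) (N0 := 3) (En := eng) (mo := mog) (C1 := cd0q0) (C2 := cd1q2b) (C3 := pd1)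
    rfl k0_mm_012_b

noncomputable def f_mm_022_a : ℕ → ℕ → ℕ → ℕ → Bool := onCell 0 536870912 0 536870912 923417968 42949674
    (rowB 3 eng mog cd0q0 cd1q2a pd2 0 false false false .pp 0 2 2 (qsf 0 536870912 0 536870912 2) ndB0q0 ndB1q2a pcB2 Cut.none Ext.none)

def k0_mm_022_a : ∃ t, chk3 f_mm_022_a t 1 1 1 = true :=
  ⟨(l 5), by decide +kernel⟩

theorem c_mm_022_a : CertB 0 536870912 0 536870912 923417968 42949674 3 eng mog cd0q0 cd1q2a pd2 false false false .pp 0 2 2
    ndB0q0 ndB1q2a pcB2 Cut.none Ext.none :=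
  certB0 (fam := false) (s1 := false) (s2 := false) (a := 0) (b := 2) (c := 2) (cn := .pp) (n1 := ndB0q0) (n2 := ndB1q2a) (pc := pcB2) (cut := Cut.none) (xt := Ext.none) (P1 := 0) (W1 := 536870912) (P2 := 0) (W2 := 536870912) (P3 := 923417968) (W3 := 42949674) (N0 := 3) (En := eng) (mo := mog) (C1 := cd0q0) (C2 := cd1q2a) (C3 := pd2)
    rfl k0_mm_022_a

noncomputable def f_mm_022_b : ℕ → ℕ → ℕ → ℕ → Bool := onCell 0 536870912 1239849684 370763052 923417968 42949674
    (rowB 3 eng mog cd0q0 cd1q2b pd2 0 false false false .pp 0 2 2 (qsf 0 536870912 1239849684 370763052 2) ndB0q0 ndB1q2b pcB2 Cut.none Ext.none)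

def k0_mm_022_b : ∃ t, chk3 f_mm_022_b t 1 1 1 = true :=
  ⟨(l 5), by decide +kernel⟩

theorem c_mm_022_b : CertB 0 536870912 1239849684 370763052 923417968 42949674 3 eng mog cd0q0 cd1q2b pd2 false false false .pp 0 2 2
    ndB0q0 ndB1q2b pcB2 Cut.none Ext.none :=
  certB0 (fam := false) (s1 := false) (s2 := false) (a := 0) (b := 2) (c := 2) (cn := .pp) (n1 := ndB0q0) (n2 := ndB1q2b) (pc := pcB2) (cut := Cut.none) (xt := Ext.none) (P1 := 0) (W1 := 536870912) (P2 := 1239849684) (W2 := 370763052) (P3 := 923417968) (W3 := 42949674) (N0 := 3) (En := eng) (mo := mog) (C1 := cd0q0) (C2 := cd1q2b) (C3 := pd2)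
    rfl k0_mm_022_b

noncomputable def f_mm_023 : ℕ → ℕ → ℕ → ℕ → Bool := onCell 0 536870912 1610612736 536870912 923417968 42949674
    (rowB 3 eng mog cd0q0 cd1q3 pd2 0 false false false .up 0 2 3 (qsf 0 536870912 1610612736 536870912 2) ndB0q0 ndB1q3 pcB2 Cut.none Ext.none)

def k0_mm_023 : ∃ t, chk3 f_mm_023 t 1 1 1 = true :=
  ⟨(l 5), by decide +kernel⟩

theorem c_mm_023 : CertB 0 536870912 1610612736 536870912 923417968 42949674 3 eng mog cd0q0 cd1q3 pd2 false false false .up 0 2 3
    ndB0q0 ndB1q3 pcB2 Cut.none Ext.none :=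
  certB0 (fam := false) (s1 := false) (s2 := false) (a := 0) (b := 2) (c := 3) (cn := .up) (n1 := ndB0q0) (n2 := ndB1q3) (pc := pcB2) (cut := Cut.none) (xt := Ext.none) (P1 := 0) (W1 := 536870912) (P2 := 1610612736) (W2 := 536870912) (P3 := 923417968) (W3 := 42949674) (N0 := 3) (En := eng) (mo := mog) (C1 := cd0q0) (C2 := cd1q3) (C3 := pd2)
    rfl k0_mm_023

noncomputable def f_mm_033 : ℕ → ℕ → ℕ → ℕ → Bool := onCell 0 536870912 1610612736 536870912 923417968 42949674
    (rowB 3 eng mog cd0q0 cd1q3 pd3 0 false false false .pnn 0 3 3 (qsf 0 536870912 1610612736 536870912 3) ndB0q0 ndB1q3 pcB3 Cut.none Ext.none)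

def k0_mm_033 : ∃ t, chk3 f_mm_033 t 1 1 1 = true :=
  ⟨(l 5), by decide +kernel⟩

theorem c_mm_033 : CertB 0 536870912 1610612736 536870912 923417968 42949674 3 eng mog cd0q0 cd1q3 pd3 false false false .pnn 0 3 3
    ndB0q0 ndB1q3 pcB3 Cut.none Ext.none :=
  certB0 (fam := false) (s1 := false) (s2 := false) (a := 0) (b := 3) (c := 3) (cn := .pnn) (n1 := ndB0q0) (n2 := ndB1q3) (pc := pcB3) (cut := Cut.none) (xt := Ext.none) (P1 := 0) (W1 := 536870912) (P2 := 1610612736) (W2 := 536870912) (P3 := 923417968) (W3 := 42949674) (N0 := 3) (En := eng) (mo := mog) (C1 := cd0q0) (C2 := cd1q3) (C3 := pd3)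
    rfl k0_mm_033

noncomputable def f_mm_101 : ℕ → ℕ → ℕ → ℕ → Bool := onCell 536870912 536870912 536870912 536870912 923417968 42949674
    (rowB 3 eng mog cd0q1 cd1q1 pd0 0 false false false .npn 1 0 1 (qsf 536870912 536870912 536870912 536870912 0) ndB0q1 ndB1q1 pcB0 Cut.none Ext.none)

def k0_mm_101 : ∃ t, chk3 f_mm_101 t 1 1 1 = true :=
  ⟨(l 3), by decide +kernel⟩

theorem c_mm_101 : CertB 536870912 536870912 536870912 536870912 923417968 42949674 3 eng mog cd0q1 cd1q1 pd0 false false false .npn 1 0 1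
    ndB0q1 ndB1q1 pcB0 Cut.none Ext.none :=
  certB0 (fam := false) (s1 := false) (s2 := false) (a := 1) (b := 0) (c := 1) (cn := .npn) (n1 := ndB0q1) (n2 := ndB1q1) (pc := pcB0) (cut := Cut.none) (xt := Ext.none) (P1 := 536870912) (W1 := 536870912) (P2 := 536870912) (W2 := 536870912) (P3 := 923417968) (W3 := 42949674) (N0 := 3) (En := eng) (mo := mog) (C1 := cd0q1) (C2 := cd1q1) (C3 := pd0)
    rfl k0_mm_101

noncomputable def f_mm_102_a : ℕ → ℕ → ℕ → ℕ → Bool := onCell 536870912 536870912 0 536870912 923417968 42949674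
    (rowB 3 eng mog cd0q1 cd1q2a pd0 0 false false false .npp 1 0 2 (qsf 536870912 536870912 0 536870912 0) ndB0q1 ndB1q2a pcB0 Cut.none Ext.none)

def k0_mm_102_a : ∃ t, chk3 f_mm_102_a t 1 1 1 = true :=
  ⟨(a (l 3) (l 3)), by decide +kernel⟩

theorem c_mm_102_a : CertB 536870912 536870912 0 536870912 923417968 42949674 3 eng mog cd0q1 cd1q2a pd0 false false false .npp 1 0 2
    ndB0q1 ndB1q2a pcB0 Cut.none Ext.none :=
  certB0 (fam := false) (s1 := false) (s2 := false) (a := 1) (b := 0) (c := 2) (cn := .npp) (n1 := ndB0q1) (n2 := ndB1q2a) (pc := pcB0) (cut := Cut.none) (xt := Ext.none) (P1 := 536870912) (W1 := 536870912) (P2 := 0) (W2 := 536870912) (P3 := 923417968) (W3 := 42949674) (N0 := 3) (En := eng) (mo := mog) (C1 := cd0q1) (C2 := cd1q2a) (C3 := pd0)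
    rfl k0_mm_102_a

noncomputable def f_mm_102_b : ℕ → ℕ → ℕ → ℕ → Bool := onCell 536870912 536870912 1239849684 370763052 923417968 42949674
    (rowB 3 eng mog cd0q1 cd1q2b pd0 0 false false false .npp 1 0 2 (qsf 536870912 536870912 1239849684 370763052 0) ndB0q1 ndB1q2b pcB0 Cut.none Ext.none)

def k0_mm_102_b : ∃ t, chk3 f_mm_102_b t 1 1 1 = true :=
  ⟨(l 5), by decide +kernel⟩

theorem c_mm_102_b : CertB 536870912 536870912 1239849684 370763052 923417968 42949674 3 eng mog cd0q1 cd1q2b pd0 false false false .npp 1 0 2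
    ndB0q1 ndB1q2b pcB0 Cut.none Ext.none :=
  certB0 (fam := false) (s1 := false) (s2 := false) (a := 1) (b := 0) (c := 2) (cn := .npp) (n1 := ndB0q1) (n2 := ndB1q2b) (pc := pcB0) (cut := Cut.none) (xt := Ext.none) (P1 := 536870912) (W1 := 536870912) (P2 := 1239849684) (W2 := 370763052) (P3 := 923417968) (W3 := 42949674) (N0 := 3) (En := eng) (mo := mog) (C1 := cd0q1) (C2 := cd1q2b) (C3 := pd0)
    rfl k0_mm_102_b

noncomputable def f_mm_112_a : ℕ → ℕ → ℕ → ℕ → Bool := onCell 536870912 536870912 0 536870912 923417968 42949674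
    (rowB 3 eng mog cd0q1 cd1q2a pd1 2 false false false .dn 1 1 2 (qsf 536870912 536870912 0 536870912 1) ndB0q1 ndB1q2a pcB1 Cut.none Ext.none)

def k0_mm_112_a : ∃ t, chk3 f_mm_112_a t 1 1 1 = true :=
  ⟨(l 5), by decide +kernel⟩

theorem c_mm_112_a : CertB 536870912 536870912 0 536870912 923417968 42949674 3 eng mog cd0q1 cd1q2a pd1 false false false .dn 1 1 2
    ndB0q1 ndB1q2a pcB1 Cut.none Ext.none :=
  certB2 (fam := false) (s1 := false) (s2 := false) (a := 1) (b := 1) (c := 2) (cn := .dn) (n1 := ndB0q1) (n2 := ndB1q2a) (pc := pcB1) (cut := Cut.none) (xt := Ext.none) (P1 := 536870912) (W1 := 536870912) (P2 := 0) (W2 := 536870912) (P3 := 923417968) (W3 := 42949674) (N0 := 3) (En := eng) (mo := mog) (C1 := cd0q1) (C2 := cd1q2a) (C3 := pd1)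
    rfl (fun _ => rfl) k0_mm_112_a

noncomputable def f_mm_112_b : ℕ → ℕ → ℕ → ℕ → Bool := onCell 536870912 536870912 1239849684 370763052 923417968 42949674
    (rowB 3 eng mog cd0q1 cd1q2b pd1 0 false false false .dn 1 1 2 (qsf 536870912 536870912 1239849684 370763052 1) ndB0q1 ndB1q2b pcB1 Cut.none Ext.none)

def k0_mm_112_b : ∃ t, chk3 f_mm_112_b t 1 1 1 = true :=
  ⟨(l 5), by decide +kernel⟩

theorem c_mm_112_b : CertB 536870912 536870912 1239849684 370763052 923417968 42949674 3 eng mog cd0q1 cd1q2b pd1 false false false .dn 1 1 2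
    ndB0q1 ndB1q2b pcB1 Cut.none Ext.none :=
  certB0 (fam := false) (s1 := false) (s2 := false) (a := 1) (b := 1) (c := 2) (cn := .dn) (n1 := ndB0q1) (n2 := ndB1q2b) (pc := pcB1) (cut := Cut.none) (xt := Ext.none) (P1 := 536870912) (W1 := 536870912) (P2 := 1239849684) (W2 := 370763052) (P3 := 923417968) (W3 := 42949674) (N0 := 3) (En := eng) (mo := mog) (C1 := cd0q1) (C2 := cd1q2b) (C3 := pd1)
    rfl k0_mm_112_b

noncomputable def f_mm_113 : ℕ → ℕ → ℕ → ℕ → Bool := onCell 536870912 536870912 1610612736 536870912 923417968 42949674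
    (rowB 3 eng mog cd0q1 cd1q3 pd1 0 false false false .nn 1 1 3 (qsf 536870912 536870912 1610612736 536870912 1) ndB0q1 ndB1q3 pcB1 Cut.none Ext.none)

def k0_mm_113 : ∃ t, chk3 f_mm_113 t 1 1 1 = true :=
  ⟨(l 5), by decide +kernel⟩

theorem c_mm_113 : CertB 536870912 536870912 1610612736 536870912 923417968 42949674 3 eng mog cd0q1 cd1q3 pd1 false false false .nn 1 1 3
    ndB0q1 ndB1q3 pcB1 Cut.none Ext.none :=
  certB0 (fam := false) (s1 := false) (s2 := false) (a := 1) (b := 1) (c := 3) (cn := .nn) (n1 := ndB0q1) (n2 := ndB1q3) (pc := pcB1) (cut := Cut.none) (xt := Ext.none) (P1 := 536870912) (W1 := 536870912) (P2 := 1610612736) (W2 := 536870912) (P3 := 923417968) (W3 := 42949674) (N0 := 3) (En := eng) (mo := mog) (C1 := cd0q1) (C2 := cd1q3) (C3 := pd1)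
    rfl k0_mm_113

noncomputable def f_mm_123 : ℕ → ℕ → ℕ → ℕ → Bool := onCell 536870912 536870912 1610612736 536870912 923417968 42949674
    (rowB 3 eng mog cd0q1 cd1q3 pd2 0 false false false .npn 1 2 3 (qsf 536870912 536870912 1610612736 536870912 2) ndB0q1 ndB1q3 pcB2 Cut.none Ext.none)

def k0_mm_123 : ∃ t, chk3 f_mm_123 t 1 1 1 = true :=
  ⟨(l 5), by decide +kernel⟩

theorem c_mm_123 : CertB 536870912 536870912 1610612736 536870912 923417968 42949674 3 eng mog cd0q1 cd1q3 pd2 false false false .npn 1 2 3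
    ndB0q1 ndB1q3 pcB2 Cut.none Ext.none :=
  certB0 (fam := false) (s1 := false) (s2 := false) (a := 1) (b := 2) (c := 3) (cn := .npn) (n1 := ndB0q1) (n2 := ndB1q3) (pc := pcB2) (cut := Cut.none) (xt := Ext.none) (P1 := 536870912) (W1 := 536870912) (P2 := 1610612736) (W2 := 536870912) (P3 := 923417968) (W3 := 42949674) (N0 := 3) (En := eng) (mo := mog) (C1 := cd0q1) (C2 := cd1q3) (C3 := pd2)
    rfl k0_mm_123

noncomputable def f_mm_133 : ℕ → ℕ → ℕ → ℕ → Bool := onCell 536870912 536870912 1610612736 536870912 923417968 42949674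
    (rowB 3 eng mog cd0q1 cd1q3 pd3 0 false false false .dn 1 3 3 (qsf 536870912 536870912 1610612736 536870912 3) ndB0q1 ndB1q3 pcB3 Cut.none Ext.none)

def k0_mm_133 : ∃ t, chk3 f_mm_133 t 1 1 1 = true :=
  ⟨(l 5), by decide +kernel⟩

theorem c_mm_133 : CertB 536870912 536870912 1610612736 536870912 923417968 42949674 3 eng mog cd0q1 cd1q3 pd3 false false false .dn 1 3 3
    ndB0q1 ndB1q3 pcB3 Cut.none Ext.none :=
  certB0 (fam := false) (s1 := false) (s2 := false) (a := 1) (b := 3) (c := 3) (cn := .dn) (n1 := ndB0q1) (n2 := ndB1q3) (pc := pcB3) (cut := Cut.none) (xt := Ext.none) (P1 := 536870912) (W1 := 536870912) (P2 := 1610612736) (W2 := 536870912) (P3 := 923417968) (W3 := 42949674) (N0 := 3) (En := eng) (mo := mog) (C1 := cd0q1) (C2 := cd1q3) (C3 := pd3)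
    rfl k0_mm_133

noncomputable def f_mm_202_a : ℕ → ℕ → ℕ → ℕ → Bool := onCell 0 536870912 0 536870912 923417968 42949674
    (rowB 3 eng mog cd0q2 cd1q2a pd0 0 false false false .pp 2 0 2 (qsf 0 536870912 0 536870912 0) ndB0q2 ndB1q2a pcB0 Cut.none Ext.none)

def k0_mm_202_a : ∃ t, chk3 f_mm_202_a t 1 1 1 = true :=
  ⟨(l 3), by decide +kernel⟩

theorem c_mm_202_a : CertB 0 536870912 0 536870912 923417968 42949674 3 eng mog cd0q2 cd1q2a pd0 false false false .pp 2 0 2
    ndB0q2 ndB1q2a pcB0 Cut.none Ext.none :=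
  certB0 (fam := false) (s1 := false) (s2 := false) (a := 2) (b := 0) (c := 2) (cn := .pp) (n1 := ndB0q2) (n2 := ndB1q2a) (pc := pcB0) (cut := Cut.none) (xt := Ext.none) (P1 := 0) (W1 := 536870912) (P2 := 0) (W2 := 536870912) (P3 := 923417968) (W3 := 42949674) (N0 := 3) (En := eng) (mo := mog) (C1 := cd0q2) (C2 := cd1q2a) (C3 := pd0)
    rfl k0_mm_202_a

noncomputable def f_mm_202_b : ℕ → ℕ → ℕ → ℕ → Bool := onCell 0 536870912 1239849684 370763052 923417968 42949674
    (rowB 3 eng mog cd0q2 cd1q2b pd0 0 false false false .pp 2 0 2 (qsf 0 536870912 1239849684 370763052 0) ndB0q2 ndB1q2b pcB0 Cut.none Ext.none)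

def k0_mm_202_b : ∃ t, chk3 f_mm_202_b t 1 1 1 = true :=
  ⟨(l 3), by decide +kernel⟩

theorem c_mm_202_b : CertB 0 536870912 1239849684 370763052 923417968 42949674 3 eng mog cd0q2 cd1q2b pd0 false false false .pp 2 0 2
    ndB0q2 ndB1q2b pcB0 Cut.none Ext.none :=
  certB0 (fam := false) (s1 := false) (s2 := false) (a := 2) (b := 0) (c := 2) (cn := .pp) (n1 := ndB0q2) (n2 := ndB1q2b) (pc := pcB0) (cut := Cut.none) (xt := Ext.none) (P1 := 0) (W1 := 536870912) (P2 := 1239849684) (W2 := 370763052) (P3 := 923417968) (W3 := 42949674) (N0 := 3) (En := eng) (mo := mog) (C1 := cd0q2) (C2 := cd1q2b) (C3 := pd0)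
    rfl k0_mm_202_b

noncomputable def f_mm_203 : ℕ → ℕ → ℕ → ℕ → Bool := onCell 0 536870912 0 536870912 923417968 42949674
    (rowB 3 eng mog cd0q2 cd1q3 pd0 1 false false false .up 2 0 3 (qsf 0 536870912 1610612736 536870912 0) ndB0q2 ndB1q3 pcB0 Cut.none Ext.none)

def k0_mm_203 : ∃ t, chk3 f_mm_203 t 1 1 1 = true :=
  ⟨(l 3), by decide +kernel⟩

theorem c_mm_203 : CertB 0 536870912 1610612736 536870912 923417968 42949674 3 eng mog cd0q2 cd1q3 pd0 false false false .up 2 0 3
    ndB0q2 ndB1q3 pcB0 Cut.none Ext.none :=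
  certB1 (fam := false) (s1 := false) (s2 := false) (a := 2) (b := 0) (c := 3) (cn := .up) (n1 := ndB0q2) (n2 := ndB1q3) (pc := pcB0) (cut := Cut.none) (xt := Ext.none) (P1 := 0) (W1 := 536870912) (P2 := 1610612736) (W2 := 536870912) (P3 := 923417968) (W3 := 42949674) (N0 := 3) (En := eng) (mo := mog) (C1 := cd0q2) (C2 := cd1q3) (C3 := pd0)
    rfl (fun _ => rfl) k0_mm_203

noncomputable def f_mm_213 : ℕ → ℕ → ℕ → ℕ → Bool := onCell 0 536870912 1610612736 536870912 923417968 42949674
    (rowB 3 eng mog cd0q2 cd1q3 pd1 0 false false false .pnn 2 1 3 (qsf 0 536870912 1610612736 536870912 1) ndB0q2 ndB1q3 pcB1 Cut.none Ext.none)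

def k0_mm_213 : ∃ t, chk3 f_mm_213 t 1 1 1 = true :=
  ⟨(a (l 3) (l 5)), by decide +kernel⟩

theorem c_mm_213 : CertB 0 536870912 1610612736 536870912 923417968 42949674 3 eng mog cd0q2 cd1q3 pd1 false false false .pnn 2 1 3
    ndB0q2 ndB1q3 pcB1 Cut.none Ext.none :=
  certB0 (fam := false) (s1 := false) (s2 := false) (a := 2) (b := 1) (c := 3) (cn := .pnn) (n1 := ndB0q2) (n2 := ndB1q3) (pc := pcB1) (cut := Cut.none) (xt := Ext.none) (P1 := 0) (W1 := 536870912) (P2 := 1610612736) (W2 := 536870912) (P3 := 923417968) (W3 := 42949674) (N0 := 3) (En := eng) (mo := mog) (C1 := cd0q2) (C2 := cd1q3) (C3 := pd1)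
    rfl k0_mm_213

end Pool.Agent.Strip051.G.I8600_9000.Tab.C.BB01

namespace Pool.Agent.Strip051.G.I8600_9000.Tab.C.BB02

open Pool.Agent.Strip051.PB Pool.Agent.Strip051.PB.T
open Pool.Agent.Strip051.G.I8600_9000.Tab

noncomputable def f_pp_001 : ℕ → ℕ → ℕ → ℕ → Bool := onCell 0 536870912 0 536870912 923417968 42949674
    (rowB 3 eng mog cd0q0 cd2q1 pd0 1 false true true .up 0 0 1 (qsf 0 536870912 536870912 536870912 0) ndB0q0 ndB2q1 pcB0 Cut.none Ext.none)

def k0_pp_001 : ∃ t, chk3 f_pp_001 t 1 1 1 = true :=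
  ⟨(l 3), by decide +kernel⟩

theorem c_pp_001 : CertB 0 536870912 536870912 536870912 923417968 42949674 3 eng mog cd0q0 cd2q1 pd0 false true true .up 0 0 1
    ndB0q0 ndB2q1 pcB0 Cut.none Ext.none :=
  certB1 (fam := false) (s1 := true) (s2 := true) (a := 0) (b := 0) (c := 1) (cn := .up) (n1 := ndB0q0) (n2 := ndB2q1) (pc := pcB0) (cut := Cut.none) (xt := Ext.none) (P1 := 0) (W1 := 536870912) (P2 := 536870912) (W2 := 536870912) (P3 := 923417968) (W3 := 42949674) (N0 := 3) (En := eng) (mo := mog) (C1 := cd0q0) (C2 := cd2q1) (C3 := pd0)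
    rfl (fun _ => rfl) k0_pp_001

noncomputable def cut_pp_011 : Cut := Cut.of [[⟨0, 0, 0, 67108864⟩, ⟨1, 1, 0, 67108864⟩, ⟨2, 1, 0, 67108864⟩]]

noncomputable def f_pp_011 : ℕ → ℕ → ℕ → ℕ → Bool := onCell 0 536870912 536870912 536870912 923417968 42949674
    (rowB 3 eng mog cd0q0 cd2q1 pd1 1 false true true .pnn 0 1 1 (qsf 0 536870912 536870912 536870912 1) ndB0q0 ndB2q1 pcB1 cut_pp_011 Ext.none)

def k0_pp_011 : ∃ t, chk3 f_pp_011 t 1 1 1 = true :=
  ⟨(b (l 3) (b (l 3) (a (a (b (l 3) (a (b (l 3) (a (l 6) (l 3))) (l 3))) (l 3)) (l 2)))), by decide +kernel⟩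

theorem c_pp_011 : CertB 0 536870912 536870912 536870912 923417968 42949674 3 eng mog cd0q0 cd2q1 pd1 false true true .pnn 0 1 1
    ndB0q0 ndB2q1 pcB1 cut_pp_011 Ext.none :=
  certB1 (fam := false) (s1 := true) (s2 := true) (a := 0) (b := 1) (c := 1) (cn := .pnn) (n1 := ndB0q0) (n2 := ndB2q1) (pc := pcB1) (cut := cut_pp_011) (xt := Ext.none) (P1 := 0) (W1 := 536870912) (P2 := 536870912) (W2 := 536870912) (P3 := 923417968) (W3 := 42949674) (N0 := 3) (En := eng) (mo := mog) (C1 := cd0q0) (C2 := cd2q1) (C3 := pd1)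
    rfl (fun _ => rfl) k0_pp_011

noncomputable def f_pp_012 : ℕ → ℕ → ℕ → ℕ → Bool := onCell 0 536870912 536870912 536870912 923417968 42949674
    (rowB 3 eng mog cd0q0 cd2q2 pd1 1 false true true .pnp 0 1 2 (qsf 0 536870912 1073741824 536870912 1) ndB0q0 ndB2q2 pcB1 Cut.none Ext.none)

def k0_pp_012 : ∃ t, chk3 f_pp_012 t 1 1 1 = true :=
  ⟨(b (l 3) (l 3)), by decide +kernel⟩

theorem c_pp_012 : CertB 0 536870912 1073741824 536870912 923417968 42949674 3 eng mog cd0q0 cd2q2 pd1 false true true .pnp 0 1 2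
    ndB0q0 ndB2q2 pcB1 Cut.none Ext.none :=
  certB1 (fam := false) (s1 := true) (s2 := true) (a := 0) (b := 1) (c := 2) (cn := .pnp) (n1 := ndB0q0) (n2 := ndB2q2) (pc := pcB1) (cut := Cut.none) (xt := Ext.none) (P1 := 0) (W1 := 536870912) (P2 := 1073741824) (W2 := 536870912) (P3 := 923417968) (W3 := 42949674) (N0 := 3) (En := eng) (mo := mog) (C1 := cd0q0) (C2 := cd2q2) (C3 := pd1)
    rfl (fun _ => rfl) k0_pp_012

noncomputable def f_pp_022 : ℕ → ℕ → ℕ → ℕ → Bool := onCell 0 536870912 1073741824 536870912 923417968 42949674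
    (rowB 3 eng mog cd0q0 cd2q2 pd2 1 false true true .pp 0 2 2 (qsf 0 536870912 1073741824 536870912 2) ndB0q0 ndB2q2 pcB2 Cut.none Ext.none)

def k0_pp_022 : ∃ t, chk3 f_pp_022 t 2 8 1 = true :=
  ⟨(a (l 3) (b (l 3) (b (l 3) (b (l 3) (a (a (a (l 3) (l 730848106695)) (a (l 16283880) (l 16275704))) (c (a (l 16482072) (l 16465104)) (a (l 16374104) (l 16352160)))))))), by decide +kernel⟩

def k1_pp_022 : ∃ t, chk3 f_pp_022 t 8 18 1 = true :=
  ⟨(a (b (b (b (l 3) (a (b (l 3) (a (a (b (l 3) (c (l 55464806583) (l 16402408))) (c (l 16445560) (l 16403016))) (c (a (l 16444864) (l 16444368)) (l 16404992)))) (c (a (l 66739118039) (l 16449320)) (a (l 16362496) (l 16378992))))) (a (c (a (c (b (a (l 16444944) (l 16444536)) (a (l 16423568) (l 16423328))) (b (a (l 16414208) (l 16413040)) (a (l 16391136) (l 16390144)))) (b (c (l 16444272) (l 16411712)) (c (l 16423312) (l 16389096)))) (a (b (c (a (l 16381976) (l 16379992)) (a (l 16348256) (l 16345392))) (c (a (l 16357128) (l 16355336)) (l 16341136)))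 (c (b (l 16377528) (l 16353168)) (b (l 16341712) (l 16315528))))) (c (a (c (l 16434200) (l 16399560)) (l 16412344)) (a (c (l 16363144) (l 16324968)) (l 16331856))))) (a (c (b (a (c (b (a (l 16402280) (l 16402200)) (l 16402048)) (b (l 16388688) (l 16344896))) (c (l 16412992) (l 16376288))) (b (a (c (l 16360008) (l 16322144)) (l 16362512)) (a (c (l 16338984) (l 16299448)) (l 16341016)))) (b (a (c (b (l 16352496) (l 16306936)) (b (l 16293640) (l 16267200))) (c (l 16337760) (l 16276416))) (a (c (b (l 16282424) (l 16257976)) (l 16248648)) (c (l 16268552) (l 16224552))))) (c (b (a (c (l 16393096) (l 16355208)) (l 16354600)) (a (l 16368672) (l 16333840))) (b (a (c (l 16315384) (l 16273632)) (l 16293640)) (a (l 16266528) (l 16245280)))))) (b (a (b (b (l 3) (c (l 16429376) (l 16355688))) (c (a (l 16418664) (l 16420248)) (a (l 16341216) (l 16340744)))) (c (b (l 16463248) (l 16423352)) (b (l 16386816) (l 16340928)))) (c (a (b (l 16367920) (l 16316752)) (b (l 16383768) (l 16344488))) (a (b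 (l 16272456) (l 16225352)) (c (l 16275232) (l 16226944)))))), by decide +kernel⟩

def k2_pp_022 : ∃ t, chk3 f_pp_022 t 9 18 1 = true :=
  ⟨(b (c (a (b (a (l 16466984) (l 16471048)) (a (l 16428480) (l 16433952))) (b (l 16412736) (l 16440672))) (a (b (a (l 16386456) (l 16386288)) (a (l 16342144) (l 16343576))) (b (a (l 16385624) (l 16383640)) (l 16260616)))) (a (a (c (l 16402792) (b (l 16298016) (l 16254256))) (c (l 16378880) (b (l 16301120) (l 16259024)))) (c (b (l 16406032) (l 16371992)) (b (l 16304560) (l 16265216))))), by decide +kernel⟩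

def k3_pp_022 : ∃ t, chk3 f_pp_022 t 4 19 1 = true :=
  ⟨(a (b (a (c (a (b (a (c (b (l 16317984) (l 16339232)) (b (l 16276800) (l 16254440))) (b (l 16298576) (c (l 16299344) (l 16255288)))) (a (c (a (l 16269312) (l 16270504)) (l 16266208)) (c (l 16272632) (l 16225840)))) (b (a (b (l 16300288) (l 16279888)) (l 16313840)) (a (l 16273440) (l 16256072)))) (a (b (a (b (l 16253160) (c (l 16209464) (l 16162376))) (b (l 16209472) (l 16185032))) (a (c (l 16176368) (l 16126200)) (c (l 16176664) (l 16125112)))) (b (a (l 16259864) (l 16197648)) (a (l 16151904) (l 16153584))))) (c (a (b (l 16279760) (l 16262520)) (b (l 16306680) (l 16272648))) (a (b (a (l 16199176) (l 16201384)) (l 16157536)) (b (l 16205664) (l 16164752))))) (a (c (a (c (a (b (l 16255592) (l 16199864)) (b (l 16237912) (l 16203696))) (a (b (l 16185208) (l 16146640)) (l 16231384))) (a (b (l 16216512) (l 16181048)) (b (l 16220704) (l 16185832)))) (c (a (a (b (l 16133304) (l 16090688)) (l 16134336)) (a (l 16115752) (l 16119024)))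 (a (a (l 16123600) (l 16055552)) (l 16099856)))) (c (a (c (l 16238152) (l 16183232)) (l 16202000)) (a (c (l 16125264) (l 16064272)) (l 16083680))))) (b (a (c (a (l 16300128) (l 16310984)) (a (b (l 16212304) (l 16173096)) (l 16200344))) (c (l 16262984) (a (l 16207624) (l 16213504)))) (a (c (a (l 16235992) (l 16249304)) (a (l 16094320) (l 16126120))) (c (l 16267720) (l 16141064))))), by decide +kernel⟩

def k4_pp_022 : ∃ t, chk3 f_pp_022 t 5 9 1 = true :=
  ⟨(b (a (b (c (a (b (l 16433120) (l 16442912)) (b (l 16445584) (l 16437232))) (a (b (a (l 16379592) (l 16372952)) (l 16339400)) (b (l 16360728) (l 16327048)))) (a (c (b (l 16411120) (l 16380320)) (b (l 16302816) (l 16267232))) (c (l 16331728) (a (l 16279968) (l 16275840))))) (b (c (c (a (l 16467248) (l 16455304)) (a (l 16414688) (l 16401048))) (a (b (l 16343104) (l 16312712)) (b (l 16324384) (l 16297256)))) (c (a (l 16369312) (l 16383304)) (a (l 16268888) (l 16258608))))) (a (c (a (b (l 16338656) (l 16285280)) (b (l 16343144)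 (l 16294536))) (a (b (l 16155040) (l 16154416)) (b (l 16217632) (l 16160200)))) (c (a (b (l 16344104) (l 16300232)) (l 16238568)) (a (b (l 16215032) (l 16163656)) (b (l 16210976) (l 16165608)))))), by decide +kernel⟩

def k5_pp_022 : ∃ t, chk3 f_pp_022 t 3 4 1 = true :=
  ⟨(b (b (l 3) (b (a (l 3) (a (l 3) (a (c (l 16400720) (l 16309424)) (l 143511126407)))) (a (a (c (a (l 61370232583) (l 16353104)) (a (b (l 3) (l 16329760)) (b (l 16331472) (l 16309280)))) (c (a (l 16356880) (l 16406704)) (a (l 125257489591) (l 16292544)))) (a (a (b (l 16206232) (l 16257216)) (c (l 16394200) (l 16291880))) (a (c (l 16389008) (l 16295216)) (l 2)))))) (a (b (a (b (c (a (l 16414024) (l 16399320)) (a (l 16251216) (l 16277472))) (c (a (l 16374072) (l 16364640)) (a (l 16247672) (l 16238416)))) (b (c (a (l 16387552) (l 16379776)) (a (l 16266944) (l 16262544))) (c (l 16355632) (a (l 16234056) (l 16235528))))) (a (c (a (l 16299256) (l 16317536)) (a (l 16186168) (l 16185656))) (c (a (l 16317312) (l 16320696))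 (a (l 16189816) (l 16199728))))) (b (a (b (c (l 16251208) (a (l 16265072) (l 16273920))) (c (l 16358568) (l 16229664))) (b (c (l 16374408) (l 16264048)) (l 2))) (a (c (l 16334168) (l 16059552)) (l 2))))), by decide +kernel⟩

def k6_pp_022 : ∃ t, chk3 f_pp_022 t 8 5 2 = true :=
  ⟨(b (b (b (a (a (b (a (c (l 16165680) (l 16108600)) (l 16141440)) (c (l 16155504) (l 16073104))) (b (l 16190672) (l 16135728))) (a (c (l 16174784) (l 16112936)) (l 16137584))) (a (b (a (a (c (l 16099656) (l 16034608)) (l 16072648)) (a (l 16078488) (l 16085008))) (a (c (b (l 16078976) (b (l 16068368) (a (l 16058592) (l 16064632)))) (b (l 16010376) (b (l 15997912) (a (l 15987128) (l 15992632))))) (b (l 16057632) (b (l 16046472) (a (l 16035688) (l 16042912)))))) (b (a (l 16095848) (l 16111848)) (b (a (l 16072648) (l 16089488)) (a (b (l 16061856) (l 16054824)) (l 16075552)))))) (a (a (b (c (a (b (l 16036960) (l 16001592)) (l 16025936)) (a (b (l 15963528) (l 15925440)) (l 15950672))) (c (a (b (l 15966912) (l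 15932936)) (l 15957880)) (a (l 15890712) (l 15877448)))) (b (c (l 16037312) (l 15961664)) (c (l 15971192) (l 15890568)))) (a (b (c (l 16054456) (l 15978696)) (c (l 15990920) (l 15910440))) (b (l 16036088) (l 15972944))))) (a (b (a (c (b (a (l 15883280) (l 15892600)) (a (l 15819512) (l 15830088))) (b (a (l 15798136) (l 15807256)) (a (l 15729576) (l 15740080)))) (c (b (l 15907824) (l 15847208)) (b (l 15822480) (l 15757400)))) (b (a (c (l 15764328) (l 15669872)) (c (l 15789336) (l 15695320))) (a (c (l 15706736) (l 15608072)) (l 15686000)))) (b (a (c (l 15900728) (l 15813648)) (c (l 15925976) (l 15839672))) (a (b (l 15770832) (l 15716368)) (c (l 15820200) (l 15726512)))))), by decide +kernel⟩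

def k7_pp_022 : ∃ t, chk3 f_pp_022 t 9 5 2 = true :=
  ⟨(b (b (b (a (a (l 16173944) (l 16189632)) (l 16211624)) (a (b (l 16137664) (b (l 16116560) (a (l 16094024) (l 16112824)))) (b (l 16171072) (l 16145848)))) (a (a (l 16025616) (l 16047384)) (a (l 16068504) (l 16088152)))) (a (b (a (l 15931296) (l 15937432)) (a (l 15806168) (l 15838504))) (b (l 15976576) (l 15885448)))), by decide +kernel⟩

def k8_pp_022 : ∃ t, chk3 f_pp_022 t 5 5 2 = true :=
  ⟨(b (a (b (b (a (l 16233952) (l 16247960)) (a (b (l 16196944) (l 16173880)) (b (l 16214456) (l 16193560)))) (a (l 16113024) (l 16139112))) (b (b (l 16262176) (b (l 16233904) (l 16216240))) (a (l 16161512) (l 16180744)))) (a (a (b (l 16021664) (l 15940848)) (b (l 16058216) (l 15987592))) (b (l 16105880) (l 16050296)))), by decide +kernel⟩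

def k9_pp_022 : ∃ t, chk3 f_pp_022 t 4 5 3 = true :=
  ⟨(b (a (b (b (a (a (b (a (l 16059376) (l 16019328)) (a (l 16036600) (l 15976360))) (b (l 16066152) (l 16024336))) (a (b (l 16033720) (l 15993448)) (c (l 16060640) (l 15990800)))) (a (b (a (c (l 15967888) (l 15895424)) (c (l 15977688) (l 15903744))) (a (b (a (l 15898624) (l 15902648)) (b (a (l 15903944) (l 15887288)) (a (c (l 15911752) (l 15832472)) (l 15877104)))) (b (l 15910712) (b (l 15895784) (a (l 15882720) (l 15889296)))))) (b (a (l 15953784) (l 15968712)) (a (b (l 15924480) (b (l 15910120) (l 15900608))) (b (l 15940576) (l 15922184)))))) (a (a (b (c (a (b (l 15886048) (l 15845072)) (l 15871184)) (a (l 15803368) (l 15787472))) (c (a (l 15806120) (l 15792432)) (a (l 15696064) (l 15702824)))) (b (c (l 15881648) (l 15797288)) (c (l 15805224) (l 15715168)))) (a (b (c (l 15898400) (l 15813600)) (l 15843488)) (b (l 15875432) (l 15802688))))) (b (b (a (a (l 16039912) (l 16053832)) (l 16073432)) (a (b (l 16034856) (a (b (l 15957808)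 (l 15940192)) (l 15966904))) (b (l 16024160) (b (l 16000104) (l 15984408))))) (a (a (l 15849816) (l 15861176)) (l 15934608)))) (a (a (b (a (b (c (a (l 15708136) (l 15716952)) (a (l 15613272) (l 15621712))) (c (a (l 15634416) (l 15644760)) (l 15580856))) (b (c (l 15732056) (l 15636568)) (c (l 15662144) (l 15561480)))) (a (b (c (l 15569776) (l 15464040)) (c (l 15503392) (l 15392712))) (b (c (l 15595496) (l 15489904)) (l 15519680)))) (b (a (b (l 15728920) (l 15638672)) (b (l 15733272) (l 15667176))) (a (b (l 15572760) (l 15510200)) (b (l 15604416) (l 15544976))))) (a (b (a (b (l 15759744) (l 15696832)) (l 15756152)) (a (l 15608656) (l 15643200))) (b (l 15776264) (l 15693704))))), by decide +kernel⟩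

def k10_pp_022 : ∃ t, chk3 f_pp_022 t 5 5 3 = true :=
  ⟨(a (b (b (b (a (l 16092984) (l 16104912)) (a (b (l 16048376) (l 16019632)) (l 16031256))) (a (l 15948960) (l 15976576))) (a (b (l 15845296) (l 15754240)) (b (l 15885544) (l 15806864)))) (b (b (b (l 16034576) (b (l 16064424) (l 16064288))) (a (l 16001712) (l 16025136))) (a (l 15888640) (l 15930600)))), by decide +kernel⟩

def k11_pp_022 : ∃ t, chk3 f_pp_022 t 3 5 1 = true :=
  ⟨(a (c (b (a (b (b (l 16272352) (a (l 16240200) (l 16248632))) (l 16204864)) (b (b (l 16285368) (l 16119064)) (l 16240552))) (a (a (l 16125200) (l 16155424)) (l 16036952))) (b (a (b (b (l 16133360) (b (l 16109328) (l 16094208))) (l 16058824)) (b (b (l 16159152) (l 16139256)) (l 16114256))) (a (a (l 15971136) (l 16012552)) (b (l 16090248) (l 2))))) (b (a (b (b (c (l 16314280) (l 16209600)) (l 2)) (l 2)) (l 2)) (l 2))), by decide +kernel⟩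

def k12_pp_022 : ∃ t, chk3 f_pp_022 t 2 6 1 = true :=
  ⟨(a (a (b (a (b (c (a (c (b (l 15651920) (l 15599872)) (b (l 15549304) (l 15493560))) (b (l 15631824) (l 15580512))) (a (b (c (l 15440296) (l 15324928)) (c (l 15380496) (l 15260680))) (b (l 15415440) (l 15356536)))) (c (a (b (l 15496608) (l 15448560)) (b (l 15532072) (l 15486512))) (a (b (l 15346752) (l 15207728)) (b (l 15301016) (l 15248888))))) (c (b (a (b (l 15664752) (l 15615976)) (l 15676024)) (a (l 15548152) (l 15589168))) (b (a (b (l 15451000) (l 15395160)) (l 15462072)) (a (l 15338680) (l 15363184))))) (a (c (b (a (b (l 15403400) (l 15361144)) (l 15423544)) (a (b (l 15321776) (l 15285312)) (l 15349616))) (b (a (b (l 15156008) (l 15107712)) (b (l 15200152) (l 15154824))) (a (b (l 15062840) (l 15021408)) (l 15093200)))) (c (b (a (l 15467656) (l 15513552)) (a (l 15398520) (l 15449184))) (b (a (l 15226208) (l 15277648)) (a (l 15148208) (l 15205496)))))) (b (a (c (b (a (l 15713160) (l 15750584)) (l 15673440)) (b (a (l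 15502616) (l 15543328)) (a (l 15409792) (l 15456544)))) (c (b (l 15805128) (l 15735640)) (b (l 15603048) (l 15525304)))) (a (c (b (l 15584144) (l 15526896)) (b (l 15356576) (l 15293168))) (c (b (l 15676960) (l 15629104)) (b (l 15460488) (l 15408640)))))) (a (a (b (c (b (l 15870584) (l 15810880)) (b (l 15675808) (l 15610032))) (b (l 15663536) (l 15708192))) (b (b (l 15837640) (l 15785888)) (b (l 15745496) (l 15716464)))) (a (b (b (l 15894928) (l 15853776)) (b (l 15823720) (l 2))) (b (b (l 15949336) (l 15918640)) (l 2))))), by decide +kernel⟩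

def k13_pp_022 : ∃ t, chk3 f_pp_022 t 2 7 1 = true :=
  ⟨(a (b (a (a (c (b (a (l 15236032) (l 15287152)) (a (l 15180440) (l 15236152))) (b (a (l 15007648) (l 15022976)) (a (l 14903496) (l 14966440)))) (c (b (l 15368208) (l 15324048)) (b (l 15177952) (l 15066968)))) (a (c (b (l 15480704) (l 15445584)) (b (l 15243000) (l 15206144))) (b (c (l 15592056) (l 15369800)) (c (l 15566120) (l 15344440))))) (a (b (a (c (a (l 15136416) (l 15196616)) (a (l 14855128) (l 14923640))) (c (a (l 15259224) (l 15324552)) (a (l 14995600) (l 15071216)))) (a (b (a (c (l 15110984) (l 14827968)) (c (l 15175992) (l 14902688))) (b (a (c (l 15102520) (l 14840808)) (c (l 15175528) (l 14905752))) (a (a (c (l 15085008) (l 14801872)) (l 15140816)) (l 2)))) (a (b (b (l 15244584) (l 2)) (l 2)) (l 2)))) (b (a (b (a (l 15277720) (l 2)) (l 2)) (l 2)) (l 2)))) (b (a (b (a (l 15596720) (l 2)) (l 2)) (l 2)) (l 2))), by decide +kernel⟩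

def k14_pp_022 : ∃ t, chk3 f_pp_022 t 3 3 1 = true :=
  ⟨(b (a (b (a (b (a (l 16001208) (l 2)) (l 2)) (l 2)) (l 2)) (l 2)) (l 2)), by decide +kernel⟩

theorem s15_pp_022 : ∃ t, chk3 f_pp_022 t 2 3 1 = true := ex3_b k12_pp_022 k13_pp_022

theorem s16_pp_022 : ∃ t, chk3 f_pp_022 t 1 3 1 = true := ex3_a s15_pp_022 k14_pp_022

theorem s17_pp_022 : ∃ t, chk3 f_pp_022 t 2 5 3 = true := ex3_a k9_pp_022 k10_pp_022

theorem s18_pp_022 : ∃ t, chk3 f_pp_022 t 4 5 2 = true := ex3_a k6_pp_022 k7_pp_022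

theorem s19_pp_022 : ∃ t, chk3 f_pp_022 t 2 5 2 = true := ex3_a s18_pp_022 k8_pp_022

theorem s20_pp_022 : ∃ t, chk3 f_pp_022 t 2 5 1 = true := ex3_c s19_pp_022 s17_pp_022

theorem s21_pp_022 : ∃ t, chk3 f_pp_022 t 1 5 1 = true := ex3_a s20_pp_022 k11_pp_022

theorem s22_pp_022 : ∃ t, chk3 f_pp_022 t 4 18 1 = true := ex3_a k1_pp_022 k2_pp_022

theorem s23_pp_022 : ∃ t, chk3 f_pp_022 t 4 9 1 = true := ex3_b s22_pp_022 k3_pp_022

theorem s24_pp_022 : ∃ t, chk3 f_pp_022 t 2 9 1 = true := ex3_a s23_pp_022 k4_pp_022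

theorem s25_pp_022 : ∃ t, chk3 f_pp_022 t 2 4 1 = true := ex3_b k0_pp_022 s24_pp_022

theorem s26_pp_022 : ∃ t, chk3 f_pp_022 t 1 4 1 = true := ex3_a s25_pp_022 k5_pp_022

theorem s27_pp_022 : ∃ t, chk3 f_pp_022 t 1 2 1 = true := ex3_b s26_pp_022 s21_pp_022

theorem s28_pp_022 : ∃ t, chk3 f_pp_022 t 1 1 1 = true := ex3_b s27_pp_022 s16_pp_022

theorem c_pp_022 : CertB 0 536870912 1073741824 536870912 923417968 42949674 3 eng mog cd0q0 cd2q2 pd2 false true true .pp 0 2 2
    ndB0q0 ndB2q2 pcB2 Cut.none Ext.none :=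
  certB1 (fam := false) (s1 := true) (s2 := true) (a := 0) (b := 2) (c := 2) (cn := .pp) (n1 := ndB0q0) (n2 := ndB2q2) (pc := pcB2) (cut := Cut.none) (xt := Ext.none) (P1 := 0) (W1 := 536870912) (P2 := 1073741824) (W2 := 536870912) (P3 := 923417968) (W3 := 42949674) (N0 := 3) (En := eng) (mo := mog) (C1 := cd0q0) (C2 := cd2q2) (C3 := pd2)
    rfl (fun _ => rfl) s28_pp_022

noncomputable def f_pp_023 : ℕ → ℕ → ℕ → ℕ → Bool := onCell 1073741824 536870912 0 1230186008 923417968 42949674
    (rowB 3 eng mog cd0q0 cd2q3 pd2 2 false true true .up 0 2 3 (qsf 0 536870912 0 1230186008 2) ndB0q0 ndB2q3 pcB2 Cut.none Ext.none)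

def k0_pp_023 : ∃ t, chk3 f_pp_023 t 2 1 1 = true :=
  ⟨(b (l 2) (b (b (l 2) (a (l 2) (a (l 2) (b (l 2) (l 16352880))))) (b (a (l 2) (a (b (a (l 2) (l 16391216)) (a (a (l 16331600) (a (l 16352824) (l 16366152))) (l 16402368))) (b (l 16303840) (a (l 16453200) (l 16457904))))) (a (a (b (l 2) (a (l 3) (a (a (l 3) (b (l 16233040) (l 16269096))) (b (a (l 16254144) (l 16273240)) (a (l 16290184) (l 16310208)))))) (a (b (b (l 2) (l 247596737655)) (a (b (l 16295912) (l 16335024)) (b (l 16322536) (l 16363296)))) (b (a (l 16308192) (l 16336320)) (b (l 16364352) (l 16404584))))) (a (b (a (a (l 16364216) (a (l 16384280) (l 16396704))) (l 16430080)) (a (a (l 16361008) (b (l 16429776) (l 16417184))) (b (l 16418512) (l 16382232)))) (b (a (l 16427216) (l 16388112)) (b (l 16344320) (a (l 16326808) (l 16261880))))))))), by decide +kernel⟩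

def k1_pp_023 : ∃ t, chk3 f_pp_023 t 3 1 1 = true :=
  ⟨(a (b (l 2) (b (b (a (l 2) (b (l 16119304) (l 16149760))) (a (b (a (l 16527528) (l 16490720)) (a (l 16531736) (l 16513768))) (b (l 16317480) (l 16306704)))) (b (a (b (a (l 16493760) (l 16465848)) (a (l 16424880) (l 16376264))) (b (a (l 16413528) (l 16338368)) (a (l 16319912) (l 16255432)))) (b (a (b (l 16328600) (l 16192048)) (a (l 16199864) (l 16013160))) (a (b (l 16088160) (a (l 16185336) (l 16096408))) (b (l 15953840) (a (l 15993184) (l 15877128)))))))) (b (b (a (l 2) (b (l 15784752) (l 15731848))) (b (a (b (l 2) (l 15882120)) (b (l 15670416) (l 15650960))) (b (a (b (l 15926288) (l 15947992)) (b (l 15640544) (l 15653048))) (a (l 15993312) (l 15705000))))) (b (b (b (a (l 16058504) (l 15782040)) (a (l 16039064) (a (l 15930632) (l 15795408)))) (a (b (l 16182984) (l 16228712)) (b (l 15945632) (l 15896608)))) (b (a (b (a (l 16258864) (l 16175624)) (a (l 16012032) (l 15992032))) (b (a (l 16086264) (l 15990528)) (a (l 15841392)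 (b (l 15945304) (l 15880408))))) (b (a (a (b (l 16051528) (l 15978296)) (b (l 15980592) (a (l 15896544) (l 15842832)))) (b (a (l 15885360) (l 15781288)) (a (l 15761112) (a (l 15675728) (l 15616032))))) (a (b (a (l 15871512) (b (l 15774648) (l 15705208))) (a (l 15742616) (b (l 15631296) (l 15550672)))) (b (b (a (l 15728904) (l 15518944)) (a (a (l 15593456) (l 15521048)) (c (l 15463544) (l 15380096)))) (a (a (l 15467088) (b (l 15428016) (l 15337368))) (b (a (c (l 15399248) (l 15302104)) (l 15286272)) (a (c (l 15307032) (l 15195368)) (c (b (l 15261168) (l 15210168)) (l 15113520)))))))))))), by decide +kernel⟩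

theorem s2_pp_023 : ∃ t, chk3 f_pp_023 t 1 1 1 = true := ex3_a k0_pp_023 k1_pp_023

theorem c_pp_023 : CertB 0 536870912 0 1230186008 923417968 42949674 3 eng mog cd0q0 cd2q3 pd2 false true true .up 0 2 3
    ndB0q0 ndB2q3 pcB2 Cut.none Ext.none :=
  certB2 (fam := false) (s1 := true) (s2 := true) (a := 0) (b := 2) (c := 3) (cn := .up) (n1 := ndB0q0) (n2 := ndB2q3) (pc := pcB2) (cut := Cut.none) (xt := Ext.none) (P1 := 0) (W1 := 536870912) (P2 := 0) (W2 := 1230186008) (P3 := 923417968) (W3 := 42949674) (N0 := 3) (En := eng) (mo := mog) (C1 := cd0q0) (C2 := cd2q3) (C3 := pd2)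
    rfl (fun _ => rfl) s2_pp_023

noncomputable def f_pp_033 : ℕ → ℕ → ℕ → ℕ → Bool := onCell 1610612736 536870912 0 1230186008 923417968 42949674
    (rowB 3 eng mog cd0q0 cd2q3 pd3 2 false true true .pnn 0 3 3 (qsf 0 536870912 0 1230186008 3) ndB0q0 ndB2q3 pcB3 Cut.none Ext.none)

def k0_pp_033 : ∃ t, chk3 f_pp_033 t 1 2 1 = true :=
  ⟨(b (a (a (a (a (l 16549728) (l 16479536)) (a (l 16414872) (l 16351664))) (a (a (l 16288512) (l 16234144)) (a (l 16190512) (l 4)))) (l 4)) (a (b (a (a (l 16272104) (l 16346592)) (a (l 16055232) (a (l 16100872) (l 16039896)))) (a (b (a (c (l 16379416) (l 16589992)) (c (l 16237000) (l 16326776))) (a (a (l 16490736) (l 16404976)) (a (l 16318360) (l 16236976)))) (b (a (b (l 16151448) (l 16144704)) (a (l 16032624) (l 15952456))) (a (l 15988688) (a (l 15988112) (l 15900848)))))) (b (l 4) (a (a (a (b (l 15877216) (l 15809352)) (l 4)) (l 4)) (l 4))))), by decide +kernel⟩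

def k1_pp_033 : ∃ t, chk3 f_pp_033 t 1 6 1 = true :=
  ⟨(a (b (a (a (b (c (l 16300656) (l 16439600)) (c (l 16243368) (l 16330400))) (b (a (l 16270832) (l 16186080)) (a (l 16192728) (l 16105976)))) (a (b (l 15823984) (a (l 16011344) (l 15912440))) (b (a (l 15914984) (l 15811024)) (a (l 15802080) (l 15682424))))) (a (a (b (l 16046048) (c (l 16065816) (l 15993424))) (b (a (l 16082808) (l 15993744)) (a (l 15947640) (b (l 15885656) (l 15798000))))) (a (b (a (l 15890920) (l 15773800)) (a (b (l 15772032) (l 15674624)) (b (l 15641080) (l 15534576)))) (b (a (l 15729696) (l 15507016)) (a (b (l 15498984) (l 15387480)) (b (l 15352856) (l 15241664))))))) (a (b (a (b (a (l 15700336) (l 15586264)) (a (l 15552544) (b (l 15466816) (l 15375824)))) (b (l 4) (a (b (l 4) (l 15253376)) (l 4)))) (a (a (b (l 15364920) (b (l 15211200) (l 15109744))) (b (l 15229384) (l 503078632023))) (a (b (l 533680418215) (l 1)) (l 1)))) (l 4))), by decide +kernel⟩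

def k2_pp_033 : ∃ t, chk3 f_pp_033 t 1 7 1 = true :=
  ⟨(a (a (b (a (b (a (l 15917312) (b (l 15923928) (l 15839800))) (a (b (l 15858464) (l 15781144)) (b (l 15742352) (c (l 15651520) (l 15609432))))) (b (a (b (l 15819488) (l 15721680)) (b (l 15699616) (c (l 15613992) (l 15556192)))) (a (b (c (l 15635592) (l 15583296)) (c (l 15517768) (l 15454312))) (b (c (l 15500928) (l 15425976)) (c (l 15379264) (l 15289528)))))) (b (a (b (a (c (l 15660752) (l 15633832)) (c (l 15527768) (l 15480864))) (a (c (l 15529904) (l 15504560)) (c (a (l 15427152) (l 15358544)) (a (l 15384720) (l 15303216))))) (a (b (c (a (l 15424560) (l 15355536)) (l 15359984)) (c (a (l 15290592) (l 256117989367)) (a (l 15221928) (l 15142888)))) (b (c (a (l 15287080) (l 15219784)) (l 265244865351)) (a (c (l 246454204439) (l 229274187623)) (l 1))))) (a (a (b (c (a (l 15420880) (l 15352688)) (a (l 15406064) (l 15325984))) (c (c (b (l 15282208) (l 219610599111)) (l 207262670807)) (a (l 15265304) (l 175587316871)))) (a (b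 (c (l 218000267079) (l 15246120)) (c (b (l 215852522599) (l 1)) (l 205651953255))) (b (c (l 239474978119) (l 15167856)) (l 1)))) (a (a (b (c (l 229274324039) (l 217999935207)) (l 1)) (l 1)) (l 1))))) (b (b (a (a (b (a (l 15598520) (l 15527008)) (c (l 15478552) (l 15396808))) (a (b (l 15453344) (l 15327608)) (b (l 15378920) (l 15251960)))) (a (b (c (l 15314328) (l 15213744)) (a (l 15285360) (l 15115232))) (b (l 504689423479) (l 1)))) (a (b (a (c (l 15361896) (l 15259632)) (c (l 15287416) (l 274371609575))) (a (c (l 238938317335) (l 271150419447)) (c (l 286719590023) (l 269539552839)))) (l 1))) (a (b (a (b (c (l 269539732327) (l 246991012791)) (l 1)) (l 1)) (l 1)) (l 1)))) (l 1)), by decide +kernel⟩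

theorem s3_pp_033 : ∃ t, chk3 f_pp_033 t 1 3 1 = true := ex3_b k1_pp_033 k2_pp_033

theorem s4_pp_033 : ∃ t, chk3 f_pp_033 t 1 1 1 = true := ex3_b k0_pp_033 s3_pp_033

theorem c_pp_033 : CertB 0 536870912 0 1230186008 923417968 42949674 3 eng mog cd0q0 cd2q3 pd3 false true true .pnn 0 3 3
    ndB0q0 ndB2q3 pcB3 Cut.none Ext.none :=
  certB2 (fam := false) (s1 := true) (s2 := true) (a := 0) (b := 3) (c := 3) (cn := .pnn) (n1 := ndB0q0) (n2 := ndB2q3) (pc := pcB3) (cut := Cut.none) (xt := Ext.none) (P1 := 0) (W1 := 536870912) (P2 := 0) (W2 := 1230186008) (P3 := 923417968) (W3 := 42949674) (N0 := 3) (En := eng) (mo := mog) (C1 := cd0q0) (C2 := cd2q3) (C3 := pd3)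
    rfl (fun _ => rfl) s4_pp_033

noncomputable def f_pp_101 : ℕ → ℕ → ℕ → ℕ → Bool := onCell 536870912 536870912 536870912 536870912 923417968 42949674
    (rowB 3 eng mog cd0q1 cd2q1 pd0 0 false true true .npn 1 0 1 (qsf 536870912 536870912 536870912 536870912 0) ndB0q1 ndB2q1 pcB0 Cut.none Ext.none)

def k0_pp_101 : ∃ t, chk3 f_pp_101 t 1 1 1 = true :=
  ⟨(a (l 3) (l 5)), by decide +kernel⟩

theorem c_pp_101 : CertB 536870912 536870912 536870912 536870912 923417968 42949674 3 eng mog cd0q1 cd2q1 pd0 false true true .npn 1 0 1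
    ndB0q1 ndB2q1 pcB0 Cut.none Ext.none :=
  certB0 (fam := false) (s1 := true) (s2 := true) (a := 1) (b := 0) (c := 1) (cn := .npn) (n1 := ndB0q1) (n2 := ndB2q1) (pc := pcB0) (cut := Cut.none) (xt := Ext.none) (P1 := 536870912) (W1 := 536870912) (P2 := 536870912) (W2 := 536870912) (P3 := 923417968) (W3 := 42949674) (N0 := 3) (En := eng) (mo := mog) (C1 := cd0q1) (C2 := cd2q1) (C3 := pd0)
    rfl k0_pp_101

noncomputable def f_pp_102 : ℕ → ℕ → ℕ → ℕ → Bool := onCell 536870912 536870912 0 536870912 923417968 42949674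
    (rowB 3 eng mog cd0q1 cd2q2 pd0 1 false true true .npp 1 0 2 (qsf 536870912 536870912 1073741824 536870912 0) ndB0q1 ndB2q2 pcB0 Cut.none Ext.none)

def k0_pp_102 : ∃ t, chk3 f_pp_102 t 1 1 1 = true :=
  ⟨(l 3), by decide +kernel⟩

theorem c_pp_102 : CertB 536870912 536870912 1073741824 536870912 923417968 42949674 3 eng mog cd0q1 cd2q2 pd0 false true true .npp 1 0 2
    ndB0q1 ndB2q2 pcB0 Cut.none Ext.none :=
  certB1 (fam := false) (s1 := true) (s2 := true) (a := 1) (b := 0) (c := 2) (cn := .npp) (n1 := ndB0q1) (n2 := ndB2q2) (pc := pcB0) (cut := Cut.none) (xt := Ext.none) (P1 := 536870912) (W1 := 536870912) (P2 := 1073741824) (W2 := 536870912) (P3 := 923417968) (W3 := 42949674) (N0 := 3) (En := eng) (mo := mog) (C1 := cd0q1) (C2 := cd2q2) (C3 := pd0)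
    rfl (fun _ => rfl) k0_pp_102

noncomputable def f_pp_112 : ℕ → ℕ → ℕ → ℕ → Bool := onCell 536870912 536870912 1073741824 536870912 923417968 42949674
    (rowB 3 eng mog cd0q1 cd2q2 pd1 0 false true true .dn 1 1 2 (qsf 536870912 536870912 1073741824 536870912 1) ndB0q1 ndB2q2 pcB1 Cut.none Ext.none)

def k0_pp_112 : ∃ t, chk3 f_pp_112 t 1 1 1 = true :=
  ⟨(a (l 3) (l 3)), by decide +kernel⟩

theorem c_pp_112 : CertB 536870912 536870912 1073741824 536870912 923417968 42949674 3 eng mog cd0q1 cd2q2 pd1 false true true .dn 1 1 2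
    ndB0q1 ndB2q2 pcB1 Cut.none Ext.none :=
  certB0 (fam := false) (s1 := true) (s2 := true) (a := 1) (b := 1) (c := 2) (cn := .dn) (n1 := ndB0q1) (n2 := ndB2q2) (pc := pcB1) (cut := Cut.none) (xt := Ext.none) (P1 := 536870912) (W1 := 536870912) (P2 := 1073741824) (W2 := 536870912) (P3 := 923417968) (W3 := 42949674) (N0 := 3) (En := eng) (mo := mog) (C1 := cd0q1) (C2 := cd2q2) (C3 := pd1)
    rfl k0_pp_112

noncomputable def cut_pp_113 : Cut := Cut.of [[⟨0, 1, 0, 67108864⟩, ⟨1, 1, 0, 67108864⟩, ⟨2, 2, 0, 16252928⟩]]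

noncomputable def f_pp_113 : ℕ → ℕ → ℕ → ℕ → Bool := onCell 536870912 536870912 0 1230186008 923417968 42949674
    (rowB 3 eng mog cd0q1 cd2q3 pd1 2 false true true .nn 1 1 3 (qsf 536870912 536870912 0 1230186008 1) ndB0q1 ndB2q3 pcB1 cut_pp_113 Ext.none)

def k0_pp_113 : ∃ t, chk3 f_pp_113 t 1 1 1 = true :=
  ⟨(b (a (l 2) (a (l 2) (a (l 3) (a (l 3) (b (b (l 6) (l 3)) (l 3)))))) (b (a (l 3) (a (l 3) (l 3))) (a (b (l 3) (l 3)) (l 3)))), by decide +kernel⟩

theorem c_pp_113 : CertB 536870912 536870912 0 1230186008 923417968 42949674 3 eng mog cd0q1 cd2q3 pd1 false true true .nn 1 1 3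
    ndB0q1 ndB2q3 pcB1 cut_pp_113 Ext.none :=
  certB2 (fam := false) (s1 := true) (s2 := true) (a := 1) (b := 1) (c := 3) (cn := .nn) (n1 := ndB0q1) (n2 := ndB2q3) (pc := pcB1) (cut := cut_pp_113) (xt := Ext.none) (P1 := 536870912) (W1 := 536870912) (P2 := 0) (W2 := 1230186008) (P3 := 923417968) (W3 := 42949674) (N0 := 3) (En := eng) (mo := mog) (C1 := cd0q1) (C2 := cd2q3) (C3 := pd1)
    rfl (fun _ => rfl) k0_pp_113

noncomputable def cut_pp_123 : Cut := Cut.of [[⟨0, 1, 0, 67108864⟩, ⟨1, 1, 0, 67108864⟩, ⟨2, 2, 0, 16252928⟩]]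

noncomputable def f_pp_123 : ℕ → ℕ → ℕ → ℕ → Bool := onCell 1073741824 536870912 0 1230186008 923417968 42949674
    (rowB 3 eng mog cd0q1 cd2q3 pd2 2 false true true .npn 1 2 3 (qsf 536870912 536870912 0 1230186008 2) ndB0q1 ndB2q3 pcB2 cut_pp_123 Ext.none)

def k0_pp_123 : ∃ t, chk3 f_pp_123 t 1 8 1 = true :=
  ⟨(a (a (a (a (l 6) (a (l 6) (b (l 16638824) (l 16642240)))) (a (a (l 16618696) (l 16608544)) (l 16545456))) (a (a (l 16600328) (l 16562536)) (l 16455016))) (a (a (l 16220536) (l 15933040)) (a (l 15732960) (l 15784752)))), by decide +kernel⟩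

def k1_pp_123 : ∃ t, chk3 f_pp_123 t 2 9 1 = true :=
  ⟨(a (a (a (b (b (l 6) (b (l 6) (b (l 6) (a (b (l 6) (a (l 3) (a (a (a (a (l 3) (c (l 16770680) (l 196662512807))) (c (l 16775864) (l 16772832))) (a (l 16774584) (l 16772720))) (l 16763720)))) (a (l 16721560) (l 16716736)))))) (a (a (l 3) (a (b (b (a (a (a (l 3) (b (c (l 255718321319) (a (l 3) (l 231559121911))) (l 3))) (a (c (b (l 16775864) (l 164450265655)) (b (l 16767144) (a (l 275582536535) (l 16766880)))) (c (l 16765400) (l 16767136)))) (c (a (l 16775896) (l 16775008)) (a (l 16762192) (l 16772096)))) (a (a (l 3) (a (b (c (l 323364057415) (l 324974665015)) (l 3)) (c (a (l 229411643223) (l 175187679607)) (b (l 179482640087) (l 271824439431))))) (c (a (b (l 16776024) (l 16765704)) (l 16776000)) (a (b (l 16772120) (l 160692155879)) (l 16751272))))) (a (l 3) (c (b (a (b (l 182167001895) (l 254107705095)) (l 16755408)) (a (l 317458463223) (b (l 16776856) (l 177872035303)))) (b (a (a (b (l 236390956151) (l 325511535223)) (b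 (l 16771608) (l 183240734359))) (l 16761224)) (a (b (l 327122127495) (l 3)) (c (l 184314480839) (b (l 16770128) (l 180556379351)))))))) (b (a (b (l 16769072) (c (l 16773160) (l 16759240))) (l 16752736)) (a (a (b (b (l 16774064) (l 16774112)) (b (l 16753240) (l 16774384))) (b (l 16772704) (l 16753160))) (b (l 16767808) (c (l 16772992) (l 16768528))))))) (a (b (a (l 16731680) (l 16739032)) (a (c (l 16760488) (l 16756888)) (l 16745008))) (b (l 16719848) (l 16725800))))) (a (b (a (l 16689792) (l 16669936)) (a (l 16699288) (l 16679256))) (b (l 16646080) (l 16655968)))) (a (a (b (l 16625128) (l 16634456)) (l 16596368)) (a (l 16613584) (l 16615664)))) (a (a (a (l 16618672) (l 16613112)) (l 16590616)) (a (l 16535816) (l 16450368)))), by decide +kernel⟩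

def k2_pp_123 : ∃ t, chk3 f_pp_123 t 3 9 1 = true :=
  ⟨(a (a (a (l 16342616) (l 16218264)) (l 16018776)) (a (a (l 15794176) (l 15700144)) (l 15731704))), by decide +kernel⟩

def k3_pp_123 : ∃ t, chk3 f_pp_123 t 32 10 1 = true :=
  ⟨(a (l 3) (b (b (b (a (a (l 3) (a (l 3) (a (b (l 342691393239) (l 3)) (c (l 235854093943) (a (l 265918852935) (l 171429571559)))))) (a (c (l 152102227335) (a (l 155860314583) (l 16771856))) (c (l 16775816) (l 16770680)))) (a (l 3) (a (a (c (l 241759672759) (a (l 275045657767) (l 178945763671))) (b (l 16775360) (l 16765424))) (c (l 16778152) (l 16772280))))) (a (l 3) (a (a (b (c (l 357186938759) (l 381882985943)) (l 3)) (b (c (l 184851358487) (b (l 16773008) (l 249275856119))) (c (l 374366794183) (c (l 322827190263) (l 327659021559))))) (b (c (l 16780104) (l 16752432)) (c (l 16782496) (a (l 16764448) (l 16775008))))))) (a (l 3) (b (a (l 3) (b (c (a (l 352891961031) (l 16785384)) (a (c (l 353428838231) (l 363092494391)) (l 16777288))) (c (a (l 435570108951)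 (l 331417130599)) (a (l 468856066599) (c (l 336785834983) (l 341080791687)))))) (a (l 3) (a (l 3) (b (c (l 455434319959) (b (c (l 359334430711) (l 365240001143)) (l 516637588039))) (l 3)))))))), by decide +kernel⟩

def k4_pp_123 : ∃ t, chk3 f_pp_123 t 33 10 1 = true :=
  ⟨(b (a (a (b (a (b (l 16767488) (l 16771288)) (l 16762376)) (a (b (l 16774840) (l 16778144)) (l 16750288))) (b (l 16752264) (l 16761432))) (c (l 16697280) (l 16715304))) (a (b (a (a (b (l 16781240) (c (l 16788960) (l 16780704))) (b (l 16778984) (l 16784184))) (l 16747176)) (a (a (b (c (a (l 309405431751) (l 16793880)) (a (c (l 315311005879) (b (l 16781336) (l 321216582103))) (l 16785120))) (b (c (a (l 331417151015) (l 16798440)) (a (c (l 336785853703) (a (l 526301284535) (l 16786368))) (l 16789176))) (a (a (l 3) (c (l 334101512231) (c (l 339470214087) (b (l 332490882327) (c (l 350744485687) (a (l 578914639143) (l 331954017927))))))) (c (l 16801888) (b (l 16791480) (c (l 16795616) (l 16790608))))))) (b (l 16768568)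 (c (l 16800088) (a (l 16791088) (l 16791360))))) (b (l 16763640) (a (b (l 16793328) (l 16797336)) (l 16791160))))) (b (l 16735224) (a (l 16757304) (l 16767904))))), by decide +kernel⟩

def k5_pp_123 : ∃ t, chk3 f_pp_123 t 17 10 1 = true :=
  ⟨(a (a (b (l 16673992) (b (l 16735952) (l 16754136))) (b (l 16697168) (l 16727728))) (b (l 16674832) (l 16686160))), by decide +kernel⟩

def k6_pp_123 : ∃ t, chk3 f_pp_123 t 9 10 1 = true :=
  ⟨(a (b (l 16606264) (c (l 16670168) (l 16692328))) (b (l 16638576) (l 16661760))), by decide +kernel⟩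

def k7_pp_123 : ∃ t, chk3 f_pp_123 t 5 10 1 = true :=
  ⟨(a (a (a (l 16657824) (a (l 16655816) (l 16650168))) (b (l 16630456) (l 16605248))) (a (l 16596192) (l 16518040))), by decide +kernel⟩

def k8_pp_123 : ∃ t, chk3 f_pp_123 t 32 22 1 = true :=
  ⟨(l 3), by decide +kernel⟩

def k9_pp_123 : ∃ t, chk3 f_pp_123 t 33 44 1 = true :=
  ⟨(a (a (a (a (a (l 3) (a (l 3) (b (b (c (l 364166272135) (c (l 402820985191) (b (c (l 396378530807) (c (l 392083559431) (l 387251718471))) (l 3)))) (l 3)) (l 3)))) (b (c (c (b (l 16801936) (l 326585300183)) (b (l 16786400) (l 330343384343))) (b (c (b (l 16794056) (l 314237266823)) (a (c (b (l 16789992) (l 330343388983)) (b (l 273971948119) (a (c (l 348597004935) (l 350207612119)) (l 16781968)))) (l 16786320))) (c (a (c (l 391546679095) (l 382956738343)) (l 256792057447)) (a (c (b (l 351281353463) (l 395841628599)) (b (a (l 399062858599) (b (l 283098737399) (l 340543919431))) (a (l 3) (c (l 384030463239) (l 378124879895))))) (c (l 261087018455) (b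 (l 16776648) (a (l 273435043399) (l 16770976)))))))) (a (l 3) (b (b (c (l 322290310983) (c (l 328195878359) (c (l 331417097127) (a (b (l 341617643431) (l 363092470839)) (l 16765040))))) (c (l 344838878679) (c (l 348596975959) (c (l 352355060263) (a (l 386714792759) (b (l 277193122103) (l 342691372551))))))) (b (c (l 424832656407) (c (l 396915347063) (c (l 383493562887) (a (l 3) (c (l 370071783911) (l 370071780663)))))) (l 3)))))) (b (b (c (l 16799504) (l 16768640)) (c (l 16790520) (c (l 16782008) (l 16755120)))) (c (a (b (l 16759928) (c (l 16774312) (l 260013251703))) (l 16754944)) (a (b (c (l 16771040) (b (l 16767160) (l 16753304))) (c (a (b (l 16762408) (l 329269584567)) (l 16759672)) (a (c (b (l 16751520) (a (l 355039391751) (l 16750600))) (b (b (l 16754504) (l 265381942983)) (a (b (l 343765089879) (l 365239927735)) (l 16746544)))) (l 16752000)))) (c (l 16765728) (l 16737672)))))) (a (b (b (l 16794800) (l 16785112)) (c (l 16775832) (l 16762672))) (b (l 16787744) (l 16747584))))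 (a (l 16729416) (l 16761424))), by decide +kernel⟩

def k10_pp_123 : ∃ t, chk3 f_pp_123 t 66 90 1 = true :=
  ⟨(a (a (l 3) (c (a (b (c (l 327122108391) (a (l 390472882967) (l 16755848))) (c (l 345375720935) (a (l 3) (l 337322630215)))) (c (l 16737464) (b (l 16755968) (l 16744080)))) (a (a (b (b (c (l 350207543239) (a (c (l 384567279655) (l 387788496551)) (c (l 278266827191) (b (l 270750632391) (l 344838811655))))) (c (l 384567280103) (c (l 375440461351) (b (l 376514197415) (l 388862221815))))) (l 3)) (b (b (c (l 16750640) (l 16742288)) (c (l 16733920) (c (l 16732584) (a (l 259476322327) (l 16733432))))) (c (c (l 339470108631) (b (l 331417029575) (l 352354994519))) (c (b (l 333564503943) (l 355039339351)) (b (a (c (l 353965603959) (l 355576211927)) (l 16726432)) (a (l 389935938887) (l 272898066887))))))) (b (c (l 16747808) (l 16739392)) (c (l 16714040) (b (l 16729152) (l 16722096))))))) (a (c (l 16733312) (a (l 16716496) (l 16737744))) (b (l 16752072) (l 16739880)))), by decide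 +kernel⟩

def k11_pp_123 : ∃ t, chk3 f_pp_123 t 66 91 1 = true :=
  ⟨(a (a (l 3) (a (a (l 3) (a (l 3) (a (l 3) (b (b (c (b (c (l 16724840) (l 345912543367)) (l 392083441703)) (b (c (c (l 349133760151) (l 351818104135)) (b (l 346449378119) (c (l 367387351591) (l 369534824295)))) (c (l 400136486535) (l 410337024647)))) (l 3)) (l 3))))) (b (c (b (b (c (l 16724776) (l 16715432)) (c (l 16744496) (l 16714072))) (c (l 306720983719) (a (l 326048316471) (l 16733968)))) (c (b (b (b (l 16727504) (l 16715512)) (l 304036592023)) (a (c (l 329269532727) (l 331953876567)) (l 16724168))) (b (b (b (l 16717600) (b (l 16716232) (l 16715728))) (c (l 307257808343) (l 309942152023))) (a (c (a (l 367924217447) (l 16695432)) (a (c (l 375440389319) (l 374903534151)) (l 16711232))) (l 16714056))))) (b (c (c (l 318532140519) (a (l 347523150231) (l 16732472))) (c (a (c (l 349670610743) (l 352354965639)) (l 16722552)) (a (a (l 3) (c (l 336785701399) (c (l 338396309095) (l 339470045639)))) (c (l 16714904) (l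 16709712))))) (c (c (l 328732676727) (a (l 400673359703) (l 303499731815))) (b (c (a (l 397988985623) (l 16700352)) (a (c (l 395841507431) (l 394230884151)) (c (l 16713608) (l 16708368)))) (a (l 3) (c (l 309942162519) (c (l 313163378039) (l 316384571031)))))))))) (c (b (a (b (l 16740496) (l 16738784)) (l 16739440)) (a (c (l 16720344) (l 16710896)) (l 16736456))) (b (a (b (a (l 16700496) (l 16721784)) (l 16698680)) (l 16721136)) (a (a (c (l 16721976) (b (l 16712728) (l 16710976))) (l 16717312)) (l 16717672))))), by decide +kernel⟩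

def k12_pp_123 : ∃ t, chk3 f_pp_123 t 67 45 1 = true :=
  ⟨(b (a (l 16720080) (l 16731328)) (a (c (b (l 16735520) (l 16733400)) (b (l 16718096) (l 16715528))) (c (l 16724752) (l 16708384)))), by decide +kernel⟩

def k13_pp_123 : ∃ t, chk3 f_pp_123 t 17 22 1 = true :=
  ⟨(b (a (a (l 16747784) (l 16731640)) (l 16711960)) (a (b (l 16688744) (a (l 16703368) (l 16687736))) (c (l 16677544) (l 16609088)))), by decide +kernel⟩

def k14_pp_123 : ∃ t, chk3 f_pp_123 t 32 23 1 = true :=
  ⟨(l 3), by decide +kernel⟩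

def k15_pp_123 : ∃ t, chk3 f_pp_123 t 33 92 1 = true :=
  ⟨(a (a (a (l 3) (a (l 3) (a (l 3) (a (b (b (c (c (l 365239904807) (l 363629271047)) (c (b (l 342691286839) (l 389935937735)) (b (c (l 345912502247) (l 349670546903)) (c (l 387251567463) (l 386177814983))))) (l 3)) (l 3)) (b (c (b (c (l 16739232) (l 16708432)) (c (l 323900840855) (l 328732658535))) (b (c (c (l 16721832) (l 16695720)) (c (l 16711464) (l 300278419911))) (c (b (l 321216447031) (l 343228152823)) (b (c (l 324437662327) (l 328195704327)) (c (l 346449368055) (l 350207410071)))))) (b (b (c (c (l 380809157447) (l 378124781559)) (c (l 388862190935) (c (l 386177820487) (l 372219112823)))) (l 3)) (l 3))))))) (c (a (a (b (b (c (l 16739232) (l 16729520)) (c (l 16737760) (l 16706968))) (c (b (l 16731024) (l 304036610359)) (b (a (l 302962850903) (l 16726360)) (c (l 307794697303) (l 309942170423))))) (b (l 16733672) (c (l 16735456) (l 16725640)))) (b (l 16733560) (l 16730536))) (a (a (b (b (c (l 16719512) (l 16709192))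 (a (c (l 16707224) (c (l 16709872) (l 16688176))) (l 16691768))) (c (a (b (c (l 306184066887) (l 308868410839)) (c (l 328195770967) (a (l 373292924887) (l 16711600)))) (c (l 16717864) (l 16712656))) (a (b (b (c (l 16708512) (l 16673384)) (c (l 313700216391) (l 316384541687))) (c (a (c (l 371682304103) (l 364166090183)) (l 298667806855)) (a (c (l 358260447639) (l 360944739991)) (l 295446562087)))) (c (l 16707376) (l 16655016))))) (b (l 16692928) (c (l 16715520) (l 16680112)))) (b (l 16714328) (l 16710840))))) (a (c (a (l 16731504) (l 16728672)) (a (l 16712704) (l 16710424))) (l 16712704))), by decide +kernel⟩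

def k16_pp_123 : ∃ t, chk3 f_pp_123 t 33 93 1 = true :=
  ⟨(a (a (l 3) (a (a (a (a (l 3) (b (c (b (c (l 324437701895) (b (l 317458361735) (l 339470067559))) (c (l 380272274183) (l 392620286887))) (b (c (c (l 332490734743) (c (l 334101342295) (l 335175078919))) (b (c (l 327121962215) (l 329806280375)) (c (l 349133667767) (l 352354840135)))) (c (c (l 389935926967) (l 387788432567)) (c (l 373292844391) (l 379198324983))))) (l 3))) (b (b (c (c (l 16733152) (l 16702056)) (c (c (l 16715232) (l 16709936)) (c (l 16687664) (l 16626920)))) (c (c (l 298131023895) (c (l 16718664) (l 303499712583))) (c (c (l 305647185351) (b (l 16708544) (l 311015858919))) (b (c (l 16673184) (l 16613176)) (c (l 313700187175) (l 318531931879)))))) (c (b (c (l 319605857239) (c (l 322827072503) (l 324974545655))) (c (l 339470070023) (c (l 343228150807) (l 345912515751)))) (b (b (c (c (l 320142698615) (l 323900740967)) (c (l 326585086951) (l 331416815271))) (c (c (l 332490734727) (l 335175075095)) (c (l 340543686855)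 (l 345912257879)))) (a (l 3) (c (c (l 333027594631) (c (l 336248769959) (l 337322506423))) (c (c (l 340006807767) (l 342691104647)) (l 345375402407)))))))) (b (c (c (l 16711368) (l 16722296)) (b (c (l 16712872) (l 16651848)) (c (l 16711048) (l 16633432)))) (b (c (c (l 16729912) (l 16719704)) (c (l 16709184) (l 16636352))) (c (c (l 16707272) (a (l 16717864) (l 16717960))) (c (b (l 16707760) (l 16685832)) (c (l 16626280) (l 16569264))))))) (b (c (l 16727360) (l 16690472)) (c (l 16703064) (b (l 16662968) (l 16645040)))))) (a (c (a (l 16725424) (l 16724024)) (a (l 16657944) (l 16644240))) (l 16687488))), by decide +kernel⟩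

def k17_pp_123 : ∃ t, chk3 f_pp_123 t 132 47 1 = true :=
  ⟨(l 3), by decide +kernel⟩

def k18_pp_123 : ∃ t, chk3 f_pp_123 t 133 94 1 = true :=
  ⟨(b (a (b (c (b (a (c (l 396915276999) (l 392620288663)) (c (l 16705992) (l 288467317815))) (a (l 3) (c (l 290614820903) (a (l 304573443575) (l 16715680))))) (a (a (l 3) (b (b (c (l 388862149367) (l 381345789799)) (l 3)) (l 3))) (c (b (c (l 16708544) (l 16680312)) (c (l 299204692887) (l 301889028791))) (c (b (l 16612912) (l 306720771127)) (l 217600088103))))) (a (l 3) (c (c (b (l 297057270135) (l 303499719367)) (a (c (l 322290190631) (a (l 371145441127) (l 16711504))) (l 16714280))) (c (a (c (a (l 369534796503) (l 295983451639)) (a (l 356112952199) (l 289004104151))) (l 16673208)) (a (c (a (l 361481528007) (l 16591744)) (l 341080364071)) (l 16562192)))))) (c (b (l 16721456) (l 16719672)) (c (l 16673704) (l 16564400)))) (a (a (l 3) (a (b (a (l 3) (c (c (l 326048293671) (b (l 320679565367) (l 342154400071))) (c (c (l 335175024583) (l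 338933084231)) (c (l 343764791463) (l 348596521319))))) (b (c (c (l 393157169271) (l 388325309543)) (c (l 373829725143) (l 384029991847))) (l 3))) (c (c (b (l 16702024) (c (l 16719896) (l 298131002775))) (b (c (l 16715056) (l 16709672)) (b (l 292762254519) (c (l 303499701511) (l 306720877079))))) (b (c (c (l 16682560) (l 16627376)) (l 16587616)) (c (a (c (l 315310799351) (l 273971643575)) (l 16657184)) (c (l 220821316215) (l 16503016))))))) (c (a (c (l 16722104) (a (l 16690536) (l 16711600))) (l 16716928)) (a (c (b (l 16650112) (l 16632496)) (l 16534384)) (l 16582480))))), by decide +kernel⟩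

def k19_pp_123 : ∃ t, chk3 f_pp_123 t 133 95 1 = true :=
  ⟨(a (a (l 3) (a (l 3) (b (b (c (c (c (l 317458362983) (l 319605835623)) (c (a (l 370608569703) (l 295446633591)) (a (l 363629227495) (l 294909709911)))) (c (c (a (l 354502313831) (l 285246001831)) (a (l 359870915895) (l 16592120))) (c (l 338396012791) (l 16487720)))) (a (l 3) (c (c (b (l 317995221031) (l 358260537639)) (b (l 323900740263) (l 360944855479))) (c (c (l 337859315207) (l 342691049223)) (l 348059656231))))) (b (b (c (c (l 388862190647) (l 373829761975)) (c (l 376513927831) (l 385640507047))) (l 3)) (l 3))))) (c (b (a (b (c (l 16719344) (l 16708624)) (a (c (l 16706936) (c (l 16709296) (l 16678320))) (l 16691120))) (l 16692160)) (a (c (b (c (l 286319841687) (l 288467314551)) (a (c (l 317458350823) (l 319068961143)) (l 16713512))) (c (a (b (l 298667808919) (a (l 357723635639) (l 294372838871))) (l 16700008)) (a (b (l 304036510791) (a (l 353428565223) (l 279340412247))) (l 16648584)))) (c (l 16714528) (l 16669560))))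 (c (b (a (b (l 16615232) (b (l 16602528) (l 16646584))) (l 16601488)) (a (c (a (b (l 257865512119) (l 331953646343)) (l 16597688)) (b (l 207936414327) (l 316384306727))) (l 16569112))) (b (b (l 16509192) (l 16536080)) (a (b (l 170892222551) (l 321216047575)) (l 16470792)))))), by decide +kernel⟩

def k20_pp_123 : ∃ t, chk3 f_pp_123 t 67 47 1 = true :=
  ⟨(c (a (b (a (l 16708128) (l 16718096)) (b (l 16713048) (l 16703536))) (b (l 16713000) (l 16692424))) (a (b (b (l 16601896) (l 16570456)) (a (c (l 16577984) (l 16480696)) (l 16521824))) (b (l 16564040) (l 16509664)))), by decide +kernel⟩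

def k21_pp_123 : ∃ t, chk3 f_pp_123 t 17 23 1 = true :=
  ⟨(b (a (c (a (l 16705200) (l 16688424)) (a (l 16611400) (l 16569256))) (l 16614504)) (b (a (a (l 16619848) (l 16577752)) (l 16533168)) (a (c (l 16627032) (l 16471336)) (l 16495216)))), by decide +kernel⟩

def k22_pp_123 : ∃ t, chk3 f_pp_123 t 9 11 1 = true :=
  ⟨(b (b (a (l 16664136) (l 16591800)) (a (a (l 16615864) (l 16576280)) (l 16548344))) (a (b (a (l 16545536) (l 16519160)) (a (l 16481496) (l 16466088))) (b (l 16504336) (l 16462376)))), by decide +kernel⟩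

def k23_pp_123 : ∃ t, chk3 f_pp_123 t 5 11 1 = true :=
  ⟨(b (a (a (b (a (l 16573112) (l 16570904)) (a (l 16542424) (a (l 16544808) (l 16548144)))) (b (l 16568560) (l 16554632))) (b (l 16531400) (l 16529944))) (a (a (a (l 16489464) (b (l 16515920) (l 16484888))) (b (l 16531584) (l 16507400))) (a (l 16421320) (l 16502816)))), by decide +kernel⟩

def k24_pp_123 : ∃ t, chk3 f_pp_123 t 3 5 1 = true :=
  ⟨(b (a (a (a (l 16419472) (l 16311112)) (a (l 16190576) (l 16060968))) (a (a (l 15920744) (l 15773296)) (a (l 15647264) (l 15645904)))) (a (b (a (b (l 16400952) (l 16407128)) (b (l 16192208) (l 16205760))) (a (a (l 16453072) (l 16381280)) (l 16173816))) (b (a (b (l 15926240) (l 15947880)) (a (l 15715088) (l 1))) (a (l 15992944) (l 1))))), by decide +kernel⟩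

def k25_pp_123 : ∃ t, chk3 f_pp_123 t 32 12 1 = true :=
  ⟨(l 3), by decide +kernel⟩

def k26_pp_123 : ∃ t, chk3 f_pp_123 t 66 12 1 = true :=
  ⟨(b (a (l 3) (a (l 3) (a (b (b (a (b (b (c (c (c (l 366313608583) (l 363092372087)) (c (l 344838696135) (l 349670433143))) (c (b (l 353965279415) (l 366313273799)) (l 363091948519))) (l 3)) (l 3)) (c (b (b (c (c (l 16714208) (l 16708728)) (c (l 16673144) (l 16622960))) (c (c (l 295983506103) (l 299741550919)) (c (l 301889018359) (l 306720757847)))) (b (c (c (l 316921476151) (l 320679517143)) (c (a (l 352891685687) (l 273434822119)) (l 329806137911))) (c (c (l 360408016007) (l 342691200103)) (c (l 347522941831) (l 352354684551))))) (b (c (c (b (l 16573304) (l 311015627783)) (l 168744740919)) (l 133848037879)) (c (b (l 334101046679) (l 358260123255)) (l 349670090135))))) (l 3)) (l 3)) (b (b (c (b (b (c (l 16711528) (l 16643768)) (c (l 16709456) (l 16626976))) (b (c (l 16707336) (l 16610536)) (b (c (l 16694144) (l 16598432)) (c (l 274508620135)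 (l 239611919447))))) (c (b (l 16538064) (b (l 16515664) (l 16501112))) (b (l 16442912) (l 16416256)))) (b (c (c (a (b (c (l 297594067319) (l 300278392599)) (c (l 319068900167) (l 323363773895))) (c (l 16685944) (l 16639152))) (b (c (l 292762126407) (l 297056980199)) (a (c (l 328195519511) (l 331416688119)) (l 16562272)))) (c (b (l 301888727959) (l 314236730567)) (l 16390888))) (c (a (b (c (c (l 341080573607) (l 345912319815)) (l 352354697463)) (l 3)) (b (c (c (l 16660472) (l 16614816)) (l 16568216)) (c (c (l 298667765287) (l 302962642951)) (l 307794393799)))) (c (a (l 360944445175) (l 16473168)) (l 338395695415))))) (a (l 3) (b (b (c (c (c (b (l 321753149607) (l 344301696391)) (b (l 326048028615) (l 348059705975))) (c (l 336248493863) (l 340006505223))) (c (l 344301390983) (l 16343688))) (l 3)) (l 3))))))) (l 3)), by decide +kernel⟩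

def k27_pp_123 : ∃ t, chk3 f_pp_123 t 67 12 2 = true :=
  ⟨(b (b (a (b (a (b (l 16675520) (b (l 16650408) (l 16634064))) (l 16647560)) (b (a (c (l 16655736) (l 16564992)) (l 16601152)) (a (a (c (b (l 16633904) (l 16617952)) (l 16537344)) (l 16577408)) (l 16571648)))) (b (l 16631016) (a (l 16578160) (l 16569856)))) (a (a (b (a (b (b (c (l 16602344) (l 16516008)) (c (b (l 16590856) (l 218673930391)) (l 16502160))) (c (b (b (l 282024682407) (l 289003989175)) (a (l 324974310103) (l 16556632))) (b (l 16530584) (l 307794275959)))) (b (c (l 16590616) (l 16506328)) (c (l 16561288) (l 16479768)))) (a (c (c (b (b (l 312626216039) (l 325511089431)) (l 340006562519)) (b (l 321752926327) (l 343764580791))) (b (l 325510985975) (l 347522621911))) (b (c (l 16533200) (l 16454384)) (c (a (l 117205146695) (l 16505704)) (l 16430136))))) (b (b (l 16543344) (l 16516216)) (b (l 16490232) (l 16465352)))) (b (a (l 16523752) (l 16518048)) (l 16471784)))) (b (a (a (a (l 3) (b (b (c (a (l 318531686535)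 (l 16480048)) (l 16407048)) (b (l 318531663655) (l 331416540327))) (b (l 345375139431) (l 3)))) (b (b (l 16483464) (l 16481664)) (c (b (l 16430744) (l 16408896)) (l 16353784)))) (b (l 16468528) (a (l 16385664) (l 16384824)))) (a (a (l 3) (b (l 305646564711) (l 326047639799))) (c (l 16360800) (l 16303720))))), by decide +kernel⟩

def k28_pp_123 : ∃ t, chk3 f_pp_123 t 67 12 3 = true :=
  ⟨(b (b (a (b (a (b (l 16485976) (a (l 16480744) (l 16457560))) (l 16467192)) (a (c (b (l 16476192) (l 16449800)) (l 16377352)) (l 16417016))) (b (l 16459216) (l 16412576))) (a (c (b (a (b (l 16424576) (l 16400560)) (l 16410096)) (b (a (l 308330941575) (l 16376608)) (l 299204094887))) (b (b (l 16343296) (l 16322360)) (a (l 319068227351) (l 16293536)))) (b (l 16369616) (l 16330224)))) (b (b (a (a (c (l 335174411767) (l 338395531367)) (l 16375616)) (l 16294360)) (a (b (l 316920762167) (l 322826303527)) (l 16262056))) (a (b (l 328731846535) (l 336247972615)) (l 16220408)))), by decide +kernel⟩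

def k29_pp_123 : ∃ t, chk3 f_pp_123 t 17 12 1 = true :=
  ⟨(b (c (a (b (b (l 16576680) (l 16529664)) (a (b (l 16499728) (l 16456600)) (l 16454248))) (b (l 16498536) (l 16429584))) (a (b (b (l 16429704) (l 16391176)) (a (b (l 16361472) (l 16326936)) (l 16335480))) (b (l 16387576) (l 16331112)))) (a (b (c (a (b (l 16416752) (a (l 16383064) (l 16377568))) (l 16384096)) (a (b (l 16295472) (l 16267040)) (l 16280000))) (a (a (a (l 16341912) (l 16280968)) (l 16281656)) (l 16280536))) (b (c (l 16369880) (l 16283672)) (l 16282024)))), by decide +kernel⟩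

def k30_pp_123 : ∃ t, chk3 f_pp_123 t 9 12 1 = true :=
  ⟨(b (a (b (a (l 16423456) (l 16417400)) (a (l 16371896) (l 16373936))) (b (l 16423552) (l 16388592))) (a (b (a (l 16327600) (l 16336400)) (a (l 16290576) (l 16304280))) (b (l 16358000) (l 16331800)))), by decide +kernel⟩

def k31_pp_123 : ∃ t, chk3 f_pp_123 t 5 12 1 = true :=
  ⟨(a (b (a (a (l 16425056) (c (l 16519984) (l 16472296))) (l 16472600)) (a (a (l 16500688) (a (l 16391016) (l 16402568))) (l 16435216))) (a (b (l 16507232) (l 16488360)) (b (l 16508232) (l 16518600)))), by decide +kernel⟩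

def k32_pp_123 : ∃ t, chk3 f_pp_123 t 2 13 1 = true :=
  ⟨(a (a (a (a (l 3) (a (l 3) (a (b (b (b (l 3) (l 3)) (l 3)) (l 3)) (b (b (c (c (l 16298976) (l 16248888)) (l 16175272)) (c (l 297593335063) (l 16140600))) (b (c (l 316383729943) (l 16115856)) (l 3)))))) (b (a (a (a (b (c (l 16278256) (l 16184840)) (c (l 16233960) (l 16151320))) (b (l 16236832) (l 16200736))) (b (l 16240024) (l 16208392))) (b (l 16246440) (l 16218688))) (a (a (b (b (l 16174872) (l 16163168)) (a (l 16144416) (l 16155272))) (b (l 16184832) (l 16169320))) (b (l 16199000) (l 16187016))))) (a (b (a (b (l 16259920) (l 16236256)) (l 16266560)) (a (b (l 16219640) (l 16209824)) (l 16238320))) (b (a (l 16288608) (l 16312944)) (a (l 16264592) (l 16292184))))) (a (a (a (b (l 16338960) (l 16320448)) (b (a (l 16358992) (l 16372320)) (a (l 16342136) (l 16356072)))) (b (l 16408496) (l 16393872))) (b (a (l 16465864) (l 16514392)) (a (l 16451416) (l 16502072))))), by decide +kernel⟩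

def k33_pp_123 : ∃ t, chk3 f_pp_123 t 3 6 1 = true :=
  ⟨(b (a (b (a (l 16447128) (l 16056320)) (a (c (l 16437848) (l 16524976)) (a (l 16380632) (l 16290536)))) (a (b (l 15952784) (l 1)) (l 1))) (a (a (b (a (l 16527520) (l 16490592)) (a (l 16531544) (l 16513200))) (b (l 16211632) (l 1))) (l 1))), by decide +kernel⟩

def k34_pp_123 : ∃ t, chk3 f_pp_123 t 1 7 1 = true :=
  ⟨(a (a (a (a (b (l 3) (l 3)) (b (a (b (b (a (a (l 16134192) (l 16145240)) (l 16160952)) (a (l 305109421111) (l 16158800))) (b (a (l 295445746567) (l 16161888)) (l 288466493703))) (b (b (l 16182176) (l 16182624)) (b (l 16292400) (l 16219192)))) (b (a (b (l 265381058839) (l 184850448423)) (b (l 16214152) (l 16256728))) (a (a (l 3) (b (l 16233056) (l 1))) (b (a (l 16254176) (l 16273272)) (l 1)))))) (b (b (a (a (b (l 16205952) (l 16207376)) (l 16316432)) (a (l 16260312) (l 16289016))) (a (a (l 16387056) (l 16246264)) (b (l 16283240) (l 16294840)))) (a (b (b (l 16088368) (a (l 16265648) (l 16292456))) (a (b (l 16275000)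 (l 1)) (l 1))) (b (b (l 16311416) (l 16334168)) (l 1))))) (b (a (b (a (a (l 16318072) (a (l 16339744) (l 16353608))) (l 16391216)) (a (a (l 16289664) (a (l 16352824) (l 16366152))) (l 16402328))) (b (a (l 16447256) (l 16491688)) (l 1))) (a (b (a (a (l 16364296) (l 1)) (l 1)) (l 1)) (l 1)))) (l 1)), by decide +kernel⟩

theorem s35_pp_123 : ∃ t, chk3 f_pp_123 t 67 12 1 = true := ex3_c k27_pp_123 k28_pp_123

theorem s36_pp_123 : ∃ t, chk3 f_pp_123 t 33 12 1 = true := ex3_a k26_pp_123 s35_pp_123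

theorem s37_pp_123 : ∃ t, chk3 f_pp_123 t 16 12 1 = true := ex3_a k25_pp_123 s36_pp_123

theorem s38_pp_123 : ∃ t, chk3 f_pp_123 t 8 12 1 = true := ex3_a s37_pp_123 k29_pp_123

theorem s39_pp_123 : ∃ t, chk3 f_pp_123 t 4 12 1 = true := ex3_a s38_pp_123 k30_pp_123

theorem s40_pp_123 : ∃ t, chk3 f_pp_123 t 2 12 1 = true := ex3_a s39_pp_123 k31_pp_123

theorem s41_pp_123 : ∃ t, chk3 f_pp_123 t 2 6 1 = true := ex3_b s40_pp_123 k32_pp_123

theorem s42_pp_123 : ∃ t, chk3 f_pp_123 t 1 6 1 = true := ex3_a s41_pp_123 k33_pp_123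

theorem s43_pp_123 : ∃ t, chk3 f_pp_123 t 1 3 1 = true := ex3_b s42_pp_123 k34_pp_123

theorem s44_pp_123 : ∃ t, chk3 f_pp_123 t 133 47 1 = true := ex3_b k18_pp_123 k19_pp_123

theorem s45_pp_123 : ∃ t, chk3 f_pp_123 t 66 47 1 = true := ex3_a k17_pp_123 s44_pp_123

theorem s46_pp_123 : ∃ t, chk3 f_pp_123 t 33 47 1 = true := ex3_a s45_pp_123 k20_pp_123

theorem s47_pp_123 : ∃ t, chk3 f_pp_123 t 33 46 1 = true := ex3_b k15_pp_123 k16_pp_123

theorem s48_pp_123 : ∃ t, chk3 f_pp_123 t 33 23 1 = true := ex3_b s47_pp_123 s46_pp_123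

theorem s49_pp_123 : ∃ t, chk3 f_pp_123 t 16 23 1 = true := ex3_a k14_pp_123 s48_pp_123

theorem s50_pp_123 : ∃ t, chk3 f_pp_123 t 8 23 1 = true := ex3_a s49_pp_123 k21_pp_123

theorem s51_pp_123 : ∃ t, chk3 f_pp_123 t 66 45 1 = true := ex3_b k10_pp_123 k11_pp_123

theorem s52_pp_123 : ∃ t, chk3 f_pp_123 t 33 45 1 = true := ex3_a s51_pp_123 k12_pp_123

theorem s53_pp_123 : ∃ t, chk3 f_pp_123 t 33 22 1 = true := ex3_b k9_pp_123 s52_pp_123

theorem s54_pp_123 : ∃ t, chk3 f_pp_123 t 16 22 1 = true := ex3_a k8_pp_123 s53_pp_123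

theorem s55_pp_123 : ∃ t, chk3 f_pp_123 t 8 22 1 = true := ex3_a s54_pp_123 k13_pp_123

theorem s56_pp_123 : ∃ t, chk3 f_pp_123 t 8 11 1 = true := ex3_b s55_pp_123 s50_pp_123

theorem s57_pp_123 : ∃ t, chk3 f_pp_123 t 4 11 1 = true := ex3_a s56_pp_123 k22_pp_123

theorem s58_pp_123 : ∃ t, chk3 f_pp_123 t 2 11 1 = true := ex3_a s57_pp_123 k23_pp_123

theorem s59_pp_123 : ∃ t, chk3 f_pp_123 t 16 10 1 = true := ex3_a k3_pp_123 k4_pp_123

theorem s60_pp_123 : ∃ t, chk3 f_pp_123 t 8 10 1 = true := ex3_a s59_pp_123 k5_pp_123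

theorem s61_pp_123 : ∃ t, chk3 f_pp_123 t 4 10 1 = true := ex3_a s60_pp_123 k6_pp_123

theorem s62_pp_123 : ∃ t, chk3 f_pp_123 t 2 10 1 = true := ex3_a s61_pp_123 k7_pp_123

theorem s63_pp_123 : ∃ t, chk3 f_pp_123 t 2 5 1 = true := ex3_b s62_pp_123 s58_pp_123

theorem s64_pp_123 : ∃ t, chk3 f_pp_123 t 1 5 1 = true := ex3_a s63_pp_123 k24_pp_123

theorem s65_pp_123 : ∃ t, chk3 f_pp_123 t 1 9 1 = true := ex3_a k1_pp_123 k2_pp_123

theorem s66_pp_123 : ∃ t, chk3 f_pp_123 t 1 4 1 = true := ex3_b k0_pp_123 s65_pp_123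

theorem s67_pp_123 : ∃ t, chk3 f_pp_123 t 1 2 1 = true := ex3_b s66_pp_123 s64_pp_123

theorem s68_pp_123 : ∃ t, chk3 f_pp_123 t 1 1 1 = true := ex3_b s67_pp_123 s43_pp_123

theorem c_pp_123 : CertB 536870912 536870912 0 1230186008 923417968 42949674 3 eng mog cd0q1 cd2q3 pd2 false true true .npn 1 2 3
    ndB0q1 ndB2q3 pcB2 cut_pp_123 Ext.none :=
  certB2 (fam := false) (s1 := true) (s2 := true) (a := 1) (b := 2) (c := 3) (cn := .npn) (n1 := ndB0q1) (n2 := ndB2q3) (pc := pcB2) (cut := cut_pp_123) (xt := Ext.none) (P1 := 536870912) (W1 := 536870912) (P2 := 0) (W2 := 1230186008) (P3 := 923417968) (W3 := 42949674) (N0 := 3) (En := eng) (mo := mog) (C1 := cd0q1) (C2 := cd2q3) (C3 := pd2)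
    rfl (fun _ => rfl) s68_pp_123

noncomputable def f_pp_133 : ℕ → ℕ → ℕ → ℕ → Bool := onCell 536870912 536870912 0 1230186008 923417968 42949674
    (rowB 3 eng mog cd0q1 cd2q3 pd3 0 false true true .dn 1 3 3 (qsf 536870912 536870912 0 1230186008 3) ndB0q1 ndB2q3 pcB3 Cut.none Ext.none)

def k0_pp_133 : ∃ t, chk3 f_pp_133 t 1 1 1 = true :=
  ⟨(b (b (a (a (a (b (l 16653496) (l 1)) (l 1)) (l 1)) (l 1)) (l 1)) (l 1)), by decide +kernel⟩

theorem c_pp_133 : CertB 536870912 536870912 0 1230186008 923417968 42949674 3 eng mog cd0q1 cd2q3 pd3 false true true .dn 1 3 3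
    ndB0q1 ndB2q3 pcB3 Cut.none Ext.none :=
  certB0 (fam := false) (s1 := true) (s2 := true) (a := 1) (b := 3) (c := 3) (cn := .dn) (n1 := ndB0q1) (n2 := ndB2q3) (pc := pcB3) (cut := Cut.none) (xt := Ext.none) (P1 := 536870912) (W1 := 536870912) (P2 := 0) (W2 := 1230186008) (P3 := 923417968) (W3 := 42949674) (N0 := 3) (En := eng) (mo := mog) (C1 := cd0q1) (C2 := cd2q3) (C3 := pd3)
    rfl k0_pp_133

noncomputable def f_pp_202 : ℕ → ℕ → ℕ → ℕ → Bool := onCell 0 536870912 1073741824 536870912 923417968 42949674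
    (rowB 3 eng mog cd0q2 cd2q2 pd0 0 false true true .pp 2 0 2 (qsf 0 536870912 1073741824 536870912 0) ndB0q2 ndB2q2 pcB0 Cut.none Ext.none)

def k0_pp_202 : ∃ t, chk3 f_pp_202 t 1 1 1 = true :=
  ⟨(l 3), by decide +kernel⟩

theorem c_pp_202 : CertB 0 536870912 1073741824 536870912 923417968 42949674 3 eng mog cd0q2 cd2q2 pd0 false true true .pp 2 0 2
    ndB0q2 ndB2q2 pcB0 Cut.none Ext.none :=
  certB0 (fam := false) (s1 := true) (s2 := true) (a := 2) (b := 0) (c := 2) (cn := .pp) (n1 := ndB0q2) (n2 := ndB2q2) (pc := pcB0) (cut := Cut.none) (xt := Ext.none) (P1 := 0) (W1 := 536870912) (P2 := 1073741824) (W2 := 536870912) (P3 := 923417968) (W3 := 42949674) (N0 := 3) (En := eng) (mo := mog) (C1 := cd0q2) (C2 := cd2q2) (C3 := pd0)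
    rfl k0_pp_202

noncomputable def f_pp_203 : ℕ → ℕ → ℕ → ℕ → Bool := onCell 0 536870912 0 1230186008 923417968 42949674
    (rowB 3 eng mog cd0q2 cd2q3 pd0 0 false true true .up 2 0 3 (qsf 0 536870912 0 1230186008 0) ndB0q2 ndB2q3 pcB0 Cut.none Ext.none)

def k0_pp_203 : ∃ t, chk3 f_pp_203 t 1 1 1 = true :=
  ⟨(b (l 2) (l 3)), by decide +kernel⟩

theorem c_pp_203 : CertB 0 536870912 0 1230186008 923417968 42949674 3 eng mog cd0q2 cd2q3 pd0 false true true .up 2 0 3
    ndB0q2 ndB2q3 pcB0 Cut.none Ext.none :=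
  certB0 (fam := false) (s1 := true) (s2 := true) (a := 2) (b := 0) (c := 3) (cn := .up) (n1 := ndB0q2) (n2 := ndB2q3) (pc := pcB0) (cut := Cut.none) (xt := Ext.none) (P1 := 0) (W1 := 536870912) (P2 := 0) (W2 := 1230186008) (P3 := 923417968) (W3 := 42949674) (N0 := 3) (En := eng) (mo := mog) (C1 := cd0q2) (C2 := cd2q3) (C3 := pd0)
    rfl k0_pp_203

noncomputable def cut_pp_213 : Cut := Cut.of [[⟨0, 1, 0, 67108864⟩, ⟨1, 1, 0, 67108864⟩, ⟨2, 2, 0, 16252928⟩]]

noncomputable def f_pp_213 : ℕ → ℕ → ℕ → ℕ → Bool := onCell 0 536870912 0 1230186008 923417968 42949674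
    (rowB 3 eng mog cd0q2 cd2q3 pd1 0 false true true .pnn 2 1 3 (qsf 0 536870912 0 1230186008 1) ndB0q2 ndB2q3 pcB1 cut_pp_213 Ext.none)

def k0_pp_213 : ∃ t, chk3 f_pp_213 t 1 1 1 = true :=
  ⟨(b (b (a (l 3) (a (l 3) (a (l 3) (b (l 6) (l 3))))) (l 3)) (l 3)), by decide +kernel⟩

theorem c_pp_213 : CertB 0 536870912 0 1230186008 923417968 42949674 3 eng mog cd0q2 cd2q3 pd1 false true true .pnn 2 1 3
    ndB0q2 ndB2q3 pcB1 cut_pp_213 Ext.none :=
  certB0 (fam := false) (s1 := true) (s2 := true) (a := 2) (b := 1) (c := 3) (cn := .pnn) (n1 := ndB0q2) (n2 := ndB2q3) (pc := pcB1) (cut := cut_pp_213) (xt := Ext.none) (P1 := 0) (W1 := 536870912) (P2 := 0) (W2 := 1230186008) (P3 := 923417968) (W3 := 42949674) (N0 := 3) (En := eng) (mo := mog) (C1 := cd0q2) (C2 := cd2q3) (C3 := pd1)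
    rfl k0_pp_213

noncomputable def f_pm_001 : ℕ → ℕ → ℕ → ℕ → Bool := onCell 0 536870912 536870912 536870912 923417968 42949674
    (rowB 3 eng mog cd0q0 cd2q1 pd0 0 false true false .up 0 0 1 (qsf 0 536870912 536870912 536870912 0) ndB0q0 ndB2q1 pcB0 Cut.none Ext.none)

def k0_pm_001 : ∃ t, chk3 f_pm_001 t 1 1 1 = true :=
  ⟨(l 4), by decide +kernel⟩

theorem c_pm_001 : CertB 0 536870912 536870912 536870912 923417968 42949674 3 eng mog cd0q0 cd2q1 pd0 false true false .up 0 0 1
    ndB0q0 ndB2q1 pcB0 Cut.none Ext.none :=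
  certB0 (fam := false) (s1 := true) (s2 := false) (a := 0) (b := 0) (c := 1) (cn := .up) (n1 := ndB0q0) (n2 := ndB2q1) (pc := pcB0) (cut := Cut.none) (xt := Ext.none) (P1 := 0) (W1 := 536870912) (P2 := 536870912) (W2 := 536870912) (P3 := 923417968) (W3 := 42949674) (N0 := 3) (En := eng) (mo := mog) (C1 := cd0q0) (C2 := cd2q1) (C3 := pd0)
    rfl k0_pm_001

noncomputable def f_pm_011 : ℕ → ℕ → ℕ → ℕ → Bool := onCell 0 536870912 536870912 536870912 923417968 42949674
    (rowB 3 eng mog cd0q0 cd2q1 pd1 0 false true false .pnn 0 1 1 (qsf 0 536870912 536870912 536870912 1) ndB0q0 ndB2q1 pcB1 Cut.none Ext.none)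

def k0_pm_011 : ∃ t, chk3 f_pm_011 t 1 1 1 = true :=
  ⟨(l 4), by decide +kernel⟩

theorem c_pm_011 : CertB 0 536870912 536870912 536870912 923417968 42949674 3 eng mog cd0q0 cd2q1 pd1 false true false .pnn 0 1 1
    ndB0q0 ndB2q1 pcB1 Cut.none Ext.none :=
  certB0 (fam := false) (s1 := true) (s2 := false) (a := 0) (b := 1) (c := 1) (cn := .pnn) (n1 := ndB0q0) (n2 := ndB2q1) (pc := pcB1) (cut := Cut.none) (xt := Ext.none) (P1 := 0) (W1 := 536870912) (P2 := 536870912) (W2 := 536870912) (P3 := 923417968) (W3 := 42949674) (N0 := 3) (En := eng) (mo := mog) (C1 := cd0q0) (C2 := cd2q1) (C3 := pd1)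
    rfl k0_pm_011

noncomputable def f_pm_012 : ℕ → ℕ → ℕ → ℕ → Bool := onCell 0 536870912 1073741824 536870912 923417968 42949674
    (rowB 3 eng mog cd0q0 cd2q2 pd1 0 false true false .pnp 0 1 2 (qsf 0 536870912 1073741824 536870912 1) ndB0q0 ndB2q2 pcB1 Cut.none Ext.none)

def k0_pm_012 : ∃ t, chk3 f_pm_012 t 2 1 1 = true :=
  ⟨(b (a (l 4) (b (a (l 4) (b (b (a (l 4) (l 4)) (l 4)) (l 4))) (l 4))) (l 4)), by decide +kernel⟩

def k1_pm_012 : ∃ t, chk3 f_pm_012 t 6 2 1 = true :=
  ⟨(b (b (a (a (b (b (a (c (l 16255056) (l 16252104)) (l 16164192)) (a (a (l 4) (l 16290008)) (l 16250136))) (a (l 4) (b (l 16352192) (l 16359304)))) (b (b (a (l 16199248) (l 16171496)) (a (l 16264800) (l 16237560))) (c (b (l 16304384) (l 16351432)) (l 16166104)))) (a (b (c (b (l 16141384) (l 16200152)) (b (l 16119200) (l 16194256))) (c (l 16281768) (l 16299224))) (b (b (a (l 16091280) (l 16066280)) (l 16062280)) (b (l 16147144) (l 16269992))))) (a (b (a (a (l 4) (b (l 16291592) (l 4))) (a (a (l 16147880)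 (l 16252056)) (l 16252776))) (a (l 4) (a (b (l 16142904) (l 4)) (b (l 16147312) (l 16071456))))) (a (b (c (l 16256904) (l 16252472)) (a (l 16034616) (l 16127248))) (b (l 16256064) (a (l 16135568) (l 16143168)))))) (a (b (b (a (l 4) (a (l 4) (c (l 15978600) (l 15919656)))) (l 4)) (l 4)) (b (a (b (c (l 15996248) (l 15948720)) (a (a (l 78616018199) (l 15799784)) (l 15818096))) (b (c (l 16018504) (l 15989624)) (c (l 15878016) (l 15827320)))) (a (b (a (b (l 107069911655) (l 4)) (b (l 15685072) (l 15592368))) (c (b (l 103848830903) (l 15576856)) (b (l 116196740007) (l 351882837031)))) (b (c (l 15722328) (l 15648328)) (c (a (l 15536480) (l 15569224)) (l 15454680))))))), by decide +kernel⟩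

def k2_pm_012 : ∃ t, chk3 f_pm_012 t 7 2 1 = true :=
  ⟨(b (a (b (b (b (a (c (l 16048448) (l 16012344)) (c (l 16008144) (l 15966688))) (a (l 16078320) (l 15952264))) (a (c (l 16192640) (l 16196888)) (b (l 16101608) (l 16184288)))) (a (b (l 16255008) (l 16154024)) (b (l 16250648) (c (l 16154816) (l 16176080))))) (b (b (b (a (c (l 15968368) (l 15901080)) (a (a (l 15921200) (l 15914048)) (l 15946328))) (a (a (l 16026344) (l 16006008)) (c (l 15996344) (l 15970168)))) (a (b (a (l 16092336) (l 16073840)) (l 16147040)) (c (l 16085080) (l 16087184)))) (a (b (c (l 16218224) (l 16250392)) (c (l 16153208) (l 16175672))) (b (l 16061256) (l 16155744))))) (a (b (a (b (l 16034016) (l 15896880)) (b (c (l 16055888) (l 16058712)) (c (l 15939872) (l 15920256)))) (a (b (a (l 15730640) (l 15757888)) (a (l 15561144) (b (l 15636440) (l 15551096)))) (b (c (l 15809232) (l 15762776)) (c (l 15666080) (l 15587392))))) (b (b (a (l 15940880) (l 15987840)) (a (c (l 15963536) (l 15933424)) (c (l 15987152) (l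 15946184)))) (a (b (c (l 15845448) (l 15784576)) (c (l 15714816) (l 15620536))) (b (c (l 15882336) (l 15809720)) (c (l 15764312) (l 15656728))))))), by decide +kernel⟩

def k3_pm_012 : ∃ t, chk3 f_pm_012 t 3 3 1 = true :=
  ⟨(a (a (l 4) (b (b (a (l 4) (b (c (a (l 15358832) (l 15392528)) (a (l 15295384) (l 15274696))) (c (a (l 15168520) (l 15206368)) (a (l 15015040) (l 15061696))))) (a (l 4) (a (b (b (l 457108849735) (l 4)) (l 4)) (b (c (l 15014760) (l 14843248)) (b (c (l 14868688) (l 14674768)) (l 133777808007)))))) (b (a (l 2) (a (l 2) (b (b (c (l 14672240) (l 14456448)) (l 2)) (l 2)))) (l 2)))) (b (a (b (a (a (b (b (l 15426200) (l 15332464)) (b (l 15236264) (a (l 15126728) (l 15150328)))) (b (c (l 15464800) (l 15364424)) (b (l 15275104) (l 15177368)))) (b (c (l 15511952) (l 15461576)) (b (a (l 15305976) (l 15336568)) (a (l 15211128) (l 15247720))))) (b (b (a (a (a (l 15025488) (l 15048768)) (l 15077368)) (a (l 15117072) (l 15165152))) (a (c (a (l 15014688) (l 15066680)) (a (l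 14841464) (l 14888056))) (a (b (l 15050408) (l 15007720)) (l 15084280)))) (a (c (b (l 15054600) (l 14859800)) (b (a (l 14728800) (l 14791944)) (l 14661360))) (l 15079392)))) (a (b (b (c (l 15573544) (l 15422512)) (b (l 15580312) (l 15316640))) (b (l 15204576) (l 15052920))) (b (b (a (l 15557456) (l 15593632)) (l 15443976)) (b (l 15310216) (l 15171808))))) (a (b (a (b (c (l 14726376) (l 14518752)) (c (l 14545656) (l 14326784))) (b (c (l 14859368) (l 14661680)) (c (l 14692176) (l 14483664)))) (a (l 2) (b (l 160620909543) (l 2)))) (b (a (b (l 14897368) (l 14885432)) (b (l 15029560) (l 14884200))) (a (b (l 169211104055) (l 189075001143)) (b (l 14736376) (l 184243508279))))))), by decide +kernel⟩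

theorem s4_pm_012 : ∃ t, chk3 f_pm_012 t 3 2 1 = true := ex3_a k1_pm_012 k2_pm_012

theorem s5_pm_012 : ∃ t, chk3 f_pm_012 t 3 1 1 = true := ex3_b s4_pm_012 k3_pm_012

theorem s6_pm_012 : ∃ t, chk3 f_pm_012 t 1 1 1 = true := ex3_a k0_pm_012 s5_pm_012

theorem c_pm_012 : CertB 0 536870912 1073741824 536870912 923417968 42949674 3 eng mog cd0q0 cd2q2 pd1 false true false .pnp 0 1 2
    ndB0q0 ndB2q2 pcB1 Cut.none Ext.none :=
  certB0 (fam := false) (s1 := true) (s2 := false) (a := 0) (b := 1) (c := 2) (cn := .pnp) (n1 := ndB0q0) (n2 := ndB2q2) (pc := pcB1) (cut := Cut.none) (xt := Ext.none) (P1 := 0) (W1 := 536870912) (P2 := 1073741824) (W2 := 536870912) (P3 := 923417968) (W3 := 42949674) (N0 := 3) (En := eng) (mo := mog) (C1 := cd0q0) (C2 := cd2q2) (C3 := pd1)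
    rfl s6_pm_012

noncomputable def f_pm_022 : ℕ → ℕ → ℕ → ℕ → Bool := onCell 1073741824 536870912 1073741824 536870912 923417968 42949674
    (rowB 3 eng mog cd0q0 cd2q2 pd2 2 false true false .pp 0 2 2 (qsf 0 536870912 1073741824 536870912 2) ndB0q0 ndB2q2 pcB2 Cut.none Ext.none)

def k0_pm_022 : ∃ t, chk3 f_pm_022 t 1 1 1 = true :=
  ⟨(a (b (l 4) (a (b (a (b (l 4) (a (b (l 4) (a (c (l 14843056) (l 14642296)) (l 4))) (l 4))) (l 4)) (a (b (a (b (a (c (l 14765712) (l 14559872)) (l 14827800)) (c (l 14761536) (l 14555848))) (b (l 4) (a (l 14759600) (l 14842072)))) (a (b (c (l 14750920) (l 14546288)) (c (l 14759736) (l 14558544))) (b (a (l 14730136) (l 14790848)) (a (l 14727360) (l 14779752))))) (b (l 4) (a (b (a (l 14864104) (l 14947528)) (l 15036416)) (b (l 4) (l 15016720)))))) (l 4))) (l 4)), by decide +kernel⟩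

theorem c_pm_022 : CertB 0 536870912 1073741824 536870912 923417968 42949674 3 eng mog cd0q0 cd2q2 pd2 false true false .pp 0 2 2
    ndB0q0 ndB2q2 pcB2 Cut.none Ext.none :=
  certB2 (fam := false) (s1 := true) (s2 := false) (a := 0) (b := 2) (c := 2) (cn := .pp) (n1 := ndB0q0) (n2 := ndB2q2) (pc := pcB2) (cut := Cut.none) (xt := Ext.none) (P1 := 0) (W1 := 536870912) (P2 := 1073741824) (W2 := 536870912) (P3 := 923417968) (W3 := 42949674) (N0 := 3) (En := eng) (mo := mog) (C1 := cd0q0) (C2 := cd2q2) (C3 := pd2)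
    rfl (fun _ => rfl) k0_pm_022

noncomputable def f_pm_023 : ℕ → ℕ → ℕ → ℕ → Bool := onCell 0 536870912 0 1230186008 923417968 42949674
    (rowB 3 eng mog cd0q0 cd2q3 pd2 0 false true false .up 0 2 3 (qsf 0 536870912 0 1230186008 2) ndB0q0 ndB2q3 pcB2 Cut.none Ext.none)

def k0_pm_023 : ∃ t, chk3 f_pm_023 t 1 1 1 = true :=
  ⟨(a (b (l 2) (l 4)) (a (b (l 2) (b (b (l 4) (l 4)) (b (l 4) (l 4)))) (b (b (a (l 2) (b (l 15953640) (l 15966504))) (b (a (l 16094336) (l 15949376)) (b (a (l 16050416) (l 15912184)) (a (l 16000176) (l 15891008))))) (b (b (a (b (l 15982280) (l 15945864)) (b (l 15865200) (l 15820488))) (a (b (l 15897120) (l 15832504)) (b (l 15761264) (l 15495040)))) (b (a (b (a (l 15787744) (l 15706656)) (a (l 15675560) (l 15581648))) (b (a (l 15621344) (l 15541976)) (a (l 15485776) (l 15270312)))) (a (b (a (b (l 15567456) (l 15476056)) (b (l 15457872) (l 15356520))) (a (b (l 15366952) (a (l 15274216) (l 15199552))) (b (l 15237616) (l 15271328)))) (b (a (b (l 15353512) (l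 15245240)) (b (l 15256944) (l 15146752))) (b (a (l 15123136) (l 15025848)) (a (c (l 15007928) (l 14974088)) (c (l 14920608) (l 14876536))))))))))), by decide +kernel⟩

theorem c_pm_023 : CertB 0 536870912 0 1230186008 923417968 42949674 3 eng mog cd0q0 cd2q3 pd2 false true false .up 0 2 3
    ndB0q0 ndB2q3 pcB2 Cut.none Ext.none :=
  certB0 (fam := false) (s1 := true) (s2 := false) (a := 0) (b := 2) (c := 3) (cn := .up) (n1 := ndB0q0) (n2 := ndB2q3) (pc := pcB2) (cut := Cut.none) (xt := Ext.none) (P1 := 0) (W1 := 536870912) (P2 := 0) (W2 := 1230186008) (P3 := 923417968) (W3 := 42949674) (N0 := 3) (En := eng) (mo := mog) (C1 := cd0q0) (C2 := cd2q3) (C3 := pd2)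
    rfl k0_pm_023

noncomputable def f_pm_033 : ℕ → ℕ → ℕ → ℕ → Bool := onCell 1610612736 536870912 0 1230186008 923417968 42949674
    (rowB 3 eng mog cd0q0 cd2q3 pd3 2 false true false .pnn 0 3 3 (qsf 0 536870912 0 1230186008 3) ndB0q0 ndB2q3 pcB3 Cut.none Ext.none)

def k0_pm_033 : ∃ t, chk3 f_pm_033 t 1 1 1 = true :=
  ⟨(a (b (b (a (a (a (l 16474736) (l 16412600)) (b (l 16361472) (l 16299200))) (a (a (l 16250832) (l 16212056)) (l 4))) (b (a (a (l 16289856) (a (l 16224760) (l 16194744))) (l 4)) (a (b (a (a (l 16185008) (l 16145440)) (b (l 16149104) (l 4))) (a (a (l 16077808) (l 16061872)) (l 4))) (l 4)))) (b (b (a (a (b (a (l 16013392) (l 4)) (l 4)) (l 4)) (l 4)) (l 4)) (l 4))) (b (l 4) (l 4))), by decide +kernel⟩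

theorem c_pm_033 : CertB 0 536870912 0 1230186008 923417968 42949674 3 eng mog cd0q0 cd2q3 pd3 false true false .pnn 0 3 3
    ndB0q0 ndB2q3 pcB3 Cut.none Ext.none :=
  certB2 (fam := false) (s1 := true) (s2 := false) (a := 0) (b := 3) (c := 3) (cn := .pnn) (n1 := ndB0q0) (n2 := ndB2q3) (pc := pcB3) (cut := Cut.none) (xt := Ext.none) (P1 := 0) (W1 := 536870912) (P2 := 0) (W2 := 1230186008) (P3 := 923417968) (W3 := 42949674) (N0 := 3) (En := eng) (mo := mog) (C1 := cd0q0) (C2 := cd2q3) (C3 := pd3)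
    rfl (fun _ => rfl) k0_pm_033

noncomputable def f_pm_101 : ℕ → ℕ → ℕ → ℕ → Bool := onCell 536870912 536870912 536870912 536870912 923417968 42949674
    (rowB 3 eng mog cd0q1 cd2q1 pd0 0 false true false .npn 1 0 1 (qsf 536870912 536870912 536870912 536870912 0) ndB0q1 ndB2q1 pcB0 Cut.none Ext.none)

def k0_pm_101 : ∃ t, chk3 f_pm_101 t 1 1 1 = true :=
  ⟨(l 4), by decide +kernel⟩

theorem c_pm_101 : CertB 536870912 536870912 536870912 536870912 923417968 42949674 3 eng mog cd0q1 cd2q1 pd0 false true false .npn 1 0 1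
    ndB0q1 ndB2q1 pcB0 Cut.none Ext.none :=
  certB0 (fam := false) (s1 := true) (s2 := false) (a := 1) (b := 0) (c := 1) (cn := .npn) (n1 := ndB0q1) (n2 := ndB2q1) (pc := pcB0) (cut := Cut.none) (xt := Ext.none) (P1 := 536870912) (W1 := 536870912) (P2 := 536870912) (W2 := 536870912) (P3 := 923417968) (W3 := 42949674) (N0 := 3) (En := eng) (mo := mog) (C1 := cd0q1) (C2 := cd2q1) (C3 := pd0)
    rfl k0_pm_101

end Pool.Agent.Strip051.G.I8600_9000.Tab.C.BB02

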