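import Pool.Agent.Strip051.G.I8600_9000.Tab

/-! # Certificates B14 (generated) -/

set_option linter.all false
set_option maxRecDepth 100000

namespace Pool.Agent.Strip051.G.I8600_9000.Tab.C.BB02

open Pool.Agent.Strip051.PB Pool.Agent.Strip051.PB.T
open Pool.Agent.Strip051.G.I8600_9000.Tab

noncomputable def f_pm_102 : ℕ → ℕ → ℕ → ℕ → Bool := onCell 536870912 536870912 0 536870912 923417968 42949674
    (rowB 3 eng mog cd0q1 cd2q2 pd0 1 false true false .npp 1 0 2 (qsf 536870912 536870912 1073741824 536870912 0) ndB0q1 ndB2q2 pcB0 Cut.none Ext.none)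

def k0_pm_102 : ∃ t, chk3 f_pm_102 t 2 2 1 = true :=
  ⟨(a (l 1) (b (l 1) (b (l 1) (a (l 1) (b (l 1) (a (l 1) (a (l 1) (b (l 1) (b (l 1) (l 653940201623)))))))))), by decide +kernel⟩

def k1_pm_102 : ∃ t, chk3 f_pm_102 t 2 6 1 = true :=
  ⟨(a (b (l 1) (a (l 1) (a (l 1) (a (l 1) (b (l 1) (b (l 1) (c (l 118679553671) (l 15747560)))))))) (a (b (b (l 1) (a (l 1) (a (l 1) (a (l 1) (c (l 546029403655) (l 176661457415)))))) (b (b (a (l 1) (c (c (l 363493223639) (l 151965473911)) (l 148207419031))) (a (a (l 1) (c (l 140691163431) (l 15729288))) (c (a (l 15798912) (l 15828912)) (l 15714344)))) (b (a (c (c (l 207800235527) (l 15578576)) (l 118142833271)) (c (l 15845680) (l 15768016))) (a (c (a (l 15849504) (l 15855544)) (l 113311065943)) (c (l 15856992) (l 15751216)))))) (b (b (a (a (l 1) (c (l 612601051895) (l 435433519655))) (c (b (l 462277473335) (l 389800180103)) (b (l 336112536503) (l 219611479751)))) (a (c (b (l 418791114759) (l 302827100151)) (b (l 163239657847) (l 15754256)))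 (c (b (l 15802776) (l 15843984)) (c (l 15807744) (l 15760968))))) (a (c (b (b (l 15826080) (l 15847728)) (l 15855288)) (b (c (l 15778280) (l 15718832)) (b (l 15829944) (l 15785552)))) (b (b (a (l 15832256) (l 15828240)) (c (l 15864848) (l 15815280))) (b (c (l 15879224) (l 15937792)) (a (l 15864232) (a (l 15824392) (l 15829904))))))))), by decide +kernel⟩

def k2_pm_102 : ∃ t, chk3 f_pm_102 t 4 7 1 = true :=
  ⟨(a (a (b (l 1) (b (a (l 1) (a (l 1) (b (l 1) (c (l 15681640) (l 15870992))))) (c (c (a (b (l 107942283927) (l 358124663447)) (b (l 295847538855) (l 15998456))) (b (l 111700578983) (l 15867664))) (c (l 105795094679) (a (l 15865400) (l 15842832)))))) (b (a (l 1) (a (l 1) (b (l 1) (b (l 1) (b (l 1) (l 15688752)))))) (b (c (b (a (b (l 1) (l 15674784)) (l 144449674023)) (c (l 134786014087) (l 15967224))) (c (l 83246496983) (b (l 15790224) (l 15800400)))) (c (b (a (l 16021016) (l 15993648)) (l 15969904)) (c (l 15898336) (l 15806232)))))) (b (b (a (a (l 1) (b (l 1) (c (l 103110384695)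 (l 15775456)))) (c (b (a (l 110089664663) (l 15869840)) (a (l 15808048) (l 15887968))) (c (l 107405544263) (l 104721032871)))) (c (a (b (a (l 97741691783) (l 15748536)) (a (l 15684224) (l 15931264))) (c (l 15779920) (l 15877520))) (c (a (l 86467642087) (l 15814888)) (a (b (l 15750160) (l 15739136)) (b (l 15741368) (l 15741536)))))) (b (b (a (c (l 15769120) (a (l 15815888) (l 15798736))) (c (l 15902760) (l 15755360))) (c (a (l 15950368) (l 15895944)) (a (l 15807184) (l 15771256)))) (c (a (b (l 15948952) (l 15943640)) (l 15846648)) (a (b (l 15805248) (l 15801464)) (l 15738656)))))), by decide +kernel⟩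

def k3_pm_102 : ∃ t, chk3 f_pm_102 t 5 7 1 = true :=
  ⟨(b (a (b (b (a (c (l 15868968) (a (l 15767048) (l 15767728))) (c (l 15858792) (l 15834520))) (a (c (l 15874712) (l 15747600)) (c (l 15832136) (l 15767000)))) (c (a (c (l 15892432) (l 15825808)) (b (l 15841288) (l 15824232))) (a (a (l 15745904) (l 15823672)) (b (l 15758888) (l 15747656))))) (b (b (a (c (l 15842448) (l 15778536)) (c (l 15877016) (l 15817040))) (a (c (l 15868800) (l 15769576)) (c (l 15827952) (l 15790752)))) (a (c (b (a (l 15813640) (l 15803456)) (l 15797888)) (b (l 15822168) (l 15749456))) (c (l 15829480) (l 15795032))))) (a (b (b (a (c (l 15833512) (l 15752632)) (c (l 15908568) (l 15735568))) (a (c (l 15838144) (l 15741960)) (a (l 15759456) (l 15874496)))) (a (c (b (l 15817880) (l 15899640)) (b (l 15728936) (l 15715376))) (a (b (c (l 15771984) (l 15710400)) (l 15735400)) (l 15834144)))) (a (b (c (l 15962024) (l 15747808)) (l 15781000)) (b (l 15818936) (l 15828440))))), by decide +kernel⟩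

def k4_pm_102 : ∃ t, chk3 f_pm_102 t 6 2 1 = true :=
  ⟨(b (a (l 1) (b (l 1) (b (l 1) (b (l 1) (a (l 1) (a (l 1) (b (l 1) (l 590589896455)))))))) (b (b (a (l 1) (b (a (l 1) (a (b (l 1) (l 599179759671)) (c (l 550324688935) (l 584684273079)))) (a (a (l 1) (c (l 600790363527) (l 607232568167))) (c (a (l 544955930535) (l 16021072)) (a (l 575557378903) (l 15904856)))))) (a (a (l 1) (b (l 1) (c (l 644813267223) (l 632465020055)))) (c (b (a (a (l 629244504439) (l 534218487111)) (b (l 15994104) (l 16001936))) (a (a (l 504690443943) (l 15867160)) (l 16013112))) (b (a (b (l 581462724711) (l 531533801799)) (b (l 15897320) (l 15929680))) (a (a (l 15677000) (l 15790488)) (l 15974224)))))) (a (b (a (b (l 1) (c (l 618506493687) (a (l 1) (l 458519079959)))) (c (b (l 520259609511) (a (l 15742768) (l 15779280))) (b (a (l 463887760999) (l 15656152)) (l 454761413223)))) (b (a (c (a (l 521869955527) (l 15731912)) (l 479457318023)) (c (a (l 15760352) (l 15832536)) (l 15779624))) (a (c (l 451540343959)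 (l 315711530487)) (c (l 15846976) (l 15855488))))) (b (a (c (b (a (l 15813544) (l 15904624)) (l 15899608)) (b (a (l 15756856) (l 15866400)) (l 15884320))) (b (a (l 15977176) (l 16052904)) (a (l 16015808) (l 16128048)))) (c (a (b (l 15930496) (l 15995560)) (l 16094592)) (a (a (l 15942752) (l 15941600)) (l 16081088))))))), by decide +kernel⟩

def k5_pm_102 : ∃ t, chk3 f_pm_102 t 14 4 1 = true :=
  ⟨(b (b (l 1) (a (l 1) (a (l 1) (b (l 1) (c (l 624950300791) (l 688300934439)))))) (b (b (a (l 1) (a (c (l 616360258935) (l 629244763335)) (c (l 496101227111) (l 540124252583)))) (a (b (l 1) (c (l 577168298999) (l 622802152999))) (b (a (b (l 553009125671) (l 497711434407)) (c (b (l 16113568) (l 16118224)) (l 16068408))) (a (c (l 16069728) (l 16031896)) (c (l 16129728) (l 16088904)))))) (b (a (c (b (l 561598986471) (l 551398467783)) (b (l 610990928199) (l 591126770087))) (b (a (c (l 16080480) (l 16049872)) (l 16107728)) (a (l 16092936) (l 16152560)))) (a (c (b (l 540124223687) (l 524555015447))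 (b (l 584147537335) (l 575020828375))) (a (b (l 16112768) (l 16135216)) (b (l 16176672) (l 16209352))))))), by decide +kernel⟩

def k6_pm_102 : ∃ t, chk3 f_pm_102 t 15 8 1 = true :=
  ⟨(a (b (b (l 1) (b (l 1) (a (l 1) (a (l 1) (l 665752618007))))) (b (a (b (l 1) (c (l 620118449767) (l 675952910775))) (b (c (l 509523122631) (l 16198600)) (c (l 16232000) (l 16193016)))) (a (c (l 490732623191) (l 503617420039)) (b (c (l 16223384) (l 16188096)) (c (l 16216352) (l 16185248)))))) (b (b (b (a (l 1) (a (c (l 558378502327) (l 600791230759)) (c (l 16337248) (l 16308304)))) (a (a (l 1) (c (a (l 1) (l 549251662215)) (l 596496233095))) (a (c (l 428992603543) (l 16286984)) (c (l 16341216) (l 16314904))))) (a (b (a (b (l 1) (l 16256168)) (b (l 16276656) (l 16274976))) (c (l 435435045415) (l 418791970727))) (a (b (c (l 16314272) (l 16285240)) (l 16313240)) (b (l 16333136) (b (l 16335048) (l 16418328)))))) (a (a (b (b (l 16247896) (l 16245856)) (b (l 16254752) (c (l 16277384) (l 16257880))))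 (b (b (l 16275592) (l 16292792)) (b (c (l 16299880) (l 16280432)) (l 16283296)))) (b (a (b (b (l 16314216) (l 16315608)) (c (l 16317944) (l 16299768))) (b (a (l 16325176) (l 16332680)) (l 16323352))) (a (l 16301864) (l 16316656)))))), by decide +kernel⟩

def k7_pm_102 : ∃ t, chk3 f_pm_102 t 15 9 1 = true :=
  ⟨(b (b (a (a (c (b (l 16168736) (l 16157496)) (l 16207408)) (a (b (l 16183168) (l 16182856)) (b (l 16298576) (l 16236128)))) (a (a (b (l 16260880) (l 16259776)) (l 16278336)) (c (l 16301576) (l 16305744)))) (a (b (a (b (l 16156184) (l 16144896)) (b (a (l 16207376) (l 16239352)) (l 16341912))) (a (c (b (l 16170864) (l 16181408)) (l 16133736)) (b (l 16250400) (l 16261672)))) (b (a (b (l 16267928) (l 16276352)) (b (l 16303080) (l 16310496))) (a (l 16416680) (l 16302040))))) (b (a (b (a (c (l 16255224) (l 16274552)) (l 16278096)) (a (c (l 16252000) (l 16249920)) (l 16296432))) (b (a (l 16307136) (l 16337160)) (a (l 16322096) (l 16350088)))) (a (a (l 16272048) (l 16280584)) (a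 (l 16259824) (b (l 16361832) (l 16372416)))))), by decide +kernel⟩

def k8_pm_102 : ∃ t, chk3 f_pm_102 t 7 5 1 = true :=
  ⟨(b (a (b (a (c (b (b (l 16087576) (l 16104288)) (a (l 16104528) (l 16165928))) (b (b (l 16022416) (l 16049792)) (a (l 16039640) (l 16149672)))) (b (a (b (l 16161552) (l 16184936)) (l 16281704)) (a (l 16195896) (l 16330216)))) (a (b (a (b (l 16112656) (l 16120808)) (c (l 16185608) (l 16183456))) (c (l 16166400) (l 16198960))) (b (l 16334168) (l 16326760)))) (b (a (b (a (l 16307840) (l 16348856)) (a (l 16356440) (l 16370512))) (b (a (l 16365688) (l 16386880)) (a (l 16383552) (l 16401392)))) (a (b (l 16186416) (l 16365640)) (b (a (l 16391720) (l 16408296)) (c (l 16363144) (l 16430288)))))) (a (a (b (b (l 16227304) (l 16232992)) (l 16227384)) (b (l 16186792) (l 16296272))) (a (b (a (l 16344984) (l 16361664)) (a (l 16331880) (l 16352176))) (b (a (l 16316672) (l 16235320)) (b (l 16157496) (l 16156312)))))), by decide +kernel⟩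

def k9_pm_102 : ∃ t, chk3 f_pm_102 t 6 3 1 = true :=
  ⟨(b (b (c (a (b (a (b (l 15868440) (l 15841512)) (b (l 15903656) (l 15897504))) (a (a (l 15874144) (l 15902256)) (b (a (l 15930048) (l 15963600)) (l 15947344)))) (a (b (a (b (l 15992464) (l 16002824)) (l 16052280)) (l 16033288)) (b (l 16126144) (l 16119088)))) (a (b (a (b (l 15788736) (l 15831632)) (b (l 15903968) (l 15908008))) (a (l 15837608) (b (a (l 15913016) (l 15952312)) (a (l 15912040) (l 15956656))))) (a (a (b (l 15974744) (l 16004472)) (l 16035168)) (l 15921696)))) (b (c (a (a (b (a (l 15883488) (l 15900872)) (l 15949912)) (l 15948952)) (a (l 16030288) (l 16111208))) (a (a (b (a (l 15847688) (l 15876544)) (a (l 15845320) (l 15870912))) (l 15933704)) (l 15952176))) (a (a (a (c (l 15865976) (l 15835832)) (l 15885392)) (c (l 15948840) (l 15935360))) (a (l 16026640) (l 16113064))))) (a (b (a (b (c (l 15880912) (l 15856504)) (l 15872200)) (b (l 15942608) (l 15944968))) (a (b (l 15878000) (l 15887136)) (b (l 15950144)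 (l 15958208)))) (b (a (b (l 16025624) (l 16027016)) (b (l 16110880) (l 16110864))) (a (b (l 16030888) (l 16037072)) (l 15988648))))), by decide +kernel⟩

def k10_pm_102 : ∃ t, chk3 f_pm_102 t 7 3 1 = true :=
  ⟨(b (a (b (a (b (l 16215808) (l 16205688)) (b (l 16283864) (l 16274784))) (a (b (l 16198128) (l 16192960)) (c (l 16239208) (l 16253088)))) (a (b (c (b (l 16302536) (l 16293528)) (b (l 16370128) (l 16368136))) (c (l 16283120) (l 16365352))) (b (a (c (l 16262192) (l 16417384)) (b (a (l 16392920) (l 16214128)) (c (l 16307712) (l 16435200)))) (a (b (l 16132184) (l 16238544)) (c (l 16185528) (l 16395936)))))) (a (b (a (b (l 16189728) (l 16187912)) (c (l 16228904) (l 16288992))) (a (b (l 16187040) (l 16186704)) (c (l 16221680) (l 16279560)))) (b (a (a (l 16193336) (c (l 16271960) (l 16363208))) (b (c (l 16258832) (l 16357944)) (l 16108440))) (a (c (a (l 16244192) (l 16228008)) (a (l 16319560) (l 16308928))) (c (l 16043560) (l 16272864)))))), by decide +kernel⟩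

theorem s11_pm_102 : ∃ t, chk3 f_pm_102 t 3 3 1 = true := ex3_a k9_pm_102 k10_pm_102

theorem s12_pm_102 : ∃ t, chk3 f_pm_102 t 15 4 1 = true := ex3_b k6_pm_102 k7_pm_102

theorem s13_pm_102 : ∃ t, chk3 f_pm_102 t 7 4 1 = true := ex3_a k5_pm_102 s12_pm_102

theorem s14_pm_102 : ∃ t, chk3 f_pm_102 t 7 2 1 = true := ex3_b s13_pm_102 k8_pm_102

theorem s15_pm_102 : ∃ t, chk3 f_pm_102 t 3 2 1 = true := ex3_a k4_pm_102 s14_pm_102

theorem s16_pm_102 : ∃ t, chk3 f_pm_102 t 3 1 1 = true := ex3_b s15_pm_102 s11_pm_102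

theorem s17_pm_102 : ∃ t, chk3 f_pm_102 t 2 7 1 = true := ex3_a k2_pm_102 k3_pm_102

theorem s18_pm_102 : ∃ t, chk3 f_pm_102 t 2 3 1 = true := ex3_b k1_pm_102 s17_pm_102

theorem s19_pm_102 : ∃ t, chk3 f_pm_102 t 2 1 1 = true := ex3_b k0_pm_102 s18_pm_102

theorem s20_pm_102 : ∃ t, chk3 f_pm_102 t 1 1 1 = true := ex3_a s19_pm_102 s16_pm_102

theorem c_pm_102 : CertB 536870912 536870912 1073741824 536870912 923417968 42949674 3 eng mog cd0q1 cd2q2 pd0 false true false .npp 1 0 2
    ndB0q1 ndB2q2 pcB0 Cut.none Ext.none :=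
  certB1 (fam := false) (s1 := true) (s2 := false) (a := 1) (b := 0) (c := 2) (cn := .npp) (n1 := ndB0q1) (n2 := ndB2q2) (pc := pcB0) (cut := Cut.none) (xt := Ext.none) (P1 := 536870912) (W1 := 536870912) (P2 := 1073741824) (W2 := 536870912) (P3 := 923417968) (W3 := 42949674) (N0 := 3) (En := eng) (mo := mog) (C1 := cd0q1) (C2 := cd2q2) (C3 := pd0)
    rfl (fun _ => rfl) s20_pm_102

noncomputable def f_pm_112 : ℕ → ℕ → ℕ → ℕ → Bool := onCell 536870912 536870912 1073741824 536870912 923417968 42949674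
    (rowB 3 eng mog cd0q1 cd2q2 pd1 0 false true false .dn 1 1 2 (qsf 536870912 536870912 1073741824 536870912 1) ndB0q1 ndB2q2 pcB1 Cut.none Ext.none)

def k0_pm_112 : ∃ t, chk3 f_pm_112 t 2 1 1 = true :=
  ⟨(b (a (a (a (b (b (b (c (b (l 15903480) (l 15966968)) (b (l 15865736) (l 15948512))) (c (l 15992800) (l 16064720))) (b (l 16076304) (l 16146832))) (b (b (l 16077288) (l 16008096)) (b (c (l 15918536) (l 15836768)) (c (l 15815808) (l 15706232))))) (b (b (b (c (l 204579280023) (l 221222193703)) (c (l 15987328) (l 16043880))) (b (l 16114424) (l 16135352))) (b (b (l 16080136) (l 16003400)) (b (c (l 15951360) (l 15864472)) (l 15816856))))) (b (b (b (l 1) (c (l 477847327223) (l 295847580023))) (c (b (l 16098816) (l 16113104)) (b (l 16126912) (l 16108160)))) (b (b (a (l 16079528) (l 16075184)) (a (c (l 16044216) (l 15982184)) (l 15922088))) (b (a (l 15943160) (l 15971024)) (l 15887744))))) (b (a (a (b (l 1) (b (l 1) (l 16082224))) (l 1)) (l 1)) (b (a (b (a (l 16066304) (l 16054712))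 (a (l 16036624) (l 16036992))) (b (l 1) (l 201358121335))) (a (b (l 16002000) (l 15935720)) (c (a (l 16009744) (l 15996008)) (l 106869769095)))))) (a (b (a (b (a (c (l 15652960) (l 15526264)) (l 15710560)) (a (b (l 15412640) (l 15287160)) (l 15452496))) (b (c (l 15811344) (l 15723424)) (a (l 15525432) (l 15631488)))) (a (b (a (b (l 15157888) (l 15025584)) (b (l 15278912) (l 15159408))) (a (b (l 14890936) (l 14754544)) (b (l 15037688) (l 14914400)))) (b (c (l 15574752) (l 15335160)) (a (b (l 15175456) (l 15065024)) (b (l 15303384) (l 15205568)))))) (b (a (b (c (l 15920144) (l 15844688)) (c (l 15770112) (l 15708472))) (b (c (l 15958480) (l 15914104)) (c (l 15849504) (l 15823520)))) (a (b (c (l 15627256) (l 15553848)) (a (l 15378272) (l 15488928))) (b (c (l 15749480) (l 15714928)) (a (l 15582944) (l 15658856))))))), by decide +kernel⟩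

def k1_pm_112 : ∃ t, chk3 f_pm_112 t 3 1 1 = true :=
  ⟨(b (a (b (l 1) (a (b (l 1) (c (l 222297085239) (l 188474104951))) (l 1))) (l 1)) (a (b (a (b (c (l 72509933015) (l 16060112)) (b (l 52108793271) (l 16054824))) (b (c (a (l 15900432) (l 1)) (l 278668355367)) (c (a (l 15874240) (l 15856848)) (l 116533402439)))) (a (b (c (l 15815880) (l 15818912)) (c (l 15753048) (l 15743696))) (b (c (a (l 15838760) (l 15837256)) (l 16093992)) (c (a (l 15802736) (l 15817448)) (l 15992216))))) (b (a (b (l 1) (a (c (l 15822704) (l 15899576)) (l 1))) (l 1)) (a (b (a (c (l 15818064) (l 15895536)) (c (b (l 15778352) (l 15782432)) (l 15879680))) (a (c (l 15813336) (l 15880352)) (b (c (l 15787400) (l 15880552)) (a (l 15836776) (c (l 15791528) (l 15879952)))))) (b (a (b (l 1) (a (c (l 542271624663) (l 15861736)) (l 1))) (l 1)) (a (b (a (c (l 48350434023) (l 15876616)) (c (l 15805352) (l 15903768))) (c (a (l 15806968) (l 15837152)) (l 15908480))) (c (b (a (l 15843760) (l 1)) (a (l 15869888) (l 15909592)))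 (b (l 561598388951) (a (l 15952128) (l 15991440)))))))))), by decide +kernel⟩

theorem s2_pm_112 : ∃ t, chk3 f_pm_112 t 1 1 1 = true := ex3_a k0_pm_112 k1_pm_112

theorem c_pm_112 : CertB 536870912 536870912 1073741824 536870912 923417968 42949674 3 eng mog cd0q1 cd2q2 pd1 false true false .dn 1 1 2
    ndB0q1 ndB2q2 pcB1 Cut.none Ext.none :=
  certB0 (fam := false) (s1 := true) (s2 := false) (a := 1) (b := 1) (c := 2) (cn := .dn) (n1 := ndB0q1) (n2 := ndB2q2) (pc := pcB1) (cut := Cut.none) (xt := Ext.none) (P1 := 536870912) (W1 := 536870912) (P2 := 1073741824) (W2 := 536870912) (P3 := 923417968) (W3 := 42949674) (N0 := 3) (En := eng) (mo := mog) (C1 := cd0q1) (C2 := cd2q2) (C3 := pd1)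
    rfl s2_pm_112

noncomputable def cut_pm_113 : Cut := Cut.of [[⟨0, 1, 0, 67108864⟩, ⟨1, 1, 0, 67108864⟩, ⟨2, 2, 0, 16252928⟩]]

noncomputable def f_pm_113 : ℕ → ℕ → ℕ → ℕ → Bool := onCell 536870912 536870912 0 1230186008 923417968 42949674
    (rowB 3 eng mog cd0q1 cd2q3 pd1 0 false true false .nn 1 1 3 (qsf 536870912 536870912 0 1230186008 1) ndB0q1 ndB2q3 pcB1 cut_pm_113 Ext.none)

def k0_pm_113 : ∃ t, chk3 f_pm_113 t 2 1 1 = true :=
  ⟨(b (l 2) (b (b (l 2) (a (l 2) (a (l 2) (b (l 2) (a (l 2) (l 15351000)))))) (a (b (l 2) (a (b (l 2) (a (b (l 2) (l 14762016)) (b (l 14796504) (l 14907616)))) (b (a (b (l 2) (l 14849448)) (c (l 14992256) (l 14929224))) (a (b (l 14944448) (l 15043472)) (b (l 15081872) (l 15170144)))))) (b (a (b (a (l 2) (l 15043240)) (a (l 155790128903) (l 15133688))) (b (a (l 15214352) (l 15373360)) (a (l 15277928) (l 15408648)))) (a (b (a (c (l 15137320) (l 15074136)) (l 15383784)) (a (b (l 15209576) (l 15287200)) (b (l 15325888) (l 15392728)))) (a (b (l 15356448)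 (l 15476760)) (b (l 15461384) (l 15557712)))))))), by decide +kernel⟩

def k1_pm_113 : ∃ t, chk3 f_pm_113 t 6 1 1 = true :=
  ⟨(b (l 2) (b (b (a (l 2) (b (a (l 2) (b (l 16523072) (l 16416472))) (a (l 16073568) (b (l 16320232) (l 16229400))))) (a (b (a (l 15553320) (l 15758856)) (a (l 15530728) (l 15698416))) (a (b (l 15948632) (l 15848936)) (b (b (l 16145872) (l 16071448)) (l 16099008))))) (b (a (b (a (l 15521064) (l 15655928)) (a (l 15527384) (l 15633504))) (b (a (l 15773944) (l 15868960)) (a (l 15723920) (l 16024648)))) (a (b (a (l 15553904) (l 15634464)) (a (l 15626232) (l 15851568))) (b (a (l 15868496) (c (l 15770736) (l 15730064))) (a (c (l 15730008) (l 15687288)) (c (l 15754664) (l 15719800)))))))), by decide +kernel⟩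

def k2_pm_113 : ∃ t, chk3 f_pm_113 t 7 2 1 = true :=
  ⟨(b (a (l 2) (a (l 2) (b (l 6) (a (b (l 2) (a (l 16743888) (l 16767184))) (b (a (l 16735104) (b (l 6) (a (l 16781520) (l 16747024)))) (a (l 16751672) (b (l 16733176) (l 16734760)))))))) (b (a (a (l 2) (b (l 2) (a (l 2) (l 16629344)))) (a (a (b (l 2) (l 16662448)) (b (l 16672416) (l 16647968))) (b (a (a (l 16750992) (l 16779568)) (a (l 16748192) (b (l 16737864) (l 16742864)))) (a (a (l 16756312) (l 16769480)) (a (b (l 16823168) (l 16830168)) (b (l 16729320) (l 16739984))))))) (a (b (a (l 2) (b (l 16617208) (l 16487776))) (a (b (l 16623664) (l 16627152)) (b (l 16609408) (l 16581776)))) (b (a (b (a (l 16673912) (l 16731248)) (a (l 16720632) (b (l 16772208) (l 16794920)))) (b (a (l 16696856) (a (l 16788000) (l 16707568))) (a (b (l 16825944) (l 16781024)) (b (a (l 16799288) (l 16739224)) (a (l 16742664) (l 16682416)))))) (a (b (a (l 16746064) (l 16793624)) (a (l 16768560) (l 16799776))) (b (a (c (l 16836280) (l 16799640)) (c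 (b (l 16736304) (l 16733448)) (a (l 16760400) (l 16699664)))) (a (c (l 16833000) (l 16791952)) (c (a (l 16792136) (l 16729056)) (a (l 16751808) (l 16710856)))))))))), by decide +kernel⟩

def k3_pm_113 : ∃ t, chk3 f_pm_113 t 7 6 1 = true :=
  ⟨(b (a (b (a (b (l 16634216) (l 16539216)) (b (a (l 16681736) (l 16729776)) (a (l 16626512) (l 16673936)))) (a (b (l 16424784) (l 16320832)) (b (l 16509336) (l 16385608)))) (b (a (b (a (l 16793256) (l 16808000)) (a (l 16698872) (l 16689928))) (b (a (c (l 16851256) (l 16685944)) (c (a (l 16786440) (l 16742320)) (a (l 16624144) (l 16572952)))) (a (b (l 16691360) (l 16596328)) (c (a (l 16727944) (l 16673792)) (a (l 16441744) (l 16397648)))))) (a (b (a (l 16535040) (l 16518232)) (a (l 16398864) (l 16379024))) (b (a (c (l 16600824) (l 16345792)) (c (a (l 16543016) (l 16496128)) (a (l 16296232) (l 16258568)))) (a (l 16334760) (c (l 16378040) (l 16167712))))))) (a (a (b (l 16311064) (b (l 16074888) (l 16011848))) (b (a (l 16222480) (l 16236568))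 (a (l 16068816) (l 16077944)))) (a (b (a (l 16423992) (c (l 16309568) (l 16126456))) (a (c (l 16145744) (l 16008792)) (c (l 16131248) (l 15990848)))) (c (b (a (l 16376056) (b (l 16265384) (l 16173160))) (a (l 16249888) (b (l 16097768) (l 16036584)))) (b (a (l 16090144) (a (l 16056032) (l 16262408))) (a (l 15963552) (b (l 15955544) (l 15910952)))))))), by decide +kernel⟩

def k4_pm_113 : ∃ t, chk3 f_pm_113 t 7 7 1 = true :=
  ⟨(b (a (b (a (a (l 15917824) (l 15937440)) (c (l 16026744) (l 15913080))) (a (b (l 15859152) (l 15884008)) (b (l 16015024) (l 16038664)))) (b (a (a (c (l 16013984) (l 15910704)) (b (l 15974448) (l 15929808))) (a (b (l 15954760) (l 15915400)) (b (c (l 15987712) (l 15876408)) (c (l 15949392) (l 15850072))))) (a (a (b (l 15896952) (l 15861784)) (b (l 15892720) (l 15861400))) (b (a (l 15883696) (c (l 15919248) (l 15829264))) (a (l 15857040) (c (l 15895144) (l 15812064))))))) (a (b (a (b (l 15915048) (l 15784600)) (b (c (l 15840272) (l 15792440)) (a (l 15772480)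 (l 15789392)))) (a (c (l 15759072) (l 15731504)) (b (a (l 15747288) (l 15759192)) (a (l 15732104) (c (l 15746464) (l 15720152)))))) (b (a (b (c (l 15866056) (l 15801720)) (a (l 15801304) (l 15808768))) (b (a (l 15834344) (c (l 15875880) (l 15797880))) (a (l 15814824) (c (l 15860920) (l 15786800))))) (a (b (c (l 15806616) (l 15757600)) (c (l 15864056) (l 15737776))) (b (a (l 15903080) (c (l 15849440) (l 15778352))) (a (c (l 15813616) (l 15754832)) (c (l 15840616) (l 15772088)))))))), by decide +kernel⟩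

theorem s5_pm_113 : ∃ t, chk3 f_pm_113 t 7 3 1 = true := ex3_b k3_pm_113 k4_pm_113

theorem s6_pm_113 : ∃ t, chk3 f_pm_113 t 7 1 1 = true := ex3_b k2_pm_113 s5_pm_113

theorem s7_pm_113 : ∃ t, chk3 f_pm_113 t 3 1 1 = true := ex3_a k1_pm_113 s6_pm_113

theorem s8_pm_113 : ∃ t, chk3 f_pm_113 t 1 1 1 = true := ex3_a k0_pm_113 s7_pm_113

theorem c_pm_113 : CertB 536870912 536870912 0 1230186008 923417968 42949674 3 eng mog cd0q1 cd2q3 pd1 false true false .nn 1 1 3
    ndB0q1 ndB2q3 pcB1 cut_pm_113 Ext.none :=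
  certB0 (fam := false) (s1 := true) (s2 := false) (a := 1) (b := 1) (c := 3) (cn := .nn) (n1 := ndB0q1) (n2 := ndB2q3) (pc := pcB1) (cut := cut_pm_113) (xt := Ext.none) (P1 := 536870912) (W1 := 536870912) (P2 := 0) (W2 := 1230186008) (P3 := 923417968) (W3 := 42949674) (N0 := 3) (En := eng) (mo := mog) (C1 := cd0q1) (C2 := cd2q3) (C3 := pd1)
    rfl s8_pm_113

noncomputable def cut_pm_123 : Cut := Cut.of [[⟨0, 1, 0, 67108864⟩, ⟨1, 1, 0, 67108864⟩, ⟨2, 2, 0, 16252928⟩]]

noncomputable def f_pm_123 : ℕ → ℕ → ℕ → ℕ → Bool := onCell 1073741824 536870912 0 1230186008 923417968 42949674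
    (rowB 3 eng mog cd0q1 cd2q3 pd2 2 false true false .npn 1 2 3 (qsf 536870912 536870912 0 1230186008 2) ndB0q1 ndB2q3 pcB2 cut_pm_123 Ext.none)

def k0_pm_123 : ∃ t, chk3 f_pm_123 t 1 4 1 = true :=
  ⟨(a (a (a (a (b (l 6) (b (b (l 6) (a (a (l 16620816) (l 16598280)) (l 16568976))) (a (a (b (l 16569504) (l 16509392)) (b (l 16548072) (l 16490024))) (b (l 16522928) (l 16458688))))) (b (a (l 6) (b (l 16626944) (l 16593736))) (b (a (b (l 6) (l 16540624)) (l 16545840)) (a (l 16455616) (l 16505048))))) (a (b (a (l 16448296) (l 16571304)) (a (b (l 16547728) (l 16509184)) (l 16530248))) (b (b (l 16599096) (l 16583088)) (l 16349712)))) (a (b (a (l 16571424) (l 16521696)) (a (l 16412752) (l 16406280))) (b (a (l 16445096) (l 16341560)) (a (l 16311952) (l 16190152))))) (a (a (b (l 16123848) (a (l 16049424) (l 15894576))) (b (a (l 15918576) (l 15774232)) (a (l 15778536) (l 15729672)))) (a (b (l 15742200) (l 15758416)) (l 15844440)))), by decide +kernel⟩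

def k1_pm_123 : ∃ t, chk3 f_pm_123 t 1 5 1 = true :=
  ⟨(a (b (a (a (a (b (a (b (a (l 16428624) (l 16425712)) (l 16407768)) (l 16449456)) (a (c (l 16389328) (l 16401672)) (l 16409440))) (b (a (l 16458064) (l 16459800)) (a (l 16406520) (l 16398568)))) (a (b (l 16450848) (l 16372896)) (b (l 16413536) (l 16316680)))) (a (a (b (l 16349888) (l 16235768)) (l 16154168)) (a (l 16071208) (b (l 16007448) (l 15850784))))) (a (b (a (a (b (a (l 16400888) (l 16395072)) (a (b (l 16428152) (l 16440848)) (l 16422992))) (b (l 16375792) (b (l 16389840) (l 16393736)))) (b (a (l 16326504) (l 16252616)) (a (l 16328168) (l 16239768)))) (a (a (b (a (l 16424696) (l 16426008)) (a (l 16388792) (l 16424240))) (b (l 16383992) (l 16311840))) (a (b (l 16288936) (l 16197056)) (b (l 16177080) (l 16087448))))) (b (a (b (l 16097240) (a (l 16125624) (l 15986208))) (b (a (l 15880696) (l 15768184)) (a (l 15847208) (l 15758144)))) (a (a (b (l 16053264) (l 15957720)) (b (l 15912248) (l 15843560))) (a (l 15778888)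 (l 15723520)))))) (b (a (a (b (a (l 15853480) (l 15748560)) (l 15738256)) (l 15718248)) (a (l 15788480) (l 15907240))) (a (b (a (b (l 15703224) (l 15710912)) (l 15726728)) (a (l 15698352) (l 15742304))) (b (a (l 15812840) (l 15933664)) (a (l 15841544) (l 1)))))), by decide +kernel⟩

def k2_pm_123 : ∃ t, chk3 f_pm_123 t 1 6 1 = true :=
  ⟨(a (b (a (a (b (a (b (a (a (l 16439736) (l 16380544)) (l 16312072)) (a (a (l 16303320) (l 16261336)) (l 16210304))) (b (l 16214872) (l 16129120))) (a (b (a (a (l 16199944) (l 16168256)) (l 16126984)) (a (l 16105440) (l 16053624))) (b (c (l 16104416) (l 15986856)) (a (l 15996056) (l 15930912))))) (b (a (b (l 16110824) (l 16021704)) (b (l 15993744) (l 15911632))) (a (b (l 15938360) (l 15827800)) (b (l 15814504) (l 15723168))))) (b (a (a (l 15860048) (l 15748336)) (a (l 15693016) (l 15669104))) (a (a (l 15687480) (l 15637488)) (a (l 15617192) (l 15620824))))) (a (a (b (a (a (b (b (l 16054472) (l 16002064)) (l 15881216)) (b (l 15951576) (l 15804648)))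 (b (l 15837328) (l 15711744))) (a (b (a (l 15728104) (l 15667872)) (a (l 15588520) (l 15542592))) (b (l 15595568) (l 15488912)))) (b (a (l 15668848) (l 15597664)) (a (l 15630888) (l 15455744)))) (a (b (a (l 15558168) (l 15545736)) (a (l 15453336) (l 15474048))) (b (l 15568360) (a (l 15511736) (l 15563872)))))) (b (a (b (a (l 15679440) (l 15755080)) (a (l 15724768) (l 15766144))) (a (b (l 15869232) (l 1)) (l 1))) (a (a (b (l 15677440) (l 15641416)) (b (l 15781528) (l 1))) (l 1)))), by decide +kernel⟩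

def k3_pm_123 : ∃ t, chk3 f_pm_123 t 1 7 1 = true :=
  ⟨(a (a (b (a (b (a (b (a (l 15461840) (l 15428408)) (a (l 15346816) (l 15323888))) (b (l 15391432) (l 15302256))) (a (b (a (l 15241072) (l 15227992)) (a (l 15143720) (l 15139864))) (b (l 15220888) (l 15146624)))) (b (a (b (l 15365776) (l 15295832)) (l 15339552)) (a (b (l 15232840) (l 15176936)) (l 15248568)))) (a (b (a (b (c (l 15088504) (l 15027744)) (c (l 15010352) (l 14954104))) (b (l 15080504) (l 15022624))) (a (b (c (l 14941488) (l 14889440)) (c (l 14882712) (l 14834448))) (b (c (l 14997552) (l 14952336)) (c (l 14957424) (l 14917648))))) (b (a (b (l 15128448) (l 15087768)) (b (l 15197536) (l 15173848))) (b (a (l 15056904) (l 1)) (l 1))))) (b (a (b (a (l 15371352) (l 15421608)) (a (l 15333072) (l 15390808))) (b (a (l 15485408) (l 15558616)) (l 1))) (a (b (a (b (l 15284448) (l 1)) (l 1)) (l 1)) (l 1)))) (l 1)), by decide +kernel⟩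

theorem s4_pm_123 : ∃ t, chk3 f_pm_123 t 1 3 1 = true := ex3_b k2_pm_123 k3_pm_123

theorem s5_pm_123 : ∃ t, chk3 f_pm_123 t 1 2 1 = true := ex3_b k0_pm_123 k1_pm_123

theorem s6_pm_123 : ∃ t, chk3 f_pm_123 t 1 1 1 = true := ex3_b s5_pm_123 s4_pm_123

theorem c_pm_123 : CertB 536870912 536870912 0 1230186008 923417968 42949674 3 eng mog cd0q1 cd2q3 pd2 false true false .npn 1 2 3
    ndB0q1 ndB2q3 pcB2 cut_pm_123 Ext.none :=
  certB2 (fam := false) (s1 := true) (s2 := false) (a := 1) (b := 2) (c := 3) (cn := .npn) (n1 := ndB0q1) (n2 := ndB2q3) (pc := pcB2) (cut := cut_pm_123) (xt := Ext.none) (P1 := 536870912) (W1 := 536870912) (P2 := 0) (W2 := 1230186008) (P3 := 923417968) (W3 := 42949674) (N0 := 3) (En := eng) (mo := mog) (C1 := cd0q1) (C2 := cd2q3) (C3 := pd2)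
    rfl (fun _ => rfl) s6_pm_123

noncomputable def f_pm_133 : ℕ → ℕ → ℕ → ℕ → Bool := onCell 536870912 536870912 0 1230186008 923417968 42949674
    (rowB 3 eng mog cd0q1 cd2q3 pd3 0 false true false .dn 1 3 3 (qsf 536870912 536870912 0 1230186008 3) ndB0q1 ndB2q3 pcB3 Cut.none Ext.none)

def k0_pm_133 : ∃ t, chk3 f_pm_133 t 1 1 1 = true :=
  ⟨(b (b (a (a (a (b (l 16618624) (l 1)) (l 1)) (l 1)) (l 1)) (l 1)) (l 1)), by decide +kernel⟩

theorem c_pm_133 : CertB 536870912 536870912 0 1230186008 923417968 42949674 3 eng mog cd0q1 cd2q3 pd3 false true false .dn 1 3 3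
    ndB0q1 ndB2q3 pcB3 Cut.none Ext.none :=
  certB0 (fam := false) (s1 := true) (s2 := false) (a := 1) (b := 3) (c := 3) (cn := .dn) (n1 := ndB0q1) (n2 := ndB2q3) (pc := pcB3) (cut := Cut.none) (xt := Ext.none) (P1 := 536870912) (W1 := 536870912) (P2 := 0) (W2 := 1230186008) (P3 := 923417968) (W3 := 42949674) (N0 := 3) (En := eng) (mo := mog) (C1 := cd0q1) (C2 := cd2q3) (C3 := pd3)
    rfl k0_pm_133

noncomputable def f_pm_202 : ℕ → ℕ → ℕ → ℕ → Bool := onCell 0 536870912 0 536870912 923417968 42949674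
    (rowB 3 eng mog cd0q2 cd2q2 pd0 1 false true false .pp 2 0 2 (qsf 0 536870912 1073741824 536870912 0) ndB0q2 ndB2q2 pcB0 Cut.none Ext.none)

def k0_pm_202 : ∃ t, chk3 f_pm_202 t 2 1 1 = true :=
  ⟨(l 3), by decide +kernel⟩

def k1_pm_202 : ∃ t, chk3 f_pm_202 t 6 1 1 = true :=
  ⟨(b (b (b (a (l 3) (l 3)) (l 3)) (l 3)) (l 3)), by decide +kernel⟩

def k2_pm_202 : ∃ t, chk3 f_pm_202 t 28 8 2 = true :=
  ⟨(b (a (b (a (a (b (c (b (a (b (l 109151920423) (l 16458080)) (b (l 16464304) (a (l 16461480) (l 16464216)))) (b (l 16460272) (l 16460376))) (b (a (b (l 107541261863) (l 16428072)) (b (l 16435176) (l 16433384))) (l 103246301223))) (b (a (l 3) (l 16446456)) (l 16443840))) (b (b (b (l 16463176) (l 16441808)) (b (a (b (l 16453616) (l 16453008)) (l 16462016)) (a (l 16452392) (a (l 16456896) (l 16461360))))) (b (a (l 16451480) (l 16457248)) (l 16453400)))) (b (b (l 16488776) (l 16483416)) (a (b (b (l 16469344) (l 16466888)) (l 16443952)) (l 16484136)))) (b (a (b (l 129016100199) (l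 16427256)) (b (a (l 16463008) (l 16475704)) (l 16468352))) (a (l 125794883767) (l 16466984)))) (b (b (l 16479904) (l 16448896)) (a (b (c (l 16515024) (l 16484560)) (a (l 16483560) (l 16498184))) (l 16514832)))) (b (b (a (a (l 16449224) (l 16466976)) (a (l 16487424) (l 16516288))) (a (l 142974819639) (a (l 16485920) (l 16509056)))) (a (a (l 16453328) (l 16469504)) (b (l 16496176) (l 16496080))))), by decide +kernel⟩

def k3_pm_202 : ∃ t, chk3 f_pm_202 t 28 8 3 = true :=
  ⟨(b (b (a (a (b (b (c (a (a (b (l 16408328) (l 16396592)) (b (l 16404624) (l 16402192))) (l 16417120)) (a (a (l 113983625783) (b (l 16372664) (l 16369544))) (l 16385728))) (a (c (l 16397720) (l 16364160)) (a (b (l 16410248) (l 16388456)) (b (l 16400216) (l 16395640))))) (b (a (l 105930597639) (b (l 16411264) (l 16388480))) (a (l 16377192) (l 16387000)))) (b (b (l 16432528) (l 16424032)) (a (b (a (l 16420480) (l 16409840)) (l 16377808)) (l 16421352)))) (b (l 16409008) (l 16413784))) (a (b (a (b (l 16408024) (l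 16379184)) (b (a (l 16395176) (l 16408600)) (l 16399232))) (a (l 16358312) (l 16396056))) (a (a (b (l 16424808) (l 16412576)) (b (l 16447504) (l 16428656))) (l 16473272)))) (a (b (b (a (l 16376360) (l 16393968)) (l 130626618631)) (a (l 16354664) (l 16371064))) (b (b (a (l 16413704) (l 16444936)) (a (l 16410032) (l 16433168))) (b (l 16417920) (l 16415984))))), by decide +kernel⟩

def k4_pm_202 : ∃ t, chk3 f_pm_202 t 29 8 1 = true :=
  ⟨(a (b (b (b (l 16499704) (l 16488536)) (c (l 16516112) (l 16462208))) (b (b (l 16404480) (l 16388312)) (a (c (l 16447536) (l 16368776)) (b (l 16479656) (l 16440904))))) (b (b (l 16572656) (l 16543984)) (b (l 16516000) (l 16442104)))), by decide +kernel⟩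

def k5_pm_202 : ∃ t, chk3 f_pm_202 t 15 8 1 = true :=
  ⟨(a (a (b (b (l 16510088) (l 16527896)) (b (l 16530424) (l 16536976))) (b (b (b (l 16549712) (l 16545592)) (l 16497960)) (b (l 16496024) (l 16456864)))) (b (b (b (a (b (l 16477896) (l 16456368)) (a (b (l 16406152) (l 16408656)) (c (l 16372424) (l 16347896)))) (a (a (l 16492448) (l 16432568)) (a (b (l 16410656) (l 16413520)) (l 16364464)))) (a (l 16443520) (c (b (a (l 16413472) (l 16377496)) (l 16384888)) (b (l 16359424) (l 16374776))))) (b (a (l 16457792) (l 16353824)) (a (l 16456520) (l 16369192))))), by decide +kernel⟩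

def k6_pm_202 : ∃ t, chk3 f_pm_202 t 7 9 1 = true :=
  ⟨(b (a (a (c (a (b (l 95730007255) (l 16428216)) (b (l 16497384) (l 16499904))) (a (b (a (l 3) (l 16371488)) (l 119352179527)) (b (l 16414832) (l 16414096)))) (b (a (a (l 16378416) (a (l 16395264) (l 16368176))) (b (l 16458104) (l 16397536))) (a (c (l 16533536) (l 16445904)) (b (b (l 16385184) (l 16399400)) (l 16370248))))) (a (b (a (l 16546408) (l 16442136)) (b (a (l 16577008) (l 16471696)) (l 16398016))) (a (b (l 16459288) (b (l 16424728) (l 16457808))) (b (l 16368208) (b (l 16374248) (l 16388112)))))) (a (a (c (a (b (l 16453248) (l 16476840)) (b (l 16502416) (l 16503960))) (a (b (l 119352180119) (l 16321280)) (b (l 16413368) (l 16411704)))) (b (a (l 16363960) (a (l 16431936) (l 16392096))) (a (l 16362360) (l 16395968)))) (a (b (b (l 16406256) (l 16370944)) (a (l 16364736) (l 16509152))) (b (b (a (l 16468504) (l 16400472)) (l 16245760)) (b (l 16275936) (l 16284048)))))), by decide +kernel⟩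

def k7_pm_202 : ∃ t, chk3 f_pm_202 t 7 5 1 = true :=
  ⟨(b (a (a (a (b (c (l 123647254359) (b (l 16317936) (l 3))) (l 3)) (b (b (c (l 16503608) (l 16408152)) (c (l 16479688) (l 16401984))) (c (c (l 16516704) (l 16468736)) (b (l 16394176) (l 16385616))))) (b (c (l 16399616) (b (l 16409168) (l 16402376))) (c (l 16388936) (a (l 16395624) (l 16447224))))) (b (a (a (b (l 16367968) (l 16484824)) (a (l 16364024) (l 16397144))) (b (b (l 16291096) (l 16276160)) (a (l 16469696) (l 16369848)))) (a (a (l 16368064) (b (l 16352448) (l 16548512))) (a (c (l 16489992) (l 16543384)) (l 16208232))))) (c (a (b (a (a (l 3) (l 16396392)) (l 16395064)) (a (l 132237056471) (l 16397704))) (a (b (l 16529784) (l 16504208)) (b (a (l 16471296) (l 16413904)) (a (l 16445720) (l 16398224))))) (a (a (a (l 3) (b (l 16287504) (l 16288112))) (b (l 16244424) (l 16264328))) (a (b (l 16415848) (l 16411528)) (b (a (l 16543992) (l 16510704)) (l 16336136)))))), by decide +kernel⟩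

def k8_pm_202 : ∃ t, chk3 f_pm_202 t 7 3 1 = true :=
  ⟨(b (b (c (a (a (b (a (l 3) (l 16362504)) (l 142437548567)) (b (l 16376480) (l 16354408))) (a (b (l 16481400) (l 16459952)) (b (l 16395600) (l 16370144)))) (a (a (b (l 137605527943) (l 144584844087)) (b (l 16240560) (l 16217360))) (a (b (l 16405120) (l 16398336)) (b (l 16498008) (l 16463256))))) (a (a (l 3) (b (c (l 16355368) (l 16198032)) (c (l 16359888) (l 16205120)))) (a (b (c (l 16437872) (l 16372768)) (c (l 16413992) (l 16350896))) (b (l 16144664) (l 16159128))))) (a (a (l 3) (b (b (c (l 16390008) (l 16218912)) (c (l 16403464) (l 16218320))) (b (c (l 16395800) (l 16260784)) (l 2)))) (b (a (b (l 16180056) (l 16122888)) (b (l 16171296) (l 16159864))) (a (b (l 16149936) (l 16108592)) (c (l 16219392) (l 16303280)))))), by decide +kernel⟩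

theorem s9_pm_202 : ∃ t, chk3 f_pm_202 t 28 8 1 = true := ex3_c k2_pm_202 k3_pm_202

theorem s10_pm_202 : ∃ t, chk3 f_pm_202 t 14 8 1 = true := ex3_a s9_pm_202 k4_pm_202

theorem s11_pm_202 : ∃ t, chk3 f_pm_202 t 7 8 1 = true := ex3_a s10_pm_202 k5_pm_202

theorem s12_pm_202 : ∃ t, chk3 f_pm_202 t 7 4 1 = true := ex3_b s11_pm_202 k6_pm_202

theorem s13_pm_202 : ∃ t, chk3 f_pm_202 t 7 2 1 = true := ex3_b s12_pm_202 k7_pm_202

theorem s14_pm_202 : ∃ t, chk3 f_pm_202 t 7 1 1 = true := ex3_b s13_pm_202 k8_pm_202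

theorem s15_pm_202 : ∃ t, chk3 f_pm_202 t 3 1 1 = true := ex3_a k1_pm_202 s14_pm_202

theorem s16_pm_202 : ∃ t, chk3 f_pm_202 t 1 1 1 = true := ex3_a k0_pm_202 s15_pm_202

theorem c_pm_202 : CertB 0 536870912 1073741824 536870912 923417968 42949674 3 eng mog cd0q2 cd2q2 pd0 false true false .pp 2 0 2
    ndB0q2 ndB2q2 pcB0 Cut.none Ext.none :=
  certB1 (fam := false) (s1 := true) (s2 := false) (a := 2) (b := 0) (c := 2) (cn := .pp) (n1 := ndB0q2) (n2 := ndB2q2) (pc := pcB0) (cut := Cut.none) (xt := Ext.none) (P1 := 0) (W1 := 536870912) (P2 := 1073741824) (W2 := 536870912) (P3 := 923417968) (W3 := 42949674) (N0 := 3) (En := eng) (mo := mog) (C1 := cd0q2) (C2 := cd2q2) (C3 := pd0)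
    rfl (fun _ => rfl) s16_pm_202

noncomputable def f_pm_203 : ℕ → ℕ → ℕ → ℕ → Bool := onCell 0 536870912 0 1230186008 923417968 42949674
    (rowB 3 eng mog cd0q2 cd2q3 pd0 0 false true false .up 2 0 3 (qsf 0 536870912 0 1230186008 0) ndB0q2 ndB2q3 pcB0 Cut.none Ext.none)

def k0_pm_203 : ∃ t, chk3 f_pm_203 t 1 1 1 = true :=
  ⟨(b (l 2) (b (l 2) (a (l 3) (b (l 2) (a (l 3) (a (a (l 3) (b (l 2) (b (b (l 16244360) (l 16340888)) (a (l 164985817815) (l 16362232))))) (b (l 2) (b (a (l 16231920) (l 2)) (a (c (l 16209184) (l 16143440)) (l 16063368)))))))))), by decide +kernel⟩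

theorem c_pm_203 : CertB 0 536870912 0 1230186008 923417968 42949674 3 eng mog cd0q2 cd2q3 pd0 false true false .up 2 0 3
    ndB0q2 ndB2q3 pcB0 Cut.none Ext.none :=
  certB0 (fam := false) (s1 := true) (s2 := false) (a := 2) (b := 0) (c := 3) (cn := .up) (n1 := ndB0q2) (n2 := ndB2q3) (pc := pcB0) (cut := Cut.none) (xt := Ext.none) (P1 := 0) (W1 := 536870912) (P2 := 0) (W2 := 1230186008) (P3 := 923417968) (W3 := 42949674) (N0 := 3) (En := eng) (mo := mog) (C1 := cd0q2) (C2 := cd2q3) (C3 := pd0)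
    rfl k0_pm_203

noncomputable def cut_pm_213 : Cut := Cut.of [[⟨0, 1, 0, 67108864⟩, ⟨1, 1, 0, 67108864⟩, ⟨2, 2, 0, 16252928⟩]]

noncomputable def f_pm_213 : ℕ → ℕ → ℕ → ℕ → Bool := onCell 0 536870912 0 1230186008 923417968 42949674
    (rowB 3 eng mog cd0q2 cd2q3 pd1 0 false true false .pnn 2 1 3 (qsf 0 536870912 0 1230186008 1) ndB0q2 ndB2q3 pcB1 cut_pm_213 Ext.none)

def k0_pm_213 : ∃ t, chk3 f_pm_213 t 2 1 1 = true :=
  ⟨(b (l 3) (l 3)), by decide +kernel⟩

def k1_pm_213 : ∃ t, chk3 f_pm_213 t 6 1 1 = true :=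
  ⟨(b (l 3) (b (l 3) (l 3))), by decide +kernel⟩

def k2_pm_213 : ∃ t, chk3 f_pm_213 t 14 1 1 = true :=
  ⟨(b (b (l 3) (l 3)) (b (b (l 3) (l 3)) (a (b (l 3) (l 3)) (b (b (l 3) (b (l 3) (c (l 122036689095) (l 127942156263)))) (b (a (l 3) (b (b (l 16187368) (l 16192728)) (c (l 16229088) (l 16173064)))) (b (a (l 3) (b (l 16215696) (l 16259672))) (l 1))))))), by decide +kernel⟩

def k3_pm_213 : ∃ t, chk3 f_pm_213 t 15 4 1 = true :=
  ⟨(a (l 3) (b (l 6) (a (b (l 3) (a (l 3) (b (l 3) (a (l 3) (a (l 3) (b (b (c (l 407652791399) (l 397452213463)) (c (l 342154520023) (a (l 3) (l 336248942695)))) (b (c (l 331417102535) (a (l 391546654647) (l 290078043623))) (c (l 289541182231) (a (l 333027716279) (l 16770664)))))))))) (b (b (l 6) (b (l 6) (b (l 6) (b (l 6) (a (a (a (l 3) (c (a (l 342691410727) (l 16775152)) (a (l 344838877143) (l 16771584)))) (c (l 16773104) (l 16768912))) (l 16744088)))))) (a (b (a (b (a (b (l 3) (c (l 397452233031) (b (l 393694128983) (l 349133848391)))) (c (a (b (l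 327659020519) (l 16764896)) (l 16764272)) (b (a (c (l 329806498215) (l 297594240503)) (l 16771000)) (a (l 233169733783) (l 16770280))))) (a (c (a (b (l 407115920279) (l 365776853463)) (b (l 324974665079) (l 16775672))) (a (b (l 397989106359) (l 351818197303)) (b (c (l 326585271367) (l 294373013127)) (l 16760392)))) (c (l 16764248) (b (l 16770096) (l 16769488))))) (b (c (l 16772816) (a (l 16769080) (l 16766992))) (c (l 16772608) (l 16766888)))) (a (b (c (a (b (l 234243478839) (l 16775848)) (l 16774632)) (a (b (a (l 292762399735) (l 16770296)) (l 16759744)) (l 16768704))) (c (l 16775432) (a (l 16769616) (l 16767984)))) (c (l 16762384) (b (l 16766016) (l 16765480))))) (b (a (b (l 16766696) (l 16766296)) (l 16741608)) (b (l 16743560) (l 16743960)))))))), by decide +kernel⟩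

def k4_pm_213 : ∃ t, chk3 f_pm_213 t 30 10 1 = true :=
  ⟨(l 3), by decide +kernel⟩

def k5_pm_213 : ∃ t, chk3 f_pm_213 t 31 20 1 = true :=
  ⟨(a (a (l 3) (b (a (l 3) (b (a (c (l 396915360583) (b (l 391009762695) (l 336248930311))) (c (b (l 16766712) (l 16777520)) (a (b (l 283635592983) (l 16770992)) (l 16749336)))) (c (a (b (l 285783087895) (l 272361316503)) (l 16778200)) (a (b (a (l 388862291303) (l 16761112)) (l 265918850519)) (l 16770616))))) (a (b (a (l 3) (c (l 326585292455) (b (l 411410881239) (l 280951230135)))) (a (l 3) (c (l 214379258887) (b (l 236927824151) (l 16774840))))) (b (b (c (l 16758560) (l 180019500343)) (c (l 16780376) (l 16771944))) (c (l 16781960) (l 16772816)))))) (c (b (a (b (a (l 16776016) (l 16774056)) (l 16755288)) (l 16771528)) (a (b (l 16777984) (l 16780344)) (l 16776128))) (b (a (a (b (l 16768440) (l 16768536)) (l 16765400)) (l 16760768)) (a (a (l 16748712) (l 16767152)) (l 16763232))))), by decide +kernel⟩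

def k6_pm_213 : ∃ t, chk3 f_pm_213 t 31 21 1 = true :=
  ⟨(a (a (a (l 3) (b (b (l 3) (c (l 273435067431) (c (l 271824462983) (l 270750712311)))) (b (a (l 3) (c (c (l 16785512) (l 160692188311)) (c (l 159081566183) (b (l 155323463111) (l 158544692503))))) (c (b (a (l 3) (l 163376553911)) (c (l 161765956487) (l 161229076599))) (a (a (l 3) (b (l 3) (b (l 3) (c (l 156397237095) (c (l 154786621303) (l 153175994839)))))) (c (b (l 16785704) (l 16783560)) (a (b (l 158007827623) (b (l 16783016) (l 16784552))) (b (l 16785600) (l 16788400))))))))) (c (b (a (b (a (l 217600488151) (l 16785320)) (a (l 93046442887) (l 16788920))) (b (l 16784760) (l 16788472))) (b (a (a (l 16772872) (l 16793608)) (l 16793240)) (c (l 16802376) (l 16775584)))) (b (a (b (a (b (l 276119418759) (l 159081547719)) (l 118279351975)) (a (c (l 16782256) (l 79087782999)) (l 16779000))) (b (l 16774680) (l 16777456))) (b (a (c (l 16785984) (a (l 16781168) (l 16779960))) (l 16781296)) (a (c (l 16791288) (l 16774936)) (l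 16786384)))))) (b (a (c (l 16764320) (l 16751728)) (l 16754976)) (a (c (l 16774312) (l 16759728)) (l 16743624)))), by decide +kernel⟩

def k7_pm_213 : ∃ t, chk3 f_pm_213 t 30 22 1 = true :=
  ⟨(l 3), by decide +kernel⟩

def k8_pm_213 : ∃ t, chk3 f_pm_213 t 62 44 1 = true :=
  ⟨(a (a (a (l 3) (a (l 3) (b (l 3) (a (l 3) (b (l 3) (c (b (l 183777596007) (l 152102200999)) (c (b (l 149417857431) (l 150491587751)) (b (b (l 3) (c (l 153712806439) (l 147807220871))) (c (l 149417833671) (b (l 149417827415) (l 149417821111))))))))))) (b (b (c (c (l 161229077895) (a (l 158007843671) (l 16796464))) (a (a (l 3) (b (c (l 158007844199) (a (l 3) (c (l 16789728) (l 157470961383)))) (c (l 158544705655) (c (l 156934095143) (a (l 153712854327) (l 16781544)))))) (b (c (l 16793264) (b (l 16783680) (l 16786280))) (c (l 16788320) (l 16782248))))) (a (c (c (l 159618469575) (l 157470955351)) (b (c (l 156397210487) (c (l 154786598983) (a (l 149954749655) (b (l 157470950071) (l 139217333335))))) (c (l 155860328967)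 (c (l 154249708839) (a (b (l 150491606887) (l 151028472023)) (l 16771576)))))) (c (l 16769312) (a (c (l 16780832) (l 16763744)) (l 16766592))))) (c (c (b (l 157470967655) (l 16774600)) (a (b (l 155860322311) (l 74792814023)) (l 16772072))) (c (c (a (b (l 154786590135) (l 16761064)) (l 16766248)) (b (b (l 155323455799) (l 154249702359)) (b (l 114521243159) (l 16753744)))) (b (a (c (b (l 154249697447) (l 153712814951)) (c (b (l 153712831575) (l 153712819479)) (a (b (l 151565342791) (l 152102201255)) (l 16760320)))) (l 16762280)) (c (a (b (l 124184913159) (l 16749920)) (l 16752136)) (a (a (b (b (l 153175936151) (l 16750848)) (l 16745968)) (l 16748664)) (l 16747800)))))))) (c (b (a (b (l 16798944) (l 16790080)) (l 16794224)) (a (l 16754896) (l 16775712))) (b (a (c (l 16763656) (a (l 16757312) (l 16777072))) (l 16779232)) (a (b (l 16764768) (l 16753056)) (l 16757176))))), by decide +kernel⟩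

def k9_pm_213 : ∃ t, chk3 f_pm_213 t 62 90 1 = true :=
  ⟨(a (a (a (l 3) (b (a (l 3) (b (c (c (l 16766520) (l 16755976)) (c (l 149417834375) (c (l 148344079751) (b (l 147807201463) (l 148344066823))))) (c (b (l 150491570071) (l 149954693095)) (c (l 149417808231) (c (l 148344066967) (b (l 148344060359) (l 148880917159))))))) (b (c (c (l 149954708327) (l 148344081335)) (c (a (l 145659710727) (l 16737840)) (c (l 146196567575) (a (l 166597653079) (l 148880901543))))) (c (c (l 16744880) (l 147270327431)) (c (a (l 145122813367) (l 16731296)) (c (l 145659687127) (a (l 144049060535) (l 16718808)))))))) (c (b (c (l 16764416) (l 16755744)) (c (l 16753680) (l 16744056))) (c (b (b (l 16739352) (l 16743664)) (l 16723616)) (a (b (a (b (l 16741528) (l 16734832)) (l 16737728)) (l 16703272)) (l 16709296))))) (b (c (l 16760504) (l 16718968)) (c (l 16749576) (l 16727008)))), by decide +kernel⟩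

def k10_pm_213 : ∃ t, chk3 f_pm_213 t 62 91 1 = true :=
  ⟨(a (c (c (a (b (b (b (l 148344059751) (l 147807186407)) (l 146733442679)) (b (l 145122833271) (a (l 145659706455) (l 16741200)))) (b (b (l 16725216) (l 16744672)) (l 16721864))) (a (b (b (b (a (l 3) (l 146196567655)) (l 146196554551)) (a (l 145659681271) (l 127406080631))) (b (a (l 145122807511) (l 16722040)) (c (l 144049068103) (l 143512187111)))) (b (b (l 16714920) (l 16734200)) (l 16711160)))) (b (a (a (b (l 3) (b (l 3) (c (l 142975306359) (c (l 141901570375) (l 140827818263))))) (b (c (b (c (l 145659688167) (l 145659680727)) (l 145659672391)) (b (b (a (l 144049043783) (l 16716840)) (a (c (l 144585923511) (l 144049040967)) (l 16715232))) (c (l 145122792583) (l 145122780439)))) (c (c (l 16715888) (l 125795450327)) (a (c (l 132237888503) (b (l 144585908887) (l 16710480))) (l 16713168))))) (b (c (l 16714752) (a (l 16714648) (l 16713816))) (c (l 16723368) (l 16712192)))) (a (a (a (l 3) (c (c (b (l 143512195767) (l 142975322407))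 (b (l 142438445127) (l 142438440583))) (c (b (l 141901567863) (l 141901557287)) (c (b (l 141364689127) (l 141901552327)) (b (l 140827812967) (l 141364675607)))))) (c (a (b (b (l 16701736) (l 16700936)) (l 16720704)) (l 16710888)) (b (a (c (l 16714472) (l 16705216)) (l 16711448)) (c (l 16712608) (l 16707144))))) (c (l 16721064) (l 16709640))))) (c (b (a (l 16740968) (l 16741480)) (l 16738672)) (b (a (l 16696696) (l 16716440)) (l 16713816)))), by decide +kernel⟩

def k11_pm_213 : ∃ t, chk3 f_pm_213 t 63 22 1 = true :=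
  ⟨(c (b (b (l 16772264) (l 16754328)) (b (l 16734400) (a (l 16741040) (l 16741472)))) (b (a (b (l 16776328) (l 16754536)) (l 16762184)) (b (l 16687080) (a (l 16713136) (l 16710536))))), by decide +kernel⟩

def k12_pm_213 : ∃ t, chk3 f_pm_213 t 60 23 1 = true :=
  ⟨(l 3), by decide +kernel⟩

def k13_pm_213 : ∃ t, chk3 f_pm_213 t 122 23 1 = true :=
  ⟨(l 3), by decide +kernel⟩

def k14_pm_213 : ∃ t, chk3 f_pm_213 t 246 23 1 = true :=
  ⟨(l 3), by decide +kernel⟩

def k15_pm_213 : ∃ t, chk3 f_pm_213 t 494 23 1 = true :=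
  ⟨(b (l 3) (b (l 3) (a (a (l 3) (b (l 3) (b (l 3) (b (l 3) (c (c (l 137069713687) (l 138680270855)) (c (l 175724239063) (l 16462920))))))) (c (c (c (b (b (l 138680352183) (l 135995994087)) (b (l 132774763751) (l 16706072))) (b (b (l 138143469303) (l 135459110103)) (b (l 132237880615) (l 114521136519)))) (c (b (b (l 137606593479) (l 134922227591)) (b (l 131700983239) (l 128479727335))) (b (b (l 136532826183) (l 133848433639)) (b (l 131164077143) (l 129016591351))))) (b (c (c (b (l 161228780759) (l 132774655527)) (b (l 192904058311) (l 130627066615))) (b (c (l 203104568295) (l 233169234999)) (l 129016352743))) (c (b (c (l 130090265975) (l 128479549591)) (b (l 127405877703) (l 16605680))) (b (l 127405707751) (l 16467472)))))))), by decide +kernel⟩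

def k16_pm_213 : ∃ t, chk3 f_pm_213 t 495 46 1 = true :=
  ⟨(a (l 3) (b (l 3) (b (a (l 3) (b (l 3) (c (c (l 140827849047) (c (l 140290967543) (l 139754087511))) (c (c (l 139217204215) (l 138680321751)) (c (l 141901494935) (l 158544433671)))))) (c (c (b (l 139754102855) (a (l 139217228919) (l 16707480))) (b (b (l 139217212055) (l 138680339143)) (c (l 137606608263) (l 137606594999)))) (b (c (c (l 138680328935) (a (l 138680304359) (l 135459066407))) (b (c (l 137069654951) (l 134922071975)) (c (l 137069653655) (l 134385182967)))) (c (c (l 137606583527) (b (l 136532788583) (l 135995916631))) (c (b (l 135995894327) (l 135459005095)) (l 133848294583)))))))), by decide +kernel⟩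

def k17_pm_213 : ∃ t, chk3 f_pm_213 t 495 47 1 = true :=
  ⟨(b (c (c (b (b (a (l 140827837655) (l 117742388551)) (b (l 136532867351) (l 135459123575))) (b (c (l 134922262727) (l 134385380487)) (b (l 132774763431) (l 131701019943)))) (c (b (b (l 137606602055) (l 135995985879)) (b (l 134385368679) (l 132774752103))) (b (b (l 137606587415) (a (l 137606594087) (l 16711664))) (a (b (l 135995970471) (l 133848479191)) (b (l 16709872) (l 16708064)))))) (c (a (c (b (b (l 138680328775) (l 136532796695)) (b (l 134385304375) (l 132774689623))) (b (b (l 149954534119) (l 135995912663)) (b (l 133848405463) (l 131700885863)))) (b (b (c (l 122574194343) (l 134922173335)) (b (l 16679808) (l 16675512))) (b (a (l 16681408) (l 16662560)) (l 16643144)))) (b (c (a (b (l 183777288071) (l 133848330391)) (b (l 134385244807) (l 16594984))) (b (l 132774511271) (l 131163865047))) (b (c (l 131163940567) (l 130090089111)) (c (l 129553293335) (l 16505192)))))) (c (b (c (b (b (l 16709952) (l 16719608)) (a (l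 16717992) (l 16718680))) (b (a (c (l 16711464) (l 16702984)) (l 16709096)) (b (l 16686552) (l 16706592)))) (c (b (l 16716632) (l 16714904)) (b (l 16681944) (l 16676632)))) (b (b (c (a (c (l 16669512) (l 16594664)) (l 16625152)) (b (l 16540928) (l 16511968))) (c (b (l 16652136) (l 16601536)) (l 16521096))) (c (a (b (l 16608144) (l 16570520)) (l 16581736)) (b (l 16484648) (l 16469496)))))), by decide +kernel⟩

def k18_pm_213 : ∃ t, chk3 f_pm_213 t 62 92 1 = true :=
  ⟨(c (c (a (a (a (b (b (l 144585961255) (l 142975345111)) (b (l 141901599831) (l 140290983927))) (b (l 16728728) (l 16715552))) (c (l 16720768) (l 16715272))) (l 16741168)) (a (b (a (b (c (l 142975335863) (l 142438457367)) (c (l 141901591783) (l 141364713143))) (l 16729328)) (a (b (c (l 140827847655) (l 140827839783)) (a (c (l 140290973191) (l 140290965399)) (l 16725144))) (l 16726440))) (l 16728656))) (a (a (b (a (a (b (l 3) (a (l 3) (c (c (l 141364704567) (l 140827820311)) (c (l 140290937879) (b (l 142975239991) (l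 138680271383)))))) (c (b (c (l 142438448983) (l 142438436631)) (b (l 130090401863) (l 16711864))) (b (b (c (l 142438426311) (l 141364647591)) (c (l 142438424567) (l 140827757495))) (b (c (l 16709968) (l 141364627383)) (c (l 16709080) (l 16689080)))))) (c (c (l 16699936) (l 16715496)) (a (b (l 16708288) (l 16706496)) (l 16707040)))) (c (c (a (b (l 140827827767) (l 140290952871)) (l 16717688)) (a (a (b (l 140827816263) (l 140290941559)) (b (l 16713152) (l 16711416))) (l 16712112))) (b (c (a (b (l 140827813223) (l 140290924135)) (l 16707368)) (a (b (l 139217137015) (l 138680267367)) (l 16681544))) (a (b (c (l 139217162151) (l 139217139239)) (c (l 138680274023) (l 138680267175))) (l 16693688))))) (b (c (l 16717944) (l 16706192)) (b (l 16709616) (l 16707912)))) (b (l 16710720) (l 16707552)))), by decide +kernel⟩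

def k19_pm_213 : ∃ t, chk3 f_pm_213 t 62 93 1 = true :=
  ⟨(c (a (b (a (c (a (b (l 138680367655) (l 16721608)) (l 16712784)) (a (c (b (l 16715288) (l 16703240)) (b (l 139217220343) (l 16697888))) (l 16722808))) (l 16708384)) (a (c (a (b (l 16709648) (l 16708160)) (l 16730904)) (a (a (b (l 16719784) (l 16718128)) (l 16719232)) (l 16719648))) (l 16726464))) (b (l 16731208) (l 16728568))) (a (b (a (c (a (c (b (l 139217206999) (l 16713424)) (a (b (l 139217195863) (l 16702688)) (l 16708752))) (l 16711520)) (a (b (b (c (l 138680273223) (l 138143381703)) (c (l 138143401223) (l 137606491815))) (a (a (c (l 138143398567) (l 16653256)) (l 16674968)) (l 16646736))) (l 16663296))) (a (l 16684472) (l 16705128))) (a (c (a (b (b (l 16688376) (l 16708456)) (a (l 16686104) (l 16707112))) (l 16708032)) (a (b (c (l 16655832) (l 16595744)) (b (l 16611816) (l 16602664))) (l 16624264))) (a (l 16696360) (l 16701616)))) (b (l 16704296) (l 16700952)))), by decide +kernel⟩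

def k20_pm_213 : ∃ t, chk3 f_pm_213 t 63 46 1 = true :=
  ⟨(b (c (l 16716288) (a (l 16707168) (l 16705216))) (c (l 16733112) (l 16679576))), by decide +kernel⟩

def k21_pm_213 : ∃ t, chk3 f_pm_213 t 31 47 1 = true :=
  ⟨(a (b (c (a (a (b (c (b (l 16707208) (l 16726664)) (b (l 16706440) (l 16715256))) (a (c (l 16723720) (l 16712320)) (l 16719032))) (b (l 16723496) (l 16720432))) (b (l 16725840) (l 16723032))) (a (b (a (b (a (c (l 16705272) (l 16589104)) (l 16656368)) (c (l 16692088) (l 16574512))) (l 16660384)) (a (b (c (l 16672592) (l 16556856)) (c (l 16653488) (l 16539576))) (l 16620720))) (b (l 16692360) (l 16648416)))) (c (a (b (a (c (l 16721168) (l 16709200)) (l 16717264)) (a (b (l 16691696) (l 16710928)) (l 16714008))) (c (l 16725832) (l 16711240))) (a (b (a (c (l 16646496) (l 16514312)) (l 16582760)) (a (c (l 16589648) (l 16481944)) (l 16546456))) (c (l 16649720) (l 16523304))))) (c (b (l 16728672) (l 16723928)) (b (l 16694512) (l 16646848)))), by decide +kernel⟩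

def k22_pm_213 : ∃ t, chk3 f_pm_213 t 60 3 1 = true :=
  ⟨(b (b (l 3) (a (b (l 3) (l 3)) (b (b (l 3) (c (b (l 391008892359) (l 107541009623)) (l 508583495351))) (b (c (b (l 16206672) (l 16190320)) (l 16123328)) (c (l 16170264) (l 16102864)))))) (b (b (b (c (l 71570659479) (l 16104104)) (c (l 16152696) (l 16096064))) (b (c (l 16147440) (l 16091768)) (l 16308440))) (b (b (l 16206808) (l 16234896)) (b (c (l 16171424) (l 16108352)) (b (l 16152240) (l 1)))))), by decide +kernel⟩

def k23_pm_213 : ∃ t, chk3 f_pm_213 t 122 12 1 = true :=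
  ⟨(b (b (l 3) (l 3)) (b (a (l 3) (b (c (a (l 3) (b (c (l 250886000151) (l 293835524583)) (c (l 117205091175) (l 16384976)))) (b (l 328195132855) (l 120962918535))) (c (b (c (l 116131299287) (l 116131164391)) (b (l 112910030423) (l 110225652631))) (b (l 117741655223) (l 16270336))))) (c (b (a (l 3) (c (l 103783180407) (l 16317128))) (a (l 317457734999) (l 94656305655))) (b (l 115594121895) (l 110762226231))))), by decide +kernel⟩

def k24_pm_213 : ∃ t, chk3 f_pm_213 t 246 12 1 = true :=
  ⟨(b (b (a (l 3) (b (a (l 3) (a (l 3) (b (l 3) (b (l 3) (c (c (c (l 133311606599) (l 135459046759)) (c (l 152101991287) (l 182166666711))) (c (l 209546991111) (l 16410504))))))) (c (c (c (b (a (l 3) (b (l 130627213447) (l 126332244215))) (a (b (l 152102006103) (l 130090326007)) (b (l 122574146135) (l 16647080)))) (b (a (l 3) (b (l 130090335975) (l 125795340023))) (a (b (l 180556073351) (l 128479622951)) (b (l 121500339223) (l 16601632))))) (b (c (b (l 129553353415) (l 126868925319)) (b (l 127942606103)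 (l 126332021879))) (b (c (l 125258339639) (l 123647636823)) (a (l 126332052135) (l 16534384))))) (b (c (b (l 127405704903) (l 125258191959)) (l 124184302471)) (c (b (l 123110679943) (l 120426297607)) (l 16387480)))))) (b (c (c (a (b (l 3) (b (b (l 206862669271) (l 128479522359)) (b (l 126868895031) (l 125258267863)))) (b (b (c (a (l 125258454871) (l 16630808)) (l 120426527815)) (c (l 118279100663) (l 117205270679))) (b (b (l 16600912) (l 16572440)) (l 16582296)))) (c (b (b (l 124184497239) (l 122036963943)) (a (l 226189946903) (l 16505096))) (b (a (l 3) (l 117742000807)) (l 119352555735)))) (c (b (a (l 3) (l 117205047463)) (l 118815606631)) (c (l 119889240967) (l 120426030743)))) (c (c (b (c (a (b (l 124184578231) (l 120426452647)) (l 16560376)) (b (l 117205176327) (l 114520793895))) (a (b (l 116668330135) (l 112910205079)) (l 16511736))) (b (c (l 115594485591) (l 115057536039)) (a (l 114520692951) (l 16432352)))) (c (b (l 115594331959) (l 16355176)) (l 115057318919))))) (b (b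 (c (b (c (b (l 16511072) (l 16477168)) (l 16407744)) (c (l 16458264) (l 16384848))) (c (b (l 16333664) (l 16313160)) (l 16252104))) (c (b (b (l 16403976) (l 16392704)) (l 16397256)) (b (l 16259616) (l 16242200)))) (b (c (l 16346368) (l 16218280)) (c (l 16310064) (l 16189224))))), by decide +kernel⟩

def k25_pm_213 : ∃ t, chk3 f_pm_213 t 247 12 1 = true :=
  ⟨(b (b (b (c (a (b (b (b (c (a (l 135995969815) (l 16712456)) (c (l 130627209431) (l 129553420423))) (c (c (l 130627269527) (l 130090374375)) (c (l 129553466631) (l 128479661287)))) (c (a (c (l 131701008135) (l 131164098775)) (l 16710176)) (a (c (l 130627206455) (l 129016515031)) (l 16677256)))) (c (b (a (c (l 127942907607) (l 127405985623)) (l 16708320)) (c (l 16698408) (l 123111017911))) (c (b (a (l 126869096151) (l 16643144)) (l 122574094839)) (b (l 124184643783) (l 16576104))))) (b (c (b (l 16713144) (l 16711352)) (b (l 16658576) (l 16640888))) (c (l 16708600) (l 16615000)))) (b (c (c (a (b (l 127405837223) (l 125258321175))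 (l 16572736)) (b (l 124184514503) (l 122573870167))) (b (l 123647547271) (l 122036905927))) (c (a (b (a (l 124184548311) (l 16520552)) (l 120426421287)) (l 16515888)) (a (l 120963136183) (l 16419000))))) (b (c (c (a (b (b (l 16684656) (l 16675920)) (l 16683952)) (l 16679984)) (a (b (b (l 16588072) (l 16580080)) (l 16568248)) (l 16581760))) (c (b (l 16512488) (l 16476968)) (l 16391600))) (c (c (a (b (l 16646032) (l 16629432)) (l 16645104)) (b (l 16555232) (l 16539856))) (c (l 16476680) (l 16366064))))) (b (c (b (c (b (l 16616504) (l 16600352)) (l 16559328)) (c (l 16576736) (l 16488584))) (c (c (l 16478864) (l 16393704)) (l 16371800))) (c (b (b (l 16573536) (l 16517456)) (b (l 16482656) (l 16469128))) (c (l 16365632) (l 16285640))))) (b (b (b (c (l 16491304) (l 16293144)) (c (l 16424024) (l 16272888))) (c (b (l 16399800) (l 16376680)) (l 16244336))) (c (b (l 16345296) (l 16307256)) (l 16194688)))), by decide +kernel⟩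

def k26_pm_213 : ∃ t, chk3 f_pm_213 t 61 13 1 = true :=
  ⟨(b (b (b (c (c (a (l 96803723927) (l 16304824)) (l 91971800647)) (c (l 16195472) (l 16140968))) (c (c (l 82308166375) (l 16223248)) (l 16165744))) (c (b (a (l 16230552) (l 16216040)) (l 16199272)) (b (l 16123888) (l 16105320)))) (b (c (b (l 16177896) (l 16159016)) (l 16081528)) (c (l 16135168) (l 16057288)))), by decide +kernel⟩

def k27_pm_213 : ∃ t, chk3 f_pm_213 t 61 7 1 = true :=
  ⟨(b (b (b (c (l 16111336) (l 16040248)) (c (l 16094928) (l 16028384))) (b (l 16241368) (l 16089320))) (b (b (l 16067112) (l 16090600)) (b (l 16138728) (b (l 16061808) (l 1))))), by decide +kernel⟩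

def k28_pm_213 : ∃ t, chk3 f_pm_213 t 31 3 1 = true :=
  ⟨(c (b (b (b (b (a (b (a (c (b (l 16715992) (l 16712592)) (b (l 16670944) (l 16633560))) (l 16712400)) (a (b (a (l 16683936) (l 16658816)) (a (l 16628104) (l 16621816))) (l 16667408))) (b (l 16718816) (l 16713312))) (a (b (a (a (b (l 16573752) (l 16541808)) (l 16590160)) (l 16589912)) (a (c (l 16546312) (l 16455032)) (l 16519400))) (b (l 16645120) (l 16560344)))) (b (a (b (a (c (l 16486064) (l 16400576)) (l 16455384)) (c (l 16457144) (l 16351760))) (b (l 16483992) (l 16415112))) (a (b (l 16408160) (l 16302296)) (l 16327936)))) (b (b (a (c (l 16279048) (l 16211176)) (l 16232608)) (a (c (l 16210864) (l 16150672)) (l 16154520))) (b (a (l 16128512) (l 16091128)) (a (l 16087480) (l 16040472))))) (b (b (b (a (l 16056520) (l 16001176)) (l 16044424)) (b (l 15983136) (l 15969232))) (b (b (l 15959736) (l 15954560)) (b (l 15994976) (a (l 16003312) (l 15906096)))))) (b (b (b (b (a (a (c (b (b (l 16561080) (l 16527176)) (a (l 16517496)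 (l 16482696))) (b (b (l 16453824) (l 16423376)) (l 16422144))) (b (l 16551808) (l 16440688))) (b (l 16553544) (l 16469808))) (a (b (a (c (l 16419880) (l 16327424)) (l 16378064)) (a (c (l 16366152) (l 16279688)) (l 16321520))) (b (l 16394712) (l 16327456)))) (b (c (a (b (l 16316240) (l 16269880)) (l 16290176)) (a (b (l 16231184) (l 16190552)) (l 16189664))) (a (a (l 16182232) (l 16166568)) (l 16146112)))) (b (b (a (l 16133912) (l 16072664)) (a (l 16063280) (l 16013336))) (b (a (l 16023896) (l 15966048)) (a (l 15993872) (l 15929336))))) (b (b (b (l 15999464) (l 15918584)) (b (l 15904744) (l 15894408))) (b (b (l 15886912) (l 15882840)) (b (l 15881776) (l 16114104)))))), by decide +kernel⟩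

theorem s29_pm_213 : ∃ t, chk3 f_pm_213 t 123 12 1 = true := ex3_a k24_pm_213 k25_pm_213

theorem s30_pm_213 : ∃ t, chk3 f_pm_213 t 61 12 1 = true := ex3_a k23_pm_213 s29_pm_213

theorem s31_pm_213 : ∃ t, chk3 f_pm_213 t 61 6 1 = true := ex3_b s30_pm_213 k26_pm_213

theorem s32_pm_213 : ∃ t, chk3 f_pm_213 t 61 3 1 = true := ex3_b s31_pm_213 k27_pm_213

theorem s33_pm_213 : ∃ t, chk3 f_pm_213 t 30 3 1 = true := ex3_a k22_pm_213 s32_pm_213

theorem s34_pm_213 : ∃ t, chk3 f_pm_213 t 15 3 1 = true := ex3_a s33_pm_213 k28_pm_213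

theorem s35_pm_213 : ∃ t, chk3 f_pm_213 t 62 46 1 = true := ex3_b k18_pm_213 k19_pm_213

theorem s36_pm_213 : ∃ t, chk3 f_pm_213 t 31 46 1 = true := ex3_a s35_pm_213 k20_pm_213

theorem s37_pm_213 : ∃ t, chk3 f_pm_213 t 31 23 1 = true := ex3_b s36_pm_213 k21_pm_213

theorem s38_pm_213 : ∃ t, chk3 f_pm_213 t 495 23 1 = true := ex3_b k16_pm_213 k17_pm_213

theorem s39_pm_213 : ∃ t, chk3 f_pm_213 t 247 23 1 = true := ex3_a k15_pm_213 s38_pm_213

theorem s40_pm_213 : ∃ t, chk3 f_pm_213 t 123 23 1 = true := ex3_a k14_pm_213 s39_pm_213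

theorem s41_pm_213 : ∃ t, chk3 f_pm_213 t 61 23 1 = true := ex3_a k13_pm_213 s40_pm_213

theorem s42_pm_213 : ∃ t, chk3 f_pm_213 t 30 23 1 = true := ex3_a k12_pm_213 s41_pm_213

theorem s43_pm_213 : ∃ t, chk3 f_pm_213 t 15 23 1 = true := ex3_a s42_pm_213 s37_pm_213

theorem s44_pm_213 : ∃ t, chk3 f_pm_213 t 62 45 1 = true := ex3_b k9_pm_213 k10_pm_213

theorem s45_pm_213 : ∃ t, chk3 f_pm_213 t 62 22 1 = true := ex3_b k8_pm_213 s44_pm_213

theorem s46_pm_213 : ∃ t, chk3 f_pm_213 t 31 22 1 = true := ex3_a s45_pm_213 k11_pm_213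

theorem s47_pm_213 : ∃ t, chk3 f_pm_213 t 15 22 1 = true := ex3_a k7_pm_213 s46_pm_213

theorem s48_pm_213 : ∃ t, chk3 f_pm_213 t 15 11 1 = true := ex3_b s47_pm_213 s43_pm_213

theorem s49_pm_213 : ∃ t, chk3 f_pm_213 t 31 10 1 = true := ex3_b k5_pm_213 k6_pm_213

theorem s50_pm_213 : ∃ t, chk3 f_pm_213 t 15 10 1 = true := ex3_a k4_pm_213 s49_pm_213

theorem s51_pm_213 : ∃ t, chk3 f_pm_213 t 15 5 1 = true := ex3_b s50_pm_213 s48_pm_213

theorem s52_pm_213 : ∃ t, chk3 f_pm_213 t 15 2 1 = true := ex3_b k3_pm_213 s51_pm_213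

theorem s53_pm_213 : ∃ t, chk3 f_pm_213 t 15 1 1 = true := ex3_b s52_pm_213 s34_pm_213

theorem s54_pm_213 : ∃ t, chk3 f_pm_213 t 7 1 1 = true := ex3_a k2_pm_213 s53_pm_213

theorem s55_pm_213 : ∃ t, chk3 f_pm_213 t 3 1 1 = true := ex3_a k1_pm_213 s54_pm_213

theorem s56_pm_213 : ∃ t, chk3 f_pm_213 t 1 1 1 = true := ex3_a k0_pm_213 s55_pm_213

theorem c_pm_213 : CertB 0 536870912 0 1230186008 923417968 42949674 3 eng mog cd0q2 cd2q3 pd1 false true false .pnn 2 1 3
    ndB0q2 ndB2q3 pcB1 cut_pm_213 Ext.none :=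
  certB0 (fam := false) (s1 := true) (s2 := false) (a := 2) (b := 1) (c := 3) (cn := .pnn) (n1 := ndB0q2) (n2 := ndB2q3) (pc := pcB1) (cut := cut_pm_213) (xt := Ext.none) (P1 := 0) (W1 := 536870912) (P2 := 0) (W2 := 1230186008) (P3 := 923417968) (W3 := 42949674) (N0 := 3) (En := eng) (mo := mog) (C1 := cd0q2) (C2 := cd2q3) (C3 := pd1)
    rfl s56_pm_213

noncomputable def f_mm_001 : ℕ → ℕ → ℕ → ℕ → Bool := onCell 0 536870912 0 536870912 923417968 42949674
    (rowB 3 eng mog cd0q0 cd2q1 pd0 1 false false false .up 0 0 1 (qsf 0 536870912 536870912 536870912 0) ndB0q0 ndB2q1 pcB0 Cut.none Ext.none)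

def k0_mm_001 : ∃ t, chk3 f_mm_001 t 1 1 1 = true :=
  ⟨(l 3), by decide +kernel⟩

theorem c_mm_001 : CertB 0 536870912 536870912 536870912 923417968 42949674 3 eng mog cd0q0 cd2q1 pd0 false false false .up 0 0 1
    ndB0q0 ndB2q1 pcB0 Cut.none Ext.none :=
  certB1 (fam := false) (s1 := false) (s2 := false) (a := 0) (b := 0) (c := 1) (cn := .up) (n1 := ndB0q0) (n2 := ndB2q1) (pc := pcB0) (cut := Cut.none) (xt := Ext.none) (P1 := 0) (W1 := 536870912) (P2 := 536870912) (W2 := 536870912) (P3 := 923417968) (W3 := 42949674) (N0 := 3) (En := eng) (mo := mog) (C1 := cd0q0) (C2 := cd2q1) (C3 := pd0)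
    rfl (fun _ => rfl) k0_mm_001

noncomputable def f_mm_011 : ℕ → ℕ → ℕ → ℕ → Bool := onCell 0 536870912 536870912 536870912 923417968 42949674
    (rowB 3 eng mog cd0q0 cd2q1 pd1 1 false false false .pnn 0 1 1 (qsf 0 536870912 536870912 536870912 1) ndB0q0 ndB2q1 pcB1 Cut.none Ext.none)

def k0_mm_011 : ∃ t, chk3 f_mm_011 t 1 1 1 = true :=
  ⟨(l 5), by decide +kernel⟩

theorem c_mm_011 : CertB 0 536870912 536870912 536870912 923417968 42949674 3 eng mog cd0q0 cd2q1 pd1 false false false .pnn 0 1 1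
    ndB0q0 ndB2q1 pcB1 Cut.none Ext.none :=
  certB1 (fam := false) (s1 := false) (s2 := false) (a := 0) (b := 1) (c := 1) (cn := .pnn) (n1 := ndB0q0) (n2 := ndB2q1) (pc := pcB1) (cut := Cut.none) (xt := Ext.none) (P1 := 0) (W1 := 536870912) (P2 := 536870912) (W2 := 536870912) (P3 := 923417968) (W3 := 42949674) (N0 := 3) (En := eng) (mo := mog) (C1 := cd0q0) (C2 := cd2q1) (C3 := pd1)
    rfl (fun _ => rfl) k0_mm_011

noncomputable def f_mm_012 : ℕ → ℕ → ℕ → ℕ → Bool := onCell 0 536870912 1073741824 536870912 923417968 42949674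
    (rowB 3 eng mog cd0q0 cd2q2 pd1 0 false false false .pnp 0 1 2 (qsf 0 536870912 1073741824 536870912 1) ndB0q0 ndB2q2 pcB1 Cut.none Ext.none)

def k0_mm_012 : ∃ t, chk3 f_mm_012 t 1 1 1 = true :=
  ⟨(l 5), by decide +kernel⟩

theorem c_mm_012 : CertB 0 536870912 1073741824 536870912 923417968 42949674 3 eng mog cd0q0 cd2q2 pd1 false false false .pnp 0 1 2
    ndB0q0 ndB2q2 pcB1 Cut.none Ext.none :=
  certB0 (fam := false) (s1 := false) (s2 := false) (a := 0) (b := 1) (c := 2) (cn := .pnp) (n1 := ndB0q0) (n2 := ndB2q2) (pc := pcB1) (cut := Cut.none) (xt := Ext.none) (P1 := 0) (W1 := 536870912) (P2 := 1073741824) (W2 := 536870912) (P3 := 923417968) (W3 := 42949674) (N0 := 3) (En := eng) (mo := mog) (C1 := cd0q0) (C2 := cd2q2) (C3 := pd1)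
    rfl k0_mm_012

noncomputable def f_mm_022 : ℕ → ℕ → ℕ → ℕ → Bool := onCell 0 536870912 1073741824 536870912 923417968 42949674
    (rowB 3 eng mog cd0q0 cd2q2 pd2 0 false false false .pp 0 2 2 (qsf 0 536870912 1073741824 536870912 2) ndB0q0 ndB2q2 pcB2 Cut.none Ext.none)

def k0_mm_022 : ∃ t, chk3 f_mm_022 t 1 1 1 = true :=
  ⟨(l 5), by decide +kernel⟩

theorem c_mm_022 : CertB 0 536870912 1073741824 536870912 923417968 42949674 3 eng mog cd0q0 cd2q2 pd2 false false false .pp 0 2 2
    ndB0q0 ndB2q2 pcB2 Cut.none Ext.none :=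
  certB0 (fam := false) (s1 := false) (s2 := false) (a := 0) (b := 2) (c := 2) (cn := .pp) (n1 := ndB0q0) (n2 := ndB2q2) (pc := pcB2) (cut := Cut.none) (xt := Ext.none) (P1 := 0) (W1 := 536870912) (P2 := 1073741824) (W2 := 536870912) (P3 := 923417968) (W3 := 42949674) (N0 := 3) (En := eng) (mo := mog) (C1 := cd0q0) (C2 := cd2q2) (C3 := pd2)
    rfl k0_mm_022

noncomputable def f_mm_023 : ℕ → ℕ → ℕ → ℕ → Bool := onCell 0 536870912 0 1230186008 923417968 42949674
    (rowB 3 eng mog cd0q0 cd2q3 pd2 0 false false false .up 0 2 3 (qsf 0 536870912 0 1230186008 2) ndB0q0 ndB2q3 pcB2 Cut.none Ext.none)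

def k0_mm_023 : ∃ t, chk3 f_mm_023 t 1 1 1 = true :=
  ⟨(l 5), by decide +kernel⟩

theorem c_mm_023 : CertB 0 536870912 0 1230186008 923417968 42949674 3 eng mog cd0q0 cd2q3 pd2 false false false .up 0 2 3
    ndB0q0 ndB2q3 pcB2 Cut.none Ext.none :=
  certB0 (fam := false) (s1 := false) (s2 := false) (a := 0) (b := 2) (c := 3) (cn := .up) (n1 := ndB0q0) (n2 := ndB2q3) (pc := pcB2) (cut := Cut.none) (xt := Ext.none) (P1 := 0) (W1 := 536870912) (P2 := 0) (W2 := 1230186008) (P3 := 923417968) (W3 := 42949674) (N0 := 3) (En := eng) (mo := mog) (C1 := cd0q0) (C2 := cd2q3) (C3 := pd2)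
    rfl k0_mm_023

noncomputable def f_mm_033 : ℕ → ℕ → ℕ → ℕ → Bool := onCell 0 536870912 0 1230186008 923417968 42949674
    (rowB 3 eng mog cd0q0 cd2q3 pd3 0 false false false .pnn 0 3 3 (qsf 0 536870912 0 1230186008 3) ndB0q0 ndB2q3 pcB3 Cut.none Ext.none)

def k0_mm_033 : ∃ t, chk3 f_mm_033 t 1 1 1 = true :=
  ⟨(l 5), by decide +kernel⟩

theorem c_mm_033 : CertB 0 536870912 0 1230186008 923417968 42949674 3 eng mog cd0q0 cd2q3 pd3 false false false .pnn 0 3 3
    ndB0q0 ndB2q3 pcB3 Cut.none Ext.none :=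
  certB0 (fam := false) (s1 := false) (s2 := false) (a := 0) (b := 3) (c := 3) (cn := .pnn) (n1 := ndB0q0) (n2 := ndB2q3) (pc := pcB3) (cut := Cut.none) (xt := Ext.none) (P1 := 0) (W1 := 536870912) (P2 := 0) (W2 := 1230186008) (P3 := 923417968) (W3 := 42949674) (N0 := 3) (En := eng) (mo := mog) (C1 := cd0q0) (C2 := cd2q3) (C3 := pd3)
    rfl k0_mm_033

noncomputable def cut_mm_101 : Cut := Cut.of [[⟨0, 1, 0, 67108864⟩, ⟨1, 0, 0, 67108864⟩, ⟨2, 1, 0, 67108864⟩]]

noncomputable def f_mm_101 : ℕ → ℕ → ℕ → ℕ → Bool := onCell 536870912 536870912 0 536870912 923417968 42949674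
    (rowB 3 eng mog cd0q1 cd2q1 pd0 1 false false false .npn 1 0 1 (qsf 536870912 536870912 536870912 536870912 0) ndB0q1 ndB2q1 pcB0 cut_mm_101 Ext.none)

def k0_mm_101 : ∃ t, chk3 f_mm_101 t 1 1 1 = true :=
  ⟨(a (l 3) (a (l 3) (b (b (a (l 3) (b (b (a (l 3) (l 6)) (l 3)) (l 3))) (l 3)) (l 2)))), by decide +kernel⟩

theorem c_mm_101 : CertB 536870912 536870912 536870912 536870912 923417968 42949674 3 eng mog cd0q1 cd2q1 pd0 false false false .npn 1 0 1
    ndB0q1 ndB2q1 pcB0 cut_mm_101 Ext.none :=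
  certB1 (fam := false) (s1 := false) (s2 := false) (a := 1) (b := 0) (c := 1) (cn := .npn) (n1 := ndB0q1) (n2 := ndB2q1) (pc := pcB0) (cut := cut_mm_101) (xt := Ext.none) (P1 := 536870912) (W1 := 536870912) (P2 := 536870912) (W2 := 536870912) (P3 := 923417968) (W3 := 42949674) (N0 := 3) (En := eng) (mo := mog) (C1 := cd0q1) (C2 := cd2q1) (C3 := pd0)
    rfl (fun _ => rfl) k0_mm_101

noncomputable def f_mm_102 : ℕ → ℕ → ℕ → ℕ → Bool := onCell 536870912 536870912 0 536870912 923417968 42949674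
    (rowB 3 eng mog cd0q1 cd2q2 pd0 1 false false false .npp 1 0 2 (qsf 536870912 536870912 1073741824 536870912 0) ndB0q1 ndB2q2 pcB0 Cut.none Ext.none)

def k0_mm_102 : ∃ t, chk3 f_mm_102 t 1 1 1 = true :=
  ⟨(l 3), by decide +kernel⟩

theorem c_mm_102 : CertB 536870912 536870912 1073741824 536870912 923417968 42949674 3 eng mog cd0q1 cd2q2 pd0 false false false .npp 1 0 2
    ndB0q1 ndB2q2 pcB0 Cut.none Ext.none :=
  certB1 (fam := false) (s1 := false) (s2 := false) (a := 1) (b := 0) (c := 2) (cn := .npp) (n1 := ndB0q1) (n2 := ndB2q2) (pc := pcB0) (cut := Cut.none) (xt := Ext.none) (P1 := 536870912) (W1 := 536870912) (P2 := 1073741824) (W2 := 536870912) (P3 := 923417968) (W3 := 42949674) (N0 := 3) (En := eng) (mo := mog) (C1 := cd0q1) (C2 := cd2q2) (C3 := pd0)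
    rfl (fun _ => rfl) k0_mm_102

noncomputable def f_mm_112 : ℕ → ℕ → ℕ → ℕ → Bool := onCell 536870912 536870912 1073741824 536870912 923417968 42949674
    (rowB 3 eng mog cd0q1 cd2q2 pd1 2 false false false .dn 1 1 2 (qsf 536870912 536870912 1073741824 536870912 1) ndB0q1 ndB2q2 pcB1 Cut.none Ext.none)

def k0_mm_112 : ∃ t, chk3 f_mm_112 t 1 1 1 = true :=
  ⟨(l 5), by decide +kernel⟩

theorem c_mm_112 : CertB 536870912 536870912 1073741824 536870912 923417968 42949674 3 eng mog cd0q1 cd2q2 pd1 false false false .dn 1 1 2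
    ndB0q1 ndB2q2 pcB1 Cut.none Ext.none :=
  certB2 (fam := false) (s1 := false) (s2 := false) (a := 1) (b := 1) (c := 2) (cn := .dn) (n1 := ndB0q1) (n2 := ndB2q2) (pc := pcB1) (cut := Cut.none) (xt := Ext.none) (P1 := 536870912) (W1 := 536870912) (P2 := 1073741824) (W2 := 536870912) (P3 := 923417968) (W3 := 42949674) (N0 := 3) (En := eng) (mo := mog) (C1 := cd0q1) (C2 := cd2q2) (C3 := pd1)
    rfl (fun _ => rfl) k0_mm_112

noncomputable def f_mm_113 : ℕ → ℕ → ℕ → ℕ → Bool := onCell 536870912 536870912 0 1230186008 923417968 42949674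
    (rowB 3 eng mog cd0q1 cd2q3 pd1 0 false false false .nn 1 1 3 (qsf 536870912 536870912 0 1230186008 1) ndB0q1 ndB2q3 pcB1 Cut.none Ext.none)

def k0_mm_113 : ∃ t, chk3 f_mm_113 t 1 1 1 = true :=
  ⟨(b (l 5) (l 5)), by decide +kernel⟩

theorem c_mm_113 : CertB 536870912 536870912 0 1230186008 923417968 42949674 3 eng mog cd0q1 cd2q3 pd1 false false false .nn 1 1 3
    ndB0q1 ndB2q3 pcB1 Cut.none Ext.none :=
  certB0 (fam := false) (s1 := false) (s2 := false) (a := 1) (b := 1) (c := 3) (cn := .nn) (n1 := ndB0q1) (n2 := ndB2q3) (pc := pcB1) (cut := Cut.none) (xt := Ext.none) (P1 := 536870912) (W1 := 536870912) (P2 := 0) (W2 := 1230186008) (P3 := 923417968) (W3 := 42949674) (N0 := 3) (En := eng) (mo := mog) (C1 := cd0q1) (C2 := cd2q3) (C3 := pd1)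
    rfl k0_mm_113

noncomputable def f_mm_123 : ℕ → ℕ → ℕ → ℕ → Bool := onCell 536870912 536870912 0 1230186008 923417968 42949674
    (rowB 3 eng mog cd0q1 cd2q3 pd2 0 false false false .npn 1 2 3 (qsf 536870912 536870912 0 1230186008 2) ndB0q1 ndB2q3 pcB2 Cut.none Ext.none)

def k0_mm_123 : ∃ t, chk3 f_mm_123 t 1 1 1 = true :=
  ⟨(b (l 5) (l 5)), by decide +kernel⟩

theorem c_mm_123 : CertB 536870912 536870912 0 1230186008 923417968 42949674 3 eng mog cd0q1 cd2q3 pd2 false false false .npn 1 2 3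
    ndB0q1 ndB2q3 pcB2 Cut.none Ext.none :=
  certB0 (fam := false) (s1 := false) (s2 := false) (a := 1) (b := 2) (c := 3) (cn := .npn) (n1 := ndB0q1) (n2 := ndB2q3) (pc := pcB2) (cut := Cut.none) (xt := Ext.none) (P1 := 536870912) (W1 := 536870912) (P2 := 0) (W2 := 1230186008) (P3 := 923417968) (W3 := 42949674) (N0 := 3) (En := eng) (mo := mog) (C1 := cd0q1) (C2 := cd2q3) (C3 := pd2)
    rfl k0_mm_123

noncomputable def f_mm_133 : ℕ → ℕ → ℕ → ℕ → Bool := onCell 1610612736 536870912 0 1230186008 923417968 42949674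
    (rowB 3 eng mog cd0q1 cd2q3 pd3 2 false false false .dn 1 3 3 (qsf 536870912 536870912 0 1230186008 3) ndB0q1 ndB2q3 pcB3 Cut.none Ext.none)

def k0_mm_133 : ∃ t, chk3 f_mm_133 t 1 1 1 = true :=
  ⟨(l 5), by decide +kernel⟩

theorem c_mm_133 : CertB 536870912 536870912 0 1230186008 923417968 42949674 3 eng mog cd0q1 cd2q3 pd3 false false false .dn 1 3 3
    ndB0q1 ndB2q3 pcB3 Cut.none Ext.none :=
  certB2 (fam := false) (s1 := false) (s2 := false) (a := 1) (b := 3) (c := 3) (cn := .dn) (n1 := ndB0q1) (n2 := ndB2q3) (pc := pcB3) (cut := Cut.none) (xt := Ext.none) (P1 := 536870912) (W1 := 536870912) (P2 := 0) (W2 := 1230186008) (P3 := 923417968) (W3 := 42949674) (N0 := 3) (En := eng) (mo := mog) (C1 := cd0q1) (C2 := cd2q3) (C3 := pd3)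
    rfl (fun _ => rfl) k0_mm_133

noncomputable def f_mm_202 : ℕ → ℕ → ℕ → ℕ → Bool := onCell 0 536870912 1073741824 536870912 923417968 42949674
    (rowB 3 eng mog cd0q2 cd2q2 pd0 0 false false false .pp 2 0 2 (qsf 0 536870912 1073741824 536870912 0) ndB0q2 ndB2q2 pcB0 Cut.none Ext.none)

def k0_mm_202 : ∃ t, chk3 f_mm_202 t 1 1 1 = true :=
  ⟨(l 3), by decide +kernel⟩

theorem c_mm_202 : CertB 0 536870912 1073741824 536870912 923417968 42949674 3 eng mog cd0q2 cd2q2 pd0 false false false .pp 2 0 2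
    ndB0q2 ndB2q2 pcB0 Cut.none Ext.none :=
  certB0 (fam := false) (s1 := false) (s2 := false) (a := 2) (b := 0) (c := 2) (cn := .pp) (n1 := ndB0q2) (n2 := ndB2q2) (pc := pcB0) (cut := Cut.none) (xt := Ext.none) (P1 := 0) (W1 := 536870912) (P2 := 1073741824) (W2 := 536870912) (P3 := 923417968) (W3 := 42949674) (N0 := 3) (En := eng) (mo := mog) (C1 := cd0q2) (C2 := cd2q2) (C3 := pd0)
    rfl k0_mm_202

noncomputable def f_mm_203 : ℕ → ℕ → ℕ → ℕ → Bool := onCell 0 536870912 0 1230186008 923417968 42949674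
    (rowB 3 eng mog cd0q2 cd2q3 pd0 0 false false false .up 2 0 3 (qsf 0 536870912 0 1230186008 0) ndB0q2 ndB2q3 pcB0 Cut.none Ext.none)

def k0_mm_203 : ∃ t, chk3 f_mm_203 t 1 1 1 = true :=
  ⟨(b (l 2) (l 3)), by decide +kernel⟩

theorem c_mm_203 : CertB 0 536870912 0 1230186008 923417968 42949674 3 eng mog cd0q2 cd2q3 pd0 false false false .up 2 0 3
    ndB0q2 ndB2q3 pcB0 Cut.none Ext.none :=
  certB0 (fam := false) (s1 := false) (s2 := false) (a := 2) (b := 0) (c := 3) (cn := .up) (n1 := ndB0q2) (n2 := ndB2q3) (pc := pcB0) (cut := Cut.none) (xt := Ext.none) (P1 := 0) (W1 := 536870912) (P2 := 0) (W2 := 1230186008) (P3 := 923417968) (W3 := 42949674) (N0 := 3) (En := eng) (mo := mog) (C1 := cd0q2) (C2 := cd2q3) (C3 := pd0)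
    rfl k0_mm_203

noncomputable def f_mm_213 : ℕ → ℕ → ℕ → ℕ → Bool := onCell 0 536870912 0 1230186008 923417968 42949674
    (rowB 3 eng mog cd0q2 cd2q3 pd1 0 false false false .pnn 2 1 3 (qsf 0 536870912 0 1230186008 1) ndB0q2 ndB2q3 pcB1 Cut.none Ext.none)

def k0_mm_213 : ∃ t, chk3 f_mm_213 t 1 1 1 = true :=
  ⟨(b (a (l 3) (l 5)) (l 3)), by decide +kernel⟩

theorem c_mm_213 : CertB 0 536870912 0 1230186008 923417968 42949674 3 eng mog cd0q2 cd2q3 pd1 false false false .pnn 2 1 3
    ndB0q2 ndB2q3 pcB1 Cut.none Ext.none :=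
  certB0 (fam := false) (s1 := false) (s2 := false) (a := 2) (b := 1) (c := 3) (cn := .pnn) (n1 := ndB0q2) (n2 := ndB2q3) (pc := pcB1) (cut := Cut.none) (xt := Ext.none) (P1 := 0) (W1 := 536870912) (P2 := 0) (W2 := 1230186008) (P3 := 923417968) (W3 := 42949674) (N0 := 3) (En := eng) (mo := mog) (C1 := cd0q2) (C2 := cd2q3) (C3 := pd1)
    rfl k0_mm_213

end Pool.Agent.Strip051.G.I8600_9000.Tab.C.BB02

namespace Pool.Agent.Strip051.G.I8600_9000.Tab.C.BB03

open Pool.Agent.Strip051.PB Pool.Agent.Strip051.PB.T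
open Pool.Agent.Strip051.G.I8600_9000.Tab

noncomputable def f_pp_001 : ℕ → ℕ → ℕ → ℕ → Bool := onCell 0 536870912 0 536870912 923417968 42949674
    (rowB 3 eng mog cd0q0 cd3q1 pd0 1 false true true .up 0 0 1 (qsf 0 536870912 536870912 536870912 0) ndB0q0 ndB3q1 pcB0 Cut.none Ext.none)

def k0_pp_001 : ∃ t, chk3 f_pp_001 t 1 1 1 = true :=
  ⟨(l 3), by decide +kernel⟩

theorem c_pp_001 : CertB 0 536870912 536870912 536870912 923417968 42949674 3 eng mog cd0q0 cd3q1 pd0 false true true .up 0 0 1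
    ndB0q0 ndB3q1 pcB0 Cut.none Ext.none :=
  certB1 (fam := false) (s1 := true) (s2 := true) (a := 0) (b := 0) (c := 1) (cn := .up) (n1 := ndB0q0) (n2 := ndB3q1) (pc := pcB0) (cut := Cut.none) (xt := Ext.none) (P1 := 0) (W1 := 536870912) (P2 := 536870912) (W2 := 536870912) (P3 := 923417968) (W3 := 42949674) (N0 := 3) (En := eng) (mo := mog) (C1 := cd0q0) (C2 := cd3q1) (C3 := pd0)
    rfl (fun _ => rfl) k0_pp_001

noncomputable def cut_pp_011 : Cut := Cut.of [[⟨0, 0, 0, 67108864⟩, ⟨1, 1, 0, 67108864⟩, ⟨2, 1, 0, 67108864⟩]]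

noncomputable def f_pp_011 : ℕ → ℕ → ℕ → ℕ → Bool := onCell 0 536870912 536870912 536870912 923417968 42949674
    (rowB 3 eng mog cd0q0 cd3q1 pd1 1 false true true .pnn 0 1 1 (qsf 0 536870912 536870912 536870912 1) ndB0q0 ndB3q1 pcB1 cut_pp_011 Ext.none)

def k0_pp_011 : ∃ t, chk3 f_pp_011 t 1 1 1 = true :=
  ⟨(b (l 3) (a (b (l 3) (a (b (l 3) (a (b (l 3) (a (l 6) (l 3))) (l 3))) (l 3))) (l 3))), by decide +kernel⟩

theorem c_pp_011 : CertB 0 536870912 536870912 536870912 923417968 42949674 3 eng mog cd0q0 cd3q1 pd1 false true true .pnn 0 1 1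
    ndB0q0 ndB3q1 pcB1 cut_pp_011 Ext.none :=
  certB1 (fam := false) (s1 := true) (s2 := true) (a := 0) (b := 1) (c := 1) (cn := .pnn) (n1 := ndB0q0) (n2 := ndB3q1) (pc := pcB1) (cut := cut_pp_011) (xt := Ext.none) (P1 := 0) (W1 := 536870912) (P2 := 536870912) (W2 := 536870912) (P3 := 923417968) (W3 := 42949674) (N0 := 3) (En := eng) (mo := mog) (C1 := cd0q0) (C2 := cd3q1) (C3 := pd1)
    rfl (fun _ => rfl) k0_pp_011

noncomputable def f_pp_012 : ℕ → ℕ → ℕ → ℕ → Bool := onCell 0 536870912 536870912 536870912 923417968 42949674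
    (rowB 3 eng mog cd0q0 cd3q2 pd1 1 false true true .pnp 0 1 2 (qsf 0 536870912 1073741824 536870912 1) ndB0q0 ndB3q2 pcB1 Cut.none Ext.none)

def k0_pp_012 : ∃ t, chk3 f_pp_012 t 1 1 1 = true :=
  ⟨(l 3), by decide +kernel⟩

theorem c_pp_012 : CertB 0 536870912 1073741824 536870912 923417968 42949674 3 eng mog cd0q0 cd3q2 pd1 false true true .pnp 0 1 2
    ndB0q0 ndB3q2 pcB1 Cut.none Ext.none :=
  certB1 (fam := false) (s1 := true) (s2 := true) (a := 0) (b := 1) (c := 2) (cn := .pnp) (n1 := ndB0q0) (n2 := ndB3q2) (pc := pcB1) (cut := Cut.none) (xt := Ext.none) (P1 := 0) (W1 := 536870912) (P2 := 1073741824) (W2 := 536870912) (P3 := 923417968) (W3 := 42949674) (N0 := 3) (En := eng) (mo := mog) (C1 := cd0q0) (C2 := cd3q2) (C3 := pd1)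
    rfl (fun _ => rfl) k0_pp_012

noncomputable def f_pp_022 : ℕ → ℕ → ℕ → ℕ → Bool := onCell 0 536870912 1073741824 536870912 923417968 42949674
    (rowB 3 eng mog cd0q0 cd3q2 pd2 1 false true true .pp 0 2 2 (qsf 0 536870912 1073741824 536870912 2) ndB0q0 ndB3q2 pcB2 Cut.none Ext.none)

def k0_pp_022 : ∃ t, chk3 f_pp_022 t 1 4 1 = true :=
  ⟨(a (l 3) (b (l 3) (a (l 3) (b (l 3) (a (l 3) (l 2)))))), by decide +kernel⟩

def k1_pp_022 : ∃ t, chk3 f_pp_022 t 2 5 1 = true :=
  ⟨(a (b (b (b (l 3) (b (l 3) (b (a (a (l 3) (l 16375312)) (a (a (l 16367192) (l 16310048)) (c (l 16228112) (l 16192752)))) (a (a (l 16285624) (l 16444152)) (a (l 16325408) (l 16221016)))))) (a (a (b (l 16246688) (l 16249056)) (a (l 16407304) (l 16307976))) (a (a (l 16295472) (l 16244352)) (c (l 16172440) (l 16155608))))) (b (a (a (l 16246952) (a (l 16294624) (l 16246024))) (a (a (l 16200328) (l 16157864)) (l 16080024))) (a (a (l 16257728) (l 16130776)) (a (l 16098664) (l 16037672))))) (b (b (b (l 3) (b (a (a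 (l 3) (b (l 3) (a (l 16093168) (l 93045160791)))) (a (b (l 3) (a (c (l 16059808) (l 16001544)) (c (l 16035488) (l 15974296)))) (b (a (l 3) (c (l 15996344) (l 15929176))) (c (a (l 16014432) (l 15996576)) (a (l 15950624) (l 15930448)))))) (b (a (a (a (b (l 16165136) (l 16160864)) (b (l 16125224) (l 16121432))) (a (b (l 16089456) (l 16086120)) (b (l 16057272) (l 16054376)))) (a (c (b (l 16045056) (l 16042768)) (b (l 15985672) (l 15983424))) (c (b (a (l 16013008) (l 15995672)) (l 16002520)) (b (l 15939496) (l 15938080))))) (a (a (a (l 16153936) (l 16115224)) (a (l 16080608) (l 16049544))) (a (a (l 16021992) (l 15997880)) (c (l 15999904) (l 15935512))))))) (a (a (a (l 16114560) (l 16122120)) (a (c (l 16075544) (l 16023288)) (c (l 16050136) (l 15994704)))) (a (a (c (l 16027944) (l 15969704)) (b (l 15986896) (l 15971424))) (b (a (l 15968200) (l 15973680)) (c (l 15981048) (l 15917464)))))) (a (a (b (a (l 16052824) (l 16026072)) (l 15991512)) (b (a (l 16003008) (l 15983192)) (l 15959816)))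 (a (b (c (l 15988664) (l 15929784)) (l 15940304)) (b (c (l 15969328) (l 15907144)) (l 15994984)))))), by decide +kernel⟩

def k2_pp_022 : ∃ t, chk3 f_pp_022 t 3 10 1 = true :=
  ⟨(a (b (b (b (l 3) (b (a (l 3) (a (l 3) (a (l 3) (c (l 200955901031) (l 185923355671))))) (a (a (l 3) (a (l 3) (c (l 154248168727) (l 150489910727)))) (a (c (a (l 159616866135) (l 164985545623)) (a (l 103782141847) (l 105929614343))) (c (a (b (l 15935248) (l 15938040)) (l 15958056)) (a (l 109150831271) (l 15856624))))))) (b (a (a (b (c (a (l 130089026359) (l 137068328327)) (a (l 15911560) (l 15897264))) (c (a (l 15981856) (l 15970136)) (a (l 15913664) (l 15900112)))) (b (c (a (l 144047631367) (l 15972336)) (a (l 15885840) (l 15876976))) (c (a (l 15961016) (l 15954200)) (a (l 15889360) (l 15881088))))) (a (b (c (a (l 15946264) (l 15943272)) (a (l 15870544) (l 15866384))) (c (a (l 15949592) (l 15947056)) (a (l 15875176) (l 15871504)))) (a (b (c (l 15942232) (l 15864368)) (c (l 15946464) (l 15869968))) (b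 (c (l 15943048) (l 15864392)) (l 2))))) (b (a (a (c (b (a (l 15981440) (l 15970176)) (l 15974752)) (a (l 15913392) (l 15900520))) (c (b (l 15958104) (l 15957968)) (a (l 15890424) (l 15882784)))) (a (c (a (l 15951120) (l 15949144)) (b (l 15875352) (l 15876128))) (a (b (l 15911032) (l 15912144)) (l 2)))) (a (a (c (l 15973256) (l 15904960)) (c (l 15957512) (l 15886184))) (a (c (l 15950712) (l 15877032)) (c (l 15951864) (l 15876528))))))) (a (a (b (c (l 15968952) (l 15901232)) (c (l 15963984) (l 15897392))) (b (c (l 15956672) (l 15886272)) (l 15965136))) (a (b (a (l 15917528) (l 15917400)) (c (l 15958744) (l 15888856))) (b (c (l 15957128) (l 15883768)) (l 2))))) (b (b (a (b (a (l 3) (l 2)) (l 2)) (l 2)) (l 2)) (l 2))), by decide +kernel⟩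

def k3_pp_022 : ∃ t, chk3 f_pp_022 t 3 11 1 = true :=
  ⟨(a (a (b (a (b (l 15929104) (l 15929576)) (b (l 15926944) (l 15932760))) (a (l 15955240) (l 15945432))) (b (a (b (l 15932912) (l 2)) (l 2)) (l 2))) (l 2)), by decide +kernel⟩

def k4_pp_022 : ∃ t, chk3 f_pp_022 t 1 3 1 = true :=
  ⟨(a (a (b (a (b (a (a (l 16122480) (l 16027224)) (b (l 16085848) (l 16008984))) (a (l 15791736) (c (l 15925832) (l 15896640)))) (b (a (c (l 16015440) (l 15979736)) (b (l 15984376) (l 15940624))) (a (b (l 15917768) (l 15875520)) (b (l 15905760) (l 15879344))))) (a (b (a (b (l 15835776) (l 15777568)) (b (l 15832736) (l 15790136))) (a (l 15620048) (l 15697296))) (b (a (b (l 15841264) (l 15814496)) (b (l 15860688) (l 15849280))) (a (b (l 15794144) (l 2)) (l 2))))) (b (a (b (a (b (l 15953760) (l 15925232)) (b (l 15936360) (l 15921840))) (a (b (l 15905368) (l 15893648)) (b (l 15915648) (l 15917744)))) (b (b (a (l 15930216) (l 15934352)) (a (l 15928624) (l 15945080))) (b (a (l 15935616) (l 2)) (l 2))))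 (a (b (a (b (l 15889752) (l 2)) (l 2)) (l 2)) (l 2)))) (b (a (b (a (b (a (l 15947912) (l 2)) (l 2)) (l 2)) (l 2)) (l 2)) (l 2))), by decide +kernel⟩

theorem s5_pp_022 : ∃ t, chk3 f_pp_022 t 3 5 1 = true := ex3_b k2_pp_022 k3_pp_022

theorem s6_pp_022 : ∃ t, chk3 f_pp_022 t 1 5 1 = true := ex3_a k1_pp_022 s5_pp_022

theorem s7_pp_022 : ∃ t, chk3 f_pp_022 t 1 2 1 = true := ex3_b k0_pp_022 s6_pp_022

theorem s8_pp_022 : ∃ t, chk3 f_pp_022 t 1 1 1 = true := ex3_b s7_pp_022 k4_pp_022

theorem c_pp_022 : CertB 0 536870912 1073741824 536870912 923417968 42949674 3 eng mog cd0q0 cd3q2 pd2 false true true .pp 0 2 2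
    ndB0q0 ndB3q2 pcB2 Cut.none Ext.none :=
  certB1 (fam := false) (s1 := true) (s2 := true) (a := 0) (b := 2) (c := 2) (cn := .pp) (n1 := ndB0q0) (n2 := ndB3q2) (pc := pcB2) (cut := Cut.none) (xt := Ext.none) (P1 := 0) (W1 := 536870912) (P2 := 1073741824) (W2 := 536870912) (P3 := 923417968) (W3 := 42949674) (N0 := 3) (En := eng) (mo := mog) (C1 := cd0q0) (C2 := cd3q2) (C3 := pd2)
    rfl (fun _ => rfl) s8_pp_022

noncomputable def f_pp_023 : ℕ → ℕ → ℕ → ℕ → Bool := onCell 1073741824 536870912 0 1230186008 923417968 42949674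
    (rowB 3 eng mog cd0q0 cd3q3 pd2 2 false true true .up 0 2 3 (qsf 0 536870912 0 1230186008 2) ndB0q0 ndB3q3 pcB2 Cut.none Ext.none)

def k0_pp_023 : ∃ t, chk3 f_pp_023 t 2 2 1 = true :=
  ⟨(l 2), by decide +kernel⟩

def k1_pp_023 : ∃ t, chk3 f_pp_023 t 4 3 1 = true :=
  ⟨(b (l 2) (a (l 3) (b (l 2) (a (l 3) (a (l 3) (a (l 3) (b (b (b (l 158543682199) (l 3)) (l 3)) (l 3)))))))), by decide +kernel⟩

def k2_pp_023 : ∃ t, chk3 f_pp_023 t 5 6 1 = true :=
  ⟨(a (l 2) (b (l 2) (b (l 2) (a (l 2) (l 216458651735))))), by decide +kernel⟩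

def k3_pp_023 : ∃ t, chk3 f_pp_023 t 5 14 1 = true :=
  ⟨(b (a (a (l 2) (b (l 2) (l 217532387623))) (a (b (l 16421984) (l 16296160)) (b (l 16500288) (l 16388344)))) (b (a (a (l 2) (a (l 16269256) (l 16338368))) (a (c (l 16535032) (l 16408264)) (c (l 16494544) (l 16360928)))) (a (a (a (b (l 2) (a (l 16338464) (l 16354800))) (a (c (l 16578576) (l 16441552)) (a (l 16327312) (c (l 16569400) (l 16430584))))) (c (l 16552088) (l 16261472))) (a (c (l 16514520) (l 16341896)) (c (l 16464088) (l 16305712)))))), by decide +kernel⟩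

def k4_pp_023 : ∃ t, chk3 f_pp_023 t 5 15 1 = true :=
  ⟨(c (a (a (a (b (b (a (l 16576328) (l 16574120)) (b (l 16378504) (l 120425996247))) (b (a (l 16434576) (l 16422528)) (a (l 3) (l 16296448)))) (a (b (b (l 16569672) (l 16528032)) (b (l 16409840) (l 16281664))) (b (a (b (l 16563856) (l 16540576)) (b (l 16558040) (l 16471040))) (a (b (l 16504120) (l 16354056)) (b (l 16328976) (l 16262368)))))) (b (b (l 16512824) (l 16418896)) (b (c (l 16508968) (l 16413752)) (c (l 16467416) (l 16358968))))) (b (b (a (l 16483240) (l 16427272)) (a (l 16403968) (l 16383408))) (b (a (l 16316496) (l 16314992)) (a (c (l 16403392) (l 16292552)) (l 16155408))))) (a (a (a (b (b (a (l 16317208) (l 16330088)) (a (l 104856431847) (l 16223640))) (b (a (b (l 16343680) (l 16313728)) (b (l 16329496) (l 16297960))) (a (l 3) (b (l 16222704) (l 16146816))))) (a (b (b (l 16342456) (l 16190328)) (b (b (l 16314360) (l 16239960)) (b (l 16184936) (l 16066488)))) (b (a (b (l 16397360) (l 16347880)) (b (l 16307600)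 (a (l 16342512) (l 16338840)))) (a (b (l 16181224) (b (l 16235304) (l 16200464))) (b (a (l 16280024) (l 16192112)) (b (l 16226984) (l 16192032))))))) (b (b (b (l 16376136) (l 16350552)) (b (l 16321416) (l 16290552))) (b (a (l 16048464) (l 16202984)) (b (l 16147240) (l 16048704))))) (b (b (a (l 16179872) (l 16202008)) (a (b (l 16259024) (l 16225008)) (l 16112424))) (b (a (b (l 16191288) (l 16156584)) (l 15895432)) (a (b (l 16120768) (l 16083536)) (b (l 16049984) (l 16009944))))))), by decide +kernel⟩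

def k5_pp_023 : ∃ t, chk3 f_pp_023 t 3 2 1 = true :=
  ⟨(a (l 2) (b (a (l 2) (b (l 15758080) (a (l 2) (l 15726328)))) (a (b (a (l 2) (l 16218976)) (a (b (l 2) (l 16591720)) (l 16467264))) (b (a (l 16085192) (l 15942504)) (a (l 16353776) (l 16050664)))))), by decide +kernel⟩

def k6_pp_023 : ∃ t, chk3 f_pp_023 t 3 6 1 = true :=
  ⟨(a (b (a (l 2) (b (l 16609360) (l 16556928))) (a (b (a (l 16555096) (l 16536680)) (b (l 16446744) (l 16227328))) (b (a (l 16510064) (l 16472472)) (c (l 16441808) (l 16161224))))) (b (a (b (a (l 16577200) (l 16534032)) (l 16493080)) (b (a (l 16456480) (l 16350992)) (a (l 16420280) (l 16268824)))) (a (b (a (l 16429008) (l 16379544)) (b (l 16327664) (l 16274136))) (b (a (l 16324448) (l 16268416)) (b (l 16212928) (l 16150568)))))), by decide +kernel⟩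

def k7_pp_023 : ∃ t, chk3 f_pp_023 t 3 14 1 = true :=
  ⟨(a (b (a (b (a (l 16465944) (l 16419656)) (c (l 16454224) (l 16210408))) (b (a (l 16366416) (l 16308312)) (c (l 16343976) (l 16214736)))) (a (b (a (l 16193080) (l 16196352)) (c (l 16293640) (a (l 16242696) (l 16178248)))) (c (b (l 16300464) (l 16149784)) (b (l 16147272) (l 15846936))))) (b (a (b (l 16029144) (a (l 16191552) (l 16124776))) (b (l 15915920) (a (l 16050920) (l 15968544)))) (a (b (a (l 16130512) (l 16056704)) (a (l 15937208) (l 15959792))) (b (c (l 16008416) (l 15836152)) (a (l 15887920) (c (l 15876480) (l 15680080))))))), by decide +kernel⟩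

def k8_pp_023 : ∃ t, chk3 f_pp_023 t 3 15 1 = true :=
  ⟨(c (a (b (a (b (a (l 16365640) (l 16302992)) (a (l 16319912) (l 16253192))) (b (l 16012472) (a (l 16179832) (l 16098328)))) (a (b (c (l 16177136) (l 16072456)) (a (l 16163760) (l 16121872))) (b (a (l 16111512) (l 16018376)) (a (l 16027336) (l 15923128))))) (b (a (b (l 16038768) (a (l 16006208) (l 15904728))) (b (a (l 15891272) (l 15775232)) (a (l 15787952) (l 15656936)))) (a (b (a (l 15915792) (l 15797864)) (a (l 15803496) (l 15438864))) (b (a (l 15665656) (l 15520608)) (a (b (l 15560952) (l 15486096)) (b (l 15410752) (l 15335200))))))) (a (b (a (b (a (l 16176680) (l 16109304)) (a (l 16107368) (l 16036464))) (b (a (l 16038856) (l 15962112)) (a (l 15959304) (l 15874232)))) (a (b (a (l 16033672) (l 15955928)) (a (b (l 15973368) (l 15929752)) (l 15864624))) (b (a (l 15870216) (l 15773896)) (a (l 15767248) (l 15576224))))) (a (b (b (a (l 15877376) (l 15782080)) (a (l 15778592) (l 15673568))) (b (a (l 15668080) (l 15546448))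 (a (l 15537024) (b (l 15438784) (l 15359192))))) (b (b (a (l 15677360) (l 15557064)) (a (l 15552824) (b (l 15454744) (l 15379864)))) (b (a (b (l 15448392) (l 15371528)) (b (l 15300712) (l 15218184))) (a (b (l 15290072) (l 15205072)) (b (l 15133416) (l 15047744)))))))), by decide +kernel⟩

theorem s9_pp_023 : ∃ t, chk3 f_pp_023 t 3 7 1 = true := ex3_b k7_pp_023 k8_pp_023

theorem s10_pp_023 : ∃ t, chk3 f_pp_023 t 3 3 1 = true := ex3_b k6_pp_023 s9_pp_023

theorem s11_pp_023 : ∃ t, chk3 f_pp_023 t 3 1 1 = true := ex3_b k5_pp_023 s10_pp_023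

theorem s12_pp_023 : ∃ t, chk3 f_pp_023 t 5 7 1 = true := ex3_b k3_pp_023 k4_pp_023

theorem s13_pp_023 : ∃ t, chk3 f_pp_023 t 5 3 1 = true := ex3_b k2_pp_023 s12_pp_023

theorem s14_pp_023 : ∃ t, chk3 f_pp_023 t 2 3 1 = true := ex3_a k1_pp_023 s13_pp_023

theorem s15_pp_023 : ∃ t, chk3 f_pp_023 t 2 1 1 = true := ex3_b k0_pp_023 s14_pp_023

theorem s16_pp_023 : ∃ t, chk3 f_pp_023 t 1 1 1 = true := ex3_a s15_pp_023 s11_pp_023

theorem c_pp_023 : CertB 0 536870912 0 1230186008 923417968 42949674 3 eng mog cd0q0 cd3q3 pd2 false true true .up 0 2 3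
    ndB0q0 ndB3q3 pcB2 Cut.none Ext.none :=
  certB2 (fam := false) (s1 := true) (s2 := true) (a := 0) (b := 2) (c := 3) (cn := .up) (n1 := ndB0q0) (n2 := ndB3q3) (pc := pcB2) (cut := Cut.none) (xt := Ext.none) (P1 := 0) (W1 := 536870912) (P2 := 0) (W2 := 1230186008) (P3 := 923417968) (W3 := 42949674) (N0 := 3) (En := eng) (mo := mog) (C1 := cd0q0) (C2 := cd3q3) (C3 := pd2)
    rfl (fun _ => rfl) s16_pp_023

noncomputable def f_pp_033 : ℕ → ℕ → ℕ → ℕ → Bool := onCell 1610612736 536870912 0 1230186008 923417968 42949674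
    (rowB 3 eng mog cd0q0 cd3q3 pd3 2 false true true .pnn 0 3 3 (qsf 0 536870912 0 1230186008 3) ndB0q0 ndB3q3 pcB3 Cut.none Ext.none)

def k0_pp_033 : ∃ t, chk3 f_pp_033 t 1 2 1 = true :=
  ⟨(b (a (a (a (b (l 16541408) (a (l 16608480) (l 16555624))) (b (l 16410024) (l 16460840))) (a (a (l 16229368) (l 16065544)) (a (b (l 16216176) (l 16230496)) (b (l 4) (l 16175352))))) (a (a (a (l 15873672) (l 4)) (l 4)) (l 4))) (a (a (b (a (c (l 16469784) (l 16581824)) (a (l 16464328) (l 16411400))) (a (b (l 16452480) (l 16360256)) (b (a (l 16389280) (l 16345760)) (l 16120312)))) (a (b (a (l 16360952) (l 16295328)) (a (b (l 16294656) (l 16217200)) (b (l 16233728) (l 16158664)))) (b (a (l 16223248) (l 16150440)) (a (l 16127736) (l 16038960))))) (a (a (b (a (l 16075896) (l 16002744)) (a (l 15982800) (l 15881496))) (b (l 4) (a (b (l 15819928) (l 15734184)) (b (l 4) (l 15631432))))) (l 4)))), by decide +kernel⟩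

def k1_pp_033 : ∃ t, chk3 f_pp_033 t 1 6 1 = true :=
  ⟨(a (a (a (b (b (l 16147184) (a (l 16231864) (l 16176816))) (b (a (l 16010800) (b (l 16101632) (l 16046424))) (a (l 16027728) (b (l 15987624) (l 15922352))))) (c (b (b (l 16188360) (l 16104000)) (b (l 16212784) (a (l 15968552) (l 15890512)))) (b (b (l 16192904) (l 16065320)) (b (l 15737576) (a (l 15653456) (b (l 15769480) (l 15681392))))))) (b (a (b (a (l 16111080) (l 16048520)) (a (l 15986416) (b (l 15947024) (l 15872888)))) (b (a (l 16038880) (l 15884344)) (a (b (l 15866512) (l 15780560)) (b (l 15769600) (l 15675240))))) (a (b (a (b (l 15881720) (l 15805048)) (b (l 15791464) (l 15702264))) (b (a (l 15719880) (c (l 15646624) (l 15553592))) (a (l 15668152) (c (l 15548656) (l 15440656))))) (b (a (b (l 15687448) (l 15585984)) (b (l 15570432) (l 15459632))) (a (c (b (l 15520720) (l 15416720)) (b (l 15422904) (l 15302192))) (c (b (l 15391680) (l 15285520)) (b (l 15284760) (l 15162552)))))))) (b (a (a (a (b (l 15781304) (b (l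 15652264) (l 15554376))) (b (l 15670872) (l 15477352))) (a (b (l 15564360) (l 15360912)) (b (l 15481144) (l 15272896)))) (b (b (l 4) (l 1)) (l 1))) (a (a (b (a (b (l 15445912) (c (l 15373680) (l 15272040))) (b (l 15318536) (c (l 15258456) (l 15148008)))) (a (c (l 285646044775) (b (l 15150536) (l 15039112))) (b (c (l 15157472) (l 15042016)) (l 1)))) (a (b (b (l 15208224) (l 1)) (l 1)) (l 1))) (l 1)))), by decide +kernel⟩

def k2_pp_033 : ∃ t, chk3 f_pp_033 t 1 7 1 = true :=
  ⟨(a (b (a (a (b (b (l 15769400) (a (l 15868576) (l 15775456))) (a (b (l 15794232) (c (l 15779368) (l 15626600))) (b (l 15688344) (c (l 15660192) (l 15508952))))) (b (a (b (l 15756888) (l 15667640)) (b (l 15752328) (l 15545424))) (b (a (c (l 15631712) (l 15494976)) (c (l 15499200) (l 15361744))) (a (c (l 15528552) (l 15377192)) (c (l 15391584) (l 15239072)))))) (a (b (a (b (c (l 15576920) (l 15460248)) (c (l 15470800) (l 15343872))) (b (c (l 15443800) (l 15323080)) (c (l 15334712) (a (l 15239112) (l 15169328)))))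 (b (a (c (l 15362184) (l 15222792)) (c (l 15226712) (l 15085024))) (a (c (l 15254616) (l 15100760)) (c (l 15123504) (l 14970720))))) (b (a (b (c (l 15309592) (l 15181592)) (c (l 15286880) (l 202967798839))) (b (c (l 15181536) (l 15048352)) (l 1))) (l 1)))) (a (b (a (b (c (a (l 15688648) (l 15558048)) (a (l 15520016) (l 15389608))) (c (a (l 15586664) (l 15451344)) (a (l 15398264) (l 15262512)))) (b (a (c (l 15421664) (l 15252584)) (c (l 15284248) (l 15114600))) (a (c (l 15314208) (l 15125352)) (c (l 15177880) (l 14992144))))) (a (b (c (a (l 15479328) (l 15342928)) (a (l 15268024) (l 15131968))) (c (a (l 15263744) (l 15273344)) (a (l 41369442439) (b (l 15035056) (l 1))))) (b (a (c (l 15205696) (l 36537350023)) (l 1)) (l 1)))) (b (a (b (a (c (l 15149888) (l 14982240)) (l 1)) (l 1)) (l 1)) (l 1)))) (l 1)), by decide +kernel⟩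

theorem s3_pp_033 : ∃ t, chk3 f_pp_033 t 1 3 1 = true := ex3_b k1_pp_033 k2_pp_033

theorem s4_pp_033 : ∃ t, chk3 f_pp_033 t 1 1 1 = true := ex3_b k0_pp_033 s3_pp_033

theorem c_pp_033 : CertB 0 536870912 0 1230186008 923417968 42949674 3 eng mog cd0q0 cd3q3 pd3 false true true .pnn 0 3 3
    ndB0q0 ndB3q3 pcB3 Cut.none Ext.none :=
  certB2 (fam := false) (s1 := true) (s2 := true) (a := 0) (b := 3) (c := 3) (cn := .pnn) (n1 := ndB0q0) (n2 := ndB3q3) (pc := pcB3) (cut := Cut.none) (xt := Ext.none) (P1 := 0) (W1 := 536870912) (P2 := 0) (W2 := 1230186008) (P3 := 923417968) (W3 := 42949674) (N0 := 3) (En := eng) (mo := mog) (C1 := cd0q0) (C2 := cd3q3) (C3 := pd3)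
    rfl (fun _ => rfl) s4_pp_033

noncomputable def f_pp_101 : ℕ → ℕ → ℕ → ℕ → Bool := onCell 536870912 536870912 536870912 536870912 923417968 42949674
    (rowB 3 eng mog cd0q1 cd3q1 pd0 0 false true true .npn 1 0 1 (qsf 536870912 536870912 536870912 536870912 0) ndB0q1 ndB3q1 pcB0 Cut.none Ext.none)

def k0_pp_101 : ∃ t, chk3 f_pp_101 t 1 1 1 = true :=
  ⟨(a (l 3) (l 5)), by decide +kernel⟩

theorem c_pp_101 : CertB 536870912 536870912 536870912 536870912 923417968 42949674 3 eng mog cd0q1 cd3q1 pd0 false true true .npn 1 0 1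
    ndB0q1 ndB3q1 pcB0 Cut.none Ext.none :=
  certB0 (fam := false) (s1 := true) (s2 := true) (a := 1) (b := 0) (c := 1) (cn := .npn) (n1 := ndB0q1) (n2 := ndB3q1) (pc := pcB0) (cut := Cut.none) (xt := Ext.none) (P1 := 536870912) (W1 := 536870912) (P2 := 536870912) (W2 := 536870912) (P3 := 923417968) (W3 := 42949674) (N0 := 3) (En := eng) (mo := mog) (C1 := cd0q1) (C2 := cd3q1) (C3 := pd0)
    rfl k0_pp_101

noncomputable def f_pp_102 : ℕ → ℕ → ℕ → ℕ → Bool := onCell 536870912 536870912 1073741824 536870912 923417968 42949674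
    (rowB 3 eng mog cd0q1 cd3q2 pd0 0 false true true .npp 1 0 2 (qsf 536870912 536870912 1073741824 536870912 0) ndB0q1 ndB3q2 pcB0 Cut.none Ext.none)

def k0_pp_102 : ∃ t, chk3 f_pp_102 t 1 1 1 = true :=
  ⟨(l 3), by decide +kernel⟩

theorem c_pp_102 : CertB 536870912 536870912 1073741824 536870912 923417968 42949674 3 eng mog cd0q1 cd3q2 pd0 false true true .npp 1 0 2
    ndB0q1 ndB3q2 pcB0 Cut.none Ext.none :=
  certB0 (fam := false) (s1 := true) (s2 := true) (a := 1) (b := 0) (c := 2) (cn := .npp) (n1 := ndB0q1) (n2 := ndB3q2) (pc := pcB0) (cut := Cut.none) (xt := Ext.none) (P1 := 536870912) (W1 := 536870912) (P2 := 1073741824) (W2 := 536870912) (P3 := 923417968) (W3 := 42949674) (N0 := 3) (En := eng) (mo := mog) (C1 := cd0q1) (C2 := cd3q2) (C3 := pd0)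
    rfl k0_pp_102

noncomputable def f_pp_112 : ℕ → ℕ → ℕ → ℕ → Bool := onCell 536870912 536870912 1073741824 536870912 923417968 42949674
    (rowB 3 eng mog cd0q1 cd3q2 pd1 0 false true true .dn 1 1 2 (qsf 536870912 536870912 1073741824 536870912 1) ndB0q1 ndB3q2 pcB1 Cut.none Ext.none)

def k0_pp_112 : ∃ t, chk3 f_pp_112 t 1 1 1 = true :=
  ⟨(l 3), by decide +kernel⟩

theorem c_pp_112 : CertB 536870912 536870912 1073741824 536870912 923417968 42949674 3 eng mog cd0q1 cd3q2 pd1 false true true .dn 1 1 2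
    ndB0q1 ndB3q2 pcB1 Cut.none Ext.none :=
  certB0 (fam := false) (s1 := true) (s2 := true) (a := 1) (b := 1) (c := 2) (cn := .dn) (n1 := ndB0q1) (n2 := ndB3q2) (pc := pcB1) (cut := Cut.none) (xt := Ext.none) (P1 := 536870912) (W1 := 536870912) (P2 := 1073741824) (W2 := 536870912) (P3 := 923417968) (W3 := 42949674) (N0 := 3) (En := eng) (mo := mog) (C1 := cd0q1) (C2 := cd3q2) (C3 := pd1)
    rfl k0_pp_112

noncomputable def cut_pp_113 : Cut := Cut.of [[⟨0, 1, 0, 67108864⟩, ⟨1, 1, 0, 67108864⟩, ⟨2, 2, 0, 16252928⟩]]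

noncomputable def f_pp_113 : ℕ → ℕ → ℕ → ℕ → Bool := onCell 536870912 536870912 0 1230186008 923417968 42949674
    (rowB 3 eng mog cd0q1 cd3q3 pd1 2 false true true .nn 1 1 3 (qsf 536870912 536870912 0 1230186008 1) ndB0q1 ndB3q3 pcB1 cut_pp_113 Ext.none)

def k0_pp_113 : ∃ t, chk3 f_pp_113 t 1 1 1 = true :=
  ⟨(b (a (l 2) (a (l 2) (b (a (l 2) (a (l 2) (b (l 6) (l 3)))) (l 3)))) (b (a (l 3) (l 3)) (a (b (a (l 2) (l 3)) (l 3)) (l 3)))), by decide +kernel⟩

theorem c_pp_113 : CertB 536870912 536870912 0 1230186008 923417968 42949674 3 eng mog cd0q1 cd3q3 pd1 false true true .nn 1 1 3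
    ndB0q1 ndB3q3 pcB1 cut_pp_113 Ext.none :=
  certB2 (fam := false) (s1 := true) (s2 := true) (a := 1) (b := 1) (c := 3) (cn := .nn) (n1 := ndB0q1) (n2 := ndB3q3) (pc := pcB1) (cut := cut_pp_113) (xt := Ext.none) (P1 := 536870912) (W1 := 536870912) (P2 := 0) (W2 := 1230186008) (P3 := 923417968) (W3 := 42949674) (N0 := 3) (En := eng) (mo := mog) (C1 := cd0q1) (C2 := cd3q3) (C3 := pd1)
    rfl (fun _ => rfl) k0_pp_113

noncomputable def cut_pp_123 : Cut := Cut.of [[⟨0, 1, 0, 67108864⟩, ⟨1, 1, 0, 67108864⟩, ⟨2, 2, 0, 16252928⟩]]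

noncomputable def f_pp_123 : ℕ → ℕ → ℕ → ℕ → Bool := onCell 1073741824 536870912 0 1230186008 923417968 42949674
    (rowB 3 eng mog cd0q1 cd3q3 pd2 2 false true true .npn 1 2 3 (qsf 536870912 536870912 0 1230186008 2) ndB0q1 ndB3q3 pcB2 cut_pp_123 Ext.none)

def k0_pp_123 : ∃ t, chk3 f_pp_123 t 16 2 1 = true :=
  ⟨(b (b (l 6) (a (l 3) (b (b (l 6) (b (l 6) (b (l 6) (l 3)))) (l 3)))) (l 3)), by decide +kernel⟩

def k1_pp_123 : ∃ t, chk3 f_pp_123 t 17 8 1 = true :=
  ⟨(a (l 6) (b (l 16630744) (c (l 16672608) (l 16684448)))), by decide +kernel⟩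

def k2_pp_123 : ∃ t, chk3 f_pp_123 t 34 18 1 = true :=
  ⟨(b (l 6) (b (l 6) (b (l 6) (b (l 6) (b (l 6) (a (a (a (a (l 3) (a (c (l 333027703399) (l 308331636023)) (l 16754256))) (c (l 16757976) (l 16758384))) (l 16754480)) (a (l 16748128) (l 16737128)))))))), by decide +kernel⟩

def k3_pp_123 : ∃ t, chk3 f_pp_123 t 34 19 1 = true :=
  ⟨(a (b (a (b (b (b (a (a (l 3) (a (l 423758883991) (b (c (l 296520471063) (l 220821675815)) (c (l 379198600775) (l 353428791655))))) (a (c (l 16754296) (l 16753544)) (l 16757552))) (a (l 3) (a (a (c (l 371682396359) (l 307257887223)) (c (l 275045631831) (l 16755496))) (l 16752248)))) (a (l 3) (a (b (c (l 401747177831) (l 399599684103)) (l 3)) (b (c (c (l 259476386791) (l 224042894007)) (l 226190382023)) (a (l 418390169671) (c (l 341617622599) (l 254644539143))))))) (l 3)) (b (a (a (b (l 16756360) (c (l 16756096) (l 16756520))) (l 16749864)) (l 16753192)) (b (a (c (a (b (c (l 291151764295) (l 296520464807)) (l 397989076391)) (b (l 16754848) (l 275582496487)))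 (a (b (c (l 252497048711) (l 253570801447)) (l 395304701559)) (l 231022215991))) (l 16753272)) (a (a (l 3) (c (b (l 363629324727) (l 415168943383)) (c (l 342691360167) (l 348060075079)))) (a (b (l 16751248) (c (l 291151750551) (l 262697597543))) (l 16742184)))))) (a (l 3) (b (a (l 3) (b (c (a (l 400136534359) (b (l 16752392) (l 357723741335))) (a (l 397989051879) (b (l 16753048) (l 345912587143)))) (c (l 413558306823) (l 424832618455)))) (l 3)))) (b (a (b (a (l 16750432) (l 16747168)) (c (l 16748736) (l 16750128))) (c (l 16718936) (l 16742480))) (b (a (c (a (b (l 16750440) (a (b (l 332490805527) (l 383493551751)) (l 16749928))) (l 16747768)) (a (b (l 16751408) (a (b (l 296520460551) (l 382956682407)) (l 16750880))) (l 16749120))) (l 16744344)) (a (a (a (l 3) (b (c (l 374903593863) (l 343228222439)) (l 3))) (b (c (l 281488065703) (l 222969142951)) (c (a (l 386177901943) (l 328732702903)) (a (l 396915322439) (l 293299230439))))) (a (c (l 16724608) (l 16747200)) (l 16743760)))))),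 by decide +kernel⟩

def k4_pp_123 : ∃ t, chk3 f_pp_123 t 35 9 1 = true :=
  ⟨(b (a (c (l 16705952) (l 16712624)) (l 16670176)) (a (b (a (l 16710512) (l 16720776)) (a (b (l 16737816) (l 16739728)) (l 16709952))) (b (l 16706704) (l 16696408)))), by decide +kernel⟩

def k5_pp_123 : ∃ t, chk3 f_pp_123 t 34 10 1 = true :=
  ⟨(b (a (l 3) (b (b (a (a (l 3) (b (c (l 403894620855) (l 415168933639)) (l 3))) (a (b (a (c (l 340543861719) (l 350744417479)) (l 16746264)) (c (a (l 408726476679) (l 352355020439)) (l 387251642007))) (b (l 16744456) (c (l 16744032) (l 16745976))))) (a (l 3) (c (a (l 419463874967) (b (a (l 370608630695) (l 16743984)) (l 391546582503))) (a (l 430738189015) (b (a (l 377051092279) (l 16746024)) (l 401747155063)))))) (l 3))) (l 3)), by decide +kernel⟩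

def k6_pp_123 : ∃ t, chk3 f_pp_123 t 35 20 1 = true :=
  ⟨(a (b (a (b (l 16730536) (a (b (l 16743248) (c (l 314237182615) (l 324974607655))) (l 16741248))) (b (l 16735728) (l 16737528))) (a (b (a (b (c (l 360408081623) (l 370608639239)) (c (l 406042116119) (l 420000765335))) (b (c (l 16741000) (l 16743928)) (c (l 329269567703) (l 339470116407)))) (a (l 3) (b (c (l 376514191271) (l 392083474999)) (l 3)))) (b (a (l 16740400) (l 16737920)) (a (b (c (l 16739952) (l 16743456)) (c (l 341080717927) (a (l 384030409687) (l 16743792)))) (b (l 16739216) (l 16740072)))))) (b (a (l 16709408) (l 16723016)) (a (b (l 16734104) (l 16735888)) (l 16729512)))), by decide +kernel⟩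

def k7_pp_123 : ∃ t, chk3 f_pp_123 t 35 21 1 = true :=
  ⟨(a (b (a (l 3) (b (a (b (c (l 394230929447) (l 411410827335)) (l 3)) (b (c (l 305110373879) (l 315310919655)) (c (a (l 393157206295) (l 323900854647)) (a (l 410873954903) (l 333027661735))))) (a (l 3) (b (c (l 413021430519) (l 431275050839)) (l 3))))) (l 3)) (b (a (b (a (c (l 16736680) (l 16741408)) (l 16736448)) (a (b (c (l 315847792327) (a (l 342691331447) (l 16742344))) (c (a (l 418927008295) (l 340543853783)) (a (l 438254371303) (l 349670647319)))) (b (l 16737888) (c (l 16736200) (l 16741728))))) (c (l 16730584) (l 16715776))) (a (b (a (b (c (l 432885652551) (l 452749887351)) (l 3)) (b (c (a (l 371145493559) (l 16736448)) (a (b (l 335712009191) (l 416779532903)) (l 16731760))) (a (l 3) (b (c (l 337859498007) (c (l 344838826327) (l 348060058199))) (c (l 414095166183) (l 434496252119)))))) (l 3)) (b (a (b (l 16726872) (a (c (l 292225470007) (c (l 300815400167) (l 304036610391))) (l 16716792))) (l 16714352)) (a (a (b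 (b (c (l 350744396791) (c (l 356649986279) (l 360408068567))) (c (l 431275034599) (c (l 447381171687) (l 457581714983)))) (l 3)) (b (b (c (l 16735384) (l 16742000)) (c (l 309405339399) (c (l 316921537479) (a (l 338933238535) (l 16736104))))) (b (c (c (l 390472840391) (l 401210265031)) (c (a (l 453286751031) (l 343765083655)) (a (l 461876665943) (b (l 321216443351) (l 372219217735))))) (c (l 447918032135) (c (l 465097911799) (l 472614071255)))))) (b (c (l 16733536) (l 16740600)) (c (a (b (l 16734992) (c (l 319605878103) (a (l 388862233111) (l 16736864)))) (l 16733840)) (a (b (c (l 16740200) (l 16728216)) (c (a (b (l 328195826855) (l 427516946231)) (l 285783015367)) (a (b (c (l 331417042183) (l 334101351927)) (c (l 433422509815) (l 433959335959))) (b (l 16723304) (l 293836018103))))) (l 16720256))))))))), by decide +kernel⟩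

def k8_pp_123 : ∃ t, chk3 f_pp_123 t 17 11 1 = true :=
  ⟨(a (l 3) (b (a (l 3) (b (a (l 3) (b (a (l 3) (a (a (l 3) (b (b (c (b (l 331953917351) (l 385641004167)) (a (c (l 387251627847) (c (l 391546567975) (l 395304620007))) (b (c (l 297057305767) (l 298667851847)) (c (l 379735434743) (l 386177811639))))) (l 3)) (l 3))) (b (c (c (l 295446685623) (b (l 270750633223) (a (l 365239912519) (l 286856760855)))) (a (b (c (l 287930497703) (c (l 289541065575) (l 292225404983))) (b (c (l 352354996951) (c (l 356649946775) (l 359871131127))) (c (l 404431497079) (l 411410752487)))) (b (l 16735288) (b (c (l 16740328) (l 16709592)) (c (l 306720964871) (c (l 311015911031) (l 311015867767))))))) (a (l 3) (b (b (c (l 358260586439) (c (l 364703027959) (c (l 369534834935) (l 372219146263)))) (l 3)) (l 3)))))) (l 3))) (l 3))) (l 3))), by decide +kernel⟩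

def k9_pp_123 : ∃ t, chk3 f_pp_123 t 9 4 1 = true :=
  ⟨(a (b (a (b (l 16630248) (l 16653320)) (b (l 16618816) (l 16638800))) (a (b (c (l 16663384) (l 16679240)) (a (l 16653176) (l 16682112))) (b (l 16653816) (l 16645968)))) (b (c (l 16538816) (l 16584128)) (b (l 16580144) (l 16525120)))), by decide +kernel⟩

def k10_pp_123 : ∃ t, chk3 f_pp_123 t 18 10 1 = true :=
  ⟨(a (a (b (b (l 16710232) (a (l 16723320) (l 16715960))) (b (a (l 16728544) (l 16723272)) (a (b (l 16731536) (a (c (l 16731208) (l 16738904)) (l 16732392))) (l 16727760)))) (b (l 16678576) (b (l 16713720) (a (l 16723360) (l 16718496))))) (b (c (l 16672688) (l 16690808)) (a (b (l 16699856) (l 16709360)) (l 16692296)))), by decide +kernel⟩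

def k11_pp_123 : ∃ t, chk3 f_pp_123 t 72 44 1 = true :=
  ⟨(a (a (a (b (b (c (l 16733472) (b (l 16733120) (l 16706664))) (c (c (l 306184102951) (b (l 285246148791) (l 345912548119))) (a (b (b (c (l 16740336) (l 16702928)) (c (l 324437708919) (c (l 329269508519) (l 332490691223)))) (b (c (l 377051077319) (c (l 381882852439) (l 385104035207))) (l 3))) (b (l 16721496) (b (c (l 16738168) (l 284709188711)) (c (l 337322621319) (c (l 342154397127) (l 344838709431)))))))) (a (l 3) (b (b (c (l 388862228071) (c (l 396378413431) (l 402820781095))) (l 3)) (l 3)))) (b (b (l 16715008) (c (l 16733128) (c (l 16737328) (l 16696136)))) (b (c (c (l 317458391239) (b (l 301889142231) (l 356649976471))) (b (c (a (b (l 293299156583) (l 349670638519)) (l 16728520)) (a (b (l 298667825159) (c (l 354502415095) (l 357723598791))) (l 16687656))) (c (a (l 404968334343) (b (l 306184045735) (l 362018655991))) (a (l 411947573927) (b (l 312089590375) (l 368461025463)))))) (b (c (l 404431484647) (c (l 413021385911)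 (l 420000626135))) (l 3))))) (b (c (l 16730472) (l 16718464)) (b (c (c (l 16730064) (l 16734248)) (a (b (l 16706512) (c (l 16721192) (l 16681000))) (l 16701720))) (c (a (c (l 336248872359) (b (l 317995269271) (l 367924265351))) (c (l 16730416) (l 276656191895))) (a (a (b (b (c (l 323363942407) (l 324974474519)) (c (l 374366673735) (l 380272173255))) (l 3)) (b (c (l 16715264) (l 284172294647)) (b (c (l 335175089447) (l 341080589799)) (c (l 386177820839) (l 392083321303))))) (b (l 16693952) (c (l 281487951863) (a (l 293835963063) (l 16668632))))))))) (b (l 16710072) (a (c (l 16729944) (b (l 16698720) (l 16688592))) (l 16726416)))), by decide +kernel⟩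

def k12_pp_123 : ∃ t, chk3 f_pp_123 t 72 45 1 = true :=
  ⟨(a (b (a (l 3) (a (l 3) (b (c (c (l 343765064439) (b (l 328732687319) (l 382419778631))) (b (c (a (b (l 346986236743) (l 397988968199)) (l 294909712199)) (a (b (l 352891738007) (l 403894469591)) (l 304036502007))) (a (l 3) (c (l 373829725335) (b (l 364166015559) (l 415168747207)))))) (l 3)))) (l 3)) (b (b (a (c (a (c (l 16730096) (l 284709229559)) (l 16731024)) (a (a (b (l 16682304) (c (l 304036505687) (b (l 16659064) (l 324437561687)))) (l 16671064)) (l 16677728))) (l 16711584)) (a (c (c (a (l 350744385735) (l 286856731655)) (a (b (l 338933197943) (l 394230912535)) (b (l 16725336) (l 300278498039)))) (a (b (c (a (l 382419689639) (b (l 16691576) (l 329806335815))) (a (l 386714601015) (b (l 16653432) (l 335711839639)))) (a (l 3) (c (l 391009612279) (l 394767632631)))) (b (c (l 16688936) (l 16651336)) (b (c (l 283098522055) (l 289540966727)) (a (c (l 340543742247) (l 346986117831)) (l 16663776)))))) (c (l 16730280) (l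 16665776)))) (a (a (l 3) (b (c (c (l 356649964695) (b (a (l 388862189479) (l 293299164823)) (l 398525854295))) (b (a (b (c (l 390472732103) (l 396915107815)) (l 3)) (b (c (l 283098510807) (l 291688438791)) (c (l 350744277895) (l 356649783559)))) (c (l 405505104231) (l 411410610055)))) (l 3))) (b (c (a (b (l 16698728) (c (l 256255090423) (l 257865670983))) (l 16725144)) (a (b (c (l 16677368) (l 16640624)) (a (c (l 273971728391) (l 270213558695)) (l 16653992))) (l 16655560))) (c (a (c (l 362555542455) (l 370071676247)) (b (l 16717504) (l 316921415159))) (a (b (c (l 365776643751) (l 371682151383)) (l 3)) (b (l 16656288) (c (l 326585026599) (l 331953727191))))))))), by decide +kernel⟩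

def k13_pp_123 : ∃ t, chk3 f_pp_123 t 73 22 1 = true :=
  ⟨(b (a (l 16706808) (l 16721000)) (b (a (a (l 16702736) (l 16699216)) (l 16694560)) (a (b (c (l 16719512) (l 16653040)) (a (c (l 16711760) (l 16644720)) (l 16675968))) (l 16676784)))), by decide +kernel⟩

def k14_pp_123 : ∃ t, chk3 f_pp_123 t 36 23 1 = true :=
  ⟨(a (b (a (l 3) (b (a (l 3) (a (l 3) (b (b (c (l 363629240007) (l 378124618039)) (l 3)) (l 3)))) (l 3))) (l 3)) (b (a (b (a (b (c (b (l 16704408) (l 300278395703)) (c (l 236927594375) (l 236927557831))) (c (a (l 378124726247) (l 251423122295)) (a (l 392083237767) (l 260013055143)))) (c (l 16693600) (b (l 16634352) (l 16625704)))) (a (b (c (l 386714640199) (l 400673154615)) (l 3)) (b (c (l 233706362807) (l 243370038999)) (c (l 346449297591) (l 360407817943))))) (a (b (l 16660064) (c (l 16672576) (l 16612648))) (b (l 16658256) (l 16641416)))) (a (b (l 3) (l 3)) (b (b (a (c (l 306183916583) (l 319068800903)) (l 16629256)) (c (l 313700130951) (l 327121853047))) (a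 (l 3) (c (l 330343095895) (l 343227948855))))))), by decide +kernel⟩

def k15_pp_123 : ∃ t, chk3 f_pp_123 t 37 11 1 = true :=
  ⟨(b (b (a (a (l 16714104) (l 16707856)) (l 16699064)) (a (b (l 16687224) (l 16670920)) (l 16671984))) (a (b (a (b (l 16655968) (l 16639808)) (l 16645792)) (b (c (l 16649448) (l 16598384)) (a (c (l 16635432) (l 16583912)) (l 16609352)))) (b (l 16644144) (l 16637728)))), by decide +kernel⟩

def k16_pp_123 : ∃ t, chk3 f_pp_123 t 19 5 1 = true :=
  ⟨(b (b (a (l 16664936) (l 16656416)) (a (l 16657712) (l 16666344))) (a (b (b (l 16685768) (l 16662832)) (a (b (l 16641888) (l 16618560)) (l 16628128))) (b (l 16623144) (b (l 16636208) (l 16617856))))), by decide +kernel⟩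

def k17_pp_123 : ∃ t, chk3 f_pp_123 t 5 2 1 = true :=
  ⟨(b (a (a (b (a (l 16624808) (a (l 16623608) (l 16620480))) (a (l 16647024) (a (l 16651760) (l 16655024)))) (b (l 16600888) (b (l 16657056) (l 16668944)))) (b (a (l 16546408) (l 16463432)) (a (b (l 16635376) (l 16673624)) (l 16588080)))) (a (b (a (a (b (l 16653936) (l 16659720)) (a (l 16634200) (l 16655384))) (l 16563576)) (a (a (b (l 16660816) (l 16626336)) (b (a (l 16658752) (l 16633440)) (a (l 16626608) (l 16625744)))) (b (l 16650200) (l 16606152)))) (a (b (l 16676976) (b (l 16654768) (l 16630016))) (b (l 16422352) (l 16426800))))), by decide +kernel⟩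

def k18_pp_123 : ∃ t, chk3 f_pp_123 t 3 2 1 = true :=
  ⟨(a (b (a (b (a (l 16354120) (l 16226552)) (a (l 16531672) (l 16437448))) (b (l 15791008) (a (l 16327192) (l 16206624)))) (b (a (a (b (l 16644424) (l 16676280)) (b (l 16573600) (l 16653840))) (a (l 16539824) (l 16450344))) (b (a (l 16487472) (a (l 16659112) (l 16601752))) (a (l 16654320) (a (l 16653704) (l 16634856)))))) (b (a (b (b (l 15745176) (l 15675168)) (a (l 16075592) (l 15936840))) (b (l 15758088) (a (l 15800200) (l 15726232)))) (a (b (a (l 16322768) (l 16218960)) (a (b (l 16517408) (l 16591648)) (l 16466928))) (b (a (l 16085040) (l 15942112)) (a (l 148745689111) (l 1)))))), by decide +kernel⟩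

def k19_pp_123 : ∃ t, chk3 f_pp_123 t 4 6 1 = true :=
  ⟨(a (l 3) (a (b (a (b (l 3) (l 3)) (b (a (b (a (c (b (l 305110165015) (l 349133524135)) (b (l 317994993495) (l 362018331207))) (b (l 16595896) (c (l 16605896) (l 16561840)))) (a (l 3) (b (c (l 301352037991) (l 316921206487)) (l 353428507143)))) (b (b (l 16597656) (l 16585688)) (a (b (l 16573344) (l 153175658695)) (l 16591288)))) (a (l 3) (b (a (c (l 309941924535) (l 327658593687)) (c (l 16567264) (l 16537816))) (a (l 3) (b (l 293835760775) (l 335174789815))))))) (l 3)) (b (b (a (a (b (l 16595720) (l 16574592)) (b (l 16599800) (l 16581232))) (b (l 16601200) (a (l 16585688) (l 16586816)))) (a (a (b (c (l 16569856) (l 16544896)) (c (l 16552248) (l 16532256))) (b (l 16563192) (c (l 16557056) (l 16542000)))) (a (b (l 16570664) (l 16556688)) (b (l 16574256) (l 16563440))))) (b (a (a (b (c (l 255717915303) (a (l 312089223831) (l 16526192))) (c (l 287930152631) (l 304036170519))) (b (c (l 16543336) (l 16533432)) (c (l 16533720)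 (l 16530200)))) (b (a (l 16545768) (l 16555024)) (a (c (l 16540608) (l 16540088)) (l 16549360)))) (a (a (l 3) (b (c (l 16528440) (l 16533032)) (c (l 254644079543) (l 16450960)))) (b (a (c (l 16535064) (l 16541208)) (l 16505984)) (a (c (l 16532704) (l 16535824)) (l 16403304)))))))), by decide +kernel⟩

def k20_pp_123 : ∃ t, chk3 f_pp_123 t 5 6 1 = true :=
  ⟨(a (a (b (a (b (l 16594168) (b (l 16575344) (l 16566104))) (b (a (l 16594560) (a (l 16594096) (l 16593184))) (a (l 16570728) (a (l 16570600) (l 16569784))))) (a (b (a (b (l 16560512) (l 16558040)) (l 16498320)) (a (b (l 16557632) (l 16559840)) (b (l 16563728) (l 16566744)))) (b (a (l 16541024) (b (l 16562216) (l 16477552))) (a (b (l 16564504) (l 16566336)) (a (l 16480648) (b (l 16563104) (l 16560704))))))) (b (b (l 16535416) (b (l 16579480) (l 16571984))) (b (b (l 16571848) (l 16569792)) (b (l 16522504) (l 16430536))))) (b (b (a (l 16612536) (l 16622936)) (a (l 16594904) (l 16598104))) (b (a (l 16513008) (l 16568656)) (a (b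 (l 16557536) (l 16542928)) (b (l 16542816) (l 16523504)))))), by decide +kernel⟩

def k21_pp_123 : ∃ t, chk3 f_pp_123 t 3 6 1 = true :=
  ⟨(a (b (a (b (l 16624376) (l 16588304)) (b (l 16609288) (l 16556504))) (a (b (a (l 16555080) (l 16536520)) (a (l 16341856) (l 16329568))) (b (a (l 16509664) (l 1)) (l 1)))) (b (a (b (a (l 16576976) (l 1)) (l 1)) (l 1)) (l 1))), by decide +kernel⟩

def k22_pp_123 : ∃ t, chk3 f_pp_123 t 1 7 1 = true :=
  ⟨(a (a (a (l 3) (a (l 3) (a (b (b (l 3) (l 3)) (l 3)) (a (b (b (b (b (l 16440104) (l 16402320)) (b (l 16407232) (l 16407520))) (b (l 3) (l 3))) (l 3)) (b (b (b (c (l 16541128) (l 16523472)) (c (l 16543720) (l 16505272))) (b (c (l 16549328) (l 16421024)) (b (l 16329824) (l 16280896)))) (b (b (c (l 16571224) (l 159080511847)) (l 1)) (l 1))))))) (b (a (a (a (b (a (b (l 16477128) (l 16387992)) (b (l 16500768) (l 16430072))) (b (a (c (l 16557616) (l 16459064)) (l 16313024)) (a (c (l 16565312) (l 16390392)) (c (l 16574400) (l 16385248))))) (a (b (c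 (l 16564600) (l 16339784)) (b (l 16308992) (c (l 16578552) (l 16420536)))) (b (b (c (l 16558272) (l 16512448)) (c (l 16563840) (l 16468784))) (a (b (l 16429792) (l 16327272)) (b (l 16278088) (c (l 16569368) (l 16430536))))))) (b (b (c (l 16561448) (l 16500000)) (c (l 16564064) (l 16474032))) (b (b (l 16308992) (c (l 16560024) (l 16436440))) (c (l 16530888) (a (l 16418520) (l 1)))))) (b (a (b (l 16400976) (l 30097258279)) (b (l 16500136) (l 1))) (l 1))) (a (a (a (b (b (a (b (l 16265944) (l 1)) (l 1)) (l 1)) (l 1)) (l 1)) (l 1)) (l 1)))) (l 1)), by decide +kernel⟩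

theorem s23_pp_123 : ∃ t, chk3 f_pp_123 t 2 6 1 = true := ex3_a k19_pp_123 k20_pp_123

theorem s24_pp_123 : ∃ t, chk3 f_pp_123 t 1 6 1 = true := ex3_a s23_pp_123 k21_pp_123

theorem s25_pp_123 : ∃ t, chk3 f_pp_123 t 1 3 1 = true := ex3_b s24_pp_123 k22_pp_123

theorem s26_pp_123 : ∃ t, chk3 f_pp_123 t 72 22 1 = true := ex3_b k11_pp_123 k12_pp_123

theorem s27_pp_123 : ∃ t, chk3 f_pp_123 t 36 22 1 = true := ex3_a s26_pp_123 k13_pp_123

theorem s28_pp_123 : ∃ t, chk3 f_pp_123 t 36 11 1 = true := ex3_b s27_pp_123 k14_pp_123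

theorem s29_pp_123 : ∃ t, chk3 f_pp_123 t 18 11 1 = true := ex3_a s28_pp_123 k15_pp_123

theorem s30_pp_123 : ∃ t, chk3 f_pp_123 t 18 5 1 = true := ex3_b k10_pp_123 s29_pp_123

theorem s31_pp_123 : ∃ t, chk3 f_pp_123 t 9 5 1 = true := ex3_a s30_pp_123 k16_pp_123

theorem s32_pp_123 : ∃ t, chk3 f_pp_123 t 9 2 1 = true := ex3_b k9_pp_123 s31_pp_123

theorem s33_pp_123 : ∃ t, chk3 f_pp_123 t 35 10 1 = true := ex3_b k6_pp_123 k7_pp_123

theorem s34_pp_123 : ∃ t, chk3 f_pp_123 t 17 10 1 = true := ex3_a k5_pp_123 s33_pp_123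

theorem s35_pp_123 : ∃ t, chk3 f_pp_123 t 17 5 1 = true := ex3_b s34_pp_123 k8_pp_123

theorem s36_pp_123 : ∃ t, chk3 f_pp_123 t 34 9 1 = true := ex3_b k2_pp_123 k3_pp_123

theorem s37_pp_123 : ∃ t, chk3 f_pp_123 t 17 9 1 = true := ex3_a s36_pp_123 k4_pp_123

theorem s38_pp_123 : ∃ t, chk3 f_pp_123 t 17 4 1 = true := ex3_b k1_pp_123 s37_pp_123

theorem s39_pp_123 : ∃ t, chk3 f_pp_123 t 17 2 1 = true := ex3_b s38_pp_123 s35_pp_123

theorem s40_pp_123 : ∃ t, chk3 f_pp_123 t 8 2 1 = true := ex3_a k0_pp_123 s39_pp_123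

theorem s41_pp_123 : ∃ t, chk3 f_pp_123 t 4 2 1 = true := ex3_a s40_pp_123 s32_pp_123

theorem s42_pp_123 : ∃ t, chk3 f_pp_123 t 2 2 1 = true := ex3_a s41_pp_123 k17_pp_123

theorem s43_pp_123 : ∃ t, chk3 f_pp_123 t 1 2 1 = true := ex3_a s42_pp_123 k18_pp_123

theorem s44_pp_123 : ∃ t, chk3 f_pp_123 t 1 1 1 = true := ex3_b s43_pp_123 s25_pp_123

theorem c_pp_123 : CertB 536870912 536870912 0 1230186008 923417968 42949674 3 eng mog cd0q1 cd3q3 pd2 false true true .npn 1 2 3
    ndB0q1 ndB3q3 pcB2 cut_pp_123 Ext.none :=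
  certB2 (fam := false) (s1 := true) (s2 := true) (a := 1) (b := 2) (c := 3) (cn := .npn) (n1 := ndB0q1) (n2 := ndB3q3) (pc := pcB2) (cut := cut_pp_123) (xt := Ext.none) (P1 := 536870912) (W1 := 536870912) (P2 := 0) (W2 := 1230186008) (P3 := 923417968) (W3 := 42949674) (N0 := 3) (En := eng) (mo := mog) (C1 := cd0q1) (C2 := cd3q3) (C3 := pd2)
    rfl (fun _ => rfl) s44_pp_123

noncomputable def f_pp_133 : ℕ → ℕ → ℕ → ℕ → Bool := onCell 1610612736 536870912 0 1230186008 923417968 42949674
    (rowB 3 eng mog cd0q1 cd3q3 pd3 2 false true true .dn 1 3 3 (qsf 536870912 536870912 0 1230186008 3) ndB0q1 ndB3q3 pcB3 Cut.none Ext.none)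

def k0_pp_133 : ∃ t, chk3 f_pp_133 t 1 1 1 = true :=
  ⟨(b (b (a (a (a (b (l 16540880) (l 1)) (l 1)) (l 1)) (l 1)) (l 1)) (l 1)), by decide +kernel⟩

theorem c_pp_133 : CertB 536870912 536870912 0 1230186008 923417968 42949674 3 eng mog cd0q1 cd3q3 pd3 false true true .dn 1 3 3
    ndB0q1 ndB3q3 pcB3 Cut.none Ext.none :=
  certB2 (fam := false) (s1 := true) (s2 := true) (a := 1) (b := 3) (c := 3) (cn := .dn) (n1 := ndB0q1) (n2 := ndB3q3) (pc := pcB3) (cut := Cut.none) (xt := Ext.none) (P1 := 536870912) (W1 := 536870912) (P2 := 0) (W2 := 1230186008) (P3 := 923417968) (W3 := 42949674) (N0 := 3) (En := eng) (mo := mog) (C1 := cd0q1) (C2 := cd3q3) (C3 := pd3)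
    rfl (fun _ => rfl) k0_pp_133

noncomputable def f_pp_202 : ℕ → ℕ → ℕ → ℕ → Bool := onCell 0 536870912 1073741824 536870912 923417968 42949674
    (rowB 3 eng mog cd0q2 cd3q2 pd0 0 false true true .pp 2 0 2 (qsf 0 536870912 1073741824 536870912 0) ndB0q2 ndB3q2 pcB0 Cut.none Ext.none)

def k0_pp_202 : ∃ t, chk3 f_pp_202 t 1 1 1 = true :=
  ⟨(a (l 5) (l 3)), by decide +kernel⟩

theorem c_pp_202 : CertB 0 536870912 1073741824 536870912 923417968 42949674 3 eng mog cd0q2 cd3q2 pd0 false true true .pp 2 0 2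
    ndB0q2 ndB3q2 pcB0 Cut.none Ext.none :=
  certB0 (fam := false) (s1 := true) (s2 := true) (a := 2) (b := 0) (c := 2) (cn := .pp) (n1 := ndB0q2) (n2 := ndB3q2) (pc := pcB0) (cut := Cut.none) (xt := Ext.none) (P1 := 0) (W1 := 536870912) (P2 := 1073741824) (W2 := 536870912) (P3 := 923417968) (W3 := 42949674) (N0 := 3) (En := eng) (mo := mog) (C1 := cd0q2) (C2 := cd3q2) (C3 := pd0)
    rfl k0_pp_202

noncomputable def f_pp_203 : ℕ → ℕ → ℕ → ℕ → Bool := onCell 0 536870912 0 1230186008 923417968 42949674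
    (rowB 3 eng mog cd0q2 cd3q3 pd0 0 false true true .up 2 0 3 (qsf 0 536870912 0 1230186008 0) ndB0q2 ndB3q3 pcB0 Cut.none Ext.none)

def k0_pp_203 : ∃ t, chk3 f_pp_203 t 1 1 1 = true :=
  ⟨(b (l 2) (l 3)), by decide +kernel⟩

theorem c_pp_203 : CertB 0 536870912 0 1230186008 923417968 42949674 3 eng mog cd0q2 cd3q3 pd0 false true true .up 2 0 3
    ndB0q2 ndB3q3 pcB0 Cut.none Ext.none :=
  certB0 (fam := false) (s1 := true) (s2 := true) (a := 2) (b := 0) (c := 3) (cn := .up) (n1 := ndB0q2) (n2 := ndB3q3) (pc := pcB0) (cut := Cut.none) (xt := Ext.none) (P1 := 0) (W1 := 536870912) (P2 := 0) (W2 := 1230186008) (P3 := 923417968) (W3 := 42949674) (N0 := 3) (En := eng) (mo := mog) (C1 := cd0q2) (C2 := cd3q3) (C3 := pd0)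
    rfl k0_pp_203

noncomputable def cut_pp_213 : Cut := Cut.of [[⟨0, 1, 0, 67108864⟩, ⟨1, 1, 0, 67108864⟩, ⟨2, 2, 0, 16252928⟩]]

noncomputable def f_pp_213 : ℕ → ℕ → ℕ → ℕ → Bool := onCell 0 536870912 0 1230186008 923417968 42949674
    (rowB 3 eng mog cd0q2 cd3q3 pd1 0 false true true .pnn 2 1 3 (qsf 0 536870912 0 1230186008 1) ndB0q2 ndB3q3 pcB1 cut_pp_213 Ext.none)

def k0_pp_213 : ∃ t, chk3 f_pp_213 t 1 1 1 = true :=
  ⟨(b (a (l 3) (a (l 3) (b (a (l 3) (b (l 6) (l 3))) (l 3)))) (l 3)), by decide +kernel⟩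

theorem c_pp_213 : CertB 0 536870912 0 1230186008 923417968 42949674 3 eng mog cd0q2 cd3q3 pd1 false true true .pnn 2 1 3
    ndB0q2 ndB3q3 pcB1 cut_pp_213 Ext.none :=
  certB0 (fam := false) (s1 := true) (s2 := true) (a := 2) (b := 1) (c := 3) (cn := .pnn) (n1 := ndB0q2) (n2 := ndB3q3) (pc := pcB1) (cut := cut_pp_213) (xt := Ext.none) (P1 := 0) (W1 := 536870912) (P2 := 0) (W2 := 1230186008) (P3 := 923417968) (W3 := 42949674) (N0 := 3) (En := eng) (mo := mog) (C1 := cd0q2) (C2 := cd3q3) (C3 := pd1)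
    rfl k0_pp_213

noncomputable def f_pm_001 : ℕ → ℕ → ℕ → ℕ → Bool := onCell 0 536870912 536870912 536870912 923417968 42949674
    (rowB 3 eng mog cd0q0 cd3q1 pd0 0 false true false .up 0 0 1 (qsf 0 536870912 536870912 536870912 0) ndB0q0 ndB3q1 pcB0 Cut.none Ext.none)

def k0_pm_001 : ∃ t, chk3 f_pm_001 t 1 1 1 = true :=
  ⟨(l 4), by decide +kernel⟩

theorem c_pm_001 : CertB 0 536870912 536870912 536870912 923417968 42949674 3 eng mog cd0q0 cd3q1 pd0 false true false .up 0 0 1
    ndB0q0 ndB3q1 pcB0 Cut.none Ext.none :=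
  certB0 (fam := false) (s1 := true) (s2 := false) (a := 0) (b := 0) (c := 1) (cn := .up) (n1 := ndB0q0) (n2 := ndB3q1) (pc := pcB0) (cut := Cut.none) (xt := Ext.none) (P1 := 0) (W1 := 536870912) (P2 := 536870912) (W2 := 536870912) (P3 := 923417968) (W3 := 42949674) (N0 := 3) (En := eng) (mo := mog) (C1 := cd0q0) (C2 := cd3q1) (C3 := pd0)
    rfl k0_pm_001

noncomputable def f_pm_011 : ℕ → ℕ → ℕ → ℕ → Bool := onCell 0 536870912 536870912 536870912 923417968 42949674
    (rowB 3 eng mog cd0q0 cd3q1 pd1 0 false true false .pnn 0 1 1 (qsf 0 536870912 536870912 536870912 1) ndB0q0 ndB3q1 pcB1 Cut.none Ext.none)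

def k0_pm_011 : ∃ t, chk3 f_pm_011 t 1 1 1 = true :=
  ⟨(l 4), by decide +kernel⟩

theorem c_pm_011 : CertB 0 536870912 536870912 536870912 923417968 42949674 3 eng mog cd0q0 cd3q1 pd1 false true false .pnn 0 1 1
    ndB0q0 ndB3q1 pcB1 Cut.none Ext.none :=
  certB0 (fam := false) (s1 := true) (s2 := false) (a := 0) (b := 1) (c := 1) (cn := .pnn) (n1 := ndB0q0) (n2 := ndB3q1) (pc := pcB1) (cut := Cut.none) (xt := Ext.none) (P1 := 0) (W1 := 536870912) (P2 := 536870912) (W2 := 536870912) (P3 := 923417968) (W3 := 42949674) (N0 := 3) (En := eng) (mo := mog) (C1 := cd0q0) (C2 := cd3q1) (C3 := pd1)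
    rfl k0_pm_011

noncomputable def f_pm_012 : ℕ → ℕ → ℕ → ℕ → Bool := onCell 0 536870912 1073741824 536870912 923417968 42949674
    (rowB 3 eng mog cd0q0 cd3q2 pd1 0 false true false .pnp 0 1 2 (qsf 0 536870912 1073741824 536870912 1) ndB0q0 ndB3q2 pcB1 Cut.none Ext.none)

def k0_pm_012 : ∃ t, chk3 f_pm_012 t 1 1 1 = true :=
  ⟨(l 4), by decide +kernel⟩

theorem c_pm_012 : CertB 0 536870912 1073741824 536870912 923417968 42949674 3 eng mog cd0q0 cd3q2 pd1 false true false .pnp 0 1 2
    ndB0q0 ndB3q2 pcB1 Cut.none Ext.none :=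
  certB0 (fam := false) (s1 := true) (s2 := false) (a := 0) (b := 1) (c := 2) (cn := .pnp) (n1 := ndB0q0) (n2 := ndB3q2) (pc := pcB1) (cut := Cut.none) (xt := Ext.none) (P1 := 0) (W1 := 536870912) (P2 := 1073741824) (W2 := 536870912) (P3 := 923417968) (W3 := 42949674) (N0 := 3) (En := eng) (mo := mog) (C1 := cd0q0) (C2 := cd3q2) (C3 := pd1)
    rfl k0_pm_012

noncomputable def f_pm_022 : ℕ → ℕ → ℕ → ℕ → Bool := onCell 0 536870912 1073741824 536870912 923417968 42949674
    (rowB 3 eng mog cd0q0 cd3q2 pd2 0 false true false .pp 0 2 2 (qsf 0 536870912 1073741824 536870912 2) ndB0q0 ndB3q2 pcB2 Cut.none Ext.none)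

def k0_pm_022 : ∃ t, chk3 f_pm_022 t 1 1 1 = true :=
  ⟨(l 4), by decide +kernel⟩

theorem c_pm_022 : CertB 0 536870912 1073741824 536870912 923417968 42949674 3 eng mog cd0q0 cd3q2 pd2 false true false .pp 0 2 2
    ndB0q0 ndB3q2 pcB2 Cut.none Ext.none :=
  certB0 (fam := false) (s1 := true) (s2 := false) (a := 0) (b := 2) (c := 2) (cn := .pp) (n1 := ndB0q0) (n2 := ndB3q2) (pc := pcB2) (cut := Cut.none) (xt := Ext.none) (P1 := 0) (W1 := 536870912) (P2 := 1073741824) (W2 := 536870912) (P3 := 923417968) (W3 := 42949674) (N0 := 3) (En := eng) (mo := mog) (C1 := cd0q0) (C2 := cd3q2) (C3 := pd2)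
    rfl k0_pm_022

noncomputable def f_pm_023 : ℕ → ℕ → ℕ → ℕ → Bool := onCell 0 536870912 0 1230186008 923417968 42949674
    (rowB 3 eng mog cd0q0 cd3q3 pd2 0 false true false .up 0 2 3 (qsf 0 536870912 0 1230186008 2) ndB0q0 ndB3q3 pcB2 Cut.none Ext.none)

def k0_pm_023 : ∃ t, chk3 f_pm_023 t 1 1 1 = true :=
  ⟨(a (b (l 2) (l 4)) (b (a (l 2) (b (a (l 2) (b (l 15995488) (l 16085856))) (a (b (a (l 2) (l 16181192)) (l 4)) (b (a (l 16149584) (l 16091888)) (a (l 16073184) (l 16035552)))))) (b (a (l 4) (b (l 4) (l 4))) (l 4)))), by decide +kernel⟩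

theorem c_pm_023 : CertB 0 536870912 0 1230186008 923417968 42949674 3 eng mog cd0q0 cd3q3 pd2 false true false .up 0 2 3
    ndB0q0 ndB3q3 pcB2 Cut.none Ext.none :=
  certB0 (fam := false) (s1 := true) (s2 := false) (a := 0) (b := 2) (c := 3) (cn := .up) (n1 := ndB0q0) (n2 := ndB3q3) (pc := pcB2) (cut := Cut.none) (xt := Ext.none) (P1 := 0) (W1 := 536870912) (P2 := 0) (W2 := 1230186008) (P3 := 923417968) (W3 := 42949674) (N0 := 3) (En := eng) (mo := mog) (C1 := cd0q0) (C2 := cd3q3) (C3 := pd2)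
    rfl k0_pm_023

noncomputable def f_pm_033 : ℕ → ℕ → ℕ → ℕ → Bool := onCell 1610612736 536870912 0 1230186008 923417968 42949674
    (rowB 3 eng mog cd0q0 cd3q3 pd3 2 false true false .pnn 0 3 3 (qsf 0 536870912 0 1230186008 3) ndB0q0 ndB3q3 pcB3 Cut.none Ext.none)

def k0_pm_033 : ∃ t, chk3 f_pm_033 t 1 1 1 = true :=
  ⟨(b (a (a (b (a (b (l 16454400) (l 6677008519)) (a (l 16359888) (l 16402184))) (b (a (a (l 16204072) (l 16188880)) (l 4)) (l 4))) (b (a (b (l 16246280) (l 4)) (l 4)) (l 4))) (l 4)) (l 4)), by decide +kernel⟩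

theorem c_pm_033 : CertB 0 536870912 0 1230186008 923417968 42949674 3 eng mog cd0q0 cd3q3 pd3 false true false .pnn 0 3 3
    ndB0q0 ndB3q3 pcB3 Cut.none Ext.none :=
  certB2 (fam := false) (s1 := true) (s2 := false) (a := 0) (b := 3) (c := 3) (cn := .pnn) (n1 := ndB0q0) (n2 := ndB3q3) (pc := pcB3) (cut := Cut.none) (xt := Ext.none) (P1 := 0) (W1 := 536870912) (P2 := 0) (W2 := 1230186008) (P3 := 923417968) (W3 := 42949674) (N0 := 3) (En := eng) (mo := mog) (C1 := cd0q0) (C2 := cd3q3) (C3 := pd3)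
    rfl (fun _ => rfl) k0_pm_033

noncomputable def f_pm_101 : ℕ → ℕ → ℕ → ℕ → Bool := onCell 536870912 536870912 536870912 536870912 923417968 42949674
    (rowB 3 eng mog cd0q1 cd3q1 pd0 0 false true false .npn 1 0 1 (qsf 536870912 536870912 536870912 536870912 0) ndB0q1 ndB3q1 pcB0 Cut.none Ext.none)

def k0_pm_101 : ∃ t, chk3 f_pm_101 t 1 1 1 = true :=
  ⟨(l 4), by decide +kernel⟩

theorem c_pm_101 : CertB 536870912 536870912 536870912 536870912 923417968 42949674 3 eng mog cd0q1 cd3q1 pd0 false true false .npn 1 0 1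
    ndB0q1 ndB3q1 pcB0 Cut.none Ext.none :=
  certB0 (fam := false) (s1 := true) (s2 := false) (a := 1) (b := 0) (c := 1) (cn := .npn) (n1 := ndB0q1) (n2 := ndB3q1) (pc := pcB0) (cut := Cut.none) (xt := Ext.none) (P1 := 536870912) (W1 := 536870912) (P2 := 536870912) (W2 := 536870912) (P3 := 923417968) (W3 := 42949674) (N0 := 3) (En := eng) (mo := mog) (C1 := cd0q1) (C2 := cd3q1) (C3 := pd0)
    rfl k0_pm_101

noncomputable def f_pm_102 : ℕ → ℕ → ℕ → ℕ → Bool := onCell 536870912 536870912 0 536870912 923417968 42949674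
    (rowB 3 eng mog cd0q1 cd3q2 pd0 1 false true false .npp 1 0 2 (qsf 536870912 536870912 1073741824 536870912 0) ndB0q1 ndB3q2 pcB0 Cut.none Ext.none)

def k0_pm_102 : ∃ t, chk3 f_pm_102 t 2 1 1 = true :=
  ⟨(b (l 4) (b (l 4) (a (l 4) (b (l 4) (a (l 4) (b (l 4) (a (l 4) (l 15384344)))))))), by decide +kernel⟩

def k1_pm_102 : ∃ t, chk3 f_pm_102 t 6 2 1 = true :=
  ⟨(a (a (l 4) (b (l 1) (b (b (l 1) (l 328596143047)) (b (l 331817219335) (l 15654400))))) (b (b (l 1) (b (l 1) (a (l 1) (b (l 1) (l 15748240))))) (b (b (a (l 273298845655) (c (l 15704824) (l 15666352))) (c (l 179346228967) (l 238938324183))) (b (c (l 15584512) (l 15548880)) (c (l 15513456) (l 15460600)))))), by decide +kernel⟩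

def k2_pm_102 : ∃ t, chk3 f_pm_102 t 7 2 1 = true :=
  ⟨(b (a (b (a (l 1) (a (l 1) (b (l 1) (b (l 1) (l 15721936))))) (b (a (b (l 1) (l 15761520)) (b (a (l 15718080) (l 15675712)) (l 15758096))) (a (b (l 15695776) (l 15652472)) (b (l 15609176) (l 15564328))))) (b (a (b (a (l 1) (b (l 1) (c (l 15771312) (l 15741408)))) (a (c (l 219611946839) (l 205116374407)) (b (b (l 15699152) (l 15677216)) (l 15644568)))) (b (b (a (c (l 233570522439) (l 224443678951)) (c (l 15744776) (l 15713744))) (a (c (l 15731912) (l 15694064)) (b (l 15688232) (l 15661872)))) (b (a (l 15657160) (l 15662600)) (a (l 15606016) (l 15564992))))) (a (b (a (b (l 15636864) (l 15591168)) (b (l 15596656) (l 15546112))) (a (l 15518232) (l 15489304))) (b (a (b (l 15552808) (l 15498776)) (b (l 15508760) (l 15452192))) (c (a (l 15478576) (l 15435688)) (a (l 15354016) (l 15296696))))))) (b (b (a (a (c (l 15621128) (l 15555248)) (c (l 15543720) (l 15444848))) (a (c (l 15457992) (l 15323928)) (a (l 15308056) (b (l 15282352)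 (l 15228480))))) (a (a (l 15523360) (l 15526664)) (a (c (l 15372688) (l 15203976)) (a (l 15200384) (b (a (l 15184952) (l 15162312)) (a (l 15134536) (l 15121472))))))) (a (a (c (l 15433928) (l 15306160)) (c (l 15535080) (l 15170624))) (a (b (c (l 15289976) (l 15084064)) (a (l 15122328) (c (l 15190080) (l 14936184)))) (b (a (b (l 15126040) (l 15078240)) (c (l 15183536) (l 14951584))) (a (b (l 15039112) (l 15009360)) (l 15131080))))))), by decide +kernel⟩

def k3_pm_102 : ∃ t, chk3 f_pm_102 t 3 3 1 = true :=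
  ⟨(a (c (b (a (b (a (l 501132779287) (l 15580520)) (a (l 15451720) (l 15447000))) (b (b (l 15464512) (l 15396464)) (b (l 15331432) (l 15271736)))) (b (a (l 15378416) (a (l 15238352) (l 15157336))) (a (l 15280088) (a (l 15168008) (b (l 15110424) (l 15089632)))))) (b (a (b (a (l 15685648) (l 15524136)) (a (l 15533856) (l 15387184))) (b (a (l 15399704) (l 15253696)) (a (l 15230352) (l 15073064)))) (b (a (a (l 15308408) (l 15236720)) (a (l 15074296) (l 14912664))) (a (a (l 15264320) (l 15106384)) (a (l 14948208) (b (l 14817864) (l 14785504))))))) (a (b (b (a (c (l 15291400) (l 15105176)) (b (l 15165408) (c (l 15171328) (l 14905008)))) (a (b (l 15080176) (l 15008712)) (b (c (l 15112816) (l 14819200)) (c (l 15062040) (l 14757360))))) (c (b (a (b (l 15097800) (l 15060264)) (b (l 15012032) (l 14957816))) (a (b (l 15019080) (l 14963568)) (b (a (l 14927096) (l 14868888)) (a (l 14863216) (l 14857368))))) (b (a (b (l 14795928) (l 14747720)) (b (l 14715344) (l 14684008))) (a (b (l 14716896)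 (l 14692096)) (b (l 14848232) (a (l 14642448) (l 14647992))))))) (a (b (a (b (b (l 15055512) (c (l 15104376) (l 14813608))) (b (l 14910584) (l 14862864))) (b (b (b (l 15002776) (l 14974408)) (l 14933912)) (b (l 14882248) (l 14832256)))) (b (b (c (l 15152872) (l 14848088)) (c (a (l 14879704) (l 14868144)) (a (l 14651136) (l 14651760)))) (b (c (l 15029256) (l 14666344)) (l 14829408)))) (b (b (b (c (l 15076056) (l 14827848)) (c (l 15016664) (l 14773344))) (b (c (l 15149272) (a (l 14731024) (l 14719152))) (c (a (l 14913296) (l 14900296)) (a (l 14688088) (l 14687208))))) (b (b (a (b (l 14775480) (l 14769784)) (l 14801584)) (l 14816928)) (b (l 14870648) (l 14942432))))))), by decide +kernel⟩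

theorem s4_pm_102 : ∃ t, chk3 f_pm_102 t 3 2 1 = true := ex3_a k1_pm_102 k2_pm_102

theorem s5_pm_102 : ∃ t, chk3 f_pm_102 t 3 1 1 = true := ex3_b s4_pm_102 k3_pm_102

theorem s6_pm_102 : ∃ t, chk3 f_pm_102 t 1 1 1 = true := ex3_a k0_pm_102 s5_pm_102

theorem c_pm_102 : CertB 536870912 536870912 1073741824 536870912 923417968 42949674 3 eng mog cd0q1 cd3q2 pd0 false true false .npp 1 0 2
    ndB0q1 ndB3q2 pcB0 Cut.none Ext.none :=
  certB1 (fam := false) (s1 := true) (s2 := false) (a := 1) (b := 0) (c := 2) (cn := .npp) (n1 := ndB0q1) (n2 := ndB3q2) (pc := pcB0) (cut := Cut.none) (xt := Ext.none) (P1 := 536870912) (W1 := 536870912) (P2 := 1073741824) (W2 := 536870912) (P3 := 923417968) (W3 := 42949674) (N0 := 3) (En := eng) (mo := mog) (C1 := cd0q1) (C2 := cd3q2) (C3 := pd0)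
    rfl (fun _ => rfl) s6_pm_102

noncomputable def f_pm_112 : ℕ → ℕ → ℕ → ℕ → Bool := onCell 536870912 536870912 1073741824 536870912 923417968 42949674
    (rowB 3 eng mog cd0q1 cd3q2 pd1 0 false true false .dn 1 1 2 (qsf 536870912 536870912 1073741824 536870912 1) ndB0q1 ndB3q2 pcB1 Cut.none Ext.none)

def k0_pm_112 : ∃ t, chk3 f_pm_112 t 1 1 1 = true :=
  ⟨(a (a (l 4) (b (b (l 4) (a (l 4) (b (l 4) (a (l 4) (l 15385000))))) (b (a (l 4) (b (a (l 4) (l 15291256)) (a (l 15250880) (l 15215480)))) (a (b (l 4) (a (l 4) (l 23317519319))) (b (a (b (l 15185552) (l 15143080)) (l 15148848)) (a (b (l 15100448) (l 15052864)) (b (l 15096304) (b (l 15066672) (l 15042792))))))))) (b (a (b (l 1) (a (b (l 1) (a (l 15348352) (l 1))) (l 1))) (l 1)) (a (b (a (b (a (l 15268736) (l 15267184)) (b (l 15224720) (l 15199752))) (b (l 202967791943) (a (b (l 15241768) (l 15226152)) (b (l 15251672) (l 15219216))))) (a (a (b (l 15155152) (b (l 15105104) (l 15048808))) (b (b (l 15186936) (l 15047936)) (b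 (l 15098576) (l 15028480)))) (a (b (b (l 15214184) (l 15182648)) (b (l 15077560) (c (l 15084440) (l 14953264)))) (b (b (l 15170936) (l 15115488)) (b (c (l 15134424) (l 14986576)) (l 15031880)))))) (b (a (b (l 1) (a (b (l 1) (l 15177304)) (l 1))) (l 1)) (b (a (a (b (l 15131712) (l 15294376)) (b (l 15308264) (l 15055792))) (a (b (l 1) (l 14997784)) (l 1))) (a (a (b (l 15058304) (l 15043400)) (l 15042944)) (a (c (l 15102496) (l 14915040)) (c (l 15042728) (l 14847736))))))))), by decide +kernel⟩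

theorem c_pm_112 : CertB 536870912 536870912 1073741824 536870912 923417968 42949674 3 eng mog cd0q1 cd3q2 pd1 false true false .dn 1 1 2
    ndB0q1 ndB3q2 pcB1 Cut.none Ext.none :=
  certB0 (fam := false) (s1 := true) (s2 := false) (a := 1) (b := 1) (c := 2) (cn := .dn) (n1 := ndB0q1) (n2 := ndB3q2) (pc := pcB1) (cut := Cut.none) (xt := Ext.none) (P1 := 536870912) (W1 := 536870912) (P2 := 1073741824) (W2 := 536870912) (P3 := 923417968) (W3 := 42949674) (N0 := 3) (En := eng) (mo := mog) (C1 := cd0q1) (C2 := cd3q2) (C3 := pd1)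
    rfl k0_pm_112

noncomputable def cut_pm_113 : Cut := Cut.of [[⟨0, 1, 0, 67108864⟩, ⟨1, 1, 0, 67108864⟩, ⟨2, 2, 0, 16252928⟩]]

noncomputable def f_pm_113 : ℕ → ℕ → ℕ → ℕ → Bool := onCell 536870912 536870912 0 1230186008 923417968 42949674
    (rowB 3 eng mog cd0q1 cd3q3 pd1 0 false true false .nn 1 1 3 (qsf 536870912 536870912 0 1230186008 1) ndB0q1 ndB3q3 pcB1 cut_pm_113 Ext.none)

def k0_pm_113 : ∃ t, chk3 f_pm_113 t 2 1 1 = true :=
  ⟨(b (l 2) (b (a (l 2) (b (l 2) (a (l 2) (b (l 2) (a (l 2) (l 208403053863)))))) (b (a (l 2) (a (b (a (l 2) (b (l 2) (l 14399328))) (b (a (l 2) (l 14451880)) (a (b (l 14296896) (l 228266432391)) (l 14519592)))) (b (a (b (l 14571192) (l 14606096)) (b (l 14782472) (l 14812264))) (a (b (l 14655272) (l 14716104)) (b (l 14852000) (l 14900744)))))) (a (l 4) (b (a (b (a (b (c (l 14504896) (l 14283464)) (l 66802772247)) (c (l 14697888) (b (l 14479760) (l 14535664)))) (a (c (l 14680576) (l 14496792)) (c (l 14811536) (b (a (l 14571752) (l 14646184))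 (l 14692744))))) (b (a (l 14786424) (l 14959272)) (c (a (b (l 14926256) (l 14973992)) (l 15099536)) (a (b (l 14774576) (a (l 14796256) (l 14873096))) (a (l 15062952) (l 14995304)))))) (a (a (l 4) (a (b (l 14861016) (l 15006496)) (b (l 14926808) (l 15069928)))) (b (c (a (l 15066096) (l 15183000)) (a (b (l 14926536) (l 15019144)) (c (l 15106496) (b (l 15008504) (l 15063008))))) (c (a (l 15193520) (l 15292160)) (a (b (l 15069648) (l 15166848)) (b (l 15444496) (l 15297112))))))))))), by decide +kernel⟩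

def k1_pm_113 : ∃ t, chk3 f_pm_113 t 6 1 1 = true :=
  ⟨(b (l 2) (b (b (a (l 2) (b (a (l 2) (l 16145984)) (a (l 15636768) (l 15916496)))) (a (b (a (l 15015552) (l 15263080)) (a (l 14987984) (l 15211288))) (b (a (l 15509232) (l 15746608)) (a (l 15427312) (l 15626080))))) (b (a (b (a (l 15128840) (l 15200184)) (a (b (l 15038936) (l 15074880)) (l 15435752))) (b (a (l 15384440) (l 15550408)) (a (l 15382048) (l 15519304)))) (b (b (a (a (l 15120984) (l 15271608)) (l 15574792)) (a (a (l 15177944) (l 15316232)) (l 15579704))) (b (a (a (b (l 15227968) (a (l 15239504) (l 15298672))) (l 15372712)) (l 15576080)) (b (a (a (l 15326088) (l 15425848)) (l 15571176)) (a (a (l 15398880) (l 15472000)) (a (l 15558824) (l 15637152))))))))), by decide +kernel⟩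

def k2_pm_113 : ∃ t, chk3 f_pm_113 t 7 1 1 = true :=
  ⟨(b (b (a (l 2) (a (l 2) (b (l 6) (b (a (l 2) (a (l 16748872) (l 16726512))) (a (l 16766792) (l 16637808)))))) (a (b (a (l 2) (b (l 2) (l 16784096))) (a (l 16377176) (b (l 16766752) (l 16735136)))) (b (a (b (l 16809544) (l 16828712)) (b (a (l 16762008) (l 16712200)) (a (l 16767016) (l 16712736)))) (a (b (l 16841416) (l 16671760)) (b (a (l 16786576) (l 16728992)) (a (l 16814368) (l 16753224))))))) (b (b (a (b (a (l 16471720) (l 16683784)) (a (l 16174696) (l 16368016))) (b (a (l 16668368) (l 16623624)) (a (l 16444904) (a (l 16422984) (l 16381824))))) (a (b (a (l 15956000) (l 16112880)) (a (l 15797000) (l 15924424))) (a (b (l 16186480) (l 15988592)) (b (a (l 16180792) (l 16158936)) (b (l 16032072) (l 15950952)))))) (b (a (b (a (l 15689368) (l 15791064)) (a (l 15630416) (l 15813512))) (b (a (c (l 15897936) (l 15794680)) (c (l 15908312) (l 15800616))) (a (c (l 15774080) (l 15723064)) (c (l 15773936) (l 15729568))))) (a (a (b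 (l 15767600) (b (l 15647024) (l 15681560))) (b (c (l 15688640) (l 15669608)) (c (l 15694120) (l 15708056)))) (b (c (a (l 15701696) (l 15686392)) (a (l 15699576) (l 15701304))) (c (a (l 15685776) (l 15653288)) (a (l 15725216) (l 15718544)))))))), by decide +kernel⟩

theorem s3_pm_113 : ∃ t, chk3 f_pm_113 t 3 1 1 = true := ex3_a k1_pm_113 k2_pm_113

theorem s4_pm_113 : ∃ t, chk3 f_pm_113 t 1 1 1 = true := ex3_a k0_pm_113 s3_pm_113

theorem c_pm_113 : CertB 536870912 536870912 0 1230186008 923417968 42949674 3 eng mog cd0q1 cd3q3 pd1 false true false .nn 1 1 3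
    ndB0q1 ndB3q3 pcB1 cut_pm_113 Ext.none :=
  certB0 (fam := false) (s1 := true) (s2 := false) (a := 1) (b := 1) (c := 3) (cn := .nn) (n1 := ndB0q1) (n2 := ndB3q3) (pc := pcB1) (cut := cut_pm_113) (xt := Ext.none) (P1 := 536870912) (W1 := 536870912) (P2 := 0) (W2 := 1230186008) (P3 := 923417968) (W3 := 42949674) (N0 := 3) (En := eng) (mo := mog) (C1 := cd0q1) (C2 := cd3q3) (C3 := pd1)
    rfl s4_pm_113

end Pool.Agent.Strip051.G.I8600_9000.Tab.C.BB03

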