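import Pool.Agent.Strip051.G.I8600_9000.Tab
import Pool.Agent.Strip051.PB.ExtD2

/-! # Certificates B15 (generated) -/

set_option linter.all false
set_option maxRecDepth 100000

namespace Pool.Agent.Strip051.G.I8600_9000.Tab.C.BB03

open Pool.Agent.Strip051.PB Pool.Agent.Strip051.PB.T
open Pool.Agent.Strip051.G.I8600_9000.Tab

noncomputable def cut_pm_123 : Cut := Cut.of [[⟨0, 1, 0, 67108864⟩, ⟨1, 1, 0, 67108864⟩, ⟨2, 2, 0, 16252928⟩]]

noncomputable def f_pm_123 : ℕ → ℕ → ℕ → ℕ → Bool := onCell 1073741824 536870912 0 1230186008 923417968 42949674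
    (rowB 3 eng mog cd0q1 cd3q3 pd2 2 false true false .npn 1 2 3 (qsf 536870912 536870912 0 1230186008 2) ndB0q1 ndB3q3 pcB2 cut_pm_123 Ext.none)

def k0_pm_123 : ∃ t, chk3 f_pm_123 t 1 2 1 = true :=
  ⟨(a (a (b (a (b (a (l 6) (a (l 6) (b (l 16614296) (l 16579216)))) (a (b (b (l 6) (a (a (l 16524128) (l 16549016)) (l 16563176))) (a (l 16570848) (l 16577848))) (b (a (l 16569576) (l 16571728)) (l 16569688)))) (b (a (b (a (l 16600952) (l 16598448)) (l 16435144)) (b (l 16577112) (l 16566984))) (a (b (l 16561744) (l 16530560)) (b (l 16523264) (l 16466936))))) (a (b (a (b (a (l 16602168) (l 16590616)) (a (l 16624968) (l 16596992))) (b (l 16558856) (l 16434480))) (a (b (a (l 16621768) (l 16596296)) (b (l 16634072) (a (l 16647848) (l 16554608)))) (b (l 16494688) (b (l 16350320) (l 16299128))))) (b (a (b (l 16492576) (l 16441960)) (b (l 16398696) (l 16315608))) (b (a (a (l 16410672) (l 16333720)) (l 16216560)) (a (l 16148552) (l 15981224)))))) (b (a (b (a (l 16547368)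 (l 16485400)) (a (l 16332392) (l 16311616))) (b (a (l 16397360) (l 16283248)) (a (l 16184280) (b (l 16106408) (l 15969680))))) (b (a (a (b (l 16280584) (l 16173120)) (b (l 16137856) (l 16044616))) (a (b (l 16005184) (l 15941288)) (l 15893776))) (a (a (l 15967712) (l 15869320)) (a (l 15807032) (l 15775288)))))) (a (b (a (b (a (l 16145552) (l 15992520)) (a (b (l 15944936) (l 15863872)) (l 15829720))) (b (a (l 15853120) (l 15774192)) (l 15799656))) (a (b (l 15838440) (a (l 15773720) (l 15796312))) (b (l 15861728) (l 15864328)))) (b (a (b (l 15769192) (l 15860008)) (a (l 15887232) (l 15952984))) (a (b (l 15955752) (a (l 15957720) (l 16014520))) (b (l 16078264) (a (l 16057920) (l 1))))))), by decide +kernel⟩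

def k1_pm_123 : ∃ t, chk3 f_pm_123 t 1 3 1 = true :=
  ⟨(b (a (a (b (a (b (a (b (b (l 16484096) (l 16343520)) (l 16148536)) (l 16044392)) (a (b (l 15905448) (l 15680256)) (l 15822944))) (b (a (l 15836064) (l 15728336)) (a (l 15539848) (l 15490360)))) (a (b (a (b (l 15472192) (l 15279104)) (b (l 15381992) (l 15225888))) (a (b (l 15100376) (l 14935832)) (b (l 15080784) (l 14946528)))) (b (a (l 15273224) (l 15278056)) (a (l 15145352) (l 15096664))))) (a (b (b (l 15789480) (a (l 15475872) (l 15489424))) (b (a (l 15312808) (l 15370736)) (a (l 15177528) (l 15282592)))) (a (b (l 15573848) (a (l 5601326951) (l 15525992))) (b (l 15613232) (b (l 15532896) (l 4)))))) (a (b (a (a (l 15672264) (l 15740928)) (b (l 15857312) (l 15833480))) (a (b (a (l 15622672) (l 4)) (l 4)) (l 4))) (b (a (a (l 15922312) (l 1)) (l 1)) (l 1)))) (a (a (b (a (b (a (b (l 14784384) (l 14644816)) (b (l 14822560) (l 14707904))) (a (b (l 14536472) (a (l 14386976) (l 14458632))) (b (a (l 14583144) (l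 14648424)) (l 14591584)))) (b (a (b (l 14888592) (l 14806192)) (b (l 14983720) (l 14946712))) (a (b (l 14771280) (l 4)) (l 4)))) (a (l 4) (l 4))) (b (a (b (a (l 15150056) (l 4)) (l 4)) (l 4)) (l 4))) (l 1))), by decide +kernel⟩

theorem s2_pm_123 : ∃ t, chk3 f_pm_123 t 1 1 1 = true := ex3_b k0_pm_123 k1_pm_123

theorem c_pm_123 : CertB 536870912 536870912 0 1230186008 923417968 42949674 3 eng mog cd0q1 cd3q3 pd2 false true false .npn 1 2 3
    ndB0q1 ndB3q3 pcB2 cut_pm_123 Ext.none :=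
  certB2 (fam := false) (s1 := true) (s2 := false) (a := 1) (b := 2) (c := 3) (cn := .npn) (n1 := ndB0q1) (n2 := ndB3q3) (pc := pcB2) (cut := cut_pm_123) (xt := Ext.none) (P1 := 536870912) (W1 := 536870912) (P2 := 0) (W2 := 1230186008) (P3 := 923417968) (W3 := 42949674) (N0 := 3) (En := eng) (mo := mog) (C1 := cd0q1) (C2 := cd3q3) (C3 := pd2)
    rfl (fun _ => rfl) s2_pm_123

noncomputable def f_pm_133 : ℕ → ℕ → ℕ → ℕ → Bool := onCell 536870912 536870912 0 1230186008 923417968 42949674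
    (rowB 3 eng mog cd0q1 cd3q3 pd3 0 false true false .dn 1 3 3 (qsf 536870912 536870912 0 1230186008 3) ndB0q1 ndB3q3 pcB3 Cut.none Ext.none)

def k0_pm_133 : ∃ t, chk3 f_pm_133 t 1 1 1 = true :=
  ⟨(b (b (a (a (a (b (l 16586448) (l 1)) (l 1)) (l 1)) (l 1)) (l 1)) (l 1)), by decide +kernel⟩

theorem c_pm_133 : CertB 536870912 536870912 0 1230186008 923417968 42949674 3 eng mog cd0q1 cd3q3 pd3 false true false .dn 1 3 3
    ndB0q1 ndB3q3 pcB3 Cut.none Ext.none :=
  certB0 (fam := false) (s1 := true) (s2 := false) (a := 1) (b := 3) (c := 3) (cn := .dn) (n1 := ndB0q1) (n2 := ndB3q3) (pc := pcB3) (cut := Cut.none) (xt := Ext.none) (P1 := 536870912) (W1 := 536870912) (P2 := 0) (W2 := 1230186008) (P3 := 923417968) (W3 := 42949674) (N0 := 3) (En := eng) (mo := mog) (C1 := cd0q1) (C2 := cd3q3) (C3 := pd3)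
    rfl k0_pm_133

noncomputable def f_pm_202 : ℕ → ℕ → ℕ → ℕ → Bool := onCell 0 536870912 0 536870912 923417968 42949674
    (rowB 3 eng mog cd0q2 cd3q2 pd0 1 false true false .pp 2 0 2 (qsf 0 536870912 1073741824 536870912 0) ndB0q2 ndB3q2 pcB0 Cut.none Ext.none)

def k0_pm_202 : ∃ t, chk3 f_pm_202 t 4 2 1 = true :=
  ⟨(a (a (l 3) (b (b (b (b (a (l 3) (b (l 16269728) (l 16329448))) (b (l 16377280) (l 16398592))) (c (l 182702943431) (l 185387265559))) (l 3)) (l 3))) (a (b (b (b (b (l 16318936) (a (l 16285560) (l 16412920))) (b (a (l 16465992) (l 16467448)) (c (l 16430264) (l 16422832)))) (b (b (a (l 16362784) (l 16370040)) (l 214378339399)) (a (l 3) (b (l 220283972071) (l 210083315751))))) (b (b (b (l 360406928455) (l 3)) (l 3)) (l 3))) (b (b (b (b (l 16390560) (l 16459256)) (b (l 16458528) (l 16415608))) (b (b (a (l 16375152) (l 16367296)) (a (l 16319640) (l 16324144))) (a (b (l 16264280) (l 16213176)) (l 16244784)))) (c (b (b (b (l 16188568) (l 213841244503))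 (b (l 209546208423) (l 204714208839))) (b (b (l 200956061335) (l 199345405095)) (b (l 279876005639) (l 3)))) (b (b (b (l 16149848) (l 225115453671)) (b (l 219209791943) (l 212230405895))) (b (b (l 208472137847) (l 208472087591)) (b (l 293834520503) (l 3)))))))), by decide +kernel⟩

def k1_pm_202 : ∃ t, chk3 f_pm_202 t 5 2 1 = true :=
  ⟨(b (a (b (b (b (a (l 16308288) (l 16499744)) (a (l 16473632) (l 16434032))) (b (l 16393136) (l 16322736))) (b (b (l 16299416) (a (b (l 16301336) (l 16286800)) (l 16235728))) (b (a (l 16239424) (l 16209840)) (a (a (l 16225088) (l 16219568)) (l 16183000))))) (b (b (b (l 16418024) (l 16340400)) (b (a (l 16267984) (l 16276816)) (a (l 16263112) (l 16222624)))) (b (b (a (l 16213616) (l 16156280)) (b (l 16150672) (l 16140992))) (b (b (l 16129560) (l 16118008)) (l 16080376))))) (b (b (a (a (b (a (l 16175816) (l 16179248)) (l 16132880)) (b (l 16155328) (l 16124008))) (b (l 16077520) (l 16053992))) (a (a (b (l 16092568) (a (l 16057592) (l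 16056040))) (a (l 16073056) (b (l 16087032) (l 16052136)))) (a (b (l 16054352) (l 16029712)) (l 16156272)))) (a (c (b (a (b (l 16052576) (a (l 16031240) (l 16024888))) (l 16028624)) (a (a (b (l 198271706647) (a (l 260011735255) (l 196124180215))) (b (l 16003832) (l 15986832))) (l 16065288))) (b (a (b (l 15998760) (l 15969976)) (l 15977648)) (a (a (b (l 209545868807) (l 204177126519)) (b (l 15942784) (l 15922168))) (l 15921528)))) (b (a (b (l 16107744) (l 16017016)) (l 15939600)) (a (b (l 15949120) (l 15925080)) (b (l 15916312) (l 16004032))))))), by decide +kernel⟩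

def k2_pm_202 : ∃ t, chk3 f_pm_202 t 2 3 1 = true :=
  ⟨(b (a (l 3) (b (a (b (a (a (b (a (l 3) (c (l 250884993847) (l 269675336023))) (l 3)) (b (c (a (l 15976552) (l 15970944)) (l 15905896)) (b (c (l 189681686743) (l 15896400)) (c (l 189144810663) (l 200955825815))))) (b (a (l 15950424) (l 15918920)) (c (l 15945320) (l 15876760)))) (a (a (l 3) (b (b (c (l 191829051959) (l 199882076871)) (c (l 192365917687) (l 228336121735))) (a (l 3) (c (b (l 189144778151) (l 211156386903)) (l 229946720087))))) (a (b (c (l 15944360) (l 15872296)) (b (c (l 15940936) (l 15866992)) (c (l 180017965111) (l 15864456)))) (c (l 15969120) (l 15855008))))) (b (a (b (l 15904320) (l 15887888)) (a (l 15880696) (l 15970328))) (a (b (l 15875440) (l 15866624)) (l 15843912)))) (a (a (l 3) (b (c (a (b (a (b (l 184312926999) (l 191292147367)) (l 15934696)) (a (l 210082629927) (b (l 15956120) (l 183239174295)))) (b (l 15922400) (l 15922720))) (a (b (b (l 193976458823) (l 193976459031)) (b (l 209545594983)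 (l 226188593159))) (b (l 15846528) (l 15844704)))) (a (b (a (l 3) (c (a (l 3) (l 188607780167)) (l 226188587559))) (l 3)) (b (b (c (l 15924552) (l 15845096)) (c (l 174112368679) (l 187533981511))) (b (c (a (l 183239142551) (l 15924376)) (l 188607729063)) (l 2)))))) (b (a (a (b (l 15869024) (l 15867240)) (l 15872632)) (l 15827392)) (c (a (b (l 15898448) (l 15923376)) (l 15863136)) (a (a (l 143980356679) (l 15811504)) (l 15784616))))))) (a (l 2) (b (a (l 2) (a (l 2) (b (l 1250471504311) (l 2)))) (l 2)))), by decide +kernel⟩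

def k3_pm_202 : ∃ t, chk3 f_pm_202 t 6 2 1 = true :=
  ⟨(b (a (b (b (b (l 16210256) (l 16256984)) (b (l 16197984) (l 16137976))) (b (b (l 16076808) (b (a (a (l 16289328) (l 16049160)) (l 16006760)) (a (l 16094112) (l 15992344)))) (b (b (a (l 16039552) (l 15979472)) (a (l 16029120) (l 15969704))) (a (l 16017240) (b (l 15960368) (l 15949752)))))) (b (b (b (b (l 16151072) (l 16162752)) (a (l 16169848) (l 16103928))) (b (l 16077512) (l 15995360))) (b (b (l 15933568) (b (a (l 15945016) (l 15875880)) (l 15893264))) (b (b (l 15876456) (l 15861448)) (b (l 15848248) (l 15836872)))))) (b (b (a (b (b (l 16178496) (l 15961552)) (l 15948176)) (b (b (l 15827336) (a (l 15864504) (l 15773824))) (a (b (l 15857376) (l 15848904)) (l 15764456)))) (a (b (l 15921880) (l 15885080)) (b (a (l 16034976) (a (l 15874728) (l 15720472))) (a (l 15784184) (a (l 15723496) (l 15683584)))))) (a (b (l 16092168) (a (l 15837872) (l 15759312))) (b (b (a (l 15744448) (l 15655576)) (l 15667112)) (l 15707976))))),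 by decide +kernel⟩

def k4_pm_202 : ∃ t, chk3 f_pm_202 t 7 4 1 = true :=
  ⟨(a (b (b (a (b (a (b (a (l 16136584) (l 16117000)) (l 16096160)) (b (l 16085560) (a (l 16066544) (l 16044080)))) (a (l 16049296) (b (l 16023232) (l 15992376)))) (b (b (l 16010664) (l 15981920)) (b (l 15952816) (a (l 15951296) (l 15897088))))) (a (b (l 15967480) (l 15905176)) (b (a (b (l 15917720) (l 15884496)) (l 15854992)) (a (l 15840000) (b (l 15808576) (l 15774368)))))) (b (b (a (l 15842824) (l 15773104)) (b (a (l 15798312) (l 15708144)) (a (l 15775304) (l 15681640)))) (b (a (b (l 15753912) (l 15734288)) (b (l 15656784) (l 15633672))) (a (l 15709296) (l 15603088))))) (a (b (b (b (b (a (l 15929136) (l 15872096)) (l 15872464)) (a (l 15857184) (l 15800632))) (b (c (l 15800376) (l 15740864)) (l 15711424))) (b (b (a (b (l 15696096) (l 15662992)) (l 15623920)) (a (b (l 15630200) (l 15603256)) (b (l 15580040) (l 15550912)))) (b (a (l 15562848) (b (l 15518672) (l 15489264))) (c (l 15553072)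 (l 15412888))))) (b (b (b (a (b (b (l 15820952) (l 15806928)) (l 15785768)) (c (a (l 15772544) (l 15744568)) (a (l 15761304) (l 15711208)))) (a (l 15743088) (b (l 15700024) (l 15671880)))) (b (a (l 15685560) (l 15629280)) (a (l 15627336) (l 15571952)))) (b (b (c (l 15590000) (l 15491584)) (l 15482616)) (b (a (l 15452280) (l 15397776)) (a (l 15393216) (l 15339600))))))), by decide +kernel⟩

def k5_pm_202 : ∃ t, chk3 f_pm_202 t 7 5 1 = true :=
  ⟨(b (b (a (b (a (l 15680792) (l 15567688)) (a (l 15659888) (l 15539888))) (b (a (l 15441128) (a (l 15339768) (l 15285360))) (a (l 15405784) (a (l 15300632) (l 15230176))))) (a (b (a (l 15637664) (l 15512896)) (a (l 15598456) (l 15473752))) (a (b (l 15373608) (l 15334712)) (b (l 15227864) (l 15189448))))) (a (b (a (b (a (l 15590296) (l 15529872)) (c (l 15571760) (l 15464752))) (c (l 15482400) (l 15347544))) (a (b (l 15476440) (l 15448944)) (b (l 15531656) (c (l 15388760) (l 15258608))))) (b (a (c (l 15360760) (l 15192768))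 (c (l 15235272) (l 15030096))) (c (a (l 15287888) (l 15167880)) (a (l 15120968) (l 14959568)))))), by decide +kernel⟩

def k6_pm_202 : ∃ t, chk3 f_pm_202 t 3 3 1 = true :=
  ⟨(b (a (b (a (a (b (b (l 15822416) (l 15818352)) (a (l 15820016) (l 15795000))) (b (l 15734024) (l 15726648))) (b (l 15628368) (l 15569376))) (a (a (b (b (l 15795848) (l 15791224)) (l 15786584)) (b (a (l 15756912) (l 15710000)) (a (l 15755160) (l 15726352)))) (b (l 15570872) (l 15672808)))) (b (a (b (a (l 15412384) (b (l 15286312) (l 15265560))) (l 15397360)) (b (a (b (l 15176672) (c (l 15202024) (l 15044024))) (c (l 15101608) (l 14896328))) (a (b (l 15279488) (l 15072472)) (b (l 14953992) (c (l 15024688) (l 14832032)))))) (a (b (l 15324184) (l 15313112)) (b (a (l 15062048) (c (l 14990232) (l 14839112))) (l 15081320))))) (a (b (a (b (a (l 15791088) (l 15746384)) (l 2)) (a (b (a (l 15703240) (l 15654488)) (l 651860303127)) (b (l 15557976) (l 15604728)))) (l 2)) (b (a (b (l 15341096) (l 15406096))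 (a (l 15191960) (l 15179456))) (a (b (l 15464120) (l 2)) (a (l 15224872) (l 15044960)))))), by decide +kernel⟩

theorem s7_pm_202 : ∃ t, chk3 f_pm_202 t 7 2 1 = true := ex3_b k4_pm_202 k5_pm_202

theorem s8_pm_202 : ∃ t, chk3 f_pm_202 t 3 2 1 = true := ex3_a k3_pm_202 s7_pm_202

theorem s9_pm_202 : ∃ t, chk3 f_pm_202 t 3 1 1 = true := ex3_b s8_pm_202 k6_pm_202

theorem s10_pm_202 : ∃ t, chk3 f_pm_202 t 2 2 1 = true := ex3_a k0_pm_202 k1_pm_202

theorem s11_pm_202 : ∃ t, chk3 f_pm_202 t 2 1 1 = true := ex3_b s10_pm_202 k2_pm_202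

theorem s12_pm_202 : ∃ t, chk3 f_pm_202 t 1 1 1 = true := ex3_a s11_pm_202 s9_pm_202

theorem c_pm_202 : CertB 0 536870912 1073741824 536870912 923417968 42949674 3 eng mog cd0q2 cd3q2 pd0 false true false .pp 2 0 2
    ndB0q2 ndB3q2 pcB0 Cut.none Ext.none :=
  certB1 (fam := false) (s1 := true) (s2 := false) (a := 2) (b := 0) (c := 2) (cn := .pp) (n1 := ndB0q2) (n2 := ndB3q2) (pc := pcB0) (cut := Cut.none) (xt := Ext.none) (P1 := 0) (W1 := 536870912) (P2 := 1073741824) (W2 := 536870912) (P3 := 923417968) (W3 := 42949674) (N0 := 3) (En := eng) (mo := mog) (C1 := cd0q2) (C2 := cd3q2) (C3 := pd0)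
    rfl (fun _ => rfl) s12_pm_202

noncomputable def f_pm_203 : ℕ → ℕ → ℕ → ℕ → Bool := onCell 0 536870912 0 1230186008 923417968 42949674
    (rowB 3 eng mog cd0q2 cd3q3 pd0 0 false true false .up 2 0 3 (qsf 0 536870912 0 1230186008 0) ndB0q2 ndB3q3 pcB0 Cut.none Ext.none)

def k0_pm_203 : ∃ t, chk3 f_pm_203 t 1 1 1 = true :=
  ⟨(b (l 2) (b (l 2) (a (a (l 3) (b (a (l 3) (a (l 3) (l 2))) (b (a (l 3) (c (a (b (l 301351625335) (l 233168888135)) (b (l 206862240183) (l 16565120))) (b (a (a (l 3) (l 291150757239)) (b (l 16351544) (l 16397344))) (a (b (l 248738237927) (l 240147954663)) (l 16178824))))) (b (a (l 3) (c (a (l 218673251063) (l 16546064)) (a (b (l 234242313863) (l 229410414135)) (l 16233400)))) (a (a (l 3) (c (l 298130047591) (b (l 251422339607) (l 246590325591)))) (a (c (l 16246888) (b (l 16214968) (l 16244680))) (c (l 16515048) (l 16236984)))))))) (b (l 2) (a (b (a (b (a (l 209479295815) (l 16409296)) (c (l 16508504) (l 16296504))) (b (l 2) (l 175656203287)))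 (a (b (c (l 16520128) (l 16255448)) (c (l 16536192) (a (l 16297600) (l 16317232)))) (c (b (l 16415008) (a (l 16466144) (l 16393000))) (b (l 16290864) (a (l 16344504) (l 16396040)))))) (a (b (b (l 2) (a (l 184782913847) (l 2))) (b (c (l 16232792) (l 16375448)) (c (l 16219272) (l 16381248)))) (b (l 2) (c (b (l 15942832) (l 15913952)) (b (l 16038816) (l 16028080)))))))))), by decide +kernel⟩

theorem c_pm_203 : CertB 0 536870912 0 1230186008 923417968 42949674 3 eng mog cd0q2 cd3q3 pd0 false true false .up 2 0 3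
    ndB0q2 ndB3q3 pcB0 Cut.none Ext.none :=
  certB0 (fam := false) (s1 := true) (s2 := false) (a := 2) (b := 0) (c := 3) (cn := .up) (n1 := ndB0q2) (n2 := ndB3q3) (pc := pcB0) (cut := Cut.none) (xt := Ext.none) (P1 := 0) (W1 := 536870912) (P2 := 0) (W2 := 1230186008) (P3 := 923417968) (W3 := 42949674) (N0 := 3) (En := eng) (mo := mog) (C1 := cd0q2) (C2 := cd3q3) (C3 := pd0)
    rfl k0_pm_203

noncomputable def cut_pm_213 : Cut := Cut.of [[⟨0, 1, 0, 67108864⟩, ⟨1, 1, 0, 67108864⟩, ⟨2, 2, 0, 16252928⟩]]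

noncomputable def f_pm_213 : ℕ → ℕ → ℕ → ℕ → Bool := onCell 0 536870912 0 1230186008 923417968 42949674
    (rowB 3 eng mog cd0q2 cd3q3 pd1 0 false true false .pnn 2 1 3 (qsf 0 536870912 0 1230186008 1) ndB0q2 ndB3q3 pcB1 cut_pm_213 Ext.none)

def k0_pm_213 : ∃ t, chk3 f_pm_213 t 2 2 1 = true :=
  ⟨(l 3), by decide +kernel⟩

def k1_pm_213 : ∃ t, chk3 f_pm_213 t 6 2 1 = true :=
  ⟨(b (l 3) (b (l 3) (a (l 3) (b (l 3) (b (a (l 3) (a (l 3) (b (a (l 3) (a (l 3) (c (c (b (l 209547310391) (l 176261275175)) (b (l 213842213527) (l 175724358135))) (c (b (l 218673985895) (l 175187421383)) (b (l 224042627543) (l 175724225271)))))) (a (b (l 3) (c (l 222968985639) (l 229948191735))) (c (a (b (a (l 218674039319) (l 212231546855)) (l 172503082375)) (b (l 167671261383) (l 16672488))) (c (a (b (l 219747688407) (l 172503076359)) (l 167134379079)) (b (l 175187357943) (l 170355535079)))))))) (a (l 3) (a (a (l 3) (a (l 3) (b (l 3) (c (l 224042663783) (l 228874396231))))) (c (a (b (a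 (l 222968957223) (b (l 177871774167) (l 16651040))) (b (l 169281832487) (l 16633088))) (b (b (l 16661976) (l 16652416)) (l 16638144))) (a (b (a (l 228874424967) (b (l 176798031735) (l 16612984))) (b (l 170355553095) (l 16575848))) (b (b (l 16597736) (l 16588208)) (l 16574120))))))))))), by decide +kernel⟩

def k2_pm_213 : ∃ t, chk3 f_pm_213 t 14 4 1 = true :=
  ⟨(b (l 3) (a (l 3) (b (l 3) (a (l 3) (b (l 3) (a (l 3) (b (a (l 3) (b (a (l 3) (b (l 3) (c (l 255181394807) (l 283635554407)))) (a (b (c (l 286856787319) (l 326585236519)) (c (l 224042868503) (l 251960174471))) (c (l 185925047879) (b (l 192904375607) (l 16750656)))))) (a (b (a (l 3) (b (c (l 253570788007) (l 282561819255)) (c (l 182166946359) (l 218674176039)))) (a (c (b (l 221358530631) (l 182703814599)) (l 217600434391)) (c (l 185925041911) (l 16747976)))) (a (b (c (l 185925044983) (l 183240697191)) (l 16742240)) (c (l 16737408) (l 16747416))))))))))), by decide +kernel⟩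

def k3_pm_213 : ∃ t, chk3 f_pm_213 t 15 8 1 = true :=
  ⟨(l 6), by decide +kernel⟩

def k4_pm_213 : ∃ t, chk3 f_pm_213 t 15 18 1 = true :=
  ⟨(b (l 6) (b (l 6) (a (b (l 6) (b (l 6) (a (a (l 3) (b (l 6) (a (a (l 3) (a (c (l 231559091527) (l 260013253623)) (l 16756648))) (a (l 16758280) (l 16756904))))) (a (l 16753568) (l 16746872))))) (a (l 16695200) (l 16718256))))), by decide +kernel⟩

def k5_pm_213 : ∃ t, chk3 f_pm_213 t 15 19 1 = true :=
  ⟨(b (a (b (a (a (a (l 3) (b (a (l 3) (b (l 3) (c (l 326585238023) (l 356650020167)))) (a (b (l 3) (c (l 325511493255) (l 335712030807))) (b (c (a (l 324974634599) (l 230485345703)) (a (l 336785795207) (l 257865766663))) (c (a (l 230485343815) (l 16756528)) (a (l 257865765127) (l 16756360))))))) (a (a (b (a (b (l 3) (b (c (l 255718289143) (l 324974631479)) (c (l 204715542551) (l 228337866599)))) (b (b (c (l 292225512663) (l 321216542119)) (c (l 232632831623) (l 260550123015))) (c (l 16758136) (l 16757944)))) (c (b (l 16751864)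 (l 16755864)) (l 16750752))) (b (b (c (l 196125610967) (l 204715548615)) (l 16754464)) (l 16744488))) (c (l 16750008) (l 16753496)))) (a (a (l 16751528) (l 16748448)) (l 16743416))) (a (a (a (b (a (l 3) (b (l 3) (c (l 290614880983) (l 323900878391)))) (a (b (l 3) (c (a (l 3) (l 225116637415)) (l 286319901239))) (b (c (a (l 255181410007) (l 16749888)) (a (l 286856789735) (l 16752040))) (c (l 189146276935) (l 16748328))))) (c (b (a (b (a (l 290614893239) (l 202031183911)) (l 189683151655)) (l 16749664)) (l 16750328)) (b (a (b (a (l 322827148631) (l 225653508887)) (l 198809962087)) (l 16743960)) (l 16752216)))) (a (c (l 16731392) (l 16750664)) (l 16748928))) (a (l 16744648) (l 16738160)))) (a (a (l 16733264) (l 16725000)) (l 16711144))) (a (a (a (c (b (a (b (a (b (l 197736210359) (l 16751960)) (l 16751816)) (l 16729016)) (l 16728576)) (l 16746208)) (b (a (b (a (b (l 222432278279) (l 16752088)) (l 16751448)) (l 16749376)) (l 16747944)) (l 16744112))) (c (l 16744736)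 (l 16740632))) (c (l 16738144) (l 16730144))) (a (l 16720040) (l 16702952)))), by decide +kernel⟩

def k6_pm_213 : ∃ t, chk3 f_pm_213 t 7 20 1 = true :=
  ⟨(a (a (l 3) (c (a (b (a (l 3) (b (l 3) (a (l 3) (b (l 3) (l 216526662071))))) (a (b (l 3) (a (l 3) (b (l 3) (l 179482563335)))) (b (a (b (l 3) (l 180556307991)) (b (l 182166932983) (l 180556324359))) (a (b (l 179482579527) (l 175724482695)) (l 16730992))))) (b (a (b (a (b (l 3) (l 254107629239)) (b (a (l 3) (l 189146265207)) (a (l 188072521463) (l 16735160)))) (a (b (a (l 183777559255) (l 181630068551)) (a (l 181093196647) (l 16743808))) (b (l 16733952) (l 16743208)))) (b (a (b (a (l 16741560) (l 16746312)) (l 16744952)) (l 16744624)) (l 16721328))) (a (b (c (l 16736912) (l 16731656)) (l 16740784)) (l 16739384)))) (a (b (a (l 3) (b (l 3) (a (l 3) (b (l 3) (l 213305462471))))) (a (b (l 3) (a (l 3) (b (l 3) (l 178408840519)))) (b (a (b (l 3) (l 178408851319)) (b (l 180019455895) (l 178408841399))) (a (b (l 179482582407)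 (l 173577001095)) (l 16742776))))) (b (a (b (a (b (l 3) (l 277729953271)) (b (a (l 3) (l 184851306615)) (a (l 183777562263) (l 16725520)))) (a (b (a (l 213842333111) (l 183240687815)) (l 182166940263)) (b (l 16745112) (l 16743376)))) (b (a (b (l 182703822807) (l 16744776)) (l 16743384)) (l 16740664))) (a (b (c (l 16742200) (l 16742328)) (l 16739920)) (l 16736184)))))) (a (a (a (b (b (l 16741008) (l 16737504)) (l 16733736)) (b (l 16734448) (l 16728864))) (b (l 16705176) (l 16720624))) (a (b (l 16712600) (l 16707544)) (l 16673048)))), by decide +kernel⟩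

def k7_pm_213 : ∃ t, chk3 f_pm_213 t 14 21 1 = true :=
  ⟨(a (a (l 3) (a (b (l 3) (b (l 3) (b (a (l 3) (a (l 3) (c (c (l 177871938807) (l 177871965751)) (c (b (l 178945713959) (l 177335093815)) (b (l 179482591127) (l 178408837255)))))) (b (a (l 3) (c (c (l 176261325751) (a (l 178945706679) (l 16738296))) (c (a (l 178945713591) (l 16741456)) (a (a (l 3) (l 178408821335)) (l 150491497991))))) (a (b (l 3) (a (l 3) (a (l 3) (c (l 181093190631) (c (l 180019455095) (l 178945651847)))))) (a (c (c (l 154786506983) (l 152102163207)) (c (a (l 149417802967) (l 16741312)) (c (l 147270317751) (l 148880885335)))) (c (l 16737152) (l 16743264)))))))) (c (b (b (l 3) (a (l 3) (b (l 180019450487) (a (l 178945707815) (l 166060807367))))) (b (a (b (a (l 3) (l 178408835735)) (c (l 176261328135) (l 176798225303))) (b (a (l 162839582359) (l 16738752)) (l 16738744))) (a (b (c (l 155323382343) (l 153175898807)) (l 16738368)) (l 16739552)))) (b (b (l 3) (a (l 3) (b (l 178945718711) (a (l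 178408833655) (l 162302706231))))) (b (a (c (b (l 179482585639) (l 177335101943)) (b (l 179482591879) (a (l 178945720919) (l 153712780023)))) (b (c (l 158544622391) (l 156934004535)) (l 16743072))) (a (b (a (b (c (l 16741552) (l 153175880775)) (l 16743168)) (l 16743192)) (l 16743400)) (l 16743232))))))) (a (b (a (c (b (a (b (l 180556303111) (l 178945689767)) (b (l 177871964871) (l 16729760))) (a (c (l 167134543815) (l 164987066295)) (l 16740032))) (b (a (c (l 179482588167) (l 178945721847)) (c (l 169282034247) (l 167671423063))) (a (b (a (l 164987061543) (l 16743344)) (l 16743048)) (l 16742424)))) (a (b (c (l 16719680) (l 16742464)) (l 16740808)) (b (l 16740760) (l 16740160)))) (b (a (c (l 16740112) (l 16731864)) (l 16740664)) (c (l 16742120) (l 16741896)))) (b (c (l 16718368) (l 16714560)) (a (l 16739480) (l 16736896))))), by decide +kernel⟩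

def k8_pm_213 : ∃ t, chk3 f_pm_213 t 15 21 1 = true :=
  ⟨(a (b (a (l 16729416) (l 16718672)) (a (l 16731232) (l 16720592))) (a (l 16706312) (l 16691816))), by decide +kernel⟩

def k9_pm_213 : ∃ t, chk3 f_pm_213 t 56 44 1 = true :=
  ⟨(a (l 3) (b (a (l 3) (b (l 3) (a (l 3) (a (l 3) (b (l 3) (c (b (l 188609361351) (l 177335071767)) (c (l 180019426215) (a (l 182703717943) (l 181629976759))))))))) (a (b (l 3) (b (b (l 3) (a (l 3) (a (l 3) (c (l 184851261319) (c (l 180556272807) (l 181629934855)))))) (a (l 3) (c (c (l 177871943511) (l 178408832647)) (c (a (l 180019391831) (l 175724393383)) (b (l 180556186999) (l 176798095383))))))) (b (a (b (l 3) (c (c (l 186461888519) (l 181630058439)) (c (b (l 180556292583) (l 178945653191)) (c (l 181093100007) (l 182166800711))))) (b (c (c (l 177335086391) (l 176798211175)) (c (a (l 178945670583) (l 175187562743)) (c (l 176798146903) (l 176798104791)))) (c (c (l 16733504) (l 16737264)) (a (c (l 16703360) (l 175187507143)) (l 16704576)))))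 (c (a (c (l 173040105527) (b (l 175187597671) (l 16737264))) (l 16736400)) (a (b (c (b (l 176798163863) (l 174113787559)) (c (l 176261250279) (l 176261209047))) (c (l 16711416) (l 16670624))) (b (l 16698336) (l 16692472)))))))), by decide +kernel⟩

def k10_pm_213 : ∃ t, chk3 f_pm_213 t 57 44 1 = true :=
  ⟨(a (b (a (a (b (a (l 3) (b (l 3) (b (l 3) (c (l 188072492087) (c (l 181630067607) (l 182703741799)))))) (c (c (l 176261344087) (b (l 177335083831) (l 174113858423))) (c (c (l 177335088311) (b (l 178408828807) (l 175187575111))) (c (b (l 177871915383) (l 175724404215)) (b (l 177335001431) (l 175724397591)))))) (c (c (b (b (l 178408807271) (l 174650731143)) (l 16734944)) (b (b (l 178408835063) (l 175187601911)) (l 16738176))) (c (b (b (c (l 178945711431) (l 181630069799)) (c (l 176261352407) (l 176798232007))) (l 16741664)) (b (c (b (l 182166910327) (l 176798189319)) (b (l 183240608135) (l 176798145191))) (l 16700712))))) (c (a (b (c (l 16735216) (l 16738272))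 (l 16737712)) (l 16717288)) (b (a (b (c (l 16741424) (a (l 16706744) (l 16718272))) (l 16734208)) (l 16739984)) (l 16726256)))) (b (a (c (a (l 16726592) (l 16737728)) (c (l 16731312) (l 16687888))) (l 16721152)) (c (l 16739848) (l 16699352)))) (b (c (l 16740648) (l 16720088)) (c (l 16743424) (l 16714200)))), by decide +kernel⟩

def k11_pm_213 : ∃ t, chk3 f_pm_213 t 56 45 1 = true :=
  ⟨(b (a (a (l 3) (b (l 3) (c (c (a (l 185925013463) (l 177871938455)) (a (l 184314364951) (b (l 180019427671) (l 171429482327)))) (b (c (c (l 181629984311) (l 181093055495)) (c (l 180556168023) (l 181093000791))) (c (a (l 182166804135) (c (l 175187523639) (l 175187486135))) (a (a (l 3) (l 180556137959)) (c (l 175187448023) (l 175724280231)))))))) (c (a (c (b (a (l 181630048679) (l 171966362055)) (l 169282006071)) (c (b (l 176798197543) (l 16736848)) (b (a (l 178945687863) (l 170892619735)) (l 167671369703)))) (b (l 16737256) (l 16739120))) (c (a (b (a (b (a (l 3) (l 179482508279))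 (a (l 178408733079) (l 173576885335))) (b (a (l 174650639399) (l 16704472)) (l 16698464))) (b (c (l 170355685527) (l 171429389719)) (l 16686592))) (l 16697824)) (a (b (a (b (a (l 3) (l 180556172039)) (a (l 178945568679) (l 174113732695))) (b (a (l 175724353415) (l 16664384)) (l 16658528))) (b (c (l 171429367559) (l 171429351383)) (l 16646952))) (l 16677160))))) (a (a (c (c (b (l 206326106279) (a (l 208473588455) (l 175187581511))) (b (b (l 3) (l 213305383831)) (b (l 180019376471) (l 176261269351)))) (b (a (l 3) (b (l 3) (c (l 216526540407) (l 221358306167)))) (b (a (l 3) (c (l 176261211111) (l 176261138855))) (c (l 175724329127) (l 176261128839))))) (b (c (c (b (l 175187582823) (l 171429487623)) (a (b (a (l 198809883607) (l 175724407863)) (l 173040040871)) (b (l 16716456) (l 16710936)))) (b (b (a (a (l 3) (c (l 177334979095) (l 177334925175))) (c (l 16680864) (l 16642672))) (c (c (l 174113767047) (l 174113729943)) (c (l 174113692247) (l 174650524887)))) (c (c (l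 171429391687) (l 171966226007)) (c (l 172503092695) (l 173039931495))))) (c (c (l 16732832) (l 16701800)) (c (l 16665192) (l 16627656))))) (c (b (a (l 16735568) (l 16740760)) (l 16726736)) (b (c (l 16679112) (l 16638368)) (l 16647128))))), by decide +kernel⟩

def k12_pm_213 : ∃ t, chk3 f_pm_213 t 57 45 1 = true :=
  ⟨(b (a (c (l 16742552) (l 16680640)) (l 16736848)) (c (l 16748624) (l 16657072))), by decide +kernel⟩

def k13_pm_213 : ∃ t, chk3 f_pm_213 t 29 22 1 = true :=
  ⟨(b (a (c (l 16724880) (l 16723184)) (l 16742960)) (a (b (l 16750320) (l 16727864)) (l 16750744))), by decide +kernel⟩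

def k14_pm_213 : ∃ t, chk3 f_pm_213 t 14 23 1 = true :=
  ⟨(a (b (a (b (a (a (c (b (c (l 171429461159) (l 170892524679)) (l 16695024)) (b (a (c (l 173039948519) (l 173576809719)) (l 16635816)) (l 16625448))) (c (l 16703528) (l 16651016))) (c (l 16709384) (l 16629576))) (a (c (l 16680800) (l 16609120)) (l 16646496))) (c (l 16710936) (l 16617048))) (a (b (a (l 16644944) (l 16623696)) (l 16675720)) (c (l 16658920) (l 16566096)))) (b (a (l 16678328) (l 16704312)) (a (l 16615520) (l 16626816)))), by decide +kernel⟩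

def k15_pm_213 : ∃ t, chk3 f_pm_213 t 15 11 1 = true :=
  ⟨(b (a (b (a (l 16736808) (l 16727208)) (l 16679128)) (b (l 16708176) (l 16719456))) (a (b (l 16727368) (l 16669648)) (b (l 16728888) (l 16740720)))), by decide +kernel⟩

def k16_pm_213 : ∃ t, chk3 f_pm_213 t 2 6 1 = true :=
  ⟨(l 3), by decide +kernel⟩

def k17_pm_213 : ∃ t, chk3 f_pm_213 t 6 12 1 = true :=
  ⟨(a (l 3) (b (a (b (l 3) (a (l 3) (a (l 3) (b (b (l 3) (l 235316953399)) (c (l 178408620455) (l 177334801767)))))) (a (c (b (a (b (l 3) (l 230485054951)) (b (a (l 222968913847) (l 167671209911)) (l 16629904))) (b (a (l 168744943031) (l 16589368)) (l 16576112))) (b (a (b (l 3) (l 235316803031)) (b (a (l 221358268183) (l 169281785543)) (l 163913055671))) (b (a (l 169281750551) (l 16540096)) (l 16530872)))) (b (b (a (c (l 16620056) (l 16563128)) (l 16587064)) (c (l 16601872) (l 16542600))) (b (l 16575376) (l 16537848))))) (c (a (b (a (l 263770990759) (b (a (l 238538144215) (l 16568832)) (l 164449938695)))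 (a (b (l 200957056759) (l 180019169303)) (b (l 16546616) (l 16534800)))) (b (a (l 16575184) (l 16541416)) (l 16580168))) (a (b (a (l 275045225751) (b (a (l 250886103127) (l 16532344)) (l 165523623863))) (a (b (l 191830308663) (l 181092850679)) (b (l 16516432) (l 16507592)))) (b (a (l 16532944) (l 16489152)) (l 16518736)))))), by decide +kernel⟩

def k18_pm_213 : ∃ t, chk3 f_pm_213 t 6 13 1 = true :=
  ⟨(a (b (a (l 3) (b (a (l 3) (b (l 3) (c (l 264307877655) (l 293835679271)))) (a (b (l 3) (l 3)) (c (b (l 183777201239) (l 16525768)) (b (l 181629662583) (l 16522120)))))) (a (a (l 3) (a (l 3) (b (l 3) (c (l 271823975527) (l 290614260631))))) (b (a (c (b (l 277192730327) (l 172502799655)) (b (l 299204280887) (l 214378625735))) (c (b (l 16519240) (l 16512832)) (l 16499688))) (c (a (b (l 16507664) (l 16518704)) (l 16502432)) (a (b (l 16536368) (l 16538936)) (l 16521408)))))) (b (a (b (c (a (b (l 167671105799) (l 16527744)) (l 16517376)) (a (b (l 170892272151) (l 16512888))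 (l 16495888))) (c (a (l 16514464) (l 16494912)) (a (l 16506464) (l 16483624)))) (b (c (l 16487256) (l 16456040)) (c (l 16457864) (l 16438752)))) (b (a (c (l 16506056) (l 16488416)) (c (l 16428384) (l 16424400))) (c (a (l 16463752) (l 16397688)) (a (l 16483352) (l 16412024)))))), by decide +kernel⟩

def k19_pm_213 : ∃ t, chk3 f_pm_213 t 7 6 1 = true :=
  ⟨(b (a (b (a (b (a (c (l 16608512) (l 16534920)) (l 16562712)) (a (l 16531304) (l 16516392))) (b (l 16555408) (l 16495664))) (a (b (a (l 16494184) (l 16473160)) (c (l 16479552) (l 16416984))) (b (l 16440600) (l 16389856)))) (b (a (b (l 16571176) (l 16483544)) (l 16582896)) (a (b (l 16405360) (l 16335048)) (l 16348016)))) (a (b (a (b (l 16474472) (l 16400032)) (b (l 16342920) (l 16299224))) (a (c (l 16445256) (l 16456480)) (c (l 16259552) (l 16223368)))) (b (a (b (l 16271328) (l 16212936)) (l 16359112)) (a (c (l 16176768) (l 16099128)) (b (l 16060728) (l 15994328)))))), by decide +kernel⟩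

def k20_pm_213 : ∃ t, chk3 f_pm_213 t 2 7 1 = true :=
  ⟨(a (l 3) (b (b (l 3) (a (l 3) (a (l 3) (a (b (l 3) (b (l 3) (c (l 16462360) (l 285245257783)))) (b (b (l 296519622135) (c (l 16383688) (l 234242591719))) (c (b (l 16550416) (l 16548848)) (b (l 16354568) (l 16440512)))))))) (b (b (b (a (l 1) (a (l 3) (a (a (l 284708287975) (l 227799981575)) (l 16318448)))) (l 1)) (l 1)) (l 1)))), by decide +kernel⟩

def k21_pm_213 : ∃ t, chk3 f_pm_213 t 3 14 1 = true :=
  ⟨(a (c (a (b (a (b (a (l 300278109671) (b (l 171965979543) (l 16527088))) (a (b (l 199883215239) (l 16496128)) (l 16521208))) (b (a (l 16510680) (l 16486480)) (l 16530096))) (b (a (a (b (l 16535656) (l 16532560)) (l 16510360)) (l 16463192)) (a (c (l 16488096) (l 16534552)) (l 16439416)))) (b (b (a (l 16440120) (l 16364760)) (a (l 16413536) (l 16328768))) (a (b (l 16383392) (l 16348960)) (b (l 16289152) (l 16245040))))) (a (b (a (b (b (l 237463960295) (l 229947729639)) (a (b (l 233168953415) (l 16405864))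 (l 16495424))) (b (a (l 16543656) (l 16523344)) (l 16517696))) (a (b (a (l 206862168359) (l 16547720)) (l 16334280)) (b (l 16542680) (l 16545536)))) (b (a (b (l 16479288) (l 16475360)) (b (l 16400520) (l 16388920))) (b (a (l 16470776) (l 16376496)) (a (l 16464608) (l 16362176)))))) (a (b (c (b (l 16440120) (l 16411360)) (a (l 16292584) (l 16190384))) (a (c (b (l 16184712) (l 16131440)) (b (l 16263280) (l 16241344))) (b (l 16220792) (c (l 16011136) (l 16101488))))) (b (a (b (l 16056968) (c (l 16017000) (l 16009768))) (b (l 15932904) (l 15877320))) (b (a (c (l 15956656) (l 15980280)) (l 15829600)) (a (l 16175448) (l 15791088)))))), by decide +kernel⟩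

def k22_pm_213 : ∃ t, chk3 f_pm_213 t 3 15 1 = true :=
  ⟨(a (b (a (a (b (c (b (l 16499888) (l 16490672)) (l 16414096)) (l 1)) (b (c (l 16410768) (l 16546128)) (c (l 183642504135) (l 16543336)))) (b (c (a (l 16309312) (l 16195352)) (a (l 16455624) (l 16344600))) (c (a (l 16263064) (l 16138496)) (a (l 16442120) (l 16321840))))) (l 1)) (a (b (b (a (c (l 16093640) (l 16215792)) (c (l 15963672) (l 16083128))) (a (c (b (l 16029872) (l 16009616)) (l 16090688)) (c (l 15930360) (l 16073664)))) (b (a (c (l 15992344) (l 16188304)) (c (l 15912280) (l 16075752))) (l 1))) (b (c (b (l 15809080) (l 15777544)) (a (l 15939688) (l 15784584))) (c (b (l 15758016) (l 15751832)) (b (l 15866128) (l 15880800)))))), by decide +kernel⟩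

theorem s23_pm_213 : ∃ t, chk3 f_pm_213 t 3 7 1 = true := ex3_b k21_pm_213 k22_pm_213

theorem s24_pm_213 : ∃ t, chk3 f_pm_213 t 1 7 1 = true := ex3_a k20_pm_213 s23_pm_213

theorem s25_pm_213 : ∃ t, chk3 f_pm_213 t 6 6 1 = true := ex3_b k17_pm_213 k18_pm_213

theorem s26_pm_213 : ∃ t, chk3 f_pm_213 t 3 6 1 = true := ex3_a s25_pm_213 k19_pm_213

theorem s27_pm_213 : ∃ t, chk3 f_pm_213 t 1 6 1 = true := ex3_a k16_pm_213 s26_pm_213

theorem s28_pm_213 : ∃ t, chk3 f_pm_213 t 1 3 1 = true := ex3_b s27_pm_213 s24_pm_213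

theorem s29_pm_213 : ∃ t, chk3 f_pm_213 t 28 45 1 = true := ex3_a k11_pm_213 k12_pm_213

theorem s30_pm_213 : ∃ t, chk3 f_pm_213 t 28 44 1 = true := ex3_a k9_pm_213 k10_pm_213

theorem s31_pm_213 : ∃ t, chk3 f_pm_213 t 28 22 1 = true := ex3_b s30_pm_213 s29_pm_213

theorem s32_pm_213 : ∃ t, chk3 f_pm_213 t 14 22 1 = true := ex3_a s31_pm_213 k13_pm_213

theorem s33_pm_213 : ∃ t, chk3 f_pm_213 t 14 11 1 = true := ex3_b s32_pm_213 k14_pm_213

theorem s34_pm_213 : ∃ t, chk3 f_pm_213 t 7 11 1 = true := ex3_a s33_pm_213 k15_pm_213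

theorem s35_pm_213 : ∃ t, chk3 f_pm_213 t 7 21 1 = true := ex3_a k7_pm_213 k8_pm_213

theorem s36_pm_213 : ∃ t, chk3 f_pm_213 t 7 10 1 = true := ex3_b k6_pm_213 s35_pm_213

theorem s37_pm_213 : ∃ t, chk3 f_pm_213 t 7 5 1 = true := ex3_b s36_pm_213 s34_pm_213

theorem s38_pm_213 : ∃ t, chk3 f_pm_213 t 15 9 1 = true := ex3_b k4_pm_213 k5_pm_213

theorem s39_pm_213 : ∃ t, chk3 f_pm_213 t 15 4 1 = true := ex3_b k3_pm_213 s38_pm_213

theorem s40_pm_213 : ∃ t, chk3 f_pm_213 t 7 4 1 = true := ex3_a k2_pm_213 s39_pm_213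

theorem s41_pm_213 : ∃ t, chk3 f_pm_213 t 7 2 1 = true := ex3_b s40_pm_213 s37_pm_213

theorem s42_pm_213 : ∃ t, chk3 f_pm_213 t 3 2 1 = true := ex3_a k1_pm_213 s41_pm_213

theorem s43_pm_213 : ∃ t, chk3 f_pm_213 t 1 2 1 = true := ex3_a k0_pm_213 s42_pm_213

theorem s44_pm_213 : ∃ t, chk3 f_pm_213 t 1 1 1 = true := ex3_b s43_pm_213 s28_pm_213

theorem c_pm_213 : CertB 0 536870912 0 1230186008 923417968 42949674 3 eng mog cd0q2 cd3q3 pd1 false true false .pnn 2 1 3
    ndB0q2 ndB3q3 pcB1 cut_pm_213 Ext.none :=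
  certB0 (fam := false) (s1 := true) (s2 := false) (a := 2) (b := 1) (c := 3) (cn := .pnn) (n1 := ndB0q2) (n2 := ndB3q3) (pc := pcB1) (cut := cut_pm_213) (xt := Ext.none) (P1 := 0) (W1 := 536870912) (P2 := 0) (W2 := 1230186008) (P3 := 923417968) (W3 := 42949674) (N0 := 3) (En := eng) (mo := mog) (C1 := cd0q2) (C2 := cd3q3) (C3 := pd1)
    rfl s44_pm_213

noncomputable def f_mm_001 : ℕ → ℕ → ℕ → ℕ → Bool := onCell 0 536870912 0 536870912 923417968 42949674
    (rowB 3 eng mog cd0q0 cd3q1 pd0 1 false false false .up 0 0 1 (qsf 0 536870912 536870912 536870912 0) ndB0q0 ndB3q1 pcB0 Cut.none Ext.none)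

def k0_mm_001 : ∃ t, chk3 f_mm_001 t 1 1 1 = true :=
  ⟨(l 3), by decide +kernel⟩

theorem c_mm_001 : CertB 0 536870912 536870912 536870912 923417968 42949674 3 eng mog cd0q0 cd3q1 pd0 false false false .up 0 0 1
    ndB0q0 ndB3q1 pcB0 Cut.none Ext.none :=
  certB1 (fam := false) (s1 := false) (s2 := false) (a := 0) (b := 0) (c := 1) (cn := .up) (n1 := ndB0q0) (n2 := ndB3q1) (pc := pcB0) (cut := Cut.none) (xt := Ext.none) (P1 := 0) (W1 := 536870912) (P2 := 536870912) (W2 := 536870912) (P3 := 923417968) (W3 := 42949674) (N0 := 3) (En := eng) (mo := mog) (C1 := cd0q0) (C2 := cd3q1) (C3 := pd0)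
    rfl (fun _ => rfl) k0_mm_001

noncomputable def f_mm_011 : ℕ → ℕ → ℕ → ℕ → Bool := onCell 0 536870912 536870912 536870912 923417968 42949674
    (rowB 3 eng mog cd0q0 cd3q1 pd1 1 false false false .pnn 0 1 1 (qsf 0 536870912 536870912 536870912 1) ndB0q0 ndB3q1 pcB1 Cut.none Ext.none)

def k0_mm_011 : ∃ t, chk3 f_mm_011 t 1 1 1 = true :=
  ⟨(l 5), by decide +kernel⟩

theorem c_mm_011 : CertB 0 536870912 536870912 536870912 923417968 42949674 3 eng mog cd0q0 cd3q1 pd1 false false false .pnn 0 1 1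
    ndB0q0 ndB3q1 pcB1 Cut.none Ext.none :=
  certB1 (fam := false) (s1 := false) (s2 := false) (a := 0) (b := 1) (c := 1) (cn := .pnn) (n1 := ndB0q0) (n2 := ndB3q1) (pc := pcB1) (cut := Cut.none) (xt := Ext.none) (P1 := 0) (W1 := 536870912) (P2 := 536870912) (W2 := 536870912) (P3 := 923417968) (W3 := 42949674) (N0 := 3) (En := eng) (mo := mog) (C1 := cd0q0) (C2 := cd3q1) (C3 := pd1)
    rfl (fun _ => rfl) k0_mm_011

noncomputable def f_mm_012 : ℕ → ℕ → ℕ → ℕ → Bool := onCell 0 536870912 1073741824 536870912 923417968 42949674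
    (rowB 3 eng mog cd0q0 cd3q2 pd1 0 false false false .pnp 0 1 2 (qsf 0 536870912 1073741824 536870912 1) ndB0q0 ndB3q2 pcB1 Cut.none Ext.none)

def k0_mm_012 : ∃ t, chk3 f_mm_012 t 1 1 1 = true :=
  ⟨(l 5), by decide +kernel⟩

theorem c_mm_012 : CertB 0 536870912 1073741824 536870912 923417968 42949674 3 eng mog cd0q0 cd3q2 pd1 false false false .pnp 0 1 2
    ndB0q0 ndB3q2 pcB1 Cut.none Ext.none :=
  certB0 (fam := false) (s1 := false) (s2 := false) (a := 0) (b := 1) (c := 2) (cn := .pnp) (n1 := ndB0q0) (n2 := ndB3q2) (pc := pcB1) (cut := Cut.none) (xt := Ext.none) (P1 := 0) (W1 := 536870912) (P2 := 1073741824) (W2 := 536870912) (P3 := 923417968) (W3 := 42949674) (N0 := 3) (En := eng) (mo := mog) (C1 := cd0q0) (C2 := cd3q2) (C3 := pd1)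
    rfl k0_mm_012

noncomputable def f_mm_022 : ℕ → ℕ → ℕ → ℕ → Bool := onCell 0 536870912 1073741824 536870912 923417968 42949674
    (rowB 3 eng mog cd0q0 cd3q2 pd2 0 false false false .pp 0 2 2 (qsf 0 536870912 1073741824 536870912 2) ndB0q0 ndB3q2 pcB2 Cut.none Ext.none)

def k0_mm_022 : ∃ t, chk3 f_mm_022 t 1 1 1 = true :=
  ⟨(l 5), by decide +kernel⟩

theorem c_mm_022 : CertB 0 536870912 1073741824 536870912 923417968 42949674 3 eng mog cd0q0 cd3q2 pd2 false false false .pp 0 2 2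
    ndB0q0 ndB3q2 pcB2 Cut.none Ext.none :=
  certB0 (fam := false) (s1 := false) (s2 := false) (a := 0) (b := 2) (c := 2) (cn := .pp) (n1 := ndB0q0) (n2 := ndB3q2) (pc := pcB2) (cut := Cut.none) (xt := Ext.none) (P1 := 0) (W1 := 536870912) (P2 := 1073741824) (W2 := 536870912) (P3 := 923417968) (W3 := 42949674) (N0 := 3) (En := eng) (mo := mog) (C1 := cd0q0) (C2 := cd3q2) (C3 := pd2)
    rfl k0_mm_022

noncomputable def f_mm_023 : ℕ → ℕ → ℕ → ℕ → Bool := onCell 0 536870912 0 1230186008 923417968 42949674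
    (rowB 3 eng mog cd0q0 cd3q3 pd2 0 false false false .up 0 2 3 (qsf 0 536870912 0 1230186008 2) ndB0q0 ndB3q3 pcB2 Cut.none Ext.none)

def k0_mm_023 : ∃ t, chk3 f_mm_023 t 1 1 1 = true :=
  ⟨(l 5), by decide +kernel⟩

theorem c_mm_023 : CertB 0 536870912 0 1230186008 923417968 42949674 3 eng mog cd0q0 cd3q3 pd2 false false false .up 0 2 3
    ndB0q0 ndB3q3 pcB2 Cut.none Ext.none :=
  certB0 (fam := false) (s1 := false) (s2 := false) (a := 0) (b := 2) (c := 3) (cn := .up) (n1 := ndB0q0) (n2 := ndB3q3) (pc := pcB2) (cut := Cut.none) (xt := Ext.none) (P1 := 0) (W1 := 536870912) (P2 := 0) (W2 := 1230186008) (P3 := 923417968) (W3 := 42949674) (N0 := 3) (En := eng) (mo := mog) (C1 := cd0q0) (C2 := cd3q3) (C3 := pd2)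
    rfl k0_mm_023

noncomputable def f_mm_033 : ℕ → ℕ → ℕ → ℕ → Bool := onCell 0 536870912 0 1230186008 923417968 42949674
    (rowB 3 eng mog cd0q0 cd3q3 pd3 0 false false false .pnn 0 3 3 (qsf 0 536870912 0 1230186008 3) ndB0q0 ndB3q3 pcB3 Cut.none Ext.none)

def k0_mm_033 : ∃ t, chk3 f_mm_033 t 1 1 1 = true :=
  ⟨(l 5), by decide +kernel⟩

theorem c_mm_033 : CertB 0 536870912 0 1230186008 923417968 42949674 3 eng mog cd0q0 cd3q3 pd3 false false false .pnn 0 3 3
    ndB0q0 ndB3q3 pcB3 Cut.none Ext.none :=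
  certB0 (fam := false) (s1 := false) (s2 := false) (a := 0) (b := 3) (c := 3) (cn := .pnn) (n1 := ndB0q0) (n2 := ndB3q3) (pc := pcB3) (cut := Cut.none) (xt := Ext.none) (P1 := 0) (W1 := 536870912) (P2 := 0) (W2 := 1230186008) (P3 := 923417968) (W3 := 42949674) (N0 := 3) (En := eng) (mo := mog) (C1 := cd0q0) (C2 := cd3q3) (C3 := pd3)
    rfl k0_mm_033

noncomputable def cut_mm_101 : Cut := Cut.of [[⟨0, 1, 0, 67108864⟩, ⟨1, 0, 0, 67108864⟩, ⟨2, 1, 0, 67108864⟩]]

noncomputable def f_mm_101 : ℕ → ℕ → ℕ → ℕ → Bool := onCell 536870912 536870912 0 536870912 923417968 42949674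
    (rowB 3 eng mog cd0q1 cd3q1 pd0 1 false false false .npn 1 0 1 (qsf 536870912 536870912 536870912 536870912 0) ndB0q1 ndB3q1 pcB0 cut_mm_101 Ext.none)

def k0_mm_101 : ∃ t, chk3 f_mm_101 t 1 1 1 = true :=
  ⟨(a (l 3) (b (a (l 3) (b (a (l 3) (b (b (a (l 3) (l 6)) (l 3)) (l 3))) (l 3))) (l 3))), by decide +kernel⟩

theorem c_mm_101 : CertB 536870912 536870912 536870912 536870912 923417968 42949674 3 eng mog cd0q1 cd3q1 pd0 false false false .npn 1 0 1
    ndB0q1 ndB3q1 pcB0 cut_mm_101 Ext.none :=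
  certB1 (fam := false) (s1 := false) (s2 := false) (a := 1) (b := 0) (c := 1) (cn := .npn) (n1 := ndB0q1) (n2 := ndB3q1) (pc := pcB0) (cut := cut_mm_101) (xt := Ext.none) (P1 := 536870912) (W1 := 536870912) (P2 := 536870912) (W2 := 536870912) (P3 := 923417968) (W3 := 42949674) (N0 := 3) (En := eng) (mo := mog) (C1 := cd0q1) (C2 := cd3q1) (C3 := pd0)
    rfl (fun _ => rfl) k0_mm_101

noncomputable def f_mm_102 : ℕ → ℕ → ℕ → ℕ → Bool := onCell 536870912 536870912 1073741824 536870912 923417968 42949674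
    (rowB 3 eng mog cd0q1 cd3q2 pd0 0 false false false .npp 1 0 2 (qsf 536870912 536870912 1073741824 536870912 0) ndB0q1 ndB3q2 pcB0 Cut.none Ext.none)

def k0_mm_102 : ∃ t, chk3 f_mm_102 t 1 1 1 = true :=
  ⟨(l 3), by decide +kernel⟩

theorem c_mm_102 : CertB 536870912 536870912 1073741824 536870912 923417968 42949674 3 eng mog cd0q1 cd3q2 pd0 false false false .npp 1 0 2
    ndB0q1 ndB3q2 pcB0 Cut.none Ext.none :=
  certB0 (fam := false) (s1 := false) (s2 := false) (a := 1) (b := 0) (c := 2) (cn := .npp) (n1 := ndB0q1) (n2 := ndB3q2) (pc := pcB0) (cut := Cut.none) (xt := Ext.none) (P1 := 536870912) (W1 := 536870912) (P2 := 1073741824) (W2 := 536870912) (P3 := 923417968) (W3 := 42949674) (N0 := 3) (En := eng) (mo := mog) (C1 := cd0q1) (C2 := cd3q2) (C3 := pd0)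
    rfl k0_mm_102

noncomputable def f_mm_112 : ℕ → ℕ → ℕ → ℕ → Bool := onCell 536870912 536870912 1073741824 536870912 923417968 42949674
    (rowB 3 eng mog cd0q1 cd3q2 pd1 0 false false false .dn 1 1 2 (qsf 536870912 536870912 1073741824 536870912 1) ndB0q1 ndB3q2 pcB1 Cut.none Ext.none)

def k0_mm_112 : ∃ t, chk3 f_mm_112 t 1 1 1 = true :=
  ⟨(l 3), by decide +kernel⟩

theorem c_mm_112 : CertB 536870912 536870912 1073741824 536870912 923417968 42949674 3 eng mog cd0q1 cd3q2 pd1 false false false .dn 1 1 2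
    ndB0q1 ndB3q2 pcB1 Cut.none Ext.none :=
  certB0 (fam := false) (s1 := false) (s2 := false) (a := 1) (b := 1) (c := 2) (cn := .dn) (n1 := ndB0q1) (n2 := ndB3q2) (pc := pcB1) (cut := Cut.none) (xt := Ext.none) (P1 := 536870912) (W1 := 536870912) (P2 := 1073741824) (W2 := 536870912) (P3 := 923417968) (W3 := 42949674) (N0 := 3) (En := eng) (mo := mog) (C1 := cd0q1) (C2 := cd3q2) (C3 := pd1)
    rfl k0_mm_112

noncomputable def f_mm_113 : ℕ → ℕ → ℕ → ℕ → Bool := onCell 536870912 536870912 0 1230186008 923417968 42949674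
    (rowB 3 eng mog cd0q1 cd3q3 pd1 0 false false false .nn 1 1 3 (qsf 536870912 536870912 0 1230186008 1) ndB0q1 ndB3q3 pcB1 Cut.none Ext.none)

def k0_mm_113 : ∃ t, chk3 f_mm_113 t 1 1 1 = true :=
  ⟨(b (l 5) (b (l 5) (a (l 5) (l 3)))), by decide +kernel⟩

theorem c_mm_113 : CertB 536870912 536870912 0 1230186008 923417968 42949674 3 eng mog cd0q1 cd3q3 pd1 false false false .nn 1 1 3
    ndB0q1 ndB3q3 pcB1 Cut.none Ext.none :=
  certB0 (fam := false) (s1 := false) (s2 := false) (a := 1) (b := 1) (c := 3) (cn := .nn) (n1 := ndB0q1) (n2 := ndB3q3) (pc := pcB1) (cut := Cut.none) (xt := Ext.none) (P1 := 536870912) (W1 := 536870912) (P2 := 0) (W2 := 1230186008) (P3 := 923417968) (W3 := 42949674) (N0 := 3) (En := eng) (mo := mog) (C1 := cd0q1) (C2 := cd3q3) (C3 := pd1)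
    rfl k0_mm_113

noncomputable def f_mm_123 : ℕ → ℕ → ℕ → ℕ → Bool := onCell 1073741824 536870912 0 1230186008 923417968 42949674
    (rowB 3 eng mog cd0q1 cd3q3 pd2 2 false false false .npn 1 2 3 (qsf 536870912 536870912 0 1230186008 2) ndB0q1 ndB3q3 pcB2 Cut.none Ext.none)

def k0_mm_123 : ∃ t, chk3 f_mm_123 t 1 1 1 = true :=
  ⟨(b (l 5) (l 5)), by decide +kernel⟩

theorem c_mm_123 : CertB 536870912 536870912 0 1230186008 923417968 42949674 3 eng mog cd0q1 cd3q3 pd2 false false false .npn 1 2 3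
    ndB0q1 ndB3q3 pcB2 Cut.none Ext.none :=
  certB2 (fam := false) (s1 := false) (s2 := false) (a := 1) (b := 2) (c := 3) (cn := .npn) (n1 := ndB0q1) (n2 := ndB3q3) (pc := pcB2) (cut := Cut.none) (xt := Ext.none) (P1 := 536870912) (W1 := 536870912) (P2 := 0) (W2 := 1230186008) (P3 := 923417968) (W3 := 42949674) (N0 := 3) (En := eng) (mo := mog) (C1 := cd0q1) (C2 := cd3q3) (C3 := pd2)
    rfl (fun _ => rfl) k0_mm_123

noncomputable def f_mm_133 : ℕ → ℕ → ℕ → ℕ → Bool := onCell 1610612736 536870912 0 1230186008 923417968 42949674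
    (rowB 3 eng mog cd0q1 cd3q3 pd3 2 false false false .dn 1 3 3 (qsf 536870912 536870912 0 1230186008 3) ndB0q1 ndB3q3 pcB3 Cut.none Ext.none)

def k0_mm_133 : ∃ t, chk3 f_mm_133 t 1 1 1 = true :=
  ⟨(l 5), by decide +kernel⟩

theorem c_mm_133 : CertB 536870912 536870912 0 1230186008 923417968 42949674 3 eng mog cd0q1 cd3q3 pd3 false false false .dn 1 3 3
    ndB0q1 ndB3q3 pcB3 Cut.none Ext.none :=
  certB2 (fam := false) (s1 := false) (s2 := false) (a := 1) (b := 3) (c := 3) (cn := .dn) (n1 := ndB0q1) (n2 := ndB3q3) (pc := pcB3) (cut := Cut.none) (xt := Ext.none) (P1 := 536870912) (W1 := 536870912) (P2 := 0) (W2 := 1230186008) (P3 := 923417968) (W3 := 42949674) (N0 := 3) (En := eng) (mo := mog) (C1 := cd0q1) (C2 := cd3q3) (C3 := pd3)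
    rfl (fun _ => rfl) k0_mm_133

noncomputable def f_mm_202 : ℕ → ℕ → ℕ → ℕ → Bool := onCell 0 536870912 0 536870912 923417968 42949674
    (rowB 3 eng mog cd0q2 cd3q2 pd0 1 false false false .pp 2 0 2 (qsf 0 536870912 1073741824 536870912 0) ndB0q2 ndB3q2 pcB0 Cut.none Ext.none)

def k0_mm_202 : ∃ t, chk3 f_mm_202 t 1 1 1 = true :=
  ⟨(b (l 3) (l 3)), by decide +kernel⟩

theorem c_mm_202 : CertB 0 536870912 1073741824 536870912 923417968 42949674 3 eng mog cd0q2 cd3q2 pd0 false false false .pp 2 0 2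
    ndB0q2 ndB3q2 pcB0 Cut.none Ext.none :=
  certB1 (fam := false) (s1 := false) (s2 := false) (a := 2) (b := 0) (c := 2) (cn := .pp) (n1 := ndB0q2) (n2 := ndB3q2) (pc := pcB0) (cut := Cut.none) (xt := Ext.none) (P1 := 0) (W1 := 536870912) (P2 := 1073741824) (W2 := 536870912) (P3 := 923417968) (W3 := 42949674) (N0 := 3) (En := eng) (mo := mog) (C1 := cd0q2) (C2 := cd3q2) (C3 := pd0)
    rfl (fun _ => rfl) k0_mm_202

noncomputable def f_mm_203 : ℕ → ℕ → ℕ → ℕ → Bool := onCell 0 536870912 0 1230186008 923417968 42949674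
    (rowB 3 eng mog cd0q2 cd3q3 pd0 0 false false false .up 2 0 3 (qsf 0 536870912 0 1230186008 0) ndB0q2 ndB3q3 pcB0 Cut.none Ext.none)

def k0_mm_203 : ∃ t, chk3 f_mm_203 t 1 1 1 = true :=
  ⟨(b (l 2) (l 3)), by decide +kernel⟩

theorem c_mm_203 : CertB 0 536870912 0 1230186008 923417968 42949674 3 eng mog cd0q2 cd3q3 pd0 false false false .up 2 0 3
    ndB0q2 ndB3q3 pcB0 Cut.none Ext.none :=
  certB0 (fam := false) (s1 := false) (s2 := false) (a := 2) (b := 0) (c := 3) (cn := .up) (n1 := ndB0q2) (n2 := ndB3q3) (pc := pcB0) (cut := Cut.none) (xt := Ext.none) (P1 := 0) (W1 := 536870912) (P2 := 0) (W2 := 1230186008) (P3 := 923417968) (W3 := 42949674) (N0 := 3) (En := eng) (mo := mog) (C1 := cd0q2) (C2 := cd3q3) (C3 := pd0)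
    rfl k0_mm_203

noncomputable def f_mm_213 : ℕ → ℕ → ℕ → ℕ → Bool := onCell 0 536870912 0 1230186008 923417968 42949674
    (rowB 3 eng mog cd0q2 cd3q3 pd1 0 false false false .pnn 2 1 3 (qsf 0 536870912 0 1230186008 1) ndB0q2 ndB3q3 pcB1 Cut.none Ext.none)

def k0_mm_213 : ∃ t, chk3 f_mm_213 t 1 1 1 = true :=
  ⟨(b (a (l 3) (l 5)) (l 3)), by decide +kernel⟩

theorem c_mm_213 : CertB 0 536870912 0 1230186008 923417968 42949674 3 eng mog cd0q2 cd3q3 pd1 false false false .pnn 2 1 3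
    ndB0q2 ndB3q3 pcB1 Cut.none Ext.none :=
  certB0 (fam := false) (s1 := false) (s2 := false) (a := 2) (b := 1) (c := 3) (cn := .pnn) (n1 := ndB0q2) (n2 := ndB3q3) (pc := pcB1) (cut := Cut.none) (xt := Ext.none) (P1 := 0) (W1 := 536870912) (P2 := 0) (W2 := 1230186008) (P3 := 923417968) (W3 := 42949674) (N0 := 3) (En := eng) (mo := mog) (C1 := cd0q2) (C2 := cd3q3) (C3 := pd1)
    rfl k0_mm_213

end Pool.Agent.Strip051.G.I8600_9000.Tab.C.BB03

namespace Pool.Agent.Strip051.G.I8600_9000.Tab.C.BB04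

open Pool.Agent.Strip051.PB Pool.Agent.Strip051.PB.T
open Pool.Agent.Strip051.G.I8600_9000.Tab

noncomputable def cut_pp_001 : Cut := Cut.of [[⟨3, 0, 0, 1449551462⟩]]

noncomputable def f_pp_001 : ℕ → ℕ → ℕ → ℕ → Bool := onCell 0 536870912 536870912 536870912 923417968 42949674
    (rowB 3 eng mog cd0q0 cd4q1 pd0 0 false true true .up 0 0 1 (qsf 0 536870912 536870912 536870912 0) ndB0q0 ndB4q1 pcB0 cut_pp_001 Ext.none)

def k0_pp_001 : ∃ t, chk3 f_pp_001 t 1 1 1 = true :=
  ⟨(l 6), by decide +kernel⟩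

theorem c_pp_001 : CertB 0 536870912 536870912 536870912 923417968 42949674 3 eng mog cd0q0 cd4q1 pd0 false true true .up 0 0 1
    ndB0q0 ndB4q1 pcB0 cut_pp_001 Ext.none :=
  certB0 (fam := false) (s1 := true) (s2 := true) (a := 0) (b := 0) (c := 1) (cn := .up) (n1 := ndB0q0) (n2 := ndB4q1) (pc := pcB0) (cut := cut_pp_001) (xt := Ext.none) (P1 := 0) (W1 := 536870912) (P2 := 536870912) (W2 := 536870912) (P3 := 923417968) (W3 := 42949674) (N0 := 3) (En := eng) (mo := mog) (C1 := cd0q0) (C2 := cd4q1) (C3 := pd0)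
    rfl k0_pp_001

noncomputable def cut_pp_011 : Cut := Cut.of [[⟨3, 0, 0, 1449551462⟩], [⟨0, 0, 0, 67108864⟩, ⟨1, 1, 0, 67108864⟩, ⟨2, 1, 0, 67108864⟩]]

noncomputable def f_pp_011 : ℕ → ℕ → ℕ → ℕ → Bool := onCell 0 536870912 536870912 536870912 923417968 42949674
    (rowB 3 eng mog cd0q0 cd4q1 pd1 0 false true true .pnn 0 1 1 (qsf 0 536870912 536870912 536870912 1) ndB0q0 ndB4q1 pcB1 cut_pp_011 Ext.none)

def k0_pp_011 : ∃ t, chk3 f_pp_011 t 1 1 1 = true :=
  ⟨(l 6), by decide +kernel⟩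

theorem c_pp_011 : CertB 0 536870912 536870912 536870912 923417968 42949674 3 eng mog cd0q0 cd4q1 pd1 false true true .pnn 0 1 1
    ndB0q0 ndB4q1 pcB1 cut_pp_011 Ext.none :=
  certB0 (fam := false) (s1 := true) (s2 := true) (a := 0) (b := 1) (c := 1) (cn := .pnn) (n1 := ndB0q0) (n2 := ndB4q1) (pc := pcB1) (cut := cut_pp_011) (xt := Ext.none) (P1 := 0) (W1 := 536870912) (P2 := 536870912) (W2 := 536870912) (P3 := 923417968) (W3 := 42949674) (N0 := 3) (En := eng) (mo := mog) (C1 := cd0q0) (C2 := cd4q1) (C3 := pd1)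
    rfl k0_pp_011

noncomputable def cut_pp_012 : Cut := Cut.of [[⟨3, 0, 0, 1449551462⟩], [⟨0, 0, 0, 67108864⟩, ⟨1, 1, 0, 67108864⟩, ⟨2, 1, 0, 67108864⟩]]

noncomputable def f_pp_012 : ℕ → ℕ → ℕ → ℕ → Bool := onCell 0 536870912 536870912 536870912 923417968 42949674
    (rowB 3 eng mog cd0q0 cd4q2 pd1 1 false true true .pnp 0 1 2 (qsf 0 536870912 1073741824 536870912 1) ndB0q0 ndB4q2 pcB1 cut_pp_012 Ext.none)

def k0_pp_012 : ∃ t, chk3 f_pp_012 t 1 1 1 = true :=
  ⟨(l 6), by decide +kernel⟩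

theorem c_pp_012 : CertB 0 536870912 1073741824 536870912 923417968 42949674 3 eng mog cd0q0 cd4q2 pd1 false true true .pnp 0 1 2
    ndB0q0 ndB4q2 pcB1 cut_pp_012 Ext.none :=
  certB1 (fam := false) (s1 := true) (s2 := true) (a := 0) (b := 1) (c := 2) (cn := .pnp) (n1 := ndB0q0) (n2 := ndB4q2) (pc := pcB1) (cut := cut_pp_012) (xt := Ext.none) (P1 := 0) (W1 := 536870912) (P2 := 1073741824) (W2 := 536870912) (P3 := 923417968) (W3 := 42949674) (N0 := 3) (En := eng) (mo := mog) (C1 := cd0q0) (C2 := cd4q2) (C3 := pd1)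
    rfl (fun _ => rfl) k0_pp_012

noncomputable def cut_pp_022 : Cut := Cut.of [[⟨3, 0, 0, 1449551462⟩], [⟨0, 0, 0, 67108864⟩, ⟨1, 1, 0, 67108864⟩, ⟨2, 1, 0, 67108864⟩]]

noncomputable def f_pp_022 : ℕ → ℕ → ℕ → ℕ → Bool := onCell 0 536870912 1073741824 536870912 923417968 42949674
    (rowB 3 eng mog cd0q0 cd4q2 pd2 0 false true true .pp 0 2 2 (qsf 0 536870912 1073741824 536870912 2) ndB0q0 ndB4q2 pcB2 cut_pp_022 Ext.none)

def k0_pp_022 : ∃ t, chk3 f_pp_022 t 1 1 1 = true :=
  ⟨(a (b (l 6) (a (b (a (b (b (l 6) (a (l 15949152) (l 6))) (b (a (l 15959440) (l 16010288)) (a (l 15887064) (l 16023528)))) (b (l 6) (b (l 6) (a (l 16077960) (l 6))))) (b (a (b (a (l 15815480) (l 15953696)) (l 15561216)) (a (b (l 16093576) (l 16025064)) (b (l 6) (l 16160528)))) (a (b (l 15741632) (l 15670736)) (a (l 15712472) (b (l 16092928) (l 16025432)))))) (b (l 6) (a (b (l 6) (a (a (l 16091560) (l 16128704)) (l 16441192))) (l 6))))) (l 6)), by decide +kernel⟩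

theorem c_pp_022 : CertB 0 536870912 1073741824 536870912 923417968 42949674 3 eng mog cd0q0 cd4q2 pd2 false true true .pp 0 2 2
    ndB0q0 ndB4q2 pcB2 cut_pp_022 Ext.none :=
  certB0 (fam := false) (s1 := true) (s2 := true) (a := 0) (b := 2) (c := 2) (cn := .pp) (n1 := ndB0q0) (n2 := ndB4q2) (pc := pcB2) (cut := cut_pp_022) (xt := Ext.none) (P1 := 0) (W1 := 536870912) (P2 := 1073741824) (W2 := 536870912) (P3 := 923417968) (W3 := 42949674) (N0 := 3) (En := eng) (mo := mog) (C1 := cd0q0) (C2 := cd4q2) (C3 := pd2)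
    rfl k0_pp_022

noncomputable def cut_pp_023 : Cut := Cut.of [[⟨3, 0, 0, 1449551462⟩]]

noncomputable def f_pp_023 : ℕ → ℕ → ℕ → ℕ → Bool := onCell 1073741824 536870912 0 1230186008 923417968 42949674
    (rowB 3 eng mog cd0q0 cd4q3 pd2 2 false true true .up 0 2 3 (qsf 0 536870912 0 1230186008 2) ndB0q0 ndB4q3 pcB2 cut_pp_023 Ext.none)

def k0_pp_023 : ∃ t, chk3 f_pp_023 t 1 1 1 = true :=
  ⟨(a (b (l 2) (l 6)) (a (b (l 2) (a (b (b (l 2) (l 6)) (l 6)) (b (b (b (l 16560552) (a (l 16580536) (l 16545360))) (b (l 16630176) (l 16334720))) (b (b (b (l 16437816) (l 16403528)) (b (l 16371432) (l 16340192))) (b (b (l 16307008) (l 16273784)) (b (l 16239488) (a (l 16250232) (l 16145256)))))))) (a (b (b (l 2) (b (b (l 2) (l 16624808)) (b (l 16591336) (l 16555088)))) (b (b (b (l 16520488) (l 16479128)) (b (l 16296960) (l 16352216))) (b (b (l 16281168) (l 15990168)) (b (b (l 16133128) (l 16045320)) (b (l 16029152) (a (l 16026680) (l 15895456))))))) (b (b (a (l 2) (b (l 15726304)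 (l 15921168))) (b (b (l 16329440) (a (l 16590096) (l 16539928))) (b (l 16545704) (l 16492056)))) (b (b (b (l 16437448) (l 16378344)) (b (l 16301680) (l 16220552))) (b (b (l 16127688) (b (l 16049608) (l 15993096))) (b (b (l 15924328) (a (l 15913792) (l 15783496))) (b (l 15662848) (l 15658480))))))))), by decide +kernel⟩

theorem c_pp_023 : CertB 0 536870912 0 1230186008 923417968 42949674 3 eng mog cd0q0 cd4q3 pd2 false true true .up 0 2 3
    ndB0q0 ndB4q3 pcB2 cut_pp_023 Ext.none :=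
  certB2 (fam := false) (s1 := true) (s2 := true) (a := 0) (b := 2) (c := 3) (cn := .up) (n1 := ndB0q0) (n2 := ndB4q3) (pc := pcB2) (cut := cut_pp_023) (xt := Ext.none) (P1 := 0) (W1 := 536870912) (P2 := 0) (W2 := 1230186008) (P3 := 923417968) (W3 := 42949674) (N0 := 3) (En := eng) (mo := mog) (C1 := cd0q0) (C2 := cd4q3) (C3 := pd2)
    rfl (fun _ => rfl) k0_pp_023

noncomputable def cut_pp_033 : Cut := Cut.of [[⟨3, 0, 0, 1449551462⟩]]

noncomputable def f_pp_033 : ℕ → ℕ → ℕ → ℕ → Bool := onCell 1610612736 536870912 0 1230186008 923417968 42949674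
    (rowB 3 eng mog cd0q0 cd4q3 pd3 2 false true true .pnn 0 3 3 (qsf 0 536870912 0 1230186008 3) ndB0q0 ndB4q3 pcB3 cut_pp_033 Ext.none)

def k0_pp_033 : ∃ t, chk3 f_pp_033 t 1 2 1 = true :=
  ⟨(b (a (a (a (b (a (l 16616760) (l 16551376)) (c (l 16502768) (l 16448144))) (b (l 16445272) (a (l 16421384) (l 16431712)))) (a (b (a (l 16346952) (l 16288224)) (a (l 16446760) (l 16374904))) (b (a (l 16238224) (l 16192600)) (a (l 16306032) (l 16238264))))) (a (a (b (a (l 16144736) (l 4)) (a (l 16171640) (l 16104136))) (b (l 4) (a (l 16033976) (l 4)))) (l 4))) (a (a (b (a (b (l 16474192) (a (l 16434136) (l 16400040))) (b (l 16421088) (l 16225936))) (a (b (a (l 16374976) (l 16334216)) (l 16286072)) (b (a (l 16296752) (l 16263888)) (l 16100192)))) (a (b (b (a (l 16386728) (l 16366448)) (l 16220448)) (b (a (l 16232568) (l 16202080)) (a (l 16141120) (l 16098056)))) (b (a (b (l 16341320) (l 16274360)) (l 16025336)) (b (l 15903352) (a (l 16050512) (l 16000720)))))) (b (a (a (a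 (l 16169720) (l 16079752)) (a (l 15984928) (l 15827248))) (a (a (l 15762576) (l 4)) (l 4))) (a (a (b (a (l 16105288) (l 16020032)) (a (l 15944104) (l 15882776))) (a (b (l 15903824) (l 15808056)) (b (l 15787120) (l 15684144)))) (a (a (b (l 15682416) (l 15574496)) (c (l 15538304) (l 342554405959))) (b (l 4) (l 1))))))), by decide +kernel⟩

def k1_pp_033 : ∃ t, chk3 f_pp_033 t 1 3 1 = true :=
  ⟨(b (a (a (b (a (b (l 16209176) (l 16134632)) (b (l 16117440) (l 16024000))) (a (b (l 16053320) (l 15979480)) (b (l 15922736) (c (l 15831192) (l 15805024))))) (b (a (b (a (l 16041024) (l 15982488)) (l 15895048)) (b (a (l 15916096) (l 15838920)) (a (l 15764432) (l 15664896)))) (a (b (l 15610272) (a (l 15665536) (l 15548288))) (b (a (l 15597824) (l 15474920)) (a (l 15419232) (l 15285952)))))) (b (a (a (b (a (l 15755464) (l 15662224)) (a (l 15550816) (l 15431928))) (a (b (l 15569600) (l 15320072)) (b (l 15484472) (l 15221128)))) (b (a (a (l 15419112) (l 1)) (l 1)) (l 1))) (a (a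 (a (b (l 15346416) (l 15153480)) (b (l 15219640) (l 15032728))) (b (a (l 15125288) (l 1)) (l 1))) (l 1)))) (a (b (a (b (a (l 15944640) (b (l 15737584) (l 15670512))) (a (b (l 15838552) (l 15588272)) (b (l 15583960) (l 15475688)))) (b (a (b (l 15449176) (l 15403160)) (a (l 15241800) (l 15107560))) (a (b (l 15300144) (l 15188440)) (l 1)))) (a (b (a (b (l 15652080) (l 15526224)) (b (l 15352312) (l 15225256))) (a (b (l 15387896) (a (l 15321728) (l 15182480))) (b (l 15173072) (l 1)))) (b (a (b (l 15080576) (l 1)) (l 1)) (l 1)))) (l 1))), by decide +kernel⟩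

theorem s2_pp_033 : ∃ t, chk3 f_pp_033 t 1 1 1 = true := ex3_b k0_pp_033 k1_pp_033

theorem c_pp_033 : CertB 0 536870912 0 1230186008 923417968 42949674 3 eng mog cd0q0 cd4q3 pd3 false true true .pnn 0 3 3
    ndB0q0 ndB4q3 pcB3 cut_pp_033 Ext.none :=
  certB2 (fam := false) (s1 := true) (s2 := true) (a := 0) (b := 3) (c := 3) (cn := .pnn) (n1 := ndB0q0) (n2 := ndB4q3) (pc := pcB3) (cut := cut_pp_033) (xt := Ext.none) (P1 := 0) (W1 := 536870912) (P2 := 0) (W2 := 1230186008) (P3 := 923417968) (W3 := 42949674) (N0 := 3) (En := eng) (mo := mog) (C1 := cd0q0) (C2 := cd4q3) (C3 := pd3)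
    rfl (fun _ => rfl) s2_pp_033

noncomputable def cut_pp_101 : Cut := Cut.of [[⟨3, 0, 0, 1449551462⟩]]

noncomputable def f_pp_101 : ℕ → ℕ → ℕ → ℕ → Bool := onCell 536870912 536870912 0 536870912 923417968 42949674
    (rowB 3 eng mog cd0q1 cd4q1 pd0 1 false true true .npn 1 0 1 (qsf 536870912 536870912 536870912 536870912 0) ndB0q1 ndB4q1 pcB0 cut_pp_101 Ext.none)

def k0_pp_101 : ∃ t, chk3 f_pp_101 t 1 1 1 = true :=
  ⟨(l 6), by decide +kernel⟩

theorem c_pp_101 : CertB 536870912 536870912 536870912 536870912 923417968 42949674 3 eng mog cd0q1 cd4q1 pd0 false true true .npn 1 0 1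
    ndB0q1 ndB4q1 pcB0 cut_pp_101 Ext.none :=
  certB1 (fam := false) (s1 := true) (s2 := true) (a := 1) (b := 0) (c := 1) (cn := .npn) (n1 := ndB0q1) (n2 := ndB4q1) (pc := pcB0) (cut := cut_pp_101) (xt := Ext.none) (P1 := 536870912) (W1 := 536870912) (P2 := 536870912) (W2 := 536870912) (P3 := 923417968) (W3 := 42949674) (N0 := 3) (En := eng) (mo := mog) (C1 := cd0q1) (C2 := cd4q1) (C3 := pd0)
    rfl (fun _ => rfl) k0_pp_101

noncomputable def cut_pp_102 : Cut := Cut.of [[⟨3, 0, 0, 1449551462⟩]]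

noncomputable def f_pp_102 : ℕ → ℕ → ℕ → ℕ → Bool := onCell 536870912 536870912 1073741824 536870912 923417968 42949674
    (rowB 3 eng mog cd0q1 cd4q2 pd0 0 false true true .npp 1 0 2 (qsf 536870912 536870912 1073741824 536870912 0) ndB0q1 ndB4q2 pcB0 cut_pp_102 Ext.none)

def k0_pp_102 : ∃ t, chk3 f_pp_102 t 1 1 1 = true :=
  ⟨(l 6), by decide +kernel⟩

theorem c_pp_102 : CertB 536870912 536870912 1073741824 536870912 923417968 42949674 3 eng mog cd0q1 cd4q2 pd0 false true true .npp 1 0 2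
    ndB0q1 ndB4q2 pcB0 cut_pp_102 Ext.none :=
  certB0 (fam := false) (s1 := true) (s2 := true) (a := 1) (b := 0) (c := 2) (cn := .npp) (n1 := ndB0q1) (n2 := ndB4q2) (pc := pcB0) (cut := cut_pp_102) (xt := Ext.none) (P1 := 536870912) (W1 := 536870912) (P2 := 1073741824) (W2 := 536870912) (P3 := 923417968) (W3 := 42949674) (N0 := 3) (En := eng) (mo := mog) (C1 := cd0q1) (C2 := cd4q2) (C3 := pd0)
    rfl k0_pp_102

noncomputable def cut_pp_112 : Cut := Cut.of [[⟨3, 0, 0, 1449551462⟩]]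

noncomputable def f_pp_112 : ℕ → ℕ → ℕ → ℕ → Bool := onCell 536870912 536870912 1073741824 536870912 923417968 42949674
    (rowB 3 eng mog cd0q1 cd4q2 pd1 0 false true true .dn 1 1 2 (qsf 536870912 536870912 1073741824 536870912 1) ndB0q1 ndB4q2 pcB1 cut_pp_112 Ext.none)

def k0_pp_112 : ∃ t, chk3 f_pp_112 t 1 1 1 = true :=
  ⟨(l 6), by decide +kernel⟩

theorem c_pp_112 : CertB 536870912 536870912 1073741824 536870912 923417968 42949674 3 eng mog cd0q1 cd4q2 pd1 false true true .dn 1 1 2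
    ndB0q1 ndB4q2 pcB1 cut_pp_112 Ext.none :=
  certB0 (fam := false) (s1 := true) (s2 := true) (a := 1) (b := 1) (c := 2) (cn := .dn) (n1 := ndB0q1) (n2 := ndB4q2) (pc := pcB1) (cut := cut_pp_112) (xt := Ext.none) (P1 := 536870912) (W1 := 536870912) (P2 := 1073741824) (W2 := 536870912) (P3 := 923417968) (W3 := 42949674) (N0 := 3) (En := eng) (mo := mog) (C1 := cd0q1) (C2 := cd4q2) (C3 := pd1)
    rfl k0_pp_112

noncomputable def cut_pp_113 : Cut := Cut.of [[⟨3, 0, 0, 1449551462⟩], [⟨0, 1, 0, 67108864⟩, ⟨1, 1, 0, 67108864⟩, ⟨2, 2, 0, 16252928⟩]]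

noncomputable def f_pp_113 : ℕ → ℕ → ℕ → ℕ → Bool := onCell 536870912 536870912 0 1230186008 923417968 42949674
    (rowB 3 eng mog cd0q1 cd4q3 pd1 0 false true true .nn 1 1 3 (qsf 536870912 536870912 0 1230186008 1) ndB0q1 ndB4q3 pcB1 cut_pp_113 Ext.none)

def k0_pp_113 : ∃ t, chk3 f_pp_113 t 1 1 1 = true :=
  ⟨(b (a (l 2) (a (l 2) (b (a (l 2) (l 6)) (l 6)))) (b (a (a (l 2) (l 6)) (l 6)) (l 6))), by decide +kernel⟩

theorem c_pp_113 : CertB 536870912 536870912 0 1230186008 923417968 42949674 3 eng mog cd0q1 cd4q3 pd1 false true true .nn 1 1 3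
    ndB0q1 ndB4q3 pcB1 cut_pp_113 Ext.none :=
  certB0 (fam := false) (s1 := true) (s2 := true) (a := 1) (b := 1) (c := 3) (cn := .nn) (n1 := ndB0q1) (n2 := ndB4q3) (pc := pcB1) (cut := cut_pp_113) (xt := Ext.none) (P1 := 536870912) (W1 := 536870912) (P2 := 0) (W2 := 1230186008) (P3 := 923417968) (W3 := 42949674) (N0 := 3) (En := eng) (mo := mog) (C1 := cd0q1) (C2 := cd4q3) (C3 := pd1)
    rfl k0_pp_113

noncomputable def cut_pp_123 : Cut := Cut.of [[⟨3, 0, 0, 1449551462⟩], [⟨0, 1, 0, 67108864⟩, ⟨1, 1, 0, 67108864⟩, ⟨2, 2, 0, 16252928⟩]]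

noncomputable def f_pp_123 : ℕ → ℕ → ℕ → ℕ → Bool := onCell 1073741824 536870912 0 1230186008 923417968 42949674
    (rowB 3 eng mog cd0q1 cd4q3 pd2 2 false true true .npn 1 2 3 (qsf 536870912 536870912 0 1230186008 2) ndB0q1 ndB4q3 pcB2 cut_pp_123 Ext.none)

def k0_pp_123 : ∃ t, chk3 f_pp_123 t 1 1 1 = true :=
  ⟨(a (b (a (b (a (l 6) (a (l 6) (b (b (c (l 16606664) (l 16649792)) (l 6)) (l 6)))) (l 6)) (b (b (a (a (a (b (l 16628216) (l 6)) (a (l 16512504) (a (l 16638520) (l 16638480)))) (b (l 16604240) (l 16660424))) (a (b (l 16549352) (l 16654048)) (b (l 16465920) (l 16607248)))) (a (a (l 6) (b (l 16678640) (l 6))) (a (b (l 16687960) (l 16690272)) (b (l 16685400) (l 16689032))))) (a (l 6) (a (l 6) (b (b (l 16681000) (l 16673408)) (l 6)))))) (l 6)) (b (b (a (b (a (a (l 16451032) (l 16334288)) (a (l 16061616) (l 16074720))) (a (b (a (l 16661168) (l 16599952)) (a (l 16689040) (l 16678984))) (b (l 16472200) (a (l 16657352) (l 16603664))))) (b (a (b (a (l 15810408)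 (l 15737392)) (l 16002048)) (b (l 15758416) (a (l 15795104) (l 15731456)))) (a (b (l 16243096) (l 16469968)) (a (b (l 16069632) (l 16322152)) (l 15879128))))) (a (b (a (b (l 16672208) (l 16655712)) (b (a (l 16672008) (l 16664928)) (l 16645336))) (a (b (l 16642072) (a (l 6) (l 16624216))) (b (l 16619272) (l 16597040)))) (b (a (b (a (l 16640840) (l 16589784)) (l 16624808)) (b (l 16266312) (a (l 16590016) (l 1)))) (a (b (l 16591248) (l 16554784)) (b (l 16545032) (l 1)))))) (b (a (b (a (b (l 16630016) (l 6)) (b (l 16581456) (l 16562936))) (a (l 6) (b (a (l 16555200) (l 1)) (l 1)))) (b (a (b (l 16519696) (l 1)) (l 1)) (l 1))) (l 1)))), by decide +kernel⟩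

theorem c_pp_123 : CertB 536870912 536870912 0 1230186008 923417968 42949674 3 eng mog cd0q1 cd4q3 pd2 false true true .npn 1 2 3
    ndB0q1 ndB4q3 pcB2 cut_pp_123 Ext.none :=
  certB2 (fam := false) (s1 := true) (s2 := true) (a := 1) (b := 2) (c := 3) (cn := .npn) (n1 := ndB0q1) (n2 := ndB4q3) (pc := pcB2) (cut := cut_pp_123) (xt := Ext.none) (P1 := 536870912) (W1 := 536870912) (P2 := 0) (W2 := 1230186008) (P3 := 923417968) (W3 := 42949674) (N0 := 3) (En := eng) (mo := mog) (C1 := cd0q1) (C2 := cd4q3) (C3 := pd2)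
    rfl (fun _ => rfl) k0_pp_123

noncomputable def cut_pp_133 : Cut := Cut.of [[⟨3, 0, 0, 1449551462⟩]]

noncomputable def f_pp_133 : ℕ → ℕ → ℕ → ℕ → Bool := onCell 536870912 536870912 0 1230186008 923417968 42949674
    (rowB 3 eng mog cd0q1 cd4q3 pd3 0 false true true .dn 1 3 3 (qsf 536870912 536870912 0 1230186008 3) ndB0q1 ndB4q3 pcB3 cut_pp_133 Ext.none)

def k0_pp_133 : ∃ t, chk3 f_pp_133 t 1 1 1 = true :=
  ⟨(b (b (a (a (b (a (c (l 16608784) (l 4869989010407)) (l 1)) (l 1)) (l 1)) (l 1)) (l 1)) (l 1)), by decide +kernel⟩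

theorem c_pp_133 : CertB 536870912 536870912 0 1230186008 923417968 42949674 3 eng mog cd0q1 cd4q3 pd3 false true true .dn 1 3 3
    ndB0q1 ndB4q3 pcB3 cut_pp_133 Ext.none :=
  certB0 (fam := false) (s1 := true) (s2 := true) (a := 1) (b := 3) (c := 3) (cn := .dn) (n1 := ndB0q1) (n2 := ndB4q3) (pc := pcB3) (cut := cut_pp_133) (xt := Ext.none) (P1 := 536870912) (W1 := 536870912) (P2 := 0) (W2 := 1230186008) (P3 := 923417968) (W3 := 42949674) (N0 := 3) (En := eng) (mo := mog) (C1 := cd0q1) (C2 := cd4q3) (C3 := pd3)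
    rfl k0_pp_133

noncomputable def cut_pp_202 : Cut := Cut.of [[⟨3, 0, 0, 1449551462⟩]]

noncomputable def f_pp_202 : ℕ → ℕ → ℕ → ℕ → Bool := onCell 0 536870912 1073741824 536870912 923417968 42949674
    (rowB 3 eng mog cd0q2 cd4q2 pd0 0 false true true .pp 2 0 2 (qsf 0 536870912 1073741824 536870912 0) ndB0q2 ndB4q2 pcB0 cut_pp_202 Ext.none)

def k0_pp_202 : ∃ t, chk3 f_pp_202 t 1 1 1 = true :=
  ⟨(l 5), by decide +kernel⟩

theorem c_pp_202 : CertB 0 536870912 1073741824 536870912 923417968 42949674 3 eng mog cd0q2 cd4q2 pd0 false true true .pp 2 0 2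
    ndB0q2 ndB4q2 pcB0 cut_pp_202 Ext.none :=
  certB0 (fam := false) (s1 := true) (s2 := true) (a := 2) (b := 0) (c := 2) (cn := .pp) (n1 := ndB0q2) (n2 := ndB4q2) (pc := pcB0) (cut := cut_pp_202) (xt := Ext.none) (P1 := 0) (W1 := 536870912) (P2 := 1073741824) (W2 := 536870912) (P3 := 923417968) (W3 := 42949674) (N0 := 3) (En := eng) (mo := mog) (C1 := cd0q2) (C2 := cd4q2) (C3 := pd0)
    rfl k0_pp_202

noncomputable def cut_pp_203 : Cut := Cut.of [[⟨3, 0, 0, 1449551462⟩]]

noncomputable def f_pp_203 : ℕ → ℕ → ℕ → ℕ → Bool := onCell 0 536870912 0 1230186008 923417968 42949674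
    (rowB 3 eng mog cd0q2 cd4q3 pd0 0 false true true .up 2 0 3 (qsf 0 536870912 0 1230186008 0) ndB0q2 ndB4q3 pcB0 cut_pp_203 Ext.none)

def k0_pp_203 : ∃ t, chk3 f_pp_203 t 1 1 1 = true :=
  ⟨(b (l 2) (a (l 5) (l 6))), by decide +kernel⟩

theorem c_pp_203 : CertB 0 536870912 0 1230186008 923417968 42949674 3 eng mog cd0q2 cd4q3 pd0 false true true .up 2 0 3
    ndB0q2 ndB4q3 pcB0 cut_pp_203 Ext.none :=
  certB0 (fam := false) (s1 := true) (s2 := true) (a := 2) (b := 0) (c := 3) (cn := .up) (n1 := ndB0q2) (n2 := ndB4q3) (pc := pcB0) (cut := cut_pp_203) (xt := Ext.none) (P1 := 0) (W1 := 536870912) (P2 := 0) (W2 := 1230186008) (P3 := 923417968) (W3 := 42949674) (N0 := 3) (En := eng) (mo := mog) (C1 := cd0q2) (C2 := cd4q3) (C3 := pd0)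
    rfl k0_pp_203

noncomputable def cut_pp_213 : Cut := Cut.of [[⟨3, 0, 0, 1449551462⟩], [⟨0, 1, 0, 67108864⟩, ⟨1, 1, 0, 67108864⟩, ⟨2, 2, 0, 16252928⟩]]

noncomputable def f_pp_213 : ℕ → ℕ → ℕ → ℕ → Bool := onCell 0 536870912 0 1230186008 923417968 42949674
    (rowB 3 eng mog cd0q2 cd4q3 pd1 0 false true true .pnn 2 1 3 (qsf 0 536870912 0 1230186008 1) ndB0q2 ndB4q3 pcB1 cut_pp_213 Ext.none)

def k0_pp_213 : ∃ t, chk3 f_pp_213 t 1 1 1 = true :=
  ⟨(b (l 6) (a (l 5) (l 6))), by decide +kernel⟩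

theorem c_pp_213 : CertB 0 536870912 0 1230186008 923417968 42949674 3 eng mog cd0q2 cd4q3 pd1 false true true .pnn 2 1 3
    ndB0q2 ndB4q3 pcB1 cut_pp_213 Ext.none :=
  certB0 (fam := false) (s1 := true) (s2 := true) (a := 2) (b := 1) (c := 3) (cn := .pnn) (n1 := ndB0q2) (n2 := ndB4q3) (pc := pcB1) (cut := cut_pp_213) (xt := Ext.none) (P1 := 0) (W1 := 536870912) (P2 := 0) (W2 := 1230186008) (P3 := 923417968) (W3 := 42949674) (N0 := 3) (En := eng) (mo := mog) (C1 := cd0q2) (C2 := cd4q3) (C3 := pd1)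
    rfl k0_pp_213

noncomputable def cut_pm_001 : Cut := Cut.of [[⟨3, 0, 0, 1449551462⟩]]

noncomputable def f_pm_001 : ℕ → ℕ → ℕ → ℕ → Bool := onCell 0 536870912 536870912 536870912 923417968 42949674
    (rowB 3 eng mog cd0q0 cd4q1 pd0 0 false true false .up 0 0 1 (qsf 0 536870912 536870912 536870912 0) ndB0q0 ndB4q1 pcB0 cut_pm_001 Ext.none)

def k0_pm_001 : ∃ t, chk3 f_pm_001 t 1 1 1 = true :=
  ⟨(l 4), by decide +kernel⟩

theorem c_pm_001 : CertB 0 536870912 536870912 536870912 923417968 42949674 3 eng mog cd0q0 cd4q1 pd0 false true false .up 0 0 1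
    ndB0q0 ndB4q1 pcB0 cut_pm_001 Ext.none :=
  certB0 (fam := false) (s1 := true) (s2 := false) (a := 0) (b := 0) (c := 1) (cn := .up) (n1 := ndB0q0) (n2 := ndB4q1) (pc := pcB0) (cut := cut_pm_001) (xt := Ext.none) (P1 := 0) (W1 := 536870912) (P2 := 536870912) (W2 := 536870912) (P3 := 923417968) (W3 := 42949674) (N0 := 3) (En := eng) (mo := mog) (C1 := cd0q0) (C2 := cd4q1) (C3 := pd0)
    rfl k0_pm_001

noncomputable def cut_pm_011 : Cut := Cut.of [[⟨3, 0, 0, 1449551462⟩]]

noncomputable def f_pm_011 : ℕ → ℕ → ℕ → ℕ → Bool := onCell 0 536870912 536870912 536870912 923417968 42949674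
    (rowB 3 eng mog cd0q0 cd4q1 pd1 0 false true false .pnn 0 1 1 (qsf 0 536870912 536870912 536870912 1) ndB0q0 ndB4q1 pcB1 cut_pm_011 Ext.none)

def k0_pm_011 : ∃ t, chk3 f_pm_011 t 1 1 1 = true :=
  ⟨(l 4), by decide +kernel⟩

theorem c_pm_011 : CertB 0 536870912 536870912 536870912 923417968 42949674 3 eng mog cd0q0 cd4q1 pd1 false true false .pnn 0 1 1
    ndB0q0 ndB4q1 pcB1 cut_pm_011 Ext.none :=
  certB0 (fam := false) (s1 := true) (s2 := false) (a := 0) (b := 1) (c := 1) (cn := .pnn) (n1 := ndB0q0) (n2 := ndB4q1) (pc := pcB1) (cut := cut_pm_011) (xt := Ext.none) (P1 := 0) (W1 := 536870912) (P2 := 536870912) (W2 := 536870912) (P3 := 923417968) (W3 := 42949674) (N0 := 3) (En := eng) (mo := mog) (C1 := cd0q0) (C2 := cd4q1) (C3 := pd1)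
    rfl k0_pm_011

noncomputable def cut_pm_012 : Cut := Cut.of [[⟨3, 0, 0, 1449551462⟩]]

noncomputable def f_pm_012 : ℕ → ℕ → ℕ → ℕ → Bool := onCell 0 536870912 1073741824 536870912 923417968 42949674
    (rowB 3 eng mog cd0q0 cd4q2 pd1 0 false true false .pnp 0 1 2 (qsf 0 536870912 1073741824 536870912 1) ndB0q0 ndB4q2 pcB1 cut_pm_012 Ext.none)

def k0_pm_012 : ∃ t, chk3 f_pm_012 t 1 1 1 = true :=
  ⟨(l 4), by decide +kernel⟩

theorem c_pm_012 : CertB 0 536870912 1073741824 536870912 923417968 42949674 3 eng mog cd0q0 cd4q2 pd1 false true false .pnp 0 1 2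
    ndB0q0 ndB4q2 pcB1 cut_pm_012 Ext.none :=
  certB0 (fam := false) (s1 := true) (s2 := false) (a := 0) (b := 1) (c := 2) (cn := .pnp) (n1 := ndB0q0) (n2 := ndB4q2) (pc := pcB1) (cut := cut_pm_012) (xt := Ext.none) (P1 := 0) (W1 := 536870912) (P2 := 1073741824) (W2 := 536870912) (P3 := 923417968) (W3 := 42949674) (N0 := 3) (En := eng) (mo := mog) (C1 := cd0q0) (C2 := cd4q2) (C3 := pd1)
    rfl k0_pm_012

noncomputable def cut_pm_022 : Cut := Cut.of [[⟨3, 0, 0, 1449551462⟩]]

noncomputable def f_pm_022 : ℕ → ℕ → ℕ → ℕ → Bool := onCell 0 536870912 1073741824 536870912 923417968 42949674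
    (rowB 3 eng mog cd0q0 cd4q2 pd2 0 false true false .pp 0 2 2 (qsf 0 536870912 1073741824 536870912 2) ndB0q0 ndB4q2 pcB2 cut_pm_022 Ext.none)

def k0_pm_022 : ∃ t, chk3 f_pm_022 t 1 1 1 = true :=
  ⟨(l 4), by decide +kernel⟩

theorem c_pm_022 : CertB 0 536870912 1073741824 536870912 923417968 42949674 3 eng mog cd0q0 cd4q2 pd2 false true false .pp 0 2 2
    ndB0q0 ndB4q2 pcB2 cut_pm_022 Ext.none :=
  certB0 (fam := false) (s1 := true) (s2 := false) (a := 0) (b := 2) (c := 2) (cn := .pp) (n1 := ndB0q0) (n2 := ndB4q2) (pc := pcB2) (cut := cut_pm_022) (xt := Ext.none) (P1 := 0) (W1 := 536870912) (P2 := 1073741824) (W2 := 536870912) (P3 := 923417968) (W3 := 42949674) (N0 := 3) (En := eng) (mo := mog) (C1 := cd0q0) (C2 := cd4q2) (C3 := pd2)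
    rfl k0_pm_022

noncomputable def cut_pm_023 : Cut := Cut.of [[⟨3, 0, 0, 1449551462⟩]]

noncomputable def f_pm_023 : ℕ → ℕ → ℕ → ℕ → Bool := onCell 0 536870912 0 1230186008 923417968 42949674
    (rowB 3 eng mog cd0q0 cd4q3 pd2 0 false true false .up 0 2 3 (qsf 0 536870912 0 1230186008 2) ndB0q0 ndB4q3 pcB2 cut_pm_023 Ext.none)

def k0_pm_023 : ∃ t, chk3 f_pm_023 t 1 1 1 = true :=
  ⟨(b (a (l 2) (a (l 2) (b (a (l 2) (b (l 16053064) (a (l 2) (l 16192256)))) (b (l 4) (l 4))))) (l 4)), by decide +kernel⟩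

theorem c_pm_023 : CertB 0 536870912 0 1230186008 923417968 42949674 3 eng mog cd0q0 cd4q3 pd2 false true false .up 0 2 3
    ndB0q0 ndB4q3 pcB2 cut_pm_023 Ext.none :=
  certB0 (fam := false) (s1 := true) (s2 := false) (a := 0) (b := 2) (c := 3) (cn := .up) (n1 := ndB0q0) (n2 := ndB4q3) (pc := pcB2) (cut := cut_pm_023) (xt := Ext.none) (P1 := 0) (W1 := 536870912) (P2 := 0) (W2 := 1230186008) (P3 := 923417968) (W3 := 42949674) (N0 := 3) (En := eng) (mo := mog) (C1 := cd0q0) (C2 := cd4q3) (C3 := pd2)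
    rfl k0_pm_023

noncomputable def cut_pm_033 : Cut := Cut.of [[⟨3, 0, 0, 1449551462⟩]]

noncomputable def f_pm_033 : ℕ → ℕ → ℕ → ℕ → Bool := onCell 1610612736 536870912 0 1230186008 923417968 42949674
    (rowB 3 eng mog cd0q0 cd4q3 pd3 2 false true false .pnn 0 3 3 (qsf 0 536870912 0 1230186008 3) ndB0q0 ndB4q3 pcB3 cut_pm_033 Ext.none)

def k0_pm_033 : ∃ t, chk3 f_pm_033 t 1 1 1 = true :=
  ⟨(b (b (a (a (a (b (l 16418488) (a (b (l 16313064) (l 16226728)) (l 16042592))) (b (b (l 16344760) (l 16291248)) (a (l 16216128) (l 4)))) (a (b (a (l 16253632) (l 16217328)) (l 4)) (l 4))) (l 4)) (l 4)) (l 4)), by decide +kernel⟩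

theorem c_pm_033 : CertB 0 536870912 0 1230186008 923417968 42949674 3 eng mog cd0q0 cd4q3 pd3 false true false .pnn 0 3 3
    ndB0q0 ndB4q3 pcB3 cut_pm_033 Ext.none :=
  certB2 (fam := false) (s1 := true) (s2 := false) (a := 0) (b := 3) (c := 3) (cn := .pnn) (n1 := ndB0q0) (n2 := ndB4q3) (pc := pcB3) (cut := cut_pm_033) (xt := Ext.none) (P1 := 0) (W1 := 536870912) (P2 := 0) (W2 := 1230186008) (P3 := 923417968) (W3 := 42949674) (N0 := 3) (En := eng) (mo := mog) (C1 := cd0q0) (C2 := cd4q3) (C3 := pd3)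
    rfl (fun _ => rfl) k0_pm_033

noncomputable def cut_pm_101 : Cut := Cut.of [[⟨3, 0, 0, 1449551462⟩]]

noncomputable def f_pm_101 : ℕ → ℕ → ℕ → ℕ → Bool := onCell 536870912 536870912 536870912 536870912 923417968 42949674
    (rowB 3 eng mog cd0q1 cd4q1 pd0 0 false true false .npn 1 0 1 (qsf 536870912 536870912 536870912 536870912 0) ndB0q1 ndB4q1 pcB0 cut_pm_101 Ext.none)

def k0_pm_101 : ∃ t, chk3 f_pm_101 t 1 1 1 = true :=
  ⟨(l 4), by decide +kernel⟩

theorem c_pm_101 : CertB 536870912 536870912 536870912 536870912 923417968 42949674 3 eng mog cd0q1 cd4q1 pd0 false true false .npn 1 0 1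
    ndB0q1 ndB4q1 pcB0 cut_pm_101 Ext.none :=
  certB0 (fam := false) (s1 := true) (s2 := false) (a := 1) (b := 0) (c := 1) (cn := .npn) (n1 := ndB0q1) (n2 := ndB4q1) (pc := pcB0) (cut := cut_pm_101) (xt := Ext.none) (P1 := 536870912) (W1 := 536870912) (P2 := 536870912) (W2 := 536870912) (P3 := 923417968) (W3 := 42949674) (N0 := 3) (En := eng) (mo := mog) (C1 := cd0q1) (C2 := cd4q1) (C3 := pd0)
    rfl k0_pm_101

noncomputable def cut_pm_102 : Cut := Cut.of [[⟨3, 0, 0, 1449551462⟩]]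

noncomputable def f_pm_102 : ℕ → ℕ → ℕ → ℕ → Bool := onCell 536870912 536870912 0 536870912 923417968 42949674
    (rowB 3 eng mog cd0q1 cd4q2 pd0 1 false true false .npp 1 0 2 (qsf 536870912 536870912 1073741824 536870912 0) ndB0q1 ndB4q2 pcB0 cut_pm_102 Ext.none)

def k0_pm_102 : ∃ t, chk3 f_pm_102 t 1 1 1 = true :=
  ⟨(a (l 4) (b (l 4) (a (l 4) (b (l 4) (a (l 4) (b (l 4) (a (l 4) (a (l 4) (b (l 15229688) (l 15268032)))))))))), by decide +kernel⟩

theorem c_pm_102 : CertB 536870912 536870912 1073741824 536870912 923417968 42949674 3 eng mog cd0q1 cd4q2 pd0 false true false .npp 1 0 2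
    ndB0q1 ndB4q2 pcB0 cut_pm_102 Ext.none :=
  certB1 (fam := false) (s1 := true) (s2 := false) (a := 1) (b := 0) (c := 2) (cn := .npp) (n1 := ndB0q1) (n2 := ndB4q2) (pc := pcB0) (cut := cut_pm_102) (xt := Ext.none) (P1 := 536870912) (W1 := 536870912) (P2 := 1073741824) (W2 := 536870912) (P3 := 923417968) (W3 := 42949674) (N0 := 3) (En := eng) (mo := mog) (C1 := cd0q1) (C2 := cd4q2) (C3 := pd0)
    rfl (fun _ => rfl) k0_pm_102

noncomputable def cut_pm_112 : Cut := Cut.of [[⟨3, 0, 0, 1449551462⟩]]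

noncomputable def f_pm_112 : ℕ → ℕ → ℕ → ℕ → Bool := onCell 536870912 536870912 1073741824 536870912 923417968 42949674
    (rowB 3 eng mog cd0q1 cd4q2 pd1 0 false true false .dn 1 1 2 (qsf 536870912 536870912 1073741824 536870912 1) ndB0q1 ndB4q2 pcB1 cut_pm_112 Ext.none)

def k0_pm_112 : ∃ t, chk3 f_pm_112 t 1 1 1 = true :=
  ⟨(a (l 4) (b (l 4) (a (l 4) (b (l 4) (a (l 4) (b (l 4) (a (l 4) (b (l 15253760) (l 15300856))))))))), by decide +kernel⟩

theorem c_pm_112 : CertB 536870912 536870912 1073741824 536870912 923417968 42949674 3 eng mog cd0q1 cd4q2 pd1 false true false .dn 1 1 2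
    ndB0q1 ndB4q2 pcB1 cut_pm_112 Ext.none :=
  certB0 (fam := false) (s1 := true) (s2 := false) (a := 1) (b := 1) (c := 2) (cn := .dn) (n1 := ndB0q1) (n2 := ndB4q2) (pc := pcB1) (cut := cut_pm_112) (xt := Ext.none) (P1 := 536870912) (W1 := 536870912) (P2 := 1073741824) (W2 := 536870912) (P3 := 923417968) (W3 := 42949674) (N0 := 3) (En := eng) (mo := mog) (C1 := cd0q1) (C2 := cd4q2) (C3 := pd1)
    rfl k0_pm_112

noncomputable def cut_pm_113 : Cut := Cut.of [[⟨3, 0, 0, 1449551462⟩], [⟨0, 1, 0, 67108864⟩, ⟨1, 1, 0, 67108864⟩, ⟨2, 2, 0, 16252928⟩]]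

noncomputable def f_pm_113 : ℕ → ℕ → ℕ → ℕ → Bool := onCell 536870912 536870912 0 1230186008 923417968 42949674
    (rowB 3 eng mog cd0q1 cd4q3 pd1 0 false true false .nn 1 1 3 (qsf 536870912 536870912 0 1230186008 1) ndB0q1 ndB4q3 pcB1 cut_pm_113 Ext.none)

def k0_pm_113 : ∃ t, chk3 f_pm_113 t 1 1 1 = true :=
  ⟨(a (b (l 2) (b (b (l 2) (l 4)) (l 4))) (a (b (l 2) (a (b (b (l 2) (b (a (b (l 2) (l 14303800)) (l 14549744)) (a (l 4) (l 14612592)))) (l 4)) (b (b (b (l 15345240) (l 15133904)) (b (l 14991448) (c (a (l 14933432) (l 15180784)) (a (l 14719768) (l 14955680))))) (b (b (a (l 14941616) (b (l 15083888) (l 15135512))) (b (l 15114272) (l 4))) (l 4))))) (b (b (a (l 2) (a (l 2) (b (l 6) (a (l 1464684132695) (b (l 6) (l 16675304)))))) (a (b (a (l 2) (l 16439552)) (a (l 16139456) (l 16262648))) (b (b (a (l 16624840) (l 16692632)) (a (l 16753352) (a (l 16766064) (l 16707192)))) (a (l 16412304) (b (l 16840784) (l 16709504)))))) (b (a (b (b (l 16055360) (l 15860248))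 (b (l 15616176) (a (l 15472296) (l 15567776)))) (b (a (l 16059880) (b (l 16579512) (l 16461512))) (b (l 16138632) (l 15867688)))) (b (a (b (c (a (l 15380552) (l 15568904)) (a (b (l 15161784) (l 15199688)) (b (l 15359336) (l 15415072)))) (a (l 15330488) (b (l 15585928) (l 15439256)))) (b (a (b (l 15643032) (c (l 15695808) (l 15470216))) (l 15714216)) (b (c (l 15930272) (a (a (l 15449384) (l 15447128)) (l 15690240))) (a (c (l 15596568) (l 15433504)) (a (l 15557968) (l 15561088)))))) (a (b (b (l 15576896) (l 4527768935)) (l 4)) (b (a (b (l 15495232) (l 15447896)) (c (b (l 15604480) (l 15550848)) (b (l 15561344) (l 15660552)))) (b (a (l 15402400) (l 15428720)) (a (l 15361816) (l 15359960)))))))))), by decide +kernel⟩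

theorem c_pm_113 : CertB 536870912 536870912 0 1230186008 923417968 42949674 3 eng mog cd0q1 cd4q3 pd1 false true false .nn 1 1 3
    ndB0q1 ndB4q3 pcB1 cut_pm_113 Ext.none :=
  certB0 (fam := false) (s1 := true) (s2 := false) (a := 1) (b := 1) (c := 3) (cn := .nn) (n1 := ndB0q1) (n2 := ndB4q3) (pc := pcB1) (cut := cut_pm_113) (xt := Ext.none) (P1 := 536870912) (W1 := 536870912) (P2 := 0) (W2 := 1230186008) (P3 := 923417968) (W3 := 42949674) (N0 := 3) (En := eng) (mo := mog) (C1 := cd0q1) (C2 := cd4q3) (C3 := pd1)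
    rfl k0_pm_113

noncomputable def cut_pm_123 : Cut := Cut.of [[⟨3, 0, 0, 1449551462⟩], [⟨0, 1, 0, 67108864⟩, ⟨1, 1, 0, 67108864⟩, ⟨2, 2, 0, 16252928⟩]]

noncomputable def f_pm_123 : ℕ → ℕ → ℕ → ℕ → Bool := onCell 1073741824 536870912 0 1230186008 923417968 42949674
    (rowB 3 eng mog cd0q1 cd4q3 pd2 2 false true false .npn 1 2 3 (qsf 536870912 536870912 0 1230186008 2) ndB0q1 ndB4q3 pcB2 cut_pm_123 Ext.none)

def k0_pm_123 : ∃ t, chk3 f_pm_123 t 1 2 1 = true :=
  ⟨(a (a (b (a (b (a (l 6) (b (l 6) (a (l 6) (l 16594648)))) (a (b (a (l 6) (l 16630896)) (a (l 16693168) (l 16670864))) (b (a (l 16620576) (l 16600056)) (l 16575072)))) (b (a (b (a (l 6) (l 16595736)) (l 16582064)) (b (a (l 16592936) (l 16583280)) (l 16540152))) (a (b (l 16556424) (l 16516944)) (b (l 16474568) (l 16393296))))) (a (b (a (b (a (l 16748616) (l 16700832)) (b (l 16747024) (a (l 16771072) (l 16654408)))) (b (l 16608168) (b (l 16439920) (l 16463528)))) (b (a (b (l 16579064) (l 16426192)) (l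 16278480)) (a (l 16191912) (l 16018600)))) (b (b (a (l 16411824) (l 16295048)) (a (l 16308776) (l 16153560))) (a (b (l 16113640) (l 15821952)) (l 15873416))))) (b (a (b (a (b (l 16555592) (l 16469880)) (b (l 16495288) (l 16374240))) (b (a (l 16366608) (l 16236152)) (a (l 16248552) (l 16120280)))) (b (a (l 16100576) (l 16119192)) (b (a (l 16090656) (l 15974536)) (l 15978016)))) (a (b (a (l 16098248) (l 16014520)) (a (l 15791040) (l 15750120))) (b (a (l 15958368) (l 15930192)) (a (l 15743720) (l 15763928)))))) (b (a (a (b (b (l 15938784) (a (l 15957496) (l 15850568))) (a (l 15903648) (l 15879432))) (b (b (a (l 15858752) (l 15857304)) (l 15803440)) (l 15900768))) (a (b (a (l 15794944) (l 15828520)) (l 15993608)) (b (l 15915408) (l 15954728)))) (a (b (a (l 15937504) (a (l 15987784) (l 16022304))) (a (a (l 15805016) (l 15855592)) (a (l 15907248) (l 15950312)))) (b (a (a (l 16059920) (l 16096008)) (a (l 16125840) (l 4))) (l 4))))), by decide +kernel⟩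

def k1_pm_123 : ∃ t, chk3 f_pm_123 t 1 3 1 = true :=
  ⟨(b (a (a (b (b (a (a (l 15678496) (l 15503224)) (l 15407672)) (a (a (l 15089032) (l 15050088)) (a (l 15077064) (l 15156616)))) (b (a (a (l 14647152) (l 14753232)) (a (l 4) (l 4))) (l 4))) (b (a (a (b (l 15421904) (l 15264712)) (l 15680504)) (a (l 15515816) (l 4))) (l 4))) (l 4)) (l 4)), by decide +kernel⟩

theorem s2_pm_123 : ∃ t, chk3 f_pm_123 t 1 1 1 = true := ex3_b k0_pm_123 k1_pm_123

theorem c_pm_123 : CertB 536870912 536870912 0 1230186008 923417968 42949674 3 eng mog cd0q1 cd4q3 pd2 false true false .npn 1 2 3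
    ndB0q1 ndB4q3 pcB2 cut_pm_123 Ext.none :=
  certB2 (fam := false) (s1 := true) (s2 := false) (a := 1) (b := 2) (c := 3) (cn := .npn) (n1 := ndB0q1) (n2 := ndB4q3) (pc := pcB2) (cut := cut_pm_123) (xt := Ext.none) (P1 := 536870912) (W1 := 536870912) (P2 := 0) (W2 := 1230186008) (P3 := 923417968) (W3 := 42949674) (N0 := 3) (En := eng) (mo := mog) (C1 := cd0q1) (C2 := cd4q3) (C3 := pd2)
    rfl (fun _ => rfl) s2_pm_123

noncomputable def cut_pm_133 : Cut := Cut.of [[⟨3, 0, 0, 1449551462⟩]]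

noncomputable def f_pm_133 : ℕ → ℕ → ℕ → ℕ → Bool := onCell 1610612736 536870912 0 1230186008 923417968 42949674
    (rowB 3 eng mog cd0q1 cd4q3 pd3 2 false true false .dn 1 3 3 (qsf 536870912 536870912 0 1230186008 3) ndB0q1 ndB4q3 pcB3 cut_pm_133 Ext.none)

def k0_pm_133 : ∃ t, chk3 f_pm_133 t 1 1 1 = true :=
  ⟨(b (b (a (a (a (b (l 16417864) (l 1)) (l 1)) (l 1)) (l 1)) (l 1)) (l 1)), by decide +kernel⟩

theorem c_pm_133 : CertB 536870912 536870912 0 1230186008 923417968 42949674 3 eng mog cd0q1 cd4q3 pd3 false true false .dn 1 3 3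
    ndB0q1 ndB4q3 pcB3 cut_pm_133 Ext.none :=
  certB2 (fam := false) (s1 := true) (s2 := false) (a := 1) (b := 3) (c := 3) (cn := .dn) (n1 := ndB0q1) (n2 := ndB4q3) (pc := pcB3) (cut := cut_pm_133) (xt := Ext.none) (P1 := 536870912) (W1 := 536870912) (P2 := 0) (W2 := 1230186008) (P3 := 923417968) (W3 := 42949674) (N0 := 3) (En := eng) (mo := mog) (C1 := cd0q1) (C2 := cd4q3) (C3 := pd3)
    rfl (fun _ => rfl) k0_pm_133

noncomputable def cut_pm_202 : Cut := Cut.of [[⟨3, 0, 0, 1449551462⟩]]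

noncomputable def f_pm_202 : ℕ → ℕ → ℕ → ℕ → Bool := onCell 0 536870912 0 536870912 923417968 42949674
    (rowB 3 eng mog cd0q2 cd4q2 pd0 1 false true false .pp 2 0 2 (qsf 0 536870912 1073741824 536870912 0) ndB0q2 ndB4q2 pcB0 cut_pm_202 Ext.none)

def k0_pm_202 : ∃ t, chk3 f_pm_202 t 2 1 1 = true :=
  ⟨(b (a (b (b (b (l 15682888) (a (l 15863512) (l 15722664))) (b (b (a (l 15939856) (l 15800128)) (a (l 15955728) (l 15847856))) (a (b (l 16021808) (l 16063480)) (b (l 15887864) (l 15940760))))) (b (b (a (b (l 16107304) (l 16153456)) (b (l 15953000) (l 15995840))) (b (l 15973008) (l 16151368))) (a (b (a (l 16270584) (l 16210576)) (l 16291192)) (b (l 16117728) (b (l 16153552) (l 16178744)))))) (b (b (b (b (l 15212520) (l 15295496)) (a (l 15525936) (l 15286496))) (a (b (l 15643592) (l 15737112)) (b (l 15424424) (l 15537752)))) (b (b (a (l 15817920) (l 15630328)) (a (b (l 15862752) (l 15888832)) (l 15703152))) (a (b (l 15723008) (l 15995016)) (b (l 15763952) (l 15577696))))))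 (b (b (a (a (l 16281608) (b (b (l 16170536) (l 16205960)) (l 16246504))) (a (b (l 16041568) (b (l 16071440) (l 16063296))) (b (a (l 15901784) (l 15803416)) (l 15898560)))) (b (a (l 16192464) (a (l 16113208) (a (l 16208376) (l 15890976)))) (a (l 16321168) (a (l 16183208) (c (l 16093160) (l 15932104)))))) (a (l 2) (b (b (a (l 2) (b (l 16005824) (l 2))) (l 2)) (l 2))))), by decide +kernel⟩

def k1_pm_202 : ∃ t, chk3 f_pm_202 t 3 1 1 = true :=
  ⟨(b (b (a (b (b (a (b (l 14775848) (l 14868312)) (l 4)) (a (l 15107048) (b (l 4) (l 14761152)))) (a (b (l 15163432) (l 15302248)) (b (a (l 14943320) (l 4)) (a (l 15092512) (l 14956320))))) (l 4)) (a (b (a (c (l 15489992) (l 15420032)) (b (a (l 15226264) (l 15088640)) (l 15275512))) (a (b (l 15587592) (l 15644232)) (b (l 15375128) (l 15455720)))) (a (b (b (l 4) (a (l 15078024) (l 4))) (c (b (l 15160728) (l 15258312)) (b (l 15078720) (l 15175096)))) (l 4)))) (b (a (a (b (b (l 15687592) (l 15492040)) (b (a (l 15802168) (l 15712544))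 (l 15625952))) (b (b (l 15517088) (l 15562880)) (b (l 15596560) (a (l 15665744) (l 15588296))))) (b (a (b (a (l 15361200) (l 15236152)) (a (l 15422856) (l 15308128))) (l 4)) (a (b (l 15416872) (l 15457008)) (a (b (l 15238784) (l 15292168)) (l 4))))) (a (b (b (a (a (l 80093105543) (l 15782096)) (a (l 15702416) (l 15618184))) (a (l 2) (a (l 15730152) (l 15634968)))) (l 2)) (b (b (a (l 15491664) (a (l 15335480) (l 15207512))) (a (a (l 15569512) (l 15479504)) (a (l 15372232) (l 15251040)))) (b (a (a (l 341548733175) (l 15515192)) (a (l 15408792) (l 15289568))) (a (l 2) (c (l 15486960) (l 15285040)))))))), by decide +kernel⟩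

theorem s2_pm_202 : ∃ t, chk3 f_pm_202 t 1 1 1 = true := ex3_a k0_pm_202 k1_pm_202

theorem c_pm_202 : CertB 0 536870912 1073741824 536870912 923417968 42949674 3 eng mog cd0q2 cd4q2 pd0 false true false .pp 2 0 2
    ndB0q2 ndB4q2 pcB0 cut_pm_202 Ext.none :=
  certB1 (fam := false) (s1 := true) (s2 := false) (a := 2) (b := 0) (c := 2) (cn := .pp) (n1 := ndB0q2) (n2 := ndB4q2) (pc := pcB0) (cut := cut_pm_202) (xt := Ext.none) (P1 := 0) (W1 := 536870912) (P2 := 1073741824) (W2 := 536870912) (P3 := 923417968) (W3 := 42949674) (N0 := 3) (En := eng) (mo := mog) (C1 := cd0q2) (C2 := cd4q2) (C3 := pd0)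
    rfl (fun _ => rfl) s2_pm_202

noncomputable def cut_pm_203 : Cut := Cut.of [[⟨3, 0, 0, 1449551462⟩]]

noncomputable def f_pm_203 : ℕ → ℕ → ℕ → ℕ → Bool := onCell 0 536870912 0 1230186008 923417968 42949674
    (rowB 3 eng mog cd0q2 cd4q3 pd0 0 false true false .up 2 0 3 (qsf 0 536870912 0 1230186008 0) ndB0q2 ndB4q3 pcB0 cut_pm_203 Ext.none)

def k0_pm_203 : ∃ t, chk3 f_pm_203 t 1 1 1 = true :=
  ⟨(b (l 2) (b (l 2) (a (b (b (l 2) (a (a (l 6) (b (l 2) (l 16636448))) (a (b (l 2) (l 16547200)) (l 16435384)))) (a (a (b (b (l 16666400) (a (l 16651264) (l 16622808))) (b (a (l 16614360) (l 16568720)) (l 16524968))) (b (b (l 16605024) (l 16551840)) (l 16434000))) (b (a (l 16444464) (l 16273336)) (b (a (l 16316928) (l 16128816)) (a (l 16226608) (l 16027016)))))) (b (l 2) (a (a (b (l 16082544) (b (a (l 15974624) (l 15865280)) (c (a (l 15921800) (l 15853648)) (l 15797256)))) (b (b (l 2) (a (l 15869824) (l 15760912))) (b (a (b (l 15781464) (l 15749248)) (b (l 15699048)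 (l 15689168))) (c (l 15786280) (l 15615024))))) (b (b (l 2) (a (a (b (l 2) (l 15653480)) (l 2)) (l 2))) (a (b (a (l 15641920) (b (l 15594040) (l 15581168))) (a (b (l 15620880) (l 15601368)) (l 15539296))) (b (a (b (l 2) (l 15501360)) (l 2)) (a (l 15457840) (l 15360384)))))))))), by decide +kernel⟩

theorem c_pm_203 : CertB 0 536870912 0 1230186008 923417968 42949674 3 eng mog cd0q2 cd4q3 pd0 false true false .up 2 0 3
    ndB0q2 ndB4q3 pcB0 cut_pm_203 Ext.none :=
  certB0 (fam := false) (s1 := true) (s2 := false) (a := 2) (b := 0) (c := 3) (cn := .up) (n1 := ndB0q2) (n2 := ndB4q3) (pc := pcB0) (cut := cut_pm_203) (xt := Ext.none) (P1 := 0) (W1 := 536870912) (P2 := 0) (W2 := 1230186008) (P3 := 923417968) (W3 := 42949674) (N0 := 3) (En := eng) (mo := mog) (C1 := cd0q2) (C2 := cd4q3) (C3 := pd0)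
    rfl k0_pm_203

noncomputable def cut_pm_213 : Cut := Cut.of [[⟨3, 0, 0, 1449551462⟩], [⟨0, 1, 0, 67108864⟩, ⟨1, 1, 0, 67108864⟩, ⟨2, 2, 0, 16252928⟩]]

noncomputable def f_pm_213 : ℕ → ℕ → ℕ → ℕ → Bool := onCell 0 536870912 0 1230186008 923417968 42949674
    (rowB 3 eng mog cd0q2 cd4q3 pd1 0 false true false .pnn 2 1 3 (qsf 0 536870912 0 1230186008 1) ndB0q2 ndB4q3 pcB1 cut_pm_213 Ext.none)

def k0_pm_213 : ∃ t, chk3 f_pm_213 t 1 2 1 = true :=
  ⟨(a (l 6) (b (a (l 6) (l 6)) (a (a (l 6) (a (l 6) (b (l 6) (b (l 6) (l 16643464))))) (b (a (b (l 6) (a (l 6) (l 16805616))) (b (a (l 6) (l 16686728)) (a (l 16765880) (l 16713392)))) (a (b (a (l 16739464) (l 16779888)) (a (l 16654864) (l 16700784))) (b (a (l 16826424) (l 16787000)) (a (l 16772144) (l 16811680)))))))), by decide +kernel⟩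

def k1_pm_213 : ∃ t, chk3 f_pm_213 t 1 3 1 = true :=
  ⟨(b (a (b (l 6) (a (l 6) (b (a (l 6) (b (a (l 6) (l 16495072)) (l 16269208))) (a (b (l 6) (c (l 16431528) (l 16484168))) (b (l 16299160) (a (l 16333024) (l 16273904))))))) (a (b (b (a (a (l 6) (l 6)) (a (l 16521408) (l 16544904))) (a (b (l 16367176) (l 16414312)) (a (l 16295896) (l 16422008)))) (b (a (a (l 16321152) (b (l 16389112) (l 16323968))) (b (l 16344080) (l 16286472))) (a (b (l 16186328) (l 16244496)) (l 16212488)))) (b (a (b (a (l 16539384) (l 16558496)) (a (l 16407928) (l 16399368))) (b (l 16660544) (l 16452960))) (a (b (l 16255904) (l 16122616)) (b (l 16218208) (l 16009320)))))) (a (b (b (a (l 6) (a (b (c (l 16344096) (l 16411464)) (a (l 16331616) (l 16245496))) (b (a (l 16249312) (l 16229776)) (l 16211264)))) (a (a (l 6) (b (a (l 6) (l 16322336)) (a (l 16308968) (b (l 16240168) (l 1))))) (a (b (a (l 16048224) (l 16187752)) (l 16114392)) (l 16184488)))) (a (l 1) (b (a (l 1) (l 16148496)) (l 1))))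 (b (a (b (a (l 16195704) (l 16126296)) (a (l 16142280) (l 16055200))) (a (b (l 16006648) (l 15913704)) (b (l 15836200) (b (l 15733608) (a (b (l 15751352) (l 15729448)) (a (l 15652944) (l 15593672))))))) (a (b (a (l 16091096) (b (l 16009536) (a (l 16008816) (l 15951200)))) (l 1)) (b (b (a (a (l 15904368) (l 15815152)) (a (l 15707384) (l 15596568))) (a (a (l 15877736) (l 15792264)) (a (l 15695112) (l 15574376)))) (a (b (a (l 15860320) (l 15778648)) (l 1)) (b (a (l 15666568) (l 15521696)) (l 15524072)))))))), by decide +kernel⟩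

theorem s2_pm_213 : ∃ t, chk3 f_pm_213 t 1 1 1 = true := ex3_b k0_pm_213 k1_pm_213

theorem c_pm_213 : CertB 0 536870912 0 1230186008 923417968 42949674 3 eng mog cd0q2 cd4q3 pd1 false true false .pnn 2 1 3
    ndB0q2 ndB4q3 pcB1 cut_pm_213 Ext.none :=
  certB0 (fam := false) (s1 := true) (s2 := false) (a := 2) (b := 1) (c := 3) (cn := .pnn) (n1 := ndB0q2) (n2 := ndB4q3) (pc := pcB1) (cut := cut_pm_213) (xt := Ext.none) (P1 := 0) (W1 := 536870912) (P2 := 0) (W2 := 1230186008) (P3 := 923417968) (W3 := 42949674) (N0 := 3) (En := eng) (mo := mog) (C1 := cd0q2) (C2 := cd4q3) (C3 := pd1)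
    rfl s2_pm_213

noncomputable def cut_mm_001 : Cut := Cut.of [[⟨3, 0, 0, 1449551462⟩]]

noncomputable def f_mm_001 : ℕ → ℕ → ℕ → ℕ → Bool := onCell 0 536870912 536870912 536870912 923417968 42949674
    (rowB 3 eng mog cd0q0 cd4q1 pd0 0 false false false .up 0 0 1 (qsf 0 536870912 536870912 536870912 0) ndB0q0 ndB4q1 pcB0 cut_mm_001 Ext.none)

def k0_mm_001 : ∃ t, chk3 f_mm_001 t 1 1 1 = true :=
  ⟨(l 6), by decide +kernel⟩

theorem c_mm_001 : CertB 0 536870912 536870912 536870912 923417968 42949674 3 eng mog cd0q0 cd4q1 pd0 false false false .up 0 0 1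
    ndB0q0 ndB4q1 pcB0 cut_mm_001 Ext.none :=
  certB0 (fam := false) (s1 := false) (s2 := false) (a := 0) (b := 0) (c := 1) (cn := .up) (n1 := ndB0q0) (n2 := ndB4q1) (pc := pcB0) (cut := cut_mm_001) (xt := Ext.none) (P1 := 0) (W1 := 536870912) (P2 := 536870912) (W2 := 536870912) (P3 := 923417968) (W3 := 42949674) (N0 := 3) (En := eng) (mo := mog) (C1 := cd0q0) (C2 := cd4q1) (C3 := pd0)
    rfl k0_mm_001

noncomputable def cut_mm_011 : Cut := Cut.of [[⟨3, 0, 0, 1449551462⟩]]

noncomputable def f_mm_011 : ℕ → ℕ → ℕ → ℕ → Bool := onCell 0 536870912 536870912 536870912 923417968 42949674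
    (rowB 3 eng mog cd0q0 cd4q1 pd1 0 false false false .pnn 0 1 1 (qsf 0 536870912 536870912 536870912 1) ndB0q0 ndB4q1 pcB1 cut_mm_011 Ext.none)

def k0_mm_011 : ∃ t, chk3 f_mm_011 t 1 1 1 = true :=
  ⟨(l 6), by decide +kernel⟩

theorem c_mm_011 : CertB 0 536870912 536870912 536870912 923417968 42949674 3 eng mog cd0q0 cd4q1 pd1 false false false .pnn 0 1 1
    ndB0q0 ndB4q1 pcB1 cut_mm_011 Ext.none :=
  certB0 (fam := false) (s1 := false) (s2 := false) (a := 0) (b := 1) (c := 1) (cn := .pnn) (n1 := ndB0q0) (n2 := ndB4q1) (pc := pcB1) (cut := cut_mm_011) (xt := Ext.none) (P1 := 0) (W1 := 536870912) (P2 := 536870912) (W2 := 536870912) (P3 := 923417968) (W3 := 42949674) (N0 := 3) (En := eng) (mo := mog) (C1 := cd0q0) (C2 := cd4q1) (C3 := pd1)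
    rfl k0_mm_011

noncomputable def cut_mm_012 : Cut := Cut.of [[⟨3, 0, 0, 1449551462⟩]]

noncomputable def f_mm_012 : ℕ → ℕ → ℕ → ℕ → Bool := onCell 0 536870912 1073741824 536870912 923417968 42949674
    (rowB 3 eng mog cd0q0 cd4q2 pd1 0 false false false .pnp 0 1 2 (qsf 0 536870912 1073741824 536870912 1) ndB0q0 ndB4q2 pcB1 cut_mm_012 Ext.none)

def k0_mm_012 : ∃ t, chk3 f_mm_012 t 1 1 1 = true :=
  ⟨(l 5), by decide +kernel⟩

theorem c_mm_012 : CertB 0 536870912 1073741824 536870912 923417968 42949674 3 eng mog cd0q0 cd4q2 pd1 false false false .pnp 0 1 2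
    ndB0q0 ndB4q2 pcB1 cut_mm_012 Ext.none :=
  certB0 (fam := false) (s1 := false) (s2 := false) (a := 0) (b := 1) (c := 2) (cn := .pnp) (n1 := ndB0q0) (n2 := ndB4q2) (pc := pcB1) (cut := cut_mm_012) (xt := Ext.none) (P1 := 0) (W1 := 536870912) (P2 := 1073741824) (W2 := 536870912) (P3 := 923417968) (W3 := 42949674) (N0 := 3) (En := eng) (mo := mog) (C1 := cd0q0) (C2 := cd4q2) (C3 := pd1)
    rfl k0_mm_012

noncomputable def cut_mm_022 : Cut := Cut.of [[⟨3, 0, 0, 1449551462⟩]]

noncomputable def f_mm_022 : ℕ → ℕ → ℕ → ℕ → Bool := onCell 0 536870912 1073741824 536870912 923417968 42949674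
    (rowB 3 eng mog cd0q0 cd4q2 pd2 0 false false false .pp 0 2 2 (qsf 0 536870912 1073741824 536870912 2) ndB0q0 ndB4q2 pcB2 cut_mm_022 Ext.none)

def k0_mm_022 : ∃ t, chk3 f_mm_022 t 1 1 1 = true :=
  ⟨(l 5), by decide +kernel⟩

theorem c_mm_022 : CertB 0 536870912 1073741824 536870912 923417968 42949674 3 eng mog cd0q0 cd4q2 pd2 false false false .pp 0 2 2
    ndB0q0 ndB4q2 pcB2 cut_mm_022 Ext.none :=
  certB0 (fam := false) (s1 := false) (s2 := false) (a := 0) (b := 2) (c := 2) (cn := .pp) (n1 := ndB0q0) (n2 := ndB4q2) (pc := pcB2) (cut := cut_mm_022) (xt := Ext.none) (P1 := 0) (W1 := 536870912) (P2 := 1073741824) (W2 := 536870912) (P3 := 923417968) (W3 := 42949674) (N0 := 3) (En := eng) (mo := mog) (C1 := cd0q0) (C2 := cd4q2) (C3 := pd2)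
    rfl k0_mm_022

noncomputable def cut_mm_023 : Cut := Cut.of [[⟨3, 0, 0, 1449551462⟩]]

noncomputable def f_mm_023 : ℕ → ℕ → ℕ → ℕ → Bool := onCell 0 536870912 0 1230186008 923417968 42949674
    (rowB 3 eng mog cd0q0 cd4q3 pd2 0 false false false .up 0 2 3 (qsf 0 536870912 0 1230186008 2) ndB0q0 ndB4q3 pcB2 cut_mm_023 Ext.none)

def k0_mm_023 : ∃ t, chk3 f_mm_023 t 1 1 1 = true :=
  ⟨(l 5), by decide +kernel⟩

theorem c_mm_023 : CertB 0 536870912 0 1230186008 923417968 42949674 3 eng mog cd0q0 cd4q3 pd2 false false false .up 0 2 3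
    ndB0q0 ndB4q3 pcB2 cut_mm_023 Ext.none :=
  certB0 (fam := false) (s1 := false) (s2 := false) (a := 0) (b := 2) (c := 3) (cn := .up) (n1 := ndB0q0) (n2 := ndB4q3) (pc := pcB2) (cut := cut_mm_023) (xt := Ext.none) (P1 := 0) (W1 := 536870912) (P2 := 0) (W2 := 1230186008) (P3 := 923417968) (W3 := 42949674) (N0 := 3) (En := eng) (mo := mog) (C1 := cd0q0) (C2 := cd4q3) (C3 := pd2)
    rfl k0_mm_023

noncomputable def cut_mm_033 : Cut := Cut.of [[⟨3, 0, 0, 1449551462⟩]]

noncomputable def f_mm_033 : ℕ → ℕ → ℕ → ℕ → Bool := onCell 0 536870912 0 1230186008 923417968 42949674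
    (rowB 3 eng mog cd0q0 cd4q3 pd3 0 false false false .pnn 0 3 3 (qsf 0 536870912 0 1230186008 3) ndB0q0 ndB4q3 pcB3 cut_mm_033 Ext.none)

def k0_mm_033 : ∃ t, chk3 f_mm_033 t 1 1 1 = true :=
  ⟨(l 5), by decide +kernel⟩

theorem c_mm_033 : CertB 0 536870912 0 1230186008 923417968 42949674 3 eng mog cd0q0 cd4q3 pd3 false false false .pnn 0 3 3
    ndB0q0 ndB4q3 pcB3 cut_mm_033 Ext.none :=
  certB0 (fam := false) (s1 := false) (s2 := false) (a := 0) (b := 3) (c := 3) (cn := .pnn) (n1 := ndB0q0) (n2 := ndB4q3) (pc := pcB3) (cut := cut_mm_033) (xt := Ext.none) (P1 := 0) (W1 := 536870912) (P2 := 0) (W2 := 1230186008) (P3 := 923417968) (W3 := 42949674) (N0 := 3) (En := eng) (mo := mog) (C1 := cd0q0) (C2 := cd4q3) (C3 := pd3)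
    rfl k0_mm_033

noncomputable def cut_mm_101 : Cut := Cut.of [[⟨3, 0, 0, 1449551462⟩], [⟨0, 1, 0, 67108864⟩, ⟨1, 0, 0, 67108864⟩, ⟨2, 1, 0, 67108864⟩]]

noncomputable def f_mm_101 : ℕ → ℕ → ℕ → ℕ → Bool := onCell 536870912 536870912 0 536870912 923417968 42949674
    (rowB 3 eng mog cd0q1 cd4q1 pd0 1 false false false .npn 1 0 1 (qsf 536870912 536870912 536870912 536870912 0) ndB0q1 ndB4q1 pcB0 cut_mm_101 Ext.none)

def k0_mm_101 : ∃ t, chk3 f_mm_101 t 1 1 1 = true :=
  ⟨(l 6), by decide +kernel⟩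

theorem c_mm_101 : CertB 536870912 536870912 536870912 536870912 923417968 42949674 3 eng mog cd0q1 cd4q1 pd0 false false false .npn 1 0 1
    ndB0q1 ndB4q1 pcB0 cut_mm_101 Ext.none :=
  certB1 (fam := false) (s1 := false) (s2 := false) (a := 1) (b := 0) (c := 1) (cn := .npn) (n1 := ndB0q1) (n2 := ndB4q1) (pc := pcB0) (cut := cut_mm_101) (xt := Ext.none) (P1 := 536870912) (W1 := 536870912) (P2 := 536870912) (W2 := 536870912) (P3 := 923417968) (W3 := 42949674) (N0 := 3) (En := eng) (mo := mog) (C1 := cd0q1) (C2 := cd4q1) (C3 := pd0)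
    rfl (fun _ => rfl) k0_mm_101

noncomputable def cut_mm_102 : Cut := Cut.of [[⟨3, 0, 0, 1449551462⟩], [⟨0, 1, 0, 67108864⟩, ⟨1, 0, 0, 67108864⟩, ⟨2, 1, 0, 67108864⟩]]

noncomputable def f_mm_102 : ℕ → ℕ → ℕ → ℕ → Bool := onCell 536870912 536870912 1073741824 536870912 923417968 42949674
    (rowB 3 eng mog cd0q1 cd4q2 pd0 0 false false false .npp 1 0 2 (qsf 536870912 536870912 1073741824 536870912 0) ndB0q1 ndB4q2 pcB0 cut_mm_102 Ext.none)

def k0_mm_102 : ∃ t, chk3 f_mm_102 t 1 1 1 = true :=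
  ⟨(l 6), by decide +kernel⟩

theorem c_mm_102 : CertB 536870912 536870912 1073741824 536870912 923417968 42949674 3 eng mog cd0q1 cd4q2 pd0 false false false .npp 1 0 2
    ndB0q1 ndB4q2 pcB0 cut_mm_102 Ext.none :=
  certB0 (fam := false) (s1 := false) (s2 := false) (a := 1) (b := 0) (c := 2) (cn := .npp) (n1 := ndB0q1) (n2 := ndB4q2) (pc := pcB0) (cut := cut_mm_102) (xt := Ext.none) (P1 := 536870912) (W1 := 536870912) (P2 := 1073741824) (W2 := 536870912) (P3 := 923417968) (W3 := 42949674) (N0 := 3) (En := eng) (mo := mog) (C1 := cd0q1) (C2 := cd4q2) (C3 := pd0)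
    rfl k0_mm_102

noncomputable def cut_mm_112 : Cut := Cut.of [[⟨3, 0, 0, 1449551462⟩]]

noncomputable def f_mm_112 : ℕ → ℕ → ℕ → ℕ → Bool := onCell 536870912 536870912 1073741824 536870912 923417968 42949674
    (rowB 3 eng mog cd0q1 cd4q2 pd1 0 false false false .dn 1 1 2 (qsf 536870912 536870912 1073741824 536870912 1) ndB0q1 ndB4q2 pcB1 cut_mm_112 Ext.none)

def k0_mm_112 : ∃ t, chk3 f_mm_112 t 1 1 1 = true :=
  ⟨(l 6), by decide +kernel⟩

theorem c_mm_112 : CertB 536870912 536870912 1073741824 536870912 923417968 42949674 3 eng mog cd0q1 cd4q2 pd1 false false false .dn 1 1 2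
    ndB0q1 ndB4q2 pcB1 cut_mm_112 Ext.none :=
  certB0 (fam := false) (s1 := false) (s2 := false) (a := 1) (b := 1) (c := 2) (cn := .dn) (n1 := ndB0q1) (n2 := ndB4q2) (pc := pcB1) (cut := cut_mm_112) (xt := Ext.none) (P1 := 536870912) (W1 := 536870912) (P2 := 1073741824) (W2 := 536870912) (P3 := 923417968) (W3 := 42949674) (N0 := 3) (En := eng) (mo := mog) (C1 := cd0q1) (C2 := cd4q2) (C3 := pd1)
    rfl k0_mm_112

noncomputable def cut_mm_113 : Cut := Cut.of [[⟨3, 0, 0, 1449551462⟩]]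

noncomputable def f_mm_113 : ℕ → ℕ → ℕ → ℕ → Bool := onCell 536870912 536870912 0 1230186008 923417968 42949674
    (rowB 3 eng mog cd0q1 cd4q3 pd1 0 false false false .nn 1 1 3 (qsf 536870912 536870912 0 1230186008 1) ndB0q1 ndB4q3 pcB1 cut_mm_113 Ext.none)

def k0_mm_113 : ∃ t, chk3 f_mm_113 t 1 1 1 = true :=
  ⟨(a (l 5) (b (l 5) (l 6))), by decide +kernel⟩

theorem c_mm_113 : CertB 536870912 536870912 0 1230186008 923417968 42949674 3 eng mog cd0q1 cd4q3 pd1 false false false .nn 1 1 3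
    ndB0q1 ndB4q3 pcB1 cut_mm_113 Ext.none :=
  certB0 (fam := false) (s1 := false) (s2 := false) (a := 1) (b := 1) (c := 3) (cn := .nn) (n1 := ndB0q1) (n2 := ndB4q3) (pc := pcB1) (cut := cut_mm_113) (xt := Ext.none) (P1 := 536870912) (W1 := 536870912) (P2 := 0) (W2 := 1230186008) (P3 := 923417968) (W3 := 42949674) (N0 := 3) (En := eng) (mo := mog) (C1 := cd0q1) (C2 := cd4q3) (C3 := pd1)
    rfl k0_mm_113

noncomputable def cut_mm_123 : Cut := Cut.of [[⟨3, 0, 0, 1449551462⟩]]

noncomputable def f_mm_123 : ℕ → ℕ → ℕ → ℕ → Bool := onCell 1073741824 536870912 0 1230186008 923417968 42949674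
    (rowB 3 eng mog cd0q1 cd4q3 pd2 2 false false false .npn 1 2 3 (qsf 536870912 536870912 0 1230186008 2) ndB0q1 ndB4q3 pcB2 cut_mm_123 Ext.none)

def k0_mm_123 : ∃ t, chk3 f_mm_123 t 1 1 1 = true :=
  ⟨(b (l 5) (l 5)), by decide +kernel⟩

theorem c_mm_123 : CertB 536870912 536870912 0 1230186008 923417968 42949674 3 eng mog cd0q1 cd4q3 pd2 false false false .npn 1 2 3
    ndB0q1 ndB4q3 pcB2 cut_mm_123 Ext.none :=
  certB2 (fam := false) (s1 := false) (s2 := false) (a := 1) (b := 2) (c := 3) (cn := .npn) (n1 := ndB0q1) (n2 := ndB4q3) (pc := pcB2) (cut := cut_mm_123) (xt := Ext.none) (P1 := 536870912) (W1 := 536870912) (P2 := 0) (W2 := 1230186008) (P3 := 923417968) (W3 := 42949674) (N0 := 3) (En := eng) (mo := mog) (C1 := cd0q1) (C2 := cd4q3) (C3 := pd2)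
    rfl (fun _ => rfl) k0_mm_123

noncomputable def cut_mm_133 : Cut := Cut.of [[⟨3, 0, 0, 1449551462⟩]]

noncomputable def f_mm_133 : ℕ → ℕ → ℕ → ℕ → Bool := onCell 1610612736 536870912 0 1230186008 923417968 42949674
    (rowB 3 eng mog cd0q1 cd4q3 pd3 2 false false false .dn 1 3 3 (qsf 536870912 536870912 0 1230186008 3) ndB0q1 ndB4q3 pcB3 cut_mm_133 Ext.none)

def k0_mm_133 : ∃ t, chk3 f_mm_133 t 1 1 1 = true :=
  ⟨(l 5), by decide +kernel⟩

theorem c_mm_133 : CertB 536870912 536870912 0 1230186008 923417968 42949674 3 eng mog cd0q1 cd4q3 pd3 false false false .dn 1 3 3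
    ndB0q1 ndB4q3 pcB3 cut_mm_133 Ext.none :=
  certB2 (fam := false) (s1 := false) (s2 := false) (a := 1) (b := 3) (c := 3) (cn := .dn) (n1 := ndB0q1) (n2 := ndB4q3) (pc := pcB3) (cut := cut_mm_133) (xt := Ext.none) (P1 := 536870912) (W1 := 536870912) (P2 := 0) (W2 := 1230186008) (P3 := 923417968) (W3 := 42949674) (N0 := 3) (En := eng) (mo := mog) (C1 := cd0q1) (C2 := cd4q3) (C3 := pd3)
    rfl (fun _ => rfl) k0_mm_133

noncomputable def cut_mm_202 : Cut := Cut.of [[⟨3, 0, 0, 1449551462⟩], [⟨0, 1, 0, 67108864⟩, ⟨1, 0, 0, 67108864⟩, ⟨2, 1, 0, 67108864⟩]]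

noncomputable def f_mm_202 : ℕ → ℕ → ℕ → ℕ → Bool := onCell 0 536870912 0 536870912 923417968 42949674
    (rowB 3 eng mog cd0q2 cd4q2 pd0 1 false false false .pp 2 0 2 (qsf 0 536870912 1073741824 536870912 0) ndB0q2 ndB4q2 pcB0 cut_mm_202 Ext.none)

def k0_mm_202 : ∃ t, chk3 f_mm_202 t 1 1 1 = true :=
  ⟨(a (a (b (b (b (b (a (b (a (l 15852072) (l 15912760)) (l 15932040)) (l 16029096)) (a (l 15979248) (l 16117648))) (b (b (l 16112664) (b (l 16137008) (l 16159616))) (b (a (l 16143032) (l 16253128)) (a (l 16188584) (l 16221112))))) (b (b (b (a (l 16236320) (a (l 16326656) (l 16377184))) (a (l 16287960) (l 16371944))) (a (b (l 16307608) (l 16344288)) (l 16354160))) (b (a (l 16369824) (l 16474592)) (a (l 16413528) (l 16518240))))) (b (b (a (b (l 16460248) (l 16512792)) (b (l 16567624) (a (l 16592024) (l 6)))) (a (b (l 16569384) (a (l 16598136) (l 6))) (l 6))) (l 2))) (b (b (a (b (b (l 16146616) (l 16230984)) (b (b (l 16277408) (b (a (l 16271736) (l 16331720)) (l 16327640)))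 (b (b (l 16352040) (l 16375888)) (l 16224320)))) (b (b (b (l 16239504) (l 16287568)) (b (l 16328736) (a (l 16335336) (l 16392912)))) (b (b (a (l 16364968) (l 16416352)) (b (l 16350656) (l 16443992))) (b (l 16483904) (l 16529056))))) (b (b (a (b (l 16459136) (l 16497400)) (b (l 16568872) (l 6))) (a (l 16538440) (l 6))) (a (b (l 16581184) (l 6)) (l 6)))) (l 6))) (b (a (b (b (a (a (b (l 16264808) (b (l 16414752) (l 6))) (l 6)) (l 6)) (l 6)) (l 6)) (l 6)) (l 6))), by decide +kernel⟩

theorem c_mm_202 : CertB 0 536870912 1073741824 536870912 923417968 42949674 3 eng mog cd0q2 cd4q2 pd0 false false false .pp 2 0 2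
    ndB0q2 ndB4q2 pcB0 cut_mm_202 Ext.none :=
  certB1 (fam := false) (s1 := false) (s2 := false) (a := 2) (b := 0) (c := 2) (cn := .pp) (n1 := ndB0q2) (n2 := ndB4q2) (pc := pcB0) (cut := cut_mm_202) (xt := Ext.none) (P1 := 0) (W1 := 536870912) (P2 := 1073741824) (W2 := 536870912) (P3 := 923417968) (W3 := 42949674) (N0 := 3) (En := eng) (mo := mog) (C1 := cd0q2) (C2 := cd4q2) (C3 := pd0)
    rfl (fun _ => rfl) k0_mm_202

noncomputable def cut_mm_203 : Cut := Cut.of [[⟨3, 0, 0, 1449551462⟩]]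

noncomputable def f_mm_203 : ℕ → ℕ → ℕ → ℕ → Bool := onCell 0 536870912 0 1230186008 923417968 42949674
    (rowB 3 eng mog cd0q2 cd4q3 pd0 0 false false false .up 2 0 3 (qsf 0 536870912 0 1230186008 0) ndB0q2 ndB4q3 pcB0 cut_mm_203 Ext.none)

def k0_mm_203 : ∃ t, chk3 f_mm_203 t 1 1 1 = true :=
  ⟨(b (l 2) (b (l 2) (a (b (l 6) (b (l 6) (a (a (b (l 6) (a (l 16603136) (l 6))) (l 6)) (l 6)))) (l 3)))), by decide +kernel⟩

theorem c_mm_203 : CertB 0 536870912 0 1230186008 923417968 42949674 3 eng mog cd0q2 cd4q3 pd0 false false false .up 2 0 3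
    ndB0q2 ndB4q3 pcB0 cut_mm_203 Ext.none :=
  certB0 (fam := false) (s1 := false) (s2 := false) (a := 2) (b := 0) (c := 3) (cn := .up) (n1 := ndB0q2) (n2 := ndB4q3) (pc := pcB0) (cut := cut_mm_203) (xt := Ext.none) (P1 := 0) (W1 := 536870912) (P2 := 0) (W2 := 1230186008) (P3 := 923417968) (W3 := 42949674) (N0 := 3) (En := eng) (mo := mog) (C1 := cd0q2) (C2 := cd4q3) (C3 := pd0)
    rfl k0_mm_203

noncomputable def cut_mm_213 : Cut := Cut.of [[⟨3, 0, 0, 1449551462⟩]]

noncomputable def f_mm_213 : ℕ → ℕ → ℕ → ℕ → Bool := onCell 0 536870912 0 1230186008 923417968 42949674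
    (rowB 3 eng mog cd0q2 cd4q3 pd1 0 false false false .pnn 2 1 3 (qsf 0 536870912 0 1230186008 1) ndB0q2 ndB4q3 pcB1 cut_mm_213 Ext.none)

def k0_mm_213 : ∃ t, chk3 f_mm_213 t 1 1 1 = true :=
  ⟨(b (l 6) (b (l 6) (a (b (l 6) (b (l 6) (l 1))) (l 3)))), by decide +kernel⟩

theorem c_mm_213 : CertB 0 536870912 0 1230186008 923417968 42949674 3 eng mog cd0q2 cd4q3 pd1 false false false .pnn 2 1 3
    ndB0q2 ndB4q3 pcB1 cut_mm_213 Ext.none :=
  certB0 (fam := false) (s1 := false) (s2 := false) (a := 2) (b := 1) (c := 3) (cn := .pnn) (n1 := ndB0q2) (n2 := ndB4q3) (pc := pcB1) (cut := cut_mm_213) (xt := Ext.none) (P1 := 0) (W1 := 536870912) (P2 := 0) (W2 := 1230186008) (P3 := 923417968) (W3 := 42949674) (N0 := 3) (En := eng) (mo := mog) (C1 := cd0q2) (C2 := cd4q3) (C3 := pd1)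
    rfl k0_mm_213

end Pool.Agent.Strip051.G.I8600_9000.Tab.C.BB04

namespace Pool.Agent.Strip051.G.I8600_9000.Tab.C.BB10

open Pool.Agent.Strip051.PB Pool.Agent.Strip051.PB.T
open Pool.Agent.Strip051.G.I8600_9000.Tab

noncomputable def f_pp_001 : ℕ → ℕ → ℕ → ℕ → Bool := onCell 0 536870912 0 536870912 923417968 42949674
    (rowB 3 eng mog cd1q0 cd0q1 pd0 1 false true true .up 0 0 1 (qsf 0 536870912 536870912 536870912 0) ndB1q0 ndB0q1 pcB0 Cut.none Ext.none)

def k0_pp_001 : ∃ t, chk3 f_pp_001 t 1 1 1 = true :=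
  ⟨(l 3), by decide +kernel⟩

theorem c_pp_001 : CertB 0 536870912 536870912 536870912 923417968 42949674 3 eng mog cd1q0 cd0q1 pd0 false true true .up 0 0 1
    ndB1q0 ndB0q1 pcB0 Cut.none Ext.none :=
  certB1 (fam := false) (s1 := true) (s2 := true) (a := 0) (b := 0) (c := 1) (cn := .up) (n1 := ndB1q0) (n2 := ndB0q1) (pc := pcB0) (cut := Cut.none) (xt := Ext.none) (P1 := 0) (W1 := 536870912) (P2 := 536870912) (W2 := 536870912) (P3 := 923417968) (W3 := 42949674) (N0 := 3) (En := eng) (mo := mog) (C1 := cd1q0) (C2 := cd0q1) (C3 := pd0)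
    rfl (fun _ => rfl) k0_pp_001

noncomputable def cut_pp_011 : Cut := Cut.of [[⟨0, 0, 0, 67108864⟩, ⟨1, 1, 0, 67108864⟩, ⟨2, 1, 0, 67108864⟩]]

noncomputable def f_pp_011 : ℕ → ℕ → ℕ → ℕ → Bool := onCell 0 536870912 536870912 536870912 923417968 42949674
    (rowB 3 eng mog cd1q0 cd0q1 pd1 0 false true true .pnn 0 1 1 (qsf 0 536870912 536870912 536870912 1) ndB1q0 ndB0q1 pcB1 cut_pp_011 Ext.none)

def k0_pp_011 : ∃ t, chk3 f_pp_011 t 1 1 1 = true :=
  ⟨(a (b (l 3) (b (l 3) (a (b (l 3) (a (b (l 3) (b (l 3) (a (l 6) (l 3)))) (l 3))) (l 3)))) (l 3)), by decide +kernel⟩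

theorem c_pp_011 : CertB 0 536870912 536870912 536870912 923417968 42949674 3 eng mog cd1q0 cd0q1 pd1 false true true .pnn 0 1 1
    ndB1q0 ndB0q1 pcB1 cut_pp_011 Ext.none :=
  certB0 (fam := false) (s1 := true) (s2 := true) (a := 0) (b := 1) (c := 1) (cn := .pnn) (n1 := ndB1q0) (n2 := ndB0q1) (pc := pcB1) (cut := cut_pp_011) (xt := Ext.none) (P1 := 0) (W1 := 536870912) (P2 := 536870912) (W2 := 536870912) (P3 := 923417968) (W3 := 42949674) (N0 := 3) (En := eng) (mo := mog) (C1 := cd1q0) (C2 := cd0q1) (C3 := pd1)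
    rfl k0_pp_011

noncomputable def cut_pp_012 : Cut := Cut.of [[⟨0, 0, 0, 67108864⟩, ⟨1, 1, 0, 67108864⟩, ⟨2, 1, 0, 67108864⟩]]

noncomputable def xt_pp_012 : Ext := extD2 3 ⟨4, 1, 1, 5, 17, 5, 87, 100, 43, 100, 1, 8⟩ eng cd1q0 cd0q2 pd1 false true true .pnp 0 1 2 rfl ndB1q0 ndB0q2 pcB1

noncomputable def f_pp_012 : ℕ → ℕ → ℕ → ℕ → Bool := onCell 536870912 536870912 0 536870912 923417968 42949674
    (rowB 3 eng mog cd1q0 cd0q2 pd1 2 false true true .pnp 0 1 2 (qsf 0 536870912 0 536870912 1) ndB1q0 ndB0q2 pcB1 cut_pp_012 xt_pp_012)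

def k0_pp_012 : ∃ t, chk3 f_pp_012 t 2 1 1 = true :=
  ⟨(b (a (b (l 2) (a (l 2) (b (l 2) (a (l 2) (b (l 2) (a (l 2) (l 16457536))))))) (b (a (b (a (b (l 16179568) (l 16235184)) (b (l 16196064) (l 16235592))) (a (l 16092672) (l 16189464))) (b (a (l 16027960) (l 16158960)) (a (l 16233136) (l 16265864)))) (a (a (b (c (l 16458024) (l 16525120)) (b (l 16552424) (c (l 16626448) (l 16606664)))) (b (c (l 16435744) (l 16508648)) (b (l 16570056) (l 16522904)))) (b (a (l 16250248) (l 16289832)) (a (c (l 16554368) (l 16591608)) (c (l 16539176) (l 16601304))))))) (b (a (a (l 2) (b (a (l 2) (b (b (a (l 2) (l 134384782007)) (l 3)) (l 3))) (l 3))) (a (b (a (b (a (b (l 173576566007) (l 138679730327)) (b (l 16583152) (l 115594273207))) (b (l 199346430439) (l 3))) (b (a (l 16415808) (l 16563488)) (a (b (l 121499816071) (l 3)) (b (l 16436568) (l 174113417047))))) (l 3)) (b (a (b (c (l 16630080) (l 16631096)) (a (b (l 16566352) (l 106467404151)) (b (l 16591400) (l 16547912)))) (b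 (l 16561632) (c (l 16613200) (l 16474488)))) (b (a (b (a (l 3) (l 170892220967)) (l 3)) (b (a (l 151028091943) (l 16559168)) (a (l 162839065495) (l 165523531799)))) (l 3))))) (l 3))), by decide +kernel⟩

def k1_pp_012 : ∃ t, chk3 f_pp_012 t 6 1 1 = true :=
  ⟨(b (b (a (b (a (l 16209536) (l 16325896)) (a (l 16140192) (l 16215088))) (b (c (l 16343040) (l 16418200)) (c (a (l 16400984) (l 16450352)) (l 16356568)))) (a (a (b (l 16340664) (c (l 16535000) (l 16599608))) (b (l 16382104) (c (l 16542976) (l 16609176)))) (b (a (c (l 16477992) (l 16559680)) (l 16557240)) (a (c (l 16561232) (l 16628272)) (l 16478888))))) (b (a (b (a (b (l 16600584) (l 16425072)) (c (l 16562048) (b (l 16674840) (l 16706208)))) (a (b (c (b (l 16608944) (l 16590792)) (b (l 16591736) (l 16543552))) (b (a (l 243369862023) (l 151565013463)) (c (l 235316647847) (l 242295975751)))) (b (a (l 16625424) (l 16656656)) (c (b (l 16610528) (a (l 251959802903) (l 16565112))) (a (l 166060513239) (l 16552656))))))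 (b (a (c (l 16655704) (l 16708952)) (c (l 16670432) (l 16724456))) (a (b (c (l 16678328) (l 16702912)) (a (b (l 16629440) (l 16584936)) (b (l 16667104) (l 16624696)))) (b (l 16652824) (a (l 16685976) (l 16726112)))))) (b (a (b (a (l 3) (b (a (l 3) (b (l 258402290503) (l 3))) (l 3))) (l 3)) (b (a (b (a (c (l 264307904135) (l 258402223063)) (c (l 16603200) (l 16557768))) (a (l 3) (c (b (l 196662177303) (l 266992179143)) (l 266992145815)))) (a (b (l 16625872) (a (c (l 274508523015) (l 267529076119)) (c (l 16626992) (l 16569928)))) (b (l 16671064) (a (l 16645560) (l 16649856))))) (a (l 3) (b (a (a (l 3) (c (l 276119069191) (l 272360821959))) (c (a (l 277192888311) (l 276119224343)) (b (l 231558800263) (l 274508374743)))) (l 3))))) (l 3)))), by decide +kernel⟩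

def k2_pp_012 : ∃ t, chk3 f_pp_012 t 7 2 1 = true :=
  ⟨(a (b (b (a (l 16435432) (l 16473984)) (a (l 16333136) (l 16487496))) (a (b (l 16605832) (l 16570456)) (b (l 16569136) (l 16576936)))) (b (a (b (l 16513240) (l 16548152)) (b (l 16539336) (l 16421456))) (a (b (b (l 16503056) (l 16536976)) (c (l 16589128) (l 16493976))) (b (b (l 16318088) (l 16297416)) (a (l 16498912) (l 16451624)))))), by decide +kernel⟩

def k3_pp_012 : ∃ t, chk3 f_pp_012 t 7 6 1 = true :=
  ⟨(a (a (b (c (l 16689720) (l 16702056)) (b (l 16654488) (c (l 16746640) (l 16666272)))) (b (c (l 16642624) (l 16533352)) (b (a (l 16695216) (l 16665168)) (a (l 16667776) (l 16619264))))) (a (b (a (l 16506408) (b (l 16567224) (l 16583440))) (a (b (l 16613584) (l 16612576)) (b (l 16581408) (l 16541696)))) (b (b (a (l 16526808) (l 16482680)) (a (l 16545568) (l 16503808))) (a (b (l 16546400) (a (l 16602072) (l 16585240))) (b (l 16465352) (b (l 16549832) (l 16503088))))))), by decide +kernel⟩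

def k4_pp_012 : ∃ t, chk3 f_pp_012 t 14 14 1 = true :=
  ⟨(a (a (b (b (l 16713712) (l 16686760)) (c (a (b (l 238538366199) (l 289541010519)) (b (l 16713696) (b (l 251960197047) (l 309942184839)))) (a (b (l 16614880) (l 290614556983)) (b (l 16644984) (b (l 224042726711) (l 314773814263)))))) (c (b (l 16753160) (b (l 16751416) (c (b (l 16763112) (a (l 303499856983) (l 240149057479))) (b (l 16743840) (a (l 307257854167) (l 234780317255)))))) (b (l 16673160) (b (l 16688064) (a (b (l 16663064) (l 309942116471)) (b (l 16696456) (a (l 302962873431) (l 16707480)))))))) (b (a (c (l 16738080) (l 16662800)) (c (l 16698896) (l 16664184))) (a (b (a (l 16715088) (l 16725528)) (a (b (l 16726560) (c (l 16750456) (l 16734672))) (b (l 16737264) (l 16704256)))) (b (c (l 16729056) (l 16695568)) (c (l 16716984) (a (l 16715872) (l 16707664))))))), by decide +kernel⟩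

def k5_pp_012 : ∃ t, chk3 f_pp_012 t 28 30 1 = true :=
  ⟨(b (a (l 3) (b (a (l 3) (a (l 3) (b (c (l 300815475735) (l 309942160759)) (l 3)))) (l 3))) (l 3)), by decide +kernel⟩

def k6_pp_012 : ∃ t, chk3 f_pp_012 t 58 30 1 = true :=
  ⟨(a (b (b (c (a (b (l 247665229991) (l 300278581879)) (b (l 16774832) (c (l 295446790295) (l 298131117607)))) (a (b (l 238001494919) (l 309405347399)) (b (l 16745472) (c (l 300278573079) (l 304036619447))))) (l 3)) (l 3)) (b (b (a (b (l 16734680) (c (c (l 257865794903) (l 253570800055)) (c (l 248738933223) (l 244443936055)))) (c (l 16746552) (l 16717768))) (b (c (c (a (l 295446767655) (a (l 291151815031) (l 265381989255))) (a (l 298131096071) (a (l 292762401751) (l 261086995975)))) (c (a (l 300815423591) (a (l 294909858487) (l 257328872055))) (a (l 303499750215) (a (l 296520443415) (l 254644488391))))) (a (l 3) (c (a (l 3) (c (l 295983656247) (l 299204856791))) (a (l 3) (c (l 302426056439) (l 305647255191))))))) (l 3))), by decide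 +kernel⟩

def k7_pp_012 : ∃ t, chk3 f_pp_012 t 59 60 1 = true :=
  ⟨(b (a (c (l 16739824) (l 16732088)) (l 16717560)) (a (b (c (a (c (l 16776136) (l 16763144)) (l 16765592)) (a (c (l 16749704) (l 16735800)) (l 16738736))) (a (b (a (c (c (l 289541199767) (l 291151787463)) (c (b (l 261623860103) (l 297057342839)) (b (l 262160690711) (l 299741670711)))) (c (c (l 16767768) (l 265381976167)) (c (l 261623856999) (l 258939479735)))) (a (l 3) (c (c (l 292762425175) (l 295446750055)) (c (b (l 271824408775) (l 303499794823)) (a (l 304036639223) (l 299204799431)))))) (b (c (l 16753376) (a (l 16744176) (l 16742256))) (a (c (c (l 272361305927) (b (l 16765632) (l 273435035111))) (c (a (l 291151758871) (l 267529437255)) (c (l 269676903255) (l 269676889975)))) (c (c (l 16776520) (l 16764360)) (c (l 16751752) (l 16738704))))))) (c (b (l 16759784) (c (l 16749824) (l 16737536))) (a (c (l 16744656) (l 16731120)) (l 16734352))))), by decide +kernel⟩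

def k8_pp_012 : ∃ t, chk3 f_pp_012 t 118 122 1 = true :=
  ⟨(b (a (l 3) (a (a (l 3) (b (c (c (l 295983649943) (l 298667980711)) (c (l 301889181543) (l 305647252391))) (l 3))) (b (c (c (b (l 280414383527) (l 293299293879)) (c (l 291151791543) (l 292225521303))) (c (c (l 293299248215) (a (l 297594206471) (l 292225495783))) (a (b (l 283635544951) (l 308331606855)) (c (l 293299224903) (l 294909824711))))) (l 3)))) (l 3)), by decide +kernel⟩

def k9_pp_012 : ∃ t, chk3 f_pp_012 t 119 122 1 = true :=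
  ⟨(a (a (b (b (c (c (l 279877509447) (a (l 276656263863) (l 16764632))) (c (c (l 274508763479) (l 273435010583)) (c (l 271824387031) (l 271287505015)))) (b (c (c (l 291151787959) (a (l 298131108391) (l 290078043239))) (c (c (l 294909864199) (l 296520464711)) (a (b (l 302426026135) (l 3)) (c (l 294372967975) (l 295983568055))))) (l 3))) (l 3)) (b (b (c (l 16748288) (b (l 16744000) (l 16745568))) (c (c (b (l 16771576) (l 288467442743)) (c (l 281488113159) (b (l 16762312) (l 284709328231)))) (c (c (b (l 16756320) (l 285246187319)) (b (l 16750224) (a (l 297594207015) (l 282561818263)))) (c (b (l 16744016) (a (l 299204807495) (l 282024936583))) (b (l 16737696) (a (l 301352278663) (l 281488055015))))))) (a (l 3) (a (l 3) (b (b (c (c (l 295446775943) (l 298131108039)) (b (c (l 299204826039) (l 302426027287)) (l 3))) (l 3)) (l 3)))))) (a (b (b (c (l 16767512) (l 16743072)) (c (c (l 16775672) (l 16764224)) (a (c (l 16752760) (l 16740448)) (l 16745832)))) (b (c (c (b (l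 286856828983) (l 295983625927)) (c (l 291151791063) (a (l 295446747735) (l 289004295447)))) (b (c (c (l 5196565100627325287485611071) (a (l 293299229111) (l 16750568))) (c (a (l 294909840263) (l 281488065383)) (a (l 296520440727) (l 280414313095)))) (a (l 3) (c (c (l 297057348919) (l 298667939495)) (c (l 300278545575) (l 302426022375)))))) (l 3))) (b (c (l 16767056) (l 16743000)) (b (c (c (a (l 286856830343) (l 16775928)) (c (l 279340629383) (l 280414359991))) (a (c (c (l 284172444263) (l 285246174359)) (b (l 16741352) (c (l 289541126103) (l 289541119271)))) (c (l 16753352) (l 16742072)))) (b (c (c (l 297057377447) (a (l 302426075959) (l 291151780375))) (a (a (l 3) (a (l 3) (c (l 304036665751) (l 306720996935)))) (c (c (l 294909854727) (l 295983590311)) (c (l 296520452183) (l 297594184743))))) (l 3)))))), by decide +kernel⟩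

def k10_pp_012 : ∃ t, chk3 f_pp_012 t 59 123 1 = true :=
  ⟨(l 3), by decide +kernel⟩

def k11_pp_012 : ∃ t, chk3 f_pp_012 t 14 31 1 = true :=
  ⟨(l 3), by decide +kernel⟩

def k12_pp_012 : ∃ t, chk3 f_pp_012 t 15 14 1 = true :=
  ⟨(a (b (a (b (l 16651344) (l 16665288)) (c (l 16628632) (l 16594496))) (a (b (l 16660840) (a (l 16695304) (l 16694752))) (b (a (l 16686752) (l 16675280)) (a (l 16686528) (l 16676408))))) (a (b (b (l 16554272) (a (l 16642320) (l 16627840))) (b (a (l 16662968) (l 16649568)) (a (l 16644352) (c (l 16686312) (l 16661216))))) (b (b (a (l 16592544) (l 16574368)) (a (l 16612072) (l 16594784))) (a (b (l 16592888) (c (l 16672240) (l 16648088))) (b (c (l 16631784) (l 16604592)) (l 6)))))), by decide +kernel⟩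

def k13_pp_012 : ∃ t, chk3 f_pp_012 t 120 60 1 = true :=
  ⟨(b (l 16731032) (c (l 16755008) (l 16729256))), by decide +kernel⟩

def k14_pp_012 : ∃ t, chk3 f_pp_012 t 120 61 1 = true :=
  ⟨(b (a (a (c (b (l 16765376) (b (l 16758752) (c (b (l 284172475175) (l 297594247671)) (c (l 285783080951) (b (l 279877488103) (l 297594220919)))))) (b (l 16741376) (c (b (l 16752168) (c (b (l 280951218711) (a (l 302962930087) (l 287393672471))) (b (l 282561820023) (a (l 304036650151) (l 289004268695))))) (b (l 16740256) (c (b (l 282561809431) (a (l 305110385719) (l 290614869975))) (b (a (l 285783023639) (l 16739496)) (a (l 306184115831) (l 292225473671)))))))) (b (l 16730984) (b (c (l 16767632) (l 16744720)) (b (c (l 16769592) (l 16747200)) (c (c (l 16776144) (l 16765544)) (a (c (l 16754904) (l 16743464)) (l 16748488))))))) (b (l 16728568) (c (b (l 16765240) (l 16757432)) (c (l 16749896) (l 16738248))))) (b (c (c (a (a (l 309405401431) (c (l 305647328839) (l 306721050119))) (b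 (a (l 285783087255) (l 16774928)) (a (l 305647323591) (l 292225538023)))) (a (b (a (l 309942262919) (b (a (l 291688657335) (l 286319941031)) (l 310479135495))) (l 3)) (b (a (c (l 279340629671) (l 280414360727)) (l 16764648)) (a (b (l 307794778359) (l 3)) (b (l 282024973895) (a (l 307257916007) (l 295983625847))))))) (b (a (c (c (a (l 311015985895) (a (l 298131087863) (l 291151764935))) (a (l 312089716631) (b (a (l 294909845031) (l 285246175927)) (l 312626586999)))) (c (a (l 313163457639) (b (a (l 296520451735) (l 286319906839)) (l 313700322935))) (a (l 314774058887) (b (a (l 298667926519) (l 286856767271)) (l 5680135163589461273918282815))))) (c (a (a (c (l 283635565719) (l 284709301831)) (l 16753744)) (l 16753968)) (a (b (l 16743408) (a (c (l 291151743303) (l 292762344791)) (l 16744824))) (l 16742880)))) (a (l 3) (a (b (a (c (l 329806473111) (l 335175160391)) (c (l 305110406375) (a (l 316921548903) (l 299741679271)))) (l 3)) (c (a (b (l 283098698199) (l 311015991831))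 (c (l 292225502183) (l 293836112263))) (c (b (l 279340587255) (a (l 313700330439) (l 300815422455))) (b (l 279877447799) (a (l 315847803207) (l 302962897879))))))))) (l 3))), by decide +kernel⟩

def k15_pp_012 : ∃ t, chk3 f_pp_012 t 121 60 1 = true :=
  ⟨(b (l 16703176) (l 16714592)), by decide +kernel⟩

def k16_pp_012 : ∃ t, chk3 f_pp_012 t 121 61 1 = true :=
  ⟨(b (a (c (l 16760656) (l 16737736)) (l 16714792)) (b (a (b (c (l 16767576) (l 16746344)) (a (c (c (l 16770720) (b (l 16765344) (l 280414361015))) (c (c (l 16755776) (l 275045630327)) (c (l 275045620663) (l 275582481303)))) (c (l 16769592) (l 16749112)))) (c (l 16765920) (l 16745256))) (a (b (a (c (c (l 299204861655) (b (a (l 302426078039) (l 288467426503)) (l 310479132775))) (c (c (b (a (l 304036675767) (l 286319931351)) (l 312626601655)) (b (a (l 306184138679) (l 286856792055)) (l 314774080439))) (c (b (a (l 308331617127) (l 287393652903)) (l 5747835365740625431232306751)) (b (a (l 309942221847) (l 286856771719))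 (a (l 3) (l 317995284919)))))) (b (c (c (l 16776424) (l 16766840)) (c (l 16756864) (l 16746496))) (c (c (l 287930581879) (a (l 296520487799) (l 286856813943))) (a (c (c (l 298131085879) (l 300278564743)) (a (c (l 306184134839) (l 5602764199076270782300495423)) (c (l 297594199799) (l 299204803463)))) (c (b (l 16757760) (l 287930539159)) (c (l 285246170055) (l 285783031191))))))) (b (a (l 3) (a (l 3) (c (c (l 300278614471) (l 303499821431)) (c (c (l 305647290711) (l 307257888375)) (c (l 5631778604655614500359577151) (a (l 317458420935) (l 5622107077618400235535867455))))))) (l 3))) (c (c (b (l 16774864) (a (b (l 293836152871) (l 301889227575)) (l 287930571639))) (b (l 16760200) (c (a (b (l 288467436583) (l 302426074503)) (l 279877502327)) (a (b (l 290078039783) (l 304036678007)) (l 281488105495))))) (b (a (c (l 16756320) (l 16746096)) (l 16749896)) (c (c (a (b (l 290614900951) (a (l 313163484999) (l 301352313703))) (l 282561837895)) (a (b (a (l 293299243767) (l 16756048))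 (a (l 315310959015) (l 301352309367))) (b (l 16755040) (l 288467408087)))) (a (b (a (a (b (l 16748904) (c (l 306184142055) (l 308331615591))) (c (l 290078009735) (l 290614870823))) (l 16748560)) (c (a (l 317458427591) (a (l 308331621703) (l 298667944871))) (a (l 319605901239) (b (l 299204806439) (l 313700321431))))) (a (b (l 16747912) (c (l 292225494903) (l 293299227143))) (l 16748200))))))))), by decide +kernel⟩

def k17_pp_012 : ∃ t, chk3 f_pp_012 t 61 30 1 = true :=
  ⟨(b (a (b (l 16721440) (l 16708056)) (a (l 16681256) (l 16676984))) (b (a (a (l 16722080) (l 16718816)) (c (l 16745192) (l 16724288))) (a (b (a (l 16731824) (l 16728728)) (a (c (a (l 16756312) (l 16767912)) (c (l 16754552) (l 16744664))) (c (l 16765560) (l 16746888)))) (c (l 16736360) (l 16717848))))), by decide +kernel⟩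

def k18_pp_012 : ∃ t, chk3 f_pp_012 t 30 31 1 = true :=
  ⟨(b (a (b (a (l 3) (b (a (l 3) (b (a (l 3) (c (c (l 306184185223) (b (a (l 309405403223) (l 290614920359)) (l 319069081207))) (c (a (c (l 315310960055) (l 316921568695)) (b (c (l 292225508967) (l 294372988519)) (l 322290283127))) (c (b (a (l 5680135772043785330199911999) (b (l 16750360) (l 307257881751))) (l 324437752935)) (b (a (b (l 5631778618490672555633663551) (l 3)) (b (l 16745976) (a (l 315310941239) (l 301352292407)))) (l 326048356087)))))) (l 3))) (l 3))) (l 3)) (b (a (b (b (a (a (c (a (c (l 288467454119) (b (l 16768984) (l 298131114599))) (c (l 289004315559) (l 290078041591))) (a (b (c (l 16759872) (l 16750392)) (c (c (l 300278574407) (l 302426054151)) (a (c (l 315310946951) (l 312089711975)) (b (l 292225494551) (l 5786521317092157863955766847))))) (b (l 16754520) (c (b (l 16760496) (l 296520478743)) (c (l 293299239895) (l 294372972599)))))) (c (c (l 16776584) (l 16768000)) (c (l 16759056) (l 16749744))))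 (c (l 16749080) (a (l 16753136) (l 6)))) (a (b (a (a (l 3) (b (c (c (l 315847864279) (l 313163501047)) (c (l 316921574615) (c (l 319069039383) (l 320679648023)))) (l 3))) (c (c (l 296520510151) (a (l 292762405975) (l 16769976))) (b (a (c (l 291688641127) (c (l 16752384) (l 294372973175))) (l 16753792)) (a (c (l 309405382375) (a (l 325511491911) (l 305110399239))) (l 6))))) (a (l 3) (a (a (l 3) (a (l 3) (l 6))) (l 6)))) (l 6))) (a (l 3) (l 6))) (l 6)) (l 6))) (l 3)), by decide +kernel⟩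

def k19_pp_012 : ∃ t, chk3 f_pp_012 t 31 15 1 = true :=
  ⟨(b (a (b (a (b (l 16684144) (l 16697168)) (l 6)) (l 6)) (l 6)) (l 6)), by decide +kernel⟩

theorem s20_pp_012 : ∃ t, chk3 f_pp_012 t 121 30 1 = true := ex3_b k15_pp_012 k16_pp_012

theorem s21_pp_012 : ∃ t, chk3 f_pp_012 t 120 30 1 = true := ex3_b k13_pp_012 k14_pp_012

theorem s22_pp_012 : ∃ t, chk3 f_pp_012 t 60 30 1 = true := ex3_a s21_pp_012 s20_pp_012

theorem s23_pp_012 : ∃ t, chk3 f_pp_012 t 30 30 1 = true := ex3_a s22_pp_012 k17_pp_012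

theorem s24_pp_012 : ∃ t, chk3 f_pp_012 t 30 15 1 = true := ex3_b s23_pp_012 k18_pp_012

theorem s25_pp_012 : ∃ t, chk3 f_pp_012 t 15 15 1 = true := ex3_a s24_pp_012 k19_pp_012

theorem s26_pp_012 : ∃ t, chk3 f_pp_012 t 15 7 1 = true := ex3_b k12_pp_012 s25_pp_012

theorem s27_pp_012 : ∃ t, chk3 f_pp_012 t 59 122 1 = true := ex3_a k8_pp_012 k9_pp_012

theorem s28_pp_012 : ∃ t, chk3 f_pp_012 t 59 61 1 = true := ex3_b s27_pp_012 k10_pp_012

theorem s29_pp_012 : ∃ t, chk3 f_pp_012 t 59 30 1 = true := ex3_b k7_pp_012 s28_pp_012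

theorem s30_pp_012 : ∃ t, chk3 f_pp_012 t 29 30 1 = true := ex3_a k6_pp_012 s29_pp_012

theorem s31_pp_012 : ∃ t, chk3 f_pp_012 t 14 30 1 = true := ex3_a k5_pp_012 s30_pp_012

theorem s32_pp_012 : ∃ t, chk3 f_pp_012 t 14 15 1 = true := ex3_b s31_pp_012 k11_pp_012

theorem s33_pp_012 : ∃ t, chk3 f_pp_012 t 14 7 1 = true := ex3_b k4_pp_012 s32_pp_012

theorem s34_pp_012 : ∃ t, chk3 f_pp_012 t 7 7 1 = true := ex3_a s33_pp_012 s26_pp_012

theorem s35_pp_012 : ∃ t, chk3 f_pp_012 t 7 3 1 = true := ex3_b k3_pp_012 s34_pp_012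

theorem s36_pp_012 : ∃ t, chk3 f_pp_012 t 7 1 1 = true := ex3_b k2_pp_012 s35_pp_012

theorem s37_pp_012 : ∃ t, chk3 f_pp_012 t 3 1 1 = true := ex3_a k1_pp_012 s36_pp_012

theorem s38_pp_012 : ∃ t, chk3 f_pp_012 t 1 1 1 = true := ex3_a k0_pp_012 s37_pp_012

theorem c_pp_012 : CertB 0 536870912 0 536870912 923417968 42949674 3 eng mog cd1q0 cd0q2 pd1 false true true .pnp 0 1 2
    ndB1q0 ndB0q2 pcB1 cut_pp_012 xt_pp_012 :=
  certB2 (fam := false) (s1 := true) (s2 := true) (a := 0) (b := 1) (c := 2) (cn := .pnp) (n1 := ndB1q0) (n2 := ndB0q2) (pc := pcB1) (cut := cut_pp_012) (xt := xt_pp_012) (P1 := 0) (W1 := 536870912) (P2 := 0) (W2 := 536870912) (P3 := 923417968) (W3 := 42949674) (N0 := 3) (En := eng) (mo := mog) (C1 := cd1q0) (C2 := cd0q2) (C3 := pd1)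
    rfl (fun _ => rfl) s38_pp_012

noncomputable def cut_pp_022 : Cut := Cut.of [[⟨0, 0, 0, 53687091⟩, ⟨1, 1, 0, 53687091⟩, ⟨2, 1, 0, 53687091⟩]]

noncomputable def f_pp_022 : ℕ → ℕ → ℕ → ℕ → Bool := onCell 0 536870912 0 536870912 923417968 42949674
    (rowB 3 eng mog cd1q0 cd0q2 pd2 0 false true true .pp 0 2 2 (qsf 0 536870912 0 536870912 2) ndB1q0 ndB0q2 pcB2 cut_pp_022 Ext.none)

def k0_pp_022 : ∃ t, chk3 f_pp_022 t 4 2 1 = true :=
  ⟨(b (a (b (a (a (b (l 16274264) (b (l 16267800) (l 16260280))) (l 16401592)) (a (l 16265384) (l 16277096))) (b (a (a (l 16240104) (l 16254336)) (l 16274008)) (a (a (l 16259688) (l 16240272)) (l 16250688)))) (b (a (b (l 16331432) (l 16283504)) (b (l 16361344) (l 16329008))) (a (a (l 16274976) (l 16290168)) (b (a (l 16316272) (l 16349264)) (b (l 16318528) (l 16353424)))))) (b (a (a (b (a (c (l 16223480) (l 16181200)) (l 16233560)) (a (c (l 16220584) (l 16171048)) (l 16214448))) (b (a (l 16262632) (l 16290208)) (c (l 16312312) (l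 16267064)))) (a (b (a (l 16316528) (l 16341768)) (a (l 16340784) (l 16372672))) (b (a (l 16366096) (l 16389640)) (a (l 16298376) (b (l 16421256) (l 16444536)))))) (c (a (a (b (b (l 16224056) (l 16229536)) (a (b (l 16232120) (l 16240360)) (l 16268104))) (b (l 16334224) (a (l 16339376) (l 16387160)))) (a (b (a (l 16393496) (l 16430536)) (a (l 16432408) (l 16475256))) (b (a (l 16465936) (l 16499816)) (b (l 150356688999) (a (l 16529888) (l 16569904)))))) (a (a (a (b (b (l 16168568) (l 16169360)) (b (l 16172640) (l 16136888))) (b (l 16217904) (l 16212544))) (b (b (l 16280840) (l 16292408)) (a (l 16267288) (l 16340040)))) (a (b (a (l 16349712) (l 16389600)) (a (l 16389312) (l 16457240))) (b (a (l 16427592) (l 16501864)) (a (b (l 16466456) (l 16495704)) (b (l 16507320) (l 16497616))))))))), by decide +kernel⟩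

def k1_pp_022 : ∃ t, chk3 f_pp_022 t 5 2 1 = true :=
  ⟨(a (b (b (a (b (l 16391728) (a (l 16348624) (l 16340904))) (l 1)) (a (b (a (l 16319424) (b (b (c (l 16362984) (l 16317000)) (l 16346880)) (l 175052666711))) (a (l 16372320) (c (l 16411024) (l 16345904)))) (l 1))) (a (a (b (b (c (l 16432592) (l 16391416)) (b (l 16469168) (l 180958259527))) (b (b (l 190085114439) (l 201896329943)) (b (a (l 16489472) (l 1)) (l 1)))) (a (b (b (l 149283014087) (l 441340640199)) (l 1)) (l 1))) (l 1))) (l 1)), by decide +kernel⟩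

def k2_pp_022 : ∃ t, chk3 f_pp_022 t 8 6 1 = true :=
  ⟨(b (a (b (c (a (b (a (l 16236368) (l 16266440)) (a (l 16249952) (l 16281880))) (l 16276928)) (a (b (l 16146416) (a (l 16183792) (l 16219280))) (c (l 16255336) (l 16225384)))) (c (a (a (b (l 16267384) (l 16289504)) (l 16291832)) (b (l 16350152) (l 16376712))) (a (b (b (l 16172488) (l 16203528)) (a (l 16180280) (l 16262096))) (b (l 16292608) (l 16319800))))) (b (c (a (l 16376088) (l 16430376)) (a (l 16324552) (l 16384176))) (a (c (l 16385120) (b (l 16361784) (l 16392976))) (c (l 16424744) (l 16339408))))) (a (b (b (a (c (c (l 16340536) (l 16299232)) (a (l 16208168) (l 16292120))) (c (l 16408544) (l 16331968))) (a (c (a (b (l 16341240) (l 16338424)) (l 16389336)) (a (c (l 16301512) (l 16267224)) (l 16328672))) (c (l 16446080) (l 16350592)))) (b (a (a (c (a (b (l 16368856) (l 16411040)) (l 16394808)) (c (b (l 16331544) (l 16353912)) (l 16298872))) (c (l 16441080) (l 16372336))) (c (a (l 16470328) (l 16508968))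 (a (l 16417208) (l 16460792)))) (a (a (c (a (b (c (l 16427840) (l 16397848)) (c (a (l 16446880) (l 16457496)) (a (l 16417368) (l 16428688)))) (b (l 16434384) (l 16454328))) (b (c (l 16357232) (l 16325112)) (a (c (l 16413440) (l 16360496)) (l 16422336)))) (c (c (l 16491536) (l 16465392)) (a (l 16422288) (l 16435552)))) (c (b (l 16463976) (l 16449016)) (c (l 16421712) (l 16397152)))))) (a (b (c (l 16371472) (b (l 16430040) (l 16473480))) (b (c (l 16502016) (l 16481912)) (b (l 16481016) (l 16489712)))) (b (c (l 16459072) (l 16420960)) (b (l 16494400) (l 16526720)))))), by decide +kernel⟩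

def k3_pp_022 : ∃ t, chk3 f_pp_022 t 9 6 1 = true :=
  ⟨(b (a (b (a (b (l 16342928) (l 16371448)) (b (l 16413488) (l 16424096))) (a (b (l 16403848) (l 16440968)) (a (l 16444216) (l 16471952)))) (b (a (b (c (l 16538888) (l 16528008)) (l 16473928)) (b (l 186327182487) (l 206728345767))) (a (b (l 16512040) (l 180421661143)) (l 1)))) (a (b (c (a (l 16563720) (l 68752462103)) (a (l 16470536) (l 16515672))) (a (b (l 16504744) (c (l 16517944) (l 16538016))) (b (c (l 206191357079) (l 16518592)) (l 1)))) (b (a (b (c (l 217465711543) (l 16521968)) (l 1)) (l 1)) (l 1)))), by decide +kernel⟩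

def k4_pp_022 : ∃ t, chk3 f_pp_022 t 5 6 1 = true :=
  ⟨(l 1), by decide +kernel⟩

def k5_pp_022 : ∃ t, chk3 f_pp_022 t 16 28 1 = true :=
  ⟨(c (a (b (b (b (a (a (b (c (l 16468272) (l 16439712)) (a (l 16448696) (l 16465904))) (l 16469160)) (l 16512224)) (a (a (c (l 16480280) (l 16452712)) (l 16480448)) (a (l 16514528) (l 16537192)))) (a (a (a (c (l 16486984) (l 16460488)) (l 16475624)) (l 16504392)) (a (l 16528728) (l 16552880)))) (b (a (a (b (c (l 16505920) (l 16481120)) (a (c (l 16508936) (l 16484768)) (l 16509160))) (c (l 16534104) (l 16511008))) (c (l 16569552) (l 16548312))) (c (a (a (b (l 16503064) (l 16515064)) (l 16552384)) (l 16587744)) (a (a (a (b (l 16494888) (l 16505224)) (l 16512496)) (l 16531136)) (l 16568320))))) (b (a (b (l 16561872) (l 16525056)) (b (l 16582216) (l 16591104))) (b (l 16526424) (l 16545288)))) (a (b (a (b (a (b (a (b (l 16408888) (l 16394032)) (c (l 16419160) (l 16388368))) (a (l 16417808) (l 16415616))) (b (l 16412504) (l 16425256)))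 (a (c (a (l 16443200) (l 16445880)) (b (l 16404856) (l 16416288))) (l 16452064))) (b (a (l 16460112) (l 16479864)) (a (l 16478984) (l 16505736)))) (a (a (b (b (c (l 16455128) (l 16427936)) (a (c (l 16459448) (l 16432968)) (l 16459768))) (a (c (b (l 16470560) (l 16481896)) (b (l 16445128) (l 16457512))) (c (l 16489288) (l 16465016)))) (b (c (l 16486768) (l 16461392)) (a (l 16485400) (l 16504000)))) (c (b (l 16525984) (l 16547904)) (b (l 16502568) (l 16526488))))) (b (b (a (l 16515864) (l 16562696)) (a (l 16460976) (l 16553488))) (a (b (l 16567800) (l 16569472)) (l 16569192))))), by decide +kernel⟩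

def k6_pp_022 : ∃ t, chk3 f_pp_022 t 16 29 1 = true :=
  ⟨(b (b (a (a (a (a (c (b (c (l 16537072) (l 16515760)) (c (l 16546832) (l 16526488))) (c (b (l 16493440) (l 16505176)) (b (l 16470112) (l 16493392)))) (c (c (l 16553768) (l 16533528)) (c (l 16512312) (l 16490136)))) (c (c (l 16571464) (l 16552104)) (a (l 16514640) (l 16527928)))) (a (c (l 16586024) (l 16547824)) (c (l 16610064) (l 16574312)))) (c (l 16564952) (c (l 16564040) (l 16548448)))) (b (a (a (a (c (a (c (l 16556776) (a (l 16534296) (l 16540488))) (l 16548792)) (a (c (a (l 16513856) (l 16520336)) (a (l 16492504) (l 16499280))) (l 16511344))) (c (l 16577368) (l 16539728))) (c (l 16571488) (a (l 16566160) (l 16592536)))) (c (l 16601112) (l 16574280))) (l 6))) (l 6)), by decide +kernel⟩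

def k7_pp_022 : ∃ t, chk3 f_pp_022 t 16 15 1 = true :=
  ⟨(l 6), by decide +kernel⟩

def k8_pp_022 : ∃ t, chk3 f_pp_022 t 17 7 1 = true :=
  ⟨(a (b (b (b (c (l 16555288) (l 16511960)) (a (b (l 16606624) (l 16601512)) (b (l 16546384) (l 16580560)))) (b (c (b (l 16566136) (l 16542168)) (b (l 16566080) (l 16559480))) (l 6))) (l 6)) (b (a (b (b (l 16522568) (b (l 16508424) (l 16537336))) (b (c (b (l 16568568) (l 16565896)) (l 24192215687)) (c (l 467647666775) (l 436509167095)))) (b (b (l 16510232) (b (l 16535704) (c (l 16468080) (l 16500000)))) (b (c (l 437045880311) (l 435435247783)) (l 1)))) (l 1))), by decide +kernel⟩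

def k9_pp_022 : ∃ t, chk3 f_pp_022 t 9 7 1 = true :=
  ⟨(b (a (b (a (b (c (a (l 16553072) (l 16458912)) (l 16466424)) (a (b (l 790306861527) (l 1)) (l 1))) (l 1)) (l 1)) (l 1)) (l 1)), by decide +kernel⟩

def k10_pp_022 : ∃ t, chk3 f_pp_022 t 5 7 1 = true :=
  ⟨(l 1), by decide +kernel⟩

def k11_pp_022 : ∃ t, chk3 f_pp_022 t 3 1 1 = true :=
  ⟨(l 1), by decide +kernel⟩

theorem s12_pp_022 : ∃ t, chk3 f_pp_022 t 16 14 1 = true := ex3_b k5_pp_022 k6_pp_022

theorem s13_pp_022 : ∃ t, chk3 f_pp_022 t 16 7 1 = true := ex3_b s12_pp_022 k7_pp_022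

theorem s14_pp_022 : ∃ t, chk3 f_pp_022 t 8 7 1 = true := ex3_a s13_pp_022 k8_pp_022

theorem s15_pp_022 : ∃ t, chk3 f_pp_022 t 4 7 1 = true := ex3_a s14_pp_022 k9_pp_022

theorem s16_pp_022 : ∃ t, chk3 f_pp_022 t 2 7 1 = true := ex3_a s15_pp_022 k10_pp_022

theorem s17_pp_022 : ∃ t, chk3 f_pp_022 t 4 6 1 = true := ex3_a k2_pp_022 k3_pp_022

theorem s18_pp_022 : ∃ t, chk3 f_pp_022 t 2 6 1 = true := ex3_a s17_pp_022 k4_pp_022

theorem s19_pp_022 : ∃ t, chk3 f_pp_022 t 2 3 1 = true := ex3_b s18_pp_022 s16_pp_022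

theorem s20_pp_022 : ∃ t, chk3 f_pp_022 t 2 2 1 = true := ex3_a k0_pp_022 k1_pp_022

theorem s21_pp_022 : ∃ t, chk3 f_pp_022 t 2 1 1 = true := ex3_b s20_pp_022 s19_pp_022

theorem s22_pp_022 : ∃ t, chk3 f_pp_022 t 1 1 1 = true := ex3_a s21_pp_022 k11_pp_022

theorem c_pp_022 : CertB 0 536870912 0 536870912 923417968 42949674 3 eng mog cd1q0 cd0q2 pd2 false true true .pp 0 2 2
    ndB1q0 ndB0q2 pcB2 cut_pp_022 Ext.none :=
  certB0 (fam := false) (s1 := true) (s2 := true) (a := 0) (b := 2) (c := 2) (cn := .pp) (n1 := ndB1q0) (n2 := ndB0q2) (pc := pcB2) (cut := cut_pp_022) (xt := Ext.none) (P1 := 0) (W1 := 536870912) (P2 := 0) (W2 := 536870912) (P3 := 923417968) (W3 := 42949674) (N0 := 3) (En := eng) (mo := mog) (C1 := cd1q0) (C2 := cd0q2) (C3 := pd2)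
    rfl s22_pp_022

noncomputable def f_pp_101 : ℕ → ℕ → ℕ → ℕ → Bool := onCell 536870912 536870912 536870912 536870912 923417968 42949674
    (rowB 3 eng mog cd1q1 cd0q1 pd0 0 false true true .npn 1 0 1 (qsf 536870912 536870912 536870912 536870912 0) ndB1q1 ndB0q1 pcB0 Cut.none Ext.none)

def k0_pp_101 : ∃ t, chk3 f_pp_101 t 1 1 1 = true :=
  ⟨(l 3), by decide +kernel⟩

theorem c_pp_101 : CertB 536870912 536870912 536870912 536870912 923417968 42949674 3 eng mog cd1q1 cd0q1 pd0 false true true .npn 1 0 1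
    ndB1q1 ndB0q1 pcB0 Cut.none Ext.none :=
  certB0 (fam := false) (s1 := true) (s2 := true) (a := 1) (b := 0) (c := 1) (cn := .npn) (n1 := ndB1q1) (n2 := ndB0q1) (pc := pcB0) (cut := Cut.none) (xt := Ext.none) (P1 := 536870912) (W1 := 536870912) (P2 := 536870912) (W2 := 536870912) (P3 := 923417968) (W3 := 42949674) (N0 := 3) (En := eng) (mo := mog) (C1 := cd1q1) (C2 := cd0q1) (C3 := pd0)
    rfl k0_pp_101

noncomputable def f_pp_102 : ℕ → ℕ → ℕ → ℕ → Bool := onCell 0 536870912 0 536870912 923417968 42949674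
    (rowB 3 eng mog cd1q1 cd0q2 pd0 2 false true true .npp 1 0 2 (qsf 536870912 536870912 0 536870912 0) ndB1q1 ndB0q2 pcB0 Cut.none Ext.none)

def k0_pp_102 : ∃ t, chk3 f_pp_102 t 2 1 1 = true :=
  ⟨(b (a (l 3) (a (l 3) (l 3))) (l 3)), by decide +kernel⟩

def k1_pp_102 : ∃ t, chk3 f_pp_102 t 6 4 1 = true :=
  ⟨(a (b (a (b (a (b (c (l 170892238359) (a (l 180019107271) (l 180555985271))) (l 3)) (a (c (l 170892151735) (c (l 178408481175) (l 186461591559))) (c (l 167671086471) (c (l 177334736327) (l 183240385927))))) (l 3)) (b (a (c (b (l 16487856) (l 117205204855)) (b (l 16557824) (c (l 176797731831) (a (l 181629753079) (l 183777138071))))) (c (l 16482176) (a (c (l 16521328) (l 16538264)) (l 16464632)))) (b (a (a (l 3) (c (l 170892140807) (c (l 175187206727) (l 177871610855)))) (c (l 163912923767) (c (l 174113430183) (a (l 179482223335) (l 179482267031))))) (l 3)))) (l 3)) (b (c (a (b (a (l 16432168) (l 16403016)) (b (a (l 16461600) (l 16412208)) (a (l 165523347335)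 (l 120426290599)))) (b (l 16359488) (a (l 16386904) (l 16358360)))) (a (b (a (l 16466688) (l 16483088)) (a (a (b (l 139753807079) (l 178408485687)) (b (l 16527832) (b (l 144048749463) (l 177871551511)))) (c (l 153175382455) (a (l 154249282599) (l 16504312))))) (a (c (l 16440216) (l 16503480)) (l 16456912)))) (b (a (a (l 3) (a (l 3) (c (l 168744516471) (c (l 174650204023) (l 182166473895))))) (c (a (b (l 148880250231) (l 169281353367)) (b (l 16368672) (l 157470123287))) (c (a (a (l 171428955767) (l 168207706823)) (l 162302075159)) (a (a (l 176260877591) (l 174113370519)) (a (l 170892113111) (l 167670861655)))))) (l 3)))), by decide +kernel⟩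

def k2_pp_102 : ∃ t, chk3 f_pp_102 t 7 4 1 = true :=
  ⟨(a (b (b (a (l 16304760) (l 16295616)) (a (c (l 16315904) (l 16402128)) (l 16116920))) (a (a (b (c (l 135995222487) (c (l 16382008) (l 161765255991))) (b (c (l 163375640759) (a (l 184850683687) (l 166060302967))) (l 3))) (b (c (l 16315464) (l 16398552)) (c (b (l 126331639287) (l 164986248135)) (c (l 163375811127) (a (l 171428908743) (l 167133917655)))))) (b (c (l 16253192) (l 16361360)) (c (a (b (l 16297688) (l 148343287383)) (l 16295024)) (a (b (l 16380392) (b (l 157470180039) (l 174650053399))) (b (l 16356024) (l 16361000))))))) (b (a (l 16024672) (l 16154560)) (a (a (b (l 16280312) (c (l 16248856) (l 16336096))) (c (l 16219680) (l 16311616))) (c (b (l 16183312) (l 16194672)) (l 16285008))))), by decide +kernel⟩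

def k3_pp_102 : ∃ t, chk3 f_pp_102 t 3 5 1 = true :=
  ⟨(a (l 3) (b (a (a (l 3) (b (b (a (c (l 171428653975) (l 189682426567)) (c (l 154785677879) (b (l 172502512183) (l 183776802391)))) (l 3)) (l 3))) (a (b (c (b (a (l 131163272119) (l 16235160)) (a (l 163375501671) (l 137068812871))) (b (a (l 154785722151) (l 16322568)) (a (l 180555517687) (l 160691260759)))) (a (l 3) (c (l 169281047015) (l 186461077463)))) (c (b (a (l 16216584) (l 16196680)) (b (a (l 149953675511) (l 124183827511)) (a (l 3) (l 155322341943)))) (b (a (l 16285088) (l 16289016)) (b (a (l 162838706807) (l 16277280)) (a (l 3) (l 172502378631))))))) (l 3))), by decide +kernel⟩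

def k4_pp_102 : ∃ t, chk3 f_pp_102 t 3 3 1 = true :=
  ⟨(l 3), by decide +kernel⟩

theorem s5_pp_102 : ∃ t, chk3 f_pp_102 t 3 4 1 = true := ex3_a k1_pp_102 k2_pp_102

theorem s6_pp_102 : ∃ t, chk3 f_pp_102 t 3 2 1 = true := ex3_b s5_pp_102 k3_pp_102

theorem s7_pp_102 : ∃ t, chk3 f_pp_102 t 3 1 1 = true := ex3_b s6_pp_102 k4_pp_102

theorem s8_pp_102 : ∃ t, chk3 f_pp_102 t 1 1 1 = true := ex3_a k0_pp_102 s7_pp_102

theorem c_pp_102 : CertB 536870912 536870912 0 536870912 923417968 42949674 3 eng mog cd1q1 cd0q2 pd0 false true true .npp 1 0 2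
    ndB1q1 ndB0q2 pcB0 Cut.none Ext.none :=
  certB2 (fam := false) (s1 := true) (s2 := true) (a := 1) (b := 0) (c := 2) (cn := .npp) (n1 := ndB1q1) (n2 := ndB0q2) (pc := pcB0) (cut := Cut.none) (xt := Ext.none) (P1 := 536870912) (W1 := 536870912) (P2 := 0) (W2 := 536870912) (P3 := 923417968) (W3 := 42949674) (N0 := 3) (En := eng) (mo := mog) (C1 := cd1q1) (C2 := cd0q2) (C3 := pd0)
    rfl (fun _ => rfl) s8_pp_102

noncomputable def f_pp_112 : ℕ → ℕ → ℕ → ℕ → Bool := onCell 536870912 536870912 0 536870912 923417968 42949674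
    (rowB 3 eng mog cd1q1 cd0q2 pd1 2 false true true .dn 1 1 2 (qsf 536870912 536870912 0 536870912 1) ndB1q1 ndB0q2 pcB1 Cut.none Ext.none)

def k0_pp_112 : ∃ t, chk3 f_pp_112 t 2 4 1 = true :=
  ⟨(a (a (b (c (a (c (a (b (l 15594496) (l 15705056)) (l 15663512)) (a (l 15721216) (l 15695072))) (c (a (l 15595808) (l 15572432)) (l 15765024))) (a (a (l 15838880) (l 15816264)) (a (l 15795544) (l 15776552)))) (b (c (a (c (a (l 15814400) (l 15779472)) (l 15859744)) (c (a (l 15747312) (l 15717728)) (l 15799608))) (a (l 15963616) (l 15910536))) (c (a (c (a (l 15922456) (l 15883360)) (l 16085600)) (c (a (l 15847136) (l 15813592)) (l 15891736))) (a (a (l 16070216) (l 16037664)) (l 15993176))))) (b (c (a (b (c (a (l 15504256) (b (l 15466576) (l 15509928))) (l 15681968)) (c (l 15587128) (l 15663336))) (a (b (b (l 15499784) (l 15534056)) (l 15596064)) (b (b (l 15496104) (l 15520184)) (l 15579528)))) (a (a (l 15758592) (l 15741448)) (b (b (l 15678280) (l 15704008)) (l 15756376))))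 (c (a (c (b (l 15698872) (a (l 15782560) (l 15753896))) (b (l 15748552) (l 15833224))) (c (b (l 15632464) (a (l 15727472) (l 15703168))) (b (l 15705432) (l 15782952)))) (a (b (l 15864976) (l 15940632)) (c (l 15820360) (l 15901896)))))) (a (a (b (b (c (b (l 15494656) (a (l 15509088) (l 15503528))) (l 15678112)) (c (c (l 15519440) (l 15598528)) (l 15728992))) (c (a (b (l 15640008) (l 15714800)) (b (l 15623504) (l 27411869639))) (c (l 15782600) (l 15865912)))) (b (l 1) (l 1))) (l 1))), by decide +kernel⟩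

def k1_pp_112 : ∃ t, chk3 f_pp_112 t 4 10 1 = true :=
  ⟨(b (a (a (c (a (c (l 16049840) (l 16079032)) (c (l 15985800) (l 16038488))) (a (b (l 16138664) (l 16183840)) (l 16125008))) (c (c (a (l 15945664) (l 15908288)) (a (l 16000688) (l 15965440))) (a (l 16091096) (l 16059392)))) (c (a (c (a (l 15873480) (l 15841088)) (l 15937936)) (c (a (l 15810984) (l 15783040)) (l 15859584))) (a (c (l 15981528) (l 16050720)) (l 15942024)))) (a (c (a (a (b (c (l 16107064) (l 16153112)) (a (b (l 16178928) (b (l 102708974839) (l 16199944))) (c (l 16166264) (l 16189352)))) (c (b (l 16061216) (l 16110632)) (b (l 16109816) (l 16156552)))) (a (c (b (l 16018320) (l 16066024)) (l 16175816)) (c (b (l 15978176) (l 16024160)) (l 16053104)))) (a (a (b (a (l 16238624) (l 16218448)) (a (b (l 16271872) (l 149416884999)) (b (l 16251120) (l 16261280)))) (b (l 16189448) (a (l 16241592) (l 16221880)))) (a (b (l 16152888) (l 16193456)) (c (l 16108816) (l 16168416))))) (c (a (c (a (c (l 15950048)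 (l 15975928)) (b (l 15905520) (l 15948016))) (a (l 16016664) (l 15982448))) (c (a (l 15893184) (l 15861672)) (a (l 15950296) (l 15920080)))) (a (a (l 16105024) (l 16052800)) (c (l 15997232) (l 16063944)))))), by decide +kernel⟩

def k2_pp_112 : ∃ t, chk3 f_pp_112 t 4 22 1 = true :=
  ⟨(a (b (a (a (a (l 3) (c (l 144584907063) (l 164449265655))) (a (b (c (c (l 16155736) (l 16199248)) (l 129552627671)) (l 3)) (c (b (l 16157248) (b (l 96803342311) (l 16177168))) (b (l 16252744) (l 142974385319))))) (c (c (a (a (l 45800584743) (l 16101904)) (l 16069568)) (a (a (l 16168832) (l 16148152)) (l 16117464))) (a (a (b (l 16233088) (l 16231312)) (l 16223816)) (c (l 16168872) (l 16223792))))) (a (l 3) (a (b (c (a (l 137605512391) (c (l 95192685639) (l 16177816))) (a (l 150490598023) (l 127405094391))) (l 3)) (c (c (b (l 16103152) (a (l 113446277303) (l 16113520))) (b (l 16149104) (a (l 122036295655) (l 16158768)))) (a (b (l 16233704) (l 138142497159)) (b (l 16214952) (l 16211768)))))))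 (c (a (a (c (b (l 16028648) (l 16113832)) (b (l 16078568) (l 16119240))) (c (b (l 15990144) (l 16031832)) (b (l 16041880) (l 16081032)))) (c (a (b (l 15953920) (l 15994032)) (b (l 15919856) (l 15958360))) (a (l 16026152) (l 15992664)))) (a (a (b (l 16139440) (c (l 16170056) (l 16224336))) (b (l 16126792) (l 16153808))) (c (a (l 16082176) (l 16050224)) (a (l 16142136) (l 16111864)))))), by decide +kernel⟩

def k3_pp_112 : ∃ t, chk3 f_pp_112 t 4 23 1 = true :=
  ⟨(b (a (b (a (l 3) (a (l 3) (a (l 3) (c (l 135457977735) (l 146732452023))))) (l 3)) (a (c (a (a (b (c (l 95192635895) (l 16156688)) (l 3)) (c (b (l 16093336) (l 113446227527)) (b (l 16139248) (l 120425634167)))) (c (a (b (l 16072816) (l 50095438407)) (l 16062968)) (a (l 53853637287) (l 16110056)))) (a (b (a (l 124183818359) (l 16214376)) (c (l 132236931895) (l 138142609911))) (a (a (l 107003911031) (l 16200464)) (l 16166224)))) (c (c (a (c (l 16022192) (l 16045448)) (c (l 15984656) (l 16008600))) (a (l 16082024)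 (l 16046272))) (a (c (l 16133944) (l 16189448)) (l 16106992))))) (a (l 3) (a (a (l 3) (b (c (c (a (l 131162934839) (b (l 16087560) (l 114519920247))) (a (l 135994858999) (l 104319478503))) (a (l 143511176823) (c (l 16184224) (l 16236208)))) (l 3))) (c (c (a (b (a (l 16072904) (l 16053352)) (a (b (l 73717717671) (l 139215946135)) (b (l 16067800) (l 57611574311)))) (a (l 16043704) (l 16024880))) (a (b (l 16146176) (a (l 118814972647) (l 60296025783))) (a (l 16090640) (l 16072504)))) (a (a (b (l 75328544423) (a (l 16166928) (l 16161024))) (c (l 63517360759) (l 16211264))) (c (l 16132328) (l 16186664))))))), by decide +kernel⟩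

def k4_pp_112 : ∃ t, chk3 f_pp_112 t 5 5 1 = true :=
  ⟨(a (a (a (b (c (c (b (l 15757152) (l 15832216)) (b (l 15821472) (l 15891688))) (c (l 15923576) (l 15995176))) (b (c (c (b (l 15887848) (l 15924720)) (l 15960984)) (l 16029848)) (a (a (b (c (l 338797539527) (l 16107864)) (l 1)) (l 1)) (l 1)))) (b (c (c (b (l 15733256) (l 15804768)) (l 428454862599)) (l 732323801143)) (l 1))) (l 1)) (l 1)), by decide +kernel⟩

def k5_pp_112 : ∃ t, chk3 f_pp_112 t 2 3 1 = true :=
  ⟨(b (a (a (l 3) (a (l 3) (b (b (b (b (a (a (l 3) (a (l 3) (c (l 131162882583) (l 135994905463)))) (c (c (a (b (a (l 16071048) (l 16062344)) (l 115593613255)) (l 359198773735)) (a (b (l 16111880) (l 119351795671)) (l 16098152))) (a (c (l 108077619175) (l 16214520)) (l 485363657703)))) (a (l 3) (a (l 3) (l 1)))) (l 3)) (l 3)) (l 3)))) (l 1)) (l 3)), by decide +kernel⟩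

def k6_pp_112 : ∃ t, chk3 f_pp_112 t 3 1 1 = true :=
  ⟨(l 1), by decide +kernel⟩

theorem s7_pp_112 : ∃ t, chk3 f_pp_112 t 4 11 1 = true := ex3_b k2_pp_112 k3_pp_112

theorem s8_pp_112 : ∃ t, chk3 f_pp_112 t 4 5 1 = true := ex3_b k1_pp_112 s7_pp_112

theorem s9_pp_112 : ∃ t, chk3 f_pp_112 t 2 5 1 = true := ex3_a s8_pp_112 k4_pp_112

theorem s10_pp_112 : ∃ t, chk3 f_pp_112 t 2 2 1 = true := ex3_b k0_pp_112 s9_pp_112

theorem s11_pp_112 : ∃ t, chk3 f_pp_112 t 2 1 1 = true := ex3_b s10_pp_112 k5_pp_112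

theorem s12_pp_112 : ∃ t, chk3 f_pp_112 t 1 1 1 = true := ex3_a s11_pp_112 k6_pp_112

theorem c_pp_112 : CertB 536870912 536870912 0 536870912 923417968 42949674 3 eng mog cd1q1 cd0q2 pd1 false true true .dn 1 1 2
    ndB1q1 ndB0q2 pcB1 Cut.none Ext.none :=
  certB2 (fam := false) (s1 := true) (s2 := true) (a := 1) (b := 1) (c := 2) (cn := .dn) (n1 := ndB1q1) (n2 := ndB0q2) (pc := pcB1) (cut := Cut.none) (xt := Ext.none) (P1 := 536870912) (W1 := 536870912) (P2 := 0) (W2 := 536870912) (P3 := 923417968) (W3 := 42949674) (N0 := 3) (En := eng) (mo := mog) (C1 := cd1q1) (C2 := cd0q2) (C3 := pd1)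
    rfl (fun _ => rfl) s12_pp_112

noncomputable def f_pp_202_a : ℕ → ℕ → ℕ → ℕ → Bool := onCell 0 536870912 0 536870912 923417968 42949674
    (rowB 3 eng mog cd1q2a cd0q2 pd0 0 false true true .pp 2 0 2 (qsf 0 536870912 0 536870912 0) ndB1q2a ndB0q2 pcB0 Cut.none Ext.none)

def k0_pp_202_a : ∃ t, chk3 f_pp_202_a t 1 1 1 = true :=
  ⟨(l 3), by decide +kernel⟩

theorem c_pp_202_a : CertB 0 536870912 0 536870912 923417968 42949674 3 eng mog cd1q2a cd0q2 pd0 false true true .pp 2 0 2
    ndB1q2a ndB0q2 pcB0 Cut.none Ext.none :=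
  certB0 (fam := false) (s1 := true) (s2 := true) (a := 2) (b := 0) (c := 2) (cn := .pp) (n1 := ndB1q2a) (n2 := ndB0q2) (pc := pcB0) (cut := Cut.none) (xt := Ext.none) (P1 := 0) (W1 := 536870912) (P2 := 0) (W2 := 536870912) (P3 := 923417968) (W3 := 42949674) (N0 := 3) (En := eng) (mo := mog) (C1 := cd1q2a) (C2 := cd0q2) (C3 := pd0)
    rfl k0_pp_202_a

noncomputable def f_pp_202_b : ℕ → ℕ → ℕ → ℕ → Bool := onCell 1239849684 370763052 0 536870912 923417968 42949674
    (rowB 3 eng mog cd1q2b cd0q2 pd0 0 false true true .pp 2 0 2 (qsf 1239849684 370763052 0 536870912 0) ndB1q2b ndB0q2 pcB0 Cut.none Ext.none)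

def k0_pp_202_b : ∃ t, chk3 f_pp_202_b t 1 1 1 = true :=
  ⟨(l 3), by decide +kernel⟩

theorem c_pp_202_b : CertB 1239849684 370763052 0 536870912 923417968 42949674 3 eng mog cd1q2b cd0q2 pd0 false true true .pp 2 0 2
    ndB1q2b ndB0q2 pcB0 Cut.none Ext.none :=
  certB0 (fam := false) (s1 := true) (s2 := true) (a := 2) (b := 0) (c := 2) (cn := .pp) (n1 := ndB1q2b) (n2 := ndB0q2) (pc := pcB0) (cut := Cut.none) (xt := Ext.none) (P1 := 1239849684) (W1 := 370763052) (P2 := 0) (W2 := 536870912) (P3 := 923417968) (W3 := 42949674) (N0 := 3) (En := eng) (mo := mog) (C1 := cd1q2b) (C2 := cd0q2) (C3 := pd0)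
    rfl k0_pp_202_b

noncomputable def f_pm_001 : ℕ → ℕ → ℕ → ℕ → Bool := onCell 0 536870912 0 536870912 923417968 42949674
    (rowB 3 eng mog cd1q0 cd0q1 pd0 1 false true false .up 0 0 1 (qsf 0 536870912 536870912 536870912 0) ndB1q0 ndB0q1 pcB0 Cut.none Ext.none)

def k0_pm_001 : ∃ t, chk3 f_pm_001 t 1 1 1 = true :=
  ⟨(a (l 4) (b (l 4) (b (l 4) (a (l 4) (a (l 4) (b (a (l 4) (b (l 4) (c (l 16344744) (l 16364000)))) (b (a (l 4) (c (a (l 16312728) (l 16223304)) (b (l 16316616) (l 16276672)))) (a (c (b (l 16344080) (l 16317512)) (b (l 16362016) (l 16325896))) (c (l 16237704) (b (l 16230264) (l 16180040))))))))))), by decide +kernel⟩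

theorem c_pm_001 : CertB 0 536870912 536870912 536870912 923417968 42949674 3 eng mog cd1q0 cd0q1 pd0 false true false .up 0 0 1
    ndB1q0 ndB0q1 pcB0 Cut.none Ext.none :=
  certB1 (fam := false) (s1 := true) (s2 := false) (a := 0) (b := 0) (c := 1) (cn := .up) (n1 := ndB1q0) (n2 := ndB0q1) (pc := pcB0) (cut := Cut.none) (xt := Ext.none) (P1 := 0) (W1 := 536870912) (P2 := 536870912) (W2 := 536870912) (P3 := 923417968) (W3 := 42949674) (N0 := 3) (En := eng) (mo := mog) (C1 := cd1q0) (C2 := cd0q1) (C3 := pd0)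
    rfl (fun _ => rfl) k0_pm_001

noncomputable def cut_pm_011 : Cut := Cut.of [[⟨0, 0, 0, 67108864⟩, ⟨1, 1, 0, 67108864⟩, ⟨2, 1, 0, 67108864⟩]]

noncomputable def f_pm_011 : ℕ → ℕ → ℕ → ℕ → Bool := onCell 0 536870912 536870912 536870912 923417968 42949674
    (rowB 3 eng mog cd1q0 cd0q1 pd1 0 false true false .pnn 0 1 1 (qsf 0 536870912 536870912 536870912 1) ndB1q0 ndB0q1 pcB1 cut_pm_011 Ext.none)

def k0_pm_011 : ∃ t, chk3 f_pm_011 t 1 1 1 = true :=
  ⟨(b (l 4) (b (l 4) (b (a (l 4) (a (l 4) (a (l 4) (a (l 4) (l 1))))) (b (a (l 4) (a (a (l 4) (a (l 4) (a (l 16448400) (l 16444160)))) (a (a (b (l 4) (l 16396568)) (b (l 16371272) (l 16354288))) (a (l 16324296) (l 16289120))))) (b (a (a (l 4) (l 4)) (a (a (a (l 16472792) (l 16495872)) (a (l 16472736) (l 16428480))) (a (l 16367280) (l 16293616)))) (a (b (a (l 4) (a (l 4) (a (l 16531680) (l 16510016)))) (a (a (a (l 6) (l 4)) (a (l 4) (a (l 4) (l 16611928)))) (a (a (a (l 16591832) (l 16572936)) (l 16546856)) (a (l 16517448)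 (l 16491648))))) (a (a (a (l 16477600) (l 16453880)) (l 16542528)) (a (l 16362528) (l 16289280))))))))), by decide +kernel⟩

theorem c_pm_011 : CertB 0 536870912 536870912 536870912 923417968 42949674 3 eng mog cd1q0 cd0q1 pd1 false true false .pnn 0 1 1
    ndB1q0 ndB0q1 pcB1 cut_pm_011 Ext.none :=
  certB0 (fam := false) (s1 := true) (s2 := false) (a := 0) (b := 1) (c := 1) (cn := .pnn) (n1 := ndB1q0) (n2 := ndB0q1) (pc := pcB1) (cut := cut_pm_011) (xt := Ext.none) (P1 := 0) (W1 := 536870912) (P2 := 536870912) (W2 := 536870912) (P3 := 923417968) (W3 := 42949674) (N0 := 3) (En := eng) (mo := mog) (C1 := cd1q0) (C2 := cd0q1) (C3 := pd1)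
    rfl k0_pm_011

noncomputable def cut_pm_012 : Cut := Cut.of [[⟨0, 0, 0, 67108864⟩, ⟨1, 1, 0, 67108864⟩, ⟨2, 1, 0, 67108864⟩]]

noncomputable def f_pm_012 : ℕ → ℕ → ℕ → ℕ → Bool := onCell 536870912 536870912 0 536870912 923417968 42949674
    (rowB 3 eng mog cd1q0 cd0q2 pd1 2 false true false .pnp 0 1 2 (qsf 0 536870912 0 536870912 1) ndB1q0 ndB0q2 pcB1 cut_pm_012 Ext.none)

def k0_pm_012 : ∃ t, chk3 f_pm_012 t 2 1 1 = true :=
  ⟨(b (a (b (l 2) (a (l 2) (c (l 354971513527) (l 154718693831)))) (b (a (b (l 15991760) (l 16134280)) (b (l 16069560) (l 16155856))) (a (b (l 16098440) (l 16116848)) (b (l 16109904) (l 16122032))))) (b (a (a (l 2) (b (l 16137936) (a (l 16072784) (l 16150176)))) (a (b (l 16129280) (b (l 16151080) (l 16052008))) (b (l 16173160) (l 16166376)))) (a (a (b (c (l 16258184) (l 16275848)) (b (l 16305208) (l 16291440))) (b (b (l 16174776) (l 16302624)) (b (l 16195680) (l 16352224)))) (b (c (a (b (l 16243752) (l 16300984)) (b (l 16163792) (l 16296256)))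 (a (b (l 16109824) (l 16330368)) (b (a (l 16206376) (l 16207256)) (l 16332904)))) (b (a (a (l 16371088) (l 16389968)) (a (l 16408480) (l 16384432))) (a (l 16311768) (a (l 16457488) (l 16483728)))))))), by decide +kernel⟩

def k1_pm_012 : ∃ t, chk3 f_pm_012 t 3 2 1 = true :=
  ⟨(a (b (a (a (l 15973472) (l 15995144)) (a (l 16018704) (l 16022944))) (a (b (l 16152648) (l 16242552)) (b (l 16183488) (l 16163152)))) (b (a (b (a (l 16339912) (l 16370888)) (l 16064984)) (a (b (l 16402664) (l 16313088)) (b (l 16434696) (l 16339464)))) (a (b (a (l 16211688) (l 16232664)) (a (l 16187952) (l 16207096))) (b (a (l 16255000) (l 16278264)) (a (l 16227976) (l 16250224)))))), by decide +kernel⟩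

def k2_pm_012 : ∃ t, chk3 f_pm_012 t 3 6 1 = true :=
  ⟨(a (a (b (l 16332560) (l 16181032)) (b (l 16124912) (a (l 16199008) (l 16193584)))) (a (b (b (l 16173776) (l 16183552)) (a (l 16211824) (l 16253648))) (b (a (l 16209048) (b (l 16247016) (l 16237136))) (a (a (l 16249800) (l 16283016)) (b (a (l 16276176) (l 16288856)) (b (l 16289600) (l 16319120))))))), by decide +kernel⟩

def k3_pm_012 : ∃ t, chk3 f_pm_012 t 6 7 1 = true :=
  ⟨(b (b (a (b (l 16223736) (a (l 16246888) (l 16256216))) (l 16141520)) (b (a (a (l 16299008) (c (l 16312896) (l 16284440))) (a (c (l 16323256) (l 16290264)) (b (l 16313912) (l 16332496)))) (a (a (l 16360384) (l 16364384)) (a (l 16282912) (c (l 16382576) (a (l 16357176) (l 16360112))))))) (b (b (a (a (l 16421592) (l 16348544)) (a (c (l 16428192) (l 16454280)) (c (l 16441024) (l 16450232)))) (a (l 16477504) (a (l 16505000) (a (l 16516656) (l 16460352))))) (a (a (l 16510176) (l 16538264)) (a (l 16423376) (b (l 16583608) (l 16592000)))))),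 by decide +kernel⟩

def k4_pm_012 : ∃ t, chk3 f_pm_012 t 7 7 1 = true :=
  ⟨(b (a (a (b (l 16298664) (a (b (l 16340512) (l 16339784)) (l 16373160))) (b (l 16302264) (l 16415968))) (a (b (l 16350560) (a (l 16418264) (l 16434736))) (b (a (l 16351656) (c (l 16369032) (l 16386584))) (a (a (l 16447496) (l 16456240)) (b (l 16425376) (c (l 16474512) (l 16491288))))))) (a (b (a (b (b (a (l 16426760) (l 16367920)) (a (l 16468320) (l 16469288))) (a (c (l 16516808) (l 16542016)) (c (l 16482800) (l 16500872)))) (a (b (b (l 16442512) (c (l 16480216) (l 16464184))) (b (l 16492776) (c (l 16550384) (l 16567272)))) (a (b (b (l 16454032) (l 16479456)) (b (l 16493112) (l 16559784))) (b (l 16474976) (b (l 16475408) (l 16560064)))))) (b (a (l 16518056) (b (a (l 16597168) (c (l 16594992) (l 16612432))) (c (l 16625920) (l 16646776)))) (a (a (l 16622104) (l 16643240)) (a (l 16581096) (a (l 16681576) (l 16629728)))))) (b (a (b (a (l 16488368) (l 16506824)) (b (a (a (l 16523856) (l 16532448))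 (l 16547200)) (a (a (c (l 16563184) (l 16557176)) (b (l 16554152) (l 16551408))) (a (a (l 16568528) (l 16573000)) (l 16580784))))) (a (b (l 16526024) (l 6)) (l 6))) (a (a (b (b (a (c (l 16601520) (l 16613064)) (b (l 16595512) (l 16619536))) (a (l 16646952) (c (l 16643768) (l 16658168)))) (b (l 16663560) (a (l 16698800) (l 6)))) (a (b (b (b (a (l 16595288) (l 16596872)) (l 16619424)) (l 6)) (l 6)) (l 6))) (l 6))))), by decide +kernel⟩

theorem s5_pm_012 : ∃ t, chk3 f_pm_012 t 3 7 1 = true := ex3_a k3_pm_012 k4_pm_012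

theorem s6_pm_012 : ∃ t, chk3 f_pm_012 t 3 3 1 = true := ex3_b k2_pm_012 s5_pm_012

theorem s7_pm_012 : ∃ t, chk3 f_pm_012 t 3 1 1 = true := ex3_b k1_pm_012 s6_pm_012

theorem s8_pm_012 : ∃ t, chk3 f_pm_012 t 1 1 1 = true := ex3_a k0_pm_012 s7_pm_012

theorem c_pm_012 : CertB 0 536870912 0 536870912 923417968 42949674 3 eng mog cd1q0 cd0q2 pd1 false true false .pnp 0 1 2
    ndB1q0 ndB0q2 pcB1 cut_pm_012 Ext.none :=
  certB2 (fam := false) (s1 := true) (s2 := false) (a := 0) (b := 1) (c := 2) (cn := .pnp) (n1 := ndB1q0) (n2 := ndB0q2) (pc := pcB1) (cut := cut_pm_012) (xt := Ext.none) (P1 := 0) (W1 := 536870912) (P2 := 0) (W2 := 536870912) (P3 := 923417968) (W3 := 42949674) (N0 := 3) (En := eng) (mo := mog) (C1 := cd1q0) (C2 := cd0q2) (C3 := pd1)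
    rfl (fun _ => rfl) s8_pm_012

noncomputable def cut_pm_022 : Cut := Cut.of [[⟨0, 0, 0, 67108864⟩, ⟨1, 1, 0, 67108864⟩, ⟨2, 1, 0, 67108864⟩]]

noncomputable def f_pm_022 : ℕ → ℕ → ℕ → ℕ → Bool := onCell 0 536870912 0 536870912 923417968 42949674
    (rowB 3 eng mog cd1q0 cd0q2 pd2 0 false true false .pp 0 2 2 (qsf 0 536870912 0 536870912 2) ndB1q0 ndB0q2 pcB2 cut_pm_022 Ext.none)

def k0_pm_022 : ∃ t, chk3 f_pm_022 t 2 2 1 = true :=
  ⟨(a (b (a (a (b (c (l 16280296) (l 16267312)) (a (b (l 16299464) (l 16308624)) (l 16329520))) (b (l 16330952) (l 16305808))) (b (a (l 16369272) (l 16407488)) (a (l 16420264) (l 16468848)))) (a (a (b (a (b (l 16338232) (a (l 16317912) (l 16335792))) (b (l 16349008) (l 16362688))) (a (b (c (l 16327256) (l 16314160)) (a (c (b (l 16353536) (l 16366088)) (l 16324952)) (l 16353864))) (b (l 16381504) (l 16407560)))) (b (a (l 16389144) (l 16422192)) (b (l 16418896) (l 16366104)))) (b (a (l 16469800) (l 16476496)) (a (l 16372352) (b (l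 16427264) (l 16370680)))))) (a (a (b (b (l 16402120) (l 16512760)) (b (l 16394920) (b (l 16345632) (l 16296368)))) (b (b (l 1) (l 1)) (l 1))) (l 1))), by decide +kernel⟩

def k1_pm_022 : ∃ t, chk3 f_pm_022 t 2 3 1 = true :=
  ⟨(b (a (a (a (b (b (a (a (b (a (l 16367608) (l 16379392)) (c (l 16396624) (l 16361736))) (b (l 16396992) (l 16414168))) (c (l 16447288) (l 16434344))) (b (a (a (c (l 16393600) (a (l 16404960) (l 16407360))) (l 16433208)) (l 16470616)) (a (a (b (c (l 16428968) (l 16415664)) (c (l 16438968) (l 16404984))) (l 16453736)) (l 16471416)))) (a (b (a (b (b (c (l 16428328) (l 16415640)) (c (l 16438984) (l 16426688))) (b (c (l 16449984) (l 16438112)) (c (l 16466568) (l 16449928)))) (b (l 16475600) (l 16498848))) (a (a (b (c (b (l 16486888) (l 16498848)) (c (l 16463760) (l 16458200))) (b (c (l 16511160) (l 16501136)) (c (l 16523848) (l 16514448)))) (b (l 16481024) (l 16530216))) (b (l 16523536) (l 16507736)))) (b (b (l 16473488) (l 16476880)) (c (l 16498472)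 (l 16491736))))) (b (b (a (l 16486752) (l 16530504)) (a (l 16530224) (l 16525312))) (a (b (l 16573584) (l 16542144)) (b (l 16507912) (l 16427296))))) (b (a (b (l 16462064) (a (l 16465424) (l 16404544))) (b (l 16353216) (l 16249520))) (a (b (a (l 16440904) (l 16373144)) (a (l 16416256) (l 16341864))) (b (a (l 16305192) (l 1)) (l 1))))) (l 1)) (a (b (b (a (a (b (a (a (c (a (b (l 16536896) (l 16550336)) (l 16558568)) (a (b (l 16528160) (l 16542280)) (l 16550904))) (c (l 16580576) (l 16574024))) (l 16537240)) (b (a (a (a (c (l 16563968) (l 16556624)) (l 16575840)) (l 16598736)) (l 16609592)) (l 6))) (a (b (l 16554904) (l 16508048)) (b (l 16476720) (l 16468368)))) (a (a (b (l 16397744) (l 16386176)) (l 1)) (l 1))) (a (a (l 6) (a (l 6) (b (l 16482528) (l 163241720759)))) (l 1))) (a (a (l 6) (a (l 6) (l 1))) (l 1))) (l 1))), by decide +kernel⟩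

def k2_pm_022 : ∃ t, chk3 f_pm_022 t 3 1 1 = true :=
  ⟨(l 1), by decide +kernel⟩

theorem s3_pm_022 : ∃ t, chk3 f_pm_022 t 2 1 1 = true := ex3_b k0_pm_022 k1_pm_022

theorem s4_pm_022 : ∃ t, chk3 f_pm_022 t 1 1 1 = true := ex3_a s3_pm_022 k2_pm_022

theorem c_pm_022 : CertB 0 536870912 0 536870912 923417968 42949674 3 eng mog cd1q0 cd0q2 pd2 false true false .pp 0 2 2
    ndB1q0 ndB0q2 pcB2 cut_pm_022 Ext.none :=
  certB0 (fam := false) (s1 := true) (s2 := false) (a := 0) (b := 2) (c := 2) (cn := .pp) (n1 := ndB1q0) (n2 := ndB0q2) (pc := pcB2) (cut := cut_pm_022) (xt := Ext.none) (P1 := 0) (W1 := 536870912) (P2 := 0) (W2 := 536870912) (P3 := 923417968) (W3 := 42949674) (N0 := 3) (En := eng) (mo := mog) (C1 := cd1q0) (C2 := cd0q2) (C3 := pd2)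
    rfl s4_pm_022

noncomputable def f_pm_101 : ℕ → ℕ → ℕ → ℕ → Bool := onCell 0 536870912 536870912 536870912 923417968 42949674
    (rowB 3 eng mog cd1q1 cd0q1 pd0 2 false true false .npn 1 0 1 (qsf 536870912 536870912 536870912 536870912 0) ndB1q1 ndB0q1 pcB0 Cut.none Ext.none)

def k0_pm_101 : ∃ t, chk3 f_pm_101 t 1 2 1 = true :=
  ⟨(l 4), by decide +kernel⟩

def k1_pm_101 : ∃ t, chk3 f_pm_101 t 2 3 1 = true :=
  ⟨(a (b (a (b (a (b (l 4) (l 65730436631)) (l 4)) (a (b (c (l 15622392) (l 15660960)) (l 15800680)) (b (c (l 15612104) (l 15665064)) (l 15593152)))) (b (l 4) (b (b (l 4) (a (l 21707978711) (l 15666840))) (c (a (l 15617624) (l 15634232)) (l 15680160))))) (b (a (a (b (l 15670520) (l 15748768)) (b (l 15628096) (l 15659824))) (b (a (c (l 15614040) (l 15653928)) (c (l 15628856) (l 15670576))) (a (l 15610144) (c (l 15632512) (l 15657080))))) (a (b (a (b (l 15798280) (l 15836768)) (l 15702656)) (a (c (b (l 15881112) (l 15932384)) (l 15911280)) (b (l 15743928)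 (l 15780240)))) (b (a (l 15646296) (c (l 15643408) (l 15646784))) (b (a (l 15686680) (l 15655800)) (a (l 15731520) (l 15674952))))))) (b (b (l 4) (b (l 4) (a (a (c (l 15652168) (l 15715664)) (b (l 4) (l 15629616))) (a (a (l 15643344) (l 4)) (l 4))))) (b (a (b (a (c (l 15634592) (l 15680680)) (c (l 15641448) (l 15694136))) (a (c (l 15628496) (l 15652912)) (c (l 15624544) (l 15651280)))) (b (a (c (l 15651608) (l 15712496)) (c (l 15686528) (l 15734696))) (c (a (l 15623872) (l 15626880)) (a (l 15654976) (l 15664048))))) (a (a (b (c (l 15625152) (l 15623672)) (c (l 15636224) (l 15602296))) (b (c (l 15607856) (l 15604080)) (c (l 15601104) (l 15560176)))) (a (b (c (l 15595120) (l 15591208)) (c (l 15573200) (l 15527344))) (b (c (l 15587568) (l 15585368)) (c (l 15552712) (l 15503848)))))))), by decide +kernel⟩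

def k2_pm_101 : ∃ t, chk3 f_pm_101 t 3 3 1 = true :=
  ⟨(b (l 4) (a (b (b (a (a (c (l 15802449047) (l 15736832)) (c (b (l 4) (l 15681648)) (l 15757976))) (a (c (a (l 15707696) (l 4)) (l 15774880)) (l 4))) (a (c (a (l 15633136) (l 15641728)) (a (l 15677800) (l 15695072))) (a (c (c (l 15638040) (l 15666128)) (l 15881680)) (c (b (l 15677848) (l 15647576)) (l 15711760))))) (a (a (b (c (l 15584976) (l 15586120)) (c (l 15539384) (l 15489280))) (c (b (l 15586664) (l 15532664)) (b (l 15592576) (l 15482968)))) (a (c (b (l 15591776) (l 15531904)) (b (l 15603672) (l 15484080))) (c (b (l 15642216) (l 15536968)) (b (l 15640272) (l 15639240)))))) (b (b (l 4) (a (a (c (b (l 15752808) (l 15659424)) (l 40497642631)) (b (l 4) (c (l 113311545607) (l 15811400)))) (a (b (l 1) (c (c (l 15664744) (l 15701144)) (l 161630172359))) (l 1)))) (a (c (b (a (c (l 15606336) (l 15617816)) (c (l 15617672) (l 15633464))) (a (l 15631424) (c (l 15571672) (l 15554080)))) (c (b (a (l 15631432) (l 15651624))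 (a (l 15517472) (l 15537040))) (b (l 15636976) (a (l 15497912) (l 15520536))))) (a (b (c (b (l 15674576) (l 15624864)) (b (l 15716352) (l 15654184))) (c (b (l 15596016) (l 15567752)) (b (l 15588736) (l 15520920)))) (b (b (l 1) (c (l 15640000) (l 15678968))) (c (b (l 15615464) (l 15591408)) (b (l 15616544) (l 15551496))))))))), by decide +kernel⟩

theorem s3_pm_101 : ∃ t, chk3 f_pm_101 t 1 3 1 = true := ex3_a k1_pm_101 k2_pm_101

theorem s4_pm_101 : ∃ t, chk3 f_pm_101 t 1 1 1 = true := ex3_b k0_pm_101 s3_pm_101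

theorem c_pm_101 : CertB 536870912 536870912 536870912 536870912 923417968 42949674 3 eng mog cd1q1 cd0q1 pd0 false true false .npn 1 0 1
    ndB1q1 ndB0q1 pcB0 Cut.none Ext.none :=
  certB2 (fam := false) (s1 := true) (s2 := false) (a := 1) (b := 0) (c := 1) (cn := .npn) (n1 := ndB1q1) (n2 := ndB0q1) (pc := pcB0) (cut := Cut.none) (xt := Ext.none) (P1 := 536870912) (W1 := 536870912) (P2 := 536870912) (W2 := 536870912) (P3 := 923417968) (W3 := 42949674) (N0 := 3) (En := eng) (mo := mog) (C1 := cd1q1) (C2 := cd0q1) (C3 := pd0)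
    rfl (fun _ => rfl) s4_pm_101

end Pool.Agent.Strip051.G.I8600_9000.Tab.C.BB10

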