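import Pool.Agent.Strip051.G.I8600_9000.Tab

/-! # Certificates B16 (generated) -/

set_option linter.all false
set_option maxRecDepth 100000

namespace Pool.Agent.Strip051.G.I8600_9000.Tab.C.BB10

open Pool.Agent.Strip051.PB Pool.Agent.Strip051.PB.T
open Pool.Agent.Strip051.G.I8600_9000.Tab

noncomputable def f_pm_102 : ℕ → ℕ → ℕ → ℕ → Bool := onCell 0 536870912 0 536870912 923417968 42949674
    (rowB 3 eng mog cd1q1 cd0q2 pd0 2 false true false .npp 1 0 2 (qsf 536870912 536870912 0 536870912 0) ndB1q1 ndB0q2 pcB0 Cut.none Ext.none)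

def k0_pm_102 : ∃ t, chk3 f_pm_102 t 2 4 1 = true :=
  ⟨(a (l 2) (a (a (b (l 3) (a (l 2) (b (b (l 3) (a (l 2) (a (b (l 3) (c (l 171965809591) (l 172502658439))) (b (l 197198719863) (c (l 189145671623) (l 190756254295)))))) (b (a (l 3305614106695) (a (c (l 16443448) (l 16405856)) (l 16412328))) (a (l 16386192) (l 16424536)))))) (a (b (l 3) (b (b (a (l 3) (b (l 3) (a (l 185924418887) (l 187535029911)))) (a (b (a (l 177871344119) (l 189682517863)) (a (l 16426848) (l 16453032))) (c (l 16463032) (l 16425824)))) (b (a (l 16445648) (l 16462360)) (l 16451136)))) (b (a (l 3) (b (l 3) (c (l 214915617607) (l 188071987687)))) (b (c (b (a (l 183776992935) (l 16517536)) (l 16509312)) (b (a (l 189682512695) (l 184313823031)) (l 16468760))) (l 16424600))))) (b (a (b (a (l 3) (a (l 3) (c (l 265381594039) (l 182703412823)))) (a (c (b (l 207936340151) (l 181092670679)) (a (b (l 3) (l 186461338039)) (b (l 185924583847) (l 176797683799)))) (c (l 178945234343) (b (a (l 182166514439)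 (l 173576514679)) (l 16491344))))) (a (c (b (l 187535286647) (l 16556016)) (a (b (l 179482128215) (l 16512064)) (b (a (l 180555930103) (l 182166533671)) (l 16546192)))) (b (c (l 172502896551) (c (l 181092816135) (b (l 183240285831) (l 168744755703)))) (l 16498888)))) (a (b (a (b (a (l 16473312) (l 16530424)) (l 16480064)) (l 16449048)) (a (l 16502176) (l 16558952))) (b (l 16454304) (a (l 16597536) (l 16602384))))))), by decide +kernel⟩

def k1_pm_102 : ∃ t, chk3 f_pm_102 t 2 5 1 = true :=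
  ⟨(a (a (l 2) (a (l 2) (b (l 2) (a (l 2) (l 1394353262327))))) (a (a (b (b (a (l 2144899169959) (b (l 16411904) (l 16409472))) (a (b (l 16374208) (l 16414456)) (b (l 16430648) (l 16479208)))) (a (l 298063005271) (l 16463456))) (b (b (a (b (l 16449680) (l 16308120)) (b (l 16488928) (l 16507208))) (a (l 16516720) (l 16581368))) (a (l 16590176) (l 16568088)))) (b (a (b (b (l 16410448) (l 16596400)) (l 16600800)) (b (l 16469096) (l 16486616))) (a (l 16306616) (c (l 16328416) (l 16379336)))))), by decide +kernel⟩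

def k2_pm_102 : ∃ t, chk3 f_pm_102 t 2 3 1 = true :=
  ⟨(a (b (a (l 2) (b (a (l 2) (a (a (l 16537520) (l 16556760)) (b (l 16644128) (l 16541080)))) (a (a (l 16329128) (a (b (l 16517512) (l 16401536)) (b (l 16496456) (l 16380072)))) (a (a (l 16334328) (l 16377568)) (b (l 16432080) (l 16311696)))))) (a (b (a (l 2) (b (a (l 2) (l 16404072)) (l 16042824))) (b (a (a (l 2) (l 16228472)) (a (l 16168112) (l 16108040))) (a (b (l 15960080) (l 16034912)) (b (l 15992536) (l 15906640))))) (a (a (b (b (l 16330504) (l 16195504)) (b (l 16047400) (l 15880328))) (b (b (l 16228960) (l 16138016)) (b (a (l 16002824) (l 15975232)) (l 15829312)))) (b (a (a (l 16169608) (l 16146784)) (c (l 16130744) (l 16098352))) (b (a (l 16060944) (l 16073200)) (a (l 15782608) (l 15741392))))))) (a (b (a (b (a (b (l 16600488) (l 16505632)) (b (l 16560984) (l 16431672))) (a (b (l 16397904) (l 16274248)) (b (l 16366768) (l 16239072)))) (b (a (b (l 16514272) (l 16408544)) (l 16252024)) (a (b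 (l 16325136) (l 16195800)) (l 16047568)))) (b (a (a (c (l 16089536) (l 16052216)) (c (l 16050288) (l 16008216))) (a (c (l 16007888) (l 15960616)) (c (l 15956032) (l 15902400)))) (a (b (b (l 15963440) (a (l 15799928) (l 15756736))) (l 15916720)) (b (c (b (l 15808792) (l 15740896)) (l 15667024)) (l 15832208))))) (b (b (a (b (l 16344976) (l 16251448)) (b (l 16214704) (l 16117728))) (a (b (l 15923176) (l 16037224)) (b (c (l 16022552) (l 16026752)) (l 15897920)))) (b (a (c (l 15882992) (l 15820392)) (c (b (l 15842256) (l 15745264)) (l 15720624))) (b (b (a (l 15685688) (l 15614608)) (a (l 15628200) (l 15570448))) (a (c (l 15611392) (l 15528616)) (c (l 15573888) (l 15483432)))))))), by decide +kernel⟩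

def k3_pm_102 : ∃ t, chk3 f_pm_102 t 3 2 1 = true :=
  ⟨(a (b (a (b (b (a (c (a (l 113983877687) (l 16469952)) (a (b (a (l 172502893159) (l 16579896)) (l 16608448)) (l 16582376))) (c (l 16382880) (l 16543424))) (a (c (l 16522112) (l 16597440)) (l 16393784))) (a (b (l 16536952) (c (l 16498688) (l 16585424))) (b (l 16386112) (c (l 16390784) (l 16500984))))) (a (b (c (l 16400824) (l 16446032)) (b (c (l 16376448) (l 16471600)) (l 16296832))) (b (l 16197192) (b (b (l 16304984) (l 16337832)) (l 16270200))))) (a (b (a (b (l 16467112) (l 16376672)) (c (l 16283752) (l 16355960))) (a (l 16131432) (l 16126008))) (b (a (l 16031416) (l 16128488)) (a (l 16023856) (l 15931304))))) (b (a (b (a (c (l 16279200) (l 16378296)) (b (l 16286184) (l 16078928))) (a (b (l 16131832) (l 16186872)) (l 15946688))) (b (b (a (l 16242336) (l 16201952)) (a (l 16004728) (l 16159184))) (a (l 16088480) (l 16029536)))) (a (b (a (l 16044952) (l 15970704)) (a (l 15849448) (l 15779112))) (b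 (c (l 15826744) (l 15913432)) (c (a (l 15701080) (l 15655832)) (l 15719336)))))), by decide +kernel⟩

def k4_pm_102 : ∃ t, chk3 f_pm_102 t 3 6 1 = true :=
  ⟨(a (b (a (a (l 16042080) (l 15926736)) (a (l 15822840) (l 15731352))) (a (b (a (c (l 15900536) (l 15902656)) (c (l 15786824) (l 15787520))) (c (a (l 15827040) (l 15730744)) (l 15743096))) (c (b (a (l 15683280) (l 15591648)) (a (l 15644472) (l 15568384))) (b (a (l 15683048) (l 15590856)) (a (l 15605032) (l 15527792)))))) (c (b (a (a (l 15643864) (l 15579336)) (a (l 15528560) (l 15491808))) (a (b (a (l 15513536) (l 15450296)) (a (l 15502560) (l 15447024))) (b (a (l 15402992) (l 15372216)) (a (l 15401696) (b (l 15349184) (l 15384784)))))) (b (a (l 15630528) (a (l 15547856) (l 15510984))) (a (b (a (l 15512528) (l 15449488)) (a (l 15462264) (l 15408536))) (b (a (l 15402936) (l 15373728)) (a (l 15366600) (l 15422040))))))), by decide +kernel⟩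

def k5_pm_102 : ∃ t, chk3 f_pm_102 t 3 7 1 = true :=
  ⟨(a (b (a (c (a (b (l 15754680) (l 15677544)) (b (l 15677720) (l 15621120))) (a (l 15611952) (b (l 15603688) (l 15510480)))) (c (b (a (l 15611480) (l 15556000)) (a (l 15575952) (l 15542000))) (b (a (l 15531688) (l 15471832)) (a (l 15456328) (l 15414816))))) (a (b (a (b (l 15597176) (l 15524264)) (b (l 15614200) (l 15489880))) (c (a (l 15545784) (l 15526552)) (a (l 15449496) (l 15426232)))) (b (a (c (l 15541488) (l 15400784)) (c (l 15526736) (l 15380112))) (c (a (l 15515672) (l 15512888)) (a (l 15413000) (l 15409496)))))) (b (a (c (b (a (l 15511256) (l 15477184)) (a (l 15519176) (l 15507336))) (b (a (l 15424192) (l 15388768)) (a (l 15385952) (l 15369696)))) (c (b (a (l 15453648) (l 15440464)) (a (l 15506288) (l 15515776))) (b (a (l 15365528) (l 15354360)) (a (l 15365936) (l 15374520))))) (a (a (b (c (l 15521832) (l 15371168)) (c (l 15517888) (l 15415336))) (b (c (l 15526512) (l 15394608)) (c (l 15530136)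 (l 15429864)))) (b (c (a (l 15540472) (l 15605320)) (a (l 15471016) (l 15599928))) (c (a (l 15549024) (l 15573856)) (a (l 15452328) (l 15481880))))))), by decide +kernel⟩

theorem s6_pm_102 : ∃ t, chk3 f_pm_102 t 3 3 1 = true := ex3_b k4_pm_102 k5_pm_102

theorem s7_pm_102 : ∃ t, chk3 f_pm_102 t 3 1 1 = true := ex3_b k3_pm_102 s6_pm_102

theorem s8_pm_102 : ∃ t, chk3 f_pm_102 t 2 2 1 = true := ex3_b k0_pm_102 k1_pm_102

theorem s9_pm_102 : ∃ t, chk3 f_pm_102 t 2 1 1 = true := ex3_b s8_pm_102 k2_pm_102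

theorem s10_pm_102 : ∃ t, chk3 f_pm_102 t 1 1 1 = true := ex3_a s9_pm_102 s7_pm_102

theorem c_pm_102 : CertB 536870912 536870912 0 536870912 923417968 42949674 3 eng mog cd1q1 cd0q2 pd0 false true false .npp 1 0 2
    ndB1q1 ndB0q2 pcB0 Cut.none Ext.none :=
  certB2 (fam := false) (s1 := true) (s2 := false) (a := 1) (b := 0) (c := 2) (cn := .npp) (n1 := ndB1q1) (n2 := ndB0q2) (pc := pcB0) (cut := Cut.none) (xt := Ext.none) (P1 := 536870912) (W1 := 536870912) (P2 := 0) (W2 := 536870912) (P3 := 923417968) (W3 := 42949674) (N0 := 3) (En := eng) (mo := mog) (C1 := cd1q1) (C2 := cd0q2) (C3 := pd0)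
    rfl (fun _ => rfl) s10_pm_102

noncomputable def f_pm_112 : ℕ → ℕ → ℕ → ℕ → Bool := onCell 536870912 536870912 0 536870912 923417968 42949674
    (rowB 3 eng mog cd1q1 cd0q2 pd1 2 false true false .dn 1 1 2 (qsf 536870912 536870912 0 536870912 1) ndB1q1 ndB0q2 pcB1 Cut.none Ext.none)

def k0_pm_112 : ∃ t, chk3 f_pm_112 t 1 1 1 = true :=
  ⟨(a (a (a (b (c (b (a (b (b (a (b (l 15549888) (b (l 15510056) (l 15500512))) (b (l 15528000) (c (l 15460072) (l 15541960)))) (l 15505264)) (l 15521664)) (b (b (b (c (a (l 15470216) (l 15460040)) (l 15549648)) (l 15496216)) (l 15501360)) (l 15513024))) (b (c (l 15515576) (l 15562688)) (l 15563832))) (b (b (b (a (b (l 15712320) (l 15681720)) (b (l 15686376) (l 15671128))) (l 15667312)) (l 15655616)) (b (l 15641840) (l 15632288)))) (b (b (c (l 15595744) (l 15629624)) (b (c (l 15624160) (l 15632384)) (c (a (l 15655512) (l 15629936)) (b (l 15642640) (l 15669752))))) (b (b (c (l 15664080) (l 15721144)) (c (l 15686168)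 (l 15791400))) (b (a (l 15717256) (l 15558416)) (a (l 15730632) (l 1)))))) (b (b (b (a (c (b (c (a (l 15456600) (l 15454208)) (l 15537448)) (l 15496968)) (l 15664184)) (c (c (l 15455928) (l 15530096)) (l 15652872))) (c (c (l 15469120) (l 15529232)) (l 15629408))) (b (c (c (l 15485440) (l 15530136)) (l 15605512)) (c (l 15521560) (l 15587368)))) (b (b (c (l 15543112) (l 15576656)) (a (b (l 15584472) (c (l 15600808) (l 15604912))) (b (l 15552416) (l 1)))) (b (b (c (l 131565057703) (l 149818794615)) (l 1)) (l 1))))) (b (a (a (b (c (b (c (l 15453552) (l 15524432)) (l 15480888)) (b (l 15641952) (l 15603520))) (b (c (l 15479312) (l 15571200)) (c (l 15484432) (l 15545912)))) (b (b (l 1) (l 1)) (l 1))) (l 1)) (b (l 1) (l 1)))) (l 1)), by decide +kernel⟩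

theorem c_pm_112 : CertB 536870912 536870912 0 536870912 923417968 42949674 3 eng mog cd1q1 cd0q2 pd1 false true false .dn 1 1 2
    ndB1q1 ndB0q2 pcB1 Cut.none Ext.none :=
  certB2 (fam := false) (s1 := true) (s2 := false) (a := 1) (b := 1) (c := 2) (cn := .dn) (n1 := ndB1q1) (n2 := ndB0q2) (pc := pcB1) (cut := Cut.none) (xt := Ext.none) (P1 := 536870912) (W1 := 536870912) (P2 := 0) (W2 := 536870912) (P3 := 923417968) (W3 := 42949674) (N0 := 3) (En := eng) (mo := mog) (C1 := cd1q1) (C2 := cd0q2) (C3 := pd1)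
    rfl (fun _ => rfl) k0_pm_112

noncomputable def cut_pm_202_a : Cut := Cut.of [[⟨0, 1, 0, 67108864⟩, ⟨1, 0, 0, 67108864⟩, ⟨2, 1, 0, 67108864⟩]]

noncomputable def f_pm_202_a : ℕ → ℕ → ℕ → ℕ → Bool := onCell 0 536870912 0 536870912 923417968 42949674
    (rowB 3 eng mog cd1q2a cd0q2 pd0 0 false true false .pp 2 0 2 (qsf 0 536870912 0 536870912 0) ndB1q2a ndB0q2 pcB0 cut_pm_202_a Ext.none)

def k0_pm_202_a : ∃ t, chk3 f_pm_202_a t 1 1 1 = true :=
  ⟨(a (l 3) (b (l 3) (a (l 3) (b (l 3) (b (l 3) (a (l 3) (l 6))))))), by decide +kernel⟩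

theorem c_pm_202_a : CertB 0 536870912 0 536870912 923417968 42949674 3 eng mog cd1q2a cd0q2 pd0 false true false .pp 2 0 2
    ndB1q2a ndB0q2 pcB0 cut_pm_202_a Ext.none :=
  certB0 (fam := false) (s1 := true) (s2 := false) (a := 2) (b := 0) (c := 2) (cn := .pp) (n1 := ndB1q2a) (n2 := ndB0q2) (pc := pcB0) (cut := cut_pm_202_a) (xt := Ext.none) (P1 := 0) (W1 := 536870912) (P2 := 0) (W2 := 536870912) (P3 := 923417968) (W3 := 42949674) (N0 := 3) (En := eng) (mo := mog) (C1 := cd1q2a) (C2 := cd0q2) (C3 := pd0)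
    rfl k0_pm_202_a

noncomputable def cut_pm_202_b : Cut := Cut.of [[⟨0, 1, 0, 67108864⟩, ⟨1, 0, 0, 67108864⟩, ⟨2, 1, 0, 67108864⟩]]

noncomputable def f_pm_202_b : ℕ → ℕ → ℕ → ℕ → Bool := onCell 1239849684 370763052 0 536870912 923417968 42949674
    (rowB 3 eng mog cd1q2b cd0q2 pd0 0 false true false .pp 2 0 2 (qsf 1239849684 370763052 0 536870912 0) ndB1q2b ndB0q2 pcB0 cut_pm_202_b Ext.none)

def k0_pm_202_b : ∃ t, chk3 f_pm_202_b t 1 1 1 = true :=
  ⟨(l 3), by decide +kernel⟩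

theorem c_pm_202_b : CertB 1239849684 370763052 0 536870912 923417968 42949674 3 eng mog cd1q2b cd0q2 pd0 false true false .pp 2 0 2
    ndB1q2b ndB0q2 pcB0 cut_pm_202_b Ext.none :=
  certB0 (fam := false) (s1 := true) (s2 := false) (a := 2) (b := 0) (c := 2) (cn := .pp) (n1 := ndB1q2b) (n2 := ndB0q2) (pc := pcB0) (cut := cut_pm_202_b) (xt := Ext.none) (P1 := 1239849684) (W1 := 370763052) (P2 := 0) (W2 := 536870912) (P3 := 923417968) (W3 := 42949674) (N0 := 3) (En := eng) (mo := mog) (C1 := cd1q2b) (C2 := cd0q2) (C3 := pd0)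
    rfl k0_pm_202_b

noncomputable def f_mm_001 : ℕ → ℕ → ℕ → ℕ → Bool := onCell 0 536870912 536870912 536870912 923417968 42949674
    (rowB 3 eng mog cd1q0 cd0q1 pd0 0 false false false .up 0 0 1 (qsf 0 536870912 536870912 536870912 0) ndB1q0 ndB0q1 pcB0 Cut.none Ext.none)

def k0_mm_001 : ∃ t, chk3 f_mm_001 t 1 1 1 = true :=
  ⟨(l 5), by decide +kernel⟩

theorem c_mm_001 : CertB 0 536870912 536870912 536870912 923417968 42949674 3 eng mog cd1q0 cd0q1 pd0 false false false .up 0 0 1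
    ndB1q0 ndB0q1 pcB0 Cut.none Ext.none :=
  certB0 (fam := false) (s1 := false) (s2 := false) (a := 0) (b := 0) (c := 1) (cn := .up) (n1 := ndB1q0) (n2 := ndB0q1) (pc := pcB0) (cut := Cut.none) (xt := Ext.none) (P1 := 0) (W1 := 536870912) (P2 := 536870912) (W2 := 536870912) (P3 := 923417968) (W3 := 42949674) (N0 := 3) (En := eng) (mo := mog) (C1 := cd1q0) (C2 := cd0q1) (C3 := pd0)
    rfl k0_mm_001

noncomputable def f_mm_011 : ℕ → ℕ → ℕ → ℕ → Bool := onCell 0 536870912 536870912 536870912 923417968 42949674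
    (rowB 3 eng mog cd1q0 cd0q1 pd1 0 false false false .pnn 0 1 1 (qsf 0 536870912 536870912 536870912 1) ndB1q0 ndB0q1 pcB1 Cut.none Ext.none)

def k0_mm_011 : ∃ t, chk3 f_mm_011 t 1 1 1 = true :=
  ⟨(l 5), by decide +kernel⟩

theorem c_mm_011 : CertB 0 536870912 536870912 536870912 923417968 42949674 3 eng mog cd1q0 cd0q1 pd1 false false false .pnn 0 1 1
    ndB1q0 ndB0q1 pcB1 Cut.none Ext.none :=
  certB0 (fam := false) (s1 := false) (s2 := false) (a := 0) (b := 1) (c := 1) (cn := .pnn) (n1 := ndB1q0) (n2 := ndB0q1) (pc := pcB1) (cut := Cut.none) (xt := Ext.none) (P1 := 0) (W1 := 536870912) (P2 := 536870912) (W2 := 536870912) (P3 := 923417968) (W3 := 42949674) (N0 := 3) (En := eng) (mo := mog) (C1 := cd1q0) (C2 := cd0q1) (C3 := pd1)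
    rfl k0_mm_011

noncomputable def f_mm_012 : ℕ → ℕ → ℕ → ℕ → Bool := onCell 0 536870912 0 536870912 923417968 42949674
    (rowB 3 eng mog cd1q0 cd0q2 pd1 0 false false false .pnp 0 1 2 (qsf 0 536870912 0 536870912 1) ndB1q0 ndB0q2 pcB1 Cut.none Ext.none)

def k0_mm_012 : ∃ t, chk3 f_mm_012 t 1 1 1 = true :=
  ⟨(l 5), by decide +kernel⟩

theorem c_mm_012 : CertB 0 536870912 0 536870912 923417968 42949674 3 eng mog cd1q0 cd0q2 pd1 false false false .pnp 0 1 2
    ndB1q0 ndB0q2 pcB1 Cut.none Ext.none :=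
  certB0 (fam := false) (s1 := false) (s2 := false) (a := 0) (b := 1) (c := 2) (cn := .pnp) (n1 := ndB1q0) (n2 := ndB0q2) (pc := pcB1) (cut := Cut.none) (xt := Ext.none) (P1 := 0) (W1 := 536870912) (P2 := 0) (W2 := 536870912) (P3 := 923417968) (W3 := 42949674) (N0 := 3) (En := eng) (mo := mog) (C1 := cd1q0) (C2 := cd0q2) (C3 := pd1)
    rfl k0_mm_012

noncomputable def f_mm_022 : ℕ → ℕ → ℕ → ℕ → Bool := onCell 0 536870912 0 536870912 923417968 42949674
    (rowB 3 eng mog cd1q0 cd0q2 pd2 0 false false false .pp 0 2 2 (qsf 0 536870912 0 536870912 2) ndB1q0 ndB0q2 pcB2 Cut.none Ext.none)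

def k0_mm_022 : ∃ t, chk3 f_mm_022 t 1 1 1 = true :=
  ⟨(l 5), by decide +kernel⟩

theorem c_mm_022 : CertB 0 536870912 0 536870912 923417968 42949674 3 eng mog cd1q0 cd0q2 pd2 false false false .pp 0 2 2
    ndB1q0 ndB0q2 pcB2 Cut.none Ext.none :=
  certB0 (fam := false) (s1 := false) (s2 := false) (a := 0) (b := 2) (c := 2) (cn := .pp) (n1 := ndB1q0) (n2 := ndB0q2) (pc := pcB2) (cut := Cut.none) (xt := Ext.none) (P1 := 0) (W1 := 536870912) (P2 := 0) (W2 := 536870912) (P3 := 923417968) (W3 := 42949674) (N0 := 3) (En := eng) (mo := mog) (C1 := cd1q0) (C2 := cd0q2) (C3 := pd2)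
    rfl k0_mm_022

noncomputable def f_mm_101 : ℕ → ℕ → ℕ → ℕ → Bool := onCell 536870912 536870912 536870912 536870912 923417968 42949674
    (rowB 3 eng mog cd1q1 cd0q1 pd0 0 false false false .npn 1 0 1 (qsf 536870912 536870912 536870912 536870912 0) ndB1q1 ndB0q1 pcB0 Cut.none Ext.none)

def k0_mm_101 : ∃ t, chk3 f_mm_101 t 1 1 1 = true :=
  ⟨(l 3), by decide +kernel⟩

theorem c_mm_101 : CertB 536870912 536870912 536870912 536870912 923417968 42949674 3 eng mog cd1q1 cd0q1 pd0 false false false .npn 1 0 1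
    ndB1q1 ndB0q1 pcB0 Cut.none Ext.none :=
  certB0 (fam := false) (s1 := false) (s2 := false) (a := 1) (b := 0) (c := 1) (cn := .npn) (n1 := ndB1q1) (n2 := ndB0q1) (pc := pcB0) (cut := Cut.none) (xt := Ext.none) (P1 := 536870912) (W1 := 536870912) (P2 := 536870912) (W2 := 536870912) (P3 := 923417968) (W3 := 42949674) (N0 := 3) (En := eng) (mo := mog) (C1 := cd1q1) (C2 := cd0q1) (C3 := pd0)
    rfl k0_mm_101

noncomputable def f_mm_102 : ℕ → ℕ → ℕ → ℕ → Bool := onCell 536870912 536870912 0 536870912 923417968 42949674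
    (rowB 3 eng mog cd1q1 cd0q2 pd0 0 false false false .npp 1 0 2 (qsf 536870912 536870912 0 536870912 0) ndB1q1 ndB0q2 pcB0 Cut.none Ext.none)

def k0_mm_102 : ∃ t, chk3 f_mm_102 t 1 1 1 = true :=
  ⟨(l 5), by decide +kernel⟩

theorem c_mm_102 : CertB 536870912 536870912 0 536870912 923417968 42949674 3 eng mog cd1q1 cd0q2 pd0 false false false .npp 1 0 2
    ndB1q1 ndB0q2 pcB0 Cut.none Ext.none :=
  certB0 (fam := false) (s1 := false) (s2 := false) (a := 1) (b := 0) (c := 2) (cn := .npp) (n1 := ndB1q1) (n2 := ndB0q2) (pc := pcB0) (cut := Cut.none) (xt := Ext.none) (P1 := 536870912) (W1 := 536870912) (P2 := 0) (W2 := 536870912) (P3 := 923417968) (W3 := 42949674) (N0 := 3) (En := eng) (mo := mog) (C1 := cd1q1) (C2 := cd0q2) (C3 := pd0)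
    rfl k0_mm_102

noncomputable def f_mm_112 : ℕ → ℕ → ℕ → ℕ → Bool := onCell 536870912 536870912 0 536870912 923417968 42949674
    (rowB 3 eng mog cd1q1 cd0q2 pd1 0 false false false .dn 1 1 2 (qsf 536870912 536870912 0 536870912 1) ndB1q1 ndB0q2 pcB1 Cut.none Ext.none)

def k0_mm_112 : ∃ t, chk3 f_mm_112 t 1 1 1 = true :=
  ⟨(l 5), by decide +kernel⟩

theorem c_mm_112 : CertB 536870912 536870912 0 536870912 923417968 42949674 3 eng mog cd1q1 cd0q2 pd1 false false false .dn 1 1 2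
    ndB1q1 ndB0q2 pcB1 Cut.none Ext.none :=
  certB0 (fam := false) (s1 := false) (s2 := false) (a := 1) (b := 1) (c := 2) (cn := .dn) (n1 := ndB1q1) (n2 := ndB0q2) (pc := pcB1) (cut := Cut.none) (xt := Ext.none) (P1 := 536870912) (W1 := 536870912) (P2 := 0) (W2 := 536870912) (P3 := 923417968) (W3 := 42949674) (N0 := 3) (En := eng) (mo := mog) (C1 := cd1q1) (C2 := cd0q2) (C3 := pd1)
    rfl k0_mm_112

noncomputable def f_mm_202_a : ℕ → ℕ → ℕ → ℕ → Bool := onCell 0 536870912 0 536870912 923417968 42949674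
    (rowB 3 eng mog cd1q2a cd0q2 pd0 0 false false false .pp 2 0 2 (qsf 0 536870912 0 536870912 0) ndB1q2a ndB0q2 pcB0 Cut.none Ext.none)

def k0_mm_202_a : ∃ t, chk3 f_mm_202_a t 1 1 1 = true :=
  ⟨(l 3), by decide +kernel⟩

theorem c_mm_202_a : CertB 0 536870912 0 536870912 923417968 42949674 3 eng mog cd1q2a cd0q2 pd0 false false false .pp 2 0 2
    ndB1q2a ndB0q2 pcB0 Cut.none Ext.none :=
  certB0 (fam := false) (s1 := false) (s2 := false) (a := 2) (b := 0) (c := 2) (cn := .pp) (n1 := ndB1q2a) (n2 := ndB0q2) (pc := pcB0) (cut := Cut.none) (xt := Ext.none) (P1 := 0) (W1 := 536870912) (P2 := 0) (W2 := 536870912) (P3 := 923417968) (W3 := 42949674) (N0 := 3) (En := eng) (mo := mog) (C1 := cd1q2a) (C2 := cd0q2) (C3 := pd0)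
    rfl k0_mm_202_a

noncomputable def f_mm_202_b : ℕ → ℕ → ℕ → ℕ → Bool := onCell 1239849684 370763052 0 536870912 923417968 42949674
    (rowB 3 eng mog cd1q2b cd0q2 pd0 0 false false false .pp 2 0 2 (qsf 1239849684 370763052 0 536870912 0) ndB1q2b ndB0q2 pcB0 Cut.none Ext.none)

def k0_mm_202_b : ∃ t, chk3 f_mm_202_b t 1 1 1 = true :=
  ⟨(l 3), by decide +kernel⟩

theorem c_mm_202_b : CertB 1239849684 370763052 0 536870912 923417968 42949674 3 eng mog cd1q2b cd0q2 pd0 false false false .pp 2 0 2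
    ndB1q2b ndB0q2 pcB0 Cut.none Ext.none :=
  certB0 (fam := false) (s1 := false) (s2 := false) (a := 2) (b := 0) (c := 2) (cn := .pp) (n1 := ndB1q2b) (n2 := ndB0q2) (pc := pcB0) (cut := Cut.none) (xt := Ext.none) (P1 := 1239849684) (W1 := 370763052) (P2 := 0) (W2 := 536870912) (P3 := 923417968) (W3 := 42949674) (N0 := 3) (En := eng) (mo := mog) (C1 := cd1q2b) (C2 := cd0q2) (C3 := pd0)
    rfl k0_mm_202_b

end Pool.Agent.Strip051.G.I8600_9000.Tab.C.BB10

namespace Pool.Agent.Strip051.G.I8600_9000.Tab.C.BB11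

open Pool.Agent.Strip051.PB Pool.Agent.Strip051.PB.T
open Pool.Agent.Strip051.G.I8600_9000.Tab

noncomputable def f_pp_001 : ℕ → ℕ → ℕ → ℕ → Bool := onCell 0 536870912 536870912 536870912 923417968 42949674
    (rowB 3 eng mog cd1q0 cd1q1 pd0 0 false true true .up 0 0 1 (qsf 0 536870912 536870912 536870912 0) ndB1q0 ndB1q1 pcB0 Cut.none Ext.none)

def k0_pp_001 : ∃ t, chk3 f_pp_001 t 1 1 1 = true :=
  ⟨(l 3), by decide +kernel⟩

theorem c_pp_001 : CertB 0 536870912 536870912 536870912 923417968 42949674 3 eng mog cd1q0 cd1q1 pd0 false true true .up 0 0 1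
    ndB1q0 ndB1q1 pcB0 Cut.none Ext.none :=
  certB0 (fam := false) (s1 := true) (s2 := true) (a := 0) (b := 0) (c := 1) (cn := .up) (n1 := ndB1q0) (n2 := ndB1q1) (pc := pcB0) (cut := Cut.none) (xt := Ext.none) (P1 := 0) (W1 := 536870912) (P2 := 536870912) (W2 := 536870912) (P3 := 923417968) (W3 := 42949674) (N0 := 3) (En := eng) (mo := mog) (C1 := cd1q0) (C2 := cd1q1) (C3 := pd0)
    rfl k0_pp_001

noncomputable def f_pp_011 : ℕ → ℕ → ℕ → ℕ → Bool := onCell 0 536870912 536870912 536870912 923417968 42949674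
    (rowB 3 eng mog cd1q0 cd1q1 pd1 0 false true true .pnn 0 1 1 (qsf 0 536870912 536870912 536870912 1) ndB1q0 ndB1q1 pcB1 Cut.none Ext.none)

def k0_pp_011 : ∃ t, chk3 f_pp_011 t 1 1 1 = true :=
  ⟨(l 3), by decide +kernel⟩

theorem c_pp_011 : CertB 0 536870912 536870912 536870912 923417968 42949674 3 eng mog cd1q0 cd1q1 pd1 false true true .pnn 0 1 1
    ndB1q0 ndB1q1 pcB1 Cut.none Ext.none :=
  certB0 (fam := false) (s1 := true) (s2 := true) (a := 0) (b := 1) (c := 1) (cn := .pnn) (n1 := ndB1q0) (n2 := ndB1q1) (pc := pcB1) (cut := Cut.none) (xt := Ext.none) (P1 := 0) (W1 := 536870912) (P2 := 536870912) (W2 := 536870912) (P3 := 923417968) (W3 := 42949674) (N0 := 3) (En := eng) (mo := mog) (C1 := cd1q0) (C2 := cd1q1) (C3 := pd1)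
    rfl k0_pp_011

noncomputable def cut_pp_012_a : Cut := Cut.of [[⟨0, 0, 0, 67108864⟩, ⟨1, 1, 0, 67108864⟩, ⟨2, 1, 0, 67108864⟩]]

noncomputable def f_pp_012_a : ℕ → ℕ → ℕ → ℕ → Bool := onCell 536870912 536870912 0 536870912 923417968 42949674
    (rowB 3 eng mog cd1q0 cd1q2a pd1 2 false true true .pnp 0 1 2 (qsf 0 536870912 0 536870912 1) ndB1q0 ndB1q2a pcB1 cut_pp_012_a Ext.none)

def k0_pp_012_a : ∃ t, chk3 f_pp_012_a t 2 1 1 = true :=
  ⟨(a (b (b (l 2) (l 3)) (l 3)) (b (a (b (a (a (l 2) (b (l 16588976) (l 16652536))) (b (l 16565584) (l 16551296))) (b (a (a (l 3) (l 160154769607)) (c (l 16428304) (l 116668093239))) (l 3))) (b (a (c (l 16506696) (l 16581528)) (b (l 16520448) (l 16540456))) (a (b (c (l 16642920) (l 16622040)) (b (l 133311166199) (l 3))) (b (l 16561784) (b (l 16586656) (l 95193221879)))))) (b (l 3) (l 3)))), by decide +kernel⟩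

def k1_pp_012_a : ∃ t, chk3 f_pp_012_a t 6 1 1 = true :=
  ⟨(b (a (b (a (c (l 16511472) (l 16572544)) (c (l 16511632) (l 16575152))) (b (a (l 16565376) (l 16620600)) (a (a (l 16623520) (l 16637248)) (c (l 16658960) (l 16702248))))) (b (a (c (l 16522888) (l 16588344)) (c (l 16543152) (l 16610192))) (a (b (l 16622608) (l 16595112)) (b (l 16632256) (l 16681992))))) (b (a (b (a (b (l 153712294007) (l 3)) (b (l 141364555399) (a (l 16620600) (l 16634152)))) (l 3)) (a (a (b (l 132237680887) (b (l 313163371287) (l 3))) (b (l 16663192) (b (l 219210948903) (l 341617466503)))) (b (c (l 16718376) (l 16759600)) (b (a (l 16690920) (l 16734944)) (a (l 342691336391) (l 278803676599)))))) (a (l 3) (b (a (l 3) (b (b (l 366850484023) (l 3)) (l 3))) (l 3))))), by decide +kernel⟩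

def k2_pp_012_a : ∃ t, chk3 f_pp_012_a t 7 2 1 = true :=
  ⟨(a (b (a (l 16520664) (l 16575248)) (a (a (l 16498776) (l 16527312)) (b (l 16659752) (l 16592416)))) (b (a (l 16441448) (a (l 16506688) (l 16440952))) (a (b (l 16531936) (a (l 16631256) (l 16599240))) (a (b (l 16539664) (l 16553832)) (b (l 16498344) (l 16504440)))))), by decide +kernel⟩

def k3_pp_012_a : ∃ t, chk3 f_pp_012_a t 7 3 1 = true :=
  ⟨(a (b (a (b (c (l 16716528) (l 16727600)) (b (l 16658672) (a (l 16719064) (l 16755608)))) (b (c (l 16717008) (l 16590112)) (a (b (l 16726952) (l 16719296)) (b (l 16701928) (l 16696208))))) (b (a (a (b (l 317458364311) (l 3)) (b (b (l 16726616) (l 256255061271)) (l 391546531671))) (c (b (a (l 16763560) (l 16749712)) (b (a (l 16752152) (l 16755072)) (a (l 386177963287) (l 277729936407)))) (b (a (l 16704808) (l 16717728)) (a (l 328732637479) (b (l 16722576) (l 270750559719)))))) (a (l 3) (a (l 3) (b (c (l 438254393399) (l 451676116423)) (l 3)))))) (b (a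 (b (a (l 16571160) (c (l 16647456) (l 16603320))) (a (b (l 16677024) (l 16673472)) (c (b (l 16670256) (l 16667264)) (l 16557200)))) (b (a (c (l 16594576) (l 16571776)) (a (l 16546752) (l 16527440))) (a (b (l 16580176) (l 16560384)) (b (l 16546848) (b (l 16585656) (l 16577784)))))) (b (a (a (b (l 16630672) (c (b (l 16744960) (l 16729176)) (b (l 16716960) (l 16722368)))) (b (c (l 16688016) (l 16656536)) (c (b (l 16705688) (l 16718680)) (b (l 16699216) (l 16694248))))) (a (b (c (l 16642992) (l 16612344)) (c (b (l 16684016) (l 16677840)) (a (l 16671640) (l 16639784)))) (b (a (l 16586208) (b (l 16625512) (l 16641144))) (a (b (l 16651944) (l 16648608)) (b (l 16637136) (l 6)))))) (a (b (a (b (a (l 340543797575) (b (l 16743424) (l 257328814439))) (a (l 3) (l 418390115895))) (b (a (b (l 16738048) (l 16724440)) (l 16686808)) (a (b (l 254107597239) (l 326048320375)) (b (l 16706320) (c (l 251960164279) (l 248202033719)))))) (a (l 3) (a (l 3) (l 6)))) (b (a (b (a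 (l 16688904) (l 6)) (l 6)) (l 6)) (l 6)))))), by decide +kernel⟩

theorem s4_pp_012_a : ∃ t, chk3 f_pp_012_a t 7 1 1 = true := ex3_b k2_pp_012_a k3_pp_012_a

theorem s5_pp_012_a : ∃ t, chk3 f_pp_012_a t 3 1 1 = true := ex3_a k1_pp_012_a s4_pp_012_a

theorem s6_pp_012_a : ∃ t, chk3 f_pp_012_a t 1 1 1 = true := ex3_a k0_pp_012_a s5_pp_012_a

theorem c_pp_012_a : CertB 0 536870912 0 536870912 923417968 42949674 3 eng mog cd1q0 cd1q2a pd1 false true true .pnp 0 1 2
    ndB1q0 ndB1q2a pcB1 cut_pp_012_a Ext.none :=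
  certB2 (fam := false) (s1 := true) (s2 := true) (a := 0) (b := 1) (c := 2) (cn := .pnp) (n1 := ndB1q0) (n2 := ndB1q2a) (pc := pcB1) (cut := cut_pp_012_a) (xt := Ext.none) (P1 := 0) (W1 := 536870912) (P2 := 0) (W2 := 536870912) (P3 := 923417968) (W3 := 42949674) (N0 := 3) (En := eng) (mo := mog) (C1 := cd1q0) (C2 := cd1q2a) (C3 := pd1)
    rfl (fun _ => rfl) s6_pp_012_a

noncomputable def cut_pp_012_b : Cut := Cut.of [[⟨0, 0, 0, 67108864⟩, ⟨1, 1, 0, 67108864⟩, ⟨2, 1, 0, 67108864⟩]]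

noncomputable def f_pp_012_b : ℕ → ℕ → ℕ → ℕ → Bool := onCell 536870912 536870912 1239849684 370763052 923417968 42949674
    (rowB 3 eng mog cd1q0 cd1q2b pd1 2 false true true .pnp 0 1 2 (qsf 0 536870912 1239849684 370763052 1) ndB1q0 ndB1q2b pcB1 cut_pp_012_b Ext.none)

def k0_pp_012_b : ∃ t, chk3 f_pp_012_b t 1 1 1 = true :=
  ⟨(a (a (l 2) (b (a (b (b (a (l 16535992) (l 16500200)) (l 2)) (l 2)) (b (a (b (l 16472152) (l 16411504)) (b (l 16452368) (l 16382176))) (a (l 2) (l 16300392)))) (l 2))) (a (b (a (b (b (a (l 16444624) (l 16449776)) (l 16173880)) (a (l 16270096) (l 16254536))) (b (c (b (l 16358768) (l 16346560)) (a (l 16413176) (l 16478800))) (b (l 16189216) (l 16218576)))) (a (l 2) (b (l 15960160) (l 2)))) (a (b (b (a (b (l 16527680) (l 16422024)) (b (l 16573712) (l 16463624))) (a (l 16197960) (l 16315136))) (b (a (l 16132024) (l 16152144)) (l 16029776))) (b (b (a (b (l 16559344) (l 16518528)) (b (l 16433872) (l 16498440))) (a (l 16363080) (l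 16169936))) (b (a (l 16146616) (l 16214536)) (a (l 16052040) (l 16046064))))))), by decide +kernel⟩

theorem c_pp_012_b : CertB 0 536870912 1239849684 370763052 923417968 42949674 3 eng mog cd1q0 cd1q2b pd1 false true true .pnp 0 1 2
    ndB1q0 ndB1q2b pcB1 cut_pp_012_b Ext.none :=
  certB2 (fam := false) (s1 := true) (s2 := true) (a := 0) (b := 1) (c := 2) (cn := .pnp) (n1 := ndB1q0) (n2 := ndB1q2b) (pc := pcB1) (cut := cut_pp_012_b) (xt := Ext.none) (P1 := 0) (W1 := 536870912) (P2 := 1239849684) (W2 := 370763052) (P3 := 923417968) (W3 := 42949674) (N0 := 3) (En := eng) (mo := mog) (C1 := cd1q0) (C2 := cd1q2b) (C3 := pd1)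
    rfl (fun _ => rfl) k0_pp_012_b

noncomputable def cut_pp_022_a : Cut := Cut.of [[⟨0, 0, 0, 67108864⟩, ⟨1, 1, 0, 67108864⟩, ⟨2, 1, 0, 67108864⟩]]

noncomputable def f_pp_022_a : ℕ → ℕ → ℕ → ℕ → Bool := onCell 0 536870912 0 536870912 923417968 42949674
    (rowB 3 eng mog cd1q0 cd1q2a pd2 0 false true true .pp 0 2 2 (qsf 0 536870912 0 536870912 2) ndB1q0 ndB1q2a pcB2 cut_pp_022_a Ext.none)

def k0_pp_022_a : ∃ t, chk3 f_pp_022_a t 2 2 1 = true :=
  ⟨(a (a (b (a (b (c (l 16163784) (c (l 16116520) (l 16104208))) (c (b (l 16154824) (l 16154528)) (b (l 16104432) (a (l 16066184) (l 16132152))))) (b (a (l 16226088) (l 16271424)) (c (l 16263984) (l 16137848)))) (a (b (c (a (b (l 16148296) (l 16158528)) (l 16198840)) (b (a (l 16065112) (l 16136560)) (a (l 16030176) (l 16149032)))) (a (c (b (l 16156424) (a (b (l 16178136) (l 16195064)) (l 16226448))) (b (a (l 16067688) (l 16109984)) (b (l 16088072) (l 16105768)))) (c (b (l 16250856) (l 16284520)) (b (l 16150360)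 (l 16205416))))) (b (c (a (l 16283160) (l 16343384)) (b (l 16236808) (l 16194040))) (c (b (l 16291336) (l 16289240)) (b (l 16161024) (a (l 16288472) (l 16367136))))))) (b (c (a (b (l 16360064) (l 16383728)) (b (l 16435800) (l 16442872))) (a (b (l 16309632) (l 16246160)) (b (l 16391440) (l 16302576)))) (b (c (a (l 16260072) (l 16404536)) (a (a (l 16342840) (l 16403248)) (b (l 16406800) (l 16444152)))) (a (b (a (l 16359408) (l 16401360)) (b (l 16321672) (l 16328000))) (b (a (l 16481840) (l 16553984)) (b (l 16448416) (l 16408640))))))) (a (a (a (b (b (l 16405904) (l 16389968)) (b (a (l 16487984) (l 16482504)) (b (l 16444128) (l 215854836919)))) (b (b (l 16398448) (l 184179562455)) (b (c (l 213170578487) (l 197064513671)) (l 1)))) (b (b (l 1) (l 1)) (l 1))) (l 1))), by decide +kernel⟩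

def k1_pp_022_a : ∃ t, chk3 f_pp_022_a t 16 6 1 = true :=
  ⟨(b (a (b (c (a (b (l 16236152) (a (l 16248872) (l 16249576))) (b (l 16256856) (l 16281560))) (a (b (l 16124392) (c (l 16172288) (l 16125344))) (l 16163304))) (c (a (b (c (a (l 16276064) (l 16297576)) (l 16265880)) (b (a (c (l 16298536) (l 16256648)) (l 16300512)) (a (c (l 16313160) (l 16272296)) (l 16316512)))) (b (l 16310008) (a (l 16310272) (l 16353640)))) (a (a (b (l 16207400) (b (l 16189952) (l 16207240))) (b (l 16190656) (l 16266432))) (b (l 16227816) (l 16262816))))) (a (b (b (l 16258328) (l 16316312)) (c (l 16405328) (l 16315024))) (b (c (l 16350240) (l 16275928)) (c (l 16411360) (l 16341696))))) (a (b (c (a (b (a (c (l 16334088) (l 16295392)) (l 16317744)) (a (c (b (l 16355824) (l 16370944)) (l 16327712)) (c (l 16386520) (l 16352016)))) (b (a (l 16362408) (l 16385944)) (l 16415424))) (a (b (c (l 16288584) (l 16225776)) (a (c (l 16290296) (l 16251152)) (l 16276120))) (b (l 16299192)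 (l 16336248)))) (c (a (b (a (c (b (l 16386520) (l 16402568)) (b (l 16353160) (l 16370808))) (c (l 16417664) (l 16386264))) (c (a (b (l 16419096) (a (l 16430328) (l 16441864))) (l 16450688)) (a (b (l 16388960) (l 16407624)) (l 16422520)))) (b (c (l 16452176) (l 16422544)) (a (l 16460336) (l 16483840)))) (a (b (c (a (l 16348872) (l 16353344)) (a (l 16292232) (l 16318912))) (a (b (c (l 16357400) (l 16324416)) (c (l 16377808) (l 16346656))) (c (l 16393008) (l 16362144)))) (b (l 16391056) (a (l 16403656) (l 16429512)))))) (b (a (c (b (l 16420696) (l 16451984)) (b (l 16351000) (l 16388272))) (c (b (l 16466016) (l 16498720)) (b (l 16401720) (l 16440048)))) (c (a (b (l 16484496) (l 16518960)) (b (l 16531136) (l 16565488))) (b (a (l 16427152) (l 16478712)) (c (l 16443536) (l 16439104))))))), by decide +kernel⟩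

def k2_pp_022_a : ∃ t, chk3 f_pp_022_a t 17 6 1 = true :=
  ⟨(a (c (b (b (l 16408376) (l 16367528)) (b (a (b (l 16509704) (l 16544960)) (l 16507480)) (l 16470800))) (b (b (l 16341464) (l 16326848)) (b (b (l 16411640) (l 16432496)) (b (l 16492520) (l 16511952))))) (b (b (l 16307496) (c (l 16507928) (l 16435416))) (b (b (l 16504760) (c (l 16606736) (l 16593072))) (b (l 16529512) (l 16498656))))), by decide +kernel⟩

def k3_pp_022_a : ∃ t, chk3 f_pp_022_a t 9 6 1 = true :=
  ⟨(b (a (a (b (l 16402704) (l 16476816)) (b (l 16535664) (l 16436704))) (b (c (l 170757665703) (l 16390944)) (a (c (l 16444376) (l 16470152)) (l 1)))) (a (b (a (a (l 16461824) (l 16449336)) (c (l 16427264) (l 16452064))) (a (b (b (l 16450216) (l 16484352)) (c (l 16529976) (l 16529272))) (b (c (b (l 16469848) (l 409665210679)) (l 295848572295)) (l 1)))) (b (a (c (l 313565216135) (l 255583169527)) (l 1)) (l 1)))), by decide +kernel⟩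

def k4_pp_022_a : ∃ t, chk3 f_pp_022_a t 5 6 1 = true :=
  ⟨(l 1), by decide +kernel⟩

def k5_pp_022_a : ∃ t, chk3 f_pp_022_a t 2 7 1 = true :=
  ⟨(a (b (b (a (a (b (a (a (c (b (a (c (a (l 16447816) (l 16459352)) (a (l 16420752) (l 16432840))) (l 16453456)) (a (b (c (l 16467000) (l 16441496)) (a (c (l 16470352) (l 16445440)) (l 16469832))) (l 16474880))) (a (b (c (a (l 16392432) (l 16405088)) (l 16369472)) (c (a (l 16434912) (l 16426576)) (a (l 16386248) (l 16399464)))) (c (l 16424336) (l 16397152)))) (c (c (l 16530560) (l 16496920)) (a (l 16457656) (l 16472912)))) (b (c (l 16485384) (l 16421032)) (c (l 16483096) (l 16443096)))) (b (b (a (a (a (b (c (c (l 16483024) (l 16459032)) (c (l 16433936) (l 16407728))) (l 6)) (c (l 16497152) (l 16449632))) (c (l 16532368) (l 16488184))) (c (l 16539352) (l 16501912))) (l 6)) (l 6))) (a (b (b (l 16519024) (l 16539136)) (b (l 16558976) (l 6))) (b (b (l 16511912) (l 16506576)) (c (l 16510632) (l 16528616))))) (a (a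 (b (c (l 132639961399) (l 16452760)) (c (l 628708868055) (l 441340730791))) (l 1)) (l 1))) (a (a (l 6) (a (l 6) (a (l 6) (a (l 6) (l 1))))) (l 1))) (a (a (l 6) (a (l 6) (l 1))) (l 1))) (l 1)), by decide +kernel⟩

def k6_pp_022_a : ∃ t, chk3 f_pp_022_a t 3 1 1 = true :=
  ⟨(l 1), by decide +kernel⟩

theorem s7_pp_022_a : ∃ t, chk3 f_pp_022_a t 8 6 1 = true := ex3_a k1_pp_022_a k2_pp_022_a

theorem s8_pp_022_a : ∃ t, chk3 f_pp_022_a t 4 6 1 = true := ex3_a s7_pp_022_a k3_pp_022_a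

theorem s9_pp_022_a : ∃ t, chk3 f_pp_022_a t 2 6 1 = true := ex3_a s8_pp_022_a k4_pp_022_a

theorem s10_pp_022_a : ∃ t, chk3 f_pp_022_a t 2 3 1 = true := ex3_b s9_pp_022_a k5_pp_022_a

theorem s11_pp_022_a : ∃ t, chk3 f_pp_022_a t 2 1 1 = true := ex3_b k0_pp_022_a s10_pp_022_a

theorem s12_pp_022_a : ∃ t, chk3 f_pp_022_a t 1 1 1 = true := ex3_a s11_pp_022_a k6_pp_022_a

theorem c_pp_022_a : CertB 0 536870912 0 536870912 923417968 42949674 3 eng mog cd1q0 cd1q2a pd2 false true true .pp 0 2 2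
    ndB1q0 ndB1q2a pcB2 cut_pp_022_a Ext.none :=
  certB0 (fam := false) (s1 := true) (s2 := true) (a := 0) (b := 2) (c := 2) (cn := .pp) (n1 := ndB1q0) (n2 := ndB1q2a) (pc := pcB2) (cut := cut_pp_022_a) (xt := Ext.none) (P1 := 0) (W1 := 536870912) (P2 := 0) (W2 := 536870912) (P3 := 923417968) (W3 := 42949674) (N0 := 3) (En := eng) (mo := mog) (C1 := cd1q0) (C2 := cd1q2a) (C3 := pd2)
    rfl s12_pp_022_a

noncomputable def cut_pp_022_b : Cut := Cut.of [[⟨0, 0, 0, 67108864⟩, ⟨1, 1, 0, 67108864⟩, ⟨2, 1, 0, 67108864⟩]]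

noncomputable def f_pp_022_b : ℕ → ℕ → ℕ → ℕ → Bool := onCell 0 536870912 1239849684 370763052 923417968 42949674
    (rowB 3 eng mog cd1q0 cd1q2b pd2 0 false true true .pp 0 2 2 (qsf 0 536870912 1239849684 370763052 2) ndB1q0 ndB1q2b pcB2 cut_pp_022_b Ext.none)

def k0_pp_022_b : ∃ t, chk3 f_pp_022_b t 1 1 1 = true :=
  ⟨(a (b (a (b (a (b (a (c (a (l 16181096) (l 16182256)) (b (l 16118272) (l 16087904))) (c (l 16243120) (l 16147552))) (a (c (l 16107784) (l 16052464)) (l 16055432))) (b (a (b (l 16227072) (l 16277296)) (b (l 16256072) (l 16347320))) (a (l 16191136) (l 16258624)))) (a (b (a (c (l 16070176) (l 16022688)) (l 16076968)) (a (l 16029208) (l 16090984))) (b (l 16196048) (l 16176760)))) (b (a (b (b (a (b (l 16351672) (l 16417464)) (c (l 16525992) (l 468184219015))) (a (l 16370320) (l 16472752))) (a (l 16363672) (l 16422952))) (b (b (l 1) (l 490195908471)) (b (l 132102942263) (l 16489144)))) (a (b (l 16335072) (l 16283016)) (b (l 16431128) (l 16329184)))))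 (a (b (a (b (a (l 16023768) (l 16073240)) (a (l 15909128) (l 15928592))) (b (l 16139984) (l 15966088))) (a (b (a (l 15666872) (l 15764216)) (l 15725616)) (b (b (l 15814256) (l 15783240)) (l 15739592)))) (b (a (b (l 16178336) (l 16022384)) (b (l 16211528) (l 16077248))) (a (b (l 15713656) (l 15758296)) (b (l 15922352) (l 15797352)))))) (b (a (b (l 1) (a (b (l 395169484951) (l 16325904)) (b (l 1) (l 342019324919)))) (l 1)) (a (b (a (l 16346312) (b (l 16210304) (l 16146952))) (a (b (l 15994760) (l 15854560)) (l 15780992))) (b (a (l 432212938791) (l 1)) (a (l 15845168) (l 419864642423)))))), by decide +kernel⟩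

theorem c_pp_022_b : CertB 0 536870912 1239849684 370763052 923417968 42949674 3 eng mog cd1q0 cd1q2b pd2 false true true .pp 0 2 2
    ndB1q0 ndB1q2b pcB2 cut_pp_022_b Ext.none :=
  certB0 (fam := false) (s1 := true) (s2 := true) (a := 0) (b := 2) (c := 2) (cn := .pp) (n1 := ndB1q0) (n2 := ndB1q2b) (pc := pcB2) (cut := cut_pp_022_b) (xt := Ext.none) (P1 := 0) (W1 := 536870912) (P2 := 1239849684) (W2 := 370763052) (P3 := 923417968) (W3 := 42949674) (N0 := 3) (En := eng) (mo := mog) (C1 := cd1q0) (C2 := cd1q2b) (C3 := pd2)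
    rfl k0_pp_022_b

noncomputable def f_pp_023 : ℕ → ℕ → ℕ → ℕ → Bool := onCell 1073741824 536870912 1610612736 536870912 923417968 42949674
    (rowB 3 eng mog cd1q0 cd1q3 pd2 2 false true true .up 0 2 3 (qsf 0 536870912 1610612736 536870912 2) ndB1q0 ndB1q3 pcB2 Cut.none Ext.none)

def k0_pp_023 : ∃ t, chk3 f_pp_023 t 1 1 1 = true :=
  ⟨(a (b (a (b (a (l 15806488) (l 15892232)) (a (l 2) (l 15676424))) (b (a (b (l 15603000) (l 15562448)) (b (l 15535944) (l 15492920))) (a (l 15574536) (l 15502920)))) (a (l 2) (b (a (l 2) (l 15611912)) (l 2)))) (b (a (b (a (b (l 15491488) (l 15465072)) (b (l 15476248) (l 15462000))) (a (l 15485240) (l 15497104))) (b (b (a (l 15494248) (b (l 15476592) (l 15475400))) (a (l 15472360) (l 15486216))) (a (l 15524872) (l 15556232)))) (a (b (a (l 15605104) (l 15634584)) (b (l 15753776) (l 2))) (b (a (l 15684128) (l 15739040)) (b (l 15884352) (l 60765070135)))))), by decide +kernel⟩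

theorem c_pp_023 : CertB 0 536870912 1610612736 536870912 923417968 42949674 3 eng mog cd1q0 cd1q3 pd2 false true true .up 0 2 3
    ndB1q0 ndB1q3 pcB2 Cut.none Ext.none :=
  certB2 (fam := false) (s1 := true) (s2 := true) (a := 0) (b := 2) (c := 3) (cn := .up) (n1 := ndB1q0) (n2 := ndB1q3) (pc := pcB2) (cut := Cut.none) (xt := Ext.none) (P1 := 0) (W1 := 536870912) (P2 := 1610612736) (W2 := 536870912) (P3 := 923417968) (W3 := 42949674) (N0 := 3) (En := eng) (mo := mog) (C1 := cd1q0) (C2 := cd1q3) (C3 := pd2)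
    rfl (fun _ => rfl) k0_pp_023

noncomputable def f_pp_033 : ℕ → ℕ → ℕ → ℕ → Bool := onCell 0 536870912 1610612736 536870912 923417968 42949674
    (rowB 3 eng mog cd1q0 cd1q3 pd3 1 false true true .pnn 0 3 3 (qsf 0 536870912 1610612736 536870912 3) ndB1q0 ndB1q3 pcB3 Cut.none Ext.none)

def k0_pp_033 : ∃ t, chk3 f_pp_033 t 1 1 1 = true :=
  ⟨(a (b (b (a (b (a (c (b (l 194914665767) (l 15334760)) (b (a (l 15310800) (l 15439128)) (l 15352008))) (b (l 15659392) (l 15631184))) (a (b (a (l 15452680) (l 15466688)) (a (l 15344192) (l 15439192))) (b (l 15601168) (l 15571408)))) (b (a (l 15803880) (l 15927040)) (b (l 15822184) (l 15796464)))) (a (b (a (b (a (l 15318168) (l 15411592)) (a (l 15292112) (l 15385384))) (b (l 15543512) (l 15520784))) (b (a (c (l 15344528) (l 15287528)) (l 15510944)) (a (l 15300032) (l 4)))) (b (b (a (l 15703944) (l 15859224)) (a (l 15698912) (l 4))) (l 4)))) (a (l 4) (b (l 4) (a (b (l 4) (l 2)) (l 2))))) (b (a (b (b (b (l 16065120)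 (l 16036128)) (b (l 15777216) (a (l 15984880) (l 4)))) (b (l 4) (l 4))) (b (b (b (a (l 16204880) (l 16316528)) (l 16471848)) (b (l 16469784) (l 4))) (a (b (l 4) (l 2)) (l 2)))) (a (b (a (b (l 4) (l 2)) (l 2)) (l 2)) (l 2)))), by decide +kernel⟩

theorem c_pp_033 : CertB 0 536870912 1610612736 536870912 923417968 42949674 3 eng mog cd1q0 cd1q3 pd3 false true true .pnn 0 3 3
    ndB1q0 ndB1q3 pcB3 Cut.none Ext.none :=
  certB1 (fam := false) (s1 := true) (s2 := true) (a := 0) (b := 3) (c := 3) (cn := .pnn) (n1 := ndB1q0) (n2 := ndB1q3) (pc := pcB3) (cut := Cut.none) (xt := Ext.none) (P1 := 0) (W1 := 536870912) (P2 := 1610612736) (W2 := 536870912) (P3 := 923417968) (W3 := 42949674) (N0 := 3) (En := eng) (mo := mog) (C1 := cd1q0) (C2 := cd1q3) (C3 := pd3)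
    rfl (fun _ => rfl) k0_pp_033

noncomputable def f_pp_101 : ℕ → ℕ → ℕ → ℕ → Bool := onCell 536870912 536870912 536870912 536870912 923417968 42949674
    (rowB 3 eng mog cd1q1 cd1q1 pd0 0 false true true .npn 1 0 1 (qsf 536870912 536870912 536870912 536870912 0) ndB1q1 ndB1q1 pcB0 Cut.none Ext.none)

def k0_pp_101 : ∃ t, chk3 f_pp_101 t 1 1 1 = true :=
  ⟨(l 3), by decide +kernel⟩

theorem c_pp_101 : CertB 536870912 536870912 536870912 536870912 923417968 42949674 3 eng mog cd1q1 cd1q1 pd0 false true true .npn 1 0 1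
    ndB1q1 ndB1q1 pcB0 Cut.none Ext.none :=
  certB0 (fam := false) (s1 := true) (s2 := true) (a := 1) (b := 0) (c := 1) (cn := .npn) (n1 := ndB1q1) (n2 := ndB1q1) (pc := pcB0) (cut := Cut.none) (xt := Ext.none) (P1 := 536870912) (W1 := 536870912) (P2 := 536870912) (W2 := 536870912) (P3 := 923417968) (W3 := 42949674) (N0 := 3) (En := eng) (mo := mog) (C1 := cd1q1) (C2 := cd1q1) (C3 := pd0)
    rfl k0_pp_101

noncomputable def f_pp_102_a : ℕ → ℕ → ℕ → ℕ → Bool := onCell 0 536870912 0 536870912 923417968 42949674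
    (rowB 3 eng mog cd1q1 cd1q2a pd0 2 false true true .npp 1 0 2 (qsf 536870912 536870912 0 536870912 0) ndB1q1 ndB1q2a pcB0 Cut.none Ext.none)

def k0_pp_102_a : ∃ t, chk3 f_pp_102_a t 1 1 1 = true :=
  ⟨(b (a (l 3) (l 3)) (l 3)), by decide +kernel⟩

theorem c_pp_102_a : CertB 536870912 536870912 0 536870912 923417968 42949674 3 eng mog cd1q1 cd1q2a pd0 false true true .npp 1 0 2
    ndB1q1 ndB1q2a pcB0 Cut.none Ext.none :=
  certB2 (fam := false) (s1 := true) (s2 := true) (a := 1) (b := 0) (c := 2) (cn := .npp) (n1 := ndB1q1) (n2 := ndB1q2a) (pc := pcB0) (cut := Cut.none) (xt := Ext.none) (P1 := 536870912) (W1 := 536870912) (P2 := 0) (W2 := 536870912) (P3 := 923417968) (W3 := 42949674) (N0 := 3) (En := eng) (mo := mog) (C1 := cd1q1) (C2 := cd1q2a) (C3 := pd0)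
    rfl (fun _ => rfl) k0_pp_102_a

noncomputable def f_pp_102_b : ℕ → ℕ → ℕ → ℕ → Bool := onCell 536870912 536870912 0 536870912 923417968 42949674
    (rowB 3 eng mog cd1q1 cd1q2b pd0 1 false true true .npp 1 0 2 (qsf 536870912 536870912 1239849684 370763052 0) ndB1q1 ndB1q2b pcB0 Cut.none Ext.none)

def k0_pp_102_b : ∃ t, chk3 f_pp_102_b t 1 1 1 = true :=
  ⟨(a (a (l 1) (a (l 3) (l 3))) (l 3)), by decide +kernel⟩

theorem c_pp_102_b : CertB 536870912 536870912 1239849684 370763052 923417968 42949674 3 eng mog cd1q1 cd1q2b pd0 false true true .npp 1 0 2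
    ndB1q1 ndB1q2b pcB0 Cut.none Ext.none :=
  certB1 (fam := false) (s1 := true) (s2 := true) (a := 1) (b := 0) (c := 2) (cn := .npp) (n1 := ndB1q1) (n2 := ndB1q2b) (pc := pcB0) (cut := Cut.none) (xt := Ext.none) (P1 := 536870912) (W1 := 536870912) (P2 := 1239849684) (W2 := 370763052) (P3 := 923417968) (W3 := 42949674) (N0 := 3) (En := eng) (mo := mog) (C1 := cd1q1) (C2 := cd1q2b) (C3 := pd0)
    rfl (fun _ => rfl) k0_pp_102_b

noncomputable def f_pp_112_a : ℕ → ℕ → ℕ → ℕ → Bool := onCell 536870912 536870912 0 536870912 923417968 42949674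
    (rowB 3 eng mog cd1q1 cd1q2a pd1 2 false true true .dn 1 1 2 (qsf 536870912 536870912 0 536870912 1) ndB1q1 ndB1q2a pcB1 Cut.none Ext.none)

def k0_pp_112_a : ∃ t, chk3 f_pp_112_a t 1 1 1 = true :=
  ⟨(a (a (b (b (b (a (a (l 3) (a (b (c (b (l 87676590887) (l 3)) (l 139216269847)) (l 3)) (b (c (c (l 52779926519) (l 16160984)) (l 100561523063)) (c (l 132773659399) (l 150490579639))))) (a (b (c (a (l 16079192) (l 16039952)) (a (l 16179968) (l 16145368))) (c (a (a (l 112372551479) (l 80697174215)) (c (l 16063200) (l 16109416))) (a (l 119351980071) (l 96266481751)))) (c (a (c (l 16001832) (l 16051320)) (c (l 15965136) (l 16016344))) (a (l 16132536) (l 16100472))))) (a (l 3) (b (a (a (l 3) (c (l 122036207303) (l 131163196855))) (c (c (a (b (l 16058632) (l 16071696)) (l 16032088)) (a (l 93045232791) (l 16079248))) (a (l 111298848935) (l 16135568)))) (a (l 3) (a (l 3) (a (l 137068405415) (c (l 100561271863) (l 120425680439)))))))) (l 3)) (l 3)) (b (a (a (a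 (b (b (c (c (l 15930520) (l 15983216)) (l 16069880)) (c (b (c (l 15995656) (l 16044352)) (c (b (l 16027072) (l 16041032)) (l 85528973479))) (b (l 16124272) (l 104319454455)))) (l 3)) (b (c (b (c (l 15897944) (l 15951896)) (c (b (l 15960304) (l 16001192)) (l 19493816023))) (b (l 16040704) (b (l 16092632) (l 16105784)))) (a (b (c (b (l 110761748023) (l 3)) (l 121499409159)) (l 1)) (l 1)))) (b (b (l 1) (l 1)) (l 1))) (l 1)) (b (l 1) (l 1)))) (l 1)), by decide +kernel⟩

theorem c_pp_112_a : CertB 536870912 536870912 0 536870912 923417968 42949674 3 eng mog cd1q1 cd1q2a pd1 false true true .dn 1 1 2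
    ndB1q1 ndB1q2a pcB1 Cut.none Ext.none :=
  certB2 (fam := false) (s1 := true) (s2 := true) (a := 1) (b := 1) (c := 2) (cn := .dn) (n1 := ndB1q1) (n2 := ndB1q2a) (pc := pcB1) (cut := Cut.none) (xt := Ext.none) (P1 := 536870912) (W1 := 536870912) (P2 := 0) (W2 := 536870912) (P3 := 923417968) (W3 := 42949674) (N0 := 3) (En := eng) (mo := mog) (C1 := cd1q1) (C2 := cd1q2a) (C3 := pd1)
    rfl (fun _ => rfl) k0_pp_112_a

noncomputable def f_pp_112_b : ℕ → ℕ → ℕ → ℕ → Bool := onCell 536870912 536870912 1239849684 370763052 923417968 42949674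
    (rowB 3 eng mog cd1q1 cd1q2b pd1 2 false true true .dn 1 1 2 (qsf 536870912 536870912 1239849684 370763052 1) ndB1q1 ndB1q2b pcB1 Cut.none Ext.none)

def k0_pp_112_b : ∃ t, chk3 f_pp_112_b t 1 2 1 = true :=
  ⟨(b (a (b (a (a (a (l 3) (c (c (a (b (l 16113296) (l 16107016)) (l 16069576)) (a (l 90360978375) (l 16114088))) (a (b (l 16205632) (l 16215912)) (l 16166040)))) (a (c (c (b (l 16008312) (l 16004360)) (b (l 16057152) (l 16051640))) (b (l 16137344) (l 16129344))) (c (c (b (l 15933424) (l 15927760)) (l 15983128)) (c (l 16039344) (l 16099616))))) (a (a (c (c (b (l 15867488) (l 15860272)) (l 15919584)) (c (l 15979336) (l 16043480))) (c (c (b (l 15808736) (l 15800176)) (l 15862224)) (c (l 15924328) (l 15991072)))) (a (c (c (l 257729600359) (l 15809040)) (l 15989280)) (l 1)))) (a (a (a (l 3) (c (a (l 16113064) (l 16083856)) (l 116130666007))) (a (c (c (l 16001176) (l 16045552)) (l 16118560)) (c (c (l 15921992) (l 15971080)) (l 16052128)))) (a (a (c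 (c (l 15852088) (l 15905088)) (l 15992768)) (c (c (l 15789824) (l 15845640)) (l 15938152))) (c (a (l 15761512) (l 15711600)) (a (l 15885960) (l 15836776)))))) (l 1)) (a (a (a (a (l 3) (c (b (l 16081376) (l 3)) (l 16079864))) (a (c (b (l 16018976) (l 16013736)) (b (l 16104560) (l 16087896))) (c (b (l 15939752) (l 15937920)) (l 16010648)))) (a (c (a (b (l 15868888) (l 15864296)) (b (l 15805368) (l 15798096))) (a (l 15969848) (l 15913288))) (c (a (b (l 15747440) (l 15737696)) (b (l 15695664) (l 15683768))) (a (l 15859640) (l 15809632))))) (a (a (c (a (l 186325815559) (l 196526282887)) (a (l 15767576) (l 15734648))) (c (b (l 1) (l 15576400)) (l 217464622215))) (l 1)))), by decide +kernel⟩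

def k1_pp_112_b : ∃ t, chk3 f_pp_112_b t 1 3 1 = true :=
  ⟨(a (a (a (l 3) (b (a (b (l 104855613607) (l 16019048)) (c (b (l 15940704) (l 15944384)) (l 16008408))) (a (l 3) (b (l 16092168) (l 15958160))))) (c (a (b (a (l 15868520) (l 15798408)) (a (l 15888696) (l 15817688))) (b (a (l 15734064) (l 15676400)) (a (l 15749544) (l 15687416)))) (a (b (a (l 15946256) (l 15886712)) (a (l 15934944) (l 15874784))) (b (a (l 15830368) (l 15778160)) (l 15997744))))) (a (a (b (c (a (l 15629344) (l 15593968)) (l 15717336)) (c (l 15615312) (l 15696208))) (b (c (l 15602616) (l 15667136)) (c (l 15557504) (l 15642968)))) (a (b (c (l 15548872) (l 15647016)) (c (l 15541704) (l 15623120))) (b (l 1) (c (l 15553104) (l 15616624)))))), by decide +kernel⟩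

theorem s2_pp_112_b : ∃ t, chk3 f_pp_112_b t 1 1 1 = true := ex3_b k0_pp_112_b k1_pp_112_b

theorem c_pp_112_b : CertB 536870912 536870912 1239849684 370763052 923417968 42949674 3 eng mog cd1q1 cd1q2b pd1 false true true .dn 1 1 2
    ndB1q1 ndB1q2b pcB1 Cut.none Ext.none :=
  certB2 (fam := false) (s1 := true) (s2 := true) (a := 1) (b := 1) (c := 2) (cn := .dn) (n1 := ndB1q1) (n2 := ndB1q2b) (pc := pcB1) (cut := Cut.none) (xt := Ext.none) (P1 := 536870912) (W1 := 536870912) (P2 := 1239849684) (W2 := 370763052) (P3 := 923417968) (W3 := 42949674) (N0 := 3) (En := eng) (mo := mog) (C1 := cd1q1) (C2 := cd1q2b) (C3 := pd1)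
    rfl (fun _ => rfl) s2_pp_112_b

noncomputable def f_pp_113 : ℕ → ℕ → ℕ → ℕ → Bool := onCell 536870912 536870912 536870912 536870912 923417968 42949674
    (rowB 3 eng mog cd1q1 cd1q3 pd1 1 false true true .nn 1 1 3 (qsf 536870912 536870912 1610612736 536870912 1) ndB1q1 ndB1q3 pcB1 Cut.none Ext.none)

def k0_pp_113 : ∃ t, chk3 f_pp_113 t 1 1 1 = true :=
  ⟨(b (b (a (l 1) (a (b (l 1) (a (l 1) (b (l 1) (l 371546178215)))) (l 3))) (a (a (l 1) (b (l 1) (a (l 1) (b (l 1) (l 15748104))))) (a (b (a (b (l 1) (l 236791797463)) (b (c (l 15918040) (l 15972648)) (l 15879072))) (a (b (l 15798360) (l 15718912)) (b (l 15819528) (l 15770128)))) (b (a (b (l 15765128) (l 15672128)) (b (l 3) (l 15820472))) (a (b (l 15873728) (l 15836688)) (b (l 15954264) (l 15914688))))))) (b (b (a (a (l 1) (c (a (l 15538400) (l 15575856)) (l 203505979847))) (a (a (c (l 15637616) (l 15679048)) (b (l 15736504) (l 15722256))) (a (b (l 15821008) (l 15831648)) (c (l 15985216) (l 15915848)))))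 (a (c (a (a (l 1) (l 15443912)) (a (l 15476272) (l 15537232))) (a (l 237865401847) (l 186862701431))) (a (a (l 15629832) (l 15742088)) (a (l 15908160) (l 16169696))))) (a (b (a (a (l 254508173319) (l 242697046759)) (a (l 15616232) (l 15567896))) (a (a (b (l 15419000) (l 15387536)) (b (l 15455968) (l 15438208))) (a (l 15527208) (l 15658416)))) (a (b (a (l 15687912) (l 15872848)) (a (l 15862224) (l 16198056))) (b (a (l 16180512) (l 16796856)) (a (l 16846208) (b (l 16848112) (l 16813896)))))))), by decide +kernel⟩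

theorem c_pp_113 : CertB 536870912 536870912 1610612736 536870912 923417968 42949674 3 eng mog cd1q1 cd1q3 pd1 false true true .nn 1 1 3
    ndB1q1 ndB1q3 pcB1 Cut.none Ext.none :=
  certB1 (fam := false) (s1 := true) (s2 := true) (a := 1) (b := 1) (c := 3) (cn := .nn) (n1 := ndB1q1) (n2 := ndB1q3) (pc := pcB1) (cut := Cut.none) (xt := Ext.none) (P1 := 536870912) (W1 := 536870912) (P2 := 1610612736) (W2 := 536870912) (P3 := 923417968) (W3 := 42949674) (N0 := 3) (En := eng) (mo := mog) (C1 := cd1q1) (C2 := cd1q3) (C3 := pd1)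
    rfl (fun _ => rfl) k0_pp_113

noncomputable def f_pp_123 : ℕ → ℕ → ℕ → ℕ → Bool := onCell 1073741824 536870912 1610612736 536870912 923417968 42949674
    (rowB 3 eng mog cd1q1 cd1q3 pd2 2 false true true .npn 1 2 3 (qsf 536870912 536870912 1610612736 536870912 2) ndB1q1 ndB1q3 pcB2 Cut.none Ext.none)

def k0_pp_123 : ∃ t, chk3 f_pp_123 t 1 1 1 = true :=
  ⟨(a (b (a (b (a (b (l 15391400) (l 15452936)) (b (l 15371336) (l 15414248))) (a (b (l 15549816) (l 15692368)) (l 15804168))) (b (a (l 339870506103) (l 1)) (a (l 15616776) (l 15504720)))) (a (b (a (l 16183632) (l 15955168)) (a (b (l 16813560) (l 16720376)) (b (l 16356336) (l 16571656)))) (b (a (l 15804568) (l 15791024)) (b (a (l 16186560) (l 16125496)) (a (l 16413488) (l 16349624)))))) (b (a (b (l 1) (a (l 15555352) (l 1))) (l 1)) (a (b (a (l 15835456) (l 15925416)) (b (l 16166184) (l 16268576))) (b (a (l 15924504) (l 1)) (b (l 16387736) (a (l 16521888) (l 16640952))))))), by decide +kernel⟩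

theorem c_pp_123 : CertB 536870912 536870912 1610612736 536870912 923417968 42949674 3 eng mog cd1q1 cd1q3 pd2 false true true .npn 1 2 3
    ndB1q1 ndB1q3 pcB2 Cut.none Ext.none :=
  certB2 (fam := false) (s1 := true) (s2 := true) (a := 1) (b := 2) (c := 3) (cn := .npn) (n1 := ndB1q1) (n2 := ndB1q3) (pc := pcB2) (cut := Cut.none) (xt := Ext.none) (P1 := 536870912) (W1 := 536870912) (P2 := 1610612736) (W2 := 536870912) (P3 := 923417968) (W3 := 42949674) (N0 := 3) (En := eng) (mo := mog) (C1 := cd1q1) (C2 := cd1q3) (C3 := pd2)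
    rfl (fun _ => rfl) k0_pp_123

noncomputable def f_pp_133 : ℕ → ℕ → ℕ → ℕ → Bool := onCell 536870912 536870912 1610612736 536870912 923417968 42949674
    (rowB 3 eng mog cd1q1 cd1q3 pd3 0 false true true .dn 1 3 3 (qsf 536870912 536870912 1610612736 536870912 3) ndB1q1 ndB1q3 pcB3 Cut.none Ext.none)

def k0_pp_133 : ∃ t, chk3 f_pp_133 t 1 1 1 = true :=
  ⟨(a (b (l 1) (a (b (l 1) (b (l 1) (a (l 482143746567) (l 1)))) (l 1))) (l 1)), by decide +kernel⟩

theorem c_pp_133 : CertB 536870912 536870912 1610612736 536870912 923417968 42949674 3 eng mog cd1q1 cd1q3 pd3 false true true .dn 1 3 3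
    ndB1q1 ndB1q3 pcB3 Cut.none Ext.none :=
  certB0 (fam := false) (s1 := true) (s2 := true) (a := 1) (b := 3) (c := 3) (cn := .dn) (n1 := ndB1q1) (n2 := ndB1q3) (pc := pcB3) (cut := Cut.none) (xt := Ext.none) (P1 := 536870912) (W1 := 536870912) (P2 := 1610612736) (W2 := 536870912) (P3 := 923417968) (W3 := 42949674) (N0 := 3) (En := eng) (mo := mog) (C1 := cd1q1) (C2 := cd1q3) (C3 := pd3)
    rfl k0_pp_133

noncomputable def f_pp_202_aa : ℕ → ℕ → ℕ → ℕ → Bool := onCell 0 536870912 0 536870912 923417968 42949674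
    (rowB 3 eng mog cd1q2a cd1q2a pd0 0 false true true .pp 2 0 2 (qsf 0 536870912 0 536870912 0) ndB1q2a ndB1q2a pcB0 Cut.none Ext.none)

def k0_pp_202_aa : ∃ t, chk3 f_pp_202_aa t 1 1 1 = true :=
  ⟨(l 3), by decide +kernel⟩

theorem c_pp_202_aa : CertB 0 536870912 0 536870912 923417968 42949674 3 eng mog cd1q2a cd1q2a pd0 false true true .pp 2 0 2
    ndB1q2a ndB1q2a pcB0 Cut.none Ext.none :=
  certB0 (fam := false) (s1 := true) (s2 := true) (a := 2) (b := 0) (c := 2) (cn := .pp) (n1 := ndB1q2a) (n2 := ndB1q2a) (pc := pcB0) (cut := Cut.none) (xt := Ext.none) (P1 := 0) (W1 := 536870912) (P2 := 0) (W2 := 536870912) (P3 := 923417968) (W3 := 42949674) (N0 := 3) (En := eng) (mo := mog) (C1 := cd1q2a) (C2 := cd1q2a) (C3 := pd0)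
    rfl k0_pp_202_aa

noncomputable def f_pp_202_ab : ℕ → ℕ → ℕ → ℕ → Bool := onCell 0 536870912 1239849684 370763052 923417968 42949674
    (rowB 3 eng mog cd1q2a cd1q2b pd0 0 false true true .pp 2 0 2 (qsf 0 536870912 1239849684 370763052 0) ndB1q2a ndB1q2b pcB0 Cut.none Ext.none)

def k0_pp_202_ab : ∃ t, chk3 f_pp_202_ab t 1 1 1 = true :=
  ⟨(l 3), by decide +kernel⟩

theorem c_pp_202_ab : CertB 0 536870912 1239849684 370763052 923417968 42949674 3 eng mog cd1q2a cd1q2b pd0 false true true .pp 2 0 2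
    ndB1q2a ndB1q2b pcB0 Cut.none Ext.none :=
  certB0 (fam := false) (s1 := true) (s2 := true) (a := 2) (b := 0) (c := 2) (cn := .pp) (n1 := ndB1q2a) (n2 := ndB1q2b) (pc := pcB0) (cut := Cut.none) (xt := Ext.none) (P1 := 0) (W1 := 536870912) (P2 := 1239849684) (W2 := 370763052) (P3 := 923417968) (W3 := 42949674) (N0 := 3) (En := eng) (mo := mog) (C1 := cd1q2a) (C2 := cd1q2b) (C3 := pd0)
    rfl k0_pp_202_ab

noncomputable def f_pp_202_ba : ℕ → ℕ → ℕ → ℕ → Bool := onCell 1239849684 370763052 0 536870912 923417968 42949674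
    (rowB 3 eng mog cd1q2b cd1q2a pd0 0 false true true .pp 2 0 2 (qsf 1239849684 370763052 0 536870912 0) ndB1q2b ndB1q2a pcB0 Cut.none Ext.none)

def k0_pp_202_ba : ∃ t, chk3 f_pp_202_ba t 1 1 1 = true :=
  ⟨(l 3), by decide +kernel⟩

theorem c_pp_202_ba : CertB 1239849684 370763052 0 536870912 923417968 42949674 3 eng mog cd1q2b cd1q2a pd0 false true true .pp 2 0 2
    ndB1q2b ndB1q2a pcB0 Cut.none Ext.none :=
  certB0 (fam := false) (s1 := true) (s2 := true) (a := 2) (b := 0) (c := 2) (cn := .pp) (n1 := ndB1q2b) (n2 := ndB1q2a) (pc := pcB0) (cut := Cut.none) (xt := Ext.none) (P1 := 1239849684) (W1 := 370763052) (P2 := 0) (W2 := 536870912) (P3 := 923417968) (W3 := 42949674) (N0 := 3) (En := eng) (mo := mog) (C1 := cd1q2b) (C2 := cd1q2a) (C3 := pd0)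
    rfl k0_pp_202_ba

noncomputable def f_pp_202_bb : ℕ → ℕ → ℕ → ℕ → Bool := onCell 1239849684 370763052 1239849684 370763052 923417968 42949674
    (rowB 3 eng mog cd1q2b cd1q2b pd0 0 false true true .pp 2 0 2 (qsf 1239849684 370763052 1239849684 370763052 0) ndB1q2b ndB1q2b pcB0 Cut.none Ext.none)

def k0_pp_202_bb : ∃ t, chk3 f_pp_202_bb t 1 1 1 = true :=
  ⟨(l 3), by decide +kernel⟩

theorem c_pp_202_bb : CertB 1239849684 370763052 1239849684 370763052 923417968 42949674 3 eng mog cd1q2b cd1q2b pd0 false true true .pp 2 0 2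
    ndB1q2b ndB1q2b pcB0 Cut.none Ext.none :=
  certB0 (fam := false) (s1 := true) (s2 := true) (a := 2) (b := 0) (c := 2) (cn := .pp) (n1 := ndB1q2b) (n2 := ndB1q2b) (pc := pcB0) (cut := Cut.none) (xt := Ext.none) (P1 := 1239849684) (W1 := 370763052) (P2 := 1239849684) (W2 := 370763052) (P3 := 923417968) (W3 := 42949674) (N0 := 3) (En := eng) (mo := mog) (C1 := cd1q2b) (C2 := cd1q2b) (C3 := pd0)
    rfl k0_pp_202_bb

noncomputable def f_pp_203_a : ℕ → ℕ → ℕ → ℕ → Bool := onCell 0 536870912 0 536870912 923417968 42949674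
    (rowB 3 eng mog cd1q2a cd1q3 pd0 1 false true true .up 2 0 3 (qsf 0 536870912 1610612736 536870912 0) ndB1q2a ndB1q3 pcB0 Cut.none Ext.none)

def k0_pp_203_a : ∃ t, chk3 f_pp_203_a t 1 1 1 = true :=
  ⟨(l 3), by decide +kernel⟩

theorem c_pp_203_a : CertB 0 536870912 1610612736 536870912 923417968 42949674 3 eng mog cd1q2a cd1q3 pd0 false true true .up 2 0 3
    ndB1q2a ndB1q3 pcB0 Cut.none Ext.none :=
  certB1 (fam := false) (s1 := true) (s2 := true) (a := 2) (b := 0) (c := 3) (cn := .up) (n1 := ndB1q2a) (n2 := ndB1q3) (pc := pcB0) (cut := Cut.none) (xt := Ext.none) (P1 := 0) (W1 := 536870912) (P2 := 1610612736) (W2 := 536870912) (P3 := 923417968) (W3 := 42949674) (N0 := 3) (En := eng) (mo := mog) (C1 := cd1q2a) (C2 := cd1q3) (C3 := pd0)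
    rfl (fun _ => rfl) k0_pp_203_a

noncomputable def f_pp_203_b : ℕ → ℕ → ℕ → ℕ → Bool := onCell 1239849684 370763052 1610612736 536870912 923417968 42949674
    (rowB 3 eng mog cd1q2b cd1q3 pd0 0 false true true .up 2 0 3 (qsf 1239849684 370763052 1610612736 536870912 0) ndB1q2b ndB1q3 pcB0 Cut.none Ext.none)

def k0_pp_203_b : ∃ t, chk3 f_pp_203_b t 1 1 1 = true :=
  ⟨(l 3), by decide +kernel⟩

theorem c_pp_203_b : CertB 1239849684 370763052 1610612736 536870912 923417968 42949674 3 eng mog cd1q2b cd1q3 pd0 false true true .up 2 0 3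
    ndB1q2b ndB1q3 pcB0 Cut.none Ext.none :=
  certB0 (fam := false) (s1 := true) (s2 := true) (a := 2) (b := 0) (c := 3) (cn := .up) (n1 := ndB1q2b) (n2 := ndB1q3) (pc := pcB0) (cut := Cut.none) (xt := Ext.none) (P1 := 1239849684) (W1 := 370763052) (P2 := 1610612736) (W2 := 536870912) (P3 := 923417968) (W3 := 42949674) (N0 := 3) (En := eng) (mo := mog) (C1 := cd1q2b) (C2 := cd1q3) (C3 := pd0)
    rfl k0_pp_203_b

noncomputable def cut_pp_213_a : Cut := Cut.of [[⟨0, 1, 0, 67108864⟩, ⟨1, 1, 0, 67108864⟩, ⟨2, 2, 0, 16252928⟩]]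

noncomputable def f_pp_213_a : ℕ → ℕ → ℕ → ℕ → Bool := onCell 0 536870912 1610612736 536870912 923417968 42949674
    (rowB 3 eng mog cd1q2a cd1q3 pd1 0 false true true .pnn 2 1 3 (qsf 0 536870912 1610612736 536870912 1) ndB1q2a ndB1q3 pcB1 cut_pp_213_a Ext.none)

def k0_pp_213_a : ∃ t, chk3 f_pp_213_a t 1 1 1 = true :=
  ⟨(b (l 3) (b (l 3) (a (l 3) (a (l 3) (b (l 3) (a (l 3) (b (l 3) (b (l 3) (b (l 3) (l 6)))))))))), by decide +kernel⟩

theorem c_pp_213_a : CertB 0 536870912 1610612736 536870912 923417968 42949674 3 eng mog cd1q2a cd1q3 pd1 false true true .pnn 2 1 3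
    ndB1q2a ndB1q3 pcB1 cut_pp_213_a Ext.none :=
  certB0 (fam := false) (s1 := true) (s2 := true) (a := 2) (b := 1) (c := 3) (cn := .pnn) (n1 := ndB1q2a) (n2 := ndB1q3) (pc := pcB1) (cut := cut_pp_213_a) (xt := Ext.none) (P1 := 0) (W1 := 536870912) (P2 := 1610612736) (W2 := 536870912) (P3 := 923417968) (W3 := 42949674) (N0 := 3) (En := eng) (mo := mog) (C1 := cd1q2a) (C2 := cd1q3) (C3 := pd1)
    rfl k0_pp_213_a

noncomputable def cut_pp_213_b : Cut := Cut.of [[⟨0, 1, 0, 67108864⟩, ⟨1, 1, 0, 67108864⟩, ⟨2, 2, 0, 16252928⟩]]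

noncomputable def f_pp_213_b : ℕ → ℕ → ℕ → ℕ → Bool := onCell 1239849684 370763052 1610612736 536870912 923417968 42949674
    (rowB 3 eng mog cd1q2b cd1q3 pd1 0 false true true .pnn 2 1 3 (qsf 1239849684 370763052 1610612736 536870912 1) ndB1q2b ndB1q3 pcB1 cut_pp_213_b Ext.none)

def k0_pp_213_b : ∃ t, chk3 f_pp_213_b t 1 1 1 = true :=
  ⟨(l 3), by decide +kernel⟩

theorem c_pp_213_b : CertB 1239849684 370763052 1610612736 536870912 923417968 42949674 3 eng mog cd1q2b cd1q3 pd1 false true true .pnn 2 1 3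
    ndB1q2b ndB1q3 pcB1 cut_pp_213_b Ext.none :=
  certB0 (fam := false) (s1 := true) (s2 := true) (a := 2) (b := 1) (c := 3) (cn := .pnn) (n1 := ndB1q2b) (n2 := ndB1q3) (pc := pcB1) (cut := cut_pp_213_b) (xt := Ext.none) (P1 := 1239849684) (W1 := 370763052) (P2 := 1610612736) (W2 := 536870912) (P3 := 923417968) (W3 := 42949674) (N0 := 3) (En := eng) (mo := mog) (C1 := cd1q2b) (C2 := cd1q3) (C3 := pd1)
    rfl k0_pp_213_b

noncomputable def f_pp_303 : ℕ → ℕ → ℕ → ℕ → Bool := onCell 1610612736 536870912 1610612736 536870912 923417968 42949674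
    (rowB 3 eng mog cd1q3 cd1q3 pd0 0 false true true .npn 3 0 3 (qsf 1610612736 536870912 1610612736 536870912 0) ndB1q3 ndB1q3 pcB0 Cut.none Ext.none)

def k0_pp_303 : ∃ t, chk3 f_pp_303 t 1 1 1 = true :=
  ⟨(l 3), by decide +kernel⟩

theorem c_pp_303 : CertB 1610612736 536870912 1610612736 536870912 923417968 42949674 3 eng mog cd1q3 cd1q3 pd0 false true true .npn 3 0 3
    ndB1q3 ndB1q3 pcB0 Cut.none Ext.none :=
  certB0 (fam := false) (s1 := true) (s2 := true) (a := 3) (b := 0) (c := 3) (cn := .npn) (n1 := ndB1q3) (n2 := ndB1q3) (pc := pcB0) (cut := Cut.none) (xt := Ext.none) (P1 := 1610612736) (W1 := 536870912) (P2 := 1610612736) (W2 := 536870912) (P3 := 923417968) (W3 := 42949674) (N0 := 3) (En := eng) (mo := mog) (C1 := cd1q3) (C2 := cd1q3) (C3 := pd0)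
    rfl k0_pp_303

noncomputable def f_pp_313 : ℕ → ℕ → ℕ → ℕ → Bool := onCell 1610612736 536870912 1610612736 536870912 923417968 42949674
    (rowB 3 eng mog cd1q3 cd1q3 pd1 0 false true true .dn 3 1 3 (qsf 1610612736 536870912 1610612736 536870912 1) ndB1q3 ndB1q3 pcB1 Cut.none Ext.none)

def k0_pp_313 : ∃ t, chk3 f_pp_313 t 1 1 1 = true :=
  ⟨(l 3), by decide +kernel⟩

theorem c_pp_313 : CertB 1610612736 536870912 1610612736 536870912 923417968 42949674 3 eng mog cd1q3 cd1q3 pd1 false true true .dn 3 1 3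
    ndB1q3 ndB1q3 pcB1 Cut.none Ext.none :=
  certB0 (fam := false) (s1 := true) (s2 := true) (a := 3) (b := 1) (c := 3) (cn := .dn) (n1 := ndB1q3) (n2 := ndB1q3) (pc := pcB1) (cut := Cut.none) (xt := Ext.none) (P1 := 1610612736) (W1 := 536870912) (P2 := 1610612736) (W2 := 536870912) (P3 := 923417968) (W3 := 42949674) (N0 := 3) (En := eng) (mo := mog) (C1 := cd1q3) (C2 := cd1q3) (C3 := pd1)
    rfl k0_pp_313

noncomputable def f_pm_001 : ℕ → ℕ → ℕ → ℕ → Bool := onCell 0 536870912 536870912 536870912 923417968 42949674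
    (rowB 3 eng mog cd1q0 cd1q1 pd0 0 false true false .up 0 0 1 (qsf 0 536870912 536870912 536870912 0) ndB1q0 ndB1q1 pcB0 Cut.none Ext.none)

def k0_pm_001 : ∃ t, chk3 f_pm_001 t 1 1 1 = true :=
  ⟨(l 4), by decide +kernel⟩

theorem c_pm_001 : CertB 0 536870912 536870912 536870912 923417968 42949674 3 eng mog cd1q0 cd1q1 pd0 false true false .up 0 0 1
    ndB1q0 ndB1q1 pcB0 Cut.none Ext.none :=
  certB0 (fam := false) (s1 := true) (s2 := false) (a := 0) (b := 0) (c := 1) (cn := .up) (n1 := ndB1q0) (n2 := ndB1q1) (pc := pcB0) (cut := Cut.none) (xt := Ext.none) (P1 := 0) (W1 := 536870912) (P2 := 536870912) (W2 := 536870912) (P3 := 923417968) (W3 := 42949674) (N0 := 3) (En := eng) (mo := mog) (C1 := cd1q0) (C2 := cd1q1) (C3 := pd0)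
    rfl k0_pm_001

noncomputable def f_pm_011 : ℕ → ℕ → ℕ → ℕ → Bool := onCell 0 536870912 536870912 536870912 923417968 42949674
    (rowB 3 eng mog cd1q0 cd1q1 pd1 0 false true false .pnn 0 1 1 (qsf 0 536870912 536870912 536870912 1) ndB1q0 ndB1q1 pcB1 Cut.none Ext.none)

def k0_pm_011 : ∃ t, chk3 f_pm_011 t 1 1 1 = true :=
  ⟨(l 4), by decide +kernel⟩

theorem c_pm_011 : CertB 0 536870912 536870912 536870912 923417968 42949674 3 eng mog cd1q0 cd1q1 pd1 false true false .pnn 0 1 1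
    ndB1q0 ndB1q1 pcB1 Cut.none Ext.none :=
  certB0 (fam := false) (s1 := true) (s2 := false) (a := 0) (b := 1) (c := 1) (cn := .pnn) (n1 := ndB1q0) (n2 := ndB1q1) (pc := pcB1) (cut := Cut.none) (xt := Ext.none) (P1 := 0) (W1 := 536870912) (P2 := 536870912) (W2 := 536870912) (P3 := 923417968) (W3 := 42949674) (N0 := 3) (En := eng) (mo := mog) (C1 := cd1q0) (C2 := cd1q1) (C3 := pd1)
    rfl k0_pm_011

noncomputable def cut_pm_012_a : Cut := Cut.of [[⟨0, 0, 0, 67108864⟩, ⟨1, 1, 0, 67108864⟩, ⟨2, 1, 0, 67108864⟩]]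

noncomputable def f_pm_012_a : ℕ → ℕ → ℕ → ℕ → Bool := onCell 536870912 536870912 0 536870912 923417968 42949674
    (rowB 3 eng mog cd1q0 cd1q2a pd1 2 false true false .pnp 0 1 2 (qsf 0 536870912 0 536870912 1) ndB1q0 ndB1q2a pcB1 cut_pm_012_a Ext.none)

def k0_pm_012_a : ∃ t, chk3 f_pm_012_a t 2 1 1 = true :=
  ⟨(b (a (b (l 2) (a (l 2) (l 16126008))) (b (a (l 16053760) (l 16037920)) (a (l 16114856) (l 16175752)))) (a (a (b (l 2) (b (b (l 16265800) (l 16279896)) (l 16280512))) (b (b (c (l 16148184) (l 16092984)) (l 16199256)) (b (b (l 16270768) (l 16299656)) (b (l 16317432) (l 16344152))))) (b (b (b (l 15980456) (a (l 16017720) (l 16038440))) (a (c (l 16184616) (l 16177376)) (a (l 16166272) (b (l 16118880) (l 16193448))))) (b (a (b (l 16274376) (l 16320664)) (b (c (l 16257504) (l 16295464)) (l 16342120))) (a (b (l 16359664) (l 16409376)) (a (l 16426208) (l 16307656))))))), by decide +kernel⟩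

def k1_pm_012_a : ∃ t, chk3 f_pm_012_a t 3 2 1 = true :=
  ⟨(a (b (a (l 16094360) (l 16012824)) (a (b (l 16009024) (l 16020536)) (b (l 16004512) (l 16016696)))) (a (b (a (l 16040704) (l 16047672)) (a (l 16077104) (b (l 16010992) (l 16024992)))) (b (a (l 16056200) (l 16065968)) (a (b (l 16017112) (l 16032280)) (b (l 16024872) (l 16041520)))))), by decide +kernel⟩

def k2_pm_012_a : ∃ t, chk3 f_pm_012_a t 3 6 1 = true :=
  ⟨(a (a (b (l 16057008) (b (a (l 16110736) (l 16107640)) (a (l 16185552) (l 16050800)))) (b (a (l 16056824) (l 16060072)) (b (l 16132648) (a (c (l 16187896) (l 16152088)) (a (l 16169112) (l 16151008)))))) (a (b (a (l 16065896) (l 16074264)) (a (b (l 16124896) (a (b (l 16161032) (l 16191624)) (l 16183384))) (l 16166656))) (b (a (l 16168952) (a (l 16094528) (l 16101584))) (a (a (l 16157976) (l 16167104)) (a (l 16187360) (b (l 16174440) (l 16241616))))))), by decide +kernel⟩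

def k3_pm_012_a : ∃ t, chk3 f_pm_012_a t 6 7 1 = true :=
  ⟨(a (b (b (a (l 16212208) (l 16272640)) (a (l 16357824) (l 16366696))) (a (b (l 16436672) (l 16511992)) (b (l 16457416) (l 16539360)))) (b (b (a (l 16164296) (c (l 16269488) (l 16216808))) (a (c (l 16358376) (l 16348208)) (b (l 16184216) (l 16386104)))) (a (b (l 16475216) (l 16570920)) (b (l 16489976) (b (l 16580600) (l 16592976)))))), by decide +kernel⟩

def k4_pm_012_a : ∃ t, chk3 f_pm_012_a t 7 7 1 = true :=
  ⟨(a (b (b (a (b (a (l 16210848) (l 16235480)) (c (l 16274880) (l 16236448))) (b (l 16248176) (a (b (l 16273576) (l 16277816)) (b (l 16283280) (l 16305392))))) (b (a (a (l 16350848) (l 16349040)) (a (l 16346552) (a (l 16344536) (l 16346000)))) (a (a (l 16412008) (l 16393072)) (a (c (l 16410336) (l 16419512)) (a (l 16413672) (l 16412536)))))) (b (a (c (l 16449768) (l 16513648)) (b (a (l 16478856) (c (l 16476808) (l 16488360))) (a (l 16542136) (l 16548168)))) (a (a (l 16544872) (b (l 16602216)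 (l 16644640))) (b (a (l 16609728) (l 16616960)) (a (l 16645648) (l 345442511031)))))) (a (a (a (b (b (l 16282296) (b (l 16350008) (c (l 16416856) (l 16405264)))) (b (b (c (l 16481240) (l 16488072)) (l 16552848)) (b (l 16622424) (l 16656296)))) (b (b (l 16288304) (b (l 16355688) (b (l 16395008) (l 16406856)))) (b (b (c (l 16483800) (l 16485440)) (l 16534984)) (b (l 16605200) (l 380339173703))))) (b (b (l 16297688) (a (b (l 16362856) (b (l 16400888) (l 16408864))) (l 16396336))) (a (b (b (b (l 16443048) (l 16502840)) (c (l 16555232) (l 16520104))) (b (l 16588136) (l 6))) (b (a (b (b (l 16464472) (l 16501848)) (b (l 16541800) (l 16579296))) (b (b (l 16467224) (l 16480240)) (b (l 16541240) (l 6)))) (l 6))))) (b (b (a (l 16310760) (b (l 16301632) (l 16347272))) (a (a (l 16404240) (l 16412320)) (a (l 16420584) (b (l 16401392) (l 6))))) (a (b (a (b (b (l 16473416) (a (l 16481744) (l 6))) (l 6)) (l 6)) (l 6)) (l 6))))), by decide +kernel⟩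

theorem s5_pm_012_a : ∃ t, chk3 f_pm_012_a t 3 7 1 = true := ex3_a k3_pm_012_a k4_pm_012_a

theorem s6_pm_012_a : ∃ t, chk3 f_pm_012_a t 3 3 1 = true := ex3_b k2_pm_012_a s5_pm_012_a

theorem s7_pm_012_a : ∃ t, chk3 f_pm_012_a t 3 1 1 = true := ex3_b k1_pm_012_a s6_pm_012_a

theorem s8_pm_012_a : ∃ t, chk3 f_pm_012_a t 1 1 1 = true := ex3_a k0_pm_012_a s7_pm_012_a

theorem c_pm_012_a : CertB 0 536870912 0 536870912 923417968 42949674 3 eng mog cd1q0 cd1q2a pd1 false true false .pnp 0 1 2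
    ndB1q0 ndB1q2a pcB1 cut_pm_012_a Ext.none :=
  certB2 (fam := false) (s1 := true) (s2 := false) (a := 0) (b := 1) (c := 2) (cn := .pnp) (n1 := ndB1q0) (n2 := ndB1q2a) (pc := pcB1) (cut := cut_pm_012_a) (xt := Ext.none) (P1 := 0) (W1 := 536870912) (P2 := 0) (W2 := 536870912) (P3 := 923417968) (W3 := 42949674) (N0 := 3) (En := eng) (mo := mog) (C1 := cd1q0) (C2 := cd1q2a) (C3 := pd1)
    rfl (fun _ => rfl) s8_pm_012_a

noncomputable def cut_pm_012_b : Cut := Cut.of [[⟨0, 0, 0, 67108864⟩, ⟨1, 1, 0, 67108864⟩, ⟨2, 1, 0, 67108864⟩]]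

noncomputable def f_pm_012_b : ℕ → ℕ → ℕ → ℕ → Bool := onCell 536870912 536870912 1239849684 370763052 923417968 42949674
    (rowB 3 eng mog cd1q0 cd1q2b pd1 2 false true false .pnp 0 1 2 (qsf 0 536870912 1239849684 370763052 1) ndB1q0 ndB1q2b pcB1 cut_pm_012_b Ext.none)

def k0_pm_012_b : ∃ t, chk3 f_pm_012_b t 1 1 1 = true :=
  ⟨(a (a (l 2) (b (b (a (l 15995616) (l 15964088)) (a (l 2) (l 15832168))) (l 2))) (b (a (b (a (a (l 15945072) (l 15934952)) (b (l 15994272) (l 15855832))) (a (l 15760440) (l 15670792))) (b (a (b (l 15997440) (l 15830464)) (b (a (l 16002992) (l 16008064)) (l 15808648))) (a (b (l 15686624) (l 15566656)) (a (l 15575216) (l 15542272))))) (a (b (a (l 2) (l 15552528)) (l 2)) (a (b (l 15434392) (l 15343008)) (b (l 15522584) (l 15170576)))))), by decide +kernel⟩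

theorem c_pm_012_b : CertB 0 536870912 1239849684 370763052 923417968 42949674 3 eng mog cd1q0 cd1q2b pd1 false true false .pnp 0 1 2
    ndB1q0 ndB1q2b pcB1 cut_pm_012_b Ext.none :=
  certB2 (fam := false) (s1 := true) (s2 := false) (a := 0) (b := 1) (c := 2) (cn := .pnp) (n1 := ndB1q0) (n2 := ndB1q2b) (pc := pcB1) (cut := cut_pm_012_b) (xt := Ext.none) (P1 := 0) (W1 := 536870912) (P2 := 1239849684) (W2 := 370763052) (P3 := 923417968) (W3 := 42949674) (N0 := 3) (En := eng) (mo := mog) (C1 := cd1q0) (C2 := cd1q2b) (C3 := pd1)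
    rfl (fun _ => rfl) k0_pm_012_b

noncomputable def cut_pm_022_a : Cut := Cut.of [[⟨0, 0, 0, 67108864⟩, ⟨1, 1, 0, 67108864⟩, ⟨2, 1, 0, 67108864⟩]]

noncomputable def f_pm_022_a : ℕ → ℕ → ℕ → ℕ → Bool := onCell 0 536870912 0 536870912 923417968 42949674
    (rowB 3 eng mog cd1q0 cd1q2a pd2 0 false true false .pp 0 2 2 (qsf 0 536870912 0 536870912 2) ndB1q0 ndB1q2a pcB2 cut_pm_022_a Ext.none)

def k0_pm_022_a : ∃ t, chk3 f_pm_022_a t 2 2 1 = true :=
  ⟨(a (a (b (a (b (a (l 16334784) (l 16377288)) (a (b (l 16346400) (l 16357312)) (l 16399400))) (b (l 16439872) (l 16468752))) (a (b (a (b (l 16371064) (l 16367080)) (b (l 16422224) (l 16441544))) (a (b (c (l 16410432) (l 16406928)) (a (l 16418376) (l 16447736))) (b (l 16464360) (l 16490984)))) (b (a (l 16482712) (l 16429192)) (a (l 16481536) (l 16416120))))) (b (a (b (l 16407480) (l 16370776)) (b (l 16319536) (l 16265400))) (a (b (l 16256672) (a (l 16348568) (l 16279472))) (b (l 16217784) (b (l 16184392)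 (l 16163304)))))) (a (a (b (b (l 16229376) (l 16157888)) (b (l 16093416) (b (l 16047880) (l 16019072)))) (b (b (l 1) (l 1)) (l 1))) (l 1))), by decide +kernel⟩

def k1_pm_022_a : ∃ t, chk3 f_pm_022_a t 2 3 1 = true :=
  ⟨(a (b (a (a (b (b (a (c (l 16421368) (l 16418680)) (l 16521680)) (a (c (l 16412352) (l 16410296)) (l 16554352))) (a (b (b (c (l 16481792) (l 16480280)) (c (l 16501640) (l 16500600))) (a (b (l 16526808) (l 16528056)) (l 16528848))) (b (l 16559536) (c (l 16567288) (l 16563776))))) (b (b (l 16401880) (a (l 16479632) (l 16402560))) (b (a (l 16459000) (l 16398320)) (a (l 16418328) (l 16395176))))) (b (a (b (l 16295352) (a (l 16323808) (l 16244016))) (b (l 16142968) (c (l 16132296) (l 16115024)))) (a (b (a (l 16315272) (l 16231488)) (a (l 16308064) (l 16199600))) (b (c (l 16114656) (l 16096800)) (l 1))))) (a (b (b (a (a (a (b (l 16543528) (a (l 16588256) (l 16605160))) (b (l 16626504) (l 16641224))) (a (l 16594888) (l 16529960))) (a (b (l 16483120)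 (l 16485072)) (b (l 16393928) (l 16393904)))) (a (l 6) (a (l 6) (a (l 6) (a (l 6) (l 1)))))) (a (l 6) (a (l 6) (l 1)))) (b (a (b (a (b (l 16303984) (l 16281232)) (l 1)) (l 1)) (l 1)) (l 1)))) (b (l 1) (l 1))), by decide +kernel⟩

def k2_pm_022_a : ∃ t, chk3 f_pm_022_a t 3 1 1 = true :=
  ⟨(l 1), by decide +kernel⟩

theorem s3_pm_022_a : ∃ t, chk3 f_pm_022_a t 2 1 1 = true := ex3_b k0_pm_022_a k1_pm_022_a

theorem s4_pm_022_a : ∃ t, chk3 f_pm_022_a t 1 1 1 = true := ex3_a s3_pm_022_a k2_pm_022_a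

theorem c_pm_022_a : CertB 0 536870912 0 536870912 923417968 42949674 3 eng mog cd1q0 cd1q2a pd2 false true false .pp 0 2 2
    ndB1q0 ndB1q2a pcB2 cut_pm_022_a Ext.none :=
  certB0 (fam := false) (s1 := true) (s2 := false) (a := 0) (b := 2) (c := 2) (cn := .pp) (n1 := ndB1q0) (n2 := ndB1q2a) (pc := pcB2) (cut := cut_pm_022_a) (xt := Ext.none) (P1 := 0) (W1 := 536870912) (P2 := 0) (W2 := 536870912) (P3 := 923417968) (W3 := 42949674) (N0 := 3) (En := eng) (mo := mog) (C1 := cd1q0) (C2 := cd1q2a) (C3 := pd2)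
    rfl s4_pm_022_a

noncomputable def cut_pm_022_b : Cut := Cut.of [[⟨0, 0, 0, 67108864⟩, ⟨1, 1, 0, 67108864⟩, ⟨2, 1, 0, 67108864⟩]]

noncomputable def f_pm_022_b : ℕ → ℕ → ℕ → ℕ → Bool := onCell 0 536870912 1073741824 536870912 923417968 42949674
    (rowB 3 eng mog cd1q0 cd1q2b pd2 1 false true false .pp 0 2 2 (qsf 0 536870912 1239849684 370763052 2) ndB1q0 ndB1q2b pcB2 cut_pm_022_b Ext.none)

def k0_pm_022_b : ∃ t, chk3 f_pm_022_b t 1 1 1 = true :=
  ⟨(b (b (a (a (a (b (l 1) (b (l 775811301607) (a (l 573947558039) (l 16426088)))) (b (b (a (l 1) (l 16441800)) (a (l 16435504) (l 16261296))) (b (a (l 16424408) (l 16264632)) (l 16270312)))) (b (a (b (a (l 16242752) (l 16097272)) (l 15915312)) (b (l 15871304) (l 15821400))) (a (b (l 16043848) (l 15997152)) (b (l 15786304) (l 15763992))))) (a (b (a (l 15598776) (l 15406312)) (a (l 15573064) (l 15420064))) (b (a (l 15268648) (l 15186832)) (l 15284760)))) (a (a (a (a (b (b (a (l 193306075207) (l 16357432))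 (a (l 16253784) (l 16313000))) (b (l 16212080) (l 16196368))) (b (b (l 16385864) (l 16336432)) (l 16250320))) (b (b (l 16208920) (l 16157168)) (l 16091720))) (b (a (l 15779344) (l 15749152)) (a (l 15905224) (l 15751408)))) (a (b (a (l 15591056) (l 15474840)) (l 15587800)) (b (l 15382328) (l 2))))) (b (a (a (b (a (b (l 16141800) (l 16069216)) (l 16026560)) (a (b (l 15992032) (l 15911704)) (l 15981952))) (b (l 15824464) (l 15842712))) (a (b (l 15662640) (l 2)) (l 2))) (a (b (a (a (l 15954984) (l 15850000)) (l 15868760)) (a (a (b (l 15662320) (l 15590152)) (l 15725432)) (l 2))) (l 2)))), by decide +kernel⟩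

theorem c_pm_022_b : CertB 0 536870912 1239849684 370763052 923417968 42949674 3 eng mog cd1q0 cd1q2b pd2 false true false .pp 0 2 2
    ndB1q0 ndB1q2b pcB2 cut_pm_022_b Ext.none :=
  certB1 (fam := false) (s1 := true) (s2 := false) (a := 0) (b := 2) (c := 2) (cn := .pp) (n1 := ndB1q0) (n2 := ndB1q2b) (pc := pcB2) (cut := cut_pm_022_b) (xt := Ext.none) (P1 := 0) (W1 := 536870912) (P2 := 1239849684) (W2 := 370763052) (P3 := 923417968) (W3 := 42949674) (N0 := 3) (En := eng) (mo := mog) (C1 := cd1q0) (C2 := cd1q2b) (C3 := pd2)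
    rfl (fun _ => rfl) k0_pm_022_b

noncomputable def f_pm_023 : ℕ → ℕ → ℕ → ℕ → Bool := onCell 1073741824 536870912 1610612736 536870912 923417968 42949674
    (rowB 3 eng mog cd1q0 cd1q3 pd2 2 false true false .up 0 2 3 (qsf 0 536870912 1610612736 536870912 2) ndB1q0 ndB1q3 pcB2 Cut.none Ext.none)

def k0_pm_023 : ∃ t, chk3 f_pm_023 t 1 1 1 = true :=
  ⟨(a (b (a (b (a (l 15124544) (l 15426624)) (a (l 2) (l 15392544))) (b (a (l 15532544) (l 15746416)) (a (l 15489448) (l 15612032)))) (a (l 2) (b (a (l 2) (l 15606960)) (l 2)))) (b (a (b (a (l 15879744) (l 15880968)) (a (l 15738808) (l 15852824))) (a (b (b (l 15630912) (l 15785416)) (l 15894320)) (b (b (a (l 15540528) (l 15432152)) (l 15598696)) (l 15807784)))) (a (b (a (l 15704256) (l 15813688)) (b (l 15809976) (l 2))) (b (a (l 15914288) (l 15953384)) (a (l 15941984) (l 15857328)))))), by decide +kernel⟩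

theorem c_pm_023 : CertB 0 536870912 1610612736 536870912 923417968 42949674 3 eng mog cd1q0 cd1q3 pd2 false true false .up 0 2 3
    ndB1q0 ndB1q3 pcB2 Cut.none Ext.none :=
  certB2 (fam := false) (s1 := true) (s2 := false) (a := 0) (b := 2) (c := 3) (cn := .up) (n1 := ndB1q0) (n2 := ndB1q3) (pc := pcB2) (cut := Cut.none) (xt := Ext.none) (P1 := 0) (W1 := 536870912) (P2 := 1610612736) (W2 := 536870912) (P3 := 923417968) (W3 := 42949674) (N0 := 3) (En := eng) (mo := mog) (C1 := cd1q0) (C2 := cd1q3) (C3 := pd2)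
    rfl (fun _ => rfl) k0_pm_023

noncomputable def f_pm_033 : ℕ → ℕ → ℕ → ℕ → Bool := onCell 0 536870912 1610612736 536870912 923417968 42949674
    (rowB 3 eng mog cd1q0 cd1q3 pd3 1 false true false .pnn 0 3 3 (qsf 0 536870912 1610612736 536870912 3) ndB1q0 ndB1q3 pcB3 Cut.none Ext.none)

def k0_pm_033 : ∃ t, chk3 f_pm_033 t 1 1 1 = true :=
  ⟨(a (b (b (l 4) (l 4)) (a (l 4) (b (l 4) (a (b (l 4) (l 2)) (l 2))))) (b (a (b (l 4) (l 4)) (b (b (a (b (l 16129224) (l 4)) (l 16340440)) (a (l 4) (l 16479200))) (a (b (l 4) (l 2)) (l 2)))) (a (b (a (b (l 4) (l 2)) (l 2)) (l 2)) (l 2)))), by decide +kernel⟩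

theorem c_pm_033 : CertB 0 536870912 1610612736 536870912 923417968 42949674 3 eng mog cd1q0 cd1q3 pd3 false true false .pnn 0 3 3
    ndB1q0 ndB1q3 pcB3 Cut.none Ext.none :=
  certB1 (fam := false) (s1 := true) (s2 := false) (a := 0) (b := 3) (c := 3) (cn := .pnn) (n1 := ndB1q0) (n2 := ndB1q3) (pc := pcB3) (cut := Cut.none) (xt := Ext.none) (P1 := 0) (W1 := 536870912) (P2 := 1610612736) (W2 := 536870912) (P3 := 923417968) (W3 := 42949674) (N0 := 3) (En := eng) (mo := mog) (C1 := cd1q0) (C2 := cd1q3) (C3 := pd3)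
    rfl (fun _ => rfl) k0_pm_033

noncomputable def f_pm_101 : ℕ → ℕ → ℕ → ℕ → Bool := onCell 536870912 536870912 536870912 536870912 923417968 42949674
    (rowB 3 eng mog cd1q1 cd1q1 pd0 0 false true false .npn 1 0 1 (qsf 536870912 536870912 536870912 536870912 0) ndB1q1 ndB1q1 pcB0 Cut.none Ext.none)

def k0_pm_101 : ∃ t, chk3 f_pm_101 t 1 1 1 = true :=
  ⟨(l 4), by decide +kernel⟩

theorem c_pm_101 : CertB 536870912 536870912 536870912 536870912 923417968 42949674 3 eng mog cd1q1 cd1q1 pd0 false true false .npn 1 0 1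
    ndB1q1 ndB1q1 pcB0 Cut.none Ext.none :=
  certB0 (fam := false) (s1 := true) (s2 := false) (a := 1) (b := 0) (c := 1) (cn := .npn) (n1 := ndB1q1) (n2 := ndB1q1) (pc := pcB0) (cut := Cut.none) (xt := Ext.none) (P1 := 536870912) (W1 := 536870912) (P2 := 536870912) (W2 := 536870912) (P3 := 923417968) (W3 := 42949674) (N0 := 3) (En := eng) (mo := mog) (C1 := cd1q1) (C2 := cd1q1) (C3 := pd0)
    rfl k0_pm_101

noncomputable def f_pm_102_a : ℕ → ℕ → ℕ → ℕ → Bool := onCell 0 536870912 0 536870912 923417968 42949674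
    (rowB 3 eng mog cd1q1 cd1q2a pd0 2 false true false .npp 1 0 2 (qsf 536870912 536870912 0 536870912 0) ndB1q1 ndB1q2a pcB0 Cut.none Ext.none)

def k0_pm_102_a : ∃ t, chk3 f_pm_102_a t 2 1 1 = true :=
  ⟨(b (a (b (l 2) (a (l 2) (a (l 2) (a (l 2) (b (l 2) (b (l 2) (l 16485504))))))) (a (b (a (a (l 2) (l 16317944)) (b (l 16468840) (l 16571336))) (a (b (a (l 16605776) (l 16561192)) (a (l 16397336) (l 16445632))) (b (l 16370352) (a (b (l 16431968) (l 16366312)) (l 16283576))))) (b (a (l 16251192) (b (l 16405112) (l 16305240))) (b (a (l 16331976) (l 16195808)) (a (b (l 16247280) (l 16185984)) (b (l 16106560) (l 16046904))))))) (b (a (a (l 2) (b (a (l 2) (a (a (l 16415504) (l 16393416)) (l 16280352))) (a (a (l 16345760) (a (l 16292744) (l 16269056))) (a (l 16236760) (l 16191632))))) (a (a (a (b (l 16324464) (l 16148504)) (b (l 16287568) (l 16107104))) (b (a (l 16242072) (l 16173728)) (a (l 16060368) (l 15999768)))) (a (b (l 16073744) (l 15913040)) (b (l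 15946568) (c (l 15837688) (l 15773952)))))) (a (a (b (a (l 2) (b (l 16224536) (l 16197928))) (a (b (a (l 2) (l 16167400)) (a (l 16095136) (l 16037008))) (b (a (l 16107816) (l 16049896)) (l 15925320)))) (a (b (a (l 16155392) (l 15951256)) (b (a (l 15992472) (l 15937584)) (l 15837768))) (b (a (l 16048080) (l 15998440)) (b (a (l 15885904) (l 15836920)) (l 15833136))))) (a (a (b (a (l 15929368) (l 15883088)) (b (b (l 15810288) (l 15743096)) (l 15675288))) (b (c (l 15848176) (l 15795136)) (b (a (l 15707368) (l 15669680)) (l 15613768)))) (b (c (a (l 15884888) (l 15893176)) (b (l 15671816) (l 15576368))) (a (b (l 15745672) (l 15563720)) (c (l 15591840) (l 15494448)))))))), by decide +kernel⟩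

def k1_pm_102_a : ∃ t, chk3 f_pm_102_a t 3 1 1 = true :=
  ⟨(a (b (b (a (a (l 16003512) (l 16077328)) (a (l 16011976) (l 15913912))) (a (b (a (l 16066360) (l 15945376)) (b (l 15910952) (a (l 15915200) (l 15918480)))) (b (l 15784296) (b (l 15688712) (a (l 15848752) (l 15812504)))))) (b (a (b (c (l 15769432) (l 15759344)) (c (a (l 15747152) (l 15668096)) (l 15628640))) (b (c (a (l 15645048) (l 15562328)) (a (l 15607528) (l 15522320))) (c (a (l 15600744) (l 15545192)) (a (l 15510528) (l 15448744))))) (a (b (c (a (l 15810056) (l 15697648)) (b (l 15547912) (a (l 15489720) (l 15436584)))) (c (a (l 15558768) (l 15535136)) (a (l 15454992) (l 15426840)))) (b (c (b (l 15548600) (l 15638904)) (b (l 15414552) (a (l 15397008) (l 15370488)))) (c (b (l 15521680) (l 15762344)) (a (l 15409320) (l 15464960))))))) (b (b (a (a (l 15826384) (l 15750392)) (a (l 15686688) (l 15614864))) (a (b (l 15590904) (b (l 15520144) (a (l 15664440) (l 15489832)))) (a (b (l 15517800) (c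 (l 15403392) (l 15403792))) (b (l 15473320) (l 15364344))))) (b (a (c (b (a (l 15490896) (l 15430840)) (a (l 15501432) (l 15469400))) (b (a (l 15449768) (l 15389984)) (a (l 15400144) (l 15364736)))) (b (c (a (b (l 15366728) (l 15398128)) (b (l 15324344) (l 15367664))) (a (l 15344608) (l 15500560))) (c (a (l 15448960) (l 15439928)) (a (l 15342464) (l 15333216))))) (a (a (b (b (l 15439192) (c (l 15516208) (l 15356648))) (c (l 15537048) (l 15572360))) (b (b (l 15447344) (c (l 15517184) (l 15355112))) (c (l 15651480) (b (l 15394872) (l 15437928))))) (b (a (b (l 15509872) (c (l 15527896) (l 15365456))) (b (l 15584616) (c (l 15547912) (l 15387144)))) (b (c (l 15798512) (a (l 15412032) (l 15437720))) (c (a (l 15547552) (l 15571704)) (a (l 15460984) (l 15490600))))))))), by decide +kernel⟩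

theorem s2_pm_102_a : ∃ t, chk3 f_pm_102_a t 1 1 1 = true := ex3_a k0_pm_102_a k1_pm_102_a

theorem c_pm_102_a : CertB 536870912 536870912 0 536870912 923417968 42949674 3 eng mog cd1q1 cd1q2a pd0 false true false .npp 1 0 2
    ndB1q1 ndB1q2a pcB0 Cut.none Ext.none :=
  certB2 (fam := false) (s1 := true) (s2 := false) (a := 1) (b := 0) (c := 2) (cn := .npp) (n1 := ndB1q1) (n2 := ndB1q2a) (pc := pcB0) (cut := Cut.none) (xt := Ext.none) (P1 := 536870912) (W1 := 536870912) (P2 := 0) (W2 := 536870912) (P3 := 923417968) (W3 := 42949674) (N0 := 3) (En := eng) (mo := mog) (C1 := cd1q1) (C2 := cd1q2a) (C3 := pd0)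
    rfl (fun _ => rfl) s2_pm_102_a

noncomputable def f_pm_102_b : ℕ → ℕ → ℕ → ℕ → Bool := onCell 536870912 536870912 0 536870912 923417968 42949674
    (rowB 3 eng mog cd1q1 cd1q2b pd0 1 false true false .npp 1 0 2 (qsf 536870912 536870912 1239849684 370763052 0) ndB1q1 ndB1q2b pcB0 Cut.none Ext.none)

def k0_pm_102_b : ∃ t, chk3 f_pm_102_b t 1 1 1 = true :=
  ⟨(a (b (l 1) (b (l 1) (a (l 1) (b (a (l 1) (b (l 235181721463) (l 239476535831))) (a (c (l 243234460215) (l 237329024727)) (c (l 15761224) (l 15810400))))))) (b (a (l 1) (b (l 1) (a (b (l 1) (b (l 308733311111) (l 191158684311))) (b (b (b (l 1) (l 352756929319)) (a (l 16642656) (l 16521728))) (a (l 16326624) (l 16346120)))))) (b (a (b (a (l 1) (b (l 16078096) (l 16212200))) (a (b (l 15891992) (l 16014800)) (b (l 16143368) (l 16080936)))) (a (b (a (l 16218336) (l 16345632)) (b (l 16227448) (l 16169280))) (b (a (l 16396608) (b (l 16489768) (l 16422800))) (a (l 16276984) (l 16323360))))) (a (b (a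 (a (l 15891696) (l 15941944)) (l 15998512)) (a (l 15813432) (l 15909240))) (a (b (l 16028480) (l 16004856)) (b (a (l 16133600) (l 16207040)) (l 16093976))))))), by decide +kernel⟩

theorem c_pm_102_b : CertB 536870912 536870912 1239849684 370763052 923417968 42949674 3 eng mog cd1q1 cd1q2b pd0 false true false .npp 1 0 2
    ndB1q1 ndB1q2b pcB0 Cut.none Ext.none :=
  certB1 (fam := false) (s1 := true) (s2 := false) (a := 1) (b := 0) (c := 2) (cn := .npp) (n1 := ndB1q1) (n2 := ndB1q2b) (pc := pcB0) (cut := Cut.none) (xt := Ext.none) (P1 := 536870912) (W1 := 536870912) (P2 := 1239849684) (W2 := 370763052) (P3 := 923417968) (W3 := 42949674) (N0 := 3) (En := eng) (mo := mog) (C1 := cd1q1) (C2 := cd1q2b) (C3 := pd0)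
    rfl (fun _ => rfl) k0_pm_102_b

noncomputable def f_pm_112_a : ℕ → ℕ → ℕ → ℕ → Bool := onCell 536870912 536870912 0 536870912 923417968 42949674
    (rowB 3 eng mog cd1q1 cd1q2a pd1 2 false true false .dn 1 1 2 (qsf 536870912 536870912 0 536870912 1) ndB1q1 ndB1q2a pcB1 Cut.none Ext.none)

def k0_pm_112_a : ∃ t, chk3 f_pm_112_a t 1 1 1 = true :=
  ⟨(a (b (a (b (a (c (l 15549080) (l 15609120)) (c (l 15497464) (l 15554456))) (a (c (l 15580632) (l 15598896)) (c (l 15515328) (l 15533056)))) (a (b (c (l 15436640) (l 15487296)) (c (l 136933422231) (l 15453608))) (l 1))) (a (b (b (a (c (l 15717456) (b (l 15609000) (l 15645744))) (c (b (l 15538912) (l 15552456)) (b (l 15535792) (l 15563320)))) (a (a (l 15667144) (l 15641016)) (c (l 135860010935) (l 15645376)))) (b (a (b (a (l 15733176) (l 15713448)) (a (l 15742144) (l 15725040))) (b (c (l 15619208) (l 15731576)) (l 1))) (a (a (l 99888915063) (l 359197570839)) (l 1)))) (b (l 1) (l 1)))) (l 1)), by decide +kernel⟩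

theorem c_pm_112_a : CertB 536870912 536870912 0 536870912 923417968 42949674 3 eng mog cd1q1 cd1q2a pd1 false true false .dn 1 1 2
    ndB1q1 ndB1q2a pcB1 Cut.none Ext.none :=
  certB2 (fam := false) (s1 := true) (s2 := false) (a := 1) (b := 1) (c := 2) (cn := .dn) (n1 := ndB1q1) (n2 := ndB1q2a) (pc := pcB1) (cut := Cut.none) (xt := Ext.none) (P1 := 536870912) (W1 := 536870912) (P2 := 0) (W2 := 536870912) (P3 := 923417968) (W3 := 42949674) (N0 := 3) (En := eng) (mo := mog) (C1 := cd1q1) (C2 := cd1q2a) (C3 := pd1)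
    rfl (fun _ => rfl) k0_pm_112_a

noncomputable def f_pm_112_b : ℕ → ℕ → ℕ → ℕ → Bool := onCell 536870912 536870912 1239849684 370763052 923417968 42949674
    (rowB 3 eng mog cd1q1 cd1q2b pd1 2 false true false .dn 1 1 2 (qsf 536870912 536870912 1239849684 370763052 1) ndB1q1 ndB1q2b pcB1 Cut.none Ext.none)

def k0_pm_112_b : ∃ t, chk3 f_pm_112_b t 1 1 1 = true :=
  ⟨(a (a (b (b (a (c (l 15678424) (l 15592376)) (c (b (l 15477400) (l 15449088)) (l 15539696))) (a (c (l 15479696) (l 15561232)) (c (l 15424376) (l 15500024)))) (b (a (c (l 15485424) (l 15564864)) (c (l 15425608) (l 15497856))) (a (b (l 15614856) (a (c (l 15606512) (l 15664760)) (l 15575792))) (c (l 15473096) (l 15537608))))) (b (b (a (c (b (l 15422720) (l 15388632)) (l 15474200)) (c (l 345239133415) (l 15479392))) (a (c (l 15357384) (l 15424048)) (c (l 15277560) (l 15332304)))) (b (a (c (l 15352984) (l 15414936)) (c (l 15265264) (l 15314032))) (a (c (l 15397592) (l 15451160)) (l 15323336)))))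 (a (b (b (l 1) (a (c (l 15184120) (l 15224208)) (c (l 15076528) (l 15099496)))) (b (a (c (l 15160752) (l 15193816)) (c (l 15038256) (l 15053528))) (a (l 15204400) (l 15062680)))) (b (l 1) (b (a (l 251822746247) (l 1)) (a (l 15106608) (l 269002242535)))))), by decide +kernel⟩

theorem c_pm_112_b : CertB 536870912 536870912 1239849684 370763052 923417968 42949674 3 eng mog cd1q1 cd1q2b pd1 false true false .dn 1 1 2
    ndB1q1 ndB1q2b pcB1 Cut.none Ext.none :=
  certB2 (fam := false) (s1 := true) (s2 := false) (a := 1) (b := 1) (c := 2) (cn := .dn) (n1 := ndB1q1) (n2 := ndB1q2b) (pc := pcB1) (cut := Cut.none) (xt := Ext.none) (P1 := 536870912) (W1 := 536870912) (P2 := 1239849684) (W2 := 370763052) (P3 := 923417968) (W3 := 42949674) (N0 := 3) (En := eng) (mo := mog) (C1 := cd1q1) (C2 := cd1q2b) (C3 := pd1)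
    rfl (fun _ => rfl) k0_pm_112_b

noncomputable def f_pm_113 : ℕ → ℕ → ℕ → ℕ → Bool := onCell 536870912 536870912 536870912 536870912 923417968 42949674
    (rowB 3 eng mog cd1q1 cd1q3 pd1 1 false true false .nn 1 1 3 (qsf 536870912 536870912 1610612736 536870912 1) ndB1q1 ndB1q3 pcB1 Cut.none Ext.none)

def k0_pm_113 : ∃ t, chk3 f_pm_113 t 1 1 1 = true :=
  ⟨(b (a (b (l 1) (a (l 1) (a (l 1) (b (l 1) (l 15293848))))) (b (a (a (l 1) (b (l 1) (l 15507008))) (a (b (l 250213238279) (l 15556304)) (b (a (c (l 15409344) (l 15460096)) (l 15511936)) (a (l 15467056) (l 15558072))))) (a (b (a (l 15346016) (l 15372904)) (a (l 15320048) (l 15385144))) (a (b (l 15441880) (l 15504144)) (b (a (l 15534520) (l 15637680)) (l 15723336)))))) (b (a (a (b (l 1) (a (l 1) (l 15131016))) (b (a (l 15222576) (l 15246832)) (a (l 15151144) (l 15206792)))) (a (b (a (l 15308248) (l 15421544)) (a (l 15312944) (l 15491504))) (a (b (l 15606752) (l 15775480)) (b (l 15889728) (l 16213128)))))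 (a (a (b (a (l 15018488) (l 15031936)) (a (l 14888416) (l 14923592))) (b (a (l 15078880) (l 15174112)) (a (l 15003712) (l 15150928)))) (a (b (a (l 15340512) (l 15616672)) (l 15597880)) (b (a (l 16075752) (l 16789600)) (a (l 16675816) (l 16916400))))))), by decide +kernel⟩

theorem c_pm_113 : CertB 536870912 536870912 1610612736 536870912 923417968 42949674 3 eng mog cd1q1 cd1q3 pd1 false true false .nn 1 1 3
    ndB1q1 ndB1q3 pcB1 Cut.none Ext.none :=
  certB1 (fam := false) (s1 := true) (s2 := false) (a := 1) (b := 1) (c := 3) (cn := .nn) (n1 := ndB1q1) (n2 := ndB1q3) (pc := pcB1) (cut := Cut.none) (xt := Ext.none) (P1 := 536870912) (W1 := 536870912) (P2 := 1610612736) (W2 := 536870912) (P3 := 923417968) (W3 := 42949674) (N0 := 3) (En := eng) (mo := mog) (C1 := cd1q1) (C2 := cd1q3) (C3 := pd1)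
    rfl (fun _ => rfl) k0_pm_113

noncomputable def f_pm_123 : ℕ → ℕ → ℕ → ℕ → Bool := onCell 1073741824 536870912 1610612736 536870912 923417968 42949674
    (rowB 3 eng mog cd1q1 cd1q3 pd2 2 false true false .npn 1 2 3 (qsf 536870912 536870912 1610612736 536870912 2) ndB1q1 ndB1q3 pcB2 Cut.none Ext.none)

def k0_pm_123 : ∃ t, chk3 f_pm_123 t 1 1 1 = true :=
  ⟨(a (b (a (b (a (b (l 15011784) (l 15054632)) (b (l 15204936) (l 15223472))) (a (b (l 15144632) (l 15303176)) (b (l 15277080) (l 15380384)))) (b (a (l 371008149799) (l 1)) (a (l 15483352) (l 15670120)))) (a (b (a (b (l 15565768) (l 15997912)) (l 15722912)) (a (b (l 16528904) (l 16866752)) (b (l 16254192) (l 16495160)))) (b (a (l 15722248) (l 15826064)) (b (a (l 16123168) (l 16113624)) (a (l 16362584) (l 16326552)))))) (b (a (b (l 1) (a (l 15871976) (l 1))) (l 1)) (a (b (a (l 15968944) (l 16139496)) (b (l 16222368) (a (l 16365792) (l 16461104)))) (b (a (l 16326840) (l 1)) (a (b (l 16427608) (l 16568736))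 (l 333967475511)))))), by decide +kernel⟩

theorem c_pm_123 : CertB 536870912 536870912 1610612736 536870912 923417968 42949674 3 eng mog cd1q1 cd1q3 pd2 false true false .npn 1 2 3
    ndB1q1 ndB1q3 pcB2 Cut.none Ext.none :=
  certB2 (fam := false) (s1 := true) (s2 := false) (a := 1) (b := 2) (c := 3) (cn := .npn) (n1 := ndB1q1) (n2 := ndB1q3) (pc := pcB2) (cut := Cut.none) (xt := Ext.none) (P1 := 536870912) (W1 := 536870912) (P2 := 1610612736) (W2 := 536870912) (P3 := 923417968) (W3 := 42949674) (N0 := 3) (En := eng) (mo := mog) (C1 := cd1q1) (C2 := cd1q3) (C3 := pd2)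
    rfl (fun _ => rfl) k0_pm_123

noncomputable def f_pm_133 : ℕ → ℕ → ℕ → ℕ → Bool := onCell 536870912 536870912 1610612736 536870912 923417968 42949674
    (rowB 3 eng mog cd1q1 cd1q3 pd3 0 false true false .dn 1 3 3 (qsf 536870912 536870912 1610612736 536870912 3) ndB1q1 ndB1q3 pcB3 Cut.none Ext.none)

def k0_pm_133 : ∃ t, chk3 f_pm_133 t 1 1 1 = true :=
  ⟨(a (b (l 1) (a (b (l 1) (b (l 1) (a (l 16700904) (l 1)))) (l 1))) (l 1)), by decide +kernel⟩

theorem c_pm_133 : CertB 536870912 536870912 1610612736 536870912 923417968 42949674 3 eng mog cd1q1 cd1q3 pd3 false true false .dn 1 3 3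
    ndB1q1 ndB1q3 pcB3 Cut.none Ext.none :=
  certB0 (fam := false) (s1 := true) (s2 := false) (a := 1) (b := 3) (c := 3) (cn := .dn) (n1 := ndB1q1) (n2 := ndB1q3) (pc := pcB3) (cut := Cut.none) (xt := Ext.none) (P1 := 536870912) (W1 := 536870912) (P2 := 1610612736) (W2 := 536870912) (P3 := 923417968) (W3 := 42949674) (N0 := 3) (En := eng) (mo := mog) (C1 := cd1q1) (C2 := cd1q3) (C3 := pd3)
    rfl k0_pm_133

noncomputable def cut_pm_202_aa : Cut := Cut.of [[⟨0, 1, 0, 67108864⟩, ⟨1, 0, 0, 67108864⟩, ⟨2, 1, 0, 67108864⟩]]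

noncomputable def f_pm_202_aa : ℕ → ℕ → ℕ → ℕ → Bool := onCell 0 536870912 0 536870912 923417968 42949674
    (rowB 3 eng mog cd1q2a cd1q2a pd0 0 false true false .pp 2 0 2 (qsf 0 536870912 0 536870912 0) ndB1q2a ndB1q2a pcB0 cut_pm_202_aa Ext.none)

def k0_pm_202_aa : ∃ t, chk3 f_pm_202_aa t 1 1 1 = true :=
  ⟨(a (l 3) (b (l 3) (a (l 3) (b (l 3) (b (l 3) (a (l 3) (l 6))))))), by decide +kernel⟩

theorem c_pm_202_aa : CertB 0 536870912 0 536870912 923417968 42949674 3 eng mog cd1q2a cd1q2a pd0 false true false .pp 2 0 2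
    ndB1q2a ndB1q2a pcB0 cut_pm_202_aa Ext.none :=
  certB0 (fam := false) (s1 := true) (s2 := false) (a := 2) (b := 0) (c := 2) (cn := .pp) (n1 := ndB1q2a) (n2 := ndB1q2a) (pc := pcB0) (cut := cut_pm_202_aa) (xt := Ext.none) (P1 := 0) (W1 := 536870912) (P2 := 0) (W2 := 536870912) (P3 := 923417968) (W3 := 42949674) (N0 := 3) (En := eng) (mo := mog) (C1 := cd1q2a) (C2 := cd1q2a) (C3 := pd0)
    rfl k0_pm_202_aa

noncomputable def cut_pm_202_ab : Cut := Cut.of [[⟨0, 1, 0, 67108864⟩, ⟨1, 0, 0, 67108864⟩, ⟨2, 1, 0, 67108864⟩]]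

noncomputable def f_pm_202_ab : ℕ → ℕ → ℕ → ℕ → Bool := onCell 0 536870912 1239849684 370763052 923417968 42949674
    (rowB 3 eng mog cd1q2a cd1q2b pd0 0 false true false .pp 2 0 2 (qsf 0 536870912 1239849684 370763052 0) ndB1q2a ndB1q2b pcB0 cut_pm_202_ab Ext.none)

def k0_pm_202_ab : ∃ t, chk3 f_pm_202_ab t 1 1 1 = true :=
  ⟨(l 3), by decide +kernel⟩

theorem c_pm_202_ab : CertB 0 536870912 1239849684 370763052 923417968 42949674 3 eng mog cd1q2a cd1q2b pd0 false true false .pp 2 0 2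
    ndB1q2a ndB1q2b pcB0 cut_pm_202_ab Ext.none :=
  certB0 (fam := false) (s1 := true) (s2 := false) (a := 2) (b := 0) (c := 2) (cn := .pp) (n1 := ndB1q2a) (n2 := ndB1q2b) (pc := pcB0) (cut := cut_pm_202_ab) (xt := Ext.none) (P1 := 0) (W1 := 536870912) (P2 := 1239849684) (W2 := 370763052) (P3 := 923417968) (W3 := 42949674) (N0 := 3) (En := eng) (mo := mog) (C1 := cd1q2a) (C2 := cd1q2b) (C3 := pd0)
    rfl k0_pm_202_ab

noncomputable def cut_pm_202_ba : Cut := Cut.of [[⟨0, 1, 0, 67108864⟩, ⟨1, 0, 0, 67108864⟩, ⟨2, 1, 0, 67108864⟩]]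

noncomputable def f_pm_202_ba : ℕ → ℕ → ℕ → ℕ → Bool := onCell 1239849684 370763052 0 536870912 923417968 42949674
    (rowB 3 eng mog cd1q2b cd1q2a pd0 0 false true false .pp 2 0 2 (qsf 1239849684 370763052 0 536870912 0) ndB1q2b ndB1q2a pcB0 cut_pm_202_ba Ext.none)

def k0_pm_202_ba : ∃ t, chk3 f_pm_202_ba t 1 1 1 = true :=
  ⟨(l 3), by decide +kernel⟩

theorem c_pm_202_ba : CertB 1239849684 370763052 0 536870912 923417968 42949674 3 eng mog cd1q2b cd1q2a pd0 false true false .pp 2 0 2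
    ndB1q2b ndB1q2a pcB0 cut_pm_202_ba Ext.none :=
  certB0 (fam := false) (s1 := true) (s2 := false) (a := 2) (b := 0) (c := 2) (cn := .pp) (n1 := ndB1q2b) (n2 := ndB1q2a) (pc := pcB0) (cut := cut_pm_202_ba) (xt := Ext.none) (P1 := 1239849684) (W1 := 370763052) (P2 := 0) (W2 := 536870912) (P3 := 923417968) (W3 := 42949674) (N0 := 3) (En := eng) (mo := mog) (C1 := cd1q2b) (C2 := cd1q2a) (C3 := pd0)
    rfl k0_pm_202_ba

noncomputable def cut_pm_202_bb : Cut := Cut.of [[⟨0, 1, 0, 67108864⟩, ⟨1, 0, 0, 67108864⟩, ⟨2, 1, 0, 67108864⟩]]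

noncomputable def f_pm_202_bb : ℕ → ℕ → ℕ → ℕ → Bool := onCell 1239849684 370763052 1239849684 370763052 923417968 42949674
    (rowB 3 eng mog cd1q2b cd1q2b pd0 0 false true false .pp 2 0 2 (qsf 1239849684 370763052 1239849684 370763052 0) ndB1q2b ndB1q2b pcB0 cut_pm_202_bb Ext.none)

def k0_pm_202_bb : ∃ t, chk3 f_pm_202_bb t 1 1 1 = true :=
  ⟨(l 3), by decide +kernel⟩

theorem c_pm_202_bb : CertB 1239849684 370763052 1239849684 370763052 923417968 42949674 3 eng mog cd1q2b cd1q2b pd0 false true false .pp 2 0 2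
    ndB1q2b ndB1q2b pcB0 cut_pm_202_bb Ext.none :=
  certB0 (fam := false) (s1 := true) (s2 := false) (a := 2) (b := 0) (c := 2) (cn := .pp) (n1 := ndB1q2b) (n2 := ndB1q2b) (pc := pcB0) (cut := cut_pm_202_bb) (xt := Ext.none) (P1 := 1239849684) (W1 := 370763052) (P2 := 1239849684) (W2 := 370763052) (P3 := 923417968) (W3 := 42949674) (N0 := 3) (En := eng) (mo := mog) (C1 := cd1q2b) (C2 := cd1q2b) (C3 := pd0)
    rfl k0_pm_202_bb

noncomputable def f_pm_203_a : ℕ → ℕ → ℕ → ℕ → Bool := onCell 0 536870912 0 536870912 923417968 42949674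
    (rowB 3 eng mog cd1q2a cd1q3 pd0 1 false true false .up 2 0 3 (qsf 0 536870912 1610612736 536870912 0) ndB1q2a ndB1q3 pcB0 Cut.none Ext.none)

def k0_pm_203_a : ∃ t, chk3 f_pm_203_a t 1 1 1 = true :=
  ⟨(l 3), by decide +kernel⟩

theorem c_pm_203_a : CertB 0 536870912 1610612736 536870912 923417968 42949674 3 eng mog cd1q2a cd1q3 pd0 false true false .up 2 0 3
    ndB1q2a ndB1q3 pcB0 Cut.none Ext.none :=
  certB1 (fam := false) (s1 := true) (s2 := false) (a := 2) (b := 0) (c := 3) (cn := .up) (n1 := ndB1q2a) (n2 := ndB1q3) (pc := pcB0) (cut := Cut.none) (xt := Ext.none) (P1 := 0) (W1 := 536870912) (P2 := 1610612736) (W2 := 536870912) (P3 := 923417968) (W3 := 42949674) (N0 := 3) (En := eng) (mo := mog) (C1 := cd1q2a) (C2 := cd1q3) (C3 := pd0)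
    rfl (fun _ => rfl) k0_pm_203_a

noncomputable def f_pm_203_b : ℕ → ℕ → ℕ → ℕ → Bool := onCell 1239849684 370763052 1610612736 536870912 923417968 42949674
    (rowB 3 eng mog cd1q2b cd1q3 pd0 0 false true false .up 2 0 3 (qsf 1239849684 370763052 1610612736 536870912 0) ndB1q2b ndB1q3 pcB0 Cut.none Ext.none)

def k0_pm_203_b : ∃ t, chk3 f_pm_203_b t 1 1 1 = true :=
  ⟨(l 3), by decide +kernel⟩

theorem c_pm_203_b : CertB 1239849684 370763052 1610612736 536870912 923417968 42949674 3 eng mog cd1q2b cd1q3 pd0 false true false .up 2 0 3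
    ndB1q2b ndB1q3 pcB0 Cut.none Ext.none :=
  certB0 (fam := false) (s1 := true) (s2 := false) (a := 2) (b := 0) (c := 3) (cn := .up) (n1 := ndB1q2b) (n2 := ndB1q3) (pc := pcB0) (cut := Cut.none) (xt := Ext.none) (P1 := 1239849684) (W1 := 370763052) (P2 := 1610612736) (W2 := 536870912) (P3 := 923417968) (W3 := 42949674) (N0 := 3) (En := eng) (mo := mog) (C1 := cd1q2b) (C2 := cd1q3) (C3 := pd0)
    rfl k0_pm_203_b

noncomputable def cut_pm_213_a : Cut := Cut.of [[⟨0, 1, 0, 67108864⟩, ⟨1, 1, 0, 67108864⟩, ⟨2, 2, 0, 16252928⟩]]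

noncomputable def f_pm_213_a : ℕ → ℕ → ℕ → ℕ → Bool := onCell 0 536870912 1610612736 536870912 923417968 42949674
    (rowB 3 eng mog cd1q2a cd1q3 pd1 0 false true false .pnn 2 1 3 (qsf 0 536870912 1610612736 536870912 1) ndB1q2a ndB1q3 pcB1 cut_pm_213_a Ext.none)

def k0_pm_213_a : ∃ t, chk3 f_pm_213_a t 1 1 1 = true :=
  ⟨(b (l 3) (b (l 3) (a (l 3) (a (l 3) (b (l 3) (a (l 3) (b (l 3) (b (l 3) (b (l 3) (l 6)))))))))), by decide +kernel⟩

theorem c_pm_213_a : CertB 0 536870912 1610612736 536870912 923417968 42949674 3 eng mog cd1q2a cd1q3 pd1 false true false .pnn 2 1 3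
    ndB1q2a ndB1q3 pcB1 cut_pm_213_a Ext.none :=
  certB0 (fam := false) (s1 := true) (s2 := false) (a := 2) (b := 1) (c := 3) (cn := .pnn) (n1 := ndB1q2a) (n2 := ndB1q3) (pc := pcB1) (cut := cut_pm_213_a) (xt := Ext.none) (P1 := 0) (W1 := 536870912) (P2 := 1610612736) (W2 := 536870912) (P3 := 923417968) (W3 := 42949674) (N0 := 3) (En := eng) (mo := mog) (C1 := cd1q2a) (C2 := cd1q3) (C3 := pd1)
    rfl k0_pm_213_a

noncomputable def cut_pm_213_b : Cut := Cut.of [[⟨0, 1, 0, 67108864⟩, ⟨1, 1, 0, 67108864⟩, ⟨2, 2, 0, 16252928⟩]]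

noncomputable def f_pm_213_b : ℕ → ℕ → ℕ → ℕ → Bool := onCell 1239849684 370763052 1610612736 536870912 923417968 42949674
    (rowB 3 eng mog cd1q2b cd1q3 pd1 0 false true false .pnn 2 1 3 (qsf 1239849684 370763052 1610612736 536870912 1) ndB1q2b ndB1q3 pcB1 cut_pm_213_b Ext.none)

def k0_pm_213_b : ∃ t, chk3 f_pm_213_b t 1 1 1 = true :=
  ⟨(l 3), by decide +kernel⟩

theorem c_pm_213_b : CertB 1239849684 370763052 1610612736 536870912 923417968 42949674 3 eng mog cd1q2b cd1q3 pd1 false true false .pnn 2 1 3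
    ndB1q2b ndB1q3 pcB1 cut_pm_213_b Ext.none :=
  certB0 (fam := false) (s1 := true) (s2 := false) (a := 2) (b := 1) (c := 3) (cn := .pnn) (n1 := ndB1q2b) (n2 := ndB1q3) (pc := pcB1) (cut := cut_pm_213_b) (xt := Ext.none) (P1 := 1239849684) (W1 := 370763052) (P2 := 1610612736) (W2 := 536870912) (P3 := 923417968) (W3 := 42949674) (N0 := 3) (En := eng) (mo := mog) (C1 := cd1q2b) (C2 := cd1q3) (C3 := pd1)
    rfl k0_pm_213_b

noncomputable def f_pm_303 : ℕ → ℕ → ℕ → ℕ → Bool := onCell 1610612736 536870912 1610612736 536870912 923417968 42949674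
    (rowB 3 eng mog cd1q3 cd1q3 pd0 0 false true false .npn 3 0 3 (qsf 1610612736 536870912 1610612736 536870912 0) ndB1q3 ndB1q3 pcB0 Cut.none Ext.none)

def k0_pm_303 : ∃ t, chk3 f_pm_303 t 1 1 1 = true :=
  ⟨(l 3), by decide +kernel⟩

theorem c_pm_303 : CertB 1610612736 536870912 1610612736 536870912 923417968 42949674 3 eng mog cd1q3 cd1q3 pd0 false true false .npn 3 0 3
    ndB1q3 ndB1q3 pcB0 Cut.none Ext.none :=
  certB0 (fam := false) (s1 := true) (s2 := false) (a := 3) (b := 0) (c := 3) (cn := .npn) (n1 := ndB1q3) (n2 := ndB1q3) (pc := pcB0) (cut := Cut.none) (xt := Ext.none) (P1 := 1610612736) (W1 := 536870912) (P2 := 1610612736) (W2 := 536870912) (P3 := 923417968) (W3 := 42949674) (N0 := 3) (En := eng) (mo := mog) (C1 := cd1q3) (C2 := cd1q3) (C3 := pd0)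
    rfl k0_pm_303

noncomputable def f_pm_313 : ℕ → ℕ → ℕ → ℕ → Bool := onCell 1610612736 536870912 1610612736 536870912 923417968 42949674
    (rowB 3 eng mog cd1q3 cd1q3 pd1 0 false true false .dn 3 1 3 (qsf 1610612736 536870912 1610612736 536870912 1) ndB1q3 ndB1q3 pcB1 Cut.none Ext.none)

def k0_pm_313 : ∃ t, chk3 f_pm_313 t 1 1 1 = true :=
  ⟨(l 3), by decide +kernel⟩

theorem c_pm_313 : CertB 1610612736 536870912 1610612736 536870912 923417968 42949674 3 eng mog cd1q3 cd1q3 pd1 false true false .dn 3 1 3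
    ndB1q3 ndB1q3 pcB1 Cut.none Ext.none :=
  certB0 (fam := false) (s1 := true) (s2 := false) (a := 3) (b := 1) (c := 3) (cn := .dn) (n1 := ndB1q3) (n2 := ndB1q3) (pc := pcB1) (cut := Cut.none) (xt := Ext.none) (P1 := 1610612736) (W1 := 536870912) (P2 := 1610612736) (W2 := 536870912) (P3 := 923417968) (W3 := 42949674) (N0 := 3) (En := eng) (mo := mog) (C1 := cd1q3) (C2 := cd1q3) (C3 := pd1)
    rfl k0_pm_313

noncomputable def f_mm_001 : ℕ → ℕ → ℕ → ℕ → Bool := onCell 0 536870912 536870912 536870912 923417968 42949674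
    (rowB 3 eng mog cd1q0 cd1q1 pd0 0 false false false .up 0 0 1 (qsf 0 536870912 536870912 536870912 0) ndB1q0 ndB1q1 pcB0 Cut.none Ext.none)

def k0_mm_001 : ∃ t, chk3 f_mm_001 t 1 1 1 = true :=
  ⟨(l 3), by decide +kernel⟩

theorem c_mm_001 : CertB 0 536870912 536870912 536870912 923417968 42949674 3 eng mog cd1q0 cd1q1 pd0 false false false .up 0 0 1
    ndB1q0 ndB1q1 pcB0 Cut.none Ext.none :=
  certB0 (fam := false) (s1 := false) (s2 := false) (a := 0) (b := 0) (c := 1) (cn := .up) (n1 := ndB1q0) (n2 := ndB1q1) (pc := pcB0) (cut := Cut.none) (xt := Ext.none) (P1 := 0) (W1 := 536870912) (P2 := 536870912) (W2 := 536870912) (P3 := 923417968) (W3 := 42949674) (N0 := 3) (En := eng) (mo := mog) (C1 := cd1q0) (C2 := cd1q1) (C3 := pd0)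
    rfl k0_mm_001

noncomputable def f_mm_011 : ℕ → ℕ → ℕ → ℕ → Bool := onCell 0 536870912 536870912 536870912 923417968 42949674
    (rowB 3 eng mog cd1q0 cd1q1 pd1 0 false false false .pnn 0 1 1 (qsf 0 536870912 536870912 536870912 1) ndB1q0 ndB1q1 pcB1 Cut.none Ext.none)

def k0_mm_011 : ∃ t, chk3 f_mm_011 t 1 1 1 = true :=
  ⟨(l 3), by decide +kernel⟩

theorem c_mm_011 : CertB 0 536870912 536870912 536870912 923417968 42949674 3 eng mog cd1q0 cd1q1 pd1 false false false .pnn 0 1 1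
    ndB1q0 ndB1q1 pcB1 Cut.none Ext.none :=
  certB0 (fam := false) (s1 := false) (s2 := false) (a := 0) (b := 1) (c := 1) (cn := .pnn) (n1 := ndB1q0) (n2 := ndB1q1) (pc := pcB1) (cut := Cut.none) (xt := Ext.none) (P1 := 0) (W1 := 536870912) (P2 := 536870912) (W2 := 536870912) (P3 := 923417968) (W3 := 42949674) (N0 := 3) (En := eng) (mo := mog) (C1 := cd1q0) (C2 := cd1q1) (C3 := pd1)
    rfl k0_mm_011

noncomputable def f_mm_012_a : ℕ → ℕ → ℕ → ℕ → Bool := onCell 0 536870912 0 536870912 923417968 42949674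
    (rowB 3 eng mog cd1q0 cd1q2a pd1 0 false false false .pnp 0 1 2 (qsf 0 536870912 0 536870912 1) ndB1q0 ndB1q2a pcB1 Cut.none Ext.none)

def k0_mm_012_a : ∃ t, chk3 f_mm_012_a t 1 1 1 = true :=
  ⟨(l 5), by decide +kernel⟩

theorem c_mm_012_a : CertB 0 536870912 0 536870912 923417968 42949674 3 eng mog cd1q0 cd1q2a pd1 false false false .pnp 0 1 2
    ndB1q0 ndB1q2a pcB1 Cut.none Ext.none :=
  certB0 (fam := false) (s1 := false) (s2 := false) (a := 0) (b := 1) (c := 2) (cn := .pnp) (n1 := ndB1q0) (n2 := ndB1q2a) (pc := pcB1) (cut := Cut.none) (xt := Ext.none) (P1 := 0) (W1 := 536870912) (P2 := 0) (W2 := 536870912) (P3 := 923417968) (W3 := 42949674) (N0 := 3) (En := eng) (mo := mog) (C1 := cd1q0) (C2 := cd1q2a) (C3 := pd1)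
    rfl k0_mm_012_a

noncomputable def f_mm_012_b : ℕ → ℕ → ℕ → ℕ → Bool := onCell 0 536870912 1239849684 370763052 923417968 42949674
    (rowB 3 eng mog cd1q0 cd1q2b pd1 0 false false false .pnp 0 1 2 (qsf 0 536870912 1239849684 370763052 1) ndB1q0 ndB1q2b pcB1 Cut.none Ext.none)

def k0_mm_012_b : ∃ t, chk3 f_mm_012_b t 1 1 1 = true :=
  ⟨(l 5), by decide +kernel⟩

theorem c_mm_012_b : CertB 0 536870912 1239849684 370763052 923417968 42949674 3 eng mog cd1q0 cd1q2b pd1 false false false .pnp 0 1 2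
    ndB1q0 ndB1q2b pcB1 Cut.none Ext.none :=
  certB0 (fam := false) (s1 := false) (s2 := false) (a := 0) (b := 1) (c := 2) (cn := .pnp) (n1 := ndB1q0) (n2 := ndB1q2b) (pc := pcB1) (cut := Cut.none) (xt := Ext.none) (P1 := 0) (W1 := 536870912) (P2 := 1239849684) (W2 := 370763052) (P3 := 923417968) (W3 := 42949674) (N0 := 3) (En := eng) (mo := mog) (C1 := cd1q0) (C2 := cd1q2b) (C3 := pd1)
    rfl k0_mm_012_b

noncomputable def f_mm_022_a : ℕ → ℕ → ℕ → ℕ → Bool := onCell 0 536870912 0 536870912 923417968 42949674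
    (rowB 3 eng mog cd1q0 cd1q2a pd2 0 false false false .pp 0 2 2 (qsf 0 536870912 0 536870912 2) ndB1q0 ndB1q2a pcB2 Cut.none Ext.none)

def k0_mm_022_a : ∃ t, chk3 f_mm_022_a t 1 1 1 = true :=
  ⟨(l 5), by decide +kernel⟩

theorem c_mm_022_a : CertB 0 536870912 0 536870912 923417968 42949674 3 eng mog cd1q0 cd1q2a pd2 false false false .pp 0 2 2
    ndB1q0 ndB1q2a pcB2 Cut.none Ext.none :=
  certB0 (fam := false) (s1 := false) (s2 := false) (a := 0) (b := 2) (c := 2) (cn := .pp) (n1 := ndB1q0) (n2 := ndB1q2a) (pc := pcB2) (cut := Cut.none) (xt := Ext.none) (P1 := 0) (W1 := 536870912) (P2 := 0) (W2 := 536870912) (P3 := 923417968) (W3 := 42949674) (N0 := 3) (En := eng) (mo := mog) (C1 := cd1q0) (C2 := cd1q2a) (C3 := pd2)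
    rfl k0_mm_022_a

noncomputable def f_mm_022_b : ℕ → ℕ → ℕ → ℕ → Bool := onCell 0 536870912 1239849684 370763052 923417968 42949674
    (rowB 3 eng mog cd1q0 cd1q2b pd2 0 false false false .pp 0 2 2 (qsf 0 536870912 1239849684 370763052 2) ndB1q0 ndB1q2b pcB2 Cut.none Ext.none)

def k0_mm_022_b : ∃ t, chk3 f_mm_022_b t 1 1 1 = true :=
  ⟨(l 5), by decide +kernel⟩

theorem c_mm_022_b : CertB 0 536870912 1239849684 370763052 923417968 42949674 3 eng mog cd1q0 cd1q2b pd2 false false false .pp 0 2 2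
    ndB1q0 ndB1q2b pcB2 Cut.none Ext.none :=
  certB0 (fam := false) (s1 := false) (s2 := false) (a := 0) (b := 2) (c := 2) (cn := .pp) (n1 := ndB1q0) (n2 := ndB1q2b) (pc := pcB2) (cut := Cut.none) (xt := Ext.none) (P1 := 0) (W1 := 536870912) (P2 := 1239849684) (W2 := 370763052) (P3 := 923417968) (W3 := 42949674) (N0 := 3) (En := eng) (mo := mog) (C1 := cd1q0) (C2 := cd1q2b) (C3 := pd2)
    rfl k0_mm_022_b

noncomputable def f_mm_023 : ℕ → ℕ → ℕ → ℕ → Bool := onCell 0 536870912 1610612736 536870912 923417968 42949674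
    (rowB 3 eng mog cd1q0 cd1q3 pd2 0 false false false .up 0 2 3 (qsf 0 536870912 1610612736 536870912 2) ndB1q0 ndB1q3 pcB2 Cut.none Ext.none)

def k0_mm_023 : ∃ t, chk3 f_mm_023 t 1 1 1 = true :=
  ⟨(l 5), by decide +kernel⟩

theorem c_mm_023 : CertB 0 536870912 1610612736 536870912 923417968 42949674 3 eng mog cd1q0 cd1q3 pd2 false false false .up 0 2 3
    ndB1q0 ndB1q3 pcB2 Cut.none Ext.none :=
  certB0 (fam := false) (s1 := false) (s2 := false) (a := 0) (b := 2) (c := 3) (cn := .up) (n1 := ndB1q0) (n2 := ndB1q3) (pc := pcB2) (cut := Cut.none) (xt := Ext.none) (P1 := 0) (W1 := 536870912) (P2 := 1610612736) (W2 := 536870912) (P3 := 923417968) (W3 := 42949674) (N0 := 3) (En := eng) (mo := mog) (C1 := cd1q0) (C2 := cd1q3) (C3 := pd2)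
    rfl k0_mm_023

noncomputable def f_mm_033 : ℕ → ℕ → ℕ → ℕ → Bool := onCell 0 536870912 1610612736 536870912 923417968 42949674
    (rowB 3 eng mog cd1q0 cd1q3 pd3 0 false false false .pnn 0 3 3 (qsf 0 536870912 1610612736 536870912 3) ndB1q0 ndB1q3 pcB3 Cut.none Ext.none)

def k0_mm_033 : ∃ t, chk3 f_mm_033 t 1 1 1 = true :=
  ⟨(l 5), by decide +kernel⟩

theorem c_mm_033 : CertB 0 536870912 1610612736 536870912 923417968 42949674 3 eng mog cd1q0 cd1q3 pd3 false false false .pnn 0 3 3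
    ndB1q0 ndB1q3 pcB3 Cut.none Ext.none :=
  certB0 (fam := false) (s1 := false) (s2 := false) (a := 0) (b := 3) (c := 3) (cn := .pnn) (n1 := ndB1q0) (n2 := ndB1q3) (pc := pcB3) (cut := Cut.none) (xt := Ext.none) (P1 := 0) (W1 := 536870912) (P2 := 1610612736) (W2 := 536870912) (P3 := 923417968) (W3 := 42949674) (N0 := 3) (En := eng) (mo := mog) (C1 := cd1q0) (C2 := cd1q3) (C3 := pd3)
    rfl k0_mm_033

noncomputable def f_mm_101 : ℕ → ℕ → ℕ → ℕ → Bool := onCell 536870912 536870912 536870912 536870912 923417968 42949674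
    (rowB 3 eng mog cd1q1 cd1q1 pd0 0 false false false .npn 1 0 1 (qsf 536870912 536870912 536870912 536870912 0) ndB1q1 ndB1q1 pcB0 Cut.none Ext.none)

def k0_mm_101 : ∃ t, chk3 f_mm_101 t 1 1 1 = true :=
  ⟨(l 3), by decide +kernel⟩

theorem c_mm_101 : CertB 536870912 536870912 536870912 536870912 923417968 42949674 3 eng mog cd1q1 cd1q1 pd0 false false false .npn 1 0 1
    ndB1q1 ndB1q1 pcB0 Cut.none Ext.none :=
  certB0 (fam := false) (s1 := false) (s2 := false) (a := 1) (b := 0) (c := 1) (cn := .npn) (n1 := ndB1q1) (n2 := ndB1q1) (pc := pcB0) (cut := Cut.none) (xt := Ext.none) (P1 := 536870912) (W1 := 536870912) (P2 := 536870912) (W2 := 536870912) (P3 := 923417968) (W3 := 42949674) (N0 := 3) (En := eng) (mo := mog) (C1 := cd1q1) (C2 := cd1q1) (C3 := pd0)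
    rfl k0_mm_101

noncomputable def f_mm_102_a : ℕ → ℕ → ℕ → ℕ → Bool := onCell 536870912 536870912 0 536870912 923417968 42949674
    (rowB 3 eng mog cd1q1 cd1q2a pd0 0 false false false .npp 1 0 2 (qsf 536870912 536870912 0 536870912 0) ndB1q1 ndB1q2a pcB0 Cut.none Ext.none)

def k0_mm_102_a : ∃ t, chk3 f_mm_102_a t 1 1 1 = true :=
  ⟨(l 5), by decide +kernel⟩

theorem c_mm_102_a : CertB 536870912 536870912 0 536870912 923417968 42949674 3 eng mog cd1q1 cd1q2a pd0 false false false .npp 1 0 2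
    ndB1q1 ndB1q2a pcB0 Cut.none Ext.none :=
  certB0 (fam := false) (s1 := false) (s2 := false) (a := 1) (b := 0) (c := 2) (cn := .npp) (n1 := ndB1q1) (n2 := ndB1q2a) (pc := pcB0) (cut := Cut.none) (xt := Ext.none) (P1 := 536870912) (W1 := 536870912) (P2 := 0) (W2 := 536870912) (P3 := 923417968) (W3 := 42949674) (N0 := 3) (En := eng) (mo := mog) (C1 := cd1q1) (C2 := cd1q2a) (C3 := pd0)
    rfl k0_mm_102_a

noncomputable def f_mm_102_b : ℕ → ℕ → ℕ → ℕ → Bool := onCell 536870912 536870912 1239849684 370763052 923417968 42949674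
    (rowB 3 eng mog cd1q1 cd1q2b pd0 0 false false false .npp 1 0 2 (qsf 536870912 536870912 1239849684 370763052 0) ndB1q1 ndB1q2b pcB0 Cut.none Ext.none)

def k0_mm_102_b : ∃ t, chk3 f_mm_102_b t 1 1 1 = true :=
  ⟨(l 5), by decide +kernel⟩

theorem c_mm_102_b : CertB 536870912 536870912 1239849684 370763052 923417968 42949674 3 eng mog cd1q1 cd1q2b pd0 false false false .npp 1 0 2
    ndB1q1 ndB1q2b pcB0 Cut.none Ext.none :=
  certB0 (fam := false) (s1 := false) (s2 := false) (a := 1) (b := 0) (c := 2) (cn := .npp) (n1 := ndB1q1) (n2 := ndB1q2b) (pc := pcB0) (cut := Cut.none) (xt := Ext.none) (P1 := 536870912) (W1 := 536870912) (P2 := 1239849684) (W2 := 370763052) (P3 := 923417968) (W3 := 42949674) (N0 := 3) (En := eng) (mo := mog) (C1 := cd1q1) (C2 := cd1q2b) (C3 := pd0)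
    rfl k0_mm_102_b

noncomputable def f_mm_112_a : ℕ → ℕ → ℕ → ℕ → Bool := onCell 536870912 536870912 0 536870912 923417968 42949674
    (rowB 3 eng mog cd1q1 cd1q2a pd1 0 false false false .dn 1 1 2 (qsf 536870912 536870912 0 536870912 1) ndB1q1 ndB1q2a pcB1 Cut.none Ext.none)

def k0_mm_112_a : ∃ t, chk3 f_mm_112_a t 1 1 1 = true :=
  ⟨(l 5), by decide +kernel⟩

theorem c_mm_112_a : CertB 536870912 536870912 0 536870912 923417968 42949674 3 eng mog cd1q1 cd1q2a pd1 false false false .dn 1 1 2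
    ndB1q1 ndB1q2a pcB1 Cut.none Ext.none :=
  certB0 (fam := false) (s1 := false) (s2 := false) (a := 1) (b := 1) (c := 2) (cn := .dn) (n1 := ndB1q1) (n2 := ndB1q2a) (pc := pcB1) (cut := Cut.none) (xt := Ext.none) (P1 := 536870912) (W1 := 536870912) (P2 := 0) (W2 := 536870912) (P3 := 923417968) (W3 := 42949674) (N0 := 3) (En := eng) (mo := mog) (C1 := cd1q1) (C2 := cd1q2a) (C3 := pd1)
    rfl k0_mm_112_a

noncomputable def f_mm_112_b : ℕ → ℕ → ℕ → ℕ → Bool := onCell 536870912 536870912 1239849684 370763052 923417968 42949674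
    (rowB 3 eng mog cd1q1 cd1q2b pd1 0 false false false .dn 1 1 2 (qsf 536870912 536870912 1239849684 370763052 1) ndB1q1 ndB1q2b pcB1 Cut.none Ext.none)

def k0_mm_112_b : ∃ t, chk3 f_mm_112_b t 1 1 1 = true :=
  ⟨(l 5), by decide +kernel⟩

theorem c_mm_112_b : CertB 536870912 536870912 1239849684 370763052 923417968 42949674 3 eng mog cd1q1 cd1q2b pd1 false false false .dn 1 1 2
    ndB1q1 ndB1q2b pcB1 Cut.none Ext.none :=
  certB0 (fam := false) (s1 := false) (s2 := false) (a := 1) (b := 1) (c := 2) (cn := .dn) (n1 := ndB1q1) (n2 := ndB1q2b) (pc := pcB1) (cut := Cut.none) (xt := Ext.none) (P1 := 536870912) (W1 := 536870912) (P2 := 1239849684) (W2 := 370763052) (P3 := 923417968) (W3 := 42949674) (N0 := 3) (En := eng) (mo := mog) (C1 := cd1q1) (C2 := cd1q2b) (C3 := pd1)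
    rfl k0_mm_112_b

noncomputable def f_mm_113 : ℕ → ℕ → ℕ → ℕ → Bool := onCell 536870912 536870912 1610612736 536870912 923417968 42949674
    (rowB 3 eng mog cd1q1 cd1q3 pd1 0 false false false .nn 1 1 3 (qsf 536870912 536870912 1610612736 536870912 1) ndB1q1 ndB1q3 pcB1 Cut.none Ext.none)

def k0_mm_113 : ∃ t, chk3 f_mm_113 t 1 1 1 = true :=
  ⟨(l 5), by decide +kernel⟩

theorem c_mm_113 : CertB 536870912 536870912 1610612736 536870912 923417968 42949674 3 eng mog cd1q1 cd1q3 pd1 false false false .nn 1 1 3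
    ndB1q1 ndB1q3 pcB1 Cut.none Ext.none :=
  certB0 (fam := false) (s1 := false) (s2 := false) (a := 1) (b := 1) (c := 3) (cn := .nn) (n1 := ndB1q1) (n2 := ndB1q3) (pc := pcB1) (cut := Cut.none) (xt := Ext.none) (P1 := 536870912) (W1 := 536870912) (P2 := 1610612736) (W2 := 536870912) (P3 := 923417968) (W3 := 42949674) (N0 := 3) (En := eng) (mo := mog) (C1 := cd1q1) (C2 := cd1q3) (C3 := pd1)
    rfl k0_mm_113

noncomputable def f_mm_123 : ℕ → ℕ → ℕ → ℕ → Bool := onCell 536870912 536870912 1610612736 536870912 923417968 42949674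
    (rowB 3 eng mog cd1q1 cd1q3 pd2 0 false false false .npn 1 2 3 (qsf 536870912 536870912 1610612736 536870912 2) ndB1q1 ndB1q3 pcB2 Cut.none Ext.none)

def k0_mm_123 : ∃ t, chk3 f_mm_123 t 1 1 1 = true :=
  ⟨(l 5), by decide +kernel⟩

theorem c_mm_123 : CertB 536870912 536870912 1610612736 536870912 923417968 42949674 3 eng mog cd1q1 cd1q3 pd2 false false false .npn 1 2 3
    ndB1q1 ndB1q3 pcB2 Cut.none Ext.none :=
  certB0 (fam := false) (s1 := false) (s2 := false) (a := 1) (b := 2) (c := 3) (cn := .npn) (n1 := ndB1q1) (n2 := ndB1q3) (pc := pcB2) (cut := Cut.none) (xt := Ext.none) (P1 := 536870912) (W1 := 536870912) (P2 := 1610612736) (W2 := 536870912) (P3 := 923417968) (W3 := 42949674) (N0 := 3) (En := eng) (mo := mog) (C1 := cd1q1) (C2 := cd1q3) (C3 := pd2)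
    rfl k0_mm_123

noncomputable def f_mm_133 : ℕ → ℕ → ℕ → ℕ → Bool := onCell 536870912 536870912 1610612736 536870912 923417968 42949674
    (rowB 3 eng mog cd1q1 cd1q3 pd3 0 false false false .dn 1 3 3 (qsf 536870912 536870912 1610612736 536870912 3) ndB1q1 ndB1q3 pcB3 Cut.none Ext.none)

def k0_mm_133 : ∃ t, chk3 f_mm_133 t 1 1 1 = true :=
  ⟨(l 5), by decide +kernel⟩

theorem c_mm_133 : CertB 536870912 536870912 1610612736 536870912 923417968 42949674 3 eng mog cd1q1 cd1q3 pd3 false false false .dn 1 3 3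
    ndB1q1 ndB1q3 pcB3 Cut.none Ext.none :=
  certB0 (fam := false) (s1 := false) (s2 := false) (a := 1) (b := 3) (c := 3) (cn := .dn) (n1 := ndB1q1) (n2 := ndB1q3) (pc := pcB3) (cut := Cut.none) (xt := Ext.none) (P1 := 536870912) (W1 := 536870912) (P2 := 1610612736) (W2 := 536870912) (P3 := 923417968) (W3 := 42949674) (N0 := 3) (En := eng) (mo := mog) (C1 := cd1q1) (C2 := cd1q3) (C3 := pd3)
    rfl k0_mm_133

noncomputable def f_mm_202_aa : ℕ → ℕ → ℕ → ℕ → Bool := onCell 0 536870912 0 536870912 923417968 42949674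
    (rowB 3 eng mog cd1q2a cd1q2a pd0 0 false false false .pp 2 0 2 (qsf 0 536870912 0 536870912 0) ndB1q2a ndB1q2a pcB0 Cut.none Ext.none)

def k0_mm_202_aa : ∃ t, chk3 f_mm_202_aa t 1 1 1 = true :=
  ⟨(l 3), by decide +kernel⟩

theorem c_mm_202_aa : CertB 0 536870912 0 536870912 923417968 42949674 3 eng mog cd1q2a cd1q2a pd0 false false false .pp 2 0 2
    ndB1q2a ndB1q2a pcB0 Cut.none Ext.none :=
  certB0 (fam := false) (s1 := false) (s2 := false) (a := 2) (b := 0) (c := 2) (cn := .pp) (n1 := ndB1q2a) (n2 := ndB1q2a) (pc := pcB0) (cut := Cut.none) (xt := Ext.none) (P1 := 0) (W1 := 536870912) (P2 := 0) (W2 := 536870912) (P3 := 923417968) (W3 := 42949674) (N0 := 3) (En := eng) (mo := mog) (C1 := cd1q2a) (C2 := cd1q2a) (C3 := pd0)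
    rfl k0_mm_202_aa

noncomputable def f_mm_202_ab : ℕ → ℕ → ℕ → ℕ → Bool := onCell 0 536870912 1239849684 370763052 923417968 42949674
    (rowB 3 eng mog cd1q2a cd1q2b pd0 0 false false false .pp 2 0 2 (qsf 0 536870912 1239849684 370763052 0) ndB1q2a ndB1q2b pcB0 Cut.none Ext.none)

def k0_mm_202_ab : ∃ t, chk3 f_mm_202_ab t 1 1 1 = true :=
  ⟨(l 3), by decide +kernel⟩

theorem c_mm_202_ab : CertB 0 536870912 1239849684 370763052 923417968 42949674 3 eng mog cd1q2a cd1q2b pd0 false false false .pp 2 0 2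
    ndB1q2a ndB1q2b pcB0 Cut.none Ext.none :=
  certB0 (fam := false) (s1 := false) (s2 := false) (a := 2) (b := 0) (c := 2) (cn := .pp) (n1 := ndB1q2a) (n2 := ndB1q2b) (pc := pcB0) (cut := Cut.none) (xt := Ext.none) (P1 := 0) (W1 := 536870912) (P2 := 1239849684) (W2 := 370763052) (P3 := 923417968) (W3 := 42949674) (N0 := 3) (En := eng) (mo := mog) (C1 := cd1q2a) (C2 := cd1q2b) (C3 := pd0)
    rfl k0_mm_202_ab

noncomputable def f_mm_202_ba : ℕ → ℕ → ℕ → ℕ → Bool := onCell 1239849684 370763052 0 536870912 923417968 42949674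
    (rowB 3 eng mog cd1q2b cd1q2a pd0 0 false false false .pp 2 0 2 (qsf 1239849684 370763052 0 536870912 0) ndB1q2b ndB1q2a pcB0 Cut.none Ext.none)

def k0_mm_202_ba : ∃ t, chk3 f_mm_202_ba t 1 1 1 = true :=
  ⟨(l 3), by decide +kernel⟩

theorem c_mm_202_ba : CertB 1239849684 370763052 0 536870912 923417968 42949674 3 eng mog cd1q2b cd1q2a pd0 false false false .pp 2 0 2
    ndB1q2b ndB1q2a pcB0 Cut.none Ext.none :=
  certB0 (fam := false) (s1 := false) (s2 := false) (a := 2) (b := 0) (c := 2) (cn := .pp) (n1 := ndB1q2b) (n2 := ndB1q2a) (pc := pcB0) (cut := Cut.none) (xt := Ext.none) (P1 := 1239849684) (W1 := 370763052) (P2 := 0) (W2 := 536870912) (P3 := 923417968) (W3 := 42949674) (N0 := 3) (En := eng) (mo := mog) (C1 := cd1q2b) (C2 := cd1q2a) (C3 := pd0)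
    rfl k0_mm_202_ba

noncomputable def f_mm_202_bb : ℕ → ℕ → ℕ → ℕ → Bool := onCell 1239849684 370763052 1239849684 370763052 923417968 42949674
    (rowB 3 eng mog cd1q2b cd1q2b pd0 0 false false false .pp 2 0 2 (qsf 1239849684 370763052 1239849684 370763052 0) ndB1q2b ndB1q2b pcB0 Cut.none Ext.none)

def k0_mm_202_bb : ∃ t, chk3 f_mm_202_bb t 1 1 1 = true :=
  ⟨(l 3), by decide +kernel⟩

theorem c_mm_202_bb : CertB 1239849684 370763052 1239849684 370763052 923417968 42949674 3 eng mog cd1q2b cd1q2b pd0 false false false .pp 2 0 2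
    ndB1q2b ndB1q2b pcB0 Cut.none Ext.none :=
  certB0 (fam := false) (s1 := false) (s2 := false) (a := 2) (b := 0) (c := 2) (cn := .pp) (n1 := ndB1q2b) (n2 := ndB1q2b) (pc := pcB0) (cut := Cut.none) (xt := Ext.none) (P1 := 1239849684) (W1 := 370763052) (P2 := 1239849684) (W2 := 370763052) (P3 := 923417968) (W3 := 42949674) (N0 := 3) (En := eng) (mo := mog) (C1 := cd1q2b) (C2 := cd1q2b) (C3 := pd0)
    rfl k0_mm_202_bb

noncomputable def f_mm_203_a : ℕ → ℕ → ℕ → ℕ → Bool := onCell 0 536870912 0 536870912 923417968 42949674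
    (rowB 3 eng mog cd1q2a cd1q3 pd0 1 false false false .up 2 0 3 (qsf 0 536870912 1610612736 536870912 0) ndB1q2a ndB1q3 pcB0 Cut.none Ext.none)

def k0_mm_203_a : ∃ t, chk3 f_mm_203_a t 1 1 1 = true :=
  ⟨(l 3), by decide +kernel⟩

theorem c_mm_203_a : CertB 0 536870912 1610612736 536870912 923417968 42949674 3 eng mog cd1q2a cd1q3 pd0 false false false .up 2 0 3
    ndB1q2a ndB1q3 pcB0 Cut.none Ext.none :=
  certB1 (fam := false) (s1 := false) (s2 := false) (a := 2) (b := 0) (c := 3) (cn := .up) (n1 := ndB1q2a) (n2 := ndB1q3) (pc := pcB0) (cut := Cut.none) (xt := Ext.none) (P1 := 0) (W1 := 536870912) (P2 := 1610612736) (W2 := 536870912) (P3 := 923417968) (W3 := 42949674) (N0 := 3) (En := eng) (mo := mog) (C1 := cd1q2a) (C2 := cd1q3) (C3 := pd0)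
    rfl (fun _ => rfl) k0_mm_203_a

noncomputable def f_mm_203_b : ℕ → ℕ → ℕ → ℕ → Bool := onCell 1239849684 370763052 1610612736 536870912 923417968 42949674
    (rowB 3 eng mog cd1q2b cd1q3 pd0 0 false false false .up 2 0 3 (qsf 1239849684 370763052 1610612736 536870912 0) ndB1q2b ndB1q3 pcB0 Cut.none Ext.none)

def k0_mm_203_b : ∃ t, chk3 f_mm_203_b t 1 1 1 = true :=
  ⟨(l 3), by decide +kernel⟩

theorem c_mm_203_b : CertB 1239849684 370763052 1610612736 536870912 923417968 42949674 3 eng mog cd1q2b cd1q3 pd0 false false false .up 2 0 3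
    ndB1q2b ndB1q3 pcB0 Cut.none Ext.none :=
  certB0 (fam := false) (s1 := false) (s2 := false) (a := 2) (b := 0) (c := 3) (cn := .up) (n1 := ndB1q2b) (n2 := ndB1q3) (pc := pcB0) (cut := Cut.none) (xt := Ext.none) (P1 := 1239849684) (W1 := 370763052) (P2 := 1610612736) (W2 := 536870912) (P3 := 923417968) (W3 := 42949674) (N0 := 3) (En := eng) (mo := mog) (C1 := cd1q2b) (C2 := cd1q3) (C3 := pd0)
    rfl k0_mm_203_b

noncomputable def f_mm_213_a : ℕ → ℕ → ℕ → ℕ → Bool := onCell 0 536870912 1610612736 536870912 923417968 42949674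
    (rowB 3 eng mog cd1q2a cd1q3 pd1 0 false false false .pnn 2 1 3 (qsf 0 536870912 1610612736 536870912 1) ndB1q2a ndB1q3 pcB1 Cut.none Ext.none)

def k0_mm_213_a : ∃ t, chk3 f_mm_213_a t 1 1 1 = true :=
  ⟨(b (l 3) (l 5)), by decide +kernel⟩

theorem c_mm_213_a : CertB 0 536870912 1610612736 536870912 923417968 42949674 3 eng mog cd1q2a cd1q3 pd1 false false false .pnn 2 1 3
    ndB1q2a ndB1q3 pcB1 Cut.none Ext.none :=
  certB0 (fam := false) (s1 := false) (s2 := false) (a := 2) (b := 1) (c := 3) (cn := .pnn) (n1 := ndB1q2a) (n2 := ndB1q3) (pc := pcB1) (cut := Cut.none) (xt := Ext.none) (P1 := 0) (W1 := 536870912) (P2 := 1610612736) (W2 := 536870912) (P3 := 923417968) (W3 := 42949674) (N0 := 3) (En := eng) (mo := mog) (C1 := cd1q2a) (C2 := cd1q3) (C3 := pd1)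
    rfl k0_mm_213_a

noncomputable def f_mm_213_b : ℕ → ℕ → ℕ → ℕ → Bool := onCell 1239849684 370763052 1610612736 536870912 923417968 42949674
    (rowB 3 eng mog cd1q2b cd1q3 pd1 0 false false false .pnn 2 1 3 (qsf 1239849684 370763052 1610612736 536870912 1) ndB1q2b ndB1q3 pcB1 Cut.none Ext.none)

def k0_mm_213_b : ∃ t, chk3 f_mm_213_b t 1 1 1 = true :=
  ⟨(l 3), by decide +kernel⟩

theorem c_mm_213_b : CertB 1239849684 370763052 1610612736 536870912 923417968 42949674 3 eng mog cd1q2b cd1q3 pd1 false false false .pnn 2 1 3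
    ndB1q2b ndB1q3 pcB1 Cut.none Ext.none :=
  certB0 (fam := false) (s1 := false) (s2 := false) (a := 2) (b := 1) (c := 3) (cn := .pnn) (n1 := ndB1q2b) (n2 := ndB1q3) (pc := pcB1) (cut := Cut.none) (xt := Ext.none) (P1 := 1239849684) (W1 := 370763052) (P2 := 1610612736) (W2 := 536870912) (P3 := 923417968) (W3 := 42949674) (N0 := 3) (En := eng) (mo := mog) (C1 := cd1q2b) (C2 := cd1q3) (C3 := pd1)
    rfl k0_mm_213_b

noncomputable def f_mm_303 : ℕ → ℕ → ℕ → ℕ → Bool := onCell 1610612736 536870912 1610612736 536870912 923417968 42949674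
    (rowB 3 eng mog cd1q3 cd1q3 pd0 0 false false false .npn 3 0 3 (qsf 1610612736 536870912 1610612736 536870912 0) ndB1q3 ndB1q3 pcB0 Cut.none Ext.none)

def k0_mm_303 : ∃ t, chk3 f_mm_303 t 1 1 1 = true :=
  ⟨(l 3), by decide +kernel⟩

theorem c_mm_303 : CertB 1610612736 536870912 1610612736 536870912 923417968 42949674 3 eng mog cd1q3 cd1q3 pd0 false false false .npn 3 0 3
    ndB1q3 ndB1q3 pcB0 Cut.none Ext.none :=
  certB0 (fam := false) (s1 := false) (s2 := false) (a := 3) (b := 0) (c := 3) (cn := .npn) (n1 := ndB1q3) (n2 := ndB1q3) (pc := pcB0) (cut := Cut.none) (xt := Ext.none) (P1 := 1610612736) (W1 := 536870912) (P2 := 1610612736) (W2 := 536870912) (P3 := 923417968) (W3 := 42949674) (N0 := 3) (En := eng) (mo := mog) (C1 := cd1q3) (C2 := cd1q3) (C3 := pd0)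
    rfl k0_mm_303

noncomputable def f_mm_313 : ℕ → ℕ → ℕ → ℕ → Bool := onCell 1610612736 536870912 1610612736 536870912 923417968 42949674
    (rowB 3 eng mog cd1q3 cd1q3 pd1 0 false false false .dn 3 1 3 (qsf 1610612736 536870912 1610612736 536870912 1) ndB1q3 ndB1q3 pcB1 Cut.none Ext.none)

def k0_mm_313 : ∃ t, chk3 f_mm_313 t 1 1 1 = true :=
  ⟨(l 3), by decide +kernel⟩

theorem c_mm_313 : CertB 1610612736 536870912 1610612736 536870912 923417968 42949674 3 eng mog cd1q3 cd1q3 pd1 false false false .dn 3 1 3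
    ndB1q3 ndB1q3 pcB1 Cut.none Ext.none :=
  certB0 (fam := false) (s1 := false) (s2 := false) (a := 3) (b := 1) (c := 3) (cn := .dn) (n1 := ndB1q3) (n2 := ndB1q3) (pc := pcB1) (cut := Cut.none) (xt := Ext.none) (P1 := 1610612736) (W1 := 536870912) (P2 := 1610612736) (W2 := 536870912) (P3 := 923417968) (W3 := 42949674) (N0 := 3) (En := eng) (mo := mog) (C1 := cd1q3) (C2 := cd1q3) (C3 := pd1)
    rfl k0_mm_313

end Pool.Agent.Strip051.G.I8600_9000.Tab.C.BB11

namespace Pool.Agent.Strip051.G.I8600_9000.Tab.C.BB12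

open Pool.Agent.Strip051.PB Pool.Agent.Strip051.PB.T
open Pool.Agent.Strip051.G.I8600_9000.Tab

noncomputable def f_pp_001 : ℕ → ℕ → ℕ → ℕ → Bool := onCell 0 536870912 0 536870912 923417968 42949674
    (rowB 3 eng mog cd1q0 cd2q1 pd0 1 false true true .up 0 0 1 (qsf 0 536870912 536870912 536870912 0) ndB1q0 ndB2q1 pcB0 Cut.none Ext.none)

def k0_pp_001 : ∃ t, chk3 f_pp_001 t 1 1 1 = true :=
  ⟨(l 3), by decide +kernel⟩

theorem c_pp_001 : CertB 0 536870912 536870912 536870912 923417968 42949674 3 eng mog cd1q0 cd2q1 pd0 false true true .up 0 0 1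
    ndB1q0 ndB2q1 pcB0 Cut.none Ext.none :=
  certB1 (fam := false) (s1 := true) (s2 := true) (a := 0) (b := 0) (c := 1) (cn := .up) (n1 := ndB1q0) (n2 := ndB2q1) (pc := pcB0) (cut := Cut.none) (xt := Ext.none) (P1 := 0) (W1 := 536870912) (P2 := 536870912) (W2 := 536870912) (P3 := 923417968) (W3 := 42949674) (N0 := 3) (En := eng) (mo := mog) (C1 := cd1q0) (C2 := cd2q1) (C3 := pd0)
    rfl (fun _ => rfl) k0_pp_001

noncomputable def cut_pp_011 : Cut := Cut.of [[⟨0, 0, 0, 67108864⟩, ⟨1, 1, 0, 67108864⟩, ⟨2, 1, 0, 67108864⟩]]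

noncomputable def f_pp_011 : ℕ → ℕ → ℕ → ℕ → Bool := onCell 0 536870912 536870912 536870912 923417968 42949674
    (rowB 3 eng mog cd1q0 cd2q1 pd1 1 false true true .pnn 0 1 1 (qsf 0 536870912 536870912 536870912 1) ndB1q0 ndB2q1 pcB1 cut_pp_011 Ext.none)

def k0_pp_011 : ∃ t, chk3 f_pp_011 t 1 1 1 = true :=
  ⟨(b (l 3) (b (l 3) (a (b (l 3) (a (a (b (l 3) (a (l 6) (l 3))) (l 3)) (l 2))) (l 2)))), by decide +kernel⟩

theorem c_pp_011 : CertB 0 536870912 536870912 536870912 923417968 42949674 3 eng mog cd1q0 cd2q1 pd1 false true true .pnn 0 1 1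
    ndB1q0 ndB2q1 pcB1 cut_pp_011 Ext.none :=
  certB1 (fam := false) (s1 := true) (s2 := true) (a := 0) (b := 1) (c := 1) (cn := .pnn) (n1 := ndB1q0) (n2 := ndB2q1) (pc := pcB1) (cut := cut_pp_011) (xt := Ext.none) (P1 := 0) (W1 := 536870912) (P2 := 536870912) (W2 := 536870912) (P3 := 923417968) (W3 := 42949674) (N0 := 3) (En := eng) (mo := mog) (C1 := cd1q0) (C2 := cd2q1) (C3 := pd1)
    rfl (fun _ => rfl) k0_pp_011

noncomputable def f_pp_012 : ℕ → ℕ → ℕ → ℕ → Bool := onCell 0 536870912 536870912 536870912 923417968 42949674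
    (rowB 3 eng mog cd1q0 cd2q2 pd1 1 false true true .pnp 0 1 2 (qsf 0 536870912 1073741824 536870912 1) ndB1q0 ndB2q2 pcB1 Cut.none Ext.none)

def k0_pp_012 : ∃ t, chk3 f_pp_012 t 1 1 1 = true :=
  ⟨(b (l 3) (b (l 3) (a (b (l 3) (a (l 3) (b (l 3) (a (l 3) (a (l 3) (l 3)))))) (b (a (l 3) (l 3)) (a (b (l 3) (a (c (l 141900389623) (l 141900599879)) (c (l 16115752) (l 16413672)))) (b (a (c (l 16171112) (l 16410576)) (c (l 16181792) (l 16327768))) (a (c (l 16193320) (l 16341272)) (c (l 16170744) (l 16266680))))))))), by decide +kernel⟩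

theorem c_pp_012 : CertB 0 536870912 1073741824 536870912 923417968 42949674 3 eng mog cd1q0 cd2q2 pd1 false true true .pnp 0 1 2
    ndB1q0 ndB2q2 pcB1 Cut.none Ext.none :=
  certB1 (fam := false) (s1 := true) (s2 := true) (a := 0) (b := 1) (c := 2) (cn := .pnp) (n1 := ndB1q0) (n2 := ndB2q2) (pc := pcB1) (cut := Cut.none) (xt := Ext.none) (P1 := 0) (W1 := 536870912) (P2 := 1073741824) (W2 := 536870912) (P3 := 923417968) (W3 := 42949674) (N0 := 3) (En := eng) (mo := mog) (C1 := cd1q0) (C2 := cd2q2) (C3 := pd1)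
    rfl (fun _ => rfl) k0_pp_012

noncomputable def f_pp_022 : ℕ → ℕ → ℕ → ℕ → Bool := onCell 0 536870912 1073741824 536870912 923417968 42949674
    (rowB 3 eng mog cd1q0 cd2q2 pd2 1 false true true .pp 0 2 2 (qsf 0 536870912 1073741824 536870912 2) ndB1q0 ndB2q2 pcB2 Cut.none Ext.none)

def k0_pp_022 : ∃ t, chk3 f_pp_022 t 1 8 1 = true :=
  ⟨(a (a (b (a (l 3) (l 3)) (a (b (l 3) (b (a (l 3) (a (l 3) (c (l 16538080) (l 16458816)))) (a (a (l 3) (c (l 746417818855) (l 768429411303))) (a (c (l 16497896) (l 16421360)) (c (l 16494008) (l 16408640)))))) (b (a (c (l 310478487175) (b (l 3) (l 16403336))) (c (l 16539256) (l 16317904))) (c (a (b (l 16467272) (l 16488592)) (l 16429488)) (a (a (l 129015800247) (l 16367768)) (b (l 16417152) (l 16373888))))))) (b (a (b (l 3) (a (l 232095187591) (l 16323208))) (b (a (l 450064557671) (l 16210456)) (c (l 16317584) (l 16399928)))) (a (a (b (b (l 16368672) (l 16329472)) (c (l 16498512) (l 16318176))) (b (c (l 16557784)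 (l 16442584)) (l 16287192))) (a (a (l 16249976) (l 16307280)) (l 16235384))))) (a (c (b (a (b (l 16322688) (l 16352152)) (l 16218472)) (a (l 16393032) (l 16279800))) (b (a (b (l 16437752) (l 16436408)) (l 16338176)) (a (l 16356152) (l 16324696)))) (a (b (c (l 16035808) (l 16210608)) (l 16016656)) (b (c (l 15981120) (l 16077896)) (l 15880144))))), by decide +kernel⟩

def k1_pp_022 : ∃ t, chk3 f_pp_022 t 2 18 1 = true :=
  ⟨(a (a (a (b (a (a (b (b (l 3) (b (c (l 745343951207) (l 759302513575)) (a (c (c (l 16461152) (l 16431456)) (a (l 62444055655) (l 16383312))) (c (l 16445480) (l 16380624))))) (c (b (a (c (l 16445032) (l 16414088)) (l 16428808)) (a (c (l 16423624) (l 16390984)) (l 16406664))) (a (b (c (l 16381632) (l 16347672)) (c (l 16356744) (l 16320920))) (b (l 16361304) (l 16335624))))) (b (c (c (l 79087167239) (l 92508873319)) (b (l 789367249607) (l 16360760))) (c (c (l 16433656) (l 16398872)) (a (l 16337208) (l 16341776))))) (a (b (c (l 16458664)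 (l 16387504)) (c (l 16414984) (l 16337000))) (c (b (l 16456896) (l 16413656)) (b (l 16380920) (l 16330912))))) (a (c (a (b (b (a (c (l 16402304) (l 16367960)) (l 16384600)) (c (l 16396752) (l 16365368))) (b (c (l 16359880) (l 16321576)) (c (l 16338784) (l 16298808)))) (b (c (l 16391488) (l 16353384)) (c (l 16349584) (l 16308184)))) (a (b (b (c (l 16351600) (l 16292264)) (a (l 16329600) (l 16284520))) (c (a (l 16270264) (l 16267968)) (l 16268056))) (b (c (l 16313360) (l 16271424)) (l 16263152)))) (c (b (l 16365920) (a (l 16328856) (l 16329224))) (b (l 16273504) (a (l 16237096) (l 16232904)))))) (b (a (c (b (l 16454504) (l 16411968)) (b (l 16371520) (l 16322384))) (c (b (l 16451736) (l 16410528)) (b (l 16359944) (l 16312240)))) (c (a (b (l 16370336) (l 16331208)) (l 16353072)) (a (c (l 16256184) (l 16203760)) (l 16244800))))) (b (a (a (c (l 16430104) (l 16327256)) (c (l 16429856) (l 16320264))) (c (l 16431536) (l 16312632))) (a (c (l 16357992) (l 16238672))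 (c (l 16364104) (l 16233072))))) (a (c (a (l 16401456) (l 16404192)) (a (l 16162064) (l 16262848))) (c (l 16405608) (a (l 16260136) (l 16258368))))), by decide +kernel⟩

def k2_pp_022 : ∃ t, chk3 f_pp_022 t 3 18 1 = true :=
  ⟨(a (a (c (l 16399360) (l 16256696)) (l 16301040)) (a (l 16296504) (l 16194888))), by decide +kernel⟩

def k3_pp_022 : ∃ t, chk3 f_pp_022 t 1 19 1 = true :=
  ⟨(a (c (a (a (a (b (b (a (a (b (a (l 16339264) (l 16297016)) (a (c (l 16297048) (l 16254288)) (l 16276432))) (b (l 16318264) (l 16277880))) (l 16269248)) (a (a (c (a (l 16290584) (l 16271272)) (a (l 16224056) (l 16224536))) (l 16291816)) (l 16274368))) (a (a (b (c (l 16256008) (l 16185096)) (c (l 16200144) (l 16146384))) (b (l 16212912) (l 16176448))) (a (l 16176552) (l 16200456)))) (b (a (l 16276504) (l 16281400)) (a (l 16205080) (l 16211552)))) (a (b (l 16288728) (l 16221464)) (l 16182904))) (a (a (l 16278720) (l 16290432)) (l 16306664))) (a (a (a (b (b (a (a (b (a (l 16211160)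 (l 16208424)) (a (l 16228152) (l 16184248))) (c (l 16217928) (l 16168624))) (l 16230808)) (a (a (c (l 16175840) (l 16125080)) (l 16147992)) (l 16144432))) (a (b (a (c (l 16132624) (l 16077632)) (l 16103160)) (c (l 16131504) (l 16029024))) (a (l 16058256) (l 16077808)))) (b (a (l 16162368) (l 16159040)) (a (l 16076256) (l 16075136)))) (a (b (l 16156232) (l 16075856)) (b (l 16155504) (l 16080176)))) (a (a (l 16122368) (l 16129520)) (l 16144072)))) (a (a (l 16039696) (l 16265192)) (a (l 16270448) (l 2)))), by decide +kernel⟩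

def k4_pp_022 : ∃ t, chk3 f_pp_022 t 4 10 1 = true :=
  ⟨(a (b (b (a (a (c (b (a (c (l 16165824) (l 16108208)) (l 16140552)) (c (l 16155384) (l 16071888))) (b (c (l 16047520) (l 15982704)) (c (l 16006040) (l 15936872)))) (c (c (l 16160128) (l 16095656)) (c (l 16027632) (l 15956072)))) (c (a (l 16135896) (l 16143968)) (a (l 15992240) (l 15993424)))) (a (b (a (c (a (c (l 16099528) (l 16033944)) (l 16070960)) (c (l 15986224) (l 15891560))) (c (l 16077032) (l 15929072))) (a (b (c (c (l 16078376) (l 16008696)) (a (l 15917968) (l 15897128))) (c (b (c (l 16067648) (l 15996112)) (a (c (l 16058248) (l 15986264)) (l 16026840))) (b (a (l 15923248) (l 15881624)) (a (c (l 15910336) (l 15830472)) (l 15871344))))) (b (c (l 16052416) (l 15898072)) (c (b (l 16040920) (l 16033424)) (b (l 15882872) (l 15872792)))))) (a (b (l 16041792) (b (l 15983312) (c (l 16046456) (l 15880872)))) (b (l 16016616) (b (l 15990312) (l 15973408)))))) (a (a (c (a (b (c (a (l 16017408) (l 16020064))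 (a (l 15942496) (l 15944328))) (c (a (l 15947656) (l 15950792)) (l 15889552))) (b (c (l 16024144) (l 15947232)) (c (l 15955608) (l 15873480)))) (a (b (c (a (l 15863456) (l 15864392)) (l 15822216)) (c (l 15804384) (l 15693720))) (b (c (l 15865984) (l 15780424)) (l 15804400)))) (c (a (b (l 15991104) (l 15921048)) (l 15950864)) (a (b (l 15825288) (l 15744280)) (l 15772528)))) (c (a (l 15970216) (l 15982680)) (a (l 15781104) (l 15799024))))) (b (b (a (c (l 16156504) (l 15997816)) (c (l 16173976) (l 16007344))) (c (a (b (l 16109432) (l 16058880)) (l 16116248)) (a (b (l 15940912) (l 15904064)) (l 15937424)))) (c (a (l 16002272) (l 16029896)) (a (l 15813240) (l 15836528))))), by decide +kernel⟩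

def k5_pp_022 : ∃ t, chk3 f_pp_022 t 4 11 1 = true :=
  ⟨(a (a (b (a (c (c (a (b (l 15882504) (l 15818576)) (l 15858040)) (a (b (l 15796808) (l 15728072)) (l 15789544))) (b (a (c (l 15706208) (l 15610728)) (l 15683632)) (a (c (l 15632312) (l 15531288)) (l 15587272)))) (c (c (l 15870280) (l 15778984)) (b (l 15668936) (l 15595440)))) (a (c (b (c (l 15762088) (l 15666440)) (c (l 15704216) (l 15604344))) (b (c (l 15565080) (l 15458016)) (a (l 15520768) (l 15446784)))) (c (c (l 15752920) (l 15653072)) (b (l 15525376) (l 15458744))))) (c (b (a (l 15904240) (l 15858232)) (a (l 15724072) (l 15745392))) (b (a (l 15705824) (l 15655696)) (a (l 15507976) (l 15526104))))) (c (a (b (l 15884728) (l 15778728)) (l 15956128)) (a (b (l 15678208) (l 15556896)) (l 15698376)))), by decide +kernel⟩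

def k6_pp_022 : ∃ t, chk3 f_pp_022 t 5 5 1 = true :=
  ⟨(b (b (c (a (b (l 16201648) (b (l 16162216) (l 16137192))) (b (l 16238112) (l 16153672))) (a (b (l 16028152) (l 15966744)) (b (l 16064632) (l 16015424)))) (a (c (l 16074312) (l 15879320)) (c (l 16135400) (l 15947000)))) (a (c (b (l 15981328) (l 15899512)) (a (l 15701760) (l 15751160))) (c (b (l 16063440) (l 16002424)) (b (l 15866800) (l 15800136))))), by decide +kernel⟩

def k7_pp_022 : ∃ t, chk3 f_pp_022 t 3 5 1 = true :=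
  ⟨(a (b (a (b (c (l 16231680) (l 15941744)) (l 16113624)) (b (b (l 16228736) (l 16123672)) (l 16180504))) (a (c (l 16083840) (b (l 15970760) (l 15934184))) (b (l 16152184) (l 2)))) (b (a (b (a (l 16117568) (l 2)) (l 2)) (l 2)) (l 2))), by decide +kernel⟩

def k8_pp_022 : ∃ t, chk3 f_pp_022 t 2 6 1 = true :=
  ⟨(a (a (b (a (b (c (a (c (b (l 15649136) (l 15596840)) (b (l 15545288) (l 15489280))) (c (l 15646680) (l 15539328))) (a (b (a (l 15394144) (l 15381696)) (a (l 15310272) (l 15320032))) (b (l 15395552) (l 15335800)))) (c (a (c (l 15523608) (l 15431952)) (l 15495632)) (a (c (l 15332880) (l 15205448)) (l 15294568)))) (c (b (a (l 15618448) (l 15644160)) (a (l 15524456) (l 15554528))) (b (a (l 15386784) (l 15410256)) (a (l 15279368) (l 15308176))))) (a (c (b (a (b (l 15399064) (l 15356600)) (l 15409016)) (a (b (l 15317040) (l 15280392)) (l 15334024))) (b (a (b (l 15148896) (l 15100368)) (l 15153768)) (a (b (l 15055288) (l 15013656)) (l 15068712)))) (c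 (b (l 15459256) (l 15390648)) (b (l 15202712) (l 15125560))))) (b (c (a (b (l 15684264) (l 15601344)) (l 15701968)) (a (b (l 15449312) (l 15355472)) (l 15443048))) (a (c (b (l 15529960) (l 15470104)) (b (l 15275400) (l 15209144))) (b (l 15484640) (a (l 15409552) (l 15457064)))))) (b (a (c (a (l 15765192) (l 15830304)) (a (l 15532840) (l 15606288))) (b (a (l 15819272) (l 15892360)) (a (l 15781848) (l 15871160)))) (a (b (a (l 15568000) (l 15664424)) (a (b (l 15542080) (l 15538080)) (l 15660792))) (c (l 15899256) (l 15472784))))), by decide +kernel⟩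

def k9_pp_022 : ∃ t, chk3 f_pp_022 t 2 7 1 = true :=
  ⟨(a (b (a (a (c (b (a (l 15230872) (l 15270664)) (a (l 15175008) (l 15218912))) (b (a (l 15020592) (l 14997488)) (a (l 14895176) (l 14940152)))) (b (c (l 15333624) (l 15062264)) (a (l 15131728) (b (l 15190496) (l 15175328))))) (a (b (c (l 15424776) (l 15181872)) (a (b (l 15243800) (l 15243264)) (b (l 15309760) (l 15325824)))) (b (b (a (l 15379816) (l 15440984)) (l 15392024)) (l 15433312)))) (a (a (a (c (b (l 15130768) (b (a (l 15092704) (l 15120248)) (a (b (l 15084376) (l 15087456)) (l 15127280)))) (b (l 14888528) (b (a (l 14806208) (l 14835920)) (a (b (l 14798320) (l 14972808)) (l 14850816))))) (b (b (l 15052704) (a (l 15022360) (l 15198568))) (b (a (b (l 15056680) (l 15041808)) (l 15146968)) (c (l 15195624) (l 14934104))))) (b (a (c (b (l 15239784) (l 15239016)) (b (l 14962472) (l 14967328))) (c (l 15312640) (l 15177792))) (c (l 15331712) (a (l 15019736) (l 2))))) (b (a (c (l 15427000) (l 15193248))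 (l 2)) (l 2)))) (b (a (b (a (l 15548680) (l 2)) (l 2)) (l 2)) (l 2))), by decide +kernel⟩

def k10_pp_022 : ∃ t, chk3 f_pp_022 t 3 3 1 = true :=
  ⟨(b (a (b (a (b (l 16001912) (l 2)) (l 2)) (l 2)) (l 2)) (l 2)), by decide +kernel⟩

theorem s11_pp_022 : ∃ t, chk3 f_pp_022 t 2 3 1 = true := ex3_b k8_pp_022 k9_pp_022

theorem s12_pp_022 : ∃ t, chk3 f_pp_022 t 1 3 1 = true := ex3_a s11_pp_022 k10_pp_022

theorem s13_pp_022 : ∃ t, chk3 f_pp_022 t 4 5 1 = true := ex3_b k4_pp_022 k5_pp_022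

theorem s14_pp_022 : ∃ t, chk3 f_pp_022 t 2 5 1 = true := ex3_a s13_pp_022 k6_pp_022

theorem s15_pp_022 : ∃ t, chk3 f_pp_022 t 1 5 1 = true := ex3_a s14_pp_022 k7_pp_022

theorem s16_pp_022 : ∃ t, chk3 f_pp_022 t 1 18 1 = true := ex3_a k1_pp_022 k2_pp_022

theorem s17_pp_022 : ∃ t, chk3 f_pp_022 t 1 9 1 = true := ex3_b s16_pp_022 k3_pp_022

theorem s18_pp_022 : ∃ t, chk3 f_pp_022 t 1 4 1 = true := ex3_b k0_pp_022 s17_pp_022

theorem s19_pp_022 : ∃ t, chk3 f_pp_022 t 1 2 1 = true := ex3_b s18_pp_022 s15_pp_022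

theorem s20_pp_022 : ∃ t, chk3 f_pp_022 t 1 1 1 = true := ex3_b s19_pp_022 s12_pp_022

theorem c_pp_022 : CertB 0 536870912 1073741824 536870912 923417968 42949674 3 eng mog cd1q0 cd2q2 pd2 false true true .pp 0 2 2
    ndB1q0 ndB2q2 pcB2 Cut.none Ext.none :=
  certB1 (fam := false) (s1 := true) (s2 := true) (a := 0) (b := 2) (c := 2) (cn := .pp) (n1 := ndB1q0) (n2 := ndB2q2) (pc := pcB2) (cut := Cut.none) (xt := Ext.none) (P1 := 0) (W1 := 536870912) (P2 := 1073741824) (W2 := 536870912) (P3 := 923417968) (W3 := 42949674) (N0 := 3) (En := eng) (mo := mog) (C1 := cd1q0) (C2 := cd2q2) (C3 := pd2)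
    rfl (fun _ => rfl) s20_pp_022

noncomputable def f_pp_023 : ℕ → ℕ → ℕ → ℕ → Bool := onCell 1073741824 536870912 0 1230186008 923417968 42949674
    (rowB 3 eng mog cd1q0 cd2q3 pd2 2 false true true .up 0 2 3 (qsf 0 536870912 0 1230186008 2) ndB1q0 ndB2q3 pcB2 Cut.none Ext.none)

def k0_pp_023 : ∃ t, chk3 f_pp_023 t 1 1 1 = true :=
  ⟨(a (b (l 2) (b (b (l 2) (a (l 2) (b (l 2) (l 16037336)))) (a (b (l 2) (a (b (l 2) (a (l 15774824) (l 15917176))) (b (l 16010848) (a (l 16049872) (l 16148416))))) (b (a (l 16093536) (l 16140480)) (b (a (l 16203160) (l 16297688)) (a (b (l 16284096) (a (l 16308464) (l 16367648))) (l 16173872))))))) (a (b (l 2) (a (b (b (l 2) (l 15915984)) (b (l 16122096) (b (l 16246360) (b (l 16174272) (l 16087104))))) (b (b (b (l 15621688) (l 15630576)) (l 15788976)) (b (b (l 15974456) (l 16113600)) (b (l 16097624) (b (l 15984912) (l 15864432))))))) (b (b (a (l 2) (l 16092016)) (b (l 15899488) (b (l 15787640) (l 15702016)))) (b (b (b (l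 15619640) (a (l 15554064) (l 15550344))) (a (b (l 15548632) (l 15696504)) (b (l 15487328) (l 15531408)))) (b (a (b (l 15846744) (l 15985256)) (b (l 15694440) (l 15826184))) (b (a (l 15920872) (b (l 15749464) (l 15510736))) (a (b (l 15770032) (a (l 15680032) (l 15551000))) (b (a (l 15598152) (b (l 15522080) (l 15436336))) (a (b (l 15468376) (l 15365536)) (b (c (l 15383960) (l 15288416)) (c (a (l 15314056) (l 15246296)) (l 15165128)))))))))))), by decide +kernel⟩

theorem c_pp_023 : CertB 0 536870912 0 1230186008 923417968 42949674 3 eng mog cd1q0 cd2q3 pd2 false true true .up 0 2 3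
    ndB1q0 ndB2q3 pcB2 Cut.none Ext.none :=
  certB2 (fam := false) (s1 := true) (s2 := true) (a := 0) (b := 2) (c := 3) (cn := .up) (n1 := ndB1q0) (n2 := ndB2q3) (pc := pcB2) (cut := Cut.none) (xt := Ext.none) (P1 := 0) (W1 := 536870912) (P2 := 0) (W2 := 1230186008) (P3 := 923417968) (W3 := 42949674) (N0 := 3) (En := eng) (mo := mog) (C1 := cd1q0) (C2 := cd2q3) (C3 := pd2)
    rfl (fun _ => rfl) k0_pp_023

noncomputable def f_pp_033 : ℕ → ℕ → ℕ → ℕ → Bool := onCell 1610612736 536870912 0 1230186008 923417968 42949674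
    (rowB 3 eng mog cd1q0 cd2q3 pd3 2 false true true .pnn 0 3 3 (qsf 0 536870912 0 1230186008 3) ndB1q0 ndB2q3 pcB3 Cut.none Ext.none)

def k0_pp_033 : ∃ t, chk3 f_pp_033 t 1 2 1 = true :=
  ⟨(b (a (a (a (l 16340080) (l 16293480)) (l 4)) (l 4)) (a (b (a (a (l 16331448) (l 16225552)) (a (l 15928776) (l 4))) (a (b (a (l 16306184) (l 16174512)) (a (l 16281064) (l 16137968))) (b (a (l 15947232) (b (l 4) (l 15879080))) (a (l 15980776) (l 15697208))))) (a (l 4) (l 4)))), by decide +kernel⟩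

def k1_pp_033 : ∃ t, chk3 f_pp_033 t 1 6 1 = true :=
  ⟨(a (b (a (a (b (l 16266664) (l 16214744)) (b (l 16101968) (l 16031304))) (a (b (l 15924984) (l 15837344)) (b (l 15740016) (l 15635168)))) (a (a (b (l 16131096) (l 16008792)) (b (l 15929416) (a (l 15848768) (l 15737352)))) (a (b (l 15718256) (a (l 15624016) (l 15509048))) (b (a (l 15554016) (l 15443840)) (a (l 15414064) (b (l 15321456) (l 15231568))))))) (b (a (a (b (a (l 15604944) (l 4)) (a (l 15482216) (l 15384272))) (b (l 4) (a (l 4) (l 4)))) (b (l 4) (l 1))) (a (a (a (b (l 15333688) (l 934723095319)) (b (l 15227592) (l 965324537527))) (a (b (l 949755414119) (l 1)) (l 1))) (l 1)))), by decide +kernel⟩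

def k2_pp_033 : ∃ t, chk3 f_pp_033 t 1 7 1 = true :=
  ⟨(a (b (a (a (a (b (l 15896944) (l 15646728)) (b (l 15787928) (a (l 15622896) (l 15564280)))) (a (b (b (l 15722760) (l 15626960)) (b (l 15527064) (l 15487024))) (b (b (l 15607512) (l 15508904)) (b (l 15406888) (c (l 15354064) (l 15247480)))))) (b (a (a (b (l 15489744) (c (l 15434512) (l 15332632))) (b (l 15370864) (a (l 15297096) (l 15320448)))) (a (b (l 15314832) (a (l 829496292711) (l 870835180343))) (b (l 901437001527) (l 1)))) (a (c (b (a (l 15339056) (l 522406093511)) (a (l 516500569735) (l 578777101335))) (a (b (l 15222984) (l 530995901831)) (b (l 541196416295) (l 542269641415)))) (l 1)))) (a (b (a (b (c (l 15597248) (l 15566736)) (a (c (l 15480224) (l 15419856)) (c (l 15366944) (l 15296904)))) (a (b (c (l 15363760) (l 15272424)) (c (b (l 15281592) (l 497173052743)) (l 497709948887))) (b (c (l 509521255047) (l 520795380967)) (a (b (l 539049031527) (l 1)) (l 1))))) (a (a (b (c (b (l 15392736)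 (l 15331912)) (l 15319888)) (c (c (b (l 476771918103) (l 508984045031)) (l 483214374311)) (b (l 15290288) (l 488583181175)))) (b (c (b (l 488046346343) (l 493951813383)) (b (l 15224312) (l 488046160103))) (a (b (c (l 512205310327) (l 478919267479)) (l 1)) (l 1)))) (a (a (b (c (l 519184504759) (l 501467850983)) (l 1)) (l 1)) (l 1)))) (b (a (a (b (c (l 558376026311) (l 512741789783)) (l 1)) (l 1)) (l 1)) (l 1)))) (l 1)), by decide +kernel⟩

theorem s3_pp_033 : ∃ t, chk3 f_pp_033 t 1 3 1 = true := ex3_b k1_pp_033 k2_pp_033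

theorem s4_pp_033 : ∃ t, chk3 f_pp_033 t 1 1 1 = true := ex3_b k0_pp_033 s3_pp_033

theorem c_pp_033 : CertB 0 536870912 0 1230186008 923417968 42949674 3 eng mog cd1q0 cd2q3 pd3 false true true .pnn 0 3 3
    ndB1q0 ndB2q3 pcB3 Cut.none Ext.none :=
  certB2 (fam := false) (s1 := true) (s2 := true) (a := 0) (b := 3) (c := 3) (cn := .pnn) (n1 := ndB1q0) (n2 := ndB2q3) (pc := pcB3) (cut := Cut.none) (xt := Ext.none) (P1 := 0) (W1 := 536870912) (P2 := 0) (W2 := 1230186008) (P3 := 923417968) (W3 := 42949674) (N0 := 3) (En := eng) (mo := mog) (C1 := cd1q0) (C2 := cd2q3) (C3 := pd3)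
    rfl (fun _ => rfl) s4_pp_033

noncomputable def f_pp_101 : ℕ → ℕ → ℕ → ℕ → Bool := onCell 536870912 536870912 536870912 536870912 923417968 42949674
    (rowB 3 eng mog cd1q1 cd2q1 pd0 0 false true true .npn 1 0 1 (qsf 536870912 536870912 536870912 536870912 0) ndB1q1 ndB2q1 pcB0 Cut.none Ext.none)

def k0_pp_101 : ∃ t, chk3 f_pp_101 t 1 1 1 = true :=
  ⟨(l 3), by decide +kernel⟩

theorem c_pp_101 : CertB 536870912 536870912 536870912 536870912 923417968 42949674 3 eng mog cd1q1 cd2q1 pd0 false true true .npn 1 0 1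
    ndB1q1 ndB2q1 pcB0 Cut.none Ext.none :=
  certB0 (fam := false) (s1 := true) (s2 := true) (a := 1) (b := 0) (c := 1) (cn := .npn) (n1 := ndB1q1) (n2 := ndB2q1) (pc := pcB0) (cut := Cut.none) (xt := Ext.none) (P1 := 536870912) (W1 := 536870912) (P2 := 536870912) (W2 := 536870912) (P3 := 923417968) (W3 := 42949674) (N0 := 3) (En := eng) (mo := mog) (C1 := cd1q1) (C2 := cd2q1) (C3 := pd0)
    rfl k0_pp_101

noncomputable def f_pp_102 : ℕ → ℕ → ℕ → ℕ → Bool := onCell 536870912 536870912 0 536870912 923417968 42949674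
    (rowB 3 eng mog cd1q1 cd2q2 pd0 1 false true true .npp 1 0 2 (qsf 536870912 536870912 1073741824 536870912 0) ndB1q1 ndB2q2 pcB0 Cut.none Ext.none)

def k0_pp_102 : ∃ t, chk3 f_pp_102 t 1 1 1 = true :=
  ⟨(l 3), by decide +kernel⟩

theorem c_pp_102 : CertB 536870912 536870912 1073741824 536870912 923417968 42949674 3 eng mog cd1q1 cd2q2 pd0 false true true .npp 1 0 2
    ndB1q1 ndB2q2 pcB0 Cut.none Ext.none :=
  certB1 (fam := false) (s1 := true) (s2 := true) (a := 1) (b := 0) (c := 2) (cn := .npp) (n1 := ndB1q1) (n2 := ndB2q2) (pc := pcB0) (cut := Cut.none) (xt := Ext.none) (P1 := 536870912) (W1 := 536870912) (P2 := 1073741824) (W2 := 536870912) (P3 := 923417968) (W3 := 42949674) (N0 := 3) (En := eng) (mo := mog) (C1 := cd1q1) (C2 := cd2q2) (C3 := pd0)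
    rfl (fun _ => rfl) k0_pp_102

noncomputable def f_pp_112 : ℕ → ℕ → ℕ → ℕ → Bool := onCell 536870912 536870912 1073741824 536870912 923417968 42949674
    (rowB 3 eng mog cd1q1 cd2q2 pd1 2 false true true .dn 1 1 2 (qsf 536870912 536870912 1073741824 536870912 1) ndB1q1 ndB2q2 pcB1 Cut.none Ext.none)

def k0_pp_112 : ∃ t, chk3 f_pp_112 t 1 1 1 = true :=
  ⟨(a (l 3) (a (l 3) (b (l 1) (a (a (l 3) (b (l 1) (b (l 3) (c (l 15822592) (l 15899336))))) (b (l 1) (b (a (c (l 254508762263) (l 15927368)) (l 1)) (a (c (l 15740472) (l 15843376)) (c (l 15696224) (l 15803984))))))))), by decide +kernel⟩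

theorem c_pp_112 : CertB 536870912 536870912 1073741824 536870912 923417968 42949674 3 eng mog cd1q1 cd2q2 pd1 false true true .dn 1 1 2
    ndB1q1 ndB2q2 pcB1 Cut.none Ext.none :=
  certB2 (fam := false) (s1 := true) (s2 := true) (a := 1) (b := 1) (c := 2) (cn := .dn) (n1 := ndB1q1) (n2 := ndB2q2) (pc := pcB1) (cut := Cut.none) (xt := Ext.none) (P1 := 536870912) (W1 := 536870912) (P2 := 1073741824) (W2 := 536870912) (P3 := 923417968) (W3 := 42949674) (N0 := 3) (En := eng) (mo := mog) (C1 := cd1q1) (C2 := cd2q2) (C3 := pd1)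
    rfl (fun _ => rfl) k0_pp_112

noncomputable def f_pp_113 : ℕ → ℕ → ℕ → ℕ → Bool := onCell 536870912 536870912 0 1230186008 923417968 42949674
    (rowB 3 eng mog cd1q1 cd2q3 pd1 2 false true true .nn 1 1 3 (qsf 536870912 536870912 0 1230186008 1) ndB1q1 ndB2q3 pcB1 Cut.none Ext.none)

def k0_pp_113 : ∃ t, chk3 f_pp_113 t 1 1 1 = true :=
  ⟨(a (b (l 2) (b (b (l 2) (l 3)) (a (l 3) (l 3)))) (a (b (l 2) (b (a (l 3) (a (l 3) (b (b (l 16494264) (l 234779663959)) (b (l 16132488) (l 16014872))))) (b (a (l 3) (b (l 3) (l 3))) (l 3)))) (b (b (a (l 2) (l 16760456)) (b (a (l 757625967847) (l 16785928)) (b (a (b (l 16710000) (l 16735520)) (l 16859272)) (a (a (l 16706440) (l 16760944)) (l 16799048))))) (b (b (a (b (a (l 16643552) (l 16744184)) (a (l 16366400) (l 16410440))) (b (l 16808928) (a (l 16431672) (l 16450712)))) (a (a (b (l 16160976) (l 16013680)) (b (l 16171584) (l 16001056))) (a (l 16064304) (l 16059088)))) (a (b (a (b (l 15910024) (l 169817610999))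 (b (l 15880240) (l 15797992))) (b (a (c (l 15816128) (l 15790208)) (c (l 15768872) (l 15731816))) (a (l 3) (c (l 15741736) (l 15719592))))) (b (a (b (l 15847168) (l 15753472)) (b (l 15824216) (l 15720288))) (b (a (c (l 15720560) (l 15671912)) (l 15651544)) (a (c (l 15683496) (l 15649816)) (c (l 15640144) (l 15592240)))))))))), by decide +kernel⟩

theorem c_pp_113 : CertB 536870912 536870912 0 1230186008 923417968 42949674 3 eng mog cd1q1 cd2q3 pd1 false true true .nn 1 1 3
    ndB1q1 ndB2q3 pcB1 Cut.none Ext.none :=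
  certB2 (fam := false) (s1 := true) (s2 := true) (a := 1) (b := 1) (c := 3) (cn := .nn) (n1 := ndB1q1) (n2 := ndB2q3) (pc := pcB1) (cut := Cut.none) (xt := Ext.none) (P1 := 536870912) (W1 := 536870912) (P2 := 0) (W2 := 1230186008) (P3 := 923417968) (W3 := 42949674) (N0 := 3) (En := eng) (mo := mog) (C1 := cd1q1) (C2 := cd2q3) (C3 := pd1)
    rfl (fun _ => rfl) k0_pp_113

noncomputable def f_pp_123 : ℕ → ℕ → ℕ → ℕ → Bool := onCell 1073741824 536870912 0 1230186008 923417968 42949674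
    (rowB 3 eng mog cd1q1 cd2q3 pd2 2 false true true .npn 1 2 3 (qsf 536870912 536870912 0 1230186008 2) ndB1q1 ndB2q3 pcB2 Cut.none Ext.none)

def k0_pp_123 : ∃ t, chk3 f_pp_123 t 1 1 1 = true :=
  ⟨(b (b (a (a (a (l 16652520) (l 16537400)) (a (l 16411552) (l 16331904))) (a (l 16370816) (a (l 16536576) (l 16689120)))) (a (b (a (a (l 16753160) (l 16698688)) (a (l 16520888) (l 16385856))) (a (b (a (l 16815888) (l 16528760)) (a (l 16722696) (l 16388504))) (b (a (l 16375280) (l 16244504)) (l 16249440)))) (b (a (l 16311152) (l 16438424)) (a (b (a (l 16177344) (l 16181992)) (a (l 16100664) (l 16093768))) (b (l 16299048) (l 16213736)))))) (b (a (b (a (b (a (l 16417920) (l 16254744)) (a (l 16168744) (l 16138400))) (b (l 16189936) (a (l 16148360) (l 16131712)))) (a (a (b (l 15969824) (l 15810144)) (l 16133360)) (a (l 15835784) (l 16106184)))) (b (a (b (a (l 16053776) (l 16013488)) (a (l 16072544) (l 15981200))) (b (l 16006760) (l 1))) (a (a (l 16102320) (l 15997512))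 (l 1)))) (a (a (b (a (b (l 15810032) (a (l 15515136) (l 15654952))) (b (l 15879656) (l 15832496))) (a (b (a (c (l 15475016) (l 15400448)) (l 15597448)) (c (a (l 15444544) (l 15597144)) (a (l 15384784) (l 15561576)))) (b (c (l 15814800) (l 15802304)) (a (l 175588757239) (l 1))))) (b (a (b (l 16021704) (l 16014840)) (b (l 16115240) (l 1))) (a (b (l 15924576) (l 1)) (l 1)))) (l 1)))), by decide +kernel⟩

theorem c_pp_123 : CertB 536870912 536870912 0 1230186008 923417968 42949674 3 eng mog cd1q1 cd2q3 pd2 false true true .npn 1 2 3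
    ndB1q1 ndB2q3 pcB2 Cut.none Ext.none :=
  certB2 (fam := false) (s1 := true) (s2 := true) (a := 1) (b := 2) (c := 3) (cn := .npn) (n1 := ndB1q1) (n2 := ndB2q3) (pc := pcB2) (cut := Cut.none) (xt := Ext.none) (P1 := 536870912) (W1 := 536870912) (P2 := 0) (W2 := 1230186008) (P3 := 923417968) (W3 := 42949674) (N0 := 3) (En := eng) (mo := mog) (C1 := cd1q1) (C2 := cd2q3) (C3 := pd2)
    rfl (fun _ => rfl) k0_pp_123

noncomputable def f_pp_133 : ℕ → ℕ → ℕ → ℕ → Bool := onCell 536870912 536870912 0 1230186008 923417968 42949674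
    (rowB 3 eng mog cd1q1 cd2q3 pd3 0 false true true .dn 1 3 3 (qsf 536870912 536870912 0 1230186008 3) ndB1q1 ndB2q3 pcB3 Cut.none Ext.none)

def k0_pp_133 : ∃ t, chk3 f_pp_133 t 1 1 1 = true :=
  ⟨(b (b (a (a (a (l 16572448) (l 1)) (l 1)) (l 1)) (l 1)) (l 1)), by decide +kernel⟩

theorem c_pp_133 : CertB 536870912 536870912 0 1230186008 923417968 42949674 3 eng mog cd1q1 cd2q3 pd3 false true true .dn 1 3 3
    ndB1q1 ndB2q3 pcB3 Cut.none Ext.none :=
  certB0 (fam := false) (s1 := true) (s2 := true) (a := 1) (b := 3) (c := 3) (cn := .dn) (n1 := ndB1q1) (n2 := ndB2q3) (pc := pcB3) (cut := Cut.none) (xt := Ext.none) (P1 := 536870912) (W1 := 536870912) (P2 := 0) (W2 := 1230186008) (P3 := 923417968) (W3 := 42949674) (N0 := 3) (En := eng) (mo := mog) (C1 := cd1q1) (C2 := cd2q3) (C3 := pd3)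
    rfl k0_pp_133

noncomputable def f_pp_202_a : ℕ → ℕ → ℕ → ℕ → Bool := onCell 0 536870912 1073741824 536870912 923417968 42949674
    (rowB 3 eng mog cd1q2a cd2q2 pd0 0 false true true .pp 2 0 2 (qsf 0 536870912 1073741824 536870912 0) ndB1q2a ndB2q2 pcB0 Cut.none Ext.none)

def k0_pp_202_a : ∃ t, chk3 f_pp_202_a t 1 1 1 = true :=
  ⟨(l 3), by decide +kernel⟩

theorem c_pp_202_a : CertB 0 536870912 1073741824 536870912 923417968 42949674 3 eng mog cd1q2a cd2q2 pd0 false true true .pp 2 0 2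
    ndB1q2a ndB2q2 pcB0 Cut.none Ext.none :=
  certB0 (fam := false) (s1 := true) (s2 := true) (a := 2) (b := 0) (c := 2) (cn := .pp) (n1 := ndB1q2a) (n2 := ndB2q2) (pc := pcB0) (cut := Cut.none) (xt := Ext.none) (P1 := 0) (W1 := 536870912) (P2 := 1073741824) (W2 := 536870912) (P3 := 923417968) (W3 := 42949674) (N0 := 3) (En := eng) (mo := mog) (C1 := cd1q2a) (C2 := cd2q2) (C3 := pd0)
    rfl k0_pp_202_a

noncomputable def f_pp_202_b : ℕ → ℕ → ℕ → ℕ → Bool := onCell 1239849684 370763052 1073741824 536870912 923417968 42949674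
    (rowB 3 eng mog cd1q2b cd2q2 pd0 0 false true true .pp 2 0 2 (qsf 1239849684 370763052 1073741824 536870912 0) ndB1q2b ndB2q2 pcB0 Cut.none Ext.none)

def k0_pp_202_b : ∃ t, chk3 f_pp_202_b t 1 1 1 = true :=
  ⟨(l 3), by decide +kernel⟩

theorem c_pp_202_b : CertB 1239849684 370763052 1073741824 536870912 923417968 42949674 3 eng mog cd1q2b cd2q2 pd0 false true true .pp 2 0 2
    ndB1q2b ndB2q2 pcB0 Cut.none Ext.none :=
  certB0 (fam := false) (s1 := true) (s2 := true) (a := 2) (b := 0) (c := 2) (cn := .pp) (n1 := ndB1q2b) (n2 := ndB2q2) (pc := pcB0) (cut := Cut.none) (xt := Ext.none) (P1 := 1239849684) (W1 := 370763052) (P2 := 1073741824) (W2 := 536870912) (P3 := 923417968) (W3 := 42949674) (N0 := 3) (En := eng) (mo := mog) (C1 := cd1q2b) (C2 := cd2q2) (C3 := pd0)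
    rfl k0_pp_202_b

noncomputable def f_pp_203_a : ℕ → ℕ → ℕ → ℕ → Bool := onCell 0 536870912 0 1230186008 923417968 42949674
    (rowB 3 eng mog cd1q2a cd2q3 pd0 0 false true true .up 2 0 3 (qsf 0 536870912 0 1230186008 0) ndB1q2a ndB2q3 pcB0 Cut.none Ext.none)

def k0_pp_203_a : ∃ t, chk3 f_pp_203_a t 1 1 1 = true :=
  ⟨(b (l 2) (l 3)), by decide +kernel⟩

theorem c_pp_203_a : CertB 0 536870912 0 1230186008 923417968 42949674 3 eng mog cd1q2a cd2q3 pd0 false true true .up 2 0 3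
    ndB1q2a ndB2q3 pcB0 Cut.none Ext.none :=
  certB0 (fam := false) (s1 := true) (s2 := true) (a := 2) (b := 0) (c := 3) (cn := .up) (n1 := ndB1q2a) (n2 := ndB2q3) (pc := pcB0) (cut := Cut.none) (xt := Ext.none) (P1 := 0) (W1 := 536870912) (P2 := 0) (W2 := 1230186008) (P3 := 923417968) (W3 := 42949674) (N0 := 3) (En := eng) (mo := mog) (C1 := cd1q2a) (C2 := cd2q3) (C3 := pd0)
    rfl k0_pp_203_a

noncomputable def f_pp_203_b : ℕ → ℕ → ℕ → ℕ → Bool := onCell 1239849684 370763052 0 1230186008 923417968 42949674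
    (rowB 3 eng mog cd1q2b cd2q3 pd0 0 false true true .up 2 0 3 (qsf 1239849684 370763052 0 1230186008 0) ndB1q2b ndB2q3 pcB0 Cut.none Ext.none)

def k0_pp_203_b : ∃ t, chk3 f_pp_203_b t 1 1 1 = true :=
  ⟨(b (l 3) (l 3)), by decide +kernel⟩

theorem c_pp_203_b : CertB 1239849684 370763052 0 1230186008 923417968 42949674 3 eng mog cd1q2b cd2q3 pd0 false true true .up 2 0 3
    ndB1q2b ndB2q3 pcB0 Cut.none Ext.none :=
  certB0 (fam := false) (s1 := true) (s2 := true) (a := 2) (b := 0) (c := 3) (cn := .up) (n1 := ndB1q2b) (n2 := ndB2q3) (pc := pcB0) (cut := Cut.none) (xt := Ext.none) (P1 := 1239849684) (W1 := 370763052) (P2 := 0) (W2 := 1230186008) (P3 := 923417968) (W3 := 42949674) (N0 := 3) (En := eng) (mo := mog) (C1 := cd1q2b) (C2 := cd2q3) (C3 := pd0)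
    rfl k0_pp_203_b

noncomputable def cut_pp_213_a : Cut := Cut.of [[⟨0, 1, 0, 67108864⟩, ⟨1, 1, 0, 67108864⟩, ⟨2, 2, 0, 16252928⟩]]

noncomputable def f_pp_213_a : ℕ → ℕ → ℕ → ℕ → Bool := onCell 0 536870912 0 1230186008 923417968 42949674
    (rowB 3 eng mog cd1q2a cd2q3 pd1 0 false true true .pnn 2 1 3 (qsf 0 536870912 0 1230186008 1) ndB1q2a ndB2q3 pcB1 cut_pp_213_a Ext.none)

def k0_pp_213_a : ∃ t, chk3 f_pp_213_a t 1 1 1 = true :=
  ⟨(b (b (a (l 3) (a (l 3) (a (l 3) (b (l 6) (l 3))))) (l 3)) (l 3)), by decide +kernel⟩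

theorem c_pp_213_a : CertB 0 536870912 0 1230186008 923417968 42949674 3 eng mog cd1q2a cd2q3 pd1 false true true .pnn 2 1 3
    ndB1q2a ndB2q3 pcB1 cut_pp_213_a Ext.none :=
  certB0 (fam := false) (s1 := true) (s2 := true) (a := 2) (b := 1) (c := 3) (cn := .pnn) (n1 := ndB1q2a) (n2 := ndB2q3) (pc := pcB1) (cut := cut_pp_213_a) (xt := Ext.none) (P1 := 0) (W1 := 536870912) (P2 := 0) (W2 := 1230186008) (P3 := 923417968) (W3 := 42949674) (N0 := 3) (En := eng) (mo := mog) (C1 := cd1q2a) (C2 := cd2q3) (C3 := pd1)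
    rfl k0_pp_213_a

noncomputable def cut_pp_213_b : Cut := Cut.of [[⟨0, 1, 0, 67108864⟩, ⟨1, 1, 0, 67108864⟩, ⟨2, 2, 0, 16252928⟩]]

noncomputable def f_pp_213_b : ℕ → ℕ → ℕ → ℕ → Bool := onCell 1239849684 370763052 0 1230186008 923417968 42949674
    (rowB 3 eng mog cd1q2b cd2q3 pd1 0 false true true .pnn 2 1 3 (qsf 1239849684 370763052 0 1230186008 1) ndB1q2b ndB2q3 pcB1 cut_pp_213_b Ext.none)

def k0_pp_213_b : ∃ t, chk3 f_pp_213_b t 1 1 1 = true :=
  ⟨(b (l 3) (l 3)), by decide +kernel⟩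

theorem c_pp_213_b : CertB 1239849684 370763052 0 1230186008 923417968 42949674 3 eng mog cd1q2b cd2q3 pd1 false true true .pnn 2 1 3
    ndB1q2b ndB2q3 pcB1 cut_pp_213_b Ext.none :=
  certB0 (fam := false) (s1 := true) (s2 := true) (a := 2) (b := 1) (c := 3) (cn := .pnn) (n1 := ndB1q2b) (n2 := ndB2q3) (pc := pcB1) (cut := cut_pp_213_b) (xt := Ext.none) (P1 := 1239849684) (W1 := 370763052) (P2 := 0) (W2 := 1230186008) (P3 := 923417968) (W3 := 42949674) (N0 := 3) (En := eng) (mo := mog) (C1 := cd1q2b) (C2 := cd2q3) (C3 := pd1)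
    rfl k0_pp_213_b

noncomputable def f_pp_303 : ℕ → ℕ → ℕ → ℕ → Bool := onCell 1610612736 536870912 0 1230186008 923417968 42949674
    (rowB 3 eng mog cd1q3 cd2q3 pd0 0 false true true .npn 3 0 3 (qsf 1610612736 536870912 0 1230186008 0) ndB1q3 ndB2q3 pcB0 Cut.none Ext.none)

def k0_pp_303 : ∃ t, chk3 f_pp_303 t 1 1 1 = true :=
  ⟨(b (l 3) (l 3)), by decide +kernel⟩

theorem c_pp_303 : CertB 1610612736 536870912 0 1230186008 923417968 42949674 3 eng mog cd1q3 cd2q3 pd0 false true true .npn 3 0 3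
    ndB1q3 ndB2q3 pcB0 Cut.none Ext.none :=
  certB0 (fam := false) (s1 := true) (s2 := true) (a := 3) (b := 0) (c := 3) (cn := .npn) (n1 := ndB1q3) (n2 := ndB2q3) (pc := pcB0) (cut := Cut.none) (xt := Ext.none) (P1 := 1610612736) (W1 := 536870912) (P2 := 0) (W2 := 1230186008) (P3 := 923417968) (W3 := 42949674) (N0 := 3) (En := eng) (mo := mog) (C1 := cd1q3) (C2 := cd2q3) (C3 := pd0)
    rfl k0_pp_303

noncomputable def f_pp_313 : ℕ → ℕ → ℕ → ℕ → Bool := onCell 1610612736 536870912 0 1230186008 923417968 42949674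
    (rowB 3 eng mog cd1q3 cd2q3 pd1 0 false true true .dn 3 1 3 (qsf 1610612736 536870912 0 1230186008 1) ndB1q3 ndB2q3 pcB1 Cut.none Ext.none)

def k0_pp_313 : ∃ t, chk3 f_pp_313 t 1 1 1 = true :=
  ⟨(b (l 3) (l 1)), by decide +kernel⟩

theorem c_pp_313 : CertB 1610612736 536870912 0 1230186008 923417968 42949674 3 eng mog cd1q3 cd2q3 pd1 false true true .dn 3 1 3
    ndB1q3 ndB2q3 pcB1 Cut.none Ext.none :=
  certB0 (fam := false) (s1 := true) (s2 := true) (a := 3) (b := 1) (c := 3) (cn := .dn) (n1 := ndB1q3) (n2 := ndB2q3) (pc := pcB1) (cut := Cut.none) (xt := Ext.none) (P1 := 1610612736) (W1 := 536870912) (P2 := 0) (W2 := 1230186008) (P3 := 923417968) (W3 := 42949674) (N0 := 3) (En := eng) (mo := mog) (C1 := cd1q3) (C2 := cd2q3) (C3 := pd1)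
    rfl k0_pp_313

noncomputable def f_pm_001 : ℕ → ℕ → ℕ → ℕ → Bool := onCell 0 536870912 536870912 536870912 923417968 42949674
    (rowB 3 eng mog cd1q0 cd2q1 pd0 0 false true false .up 0 0 1 (qsf 0 536870912 536870912 536870912 0) ndB1q0 ndB2q1 pcB0 Cut.none Ext.none)

def k0_pm_001 : ∃ t, chk3 f_pm_001 t 1 1 1 = true :=
  ⟨(l 4), by decide +kernel⟩

theorem c_pm_001 : CertB 0 536870912 536870912 536870912 923417968 42949674 3 eng mog cd1q0 cd2q1 pd0 false true false .up 0 0 1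
    ndB1q0 ndB2q1 pcB0 Cut.none Ext.none :=
  certB0 (fam := false) (s1 := true) (s2 := false) (a := 0) (b := 0) (c := 1) (cn := .up) (n1 := ndB1q0) (n2 := ndB2q1) (pc := pcB0) (cut := Cut.none) (xt := Ext.none) (P1 := 0) (W1 := 536870912) (P2 := 536870912) (W2 := 536870912) (P3 := 923417968) (W3 := 42949674) (N0 := 3) (En := eng) (mo := mog) (C1 := cd1q0) (C2 := cd2q1) (C3 := pd0)
    rfl k0_pm_001

noncomputable def f_pm_011 : ℕ → ℕ → ℕ → ℕ → Bool := onCell 0 536870912 536870912 536870912 923417968 42949674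
    (rowB 3 eng mog cd1q0 cd2q1 pd1 0 false true false .pnn 0 1 1 (qsf 0 536870912 536870912 536870912 1) ndB1q0 ndB2q1 pcB1 Cut.none Ext.none)

def k0_pm_011 : ∃ t, chk3 f_pm_011 t 1 1 1 = true :=
  ⟨(l 4), by decide +kernel⟩

theorem c_pm_011 : CertB 0 536870912 536870912 536870912 923417968 42949674 3 eng mog cd1q0 cd2q1 pd1 false true false .pnn 0 1 1
    ndB1q0 ndB2q1 pcB1 Cut.none Ext.none :=
  certB0 (fam := false) (s1 := true) (s2 := false) (a := 0) (b := 1) (c := 1) (cn := .pnn) (n1 := ndB1q0) (n2 := ndB2q1) (pc := pcB1) (cut := Cut.none) (xt := Ext.none) (P1 := 0) (W1 := 536870912) (P2 := 536870912) (W2 := 536870912) (P3 := 923417968) (W3 := 42949674) (N0 := 3) (En := eng) (mo := mog) (C1 := cd1q0) (C2 := cd2q1) (C3 := pd1)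
    rfl k0_pm_011

noncomputable def f_pm_012 : ℕ → ℕ → ℕ → ℕ → Bool := onCell 0 536870912 1073741824 536870912 923417968 42949674
    (rowB 3 eng mog cd1q0 cd2q2 pd1 0 false true false .pnp 0 1 2 (qsf 0 536870912 1073741824 536870912 1) ndB1q0 ndB2q2 pcB1 Cut.none Ext.none)

def k0_pm_012 : ∃ t, chk3 f_pm_012 t 1 1 1 = true :=
  ⟨(a (l 4) (l 4)), by decide +kernel⟩

theorem c_pm_012 : CertB 0 536870912 1073741824 536870912 923417968 42949674 3 eng mog cd1q0 cd2q2 pd1 false true false .pnp 0 1 2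
    ndB1q0 ndB2q2 pcB1 Cut.none Ext.none :=
  certB0 (fam := false) (s1 := true) (s2 := false) (a := 0) (b := 1) (c := 2) (cn := .pnp) (n1 := ndB1q0) (n2 := ndB2q2) (pc := pcB1) (cut := Cut.none) (xt := Ext.none) (P1 := 0) (W1 := 536870912) (P2 := 1073741824) (W2 := 536870912) (P3 := 923417968) (W3 := 42949674) (N0 := 3) (En := eng) (mo := mog) (C1 := cd1q0) (C2 := cd2q2) (C3 := pd1)
    rfl k0_pm_012

noncomputable def f_pm_022 : ℕ → ℕ → ℕ → ℕ → Bool := onCell 0 536870912 1073741824 536870912 923417968 42949674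
    (rowB 3 eng mog cd1q0 cd2q2 pd2 0 false true false .pp 0 2 2 (qsf 0 536870912 1073741824 536870912 2) ndB1q0 ndB2q2 pcB2 Cut.none Ext.none)

def k0_pm_022 : ∃ t, chk3 f_pm_022 t 1 1 1 = true :=
  ⟨(a (l 4) (l 4)), by decide +kernel⟩

theorem c_pm_022 : CertB 0 536870912 1073741824 536870912 923417968 42949674 3 eng mog cd1q0 cd2q2 pd2 false true false .pp 0 2 2
    ndB1q0 ndB2q2 pcB2 Cut.none Ext.none :=
  certB0 (fam := false) (s1 := true) (s2 := false) (a := 0) (b := 2) (c := 2) (cn := .pp) (n1 := ndB1q0) (n2 := ndB2q2) (pc := pcB2) (cut := Cut.none) (xt := Ext.none) (P1 := 0) (W1 := 536870912) (P2 := 1073741824) (W2 := 536870912) (P3 := 923417968) (W3 := 42949674) (N0 := 3) (En := eng) (mo := mog) (C1 := cd1q0) (C2 := cd2q2) (C3 := pd2)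
    rfl k0_pm_022

noncomputable def f_pm_023 : ℕ → ℕ → ℕ → ℕ → Bool := onCell 0 536870912 0 1230186008 923417968 42949674
    (rowB 3 eng mog cd1q0 cd2q3 pd2 0 false true false .up 0 2 3 (qsf 0 536870912 0 1230186008 2) ndB1q0 ndB2q3 pcB2 Cut.none Ext.none)

def k0_pm_023 : ∃ t, chk3 f_pm_023 t 1 1 1 = true :=
  ⟨(a (b (l 2) (l 4)) (b (a (l 2) (b (a (l 2) (l 16260376)) (b (a (l 4) (l 16199984)) (l 4)))) (b (l 4) (l 4)))), by decide +kernel⟩

theorem c_pm_023 : CertB 0 536870912 0 1230186008 923417968 42949674 3 eng mog cd1q0 cd2q3 pd2 false true false .up 0 2 3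
    ndB1q0 ndB2q3 pcB2 Cut.none Ext.none :=
  certB0 (fam := false) (s1 := true) (s2 := false) (a := 0) (b := 2) (c := 3) (cn := .up) (n1 := ndB1q0) (n2 := ndB2q3) (pc := pcB2) (cut := Cut.none) (xt := Ext.none) (P1 := 0) (W1 := 536870912) (P2 := 0) (W2 := 1230186008) (P3 := 923417968) (W3 := 42949674) (N0 := 3) (En := eng) (mo := mog) (C1 := cd1q0) (C2 := cd2q3) (C3 := pd2)
    rfl k0_pm_023

noncomputable def f_pm_033 : ℕ → ℕ → ℕ → ℕ → Bool := onCell 0 536870912 0 1230186008 923417968 42949674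
    (rowB 3 eng mog cd1q0 cd2q3 pd3 0 false true false .pnn 0 3 3 (qsf 0 536870912 0 1230186008 3) ndB1q0 ndB2q3 pcB3 Cut.none Ext.none)

def k0_pm_033 : ∃ t, chk3 f_pm_033 t 1 1 1 = true :=
  ⟨(a (b (l 4) (l 4)) (b (a (l 4) (b (a (l 4) (a (l 16292944) (l 16298544))) (b (a (l 4) (l 335241679943)) (l 4)))) (b (l 4) (l 1)))), by decide +kernel⟩

theorem c_pm_033 : CertB 0 536870912 0 1230186008 923417968 42949674 3 eng mog cd1q0 cd2q3 pd3 false true false .pnn 0 3 3
    ndB1q0 ndB2q3 pcB3 Cut.none Ext.none :=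
  certB0 (fam := false) (s1 := true) (s2 := false) (a := 0) (b := 3) (c := 3) (cn := .pnn) (n1 := ndB1q0) (n2 := ndB2q3) (pc := pcB3) (cut := Cut.none) (xt := Ext.none) (P1 := 0) (W1 := 536870912) (P2 := 0) (W2 := 1230186008) (P3 := 923417968) (W3 := 42949674) (N0 := 3) (En := eng) (mo := mog) (C1 := cd1q0) (C2 := cd2q3) (C3 := pd3)
    rfl k0_pm_033

noncomputable def f_pm_101 : ℕ → ℕ → ℕ → ℕ → Bool := onCell 536870912 536870912 536870912 536870912 923417968 42949674
    (rowB 3 eng mog cd1q1 cd2q1 pd0 0 false true false .npn 1 0 1 (qsf 536870912 536870912 536870912 536870912 0) ndB1q1 ndB2q1 pcB0 Cut.none Ext.none)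

def k0_pm_101 : ∃ t, chk3 f_pm_101 t 1 1 1 = true :=
  ⟨(l 4), by decide +kernel⟩

theorem c_pm_101 : CertB 536870912 536870912 536870912 536870912 923417968 42949674 3 eng mog cd1q1 cd2q1 pd0 false true false .npn 1 0 1
    ndB1q1 ndB2q1 pcB0 Cut.none Ext.none :=
  certB0 (fam := false) (s1 := true) (s2 := false) (a := 1) (b := 0) (c := 1) (cn := .npn) (n1 := ndB1q1) (n2 := ndB2q1) (pc := pcB0) (cut := Cut.none) (xt := Ext.none) (P1 := 536870912) (W1 := 536870912) (P2 := 536870912) (W2 := 536870912) (P3 := 923417968) (W3 := 42949674) (N0 := 3) (En := eng) (mo := mog) (C1 := cd1q1) (C2 := cd2q1) (C3 := pd0)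
    rfl k0_pm_101

noncomputable def f_pm_102 : ℕ → ℕ → ℕ → ℕ → Bool := onCell 536870912 536870912 0 536870912 923417968 42949674
    (rowB 3 eng mog cd1q1 cd2q2 pd0 1 false true false .npp 1 0 2 (qsf 536870912 536870912 1073741824 536870912 0) ndB1q1 ndB2q2 pcB0 Cut.none Ext.none)

def k0_pm_102 : ∃ t, chk3 f_pm_102 t 2 1 1 = true :=
  ⟨(b (b (l 1) (a (l 1) (b (l 1) (a (l 1) (b (l 1) (c (l 418253163959) (l 409663200311))))))) (b (a (b (l 1) (l 4)) (b (b (a (l 1) (c (l 411274094839) (l 379598745351))) (a (c (l 375840560391) (l 15299032)) (c (l 15310872) (l 15346424)))) (a (b (b (l 337721983143) (l 344164484903)) (b (l 354901945447) (l 326112276711))) (c (b (l 15348880) (l 15374240)) (b (l 15389784) (l 15418256)))))) (a (l 4) (b (c (a (b (l 15388168) (l 15398960)) (l 15518832)) (a (l 304100650135) (b (l 15434752) (l 15440016)))) (a (b (l 275646471287) (l 263298418871)) (c (l 15389848) (l 15426832))))))), by decide +kernel⟩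

def k1_pm_102 : ∃ t, chk3 f_pm_102 t 3 2 1 = true :=
  ⟨(a (b (b (l 1) (a (l 1) (a (l 1) (a (l 1) (b (l 1) (l 520795588151)))))) (b (b (a (l 1) (c (l 508447629575) (l 482677790247))) (a (c (l 460665818711) (l 462276429767)) (c (l 15285232) (l 15251976)))) (b (a (c (l 449928698679) (l 416105833303)) (c (l 15327416) (l 15317288))) (a (c (l 15273040) (l 15280584)) (c (l 15376256) (l 15365448)))))) (b (b (b (a (l 1) (a (c (l 802116108535) (l 15198416)) (c (l 15376384) (l 15355776)))) (a (a (l 1) (c (l 696889342455) (l 793526037911))) (a (c (l 722122531015) (l 15300096)) (c (l 15461432) (l 15445552))))) (b (a (c (a (l 613137432199) (l 606695205527)) (a (l 666824457191) (l 479456744951))) (a (l 15516960) (l 15525040))) (a (a (c (l 15241480) (l 15219168)) (l 15342704)) (a (l 15460320) (l 15579208))))) (b (a (b (c (l 15372160) (l 15351312)) (c (l 15428960) (l 15406504))) (b (a (l 15511960) (l 15618488)) (a (l 15549032) (l 15644120)))) (a (c (l 15698200) (b (l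 15445056) (l 15468800))) (c (l 15645512) (l 15616528)))))), by decide +kernel⟩

def k2_pm_102 : ∃ t, chk3 f_pm_102 t 3 3 1 = true :=
  ⟨(b (a (b (a (c (b (l 15324824) (l 15362992)) (b (l 15335944) (l 15375064))) (c (l 15467888) (l 15618664))) (a (c (l 15461376) (b (l 15399936) (l 15412952))) (c (l 15458544) (l 15424024)))) (a (b (c (l 15530488) (l 15479640)) (c (l 15542256) (l 15458768))) (b (a (l 15584688) (b (l 15657832) (l 15652256))) (c (b (l 15655600) (l 15645336)) (b (l 15567336) (l 15559080)))))) (a (b (a (c (l 15417472) (l 15413064)) (c (l 15466888) (l 15404336))) (a (c (l 15415096) (l 15388280)) (c (l 15467976) (l 15367488)))) (b (a (c (l 15724928) (a (l 15410440) (l 15436376))) (b (a (l 15554272) (l 15621432)) (l 15817136))) (a (b (a (l 15449432) (l 15479568)) (a (l 15442496) (l 15457640))) (a (b (l 15513920) (l 15481240)) (b (l 15584880) (l 15548792))))))), by decide +kernel⟩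

theorem s3_pm_102 : ∃ t, chk3 f_pm_102 t 3 1 1 = true := ex3_b k1_pm_102 k2_pm_102

theorem s4_pm_102 : ∃ t, chk3 f_pm_102 t 1 1 1 = true := ex3_a k0_pm_102 s3_pm_102

theorem c_pm_102 : CertB 536870912 536870912 1073741824 536870912 923417968 42949674 3 eng mog cd1q1 cd2q2 pd0 false true false .npp 1 0 2
    ndB1q1 ndB2q2 pcB0 Cut.none Ext.none :=
  certB1 (fam := false) (s1 := true) (s2 := false) (a := 1) (b := 0) (c := 2) (cn := .npp) (n1 := ndB1q1) (n2 := ndB2q2) (pc := pcB0) (cut := Cut.none) (xt := Ext.none) (P1 := 536870912) (W1 := 536870912) (P2 := 1073741824) (W2 := 536870912) (P3 := 923417968) (W3 := 42949674) (N0 := 3) (En := eng) (mo := mog) (C1 := cd1q1) (C2 := cd2q2) (C3 := pd0)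
    rfl (fun _ => rfl) s4_pm_102

noncomputable def f_pm_112 : ℕ → ℕ → ℕ → ℕ → Bool := onCell 536870912 536870912 1073741824 536870912 923417968 42949674
    (rowB 3 eng mog cd1q1 cd2q2 pd1 2 false true false .dn 1 1 2 (qsf 536870912 536870912 1073741824 536870912 1) ndB1q1 ndB2q2 pcB1 Cut.none Ext.none)

def k0_pm_112 : ∃ t, chk3 f_pm_112 t 1 1 1 = true :=
  ⟨(a (b (a (b (l 4) (a (b (l 287994321575) (l 52844868375)) (b (l 4) (a (l 15339472) (l 4))))) (l 4)) (a (a (b (b (l 15449560) (l 15545072)) (b (b (l 15619336) (l 15641144)) (b (l 15656944) (l 15685504)))) (b (b (a (l 15345368) (l 15283112)) (l 15371968)) (b (b (l 15443192) (l 15487048)) (b (l 15506896) (l 15562088))))) (b (a (b (a (l 15225816) (l 4)) (a (l 15237072) (l 15153360))) (c (b (l 4) (l 15067128)) (l 182767167831))) (b (a (a (l 15314184) (l 15205192)) (a (l 15095888) (l 14991184))) (a (b (l 15220160) (l 15324512)) (b (l 15095344) (a (l 15196464) (l 15077208)))))))) (b (l 4) (a (b (l 4) (a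 (c (l 95794602887) (b (l 14859632) (l 14863120))) (c (l 176324792839) (l 183304000023)))) (l 4)))), by decide +kernel⟩

theorem c_pm_112 : CertB 536870912 536870912 1073741824 536870912 923417968 42949674 3 eng mog cd1q1 cd2q2 pd1 false true false .dn 1 1 2
    ndB1q1 ndB2q2 pcB1 Cut.none Ext.none :=
  certB2 (fam := false) (s1 := true) (s2 := false) (a := 1) (b := 1) (c := 2) (cn := .dn) (n1 := ndB1q1) (n2 := ndB2q2) (pc := pcB1) (cut := Cut.none) (xt := Ext.none) (P1 := 536870912) (W1 := 536870912) (P2 := 1073741824) (W2 := 536870912) (P3 := 923417968) (W3 := 42949674) (N0 := 3) (En := eng) (mo := mog) (C1 := cd1q1) (C2 := cd2q2) (C3 := pd1)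
    rfl (fun _ => rfl) k0_pm_112

noncomputable def f_pm_113 : ℕ → ℕ → ℕ → ℕ → Bool := onCell 536870912 536870912 0 1230186008 923417968 42949674
    (rowB 3 eng mog cd1q1 cd2q3 pd1 0 false true false .nn 1 1 3 (qsf 536870912 536870912 0 1230186008 1) ndB1q1 ndB2q3 pcB1 Cut.none Ext.none)

def k0_pm_113 : ∃ t, chk3 f_pm_113 t 1 1 1 = true :=
  ⟨(a (b (l 2) (b (b (l 2) (a (l 2) (a (l 2) (b (l 2) (l 14465896))))) (b (a (l 2) (b (a (l 14091304) (l 14467952)) (a (b (l 14144400) (l 14192088)) (l 14508584)))) (a (l 4) (b (a (b (l 111899523879) (l 123174012983)) (b (l 14718200) (c (l 14704392) (l 14592464)))) (a (c (l 133374980727) (b (l 14464160) (l 14599232))) (c (b (l 14782080) (l 14869624)) (b (l 14710112) (l 14881776))))))))) (a (b (l 2) (a (b (b (l 2) (l 14897888)) (b (b (l 14821824) (l 14824720)) (b (b (l 14857112) (a (l 14866824) (l 14958048))) (b (a (l 14914504) (l 15018944)) (a (l 15024248) (l 15115872)))))) (b (b (b (l 15801680) (l 15568592)) (l 15295200))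 (b (b (l 15146224) (l 15110096)) (b (l 15126544) (c (l 15419800) (b (a (l 15060168) (l 15160608)) (l 15191784)))))))) (b (b (a (l 2) (b (l 16660240) (l 16607512))) (b (a (l 16327128) (l 16509600)) (b (a (l 16293168) (l 16459400)) (l 16383696)))) (b (b (b (l 16381672) (a (l 16044664) (l 16455848))) (a (l 15655888) (l 15963224))) (b (a (l 15617712) (b (l 15674528) (l 15566336))) (b (a (l 15342640) (l 15522112)) (a (b (l 15368592) (l 15410168)) (l 15539552)))))))), by decide +kernel⟩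

theorem c_pm_113 : CertB 536870912 536870912 0 1230186008 923417968 42949674 3 eng mog cd1q1 cd2q3 pd1 false true false .nn 1 1 3
    ndB1q1 ndB2q3 pcB1 Cut.none Ext.none :=
  certB0 (fam := false) (s1 := true) (s2 := false) (a := 1) (b := 1) (c := 3) (cn := .nn) (n1 := ndB1q1) (n2 := ndB2q3) (pc := pcB1) (cut := Cut.none) (xt := Ext.none) (P1 := 536870912) (W1 := 536870912) (P2 := 0) (W2 := 1230186008) (P3 := 923417968) (W3 := 42949674) (N0 := 3) (En := eng) (mo := mog) (C1 := cd1q1) (C2 := cd2q3) (C3 := pd1)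
    rfl k0_pm_113

noncomputable def f_pm_123 : ℕ → ℕ → ℕ → ℕ → Bool := onCell 1073741824 536870912 0 1230186008 923417968 42949674
    (rowB 3 eng mog cd1q1 cd2q3 pd2 2 false true false .npn 1 2 3 (qsf 536870912 536870912 0 1230186008 2) ndB1q1 ndB2q3 pcB2 Cut.none Ext.none)

def k0_pm_123 : ∃ t, chk3 f_pm_123 t 1 1 1 = true :=
  ⟨(b (b (a (a (a (l 16902784) (l 16492344)) (a (l 16362352) (l 16334032))) (a (a (l 16379936) (l 16480968)) (a (l 16621832) (l 16740208)))) (a (b (a (a (l 16542488) (l 16343232)) (l 16467608)) (a (b (a (l 16409904) (l 16268800)) (a (l 16351640) (l 16039176))) (b (a (l 16173824) (l 16195704)) (a (l 15998552) (l 16071368))))) (b (a (l 16430128) (a (l 16619376) (l 16734592))) (a (b (a (l 16291152) (l 16431304)) (a (l 16202536) (l 16362448))) (a (b (l 16575368) (l 16502800)) (l 4)))))) (b (a (b (a (a (b (l 15932944) (l 15528472)) (b (l 15774224) (l 15516256))) (b (a (l 15819360) (l 15948568)) (a (l 15641608) (l 15826024)))) (a (a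 (l 15005560) (l 15164096)) (a (l 15494952) (l 15654896)))) (a (b (a (b (l 16119296) (l 16030400)) (b (l 16293184) (l 4))) (l 4)) (l 4))) (a (a (a (b (b (l 14582408) (a (l 14288744) (l 14481168))) (l 4)) (b (b (l 14894552) (l 14796040)) (l 4))) (b (a (b (l 15250368) (l 4)) (l 4)) (l 4))) (l 1)))), by decide +kernel⟩

theorem c_pm_123 : CertB 536870912 536870912 0 1230186008 923417968 42949674 3 eng mog cd1q1 cd2q3 pd2 false true false .npn 1 2 3
    ndB1q1 ndB2q3 pcB2 Cut.none Ext.none :=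
  certB2 (fam := false) (s1 := true) (s2 := false) (a := 1) (b := 2) (c := 3) (cn := .npn) (n1 := ndB1q1) (n2 := ndB2q3) (pc := pcB2) (cut := Cut.none) (xt := Ext.none) (P1 := 536870912) (W1 := 536870912) (P2 := 0) (W2 := 1230186008) (P3 := 923417968) (W3 := 42949674) (N0 := 3) (En := eng) (mo := mog) (C1 := cd1q1) (C2 := cd2q3) (C3 := pd2)
    rfl (fun _ => rfl) k0_pm_123

noncomputable def f_pm_133 : ℕ → ℕ → ℕ → ℕ → Bool := onCell 536870912 536870912 0 1230186008 923417968 42949674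
    (rowB 3 eng mog cd1q1 cd2q3 pd3 0 false true false .dn 1 3 3 (qsf 536870912 536870912 0 1230186008 3) ndB1q1 ndB2q3 pcB3 Cut.none Ext.none)

def k0_pm_133 : ∃ t, chk3 f_pm_133 t 1 1 1 = true :=
  ⟨(b (b (a (a (a (l 101502510087) (l 1)) (l 1)) (l 1)) (l 1)) (l 1)), by decide +kernel⟩

theorem c_pm_133 : CertB 536870912 536870912 0 1230186008 923417968 42949674 3 eng mog cd1q1 cd2q3 pd3 false true false .dn 1 3 3
    ndB1q1 ndB2q3 pcB3 Cut.none Ext.none :=
  certB0 (fam := false) (s1 := true) (s2 := false) (a := 1) (b := 3) (c := 3) (cn := .dn) (n1 := ndB1q1) (n2 := ndB2q3) (pc := pcB3) (cut := Cut.none) (xt := Ext.none) (P1 := 536870912) (W1 := 536870912) (P2 := 0) (W2 := 1230186008) (P3 := 923417968) (W3 := 42949674) (N0 := 3) (En := eng) (mo := mog) (C1 := cd1q1) (C2 := cd2q3) (C3 := pd3)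
    rfl k0_pm_133

noncomputable def f_pm_202_a : ℕ → ℕ → ℕ → ℕ → Bool := onCell 0 536870912 0 536870912 923417968 42949674
    (rowB 3 eng mog cd1q2a cd2q2 pd0 1 false true false .pp 2 0 2 (qsf 0 536870912 1073741824 536870912 0) ndB1q2a ndB2q2 pcB0 Cut.none Ext.none)

def k0_pm_202_a : ∃ t, chk3 f_pm_202_a t 2 1 1 = true :=
  ⟨(b (l 3) (l 3)), by decide +kernel⟩

def k1_pm_202_a : ∃ t, chk3 f_pm_202_a t 12 1 1 = true :=
  ⟨(b (b (a (l 3) (a (l 3) (b (b (b (b (c (a (a (l 3) (b (b (l 133847713047) (l 16271464)) (l 119889076871))) (b (a (b (l 16280784) (l 16321264)) (l 16291912)) (a (b (l 16300072) (l 16278840)) (b (l 16288240) (l 16287032))))) (a (b (l 114520188535) (l 16177176)) (b (a (l 16254128) (l 16204728)) (a (l 16188504) (l 16197992))))) (c (b (b (c (l 113983502695) (l 16255088)) (l 117741599783)) (a (l 3) (l 16284016))) (b (l 113983333111) (l 114520200151)))) (b (a (l 3) (c (l 16285832) (l 16191504))) (c (l 132773969447) (l 16207024)))) (a (l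 3) (b (c (l 16294744) (l 16196456)) (l 3)))) (l 3)))) (l 3)) (l 3)), by decide +kernel⟩

def k2_pm_202_a : ∃ t, chk3 f_pm_202_a t 26 1 1 = true :=
  ⟨(b (b (b (b (a (b (b (c (a (l 16308312) (l 16333656)) (l 16215944)) (a (c (b (c (l 16322488) (l 16279744)) (a (l 16295192) (l 16304000))) (b (l 16253544) (l 16228936))) (c (l 16325072) (l 16237112)))) (c (b (a (l 16300440) (b (l 16318152) (l 16316656))) (a (l 16302344) (l 16317064))) (b (a (l 16206520) (b (l 16226160) (l 16222664))) (b (l 16213728) (l 16214048))))) (b (c (b (l 16373184) (l 16365416)) (b (l 16296760) (l 16283280))) (b (c (l 16356224) (l 16268360)) (a (b (l 16310304) (l 16286880)) (l 16335760))))) (b (c (a (b (l 16312352) (l 16315872)) (b (l 16323272) (l 16343744))) (a (b (l 16215176) (l 16217424)) (b (l 16226664) (l 16244944)))) (c (b (l 16333160) (l 16337120)) (b (l 16212264) (l 16215048))))) (b (b (c (a (l 16331712) (l 16355680)) (b (l 16218224) (l 16221616))) (c (l 16352920) (l 93582078615)))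 (c (b (l 16361888) (l 16369576)) (b (l 16212184) (l 16259328))))) (b (b (c (l 97340333143) (b (l 16262296) (l 16262440))) (c (l 16315856) (l 112372579511))) (b (b (l 108614381767) (l 112909344455)) (l 3)))) (b (l 3) (l 3))), by decide +kernel⟩

def k3_pm_202_a : ∃ t, chk3 f_pm_202_a t 27 1 1 = true :=
  ⟨(b (c (b (b (b (b (a (l 16425464) (l 16484672)) (a (l 16408960) (l 16469928))) (b (a (b (l 16393288) (l 16383176)) (l 16449968)) (a (l 16380568) (l 16426368)))) (b (b (a (l 16382232) (l 16416232)) (l 16402384)) (l 16348168))) (b (b (l 16355616) (l 16376696)) (b (l 16372376) (l 16364408)))) (b (b (b (b (a (l 16354272) (l 16421992)) (a (l 16326440) (l 16396040))) (b (a (b (l 16302272) (l 16287256)) (l 16364864)) (a (l 16238128) (l 16288776)))) (b (b (a (l 16278712) (l 16313464)) (l 16296664)) (b (l 16300400) (l 16303600)))) (b (b (l 16242336) (l 16301280)) (b (l 16293552) (l 16283080))))) (b (b (b (c (l 16353520) (l 16270816)) (c (l 16363072) (l 16259480)))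 (b (c (l 16375400) (l 16252720)) (l 122572953303))) (b (b (l 16108704) (l 3)) (l 2)))), by decide +kernel⟩

def k4_pm_202_a : ∃ t, chk3 f_pm_202_a t 7 2 1 = true :=
  ⟨(b (a (b (b (a (b (a (l 16437344) (l 16571296)) (b (l 16397160) (l 16386720))) (b (l 16521832) (l 16537728))) (a (b (b (l 16374952) (l 16341088)) (b (l 16327232) (l 16312560))) (c (l 16491192) (l 16398856)))) (b (b (a (a (c (l 16466432) (l 16369272)) (l 16368968)) (l 16426264)) (a (a (b (l 16254760) (l 16354792)) (b (l 16385856) (l 16368528))) (a (l 16349608) (l 16451632)))) (a (a (a (l 16286392) (l 16301136)) (b (a (l 16359864) (l 16365136)) (l 16346128))) (b (c (l 16563800) (l 16345440)) (a (l 16328528) (l 16459512)))))) (b (b (b (a (b (a (l 16576504) (l 16480320)) (l 16394912)) (b (c (c (l 16404704) (l 16417776)) (l 16343120)) (a (c (l 16438288) (l 16452800)) (a (l 16399328) (l 16360624))))) (a (a (l 16565136) (l 16508312)) (a (b (l 16447944) (l 16444248)) (b (c (a (l 16406936) (l 16373168))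 (l 16355256)) (a (l 16394840) (l 16379376)))))) (a (b (l 16406424) (l 16385680)) (b (a (l 16437768) (l 16347872)) (a (l 16434128) (l 16341448))))) (b (b (a (l 16368640) (c (l 16385560) (l 16412056))) (a (b (l 16355184) (l 16429056)) (b (c (l 16387744) (l 16422360)) (l 16270976)))) (b (a (l 16318064) (c (l 16287088) (l 16315800))) (a (l 16416192) (l 16203752)))))) (b (b (b (a (a (l 16289640) (b (l 16283312) (l 16296720))) (a (l 16468496) (l 16260304))) (a (a (l 16288800) (l 16248320)) (a (l 16423640) (l 16271080)))) (a (a (c (l 16466984) (l 16350568)) (l 16240488)) (a (a (c (l 16565160) (l 16429888)) (l 16345712)) (a (l 16350528) (l 16244296))))) (a (b (a (c (l 16459936) (l 16340272)) (l 16228360)) (a (c (l 16449056) (l 16327072)) (l 16254696))) (a (b (c (l 16519648) (l 16451376)) (l 16360088)) (b (c (l 16247880) (l 16432640)) (b (l 16225032) (l 16297968))))))), by decide +kernel⟩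

def k5_pm_202_a : ∃ t, chk3 f_pm_202_a t 7 3 1 = true :=
  ⟨(b (c (b (a (b (l 16353528) (l 16377760)) (b (l 16304256) (l 16405560))) (a (a (l 16252384) (l 16433560)) (b (l 16380464) (l 16354744)))) (b (a (a (b (l 16311720) (l 16296408)) (b (l 16361864) (l 16342080))) (b (l 16292072) (l 16366360))) (a (b (a (l 16284320) (l 16324544)) (l 16188960)) (a (l 16340528) (l 16414152))))) (b (a (b (c (l 16399424) (l 16226264)) (c (l 16392752) (l 16269520))) (c (b (l 16327416) (l 16298240)) (b (l 16352544) (l 16333944)))) (a (b (c (l 16385792) (l 16292832)) (l 2)) (c (b (l 16269224) (l 16241816)) (b (l 16316328) (l 16297456)))))), by decide +kernel⟩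

theorem s6_pm_202_a : ∃ t, chk3 f_pm_202_a t 7 1 1 = true := ex3_b k4_pm_202_a k5_pm_202_a

theorem s7_pm_202_a : ∃ t, chk3 f_pm_202_a t 13 1 1 = true := ex3_a k2_pm_202_a k3_pm_202_a

theorem s8_pm_202_a : ∃ t, chk3 f_pm_202_a t 6 1 1 = true := ex3_a k1_pm_202_a s7_pm_202_a

theorem s9_pm_202_a : ∃ t, chk3 f_pm_202_a t 3 1 1 = true := ex3_a s8_pm_202_a s6_pm_202_a

theorem s10_pm_202_a : ∃ t, chk3 f_pm_202_a t 1 1 1 = true := ex3_a k0_pm_202_a s9_pm_202_a

theorem c_pm_202_a : CertB 0 536870912 1073741824 536870912 923417968 42949674 3 eng mog cd1q2a cd2q2 pd0 false true false .pp 2 0 2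
    ndB1q2a ndB2q2 pcB0 Cut.none Ext.none :=
  certB1 (fam := false) (s1 := true) (s2 := false) (a := 2) (b := 0) (c := 2) (cn := .pp) (n1 := ndB1q2a) (n2 := ndB2q2) (pc := pcB0) (cut := Cut.none) (xt := Ext.none) (P1 := 0) (W1 := 536870912) (P2 := 1073741824) (W2 := 536870912) (P3 := 923417968) (W3 := 42949674) (N0 := 3) (En := eng) (mo := mog) (C1 := cd1q2a) (C2 := cd2q2) (C3 := pd0)
    rfl (fun _ => rfl) s10_pm_202_a

noncomputable def f_pm_202_b : ℕ → ℕ → ℕ → ℕ → Bool := onCell 1239849684 370763052 1073741824 536870912 923417968 42949674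
    (rowB 3 eng mog cd1q2b cd2q2 pd0 0 false true false .pp 2 0 2 (qsf 1239849684 370763052 1073741824 536870912 0) ndB1q2b ndB2q2 pcB0 Cut.none Ext.none)

def k0_pm_202_b : ∃ t, chk3 f_pm_202_b t 1 1 1 = true :=
  ⟨(l 3), by decide +kernel⟩

theorem c_pm_202_b : CertB 1239849684 370763052 1073741824 536870912 923417968 42949674 3 eng mog cd1q2b cd2q2 pd0 false true false .pp 2 0 2
    ndB1q2b ndB2q2 pcB0 Cut.none Ext.none :=
  certB0 (fam := false) (s1 := true) (s2 := false) (a := 2) (b := 0) (c := 2) (cn := .pp) (n1 := ndB1q2b) (n2 := ndB2q2) (pc := pcB0) (cut := Cut.none) (xt := Ext.none) (P1 := 1239849684) (W1 := 370763052) (P2 := 1073741824) (W2 := 536870912) (P3 := 923417968) (W3 := 42949674) (N0 := 3) (En := eng) (mo := mog) (C1 := cd1q2b) (C2 := cd2q2) (C3 := pd0)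
    rfl k0_pm_202_b

noncomputable def f_pm_203_a : ℕ → ℕ → ℕ → ℕ → Bool := onCell 0 536870912 0 1230186008 923417968 42949674
    (rowB 3 eng mog cd1q2a cd2q3 pd0 0 false true false .up 2 0 3 (qsf 0 536870912 0 1230186008 0) ndB1q2a ndB2q3 pcB0 Cut.none Ext.none)

def k0_pm_203_a : ∃ t, chk3 f_pm_203_a t 1 1 1 = true :=
  ⟨(b (l 2) (b (l 2) (a (l 3) (b (l 2) (a (b (l 3) (l 3)) (b (a (b (l 2) (a (l 16262592) (l 2))) (l 2)) (a (b (a (l 16179448) (l 16211976)) (a (l 16315472) (l 16200864))) (b (a (l 16127520) (l 2)) (a (l 16157560) (l 16059048)))))))))), by decide +kernel⟩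

theorem c_pm_203_a : CertB 0 536870912 0 1230186008 923417968 42949674 3 eng mog cd1q2a cd2q3 pd0 false true false .up 2 0 3
    ndB1q2a ndB2q3 pcB0 Cut.none Ext.none :=
  certB0 (fam := false) (s1 := true) (s2 := false) (a := 2) (b := 0) (c := 3) (cn := .up) (n1 := ndB1q2a) (n2 := ndB2q3) (pc := pcB0) (cut := Cut.none) (xt := Ext.none) (P1 := 0) (W1 := 536870912) (P2 := 0) (W2 := 1230186008) (P3 := 923417968) (W3 := 42949674) (N0 := 3) (En := eng) (mo := mog) (C1 := cd1q2a) (C2 := cd2q3) (C3 := pd0)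
    rfl k0_pm_203_a

noncomputable def f_pm_203_b : ℕ → ℕ → ℕ → ℕ → Bool := onCell 1239849684 370763052 0 1230186008 923417968 42949674
    (rowB 3 eng mog cd1q2b cd2q3 pd0 0 false true false .up 2 0 3 (qsf 1239849684 370763052 0 1230186008 0) ndB1q2b ndB2q3 pcB0 Cut.none Ext.none)

def k0_pm_203_b : ∃ t, chk3 f_pm_203_b t 1 1 1 = true :=
  ⟨(b (l 3) (l 3)), by decide +kernel⟩

theorem c_pm_203_b : CertB 1239849684 370763052 0 1230186008 923417968 42949674 3 eng mog cd1q2b cd2q3 pd0 false true false .up 2 0 3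
    ndB1q2b ndB2q3 pcB0 Cut.none Ext.none :=
  certB0 (fam := false) (s1 := true) (s2 := false) (a := 2) (b := 0) (c := 3) (cn := .up) (n1 := ndB1q2b) (n2 := ndB2q3) (pc := pcB0) (cut := Cut.none) (xt := Ext.none) (P1 := 1239849684) (W1 := 370763052) (P2 := 0) (W2 := 1230186008) (P3 := 923417968) (W3 := 42949674) (N0 := 3) (En := eng) (mo := mog) (C1 := cd1q2b) (C2 := cd2q3) (C3 := pd0)
    rfl k0_pm_203_b

noncomputable def cut_pm_213_a : Cut := Cut.of [[⟨0, 1, 0, 67108864⟩, ⟨1, 1, 0, 67108864⟩, ⟨2, 2, 0, 16252928⟩]]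

noncomputable def f_pm_213_a : ℕ → ℕ → ℕ → ℕ → Bool := onCell 0 536870912 0 1230186008 923417968 42949674
    (rowB 3 eng mog cd1q2a cd2q3 pd1 0 false true false .pnn 2 1 3 (qsf 0 536870912 0 1230186008 1) ndB1q2a ndB2q3 pcB1 cut_pm_213_a Ext.none)

def k0_pm_213_a : ∃ t, chk3 f_pm_213_a t 2 1 1 = true :=
  ⟨(b (l 3) (b (l 3) (l 3))), by decide +kernel⟩

def k1_pm_213_a : ∃ t, chk3 f_pm_213_a t 6 1 1 = true :=
  ⟨(b (l 3) (b (l 3) (b (l 3) (b (l 3) (l 1))))), by decide +kernel⟩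

def k2_pm_213_a : ∃ t, chk3 f_pm_213_a t 14 1 1 = true :=
  ⟨(b (b (l 3) (l 3)) (b (b (b (l 3) (l 3)) (a (l 3) (b (a (l 3) (a (l 3) (b (l 319605235799) (l 56001535351)))) (b (c (l 64054651303) (l 65665164663)) (a (l 3) (l 36674148647)))))) (b (b (a (l 3) (b (a (l 16190496) (l 16150584)) (a (l 16183224) (l 16140416)))) (a (b (l 3) (l 16282144)) (b (c (l 16181296) (l 16132032)) (c (l 16181128) (l 16130736))))) (b (a (a (l 3) (b (l 16230944) (l 16243456))) (b (c (l 16184976) (l 16132520)) (c (l 16192544) (l 16137408)))) (b (a (c (l 16304552) (l 16085528)) (b (l 16173272) (l 16179200))) (l 1)))))), by decide +kernel⟩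

def k3_pm_213_a : ∃ t, chk3 f_pm_213_a t 15 4 1 = true :=
  ⟨(b (l 6) (a (l 3) (b (b (l 6) (b (l 6) (a (a (l 3) (a (l 3) (l 388862290183))) (a (c (l 16762848) (l 161229009831)) (l 16743952))))) (a (a (l 3) (b (b (c (l 293836155431) (l 295983612727)) (c (l 284709350439) (l 286856806183))) (a (b (l 383493573991) (l 279340615575)) (c (l 16775104) (l 16759504))))) (a (b (c (b (l 16772832) (l 16772616)) (b (l 16768648) (l 16767472))) (b (l 16748744) (l 16748720))) (b (c (l 16767440) (l 16760896)) (l 16738216))))))), by decide +kernel⟩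

def k4_pm_213_a : ∃ t, chk3 f_pm_213_a t 15 5 1 = true :=
  ⟨(a (a (b (l 3) (b (l 3) (l 3))) (b (b (l 3) (b (l 3) (a (l 3) (b (l 254107698055) (l 197199390695))))) (b (b (a (l 3) (c (l 122037410551) (l 118279292887))) (b (c (l 113984298391) (l 109689308279)) (c (b (l 16717896) (l 16736112)) (b (l 82308875767) (l 16717656))))) (b (b (c (l 104857469191) (l 100562466199)) (c (l 78550782823) (l 76403262615))) (b (c (l 16720568) (l 16589048)) (c (l 16714216) (l 16526952))))))) (a (c (b (b (b (a (l 416242724391) (b (l 16776216) (l 16777256))) (a (l 265918843975) (l 16779840))) (b (a (l 195051892391) (l 16786032)) (a (l 16775552) (l 16796328)))) (b (b (b (l 16795240) (l 16776752)) (b (l 16756440) (l 16741672))) (b (b (l 16736880) (l 16732112)) (b (l 16727040) (l 16721632))))) (b (b (b (a (l 406579017351) (b (l 16759728) (l 16770368))) (a (a (l 424295759239) (l 262697614647)) (l 16771520))) (b (a (l 203104941607) (l 16775808)) (a (l 16766056) (l 16784200))))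 (b (b (a (l 16730320) (l 16769720)) (b (l 16735640) (l 16717880))) (b (b (l 16711688) (l 16705496)) (b (l 16651200) (l 16572232)))))) (b (b (b (a (c (l 16774656) (l 16766032)) (l 16745160)) (a (l 16752336) (l 16748832))) (b (b (l 16754960) (l 16758760)) (a (l 16767496) (l 16764880)))) (b (b (b (l 16742760) (l 16723192)) (b (l 16701480) (c (l 16742336) (l 16712768)))) (b (b (c (l 16738664) (l 16707552)) (c (l 16734736) (l 16702040))) (c (b (l 16730536) (l 16726032)) (b (l 16696208) (l 16648440)))))))), by decide +kernel⟩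

def k5_pm_213_a : ∃ t, chk3 f_pm_213_a t 15 3 1 = true :=
  ⟨(b (b (b (b (a (c (a (b (l 116131708615) (l 87677510887)) (b (l 16659096) (l 16595120))) (a (b (l 180019114455) (l 88214103655)) (b (l 16469504) (l 16416576)))) (c (a (b (l 16715848) (l 16653008)) (l 16697472)) (b (a (l 16500112) (l 16554952)) (a (l 16434408) (l 16471016))))) (a (c (a (b (l 82308706359) (l 75329293287)) (b (l 16536016) (l 16481464))) (a (b (l 16412912) (l 16333576)) (b (l 16368024) (l 16323592)))) (c (b (l 16631312) (l 16576880)) (b (l 16425256) (l 16323064))))) (b (a (c (a (b (l 16422816) (l 16383760)) (b (l 16431280) (l 16385160))) (b (a (l 16299240) (l 16283088)) (c (l 16287936) (l 16226264)))) (c (b (l 16466328) (l 16404216)) (b (l 16268736) (l 16220032)))) (a (c (a (l 16332776) (l 16325296)) (b (l 16226568) (l 16199184))) (c (b (l 16349784) (l 16301816)) (l 16304888))))) (b (a (b (c (b (l 16281072) (l 16252696)) (a (l 16180240) (l 16144848))) (c (a (l 16227536) (l 16202296))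 (l 16121752))) (b (c (l 16321512) (l 16090200)) (c (l 16207504) (l 16034968)))) (a (b (c (l 16193936) (l 16089424)) (c (l 16140352) (l 16064864))) (b (c (l 16106848) (l 15990792)) (c (l 16059896) (l 15956488)))))) (b (a (b (b (c (l 16116080) (l 16046960)) (c (l 16098552) (l 16033608))) (b (c (l 16086448) (l 16023856)) (c (l 16078832) (l 16017056)))) (b (b (c (l 16023512) (l 15930592)) (c (l 15996048) (l 15911472))) (b (c (l 15975240) (l 15896440)) (c (l 15959800) (l 15884872))))) (b (a (b (c (l 16075488) (l 16013584)) (c (l 16075992) (l 16013216))) (b (c (l 15948704) (l 15876088)) (c (l 15941800) (l 15870616)))) (b (a (c (l 16080064) (l 16016000)) (c (l 15938392) (l 15867992))) (a (c (l 16087528) (l 16022176)) (c (l 15937792) (l 15867864))))))), by decide +kernel⟩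

theorem s6_pm_213_a : ∃ t, chk3 f_pm_213_a t 15 2 1 = true := ex3_b k3_pm_213_a k4_pm_213_a

theorem s7_pm_213_a : ∃ t, chk3 f_pm_213_a t 15 1 1 = true := ex3_b s6_pm_213_a k5_pm_213_a

theorem s8_pm_213_a : ∃ t, chk3 f_pm_213_a t 7 1 1 = true := ex3_a k2_pm_213_a s7_pm_213_a

theorem s9_pm_213_a : ∃ t, chk3 f_pm_213_a t 3 1 1 = true := ex3_a k1_pm_213_a s8_pm_213_a

theorem s10_pm_213_a : ∃ t, chk3 f_pm_213_a t 1 1 1 = true := ex3_a k0_pm_213_a s9_pm_213_a

theorem c_pm_213_a : CertB 0 536870912 0 1230186008 923417968 42949674 3 eng mog cd1q2a cd2q3 pd1 false true false .pnn 2 1 3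
    ndB1q2a ndB2q3 pcB1 cut_pm_213_a Ext.none :=
  certB0 (fam := false) (s1 := true) (s2 := false) (a := 2) (b := 1) (c := 3) (cn := .pnn) (n1 := ndB1q2a) (n2 := ndB2q3) (pc := pcB1) (cut := cut_pm_213_a) (xt := Ext.none) (P1 := 0) (W1 := 536870912) (P2 := 0) (W2 := 1230186008) (P3 := 923417968) (W3 := 42949674) (N0 := 3) (En := eng) (mo := mog) (C1 := cd1q2a) (C2 := cd2q3) (C3 := pd1)
    rfl s10_pm_213_a

noncomputable def cut_pm_213_b : Cut := Cut.of [[⟨0, 1, 0, 67108864⟩, ⟨1, 1, 0, 67108864⟩, ⟨2, 2, 0, 16252928⟩]]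

noncomputable def f_pm_213_b : ℕ → ℕ → ℕ → ℕ → Bool := onCell 1239849684 370763052 0 1230186008 923417968 42949674
    (rowB 3 eng mog cd1q2b cd2q3 pd1 0 false true false .pnn 2 1 3 (qsf 1239849684 370763052 0 1230186008 1) ndB1q2b ndB2q3 pcB1 cut_pm_213_b Ext.none)

def k0_pm_213_b : ∃ t, chk3 f_pm_213_b t 1 1 1 = true :=
  ⟨(b (l 3) (l 3)), by decide +kernel⟩

theorem c_pm_213_b : CertB 1239849684 370763052 0 1230186008 923417968 42949674 3 eng mog cd1q2b cd2q3 pd1 false true false .pnn 2 1 3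
    ndB1q2b ndB2q3 pcB1 cut_pm_213_b Ext.none :=
  certB0 (fam := false) (s1 := true) (s2 := false) (a := 2) (b := 1) (c := 3) (cn := .pnn) (n1 := ndB1q2b) (n2 := ndB2q3) (pc := pcB1) (cut := cut_pm_213_b) (xt := Ext.none) (P1 := 1239849684) (W1 := 370763052) (P2 := 0) (W2 := 1230186008) (P3 := 923417968) (W3 := 42949674) (N0 := 3) (En := eng) (mo := mog) (C1 := cd1q2b) (C2 := cd2q3) (C3 := pd1)
    rfl k0_pm_213_b

noncomputable def f_pm_303 : ℕ → ℕ → ℕ → ℕ → Bool := onCell 1610612736 536870912 0 1230186008 923417968 42949674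
    (rowB 3 eng mog cd1q3 cd2q3 pd0 0 false true false .npn 3 0 3 (qsf 1610612736 536870912 0 1230186008 0) ndB1q3 ndB2q3 pcB0 Cut.none Ext.none)

def k0_pm_303 : ∃ t, chk3 f_pm_303 t 1 1 1 = true :=
  ⟨(b (l 3) (l 3)), by decide +kernel⟩

theorem c_pm_303 : CertB 1610612736 536870912 0 1230186008 923417968 42949674 3 eng mog cd1q3 cd2q3 pd0 false true false .npn 3 0 3
    ndB1q3 ndB2q3 pcB0 Cut.none Ext.none :=
  certB0 (fam := false) (s1 := true) (s2 := false) (a := 3) (b := 0) (c := 3) (cn := .npn) (n1 := ndB1q3) (n2 := ndB2q3) (pc := pcB0) (cut := Cut.none) (xt := Ext.none) (P1 := 1610612736) (W1 := 536870912) (P2 := 0) (W2 := 1230186008) (P3 := 923417968) (W3 := 42949674) (N0 := 3) (En := eng) (mo := mog) (C1 := cd1q3) (C2 := cd2q3) (C3 := pd0)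
    rfl k0_pm_303

noncomputable def f_pm_313 : ℕ → ℕ → ℕ → ℕ → Bool := onCell 1610612736 536870912 0 1230186008 923417968 42949674
    (rowB 3 eng mog cd1q3 cd2q3 pd1 0 false true false .dn 3 1 3 (qsf 1610612736 536870912 0 1230186008 1) ndB1q3 ndB2q3 pcB1 Cut.none Ext.none)

def k0_pm_313 : ∃ t, chk3 f_pm_313 t 1 1 1 = true :=
  ⟨(b (l 3) (l 1)), by decide +kernel⟩

theorem c_pm_313 : CertB 1610612736 536870912 0 1230186008 923417968 42949674 3 eng mog cd1q3 cd2q3 pd1 false true false .dn 3 1 3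
    ndB1q3 ndB2q3 pcB1 Cut.none Ext.none :=
  certB0 (fam := false) (s1 := true) (s2 := false) (a := 3) (b := 1) (c := 3) (cn := .dn) (n1 := ndB1q3) (n2 := ndB2q3) (pc := pcB1) (cut := Cut.none) (xt := Ext.none) (P1 := 1610612736) (W1 := 536870912) (P2 := 0) (W2 := 1230186008) (P3 := 923417968) (W3 := 42949674) (N0 := 3) (En := eng) (mo := mog) (C1 := cd1q3) (C2 := cd2q3) (C3 := pd1)
    rfl k0_pm_313

noncomputable def f_mm_001 : ℕ → ℕ → ℕ → ℕ → Bool := onCell 0 536870912 0 536870912 923417968 42949674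
    (rowB 3 eng mog cd1q0 cd2q1 pd0 1 false false false .up 0 0 1 (qsf 0 536870912 536870912 536870912 0) ndB1q0 ndB2q1 pcB0 Cut.none Ext.none)

def k0_mm_001 : ∃ t, chk3 f_mm_001 t 1 1 1 = true :=
  ⟨(l 3), by decide +kernel⟩

theorem c_mm_001 : CertB 0 536870912 536870912 536870912 923417968 42949674 3 eng mog cd1q0 cd2q1 pd0 false false false .up 0 0 1
    ndB1q0 ndB2q1 pcB0 Cut.none Ext.none :=
  certB1 (fam := false) (s1 := false) (s2 := false) (a := 0) (b := 0) (c := 1) (cn := .up) (n1 := ndB1q0) (n2 := ndB2q1) (pc := pcB0) (cut := Cut.none) (xt := Ext.none) (P1 := 0) (W1 := 536870912) (P2 := 536870912) (W2 := 536870912) (P3 := 923417968) (W3 := 42949674) (N0 := 3) (En := eng) (mo := mog) (C1 := cd1q0) (C2 := cd2q1) (C3 := pd0)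
    rfl (fun _ => rfl) k0_mm_001

noncomputable def f_mm_011 : ℕ → ℕ → ℕ → ℕ → Bool := onCell 0 536870912 536870912 536870912 923417968 42949674
    (rowB 3 eng mog cd1q0 cd2q1 pd1 1 false false false .pnn 0 1 1 (qsf 0 536870912 536870912 536870912 1) ndB1q0 ndB2q1 pcB1 Cut.none Ext.none)

def k0_mm_011 : ∃ t, chk3 f_mm_011 t 1 1 1 = true :=
  ⟨(l 5), by decide +kernel⟩

theorem c_mm_011 : CertB 0 536870912 536870912 536870912 923417968 42949674 3 eng mog cd1q0 cd2q1 pd1 false false false .pnn 0 1 1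
    ndB1q0 ndB2q1 pcB1 Cut.none Ext.none :=
  certB1 (fam := false) (s1 := false) (s2 := false) (a := 0) (b := 1) (c := 1) (cn := .pnn) (n1 := ndB1q0) (n2 := ndB2q1) (pc := pcB1) (cut := Cut.none) (xt := Ext.none) (P1 := 0) (W1 := 536870912) (P2 := 536870912) (W2 := 536870912) (P3 := 923417968) (W3 := 42949674) (N0 := 3) (En := eng) (mo := mog) (C1 := cd1q0) (C2 := cd2q1) (C3 := pd1)
    rfl (fun _ => rfl) k0_mm_011

noncomputable def f_mm_012 : ℕ → ℕ → ℕ → ℕ → Bool := onCell 0 536870912 1073741824 536870912 923417968 42949674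
    (rowB 3 eng mog cd1q0 cd2q2 pd1 0 false false false .pnp 0 1 2 (qsf 0 536870912 1073741824 536870912 1) ndB1q0 ndB2q2 pcB1 Cut.none Ext.none)

def k0_mm_012 : ∃ t, chk3 f_mm_012 t 1 1 1 = true :=
  ⟨(l 5), by decide +kernel⟩

theorem c_mm_012 : CertB 0 536870912 1073741824 536870912 923417968 42949674 3 eng mog cd1q0 cd2q2 pd1 false false false .pnp 0 1 2
    ndB1q0 ndB2q2 pcB1 Cut.none Ext.none :=
  certB0 (fam := false) (s1 := false) (s2 := false) (a := 0) (b := 1) (c := 2) (cn := .pnp) (n1 := ndB1q0) (n2 := ndB2q2) (pc := pcB1) (cut := Cut.none) (xt := Ext.none) (P1 := 0) (W1 := 536870912) (P2 := 1073741824) (W2 := 536870912) (P3 := 923417968) (W3 := 42949674) (N0 := 3) (En := eng) (mo := mog) (C1 := cd1q0) (C2 := cd2q2) (C3 := pd1)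
    rfl k0_mm_012

noncomputable def f_mm_022 : ℕ → ℕ → ℕ → ℕ → Bool := onCell 0 536870912 1073741824 536870912 923417968 42949674
    (rowB 3 eng mog cd1q0 cd2q2 pd2 0 false false false .pp 0 2 2 (qsf 0 536870912 1073741824 536870912 2) ndB1q0 ndB2q2 pcB2 Cut.none Ext.none)

def k0_mm_022 : ∃ t, chk3 f_mm_022 t 1 1 1 = true :=
  ⟨(l 5), by decide +kernel⟩

theorem c_mm_022 : CertB 0 536870912 1073741824 536870912 923417968 42949674 3 eng mog cd1q0 cd2q2 pd2 false false false .pp 0 2 2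
    ndB1q0 ndB2q2 pcB2 Cut.none Ext.none :=
  certB0 (fam := false) (s1 := false) (s2 := false) (a := 0) (b := 2) (c := 2) (cn := .pp) (n1 := ndB1q0) (n2 := ndB2q2) (pc := pcB2) (cut := Cut.none) (xt := Ext.none) (P1 := 0) (W1 := 536870912) (P2 := 1073741824) (W2 := 536870912) (P3 := 923417968) (W3 := 42949674) (N0 := 3) (En := eng) (mo := mog) (C1 := cd1q0) (C2 := cd2q2) (C3 := pd2)
    rfl k0_mm_022

noncomputable def f_mm_023 : ℕ → ℕ → ℕ → ℕ → Bool := onCell 0 536870912 0 1230186008 923417968 42949674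
    (rowB 3 eng mog cd1q0 cd2q3 pd2 0 false false false .up 0 2 3 (qsf 0 536870912 0 1230186008 2) ndB1q0 ndB2q3 pcB2 Cut.none Ext.none)

def k0_mm_023 : ∃ t, chk3 f_mm_023 t 1 1 1 = true :=
  ⟨(l 5), by decide +kernel⟩

theorem c_mm_023 : CertB 0 536870912 0 1230186008 923417968 42949674 3 eng mog cd1q0 cd2q3 pd2 false false false .up 0 2 3
    ndB1q0 ndB2q3 pcB2 Cut.none Ext.none :=
  certB0 (fam := false) (s1 := false) (s2 := false) (a := 0) (b := 2) (c := 3) (cn := .up) (n1 := ndB1q0) (n2 := ndB2q3) (pc := pcB2) (cut := Cut.none) (xt := Ext.none) (P1 := 0) (W1 := 536870912) (P2 := 0) (W2 := 1230186008) (P3 := 923417968) (W3 := 42949674) (N0 := 3) (En := eng) (mo := mog) (C1 := cd1q0) (C2 := cd2q3) (C3 := pd2)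
    rfl k0_mm_023

noncomputable def f_mm_033 : ℕ → ℕ → ℕ → ℕ → Bool := onCell 0 536870912 0 1230186008 923417968 42949674
    (rowB 3 eng mog cd1q0 cd2q3 pd3 0 false false false .pnn 0 3 3 (qsf 0 536870912 0 1230186008 3) ndB1q0 ndB2q3 pcB3 Cut.none Ext.none)

def k0_mm_033 : ∃ t, chk3 f_mm_033 t 1 1 1 = true :=
  ⟨(l 5), by decide +kernel⟩

theorem c_mm_033 : CertB 0 536870912 0 1230186008 923417968 42949674 3 eng mog cd1q0 cd2q3 pd3 false false false .pnn 0 3 3
    ndB1q0 ndB2q3 pcB3 Cut.none Ext.none :=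
  certB0 (fam := false) (s1 := false) (s2 := false) (a := 0) (b := 3) (c := 3) (cn := .pnn) (n1 := ndB1q0) (n2 := ndB2q3) (pc := pcB3) (cut := Cut.none) (xt := Ext.none) (P1 := 0) (W1 := 536870912) (P2 := 0) (W2 := 1230186008) (P3 := 923417968) (W3 := 42949674) (N0 := 3) (En := eng) (mo := mog) (C1 := cd1q0) (C2 := cd2q3) (C3 := pd3)
    rfl k0_mm_033

noncomputable def f_mm_101 : ℕ → ℕ → ℕ → ℕ → Bool := onCell 536870912 536870912 536870912 536870912 923417968 42949674
    (rowB 3 eng mog cd1q1 cd2q1 pd0 0 false false false .npn 1 0 1 (qsf 536870912 536870912 536870912 536870912 0) ndB1q1 ndB2q1 pcB0 Cut.none Ext.none)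

def k0_mm_101 : ∃ t, chk3 f_mm_101 t 1 1 1 = true :=
  ⟨(l 3), by decide +kernel⟩

theorem c_mm_101 : CertB 536870912 536870912 536870912 536870912 923417968 42949674 3 eng mog cd1q1 cd2q1 pd0 false false false .npn 1 0 1
    ndB1q1 ndB2q1 pcB0 Cut.none Ext.none :=
  certB0 (fam := false) (s1 := false) (s2 := false) (a := 1) (b := 0) (c := 1) (cn := .npn) (n1 := ndB1q1) (n2 := ndB2q1) (pc := pcB0) (cut := Cut.none) (xt := Ext.none) (P1 := 536870912) (W1 := 536870912) (P2 := 536870912) (W2 := 536870912) (P3 := 923417968) (W3 := 42949674) (N0 := 3) (En := eng) (mo := mog) (C1 := cd1q1) (C2 := cd2q1) (C3 := pd0)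
    rfl k0_mm_101

noncomputable def f_mm_102 : ℕ → ℕ → ℕ → ℕ → Bool := onCell 536870912 536870912 1073741824 536870912 923417968 42949674
    (rowB 3 eng mog cd1q1 cd2q2 pd0 0 false false false .npp 1 0 2 (qsf 536870912 536870912 1073741824 536870912 0) ndB1q1 ndB2q2 pcB0 Cut.none Ext.none)

def k0_mm_102 : ∃ t, chk3 f_mm_102 t 1 1 1 = true :=
  ⟨(l 5), by decide +kernel⟩

theorem c_mm_102 : CertB 536870912 536870912 1073741824 536870912 923417968 42949674 3 eng mog cd1q1 cd2q2 pd0 false false false .npp 1 0 2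
    ndB1q1 ndB2q2 pcB0 Cut.none Ext.none :=
  certB0 (fam := false) (s1 := false) (s2 := false) (a := 1) (b := 0) (c := 2) (cn := .npp) (n1 := ndB1q1) (n2 := ndB2q2) (pc := pcB0) (cut := Cut.none) (xt := Ext.none) (P1 := 536870912) (W1 := 536870912) (P2 := 1073741824) (W2 := 536870912) (P3 := 923417968) (W3 := 42949674) (N0 := 3) (En := eng) (mo := mog) (C1 := cd1q1) (C2 := cd2q2) (C3 := pd0)
    rfl k0_mm_102

noncomputable def f_mm_112 : ℕ → ℕ → ℕ → ℕ → Bool := onCell 536870912 536870912 1073741824 536870912 923417968 42949674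
    (rowB 3 eng mog cd1q1 cd2q2 pd1 0 false false false .dn 1 1 2 (qsf 536870912 536870912 1073741824 536870912 1) ndB1q1 ndB2q2 pcB1 Cut.none Ext.none)

def k0_mm_112 : ∃ t, chk3 f_mm_112 t 1 1 1 = true :=
  ⟨(l 5), by decide +kernel⟩

theorem c_mm_112 : CertB 536870912 536870912 1073741824 536870912 923417968 42949674 3 eng mog cd1q1 cd2q2 pd1 false false false .dn 1 1 2
    ndB1q1 ndB2q2 pcB1 Cut.none Ext.none :=
  certB0 (fam := false) (s1 := false) (s2 := false) (a := 1) (b := 1) (c := 2) (cn := .dn) (n1 := ndB1q1) (n2 := ndB2q2) (pc := pcB1) (cut := Cut.none) (xt := Ext.none) (P1 := 536870912) (W1 := 536870912) (P2 := 1073741824) (W2 := 536870912) (P3 := 923417968) (W3 := 42949674) (N0 := 3) (En := eng) (mo := mog) (C1 := cd1q1) (C2 := cd2q2) (C3 := pd1)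
    rfl k0_mm_112

noncomputable def f_mm_113 : ℕ → ℕ → ℕ → ℕ → Bool := onCell 536870912 536870912 0 1230186008 923417968 42949674
    (rowB 3 eng mog cd1q1 cd2q3 pd1 0 false false false .nn 1 1 3 (qsf 536870912 536870912 0 1230186008 1) ndB1q1 ndB2q3 pcB1 Cut.none Ext.none)

def k0_mm_113 : ∃ t, chk3 f_mm_113 t 1 1 1 = true :=
  ⟨(l 5), by decide +kernel⟩

theorem c_mm_113 : CertB 536870912 536870912 0 1230186008 923417968 42949674 3 eng mog cd1q1 cd2q3 pd1 false false false .nn 1 1 3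
    ndB1q1 ndB2q3 pcB1 Cut.none Ext.none :=
  certB0 (fam := false) (s1 := false) (s2 := false) (a := 1) (b := 1) (c := 3) (cn := .nn) (n1 := ndB1q1) (n2 := ndB2q3) (pc := pcB1) (cut := Cut.none) (xt := Ext.none) (P1 := 536870912) (W1 := 536870912) (P2 := 0) (W2 := 1230186008) (P3 := 923417968) (W3 := 42949674) (N0 := 3) (En := eng) (mo := mog) (C1 := cd1q1) (C2 := cd2q3) (C3 := pd1)
    rfl k0_mm_113

noncomputable def f_mm_123 : ℕ → ℕ → ℕ → ℕ → Bool := onCell 536870912 536870912 0 1230186008 923417968 42949674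
    (rowB 3 eng mog cd1q1 cd2q3 pd2 0 false false false .npn 1 2 3 (qsf 536870912 536870912 0 1230186008 2) ndB1q1 ndB2q3 pcB2 Cut.none Ext.none)

def k0_mm_123 : ∃ t, chk3 f_mm_123 t 1 1 1 = true :=
  ⟨(l 5), by decide +kernel⟩

theorem c_mm_123 : CertB 536870912 536870912 0 1230186008 923417968 42949674 3 eng mog cd1q1 cd2q3 pd2 false false false .npn 1 2 3
    ndB1q1 ndB2q3 pcB2 Cut.none Ext.none :=
  certB0 (fam := false) (s1 := false) (s2 := false) (a := 1) (b := 2) (c := 3) (cn := .npn) (n1 := ndB1q1) (n2 := ndB2q3) (pc := pcB2) (cut := Cut.none) (xt := Ext.none) (P1 := 536870912) (W1 := 536870912) (P2 := 0) (W2 := 1230186008) (P3 := 923417968) (W3 := 42949674) (N0 := 3) (En := eng) (mo := mog) (C1 := cd1q1) (C2 := cd2q3) (C3 := pd2)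
    rfl k0_mm_123

noncomputable def f_mm_133 : ℕ → ℕ → ℕ → ℕ → Bool := onCell 536870912 536870912 0 1230186008 923417968 42949674
    (rowB 3 eng mog cd1q1 cd2q3 pd3 0 false false false .dn 1 3 3 (qsf 536870912 536870912 0 1230186008 3) ndB1q1 ndB2q3 pcB3 Cut.none Ext.none)

def k0_mm_133 : ∃ t, chk3 f_mm_133 t 1 1 1 = true :=
  ⟨(l 5), by decide +kernel⟩

theorem c_mm_133 : CertB 536870912 536870912 0 1230186008 923417968 42949674 3 eng mog cd1q1 cd2q3 pd3 false false false .dn 1 3 3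
    ndB1q1 ndB2q3 pcB3 Cut.none Ext.none :=
  certB0 (fam := false) (s1 := false) (s2 := false) (a := 1) (b := 3) (c := 3) (cn := .dn) (n1 := ndB1q1) (n2 := ndB2q3) (pc := pcB3) (cut := Cut.none) (xt := Ext.none) (P1 := 536870912) (W1 := 536870912) (P2 := 0) (W2 := 1230186008) (P3 := 923417968) (W3 := 42949674) (N0 := 3) (En := eng) (mo := mog) (C1 := cd1q1) (C2 := cd2q3) (C3 := pd3)
    rfl k0_mm_133

noncomputable def f_mm_202_a : ℕ → ℕ → ℕ → ℕ → Bool := onCell 0 536870912 1073741824 536870912 923417968 42949674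
    (rowB 3 eng mog cd1q2a cd2q2 pd0 0 false false false .pp 2 0 2 (qsf 0 536870912 1073741824 536870912 0) ndB1q2a ndB2q2 pcB0 Cut.none Ext.none)

def k0_mm_202_a : ∃ t, chk3 f_mm_202_a t 1 1 1 = true :=
  ⟨(l 3), by decide +kernel⟩

theorem c_mm_202_a : CertB 0 536870912 1073741824 536870912 923417968 42949674 3 eng mog cd1q2a cd2q2 pd0 false false false .pp 2 0 2
    ndB1q2a ndB2q2 pcB0 Cut.none Ext.none :=
  certB0 (fam := false) (s1 := false) (s2 := false) (a := 2) (b := 0) (c := 2) (cn := .pp) (n1 := ndB1q2a) (n2 := ndB2q2) (pc := pcB0) (cut := Cut.none) (xt := Ext.none) (P1 := 0) (W1 := 536870912) (P2 := 1073741824) (W2 := 536870912) (P3 := 923417968) (W3 := 42949674) (N0 := 3) (En := eng) (mo := mog) (C1 := cd1q2a) (C2 := cd2q2) (C3 := pd0)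
    rfl k0_mm_202_a

noncomputable def f_mm_202_b : ℕ → ℕ → ℕ → ℕ → Bool := onCell 1239849684 370763052 1073741824 536870912 923417968 42949674
    (rowB 3 eng mog cd1q2b cd2q2 pd0 0 false false false .pp 2 0 2 (qsf 1239849684 370763052 1073741824 536870912 0) ndB1q2b ndB2q2 pcB0 Cut.none Ext.none)

def k0_mm_202_b : ∃ t, chk3 f_mm_202_b t 1 1 1 = true :=
  ⟨(l 3), by decide +kernel⟩

theorem c_mm_202_b : CertB 1239849684 370763052 1073741824 536870912 923417968 42949674 3 eng mog cd1q2b cd2q2 pd0 false false false .pp 2 0 2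
    ndB1q2b ndB2q2 pcB0 Cut.none Ext.none :=
  certB0 (fam := false) (s1 := false) (s2 := false) (a := 2) (b := 0) (c := 2) (cn := .pp) (n1 := ndB1q2b) (n2 := ndB2q2) (pc := pcB0) (cut := Cut.none) (xt := Ext.none) (P1 := 1239849684) (W1 := 370763052) (P2 := 1073741824) (W2 := 536870912) (P3 := 923417968) (W3 := 42949674) (N0 := 3) (En := eng) (mo := mog) (C1 := cd1q2b) (C2 := cd2q2) (C3 := pd0)
    rfl k0_mm_202_b

noncomputable def f_mm_203_a : ℕ → ℕ → ℕ → ℕ → Bool := onCell 0 536870912 0 1230186008 923417968 42949674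
    (rowB 3 eng mog cd1q2a cd2q3 pd0 0 false false false .up 2 0 3 (qsf 0 536870912 0 1230186008 0) ndB1q2a ndB2q3 pcB0 Cut.none Ext.none)

def k0_mm_203_a : ∃ t, chk3 f_mm_203_a t 1 1 1 = true :=
  ⟨(b (l 2) (l 3)), by decide +kernel⟩

theorem c_mm_203_a : CertB 0 536870912 0 1230186008 923417968 42949674 3 eng mog cd1q2a cd2q3 pd0 false false false .up 2 0 3
    ndB1q2a ndB2q3 pcB0 Cut.none Ext.none :=
  certB0 (fam := false) (s1 := false) (s2 := false) (a := 2) (b := 0) (c := 3) (cn := .up) (n1 := ndB1q2a) (n2 := ndB2q3) (pc := pcB0) (cut := Cut.none) (xt := Ext.none) (P1 := 0) (W1 := 536870912) (P2 := 0) (W2 := 1230186008) (P3 := 923417968) (W3 := 42949674) (N0 := 3) (En := eng) (mo := mog) (C1 := cd1q2a) (C2 := cd2q3) (C3 := pd0)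
    rfl k0_mm_203_a

noncomputable def f_mm_203_b : ℕ → ℕ → ℕ → ℕ → Bool := onCell 1239849684 370763052 0 1230186008 923417968 42949674
    (rowB 3 eng mog cd1q2b cd2q3 pd0 0 false false false .up 2 0 3 (qsf 1239849684 370763052 0 1230186008 0) ndB1q2b ndB2q3 pcB0 Cut.none Ext.none)

def k0_mm_203_b : ∃ t, chk3 f_mm_203_b t 1 1 1 = true :=
  ⟨(b (l 3) (l 3)), by decide +kernel⟩

theorem c_mm_203_b : CertB 1239849684 370763052 0 1230186008 923417968 42949674 3 eng mog cd1q2b cd2q3 pd0 false false false .up 2 0 3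
    ndB1q2b ndB2q3 pcB0 Cut.none Ext.none :=
  certB0 (fam := false) (s1 := false) (s2 := false) (a := 2) (b := 0) (c := 3) (cn := .up) (n1 := ndB1q2b) (n2 := ndB2q3) (pc := pcB0) (cut := Cut.none) (xt := Ext.none) (P1 := 1239849684) (W1 := 370763052) (P2 := 0) (W2 := 1230186008) (P3 := 923417968) (W3 := 42949674) (N0 := 3) (En := eng) (mo := mog) (C1 := cd1q2b) (C2 := cd2q3) (C3 := pd0)
    rfl k0_mm_203_b

noncomputable def f_mm_213_a : ℕ → ℕ → ℕ → ℕ → Bool := onCell 0 536870912 0 1230186008 923417968 42949674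
    (rowB 3 eng mog cd1q2a cd2q3 pd1 0 false false false .pnn 2 1 3 (qsf 0 536870912 0 1230186008 1) ndB1q2a ndB2q3 pcB1 Cut.none Ext.none)

def k0_mm_213_a : ∃ t, chk3 f_mm_213_a t 1 1 1 = true :=
  ⟨(b (l 5) (l 3)), by decide +kernel⟩

theorem c_mm_213_a : CertB 0 536870912 0 1230186008 923417968 42949674 3 eng mog cd1q2a cd2q3 pd1 false false false .pnn 2 1 3
    ndB1q2a ndB2q3 pcB1 Cut.none Ext.none :=
  certB0 (fam := false) (s1 := false) (s2 := false) (a := 2) (b := 1) (c := 3) (cn := .pnn) (n1 := ndB1q2a) (n2 := ndB2q3) (pc := pcB1) (cut := Cut.none) (xt := Ext.none) (P1 := 0) (W1 := 536870912) (P2 := 0) (W2 := 1230186008) (P3 := 923417968) (W3 := 42949674) (N0 := 3) (En := eng) (mo := mog) (C1 := cd1q2a) (C2 := cd2q3) (C3 := pd1)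
    rfl k0_mm_213_a

noncomputable def f_mm_213_b : ℕ → ℕ → ℕ → ℕ → Bool := onCell 1239849684 370763052 0 1230186008 923417968 42949674
    (rowB 3 eng mog cd1q2b cd2q3 pd1 0 false false false .pnn 2 1 3 (qsf 1239849684 370763052 0 1230186008 1) ndB1q2b ndB2q3 pcB1 Cut.none Ext.none)

def k0_mm_213_b : ∃ t, chk3 f_mm_213_b t 1 1 1 = true :=
  ⟨(b (l 3) (l 3)), by decide +kernel⟩

theorem c_mm_213_b : CertB 1239849684 370763052 0 1230186008 923417968 42949674 3 eng mog cd1q2b cd2q3 pd1 false false false .pnn 2 1 3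
    ndB1q2b ndB2q3 pcB1 Cut.none Ext.none :=
  certB0 (fam := false) (s1 := false) (s2 := false) (a := 2) (b := 1) (c := 3) (cn := .pnn) (n1 := ndB1q2b) (n2 := ndB2q3) (pc := pcB1) (cut := Cut.none) (xt := Ext.none) (P1 := 1239849684) (W1 := 370763052) (P2 := 0) (W2 := 1230186008) (P3 := 923417968) (W3 := 42949674) (N0 := 3) (En := eng) (mo := mog) (C1 := cd1q2b) (C2 := cd2q3) (C3 := pd1)
    rfl k0_mm_213_b

noncomputable def f_mm_303 : ℕ → ℕ → ℕ → ℕ → Bool := onCell 1610612736 536870912 0 1230186008 923417968 42949674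
    (rowB 3 eng mog cd1q3 cd2q3 pd0 0 false false false .npn 3 0 3 (qsf 1610612736 536870912 0 1230186008 0) ndB1q3 ndB2q3 pcB0 Cut.none Ext.none)

def k0_mm_303 : ∃ t, chk3 f_mm_303 t 1 1 1 = true :=
  ⟨(b (l 3) (l 3)), by decide +kernel⟩

theorem c_mm_303 : CertB 1610612736 536870912 0 1230186008 923417968 42949674 3 eng mog cd1q3 cd2q3 pd0 false false false .npn 3 0 3
    ndB1q3 ndB2q3 pcB0 Cut.none Ext.none :=
  certB0 (fam := false) (s1 := false) (s2 := false) (a := 3) (b := 0) (c := 3) (cn := .npn) (n1 := ndB1q3) (n2 := ndB2q3) (pc := pcB0) (cut := Cut.none) (xt := Ext.none) (P1 := 1610612736) (W1 := 536870912) (P2 := 0) (W2 := 1230186008) (P3 := 923417968) (W3 := 42949674) (N0 := 3) (En := eng) (mo := mog) (C1 := cd1q3) (C2 := cd2q3) (C3 := pd0)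
    rfl k0_mm_303

noncomputable def f_mm_313 : ℕ → ℕ → ℕ → ℕ → Bool := onCell 1610612736 536870912 0 1230186008 923417968 42949674
    (rowB 3 eng mog cd1q3 cd2q3 pd1 0 false false false .dn 3 1 3 (qsf 1610612736 536870912 0 1230186008 1) ndB1q3 ndB2q3 pcB1 Cut.none Ext.none)

def k0_mm_313 : ∃ t, chk3 f_mm_313 t 1 1 1 = true :=
  ⟨(b (l 3) (l 1)), by decide +kernel⟩

theorem c_mm_313 : CertB 1610612736 536870912 0 1230186008 923417968 42949674 3 eng mog cd1q3 cd2q3 pd1 false false false .dn 3 1 3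
    ndB1q3 ndB2q3 pcB1 Cut.none Ext.none :=
  certB0 (fam := false) (s1 := false) (s2 := false) (a := 3) (b := 1) (c := 3) (cn := .dn) (n1 := ndB1q3) (n2 := ndB2q3) (pc := pcB1) (cut := Cut.none) (xt := Ext.none) (P1 := 1610612736) (W1 := 536870912) (P2 := 0) (W2 := 1230186008) (P3 := 923417968) (W3 := 42949674) (N0 := 3) (En := eng) (mo := mog) (C1 := cd1q3) (C2 := cd2q3) (C3 := pd1)
    rfl k0_mm_313

end Pool.Agent.Strip051.G.I8600_9000.Tab.C.BB12

namespace Pool.Agent.Strip051.G.I8600_9000.Tab.C.BB13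

open Pool.Agent.Strip051.PB Pool.Agent.Strip051.PB.T
open Pool.Agent.Strip051.G.I8600_9000.Tab

noncomputable def f_pp_001 : ℕ → ℕ → ℕ → ℕ → Bool := onCell 0 536870912 0 536870912 923417968 42949674
    (rowB 3 eng mog cd1q0 cd3q1 pd0 1 false true true .up 0 0 1 (qsf 0 536870912 536870912 536870912 0) ndB1q0 ndB3q1 pcB0 Cut.none Ext.none)

def k0_pp_001 : ∃ t, chk3 f_pp_001 t 1 1 1 = true :=
  ⟨(l 3), by decide +kernel⟩

theorem c_pp_001 : CertB 0 536870912 536870912 536870912 923417968 42949674 3 eng mog cd1q0 cd3q1 pd0 false true true .up 0 0 1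
    ndB1q0 ndB3q1 pcB0 Cut.none Ext.none :=
  certB1 (fam := false) (s1 := true) (s2 := true) (a := 0) (b := 0) (c := 1) (cn := .up) (n1 := ndB1q0) (n2 := ndB3q1) (pc := pcB0) (cut := Cut.none) (xt := Ext.none) (P1 := 0) (W1 := 536870912) (P2 := 536870912) (W2 := 536870912) (P3 := 923417968) (W3 := 42949674) (N0 := 3) (En := eng) (mo := mog) (C1 := cd1q0) (C2 := cd3q1) (C3 := pd0)
    rfl (fun _ => rfl) k0_pp_001

noncomputable def cut_pp_011 : Cut := Cut.of [[⟨0, 0, 0, 67108864⟩, ⟨1, 1, 0, 67108864⟩, ⟨2, 1, 0, 67108864⟩]]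

noncomputable def f_pp_011 : ℕ → ℕ → ℕ → ℕ → Bool := onCell 0 536870912 536870912 536870912 923417968 42949674
    (rowB 3 eng mog cd1q0 cd3q1 pd1 1 false true true .pnn 0 1 1 (qsf 0 536870912 536870912 536870912 1) ndB1q0 ndB3q1 pcB1 cut_pp_011 Ext.none)

def k0_pp_011 : ∃ t, chk3 f_pp_011 t 1 1 1 = true :=
  ⟨(b (l 3) (b (l 3) (a (b (l 3) (a (a (b (l 3) (a (l 6) (l 3))) (l 3)) (l 2))) (l 2)))), by decide +kernel⟩

theorem c_pp_011 : CertB 0 536870912 536870912 536870912 923417968 42949674 3 eng mog cd1q0 cd3q1 pd1 false true true .pnn 0 1 1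
    ndB1q0 ndB3q1 pcB1 cut_pp_011 Ext.none :=
  certB1 (fam := false) (s1 := true) (s2 := true) (a := 0) (b := 1) (c := 1) (cn := .pnn) (n1 := ndB1q0) (n2 := ndB3q1) (pc := pcB1) (cut := cut_pp_011) (xt := Ext.none) (P1 := 0) (W1 := 536870912) (P2 := 536870912) (W2 := 536870912) (P3 := 923417968) (W3 := 42949674) (N0 := 3) (En := eng) (mo := mog) (C1 := cd1q0) (C2 := cd3q1) (C3 := pd1)
    rfl (fun _ => rfl) k0_pp_011

noncomputable def f_pp_012 : ℕ → ℕ → ℕ → ℕ → Bool := onCell 0 536870912 536870912 536870912 923417968 42949674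
    (rowB 3 eng mog cd1q0 cd3q2 pd1 1 false true true .pnp 0 1 2 (qsf 0 536870912 1073741824 536870912 1) ndB1q0 ndB3q2 pcB1 Cut.none Ext.none)

def k0_pp_012 : ∃ t, chk3 f_pp_012 t 1 1 1 = true :=
  ⟨(l 3), by decide +kernel⟩

theorem c_pp_012 : CertB 0 536870912 1073741824 536870912 923417968 42949674 3 eng mog cd1q0 cd3q2 pd1 false true true .pnp 0 1 2
    ndB1q0 ndB3q2 pcB1 Cut.none Ext.none :=
  certB1 (fam := false) (s1 := true) (s2 := true) (a := 0) (b := 1) (c := 2) (cn := .pnp) (n1 := ndB1q0) (n2 := ndB3q2) (pc := pcB1) (cut := Cut.none) (xt := Ext.none) (P1 := 0) (W1 := 536870912) (P2 := 1073741824) (W2 := 536870912) (P3 := 923417968) (W3 := 42949674) (N0 := 3) (En := eng) (mo := mog) (C1 := cd1q0) (C2 := cd3q2) (C3 := pd1)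
    rfl (fun _ => rfl) k0_pp_012

noncomputable def f_pp_022 : ℕ → ℕ → ℕ → ℕ → Bool := onCell 0 536870912 1073741824 536870912 923417968 42949674
    (rowB 3 eng mog cd1q0 cd3q2 pd2 1 false true true .pp 0 2 2 (qsf 0 536870912 1073741824 536870912 2) ndB1q0 ndB3q2 pcB2 Cut.none Ext.none)

def k0_pp_022 : ∃ t, chk3 f_pp_022 t 1 2 1 = true :=
  ⟨(b (b (a (l 3) (l 3)) (a (b (l 3) (a (l 3) (a (l 3) (b (l 3) (b (l 3) (l 15968672)))))) (b (a (l 3) (a (b (l 3) (l 15700144)) (b (l 15672328) (l 2)))) (a (a (b (l 3) (b (l 15844592) (l 15844176))) (b (l 200955963815) (l 15830856))) (a (b (l 15718848) (l 15737272)) (l 2)))))) (a (b (b (b (a (l 3) (a (b (l 16128496) (l 16117488)) (b (l 15962296) (l 15960848)))) (a (b (a (l 3) (a (l 16362480) (l 16252936))) (b (a (a (l 2380115369303) (l 16463824)) (a (l 16346456) (l 16240000))) (a (a (l 16300248) (l 16448848)) (l 16280296)))) (b (a (l 16110136) (l 15959888)) (b (a (l 16101328) (l 15955616)) (a (l 16072808) (l 15950504))))))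 (a (a (a (a (l 16309040) (l 16382024)) (l 16383312)) (a (l 16278136) (l 16183728))) (a (a (l 16100192) (l 16026800)) (l 15935696)))) (a (a (a (b (l 16280640) (l 16259136)) (b (l 16275336) (l 16178032))) (a (l 16041512) (b (l 16110384) (l 16046808)))) (a (b (l 15992640) (l 16058360)) (b (l 15919744) (l 15913288))))) (b (b (b (a (a (b (l 15847712) (l 15852872)) (b (l 15781672) (l 15788240))) (a (l 15797840) (l 2))) (a (a (b (l 15854680) (b (l 15853320) (l 15850296))) (l 15876504)) (l 2))) (a (a (l 15853088) (l 15815448)) (l 2))) (a (a (b (l 15868568) (l 15893064)) (b (l 15859504) (l 2))) (l 2))))), by decide +kernel⟩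

def k1_pp_022 : ∃ t, chk3 f_pp_022 t 1 3 1 = true :=
  ⟨(a (b (a (a (b (a (b (l 16155408) (l 16061864)) (l 15967536)) (a (b (l 15977968) (l 15903112)) (c (l 15926232) (l 15903696)))) (a (b (b (l 16036792) (l 15975512)) (l 15900688)) (b (l 15948176) (l 15916808)))) (b (a (a (l 15942496) (l 15926120)) (b (l 15915752) (l 15926456))) (a (a (l 15901280) (l 15916384)) (l 15936056)))) (a (a (b (a (c (l 15816088) (l 15797728)) (l 15812128)) (a (l 15577944) (l 15715760))) (a (b (l 15806784) (l 15780168)) (b (l 15853496) (l 2)))) (b (a (l 15869056) (l 2)) (l 2)))) (b (a (b (a (l 16134512) (l 2)) (l 2)) (l 2)) (l 2))), by decide +kernel⟩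

theorem s2_pp_022 : ∃ t, chk3 f_pp_022 t 1 1 1 = true := ex3_b k0_pp_022 k1_pp_022

theorem c_pp_022 : CertB 0 536870912 1073741824 536870912 923417968 42949674 3 eng mog cd1q0 cd3q2 pd2 false true true .pp 0 2 2
    ndB1q0 ndB3q2 pcB2 Cut.none Ext.none :=
  certB1 (fam := false) (s1 := true) (s2 := true) (a := 0) (b := 2) (c := 2) (cn := .pp) (n1 := ndB1q0) (n2 := ndB3q2) (pc := pcB2) (cut := Cut.none) (xt := Ext.none) (P1 := 0) (W1 := 536870912) (P2 := 1073741824) (W2 := 536870912) (P3 := 923417968) (W3 := 42949674) (N0 := 3) (En := eng) (mo := mog) (C1 := cd1q0) (C2 := cd3q2) (C3 := pd2)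
    rfl (fun _ => rfl) s2_pp_022

noncomputable def f_pp_023 : ℕ → ℕ → ℕ → ℕ → Bool := onCell 1073741824 536870912 0 1230186008 923417968 42949674
    (rowB 3 eng mog cd1q0 cd3q3 pd2 2 false true true .up 0 2 3 (qsf 0 536870912 0 1230186008 2) ndB1q0 ndB3q3 pcB2 Cut.none Ext.none)

def k0_pp_023 : ∃ t, chk3 f_pp_023 t 1 1 1 = true :=
  ⟨(b (a (l 2) (a (l 2) (b (a (l 2) (l 16020384)) (b (a (l 15715104) (l 15768344)) (a (b (l 15678728) (l 15801176)) (b (l 15615368) (l 15606192))))))) (b (a (a (l 2) (b (l 2) (a (l 2) (b (l 2) (l 16503824))))) (a (b (a (l 2) (l 16223040)) (a (b (l 16493504) (l 16495888)) (b (l 16409104) (l 16351360)))) (b (a (l 16071072) (l 15871720)) (a (b (l 16275440) (l 16219672)) (b (l 16104032) (l 16110752)))))) (b (a (a (l 2) (b (a (a (l 2) (l 16450320)) (l 16481600)) (a (a (c (l 16374104) (l 16410512)) (l 16462240)) (l 16410784)))) (a (b (a (l 16428960) (l 16319192)) (c (l 16345912) (l 16101080))) (b (a (l 16168360) (b (l 16030136)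 (l 15941624))) (a (c (l 16097000) (l 15891560)) (c (l 15893168) (l 15676520)))))) (b (a (a (a (l 2) (a (c (l 16154544) (l 16404568)) (a (l 16281544) (l 16458840)))) (a (a (a (l 16460832) (l 16301712)) (l 16381432)) (c (l 16437408) (l 16234208)))) (a (c (a (l 16306136) (l 16130784)) (a (l 16078728) (l 15888128))) (a (c (l 15882304) (l 15670728)) (b (c (l 15747656) (l 15497696)) (c (l 15641880) (l 15372192)))))) (a (a (a (l 3) (a (c (l 211156792183) (l 16162864)) (c (a (l 16449432) (l 16473744)) (a (l 16340240) (l 16314392))))) (a (b (c (l 16361528) (l 16143400)) (a (a (l 16388984) (l 16251568)) (l 16302880))) (c (l 16340576) (l 15910664)))) (a (c (a (l 16098640) (b (l 16000272) (l 15898984))) (a (l 15737272) (b (l 15722976) (l 15602024)))) (a (c (b (l 15772792) (l 15660072)) (b (l 15488392) (l 15359200))) (b (c (l 15361744) (a (l 15304080) (l 15180872))) (c (a (l 15472704) (b (l 15377416) (l 15316648))) (a (l 15173104) (b (l 15083720) (l 15019808)))))))))))),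 by decide +kernel⟩

theorem c_pp_023 : CertB 0 536870912 0 1230186008 923417968 42949674 3 eng mog cd1q0 cd3q3 pd2 false true true .up 0 2 3
    ndB1q0 ndB3q3 pcB2 Cut.none Ext.none :=
  certB2 (fam := false) (s1 := true) (s2 := true) (a := 0) (b := 2) (c := 3) (cn := .up) (n1 := ndB1q0) (n2 := ndB3q3) (pc := pcB2) (cut := Cut.none) (xt := Ext.none) (P1 := 0) (W1 := 536870912) (P2 := 0) (W2 := 1230186008) (P3 := 923417968) (W3 := 42949674) (N0 := 3) (En := eng) (mo := mog) (C1 := cd1q0) (C2 := cd3q3) (C3 := pd2)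
    rfl (fun _ => rfl) k0_pp_023

noncomputable def f_pp_033 : ℕ → ℕ → ℕ → ℕ → Bool := onCell 1610612736 536870912 0 1230186008 923417968 42949674
    (rowB 3 eng mog cd1q0 cd3q3 pd3 2 false true true .pnn 0 3 3 (qsf 0 536870912 0 1230186008 3) ndB1q0 ndB3q3 pcB3 Cut.none Ext.none)

def k0_pp_033 : ∃ t, chk3 f_pp_033 t 1 2 1 = true :=
  ⟨(b (a (a (a (l 16396560) (c (l 16192496) (l 16324632))) (b (l 4) (a (l 15993208) (l 4)))) (l 4)) (a (a (a (b (l 16450048) (b (l 16435976) (l 16400408))) (b (l 16352520) (l 16277336))) (a (b (l 16222504) (l 16107944)) (b (a (l 16114160) (l 16044528)) (l 15978152)))) (a (a (b (a (l 15974400) (l 4)) (a (l 15865280) (l 15781440))) (b (l 4) (a (l 15701904) (l 197800969015)))) (a (l 4) (l 4))))), by decide +kernel⟩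

def k1_pp_033 : ∃ t, chk3 f_pp_033 t 1 6 1 = true :=
  ⟨(a (a (b (a (b (l 16319056) (l 16207200)) (b (l 16169824) (l 16047864))) (a (b (l 16077472) (l 15932144)) (b (l 15900016) (c (l 15793184) (l 15672280))))) (b (a (b (l 15998248) (l 15871592)) (b (l 15817872) (a (l 15730208) (l 15631880)))) (a (b (c (l 15742248) (l 15662896)) (c (a (l 15638112) (l 15533184)) (a (l 15517832) (l 15412144)))) (b (a (b (l 15607728) (l 15515136)) (b (l 15507952) (l 15413008))) (c (a (l 15427368) (l 420400786567)) (a (l 15305296) (b (l 15249560) (l 15150056)))))))) (b (b (a (a (l 15642248) (a (l 15525728) (l 15472472))) (a (a (l 983578488807) (l 1)) (l 1))) (a (a (a (l 15534256) (l 15439696)) (a (l 15353512) (l 978746625447))) (l 1))) (a (a (b (a (b (l 15406616) (c (l 15356664) (l 15248608))) (b (l 15307032) (l 445633514823))) (a (c (l 575556269079) (l 550323138951)) (b (l 566429064327) (l 1)))) (a (b (b (l 15220944) (l 1)) (l 1)) (l 1))) (l 1)))), by decide +kernel⟩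

def k2_pp_033 : ∃ t, chk3 f_pp_033 t 1 7 1 = true :=
  ⟨(a (b (a (c (b (a (l 15762216) (b (l 15676760) (l 15592128))) (a (l 15575928) (b (l 15504872) (l 15419184)))) (b (a (l 15479584) (b (l 15532400) (l 15502432))) (a (l 15507040) (b (l 15346296) (l 15253216))))) (b (a (c (b (l 15460184) (a (l 15426096) (l 15315328))) (b (a (l 15373616) (l 15266624)) (a (l 15280656) (l 15280120)))) (b (a (c (l 15295296) (l 15160096)) (c (l 524553308135) (l 493951486135))) (a (c (l 496099316759) (l 474624490343)) (l 1)))) (a (b (a (l 15267968) (l 401073108647)) (a (c (l 15252280) (l 15097424)) (c (l 387651086775) (l 389261672055)))) (l 1)))) (a (b (a (b (c (l 15555240) (l 15365696)) (c (a (l 15526552) (l 15418704)) (a (l 15320920) (l 15220464)))) (b (a (c (l 15390296) (l 15211320)) (c (l 15280264) (l 15109248))) (a (c (l 15309872) (l 330205867991)) (c (l 358660250967) (l 335574372391))))) (a (b (c (a (l 15447080) (l 312489684775)) (a (l 15227344) (l 315173510695))) (c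 (a (l 295846796983) (l 328058815063)) (a (l 293698705399) (l 301214707831)))) (b (a (c (l 344164843383) (l 320005155671)) (l 1)) (l 1)))) (b (a (b (a (c (l 372618793127) (l 357586101735)) (l 1)) (l 1)) (l 1)) (l 1)))) (l 1)), by decide +kernel⟩

theorem s3_pp_033 : ∃ t, chk3 f_pp_033 t 1 3 1 = true := ex3_b k1_pp_033 k2_pp_033

theorem s4_pp_033 : ∃ t, chk3 f_pp_033 t 1 1 1 = true := ex3_b k0_pp_033 s3_pp_033

theorem c_pp_033 : CertB 0 536870912 0 1230186008 923417968 42949674 3 eng mog cd1q0 cd3q3 pd3 false true true .pnn 0 3 3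
    ndB1q0 ndB3q3 pcB3 Cut.none Ext.none :=
  certB2 (fam := false) (s1 := true) (s2 := true) (a := 0) (b := 3) (c := 3) (cn := .pnn) (n1 := ndB1q0) (n2 := ndB3q3) (pc := pcB3) (cut := Cut.none) (xt := Ext.none) (P1 := 0) (W1 := 536870912) (P2 := 0) (W2 := 1230186008) (P3 := 923417968) (W3 := 42949674) (N0 := 3) (En := eng) (mo := mog) (C1 := cd1q0) (C2 := cd3q3) (C3 := pd3)
    rfl (fun _ => rfl) s4_pp_033

noncomputable def f_pp_101 : ℕ → ℕ → ℕ → ℕ → Bool := onCell 536870912 536870912 536870912 536870912 923417968 42949674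
    (rowB 3 eng mog cd1q1 cd3q1 pd0 0 false true true .npn 1 0 1 (qsf 536870912 536870912 536870912 536870912 0) ndB1q1 ndB3q1 pcB0 Cut.none Ext.none)

def k0_pp_101 : ∃ t, chk3 f_pp_101 t 1 1 1 = true :=
  ⟨(l 3), by decide +kernel⟩

theorem c_pp_101 : CertB 536870912 536870912 536870912 536870912 923417968 42949674 3 eng mog cd1q1 cd3q1 pd0 false true true .npn 1 0 1
    ndB1q1 ndB3q1 pcB0 Cut.none Ext.none :=
  certB0 (fam := false) (s1 := true) (s2 := true) (a := 1) (b := 0) (c := 1) (cn := .npn) (n1 := ndB1q1) (n2 := ndB3q1) (pc := pcB0) (cut := Cut.none) (xt := Ext.none) (P1 := 536870912) (W1 := 536870912) (P2 := 536870912) (W2 := 536870912) (P3 := 923417968) (W3 := 42949674) (N0 := 3) (En := eng) (mo := mog) (C1 := cd1q1) (C2 := cd3q1) (C3 := pd0)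
    rfl k0_pp_101

noncomputable def f_pp_102 : ℕ → ℕ → ℕ → ℕ → Bool := onCell 536870912 536870912 1073741824 536870912 923417968 42949674
    (rowB 3 eng mog cd1q1 cd3q2 pd0 0 false true true .npp 1 0 2 (qsf 536870912 536870912 1073741824 536870912 0) ndB1q1 ndB3q2 pcB0 Cut.none Ext.none)

def k0_pp_102 : ∃ t, chk3 f_pp_102 t 1 1 1 = true :=
  ⟨(l 3), by decide +kernel⟩

theorem c_pp_102 : CertB 536870912 536870912 1073741824 536870912 923417968 42949674 3 eng mog cd1q1 cd3q2 pd0 false true true .npp 1 0 2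
    ndB1q1 ndB3q2 pcB0 Cut.none Ext.none :=
  certB0 (fam := false) (s1 := true) (s2 := true) (a := 1) (b := 0) (c := 2) (cn := .npp) (n1 := ndB1q1) (n2 := ndB3q2) (pc := pcB0) (cut := Cut.none) (xt := Ext.none) (P1 := 536870912) (W1 := 536870912) (P2 := 1073741824) (W2 := 536870912) (P3 := 923417968) (W3 := 42949674) (N0 := 3) (En := eng) (mo := mog) (C1 := cd1q1) (C2 := cd3q2) (C3 := pd0)
    rfl k0_pp_102

noncomputable def f_pp_112 : ℕ → ℕ → ℕ → ℕ → Bool := onCell 536870912 536870912 1073741824 536870912 923417968 42949674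
    (rowB 3 eng mog cd1q1 cd3q2 pd1 0 false true true .dn 1 1 2 (qsf 536870912 536870912 1073741824 536870912 1) ndB1q1 ndB3q2 pcB1 Cut.none Ext.none)

def k0_pp_112 : ∃ t, chk3 f_pp_112 t 1 1 1 = true :=
  ⟨(l 3), by decide +kernel⟩

theorem c_pp_112 : CertB 536870912 536870912 1073741824 536870912 923417968 42949674 3 eng mog cd1q1 cd3q2 pd1 false true true .dn 1 1 2
    ndB1q1 ndB3q2 pcB1 Cut.none Ext.none :=
  certB0 (fam := false) (s1 := true) (s2 := true) (a := 1) (b := 1) (c := 2) (cn := .dn) (n1 := ndB1q1) (n2 := ndB3q2) (pc := pcB1) (cut := Cut.none) (xt := Ext.none) (P1 := 536870912) (W1 := 536870912) (P2 := 1073741824) (W2 := 536870912) (P3 := 923417968) (W3 := 42949674) (N0 := 3) (En := eng) (mo := mog) (C1 := cd1q1) (C2 := cd3q2) (C3 := pd1)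
    rfl k0_pp_112

noncomputable def f_pp_113 : ℕ → ℕ → ℕ → ℕ → Bool := onCell 536870912 536870912 0 1230186008 923417968 42949674
    (rowB 3 eng mog cd1q1 cd3q3 pd1 2 false true true .nn 1 1 3 (qsf 536870912 536870912 0 1230186008 1) ndB1q1 ndB3q3 pcB1 Cut.none Ext.none)

def k0_pp_113 : ∃ t, chk3 f_pp_113 t 1 1 1 = true :=
  ⟨(a (b (l 2) (b (l 3) (l 3))) (b (a (l 2) (a (b (l 2) (b (a (l 2) (l 16823504)) (a (l 3) (l 280950807543)))) (b (a (l 2) (l 16725352)) (b (l 16866552) (a (l 16858040) (l 16836720)))))) (a (b (l 3) (l 3)) (b (a (b (a (l 3) (l 380808652071)) (l 3)) (b (a (b (l 16793768) (l 16451864)) (b (l 16777328) (l 16419904))) (a (l 3) (b (l 16176296) (l 341616650535))))) (b (l 3) (l 3)))))), by decide +kernel⟩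

theorem c_pp_113 : CertB 536870912 536870912 0 1230186008 923417968 42949674 3 eng mog cd1q1 cd3q3 pd1 false true true .nn 1 1 3
    ndB1q1 ndB3q3 pcB1 Cut.none Ext.none :=
  certB2 (fam := false) (s1 := true) (s2 := true) (a := 1) (b := 1) (c := 3) (cn := .nn) (n1 := ndB1q1) (n2 := ndB3q3) (pc := pcB1) (cut := Cut.none) (xt := Ext.none) (P1 := 536870912) (W1 := 536870912) (P2 := 0) (W2 := 1230186008) (P3 := 923417968) (W3 := 42949674) (N0 := 3) (En := eng) (mo := mog) (C1 := cd1q1) (C2 := cd3q3) (C3 := pd1)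
    rfl (fun _ => rfl) k0_pp_113

noncomputable def f_pp_123 : ℕ → ℕ → ℕ → ℕ → Bool := onCell 1073741824 536870912 0 1230186008 923417968 42949674
    (rowB 3 eng mog cd1q1 cd3q3 pd2 2 false true true .npn 1 2 3 (qsf 536870912 536870912 0 1230186008 2) ndB1q1 ndB3q3 pcB2 Cut.none Ext.none)

def k0_pp_123 : ∃ t, chk3 f_pp_123 t 2 1 1 = true :=
  ⟨(a (b (b (a (l 16602192) (b (l 16544248) (l 16586024))) (a (b (l 16601536) (a (l 16605104) (l 16665976))) (b (l 16665456) (l 16538488)))) (a (a (b (b (b (l 16417976) (l 16206184)) (b (l 16072608) (c (l 16066120) (l 15938600)))) (b (b (c (l 16001480) (l 15924760)) (c (l 302424882103) (l 322289144391))) (l 3))) (b (b (b (l 16355256) (l 16213960)) (b (l 16123464) (l 16065968))) (b (c (b (l 16034848) (a (l 15975480) (l 16012632))) (b (l 16049368) (a (l 16040072) (l 16103808)))) (b (a (l 3) (b (l 16163752) (l 286319052103))) (l 3))))) (a (b (b (l 16335680) (b (l 16199080) (l 16153216))) (b (a (b (l 16105488) (c (l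 16047200) (l 16163064))) (c (l 16197016) (l 16080416))) (a (c (b (l 16028896) (l 16238792)) (b (l 16204624) (l 16197928))) (b (b (l 16158880) (l 16000840)) (l 1))))) (b (b (l 16263816) (c (l 16234720) (l 16289680))) (b (c (b (l 16161456) (l 16130872)) (b (l 16284840) (l 16304368))) (b (a (b (l 16202672) (l 16088992)) (b (l 16245816) (l 1))) (l 1))))))) (b (b (a (b (l 16414400) (l 16487760)) (l 16376688)) (b (a (l 16630336) (l 16524600)) (a (l 16534888) (l 16550392)))) (b (b (a (b (l 16467808) (a (l 16406984) (l 16459872))) (l 16531312)) (a (a (a (a (l 16230240) (l 16251272)) (b (l 16384104) (l 16352056))) (l 16293800)) (b (l 16501736) (l 16484224)))) (b (a (c (a (a (l 16194512) (a (l 16219632) (l 16214616))) (l 16278288)) (a (b (l 16312584) (l 16242800)) (l 16500128))) (c (l 16262232) (l 16581256))) (a (a (a (b (b (l 16287976) (l 1)) (l 1)) (l 1)) (l 1)) (l 1)))))), by decide +kernel⟩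

def k1_pp_123 : ∃ t, chk3 f_pp_123 t 3 1 1 = true :=
  ⟨(b (a (b (a (l 16321304) (l 16364296)) (b (a (l 16380264) (l 16294768)) (a (l 16524016) (l 16442024)))) (b (a (l 16471528) (l 16617256)) (b (a (l 16299960) (l 16396288)) (a (b (l 16274584) (l 16384800)) (l 510597327239))))) (b (b (a (a (l 16590152) (l 16611152)) (a (l 16579808) (l 1))) (a (a (b (l 16490464) (l 16438056)) (b (l 16513136) (l 1))) (l 1))) (l 1))), by decide +kernel⟩

theorem s2_pp_123 : ∃ t, chk3 f_pp_123 t 1 1 1 = true := ex3_a k0_pp_123 k1_pp_123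

theorem c_pp_123 : CertB 536870912 536870912 0 1230186008 923417968 42949674 3 eng mog cd1q1 cd3q3 pd2 false true true .npn 1 2 3
    ndB1q1 ndB3q3 pcB2 Cut.none Ext.none :=
  certB2 (fam := false) (s1 := true) (s2 := true) (a := 1) (b := 2) (c := 3) (cn := .npn) (n1 := ndB1q1) (n2 := ndB3q3) (pc := pcB2) (cut := Cut.none) (xt := Ext.none) (P1 := 536870912) (W1 := 536870912) (P2 := 0) (W2 := 1230186008) (P3 := 923417968) (W3 := 42949674) (N0 := 3) (En := eng) (mo := mog) (C1 := cd1q1) (C2 := cd3q3) (C3 := pd2)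
    rfl (fun _ => rfl) s2_pp_123

noncomputable def f_pp_133 : ℕ → ℕ → ℕ → ℕ → Bool := onCell 1610612736 536870912 0 1230186008 923417968 42949674
    (rowB 3 eng mog cd1q1 cd3q3 pd3 2 false true true .dn 1 3 3 (qsf 536870912 536870912 0 1230186008 3) ndB1q1 ndB3q3 pcB3 Cut.none Ext.none)

def k0_pp_133 : ∃ t, chk3 f_pp_133 t 1 1 1 = true :=
  ⟨(b (b (a (a (a (l 16509696) (l 1)) (l 1)) (l 1)) (l 1)) (l 1)), by decide +kernel⟩

theorem c_pp_133 : CertB 536870912 536870912 0 1230186008 923417968 42949674 3 eng mog cd1q1 cd3q3 pd3 false true true .dn 1 3 3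
    ndB1q1 ndB3q3 pcB3 Cut.none Ext.none :=
  certB2 (fam := false) (s1 := true) (s2 := true) (a := 1) (b := 3) (c := 3) (cn := .dn) (n1 := ndB1q1) (n2 := ndB3q3) (pc := pcB3) (cut := Cut.none) (xt := Ext.none) (P1 := 536870912) (W1 := 536870912) (P2 := 0) (W2 := 1230186008) (P3 := 923417968) (W3 := 42949674) (N0 := 3) (En := eng) (mo := mog) (C1 := cd1q1) (C2 := cd3q3) (C3 := pd3)
    rfl (fun _ => rfl) k0_pp_133

noncomputable def f_pp_202_a : ℕ → ℕ → ℕ → ℕ → Bool := onCell 0 536870912 1073741824 536870912 923417968 42949674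
    (rowB 3 eng mog cd1q2a cd3q2 pd0 0 false true true .pp 2 0 2 (qsf 0 536870912 1073741824 536870912 0) ndB1q2a ndB3q2 pcB0 Cut.none Ext.none)

def k0_pp_202_a : ∃ t, chk3 f_pp_202_a t 1 1 1 = true :=
  ⟨(l 3), by decide +kernel⟩

theorem c_pp_202_a : CertB 0 536870912 1073741824 536870912 923417968 42949674 3 eng mog cd1q2a cd3q2 pd0 false true true .pp 2 0 2
    ndB1q2a ndB3q2 pcB0 Cut.none Ext.none :=
  certB0 (fam := false) (s1 := true) (s2 := true) (a := 2) (b := 0) (c := 2) (cn := .pp) (n1 := ndB1q2a) (n2 := ndB3q2) (pc := pcB0) (cut := Cut.none) (xt := Ext.none) (P1 := 0) (W1 := 536870912) (P2 := 1073741824) (W2 := 536870912) (P3 := 923417968) (W3 := 42949674) (N0 := 3) (En := eng) (mo := mog) (C1 := cd1q2a) (C2 := cd3q2) (C3 := pd0)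
    rfl k0_pp_202_a

noncomputable def f_pp_202_b : ℕ → ℕ → ℕ → ℕ → Bool := onCell 1239849684 370763052 1073741824 536870912 923417968 42949674
    (rowB 3 eng mog cd1q2b cd3q2 pd0 0 false true true .pp 2 0 2 (qsf 1239849684 370763052 1073741824 536870912 0) ndB1q2b ndB3q2 pcB0 Cut.none Ext.none)

def k0_pp_202_b : ∃ t, chk3 f_pp_202_b t 1 1 1 = true :=
  ⟨(l 3), by decide +kernel⟩

theorem c_pp_202_b : CertB 1239849684 370763052 1073741824 536870912 923417968 42949674 3 eng mog cd1q2b cd3q2 pd0 false true true .pp 2 0 2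
    ndB1q2b ndB3q2 pcB0 Cut.none Ext.none :=
  certB0 (fam := false) (s1 := true) (s2 := true) (a := 2) (b := 0) (c := 2) (cn := .pp) (n1 := ndB1q2b) (n2 := ndB3q2) (pc := pcB0) (cut := Cut.none) (xt := Ext.none) (P1 := 1239849684) (W1 := 370763052) (P2 := 1073741824) (W2 := 536870912) (P3 := 923417968) (W3 := 42949674) (N0 := 3) (En := eng) (mo := mog) (C1 := cd1q2b) (C2 := cd3q2) (C3 := pd0)
    rfl k0_pp_202_b

noncomputable def f_pp_203_a : ℕ → ℕ → ℕ → ℕ → Bool := onCell 0 536870912 0 1230186008 923417968 42949674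
    (rowB 3 eng mog cd1q2a cd3q3 pd0 0 false true true .up 2 0 3 (qsf 0 536870912 0 1230186008 0) ndB1q2a ndB3q3 pcB0 Cut.none Ext.none)

def k0_pp_203_a : ∃ t, chk3 f_pp_203_a t 1 1 1 = true :=
  ⟨(b (l 2) (l 3)), by decide +kernel⟩

theorem c_pp_203_a : CertB 0 536870912 0 1230186008 923417968 42949674 3 eng mog cd1q2a cd3q3 pd0 false true true .up 2 0 3
    ndB1q2a ndB3q3 pcB0 Cut.none Ext.none :=
  certB0 (fam := false) (s1 := true) (s2 := true) (a := 2) (b := 0) (c := 3) (cn := .up) (n1 := ndB1q2a) (n2 := ndB3q3) (pc := pcB0) (cut := Cut.none) (xt := Ext.none) (P1 := 0) (W1 := 536870912) (P2 := 0) (W2 := 1230186008) (P3 := 923417968) (W3 := 42949674) (N0 := 3) (En := eng) (mo := mog) (C1 := cd1q2a) (C2 := cd3q3) (C3 := pd0)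
    rfl k0_pp_203_a

noncomputable def f_pp_203_b : ℕ → ℕ → ℕ → ℕ → Bool := onCell 1239849684 370763052 0 1230186008 923417968 42949674
    (rowB 3 eng mog cd1q2b cd3q3 pd0 0 false true true .up 2 0 3 (qsf 1239849684 370763052 0 1230186008 0) ndB1q2b ndB3q3 pcB0 Cut.none Ext.none)

def k0_pp_203_b : ∃ t, chk3 f_pp_203_b t 1 1 1 = true :=
  ⟨(b (l 3) (l 3)), by decide +kernel⟩

theorem c_pp_203_b : CertB 1239849684 370763052 0 1230186008 923417968 42949674 3 eng mog cd1q2b cd3q3 pd0 false true true .up 2 0 3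
    ndB1q2b ndB3q3 pcB0 Cut.none Ext.none :=
  certB0 (fam := false) (s1 := true) (s2 := true) (a := 2) (b := 0) (c := 3) (cn := .up) (n1 := ndB1q2b) (n2 := ndB3q3) (pc := pcB0) (cut := Cut.none) (xt := Ext.none) (P1 := 1239849684) (W1 := 370763052) (P2 := 0) (W2 := 1230186008) (P3 := 923417968) (W3 := 42949674) (N0 := 3) (En := eng) (mo := mog) (C1 := cd1q2b) (C2 := cd3q3) (C3 := pd0)
    rfl k0_pp_203_b

noncomputable def cut_pp_213_a : Cut := Cut.of [[⟨0, 1, 0, 67108864⟩, ⟨1, 1, 0, 67108864⟩, ⟨2, 2, 0, 16252928⟩]]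

noncomputable def f_pp_213_a : ℕ → ℕ → ℕ → ℕ → Bool := onCell 0 536870912 0 1230186008 923417968 42949674
    (rowB 3 eng mog cd1q2a cd3q3 pd1 0 false true true .pnn 2 1 3 (qsf 0 536870912 0 1230186008 1) ndB1q2a ndB3q3 pcB1 cut_pp_213_a Ext.none)

def k0_pp_213_a : ∃ t, chk3 f_pp_213_a t 1 1 1 = true :=
  ⟨(b (a (l 3) (b (a (l 3) (b (a (l 3) (l 6)) (l 3))) (l 3))) (l 3)), by decide +kernel⟩

theorem c_pp_213_a : CertB 0 536870912 0 1230186008 923417968 42949674 3 eng mog cd1q2a cd3q3 pd1 false true true .pnn 2 1 3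
    ndB1q2a ndB3q3 pcB1 cut_pp_213_a Ext.none :=
  certB0 (fam := false) (s1 := true) (s2 := true) (a := 2) (b := 1) (c := 3) (cn := .pnn) (n1 := ndB1q2a) (n2 := ndB3q3) (pc := pcB1) (cut := cut_pp_213_a) (xt := Ext.none) (P1 := 0) (W1 := 536870912) (P2 := 0) (W2 := 1230186008) (P3 := 923417968) (W3 := 42949674) (N0 := 3) (En := eng) (mo := mog) (C1 := cd1q2a) (C2 := cd3q3) (C3 := pd1)
    rfl k0_pp_213_a

noncomputable def cut_pp_213_b : Cut := Cut.of [[⟨0, 1, 0, 67108864⟩, ⟨1, 1, 0, 67108864⟩, ⟨2, 2, 0, 16252928⟩]]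

noncomputable def f_pp_213_b : ℕ → ℕ → ℕ → ℕ → Bool := onCell 1239849684 370763052 0 1230186008 923417968 42949674
    (rowB 3 eng mog cd1q2b cd3q3 pd1 0 false true true .pnn 2 1 3 (qsf 1239849684 370763052 0 1230186008 1) ndB1q2b ndB3q3 pcB1 cut_pp_213_b Ext.none)

def k0_pp_213_b : ∃ t, chk3 f_pp_213_b t 1 1 1 = true :=
  ⟨(b (l 3) (l 3)), by decide +kernel⟩

theorem c_pp_213_b : CertB 1239849684 370763052 0 1230186008 923417968 42949674 3 eng mog cd1q2b cd3q3 pd1 false true true .pnn 2 1 3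
    ndB1q2b ndB3q3 pcB1 cut_pp_213_b Ext.none :=
  certB0 (fam := false) (s1 := true) (s2 := true) (a := 2) (b := 1) (c := 3) (cn := .pnn) (n1 := ndB1q2b) (n2 := ndB3q3) (pc := pcB1) (cut := cut_pp_213_b) (xt := Ext.none) (P1 := 1239849684) (W1 := 370763052) (P2 := 0) (W2 := 1230186008) (P3 := 923417968) (W3 := 42949674) (N0 := 3) (En := eng) (mo := mog) (C1 := cd1q2b) (C2 := cd3q3) (C3 := pd1)
    rfl k0_pp_213_b

noncomputable def f_pp_303 : ℕ → ℕ → ℕ → ℕ → Bool := onCell 1610612736 536870912 0 1230186008 923417968 42949674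
    (rowB 3 eng mog cd1q3 cd3q3 pd0 0 false true true .npn 3 0 3 (qsf 1610612736 536870912 0 1230186008 0) ndB1q3 ndB3q3 pcB0 Cut.none Ext.none)

def k0_pp_303 : ∃ t, chk3 f_pp_303 t 1 1 1 = true :=
  ⟨(b (l 3) (l 3)), by decide +kernel⟩

theorem c_pp_303 : CertB 1610612736 536870912 0 1230186008 923417968 42949674 3 eng mog cd1q3 cd3q3 pd0 false true true .npn 3 0 3
    ndB1q3 ndB3q3 pcB0 Cut.none Ext.none :=
  certB0 (fam := false) (s1 := true) (s2 := true) (a := 3) (b := 0) (c := 3) (cn := .npn) (n1 := ndB1q3) (n2 := ndB3q3) (pc := pcB0) (cut := Cut.none) (xt := Ext.none) (P1 := 1610612736) (W1 := 536870912) (P2 := 0) (W2 := 1230186008) (P3 := 923417968) (W3 := 42949674) (N0 := 3) (En := eng) (mo := mog) (C1 := cd1q3) (C2 := cd3q3) (C3 := pd0)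
    rfl k0_pp_303

noncomputable def f_pp_313 : ℕ → ℕ → ℕ → ℕ → Bool := onCell 1610612736 536870912 0 1230186008 923417968 42949674
    (rowB 3 eng mog cd1q3 cd3q3 pd1 0 false true true .dn 3 1 3 (qsf 1610612736 536870912 0 1230186008 1) ndB1q3 ndB3q3 pcB1 Cut.none Ext.none)

def k0_pp_313 : ∃ t, chk3 f_pp_313 t 1 1 1 = true :=
  ⟨(b (l 3) (l 1)), by decide +kernel⟩

theorem c_pp_313 : CertB 1610612736 536870912 0 1230186008 923417968 42949674 3 eng mog cd1q3 cd3q3 pd1 false true true .dn 3 1 3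
    ndB1q3 ndB3q3 pcB1 Cut.none Ext.none :=
  certB0 (fam := false) (s1 := true) (s2 := true) (a := 3) (b := 1) (c := 3) (cn := .dn) (n1 := ndB1q3) (n2 := ndB3q3) (pc := pcB1) (cut := Cut.none) (xt := Ext.none) (P1 := 1610612736) (W1 := 536870912) (P2 := 0) (W2 := 1230186008) (P3 := 923417968) (W3 := 42949674) (N0 := 3) (En := eng) (mo := mog) (C1 := cd1q3) (C2 := cd3q3) (C3 := pd1)
    rfl k0_pp_313

noncomputable def f_pm_001 : ℕ → ℕ → ℕ → ℕ → Bool := onCell 0 536870912 536870912 536870912 923417968 42949674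
    (rowB 3 eng mog cd1q0 cd3q1 pd0 0 false true false .up 0 0 1 (qsf 0 536870912 536870912 536870912 0) ndB1q0 ndB3q1 pcB0 Cut.none Ext.none)

def k0_pm_001 : ∃ t, chk3 f_pm_001 t 1 1 1 = true :=
  ⟨(l 4), by decide +kernel⟩

theorem c_pm_001 : CertB 0 536870912 536870912 536870912 923417968 42949674 3 eng mog cd1q0 cd3q1 pd0 false true false .up 0 0 1
    ndB1q0 ndB3q1 pcB0 Cut.none Ext.none :=
  certB0 (fam := false) (s1 := true) (s2 := false) (a := 0) (b := 0) (c := 1) (cn := .up) (n1 := ndB1q0) (n2 := ndB3q1) (pc := pcB0) (cut := Cut.none) (xt := Ext.none) (P1 := 0) (W1 := 536870912) (P2 := 536870912) (W2 := 536870912) (P3 := 923417968) (W3 := 42949674) (N0 := 3) (En := eng) (mo := mog) (C1 := cd1q0) (C2 := cd3q1) (C3 := pd0)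
    rfl k0_pm_001

noncomputable def f_pm_011 : ℕ → ℕ → ℕ → ℕ → Bool := onCell 0 536870912 536870912 536870912 923417968 42949674
    (rowB 3 eng mog cd1q0 cd3q1 pd1 0 false true false .pnn 0 1 1 (qsf 0 536870912 536870912 536870912 1) ndB1q0 ndB3q1 pcB1 Cut.none Ext.none)

def k0_pm_011 : ∃ t, chk3 f_pm_011 t 1 1 1 = true :=
  ⟨(l 4), by decide +kernel⟩

theorem c_pm_011 : CertB 0 536870912 536870912 536870912 923417968 42949674 3 eng mog cd1q0 cd3q1 pd1 false true false .pnn 0 1 1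
    ndB1q0 ndB3q1 pcB1 Cut.none Ext.none :=
  certB0 (fam := false) (s1 := true) (s2 := false) (a := 0) (b := 1) (c := 1) (cn := .pnn) (n1 := ndB1q0) (n2 := ndB3q1) (pc := pcB1) (cut := Cut.none) (xt := Ext.none) (P1 := 0) (W1 := 536870912) (P2 := 536870912) (W2 := 536870912) (P3 := 923417968) (W3 := 42949674) (N0 := 3) (En := eng) (mo := mog) (C1 := cd1q0) (C2 := cd3q1) (C3 := pd1)
    rfl k0_pm_011

noncomputable def f_pm_012 : ℕ → ℕ → ℕ → ℕ → Bool := onCell 0 536870912 1073741824 536870912 923417968 42949674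
    (rowB 3 eng mog cd1q0 cd3q2 pd1 0 false true false .pnp 0 1 2 (qsf 0 536870912 1073741824 536870912 1) ndB1q0 ndB3q2 pcB1 Cut.none Ext.none)

def k0_pm_012 : ∃ t, chk3 f_pm_012 t 1 1 1 = true :=
  ⟨(l 4), by decide +kernel⟩

theorem c_pm_012 : CertB 0 536870912 1073741824 536870912 923417968 42949674 3 eng mog cd1q0 cd3q2 pd1 false true false .pnp 0 1 2
    ndB1q0 ndB3q2 pcB1 Cut.none Ext.none :=
  certB0 (fam := false) (s1 := true) (s2 := false) (a := 0) (b := 1) (c := 2) (cn := .pnp) (n1 := ndB1q0) (n2 := ndB3q2) (pc := pcB1) (cut := Cut.none) (xt := Ext.none) (P1 := 0) (W1 := 536870912) (P2 := 1073741824) (W2 := 536870912) (P3 := 923417968) (W3 := 42949674) (N0 := 3) (En := eng) (mo := mog) (C1 := cd1q0) (C2 := cd3q2) (C3 := pd1)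
    rfl k0_pm_012

noncomputable def f_pm_022 : ℕ → ℕ → ℕ → ℕ → Bool := onCell 0 536870912 1073741824 536870912 923417968 42949674
    (rowB 3 eng mog cd1q0 cd3q2 pd2 0 false true false .pp 0 2 2 (qsf 0 536870912 1073741824 536870912 2) ndB1q0 ndB3q2 pcB2 Cut.none Ext.none)

def k0_pm_022 : ∃ t, chk3 f_pm_022 t 1 1 1 = true :=
  ⟨(l 4), by decide +kernel⟩

theorem c_pm_022 : CertB 0 536870912 1073741824 536870912 923417968 42949674 3 eng mog cd1q0 cd3q2 pd2 false true false .pp 0 2 2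
    ndB1q0 ndB3q2 pcB2 Cut.none Ext.none :=
  certB0 (fam := false) (s1 := true) (s2 := false) (a := 0) (b := 2) (c := 2) (cn := .pp) (n1 := ndB1q0) (n2 := ndB3q2) (pc := pcB2) (cut := Cut.none) (xt := Ext.none) (P1 := 0) (W1 := 536870912) (P2 := 1073741824) (W2 := 536870912) (P3 := 923417968) (W3 := 42949674) (N0 := 3) (En := eng) (mo := mog) (C1 := cd1q0) (C2 := cd3q2) (C3 := pd2)
    rfl k0_pm_022

noncomputable def f_pm_023 : ℕ → ℕ → ℕ → ℕ → Bool := onCell 0 536870912 0 1230186008 923417968 42949674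
    (rowB 3 eng mog cd1q0 cd3q3 pd2 0 false true false .up 0 2 3 (qsf 0 536870912 0 1230186008 2) ndB1q0 ndB3q3 pcB2 Cut.none Ext.none)

def k0_pm_023 : ∃ t, chk3 f_pm_023 t 1 1 1 = true :=
  ⟨(b (b (a (l 2) (a (l 2) (a (l 2) (b (l 16286736) (l 4))))) (l 4)) (l 4)), by decide +kernel⟩

theorem c_pm_023 : CertB 0 536870912 0 1230186008 923417968 42949674 3 eng mog cd1q0 cd3q3 pd2 false true false .up 0 2 3
    ndB1q0 ndB3q3 pcB2 Cut.none Ext.none :=
  certB0 (fam := false) (s1 := true) (s2 := false) (a := 0) (b := 2) (c := 3) (cn := .up) (n1 := ndB1q0) (n2 := ndB3q3) (pc := pcB2) (cut := Cut.none) (xt := Ext.none) (P1 := 0) (W1 := 536870912) (P2 := 0) (W2 := 1230186008) (P3 := 923417968) (W3 := 42949674) (N0 := 3) (En := eng) (mo := mog) (C1 := cd1q0) (C2 := cd3q3) (C3 := pd2)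
    rfl k0_pm_023

noncomputable def f_pm_033 : ℕ → ℕ → ℕ → ℕ → Bool := onCell 0 536870912 0 1230186008 923417968 42949674
    (rowB 3 eng mog cd1q0 cd3q3 pd3 0 false true false .pnn 0 3 3 (qsf 0 536870912 0 1230186008 3) ndB1q0 ndB3q3 pcB3 Cut.none Ext.none)

def k0_pm_033 : ∃ t, chk3 f_pm_033 t 1 1 1 = true :=
  ⟨(b (a (l 4) (a (l 4) (b (a (l 4) (b (l 16311928) (l 4))) (l 4)))) (l 4)), by decide +kernel⟩

theorem c_pm_033 : CertB 0 536870912 0 1230186008 923417968 42949674 3 eng mog cd1q0 cd3q3 pd3 false true false .pnn 0 3 3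
    ndB1q0 ndB3q3 pcB3 Cut.none Ext.none :=
  certB0 (fam := false) (s1 := true) (s2 := false) (a := 0) (b := 3) (c := 3) (cn := .pnn) (n1 := ndB1q0) (n2 := ndB3q3) (pc := pcB3) (cut := Cut.none) (xt := Ext.none) (P1 := 0) (W1 := 536870912) (P2 := 0) (W2 := 1230186008) (P3 := 923417968) (W3 := 42949674) (N0 := 3) (En := eng) (mo := mog) (C1 := cd1q0) (C2 := cd3q3) (C3 := pd3)
    rfl k0_pm_033

noncomputable def f_pm_101 : ℕ → ℕ → ℕ → ℕ → Bool := onCell 536870912 536870912 536870912 536870912 923417968 42949674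
    (rowB 3 eng mog cd1q1 cd3q1 pd0 0 false true false .npn 1 0 1 (qsf 536870912 536870912 536870912 536870912 0) ndB1q1 ndB3q1 pcB0 Cut.none Ext.none)

def k0_pm_101 : ∃ t, chk3 f_pm_101 t 1 1 1 = true :=
  ⟨(l 4), by decide +kernel⟩

theorem c_pm_101 : CertB 536870912 536870912 536870912 536870912 923417968 42949674 3 eng mog cd1q1 cd3q1 pd0 false true false .npn 1 0 1
    ndB1q1 ndB3q1 pcB0 Cut.none Ext.none :=
  certB0 (fam := false) (s1 := true) (s2 := false) (a := 1) (b := 0) (c := 1) (cn := .npn) (n1 := ndB1q1) (n2 := ndB3q1) (pc := pcB0) (cut := Cut.none) (xt := Ext.none) (P1 := 536870912) (W1 := 536870912) (P2 := 536870912) (W2 := 536870912) (P3 := 923417968) (W3 := 42949674) (N0 := 3) (En := eng) (mo := mog) (C1 := cd1q1) (C2 := cd3q1) (C3 := pd0)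
    rfl k0_pm_101

noncomputable def f_pm_102 : ℕ → ℕ → ℕ → ℕ → Bool := onCell 536870912 536870912 0 536870912 923417968 42949674
    (rowB 3 eng mog cd1q1 cd3q2 pd0 1 false true false .npp 1 0 2 (qsf 536870912 536870912 1073741824 536870912 0) ndB1q1 ndB3q2 pcB0 Cut.none Ext.none)

def k0_pm_102 : ∃ t, chk3 f_pm_102 t 1 1 1 = true :=
  ⟨(b (l 4) (b (l 4) (a (l 4) (a (l 4) (a (l 4) (b (l 4) (c (l 14853968) (l 14716736)))))))), by decide +kernel⟩

theorem c_pm_102 : CertB 536870912 536870912 1073741824 536870912 923417968 42949674 3 eng mog cd1q1 cd3q2 pd0 false true false .npp 1 0 2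
    ndB1q1 ndB3q2 pcB0 Cut.none Ext.none :=
  certB1 (fam := false) (s1 := true) (s2 := false) (a := 1) (b := 0) (c := 2) (cn := .npp) (n1 := ndB1q1) (n2 := ndB3q2) (pc := pcB0) (cut := Cut.none) (xt := Ext.none) (P1 := 536870912) (W1 := 536870912) (P2 := 1073741824) (W2 := 536870912) (P3 := 923417968) (W3 := 42949674) (N0 := 3) (En := eng) (mo := mog) (C1 := cd1q1) (C2 := cd3q2) (C3 := pd0)
    rfl (fun _ => rfl) k0_pm_102

noncomputable def f_pm_112 : ℕ → ℕ → ℕ → ℕ → Bool := onCell 536870912 536870912 1073741824 536870912 923417968 42949674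
    (rowB 3 eng mog cd1q1 cd3q2 pd1 0 false true false .dn 1 1 2 (qsf 536870912 536870912 1073741824 536870912 1) ndB1q1 ndB3q2 pcB1 Cut.none Ext.none)

def k0_pm_112 : ∃ t, chk3 f_pm_112 t 1 1 1 = true :=
  ⟨(b (l 4) (a (l 4) (b (l 4) (a (l 4) (a (l 4) (b (l 4) (a (l 4) (l 14823672)))))))), by decide +kernel⟩

theorem c_pm_112 : CertB 536870912 536870912 1073741824 536870912 923417968 42949674 3 eng mog cd1q1 cd3q2 pd1 false true false .dn 1 1 2
    ndB1q1 ndB3q2 pcB1 Cut.none Ext.none :=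
  certB0 (fam := false) (s1 := true) (s2 := false) (a := 1) (b := 1) (c := 2) (cn := .dn) (n1 := ndB1q1) (n2 := ndB3q2) (pc := pcB1) (cut := Cut.none) (xt := Ext.none) (P1 := 536870912) (W1 := 536870912) (P2 := 1073741824) (W2 := 536870912) (P3 := 923417968) (W3 := 42949674) (N0 := 3) (En := eng) (mo := mog) (C1 := cd1q1) (C2 := cd3q2) (C3 := pd1)
    rfl k0_pm_112

noncomputable def f_pm_113 : ℕ → ℕ → ℕ → ℕ → Bool := onCell 536870912 536870912 0 1230186008 923417968 42949674
    (rowB 3 eng mog cd1q1 cd3q3 pd1 0 false true false .nn 1 1 3 (qsf 536870912 536870912 0 1230186008 1) ndB1q1 ndB3q3 pcB1 Cut.none Ext.none)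

def k0_pm_113 : ∃ t, chk3 f_pm_113 t 1 1 1 = true :=
  ⟨(b (a (l 2) (a (l 2) (b (a (l 2) (b (l 16611856) (l 16483976))) (b (a (l 16162480) (l 16348064)) (a (l 16054040) (l 16229448)))))) (b (b (a (l 2) (a (a (l 2) (l 15303264)) (a (l 15962384) (l 16182232)))) (a (l 4) (a (a (b (l 92572631671) (l 4)) (b (l 14990640) (l 14933592))) (a (b (l 15534024) (c (l 15487872) (l 15238072))) (a (b (l 15923792) (l 15678264)) (l 16006104)))))) (a (l 4) (b (a (b (a (l 4) (l 15111224)) (l 4)) (c (a (b (l 15376904) (l 15337880)) (b (l 15696808) (l 15586200))) (b (a (l 15223208) (b (l 15555584) (l 15537232))) (a (l 15270040) (a (l 15462312) (l 15578080)))))) (a (l 4) (b (a (b (l 15326216) (l 4)) (a (b (l 15457872) (l 15455608)) (l 15572960))) (a (l 4) (c (a (l 15448784) (l 15531680)) (a (l 15516712) (l 15617256)))))))))), by decide +kernel⟩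

theorem c_pm_113 : CertB 536870912 536870912 0 1230186008 923417968 42949674 3 eng mog cd1q1 cd3q3 pd1 false true false .nn 1 1 3
    ndB1q1 ndB3q3 pcB1 Cut.none Ext.none :=
  certB0 (fam := false) (s1 := true) (s2 := false) (a := 1) (b := 1) (c := 3) (cn := .nn) (n1 := ndB1q1) (n2 := ndB3q3) (pc := pcB1) (cut := Cut.none) (xt := Ext.none) (P1 := 536870912) (W1 := 536870912) (P2 := 0) (W2 := 1230186008) (P3 := 923417968) (W3 := 42949674) (N0 := 3) (En := eng) (mo := mog) (C1 := cd1q1) (C2 := cd3q3) (C3 := pd1)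
    rfl k0_pm_113

noncomputable def f_pm_123 : ℕ → ℕ → ℕ → ℕ → Bool := onCell 1073741824 536870912 0 1230186008 923417968 42949674
    (rowB 3 eng mog cd1q1 cd3q3 pd2 2 false true false .npn 1 2 3 (qsf 536870912 536870912 0 1230186008 2) ndB1q1 ndB3q3 pcB2 Cut.none Ext.none)

def k0_pm_123 : ∃ t, chk3 f_pm_123 t 1 1 1 = true :=
  ⟨(b (a (a (b (a (b (l 16660552) (l 16589752)) (b (l 16502832) (l 16395016))) (a (b (l 16371480) (l 16131504)) (b (l 16268312) (l 16001800)))) (b (a (l 16351136) (l 16352496)) (a (b (l 16287456) (l 15961464)) (b (l 16308984) (l 16055632))))) (a (b (a (l 16422632) (l 16544632)) (a (b (l 16354768) (l 16188024)) (b (l 16445744) (l 4)))) (b (a (l 16628304) (l 16718368)) (a (l 36204128967) (l 4))))) (b (a (a (b (a (l 15592624) (a (l 15349752) (l 15429440))) (a (b (l 14771440) (l 4)) (l 4))) (a (b (l 15591096) (l 4)) (l 4))) (l 4)) (l 4))), by decide +kernel⟩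

theorem c_pm_123 : CertB 536870912 536870912 0 1230186008 923417968 42949674 3 eng mog cd1q1 cd3q3 pd2 false true false .npn 1 2 3
    ndB1q1 ndB3q3 pcB2 Cut.none Ext.none :=
  certB2 (fam := false) (s1 := true) (s2 := false) (a := 1) (b := 2) (c := 3) (cn := .npn) (n1 := ndB1q1) (n2 := ndB3q3) (pc := pcB2) (cut := Cut.none) (xt := Ext.none) (P1 := 536870912) (W1 := 536870912) (P2 := 0) (W2 := 1230186008) (P3 := 923417968) (W3 := 42949674) (N0 := 3) (En := eng) (mo := mog) (C1 := cd1q1) (C2 := cd3q3) (C3 := pd2)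
    rfl (fun _ => rfl) k0_pm_123

noncomputable def f_pm_133 : ℕ → ℕ → ℕ → ℕ → Bool := onCell 536870912 536870912 0 1230186008 923417968 42949674
    (rowB 3 eng mog cd1q1 cd3q3 pd3 0 false true false .dn 1 3 3 (qsf 536870912 536870912 0 1230186008 3) ndB1q1 ndB3q3 pcB3 Cut.none Ext.none)

def k0_pm_133 : ∃ t, chk3 f_pm_133 t 1 1 1 = true :=
  ⟨(b (b (a (a (a (b (l 16635304) (l 1)) (l 1)) (l 1)) (l 1)) (l 1)) (l 1)), by decide +kernel⟩

theorem c_pm_133 : CertB 536870912 536870912 0 1230186008 923417968 42949674 3 eng mog cd1q1 cd3q3 pd3 false true false .dn 1 3 3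
    ndB1q1 ndB3q3 pcB3 Cut.none Ext.none :=
  certB0 (fam := false) (s1 := true) (s2 := false) (a := 1) (b := 3) (c := 3) (cn := .dn) (n1 := ndB1q1) (n2 := ndB3q3) (pc := pcB3) (cut := Cut.none) (xt := Ext.none) (P1 := 536870912) (W1 := 536870912) (P2 := 0) (W2 := 1230186008) (P3 := 923417968) (W3 := 42949674) (N0 := 3) (En := eng) (mo := mog) (C1 := cd1q1) (C2 := cd3q3) (C3 := pd3)
    rfl k0_pm_133

end Pool.Agent.Strip051.G.I8600_9000.Tab.C.BB13

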