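import Pool.Agent.Strip051.G.I8600_9000.Tab
import Pool.Agent.Strip051.PB.ExtD2

/-! # Certificates B17 (generated) -/

set_option linter.all false
set_option maxRecDepth 100000

namespace Pool.Agent.Strip051.G.I8600_9000.Tab.C.BB13

open Pool.Agent.Strip051.PB Pool.Agent.Strip051.PB.T
open Pool.Agent.Strip051.G.I8600_9000.Tab

noncomputable def f_pm_202_a : ℕ → ℕ → ℕ → ℕ → Bool := onCell 0 536870912 0 536870912 923417968 42949674
    (rowB 3 eng mog cd1q2a cd3q2 pd0 1 false true false .pp 2 0 2 (qsf 0 536870912 1073741824 536870912 0) ndB1q2a ndB3q2 pcB0 Cut.none Ext.none)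

def k0_pm_202_a : ∃ t, chk3 f_pm_202_a t 2 1 1 = true :=
  ⟨(b (a (b (b (b (b (l 16339096) (l 16288664)) (a (b (l 16271600) (l 16210248)) (b (l 16203808) (l 16155872)))) (b (b (a (l 16165888) (l 16080616)) (b (a (l 16137728) (l 16191184)) (l 16093440))) (b (b (l 16085064) (l 16075656)) (l 16041248)))) (b (b (b (l 16084808) (l 16023888)) (a (b (l 16031680) (l 16011200)) (l 15983464))) (a (b (a (l 15984520) (l 15991600)) (b (l 15945152) (l 15926448))) (b (l 15923600) (a (l 15916144) (l 15884480)))))) (b (b (b (a (l 16217168) (l 16153328)) (a (l 16114944) (l 16048904))) (b (b (l 16004520) (b (l 15947880) (l 15938584))) (b (a (b (l 15983112) (l 15973376)) (l 16093832)) (a (b (l 15964712) (l 15958336)) (b (l 15889592) (l 15884624)))))) (b (b (b (a (l 15948840) (b (l 15878552) (l 15871400))) (a (l 15933232) (a (l 15882920) (l 15843368)))) (b (l 15879320) (l 15847048))) (b (a (l 15850352) (l 15764960)) (a (l 15822736) (l 15726936)))))) (b (a (b (b (a (l 15904216)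 (a (l 15888616) (l 15870464))) (a (a (l 15894152) (l 15881896)) (l 15861608))) (b (a (a (l 15934032) (l 15878152)) (l 15854368)) (a (a (l 135390679287) (l 15885864)) (l 15859624)))) (b (a (b (l 15813856) (a (l 15832104) (l 15794848))) (b (l 15708560) (l 15707736))) (a (b (a (l 15827048) (l 15799640)) (l 15817160)) (b (l 15724216) (a (l 15771640) (l 15718960)))))) (b (a (l 2) (a (l 2) (b (l 637901784007) (l 2)))) (l 2)))), by decide +kernel⟩

def k1_pm_202_a : ∃ t, chk3 f_pm_202_a t 3 4 1 = true :=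
  ⟨(b (a (b (a (b (l 16110904) (l 16056576)) (a (b (b (l 16065816) (l 16035200)) (l 15996096)) (b (l 16005280) (a (l 15960896) (l 15939720))))) (a (l 15954168) (b (a (l 15939856) (l 15889720)) (l 15860800)))) (b (a (b (a (l 15949688) (l 15889832)) (a (l 15895752) (l 15835304))) (a (b (b (l 15837728) (l 15810416)) (l 15768896)) (b (a (b (b (l 15791104) (l 15777368)) (l 15756648)) (c (a (l 15758600) (l 15740080)) (a (l 15726344) (l 15706776)))) (a (l 15714880) (b (l 15691192) (l 15663264)))))) (a (a (b (l 15844504) (l 15782040)) (b (l 15779736) (l 15723352))) (a (b (l 15712832) (l 15656056)) (b (a (l 15658616) (l 15621000)) (a (l 15601720) (l 15564128))))))) (b (a (b (a (l 15893440) (l 15804184)) (b (l 15707016) (a (l 15838696) (l 15742528)))) (b (a (a (l 15724144) (l 15752704)) (a (l 15598744) (l 15525712))) (a (a (l 15670704) (b (l 15621072) (l 15592288))) (a (l 15542800) (l 15468016))))) (a (a (b (l 15944056) (l 15794048)) (b (b (l 15722920) (l 15705008))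 (l 15682328))) (a (b (a (l 15624104) (l 15556240)) (a (l 15583832) (l 15510232))) (a (b (a (l 15500792) (l 15466656)) (a (l 15450728) (l 15408784))) (b (l 15410192) (l 15354952))))))), by decide +kernel⟩

def k2_pm_202_a : ∃ t, chk3 f_pm_202_a t 3 5 1 = true :=
  ⟨(b (a (a (b (b (l 15776936) (l 15788944)) (b (a (l 15778800) (l 15722816)) (l 15900512))) (b (b (l 15656808) (l 15638536)) (b (l 15619488) (l 15585288)))) (b (a (b (a (l 15550696) (l 15471352)) (l 15525144)) (a (b (l 15385016) (l 15347352)) (b (a (l 15316064) (l 15278424)) (a (l 15273456) (l 15223336))))) (a (b (l 15624296) (l 15420616)) (b (a (l 15314048) (l 15209984)) (a (l 15276952) (l 15172200)))))) (a (b (a (b (l 15674608) (l 15647216)) (b (a (l 15591120) (l 15512792)) (a (l 15549768) (l 15481992)))) (a (l 15610688) (b (l 15688512) (l 15453096)))) (a (b (c (l 15438664) (l 15295424)) (b (l 15316784) (a (l 15331592) (l 15237320)))) (b (c (l 15267064) (l 15303136)) (c (l 15200344) (l 15108584)))))),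 by decide +kernel⟩

def k3_pm_202_a : ∃ t, chk3 f_pm_202_a t 3 3 1 = true :=
  ⟨(b (a (b (a (b (l 15581088) (l 15571440)) (b (l 15425008) (l 15403776))) (a (b (l 15579728) (l 15603984)) (b (l 15403120) (l 15420992)))) (b (a (a (b (l 15388528) (l 15255672)) (b (b (l 15207920) (l 15175032)) (l 15143864))) (b (c (l 15134360) (l 14941904)) (a (c (l 15117664) (l 14950144)) (c (l 15023440) (l 14823616))))) (a (b (l 15189400) (l 15199000)) (b (a (l 15005888) (c (l 14977368) (l 14783016))) (l 14940368))))) (a (b (a (b (l 15643432) (l 2)) (l 60228133175)) (l 2)) (b (a (b (l 15227824) (l 15273784)) (b (l 14962664) (l 15004768))) (a (b (l 15334776) (l 2)) (b (l 15064424) (l 15139400)))))), by decide +kernel⟩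

theorem s4_pm_202_a : ∃ t, chk3 f_pm_202_a t 3 2 1 = true := ex3_b k1_pm_202_a k2_pm_202_a

theorem s5_pm_202_a : ∃ t, chk3 f_pm_202_a t 3 1 1 = true := ex3_b s4_pm_202_a k3_pm_202_a

theorem s6_pm_202_a : ∃ t, chk3 f_pm_202_a t 1 1 1 = true := ex3_a k0_pm_202_a s5_pm_202_a

theorem c_pm_202_a : CertB 0 536870912 1073741824 536870912 923417968 42949674 3 eng mog cd1q2a cd3q2 pd0 false true false .pp 2 0 2
    ndB1q2a ndB3q2 pcB0 Cut.none Ext.none :=
  certB1 (fam := false) (s1 := true) (s2 := false) (a := 2) (b := 0) (c := 2) (cn := .pp) (n1 := ndB1q2a) (n2 := ndB3q2) (pc := pcB0) (cut := Cut.none) (xt := Ext.none) (P1 := 0) (W1 := 536870912) (P2 := 1073741824) (W2 := 536870912) (P3 := 923417968) (W3 := 42949674) (N0 := 3) (En := eng) (mo := mog) (C1 := cd1q2a) (C2 := cd3q2) (C3 := pd0)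
    rfl (fun _ => rfl) s6_pm_202_a

noncomputable def f_pm_202_b : ℕ → ℕ → ℕ → ℕ → Bool := onCell 0 536870912 1073741824 536870912 923417968 42949674
    (rowB 3 eng mog cd1q2b cd3q2 pd0 2 false true false .pp 2 0 2 (qsf 1239849684 370763052 1073741824 536870912 0) ndB1q2b ndB3q2 pcB0 Cut.none Ext.none)

def k0_pm_202_b : ∃ t, chk3 f_pm_202_b t 1 1 1 = true :=
  ⟨(a (b (a (b (l 1) (b (a (a (a (l 16423344) (l 16367576)) (a (l 236792391847) (l 1))) (l 1)) (a (a (a (l 16266760) (l 16256184)) (b (l 16268272) (l 16204000))) (a (a (l 16211560) (b (l 1) (l 94522140039))) (a (l 210485768871) (l 1)))))) (l 1)) (a (b (a (b (a (a (l 16106672) (l 16111976)) (l 16113400)) (a (l 15906328) (l 15999048))) (a (a (b (l 16111328) (l 15995160)) (b (l 16090776) (l 15941368))) (b (a (l 16198496) (l 16113936)) (b (l 16288120) (a (l 16012960) (l 16018000)))))) (b (a (a (b (l 15869168) (l 15784632)) (a (l 15831488) (l 15894432))) (a (a (l 15891680) (b (l 15952680) (l 15904360))) (b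 (l 15966376) (l 15923672)))) (a (l 3) (b (a (a (l 3) (l 15865864)) (l 15890792)) (l 3))))) (b (a (b (a (a (l 16110352) (l 16103784)) (b (l 1) (l 16072336))) (a (b (l 16058560) (l 16018336)) (b (l 16234232) (l 16008080)))) (b (l 1) (a (b (l 16060944) (l 15987952)) (b (l 1) (l 15959400))))) (b (a (a (b (l 15974848) (l 15939960)) (b (l 15973336) (l 15946672))) (a (b (l 15962288) (l 15944064)) (b (l 15942656) (l 15932888)))) (b (a (a (l 15914224) (l 15928136)) (a (l 15933096) (l 15929784))) (a (l 3) (a (l 15929440) (l 15932968)))))))) (b (l 1) (a (b (l 1) (a (b (a (b (l 299606083543) (l 15914176)) (b (l 1) (l 281889294615))) (a (b (l 15918912) (l 15971280)) (b (a (l 15906000) (l 15895120)) (a (l 15922000) (l 15914640))))) (b (l 1) (a (b (l 266856893559) (a (l 15905352) (l 70898982167))) (b (l 1) (a (l 254508811095) (l 1))))))) (l 1)))), by decide +kernel⟩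

theorem c_pm_202_b : CertB 1239849684 370763052 1073741824 536870912 923417968 42949674 3 eng mog cd1q2b cd3q2 pd0 false true false .pp 2 0 2
    ndB1q2b ndB3q2 pcB0 Cut.none Ext.none :=
  certB2 (fam := false) (s1 := true) (s2 := false) (a := 2) (b := 0) (c := 2) (cn := .pp) (n1 := ndB1q2b) (n2 := ndB3q2) (pc := pcB0) (cut := Cut.none) (xt := Ext.none) (P1 := 1239849684) (W1 := 370763052) (P2 := 1073741824) (W2 := 536870912) (P3 := 923417968) (W3 := 42949674) (N0 := 3) (En := eng) (mo := mog) (C1 := cd1q2b) (C2 := cd3q2) (C3 := pd0)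
    rfl (fun _ => rfl) k0_pm_202_b

noncomputable def f_pm_203_a : ℕ → ℕ → ℕ → ℕ → Bool := onCell 0 536870912 0 1230186008 923417968 42949674
    (rowB 3 eng mog cd1q2a cd3q3 pd0 0 false true false .up 2 0 3 (qsf 0 536870912 0 1230186008 0) ndB1q2a ndB3q3 pcB0 Cut.none Ext.none)

def k0_pm_203_a : ∃ t, chk3 f_pm_203_a t 1 1 1 = true :=
  ⟨(b (l 2) (b (l 2) (b (a (b (l 2) (a (a (l 3) (b (l 2) (b (l 236389962279) (l 16280336)))) (b (l 2) (c (l 16520464) (l 16295056))))) (l 2)) (a (b (a (c (b (l 245516897415) (a (l 258401762519) (l 16539672))) (b (a (l 280950499975) (l 16333920)) (a (l 266991349991) (l 16347424)))) (b (a (l 16348440) (l 16478648)) (a (l 16296744) (l 16435328)))) (a (b (c (a (l 16247672) (l 16507696)) (a (b (l 16191032) (l 16262144)) (l 16287384))) (c (a (l 16349920) (l 16467104)) (a (b (l 16227952) (l 16192656)) (l 16220128)))) (b (a (l 16192440) (l 16360688)) (a (l 16120720) (c (l 16517728) (l 16281592)))))) (a (b (a (b (l 16481440) (l 16401696))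 (b (l 2) (c (l 16329160) (l 16430192)))) (a (b (c (l 16440072) (l 16372992)) (c (l 16448960) (l 16367600))) (c (l 16315752) (l 16457352)))) (b (a (b (l 2) (l 16220040)) (l 2)) (a (c (l 16134552) (l 16280768)) (c (b (l 15915784) (l 15884856)) (l 120894688375))))))))), by decide +kernel⟩

theorem c_pm_203_a : CertB 0 536870912 0 1230186008 923417968 42949674 3 eng mog cd1q2a cd3q3 pd0 false true false .up 2 0 3
    ndB1q2a ndB3q3 pcB0 Cut.none Ext.none :=
  certB0 (fam := false) (s1 := true) (s2 := false) (a := 2) (b := 0) (c := 3) (cn := .up) (n1 := ndB1q2a) (n2 := ndB3q3) (pc := pcB0) (cut := Cut.none) (xt := Ext.none) (P1 := 0) (W1 := 536870912) (P2 := 0) (W2 := 1230186008) (P3 := 923417968) (W3 := 42949674) (N0 := 3) (En := eng) (mo := mog) (C1 := cd1q2a) (C2 := cd3q3) (C3 := pd0)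
    rfl k0_pm_203_a

noncomputable def f_pm_203_b : ℕ → ℕ → ℕ → ℕ → Bool := onCell 1239849684 370763052 0 1230186008 923417968 42949674
    (rowB 3 eng mog cd1q2b cd3q3 pd0 0 false true false .up 2 0 3 (qsf 1239849684 370763052 0 1230186008 0) ndB1q2b ndB3q3 pcB0 Cut.none Ext.none)

def k0_pm_203_b : ∃ t, chk3 f_pm_203_b t 1 1 1 = true :=
  ⟨(b (l 3) (b (l 3) (b (l 3) (a (a (b (l 3) (a (b (a (a (b (l 3) (l 264306921463)) (l 3)) (l 3)) (c (c (l 65665132919) (b (l 16365672) (l 16336272))) (a (b (l 16203504) (l 16167296)) (b (l 16158688) (l 16120088))))) (b (l 3) (b (l 3) (c (l 16157520) (l 276654417799)))))) (l 3)) (l 3))))), by decide +kernel⟩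

theorem c_pm_203_b : CertB 1239849684 370763052 0 1230186008 923417968 42949674 3 eng mog cd1q2b cd3q3 pd0 false true false .up 2 0 3
    ndB1q2b ndB3q3 pcB0 Cut.none Ext.none :=
  certB0 (fam := false) (s1 := true) (s2 := false) (a := 2) (b := 0) (c := 3) (cn := .up) (n1 := ndB1q2b) (n2 := ndB3q3) (pc := pcB0) (cut := Cut.none) (xt := Ext.none) (P1 := 1239849684) (W1 := 370763052) (P2 := 0) (W2 := 1230186008) (P3 := 923417968) (W3 := 42949674) (N0 := 3) (En := eng) (mo := mog) (C1 := cd1q2b) (C2 := cd3q3) (C3 := pd0)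
    rfl k0_pm_203_b

noncomputable def cut_pm_213_a : Cut := Cut.of [[⟨0, 1, 0, 67108864⟩, ⟨1, 1, 0, 67108864⟩, ⟨2, 2, 0, 16252928⟩]]

noncomputable def f_pm_213_a : ℕ → ℕ → ℕ → ℕ → Bool := onCell 0 536870912 0 1230186008 923417968 42949674
    (rowB 3 eng mog cd1q2a cd3q3 pd1 0 false true false .pnn 2 1 3 (qsf 0 536870912 0 1230186008 1) ndB1q2a ndB3q3 pcB1 cut_pm_213_a Ext.none)

def k0_pm_213_a : ∃ t, chk3 f_pm_213_a t 1 2 1 = true :=
  ⟨(a (b (l 3) (l 3)) (b (a (l 3) (a (b (l 3) (b (a (l 3) (a (l 3) (b (l 3) (a (l 3) (l 355039346983))))) (a (l 3) (a (b (l 367924269111) (b (l 260013165639) (l 16712552))) (b (b (l 259476311479) (l 16719576)) (l 16713496)))))) (b (l 6) (b (b (l 6) (b (l 6) (a (a (l 16748176) (l 16742488)) (a (l 16732488) (l 16717344))))) (a (b (a (l 16719440) (l 16734704)) (a (l 16731520) (l 16725720))) (a (b (l 16724960) (l 16716256)) (l 16685016))))))) (a (b (a (l 3) (b (l 3) (a (l 3) (b (l 246591330135) (c (l 159618244535) (l 156397046231))))))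 (a (b (l 3) (a (l 3) (b (l 216526540407) (l 170892499639)))) (b (a (b (l 179482454551) (l 164986921847)) (b (l 118816041559) (l 16679520))) (a (b (l 135459033079) (l 16611904)) (b (l 16639832) (l 16600472)))))) (b (a (b (a (b (a (l 3) (l 250349469143)) (a (l 245517620359) (l 16726864))) (b (a (l 16709040) (l 16728472)) (a (l 16727296) (l 16725216)))) (a (b (a (l 16724008) (l 16726712)) (l 16728624)) (b (l 16726816) (l 16730256)))) (b (a (b (l 16701256) (l 16718384)) (c (l 16689480) (l 16669984))) (a (b (l 16717728) (l 16721176)) (l 16636512)))) (a (b (a (b (l 16735240) (l 16701368)) (b (l 16737632) (l 16748488))) (a (b (l 16648112) (l 16595952)) (l 16646040))) (b (a (l 16671840) (l 16630368)) (a (l 16722328) (l 16737056)))))))), by decide +kernel⟩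

def k1_pm_213_a : ∃ t, chk3 f_pm_213_a t 1 6 1 = true :=
  ⟨(a (a (l 3) (b (b (l 3) (a (l 3) (b (l 264307840023) (a (l 3) (l 168207897655))))) (b (a (l 3) (b (a (l 270213298935) (l 153712284503)) (a (l 192903768839) (l 16552320)))) (a (b (l 276655537399) (a (l 3) (l 207399115943))) (b (a (l 174113204359) (l 16546392)) (c (l 16535224) (l 16568200))))))) (b (a (a (b (a (b (l 3) (l 213305233015)) (b (l 147270151815) (l 16574880))) (b (a (c (l 16580936) (l 16565584)) (l 16552528)) (a (l 16555488) (l 16531344)))) (b (a (b (l 16581576) (l 16552224)) (b (l 16562072) (l 16525048))) (b (a (l 16524048) (l 16489592)) (a (l 16497088) (l 16455736))))) (a (b (a (l 16521120) (l 16508960)) (a (l 16451832) (l 16390864))) (b (a (l 16520560) (l 16584880)) (a (l 16358880) (l 16348112))))) (a (b (a (b (a (l 16541456) (l 16511592)) (a (l 16528768) (l 16492880))) (c (b (l 16461784) (l 16426728)) (b (l 16436632) (l 16415912)))) (a (b (c (l 16486376) (l 16507096)) (c (l 16460064)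 (l 16499616))) (c (b (l 16390480) (l 16351808)) (b (l 16397072) (l 16379104))))) (a (b (c (l 16478824) (l 16478784)) (c (l 16501128) (a (l 16272184) (l 16180136)))) (b (a (l 16225728) (l 16168432)) (a (l 16362392) (b (l 16057192) (l 15989720)))))))), by decide +kernel⟩

def k2_pm_213_a : ∃ t, chk3 f_pm_213_a t 1 7 1 = true :=
  ⟨(b (a (a (a (l 3) (b (b (l 3) (a (l 3) (l 268602275767))) (b (a (l 3) (b (l 16317800) (l 16362848))) (b (a (l 263233505319) (l 16412696)) (l 1))))) (b (a (b (a (l 259475586343) (l 16409248)) (c (l 173039498631) (l 199882823079))) (c (b (l 16519296) (l 16499080)) (b (l 16572224) (l 16575584)))) (a (c (b (l 16530488) (l 16537624)) (b (l 16470856) (l 16466920))) (b (c (l 16474080) (l 16577512)) (c (l 16443616) (l 16577056)))))) (c (a (b (a (b (l 16430256) (l 16396464)) (b (l 16310000) (l 16264272))) (a (b (l 16357952) (l 16313800)) (b (l 16214000) (l 16243640)))) (b (a (b (l 16168816) (l 16111592)) (b (l 16019544) (l 15952176))) (a (b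 (l 16304464) (l 16233360)) (l 15864520)))) (a (b (a (b (l 16492008) (l 16483552)) (b (l 16361136) (l 16342272))) (a (b (l 16473368) (l 16460320)) (b (l 16321712) (l 16299240)))) (b (a (b (l 16183128) (l 16154296)) (b (l 15954768) (l 15918296))) (a (b (l 16272184) (l 15893920)) (b (l 15887256) (l 15865664))))))) (a (b (a (l 1) (a (l 1) (b (c (l 16406680) (l 16572872)) (l 1)))) (l 1)) (a (b (a (b (c (l 16262664) (l 16442784)) (c (a (l 1) (l 16157728)) (l 16272200))) (b (c (a (l 16137024) (l 16062416)) (a (l 16316136) (l 16228176))) (c (a (l 16089096) (l 16030576)) (l 16009008)))) (l 1)) (b (a (b (c (l 15962136) (l 16088064)) (c (l 15937416) (l 16084056))) (c (l 16012752) (b (l 15852576) (l 15848624)))) (c (a (b (l 15922616) (l 1)) (b (l 15749728) (l 15744952))) (a (l 15925288) (b (l 15854360) (l 15870184)))))))), by decide +kernel⟩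

theorem s3_pm_213_a : ∃ t, chk3 f_pm_213_a t 1 3 1 = true := ex3_b k1_pm_213_a k2_pm_213_a

theorem s4_pm_213_a : ∃ t, chk3 f_pm_213_a t 1 1 1 = true := ex3_b k0_pm_213_a s3_pm_213_a

theorem c_pm_213_a : CertB 0 536870912 0 1230186008 923417968 42949674 3 eng mog cd1q2a cd3q3 pd1 false true false .pnn 2 1 3
    ndB1q2a ndB3q3 pcB1 cut_pm_213_a Ext.none :=
  certB0 (fam := false) (s1 := true) (s2 := false) (a := 2) (b := 1) (c := 3) (cn := .pnn) (n1 := ndB1q2a) (n2 := ndB3q3) (pc := pcB1) (cut := cut_pm_213_a) (xt := Ext.none) (P1 := 0) (W1 := 536870912) (P2 := 0) (W2 := 1230186008) (P3 := 923417968) (W3 := 42949674) (N0 := 3) (En := eng) (mo := mog) (C1 := cd1q2a) (C2 := cd3q3) (C3 := pd1)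
    rfl s4_pm_213_a

noncomputable def cut_pm_213_b : Cut := Cut.of [[⟨0, 1, 0, 67108864⟩, ⟨1, 1, 0, 67108864⟩, ⟨2, 2, 0, 16252928⟩]]

noncomputable def f_pm_213_b : ℕ → ℕ → ℕ → ℕ → Bool := onCell 1239849684 370763052 0 1230186008 923417968 42949674
    (rowB 3 eng mog cd1q2b cd3q3 pd1 0 false true false .pnn 2 1 3 (qsf 1239849684 370763052 0 1230186008 1) ndB1q2b ndB3q3 pcB1 cut_pm_213_b Ext.none)

def k0_pm_213_b : ∃ t, chk3 f_pm_213_b t 1 1 1 = true :=
  ⟨(b (l 3) (b (l 3) (b (l 3) (l 1)))), by decide +kernel⟩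

theorem c_pm_213_b : CertB 1239849684 370763052 0 1230186008 923417968 42949674 3 eng mog cd1q2b cd3q3 pd1 false true false .pnn 2 1 3
    ndB1q2b ndB3q3 pcB1 cut_pm_213_b Ext.none :=
  certB0 (fam := false) (s1 := true) (s2 := false) (a := 2) (b := 1) (c := 3) (cn := .pnn) (n1 := ndB1q2b) (n2 := ndB3q3) (pc := pcB1) (cut := cut_pm_213_b) (xt := Ext.none) (P1 := 1239849684) (W1 := 370763052) (P2 := 0) (W2 := 1230186008) (P3 := 923417968) (W3 := 42949674) (N0 := 3) (En := eng) (mo := mog) (C1 := cd1q2b) (C2 := cd3q3) (C3 := pd1)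
    rfl k0_pm_213_b

noncomputable def f_pm_303 : ℕ → ℕ → ℕ → ℕ → Bool := onCell 1610612736 536870912 0 1230186008 923417968 42949674
    (rowB 3 eng mog cd1q3 cd3q3 pd0 0 false true false .npn 3 0 3 (qsf 1610612736 536870912 0 1230186008 0) ndB1q3 ndB3q3 pcB0 Cut.none Ext.none)

def k0_pm_303 : ∃ t, chk3 f_pm_303 t 1 1 1 = true :=
  ⟨(b (l 3) (b (l 3) (a (l 3) (l 1)))), by decide +kernel⟩

theorem c_pm_303 : CertB 1610612736 536870912 0 1230186008 923417968 42949674 3 eng mog cd1q3 cd3q3 pd0 false true false .npn 3 0 3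
    ndB1q3 ndB3q3 pcB0 Cut.none Ext.none :=
  certB0 (fam := false) (s1 := true) (s2 := false) (a := 3) (b := 0) (c := 3) (cn := .npn) (n1 := ndB1q3) (n2 := ndB3q3) (pc := pcB0) (cut := Cut.none) (xt := Ext.none) (P1 := 1610612736) (W1 := 536870912) (P2 := 0) (W2 := 1230186008) (P3 := 923417968) (W3 := 42949674) (N0 := 3) (En := eng) (mo := mog) (C1 := cd1q3) (C2 := cd3q3) (C3 := pd0)
    rfl k0_pm_303

noncomputable def f_pm_313 : ℕ → ℕ → ℕ → ℕ → Bool := onCell 1610612736 536870912 0 1230186008 923417968 42949674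
    (rowB 3 eng mog cd1q3 cd3q3 pd1 0 false true false .dn 3 1 3 (qsf 1610612736 536870912 0 1230186008 1) ndB1q3 ndB3q3 pcB1 Cut.none Ext.none)

def k0_pm_313 : ∃ t, chk3 f_pm_313 t 1 1 1 = true :=
  ⟨(b (l 3) (l 1)), by decide +kernel⟩

theorem c_pm_313 : CertB 1610612736 536870912 0 1230186008 923417968 42949674 3 eng mog cd1q3 cd3q3 pd1 false true false .dn 3 1 3
    ndB1q3 ndB3q3 pcB1 Cut.none Ext.none :=
  certB0 (fam := false) (s1 := true) (s2 := false) (a := 3) (b := 1) (c := 3) (cn := .dn) (n1 := ndB1q3) (n2 := ndB3q3) (pc := pcB1) (cut := Cut.none) (xt := Ext.none) (P1 := 1610612736) (W1 := 536870912) (P2 := 0) (W2 := 1230186008) (P3 := 923417968) (W3 := 42949674) (N0 := 3) (En := eng) (mo := mog) (C1 := cd1q3) (C2 := cd3q3) (C3 := pd1)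
    rfl k0_pm_313

noncomputable def f_mm_001 : ℕ → ℕ → ℕ → ℕ → Bool := onCell 0 536870912 0 536870912 923417968 42949674
    (rowB 3 eng mog cd1q0 cd3q1 pd0 1 false false false .up 0 0 1 (qsf 0 536870912 536870912 536870912 0) ndB1q0 ndB3q1 pcB0 Cut.none Ext.none)

def k0_mm_001 : ∃ t, chk3 f_mm_001 t 1 1 1 = true :=
  ⟨(l 3), by decide +kernel⟩

theorem c_mm_001 : CertB 0 536870912 536870912 536870912 923417968 42949674 3 eng mog cd1q0 cd3q1 pd0 false false false .up 0 0 1
    ndB1q0 ndB3q1 pcB0 Cut.none Ext.none :=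
  certB1 (fam := false) (s1 := false) (s2 := false) (a := 0) (b := 0) (c := 1) (cn := .up) (n1 := ndB1q0) (n2 := ndB3q1) (pc := pcB0) (cut := Cut.none) (xt := Ext.none) (P1 := 0) (W1 := 536870912) (P2 := 536870912) (W2 := 536870912) (P3 := 923417968) (W3 := 42949674) (N0 := 3) (En := eng) (mo := mog) (C1 := cd1q0) (C2 := cd3q1) (C3 := pd0)
    rfl (fun _ => rfl) k0_mm_001

noncomputable def f_mm_011 : ℕ → ℕ → ℕ → ℕ → Bool := onCell 0 536870912 536870912 536870912 923417968 42949674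
    (rowB 3 eng mog cd1q0 cd3q1 pd1 1 false false false .pnn 0 1 1 (qsf 0 536870912 536870912 536870912 1) ndB1q0 ndB3q1 pcB1 Cut.none Ext.none)

def k0_mm_011 : ∃ t, chk3 f_mm_011 t 1 1 1 = true :=
  ⟨(l 5), by decide +kernel⟩

theorem c_mm_011 : CertB 0 536870912 536870912 536870912 923417968 42949674 3 eng mog cd1q0 cd3q1 pd1 false false false .pnn 0 1 1
    ndB1q0 ndB3q1 pcB1 Cut.none Ext.none :=
  certB1 (fam := false) (s1 := false) (s2 := false) (a := 0) (b := 1) (c := 1) (cn := .pnn) (n1 := ndB1q0) (n2 := ndB3q1) (pc := pcB1) (cut := Cut.none) (xt := Ext.none) (P1 := 0) (W1 := 536870912) (P2 := 536870912) (W2 := 536870912) (P3 := 923417968) (W3 := 42949674) (N0 := 3) (En := eng) (mo := mog) (C1 := cd1q0) (C2 := cd3q1) (C3 := pd1)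
    rfl (fun _ => rfl) k0_mm_011

noncomputable def f_mm_012 : ℕ → ℕ → ℕ → ℕ → Bool := onCell 0 536870912 1073741824 536870912 923417968 42949674
    (rowB 3 eng mog cd1q0 cd3q2 pd1 0 false false false .pnp 0 1 2 (qsf 0 536870912 1073741824 536870912 1) ndB1q0 ndB3q2 pcB1 Cut.none Ext.none)

def k0_mm_012 : ∃ t, chk3 f_mm_012 t 1 1 1 = true :=
  ⟨(l 5), by decide +kernel⟩

theorem c_mm_012 : CertB 0 536870912 1073741824 536870912 923417968 42949674 3 eng mog cd1q0 cd3q2 pd1 false false false .pnp 0 1 2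
    ndB1q0 ndB3q2 pcB1 Cut.none Ext.none :=
  certB0 (fam := false) (s1 := false) (s2 := false) (a := 0) (b := 1) (c := 2) (cn := .pnp) (n1 := ndB1q0) (n2 := ndB3q2) (pc := pcB1) (cut := Cut.none) (xt := Ext.none) (P1 := 0) (W1 := 536870912) (P2 := 1073741824) (W2 := 536870912) (P3 := 923417968) (W3 := 42949674) (N0 := 3) (En := eng) (mo := mog) (C1 := cd1q0) (C2 := cd3q2) (C3 := pd1)
    rfl k0_mm_012

noncomputable def f_mm_022 : ℕ → ℕ → ℕ → ℕ → Bool := onCell 0 536870912 1073741824 536870912 923417968 42949674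
    (rowB 3 eng mog cd1q0 cd3q2 pd2 0 false false false .pp 0 2 2 (qsf 0 536870912 1073741824 536870912 2) ndB1q0 ndB3q2 pcB2 Cut.none Ext.none)

def k0_mm_022 : ∃ t, chk3 f_mm_022 t 1 1 1 = true :=
  ⟨(l 5), by decide +kernel⟩

theorem c_mm_022 : CertB 0 536870912 1073741824 536870912 923417968 42949674 3 eng mog cd1q0 cd3q2 pd2 false false false .pp 0 2 2
    ndB1q0 ndB3q2 pcB2 Cut.none Ext.none :=
  certB0 (fam := false) (s1 := false) (s2 := false) (a := 0) (b := 2) (c := 2) (cn := .pp) (n1 := ndB1q0) (n2 := ndB3q2) (pc := pcB2) (cut := Cut.none) (xt := Ext.none) (P1 := 0) (W1 := 536870912) (P2 := 1073741824) (W2 := 536870912) (P3 := 923417968) (W3 := 42949674) (N0 := 3) (En := eng) (mo := mog) (C1 := cd1q0) (C2 := cd3q2) (C3 := pd2)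
    rfl k0_mm_022

noncomputable def f_mm_023 : ℕ → ℕ → ℕ → ℕ → Bool := onCell 0 536870912 0 1230186008 923417968 42949674
    (rowB 3 eng mog cd1q0 cd3q3 pd2 0 false false false .up 0 2 3 (qsf 0 536870912 0 1230186008 2) ndB1q0 ndB3q3 pcB2 Cut.none Ext.none)

def k0_mm_023 : ∃ t, chk3 f_mm_023 t 1 1 1 = true :=
  ⟨(l 5), by decide +kernel⟩

theorem c_mm_023 : CertB 0 536870912 0 1230186008 923417968 42949674 3 eng mog cd1q0 cd3q3 pd2 false false false .up 0 2 3
    ndB1q0 ndB3q3 pcB2 Cut.none Ext.none :=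
  certB0 (fam := false) (s1 := false) (s2 := false) (a := 0) (b := 2) (c := 3) (cn := .up) (n1 := ndB1q0) (n2 := ndB3q3) (pc := pcB2) (cut := Cut.none) (xt := Ext.none) (P1 := 0) (W1 := 536870912) (P2 := 0) (W2 := 1230186008) (P3 := 923417968) (W3 := 42949674) (N0 := 3) (En := eng) (mo := mog) (C1 := cd1q0) (C2 := cd3q3) (C3 := pd2)
    rfl k0_mm_023

noncomputable def f_mm_033 : ℕ → ℕ → ℕ → ℕ → Bool := onCell 0 536870912 0 1230186008 923417968 42949674
    (rowB 3 eng mog cd1q0 cd3q3 pd3 0 false false false .pnn 0 3 3 (qsf 0 536870912 0 1230186008 3) ndB1q0 ndB3q3 pcB3 Cut.none Ext.none)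

def k0_mm_033 : ∃ t, chk3 f_mm_033 t 1 1 1 = true :=
  ⟨(l 5), by decide +kernel⟩

theorem c_mm_033 : CertB 0 536870912 0 1230186008 923417968 42949674 3 eng mog cd1q0 cd3q3 pd3 false false false .pnn 0 3 3
    ndB1q0 ndB3q3 pcB3 Cut.none Ext.none :=
  certB0 (fam := false) (s1 := false) (s2 := false) (a := 0) (b := 3) (c := 3) (cn := .pnn) (n1 := ndB1q0) (n2 := ndB3q3) (pc := pcB3) (cut := Cut.none) (xt := Ext.none) (P1 := 0) (W1 := 536870912) (P2 := 0) (W2 := 1230186008) (P3 := 923417968) (W3 := 42949674) (N0 := 3) (En := eng) (mo := mog) (C1 := cd1q0) (C2 := cd3q3) (C3 := pd3)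
    rfl k0_mm_033

noncomputable def f_mm_101 : ℕ → ℕ → ℕ → ℕ → Bool := onCell 536870912 536870912 536870912 536870912 923417968 42949674
    (rowB 3 eng mog cd1q1 cd3q1 pd0 0 false false false .npn 1 0 1 (qsf 536870912 536870912 536870912 536870912 0) ndB1q1 ndB3q1 pcB0 Cut.none Ext.none)

def k0_mm_101 : ∃ t, chk3 f_mm_101 t 1 1 1 = true :=
  ⟨(l 3), by decide +kernel⟩

theorem c_mm_101 : CertB 536870912 536870912 536870912 536870912 923417968 42949674 3 eng mog cd1q1 cd3q1 pd0 false false false .npn 1 0 1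
    ndB1q1 ndB3q1 pcB0 Cut.none Ext.none :=
  certB0 (fam := false) (s1 := false) (s2 := false) (a := 1) (b := 0) (c := 1) (cn := .npn) (n1 := ndB1q1) (n2 := ndB3q1) (pc := pcB0) (cut := Cut.none) (xt := Ext.none) (P1 := 536870912) (W1 := 536870912) (P2 := 536870912) (W2 := 536870912) (P3 := 923417968) (W3 := 42949674) (N0 := 3) (En := eng) (mo := mog) (C1 := cd1q1) (C2 := cd3q1) (C3 := pd0)
    rfl k0_mm_101

noncomputable def f_mm_102 : ℕ → ℕ → ℕ → ℕ → Bool := onCell 536870912 536870912 1073741824 536870912 923417968 42949674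
    (rowB 3 eng mog cd1q1 cd3q2 pd0 0 false false false .npp 1 0 2 (qsf 536870912 536870912 1073741824 536870912 0) ndB1q1 ndB3q2 pcB0 Cut.none Ext.none)

def k0_mm_102 : ∃ t, chk3 f_mm_102 t 1 1 1 = true :=
  ⟨(l 3), by decide +kernel⟩

theorem c_mm_102 : CertB 536870912 536870912 1073741824 536870912 923417968 42949674 3 eng mog cd1q1 cd3q2 pd0 false false false .npp 1 0 2
    ndB1q1 ndB3q2 pcB0 Cut.none Ext.none :=
  certB0 (fam := false) (s1 := false) (s2 := false) (a := 1) (b := 0) (c := 2) (cn := .npp) (n1 := ndB1q1) (n2 := ndB3q2) (pc := pcB0) (cut := Cut.none) (xt := Ext.none) (P1 := 536870912) (W1 := 536870912) (P2 := 1073741824) (W2 := 536870912) (P3 := 923417968) (W3 := 42949674) (N0 := 3) (En := eng) (mo := mog) (C1 := cd1q1) (C2 := cd3q2) (C3 := pd0)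
    rfl k0_mm_102

noncomputable def f_mm_112 : ℕ → ℕ → ℕ → ℕ → Bool := onCell 536870912 536870912 1073741824 536870912 923417968 42949674
    (rowB 3 eng mog cd1q1 cd3q2 pd1 0 false false false .dn 1 1 2 (qsf 536870912 536870912 1073741824 536870912 1) ndB1q1 ndB3q2 pcB1 Cut.none Ext.none)

def k0_mm_112 : ∃ t, chk3 f_mm_112 t 1 1 1 = true :=
  ⟨(l 3), by decide +kernel⟩

theorem c_mm_112 : CertB 536870912 536870912 1073741824 536870912 923417968 42949674 3 eng mog cd1q1 cd3q2 pd1 false false false .dn 1 1 2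
    ndB1q1 ndB3q2 pcB1 Cut.none Ext.none :=
  certB0 (fam := false) (s1 := false) (s2 := false) (a := 1) (b := 1) (c := 2) (cn := .dn) (n1 := ndB1q1) (n2 := ndB3q2) (pc := pcB1) (cut := Cut.none) (xt := Ext.none) (P1 := 536870912) (W1 := 536870912) (P2 := 1073741824) (W2 := 536870912) (P3 := 923417968) (W3 := 42949674) (N0 := 3) (En := eng) (mo := mog) (C1 := cd1q1) (C2 := cd3q2) (C3 := pd1)
    rfl k0_mm_112

noncomputable def f_mm_113 : ℕ → ℕ → ℕ → ℕ → Bool := onCell 536870912 536870912 0 1230186008 923417968 42949674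
    (rowB 3 eng mog cd1q1 cd3q3 pd1 0 false false false .nn 1 1 3 (qsf 536870912 536870912 0 1230186008 1) ndB1q1 ndB3q3 pcB1 Cut.none Ext.none)

def k0_mm_113 : ∃ t, chk3 f_mm_113 t 1 1 1 = true :=
  ⟨(l 5), by decide +kernel⟩

theorem c_mm_113 : CertB 536870912 536870912 0 1230186008 923417968 42949674 3 eng mog cd1q1 cd3q3 pd1 false false false .nn 1 1 3
    ndB1q1 ndB3q3 pcB1 Cut.none Ext.none :=
  certB0 (fam := false) (s1 := false) (s2 := false) (a := 1) (b := 1) (c := 3) (cn := .nn) (n1 := ndB1q1) (n2 := ndB3q3) (pc := pcB1) (cut := Cut.none) (xt := Ext.none) (P1 := 536870912) (W1 := 536870912) (P2 := 0) (W2 := 1230186008) (P3 := 923417968) (W3 := 42949674) (N0 := 3) (En := eng) (mo := mog) (C1 := cd1q1) (C2 := cd3q3) (C3 := pd1)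
    rfl k0_mm_113

noncomputable def f_mm_123 : ℕ → ℕ → ℕ → ℕ → Bool := onCell 536870912 536870912 0 1230186008 923417968 42949674
    (rowB 3 eng mog cd1q1 cd3q3 pd2 0 false false false .npn 1 2 3 (qsf 536870912 536870912 0 1230186008 2) ndB1q1 ndB3q3 pcB2 Cut.none Ext.none)

def k0_mm_123 : ∃ t, chk3 f_mm_123 t 1 1 1 = true :=
  ⟨(l 5), by decide +kernel⟩

theorem c_mm_123 : CertB 536870912 536870912 0 1230186008 923417968 42949674 3 eng mog cd1q1 cd3q3 pd2 false false false .npn 1 2 3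
    ndB1q1 ndB3q3 pcB2 Cut.none Ext.none :=
  certB0 (fam := false) (s1 := false) (s2 := false) (a := 1) (b := 2) (c := 3) (cn := .npn) (n1 := ndB1q1) (n2 := ndB3q3) (pc := pcB2) (cut := Cut.none) (xt := Ext.none) (P1 := 536870912) (W1 := 536870912) (P2 := 0) (W2 := 1230186008) (P3 := 923417968) (W3 := 42949674) (N0 := 3) (En := eng) (mo := mog) (C1 := cd1q1) (C2 := cd3q3) (C3 := pd2)
    rfl k0_mm_123

noncomputable def f_mm_133 : ℕ → ℕ → ℕ → ℕ → Bool := onCell 536870912 536870912 0 1230186008 923417968 42949674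
    (rowB 3 eng mog cd1q1 cd3q3 pd3 0 false false false .dn 1 3 3 (qsf 536870912 536870912 0 1230186008 3) ndB1q1 ndB3q3 pcB3 Cut.none Ext.none)

def k0_mm_133 : ∃ t, chk3 f_mm_133 t 1 1 1 = true :=
  ⟨(l 5), by decide +kernel⟩

theorem c_mm_133 : CertB 536870912 536870912 0 1230186008 923417968 42949674 3 eng mog cd1q1 cd3q3 pd3 false false false .dn 1 3 3
    ndB1q1 ndB3q3 pcB3 Cut.none Ext.none :=
  certB0 (fam := false) (s1 := false) (s2 := false) (a := 1) (b := 3) (c := 3) (cn := .dn) (n1 := ndB1q1) (n2 := ndB3q3) (pc := pcB3) (cut := Cut.none) (xt := Ext.none) (P1 := 536870912) (W1 := 536870912) (P2 := 0) (W2 := 1230186008) (P3 := 923417968) (W3 := 42949674) (N0 := 3) (En := eng) (mo := mog) (C1 := cd1q1) (C2 := cd3q3) (C3 := pd3)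
    rfl k0_mm_133

noncomputable def f_mm_202_a : ℕ → ℕ → ℕ → ℕ → Bool := onCell 0 536870912 1073741824 536870912 923417968 42949674
    (rowB 3 eng mog cd1q2a cd3q2 pd0 0 false false false .pp 2 0 2 (qsf 0 536870912 1073741824 536870912 0) ndB1q2a ndB3q2 pcB0 Cut.none Ext.none)

def k0_mm_202_a : ∃ t, chk3 f_mm_202_a t 1 1 1 = true :=
  ⟨(l 3), by decide +kernel⟩

theorem c_mm_202_a : CertB 0 536870912 1073741824 536870912 923417968 42949674 3 eng mog cd1q2a cd3q2 pd0 false false false .pp 2 0 2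
    ndB1q2a ndB3q2 pcB0 Cut.none Ext.none :=
  certB0 (fam := false) (s1 := false) (s2 := false) (a := 2) (b := 0) (c := 2) (cn := .pp) (n1 := ndB1q2a) (n2 := ndB3q2) (pc := pcB0) (cut := Cut.none) (xt := Ext.none) (P1 := 0) (W1 := 536870912) (P2 := 1073741824) (W2 := 536870912) (P3 := 923417968) (W3 := 42949674) (N0 := 3) (En := eng) (mo := mog) (C1 := cd1q2a) (C2 := cd3q2) (C3 := pd0)
    rfl k0_mm_202_a

noncomputable def f_mm_202_b : ℕ → ℕ → ℕ → ℕ → Bool := onCell 1239849684 370763052 1073741824 536870912 923417968 42949674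
    (rowB 3 eng mog cd1q2b cd3q2 pd0 0 false false false .pp 2 0 2 (qsf 1239849684 370763052 1073741824 536870912 0) ndB1q2b ndB3q2 pcB0 Cut.none Ext.none)

def k0_mm_202_b : ∃ t, chk3 f_mm_202_b t 1 1 1 = true :=
  ⟨(l 3), by decide +kernel⟩

theorem c_mm_202_b : CertB 1239849684 370763052 1073741824 536870912 923417968 42949674 3 eng mog cd1q2b cd3q2 pd0 false false false .pp 2 0 2
    ndB1q2b ndB3q2 pcB0 Cut.none Ext.none :=
  certB0 (fam := false) (s1 := false) (s2 := false) (a := 2) (b := 0) (c := 2) (cn := .pp) (n1 := ndB1q2b) (n2 := ndB3q2) (pc := pcB0) (cut := Cut.none) (xt := Ext.none) (P1 := 1239849684) (W1 := 370763052) (P2 := 1073741824) (W2 := 536870912) (P3 := 923417968) (W3 := 42949674) (N0 := 3) (En := eng) (mo := mog) (C1 := cd1q2b) (C2 := cd3q2) (C3 := pd0)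
    rfl k0_mm_202_b

noncomputable def f_mm_203_a : ℕ → ℕ → ℕ → ℕ → Bool := onCell 0 536870912 0 1230186008 923417968 42949674
    (rowB 3 eng mog cd1q2a cd3q3 pd0 0 false false false .up 2 0 3 (qsf 0 536870912 0 1230186008 0) ndB1q2a ndB3q3 pcB0 Cut.none Ext.none)

def k0_mm_203_a : ∃ t, chk3 f_mm_203_a t 1 1 1 = true :=
  ⟨(b (l 2) (l 3)), by decide +kernel⟩

theorem c_mm_203_a : CertB 0 536870912 0 1230186008 923417968 42949674 3 eng mog cd1q2a cd3q3 pd0 false false false .up 2 0 3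
    ndB1q2a ndB3q3 pcB0 Cut.none Ext.none :=
  certB0 (fam := false) (s1 := false) (s2 := false) (a := 2) (b := 0) (c := 3) (cn := .up) (n1 := ndB1q2a) (n2 := ndB3q3) (pc := pcB0) (cut := Cut.none) (xt := Ext.none) (P1 := 0) (W1 := 536870912) (P2 := 0) (W2 := 1230186008) (P3 := 923417968) (W3 := 42949674) (N0 := 3) (En := eng) (mo := mog) (C1 := cd1q2a) (C2 := cd3q3) (C3 := pd0)
    rfl k0_mm_203_a

noncomputable def f_mm_203_b : ℕ → ℕ → ℕ → ℕ → Bool := onCell 1239849684 370763052 0 1230186008 923417968 42949674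
    (rowB 3 eng mog cd1q2b cd3q3 pd0 0 false false false .up 2 0 3 (qsf 1239849684 370763052 0 1230186008 0) ndB1q2b ndB3q3 pcB0 Cut.none Ext.none)

def k0_mm_203_b : ∃ t, chk3 f_mm_203_b t 1 1 1 = true :=
  ⟨(b (l 3) (l 3)), by decide +kernel⟩

theorem c_mm_203_b : CertB 1239849684 370763052 0 1230186008 923417968 42949674 3 eng mog cd1q2b cd3q3 pd0 false false false .up 2 0 3
    ndB1q2b ndB3q3 pcB0 Cut.none Ext.none :=
  certB0 (fam := false) (s1 := false) (s2 := false) (a := 2) (b := 0) (c := 3) (cn := .up) (n1 := ndB1q2b) (n2 := ndB3q3) (pc := pcB0) (cut := Cut.none) (xt := Ext.none) (P1 := 1239849684) (W1 := 370763052) (P2 := 0) (W2 := 1230186008) (P3 := 923417968) (W3 := 42949674) (N0 := 3) (En := eng) (mo := mog) (C1 := cd1q2b) (C2 := cd3q3) (C3 := pd0)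
    rfl k0_mm_203_b

noncomputable def f_mm_213_a : ℕ → ℕ → ℕ → ℕ → Bool := onCell 0 536870912 0 1230186008 923417968 42949674
    (rowB 3 eng mog cd1q2a cd3q3 pd1 0 false false false .pnn 2 1 3 (qsf 0 536870912 0 1230186008 1) ndB1q2a ndB3q3 pcB1 Cut.none Ext.none)

def k0_mm_213_a : ∃ t, chk3 f_mm_213_a t 1 1 1 = true :=
  ⟨(b (a (l 3) (l 5)) (l 3)), by decide +kernel⟩

theorem c_mm_213_a : CertB 0 536870912 0 1230186008 923417968 42949674 3 eng mog cd1q2a cd3q3 pd1 false false false .pnn 2 1 3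
    ndB1q2a ndB3q3 pcB1 Cut.none Ext.none :=
  certB0 (fam := false) (s1 := false) (s2 := false) (a := 2) (b := 1) (c := 3) (cn := .pnn) (n1 := ndB1q2a) (n2 := ndB3q3) (pc := pcB1) (cut := Cut.none) (xt := Ext.none) (P1 := 0) (W1 := 536870912) (P2 := 0) (W2 := 1230186008) (P3 := 923417968) (W3 := 42949674) (N0 := 3) (En := eng) (mo := mog) (C1 := cd1q2a) (C2 := cd3q3) (C3 := pd1)
    rfl k0_mm_213_a

noncomputable def f_mm_213_b : ℕ → ℕ → ℕ → ℕ → Bool := onCell 1239849684 370763052 0 1230186008 923417968 42949674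
    (rowB 3 eng mog cd1q2b cd3q3 pd1 0 false false false .pnn 2 1 3 (qsf 1239849684 370763052 0 1230186008 1) ndB1q2b ndB3q3 pcB1 Cut.none Ext.none)

def k0_mm_213_b : ∃ t, chk3 f_mm_213_b t 1 1 1 = true :=
  ⟨(b (l 3) (l 3)), by decide +kernel⟩

theorem c_mm_213_b : CertB 1239849684 370763052 0 1230186008 923417968 42949674 3 eng mog cd1q2b cd3q3 pd1 false false false .pnn 2 1 3
    ndB1q2b ndB3q3 pcB1 Cut.none Ext.none :=
  certB0 (fam := false) (s1 := false) (s2 := false) (a := 2) (b := 1) (c := 3) (cn := .pnn) (n1 := ndB1q2b) (n2 := ndB3q3) (pc := pcB1) (cut := Cut.none) (xt := Ext.none) (P1 := 1239849684) (W1 := 370763052) (P2 := 0) (W2 := 1230186008) (P3 := 923417968) (W3 := 42949674) (N0 := 3) (En := eng) (mo := mog) (C1 := cd1q2b) (C2 := cd3q3) (C3 := pd1)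
    rfl k0_mm_213_b

noncomputable def f_mm_303 : ℕ → ℕ → ℕ → ℕ → Bool := onCell 1610612736 536870912 0 1230186008 923417968 42949674
    (rowB 3 eng mog cd1q3 cd3q3 pd0 0 false false false .npn 3 0 3 (qsf 1610612736 536870912 0 1230186008 0) ndB1q3 ndB3q3 pcB0 Cut.none Ext.none)

def k0_mm_303 : ∃ t, chk3 f_mm_303 t 1 1 1 = true :=
  ⟨(b (l 3) (l 3)), by decide +kernel⟩

theorem c_mm_303 : CertB 1610612736 536870912 0 1230186008 923417968 42949674 3 eng mog cd1q3 cd3q3 pd0 false false false .npn 3 0 3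
    ndB1q3 ndB3q3 pcB0 Cut.none Ext.none :=
  certB0 (fam := false) (s1 := false) (s2 := false) (a := 3) (b := 0) (c := 3) (cn := .npn) (n1 := ndB1q3) (n2 := ndB3q3) (pc := pcB0) (cut := Cut.none) (xt := Ext.none) (P1 := 1610612736) (W1 := 536870912) (P2 := 0) (W2 := 1230186008) (P3 := 923417968) (W3 := 42949674) (N0 := 3) (En := eng) (mo := mog) (C1 := cd1q3) (C2 := cd3q3) (C3 := pd0)
    rfl k0_mm_303

noncomputable def f_mm_313 : ℕ → ℕ → ℕ → ℕ → Bool := onCell 1610612736 536870912 0 1230186008 923417968 42949674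
    (rowB 3 eng mog cd1q3 cd3q3 pd1 0 false false false .dn 3 1 3 (qsf 1610612736 536870912 0 1230186008 1) ndB1q3 ndB3q3 pcB1 Cut.none Ext.none)

def k0_mm_313 : ∃ t, chk3 f_mm_313 t 1 1 1 = true :=
  ⟨(b (l 3) (l 1)), by decide +kernel⟩

theorem c_mm_313 : CertB 1610612736 536870912 0 1230186008 923417968 42949674 3 eng mog cd1q3 cd3q3 pd1 false false false .dn 3 1 3
    ndB1q3 ndB3q3 pcB1 Cut.none Ext.none :=
  certB0 (fam := false) (s1 := false) (s2 := false) (a := 3) (b := 1) (c := 3) (cn := .dn) (n1 := ndB1q3) (n2 := ndB3q3) (pc := pcB1) (cut := Cut.none) (xt := Ext.none) (P1 := 1610612736) (W1 := 536870912) (P2 := 0) (W2 := 1230186008) (P3 := 923417968) (W3 := 42949674) (N0 := 3) (En := eng) (mo := mog) (C1 := cd1q3) (C2 := cd3q3) (C3 := pd1)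
    rfl k0_mm_313

end Pool.Agent.Strip051.G.I8600_9000.Tab.C.BB13

namespace Pool.Agent.Strip051.G.I8600_9000.Tab.C.BB14

open Pool.Agent.Strip051.PB Pool.Agent.Strip051.PB.T
open Pool.Agent.Strip051.G.I8600_9000.Tab

noncomputable def f_pp_001 : ℕ → ℕ → ℕ → ℕ → Bool := onCell 0 536870912 0 536870912 923417968 42949674
    (rowB 3 eng mog cd1q0 cd4q1 pd0 1 false true true .up 0 0 1 (qsf 0 536870912 536870912 536870912 0) ndB1q0 ndB4q1 pcB0 Cut.none Ext.none)

def k0_pp_001 : ∃ t, chk3 f_pp_001 t 1 1 1 = true :=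
  ⟨(l 3), by decide +kernel⟩

theorem c_pp_001 : CertB 0 536870912 536870912 536870912 923417968 42949674 3 eng mog cd1q0 cd4q1 pd0 false true true .up 0 0 1
    ndB1q0 ndB4q1 pcB0 Cut.none Ext.none :=
  certB1 (fam := false) (s1 := true) (s2 := true) (a := 0) (b := 0) (c := 1) (cn := .up) (n1 := ndB1q0) (n2 := ndB4q1) (pc := pcB0) (cut := Cut.none) (xt := Ext.none) (P1 := 0) (W1 := 536870912) (P2 := 536870912) (W2 := 536870912) (P3 := 923417968) (W3 := 42949674) (N0 := 3) (En := eng) (mo := mog) (C1 := cd1q0) (C2 := cd4q1) (C3 := pd0)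
    rfl (fun _ => rfl) k0_pp_001

noncomputable def cut_pp_011 : Cut := Cut.of [[⟨0, 0, 0, 67108864⟩, ⟨1, 1, 0, 67108864⟩, ⟨2, 1, 0, 67108864⟩]]

noncomputable def f_pp_011 : ℕ → ℕ → ℕ → ℕ → Bool := onCell 0 536870912 536870912 536870912 923417968 42949674
    (rowB 3 eng mog cd1q0 cd4q1 pd1 1 false true true .pnn 0 1 1 (qsf 0 536870912 536870912 536870912 1) ndB1q0 ndB4q1 pcB1 cut_pp_011 Ext.none)

def k0_pp_011 : ∃ t, chk3 f_pp_011 t 1 1 1 = true :=
  ⟨(b (l 3) (b (l 3) (a (a (b (l 3) (a (b (l 3) (a (l 6) (l 3))) (l 3))) (l 3)) (l 2)))), by decide +kernel⟩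

theorem c_pp_011 : CertB 0 536870912 536870912 536870912 923417968 42949674 3 eng mog cd1q0 cd4q1 pd1 false true true .pnn 0 1 1
    ndB1q0 ndB4q1 pcB1 cut_pp_011 Ext.none :=
  certB1 (fam := false) (s1 := true) (s2 := true) (a := 0) (b := 1) (c := 1) (cn := .pnn) (n1 := ndB1q0) (n2 := ndB4q1) (pc := pcB1) (cut := cut_pp_011) (xt := Ext.none) (P1 := 0) (W1 := 536870912) (P2 := 536870912) (W2 := 536870912) (P3 := 923417968) (W3 := 42949674) (N0 := 3) (En := eng) (mo := mog) (C1 := cd1q0) (C2 := cd4q1) (C3 := pd1)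
    rfl (fun _ => rfl) k0_pp_011

noncomputable def cut_pp_012 : Cut := Cut.of [[⟨0, 0, 0, 67108864⟩, ⟨1, 1, 0, 67108864⟩, ⟨2, 1, 0, 67108864⟩]]

noncomputable def f_pp_012 : ℕ → ℕ → ℕ → ℕ → Bool := onCell 0 536870912 536870912 536870912 923417968 42949674
    (rowB 3 eng mog cd1q0 cd4q2 pd1 1 false true true .pnp 0 1 2 (qsf 0 536870912 1073741824 536870912 1) ndB1q0 ndB4q2 pcB1 cut_pp_012 Ext.none)

def k0_pp_012 : ∃ t, chk3 f_pp_012 t 1 1 1 = true :=
  ⟨(b (l 3) (a (b (l 3) (a (a (a (b (l 1) (b (l 3) (l 6))) (l 3)) (l 3)) (l 3))) (l 3))), by decide +kernel⟩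

theorem c_pp_012 : CertB 0 536870912 1073741824 536870912 923417968 42949674 3 eng mog cd1q0 cd4q2 pd1 false true true .pnp 0 1 2
    ndB1q0 ndB4q2 pcB1 cut_pp_012 Ext.none :=
  certB1 (fam := false) (s1 := true) (s2 := true) (a := 0) (b := 1) (c := 2) (cn := .pnp) (n1 := ndB1q0) (n2 := ndB4q2) (pc := pcB1) (cut := cut_pp_012) (xt := Ext.none) (P1 := 0) (W1 := 536870912) (P2 := 1073741824) (W2 := 536870912) (P3 := 923417968) (W3 := 42949674) (N0 := 3) (En := eng) (mo := mog) (C1 := cd1q0) (C2 := cd4q2) (C3 := pd1)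
    rfl (fun _ => rfl) k0_pp_012

noncomputable def cut_pp_022 : Cut := Cut.of [[⟨0, 0, 0, 67108864⟩, ⟨1, 1, 0, 67108864⟩, ⟨2, 1, 0, 67108864⟩]]

noncomputable def f_pp_022 : ℕ → ℕ → ℕ → ℕ → Bool := onCell 0 536870912 1073741824 536870912 923417968 42949674
    (rowB 3 eng mog cd1q0 cd4q2 pd2 1 false true true .pp 0 2 2 (qsf 0 536870912 1073741824 536870912 2) ndB1q0 ndB4q2 pcB2 cut_pp_022 Ext.none)

def k0_pp_022 : ∃ t, chk3 f_pp_022 t 2 8 1 = true :=
  ⟨(a (a (b (a (b (l 6) (a (l 6) (b (l 6) (b (l 6) (a (l 6) (l 16732960)))))) (b (l 3) (b (l 3) (a (b (l 3) (a (l 16739464) (l 3))) (l 3))))) (a (b (a (a (l 6) (b (l 6) (c (l 16661440) (l 16661256)))) (b (a (b (l 6) (l 16708408)) (l 16718664)) (a (l 16692040) (l 16698328)))) (a (b (a (a (l 6) (l 16629704)) (l 16637760)) (a (l 16603960) (l 16613920))) (b (a (l 16647936) (l 16655384)) (a (l 16644448) (l 16631968))))) (b (b (a (a (l 16703200) (l 16730368)) (l 3)) (a (a (l 16703664) (l 16709096)) (a (l 16714912)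 (l 3)))) (a (b (l 16684808) (l 16619960)) (b (l 16695792) (l 16672712)))))) (b (l 3) (b (l 3) (a (b (l 3) (a (l 16683920) (l 3))) (l 3))))) (l 3)), by decide +kernel⟩

def k1_pp_022 : ∃ t, chk3 f_pp_022 t 2 9 1 = true :=
  ⟨(a (b (a (a (b (a (b (a (l 16580632) (l 16610824)) (a (l 16578016) (l 16586584))) (b (a (l 16619736) (l 16628408)) (l 16578136))) (a (b (c (l 16556240) (l 16560624)) (l 16471192)) (c (l 16520704) (l 16539560)))) (b (a (b (l 16596064) (l 16571784)) (b (l 16627704) (l 16624496))) (a (b (l 16589056) (l 16563840)) (b (l 16600616) (l 16576768))))) (a (b (b (a (l 16638616) (l 16671472)) (a (l 16635160) (l 16646936))) (a (l 16557528) (l 16569440))) (b (b (l 3) (l 3)) (a (l 16583184) (l 16641080))))) (a (a (b (a (b (l 16467880) (l 16464536)) (b (l 16523992) (l 16499112))) (a (b (l 16461208) (l 16436944)) (l 16399184))) (b (a (l 16483944) (b (l 16552712) (l 16528256))) (a (l 16476104) (l 16491352)))) (b (a (a (l 16532368) (l 16566096)) (a (l 16580792)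 (l 16575952))) (a (a (l 16507560) (l 16523792)) (l 16463768))))) (b (a (l 3) (l 3)) (a (b (a (l 16624072) (l 3)) (a (l 16582624) (l 16619312))) (b (l 3) (a (l 16657056) (l 3)))))), by decide +kernel⟩

def k2_pp_022 : ∃ t, chk3 f_pp_022 t 2 5 1 = true :=
  ⟨(a (b (b (a (b (a (a (b (l 16412752) (l 16388624)) (l 16371352)) (a (l 16427480) (l 16443408))) (a (b (a (l 16364472) (l 16377144)) (b (l 16352600) (a (l 16333520) (l 16346384)))) (b (l 16400592) (b (l 16382688) (l 16370392))))) (b (a (a (l 16461376) (l 16438552)) (b (l 16519112) (l 16498984))) (b (a (l 16436952) (l 16477592)) (a (l 16372024) (l 16454480))))) (a (a (b (a (l 16306176) (l 16319504)) (a (l 16264784) (l 16279328))) (a (l 16232024) (l 16291648))) (a (b (l 16382864) (l 16344008)) (l 16341944)))) (a (a (b (b (l 16169688) (l 16151488)) (b (l 16155664) (l 16117424))) (b (b (l 16266776) (l 16228224)) (l 16108376))) (a (b (l 16223808) (l 16211088)) (b (l 16328880) (l 16255216))))) (b (b (b (a (a (l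 16545760) (l 16582984)) (b (l 16648880) (l 16631832))) (b (a (a (l 16517552) (l 16556744)) (l 16615560)) (b (a (l 16523120) (l 16602344)) (a (a (l 16490656) (l 16532472)) (l 16593144))))) (a (a (l 16405552) (l 16491056)) (a (l 16532368) (l 16570688)))) (a (a (b (l 16352608) (l 16300568)) (b (l 16396672) (l 16345512))) (b (l 16480544) (l 16411160))))), by decide +kernel⟩

def k3_pp_022 : ∃ t, chk3 f_pp_022 t 2 3 1 = true :=
  ⟨(a (b (a (b (a (b (l 15955976) (l 15985728)) (b (l 16095936) (l 16022472))) (a (b (l 15912248) (l 15839072)) (b (l 15949552) (l 15877272)))) (b (a (b (l 16137568) (l 16064808)) (b (l 16182456) (l 16110568))) (a (b (l 15992832) (l 15922056)) (l 15796032)))) (a (b (a (b (l 15766288) (l 15694256)) (b (l 15805992) (l 15734536))) (a (b (l 15621864) (l 15550496)) (l 15628648))) (b (a (l 15816920) (l 15865480)) (a (l 15681272) (l 2))))) (b (a (b (a (b (l 16228616) (l 16158256)) (l 16156968)) (a (l 16054192) (l 16080416))) (b (b (l 16341480)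 (l 16271504)) (b (l 16206840) (l 2)))) (a (b (b (l 15978952) (l 2)) (l 2)) (l 2)))), by decide +kernel⟩

def k4_pp_022 : ∃ t, chk3 f_pp_022 t 3 1 1 = true :=
  ⟨(a (b (b (l 3) (b (b (b (a (b (l 3) (l 16648712)) (l 3)) (b (a (l 16632952) (l 3)) (b (a (l 16624200) (l 16619768)) (a (l 16620544) (l 16618112))))) (a (l 16603976) (l 16612248))) (a (b (l 16551800) (l 16481960)) (b (l 16599568) (l 2))))) (b (b (a (b (l 16416936) (l 2)) (l 2)) (l 2)) (l 2))) (b (b (l 3) (b (b (b (l 3) (l 2)) (l 2)) (l 2))) (l 2))), by decide +kernel⟩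

theorem s5_pp_022 : ∃ t, chk3 f_pp_022 t 2 4 1 = true := ex3_b k0_pp_022 k1_pp_022

theorem s6_pp_022 : ∃ t, chk3 f_pp_022 t 2 2 1 = true := ex3_b s5_pp_022 k2_pp_022

theorem s7_pp_022 : ∃ t, chk3 f_pp_022 t 2 1 1 = true := ex3_b s6_pp_022 k3_pp_022

theorem s8_pp_022 : ∃ t, chk3 f_pp_022 t 1 1 1 = true := ex3_a s7_pp_022 k4_pp_022

theorem c_pp_022 : CertB 0 536870912 1073741824 536870912 923417968 42949674 3 eng mog cd1q0 cd4q2 pd2 false true true .pp 0 2 2
    ndB1q0 ndB4q2 pcB2 cut_pp_022 Ext.none :=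
  certB1 (fam := false) (s1 := true) (s2 := true) (a := 0) (b := 2) (c := 2) (cn := .pp) (n1 := ndB1q0) (n2 := ndB4q2) (pc := pcB2) (cut := cut_pp_022) (xt := Ext.none) (P1 := 0) (W1 := 536870912) (P2 := 1073741824) (W2 := 536870912) (P3 := 923417968) (W3 := 42949674) (N0 := 3) (En := eng) (mo := mog) (C1 := cd1q0) (C2 := cd4q2) (C3 := pd2)
    rfl (fun _ => rfl) s8_pp_022

noncomputable def f_pp_023 : ℕ → ℕ → ℕ → ℕ → Bool := onCell 1073741824 536870912 0 1230186008 923417968 42949674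
    (rowB 3 eng mog cd1q0 cd4q3 pd2 2 false true true .up 0 2 3 (qsf 0 536870912 0 1230186008 2) ndB1q0 ndB4q3 pcB2 Cut.none Ext.none)

def k0_pp_023 : ∃ t, chk3 f_pp_023 t 1 1 1 = true :=
  ⟨(b (a (l 2) (a (l 2) (a (b (l 2) (b (l 15951608) (b (l 16381376) (l 16540928)))) (b (b (l 16043368) (l 15815152)) (b (b (l 15753904) (l 15983144)) (l 16329368)))))) (a (a (b (l 2) (b (l 2) (l 3))) (b (b (l 2) (a (l 2) (l 16647264))) (a (b (b (a (l 2) (l 16627200)) (a (a (l 16601960) (a (l 16612840) (a (l 16619632) (l 16621888)))) (l 16630040))) (a (a (l 3) (a (b (l 3) (l 3)) (b (a (l 16625688) (l 16626680)) (a (l 3) (l 16621328))))) (b (l 16628536) (l 16616216)))) (b (b (l 16643896) (l 16629104)) (b (l 16594312) (l 16547888)))))) (b (a (b (l 16746768) (b (l 16595664) (l 16555888))) (b (b (a (l 16556120) (l 16461840)) (l 16462376)) (b (l 16384664) (l 16286312)))) (b (a (b (l 16499416) (l 16425040)) (b (l 15982336) (l 15895232))) (a (b (l 16274448) (b (l 16269056) (l 16011280)))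 (a (b (l 16020192) (l 15816376)) (b (l 15788664) (l 15537600)))))))), by decide +kernel⟩

theorem c_pp_023 : CertB 0 536870912 0 1230186008 923417968 42949674 3 eng mog cd1q0 cd4q3 pd2 false true true .up 0 2 3
    ndB1q0 ndB4q3 pcB2 Cut.none Ext.none :=
  certB2 (fam := false) (s1 := true) (s2 := true) (a := 0) (b := 2) (c := 3) (cn := .up) (n1 := ndB1q0) (n2 := ndB4q3) (pc := pcB2) (cut := Cut.none) (xt := Ext.none) (P1 := 0) (W1 := 536870912) (P2 := 0) (W2 := 1230186008) (P3 := 923417968) (W3 := 42949674) (N0 := 3) (En := eng) (mo := mog) (C1 := cd1q0) (C2 := cd4q3) (C3 := pd2)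
    rfl (fun _ => rfl) k0_pp_023

noncomputable def f_pp_033 : ℕ → ℕ → ℕ → ℕ → Bool := onCell 1610612736 536870912 0 1230186008 923417968 42949674
    (rowB 3 eng mog cd1q0 cd4q3 pd3 2 false true true .pnn 0 3 3 (qsf 0 536870912 0 1230186008 3) ndB1q0 ndB4q3 pcB3 Cut.none Ext.none)

def k0_pp_033 : ∃ t, chk3 f_pp_033 t 1 2 1 = true :=
  ⟨(b (b (a (a (a (l 16402760) (l 16342856)) (a (l 16266960) (l 4))) (l 4)) (a (a (a (l 16488616) (l 16426664)) (a (a (l 16347472) (l 16279592)) (a (l 16213184) (l 16146864)))) (a (a (b (l 4) (l 15788248)) (l 4)) (l 4)))) (a (a (b (a (l 16269488) (b (l 16406632) (l 16376648))) (a (l 16368584) (l 16262328))) (a (b (a (l 16323320) (l 16278920)) (b (l 16204416) (l 16093480))) (b (l 16164296) (b (l 16094400) (l 15966504))))) (b (a (a (a (l 16052608) (l 15966952)) (a (l 15885208) (l 15808840))) (a (a (l 15705048) (l 4)) (l 4))) (a (a (b (l 15961192) (l 15838672)) (a (b (l 15816056) (l 15746696)) (l 15692200))) (a (a (l 15601368) (c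 (l 15546496) (l 744133905911))) (b (l 4) (l 1))))))), by decide +kernel⟩

def k1_pp_033 : ∃ t, chk3 f_pp_033 t 1 3 1 = true :=
  ⟨(b (a (a (b (a (b (l 16253528) (l 16156944)) (b (l 16113440) (l 15998136))) (b (l 15957616) (l 15832272))) (b (a (b (l 15963856) (l 15823176)) (b (l 15806496) (l 15763200))) (b (a (l 15674328) (l 15473424)) (a (l 15530280) (l 15321064))))) (b (a (a (b (l 15650864) (a (l 15495592) (l 15403176))) (a (b (l 15542560) (l 15314808)) (b (l 15477688) (l 15230440)))) (b (a (a (l 15428152) (l 1)) (l 1)) (l 1))) (a (a (b (l 280814530791) (a (l 15160472) (l 15056488))) (b (a (l 15142240) (l 1)) (l 1))) (l 1)))) (a (b (a (b (a (l 15811984) (l 15422488)) (a (l 15666848) (l 15316080))) (a (b (b (l 15431928) (l 15370120)) (b (l 15291656) (l 15196344))) (b (a (l 15236664) (l 15123352)) (l 1)))) (a (b (a (b (l 15594704) (l 15496376)) (b (l 15342624) (l 15230864))) (a (b (l 15381344) (a (l 15323888) (l 430601369223))) (b (a (l 15176832) (l 1)) (l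 1)))) (b (a (b (l 15093856) (l 1)) (l 1)) (l 1)))) (l 1))), by decide +kernel⟩

theorem s2_pp_033 : ∃ t, chk3 f_pp_033 t 1 1 1 = true := ex3_b k0_pp_033 k1_pp_033

theorem c_pp_033 : CertB 0 536870912 0 1230186008 923417968 42949674 3 eng mog cd1q0 cd4q3 pd3 false true true .pnn 0 3 3
    ndB1q0 ndB4q3 pcB3 Cut.none Ext.none :=
  certB2 (fam := false) (s1 := true) (s2 := true) (a := 0) (b := 3) (c := 3) (cn := .pnn) (n1 := ndB1q0) (n2 := ndB4q3) (pc := pcB3) (cut := Cut.none) (xt := Ext.none) (P1 := 0) (W1 := 536870912) (P2 := 0) (W2 := 1230186008) (P3 := 923417968) (W3 := 42949674) (N0 := 3) (En := eng) (mo := mog) (C1 := cd1q0) (C2 := cd4q3) (C3 := pd3)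
    rfl (fun _ => rfl) s2_pp_033

noncomputable def f_pp_101 : ℕ → ℕ → ℕ → ℕ → Bool := onCell 536870912 536870912 536870912 536870912 923417968 42949674
    (rowB 3 eng mog cd1q1 cd4q1 pd0 0 false true true .npn 1 0 1 (qsf 536870912 536870912 536870912 536870912 0) ndB1q1 ndB4q1 pcB0 Cut.none Ext.none)

def k0_pp_101 : ∃ t, chk3 f_pp_101 t 1 1 1 = true :=
  ⟨(l 3), by decide +kernel⟩

theorem c_pp_101 : CertB 536870912 536870912 536870912 536870912 923417968 42949674 3 eng mog cd1q1 cd4q1 pd0 false true true .npn 1 0 1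
    ndB1q1 ndB4q1 pcB0 Cut.none Ext.none :=
  certB0 (fam := false) (s1 := true) (s2 := true) (a := 1) (b := 0) (c := 1) (cn := .npn) (n1 := ndB1q1) (n2 := ndB4q1) (pc := pcB0) (cut := Cut.none) (xt := Ext.none) (P1 := 536870912) (W1 := 536870912) (P2 := 536870912) (W2 := 536870912) (P3 := 923417968) (W3 := 42949674) (N0 := 3) (En := eng) (mo := mog) (C1 := cd1q1) (C2 := cd4q1) (C3 := pd0)
    rfl k0_pp_101

noncomputable def f_pp_102 : ℕ → ℕ → ℕ → ℕ → Bool := onCell 536870912 536870912 1073741824 536870912 923417968 42949674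
    (rowB 3 eng mog cd1q1 cd4q2 pd0 0 false true true .npp 1 0 2 (qsf 536870912 536870912 1073741824 536870912 0) ndB1q1 ndB4q2 pcB0 Cut.none Ext.none)

def k0_pp_102 : ∃ t, chk3 f_pp_102 t 1 1 1 = true :=
  ⟨(l 3), by decide +kernel⟩

theorem c_pp_102 : CertB 536870912 536870912 1073741824 536870912 923417968 42949674 3 eng mog cd1q1 cd4q2 pd0 false true true .npp 1 0 2
    ndB1q1 ndB4q2 pcB0 Cut.none Ext.none :=
  certB0 (fam := false) (s1 := true) (s2 := true) (a := 1) (b := 0) (c := 2) (cn := .npp) (n1 := ndB1q1) (n2 := ndB4q2) (pc := pcB0) (cut := Cut.none) (xt := Ext.none) (P1 := 536870912) (W1 := 536870912) (P2 := 1073741824) (W2 := 536870912) (P3 := 923417968) (W3 := 42949674) (N0 := 3) (En := eng) (mo := mog) (C1 := cd1q1) (C2 := cd4q2) (C3 := pd0)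
    rfl k0_pp_102

noncomputable def f_pp_112 : ℕ → ℕ → ℕ → ℕ → Bool := onCell 536870912 536870912 1073741824 536870912 923417968 42949674
    (rowB 3 eng mog cd1q1 cd4q2 pd1 0 false true true .dn 1 1 2 (qsf 536870912 536870912 1073741824 536870912 1) ndB1q1 ndB4q2 pcB1 Cut.none Ext.none)

def k0_pp_112 : ∃ t, chk3 f_pp_112 t 1 1 1 = true :=
  ⟨(l 3), by decide +kernel⟩

theorem c_pp_112 : CertB 536870912 536870912 1073741824 536870912 923417968 42949674 3 eng mog cd1q1 cd4q2 pd1 false true true .dn 1 1 2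
    ndB1q1 ndB4q2 pcB1 Cut.none Ext.none :=
  certB0 (fam := false) (s1 := true) (s2 := true) (a := 1) (b := 1) (c := 2) (cn := .dn) (n1 := ndB1q1) (n2 := ndB4q2) (pc := pcB1) (cut := Cut.none) (xt := Ext.none) (P1 := 536870912) (W1 := 536870912) (P2 := 1073741824) (W2 := 536870912) (P3 := 923417968) (W3 := 42949674) (N0 := 3) (En := eng) (mo := mog) (C1 := cd1q1) (C2 := cd4q2) (C3 := pd1)
    rfl k0_pp_112

noncomputable def f_pp_113 : ℕ → ℕ → ℕ → ℕ → Bool := onCell 536870912 536870912 0 1230186008 923417968 42949674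
    (rowB 3 eng mog cd1q1 cd4q3 pd1 2 false true true .nn 1 1 3 (qsf 536870912 536870912 0 1230186008 1) ndB1q1 ndB4q3 pcB1 Cut.none Ext.none)

def k0_pp_113 : ∃ t, chk3 f_pp_113 t 1 1 1 = true :=
  ⟨(b (a (l 2) (a (l 2) (b (a (l 2) (b (l 16867048) (a (l 2) (l 16682656)))) (a (b (l 3) (l 3)) (b (a (l 283635172327) (l 16712536)) (a (l 3) (l 276119038855))))))) (a (b (l 3) (l 3)) (b (l 3) (l 3)))), by decide +kernel⟩

theorem c_pp_113 : CertB 536870912 536870912 0 1230186008 923417968 42949674 3 eng mog cd1q1 cd4q3 pd1 false true true .nn 1 1 3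
    ndB1q1 ndB4q3 pcB1 Cut.none Ext.none :=
  certB2 (fam := false) (s1 := true) (s2 := true) (a := 1) (b := 1) (c := 3) (cn := .nn) (n1 := ndB1q1) (n2 := ndB4q3) (pc := pcB1) (cut := Cut.none) (xt := Ext.none) (P1 := 536870912) (W1 := 536870912) (P2 := 0) (W2 := 1230186008) (P3 := 923417968) (W3 := 42949674) (N0 := 3) (En := eng) (mo := mog) (C1 := cd1q1) (C2 := cd4q3) (C3 := pd1)
    rfl (fun _ => rfl) k0_pp_113

noncomputable def f_pp_123 : ℕ → ℕ → ℕ → ℕ → Bool := onCell 1073741824 536870912 0 1230186008 923417968 42949674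
    (rowB 3 eng mog cd1q1 cd4q3 pd2 2 false true true .npn 1 2 3 (qsf 536870912 536870912 0 1230186008 2) ndB1q1 ndB4q3 pcB2 Cut.none Ext.none)

def k0_pp_123 : ∃ t, chk3 f_pp_123 t 2 1 1 = true :=
  ⟨(a (b (b (a (b (l 16589720) (a (l 16479816) (l 16558784))) (b (l 16553872) (l 16623840))) (a (a (b (b (l 16482680) (l 16609848)) (b (l 16760200) (l 16819136))) (b (b (l 16570832) (l 16664176)) (b (l 16805368) (l 16458064)))) (a (b (l 16699576) (l 16637576)) (b (l 16741216) (l 16604512))))) (b (a (b (a (l 3) (a (l 303498843479) (l 303498868967))) (l 3)) (a (b (b (a (l 16515464) (l 16497824)) (l 269675746983)) (b (l 314772744807) (l 3))) (b (b (l 16484120) (l 16211624)) (b (a (l 16329304) (l 16323712)) (a (l 16259040) (l 16259304)))))) (a (l 3) (b (a (l 3) (b (a (l 3) (l 16190832)) (l 3))) (l 3))))) (b (b (b (a (l 16445488) (l 16354112)) (a (l 16625896) (l 16546336))) (b (a (a (l 16890856) (l 16707992)) (l 16690784)) (a (a (c (l 16563880) (l 16608304)) (l 16552144))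 (b (l 16487392) (l 16440536))))) (b (b (a (a (c (l 16245936) (l 16410536)) (l 16452112)) (l 16337640)) (a (a (a (b (l 16324336) (l 16271840)) (a (l 16094472) (a (l 16291544) (l 16275496)))) (l 16181680)) (b (l 16358936) (l 16335024)))) (a (b (a (a (b (l 16218752) (l 598777119031)) (a (b (l 16246472) (l 16194936)) (b (a (l 16255760) (l 16261288)) (a (l 16205632) (l 16212008))))) (b (l 16280712) (l 16237568))) (a (a (l 3) (l 1)) (l 1))) (b (b (l 16312160) (l 1)) (l 1)))))), by decide +kernel⟩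

def k1_pp_123 : ∃ t, chk3 f_pp_123 t 3 1 1 = true :=
  ⟨(b (b (a (b (a (l 16323720) (l 16378752)) (a (l 16427992) (b (l 16291488) (l 16379144)))) (b (a (l 16489904) (l 16630136)) (a (l 16344888) (l 16420488)))) (a (b (a (l 16726576) (l 16714360)) (a (b (l 16425856) (l 16338552)) (b (l 16457456) (l 16256856)))) (b (a (l 16604272) (b (l 16370704) (l 16607888))) (a (b (l 16539752) (l 16134696)) (l 1256310457255))))) (b (a (b (a (l 16327752) (l 16266992)) (b (l 16314376) (l 16333488))) (b (a (l 16229896) (l 1)) (l 1))) (l 1))), by decide +kernel⟩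

theorem s2_pp_123 : ∃ t, chk3 f_pp_123 t 1 1 1 = true := ex3_a k0_pp_123 k1_pp_123

theorem c_pp_123 : CertB 536870912 536870912 0 1230186008 923417968 42949674 3 eng mog cd1q1 cd4q3 pd2 false true true .npn 1 2 3
    ndB1q1 ndB4q3 pcB2 Cut.none Ext.none :=
  certB2 (fam := false) (s1 := true) (s2 := true) (a := 1) (b := 2) (c := 3) (cn := .npn) (n1 := ndB1q1) (n2 := ndB4q3) (pc := pcB2) (cut := Cut.none) (xt := Ext.none) (P1 := 536870912) (W1 := 536870912) (P2 := 0) (W2 := 1230186008) (P3 := 923417968) (W3 := 42949674) (N0 := 3) (En := eng) (mo := mog) (C1 := cd1q1) (C2 := cd4q3) (C3 := pd2)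
    rfl (fun _ => rfl) s2_pp_123

noncomputable def f_pp_133 : ℕ → ℕ → ℕ → ℕ → Bool := onCell 536870912 536870912 0 1230186008 923417968 42949674
    (rowB 3 eng mog cd1q1 cd4q3 pd3 0 false true true .dn 1 3 3 (qsf 536870912 536870912 0 1230186008 3) ndB1q1 ndB4q3 pcB3 Cut.none Ext.none)

def k0_pp_133 : ∃ t, chk3 f_pp_133 t 1 1 1 = true :=
  ⟨(b (b (a (a (b (a (l 16490248) (l 1)) (l 1)) (l 1)) (l 1)) (l 1)) (l 1)), by decide +kernel⟩

theorem c_pp_133 : CertB 536870912 536870912 0 1230186008 923417968 42949674 3 eng mog cd1q1 cd4q3 pd3 false true true .dn 1 3 3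
    ndB1q1 ndB4q3 pcB3 Cut.none Ext.none :=
  certB0 (fam := false) (s1 := true) (s2 := true) (a := 1) (b := 3) (c := 3) (cn := .dn) (n1 := ndB1q1) (n2 := ndB4q3) (pc := pcB3) (cut := Cut.none) (xt := Ext.none) (P1 := 536870912) (W1 := 536870912) (P2 := 0) (W2 := 1230186008) (P3 := 923417968) (W3 := 42949674) (N0 := 3) (En := eng) (mo := mog) (C1 := cd1q1) (C2 := cd4q3) (C3 := pd3)
    rfl k0_pp_133

noncomputable def f_pp_202_a : ℕ → ℕ → ℕ → ℕ → Bool := onCell 0 536870912 1073741824 536870912 923417968 42949674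
    (rowB 3 eng mog cd1q2a cd4q2 pd0 0 false true true .pp 2 0 2 (qsf 0 536870912 1073741824 536870912 0) ndB1q2a ndB4q2 pcB0 Cut.none Ext.none)

def k0_pp_202_a : ∃ t, chk3 f_pp_202_a t 1 1 1 = true :=
  ⟨(l 5), by decide +kernel⟩

theorem c_pp_202_a : CertB 0 536870912 1073741824 536870912 923417968 42949674 3 eng mog cd1q2a cd4q2 pd0 false true true .pp 2 0 2
    ndB1q2a ndB4q2 pcB0 Cut.none Ext.none :=
  certB0 (fam := false) (s1 := true) (s2 := true) (a := 2) (b := 0) (c := 2) (cn := .pp) (n1 := ndB1q2a) (n2 := ndB4q2) (pc := pcB0) (cut := Cut.none) (xt := Ext.none) (P1 := 0) (W1 := 536870912) (P2 := 1073741824) (W2 := 536870912) (P3 := 923417968) (W3 := 42949674) (N0 := 3) (En := eng) (mo := mog) (C1 := cd1q2a) (C2 := cd4q2) (C3 := pd0)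
    rfl k0_pp_202_a

noncomputable def f_pp_202_b : ℕ → ℕ → ℕ → ℕ → Bool := onCell 1239849684 370763052 1073741824 536870912 923417968 42949674
    (rowB 3 eng mog cd1q2b cd4q2 pd0 0 false true true .pp 2 0 2 (qsf 1239849684 370763052 1073741824 536870912 0) ndB1q2b ndB4q2 pcB0 Cut.none Ext.none)

def k0_pp_202_b : ∃ t, chk3 f_pp_202_b t 1 1 1 = true :=
  ⟨(l 5), by decide +kernel⟩

theorem c_pp_202_b : CertB 1239849684 370763052 1073741824 536870912 923417968 42949674 3 eng mog cd1q2b cd4q2 pd0 false true true .pp 2 0 2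
    ndB1q2b ndB4q2 pcB0 Cut.none Ext.none :=
  certB0 (fam := false) (s1 := true) (s2 := true) (a := 2) (b := 0) (c := 2) (cn := .pp) (n1 := ndB1q2b) (n2 := ndB4q2) (pc := pcB0) (cut := Cut.none) (xt := Ext.none) (P1 := 1239849684) (W1 := 370763052) (P2 := 1073741824) (W2 := 536870912) (P3 := 923417968) (W3 := 42949674) (N0 := 3) (En := eng) (mo := mog) (C1 := cd1q2b) (C2 := cd4q2) (C3 := pd0)
    rfl k0_pp_202_b

noncomputable def f_pp_203_a : ℕ → ℕ → ℕ → ℕ → Bool := onCell 0 536870912 0 1230186008 923417968 42949674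
    (rowB 3 eng mog cd1q2a cd4q3 pd0 0 false true true .up 2 0 3 (qsf 0 536870912 0 1230186008 0) ndB1q2a ndB4q3 pcB0 Cut.none Ext.none)

def k0_pp_203_a : ∃ t, chk3 f_pp_203_a t 1 1 1 = true :=
  ⟨(b (l 2) (b (l 2) (b (l 3) (l 5)))), by decide +kernel⟩

theorem c_pp_203_a : CertB 0 536870912 0 1230186008 923417968 42949674 3 eng mog cd1q2a cd4q3 pd0 false true true .up 2 0 3
    ndB1q2a ndB4q3 pcB0 Cut.none Ext.none :=
  certB0 (fam := false) (s1 := true) (s2 := true) (a := 2) (b := 0) (c := 3) (cn := .up) (n1 := ndB1q2a) (n2 := ndB4q3) (pc := pcB0) (cut := Cut.none) (xt := Ext.none) (P1 := 0) (W1 := 536870912) (P2 := 0) (W2 := 1230186008) (P3 := 923417968) (W3 := 42949674) (N0 := 3) (En := eng) (mo := mog) (C1 := cd1q2a) (C2 := cd4q3) (C3 := pd0)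
    rfl k0_pp_203_a

noncomputable def f_pp_203_b : ℕ → ℕ → ℕ → ℕ → Bool := onCell 1239849684 370763052 0 1230186008 923417968 42949674
    (rowB 3 eng mog cd1q2b cd4q3 pd0 0 false true true .up 2 0 3 (qsf 1239849684 370763052 0 1230186008 0) ndB1q2b ndB4q3 pcB0 Cut.none Ext.none)

def k0_pp_203_b : ∃ t, chk3 f_pp_203_b t 1 1 1 = true :=
  ⟨(b (l 3) (l 5)), by decide +kernel⟩

theorem c_pp_203_b : CertB 1239849684 370763052 0 1230186008 923417968 42949674 3 eng mog cd1q2b cd4q3 pd0 false true true .up 2 0 3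
    ndB1q2b ndB4q3 pcB0 Cut.none Ext.none :=
  certB0 (fam := false) (s1 := true) (s2 := true) (a := 2) (b := 0) (c := 3) (cn := .up) (n1 := ndB1q2b) (n2 := ndB4q3) (pc := pcB0) (cut := Cut.none) (xt := Ext.none) (P1 := 1239849684) (W1 := 370763052) (P2 := 0) (W2 := 1230186008) (P3 := 923417968) (W3 := 42949674) (N0 := 3) (En := eng) (mo := mog) (C1 := cd1q2b) (C2 := cd4q3) (C3 := pd0)
    rfl k0_pp_203_b

noncomputable def cut_pp_213_a : Cut := Cut.of [[⟨0, 1, 0, 67108864⟩, ⟨1, 1, 0, 67108864⟩, ⟨2, 2, 0, 16252928⟩]]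

noncomputable def f_pp_213_a : ℕ → ℕ → ℕ → ℕ → Bool := onCell 0 536870912 0 1230186008 923417968 42949674
    (rowB 3 eng mog cd1q2a cd4q3 pd1 0 false true true .pnn 2 1 3 (qsf 0 536870912 0 1230186008 1) ndB1q2a ndB4q3 pcB1 cut_pp_213_a Ext.none)

def k0_pp_213_a : ∃ t, chk3 f_pp_213_a t 1 1 1 = true :=
  ⟨(b (a (l 3) (b (a (l 3) (a (l 3) (b (l 6) (l 3)))) (l 3))) (b (l 3) (b (l 3) (l 5)))), by decide +kernel⟩

theorem c_pp_213_a : CertB 0 536870912 0 1230186008 923417968 42949674 3 eng mog cd1q2a cd4q3 pd1 false true true .pnn 2 1 3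
    ndB1q2a ndB4q3 pcB1 cut_pp_213_a Ext.none :=
  certB0 (fam := false) (s1 := true) (s2 := true) (a := 2) (b := 1) (c := 3) (cn := .pnn) (n1 := ndB1q2a) (n2 := ndB4q3) (pc := pcB1) (cut := cut_pp_213_a) (xt := Ext.none) (P1 := 0) (W1 := 536870912) (P2 := 0) (W2 := 1230186008) (P3 := 923417968) (W3 := 42949674) (N0 := 3) (En := eng) (mo := mog) (C1 := cd1q2a) (C2 := cd4q3) (C3 := pd1)
    rfl k0_pp_213_a

noncomputable def cut_pp_213_b : Cut := Cut.of [[⟨0, 1, 0, 67108864⟩, ⟨1, 1, 0, 67108864⟩, ⟨2, 2, 0, 16252928⟩]]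

noncomputable def f_pp_213_b : ℕ → ℕ → ℕ → ℕ → Bool := onCell 1239849684 370763052 0 1230186008 923417968 42949674
    (rowB 3 eng mog cd1q2b cd4q3 pd1 0 false true true .pnn 2 1 3 (qsf 1239849684 370763052 0 1230186008 1) ndB1q2b ndB4q3 pcB1 cut_pp_213_b Ext.none)

def k0_pp_213_b : ∃ t, chk3 f_pp_213_b t 1 1 1 = true :=
  ⟨(b (l 3) (l 5)), by decide +kernel⟩

theorem c_pp_213_b : CertB 1239849684 370763052 0 1230186008 923417968 42949674 3 eng mog cd1q2b cd4q3 pd1 false true true .pnn 2 1 3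
    ndB1q2b ndB4q3 pcB1 cut_pp_213_b Ext.none :=
  certB0 (fam := false) (s1 := true) (s2 := true) (a := 2) (b := 1) (c := 3) (cn := .pnn) (n1 := ndB1q2b) (n2 := ndB4q3) (pc := pcB1) (cut := cut_pp_213_b) (xt := Ext.none) (P1 := 1239849684) (W1 := 370763052) (P2 := 0) (W2 := 1230186008) (P3 := 923417968) (W3 := 42949674) (N0 := 3) (En := eng) (mo := mog) (C1 := cd1q2b) (C2 := cd4q3) (C3 := pd1)
    rfl k0_pp_213_b

noncomputable def f_pp_303 : ℕ → ℕ → ℕ → ℕ → Bool := onCell 1610612736 536870912 0 1230186008 923417968 42949674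
    (rowB 3 eng mog cd1q3 cd4q3 pd0 0 false true true .npn 3 0 3 (qsf 1610612736 536870912 0 1230186008 0) ndB1q3 ndB4q3 pcB0 Cut.none Ext.none)

def k0_pp_303 : ∃ t, chk3 f_pp_303 t 1 1 1 = true :=
  ⟨(b (l 3) (l 5)), by decide +kernel⟩

theorem c_pp_303 : CertB 1610612736 536870912 0 1230186008 923417968 42949674 3 eng mog cd1q3 cd4q3 pd0 false true true .npn 3 0 3
    ndB1q3 ndB4q3 pcB0 Cut.none Ext.none :=
  certB0 (fam := false) (s1 := true) (s2 := true) (a := 3) (b := 0) (c := 3) (cn := .npn) (n1 := ndB1q3) (n2 := ndB4q3) (pc := pcB0) (cut := Cut.none) (xt := Ext.none) (P1 := 1610612736) (W1 := 536870912) (P2 := 0) (W2 := 1230186008) (P3 := 923417968) (W3 := 42949674) (N0 := 3) (En := eng) (mo := mog) (C1 := cd1q3) (C2 := cd4q3) (C3 := pd0)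
    rfl k0_pp_303

noncomputable def f_pp_313 : ℕ → ℕ → ℕ → ℕ → Bool := onCell 1610612736 536870912 0 1230186008 923417968 42949674
    (rowB 3 eng mog cd1q3 cd4q3 pd1 0 false true true .dn 3 1 3 (qsf 1610612736 536870912 0 1230186008 1) ndB1q3 ndB4q3 pcB1 Cut.none Ext.none)

def k0_pp_313 : ∃ t, chk3 f_pp_313 t 1 1 1 = true :=
  ⟨(b (l 3) (l 1)), by decide +kernel⟩

theorem c_pp_313 : CertB 1610612736 536870912 0 1230186008 923417968 42949674 3 eng mog cd1q3 cd4q3 pd1 false true true .dn 3 1 3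
    ndB1q3 ndB4q3 pcB1 Cut.none Ext.none :=
  certB0 (fam := false) (s1 := true) (s2 := true) (a := 3) (b := 1) (c := 3) (cn := .dn) (n1 := ndB1q3) (n2 := ndB4q3) (pc := pcB1) (cut := Cut.none) (xt := Ext.none) (P1 := 1610612736) (W1 := 536870912) (P2 := 0) (W2 := 1230186008) (P3 := 923417968) (W3 := 42949674) (N0 := 3) (En := eng) (mo := mog) (C1 := cd1q3) (C2 := cd4q3) (C3 := pd1)
    rfl k0_pp_313

noncomputable def f_pm_001 : ℕ → ℕ → ℕ → ℕ → Bool := onCell 0 536870912 536870912 536870912 923417968 42949674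
    (rowB 3 eng mog cd1q0 cd4q1 pd0 0 false true false .up 0 0 1 (qsf 0 536870912 536870912 536870912 0) ndB1q0 ndB4q1 pcB0 Cut.none Ext.none)

def k0_pm_001 : ∃ t, chk3 f_pm_001 t 1 1 1 = true :=
  ⟨(l 4), by decide +kernel⟩

theorem c_pm_001 : CertB 0 536870912 536870912 536870912 923417968 42949674 3 eng mog cd1q0 cd4q1 pd0 false true false .up 0 0 1
    ndB1q0 ndB4q1 pcB0 Cut.none Ext.none :=
  certB0 (fam := false) (s1 := true) (s2 := false) (a := 0) (b := 0) (c := 1) (cn := .up) (n1 := ndB1q0) (n2 := ndB4q1) (pc := pcB0) (cut := Cut.none) (xt := Ext.none) (P1 := 0) (W1 := 536870912) (P2 := 536870912) (W2 := 536870912) (P3 := 923417968) (W3 := 42949674) (N0 := 3) (En := eng) (mo := mog) (C1 := cd1q0) (C2 := cd4q1) (C3 := pd0)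
    rfl k0_pm_001

noncomputable def f_pm_011 : ℕ → ℕ → ℕ → ℕ → Bool := onCell 0 536870912 536870912 536870912 923417968 42949674
    (rowB 3 eng mog cd1q0 cd4q1 pd1 0 false true false .pnn 0 1 1 (qsf 0 536870912 536870912 536870912 1) ndB1q0 ndB4q1 pcB1 Cut.none Ext.none)

def k0_pm_011 : ∃ t, chk3 f_pm_011 t 1 1 1 = true :=
  ⟨(l 4), by decide +kernel⟩

theorem c_pm_011 : CertB 0 536870912 536870912 536870912 923417968 42949674 3 eng mog cd1q0 cd4q1 pd1 false true false .pnn 0 1 1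
    ndB1q0 ndB4q1 pcB1 Cut.none Ext.none :=
  certB0 (fam := false) (s1 := true) (s2 := false) (a := 0) (b := 1) (c := 1) (cn := .pnn) (n1 := ndB1q0) (n2 := ndB4q1) (pc := pcB1) (cut := Cut.none) (xt := Ext.none) (P1 := 0) (W1 := 536870912) (P2 := 536870912) (W2 := 536870912) (P3 := 923417968) (W3 := 42949674) (N0 := 3) (En := eng) (mo := mog) (C1 := cd1q0) (C2 := cd4q1) (C3 := pd1)
    rfl k0_pm_011

noncomputable def f_pm_012 : ℕ → ℕ → ℕ → ℕ → Bool := onCell 0 536870912 1073741824 536870912 923417968 42949674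
    (rowB 3 eng mog cd1q0 cd4q2 pd1 0 false true false .pnp 0 1 2 (qsf 0 536870912 1073741824 536870912 1) ndB1q0 ndB4q2 pcB1 Cut.none Ext.none)

def k0_pm_012 : ∃ t, chk3 f_pm_012 t 1 1 1 = true :=
  ⟨(l 4), by decide +kernel⟩

theorem c_pm_012 : CertB 0 536870912 1073741824 536870912 923417968 42949674 3 eng mog cd1q0 cd4q2 pd1 false true false .pnp 0 1 2
    ndB1q0 ndB4q2 pcB1 Cut.none Ext.none :=
  certB0 (fam := false) (s1 := true) (s2 := false) (a := 0) (b := 1) (c := 2) (cn := .pnp) (n1 := ndB1q0) (n2 := ndB4q2) (pc := pcB1) (cut := Cut.none) (xt := Ext.none) (P1 := 0) (W1 := 536870912) (P2 := 1073741824) (W2 := 536870912) (P3 := 923417968) (W3 := 42949674) (N0 := 3) (En := eng) (mo := mog) (C1 := cd1q0) (C2 := cd4q2) (C3 := pd1)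
    rfl k0_pm_012

noncomputable def f_pm_022 : ℕ → ℕ → ℕ → ℕ → Bool := onCell 0 536870912 1073741824 536870912 923417968 42949674
    (rowB 3 eng mog cd1q0 cd4q2 pd2 0 false true false .pp 0 2 2 (qsf 0 536870912 1073741824 536870912 2) ndB1q0 ndB4q2 pcB2 Cut.none Ext.none)

def k0_pm_022 : ∃ t, chk3 f_pm_022 t 1 1 1 = true :=
  ⟨(l 4), by decide +kernel⟩

theorem c_pm_022 : CertB 0 536870912 1073741824 536870912 923417968 42949674 3 eng mog cd1q0 cd4q2 pd2 false true false .pp 0 2 2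
    ndB1q0 ndB4q2 pcB2 Cut.none Ext.none :=
  certB0 (fam := false) (s1 := true) (s2 := false) (a := 0) (b := 2) (c := 2) (cn := .pp) (n1 := ndB1q0) (n2 := ndB4q2) (pc := pcB2) (cut := Cut.none) (xt := Ext.none) (P1 := 0) (W1 := 536870912) (P2 := 1073741824) (W2 := 536870912) (P3 := 923417968) (W3 := 42949674) (N0 := 3) (En := eng) (mo := mog) (C1 := cd1q0) (C2 := cd4q2) (C3 := pd2)
    rfl k0_pm_022

noncomputable def f_pm_023 : ℕ → ℕ → ℕ → ℕ → Bool := onCell 0 536870912 0 1230186008 923417968 42949674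
    (rowB 3 eng mog cd1q0 cd4q3 pd2 0 false true false .up 0 2 3 (qsf 0 536870912 0 1230186008 2) ndB1q0 ndB4q3 pcB2 Cut.none Ext.none)

def k0_pm_023 : ∃ t, chk3 f_pm_023 t 1 1 1 = true :=
  ⟨(b (b (a (l 2) (a (l 2) (b (a (l 2) (l 16249952)) (l 4)))) (l 4)) (l 4)), by decide +kernel⟩

theorem c_pm_023 : CertB 0 536870912 0 1230186008 923417968 42949674 3 eng mog cd1q0 cd4q3 pd2 false true false .up 0 2 3
    ndB1q0 ndB4q3 pcB2 Cut.none Ext.none :=
  certB0 (fam := false) (s1 := true) (s2 := false) (a := 0) (b := 2) (c := 3) (cn := .up) (n1 := ndB1q0) (n2 := ndB4q3) (pc := pcB2) (cut := Cut.none) (xt := Ext.none) (P1 := 0) (W1 := 536870912) (P2 := 0) (W2 := 1230186008) (P3 := 923417968) (W3 := 42949674) (N0 := 3) (En := eng) (mo := mog) (C1 := cd1q0) (C2 := cd4q3) (C3 := pd2)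
    rfl k0_pm_023

noncomputable def f_pm_033 : ℕ → ℕ → ℕ → ℕ → Bool := onCell 0 536870912 0 1230186008 923417968 42949674
    (rowB 3 eng mog cd1q0 cd4q3 pd3 0 false true false .pnn 0 3 3 (qsf 0 536870912 0 1230186008 3) ndB1q0 ndB4q3 pcB3 Cut.none Ext.none)

def k0_pm_033 : ∃ t, chk3 f_pm_033 t 1 1 1 = true :=
  ⟨(b (a (l 4) (b (a (l 4) (b (a (l 4) (l 16540752)) (l 4))) (l 4))) (l 4)), by decide +kernel⟩

theorem c_pm_033 : CertB 0 536870912 0 1230186008 923417968 42949674 3 eng mog cd1q0 cd4q3 pd3 false true false .pnn 0 3 3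
    ndB1q0 ndB4q3 pcB3 Cut.none Ext.none :=
  certB0 (fam := false) (s1 := true) (s2 := false) (a := 0) (b := 3) (c := 3) (cn := .pnn) (n1 := ndB1q0) (n2 := ndB4q3) (pc := pcB3) (cut := Cut.none) (xt := Ext.none) (P1 := 0) (W1 := 536870912) (P2 := 0) (W2 := 1230186008) (P3 := 923417968) (W3 := 42949674) (N0 := 3) (En := eng) (mo := mog) (C1 := cd1q0) (C2 := cd4q3) (C3 := pd3)
    rfl k0_pm_033

noncomputable def f_pm_101 : ℕ → ℕ → ℕ → ℕ → Bool := onCell 536870912 536870912 536870912 536870912 923417968 42949674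
    (rowB 3 eng mog cd1q1 cd4q1 pd0 0 false true false .npn 1 0 1 (qsf 536870912 536870912 536870912 536870912 0) ndB1q1 ndB4q1 pcB0 Cut.none Ext.none)

def k0_pm_101 : ∃ t, chk3 f_pm_101 t 1 1 1 = true :=
  ⟨(l 4), by decide +kernel⟩

theorem c_pm_101 : CertB 536870912 536870912 536870912 536870912 923417968 42949674 3 eng mog cd1q1 cd4q1 pd0 false true false .npn 1 0 1
    ndB1q1 ndB4q1 pcB0 Cut.none Ext.none :=
  certB0 (fam := false) (s1 := true) (s2 := false) (a := 1) (b := 0) (c := 1) (cn := .npn) (n1 := ndB1q1) (n2 := ndB4q1) (pc := pcB0) (cut := Cut.none) (xt := Ext.none) (P1 := 536870912) (W1 := 536870912) (P2 := 536870912) (W2 := 536870912) (P3 := 923417968) (W3 := 42949674) (N0 := 3) (En := eng) (mo := mog) (C1 := cd1q1) (C2 := cd4q1) (C3 := pd0)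
    rfl k0_pm_101

noncomputable def f_pm_102 : ℕ → ℕ → ℕ → ℕ → Bool := onCell 536870912 536870912 1073741824 536870912 923417968 42949674
    (rowB 3 eng mog cd1q1 cd4q2 pd0 0 false true false .npp 1 0 2 (qsf 536870912 536870912 1073741824 536870912 0) ndB1q1 ndB4q2 pcB0 Cut.none Ext.none)

def k0_pm_102 : ∃ t, chk3 f_pm_102 t 1 1 1 = true :=
  ⟨(l 4), by decide +kernel⟩

theorem c_pm_102 : CertB 536870912 536870912 1073741824 536870912 923417968 42949674 3 eng mog cd1q1 cd4q2 pd0 false true false .npp 1 0 2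
    ndB1q1 ndB4q2 pcB0 Cut.none Ext.none :=
  certB0 (fam := false) (s1 := true) (s2 := false) (a := 1) (b := 0) (c := 2) (cn := .npp) (n1 := ndB1q1) (n2 := ndB4q2) (pc := pcB0) (cut := Cut.none) (xt := Ext.none) (P1 := 536870912) (W1 := 536870912) (P2 := 1073741824) (W2 := 536870912) (P3 := 923417968) (W3 := 42949674) (N0 := 3) (En := eng) (mo := mog) (C1 := cd1q1) (C2 := cd4q2) (C3 := pd0)
    rfl k0_pm_102

noncomputable def f_pm_112 : ℕ → ℕ → ℕ → ℕ → Bool := onCell 536870912 536870912 1073741824 536870912 923417968 42949674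
    (rowB 3 eng mog cd1q1 cd4q2 pd1 0 false true false .dn 1 1 2 (qsf 536870912 536870912 1073741824 536870912 1) ndB1q1 ndB4q2 pcB1 Cut.none Ext.none)

def k0_pm_112 : ∃ t, chk3 f_pm_112 t 1 1 1 = true :=
  ⟨(l 4), by decide +kernel⟩

theorem c_pm_112 : CertB 536870912 536870912 1073741824 536870912 923417968 42949674 3 eng mog cd1q1 cd4q2 pd1 false true false .dn 1 1 2
    ndB1q1 ndB4q2 pcB1 Cut.none Ext.none :=
  certB0 (fam := false) (s1 := true) (s2 := false) (a := 1) (b := 1) (c := 2) (cn := .dn) (n1 := ndB1q1) (n2 := ndB4q2) (pc := pcB1) (cut := Cut.none) (xt := Ext.none) (P1 := 536870912) (W1 := 536870912) (P2 := 1073741824) (W2 := 536870912) (P3 := 923417968) (W3 := 42949674) (N0 := 3) (En := eng) (mo := mog) (C1 := cd1q1) (C2 := cd4q2) (C3 := pd1)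
    rfl k0_pm_112

noncomputable def f_pm_113 : ℕ → ℕ → ℕ → ℕ → Bool := onCell 536870912 536870912 0 1230186008 923417968 42949674
    (rowB 3 eng mog cd1q1 cd4q3 pd1 0 false true false .nn 1 1 3 (qsf 536870912 536870912 0 1230186008 1) ndB1q1 ndB4q3 pcB1 Cut.none Ext.none)

def k0_pm_113 : ∃ t, chk3 f_pm_113 t 1 1 1 = true :=
  ⟨(a (b (l 2) (l 4)) (a (b (l 2) (l 4)) (b (b (a (l 2) (b (l 16551016) (l 16281848))) (b (a (l 15825920) (l 16029624)) (a (l 233636750279) (a (l 15784464) (l 15877816))))) (b (b (a (l 15728648) (b (l 15795672) (l 15892768))) (l 4)) (l 4))))), by decide +kernel⟩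

theorem c_pm_113 : CertB 536870912 536870912 0 1230186008 923417968 42949674 3 eng mog cd1q1 cd4q3 pd1 false true false .nn 1 1 3
    ndB1q1 ndB4q3 pcB1 Cut.none Ext.none :=
  certB0 (fam := false) (s1 := true) (s2 := false) (a := 1) (b := 1) (c := 3) (cn := .nn) (n1 := ndB1q1) (n2 := ndB4q3) (pc := pcB1) (cut := Cut.none) (xt := Ext.none) (P1 := 536870912) (W1 := 536870912) (P2 := 0) (W2 := 1230186008) (P3 := 923417968) (W3 := 42949674) (N0 := 3) (En := eng) (mo := mog) (C1 := cd1q1) (C2 := cd4q3) (C3 := pd1)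
    rfl k0_pm_113

noncomputable def f_pm_123 : ℕ → ℕ → ℕ → ℕ → Bool := onCell 1073741824 536870912 0 1230186008 923417968 42949674
    (rowB 3 eng mog cd1q1 cd4q3 pd2 2 false true false .npn 1 2 3 (qsf 536870912 536870912 0 1230186008 2) ndB1q1 ndB4q3 pcB2 Cut.none Ext.none)

def k0_pm_123 : ∃ t, chk3 f_pm_123 t 1 1 1 = true :=
  ⟨(b (a (a (b (b (a (l 16630200) (l 16468160)) (a (l 16380752) (l 16272848))) (a (b (l 15789208) (a (l 15719720) (l 15802872))) (b (l 16068280) (l 15856736)))) (b (a (l 16323280) (l 16367960)) (b (a (l 16224824) (l 16265048)) (l 4)))) (b (a (a (l 16473000) (b (l 16536488) (l 16521160))) (a (b (l 16656464) (l 16591960)) (b (l 16731216) (l 4)))) (a (a (b (l 16316896) (l 4)) (l 4)) (l 4)))) (a (b (l 4) (l 4)) (l 4))), by decide +kernel⟩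

theorem c_pm_123 : CertB 536870912 536870912 0 1230186008 923417968 42949674 3 eng mog cd1q1 cd4q3 pd2 false true false .npn 1 2 3
    ndB1q1 ndB4q3 pcB2 Cut.none Ext.none :=
  certB2 (fam := false) (s1 := true) (s2 := false) (a := 1) (b := 2) (c := 3) (cn := .npn) (n1 := ndB1q1) (n2 := ndB4q3) (pc := pcB2) (cut := Cut.none) (xt := Ext.none) (P1 := 536870912) (W1 := 536870912) (P2 := 0) (W2 := 1230186008) (P3 := 923417968) (W3 := 42949674) (N0 := 3) (En := eng) (mo := mog) (C1 := cd1q1) (C2 := cd4q3) (C3 := pd2)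
    rfl (fun _ => rfl) k0_pm_123

noncomputable def f_pm_133 : ℕ → ℕ → ℕ → ℕ → Bool := onCell 536870912 536870912 0 1230186008 923417968 42949674
    (rowB 3 eng mog cd1q1 cd4q3 pd3 0 false true false .dn 1 3 3 (qsf 536870912 536870912 0 1230186008 3) ndB1q1 ndB4q3 pcB3 Cut.none Ext.none)

def k0_pm_133 : ∃ t, chk3 f_pm_133 t 1 1 1 = true :=
  ⟨(b (b (a (a (a (b (l 65532059159) (l 1)) (l 1)) (l 1)) (l 1)) (l 1)) (l 1)), by decide +kernel⟩

theorem c_pm_133 : CertB 536870912 536870912 0 1230186008 923417968 42949674 3 eng mog cd1q1 cd4q3 pd3 false true false .dn 1 3 3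
    ndB1q1 ndB4q3 pcB3 Cut.none Ext.none :=
  certB0 (fam := false) (s1 := true) (s2 := false) (a := 1) (b := 3) (c := 3) (cn := .dn) (n1 := ndB1q1) (n2 := ndB4q3) (pc := pcB3) (cut := Cut.none) (xt := Ext.none) (P1 := 536870912) (W1 := 536870912) (P2 := 0) (W2 := 1230186008) (P3 := 923417968) (W3 := 42949674) (N0 := 3) (En := eng) (mo := mog) (C1 := cd1q1) (C2 := cd4q3) (C3 := pd3)
    rfl k0_pm_133

noncomputable def f_pm_202_a : ℕ → ℕ → ℕ → ℕ → Bool := onCell 0 536870912 1073741824 536870912 923417968 42949674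
    (rowB 3 eng mog cd1q2a cd4q2 pd0 0 false true false .pp 2 0 2 (qsf 0 536870912 1073741824 536870912 0) ndB1q2a ndB4q2 pcB0 Cut.none Ext.none)

def k0_pm_202_a : ∃ t, chk3 f_pm_202_a t 1 1 1 = true :=
  ⟨(a (b (a (b (l 1) (b (b (a (l 15165752) (l 15063480)) (l 15355568)) (c (l 15534632) (l 15475040)))) (a (b (l 1) (b (b (l 14976576) (l 15137672)) (l 15342832))) (b (l 4) (b (b (l 23853950887) (l 15032248)) (b (l 15184600) (l 15322864)))))) (a (b (b (c (l 15749232) (l 15674888)) (b (l 15818936) (l 15855392))) (b (b (a (l 15948480) (l 15880616)) (a (l 16003808) (l 15921768))) (b (l 16007896) (a (l 16330648) (l 16007448))))) (b (b (c (l 15576136) (l 15506248)) (b (l 15646440) (l 15727168))) (b (b (l 15770976) (a (l 15845432) (l 15766848))) (b (a (l 15883416) (l 15796488)) (a (l 15928240) (l 15832264))))))) (b (b (l 4) (a (b (l 4) (a (b (l 15085448) (l 15212608)) (l 4))) (l 4))) (a (b (b (a (b (l 15330592) (l 15435176)) (b (l 15282192) (l 15318224))) (b (a (l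 15521008) (l 15404112)) (l 15360952))) (b (a (l 15658120) (b (l 15527176) (l 15569032))) (b (l 15654384) (a (l 15736576) (l 15635816))))) (b (a (b (l 4) (b (a (l 15309320) (l 4)) (l 19023015959))) (l 4)) (b (a (b (l 15396728) (l 15440480)) (c (b (l 15285248) (l 15337072)) (b (l 15182064) (l 15223936)))) (a (b (l 15477960) (l 15513984)) (b (a (l 15366240) (l 15277352)) (l 15358152)))))))), by decide +kernel⟩

theorem c_pm_202_a : CertB 0 536870912 1073741824 536870912 923417968 42949674 3 eng mog cd1q2a cd4q2 pd0 false true false .pp 2 0 2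
    ndB1q2a ndB4q2 pcB0 Cut.none Ext.none :=
  certB0 (fam := false) (s1 := true) (s2 := false) (a := 2) (b := 0) (c := 2) (cn := .pp) (n1 := ndB1q2a) (n2 := ndB4q2) (pc := pcB0) (cut := Cut.none) (xt := Ext.none) (P1 := 0) (W1 := 536870912) (P2 := 1073741824) (W2 := 536870912) (P3 := 923417968) (W3 := 42949674) (N0 := 3) (En := eng) (mo := mog) (C1 := cd1q2a) (C2 := cd4q2) (C3 := pd0)
    rfl k0_pm_202_a

noncomputable def f_pm_202_b : ℕ → ℕ → ℕ → ℕ → Bool := onCell 0 536870912 1073741824 536870912 923417968 42949674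
    (rowB 3 eng mog cd1q2b cd4q2 pd0 2 false true false .pp 2 0 2 (qsf 1239849684 370763052 1073741824 536870912 0) ndB1q2b ndB4q2 pcB0 Cut.none Ext.none)

def k0_pm_202_b : ∃ t, chk3 f_pm_202_b t 1 1 1 = true :=
  ⟨(a (b (b (l 1) (a (b (a (a (l 461740069223) (l 433285824295)) (l 1)) (a (l 298530994599) (a (l 15567840) (l 15486368)))) (l 1))) (a (b (b (a (l 15922816) (l 15845736)) (a (l 16133192) (l 16088064))) (a (b (l 16259072) (l 16234624)) (a (a (l 16314368) (b (l 16264512) (l 16353632))) (b (l 16253400) (l 16368152))))) (a (b (b (l 207263097063) (a (l 16016672) (l 15950176))) (a (b (l 16228032) (l 16377528)) (b (l 16192088) (l 16373952)))) (b (b (l 1) (b (l 165924110039) (l 186862351815))) (b (b (l 16033712) (l 16163888)) (l 16182720)))))) (b (l 1) (b (l 1) (a (b (a (a (l 15911400) (l 15872592)) (l 1)) (a (b (l 16067648) (l 16216640)) (a (l 222296271191) (l 322690857751)))) (l 1))))), by decide +kernel⟩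

theorem c_pm_202_b : CertB 1239849684 370763052 1073741824 536870912 923417968 42949674 3 eng mog cd1q2b cd4q2 pd0 false true false .pp 2 0 2
    ndB1q2b ndB4q2 pcB0 Cut.none Ext.none :=
  certB2 (fam := false) (s1 := true) (s2 := false) (a := 2) (b := 0) (c := 2) (cn := .pp) (n1 := ndB1q2b) (n2 := ndB4q2) (pc := pcB0) (cut := Cut.none) (xt := Ext.none) (P1 := 1239849684) (W1 := 370763052) (P2 := 1073741824) (W2 := 536870912) (P3 := 923417968) (W3 := 42949674) (N0 := 3) (En := eng) (mo := mog) (C1 := cd1q2b) (C2 := cd4q2) (C3 := pd0)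
    rfl (fun _ => rfl) k0_pm_202_b

noncomputable def f_pm_203_a : ℕ → ℕ → ℕ → ℕ → Bool := onCell 0 536870912 0 1230186008 923417968 42949674
    (rowB 3 eng mog cd1q2a cd4q3 pd0 0 false true false .up 2 0 3 (qsf 0 536870912 0 1230186008 0) ndB1q2a ndB4q3 pcB0 Cut.none Ext.none)

def k0_pm_203_a : ∃ t, chk3 f_pm_203_a t 1 1 1 = true :=
  ⟨(b (l 2) (b (l 2) (b (a (b (l 2) (a (l 16464264) (l 16274240))) (l 2)) (a (b (a (l 16306376) (b (l 16135024) (a (l 16101280) (l 15970192)))) (a (b (l 16171120) (a (l 16132520) (l 16022400))) (b (a (l 16005168) (l 15900136)) (a (l 15936912) (l 15871824))))) (a (a (b (b (l 15934376) (l 15818536)) (b (l 15804640) (l 15773168))) (b (b (l 2) (b (l 15733144) (l 15726096))) (b (l 15712552) (l 15672872)))) (a (b (b (l 2) (c (l 15736976) (l 15536832))) (b (a (l 15638232) (l 15577592)) (l 15534000))) (b (l 2) (b (a (l 15507576) (l 2)) (l 15487248))))))))), by decide +kernel⟩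

theorem c_pm_203_a : CertB 0 536870912 0 1230186008 923417968 42949674 3 eng mog cd1q2a cd4q3 pd0 false true false .up 2 0 3
    ndB1q2a ndB4q3 pcB0 Cut.none Ext.none :=
  certB0 (fam := false) (s1 := true) (s2 := false) (a := 2) (b := 0) (c := 3) (cn := .up) (n1 := ndB1q2a) (n2 := ndB4q3) (pc := pcB0) (cut := Cut.none) (xt := Ext.none) (P1 := 0) (W1 := 536870912) (P2 := 0) (W2 := 1230186008) (P3 := 923417968) (W3 := 42949674) (N0 := 3) (En := eng) (mo := mog) (C1 := cd1q2a) (C2 := cd4q3) (C3 := pd0)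
    rfl k0_pm_203_a

noncomputable def f_pm_203_b : ℕ → ℕ → ℕ → ℕ → Bool := onCell 0 536870912 0 1230186008 923417968 42949674
    (rowB 3 eng mog cd1q2b cd4q3 pd0 2 false true false .up 2 0 3 (qsf 1239849684 370763052 0 1230186008 0) ndB1q2b ndB4q3 pcB0 Cut.none Ext.none)

def k0_pm_203_b : ∃ t, chk3 f_pm_203_b t 1 1 1 = true :=
  ⟨(b (l 3) (b (a (a (l 2) (b (l 2) (a (l 2) (b (l 2) (l 568108126471))))) (a (b (l 3) (a (b (l 3) (l 16197896)) (b (l 16333920) (l 16336296)))) (b (a (l 3) (l 3)) (a (b (l 16448424) (l 16471256)) (b (l 16510896) (l 16585720)))))) (a (b (a (l 2) (a (b (b (l 2) (l 15792576)) (a (l 15842432) (l 15952680))) (b (l 16019488) (l 16134464)))) (a (b (a (l 2) (a (a (l 15837080) (l 15740040)) (b (l 15897752) (l 16016272)))) (a (l 15919336) (a (a (l 16111328) (l 16177504)) (l 16235256)))) (a (a (b (l 16047224) (l 16313360)) (b (l 16150088) (l 16410168))) (b (l 16362408) (b (l 16505368) (l 16457040)))))) (b (a (b (a (l 16207112) (l 16375888))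 (a (l 16351288) (l 16538984))) (b (a (l 16523488) (l 16637672)) (a (l 16635888) (l 16588232)))) (a (a (b (l 16573952) (b (l 16495992) (l 16381344))) (b (l 16566272) (l 16317880))) (b (a (l 16475448) (l 16324720)) (a (l 300142636375) (l 1)))))))), by decide +kernel⟩

theorem c_pm_203_b : CertB 1239849684 370763052 0 1230186008 923417968 42949674 3 eng mog cd1q2b cd4q3 pd0 false true false .up 2 0 3
    ndB1q2b ndB4q3 pcB0 Cut.none Ext.none :=
  certB2 (fam := false) (s1 := true) (s2 := false) (a := 2) (b := 0) (c := 3) (cn := .up) (n1 := ndB1q2b) (n2 := ndB4q3) (pc := pcB0) (cut := Cut.none) (xt := Ext.none) (P1 := 1239849684) (W1 := 370763052) (P2 := 0) (W2 := 1230186008) (P3 := 923417968) (W3 := 42949674) (N0 := 3) (En := eng) (mo := mog) (C1 := cd1q2b) (C2 := cd4q3) (C3 := pd0)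
    rfl (fun _ => rfl) k0_pm_203_b

noncomputable def cut_pm_213_a : Cut := Cut.of [[⟨0, 1, 0, 67108864⟩, ⟨1, 1, 0, 67108864⟩, ⟨2, 2, 0, 16252928⟩]]

noncomputable def f_pm_213_a : ℕ → ℕ → ℕ → ℕ → Bool := onCell 0 536870912 0 1230186008 923417968 42949674
    (rowB 3 eng mog cd1q2a cd4q3 pd1 0 false true false .pnn 2 1 3 (qsf 0 536870912 0 1230186008 1) ndB1q2a ndB4q3 pcB1 cut_pm_213_a Ext.none)

def k0_pm_213_a : ∃ t, chk3 f_pm_213_a t 2 2 1 = true :=
  ⟨(b (l 3) (b (a (l 3) (b (a (l 3) (b (l 3) (a (l 3) (l 301352207271)))) (a (b (l 3) (a (l 3) (l 275045537191))) (a (b (l 286319826343) (l 16726888)) (b (l 269139974807) (l 16759088)))))) (a (b (a (l 3) (b (l 291151750551) (a (l 287930531799) (b (l 270213726887) (l 16767808))))) (a (b (a (l 3) (l 290614889399)) (a (b (l 287393662583) (l 278803667063)) (b (l 239075221591) (l 16765776)))) (b (a (b (l 272361211351) (l 16768992)) (l 16735904)) (a (l 16731432) (l 16731608))))) (b (a (b (a (l 258402537863) (l 16764688))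 (a (l 16760824) (l 16744944))) (b (l 16745280) (l 16721072))) (a (c (l 16707088) (l 16723144)) (b (l 16689264) (l 16648344))))))), by decide +kernel⟩

def k1_pm_213_a : ∃ t, chk3 f_pm_213_a t 3 2 1 = true :=
  ⟨(b (a (b (l 3) (a (b (l 3) (b (l 3) (a (l 3) (l 331417076743)))) (b (a (l 3) (b (l 3) (a (l 353428780727) (l 270213834055)))) (a (b (a (l 348060070375) (l 302962933031)) (a (l 266992542583) (l 16761792))) (b (b (l 213842395703) (l 16758672)) (l 16761640)))))) (b (a (b (l 3) (a (b (l 3) (a (l 3) (l 374366751319))) (l 6))) (l 6)) (a (b (a (b (a (l 330880205511) (b (l 282024917991) (l 16754904))) (c (l 16754880) (l 16773688))) (b (a (l 16753520) (l 6)) (l 16744480))) (a (b (l 16752616) (l 16756552)) (b (l 16741576) (l 16743224)))) (b (b (l 6) (a (l 16726288) (l 16650304))) (a (b (l 16720616) (l 16719216)) (b (l 16684440) (l 16680888))))))) (a (b (a (b (b (a (l 314773980263) (l 253570720519)) (a (l 257328814615) (l 16776040))) (b (a (l 16767480) (l 16759624))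 (l 16741096))) (b (b (a (l 16770120) (l 16772056)) (l 16842944)) (b (l 16765336) (l 16743888)))) (b (a (b (l 16716056) (l 16685544)) (l 16699328)) (a (l 16629440) (l 16618368)))) (b (b (a (a (l 16772648) (l 16755400)) (a (l 16727408) (l 16685384))) (a (l 16616720) (a (l 16759952) (l 16713120)))) (a (b (l 16770192) (l 16620728)) (b (a (l 16829728) (l 16788728)) (l 16737616)))))), by decide +kernel⟩

def k2_pm_213_a : ∃ t, chk3 f_pm_213_a t 1 3 1 = true :=
  ⟨(b (a (b (a (b (a (b (a (b (l 16750632) (l 16760488)) (l 16746488)) (l 16724024)) (c (l 16682512) (l 16704064))) (a (c (l 16645072) (l 16672504)) (b (l 16625480) (l 16571296)))) (b (a (b (l 16662112) (l 16616560)) (l 16568048)) (a (l 16512656) (b (l 16481008) (l 16415624))))) (a (b (b (a (l 16577184) (l 16510344)) (l 16289312)) (b (a (l 16444336) (l 16365440)) (a (l 16363976) (l 16304464)))) (b (a (b (l 16435328) (l 16362848)) (l 16185224)) (a (l 16218224) (l 16259888))))) (b (a (b (a (l 16531232) (l 16507864))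 (a (l 16262552) (l 16388608))) (a (b (l 16525760) (l 16370632)) (b (l 16645672) (l 16449240)))) (a (b (a (l 16306040) (l 16269416)) (l 16116568)) (a (b (l 16220224) (l 16083232)) (b (l 16209672) (l 15997928)))))) (a (b (b (a (a (b (l 16293568) (l 16249808)) (l 16239712)) (l 16227344)) (a (l 16226240) (l 16193872))) (b (b (l 1425424258615) (l 1)) (l 1))) (b (a (b (l 16123520) (l 16060040)) (b (a (l 15965408) (l 15823560)) (b (l 15850128) (a (a (l 15893928) (l 15814032)) (a (l 15722320) (l 15619512)))))) (b (b (a (a (l 16069976) (l 15968984)) (a (l 15827064) (a (l 15697768) (l 15596040)))) (a (a (l 16046520) (l 15944928)) (a (l 15814968) (l 15626256)))) (a (l 1) (a (b (l 15787440) (l 1)) (b (l 15576240) (l 15500984)))))))), by decide +kernel⟩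

theorem s3_pm_213_a : ∃ t, chk3 f_pm_213_a t 1 2 1 = true := ex3_a k0_pm_213_a k1_pm_213_a

theorem s4_pm_213_a : ∃ t, chk3 f_pm_213_a t 1 1 1 = true := ex3_b s3_pm_213_a k2_pm_213_a

theorem c_pm_213_a : CertB 0 536870912 0 1230186008 923417968 42949674 3 eng mog cd1q2a cd4q3 pd1 false true false .pnn 2 1 3
    ndB1q2a ndB4q3 pcB1 cut_pm_213_a Ext.none :=
  certB0 (fam := false) (s1 := true) (s2 := false) (a := 2) (b := 1) (c := 3) (cn := .pnn) (n1 := ndB1q2a) (n2 := ndB4q3) (pc := pcB1) (cut := cut_pm_213_a) (xt := Ext.none) (P1 := 0) (W1 := 536870912) (P2 := 0) (W2 := 1230186008) (P3 := 923417968) (W3 := 42949674) (N0 := 3) (En := eng) (mo := mog) (C1 := cd1q2a) (C2 := cd4q3) (C3 := pd1)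
    rfl s4_pm_213_a

noncomputable def cut_pm_213_b : Cut := Cut.of [[⟨0, 1, 0, 67108864⟩, ⟨1, 1, 0, 67108864⟩, ⟨2, 2, 0, 16252928⟩]]

noncomputable def f_pm_213_b : ℕ → ℕ → ℕ → ℕ → Bool := onCell 1239849684 370763052 0 1230186008 923417968 42949674
    (rowB 3 eng mog cd1q2b cd4q3 pd1 0 false true false .pnn 2 1 3 (qsf 1239849684 370763052 0 1230186008 1) ndB1q2b ndB4q3 pcB1 cut_pm_213_b Ext.none)

def k0_pm_213_b : ∃ t, chk3 f_pm_213_b t 1 1 1 = true :=
  ⟨(b (a (b (l 3) (a (b (l 3) (b (l 3) (l 3))) (l 3))) (l 3)) (b (a (b (a (b (a (a (b (b (a (l 232632735671) (l 16731776)) (l 16722008)) (l 16681536)) (b (l 279877331431) (l 16737768))) (b (l 3) (a (l 16657536) (l 16669152)))) (a (b (a (l 16726600) (l 16759632)) (c (l 16684568) (l 16706688))) (b (a (l 16743312) (l 16700208)) (l 16758552)))) (b (l 3) (a (b (l 284172057671) (l 16689832)) (b (l 3) (l 16518856))))) (a (b (a (b (l 16557728) (l 16581208)) (b (l 16704536) (l 16642488))) (a (b (l 16513680) (l 16437176))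 (b (l 16572544) (l 16492800)))) (b (b (a (l 16755464) (l 16655920)) (a (l 16709472) (l 16734384))) (a (b (l 16635648) (l 16551720)) (l 1))))) (b (a (b (l 3) (l 3)) (l 1)) (l 1))) (a (b (a (b (b (a (l 16349920) (l 16402488)) (a (l 16284136) (l 16323384))) (b (l 16297952) (l 16298904))) (l 1)) (l 1)) (l 1)))), by decide +kernel⟩

theorem c_pm_213_b : CertB 1239849684 370763052 0 1230186008 923417968 42949674 3 eng mog cd1q2b cd4q3 pd1 false true false .pnn 2 1 3
    ndB1q2b ndB4q3 pcB1 cut_pm_213_b Ext.none :=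
  certB0 (fam := false) (s1 := true) (s2 := false) (a := 2) (b := 1) (c := 3) (cn := .pnn) (n1 := ndB1q2b) (n2 := ndB4q3) (pc := pcB1) (cut := cut_pm_213_b) (xt := Ext.none) (P1 := 1239849684) (W1 := 370763052) (P2 := 0) (W2 := 1230186008) (P3 := 923417968) (W3 := 42949674) (N0 := 3) (En := eng) (mo := mog) (C1 := cd1q2b) (C2 := cd4q3) (C3 := pd1)
    rfl k0_pm_213_b

noncomputable def f_pm_303 : ℕ → ℕ → ℕ → ℕ → Bool := onCell 0 536870912 0 1230186008 923417968 42949674
    (rowB 3 eng mog cd1q3 cd4q3 pd0 2 false true false .npn 3 0 3 (qsf 1610612736 536870912 0 1230186008 0) ndB1q3 ndB4q3 pcB0 Cut.none Ext.none)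

def k0_pm_303 : ∃ t, chk3 f_pm_303 t 1 1 1 = true :=
  ⟨(b (l 3) (a (b (b (l 3) (b (l 3) (a (a (l 3) (l 233167664679)) (a (l 163911636711) (l 161764438407))))) (b (a (b (a (b (l 163910038103) (a (l 15306064) (l 15412584))) (a (b (l 15510168) (a (l 15491904) (l 15544240))) (l 15763280))) (a (a (b (l 15380680) (l 15472632)) (l 15580920)) (a (a (l 15666712) (l 15716264)) (l 15764728)))) (a (b (b (l 15770752) (l 15763280)) (a (l 15845928) (l 15938920))) (b (l 15953544) (l 1)))) (a (b (a (a (l 15681896) (b (l 15737768) (l 15889784))) (a (a (l 15918192) (l 15977304)) (a (l 16010008) (l 16040120)))) (a (l 16024672) (a (a (l 16100408) (l 1)) (l 1)))) (a (a (b (l 16078952) (l 1)) (l 1)) (l 1))))) (b (a (b (l 3) (a (b (l 3) (l 16083064)) (b (l 16186392) (l 1)))) (b (a (l 3) (l 1)) (l 1))) (l 1)))), by decide +kernel⟩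

theorem c_pm_303 : CertB 1610612736 536870912 0 1230186008 923417968 42949674 3 eng mog cd1q3 cd4q3 pd0 false true false .npn 3 0 3
    ndB1q3 ndB4q3 pcB0 Cut.none Ext.none :=
  certB2 (fam := false) (s1 := true) (s2 := false) (a := 3) (b := 0) (c := 3) (cn := .npn) (n1 := ndB1q3) (n2 := ndB4q3) (pc := pcB0) (cut := Cut.none) (xt := Ext.none) (P1 := 1610612736) (W1 := 536870912) (P2 := 0) (W2 := 1230186008) (P3 := 923417968) (W3 := 42949674) (N0 := 3) (En := eng) (mo := mog) (C1 := cd1q3) (C2 := cd4q3) (C3 := pd0)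
    rfl (fun _ => rfl) k0_pm_303

noncomputable def f_pm_313 : ℕ → ℕ → ℕ → ℕ → Bool := onCell 1610612736 536870912 0 1230186008 923417968 42949674
    (rowB 3 eng mog cd1q3 cd4q3 pd1 0 false true false .dn 3 1 3 (qsf 1610612736 536870912 0 1230186008 1) ndB1q3 ndB4q3 pcB1 Cut.none Ext.none)

def k0_pm_313 : ∃ t, chk3 f_pm_313 t 1 1 1 = true :=
  ⟨(b (l 3) (l 1)), by decide +kernel⟩

theorem c_pm_313 : CertB 1610612736 536870912 0 1230186008 923417968 42949674 3 eng mog cd1q3 cd4q3 pd1 false true false .dn 3 1 3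
    ndB1q3 ndB4q3 pcB1 Cut.none Ext.none :=
  certB0 (fam := false) (s1 := true) (s2 := false) (a := 3) (b := 1) (c := 3) (cn := .dn) (n1 := ndB1q3) (n2 := ndB4q3) (pc := pcB1) (cut := Cut.none) (xt := Ext.none) (P1 := 1610612736) (W1 := 536870912) (P2 := 0) (W2 := 1230186008) (P3 := 923417968) (W3 := 42949674) (N0 := 3) (En := eng) (mo := mog) (C1 := cd1q3) (C2 := cd4q3) (C3 := pd1)
    rfl k0_pm_313

noncomputable def f_mm_001 : ℕ → ℕ → ℕ → ℕ → Bool := onCell 0 536870912 0 536870912 923417968 42949674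
    (rowB 3 eng mog cd1q0 cd4q1 pd0 1 false false false .up 0 0 1 (qsf 0 536870912 536870912 536870912 0) ndB1q0 ndB4q1 pcB0 Cut.none Ext.none)

def k0_mm_001 : ∃ t, chk3 f_mm_001 t 1 1 1 = true :=
  ⟨(l 3), by decide +kernel⟩

theorem c_mm_001 : CertB 0 536870912 536870912 536870912 923417968 42949674 3 eng mog cd1q0 cd4q1 pd0 false false false .up 0 0 1
    ndB1q0 ndB4q1 pcB0 Cut.none Ext.none :=
  certB1 (fam := false) (s1 := false) (s2 := false) (a := 0) (b := 0) (c := 1) (cn := .up) (n1 := ndB1q0) (n2 := ndB4q1) (pc := pcB0) (cut := Cut.none) (xt := Ext.none) (P1 := 0) (W1 := 536870912) (P2 := 536870912) (W2 := 536870912) (P3 := 923417968) (W3 := 42949674) (N0 := 3) (En := eng) (mo := mog) (C1 := cd1q0) (C2 := cd4q1) (C3 := pd0)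
    rfl (fun _ => rfl) k0_mm_001

noncomputable def f_mm_011 : ℕ → ℕ → ℕ → ℕ → Bool := onCell 0 536870912 536870912 536870912 923417968 42949674
    (rowB 3 eng mog cd1q0 cd4q1 pd1 1 false false false .pnn 0 1 1 (qsf 0 536870912 536870912 536870912 1) ndB1q0 ndB4q1 pcB1 Cut.none Ext.none)

def k0_mm_011 : ∃ t, chk3 f_mm_011 t 1 1 1 = true :=
  ⟨(l 5), by decide +kernel⟩

theorem c_mm_011 : CertB 0 536870912 536870912 536870912 923417968 42949674 3 eng mog cd1q0 cd4q1 pd1 false false false .pnn 0 1 1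
    ndB1q0 ndB4q1 pcB1 Cut.none Ext.none :=
  certB1 (fam := false) (s1 := false) (s2 := false) (a := 0) (b := 1) (c := 1) (cn := .pnn) (n1 := ndB1q0) (n2 := ndB4q1) (pc := pcB1) (cut := Cut.none) (xt := Ext.none) (P1 := 0) (W1 := 536870912) (P2 := 536870912) (W2 := 536870912) (P3 := 923417968) (W3 := 42949674) (N0 := 3) (En := eng) (mo := mog) (C1 := cd1q0) (C2 := cd4q1) (C3 := pd1)
    rfl (fun _ => rfl) k0_mm_011

noncomputable def f_mm_012 : ℕ → ℕ → ℕ → ℕ → Bool := onCell 0 536870912 1073741824 536870912 923417968 42949674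
    (rowB 3 eng mog cd1q0 cd4q2 pd1 0 false false false .pnp 0 1 2 (qsf 0 536870912 1073741824 536870912 1) ndB1q0 ndB4q2 pcB1 Cut.none Ext.none)

def k0_mm_012 : ∃ t, chk3 f_mm_012 t 1 1 1 = true :=
  ⟨(l 5), by decide +kernel⟩

theorem c_mm_012 : CertB 0 536870912 1073741824 536870912 923417968 42949674 3 eng mog cd1q0 cd4q2 pd1 false false false .pnp 0 1 2
    ndB1q0 ndB4q2 pcB1 Cut.none Ext.none :=
  certB0 (fam := false) (s1 := false) (s2 := false) (a := 0) (b := 1) (c := 2) (cn := .pnp) (n1 := ndB1q0) (n2 := ndB4q2) (pc := pcB1) (cut := Cut.none) (xt := Ext.none) (P1 := 0) (W1 := 536870912) (P2 := 1073741824) (W2 := 536870912) (P3 := 923417968) (W3 := 42949674) (N0 := 3) (En := eng) (mo := mog) (C1 := cd1q0) (C2 := cd4q2) (C3 := pd1)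
    rfl k0_mm_012

noncomputable def f_mm_022 : ℕ → ℕ → ℕ → ℕ → Bool := onCell 0 536870912 1073741824 536870912 923417968 42949674
    (rowB 3 eng mog cd1q0 cd4q2 pd2 0 false false false .pp 0 2 2 (qsf 0 536870912 1073741824 536870912 2) ndB1q0 ndB4q2 pcB2 Cut.none Ext.none)

def k0_mm_022 : ∃ t, chk3 f_mm_022 t 1 1 1 = true :=
  ⟨(l 5), by decide +kernel⟩

theorem c_mm_022 : CertB 0 536870912 1073741824 536870912 923417968 42949674 3 eng mog cd1q0 cd4q2 pd2 false false false .pp 0 2 2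
    ndB1q0 ndB4q2 pcB2 Cut.none Ext.none :=
  certB0 (fam := false) (s1 := false) (s2 := false) (a := 0) (b := 2) (c := 2) (cn := .pp) (n1 := ndB1q0) (n2 := ndB4q2) (pc := pcB2) (cut := Cut.none) (xt := Ext.none) (P1 := 0) (W1 := 536870912) (P2 := 1073741824) (W2 := 536870912) (P3 := 923417968) (W3 := 42949674) (N0 := 3) (En := eng) (mo := mog) (C1 := cd1q0) (C2 := cd4q2) (C3 := pd2)
    rfl k0_mm_022

noncomputable def f_mm_023 : ℕ → ℕ → ℕ → ℕ → Bool := onCell 0 536870912 0 1230186008 923417968 42949674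
    (rowB 3 eng mog cd1q0 cd4q3 pd2 0 false false false .up 0 2 3 (qsf 0 536870912 0 1230186008 2) ndB1q0 ndB4q3 pcB2 Cut.none Ext.none)

def k0_mm_023 : ∃ t, chk3 f_mm_023 t 1 1 1 = true :=
  ⟨(l 5), by decide +kernel⟩

theorem c_mm_023 : CertB 0 536870912 0 1230186008 923417968 42949674 3 eng mog cd1q0 cd4q3 pd2 false false false .up 0 2 3
    ndB1q0 ndB4q3 pcB2 Cut.none Ext.none :=
  certB0 (fam := false) (s1 := false) (s2 := false) (a := 0) (b := 2) (c := 3) (cn := .up) (n1 := ndB1q0) (n2 := ndB4q3) (pc := pcB2) (cut := Cut.none) (xt := Ext.none) (P1 := 0) (W1 := 536870912) (P2 := 0) (W2 := 1230186008) (P3 := 923417968) (W3 := 42949674) (N0 := 3) (En := eng) (mo := mog) (C1 := cd1q0) (C2 := cd4q3) (C3 := pd2)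
    rfl k0_mm_023

noncomputable def f_mm_033 : ℕ → ℕ → ℕ → ℕ → Bool := onCell 0 536870912 0 1230186008 923417968 42949674
    (rowB 3 eng mog cd1q0 cd4q3 pd3 0 false false false .pnn 0 3 3 (qsf 0 536870912 0 1230186008 3) ndB1q0 ndB4q3 pcB3 Cut.none Ext.none)

def k0_mm_033 : ∃ t, chk3 f_mm_033 t 1 1 1 = true :=
  ⟨(l 5), by decide +kernel⟩

theorem c_mm_033 : CertB 0 536870912 0 1230186008 923417968 42949674 3 eng mog cd1q0 cd4q3 pd3 false false false .pnn 0 3 3
    ndB1q0 ndB4q3 pcB3 Cut.none Ext.none :=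
  certB0 (fam := false) (s1 := false) (s2 := false) (a := 0) (b := 3) (c := 3) (cn := .pnn) (n1 := ndB1q0) (n2 := ndB4q3) (pc := pcB3) (cut := Cut.none) (xt := Ext.none) (P1 := 0) (W1 := 536870912) (P2 := 0) (W2 := 1230186008) (P3 := 923417968) (W3 := 42949674) (N0 := 3) (En := eng) (mo := mog) (C1 := cd1q0) (C2 := cd4q3) (C3 := pd3)
    rfl k0_mm_033

noncomputable def f_mm_101 : ℕ → ℕ → ℕ → ℕ → Bool := onCell 536870912 536870912 536870912 536870912 923417968 42949674
    (rowB 3 eng mog cd1q1 cd4q1 pd0 0 false false false .npn 1 0 1 (qsf 536870912 536870912 536870912 536870912 0) ndB1q1 ndB4q1 pcB0 Cut.none Ext.none)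

def k0_mm_101 : ∃ t, chk3 f_mm_101 t 1 1 1 = true :=
  ⟨(l 3), by decide +kernel⟩

theorem c_mm_101 : CertB 536870912 536870912 536870912 536870912 923417968 42949674 3 eng mog cd1q1 cd4q1 pd0 false false false .npn 1 0 1
    ndB1q1 ndB4q1 pcB0 Cut.none Ext.none :=
  certB0 (fam := false) (s1 := false) (s2 := false) (a := 1) (b := 0) (c := 1) (cn := .npn) (n1 := ndB1q1) (n2 := ndB4q1) (pc := pcB0) (cut := Cut.none) (xt := Ext.none) (P1 := 536870912) (W1 := 536870912) (P2 := 536870912) (W2 := 536870912) (P3 := 923417968) (W3 := 42949674) (N0 := 3) (En := eng) (mo := mog) (C1 := cd1q1) (C2 := cd4q1) (C3 := pd0)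
    rfl k0_mm_101

noncomputable def f_mm_102 : ℕ → ℕ → ℕ → ℕ → Bool := onCell 536870912 536870912 1073741824 536870912 923417968 42949674
    (rowB 3 eng mog cd1q1 cd4q2 pd0 0 false false false .npp 1 0 2 (qsf 536870912 536870912 1073741824 536870912 0) ndB1q1 ndB4q2 pcB0 Cut.none Ext.none)

def k0_mm_102 : ∃ t, chk3 f_mm_102 t 1 1 1 = true :=
  ⟨(l 3), by decide +kernel⟩

theorem c_mm_102 : CertB 536870912 536870912 1073741824 536870912 923417968 42949674 3 eng mog cd1q1 cd4q2 pd0 false false false .npp 1 0 2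
    ndB1q1 ndB4q2 pcB0 Cut.none Ext.none :=
  certB0 (fam := false) (s1 := false) (s2 := false) (a := 1) (b := 0) (c := 2) (cn := .npp) (n1 := ndB1q1) (n2 := ndB4q2) (pc := pcB0) (cut := Cut.none) (xt := Ext.none) (P1 := 536870912) (W1 := 536870912) (P2 := 1073741824) (W2 := 536870912) (P3 := 923417968) (W3 := 42949674) (N0 := 3) (En := eng) (mo := mog) (C1 := cd1q1) (C2 := cd4q2) (C3 := pd0)
    rfl k0_mm_102

noncomputable def f_mm_112 : ℕ → ℕ → ℕ → ℕ → Bool := onCell 536870912 536870912 1073741824 536870912 923417968 42949674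
    (rowB 3 eng mog cd1q1 cd4q2 pd1 0 false false false .dn 1 1 2 (qsf 536870912 536870912 1073741824 536870912 1) ndB1q1 ndB4q2 pcB1 Cut.none Ext.none)

def k0_mm_112 : ∃ t, chk3 f_mm_112 t 1 1 1 = true :=
  ⟨(l 3), by decide +kernel⟩

theorem c_mm_112 : CertB 536870912 536870912 1073741824 536870912 923417968 42949674 3 eng mog cd1q1 cd4q2 pd1 false false false .dn 1 1 2
    ndB1q1 ndB4q2 pcB1 Cut.none Ext.none :=
  certB0 (fam := false) (s1 := false) (s2 := false) (a := 1) (b := 1) (c := 2) (cn := .dn) (n1 := ndB1q1) (n2 := ndB4q2) (pc := pcB1) (cut := Cut.none) (xt := Ext.none) (P1 := 536870912) (W1 := 536870912) (P2 := 1073741824) (W2 := 536870912) (P3 := 923417968) (W3 := 42949674) (N0 := 3) (En := eng) (mo := mog) (C1 := cd1q1) (C2 := cd4q2) (C3 := pd1)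
    rfl k0_mm_112

noncomputable def f_mm_113 : ℕ → ℕ → ℕ → ℕ → Bool := onCell 536870912 536870912 0 1230186008 923417968 42949674
    (rowB 3 eng mog cd1q1 cd4q3 pd1 0 false false false .nn 1 1 3 (qsf 536870912 536870912 0 1230186008 1) ndB1q1 ndB4q3 pcB1 Cut.none Ext.none)

def k0_mm_113 : ∃ t, chk3 f_mm_113 t 1 1 1 = true :=
  ⟨(l 5), by decide +kernel⟩

theorem c_mm_113 : CertB 536870912 536870912 0 1230186008 923417968 42949674 3 eng mog cd1q1 cd4q3 pd1 false false false .nn 1 1 3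
    ndB1q1 ndB4q3 pcB1 Cut.none Ext.none :=
  certB0 (fam := false) (s1 := false) (s2 := false) (a := 1) (b := 1) (c := 3) (cn := .nn) (n1 := ndB1q1) (n2 := ndB4q3) (pc := pcB1) (cut := Cut.none) (xt := Ext.none) (P1 := 536870912) (W1 := 536870912) (P2 := 0) (W2 := 1230186008) (P3 := 923417968) (W3 := 42949674) (N0 := 3) (En := eng) (mo := mog) (C1 := cd1q1) (C2 := cd4q3) (C3 := pd1)
    rfl k0_mm_113

noncomputable def f_mm_123 : ℕ → ℕ → ℕ → ℕ → Bool := onCell 536870912 536870912 0 1230186008 923417968 42949674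
    (rowB 3 eng mog cd1q1 cd4q3 pd2 0 false false false .npn 1 2 3 (qsf 536870912 536870912 0 1230186008 2) ndB1q1 ndB4q3 pcB2 Cut.none Ext.none)

def k0_mm_123 : ∃ t, chk3 f_mm_123 t 1 1 1 = true :=
  ⟨(l 5), by decide +kernel⟩

theorem c_mm_123 : CertB 536870912 536870912 0 1230186008 923417968 42949674 3 eng mog cd1q1 cd4q3 pd2 false false false .npn 1 2 3
    ndB1q1 ndB4q3 pcB2 Cut.none Ext.none :=
  certB0 (fam := false) (s1 := false) (s2 := false) (a := 1) (b := 2) (c := 3) (cn := .npn) (n1 := ndB1q1) (n2 := ndB4q3) (pc := pcB2) (cut := Cut.none) (xt := Ext.none) (P1 := 536870912) (W1 := 536870912) (P2 := 0) (W2 := 1230186008) (P3 := 923417968) (W3 := 42949674) (N0 := 3) (En := eng) (mo := mog) (C1 := cd1q1) (C2 := cd4q3) (C3 := pd2)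
    rfl k0_mm_123

noncomputable def f_mm_133 : ℕ → ℕ → ℕ → ℕ → Bool := onCell 536870912 536870912 0 1230186008 923417968 42949674
    (rowB 3 eng mog cd1q1 cd4q3 pd3 0 false false false .dn 1 3 3 (qsf 536870912 536870912 0 1230186008 3) ndB1q1 ndB4q3 pcB3 Cut.none Ext.none)

def k0_mm_133 : ∃ t, chk3 f_mm_133 t 1 1 1 = true :=
  ⟨(l 5), by decide +kernel⟩

theorem c_mm_133 : CertB 536870912 536870912 0 1230186008 923417968 42949674 3 eng mog cd1q1 cd4q3 pd3 false false false .dn 1 3 3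
    ndB1q1 ndB4q3 pcB3 Cut.none Ext.none :=
  certB0 (fam := false) (s1 := false) (s2 := false) (a := 1) (b := 3) (c := 3) (cn := .dn) (n1 := ndB1q1) (n2 := ndB4q3) (pc := pcB3) (cut := Cut.none) (xt := Ext.none) (P1 := 536870912) (W1 := 536870912) (P2 := 0) (W2 := 1230186008) (P3 := 923417968) (W3 := 42949674) (N0 := 3) (En := eng) (mo := mog) (C1 := cd1q1) (C2 := cd4q3) (C3 := pd3)
    rfl k0_mm_133

noncomputable def cut_mm_202_a : Cut := Cut.of [[⟨0, 1, 0, 67108864⟩, ⟨1, 0, 0, 67108864⟩, ⟨2, 1, 0, 67108864⟩]]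

noncomputable def f_mm_202_a : ℕ → ℕ → ℕ → ℕ → Bool := onCell 0 536870912 0 536870912 923417968 42949674
    (rowB 3 eng mog cd1q2a cd4q2 pd0 1 false false false .pp 2 0 2 (qsf 0 536870912 1073741824 536870912 0) ndB1q2a ndB4q2 pcB0 cut_mm_202_a Ext.none)

def k0_mm_202_a : ∃ t, chk3 f_mm_202_a t 2 1 1 = true :=
  ⟨(b (a (b (b (b (b (l 16300744) (l 16349024)) (a (b (l 16345840) (l 16376264)) (b (l 16409992) (l 16436800)))) (b (b (a (l 16394608) (l 16466744)) (b (l 16457632) (l 16481216))) (b (a (l 16482504) (l 16546864)) (l 16488840)))) (b (b (a (l 16571112) (b (l 16532120) (l 16532856))) (a (b (l 16556792) (l 16561928)) (a (l 16660296) (l 16574408)))) (b (a (b (l 16579408) (l 16600696)) (b (l 16605576) (l 16629480))) (a (l 16635752) (b (l 16650528) (l 190756814279)))))) (b (a (b (b (b (l 16409824) (l 16438440)) (l 16484320)) (b (b (l 16535368) (l 16397464)) (b (a (l 16534968) (l 16516688)) (l 16520520)))) (b (b (b (a (l 16453840) (l 16479184)) (l 16497040))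 (a (l 16532800) (l 16671016))) (b (b (l 16544376) (a (l 16523808) (b (l 16519416) (l 16522608)))) (b (a (l 16476200) (l 16545808)) (a (l 16545696) (l 16579432)))))) (b (b (a (b (a (l 16521760) (l 16548080)) (l 16524384)) (b (a (l 16578656) (l 16589864)) (a (l 16587272) (l 16680288)))) (b (a (l 16532568) (a (l 16634440) (l 132237871255))) (a (l 16642656) (a (l 159618274023) (l 3))))) (a (b (a (b (l 16613072) (l 16655424)) (b (l 16676312) (l 178945652295))) (a (b (l 196125516503) (l 189683092999)) (l 3))) (b (a (b (l 157470823335) (l 3)) (l 3)) (l 3)))))) (b (a (b (a (b (a (l 16666824) (l 16716296)) (a (b (l 16685296) (l 16696800)) (b (l 229948393559) (l 237464607063)))) (b (a (b (l 16677248) (l 218674110823)) (b (l 205789214375) (l 3))) (b (l 264308104823) (l 3)))) (b (a (a (b (l 238538350503) (l 280414267015)) (l 3)) (l 3)) (l 3))) (l 3)) (l 3))), by decide +kernel⟩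

def k1_mm_202_a : ∃ t, chk3 f_mm_202_a t 6 2 1 = true :=
  ⟨(b (a (b (b (b (l 16521024) (l 16555824)) (b (l 16646264) (a (l 16557144) (b (l 16564648) (l 16511520))))) (b (b (a (b (l 16535760) (l 16533624)) (b (l 16535328) (l 16567024))) (a (b (a (l 16532264) (l 16550992)) (l 16557448)) (b (l 16581776) (l 16597056)))) (a (b (l 16540312) (a (l 16605624) (l 16602728))) (a (b (l 16589752) (l 244980542455)) (b (b (l 16622568) (l 16638120)) (l 281487800119)))))) (b (b (a (b (l 16564512) (l 16605064)) (b (b (l 16566200) (l 16607072)) (b (l 16629272) (l 16628112)))) (b (a (b (l 16600200) (l 16585608)) (b (a (l 16610056) (l 16577816)) (a (l 16580664) (l 16622096)))) (b (a (a (l 16570448) (l 16586496)) (a (l 16607760) (l 16632120))) (a (a (l 16573824) (l 16595880)) (a (l 16619536) (l 16622856)))))) (b (b (a (b (l 16555368) (a (l 16599424) (l 16621976))) (b (a (l 16632072) (c (l 16656560) (l 16655896))) (a (l 16624224) (b (l 16644736) (l 16650944))))) (a (a (b (l 16613656)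 (l 16628296)) (b (l 16635864) (l 16628976))) (a (b (l 236390670487) (l 308868272407)) (b (l 306720809815) (l 3))))) (a (b (a (b (l 16643136) (l 16636424)) (b (l 284172193175) (l 3))) (l 3)) (l 3))))) (b (b (a (a (b (c (l 249812382279) (l 240685572679)) (b (l 247664951223) (l 239075046759))) (b (a (l 121500447591) (l 3)) (l 3))) (l 3)) (l 3)) (l 3))), by decide +kernel⟩

def k2_mm_202_a : ∃ t, chk3 f_mm_202_a t 7 2 1 = true :=
  ⟨(b (b (b (a (a (b (b (l 16621928) (l 16643568)) (b (l 16660944) (b (a (l 16645592) (l 16656696)) (a (l 16638400) (l 16635088))))) (b (b (a (l 16629944) (l 6)) (a (l 16673760) (l 16695464))) (a (b (b (l 16681592) (l 16676008)) (b (l 16655416) (l 16658768))) (b (b (a (l 16690856) (l 6)) (l 16696952)) (a (l 16675576) (a (l 16685168) (l 16696824))))))) (a (b (l 6) (b (l 6) (a (b (a (l 16698792) (l 6)) (a (l 259476287751) (a (l 16734328) (l 16740760)))) (l 6)))) (l 6))) (a (a (b (a (b (c (l 16620808) (l 16614416)) (l 16625176)) (b (c (l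 16663608) (l 16659056)) (a (l 16665080) (l 16656928)))) (b (a (l 16636088) (c (l 253033730199) (l 251959981543))) (a (c (l 16669032) (l 16647448)) (a (l 234780133095) (l 354502374295))))) (b (a (c (b (l 16667144) (a (l 16691328) (l 16682848))) (b (l 16664872) (b (l 16673264) (l 16679040)))) (a (b (c (l 16685680) (l 16685064)) (b (l 16698408) (l 353428686343))) (b (b (l 16695800) (l 378124752455)) (l 3)))) (a (b (b (a (l 16678024) (l 16690800)) (l 262697473223)) (l 3)) (l 3)))) (a (b (a (b (a (b (c (l 16708376) (l 16709176)) (l 3)) (l 3)) (l 3)) (l 3)) (l 3)) (l 3)))) (a (b (a (b (a (b (c (l 311015783111) (l 284709106311)) (l 304573348855)) (l 3)) (l 3)) (l 3)) (l 3)) (l 3))) (l 3)), by decide +kernel⟩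

def k3_mm_202_a : ∃ t, chk3 f_mm_202_a t 3 3 1 = true :=
  ⟨(l 3), by decide +kernel⟩

theorem s4_mm_202_a : ∃ t, chk3 f_mm_202_a t 3 2 1 = true := ex3_a k1_mm_202_a k2_mm_202_a

theorem s5_mm_202_a : ∃ t, chk3 f_mm_202_a t 3 1 1 = true := ex3_b s4_mm_202_a k3_mm_202_a

theorem s6_mm_202_a : ∃ t, chk3 f_mm_202_a t 1 1 1 = true := ex3_a k0_mm_202_a s5_mm_202_a

theorem c_mm_202_a : CertB 0 536870912 1073741824 536870912 923417968 42949674 3 eng mog cd1q2a cd4q2 pd0 false false false .pp 2 0 2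
    ndB1q2a ndB4q2 pcB0 cut_mm_202_a Ext.none :=
  certB1 (fam := false) (s1 := false) (s2 := false) (a := 2) (b := 0) (c := 2) (cn := .pp) (n1 := ndB1q2a) (n2 := ndB4q2) (pc := pcB0) (cut := cut_mm_202_a) (xt := Ext.none) (P1 := 0) (W1 := 536870912) (P2 := 1073741824) (W2 := 536870912) (P3 := 923417968) (W3 := 42949674) (N0 := 3) (En := eng) (mo := mog) (C1 := cd1q2a) (C2 := cd4q2) (C3 := pd0)
    rfl (fun _ => rfl) s6_mm_202_a

noncomputable def cut_mm_202_b : Cut := Cut.of [[⟨0, 1, 0, 67108864⟩, ⟨1, 0, 0, 67108864⟩, ⟨2, 1, 0, 67108864⟩]]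

noncomputable def f_mm_202_b : ℕ → ℕ → ℕ → ℕ → Bool := onCell 0 536870912 1073741824 536870912 923417968 42949674
    (rowB 3 eng mog cd1q2b cd4q2 pd0 2 false false false .pp 2 0 2 (qsf 1239849684 370763052 1073741824 536870912 0) ndB1q2b ndB4q2 pcB0 cut_mm_202_b Ext.none)

def k0_mm_202_b : ∃ t, chk3 f_mm_202_b t 1 1 1 = true :=
  ⟨(a (b (a (b (l 1) (b (a (a (b (l 16174584) (l 16254584)) (b (l 1) (l 16280976))) (l 1)) (a (a (l 16308408) (b (l 16328176) (l 16361160))) (b (a (a (l 16340928) (l 1)) (l 1)) (a (a (l 16371720) (l 16248656)) (a (l 16430400) (l 1))))))) (l 1)) (a (b (a (b (a (b (l 16324944) (l 16182680)) (b (l 16370336) (l 16333096))) (a (a (l 15833360) (l 16053896)) (l 16148448))) (a (a (b (l 16401664) (l 16235520)) (b (a (l 16419248) (l 16436472)) (l 16280552))) (b (a (l 16462408) (l 16493968)) (a (l 16316664) (l 16357088))))) (a (b (a (l 15725400) (b (l 15975728) (l 15864616))) (a (b (l 15668592) (l 15615864)) (l 7681466135))) (a (b (a (l 15870464)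 (b (l 16093032) (l 16002480))) (b (l 15932296) (l 15902024))) (b (b (l 16081112) (l 16061696)) (b (l 16072784) (l 16040184)))))) (a (a (b (b (b (l 385506488199) (l 16543632)) (b (l 16479560) (l 16300896))) (b (b (l 16257376) (l 16235216)) (l 16055848))) (b (b (a (l 448320059191) (l 1)) (b (l 16576144) (l 16467152))) (b (l 16230048) (l 48484817975)))) (b (b (l 1) (b (a (l 16639640) (l 1)) (a (l 16577904) (l 473553267463)))) (a (b (b (l 16515888) (l 16464448)) (l 114520777703)) (b (b (l 16623216) (l 16566224)) (b (l 16491640) (l 16462504)))))))) (b (l 1) (a (b (l 1) (a (b (b (a (l 518650498535) (l 1)) (a (l 16660312) (l 525629897735))) (b (a (l 16601880) (a (l 16665784) (l 162168342647))) (a (l 16483816) (b (l 16640720) (l 16570568))))) (b (l 1) (a (b (a (l 366716299031) (l 1)) (a (b (l 16701184) (l 16671000)) (b (l 414497753447) (a (l 16700248) (l 16688368))))) (b (l 1) (a (b (l 1) (a (l 156799726999) (l 1))) (l 1))))))) (l 1)))), by decide +kernel⟩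

theorem c_mm_202_b : CertB 1239849684 370763052 1073741824 536870912 923417968 42949674 3 eng mog cd1q2b cd4q2 pd0 false false false .pp 2 0 2
    ndB1q2b ndB4q2 pcB0 cut_mm_202_b Ext.none :=
  certB2 (fam := false) (s1 := false) (s2 := false) (a := 2) (b := 0) (c := 2) (cn := .pp) (n1 := ndB1q2b) (n2 := ndB4q2) (pc := pcB0) (cut := cut_mm_202_b) (xt := Ext.none) (P1 := 1239849684) (W1 := 370763052) (P2 := 1073741824) (W2 := 536870912) (P3 := 923417968) (W3 := 42949674) (N0 := 3) (En := eng) (mo := mog) (C1 := cd1q2b) (C2 := cd4q2) (C3 := pd0)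
    rfl (fun _ => rfl) k0_mm_202_b

noncomputable def f_mm_203_a : ℕ → ℕ → ℕ → ℕ → Bool := onCell 0 536870912 0 1230186008 923417968 42949674
    (rowB 3 eng mog cd1q2a cd4q3 pd0 0 false false false .up 2 0 3 (qsf 0 536870912 0 1230186008 0) ndB1q2a ndB4q3 pcB0 Cut.none Ext.none)

def k0_mm_203_a : ∃ t, chk3 f_mm_203_a t 1 1 1 = true :=
  ⟨(b (l 2) (b (l 2) (b (l 3) (a (b (l 3) (l 3)) (l 3))))), by decide +kernel⟩

theorem c_mm_203_a : CertB 0 536870912 0 1230186008 923417968 42949674 3 eng mog cd1q2a cd4q3 pd0 false false false .up 2 0 3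
    ndB1q2a ndB4q3 pcB0 Cut.none Ext.none :=
  certB0 (fam := false) (s1 := false) (s2 := false) (a := 2) (b := 0) (c := 3) (cn := .up) (n1 := ndB1q2a) (n2 := ndB4q3) (pc := pcB0) (cut := Cut.none) (xt := Ext.none) (P1 := 0) (W1 := 536870912) (P2 := 0) (W2 := 1230186008) (P3 := 923417968) (W3 := 42949674) (N0 := 3) (En := eng) (mo := mog) (C1 := cd1q2a) (C2 := cd4q3) (C3 := pd0)
    rfl k0_mm_203_a

noncomputable def f_mm_203_b : ℕ → ℕ → ℕ → ℕ → Bool := onCell 1239849684 370763052 0 1230186008 923417968 42949674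
    (rowB 3 eng mog cd1q2b cd4q3 pd0 0 false false false .up 2 0 3 (qsf 1239849684 370763052 0 1230186008 0) ndB1q2b ndB4q3 pcB0 Cut.none Ext.none)

def k0_mm_203_b : ∃ t, chk3 f_mm_203_b t 1 1 1 = true :=
  ⟨(b (l 3) (b (l 3) (b (l 3) (a (a (b (l 3) (l 3)) (l 3)) (l 3))))), by decide +kernel⟩

theorem c_mm_203_b : CertB 1239849684 370763052 0 1230186008 923417968 42949674 3 eng mog cd1q2b cd4q3 pd0 false false false .up 2 0 3
    ndB1q2b ndB4q3 pcB0 Cut.none Ext.none :=
  certB0 (fam := false) (s1 := false) (s2 := false) (a := 2) (b := 0) (c := 3) (cn := .up) (n1 := ndB1q2b) (n2 := ndB4q3) (pc := pcB0) (cut := Cut.none) (xt := Ext.none) (P1 := 1239849684) (W1 := 370763052) (P2 := 0) (W2 := 1230186008) (P3 := 923417968) (W3 := 42949674) (N0 := 3) (En := eng) (mo := mog) (C1 := cd1q2b) (C2 := cd4q3) (C3 := pd0)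
    rfl k0_mm_203_b

noncomputable def f_mm_213_a : ℕ → ℕ → ℕ → ℕ → Bool := onCell 0 536870912 0 1230186008 923417968 42949674
    (rowB 3 eng mog cd1q2a cd4q3 pd1 0 false false false .pnn 2 1 3 (qsf 0 536870912 0 1230186008 1) ndB1q2a ndB4q3 pcB1 Cut.none Ext.none)

def k0_mm_213_a : ∃ t, chk3 f_mm_213_a t 1 1 1 = true :=
  ⟨(b (b (l 5) (l 3)) (b (l 3) (b (l 3) (a (b (l 3) (l 1)) (l 3))))), by decide +kernel⟩

theorem c_mm_213_a : CertB 0 536870912 0 1230186008 923417968 42949674 3 eng mog cd1q2a cd4q3 pd1 false false false .pnn 2 1 3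
    ndB1q2a ndB4q3 pcB1 Cut.none Ext.none :=
  certB0 (fam := false) (s1 := false) (s2 := false) (a := 2) (b := 1) (c := 3) (cn := .pnn) (n1 := ndB1q2a) (n2 := ndB4q3) (pc := pcB1) (cut := Cut.none) (xt := Ext.none) (P1 := 0) (W1 := 536870912) (P2 := 0) (W2 := 1230186008) (P3 := 923417968) (W3 := 42949674) (N0 := 3) (En := eng) (mo := mog) (C1 := cd1q2a) (C2 := cd4q3) (C3 := pd1)
    rfl k0_mm_213_a

noncomputable def f_mm_213_b : ℕ → ℕ → ℕ → ℕ → Bool := onCell 1239849684 370763052 0 1230186008 923417968 42949674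
    (rowB 3 eng mog cd1q2b cd4q3 pd1 0 false false false .pnn 2 1 3 (qsf 1239849684 370763052 0 1230186008 1) ndB1q2b ndB4q3 pcB1 Cut.none Ext.none)

def k0_mm_213_b : ∃ t, chk3 f_mm_213_b t 1 1 1 = true :=
  ⟨(b (l 3) (b (l 3) (b (l 3) (l 1)))), by decide +kernel⟩

theorem c_mm_213_b : CertB 1239849684 370763052 0 1230186008 923417968 42949674 3 eng mog cd1q2b cd4q3 pd1 false false false .pnn 2 1 3
    ndB1q2b ndB4q3 pcB1 Cut.none Ext.none :=
  certB0 (fam := false) (s1 := false) (s2 := false) (a := 2) (b := 1) (c := 3) (cn := .pnn) (n1 := ndB1q2b) (n2 := ndB4q3) (pc := pcB1) (cut := Cut.none) (xt := Ext.none) (P1 := 1239849684) (W1 := 370763052) (P2 := 0) (W2 := 1230186008) (P3 := 923417968) (W3 := 42949674) (N0 := 3) (En := eng) (mo := mog) (C1 := cd1q2b) (C2 := cd4q3) (C3 := pd1)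
    rfl k0_mm_213_b

noncomputable def f_mm_303 : ℕ → ℕ → ℕ → ℕ → Bool := onCell 0 536870912 0 1230186008 923417968 42949674
    (rowB 3 eng mog cd1q3 cd4q3 pd0 2 false false false .npn 3 0 3 (qsf 1610612736 536870912 0 1230186008 0) ndB1q3 ndB4q3 pcB0 Cut.none Ext.none)

def k0_mm_303 : ∃ t, chk3 f_mm_303 t 1 1 1 = true :=
  ⟨(b (l 3) (b (l 3) (a (b (l 3) (l 3)) (l 1)))), by decide +kernel⟩

theorem c_mm_303 : CertB 1610612736 536870912 0 1230186008 923417968 42949674 3 eng mog cd1q3 cd4q3 pd0 false false false .npn 3 0 3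
    ndB1q3 ndB4q3 pcB0 Cut.none Ext.none :=
  certB2 (fam := false) (s1 := false) (s2 := false) (a := 3) (b := 0) (c := 3) (cn := .npn) (n1 := ndB1q3) (n2 := ndB4q3) (pc := pcB0) (cut := Cut.none) (xt := Ext.none) (P1 := 1610612736) (W1 := 536870912) (P2 := 0) (W2 := 1230186008) (P3 := 923417968) (W3 := 42949674) (N0 := 3) (En := eng) (mo := mog) (C1 := cd1q3) (C2 := cd4q3) (C3 := pd0)
    rfl (fun _ => rfl) k0_mm_303

noncomputable def f_mm_313 : ℕ → ℕ → ℕ → ℕ → Bool := onCell 1610612736 536870912 0 1230186008 923417968 42949674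
    (rowB 3 eng mog cd1q3 cd4q3 pd1 0 false false false .dn 3 1 3 (qsf 1610612736 536870912 0 1230186008 1) ndB1q3 ndB4q3 pcB1 Cut.none Ext.none)

def k0_mm_313 : ∃ t, chk3 f_mm_313 t 1 1 1 = true :=
  ⟨(b (l 3) (l 1)), by decide +kernel⟩

theorem c_mm_313 : CertB 1610612736 536870912 0 1230186008 923417968 42949674 3 eng mog cd1q3 cd4q3 pd1 false false false .dn 3 1 3
    ndB1q3 ndB4q3 pcB1 Cut.none Ext.none :=
  certB0 (fam := false) (s1 := false) (s2 := false) (a := 3) (b := 1) (c := 3) (cn := .dn) (n1 := ndB1q3) (n2 := ndB4q3) (pc := pcB1) (cut := Cut.none) (xt := Ext.none) (P1 := 1610612736) (W1 := 536870912) (P2 := 0) (W2 := 1230186008) (P3 := 923417968) (W3 := 42949674) (N0 := 3) (En := eng) (mo := mog) (C1 := cd1q3) (C2 := cd4q3) (C3 := pd1)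
    rfl k0_mm_313

end Pool.Agent.Strip051.G.I8600_9000.Tab.C.BB14

namespace Pool.Agent.Strip051.G.I8600_9000.Tab.C.BB20

open Pool.Agent.Strip051.PB Pool.Agent.Strip051.PB.T
open Pool.Agent.Strip051.G.I8600_9000.Tab

noncomputable def f_pp_001 : ℕ → ℕ → ℕ → ℕ → Bool := onCell 0 536870912 536870912 536870912 923417968 42949674
    (rowB 3 eng mog cd2q0 cd0q1 pd0 0 false true true .up 0 0 1 (qsf 0 536870912 536870912 536870912 0) ndB2q0 ndB0q1 pcB0 Cut.none Ext.none)

def k0_pp_001 : ∃ t, chk3 f_pp_001 t 1 1 1 = true :=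
  ⟨(b (l 3) (b (l 3) (a (l 2) (b (l 3) (a (l 2) (b (l 3) (a (l 2) (b (b (l 3) (a (l 2) (c (a (l 208472417847) (l 207935560951)) (a (l 209009180839) (l 207935459671))))) (a (l 2) (a (b (l 16065680) (l 2)) (b (l 16116376) (l 16008120)))))))))))), by decide +kernel⟩

theorem c_pp_001 : CertB 0 536870912 536870912 536870912 923417968 42949674 3 eng mog cd2q0 cd0q1 pd0 false true true .up 0 0 1
    ndB2q0 ndB0q1 pcB0 Cut.none Ext.none :=
  certB0 (fam := false) (s1 := true) (s2 := true) (a := 0) (b := 0) (c := 1) (cn := .up) (n1 := ndB2q0) (n2 := ndB0q1) (pc := pcB0) (cut := Cut.none) (xt := Ext.none) (P1 := 0) (W1 := 536870912) (P2 := 536870912) (W2 := 536870912) (P3 := 923417968) (W3 := 42949674) (N0 := 3) (En := eng) (mo := mog) (C1 := cd2q0) (C2 := cd0q1) (C3 := pd0)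
    rfl k0_pp_001

noncomputable def xt_pp_011 : Ext := extD2 3 ⟨4, 1, 1, 5, 17, 5, 87, 100, 43, 100, 1, 8⟩ eng cd2q0 cd0q1 pd1 false true true .pnn 0 1 1 rfl ndB2q0 ndB0q1 pcB1

noncomputable def f_pp_011 : ℕ → ℕ → ℕ → ℕ → Bool := onCell 0 536870912 536870912 536870912 923417968 42949674
    (rowB 3 eng mog cd2q0 cd0q1 pd1 0 false true true .pnn 0 1 1 (qsf 0 536870912 536870912 536870912 1) ndB2q0 ndB0q1 pcB1 Cut.none xt_pp_011)

def k0_pp_011 : ∃ t, chk3 f_pp_011 t 1 2 1 = true :=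
  ⟨(l 3), by decide +kernel⟩

def k1_pp_011 : ∃ t, chk3 f_pp_011 t 1 6 1 = true :=
  ⟨(l 3), by decide +kernel⟩

def k2_pp_011 : ∃ t, chk3 f_pp_011 t 1 14 1 = true :=
  ⟨(a (l 3) (l 3)), by decide +kernel⟩

def k3_pp_011 : ∃ t, chk3 f_pp_011 t 8 60 1 = true :=
  ⟨(l 3), by decide +kernel⟩

def k4_pp_011 : ∃ t, chk3 f_pp_011 t 8 122 1 = true :=
  ⟨(l 3), by decide +kernel⟩

def k5_pp_011 : ∃ t, chk3 f_pp_011 t 8 246 1 = true :=
  ⟨(l 3), by decide +kernel⟩

def k6_pp_011 : ∃ t, chk3 f_pp_011 t 16 247 1 = true :=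
  ⟨(b (b (l 3) (a (a (a (a (c (c (l 16757728) (l 16771752)) (c (l 416242719815) (b (c (l 422685171895) (l 436643828743)) (l 16780784)))) (c (l 239612193751) (c (l 417853348935) (b (l 435570088279) (l 16787840))))) (c (l 388862307575) (c (l 402284107751) (b (c (l 416779633479) (l 417853380951)) (l 16797640))))) (c (c (l 16784472) (l 371682455879)) (c (a (l 378124923927) (l 374366854167)) (a (a (l 401210405479) (l 380272433127)) (a (l 378661834487) (l 377051236823)))))) (a (b (l 3) (c (l 16806752) (c (l 16825512) (a (l 16823336) (l 16837744))))) (b (l 3) (c (l 16829056) (c (l 16828384) (a (l 359334524519) (l 356113273831)))))))) (a (a (c (c (a (l 16776760) (l 16790344)) (l 16766424)) (c (l 16770584) (c (l 16773896) (l 16776200)))) (c (l 16771624) (c (l 16799736) (b (l 16797680) (l 16806808))))) (c (a (l 16801416) (l 16808824)) (a (c (l 16830704) (l 16826968)) (c (l 16797704) (a (l 16816800) (l 16804840))))))), by decide +kernel⟩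

def k7_pp_011 : ∃ t, chk3 f_pp_011 t 17 247 1 = true :=
  ⟨(c (a (a (c (l 343765197607) (b (l 312626705687) (l 16802952))) (a (b (l 313163546983) (l 16788320)) (c (l 302962987063) (a (l 308868554999) (l 307794778071))))) (b (a (a (l 743733962663) (l 3)) (l 3)) (b (a (a (l 16764512) (l 319605905287)) (a (l 315847778103) (l 306720963767))) (a (l 16749608) (l 16719056))))) (b (b (l 3) (b (l 3) (a (a (a (c (l 16810480) (c (l 16814528) (l 352355152023))) (c (l 16802896) (c (l 347523295479) (b (l 3) (l 343228319031))))) (c (a (l 342691437271) (l 336785833415)) (a (b (l 3) (a (l 340007083095) (l 338933327079))) (a (l 6124418202312658745634373951) (l 323364059799))))) (a (a (c (l 331953968279) (c (l 322290297319) (l 322827159575))) (l 3)) (l 3))))) (a (c (a (b (l 16798272) (l 16811592)) (a (l 16774432) (l 16760088))) (a (b (a (l 16796024) (b (l 16784560) (l 16801728))) (l 16802776)) (b (a (a (l 16793112) (l 16775368)) (b (c (l 16779040) (l 16773792)) (l 16772704)))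 (l 16774616)))) (a (a (b (c (l 16769768) (b (c (l 16763488) (l 16757936)) (l 16756992))) (l 16756888)) (b (c (l 16754072) (a (l 16746656) (l 16738368))) (l 16740880))) (a (c (l 312626516119) (b (l 313700245687) (l 16718264))) (c (l 16722656) (l 302962813303))))))), by decide +kernel⟩

def k8_pp_011 : ∃ t, chk3 f_pp_011 t 9 30 1 = true :=
  ⟨(b (l 3) (b (l 3) (b (l 3) (b (a (l 3) (l 3)) (a (a (c (a (a (a (l 297594138503) (l 297594117799)) (a (l 295983488039) (l 294909728967))) (a (c (l 293835968535) (l 290614728551)) (c (l 286319752167) (l 286319728407)))) (a (a (c (l 304036518967) (l 303499615863)) (c (l 299741515623) (l 298667740247))) (a (c (l 295983381559) (l 294372734871)) (c (l 289004044967) (l 289540866103))))) (a (a (c (a (c (l 280414152375) (l 283098477863)) (c (l 276119180311) (l 274508547607))) (a (c (l 275582277175) (l 286319615095)) (c (l 273434784983) (l 284709000775)))) (c (a (a (l 283635345383) (l 283098474247)) (b (l 282561609015) (l 16644640)))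 (a (c (l 272361043703) (l 283635256999)) (c (l 271287302231) (l 282024642583))))) (a (c (a (b (l 281487866551) (l 16643752)) (b (l 279877253175) (l 16642856))) (a (c (l 270750431175) (l 280950900183)) (c (l 282024675751) (l 279340259271)))) (c (a (b (l 278803510519) (l 16641960)) (l 278803503623)) (a (c (l 280950928663) (l 277729593255)) (c (l 279340312759) (l 275582057943))))))) (a (a (a (c (a (l 277729761271) (l 276656018583)) (a (l 277192808135) (l 276119065927))) (c (c (l 277729755767) (l 276655977415)) (c (l 273971521799) (l 269676345831)))) (c (a (a (l 273434789735) (l 273971643319)) (a (l 272361026247) (l 270750410487))) (a (c (l 270750261671) (l 266455036087)) (c (l 267528960167) (l 263233733271))))) (b (l 3) (a (c (a (c (l 16639672) (l 16514896)) (c (l 16618144) (l 16475888))) (a (c (l 16391200) (l 16270208)) (l 261623237799))) (c (a (a (l 265381687719) (l 263234164487)) (l 260549799175)) (a (l 258401943607) (l 254643782999))))))))))), by decide +kernel⟩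

def k9_pp_011 : ∃ t, chk3 f_pp_011 t 5 30 1 = true :=
  ⟨(b (l 3) (a (a (a (b (l 3) (b (l 3) (b (l 3) (a (c (a (b (l 3) (l 256254697655)) (l 251422811783)) (a (l 250348750599) (l 247127471543))) (a (c (l 248201503287) (l 243906193303)) (l 3)))))) (l 3)) (l 3)) (l 3))), by decide +kernel⟩

def k10_pp_011 : ∃ t, chk3 f_pp_011 t 8 31 1 = true :=
  ⟨(a (b (a (b (c (b (a (b (l 16750288) (l 16777760)) (l 16782696)) (a (l 16765928) (l 16838264))) (b (a (l 16762280) (l 16792616)) (l 16769968))) (c (b (l 16778248) (l 16794528)) (b (l 16787600) (l 16782504)))) (b (c (a (l 16770680) (b (l 16785960) (l 16798352))) (b (a (l 16793336) (l 16771072)) (l 16752912))) (c (b (l 16759624) (l 16753576)) (b (l 16745528) (l 16739216))))) (a (b (a (l 16763104) (l 16699944)) (c (l 16695152) (l 16702768))) (b (c (l 16694416) (l 16700592)) (c (l 16669272) (l 16653888))))) (b (a (b (a (b (c (l 16784200) (l 16746392)) (l 16725336)) (b (c (l 16758928) (b (l 16747408) (l 16753536))) (l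 16720096))) (c (l 16678344) (l 16660744))) (b (c (b (a (l 16730800) (l 16689712)) (l 16686344)) (b (a (b (l 16716880) (l 16723184)) (b (l 16704768) (l 16690120))) (l 16664272))) (c (l 16622608) (l 16600976)))) (b (a (c (l 16666912) (l 16649208)) (c (l 16610816) (l 16589552))) (a (c (l 16618032) (l 16600336)) (l 16508088))))), by decide +kernel⟩

def k11_pp_011 : ∃ t, chk3 f_pp_011 t 18 31 1 = true :=
  ⟨(a (b (b (c (b (a (b (l 16696184) (l 16681176)) (b (l 16661800) (l 16646712))) (l 16620928)) (b (b (a (l 16669672) (l 16632584)) (l 16594656)) (l 16614864))) (c (a (l 16616472) (l 16581288)) (l 16552224))) (b (c (l 16544864) (l 16519384)) (c (l 16493744) (l 16469016)))) (b (a (b (a (c (b (a (l 16642368) (l 16627256)) (l 16599888)) (b (a (l 16601144) (l 16596272)) (l 16569792))) (c (b (a (l 16626304) (l 16625344)) (l 16596192)) (b (a (l 16595448) (l 16594616)) (l 16566216)))) (a (c (l 16556432) (l 16527264)) (c (l 16552384) (l 16523408)))) (b (a (c (b (a (l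 16624384) (l 16623424)) (l 16593976)) (b (c (l 16601592) (l 16525128)) (l 16564272))) (c (b (c (l 16629744) (l 16614920)) (l 16591752)) (c (b (l 16599752) (l 16569776)) (l 16525616)))) (c (a (l 16549800) (l 16547208)) (c (l 16529056) (l 16514592))))) (a (a (b (c (l 16501400) (l 16473248)) (l 16436264)) (b (l 16483016) (l 16431264))) (c (b (l 16493928) (l 16440792)) (b (l 16466776) (l 16414904)))))), by decide +kernel⟩

def k12_pp_011 : ∃ t, chk3 f_pp_011 t 19 31 1 = true :=
  ⟨(c (a (b (b (a (a (b (c (l 16627696) (l 16612952)) (l 16589512)) (b (b (l 16626248) (l 16610520)) (l 16587248))) (c (b (a (l 16623552) (l 16621456)) (l 16591936)) (a (l 16572296) (l 16570288)))) (a (l 16502720) (l 16539080))) (a (b (l 16487288) (l 16433016)) (b (l 16480656) (l 16425248)))) (b (a (b (a (b (b (l 16581824) (l 16586576)) (l 16580320)) (c (l 16558928) (l 16485952))) (l 16533456)) (b (a (c (l 16563720) (l 16448640)) (c (l 16545688) (l 16414144))) (l 16492712))) (a (a (l 16446040)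 (l 16442480)) (l 16437760)))) (a (b (a (b (a (c (l 16558928) (l 16436072)) (c (l 16529912) (l 16392704))) (l 16510616)) (b (a (c (l 16484184) (l 16353120)) (c (l 16442288) (l 16316904))) (l 16419544))) (a (b (l 16460920) (l 16408112)) (a (l 16428000) (l 16406856)))) (b (a (b (b (a (l 16421816) (l 16326560)) (l 16331904)) (l 16343464)) (b (b (a (l 16275800) (l 16248328)) (l 16270168)) (l 16279384))) (a (l 16350728) (l 16285344))))), by decide +kernel⟩

def k13_pp_011 : ∃ t, chk3 f_pp_011 t 5 31 1 = true :=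
  ⟨(a (c (a (b (a (a (b (b (a (b (l 16452576) (l 16434128)) (b (l 16442584) (l 16402752))) (l 16420944)) (l 16421920)) (b (b (a (b (l 16413832) (l 16373624)) (b (l 16387128) (l 16346576))) (l 16361568)) (l 16361176))) (b (b (a (b (a (l 16383288) (l 16339224)) (l 16330696)) (a (l 233705789687) (l 232095133399))) (a (l 16310376) (l 16266184))) (a (l 16308928) (l 16263824)))) (a (a (l 16405816) (l 16345608)) (a (l 16293824) (l 16249320)))) (b (a (a (b (a (c (l 232631962983) (l 16197064)) (b (l 252496132871) (l 16216160))) (l 16222984)) (b (c (l 228873729543) (l 16150456)) (l 16179072))) (b (b (a (l 245516682727) (l 241758567671)) (l 16133440)) (l 16124768))) (a (a (l 16208368) (l 16161480)) (l 16103616)))) (a (b (a (a (b (b (a (l 16222968) (l 16199520)) (l 16217712)) (l 16225072)) (b (b (a (l 16177848) (l 16157792)) (l 16172936)) (l 16178776))) (a (b (c (l 231021230407) (l 16089400)) (l 16139224)) (b (b (l 248201022871) (l 16101848)) (l 16105344)))) (a (a (l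 16230040) (l 16182992)) (a (l 16142736) (l 16108320)))) (b (a (a (b (a (l 16079056) (l 16065208)) (l 16075368)) (b (l 16066784) (l 16046016))) (b (a (l 16045800) (l 16008800)) (l 16012376))) (a (a (l 16077280) (l 16044440)) (l 16006488))))) (b (a (b (c (a (c (b (l 238537285319) (l 16109624)) (l 241221542119)) (b (l 231021013383) (l 16054992))) (a (b (l 16015648) (l 15990936)) (l 233705234311))) (c (b (l 16059928) (l 16051824)) (l 15978000))) (b (c (a (b (l 226189126471) (l 16039536)) (l 232094717639)) (a (l 231557731095) (l 229410256183))) (a (l 16084112) (l 16045704)))) (a (b (c (l 16039680) (l 15970504)) (c (l 16024272) (l 15965424))) (b (c (l 16006920) (l 15971672)) (l 16147872))))), by decide +kernel⟩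

def k14_pp_011 : ∃ t, chk3 f_pp_011 t 6 15 1 = true :=
  ⟨(b (l 3) (a (a (b (a (b (c (l 228336618679) (l 16079688)) (l 16057616)) (b (c (l 224041650359) (l 16082912)) (c (l 16040640) (l 16029648)))) (c (a (l 16007464) (l 16022616)) (l 16112032))) (c (b (b (a (l 220283553335) (l 238537145047)) (a (l 16059304) (l 16082752))) (l 16173672)) (b (b (a (l 246053265255) (l 16102552)) (l 16074888)) (l 16031440)))) (b (b (b (l 3) (a (a (c (l 16119184) (l 16110576)) (l 146195439847)) (b (l 3) (a (l 16102776) (l 188071220631))))) (a (a (c (l 16096480) (l 16079168)) (c (l 16094968) (l 16067184))) (a (c (l 16089048) (l 16052816)) (c (l 16060920) (l 16038632))))) (a (c (b (l 16053456) (l 16008480)) (a (l 16012552) (l 15995504))) (a (c (l 16013976) (l 15977944)) (c (l 15981248) (l 15939832))))))), by decide +kernel⟩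

def k15_pp_011 : ∃ t, chk3 f_pp_011 t 7 15 1 = true :=
  ⟨(b (l 3) (a (a (b (b (a (c (l 678234533863) (l 741585226135)) (l 3)) (a (c (b (l 16088920) (l 16061256)) (l 16088592)) (c (b (l 16104632) (l 16055192)) (b (l 16028400) (l 16001160))))) (a (c (l 15970920) (l 15924744)) (b (a (l 16010152) (l 16026808)) (l 15994304)))) (b (b (l 3) (a (c (b (b (l 16086920) (l 16073440)) (l 16051200)) (b (l 167670134247) (l 15992608))) (c (b (b (l 16106024) (l 16072616)) (l 16049760)) (b (b (l 16020392) (l 16008600)) (l 15987120))))) (b (c (a (l 16006896) (l 16004264)) (a (l 15950784) (l 15944456))) (c (l 16029816) (l 15933624))))) (b (b (l 3) (a (a (c (b (b (l 16106376) (l 16074480)) (l 16051248)) (b (b (l 16017120) (l 16006752)) (l 15985032))) (b (b (l 3) (c (l 160690905591) (l 16029096))) (c (l 16055968) (l 15986632)))) (a (b (b (l 3) (c (l 168207105175) (l 175723183623))) (c (l 16106112) (l 15992176))) (b (l 1) (c (l 474626176167) (l 503080235975)))))) (a (a (c (b (l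 16004608) (l 15943112)) (b (l 15941528) (l 15884360))) (c (b (l 16050136) (l 15945216)) (b (l 15942248) (l 15883912)))) (c (a (b (l 16099136) (l 15950768)) (b (b (l 16042712) (l 16009464)) (l 15959880))) (b (a (l 15988800) (l 16081376)) (a (l 15887280) (l 15894552)))))))), by decide +kernel⟩

theorem s16_pp_011 : ∃ t, chk3 f_pp_011 t 3 15 1 = true := ex3_a k14_pp_011 k15_pp_011

theorem s17_pp_011 : ∃ t, chk3 f_pp_011 t 9 31 1 = true := ex3_a k11_pp_011 k12_pp_011

theorem s18_pp_011 : ∃ t, chk3 f_pp_011 t 4 31 1 = true := ex3_a k10_pp_011 s17_pp_011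

theorem s19_pp_011 : ∃ t, chk3 f_pp_011 t 2 31 1 = true := ex3_a s18_pp_011 k13_pp_011

theorem s20_pp_011 : ∃ t, chk3 f_pp_011 t 8 247 1 = true := ex3_a k6_pp_011 k7_pp_011

theorem s21_pp_011 : ∃ t, chk3 f_pp_011 t 8 123 1 = true := ex3_b k5_pp_011 s20_pp_011

theorem s22_pp_011 : ∃ t, chk3 f_pp_011 t 8 61 1 = true := ex3_b k4_pp_011 s21_pp_011

theorem s23_pp_011 : ∃ t, chk3 f_pp_011 t 8 30 1 = true := ex3_b k3_pp_011 s22_pp_011

theorem s24_pp_011 : ∃ t, chk3 f_pp_011 t 4 30 1 = true := ex3_a s23_pp_011 k8_pp_011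

theorem s25_pp_011 : ∃ t, chk3 f_pp_011 t 2 30 1 = true := ex3_a s24_pp_011 k9_pp_011

theorem s26_pp_011 : ∃ t, chk3 f_pp_011 t 2 15 1 = true := ex3_b s25_pp_011 s19_pp_011

theorem s27_pp_011 : ∃ t, chk3 f_pp_011 t 1 15 1 = true := ex3_a s26_pp_011 s16_pp_011

theorem s28_pp_011 : ∃ t, chk3 f_pp_011 t 1 7 1 = true := ex3_b k2_pp_011 s27_pp_011

theorem s29_pp_011 : ∃ t, chk3 f_pp_011 t 1 3 1 = true := ex3_b k1_pp_011 s28_pp_011

theorem s30_pp_011 : ∃ t, chk3 f_pp_011 t 1 1 1 = true := ex3_b k0_pp_011 s29_pp_011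

theorem c_pp_011 : CertB 0 536870912 536870912 536870912 923417968 42949674 3 eng mog cd2q0 cd0q1 pd1 false true true .pnn 0 1 1
    ndB2q0 ndB0q1 pcB1 Cut.none xt_pp_011 :=
  certB0 (fam := false) (s1 := true) (s2 := true) (a := 0) (b := 1) (c := 1) (cn := .pnn) (n1 := ndB2q0) (n2 := ndB0q1) (pc := pcB1) (cut := Cut.none) (xt := xt_pp_011) (P1 := 0) (W1 := 536870912) (P2 := 536870912) (W2 := 536870912) (P3 := 923417968) (W3 := 42949674) (N0 := 3) (En := eng) (mo := mog) (C1 := cd2q0) (C2 := cd0q1) (C3 := pd1)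
    rfl s30_pp_011

noncomputable def f_pp_012 : ℕ → ℕ → ℕ → ℕ → Bool := onCell 0 536870912 0 536870912 923417968 42949674
    (rowB 3 eng mog cd2q0 cd0q2 pd1 0 false true true .pnp 0 1 2 (qsf 0 536870912 0 536870912 1) ndB2q0 ndB0q2 pcB1 Cut.none Ext.none)

def k0_pp_012 : ∃ t, chk3 f_pp_012 t 2 2 1 = true :=
  ⟨(a (b (l 2) (a (l 2) (a (l 2) (a (l 2) (b (l 2) (l 16302496)))))) (a (a (b (a (l 2) (l 15895808)) (a (b (l 16125864) (l 16273088)) (b (l 16103392) (l 16246384)))) (b (a (l 15866792) (l 15807216)) (b (a (l 16068696) (l 16003112)) (a (l 16207320) (l 16137056))))) (b (a (l 15719920) (l 15694136)) (b (c (l 15860232) (l 15827896)) (a (l 16032832) (l 15899464)))))), by decide +kernel⟩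

def k1_pp_012 : ∃ t, chk3 f_pp_012 t 4 3 1 = true :=
  ⟨(b (a (l 2) (b (a (l 2) (a (a (l 16436968) (l 16460184)) (l 16226064))) (a (a (b (l 2) (l 16590496)) (a (b (l 16572184) (l 16535504)) (b (l 16553656) (l 16521072)))) (a (b (l 16468640) (l 16442064)) (b (l 16498616) (l 16479648)))))) (a (b (a (l 2) (b (a (l 2) (l 16611640)) (a (b (l 2) (l 16651120)) (l 16508096)))) (a (b (a (l 2) (b (l 16590792) (l 16589048))) (b (a (c (l 16630696) (l 16624112)) (a (l 16670248) (l 16644024))) (a (b (l 16636032) (a (l 16705448) (l 16679712))) (b (l 16643632) (l 16640824))))) (b (a (b (l 16630464) (l 16614880)) (b (l 16568560) (l 16555304))) (b (a (l 16593008) (l 16526416)) (a (l 16564464) (b (l 16523208) (l 16524704))))))) (a (a (b (b (l 16553840) (l 16523808)) (b (b (l 16505680) (l 16468264)) (b (l 16454872) (l 16454152)))) (b (a (b (l 16505832) (l 16482160)) (b (l 16495776) (l 16454728))) (b (a (b (l 16463744) (l 16417976)) (l 16353656)) (a (b (l 16407160) (a (l 16387568)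 (l 16382320))) (b (l 16398448) (c (l 16389312) (l 16388088))))))) (b (a (b (a (l 16486192) (l 16477272)) (a (l 16468952) (l 16462048))) (b (l 16467224) (l 16390200))) (a (b (a (l 16404152) (l 16392112)) (a (b (l 16388952) (c (l 16380120) (l 16380112))) (b (l 16379056) (l 16382096)))) (b (a (l 16379968) (l 16367944)) (a (b (l 16369176) (l 16373512)) (b (l 16359176) (l 16364792))))))))), by decide +kernel⟩

def k2_pp_012 : ∃ t, chk3 f_pp_012 t 5 3 1 = true :=
  ⟨(b (a (a (b (a (l 16317992) (l 16370648)) (a (l 16336696) (l 16438528))) (b (a (l 16305824) (l 16272008)) (a (l 16379712) (l 16329160)))) (b (a (l 16054008) (l 16012960)) (a (b (l 16217320) (l 16224752)) (b (l 16071920) (l 16088080))))) (a (a (b (a (b (l 16449800) (l 16434664)) (b (l 16432512) (l 16414048))) (a (b (b (l 16357112) (l 16347288)) (b (l 16335624) (a (l 16321696) (l 16275368)))) (b (b (l 16329760) (l 16310792)) (b (l 16270296) (c (l 16272616) (l 16162368)))))) (b (a (b (l 16399600) (l 16379888))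 (b (l 16332520) (l 16318104))) (b (a (b (l 16290904) (l 16258704)) (l 16213536)) (a (b (l 16207968) (a (l 16167704) (l 16128152))) (b (l 16142096) (l 16079848)))))) (b (a (b (l 16232008) (l 16227936)) (b (l 16104136) (l 16114152))) (b (a (c (l 16174704) (l 16168432)) (c (l 16110192) (l 16103640))) (a (b (l 16083184) (a (l 16037104) (l 16014056))) (b (l 16063568) (l 16028224))))))), by decide +kernel⟩

def k3_pp_012 : ∃ t, chk3 f_pp_012 t 3 2 1 = true :=
  ⟨(a (b (a (c (l 15629680) (l 15420480)) (b (l 15258504) (l 15341976))) (a (b (a (l 15668200) (l 15562696)) (c (l 15730912) (l 15699616))) (b (l 15530768) (a (l 15554496) (l 15463528))))) (b (a (b (l 15158112) (l 15222920)) (b (l 15113296) (l 15160448))) (a (b (l 15310080) (c (l 15383880) (l 15324128))) (b (l 15210408) (c (l 15296152) (l 15224640)))))), by decide +kernel⟩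

def k4_pp_012 : ∃ t, chk3 f_pp_012 t 6 3 1 = true :=
  ⟨(b (a (b (c (l 15794168) (l 15809672)) (b (c (l 15843760) (l 15873752)) (c (l 15876024) (l 15900912)))) (b (c (l 15845968) (l 15661032)) (b (a (l 15689720) (l 15691344)) (a (l 15732648) (l 15636672))))) (b (a (b (c (l 15931224) (l 15928640)) (a (l 15988264) (c (l 15921440) (l 15910248)))) (b (a (l 15906432) (c (l 15702048) (l 15690992))) (a (c (l 15840256) (l 15824936)) (c (l 15769408) (l 15750192))))) (a (b (a (c (l 16033928) (l 16022072)) (c (l 15962448) (l 15945304))) (a (b (l 16032304) (l 16021488)) (b (l 15960216) (l 15996624)))) (b (c (a (l 15898424) (l 15882696)) (a (l 15876200) (l 15813232))) (a (c (b (l 15943168) (l 15972192)) (l 15930432)) (c (b (l 15897776) (l 15936976)) (b (l 15864432) (l 15900688)))))))), by decide +kernel⟩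

def k5_pp_012 : ∃ t, chk3 f_pp_012 t 7 3 1 = true :=
  ⟨(b (b (a (c (l 15555640) (l 15401928)) (c (l 15390272) (l 15289864))) (a (b (a (c (l 15499088) (l 15497088)) (c (l 15426184) (l 15421008))) (a (l 15552432) (l 15584736))) (b (a (c (l 15368984) (l 15360496)) (c (l 15328192) (l 15316128))) (a (c (l 15424768) (l 15417072)) (c (l 15378336) (l 15370080)))))) (c (b (a (b (a (l 15629080) (l 15567352)) (a (l 15707552) (l 15656608))) (b (a (l 15517864) (l 15481624)) (a (l 15618336) (l 15593384)))) (a (b (a (b (l 15769992) (l 15813656)) (b (l 15728272) (l 15778848))) (a (b (l 15859496) (l 15907384)) (b (l 15831976) (l 15929712)))) (b (a (b (l 15699304) (l 15756552)) (b (l 15683768) (l 15747744))) (a (b (l 15816752) (a (l 15880872) (l 15880280))) (b (l 15815040) (a (l 15883136) (l 15889592))))))) (b (a (b (a (l 15615144) (l 15550920)) (a (l 15684408) (l 15629872))) (b (a (l 15499504) (l 15462128)) (a (l 15588752) (l 15561776)))) (a (b (a (l 15863896) (l 15820728))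 (a (b (l 15819704) (l 15863536)) (b (l 15786640) (l 15837600)))) (b (a (b (l 15661048) (l 15712456)) (b (l 15642848) (l 15700600))) (a (b (l 15766896) (l 15866752)) (b (l 15761744) (a (l 15824816) (l 15829664))))))))), by decide +kernel⟩

theorem s6_pp_012 : ∃ t, chk3 f_pp_012 t 3 3 1 = true := ex3_a k4_pp_012 k5_pp_012

theorem s7_pp_012 : ∃ t, chk3 f_pp_012 t 3 1 1 = true := ex3_b k3_pp_012 s6_pp_012

theorem s8_pp_012 : ∃ t, chk3 f_pp_012 t 2 3 1 = true := ex3_a k1_pp_012 k2_pp_012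

theorem s9_pp_012 : ∃ t, chk3 f_pp_012 t 2 1 1 = true := ex3_b k0_pp_012 s8_pp_012

theorem s10_pp_012 : ∃ t, chk3 f_pp_012 t 1 1 1 = true := ex3_a s9_pp_012 s7_pp_012

theorem c_pp_012 : CertB 0 536870912 0 536870912 923417968 42949674 3 eng mog cd2q0 cd0q2 pd1 false true true .pnp 0 1 2
    ndB2q0 ndB0q2 pcB1 Cut.none Ext.none :=
  certB0 (fam := false) (s1 := true) (s2 := true) (a := 0) (b := 1) (c := 2) (cn := .pnp) (n1 := ndB2q0) (n2 := ndB0q2) (pc := pcB1) (cut := Cut.none) (xt := Ext.none) (P1 := 0) (W1 := 536870912) (P2 := 0) (W2 := 536870912) (P3 := 923417968) (W3 := 42949674) (N0 := 3) (En := eng) (mo := mog) (C1 := cd2q0) (C2 := cd0q2) (C3 := pd1)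
    rfl s10_pp_012

noncomputable def f_pp_022 : ℕ → ℕ → ℕ → ℕ → Bool := onCell 0 536870912 0 536870912 923417968 42949674
    (rowB 3 eng mog cd2q0 cd0q2 pd2 0 false true true .pp 0 2 2 (qsf 0 536870912 0 536870912 2) ndB2q0 ndB0q2 pcB2 Cut.none Ext.none)

def k0_pp_022 : ∃ t, chk3 f_pp_022 t 2 2 1 = true :=
  ⟨(a (b (a (a (b (l 16474824) (l 16473408)) (b (l 16353848) (l 16418872))) (a (a (l 16113832) (a (b (l 16180000) (l 16274720)) (b (l 16156408) (l 16258168)))) (a (b (l 16123040) (l 16151600)) (b (l 16071216) (l 16197984))))) (a (a (b (b (l 16457472) (l 16390792)) (a (l 16320600) (l 16486776))) (b (b (l 16477288) (l 16519472)) (b (l 16545424) (l 16564528)))) (a (a (b (l 16422216) (b (l 16490904) (l 16501232))) (b (a (l 16383848) (l 16374256)) (a (b (l 16428176) (l 16478704)) (b (l 16451016) (l 16462656))))) (a (b (a (l 16363920) (l 16353224)) (b (a (l 16472032) (l 16469808)) (a (l 16490136) (l 16498560)))) (b (a (l 16342144) (l 16330704)) (b (a (l 16464512)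 (l 16457536)) (a (l 16506248) (l 16452136)))))))) (a (a (b (a (b (l 16018224) (l 16159416)) (b (l 15964136) (l 16119776))) (b (a (b (l 16273672) (l 16356336)) (l 1278858650439)) (a (b (l 31707994263) (a (l 666826546647) (l 1))) (l 1)))) (b (b (l 1) (l 1)) (l 1))) (l 1))), by decide +kernel⟩

def k1_pp_022 : ∃ t, chk3 f_pp_022 t 2 3 1 = true :=
  ⟨(b (a (a (b (a (a (b (l 16412336) (l 16391656)) (b (l 16483960) (l 16532560))) (b (l 16471040) (a (l 16607544) (l 16548480)))) (b (a (a (l 16389536) (l 16557304)) (b (l 16444120) (l 16412352))) (a (c (l 16390616) (l 16353824)) (a (l 16508808) (l 16432616))))) (a (a (b (b (l 16500624) (l 16490168)) (b (l 16422752) (b (l 16433016) (l 16405096)))) (b (a (b (l 16430168) (a (l 16456160) (l 16453504))) (b (l 16452584) (l 16390560))) (a (b (a (b (l 16434656) (l 16414640)) (l 16420856)) (b (a (l 16389552) (l 16383784)) (l 1))) (b (a (l 288869465463) (l 317860485463)) (l 1))))) (b (b (a (a (l 16455568) (l 16460440)) (a (l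 16467136) (l 16496600))) (a (a (l 127271154727) (l 262025754967)) (l 1))) (a (a (b (c (l 412886714055) (l 190621820887)) (l 1)) (l 1)) (l 1))))) (l 1)) (a (a (b (a (a (b (l 16480096) (c (l 16559888) (l 16571072))) (b (l 16480648) (c (l 16472640) (l 16469720)))) (b (a (l 16395368) (b (l 16453568) (l 16375000))) (a (b (l 16463520) (c (l 16424224) (l 16404216))) (b (c (l 16363136) (l 16359384)) (a (l 500396475447) (l 1)))))) (a (b (a (b (l 16474392) (a (l 16526896) (l 16475088))) (b (l 16331608) (a (l 16401512) (l 371010514839)))) (a (a (b (b (l 16467840) (l 16473912)) (b (l 16443040) (l 322155428295))) (b (b (l 16427024) (a (l 16415280) (l 466573721479))) (a (b (l 502544066855) (l 1)) (l 1)))) (a (b (b (l 434361399591) (l 1)) (l 1)) (l 1)))) (b (a (b (c (l 233034474135) (l 222833834951)) (l 1)) (l 1)) (l 1)))) (a (a (b (b (b (l 201896011287) (c (l 425771368375) (l 238939979943))) (l 1)) (l 1)) (l 1)) (l 1))) (l 1))), by decide +kernel⟩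

def k2_pp_022 : ∃ t, chk3 f_pp_022 t 3 1 1 = true :=
  ⟨(l 1), by decide +kernel⟩

theorem s3_pp_022 : ∃ t, chk3 f_pp_022 t 2 1 1 = true := ex3_b k0_pp_022 k1_pp_022

theorem s4_pp_022 : ∃ t, chk3 f_pp_022 t 1 1 1 = true := ex3_a s3_pp_022 k2_pp_022

theorem c_pp_022 : CertB 0 536870912 0 536870912 923417968 42949674 3 eng mog cd2q0 cd0q2 pd2 false true true .pp 0 2 2
    ndB2q0 ndB0q2 pcB2 Cut.none Ext.none :=
  certB0 (fam := false) (s1 := true) (s2 := true) (a := 0) (b := 2) (c := 2) (cn := .pp) (n1 := ndB2q0) (n2 := ndB0q2) (pc := pcB2) (cut := Cut.none) (xt := Ext.none) (P1 := 0) (W1 := 536870912) (P2 := 0) (W2 := 536870912) (P3 := 923417968) (W3 := 42949674) (N0 := 3) (En := eng) (mo := mog) (C1 := cd2q0) (C2 := cd0q2) (C3 := pd2)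
    rfl s4_pp_022

noncomputable def cut_pp_101 : Cut := Cut.of [[⟨0, 1, 0, 67108864⟩, ⟨1, 0, 0, 67108864⟩, ⟨2, 1, 0, 67108864⟩]]

noncomputable def f_pp_101 : ℕ → ℕ → ℕ → ℕ → Bool := onCell 0 536870912 536870912 536870912 923417968 42949674
    (rowB 3 eng mog cd2q1 cd0q1 pd0 2 false true true .npn 1 0 1 (qsf 536870912 536870912 536870912 536870912 0) ndB2q1 ndB0q1 pcB0 cut_pp_101 Ext.none)

def k0_pp_101 : ∃ t, chk3 f_pp_101 t 1 1 1 = true :=
  ⟨(b (l 3) (b (l 3) (b (l 3) (a (b (l 3) (b (l 3) (b (a (l 3) (a (a (l 3) (a (l 3) (l 1018074480263))) (a (c (l 259475853863) (l 232095458807)) (c (l 243369677079) (l 230484774135))))) (a (a (a (l 6) (a (l 6) (b (l 3) (a (l 6) (c (l 266992450407) (b (l 273971722855) (l 16673624))))))) (a (a (b (l 3) (a (c (l 16686016) (l 265918626615)) (c (l 16675920) (l 16638656)))) (b (a (l 3) (l 1120080157159)) (c (l 16647120) (a (l 16636888) (l 16645880))))) (c (a (b (l 274508502311) (l 16662496)) (l 259476074599)) (a (b (l 275582171703)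 (l 16607640)) (a (l 257865405063) (l 253570416807)))))) (a (a (a (c (l 250886107207) (b (l 255717863143) (l 16588352))) (c (l 16596688) (l 246054142359))) (a (c (l 16605720) (l 16538600)) (c (l 16594360) (l 16525488)))) (a (c (l 16542472) (l 16496984)) (c (l 16517536) (l 16506616)))))))) (b (l 3) (a (a (b (l 3) (a (c (b (l 235853417623) (l 16470568)) (l 228337217831)) (b (a (l 16346696) (l 16323704)) (l 16303328)))) (b (a (l 3) (l 3)) (a (b (a (l 16301688) (l 16301744)) (l 16281664)) (c (b (l 16309048) (l 16343472)) (l 16401784))))) (b (b (l 3) (a (a (a (l 371681344791) (l 239611065239)) (a (l 239074159047) (l 238537258519))) (a (a (l 239074093831) (l 239074062887)) (a (l 240147778471) (l 756483351367))))) (c (a (a (l 16208432) (l 16200280)) (a (l 16192960) (l 16163728))) (a (a (l 16367368) (l 16337056)) (a (l 16306376) (l 16273144))))))))))), by decide +kernel⟩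

theorem c_pp_101 : CertB 536870912 536870912 536870912 536870912 923417968 42949674 3 eng mog cd2q1 cd0q1 pd0 false true true .npn 1 0 1
    ndB2q1 ndB0q1 pcB0 cut_pp_101 Ext.none :=
  certB2 (fam := false) (s1 := true) (s2 := true) (a := 1) (b := 0) (c := 1) (cn := .npn) (n1 := ndB2q1) (n2 := ndB0q1) (pc := pcB0) (cut := cut_pp_101) (xt := Ext.none) (P1 := 536870912) (W1 := 536870912) (P2 := 536870912) (W2 := 536870912) (P3 := 923417968) (W3 := 42949674) (N0 := 3) (En := eng) (mo := mog) (C1 := cd2q1) (C2 := cd0q1) (C3 := pd0)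
    rfl (fun _ => rfl) k0_pp_101

noncomputable def cut_pp_102 : Cut := Cut.of [[⟨0, 1, 0, 67108864⟩, ⟨1, 0, 0, 67108864⟩, ⟨2, 1, 0, 67108864⟩]]

noncomputable def f_pp_102 : ℕ → ℕ → ℕ → ℕ → Bool := onCell 0 536870912 0 536870912 923417968 42949674
    (rowB 3 eng mog cd2q1 cd0q2 pd0 2 false true true .npp 1 0 2 (qsf 536870912 536870912 0 536870912 0) ndB2q1 ndB0q2 pcB0 cut_pp_102 Ext.none)

def k0_pp_102 : ∃ t, chk3 f_pp_102 t 2 2 1 = true :=
  ⟨(a (b (l 2) (a (l 2) (a (l 2) (a (l 2) (b (l 2) (a (l 2) (l 15260912))))))) (a (b (a (a (l 2) (b (l 14636608) (l 14820864))) (a (b (l 14708448) (l 14856208)) (b (l 14694216) (l 14882720)))) (a (a (b (l 15255128) (a (l 15284008) (l 15307832))) (b (l 15256584) (b (l 15273000) (l 15544064)))) (b (a (l 15294064) (l 15123544)) (a (b (l 15311504) (a (l 15454664) (l 15459696))) (b (l 15322920) (l 15456264)))))) (b (b (a (b (l 14701840) (l 14767280)) (b (l 14754920) (l 14825816))) (a (l 15128672) (l 15108136))) (b (a (c (l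 15224344) (l 15065032)) (a (l 15163184) (l 15386176))) (a (b (a (l 15334664) (l 15338544)) (l 15579456)) (b (l 15587584) (l 15464272))))))), by decide +kernel⟩

def k1_pp_102 : ∃ t, chk3 f_pp_102 t 4 6 1 = true :=
  ⟨(a (l 2) (b (a (l 2) (a (a (b (l 2) (b (l 2) (l 15596200))) (b (l 15429160) (b (l 15541864) (l 15619304)))) (a (b (l 15452960) (l 15600624)) (b (l 15478096) (l 15623704))))) (a (a (b (l 2) (a (l 2) (l 15856080))) (a (b (a (l 2) (l 15684184)) (a (l 15857288) (l 15865552))) (b (l 15701408) (l 15921608)))) (a (a (b (l 15721624) (l 15896192)) (b (l 15740976) (l 15911880))) (b (a (l 15759480) (l 15777168)) (l 15914288)))))), by decide +kernel⟩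

def k2_pp_102 : ∃ t, chk3 f_pp_102 t 4 7 1 = true :=
  ⟨(a (a (b (l 2) (l 6)) (a (b (b (l 2) (l 6)) (l 6)) (a (b (b (l 2) (l 6)) (l 6)) (b (b (b (l 2) (l 16098184)) (b (l 16200672) (l 16306664))) (b (b (l 16415248) (l 16546456)) (b (b (l 16579496) (l 16632744)) (b (l 16609360) (c (l 16699560) (l 16638968))))))))) (a (b (a (b (a (l 16031984) (l 16028712)) (b (l 16244576) (l 16288728))) (b (a (c (l 16056368) (l 16032720)) (l 16068944)) (a (b (l 16208792) (l 16315824)) (l 16340000)))) (b (a (b (c (l 16429992) (l 16408360)) (b (l 16502432) (a (l 16556000) (l 16554488)))) (a (b (l 16425280) (b (l 16508288) (l 16529832))) (b (l 16431200) (b (l 16509432) (l 16543320))))) (a (b (b (a (l 16594720) (l 16586856)) (c (l 16627368) (l 16610528))) (b (a (l 16609976) (l 16600008)) (c (a (l 16690088) (l 16680512)) (c (l 16626808) (l 16635968))))) (b (b (l 16574016) (l 16579664)) (b (c (l 16638864) (l 16614568)) (c (l 16666160) (l 16597296))))))) (b (a (b (a (l 16081560) (l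 16093376)) (a (l 16301208) (l 16287856))) (b (l 16141992) (a (l 16294720) (l 16300872)))) (b (a (b (b (l 16412512) (l 16463720)) (b (l 16504312) (l 16531416))) (b (l 16440592) (l 16503704))) (b (a (c (l 16582088) (l 16556912)) (l 16469040)) (a (b (l 16544688) (a (l 16574576) (l 16564568))) (c (l 16617712) (l 16521304)))))))), by decide +kernel⟩

def k3_pp_102 : ∃ t, chk3 f_pp_102 t 5 3 1 = true :=
  ⟨(a (b (a (b (a (b (a (l 15501120) (l 15522912)) (l 15655192)) (b (a (l 15544328) (l 15566240)) (l 15692080))) (a (a (l 15874592) (l 15888992)) (b (l 15833824) (l 15985088)))) (b (a (l 15714544) (l 15651056)) (a (l 15948656) (l 15929840)))) (b (a (b (a (l 16129336) (l 16145688)) (a (l 16309064) (l 16316888))) (b (a (l 16156544) (l 16159792)) (b (l 16281952) (a (l 16361904) (l 16358488))))) (b (a (b (a (l 16437328) (l 16429384)) (a (l 16489536) (l 16476712))) (b (l 16413552) (l 16459648))) (a (b (a (l 16495496) (l 16481848)) (c (a (l 16602440) (l 16589272)) (b (l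 16546360) (l 16505472)))) (b (c (l 16525336) (l 16484848)) (c (l 16571720) (l 16528568))))))) (b (b (a (l 15632064) (l 15661512)) (a (c (l 15968144) (l 15901480)) (l 16009288))) (b (b (a (l 16166192) (l 16177168)) (a (b (l 16288912) (l 16348712)) (b (l 16288376) (l 16337048)))) (b (a (b (l 16395144) (l 16439816)) (l 16401752)) (a (b (l 16463272) (c (l 16550304) (l 16503432))) (b (l 16465512) (l 16423080))))))), by decide +kernel⟩

def k4_pp_102 : ∃ t, chk3 f_pp_102 t 3 1 1 = true :=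
  ⟨(b (a (a (b (b (a (b (l 14807280) (l 14877128)) (c (l 15034736) (l 14743680))) (a (l 15059840) (l 15046568))) (b (a (b (l 15130656) (l 15359568)) (b (l 15168112) (l 15242136))) (l 15401432))) (b (b (a (l 14939776) (l 14981152)) (a (l 15047160) (b (l 15038416) (l 15092168)))) (b (a (b (l 15154376) (l 15269192)) (l 15239720)) (l 15469448)))) (b (b (a (a (l 15016840) (l 15046432)) (a (c (l 15197712) (l 14942160)) (b (l 15098800) (l 15091576)))) (a (a (b (l 15054752) (l 15109880)) (b (l 15072192) (l 15151656))) (a (l 15153032) (l 15210232)))) (a (b (l 15297328) (l 15536008)) (b (l 15391848) (l 15618328))))) (b (a (a (b (a (l 15675600) (l 15694408)) (b (l 15894496) (l 16043160))) (b (l 15793032) (b (l 15936232) (l 16080032)))) (b (a (l 15788544) (l 15856392)) (a (b (l 15985632) (l 16038856)) (b (l 16039560) (l 16092536))))) (a (b (a (a (b (l 16191416) (l 16303816)) (b (l 16200872) (l 16297752))) (b (a (l 16206520) (l 16209936)) (l 16203280))) (a (b (a (l 16388192)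 (l 16375856)) (a (b (l 16448864) (l 16404096)) (b (l 16432624) (l 16405752)))) (b (a (l 16362952) (l 16348528)) (a (b (l 16414600) (l 16385904)) (l 16219568))))) (b (a (b (l 16211520) (l 16270920)) (b (l 16215456) (l 16253464))) (a (b (l 16215632) (a (l 16234792) (l 16204656))) (b (l 16285224) (a (l 16237328) (l 16250352)))))))), by decide +kernel⟩

theorem s5_pp_102 : ∃ t, chk3 f_pp_102 t 4 3 1 = true := ex3_b k1_pp_102 k2_pp_102

theorem s6_pp_102 : ∃ t, chk3 f_pp_102 t 2 3 1 = true := ex3_a s5_pp_102 k3_pp_102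

theorem s7_pp_102 : ∃ t, chk3 f_pp_102 t 2 1 1 = true := ex3_b k0_pp_102 s6_pp_102

theorem s8_pp_102 : ∃ t, chk3 f_pp_102 t 1 1 1 = true := ex3_a s7_pp_102 k4_pp_102

theorem c_pp_102 : CertB 536870912 536870912 0 536870912 923417968 42949674 3 eng mog cd2q1 cd0q2 pd0 false true true .npp 1 0 2
    ndB2q1 ndB0q2 pcB0 cut_pp_102 Ext.none :=
  certB2 (fam := false) (s1 := true) (s2 := true) (a := 1) (b := 0) (c := 2) (cn := .npp) (n1 := ndB2q1) (n2 := ndB0q2) (pc := pcB0) (cut := cut_pp_102) (xt := Ext.none) (P1 := 536870912) (W1 := 536870912) (P2 := 0) (W2 := 536870912) (P3 := 923417968) (W3 := 42949674) (N0 := 3) (En := eng) (mo := mog) (C1 := cd2q1) (C2 := cd0q2) (C3 := pd0)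
    rfl (fun _ => rfl) s8_pp_102

noncomputable def f_pp_112 : ℕ → ℕ → ℕ → ℕ → Bool := onCell 536870912 536870912 0 536870912 923417968 42949674
    (rowB 3 eng mog cd2q1 cd0q2 pd1 2 false true true .dn 1 1 2 (qsf 536870912 536870912 0 536870912 1) ndB2q1 ndB0q2 pcB1 Cut.none Ext.none)

def k0_pp_112 : ∃ t, chk3 f_pp_112 t 1 1 1 = true :=
  ⟨(a (b (a (a (b (b (a (l 15439336) (l 15454712)) (l 15455048)) (b (l 15481800) (l 15519096))) (b (b (b (l 15461312) (l 15465200)) (l 15486392)) (b (l 15522040) (l 15565512)))) (a (b (l 15475336) (b (l 15541336) (l 15593632))) (l 1))) (a (b (a (b (c (l 15591200) (l 15538144)) (b (c (l 15613312) (l 15590960)) (a (b (l 15609624) (l 15656904)) (b (l 15642592) (l 15695912))))) (b (c (l 15637440) (l 15593584)) (b (a (l 15641504) (l 15666008)) (a (c (l 15705336) (l 15696224)) (l 1))))) (b (a (a (b (l 15759760) (l 15978240)) (b (l 15788176) (l 15907496))) (a (b (l 15810088) (l 1)) (l 1))) (a (b (a (l 16022736) (l 15998192)) (a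 (c (l 16161440) (l 16113832)) (l 1))) (l 1)))) (b (l 1) (l 1)))) (l 1)), by decide +kernel⟩

theorem c_pp_112 : CertB 536870912 536870912 0 536870912 923417968 42949674 3 eng mog cd2q1 cd0q2 pd1 false true true .dn 1 1 2
    ndB2q1 ndB0q2 pcB1 Cut.none Ext.none :=
  certB2 (fam := false) (s1 := true) (s2 := true) (a := 1) (b := 1) (c := 2) (cn := .dn) (n1 := ndB2q1) (n2 := ndB0q2) (pc := pcB1) (cut := Cut.none) (xt := Ext.none) (P1 := 536870912) (W1 := 536870912) (P2 := 0) (W2 := 536870912) (P3 := 923417968) (W3 := 42949674) (N0 := 3) (En := eng) (mo := mog) (C1 := cd2q1) (C2 := cd0q2) (C3 := pd1)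
    rfl (fun _ => rfl) k0_pp_112

noncomputable def f_pp_202 : ℕ → ℕ → ℕ → ℕ → Bool := onCell 1073741824 536870912 0 536870912 923417968 42949674
    (rowB 3 eng mog cd2q2 cd0q2 pd0 0 false true true .pp 2 0 2 (qsf 1073741824 536870912 0 536870912 0) ndB2q2 ndB0q2 pcB0 Cut.none Ext.none)

def k0_pp_202 : ∃ t, chk3 f_pp_202 t 1 1 1 = true :=
  ⟨(l 3), by decide +kernel⟩

theorem c_pp_202 : CertB 1073741824 536870912 0 536870912 923417968 42949674 3 eng mog cd2q2 cd0q2 pd0 false true true .pp 2 0 2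
    ndB2q2 ndB0q2 pcB0 Cut.none Ext.none :=
  certB0 (fam := false) (s1 := true) (s2 := true) (a := 2) (b := 0) (c := 2) (cn := .pp) (n1 := ndB2q2) (n2 := ndB0q2) (pc := pcB0) (cut := Cut.none) (xt := Ext.none) (P1 := 1073741824) (W1 := 536870912) (P2 := 0) (W2 := 536870912) (P3 := 923417968) (W3 := 42949674) (N0 := 3) (En := eng) (mo := mog) (C1 := cd2q2) (C2 := cd0q2) (C3 := pd0)
    rfl k0_pp_202

noncomputable def f_pm_001 : ℕ → ℕ → ℕ → ℕ → Bool := onCell 0 536870912 0 536870912 923417968 42949674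
    (rowB 3 eng mog cd2q0 cd0q1 pd0 1 false true false .up 0 0 1 (qsf 0 536870912 536870912 536870912 0) ndB2q0 ndB0q1 pcB0 Cut.none Ext.none)

def k0_pm_001 : ∃ t, chk3 f_pm_001 t 1 1 1 = true :=
  ⟨(l 4), by decide +kernel⟩

theorem c_pm_001 : CertB 0 536870912 536870912 536870912 923417968 42949674 3 eng mog cd2q0 cd0q1 pd0 false true false .up 0 0 1
    ndB2q0 ndB0q1 pcB0 Cut.none Ext.none :=
  certB1 (fam := false) (s1 := true) (s2 := false) (a := 0) (b := 0) (c := 1) (cn := .up) (n1 := ndB2q0) (n2 := ndB0q1) (pc := pcB0) (cut := Cut.none) (xt := Ext.none) (P1 := 0) (W1 := 536870912) (P2 := 536870912) (W2 := 536870912) (P3 := 923417968) (W3 := 42949674) (N0 := 3) (En := eng) (mo := mog) (C1 := cd2q0) (C2 := cd0q1) (C3 := pd0)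
    rfl (fun _ => rfl) k0_pm_001

noncomputable def f_pm_011 : ℕ → ℕ → ℕ → ℕ → Bool := onCell 0 536870912 536870912 536870912 923417968 42949674
    (rowB 3 eng mog cd2q0 cd0q1 pd1 0 false true false .pnn 0 1 1 (qsf 0 536870912 536870912 536870912 1) ndB2q0 ndB0q1 pcB1 Cut.none Ext.none)

def k0_pm_011 : ∃ t, chk3 f_pm_011 t 1 1 1 = true :=
  ⟨(a (b (l 4) (l 4)) (l 4)), by decide +kernel⟩

theorem c_pm_011 : CertB 0 536870912 536870912 536870912 923417968 42949674 3 eng mog cd2q0 cd0q1 pd1 false true false .pnn 0 1 1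
    ndB2q0 ndB0q1 pcB1 Cut.none Ext.none :=
  certB0 (fam := false) (s1 := true) (s2 := false) (a := 0) (b := 1) (c := 1) (cn := .pnn) (n1 := ndB2q0) (n2 := ndB0q1) (pc := pcB1) (cut := Cut.none) (xt := Ext.none) (P1 := 0) (W1 := 536870912) (P2 := 536870912) (W2 := 536870912) (P3 := 923417968) (W3 := 42949674) (N0 := 3) (En := eng) (mo := mog) (C1 := cd2q0) (C2 := cd0q1) (C3 := pd1)
    rfl k0_pm_011

noncomputable def f_pm_012 : ℕ → ℕ → ℕ → ℕ → Bool := onCell 536870912 536870912 0 536870912 923417968 42949674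
    (rowB 3 eng mog cd2q0 cd0q2 pd1 2 false true false .pnp 0 1 2 (qsf 0 536870912 0 536870912 1) ndB2q0 ndB0q2 pcB1 Cut.none Ext.none)

def k0_pm_012 : ∃ t, chk3 f_pm_012 t 2 1 1 = true :=
  ⟨(b (a (b (l 2) (b (l 2) (b (l 2) (l 4)))) (b (b (b (a (a (l 15098912) (l 15083936)) (l 15093072)) (a (a (l 15105504) (l 15078456)) (a (l 15071048) (l 15081696)))) (b (a (l 15165776) (a (l 15076832) (a (l 15069376) (l 15073224)))) (a (a (l 15167408) (l 15144640)) (a (l 15122856) (l 15102080))))) (b (a (l 15134880) (b (a (l 15145696) (l 15146648)) (l 15147592))) (a (b (l 15111856) (l 4)) (b (l 15150920) (l 4)))))) (b (l 4) (l 4))), by decide +kernel⟩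

def k1_pm_012 : ∃ t, chk3 f_pm_012 t 3 1 1 = true :=
  ⟨(a (b (b (b (a (l 15141152) (l 15251416)) (a (a (b (l 15088744) (a (l 15092088) (l 15095128))) (b (l 15125832) (b (l 15112832) (l 15113584)))) (l 15196432))) (a (b (b (a (b (l 15132960) (l 15161112)) (b (l 15127720) (l 15160960))) (a (l 15178616) (b (l 15191096) (l 15209400)))) (a (l 15236856) (l 15264496))) (b (c (a (l 15439944) (l 15290888)) (a (a (b (l 15166624) (l 15154040)) (b (l 15107464) (l 15171976))) (a (b (l 15137816) (b (l 15135384) (l 15193264))) (l 15216008)))) (a (l 15293984) (c (l 15367848) (a (l 15365144) (l 15363528))))))) (b (a (l 4) (l 4)) (l 4))) (b (a (b (a (l 15333680) (l 15419880)) (b (a (b (l 15277024) (c (l 15346368) (l 15416992))) (l 15358304)) (c (a (a (l 15394080) (l 15413744)) (b (l 15428136) (l 15473752))) (a (a (l 15342784) (b (b (l 15257288) (l 15307720)) (l 15353568))) (b (l 15367152) (a (l 15376192) (l 15390224))))))) (b (a (l 15620488) (a (l 15593032) (b (l 15682752)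 (b (l 15612080) (l 15576456))))) (a (b (l 15449672) (a (c (l 15499440) (l 15558976)) (b (l 15483984) (a (l 15643584) (l 15657440))))) (b (a (b (l 15523904) (l 15517408)) (b (l 15550432) (l 15534216))) (a (b (l 15515168) (l 15642344)) (b (l 15672104) (a (l 15519176) (l 15523728)))))))) (b (b (a (a (l 15708376) (b (l 15515688) (l 4))) (b (b (a (a (l 15523456) (a (l 15534488) (l 15525592))) (a (a (l 15520360) (l 15520232)) (l 15737496))) (a (a (l 15570976) (l 15564424)) (a (a (l 15545760) (l 15535744)) (a (l 15532296) (l 15534784))))) (b (a (l 4) (a (a (l 4) (l 15570776)) (a (l 15560600) (l 15595544)))) (l 4)))) (l 4)) (l 4)))), by decide +kernel⟩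

theorem s2_pm_012 : ∃ t, chk3 f_pm_012 t 1 1 1 = true := ex3_a k0_pm_012 k1_pm_012

theorem c_pm_012 : CertB 0 536870912 0 536870912 923417968 42949674 3 eng mog cd2q0 cd0q2 pd1 false true false .pnp 0 1 2
    ndB2q0 ndB0q2 pcB1 Cut.none Ext.none :=
  certB2 (fam := false) (s1 := true) (s2 := false) (a := 0) (b := 1) (c := 2) (cn := .pnp) (n1 := ndB2q0) (n2 := ndB0q2) (pc := pcB1) (cut := Cut.none) (xt := Ext.none) (P1 := 0) (W1 := 536870912) (P2 := 0) (W2 := 536870912) (P3 := 923417968) (W3 := 42949674) (N0 := 3) (En := eng) (mo := mog) (C1 := cd2q0) (C2 := cd0q2) (C3 := pd1)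
    rfl (fun _ => rfl) s2_pm_012

noncomputable def f_pm_022 : ℕ → ℕ → ℕ → ℕ → Bool := onCell 0 536870912 0 536870912 923417968 42949674
    (rowB 3 eng mog cd2q0 cd0q2 pd2 0 false true false .pp 0 2 2 (qsf 0 536870912 0 536870912 2) ndB2q0 ndB0q2 pcB2 Cut.none Ext.none)

def k0_pm_022 : ∃ t, chk3 f_pm_022 t 1 1 1 = true :=
  ⟨(a (b (a (b (a (a (b (l 16450504) (l 16436352)) (b (l 16302880) (l 16259320))) (a (a (l 16132592) (a (l 16015992) (l 16023416))) (a (b (l 16022152) (l 15925456)) (a (l 15915736) (l 15878936))))) (a (a (b (l 16433032) (a (l 16481680) (l 16369968))) (b (l 16181224) (a (l 16246512) (l 16112192)))) (a (a (b (l 16038120) (l 15967912)) (b (a (l 15945288) (l 15899296)) (a (l 15924656) (l 15807704)))) (a (b (l 15832392) (a (l 15752888) (l 15697704))) (b (l 15903496) (a (l 15642216) (l 15586472))))))) (a (a (b (a (b (l 15888144) (l 15761664)) (b (l 15819472) (l 15678296))) (a (b (l 15638216) (a (l 15530544) (l 15474496))) (b (l 15540096) (l 1))))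 (b (b (l 1) (l 1)) (l 1))) (l 1))) (b (a (a (b (a (a (l 16467024) (l 16250904)) (a (l 16190912) (l 16036432))) (a (a (b (l 16445488) (l 16311992)) (b (l 16297448) (l 16294968))) (b (a (l 16143624) (l 15965400)) (l 4)))) (a (a (b (b (l 15898912) (l 15846560)) (b (l 15827168) (l 4))) (b (a (b (l 15782240) (l 75932079959)) (b (l 15722088) (l 15665752))) (l 4))) (b (a (a (b (l 15661240) (l 15606592)) (b (l 15600160) (l 15548720))) (b (l 552471693319) (l 1))) (l 4)))) (l 1)) (a (a (l 4) (l 4)) (l 1)))) (l 1)), by decide +kernel⟩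

theorem c_pm_022 : CertB 0 536870912 0 536870912 923417968 42949674 3 eng mog cd2q0 cd0q2 pd2 false true false .pp 0 2 2
    ndB2q0 ndB0q2 pcB2 Cut.none Ext.none :=
  certB0 (fam := false) (s1 := true) (s2 := false) (a := 0) (b := 2) (c := 2) (cn := .pp) (n1 := ndB2q0) (n2 := ndB0q2) (pc := pcB2) (cut := Cut.none) (xt := Ext.none) (P1 := 0) (W1 := 536870912) (P2 := 0) (W2 := 536870912) (P3 := 923417968) (W3 := 42949674) (N0 := 3) (En := eng) (mo := mog) (C1 := cd2q0) (C2 := cd0q2) (C3 := pd2)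
    rfl k0_pm_022

noncomputable def f_pm_101 : ℕ → ℕ → ℕ → ℕ → Bool := onCell 536870912 536870912 536870912 536870912 923417968 42949674
    (rowB 3 eng mog cd2q1 cd0q1 pd0 0 false true false .npn 1 0 1 (qsf 536870912 536870912 536870912 536870912 0) ndB2q1 ndB0q1 pcB0 Cut.none Ext.none)

def k0_pm_101 : ∃ t, chk3 f_pm_101 t 1 1 1 = true :=
  ⟨(l 4), by decide +kernel⟩

theorem c_pm_101 : CertB 536870912 536870912 536870912 536870912 923417968 42949674 3 eng mog cd2q1 cd0q1 pd0 false true false .npn 1 0 1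
    ndB2q1 ndB0q1 pcB0 Cut.none Ext.none :=
  certB0 (fam := false) (s1 := true) (s2 := false) (a := 1) (b := 0) (c := 1) (cn := .npn) (n1 := ndB2q1) (n2 := ndB0q1) (pc := pcB0) (cut := Cut.none) (xt := Ext.none) (P1 := 536870912) (W1 := 536870912) (P2 := 536870912) (W2 := 536870912) (P3 := 923417968) (W3 := 42949674) (N0 := 3) (En := eng) (mo := mog) (C1 := cd2q1) (C2 := cd0q1) (C3 := pd0)
    rfl k0_pm_101

noncomputable def f_pm_102 : ℕ → ℕ → ℕ → ℕ → Bool := onCell 536870912 536870912 0 536870912 923417968 42949674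
    (rowB 3 eng mog cd2q1 cd0q2 pd0 0 false true false .npp 1 0 2 (qsf 536870912 536870912 0 536870912 0) ndB2q1 ndB0q2 pcB0 Cut.none Ext.none)

def k0_pm_102 : ∃ t, chk3 f_pm_102 t 1 1 1 = true :=
  ⟨(a (b (b (a (l 2) (a (b (b (l 15145608) (a (l 15211656) (l 15159272))) (a (l 15246104) (l 15188176))) (b (a (l 15096288) (l 15042536)) (l 15097952)))) (b (a (l 2) (a (l 15127376) (c (l 15236200) (l 15029368)))) (b (a (l 2) (a (c (l 15354104) (l 15210256)) (l 15411888))) (l 4)))) (l 4)) (b (a (b (b (a (a (l 14987600) (l 14932880)) (a (l 14878416) (l 14822608))) (a (c (l 15110008) (l 14836048)) (c (l 14963080) (l 14717768)))) (b (a (c (l 15091488) (l 14895088)) (a (l 14876016) (l 14787544))) (b (a (a (l 15048472) (l 14962856)) (l 15025728)) (l 4)))) (b (a (b (c (l 14861888) (l 14600328)) (c (l 14796936) (l 14581440))) (a (b (l 14635992) (l 14562104)) (b (l 14563664) (l 14467816)))) (a (b (a (l 14691416) (l 14587920)) (a (b (l 14652352) (l 14628552)) (b (l 14531088)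 (l 14498080)))) (b (a (l 14477272) (l 14359632)) (a (b (l 14402112) (l 14358232)) (b (l 14266240) (l 14210104))))))) (l 4))), by decide +kernel⟩

theorem c_pm_102 : CertB 536870912 536870912 0 536870912 923417968 42949674 3 eng mog cd2q1 cd0q2 pd0 false true false .npp 1 0 2
    ndB2q1 ndB0q2 pcB0 Cut.none Ext.none :=
  certB0 (fam := false) (s1 := true) (s2 := false) (a := 1) (b := 0) (c := 2) (cn := .npp) (n1 := ndB2q1) (n2 := ndB0q2) (pc := pcB0) (cut := Cut.none) (xt := Ext.none) (P1 := 536870912) (W1 := 536870912) (P2 := 0) (W2 := 536870912) (P3 := 923417968) (W3 := 42949674) (N0 := 3) (En := eng) (mo := mog) (C1 := cd2q1) (C2 := cd0q2) (C3 := pd0)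
    rfl k0_pm_102

noncomputable def f_pm_112 : ℕ → ℕ → ℕ → ℕ → Bool := onCell 536870912 536870912 0 536870912 923417968 42949674
    (rowB 3 eng mog cd2q1 cd0q2 pd1 0 false true false .dn 1 1 2 (qsf 536870912 536870912 0 536870912 1) ndB2q1 ndB0q2 pcB1 Cut.none Ext.none)

def k0_pm_112 : ∃ t, chk3 f_pm_112 t 1 1 1 = true :=
  ⟨(a (b (a (b (b (a (b (l 15472832) (l 15465032)) (a (l 15479464) (l 15487032))) (a (b (l 15545776) (l 15514816)) (b (l 15518976) (l 15494752)))) (b (a (l 15473464) (l 15434944)) (b (a (l 15434800) (l 15384576)) (l 4)))) (a (b (b (c (l 15520904) (l 15410064)) (l 15443896)) (b (l 15354592) (l 15297016))) (l 1))) (l 4)) (l 1)), by decide +kernel⟩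

theorem c_pm_112 : CertB 536870912 536870912 0 536870912 923417968 42949674 3 eng mog cd2q1 cd0q2 pd1 false true false .dn 1 1 2
    ndB2q1 ndB0q2 pcB1 Cut.none Ext.none :=
  certB0 (fam := false) (s1 := true) (s2 := false) (a := 1) (b := 1) (c := 2) (cn := .dn) (n1 := ndB2q1) (n2 := ndB0q2) (pc := pcB1) (cut := Cut.none) (xt := Ext.none) (P1 := 536870912) (W1 := 536870912) (P2 := 0) (W2 := 536870912) (P3 := 923417968) (W3 := 42949674) (N0 := 3) (En := eng) (mo := mog) (C1 := cd2q1) (C2 := cd0q2) (C3 := pd1)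
    rfl k0_pm_112

noncomputable def f_pm_202 : ℕ → ℕ → ℕ → ℕ → Bool := onCell 0 536870912 0 536870912 923417968 42949674
    (rowB 3 eng mog cd2q2 cd0q2 pd0 2 false true false .pp 2 0 2 (qsf 1073741824 536870912 0 536870912 0) ndB2q2 ndB0q2 pcB0 Cut.none Ext.none)

def k0_pm_202 : ∃ t, chk3 f_pm_202 t 2 2 1 = true :=
  ⟨(l 3), by decide +kernel⟩

def k1_pm_202 : ∃ t, chk3 f_pm_202 t 4 6 1 = true :=
  ⟨(b (l 3) (b (l 3) (b (l 3) (b (a (l 3) (a (a (l 3) (l 1)) (l 1))) (a (a (b (l 3) (a (a (l 3) (a (l 3) (c (l 16518928) (l 16469368)))) (a (b (l 3) (c (l 16514328) (l 16470616))) (c (l 16558672) (l 16522216))))) (c (a (a (l 16579384) (l 16596112)) (a (l 16558200) (c (l 16537664) (l 16563336)))) (a (c (l 16541360) (l 71034242679)) (a (l 16575936) (c (l 16568472) (l 16553072)))))) (a (a (a (c (c (a (l 16529776) (b (l 16512040) (l 16508336))) (b (a (l 16533600) (l 16512224)) (l 16498304))) (b (a (l 16516224) (c (l 16512664) (l 49022494663))) (c (l 16499712) (l 16501432))))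 (a (b (c (a (c (l 16497184) (l 16496008)) (c (b (a (l 16490616) (c (l 45801217175) (l 16485024))) (l 331282323143)) (b (a (l 16488776) (l 335040417703)) (l 16484216)))) (b (a (c (l 16495984) (l 16495240)) (c (a (l 16487120) (b (l 16479072) (l 16480688))) (a (l 40969376951) (b (a (l 16481368) (b (l 3) (l 336651014151))) (l 310344339015))))) (a (l 16493712) (c (l 285648282343) (l 300680663831))))) (c (c (l 326450487223) (l 337187900695)) (c (l 284574546999) (l 295848830615)))) (l 1))) (l 1)) (l 1))))))), by decide +kernel⟩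

def k2_pm_202 : ∃ t, chk3 f_pm_202 t 16 14 1 = true :=
  ⟨(b (b (b (a (b (a (c (a (b (a (c (l 109151928343) (l 108078142535)) (c (l 16475336) (l 16447216))) (a (a (l 16453960) (l 16458960)) (c (a (l 16478064) (l 16483432)) (l 16453016)))) (a (b (l 16472976) (b (l 16476816) (l 16479816))) (l 94656450359))) (a (b (a (a (l 113983665095) (l 16392384)) (l 16418168)) (a (b (l 16415192) (l 16399296)) (b (l 16422392) (l 16410640)))) (a (c (l 16439120) (l 16403928)) (l 16432112)))) (a (c (l 141901135095) (l 16441896)) (c (l 16528528) (l 16479480)))) (a (c (a (l 16454024) (a (l 16479640) (b (l 16496280) (l 16505256)))) (a (l 16417720) (a (l 16434832) (l 16438392)))) (c (a (b (l 16513368) (l 16520320)) (l 16539648)) (a (b (l 16460832) (l 16468504)) (l 16490600))))) (a (a (c (l 16557200) (l 16511664)) (c (l 16580584) (l 16538624))) (c (l 16552584) (l 16537000)))) (a (a (c (c (l 16525008) (l 16500136)) (c (l 16474016) (l 16446648))) (a (c (l 16543992) (l 16495352)) (b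 (a (l 16526168) (l 16531312)) (l 16552120)))) (a (b (c (l 16523712) (l 16480352)) (l 16500008)) (c (l 16554848) (l 16518392))))) (a (a (c (l 16464952) (l 16420632)) (c (l 16529616) (l 16490272))) (a (a (l 16522856) (l 16544560)) (l 16548280)))) (a (b (a (l 16509080) (l 16576280)) (b (l 16549888) (l 16519008))) (b (b (l 16518352) (l 16486104)) (c (l 16472512) (l 16482264))))), by decide +kernel⟩

def k3_pm_202 : ∃ t, chk3 f_pm_202 t 17 14 1 = true :=
  ⟨(b (a (b (b (c (l 16544432) (l 16548768)) (a (l 16563560) (l 16551248))) (b (a (l 16553160) (b (l 16565040) (l 16555632))) (c (l 16536280) (l 16558120)))) (a (b (c (b (l 16592728) (l 16584800)) (l 16533416)) (b (c (l 16574776) (l 16572072)) (c (l 16553584) (l 16568376)))) (b (c (b (l 16532448) (l 16545432)) (b (l 16542968) (l 16556368))) (b (c (l 16536712) (l 16547992)) (b (c (l 16506328) (l 16538200)) (l 214781280711)))))) (a (a (b (l 16449480) (c (l 16501880) (l 16503832))) (b (c (l 16535128) (l 16545216))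 (c (l 16465552) (l 16462296)))) (b (c (a (l 16502008) (l 295311843399)) (a (l 16507200) (l 326987255959))) (c (l 495564673799) (a (l 16378800) (l 1)))))), by decide +kernel⟩

def k4_pm_202 : ∃ t, chk3 f_pm_202 t 8 15 1 = true :=
  ⟨(a (a (b (a (b (l 16555456) (l 16424632)) (c (l 16415248) (l 16413120))) (b (a (a (l 16466896) (b (l 16465312) (l 16422128))) (b (l 16407496) (a (b (l 16412880) (l 16389968)) (b (l 16387736) (l 16367720))))) (a (c (a (l 316786631431) (l 322155303415)) (l 16326312)) (a (b (a (l 16359560) (l 514891984343)) (l 1)) (l 1))))) (b (b (c (l 16386056) (l 16403416)) (a (l 16415320) (c (l 502544001143) (l 16358008)))) (b (b (a (l 562673556119) (l 1)) (l 1)) (l 1)))) (b (a (a (b (a (l 16414712) (l 16393456)) (l 1)) (l 1)) (l 1)) (l 1))), by decide +kernel⟩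

def k5_pm_202 : ∃ t, chk3 f_pm_202 t 9 7 1 = true :=
  ⟨(a (b (a (b (a (b (c (b (a (l 16523176) (c (l 16502552) (l 16502896))) (l 294775104807)) (a (c (l 16502032) (l 16505024)) (b (l 16483008) (l 16496272)))) (b (c (l 440267164343) (l 274373949815)) (l 1))) (a (a (b (b (c (l 418255434727) (l 366715818967)) (l 1)) (l 1)) (l 1)) (l 1))) (l 1)) (l 1)) (l 1)) (l 1)), by decide +kernel⟩

def k6_pm_202 : ∃ t, chk3 f_pm_202 t 5 3 1 = true :=
  ⟨(b (l 1) (l 1)), by decide +kernel⟩

def k7_pm_202 : ∃ t, chk3 f_pm_202 t 3 1 1 = true :=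
  ⟨(l 1), by decide +kernel⟩

theorem s8_pm_202 : ∃ t, chk3 f_pm_202 t 8 14 1 = true := ex3_a k2_pm_202 k3_pm_202

theorem s9_pm_202 : ∃ t, chk3 f_pm_202 t 8 7 1 = true := ex3_b s8_pm_202 k4_pm_202

theorem s10_pm_202 : ∃ t, chk3 f_pm_202 t 4 7 1 = true := ex3_a s9_pm_202 k5_pm_202

theorem s11_pm_202 : ∃ t, chk3 f_pm_202 t 4 3 1 = true := ex3_b k1_pm_202 s10_pm_202

theorem s12_pm_202 : ∃ t, chk3 f_pm_202 t 2 3 1 = true := ex3_a s11_pm_202 k6_pm_202

theorem s13_pm_202 : ∃ t, chk3 f_pm_202 t 2 1 1 = true := ex3_b k0_pm_202 s12_pm_202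

theorem s14_pm_202 : ∃ t, chk3 f_pm_202 t 1 1 1 = true := ex3_a s13_pm_202 k7_pm_202

theorem c_pm_202 : CertB 1073741824 536870912 0 536870912 923417968 42949674 3 eng mog cd2q2 cd0q2 pd0 false true false .pp 2 0 2
    ndB2q2 ndB0q2 pcB0 Cut.none Ext.none :=
  certB2 (fam := false) (s1 := true) (s2 := false) (a := 2) (b := 0) (c := 2) (cn := .pp) (n1 := ndB2q2) (n2 := ndB0q2) (pc := pcB0) (cut := Cut.none) (xt := Ext.none) (P1 := 1073741824) (W1 := 536870912) (P2 := 0) (W2 := 536870912) (P3 := 923417968) (W3 := 42949674) (N0 := 3) (En := eng) (mo := mog) (C1 := cd2q2) (C2 := cd0q2) (C3 := pd0)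
    rfl (fun _ => rfl) s14_pm_202

noncomputable def f_mm_001 : ℕ → ℕ → ℕ → ℕ → Bool := onCell 0 536870912 536870912 536870912 923417968 42949674
    (rowB 3 eng mog cd2q0 cd0q1 pd0 0 false false false .up 0 0 1 (qsf 0 536870912 536870912 536870912 0) ndB2q0 ndB0q1 pcB0 Cut.none Ext.none)

def k0_mm_001 : ∃ t, chk3 f_mm_001 t 1 1 1 = true :=
  ⟨(l 5), by decide +kernel⟩

theorem c_mm_001 : CertB 0 536870912 536870912 536870912 923417968 42949674 3 eng mog cd2q0 cd0q1 pd0 false false false .up 0 0 1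
    ndB2q0 ndB0q1 pcB0 Cut.none Ext.none :=
  certB0 (fam := false) (s1 := false) (s2 := false) (a := 0) (b := 0) (c := 1) (cn := .up) (n1 := ndB2q0) (n2 := ndB0q1) (pc := pcB0) (cut := Cut.none) (xt := Ext.none) (P1 := 0) (W1 := 536870912) (P2 := 536870912) (W2 := 536870912) (P3 := 923417968) (W3 := 42949674) (N0 := 3) (En := eng) (mo := mog) (C1 := cd2q0) (C2 := cd0q1) (C3 := pd0)
    rfl k0_mm_001

noncomputable def f_mm_011 : ℕ → ℕ → ℕ → ℕ → Bool := onCell 0 536870912 536870912 536870912 923417968 42949674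
    (rowB 3 eng mog cd2q0 cd0q1 pd1 0 false false false .pnn 0 1 1 (qsf 0 536870912 536870912 536870912 1) ndB2q0 ndB0q1 pcB1 Cut.none Ext.none)

def k0_mm_011 : ∃ t, chk3 f_mm_011 t 1 1 1 = true :=
  ⟨(l 5), by decide +kernel⟩

theorem c_mm_011 : CertB 0 536870912 536870912 536870912 923417968 42949674 3 eng mog cd2q0 cd0q1 pd1 false false false .pnn 0 1 1
    ndB2q0 ndB0q1 pcB1 Cut.none Ext.none :=
  certB0 (fam := false) (s1 := false) (s2 := false) (a := 0) (b := 1) (c := 1) (cn := .pnn) (n1 := ndB2q0) (n2 := ndB0q1) (pc := pcB1) (cut := Cut.none) (xt := Ext.none) (P1 := 0) (W1 := 536870912) (P2 := 536870912) (W2 := 536870912) (P3 := 923417968) (W3 := 42949674) (N0 := 3) (En := eng) (mo := mog) (C1 := cd2q0) (C2 := cd0q1) (C3 := pd1)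
    rfl k0_mm_011

noncomputable def f_mm_012 : ℕ → ℕ → ℕ → ℕ → Bool := onCell 0 536870912 0 536870912 923417968 42949674
    (rowB 3 eng mog cd2q0 cd0q2 pd1 0 false false false .pnp 0 1 2 (qsf 0 536870912 0 536870912 1) ndB2q0 ndB0q2 pcB1 Cut.none Ext.none)

def k0_mm_012 : ∃ t, chk3 f_mm_012 t 1 1 1 = true :=
  ⟨(l 5), by decide +kernel⟩

theorem c_mm_012 : CertB 0 536870912 0 536870912 923417968 42949674 3 eng mog cd2q0 cd0q2 pd1 false false false .pnp 0 1 2
    ndB2q0 ndB0q2 pcB1 Cut.none Ext.none :=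
  certB0 (fam := false) (s1 := false) (s2 := false) (a := 0) (b := 1) (c := 2) (cn := .pnp) (n1 := ndB2q0) (n2 := ndB0q2) (pc := pcB1) (cut := Cut.none) (xt := Ext.none) (P1 := 0) (W1 := 536870912) (P2 := 0) (W2 := 536870912) (P3 := 923417968) (W3 := 42949674) (N0 := 3) (En := eng) (mo := mog) (C1 := cd2q0) (C2 := cd0q2) (C3 := pd1)
    rfl k0_mm_012

noncomputable def f_mm_022 : ℕ → ℕ → ℕ → ℕ → Bool := onCell 0 536870912 0 536870912 923417968 42949674
    (rowB 3 eng mog cd2q0 cd0q2 pd2 0 false false false .pp 0 2 2 (qsf 0 536870912 0 536870912 2) ndB2q0 ndB0q2 pcB2 Cut.none Ext.none)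

def k0_mm_022 : ∃ t, chk3 f_mm_022 t 1 1 1 = true :=
  ⟨(l 5), by decide +kernel⟩

theorem c_mm_022 : CertB 0 536870912 0 536870912 923417968 42949674 3 eng mog cd2q0 cd0q2 pd2 false false false .pp 0 2 2
    ndB2q0 ndB0q2 pcB2 Cut.none Ext.none :=
  certB0 (fam := false) (s1 := false) (s2 := false) (a := 0) (b := 2) (c := 2) (cn := .pp) (n1 := ndB2q0) (n2 := ndB0q2) (pc := pcB2) (cut := Cut.none) (xt := Ext.none) (P1 := 0) (W1 := 536870912) (P2 := 0) (W2 := 536870912) (P3 := 923417968) (W3 := 42949674) (N0 := 3) (En := eng) (mo := mog) (C1 := cd2q0) (C2 := cd0q2) (C3 := pd2)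
    rfl k0_mm_022

noncomputable def f_mm_101 : ℕ → ℕ → ℕ → ℕ → Bool := onCell 536870912 536870912 536870912 536870912 923417968 42949674
    (rowB 3 eng mog cd2q1 cd0q1 pd0 0 false false false .npn 1 0 1 (qsf 536870912 536870912 536870912 536870912 0) ndB2q1 ndB0q1 pcB0 Cut.none Ext.none)

def k0_mm_101 : ∃ t, chk3 f_mm_101 t 1 1 1 = true :=
  ⟨(b (l 3) (l 5)), by decide +kernel⟩

theorem c_mm_101 : CertB 536870912 536870912 536870912 536870912 923417968 42949674 3 eng mog cd2q1 cd0q1 pd0 false false false .npn 1 0 1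
    ndB2q1 ndB0q1 pcB0 Cut.none Ext.none :=
  certB0 (fam := false) (s1 := false) (s2 := false) (a := 1) (b := 0) (c := 1) (cn := .npn) (n1 := ndB2q1) (n2 := ndB0q1) (pc := pcB0) (cut := Cut.none) (xt := Ext.none) (P1 := 536870912) (W1 := 536870912) (P2 := 536870912) (W2 := 536870912) (P3 := 923417968) (W3 := 42949674) (N0 := 3) (En := eng) (mo := mog) (C1 := cd2q1) (C2 := cd0q1) (C3 := pd0)
    rfl k0_mm_101

noncomputable def f_mm_102 : ℕ → ℕ → ℕ → ℕ → Bool := onCell 536870912 536870912 0 536870912 923417968 42949674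
    (rowB 3 eng mog cd2q1 cd0q2 pd0 0 false false false .npp 1 0 2 (qsf 536870912 536870912 0 536870912 0) ndB2q1 ndB0q2 pcB0 Cut.none Ext.none)

def k0_mm_102 : ∃ t, chk3 f_mm_102 t 1 1 1 = true :=
  ⟨(l 5), by decide +kernel⟩

theorem c_mm_102 : CertB 536870912 536870912 0 536870912 923417968 42949674 3 eng mog cd2q1 cd0q2 pd0 false false false .npp 1 0 2
    ndB2q1 ndB0q2 pcB0 Cut.none Ext.none :=
  certB0 (fam := false) (s1 := false) (s2 := false) (a := 1) (b := 0) (c := 2) (cn := .npp) (n1 := ndB2q1) (n2 := ndB0q2) (pc := pcB0) (cut := Cut.none) (xt := Ext.none) (P1 := 536870912) (W1 := 536870912) (P2 := 0) (W2 := 536870912) (P3 := 923417968) (W3 := 42949674) (N0 := 3) (En := eng) (mo := mog) (C1 := cd2q1) (C2 := cd0q2) (C3 := pd0)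
    rfl k0_mm_102

noncomputable def f_mm_112 : ℕ → ℕ → ℕ → ℕ → Bool := onCell 536870912 536870912 0 536870912 923417968 42949674
    (rowB 3 eng mog cd2q1 cd0q2 pd1 0 false false false .dn 1 1 2 (qsf 536870912 536870912 0 536870912 1) ndB2q1 ndB0q2 pcB1 Cut.none Ext.none)

def k0_mm_112 : ∃ t, chk3 f_mm_112 t 1 1 1 = true :=
  ⟨(l 5), by decide +kernel⟩

theorem c_mm_112 : CertB 536870912 536870912 0 536870912 923417968 42949674 3 eng mog cd2q1 cd0q2 pd1 false false false .dn 1 1 2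
    ndB2q1 ndB0q2 pcB1 Cut.none Ext.none :=
  certB0 (fam := false) (s1 := false) (s2 := false) (a := 1) (b := 1) (c := 2) (cn := .dn) (n1 := ndB2q1) (n2 := ndB0q2) (pc := pcB1) (cut := Cut.none) (xt := Ext.none) (P1 := 536870912) (W1 := 536870912) (P2 := 0) (W2 := 536870912) (P3 := 923417968) (W3 := 42949674) (N0 := 3) (En := eng) (mo := mog) (C1 := cd2q1) (C2 := cd0q2) (C3 := pd1)
    rfl k0_mm_112

noncomputable def f_mm_202 : ℕ → ℕ → ℕ → ℕ → Bool := onCell 1073741824 536870912 0 536870912 923417968 42949674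
    (rowB 3 eng mog cd2q2 cd0q2 pd0 0 false false false .pp 2 0 2 (qsf 1073741824 536870912 0 536870912 0) ndB2q2 ndB0q2 pcB0 Cut.none Ext.none)

def k0_mm_202 : ∃ t, chk3 f_mm_202 t 1 1 1 = true :=
  ⟨(l 3), by decide +kernel⟩

theorem c_mm_202 : CertB 1073741824 536870912 0 536870912 923417968 42949674 3 eng mog cd2q2 cd0q2 pd0 false false false .pp 2 0 2
    ndB2q2 ndB0q2 pcB0 Cut.none Ext.none :=
  certB0 (fam := false) (s1 := false) (s2 := false) (a := 2) (b := 0) (c := 2) (cn := .pp) (n1 := ndB2q2) (n2 := ndB0q2) (pc := pcB0) (cut := Cut.none) (xt := Ext.none) (P1 := 1073741824) (W1 := 536870912) (P2 := 0) (W2 := 536870912) (P3 := 923417968) (W3 := 42949674) (N0 := 3) (En := eng) (mo := mog) (C1 := cd2q2) (C2 := cd0q2) (C3 := pd0)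
    rfl k0_mm_202

end Pool.Agent.Strip051.G.I8600_9000.Tab.C.BB20

namespace Pool.Agent.Strip051.G.I8600_9000.Tab.C.BB21

open Pool.Agent.Strip051.PB Pool.Agent.Strip051.PB.T
open Pool.Agent.Strip051.G.I8600_9000.Tab

noncomputable def f_pp_001 : ℕ → ℕ → ℕ → ℕ → Bool := onCell 0 536870912 0 536870912 923417968 42949674
    (rowB 3 eng mog cd2q0 cd1q1 pd0 1 false true true .up 0 0 1 (qsf 0 536870912 536870912 536870912 0) ndB2q0 ndB1q1 pcB0 Cut.none Ext.none)

def k0_pp_001 : ∃ t, chk3 f_pp_001 t 1 1 1 = true :=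
  ⟨(l 3), by decide +kernel⟩

theorem c_pp_001 : CertB 0 536870912 536870912 536870912 923417968 42949674 3 eng mog cd2q0 cd1q1 pd0 false true true .up 0 0 1
    ndB2q0 ndB1q1 pcB0 Cut.none Ext.none :=
  certB1 (fam := false) (s1 := true) (s2 := true) (a := 0) (b := 0) (c := 1) (cn := .up) (n1 := ndB2q0) (n2 := ndB1q1) (pc := pcB0) (cut := Cut.none) (xt := Ext.none) (P1 := 0) (W1 := 536870912) (P2 := 536870912) (W2 := 536870912) (P3 := 923417968) (W3 := 42949674) (N0 := 3) (En := eng) (mo := mog) (C1 := cd2q0) (C2 := cd1q1) (C3 := pd0)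
    rfl (fun _ => rfl) k0_pp_001

noncomputable def f_pp_011 : ℕ → ℕ → ℕ → ℕ → Bool := onCell 0 536870912 536870912 536870912 923417968 42949674
    (rowB 3 eng mog cd2q0 cd1q1 pd1 0 false true true .pnn 0 1 1 (qsf 0 536870912 536870912 536870912 1) ndB2q0 ndB1q1 pcB1 Cut.none Ext.none)

def k0_pp_011 : ∃ t, chk3 f_pp_011 t 1 1 1 = true :=
  ⟨(a (l 3) (l 3)), by decide +kernel⟩

theorem c_pp_011 : CertB 0 536870912 536870912 536870912 923417968 42949674 3 eng mog cd2q0 cd1q1 pd1 false true true .pnn 0 1 1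
    ndB2q0 ndB1q1 pcB1 Cut.none Ext.none :=
  certB0 (fam := false) (s1 := true) (s2 := true) (a := 0) (b := 1) (c := 1) (cn := .pnn) (n1 := ndB2q0) (n2 := ndB1q1) (pc := pcB1) (cut := Cut.none) (xt := Ext.none) (P1 := 0) (W1 := 536870912) (P2 := 536870912) (W2 := 536870912) (P3 := 923417968) (W3 := 42949674) (N0 := 3) (En := eng) (mo := mog) (C1 := cd2q0) (C2 := cd1q1) (C3 := pd1)
    rfl k0_pp_011

noncomputable def f_pp_012_a : ℕ → ℕ → ℕ → ℕ → Bool := onCell 0 536870912 0 536870912 923417968 42949674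
    (rowB 3 eng mog cd2q0 cd1q2a pd1 0 false true true .pnp 0 1 2 (qsf 0 536870912 0 536870912 1) ndB2q0 ndB1q2a pcB1 Cut.none Ext.none)

def k0_pp_012_a : ∃ t, chk3 f_pp_012_a t 2 2 1 = true :=
  ⟨(a (b (l 2) (a (l 2) (a (l 2) (a (l 2) (b (l 2) (l 16502184)))))) (a (a (b (a (l 2) (l 16227768)) (a (b (l 16389952) (l 16467808)) (b (l 16360480) (l 16436480)))) (b (a (l 16189976) (l 16121264)) (b (l 16052640) (a (l 16392880) (l 16317960))))) (b (a (l 16019320) (l 15888432)) (b (l 15855656) (a (l 16205768) (l 16060416)))))), by decide +kernel⟩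

def k1_pp_012_a : ∃ t, chk3 f_pp_012_a t 4 3 1 = true :=
  ⟨(b (a (l 2) (b (a (l 2) (a (a (l 16513520) (l 16497088)) (l 16414512))) (a (a (b (l 2) (l 16530016)) (a (l 16345280) (l 16458880))) (a (a (l 16468704) (l 16458792)) (a (l 16449880) (l 16441744)))))) (a (b (a (l 2) (b (a (l 2) (l 16538024)) (a (a (l 16642152) (l 16607592)) (l 16537144)))) (a (b (a (l 2) (b (l 16607960) (l 16595736))) (a (b (c (l 16644712) (l 16637952)) (b (l 16633704) (a (l 16704928) (l 16679272)))) (b (b (l 16652416) (l 16649936)) (b (l 16641800) (l 16640520))))) (b (a (b (l 16608576) (l 16602736)) (b (l 16549888) (l 16544944))) (b (a (l 16588064) (l 16522800)) (a (l 16584944) (b (l 16522712) (l 16524864))))))) (a (a (b (b (l 16507392) (l 16494752)) (b (b (l 16489968) (l 16459608)) (b (l 16452696) (l 16454624)))) (b (a (b (l 16464448) (l 16435736)) (c (l 16435176) (l 16453712))) (b (a (a (l 16436360) (l 16422264)) (l 16407144)) (a (b (l 16406088) (a (l 16388352) (l 16383224))) (b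 (l 16398112) (c (l 16390432) (l 16389144))))))) (b (a (b (a (l 16451800) (l 16446360)) (a (l 16447984) (l 16442984))) (b (l 16441360) (l 16415184))) (a (b (a (l 16396208) (l 16385648)) (a (b (l 16389352) (l 16391920)) (b (l 16380176) (l 16383672)))) (b (a (l 16374944) (l 16364392)) (a (b (l 16371024) (l 16375344)) (b (l 16361776) (l 16366880))))))))), by decide +kernel⟩

def k2_pp_012_a : ∃ t, chk3 f_pp_012_a t 5 3 1 = true :=
  ⟨(b (a (a (b (a (l 16450464) (l 16426864)) (a (l 16348408) (l 16417688))) (b (a (l 16390696) (l 16321920)) (a (l 16388560) (l 16324904)))) (b (a (l 16217864) (l 16081056)) (a (l 16226872) (l 16099776)))) (a (a (b (a (b (l 16409080) (l 16418720)) (b (l 16418032) (l 16396656))) (a (b (a (l 16352952) (l 16341968)) (b (l 16338224) (a (l 16323552) (l 16276976)))) (b (l 16322744) (c (l 16292528) (l 16198496))))) (b (a (b (l 16389520) (l 16361736)) (l 16321568)) (a (b (l 16274440) (a (b (l 16227576) (l 16168592)) (l 16159848))) (b (l 16208792)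 (b (l 16140920) (l 16080184)))))) (b (a (b (l 16233136) (l 16223688)) (b (l 16115128) (l 16119800))) (b (a (l 16148672) (l 16106456)) (a (b (l 16080392) (l 16190896)) (b (l 16056832) (l 16006160))))))), by decide +kernel⟩

def k3_pp_012_a : ∃ t, chk3 f_pp_012_a t 3 2 1 = true :=
  ⟨(a (b (a (c (l 15720728) (l 15690608)) (a (l 15543488) (l 15450368))) (a (b (l 15797712) (c (l 15832032) (l 15858584))) (b (a (l 15621768) (l 15519912)) (a (l 15672664) (l 15566440))))) (b (a (c (l 15365080) (l 15307728)) (c (l 15269384) (l 15201312))) (a (b (l 15561320) (a (l 15473976) (l 15396128))) (b (l 15362008) (a (l 15333576) (l 15287160)))))), by decide +kernel⟩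

def k4_pp_012_a : ∃ t, chk3 f_pp_012_a t 3 3 1 = true :=
  ⟨(a (b (a (b (c (l 15865776) (l 15890440)) (a (l 15959016) (b (l 15858464) (l 15882312)))) (a (b (l 15716640) (b (l 15756888) (l 15788888))) (b (l 15617480) (b (l 15668192) (l 15707696))))) (a (b (a (b (l 16006368) (l 16003040)) (b (l 15909160) (l 16065112))) (b (a (l 16036784) (l 15948584)) (a (c (l 16035792) (l 16026296)) (c (l 16004688) (l 15985120))))) (b (b (a (l 15824800) (l 15752360)) (a (l 15970048) (c (l 15815064) (l 15788448)))) (b (a (c (l 15922152) (l 15896440)) (c (l 15870256) (l 15838592))) (b (a (l 16005000) (c (l 15913584) (l 15878600))) (a (l 15941808) (a (l 15933720) (l 15915432)))))))) (a (a (b (b (l 15614664) (b (l 15591880) (l 15638384))) (b (b (l 15689576) (c (l 15762064) (l 15730592))) (b (c (l 15826616) (l 15789112)) (c (b (l 15878048) (l 15913832)) (b (l 15836144) (l 15869424)))))) (b (b (l 15666520) (b (l 15527000) (l 15579768))) (b (b (l 15721688) (c (l 15719728) (l 15683656)))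 (b (c (l 15793352) (l 15750472)) (c (b (l 15853144) (l 15895096)) (b (l 15805296) (l 15844200))))))) (a (b (b (b (l 15370864) (l 15420640)) (b (l 15474632) (l 15533544))) (b (b (l 15724280) (c (l 15690240) (l 15650320))) (b (c (l 15835904) (l 15725688)) (c (b (l 15840544) (l 15909256)) (b (l 15787792) (l 15832120)))))) (c (b (b (l 15354296) (l 15480664)) (b (b (l 15591216) (l 15674392)) (b (b (l 15742416) (l 15790720)) (b (l 15841536) (l 15999808))))) (b (b (l 15342696) (l 15456408)) (b (b (l 15555992) (l 15631472)) (b (l 15820392) (b (l 15785008) (l 15855760))))))))), by decide +kernel⟩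

theorem s5_pp_012_a : ∃ t, chk3 f_pp_012_a t 3 1 1 = true := ex3_b k3_pp_012_a k4_pp_012_a

theorem s6_pp_012_a : ∃ t, chk3 f_pp_012_a t 2 3 1 = true := ex3_a k1_pp_012_a k2_pp_012_a

theorem s7_pp_012_a : ∃ t, chk3 f_pp_012_a t 2 1 1 = true := ex3_b k0_pp_012_a s6_pp_012_a

theorem s8_pp_012_a : ∃ t, chk3 f_pp_012_a t 1 1 1 = true := ex3_a s7_pp_012_a s5_pp_012_a

theorem c_pp_012_a : CertB 0 536870912 0 536870912 923417968 42949674 3 eng mog cd2q0 cd1q2a pd1 false true true .pnp 0 1 2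
    ndB2q0 ndB1q2a pcB1 Cut.none Ext.none :=
  certB0 (fam := false) (s1 := true) (s2 := true) (a := 0) (b := 1) (c := 2) (cn := .pnp) (n1 := ndB2q0) (n2 := ndB1q2a) (pc := pcB1) (cut := Cut.none) (xt := Ext.none) (P1 := 0) (W1 := 536870912) (P2 := 0) (W2 := 536870912) (P3 := 923417968) (W3 := 42949674) (N0 := 3) (En := eng) (mo := mog) (C1 := cd2q0) (C2 := cd1q2a) (C3 := pd1)
    rfl s8_pp_012_a

noncomputable def f_pp_012_b : ℕ → ℕ → ℕ → ℕ → Bool := onCell 536870912 536870912 1239849684 370763052 923417968 42949674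
    (rowB 3 eng mog cd2q0 cd1q2b pd1 2 false true true .pnp 0 1 2 (qsf 0 536870912 1239849684 370763052 1) ndB2q0 ndB1q2b pcB1 Cut.none Ext.none)

def k0_pp_012_b : ∃ t, chk3 f_pp_012_b t 1 1 1 = true :=
  ⟨(a (b (a (l 2) (b (a (b (l 15144104) (l 2)) (b (l 15184696) (l 15076080))) (a (l 2) (l 14968456)))) (l 2)) (b (a (b (a (b (l 15369232) (l 15133632)) (b (a (l 15396264) (l 15485784)) (l 15245792))) (a (l 15170048) (b (l 15078544) (l 14940272)))) (b (a (b (c (l 15662560) (l 15617720)) (l 15445712)) (b (a (l 15810888) (b (a (l 15975016) (l 15894664)) (l 15858616))) (l 15658304))) (a (b (l 15193664) (l 15011760)) (b (l 15343568) (l 15118992))))) (a (b (a (l 2) (l 14791744)) (l 2)) (b (a (l 14797224) (l 15070472)) (a (l 14622632) (l 14578000)))))), by decide +kernel⟩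

theorem c_pp_012_b : CertB 0 536870912 1239849684 370763052 923417968 42949674 3 eng mog cd2q0 cd1q2b pd1 false true true .pnp 0 1 2
    ndB2q0 ndB1q2b pcB1 Cut.none Ext.none :=
  certB2 (fam := false) (s1 := true) (s2 := true) (a := 0) (b := 1) (c := 2) (cn := .pnp) (n1 := ndB2q0) (n2 := ndB1q2b) (pc := pcB1) (cut := Cut.none) (xt := Ext.none) (P1 := 0) (W1 := 536870912) (P2 := 1239849684) (W2 := 370763052) (P3 := 923417968) (W3 := 42949674) (N0 := 3) (En := eng) (mo := mog) (C1 := cd2q0) (C2 := cd1q2b) (C3 := pd1)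
    rfl (fun _ => rfl) k0_pp_012_b

noncomputable def f_pp_022_a : ℕ → ℕ → ℕ → ℕ → Bool := onCell 0 536870912 0 536870912 923417968 42949674
    (rowB 3 eng mog cd2q0 cd1q2a pd2 0 false true true .pp 0 2 2 (qsf 0 536870912 0 536870912 2) ndB2q0 ndB1q2a pcB2 Cut.none Ext.none)

def k0_pp_022_a : ∃ t, chk3 f_pp_022_a t 2 2 1 = true :=
  ⟨(a (b (a (a (b (l 16410208) (l 16327416)) (l 16312336)) (a (a (l 16370488) (a (b (l 16406656) (l 16415200)) (l 16304808))) (a (b (a (l 16409872) (l 16410528)) (l 16360112)) (b (l 16347400) (l 16410888))))) (a (a (a (b (l 16333496) (l 16288768)) (b (l 16436592) (l 16462872))) (b (l 16536128) (l 16403376))) (a (a (b (l 16452472) (l 16451424)) (a (b (l 16418824) (l 16410328)) (b (l 16415136) (l 16402440)))) (a (b (a (l 16412880) (l 16412392)) (a (l 16395952) (l 16391200))) (b (l 16312352) (a (l 16388136) (l 16386720))))))) (a (a (b (a (b (l 16400832) (l 16382024)) (b (l 16389832) (b (l 16460680) (l 16465976)))) (a (b (l 16383624)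 (a (l 16365944) (l 16367736))) (b (l 16377672) (l 1)))) (b (b (l 1) (l 1)) (l 1))) (l 1))), by decide +kernel⟩

def k1_pp_022_a : ∃ t, chk3 f_pp_022_a t 2 3 1 = true :=
  ⟨(b (a (a (a (a (b (a (l 16338016) (l 16378168)) (b (l 16417776) (l 16484096))) (b (l 16445040) (l 16431488))) (b (c (l 16426952) (l 16401352)) (a (l 16343344) (b (l 16463376) (l 16420992))))) (a (a (b (l 16361752) (b (l 16378088) (l 16329936))) (b (a (b (l 16366704) (l 16340304)) (l 16258896)) (a (b (l 16281256) (a (l 390874755671) (l 416644515655))) (b (a (l 16310408) (l 16303344)) (l 1))))) (b (a (a (l 105795987575) (l 179347290039)) (a (l 211022659479) (l 243234897911))) (a (a (b (l 432750751511) (l 1)) (l 1)) (l 1))))) (l 1)) (a (a (b (a (b (c (l 16427200) (l 16424952)) (a (l 16423216) (l 16320640))) (b (a (l 16437864) (b (l 16378456) (l 16323264))) (a (b (l 16406136) (l 16343120)) (b (l 252361727543) (l 462278343639))))) (a (b (a (b (a (l 16556904) (l 16503144)) (a (l 16521688) (l 16454584)))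 (b (l 16422928) (a (l 16377624) (b (l 16357640) (l 16329784))))) (a (a (b (l 16451088) (c (l 16457024) (l 16452368))) (b (b (l 16422248) (a (l 16426344) (l 16385192))) (c (b (l 499859716039) (l 1)) (l 535292897319)))) (a (b (b (l 454762488807) (l 1)) (l 1)) (l 1)))) (b (a (b (c (l 446709324823) (l 16300832)) (l 1)) (l 1)) (l 1)))) (a (a (b (b (c (l 434898097735) (l 213169954935)) (l 1)) (l 1)) (l 1)) (l 1))) (l 1))), by decide +kernel⟩

def k2_pp_022_a : ∃ t, chk3 f_pp_022_a t 3 1 1 = true :=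
  ⟨(l 1), by decide +kernel⟩

theorem s3_pp_022_a : ∃ t, chk3 f_pp_022_a t 2 1 1 = true := ex3_b k0_pp_022_a k1_pp_022_a

theorem s4_pp_022_a : ∃ t, chk3 f_pp_022_a t 1 1 1 = true := ex3_a s3_pp_022_a k2_pp_022_a

theorem c_pp_022_a : CertB 0 536870912 0 536870912 923417968 42949674 3 eng mog cd2q0 cd1q2a pd2 false true true .pp 0 2 2
    ndB2q0 ndB1q2a pcB2 Cut.none Ext.none :=
  certB0 (fam := false) (s1 := true) (s2 := true) (a := 0) (b := 2) (c := 2) (cn := .pp) (n1 := ndB2q0) (n2 := ndB1q2a) (pc := pcB2) (cut := Cut.none) (xt := Ext.none) (P1 := 0) (W1 := 536870912) (P2 := 0) (W2 := 536870912) (P3 := 923417968) (W3 := 42949674) (N0 := 3) (En := eng) (mo := mog) (C1 := cd2q0) (C2 := cd1q2a) (C3 := pd2)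
    rfl s4_pp_022_a

noncomputable def f_pp_022_b : ℕ → ℕ → ℕ → ℕ → Bool := onCell 0 536870912 1239849684 370763052 923417968 42949674
    (rowB 3 eng mog cd2q0 cd1q2b pd2 0 false true true .pp 0 2 2 (qsf 0 536870912 1239849684 370763052 2) ndB2q0 ndB1q2b pcB2 Cut.none Ext.none)

def k0_pp_022_b : ∃ t, chk3 f_pp_022_b t 1 1 1 = true :=
  ⟨(a (b (a (b (b (a (a (l 16374952) (l 16399472)) (a (a (l 16347528) (a (l 16317080) (l 16312912))) (a (a (l 16308024) (l 16302736)) (l 16254160)))) (a (a (l 16308392) (l 16251432)) (a (a (l 16205968) (l 16099288)) (a (l 16175448) (l 16164008))))) (a (b (a (l 16161416) (l 16131848)) (l 16050496)) (a (a (l 16052752) (b (l 16077992) (l 15999784))) (a (l 15986392) (l 16017760))))) (a (a (b (a (b (l 16282440) (l 16151112)) (b (l 16267464) (l 16136664))) (a (l 16005712) (l 15991472))) (b (b (a (l 16237288) (l 16172032)) (a (l 16108680) (l 16049728))) (a (l 15966160) (l 15915968)))) (b (b (a (l 579852517815) (l 1)) (a (l 15950416)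 (l 15802168))) (b (l 15797336) (l 15743296))))) (a (b (a (b (l 15980008) (l 15931608)) (a (a (l 15939856) (l 15929544)) (a (l 15922648) (l 15914368)))) (a (b (l 15901448) (l 15883768)) (a (a (l 15913024) (l 15911152)) (l 16006168)))) (a (b (a (l 15666896) (l 15786960)) (a (l 15879784) (l 15845592))) (b (b (l 15716016) (l 15712872)) (l 15518632))))) (b (a (b (l 1) (a (b (l 15491648) (l 15456640)) (b (l 1) (l 15123264)))) (l 1)) (a (b (a (b (l 15449720) (l 15470304)) (b (l 15128792) (l 15164384))) (a (b (l 15516320) (l 15583216)) (b (l 15229064) (l 15320552)))) (b (a (b (l 1) (l 14826088)) (l 1)) (a (l 14693360) (l 14604664)))))), by decide +kernel⟩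

theorem c_pp_022_b : CertB 0 536870912 1239849684 370763052 923417968 42949674 3 eng mog cd2q0 cd1q2b pd2 false true true .pp 0 2 2
    ndB2q0 ndB1q2b pcB2 Cut.none Ext.none :=
  certB0 (fam := false) (s1 := true) (s2 := true) (a := 0) (b := 2) (c := 2) (cn := .pp) (n1 := ndB2q0) (n2 := ndB1q2b) (pc := pcB2) (cut := Cut.none) (xt := Ext.none) (P1 := 0) (W1 := 536870912) (P2 := 1239849684) (W2 := 370763052) (P3 := 923417968) (W3 := 42949674) (N0 := 3) (En := eng) (mo := mog) (C1 := cd2q0) (C2 := cd1q2b) (C3 := pd2)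
    rfl k0_pp_022_b

noncomputable def f_pp_023 : ℕ → ℕ → ℕ → ℕ → Bool := onCell 0 536870912 1073741824 536870912 923417968 42949674
    (rowB 3 eng mog cd2q0 cd1q3 pd2 1 false true true .up 0 2 3 (qsf 0 536870912 1610612736 536870912 2) ndB2q0 ndB1q3 pcB2 Cut.none Ext.none)

def k0_pp_023 : ∃ t, chk3 f_pp_023 t 1 1 1 = true :=
  ⟨(a (b (a (l 1) (a (l 1) (b (l 1) (l 633538112103)))) (a (b (a (l 1) (a (l 1) (b (l 1) (l 15631984)))) (a (b (l 952976689159) (l 15660376)) (a (a (b (l 15674304) (l 15727960)) (b (l 15682736) (l 15754640))) (b (l 15694456) (l 15782712))))) (a (b (a (b (l 1) (l 15646672)) (l 428453584807)) (a (b (l 15717456) (l 15831552)) (b (l 15752872) (l 15898216)))) (b (b (l 15546616) (l 15669704)) (b (l 15841464) (l 16025616)))))) (b (b (a (b (l 1) (l 577703558151)) (b (l 628705516903) (l 509520560391))) (a (b (l 563744331335) (l 15338944)) (b (l 15047928) (l 15367576)))) (b (a (b (l 15522008) (l 15794040)) (b (l 15723368) (l 16079464))) (a (b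 (l 16054264) (l 16288264)) (l 4))))), by decide +kernel⟩

theorem c_pp_023 : CertB 0 536870912 1610612736 536870912 923417968 42949674 3 eng mog cd2q0 cd1q3 pd2 false true true .up 0 2 3
    ndB2q0 ndB1q3 pcB2 Cut.none Ext.none :=
  certB1 (fam := false) (s1 := true) (s2 := true) (a := 0) (b := 2) (c := 3) (cn := .up) (n1 := ndB2q0) (n2 := ndB1q3) (pc := pcB2) (cut := Cut.none) (xt := Ext.none) (P1 := 0) (W1 := 536870912) (P2 := 1610612736) (W2 := 536870912) (P3 := 923417968) (W3 := 42949674) (N0 := 3) (En := eng) (mo := mog) (C1 := cd2q0) (C2 := cd1q3) (C3 := pd2)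
    rfl (fun _ => rfl) k0_pp_023

noncomputable def f_pp_033 : ℕ → ℕ → ℕ → ℕ → Bool := onCell 0 536870912 1610612736 536870912 923417968 42949674
    (rowB 3 eng mog cd2q0 cd1q3 pd3 1 false true true .pnn 0 3 3 (qsf 0 536870912 1610612736 536870912 3) ndB2q0 ndB1q3 pcB3 Cut.none Ext.none)

def k0_pp_033 : ∃ t, chk3 f_pp_033 t 1 1 1 = true :=
  ⟨(a (b (a (b (a (b (b (l 15689248) (l 15654872)) (b (l 15617072) (l 15577312))) (a (b (a (l 15903144) (l 15962192)) (a (l 15817088) (l 15875464))) (b (b (l 15984368) (l 15952496)) (a (l 15901336) (l 4))))) (a (b (b (l 15621224) (l 15501520)) (l 4)) (l 4))) (b (a (b (a (l 15977632) (l 16019864)) (l 4)) (l 4)) (l 4))) (a (l 4) (b (l 4) (a (b (l 4) (l 2)) (l 2))))) (b (a (l 4) (b (l 4) (a (b (l 4) (l 2)) (l 2)))) (a (b (a (b (l 4) (l 2)) (l 2)) (l 2)) (l 2)))), by decide +kernel⟩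

theorem c_pp_033 : CertB 0 536870912 1610612736 536870912 923417968 42949674 3 eng mog cd2q0 cd1q3 pd3 false true true .pnn 0 3 3
    ndB2q0 ndB1q3 pcB3 Cut.none Ext.none :=
  certB1 (fam := false) (s1 := true) (s2 := true) (a := 0) (b := 3) (c := 3) (cn := .pnn) (n1 := ndB2q0) (n2 := ndB1q3) (pc := pcB3) (cut := Cut.none) (xt := Ext.none) (P1 := 0) (W1 := 536870912) (P2 := 1610612736) (W2 := 536870912) (P3 := 923417968) (W3 := 42949674) (N0 := 3) (En := eng) (mo := mog) (C1 := cd2q0) (C2 := cd1q3) (C3 := pd3)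
    rfl (fun _ => rfl) k0_pp_033

noncomputable def f_pp_101 : ℕ → ℕ → ℕ → ℕ → Bool := onCell 536870912 536870912 536870912 536870912 923417968 42949674
    (rowB 3 eng mog cd2q1 cd1q1 pd0 0 false true true .npn 1 0 1 (qsf 536870912 536870912 536870912 536870912 0) ndB2q1 ndB1q1 pcB0 Cut.none Ext.none)

def k0_pp_101 : ∃ t, chk3 f_pp_101 t 1 1 1 = true :=
  ⟨(l 3), by decide +kernel⟩

theorem c_pp_101 : CertB 536870912 536870912 536870912 536870912 923417968 42949674 3 eng mog cd2q1 cd1q1 pd0 false true true .npn 1 0 1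
    ndB2q1 ndB1q1 pcB0 Cut.none Ext.none :=
  certB0 (fam := false) (s1 := true) (s2 := true) (a := 1) (b := 0) (c := 1) (cn := .npn) (n1 := ndB2q1) (n2 := ndB1q1) (pc := pcB0) (cut := Cut.none) (xt := Ext.none) (P1 := 536870912) (W1 := 536870912) (P2 := 536870912) (W2 := 536870912) (P3 := 923417968) (W3 := 42949674) (N0 := 3) (En := eng) (mo := mog) (C1 := cd2q1) (C2 := cd1q1) (C3 := pd0)
    rfl k0_pp_101

noncomputable def cut_pp_102_a : Cut := Cut.of [[⟨0, 1, 0, 67108864⟩, ⟨1, 0, 0, 67108864⟩, ⟨2, 1, 0, 67108864⟩]]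

noncomputable def f_pp_102_a : ℕ → ℕ → ℕ → ℕ → Bool := onCell 0 536870912 0 536870912 923417968 42949674
    (rowB 3 eng mog cd2q1 cd1q2a pd0 2 false true true .npp 1 0 2 (qsf 536870912 536870912 0 536870912 0) ndB2q1 ndB1q2a pcB0 cut_pp_102_a Ext.none)

def k0_pp_102_a : ∃ t, chk3 f_pp_102_a t 2 2 1 = true :=
  ⟨(a (b (l 2) (a (l 2) (a (l 2) (a (l 2) (b (l 2) (a (l 2) (l 15544848))))))) (a (a (b (a (l 2) (b (l 15156000) (a (l 15278504) (l 15302544)))) (a (b (l 15394264) (l 15763136)) (b (l 15436952) (l 15609504)))) (b (a (b (l 15198224) (b (l 15293904) (l 15359336))) (b (l 15237144) (l 15330176))) (a (b (l 15466384) (l 15634336)) (l 15558360)))) (b (a (b (a (l 15242240) (l 15222416)) (l 15339352)) (b (l 15230264) (l 15355128))) (a (b (l 15482160) (l 15653896)) (b (l 15501200) (l 15674680)))))), by decide +kernel⟩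

def k1_pp_102_a : ∃ t, chk3 f_pp_102_a t 4 3 1 = true :=
  ⟨(b (a (l 2) (b (a (l 2) (b (a (a (l 2) (l 15671360)) (l 15719424)) (a (a (l 15779128) (l 15794872)) (l 15839120)))) (a (a (b (l 2) (a (l 2) (l 16027248))) (a (b (l 15968976) (a (l 16031224) (l 16037192))) (b (l 15900088) (l 16046696)))) (a (b (a (l 15914072) (l 15927280)) (a (l 16057976) (l 16068496))) (b (l 15988440) (l 16062448)))))) (a (b (a (l 2) (b (a (l 2) (a (l 2) (b (l 2) (l 16218384)))) (a (l 6) (a (l 6) (a (l 6) (l 16377888)))))) (a (l 6) (a (l 6) (a (l 6) (a (l 6) (a (l 6) (b (b (l 16477408) (l 16544984)) (b (l 16542960) (b (l 16652640) (l 16642496)))))))))) (a (b (a (b (a (b (l 16140896) (l 16222552)) (l 16165480)) (b (l 16287856) (l 16400320))) (b (a (l 16207040) (l 16202272)) (b (a (l 16317176) (l 16324184)) (a (l 16402256) (l 16403496))))) (b (b (a (b (c (l 16445384) (l 16428784)) (l 16480960)) (a (b (l 16434928) (l 16482744)) (l 16462448))) (a (c (l 16545392) (l 16527184)) (l 16552352)))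 (c (b (a (b (l 16590488) (l 16621168)) (l 16590168)) (a (b (l 16610320) (a (l 16688520) (l 16678904))) (b (l 16634472) (l 16664528)))) (b (a (b (l 16570440) (l 16599952)) (l 16564744)) (a (b (l 16608960) (b (l 16631704) (l 16626048))) (b (l 16607544) (l 16594728))))))) (b (a (b (a (l 16210680) (l 16218344)) (b (l 16332496) (l 16399896))) (b (l 16228728) (b (l 16336256) (l 16390048)))) (b (a (b (l 16452480) (l 16505488)) (b (l 16439640) (l 16490864))) (b (a (c (l 16574648) (l 16544888)) (c (l 16559976) (l 16526344))) (a (b (l 16539072) (c (l 16645880) (l 16614008))) (c (l 16614728) (l 16537672))))))))), by decide +kernel⟩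

def k2_pp_102_a : ∃ t, chk3 f_pp_102_a t 5 3 1 = true :=
  ⟨(a (b (a (b (a (l 15780024) (l 15793496)) (a (b (l 15968336) (l 16100088)) (l 16114800))) (b (a (l 15833800) (l 15841608)) (b (l 15985952) (l 16129576)))) (b (a (b (a (l 16238920) (l 16244728)) (a (l 16393128) (l 16347792))) (b (b (l 16199920) (l 16269464)) (l 16357632))) (a (b (b (l 16422616) (a (l 16477608) (l 16466176))) (b (a (l 16465816) (l 16474064)) (c (a (l 16599664) (l 16586792)) (a (l 16540392) (l 16545760))))) (b (b (l 16404400) (l 16367480)) (b (a (l 16462736) (l 16452192)) (a (l 16480808) (l 16500320))))))) (b (b (a (l 15855016) (l 15875792)) (a (b (l 16023248) (l 16144376)) (b (l 16042720) (l 16152816)))) (b (a (b (l 16240368) (l 16324744)) (b (l 16236224) (l 16315784))) (b (a (c (l 16435320) (l 16387856)) (c (l 16423960) (l 16372640))) (a (b (l 16427352) (c (l 16548904) (l 16500904))) (b (l 16462720) (l 16442736))))))), by decide +kernel⟩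

def k3_pp_102_a : ∃ t, chk3 f_pp_102_a t 3 1 1 = true :=
  ⟨(b (a (b (a (a (l 15316952) (l 15342680)) (l 15390672)) (a (a (l 15655952) (l 15641816)) (a (l 15672632) (l 15705992)))) (b (a (l 15469512) (l 15562496)) (a (b (l 15676136) (l 15840280)) (b (l 15759112) (l 15912544))))) (a (b (a (b (a (l 15899160) (l 15924448)) (b (a (l 16064848) (l 16083792)) (a (l 16157680) (l 16163000)))) (b (a (l 15951144) (l 15979936)) (b (l 16101392) (l 16168240)))) (a (b (a (b (l 16233216) (l 16309272)) (l 16080176)) (b (a (l 16388048) (l 16377656)) (a (c (l 16493072) (l 16440312)) (l 16304104)))) (b (a (l 16160800) (l 16261448)) (b (a (l 16365800) (l 16351544)) (a (l 16284720) (l 16282912)))))) (b (a (b (b (l 15973584) (l 16063488)) (l 16128088)) (b (l 15858776) (l 16162632))) (a (b (b (l 16225472) (l 16275992)) (b (l 16219376) (a (l 16273264) (l 16264648)))) (b (a (l 16239880) (l 16233456)) (b (l 16284440) (a (l 16298112) (l 16287992)))))))), by decide +kernel⟩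

theorem s4_pp_102_a : ∃ t, chk3 f_pp_102_a t 2 3 1 = true := ex3_a k1_pp_102_a k2_pp_102_a

theorem s5_pp_102_a : ∃ t, chk3 f_pp_102_a t 2 1 1 = true := ex3_b k0_pp_102_a s4_pp_102_a

theorem s6_pp_102_a : ∃ t, chk3 f_pp_102_a t 1 1 1 = true := ex3_a s5_pp_102_a k3_pp_102_a

theorem c_pp_102_a : CertB 536870912 536870912 0 536870912 923417968 42949674 3 eng mog cd2q1 cd1q2a pd0 false true true .npp 1 0 2
    ndB2q1 ndB1q2a pcB0 cut_pp_102_a Ext.none :=
  certB2 (fam := false) (s1 := true) (s2 := true) (a := 1) (b := 0) (c := 2) (cn := .npp) (n1 := ndB2q1) (n2 := ndB1q2a) (pc := pcB0) (cut := cut_pp_102_a) (xt := Ext.none) (P1 := 536870912) (W1 := 536870912) (P2 := 0) (W2 := 536870912) (P3 := 923417968) (W3 := 42949674) (N0 := 3) (En := eng) (mo := mog) (C1 := cd2q1) (C2 := cd1q2a) (C3 := pd0)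
    rfl (fun _ => rfl) s6_pp_102_a

end Pool.Agent.Strip051.G.I8600_9000.Tab.C.BB21

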