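import Pool.Agent.Strip051.G.I8600_9000.Tab

/-! # Certificates B18 (generated) -/

set_option linter.all false
set_option maxRecDepth 100000

namespace Pool.Agent.Strip051.G.I8600_9000.Tab.C.BB21

open Pool.Agent.Strip051.PB Pool.Agent.Strip051.PB.T
open Pool.Agent.Strip051.G.I8600_9000.Tab

noncomputable def cut_pp_102_b : Cut := Cut.of [[⟨0, 1, 0, 67108864⟩, ⟨1, 0, 0, 67108864⟩, ⟨2, 1, 0, 67108864⟩]]

noncomputable def f_pp_102_b : ℕ → ℕ → ℕ → ℕ → Bool := onCell 536870912 536870912 0 536870912 923417968 42949674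
    (rowB 3 eng mog cd2q1 cd1q2b pd0 1 false true true .npp 1 0 2 (qsf 536870912 536870912 1239849684 370763052 0) ndB2q1 ndB1q2b pcB0 cut_pp_102_b Ext.none)

def k0_pp_102_b : ∃ t, chk3 f_pp_102_b t 1 1 1 = true :=
  ⟨(a (b (l 1) (b (l 1) (a (l 1) (b (a (l 1) (l 15475216)) (a (l 15561560) (l 15310568)))))) (b (a (l 1) (b (l 1) (a (b (l 1) (b (l 301752462231) (l 170218699559))) (b (b (b (l 1) (l 369935202599)) (b (l 194377767415) (l 15189048))) (b (l 15056960) (b (l 14952328) (l 14873296))))))) (b (a (b (a (l 1) (l 297994312695)) (a (l 15427768) (l 15109008))) (b (a (l 15037664) (l 14694448)) (a (l 14792056) (l 14458632)))) (a (b (a (l 15200888) (l 14908080)) (l 14922304)) (b (a (l 14599840) (l 14279408)) (l 14310256)))))), by decide +kernel⟩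

theorem c_pp_102_b : CertB 536870912 536870912 1239849684 370763052 923417968 42949674 3 eng mog cd2q1 cd1q2b pd0 false true true .npp 1 0 2
    ndB2q1 ndB1q2b pcB0 cut_pp_102_b Ext.none :=
  certB1 (fam := false) (s1 := true) (s2 := true) (a := 1) (b := 0) (c := 2) (cn := .npp) (n1 := ndB2q1) (n2 := ndB1q2b) (pc := pcB0) (cut := cut_pp_102_b) (xt := Ext.none) (P1 := 536870912) (W1 := 536870912) (P2 := 1239849684) (W2 := 370763052) (P3 := 923417968) (W3 := 42949674) (N0 := 3) (En := eng) (mo := mog) (C1 := cd2q1) (C2 := cd1q2b) (C3 := pd0)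
    rfl (fun _ => rfl) k0_pp_102_b

noncomputable def f_pp_112_a : ℕ → ℕ → ℕ → ℕ → Bool := onCell 536870912 536870912 0 536870912 923417968 42949674
    (rowB 3 eng mog cd2q1 cd1q2a pd1 2 false true true .dn 1 1 2 (qsf 536870912 536870912 0 536870912 1) ndB2q1 ndB1q2a pcB1 Cut.none Ext.none)

def k0_pp_112_a : ∃ t, chk3 f_pp_112_a t 1 1 1 = true :=
  ⟨(a (a (b (b (a (l 15449352) (l 15511816)) (a (c (l 15521352) (l 15476680)) (c (l 15586896) (l 15550936)))) (b (a (b (b (a (l 15530840) (l 15571616)) (a (l 15595584) (l 15640376))) (c (a (l 15754000) (l 15784168)) (l 15722720))) (b (b (a (l 15609248) (l 15643632)) (l 15695168)) (a (l 15816152) (l 15813696)))) (a (b (a (a (l 15909616) (l 15915496)) (b (l 15899608) (l 15983712))) (b (a (l 16071768) (l 16062448)) (a (c (l 16176768) (l 16128384)) (l 1)))) (b (c (l 372620311463) (l 15923600)) (l 1))))) (b (a (b (l 15555160) (b (l 15601544) (l 461203903671))) (l 1)) (b (l 1) (l 1)))) (l 1)), by decide +kernel⟩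

theorem c_pp_112_a : CertB 536870912 536870912 0 536870912 923417968 42949674 3 eng mog cd2q1 cd1q2a pd1 false true true .dn 1 1 2
    ndB2q1 ndB1q2a pcB1 Cut.none Ext.none :=
  certB2 (fam := false) (s1 := true) (s2 := true) (a := 1) (b := 1) (c := 2) (cn := .dn) (n1 := ndB2q1) (n2 := ndB1q2a) (pc := pcB1) (cut := Cut.none) (xt := Ext.none) (P1 := 536870912) (W1 := 536870912) (P2 := 0) (W2 := 536870912) (P3 := 923417968) (W3 := 42949674) (N0 := 3) (En := eng) (mo := mog) (C1 := cd2q1) (C2 := cd1q2a) (C3 := pd1)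
    rfl (fun _ => rfl) k0_pp_112_a

noncomputable def f_pp_112_b : ℕ → ℕ → ℕ → ℕ → Bool := onCell 536870912 536870912 1239849684 370763052 923417968 42949674
    (rowB 3 eng mog cd2q1 cd1q2b pd1 2 false true true .dn 1 1 2 (qsf 536870912 536870912 1239849684 370763052 1) ndB2q1 ndB1q2b pcB1 Cut.none Ext.none)

def k0_pp_112_b : ∃ t, chk3 f_pp_112_b t 1 1 1 = true :=
  ⟨(a (b (a (b (a (l 15308880) (l 15382320)) (a (l 15013192) (l 15122200))) (b (a (l 15433152) (l 15504432)) (a (l 15204280) (l 15259648)))) (a (b (a (l 14680632) (l 14827016)) (l 14461792)) (b (l 15052464) (l 14724952)))) (b (a (b (l 1) (a (l 15288936) (l 15293112))) (l 1)) (a (b (l 15175016) (l 14874312)) (b (l 434896077591) (l 14864552))))), by decide +kernel⟩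

theorem c_pp_112_b : CertB 536870912 536870912 1239849684 370763052 923417968 42949674 3 eng mog cd2q1 cd1q2b pd1 false true true .dn 1 1 2
    ndB2q1 ndB1q2b pcB1 Cut.none Ext.none :=
  certB2 (fam := false) (s1 := true) (s2 := true) (a := 1) (b := 1) (c := 2) (cn := .dn) (n1 := ndB2q1) (n2 := ndB1q2b) (pc := pcB1) (cut := Cut.none) (xt := Ext.none) (P1 := 536870912) (W1 := 536870912) (P2 := 1239849684) (W2 := 370763052) (P3 := 923417968) (W3 := 42949674) (N0 := 3) (En := eng) (mo := mog) (C1 := cd2q1) (C2 := cd1q2b) (C3 := pd1)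
    rfl (fun _ => rfl) k0_pp_112_b

noncomputable def f_pp_113 : ℕ → ℕ → ℕ → ℕ → Bool := onCell 536870912 536870912 1610612736 536870912 923417968 42949674
    (rowB 3 eng mog cd2q1 cd1q3 pd1 2 false true true .nn 1 1 3 (qsf 536870912 536870912 1610612736 536870912 1) ndB2q1 ndB1q3 pcB1 Cut.none Ext.none)

def k0_pp_113 : ∃ t, chk3 f_pp_113 t 1 1 1 = true :=
  ⟨(a (b (a (b (b (l 14250336) (l 13984792)) (b (l 13702888) (l 2))) (b (b (l 14535856) (l 14369152)) (l 14187192))) (b (a (l 2) (l 357651408119)) (l 2))) (b (b (a (b (l 14657632) (l 14561488)) (b (l 14573816) (l 14504184))) (a (l 14516248) (l 14549896))) (a (b (l 14858040) (l 915464565255)) (b (l 15380688) (b (l 16815376) (l 16547448)))))), by decide +kernel⟩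

theorem c_pp_113 : CertB 536870912 536870912 1610612736 536870912 923417968 42949674 3 eng mog cd2q1 cd1q3 pd1 false true true .nn 1 1 3
    ndB2q1 ndB1q3 pcB1 Cut.none Ext.none :=
  certB2 (fam := false) (s1 := true) (s2 := true) (a := 1) (b := 1) (c := 3) (cn := .nn) (n1 := ndB2q1) (n2 := ndB1q3) (pc := pcB1) (cut := Cut.none) (xt := Ext.none) (P1 := 536870912) (W1 := 536870912) (P2 := 1610612736) (W2 := 536870912) (P3 := 923417968) (W3 := 42949674) (N0 := 3) (En := eng) (mo := mog) (C1 := cd2q1) (C2 := cd1q3) (C3 := pd1)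
    rfl (fun _ => rfl) k0_pp_113

noncomputable def f_pp_123 : ℕ → ℕ → ℕ → ℕ → Bool := onCell 1073741824 536870912 1610612736 536870912 923417968 42949674
    (rowB 3 eng mog cd2q1 cd1q3 pd2 2 false true true .npn 1 2 3 (qsf 536870912 536870912 1610612736 536870912 2) ndB2q1 ndB1q3 pcB2 Cut.none Ext.none)

def k0_pp_123 : ∃ t, chk3 f_pp_123 t 1 1 1 = true :=
  ⟨(a (b (a (b (a (l 14641608) (l 14907560)) (a (l 14614920) (l 14913024))) (b (a (l 15145192) (l 1)) (a (l 15199440) (l 15447496)))) (a (b (a (l 15161928) (l 15262688)) (b (a (l 16826912) (l 16049456)) (l 16835792))) (b (a (l 15336672) (l 15739688)) (b (l 16111800) (l 4))))) (b (a (b (l 1) (a (l 15660200) (l 1))) (l 1)) (b (a (a (l 15937888) (l 16099296)) (l 4)) (l 4)))), by decide +kernel⟩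

theorem c_pp_123 : CertB 536870912 536870912 1610612736 536870912 923417968 42949674 3 eng mog cd2q1 cd1q3 pd2 false true true .npn 1 2 3
    ndB2q1 ndB1q3 pcB2 Cut.none Ext.none :=
  certB2 (fam := false) (s1 := true) (s2 := true) (a := 1) (b := 2) (c := 3) (cn := .npn) (n1 := ndB2q1) (n2 := ndB1q3) (pc := pcB2) (cut := Cut.none) (xt := Ext.none) (P1 := 536870912) (W1 := 536870912) (P2 := 1610612736) (W2 := 536870912) (P3 := 923417968) (W3 := 42949674) (N0 := 3) (En := eng) (mo := mog) (C1 := cd2q1) (C2 := cd1q3) (C3 := pd2)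
    rfl (fun _ => rfl) k0_pp_123

noncomputable def f_pp_133 : ℕ → ℕ → ℕ → ℕ → Bool := onCell 1610612736 536870912 1610612736 536870912 923417968 42949674
    (rowB 3 eng mog cd2q1 cd1q3 pd3 2 false true true .dn 1 3 3 (qsf 536870912 536870912 1610612736 536870912 3) ndB2q1 ndB1q3 pcB3 Cut.none Ext.none)

def k0_pp_133 : ∃ t, chk3 f_pp_133 t 1 1 1 = true :=
  ⟨(a (b (l 1) (a (l 4) (l 1))) (l 1)), by decide +kernel⟩

theorem c_pp_133 : CertB 536870912 536870912 1610612736 536870912 923417968 42949674 3 eng mog cd2q1 cd1q3 pd3 false true true .dn 1 3 3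
    ndB2q1 ndB1q3 pcB3 Cut.none Ext.none :=
  certB2 (fam := false) (s1 := true) (s2 := true) (a := 1) (b := 3) (c := 3) (cn := .dn) (n1 := ndB2q1) (n2 := ndB1q3) (pc := pcB3) (cut := Cut.none) (xt := Ext.none) (P1 := 536870912) (W1 := 536870912) (P2 := 1610612736) (W2 := 536870912) (P3 := 923417968) (W3 := 42949674) (N0 := 3) (En := eng) (mo := mog) (C1 := cd2q1) (C2 := cd1q3) (C3 := pd3)
    rfl (fun _ => rfl) k0_pp_133

noncomputable def f_pp_202_a : ℕ → ℕ → ℕ → ℕ → Bool := onCell 1073741824 536870912 0 536870912 923417968 42949674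
    (rowB 3 eng mog cd2q2 cd1q2a pd0 0 false true true .pp 2 0 2 (qsf 1073741824 536870912 0 536870912 0) ndB2q2 ndB1q2a pcB0 Cut.none Ext.none)

def k0_pp_202_a : ∃ t, chk3 f_pp_202_a t 1 1 1 = true :=
  ⟨(l 3), by decide +kernel⟩

theorem c_pp_202_a : CertB 1073741824 536870912 0 536870912 923417968 42949674 3 eng mog cd2q2 cd1q2a pd0 false true true .pp 2 0 2
    ndB2q2 ndB1q2a pcB0 Cut.none Ext.none :=
  certB0 (fam := false) (s1 := true) (s2 := true) (a := 2) (b := 0) (c := 2) (cn := .pp) (n1 := ndB2q2) (n2 := ndB1q2a) (pc := pcB0) (cut := Cut.none) (xt := Ext.none) (P1 := 1073741824) (W1 := 536870912) (P2 := 0) (W2 := 536870912) (P3 := 923417968) (W3 := 42949674) (N0 := 3) (En := eng) (mo := mog) (C1 := cd2q2) (C2 := cd1q2a) (C3 := pd0)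
    rfl k0_pp_202_a

noncomputable def f_pp_202_b : ℕ → ℕ → ℕ → ℕ → Bool := onCell 1073741824 536870912 1239849684 370763052 923417968 42949674
    (rowB 3 eng mog cd2q2 cd1q2b pd0 0 false true true .pp 2 0 2 (qsf 1073741824 536870912 1239849684 370763052 0) ndB2q2 ndB1q2b pcB0 Cut.none Ext.none)

def k0_pp_202_b : ∃ t, chk3 f_pp_202_b t 1 1 1 = true :=
  ⟨(l 3), by decide +kernel⟩

theorem c_pp_202_b : CertB 1073741824 536870912 1239849684 370763052 923417968 42949674 3 eng mog cd2q2 cd1q2b pd0 false true true .pp 2 0 2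
    ndB2q2 ndB1q2b pcB0 Cut.none Ext.none :=
  certB0 (fam := false) (s1 := true) (s2 := true) (a := 2) (b := 0) (c := 2) (cn := .pp) (n1 := ndB2q2) (n2 := ndB1q2b) (pc := pcB0) (cut := Cut.none) (xt := Ext.none) (P1 := 1073741824) (W1 := 536870912) (P2 := 1239849684) (W2 := 370763052) (P3 := 923417968) (W3 := 42949674) (N0 := 3) (En := eng) (mo := mog) (C1 := cd2q2) (C2 := cd1q2b) (C3 := pd0)
    rfl k0_pp_202_b

noncomputable def f_pp_203 : ℕ → ℕ → ℕ → ℕ → Bool := onCell 1073741824 536870912 0 536870912 923417968 42949674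
    (rowB 3 eng mog cd2q2 cd1q3 pd0 1 false true true .up 2 0 3 (qsf 1073741824 536870912 1610612736 536870912 0) ndB2q2 ndB1q3 pcB0 Cut.none Ext.none)

def k0_pp_203 : ∃ t, chk3 f_pp_203 t 1 1 1 = true :=
  ⟨(l 3), by decide +kernel⟩

theorem c_pp_203 : CertB 1073741824 536870912 1610612736 536870912 923417968 42949674 3 eng mog cd2q2 cd1q3 pd0 false true true .up 2 0 3
    ndB2q2 ndB1q3 pcB0 Cut.none Ext.none :=
  certB1 (fam := false) (s1 := true) (s2 := true) (a := 2) (b := 0) (c := 3) (cn := .up) (n1 := ndB2q2) (n2 := ndB1q3) (pc := pcB0) (cut := Cut.none) (xt := Ext.none) (P1 := 1073741824) (W1 := 536870912) (P2 := 1610612736) (W2 := 536870912) (P3 := 923417968) (W3 := 42949674) (N0 := 3) (En := eng) (mo := mog) (C1 := cd2q2) (C2 := cd1q3) (C3 := pd0)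
    rfl (fun _ => rfl) k0_pp_203

noncomputable def f_pp_213 : ℕ → ℕ → ℕ → ℕ → Bool := onCell 1073741824 536870912 1610612736 536870912 923417968 42949674
    (rowB 3 eng mog cd2q2 cd1q3 pd1 0 false true true .pnn 2 1 3 (qsf 1073741824 536870912 1610612736 536870912 1) ndB2q2 ndB1q3 pcB1 Cut.none Ext.none)

def k0_pp_213 : ∃ t, chk3 f_pp_213 t 1 1 1 = true :=
  ⟨(a (b (l 3) (b (l 3) (a (b (a (b (l 3) (a (b (l 3) (a (c (l 384566502167) (l 379197696359)) (l 3))) (l 3))) (l 3)) (a (b (a (a (b (l 88213753207) (l 16444240)) (b (l 380808407047) (l 16452608))) (b (l 3) (a (l 16459680) (l 16465888)))) (a (b (a (l 16468568) (l 16483480)) (a (l 16483952) (l 16507616))) (b (a (l 16495672) (l 16506456)) (a (l 16530096) (l 16545912))))) (b (l 3) (a (b (b (l 16510632) (l 16530296)) (a (l 16559696) (l 16570512))) (b (l 3) (l 358797022375)))))) (l 3)))) (l 3)), by decide +kernel⟩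

theorem c_pp_213 : CertB 1073741824 536870912 1610612736 536870912 923417968 42949674 3 eng mog cd2q2 cd1q3 pd1 false true true .pnn 2 1 3
    ndB2q2 ndB1q3 pcB1 Cut.none Ext.none :=
  certB0 (fam := false) (s1 := true) (s2 := true) (a := 2) (b := 1) (c := 3) (cn := .pnn) (n1 := ndB2q2) (n2 := ndB1q3) (pc := pcB1) (cut := Cut.none) (xt := Ext.none) (P1 := 1073741824) (W1 := 536870912) (P2 := 1610612736) (W2 := 536870912) (P3 := 923417968) (W3 := 42949674) (N0 := 3) (En := eng) (mo := mog) (C1 := cd2q2) (C2 := cd1q3) (C3 := pd1)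
    rfl k0_pp_213

noncomputable def f_pp_303 : ℕ → ℕ → ℕ → ℕ → Bool := onCell 0 1230186008 1610612736 536870912 923417968 42949674
    (rowB 3 eng mog cd2q3 cd1q3 pd0 0 false true true .npn 3 0 3 (qsf 0 1230186008 1610612736 536870912 0) ndB2q3 ndB1q3 pcB0 Cut.none Ext.none)

def k0_pp_303 : ∃ t, chk3 f_pp_303 t 1 1 1 = true :=
  ⟨(a (l 3) (l 3)), by decide +kernel⟩

theorem c_pp_303 : CertB 0 1230186008 1610612736 536870912 923417968 42949674 3 eng mog cd2q3 cd1q3 pd0 false true true .npn 3 0 3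
    ndB2q3 ndB1q3 pcB0 Cut.none Ext.none :=
  certB0 (fam := false) (s1 := true) (s2 := true) (a := 3) (b := 0) (c := 3) (cn := .npn) (n1 := ndB2q3) (n2 := ndB1q3) (pc := pcB0) (cut := Cut.none) (xt := Ext.none) (P1 := 0) (W1 := 1230186008) (P2 := 1610612736) (W2 := 536870912) (P3 := 923417968) (W3 := 42949674) (N0 := 3) (En := eng) (mo := mog) (C1 := cd2q3) (C2 := cd1q3) (C3 := pd0)
    rfl k0_pp_303

noncomputable def f_pp_313 : ℕ → ℕ → ℕ → ℕ → Bool := onCell 0 1230186008 1610612736 536870912 923417968 42949674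
    (rowB 3 eng mog cd2q3 cd1q3 pd1 0 false true true .dn 3 1 3 (qsf 0 1230186008 1610612736 536870912 1) ndB2q3 ndB1q3 pcB1 Cut.none Ext.none)

def k0_pp_313 : ∃ t, chk3 f_pp_313 t 1 1 1 = true :=
  ⟨(a (l 1) (l 3)), by decide +kernel⟩

theorem c_pp_313 : CertB 0 1230186008 1610612736 536870912 923417968 42949674 3 eng mog cd2q3 cd1q3 pd1 false true true .dn 3 1 3
    ndB2q3 ndB1q3 pcB1 Cut.none Ext.none :=
  certB0 (fam := false) (s1 := true) (s2 := true) (a := 3) (b := 1) (c := 3) (cn := .dn) (n1 := ndB2q3) (n2 := ndB1q3) (pc := pcB1) (cut := Cut.none) (xt := Ext.none) (P1 := 0) (W1 := 1230186008) (P2 := 1610612736) (W2 := 536870912) (P3 := 923417968) (W3 := 42949674) (N0 := 3) (En := eng) (mo := mog) (C1 := cd2q3) (C2 := cd1q3) (C3 := pd1)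
    rfl k0_pp_313

noncomputable def f_pm_001 : ℕ → ℕ → ℕ → ℕ → Bool := onCell 0 536870912 536870912 536870912 923417968 42949674
    (rowB 3 eng mog cd2q0 cd1q1 pd0 0 false true false .up 0 0 1 (qsf 0 536870912 536870912 536870912 0) ndB2q0 ndB1q1 pcB0 Cut.none Ext.none)

def k0_pm_001 : ∃ t, chk3 f_pm_001 t 1 1 1 = true :=
  ⟨(l 4), by decide +kernel⟩

theorem c_pm_001 : CertB 0 536870912 536870912 536870912 923417968 42949674 3 eng mog cd2q0 cd1q1 pd0 false true false .up 0 0 1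
    ndB2q0 ndB1q1 pcB0 Cut.none Ext.none :=
  certB0 (fam := false) (s1 := true) (s2 := false) (a := 0) (b := 0) (c := 1) (cn := .up) (n1 := ndB2q0) (n2 := ndB1q1) (pc := pcB0) (cut := Cut.none) (xt := Ext.none) (P1 := 0) (W1 := 536870912) (P2 := 536870912) (W2 := 536870912) (P3 := 923417968) (W3 := 42949674) (N0 := 3) (En := eng) (mo := mog) (C1 := cd2q0) (C2 := cd1q1) (C3 := pd0)
    rfl k0_pm_001

noncomputable def f_pm_011 : ℕ → ℕ → ℕ → ℕ → Bool := onCell 0 536870912 536870912 536870912 923417968 42949674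
    (rowB 3 eng mog cd2q0 cd1q1 pd1 0 false true false .pnn 0 1 1 (qsf 0 536870912 536870912 536870912 1) ndB2q0 ndB1q1 pcB1 Cut.none Ext.none)

def k0_pm_011 : ∃ t, chk3 f_pm_011 t 1 1 1 = true :=
  ⟨(l 4), by decide +kernel⟩

theorem c_pm_011 : CertB 0 536870912 536870912 536870912 923417968 42949674 3 eng mog cd2q0 cd1q1 pd1 false true false .pnn 0 1 1
    ndB2q0 ndB1q1 pcB1 Cut.none Ext.none :=
  certB0 (fam := false) (s1 := true) (s2 := false) (a := 0) (b := 1) (c := 1) (cn := .pnn) (n1 := ndB2q0) (n2 := ndB1q1) (pc := pcB1) (cut := Cut.none) (xt := Ext.none) (P1 := 0) (W1 := 536870912) (P2 := 536870912) (W2 := 536870912) (P3 := 923417968) (W3 := 42949674) (N0 := 3) (En := eng) (mo := mog) (C1 := cd2q0) (C2 := cd1q1) (C3 := pd1)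
    rfl k0_pm_011

noncomputable def f_pm_012_a : ℕ → ℕ → ℕ → ℕ → Bool := onCell 536870912 536870912 0 536870912 923417968 42949674
    (rowB 3 eng mog cd2q0 cd1q2a pd1 2 false true false .pnp 0 1 2 (qsf 0 536870912 0 536870912 1) ndB2q0 ndB1q2a pcB1 Cut.none Ext.none)

def k0_pm_012_a : ∃ t, chk3 f_pm_012_a t 1 1 1 = true :=
  ⟨(a (b (b (a (l 2) (b (a (l 15035584) (l 15048504)) (l 4))) (l 4)) (l 4)) (b (b (a (a (a (l 15120864) (l 15137000)) (a (l 15155496) (l 15176104))) (a (a (a (l 15193016) (b (l 15175528) (l 4))) (c (l 15319072) (a (l 15163112) (l 15379832)))) (a (b (c (l 15294936) (l 15189352)) (l 15277768)) (a (b (l 15290784) (l 15302784)) (b (l 15329936) (b (l 15304336) (l 4))))))) (a (l 4) (l 4))) (l 4))), by decide +kernel⟩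

theorem c_pm_012_a : CertB 0 536870912 0 536870912 923417968 42949674 3 eng mog cd2q0 cd1q2a pd1 false true false .pnp 0 1 2
    ndB2q0 ndB1q2a pcB1 Cut.none Ext.none :=
  certB2 (fam := false) (s1 := true) (s2 := false) (a := 0) (b := 1) (c := 2) (cn := .pnp) (n1 := ndB2q0) (n2 := ndB1q2a) (pc := pcB1) (cut := Cut.none) (xt := Ext.none) (P1 := 0) (W1 := 536870912) (P2 := 0) (W2 := 536870912) (P3 := 923417968) (W3 := 42949674) (N0 := 3) (En := eng) (mo := mog) (C1 := cd2q0) (C2 := cd1q2a) (C3 := pd1)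
    rfl (fun _ => rfl) k0_pm_012_a

noncomputable def f_pm_012_b : ℕ → ℕ → ℕ → ℕ → Bool := onCell 0 536870912 1239849684 370763052 923417968 42949674
    (rowB 3 eng mog cd2q0 cd1q2b pd1 0 false true false .pnp 0 1 2 (qsf 0 536870912 1239849684 370763052 1) ndB2q0 ndB1q2b pcB1 Cut.none Ext.none)

def k0_pm_012_b : ∃ t, chk3 f_pm_012_b t 1 1 1 = true :=
  ⟨(a (b (a (l 2) (a (b (b (a (a (l 2) (l 15240416)) (a (l 15227544) (l 15185136))) (l 2)) (l 2)) (b (a (b (l 15124816) (l 14869896)) (b (c (l 15126440) (a (l 15015056) (l 15003552))) (a (l 14825600) (l 14811368)))) (a (l 2) (l 4))))) (l 2)) (b (b (b (a (a (a (a (b (l 15114752) (l 14988024)) (l 15043296)) (b (l 15084976) (l 14969784))) (a (l 15012128) (l 14999152))) (a (a (l 14986560) (l 14976568)) (l 15200312))) (a (a (a (c (l 14870056) (l 14740096)) (l 14888096)) (a (l 14849128) (l 4))) (l 4))) (l 4)) (l 4))), by decide +kernel⟩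

theorem c_pm_012_b : CertB 0 536870912 1239849684 370763052 923417968 42949674 3 eng mog cd2q0 cd1q2b pd1 false true false .pnp 0 1 2
    ndB2q0 ndB1q2b pcB1 Cut.none Ext.none :=
  certB0 (fam := false) (s1 := true) (s2 := false) (a := 0) (b := 1) (c := 2) (cn := .pnp) (n1 := ndB2q0) (n2 := ndB1q2b) (pc := pcB1) (cut := Cut.none) (xt := Ext.none) (P1 := 0) (W1 := 536870912) (P2 := 1239849684) (W2 := 370763052) (P3 := 923417968) (W3 := 42949674) (N0 := 3) (En := eng) (mo := mog) (C1 := cd2q0) (C2 := cd1q2b) (C3 := pd1)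
    rfl k0_pm_012_b

noncomputable def f_pm_022_a : ℕ → ℕ → ℕ → ℕ → Bool := onCell 0 536870912 0 536870912 923417968 42949674
    (rowB 3 eng mog cd2q0 cd1q2a pd2 0 false true false .pp 0 2 2 (qsf 0 536870912 0 536870912 2) ndB2q0 ndB1q2a pcB2 Cut.none Ext.none)

def k0_pm_022_a : ∃ t, chk3 f_pm_022_a t 1 1 1 = true :=
  ⟨(a (a (b (b (a (a (l 16268856) (b (l 16152448) (l 16121936))) (a (a (l 15931120) (a (l 15805968) (l 15772640))) (a (c (l 15706272) (l 15659104)) (b (l 15615744) (l 15650512))))) (b (a (a (l 16314840) (a (l 16160808) (l 16019208))) (a (a (l 15870824) (a (l 15762784) (l 15708640))) (a (a (l 15654696) (l 4)) (l 4)))) (a (a (a (l 16414848) (l 16289048)) (a (l 16156880) (l 4))) (l 4)))) (b (a (l 4) (l 4)) (l 4))) (b (b (a (b (a (a (l 15505208) (l 15393696)) (l 1)) (a (a (l 15431264) (l 15318472)) (l 1))) (l 1)) (l 4)) (l 4))) (l 1)), by decide +kernel⟩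

theorem c_pm_022_a : CertB 0 536870912 0 536870912 923417968 42949674 3 eng mog cd2q0 cd1q2a pd2 false true false .pp 0 2 2
    ndB2q0 ndB1q2a pcB2 Cut.none Ext.none :=
  certB0 (fam := false) (s1 := true) (s2 := false) (a := 0) (b := 2) (c := 2) (cn := .pp) (n1 := ndB2q0) (n2 := ndB1q2a) (pc := pcB2) (cut := Cut.none) (xt := Ext.none) (P1 := 0) (W1 := 536870912) (P2 := 0) (W2 := 536870912) (P3 := 923417968) (W3 := 42949674) (N0 := 3) (En := eng) (mo := mog) (C1 := cd2q0) (C2 := cd1q2a) (C3 := pd2)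
    rfl k0_pm_022_a

noncomputable def f_pm_022_b : ℕ → ℕ → ℕ → ℕ → Bool := onCell 0 536870912 1239849684 370763052 923417968 42949674
    (rowB 3 eng mog cd2q0 cd1q2b pd2 0 false true false .pp 0 2 2 (qsf 0 536870912 1239849684 370763052 2) ndB2q0 ndB1q2b pcB2 Cut.none Ext.none)

def k0_pm_022_b : ∃ t, chk3 f_pm_022_b t 1 1 1 = true :=
  ⟨(a (b (b (a (a (b (a (l 16337448) (a (l 16212072) (l 16099600))) (a (l 16313264) (l 16146848))) (a (a (b (l 15976208) (l 15992064)) (b (a (l 15883904) (l 15835856)) (a (l 15910456) (l 15866728)))) (a (b (a (l 15786672) (l 15736752)) (l 15801168)) (b (a (l 15686128) (l 15634856)) (l 15747720))))) (a (a (b (a (l 15621120) (l 15452192)) (a (l 15606992) (l 15505168))) (b (a (l 15351968) (l 15175256)) (a (l 15388632) (l 15240384)))) (b (a (l 342017139607) (l 1)) (a (l 243769912439) (l 433821573303))))) (b (a (a (a (l 16273936) (l 16144272)) (a (a (l 16016440) (l 15930544)) (a (l 15851896) (l 15766528)))) (a (a (a (l 15677192)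 (l 15584472)) (a (l 15478688) (l 15345256))) (a (l 15134808) (l 4)))) (a (a (a (l 16145376) (l 16144480)) (a (a (l 16045184) (l 15974496)) (a (l 15910264) (l 15840120)))) (l 4)))) (a (b (a (b (a (l 16018336) (l 16141680)) (l 4)) (l 4)) (l 4)) (l 4))) (b (b (l 1) (l 4)) (l 4))), by decide +kernel⟩

theorem c_pm_022_b : CertB 0 536870912 1239849684 370763052 923417968 42949674 3 eng mog cd2q0 cd1q2b pd2 false true false .pp 0 2 2
    ndB2q0 ndB1q2b pcB2 Cut.none Ext.none :=
  certB0 (fam := false) (s1 := true) (s2 := false) (a := 0) (b := 2) (c := 2) (cn := .pp) (n1 := ndB2q0) (n2 := ndB1q2b) (pc := pcB2) (cut := Cut.none) (xt := Ext.none) (P1 := 0) (W1 := 536870912) (P2 := 1239849684) (W2 := 370763052) (P3 := 923417968) (W3 := 42949674) (N0 := 3) (En := eng) (mo := mog) (C1 := cd2q0) (C2 := cd1q2b) (C3 := pd2)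
    rfl k0_pm_022_b

noncomputable def f_pm_023 : ℕ → ℕ → ℕ → ℕ → Bool := onCell 0 536870912 1610612736 536870912 923417968 42949674
    (rowB 3 eng mog cd2q0 cd1q3 pd2 0 false true false .up 0 2 3 (qsf 0 536870912 1610612736 536870912 2) ndB2q0 ndB1q3 pcB2 Cut.none Ext.none)

def k0_pm_023 : ∃ t, chk3 f_pm_023 t 1 1 1 = true :=
  ⟨(a (l 4) (l 4)), by decide +kernel⟩

theorem c_pm_023 : CertB 0 536870912 1610612736 536870912 923417968 42949674 3 eng mog cd2q0 cd1q3 pd2 false true false .up 0 2 3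
    ndB2q0 ndB1q3 pcB2 Cut.none Ext.none :=
  certB0 (fam := false) (s1 := true) (s2 := false) (a := 0) (b := 2) (c := 3) (cn := .up) (n1 := ndB2q0) (n2 := ndB1q3) (pc := pcB2) (cut := Cut.none) (xt := Ext.none) (P1 := 0) (W1 := 536870912) (P2 := 1610612736) (W2 := 536870912) (P3 := 923417968) (W3 := 42949674) (N0 := 3) (En := eng) (mo := mog) (C1 := cd2q0) (C2 := cd1q3) (C3 := pd2)
    rfl k0_pm_023

noncomputable def f_pm_033 : ℕ → ℕ → ℕ → ℕ → Bool := onCell 0 536870912 1610612736 536870912 923417968 42949674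
    (rowB 3 eng mog cd2q0 cd1q3 pd3 0 false true false .pnn 0 3 3 (qsf 0 536870912 1610612736 536870912 3) ndB2q0 ndB1q3 pcB3 Cut.none Ext.none)

def k0_pm_033 : ∃ t, chk3 f_pm_033 t 1 1 1 = true :=
  ⟨(a (l 4) (l 4)), by decide +kernel⟩

theorem c_pm_033 : CertB 0 536870912 1610612736 536870912 923417968 42949674 3 eng mog cd2q0 cd1q3 pd3 false true false .pnn 0 3 3
    ndB2q0 ndB1q3 pcB3 Cut.none Ext.none :=
  certB0 (fam := false) (s1 := true) (s2 := false) (a := 0) (b := 3) (c := 3) (cn := .pnn) (n1 := ndB2q0) (n2 := ndB1q3) (pc := pcB3) (cut := Cut.none) (xt := Ext.none) (P1 := 0) (W1 := 536870912) (P2 := 1610612736) (W2 := 536870912) (P3 := 923417968) (W3 := 42949674) (N0 := 3) (En := eng) (mo := mog) (C1 := cd2q0) (C2 := cd1q3) (C3 := pd3)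
    rfl k0_pm_033

noncomputable def f_pm_101 : ℕ → ℕ → ℕ → ℕ → Bool := onCell 536870912 536870912 536870912 536870912 923417968 42949674
    (rowB 3 eng mog cd2q1 cd1q1 pd0 0 false true false .npn 1 0 1 (qsf 536870912 536870912 536870912 536870912 0) ndB2q1 ndB1q1 pcB0 Cut.none Ext.none)

def k0_pm_101 : ∃ t, chk3 f_pm_101 t 1 1 1 = true :=
  ⟨(l 4), by decide +kernel⟩

theorem c_pm_101 : CertB 536870912 536870912 536870912 536870912 923417968 42949674 3 eng mog cd2q1 cd1q1 pd0 false true false .npn 1 0 1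
    ndB2q1 ndB1q1 pcB0 Cut.none Ext.none :=
  certB0 (fam := false) (s1 := true) (s2 := false) (a := 1) (b := 0) (c := 1) (cn := .npn) (n1 := ndB2q1) (n2 := ndB1q1) (pc := pcB0) (cut := Cut.none) (xt := Ext.none) (P1 := 536870912) (W1 := 536870912) (P2 := 536870912) (W2 := 536870912) (P3 := 923417968) (W3 := 42949674) (N0 := 3) (En := eng) (mo := mog) (C1 := cd2q1) (C2 := cd1q1) (C3 := pd0)
    rfl k0_pm_101

noncomputable def f_pm_102_a : ℕ → ℕ → ℕ → ℕ → Bool := onCell 536870912 536870912 0 536870912 923417968 42949674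
    (rowB 3 eng mog cd2q1 cd1q2a pd0 0 false true false .npp 1 0 2 (qsf 536870912 536870912 0 536870912 0) ndB2q1 ndB1q2a pcB0 Cut.none Ext.none)

def k0_pm_102_a : ∃ t, chk3 f_pm_102_a t 1 1 1 = true :=
  ⟨(b (b (a (b (a (l 2) (b (a (l 15251224) (l 15137384)) (l 4))) (l 4)) (b (a (b (a (l 14989368) (l 14808616)) (l 4)) (a (a (l 14645776) (l 14526416)) (a (l 14398416) (l 14262632)))) (l 4))) (l 4)) (l 4)), by decide +kernel⟩

theorem c_pm_102_a : CertB 536870912 536870912 0 536870912 923417968 42949674 3 eng mog cd2q1 cd1q2a pd0 false true false .npp 1 0 2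
    ndB2q1 ndB1q2a pcB0 Cut.none Ext.none :=
  certB0 (fam := false) (s1 := true) (s2 := false) (a := 1) (b := 0) (c := 2) (cn := .npp) (n1 := ndB2q1) (n2 := ndB1q2a) (pc := pcB0) (cut := Cut.none) (xt := Ext.none) (P1 := 536870912) (W1 := 536870912) (P2 := 0) (W2 := 536870912) (P3 := 923417968) (W3 := 42949674) (N0 := 3) (En := eng) (mo := mog) (C1 := cd2q1) (C2 := cd1q2a) (C3 := pd0)
    rfl k0_pm_102_a

noncomputable def f_pm_102_b : ℕ → ℕ → ℕ → ℕ → Bool := onCell 536870912 536870912 0 536870912 923417968 42949674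
    (rowB 3 eng mog cd2q1 cd1q2b pd0 1 false true false .npp 1 0 2 (qsf 536870912 536870912 1239849684 370763052 0) ndB2q1 ndB1q2b pcB0 Cut.none Ext.none)

def k0_pm_102_b : ∃ t, chk3 f_pm_102_b t 1 1 1 = true :=
  ⟨(b (b (l 1) (a (l 1) (a (l 1) (b (a (l 1) (b (l 14360056) (l 14359712))) (a (l 356512013687) (l 240010496407)))))) (b (a (l 1) (a (b (a (l 1) (l 15043448)) (a (l 15229360) (l 14782136))) (b (a (l 14580552) (l 14315376)) (a (l 14530752) (l 14266608))))) (a (a (l 1) (b (b (l 358660469703) (l 15258864)) (b (l 15218448) (l 15174336)))) (a (b (b (l 14856560) (l 14822512)) (b (l 14785688) (l 14745648))) (b (l 14489984) (l 14431656)))))), by decide +kernel⟩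

theorem c_pm_102_b : CertB 536870912 536870912 1239849684 370763052 923417968 42949674 3 eng mog cd2q1 cd1q2b pd0 false true false .npp 1 0 2
    ndB2q1 ndB1q2b pcB0 Cut.none Ext.none :=
  certB1 (fam := false) (s1 := true) (s2 := false) (a := 1) (b := 0) (c := 2) (cn := .npp) (n1 := ndB2q1) (n2 := ndB1q2b) (pc := pcB0) (cut := Cut.none) (xt := Ext.none) (P1 := 536870912) (W1 := 536870912) (P2 := 1239849684) (W2 := 370763052) (P3 := 923417968) (W3 := 42949674) (N0 := 3) (En := eng) (mo := mog) (C1 := cd2q1) (C2 := cd1q2b) (C3 := pd0)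
    rfl (fun _ => rfl) k0_pm_102_b

noncomputable def f_pm_112_a : ℕ → ℕ → ℕ → ℕ → Bool := onCell 536870912 536870912 0 536870912 923417968 42949674
    (rowB 3 eng mog cd2q1 cd1q2a pd1 0 false true false .dn 1 1 2 (qsf 536870912 536870912 0 536870912 1) ndB2q1 ndB1q2a pcB1 Cut.none Ext.none)

def k0_pm_112_a : ∃ t, chk3 f_pm_112_a t 1 1 1 = true :=
  ⟨(a (b (b (b (a (a (l 15372112) (l 15333400)) (a (l 15254512) (l 1))) (l 4)) (l 4)) (l 4)) (l 1)), by decide +kernel⟩

theorem c_pm_112_a : CertB 536870912 536870912 0 536870912 923417968 42949674 3 eng mog cd2q1 cd1q2a pd1 false true false .dn 1 1 2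
    ndB2q1 ndB1q2a pcB1 Cut.none Ext.none :=
  certB0 (fam := false) (s1 := true) (s2 := false) (a := 1) (b := 1) (c := 2) (cn := .dn) (n1 := ndB2q1) (n2 := ndB1q2a) (pc := pcB1) (cut := Cut.none) (xt := Ext.none) (P1 := 536870912) (W1 := 536870912) (P2 := 0) (W2 := 536870912) (P3 := 923417968) (W3 := 42949674) (N0 := 3) (En := eng) (mo := mog) (C1 := cd2q1) (C2 := cd1q2a) (C3 := pd1)
    rfl k0_pm_112_a

noncomputable def f_pm_112_b : ℕ → ℕ → ℕ → ℕ → Bool := onCell 536870912 536870912 1239849684 370763052 923417968 42949674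
    (rowB 3 eng mog cd2q1 cd1q2b pd1 2 false true false .dn 1 1 2 (qsf 536870912 536870912 1239849684 370763052 1) ndB2q1 ndB1q2b pcB1 Cut.none Ext.none)

def k0_pm_112_b : ∃ t, chk3 f_pm_112_b t 1 1 1 = true :=
  ⟨(b (b (a (a (a (l 15168968) (l 15236512)) (a (l 15281128) (l 445096960087))) (l 1)) (a (a (l 4) (l 4)) (a (l 4) (l 1)))) (a (a (a (l 801242114839) (l 4)) (l 4)) (l 4))), by decide +kernel⟩

theorem c_pm_112_b : CertB 536870912 536870912 1239849684 370763052 923417968 42949674 3 eng mog cd2q1 cd1q2b pd1 false true false .dn 1 1 2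
    ndB2q1 ndB1q2b pcB1 Cut.none Ext.none :=
  certB2 (fam := false) (s1 := true) (s2 := false) (a := 1) (b := 1) (c := 2) (cn := .dn) (n1 := ndB2q1) (n2 := ndB1q2b) (pc := pcB1) (cut := Cut.none) (xt := Ext.none) (P1 := 536870912) (W1 := 536870912) (P2 := 1239849684) (W2 := 370763052) (P3 := 923417968) (W3 := 42949674) (N0 := 3) (En := eng) (mo := mog) (C1 := cd2q1) (C2 := cd1q2b) (C3 := pd1)
    rfl (fun _ => rfl) k0_pm_112_b

noncomputable def f_pm_113 : ℕ → ℕ → ℕ → ℕ → Bool := onCell 536870912 536870912 1610612736 536870912 923417968 42949674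
    (rowB 3 eng mog cd2q1 cd1q3 pd1 0 false true false .nn 1 1 3 (qsf 536870912 536870912 1610612736 536870912 1) ndB2q1 ndB1q3 pcB1 Cut.none Ext.none)

def k0_pm_113 : ∃ t, chk3 f_pm_113 t 1 1 1 = true :=
  ⟨(b (a (l 4) (a (l 4) (a (b (b (l 14169656) (l 4)) (l 4)) (b (b (l 13956456) (l 13978472)) (b (l 14066552) (l 14274688)))))) (a (l 4) (a (l 4) (a (l 4) (b (b (l 14729200) (l 4)) (a (l 4) (l 16875144))))))), by decide +kernel⟩

theorem c_pm_113 : CertB 536870912 536870912 1610612736 536870912 923417968 42949674 3 eng mog cd2q1 cd1q3 pd1 false true false .nn 1 1 3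
    ndB2q1 ndB1q3 pcB1 Cut.none Ext.none :=
  certB0 (fam := false) (s1 := true) (s2 := false) (a := 1) (b := 1) (c := 3) (cn := .nn) (n1 := ndB2q1) (n2 := ndB1q3) (pc := pcB1) (cut := Cut.none) (xt := Ext.none) (P1 := 536870912) (W1 := 536870912) (P2 := 1610612736) (W2 := 536870912) (P3 := 923417968) (W3 := 42949674) (N0 := 3) (En := eng) (mo := mog) (C1 := cd2q1) (C2 := cd1q3) (C3 := pd1)
    rfl k0_pm_113

noncomputable def f_pm_123 : ℕ → ℕ → ℕ → ℕ → Bool := onCell 1073741824 536870912 1610612736 536870912 923417968 42949674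
    (rowB 3 eng mog cd2q1 cd1q3 pd2 2 false true false .npn 1 2 3 (qsf 536870912 536870912 1610612736 536870912 2) ndB2q1 ndB1q3 pcB2 Cut.none Ext.none)

def k0_pm_123 : ∃ t, chk3 f_pm_123 t 1 1 1 = true :=
  ⟨(a (b (l 4) (a (b (l 4) (b (l 4) (l 16794920))) (l 4))) (b (l 4) (l 4))), by decide +kernel⟩

theorem c_pm_123 : CertB 536870912 536870912 1610612736 536870912 923417968 42949674 3 eng mog cd2q1 cd1q3 pd2 false true false .npn 1 2 3
    ndB2q1 ndB1q3 pcB2 Cut.none Ext.none :=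
  certB2 (fam := false) (s1 := true) (s2 := false) (a := 1) (b := 2) (c := 3) (cn := .npn) (n1 := ndB2q1) (n2 := ndB1q3) (pc := pcB2) (cut := Cut.none) (xt := Ext.none) (P1 := 536870912) (W1 := 536870912) (P2 := 1610612736) (W2 := 536870912) (P3 := 923417968) (W3 := 42949674) (N0 := 3) (En := eng) (mo := mog) (C1 := cd2q1) (C2 := cd1q3) (C3 := pd2)
    rfl (fun _ => rfl) k0_pm_123

noncomputable def f_pm_133 : ℕ → ℕ → ℕ → ℕ → Bool := onCell 536870912 536870912 1610612736 536870912 923417968 42949674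
    (rowB 3 eng mog cd2q1 cd1q3 pd3 0 false true false .dn 1 3 3 (qsf 536870912 536870912 1610612736 536870912 3) ndB2q1 ndB1q3 pcB3 Cut.none Ext.none)

def k0_pm_133 : ∃ t, chk3 f_pm_133 t 1 1 1 = true :=
  ⟨(a (b (l 1) (l 4)) (l 1)), by decide +kernel⟩

theorem c_pm_133 : CertB 536870912 536870912 1610612736 536870912 923417968 42949674 3 eng mog cd2q1 cd1q3 pd3 false true false .dn 1 3 3
    ndB2q1 ndB1q3 pcB3 Cut.none Ext.none :=
  certB0 (fam := false) (s1 := true) (s2 := false) (a := 1) (b := 3) (c := 3) (cn := .dn) (n1 := ndB2q1) (n2 := ndB1q3) (pc := pcB3) (cut := Cut.none) (xt := Ext.none) (P1 := 536870912) (W1 := 536870912) (P2 := 1610612736) (W2 := 536870912) (P3 := 923417968) (W3 := 42949674) (N0 := 3) (En := eng) (mo := mog) (C1 := cd2q1) (C2 := cd1q3) (C3 := pd3)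
    rfl k0_pm_133

noncomputable def f_pm_202_a : ℕ → ℕ → ℕ → ℕ → Bool := onCell 0 536870912 0 536870912 923417968 42949674
    (rowB 3 eng mog cd2q2 cd1q2a pd0 2 false true false .pp 2 0 2 (qsf 1073741824 536870912 0 536870912 0) ndB2q2 ndB1q2a pcB0 Cut.none Ext.none)

def k0_pm_202_a : ∃ t, chk3 f_pm_202_a t 2 2 1 = true :=
  ⟨(a (l 3) (a (l 3) (l 1))), by decide +kernel⟩

def k1_pm_202_a : ∃ t, chk3 f_pm_202_a t 8 6 1 = true :=
  ⟨(b (a (b (l 3) (a (b (l 3) (a (b (b (l 3) (c (a (a (l 136532070727) (l 16309632)) (a (l 16300192) (l 16311576))) (a (l 118815170023) (l 16221728)))) (c (b (a (a (l 16287192) (l 16297264)) (a (l 16308080) (l 16319488))) (l 16314824)) (b (a (l 16205864) (l 16251384)) (l 16231464)))) (c (b (b (l 728700680023) (l 147269499799)) (a (b (l 16336688) (l 16345672)) (l 16364256))) (a (b (l 16244936) (b (l 16256248) (l 16266016))) (l 85529225655))))) (a (b (l 3) (b (c (l 16384056) (l 16312040)) (a (l 16372136) (l 16376112)))) (c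 (b (l 990693905463) (l 16437720)) (b (l 16344400) (l 16372960)))))) (b (l 3) (a (c (b (b (l 3) (l 16381208)) (l 16380808)) (a (b (l 16397824) (l 16426128)) (l 73181365831))) (b (c (l 16465032) (l 16424272)) (c (l 16533800) (l 16472696)))))) (a (b (a (b (c (a (b (l 16333520) (l 16359064)) (b (a (l 16364552) (l 16362976)) (l 16401208))) (a (l 16267528) (b (l 16298464) (l 16329120)))) (c (a (l 16398904) (l 16442448)) (a (l 16327832) (l 16376296)))) (c (b (a (b (l 16426960) (l 16441792)) (b (l 16460840) (l 16481104))) (l 16420824)) (b (a (b (l 16345888) (l 16374400)) (b (l 16396344) (l 16418576))) (l 16403800)))) (a (a (b (l 16319120) (l 16445352)) (a (l 16345624) (l 16390520))) (c (l 16449712) (l 16403688)))) (b (b (a (a (c (l 16473672) (l 16458360)) (l 16429776)) (c (l 16605240) (l 16544056))) (a (b (c (l 16483792) (l 16453440)) (l 16469960)) (b (l 16506488) (l 16508720)))) (a (c (l 16540272) (l 16516360)) (c (l 16437128) (l 16467400)))))), by decide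 +kernel⟩

def k2_pm_202_a : ∃ t, chk3 f_pm_202_a t 9 6 1 = true :=
  ⟨(a (b (b (l 3) (c (a (b (l 16500424) (l 16510792)) (b (l 16423712) (l 16475392))) (a (l 16485560) (b (l 16463688) (l 16493296))))) (a (b (c (b (l 16499056) (l 16506032)) (l 16458632)) (b (c (l 16397136) (l 16442912)) (c (l 16476256) (l 16491648)))) (b (c (a (l 16496912) (l 16456632)) (a (l 16516368) (l 16468872))) (a (b (c (b (l 16479168) (l 16465096)) (l 159483418039)) (l 1)) (l 1))))) (b (b (b (l 3) (b (l 3) (a (c (a (l 16456520) (l 60296594775)) (l 16359040)) (a (a (c (l 432750735623) (l 16382752)) (l 1)) (l 1))))) (a (a (c (b (l 16447808) (l 16435992)) (b (l 16456288) (l 16443320))) (c (b (c (l 16407064) (l 16407392)) (l 459057418583)) (b (l 16387680) (l 16395048)))) (l 1))) (a (a (b (c (l 286184926087) (l 16420416)) (l 1)) (l 1)) (l 1)))), by decide +kernel⟩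

def k3_pm_202_a : ∃ t, chk3 f_pm_202_a t 5 6 1 = true :=
  ⟨(l 1), by decide +kernel⟩

def k4_pm_202_a : ∃ t, chk3 f_pm_202_a t 2 7 1 = true :=
  ⟨(a (a (a (b (a (b (c (l 16530152) (l 16471232)) (a (l 16568472) (l 16483360))) (b (c (l 16545152) (l 16575160)) (c (l 16436072) (l 16444800)))) (a (b (a (b (l 16535496) (a (l 16510104) (l 16490688))) (c (l 16378128) (l 16392752))) (a (c (a (l 16411064) (l 226592054663)) (c (l 16386128) (l 16375280))) (a (c (l 238403180551) (l 185789735543)) (b (b (l 16396016) (l 16359184)) (l 1))))) (b (b (c (l 16445296) (l 16436320)) (a (l 16384064) (l 566968496823))) (a (b (b (l 656626020711) (l 1)) (l 1)) (l 1))))) (b (b (a (c (l 16433760) (l 16432656)) (c (b (l 16493480) (l 16443216)) (l 16310512))) (b (a (l 16405120) (c (l 281889772247) (l 16382304))) (a (a (l 16431760) (l 16367192)) (c (l 570189615815) (l 329671111863))))) (b (a (b (c (l 321618167463) (l 274910319767)) (l 1)) (l 1)) (l 1)))) (a (a (b (b (c (a (l 16310824)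 (l 307122654807)) (a (l 16375552) (l 271152264791))) (l 1)) (l 1)) (l 1)) (l 1))) (l 1)), by decide +kernel⟩

def k5_pm_202_a : ∃ t, chk3 f_pm_202_a t 3 1 1 = true :=
  ⟨(l 1), by decide +kernel⟩

theorem s6_pm_202_a : ∃ t, chk3 f_pm_202_a t 4 6 1 = true := ex3_a k1_pm_202_a k2_pm_202_a

theorem s7_pm_202_a : ∃ t, chk3 f_pm_202_a t 2 6 1 = true := ex3_a s6_pm_202_a k3_pm_202_a

theorem s8_pm_202_a : ∃ t, chk3 f_pm_202_a t 2 3 1 = true := ex3_b s7_pm_202_a k4_pm_202_a

theorem s9_pm_202_a : ∃ t, chk3 f_pm_202_a t 2 1 1 = true := ex3_b k0_pm_202_a s8_pm_202_a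

theorem s10_pm_202_a : ∃ t, chk3 f_pm_202_a t 1 1 1 = true := ex3_a s9_pm_202_a k5_pm_202_a

theorem c_pm_202_a : CertB 1073741824 536870912 0 536870912 923417968 42949674 3 eng mog cd2q2 cd1q2a pd0 false true false .pp 2 0 2
    ndB2q2 ndB1q2a pcB0 Cut.none Ext.none :=
  certB2 (fam := false) (s1 := true) (s2 := false) (a := 2) (b := 0) (c := 2) (cn := .pp) (n1 := ndB2q2) (n2 := ndB1q2a) (pc := pcB0) (cut := Cut.none) (xt := Ext.none) (P1 := 1073741824) (W1 := 536870912) (P2 := 0) (W2 := 536870912) (P3 := 923417968) (W3 := 42949674) (N0 := 3) (En := eng) (mo := mog) (C1 := cd2q2) (C2 := cd1q2a) (C3 := pd0)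
    rfl (fun _ => rfl) s10_pm_202_a

noncomputable def f_pm_202_b : ℕ → ℕ → ℕ → ℕ → Bool := onCell 1073741824 536870912 1239849684 370763052 923417968 42949674
    (rowB 3 eng mog cd2q2 cd1q2b pd0 0 false true false .pp 2 0 2 (qsf 1073741824 536870912 1239849684 370763052 0) ndB2q2 ndB1q2b pcB0 Cut.none Ext.none)

def k0_pm_202_b : ∃ t, chk3 f_pm_202_b t 1 1 1 = true :=
  ⟨(l 3), by decide +kernel⟩

theorem c_pm_202_b : CertB 1073741824 536870912 1239849684 370763052 923417968 42949674 3 eng mog cd2q2 cd1q2b pd0 false true false .pp 2 0 2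
    ndB2q2 ndB1q2b pcB0 Cut.none Ext.none :=
  certB0 (fam := false) (s1 := true) (s2 := false) (a := 2) (b := 0) (c := 2) (cn := .pp) (n1 := ndB2q2) (n2 := ndB1q2b) (pc := pcB0) (cut := Cut.none) (xt := Ext.none) (P1 := 1073741824) (W1 := 536870912) (P2 := 1239849684) (W2 := 370763052) (P3 := 923417968) (W3 := 42949674) (N0 := 3) (En := eng) (mo := mog) (C1 := cd2q2) (C2 := cd1q2b) (C3 := pd0)
    rfl k0_pm_202_b

noncomputable def f_pm_203 : ℕ → ℕ → ℕ → ℕ → Bool := onCell 1073741824 536870912 0 536870912 923417968 42949674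
    (rowB 3 eng mog cd2q2 cd1q3 pd0 1 false true false .up 2 0 3 (qsf 1073741824 536870912 1610612736 536870912 0) ndB2q2 ndB1q3 pcB0 Cut.none Ext.none)

def k0_pm_203 : ∃ t, chk3 f_pm_203 t 1 1 1 = true :=
  ⟨(l 3), by decide +kernel⟩

theorem c_pm_203 : CertB 1073741824 536870912 1610612736 536870912 923417968 42949674 3 eng mog cd2q2 cd1q3 pd0 false true false .up 2 0 3
    ndB2q2 ndB1q3 pcB0 Cut.none Ext.none :=
  certB1 (fam := false) (s1 := true) (s2 := false) (a := 2) (b := 0) (c := 3) (cn := .up) (n1 := ndB2q2) (n2 := ndB1q3) (pc := pcB0) (cut := Cut.none) (xt := Ext.none) (P1 := 1073741824) (W1 := 536870912) (P2 := 1610612736) (W2 := 536870912) (P3 := 923417968) (W3 := 42949674) (N0 := 3) (En := eng) (mo := mog) (C1 := cd2q2) (C2 := cd1q3) (C3 := pd0)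
    rfl (fun _ => rfl) k0_pm_203

noncomputable def f_pm_213 : ℕ → ℕ → ℕ → ℕ → Bool := onCell 1073741824 536870912 1610612736 536870912 923417968 42949674
    (rowB 3 eng mog cd2q2 cd1q3 pd1 0 false true false .pnn 2 1 3 (qsf 1073741824 536870912 1610612736 536870912 1) ndB2q2 ndB1q3 pcB1 Cut.none Ext.none)

def k0_pm_213 : ∃ t, chk3 f_pm_213 t 1 1 1 = true :=
  ⟨(a (b (l 3) (a (b (a (b (a (b (l 3) (a (c (l 15862128) (l 15728368)) (l 3))) (l 3)) (a (b (a (c (l 15999744) (l 15841176)) (l 16037648)) (a (c (l 16224392) (l 16027344)) (l 16116000))) (b (l 3) (c (l 16183600) (l 16085784))))) (l 3)) (a (b (a (b (a (l 16398840) (l 16377760)) (a (l 16385712) (l 16394600))) (b (a (l 16329616) (l 16311944)) (c (l 16439184) (l 16468968)))) (a (b (a (l 16467320) (l 16481328)) (b (l 16498752) (l 16506272))) (b (a (l 16493720) (l 16503704)) (b (l 16530968) (l 16465696))))) (b (a (b (l 3) (l 16431016)) (l 3)) (b (a (l 37211082183) (l 3)) (a (b (l 57075609895) (l 16537032))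 (b (l 3) (l 16601792))))))) (l 3))) (l 3)), by decide +kernel⟩

theorem c_pm_213 : CertB 1073741824 536870912 1610612736 536870912 923417968 42949674 3 eng mog cd2q2 cd1q3 pd1 false true false .pnn 2 1 3
    ndB2q2 ndB1q3 pcB1 Cut.none Ext.none :=
  certB0 (fam := false) (s1 := true) (s2 := false) (a := 2) (b := 1) (c := 3) (cn := .pnn) (n1 := ndB2q2) (n2 := ndB1q3) (pc := pcB1) (cut := Cut.none) (xt := Ext.none) (P1 := 1073741824) (W1 := 536870912) (P2 := 1610612736) (W2 := 536870912) (P3 := 923417968) (W3 := 42949674) (N0 := 3) (En := eng) (mo := mog) (C1 := cd2q2) (C2 := cd1q3) (C3 := pd1)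
    rfl k0_pm_213

noncomputable def f_pm_303 : ℕ → ℕ → ℕ → ℕ → Bool := onCell 0 1230186008 1610612736 536870912 923417968 42949674
    (rowB 3 eng mog cd2q3 cd1q3 pd0 0 false true false .npn 3 0 3 (qsf 0 1230186008 1610612736 536870912 0) ndB2q3 ndB1q3 pcB0 Cut.none Ext.none)

def k0_pm_303 : ∃ t, chk3 f_pm_303 t 1 1 1 = true :=
  ⟨(a (l 3) (l 3)), by decide +kernel⟩

theorem c_pm_303 : CertB 0 1230186008 1610612736 536870912 923417968 42949674 3 eng mog cd2q3 cd1q3 pd0 false true false .npn 3 0 3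
    ndB2q3 ndB1q3 pcB0 Cut.none Ext.none :=
  certB0 (fam := false) (s1 := true) (s2 := false) (a := 3) (b := 0) (c := 3) (cn := .npn) (n1 := ndB2q3) (n2 := ndB1q3) (pc := pcB0) (cut := Cut.none) (xt := Ext.none) (P1 := 0) (W1 := 1230186008) (P2 := 1610612736) (W2 := 536870912) (P3 := 923417968) (W3 := 42949674) (N0 := 3) (En := eng) (mo := mog) (C1 := cd2q3) (C2 := cd1q3) (C3 := pd0)
    rfl k0_pm_303

noncomputable def f_pm_313 : ℕ → ℕ → ℕ → ℕ → Bool := onCell 0 1230186008 1610612736 536870912 923417968 42949674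
    (rowB 3 eng mog cd2q3 cd1q3 pd1 0 false true false .dn 3 1 3 (qsf 0 1230186008 1610612736 536870912 1) ndB2q3 ndB1q3 pcB1 Cut.none Ext.none)

def k0_pm_313 : ∃ t, chk3 f_pm_313 t 1 1 1 = true :=
  ⟨(a (l 1) (l 3)), by decide +kernel⟩

theorem c_pm_313 : CertB 0 1230186008 1610612736 536870912 923417968 42949674 3 eng mog cd2q3 cd1q3 pd1 false true false .dn 3 1 3
    ndB2q3 ndB1q3 pcB1 Cut.none Ext.none :=
  certB0 (fam := false) (s1 := true) (s2 := false) (a := 3) (b := 1) (c := 3) (cn := .dn) (n1 := ndB2q3) (n2 := ndB1q3) (pc := pcB1) (cut := Cut.none) (xt := Ext.none) (P1 := 0) (W1 := 1230186008) (P2 := 1610612736) (W2 := 536870912) (P3 := 923417968) (W3 := 42949674) (N0 := 3) (En := eng) (mo := mog) (C1 := cd2q3) (C2 := cd1q3) (C3 := pd1)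
    rfl k0_pm_313

noncomputable def f_mm_001 : ℕ → ℕ → ℕ → ℕ → Bool := onCell 0 536870912 536870912 536870912 923417968 42949674
    (rowB 3 eng mog cd2q0 cd1q1 pd0 0 false false false .up 0 0 1 (qsf 0 536870912 536870912 536870912 0) ndB2q0 ndB1q1 pcB0 Cut.none Ext.none)

def k0_mm_001 : ∃ t, chk3 f_mm_001 t 1 1 1 = true :=
  ⟨(l 5), by decide +kernel⟩

theorem c_mm_001 : CertB 0 536870912 536870912 536870912 923417968 42949674 3 eng mog cd2q0 cd1q1 pd0 false false false .up 0 0 1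
    ndB2q0 ndB1q1 pcB0 Cut.none Ext.none :=
  certB0 (fam := false) (s1 := false) (s2 := false) (a := 0) (b := 0) (c := 1) (cn := .up) (n1 := ndB2q0) (n2 := ndB1q1) (pc := pcB0) (cut := Cut.none) (xt := Ext.none) (P1 := 0) (W1 := 536870912) (P2 := 536870912) (W2 := 536870912) (P3 := 923417968) (W3 := 42949674) (N0 := 3) (En := eng) (mo := mog) (C1 := cd2q0) (C2 := cd1q1) (C3 := pd0)
    rfl k0_mm_001

noncomputable def f_mm_011 : ℕ → ℕ → ℕ → ℕ → Bool := onCell 0 536870912 536870912 536870912 923417968 42949674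
    (rowB 3 eng mog cd2q0 cd1q1 pd1 0 false false false .pnn 0 1 1 (qsf 0 536870912 536870912 536870912 1) ndB2q0 ndB1q1 pcB1 Cut.none Ext.none)

def k0_mm_011 : ∃ t, chk3 f_mm_011 t 1 1 1 = true :=
  ⟨(l 5), by decide +kernel⟩

theorem c_mm_011 : CertB 0 536870912 536870912 536870912 923417968 42949674 3 eng mog cd2q0 cd1q1 pd1 false false false .pnn 0 1 1
    ndB2q0 ndB1q1 pcB1 Cut.none Ext.none :=
  certB0 (fam := false) (s1 := false) (s2 := false) (a := 0) (b := 1) (c := 1) (cn := .pnn) (n1 := ndB2q0) (n2 := ndB1q1) (pc := pcB1) (cut := Cut.none) (xt := Ext.none) (P1 := 0) (W1 := 536870912) (P2 := 536870912) (W2 := 536870912) (P3 := 923417968) (W3 := 42949674) (N0 := 3) (En := eng) (mo := mog) (C1 := cd2q0) (C2 := cd1q1) (C3 := pd1)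
    rfl k0_mm_011

noncomputable def f_mm_012_a : ℕ → ℕ → ℕ → ℕ → Bool := onCell 0 536870912 0 536870912 923417968 42949674
    (rowB 3 eng mog cd2q0 cd1q2a pd1 0 false false false .pnp 0 1 2 (qsf 0 536870912 0 536870912 1) ndB2q0 ndB1q2a pcB1 Cut.none Ext.none)

def k0_mm_012_a : ∃ t, chk3 f_mm_012_a t 1 1 1 = true :=
  ⟨(l 5), by decide +kernel⟩

theorem c_mm_012_a : CertB 0 536870912 0 536870912 923417968 42949674 3 eng mog cd2q0 cd1q2a pd1 false false false .pnp 0 1 2
    ndB2q0 ndB1q2a pcB1 Cut.none Ext.none :=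
  certB0 (fam := false) (s1 := false) (s2 := false) (a := 0) (b := 1) (c := 2) (cn := .pnp) (n1 := ndB2q0) (n2 := ndB1q2a) (pc := pcB1) (cut := Cut.none) (xt := Ext.none) (P1 := 0) (W1 := 536870912) (P2 := 0) (W2 := 536870912) (P3 := 923417968) (W3 := 42949674) (N0 := 3) (En := eng) (mo := mog) (C1 := cd2q0) (C2 := cd1q2a) (C3 := pd1)
    rfl k0_mm_012_a

noncomputable def f_mm_012_b : ℕ → ℕ → ℕ → ℕ → Bool := onCell 0 536870912 1239849684 370763052 923417968 42949674
    (rowB 3 eng mog cd2q0 cd1q2b pd1 0 false false false .pnp 0 1 2 (qsf 0 536870912 1239849684 370763052 1) ndB2q0 ndB1q2b pcB1 Cut.none Ext.none)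

def k0_mm_012_b : ∃ t, chk3 f_mm_012_b t 1 1 1 = true :=
  ⟨(l 5), by decide +kernel⟩

theorem c_mm_012_b : CertB 0 536870912 1239849684 370763052 923417968 42949674 3 eng mog cd2q0 cd1q2b pd1 false false false .pnp 0 1 2
    ndB2q0 ndB1q2b pcB1 Cut.none Ext.none :=
  certB0 (fam := false) (s1 := false) (s2 := false) (a := 0) (b := 1) (c := 2) (cn := .pnp) (n1 := ndB2q0) (n2 := ndB1q2b) (pc := pcB1) (cut := Cut.none) (xt := Ext.none) (P1 := 0) (W1 := 536870912) (P2 := 1239849684) (W2 := 370763052) (P3 := 923417968) (W3 := 42949674) (N0 := 3) (En := eng) (mo := mog) (C1 := cd2q0) (C2 := cd1q2b) (C3 := pd1)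
    rfl k0_mm_012_b

noncomputable def f_mm_022_a : ℕ → ℕ → ℕ → ℕ → Bool := onCell 0 536870912 0 536870912 923417968 42949674
    (rowB 3 eng mog cd2q0 cd1q2a pd2 0 false false false .pp 0 2 2 (qsf 0 536870912 0 536870912 2) ndB2q0 ndB1q2a pcB2 Cut.none Ext.none)

def k0_mm_022_a : ∃ t, chk3 f_mm_022_a t 1 1 1 = true :=
  ⟨(l 5), by decide +kernel⟩

theorem c_mm_022_a : CertB 0 536870912 0 536870912 923417968 42949674 3 eng mog cd2q0 cd1q2a pd2 false false false .pp 0 2 2
    ndB2q0 ndB1q2a pcB2 Cut.none Ext.none :=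
  certB0 (fam := false) (s1 := false) (s2 := false) (a := 0) (b := 2) (c := 2) (cn := .pp) (n1 := ndB2q0) (n2 := ndB1q2a) (pc := pcB2) (cut := Cut.none) (xt := Ext.none) (P1 := 0) (W1 := 536870912) (P2 := 0) (W2 := 536870912) (P3 := 923417968) (W3 := 42949674) (N0 := 3) (En := eng) (mo := mog) (C1 := cd2q0) (C2 := cd1q2a) (C3 := pd2)
    rfl k0_mm_022_a

noncomputable def f_mm_022_b : ℕ → ℕ → ℕ → ℕ → Bool := onCell 0 536870912 1239849684 370763052 923417968 42949674
    (rowB 3 eng mog cd2q0 cd1q2b pd2 0 false false false .pp 0 2 2 (qsf 0 536870912 1239849684 370763052 2) ndB2q0 ndB1q2b pcB2 Cut.none Ext.none)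

def k0_mm_022_b : ∃ t, chk3 f_mm_022_b t 1 1 1 = true :=
  ⟨(l 5), by decide +kernel⟩

theorem c_mm_022_b : CertB 0 536870912 1239849684 370763052 923417968 42949674 3 eng mog cd2q0 cd1q2b pd2 false false false .pp 0 2 2
    ndB2q0 ndB1q2b pcB2 Cut.none Ext.none :=
  certB0 (fam := false) (s1 := false) (s2 := false) (a := 0) (b := 2) (c := 2) (cn := .pp) (n1 := ndB2q0) (n2 := ndB1q2b) (pc := pcB2) (cut := Cut.none) (xt := Ext.none) (P1 := 0) (W1 := 536870912) (P2 := 1239849684) (W2 := 370763052) (P3 := 923417968) (W3 := 42949674) (N0 := 3) (En := eng) (mo := mog) (C1 := cd2q0) (C2 := cd1q2b) (C3 := pd2)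
    rfl k0_mm_022_b

noncomputable def f_mm_023 : ℕ → ℕ → ℕ → ℕ → Bool := onCell 0 536870912 1610612736 536870912 923417968 42949674
    (rowB 3 eng mog cd2q0 cd1q3 pd2 0 false false false .up 0 2 3 (qsf 0 536870912 1610612736 536870912 2) ndB2q0 ndB1q3 pcB2 Cut.none Ext.none)

def k0_mm_023 : ∃ t, chk3 f_mm_023 t 1 1 1 = true :=
  ⟨(l 5), by decide +kernel⟩

theorem c_mm_023 : CertB 0 536870912 1610612736 536870912 923417968 42949674 3 eng mog cd2q0 cd1q3 pd2 false false false .up 0 2 3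
    ndB2q0 ndB1q3 pcB2 Cut.none Ext.none :=
  certB0 (fam := false) (s1 := false) (s2 := false) (a := 0) (b := 2) (c := 3) (cn := .up) (n1 := ndB2q0) (n2 := ndB1q3) (pc := pcB2) (cut := Cut.none) (xt := Ext.none) (P1 := 0) (W1 := 536870912) (P2 := 1610612736) (W2 := 536870912) (P3 := 923417968) (W3 := 42949674) (N0 := 3) (En := eng) (mo := mog) (C1 := cd2q0) (C2 := cd1q3) (C3 := pd2)
    rfl k0_mm_023

noncomputable def f_mm_033 : ℕ → ℕ → ℕ → ℕ → Bool := onCell 0 536870912 1610612736 536870912 923417968 42949674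
    (rowB 3 eng mog cd2q0 cd1q3 pd3 0 false false false .pnn 0 3 3 (qsf 0 536870912 1610612736 536870912 3) ndB2q0 ndB1q3 pcB3 Cut.none Ext.none)

def k0_mm_033 : ∃ t, chk3 f_mm_033 t 1 1 1 = true :=
  ⟨(l 5), by decide +kernel⟩

theorem c_mm_033 : CertB 0 536870912 1610612736 536870912 923417968 42949674 3 eng mog cd2q0 cd1q3 pd3 false false false .pnn 0 3 3
    ndB2q0 ndB1q3 pcB3 Cut.none Ext.none :=
  certB0 (fam := false) (s1 := false) (s2 := false) (a := 0) (b := 3) (c := 3) (cn := .pnn) (n1 := ndB2q0) (n2 := ndB1q3) (pc := pcB3) (cut := Cut.none) (xt := Ext.none) (P1 := 0) (W1 := 536870912) (P2 := 1610612736) (W2 := 536870912) (P3 := 923417968) (W3 := 42949674) (N0 := 3) (En := eng) (mo := mog) (C1 := cd2q0) (C2 := cd1q3) (C3 := pd3)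
    rfl k0_mm_033

noncomputable def f_mm_101 : ℕ → ℕ → ℕ → ℕ → Bool := onCell 536870912 536870912 536870912 536870912 923417968 42949674
    (rowB 3 eng mog cd2q1 cd1q1 pd0 0 false false false .npn 1 0 1 (qsf 536870912 536870912 536870912 536870912 0) ndB2q1 ndB1q1 pcB0 Cut.none Ext.none)

def k0_mm_101 : ∃ t, chk3 f_mm_101 t 1 1 1 = true :=
  ⟨(l 3), by decide +kernel⟩

theorem c_mm_101 : CertB 536870912 536870912 536870912 536870912 923417968 42949674 3 eng mog cd2q1 cd1q1 pd0 false false false .npn 1 0 1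
    ndB2q1 ndB1q1 pcB0 Cut.none Ext.none :=
  certB0 (fam := false) (s1 := false) (s2 := false) (a := 1) (b := 0) (c := 1) (cn := .npn) (n1 := ndB2q1) (n2 := ndB1q1) (pc := pcB0) (cut := Cut.none) (xt := Ext.none) (P1 := 536870912) (W1 := 536870912) (P2 := 536870912) (W2 := 536870912) (P3 := 923417968) (W3 := 42949674) (N0 := 3) (En := eng) (mo := mog) (C1 := cd2q1) (C2 := cd1q1) (C3 := pd0)
    rfl k0_mm_101

noncomputable def f_mm_102_a : ℕ → ℕ → ℕ → ℕ → Bool := onCell 536870912 536870912 0 536870912 923417968 42949674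
    (rowB 3 eng mog cd2q1 cd1q2a pd0 0 false false false .npp 1 0 2 (qsf 536870912 536870912 0 536870912 0) ndB2q1 ndB1q2a pcB0 Cut.none Ext.none)

def k0_mm_102_a : ∃ t, chk3 f_mm_102_a t 1 1 1 = true :=
  ⟨(l 5), by decide +kernel⟩

theorem c_mm_102_a : CertB 536870912 536870912 0 536870912 923417968 42949674 3 eng mog cd2q1 cd1q2a pd0 false false false .npp 1 0 2
    ndB2q1 ndB1q2a pcB0 Cut.none Ext.none :=
  certB0 (fam := false) (s1 := false) (s2 := false) (a := 1) (b := 0) (c := 2) (cn := .npp) (n1 := ndB2q1) (n2 := ndB1q2a) (pc := pcB0) (cut := Cut.none) (xt := Ext.none) (P1 := 536870912) (W1 := 536870912) (P2 := 0) (W2 := 536870912) (P3 := 923417968) (W3 := 42949674) (N0 := 3) (En := eng) (mo := mog) (C1 := cd2q1) (C2 := cd1q2a) (C3 := pd0)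
    rfl k0_mm_102_a

noncomputable def f_mm_102_b : ℕ → ℕ → ℕ → ℕ → Bool := onCell 536870912 536870912 1239849684 370763052 923417968 42949674
    (rowB 3 eng mog cd2q1 cd1q2b pd0 0 false false false .npp 1 0 2 (qsf 536870912 536870912 1239849684 370763052 0) ndB2q1 ndB1q2b pcB0 Cut.none Ext.none)

def k0_mm_102_b : ∃ t, chk3 f_mm_102_b t 1 1 1 = true :=
  ⟨(l 5), by decide +kernel⟩

theorem c_mm_102_b : CertB 536870912 536870912 1239849684 370763052 923417968 42949674 3 eng mog cd2q1 cd1q2b pd0 false false false .npp 1 0 2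
    ndB2q1 ndB1q2b pcB0 Cut.none Ext.none :=
  certB0 (fam := false) (s1 := false) (s2 := false) (a := 1) (b := 0) (c := 2) (cn := .npp) (n1 := ndB2q1) (n2 := ndB1q2b) (pc := pcB0) (cut := Cut.none) (xt := Ext.none) (P1 := 536870912) (W1 := 536870912) (P2 := 1239849684) (W2 := 370763052) (P3 := 923417968) (W3 := 42949674) (N0 := 3) (En := eng) (mo := mog) (C1 := cd2q1) (C2 := cd1q2b) (C3 := pd0)
    rfl k0_mm_102_b

noncomputable def f_mm_112_a : ℕ → ℕ → ℕ → ℕ → Bool := onCell 536870912 536870912 0 536870912 923417968 42949674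
    (rowB 3 eng mog cd2q1 cd1q2a pd1 0 false false false .dn 1 1 2 (qsf 536870912 536870912 0 536870912 1) ndB2q1 ndB1q2a pcB1 Cut.none Ext.none)

def k0_mm_112_a : ∃ t, chk3 f_mm_112_a t 1 1 1 = true :=
  ⟨(l 5), by decide +kernel⟩

theorem c_mm_112_a : CertB 536870912 536870912 0 536870912 923417968 42949674 3 eng mog cd2q1 cd1q2a pd1 false false false .dn 1 1 2
    ndB2q1 ndB1q2a pcB1 Cut.none Ext.none :=
  certB0 (fam := false) (s1 := false) (s2 := false) (a := 1) (b := 1) (c := 2) (cn := .dn) (n1 := ndB2q1) (n2 := ndB1q2a) (pc := pcB1) (cut := Cut.none) (xt := Ext.none) (P1 := 536870912) (W1 := 536870912) (P2 := 0) (W2 := 536870912) (P3 := 923417968) (W3 := 42949674) (N0 := 3) (En := eng) (mo := mog) (C1 := cd2q1) (C2 := cd1q2a) (C3 := pd1)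
    rfl k0_mm_112_a

noncomputable def f_mm_112_b : ℕ → ℕ → ℕ → ℕ → Bool := onCell 536870912 536870912 1239849684 370763052 923417968 42949674
    (rowB 3 eng mog cd2q1 cd1q2b pd1 0 false false false .dn 1 1 2 (qsf 536870912 536870912 1239849684 370763052 1) ndB2q1 ndB1q2b pcB1 Cut.none Ext.none)

def k0_mm_112_b : ∃ t, chk3 f_mm_112_b t 1 1 1 = true :=
  ⟨(l 5), by decide +kernel⟩

theorem c_mm_112_b : CertB 536870912 536870912 1239849684 370763052 923417968 42949674 3 eng mog cd2q1 cd1q2b pd1 false false false .dn 1 1 2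
    ndB2q1 ndB1q2b pcB1 Cut.none Ext.none :=
  certB0 (fam := false) (s1 := false) (s2 := false) (a := 1) (b := 1) (c := 2) (cn := .dn) (n1 := ndB2q1) (n2 := ndB1q2b) (pc := pcB1) (cut := Cut.none) (xt := Ext.none) (P1 := 536870912) (W1 := 536870912) (P2 := 1239849684) (W2 := 370763052) (P3 := 923417968) (W3 := 42949674) (N0 := 3) (En := eng) (mo := mog) (C1 := cd2q1) (C2 := cd1q2b) (C3 := pd1)
    rfl k0_mm_112_b

noncomputable def f_mm_113 : ℕ → ℕ → ℕ → ℕ → Bool := onCell 536870912 536870912 1610612736 536870912 923417968 42949674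
    (rowB 3 eng mog cd2q1 cd1q3 pd1 0 false false false .nn 1 1 3 (qsf 536870912 536870912 1610612736 536870912 1) ndB2q1 ndB1q3 pcB1 Cut.none Ext.none)

def k0_mm_113 : ∃ t, chk3 f_mm_113 t 1 1 1 = true :=
  ⟨(l 5), by decide +kernel⟩

theorem c_mm_113 : CertB 536870912 536870912 1610612736 536870912 923417968 42949674 3 eng mog cd2q1 cd1q3 pd1 false false false .nn 1 1 3
    ndB2q1 ndB1q3 pcB1 Cut.none Ext.none :=
  certB0 (fam := false) (s1 := false) (s2 := false) (a := 1) (b := 1) (c := 3) (cn := .nn) (n1 := ndB2q1) (n2 := ndB1q3) (pc := pcB1) (cut := Cut.none) (xt := Ext.none) (P1 := 536870912) (W1 := 536870912) (P2 := 1610612736) (W2 := 536870912) (P3 := 923417968) (W3 := 42949674) (N0 := 3) (En := eng) (mo := mog) (C1 := cd2q1) (C2 := cd1q3) (C3 := pd1)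
    rfl k0_mm_113

noncomputable def f_mm_123 : ℕ → ℕ → ℕ → ℕ → Bool := onCell 536870912 536870912 1610612736 536870912 923417968 42949674
    (rowB 3 eng mog cd2q1 cd1q3 pd2 0 false false false .npn 1 2 3 (qsf 536870912 536870912 1610612736 536870912 2) ndB2q1 ndB1q3 pcB2 Cut.none Ext.none)

def k0_mm_123 : ∃ t, chk3 f_mm_123 t 1 1 1 = true :=
  ⟨(l 5), by decide +kernel⟩

theorem c_mm_123 : CertB 536870912 536870912 1610612736 536870912 923417968 42949674 3 eng mog cd2q1 cd1q3 pd2 false false false .npn 1 2 3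
    ndB2q1 ndB1q3 pcB2 Cut.none Ext.none :=
  certB0 (fam := false) (s1 := false) (s2 := false) (a := 1) (b := 2) (c := 3) (cn := .npn) (n1 := ndB2q1) (n2 := ndB1q3) (pc := pcB2) (cut := Cut.none) (xt := Ext.none) (P1 := 536870912) (W1 := 536870912) (P2 := 1610612736) (W2 := 536870912) (P3 := 923417968) (W3 := 42949674) (N0 := 3) (En := eng) (mo := mog) (C1 := cd2q1) (C2 := cd1q3) (C3 := pd2)
    rfl k0_mm_123

noncomputable def f_mm_133 : ℕ → ℕ → ℕ → ℕ → Bool := onCell 536870912 536870912 1610612736 536870912 923417968 42949674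
    (rowB 3 eng mog cd2q1 cd1q3 pd3 0 false false false .dn 1 3 3 (qsf 536870912 536870912 1610612736 536870912 3) ndB2q1 ndB1q3 pcB3 Cut.none Ext.none)

def k0_mm_133 : ∃ t, chk3 f_mm_133 t 1 1 1 = true :=
  ⟨(l 5), by decide +kernel⟩

theorem c_mm_133 : CertB 536870912 536870912 1610612736 536870912 923417968 42949674 3 eng mog cd2q1 cd1q3 pd3 false false false .dn 1 3 3
    ndB2q1 ndB1q3 pcB3 Cut.none Ext.none :=
  certB0 (fam := false) (s1 := false) (s2 := false) (a := 1) (b := 3) (c := 3) (cn := .dn) (n1 := ndB2q1) (n2 := ndB1q3) (pc := pcB3) (cut := Cut.none) (xt := Ext.none) (P1 := 536870912) (W1 := 536870912) (P2 := 1610612736) (W2 := 536870912) (P3 := 923417968) (W3 := 42949674) (N0 := 3) (En := eng) (mo := mog) (C1 := cd2q1) (C2 := cd1q3) (C3 := pd3)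
    rfl k0_mm_133

noncomputable def f_mm_202_a : ℕ → ℕ → ℕ → ℕ → Bool := onCell 1073741824 536870912 0 536870912 923417968 42949674
    (rowB 3 eng mog cd2q2 cd1q2a pd0 0 false false false .pp 2 0 2 (qsf 1073741824 536870912 0 536870912 0) ndB2q2 ndB1q2a pcB0 Cut.none Ext.none)

def k0_mm_202_a : ∃ t, chk3 f_mm_202_a t 1 1 1 = true :=
  ⟨(l 3), by decide +kernel⟩

theorem c_mm_202_a : CertB 1073741824 536870912 0 536870912 923417968 42949674 3 eng mog cd2q2 cd1q2a pd0 false false false .pp 2 0 2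
    ndB2q2 ndB1q2a pcB0 Cut.none Ext.none :=
  certB0 (fam := false) (s1 := false) (s2 := false) (a := 2) (b := 0) (c := 2) (cn := .pp) (n1 := ndB2q2) (n2 := ndB1q2a) (pc := pcB0) (cut := Cut.none) (xt := Ext.none) (P1 := 1073741824) (W1 := 536870912) (P2 := 0) (W2 := 536870912) (P3 := 923417968) (W3 := 42949674) (N0 := 3) (En := eng) (mo := mog) (C1 := cd2q2) (C2 := cd1q2a) (C3 := pd0)
    rfl k0_mm_202_a

noncomputable def f_mm_202_b : ℕ → ℕ → ℕ → ℕ → Bool := onCell 1073741824 536870912 1239849684 370763052 923417968 42949674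
    (rowB 3 eng mog cd2q2 cd1q2b pd0 0 false false false .pp 2 0 2 (qsf 1073741824 536870912 1239849684 370763052 0) ndB2q2 ndB1q2b pcB0 Cut.none Ext.none)

def k0_mm_202_b : ∃ t, chk3 f_mm_202_b t 1 1 1 = true :=
  ⟨(l 3), by decide +kernel⟩

theorem c_mm_202_b : CertB 1073741824 536870912 1239849684 370763052 923417968 42949674 3 eng mog cd2q2 cd1q2b pd0 false false false .pp 2 0 2
    ndB2q2 ndB1q2b pcB0 Cut.none Ext.none :=
  certB0 (fam := false) (s1 := false) (s2 := false) (a := 2) (b := 0) (c := 2) (cn := .pp) (n1 := ndB2q2) (n2 := ndB1q2b) (pc := pcB0) (cut := Cut.none) (xt := Ext.none) (P1 := 1073741824) (W1 := 536870912) (P2 := 1239849684) (W2 := 370763052) (P3 := 923417968) (W3 := 42949674) (N0 := 3) (En := eng) (mo := mog) (C1 := cd2q2) (C2 := cd1q2b) (C3 := pd0)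
    rfl k0_mm_202_b

noncomputable def f_mm_203 : ℕ → ℕ → ℕ → ℕ → Bool := onCell 1073741824 536870912 1610612736 536870912 923417968 42949674
    (rowB 3 eng mog cd2q2 cd1q3 pd0 0 false false false .up 2 0 3 (qsf 1073741824 536870912 1610612736 536870912 0) ndB2q2 ndB1q3 pcB0 Cut.none Ext.none)

def k0_mm_203 : ∃ t, chk3 f_mm_203 t 1 1 1 = true :=
  ⟨(l 5), by decide +kernel⟩

theorem c_mm_203 : CertB 1073741824 536870912 1610612736 536870912 923417968 42949674 3 eng mog cd2q2 cd1q3 pd0 false false false .up 2 0 3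
    ndB2q2 ndB1q3 pcB0 Cut.none Ext.none :=
  certB0 (fam := false) (s1 := false) (s2 := false) (a := 2) (b := 0) (c := 3) (cn := .up) (n1 := ndB2q2) (n2 := ndB1q3) (pc := pcB0) (cut := Cut.none) (xt := Ext.none) (P1 := 1073741824) (W1 := 536870912) (P2 := 1610612736) (W2 := 536870912) (P3 := 923417968) (W3 := 42949674) (N0 := 3) (En := eng) (mo := mog) (C1 := cd2q2) (C2 := cd1q3) (C3 := pd0)
    rfl k0_mm_203

noncomputable def f_mm_213 : ℕ → ℕ → ℕ → ℕ → Bool := onCell 1073741824 536870912 1610612736 536870912 923417968 42949674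
    (rowB 3 eng mog cd2q2 cd1q3 pd1 0 false false false .pnn 2 1 3 (qsf 1073741824 536870912 1610612736 536870912 1) ndB2q2 ndB1q3 pcB1 Cut.none Ext.none)

def k0_mm_213 : ∃ t, chk3 f_mm_213 t 1 1 1 = true :=
  ⟨(l 5), by decide +kernel⟩

theorem c_mm_213 : CertB 1073741824 536870912 1610612736 536870912 923417968 42949674 3 eng mog cd2q2 cd1q3 pd1 false false false .pnn 2 1 3
    ndB2q2 ndB1q3 pcB1 Cut.none Ext.none :=
  certB0 (fam := false) (s1 := false) (s2 := false) (a := 2) (b := 1) (c := 3) (cn := .pnn) (n1 := ndB2q2) (n2 := ndB1q3) (pc := pcB1) (cut := Cut.none) (xt := Ext.none) (P1 := 1073741824) (W1 := 536870912) (P2 := 1610612736) (W2 := 536870912) (P3 := 923417968) (W3 := 42949674) (N0 := 3) (En := eng) (mo := mog) (C1 := cd2q2) (C2 := cd1q3) (C3 := pd1)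
    rfl k0_mm_213

noncomputable def f_mm_303 : ℕ → ℕ → ℕ → ℕ → Bool := onCell 0 1230186008 1610612736 536870912 923417968 42949674
    (rowB 3 eng mog cd2q3 cd1q3 pd0 0 false false false .npn 3 0 3 (qsf 0 1230186008 1610612736 536870912 0) ndB2q3 ndB1q3 pcB0 Cut.none Ext.none)

def k0_mm_303 : ∃ t, chk3 f_mm_303 t 1 1 1 = true :=
  ⟨(a (l 3) (l 3)), by decide +kernel⟩

theorem c_mm_303 : CertB 0 1230186008 1610612736 536870912 923417968 42949674 3 eng mog cd2q3 cd1q3 pd0 false false false .npn 3 0 3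
    ndB2q3 ndB1q3 pcB0 Cut.none Ext.none :=
  certB0 (fam := false) (s1 := false) (s2 := false) (a := 3) (b := 0) (c := 3) (cn := .npn) (n1 := ndB2q3) (n2 := ndB1q3) (pc := pcB0) (cut := Cut.none) (xt := Ext.none) (P1 := 0) (W1 := 1230186008) (P2 := 1610612736) (W2 := 536870912) (P3 := 923417968) (W3 := 42949674) (N0 := 3) (En := eng) (mo := mog) (C1 := cd2q3) (C2 := cd1q3) (C3 := pd0)
    rfl k0_mm_303

noncomputable def f_mm_313 : ℕ → ℕ → ℕ → ℕ → Bool := onCell 0 1230186008 1610612736 536870912 923417968 42949674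
    (rowB 3 eng mog cd2q3 cd1q3 pd1 0 false false false .dn 3 1 3 (qsf 0 1230186008 1610612736 536870912 1) ndB2q3 ndB1q3 pcB1 Cut.none Ext.none)

def k0_mm_313 : ∃ t, chk3 f_mm_313 t 1 1 1 = true :=
  ⟨(a (l 1) (l 3)), by decide +kernel⟩

theorem c_mm_313 : CertB 0 1230186008 1610612736 536870912 923417968 42949674 3 eng mog cd2q3 cd1q3 pd1 false false false .dn 3 1 3
    ndB2q3 ndB1q3 pcB1 Cut.none Ext.none :=
  certB0 (fam := false) (s1 := false) (s2 := false) (a := 3) (b := 1) (c := 3) (cn := .dn) (n1 := ndB2q3) (n2 := ndB1q3) (pc := pcB1) (cut := Cut.none) (xt := Ext.none) (P1 := 0) (W1 := 1230186008) (P2 := 1610612736) (W2 := 536870912) (P3 := 923417968) (W3 := 42949674) (N0 := 3) (En := eng) (mo := mog) (C1 := cd2q3) (C2 := cd1q3) (C3 := pd1)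
    rfl k0_mm_313

end Pool.Agent.Strip051.G.I8600_9000.Tab.C.BB21

namespace Pool.Agent.Strip051.G.I8600_9000.Tab.C.BB22

open Pool.Agent.Strip051.PB Pool.Agent.Strip051.PB.T
open Pool.Agent.Strip051.G.I8600_9000.Tab

noncomputable def f_pp_001 : ℕ → ℕ → ℕ → ℕ → Bool := onCell 0 536870912 0 536870912 923417968 42949674
    (rowB 3 eng mog cd2q0 cd2q1 pd0 1 false true true .up 0 0 1 (qsf 0 536870912 536870912 536870912 0) ndB2q0 ndB2q1 pcB0 Cut.none Ext.none)

def k0_pp_001 : ∃ t, chk3 f_pp_001 t 1 1 1 = true :=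
  ⟨(l 3), by decide +kernel⟩

theorem c_pp_001 : CertB 0 536870912 536870912 536870912 923417968 42949674 3 eng mog cd2q0 cd2q1 pd0 false true true .up 0 0 1
    ndB2q0 ndB2q1 pcB0 Cut.none Ext.none :=
  certB1 (fam := false) (s1 := true) (s2 := true) (a := 0) (b := 0) (c := 1) (cn := .up) (n1 := ndB2q0) (n2 := ndB2q1) (pc := pcB0) (cut := Cut.none) (xt := Ext.none) (P1 := 0) (W1 := 536870912) (P2 := 536870912) (W2 := 536870912) (P3 := 923417968) (W3 := 42949674) (N0 := 3) (En := eng) (mo := mog) (C1 := cd2q0) (C2 := cd2q1) (C3 := pd0)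
    rfl (fun _ => rfl) k0_pp_001

noncomputable def f_pp_011 : ℕ → ℕ → ℕ → ℕ → Bool := onCell 0 536870912 536870912 536870912 923417968 42949674
    (rowB 3 eng mog cd2q0 cd2q1 pd1 0 false true true .pnn 0 1 1 (qsf 0 536870912 536870912 536870912 1) ndB2q0 ndB2q1 pcB1 Cut.none Ext.none)

def k0_pp_011 : ∃ t, chk3 f_pp_011 t 1 1 1 = true :=
  ⟨(a (l 3) (l 3)), by decide +kernel⟩

theorem c_pp_011 : CertB 0 536870912 536870912 536870912 923417968 42949674 3 eng mog cd2q0 cd2q1 pd1 false true true .pnn 0 1 1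
    ndB2q0 ndB2q1 pcB1 Cut.none Ext.none :=
  certB0 (fam := false) (s1 := true) (s2 := true) (a := 0) (b := 1) (c := 1) (cn := .pnn) (n1 := ndB2q0) (n2 := ndB2q1) (pc := pcB1) (cut := Cut.none) (xt := Ext.none) (P1 := 0) (W1 := 536870912) (P2 := 536870912) (W2 := 536870912) (P3 := 923417968) (W3 := 42949674) (N0 := 3) (En := eng) (mo := mog) (C1 := cd2q0) (C2 := cd2q1) (C3 := pd1)
    rfl k0_pp_011

noncomputable def f_pp_012 : ℕ → ℕ → ℕ → ℕ → Bool := onCell 0 536870912 536870912 536870912 923417968 42949674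
    (rowB 3 eng mog cd2q0 cd2q2 pd1 1 false true true .pnp 0 1 2 (qsf 0 536870912 1073741824 536870912 1) ndB2q0 ndB2q2 pcB1 Cut.none Ext.none)

def k0_pp_012 : ∃ t, chk3 f_pp_012 t 2 2 1 = true :=
  ⟨(l 3), by decide +kernel⟩

def k1_pp_012 : ∃ t, chk3 f_pp_012 t 4 3 1 = true :=
  ⟨(b (l 3) (a (b (l 3) (b (l 3) (a (b (l 3) (a (l 3) (b (l 3) (a (l 3) (l 16349360))))) (b (a (c (l 392619788215) (l 477445329303)) (b (l 16305112) (l 16280888))) (a (b (l 16343712) (l 16333328)) (b (l 16272208) (l 16266208))))))) (a (b (l 3) (a (b (b (l 3) (b (l 16213928) (l 16240392))) (b (c (l 16241944) (l 16227616)) (l 16220744))) (b (a (b (l 419462733415) (a (l 16215312) (l 16216840))) (b (a (l 16180216) (l 16181608)) (a (l 16219088) (l 16220992)))) (a (b (a (l 16204888) (l 16204464)) (a (l 16191968) (l 16191784))) (b (l 16207184) (l 16194864)))))) (b (b (l 3) (a (a (l 3) (l 511267786791)) (b (l 3) (a (l 16163968) (l 16205216))))) (a (b (b (a (a (l 16198488) (l 16216144))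 (l 16230280)) (a (l 16224376) (l 16226520))) (a (b (l 16208624) (l 16196888)) (b (l 16210224) (l 16199112)))) (a (b (b (l 16239216) (l 16228328)) (b (l 16211928) (l 16201472))) (b (b (l 16244320) (l 16229952)) (l 16312544)))))))), by decide +kernel⟩

def k2_pp_012 : ∃ t, chk3 f_pp_012 t 5 3 1 = true :=
  ⟨(b (b (l 3) (a (a (l 3) (b (l 3) (a (l 3) (l 603072748487)))) (b (a (l 3) (c (l 399598392455) (l 429125871895))) (a (b (l 483887279031) (l 16098256)) (b (l 16061112) (l 16071056)))))) (a (b (a (b (a (l 3) (l 596630399015)) (a (b (l 454359324615) (c (l 16246104) (l 16253064))) (b (l 16228680) (l 16265424)))) (b (a (b (l 588040357015) (l 16171792)) (l 363627899767)) (a (a (l 16246816) (l 16249320)) (l 16193640)))) (a (b (a (b (l 16355560) (l 16233936)) (l 16139984)) (a (l 16086808) (l 16216392))) (b (a (l 16231544) (l 16184384)) (a (l 16205520) (l 16161880))))) (b (b (a (b (l 16148128) (l 16154536)) (l 16043160)) (a (l 16141320) (l 16042024))) (b (a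 (l 16112432) (l 16017824)) (a (l 16095360) (l 16008112)))))), by decide +kernel⟩

def k3_pp_012 : ∃ t, chk3 f_pp_012 t 3 1 1 = true :=
  ⟨(b (b (l 3) (a (b (l 3) (a (l 3) (b (l 3) (a (l 3) (b (l 3) (l 284707697975)))))) (b (a (l 3) (c (b (l 331952022231) (a (l 297055770935) (l 15791120))) (b (l 358258587047) (a (l 304035031719) (l 15672368))))) (a (b (c (a (l 297592522807) (l 289002662231)) (a (l 322825461655) (l 298129453223))) (a (c (l 266454096935) (l 15863912)) (c (l 15724624) (l 15683840)))) (b (a (c (l 15721696) (l 15673624)) (c (l 15655872) (l 15605328))) (a (l 15798992) (l 15563368))))))) (b (a (b (a (b (a (l 3) (l 3)) (a (b (l 3) (l 347521670855)) (c (l 15890168) (l 226725704311)))) (b (a (c (l 241221130791) (l 308329962039)) (c (l 15821448) (l 15791672))) (a (c (l 15863144) (l 15841608)) (c (l 15779776) (l 15755432))))) (a (b (a (c (l 15971792) (l 15987144)) (c (l 15919936) (l 15907272))) (c (a (l 15988176) (l 15895096)) (l 15938064))) (b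 (a (l 15992112) (l 15734976)) (a (l 15798704) (l 15708992))))) (b (a (b (a (c (l 15743224) (l 15710216)) (l 15668936)) (a (l 15683352) (l 15603560))) (b (a (l 15573992) (l 15507176)) (a (l 15530472) (l 15465440)))) (a (b (a (l 15649808) (l 15570936)) (l 15795792)) (b (l 15488320) (l 15449744))))) (b (a (a (b (c (l 15936312) (l 15900464)) (b (l 15902128) (l 15892912))) (b (a (l 15776776) (l 15689592)) (l 15824992))) (a (b (l 15571944) (l 15569848)) (b (l 15444216) (l 15453624)))) (a (a (b (l 15881904) (l 15883432)) (b (l 15718088) (l 15735304))) (a (b (l 15582064) (l 15616208)) (b (l 15481280) (l 15512976))))))), by decide +kernel⟩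

theorem s4_pp_012 : ∃ t, chk3 f_pp_012 t 2 3 1 = true := ex3_a k1_pp_012 k2_pp_012

theorem s5_pp_012 : ∃ t, chk3 f_pp_012 t 2 1 1 = true := ex3_b k0_pp_012 s4_pp_012

theorem s6_pp_012 : ∃ t, chk3 f_pp_012 t 1 1 1 = true := ex3_a s5_pp_012 k3_pp_012

theorem c_pp_012 : CertB 0 536870912 1073741824 536870912 923417968 42949674 3 eng mog cd2q0 cd2q2 pd1 false true true .pnp 0 1 2
    ndB2q0 ndB2q2 pcB1 Cut.none Ext.none :=
  certB1 (fam := false) (s1 := true) (s2 := true) (a := 0) (b := 1) (c := 2) (cn := .pnp) (n1 := ndB2q0) (n2 := ndB2q2) (pc := pcB1) (cut := Cut.none) (xt := Ext.none) (P1 := 0) (W1 := 536870912) (P2 := 1073741824) (W2 := 536870912) (P3 := 923417968) (W3 := 42949674) (N0 := 3) (En := eng) (mo := mog) (C1 := cd2q0) (C2 := cd2q2) (C3 := pd1)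
    rfl (fun _ => rfl) s6_pp_012

noncomputable def f_pp_022 : ℕ → ℕ → ℕ → ℕ → Bool := onCell 0 536870912 1073741824 536870912 923417968 42949674
    (rowB 3 eng mog cd2q0 cd2q2 pd2 1 false true true .pp 0 2 2 (qsf 0 536870912 1073741824 536870912 2) ndB2q0 ndB2q2 pcB2 Cut.none Ext.none)

def k0_pp_022 : ∃ t, chk3 f_pp_022 t 4 2 1 = true :=
  ⟨(b (a (b (b (a (b (a (b (l 3) (c (l 16455736) (l 16465448))) (b (c (l 48485580343) (l 16341856)) (l 16396656))) (a (b (a (l 16492680) (l 16480632)) (l 16397240)) (c (l 16432512) (l 16439192)))) (b (a (c (l 16303256) (l 16297472)) (l 16213512)) (a (l 16354856) (l 16273184)))) (a (b (a (b (l 16483480) (l 16569488)) (l 16463288)) (a (l 16580192) (l 16531408))) (a (b (l 16408400) (l 16460192)) (l 16150144)))) (c (a (b (l 16367384) (l 16263040)) (b (l 16463440) (l 16539288))) (b (a (a (l 16522720) (l 16593592)) (l 16540856)) (a (a (l 16269400) (l 16384272)) (l 16463880))))) (a (a (b (b (b (l 16105392) (l 16190896))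 (l 16137792)) (b (l 16359760) (l 16507184))) (b (b (a (b (a (l 16073848) (l 16064048)) (l 16137488)) (c (l 16078560) (l 16097648))) (a (l 16109992) (l 16221816))) (b (a (l 16274920) (l 16346736)) (a (l 16469968) (l 16459592))))) (b (a (b (a (l 15882408) (l 16055384)) (a (l 16207840) (l 16194216))) (b (a (l 16039968) (l 16024848)) (l 16029704))) (a (b (c (l 16283600) (l 16383392)) (l 16446600)) (b (l 16182984) (l 16426320)))))) (a (b (b (b (a (c (l 16325304) (l 16207584)) (l 16360168)) (a (c (l 16014896) (l 16027424)) (c (l 16361216) (l 16204776)))) (a (c (l 16126912) (l 15971672)) (c (l 16247864) (l 16092808)))) (a (c (b (l 15977016) (l 15840008)) (b (l 15797944) (l 15639488))) (b (l 15852400) (c (l 15978240) (l 15781328))))) (a (a (b (b (b (l 16466424) (l 16383824)) (l 16266648)) (b (l 16123560) (l 16003920))) (b (b (b (l 16497112) (a (l 16418608) (l 16420240))) (l 16285064)) (b (l 16156120) (l 16079424)))) (b (a (b (b (l 16496888) (l 16358336)) (l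 16320920)) (l 16358088)) (a (l 16162480) (l 16196048)))))), by decide +kernel⟩

def k1_pp_022 : ∃ t, chk3 f_pp_022 t 5 2 1 = true :=
  ⟨(a (b (a (b (a (b (b (l 15945712) (l 16043696)) (l 16052112)) (b (l 15893416) (l 16154168))) (b (a (l 16294208) (l 16285240)) (a (l 16406976) (l 16388216)))) (b (b (a (l 15995360) (l 15961432)) (a (l 16142760) (l 16103416))) (a (l 16085504) (l 16269376)))) (a (b (a (l 16409088) (l 16414440)) (a (l 16223232) (l 16244712))) (b (a (l 16431024) (l 16391032)) (l 16304136)))) (b (b (b (a (l 15909392) (l 15841208)) (l 15752936)) (b (l 16110272) (l 16189792))) (b (c (l 16194488) (l 16322272)) (l 16246640)))), by decide +kernel⟩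

def k2_pp_022 : ∃ t, chk3 f_pp_022 t 2 3 1 = true :=
  ⟨(a (b (a (b (a (c (l 15658640) (l 15430424)) (b (a (l 15719848) (l 15808824)) (a (l 15619720) (l 15738784)))) (a (b (a (l 15346072) (l 15438080)) (a (a (l 15235280) (l 15287752)) (l 15391208))) (b (a (l 15561672) (l 15699696)) (l 15613064)))) (a (a (b (l 15743072) (l 15821016)) (b (c (l 16062512) (l 15887952)) (l 15917920))) (b (a (l 16030736) (l 16076656)) (a (l 15974328) (l 16022576))))) (a (b (a (b (a (b (l 15228872) (l 15231568)) (l 15390288)) (a (l 15246824) (l 15407968))) (b (l 15613792) (l 15629680))) (a (b (a (l 15282080) (l 15440568)) (a (l 15330184) (l 15482584))) (b (l 15655488) (l 15685040)))) (a (a (b (l 15820560) (l 15848384)) (b (l 15913120) (l 2))) (b (a (l 15961968) (l 15999072)) (l 2))))) (a (b (a (b (l 16123608) (l 16067768)) (b (l 16209784) (l 16125448))) (b (a (l 16010352) (l 2)) (l 2))) (b (b (l 16130352) (b (l 15980656) (l 2))) (l 2)))), by decide +kernel⟩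

def k3_pp_022 : ∃ t, chk3 f_pp_022 t 3 1 1 = true :=
  ⟨(b (b (a (b (a (b (l 15744776) (l 15856400)) (b (l 15634152) (l 15729144))) (a (b (l 15944776) (l 16008000)) (l 15827568))) (b (a (l 15595000) (l 15542816)) (a (l 15705744) (l 15610528)))) (a (b (a (l 16052088) (l 15869856)) (a (l 16016576) (l 15676008))) (b (a (l 15723120) (l 2)) (l 2)))) (b (a (b (a (l 15896976) (l 2)) (l 2)) (l 2)) (l 2))), by decide +kernel⟩

theorem s4_pp_022 : ∃ t, chk3 f_pp_022 t 2 2 1 = true := ex3_a k0_pp_022 k1_pp_022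

theorem s5_pp_022 : ∃ t, chk3 f_pp_022 t 2 1 1 = true := ex3_b s4_pp_022 k2_pp_022

theorem s6_pp_022 : ∃ t, chk3 f_pp_022 t 1 1 1 = true := ex3_a s5_pp_022 k3_pp_022

theorem c_pp_022 : CertB 0 536870912 1073741824 536870912 923417968 42949674 3 eng mog cd2q0 cd2q2 pd2 false true true .pp 0 2 2
    ndB2q0 ndB2q2 pcB2 Cut.none Ext.none :=
  certB1 (fam := false) (s1 := true) (s2 := true) (a := 0) (b := 2) (c := 2) (cn := .pp) (n1 := ndB2q0) (n2 := ndB2q2) (pc := pcB2) (cut := Cut.none) (xt := Ext.none) (P1 := 0) (W1 := 536870912) (P2 := 1073741824) (W2 := 536870912) (P3 := 923417968) (W3 := 42949674) (N0 := 3) (En := eng) (mo := mog) (C1 := cd2q0) (C2 := cd2q2) (C3 := pd2)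
    rfl (fun _ => rfl) s6_pp_022

noncomputable def f_pp_023 : ℕ → ℕ → ℕ → ℕ → Bool := onCell 0 536870912 0 1230186008 923417968 42949674
    (rowB 3 eng mog cd2q0 cd2q3 pd2 0 false true true .up 0 2 3 (qsf 0 536870912 0 1230186008 2) ndB2q0 ndB2q3 pcB2 Cut.none Ext.none)

def k0_pp_023 : ∃ t, chk3 f_pp_023 t 1 1 1 = true :=
  ⟨(b (b (l 4) (a (l 2) (b (l 4) (a (l 2) (b (l 4) (a (l 4) (l 16583472))))))) (b (a (b (l 2) (a (l 2) (a (l 2) (b (l 2) (l 16022632))))) (b (a (a (l 2) (b (l 16602232) (l 16470432))) (b (a (l 16563752) (l 16470048)) (l 16346352))) (a (b (l 117673958423) (l 16062976)) (b (l 16130856) (l 15702240))))) (a (b (a (l 2) (a (a (b (l 2) (l 15637408)) (b (l 15787792) (l 15653936))) (b (l 15850368) (l 15695616)))) (a (b (a (l 2) (a (a (l 15619240) (b (l 2) (l 15685416))) (b (l 15558752) (l 15660424)))) (a (b (l 774265963543) (a (l 15593528) (l 15832176))) (a (a (l 15951816) (l 15947408)) (a (l 15932216) (l 15916848))))) (a (b (a (l 15603752)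 (l 15354672)) (a (l 15892000) (l 15866568))) (b (b (l 15609360) (l 15626504)) (l 15824976))))) (b (a (b (l 15862120) (l 15527328)) (b (a (l 15763856) (l 15655864)) (l 15322136))) (a (b (a (l 15617832) (l 15578128)) (a (l 15742680) (l 15637336))) (b (a (l 15510944) (l 15429064)) (a (l 15519048) (l 15405864)))))))), by decide +kernel⟩

theorem c_pp_023 : CertB 0 536870912 0 1230186008 923417968 42949674 3 eng mog cd2q0 cd2q3 pd2 false true true .up 0 2 3
    ndB2q0 ndB2q3 pcB2 Cut.none Ext.none :=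
  certB0 (fam := false) (s1 := true) (s2 := true) (a := 0) (b := 2) (c := 3) (cn := .up) (n1 := ndB2q0) (n2 := ndB2q3) (pc := pcB2) (cut := Cut.none) (xt := Ext.none) (P1 := 0) (W1 := 536870912) (P2 := 0) (W2 := 1230186008) (P3 := 923417968) (W3 := 42949674) (N0 := 3) (En := eng) (mo := mog) (C1 := cd2q0) (C2 := cd2q3) (C3 := pd2)
    rfl k0_pp_023

noncomputable def f_pp_033 : ℕ → ℕ → ℕ → ℕ → Bool := onCell 0 536870912 0 1230186008 923417968 42949674
    (rowB 3 eng mog cd2q0 cd2q3 pd3 0 false true true .pnn 0 3 3 (qsf 0 536870912 0 1230186008 3) ndB2q0 ndB2q3 pcB3 Cut.none Ext.none)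

def k0_pp_033 : ∃ t, chk3 f_pp_033 t 1 1 1 = true :=
  ⟨(b (b (l 4) (a (l 4) (b (l 4) (a (l 4) (b (l 4) (a (l 4) (l 1))))))) (b (a (b (a (l 4) (a (l 4) (b (l 4) (l 731452559831)))) (a (b (a (b (l 4) (a (l 15360472) (l 15565960))) (a (a (l 15724880) (l 15800944)) (a (l 15844200) (l 15887072)))) (a (a (l 15349312) (l 15560968)) (a (a (l 15720776) (l 15800976)) (l 15858072)))) (a (a (b (l 15939240) (l 15952672)) (b (l 16050304) (l 16071320))) (b (l 16276528) (l 16312976))))) (b (a (b (a (l 4) (l 16605720)) (a (l 16495376) (l 16554264))) (b (a (l 16582744) (l 1)) (l 1))) (a (a (b (l 16487872) (l 16510448)) (b (l 16537744) (l 1))) (l 1)))) (a (b (a (b (a (b (l 15452856) (l 15534616)) (a (a (l 15724600) (l 15807792)) (l 15869664))) (a (a (b (l 15335832) (l 15327736)) (l 15555168)) (a (a (l 15723656) (l 15809800)) (a (l 15863248) (l 15916496))))) (a (a (b (l 15970872) (l 15983960)) (b (l 16097472) (l 16117976))) (b (l 16355048) (l 1)))) (a (b (a (b (a (l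 15365976) (l 15545632)) (a (l 15333824) (l 15552192))) (a (a (l 15570864) (l 15804128)) (a (l 15858416) (l 15912872)))) (a (c (b (l 15496080) (l 15499088)) (a (l 15504352) (l 15535872))) (a (a (l 15714424) (l 1)) (l 1)))) (a (b (a (l 15983040) (l 1)) (l 1)) (l 1)))) (l 1)))), by decide +kernel⟩

theorem c_pp_033 : CertB 0 536870912 0 1230186008 923417968 42949674 3 eng mog cd2q0 cd2q3 pd3 false true true .pnn 0 3 3
    ndB2q0 ndB2q3 pcB3 Cut.none Ext.none :=
  certB0 (fam := false) (s1 := true) (s2 := true) (a := 0) (b := 3) (c := 3) (cn := .pnn) (n1 := ndB2q0) (n2 := ndB2q3) (pc := pcB3) (cut := Cut.none) (xt := Ext.none) (P1 := 0) (W1 := 536870912) (P2 := 0) (W2 := 1230186008) (P3 := 923417968) (W3 := 42949674) (N0 := 3) (En := eng) (mo := mog) (C1 := cd2q0) (C2 := cd2q3) (C3 := pd3)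
    rfl k0_pp_033

noncomputable def f_pp_101 : ℕ → ℕ → ℕ → ℕ → Bool := onCell 536870912 536870912 536870912 536870912 923417968 42949674
    (rowB 3 eng mog cd2q1 cd2q1 pd0 0 false true true .npn 1 0 1 (qsf 536870912 536870912 536870912 536870912 0) ndB2q1 ndB2q1 pcB0 Cut.none Ext.none)

def k0_pp_101 : ∃ t, chk3 f_pp_101 t 1 1 1 = true :=
  ⟨(l 3), by decide +kernel⟩

theorem c_pp_101 : CertB 536870912 536870912 536870912 536870912 923417968 42949674 3 eng mog cd2q1 cd2q1 pd0 false true true .npn 1 0 1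
    ndB2q1 ndB2q1 pcB0 Cut.none Ext.none :=
  certB0 (fam := false) (s1 := true) (s2 := true) (a := 1) (b := 0) (c := 1) (cn := .npn) (n1 := ndB2q1) (n2 := ndB2q1) (pc := pcB0) (cut := Cut.none) (xt := Ext.none) (P1 := 536870912) (W1 := 536870912) (P2 := 536870912) (W2 := 536870912) (P3 := 923417968) (W3 := 42949674) (N0 := 3) (En := eng) (mo := mog) (C1 := cd2q1) (C2 := cd2q1) (C3 := pd0)
    rfl k0_pp_101

noncomputable def f_pp_102 : ℕ → ℕ → ℕ → ℕ → Bool := onCell 536870912 536870912 0 536870912 923417968 42949674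
    (rowB 3 eng mog cd2q1 cd2q2 pd0 1 false true true .npp 1 0 2 (qsf 536870912 536870912 1073741824 536870912 0) ndB2q1 ndB2q2 pcB0 Cut.none Ext.none)

def k0_pp_102 : ∃ t, chk3 f_pp_102 t 1 1 1 = true :=
  ⟨(b (l 3) (b (a (l 3) (a (l 3) (b (l 3) (a (l 3) (a (l 3) (b (l 3) (b (l 3) (l 160151799687)))))))) (a (a (l 3) (b (l 3) (a (l 3) (b (l 3) (a (l 3) (l 15765984)))))) (a (b (a (l 3) (b (l 3) (a (l 3) (l 204712741639)))) (a (b (a (l 3) (l 15577088)) (c (l 15633304) (l 15496216))) (b (c (l 15419160) (l 15261768)) (c (l 15338536) (l 15179792))))) (c (b (a (b (l 205249488055) (a (l 15261792) (l 15082104))) (b (a (l 14992392) (l 14793040)) (a (l 14893080) (l 14696312)))) (a (b (l 15082024) (l 15005680)) (b (l 14711160) (l 14642424)))) (b (a (b (l 199343608759) (l 14974976)) (b (a (l 14802064) (l 14590592)) (l 14616872))) (a (b (l 14902304) (l 14825592)) (b (l 14509800) (l 14441304))))))))), by decide +kernel⟩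

theorem c_pp_102 : CertB 536870912 536870912 1073741824 536870912 923417968 42949674 3 eng mog cd2q1 cd2q2 pd0 false true true .npp 1 0 2
    ndB2q1 ndB2q2 pcB0 Cut.none Ext.none :=
  certB1 (fam := false) (s1 := true) (s2 := true) (a := 1) (b := 0) (c := 2) (cn := .npp) (n1 := ndB2q1) (n2 := ndB2q2) (pc := pcB0) (cut := Cut.none) (xt := Ext.none) (P1 := 536870912) (W1 := 536870912) (P2 := 1073741824) (W2 := 536870912) (P3 := 923417968) (W3 := 42949674) (N0 := 3) (En := eng) (mo := mog) (C1 := cd2q1) (C2 := cd2q2) (C3 := pd0)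
    rfl (fun _ => rfl) k0_pp_102

noncomputable def f_pp_112 : ℕ → ℕ → ℕ → ℕ → Bool := onCell 536870912 536870912 1073741824 536870912 923417968 42949674
    (rowB 3 eng mog cd2q1 cd2q2 pd1 2 false true true .dn 1 1 2 (qsf 536870912 536870912 1073741824 536870912 1) ndB2q1 ndB2q2 pcB1 Cut.none Ext.none)

def k0_pp_112 : ∃ t, chk3 f_pp_112 t 1 1 1 = true :=
  ⟨(a (a (b (b (l 3) (a (b (l 3) (a (b (l 3) (l 15750904)) (b (l 15904144) (l 15784512)))) (b (b (l 3) (a (l 16011720) (l 16020176))) (c (a (l 15913256) (l 15927128)) (a (l 15822856) (l 15847184)))))) (b (a (b (a (c (l 15581912) (l 15452424)) (b (l 15641712) (l 15487304))) (a (b (l 15257224) (l 15072352)) (b (l 15323120) (l 15150608)))) (b (c (l 15681800) (l 15582848)) (c (l 15419608) (l 15263872)))) (a (b (a (c (l 14864624) (l 14698480)) (l 15068408)) (a (c (l 14474992) (l 14286056)) (l 14606848))) (b (a (l 14973872) (l 15065056)) (a (l 14619456) (l 14733712)))))) (b (b (a (l 3) (l 1)) (a (a (b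 (b (l 16064072) (l 16020392)) (l 15924344)) (b (l 194916381783) (l 15912696))) (b (a (l 257193297479) (l 1)) (c (l 16144296) (l 15864368))))) (b (a (b (c (l 15748920) (l 15673336)) (a (l 15439696) (l 15498504))) (b (a (l 15754840) (l 15773464)) (a (l 15550128) (l 15594488)))) (a (b (a (l 15152632) (l 15235240)) (c (l 14961296) (l 14834528))) (b (l 15388672) (l 15097496)))))) (a (b (b (l 1) (a (b (l 1) (b (l 1) (l 15870448))) (l 1))) (b (a (b (a (l 15788400) (l 15801584)) (l 15696712)) (b (l 393021641687) (l 15725080))) (a (b (l 15478296) (l 15277232)) (b (l 15596872) (l 15441936))))) (b (l 1) (a (b (b (l 1) (l 15777336)) (b (l 15699408) (l 15589528))) (b (l 1) (b (l 15791352) (l 15714728))))))), by decide +kernel⟩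

theorem c_pp_112 : CertB 536870912 536870912 1073741824 536870912 923417968 42949674 3 eng mog cd2q1 cd2q2 pd1 false true true .dn 1 1 2
    ndB2q1 ndB2q2 pcB1 Cut.none Ext.none :=
  certB2 (fam := false) (s1 := true) (s2 := true) (a := 1) (b := 1) (c := 2) (cn := .dn) (n1 := ndB2q1) (n2 := ndB2q2) (pc := pcB1) (cut := Cut.none) (xt := Ext.none) (P1 := 536870912) (W1 := 536870912) (P2 := 1073741824) (W2 := 536870912) (P3 := 923417968) (W3 := 42949674) (N0 := 3) (En := eng) (mo := mog) (C1 := cd2q1) (C2 := cd2q2) (C3 := pd1)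
    rfl (fun _ => rfl) k0_pp_112

noncomputable def f_pp_113 : ℕ → ℕ → ℕ → ℕ → Bool := onCell 536870912 536870912 0 1230186008 923417968 42949674
    (rowB 3 eng mog cd2q1 cd2q3 pd1 2 false true true .nn 1 1 3 (qsf 536870912 536870912 0 1230186008 1) ndB2q1 ndB2q3 pcB1 Cut.none Ext.none)

def k0_pp_113 : ∃ t, chk3 f_pp_113 t 1 1 1 = true :=
  ⟨(a (b (l 2) (b (b (l 2) (a (l 2) (a (l 2) (l 14114640)))) (a (b (l 2) (a (b (l 2) (c (a (l 14159040) (l 14279432)) (a (l 14085856) (l 14200536)))) (b (c (l 14146192) (l 14030048)) (c (l 14457048) (l 14366480))))) (b (b (l 367852374247) (a (l 14113352) (l 14400496))) (a (b (b (l 14275216) (l 14406192)) (c (l 14683000) (l 14576872))) (b (l 14591016) (l 14832256))))))) (a (b (l 2) (b (b (b (l 15150352) (l 14914776)) (l 14819352)) (b (a (l 14608776) (l 14857064)) (a (b (l 14823392) (l 15021544)) (b (l 15020128) (l 15194952)))))) (b (b (l 16420768) (b (l 16392720) (b (l 16413312) (l 16467928)))) (b (b (b (l 16516152)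 (l 15968232)) (l 15328176)) (b (a (l 15043256) (l 15133576)) (b (l 15256808) (a (l 15333064) (l 15412192)))))))), by decide +kernel⟩

theorem c_pp_113 : CertB 536870912 536870912 0 1230186008 923417968 42949674 3 eng mog cd2q1 cd2q3 pd1 false true true .nn 1 1 3
    ndB2q1 ndB2q3 pcB1 Cut.none Ext.none :=
  certB2 (fam := false) (s1 := true) (s2 := true) (a := 1) (b := 1) (c := 3) (cn := .nn) (n1 := ndB2q1) (n2 := ndB2q3) (pc := pcB1) (cut := Cut.none) (xt := Ext.none) (P1 := 536870912) (W1 := 536870912) (P2 := 0) (W2 := 1230186008) (P3 := 923417968) (W3 := 42949674) (N0 := 3) (En := eng) (mo := mog) (C1 := cd2q1) (C2 := cd2q3) (C3 := pd1)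
    rfl (fun _ => rfl) k0_pp_113

noncomputable def f_pp_123 : ℕ → ℕ → ℕ → ℕ → Bool := onCell 1073741824 536870912 0 1230186008 923417968 42949674
    (rowB 3 eng mog cd2q1 cd2q3 pd2 2 false true true .npn 1 2 3 (qsf 536870912 536870912 0 1230186008 2) ndB2q1 ndB2q3 pcB2 Cut.none Ext.none)

def k0_pp_123 : ∃ t, chk3 f_pp_123 t 1 1 1 = true :=
  ⟨(b (b (a (a (l 16763240) (l 16662792)) (l 4)) (a (b (a (l 16797928) (l 16442080)) (a (b (l 16659392) (l 16387520)) (b (l 16238088) (l 16104968)))) (b (a (l 16546728) (l 4)) (a (b (l 16400528) (l 16306216)) (b (l 4) (l 16483992)))))) (b (a (b (a (b (l 15943800) (l 15686008)) (b (l 15963472) (l 15837824))) (a (a (l 15437184) (l 15487344)) (a (l 15614584) (l 15734712)))) (b (a (b (l 16188216) (l 16071336)) (b (l 16405464) (l 1))) (a (l 15891232) (l 1)))) (a (a (b (a (l 15345648) (l 15434656)) (b (a (l 15489352) (l 15528632)) (a (l 15567632) (l 15609064)))) (b (a (l 15525120) (l 15599640)) (b (l 15399104) (l 1))))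 (l 1)))), by decide +kernel⟩

theorem c_pp_123 : CertB 536870912 536870912 0 1230186008 923417968 42949674 3 eng mog cd2q1 cd2q3 pd2 false true true .npn 1 2 3
    ndB2q1 ndB2q3 pcB2 Cut.none Ext.none :=
  certB2 (fam := false) (s1 := true) (s2 := true) (a := 1) (b := 2) (c := 3) (cn := .npn) (n1 := ndB2q1) (n2 := ndB2q3) (pc := pcB2) (cut := Cut.none) (xt := Ext.none) (P1 := 536870912) (W1 := 536870912) (P2 := 0) (W2 := 1230186008) (P3 := 923417968) (W3 := 42949674) (N0 := 3) (En := eng) (mo := mog) (C1 := cd2q1) (C2 := cd2q3) (C3 := pd2)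
    rfl (fun _ => rfl) k0_pp_123

noncomputable def f_pp_133 : ℕ → ℕ → ℕ → ℕ → Bool := onCell 1610612736 536870912 0 1230186008 923417968 42949674
    (rowB 3 eng mog cd2q1 cd2q3 pd3 2 false true true .dn 1 3 3 (qsf 536870912 536870912 0 1230186008 3) ndB2q1 ndB2q3 pcB3 Cut.none Ext.none)

def k0_pp_133 : ∃ t, chk3 f_pp_133 t 1 1 1 = true :=
  ⟨(b (b (l 4) (l 1)) (l 1)), by decide +kernel⟩

theorem c_pp_133 : CertB 536870912 536870912 0 1230186008 923417968 42949674 3 eng mog cd2q1 cd2q3 pd3 false true true .dn 1 3 3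
    ndB2q1 ndB2q3 pcB3 Cut.none Ext.none :=
  certB2 (fam := false) (s1 := true) (s2 := true) (a := 1) (b := 3) (c := 3) (cn := .dn) (n1 := ndB2q1) (n2 := ndB2q3) (pc := pcB3) (cut := Cut.none) (xt := Ext.none) (P1 := 536870912) (W1 := 536870912) (P2 := 0) (W2 := 1230186008) (P3 := 923417968) (W3 := 42949674) (N0 := 3) (En := eng) (mo := mog) (C1 := cd2q1) (C2 := cd2q3) (C3 := pd3)
    rfl (fun _ => rfl) k0_pp_133

noncomputable def f_pp_202 : ℕ → ℕ → ℕ → ℕ → Bool := onCell 1073741824 536870912 1073741824 536870912 923417968 42949674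
    (rowB 3 eng mog cd2q2 cd2q2 pd0 0 false true true .pp 2 0 2 (qsf 1073741824 536870912 1073741824 536870912 0) ndB2q2 ndB2q2 pcB0 Cut.none Ext.none)

def k0_pp_202 : ∃ t, chk3 f_pp_202 t 1 1 1 = true :=
  ⟨(l 3), by decide +kernel⟩

theorem c_pp_202 : CertB 1073741824 536870912 1073741824 536870912 923417968 42949674 3 eng mog cd2q2 cd2q2 pd0 false true true .pp 2 0 2
    ndB2q2 ndB2q2 pcB0 Cut.none Ext.none :=
  certB0 (fam := false) (s1 := true) (s2 := true) (a := 2) (b := 0) (c := 2) (cn := .pp) (n1 := ndB2q2) (n2 := ndB2q2) (pc := pcB0) (cut := Cut.none) (xt := Ext.none) (P1 := 1073741824) (W1 := 536870912) (P2 := 1073741824) (W2 := 536870912) (P3 := 923417968) (W3 := 42949674) (N0 := 3) (En := eng) (mo := mog) (C1 := cd2q2) (C2 := cd2q2) (C3 := pd0)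
    rfl k0_pp_202

noncomputable def f_pp_203 : ℕ → ℕ → ℕ → ℕ → Bool := onCell 0 536870912 0 1230186008 923417968 42949674
    (rowB 3 eng mog cd2q2 cd2q3 pd0 2 false true true .up 2 0 3 (qsf 1073741824 536870912 0 1230186008 0) ndB2q2 ndB2q3 pcB0 Cut.none Ext.none)

def k0_pp_203 : ∃ t, chk3 f_pp_203 t 1 1 1 = true :=
  ⟨(b (l 3) (l 3)), by decide +kernel⟩

theorem c_pp_203 : CertB 1073741824 536870912 0 1230186008 923417968 42949674 3 eng mog cd2q2 cd2q3 pd0 false true true .up 2 0 3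
    ndB2q2 ndB2q3 pcB0 Cut.none Ext.none :=
  certB2 (fam := false) (s1 := true) (s2 := true) (a := 2) (b := 0) (c := 3) (cn := .up) (n1 := ndB2q2) (n2 := ndB2q3) (pc := pcB0) (cut := Cut.none) (xt := Ext.none) (P1 := 1073741824) (W1 := 536870912) (P2 := 0) (W2 := 1230186008) (P3 := 923417968) (W3 := 42949674) (N0 := 3) (En := eng) (mo := mog) (C1 := cd2q2) (C2 := cd2q3) (C3 := pd0)
    rfl (fun _ => rfl) k0_pp_203

noncomputable def f_pp_213 : ℕ → ℕ → ℕ → ℕ → Bool := onCell 536870912 536870912 0 1230186008 923417968 42949674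
    (rowB 3 eng mog cd2q2 cd2q3 pd1 2 false true true .pnn 2 1 3 (qsf 1073741824 536870912 0 1230186008 1) ndB2q2 ndB2q3 pcB1 Cut.none Ext.none)

def k0_pp_213 : ∃ t, chk3 f_pp_213 t 1 1 1 = true :=
  ⟨(b (a (l 3) (a (b (l 3) (l 3)) (a (b (b (a (l 425906005319) (a (l 16586344) (l 16575320))) (a (l 3) (b (l 388861506423) (l 3)))) (l 3)) (a (b (b (l 16511840) (b (a (l 16528536) (l 16516080)) (a (l 16480416) (l 16476328)))) (b (b (a (l 3) (a (l 619179056535) (l 615420972727))) (l 3)) (l 3))) (b (b (l 16505696) (b (l 16487424) (c (l 16443736) (l 16446600)))) (b (b (b (a (l 16511648) (l 1)) (l 1)) (l 1)) (l 1))))))) (b (l 3) (l 3))), by decide +kernel⟩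

theorem c_pp_213 : CertB 1073741824 536870912 0 1230186008 923417968 42949674 3 eng mog cd2q2 cd2q3 pd1 false true true .pnn 2 1 3
    ndB2q2 ndB2q3 pcB1 Cut.none Ext.none :=
  certB2 (fam := false) (s1 := true) (s2 := true) (a := 2) (b := 1) (c := 3) (cn := .pnn) (n1 := ndB2q2) (n2 := ndB2q3) (pc := pcB1) (cut := Cut.none) (xt := Ext.none) (P1 := 1073741824) (W1 := 536870912) (P2 := 0) (W2 := 1230186008) (P3 := 923417968) (W3 := 42949674) (N0 := 3) (En := eng) (mo := mog) (C1 := cd2q2) (C2 := cd2q3) (C3 := pd1)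
    rfl (fun _ => rfl) k0_pp_213

noncomputable def f_pp_303 : ℕ → ℕ → ℕ → ℕ → Bool := onCell 0 1230186008 0 1230186008 923417968 42949674
    (rowB 3 eng mog cd2q3 cd2q3 pd0 0 false true true .npn 3 0 3 (qsf 0 1230186008 0 1230186008 0) ndB2q3 ndB2q3 pcB0 Cut.none Ext.none)

def k0_pp_303 : ∃ t, chk3 f_pp_303 t 1 1 1 = true :=
  ⟨(a (b (l 3) (l 3)) (b (l 3) (l 3))), by decide +kernel⟩

theorem c_pp_303 : CertB 0 1230186008 0 1230186008 923417968 42949674 3 eng mog cd2q3 cd2q3 pd0 false true true .npn 3 0 3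
    ndB2q3 ndB2q3 pcB0 Cut.none Ext.none :=
  certB0 (fam := false) (s1 := true) (s2 := true) (a := 3) (b := 0) (c := 3) (cn := .npn) (n1 := ndB2q3) (n2 := ndB2q3) (pc := pcB0) (cut := Cut.none) (xt := Ext.none) (P1 := 0) (W1 := 1230186008) (P2 := 0) (W2 := 1230186008) (P3 := 923417968) (W3 := 42949674) (N0 := 3) (En := eng) (mo := mog) (C1 := cd2q3) (C2 := cd2q3) (C3 := pd0)
    rfl k0_pp_303

noncomputable def f_pp_313 : ℕ → ℕ → ℕ → ℕ → Bool := onCell 0 1230186008 0 1230186008 923417968 42949674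
    (rowB 3 eng mog cd2q3 cd2q3 pd1 0 false true true .dn 3 1 3 (qsf 0 1230186008 0 1230186008 1) ndB2q3 ndB2q3 pcB1 Cut.none Ext.none)

def k0_pp_313 : ∃ t, chk3 f_pp_313 t 1 1 1 = true :=
  ⟨(a (l 1) (b (l 3) (l 1))), by decide +kernel⟩

theorem c_pp_313 : CertB 0 1230186008 0 1230186008 923417968 42949674 3 eng mog cd2q3 cd2q3 pd1 false true true .dn 3 1 3
    ndB2q3 ndB2q3 pcB1 Cut.none Ext.none :=
  certB0 (fam := false) (s1 := true) (s2 := true) (a := 3) (b := 1) (c := 3) (cn := .dn) (n1 := ndB2q3) (n2 := ndB2q3) (pc := pcB1) (cut := Cut.none) (xt := Ext.none) (P1 := 0) (W1 := 1230186008) (P2 := 0) (W2 := 1230186008) (P3 := 923417968) (W3 := 42949674) (N0 := 3) (En := eng) (mo := mog) (C1 := cd2q3) (C2 := cd2q3) (C3 := pd1)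
    rfl k0_pp_313

noncomputable def f_pm_001 : ℕ → ℕ → ℕ → ℕ → Bool := onCell 0 536870912 536870912 536870912 923417968 42949674
    (rowB 3 eng mog cd2q0 cd2q1 pd0 0 false true false .up 0 0 1 (qsf 0 536870912 536870912 536870912 0) ndB2q0 ndB2q1 pcB0 Cut.none Ext.none)

def k0_pm_001 : ∃ t, chk3 f_pm_001 t 1 1 1 = true :=
  ⟨(l 4), by decide +kernel⟩

theorem c_pm_001 : CertB 0 536870912 536870912 536870912 923417968 42949674 3 eng mog cd2q0 cd2q1 pd0 false true false .up 0 0 1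
    ndB2q0 ndB2q1 pcB0 Cut.none Ext.none :=
  certB0 (fam := false) (s1 := true) (s2 := false) (a := 0) (b := 0) (c := 1) (cn := .up) (n1 := ndB2q0) (n2 := ndB2q1) (pc := pcB0) (cut := Cut.none) (xt := Ext.none) (P1 := 0) (W1 := 536870912) (P2 := 536870912) (W2 := 536870912) (P3 := 923417968) (W3 := 42949674) (N0 := 3) (En := eng) (mo := mog) (C1 := cd2q0) (C2 := cd2q1) (C3 := pd0)
    rfl k0_pm_001

noncomputable def f_pm_011 : ℕ → ℕ → ℕ → ℕ → Bool := onCell 0 536870912 536870912 536870912 923417968 42949674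
    (rowB 3 eng mog cd2q0 cd2q1 pd1 0 false true false .pnn 0 1 1 (qsf 0 536870912 536870912 536870912 1) ndB2q0 ndB2q1 pcB1 Cut.none Ext.none)

def k0_pm_011 : ∃ t, chk3 f_pm_011 t 1 1 1 = true :=
  ⟨(l 4), by decide +kernel⟩

theorem c_pm_011 : CertB 0 536870912 536870912 536870912 923417968 42949674 3 eng mog cd2q0 cd2q1 pd1 false true false .pnn 0 1 1
    ndB2q0 ndB2q1 pcB1 Cut.none Ext.none :=
  certB0 (fam := false) (s1 := true) (s2 := false) (a := 0) (b := 1) (c := 1) (cn := .pnn) (n1 := ndB2q0) (n2 := ndB2q1) (pc := pcB1) (cut := Cut.none) (xt := Ext.none) (P1 := 0) (W1 := 536870912) (P2 := 536870912) (W2 := 536870912) (P3 := 923417968) (W3 := 42949674) (N0 := 3) (En := eng) (mo := mog) (C1 := cd2q0) (C2 := cd2q1) (C3 := pd1)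
    rfl k0_pm_011

noncomputable def f_pm_012 : ℕ → ℕ → ℕ → ℕ → Bool := onCell 0 536870912 1073741824 536870912 923417968 42949674
    (rowB 3 eng mog cd2q0 cd2q2 pd1 0 false true false .pnp 0 1 2 (qsf 0 536870912 1073741824 536870912 1) ndB2q0 ndB2q2 pcB1 Cut.none Ext.none)

def k0_pm_012 : ∃ t, chk3 f_pm_012 t 1 1 1 = true :=
  ⟨(l 4), by decide +kernel⟩

theorem c_pm_012 : CertB 0 536870912 1073741824 536870912 923417968 42949674 3 eng mog cd2q0 cd2q2 pd1 false true false .pnp 0 1 2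
    ndB2q0 ndB2q2 pcB1 Cut.none Ext.none :=
  certB0 (fam := false) (s1 := true) (s2 := false) (a := 0) (b := 1) (c := 2) (cn := .pnp) (n1 := ndB2q0) (n2 := ndB2q2) (pc := pcB1) (cut := Cut.none) (xt := Ext.none) (P1 := 0) (W1 := 536870912) (P2 := 1073741824) (W2 := 536870912) (P3 := 923417968) (W3 := 42949674) (N0 := 3) (En := eng) (mo := mog) (C1 := cd2q0) (C2 := cd2q2) (C3 := pd1)
    rfl k0_pm_012

noncomputable def f_pm_022 : ℕ → ℕ → ℕ → ℕ → Bool := onCell 0 536870912 1073741824 536870912 923417968 42949674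
    (rowB 3 eng mog cd2q0 cd2q2 pd2 0 false true false .pp 0 2 2 (qsf 0 536870912 1073741824 536870912 2) ndB2q0 ndB2q2 pcB2 Cut.none Ext.none)

def k0_pm_022 : ∃ t, chk3 f_pm_022 t 1 1 1 = true :=
  ⟨(l 4), by decide +kernel⟩

theorem c_pm_022 : CertB 0 536870912 1073741824 536870912 923417968 42949674 3 eng mog cd2q0 cd2q2 pd2 false true false .pp 0 2 2
    ndB2q0 ndB2q2 pcB2 Cut.none Ext.none :=
  certB0 (fam := false) (s1 := true) (s2 := false) (a := 0) (b := 2) (c := 2) (cn := .pp) (n1 := ndB2q0) (n2 := ndB2q2) (pc := pcB2) (cut := Cut.none) (xt := Ext.none) (P1 := 0) (W1 := 536870912) (P2 := 1073741824) (W2 := 536870912) (P3 := 923417968) (W3 := 42949674) (N0 := 3) (En := eng) (mo := mog) (C1 := cd2q0) (C2 := cd2q2) (C3 := pd2)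
    rfl k0_pm_022

noncomputable def f_pm_023 : ℕ → ℕ → ℕ → ℕ → Bool := onCell 0 536870912 0 1230186008 923417968 42949674
    (rowB 3 eng mog cd2q0 cd2q3 pd2 0 false true false .up 0 2 3 (qsf 0 536870912 0 1230186008 2) ndB2q0 ndB2q3 pcB2 Cut.none Ext.none)

def k0_pm_023 : ∃ t, chk3 f_pm_023 t 1 1 1 = true :=
  ⟨(b (l 4) (l 4)), by decide +kernel⟩

theorem c_pm_023 : CertB 0 536870912 0 1230186008 923417968 42949674 3 eng mog cd2q0 cd2q3 pd2 false true false .up 0 2 3
    ndB2q0 ndB2q3 pcB2 Cut.none Ext.none :=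
  certB0 (fam := false) (s1 := true) (s2 := false) (a := 0) (b := 2) (c := 3) (cn := .up) (n1 := ndB2q0) (n2 := ndB2q3) (pc := pcB2) (cut := Cut.none) (xt := Ext.none) (P1 := 0) (W1 := 536870912) (P2 := 0) (W2 := 1230186008) (P3 := 923417968) (W3 := 42949674) (N0 := 3) (En := eng) (mo := mog) (C1 := cd2q0) (C2 := cd2q3) (C3 := pd2)
    rfl k0_pm_023

noncomputable def f_pm_033 : ℕ → ℕ → ℕ → ℕ → Bool := onCell 0 536870912 0 1230186008 923417968 42949674
    (rowB 3 eng mog cd2q0 cd2q3 pd3 0 false true false .pnn 0 3 3 (qsf 0 536870912 0 1230186008 3) ndB2q0 ndB2q3 pcB3 Cut.none Ext.none)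

def k0_pm_033 : ∃ t, chk3 f_pm_033 t 1 1 1 = true :=
  ⟨(b (l 4) (l 4)), by decide +kernel⟩

theorem c_pm_033 : CertB 0 536870912 0 1230186008 923417968 42949674 3 eng mog cd2q0 cd2q3 pd3 false true false .pnn 0 3 3
    ndB2q0 ndB2q3 pcB3 Cut.none Ext.none :=
  certB0 (fam := false) (s1 := true) (s2 := false) (a := 0) (b := 3) (c := 3) (cn := .pnn) (n1 := ndB2q0) (n2 := ndB2q3) (pc := pcB3) (cut := Cut.none) (xt := Ext.none) (P1 := 0) (W1 := 536870912) (P2 := 0) (W2 := 1230186008) (P3 := 923417968) (W3 := 42949674) (N0 := 3) (En := eng) (mo := mog) (C1 := cd2q0) (C2 := cd2q3) (C3 := pd3)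
    rfl k0_pm_033

noncomputable def f_pm_101 : ℕ → ℕ → ℕ → ℕ → Bool := onCell 536870912 536870912 536870912 536870912 923417968 42949674
    (rowB 3 eng mog cd2q1 cd2q1 pd0 0 false true false .npn 1 0 1 (qsf 536870912 536870912 536870912 536870912 0) ndB2q1 ndB2q1 pcB0 Cut.none Ext.none)

def k0_pm_101 : ∃ t, chk3 f_pm_101 t 1 1 1 = true :=
  ⟨(l 4), by decide +kernel⟩

theorem c_pm_101 : CertB 536870912 536870912 536870912 536870912 923417968 42949674 3 eng mog cd2q1 cd2q1 pd0 false true false .npn 1 0 1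
    ndB2q1 ndB2q1 pcB0 Cut.none Ext.none :=
  certB0 (fam := false) (s1 := true) (s2 := false) (a := 1) (b := 0) (c := 1) (cn := .npn) (n1 := ndB2q1) (n2 := ndB2q1) (pc := pcB0) (cut := Cut.none) (xt := Ext.none) (P1 := 536870912) (W1 := 536870912) (P2 := 536870912) (W2 := 536870912) (P3 := 923417968) (W3 := 42949674) (N0 := 3) (En := eng) (mo := mog) (C1 := cd2q1) (C2 := cd2q1) (C3 := pd0)
    rfl k0_pm_101

noncomputable def f_pm_102 : ℕ → ℕ → ℕ → ℕ → Bool := onCell 536870912 536870912 1073741824 536870912 923417968 42949674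
    (rowB 3 eng mog cd2q1 cd2q2 pd0 0 false true false .npp 1 0 2 (qsf 536870912 536870912 1073741824 536870912 0) ndB2q1 ndB2q2 pcB0 Cut.none Ext.none)

def k0_pm_102 : ∃ t, chk3 f_pm_102 t 1 1 1 = true :=
  ⟨(l 4), by decide +kernel⟩

theorem c_pm_102 : CertB 536870912 536870912 1073741824 536870912 923417968 42949674 3 eng mog cd2q1 cd2q2 pd0 false true false .npp 1 0 2
    ndB2q1 ndB2q2 pcB0 Cut.none Ext.none :=
  certB0 (fam := false) (s1 := true) (s2 := false) (a := 1) (b := 0) (c := 2) (cn := .npp) (n1 := ndB2q1) (n2 := ndB2q2) (pc := pcB0) (cut := Cut.none) (xt := Ext.none) (P1 := 536870912) (W1 := 536870912) (P2 := 1073741824) (W2 := 536870912) (P3 := 923417968) (W3 := 42949674) (N0 := 3) (En := eng) (mo := mog) (C1 := cd2q1) (C2 := cd2q2) (C3 := pd0)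
    rfl k0_pm_102

noncomputable def f_pm_112 : ℕ → ℕ → ℕ → ℕ → Bool := onCell 536870912 536870912 1073741824 536870912 923417968 42949674
    (rowB 3 eng mog cd2q1 cd2q2 pd1 0 false true false .dn 1 1 2 (qsf 536870912 536870912 1073741824 536870912 1) ndB2q1 ndB2q2 pcB1 Cut.none Ext.none)

def k0_pm_112 : ∃ t, chk3 f_pm_112 t 1 1 1 = true :=
  ⟨(l 4), by decide +kernel⟩

theorem c_pm_112 : CertB 536870912 536870912 1073741824 536870912 923417968 42949674 3 eng mog cd2q1 cd2q2 pd1 false true false .dn 1 1 2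
    ndB2q1 ndB2q2 pcB1 Cut.none Ext.none :=
  certB0 (fam := false) (s1 := true) (s2 := false) (a := 1) (b := 1) (c := 2) (cn := .dn) (n1 := ndB2q1) (n2 := ndB2q2) (pc := pcB1) (cut := Cut.none) (xt := Ext.none) (P1 := 536870912) (W1 := 536870912) (P2 := 1073741824) (W2 := 536870912) (P3 := 923417968) (W3 := 42949674) (N0 := 3) (En := eng) (mo := mog) (C1 := cd2q1) (C2 := cd2q2) (C3 := pd1)
    rfl k0_pm_112

noncomputable def f_pm_113 : ℕ → ℕ → ℕ → ℕ → Bool := onCell 536870912 536870912 0 1230186008 923417968 42949674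
    (rowB 3 eng mog cd2q1 cd2q3 pd1 0 false true false .nn 1 1 3 (qsf 536870912 536870912 0 1230186008 1) ndB2q1 ndB2q3 pcB1 Cut.none Ext.none)

def k0_pm_113 : ∃ t, chk3 f_pm_113 t 1 1 1 = true :=
  ⟨(b (b (a (l 2) (a (l 2) (a (l 2) (l 16683816)))) (l 4)) (l 4)), by decide +kernel⟩

theorem c_pm_113 : CertB 536870912 536870912 0 1230186008 923417968 42949674 3 eng mog cd2q1 cd2q3 pd1 false true false .nn 1 1 3
    ndB2q1 ndB2q3 pcB1 Cut.none Ext.none :=
  certB0 (fam := false) (s1 := true) (s2 := false) (a := 1) (b := 1) (c := 3) (cn := .nn) (n1 := ndB2q1) (n2 := ndB2q3) (pc := pcB1) (cut := Cut.none) (xt := Ext.none) (P1 := 536870912) (W1 := 536870912) (P2 := 0) (W2 := 1230186008) (P3 := 923417968) (W3 := 42949674) (N0 := 3) (En := eng) (mo := mog) (C1 := cd2q1) (C2 := cd2q3) (C3 := pd1)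
    rfl k0_pm_113

noncomputable def f_pm_123 : ℕ → ℕ → ℕ → ℕ → Bool := onCell 536870912 536870912 0 1230186008 923417968 42949674
    (rowB 3 eng mog cd2q1 cd2q3 pd2 0 false true false .npn 1 2 3 (qsf 536870912 536870912 0 1230186008 2) ndB2q1 ndB2q3 pcB2 Cut.none Ext.none)

def k0_pm_123 : ∃ t, chk3 f_pm_123 t 1 1 1 = true :=
  ⟨(b (b (a (l 4) (a (l 4) (a (l 4) (l 16802344)))) (l 4)) (l 4)), by decide +kernel⟩

theorem c_pm_123 : CertB 536870912 536870912 0 1230186008 923417968 42949674 3 eng mog cd2q1 cd2q3 pd2 false true false .npn 1 2 3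
    ndB2q1 ndB2q3 pcB2 Cut.none Ext.none :=
  certB0 (fam := false) (s1 := true) (s2 := false) (a := 1) (b := 2) (c := 3) (cn := .npn) (n1 := ndB2q1) (n2 := ndB2q3) (pc := pcB2) (cut := Cut.none) (xt := Ext.none) (P1 := 536870912) (W1 := 536870912) (P2 := 0) (W2 := 1230186008) (P3 := 923417968) (W3 := 42949674) (N0 := 3) (En := eng) (mo := mog) (C1 := cd2q1) (C2 := cd2q3) (C3 := pd2)
    rfl k0_pm_123

noncomputable def f_pm_133 : ℕ → ℕ → ℕ → ℕ → Bool := onCell 1610612736 536870912 0 1230186008 923417968 42949674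
    (rowB 3 eng mog cd2q1 cd2q3 pd3 2 false true false .dn 1 3 3 (qsf 536870912 536870912 0 1230186008 3) ndB2q1 ndB2q3 pcB3 Cut.none Ext.none)

def k0_pm_133 : ∃ t, chk3 f_pm_133 t 1 1 1 = true :=
  ⟨(b (l 4) (l 1)), by decide +kernel⟩

theorem c_pm_133 : CertB 536870912 536870912 0 1230186008 923417968 42949674 3 eng mog cd2q1 cd2q3 pd3 false true false .dn 1 3 3
    ndB2q1 ndB2q3 pcB3 Cut.none Ext.none :=
  certB2 (fam := false) (s1 := true) (s2 := false) (a := 1) (b := 3) (c := 3) (cn := .dn) (n1 := ndB2q1) (n2 := ndB2q3) (pc := pcB3) (cut := Cut.none) (xt := Ext.none) (P1 := 536870912) (W1 := 536870912) (P2 := 0) (W2 := 1230186008) (P3 := 923417968) (W3 := 42949674) (N0 := 3) (En := eng) (mo := mog) (C1 := cd2q1) (C2 := cd2q3) (C3 := pd3)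
    rfl (fun _ => rfl) k0_pm_133

noncomputable def f_pm_202 : ℕ → ℕ → ℕ → ℕ → Bool := onCell 1073741824 536870912 0 536870912 923417968 42949674
    (rowB 3 eng mog cd2q2 cd2q2 pd0 1 false true false .pp 2 0 2 (qsf 1073741824 536870912 1073741824 536870912 0) ndB2q2 ndB2q2 pcB0 Cut.none Ext.none)

def k0_pm_202 : ∃ t, chk3 f_pm_202 t 4 2 1 = true :=
  ⟨(b (a (b (b (a (b (a (c (a (l 15795064) (l 15839008)) (a (l 15764568) (l 15820272))) (b (l 15899328) (l 15906704))) (a (a (l 15792304) (l 15841840)) (l 15915208))) (b (l 15898608) (l 16056888))) (a (a (b (l 15971152) (l 15825832)) (b (l 15921912) (l 15923128))) (c (l 16026240) (l 16082536)))) (b (b (a (a (l 15821632) (l 15918800)) (l 16059264)) (a (b (l 15765472) (l 15884456)) (b (l 16058456) (l 16071688)))) (b (a (b (l 15899048) (l 15914416)) (b (l 16085328) (l 16099664))) (a (c (l 15909192) (l 15953960)) (l 15935776))))) (a (b (b (c (l 16192992) (l 16265592)) (l 16049920)) (b (b (l 16233344) (b (l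 16232136) (l 16244296))) (b (c (l 16219632) (l 16315792)) (c (l 16241792) (l 16348424))))) (b (b (l 16136168) (l 16291368)) (b (b (l 16390048) (b (l 16388320) (l 16399128))) (b (l 16357080) (l 16438736)))))) (b (b (a (b (a (c (l 15959832) (l 15997040)) (l 15923432)) (a (l 15795424) (l 16179176))) (b (a (l 16315048) (l 16457776)) (l 16175880))) (a (a (b (l 16018352) (l 16002792)) (b (l 16188312) (l 16174464))) (a (l 16232104) (l 16470552)))) (a (a (b (l 15983144) (l 15963552)) (c (l 16096616) (l 16202456))) (c (l 16177888) (l 16349816))))), by decide +kernel⟩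

def k1_pm_202 : ∃ t, chk3 f_pm_202 t 5 2 1 = true :=
  ⟨(b (a (b (b (c (l 16505304) (l 16294600)) (c (l 16481000) (l 16342008))) (b (b (l 16354776) (a (l 16374488) (b (l 16321248) (l 16306376)))) (b (a (l 16455424) (l 16276000)) (l 16241384)))) (b (b (c (l 16107560) (l 15888424)) (a (l 16118320) (b (l 15929744) (l 15943776)))) (b (b (a (l 16136856) (l 15976040)) (a (l 15949416) (l 15846912))) (b (a (l 16105296) (l 15949592)) (l 15859040))))) (b (b (a (c (l 16348944) (l 16171080)) (c (l 16076504) (l 15879712))) (a (c (l 16326800) (l 16167496)) (c (l 16080136) (l 15884712)))) (a (c (l 16331136) (l 16176696)) (a (l 16077608) (b (l 15957664) (l 15975632)))))), by decide +kernel⟩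

def k2_pm_202 : ∃ t, chk3 f_pm_202 t 2 3 1 = true :=
  ⟨(b (a (a (b (a (c (l 15906000) (l 15987096)) (c (l 16066208) (l 16181104))) (a (c (l 15888040) (l 15976192)) (c (l 16048096) (l 16166912)))) (b (c (l 16275528) (l 16409344)) (c (l 16253504) (l 16335104)))) (b (a (c (l 16311752) (l 16163864)) (c (l 127337311335) (b (l 15951704) (l 15995384)))) (a (a (l 16213376) (l 16153784)) (c (l 16215656) (l 16078464))))) (a (a (a (b (c (l 15877248) (l 15966696)) (c (l 15867568) (l 15952128))) (b (l 15858280) (c (l 16017960) (l 16125984)))) (b (a (l 16027696) (l 16077784)) (a (l 79019015335) (l 2)))) (b (a (c (l 16300504) (l 16197032)) (l 2)) (l 2)))), by decide +kernel⟩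

def k3_pm_202 : ∃ t, chk3 f_pm_202 t 3 1 1 = true :=
  ⟨(b (a (b (a (b (b (c (l 15762856) (l 15528256)) (a (b (l 15757728) (l 15789592)) (b (l 15607688) (l 15642664)))) (b (b (l 15678888) (a (l 15821072) (l 15682504))) (b (a (l 15806928) (l 15677272)) (l 15695760)))) (b (b (b (a (l 15405760) (l 15265480)) (a (l 15432408) (l 15316400))) (a (l 15492352) (l 15378664))) (b (b (a (l 15542568) (l 15425632)) (a (l 15556856) (l 15443808))) (b (a (l 15560464) (l 15456168)) (a (l 15570944) (l 15478272)))))) (b (b (a (c (l 15848904) (l 15624544)) (a (l 15597088) (b (l 15515992) (l 15567800)))) (a (a (l 15820624) (l 15725032)) (a (l 15671688) (l 15658336)))) (a (b (a (l 15853936) (l 15789704)) (c (l 15982456) (l 15789752))) (b (l 284103380871) (l 2))))) (b (a (b (b (a (b (l 15165584) (l 15214560)) (c (l 15240552) (l 14961848))) (a (c (l 15404528) (l 15137496)) (b (l 15170056) (a (l 15224152) (l 15185808))))) (b (b (a (l 15321296) (a (l 15253736) (l 15242664)))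 (a (a (l 15367248) (l 15323992)) (a (l 15309600) (l 15316480)))) (a (b (l 15385168) (l 15442440)) (l 358191148231)))) (a (b (b (b (a (l 15029552) (l 15000288)) (a (l 15075848) (l 15189816))) (c (b (l 15243800) (l 15306600)) (b (l 15011088) (l 15039856)))) (b (c (l 15453888) (l 336715917479)) (l 2))) (b (c (b (a (b (l 15108552) (l 15170280)) (b (a (l 15101568) (l 15104272)) (l 15176664))) (l 351211384743)) (b (b (a (l 14823176) (a (l 14817072) (l 14821816))) (a (l 14891720) (l 14902912))) (b (l 341010563527) (l 2)))) (l 2)))) (a (a (b (b (l 15545592) (l 2)) (l 2)) (l 2)) (l 2)))) (b (a (b (a (b (l 15959864) (l 2)) (l 2)) (l 2)) (l 2)) (l 2))), by decide +kernel⟩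

theorem s4_pm_202 : ∃ t, chk3 f_pm_202 t 2 2 1 = true := ex3_a k0_pm_202 k1_pm_202

theorem s5_pm_202 : ∃ t, chk3 f_pm_202 t 2 1 1 = true := ex3_b s4_pm_202 k2_pm_202

theorem s6_pm_202 : ∃ t, chk3 f_pm_202 t 1 1 1 = true := ex3_a s5_pm_202 k3_pm_202

theorem c_pm_202 : CertB 1073741824 536870912 1073741824 536870912 923417968 42949674 3 eng mog cd2q2 cd2q2 pd0 false true false .pp 2 0 2
    ndB2q2 ndB2q2 pcB0 Cut.none Ext.none :=
  certB1 (fam := false) (s1 := true) (s2 := false) (a := 2) (b := 0) (c := 2) (cn := .pp) (n1 := ndB2q2) (n2 := ndB2q2) (pc := pcB0) (cut := Cut.none) (xt := Ext.none) (P1 := 1073741824) (W1 := 536870912) (P2 := 1073741824) (W2 := 536870912) (P3 := 923417968) (W3 := 42949674) (N0 := 3) (En := eng) (mo := mog) (C1 := cd2q2) (C2 := cd2q2) (C3 := pd0)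
    rfl (fun _ => rfl) s6_pm_202

noncomputable def f_pm_203 : ℕ → ℕ → ℕ → ℕ → Bool := onCell 0 536870912 0 1230186008 923417968 42949674
    (rowB 3 eng mog cd2q2 cd2q3 pd0 2 false true false .up 2 0 3 (qsf 1073741824 536870912 0 1230186008 0) ndB2q2 ndB2q3 pcB0 Cut.none Ext.none)

def k0_pm_203 : ∃ t, chk3 f_pm_203 t 1 1 1 = true :=
  ⟨(b (b (l 3) (l 3)) (b (a (l 3) (a (l 3) (b (l 3) (b (l 3) (a (l 3) (l 16546096)))))) (a (a (b (l 2) (b (l 3) (a (b (l 3) (a (b (l 3) (c (l 463484456743) (l 464557951383))) (c (a (l 170353221895) (l 15407248)) (l 172500657447)))) (a (a (c (l 164985009207) (l 168742981063)) (b (l 172501300567) (l 15502288))) (b (a (l 15606432) (l 15671312)) (l 15605120)))))) (b (a (l 3) (b (l 3) (l 3))) (a (b (b (l 3) (a (l 396376909943) (l 15895632))) (b (a (l 15761416) (l 15872712)) (a (l 15734968) (l 15857448)))) (b (b (l 212766705719) (l 15891784)) (b (l 16029240) (l 16028808)))))) (a (b (a (b (l 3) (a (l 305109789079) (l 16236328)))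 (b (l 242295499143) (l 124183669943))) (a (b (a (l 16148760) (l 16244696)) (b (l 16212760) (l 16229264))) (b (l 16342616) (l 16156656)))) (b (a (b (l 16378312) (l 16437248)) (b (l 16487496) (l 16374096))) (b (a (l 16397216) (l 16148080)) (a (b (l 16291808) (l 16197616)) (b (l 15885144) (a (l 15993160) (l 15835472)))))))))), by decide +kernel⟩

theorem c_pm_203 : CertB 1073741824 536870912 0 1230186008 923417968 42949674 3 eng mog cd2q2 cd2q3 pd0 false true false .up 2 0 3
    ndB2q2 ndB2q3 pcB0 Cut.none Ext.none :=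
  certB2 (fam := false) (s1 := true) (s2 := false) (a := 2) (b := 0) (c := 3) (cn := .up) (n1 := ndB2q2) (n2 := ndB2q3) (pc := pcB0) (cut := Cut.none) (xt := Ext.none) (P1 := 1073741824) (W1 := 536870912) (P2 := 0) (W2 := 1230186008) (P3 := 923417968) (W3 := 42949674) (N0 := 3) (En := eng) (mo := mog) (C1 := cd2q2) (C2 := cd2q3) (C3 := pd0)
    rfl (fun _ => rfl) k0_pm_203

noncomputable def f_pm_213 : ℕ → ℕ → ℕ → ℕ → Bool := onCell 1073741824 536870912 0 1230186008 923417968 42949674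
    (rowB 3 eng mog cd2q2 cd2q3 pd1 0 false true false .pnn 2 1 3 (qsf 1073741824 536870912 0 1230186008 1) ndB2q2 ndB2q3 pcB1 Cut.none Ext.none)

def k0_pm_213 : ∃ t, chk3 f_pm_213 t 1 2 1 = true :=
  ⟨(b (a (a (a (b (a (l 16498472) (l 16510304)) (a (b (l 16496880) (l 16504344)) (b (l 16545768) (l 16550200)))) (a (b (a (l 16578808) (l 16593456)) (b (l 16581960) (l 16585864))) (b (l 140290688951) (b (l 16609928) (l 16615080))))) (a (b (l 3) (a (l 16613856) (l 3))) (l 3))) (l 3)) (a (b (a (a (a (b (l 16523208) (l 16558552)) (b (l 16568120) (l 16604592))) (a (b (l 16606640) (l 16644768)) (b (l 16634456) (l 16654200)))) (a (a (b (l 16653704) (l 16623168)) (l 16464664)) (l 3))) (a (a (b (b (a (l 16572952) (l 16621704)) (a (l 16548192) (l 16596368))) (a (b (l 16550888) (l 16559448)) (l 16476304))) (b (b (l 16599448) (a (l 16558336) (l 16530104))) (b (l 16476512) (l 16459664)))) (b (a (b (l 16571680) (a (l 16539584) (l 16560952))) (l 3)) (a (b (a (l 16505096)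 (l 16535240)) (l 16490600)) (b (l 3) (l 16569144)))))) (l 3))), by decide +kernel⟩

def k1_pm_213 : ∃ t, chk3 f_pm_213 t 1 3 1 = true :=
  ⟨(b (a (b (a (a (b (a (b (l 16425056) (l 16268088)) (l 16289256)) (a (b (l 16134168) (l 16022480)) (l 16331320))) (a (b (l 16311784) (l 16365024)) (b (l 16362624) (l 16407792)))) (b (a (a (l 16420840) (l 16349824)) (a (l 16479392) (l 3))) (a (a (l 16364720) (l 16438232)) (a (l 16476824) (l 16544832))))) (a (a (a (b (l 15885016) (l 15866616)) (b (l 15988184) (l 15880096))) (b (a (l 16099656) (l 16209088)) (a (l 16016280) (l 16144408)))) (a (b (a (l 16311192) (l 16402056)) (a (l 16262048) (l 16367216))) (b (a (l 16477776) (l 16531344)) (a (l 16457064) (l 16525832)))))) (a (b (b (l 3) (l 3)) (a (b (a (l 16562568) (l 3)) (a (l 16559160) (l 16540752))) (l 3))) (l 3))) (a (b (a (a (b (a (b (l 15654376) (l 15603984)) (l 15958064)) (a (b (l 15557680) (l 15514264)) (b (l 15730648) (l 15692432)))) (b (a (l 15985072) (l 16084976))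 (a (b (l 15892264) (l 15858896)) (l 15943736)))) (a (b (a (l 16215200) (l 16332672)) (a (l 16042128) (l 16191352))) (b (a (l 16435488) (l 16518880)) (l 1)))) (a (b (a (a (b (l 15472720) (l 15432104)) (b (l 15655024) (l 15617264))) (a (b (l 15825248) (l 15790208)) (b (l 15983456) (l 15951416)))) (a (b (a (c (l 15432856) (l 15368328)) (b (l 15588008) (l 15571160))) (c (l 15501912) (l 15451800))) (b (a (l 15918720) (l 1)) (l 1)))) (b (a (a (b (l 16130120) (l 1)) (l 1)) (l 1)) (l 1)))) (l 1))), by decide +kernel⟩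

theorem s2_pm_213 : ∃ t, chk3 f_pm_213 t 1 1 1 = true := ex3_b k0_pm_213 k1_pm_213

theorem c_pm_213 : CertB 1073741824 536870912 0 1230186008 923417968 42949674 3 eng mog cd2q2 cd2q3 pd1 false true false .pnn 2 1 3
    ndB2q2 ndB2q3 pcB1 Cut.none Ext.none :=
  certB0 (fam := false) (s1 := true) (s2 := false) (a := 2) (b := 1) (c := 3) (cn := .pnn) (n1 := ndB2q2) (n2 := ndB2q3) (pc := pcB1) (cut := Cut.none) (xt := Ext.none) (P1 := 1073741824) (W1 := 536870912) (P2 := 0) (W2 := 1230186008) (P3 := 923417968) (W3 := 42949674) (N0 := 3) (En := eng) (mo := mog) (C1 := cd2q2) (C2 := cd2q3) (C3 := pd1)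
    rfl s2_pm_213

noncomputable def f_pm_303 : ℕ → ℕ → ℕ → ℕ → Bool := onCell 0 1230186008 0 1230186008 923417968 42949674
    (rowB 3 eng mog cd2q3 cd2q3 pd0 0 false true false .npn 3 0 3 (qsf 0 1230186008 0 1230186008 0) ndB2q3 ndB2q3 pcB0 Cut.none Ext.none)

def k0_pm_303 : ∃ t, chk3 f_pm_303 t 1 1 1 = true :=
  ⟨(a (b (l 3) (l 3)) (b (l 3) (a (l 3) (b (l 3) (a (l 3) (b (l 3) (a (l 3) (b (l 3) (b (l 3) (l 3)))))))))), by decide +kernel⟩

theorem c_pm_303 : CertB 0 1230186008 0 1230186008 923417968 42949674 3 eng mog cd2q3 cd2q3 pd0 false true false .npn 3 0 3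
    ndB2q3 ndB2q3 pcB0 Cut.none Ext.none :=
  certB0 (fam := false) (s1 := true) (s2 := false) (a := 3) (b := 0) (c := 3) (cn := .npn) (n1 := ndB2q3) (n2 := ndB2q3) (pc := pcB0) (cut := Cut.none) (xt := Ext.none) (P1 := 0) (W1 := 1230186008) (P2 := 0) (W2 := 1230186008) (P3 := 923417968) (W3 := 42949674) (N0 := 3) (En := eng) (mo := mog) (C1 := cd2q3) (C2 := cd2q3) (C3 := pd0)
    rfl k0_pm_303

noncomputable def f_pm_313 : ℕ → ℕ → ℕ → ℕ → Bool := onCell 0 1230186008 0 1230186008 923417968 42949674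
    (rowB 3 eng mog cd2q3 cd2q3 pd1 0 false true false .dn 3 1 3 (qsf 0 1230186008 0 1230186008 1) ndB2q3 ndB2q3 pcB1 Cut.none Ext.none)

def k0_pm_313 : ∃ t, chk3 f_pm_313 t 1 1 1 = true :=
  ⟨(a (l 1) (b (l 3) (l 1))), by decide +kernel⟩

theorem c_pm_313 : CertB 0 1230186008 0 1230186008 923417968 42949674 3 eng mog cd2q3 cd2q3 pd1 false true false .dn 3 1 3
    ndB2q3 ndB2q3 pcB1 Cut.none Ext.none :=
  certB0 (fam := false) (s1 := true) (s2 := false) (a := 3) (b := 1) (c := 3) (cn := .dn) (n1 := ndB2q3) (n2 := ndB2q3) (pc := pcB1) (cut := Cut.none) (xt := Ext.none) (P1 := 0) (W1 := 1230186008) (P2 := 0) (W2 := 1230186008) (P3 := 923417968) (W3 := 42949674) (N0 := 3) (En := eng) (mo := mog) (C1 := cd2q3) (C2 := cd2q3) (C3 := pd1)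
    rfl k0_pm_313

noncomputable def f_mm_001 : ℕ → ℕ → ℕ → ℕ → Bool := onCell 0 536870912 0 536870912 923417968 42949674
    (rowB 3 eng mog cd2q0 cd2q1 pd0 1 false false false .up 0 0 1 (qsf 0 536870912 536870912 536870912 0) ndB2q0 ndB2q1 pcB0 Cut.none Ext.none)

def k0_mm_001 : ∃ t, chk3 f_mm_001 t 1 1 1 = true :=
  ⟨(l 3), by decide +kernel⟩

theorem c_mm_001 : CertB 0 536870912 536870912 536870912 923417968 42949674 3 eng mog cd2q0 cd2q1 pd0 false false false .up 0 0 1
    ndB2q0 ndB2q1 pcB0 Cut.none Ext.none :=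
  certB1 (fam := false) (s1 := false) (s2 := false) (a := 0) (b := 0) (c := 1) (cn := .up) (n1 := ndB2q0) (n2 := ndB2q1) (pc := pcB0) (cut := Cut.none) (xt := Ext.none) (P1 := 0) (W1 := 536870912) (P2 := 536870912) (W2 := 536870912) (P3 := 923417968) (W3 := 42949674) (N0 := 3) (En := eng) (mo := mog) (C1 := cd2q0) (C2 := cd2q1) (C3 := pd0)
    rfl (fun _ => rfl) k0_mm_001

noncomputable def f_mm_011 : ℕ → ℕ → ℕ → ℕ → Bool := onCell 0 536870912 536870912 536870912 923417968 42949674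
    (rowB 3 eng mog cd2q0 cd2q1 pd1 1 false false false .pnn 0 1 1 (qsf 0 536870912 536870912 536870912 1) ndB2q0 ndB2q1 pcB1 Cut.none Ext.none)

def k0_mm_011 : ∃ t, chk3 f_mm_011 t 1 1 1 = true :=
  ⟨(l 5), by decide +kernel⟩

theorem c_mm_011 : CertB 0 536870912 536870912 536870912 923417968 42949674 3 eng mog cd2q0 cd2q1 pd1 false false false .pnn 0 1 1
    ndB2q0 ndB2q1 pcB1 Cut.none Ext.none :=
  certB1 (fam := false) (s1 := false) (s2 := false) (a := 0) (b := 1) (c := 1) (cn := .pnn) (n1 := ndB2q0) (n2 := ndB2q1) (pc := pcB1) (cut := Cut.none) (xt := Ext.none) (P1 := 0) (W1 := 536870912) (P2 := 536870912) (W2 := 536870912) (P3 := 923417968) (W3 := 42949674) (N0 := 3) (En := eng) (mo := mog) (C1 := cd2q0) (C2 := cd2q1) (C3 := pd1)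
    rfl (fun _ => rfl) k0_mm_011

noncomputable def f_mm_012 : ℕ → ℕ → ℕ → ℕ → Bool := onCell 0 536870912 1073741824 536870912 923417968 42949674
    (rowB 3 eng mog cd2q0 cd2q2 pd1 0 false false false .pnp 0 1 2 (qsf 0 536870912 1073741824 536870912 1) ndB2q0 ndB2q2 pcB1 Cut.none Ext.none)

def k0_mm_012 : ∃ t, chk3 f_mm_012 t 1 1 1 = true :=
  ⟨(l 5), by decide +kernel⟩

theorem c_mm_012 : CertB 0 536870912 1073741824 536870912 923417968 42949674 3 eng mog cd2q0 cd2q2 pd1 false false false .pnp 0 1 2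
    ndB2q0 ndB2q2 pcB1 Cut.none Ext.none :=
  certB0 (fam := false) (s1 := false) (s2 := false) (a := 0) (b := 1) (c := 2) (cn := .pnp) (n1 := ndB2q0) (n2 := ndB2q2) (pc := pcB1) (cut := Cut.none) (xt := Ext.none) (P1 := 0) (W1 := 536870912) (P2 := 1073741824) (W2 := 536870912) (P3 := 923417968) (W3 := 42949674) (N0 := 3) (En := eng) (mo := mog) (C1 := cd2q0) (C2 := cd2q2) (C3 := pd1)
    rfl k0_mm_012

noncomputable def f_mm_022 : ℕ → ℕ → ℕ → ℕ → Bool := onCell 0 536870912 1073741824 536870912 923417968 42949674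
    (rowB 3 eng mog cd2q0 cd2q2 pd2 0 false false false .pp 0 2 2 (qsf 0 536870912 1073741824 536870912 2) ndB2q0 ndB2q2 pcB2 Cut.none Ext.none)

def k0_mm_022 : ∃ t, chk3 f_mm_022 t 1 1 1 = true :=
  ⟨(l 5), by decide +kernel⟩

theorem c_mm_022 : CertB 0 536870912 1073741824 536870912 923417968 42949674 3 eng mog cd2q0 cd2q2 pd2 false false false .pp 0 2 2
    ndB2q0 ndB2q2 pcB2 Cut.none Ext.none :=
  certB0 (fam := false) (s1 := false) (s2 := false) (a := 0) (b := 2) (c := 2) (cn := .pp) (n1 := ndB2q0) (n2 := ndB2q2) (pc := pcB2) (cut := Cut.none) (xt := Ext.none) (P1 := 0) (W1 := 536870912) (P2 := 1073741824) (W2 := 536870912) (P3 := 923417968) (W3 := 42949674) (N0 := 3) (En := eng) (mo := mog) (C1 := cd2q0) (C2 := cd2q2) (C3 := pd2)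
    rfl k0_mm_022

noncomputable def f_mm_023 : ℕ → ℕ → ℕ → ℕ → Bool := onCell 0 536870912 0 1230186008 923417968 42949674
    (rowB 3 eng mog cd2q0 cd2q3 pd2 0 false false false .up 0 2 3 (qsf 0 536870912 0 1230186008 2) ndB2q0 ndB2q3 pcB2 Cut.none Ext.none)

def k0_mm_023 : ∃ t, chk3 f_mm_023 t 1 1 1 = true :=
  ⟨(l 5), by decide +kernel⟩

theorem c_mm_023 : CertB 0 536870912 0 1230186008 923417968 42949674 3 eng mog cd2q0 cd2q3 pd2 false false false .up 0 2 3
    ndB2q0 ndB2q3 pcB2 Cut.none Ext.none :=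
  certB0 (fam := false) (s1 := false) (s2 := false) (a := 0) (b := 2) (c := 3) (cn := .up) (n1 := ndB2q0) (n2 := ndB2q3) (pc := pcB2) (cut := Cut.none) (xt := Ext.none) (P1 := 0) (W1 := 536870912) (P2 := 0) (W2 := 1230186008) (P3 := 923417968) (W3 := 42949674) (N0 := 3) (En := eng) (mo := mog) (C1 := cd2q0) (C2 := cd2q3) (C3 := pd2)
    rfl k0_mm_023

noncomputable def f_mm_033 : ℕ → ℕ → ℕ → ℕ → Bool := onCell 0 536870912 0 1230186008 923417968 42949674
    (rowB 3 eng mog cd2q0 cd2q3 pd3 0 false false false .pnn 0 3 3 (qsf 0 536870912 0 1230186008 3) ndB2q0 ndB2q3 pcB3 Cut.none Ext.none)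

def k0_mm_033 : ∃ t, chk3 f_mm_033 t 1 1 1 = true :=
  ⟨(l 5), by decide +kernel⟩

theorem c_mm_033 : CertB 0 536870912 0 1230186008 923417968 42949674 3 eng mog cd2q0 cd2q3 pd3 false false false .pnn 0 3 3
    ndB2q0 ndB2q3 pcB3 Cut.none Ext.none :=
  certB0 (fam := false) (s1 := false) (s2 := false) (a := 0) (b := 3) (c := 3) (cn := .pnn) (n1 := ndB2q0) (n2 := ndB2q3) (pc := pcB3) (cut := Cut.none) (xt := Ext.none) (P1 := 0) (W1 := 536870912) (P2 := 0) (W2 := 1230186008) (P3 := 923417968) (W3 := 42949674) (N0 := 3) (En := eng) (mo := mog) (C1 := cd2q0) (C2 := cd2q3) (C3 := pd3)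
    rfl k0_mm_033

noncomputable def f_mm_101 : ℕ → ℕ → ℕ → ℕ → Bool := onCell 536870912 536870912 536870912 536870912 923417968 42949674
    (rowB 3 eng mog cd2q1 cd2q1 pd0 0 false false false .npn 1 0 1 (qsf 536870912 536870912 536870912 536870912 0) ndB2q1 ndB2q1 pcB0 Cut.none Ext.none)

def k0_mm_101 : ∃ t, chk3 f_mm_101 t 1 1 1 = true :=
  ⟨(l 3), by decide +kernel⟩

theorem c_mm_101 : CertB 536870912 536870912 536870912 536870912 923417968 42949674 3 eng mog cd2q1 cd2q1 pd0 false false false .npn 1 0 1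
    ndB2q1 ndB2q1 pcB0 Cut.none Ext.none :=
  certB0 (fam := false) (s1 := false) (s2 := false) (a := 1) (b := 0) (c := 1) (cn := .npn) (n1 := ndB2q1) (n2 := ndB2q1) (pc := pcB0) (cut := Cut.none) (xt := Ext.none) (P1 := 536870912) (W1 := 536870912) (P2 := 536870912) (W2 := 536870912) (P3 := 923417968) (W3 := 42949674) (N0 := 3) (En := eng) (mo := mog) (C1 := cd2q1) (C2 := cd2q1) (C3 := pd0)
    rfl k0_mm_101

noncomputable def f_mm_102 : ℕ → ℕ → ℕ → ℕ → Bool := onCell 536870912 536870912 1073741824 536870912 923417968 42949674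
    (rowB 3 eng mog cd2q1 cd2q2 pd0 0 false false false .npp 1 0 2 (qsf 536870912 536870912 1073741824 536870912 0) ndB2q1 ndB2q2 pcB0 Cut.none Ext.none)

def k0_mm_102 : ∃ t, chk3 f_mm_102 t 1 1 1 = true :=
  ⟨(l 5), by decide +kernel⟩

theorem c_mm_102 : CertB 536870912 536870912 1073741824 536870912 923417968 42949674 3 eng mog cd2q1 cd2q2 pd0 false false false .npp 1 0 2
    ndB2q1 ndB2q2 pcB0 Cut.none Ext.none :=
  certB0 (fam := false) (s1 := false) (s2 := false) (a := 1) (b := 0) (c := 2) (cn := .npp) (n1 := ndB2q1) (n2 := ndB2q2) (pc := pcB0) (cut := Cut.none) (xt := Ext.none) (P1 := 536870912) (W1 := 536870912) (P2 := 1073741824) (W2 := 536870912) (P3 := 923417968) (W3 := 42949674) (N0 := 3) (En := eng) (mo := mog) (C1 := cd2q1) (C2 := cd2q2) (C3 := pd0)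
    rfl k0_mm_102

noncomputable def f_mm_112 : ℕ → ℕ → ℕ → ℕ → Bool := onCell 536870912 536870912 1073741824 536870912 923417968 42949674
    (rowB 3 eng mog cd2q1 cd2q2 pd1 0 false false false .dn 1 1 2 (qsf 536870912 536870912 1073741824 536870912 1) ndB2q1 ndB2q2 pcB1 Cut.none Ext.none)

def k0_mm_112 : ∃ t, chk3 f_mm_112 t 1 1 1 = true :=
  ⟨(l 5), by decide +kernel⟩

theorem c_mm_112 : CertB 536870912 536870912 1073741824 536870912 923417968 42949674 3 eng mog cd2q1 cd2q2 pd1 false false false .dn 1 1 2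
    ndB2q1 ndB2q2 pcB1 Cut.none Ext.none :=
  certB0 (fam := false) (s1 := false) (s2 := false) (a := 1) (b := 1) (c := 2) (cn := .dn) (n1 := ndB2q1) (n2 := ndB2q2) (pc := pcB1) (cut := Cut.none) (xt := Ext.none) (P1 := 536870912) (W1 := 536870912) (P2 := 1073741824) (W2 := 536870912) (P3 := 923417968) (W3 := 42949674) (N0 := 3) (En := eng) (mo := mog) (C1 := cd2q1) (C2 := cd2q2) (C3 := pd1)
    rfl k0_mm_112

noncomputable def f_mm_113 : ℕ → ℕ → ℕ → ℕ → Bool := onCell 536870912 536870912 0 1230186008 923417968 42949674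
    (rowB 3 eng mog cd2q1 cd2q3 pd1 0 false false false .nn 1 1 3 (qsf 536870912 536870912 0 1230186008 1) ndB2q1 ndB2q3 pcB1 Cut.none Ext.none)

def k0_mm_113 : ∃ t, chk3 f_mm_113 t 1 1 1 = true :=
  ⟨(l 5), by decide +kernel⟩

theorem c_mm_113 : CertB 536870912 536870912 0 1230186008 923417968 42949674 3 eng mog cd2q1 cd2q3 pd1 false false false .nn 1 1 3
    ndB2q1 ndB2q3 pcB1 Cut.none Ext.none :=
  certB0 (fam := false) (s1 := false) (s2 := false) (a := 1) (b := 1) (c := 3) (cn := .nn) (n1 := ndB2q1) (n2 := ndB2q3) (pc := pcB1) (cut := Cut.none) (xt := Ext.none) (P1 := 536870912) (W1 := 536870912) (P2 := 0) (W2 := 1230186008) (P3 := 923417968) (W3 := 42949674) (N0 := 3) (En := eng) (mo := mog) (C1 := cd2q1) (C2 := cd2q3) (C3 := pd1)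
    rfl k0_mm_113

noncomputable def f_mm_123 : ℕ → ℕ → ℕ → ℕ → Bool := onCell 536870912 536870912 0 1230186008 923417968 42949674
    (rowB 3 eng mog cd2q1 cd2q3 pd2 0 false false false .npn 1 2 3 (qsf 536870912 536870912 0 1230186008 2) ndB2q1 ndB2q3 pcB2 Cut.none Ext.none)

def k0_mm_123 : ∃ t, chk3 f_mm_123 t 1 1 1 = true :=
  ⟨(l 5), by decide +kernel⟩

theorem c_mm_123 : CertB 536870912 536870912 0 1230186008 923417968 42949674 3 eng mog cd2q1 cd2q3 pd2 false false false .npn 1 2 3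
    ndB2q1 ndB2q3 pcB2 Cut.none Ext.none :=
  certB0 (fam := false) (s1 := false) (s2 := false) (a := 1) (b := 2) (c := 3) (cn := .npn) (n1 := ndB2q1) (n2 := ndB2q3) (pc := pcB2) (cut := Cut.none) (xt := Ext.none) (P1 := 536870912) (W1 := 536870912) (P2 := 0) (W2 := 1230186008) (P3 := 923417968) (W3 := 42949674) (N0 := 3) (En := eng) (mo := mog) (C1 := cd2q1) (C2 := cd2q3) (C3 := pd2)
    rfl k0_mm_123

noncomputable def f_mm_133 : ℕ → ℕ → ℕ → ℕ → Bool := onCell 536870912 536870912 0 1230186008 923417968 42949674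
    (rowB 3 eng mog cd2q1 cd2q3 pd3 0 false false false .dn 1 3 3 (qsf 536870912 536870912 0 1230186008 3) ndB2q1 ndB2q3 pcB3 Cut.none Ext.none)

def k0_mm_133 : ∃ t, chk3 f_mm_133 t 1 1 1 = true :=
  ⟨(l 5), by decide +kernel⟩

theorem c_mm_133 : CertB 536870912 536870912 0 1230186008 923417968 42949674 3 eng mog cd2q1 cd2q3 pd3 false false false .dn 1 3 3
    ndB2q1 ndB2q3 pcB3 Cut.none Ext.none :=
  certB0 (fam := false) (s1 := false) (s2 := false) (a := 1) (b := 3) (c := 3) (cn := .dn) (n1 := ndB2q1) (n2 := ndB2q3) (pc := pcB3) (cut := Cut.none) (xt := Ext.none) (P1 := 536870912) (W1 := 536870912) (P2 := 0) (W2 := 1230186008) (P3 := 923417968) (W3 := 42949674) (N0 := 3) (En := eng) (mo := mog) (C1 := cd2q1) (C2 := cd2q3) (C3 := pd3)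
    rfl k0_mm_133

noncomputable def f_mm_202 : ℕ → ℕ → ℕ → ℕ → Bool := onCell 1073741824 536870912 1073741824 536870912 923417968 42949674
    (rowB 3 eng mog cd2q2 cd2q2 pd0 0 false false false .pp 2 0 2 (qsf 1073741824 536870912 1073741824 536870912 0) ndB2q2 ndB2q2 pcB0 Cut.none Ext.none)

def k0_mm_202 : ∃ t, chk3 f_mm_202 t 1 1 1 = true :=
  ⟨(l 3), by decide +kernel⟩

theorem c_mm_202 : CertB 1073741824 536870912 1073741824 536870912 923417968 42949674 3 eng mog cd2q2 cd2q2 pd0 false false false .pp 2 0 2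
    ndB2q2 ndB2q2 pcB0 Cut.none Ext.none :=
  certB0 (fam := false) (s1 := false) (s2 := false) (a := 2) (b := 0) (c := 2) (cn := .pp) (n1 := ndB2q2) (n2 := ndB2q2) (pc := pcB0) (cut := Cut.none) (xt := Ext.none) (P1 := 1073741824) (W1 := 536870912) (P2 := 1073741824) (W2 := 536870912) (P3 := 923417968) (W3 := 42949674) (N0 := 3) (En := eng) (mo := mog) (C1 := cd2q2) (C2 := cd2q2) (C3 := pd0)
    rfl k0_mm_202

noncomputable def f_mm_203 : ℕ → ℕ → ℕ → ℕ → Bool := onCell 0 536870912 0 1230186008 923417968 42949674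
    (rowB 3 eng mog cd2q2 cd2q3 pd0 2 false false false .up 2 0 3 (qsf 1073741824 536870912 0 1230186008 0) ndB2q2 ndB2q3 pcB0 Cut.none Ext.none)

def k0_mm_203 : ∃ t, chk3 f_mm_203 t 1 1 1 = true :=
  ⟨(b (l 3) (l 3)), by decide +kernel⟩

theorem c_mm_203 : CertB 1073741824 536870912 0 1230186008 923417968 42949674 3 eng mog cd2q2 cd2q3 pd0 false false false .up 2 0 3
    ndB2q2 ndB2q3 pcB0 Cut.none Ext.none :=
  certB2 (fam := false) (s1 := false) (s2 := false) (a := 2) (b := 0) (c := 3) (cn := .up) (n1 := ndB2q2) (n2 := ndB2q3) (pc := pcB0) (cut := Cut.none) (xt := Ext.none) (P1 := 1073741824) (W1 := 536870912) (P2 := 0) (W2 := 1230186008) (P3 := 923417968) (W3 := 42949674) (N0 := 3) (En := eng) (mo := mog) (C1 := cd2q2) (C2 := cd2q3) (C3 := pd0)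
    rfl (fun _ => rfl) k0_mm_203

noncomputable def f_mm_213 : ℕ → ℕ → ℕ → ℕ → Bool := onCell 536870912 536870912 0 1230186008 923417968 42949674
    (rowB 3 eng mog cd2q2 cd2q3 pd1 2 false false false .pnn 2 1 3 (qsf 1073741824 536870912 0 1230186008 1) ndB2q2 ndB2q3 pcB1 Cut.none Ext.none)

def k0_mm_213 : ∃ t, chk3 f_mm_213 t 1 1 1 = true :=
  ⟨(b (l 5) (l 5)), by decide +kernel⟩

theorem c_mm_213 : CertB 1073741824 536870912 0 1230186008 923417968 42949674 3 eng mog cd2q2 cd2q3 pd1 false false false .pnn 2 1 3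
    ndB2q2 ndB2q3 pcB1 Cut.none Ext.none :=
  certB2 (fam := false) (s1 := false) (s2 := false) (a := 2) (b := 1) (c := 3) (cn := .pnn) (n1 := ndB2q2) (n2 := ndB2q3) (pc := pcB1) (cut := Cut.none) (xt := Ext.none) (P1 := 1073741824) (W1 := 536870912) (P2 := 0) (W2 := 1230186008) (P3 := 923417968) (W3 := 42949674) (N0 := 3) (En := eng) (mo := mog) (C1 := cd2q2) (C2 := cd2q3) (C3 := pd1)
    rfl (fun _ => rfl) k0_mm_213

noncomputable def f_mm_303 : ℕ → ℕ → ℕ → ℕ → Bool := onCell 0 1230186008 0 1230186008 923417968 42949674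
    (rowB 3 eng mog cd2q3 cd2q3 pd0 0 false false false .npn 3 0 3 (qsf 0 1230186008 0 1230186008 0) ndB2q3 ndB2q3 pcB0 Cut.none Ext.none)

def k0_mm_303 : ∃ t, chk3 f_mm_303 t 1 1 1 = true :=
  ⟨(a (b (l 3) (l 3)) (b (l 3) (l 3))), by decide +kernel⟩

theorem c_mm_303 : CertB 0 1230186008 0 1230186008 923417968 42949674 3 eng mog cd2q3 cd2q3 pd0 false false false .npn 3 0 3
    ndB2q3 ndB2q3 pcB0 Cut.none Ext.none :=
  certB0 (fam := false) (s1 := false) (s2 := false) (a := 3) (b := 0) (c := 3) (cn := .npn) (n1 := ndB2q3) (n2 := ndB2q3) (pc := pcB0) (cut := Cut.none) (xt := Ext.none) (P1 := 0) (W1 := 1230186008) (P2 := 0) (W2 := 1230186008) (P3 := 923417968) (W3 := 42949674) (N0 := 3) (En := eng) (mo := mog) (C1 := cd2q3) (C2 := cd2q3) (C3 := pd0)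
    rfl k0_mm_303

noncomputable def f_mm_313 : ℕ → ℕ → ℕ → ℕ → Bool := onCell 0 1230186008 0 1230186008 923417968 42949674
    (rowB 3 eng mog cd2q3 cd2q3 pd1 0 false false false .dn 3 1 3 (qsf 0 1230186008 0 1230186008 1) ndB2q3 ndB2q3 pcB1 Cut.none Ext.none)

def k0_mm_313 : ∃ t, chk3 f_mm_313 t 1 1 1 = true :=
  ⟨(a (l 1) (b (l 3) (l 1))), by decide +kernel⟩

theorem c_mm_313 : CertB 0 1230186008 0 1230186008 923417968 42949674 3 eng mog cd2q3 cd2q3 pd1 false false false .dn 3 1 3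
    ndB2q3 ndB2q3 pcB1 Cut.none Ext.none :=
  certB0 (fam := false) (s1 := false) (s2 := false) (a := 3) (b := 1) (c := 3) (cn := .dn) (n1 := ndB2q3) (n2 := ndB2q3) (pc := pcB1) (cut := Cut.none) (xt := Ext.none) (P1 := 0) (W1 := 1230186008) (P2 := 0) (W2 := 1230186008) (P3 := 923417968) (W3 := 42949674) (N0 := 3) (En := eng) (mo := mog) (C1 := cd2q3) (C2 := cd2q3) (C3 := pd1)
    rfl k0_mm_313

end Pool.Agent.Strip051.G.I8600_9000.Tab.C.BB22

namespace Pool.Agent.Strip051.G.I8600_9000.Tab.C.BB23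

open Pool.Agent.Strip051.PB Pool.Agent.Strip051.PB.T
open Pool.Agent.Strip051.G.I8600_9000.Tab

noncomputable def f_pp_001 : ℕ → ℕ → ℕ → ℕ → Bool := onCell 0 536870912 0 536870912 923417968 42949674
    (rowB 3 eng mog cd2q0 cd3q1 pd0 1 false true true .up 0 0 1 (qsf 0 536870912 536870912 536870912 0) ndB2q0 ndB3q1 pcB0 Cut.none Ext.none)

def k0_pp_001 : ∃ t, chk3 f_pp_001 t 1 1 1 = true :=
  ⟨(l 3), by decide +kernel⟩

theorem c_pp_001 : CertB 0 536870912 536870912 536870912 923417968 42949674 3 eng mog cd2q0 cd3q1 pd0 false true true .up 0 0 1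
    ndB2q0 ndB3q1 pcB0 Cut.none Ext.none :=
  certB1 (fam := false) (s1 := true) (s2 := true) (a := 0) (b := 0) (c := 1) (cn := .up) (n1 := ndB2q0) (n2 := ndB3q1) (pc := pcB0) (cut := Cut.none) (xt := Ext.none) (P1 := 0) (W1 := 536870912) (P2 := 536870912) (W2 := 536870912) (P3 := 923417968) (W3 := 42949674) (N0 := 3) (En := eng) (mo := mog) (C1 := cd2q0) (C2 := cd3q1) (C3 := pd0)
    rfl (fun _ => rfl) k0_pp_001

noncomputable def f_pp_011 : ℕ → ℕ → ℕ → ℕ → Bool := onCell 0 536870912 536870912 536870912 923417968 42949674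
    (rowB 3 eng mog cd2q0 cd3q1 pd1 0 false true true .pnn 0 1 1 (qsf 0 536870912 536870912 536870912 1) ndB2q0 ndB3q1 pcB1 Cut.none Ext.none)

def k0_pp_011 : ∃ t, chk3 f_pp_011 t 1 1 1 = true :=
  ⟨(a (l 3) (l 3)), by decide +kernel⟩

theorem c_pp_011 : CertB 0 536870912 536870912 536870912 923417968 42949674 3 eng mog cd2q0 cd3q1 pd1 false true true .pnn 0 1 1
    ndB2q0 ndB3q1 pcB1 Cut.none Ext.none :=
  certB0 (fam := false) (s1 := true) (s2 := true) (a := 0) (b := 1) (c := 1) (cn := .pnn) (n1 := ndB2q0) (n2 := ndB3q1) (pc := pcB1) (cut := Cut.none) (xt := Ext.none) (P1 := 0) (W1 := 536870912) (P2 := 536870912) (W2 := 536870912) (P3 := 923417968) (W3 := 42949674) (N0 := 3) (En := eng) (mo := mog) (C1 := cd2q0) (C2 := cd3q1) (C3 := pd1)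
    rfl k0_pp_011

noncomputable def f_pp_012 : ℕ → ℕ → ℕ → ℕ → Bool := onCell 0 536870912 536870912 536870912 923417968 42949674
    (rowB 3 eng mog cd2q0 cd3q2 pd1 1 false true true .pnp 0 1 2 (qsf 0 536870912 1073741824 536870912 1) ndB2q0 ndB3q2 pcB1 Cut.none Ext.none)

def k0_pp_012 : ∃ t, chk3 f_pp_012 t 1 1 1 = true :=
  ⟨(a (l 3) (b (l 3) (b (l 3) (b (a (l 3) (a (l 3) (b (l 3) (l 14853960)))) (a (a (l 3) (b (l 3) (a (l 14917696) (l 14811200)))) (a (b (l 131697682743) (l 14713488)) (b (l 14693776) (l 14681016)))))))), by decide +kernel⟩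

theorem c_pp_012 : CertB 0 536870912 1073741824 536870912 923417968 42949674 3 eng mog cd2q0 cd3q2 pd1 false true true .pnp 0 1 2
    ndB2q0 ndB3q2 pcB1 Cut.none Ext.none :=
  certB1 (fam := false) (s1 := true) (s2 := true) (a := 0) (b := 1) (c := 2) (cn := .pnp) (n1 := ndB2q0) (n2 := ndB3q2) (pc := pcB1) (cut := Cut.none) (xt := Ext.none) (P1 := 0) (W1 := 536870912) (P2 := 1073741824) (W2 := 536870912) (P3 := 923417968) (W3 := 42949674) (N0 := 3) (En := eng) (mo := mog) (C1 := cd2q0) (C2 := cd3q2) (C3 := pd1)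
    rfl (fun _ => rfl) k0_pp_012

noncomputable def f_pp_022 : ℕ → ℕ → ℕ → ℕ → Bool := onCell 0 536870912 1073741824 536870912 923417968 42949674
    (rowB 3 eng mog cd2q0 cd3q2 pd2 1 false true true .pp 0 2 2 (qsf 0 536870912 1073741824 536870912 2) ndB2q0 ndB3q2 pcB2 Cut.none Ext.none)

def k0_pp_022 : ∃ t, chk3 f_pp_022 t 2 2 1 = true :=
  ⟨(a (b (b (l 3) (b (l 3) (b (a (l 3) (a (l 3) (a (a (l 3) (l 16016336)) (l 136531878647)))) (a (a (l 3) (b (l 3) (l 16318672))) (a (a (l 16170224) (a (l 16088016) (l 16054288))) (a (a (l 16021720) (l 15990592)) (l 15948152))))))) (a (b (b (b (a (b (l 3) (l 16492280)) (b (l 16296720) (l 16279944))) (b (a (l 16470800) (l 16264544)) (b (a (l 16451712) (l 16249728)) (a (l 16437432) (l 16237832))))) (a (l 16374896) (l 16190224))) (a (l 16223824) (l 16081184))) (a (b (b (b (a (l 16134480) (a (l 16065592) (l 16034664))) (a (b (l 16115216) (b (l 16103520) (l 16092328))) (b (a (l 16049048) (l 16018584)) (a (l 16031344)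 (l 16001040))))) (a (l 16056168) (a (l 15996440) (l 15969488)))) (a (l 15979936) (l 15906088))) (a (b (b (b (a (l 16004520) (l 15974928)) (b (l 15976144) (l 15959768))) (l 15932992)) (l 15953512)) (b (b (b (l 15996720) (l 15909888)) (l 15884040)) (l 15856560)))))) (b (b (a (l 3) (b (l 3) (b (l 211692795927) (l 15661680)))) (a (b (a (a (l 3) (b (l 3) (l 15866544))) (a (b (l 3) (l 15795128)) (b (l 15709672) (l 15702144)))) (a (a (b (l 15905896) (l 15892456)) (b (l 15848496) (l 15839304))) (a (b (l 15785432) (l 15777576)) (b (l 15699440) (l 15694280))))) (b (b (l 15708208) (l 15629768)) (b (l 15635376) (l 15499288))))) (a (a (b (b (b (a (l 15878552) (l 15826024)) (a (l 15857472) (l 15809112))) (a (l 15839288) (l 15798400))) (a (l 15826264) (l 15799408))) (b (b (b (l 15833120) (a (l 15755560) (l 15685384))) (l 15723592)) (a (l 15769560) (l 15728832)))) (b (b (b (l 15511136) (l 15525216)) (l 15557320)) (l 15640576))))), by decide +kernel⟩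

def k1_pp_022 : ∃ t, chk3 f_pp_022 t 2 3 1 = true :=
  ⟨(a (b (a (b (a (l 16056608) (l 15969120)) (a (l 15925968) (l 15891872))) (a (a (l 15847192) (b (a (l 15885600) (l 15876072)) (l 16015144))) (a (l 15633536) (l 15858480)))) (a (b (a (l 15827584) (l 15844392)) (l 15764936)) (a (a (l 15871296) (b (l 15882120) (l 2))) (b (l 15825000) (l 2))))) (a (b (a (a (l 15855592) (l 15855384)) (b (l 15811448) (l 15900008))) (a (b (l 15705928) (l 2)) (l 2))) (b (b (l 15555456) (a (l 15883856) (l 2))) (l 2)))), by decide +kernel⟩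

def k2_pp_022 : ∃ t, chk3 f_pp_022 t 3 1 1 = true :=
  ⟨(b (b (b (a (b (a (b (l 254104836183) (l 15203360)) (a (l 14863176) (l 14729088))) (a (b (l 15220208) (l 15135016)) (l 14849136))) (a (b (l 14569896) (l 14668576)) (b (l 14533608) (l 14635288)))) (a (b (a (b (l 15154968) (l 15180192)) (l 14932048)) (a (l 15225760) (l 15035296))) (a (b (l 14794824) (l 14930992)) (l 14850256)))) (a (b (a (b (b (l 15280344) (l 15320456)) (l 15388296)) (b (b (l 15121608) (l 15181776)) (l 15268096))) (a (a (l 15560080) (l 15507064)) (b (l 15371296) (l 2)))) (b (a (b (l 15064264) (l 2)) (l 2)) (l 2)))) (b (a (b (a (b (l 15651072) (l 2)) (l 2)) (l 2)) (l 2)) (l 2))), by decide +kernel⟩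

theorem s3_pp_022 : ∃ t, chk3 f_pp_022 t 2 1 1 = true := ex3_b k0_pp_022 k1_pp_022

theorem s4_pp_022 : ∃ t, chk3 f_pp_022 t 1 1 1 = true := ex3_a s3_pp_022 k2_pp_022

theorem c_pp_022 : CertB 0 536870912 1073741824 536870912 923417968 42949674 3 eng mog cd2q0 cd3q2 pd2 false true true .pp 0 2 2
    ndB2q0 ndB3q2 pcB2 Cut.none Ext.none :=
  certB1 (fam := false) (s1 := true) (s2 := true) (a := 0) (b := 2) (c := 2) (cn := .pp) (n1 := ndB2q0) (n2 := ndB3q2) (pc := pcB2) (cut := Cut.none) (xt := Ext.none) (P1 := 0) (W1 := 536870912) (P2 := 1073741824) (W2 := 536870912) (P3 := 923417968) (W3 := 42949674) (N0 := 3) (En := eng) (mo := mog) (C1 := cd2q0) (C2 := cd3q2) (C3 := pd2)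
    rfl (fun _ => rfl) s4_pp_022

noncomputable def f_pp_023 : ℕ → ℕ → ℕ → ℕ → Bool := onCell 0 536870912 0 1230186008 923417968 42949674
    (rowB 3 eng mog cd2q0 cd3q3 pd2 0 false true true .up 0 2 3 (qsf 0 536870912 0 1230186008 2) ndB2q0 ndB3q3 pcB2 Cut.none Ext.none)

def k0_pp_023 : ∃ t, chk3 f_pp_023 t 1 1 1 = true :=
  ⟨(b (b (l 4) (a (l 2) (a (l 2) (b (a (l 4) (l 16490448)) (a (l 16711280) (l 16681368)))))) (b (a (b (l 2) (a (l 2) (a (l 2) (b (l 2) (l 15783928))))) (b (a (a (l 2) (l 16386216)) (a (l 16372568) (l 16319792))) (a (b (l 15888160) (a (l 15872896) (l 15919648))) (b (l 16051008) (l 16098320))))) (a (b (a (l 2) (a (b (a (l 2) (l 15872200)) (a (l 15931728) (l 16044840))) (b (l 15976352) (l 16269696)))) (a (b (a (l 2) (b (a (l 2) (l 15801096)) (a (a (l 15594184) (l 15685488)) (a (l 15745464) (l 15806448))))) (a (c (a (l 15346080) (l 15567384)) (b (l 15172656) (l 15178992))) (a (a (l 15608760) (c (l 15826800) (l 15553112))) (a (l 15757728)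 (l 15817080))))) (a (b (a (b (l 15920712) (l 15888736)) (b (l 16060264) (l 16042040))) (a (l 15832088) (b (l 16036000) (l 16055304)))) (b (c (l 16394440) (l 16246368)) (b (l 16251440) (l 16352088)))))) (b (a (b (l 16070472) (a (l 16321336) (l 16255744))) (b (l 16003888) (a (l 16083120) (l 15956448)))) (a (b (a (l 16526184) (l 16354200)) (a (b (l 16611312) (l 16588088)) (a (l 16400816) (c (l 15932496) (l 16362584))))) (b (a (l 16114760) (b (l 15888872) (l 15803848))) (b (a (l 15918800) (l 15679520)) (a (a (b (l 16037496) (l 15974744)) (l 15809216)) (c (l 15464984) (l 15559264)))))))))), by decide +kernel⟩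

theorem c_pp_023 : CertB 0 536870912 0 1230186008 923417968 42949674 3 eng mog cd2q0 cd3q3 pd2 false true true .up 0 2 3
    ndB2q0 ndB3q3 pcB2 Cut.none Ext.none :=
  certB0 (fam := false) (s1 := true) (s2 := true) (a := 0) (b := 2) (c := 3) (cn := .up) (n1 := ndB2q0) (n2 := ndB3q3) (pc := pcB2) (cut := Cut.none) (xt := Ext.none) (P1 := 0) (W1 := 536870912) (P2 := 0) (W2 := 1230186008) (P3 := 923417968) (W3 := 42949674) (N0 := 3) (En := eng) (mo := mog) (C1 := cd2q0) (C2 := cd3q3) (C3 := pd2)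
    rfl k0_pp_023

noncomputable def f_pp_033 : ℕ → ℕ → ℕ → ℕ → Bool := onCell 0 536870912 0 1230186008 923417968 42949674
    (rowB 3 eng mog cd2q0 cd3q3 pd3 0 false true true .pnn 0 3 3 (qsf 0 536870912 0 1230186008 3) ndB2q0 ndB3q3 pcB3 Cut.none Ext.none)

def k0_pp_033 : ∃ t, chk3 f_pp_033 t 1 2 1 = true :=
  ⟨(b (l 4) (b (a (l 4) (a (l 4) (a (l 4) (l 16669952)))) (a (a (l 4) (a (l 4) (b (l 4) (l 16363304)))) (a (a (b (l 4) (l 16607352)) (b (l 16711080) (l 16722672))) (a (b (l 16583200) (l 16563920)) (l 16475800)))))), by decide +kernel⟩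

def k1_pp_033 : ∃ t, chk3 f_pp_033 t 1 3 1 = true :=
  ⟨(b (a (b (a (b (a (a (l 4) (l 15733824)) (a (a (l 15856376) (l 15915800)) (l 15927480))) (a (a (l 15467936) (l 15647176)) (a (a (l 15787824) (l 15857096)) (l 15901248)))) (a (a (b (l 16015000) (l 15982432)) (b (l 16112272) (l 16092856))) (b (l 16337056) (l 16332512)))) (a (b (a (a (l 15396224) (l 15593256)) (a (a (l 15744056) (l 15819240)) (l 15871216))) (a (b (l 15459688) (a (l 15333536) (l 15541232))) (a (a (l 15708240) (l 15787448)) (a (l 15834872) (l 15882640))))) (a (a (b (l 15961968) (l 15943088)) (b (l 16080800) (l 16068880))) (b (l 16332232) (l 16329952))))) (b (a (a (b (l 16607992) (l 16621112)) (b (l 16693376) (l 16647040))) (a (b (l 16514248) (l 1)) (l 1))) (a (b (a (l 16633168) (l 16577656)) (a (l 16631680) (l 1))) (l 1)))) (a (b (a (b (a (a (a (l 15342816) (l 15361400)) (l 15518984)) (a (a (l 15678632) (l 15759536)) (a (l 15808560) (l 15857952)))) (a (a (b (l 15303664) (l 15306592))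 (c (l 15577296) (l 15432512))) (a (a (l 15670992) (l 15751840)) (a (l 15800848) (l 15850344))))) (a (a (b (l 15920816) (l 15913480)) (b (l 16050168) (l 16043808))) (b (l 16317896) (l 1)))) (a (b (a (a (c (l 15351608) (l 15426880)) (b (l 15519912) (l 15531896))) (a (a (b (l 15677768) (l 15687848)) (b (l 15757608) (l 15766672))) (a (l 15810496) (l 15859312)))) (a (a (b (l 15350280) (l 15374640)) (l 199209724855)) (a (a (l 15713336) (l 1)) (l 1)))) (a (b (a (c (l 16002328) (l 15830784)) (l 1)) (l 1)) (l 1)))) (l 1))), by decide +kernel⟩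

theorem s2_pp_033 : ∃ t, chk3 f_pp_033 t 1 1 1 = true := ex3_b k0_pp_033 k1_pp_033

theorem c_pp_033 : CertB 0 536870912 0 1230186008 923417968 42949674 3 eng mog cd2q0 cd3q3 pd3 false true true .pnn 0 3 3
    ndB2q0 ndB3q3 pcB3 Cut.none Ext.none :=
  certB0 (fam := false) (s1 := true) (s2 := true) (a := 0) (b := 3) (c := 3) (cn := .pnn) (n1 := ndB2q0) (n2 := ndB3q3) (pc := pcB3) (cut := Cut.none) (xt := Ext.none) (P1 := 0) (W1 := 536870912) (P2 := 0) (W2 := 1230186008) (P3 := 923417968) (W3 := 42949674) (N0 := 3) (En := eng) (mo := mog) (C1 := cd2q0) (C2 := cd3q3) (C3 := pd3)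
    rfl s2_pp_033

noncomputable def f_pp_101 : ℕ → ℕ → ℕ → ℕ → Bool := onCell 536870912 536870912 536870912 536870912 923417968 42949674
    (rowB 3 eng mog cd2q1 cd3q1 pd0 0 false true true .npn 1 0 1 (qsf 536870912 536870912 536870912 536870912 0) ndB2q1 ndB3q1 pcB0 Cut.none Ext.none)

def k0_pp_101 : ∃ t, chk3 f_pp_101 t 1 1 1 = true :=
  ⟨(l 3), by decide +kernel⟩

theorem c_pp_101 : CertB 536870912 536870912 536870912 536870912 923417968 42949674 3 eng mog cd2q1 cd3q1 pd0 false true true .npn 1 0 1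
    ndB2q1 ndB3q1 pcB0 Cut.none Ext.none :=
  certB0 (fam := false) (s1 := true) (s2 := true) (a := 1) (b := 0) (c := 1) (cn := .npn) (n1 := ndB2q1) (n2 := ndB3q1) (pc := pcB0) (cut := Cut.none) (xt := Ext.none) (P1 := 536870912) (W1 := 536870912) (P2 := 536870912) (W2 := 536870912) (P3 := 923417968) (W3 := 42949674) (N0 := 3) (En := eng) (mo := mog) (C1 := cd2q1) (C2 := cd3q1) (C3 := pd0)
    rfl k0_pp_101

noncomputable def f_pp_102 : ℕ → ℕ → ℕ → ℕ → Bool := onCell 536870912 536870912 0 536870912 923417968 42949674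
    (rowB 3 eng mog cd2q1 cd3q2 pd0 1 false true true .npp 1 0 2 (qsf 536870912 536870912 1073741824 536870912 0) ndB2q1 ndB3q2 pcB0 Cut.none Ext.none)

def k0_pp_102 : ∃ t, chk3 f_pp_102 t 1 1 1 = true :=
  ⟨(l 3), by decide +kernel⟩

theorem c_pp_102 : CertB 536870912 536870912 1073741824 536870912 923417968 42949674 3 eng mog cd2q1 cd3q2 pd0 false true true .npp 1 0 2
    ndB2q1 ndB3q2 pcB0 Cut.none Ext.none :=
  certB1 (fam := false) (s1 := true) (s2 := true) (a := 1) (b := 0) (c := 2) (cn := .npp) (n1 := ndB2q1) (n2 := ndB3q2) (pc := pcB0) (cut := Cut.none) (xt := Ext.none) (P1 := 536870912) (W1 := 536870912) (P2 := 1073741824) (W2 := 536870912) (P3 := 923417968) (W3 := 42949674) (N0 := 3) (En := eng) (mo := mog) (C1 := cd2q1) (C2 := cd3q2) (C3 := pd0)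
    rfl (fun _ => rfl) k0_pp_102

noncomputable def f_pp_112 : ℕ → ℕ → ℕ → ℕ → Bool := onCell 536870912 536870912 1073741824 536870912 923417968 42949674
    (rowB 3 eng mog cd2q1 cd3q2 pd1 2 false true true .dn 1 1 2 (qsf 536870912 536870912 1073741824 536870912 1) ndB2q1 ndB3q2 pcB1 Cut.none Ext.none)

def k0_pp_112 : ∃ t, chk3 f_pp_112 t 1 1 1 = true :=
  ⟨(b (a (l 3) (l 3)) (a (l 3) (a (b (l 3) (b (l 3) (a (l 15103312) (l 189143261623)))) (a (b (l 3) (b (a (l 15096944) (l 15062912)) (a (l 15030744) (l 15020800)))) (b (l 1) (b (a (l 15003328) (l 1)) (l 15123688))))))), by decide +kernel⟩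

theorem c_pp_112 : CertB 536870912 536870912 1073741824 536870912 923417968 42949674 3 eng mog cd2q1 cd3q2 pd1 false true true .dn 1 1 2
    ndB2q1 ndB3q2 pcB1 Cut.none Ext.none :=
  certB2 (fam := false) (s1 := true) (s2 := true) (a := 1) (b := 1) (c := 2) (cn := .dn) (n1 := ndB2q1) (n2 := ndB3q2) (pc := pcB1) (cut := Cut.none) (xt := Ext.none) (P1 := 536870912) (W1 := 536870912) (P2 := 1073741824) (W2 := 536870912) (P3 := 923417968) (W3 := 42949674) (N0 := 3) (En := eng) (mo := mog) (C1 := cd2q1) (C2 := cd3q2) (C3 := pd1)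
    rfl (fun _ => rfl) k0_pp_112

noncomputable def f_pp_113 : ℕ → ℕ → ℕ → ℕ → Bool := onCell 536870912 536870912 0 1230186008 923417968 42949674
    (rowB 3 eng mog cd2q1 cd3q3 pd1 2 false true true .nn 1 1 3 (qsf 536870912 536870912 0 1230186008 1) ndB2q1 ndB3q3 pcB1 Cut.none Ext.none)

def k0_pp_113 : ∃ t, chk3 f_pp_113 t 1 1 1 = true :=
  ⟨(a (b (l 2) (b (a (l 2) (b (l 2) (a (l 2) (b (l 2) (l 444625017703))))) (a (b (l 2) (l 3)) (b (a (b (a (l 2) (l 455362287271)) (a (b (l 2) (c (l 14381136) (l 14160280))) (b (l 14261904) (l 14413648)))) (b (a (l 14231304) (l 14397368)) (a (b (l 14410640) (l 14552136)) (l 14624776)))) (a (b (a (b (c (l 14543896) (l 14325584)) (l 3)) (b (l 50629742663) (l 14761952))) (l 3)) (b (a (b (l 14704520) (l 14862672)) (b (l 14824912) (l 14971856))) (b (a (l 3) (l 15121272)) (l 3)))))))) (b (a (l 2) (b (l 16350896) (b (l 16238064) (l 16181936)))) (a (b (b (a (l 2) (l 15199688)) (a (b (l 14482344) (l 14532168)) (b (l 14952968)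 (l 14938216)))) (b (a (b (l 14655784) (a (l 14766392) (l 14906120))) (b (l 14994336) (l 15108248))) (a (a (b (l 15009240) (a (l 15325840) (l 15305568))) (b (l 15117392) (l 40967641223))) (b (a (l 15221216) (l 15317808)) (b (l 15417304) (l 15526304)))))) (b (b (l 16084176) (a (l 15377856) (l 15769448))) (a (b (b (l 15314760) (l 15352192)) (b (l 15591144) (b (l 15541520) (l 15618056)))) (b (b (l 15603400) (l 15558312)) (b (l 15573920) (a (l 15627968) (l 15654048))))))))), by decide +kernel⟩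

theorem c_pp_113 : CertB 536870912 536870912 0 1230186008 923417968 42949674 3 eng mog cd2q1 cd3q3 pd1 false true true .nn 1 1 3
    ndB2q1 ndB3q3 pcB1 Cut.none Ext.none :=
  certB2 (fam := false) (s1 := true) (s2 := true) (a := 1) (b := 1) (c := 3) (cn := .nn) (n1 := ndB2q1) (n2 := ndB3q3) (pc := pcB1) (cut := Cut.none) (xt := Ext.none) (P1 := 536870912) (W1 := 536870912) (P2 := 0) (W2 := 1230186008) (P3 := 923417968) (W3 := 42949674) (N0 := 3) (En := eng) (mo := mog) (C1 := cd2q1) (C2 := cd3q3) (C3 := pd1)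
    rfl (fun _ => rfl) k0_pp_113

noncomputable def f_pp_123 : ℕ → ℕ → ℕ → ℕ → Bool := onCell 1073741824 536870912 0 1230186008 923417968 42949674
    (rowB 3 eng mog cd2q1 cd3q3 pd2 2 false true true .npn 1 2 3 (qsf 536870912 536870912 0 1230186008 2) ndB2q1 ndB3q3 pcB2 Cut.none Ext.none)

def k0_pp_123 : ∃ t, chk3 f_pp_123 t 1 1 1 = true :=
  ⟨(a (b (a (b (a (l 16684648) (l 16724440)) (b (l 16620392) (a (l 16448784) (l 16307760)))) (b (a (l 16696784) (l 16720032)) (b (l 16550128) (l 16296232)))) (b (a (b (a (l 16283976) (l 15997280)) (b (l 15878360) (l 15792432))) (b (l 16042048) (a (l 15801720) (l 15878312)))) (b (a (a (b (l 15668608) (l 15598200)) (b (l 15783400) (l 15794248))) (b (l 15922432) (a (l 15957432) (l 1)))) (a (a (b (l 15452224) (c (l 15569352) (l 15632448))) (b (l 15842272) (a (l 15843840) (l 1)))) (b (a (l 16067856) (l 1)) (l 1)))))) (b (a (b (l 16728520) (b (l 16635800) (l 16382000))) (b (l 4) (a (l 16576008) (l 16622016)))) (b (b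 (a (l 16082536) (l 16207328)) (a (b (l 15910960) (l 15792208)) (l 1))) (l 1)))), by decide +kernel⟩

theorem c_pp_123 : CertB 536870912 536870912 0 1230186008 923417968 42949674 3 eng mog cd2q1 cd3q3 pd2 false true true .npn 1 2 3
    ndB2q1 ndB3q3 pcB2 Cut.none Ext.none :=
  certB2 (fam := false) (s1 := true) (s2 := true) (a := 1) (b := 2) (c := 3) (cn := .npn) (n1 := ndB2q1) (n2 := ndB3q3) (pc := pcB2) (cut := Cut.none) (xt := Ext.none) (P1 := 536870912) (W1 := 536870912) (P2 := 0) (W2 := 1230186008) (P3 := 923417968) (W3 := 42949674) (N0 := 3) (En := eng) (mo := mog) (C1 := cd2q1) (C2 := cd3q3) (C3 := pd2)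
    rfl (fun _ => rfl) k0_pp_123

noncomputable def f_pp_133 : ℕ → ℕ → ℕ → ℕ → Bool := onCell 1610612736 536870912 0 1230186008 923417968 42949674
    (rowB 3 eng mog cd2q1 cd3q3 pd3 2 false true true .dn 1 3 3 (qsf 536870912 536870912 0 1230186008 3) ndB2q1 ndB3q3 pcB3 Cut.none Ext.none)

def k0_pp_133 : ∃ t, chk3 f_pp_133 t 1 1 1 = true :=
  ⟨(b (b (l 4) (l 1)) (l 1)), by decide +kernel⟩

theorem c_pp_133 : CertB 536870912 536870912 0 1230186008 923417968 42949674 3 eng mog cd2q1 cd3q3 pd3 false true true .dn 1 3 3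
    ndB2q1 ndB3q3 pcB3 Cut.none Ext.none :=
  certB2 (fam := false) (s1 := true) (s2 := true) (a := 1) (b := 3) (c := 3) (cn := .dn) (n1 := ndB2q1) (n2 := ndB3q3) (pc := pcB3) (cut := Cut.none) (xt := Ext.none) (P1 := 536870912) (W1 := 536870912) (P2 := 0) (W2 := 1230186008) (P3 := 923417968) (W3 := 42949674) (N0 := 3) (En := eng) (mo := mog) (C1 := cd2q1) (C2 := cd3q3) (C3 := pd3)
    rfl (fun _ => rfl) k0_pp_133

noncomputable def f_pp_202 : ℕ → ℕ → ℕ → ℕ → Bool := onCell 1073741824 536870912 1073741824 536870912 923417968 42949674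
    (rowB 3 eng mog cd2q2 cd3q2 pd0 0 false true true .pp 2 0 2 (qsf 1073741824 536870912 1073741824 536870912 0) ndB2q2 ndB3q2 pcB0 Cut.none Ext.none)

def k0_pp_202 : ∃ t, chk3 f_pp_202 t 1 1 1 = true :=
  ⟨(l 3), by decide +kernel⟩

theorem c_pp_202 : CertB 1073741824 536870912 1073741824 536870912 923417968 42949674 3 eng mog cd2q2 cd3q2 pd0 false true true .pp 2 0 2
    ndB2q2 ndB3q2 pcB0 Cut.none Ext.none :=
  certB0 (fam := false) (s1 := true) (s2 := true) (a := 2) (b := 0) (c := 2) (cn := .pp) (n1 := ndB2q2) (n2 := ndB3q2) (pc := pcB0) (cut := Cut.none) (xt := Ext.none) (P1 := 1073741824) (W1 := 536870912) (P2 := 1073741824) (W2 := 536870912) (P3 := 923417968) (W3 := 42949674) (N0 := 3) (En := eng) (mo := mog) (C1 := cd2q2) (C2 := cd3q2) (C3 := pd0)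
    rfl k0_pp_202

noncomputable def f_pp_203 : ℕ → ℕ → ℕ → ℕ → Bool := onCell 0 536870912 0 1230186008 923417968 42949674
    (rowB 3 eng mog cd2q2 cd3q3 pd0 2 false true true .up 2 0 3 (qsf 1073741824 536870912 0 1230186008 0) ndB2q2 ndB3q3 pcB0 Cut.none Ext.none)

def k0_pp_203 : ∃ t, chk3 f_pp_203 t 1 1 1 = true :=
  ⟨(b (l 3) (l 3)), by decide +kernel⟩

theorem c_pp_203 : CertB 1073741824 536870912 0 1230186008 923417968 42949674 3 eng mog cd2q2 cd3q3 pd0 false true true .up 2 0 3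
    ndB2q2 ndB3q3 pcB0 Cut.none Ext.none :=
  certB2 (fam := false) (s1 := true) (s2 := true) (a := 2) (b := 0) (c := 3) (cn := .up) (n1 := ndB2q2) (n2 := ndB3q3) (pc := pcB0) (cut := Cut.none) (xt := Ext.none) (P1 := 1073741824) (W1 := 536870912) (P2 := 0) (W2 := 1230186008) (P3 := 923417968) (W3 := 42949674) (N0 := 3) (En := eng) (mo := mog) (C1 := cd2q2) (C2 := cd3q3) (C3 := pd0)
    rfl (fun _ => rfl) k0_pp_203

noncomputable def f_pp_213 : ℕ → ℕ → ℕ → ℕ → Bool := onCell 1073741824 536870912 0 1230186008 923417968 42949674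
    (rowB 3 eng mog cd2q2 cd3q3 pd1 0 false true true .pnn 2 1 3 (qsf 1073741824 536870912 0 1230186008 1) ndB2q2 ndB3q3 pcB1 Cut.none Ext.none)

def k0_pp_213 : ∃ t, chk3 f_pp_213 t 1 1 1 = true :=
  ⟨(b (a (b (a (a (b (a (b (l 16516952) (a (l 16524008) (l 16546976))) (b (l 16566112) (a (l 16559720) (l 16565584)))) (b (a (a (b (l 16533688) (l 16506552)) (l 325510883895)) (l 3)) (l 3))) (b (a (b (l 16568632) (l 348596230215)) (l 363091947591)) (l 3))) (l 3)) (l 3)) (l 3)) (l 3)), by decide +kernel⟩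

theorem c_pp_213 : CertB 1073741824 536870912 0 1230186008 923417968 42949674 3 eng mog cd2q2 cd3q3 pd1 false true true .pnn 2 1 3
    ndB2q2 ndB3q3 pcB1 Cut.none Ext.none :=
  certB0 (fam := false) (s1 := true) (s2 := true) (a := 2) (b := 1) (c := 3) (cn := .pnn) (n1 := ndB2q2) (n2 := ndB3q3) (pc := pcB1) (cut := Cut.none) (xt := Ext.none) (P1 := 1073741824) (W1 := 536870912) (P2 := 0) (W2 := 1230186008) (P3 := 923417968) (W3 := 42949674) (N0 := 3) (En := eng) (mo := mog) (C1 := cd2q2) (C2 := cd3q3) (C3 := pd1)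
    rfl k0_pp_213

noncomputable def f_pp_303 : ℕ → ℕ → ℕ → ℕ → Bool := onCell 0 1230186008 0 1230186008 923417968 42949674
    (rowB 3 eng mog cd2q3 cd3q3 pd0 0 false true true .npn 3 0 3 (qsf 0 1230186008 0 1230186008 0) ndB2q3 ndB3q3 pcB0 Cut.none Ext.none)

def k0_pp_303 : ∃ t, chk3 f_pp_303 t 1 1 1 = true :=
  ⟨(a (b (l 3) (l 3)) (b (l 3) (l 3))), by decide +kernel⟩

theorem c_pp_303 : CertB 0 1230186008 0 1230186008 923417968 42949674 3 eng mog cd2q3 cd3q3 pd0 false true true .npn 3 0 3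
    ndB2q3 ndB3q3 pcB0 Cut.none Ext.none :=
  certB0 (fam := false) (s1 := true) (s2 := true) (a := 3) (b := 0) (c := 3) (cn := .npn) (n1 := ndB2q3) (n2 := ndB3q3) (pc := pcB0) (cut := Cut.none) (xt := Ext.none) (P1 := 0) (W1 := 1230186008) (P2 := 0) (W2 := 1230186008) (P3 := 923417968) (W3 := 42949674) (N0 := 3) (En := eng) (mo := mog) (C1 := cd2q3) (C2 := cd3q3) (C3 := pd0)
    rfl k0_pp_303

noncomputable def f_pp_313 : ℕ → ℕ → ℕ → ℕ → Bool := onCell 0 1230186008 0 1230186008 923417968 42949674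
    (rowB 3 eng mog cd2q3 cd3q3 pd1 0 false true true .dn 3 1 3 (qsf 0 1230186008 0 1230186008 1) ndB2q3 ndB3q3 pcB1 Cut.none Ext.none)

def k0_pp_313 : ∃ t, chk3 f_pp_313 t 1 1 1 = true :=
  ⟨(a (l 1) (b (l 3) (l 1))), by decide +kernel⟩

theorem c_pp_313 : CertB 0 1230186008 0 1230186008 923417968 42949674 3 eng mog cd2q3 cd3q3 pd1 false true true .dn 3 1 3
    ndB2q3 ndB3q3 pcB1 Cut.none Ext.none :=
  certB0 (fam := false) (s1 := true) (s2 := true) (a := 3) (b := 1) (c := 3) (cn := .dn) (n1 := ndB2q3) (n2 := ndB3q3) (pc := pcB1) (cut := Cut.none) (xt := Ext.none) (P1 := 0) (W1 := 1230186008) (P2 := 0) (W2 := 1230186008) (P3 := 923417968) (W3 := 42949674) (N0 := 3) (En := eng) (mo := mog) (C1 := cd2q3) (C2 := cd3q3) (C3 := pd1)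
    rfl k0_pp_313

noncomputable def f_pm_001 : ℕ → ℕ → ℕ → ℕ → Bool := onCell 0 536870912 536870912 536870912 923417968 42949674
    (rowB 3 eng mog cd2q0 cd3q1 pd0 0 false true false .up 0 0 1 (qsf 0 536870912 536870912 536870912 0) ndB2q0 ndB3q1 pcB0 Cut.none Ext.none)

def k0_pm_001 : ∃ t, chk3 f_pm_001 t 1 1 1 = true :=
  ⟨(l 4), by decide +kernel⟩

theorem c_pm_001 : CertB 0 536870912 536870912 536870912 923417968 42949674 3 eng mog cd2q0 cd3q1 pd0 false true false .up 0 0 1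
    ndB2q0 ndB3q1 pcB0 Cut.none Ext.none :=
  certB0 (fam := false) (s1 := true) (s2 := false) (a := 0) (b := 0) (c := 1) (cn := .up) (n1 := ndB2q0) (n2 := ndB3q1) (pc := pcB0) (cut := Cut.none) (xt := Ext.none) (P1 := 0) (W1 := 536870912) (P2 := 536870912) (W2 := 536870912) (P3 := 923417968) (W3 := 42949674) (N0 := 3) (En := eng) (mo := mog) (C1 := cd2q0) (C2 := cd3q1) (C3 := pd0)
    rfl k0_pm_001

noncomputable def f_pm_011 : ℕ → ℕ → ℕ → ℕ → Bool := onCell 0 536870912 536870912 536870912 923417968 42949674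
    (rowB 3 eng mog cd2q0 cd3q1 pd1 0 false true false .pnn 0 1 1 (qsf 0 536870912 536870912 536870912 1) ndB2q0 ndB3q1 pcB1 Cut.none Ext.none)

def k0_pm_011 : ∃ t, chk3 f_pm_011 t 1 1 1 = true :=
  ⟨(l 4), by decide +kernel⟩

theorem c_pm_011 : CertB 0 536870912 536870912 536870912 923417968 42949674 3 eng mog cd2q0 cd3q1 pd1 false true false .pnn 0 1 1
    ndB2q0 ndB3q1 pcB1 Cut.none Ext.none :=
  certB0 (fam := false) (s1 := true) (s2 := false) (a := 0) (b := 1) (c := 1) (cn := .pnn) (n1 := ndB2q0) (n2 := ndB3q1) (pc := pcB1) (cut := Cut.none) (xt := Ext.none) (P1 := 0) (W1 := 536870912) (P2 := 536870912) (W2 := 536870912) (P3 := 923417968) (W3 := 42949674) (N0 := 3) (En := eng) (mo := mog) (C1 := cd2q0) (C2 := cd3q1) (C3 := pd1)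
    rfl k0_pm_011

noncomputable def f_pm_012 : ℕ → ℕ → ℕ → ℕ → Bool := onCell 0 536870912 1073741824 536870912 923417968 42949674
    (rowB 3 eng mog cd2q0 cd3q2 pd1 0 false true false .pnp 0 1 2 (qsf 0 536870912 1073741824 536870912 1) ndB2q0 ndB3q2 pcB1 Cut.none Ext.none)

def k0_pm_012 : ∃ t, chk3 f_pm_012 t 1 1 1 = true :=
  ⟨(l 4), by decide +kernel⟩

theorem c_pm_012 : CertB 0 536870912 1073741824 536870912 923417968 42949674 3 eng mog cd2q0 cd3q2 pd1 false true false .pnp 0 1 2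
    ndB2q0 ndB3q2 pcB1 Cut.none Ext.none :=
  certB0 (fam := false) (s1 := true) (s2 := false) (a := 0) (b := 1) (c := 2) (cn := .pnp) (n1 := ndB2q0) (n2 := ndB3q2) (pc := pcB1) (cut := Cut.none) (xt := Ext.none) (P1 := 0) (W1 := 536870912) (P2 := 1073741824) (W2 := 536870912) (P3 := 923417968) (W3 := 42949674) (N0 := 3) (En := eng) (mo := mog) (C1 := cd2q0) (C2 := cd3q2) (C3 := pd1)
    rfl k0_pm_012

noncomputable def f_pm_022 : ℕ → ℕ → ℕ → ℕ → Bool := onCell 0 536870912 1073741824 536870912 923417968 42949674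
    (rowB 3 eng mog cd2q0 cd3q2 pd2 0 false true false .pp 0 2 2 (qsf 0 536870912 1073741824 536870912 2) ndB2q0 ndB3q2 pcB2 Cut.none Ext.none)

def k0_pm_022 : ∃ t, chk3 f_pm_022 t 1 1 1 = true :=
  ⟨(l 4), by decide +kernel⟩

theorem c_pm_022 : CertB 0 536870912 1073741824 536870912 923417968 42949674 3 eng mog cd2q0 cd3q2 pd2 false true false .pp 0 2 2
    ndB2q0 ndB3q2 pcB2 Cut.none Ext.none :=
  certB0 (fam := false) (s1 := true) (s2 := false) (a := 0) (b := 2) (c := 2) (cn := .pp) (n1 := ndB2q0) (n2 := ndB3q2) (pc := pcB2) (cut := Cut.none) (xt := Ext.none) (P1 := 0) (W1 := 536870912) (P2 := 1073741824) (W2 := 536870912) (P3 := 923417968) (W3 := 42949674) (N0 := 3) (En := eng) (mo := mog) (C1 := cd2q0) (C2 := cd3q2) (C3 := pd2)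
    rfl k0_pm_022

noncomputable def f_pm_023 : ℕ → ℕ → ℕ → ℕ → Bool := onCell 0 536870912 0 1230186008 923417968 42949674
    (rowB 3 eng mog cd2q0 cd3q3 pd2 0 false true false .up 0 2 3 (qsf 0 536870912 0 1230186008 2) ndB2q0 ndB3q3 pcB2 Cut.none Ext.none)

def k0_pm_023 : ∃ t, chk3 f_pm_023 t 1 1 1 = true :=
  ⟨(b (l 4) (l 4)), by decide +kernel⟩

theorem c_pm_023 : CertB 0 536870912 0 1230186008 923417968 42949674 3 eng mog cd2q0 cd3q3 pd2 false true false .up 0 2 3
    ndB2q0 ndB3q3 pcB2 Cut.none Ext.none :=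
  certB0 (fam := false) (s1 := true) (s2 := false) (a := 0) (b := 2) (c := 3) (cn := .up) (n1 := ndB2q0) (n2 := ndB3q3) (pc := pcB2) (cut := Cut.none) (xt := Ext.none) (P1 := 0) (W1 := 536870912) (P2 := 0) (W2 := 1230186008) (P3 := 923417968) (W3 := 42949674) (N0 := 3) (En := eng) (mo := mog) (C1 := cd2q0) (C2 := cd3q3) (C3 := pd2)
    rfl k0_pm_023

noncomputable def f_pm_033 : ℕ → ℕ → ℕ → ℕ → Bool := onCell 0 536870912 0 1230186008 923417968 42949674
    (rowB 3 eng mog cd2q0 cd3q3 pd3 0 false true false .pnn 0 3 3 (qsf 0 536870912 0 1230186008 3) ndB2q0 ndB3q3 pcB3 Cut.none Ext.none)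

def k0_pm_033 : ∃ t, chk3 f_pm_033 t 1 1 1 = true :=
  ⟨(b (l 4) (l 4)), by decide +kernel⟩

theorem c_pm_033 : CertB 0 536870912 0 1230186008 923417968 42949674 3 eng mog cd2q0 cd3q3 pd3 false true false .pnn 0 3 3
    ndB2q0 ndB3q3 pcB3 Cut.none Ext.none :=
  certB0 (fam := false) (s1 := true) (s2 := false) (a := 0) (b := 3) (c := 3) (cn := .pnn) (n1 := ndB2q0) (n2 := ndB3q3) (pc := pcB3) (cut := Cut.none) (xt := Ext.none) (P1 := 0) (W1 := 536870912) (P2 := 0) (W2 := 1230186008) (P3 := 923417968) (W3 := 42949674) (N0 := 3) (En := eng) (mo := mog) (C1 := cd2q0) (C2 := cd3q3) (C3 := pd3)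
    rfl k0_pm_033

noncomputable def f_pm_101 : ℕ → ℕ → ℕ → ℕ → Bool := onCell 536870912 536870912 536870912 536870912 923417968 42949674
    (rowB 3 eng mog cd2q1 cd3q1 pd0 0 false true false .npn 1 0 1 (qsf 536870912 536870912 536870912 536870912 0) ndB2q1 ndB3q1 pcB0 Cut.none Ext.none)

def k0_pm_101 : ∃ t, chk3 f_pm_101 t 1 1 1 = true :=
  ⟨(l 4), by decide +kernel⟩

theorem c_pm_101 : CertB 536870912 536870912 536870912 536870912 923417968 42949674 3 eng mog cd2q1 cd3q1 pd0 false true false .npn 1 0 1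
    ndB2q1 ndB3q1 pcB0 Cut.none Ext.none :=
  certB0 (fam := false) (s1 := true) (s2 := false) (a := 1) (b := 0) (c := 1) (cn := .npn) (n1 := ndB2q1) (n2 := ndB3q1) (pc := pcB0) (cut := Cut.none) (xt := Ext.none) (P1 := 536870912) (W1 := 536870912) (P2 := 536870912) (W2 := 536870912) (P3 := 923417968) (W3 := 42949674) (N0 := 3) (En := eng) (mo := mog) (C1 := cd2q1) (C2 := cd3q1) (C3 := pd0)
    rfl k0_pm_101

noncomputable def f_pm_102 : ℕ → ℕ → ℕ → ℕ → Bool := onCell 536870912 536870912 1073741824 536870912 923417968 42949674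
    (rowB 3 eng mog cd2q1 cd3q2 pd0 0 false true false .npp 1 0 2 (qsf 536870912 536870912 1073741824 536870912 0) ndB2q1 ndB3q2 pcB0 Cut.none Ext.none)

def k0_pm_102 : ∃ t, chk3 f_pm_102 t 1 1 1 = true :=
  ⟨(l 4), by decide +kernel⟩

theorem c_pm_102 : CertB 536870912 536870912 1073741824 536870912 923417968 42949674 3 eng mog cd2q1 cd3q2 pd0 false true false .npp 1 0 2
    ndB2q1 ndB3q2 pcB0 Cut.none Ext.none :=
  certB0 (fam := false) (s1 := true) (s2 := false) (a := 1) (b := 0) (c := 2) (cn := .npp) (n1 := ndB2q1) (n2 := ndB3q2) (pc := pcB0) (cut := Cut.none) (xt := Ext.none) (P1 := 536870912) (W1 := 536870912) (P2 := 1073741824) (W2 := 536870912) (P3 := 923417968) (W3 := 42949674) (N0 := 3) (En := eng) (mo := mog) (C1 := cd2q1) (C2 := cd3q2) (C3 := pd0)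
    rfl k0_pm_102

noncomputable def f_pm_112 : ℕ → ℕ → ℕ → ℕ → Bool := onCell 536870912 536870912 1073741824 536870912 923417968 42949674
    (rowB 3 eng mog cd2q1 cd3q2 pd1 0 false true false .dn 1 1 2 (qsf 536870912 536870912 1073741824 536870912 1) ndB2q1 ndB3q2 pcB1 Cut.none Ext.none)

def k0_pm_112 : ∃ t, chk3 f_pm_112 t 1 1 1 = true :=
  ⟨(l 4), by decide +kernel⟩

theorem c_pm_112 : CertB 536870912 536870912 1073741824 536870912 923417968 42949674 3 eng mog cd2q1 cd3q2 pd1 false true false .dn 1 1 2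
    ndB2q1 ndB3q2 pcB1 Cut.none Ext.none :=
  certB0 (fam := false) (s1 := true) (s2 := false) (a := 1) (b := 1) (c := 2) (cn := .dn) (n1 := ndB2q1) (n2 := ndB3q2) (pc := pcB1) (cut := Cut.none) (xt := Ext.none) (P1 := 536870912) (W1 := 536870912) (P2 := 1073741824) (W2 := 536870912) (P3 := 923417968) (W3 := 42949674) (N0 := 3) (En := eng) (mo := mog) (C1 := cd2q1) (C2 := cd3q2) (C3 := pd1)
    rfl k0_pm_112

noncomputable def f_pm_113 : ℕ → ℕ → ℕ → ℕ → Bool := onCell 536870912 536870912 0 1230186008 923417968 42949674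
    (rowB 3 eng mog cd2q1 cd3q3 pd1 0 false true false .nn 1 1 3 (qsf 536870912 536870912 0 1230186008 1) ndB2q1 ndB3q3 pcB1 Cut.none Ext.none)

def k0_pm_113 : ∃ t, chk3 f_pm_113 t 1 1 1 = true :=
  ⟨(b (a (l 2) (b (a (l 2) (a (l 2) (l 16724088))) (l 4))) (l 4)), by decide +kernel⟩

theorem c_pm_113 : CertB 536870912 536870912 0 1230186008 923417968 42949674 3 eng mog cd2q1 cd3q3 pd1 false true false .nn 1 1 3
    ndB2q1 ndB3q3 pcB1 Cut.none Ext.none :=
  certB0 (fam := false) (s1 := true) (s2 := false) (a := 1) (b := 1) (c := 3) (cn := .nn) (n1 := ndB2q1) (n2 := ndB3q3) (pc := pcB1) (cut := Cut.none) (xt := Ext.none) (P1 := 536870912) (W1 := 536870912) (P2 := 0) (W2 := 1230186008) (P3 := 923417968) (W3 := 42949674) (N0 := 3) (En := eng) (mo := mog) (C1 := cd2q1) (C2 := cd3q3) (C3 := pd1)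
    rfl k0_pm_113

noncomputable def f_pm_123 : ℕ → ℕ → ℕ → ℕ → Bool := onCell 536870912 536870912 0 1230186008 923417968 42949674
    (rowB 3 eng mog cd2q1 cd3q3 pd2 0 false true false .npn 1 2 3 (qsf 536870912 536870912 0 1230186008 2) ndB2q1 ndB3q3 pcB2 Cut.none Ext.none)

def k0_pm_123 : ∃ t, chk3 f_pm_123 t 1 1 1 = true :=
  ⟨(b (a (l 4) (b (a (l 4) (a (l 4) (l 16776504))) (l 4))) (l 4)), by decide +kernel⟩

theorem c_pm_123 : CertB 536870912 536870912 0 1230186008 923417968 42949674 3 eng mog cd2q1 cd3q3 pd2 false true false .npn 1 2 3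
    ndB2q1 ndB3q3 pcB2 Cut.none Ext.none :=
  certB0 (fam := false) (s1 := true) (s2 := false) (a := 1) (b := 2) (c := 3) (cn := .npn) (n1 := ndB2q1) (n2 := ndB3q3) (pc := pcB2) (cut := Cut.none) (xt := Ext.none) (P1 := 536870912) (W1 := 536870912) (P2 := 0) (W2 := 1230186008) (P3 := 923417968) (W3 := 42949674) (N0 := 3) (En := eng) (mo := mog) (C1 := cd2q1) (C2 := cd3q3) (C3 := pd2)
    rfl k0_pm_123

noncomputable def f_pm_133 : ℕ → ℕ → ℕ → ℕ → Bool := onCell 1610612736 536870912 0 1230186008 923417968 42949674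
    (rowB 3 eng mog cd2q1 cd3q3 pd3 2 false true false .dn 1 3 3 (qsf 536870912 536870912 0 1230186008 3) ndB2q1 ndB3q3 pcB3 Cut.none Ext.none)

def k0_pm_133 : ∃ t, chk3 f_pm_133 t 1 1 1 = true :=
  ⟨(b (l 4) (l 1)), by decide +kernel⟩

theorem c_pm_133 : CertB 536870912 536870912 0 1230186008 923417968 42949674 3 eng mog cd2q1 cd3q3 pd3 false true false .dn 1 3 3
    ndB2q1 ndB3q3 pcB3 Cut.none Ext.none :=
  certB2 (fam := false) (s1 := true) (s2 := false) (a := 1) (b := 3) (c := 3) (cn := .dn) (n1 := ndB2q1) (n2 := ndB3q3) (pc := pcB3) (cut := Cut.none) (xt := Ext.none) (P1 := 536870912) (W1 := 536870912) (P2 := 0) (W2 := 1230186008) (P3 := 923417968) (W3 := 42949674) (N0 := 3) (En := eng) (mo := mog) (C1 := cd2q1) (C2 := cd3q3) (C3 := pd3)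
    rfl (fun _ => rfl) k0_pm_133

noncomputable def f_pm_202 : ℕ → ℕ → ℕ → ℕ → Bool := onCell 1073741824 536870912 0 536870912 923417968 42949674
    (rowB 3 eng mog cd2q2 cd3q2 pd0 1 false true false .pp 2 0 2 (qsf 1073741824 536870912 1073741824 536870912 0) ndB2q2 ndB3q2 pcB0 Cut.none Ext.none)

def k0_pm_202 : ∃ t, chk3 f_pm_202 t 2 1 1 = true :=
  ⟨(b (a (b (b (a (a (b (c (a (l 15107800) (l 15138992)) (a (l 15047952) (l 15087384))) (a (l 15002864) (l 15041464))) (b (b (l 15187744) (l 15153888)) (l 15102984))) (b (a (l 15247848) (l 15325760)) (a (l 15186944) (l 15271736)))) (a (b (a (l 14949504) (l 15035816)) (a (l 14877352) (l 14969408))) (b (l 15214920) (l 15116216)))) (b (a (b (a (l 14806416) (l 14904232)) (a (l 14737336) (l 14840920))) (b (l 15060680) (l 15007016))) (a (b (a (l 14670784) (l 14780144)) (a (l 14607888) (l 14723032))) (b (l 14955960) (a (l 14842648) (l 14976848)))))) (b (b (a (b (l 15442032) (l 15398600)) (l 15572272)) (a (b (l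 15355288) (l 15312872)) (l 15515920))) (b (b (a (l 15271968) (a (l 15427192) (l 15529920))) (a (l 15321720) (a (l 15406968) (l 15530456)))) (a (b (a (l 15139816) (l 15268088)) (a (l 15117192) (l 15268216))) (l 15248864))))) (b (a (b (a (b (a (l 14550288) (l 14671336)) (a (l 14501816) (l 14637936))) (b (a (l 14807616) (l 14957280)) (l 14917016))) (a (b (a (l 14474360) (l 14627712)) (c (l 14681904) (l 14400784))) (b (c (l 14961616) (l 14777184)) (c (l 14951216) (l 14783456))))) (b (a (b (l 15194912) (l 15197408)) (b (l 15496056) (l 15516680))) (a (b (a (l 15117968) (l 15286816)) (a (l 15127688) (l 15312384))) (b (l 15543464) (l 2))))) (a (a (b (b (c (l 14669296) (l 14405744)) (a (l 14461336) (c (l 14725240) (l 14515336)))) (b (a (c (l 14602184) (l 14347248)) (l 14666120)) (a (l 14546176) (l 14758472)))) (b (b (a (l 14782200) (l 14965104)) (a (l 14808168) (l 15021640))) (a (l 14930392) (l 2)))) (b (a (b (l 15271600) (l 2)) (l 2)) (l 2))))), by decide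 +kernel⟩

def k1_pm_202 : ∃ t, chk3 f_pm_202 t 3 1 1 = true :=
  ⟨(b (a (b (a (b (l 15705944) (b (l 15604704) (l 15676592))) (b (b (l 15811984) (l 15810680)) (b (b (l 15810168) (l 15815112)) (l 15828112)))) (b (b (a (l 15681816) (l 15853440)) (a (l 15700896) (l 15885464))) (a (b (l 15719936) (l 15747160)) (b (l 15920080) (l 2))))) (b (b (a (b (l 15866960) (l 15881536)) (l 15887304)) (b (b (l 15923168) (l 305578034967)) (a (l 15933000) (l 2)))) (b (b (a (l 15966120) (l 2)) (l 2)) (l 2)))) (b (a (b (a (b (l 15773048) (l 2)) (l 2)) (l 2)) (l 2)) (l 2))), by decide +kernel⟩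

theorem s2_pm_202 : ∃ t, chk3 f_pm_202 t 1 1 1 = true := ex3_a k0_pm_202 k1_pm_202

theorem c_pm_202 : CertB 1073741824 536870912 1073741824 536870912 923417968 42949674 3 eng mog cd2q2 cd3q2 pd0 false true false .pp 2 0 2
    ndB2q2 ndB3q2 pcB0 Cut.none Ext.none :=
  certB1 (fam := false) (s1 := true) (s2 := false) (a := 2) (b := 0) (c := 2) (cn := .pp) (n1 := ndB2q2) (n2 := ndB3q2) (pc := pcB0) (cut := Cut.none) (xt := Ext.none) (P1 := 1073741824) (W1 := 536870912) (P2 := 1073741824) (W2 := 536870912) (P3 := 923417968) (W3 := 42949674) (N0 := 3) (En := eng) (mo := mog) (C1 := cd2q2) (C2 := cd3q2) (C3 := pd0)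
    rfl (fun _ => rfl) s2_pm_202

noncomputable def f_pm_203 : ℕ → ℕ → ℕ → ℕ → Bool := onCell 0 536870912 0 1230186008 923417968 42949674
    (rowB 3 eng mog cd2q2 cd3q3 pd0 2 false true false .up 2 0 3 (qsf 1073741824 536870912 0 1230186008 0) ndB2q2 ndB3q3 pcB0 Cut.none Ext.none)

def k0_pm_203 : ∃ t, chk3 f_pm_203 t 1 1 1 = true :=
  ⟨(b (a (l 2) (a (l 2) (b (l 3) (b (l 3) (a (l 3) (b (l 3) (l 16612048))))))) (b (a (b (l 2) (a (l 2) (a (l 2) (b (l 2) (b (l 2) (l 15970240)))))) (a (b (a (l 2) (b (l 3) (l 268065446823))) (a (b (a (l 553613874359) (l 16232072)) (a (l 16106344) (l 16180752))) (b (l 16194632) (l 16174840)))) (b (a (b (l 16546528) (l 16463856)) (b (l 16575568) (l 16546496))) (b (a (l 16435448) (l 16520784)) (a (l 16435664) (l 16539200)))))) (a (b (a (l 2) (a (b (a (l 2) (b (l 2) (l 15766120))) (a (l 665817964887) (l 15713816))) (b (b (l 271218287335) (l 15955192)) (b (l 16019200) (l 16088096))))) (a (b (a (l 2) (a (a (l 441405679687)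 (b (l 2) (l 15702368))) (a (l 452143227559) (l 15539376)))) (a (c (l 473618078215) (l 15324800)) (a (a (l 15752152) (l 15829840)) (a (l 15885840) (l 15940568))))) (a (a (b (b (l 15798424) (l 15867456)) (b (l 15957592) (l 16067528))) (b (l 15713344) (b (l 16077760) (l 16193544)))) (b (c (l 16299952) (l 16083944)) (c (l 16463224) (l 16253168)))))) (b (a (b (a (b (l 16131632) (l 16196296)) (l 16369856)) (a (l 16146512) (l 16541328))) (a (b (l 16549976) (l 16642568)) (b (l 16619648) (l 16443312)))) (a (b (a (l 16490640) (l 16642744)) (a (c (l 16489552) (l 16583152)) (c (l 16260592) (l 16532376)))) (a (b (l 16297520) (b (l 16173496) (a (l 16056368) (l 15873200)))) (b (c (l 15880216) (l 16232136)) (b (c (l 15757072) (l 15904520)) (c (l 15528440) (l 15637680)))))))))), by decide +kernel⟩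

theorem c_pm_203 : CertB 1073741824 536870912 0 1230186008 923417968 42949674 3 eng mog cd2q2 cd3q3 pd0 false true false .up 2 0 3
    ndB2q2 ndB3q3 pcB0 Cut.none Ext.none :=
  certB2 (fam := false) (s1 := true) (s2 := false) (a := 2) (b := 0) (c := 3) (cn := .up) (n1 := ndB2q2) (n2 := ndB3q3) (pc := pcB0) (cut := Cut.none) (xt := Ext.none) (P1 := 1073741824) (W1 := 536870912) (P2 := 0) (W2 := 1230186008) (P3 := 923417968) (W3 := 42949674) (N0 := 3) (En := eng) (mo := mog) (C1 := cd2q2) (C2 := cd3q3) (C3 := pd0)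
    rfl (fun _ => rfl) k0_pm_203

noncomputable def f_pm_213 : ℕ → ℕ → ℕ → ℕ → Bool := onCell 1073741824 536870912 0 1230186008 923417968 42949674
    (rowB 3 eng mog cd2q2 cd3q3 pd1 0 false true false .pnn 2 1 3 (qsf 1073741824 536870912 0 1230186008 1) ndB2q2 ndB3q3 pcB1 Cut.none Ext.none)

def k0_pm_213 : ∃ t, chk3 f_pm_213 t 1 2 1 = true :=
  ⟨(b (a (a (a (b (a (l 16355664) (a (l 16530904) (l 16554776))) (a (b (l 16456928) (l 16450680)) (b (l 16523264) (l 16518696)))) (b (a (b (l 16590024) (l 16583304)) (b (l 16616968) (l 16619576))) (a (l 16406384) (l 16620608)))) (a (b (a (l 309404927239) (l 16532952)) (a (l 16655992) (l 16447704))) (b (l 3) (c (l 330343597895) (l 315848290967))))) (l 3)) (a (a (a (a (b (b (l 16456768) (l 16478784)) (b (l 16523936) (l 16586592))) (b (l 16412576) (l 16633880))) (b (a (l 16561728) (l 16656544)) (b (l 16613872) (l 16510272)))) (b (a (a (l 16696048) (l 16721216)) (a (l 16730872) (l 51706762503))) (a (b (l 16660568)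 (l 16603744)) (b (l 16748872) (l 16709928))))) (a (b (a (c (l 211158377911) (l 190757387927)) (l 3)) (b (a (a (l 16759400) (l 16722960)) (l 181092584007)) (a (l 16728120) (a (l 16724520) (l 16673496))))) (b (l 3) (a (b (l 3) (l 228874271847)) (l 3)))))), by decide +kernel⟩

def k1_pm_213 : ∃ t, chk3 f_pm_213 t 1 3 1 = true :=
  ⟨(b (a (a (b (a (b (a (l 16406376) (l 16349144)) (l 16154880)) (b (l 16404000) (l 16400080))) (a (b (a (l 15923040) (l 16019384)) (a (l 15739392) (l 15882008))) (b (l 16188552) (c (l 16078584) (l 16113960))))) (b (a (b (l 16540880) (a (l 16425136) (l 16505808))) (b (l 16660416) (l 16593008))) (b (a (a (l 16347304) (l 16434680)) (a (l 16496232) (l 16510312))) (a (l 16333200) (l 16486168))))) (a (b (a (b (l 16665416) (l 16590152)) (b (a (l 16690040) (l 16713544)) (l 16432008))) (a (b (a (l 16493536) (l 16495408)) (b (l 16440712) (l 16450856))) (b (a (l 16504248) (l 1)) (l 1)))) (b (a (b (a (l 16640792) (l 1)) (l 1)) (l 1)) (l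 1)))) (a (b (a (b (a (a (l 15598592) (l 15772504)) (c (l 15981344) (l 16054632))) (a (c (l 15611944) (l 15608472)) (c (l 15908504) (l 16019792)))) (b (a (l 16285696) (l 16484976)) (a (l 16253624) (l 1)))) (a (b (a (c (l 15549768) (l 15594792)) (c (l 15868488) (l 16014760))) (a (c (b (l 15538568) (l 15550152)) (l 15396752)) (b (l 15797400) (l 1)))) (b (a (c (l 16137520) (l 16355616)) (l 1)) (l 1)))) (l 1))), by decide +kernel⟩

theorem s2_pm_213 : ∃ t, chk3 f_pm_213 t 1 1 1 = true := ex3_b k0_pm_213 k1_pm_213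

theorem c_pm_213 : CertB 1073741824 536870912 0 1230186008 923417968 42949674 3 eng mog cd2q2 cd3q3 pd1 false true false .pnn 2 1 3
    ndB2q2 ndB3q3 pcB1 Cut.none Ext.none :=
  certB0 (fam := false) (s1 := true) (s2 := false) (a := 2) (b := 1) (c := 3) (cn := .pnn) (n1 := ndB2q2) (n2 := ndB3q3) (pc := pcB1) (cut := Cut.none) (xt := Ext.none) (P1 := 1073741824) (W1 := 536870912) (P2 := 0) (W2 := 1230186008) (P3 := 923417968) (W3 := 42949674) (N0 := 3) (En := eng) (mo := mog) (C1 := cd2q2) (C2 := cd3q3) (C3 := pd1)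
    rfl s2_pm_213

noncomputable def f_pm_303 : ℕ → ℕ → ℕ → ℕ → Bool := onCell 0 1230186008 0 1230186008 923417968 42949674
    (rowB 3 eng mog cd2q3 cd3q3 pd0 0 false true false .npn 3 0 3 (qsf 0 1230186008 0 1230186008 0) ndB2q3 ndB3q3 pcB0 Cut.none Ext.none)

def k0_pm_303 : ∃ t, chk3 f_pm_303 t 2 1 1 = true :=
  ⟨(b (l 3) (b (l 3) (l 1))), by decide +kernel⟩

def k1_pm_303 : ∃ t, chk3 f_pm_303 t 3 2 1 = true :=
  ⟨(a (l 3) (l 3)), by decide +kernel⟩

def k2_pm_303 : ∃ t, chk3 f_pm_303 t 6 3 1 = true :=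
  ⟨(b (l 3) (b (b (l 3) (l 1)) (l 1))), by decide +kernel⟩

def k3_pm_303 : ∃ t, chk3 f_pm_303 t 7 6 1 = true :=
  ⟨(a (b (l 3) (a (l 3) (l 3))) (b (a (l 3) (b (l 3) (l 3))) (a (b (l 3) (a (b (l 3) (l 15785312)) (b (l 15896168) (l 15800048)))) (b (a (l 232630964199) (l 15882336)) (a (b (l 15965552) (l 15876952)) (b (l 16039688) (l 15961472))))))), by decide +kernel⟩

def k4_pm_303 : ∃ t, chk3 f_pm_303 t 14 7 1 = true :=
  ⟨(b (a (b (b (l 3) (b (l 3) (a (l 1) (l 297054557159)))) (b (b (a (l 1) (a (l 1) (l 15112944))) (l 1)) (l 1))) (b (b (a (l 3) (a (b (l 3) (l 15449760)) (l 15530256))) (b (a (l 295980987495) (a (l 15372808) (l 15419208))) (a (a (l 15213160) (l 15257320)) (a (l 15304224) (l 15352784))))) (b (a (b (l 15189272) (l 15146112)) (b (l 15299328) (l 15269320))) (a (b (l 502541726679) (l 1)) (b (l 15225376) (l 15192920)))))) (a (l 1) (b (a (l 1) (b (b (a (l 1) (l 15159096)) (l 1)) (l 1))) (l 1)))), by decide +kernel⟩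

def k5_pm_303 : ∃ t, chk3 f_pm_303 t 15 7 1 = true :=
  ⟨(b (a (b (b (a (a (l 15574704) (l 15617984)) (l 15682048)) (a (b (l 15487704) (a (l 15405152) (l 15460840))) (b (l 15583520) (l 15546888)))) (a (b (b (a (l 15388344) (b (l 15452152) (l 15447824))) (l 15400208)) (l 15370960)) (b (b (a (l 15508808) (l 15565304)) (a (b (l 15502032) (l 15491848)) (l 15558752))) (b (a (l 15480448) (b (l 15552920) (l 15541264))) (l 15488688))))) (b (b (a (l 15771688) (l 15871712)) (a (a (l 15650000) (l 15709112)) (l 15801824))) (a (b (b (l 15650176) (a (l 15612504) (l 15670152))) (a (b (l 15608872) (b (l 15604472) (l 15424288))) (b (l 15659392) (l 15533152)))) (b (b (l 15776728) (l 15757584)) (a (b (l 15715864) (l 15705912)) (l 15760216)))))) (a (b (b (a (b (l 15271520) (l 15248008)) (b (l 15451560) (l 15393120))) (a (l 15225744) (l 15360224))) (b (a (l 1) (l 15322528)) (l 1))) (b (a (b (a (l 15563808) (b (a (l 15402064) (l 15671640)) (a (l 15607960) (b (l 15659128)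 (l 15643832))))) (l 15522584)) (a (b (b (l 15674096) (b (l 15708272) (a (l 15687384) (l 15728464)))) (b (a (l 15657944) (b (l 15710000) (l 15695816))) (l 15636840))) (b (b (l 15751984) (l 15615888)) (a (b (b (l 15751368) (l 15738408)) (l 15709400)) (b (l 15509200) (b (l 15763664) (l 15747312))))))) (a (b (l 15460312) (l 15419848)) (b (l 15624712) (l 15560992)))))), by decide +kernel⟩

theorem s6_pm_303 : ∃ t, chk3 f_pm_303 t 7 7 1 = true := ex3_a k4_pm_303 k5_pm_303

theorem s7_pm_303 : ∃ t, chk3 f_pm_303 t 7 3 1 = true := ex3_b k3_pm_303 s6_pm_303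

theorem s8_pm_303 : ∃ t, chk3 f_pm_303 t 3 3 1 = true := ex3_a k2_pm_303 s7_pm_303

theorem s9_pm_303 : ∃ t, chk3 f_pm_303 t 3 1 1 = true := ex3_b k1_pm_303 s8_pm_303

theorem s10_pm_303 : ∃ t, chk3 f_pm_303 t 1 1 1 = true := ex3_a k0_pm_303 s9_pm_303

theorem c_pm_303 : CertB 0 1230186008 0 1230186008 923417968 42949674 3 eng mog cd2q3 cd3q3 pd0 false true false .npn 3 0 3
    ndB2q3 ndB3q3 pcB0 Cut.none Ext.none :=
  certB0 (fam := false) (s1 := true) (s2 := false) (a := 3) (b := 0) (c := 3) (cn := .npn) (n1 := ndB2q3) (n2 := ndB3q3) (pc := pcB0) (cut := Cut.none) (xt := Ext.none) (P1 := 0) (W1 := 1230186008) (P2 := 0) (W2 := 1230186008) (P3 := 923417968) (W3 := 42949674) (N0 := 3) (En := eng) (mo := mog) (C1 := cd2q3) (C2 := cd3q3) (C3 := pd0)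
    rfl s10_pm_303

noncomputable def f_pm_313 : ℕ → ℕ → ℕ → ℕ → Bool := onCell 0 1230186008 0 1230186008 923417968 42949674
    (rowB 3 eng mog cd2q3 cd3q3 pd1 0 false true false .dn 3 1 3 (qsf 0 1230186008 0 1230186008 1) ndB2q3 ndB3q3 pcB1 Cut.none Ext.none)

def k0_pm_313 : ∃ t, chk3 f_pm_313 t 1 1 1 = true :=
  ⟨(a (l 1) (b (a (l 1) (l 3)) (l 1))), by decide +kernel⟩

theorem c_pm_313 : CertB 0 1230186008 0 1230186008 923417968 42949674 3 eng mog cd2q3 cd3q3 pd1 false true false .dn 3 1 3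
    ndB2q3 ndB3q3 pcB1 Cut.none Ext.none :=
  certB0 (fam := false) (s1 := true) (s2 := false) (a := 3) (b := 1) (c := 3) (cn := .dn) (n1 := ndB2q3) (n2 := ndB3q3) (pc := pcB1) (cut := Cut.none) (xt := Ext.none) (P1 := 0) (W1 := 1230186008) (P2 := 0) (W2 := 1230186008) (P3 := 923417968) (W3 := 42949674) (N0 := 3) (En := eng) (mo := mog) (C1 := cd2q3) (C2 := cd3q3) (C3 := pd1)
    rfl k0_pm_313

noncomputable def f_mm_001 : ℕ → ℕ → ℕ → ℕ → Bool := onCell 0 536870912 0 536870912 923417968 42949674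
    (rowB 3 eng mog cd2q0 cd3q1 pd0 1 false false false .up 0 0 1 (qsf 0 536870912 536870912 536870912 0) ndB2q0 ndB3q1 pcB0 Cut.none Ext.none)

def k0_mm_001 : ∃ t, chk3 f_mm_001 t 1 1 1 = true :=
  ⟨(l 3), by decide +kernel⟩

theorem c_mm_001 : CertB 0 536870912 536870912 536870912 923417968 42949674 3 eng mog cd2q0 cd3q1 pd0 false false false .up 0 0 1
    ndB2q0 ndB3q1 pcB0 Cut.none Ext.none :=
  certB1 (fam := false) (s1 := false) (s2 := false) (a := 0) (b := 0) (c := 1) (cn := .up) (n1 := ndB2q0) (n2 := ndB3q1) (pc := pcB0) (cut := Cut.none) (xt := Ext.none) (P1 := 0) (W1 := 536870912) (P2 := 536870912) (W2 := 536870912) (P3 := 923417968) (W3 := 42949674) (N0 := 3) (En := eng) (mo := mog) (C1 := cd2q0) (C2 := cd3q1) (C3 := pd0)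
    rfl (fun _ => rfl) k0_mm_001

noncomputable def f_mm_011 : ℕ → ℕ → ℕ → ℕ → Bool := onCell 0 536870912 536870912 536870912 923417968 42949674
    (rowB 3 eng mog cd2q0 cd3q1 pd1 1 false false false .pnn 0 1 1 (qsf 0 536870912 536870912 536870912 1) ndB2q0 ndB3q1 pcB1 Cut.none Ext.none)

def k0_mm_011 : ∃ t, chk3 f_mm_011 t 1 1 1 = true :=
  ⟨(l 5), by decide +kernel⟩

theorem c_mm_011 : CertB 0 536870912 536870912 536870912 923417968 42949674 3 eng mog cd2q0 cd3q1 pd1 false false false .pnn 0 1 1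
    ndB2q0 ndB3q1 pcB1 Cut.none Ext.none :=
  certB1 (fam := false) (s1 := false) (s2 := false) (a := 0) (b := 1) (c := 1) (cn := .pnn) (n1 := ndB2q0) (n2 := ndB3q1) (pc := pcB1) (cut := Cut.none) (xt := Ext.none) (P1 := 0) (W1 := 536870912) (P2 := 536870912) (W2 := 536870912) (P3 := 923417968) (W3 := 42949674) (N0 := 3) (En := eng) (mo := mog) (C1 := cd2q0) (C2 := cd3q1) (C3 := pd1)
    rfl (fun _ => rfl) k0_mm_011

noncomputable def f_mm_012 : ℕ → ℕ → ℕ → ℕ → Bool := onCell 0 536870912 1073741824 536870912 923417968 42949674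
    (rowB 3 eng mog cd2q0 cd3q2 pd1 0 false false false .pnp 0 1 2 (qsf 0 536870912 1073741824 536870912 1) ndB2q0 ndB3q2 pcB1 Cut.none Ext.none)

def k0_mm_012 : ∃ t, chk3 f_mm_012 t 1 1 1 = true :=
  ⟨(l 5), by decide +kernel⟩

theorem c_mm_012 : CertB 0 536870912 1073741824 536870912 923417968 42949674 3 eng mog cd2q0 cd3q2 pd1 false false false .pnp 0 1 2
    ndB2q0 ndB3q2 pcB1 Cut.none Ext.none :=
  certB0 (fam := false) (s1 := false) (s2 := false) (a := 0) (b := 1) (c := 2) (cn := .pnp) (n1 := ndB2q0) (n2 := ndB3q2) (pc := pcB1) (cut := Cut.none) (xt := Ext.none) (P1 := 0) (W1 := 536870912) (P2 := 1073741824) (W2 := 536870912) (P3 := 923417968) (W3 := 42949674) (N0 := 3) (En := eng) (mo := mog) (C1 := cd2q0) (C2 := cd3q2) (C3 := pd1)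
    rfl k0_mm_012

noncomputable def f_mm_022 : ℕ → ℕ → ℕ → ℕ → Bool := onCell 0 536870912 1073741824 536870912 923417968 42949674
    (rowB 3 eng mog cd2q0 cd3q2 pd2 0 false false false .pp 0 2 2 (qsf 0 536870912 1073741824 536870912 2) ndB2q0 ndB3q2 pcB2 Cut.none Ext.none)

def k0_mm_022 : ∃ t, chk3 f_mm_022 t 1 1 1 = true :=
  ⟨(l 5), by decide +kernel⟩

theorem c_mm_022 : CertB 0 536870912 1073741824 536870912 923417968 42949674 3 eng mog cd2q0 cd3q2 pd2 false false false .pp 0 2 2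
    ndB2q0 ndB3q2 pcB2 Cut.none Ext.none :=
  certB0 (fam := false) (s1 := false) (s2 := false) (a := 0) (b := 2) (c := 2) (cn := .pp) (n1 := ndB2q0) (n2 := ndB3q2) (pc := pcB2) (cut := Cut.none) (xt := Ext.none) (P1 := 0) (W1 := 536870912) (P2 := 1073741824) (W2 := 536870912) (P3 := 923417968) (W3 := 42949674) (N0 := 3) (En := eng) (mo := mog) (C1 := cd2q0) (C2 := cd3q2) (C3 := pd2)
    rfl k0_mm_022

noncomputable def f_mm_023 : ℕ → ℕ → ℕ → ℕ → Bool := onCell 0 536870912 0 1230186008 923417968 42949674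
    (rowB 3 eng mog cd2q0 cd3q3 pd2 0 false false false .up 0 2 3 (qsf 0 536870912 0 1230186008 2) ndB2q0 ndB3q3 pcB2 Cut.none Ext.none)

def k0_mm_023 : ∃ t, chk3 f_mm_023 t 1 1 1 = true :=
  ⟨(l 5), by decide +kernel⟩

theorem c_mm_023 : CertB 0 536870912 0 1230186008 923417968 42949674 3 eng mog cd2q0 cd3q3 pd2 false false false .up 0 2 3
    ndB2q0 ndB3q3 pcB2 Cut.none Ext.none :=
  certB0 (fam := false) (s1 := false) (s2 := false) (a := 0) (b := 2) (c := 3) (cn := .up) (n1 := ndB2q0) (n2 := ndB3q3) (pc := pcB2) (cut := Cut.none) (xt := Ext.none) (P1 := 0) (W1 := 536870912) (P2 := 0) (W2 := 1230186008) (P3 := 923417968) (W3 := 42949674) (N0 := 3) (En := eng) (mo := mog) (C1 := cd2q0) (C2 := cd3q3) (C3 := pd2)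
    rfl k0_mm_023

noncomputable def f_mm_033 : ℕ → ℕ → ℕ → ℕ → Bool := onCell 0 536870912 0 1230186008 923417968 42949674
    (rowB 3 eng mog cd2q0 cd3q3 pd3 0 false false false .pnn 0 3 3 (qsf 0 536870912 0 1230186008 3) ndB2q0 ndB3q3 pcB3 Cut.none Ext.none)

def k0_mm_033 : ∃ t, chk3 f_mm_033 t 1 1 1 = true :=
  ⟨(l 5), by decide +kernel⟩

theorem c_mm_033 : CertB 0 536870912 0 1230186008 923417968 42949674 3 eng mog cd2q0 cd3q3 pd3 false false false .pnn 0 3 3
    ndB2q0 ndB3q3 pcB3 Cut.none Ext.none :=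
  certB0 (fam := false) (s1 := false) (s2 := false) (a := 0) (b := 3) (c := 3) (cn := .pnn) (n1 := ndB2q0) (n2 := ndB3q3) (pc := pcB3) (cut := Cut.none) (xt := Ext.none) (P1 := 0) (W1 := 536870912) (P2 := 0) (W2 := 1230186008) (P3 := 923417968) (W3 := 42949674) (N0 := 3) (En := eng) (mo := mog) (C1 := cd2q0) (C2 := cd3q3) (C3 := pd3)
    rfl k0_mm_033

noncomputable def f_mm_101 : ℕ → ℕ → ℕ → ℕ → Bool := onCell 536870912 536870912 536870912 536870912 923417968 42949674
    (rowB 3 eng mog cd2q1 cd3q1 pd0 0 false false false .npn 1 0 1 (qsf 536870912 536870912 536870912 536870912 0) ndB2q1 ndB3q1 pcB0 Cut.none Ext.none)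

def k0_mm_101 : ∃ t, chk3 f_mm_101 t 1 1 1 = true :=
  ⟨(l 3), by decide +kernel⟩

theorem c_mm_101 : CertB 536870912 536870912 536870912 536870912 923417968 42949674 3 eng mog cd2q1 cd3q1 pd0 false false false .npn 1 0 1
    ndB2q1 ndB3q1 pcB0 Cut.none Ext.none :=
  certB0 (fam := false) (s1 := false) (s2 := false) (a := 1) (b := 0) (c := 1) (cn := .npn) (n1 := ndB2q1) (n2 := ndB3q1) (pc := pcB0) (cut := Cut.none) (xt := Ext.none) (P1 := 536870912) (W1 := 536870912) (P2 := 536870912) (W2 := 536870912) (P3 := 923417968) (W3 := 42949674) (N0 := 3) (En := eng) (mo := mog) (C1 := cd2q1) (C2 := cd3q1) (C3 := pd0)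
    rfl k0_mm_101

noncomputable def f_mm_102 : ℕ → ℕ → ℕ → ℕ → Bool := onCell 536870912 536870912 1073741824 536870912 923417968 42949674
    (rowB 3 eng mog cd2q1 cd3q2 pd0 0 false false false .npp 1 0 2 (qsf 536870912 536870912 1073741824 536870912 0) ndB2q1 ndB3q2 pcB0 Cut.none Ext.none)

def k0_mm_102 : ∃ t, chk3 f_mm_102 t 1 1 1 = true :=
  ⟨(l 5), by decide +kernel⟩

theorem c_mm_102 : CertB 536870912 536870912 1073741824 536870912 923417968 42949674 3 eng mog cd2q1 cd3q2 pd0 false false false .npp 1 0 2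
    ndB2q1 ndB3q2 pcB0 Cut.none Ext.none :=
  certB0 (fam := false) (s1 := false) (s2 := false) (a := 1) (b := 0) (c := 2) (cn := .npp) (n1 := ndB2q1) (n2 := ndB3q2) (pc := pcB0) (cut := Cut.none) (xt := Ext.none) (P1 := 536870912) (W1 := 536870912) (P2 := 1073741824) (W2 := 536870912) (P3 := 923417968) (W3 := 42949674) (N0 := 3) (En := eng) (mo := mog) (C1 := cd2q1) (C2 := cd3q2) (C3 := pd0)
    rfl k0_mm_102

noncomputable def f_mm_112 : ℕ → ℕ → ℕ → ℕ → Bool := onCell 536870912 536870912 1073741824 536870912 923417968 42949674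
    (rowB 3 eng mog cd2q1 cd3q2 pd1 0 false false false .dn 1 1 2 (qsf 536870912 536870912 1073741824 536870912 1) ndB2q1 ndB3q2 pcB1 Cut.none Ext.none)

def k0_mm_112 : ∃ t, chk3 f_mm_112 t 1 1 1 = true :=
  ⟨(l 5), by decide +kernel⟩

theorem c_mm_112 : CertB 536870912 536870912 1073741824 536870912 923417968 42949674 3 eng mog cd2q1 cd3q2 pd1 false false false .dn 1 1 2
    ndB2q1 ndB3q2 pcB1 Cut.none Ext.none :=
  certB0 (fam := false) (s1 := false) (s2 := false) (a := 1) (b := 1) (c := 2) (cn := .dn) (n1 := ndB2q1) (n2 := ndB3q2) (pc := pcB1) (cut := Cut.none) (xt := Ext.none) (P1 := 536870912) (W1 := 536870912) (P2 := 1073741824) (W2 := 536870912) (P3 := 923417968) (W3 := 42949674) (N0 := 3) (En := eng) (mo := mog) (C1 := cd2q1) (C2 := cd3q2) (C3 := pd1)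
    rfl k0_mm_112

noncomputable def f_mm_113 : ℕ → ℕ → ℕ → ℕ → Bool := onCell 536870912 536870912 0 1230186008 923417968 42949674
    (rowB 3 eng mog cd2q1 cd3q3 pd1 0 false false false .nn 1 1 3 (qsf 536870912 536870912 0 1230186008 1) ndB2q1 ndB3q3 pcB1 Cut.none Ext.none)

def k0_mm_113 : ∃ t, chk3 f_mm_113 t 1 1 1 = true :=
  ⟨(l 5), by decide +kernel⟩

theorem c_mm_113 : CertB 536870912 536870912 0 1230186008 923417968 42949674 3 eng mog cd2q1 cd3q3 pd1 false false false .nn 1 1 3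
    ndB2q1 ndB3q3 pcB1 Cut.none Ext.none :=
  certB0 (fam := false) (s1 := false) (s2 := false) (a := 1) (b := 1) (c := 3) (cn := .nn) (n1 := ndB2q1) (n2 := ndB3q3) (pc := pcB1) (cut := Cut.none) (xt := Ext.none) (P1 := 536870912) (W1 := 536870912) (P2 := 0) (W2 := 1230186008) (P3 := 923417968) (W3 := 42949674) (N0 := 3) (En := eng) (mo := mog) (C1 := cd2q1) (C2 := cd3q3) (C3 := pd1)
    rfl k0_mm_113

noncomputable def f_mm_123 : ℕ → ℕ → ℕ → ℕ → Bool := onCell 536870912 536870912 0 1230186008 923417968 42949674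
    (rowB 3 eng mog cd2q1 cd3q3 pd2 0 false false false .npn 1 2 3 (qsf 536870912 536870912 0 1230186008 2) ndB2q1 ndB3q3 pcB2 Cut.none Ext.none)

def k0_mm_123 : ∃ t, chk3 f_mm_123 t 1 1 1 = true :=
  ⟨(l 5), by decide +kernel⟩

theorem c_mm_123 : CertB 536870912 536870912 0 1230186008 923417968 42949674 3 eng mog cd2q1 cd3q3 pd2 false false false .npn 1 2 3
    ndB2q1 ndB3q3 pcB2 Cut.none Ext.none :=
  certB0 (fam := false) (s1 := false) (s2 := false) (a := 1) (b := 2) (c := 3) (cn := .npn) (n1 := ndB2q1) (n2 := ndB3q3) (pc := pcB2) (cut := Cut.none) (xt := Ext.none) (P1 := 536870912) (W1 := 536870912) (P2 := 0) (W2 := 1230186008) (P3 := 923417968) (W3 := 42949674) (N0 := 3) (En := eng) (mo := mog) (C1 := cd2q1) (C2 := cd3q3) (C3 := pd2)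
    rfl k0_mm_123

noncomputable def f_mm_133 : ℕ → ℕ → ℕ → ℕ → Bool := onCell 536870912 536870912 0 1230186008 923417968 42949674
    (rowB 3 eng mog cd2q1 cd3q3 pd3 0 false false false .dn 1 3 3 (qsf 536870912 536870912 0 1230186008 3) ndB2q1 ndB3q3 pcB3 Cut.none Ext.none)

def k0_mm_133 : ∃ t, chk3 f_mm_133 t 1 1 1 = true :=
  ⟨(l 5), by decide +kernel⟩

theorem c_mm_133 : CertB 536870912 536870912 0 1230186008 923417968 42949674 3 eng mog cd2q1 cd3q3 pd3 false false false .dn 1 3 3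
    ndB2q1 ndB3q3 pcB3 Cut.none Ext.none :=
  certB0 (fam := false) (s1 := false) (s2 := false) (a := 1) (b := 3) (c := 3) (cn := .dn) (n1 := ndB2q1) (n2 := ndB3q3) (pc := pcB3) (cut := Cut.none) (xt := Ext.none) (P1 := 536870912) (W1 := 536870912) (P2 := 0) (W2 := 1230186008) (P3 := 923417968) (W3 := 42949674) (N0 := 3) (En := eng) (mo := mog) (C1 := cd2q1) (C2 := cd3q3) (C3 := pd3)
    rfl k0_mm_133

noncomputable def f_mm_202 : ℕ → ℕ → ℕ → ℕ → Bool := onCell 1073741824 536870912 1073741824 536870912 923417968 42949674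
    (rowB 3 eng mog cd2q2 cd3q2 pd0 0 false false false .pp 2 0 2 (qsf 1073741824 536870912 1073741824 536870912 0) ndB2q2 ndB3q2 pcB0 Cut.none Ext.none)

def k0_mm_202 : ∃ t, chk3 f_mm_202 t 1 1 1 = true :=
  ⟨(l 3), by decide +kernel⟩

theorem c_mm_202 : CertB 1073741824 536870912 1073741824 536870912 923417968 42949674 3 eng mog cd2q2 cd3q2 pd0 false false false .pp 2 0 2
    ndB2q2 ndB3q2 pcB0 Cut.none Ext.none :=
  certB0 (fam := false) (s1 := false) (s2 := false) (a := 2) (b := 0) (c := 2) (cn := .pp) (n1 := ndB2q2) (n2 := ndB3q2) (pc := pcB0) (cut := Cut.none) (xt := Ext.none) (P1 := 1073741824) (W1 := 536870912) (P2 := 1073741824) (W2 := 536870912) (P3 := 923417968) (W3 := 42949674) (N0 := 3) (En := eng) (mo := mog) (C1 := cd2q2) (C2 := cd3q2) (C3 := pd0)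
    rfl k0_mm_202

noncomputable def f_mm_203 : ℕ → ℕ → ℕ → ℕ → Bool := onCell 1073741824 536870912 0 1230186008 923417968 42949674
    (rowB 3 eng mog cd2q2 cd3q3 pd0 0 false false false .up 2 0 3 (qsf 1073741824 536870912 0 1230186008 0) ndB2q2 ndB3q3 pcB0 Cut.none Ext.none)

def k0_mm_203 : ∃ t, chk3 f_mm_203 t 1 1 1 = true :=
  ⟨(b (l 5) (l 3)), by decide +kernel⟩

theorem c_mm_203 : CertB 1073741824 536870912 0 1230186008 923417968 42949674 3 eng mog cd2q2 cd3q3 pd0 false false false .up 2 0 3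
    ndB2q2 ndB3q3 pcB0 Cut.none Ext.none :=
  certB0 (fam := false) (s1 := false) (s2 := false) (a := 2) (b := 0) (c := 3) (cn := .up) (n1 := ndB2q2) (n2 := ndB3q3) (pc := pcB0) (cut := Cut.none) (xt := Ext.none) (P1 := 1073741824) (W1 := 536870912) (P2 := 0) (W2 := 1230186008) (P3 := 923417968) (W3 := 42949674) (N0 := 3) (En := eng) (mo := mog) (C1 := cd2q2) (C2 := cd3q3) (C3 := pd0)
    rfl k0_mm_203

noncomputable def f_mm_213 : ℕ → ℕ → ℕ → ℕ → Bool := onCell 1073741824 536870912 0 1230186008 923417968 42949674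
    (rowB 3 eng mog cd2q2 cd3q3 pd1 0 false false false .pnn 2 1 3 (qsf 1073741824 536870912 0 1230186008 1) ndB2q2 ndB3q3 pcB1 Cut.none Ext.none)

def k0_mm_213 : ∃ t, chk3 f_mm_213 t 1 1 1 = true :=
  ⟨(b (l 5) (l 3)), by decide +kernel⟩

theorem c_mm_213 : CertB 1073741824 536870912 0 1230186008 923417968 42949674 3 eng mog cd2q2 cd3q3 pd1 false false false .pnn 2 1 3
    ndB2q2 ndB3q3 pcB1 Cut.none Ext.none :=
  certB0 (fam := false) (s1 := false) (s2 := false) (a := 2) (b := 1) (c := 3) (cn := .pnn) (n1 := ndB2q2) (n2 := ndB3q3) (pc := pcB1) (cut := Cut.none) (xt := Ext.none) (P1 := 1073741824) (W1 := 536870912) (P2 := 0) (W2 := 1230186008) (P3 := 923417968) (W3 := 42949674) (N0 := 3) (En := eng) (mo := mog) (C1 := cd2q2) (C2 := cd3q3) (C3 := pd1)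
    rfl k0_mm_213

noncomputable def f_mm_303 : ℕ → ℕ → ℕ → ℕ → Bool := onCell 0 1230186008 0 1230186008 923417968 42949674
    (rowB 3 eng mog cd2q3 cd3q3 pd0 0 false false false .npn 3 0 3 (qsf 0 1230186008 0 1230186008 0) ndB2q3 ndB3q3 pcB0 Cut.none Ext.none)

def k0_mm_303 : ∃ t, chk3 f_mm_303 t 1 1 1 = true :=
  ⟨(a (b (l 3) (l 3)) (b (l 3) (l 3))), by decide +kernel⟩

theorem c_mm_303 : CertB 0 1230186008 0 1230186008 923417968 42949674 3 eng mog cd2q3 cd3q3 pd0 false false false .npn 3 0 3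
    ndB2q3 ndB3q3 pcB0 Cut.none Ext.none :=
  certB0 (fam := false) (s1 := false) (s2 := false) (a := 3) (b := 0) (c := 3) (cn := .npn) (n1 := ndB2q3) (n2 := ndB3q3) (pc := pcB0) (cut := Cut.none) (xt := Ext.none) (P1 := 0) (W1 := 1230186008) (P2 := 0) (W2 := 1230186008) (P3 := 923417968) (W3 := 42949674) (N0 := 3) (En := eng) (mo := mog) (C1 := cd2q3) (C2 := cd3q3) (C3 := pd0)
    rfl k0_mm_303

noncomputable def f_mm_313 : ℕ → ℕ → ℕ → ℕ → Bool := onCell 0 1230186008 0 1230186008 923417968 42949674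
    (rowB 3 eng mog cd2q3 cd3q3 pd1 0 false false false .dn 3 1 3 (qsf 0 1230186008 0 1230186008 1) ndB2q3 ndB3q3 pcB1 Cut.none Ext.none)

def k0_mm_313 : ∃ t, chk3 f_mm_313 t 1 1 1 = true :=
  ⟨(a (l 1) (b (l 3) (l 1))), by decide +kernel⟩

theorem c_mm_313 : CertB 0 1230186008 0 1230186008 923417968 42949674 3 eng mog cd2q3 cd3q3 pd1 false false false .dn 3 1 3
    ndB2q3 ndB3q3 pcB1 Cut.none Ext.none :=
  certB0 (fam := false) (s1 := false) (s2 := false) (a := 3) (b := 1) (c := 3) (cn := .dn) (n1 := ndB2q3) (n2 := ndB3q3) (pc := pcB1) (cut := Cut.none) (xt := Ext.none) (P1 := 0) (W1 := 1230186008) (P2 := 0) (W2 := 1230186008) (P3 := 923417968) (W3 := 42949674) (N0 := 3) (En := eng) (mo := mog) (C1 := cd2q3) (C2 := cd3q3) (C3 := pd1)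
    rfl k0_mm_313

end Pool.Agent.Strip051.G.I8600_9000.Tab.C.BB23

namespace Pool.Agent.Strip051.G.I8600_9000.Tab.C.BB24

open Pool.Agent.Strip051.PB Pool.Agent.Strip051.PB.T
open Pool.Agent.Strip051.G.I8600_9000.Tab

noncomputable def f_pp_001 : ℕ → ℕ → ℕ → ℕ → Bool := onCell 0 536870912 0 536870912 923417968 42949674
    (rowB 3 eng mog cd2q0 cd4q1 pd0 1 false true true .up 0 0 1 (qsf 0 536870912 536870912 536870912 0) ndB2q0 ndB4q1 pcB0 Cut.none Ext.none)

def k0_pp_001 : ∃ t, chk3 f_pp_001 t 1 1 1 = true :=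
  ⟨(l 3), by decide +kernel⟩

theorem c_pp_001 : CertB 0 536870912 536870912 536870912 923417968 42949674 3 eng mog cd2q0 cd4q1 pd0 false true true .up 0 0 1
    ndB2q0 ndB4q1 pcB0 Cut.none Ext.none :=
  certB1 (fam := false) (s1 := true) (s2 := true) (a := 0) (b := 0) (c := 1) (cn := .up) (n1 := ndB2q0) (n2 := ndB4q1) (pc := pcB0) (cut := Cut.none) (xt := Ext.none) (P1 := 0) (W1 := 536870912) (P2 := 536870912) (W2 := 536870912) (P3 := 923417968) (W3 := 42949674) (N0 := 3) (En := eng) (mo := mog) (C1 := cd2q0) (C2 := cd4q1) (C3 := pd0)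
    rfl (fun _ => rfl) k0_pp_001

noncomputable def f_pp_011 : ℕ → ℕ → ℕ → ℕ → Bool := onCell 0 536870912 536870912 536870912 923417968 42949674
    (rowB 3 eng mog cd2q0 cd4q1 pd1 0 false true true .pnn 0 1 1 (qsf 0 536870912 536870912 536870912 1) ndB2q0 ndB4q1 pcB1 Cut.none Ext.none)

def k0_pp_011 : ∃ t, chk3 f_pp_011 t 1 1 1 = true :=
  ⟨(a (b (l 3) (l 3)) (l 3)), by decide +kernel⟩

theorem c_pp_011 : CertB 0 536870912 536870912 536870912 923417968 42949674 3 eng mog cd2q0 cd4q1 pd1 false true true .pnn 0 1 1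
    ndB2q0 ndB4q1 pcB1 Cut.none Ext.none :=
  certB0 (fam := false) (s1 := true) (s2 := true) (a := 0) (b := 1) (c := 1) (cn := .pnn) (n1 := ndB2q0) (n2 := ndB4q1) (pc := pcB1) (cut := Cut.none) (xt := Ext.none) (P1 := 0) (W1 := 536870912) (P2 := 536870912) (W2 := 536870912) (P3 := 923417968) (W3 := 42949674) (N0 := 3) (En := eng) (mo := mog) (C1 := cd2q0) (C2 := cd4q1) (C3 := pd1)
    rfl k0_pp_011

noncomputable def f_pp_012 : ℕ → ℕ → ℕ → ℕ → Bool := onCell 536870912 536870912 1073741824 536870912 923417968 42949674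
    (rowB 3 eng mog cd2q0 cd4q2 pd1 2 false true true .pnp 0 1 2 (qsf 0 536870912 1073741824 536870912 1) ndB2q0 ndB4q2 pcB1 Cut.none Ext.none)

def k0_pp_012 : ∃ t, chk3 f_pp_012 t 1 1 1 = true :=
  ⟨(b (l 3) (l 3)), by decide +kernel⟩

theorem c_pp_012 : CertB 0 536870912 1073741824 536870912 923417968 42949674 3 eng mog cd2q0 cd4q2 pd1 false true true .pnp 0 1 2
    ndB2q0 ndB4q2 pcB1 Cut.none Ext.none :=
  certB2 (fam := false) (s1 := true) (s2 := true) (a := 0) (b := 1) (c := 2) (cn := .pnp) (n1 := ndB2q0) (n2 := ndB4q2) (pc := pcB1) (cut := Cut.none) (xt := Ext.none) (P1 := 0) (W1 := 536870912) (P2 := 1073741824) (W2 := 536870912) (P3 := 923417968) (W3 := 42949674) (N0 := 3) (En := eng) (mo := mog) (C1 := cd2q0) (C2 := cd4q2) (C3 := pd1)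
    rfl (fun _ => rfl) k0_pp_012

noncomputable def f_pp_022 : ℕ → ℕ → ℕ → ℕ → Bool := onCell 0 536870912 1073741824 536870912 923417968 42949674
    (rowB 3 eng mog cd2q0 cd4q2 pd2 1 false true true .pp 0 2 2 (qsf 0 536870912 1073741824 536870912 2) ndB2q0 ndB4q2 pcB2 Cut.none Ext.none)

def k0_pp_022 : ∃ t, chk3 f_pp_022 t 2 2 1 = true :=
  ⟨(a (b (b (l 3) (a (b (a (b (a (l 395840855783) (l 3)) (a (l 16479552) (l 16450216))) (l 3)) (a (b (a (l 16475640) (l 16452864)) (a (l 16466968) (l 16448600))) (b (l 16322120) (l 16367008)))) (a (b (l 3) (a (b (l 3) (l 16372120)) (l 3))) (l 3)))) (a (a (b (b (b (a (l 16459144) (l 16439536)) (b (l 16444936) (l 16445400))) (l 16433704)) (b (l 16377776) (l 16286832))) (b (b (b (l 16406544) (b (l 16398864) (b (l 16397504) (l 16398328)))) (l 16392160)) (l 16241536))) (a (b (b (b (a (l 16368896) (a (l 16332120) (l 16355152))) (a (b (l 16360632) (b (l 16358528) (l 16358592))) (b (l 16347944) (b (l 16346096) (l 16346496)))))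 (a (l 16357104) (l 16347592))) (a (l 16349416) (l 16346824))) (b (b (b (a (l 16360136) (l 3)) (b (a (l 16352920) (l 16355888)) (b (a (l 16350816) (l 16353776)) (a (l 16351424) (l 16354616))))) (a (l 16353504) (l 16357792))) (a (l 16355384) (l 16361824)))))) (b (l 3) (a (b (b (b (l 3) (a (b (l 16363384) (b (l 16361544) (l 16341664))) (b (l 3) (b (l 3) (l 16343800))))) (a (l 16366800) (l 16351984))) (a (l 16374472) (l 16373952))) (b (b (b (l 3) (b (l 3) (b (l 16259208) (l 16264184)))) (l 16285408)) (l 16305216))))), by decide +kernel⟩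

def k1_pp_022 : ∃ t, chk3 f_pp_022 t 2 3 1 = true :=
  ⟨(a (b (a (b (a (b (l 16197616) (l 16110616)) (l 16288280)) (a (l 15986408) (l 16121512))) (a (a (b (l 16330344) (l 16227552)) (b (l 16337328) (l 16275592))) (b (a (l 16349880) (l 16362184)) (l 16288408)))) (a (b (a (l 15805080) (l 15944512)) (a (l 15674760) (l 15816600))) (a (a (b (l 16075440) (l 15933576)) (b (l 16125472) (l 2))) (b (l 16141280) (l 2))))) (a (b (a (b (l 16382096) (l 16328680)) (b (l 16402544) (l 16397520))) (a (b (l 16191080) (l 2)) (l 2))) (b (b (l 16435728) (l 16519104)) (l 2)))), by decide +kernel⟩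

def k2_pp_022 : ∃ t, chk3 f_pp_022 t 3 1 1 = true :=
  ⟨(b (b (b (l 3) (a (b (l 3) (a (l 3) (l 742658495191))) (b (a (l 3) (l 15819688)) (a (l 270211825511) (l 2))))) (a (b (b (b (a (l 16104352) (l 15994096)) (b (a (l 16134176) (l 16034872)) (b (a (l 16149368) (l 16053696)) (a (l 16158376) (l 16064784))))) (a (l 16197880) (l 16120928))) (a (b (l 16272688) (l 16353152)) (l 16207704))) (b (b (b (a (l 15923192) (l 2)) (l 2)) (l 2)) (l 2)))) (a (b (a (b (l 16472272) (l 2)) (l 2)) (l 2)) (l 2))), by decide +kernel⟩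

theorem s3_pp_022 : ∃ t, chk3 f_pp_022 t 2 1 1 = true := ex3_b k0_pp_022 k1_pp_022

theorem s4_pp_022 : ∃ t, chk3 f_pp_022 t 1 1 1 = true := ex3_a s3_pp_022 k2_pp_022

theorem c_pp_022 : CertB 0 536870912 1073741824 536870912 923417968 42949674 3 eng mog cd2q0 cd4q2 pd2 false true true .pp 0 2 2
    ndB2q0 ndB4q2 pcB2 Cut.none Ext.none :=
  certB1 (fam := false) (s1 := true) (s2 := true) (a := 0) (b := 2) (c := 2) (cn := .pp) (n1 := ndB2q0) (n2 := ndB4q2) (pc := pcB2) (cut := Cut.none) (xt := Ext.none) (P1 := 0) (W1 := 536870912) (P2 := 1073741824) (W2 := 536870912) (P3 := 923417968) (W3 := 42949674) (N0 := 3) (En := eng) (mo := mog) (C1 := cd2q0) (C2 := cd4q2) (C3 := pd2)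
    rfl (fun _ => rfl) s4_pp_022

noncomputable def f_pp_023 : ℕ → ℕ → ℕ → ℕ → Bool := onCell 1073741824 536870912 0 1230186008 923417968 42949674
    (rowB 3 eng mog cd2q0 cd4q3 pd2 2 false true true .up 0 2 3 (qsf 0 536870912 0 1230186008 2) ndB2q0 ndB4q3 pcB2 Cut.none Ext.none)

def k0_pp_023 : ∃ t, chk3 f_pp_023 t 1 1 1 = true :=
  ⟨(b (a (l 2) (a (l 2) (a (b (l 2) (l 16679912)) (b (l 16409216) (l 16731072))))) (b (a (b (l 2) (a (l 2) (b (l 2) (a (l 2) (l 16179184))))) (b (a (b (l 16338792) (l 16409800)) (b (l 16309224) (l 16457776))) (a (b (l 16409424) (a (l 16229488) (l 16314584))) (b (l 16660632) (a (l 16465664) (l 16674320)))))) (b (a (a (l 2) (a (b (l 15997584) (l 15970624)) (l 16044536))) (a (b (l 16330672) (l 16511104)) (b (l 16713560) (a (l 16651768) (a (l 16380392) (b (l 16257408) (l 16124352))))))) (a (a (a (b (l 2) (l 3)) (a (b (l 15699240) (l 15804536)) (b (l 15804200) (l 15825480)))) (a (a (a (b (l 15892008) (l 15927752)) (b (l 15951640)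 (a (l 15980736) (a (l 16006544) (l 16022344))))) (b (l 16047408) (l 16100280))) (b (l 16244936) (l 16293160)))) (a (b (a (l 16481536) (l 16598912)) (a (l 16460240) (b (l 16500344) (a (l 16450408) (b (l 16351336) (l 16305248)))))) (b (a (b (l 16449144) (a (l 16401840) (l 16216760))) (b (a (l 16168408) (a (l 16063120) (l 15994352))) (a (b (l 16098584) (l 16054336)) (b (a (l 16016776) (l 15952872)) (a (l 15977872) (l 15918448)))))) (a (b (a (b (l 16296800) (l 16246824)) (b (l 16151656) (l 16109592))) (a (b (l 16211408) (a (l 16218696) (l 16158120))) (b (a (l 16128152) (l 16061096)) (a (l 16107808) (b (l 16055512) (l 16020360)))))) (b (b (a (a (l 16069408) (l 15962520)) (a (b (l 15970752) (l 15900984)) (b (l 15626472) (l 15854408)))) (a (a (l 15927688) (b (l 15998872) (l 15864928))) (a (a (l 15908000) (l 15873824)) (l 15789944)))) (a (a (b (b (l 16006512) (l 15995816)) (b (a (l 15993688) (l 15945824)) (l 15929832))) (b (b (l 15928280) (l 15905648)) (l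 15840488))) (l 15719400)))))))))), by decide +kernel⟩

theorem c_pp_023 : CertB 0 536870912 0 1230186008 923417968 42949674 3 eng mog cd2q0 cd4q3 pd2 false true true .up 0 2 3
    ndB2q0 ndB4q3 pcB2 Cut.none Ext.none :=
  certB2 (fam := false) (s1 := true) (s2 := true) (a := 0) (b := 2) (c := 3) (cn := .up) (n1 := ndB2q0) (n2 := ndB4q3) (pc := pcB2) (cut := Cut.none) (xt := Ext.none) (P1 := 0) (W1 := 536870912) (P2 := 0) (W2 := 1230186008) (P3 := 923417968) (W3 := 42949674) (N0 := 3) (En := eng) (mo := mog) (C1 := cd2q0) (C2 := cd4q3) (C3 := pd2)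
    rfl (fun _ => rfl) k0_pp_023

noncomputable def f_pp_033 : ℕ → ℕ → ℕ → ℕ → Bool := onCell 0 536870912 0 1230186008 923417968 42949674
    (rowB 3 eng mog cd2q0 cd4q3 pd3 0 false true true .pnn 0 3 3 (qsf 0 536870912 0 1230186008 3) ndB2q0 ndB4q3 pcB3 Cut.none Ext.none)

def k0_pp_033 : ∃ t, chk3 f_pp_033 t 1 2 1 = true :=
  ⟨(b (a (l 4) (a (l 4) (b (l 4) (a (l 4) (l 16408008))))) (a (b (a (l 4) (a (l 4) (b (l 4) (l 16452136)))) (a (a (b (l 4) (a (l 15688056) (l 15882688))) (a (a (l 16025384) (b (l 16093584) (l 16054336))) (b (l 15917848) (l 16068832)))) (a (a (b (l 16196136) (l 16117808)) (l 16222752)) (b (l 16410712) (l 16391592))))) (a (b (a (b (l 4) (l 16589984)) (b (l 16611200) (l 16601072))) (a (b (l 16591232) (l 16601808)) (b (l 16560920) (l 16506304)))) (b (a (b (l 16481952) (l 16441608)) (l 16364256)) (a (b (l 16376360) (l 16296160)) (l 1202085835543)))))), by decide +kernel⟩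

def k1_pp_033 : ∃ t, chk3 f_pp_033 t 1 3 1 = true :=
  ⟨(b (a (b (a (a (b (a (l 15606784) (l 15764160)) (a (b (l 15499928) (l 15438200)) (l 15657736))) (a (a (l 15688640) (b (l 15954000) (l 15878144))) (b (l 15990752) (l 15927688)))) (a (a (b (l 16063720) (l 16015736)) (b (l 16166848) (l 16131976))) (b (l 16387408) (l 16376760)))) (a (b (a (a (l 15374448) (l 15580528)) (a (a (l 15737672) (l 15816912)) (l 15874456))) (a (b (l 15285264) (l 15451568)) (a (a (l 15715480) (l 15796840)) (l 15857384)))) (a (a (b (l 15972480) (l 15959640)) (b (l 16098840) (l 16090600))) (b (l 16362752) (l 16363200))))) (b (a (b (a (l 16617416) (l 16445368)) (a (l 16643576) (l 16469440))) (b (a (l 16220392) (l 1)) (l 1))) (a (b (l 16651208) (a (l 16699928) (l 1))) (l 1)))) (a (b (a (a (b (l 15302960) (l 15534776)) (a (a (l 15758792) (l 15838824)) (b (l 15874864) (l 15930520)))) (a (a (l 15998936) (l 16128600)) (l 16395520))) (a (b (a (a (l 15495992) (l 15722224)) (a (a (l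 15888680) (l 15970184)) (l 16028152))) (a (l 15686984) (a (a (l 15988288) (l 1)) (l 1)))) (a (a (b (l 16123872) (l 1)) (l 1)) (l 1)))) (l 1))), by decide +kernel⟩

theorem s2_pp_033 : ∃ t, chk3 f_pp_033 t 1 1 1 = true := ex3_b k0_pp_033 k1_pp_033

theorem c_pp_033 : CertB 0 536870912 0 1230186008 923417968 42949674 3 eng mog cd2q0 cd4q3 pd3 false true true .pnn 0 3 3
    ndB2q0 ndB4q3 pcB3 Cut.none Ext.none :=
  certB0 (fam := false) (s1 := true) (s2 := true) (a := 0) (b := 3) (c := 3) (cn := .pnn) (n1 := ndB2q0) (n2 := ndB4q3) (pc := pcB3) (cut := Cut.none) (xt := Ext.none) (P1 := 0) (W1 := 536870912) (P2 := 0) (W2 := 1230186008) (P3 := 923417968) (W3 := 42949674) (N0 := 3) (En := eng) (mo := mog) (C1 := cd2q0) (C2 := cd4q3) (C3 := pd3)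
    rfl s2_pp_033

noncomputable def f_pp_101 : ℕ → ℕ → ℕ → ℕ → Bool := onCell 536870912 536870912 536870912 536870912 923417968 42949674
    (rowB 3 eng mog cd2q1 cd4q1 pd0 0 false true true .npn 1 0 1 (qsf 536870912 536870912 536870912 536870912 0) ndB2q1 ndB4q1 pcB0 Cut.none Ext.none)

def k0_pp_101 : ∃ t, chk3 f_pp_101 t 1 1 1 = true :=
  ⟨(l 3), by decide +kernel⟩

theorem c_pp_101 : CertB 536870912 536870912 536870912 536870912 923417968 42949674 3 eng mog cd2q1 cd4q1 pd0 false true true .npn 1 0 1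
    ndB2q1 ndB4q1 pcB0 Cut.none Ext.none :=
  certB0 (fam := false) (s1 := true) (s2 := true) (a := 1) (b := 0) (c := 1) (cn := .npn) (n1 := ndB2q1) (n2 := ndB4q1) (pc := pcB0) (cut := Cut.none) (xt := Ext.none) (P1 := 536870912) (W1 := 536870912) (P2 := 536870912) (W2 := 536870912) (P3 := 923417968) (W3 := 42949674) (N0 := 3) (En := eng) (mo := mog) (C1 := cd2q1) (C2 := cd4q1) (C3 := pd0)
    rfl k0_pp_101

noncomputable def f_pp_102 : ℕ → ℕ → ℕ → ℕ → Bool := onCell 536870912 536870912 1073741824 536870912 923417968 42949674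
    (rowB 3 eng mog cd2q1 cd4q2 pd0 0 false true true .npp 1 0 2 (qsf 536870912 536870912 1073741824 536870912 0) ndB2q1 ndB4q2 pcB0 Cut.none Ext.none)

def k0_pp_102 : ∃ t, chk3 f_pp_102 t 1 1 1 = true :=
  ⟨(l 3), by decide +kernel⟩

theorem c_pp_102 : CertB 536870912 536870912 1073741824 536870912 923417968 42949674 3 eng mog cd2q1 cd4q2 pd0 false true true .npp 1 0 2
    ndB2q1 ndB4q2 pcB0 Cut.none Ext.none :=
  certB0 (fam := false) (s1 := true) (s2 := true) (a := 1) (b := 0) (c := 2) (cn := .npp) (n1 := ndB2q1) (n2 := ndB4q2) (pc := pcB0) (cut := Cut.none) (xt := Ext.none) (P1 := 536870912) (W1 := 536870912) (P2 := 1073741824) (W2 := 536870912) (P3 := 923417968) (W3 := 42949674) (N0 := 3) (En := eng) (mo := mog) (C1 := cd2q1) (C2 := cd4q2) (C3 := pd0)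
    rfl k0_pp_102

noncomputable def f_pp_112 : ℕ → ℕ → ℕ → ℕ → Bool := onCell 536870912 536870912 1073741824 536870912 923417968 42949674
    (rowB 3 eng mog cd2q1 cd4q2 pd1 0 false true true .dn 1 1 2 (qsf 536870912 536870912 1073741824 536870912 1) ndB2q1 ndB4q2 pcB1 Cut.none Ext.none)

def k0_pp_112 : ∃ t, chk3 f_pp_112 t 1 1 1 = true :=
  ⟨(l 3), by decide +kernel⟩

theorem c_pp_112 : CertB 536870912 536870912 1073741824 536870912 923417968 42949674 3 eng mog cd2q1 cd4q2 pd1 false true true .dn 1 1 2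
    ndB2q1 ndB4q2 pcB1 Cut.none Ext.none :=
  certB0 (fam := false) (s1 := true) (s2 := true) (a := 1) (b := 1) (c := 2) (cn := .dn) (n1 := ndB2q1) (n2 := ndB4q2) (pc := pcB1) (cut := Cut.none) (xt := Ext.none) (P1 := 536870912) (W1 := 536870912) (P2 := 1073741824) (W2 := 536870912) (P3 := 923417968) (W3 := 42949674) (N0 := 3) (En := eng) (mo := mog) (C1 := cd2q1) (C2 := cd4q2) (C3 := pd1)
    rfl k0_pp_112

noncomputable def f_pp_113 : ℕ → ℕ → ℕ → ℕ → Bool := onCell 536870912 536870912 0 1230186008 923417968 42949674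
    (rowB 3 eng mog cd2q1 cd4q3 pd1 2 false true true .nn 1 1 3 (qsf 536870912 536870912 0 1230186008 1) ndB2q1 ndB4q3 pcB1 Cut.none Ext.none)

def k0_pp_113 : ∃ t, chk3 f_pp_113 t 1 1 1 = true :=
  ⟨(b (a (l 2) (a (l 2) (b (b (l 16329968) (l 16124024)) (b (l 15921664) (a (l 15630296) (l 15849312)))))) (a (b (b (l 2) (b (l 2) (l 3))) (l 3)) (a (b (b (a (l 2) (l 15196272)) (a (b (a (l 14261992) (l 14483816)) (l 410333134263)) (b (l 14855496) (l 14915360)))) (l 3)) (b (b (a (l 15631264) (l 15827952)) (a (b (l 15413336) (l 15352064)) (b (l 15942264) (l 15779224)))) (b (a (b (l 15356784) (l 3)) (b (l 15628832) (l 15567720))) (l 3)))))), by decide +kernel⟩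

theorem c_pp_113 : CertB 536870912 536870912 0 1230186008 923417968 42949674 3 eng mog cd2q1 cd4q3 pd1 false true true .nn 1 1 3
    ndB2q1 ndB4q3 pcB1 Cut.none Ext.none :=
  certB2 (fam := false) (s1 := true) (s2 := true) (a := 1) (b := 1) (c := 3) (cn := .nn) (n1 := ndB2q1) (n2 := ndB4q3) (pc := pcB1) (cut := Cut.none) (xt := Ext.none) (P1 := 536870912) (W1 := 536870912) (P2 := 0) (W2 := 1230186008) (P3 := 923417968) (W3 := 42949674) (N0 := 3) (En := eng) (mo := mog) (C1 := cd2q1) (C2 := cd4q3) (C3 := pd1)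
    rfl (fun _ => rfl) k0_pp_113

noncomputable def f_pp_123 : ℕ → ℕ → ℕ → ℕ → Bool := onCell 1073741824 536870912 0 1230186008 923417968 42949674
    (rowB 3 eng mog cd2q1 cd4q3 pd2 2 false true true .npn 1 2 3 (qsf 536870912 536870912 0 1230186008 2) ndB2q1 ndB4q3 pcB2 Cut.none Ext.none)

def k0_pp_123 : ∃ t, chk3 f_pp_123 t 1 1 1 = true :=
  ⟨(b (a (b (a (a (l 16542936) (l 16636088)) (a (l 16706008) (l 16734024))) (a (b (a (l 16171656) (l 16431120)) (a (l 15994416) (l 16299064))) (b (l 16619480) (l 16410304)))) (b (a (a (l 16747392) (l 16750880)) (b (l 4) (l 16693080))) (a (b (l 16563864) (l 16321320)) (b (l 16550984) (l 16245240))))) (a (a (b (b (b (l 16011304) (l 16078360)) (b (a (l 15952136) (l 15997784)) (a (l 15732440) (l 15943184)))) (a (b (b (l 15641312) (a (l 15615272) (l 15749976))) (b (a (l 15673600) (l 15802832)) (l 3))) (b (b (l 15927416) (l 15950216)) (a (b (l 15925520) (l 15939480)) (b (l 16035696) (l 1)))))) (b (b (a (l 16224136)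 (l 16295120)) (b (l 16264784) (a (l 16187976) (l 16394808)))) (b (a (b (l 16194720) (l 16191640)) (l 16418880)) (a (a (a (l 511669686135) (l 1)) (l 1)) (l 1))))) (b (b (a (b (l 16217712) (l 16360416)) (b (l 16109888) (l 1))) (a (a (l 508986164215) (l 515428844375)) (l 1))) (l 1)))), by decide +kernel⟩

theorem c_pp_123 : CertB 536870912 536870912 0 1230186008 923417968 42949674 3 eng mog cd2q1 cd4q3 pd2 false true true .npn 1 2 3
    ndB2q1 ndB4q3 pcB2 Cut.none Ext.none :=
  certB2 (fam := false) (s1 := true) (s2 := true) (a := 1) (b := 2) (c := 3) (cn := .npn) (n1 := ndB2q1) (n2 := ndB4q3) (pc := pcB2) (cut := Cut.none) (xt := Ext.none) (P1 := 536870912) (W1 := 536870912) (P2 := 0) (W2 := 1230186008) (P3 := 923417968) (W3 := 42949674) (N0 := 3) (En := eng) (mo := mog) (C1 := cd2q1) (C2 := cd4q3) (C3 := pd2)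
    rfl (fun _ => rfl) k0_pp_123

noncomputable def f_pp_133 : ℕ → ℕ → ℕ → ℕ → Bool := onCell 1610612736 536870912 0 1230186008 923417968 42949674
    (rowB 3 eng mog cd2q1 cd4q3 pd3 2 false true true .dn 1 3 3 (qsf 536870912 536870912 0 1230186008 3) ndB2q1 ndB4q3 pcB3 Cut.none Ext.none)

def k0_pp_133 : ∃ t, chk3 f_pp_133 t 1 1 1 = true :=
  ⟨(b (b (b (l 4) (l 1)) (l 1)) (l 1)), by decide +kernel⟩

theorem c_pp_133 : CertB 536870912 536870912 0 1230186008 923417968 42949674 3 eng mog cd2q1 cd4q3 pd3 false true true .dn 1 3 3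
    ndB2q1 ndB4q3 pcB3 Cut.none Ext.none :=
  certB2 (fam := false) (s1 := true) (s2 := true) (a := 1) (b := 3) (c := 3) (cn := .dn) (n1 := ndB2q1) (n2 := ndB4q3) (pc := pcB3) (cut := Cut.none) (xt := Ext.none) (P1 := 536870912) (W1 := 536870912) (P2 := 0) (W2 := 1230186008) (P3 := 923417968) (W3 := 42949674) (N0 := 3) (En := eng) (mo := mog) (C1 := cd2q1) (C2 := cd4q3) (C3 := pd3)
    rfl (fun _ => rfl) k0_pp_133

noncomputable def f_pp_202 : ℕ → ℕ → ℕ → ℕ → Bool := onCell 1073741824 536870912 1073741824 536870912 923417968 42949674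
    (rowB 3 eng mog cd2q2 cd4q2 pd0 0 false true true .pp 2 0 2 (qsf 1073741824 536870912 1073741824 536870912 0) ndB2q2 ndB4q2 pcB0 Cut.none Ext.none)

def k0_pp_202 : ∃ t, chk3 f_pp_202 t 1 1 1 = true :=
  ⟨(l 5), by decide +kernel⟩

theorem c_pp_202 : CertB 1073741824 536870912 1073741824 536870912 923417968 42949674 3 eng mog cd2q2 cd4q2 pd0 false true true .pp 2 0 2
    ndB2q2 ndB4q2 pcB0 Cut.none Ext.none :=
  certB0 (fam := false) (s1 := true) (s2 := true) (a := 2) (b := 0) (c := 2) (cn := .pp) (n1 := ndB2q2) (n2 := ndB4q2) (pc := pcB0) (cut := Cut.none) (xt := Ext.none) (P1 := 1073741824) (W1 := 536870912) (P2 := 1073741824) (W2 := 536870912) (P3 := 923417968) (W3 := 42949674) (N0 := 3) (En := eng) (mo := mog) (C1 := cd2q2) (C2 := cd4q2) (C3 := pd0)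
    rfl k0_pp_202

noncomputable def f_pp_203 : ℕ → ℕ → ℕ → ℕ → Bool := onCell 0 536870912 0 1230186008 923417968 42949674
    (rowB 3 eng mog cd2q2 cd4q3 pd0 2 false true true .up 2 0 3 (qsf 1073741824 536870912 0 1230186008 0) ndB2q2 ndB4q3 pcB0 Cut.none Ext.none)

def k0_pp_203 : ∃ t, chk3 f_pp_203 t 1 1 1 = true :=
  ⟨(b (l 3) (l 3)), by decide +kernel⟩

theorem c_pp_203 : CertB 1073741824 536870912 0 1230186008 923417968 42949674 3 eng mog cd2q2 cd4q3 pd0 false true true .up 2 0 3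
    ndB2q2 ndB4q3 pcB0 Cut.none Ext.none :=
  certB2 (fam := false) (s1 := true) (s2 := true) (a := 2) (b := 0) (c := 3) (cn := .up) (n1 := ndB2q2) (n2 := ndB4q3) (pc := pcB0) (cut := Cut.none) (xt := Ext.none) (P1 := 1073741824) (W1 := 536870912) (P2 := 0) (W2 := 1230186008) (P3 := 923417968) (W3 := 42949674) (N0 := 3) (En := eng) (mo := mog) (C1 := cd2q2) (C2 := cd4q3) (C3 := pd0)
    rfl (fun _ => rfl) k0_pp_203

noncomputable def f_pp_213 : ℕ → ℕ → ℕ → ℕ → Bool := onCell 1073741824 536870912 0 1230186008 923417968 42949674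
    (rowB 3 eng mog cd2q2 cd4q3 pd1 0 false true true .pnn 2 1 3 (qsf 1073741824 536870912 0 1230186008 1) ndB2q2 ndB4q3 pcB1 Cut.none Ext.none)

def k0_pp_213 : ∃ t, chk3 f_pp_213 t 1 1 1 = true :=
  ⟨(b (b (a (b (a (a (a (b (a (l 16514656) (l 16544808)) (b (a (l 16545752) (l 16561632)) (a (l 334100918695) (l 3)))) (b (a (l 16564176) (l 16575584)) (a (l 334100927159) (l 3)))) (b (a (l 298667242295) (l 348059414455)) (l 3))) (l 3)) (l 3)) (l 3)) (l 3)) (l 3)), by decide +kernel⟩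

theorem c_pp_213 : CertB 1073741824 536870912 0 1230186008 923417968 42949674 3 eng mog cd2q2 cd4q3 pd1 false true true .pnn 2 1 3
    ndB2q2 ndB4q3 pcB1 Cut.none Ext.none :=
  certB0 (fam := false) (s1 := true) (s2 := true) (a := 2) (b := 1) (c := 3) (cn := .pnn) (n1 := ndB2q2) (n2 := ndB4q3) (pc := pcB1) (cut := Cut.none) (xt := Ext.none) (P1 := 1073741824) (W1 := 536870912) (P2 := 0) (W2 := 1230186008) (P3 := 923417968) (W3 := 42949674) (N0 := 3) (En := eng) (mo := mog) (C1 := cd2q2) (C2 := cd4q3) (C3 := pd1)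
    rfl k0_pp_213

noncomputable def f_pp_303 : ℕ → ℕ → ℕ → ℕ → Bool := onCell 0 1230186008 0 1230186008 923417968 42949674
    (rowB 3 eng mog cd2q3 cd4q3 pd0 0 false true true .npn 3 0 3 (qsf 0 1230186008 0 1230186008 0) ndB2q3 ndB4q3 pcB0 Cut.none Ext.none)

def k0_pp_303 : ∃ t, chk3 f_pp_303 t 1 1 1 = true :=
  ⟨(a (b (l 3) (l 5)) (b (l 3) (a (l 5) (l 3)))), by decide +kernel⟩

theorem c_pp_303 : CertB 0 1230186008 0 1230186008 923417968 42949674 3 eng mog cd2q3 cd4q3 pd0 false true true .npn 3 0 3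
    ndB2q3 ndB4q3 pcB0 Cut.none Ext.none :=
  certB0 (fam := false) (s1 := true) (s2 := true) (a := 3) (b := 0) (c := 3) (cn := .npn) (n1 := ndB2q3) (n2 := ndB4q3) (pc := pcB0) (cut := Cut.none) (xt := Ext.none) (P1 := 0) (W1 := 1230186008) (P2 := 0) (W2 := 1230186008) (P3 := 923417968) (W3 := 42949674) (N0 := 3) (En := eng) (mo := mog) (C1 := cd2q3) (C2 := cd4q3) (C3 := pd0)
    rfl k0_pp_303

noncomputable def f_pp_313 : ℕ → ℕ → ℕ → ℕ → Bool := onCell 0 1230186008 0 1230186008 923417968 42949674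
    (rowB 3 eng mog cd2q3 cd4q3 pd1 0 false true true .dn 3 1 3 (qsf 0 1230186008 0 1230186008 1) ndB2q3 ndB4q3 pcB1 Cut.none Ext.none)

def k0_pp_313 : ∃ t, chk3 f_pp_313 t 1 1 1 = true :=
  ⟨(a (l 1) (b (l 3) (l 1))), by decide +kernel⟩

theorem c_pp_313 : CertB 0 1230186008 0 1230186008 923417968 42949674 3 eng mog cd2q3 cd4q3 pd1 false true true .dn 3 1 3
    ndB2q3 ndB4q3 pcB1 Cut.none Ext.none :=
  certB0 (fam := false) (s1 := true) (s2 := true) (a := 3) (b := 1) (c := 3) (cn := .dn) (n1 := ndB2q3) (n2 := ndB4q3) (pc := pcB1) (cut := Cut.none) (xt := Ext.none) (P1 := 0) (W1 := 1230186008) (P2 := 0) (W2 := 1230186008) (P3 := 923417968) (W3 := 42949674) (N0 := 3) (En := eng) (mo := mog) (C1 := cd2q3) (C2 := cd4q3) (C3 := pd1)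
    rfl k0_pp_313

noncomputable def f_pm_001 : ℕ → ℕ → ℕ → ℕ → Bool := onCell 0 536870912 536870912 536870912 923417968 42949674
    (rowB 3 eng mog cd2q0 cd4q1 pd0 0 false true false .up 0 0 1 (qsf 0 536870912 536870912 536870912 0) ndB2q0 ndB4q1 pcB0 Cut.none Ext.none)

def k0_pm_001 : ∃ t, chk3 f_pm_001 t 1 1 1 = true :=
  ⟨(l 4), by decide +kernel⟩

theorem c_pm_001 : CertB 0 536870912 536870912 536870912 923417968 42949674 3 eng mog cd2q0 cd4q1 pd0 false true false .up 0 0 1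
    ndB2q0 ndB4q1 pcB0 Cut.none Ext.none :=
  certB0 (fam := false) (s1 := true) (s2 := false) (a := 0) (b := 0) (c := 1) (cn := .up) (n1 := ndB2q0) (n2 := ndB4q1) (pc := pcB0) (cut := Cut.none) (xt := Ext.none) (P1 := 0) (W1 := 536870912) (P2 := 536870912) (W2 := 536870912) (P3 := 923417968) (W3 := 42949674) (N0 := 3) (En := eng) (mo := mog) (C1 := cd2q0) (C2 := cd4q1) (C3 := pd0)
    rfl k0_pm_001

noncomputable def f_pm_011 : ℕ → ℕ → ℕ → ℕ → Bool := onCell 0 536870912 536870912 536870912 923417968 42949674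
    (rowB 3 eng mog cd2q0 cd4q1 pd1 0 false true false .pnn 0 1 1 (qsf 0 536870912 536870912 536870912 1) ndB2q0 ndB4q1 pcB1 Cut.none Ext.none)

def k0_pm_011 : ∃ t, chk3 f_pm_011 t 1 1 1 = true :=
  ⟨(l 4), by decide +kernel⟩

theorem c_pm_011 : CertB 0 536870912 536870912 536870912 923417968 42949674 3 eng mog cd2q0 cd4q1 pd1 false true false .pnn 0 1 1
    ndB2q0 ndB4q1 pcB1 Cut.none Ext.none :=
  certB0 (fam := false) (s1 := true) (s2 := false) (a := 0) (b := 1) (c := 1) (cn := .pnn) (n1 := ndB2q0) (n2 := ndB4q1) (pc := pcB1) (cut := Cut.none) (xt := Ext.none) (P1 := 0) (W1 := 536870912) (P2 := 536870912) (W2 := 536870912) (P3 := 923417968) (W3 := 42949674) (N0 := 3) (En := eng) (mo := mog) (C1 := cd2q0) (C2 := cd4q1) (C3 := pd1)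
    rfl k0_pm_011

noncomputable def f_pm_012 : ℕ → ℕ → ℕ → ℕ → Bool := onCell 0 536870912 1073741824 536870912 923417968 42949674
    (rowB 3 eng mog cd2q0 cd4q2 pd1 0 false true false .pnp 0 1 2 (qsf 0 536870912 1073741824 536870912 1) ndB2q0 ndB4q2 pcB1 Cut.none Ext.none)

def k0_pm_012 : ∃ t, chk3 f_pm_012 t 1 1 1 = true :=
  ⟨(l 4), by decide +kernel⟩

theorem c_pm_012 : CertB 0 536870912 1073741824 536870912 923417968 42949674 3 eng mog cd2q0 cd4q2 pd1 false true false .pnp 0 1 2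
    ndB2q0 ndB4q2 pcB1 Cut.none Ext.none :=
  certB0 (fam := false) (s1 := true) (s2 := false) (a := 0) (b := 1) (c := 2) (cn := .pnp) (n1 := ndB2q0) (n2 := ndB4q2) (pc := pcB1) (cut := Cut.none) (xt := Ext.none) (P1 := 0) (W1 := 536870912) (P2 := 1073741824) (W2 := 536870912) (P3 := 923417968) (W3 := 42949674) (N0 := 3) (En := eng) (mo := mog) (C1 := cd2q0) (C2 := cd4q2) (C3 := pd1)
    rfl k0_pm_012

noncomputable def f_pm_022 : ℕ → ℕ → ℕ → ℕ → Bool := onCell 0 536870912 1073741824 536870912 923417968 42949674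
    (rowB 3 eng mog cd2q0 cd4q2 pd2 0 false true false .pp 0 2 2 (qsf 0 536870912 1073741824 536870912 2) ndB2q0 ndB4q2 pcB2 Cut.none Ext.none)

def k0_pm_022 : ∃ t, chk3 f_pm_022 t 1 1 1 = true :=
  ⟨(l 4), by decide +kernel⟩

theorem c_pm_022 : CertB 0 536870912 1073741824 536870912 923417968 42949674 3 eng mog cd2q0 cd4q2 pd2 false true false .pp 0 2 2
    ndB2q0 ndB4q2 pcB2 Cut.none Ext.none :=
  certB0 (fam := false) (s1 := true) (s2 := false) (a := 0) (b := 2) (c := 2) (cn := .pp) (n1 := ndB2q0) (n2 := ndB4q2) (pc := pcB2) (cut := Cut.none) (xt := Ext.none) (P1 := 0) (W1 := 536870912) (P2 := 1073741824) (W2 := 536870912) (P3 := 923417968) (W3 := 42949674) (N0 := 3) (En := eng) (mo := mog) (C1 := cd2q0) (C2 := cd4q2) (C3 := pd2)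
    rfl k0_pm_022

noncomputable def f_pm_023 : ℕ → ℕ → ℕ → ℕ → Bool := onCell 0 536870912 0 1230186008 923417968 42949674
    (rowB 3 eng mog cd2q0 cd4q3 pd2 0 false true false .up 0 2 3 (qsf 0 536870912 0 1230186008 2) ndB2q0 ndB4q3 pcB2 Cut.none Ext.none)

def k0_pm_023 : ∃ t, chk3 f_pm_023 t 1 1 1 = true :=
  ⟨(l 4), by decide +kernel⟩

theorem c_pm_023 : CertB 0 536870912 0 1230186008 923417968 42949674 3 eng mog cd2q0 cd4q3 pd2 false true false .up 0 2 3
    ndB2q0 ndB4q3 pcB2 Cut.none Ext.none :=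
  certB0 (fam := false) (s1 := true) (s2 := false) (a := 0) (b := 2) (c := 3) (cn := .up) (n1 := ndB2q0) (n2 := ndB4q3) (pc := pcB2) (cut := Cut.none) (xt := Ext.none) (P1 := 0) (W1 := 536870912) (P2 := 0) (W2 := 1230186008) (P3 := 923417968) (W3 := 42949674) (N0 := 3) (En := eng) (mo := mog) (C1 := cd2q0) (C2 := cd4q3) (C3 := pd2)
    rfl k0_pm_023

noncomputable def f_pm_033 : ℕ → ℕ → ℕ → ℕ → Bool := onCell 0 536870912 0 1230186008 923417968 42949674
    (rowB 3 eng mog cd2q0 cd4q3 pd3 0 false true false .pnn 0 3 3 (qsf 0 536870912 0 1230186008 3) ndB2q0 ndB4q3 pcB3 Cut.none Ext.none)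

def k0_pm_033 : ∃ t, chk3 f_pm_033 t 1 1 1 = true :=
  ⟨(l 4), by decide +kernel⟩

theorem c_pm_033 : CertB 0 536870912 0 1230186008 923417968 42949674 3 eng mog cd2q0 cd4q3 pd3 false true false .pnn 0 3 3
    ndB2q0 ndB4q3 pcB3 Cut.none Ext.none :=
  certB0 (fam := false) (s1 := true) (s2 := false) (a := 0) (b := 3) (c := 3) (cn := .pnn) (n1 := ndB2q0) (n2 := ndB4q3) (pc := pcB3) (cut := Cut.none) (xt := Ext.none) (P1 := 0) (W1 := 536870912) (P2 := 0) (W2 := 1230186008) (P3 := 923417968) (W3 := 42949674) (N0 := 3) (En := eng) (mo := mog) (C1 := cd2q0) (C2 := cd4q3) (C3 := pd3)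
    rfl k0_pm_033

noncomputable def f_pm_101 : ℕ → ℕ → ℕ → ℕ → Bool := onCell 536870912 536870912 536870912 536870912 923417968 42949674
    (rowB 3 eng mog cd2q1 cd4q1 pd0 0 false true false .npn 1 0 1 (qsf 536870912 536870912 536870912 536870912 0) ndB2q1 ndB4q1 pcB0 Cut.none Ext.none)

def k0_pm_101 : ∃ t, chk3 f_pm_101 t 1 1 1 = true :=
  ⟨(l 4), by decide +kernel⟩

theorem c_pm_101 : CertB 536870912 536870912 536870912 536870912 923417968 42949674 3 eng mog cd2q1 cd4q1 pd0 false true false .npn 1 0 1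
    ndB2q1 ndB4q1 pcB0 Cut.none Ext.none :=
  certB0 (fam := false) (s1 := true) (s2 := false) (a := 1) (b := 0) (c := 1) (cn := .npn) (n1 := ndB2q1) (n2 := ndB4q1) (pc := pcB0) (cut := Cut.none) (xt := Ext.none) (P1 := 536870912) (W1 := 536870912) (P2 := 536870912) (W2 := 536870912) (P3 := 923417968) (W3 := 42949674) (N0 := 3) (En := eng) (mo := mog) (C1 := cd2q1) (C2 := cd4q1) (C3 := pd0)
    rfl k0_pm_101

noncomputable def f_pm_102 : ℕ → ℕ → ℕ → ℕ → Bool := onCell 536870912 536870912 1073741824 536870912 923417968 42949674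
    (rowB 3 eng mog cd2q1 cd4q2 pd0 0 false true false .npp 1 0 2 (qsf 536870912 536870912 1073741824 536870912 0) ndB2q1 ndB4q2 pcB0 Cut.none Ext.none)

def k0_pm_102 : ∃ t, chk3 f_pm_102 t 1 1 1 = true :=
  ⟨(l 4), by decide +kernel⟩

theorem c_pm_102 : CertB 536870912 536870912 1073741824 536870912 923417968 42949674 3 eng mog cd2q1 cd4q2 pd0 false true false .npp 1 0 2
    ndB2q1 ndB4q2 pcB0 Cut.none Ext.none :=
  certB0 (fam := false) (s1 := true) (s2 := false) (a := 1) (b := 0) (c := 2) (cn := .npp) (n1 := ndB2q1) (n2 := ndB4q2) (pc := pcB0) (cut := Cut.none) (xt := Ext.none) (P1 := 536870912) (W1 := 536870912) (P2 := 1073741824) (W2 := 536870912) (P3 := 923417968) (W3 := 42949674) (N0 := 3) (En := eng) (mo := mog) (C1 := cd2q1) (C2 := cd4q2) (C3 := pd0)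
    rfl k0_pm_102

noncomputable def f_pm_112 : ℕ → ℕ → ℕ → ℕ → Bool := onCell 536870912 536870912 1073741824 536870912 923417968 42949674
    (rowB 3 eng mog cd2q1 cd4q2 pd1 0 false true false .dn 1 1 2 (qsf 536870912 536870912 1073741824 536870912 1) ndB2q1 ndB4q2 pcB1 Cut.none Ext.none)

def k0_pm_112 : ∃ t, chk3 f_pm_112 t 1 1 1 = true :=
  ⟨(l 4), by decide +kernel⟩

theorem c_pm_112 : CertB 536870912 536870912 1073741824 536870912 923417968 42949674 3 eng mog cd2q1 cd4q2 pd1 false true false .dn 1 1 2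
    ndB2q1 ndB4q2 pcB1 Cut.none Ext.none :=
  certB0 (fam := false) (s1 := true) (s2 := false) (a := 1) (b := 1) (c := 2) (cn := .dn) (n1 := ndB2q1) (n2 := ndB4q2) (pc := pcB1) (cut := Cut.none) (xt := Ext.none) (P1 := 536870912) (W1 := 536870912) (P2 := 1073741824) (W2 := 536870912) (P3 := 923417968) (W3 := 42949674) (N0 := 3) (En := eng) (mo := mog) (C1 := cd2q1) (C2 := cd4q2) (C3 := pd1)
    rfl k0_pm_112

noncomputable def f_pm_113 : ℕ → ℕ → ℕ → ℕ → Bool := onCell 536870912 536870912 0 1230186008 923417968 42949674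
    (rowB 3 eng mog cd2q1 cd4q3 pd1 2 false true false .nn 1 1 3 (qsf 536870912 536870912 0 1230186008 1) ndB2q1 ndB4q3 pcB1 Cut.none Ext.none)

def k0_pm_113 : ∃ t, chk3 f_pm_113 t 1 1 1 = true :=
  ⟨(b (a (l 2) (b (a (l 2) (l 16418704)) (l 4))) (l 4)), by decide +kernel⟩

theorem c_pm_113 : CertB 536870912 536870912 0 1230186008 923417968 42949674 3 eng mog cd2q1 cd4q3 pd1 false true false .nn 1 1 3
    ndB2q1 ndB4q3 pcB1 Cut.none Ext.none :=
  certB2 (fam := false) (s1 := true) (s2 := false) (a := 1) (b := 1) (c := 3) (cn := .nn) (n1 := ndB2q1) (n2 := ndB4q3) (pc := pcB1) (cut := Cut.none) (xt := Ext.none) (P1 := 536870912) (W1 := 536870912) (P2 := 0) (W2 := 1230186008) (P3 := 923417968) (W3 := 42949674) (N0 := 3) (En := eng) (mo := mog) (C1 := cd2q1) (C2 := cd4q3) (C3 := pd1)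
    rfl (fun _ => rfl) k0_pm_113

noncomputable def f_pm_123 : ℕ → ℕ → ℕ → ℕ → Bool := onCell 536870912 536870912 0 1230186008 923417968 42949674
    (rowB 3 eng mog cd2q1 cd4q3 pd2 0 false true false .npn 1 2 3 (qsf 536870912 536870912 0 1230186008 2) ndB2q1 ndB4q3 pcB2 Cut.none Ext.none)

def k0_pm_123 : ∃ t, chk3 f_pm_123 t 1 1 1 = true :=
  ⟨(b (a (l 4) (b (a (l 4) (b (l 16704544) (l 4))) (l 4))) (l 4)), by decide +kernel⟩

theorem c_pm_123 : CertB 536870912 536870912 0 1230186008 923417968 42949674 3 eng mog cd2q1 cd4q3 pd2 false true false .npn 1 2 3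
    ndB2q1 ndB4q3 pcB2 Cut.none Ext.none :=
  certB0 (fam := false) (s1 := true) (s2 := false) (a := 1) (b := 2) (c := 3) (cn := .npn) (n1 := ndB2q1) (n2 := ndB4q3) (pc := pcB2) (cut := Cut.none) (xt := Ext.none) (P1 := 536870912) (W1 := 536870912) (P2 := 0) (W2 := 1230186008) (P3 := 923417968) (W3 := 42949674) (N0 := 3) (En := eng) (mo := mog) (C1 := cd2q1) (C2 := cd4q3) (C3 := pd2)
    rfl k0_pm_123

noncomputable def f_pm_133 : ℕ → ℕ → ℕ → ℕ → Bool := onCell 1610612736 536870912 0 1230186008 923417968 42949674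
    (rowB 3 eng mog cd2q1 cd4q3 pd3 2 false true false .dn 1 3 3 (qsf 536870912 536870912 0 1230186008 3) ndB2q1 ndB4q3 pcB3 Cut.none Ext.none)

def k0_pm_133 : ∃ t, chk3 f_pm_133 t 1 1 1 = true :=
  ⟨(b (l 4) (l 1)), by decide +kernel⟩

theorem c_pm_133 : CertB 536870912 536870912 0 1230186008 923417968 42949674 3 eng mog cd2q1 cd4q3 pd3 false true false .dn 1 3 3
    ndB2q1 ndB4q3 pcB3 Cut.none Ext.none :=
  certB2 (fam := false) (s1 := true) (s2 := false) (a := 1) (b := 3) (c := 3) (cn := .dn) (n1 := ndB2q1) (n2 := ndB4q3) (pc := pcB3) (cut := Cut.none) (xt := Ext.none) (P1 := 536870912) (W1 := 536870912) (P2 := 0) (W2 := 1230186008) (P3 := 923417968) (W3 := 42949674) (N0 := 3) (En := eng) (mo := mog) (C1 := cd2q1) (C2 := cd4q3) (C3 := pd3)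
    rfl (fun _ => rfl) k0_pm_133

noncomputable def f_pm_202 : ℕ → ℕ → ℕ → ℕ → Bool := onCell 0 536870912 1073741824 536870912 923417968 42949674
    (rowB 3 eng mog cd2q2 cd4q2 pd0 2 false true false .pp 2 0 2 (qsf 1073741824 536870912 1073741824 536870912 0) ndB2q2 ndB4q2 pcB0 Cut.none Ext.none)

def k0_pm_202 : ∃ t, chk3 f_pm_202 t 1 1 1 = true :=
  ⟨(b (l 4) (b (l 4) (a (a (a (b (l 16185240) (l 16437200)) (b (l 4) (l 16344088))) (b (l 4) (a (l 16211304) (l 16000120)))) (l 4)))), by decide +kernel⟩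

theorem c_pm_202 : CertB 1073741824 536870912 1073741824 536870912 923417968 42949674 3 eng mog cd2q2 cd4q2 pd0 false true false .pp 2 0 2
    ndB2q2 ndB4q2 pcB0 Cut.none Ext.none :=
  certB2 (fam := false) (s1 := true) (s2 := false) (a := 2) (b := 0) (c := 2) (cn := .pp) (n1 := ndB2q2) (n2 := ndB4q2) (pc := pcB0) (cut := Cut.none) (xt := Ext.none) (P1 := 1073741824) (W1 := 536870912) (P2 := 1073741824) (W2 := 536870912) (P3 := 923417968) (W3 := 42949674) (N0 := 3) (En := eng) (mo := mog) (C1 := cd2q2) (C2 := cd4q2) (C3 := pd0)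
    rfl (fun _ => rfl) k0_pm_202

noncomputable def f_pm_203 : ℕ → ℕ → ℕ → ℕ → Bool := onCell 0 536870912 0 1230186008 923417968 42949674
    (rowB 3 eng mog cd2q2 cd4q3 pd0 2 false true false .up 2 0 3 (qsf 1073741824 536870912 0 1230186008 0) ndB2q2 ndB4q3 pcB0 Cut.none Ext.none)

def k0_pm_203 : ∃ t, chk3 f_pm_203 t 1 1 1 = true :=
  ⟨(a (b (l 2) (b (b (l 2) (a (l 2) (a (l 2) (b (l 2) (l 16405824))))) (b (a (l 2) (a (b (a (l 2) (l 16390056)) (l 16558992)) (b (l 16606040) (l 16696808)))) (a (b (l 16386264) (l 16606992)) (b (l 16691176) (a (l 16507584) (l 16368664))))))) (b (b (l 3) (a (l 2) (b (b (l 3) (a (l 16532584) (l 16593736))) (a (b (l 16499592) (l 16484096)) (b (l 16573672) (l 16575472)))))) (b (a (b (a (l 2) (b (l 16392944) (l 16527272))) (b (l 57544999607) (a (l 16642168) (l 16456960)))) (b (b (a (l 16528376) (l 16655616)) (l 16581192)) (b (l 16420208) (a (l 16313896) (l 16240368))))) (a (b (b (a (l 16578192) (l 16421240)) (a (l 16544304)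 (l 16435504))) (b (a (l 16483480) (l 16301160)) (a (l 16190960) (l 148409703447)))) (b (b (a (l 16321456) (l 16260744)) (a (l 16318032) (b (l 16185784) (l 16070584)))) (b (a (l 16086432) (b (l 15921496) (l 15743048))) (b (a (l 15823504) (l 377652581783)) (l 4)))))))), by decide +kernel⟩

theorem c_pm_203 : CertB 1073741824 536870912 0 1230186008 923417968 42949674 3 eng mog cd2q2 cd4q3 pd0 false true false .up 2 0 3
    ndB2q2 ndB4q3 pcB0 Cut.none Ext.none :=
  certB2 (fam := false) (s1 := true) (s2 := false) (a := 2) (b := 0) (c := 3) (cn := .up) (n1 := ndB2q2) (n2 := ndB4q3) (pc := pcB0) (cut := Cut.none) (xt := Ext.none) (P1 := 1073741824) (W1 := 536870912) (P2 := 0) (W2 := 1230186008) (P3 := 923417968) (W3 := 42949674) (N0 := 3) (En := eng) (mo := mog) (C1 := cd2q2) (C2 := cd4q3) (C3 := pd0)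
    rfl (fun _ => rfl) k0_pm_203

noncomputable def f_pm_213 : ℕ → ℕ → ℕ → ℕ → Bool := onCell 1073741824 536870912 0 1230186008 923417968 42949674
    (rowB 3 eng mog cd2q2 cd4q3 pd1 0 false true false .pnn 2 1 3 (qsf 1073741824 536870912 0 1230186008 1) ndB2q2 ndB4q3 pcB1 Cut.none Ext.none)

def k0_pm_213 : ∃ t, chk3 f_pm_213 t 1 2 1 = true :=
  ⟨(a (a (b (a (b (a (b (l 16481736) (l 16444896)) (b (l 16548288) (l 16525936))) (a (b (l 16425168) (l 16424928)) (b (l 16514848) (l 16522672)))) (b (a (b (l 16589800) (l 16585288)) (b (l 16578976) (l 16628632))) (a (l 16701536) (l 16666176)))) (b (a (b (a (l 16483768) (l 16565224)) (l 16665976)) (b (l 16697784) (l 16729440))) (a (b (l 16842664) (l 16773368)) (l 16558104)))) (b (b (a (a (a (l 217063125159) (l 291151259143)) (l 293298577687)) (a (l 338932639495) (l 342690758407))) (a (b (l 16704816) (l 16753072)) (b (a (l 16724088) (l 16720024)) (l 16717288)))) (b (a (b (l 16728680) (l 16658696)) (b (l 16643496)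 (l 16559464))) (b (a (l 16589392) (l 16474448)) (l 16662696))))) (b (b (l 3) (a (a (b (l 211694271671) (a (l 16715624) (l 16727400))) (b (l 3) (l 199346231607))) (l 3))) (a (b (a (b (l 16624048) (l 16515704)) (b (a (l 16645376) (l 16670664)) (l 16527368))) (a (b (a (l 16404664) (l 16382224)) (l 16333880)) (b (l 16384632) (l 16016240)))) (b (a (b (a (l 16692608) (l 16657896)) (a (l 16576472) (l 16626368))) (b (l 3) (a (l 16648584) (l 1)))) (a (b (l 16436480) (b (l 16300912) (l 16217544))) (b (a (l 16522624) (l 1)) (l 1))))))), by decide +kernel⟩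

def k1_pm_213 : ∃ t, chk3 f_pm_213 t 1 3 1 = true :=
  ⟨(b (a (b (a (a (b (l 16507048) (l 16219016)) (l 16244600)) (a (l 16313792) (l 16315288))) (a (a (b (l 15957416) (b (l 15786136) (b (l 15710184) (l 15664000)))) (b (l 16088144) (b (l 15999712) (l 15947352)))) (b (l 16293672) (b (l 16333872) (l 16318904))))) (b (a (b (l 16147304) (l 16248160)) (b (a (l 16072768) (l 1)) (l 1))) (a (b (l 16398864) (b (l 16467632) (l 16524680))) (l 1)))) (a (b (a (b (b (a (l 15610224) (l 15910976)) (a (l 15557400) (l 15885400))) (a (b (l 15495624) (l 15428184)) (l 15810104))) (b (b (l 16307568) (l 16292144)) (b (l 16258832) (l 16205784)))) (a (b (a (b (l 15362376) (l 15303560)) (b (l 15713968) (l 15646512))) (a (l 4) (l 4))) (b (a (l 15980976) (l 1)) (l 1)))) (l 1))), by decide +kernel⟩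

theorem s2_pm_213 : ∃ t, chk3 f_pm_213 t 1 1 1 = true := ex3_b k0_pm_213 k1_pm_213

theorem c_pm_213 : CertB 1073741824 536870912 0 1230186008 923417968 42949674 3 eng mog cd2q2 cd4q3 pd1 false true false .pnn 2 1 3
    ndB2q2 ndB4q3 pcB1 Cut.none Ext.none :=
  certB0 (fam := false) (s1 := true) (s2 := false) (a := 2) (b := 1) (c := 3) (cn := .pnn) (n1 := ndB2q2) (n2 := ndB4q3) (pc := pcB1) (cut := Cut.none) (xt := Ext.none) (P1 := 1073741824) (W1 := 536870912) (P2 := 0) (W2 := 1230186008) (P3 := 923417968) (W3 := 42949674) (N0 := 3) (En := eng) (mo := mog) (C1 := cd2q2) (C2 := cd4q3) (C3 := pd1)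
    rfl s2_pm_213

noncomputable def f_pm_303 : ℕ → ℕ → ℕ → ℕ → Bool := onCell 0 1230186008 0 1230186008 923417968 42949674
    (rowB 3 eng mog cd2q3 cd4q3 pd0 0 false true false .npn 3 0 3 (qsf 0 1230186008 0 1230186008 0) ndB2q3 ndB4q3 pcB0 Cut.none Ext.none)

def k0_pm_303 : ∃ t, chk3 f_pm_303 t 2 1 1 = true :=
  ⟨(b (l 3) (b (b (l 3) (l 1)) (l 1))), by decide +kernel⟩

def k1_pm_303 : ∃ t, chk3 f_pm_303 t 3 2 1 = true :=
  ⟨(a (l 3) (b (l 3) (a (b (l 3) (a (l 3) (b (l 3) (b (l 3) (l 16097696))))) (b (a (l 3) (b (l 3) (l 266991838087))) (a (b (a (l 3) (l 16294368)) (a (l 16178408) (l 16221056))) (b (l 200956235831) (l 16307104))))))), by decide +kernel⟩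

def k2_pm_303 : ∃ t, chk3 f_pm_303 t 6 3 1 = true :=
  ⟨(b (a (b (l 3) (b (a (l 1) (b (b (l 218134662055) (l 1)) (l 1))) (l 1))) (b (b (l 3) (b (a (l 3) (l 15873744)) (a (l 15385056) (a (l 15465048) (b (l 15550576) (l 15500384)))))) (a (b (b (l 15473480) (b (l 15215280) (l 15173520))) (b (a (l 1) (l 15160832)) (l 1))) (b (b (b (a (l 15400296) (a (l 15472584) (l 15521336))) (l 15443408)) (l 15421472)) (b (b (l 15371984) (l 15371792)) (l 15372488)))))) (a (l 1) (b (a (l 1) (b (b (l 15384456) (l 1)) (l 1))) (l 1)))), by decide +kernel⟩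

def k3_pm_303 : ∃ t, chk3 f_pm_303 t 7 6 1 = true :=
  ⟨(a (b (b (a (a (l 15869328) (l 15916592)) (l 174112878087)) (a (b (a (l 15707712) (l 15764856)) (a (l 15606456) (l 15687528))) (b (l 15868296) (l 15831808)))) (a (b (a (b (b (l 15592008) (l 15593904)) (b (a (l 15579000) (l 15632632)) (l 15602856))) (b (l 15679624) (a (b (l 15684656) (l 15691576)) (l 15718408)))) (b (a (l 15567672) (a (b (b (l 15693592) (l 15695440)) (l 15680768)) (b (l 15754360) (l 15741200)))) (l 15627320))) (b (a (b (b (l 15779056) (l 15780424)) (b (l 15784496) (l 15789624))) (b (l 15884672) (l 15879840))) (a (b (b (a (l 15793048) (l 15834320)) (a (l 15807000) (l 15847384))) (a (b (l 15802752) (l 15802808)) (b (l 15870032) (l 15865248)))) (b (a (l 15876512) (l 15920864)) (a (b (l 15910584) (l 15930608)) (l 15954264))))))) (b (a (b (a (l 16072696) (l 16144504)) (b (l 16052480) (l 16074720))) (b (l 16123128) (l 16316976))) (a (b (a (b (l 16015200) (l 16001176)) (l 16156816))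 (a (b (a (l 15974240) (l 16028560)) (a (l 16004472) (l 16051416))) (b (l 16142352) (l 16140648)))) (b (l 16385448) (b (l 16408784) (l 16387672)))))), by decide +kernel⟩

def k4_pm_303 : ∃ t, chk3 f_pm_303 t 7 7 1 = true :=
  ⟨(a (b (a (b (l 15620000) (b (l 15646680) (l 1))) (b (a (l 15815288) (b (b (a (l 15928816) (l 15993160)) (a (l 15929640) (l 15993608))) (a (l 15915656) (b (l 15983696) (l 15985880))))) (b (l 15892680) (l 15912760)))) (a (l 1) (b (l 16055896) (l 1)))) (b (a (b (a (b (a (l 16034752) (l 16094960)) (b (l 16084208) (a (l 16053040) (l 16127568)))) (b (l 16178568) (l 16266824))) (b (a (b (a (l 16053936) (l 16123480)) (l 16091608)) (b (l 16229456) (l 16234104))) (l 16170968))) (b (a (b (l 16313608) (l 16344944)) (b (l 16481472) (l 16491440))) (b (a (l 16375688) (l 16522040)) (l 16447896)))) (b (a (l 16247632) (l 16440800)) (a (l 16316240) (l 16372576))))), by decide +kernel⟩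

theorem s5_pm_303 : ∃ t, chk3 f_pm_303 t 7 3 1 = true := ex3_b k3_pm_303 k4_pm_303

theorem s6_pm_303 : ∃ t, chk3 f_pm_303 t 3 3 1 = true := ex3_a k2_pm_303 s5_pm_303

theorem s7_pm_303 : ∃ t, chk3 f_pm_303 t 3 1 1 = true := ex3_b k1_pm_303 s6_pm_303

theorem s8_pm_303 : ∃ t, chk3 f_pm_303 t 1 1 1 = true := ex3_a k0_pm_303 s7_pm_303

theorem c_pm_303 : CertB 0 1230186008 0 1230186008 923417968 42949674 3 eng mog cd2q3 cd4q3 pd0 false true false .npn 3 0 3
    ndB2q3 ndB4q3 pcB0 Cut.none Ext.none :=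
  certB0 (fam := false) (s1 := true) (s2 := false) (a := 3) (b := 0) (c := 3) (cn := .npn) (n1 := ndB2q3) (n2 := ndB4q3) (pc := pcB0) (cut := Cut.none) (xt := Ext.none) (P1 := 0) (W1 := 1230186008) (P2 := 0) (W2 := 1230186008) (P3 := 923417968) (W3 := 42949674) (N0 := 3) (En := eng) (mo := mog) (C1 := cd2q3) (C2 := cd4q3) (C3 := pd0)
    rfl s8_pm_303

noncomputable def f_pm_313 : ℕ → ℕ → ℕ → ℕ → Bool := onCell 0 1230186008 0 1230186008 923417968 42949674
    (rowB 3 eng mog cd2q3 cd4q3 pd1 0 false true false .dn 3 1 3 (qsf 0 1230186008 0 1230186008 1) ndB2q3 ndB4q3 pcB1 Cut.none Ext.none)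

def k0_pm_313 : ∃ t, chk3 f_pm_313 t 1 1 1 = true :=
  ⟨(a (l 1) (b (b (l 3) (l 1)) (l 1))), by decide +kernel⟩

theorem c_pm_313 : CertB 0 1230186008 0 1230186008 923417968 42949674 3 eng mog cd2q3 cd4q3 pd1 false true false .dn 3 1 3
    ndB2q3 ndB4q3 pcB1 Cut.none Ext.none :=
  certB0 (fam := false) (s1 := true) (s2 := false) (a := 3) (b := 1) (c := 3) (cn := .dn) (n1 := ndB2q3) (n2 := ndB4q3) (pc := pcB1) (cut := Cut.none) (xt := Ext.none) (P1 := 0) (W1 := 1230186008) (P2 := 0) (W2 := 1230186008) (P3 := 923417968) (W3 := 42949674) (N0 := 3) (En := eng) (mo := mog) (C1 := cd2q3) (C2 := cd4q3) (C3 := pd1)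
    rfl k0_pm_313

noncomputable def f_mm_001 : ℕ → ℕ → ℕ → ℕ → Bool := onCell 0 536870912 0 536870912 923417968 42949674
    (rowB 3 eng mog cd2q0 cd4q1 pd0 1 false false false .up 0 0 1 (qsf 0 536870912 536870912 536870912 0) ndB2q0 ndB4q1 pcB0 Cut.none Ext.none)

def k0_mm_001 : ∃ t, chk3 f_mm_001 t 1 1 1 = true :=
  ⟨(l 3), by decide +kernel⟩

theorem c_mm_001 : CertB 0 536870912 536870912 536870912 923417968 42949674 3 eng mog cd2q0 cd4q1 pd0 false false false .up 0 0 1
    ndB2q0 ndB4q1 pcB0 Cut.none Ext.none :=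
  certB1 (fam := false) (s1 := false) (s2 := false) (a := 0) (b := 0) (c := 1) (cn := .up) (n1 := ndB2q0) (n2 := ndB4q1) (pc := pcB0) (cut := Cut.none) (xt := Ext.none) (P1 := 0) (W1 := 536870912) (P2 := 536870912) (W2 := 536870912) (P3 := 923417968) (W3 := 42949674) (N0 := 3) (En := eng) (mo := mog) (C1 := cd2q0) (C2 := cd4q1) (C3 := pd0)
    rfl (fun _ => rfl) k0_mm_001

noncomputable def f_mm_011 : ℕ → ℕ → ℕ → ℕ → Bool := onCell 0 536870912 536870912 536870912 923417968 42949674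
    (rowB 3 eng mog cd2q0 cd4q1 pd1 1 false false false .pnn 0 1 1 (qsf 0 536870912 536870912 536870912 1) ndB2q0 ndB4q1 pcB1 Cut.none Ext.none)

def k0_mm_011 : ∃ t, chk3 f_mm_011 t 1 1 1 = true :=
  ⟨(l 5), by decide +kernel⟩

theorem c_mm_011 : CertB 0 536870912 536870912 536870912 923417968 42949674 3 eng mog cd2q0 cd4q1 pd1 false false false .pnn 0 1 1
    ndB2q0 ndB4q1 pcB1 Cut.none Ext.none :=
  certB1 (fam := false) (s1 := false) (s2 := false) (a := 0) (b := 1) (c := 1) (cn := .pnn) (n1 := ndB2q0) (n2 := ndB4q1) (pc := pcB1) (cut := Cut.none) (xt := Ext.none) (P1 := 0) (W1 := 536870912) (P2 := 536870912) (W2 := 536870912) (P3 := 923417968) (W3 := 42949674) (N0 := 3) (En := eng) (mo := mog) (C1 := cd2q0) (C2 := cd4q1) (C3 := pd1)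
    rfl (fun _ => rfl) k0_mm_011

noncomputable def f_mm_012 : ℕ → ℕ → ℕ → ℕ → Bool := onCell 0 536870912 1073741824 536870912 923417968 42949674
    (rowB 3 eng mog cd2q0 cd4q2 pd1 0 false false false .pnp 0 1 2 (qsf 0 536870912 1073741824 536870912 1) ndB2q0 ndB4q2 pcB1 Cut.none Ext.none)

def k0_mm_012 : ∃ t, chk3 f_mm_012 t 1 1 1 = true :=
  ⟨(l 5), by decide +kernel⟩

theorem c_mm_012 : CertB 0 536870912 1073741824 536870912 923417968 42949674 3 eng mog cd2q0 cd4q2 pd1 false false false .pnp 0 1 2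
    ndB2q0 ndB4q2 pcB1 Cut.none Ext.none :=
  certB0 (fam := false) (s1 := false) (s2 := false) (a := 0) (b := 1) (c := 2) (cn := .pnp) (n1 := ndB2q0) (n2 := ndB4q2) (pc := pcB1) (cut := Cut.none) (xt := Ext.none) (P1 := 0) (W1 := 536870912) (P2 := 1073741824) (W2 := 536870912) (P3 := 923417968) (W3 := 42949674) (N0 := 3) (En := eng) (mo := mog) (C1 := cd2q0) (C2 := cd4q2) (C3 := pd1)
    rfl k0_mm_012

noncomputable def f_mm_022 : ℕ → ℕ → ℕ → ℕ → Bool := onCell 0 536870912 1073741824 536870912 923417968 42949674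
    (rowB 3 eng mog cd2q0 cd4q2 pd2 0 false false false .pp 0 2 2 (qsf 0 536870912 1073741824 536870912 2) ndB2q0 ndB4q2 pcB2 Cut.none Ext.none)

def k0_mm_022 : ∃ t, chk3 f_mm_022 t 1 1 1 = true :=
  ⟨(l 5), by decide +kernel⟩

theorem c_mm_022 : CertB 0 536870912 1073741824 536870912 923417968 42949674 3 eng mog cd2q0 cd4q2 pd2 false false false .pp 0 2 2
    ndB2q0 ndB4q2 pcB2 Cut.none Ext.none :=
  certB0 (fam := false) (s1 := false) (s2 := false) (a := 0) (b := 2) (c := 2) (cn := .pp) (n1 := ndB2q0) (n2 := ndB4q2) (pc := pcB2) (cut := Cut.none) (xt := Ext.none) (P1 := 0) (W1 := 536870912) (P2 := 1073741824) (W2 := 536870912) (P3 := 923417968) (W3 := 42949674) (N0 := 3) (En := eng) (mo := mog) (C1 := cd2q0) (C2 := cd4q2) (C3 := pd2)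
    rfl k0_mm_022

noncomputable def f_mm_023 : ℕ → ℕ → ℕ → ℕ → Bool := onCell 0 536870912 0 1230186008 923417968 42949674
    (rowB 3 eng mog cd2q0 cd4q3 pd2 0 false false false .up 0 2 3 (qsf 0 536870912 0 1230186008 2) ndB2q0 ndB4q3 pcB2 Cut.none Ext.none)

def k0_mm_023 : ∃ t, chk3 f_mm_023 t 1 1 1 = true :=
  ⟨(l 5), by decide +kernel⟩

theorem c_mm_023 : CertB 0 536870912 0 1230186008 923417968 42949674 3 eng mog cd2q0 cd4q3 pd2 false false false .up 0 2 3
    ndB2q0 ndB4q3 pcB2 Cut.none Ext.none :=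
  certB0 (fam := false) (s1 := false) (s2 := false) (a := 0) (b := 2) (c := 3) (cn := .up) (n1 := ndB2q0) (n2 := ndB4q3) (pc := pcB2) (cut := Cut.none) (xt := Ext.none) (P1 := 0) (W1 := 536870912) (P2 := 0) (W2 := 1230186008) (P3 := 923417968) (W3 := 42949674) (N0 := 3) (En := eng) (mo := mog) (C1 := cd2q0) (C2 := cd4q3) (C3 := pd2)
    rfl k0_mm_023

noncomputable def f_mm_033 : ℕ → ℕ → ℕ → ℕ → Bool := onCell 0 536870912 0 1230186008 923417968 42949674
    (rowB 3 eng mog cd2q0 cd4q3 pd3 0 false false false .pnn 0 3 3 (qsf 0 536870912 0 1230186008 3) ndB2q0 ndB4q3 pcB3 Cut.none Ext.none)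

def k0_mm_033 : ∃ t, chk3 f_mm_033 t 1 1 1 = true :=
  ⟨(l 5), by decide +kernel⟩

theorem c_mm_033 : CertB 0 536870912 0 1230186008 923417968 42949674 3 eng mog cd2q0 cd4q3 pd3 false false false .pnn 0 3 3
    ndB2q0 ndB4q3 pcB3 Cut.none Ext.none :=
  certB0 (fam := false) (s1 := false) (s2 := false) (a := 0) (b := 3) (c := 3) (cn := .pnn) (n1 := ndB2q0) (n2 := ndB4q3) (pc := pcB3) (cut := Cut.none) (xt := Ext.none) (P1 := 0) (W1 := 536870912) (P2 := 0) (W2 := 1230186008) (P3 := 923417968) (W3 := 42949674) (N0 := 3) (En := eng) (mo := mog) (C1 := cd2q0) (C2 := cd4q3) (C3 := pd3)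
    rfl k0_mm_033

noncomputable def f_mm_101 : ℕ → ℕ → ℕ → ℕ → Bool := onCell 536870912 536870912 536870912 536870912 923417968 42949674
    (rowB 3 eng mog cd2q1 cd4q1 pd0 0 false false false .npn 1 0 1 (qsf 536870912 536870912 536870912 536870912 0) ndB2q1 ndB4q1 pcB0 Cut.none Ext.none)

def k0_mm_101 : ∃ t, chk3 f_mm_101 t 1 1 1 = true :=
  ⟨(l 3), by decide +kernel⟩

theorem c_mm_101 : CertB 536870912 536870912 536870912 536870912 923417968 42949674 3 eng mog cd2q1 cd4q1 pd0 false false false .npn 1 0 1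
    ndB2q1 ndB4q1 pcB0 Cut.none Ext.none :=
  certB0 (fam := false) (s1 := false) (s2 := false) (a := 1) (b := 0) (c := 1) (cn := .npn) (n1 := ndB2q1) (n2 := ndB4q1) (pc := pcB0) (cut := Cut.none) (xt := Ext.none) (P1 := 536870912) (W1 := 536870912) (P2 := 536870912) (W2 := 536870912) (P3 := 923417968) (W3 := 42949674) (N0 := 3) (En := eng) (mo := mog) (C1 := cd2q1) (C2 := cd4q1) (C3 := pd0)
    rfl k0_mm_101

noncomputable def f_mm_102 : ℕ → ℕ → ℕ → ℕ → Bool := onCell 536870912 536870912 1073741824 536870912 923417968 42949674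
    (rowB 3 eng mog cd2q1 cd4q2 pd0 0 false false false .npp 1 0 2 (qsf 536870912 536870912 1073741824 536870912 0) ndB2q1 ndB4q2 pcB0 Cut.none Ext.none)

def k0_mm_102 : ∃ t, chk3 f_mm_102 t 1 1 1 = true :=
  ⟨(l 3), by decide +kernel⟩

theorem c_mm_102 : CertB 536870912 536870912 1073741824 536870912 923417968 42949674 3 eng mog cd2q1 cd4q2 pd0 false false false .npp 1 0 2
    ndB2q1 ndB4q2 pcB0 Cut.none Ext.none :=
  certB0 (fam := false) (s1 := false) (s2 := false) (a := 1) (b := 0) (c := 2) (cn := .npp) (n1 := ndB2q1) (n2 := ndB4q2) (pc := pcB0) (cut := Cut.none) (xt := Ext.none) (P1 := 536870912) (W1 := 536870912) (P2 := 1073741824) (W2 := 536870912) (P3 := 923417968) (W3 := 42949674) (N0 := 3) (En := eng) (mo := mog) (C1 := cd2q1) (C2 := cd4q2) (C3 := pd0)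
    rfl k0_mm_102

noncomputable def f_mm_112 : ℕ → ℕ → ℕ → ℕ → Bool := onCell 536870912 536870912 1073741824 536870912 923417968 42949674
    (rowB 3 eng mog cd2q1 cd4q2 pd1 0 false false false .dn 1 1 2 (qsf 536870912 536870912 1073741824 536870912 1) ndB2q1 ndB4q2 pcB1 Cut.none Ext.none)

def k0_mm_112 : ∃ t, chk3 f_mm_112 t 1 1 1 = true :=
  ⟨(l 3), by decide +kernel⟩

theorem c_mm_112 : CertB 536870912 536870912 1073741824 536870912 923417968 42949674 3 eng mog cd2q1 cd4q2 pd1 false false false .dn 1 1 2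
    ndB2q1 ndB4q2 pcB1 Cut.none Ext.none :=
  certB0 (fam := false) (s1 := false) (s2 := false) (a := 1) (b := 1) (c := 2) (cn := .dn) (n1 := ndB2q1) (n2 := ndB4q2) (pc := pcB1) (cut := Cut.none) (xt := Ext.none) (P1 := 536870912) (W1 := 536870912) (P2 := 1073741824) (W2 := 536870912) (P3 := 923417968) (W3 := 42949674) (N0 := 3) (En := eng) (mo := mog) (C1 := cd2q1) (C2 := cd4q2) (C3 := pd1)
    rfl k0_mm_112

noncomputable def f_mm_113 : ℕ → ℕ → ℕ → ℕ → Bool := onCell 536870912 536870912 0 1230186008 923417968 42949674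
    (rowB 3 eng mog cd2q1 cd4q3 pd1 0 false false false .nn 1 1 3 (qsf 536870912 536870912 0 1230186008 1) ndB2q1 ndB4q3 pcB1 Cut.none Ext.none)

def k0_mm_113 : ∃ t, chk3 f_mm_113 t 1 1 1 = true :=
  ⟨(l 5), by decide +kernel⟩

theorem c_mm_113 : CertB 536870912 536870912 0 1230186008 923417968 42949674 3 eng mog cd2q1 cd4q3 pd1 false false false .nn 1 1 3
    ndB2q1 ndB4q3 pcB1 Cut.none Ext.none :=
  certB0 (fam := false) (s1 := false) (s2 := false) (a := 1) (b := 1) (c := 3) (cn := .nn) (n1 := ndB2q1) (n2 := ndB4q3) (pc := pcB1) (cut := Cut.none) (xt := Ext.none) (P1 := 536870912) (W1 := 536870912) (P2 := 0) (W2 := 1230186008) (P3 := 923417968) (W3 := 42949674) (N0 := 3) (En := eng) (mo := mog) (C1 := cd2q1) (C2 := cd4q3) (C3 := pd1)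
    rfl k0_mm_113

noncomputable def f_mm_123 : ℕ → ℕ → ℕ → ℕ → Bool := onCell 536870912 536870912 0 1230186008 923417968 42949674
    (rowB 3 eng mog cd2q1 cd4q3 pd2 0 false false false .npn 1 2 3 (qsf 536870912 536870912 0 1230186008 2) ndB2q1 ndB4q3 pcB2 Cut.none Ext.none)

def k0_mm_123 : ∃ t, chk3 f_mm_123 t 1 1 1 = true :=
  ⟨(l 5), by decide +kernel⟩

theorem c_mm_123 : CertB 536870912 536870912 0 1230186008 923417968 42949674 3 eng mog cd2q1 cd4q3 pd2 false false false .npn 1 2 3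
    ndB2q1 ndB4q3 pcB2 Cut.none Ext.none :=
  certB0 (fam := false) (s1 := false) (s2 := false) (a := 1) (b := 2) (c := 3) (cn := .npn) (n1 := ndB2q1) (n2 := ndB4q3) (pc := pcB2) (cut := Cut.none) (xt := Ext.none) (P1 := 536870912) (W1 := 536870912) (P2 := 0) (W2 := 1230186008) (P3 := 923417968) (W3 := 42949674) (N0 := 3) (En := eng) (mo := mog) (C1 := cd2q1) (C2 := cd4q3) (C3 := pd2)
    rfl k0_mm_123

noncomputable def f_mm_133 : ℕ → ℕ → ℕ → ℕ → Bool := onCell 536870912 536870912 0 1230186008 923417968 42949674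
    (rowB 3 eng mog cd2q1 cd4q3 pd3 0 false false false .dn 1 3 3 (qsf 536870912 536870912 0 1230186008 3) ndB2q1 ndB4q3 pcB3 Cut.none Ext.none)

def k0_mm_133 : ∃ t, chk3 f_mm_133 t 1 1 1 = true :=
  ⟨(l 5), by decide +kernel⟩

theorem c_mm_133 : CertB 536870912 536870912 0 1230186008 923417968 42949674 3 eng mog cd2q1 cd4q3 pd3 false false false .dn 1 3 3
    ndB2q1 ndB4q3 pcB3 Cut.none Ext.none :=
  certB0 (fam := false) (s1 := false) (s2 := false) (a := 1) (b := 3) (c := 3) (cn := .dn) (n1 := ndB2q1) (n2 := ndB4q3) (pc := pcB3) (cut := Cut.none) (xt := Ext.none) (P1 := 536870912) (W1 := 536870912) (P2 := 0) (W2 := 1230186008) (P3 := 923417968) (W3 := 42949674) (N0 := 3) (En := eng) (mo := mog) (C1 := cd2q1) (C2 := cd4q3) (C3 := pd3)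
    rfl k0_mm_133

noncomputable def f_mm_202 : ℕ → ℕ → ℕ → ℕ → Bool := onCell 1073741824 536870912 1073741824 536870912 923417968 42949674
    (rowB 3 eng mog cd2q2 cd4q2 pd0 0 false false false .pp 2 0 2 (qsf 1073741824 536870912 1073741824 536870912 0) ndB2q2 ndB4q2 pcB0 Cut.none Ext.none)

def k0_mm_202 : ∃ t, chk3 f_mm_202 t 1 1 1 = true :=
  ⟨(a (l 3) (b (b (l 1) (l 3)) (l 3))), by decide +kernel⟩

theorem c_mm_202 : CertB 1073741824 536870912 1073741824 536870912 923417968 42949674 3 eng mog cd2q2 cd4q2 pd0 false false false .pp 2 0 2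
    ndB2q2 ndB4q2 pcB0 Cut.none Ext.none :=
  certB0 (fam := false) (s1 := false) (s2 := false) (a := 2) (b := 0) (c := 2) (cn := .pp) (n1 := ndB2q2) (n2 := ndB4q2) (pc := pcB0) (cut := Cut.none) (xt := Ext.none) (P1 := 1073741824) (W1 := 536870912) (P2 := 1073741824) (W2 := 536870912) (P3 := 923417968) (W3 := 42949674) (N0 := 3) (En := eng) (mo := mog) (C1 := cd2q2) (C2 := cd4q2) (C3 := pd0)
    rfl k0_mm_202

noncomputable def f_mm_203 : ℕ → ℕ → ℕ → ℕ → Bool := onCell 1073741824 536870912 0 1230186008 923417968 42949674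
    (rowB 3 eng mog cd2q2 cd4q3 pd0 0 false false false .up 2 0 3 (qsf 1073741824 536870912 0 1230186008 0) ndB2q2 ndB4q3 pcB0 Cut.none Ext.none)

def k0_mm_203 : ∃ t, chk3 f_mm_203 t 1 1 1 = true :=
  ⟨(b (l 5) (l 3)), by decide +kernel⟩

theorem c_mm_203 : CertB 1073741824 536870912 0 1230186008 923417968 42949674 3 eng mog cd2q2 cd4q3 pd0 false false false .up 2 0 3
    ndB2q2 ndB4q3 pcB0 Cut.none Ext.none :=
  certB0 (fam := false) (s1 := false) (s2 := false) (a := 2) (b := 0) (c := 3) (cn := .up) (n1 := ndB2q2) (n2 := ndB4q3) (pc := pcB0) (cut := Cut.none) (xt := Ext.none) (P1 := 1073741824) (W1 := 536870912) (P2 := 0) (W2 := 1230186008) (P3 := 923417968) (W3 := 42949674) (N0 := 3) (En := eng) (mo := mog) (C1 := cd2q2) (C2 := cd4q3) (C3 := pd0)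
    rfl k0_mm_203

noncomputable def f_mm_213 : ℕ → ℕ → ℕ → ℕ → Bool := onCell 1073741824 536870912 0 1230186008 923417968 42949674
    (rowB 3 eng mog cd2q2 cd4q3 pd1 0 false false false .pnn 2 1 3 (qsf 1073741824 536870912 0 1230186008 1) ndB2q2 ndB4q3 pcB1 Cut.none Ext.none)

def k0_mm_213 : ∃ t, chk3 f_mm_213 t 1 1 1 = true :=
  ⟨(b (l 5) (l 3)), by decide +kernel⟩

theorem c_mm_213 : CertB 1073741824 536870912 0 1230186008 923417968 42949674 3 eng mog cd2q2 cd4q3 pd1 false false false .pnn 2 1 3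
    ndB2q2 ndB4q3 pcB1 Cut.none Ext.none :=
  certB0 (fam := false) (s1 := false) (s2 := false) (a := 2) (b := 1) (c := 3) (cn := .pnn) (n1 := ndB2q2) (n2 := ndB4q3) (pc := pcB1) (cut := Cut.none) (xt := Ext.none) (P1 := 1073741824) (W1 := 536870912) (P2 := 0) (W2 := 1230186008) (P3 := 923417968) (W3 := 42949674) (N0 := 3) (En := eng) (mo := mog) (C1 := cd2q2) (C2 := cd4q3) (C3 := pd1)
    rfl k0_mm_213

noncomputable def f_mm_303 : ℕ → ℕ → ℕ → ℕ → Bool := onCell 0 1230186008 0 1230186008 923417968 42949674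
    (rowB 3 eng mog cd2q3 cd4q3 pd0 0 false false false .npn 3 0 3 (qsf 0 1230186008 0 1230186008 0) ndB2q3 ndB4q3 pcB0 Cut.none Ext.none)

def k0_mm_303 : ∃ t, chk3 f_mm_303 t 1 1 1 = true :=
  ⟨(a (b (l 3) (b (l 3) (l 1))) (b (l 3) (a (b (l 3) (a (l 1) (l 3))) (l 3)))), by decide +kernel⟩

theorem c_mm_303 : CertB 0 1230186008 0 1230186008 923417968 42949674 3 eng mog cd2q3 cd4q3 pd0 false false false .npn 3 0 3
    ndB2q3 ndB4q3 pcB0 Cut.none Ext.none :=
  certB0 (fam := false) (s1 := false) (s2 := false) (a := 3) (b := 0) (c := 3) (cn := .npn) (n1 := ndB2q3) (n2 := ndB4q3) (pc := pcB0) (cut := Cut.none) (xt := Ext.none) (P1 := 0) (W1 := 1230186008) (P2 := 0) (W2 := 1230186008) (P3 := 923417968) (W3 := 42949674) (N0 := 3) (En := eng) (mo := mog) (C1 := cd2q3) (C2 := cd4q3) (C3 := pd0)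
    rfl k0_mm_303

noncomputable def f_mm_313 : ℕ → ℕ → ℕ → ℕ → Bool := onCell 0 1230186008 0 1230186008 923417968 42949674
    (rowB 3 eng mog cd2q3 cd4q3 pd1 0 false false false .dn 3 1 3 (qsf 0 1230186008 0 1230186008 1) ndB2q3 ndB4q3 pcB1 Cut.none Ext.none)

def k0_mm_313 : ∃ t, chk3 f_mm_313 t 1 1 1 = true :=
  ⟨(a (l 1) (b (l 3) (l 1))), by decide +kernel⟩

theorem c_mm_313 : CertB 0 1230186008 0 1230186008 923417968 42949674 3 eng mog cd2q3 cd4q3 pd1 false false false .dn 3 1 3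
    ndB2q3 ndB4q3 pcB1 Cut.none Ext.none :=
  certB0 (fam := false) (s1 := false) (s2 := false) (a := 3) (b := 1) (c := 3) (cn := .dn) (n1 := ndB2q3) (n2 := ndB4q3) (pc := pcB1) (cut := Cut.none) (xt := Ext.none) (P1 := 0) (W1 := 1230186008) (P2 := 0) (W2 := 1230186008) (P3 := 923417968) (W3 := 42949674) (N0 := 3) (En := eng) (mo := mog) (C1 := cd2q3) (C2 := cd4q3) (C3 := pd1)
    rfl k0_mm_313

end Pool.Agent.Strip051.G.I8600_9000.Tab.C.BB24

namespace Pool.Agent.Strip051.G.I8600_9000.Tab.C.BB30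

open Pool.Agent.Strip051.PB Pool.Agent.Strip051.PB.T
open Pool.Agent.Strip051.G.I8600_9000.Tab

noncomputable def f_pp_001 : ℕ → ℕ → ℕ → ℕ → Bool := onCell 0 536870912 536870912 536870912 923417968 42949674
    (rowB 3 eng mog cd3q0 cd0q1 pd0 2 false true true .up 0 0 1 (qsf 0 536870912 536870912 536870912 0) ndB3q0 ndB0q1 pcB0 Cut.none Ext.none)

def k0_pp_001 : ∃ t, chk3 f_pp_001 t 1 2 1 = true :=
  ⟨(l 3), by decide +kernel⟩

def k1_pp_001 : ∃ t, chk3 f_pp_001 t 1 6 1 = true :=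
  ⟨(l 3), by decide +kernel⟩

def k2_pp_001 : ∃ t, chk3 f_pp_001 t 2 7 1 = true :=
  ⟨(l 2), by decide +kernel⟩

def k3_pp_001 : ∃ t, chk3 f_pp_001 t 6 7 1 = true :=
  ⟨(b (b (l 3) (l 2)) (l 2)), by decide +kernel⟩

def k4_pp_001 : ∃ t, chk3 f_pp_001 t 7 28 1 = true :=
  ⟨(b (l 3) (b (l 3) (a (l 3) (a (l 3) (a (c (c (l 292761555447) (l 262159878391)) (c (l 235852988199) (a (l 238000246775) (l 252495704775)))) (c (c (l 227800150199) (l 199882914215)) (a (c (l 209009400823) (l 207398533175)) (c (l 211156868423) (l 208472266551))))))))), by decide +kernel⟩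

def k5_pp_001 : ∃ t, chk3 f_pp_001 t 7 29 1 = true :=
  ⟨(b (b (a (a (l 3) (a (l 3) (a (l 3) (c (c (l 290614083927) (l 282560936759)) (c (l 225115720679) (l 220820452503)))))) (c (a (a (a (c (l 233168893943) (l 224579004375)) (c (l 236926979319) (l 226189587815))) (c (l 242295677015) (c (l 16397776) (l 225652637415)))) (c (a (l 246053765495) (l 16403816)) (a (b (l 205251643911) (l 16336544)) (l 16320896)))) (a (a (b (l 3) (c (l 224578796791) (a (l 225652206327) (l 228336525847)))) (c (b (l 217599412247) (l 16225208)) (a (l 224578408983) (l 225652122423)))) (a (c (a (l 16190880) (l 16223304)) (b (a (l 225115224775) (l 16100432)) (l 16097736))) (c (a (l 16214816) (l 16207360)) (a (l 16089536) (l 16083344))))))) (a (a (l 2) (a (a (b (l 3) (l 2)) (c (c (b (l 289540323623) (l 137001858215)) (l 241221994599)) (c (l 237463745783) (l 235316009015)))) (c (c (b (a (l 243906297479) (l 16343432)) (l 16323648)) (c (l 16433016) (l 16382504))) (a (c (l 234779420679)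 (l 235315963063)) (c (l 16266840) (l 195050601383)))))) (c (a (a (a (c (l 16334080) (l 16364224)) (c (l 16414272) (l 16370552))) (c (l 16428320) (l 16350256))) (c (l 16379608) (a (l 16326264) (l 16305800)))) (a (a (c (b (l 16246112) (l 16262176)) (b (l 16096344) (l 16133888))) (c (l 16237408) (b (l 16112280) (l 16106920)))) (a (c (l 16214496) (l 16088000)) (c (l 16195840) (l 16071272))))))) (a (a (l 2) (c (c (b (a (l 162234727655) (l 16342712)) (l 16261984)) (a (l 16347168) (l 16352856))) (c (a (l 112842591511) (l 16284496)) (a (l 79556395831) (l 16137048))))) (c (a (b (a (l 16309168) (l 16322752)) (l 16262200)) (c (l 16380264) (l 16210920))) (c (a (a (l 16250528) (l 16220816)) (l 16184400)) (a (b (l 16091896) (l 16104176)) (l 16038488)))))), by decide +kernel⟩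

def k6_pp_001 : ∃ t, chk3 f_pp_001 t 7 15 1 = true :=
  ⟨(a (a (l 2) (a (l 2) (b (b (c (l 16419080) (l 16190240)) (l 2)) (l 2)))) (b (c (a (c (l 16317248) (l 16315808)) (c (l 16340240) (l 16255384))) (a (b (c (l 16216752) (l 16092576)) (l 16142016)) (b (l 16056712) (l 16076720)))) (c (a (l 16323816) (l 16256768)) (a (l 16084872) (l 16050152))))), by decide +kernel⟩

theorem s7_pp_001 : ∃ t, chk3 f_pp_001 t 7 14 1 = true := ex3_b k4_pp_001 k5_pp_001

theorem s8_pp_001 : ∃ t, chk3 f_pp_001 t 7 7 1 = true := ex3_b s7_pp_001 k6_pp_001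

theorem s9_pp_001 : ∃ t, chk3 f_pp_001 t 3 7 1 = true := ex3_a k3_pp_001 s8_pp_001

theorem s10_pp_001 : ∃ t, chk3 f_pp_001 t 1 7 1 = true := ex3_a k2_pp_001 s9_pp_001

theorem s11_pp_001 : ∃ t, chk3 f_pp_001 t 1 3 1 = true := ex3_b k1_pp_001 s10_pp_001

theorem s12_pp_001 : ∃ t, chk3 f_pp_001 t 1 1 1 = true := ex3_b k0_pp_001 s11_pp_001

theorem c_pp_001 : CertB 0 536870912 536870912 536870912 923417968 42949674 3 eng mog cd3q0 cd0q1 pd0 false true true .up 0 0 1
    ndB3q0 ndB0q1 pcB0 Cut.none Ext.none :=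
  certB2 (fam := false) (s1 := true) (s2 := true) (a := 0) (b := 0) (c := 1) (cn := .up) (n1 := ndB3q0) (n2 := ndB0q1) (pc := pcB0) (cut := Cut.none) (xt := Ext.none) (P1 := 0) (W1 := 536870912) (P2 := 536870912) (W2 := 536870912) (P3 := 923417968) (W3 := 42949674) (N0 := 3) (En := eng) (mo := mog) (C1 := cd3q0) (C2 := cd0q1) (C3 := pd0)
    rfl (fun _ => rfl) s12_pp_001

noncomputable def f_pp_011 : ℕ → ℕ → ℕ → ℕ → Bool := onCell 536870912 536870912 536870912 536870912 923417968 42949674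
    (rowB 3 eng mog cd3q0 cd0q1 pd1 2 false true true .pnn 0 1 1 (qsf 0 536870912 536870912 536870912 1) ndB3q0 ndB0q1 pcB1 Cut.none Ext.none)

def k0_pp_011 : ∃ t, chk3 f_pp_011 t 2 2 1 = true :=
  ⟨(a (l 3) (b (a (b (l 1) (l 3)) (l 1)) (l 3))), by decide +kernel⟩

def k1_pp_011 : ∃ t, chk3 f_pp_011 t 2 6 1 = true :=
  ⟨(b (l 3) (a (l 3) (b (l 3) (b (a (l 3) (a (l 3) (c (a (l 210620243687) (l 207935915143)) (l 201493475207)))) (a (a (a (l 3) (c (c (l 211693986999) (l 225652582839)) (l 391545304535))) (a (c (c (l 200956566199) (l 201493361431)) (l 198808737671)) (c (b (l 202567127671) (l 216525726599)) (l 212230617271)))) (a (c (c (a (l 210083353495) (l 214378310727)) (l 203104055399)) (a (l 230484273527) (l 16181824))) (c (a (b (l 16218616) (l 16202568)) (l 16213984)) (a (l 16163152) (l 16149088))))))))), by decide +kernel⟩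

def k2_pp_011 : ∃ t, chk3 f_pp_011 t 8 14 1 = true :=
  ⟨(a (b (b (l 3) (b (a (l 3) (b (l 3) (c (c (l 320141884055) (a (l 16325472) (l 16317864))) (a (c (l 16180744) (l 301887821559)) (c (l 16217208) (l 16100856)))))) (c (a (c (c (l 240148159399) (l 106467519799)) (c (l 157470102519) (l 177871042871))) (c (l 201493413031) (c (l 16314248) (l 16267832)))) (a (c (a (b (l 178944658727) (l 16201624)) (l 177333993031)) (b (a (b (l 16071296) (l 16095480)) (l 180554987831)) (a (l 16079632) (l 16071120)))) (c (a (l 16193224) (l 16184688)) (a (l 16074840) (l 16068360))))))) (c (b (c (b (a (l 16355496) (l 16330296)) (a (l 16315000) (l 16289672))) (b (a (l 16269920) (l 16247272)) (a (l 16225424) (l 16202504)))) (c (c (l 16258288) (l 16216960)) (a (l 16158280) (l 16134856)))) (b (a (b (c (l 16141616) (a (l 16046568) (l 16037752))) (a (l 16064376) (l 16054344))) (b (a (l 16090184) (l 16082304)) (l 16041008))) (a (b (l 16015136) (l 15971208)) (l 15973712))))) (b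 (b (a (l 3) (a (l 3) (b (l 3) (c (l 329268561079) (l 350743284103))))) (c (a (b (c (a (l 220283863751) (l 225115678711)) (a (l 146195801463) (l 125794752679))) (c (l 16345104) (l 16272152))) (c (a (a (l 209546398583) (l 210083258103)) (l 212230716359)) (c (l 16338208) (l 150490614807)))) (c (a (b (a (l 171965314551) (l 16193536)) (l 16173408)) (b (l 16186216) (l 16161016))) (a (b (b (l 326583938871) (a (l 16097080) (l 16093064))) (l 16060352)) (a (l 170891285447) (l 16053936)))))) (c (b (a (c (l 16287128) (l 16205016)) (c (l 16266016) (l 16187784))) (c (l 16066104) (l 16105184))) (b (a (b (l 16072120) (l 16026248)) (b (l 16061400) (l 16014808))) (a (l 15957792) (l 15945184)))))), by decide +kernel⟩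

def k3_pp_011 : ∃ t, chk3 f_pp_011 t 9 14 1 = true :=
  ⟨(b (b (b (a (l 3) (c (c (a (l 229410719015) (l 217599441047)) (a (l 16320712) (l 16298136))) (a (l 404430325255) (l 142974239015)))) (a (c (c (a (a (l 211693836679) (l 217062513335)) (c (l 225115786711) (l 16324176))) (a (l 173039155703) (l 16308688))) (a (c (l 154785512679) (l 146195429351)) (c (l 16236968) (l 16143128)))) (c (c (a (l 196124770423) (l 16273616)) (l 16286704)) (c (l 16231368) (l 16149368))))) (a (c (a (b (c (l 16330176) (l 16283680)) (l 16275944)) (b (l 16192312) (l 16259632))) (a (c (l 16175000) (l 16051320)) (b (l 16145480) (l 16097232)))) (c (c (b (l 16269248) (l 16251536)) (l 16230976)) (a (b (l 16144248) (l 16095664)) (l 16141648))))) (a (c (b (c (l 16237640) (l 16208472)) (c (l 16154464) (l 16074840))) (b (a (l 16030144) (l 16025128)) (a (l 15935720) (l 15929240)))) (c (b (a (l 16184224) (l 16171928)) (l 16091208)) (b (a (l 16022816) (l 16022968)) (l 15924800))))), by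 decide +kernel⟩

def k4_pp_011 : ∃ t, chk3 f_pp_011 t 4 15 1 = true :=
  ⟨(a (b (c (a (b (c (l 16150024) (l 16055976)) (l 16014336)) (b (a (l 16069760) (l 16049880)) (l 15967960))) (a (b (a (l 15905752) (l 15884768)) (l 15808176)) (b (l 15859688) (l 15748544)))) (c (a (b (l 15924576) (l 15835560)) (b (l 15876920) (l 15786960))) (a (a (l 15693608) (l 15668720)) (l 15658432)))) (b (c (a (b (l 16024760) (l 15931888)) (b (l 15999256) (l 15905456))) (a (b (l 15837272) (l 15743512)) (c (l 15824064) (l 15708504)))) (c (a (l 15793368) (l 15765256)) (a (l 15606296) (l 15586912))))), by decide +kernel⟩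

def k5_pp_011 : ∃ t, chk3 f_pp_011 t 5 7 1 = true :=
  ⟨(b (a (b (a (c (b (c (b (a (l 16268992) (l 16249856)) (l 16240848)) (a (l 16264728) (l 16240144))) (a (l 16225816) (l 16201640))) (b (a (b (l 16238952) (l 16194408)) (l 16216496)) (a (l 16123032) (l 16126400)))) (c (b (c (a (l 16222144) (l 16206400)) (l 16206456)) (l 16291888)) (b (a (l 16210288) (l 16189808)) (l 16129776)))) (a (c (b (l 16154608) (l 16072792)) (b (l 16048432) (l 15927896))) (b (c (l 16126816) (l 16037360)) (c (l 16057528) (l 15938312))))) (b (a (c (b (c (l 16189176) (l 16170808)) (l 16127904)) (b (l 16153384) (l 16114352))) (c (b (l 16168760) (l 16108880)) (b (l 16117752) (l 16067080)))) (a (c (b (l 16076184) (l 16038544)) (b (l 16044152) (l 15951272))) (c (l 16219864) (l 16000880))))) (a (b (c (a (b (l 15982088) (l 15888040)) (l 15924608)) (a (c (l 15818736) (l 15711416)) (l 15784128))) (c (a (l 15746664) (l 15715656)) (a (l 15557976) (l 15560232)))) (b (a (c (l 15918376) (l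 15798080)) (c (l 15913888) (l 15816760))) (a (c (l 15712968) (l 15571176)) (c (l 15717296) (l 15611472)))))), by decide +kernel⟩

def k6_pp_011 : ∃ t, chk3 f_pp_011 t 3 2 1 = true :=
  ⟨(a (b (l 1) (a (b (l 1) (l 3)) (l 1))) (l 1)), by decide +kernel⟩

def k7_pp_011 : ∃ t, chk3 f_pp_011 t 6 3 1 = true :=
  ⟨(b (b (l 3) (a (b (l 3) (a (c (b (a (l 214378401975) (l 221357780343)) (a (l 16227096) (l 16253680))) (b (a (l 16146256) (l 16140736)) (l 16142192))) (c (b (a (l 228874052423) (l 251959619479)) (l 16327888)) (b (a (l 16145008) (l 16162632)) (l 16172128))))) (b (b (l 3) (b (l 3) (b (a (l 3) (l 1)) (a (a (l 3) (a (l 3) (c (l 233705940343) (c (l 243906223991) (l 247663986711))))) (a (a (c (l 627098521735) (c (l 648035928311) (l 659846718935))) (l 1)) (l 1)))))) (a (c (b (a (l 196125208375) (a (l 16530736) (c (l 16688280) (l 16524696)))) (l 16526720)) (b (a (b (l 16182104) (l 16213184)) (b (a (l 16222320) (c (l 16341112) (l 16178160))) (l 16280728)))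 (a (l 16241088) (l 16322352)))) (c (b (a (a (c (l 16728400) (l 504154905719)) (l 486438548007)) (b (l 1) (l 626561830535))) (a (l 16692472) (l 488048861079))) (b (a (b (a (a (c (l 521334259447) (l 533681925831)) (l 548177853959)) (l 660383988455)) (a (l 16356744) (l 534755996103))) (b (l 1) (l 681322343671))) (a (l 16446680) (b (l 554620759767) (l 16658256))))))))) (c (b (a (b (a (b (l 16196568) (l 16128048)) (b (l 16291408) (l 16215392))) (a (l 15999240) (l 16111648))) (b (a (b (l 16502280) (l 16366864)) (b (l 16577080) (l 16447464))) (a (l 16161192) (l 16252928)))) (a (b (a (l 15907736) (l 15877760)) (a (l 15729824) (l 15770968))) (b (a (l 15859152) (l 15974040)) (a (l 15795272) (l 15813752))))) (b (a (b (a (b (l 16110728) (l 16055304)) (b (l 16153416) (l 16097480))) (a (l 15955864) (l 15968168))) (b (a (b (l 16280904) (l 16231608)) (b (l 16487072) (l 16435752))) (a (l 16239216) (l 16221016)))) (a (b (a (l 15840448) (l 15860152)) (a (l 15640840)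 (l 15680144))) (b (a (l 15808208) (l 15914720)) (a (l 15726520) (l 15772400))))))), by decide +kernel⟩

def k8_pp_011 : ∃ t, chk3 f_pp_011 t 7 3 1 = true :=
  ⟨(b (a (b (l 1) (b (l 1) (a (a (a (b (l 1) (l 643741436439)) (l 1)) (l 1)) (l 1)))) (l 1)) (a (b (a (b (b (a (c (l 16629120) (l 16595392)) (l 634614387047)) (a (l 16510392) (l 488585271351))) (b (c (l 16400160) (l 16406688)) (l 16209504))) (b (b (l 1) (a (l 616897471927) (l 1))) (b (a (l 16471752) (l 601864902695)) (a (l 16346520) (l 16393448))))) (b (a (b (l 16136720) (l 15994432)) (b (c (l 16241368) (l 16247360)) (l 16114192))) (a (b (l 15843224) (l 15804704)) (b (l 15979488) (l 15835952))))) (a (b (b (l 1) (b (l 1) (a (l 16437744) (l 1)))) (b (b (a (l 16317808) (l 16392288)) (c (l 16219664) (l 16236000))) (a (b (l 16073480) (l 15945432)) (l 16167008)))) (b (l 1) (b (b (l 1) (c (l 16311704) (l 16351232))) (b (l 16300048) (l 16112472))))))), by decide +kernel⟩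

theorem s9_pp_011 : ∃ t, chk3 f_pp_011 t 3 3 1 = true := ex3_a k7_pp_011 k8_pp_011

theorem s10_pp_011 : ∃ t, chk3 f_pp_011 t 3 1 1 = true := ex3_b k6_pp_011 s9_pp_011

theorem s11_pp_011 : ∃ t, chk3 f_pp_011 t 4 14 1 = true := ex3_a k2_pp_011 k3_pp_011

theorem s12_pp_011 : ∃ t, chk3 f_pp_011 t 4 7 1 = true := ex3_b s11_pp_011 k4_pp_011

theorem s13_pp_011 : ∃ t, chk3 f_pp_011 t 2 7 1 = true := ex3_a s12_pp_011 k5_pp_011

theorem s14_pp_011 : ∃ t, chk3 f_pp_011 t 2 3 1 = true := ex3_b k1_pp_011 s13_pp_011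

theorem s15_pp_011 : ∃ t, chk3 f_pp_011 t 2 1 1 = true := ex3_b k0_pp_011 s14_pp_011

theorem s16_pp_011 : ∃ t, chk3 f_pp_011 t 1 1 1 = true := ex3_a s15_pp_011 s10_pp_011

theorem c_pp_011 : CertB 0 536870912 536870912 536870912 923417968 42949674 3 eng mog cd3q0 cd0q1 pd1 false true true .pnn 0 1 1
    ndB3q0 ndB0q1 pcB1 Cut.none Ext.none :=
  certB2 (fam := false) (s1 := true) (s2 := true) (a := 0) (b := 1) (c := 1) (cn := .pnn) (n1 := ndB3q0) (n2 := ndB0q1) (pc := pcB1) (cut := Cut.none) (xt := Ext.none) (P1 := 0) (W1 := 536870912) (P2 := 536870912) (W2 := 536870912) (P3 := 923417968) (W3 := 42949674) (N0 := 3) (En := eng) (mo := mog) (C1 := cd3q0) (C2 := cd0q1) (C3 := pd1)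
    rfl (fun _ => rfl) s16_pp_011

noncomputable def f_pp_012 : ℕ → ℕ → ℕ → ℕ → Bool := onCell 536870912 536870912 0 536870912 923417968 42949674
    (rowB 3 eng mog cd3q0 cd0q2 pd1 2 false true true .pnp 0 1 2 (qsf 0 536870912 0 536870912 1) ndB3q0 ndB0q2 pcB1 Cut.none Ext.none)

def k0_pp_012 : ∃ t, chk3 f_pp_012 t 2 1 1 = true :=
  ⟨(b (a (b (l 2) (a (l 2) (b (l 2) (l 15388160)))) (b (b (b (a (l 15251264) (l 15101256)) (a (a (l 15256712) (l 15178560)) (a (l 15110400) (l 15051264)))) (a (b (l 15215984) (l 15229296)) (l 15113296))) (a (b (l 15255728) (l 15292760)) (b (l 15169168) (l 15208160))))) (b (a (a (l 2) (b (b (l 15400968) (l 15389200)) (c (l 15542040) (l 15302624)))) (a (b (c (l 15468568) (l 15195048)) (c (l 15494712) (l 15300456))) (b (c (l 15426056) (l 15162656)) (c (l 15479488) (l 15358824))))) (a (b (a (a (l 2) (c (l 15581560) (l 15424192))) (c (b (l 15541512) (l 15539192)) (b (l 15331328) (l 15350112)))) (a (b (a (a (l 2) (b (l 15520664)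 (l 15567200))) (c (l 15708120) (l 15528304))) (c (a (l 15742432) (l 15696736)) (a (l 15574768) (l 15509920)))) (b (a (c (l 15616240) (l 15438096)) (b (l 15535944) (l 15488528))) (a (c (l 15660968) (l 15477848)) (c (l 15634992) (l 15457368)))))) (b (a (c (b (l 15512384) (l 15521488)) (b (l 15306880) (l 15338336))) (c (b (l 15517192) (l 15538888)) (b (l 15323248) (l 15368144)))) (a (c (b (a (l 15545632) (l 15545872)) (a (l 15618720) (l 15611752))) (b (a (l 15375816) (l 15382584)) (a (l 15448344) (l 15450208)))) (c (b (a (l 15555656) (l 15574880)) (a (l 15613592) (l 15624272))) (b (a (l 15400376) (l 15429048)) (a (l 15462280) (l 15484568))))))))), by decide +kernel⟩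

def k1_pp_012 : ∃ t, chk3 f_pp_012 t 3 2 1 = true :=
  ⟨(a (b (a (b (a (b (l 14996712) (a (l 15010992) (l 14987720))) (b (b (l 14941168) (l 14934608)) (l 14958008))) (l 15034192)) (b (b (b (a (l 14884064) (a (l 14849752) (l 14832680))) (l 14876400)) (l 14910192)) (l 14982760))) (a (b (c (l 15262624) (l 14955440)) (c (l 15332664) (l 15054656))) (a (b (l 15087616) (l 15190544)) (b (l 15079824) (l 15195312))))) (b (a (c (l 15034720) (l 14806368)) (a (l 14890848) (b (l 14817912) (l 14955960)))) (a (b (a (l 15078248) (l 15082328)) (a (l 15206216) (l 15222552))) (a (b (l 15091328) (l 15243360)) (b (l 15104240) (l 15267400)))))), by decide +kernel⟩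

def k2_pp_012 : ∃ t, chk3 f_pp_012 t 3 3 1 = true :=
  ⟨(a (b (a (b (c (l 15411832) (l 15166744)) (c (l 15494600) (l 15496952))) (b (c (l 15423464) (l 15204976)) (a (c (l 15523928) (l 15335120)) (l 15591664)))) (b (a (c (b (l 15553984) (l 15589384)) (b (l 15378480) (l 15437456))) (c (b (l 15620008) (l 15670432)) (a (l 15479784) (l 15537848)))) (a (a (b (c (l 15603488) (l 15468504)) (c (l 15644656) (l 15518048))) (b (c (l 15641200) (l 15518408)) (c (l 15675000) (l 15562960)))) (b (c (a (l 15687592) (l 15742200)) (a (l 15578240) (l 15647456))) (a (c (l 15714936) (l 15618800)) (a (l 15709760) (l 15740896))))))) (b (a (b (a (l 15351576) (l 15382168)) (a (l 15611776) (b (l 15508928) (l 15595512)))) (b (a (l 15458768) (c (l 15517280) (l 15388776))) (a (b (l 15554888) (l 15649504)) (b (l 15602704) (l 15704864))))) (a (c (b (a (l 15718728) (l 15773392)) (b (a (l 15804528) (l 15873792)) (a (l 15822896) (l 15892944)))) (b (c (l 15645784) (l 15612368)) (b (l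 15767240) (a (l 15761536) (l 15849440))))) (b (a (c (l 15830880) (l 15732608)) (c (b (l 15841016) (l 15931776)) (l 15832344))) (b (a (a (l 15904584) (l 15946848)) (a (l 15988600) (l 16028400))) (a (b (l 15969352) (l 15950208)) (c (b (l 16077272) (l 16081416)) (l 16052624)))))))), by decide +kernel⟩

theorem s3_pp_012 : ∃ t, chk3 f_pp_012 t 3 1 1 = true := ex3_b k1_pp_012 k2_pp_012

theorem s4_pp_012 : ∃ t, chk3 f_pp_012 t 1 1 1 = true := ex3_a k0_pp_012 s3_pp_012

theorem c_pp_012 : CertB 0 536870912 0 536870912 923417968 42949674 3 eng mog cd3q0 cd0q2 pd1 false true true .pnp 0 1 2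
    ndB3q0 ndB0q2 pcB1 Cut.none Ext.none :=
  certB2 (fam := false) (s1 := true) (s2 := true) (a := 0) (b := 1) (c := 2) (cn := .pnp) (n1 := ndB3q0) (n2 := ndB0q2) (pc := pcB1) (cut := Cut.none) (xt := Ext.none) (P1 := 0) (W1 := 536870912) (P2 := 0) (W2 := 536870912) (P3 := 923417968) (W3 := 42949674) (N0 := 3) (En := eng) (mo := mog) (C1 := cd3q0) (C2 := cd0q2) (C3 := pd1)
    rfl (fun _ => rfl) s4_pp_012

noncomputable def f_pp_022 : ℕ → ℕ → ℕ → ℕ → Bool := onCell 1073741824 536870912 0 536870912 923417968 42949674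
    (rowB 3 eng mog cd3q0 cd0q2 pd2 2 false true true .pp 0 2 2 (qsf 0 536870912 0 536870912 2) ndB3q0 ndB0q2 pcB2 Cut.none Ext.none)

def k0_pp_022 : ∃ t, chk3 f_pp_022 t 2 2 1 = true :=
  ⟨(a (a (b (a (b (l 14968368) (l 15125040)) (b (l 15199752) (l 15326904))) (b (a (c (l 15365112) (l 15218608)) (c (l 15519592) (l 15408200))) (a (c (l 15539536) (b (l 15360400) (l 15464872))) (a (l 15645976) (l 15651856))))) (b (a (l 15476240) (l 15674720)) (b (a (l 15671432) (l 15783496)) (a (c (l 15783128) (l 15740008)) (a (l 15844272) (l 15902256)))))) (a (a (b (l 15857008) (b (l 15943584) (l 15960952))) (b (l 16018216) (l 1))) (l 1))), by decide +kernel⟩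

def k1_pp_022 : ∃ t, chk3 f_pp_022 t 4 6 1 = true :=
  ⟨(a (b (a (c (b (l 15684192) (l 15787048)) (b (l 15576152) (a (l 15663248) (l 15722624)))) (c (b (l 15786288) (l 15873632)) (b (l 15708448) (l 15808624)))) (a (c (b (l 15892136) (a (l 15983576) (l 16012304))) (a (b (l 15788408) (l 15916336)) (b (l 15839272) (l 15958456)))) (b (a (l 15938072) (l 15957104)) (a (c (l 16039576) (l 15998440)) (c (l 16065008) (l 16035808)))))) (b (a (c (b (l 15881912) (l 15953336)) (b (l 15831680) (l 15914240))) (c (b (l 15968112) (l 16023208)) (b (l 15942024) (l 16006576)))) (a (a (b (l 15994696) (c (l 16088224) (l 16070160))) (b (l 16029488) (b (l 16085432) (l 1)))) (b (a (l 16061024) (l 1)) (l 1))))), by decide +kernel⟩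

def k2_pp_022 : ∃ t, chk3 f_pp_022 t 8 14 1 = true :=
  ⟨(b (a (b (a (c (l 16066616) (l 16013536)) (l 16090152)) (a (b (l 16085448) (c (l 16126864) (a (l 16081912) (l 16091392)))) (b (c (l 16126296) (l 16093016)) (l 16117432)))) (b (a (l 16117200) (b (l 16108592) (l 16129336))) (a (c (l 16135072) (l 16114744)) (c (l 16142344) (l 16133088))))) (a (a (c (b (l 16119808) (l 16101184)) (b (l 16082768) (a (l 16064528) (l 16074544)))) (c (b (l 16123784) (l 16109888)) (b (l 16098640) (l 16090848)))) (a (a (b (l 16120200) (l 16113120)) (b (l 16127032) (l 16122448))) (b (c (l 16139560) (l 16137912)) (c (l 16134848) (l 16141008)))))), by decide +kernel⟩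

def k3_pp_022 : ∃ t, chk3 f_pp_022 t 8 15 1 = true :=
  ⟨(b (a (c (a (b (a (l 16078424) (l 16084408)) (a (l 16056864) (l 16065288))) (b (a (l 16091176) (l 16098632)) (a (l 16074512) (l 16084264)))) (a (b (a (l 16048632) (l 16061464)) (a (b (l 16036360) (l 16028216)) (b (l 16051328) (l 16044632)))) (b (a (l 16075024) (l 16089224)) (a (b (l 16067032) (l 16061768)) (b (l 16083320) (l 16079384)))))) (a (b (a (c (l 16106632) (l 16103944)) (l 1)) (l 1)) (l 1))) (a (b (a (a (b (c (l 16040880) (l 16020264)) (c (a (l 16027768) (l 16033312)) (a (l 16008008) (l 16017464)))) (b (c (l 16051208) (l 16038152)) (a (c (l 16039144) (l 16027168)) (c (l 16045104) (l 16036992))))) (a (b (c (l 16062208) (l 16056672)) (l 1)) (l 1))) (a (b (b (a (a (c (l 16019936) (l 16002368)) (c (l 16026000) (l 16012416))) (a (a (l 16025032) (l 16029160)) (l 1))) (a (a (c (l 16014832) (l 15998824)) (a (l 16012776) (l 16017008))) (l 1))) (a (a (c (a (b (l 16008248) (l 16003272)) (c (l 16012632)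 (l 16005648))) (a (c (l 15994560) (l 15987968)) (c (l 15999400) (l 15993888)))) (b (a (b (l 16009824) (l 1)) (l 1)) (l 1))) (l 1))) (l 1))) (l 1))), by decide +kernel⟩

def k4_pp_022 : ∃ t, chk3 f_pp_022 t 9 7 1 = true :=
  ⟨(b (a (b (a (b (c (l 16139904) (l 16133312)) (l 16149768)) (l 1)) (l 1)) (l 1)) (l 1)), by decide +kernel⟩

def k5_pp_022 : ∃ t, chk3 f_pp_022 t 5 3 1 = true :=
  ⟨(b (l 1) (l 1)), by decide +kernel⟩

def k6_pp_022 : ∃ t, chk3 f_pp_022 t 3 1 1 = true :=
  ⟨(l 1), by decide +kernel⟩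

theorem s7_pp_022 : ∃ t, chk3 f_pp_022 t 8 7 1 = true := ex3_b k2_pp_022 k3_pp_022

theorem s8_pp_022 : ∃ t, chk3 f_pp_022 t 4 7 1 = true := ex3_a s7_pp_022 k4_pp_022

theorem s9_pp_022 : ∃ t, chk3 f_pp_022 t 4 3 1 = true := ex3_b k1_pp_022 s8_pp_022

theorem s10_pp_022 : ∃ t, chk3 f_pp_022 t 2 3 1 = true := ex3_a s9_pp_022 k5_pp_022

theorem s11_pp_022 : ∃ t, chk3 f_pp_022 t 2 1 1 = true := ex3_b k0_pp_022 s10_pp_022

theorem s12_pp_022 : ∃ t, chk3 f_pp_022 t 1 1 1 = true := ex3_a s11_pp_022 k6_pp_022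

theorem c_pp_022 : CertB 0 536870912 0 536870912 923417968 42949674 3 eng mog cd3q0 cd0q2 pd2 false true true .pp 0 2 2
    ndB3q0 ndB0q2 pcB2 Cut.none Ext.none :=
  certB2 (fam := false) (s1 := true) (s2 := true) (a := 0) (b := 2) (c := 2) (cn := .pp) (n1 := ndB3q0) (n2 := ndB0q2) (pc := pcB2) (cut := Cut.none) (xt := Ext.none) (P1 := 0) (W1 := 536870912) (P2 := 0) (W2 := 536870912) (P3 := 923417968) (W3 := 42949674) (N0 := 3) (En := eng) (mo := mog) (C1 := cd3q0) (C2 := cd0q2) (C3 := pd2)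
    rfl (fun _ => rfl) s12_pp_022

end Pool.Agent.Strip051.G.I8600_9000.Tab.C.BB30

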