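import Pool.Agent.Strip051.PB.DgE
import Pool.Agent.Strip051.PB.DgK
import Pool.Agent.Strip051.G.I8600_9000.Fact

/-! # The corner (1, 1, 2): parameters of the degenerate charts (generated) -/

set_option linter.all false

namespace Pool.Agent.Strip051.G.I8600_9000.Tab.DG

open Pool.Agent.Strip051.PB Pool.Agent.Strip051.PB.Dg Pool.Agent.StripNear Pool.Agent.Strip051.LC

noncomputable def pFma : Fn1 := ⟨_, _, fun h1 => (enc_norm (enc_sub (enc_rat _ 3167 10000) (enc_scale 1367 2000 (enc_subr 22 25 h1))))⟩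
noncomputable def pFmb : Fn1 := ⟨_, _, fun h1 => (enc_norm (enc_subr 2154 3125 (enc_neg (enc_scale 3473 5000 (enc_subr 22 25 h1)))))⟩
noncomputable def pFmu : Fn1 := ⟨_, _, fun h1 => (mug3.enc h1)⟩
noncomputable def pFnx : Fn1 := ⟨_, _, fun h1 => (enc_norm (enc_add h1 (enc_pnc _ 3)))⟩
noncomputable def pFc0 : Fn1 := ⟨_, _, fun h1 => (enc_pnc _ 1)⟩
noncomputable def pFkc : Fn1 := ⟨_, _, fun h1 => (enc_norm (enc_add (enc_scale 2593199 3125000 (enc_subr 22 25 h1)) (enc_rat _ 942258303 1000000000)))⟩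
noncomputable def pFjc : Fn1 := ⟨_, _, fun h1 => (enc_norm (enc_add (enc_scale 27481749 275000 (enc_subr 22 25 h1)) (enc_rat _ 688363107 110000000)))⟩
noncomputable def pFca : Fn1 := ⟨_, _, fun h1 => (enc_norm (enc_add (enc_scale 312 25 (enc_subr 22 25 h1)) (enc_rat _ 2513 2000)))⟩
noncomputable def pFcb : Fn1 := ⟨_, _, fun h1 => (enc_norm (enc_subr 697 2000 (enc_neg (enc_scale 741 100 (enc_subr 22 25 h1)))))⟩
noncomputable def pFcc : Fn1 := ⟨_, _, fun h1 => (enc_norm (enc_subr 86603 2000 (enc_neg (enc_scale 108253 100 (enc_subr 22 25 h1)))))⟩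
noncomputable def pFsv : Fn1 := ⟨_, _, fun h1 => (enc_norm (enc_subr 1 16 h1))⟩
noncomputable def pFx11 : Fn1 := ⟨_, _, fun h1 => (cv1m.enc h1)⟩
noncomputable def pFx01 : Fn1 := ⟨_, _, fun h1 => (c1g.enc h1)⟩
noncomputable def pFK11 : Fn2 := ⟨_, _, fun h1 h2 => (kf1q1.enc h1 h2)⟩
noncomputable def pFK01 : Fn2 := ⟨_, _, fun h1 h2 => (kf0q1.enc h1 h2)⟩
noncomputable def pFL11 : Fn2 := ⟨_, _, fun h1 h2 => (l1q1.enc h1 h2)⟩
noncomputable def pFL01 : Fn2 := ⟨_, _, fun h1 h2 => (l0q1.enc h1 h2)⟩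
noncomputable def kFc0 : Fn1 := ⟨_, _, fun h1 => (enc_norm (enc_sub (enc_rat _ 13 330000000) (enc_scale 13 33000000 (enc_subr 22 25 h1))))⟩
noncomputable def kFc0g : Fn1 := ⟨_, _, fun h1 => (enc_norm (enc_scale 54101 50 (enc_subr 22 25 h1)))⟩
noncomputable def kFc1 : Fn1 := ⟨_, _, fun h1 => (enc_norm (enc_subr 731161 11774490000000 (enc_scale 378283 1508606531250 (enc_subr 22 25 h1))))⟩
noncomputable def kFc1g : Fn1 := ⟨_, _, fun h1 => (enc_norm (enc_scale 12691 200 (enc_subr 22 25 h1)))⟩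
noncomputable def kFa0 : Fn1 := ⟨_, _, fun h1 => (enc_pnc _ 0)⟩
noncomputable def kFa0g : Fn1 := ⟨_, _, fun h1 => (enc_norm (enc_subr 1013 400 (enc_neg (enc_scale 1791 100 (enc_subr 22 25 h1)))))⟩
noncomputable def kFa1 : Fn1 := ⟨_, _, fun h1 => (enc_pnc _ 0)⟩
noncomputable def kFa1g : Fn1 := ⟨_, _, fun h1 => (enc_norm (enc_sub (enc_rat _ 1349 2000) (enc_scale 3123 200 (enc_subr 22 25 h1))))⟩
noncomputable def kFb0_2 : Fn1 := ⟨_, _, fun h1 => (enc_subr 22 25 h1)⟩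
noncomputable def kFb0 : Fn1 := ⟨_, _, fun h1 => (enc_norm (enc_add (enc_mul (enc_norm (enc_subr 56893653 4618900000000 (enc_scale 139641079 2586584000000 (kFb0_2.enc h1)))) (enc_norm (kFb0_2.enc h1))) (enc_rat _ 644594553 323323000000000)))⟩
noncomputable def kFb0g_2 : Fn1 := ⟨_, _, fun h1 => (enc_subr 22 25 h1)⟩
noncomputable def kFb0g : Fn1 := ⟨_, _, fun h1 => (enc_norm (enc_add (enc_mul (enc_norm (enc_sub (enc_rat _ 14703 1000) (enc_scale 4779 50 (kFb0g_2.enc h1)))) (enc_norm (kFb0g_2.enc h1))) (enc_rat _ 1102 625)))⟩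
noncomputable def kFd0 : Fn1 := ⟨_, _, fun h1 => (enc_pnc _ 0)⟩
noncomputable def kFd0g : Fn1 := ⟨_, _, fun h1 => (enc_norm (enc_subr 1013 400 (enc_neg (enc_scale 1791 100 (enc_subr 22 25 h1)))))⟩
noncomputable def kFd1_2 : Fn1 := ⟨_, _, fun h1 => (enc_subr 22 25 h1)⟩
noncomputable def kFd1 : Fn1 := ⟨_, _, fun h1 => (enc_norm (enc_add (enc_mul (enc_norm (enc_subr 56893653 2309450000000 (enc_scale 139641079 1293292000000 (kFd1_2.enc h1)))) (enc_norm (kFd1_2.enc h1))) (enc_rat _ 644594553 161661500000000)))⟩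
noncomputable def kFd1g_2 : Fn1 := ⟨_, _, fun h1 => (enc_subr 22 25 h1)⟩
noncomputable def kFd1g : Fn1 := ⟨_, _, fun h1 => (enc_norm (enc_add (enc_mul (enc_norm (enc_sub (enc_rat _ 14703 500) (enc_scale 4779 25 (kFd1g_2.enc h1)))) (enc_norm (kFd1g_2.enc h1))) (enc_rat _ 2204 625)))⟩
noncomputable def kFd2 : Fn1 := ⟨_, _, fun h1 => (enc_pnc _ 0)⟩
noncomputable def kFd2g : Fn1 := ⟨_, _, fun h1 => (enc_norm (enc_sub (enc_rat _ 1349 2000) (enc_scale 3123 200 (enc_subr 22 25 h1))))⟩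
noncomputable def kFe0 : Fn1 := ⟨_, _, fun h1 => (enc_pnc _ 0)⟩
noncomputable def kFe0g : Fn1 := ⟨_, _, fun h1 => (enc_norm (enc_subr 1013 400 (enc_neg (enc_scale 1791 100 (enc_subr 22 25 h1)))))⟩
noncomputable def kFe1_2 : Fn1 := ⟨_, _, fun h1 => (enc_subr 22 25 h1)⟩
noncomputable def kFe1 : Fn1 := ⟨_, _, fun h1 => (enc_norm (enc_add (enc_mul (enc_norm (enc_subr 56893653 4618900000000 (enc_scale 139641079 2586584000000 (kFe1_2.enc h1)))) (enc_norm (kFe1_2.enc h1))) (enc_rat _ 644594553 323323000000000)))⟩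
noncomputable def kFe1g_2 : Fn1 := ⟨_, _, fun h1 => (enc_subr 22 25 h1)⟩
noncomputable def kFe1g : Fn1 := ⟨_, _, fun h1 => (enc_norm (enc_add (enc_mul (enc_norm (enc_sub (enc_rat _ 14703 1000) (enc_scale 4779 50 (kFe1g_2.enc h1)))) (enc_norm (kFe1g_2.enc h1))) (enc_rat _ 1102 625)))⟩
noncomputable def kFe2 : Fn1 := ⟨_, _, fun h1 => (enc_pnc _ 0)⟩
noncomputable def kFe2g : Fn1 := ⟨_, _, fun h1 => (enc_norm (enc_sub (enc_rat _ 1349 2000) (enc_scale 3123 200 (enc_subr 22 25 h1))))⟩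
noncomputable def cFxs1 : Fn1 := ⟨_, _, fun h1 => (enc_norm (enc_add (enc_scale 3 5 (dgxi.enc h1)) (enc_scale 2 5 (dgws.enc h1))))⟩
noncomputable def cFsB1 : Fn2 := ⟨_, _, fun h1 h2 => (enc_norm (enc_subr 5773 2000 (enc_neg (enc_scale 99351 10000 (enc_subr 22 25 h2)))))⟩
noncomputable def cFBs1 : Fn2 := ⟨_, _, fun h1 h2 => (cFsB1.enc h1 h2)⟩
noncomputable def cFsX1 : Fn2 := ⟨_, _, fun h1 h2 => (enc_norm (enc_subr 4209 6250 (enc_neg (enc_scale 2181 625 (enc_subr 22 25 h2)))))⟩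
noncomputable def cFsD1 : Fn2 := ⟨_, _, fun h1 h2 => (enc_pnc _ 0)⟩
noncomputable def cFsDD1 : Fn2 := ⟨_, _, fun h1 h2 => (cFsD1.enc h1 h2)⟩
noncomputable def nFsc1 : Fn1 := ⟨_, _, fun h1 => (enc_scale 2 5 h1)⟩
noncomputable def nFB1_3 : Fn2 := ⟨_, _, fun h1 h2 => (enc_subr 22 25 h2)⟩
noncomputable def nFB1 : Fn2 := ⟨_, _, fun h1 h2 => (enc_norm (enc_add (enc_subr 16623 25000 (enc_scale 19661 10000 (nFB1_3.enc h1 h2))) (enc_mul h1 (enc_norm (enc_sub (enc_rat _ 339600000 242487113) (enc_scale 9419650000 242487113 (nFB1_3.enc h1 h2)))))))⟩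
noncomputable def nFX1_3 : Fn2 := ⟨_, _, fun h1 h2 => (enc_subr 22 25 h2)⟩
noncomputable def nFX1 : Fn2 := ⟨_, _, fun h1 h2 => (enc_norm (enc_add (enc_sub (enc_rat _ 99907 100000) (enc_scale 2223 5000 (nFX1_3.enc h1 h2))) (enc_mul h1 (enc_norm (enc_subr 11520000 429616471 (enc_scale 1609800000 429616471 (nFX1_3.enc h1 h2)))))))⟩
noncomputable def nFD1_3 : Fn2 := ⟨_, _, fun h1 h2 => (enc_subr 22 25 h2)⟩
noncomputable def nFD1 : Fn2 := ⟨_, _, fun h1 h2 => (enc_norm (enc_add (enc_subr 267 10000 (enc_neg (enc_scale 11 40 (nFD1_3.enc h1 h2)))) (enc_mul h1 (enc_norm (enc_add (enc_scale 35872500000 242487113 (nFD1_3.enc h1 h2)) (enc_rat _ 3477450000 242487113))))))⟩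
noncomputable def nFsc2 : Fn1 := ⟨_, _, fun h1 => (enc_norm (enc_add (enc_scale 87 100 h1) (enc_rat _ 13 100)))⟩
noncomputable def nFB2 : Fn2 := ⟨_, _, fun h1 h2 => (enc_norm (enc_subr 798740000 429616471 (enc_scale 853600000 429616471 (enc_subr 22 25 h2))))⟩
noncomputable def nFX2 : Fn2 := ⟨_, _, fun h1 h2 => (enc_norm (enc_add (enc_scale 293050000 429616471 (enc_subr 22 25 h2)) (enc_rat _ 161620000 429616471)))⟩
noncomputable def nFD2 : Fn2 := ⟨_, _, fun h1 h2 => (enc_norm (enc_sub (enc_rat _ 4627032324316 202476739355) (enc_scale 28058143467104 40495347871 (enc_subr 22 25 h2))))⟩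
noncomputable def nFsc3 : Fn1 := ⟨_, _, fun h1 => (enc_norm (enc_add (enc_half h1) (enc_rat _ 1 2)))⟩
noncomputable def nFB3 : Fn2 := ⟨_, _, fun h1 h2 => (enc_norm (enc_subr 145945000 242487113 (enc_neg (enc_scale 713550000 242487113 (enc_subr 22 25 h2)))))⟩
noncomputable def nFX3 : Fn2 := ⟨_, _, fun h1 h2 => (enc_norm (enc_add (enc_scale 144350000 429616471 (enc_subr 22 25 h2)) (enc_rat _ 54600000 429616471)))⟩
noncomputable def nFD3 : Fn2 := ⟨_, _, fun h1 h2 => (enc_norm (enc_sub (enc_rat _ 783214350000 40495347871) (enc_scale 1535202000000 3681395261 (enc_subr 22 25 h2))))⟩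
noncomputable def l12F : List Knk := [⟨11, 200, kFc0, kFc0g⟩, ⟨17, 200, kFc1, kFc1g⟩]
noncomputable def laF : List Knk := [⟨1, 20, kFa0, kFa0g⟩, ⟨1, 10, kFa1, kFa1g⟩]
noncomputable def lbF : List Knk := [⟨3, 50, kFb0, kFb0g⟩]
noncomputable def l1F : List Knk := [⟨1, 20, kFe0, kFe0g⟩, ⟨3, 50, kFe1, kFe1g⟩, ⟨1, 10, kFe2, kFe2g⟩]
noncomputable def l2F : List Knk := [⟨1, 20, kFd0, kFd0g⟩, ⟨3, 50, kFd1, kFd1g⟩, ⟨1, 10, kFd2, kFd2g⟩]
noncomputable def cvF1 : CvP := ⟨cFxs1, cFBs1, cFsX1⟩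
noncomputable def ndF1 : NdU := ⟨nFsc1, nFB1, nFX1, nFD1⟩
noncomputable def ndF2 : NdU := ⟨nFsc2, nFB2, nFX2, nFD2⟩
noncomputable def ndF3 : NdU := ⟨nFsc3, nFB3, nFX3, nFD3⟩
noncomputable def pF : Pm := ⟨pFma, pFmb, pFmu, pFnx, pFc0, pFkc, pFjc, pFkc, pFjc, pFkc, pFjc, pFca, pFcb, pFcc, pFcc, pFcc, pFsv, l12F, l12F, l12F, laF, lbF, l1F, l2F, cvF1, pFx11, pFx01, pFK11, pFK01, pFL11, pFL01⟩
noncomputable def pNc0 : Fn1 := ⟨_, _, fun h1 => (eng.enc h1)⟩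
noncomputable def pNkc : Fn1 := ⟨_, _, fun h1 => (enc_norm (enc_mul (pNc0.enc h1) (enc_norm (enc_add (enc_scale 2593199 3125000 (enc_subr 22 25 h1)) (enc_rat _ 942258303 1000000000)))))⟩
noncomputable def pNjc : Fn1 := ⟨_, _, fun h1 => (enc_norm (enc_mul (pNc0.enc h1) (enc_norm (enc_add (enc_scale 27481749 275000 (enc_subr 22 25 h1)) (enc_rat _ 688363107 110000000)))))⟩
noncomputable def pNcc : Fn1 := ⟨_, _, fun h1 => (enc_norm (enc_mul (pNc0.enc h1) (enc_norm (enc_subr 86603 2000 (enc_neg (enc_scale 108253 100 (enc_subr 22 25 h1)))))))⟩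
noncomputable def pNK11 : Fn2 := ⟨_, _, fun h1 h2 => (enc_norm (enc_mul (pNc0.enc h2) (kf1q1.enc h1 h2)))⟩
noncomputable def pNK01 : Fn2 := ⟨_, _, fun h1 h2 => (enc_norm (enc_mul (pNc0.enc h2) (kf0q1.enc h1 h2)))⟩
noncomputable def kNc0 : Fn1 := ⟨_, _, fun h1 => (enc_norm (enc_mul (pNc0.enc h1) (enc_norm (enc_sub (enc_rat _ 13 330000000) (enc_scale 13 33000000 (enc_subr 22 25 h1))))))⟩
noncomputable def kNc0g : Fn1 := ⟨_, _, fun h1 => (enc_norm (enc_mul (pNc0.enc h1) (enc_norm (enc_scale 54101 50 (enc_subr 22 25 h1)))))⟩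
noncomputable def kNc1 : Fn1 := ⟨_, _, fun h1 => (enc_norm (enc_mul (pNc0.enc h1) (enc_norm (enc_subr 731161 11774490000000 (enc_scale 378283 1508606531250 (enc_subr 22 25 h1))))))⟩
noncomputable def kNc1g : Fn1 := ⟨_, _, fun h1 => (enc_norm (enc_mul (pNc0.enc h1) (enc_norm (enc_scale 12691 200 (enc_subr 22 25 h1)))))⟩
noncomputable def cNBs1 : Fn2 := ⟨_, _, fun h1 h2 => (enc_norm (enc_mul (pNc0.enc h2) (cFsB1.enc h1 h2)))⟩
noncomputable def nNB1_4 : Fn2 := ⟨_, _, fun h1 h2 => (enc_subr 22 25 h2)⟩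
noncomputable def nNB1 : Fn2 := ⟨_, _, fun h1 h2 => (enc_norm (enc_mul (pNc0.enc h2) (enc_norm (enc_add (enc_subr 16623 25000 (enc_scale 19661 10000 (nNB1_4.enc h1 h2))) (enc_mul h1 (enc_norm (enc_sub (enc_rat _ 339600000 242487113) (enc_scale 9419650000 242487113 (nNB1_4.enc h1 h2)))))))))⟩
noncomputable def nNB2 : Fn2 := ⟨_, _, fun h1 h2 => (enc_norm (enc_mul (pNc0.enc h2) (enc_norm (enc_subr 798740000 429616471 (enc_scale 853600000 429616471 (enc_subr 22 25 h2))))))⟩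
noncomputable def nNB3 : Fn2 := ⟨_, _, fun h1 h2 => (enc_norm (enc_mul (pNc0.enc h2) (enc_norm (enc_subr 145945000 242487113 (enc_neg (enc_scale 713550000 242487113 (enc_subr 22 25 h2)))))))⟩
noncomputable def umo : Fn1 := ⟨_, _, fun h1 => (mog.enc h1)⟩
noncomputable def us1 : Fn1 := ⟨_, _, fun h1 => (enc_norm (enc_sub (enc_rat _ 985598020589 129000000000) (enc_scale 5763220767941 129000000000 (enc_subr 22 25 h1))))⟩
noncomputable def us2 : Fn1 := ⟨_, _, fun h1 => (enc_pnc _ 0)⟩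
noncomputable def us3 : Fn1 := ⟨_, _, fun h1 => (enc_norm (enc_subr 1384 167 (enc_scale 95494 167 (enc_subr 22 25 h1))))⟩
noncomputable def uC11 : Fn2 := ⟨_, _, fun h1 h2 => (kc1q1.enc h1 h2)⟩
noncomputable def uC01 : Fn2 := ⟨_, _, fun h1 h2 => (kc0q1.enc h1 h2)⟩
noncomputable def l12N : List Knk := [⟨11, 200, kNc0, kNc0g⟩, ⟨17, 200, kNc1, kNc1g⟩]
noncomputable def cvN1 : CvP := ⟨cFxs1, cNBs1, cFsX1⟩
noncomputable def ndN1 : NdU := ⟨nFsc1, nNB1, nFX1, nFD1⟩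
noncomputable def ndN2 : NdU := ⟨nFsc2, nNB2, nFX2, nFD2⟩
noncomputable def ndN3 : NdU := ⟨nFsc3, nNB3, nFX3, nFD3⟩
noncomputable def pN : Pm := ⟨pFma, pFmb, pFmu, pFnx, pNc0, pNkc, pNjc, pNkc, pNjc, pNkc, pNjc, pFca, pFcb, pNcc, pNcc, pNcc, pFsv, l12N, l12N, l12N, laF, lbF, l1F, l2F, cvN1, pFx11, pFx01, pNK11, pNK01, pFL11, pFL01⟩
noncomputable def ul1 : List Knk := []
noncomputable def ul2 : List Knk := []
noncomputable def ul3 : List Knk := []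
noncomputable def qN : Pu := ⟨umo, us1, us2, us3, ul1, ul2, ul3, cFsDD1, uC11, uC01⟩

end Pool.Agent.Strip051.G.I8600_9000.Tab.DG
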