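import Pool.Agent.Strip051.G.I8600_9000.Fs

/-! # Certificates at the floor (generated) -/

set_option linter.all false

namespace Pool.Agent.Strip051.G.I8600_9000.Tab

open Pool.Agent.Strip051.PB

theorem cB_m00 : CertNd 0 536870912 923417968 42949674 (ftMono false 0 mT) [] (Node.sc eng ndB0q0) (Fn2.sc esg cd0q0) :=
  certNd (T := (ftMono false 0 mT)) (L := []) (P1 := 0) (W1 := 536870912) (P3 := 923417968) (W3 := 42949674) (n := (Node.sc eng ndB0q0)) (c := (Fn2.sc esg cd0q0))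
    ⟨T.a (T.a (T.l 0) (T.l 0)) (T.l 0),
      by decide +kernel⟩
theorem cB_m01 : CertNd 536870912 536870912 923417968 42949674 (ftMono false 1 mT) [] (Node.sc eng ndB0q1) (Fn2.sc esg cd0q1) :=
  certNd (T := (ftMono false 1 mT)) (L := []) (P1 := 536870912) (W1 := 536870912) (P3 := 923417968) (W3 := 42949674) (n := (Node.sc eng ndB0q1)) (c := (Fn2.sc esg cd0q1))
    ⟨T.a (T.a (T.l 0) (T.l 0)) (T.a (T.l 0) (T.a (T.l 0) (T.l 0))),
      by decide +kernel⟩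
theorem cB_g00 : CertGe 0 67108864 923417968 42949674 false [] (((1 : ℕ) : ℝ) / ((5 : ℕ) : ℝ)) 0 ((0 : ℕ) : ℝ)
    (((2 : ℕ) : ℝ) / 2) mT (Node.sc eng ndB0q0) (Fn2.sc esg cd0q0) :=
  certGe (z := false) (L := []) (P1 := 0) (W1 := 67108864) (P3 := 923417968) (W3 := 42949674) (oa := 1) (ob := 5)
    (q := 0) (bb := 0) (hB := 2) (M := mT) (n := (Node.sc eng ndB0q0)) (c := (Fn2.sc esg cd0q0)) (sX := c1g_fs) (sK := (Sl2.sc eng kf0q0_fs))
    (sL := l0q0_fs) ⟨T.a (T.l 0) (T.c (T.l 0) (T.l 0)),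
      by decide +kernel⟩
theorem cB_w00a : CertNd 67108864 469762048 923417968 42949674 (ftWall false 0 mT 1 5) [] (Node.sc eng ndB0q0) (Fn2.sc esg cd0q0) :=
  certNd (T := (ftWall false 0 mT 1 5)) (L := []) (P1 := 67108864) (W1 := 469762048) (P3 := 923417968) (W3 := 42949674) (n := (Node.sc eng ndB0q0)) (c := (Fn2.sc esg cd0q0))
    ⟨T.a (T.a (T.a (T.c (T.a (T.c (T.a (T.l 0) (T.c (T.l 0) (T.l 0))) (T.l 0)) (T.c (T.c (T.a (T.l 0) (T.l 0)) (T.l 0)) (T.l 0))) (T.a (T.l 0) (T.l 0))) (T.c (T.a (T.c (T.a (T.l 0) (T.l 0)) (T.l 0)) (T.l 0)) (T.a (T.l 0) (T.l 0)))) (T.a (T.c (T.l 0) (T.l 0)) (T.l 0))) (T.a (T.l 0) (T.a (T.l 0) (T.l 0))),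
      by decide +kernel⟩
theorem cB_w01a : CertNd 536870912 366145961 923417968 42949674 (ftWall false 1 mT 1 5) [] (Node.sc eng ndB0q1) (Fn2.sc esg cd0q1) :=
  certNd (T := (ftWall false 1 mT 1 5)) (L := []) (P1 := 536870912) (W1 := 366145961) (P3 := 923417968) (W3 := 42949674) (n := (Node.sc eng ndB0q1)) (c := (Fn2.sc esg cd0q1))
    ⟨T.a (T.a (T.l 0) (T.l 0)) (T.a (T.a (T.l 0) (T.l 0)) (T.a (T.c (T.l 0) (T.l 0)) (T.a (T.c (T.l 0) (T.l 0)) (T.c (T.c (T.a (T.l 0) (T.l 0)) (T.l 0)) (T.l 0))))),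
      by decide +kernel⟩
theorem cB_w01b : CertNd 986768736 76450419 923417968 42949674 (ftWall false 1 mT 1 5) [] (Node.sc eng ndB0q1) (Fn2.sc esg cd0q1) :=
  certNd (T := (ftWall false 1 mT 1 5)) (L := []) (P1 := 986768736) (W1 := 76450419) (P3 := 923417968) (W3 := 42949674) (n := (Node.sc eng ndB0q1)) (c := (Fn2.sc esg cd0q1))
    ⟨T.a (T.a (T.c (T.c (T.a (T.l 0) (T.l 0)) (T.a (T.l 0) (T.l 0))) (T.c (T.a (T.c (T.l 0) (T.l 0)) (T.l 0)) (T.a (T.c (T.l 0) (T.c (T.l 0) (T.l 0))) (T.c (T.l 0) (T.l 0))))) (T.c (T.c (T.l 0) (T.c (T.l 0) (T.l 0))) (T.c (T.a (T.l 0) (T.l 0)) (T.a (T.l 0) (T.l 0))))) (T.c (T.a (T.c (T.l 0) (T.l 0)) (T.c (T.l 0) (T.l 0))) (T.a (T.c (T.l 0) (T.c (T.l 0) (T.l 0))) (T.c (T.l 0) (T.l 0)))),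
      by decide +kernel⟩
theorem cB_g01 : CertGe 1063219155 10522669 923417968 42949674 false [] (((1 : ℕ) : ℝ) / ((5 : ℕ) : ℝ)) 1 ((1 : ℕ) : ℝ)
    (((1 : ℕ) : ℝ) / 2) mT (Node.sc eng ndB0q1) (Fn2.sc esg cd0q1) :=
  certGe (z := false) (L := []) (P1 := 1063219155) (W1 := 10522669) (P3 := 923417968) (W3 := 42949674) (oa := 1) (ob := 5)
    (q := 1) (bb := 1) (hB := 1) (M := mT) (n := (Node.sc eng ndB0q1)) (c := (Fn2.sc esg cd0q1)) (sX := c1g_fs) (sK := (Sl2.sc eng kf0q1_fs))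
    (sL := l0q1_fs) ⟨T.l 0,
      by decide +kernel⟩
theorem cB_tl : CertTg 903016873 83751863 923417968 42949674 (ftTk true mT mZ dlg 5 1) [⟨6, 0⟩] :=
  certTg (T := (ftTk true mT mZ dlg 5 1)) (L := [⟨6, 0⟩]) (P1 := 903016873) (W1 := 83751863) (P3 := 923417968) (W3 := 42949674)
    ⟨T.l 0,
      by decide +kernel⟩
theorem cB_th : CertTg 903016873 83751863 923417968 42949674 (ftTk false mT mZ dlg 237 200) [⟨5, 0⟩] :=
  certTg (T := (ftTk false mT mZ dlg 237 200)) (L := [⟨5, 0⟩]) (P1 := 903016873) (W1 := 83751863) (P3 := 923417968) (W3 := 42949674)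
    ⟨T.l 0,
      by decide +kernel⟩
theorem cB_m10 : CertNd 0 66571993 923417968 42949674 (ftMono false 0 mT) [] (Node.sc eng ndB1q0) (Fn2.sc esg cd1q0) :=
  certNd (T := (ftMono false 0 mT)) (L := []) (P1 := 0) (W1 := 66571993) (P3 := 923417968) (W3 := 42949674) (n := (Node.sc eng ndB1q0)) (c := (Fn2.sc esg cd1q0))
    ⟨T.l 0,
      by decide +kernel⟩
theorem cB_g10 : CertGe 0 66571993 923417968 42949674 false [] (((1 : ℕ) : ℝ) / ((5 : ℕ) : ℝ)) 0 ((0 : ℕ) : ℝ)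
    (((2 : ℕ) : ℝ) / 2) mT (Node.sc eng ndB1q0) (Fn2.sc esg cd1q0) :=
  certGe (z := false) (L := []) (P1 := 0) (W1 := 66571993) (P3 := 923417968) (W3 := 42949674) (oa := 1) (ob := 5)
    (q := 0) (bb := 0) (hB := 2) (M := mT) (n := (Node.sc eng ndB1q0)) (c := (Fn2.sc esg cd1q0)) (sX := cv1m_fs) (sK := (Sl2.sc eng kf1q0_fs))
    (sL := l1q0_fs) ⟨T.l 0,
      by decide +kernel⟩
theorem cB_w10 : CertNd 66571993 470298919 923417968 42949674 (ftWall false 0 mT 1 5) [] (Node.sc eng ndB1q0) (Fn2.sc esg cd1q0) :=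
  certNd (T := (ftWall false 0 mT 1 5)) (L := []) (P1 := 66571993) (W1 := 470298919) (P3 := 923417968) (W3 := 42949674) (n := (Node.sc eng ndB1q0)) (c := (Fn2.sc esg cd1q0))
    ⟨T.a (T.a (T.a (T.l 0) (T.l 0)) (T.l 0)) (T.l 0),
      by decide +kernel⟩
theorem cB_w11 : CertNd 536870912 536870912 923417968 42949674 (ftWall false 1 mT 1 5) [] (Node.sc eng ndB1q1) (Fn2.sc esg cd1q1) :=
  certNd (T := (ftWall false 1 mT 1 5)) (L := []) (P1 := 536870912) (W1 := 536870912) (P3 := 923417968) (W3 := 42949674) (n := (Node.sc eng ndB1q1)) (c := (Fn2.sc esg cd1q1))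
    ⟨T.a (T.l 0) (T.a (T.l 0) (T.a (T.l 0) (T.l 0))),
      by decide +kernel⟩
theorem cB_f20 : CertNd 0 37195508 923417968 42949674 (ftFlat false 0 mT 1 5) [] (Node.sc eng ndB2q0) (Fn2.sc esg cd2q0) :=
  certNd (T := (ftFlat false 0 mT 1 5)) (L := []) (P1 := 0) (W1 := 37195508) (P3 := 923417968) (W3 := 42949674) (n := (Node.sc eng ndB2q0)) (c := (Fn2.sc esg cd2q0))
    ⟨T.l 0,
      by decide +kernel⟩
theorem cB_l20 : CertNd 0 37195508 923417968 42949674 (ftWall false 0 mT 1 5) [⟨3, 1181116007⟩] (Node.sc eng ndB2q0) (Fn2.sc esg cd2q0) :=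
  certNd (T := (ftWall false 0 mT 1 5)) (L := [⟨3, 1181116007⟩]) (P1 := 0) (W1 := 37195508) (P3 := 923417968) (W3 := 42949674) (n := (Node.sc eng ndB2q0)) (c := (Fn2.sc esg cd2q0))
    ⟨T.a (T.c (T.l 0) (T.l 0)) (T.l 0),
      by decide +kernel⟩
theorem cB_w20 : CertNd 37195507 499675405 923417968 42949674 (ftWall false 0 mT 1 5) [] (Node.sc eng ndB2q0) (Fn2.sc esg cd2q0) :=
  certNd (T := (ftWall false 0 mT 1 5)) (L := []) (P1 := 37195507) (W1 := 499675405) (P3 := 923417968) (W3 := 42949674) (n := (Node.sc eng ndB2q0)) (c := (Fn2.sc esg cd2q0))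
    ⟨T.a (T.a (T.a (T.a (T.l 0) (T.a (T.l 0) (T.l 0))) (T.a (T.l 0) (T.l 0))) (T.a (T.l 0) (T.l 0))) (T.l 0),
      by decide +kernel⟩
theorem cB_w21 : CertNd 536870912 536870912 923417968 42949674 (ftWall false 1 mT 1 5) [] (Node.sc eng ndB2q1) (Fn2.sc esg cd2q1) :=
  certNd (T := (ftWall false 1 mT 1 5)) (L := []) (P1 := 536870912) (W1 := 536870912) (P3 := 923417968) (W3 := 42949674) (n := (Node.sc eng ndB2q1)) (c := (Fn2.sc esg cd2q1))
    ⟨T.a (T.l 0) (T.a (T.l 0) (T.a (T.l 0) (T.l 0))),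
      by decide +kernel⟩
theorem cB_w22 : CertNd 1073741824 166215235 923417968 42949674 (ftWall false 2 mT 1 5) [⟨4, 0⟩] (Node.sc eng ndB2q2) (Fn2.sc esg cd2q2) :=
  certNd (T := (ftWall false 2 mT 1 5)) (L := [⟨4, 0⟩]) (P1 := 1073741824) (W1 := 166215235) (P3 := 923417968) (W3 := 42949674) (n := (Node.sc eng ndB2q2)) (c := (Fn2.sc esg cd2q2))
    ⟨T.l 0,
      by decide +kernel⟩
theorem cB_f30 : CertNd 0 37195508 923417968 42949674 (ftFlat false 0 mT 1 5) [] (Node.sc eng ndB3q0) (Fn2.sc esg cd3q0) :=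
  certNd (T := (ftFlat false 0 mT 1 5)) (L := []) (P1 := 0) (W1 := 37195508) (P3 := 923417968) (W3 := 42949674) (n := (Node.sc eng ndB3q0)) (c := (Fn2.sc esg cd3q0))
    ⟨T.l 0,
      by decide +kernel⟩
theorem cB_l30 : CertNd 0 37195508 923417968 42949674 (ftWall false 0 mT 1 5) [⟨3, 1181116007⟩] (Node.sc eng ndB3q0) (Fn2.sc esg cd3q0) :=
  certNd (T := (ftWall false 0 mT 1 5)) (L := [⟨3, 1181116007⟩]) (P1 := 0) (W1 := 37195508) (P3 := 923417968) (W3 := 42949674) (n := (Node.sc eng ndB3q0)) (c := (Fn2.sc esg cd3q0))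
    ⟨T.l 1,
      by decide +kernel⟩
theorem cB_w30 : CertNd 37195507 499675405 923417968 42949674 (ftWall false 0 mT 1 5) [] (Node.sc eng ndB3q0) (Fn2.sc esg cd3q0) :=
  certNd (T := (ftWall false 0 mT 1 5)) (L := []) (P1 := 37195507) (W1 := 499675405) (P3 := 923417968) (W3 := 42949674) (n := (Node.sc eng ndB3q0)) (c := (Fn2.sc esg cd3q0))
    ⟨T.a (T.a (T.a (T.c (T.l 0) (T.l 0)) (T.l 0)) (T.l 0)) (T.l 0),
      by decide +kernel⟩
theorem cB_w31 : CertNd 536870912 536870912 923417968 42949674 (ftWall false 1 mT 1 5) [] (Node.sc eng ndB3q1) (Fn2.sc esg cd3q1) :=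
  certNd (T := (ftWall false 1 mT 1 5)) (L := []) (P1 := 536870912) (W1 := 536870912) (P3 := 923417968) (W3 := 42949674) (n := (Node.sc eng ndB3q1)) (c := (Fn2.sc esg cd3q1))
    ⟨T.a (T.l 0) (T.a (T.l 0) (T.a (T.l 0) (T.l 0))),
      by decide +kernel⟩
theorem cB_w32 : CertNd 1073741824 166215235 923417968 42949674 (ftWall false 2 mT 1 5) [⟨4, 0⟩] (Node.sc eng ndB3q2) (Fn2.sc esg cd3q2) :=
  certNd (T := (ftWall false 2 mT 1 5)) (L := [⟨4, 0⟩]) (P1 := 1073741824) (W1 := 166215235) (P3 := 923417968) (W3 := 42949674) (n := (Node.sc eng ndB3q2)) (c := (Fn2.sc esg cd3q2))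
    ⟨T.l 0,
      by decide +kernel⟩
theorem cB_f40 : CertNd 0 37195508 923417968 42949674 (ftFlat false 0 mT 1 5) [] (Node.sc eng ndB4q0) (Fn2.sc esg cd4q0) :=
  certNd (T := (ftFlat false 0 mT 1 5)) (L := []) (P1 := 0) (W1 := 37195508) (P3 := 923417968) (W3 := 42949674) (n := (Node.sc eng ndB4q0)) (c := (Fn2.sc esg cd4q0))
    ⟨T.l 0,
      by decide +kernel⟩
theorem cB_l40 : CertNd 0 37195508 923417968 42949674 (ftWall false 0 mT 1 5) [⟨3, 1181116007⟩] (Node.sc eng ndB4q0) (Fn2.sc esg cd4q0) :=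
  certNd (T := (ftWall false 0 mT 1 5)) (L := [⟨3, 1181116007⟩]) (P1 := 0) (W1 := 37195508) (P3 := 923417968) (W3 := 42949674) (n := (Node.sc eng ndB4q0)) (c := (Fn2.sc esg cd4q0))
    ⟨T.l 0,
      by decide +kernel⟩
theorem cB_w40 : CertNd 37195507 499675405 923417968 42949674 (ftWall false 0 mT 1 5) [] (Node.sc eng ndB4q0) (Fn2.sc esg cd4q0) :=
  certNd (T := (ftWall false 0 mT 1 5)) (L := []) (P1 := 37195507) (W1 := 499675405) (P3 := 923417968) (W3 := 42949674) (n := (Node.sc eng ndB4q0)) (c := (Fn2.sc esg cd4q0))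
    ⟨T.a (T.l 0) (T.l 0),
      by decide +kernel⟩
theorem cB_w41 : CertNd 536870912 536870912 923417968 42949674 (ftWall false 1 mT 1 5) [] (Node.sc eng ndB4q1) (Fn2.sc esg cd4q1) :=
  certNd (T := (ftWall false 1 mT 1 5)) (L := []) (P1 := 536870912) (W1 := 536870912) (P3 := 923417968) (W3 := 42949674) (n := (Node.sc eng ndB4q1)) (c := (Fn2.sc esg cd4q1))
    ⟨T.a (T.l 0) (T.a (T.l 0) (T.a (T.l 0) (T.l 0))),
      by decide +kernel⟩
theorem cB_w42 : CertNd 1073741824 166215235 923417968 42949674 (ftWall false 2 mT 1 5) [⟨4, 0⟩] (Node.sc eng ndB4q2) (Fn2.sc esg cd4q2) :=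
  certNd (T := (ftWall false 2 mT 1 5)) (L := [⟨4, 0⟩]) (P1 := 1073741824) (W1 := 166215235) (P3 := 923417968) (W3 := 42949674) (n := (Node.sc eng ndB4q2)) (c := (Fn2.sc esg cd4q2))
    ⟨T.l 0,
      by decide +kernel⟩
theorem cB_ll : CertSd 0 37195508 923417968 42949674 (ftWall false 0 mT 1 5) [] idF (cnF 1100 1000) pcE0 (Fn3.sc esg pd0) :=
  certSd (T := (ftWall false 0 mT 1 5)) (L := []) (P1 := 0) (W1 := 37195508) (P3 := 923417968) (W3 := 42949674) (Y := idF) (X := (cnF 1100 1000))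
    (pc := pcE0) (c := (Fn3.sc esg pd0)) ⟨T.a (T.a (T.a (T.c (T.l 0) (T.l 0)) (T.l 0)) (T.l 0)) (T.l 0),
      by decide +kernel⟩
theorem cB_st : CertSt 1073741824 66571993 923417968 42949674 false [] (((1 : ℕ) : ℝ) / ((5 : ℕ) : ℝ)) mT (Node.sc eng ndB1q2) (Fn2.sc esg cd1q2) (Node.sc eng ndB2q2) (Fn2.sc esg cd2q2) :=
  certSt (z := false) (L := []) (P1 := 1073741824) (W1 := 66571993) (P3 := 923417968) (W3 := 42949674) (oa := 1) (ob := 5)
    (M := mT) (n := (Node.sc eng ndB1q2)) (c := (Fn2.sc esg cd1q2)) (n' := (Node.sc eng ndB2q2)) (c' := (Fn2.sc esg cd2q2)) (sX := cv1p_fs) (sK := (Sl2.sc eng kf1q2_fs)) (sL := l1q2_fs)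
    ⟨T.l 0,
      by decide +kernel⟩
theorem cB_sm : CertSd 421526751 115344161 923417968 42949674 (ftMono false 2 mT) [] ygF xsF pcE2 (Fn3.sc esg pd2) :=
  certSd (T := (ftMono false 2 mT)) (L := []) (P1 := 421526751) (W1 := 115344161) (P3 := 923417968) (W3 := 42949674) (Y := ygF) (X := xsF)
    (pc := pcE2) (c := (Fn3.sc esg pd2)) ⟨T.l 0,
      by decide +kernel⟩
theorem cB_sw : CertSd 0 421526755 923417968 42949674 (ftWall false 2 mT 1 5) [] ygF xsF pcE2 (Fn3.sc esg pd2) :=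
  certSd (T := (ftWall false 2 mT 1 5)) (L := []) (P1 := 0) (W1 := 421526755) (P3 := 923417968) (W3 := 42949674) (Y := ygF) (X := xsF)
    (pc := pcE2) (c := (Fn3.sc esg pd2)) ⟨T.a (T.l 0) (T.a (T.l 0) (T.l 0)),
      by decide +kernel⟩
theorem cB_h0_11 : CertNd 991880209 74391017 923417968 42949674 (ftHigh false 1 mT 1 5 0 1100) [] (Node.sc eng ndB1q1) (Fn2.sc esg cd1q1) :=
  certNd (T := (ftHigh false 1 mT 1 5 0 1100)) (L := []) (P1 := 991880209) (W1 := 74391017) (P3 := 923417968) (W3 := 42949674) (n := (Node.sc eng ndB1q1)) (c := (Fn2.sc esg cd1q1))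
    ⟨T.l 0,
      by decide +kernel⟩
theorem cB_h0_21 : CertNd 991880209 74391017 923417968 42949674 (ftHigh false 1 mT 1 5 0 1100) [] (Node.sc eng ndB2q1) (Fn2.sc esg cd2q1) :=
  certNd (T := (ftHigh false 1 mT 1 5 0 1100)) (L := []) (P1 := 991880209) (W1 := 74391017) (P3 := 923417968) (W3 := 42949674) (n := (Node.sc eng ndB2q1)) (c := (Fn2.sc esg cd2q1))
    ⟨T.l 0,
      by decide +kernel⟩
theorem cB_h0_31 : CertNd 991880209 74391017 923417968 42949674 (ftHigh false 1 mT 1 5 0 1100) [] (Node.sc eng ndB3q1) (Fn2.sc esg cd3q1) :=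
  certNd (T := (ftHigh false 1 mT 1 5 0 1100)) (L := []) (P1 := 991880209) (W1 := 74391017) (P3 := 923417968) (W3 := 42949674) (n := (Node.sc eng ndB3q1)) (c := (Fn2.sc esg cd3q1))
    ⟨T.l 0,
      by decide +kernel⟩
theorem cB_h0_41 : CertNd 991880209 74391017 923417968 42949674 (ftHigh false 1 mT 1 5 0 1100) [] (Node.sc eng ndB4q1) (Fn2.sc esg cd4q1) :=
  certNd (T := (ftHigh false 1 mT 1 5 0 1100)) (L := []) (P1 := 991880209) (W1 := 74391017) (P3 := 923417968) (W3 := 42949674) (n := (Node.sc eng ndB4q1)) (c := (Fn2.sc esg cd4q1))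
    ⟨T.l 0,
      by decide +kernel⟩
theorem cB_h1_01 : CertNd 1029075717 43394760 923417968 42949674 (ftHigh false 1 mT 1 5 90 1100) [] (Node.sc eng ndB0q1) (Fn2.sc esg cd0q1) :=
  certNd (T := (ftHigh false 1 mT 1 5 90 1100)) (L := []) (P1 := 1029075717) (W1 := 43394760) (P3 := 923417968) (W3 := 42949674) (n := (Node.sc eng ndB0q1)) (c := (Fn2.sc esg cd0q1))
    ⟨T.a (T.c (T.c (T.l 0) (T.a (T.l 0) (T.l 0))) (T.a (T.c (T.l 0) (T.l 0)) (T.l 0))) (T.c (T.l 0) (T.l 0)),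
      by decide +kernel⟩
theorem cB_h1_11 : CertNd 1029075717 43394760 923417968 42949674 (ftHigh false 1 mT 1 5 90 1100) [] (Node.sc eng ndB1q1) (Fn2.sc esg cd1q1) :=
  certNd (T := (ftHigh false 1 mT 1 5 90 1100)) (L := []) (P1 := 1029075717) (W1 := 43394760) (P3 := 923417968) (W3 := 42949674) (n := (Node.sc eng ndB1q1)) (c := (Fn2.sc esg cd1q1))
    ⟨T.l 0,
      by decide +kernel⟩
theorem cB_h1_21 : CertNd 1029075717 43394760 923417968 42949674 (ftHigh false 1 mT 1 5 90 1100) [] (Node.sc eng ndB2q1) (Fn2.sc esg cd2q1) :=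
  certNd (T := (ftHigh false 1 mT 1 5 90 1100)) (L := []) (P1 := 1029075717) (W1 := 43394760) (P3 := 923417968) (W3 := 42949674) (n := (Node.sc eng ndB2q1)) (c := (Fn2.sc esg cd2q1))
    ⟨T.l 0,
      by decide +kernel⟩
theorem cB_h1_31 : CertNd 1029075717 43394760 923417968 42949674 (ftHigh false 1 mT 1 5 90 1100) [] (Node.sc eng ndB3q1) (Fn2.sc esg cd3q1) :=
  certNd (T := (ftHigh false 1 mT 1 5 90 1100)) (L := []) (P1 := 1029075717) (W1 := 43394760) (P3 := 923417968) (W3 := 42949674) (n := (Node.sc eng ndB3q1)) (c := (Fn2.sc esg cd3q1))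
    ⟨T.l 0,
      by decide +kernel⟩
theorem cB_h1_41 : CertNd 1029075717 43394760 923417968 42949674 (ftHigh false 1 mT 1 5 90 1100) [] (Node.sc eng ndB4q1) (Fn2.sc esg cd4q1) :=
  certNd (T := (ftHigh false 1 mT 1 5 90 1100)) (L := []) (P1 := 1029075717) (W1 := 43394760) (P3 := 923417968) (W3 := 42949674) (n := (Node.sc eng ndB4q1)) (c := (Fn2.sc esg cd4q1))
    ⟨T.l 0,
      by decide +kernel⟩
theorem cB_h2_01 : CertNd 1035274968 38466856 923417968 42949674 (ftHigh false 1 mT 1 5 780 1100) [] (Node.sc eng ndB0q1) (Fn2.sc esg cd0q1) :=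
  certNd (T := (ftHigh false 1 mT 1 5 780 1100)) (L := []) (P1 := 1035274968) (W1 := 38466856) (P3 := 923417968) (W3 := 42949674) (n := (Node.sc eng ndB0q1)) (c := (Fn2.sc esg cd0q1))
    ⟨T.a (T.a (T.c (T.l 0) (T.c (T.l 0) (T.l 0))) (T.l 0)) (T.l 0),
      by decide +kernel⟩
theorem cB_h2_11 : CertNd 1035274968 38466856 923417968 42949674 (ftHigh false 1 mT 1 5 780 1100) [] (Node.sc eng ndB1q1) (Fn2.sc esg cd1q1) :=
  certNd (T := (ftHigh false 1 mT 1 5 780 1100)) (L := []) (P1 := 1035274968) (W1 := 38466856) (P3 := 923417968) (W3 := 42949674) (n := (Node.sc eng ndB1q1)) (c := (Fn2.sc esg cd1q1))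
    ⟨T.a (T.c (T.l 0) (T.l 0)) (T.l 0),
      by decide +kernel⟩
theorem cB_h2_21 : CertNd 1035274968 38466856 923417968 42949674 (ftHigh false 1 mT 1 5 780 1100) [] (Node.sc eng ndB2q1) (Fn2.sc esg cd2q1) :=
  certNd (T := (ftHigh false 1 mT 1 5 780 1100)) (L := []) (P1 := 1035274968) (W1 := 38466856) (P3 := 923417968) (W3 := 42949674) (n := (Node.sc eng ndB2q1)) (c := (Fn2.sc esg cd2q1))
    ⟨T.l 0,
      by decide +kernel⟩
theorem cB_h2_31 : CertNd 1035274968 38466856 923417968 42949674 (ftHigh false 1 mT 1 5 780 1100) [] (Node.sc eng ndB3q1) (Fn2.sc esg cd3q1) :=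
  certNd (T := (ftHigh false 1 mT 1 5 780 1100)) (L := []) (P1 := 1035274968) (W1 := 38466856) (P3 := 923417968) (W3 := 42949674) (n := (Node.sc eng ndB3q1)) (c := (Fn2.sc esg cd3q1))
    ⟨T.l 0,
      by decide +kernel⟩
theorem cB_h2_41 : CertNd 1035274968 38466856 923417968 42949674 (ftHigh false 1 mT 1 5 780 1100) [] (Node.sc eng ndB4q1) (Fn2.sc esg cd4q1) :=
  certNd (T := (ftHigh false 1 mT 1 5 780 1100)) (L := []) (P1 := 1035274968) (W1 := 38466856) (P3 := 923417968) (W3 := 42949674) (n := (Node.sc eng ndB4q1)) (c := (Fn2.sc esg cd4q1))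
    ⟨T.l 0,
      by decide +kernel⟩
theorem cB_h2_02 : CertNd 0 536870912 923417968 42949674 (ftHigh false 2 mT 1 5 780 1100) [⟨0, 1035274968⟩, ⟨1, 1165459247⟩] (Node.sc eng ndB0q2) (Fn2.sc esg cd0q2) :=
  certNd (T := (ftHigh false 2 mT 1 5 780 1100)) (L := [⟨0, 1035274968⟩, ⟨1, 1165459247⟩]) (P1 := 0) (W1 := 536870912) (P3 := 923417968) (W3 := 42949674) (n := (Node.sc eng ndB0q2)) (c := (Fn2.sc esg cd0q2))
    ⟨T.a (T.l 3) (T.a (T.a (T.l 3) (T.l 0)) (T.a (T.l 0) (T.l 0))),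
      by decide +kernel⟩
theorem cB_h2_12 : CertNd 1073741824 91717423 923417968 42949674 (ftHigh false 2 mT 1 5 780 1100) [] (Node.sc eng ndB1q2) (Fn2.sc esg cd1q2) :=
  certNd (T := (ftHigh false 2 mT 1 5 780 1100)) (L := []) (P1 := 1073741824) (W1 := 91717423) (P3 := 923417968) (W3 := 42949674) (n := (Node.sc eng ndB1q2)) (c := (Fn2.sc esg cd1q2))
    ⟨T.l 0,
      by decide +kernel⟩
theorem cB_h2_22 : CertNd 1073741824 91717423 923417968 42949674 (ftHigh false 2 mT 1 5 780 1100) [] (Node.sc eng ndB2q2) (Fn2.sc esg cd2q2) :=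
  certNd (T := (ftHigh false 2 mT 1 5 780 1100)) (L := []) (P1 := 1073741824) (W1 := 91717423) (P3 := 923417968) (W3 := 42949674) (n := (Node.sc eng ndB2q2)) (c := (Fn2.sc esg cd2q2))
    ⟨T.l 0,
      by decide +kernel⟩
theorem cB_h2_32 : CertNd 1073741824 91717423 923417968 42949674 (ftHigh false 2 mT 1 5 780 1100) [] (Node.sc eng ndB3q2) (Fn2.sc esg cd3q2) :=
  certNd (T := (ftHigh false 2 mT 1 5 780 1100)) (L := []) (P1 := 1073741824) (W1 := 91717423) (P3 := 923417968) (W3 := 42949674) (n := (Node.sc eng ndB3q2)) (c := (Fn2.sc esg cd3q2))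
    ⟨T.l 0,
      by decide +kernel⟩
theorem cB_h2_42 : CertNd 1073741824 91717423 923417968 42949674 (ftHigh false 2 mT 1 5 780 1100) [] (Node.sc eng ndB4q2) (Fn2.sc esg cd4q2) :=
  certNd (T := (ftHigh false 2 mT 1 5 780 1100)) (L := []) (P1 := 1073741824) (W1 := 91717423) (P3 := 923417968) (W3 := 42949674) (n := (Node.sc eng ndB4q2)) (c := (Fn2.sc esg cd4q2))
    ⟨T.l 0,
      by decide +kernel⟩
theorem cB_h3_02 : CertNd 0 536870912 923417968 42949674 (ftHigh false 2 mT 1 5 1050 1100) [⟨0, 1128263738⟩, ⟨1, 2144940954⟩] (Node.sc eng ndB0q2) (Fn2.sc esg cd0q2) :=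
  certNd (T := (ftHigh false 2 mT 1 5 1050 1100)) (L := [⟨0, 1128263738⟩, ⟨1, 2144940954⟩]) (P1 := 0) (W1 := 536870912) (P3 := 923417968) (W3 := 42949674) (n := (Node.sc eng ndB0q2)) (c := (Fn2.sc esg cd0q2))
    ⟨T.a (T.a (T.l 0) (T.l 0)) (T.a (T.l 0) (T.l 0)),
      by decide +kernel⟩
theorem cB_h3_12 : CertNd 1128263738 482348998 923417968 42949674 (ftHigh false 2 mT 1 5 1050 1100) [] (Node.sc eng ndB1q2) (Fn2.sc esg cd1q2) :=
  certNd (T := (ftHigh false 2 mT 1 5 1050 1100)) (L := []) (P1 := 1128263738) (W1 := 482348998) (P3 := 923417968) (W3 := 42949674) (n := (Node.sc eng ndB1q2)) (c := (Fn2.sc esg cd1q2))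
    ⟨T.a (T.a (T.a (T.l 0) (T.a (T.l 0) (T.a (T.l 0) (T.l 0)))) (T.l 0)) (T.l 0),
      by decide +kernel⟩
theorem cB_h3_22 : CertNd 1128263738 482348998 923417968 42949674 (ftHigh false 2 mT 1 5 1050 1100) [] (Node.sc eng ndB2q2) (Fn2.sc esg cd2q2) :=
  certNd (T := (ftHigh false 2 mT 1 5 1050 1100)) (L := []) (P1 := 1128263738) (W1 := 482348998) (P3 := 923417968) (W3 := 42949674) (n := (Node.sc eng ndB2q2)) (c := (Fn2.sc esg cd2q2))
    ⟨T.a (T.a (T.l 0) (T.l 0)) (T.a (T.l 0) (T.l 0)),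
      by decide +kernel⟩
theorem cB_h3_32 : CertNd 1128263738 482348998 923417968 42949674 (ftHigh false 2 mT 1 5 1050 1100) [] (Node.sc eng ndB3q2) (Fn2.sc esg cd3q2) :=
  certNd (T := (ftHigh false 2 mT 1 5 1050 1100)) (L := []) (P1 := 1128263738) (W1 := 482348998) (P3 := 923417968) (W3 := 42949674) (n := (Node.sc eng ndB3q2)) (c := (Fn2.sc esg cd3q2))
    ⟨T.a (T.a (T.a (T.l 0) (T.l 0)) (T.l 0)) (T.l 0),
      by decide +kernel⟩
theorem cB_h3_42 : CertNd 1128263738 482348998 923417968 42949674 (ftHigh false 2 mT 1 5 1050 1100) [] (Node.sc eng ndB4q2) (Fn2.sc esg cd4q2) :=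
  certNd (T := (ftHigh false 2 mT 1 5 1050 1100)) (L := []) (P1 := 1128263738) (W1 := 482348998) (P3 := 923417968) (W3 := 42949674) (n := (Node.sc eng ndB4q2)) (c := (Fn2.sc esg cd4q2))
    ⟨T.a (T.a (T.a (T.l 0) (T.l 0)) (T.l 0)) (T.a (T.l 0) (T.l 0)),
      by decide +kernel⟩
theorem cB_h3_13 : CertNd 1610612736 534328218 923417968 42949674 (ftHigh false 3 mT 1 5 1050 1100) [] (Node.sc eng ndB1q3) (Fn2.sc esg cd1q3) :=
  certNd (T := (ftHigh false 3 mT 1 5 1050 1100)) (L := []) (P1 := 1610612736) (W1 := 534328218) (P3 := 923417968) (W3 := 42949674) (n := (Node.sc eng ndB1q3)) (c := (Fn2.sc esg cd1q3))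
    ⟨T.a (T.l 0) (T.a (T.l 0) (T.a (T.l 0) (T.l 0))),
      by decide +kernel⟩
theorem cB_h3_23 : CertNd 0 1230186008 923417968 42949674 (ftHigh false 3 mT 1 5 1050 1100) [⟨0, 1128263738⟩, ⟨1, 2144940954⟩] (Node.sc eng ndB2q3) (Fn2.sc esg cd2q3) :=
  certNd (T := (ftHigh false 3 mT 1 5 1050 1100)) (L := [⟨0, 1128263738⟩, ⟨1, 2144940954⟩]) (P1 := 0) (W1 := 1230186008) (P3 := 923417968) (W3 := 42949674) (n := (Node.sc eng ndB2q3)) (c := (Fn2.sc esg cd2q3))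
    ⟨T.a (T.a (T.l 0) (T.a (T.l 0) (T.a (T.a (T.l 0) (T.l 0)) (T.l 0)))) (T.a (T.a (T.a (T.l 0) (T.l 0)) (T.l 0)) (T.a (T.l 0) (T.l 0))),
      by decide +kernel⟩
theorem cB_h3_33 : CertNd 0 1230186008 923417968 42949674 (ftHigh false 3 mT 1 5 1050 1100) [⟨0, 1128263738⟩, ⟨1, 2144940954⟩] (Node.sc eng ndB3q3) (Fn2.sc esg cd3q3) :=
  certNd (T := (ftHigh false 3 mT 1 5 1050 1100)) (L := [⟨0, 1128263738⟩, ⟨1, 2144940954⟩]) (P1 := 0) (W1 := 1230186008) (P3 := 923417968) (W3 := 42949674) (n := (Node.sc eng ndB3q3)) (c := (Fn2.sc esg cd3q3))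
    ⟨T.a (T.a (T.l 0) (T.a (T.l 0) (T.l 0))) (T.a (T.a (T.l 0) (T.l 0)) (T.a (T.l 0) (T.l 0))),
      by decide +kernel⟩
theorem cB_h3_43 : CertNd 0 1230186008 923417968 42949674 (ftHigh false 3 mT 1 5 1050 1100) [⟨0, 1128263738⟩, ⟨1, 2144940954⟩] (Node.sc eng ndB4q3) (Fn2.sc esg cd4q3) :=
  certNd (T := (ftHigh false 3 mT 1 5 1050 1100)) (L := [⟨0, 1128263738⟩, ⟨1, 2144940954⟩]) (P1 := 0) (W1 := 1230186008) (P3 := 923417968) (W3 := 42949674) (n := (Node.sc eng ndB4q3)) (c := (Fn2.sc esg cd4q3))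
    ⟨T.a (T.a (T.a (T.l 0) (T.l 0)) (T.a (T.l 0) (T.l 0))) (T.a (T.a (T.l 0) (T.l 0)) (T.a (T.l 0) (T.l 0))),
      by decide +kernel⟩
theorem cB_r0_02 : CertNd 0 536870912 923417968 42949674 (ftFar false 2 mT 1 5 1260 1100) [⟨0, 1091068230⟩, ⟨1, 1357636038⟩, ⟨2, 1181116006⟩] (Node.sc eng ndB0q2) (Fn2.sc esg cd0q2) :=
  certNd (T := (ftFar false 2 mT 1 5 1260 1100)) (L := [⟨0, 1091068230⟩, ⟨1, 1357636038⟩, ⟨2, 1181116006⟩]) (P1 := 0) (W1 := 536870912) (P3 := 923417968) (W3 := 42949674) (n := (Node.sc eng ndB0q2)) (c := (Fn2.sc esg cd0q2))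
    ⟨T.l 5,
      by decide +kernel⟩
theorem cB_r0_12 : CertNd 1091068230 266567808 923417968 42949674 (ftFar false 2 mT 1 5 1260 1100) [⟨2, 1181116006⟩] (Node.sc eng ndB1q2) (Fn2.sc esg cd1q2) :=
  certNd (T := (ftFar false 2 mT 1 5 1260 1100)) (L := [⟨2, 1181116006⟩]) (P1 := 1091068230) (W1 := 266567808) (P3 := 923417968) (W3 := 42949674) (n := (Node.sc eng ndB1q2)) (c := (Fn2.sc esg cd1q2))
    ⟨T.l 1,
      by decide +kernel⟩
theorem cB_r0_22 : CertNd 1091068230 266567808 923417968 42949674 (ftFar false 2 mT 1 5 1260 1100) [⟨2, 1181116006⟩] (Node.sc eng ndB2q2) (Fn2.sc esg cd2q2) :=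
  certNd (T := (ftFar false 2 mT 1 5 1260 1100)) (L := [⟨2, 1181116006⟩]) (P1 := 1091068230) (W1 := 266567808) (P3 := 923417968) (W3 := 42949674) (n := (Node.sc eng ndB2q2)) (c := (Fn2.sc esg cd2q2))
    ⟨T.l 0,
      by decide +kernel⟩
theorem cB_r0_32 : CertNd 1091068230 266567808 923417968 42949674 (ftFar false 2 mT 1 5 1260 1100) [⟨2, 1181116006⟩] (Node.sc eng ndB3q2) (Fn2.sc esg cd3q2) :=
  certNd (T := (ftFar false 2 mT 1 5 1260 1100)) (L := [⟨2, 1181116006⟩]) (P1 := 1091068230) (W1 := 266567808) (P3 := 923417968) (W3 := 42949674) (n := (Node.sc eng ndB3q2)) (c := (Fn2.sc esg cd3q2))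
    ⟨T.l 0,
      by decide +kernel⟩
theorem cB_r0_42 : CertNd 1091068230 266567808 923417968 42949674 (ftFar false 2 mT 1 5 1260 1100) [⟨2, 1181116006⟩] (Node.sc eng ndB4q2) (Fn2.sc esg cd4q2) :=
  certNd (T := (ftFar false 2 mT 1 5 1260 1100)) (L := [⟨2, 1181116006⟩]) (P1 := 1091068230) (W1 := 266567808) (P3 := 923417968) (W3 := 42949674) (n := (Node.sc eng ndB4q2)) (c := (Fn2.sc esg cd4q2))
    ⟨T.a (T.a (T.a (T.c (T.l 0) (T.l 0)) (T.l 0)) (T.l 0)) (T.l 0),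
      by decide +kernel⟩
theorem cB_n0_02z : CertNd 0 85899345 923417968 42949674 (ftNear false 2 mT 1 5 1260) [⟨0, 1091068230⟩, ⟨1, 1357636038⟩] ⟨ndB0q2.Y, onF, Fn2.sc eng kq02, lq02⟩ (Fn2.sc esg cq02) :=
  certNd (T := (ftNear false 2 mT 1 5 1260)) (L := [⟨0, 1091068230⟩, ⟨1, 1357636038⟩]) (P1 := 0) (W1 := 85899345) (P3 := 923417968) (W3 := 42949674) (n := ⟨ndB0q2.Y, onF, Fn2.sc eng kq02, lq02⟩) (c := (Fn2.sc esg cq02))
    ⟨T.l 0,
      by decide +kernel⟩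
theorem cB_n0_02 : CertNd 0 536870912 923417968 42949674 (ftNear false 2 mT 1 5 1260) [⟨0, 1091068230⟩, ⟨1, 1357636038⟩, ⟨2, 85899345⟩, ⟨3, 429496730⟩] (Node.sc eng ndB0q2) (Fn2.sc esg cd0q2) :=
  certNd (T := (ftNear false 2 mT 1 5 1260)) (L := [⟨0, 1091068230⟩, ⟨1, 1357636038⟩, ⟨2, 85899345⟩, ⟨3, 429496730⟩]) (P1 := 0) (W1 := 536870912) (P3 := 923417968) (W3 := 42949674) (n := (Node.sc eng ndB0q2)) (c := (Fn2.sc esg cd0q2))
    ⟨T.a (T.a (T.a (T.l 5) (T.c (T.l 0) (T.l 0))) (T.a (T.c (T.l 0) (T.l 0)) (T.c (T.a (T.l 0) (T.l 0)) (T.a (T.l 0) (T.l 0))))) (T.a (T.a (T.c (T.l 0) (T.a (T.l 0) (T.l 0))) (T.a (T.l 0) (T.l 0))) (T.a (T.c (T.l 0) (T.l 0)) (T.l 0))),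
      by decide +kernel⟩
theorem cB_n0_12 : CertNd 1091068230 266567808 923417968 42949674 (ftNear false 2 mT 1 5 1260) [⟨3, 429496730⟩] (Node.sc eng ndB1q2) (Fn2.sc esg cd1q2) :=
  certNd (T := (ftNear false 2 mT 1 5 1260)) (L := [⟨3, 429496730⟩]) (P1 := 1091068230) (W1 := 266567808) (P3 := 923417968) (W3 := 42949674) (n := (Node.sc eng ndB1q2)) (c := (Fn2.sc esg cd1q2))
    ⟨T.a (T.a (T.l 0) (T.a (T.l 0) (T.a (T.l 0) (T.l 0)))) (T.a (T.a (T.a (T.a (T.l 0) (T.a (T.l 0) (T.a (T.l 0) (T.a (T.a (T.l 0) (T.a (T.l 0) (T.a (T.l 0) (T.l 0)))) (T.l 0))))) (T.l 0)) (T.l 0)) (T.l 0)),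
      by decide +kernel⟩
theorem cB_n0_22 : CertNd 1091068230 266567808 923417968 42949674 (ftNear false 2 mT 1 5 1260) [⟨3, 429496730⟩] (Node.sc eng ndB2q2) (Fn2.sc esg cd2q2) :=
  certNd (T := (ftNear false 2 mT 1 5 1260)) (L := [⟨3, 429496730⟩]) (P1 := 1091068230) (W1 := 266567808) (P3 := 923417968) (W3 := 42949674) (n := (Node.sc eng ndB2q2)) (c := (Fn2.sc esg cd2q2))
    ⟨T.l 1,
      by decide +kernel⟩
theorem cB_n0_32 : CertNd 1091068230 266567808 923417968 42949674 (ftNear false 2 mT 1 5 1260) [⟨3, 429496730⟩] (Node.sc eng ndB3q2) (Fn2.sc esg cd3q2) :=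
  certNd (T := (ftNear false 2 mT 1 5 1260)) (L := [⟨3, 429496730⟩]) (P1 := 1091068230) (W1 := 266567808) (P3 := 923417968) (W3 := 42949674) (n := (Node.sc eng ndB3q2)) (c := (Fn2.sc esg cd3q2))
    ⟨T.l 1,
      by decide +kernel⟩
theorem cB_n0_42 : CertNd 1091068230 266567808 923417968 42949674 (ftNear false 2 mT 1 5 1260) [⟨3, 429496730⟩] (Node.sc eng ndB4q2) (Fn2.sc esg cd4q2) :=
  certNd (T := (ftNear false 2 mT 1 5 1260)) (L := [⟨3, 429496730⟩]) (P1 := 1091068230) (W1 := 266567808) (P3 := 923417968) (W3 := 42949674) (n := (Node.sc eng ndB4q2)) (c := (Fn2.sc esg cd4q2))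
    ⟨T.l 1,
      by decide +kernel⟩
theorem cB_R0_2 : CertSd 1091068230 266567808 923417968 42949674 (ftFar false 2 mT 1 5 1260 1100) [] idF (cnF 1100 1000) pcE2 (Fn3.sc esg pd2) :=
  certSd (T := (ftFar false 2 mT 1 5 1260 1100)) (L := []) (P1 := 1091068230) (W1 := 266567808) (P3 := 923417968) (W3 := 42949674) (Y := idF) (X := (cnF 1100 1000))
    (pc := pcE2) (c := (Fn3.sc esg pd2)) ⟨T.a (T.l 0) (T.l 0),
      by decide +kernel⟩
theorem cB_N0_2 : CertSd 1136340972 221295066 923417968 42949674 (ftNear false 2 mT 1 5 1260) [] idF (cnF 400 1000) pcE2 (Fn3.sc esg pd2) :=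
  certSd (T := (ftNear false 2 mT 1 5 1260)) (L := []) (P1 := 1136340972) (W1 := 221295066) (P3 := 923417968) (W3 := 42949674) (Y := idF) (X := (cnF 400 1000))
    (pc := pcE2) (c := (Fn3.sc esg pd2)) ⟨T.a (T.a (T.a (T.a (T.l 0) (T.l 0)) (T.c (T.l 0) (T.l 0))) (T.a (T.l 0) (T.c (T.l 0) (T.l 0)))) (T.l 0),
      by decide +kernel⟩
theorem cB_r1_02 : CertNd 0 536870912 923417968 42949674 (ftFar false 2 mT 1 5 1570 1100) [⟨0, 1320440529⟩, ⟨1, 1698594860⟩, ⟨2, 1181116006⟩] (Node.sc eng ndB0q2) (Fn2.sc esg cd0q2) :=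
  certNd (T := (ftFar false 2 mT 1 5 1570 1100)) (L := [⟨0, 1320440529⟩, ⟨1, 1698594860⟩, ⟨2, 1181116006⟩]) (P1 := 0) (W1 := 536870912) (P3 := 923417968) (W3 := 42949674) (n := (Node.sc eng ndB0q2)) (c := (Fn2.sc esg cd0q2))
    ⟨T.l 1,
      by decide +kernel⟩
theorem cB_r1_12 : CertNd 1320440529 290172207 923417968 42949674 (ftFar false 2 mT 1 5 1570 1100) [⟨2, 1181116006⟩] (Node.sc eng ndB1q2) (Fn2.sc esg cd1q2) :=
  certNd (T := (ftFar false 2 mT 1 5 1570 1100)) (L := [⟨2, 1181116006⟩]) (P1 := 1320440529) (W1 := 290172207) (P3 := 923417968) (W3 := 42949674) (n := (Node.sc eng ndB1q2)) (c := (Fn2.sc esg cd1q2))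
    ⟨T.l 0,
      by decide +kernel⟩
theorem cB_r1_22 : CertNd 1320440529 290172207 923417968 42949674 (ftFar false 2 mT 1 5 1570 1100) [⟨2, 1181116006⟩] (Node.sc eng ndB2q2) (Fn2.sc esg cd2q2) :=
  certNd (T := (ftFar false 2 mT 1 5 1570 1100)) (L := [⟨2, 1181116006⟩]) (P1 := 1320440529) (W1 := 290172207) (P3 := 923417968) (W3 := 42949674) (n := (Node.sc eng ndB2q2)) (c := (Fn2.sc esg cd2q2))
    ⟨T.l 0,
      by decide +kernel⟩
theorem cB_r1_32 : CertNd 1320440529 290172207 923417968 42949674 (ftFar false 2 mT 1 5 1570 1100) [⟨2, 1181116006⟩] (Node.sc eng ndB3q2) (Fn2.sc esg cd3q2) :=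
  certNd (T := (ftFar false 2 mT 1 5 1570 1100)) (L := [⟨2, 1181116006⟩]) (P1 := 1320440529) (W1 := 290172207) (P3 := 923417968) (W3 := 42949674) (n := (Node.sc eng ndB3q2)) (c := (Fn2.sc esg cd3q2))
    ⟨T.l 0,
      by decide +kernel⟩
theorem cB_r1_42 : CertNd 1320440529 290172207 923417968 42949674 (ftFar false 2 mT 1 5 1570 1100) [⟨2, 1181116006⟩] (Node.sc eng ndB4q2) (Fn2.sc esg cd4q2) :=
  certNd (T := (ftFar false 2 mT 1 5 1570 1100)) (L := [⟨2, 1181116006⟩]) (P1 := 1320440529) (W1 := 290172207) (P3 := 923417968) (W3 := 42949674) (n := (Node.sc eng ndB4q2)) (c := (Fn2.sc esg cd4q2))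
    ⟨T.a (T.a (T.l 0) (T.l 0)) (T.l 0),
      by decide +kernel⟩
theorem cB_r1_13 : CertNd 1610612736 87982124 923417968 42949674 (ftFar false 3 mT 1 5 1570 1100) [⟨2, 1181116006⟩] (Node.sc eng ndB1q3) (Fn2.sc esg cd1q3) :=
  certNd (T := (ftFar false 3 mT 1 5 1570 1100)) (L := [⟨2, 1181116006⟩]) (P1 := 1610612736) (W1 := 87982124) (P3 := 923417968) (W3 := 42949674) (n := (Node.sc eng ndB1q3)) (c := (Fn2.sc esg cd1q3))
    ⟨T.l 0,
      by decide +kernel⟩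
theorem cB_r1_23 : CertNd 0 1230186008 923417968 42949674 (ftFar false 3 mT 1 5 1570 1100) [⟨0, 1320440529⟩, ⟨1, 1698594860⟩, ⟨2, 1181116006⟩] (Node.sc eng ndB2q3) (Fn2.sc esg cd2q3) :=
  certNd (T := (ftFar false 3 mT 1 5 1570 1100)) (L := [⟨0, 1320440529⟩, ⟨1, 1698594860⟩, ⟨2, 1181116006⟩]) (P1 := 0) (W1 := 1230186008) (P3 := 923417968) (W3 := 42949674) (n := (Node.sc eng ndB2q3)) (c := (Fn2.sc esg cd2q3))
    ⟨T.l 5,
      by decide +kernel⟩
theorem cB_r1_33 : CertNd 0 1230186008 923417968 42949674 (ftFar false 3 mT 1 5 1570 1100) [⟨0, 1320440529⟩, ⟨1, 1698594860⟩, ⟨2, 1181116006⟩] (Node.sc eng ndB3q3) (Fn2.sc esg cd3q3) :=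
  certNd (T := (ftFar false 3 mT 1 5 1570 1100)) (L := [⟨0, 1320440529⟩, ⟨1, 1698594860⟩, ⟨2, 1181116006⟩]) (P1 := 0) (W1 := 1230186008) (P3 := 923417968) (W3 := 42949674) (n := (Node.sc eng ndB3q3)) (c := (Fn2.sc esg cd3q3))
    ⟨T.l 5,
      by decide +kernel⟩
theorem cB_r1_43 : CertNd 0 1230186008 923417968 42949674 (ftFar false 3 mT 1 5 1570 1100) [⟨0, 1320440529⟩, ⟨1, 1698594860⟩, ⟨2, 1181116006⟩] (Node.sc eng ndB4q3) (Fn2.sc esg cd4q3) :=
  certNd (T := (ftFar false 3 mT 1 5 1570 1100)) (L := [⟨0, 1320440529⟩, ⟨1, 1698594860⟩, ⟨2, 1181116006⟩]) (P1 := 0) (W1 := 1230186008) (P3 := 923417968) (W3 := 42949674) (n := (Node.sc eng ndB4q3)) (c := (Fn2.sc esg cd4q3))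
    ⟨T.a (T.l 3) (T.a (T.l 0) (T.a (T.l 0) (T.l 0))),
      by decide +kernel⟩
theorem cB_n1_02z : CertNd 0 85899345 923417968 42949674 (ftNear false 2 mT 1 5 1570) [⟨0, 1320440529⟩, ⟨1, 1698594860⟩] ⟨ndB0q2.Y, onF, Fn2.sc eng kq02, lq02⟩ (Fn2.sc esg cq02) :=
  certNd (T := (ftNear false 2 mT 1 5 1570)) (L := [⟨0, 1320440529⟩, ⟨1, 1698594860⟩]) (P1 := 0) (W1 := 85899345) (P3 := 923417968) (W3 := 42949674) (n := ⟨ndB0q2.Y, onF, Fn2.sc eng kq02, lq02⟩) (c := (Fn2.sc esg cq02))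
    ⟨T.l 0,
      by decide +kernel⟩
theorem cB_n1_02 : CertNd 0 536870912 923417968 42949674 (ftNear false 2 mT 1 5 1570) [⟨0, 1320440529⟩, ⟨1, 1698594860⟩, ⟨2, 85899345⟩, ⟨3, 429496730⟩] (Node.sc eng ndB0q2) (Fn2.sc esg cd0q2) :=
  certNd (T := (ftNear false 2 mT 1 5 1570)) (L := [⟨0, 1320440529⟩, ⟨1, 1698594860⟩, ⟨2, 85899345⟩, ⟨3, 429496730⟩]) (P1 := 0) (W1 := 536870912) (P3 := 923417968) (W3 := 42949674) (n := (Node.sc eng ndB0q2)) (c := (Fn2.sc esg cd0q2))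
    ⟨T.l 1,
      by decide +kernel⟩
theorem cB_n1_12 : CertNd 1320440529 290172207 923417968 42949674 (ftNear false 2 mT 1 5 1570) [⟨3, 429496730⟩] (Node.sc eng ndB1q2) (Fn2.sc esg cd1q2) :=
  certNd (T := (ftNear false 2 mT 1 5 1570)) (L := [⟨3, 429496730⟩]) (P1 := 1320440529) (W1 := 290172207) (P3 := 923417968) (W3 := 42949674) (n := (Node.sc eng ndB1q2)) (c := (Fn2.sc esg cd1q2))
    ⟨T.l 0,
      by decide +kernel⟩
theorem cB_n1_22 : CertNd 1320440529 290172207 923417968 42949674 (ftNear false 2 mT 1 5 1570) [⟨3, 429496730⟩] (Node.sc eng ndB2q2) (Fn2.sc esg cd2q2) :=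
  certNd (T := (ftNear false 2 mT 1 5 1570)) (L := [⟨3, 429496730⟩]) (P1 := 1320440529) (W1 := 290172207) (P3 := 923417968) (W3 := 42949674) (n := (Node.sc eng ndB2q2)) (c := (Fn2.sc esg cd2q2))
    ⟨T.l 0,
      by decide +kernel⟩
theorem cB_n1_32 : CertNd 1320440529 290172207 923417968 42949674 (ftNear false 2 mT 1 5 1570) [⟨3, 429496730⟩] (Node.sc eng ndB3q2) (Fn2.sc esg cd3q2) :=
  certNd (T := (ftNear false 2 mT 1 5 1570)) (L := [⟨3, 429496730⟩]) (P1 := 1320440529) (W1 := 290172207) (P3 := 923417968) (W3 := 42949674) (n := (Node.sc eng ndB3q2)) (c := (Fn2.sc esg cd3q2))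
    ⟨T.l 0,
      by decide +kernel⟩
theorem cB_n1_42 : CertNd 1320440529 290172207 923417968 42949674 (ftNear false 2 mT 1 5 1570) [⟨3, 429496730⟩] (Node.sc eng ndB4q2) (Fn2.sc esg cd4q2) :=
  certNd (T := (ftNear false 2 mT 1 5 1570)) (L := [⟨3, 429496730⟩]) (P1 := 1320440529) (W1 := 290172207) (P3 := 923417968) (W3 := 42949674) (n := (Node.sc eng ndB4q2)) (c := (Fn2.sc esg cd4q2))
    ⟨T.l 0,
      by decide +kernel⟩
theorem cB_n1_13 : CertNd 1610612736 87982124 923417968 42949674 (ftNear false 3 mT 1 5 1570) [⟨3, 429496730⟩] (Node.sc eng ndB1q3) (Fn2.sc esg cd1q3) :=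
  certNd (T := (ftNear false 3 mT 1 5 1570)) (L := [⟨3, 429496730⟩]) (P1 := 1610612736) (W1 := 87982124) (P3 := 923417968) (W3 := 42949674) (n := (Node.sc eng ndB1q3)) (c := (Fn2.sc esg cd1q3))
    ⟨T.l 0,
      by decide +kernel⟩
theorem cB_n1_23 : CertNd 0 1230186008 923417968 42949674 (ftNear false 3 mT 1 5 1570) [⟨0, 1320440529⟩, ⟨1, 1698594860⟩, ⟨3, 429496730⟩] (Node.sc eng ndB2q3) (Fn2.sc esg cd2q3) :=
  certNd (T := (ftNear false 3 mT 1 5 1570)) (L := [⟨0, 1320440529⟩, ⟨1, 1698594860⟩, ⟨3, 429496730⟩]) (P1 := 0) (W1 := 1230186008) (P3 := 923417968) (W3 := 42949674) (n := (Node.sc eng ndB2q3)) (c := (Fn2.sc esg cd2q3))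
    ⟨T.a (T.l 3) (T.a (T.l 3) (T.l 0)),
      by decide +kernel⟩
theorem cB_n1_33 : CertNd 0 1230186008 923417968 42949674 (ftNear false 3 mT 1 5 1570) [⟨0, 1320440529⟩, ⟨1, 1698594860⟩, ⟨3, 429496730⟩] (Node.sc eng ndB3q3) (Fn2.sc esg cd3q3) :=
  certNd (T := (ftNear false 3 mT 1 5 1570)) (L := [⟨0, 1320440529⟩, ⟨1, 1698594860⟩, ⟨3, 429496730⟩]) (P1 := 0) (W1 := 1230186008) (P3 := 923417968) (W3 := 42949674) (n := (Node.sc eng ndB3q3)) (c := (Fn2.sc esg cd3q3))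
    ⟨T.a (T.l 3) (T.a (T.l 3) (T.l 0)),
      by decide +kernel⟩
theorem cB_n1_43 : CertNd 0 1230186008 923417968 42949674 (ftNear false 3 mT 1 5 1570) [⟨0, 1320440529⟩, ⟨1, 1698594860⟩, ⟨3, 429496730⟩] (Node.sc eng ndB4q3) (Fn2.sc esg cd4q3) :=
  certNd (T := (ftNear false 3 mT 1 5 1570)) (L := [⟨0, 1320440529⟩, ⟨1, 1698594860⟩, ⟨3, 429496730⟩]) (P1 := 0) (W1 := 1230186008) (P3 := 923417968) (W3 := 42949674) (n := (Node.sc eng ndB4q3)) (c := (Fn2.sc esg cd4q3))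
    ⟨T.a (T.l 3) (T.l 5),
      by decide +kernel⟩
theorem cB_R1_2 : CertSd 1320440529 290172207 923417968 42949674 (ftFar false 2 mT 1 5 1570 1100) [] idF (cnF 1100 1000) pcE2 (Fn3.sc esg pd2) :=
  certSd (T := (ftFar false 2 mT 1 5 1570 1100)) (L := []) (P1 := 1320440529) (W1 := 290172207) (P3 := 923417968) (W3 := 42949674) (Y := idF) (X := (cnF 1100 1000))
    (pc := pcE2) (c := (Fn3.sc esg pd2)) ⟨T.a (T.l 0) (T.l 0),
      by decide +kernel⟩
theorem cB_N1_2 : CertSd 1320440529 290172207 923417968 42949674 (ftNear false 2 mT 1 5 1570) [] idF (cnF 400 1000) pcE2 (Fn3.sc esg pd2) :=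
  certSd (T := (ftNear false 2 mT 1 5 1570)) (L := []) (P1 := 1320440529) (W1 := 290172207) (P3 := 923417968) (W3 := 42949674) (Y := idF) (X := (cnF 400 1000))
    (pc := pcE2) (c := (Fn3.sc esg pd2)) ⟨T.l 0,
      by decide +kernel⟩
theorem cB_R1_3 : CertSd 1610612736 48318382 923417968 42949674 (ftFar false 3 mT 1 5 1570 1100) [] idF (cnF 1100 1000) pcE3 (Fn3.sc esg pd3) :=
  certSd (T := (ftFar false 3 mT 1 5 1570 1100)) (L := []) (P1 := 1610612736) (W1 := 48318382) (P3 := 923417968) (W3 := 42949674) (Y := idF) (X := (cnF 1100 1000))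
    (pc := pcE3) (c := (Fn3.sc esg pd3)) ⟨T.l 0,
      by decide +kernel⟩
theorem cB_N1_3 : CertSd 1610612736 87982124 923417968 42949674 (ftNear false 3 mT 1 5 1570) [] idF (cnF 400 1000) pcE3 (Fn3.sc esg pd3) :=
  certSd (T := (ftNear false 3 mT 1 5 1570)) (L := []) (P1 := 1610612736) (W1 := 87982124) (P3 := 923417968) (W3 := 42949674) (Y := idF) (X := (cnF 400 1000))
    (pc := pcE3) (c := (Fn3.sc esg pd3)) ⟨T.l 0,
      by decide +kernel⟩

end Pool.Agent.Strip051.G.I8600_9000.Tab
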