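import Pool.Agent.Strip051.PB.FlAsmX
import Pool.Agent.Strip051.G.I8600_9000.Tab

/-! # Slopes (generated) -/

set_option linter.all false

namespace Pool.Agent.Strip051.G.I8600_9000.Tab

open Pool.Agent.Strip051.PB

attribute [local irreducible] padd psub pneg pmul psq pinv psqrt psqrtg pabs pps pmax pmin pphi
  plam pcase phf pnat prat pscale pnorm pdc pnc pone ppos pnn

noncomputable def c1g_fs : Sl1 c1g := ⟨_, fun h1 => (pr_sqrtg (pr_csub (enc_pnc _ 1) (pr_scale 3 4 (pr_sq h1))))⟩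
noncomputable def kcg_6_fs : Sl2 kcg_6 := ⟨_, fun h1 h2 => (pr_addc h1 (enc_rat _ 767 2689))⟩
noncomputable def kcg_9_fs : Sl2 kcg_9 := ⟨_, fun h1 h2 => (pr_addc h1 (enc_rat _ 83 200))⟩
noncomputable def kcg_12_fs : Sl2 kcg_12 := ⟨_, fun h1 h2 => (pr_addc h1 (enc_rat _ 89 200))⟩
noncomputable def kcg_13_fs : Sl2 kcg_13 := ⟨_, fun h1 h2 => (pr_scale 53298629 13750000 h1)⟩
noncomputable def kcg_18_fs : Sl2 kcg_18 := ⟨_, fun h1 h2 => (pr_scale 44433931 1100000 h1)⟩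
noncomputable def kcg_39_fs : Sl2 kcg_39 := ⟨_, fun h1 h2 => (pr_scale 2934547 15000000 h1)⟩
noncomputable def kcg_44_fs : Sl2 kcg_44 := ⟨_, fun h1 h2 => (pr_scale 57479903 3000000 h1)⟩
noncomputable def kcg_61_fs : Sl2 kcg_61 := ⟨_, fun h1 h2 => (pr_addc h1 (enc_rat _ 671 1729))⟩
noncomputable def kcg_62_fs : Sl2 kcg_62 := ⟨_, fun h1 h2 => (pr_scale 2575136291 1135000000 h1)⟩
noncomputable def kcg_66_fs : Sl2 kcg_66 := ⟨_, fun h1 h2 => (pr_scale 81348486947 4653500000 h1)⟩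
noncomputable def kcg_78_fs : Sl2 kcg_78 := ⟨_, fun h1 h2 => (pr_scale 17464480110623 4981000000000 h1)⟩
noncomputable def kcg_81_fs : Sl2 kcg_81 := ⟨_, fun h1 h2 => (pr_scale 9283912115569 996200000000 h1)⟩
noncomputable def kcg_99_fs : Sl2 kcg_99 := ⟨_, fun h1 h2 => (pr_addc h1 (enc_rat _ 4 25))⟩
noncomputable def kcg_102_fs : Sl2 kcg_102 := ⟨_, fun h1 h2 => (pr_addc h1 (enc_rat _ 6 25))⟩
noncomputable def kcg_103_fs : Sl2 kcg_103 := ⟨_, fun h1 h2 => (pr_scale 196432264767 60820000000 h1)⟩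
noncomputable def kcg_106_fs : Sl2 kcg_106 := ⟨_, fun h1 h2 => (pr_scale 337171021 486560000 h1)⟩
noncomputable def kcg_120_fs : Sl2 kcg_120 := ⟨_, fun h1 h2 => (pr_scale 22651 10000 h1)⟩
noncomputable def kcg_124_fs : Sl2 kcg_124 := ⟨_, fun h1 h2 => (pr_scale 14653 10000 h1)⟩
noncomputable def kcg_144_fs : Sl2 kcg_144 := ⟨_, fun h1 h2 => (pr_scale 22677 10000 h1)⟩
noncomputable def kcg_148_fs : Sl2 kcg_148 := ⟨_, fun h1 h2 => (pr_scale 42351 10000 h1)⟩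
noncomputable def kcg_165_fs : Sl2 kcg_165 := ⟨_, fun h1 h2 => (pr_scale 5773 2000 h1)⟩
noncomputable def kcg_168_fs : Sl2 kcg_168 := ⟨_, fun h1 h2 => (pr_cmul (enc_norm (kcg_3.enc h1.l h2)) (pr_nd (pr_scale 99351 10000 h1)))⟩
noncomputable def kcg_174_fs : Sl2 kcg_174 := ⟨_, fun h1 h2 => (pr_csub (enc_rat _ 767 2689) h1)⟩
noncomputable def kcg_175_fs : Sl2 kcg_175 := ⟨_, fun h1 h2 => (pr_csub (enc_rat _ 83 200) h1)⟩
noncomputable def kcg_176_fs : Sl2 kcg_176 := ⟨_, fun h1 h2 => (pr_csub (enc_rat _ 89 200) h1)⟩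
noncomputable def kcg_196_fs : Sl2 kcg_196 := ⟨_, fun h1 h2 => (pr_csub (enc_rat _ 671 1729) h1)⟩
noncomputable def kcg_219_fs : Sl2 kcg_219 := ⟨_, fun h1 h2 => (pr_csub (enc_rat _ 4 25) h1)⟩
noncomputable def kcg_220_fs : Sl2 kcg_220 := ⟨_, fun h1 h2 => (pr_csub (enc_rat _ 6 25) h1)⟩
noncomputable def kcg_fs : Sl2 kcg := ⟨_, fun h1 h2 => (pr_norm (pr_case h1 (pr_case (kcg_6_fs.snd h1 h2) (pr_case (kcg_9_fs.snd h1 h2) (pr_case (kcg_12_fs.snd h1 h2) (pr_add (pr_add (pr_subr 31684292933 11000000000 (pr_neg (kcg_13_fs.snd h1 h2))) (pr_cmul (enc_norm (kcg_3.enc h1.l h2)) (pr_norm (pr_subr 5782442887 275000000 (pr_neg (kcg_18_fs.snd h1 h2)))))) (pr_cmul (enc_norm (kcg_31.enc h1.l h2)) (pr_norm (pr_mul (pr_norm (pr_addc h1 (enc_rat _ 1 2))) (pr_norm (pr_csub (enc_neg (enc_rat _ 89 200)) h1)))))) (pr_add (pr_add (pr_subr 186376657 150000000 (pr_neg (kcg_39_fs.snd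 h1 h2))) (pr_cmul (enc_norm (kcg_3.enc h1.l h2)) (pr_norm (pr_addc (kcg_44_fs.snd h1 h2) (enc_rat _ 3284799229 600000000))))) (pr_cmul (enc_norm (kcg_53.enc h1.l h2)) (pr_norm (pr_mul (pr_norm (kcg_12_fs.snd h1 h2)) (pr_norm (pr_csub (enc_neg (enc_rat _ 83 200)) h1))))))) (pr_case (kcg_61_fs.snd h1 h2) (pr_add (pr_add (pr_subr 24941881049 113500000000 (kcg_62_fs.snd h1 h2)) (pr_cmul (enc_norm (kcg_3.enc h1.l h2)) (pr_norm (pr_addc (kcg_66_fs.snd h1 h2) (enc_rat _ 4446839995761 930700000000))))) (pr_cmul (enc_norm (kcg_73.enc h1.l h2)) (pr_norm (pr_mul (pr_norm (kcg_9_fs.snd h1 h2)) (pr_norm (pr_csub (enc_neg (enc_rat _ 671 1729)) h1)))))) (pr_add (pr_add (pr_addc (kcg_78_fs.snd h1 h2) (enc_rat _ 1297331238283 4981000000000)) (pr_cmul (enc_norm (kcg_3.enc h1.l h2)) (pr_norm (pr_addc (kcg_81_fs.snd h1 h2) (enc_rat _ 1604349482557 996200000000))))) (pr_cmul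 (enc_norm (kcg_90.enc h1.l h2)) (pr_norm (pr_mul (pr_norm (kcg_61_fs.snd h1 h2)) (pr_norm (pr_csub (enc_neg (enc_rat _ 767 2689)) h1)))))))) (pr_case (kcg_99_fs.snd h1 h2) (pr_case (kcg_102_fs.snd h1 h2) (pr_add (pr_add (pr_addc (kcg_103_fs.snd h1 h2) (enc_rat _ 138054968301 760250000000)) (pr_cmul (enc_norm (kcg_3.enc h1.l h2)) (pr_norm (pr_subr 5170183081 6082000000 (kcg_106_fs.snd h1 h2))))) (pr_cmul (enc_norm (kcg_115.enc h1.l h2)) (pr_norm (pr_mul (pr_norm (kcg_6_fs.snd h1 h2)) (pr_norm (pr_csub (enc_neg (enc_rat _ 6 25)) h1)))))) (pr_add (pr_add (pr_subr 156 3125 (kcg_120_fs.snd h1 h2)) (pr_cmul (enc_norm (kcg_3.enc h1.l h2)) (pr_norm (pr_subr 21376 15625 (pr_neg (kcg_124_fs.snd h1 h2)))))) (pr_cmul (enc_norm (kcg_135.enc h1.l h2)) (pr_norm (pr_mul (pr_norm (kcg_102_fs.snd h1 h2)) (pr_norm (pr_csub (enc_neg (enc_rat _ 4 25)) h1))))))) (pr_case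 (pr_addc h1 (enc_rat _ 2 25)) (pr_add (pr_add (pr_subr 1547 31250 (kcg_144_fs.snd h1 h2)) (pr_cmul (enc_norm (kcg_3.enc h1.l h2)) (pr_norm (pr_subr 57 125 (kcg_148_fs.snd h1 h2))))) (pr_cmul (enc_norm (kcg_160.enc h1.l h2)) (pr_norm (pr_mul (pr_norm (kcg_99_fs.snd h1 h2)) (pr_norm (pr_csub (enc_neg (enc_rat _ 2 25)) h1)))))) (pr_add (kcg_165_fs.snd h1 h2) (kcg_168_fs.snd h1 h2))))) (pr_neg (pr_case (kcg_174_fs.snd h1 h2) (pr_case (kcg_175_fs.snd h1 h2) (pr_case (kcg_176_fs.snd h1 h2) (pr_add (pr_add (pr_subr 31684292933 11000000000 (kcg_13_fs.snd h1 h2)) (pr_cmul (enc_norm (kcg_3.enc h1.l h2)) (pr_norm (pr_subr 5782442887 275000000 (kcg_18_fs.snd h1 h2))))) (pr_cmul (enc_norm (kcg_31.enc h1.l h2)) (pr_norm (pr_mul (pr_norm (pr_csub (enc_rat _ 1 2) h1)) (pr_norm (pr_subr 89 200 h1)))))) (pr_add (pr_add (pr_subr 186376657 150000000 (kcg_39_fs.snd h1 h2))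 (pr_cmul (enc_norm (kcg_3.enc h1.l h2)) (pr_norm (pr_csub (enc_rat _ 3284799229 600000000) (kcg_44_fs.snd h1 h2))))) (pr_cmul (enc_norm (kcg_53.enc h1.l h2)) (pr_norm (pr_mul (pr_norm (kcg_176_fs.snd h1 h2)) (pr_norm (pr_subr 83 200 h1))))))) (pr_case (kcg_196_fs.snd h1 h2) (pr_add (pr_add (pr_subr 24941881049 113500000000 (pr_neg (kcg_62_fs.snd h1 h2))) (pr_cmul (enc_norm (kcg_3.enc h1.l h2)) (pr_norm (pr_csub (enc_rat _ 4446839995761 930700000000) (kcg_66_fs.snd h1 h2))))) (pr_cmul (enc_norm (kcg_73.enc h1.l h2)) (pr_norm (pr_mul (pr_norm (kcg_175_fs.snd h1 h2)) (pr_norm (pr_subr 671 1729 h1)))))) (pr_add (pr_add (pr_csub (enc_rat _ 1297331238283 4981000000000) (kcg_78_fs.snd h1 h2)) (pr_cmul (enc_norm (kcg_3.enc h1.l h2)) (pr_norm (pr_csub (enc_rat _ 1604349482557 996200000000) (kcg_81_fs.snd h1 h2))))) (pr_cmul (enc_norm (kcg_90.enc h1.l h2)) (pr_norm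 (pr_mul (pr_norm (kcg_196_fs.snd h1 h2)) (pr_norm (pr_subr 767 2689 h1)))))))) (pr_case (kcg_219_fs.snd h1 h2) (pr_case (kcg_220_fs.snd h1 h2) (pr_add (pr_add (pr_csub (enc_rat _ 138054968301 760250000000) (kcg_103_fs.snd h1 h2)) (pr_cmul (enc_norm (kcg_3.enc h1.l h2)) (pr_norm (pr_subr 5170183081 6082000000 (pr_neg (kcg_106_fs.snd h1 h2)))))) (pr_cmul (enc_norm (kcg_115.enc h1.l h2)) (pr_norm (pr_mul (pr_norm (kcg_174_fs.snd h1 h2)) (pr_norm (pr_subr 6 25 h1)))))) (pr_add (pr_add (pr_subr 156 3125 (pr_neg (kcg_120_fs.snd h1 h2))) (pr_cmul (enc_norm (kcg_3.enc h1.l h2)) (pr_norm (pr_subr 21376 15625 (kcg_124_fs.snd h1 h2))))) (pr_cmul (enc_norm (kcg_135.enc h1.l h2)) (pr_norm (pr_mul (pr_norm (kcg_220_fs.snd h1 h2)) (pr_norm (pr_subr 4 25 h1))))))) (pr_case (pr_csub (enc_rat _ 2 25) h1) (pr_add (pr_add (pr_subr 1547 31250 (pr_neg (kcg_144_fs.snd h1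 h2))) (pr_cmul (enc_norm (kcg_3.enc h1.l h2)) (pr_norm (pr_subr 57 125 (pr_neg (kcg_148_fs.snd h1 h2)))))) (pr_cmul (enc_norm (kcg_160.enc h1.l h2)) (pr_norm (pr_mul (pr_norm (kcg_219_fs.snd h1 h2)) (pr_norm (pr_subr 2 25 h1)))))) (pr_sub (pr_neg (kcg_165_fs.snd h1 h2)) (kcg_168_fs.snd h1 h2))))))))⟩
noncomputable def kf0q0_9_fs : Sl2 kf0q0_9 := ⟨_, fun h1 h2 => (pr_scale 3 2 h1)⟩
noncomputable def kf0q0_12_fs : Sl2 kf0q0_12 := ⟨_, fun h1 h2 => (pr_cadd (enc_pnc _ 1) (c1g_fs.snd h1))⟩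
noncomputable def kf0q0_fs : Sl2 kf0q0 := ⟨_, fun h1 h2 => (pr_norm (pr_add (pr_mul (pr_norm (pr_mul (pr_norm (pr_sub (c1g_fs.snd h1) (kf0q0_9_fs.snd h1 h2))) (pr_norm (kf0q0_12_fs.snd h1 h2)))) (pr_nd (pr_inv (pr_sub (kf0q0_12_fs.snd h1 h2) (kf0q0_9_fs.snd h1 h2))))) (pr_mul h1 (kcg_fs.snd (pr_norm (pr_sub (pr_scale 3 4 h1) (pr_half (c1g_fs.snd h1)))) h2))))⟩
noncomputable def txg_6_fs : Sl3 txg_6 := ⟨_, fun h1 h2 h3 => (pr_add h1 (pr_half h2))⟩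
noncomputable def txg_26_fs : Sl3 txg_26 := ⟨_, fun h1 h2 h3 => (pr_addc h1 (enc_rat _ 1 5))⟩
noncomputable def txg_29_fs : Sl3 txg_29 := ⟨_, fun h1 h2 h3 => (pr_addc h1 (enc_rat _ 7 20))⟩
noncomputable def txg_32_fs : Sl3 txg_32 := ⟨_, fun h1 h2 h3 => (pr_addc h1 (enc_rat _ 9 20))⟩
noncomputable def txg_59_fs : Sl3 txg_59 := ⟨_, fun h1 h2 h3 => (pr_addc h1 (enc_rat _ 2 5))⟩
noncomputable def txg_98_fs : Sl3 txg_98 := ⟨_, fun h1 h2 h3 => (pr_addc h1 (enc_rat _ 3 10))⟩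
noncomputable def txg_122_fs : Sl3 txg_122 := ⟨_, fun h1 h2 h3 => (pr_addc h1 (enc_rat _ 1 4))⟩
noncomputable def txg_167_fs : Sl3 txg_167 := ⟨_, fun h1 h2 h3 => (pr_subr 1 10 h1)⟩
noncomputable def txg_170_fs : Sl3 txg_170 := ⟨_, fun h1 h2 h3 => (pr_addc h1 (enc_rat _ 3 20))⟩
noncomputable def txg_189_fs : Sl3 txg_189 := ⟨_, fun h1 h2 h3 => (pr_addc h1 (enc_rat _ 1 10))⟩
noncomputable def txg_224_fs : Sl3 txg_224 := ⟨_, fun h1 h2 h3 => (pr_subr 1 5 h1)⟩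
noncomputable def txg_226_fs : Sl3 txg_226 := ⟨_, fun h1 h2 h3 => (pr_subr 4 25 h1)⟩
noncomputable def txg_235_fs : Sl3 txg_235 := ⟨_, fun h1 h2 h3 => (pr_cmul (enc_norm (txg_4.enc h1.l h2.l h3)) (pr_norm (pr_subr 283 20000 (pr_scale 901 2000 h1))))⟩
noncomputable def txg_254_fs : Sl3 txg_254 := ⟨_, fun h1 h2 h3 => (pr_subr 6 25 h1)⟩
noncomputable def txg_309_fs : Sl3 txg_309 := ⟨_, fun h1 h2 h3 => (pr_subr 671 1729 h1)⟩
noncomputable def txg_311_fs : Sl3 txg_311 := ⟨_, fun h1 h2 h3 => (pr_subr 11 25 h1)⟩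
noncomputable def txg_fs : Sl3 txg := ⟨_, fun h1 h2 h3 => (pr_case (pr_subr 767 2689 h1) (pr_case (txg_26_fs.snd h1 h2 h3) (pr_case (txg_29_fs.snd h1 h2 h3) (pr_case (txg_32_fs.snd h1 h2 h3) (pr_add (pr_add (pr_addc (pr_scale 15181 40000 h1) (enc_rat _ 15181 80000)) (pr_cmul (enc_norm (txg_4.enc h1.l h2.l h3)) (pr_norm (pr_subr 119 4000 (pr_neg (pr_scale 119 2000 h1)))))) (pr_cmul (enc_norm (enc_subr 2513 2000 (enc_neg (enc_scale 312 25 (txg_4.enc h1.l h2.l h3))))) (pr_norm (pr_mul (pr_norm (pr_addc h1 (enc_rat _ 1 2))) (pr_norm (pr_csub (enc_neg (enc_rat _ 9 20)) h1)))))) (pr_case (txg_59_fs.snd h1 h2 h3) (pr_add (pr_add (pr_addc (pr_scale 7571 20000 h1) (enc_rat _ 151459 800000)) (pr_cmul (enc_norm (txg_4.enc h1.l h2.l h3)) (pr_norm (pr_addc (pr_scale 293 1000 h1) (enc_rat _ 1031 8000))))) (pr_cmul (enc_norm (enc_add (enc_scale 543 100 (txg_4.enc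 h1.l h2.l h3)) (enc_rat _ 319 250))) (pr_norm (pr_mul (pr_norm (txg_32_fs.snd h1 h2 h3)) (pr_norm (pr_csub (enc_neg (enc_rat _ 2 5)) h1)))))) (pr_add (pr_add (pr_addc (pr_scale 11387 40000 h1) (enc_rat _ 121419 800000)) (pr_cmul (enc_norm (txg_4.enc h1.l h2.l h3)) (pr_norm (pr_subr 641 1600 (pr_neg (pr_scale 4123 4000 h1)))))) (pr_cmul (enc_norm (enc_add (enc_scale 4209 200 (txg_4.enc h1.l h2.l h3)) (enc_rat _ 1203 2000))) (pr_norm (pr_mul (pr_norm (txg_59_fs.snd h1 h2 h3)) (pr_norm (pr_csub (enc_neg (enc_rat _ 7 20)) h1)))))))) (pr_case (txg_98_fs.snd h1 h2 h3) (pr_add (pr_add (pr_addc (pr_scale 1087 4000 h1) (enc_rat _ 589 4000)) (pr_cmul (enc_norm (txg_4.enc h1.l h2.l h3)) (pr_norm (pr_subr 59959 80000 (pr_neg (pr_scale 811 400 h1)))))) (pr_cmul (enc_norm (enc_subr 343 1000 (enc_neg (enc_scale 111 100 (txg_4.enc h1.l h2.l h3))))) (pr_norm (pr_mul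 (pr_norm (txg_29_fs.snd h1 h2 h3)) (pr_norm (pr_csub (enc_neg (enc_rat _ 3 10)) h1)))))) (pr_case (txg_122_fs.snd h1 h2 h3) (pr_add (pr_add (pr_addc (pr_scale 2451 8000 h1) (enc_rat _ 12611 80000)) (pr_cmul (enc_norm (txg_4.enc h1.l h2.l h3)) (pr_norm (pr_subr 57007 80000 (pr_neg (pr_scale 3809 2000 h1)))))) (pr_cmul (enc_norm (enc_subr 699 2000 (enc_neg (enc_scale 27 20 (txg_4.enc h1.l h2.l h3))))) (pr_norm (pr_mul (pr_norm (txg_98_fs.snd h1 h2 h3)) (pr_norm (pr_csub (enc_neg (enc_rat _ 1 4)) h1)))))) (pr_add (pr_add (pr_addc (pr_scale 13653 40000 h1) (enc_rat _ 1331 8000)) (pr_cmul (enc_norm (txg_4.enc h1.l h2.l h3)) (pr_norm (pr_subr 22227 80000 (pr_neg (pr_scale 331 2000 h1)))))) (pr_cmul (enc_norm (enc_subr 699 2000 (enc_neg (enc_scale 3343 100 (txg_4.enc h1.l h2.l h3))))) (pr_norm (pr_mul (pr_norm (txg_122_fs.snd h1 h2 h3)) (pr_norm (pr_csub (enc_neg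 (enc_rat _ 1 5)) h1))))))))) (pr_case (txg_167_fs.snd h1 h2 h3) (pr_case (txg_170_fs.snd h1 h2 h3) (pr_sub (pr_add (pr_addc (pr_scale 897 2500 h1) (enc_rat _ 16987 100000)) (pr_cmul (enc_norm (txg_4.enc h1.l h2.l h3)) (pr_norm (pr_addc (pr_scale 6077 4000 h1) (enc_rat _ 4729 80000))))) (pr_cmul (enc_norm (enc_scale 53 200 (txg_4.enc h1.l h2.l h3))) (pr_norm (pr_mul (pr_norm (txg_26_fs.snd h1 h2 h3)) (pr_norm (pr_csub (enc_neg (enc_rat _ 3 20)) h1)))))) (pr_case (txg_189_fs.snd h1 h2 h3) (pr_add (pr_add (pr_addc (pr_scale 12691 40000 h1) (enc_rat _ 130913 800000)) (pr_cmul (enc_norm (txg_4.enc h1.l h2.l h3)) (pr_norm (pr_addc (pr_scale 2463 2000 h1) (enc_rat _ 319 20000))))) (pr_cmul (enc_norm (enc_add (enc_scale 301 50 (txg_4.enc h1.l h2.l h3)) (enc_rat _ 1661 2000))) (pr_norm (pr_mul (pr_norm (txg_170_fs.snd h1 h2 h3)) (pr_norm (pr_csub (enc_neg (enc_rat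 _ 1 10)) h1)))))) (pr_add (pr_add (pr_addc (pr_scale 2193 20000 h1) (enc_rat _ 114303 800000)) (pr_cmul (enc_norm (txg_4.enc h1.l h2.l h3)) (pr_norm (pr_subr 763 20000 (pr_scale 1381 2000 h1))))) (pr_cmul (enc_norm (enc_add (enc_scale 6 5 (txg_4.enc h1.l h2.l h3)) (enc_rat _ 1661 2000))) (pr_norm (pr_mul (pr_norm (txg_189_fs.snd h1 h2 h3)) (pr_norm (pr_csub (enc_rat _ 1 10) h1)))))))) (pr_case (txg_224_fs.snd h1 h2 h3) (pr_case (txg_226_fs.snd h1 h2 h3) (pr_add (pr_add (pr_csub (enc_rat _ 650843 4000000) (pr_scale 8867 100000 h1)) (txg_235_fs.snd h1 h2 h3)) (pr_scale 537 1000 (pr_mul (pr_norm (txg_167_fs.snd h1 h2 h3)) (pr_norm (pr_csub (enc_rat _ 4 25) h1))))) (pr_add (pr_add (pr_csub (enc_rat _ 3426119 20000000) (pr_scale 14239 100000 h1)) (txg_235_fs.snd h1 h2 h3)) (pr_scale 43 80 (pr_mul (pr_norm (txg_226_fs.snd h1 h2 h3)) (pr_norm (pr_csub (enc_rat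 _ 1 5) h1)))))) (pr_case (txg_254_fs.snd h1 h2 h3) (pr_add (pr_add (pr_csub (enc_rat _ 3598119 20000000) (pr_scale 18539 100000 h1)) (pr_cmul (enc_norm (txg_4.enc h1.l h2.l h3)) (pr_norm (pr_subr 15859 100000 (pr_scale 11727 10000 h1))))) (pr_cmul (enc_norm (enc_sub (enc_rat _ 43 80) (enc_scale 3611 200 (txg_4.enc h1.l h2.l h3)))) (pr_norm (pr_mul (pr_norm (txg_224_fs.snd h1 h2 h3)) (pr_norm (pr_csub (enc_rat _ 6 25) h1)))))) (pr_add (pr_add (pr_add (pr_csub (enc_rat _ 20189507429547069 102215612500000000) (pr_scale 1058041855705449 4088624500000000 h1)) (pr_cmul (enc_norm (txg_4.enc h1.l h2.l h3)) (pr_norm (pr_subr 14323800446699 127769515625000 (pr_scale 40028410129807 40886245000000 h1))))) (pr_cmul (txg_288.enc h1.l h2.l h3) (pr_norm (pr_subr 3608413977 3041000000 (pr_scale 1202804659 243280000 h1))))) (pr_cmul (enc_norm (enc_add (enc_mul (enc_norm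 (enc_sub (enc_rat _ 20247 1000) (enc_scale 1093 10 (txg_4.enc h1.l h2.l h3)))) (enc_norm (txg_4.enc h1.l h2.l h3))) (enc_rat _ 1147 1000))) (pr_norm (pr_mul (pr_norm (txg_254_fs.snd h1 h2 h3)) (pr_norm (pr_csub (enc_rat _ 767 2689) h1)))))))))) (pr_case (txg_309_fs.snd h1 h2 h3) (pr_sub (pr_mul (pr_norm (pr_csub (enc_pnc _ 1) h2)) (pr_norm (pr_subn 1 (pr_nat 2 h2)))) (pr_mul (pr_norm (pr_nat 2 (pr_subc (pr_scale 4 3 (txg_6_fs.snd h1 h2 h3)) h3))) (pr_norm (pr_mul (pr_norm (pr_subn 1 (pr_add (pr_scale 2 3 (txg_6_fs.snd h1 h2 h3)) h2))) (kcg_fs.snd h1 h3))))) (pr_case (txg_311_fs.snd h1 h2 h3) (pr_add (pr_add (pr_add (pr_csub (enc_rat _ 243946813446447 734825000000000) (pr_scale 212634891441447 323323000000000 h1)) (pr_cmul (enc_norm (txg_4.enc h1.l h2.l h3)) (pr_norm (pr_csub (enc_rat _ 43989582819571 73482500000000) (pr_scale 38966906979571 32332300000000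 h1))))) (pr_cmul (txg_288.enc h1.l h2.l h3) (pr_norm (pr_csub (enc_rat _ 7423039049 3400000000) (pr_scale 7423039049 1496000000 h1))))) (pr_cmul (enc_norm (enc_add (enc_mul (enc_norm (enc_sub (enc_rat _ 7293 1000) (enc_scale 4779 50 (txg_4.enc h1.l h2.l h3)))) (enc_norm (txg_4.enc h1.l h2.l h3))) (enc_rat _ 14147 10000))) (pr_norm (pr_mul (pr_norm (txg_309_fs.snd h1 h2 h3)) (pr_norm (pr_csub (enc_rat _ 11 25) h1)))))) (pr_add (pr_add (pr_csub (enc_rat _ 71019 200000) (pr_scale 71019 100000 h1)) (pr_cmul (enc_norm (txg_4.enc h1.l h2.l h3)) (pr_norm (pr_csub (enc_rat _ 356 625) (pr_scale 712 625 h1))))) (pr_cmul (enc_norm (enc_subr 697 2000 (enc_neg (enc_scale 741 100 (txg_4.enc h1.l h2.l h3))))) (pr_norm (pr_mul (pr_norm (txg_311_fs.snd h1 h2 h3)) (pr_norm (pr_csub (enc_rat _ 1 2) h1)))))))))⟩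
noncomputable def l0q0_fs : Sl2 l0q0 := ⟨_, fun h1 h2 => (pr_norm (txg_fs.snd (pr_norm (pr_sub (pr_scale 3 4 h1) (pr_half (c1g_fs.snd h1)))) (pr_nd (c1g_fs.snd h1)) h2))⟩
noncomputable def swg_fs : Sl1 swg := ⟨_, fun h1 => (pr_sqrt (pr_csub (enc_pnc _ 1) (pr_scale 3 4 (pr_sq (pr_norm (pr_subn 1 h1))))))⟩
noncomputable def cv1m_fs : Sl1 cv1m := ⟨_, fun h1 => (pr_norm (pr_add (pr_scale 3 5 (c1g_fs.snd h1)) (pr_scale 2 5 (pr_addc (swg_fs.snd h1) (enc_rat _ 1 2)))))⟩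
noncomputable def bf1q0_9_fs : Sl2 bf1q0_9 := ⟨_, fun h1 h2 => (pr_csub (enc_pnc _ 1) (pr_scale 5682 3125 h1))⟩
noncomputable def bf1q0_fs : Sl2 bf1q0 := ⟨_, fun h1 h2 => (pr_norm (pr_case (pr_subr 1 16 h1) (pr_add (bf1q0_9_fs.snd h1 h2) (pr_cmul (enc_norm (bf1q0_3.enc h1.l h2)) (pr_nd (pr_scale 2711 625 h1)))) (pr_add (bf1q0_9_fs.snd h1 h2) (pr_cmul (enc_norm (bf1q0_3.enc h1.l h2)) (pr_norm (pr_addc (pr_scale 2248 875 h1) (enc_rat _ 7737 70000)))))))⟩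
noncomputable def kf1q0_fs : Sl2 kf1q0 := ⟨_, fun h1 h2 => (pr_norm (pr_mul (cv1m_fs.snd h1) (bf1q0_fs.snd h1 h2)))⟩
noncomputable def bx1q0_26_fs : Sl2 bx1q0_26 := ⟨_, fun h1 h2 => (pr_scale 27 32 h1)⟩
noncomputable def bx1q0_47_fs : Sl2 bx1q0_47 := ⟨_, fun h1 h2 => (pr_addc (pr_scale 157 1400 h1) (enc_rat _ 18791 350000))⟩
noncomputable def bx1q0_fs : Sl2 bx1q0 := ⟨_, fun h1 h2 => (pr_norm (pr_case (pr_subr 4 25 h1) (pr_case (pr_subr 1 16 h1) (pr_add (pr_scale 129 250 h1) (pr_cmul (enc_norm (bx1q0_3.enc h1.l h2)) (pr_nd (pr_scale 681 625 h1)))) (pr_case (pr_subr 2 25 h1) (pr_add (pr_addc (pr_scale 81 175 h1) (enc_rat _ 93 28000)) (pr_cmul (enc_norm (bx1q0_3.enc h1.l h2)) (pr_norm (pr_addc (pr_scale 38 35 h1) (enc_rat _ 17 70000))))) (pr_add (pr_addc (pr_scale 391 1000 h1) (enc_rat _ 907 100000)) (pr_cmul (enc_norm (bx1q0_3.enc h1.l h2)) (pr_norm (pr_addc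 (bx1q0_26_fs.snd h1 h2) (enc_rat _ 49 2500))))))) (pr_case (pr_subr 11 50 h1) (pr_add (pr_addc (pr_scale 673 6000 h1) (enc_rat _ 3221 60000)) (pr_cmul (enc_norm (bx1q0_3.enc h1.l h2)) (pr_norm (pr_addc (pr_scale 169 200 h1) (enc_rat _ 97 5000))))) (pr_case (pr_subr 69 250 h1) (pr_add (bx1q0_47_fs.snd h1 h2) (pr_cmul (enc_norm (bx1q0_3.enc h1.l h2)) (pr_norm (pr_addc (pr_scale 59 70 h1) (enc_rat _ 1391 70000))))) (pr_add (bx1q0_47_fs.snd h1 h2) (pr_cmul (enc_norm (bx1q0_3.enc h1.l h2)) (pr_norm (pr_addc (bx1q0_26_fs.snd h1 h2) (enc_rat _ 157 8000)))))))))⟩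
noncomputable def l1q0_fs : Sl2 l1q0 := ⟨_, fun h1 h2 => (pr_norm (pr_mul (cv1m_fs.snd h1) (bx1q0_fs.snd h1 h2)))⟩
noncomputable def kf0q1_10_fs : Sl2 kf0q1_10 := ⟨_, fun h1 h2 => (pr_scale 3 2 h1)⟩
noncomputable def kf0q1_fs : Sl2 kf0q1 := ⟨_, fun h1 h2 => (pr_norm (pr_add (pr_mul (pr_norm (pr_mul (pr_norm (pr_cadd (enc_pnc _ 1) (pr_nat 2 (c1g_fs.snd h1)))) (pr_norm (pr_sub (kf0q1_10_fs.snd h1 h2) (c1g_fs.snd h1))))) (pr_nd (pr_inv (pr_nat 2 (pr_sub (pr_cadd (enc_pnc _ 1) (kf0q1_10_fs.snd h1 h2)) (c1g_fs.snd h1)))))) (pr_mul (pr_norm (pr_subn 1 h1)) (kcg_fs.snd (pr_norm (pr_sub (pr_scale 3 4 h1) (pr_half (c1g_fs.snd h1)))) h2))))⟩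
noncomputable def l0q1_fs : Sl2 l0q1 := ⟨_, fun h1 h2 => (pr_norm (txg_fs.snd (pr_norm (pr_sub (pr_scale 3 4 h1) (pr_half (c1g_fs.snd h1)))) (pr_nd (c1g_fs.snd h1)) h2))⟩
noncomputable def cv1p_fs : Sl1 cv1p := ⟨_, fun h1 => (pr_norm (pr_add (pr_scale 3 5 (c1g_fs.snd h1)) (pr_scale 2 5 (pr_subr 1 2 (swg_fs.snd h1)))))⟩
noncomputable def bf1q2_9_fs : Sl2 bf1q2_9 := ⟨_, fun h1 h2 => (pr_csub (enc_rat _ 7773 2000) (pr_scale 5773 2000 h1))⟩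
noncomputable def bf1q2_15_fs : Sl2 bf1q2_15 := ⟨_, fun h1 h2 => (pr_add (bf1q2_9_fs.snd h1 h2) (pr_cmul (enc_norm (bf1q2_3.enc h1.l h2)) (pr_norm (pr_csub (enc_rat _ 99351 10000) (pr_scale 99351 10000 h1)))))⟩
noncomputable def bf1q2_fs : Sl2 bf1q2 := ⟨_, fun h1 h2 => (pr_norm (pr_case (pr_subr 577 500 h1) (bf1q2_15_fs.snd h1 h2) (pr_case (pr_subr 231 200 h1) (bf1q2_15_fs.snd h1 h2) (pr_add (bf1q2_9_fs.snd h1 h2) (pr_cmul (enc_norm (bf1q2_3.enc h1.l h2)) (pr_norm (pr_csub (enc_rat _ 4570223 460000) (pr_scale 6855319 690000 h1))))))))⟩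
noncomputable def kf1q2_fs : Sl2 kf1q2 := ⟨_, fun h1 h2 => (pr_norm (pr_mul (cv1p_fs.snd h1) (bf1q2_fs.snd h1 h2)))⟩
noncomputable def bx1q2_fs : Sl2 bx1q2 := ⟨_, fun h1 h2 => (pr_norm (pr_case (pr_subr 277 250 h1) (pr_case (pr_subr 17 16 h1) (pr_add (pr_csub (enc_rat _ 4209 6250) (pr_scale 4209 6250 h1)) (pr_cmul (enc_norm (bx1q2_3.enc h1.l h2)) (pr_norm (pr_csub (enc_rat _ 2181 625) (pr_scale 2181 625 h1))))) (pr_add (pr_csub (enc_rat _ 126739 87500) (pr_scale 491 350 h1)) (pr_cmul (enc_norm (bx1q2_3.enc h1.l h2)) (pr_norm (pr_csub (enc_rat _ 6043077 455000) (pr_scale 5781 455 h1)))))) (pr_case (pr_subr 577 500 h1) (pr_add (pr_csub (enc_rat _ 1509409 575000) (pr_scale 5669 2300 h1)) (pr_cmul (enc_norm (bx1q2_3.enc h1.l h2)) (pr_norm (pr_csub (enc_rat _ 1528333 115000) (pr_scale 1462 115 h1))))) (pr_casec1 (pr_subr 231 200 h1) (enc_sub (enc_neg (enc_rat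 _ 2193 10000)) (enc_scale 1381 1000 (bx1q2_3.enc h1.l h2))) (pr_add (pr_subr 187589 92000 (pr_scale 10871 6900 h1)) (pr_cmul (enc_norm (bx1q2_3.enc h1.l h2)) (pr_norm (pr_subr 5539 1000 (pr_scale 18 5 h1)))))))))⟩
noncomputable def l1q2_fs : Sl2 l1q2 := ⟨_, fun h1 h2 => (pr_norm (pr_mul (cv1p_fs.snd h1) (bx1q2_fs.snd h1 h2)))⟩
noncomputable def dlg : Fn2 := ⟨_, _, fun h1 h2 => (kcg.enc (enc_norm (enc_sub (enc_scale 3 4 h1) (enc_half (c1g.enc h1)))) h2)⟩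
noncomputable def kq02_6 : Fn2 := ⟨_, _, fun h1 h2 => (enc_scale 99351 10000 h2)⟩
noncomputable def kq02 : Fn2 := ⟨_, _, fun h1 h2 => (enc_norm (enc_add (enc_subr 1214097 250000 (kq02_6.enc h1 h2)) (enc_mul (enc_norm (enc_sub (enc_rat _ 1464097 250000) (kq02_6.enc h1 h2))) (yag.enc h1))))⟩
noncomputable def lq02 : Fn2 := ⟨_, _, fun h1 h2 => (enc_norm (enc_sub (enc_rat _ 49799 50000) (enc_scale 1381 1000 h2)))⟩
noncomputable def cq02 : Fn2 := ⟨_, _, fun h1 h2 => (enc_pnc _ 0)⟩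
noncomputable def pcE0 : Piece := ⟨Fn3.sc eng rsbq0, rlq0⟩
noncomputable def pcE1 : Piece := ⟨Fn3.sc eng rsbq1, rlq1⟩
noncomputable def pcE2 : Piece := ⟨Fn3.sc eng rsbq2, rlq2⟩
noncomputable def pcE3 : Piece := ⟨Fn3.sc eng rsbq3, rlq3⟩

end Pool.Agent.Strip051.G.I8600_9000.Tab
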