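import Pool.Agent.Strip051.G.I8600_9000.Tab
import Pool.Agent.Strip051.PB.C12G
import Pool.Agent.Strip051.PB.PairB

/-! # Slopes of the tables near the lattice heights (generated) -/

set_option linter.all false

namespace Pool.Agent.Strip051.G.I8600_9000.Tab

open Pool.Agent.Strip051.PB

attribute [local irreducible] padd psub pneg pmul psq pinv psqrt psqrtg pabs pps pmax pmin pphi plam
  pcase phf pnat prat pscale pnorm pdc pnc pone ppos pnn Enc pbad pzero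

noncomputable def idf_s : Sl1 idf := ⟨fun _ _ D => D, fun h => h⟩

theorem cv1r_two {b : ℝ} (h : b = 2) : cv1r.v b = 0 := by
  have e : swg.v = swn := by funext y; simp [swg, swn]
  subst h
  simp only [cv1r, e, swn_two]
  push_cast
  ring
noncomputable def c1g_s : Sl1 c1g := ⟨_, fun h1 => (pr_sqrtgz (pr_csub (enc_pnc _ 1) (pr_scale 3 4 (pr_sq h1))))⟩
noncomputable def kcg_6_s : Sl2 kcg_6 := ⟨_, fun h1 h2 => (pr_addc h1 (enc_rat _ 767 2689))⟩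
noncomputable def kcg_9_s : Sl2 kcg_9 := ⟨_, fun h1 h2 => (pr_addc h1 (enc_rat _ 83 200))⟩
noncomputable def kcg_12_s : Sl2 kcg_12 := ⟨_, fun h1 h2 => (pr_addc h1 (enc_rat _ 89 200))⟩
noncomputable def kcg_13_s : Sl2 kcg_13 := ⟨_, fun h1 h2 => (pr_scale 53298629 13750000 h1)⟩
noncomputable def kcg_18_s : Sl2 kcg_18 := ⟨_, fun h1 h2 => (pr_scale 44433931 1100000 h1)⟩
noncomputable def kcg_39_s : Sl2 kcg_39 := ⟨_, fun h1 h2 => (pr_scale 2934547 15000000 h1)⟩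
noncomputable def kcg_44_s : Sl2 kcg_44 := ⟨_, fun h1 h2 => (pr_scale 57479903 3000000 h1)⟩
noncomputable def kcg_61_s : Sl2 kcg_61 := ⟨_, fun h1 h2 => (pr_addc h1 (enc_rat _ 671 1729))⟩
noncomputable def kcg_62_s : Sl2 kcg_62 := ⟨_, fun h1 h2 => (pr_scale 2575136291 1135000000 h1)⟩
noncomputable def kcg_66_s : Sl2 kcg_66 := ⟨_, fun h1 h2 => (pr_scale 81348486947 4653500000 h1)⟩
noncomputable def kcg_78_s : Sl2 kcg_78 := ⟨_, fun h1 h2 => (pr_scale 17464480110623 4981000000000 h1)⟩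
noncomputable def kcg_81_s : Sl2 kcg_81 := ⟨_, fun h1 h2 => (pr_scale 9283912115569 996200000000 h1)⟩
noncomputable def kcg_99_s : Sl2 kcg_99 := ⟨_, fun h1 h2 => (pr_addc h1 (enc_rat _ 4 25))⟩
noncomputable def kcg_102_s : Sl2 kcg_102 := ⟨_, fun h1 h2 => (pr_addc h1 (enc_rat _ 6 25))⟩
noncomputable def kcg_103_s : Sl2 kcg_103 := ⟨_, fun h1 h2 => (pr_scale 196432264767 60820000000 h1)⟩
noncomputable def kcg_106_s : Sl2 kcg_106 := ⟨_, fun h1 h2 => (pr_scale 337171021 486560000 h1)⟩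
noncomputable def kcg_120_s : Sl2 kcg_120 := ⟨_, fun h1 h2 => (pr_scale 22651 10000 h1)⟩
noncomputable def kcg_124_s : Sl2 kcg_124 := ⟨_, fun h1 h2 => (pr_scale 14653 10000 h1)⟩
noncomputable def kcg_144_s : Sl2 kcg_144 := ⟨_, fun h1 h2 => (pr_scale 22677 10000 h1)⟩
noncomputable def kcg_148_s : Sl2 kcg_148 := ⟨_, fun h1 h2 => (pr_scale 42351 10000 h1)⟩
noncomputable def kcg_165_s : Sl2 kcg_165 := ⟨_, fun h1 h2 => (pr_scale 5773 2000 h1)⟩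
noncomputable def kcg_168_s : Sl2 kcg_168 := ⟨_, fun h1 h2 => (pr_cmul (enc_norm (kcg_3.enc h1.l h2)) (pr_nd (pr_scale 99351 10000 h1)))⟩
noncomputable def kcg_174_s : Sl2 kcg_174 := ⟨_, fun h1 h2 => (pr_csub (enc_rat _ 767 2689) h1)⟩
noncomputable def kcg_175_s : Sl2 kcg_175 := ⟨_, fun h1 h2 => (pr_csub (enc_rat _ 83 200) h1)⟩
noncomputable def kcg_176_s : Sl2 kcg_176 := ⟨_, fun h1 h2 => (pr_csub (enc_rat _ 89 200) h1)⟩
noncomputable def kcg_196_s : Sl2 kcg_196 := ⟨_, fun h1 h2 => (pr_csub (enc_rat _ 671 1729) h1)⟩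
noncomputable def kcg_219_s : Sl2 kcg_219 := ⟨_, fun h1 h2 => (pr_csub (enc_rat _ 4 25) h1)⟩
noncomputable def kcg_220_s : Sl2 kcg_220 := ⟨_, fun h1 h2 => (pr_csub (enc_rat _ 6 25) h1)⟩
noncomputable def kcg_s : Sl2 kcg := ⟨_, fun h1 h2 => (pr_norm (pr_case h1 (pr_case (kcg_6_s.snd h1 h2) (pr_case (kcg_9_s.snd h1 h2) (pr_case (kcg_12_s.snd h1 h2) (pr_add (pr_add (pr_subr 31684292933 11000000000 (pr_neg (kcg_13_s.snd h1 h2))) (pr_cmul (enc_norm (kcg_3.enc h1.l h2)) (pr_norm (pr_subr 5782442887 275000000 (pr_neg (kcg_18_s.snd h1 h2)))))) (pr_cmul (enc_norm (kcg_31.enc h1.l h2)) (pr_norm (pr_mul (pr_norm (pr_addc h1 (enc_rat _ 1 2))) (pr_norm (pr_csub (enc_neg (enc_rat _ 89 200)) h1)))))) (pr_add (pr_add (pr_subr 186376657 150000000 (pr_neg (kcg_39_s.snd h1 h2))) (pr_cmul (enc_norm (kcg_3.enc h1.l h2)) (pr_norm (pr_addc (kcg_44_s.snd h1 h2) (enc_rat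 _ 3284799229 600000000))))) (pr_cmul (enc_norm (kcg_53.enc h1.l h2)) (pr_norm (pr_mul (pr_norm (kcg_12_s.snd h1 h2)) (pr_norm (pr_csub (enc_neg (enc_rat _ 83 200)) h1))))))) (pr_case (kcg_61_s.snd h1 h2) (pr_add (pr_add (pr_subr 24941881049 113500000000 (kcg_62_s.snd h1 h2)) (pr_cmul (enc_norm (kcg_3.enc h1.l h2)) (pr_norm (pr_addc (kcg_66_s.snd h1 h2) (enc_rat _ 4446839995761 930700000000))))) (pr_cmul (enc_norm (kcg_73.enc h1.l h2)) (pr_norm (pr_mul (pr_norm (kcg_9_s.snd h1 h2)) (pr_norm (pr_csub (enc_neg (enc_rat _ 671 1729)) h1)))))) (pr_add (pr_add (pr_addc (kcg_78_s.snd h1 h2) (enc_rat _ 1297331238283 4981000000000)) (pr_cmul (enc_norm (kcg_3.enc h1.l h2)) (pr_norm (pr_addc (kcg_81_s.snd h1 h2) (enc_rat _ 1604349482557 996200000000))))) (pr_cmul (enc_norm (kcg_90.enc h1.l h2)) (pr_norm (pr_mul (pr_norm (kcg_61_s.snd h1 h2)) (pr_norm (pr_csub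 (enc_neg (enc_rat _ 767 2689)) h1)))))))) (pr_case (kcg_99_s.snd h1 h2) (pr_case (kcg_102_s.snd h1 h2) (pr_add (pr_add (pr_addc (kcg_103_s.snd h1 h2) (enc_rat _ 138054968301 760250000000)) (pr_cmul (enc_norm (kcg_3.enc h1.l h2)) (pr_norm (pr_subr 5170183081 6082000000 (kcg_106_s.snd h1 h2))))) (pr_cmul (enc_norm (kcg_115.enc h1.l h2)) (pr_norm (pr_mul (pr_norm (kcg_6_s.snd h1 h2)) (pr_norm (pr_csub (enc_neg (enc_rat _ 6 25)) h1)))))) (pr_add (pr_add (pr_subr 156 3125 (kcg_120_s.snd h1 h2)) (pr_cmul (enc_norm (kcg_3.enc h1.l h2)) (pr_norm (pr_subr 21376 15625 (pr_neg (kcg_124_s.snd h1 h2)))))) (pr_cmul (enc_norm (kcg_135.enc h1.l h2)) (pr_norm (pr_mul (pr_norm (kcg_102_s.snd h1 h2)) (pr_norm (pr_csub (enc_neg (enc_rat _ 4 25)) h1))))))) (pr_case (pr_addc h1 (enc_rat _ 2 25)) (pr_add (pr_add (pr_subr 1547 31250 (kcg_144_s.snd h1 h2)) (pr_cmul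 (enc_norm (kcg_3.enc h1.l h2)) (pr_norm (pr_subr 57 125 (kcg_148_s.snd h1 h2))))) (pr_cmul (enc_norm (kcg_160.enc h1.l h2)) (pr_norm (pr_mul (pr_norm (kcg_99_s.snd h1 h2)) (pr_norm (pr_csub (enc_neg (enc_rat _ 2 25)) h1)))))) (pr_add (kcg_165_s.snd h1 h2) (kcg_168_s.snd h1 h2))))) (pr_neg (pr_case (kcg_174_s.snd h1 h2) (pr_case (kcg_175_s.snd h1 h2) (pr_case (kcg_176_s.snd h1 h2) (pr_add (pr_add (pr_subr 31684292933 11000000000 (kcg_13_s.snd h1 h2)) (pr_cmul (enc_norm (kcg_3.enc h1.l h2)) (pr_norm (pr_subr 5782442887 275000000 (kcg_18_s.snd h1 h2))))) (pr_cmul (enc_norm (kcg_31.enc h1.l h2)) (pr_norm (pr_mul (pr_norm (pr_csub (enc_rat _ 1 2) h1)) (pr_norm (pr_subr 89 200 h1)))))) (pr_add (pr_add (pr_subr 186376657 150000000 (kcg_39_s.snd h1 h2)) (pr_cmul (enc_norm (kcg_3.enc h1.l h2)) (pr_norm (pr_csub (enc_rat _ 3284799229 600000000) (kcg_44_s.snd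 h1 h2))))) (pr_cmul (enc_norm (kcg_53.enc h1.l h2)) (pr_norm (pr_mul (pr_norm (kcg_176_s.snd h1 h2)) (pr_norm (pr_subr 83 200 h1))))))) (pr_case (kcg_196_s.snd h1 h2) (pr_add (pr_add (pr_subr 24941881049 113500000000 (pr_neg (kcg_62_s.snd h1 h2))) (pr_cmul (enc_norm (kcg_3.enc h1.l h2)) (pr_norm (pr_csub (enc_rat _ 4446839995761 930700000000) (kcg_66_s.snd h1 h2))))) (pr_cmul (enc_norm (kcg_73.enc h1.l h2)) (pr_norm (pr_mul (pr_norm (kcg_175_s.snd h1 h2)) (pr_norm (pr_subr 671 1729 h1)))))) (pr_add (pr_add (pr_csub (enc_rat _ 1297331238283 4981000000000) (kcg_78_s.snd h1 h2)) (pr_cmul (enc_norm (kcg_3.enc h1.l h2)) (pr_norm (pr_csub (enc_rat _ 1604349482557 996200000000) (kcg_81_s.snd h1 h2))))) (pr_cmul (enc_norm (kcg_90.enc h1.l h2)) (pr_norm (pr_mul (pr_norm (kcg_196_s.snd h1 h2)) (pr_norm (pr_subr 767 2689 h1)))))))) (pr_case (kcg_219_s.snd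 h1 h2) (pr_case (kcg_220_s.snd h1 h2) (pr_add (pr_add (pr_csub (enc_rat _ 138054968301 760250000000) (kcg_103_s.snd h1 h2)) (pr_cmul (enc_norm (kcg_3.enc h1.l h2)) (pr_norm (pr_subr 5170183081 6082000000 (pr_neg (kcg_106_s.snd h1 h2)))))) (pr_cmul (enc_norm (kcg_115.enc h1.l h2)) (pr_norm (pr_mul (pr_norm (kcg_174_s.snd h1 h2)) (pr_norm (pr_subr 6 25 h1)))))) (pr_add (pr_add (pr_subr 156 3125 (pr_neg (kcg_120_s.snd h1 h2))) (pr_cmul (enc_norm (kcg_3.enc h1.l h2)) (pr_norm (pr_subr 21376 15625 (kcg_124_s.snd h1 h2))))) (pr_cmul (enc_norm (kcg_135.enc h1.l h2)) (pr_norm (pr_mul (pr_norm (kcg_220_s.snd h1 h2)) (pr_norm (pr_subr 4 25 h1))))))) (pr_case (pr_csub (enc_rat _ 2 25) h1) (pr_add (pr_add (pr_subr 1547 31250 (pr_neg (kcg_144_s.snd h1 h2))) (pr_cmul (enc_norm (kcg_3.enc h1.l h2)) (pr_norm (pr_subr 57 125 (pr_neg (kcg_148_s.snd h1 h2))))))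 (pr_cmul (enc_norm (kcg_160.enc h1.l h2)) (pr_norm (pr_mul (pr_norm (kcg_219_s.snd h1 h2)) (pr_norm (pr_subr 2 25 h1)))))) (pr_sub (pr_neg (kcg_165_s.snd h1 h2)) (kcg_168_s.snd h1 h2))))))))⟩
noncomputable def kf0q0_9_s : Sl2 kf0q0_9 := ⟨_, fun h1 h2 => (pr_scale 3 2 h1)⟩
noncomputable def kf0q0_12_s : Sl2 kf0q0_12 := ⟨_, fun h1 h2 => (pr_cadd (enc_pnc _ 1) (c1g_s.snd h1))⟩
noncomputable def kf0q0_s : Sl2 kf0q0 := ⟨_, fun h1 h2 => (pr_norm (pr_add (pr_mul (pr_norm (pr_mul (pr_norm (pr_sub (c1g_s.snd h1) (kf0q0_9_s.snd h1 h2))) (pr_norm (kf0q0_12_s.snd h1 h2)))) (pr_nd (pr_inv (pr_sub (kf0q0_12_s.snd h1 h2) (kf0q0_9_s.snd h1 h2))))) (pr_mul h1 (kcg_s.snd (pr_norm (pr_sub (pr_scale 3 4 h1) (pr_half (c1g_s.snd h1)))) h2))))⟩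
noncomputable def txg_6_s : Sl3 txg_6 := ⟨_, fun h1 h2 h3 => (pr_add h1 (pr_half h2))⟩
noncomputable def txg_26_s : Sl3 txg_26 := ⟨_, fun h1 h2 h3 => (pr_addc h1 (enc_rat _ 1 5))⟩
noncomputable def txg_29_s : Sl3 txg_29 := ⟨_, fun h1 h2 h3 => (pr_addc h1 (enc_rat _ 7 20))⟩
noncomputable def txg_32_s : Sl3 txg_32 := ⟨_, fun h1 h2 h3 => (pr_addc h1 (enc_rat _ 9 20))⟩
noncomputable def txg_59_s : Sl3 txg_59 := ⟨_, fun h1 h2 h3 => (pr_addc h1 (enc_rat _ 2 5))⟩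
noncomputable def txg_98_s : Sl3 txg_98 := ⟨_, fun h1 h2 h3 => (pr_addc h1 (enc_rat _ 3 10))⟩
noncomputable def txg_122_s : Sl3 txg_122 := ⟨_, fun h1 h2 h3 => (pr_addc h1 (enc_rat _ 1 4))⟩
noncomputable def txg_167_s : Sl3 txg_167 := ⟨_, fun h1 h2 h3 => (pr_subr 1 10 h1)⟩
noncomputable def txg_170_s : Sl3 txg_170 := ⟨_, fun h1 h2 h3 => (pr_addc h1 (enc_rat _ 3 20))⟩
noncomputable def txg_189_s : Sl3 txg_189 := ⟨_, fun h1 h2 h3 => (pr_addc h1 (enc_rat _ 1 10))⟩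
noncomputable def txg_224_s : Sl3 txg_224 := ⟨_, fun h1 h2 h3 => (pr_subr 1 5 h1)⟩
noncomputable def txg_226_s : Sl3 txg_226 := ⟨_, fun h1 h2 h3 => (pr_subr 4 25 h1)⟩
noncomputable def txg_235_s : Sl3 txg_235 := ⟨_, fun h1 h2 h3 => (pr_cmul (enc_norm (txg_4.enc h1.l h2.l h3)) (pr_norm (pr_subr 283 20000 (pr_scale 901 2000 h1))))⟩
noncomputable def txg_254_s : Sl3 txg_254 := ⟨_, fun h1 h2 h3 => (pr_subr 6 25 h1)⟩
noncomputable def txg_309_s : Sl3 txg_309 := ⟨_, fun h1 h2 h3 => (pr_subr 671 1729 h1)⟩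
noncomputable def txg_311_s : Sl3 txg_311 := ⟨_, fun h1 h2 h3 => (pr_subr 11 25 h1)⟩
noncomputable def txg_s : Sl3 txg := ⟨_, fun h1 h2 h3 => (pr_case (pr_subr 767 2689 h1) (pr_case (txg_26_s.snd h1 h2 h3) (pr_case (txg_29_s.snd h1 h2 h3) (pr_case (txg_32_s.snd h1 h2 h3) (pr_add (pr_add (pr_addc (pr_scale 15181 40000 h1) (enc_rat _ 15181 80000)) (pr_cmul (enc_norm (txg_4.enc h1.l h2.l h3)) (pr_norm (pr_subr 119 4000 (pr_neg (pr_scale 119 2000 h1)))))) (pr_cmul (enc_norm (enc_subr 2513 2000 (enc_neg (enc_scale 312 25 (txg_4.enc h1.l h2.l h3))))) (pr_norm (pr_mul (pr_norm (pr_addc h1 (enc_rat _ 1 2))) (pr_norm (pr_csub (enc_neg (enc_rat _ 9 20)) h1)))))) (pr_case (txg_59_s.snd h1 h2 h3) (pr_add (pr_add (pr_addc (pr_scale 7571 20000 h1) (enc_rat _ 151459 800000)) (pr_cmul (enc_norm (txg_4.enc h1.l h2.l h3)) (pr_norm (pr_addc (pr_scale 293 1000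 h1) (enc_rat _ 1031 8000))))) (pr_cmul (enc_norm (enc_add (enc_scale 543 100 (txg_4.enc h1.l h2.l h3)) (enc_rat _ 319 250))) (pr_norm (pr_mul (pr_norm (txg_32_s.snd h1 h2 h3)) (pr_norm (pr_csub (enc_neg (enc_rat _ 2 5)) h1)))))) (pr_add (pr_add (pr_addc (pr_scale 11387 40000 h1) (enc_rat _ 121419 800000)) (pr_cmul (enc_norm (txg_4.enc h1.l h2.l h3)) (pr_norm (pr_subr 641 1600 (pr_neg (pr_scale 4123 4000 h1)))))) (pr_cmul (enc_norm (enc_add (enc_scale 4209 200 (txg_4.enc h1.l h2.l h3)) (enc_rat _ 1203 2000))) (pr_norm (pr_mul (pr_norm (txg_59_s.snd h1 h2 h3)) (pr_norm (pr_csub (enc_neg (enc_rat _ 7 20)) h1)))))))) (pr_case (txg_98_s.snd h1 h2 h3) (pr_add (pr_add (pr_addc (pr_scale 1087 4000 h1) (enc_rat _ 589 4000)) (pr_cmul (enc_norm (txg_4.enc h1.l h2.l h3)) (pr_norm (pr_subr 59959 80000 (pr_neg (pr_scale 811 400 h1)))))) (pr_cmul (enc_norm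 (enc_subr 343 1000 (enc_neg (enc_scale 111 100 (txg_4.enc h1.l h2.l h3))))) (pr_norm (pr_mul (pr_norm (txg_29_s.snd h1 h2 h3)) (pr_norm (pr_csub (enc_neg (enc_rat _ 3 10)) h1)))))) (pr_case (txg_122_s.snd h1 h2 h3) (pr_add (pr_add (pr_addc (pr_scale 2451 8000 h1) (enc_rat _ 12611 80000)) (pr_cmul (enc_norm (txg_4.enc h1.l h2.l h3)) (pr_norm (pr_subr 57007 80000 (pr_neg (pr_scale 3809 2000 h1)))))) (pr_cmul (enc_norm (enc_subr 699 2000 (enc_neg (enc_scale 27 20 (txg_4.enc h1.l h2.l h3))))) (pr_norm (pr_mul (pr_norm (txg_98_s.snd h1 h2 h3)) (pr_norm (pr_csub (enc_neg (enc_rat _ 1 4)) h1)))))) (pr_add (pr_add (pr_addc (pr_scale 13653 40000 h1) (enc_rat _ 1331 8000)) (pr_cmul (enc_norm (txg_4.enc h1.l h2.l h3)) (pr_norm (pr_subr 22227 80000 (pr_neg (pr_scale 331 2000 h1)))))) (pr_cmul (enc_norm (enc_subr 699 2000 (enc_neg (enc_scale 3343 100 (txg_4.enc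 h1.l h2.l h3))))) (pr_norm (pr_mul (pr_norm (txg_122_s.snd h1 h2 h3)) (pr_norm (pr_csub (enc_neg (enc_rat _ 1 5)) h1))))))))) (pr_case (txg_167_s.snd h1 h2 h3) (pr_case (txg_170_s.snd h1 h2 h3) (pr_sub (pr_add (pr_addc (pr_scale 897 2500 h1) (enc_rat _ 16987 100000)) (pr_cmul (enc_norm (txg_4.enc h1.l h2.l h3)) (pr_norm (pr_addc (pr_scale 6077 4000 h1) (enc_rat _ 4729 80000))))) (pr_cmul (enc_norm (enc_scale 53 200 (txg_4.enc h1.l h2.l h3))) (pr_norm (pr_mul (pr_norm (txg_26_s.snd h1 h2 h3)) (pr_norm (pr_csub (enc_neg (enc_rat _ 3 20)) h1)))))) (pr_case (txg_189_s.snd h1 h2 h3) (pr_add (pr_add (pr_addc (pr_scale 12691 40000 h1) (enc_rat _ 130913 800000)) (pr_cmul (enc_norm (txg_4.enc h1.l h2.l h3)) (pr_norm (pr_addc (pr_scale 2463 2000 h1) (enc_rat _ 319 20000))))) (pr_cmul (enc_norm (enc_add (enc_scale 301 50 (txg_4.enc h1.l h2.l h3)) (enc_rat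 _ 1661 2000))) (pr_norm (pr_mul (pr_norm (txg_170_s.snd h1 h2 h3)) (pr_norm (pr_csub (enc_neg (enc_rat _ 1 10)) h1)))))) (pr_add (pr_add (pr_addc (pr_scale 2193 20000 h1) (enc_rat _ 114303 800000)) (pr_cmul (enc_norm (txg_4.enc h1.l h2.l h3)) (pr_norm (pr_subr 763 20000 (pr_scale 1381 2000 h1))))) (pr_cmul (enc_norm (enc_add (enc_scale 6 5 (txg_4.enc h1.l h2.l h3)) (enc_rat _ 1661 2000))) (pr_norm (pr_mul (pr_norm (txg_189_s.snd h1 h2 h3)) (pr_norm (pr_csub (enc_rat _ 1 10) h1)))))))) (pr_case (txg_224_s.snd h1 h2 h3) (pr_case (txg_226_s.snd h1 h2 h3) (pr_add (pr_add (pr_csub (enc_rat _ 650843 4000000) (pr_scale 8867 100000 h1)) (txg_235_s.snd h1 h2 h3)) (pr_scale 537 1000 (pr_mul (pr_norm (txg_167_s.snd h1 h2 h3)) (pr_norm (pr_csub (enc_rat _ 4 25) h1))))) (pr_add (pr_add (pr_csub (enc_rat _ 3426119 20000000) (pr_scale 14239 100000 h1)) (txg_235_s.snd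 h1 h2 h3)) (pr_scale 43 80 (pr_mul (pr_norm (txg_226_s.snd h1 h2 h3)) (pr_norm (pr_csub (enc_rat _ 1 5) h1)))))) (pr_case (txg_254_s.snd h1 h2 h3) (pr_add (pr_add (pr_csub (enc_rat _ 3598119 20000000) (pr_scale 18539 100000 h1)) (pr_cmul (enc_norm (txg_4.enc h1.l h2.l h3)) (pr_norm (pr_subr 15859 100000 (pr_scale 11727 10000 h1))))) (pr_cmul (enc_norm (enc_sub (enc_rat _ 43 80) (enc_scale 3611 200 (txg_4.enc h1.l h2.l h3)))) (pr_norm (pr_mul (pr_norm (txg_224_s.snd h1 h2 h3)) (pr_norm (pr_csub (enc_rat _ 6 25) h1)))))) (pr_add (pr_add (pr_add (pr_csub (enc_rat _ 20189507429547069 102215612500000000) (pr_scale 1058041855705449 4088624500000000 h1)) (pr_cmul (enc_norm (txg_4.enc h1.l h2.l h3)) (pr_norm (pr_subr 14323800446699 127769515625000 (pr_scale 40028410129807 40886245000000 h1))))) (pr_cmul (txg_288.enc h1.l h2.l h3) (pr_norm (pr_subr 3608413977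 3041000000 (pr_scale 1202804659 243280000 h1))))) (pr_cmul (enc_norm (enc_add (enc_mul (enc_norm (enc_sub (enc_rat _ 20247 1000) (enc_scale 1093 10 (txg_4.enc h1.l h2.l h3)))) (enc_norm (txg_4.enc h1.l h2.l h3))) (enc_rat _ 1147 1000))) (pr_norm (pr_mul (pr_norm (txg_254_s.snd h1 h2 h3)) (pr_norm (pr_csub (enc_rat _ 767 2689) h1)))))))))) (pr_case (txg_309_s.snd h1 h2 h3) (pr_sub (pr_mul (pr_norm (pr_csub (enc_pnc _ 1) h2)) (pr_norm (pr_subn 1 (pr_nat 2 h2)))) (pr_mul (pr_norm (pr_nat 2 (pr_subc (pr_scale 4 3 (txg_6_s.snd h1 h2 h3)) h3))) (pr_norm (pr_mul (pr_norm (pr_subn 1 (pr_add (pr_scale 2 3 (txg_6_s.snd h1 h2 h3)) h2))) (kcg_s.snd h1 h3))))) (pr_case (txg_311_s.snd h1 h2 h3) (pr_add (pr_add (pr_add (pr_csub (enc_rat _ 243946813446447 734825000000000) (pr_scale 212634891441447 323323000000000 h1)) (pr_cmul (enc_norm (txg_4.enc h1.l h2.l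 h3)) (pr_norm (pr_csub (enc_rat _ 43989582819571 73482500000000) (pr_scale 38966906979571 32332300000000 h1))))) (pr_cmul (txg_288.enc h1.l h2.l h3) (pr_norm (pr_csub (enc_rat _ 7423039049 3400000000) (pr_scale 7423039049 1496000000 h1))))) (pr_cmul (enc_norm (enc_add (enc_mul (enc_norm (enc_sub (enc_rat _ 7293 1000) (enc_scale 4779 50 (txg_4.enc h1.l h2.l h3)))) (enc_norm (txg_4.enc h1.l h2.l h3))) (enc_rat _ 14147 10000))) (pr_norm (pr_mul (pr_norm (txg_309_s.snd h1 h2 h3)) (pr_norm (pr_csub (enc_rat _ 11 25) h1)))))) (pr_add (pr_add (pr_csub (enc_rat _ 71019 200000) (pr_scale 71019 100000 h1)) (pr_cmul (enc_norm (txg_4.enc h1.l h2.l h3)) (pr_norm (pr_csub (enc_rat _ 356 625) (pr_scale 712 625 h1))))) (pr_cmul (enc_norm (enc_subr 697 2000 (enc_neg (enc_scale 741 100 (txg_4.enc h1.l h2.l h3))))) (pr_norm (pr_mul (pr_norm (txg_311_s.snd h1 h2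 h3)) (pr_norm (pr_csub (enc_rat _ 1 2) h1)))))))))⟩
noncomputable def l0q0_s : Sl2 l0q0 := ⟨_, fun h1 h2 => (pr_norm (txg_s.snd (pr_norm (pr_sub (pr_scale 3 4 h1) (pr_half (c1g_s.snd h1)))) (pr_nd (c1g_s.snd h1)) h2))⟩
noncomputable def kc0q0_8_s : Sl2 kc0q0_8 := ⟨_, fun h1 h2 => (pr_sub (pr_scale 3 4 h1) (pr_half (c1g_s.snd h1)))⟩
noncomputable def kc0q0_15_s : Sl2 kc0q0_15 := ⟨_, fun h1 h2 => (pr_scale 2517 1670 (kc0q0_8_s.snd h1 h2))⟩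
noncomputable def kc0q0_s : Sl2 kc0q0 := ⟨_, fun h1 h2 => (pr_norm (pr_case (pr_addc (kc0q0_8_s.snd h1 h2) (enc_rat _ 167 1000)) (pr_case (pr_addc (kc0q0_8_s.snd h1 h2) (enc_rat _ 333 1000)) (pr_add (pr_addc (kc0q0_15_s.snd h1 h2) (enc_rat _ 2517 3340)) (pr_cmul (enc_norm (kc0q0_3.enc h1.l h2)) (pr_norm (pr_subr 36843 334 (pr_neg (pr_scale 36843 167 (kc0q0_8_s.snd h1 h2))))))) (pr_add (pr_addc (pr_scale 1251 830 (kc0q0_8_s.snd h1 h2)) (enc_rat _ 312747 415000)) (pr_cmul (enc_norm (kc0q0_3.enc h1.l h2)) (pr_norm (pr_subr 3053337 166000 (pr_scale 9197 166 (kc0q0_8_s.snd h1 h2))))))) (pr_case (kc0q0_8_s.snd h1 h2) (pr_add (pr_addc (kc0q0_15_s.snd h1 h2) (enc_rat _ 471 625)) (pr_cmul (enc_norm (kc0q0_3.enc h1.l h2)) (pr_norm (pr_subr 9197 500 (pr_scale 9252 167 (kc0q0_8_s.snd h1 h2)))))) (pr_case (pr_subr 167 1000 (kc0q0_8_s.snd h1 h2)) (pr_add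 (pr_addc (pr_scale 1258 835 (kc0q0_8_s.snd h1 h2)) (enc_rat _ 471 625)) (pr_cmul (enc_norm (kc0q0_3.enc h1.l h2)) (pr_norm (pr_subr 9197 500 (pr_scale 9253 167 (kc0q0_8_s.snd h1 h2)))))) (pr_add (pr_addc (pr_scale 4792466009447 3179370000000 (kc0q0_8_s.snd h1 h2)) (enc_rat _ 2395560900422351 3179370000000000)) (pr_cmul (enc_norm (kc0q0_3.enc h1.l h2)) (pr_norm (pr_subr 58477551483555767 3179370000000000 (pr_scale 176137307266801 3179370000000 (kc0q0_8_s.snd h1 h2))))))))))⟩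
noncomputable def kf0q1_10_s : Sl2 kf0q1_10 := ⟨_, fun h1 h2 => (pr_scale 3 2 h1)⟩
noncomputable def kf0q1_s : Sl2 kf0q1 := ⟨_, fun h1 h2 => (pr_norm (pr_add (pr_mul (pr_norm (pr_mul (pr_norm (pr_cadd (enc_pnc _ 1) (pr_nat 2 (c1g_s.snd h1)))) (pr_norm (pr_sub (kf0q1_10_s.snd h1 h2) (c1g_s.snd h1))))) (pr_nd (pr_inv (pr_nat 2 (pr_sub (pr_cadd (enc_pnc _ 1) (kf0q1_10_s.snd h1 h2)) (c1g_s.snd h1)))))) (pr_mul (pr_norm (pr_subn 1 h1)) (kcg_s.snd (pr_norm (pr_sub (pr_scale 3 4 h1) (pr_half (c1g_s.snd h1)))) h2))))⟩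
noncomputable def l0q1_s : Sl2 l0q1 := ⟨_, fun h1 h2 => (pr_norm (txg_s.snd (pr_norm (pr_sub (pr_scale 3 4 h1) (pr_half (c1g_s.snd h1)))) (pr_nd (c1g_s.snd h1)) h2))⟩
noncomputable def gsg_s : Sl1 gsg := ⟨_, fun h1 => (pr_sqrt (pr_csub (enc_pnc _ 1) (pr_scale 3 4 (pr_sq h1))))⟩
noncomputable def gug_s : Sl1 gug := ⟨_, fun h1 => (pr_norm (pr_add (pr_scale 3 4 h1) (pr_scale 3 2 (pr_csub (enc_pnc _ 1) (gsg_s.snd h1)))))⟩
noncomputable def kc0q1_9_s : Sl2 kc0q1_9 := ⟨_, fun h1 h2 => (pr_sub (pr_scale 3 4 h1) (pr_half (c1g_s.snd h1)))⟩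
noncomputable def kc0q1_45_s : Sl2 kc0q1_45 := ⟨_, fun h1 h2 => (pr_scale 2517 1670 (kc0q1_9_s.snd h1 h2))⟩
noncomputable def kc0q1_s : Sl2 kc0q1 := ⟨_, fun h1 h2 => (pr_norm (pr_case (pr_subr 767 2689 (kc0q1_9_s.snd h1 h2)) (pr_case (pr_addc (kc0q1_9_s.snd h1 h2) (enc_rat _ 167 1000)) (pr_case (pr_addc (kc0q1_9_s.snd h1 h2) (enc_rat _ 333 1000)) (pr_add (pr_addc (kc0q1_45_s.snd h1 h2) (enc_rat _ 2517 3340)) (pr_cmul (enc_norm (kc0q1_3.enc h1.l h2)) (pr_norm (pr_subr 36843 334 (pr_neg (pr_scale 36843 167 (kc0q1_9_s.snd h1 h2))))))) (pr_add (pr_addc (pr_scale 1251 830 (kc0q1_9_s.snd h1 h2)) (enc_rat _ 312747 415000)) (pr_cmul (enc_norm (kc0q1_3.enc h1.l h2)) (pr_norm (pr_subr 3053337 166000 (pr_scale 9197 166 (kc0q1_9_s.snd h1 h2))))))) (pr_case (kc0q1_9_s.snd h1 h2) (pr_add (pr_addc (kc0q1_45_s.snd h1 h2) (enc_rat _ 471 625)) (pr_cmul (enc_norm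 (kc0q1_3.enc h1.l h2)) (pr_norm (pr_subr 9197 500 (pr_scale 9252 167 (kc0q1_9_s.snd h1 h2)))))) (pr_case (pr_subr 167 1000 (kc0q1_9_s.snd h1 h2)) (pr_add (pr_addc (pr_scale 1258 835 (kc0q1_9_s.snd h1 h2)) (enc_rat _ 471 625)) (pr_cmul (enc_norm (kc0q1_3.enc h1.l h2)) (pr_norm (pr_subr 9197 500 (pr_scale 9253 167 (kc0q1_9_s.snd h1 h2)))))) (pr_add (pr_addc (pr_scale 4792466009447 3179370000000 (kc0q1_9_s.snd h1 h2)) (enc_rat _ 2395560900422351 3179370000000000)) (pr_cmul (enc_norm (kc0q1_3.enc h1.l h2)) (pr_norm (pr_subr 58477551483555767 3179370000000000 (pr_scale 176137307266801 3179370000000 (kc0q1_9_s.snd h1 h2))))))))) (pr_case (pr_subr 671 1729 (kc0q1_9_s.snd h1 h2)) (pr_sub (pr_add (pr_cadd (enc_rat _ 3 4) (pr_scale 3 2 h1)) (pr_scale 3 4 (pr_mul (pr_norm (pr_mul h1 (pr_nd (pr_inv (c1g_s.snd h1))))) (gug_s.snd h1)))) (pr_mul (kcg_s.snd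 (pr_norm (kc0q1_9_s.snd h1 h2)) h2) (pr_norm (pr_add (gug_s.snd h1) (pr_nat 2 (c1g_s.snd h1)))))) (pr_add (pr_csub (enc_rat _ 985598020589 258000000000) (pr_scale 985598020589 129000000000 (kc0q1_9_s.snd h1 h2))) (pr_cmul (enc_norm (kc0q1_3.enc h1.l h2)) (pr_norm (pr_subr 5763220767941 258000000000 (pr_scale 5763220767941 129000000000 (kc0q1_9_s.snd h1 h2)))))))))⟩
noncomputable def yag_s : Sl1 yag := ⟨_, fun h1 => (pr_sqrt (pr_scale 4 3 (pr_csub (enc_pnc _ 1) (pr_sq h1))))⟩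
noncomputable def kfc02_s : Sl2 kfc02 := ⟨_, fun h1 h2 => (pr_norm (pr_add h1 (pr_mul (pr_norm (pr_subn 1 (yag_s.snd h1))) (kcg_s.snd (pr_nd (pr_neg h1)) h2))))⟩
noncomputable def lc02_7_s : Sl2 lc02_7 := ⟨_, fun h1 h2 => (pr_scale 3 4 (yag_s.snd h1))⟩
noncomputable def lc02_8_s : Sl2 lc02_8 := ⟨_, fun h1 h2 => (pr_half h1)⟩
noncomputable def lc02_s : Sl2 lc02 := ⟨_, fun h1 h2 => (pr_norm (pr_sub (txg_s.snd (pr_nd (pr_neg h1)) (pr_norm (pr_add (lc02_7_s.snd h1 h2) (lc02_8_s.snd h1 h2))) h2) (txg_s.snd h1 (pr_norm (pr_sub (lc02_7_s.snd h1 h2) (lc02_8_s.snd h1 h2))) h2)))⟩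
noncomputable def kcc02_s : Sl2 kcc02 := ⟨_, fun h1 h2 => (pr_const (enc_pnc _ 0))⟩
noncomputable def swg_s : Sl1 swg := ⟨_, fun h1 => (pr_sqrt (pr_csub (enc_pnc _ 1) (pr_scale 3 4 (pr_sq (pr_norm (pr_subn 1 h1))))))⟩
noncomputable def cv1m_s : Sl1 cv1m := ⟨_, fun h1 => (pr_norm (pr_add (pr_scale 3 5 (c1g_s.snd h1)) (pr_scale 2 5 (pr_addc (swg_s.snd h1) (enc_rat _ 1 2)))))⟩
noncomputable def bf1q0_9_s : Sl2 bf1q0_9 := ⟨_, fun h1 h2 => (pr_csub (enc_pnc _ 1) (pr_scale 5682 3125 h1))⟩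
noncomputable def bf1q0_s : Sl2 bf1q0 := ⟨_, fun h1 h2 => (pr_norm (pr_case (pr_subr 1 16 h1) (pr_add (bf1q0_9_s.snd h1 h2) (pr_cmul (enc_norm (bf1q0_3.enc h1.l h2)) (pr_nd (pr_scale 2711 625 h1)))) (pr_add (bf1q0_9_s.snd h1 h2) (pr_cmul (enc_norm (bf1q0_3.enc h1.l h2)) (pr_norm (pr_addc (pr_scale 2248 875 h1) (enc_rat _ 7737 70000)))))))⟩
noncomputable def kf1q0_s : Sl2 kf1q0 := ⟨_, fun h1 h2 => (pr_norm (pr_mul (cv1m_s.snd h1) (bf1q0_s.snd h1 h2)))⟩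
noncomputable def bx1q0_26_s : Sl2 bx1q0_26 := ⟨_, fun h1 h2 => (pr_scale 27 32 h1)⟩
noncomputable def bx1q0_47_s : Sl2 bx1q0_47 := ⟨_, fun h1 h2 => (pr_addc (pr_scale 157 1400 h1) (enc_rat _ 18791 350000))⟩
noncomputable def bx1q0_s : Sl2 bx1q0 := ⟨_, fun h1 h2 => (pr_norm (pr_case (pr_subr 4 25 h1) (pr_case (pr_subr 1 16 h1) (pr_add (pr_scale 129 250 h1) (pr_cmul (enc_norm (bx1q0_3.enc h1.l h2)) (pr_nd (pr_scale 681 625 h1)))) (pr_case (pr_subr 2 25 h1) (pr_add (pr_addc (pr_scale 81 175 h1) (enc_rat _ 93 28000)) (pr_cmul (enc_norm (bx1q0_3.enc h1.l h2)) (pr_norm (pr_addc (pr_scale 38 35 h1) (enc_rat _ 17 70000))))) (pr_add (pr_addc (pr_scale 391 1000 h1) (enc_rat _ 907 100000)) (pr_cmul (enc_norm (bx1q0_3.enc h1.l h2)) (pr_norm (pr_addc (bx1q0_26_s.snd h1 h2) (enc_rat _ 49 2500))))))) (pr_case (pr_subr 11 50 h1) (pr_add (pr_addc (pr_scale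 673 6000 h1) (enc_rat _ 3221 60000)) (pr_cmul (enc_norm (bx1q0_3.enc h1.l h2)) (pr_norm (pr_addc (pr_scale 169 200 h1) (enc_rat _ 97 5000))))) (pr_case (pr_subr 69 250 h1) (pr_add (bx1q0_47_s.snd h1 h2) (pr_cmul (enc_norm (bx1q0_3.enc h1.l h2)) (pr_norm (pr_addc (pr_scale 59 70 h1) (enc_rat _ 1391 70000))))) (pr_add (bx1q0_47_s.snd h1 h2) (pr_cmul (enc_norm (bx1q0_3.enc h1.l h2)) (pr_norm (pr_addc (bx1q0_26_s.snd h1 h2) (enc_rat _ 157 8000)))))))))⟩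
noncomputable def l1q0_s : Sl2 l1q0 := ⟨_, fun h1 h2 => (pr_norm (pr_mul (cv1m_s.snd h1) (bx1q0_s.snd h1 h2)))⟩
noncomputable def bd1q0_s : Sl2 bd1q0 := ⟨_, fun h1 h2 => (pr_norm (pr_case (pr_subr 4 25 h1) (pr_sub (pr_cmul (enc_norm (bd1q0_3.enc h1.l h2)) (pr_nd (pr_scale 431 80 h1))) (pr_scale 9787 1600 h1)) (pr_add (pr_subr 11 170000 (pr_neg (pr_scale 5199 850 h1))) (pr_cmul (enc_norm (bd1q0_3.enc h1.l h2)) (pr_norm (pr_addc (pr_scale 1831 340 h1) (enc_rat _ 3 8500)))))))⟩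
noncomputable def kc1q0_s : Sl2 kc1q0 := ⟨_, fun h1 h2 => (pr_norm (pr_mul (cv1m_s.snd h1) (bd1q0_s.snd h1 h2)))⟩
noncomputable def bf1q1_s : Sl2 bf1q1 := ⟨_, fun h1 h2 => (pr_norm (pr_add (pr_csub (enc_rat _ 2056 3125) (pr_scale 4999 50000 h1)) (pr_cmul (enc_norm (enc_subr 22 25 h2)) (pr_norm (pr_subr 127907 10000 (pr_scale 56899 5000 h1))))))⟩
noncomputable def kf1q1_s : Sl2 kf1q1 := ⟨_, fun h1 h2 => (pr_norm (pr_mul (cv1m_s.snd h1) (bf1q1_s.snd h1 h2)))⟩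
noncomputable def bx1q1_29_s : Sl2 bx1q1_29 := ⟨_, fun h1 h2 => (pr_addc (pr_scale 617 5500 h1) (enc_rat _ 147547 2750000))⟩
noncomputable def bx1q1_s : Sl2 bx1q1 := ⟨_, fun h1 h2 => (pr_norm (pr_case (pr_subr 773 1000 h1) (pr_case (pr_subr 719 1000 h1) (pr_add (pr_addc (pr_scale 614 5475 h1) (enc_rat _ 36742 684375)) (pr_cmul (enc_norm (bx1q1_3.enc h1.l h2)) (pr_norm (pr_addc (pr_scale 1847 2190 h1) (enc_rat _ 8677 438000))))) (pr_add (pr_addc (pr_scale 121 1080 h1) (enc_rat _ 290333 5400000)) (pr_cmul (enc_norm (bx1q1_3.enc h1.l h2)) (pr_norm (pr_addc (pr_scale 38 45 h1) (enc_rat _ 857 45000)))))) (pr_case (pr_subr 207 250 h1) (pr_add (bx1q1_29_s.snd h1 h2) (pr_cmul (enc_norm (bx1q1_3.enc h1.l h2)) (pr_norm (pr_addc (pr_scale 232 275 h1) (enc_rat _ 5409 275000))))) (pr_case (pr_subr 883 1000 h1) (pr_add (bx1q1_29_s.snd h1 h2) (pr_cmul (enc_norm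 (bx1q1_3.enc h1.l h2)) (pr_norm (pr_subr 14373 11000 (pr_scale 269 110 h1))))) (pr_add (pr_addc (pr_scale 184 2925 h1) (enc_rat _ 1136819 11700000)) (pr_cmul (enc_norm (bx1q1_3.enc h1.l h2)) (pr_norm (pr_csub (enc_rat _ 252499 45000) (pr_scale 97 18 h1)))))))))⟩
noncomputable def l1q1_s : Sl2 l1q1 := ⟨_, fun h1 h2 => (pr_norm (pr_mul (cv1m_s.snd h1) (bx1q1_s.snd h1 h2)))⟩
noncomputable def bd1q1_s : Sl2 bd1q1 := ⟨_, fun h1 h2 => (pr_norm (pr_sub (pr_cmul (enc_norm (enc_subr 22 25 h2)) (pr_nd (pr_scale 2693 500 h1))) (pr_scale 30583 5000 h1)))⟩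
noncomputable def kc1q1_s : Sl2 kc1q1 := ⟨_, fun h1 h2 => (pr_norm (pr_mul (cv1m_s.snd h1) (bd1q1_s.snd h1 h2)))⟩
noncomputable def cv1p_s : Sl1 cv1p := ⟨_, fun h1 => (pr_norm (pr_add (pr_scale 3 5 (c1g_s.snd h1)) (pr_scale 2 5 (pr_subr 1 2 (swg_s.snd h1)))))⟩
noncomputable def bf1q2_9_s : Sl2 bf1q2_9 := ⟨_, fun h1 h2 => (pr_csub (enc_rat _ 7773 2000) (pr_scale 5773 2000 h1))⟩
noncomputable def bf1q2_15_s : Sl2 bf1q2_15 := ⟨_, fun h1 h2 => (pr_add (bf1q2_9_s.snd h1 h2) (pr_cmul (enc_norm (bf1q2_3.enc h1.l h2)) (pr_norm (pr_csub (enc_rat _ 99351 10000) (pr_scale 99351 10000 h1)))))⟩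
noncomputable def bf1q2_s : Sl2 bf1q2 := ⟨_, fun h1 h2 => (pr_norm (pr_case (pr_subr 577 500 h1) (bf1q2_15_s.snd h1 h2) (pr_case (pr_subr 231 200 h1) (bf1q2_15_s.snd h1 h2) (pr_add (bf1q2_9_s.snd h1 h2) (pr_cmul (enc_norm (bf1q2_3.enc h1.l h2)) (pr_norm (pr_csub (enc_rat _ 4570223 460000) (pr_scale 6855319 690000 h1))))))))⟩
noncomputable def kf1q2_s : Sl2 kf1q2 := ⟨_, fun h1 h2 => (pr_norm (pr_mul (cv1p_s.snd h1) (bf1q2_s.snd h1 h2)))⟩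
noncomputable def bx1q2_s : Sl2 bx1q2 := ⟨_, fun h1 h2 => (pr_norm (pr_case (pr_subr 277 250 h1) (pr_case (pr_subr 17 16 h1) (pr_add (pr_csub (enc_rat _ 4209 6250) (pr_scale 4209 6250 h1)) (pr_cmul (enc_norm (bx1q2_3.enc h1.l h2)) (pr_norm (pr_csub (enc_rat _ 2181 625) (pr_scale 2181 625 h1))))) (pr_add (pr_csub (enc_rat _ 126739 87500) (pr_scale 491 350 h1)) (pr_cmul (enc_norm (bx1q2_3.enc h1.l h2)) (pr_norm (pr_csub (enc_rat _ 6043077 455000) (pr_scale 5781 455 h1)))))) (pr_case (pr_subr 577 500 h1) (pr_add (pr_csub (enc_rat _ 1509409 575000) (pr_scale 5669 2300 h1)) (pr_cmul (enc_norm (bx1q2_3.enc h1.l h2)) (pr_norm (pr_csub (enc_rat _ 1528333 115000) (pr_scale 1462 115 h1))))) (pr_casec1 (pr_subr 231 200 h1) (enc_sub (enc_neg (enc_rat _ 2193 10000)) (enc_scale 1381 1000 (bx1q2_3.enc h1.l h2))) (pr_add (pr_subr 187589 92000 (pr_scale 10871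 6900 h1)) (pr_cmul (enc_norm (bx1q2_3.enc h1.l h2)) (pr_norm (pr_subr 5539 1000 (pr_scale 18 5 h1)))))))))⟩
noncomputable def l1q2_s : Sl2 l1q2 := ⟨_, fun h1 h2 => (pr_norm (pr_mul (cv1p_s.snd h1) (bx1q2_s.snd h1 h2)))⟩
noncomputable def bd1q2_s : Sl2 bd1q2 := ⟨_, fun h1 h2 => (pr_norm (pr_casec1 (pr_subr 577 500 h1) (enc_pnc _ 0) (pr_casec1 (pr_subr 231 200 h1) (enc_pnc _ 0) (pr_add (pr_subr 481173 46000 (pr_scale 2083 230 h1)) (pr_cmul (enc_norm (enc_subr 22 25 h2)) (pr_norm (pr_subr 310233 2875 (pr_scale 10744 115 h1))))))))⟩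
noncomputable def kc1q2_s : Sl2 kc1q2 := ⟨_, fun h1 h2 => (pr_norm (pr_mul (cv1p_s.snd h1) (bd1q2_s.snd h1 h2)))⟩
noncomputable def cv1r_s : Sl1 cv1r := ⟨_, fun h1 => (pr_norm (pr_scale 2 5 (pr_subr 1 2 (swg_s.snd h1))))⟩
noncomputable def c3g_s : Sl1 c3g := ⟨_, fun h1 => (pr_sqrtg (pr_csub (enc_pnc _ 3) (pr_scale 3 4 (pr_sq h1))))⟩
noncomputable def kf1q3_s : Sl2 kf1q3 := ⟨_, fun h1 h2 => (pr_norm (pr_mulz (fun ht => cv1r_two (enc_two h1.r ht)) (cv1r_s.snd h1) (pr_norm (pr_case (pr_subr 46 25 h1) (pr_add (pr_subr 13798471 1700000 (pr_scale 143987 34000 h1)) (pr_cmul (enc_norm (kf1q3_4.enc h1.l h2)) (pr_norm (pr_csub (enc_rat _ 445803 4250) (pr_scale 215631 3400 h1))))) (pr_case (pr_subr 48 25 h1) (pr_add (pr_subr 202917 25000 (pr_scale 33879 8000 h1)) (pr_cmul (enc_norm (kf1q3_4.enc h1.l h2)) (pr_norm (pr_csub (enc_rat _ 262233 2500) (pr_scale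 3171 50 h1))))) (pr_add (pr_subr 16623 25000 (pr_scale 339600000 242487113 (c3g_s.snd h1))) (pr_cmul (enc_norm (kf1q3_4.enc h1.l h2)) (pr_norm (pr_csub (enc_rat _ 19661 10000) (pr_scale 9419650000 242487113 (c3g_s.snd h1)))))))))))⟩
noncomputable def l1q3_s : Sl2 l1q3 := ⟨_, fun h1 h2 => (pr_norm (pr_mulz (fun ht => cv1r_two (enc_two h1.r ht)) (cv1r_s.snd h1) (pr_norm (pr_case (pr_subr 48 25 h1) (pr_case (pr_subr 46 25 h1) (pr_add (pr_subr 138679 68000 (pr_scale 6697 4250 h1)) (pr_cmul (enc_norm (l1q3_4.enc h1.l h2)) (pr_norm (pr_subr 188281 34000 (pr_scale 12237 3400 h1))))) (pr_add (pr_subr 203937 100000 (pr_scale 6303 4000 h1)) (pr_cmul (enc_norm (l1q3_4.enc h1.l h2)) (pr_norm (pr_subr 55393 10000 (pr_scale 18 5 h1)))))) (pr_case (pr_csub (enc_rat _ 429616471 1000000000) (c3g_s.snd h1)) (pr_add (pr_csub (enc_rat _ 5530438332733 5535775500000)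 (pr_scale 296000 11071551 (c3g_s.snd h1))) (pr_cmul (enc_norm (l1q3_4.enc h1.l h2)) (pr_norm (pr_subr 49285123213 110715510000 (pr_scale 41500000 11071551 (c3g_s.snd h1)))))) (pr_add (pr_csub (enc_rat _ 99907 100000) (pr_scale 11520000 429616471 (c3g_s.snd h1))) (pr_cmul (enc_norm (l1q3_4.enc h1.l h2)) (pr_norm (pr_subr 2223 5000 (pr_scale 1609800000 429616471 (c3g_s.snd h1)))))))))))⟩
noncomputable def kc1q3_s : Sl2 kc1q3 := ⟨_, fun h1 h2 => (pr_norm (pr_mulz (fun ht => cv1r_two (enc_two h1.r ht)) (cv1r_s.snd h1) (pr_norm (pr_case (pr_subr 48 25 h1) (pr_add (pr_subr 73221 7000 (pr_scale 12679 1400 h1)) (pr_cmul (enc_norm (kc1q3_4.enc h1.l h2)) (pr_norm (pr_subr 377663 3500 (pr_scale 19619 210 h1))))) (pr_add (pr_subr 267 10000 (pr_scale 3477450000 242487113 (c3g_s.snd h1))) (pr_cmul (enc_norm (kc1q3_4.enc h1.l h2)) (pr_norm (pr_subr 11 40 (pr_scale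 35872500000 242487113 (c3g_s.snd h1))))))))))⟩
noncomputable def cv2m_s : Sl1 cv2m := ⟨_, fun h1 => (pr_norm (pr_add (pr_scale 87 100 (pr_addc (swg_s.snd h1) (enc_rat _ 1 2))) (pr_scale 13 100 (c3g_s.snd h1))))⟩
noncomputable def esg_s : Sl1 esg := ⟨_, fun h1 => (pr_norm (pr_subn 1 (pr_add (pr_half h1) (gsg_s.snd h1))))⟩
noncomputable def kf2q0_44_s : Sl2 kf2q0_44 := ⟨_, fun h1 h2 => (pr_csub (enc_pnc _ 1) h1)⟩
noncomputable def kf2q0_45_s : Sl2 kf2q0_45 := ⟨_, fun h1 h2 => (gsg_s.snd (pr_norm (kf2q0_44_s.snd h1 h2)))⟩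
noncomputable def kf2q0_48_s : Sl2 kf2q0_48 := ⟨_, fun h1 h2 => (pr_sub (pr_scale 3 4 (kf2q0_44_s.snd h1 h2)) (pr_half (kf2q0_45_s.snd h1 h2)))⟩
noncomputable def kf2q0_66_s : Sl2 kf2q0_66 := ⟨_, fun h1 h2 => (pr_mul (cv1m_s.snd h1) (bf1q0_s.snd h1 h2))⟩
noncomputable def kf2q0_s : Sl2 kf2q0 := ⟨_, fun h1 h2 => (pr_norm (pr_case (pr_subr 2 25 h1) (pr_mul (cv2m_s.snd h1) (pr_norm (pr_case (pr_subr 1 16 h1) (pr_add (pr_csub (enc_rat _ 2743 3125) (pr_scale 24279 6250 h1)) (pr_cmul (enc_norm (kf2q0_4.enc h1.l h2)) (pr_norm (pr_subr 5269 10000 (pr_neg (pr_scale 1036 625 h1)))))) (pr_add (pr_csub (enc_rat _ 1228891523 1400000000) (pr_scale 339933523 87500000 h1)) (pr_cmul (enc_norm (kf2q0_4.enc h1.l h2)) (pr_norm (pr_subr 36886413 70000000 (pr_neg (pr_scale 7248587 4375000 h1))))))))) (pr_case (pr_subr 4 25 h1) (pr_add (kf2q0_66_s.snd h1 h2) (pr_mul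 (pr_norm (pr_mul (pr_norm (pr_sub (pr_mul h1 (pr_norm (pr_sub (pr_mul (pr_norm (pr_sub (kf2q0_48_s.snd h1 h2) (pr_csub (enc_rat _ 1 4) (pr_scale 3 8 (pr_mul (pr_norm (kf2q0_44_s.snd h1 h2)) (pr_nd (pr_inv (kf2q0_45_s.snd h1 h2)))))))) (pr_nd (pr_inv (esg_s.snd (pr_norm (kf2q0_44_s.snd h1 h2)))))) (kcg_s.snd (pr_norm (kf2q0_48_s.snd h1 h2)) h2)))) (kf2q0_66_s.snd h1 h2))) (pr_norm (pr_sub (cv2m_s.snd h1) (cv1m_s.snd h1))))) (pr_nd (pr_inv (pr_sub (pr_addc (swg_s.snd h1) (enc_rat _ 1 2)) (cv1m_s.snd h1)))))) (pr_mul (cv2m_s.snd h1) (pr_norm (pr_add (pr_csub (enc_rat _ 831108719 850000000) (pr_scale 1432432719 425000000 h1)) (pr_cmul (enc_norm (kf2q0_4.enc h1.l h2)) (pr_norm (pr_csub (enc_rat _ 57561341 170000000) (pr_scale 434621341 85000000 h1))))))))))⟩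
noncomputable def qsg_s : Sl1 qsg := ⟨_, fun h1 => (pr_norm (pr_mul (pr_norm (pr_csub (enc_pnc _ 1) (gsg_s.snd h1))) (pr_norm (pr_subn 1 (pr_nat 2 (gsg_s.snd h1))))))⟩
noncomputable def l2q0_66_s : Sl2 l2q0_66 := ⟨_, fun h1 h2 => (pr_csub (enc_pnc _ 1) h1)⟩
noncomputable def l2q0_81_s : Sl2 l2q0_81 := ⟨_, fun h1 h2 => (pr_mul (cv1m_s.snd h1) (bx1q0_s.snd h1 h2))⟩
noncomputable def l2q0_s : Sl2 l2q0 := ⟨_, fun h1 h2 => (pr_norm (pr_case (pr_subr 2 25 h1) (pr_mul (cv2m_s.snd h1) (pr_norm (pr_case (pr_subr 1 16 h1) (pr_add (pr_addc (pr_scale 1639 3125 h1) (enc_rat _ 157 2500)) (pr_cmul (enc_norm (l2q0_4.enc h1.l h2)) (pr_norm (pr_subr 573 10000 (pr_scale 2421 625 h1))))) (pr_add (pr_add (pr_addc (pr_scale 67209721 175000000 h1) (enc_rat _ 200414279 2800000000)) (pr_cmul (enc_norm (l2q0_4.enc h1.l h2)) (pr_norm (pr_csub (enc_rat _ 5157249 17500000)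 (pr_scale 1923249 1093750 h1))))) (pr_cmul (l2q0_29.enc h1.l h2) (pr_norm (pr_subr 493459 280000 (pr_scale 493459 17500 h1)))))))) (pr_case (pr_subr 4 25 h1) (pr_add (l2q0_81_s.snd h1 h2) (pr_mul (pr_norm (pr_mul (pr_norm (pr_sub (pr_sub (qsg_s.snd (pr_norm (l2q0_66_s.snd h1 h2))) (pr_mul (pr_norm (pr_nat 2 (pr_subc (l2q0_66_s.snd h1 h2) h2))) (pr_norm (pr_mul (esg_s.snd (pr_norm (l2q0_66_s.snd h1 h2))) (kcg_s.snd (pr_norm (pr_sub (pr_scale 3 4 (l2q0_66_s.snd h1 h2)) (pr_half (gsg_s.snd (pr_norm (l2q0_66_s.snd h1 h2)))))) h2))))) (l2q0_81_s.snd h1 h2))) (pr_norm (pr_sub (cv2m_s.snd h1) (cv1m_s.snd h1))))) (pr_nd (pr_inv (pr_sub (pr_addc (swg_s.snd h1) (enc_rat _ 1 2)) (cv1m_s.snd h1)))))) (pr_mul (cv2m_s.snd h1) (pr_norm (pr_case (pr_subr 11 50 h1) (pr_add (pr_add (pr_csub (enc_rat _ 4293661537 30000000000) (pr_scale 85832867 600000000 h1))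 (pr_cmul (enc_norm (l2q0_4.enc h1.l h2)) (pr_norm (pr_csub (enc_rat _ 82288203 125000000) (pr_scale 8190973 2500000 h1))))) (pr_cmul (l2q0_29.enc h1.l h2) (pr_norm (pr_csub (enc_rat _ 3126761 3000000) (pr_scale 284251 60000 h1))))) (pr_add (pr_csub (enc_rat _ 100199 700000) (pr_scale 501 3500 h1)) (pr_cmul (enc_norm (l2q0_4.enc h1.l h2)) (pr_norm (pr_subr 801 10000 (pr_scale 2 25 h1)))))))))))⟩
noncomputable def kc2q0_29_s : Sl2 kc2q0_29 := ⟨_, fun h1 h2 => (pr_csub (enc_pnc _ 1) h1)⟩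
noncomputable def kc2q0_30_s : Sl2 kc2q0_30 := ⟨_, fun h1 h2 => (gsg_s.snd (pr_norm (kc2q0_29_s.snd h1 h2)))⟩
noncomputable def kc2q0_34_s : Sl2 kc2q0_34 := ⟨_, fun h1 h2 => (esg_s.snd (pr_norm (kc2q0_29_s.snd h1 h2)))⟩
noncomputable def kc2q0_38_s : Sl2 kc2q0_38 := ⟨_, fun h1 h2 => (gug_s.snd (pr_norm (kc2q0_29_s.snd h1 h2)))⟩
noncomputable def kc2q0_40_s : Sl2 kc2q0_40 := ⟨_, fun h1 h2 => (pr_mul (pr_norm (kc2q0_29_s.snd h1 h2)) (pr_nd (pr_inv (kc2q0_30_s.snd h1 h2))))⟩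
noncomputable def kc2q0_41_s : Sl2 kc2q0_41 := ⟨_, fun h1 h2 => (pr_scale 3 4 (kc2q0_40_s.snd h1 h2))⟩
noncomputable def kc2q0_70_s : Sl2 kc2q0_70 := ⟨_, fun h1 h2 => (pr_mul (cv1m_s.snd h1) (bd1q0_s.snd h1 h2))⟩
noncomputable def kc2q0_s : Sl2 kc2q0 := ⟨_, fun h1 h2 => (pr_norm (pr_case (pr_subr 2 25 h1) (pr_mul (cv2m_s.snd h1) (pr_norm (pr_add (pr_csub (enc_rat _ 11 250) (pr_scale 3474757587 200000000 h1)) (pr_cmul (enc_norm (kc2q0_4.enc h1.l h2)) (pr_norm (pr_subr 17357 1000 (pr_scale 15136221361 40000000 h1))))))) (pr_case (pr_subr 4 25 h1) (pr_add (kc2q0_70_s.snd h1 h2) (pr_mul (pr_norm (pr_mul (pr_norm (pr_sub (pr_add (pr_sub (pr_neg (pr_add (pr_cadd (enc_rat _ 3 4) (pr_scale 3 2 (kc2q0_29_s.snd h1 h2))) (pr_scale 3 4 (pr_mul (pr_norm (kc2q0_40_s.snd h1 h2)) (kc2q0_38_s.snd h1 h2))))) (pr_mul (pr_norm (pr_sub (pr_mul (pr_norm (pr_mul (pr_norm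 (kc2q0_41_s.snd h1 h2)) (pr_norm (pr_subn 3 (pr_nat 4 (kc2q0_30_s.snd h1 h2)))))) (kc2q0_34_s.snd h1 h2)) (pr_mul (qsg_s.snd (pr_norm (kc2q0_29_s.snd h1 h2))) (pr_norm (pr_csub (enc_rat _ 1 2) (kc2q0_41_s.snd h1 h2)))))) (pr_nd (pr_inv (pr_mul (pr_nd (pr_nat 2 (kc2q0_34_s.snd h1 h2))) (kc2q0_34_s.snd h1 h2)))))) (pr_mul (kcg_s.snd (pr_norm (pr_sub (pr_scale 3 4 (kc2q0_29_s.snd h1 h2)) (pr_half (kc2q0_30_s.snd h1 h2)))) h2) (pr_norm (pr_cadd (enc_pnc _ 1) (pr_add (kc2q0_38_s.snd h1 h2) (pr_nat 2 (kc2q0_30_s.snd h1 h2))))))) (kc2q0_70_s.snd h1 h2))) (pr_norm (pr_sub (cv2m_s.snd h1) (cv1m_s.snd h1))))) (pr_nd (pr_inv (pr_sub (pr_addc (swg_s.snd h1) (enc_rat _ 1 2)) (cv1m_s.snd h1)))))) (pr_mul (cv2m_s.snd h1) (pr_norm (pr_add (pr_subr 2839433249 1700000000 (pr_scale 1419763249 850000000 h1)) (pr_cmul (enc_norm (kc2q0_4.enc h1.l h2)) (pr_norm (pr_csub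 (enc_rat _ 3409536477 680000000) (pr_scale 1704776477 340000000 h1))))))))))⟩
noncomputable def bf2q1_s : Sl2 bf2q1 := ⟨_, fun h1 h2 => (pr_norm (pr_add (pr_subr 9409 50000 (pr_scale 59409 50000 h1)) (pr_cmul (enc_norm (enc_subr 22 25 h2)) (pr_norm (pr_csub (enc_rat _ 30327 5000) (pr_scale 30327 5000 h1))))))⟩
noncomputable def kf2q1_s : Sl2 kf2q1 := ⟨_, fun h1 h2 => (pr_norm (pr_mul (cv2m_s.snd h1) (bf2q1_s.snd h1 h2)))⟩
noncomputable def bx2q1_s : Sl2 bx2q1 := ⟨_, fun h1 h2 => (pr_norm (pr_add (pr_csub (enc_rat _ 7157 50000) (pr_scale 7157 50000 h1)) (pr_cmul (enc_norm (enc_subr 22 25 h2)) (pr_norm (pr_subr 401 5000 (pr_scale 401 5000 h1))))))⟩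
noncomputable def l2q1_s : Sl2 l2q1 := ⟨_, fun h1 h2 => (pr_norm (pr_mul (cv2m_s.snd h1) (bx2q1_s.snd h1 h2)))⟩
noncomputable def bd2q1_s : Sl2 bd2q1 := ⟨_, fun h1 h2 => (pr_norm (pr_add (pr_subr 8351 5000 (pr_scale 8351 5000 h1)) (pr_cmul (enc_norm (enc_subr 22 25 h2)) (pr_norm (pr_csub (enc_rat _ 2507 500) (pr_scale 2507 500 h1))))))⟩
noncomputable def kc2q1_s : Sl2 kc2q1 := ⟨_, fun h1 h2 => (pr_norm (pr_mul (cv2m_s.snd h1) (bd2q1_s.snd h1 h2)))⟩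
noncomputable def cv2p_s : Sl1 cv2p := ⟨_, fun h1 => (pr_norm (pr_add (pr_scale 87 100 (pr_subr 1 2 (swg_s.snd h1))) (pr_scale 13 100 (c3g_s.snd h1))))⟩
noncomputable def bf2q2_s : Sl2 bf2q2 := ⟨_, fun h1 h2 => (pr_norm (pr_add (pr_csub (enc_rat _ 425527 100000) (pr_scale 78903 25000 h1)) (pr_cmul (enc_norm (enc_subr 22 25 h2)) (pr_norm (pr_csub (enc_rat _ 142923 5000) (pr_scale 145273 5000 h1))))))⟩
noncomputable def kf2q2_s : Sl2 kf2q2 := ⟨_, fun h1 h2 => (pr_norm (pr_mul (cv2p_s.snd h1) (bf2q2_s.snd h1 h2)))⟩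
noncomputable def bx2q2_37_s : Sl2 bx2q2_37 := ⟨_, fun h1 h2 => (pr_scale 499 580 h1)⟩
noncomputable def bx2q2_47_s : Sl2 bx2q2_47 := ⟨_, fun h1 h2 => (pr_scale 82 95 h1)⟩
noncomputable def bx2q2_s : Sl2 bx2q2 := ⟨_, fun h1 h2 => (pr_norm (pr_case (pr_subr 127 100 h1) (pr_case (pr_subr 231 200 h1) (pr_case (pr_subr 277 250 h1) (pr_add (pr_csub (enc_rat _ 977143 2700000) (pr_scale 661 2700 h1)) (pr_cmul (enc_norm (bx2q2_3.enc h1.l h2)) (pr_norm (pr_csub (enc_rat _ 17087 1350) (pr_scale 3223 270 h1))))) (pr_add (pr_csub (enc_rat _ 1701363 4700000) (pr_scale 1151 4700 h1)) (pr_cmul (enc_norm (bx2q2_3.enc h1.l h2)) (pr_norm (pr_subr 89533 58750 (pr_scale 81 94 h1)))))) (pr_case (pr_subr 1213 1000 h1) (pr_add (pr_subr 172773 5800000 (pr_scale 547 5800 h1)) (pr_cmul (enc_norm (bx2q2_3.enc h1.l h2)) (pr_norm (pr_subr 882991 580000 (bx2q2_37_s.snd h1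 h2))))) (pr_add (pr_subr 225439 1425000 (pr_scale 1141 5700 h1)) (pr_cmul (enc_norm (bx2q2_3.enc h1.l h2)) (pr_norm (pr_subr 18119 11875 (bx2q2_47_s.snd h1 h2))))))) (pr_case (pr_subr 277 200 h1) (pr_case (pr_subr 166 125 h1) (pr_add (pr_subr 30311 90625 (pr_scale 983 2900 h1)) (pr_cmul (enc_norm (bx2q2_3.enc h1.l h2)) (pr_norm (pr_subr 441449 290000 (bx2q2_37_s.snd h1 h2))))) (pr_add (pr_subr 201481 356250 (pr_scale 731 1425 h1)) (pr_cmul (enc_norm (bx2q2_3.enc h1.l h2)) (pr_norm (pr_subr 57987 38000 (bx2q2_47_s.snd h1 h2)))))) (pr_case (pr_subr 1443 1000 h1) (pr_add (pr_subr 2738917 2900000 (pr_scale 2281 2900 h1)) (pr_cmul (enc_norm (bx2q2_3.enc h1.l h2)) (pr_norm (pr_subr 176561 116000 (bx2q2_37_s.snd h1 h2))))) (pr_add (pr_subr 2658173 1900000 (pr_scale 2093 1900 h1)) (pr_cmul (enc_norm (bx2q2_3.enc h1.l h2)) (pr_norm (pr_subr 57897 38000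 (pr_scale 491 570 h1)))))))))⟩
noncomputable def l2q2_s : Sl2 l2q2 := ⟨_, fun h1 h2 => (pr_norm (pr_mul (cv2p_s.snd h1) (bx2q2_s.snd h1 h2)))⟩
noncomputable def bd2q2_s : Sl2 bd2q2 := ⟨_, fun h1 h2 => (pr_norm (pr_add (pr_subr 68237 10000 (pr_scale 30339 5000 h1)) (pr_cmul (enc_norm (enc_subr 22 25 h2)) (pr_norm (pr_subr 8151 500 (pr_neg (pr_scale 297 125 h1)))))))⟩
noncomputable def kc2q2_s : Sl2 kc2q2 := ⟨_, fun h1 h2 => (pr_norm (pr_mul (cv2p_s.snd h1) (bd2q2_s.snd h1 h2)))⟩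
noncomputable def ycg_s : Sl1 ycg := ⟨_, fun h1 => (pr_sqrtg (pr_scale 4 3 (pr_csub (enc_pnc _ 3) (pr_sq h1))))⟩
noncomputable def xc23_s : Sl1 xc23 := ⟨_, fun h1 => (pr_norm (pr_add (pr_scale 87 100 (pr_subr 1 2 (swg_s.snd (pr_nd (ycg_s.snd h1))))) (pr_scale 13 100 h1)))⟩
noncomputable def kfc23_6_s : Sl2 kfc23_6 := ⟨_, fun h1 h2 => (pr_subr 1 2 (swg_s.snd (pr_nd (ycg_s.snd h1))))⟩
noncomputable def kfc23_9_s : Sl2 kfc23_9 := ⟨_, fun h1 h2 => (pr_add (pr_scale 87 100 (kfc23_6_s.snd h1 h2)) (pr_scale 13 100 h1))⟩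
noncomputable def kfc23_45_s : Sl2 kfc23_45 := ⟨_, fun h1 h2 => (pr_subn 1 (ycg_s.snd h1))⟩
noncomputable def kfc23_46_s : Sl2 kfc23_46 := ⟨_, fun h1 h2 => (gsg_s.snd (pr_norm (kfc23_45_s.snd h1 h2)))⟩
noncomputable def kfc23_47_s : Sl2 kfc23_47 := ⟨_, fun h1 h2 => (pr_scale 3 4 (kfc23_45_s.snd h1 h2))⟩
noncomputable def kfc23_48_s : Sl2 kfc23_48 := ⟨_, fun h1 h2 => (pr_half (kfc23_46_s.snd h1 h2))⟩
noncomputable def kfc23_65_s : Sl2 kfc23_65 := ⟨_, fun h1 h2 => (cv1r_s.snd (pr_nd (ycg_s.snd h1)))⟩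
noncomputable def kfc23_67_s : Sl2 kfc23_67 := ⟨_, fun h1 h2 => (pr_subr 46 25 (ycg_s.snd h1))⟩
noncomputable def kfc23_79_s : Sl2 kfc23_79 := ⟨_, fun h1 h2 => (pr_subr 48 25 (ycg_s.snd h1))⟩
noncomputable def kfc23_102_s : Sl2 kfc23_102 := ⟨_, fun h1 h2 => (pr_mul (kfc23_65_s.snd h1 h2) (pr_norm (pr_case (kfc23_67_s.snd h1 h2) (pr_add (pr_subr 13798471 1700000 (pr_scale 143987 34000 (ycg_s.snd h1))) (pr_cmul (enc_norm (kfc23_11.enc h1.l h2)) (pr_norm (pr_csub (enc_rat _ 445803 4250) (pr_scale 215631 3400 (ycg_s.snd h1)))))) (pr_case (kfc23_79_s.snd h1 h2) (pr_add (pr_subr 202917 25000 (pr_scale 33879 8000 (ycg_s.snd h1))) (pr_cmul (enc_norm (kfc23_11.enc h1.l h2)) (pr_norm (pr_csub (enc_rat _ 262233 2500) (pr_scale 3171 50 (ycg_s.snd h1)))))) (pr_add (pr_subr 16623 25000 (pr_scale 339600000 242487113 h1)) (pr_cmul (enc_norm (kfc23_11.enc h1.l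 h2)) (pr_norm (pr_csub (enc_rat _ 19661 10000) (pr_scale 9419650000 242487113 h1)))))))))⟩
noncomputable def kfc23_s : Sl2 kfc23 := ⟨_, fun h1 h2 => (pr_norm (pr_case (kfc23_67_s.snd h1 h2) (pr_mul (pr_norm (kfc23_9_s.snd h1 h2)) (pr_norm (pr_add (pr_subr 260752417 400000000 (pr_scale 75524139 200000000 (ycg_s.snd h1))) (pr_cmul (enc_norm (kfc23_11.enc h1.l h2)) (pr_norm (pr_subr 16445686093 340000000 (pr_scale 4557118031 170000000 (ycg_s.snd h1)))))))) (pr_case (kfc23_79_s.snd h1 h2) (pr_add (kfc23_102_s.snd h1 h2) (pr_mul (pr_norm (pr_mul (pr_norm (pr_sub (pr_mul (pr_norm (pr_subn 2 (ycg_s.snd h1))) (pr_norm (pr_add (pr_mul (pr_norm (pr_sub (pr_sub (kfc23_48_s.snd h1 h2) (kfc23_47_s.snd h1 h2)) (pr_csub (enc_rat _ 1 4) (pr_scale 3 8 (pr_mul (pr_norm (kfc23_45_s.snd h1 h2)) (pr_nd (pr_inv (kfc23_46_s.snd h1 h2)))))))) (pr_nd (pr_inv (esg_s.snd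 (pr_norm (kfc23_45_s.snd h1 h2)))))) (kcg_s.snd (pr_norm (pr_sub (kfc23_47_s.snd h1 h2) (kfc23_48_s.snd h1 h2))) h2)))) (kfc23_102_s.snd h1 h2))) (pr_norm (pr_sub (kfc23_9_s.snd h1 h2) (kfc23_65_s.snd h1 h2))))) (pr_nd (pr_inv (pr_sub (kfc23_6_s.snd h1 h2) (kfc23_65_s.snd h1 h2)))))) (pr_mul (pr_norm (kfc23_9_s.snd h1 h2)) (pr_norm (pr_case (pr_csub (enc_rat _ 429616471 1000000000) h1) (pr_add (pr_subr 1201566083845830193 553577550000000000 (pr_scale 2411896183 553577550 h1)) (pr_cmul (enc_norm (kfc23_11.enc h1.l h2)) (pr_norm (pr_subr 339689009305713263 55357755000000000 (pr_scale 900669353 55357755 h1))))) (pr_add (pr_csub (enc_rat _ 1 2) (pr_scale 798740000 429616471 h1)) (pr_cmul (enc_norm (kfc23_11.enc h1.l h2)) (pr_nd (pr_scale 853600000 429616471 h1))))))))))⟩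
noncomputable def lc23_6_s : Sl2 lc23_6 := ⟨_, fun h1 h2 => (pr_subr 1 2 (swg_s.snd (pr_nd (ycg_s.snd h1))))⟩
noncomputable def lc23_9_s : Sl2 lc23_9 := ⟨_, fun h1 h2 => (pr_add (pr_scale 87 100 (lc23_6_s.snd h1 h2)) (pr_scale 13 100 h1))⟩
noncomputable def lc23_44_s : Sl2 lc23_44 := ⟨_, fun h1 h2 => (pr_csub (enc_rat _ 429616471 1000000000) h1)⟩
noncomputable def lc23_72_s : Sl2 lc23_72 := ⟨_, fun h1 h2 => (pr_subn 1 (ycg_s.snd h1))⟩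
noncomputable def lc23_85_s : Sl2 lc23_85 := ⟨_, fun h1 h2 => (cv1r_s.snd (pr_nd (ycg_s.snd h1)))⟩
noncomputable def lc23_87_s : Sl2 lc23_87 := ⟨_, fun h1 h2 => (pr_subr 48 25 (ycg_s.snd h1))⟩
noncomputable def lc23_89_s : Sl2 lc23_89 := ⟨_, fun h1 h2 => (pr_subr 46 25 (ycg_s.snd h1))⟩
noncomputable def lc23_133_s : Sl2 lc23_133 := ⟨_, fun h1 h2 => (pr_mul (lc23_85_s.snd h1 h2) (pr_norm (pr_case (lc23_87_s.snd h1 h2) (pr_case (lc23_89_s.snd h1 h2) (pr_add (pr_subr 138679 68000 (pr_scale 6697 4250 (ycg_s.snd h1))) (pr_cmul (enc_norm (lc23_11.enc h1.l h2)) (pr_norm (pr_subr 188281 34000 (pr_scale 12237 3400 (ycg_s.snd h1)))))) (pr_add (pr_subr 203937 100000 (pr_scale 6303 4000 (ycg_s.snd h1))) (pr_cmul (enc_norm (lc23_11.enc h1.l h2)) (pr_norm (pr_subr 55393 10000 (pr_scale 18 5 (ycg_s.snd h1))))))) (pr_case (lc23_44_s.snd h1 h2) (pr_add (pr_csub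 (enc_rat _ 5530438332733 5535775500000) (pr_scale 296000 11071551 h1)) (pr_cmul (enc_norm (lc23_11.enc h1.l h2)) (pr_norm (pr_subr 49285123213 110715510000 (pr_scale 41500000 11071551 h1))))) (pr_add (pr_csub (enc_rat _ 99907 100000) (pr_scale 11520000 429616471 h1)) (pr_cmul (enc_norm (lc23_11.enc h1.l h2)) (pr_norm (pr_subr 2223 5000 (pr_scale 1609800000 429616471 h1)))))))))⟩
noncomputable def lc23_s : Sl2 lc23 := ⟨_, fun h1 h2 => (pr_norm (pr_case (lc23_89_s.snd h1 h2) (pr_mul (pr_norm (lc23_9_s.snd h1 h2)) (pr_norm (pr_case (pr_subr 1783 1000 (ycg_s.snd h1)) (pr_add (pr_subr 39594761 28300000 (pr_scale 7794 7075 (ycg_s.snd h1))) (pr_cmul (enc_norm (lc23_11.enc h1.l h2)) (pr_norm (pr_subr 387229 566000 (pr_scale 427 1415 (ycg_s.snd h1)))))) (pr_add (pr_add (pr_subr 797444911721 570000000000 (pr_scale 627900287 570000000 (ycg_s.snd h1)))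 (pr_cmul (enc_norm (lc23_11.enc h1.l h2)) (pr_norm (pr_subr 604703275793 19000000000 (pr_scale 337592471 19000000 (ycg_s.snd h1)))))) (pr_cmul (lc23_38.enc h1.l h2) (pr_norm (pr_subr 2506029679 57000000 (pr_scale 1405513 57000 (ycg_s.snd h1))))))))) (pr_case (lc23_87_s.snd h1 h2) (pr_add (lc23_133_s.snd h1 h2) (pr_mul (pr_norm (pr_mul (pr_norm (pr_sub (pr_sub (qsg_s.snd (pr_norm (lc23_72_s.snd h1 h2))) (pr_mul (pr_norm (pr_nat 2 (pr_subc (lc23_72_s.snd h1 h2) h2))) (pr_norm (pr_mul (esg_s.snd (pr_norm (lc23_72_s.snd h1 h2))) (kcg_s.snd (pr_norm (pr_sub (pr_scale 3 4 (lc23_72_s.snd h1 h2)) (pr_half (gsg_s.snd (pr_norm (lc23_72_s.snd h1 h2)))))) h2))))) (lc23_133_s.snd h1 h2))) (pr_norm (pr_sub (lc23_9_s.snd h1 h2) (lc23_85_s.snd h1 h2))))) (pr_nd (pr_inv (pr_sub (lc23_6_s.snd h1 h2) (lc23_85_s.snd h1 h2)))))) (pr_mul (pr_norm (lc23_9_s.snd h1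 h2)) (pr_norm (pr_case (lc23_44_s.snd h1 h2) (pr_add (pr_add (pr_csub (enc_rat _ 421226102750559247 553577550000000000) (pr_scale 88092457 553577550 h1)) (pr_cmul (enc_norm (lc23_11.enc h1.l h2)) (pr_norm (pr_csub (enc_rat _ 38463366030162977 18452585000000000) (pr_scale 32430087 18452585 h1))))) (pr_cmul (lc23_38.enc h1.l h2) (pr_norm (pr_subr 322080460993403 13839438750000 (pr_scale 599754400 11071551 h1))))) (pr_add (pr_addc (pr_scale 161620000 429616471 h1) (enc_rat _ 53093 100000)) (pr_cmul (enc_norm (lc23_11.enc h1.l h2)) (pr_norm (pr_addc (pr_scale 293050000 429616471 h1) (enc_rat _ 20727 20000)))))))))))⟩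
noncomputable def kcc23_6_s : Sl2 kcc23_6 := ⟨_, fun h1 h2 => (pr_subr 1 2 (swg_s.snd (pr_nd (ycg_s.snd h1))))⟩
noncomputable def kcc23_9_s : Sl2 kcc23_9 := ⟨_, fun h1 h2 => (pr_add (pr_scale 87 100 (kcc23_6_s.snd h1 h2)) (pr_scale 13 100 h1))⟩
noncomputable def kcc23_36_s : Sl2 kcc23_36 := ⟨_, fun h1 h2 => (pr_subn 1 (ycg_s.snd h1))⟩
noncomputable def kcc23_37_s : Sl2 kcc23_37 := ⟨_, fun h1 h2 => (gsg_s.snd (pr_norm (kcc23_36_s.snd h1 h2)))⟩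
noncomputable def kcc23_41_s : Sl2 kcc23_41 := ⟨_, fun h1 h2 => (esg_s.snd (pr_norm (kcc23_36_s.snd h1 h2)))⟩
noncomputable def kcc23_46_s : Sl2 kcc23_46 := ⟨_, fun h1 h2 => (gug_s.snd (pr_norm (kcc23_36_s.snd h1 h2)))⟩
noncomputable def kcc23_48_s : Sl2 kcc23_48 := ⟨_, fun h1 h2 => (pr_mul (pr_norm (kcc23_36_s.snd h1 h2)) (pr_nd (pr_inv (kcc23_37_s.snd h1 h2))))⟩
noncomputable def kcc23_49_s : Sl2 kcc23_49 := ⟨_, fun h1 h2 => (pr_scale 3 4 (kcc23_48_s.snd h1 h2))⟩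
noncomputable def kcc23_74_s : Sl2 kcc23_74 := ⟨_, fun h1 h2 => (cv1r_s.snd (pr_nd (ycg_s.snd h1)))⟩
noncomputable def kcc23_76_s : Sl2 kcc23_76 := ⟨_, fun h1 h2 => (pr_subr 48 25 (ycg_s.snd h1))⟩
noncomputable def kcc23_98_s : Sl2 kcc23_98 := ⟨_, fun h1 h2 => (pr_mul (kcc23_74_s.snd h1 h2) (pr_norm (pr_case (kcc23_76_s.snd h1 h2) (pr_add (pr_subr 73221 7000 (pr_scale 12679 1400 (ycg_s.snd h1))) (pr_cmul (enc_norm (kcc23_11.enc h1.l h2)) (pr_norm (pr_subr 377663 3500 (pr_scale 19619 210 (ycg_s.snd h1)))))) (pr_add (pr_subr 267 10000 (pr_scale 3477450000 242487113 h1)) (pr_cmul (enc_norm (kcc23_11.enc h1.l h2)) (pr_norm (pr_subr 11 40 (pr_scale 35872500000 242487113 h1))))))))⟩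
noncomputable def kcc23_s : Sl2 kcc23 := ⟨_, fun h1 h2 => (pr_norm (pr_case (pr_subr 46 25 (ycg_s.snd h1)) (pr_mul (pr_norm (kcc23_9_s.snd h1 h2)) (pr_norm (pr_add (pr_subr 46399531039 6800000000 (pr_scale 20629977013 3400000000 (ycg_s.snd h1))) (pr_cmul (enc_norm (kcc23_11.enc h1.l h2)) (pr_norm (pr_subr 5542395543 340000000 (pr_neg (pr_scale 404014819 170000000 (ycg_s.snd h1))))))))) (pr_case (kcc23_76_s.snd h1 h2) (pr_add (kcc23_98_s.snd h1 h2) (pr_mul (pr_norm (pr_mul (pr_norm (pr_sub (pr_add (pr_sub (pr_add (pr_cadd (enc_rat _ 3 4) (pr_scale 3 2 (kcc23_36_s.snd h1 h2))) (pr_scale 3 4 (pr_mul (pr_norm (kcc23_48_s.snd h1 h2)) (kcc23_46_s.snd h1 h2)))) (pr_mul (pr_norm (pr_sub (pr_mul (pr_norm (pr_mul (pr_norm (kcc23_49_s.snd h1 h2)) (pr_norm (pr_subn 3 (pr_nat 4 (kcc23_37_s.snd h1 h2)))))) (kcc23_41_s.snd h1 h2)) (pr_mul (qsg_s.snd (pr_norm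 (kcc23_36_s.snd h1 h2))) (pr_norm (pr_csub (enc_rat _ 1 2) (kcc23_49_s.snd h1 h2)))))) (pr_nd (pr_inv (pr_mul (pr_nd (pr_nat 2 (kcc23_41_s.snd h1 h2))) (kcc23_41_s.snd h1 h2)))))) (pr_mul (kcg_s.snd (pr_norm (pr_sub (pr_scale 3 4 (kcc23_36_s.snd h1 h2)) (pr_half (kcc23_37_s.snd h1 h2)))) h2) (pr_norm (pr_csub (enc_pnc _ 1) (pr_add (kcc23_46_s.snd h1 h2) (pr_nat 2 (kcc23_37_s.snd h1 h2))))))) (kcc23_98_s.snd h1 h2))) (pr_norm (pr_sub (kcc23_9_s.snd h1 h2) (kcc23_74_s.snd h1 h2))))) (pr_nd (pr_inv (pr_sub (kcc23_6_s.snd h1 h2) (kcc23_74_s.snd h1 h2)))))) (pr_mul (pr_norm (kcc23_9_s.snd h1 h2)) (pr_norm (pr_add (pr_subr 692 167 (pr_scale 4627032324316 202476739355 h1)) (pr_cmul (enc_norm (kcc23_11.enc h1.l h2)) (pr_norm (pr_csub (enc_rat _ 47747 167) (pr_scale 28058143467104 40495347871 h1))))))))))⟩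
noncomputable def cv3m_s : Sl1 cv3m := ⟨_, fun h1 => (pr_norm (pr_add (pr_half (pr_addc (swg_s.snd h1) (enc_rat _ 1 2))) (pr_half (c3g_s.snd h1))))⟩
noncomputable def bf3q0_s : Sl2 bf3q0 := ⟨_, fun h1 h2 => (pr_norm (pr_add (pr_csub (enc_rat _ 10873 25000) (pr_scale 97969 50000 h1)) (pr_cmul (enc_norm (enc_subr 22 25 h2)) (pr_norm (pr_csub (enc_rat _ 1179 5000) (pr_scale 2507 125 h1))))))⟩
noncomputable def kf3q0_s : Sl2 kf3q0 := ⟨_, fun h1 h2 => (pr_norm (pr_mul (cv3m_s.snd h1) (bf3q0_s.snd h1 h2)))⟩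
noncomputable def bx3q0_s : Sl2 bx3q0 := ⟨_, fun h1 h2 => (pr_norm (pr_add (pr_csub (enc_rat _ 4741 25000) (pr_scale 4741 25000 h1)) (pr_cmul (enc_norm (enc_subr 22 25 h2)) (pr_norm (pr_csub (enc_rat _ 2599 5000) (pr_scale 2599 5000 h1))))))⟩
noncomputable def l3q0_s : Sl2 l3q0 := ⟨_, fun h1 h2 => (pr_norm (pr_mul (cv3m_s.snd h1) (bx3q0_s.snd h1 h2)))⟩
noncomputable def bd3q0_s : Sl2 bd3q0 := ⟨_, fun h1 h2 => (pr_norm (pr_add (pr_csub (enc_rat _ 7043 2000) (pr_scale 17607 5000 h1)) (pr_cmul (enc_norm (enc_subr 22 25 h2)) (pr_norm (pr_csub (enc_rat _ 24603 500) (pr_scale 24603 500 h1))))))⟩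
noncomputable def kc3q0_s : Sl2 kc3q0 := ⟨_, fun h1 h2 => (pr_norm (pr_mul (cv3m_s.snd h1) (bd3q0_s.snd h1 h2)))⟩
noncomputable def bf3q1_s : Sl2 bf3q1 := ⟨_, fun h1 h2 => (pr_norm (pr_add (pr_subr 4793 12500 (pr_scale 17293 12500 h1)) (pr_cmul (enc_norm (enc_subr 22 25 h2)) (pr_norm (pr_subr 3174 625 (pr_scale 3174 625 h1))))))⟩
noncomputable def kf3q1_s : Sl2 kf3q1 := ⟨_, fun h1 h2 => (pr_norm (pr_mul (cv3m_s.snd h1) (bf3q1_s.snd h1 h2)))⟩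
noncomputable def bx3q1_s : Sl2 bx3q1 := ⟨_, fun h1 h2 => (pr_norm (pr_add (pr_csub (enc_rat _ 4741 25000) (pr_scale 4741 25000 h1)) (pr_cmul (enc_norm (enc_subr 22 25 h2)) (pr_norm (pr_csub (enc_rat _ 2599 5000) (pr_scale 2599 5000 h1))))))⟩
noncomputable def l3q1_s : Sl2 l3q1 := ⟨_, fun h1 h2 => (pr_norm (pr_mul (cv3m_s.snd h1) (bx3q1_s.snd h1 h2)))⟩
noncomputable def bd3q1_s : Sl2 bd3q1 := ⟨_, fun h1 h2 => (pr_norm (pr_add (pr_csub (enc_rat _ 2201 625) (pr_scale 2201 625 h1)) (pr_cmul (enc_norm (enc_subr 22 25 h2)) (pr_norm (pr_csub (enc_rat _ 24603 500) (pr_scale 24603 500 h1))))))⟩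
noncomputable def kc3q1_s : Sl2 kc3q1 := ⟨_, fun h1 h2 => (pr_norm (pr_mul (cv3m_s.snd h1) (bd3q1_s.snd h1 h2)))⟩
noncomputable def cv3p_s : Sl1 cv3p := ⟨_, fun h1 => (pr_norm (pr_add (pr_half (pr_subr 1 2 (swg_s.snd h1))) (pr_half (c3g_s.snd h1))))⟩
noncomputable def bf3q2_s : Sl2 bf3q2 := ⟨_, fun h1 h2 => (pr_norm (pr_add (pr_subr 41617 25000 (pr_scale 109581 50000 h1)) (pr_cmul (enc_norm (enc_subr 22 25 h2)) (pr_norm (pr_subr 7323 1250 (pr_scale 25903 5000 h1))))))⟩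
noncomputable def kf3q2_s : Sl2 kf3q2 := ⟨_, fun h1 h2 => (pr_norm (pr_mul (cv3p_s.snd h1) (bf3q2_s.snd h1 h2)))⟩
noncomputable def bx3q2_s : Sl2 bx3q2 := ⟨_, fun h1 h2 => (pr_norm (pr_case (pr_subr 277 200 h1) (pr_add (pr_subr 4570619 7700000 (pr_scale 20833 38500 h1)) (pr_cmul (enc_norm (bx3q2_3.enc h1.l h2)) (pr_norm (pr_subr 681409 385000 (pr_scale 2977 1925 h1))))) (pr_case (pr_subr 1443 1000 h1) (pr_add (pr_subr 3443527 5800000 (pr_scale 3139 5800 h1)) (pr_cmul (enc_norm (bx3q2_3.enc h1.l h2)) (pr_norm (pr_subr 205317 116000 (pr_scale 897 580 h1))))) (pr_add (pr_subr 73453 118750 (pr_scale 1061 1900 h1)) (pr_cmul (enc_norm (bx3q2_3.enc h1.l h2)) (pr_norm (pr_subr 168019 95000 (pr_scale 881 570 h1))))))))⟩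
noncomputable def l3q2_s : Sl2 l3q2 := ⟨_, fun h1 h2 => (pr_norm (pr_mul (cv3p_s.snd h1) (bx3q2_s.snd h1 h2)))⟩
noncomputable def bd3q2_s : Sl2 bd3q2 := ⟨_, fun h1 h2 => (pr_norm (pr_add (pr_addc (pr_scale 13337 5000 h1) (enc_rat _ 1147 10000)) (pr_cmul (enc_norm (enc_subr 22 25 h2)) (pr_norm (pr_subr 253053 1000 (pr_scale 21922 125 h1))))))⟩
noncomputable def kc3q2_s : Sl2 kc3q2 := ⟨_, fun h1 h2 => (pr_norm (pr_mul (cv3p_s.snd h1) (bd3q2_s.snd h1 h2)))⟩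
noncomputable def xc33_s : Sl1 xc33 := ⟨_, fun h1 => (pr_norm (pr_add (pr_half (pr_subr 1 2 (swg_s.snd (pr_nd (ycg_s.snd h1))))) (pr_half h1)))⟩
noncomputable def kfc33_s : Sl2 kfc33 := ⟨_, fun h1 h2 => (pr_norm (pr_mul (pr_norm (pr_add (pr_half (pr_subr 1 2 (swg_s.snd (pr_nd (ycg_s.snd h1))))) (pr_half h1))) (pr_norm (pr_case (pr_subr 46 25 (ycg_s.snd h1)) (pr_add (pr_subr 243539 850000 (pr_scale 8759 34000 (ycg_s.snd h1))) (pr_cmul (enc_norm (kfc33_11.enc h1.l h2)) (pr_norm (pr_csub (enc_rat _ 16703989 170000) (pr_scale 176527 3400 (ycg_s.snd h1)))))) (pr_case (pr_subr 48 25 (ycg_s.snd h1)) (pr_add (pr_subr 28653 100000 (pr_scale 2061 8000 (ycg_s.snd h1))) (pr_cmul (enc_norm (kfc33_11.enc h1.l h2)) (pr_norm (pr_csub (enc_rat _ 982593 10000) (pr_scale 1298 25 (ycg_s.snd h1)))))) (pr_sub (pr_csub (enc_rat _ 1 2) (pr_scale 145945000 242487113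 h1)) (pr_cmul (enc_norm (kfc33_11.enc h1.l h2)) (pr_nd (pr_scale 713550000 242487113 h1)))))))))⟩
noncomputable def lc33_s : Sl2 lc33 := ⟨_, fun h1 h2 => (pr_norm (pr_mul (pr_norm (pr_add (pr_half (pr_subr 1 2 (swg_s.snd (pr_nd (ycg_s.snd h1))))) (pr_half h1))) (pr_norm (pr_case (pr_subr 48 25 (ycg_s.snd h1)) (pr_case (pr_subr 46 25 (ycg_s.snd h1)) (pr_add (pr_subr 907207 850000 (pr_scale 14579 17000 (ycg_s.snd h1))) (pr_cmul (enc_norm (lc33_11.enc h1.l h2)) (pr_norm (pr_subr 75221 42500 (pr_scale 2629 1700 (ycg_s.snd h1)))))) (pr_add (pr_subr 106737 100000 (pr_scale 6861 8000 (ycg_s.snd h1))) (pr_cmul (enc_norm (lc33_11.enc h1.l h2)) (pr_norm (pr_subr 3539 2000 (pr_scale 1237 800 (ycg_s.snd h1))))))) (pr_case (pr_csub (enc_rat _ 429616471 1000000000) h1) (pr_add (pr_csub (enc_rat _ 3510302539361 5535775500000) (pr_scale 1252000 11071551 h1))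 (pr_cmul (enc_norm (lc33_11.enc h1.l h2)) (pr_norm (pr_addc (pr_scale 1240000 3690517 h1) (enc_rat _ 191233449893 184525850000))))) (pr_add (pr_addc (pr_scale 54600000 429616471 h1) (enc_rat _ 53093 100000)) (pr_cmul (enc_norm (lc33_11.enc h1.l h2)) (pr_norm (pr_addc (pr_scale 144350000 429616471 h1) (enc_rat _ 20727 20000))))))))))⟩
noncomputable def kcc33_s : Sl2 kcc33 := ⟨_, fun h1 h2 => (pr_norm (pr_mul (pr_norm (pr_add (pr_half (pr_subr 1 2 (swg_s.snd (pr_nd (ycg_s.snd h1))))) (pr_half h1))) (pr_norm (pr_case (pr_subr 46 25 (ycg_s.snd h1)) (pr_add (pr_addc (pr_scale 9069 3400 (ycg_s.snd h1)) (enc_rat _ 19511 170000)) (pr_cmul (enc_norm (kcc33_11.enc h1.l h2)) (pr_norm (pr_subr 2150919 8500 (pr_scale 59627 340 (ycg_s.snd h1)))))) (pr_case (pr_subr 48 25 (ycg_s.snd h1)) (pr_add (pr_addc (pr_scale 1067 400 (ycg_s.snd h1)) (enc_rat _ 229 2000))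 (pr_cmul (enc_norm (kcc33_11.enc h1.l h2)) (pr_norm (pr_subr 63263 250 (pr_scale 1403 8 (ycg_s.snd h1)))))) (pr_add (pr_subr 692 167 (pr_scale 783214350000 40495347871 h1)) (pr_cmul (enc_norm (kcc33_11.enc h1.l h2)) (pr_norm (pr_csub (enc_rat _ 47747 167) (pr_scale 1535202000000 3681395261 h1))))))))))⟩
noncomputable def kf4q0_s : Sl2 kf4q0 := ⟨_, fun h1 h2 => (pr_norm (pr_sub (pr_mul h1 (kcg_s.snd (pr_nd (pr_half h1)) h2)) (pr_mul (pr_norm (pr_mul (pr_nd (pr_sq h1)) (pr_norm (pr_addc (c3g_s.snd h1) (enc_rat _ 3 2))))) (pr_nd (pr_inv (pr_mul (pr_norm (pr_csub (enc_pnc _ 1) h1)) (pr_norm (pr_cadd (enc_pnc _ 1) h1))))))))⟩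
noncomputable def l4q0_6_s : Sl2 l4q0_6 := ⟨_, fun h1 h2 => (pr_half h1)⟩
noncomputable def l4q0_7_s : Sl2 l4q0_7 := ⟨_, fun h1 h2 => (pr_half (c3g_s.snd h1))⟩
noncomputable def l4q0_8_s : Sl2 l4q0_8 := ⟨_, fun h1 h2 => (pr_scale 1 4 h1)⟩
noncomputable def l4q0_s : Sl2 l4q0 := ⟨_, fun h1 h2 => (pr_norm (pr_add (txg_s.snd (pr_nd (l4q0_6_s.snd h1 h2)) (pr_norm (pr_sub (l4q0_7_s.snd h1 h2) (l4q0_8_s.snd h1 h2))) h2) (txg_s.snd (pr_nd (pr_neg (l4q0_6_s.snd h1 h2))) (pr_norm (pr_add (l4q0_7_s.snd h1 h2) (l4q0_8_s.snd h1 h2))) h2)))⟩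
noncomputable def kc4q0_6_s : Sl2 kc4q0_6 := ⟨_, fun h1 h2 => (pr_half h1)⟩
noncomputable def kc4q0_s : Sl2 kc4q0 := ⟨_, fun h1 h2 => (pr_norm (pr_case (pr_subr 167 1000 (kc4q0_6_s.snd h1 h2)) (pr_add (pr_csub (enc_rat _ 29217 5000) (pr_scale 24903 3340 h1)) (pr_cmul (enc_norm (kc4q0_3.enc h1.l h2)) (pr_norm (pr_subr 2717 1000 (pr_scale 13754 167 h1))))) (pr_case (pr_subr 333 1000 (kc4q0_6_s.snd h1 h2)) (pr_add (pr_csub (enc_rat _ 9700231 1660000) (pr_scale 4951 664 h1)) (pr_cmul (enc_norm (kc4q0_3.enc h1.l h2)) (pr_norm (pr_subr 18039 6640 (pr_scale 27343 332 h1))))) (pr_add (pr_csub (enc_rat _ 2194 835) (pr_scale 2194 835 h1)) (pr_cmul (enc_norm (kc4q0_3.enc h1.l h2)) (pr_norm (pr_csub (enc_rat _ 26067 167) (pr_scale 26067 167 h1))))))))⟩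
noncomputable def kf4q1_s : Sl2 kf4q1 := ⟨_, fun h1 h2 => (pr_norm (pr_add (pr_mul (pr_norm (pr_mul h1 (pr_norm (pr_addc (c3g_s.snd h1) (enc_rat _ 3 2))))) (pr_nd (pr_inv (pr_cadd (enc_pnc _ 1) h1)))) (pr_mul (pr_norm (pr_subn 1 h1)) (kcg_s.snd (pr_nd (pr_half h1)) h2))))⟩
noncomputable def l4q1_7_s : Sl2 l4q1_7 := ⟨_, fun h1 h2 => (pr_half h1)⟩
noncomputable def l4q1_8_s : Sl2 l4q1_8 := ⟨_, fun h1 h2 => (pr_half (c3g_s.snd h1))⟩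
noncomputable def l4q1_9_s : Sl2 l4q1_9 := ⟨_, fun h1 h2 => (pr_scale 1 4 h1)⟩
noncomputable def l4q1_s : Sl2 l4q1 := ⟨_, fun h1 h2 => (pr_norm (pr_add (txg_s.snd (pr_nd (l4q1_7_s.snd h1 h2)) (pr_norm (pr_sub (l4q1_8_s.snd h1 h2) (l4q1_9_s.snd h1 h2))) h2) (txg_s.snd (pr_nd (pr_neg (l4q1_7_s.snd h1 h2))) (pr_norm (pr_add (l4q1_8_s.snd h1 h2) (l4q1_9_s.snd h1 h2))) h2)))⟩
noncomputable def kc4q1_7_s : Sl2 kc4q1_7 := ⟨_, fun h1 h2 => (pr_half h1)⟩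
noncomputable def kc4q1_s : Sl2 kc4q1 := ⟨_, fun h1 h2 => (pr_norm (pr_case (pr_subr 167 1000 (kc4q1_7_s.snd h1 h2)) (pr_add (pr_csub (enc_rat _ 29217 5000) (pr_scale 24903 3340 h1)) (pr_cmul (enc_norm (kc4q1_3.enc h1.l h2)) (pr_norm (pr_subr 2717 1000 (pr_scale 13754 167 h1))))) (pr_case (pr_subr 333 1000 (kc4q1_7_s.snd h1 h2)) (pr_add (pr_csub (enc_rat _ 9700231 1660000) (pr_scale 4951 664 h1)) (pr_cmul (enc_norm (kc4q1_3.enc h1.l h2)) (pr_norm (pr_subr 18039 6640 (pr_scale 27343 332 h1))))) (pr_add (pr_csub (enc_rat _ 2194 835) (pr_scale 2194 835 h1)) (pr_cmul (enc_norm (kc4q1_3.enc h1.l h2)) (pr_norm (pr_csub (enc_rat _ 26067 167) (pr_scale 26067 167 h1))))))))⟩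
noncomputable def kf4q2_s : Sl2 kf4q2 := ⟨_, fun h1 h2 => (pr_norm (pr_add (pr_mul (pr_norm (pr_mul (pr_norm (pr_sub (pr_nat 2 (c3g_s.snd h1)) h1)) (pr_norm (pr_sub (pr_addc (c3g_s.snd h1) (enc_pnc _ 3)) (pr_scale 3 2 h1))))) (pr_nd (pr_inv (pr_nat 4 (pr_csub (enc_pnc _ 2) h1))))) (pr_mul (pr_norm (pr_subn 1 h1)) (kcg_s.snd (pr_norm (pr_sub (pr_scale 1 4 h1) (pr_half (c3g_s.snd h1)))) h2))))⟩
noncomputable def l4q2_7_s : Sl2 l4q2_7 := ⟨_, fun h1 h2 => (pr_half (c3g_s.snd h1))⟩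
noncomputable def l4q2_8_s : Sl2 l4q2_8 := ⟨_, fun h1 h2 => (pr_scale 1 4 h1)⟩
noncomputable def l4q2_9_s : Sl2 l4q2_9 := ⟨_, fun h1 h2 => (pr_sub (l4q2_7_s.snd h1 h2) (l4q2_8_s.snd h1 h2))⟩
noncomputable def l4q2_12_s : Sl2 l4q2_12 := ⟨_, fun h1 h2 => (pr_add (pr_scale 1 4 (c3g_s.snd h1)) (pr_scale 3 8 h1))⟩
noncomputable def l4q2_14_s : Sl2 l4q2_14 := ⟨_, fun h1 h2 => (pr_half (l4q2_9_s.snd h1 h2))⟩
noncomputable def l4q2_s : Sl2 l4q2 := ⟨_, fun h1 h2 => (pr_norm (pr_sub (pr_nat 2 (txg_s.snd (pr_norm (pr_sub (l4q2_8_s.snd h1 h2) (l4q2_7_s.snd h1 h2))) (pr_norm (pr_add (l4q2_12_s.snd h1 h2) (l4q2_14_s.snd h1 h2))) h2)) (txg_s.snd (pr_norm (l4q2_9_s.snd h1 h2)) (pr_norm (pr_sub (l4q2_12_s.snd h1 h2) (l4q2_14_s.snd h1 h2))) h2)))⟩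
noncomputable def kc4q2_9_s : Sl2 kc4q2_9 := ⟨_, fun h1 h2 => (pr_sub (pr_half (c3g_s.snd h1)) (pr_scale 1 4 h1))⟩
noncomputable def kc4q2_27_s : Sl2 kc4q2_27 := ⟨_, fun h1 h2 => (pr_scale 153 1660 (kc4q2_9_s.snd h1 h2))⟩
noncomputable def kc4q2_31_s : Sl2 kc4q2_31 := ⟨_, fun h1 h2 => (pr_scale 25323 166 (kc4q2_9_s.snd h1 h2))⟩
noncomputable def kc4q2_40_s : Sl2 kc4q2_40 := ⟨_, fun h1 h2 => (pr_subr 13533 10000 (pr_scale 77 835 (kc4q2_9_s.snd h1 h2)))⟩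
noncomputable def kc4q2_s : Sl2 kc4q2 := ⟨_, fun h1 h2 => (pr_norm (pr_case (kc4q2_9_s.snd h1 h2) (pr_case (pr_addc (kc4q2_9_s.snd h1 h2) (enc_rat _ 333 1000)) (pr_add (pr_subr 692 167 (pr_neg (pr_scale 1384 167 (kc4q2_9_s.snd h1 h2)))) (pr_cmul (enc_norm (kc4q2_3.enc h1.l h2)) (pr_norm (pr_addc (pr_scale 95494 167 (kc4q2_9_s.snd h1 h2)) (enc_rat _ 47747 167))))) (pr_case (pr_addc (kc4q2_9_s.snd h1 h2) (enc_rat _ 167 1000)) (pr_add (pr_subr 2246491 1660000 (kc4q2_27_s.snd h1 h2)) (pr_cmul (enc_norm (kc4q2_3.enc h1.l h2)) (pr_norm (pr_csub (enc_rat _ 1483889 33200) (kc4q2_31_s.snd h1 h2))))) (pr_add (kc4q2_40_s.snd h1 h2) (pr_cmul (enc_norm (kc4q2_3.enc h1.l h2)) (pr_norm (pr_csub (enc_rat _ 8939 200) (pr_scale 25476 167 (kc4q2_9_s.snd h1 h2)))))))) (pr_case (pr_subr 167 1000 (kc4q2_9_s.snd h1 h2)) (pr_add (kc4q2_40_s.snd h1 h2) (pr_cmul (enc_norm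 (kc4q2_3.enc h1.l h2)) (pr_norm (pr_csub (enc_rat _ 8939 200) (pr_scale 25475 167 (kc4q2_9_s.snd h1 h2)))))) (pr_case (pr_subr 333 1000 (kc4q2_9_s.snd h1 h2)) (pr_add (pr_subr 449293 332000 (kc4q2_27_s.snd h1 h2)) (pr_cmul (enc_norm (kc4q2_3.enc h1.l h2)) (pr_norm (pr_csub (enc_rat _ 7419461 166000) (kc4q2_31_s.snd h1 h2))))) (pr_add (pr_subr 6613 1670 (pr_scale 6613 835 (kc4q2_9_s.snd h1 h2))) (pr_cmul (enc_norm (kc4q2_3.enc h1.l h2)) (pr_norm (pr_subr 6103 334 (pr_scale 6103 167 (kc4q2_9_s.snd h1 h2))))))))))⟩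
noncomputable def kfc43_s : Sl2 kfc43 := ⟨_, fun h1 h2 => (pr_norm (pr_sub (pr_mul (pr_norm (pr_subn 2 (ycg_s.snd h1))) (kcg_s.snd (pr_norm (pr_sub (pr_scale 1 4 (ycg_s.snd h1)) (pr_half h1))) h2)) (pr_mul (pr_norm (pr_mul (pr_norm (pr_sub (pr_nat 2 h1) (ycg_s.snd h1))) (pr_norm (pr_sub (pr_addc h1 (enc_pnc _ 3)) (pr_scale 3 2 (ycg_s.snd h1)))))) (pr_nd (pr_inv (pr_nat 4 (pr_subn 1 (ycg_s.snd h1))))))))⟩
noncomputable def lc43_7_s : Sl2 lc43_7 := ⟨_, fun h1 h2 => (pr_half h1)⟩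
noncomputable def lc43_8_s : Sl2 lc43_8 := ⟨_, fun h1 h2 => (pr_scale 1 4 (ycg_s.snd h1))⟩
noncomputable def lc43_9_s : Sl2 lc43_9 := ⟨_, fun h1 h2 => (pr_sub (lc43_7_s.snd h1 h2) (lc43_8_s.snd h1 h2))⟩
noncomputable def lc43_12_s : Sl2 lc43_12 := ⟨_, fun h1 h2 => (pr_add (pr_scale 1 4 h1) (pr_scale 3 8 (ycg_s.snd h1)))⟩
noncomputable def lc43_14_s : Sl2 lc43_14 := ⟨_, fun h1 h2 => (pr_half (lc43_9_s.snd h1 h2))⟩
noncomputable def lc43_s : Sl2 lc43 := ⟨_, fun h1 h2 => (pr_norm (pr_sub (pr_nat 2 (txg_s.snd (pr_norm (pr_sub (lc43_8_s.snd h1 h2) (lc43_7_s.snd h1 h2))) (pr_norm (pr_add (lc43_12_s.snd h1 h2) (lc43_14_s.snd h1 h2))) h2)) (txg_s.snd (pr_norm (lc43_9_s.snd h1 h2)) (pr_norm (pr_sub (lc43_12_s.snd h1 h2) (lc43_14_s.snd h1 h2))) h2)))⟩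
noncomputable def kcc43_9_s : Sl2 kcc43_9 := ⟨_, fun h1 h2 => (pr_sub (pr_half h1) (pr_scale 1 4 (ycg_s.snd h1)))⟩
noncomputable def kcc43_27_s : Sl2 kcc43_27 := ⟨_, fun h1 h2 => (pr_scale 153 1660 (kcc43_9_s.snd h1 h2))⟩
noncomputable def kcc43_31_s : Sl2 kcc43_31 := ⟨_, fun h1 h2 => (pr_scale 25323 166 (kcc43_9_s.snd h1 h2))⟩
noncomputable def kcc43_40_s : Sl2 kcc43_40 := ⟨_, fun h1 h2 => (pr_subr 13533 10000 (pr_scale 77 835 (kcc43_9_s.snd h1 h2)))⟩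
noncomputable def kcc43_s : Sl2 kcc43 := ⟨_, fun h1 h2 => (pr_norm (pr_case (kcc43_9_s.snd h1 h2) (pr_case (pr_addc (kcc43_9_s.snd h1 h2) (enc_rat _ 333 1000)) (pr_add (pr_subr 692 167 (pr_neg (pr_scale 1384 167 (kcc43_9_s.snd h1 h2)))) (pr_cmul (enc_norm (kcc43_4.enc h1.l h2)) (pr_norm (pr_addc (pr_scale 95494 167 (kcc43_9_s.snd h1 h2)) (enc_rat _ 47747 167))))) (pr_case (pr_addc (kcc43_9_s.snd h1 h2) (enc_rat _ 167 1000)) (pr_add (pr_subr 2246491 1660000 (kcc43_27_s.snd h1 h2)) (pr_cmul (enc_norm (kcc43_4.enc h1.l h2)) (pr_norm (pr_csub (enc_rat _ 1483889 33200) (kcc43_31_s.snd h1 h2))))) (pr_add (kcc43_40_s.snd h1 h2) (pr_cmul (enc_norm (kcc43_4.enc h1.l h2)) (pr_norm (pr_csub (enc_rat _ 8939 200) (pr_scale 25476 167 (kcc43_9_s.snd h1 h2)))))))) (pr_case (pr_subr 167 1000 (kcc43_9_s.snd h1 h2)) (pr_add (kcc43_40_s.snd h1 h2) (pr_cmul (enc_norm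 (kcc43_4.enc h1.l h2)) (pr_norm (pr_csub (enc_rat _ 8939 200) (pr_scale 25475 167 (kcc43_9_s.snd h1 h2)))))) (pr_case (pr_subr 333 1000 (kcc43_9_s.snd h1 h2)) (pr_add (pr_subr 449293 332000 (kcc43_27_s.snd h1 h2)) (pr_cmul (enc_norm (kcc43_4.enc h1.l h2)) (pr_norm (pr_csub (enc_rat _ 7419461 166000) (kcc43_31_s.snd h1 h2))))) (pr_add (pr_subr 6613 1670 (pr_scale 6613 835 (kcc43_9_s.snd h1 h2))) (pr_cmul (enc_norm (kcc43_4.enc h1.l h2)) (pr_norm (pr_subr 6103 334 (pr_scale 6103 167 (kcc43_9_s.snd h1 h2))))))))))⟩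
noncomputable def gB0q0 : Gn := ⟨ndB0q0, c1g_s, kf0q0_s, l0q0_s, false⟩
noncomputable def dB0q0 : CnW := ⟨cd0q0, kc0q0_s⟩
noncomputable def gB0q1 : Gn := ⟨ndB0q1, c1g_s, kf0q1_s, l0q1_s, false⟩
noncomputable def dB0q1 : CnW := ⟨cd0q1, kc0q1_s⟩
noncomputable def gB0q2 : Gn := ⟨ndB0q2, idf_s, kfc02_s, lc02_s, true⟩
noncomputable def dB0q2 : CnW := ⟨cd0q2, kcc02_s⟩
noncomputable def gB1q0 : Gn := ⟨ndB1q0, cv1m_s, kf1q0_s, l1q0_s, false⟩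
noncomputable def dB1q0 : CnW := ⟨cd1q0, kc1q0_s⟩
noncomputable def gB1q1 : Gn := ⟨ndB1q1, cv1m_s, kf1q1_s, l1q1_s, false⟩
noncomputable def dB1q1 : CnW := ⟨cd1q1, kc1q1_s⟩
noncomputable def gB1q2 : Gn := ⟨ndB1q2, cv1p_s, kf1q2_s, l1q2_s, false⟩
noncomputable def dB1q2 : CnW := ⟨cd1q2, kc1q2_s⟩
noncomputable def gB1q3 : Gn := ⟨ndB1q3, cv1r_s, kf1q3_s, l1q3_s, false⟩
noncomputable def dB1q3 : CnW := ⟨cd1q3, kc1q3_s⟩
noncomputable def gB2q0 : Gn := ⟨ndB2q0, cv2m_s, kf2q0_s, l2q0_s, false⟩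
noncomputable def dB2q0 : CnW := ⟨cd2q0, kc2q0_s⟩
noncomputable def gB2q1 : Gn := ⟨ndB2q1, cv2m_s, kf2q1_s, l2q1_s, false⟩
noncomputable def dB2q1 : CnW := ⟨cd2q1, kc2q1_s⟩
noncomputable def gB2q2 : Gn := ⟨ndB2q2, cv2p_s, kf2q2_s, l2q2_s, false⟩
noncomputable def dB2q2 : CnW := ⟨cd2q2, kc2q2_s⟩
noncomputable def gB2q3 : Gn := ⟨ndB2q3, xc23_s, kfc23_s, lc23_s, false⟩
noncomputable def dB2q3 : CnW := ⟨cd2q3, kcc23_s⟩
noncomputable def gB3q0 : Gn := ⟨ndB3q0, cv3m_s, kf3q0_s, l3q0_s, false⟩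
noncomputable def dB3q0 : CnW := ⟨cd3q0, kc3q0_s⟩
noncomputable def gB3q1 : Gn := ⟨ndB3q1, cv3m_s, kf3q1_s, l3q1_s, false⟩
noncomputable def dB3q1 : CnW := ⟨cd3q1, kc3q1_s⟩
noncomputable def gB3q2 : Gn := ⟨ndB3q2, cv3p_s, kf3q2_s, l3q2_s, false⟩
noncomputable def dB3q2 : CnW := ⟨cd3q2, kc3q2_s⟩
noncomputable def gB3q3 : Gn := ⟨ndB3q3, xc33_s, kfc33_s, lc33_s, false⟩
noncomputable def dB3q3 : CnW := ⟨cd3q3, kcc33_s⟩
noncomputable def gB4q0 : Gn := ⟨ndB4q0, c3g_s, kf4q0_s, l4q0_s, false⟩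
noncomputable def dB4q0 : CnW := ⟨cd4q0, kc4q0_s⟩
noncomputable def gB4q1 : Gn := ⟨ndB4q1, c3g_s, kf4q1_s, l4q1_s, false⟩
noncomputable def dB4q1 : CnW := ⟨cd4q1, kc4q1_s⟩
noncomputable def gB4q2 : Gn := ⟨ndB4q2, c3g_s, kf4q2_s, l4q2_s, false⟩
noncomputable def dB4q2 : CnW := ⟨cd4q2, kc4q2_s⟩
noncomputable def gB4q3 : Gn := ⟨ndB4q3, idf_s, kfc43_s, lc43_s, false⟩
noncomputable def dB4q3 : CnW := ⟨cd4q3, kcc43_s⟩
noncomputable def gB0q3 : Gn := gz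
noncomputable def dB0q3 : CnW := ⟨fz2, fz2_s⟩
noncomputable def gB (j : Fin 5) (q : ℕ) : Gn :=
  match j, q with
  | 0, 0 => gB0q0
  | 0, 1 => gB0q1
  | 0, 2 => gB0q2
  | 0, 3 => gB0q3
  | 1, 0 => gB1q0
  | 1, 1 => gB1q1
  | 1, 2 => gB1q2
  | 1, 3 => gB1q3
  | 2, 0 => gB2q0
  | 2, 1 => gB2q1
  | 2, 2 => gB2q2
  | 2, 3 => gB2q3
  | 3, 0 => gB3q0
  | 3, 1 => gB3q1
  | 3, 2 => gB3q2
  | 3, 3 => gB3q3
  | 4, 0 => gB4q0
  | 4, 1 => gB4q1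
  | 4, 2 => gB4q2
  | 4, 3 => gB4q3
  | _, _ => gB0q0

noncomputable def dB (j : Fin 5) (q : ℕ) : CnW :=
  match j, q with
  | 0, 0 => dB0q0
  | 0, 1 => dB0q1
  | 0, 2 => dB0q2
  | 0, 3 => dB0q3
  | 1, 0 => dB1q0
  | 1, 1 => dB1q1
  | 1, 2 => dB1q2
  | 1, 3 => dB1q3
  | 2, 0 => dB2q0
  | 2, 1 => dB2q1
  | 2, 2 => dB2q2
  | 2, 3 => dB2q3
  | 3, 0 => dB3q0
  | 3, 1 => dB3q1
  | 3, 2 => dB3q2
  | 3, 3 => dB3q3
  | 4, 0 => dB4q0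
  | 4, 1 => dB4q1
  | 4, 2 => dB4q2
  | 4, 3 => dB4q3
  | _, _ => dB0q0

noncomputable def c0B : Fn1 := ⟨fun _ => pone, fun _ => 1, fun _ => enc_one _⟩

end Pool.Agent.Strip051.G.I8600_9000.Tab
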