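import Pool.Agent.Strip051.G.I8600_9000.StH
import Pool.Agent.Strip051.G.I8600_9000.StF

/-! # Unit strips 6 (generated) -/

set_option linter.all false
set_option maxRecDepth 100000

namespace Pool.Agent.Strip051.G.I8600_9000.Tab.St.C

open Pool.Agent.Strip051.PB Pool.Agent.Strip051.PB.T Pool.Agent.StripNear Pool.Agent.Strip051.LC
open Pool.Agent.Strip051.G.I8600_9000.Tab Pool.Agent.Strip051.G.I8600_9000.Tab.St

noncomputable def cut_A00pm_102_s3 : Cut := Cut.of [[⟨3, 0, 0, 2845415833⟩], [⟨0, 1, 0, 67108864⟩, ⟨1, 0, 0, 67108864⟩, ⟨2, 1, 0, 67108864⟩]]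

noncomputable def f_A00pm_102_s3 : ℕ → ℕ → ℕ → ℕ → Bool := onCell 536870912 536870912 0 536870912 923417968 42949674
    (rowF 0 true true false .npp 1 0 2 (qsf 536870912 536870912 0 536870912 2) ndB0q1 ndB0q0 pcB2 cut_A00pm_102_s3 Ext.none)

def k0_A00pm_102_s3 : ∃ t, chk3 f_A00pm_102_s3 t 1 1 1 = true :=
  ⟨(l 6), by decide +kernel⟩

theorem c_A00pm_102_s3 : CertF 536870912 536870912 0 536870912 923417968 42949674 true true false .npp 1 0 2
    ndB0q1 ndB0q0 pcB2 cut_A00pm_102_s3 Ext.none :=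
  certF0 (fam := true) (s1 := true) (s2 := false) (a := 1) (b := 0) (c := 2) (cn := .npp) (n1 := ndB0q1) (n2 := ndB0q0) (pc := pcB2) (cut := cut_A00pm_102_s3) (xt := Ext.none) (P1 := 536870912) (W1 := 536870912) (P2 := 0) (W2 := 536870912) (P3 := 923417968) (W3 := 42949674)
    rfl k0_A00pm_102_s3

theorem s_A00pm_102_s3 {κ x : ℝ} (hκ : κ * h0 = ken x) (hx : ((923417968 : ℕ) : ℝ) / S ≤ x)
    (hx' : x ≤ (((923417968 : ℕ) : ℝ) + (42949674 : ℕ)) / S)
    (H : CutA (VFD κ) PP tK tL pcB (Cut.of [[⟨0, 1, 0, 67108864⟩, ⟨1, 0, 0, 67108864⟩, ⟨2, 1, 0, 67108864⟩]]) 1 0 2 0 0 (sgb true) (sgb false) x) :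
    AltA (VFD κ) PP tK tL pcB [⟨4, 0, 0, 2845415833⟩] 1 0 2 0 0 (sgb true) (sgb false) x :=
  strip_altAD (m := 2845415833) false rfl hκ (SH.κ0 hκ (SH.hx1 hx).le (SH.hx2 hx').le) (SH.hx1 hx).le (SH.hx2 hx') (covB01).cov (covB00).cov hx hx' c_A00pm_102_s3 H (noExt_A)

noncomputable def cut_A00pm_112_s1 : Cut := Cut.of [[⟨4, 0, 0, 1449551462⟩]]

noncomputable def xt_A00pm_112_s1 : Ext := strExt dd true true false .u0 .u0m .u2 .dn 1 1 2 rfl rfl gf2 vv ndB0q1 ndB0q1

noncomputable def f_A00pm_112_s1 : ℕ → ℕ → ℕ → ℕ → Bool := onCell 536870912 536870912 1073741824 536870912 923417968 42949674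
    (rowF 1 true true false .dn 1 1 2 (qsf 536870912 536870912 536870912 536870912 2) ndB0q1 ndB0q1 pcB2 cut_A00pm_112_s1 xt_A00pm_112_s1)

def k0_A00pm_112_s1 : ∃ t, chk3 f_A00pm_112_s1 t 2 4 1 = true :=
  ⟨(b (l 3) (l 3)), by decide +kernel⟩

def k1_A00pm_112_s1 : ∃ t, chk3 f_A00pm_112_s1 t 4 40 1 = true :=
  ⟨(l 3), by decide +kernel⟩

def k2_A00pm_112_s1 : ∃ t, chk3 f_A00pm_112_s1 t 4 82 1 = true :=
  ⟨(l 3), by decide +kernel⟩

def k3_A00pm_112_s1 : ∃ t, chk3 f_A00pm_112_s1 t 4 166 1 = true :=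
  ⟨(a (b (l 3) (a (l 531985983) (l 3))) (l 3)), by decide +kernel⟩

def k4_A00pm_112_s1 : ∃ t, chk3 f_A00pm_112_s1 t 8 167 1 = true :=
  ⟨(a (a (b (l 531968319) (b (b (l 531970607) (b (b (l 531971375) (b (l 531971375) (b (l 531971631) (a (a (c (l 16772048) (l 16772056)) (c (l 16772544) (l 16772552))) (a (c (l 16773008) (l 16773008)) (c (l 16773440) (l 16773440))))))) (l 531971935))) (l 531972959))) (b (l 532013119) (b (b (l 532015919) (b (b (l 532016687) (b (l 532016943) (b (l 532016943) (a (a (a (l 16773744) (l 16773944)) (a (l 16774128) (l 16774312))) (a (a (l 16774488) (a (l 16774616) (l 16774696))) (c (a (l 16774816) (l 16774976)) (l 16774896))))))) (l 532017247))) (l 532018527)))) (a (b (l 532047679) (b (b (l 532050735) (b (b (l 532051503) (b (l 532051759) (b (l 532052015) (a (c (a (a (l 16775120) (l 16775264)) (a (l 16775400) (l 16775528))) (a (a (l 16775128) (l 16775264)) (a (l 16775400) (l 16775528)))) (a (c (a (l 16775648)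 (l 16775768)) (a (l 16775648) (l 16775768))) (a (c (l 16775872) (l 16775880)) (c (l 16775976) (l 16775984)))))))) (l 532052319))) (l 532053855))) (b (b (l 3) (l 532071999)) (b (b (l 532074287) (b (b (l 532075055) (b (l 532075311) (b (l 532075567) (c (a (a (a (l 16776072) (l 16776168)) (a (a (l 16776232) (l 16776272)) (a (l 16776312) (l 16776344)))) (a (a (a (l 16776384) (l 16776416)) (a (l 16776448) (l 16776480))) (a (a (l 16776512) (l 16776536)) (a (l 16776568) (l 16776592))))) (a (a (a (l 16776080) (l 16776168)) (a (a (l 16776232) (l 16776272)) (l 16776328))) (a (a (l 16776400) (l 16776464)) (a (a (l 16776512) (l 16776544)) (a (l 16776568) (l 16776592))))))))) (l 532076127))) (l 532077663))))), by decide +kernel⟩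

def k5_A00pm_112_s1 : ∃ t, chk3 f_A00pm_112_s1 t 18 167 1 = true :=
  ⟨(b (l 3) (b (b (l 532084271) (b (b (l 532085551) (b (l 532085807) (b (l 532086063) (a (c (a (a (a (a (l 16776616) (l 16776640)) (a (l 16776656) (l 16776672))) (a (a (l 16776696) (l 16776712)) (a (l 16776720) (l 16776736)))) (a (a (a (l 16776744) (l 16776760)) (a (l 16776768) (l 16776768))) (a (a (l 16776776) (l 16776784)) (a (l 16776784) (l 16776784))))) (a (a (a (a (l 16776616) (l 16776640)) (c (l 16776664) (l 16776664))) (a (a (l 16776696) (l 16776712)) (a (l 16776720) (l 16776736)))) (b (a (a (a (l 16776760) (l 16776768)) (a (l 16776776) (l 16776784))) (a (a (l 16776784) (l 16776792)) (a (l 16776792) (l 16776792)))) (l 532095327)))) (c (a (a (a (a (l 16776784) (l 16776776)) (a (l 16776776) (l 16776768))) (a (a (l 16776760) (l 16776752)) (a (l 16776744) (l 16776736)))) (a (a (a (l 16776720) (l 16776704)) (a (l 16776688) (l 16776672))) (a (a (l 16776648) (l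 16776632)) (a (l 16776608) (l 16776584))))) (c (a (a (a (a (l 16776784) (l 16776776)) (a (l 16776776) (l 16776768))) (a (a (l 16776760) (l 16776752)) (a (l 16776744) (l 16776736)))) (a (a (a (l 16776720) (l 16776704)) (l 16776680)) (a (l 16776640) (l 16776600)))) (a (a (a (l 16776784) (l 16776776)) (a (l 16776760) (l 16776736))) (a (a (l 16776712) (l 16776680)) (a (l 16776640) (l 16776600)))))))))) (l 532086623))) (l 532088415))), by decide +kernel⟩

def k6_A00pm_112_s1 : ∃ t, chk3 f_A00pm_112_s1 t 19 167 1 = true :=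
  ⟨(a (b (l 532066895) (b (b (l 532071983) (b (b (l 532073263) (b (l 532073775) (b (l 532073775) (c (a (a (a (a (l 16776560) (l 16776528)) (a (l 16776504) (l 16776472))) (a (a (l 16776440) (l 16776408)) (a (l 16776376) (l 16776336)))) (a (a (a (l 16776296) (l 16776264)) (l 16776200)) (a (l 16776112) (l 16776016)))) (a (a (a (a (l 16776560) (l 16776536)) (l 16776488)) (a (l 16776424) (a (l 16776376) (l 16776336)))) (a (a (a (l 16776304) (l 16776264)) (a (l 16776224) (l 16776176))) (a (l 16776112) (l 16776016)))))))) (l 532074591))) (l 532076895))) (b (l 532041551) (b (b (l 532047151) (b (b (l 532048687) (b (l 532048943) (b (l 532049199) (a (a (a (c (l 16775912) (l 16775912)) (c (l 16775808) (l 16775808))) (c (a (l 16775696) (l 16775576)) (a (l 16775696) (l 16775576)))) (a (c (a (l 16775448) (l 16775312)) (a (l 16775448) (l 16775320))) (c (a (l 16775176) (l 16775032)) (l 16775104))))))) (l 532050015))) (l 532052575)))), by decide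 +kernel⟩

def k7_A00pm_112_s1 : ∃ t, chk3 f_A00pm_112_s1 t 4 21 1 = true :=
  ⟨(a (b (a (a (a (b (a (b (b (l 531955551) (l 16765808)) (l 16761368)) (l 531970143)) (b (l 16755728) (l 16749664))) (a (b (l 531987807) (l 16764248)) (l 532003935))) (l 532033887)) (l 532083039)) (a (a (a (b (l 16740352) (l 16727584)) (b (l 16742224) (l 16729960))) (a (b (l 16743584) (l 16731832)) (l 532074591))) (l 532120415))) (a (l 532131679) (l 532117599))), by decide +kernel⟩

def k8_A00pm_112_s1 : ∃ t, chk3 f_A00pm_112_s1 t 4 11 1 = true :=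
  ⟨(a (b (b (a (a (b (l 16715856) (l 16702488)) (b (l 16720616) (l 16708248))) (l 532149871)) (a (a (l 16723544) (l 16688840)) (a (l 16694096) (l 16697256)))) (a (b (a (l 16652024) (l 16661592)) (a (l 16622048) (l 16632328))) (b (a (l 16668816) (l 16674008)) (a (l 16641880) (l 16649048))))) (a (b (l 532221791) (a (l 532534623) (l 532310111))) (l 533341023))), by decide +kernel⟩

def k9_A00pm_112_s1 : ∃ t, chk3 f_A00pm_112_s1 t 5 10 1 = true :=
  ⟨(b (a (c (b (l 3) (a (b (l 3) (b (a (l 531990863) (a (l 531956815) (a (l 531937615) (a (l 531943503) (l 1))))) (b (b (a (l 532003151) (a (l 531969615) (l 531979663))) (l 531979855)) (b (b (l 531983663) (b (b (l 531985199) (b (l 531985711) (b (l 531985967) (a (a (a (a (l 16774872) (l 16774720)) (a (l 16774552) (l 16774376))) (a (l 16774104) (l 16773720))) (a (a (l 16773304) (l 16772864)) (a (l 16772392) (l 16771896))))))) (l 531986783))) (l 531992159))))) (b (l 1) (b (l 1) (b (l 1) (b (l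 1) (a (a (a (l 16770320) (l 1)) (l 1)) (l 1)))))))) (b (l 3) (a (b (l 3) (b (a (l 531997775) (a (l 531963983) (a (l 531944783) (a (l 531955535) (l 1))))) (b (b (a (l 532009807) (a (l 531976527) (l 531996559))) (l 531984975)) (b (b (l 531988783) (b (b (l 531990319) (b (l 531990831) (b (l 531991087) (a (a (a (l 16774800) (a (l 16774552) (l 16774384))) (a (l 16774112) (l 16773720))) (a (a (l 16773312) (l 16772864)) (a (l 16772400) (l 16771904))))))) (l 531991903))) (l 531998303))))) (b (l 1) (b (l 1) (a (a (b (l 1) (c (l 167537255399) (l 168074126327))) (l 1)) (l 1))))))) (l 1)) (a (a (l 532056415) (a (b (a (a (b (b (c (l 16772240) (l 16772256)) (l 16761696)) (l 16753800)) (b (b (l 68216148967) (l 16761024)) (l 16753112))) (b (b (l 1) (l 143378042599)) (b (l 16754472) (l 16749224)))) (b (a (l 16743000) (l 16741384)) (a (l 16732608) (l 16730984)))) (b (a (b (l 1) (l 144451753991)) (l 1)) (b (a (l 16739232) (l 16736720)) (a (l 16728864)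 (l 16726208)))))) (b (l 1) (a (a (b (l 1) (l 139619838439)) (l 1)) (l 1))))), by decide +kernel⟩

def k10_A00pm_112_s1 : ∃ t, chk3 f_A00pm_112_s1 t 5 11 1 = true :=
  ⟨(a (b (a (l 532194655) (b (a (b (l 16721528) (l 16711280)) (b (l 16717288) (l 16707040))) (a (l 16696024) (l 16691832)))) (a (l 532315743) (b (a (l 16675880) (l 16671768)) (l 533338223)))) (b (a (b (a (b (l 16711056) (l 16700704)) (l 136398545383)) (a (l 16685600) (b (l 16682456) (l 16672264)))) (a (b (l 1) (l 103112545591)) (l 1))) (a (b (a (l 16665568) (l 16657384)) (a (l 16645816) (l 16637664))) (b (a (l 16605272) (l 16636936)) (a (l 16627560) (l 16616616)))))), by decide +kernel⟩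

def k11_A00pm_112_s1 : ∃ t, chk3 f_A00pm_112_s1 t 2 3 1 = true :=
  ⟨(a (b (b (b (a (b (a (a (l 16592008) (l 16602656)) (a (l 16612920) (l 16622424))) (a (l 16525928) (l 16588552))) (a (b (l 16548144) (l 16606712)) (l 532400751))) (a (b (a (l 16540064) (l 16475752)) (a (a (l 16509680) (l 16517552)) (l 16530552))) (a (b (l 16578624) (l 16551032)) (l 532404847)))) (b (a (a (b (l 16445632) (a (l 6) (l 16466240))) (b (l 16503336) (l 16477208))) (a (b (l 16522760) (l 16494296)) (b (l 16541160) (l 16514288)))) (a (l 6) (l 6)))) (l 6)) (b (b (a (a (b (l 532419935) (l 532769887)) (a (l 532439391) (b (l 16622456) (l 16583600)))) (a (b (a (l 16616576) (l 16608584)) (b (l 16584040) (l 16565112))) (a (b (l 16598544) (l 16560744)) (b (l 16587696) (l 16549992))))) (b (a (a (l 532524911) (l 532840047)) (a (b (l 16546288) (l 16528264)) (l 16434560))) (l 6))) (l 6))), by decide +kernel⟩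

def k12_A00pm_112_s1 : ∃ t, chk3 f_A00pm_112_s1 t 3 1 1 = true :=
  ⟨(b (a (b (l 1) (b (l 1) (b (l 1) (a (a (a (l 131029612935) (l 1)) (l 1)) (l 1))))) (l 1)) (b (a (a (b (b (a (a (l 36540565783) (l 51036063255)) (a (b (l 1) (l 16551488)) (l 1))) (a (b (l 16544688) (l 16526144)) (a (l 16438800) (l 111165183975)))) (b (a (l 16414928) (a (l 16486448) (l 16395032))) (l 6))) (b (a (b (l 1) (a (l 105796441831) (l 1))) (l 1)) (b (a (a (l 16387680) (l 16381192)) (a (l 16375024) (l 1))) (l 6)))) (a (b (l 1) (l 6)) (l 1))) (l 6))), by decide +kernel⟩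

theorem t13_A00pm_112_s1 : ∃ t, chk3 f_A00pm_112_s1 t 5 5 1 = true := ex3_b k9_A00pm_112_s1 k10_A00pm_112_s1

theorem t14_A00pm_112_s1 : ∃ t, chk3 f_A00pm_112_s1 t 9 167 1 = true := ex3_a k5_A00pm_112_s1 k6_A00pm_112_s1

theorem t15_A00pm_112_s1 : ∃ t, chk3 f_A00pm_112_s1 t 4 167 1 = true := ex3_a k4_A00pm_112_s1 t14_A00pm_112_s1

theorem t16_A00pm_112_s1 : ∃ t, chk3 f_A00pm_112_s1 t 4 83 1 = true := ex3_b k3_A00pm_112_s1 t15_A00pm_112_s1

theorem t17_A00pm_112_s1 : ∃ t, chk3 f_A00pm_112_s1 t 4 41 1 = true := ex3_b k2_A00pm_112_s1 t16_A00pm_112_s1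

theorem t18_A00pm_112_s1 : ∃ t, chk3 f_A00pm_112_s1 t 4 20 1 = true := ex3_b k1_A00pm_112_s1 t17_A00pm_112_s1

theorem t19_A00pm_112_s1 : ∃ t, chk3 f_A00pm_112_s1 t 4 10 1 = true := ex3_b t18_A00pm_112_s1 k7_A00pm_112_s1

theorem t20_A00pm_112_s1 : ∃ t, chk3 f_A00pm_112_s1 t 4 5 1 = true := ex3_b t19_A00pm_112_s1 k8_A00pm_112_s1

theorem t21_A00pm_112_s1 : ∃ t, chk3 f_A00pm_112_s1 t 2 5 1 = true := ex3_a t20_A00pm_112_s1 t13_A00pm_112_s1

theorem t22_A00pm_112_s1 : ∃ t, chk3 f_A00pm_112_s1 t 2 2 1 = true := ex3_b k0_A00pm_112_s1 t21_A00pm_112_s1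

theorem t23_A00pm_112_s1 : ∃ t, chk3 f_A00pm_112_s1 t 2 1 1 = true := ex3_b t22_A00pm_112_s1 k11_A00pm_112_s1

theorem t24_A00pm_112_s1 : ∃ t, chk3 f_A00pm_112_s1 t 1 1 1 = true := ex3_a t23_A00pm_112_s1 k12_A00pm_112_s1

theorem c_A00pm_112_s1 : CertF 536870912 536870912 536870912 536870912 923417968 42949674 true true false .dn 1 1 2
    ndB0q1 ndB0q1 pcB2 cut_A00pm_112_s1 xt_A00pm_112_s1 :=
  certF1 (fam := true) (s1 := true) (s2 := false) (a := 1) (b := 1) (c := 2) (cn := .dn) (n1 := ndB0q1) (n2 := ndB0q1) (pc := pcB2) (cut := cut_A00pm_112_s1) (xt := xt_A00pm_112_s1) (P1 := 536870912) (W1 := 536870912) (P2 := 536870912) (W2 := 536870912) (P3 := 923417968) (W3 := 42949674)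
    rfl (fun _ => rfl) t24_A00pm_112_s1

theorem s_A00pm_112_s1 {κ x : ℝ} (hκ : κ * h0 = ken x) (hx : ((923417968 : ℕ) : ℝ) / S ≤ x)
    (hx' : x ≤ (((923417968 : ℕ) : ℝ) + (42949674 : ℕ)) / S) :
    AltA (VFD κ) PP tK tL pcB [⟨3, 0, 0, 1449551462⟩] 1 1 2 0 0 (sgb true) (sgb false) x :=
  strip_altAD (m := 1449551462) true rfl hκ (SH.κ0 hκ (SH.hx1 hx).le (SH.hx2 hx').le) (SH.hx1 hx).le (SH.hx2 hx') (covB01).cov (covB01).cov hx hx' c_A00pm_112_s1 cutA_nil ((okx hx hx').extA (T := tt) (sideB hx hx') hκ rfl rfl (.O 1 true) (.O 1 false) rfl)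

noncomputable def cut_A00pm_112_s3 : Cut := Cut.of [[⟨3, 0, 0, 2845415833⟩]]

noncomputable def f_A00pm_112_s3 : ℕ → ℕ → ℕ → ℕ → Bool := onCell 536870912 536870912 1073741824 536870912 923417968 42949674
    (rowF 1 true true false .dn 1 1 2 (qsf 536870912 536870912 536870912 536870912 2) ndB0q1 ndB0q1 pcB2 cut_A00pm_112_s3 Ext.none)

def k0_A00pm_112_s3 : ∃ t, chk3 f_A00pm_112_s3 t 1 1 1 = true :=
  ⟨(l 6), by decide +kernel⟩

theorem c_A00pm_112_s3 : CertF 536870912 536870912 536870912 536870912 923417968 42949674 true true false .dn 1 1 2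
    ndB0q1 ndB0q1 pcB2 cut_A00pm_112_s3 Ext.none :=
  certF1 (fam := true) (s1 := true) (s2 := false) (a := 1) (b := 1) (c := 2) (cn := .dn) (n1 := ndB0q1) (n2 := ndB0q1) (pc := pcB2) (cut := cut_A00pm_112_s3) (xt := Ext.none) (P1 := 536870912) (W1 := 536870912) (P2 := 536870912) (W2 := 536870912) (P3 := 923417968) (W3 := 42949674)
    rfl (fun _ => rfl) k0_A00pm_112_s3

theorem s_A00pm_112_s3 {κ x : ℝ} (hκ : κ * h0 = ken x) (hx : ((923417968 : ℕ) : ℝ) / S ≤ x)
    (hx' : x ≤ (((923417968 : ℕ) : ℝ) + (42949674 : ℕ)) / S) :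
    AltA (VFD κ) PP tK tL pcB [⟨4, 0, 0, 2845415833⟩] 1 1 2 0 0 (sgb true) (sgb false) x :=
  strip_altAD (m := 2845415833) false rfl hκ (SH.κ0 hκ (SH.hx1 hx).le (SH.hx2 hx').le) (SH.hx1 hx).le (SH.hx2 hx') (covB01).cov (covB01).cov hx hx' c_A00pm_112_s3 cutA_nil (noExt_A)

noncomputable def cut_A00pm_113_s1 : Cut := Cut.of [[⟨4, 0, 0, 1449551462⟩], [⟨0, 1, 0, 67108864⟩, ⟨1, 1, 0, 67108864⟩, ⟨2, 2, 0, 16252928⟩], [⟨0, 0, 1, 20971520⟩, ⟨1, 1, 0, 8388608⟩, ⟨2, 1, 1, 20971520⟩], [⟨0, 1, 0, 8388608⟩, ⟨1, 0, 1, 20971520⟩, ⟨2, 1, 1, 20971520⟩]]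

noncomputable def f_A00pm_113_s1 : ℕ → ℕ → ℕ → ℕ → Bool := onCell 536870912 536870912 1610612736 536870912 923417968 42949674
    (rowF 1 true true false .nn 1 1 3 (qsf 536870912 536870912 536870912 536870912 3) ndB0q1 ndB0q1 pcB3 cut_A00pm_113_s1 Ext.none)

def k0_A00pm_113_s1 : ∃ t, chk3 f_A00pm_113_s1 t 1 1 1 = true :=
  ⟨(b (a (b (l 6) (l 6)) (l 6)) (l 6)), by decide +kernel⟩

theorem c_A00pm_113_s1 : CertF 536870912 536870912 536870912 536870912 923417968 42949674 true true false .nn 1 1 3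
    ndB0q1 ndB0q1 pcB3 cut_A00pm_113_s1 Ext.none :=
  certF1 (fam := true) (s1 := true) (s2 := false) (a := 1) (b := 1) (c := 3) (cn := .nn) (n1 := ndB0q1) (n2 := ndB0q1) (pc := pcB3) (cut := cut_A00pm_113_s1) (xt := Ext.none) (P1 := 536870912) (W1 := 536870912) (P2 := 536870912) (W2 := 536870912) (P3 := 923417968) (W3 := 42949674)
    rfl (fun _ => rfl) k0_A00pm_113_s1

theorem s_A00pm_113_s1 {κ x : ℝ} (hκ : κ * h0 = ken x) (hx : ((923417968 : ℕ) : ℝ) / S ≤ x)
    (hx' : x ≤ (((923417968 : ℕ) : ℝ) + (42949674 : ℕ)) / S)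
    (H : CutA (VFD κ) PP tK tL pcB (Cut.of [[⟨0, 1, 0, 67108864⟩, ⟨1, 1, 0, 67108864⟩, ⟨2, 2, 0, 16252928⟩], [⟨0, 0, 1, 20971520⟩, ⟨1, 1, 0, 8388608⟩, ⟨2, 1, 1, 20971520⟩], [⟨0, 1, 0, 8388608⟩, ⟨1, 0, 1, 20971520⟩, ⟨2, 1, 1, 20971520⟩]]) 1 1 3 0 0 (sgb true) (sgb false) x) :
    AltA (VFD κ) PP tK tL pcB [⟨3, 0, 0, 1449551462⟩] 1 1 3 0 0 (sgb true) (sgb false) x :=
  strip_altAD (m := 1449551462) true rfl hκ (SH.κ0 hκ (SH.hx1 hx).le (SH.hx2 hx').le) (SH.hx1 hx).le (SH.hx2 hx') (covB01).cov (covB01).cov hx hx' c_A00pm_113_s1 H (noExt_A)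

end Pool.Agent.Strip051.G.I8600_9000.Tab.St.C
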