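import Pool.Agent.Strip051.G.I8600_9000.Tab
import Pool.Agent.Strip051.PB.StripB

/-! # Strips, near vertex: certificates 5 (generated) -/

set_option linter.all false
set_option maxRecDepth 100000

namespace Pool.Agent.Strip051.G.I8600_9000.Tab.CS.BB00

open Pool.Agent.Strip051.PB Pool.Agent.Strip051.PB.T
open Pool.Agent.Strip051.G.I8600_9000.Tab

noncomputable def cut_pm_011_t : Cut := Cut.of [[⟨3, 0, 0, 2845415833⟩], [⟨0, 0, 0, 67108864⟩, ⟨1, 1, 0, 67108864⟩, ⟨2, 1, 0, 67108864⟩]]

noncomputable def f_pm_011_t : ℕ → ℕ → ℕ → ℕ → Bool := onCell 0 536870912 536870912 536870912 923417968 42949674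
    (rowNE 3 eng mog cd0q0 cd0q1 pd1 0 false true false .pnn 0 1 1 (qsf 0 536870912 536870912 536870912 1) ndB0q0 ndB0q1 pcB1 cut_pm_011_t Ext.none)

def k0_pm_011_t : ∃ t, chk3 f_pm_011_t t 1 2 1 = true :=
  ⟨(a (l 4) (b (l 1) (a (l 4) (l 1)))), by decide +kernel⟩

def k1_pm_011_t : ∃ t, chk3 f_pm_011_t t 2 6 1 = true :=
  ⟨(a (l 4) (a (l 4) (b (l 4) (b (l 4) (a (b (l 4) (a (l 4) (b (l 4) (a (l 4) (a (l 4) (b (l 4) (c (l 103314036343) (l 103314035719)))))))) (b (a (l 4) (a (b (l 4) (b (l 4) (c (a (l 117809531943) (l 16753784)) (l 103850882023)))) (c (b (b (l 4) (l 184918406327)) (c (l 75396738791) (l 77544220631))) (b (l 226794351447) (b (l 96334707223) (l 16768752)))))) (a (b (a (l 4) (b (a (l 4) (c (l 109219608279) (l 16741688))) (c (c (l 16754488) (l 16743736)) (l 93113488199)))) (c (a (a (b (l 111903957415) (l 16773248)) (l 73249276647)) (l 16763616)) (a (a (b (l 111903956535) (l 16772528)) (l 75396755911)) (l 16761344)))) (c (b (a (b (l 73249283367) (l 16764800)) (l 16757632)) (a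 (l 16752376) (l 16741000))) (b (a (a (l 16749456) (l 16764296)) (l 16754472)) (a (l 16748272) (l 16714096))))))))))), by decide +kernel⟩

def k2_pm_011_t : ∃ t, chk3 f_pm_011_t t 4 14 1 = true :=
  ⟨(a (l 4) (b (l 4) (a (l 4) (b (l 4) (a (l 4) (b (l 4) (b (a (l 4) (a (l 4) (c (a (a (l 286387059383) (l 247195487831)) (b (l 292829514119) (l 16776368))) (c (c (l 232699972727) (l 232163100615)) (c (l 232163099399) (l 232699969111)))))) (b (a (l 4) (c (a (a (l 268133457015) (c (l 16777016) (l 16776928))) (l 16773656)) (a (a (b (l 4) (l 123178327751)) (c (l 16776832) (l 16776728))) (l 16773136)))) (a (a (l 4) (c (c (l 213372627399) (l 228941881719)) (a (l 291755767991) (c (l 55532593303) (l 16775160))))) (c (a (l 16774344) (l 16769752)) (c (l 53385074999) (l 16771000)))))))))))), by decide +kernel⟩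

def k3_pm_011_t : ∃ t, chk3 f_pm_011_t t 8 30 1 = true :=
  ⟨(a (l 4) (b (l 4) (a (l 4) (b (l 4) (a (l 4) (b (l 4) (a (l 4) (b (l 4) (b (a (l 4) (a (l 4) (b (c (l 188676575127) (l 192971542455)) (c (l 16777152) (l 35668364871))))) (a (b (l 4) (a (l 4) (c (l 65196264967) (c (l 16777248) (l 16777224))))) (c (a (c (l 16776808) (l 16776736)) (l 16775744)) (a (c (l 16776672) (l 16776592)) (l 16775408))))))))))))), by decide +kernel⟩

def k4_pm_011_t : ∃ t, chk3 f_pm_011_t t 16 31 1 = true :=
  ⟨(b (b (l 4) (l 14)) (l 14)), by decide +kernel⟩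

def k5_pm_011_t : ∃ t, chk3 f_pm_011_t t 68 62 1 = true :=
  ⟨(b (l 4) (b (b (l 4) (l 14)) (l 14))), by decide +kernel⟩

def k6_pm_011_t : ∃ t, chk3 f_pm_011_t t 138 62 1 = true :=
  ⟨(b (l 4) (a (b (b (l 4) (b (b (b (l 4) (l 14)) (l 14)) (l 14))) (l 14)) (b (b (b (l 4) (a (a (l 4) (b (l 4) (b (l 4) (c (l 16777280) (l 16778240))))) (b (a (l 4) (b (l 4) (c (l 16777232) (l 16777200)))) (c (c (l 16776760) (l 16776704)) (c (l 16776632) (l 16776568)))))) (a (c (b (b (c (l 16777472) (l 16776760)) (l 16775712)) (l 16773992)) (b (b (c (l 16777680) (l 16776640)) (l 16775352)) (l 16773232))) (c (c (l 16771504) (l 16773760)) (c (l 16773376) (l 16772968))))) (b (a (l 14) (b (c (l 16770520) (l 16763688)) (l 14))) (l 14))))), by decide +kernel⟩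

def k7_pm_011_t : ∃ t, chk3 f_pm_011_t t 139 62 1 = true :=
  ⟨(a (b (l 4) (b (b (b (b (a (l 4) (a (c (l 191897799351) (l 195119024871)) (c (l 63585651271) (a (l 117809613095) (l 16778152))))) (a (a (l 4) (b (l 4) (c (l 16777176) (l 16777144)))) (c (l 16777264) (a (l 16777464) (l 16776136))))) (a (c (c (l 16776512) (l 16776056)) (c (b (l 16776568) (l 16775304)) (l 16775784))) (c (l 16774960) (l 16774432)))) (c (c (l 16771136) (l 16771888)) (c (b (l 16772624) (l 16759480)) (b (l 16761656) (l 16758712))))) (b (c (c (l 16768168) (l 16767088)) (c (l 16760712) (l 16759512))) (a (l 14) (c (l 16762504) (l 16748488)))))) (b (b (l 4) (b (l 4) (b (l 4) (b (a (l 4) (a (c (l 162369899175) (l 162906770215)) (c (l 16778496) (a (l 68954360039) (l 16777048))))) (a (a (c (l 175791672055) (l 181160381159)) (c (l 49090136615) (a (l 84523616599) (l 16777104)))) (c (l 16776480) (l 16776632))))))) (b (b (c (b (c (a (l 16776064) (l 16774968)) (l 16775312)) (l 16771888)) (c (a (b (l 16775784) (l 16762704))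 (l 16773128)) (b (l 16774872) (l 16761528)))) (c (c (l 16770256) (l 16769440)) (c (b (l 16759400) (l 16756768)) (l 16762416)))) (c (b (c (l 16766016) (l 16759440)) (c (l 16761744) (l 16749400))) (b (c (l 16752784) (l 16751304)) (a (l 16747104) (l 16745728))))))), by decide +kernel⟩

def k8_pm_011_t : ∃ t, chk3 f_pm_011_t t 70 124 1 = true :=
  ⟨(b (a (l 4) (b (l 4) (a (a (l 4) (a (l 4) (b (l 4) (c (l 240753050999) (l 247732371495))))) (a (b (l 4) (b (a (l 4) (c (l 146263771895) (l 146800642935))) (c (l 16778272) (c (l 16776896) (l 16776848))))) (c (b (c (l 228405020151) (l 232163116519)) (c (l 16776432) (l 16776328))) (c (b (l 235384341959) (l 16776224)) (b (l 238605567399) (l 16776120)))))))) (a (a (b (l 4) (b (b (a (l 4) (a (c (l 126936419111) (l 126399547671)) (c (l 16777080) (l 16778328)))) (a (a (c (l 144116288231) (l 144653159271)) (c (l 16777136) (a (l 16778536) (l 16776976)))) (c (l 16776344) (l 16776136)))) (c (c (l 16775392) (l 16775176)) (c (l 16774952) (l 16774720))))) (b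 (b (l 4) (b (a (l 4) (a (c (l 99019131463) (l 93650422631)) (c (l 16776952) (l 16776872)))) (a (c (c (l 53385103943) (l 16778496)) (c (l 48016395191) (l 16778432))) (c (l 16776200) (l 16775968))))) (c (c (c (l 16769080) (l 16774152)) (l 16772584)) (c (b (l 16774800) (l 16761776)) (l 16771840))))) (c (b (b (a (a (b (l 247195501751) (a (l 16778640) (l 16776880))) (c (l 16777880) (l 16776480))) (l 16772256)) (a (l 16773704) (l 16772752))) (c (a (l 16766848) (l 16769968)) (a (l 16771496) (l 16769136)))) (b (a (a (b (a (b (l 4) (l 77544295223)) (b (l 187602832135) (l 16776784))) (l 16775216)) (b (c (b (l 16776968) (l 16775848)) (l 16776288)) (l 16773808))) (c (l 16773240) (l 16772824))) (c (a (l 16770872) (l 16757760)) (b (l 16770144) (l 16756872))))))), by decide +kernel⟩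

def k9_pm_011_t : ∃ t, chk3 f_pm_011_t t 71 124 1 = true :=
  ⟨(b (a (b (b (b (l 4) (a (l 4) (a (l 4) (c (l 92576681575) (c (l 16778704) (l 16777376)))))) (a (a (l 4) (a (l 4) (b (l 4) (c (l 16777376) (l 16778656))))) (a (b (c (l 105998454423) (c (l 107609066631) (l 16777448))) (c (l 16776664) (l 16776528))) (c (l 16776080) (l 16775808))))) (c (a (b (a (b (l 130694516535) (l 16776816)) (l 16776232)) (l 16772104)) (c (l 16768408) (l 16773336))) (a (b (b (a (a (l 4) (l 110830291751)) (l 16776616)) (a (l 16778016) (l 16775400))) (l 16772848)) (c (l 16772920) (l 16772472))))) (c (b (a (b (a (b (l 78618037815) (l 16776504)) (l 16775912)) (l 16774424)) (c (l 16773232) (l 16773032))) (c (l 16767688) (l 16764624))) (b (a (b (a (b (a (l 154853706663) (l 16777120)) (l 16776336)) (l 16775616)) (l 16773784)) (c (l 16772576) (l 16772104))) (c (l 16766440) (l 16768216))))) (c (a (c (b (c (l 16765352) (l 16770656)) (l 16761576)) (b (l 16767480) (l 16765656))) (b (c (l 16761048) (l 16765512)) (a (l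 16757800) (l 16750448)))) (a (c (a (b (l 16770616) (l 16755176)) (b (l 16757552) (l 16752624))) (b (l 16767848) (l 16755168))) (b (c (l 16764224) (l 16752376)) (c (l 16748856) (l 16746968)))))), by decide +kernel⟩

def k10_pm_011_t : ∃ t, chk3 f_pm_011_t t 35 125 1 = true :=
  ⟨(a (b (c (a (c (b (a (l 16769656) (l 16770128)) (c (l 16762080) (l 16766744))) (b (a (l 16771704) (l 16769296)) (a (l 16767024) (l 16764664)))) (b (c (l 16764336) (l 16763144)) (c (l 16757632) (l 16761184)))) (a (b (c (a (l 16771096) (l 16763184)) (a (l 16770456) (l 16757016))) (a (c (l 16755408) (l 16754208)) (c (l 16752776) (l 16751296)))) (b (a (c (l 16755312) (l 16754104)) (c (l 16752720) (l 16751248))) (c (l 16748904) (l 16747016))))) (c (a (b (c (l 16757608) (l 16761144)) (c (l 16758640) (l 16748552))) (b (c (l 16758768) (l 16756568)) (c (l 16754640) (l 16741440)))) (a (b (c (l 16751472) (c (l 16747432) (l 16746456))) (c (l 16743568) (l 16741088))) (c (b (l 16743760) (l 16728080)) (b (l 16741304) (l 16746024))))))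 (a (b (c (b (a (l 16757864) (l 16755720)) (c (l 16758848) (l 16756672))) (b (c (l 16748904) (l 16747024)) (c (l 16743880) (l 16730960)))) (b (c (c (l 16754816) (l 16752136)) (a (l 16728144) (l 16725568))) (c (l 16743952) (l 16731952)))) (b (b (c (b (l 16753616) (l 16746288)) (c (l 16733456) (l 16731024))) (c (c (l 16754408) (l 16752288)) (l 16736208))) (c (b (l 16738944) (l 16734720)) (b (l 16732256) (l 16716472)))))), by decide +kernel⟩

def k11_pm_011_t : ∃ t, chk3 f_pm_011_t t 17 63 1 = true :=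
  ⟨(a (a (l 14) (a (l 14) (a (l 14) (b (b (b (c (l 16751024) (l 16740712)) (l 14)) (l 14)) (l 14))))) (a (a (b (b (b (c (c (l 16754416) (l 16741168)) (a (l 16738040) (l 16735416))) (c (l 16743288) (a (l 16721864) (l 16740256)))) (b (b (c (l 16745120) (l 16737256)) (l 14)) (l 14))) (l 14)) (b (b (c (b (l 16743648) (l 16744464)) (b (a (l 16722344) (l 16740768)) (l 16725992))) (b (c (b (l 16741136) (c (l 16741080) (l 16737304))) (b (a (l 16733512) (l 16731184)) (a (a (l 16721480) (l 16720736)) (l 16720040)))) (c (l 16737016) (b (l 16732808) (l 16734896))))) (b (b (c (l 16734288) (l 16722512)) (l 14)) (l 14)))) (b (c (b (a (c (l 16734168) (l 16740680)) (b (l 16740968) (b (l 16737776) (l 16725288)))) (c (b (a (l 16738472) (l 16734800)) (l 16732240)) (b (a (l 16734920) (l 16732088)) (l 16732280)))) (b (a (b (l 16726528) (l 16710584)) (b (l 16711144) (b (l 16728104) (a (l 16705936) (l 16704208))))) (b (a (b (a (l 16718752) (l 16717264)) (l 16729752)) (b (l 16716232) (l 16728744))) (a (l 16732848)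 (l 16730416))))) (b (c (b (c (l 16727944) (l 16727408)) (c (l 16723704) (l 16720512))) (b (a (l 16704688) (l 16697344)) (a (l 16687152) (l 16685056)))) (b (c (a (l 16700552) (l 16695480)) (b (l 16668896) (a (l 14) (l 16671600)))) (l 16665144)))))), by decide +kernel⟩

def k12_pm_011_t : ∃ t, chk3 f_pm_011_t t 18 60 1 = true :=
  ⟨(a (l 4) (b (l 4) (a (l 4) (b (l 4) (a (b (l 4) (a (l 4) (c (b (l 254174823639) (l 31910269399)) (b (l 310009390407) (c (l 16776944) (l 16776872)))))) (a (b (c (l 257396047943) (l 301956323063)) (c (b (l 16776824) (l 16774800)) (c (l 16775672) (l 16775488)))) (c (b (b (l 136063229287) (l 16776592)) (l 16773480)) (b (b (c (l 140895066391) (l 139821324775)) (l 16779024)) (l 16773136))))))))), by decide +kernel⟩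

def k13_pm_011_t : ∃ t, chk3 f_pm_011_t t 36 122 1 = true :=
  ⟨(a (l 4) (b (l 4) (a (b (l 4) (a (l 4) (a (l 4) (a (l 4) (c (l 243974277543) (l 256859176295)))))) (a (b (l 4) (b (c (l 223573182391) (a (l 4) (l 147337515287))) (c (c (l 16779448) (l 16776752)) (c (l 16779288) (l 16776584))))) (b (b (l 4) (c (l 207467054727) (c (l 145726904695) (l 147874388311)))) (c (b (c (l 16776648) (l 16776552)) (l 16774600)) (a (c (l 16775984) (l 16775832)) (l 16774720)))))))), by decide +kernel⟩

def k14_pm_011_t : ∃ t, chk3 f_pm_011_t t 36 123 1 = true :=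
  ⟨(b (b (a (l 4) (a (a (a (b (l 4) (b (l 4) (c (l 16777232) (l 16777176)))) (c (b (l 256859178823) (l 16776720)) (b (l 191897802519) (c (l 16776608) (l 16776528))))) (c (b (a (l 77007426407) (l 16776528)) (l 16775072)) (b (c (c (l 16776888) (l 16776848)) (l 16779744)) (l 16774704)))) (c (c (l 16772472) (l 16772728)) (c (l 16772240) (l 16771720))))) (a (a (l 4) (b (a (l 4) (a (b (l 4) (c (l 16777392) (l 85060488999))) (c (l 16779520) (c (l 16776808) (l 16776744))))) (a (a (b (l 4) (c (l 118346485415) (l 116199002039))) (c (c (l 16777096) (l 16777048)) (c (l 16776992) (l 16776944)))) (c (l 16775528) (l 16775168))))) (c (a (c (l 16770360) (l 16767880)) (c (l 16768232) (l 16768680))) (a (c (l 16770048) (l 16772200)) (c (l 16767736) (l 16766744)))))) (a (a (b (b (a (l 4) (c (a (l 227868149239) (c (l 43184557591) (l 16778480))) (a (c (l 171496706791) (l 172033577767)) (c (l 36742107111) (l 16777072))))) (a (c (a (l 247732373223) (c (l 63048781623) (l 59290685495))) (a (l 255248565943) (b (l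 163980513303) (l 16776928)))) (c (a (l 16776448) (l 16775392)) (c (l 16775680) (l 16775512))))) (c (a (b (c (l 16776120) (l 16776008)) (l 16774104)) (l 16770320)) (a (b (c (l 16775872) (l 16775720)) (l 16773400)) (c (l 16772224) (l 16771704))))) (a (c (b (c (l 16774632) (l 16774616)) (l 16765560)) (b (c (l 16774328) (l 16774032)) (l 16769320))) (c (b (l 16767304) (l 16768600)) (c (l 16766904) (l 16768728))))) (c (c (a (c (l 16761184) (l 16761704)) (l 16759288)) (a (c (l 16756744) (l 16756192)) (l 16757320))) (a (c (b (l 16768112) (l 16763520)) (b (l 16767152) (l 16741088))) (b (l 16759848) (l 16757664)))))), by decide +kernel⟩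

def k15_pm_011_t : ∃ t, chk3 f_pm_011_t t 37 61 1 = true :=
  ⟨(b (a (a (a (b (l 4) (b (b (a (l 4) (c (l 100629746503) (l 96334778407))) (c (l 16777712) (c (l 16776240) (l 16776120)))) (c (l 16773328) (l 16772784)))) (b (b (l 4) (a (c (l 256859179975) (l 329336746199)) (b (l 4) (c (l 16779344) (l 57143202935))))) (c (b (b (l 16776168) (l 16774096)) (l 16771040)) (b (c (l 16774928) (l 16774672)) (l 16770208))))) (b (b (b (l 4) (a (l 4) (c (c (l 72712459127) (l 70564975863)) (c (l 68417492503) (l 16776408))))) (a (b (c (c (l 90966070471) (l 90429199799)) (c (l 87744845607) (l 84523620471))) (c (l 16775904) (l 16775688))) (c (l 16774600) (l 16769040)))) (c (c (l 16766616) (l 16759416)) (c (l 16763856) (l 16768240))))) (b (a (c (b (a (b (c (l 16779856) (l 16777160)) (l 16775352)) (l 16774048)) (l 16765864)) (b (a (b (a (l 109756552567) (l 16776688)) (l 16775152)) (l 16773728)) (l 16767832))) (c (c (l 16757576) (l 16758448)) (c (l 16768088) (l 16767112)))) (c (c (a (l 16764368) (l 16759488))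 (b (l 16754832) (l 16750896))) (c (a (l 16764232) (l 16759376)) (a (l 16762848) (l 16736488)))))) (a (b (c (c (a (l 16762928) (l 16760704)) (a (l 16761064) (l 16751464))) (c (a (l 16759856) (l 16760240)) (a (l 16763816) (l 16737464)))) (c (a (b (l 16749600) (l 16745600)) (b (l 16744984) (l 16740968))) (a (c (l 16756088) (l 16732848)) (l 16744664)))) (b (c (a (b (l 16758896) (l 16754856)) (a (l 16742904) (l 16740584))) (a (c (l 16755408) (l 16732096)) (l 16749168))) (c (c (a (l 16747344) (l 16742456)) (l 16737024)) (c (l 16744112) (l 16724768)))))), by decide +kernel⟩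

def k16_pm_011_t : ∃ t, chk3 f_pm_011_t t 38 60 1 = true :=
  ⟨(b (a (l 4) (b (a (l 4) (b (l 4) (a (l 4) (c (l 258469783575) (b (l 4) (l 102240361991)))))) (a (a (b (l 4) (b (c (l 176865418727) (l 177402289959)) (c (l 16777040) (l 16780512)))) (c (b (l 290682037511) (l 16775832)) (b (l 287997675271) (c (l 16775648) (l 16775464))))) (c (b (a (c (l 42110819143) (l 39426464999)) (l 16775160)) (l 16772256)) (b (a (b (l 128010165831) (l 16776320)) (l 16774912)) (l 16771800)))))) (a (b (b (a (l 4) (a (b (l 4) (c (l 72175589991) (a (l 146263774679) (l 16776992)))) (c (b (l 16779648) (l 16775384)) (c (l 16776224) (l 16776080))))) (c (a (a (l 238068693191) (b (l 94187297607) (l 16776008))) (l 16768240)) (c (a (a (l 278870876743) (b (l 16779592) (l 16775912))) (l 16773352)) (a (a (l 277260260183) (l 9361694247)) (l 16772936))))) (c (a (b (a (l 16775280) (l 16772904)) (l 16769968)) (c (l 16766848) (l 16767840))) (a (b (c (l 16773936) (l 16773576)) (l 16769296)) (c (l 16766952) (l 16765856)))))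 (c (b (a (c (l 16770520) (l 16771152)) (c (l 16765624) (l 16766736))) (c (l 16756920) (l 16756000))) (b (c (c (l 16757888) (l 16762664)) (a (l 16769896) (l 16764448))) (c (l 16754328) (l 16757688)))))), by decide +kernel⟩

def k17_pm_011_t : ∃ t, chk3 f_pm_011_t t 39 60 1 = true :=
  ⟨(b (a (a (c (b (c (b (l 251490460903) (a (l 16776816) (l 16774360))) (b (l 257396037751) (l 16778264))) (c (l 16769240) (l 16770000))) (b (b (c (l 257396034583) (l 256859160519)) (a (b (l 78081170679) (l 16775664)) (l 16774208))) (c (l 16769248) (l 16768408)))) (c (b (b (a (l 16776208) (l 16773832)) (l 16771000)) (l 16754536)) (b (a (c (l 16773920) (l 16773552)) (l 16771224)) (l 16758336)))) (c (b (c (l 16760344) (l 16755912)) (c (l 16757336) (l 16758648))) (b (c (l 16759984) (l 16763976)) (c (l 16756624) (l 16754456))))) (a (c (c (b (l 16758408) (l 16750000)) (b (l 16749600) (l 16752328))) (b (c (l 16758192) (l 16756168)) (c (l 16749552) (l 16725616)))) (c (b (c (l 16749080) (l 16750848)) (b (l 16734080)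 (l 16719664))) (b (c (l 16747944) (l 16723872)) (l 16737216))))), by decide +kernel⟩

def k18_pm_011_t : ∃ t, chk3 f_pm_011_t t 19 61 1 = true :=
  ⟨(a (b (a (c (c (b (a (l 16763168) (l 16758288)) (l 16746936)) (b (a (l 16764512) (l 16760112)) (l 16749376))) (b (a (c (l 16763216) (l 16761720)) (l 16752088)) (a (l 16753312) (l 16748160)))) (c (b (c (l 16751040) (l 16743096)) (a (l 16736016) (l 16721008))) (b (c (l 16750928) (l 16727120)) (c (l 16742224) (l 16717448))))) (b (a (c (c (l 16743664) (l 16736296)) (c (l 16743312) (l 16718648))) (c (a (l 16717464) (l 16712968)) (l 16720640))) (a (c (a (l 16723808) (l 16713960)) (c (l 16734496) (l 16708816))) (c (a (l 16709408) (l 16704920)) (l 16716616))))) (b (b (a (c (a (l 16735048) (l 16720160)) (c (l 16740856) (l 16715960))) (c (b (l 16715728) (l 16711784)) (l 16727976))) (a (c (b (l 16716360) (l 16712368)) (l 16729712)) (c (c (l 16724160) (l 16727352)) (l 16718712)))) (c (a (c (a (l 16722792) (l 16718224)) (l 16714584)) (b (l 16697936) (l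 16689952))) (a (b (l 16720488) (l 16711240)) (c (l 16708552) (l 16679976)))))), by decide +kernel⟩

def k19_pm_011_t : ∃ t, chk3 f_pm_011_t t 18 124 1 = true :=
  ⟨(a (a (b (c (c (a (b (l 16764576) (l 16765744)) (c (l 16757520) (l 16753000))) (a (b (l 16769608) (l 16765336)) (b (l 16765128) (l 16760912)))) (a (c (b (l 16768776) (l 16764024)) (b (l 16767896) (l 16752160))) (b (c (l 16763792) (l 16751888)) (c (l 16738120) (l 16736192))))) (c (c (a (c (l 16759216) (l 16749664)) (l 16749712)) (a (b (l 16761040) (l 16756720)) (l 16749296))) (a (c (l 16756176) (a (l 16745544) (l 16732336))) (b (l 16753152) (l 16737640))))) (c (c (b (a (l 16753120) (l 16753544)) (a (l 16739648) (l 16745240))) (b (a (l 16753408) (l 16743864)) (b (l 16739776) (l 16746080)))) (b (a (c (l 16756560) (l 16743856)) (c (l 16751744) (l 16728008))) (c (a (l 16726224) (l 16721496)) (a (l 16722952) (l 16717672)))))) (a (c (c (b (a (l 16748672) (l 16743776)) (c (l 16726368) (l 16738864))) (b (c (l 16738120) (l 16747160))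 (l 16729368))) (b (c (l 16739368) (a (l 16722696) (l 16717424))) (c (l 16735464) (l 16709840)))) (b (c (c (l 16733792) (l 16718584)) (c (l 16735160) (l 16709520))) (c (a (l 16711848) (l 16707144)) (c (l 16726168) (l 16699432)))))), by decide +kernel⟩

def k20_pm_011_t : ∃ t, chk3 f_pm_011_t t 18 125 1 = true :=
  ⟨(a (a (c (c (b (a (l 16747744) (l 16736384)) (a (l 16733280) (l 16738872))) (b (a (l 16750192) (l 16745976)) (a (l 16741424) (l 16737352)))) (b (c (a (l 16736640) (l 16721424)) (a (l 16733400) (l 16717632))) (a (b (l 16716800) (l 16711584)) (b (l 16711904) (l 16706768))))) (b (c (c (b (l 16731056) (l 16737464)) (l 16734544)) (a (c (l 16716760) (l 16712408)) (l 16714968))) (c (a (l 16720096) (l 16710512)) (a (l 16707160) (l 16699784))))) (c (b (a (a (l 16718688) (l 16708680)) (a (l 16703912) (l 16699160))) (a (b (l 16705208) (a (l 16703680) (a (l 16699968) (l 16697440)))) (b (a (l 16718920) (l 16693064)) (c (l 16709464) (l 16714544))))) (b (a (c (l 16705296) (l 16699544)) (c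 (l 16696200) (l 16710296))) (a (b (l 16695152) (a (a (l 16694032) (l 16692064)) (c (l 16713912) (l 16691560)))) (b (a (l 16709272) (c (l 16708992) (l 16680496))) (a (b (l 16707336) (l 16708992)) (l 16706632))))))), by decide +kernel⟩

def k21_pm_011_t : ∃ t, chk3 f_pm_011_t t 19 62 1 = true :=
  ⟨(b (b (a (c (a (a (l 16710504) (l 16705896)) (c (l 16717016) (l 16722464))) (a (c (l 16725656) (l 16698896)) (l 16712560))) (c (a (l 16690272) (l 16681896)) (c (l 16700800) (l 16660680)))) (a (c (a (b (l 16702152) (l 16698128)) (l 16690984)) (a (l 16692440) (l 16703264))) (a (c (l 16682152) (l 16692784)) (a (c (l 16675752) (l 16679872)) (b (l 16670424) (c (l 16690560) (l 16678184))))))) (a (b (a (a (b (l 16695104) (l 16690944)) (b (l 16690704) (c (l 16687664) (l 16699784)))) (c (b (l 16684856) (a (l 16682952) (l 16678224))) (b (l 16675624) (a (l 16685336) (l 16692704))))) (c (a (b (a (l 16688144) (l 16704128)) (l 16701736)) (c (l 16692712) (l 16695912))) (a (b (b (c (l 16704160) (l 16675488))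 (l 16701568)) (l 16704280)) (c (l 16699328) (l 16697080))))) (a (b (c (b (a (l 16678104) (l 16673664)) (l 16692128)) (b (b (l 16666840) (l 16661080)) (l 16689536))) (c (l 16684792) (l 16667336))) (b (c (b (l 16656560) (l 16683152)) (b (l 16660392) (l 16684800))) (c (l 16675808) (l 16676144)))))), by decide +kernel⟩

def k22_pm_011_t : ∃ t, chk3 f_pm_011_t t 9 63 2 = true :=
  ⟨(a (b (a (a (b (a (b (l 16737168) (b (l 16734112) (l 16732424))) (b (l 16723000) (c (l 16729192) (l 16728032)))) (a (c (l 16728864) (l 16728920)) (c (l 16724032) (l 16723136)))) (b (b (a (b (l 16730840) (l 16708080)) (a (l 16710968) (l 16703136))) (c (l 16721936) (l 16724080))) (c (l 16716728) (l 16714448)))) (a (b (b (a (l 16701792) (l 16714864)) (l 16712528)) (c (l 16706960) (l 16702912))) (b (c (l 16704304) (l 16704792)) (c (l 16697304) (l 16691544))))) (a (b (a (b (l 16705464) (l 16692400)) (c (l 16709656) (l 16700856))) (b (a (c (l 16712168) (l 16703096)) (l 16677736)) (l 16702952))) (a (b (c (l 16699864) (l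 16689320)) (l 16667480)) (b (b (l 16686760) (l 16660584)) (l 16678624))))) (a (b (b (a (l 16699536) (l 16684376)) (a (c (l 16687848) (l 16680456)) (l 16674280))) (b (c (l 16676272) (b (l 16643944) (l 16637568))) (l 16664312))) (b (b (a (l 16674872) (l 16665888)) (c (l 16665720) (l 16612616))) (b (b (l 16631544) (l 16627400)) (l 16646600))))), by decide +kernel⟩

def k23_pm_011_t : ∃ t, chk3 f_pm_011_t t 9 63 3 = true :=
  ⟨(a (b (b (a (a (b (a (l 16706344) (c (l 16704672) (l 16699064))) (c (a (b (l 16726544) (l 16725984)) (l 16723872)) (a (b (l 16721144) (l 16721384)) (l 16706376)))) (b (a (b (l 16698336) (c (l 16721016) (l 16715272))) (b (l 16699856) (l 16716560))) (c (l 16721416) (l 16718608)))) (a (b (a (l 16693392) (l 16713144)) (l 16713992)) (b (l 16711096) (l 16699824)))) (a (a (b (a (l 16726720) (l 16725680)) (c (l 16720520) (l 16718248))) (b (l 16706216) (c (l 16706960) (l 16702616)))) (a (b (l 16702288) (l 16658976)) (c (l 16685440) (l 16637040))))) (a (b (a (b (a (l 16690000)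 (l 16682680)) (c (l 16678848) (l 16669168))) (b (c (l 16675736) (l 16667728)) (a (l 16663152) (l 16655936)))) (b (a (b (a (l 16668344) (l 16661088)) (l 16662200)) (a (l 16643264) (l 16647360))) (l 16656520))) (b (a (b (l 16641696) (l 16624240)) (b (l 16622368) (a (l 16634552) (l 16627600)))) (b (a (l 16617160) (l 16646920)) (l 16653296))))) (b (a (b (a (c (l 16692448) (l 16691144)) (b (l 16684192) (l 16651752))) (a (b (l 16653424) (l 16641616)) (c (l 16639240) (l 16629160)))) (a (b (l 16655232) (a (l 16624680) (l 16618496))) (b (l 16653624) (l 16578088)))) (b (b (a (a (l 16629640) (l 16616424)) (b (l 16579744) (l 16573752))) (a (a (b (l 16641512) (l 16615160)) (b (l 16628320) (l 16624296))) (a (l 16593864) (l 16604296)))) (a (l 16608960) (l 16608840))))), by decide +kernel⟩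

def k24_pm_011_t : ∃ t, chk3 f_pm_011_t t 10 28 1 = true :=
  ⟨(a (l 4) (b (l 4) (a (b (l 4) (a (l 4) (b (l 4) (a (c (l 245047993159) (a (l 4) (l 187065920775))) (b (c (l 93650434679) (l 111903969367)) (c (l 16774880) (l 16774376))))))) (b (a (a (l 4) (b (l 4) (c (l 250416698439) (l 250416693639)))) (a (b (l 4) (c (l 157538036903) (c (l 90966000247) (l 16744016)))) (b (b (l 4) (c (l 107072140535) (l 109219623367))) (c (l 16772536) (l 16771632))))) (b (a (a (b (l 4) (c (l 103314045927) (l 105461528855))) (c (l 77544248023) (l 79691730455))) (c (l 16767152) (l 16765248))) (c (a (l 16764160) (l 16759160)) (a (c (l 16768288) (l 16767464)) (l 16755696)))))))), by decide +kernel⟩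

def k25_pm_011_t : ∃ t, chk3 f_pm_011_t t 20 58 1 = true :=
  ⟨(a (l 4) (b (a (l 4) (b (l 4) (a (l 4) (c (c (l 235921194167) (l 236994933783)) (c (l 236994931591) (l 236994929399)))))) (a (b (a (l 4) (a (l 4) (c (l 260617252167) (l 259543504695)))) (c (a (c (l 205856424439) (l 213909491655)) (b (c (l 16776568) (l 16776432)) (l 16772960))) (a (b (l 275112760327) (a (l 116735812183) (l 16776024))) (c (l 77544241127) (l 16752888))))) (b (a (b (a (l 4) (c (l 99019139207) (l 114051463719))) (c (l 16775728) (l 79691736839))) (c (l 16773008) (b (l 16774376) (l 16769896)))) (c (a (l 16770200) (l 16765480)) (c (l 16766400) (l 16765336))))))), by decide +kernel⟩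

def k26_pm_011_t : ∃ t, chk3 f_pm_011_t t 20 59 1 = true :=
  ⟨(b (b (a (a (l 4) (a (c (c (l 250416708391) (l 250953575991)) (c (l 250953572679) (l 250416698471))) (b (a (c (l 148948134967) (l 149485006375)) (c (l 16777008) (l 89355411319))) (c (l 16774576) (l 16773976))))) (c (a (c (l 16759224) (l 16769240)) (l 16754968)) (a (a (l 16765520) (l 16765168)) (c (l 16757552) (l 16755608))))) (c (a (a (a (b (l 4) (l 272965287959)) (b (l 253637938311) (a (l 16781632) (l 16774984)))) (a (c (l 16773368) (l 16773288)) (l 16769024))) (a (c (l 16762296) (l 16761248)) (l 16741968))) (a (a (b (b (l 4) (c (l 261690989879) (l 260617244231))) (a (l 271891549799) (c (l 16775728) (l 16775528)))) (a (c (l 16772856) (l 16772392)) (l 16767232))) (a (c (l 16759608) (l 16757848)) (l 16747160))))) (a (c (a (b (a (a (b (a (l 117809619223) (l 16776808)) (l 16774112)) (l 16773792)) (l 16759944)) (a (l 16767224) (l 16762872))) (b (c (l 16763296) (l 16763136)) (c (l 16755520) (l 16755200)))) (a (b (a (b (a (a (l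 117809619623) (l 16776608)) (l 16775344)) (l 16772296)) (l 16763912)) (c (l 16763528) (l 16762120))) (c (b (l 16761656) (l 16752872)) (b (l 16760080) (l 16729416))))) (c (a (c (b (l 16754816) (l 16747280)) (b (l 16753176) (l 16745032))) (c (l 16742416) (l 16738760))) (a (c (l 16746184) (l 16743064)) (c (l 16734816) (l 16709608)))))), by decide +kernel⟩

def k27_pm_011_t : ∃ t, chk3 f_pm_011_t t 21 29 1 = true :=
  ⟨(b (a (b (a (a (b (l 4) (c (a (b (l 117272686871) (l 16775200)) (l 16774664)) (c (l 82912942631) (l 84523554839)))) (c (b (b (l 153243107255) (l 32984019335)) (l 16771136)) (b (c (c (l 108682721623) (l 108682721303)) (l 109219590999)) (l 16769904)))) (c (b (a (l 89892294919) (l 16769072)) (l 16763760)) (b (c (l 71101798343) (l 16769944)) (l 16761056)))) (c (a (b (l 16755384) (l 16758224)) (b (l 16755984) (l 16748256))) (a (b (c (l 16764152) (l 16762896)) (l 16754272)) (c (l 16748368) (l 16745608))))) (c (b (a (c (l 16758440) (l 16756656)) (c (l 16748512) (l 16745816))) (a (c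 (l 16743504) (l 16740216)) (c (l 16733408) (l 16708224)))) (b (a (c (l 16754720) (l 16752632)) (c (l 16721920) (l 16718768))) (a (c (l 16715672) (l 16711840)) (b (l 16706008) (l 16696416)))))) (a (c (b (a (c (l 16748056) (l 16745072)) (c (l 16738408) (l 16734480))) (a (c (l 16732824) (l 16728208)) (c (l 16722992) (l 16696448)))) (b (a (c (l 16741840) (l 16717400)) (c (l 16709264) (l 16704704))) (a (c (l 16702256) (l 16696912)) (b (l 16692264) (l 16682224))))) (c (b (a (c (l 16728440) (l 16702600)) (l 16715312)) (a (l 16704376) (l 16698664))) (b (a (b (l 16699440) (l 16689616)) (a (l 16684968) (l 16678496))) (a (a (l 16677720) (l 16671272)) (l 16640480)))))), by decide +kernel⟩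

def k28_pm_011_t : ∃ t, chk3 f_pm_011_t t 11 28 1 = true :=
  ⟨(a (b (a (b (a (l 4) (l 4)) (b (a (l 4) (a (b (l 4) (c (l 16751792) (l 16751128))) (c (l 16754544) (l 83986696551)))) (a (c (a (l 252564179783) (l 91502870839)) (a (l 252027304279) (c (l 100629677303) (l 16742552)))) (c (l 16770328) (l 16763816))))) (c (b (a (b (l 230015600583) (c (l 93113483511) (l 95260966615))) (c (l 65733081223) (b (l 16772872) (l 16764656)))) (a (b (l 16767824) (l 16759640)) (l 16752792))) (b (a (b (a (l 4) (l 115125176599)) (c (l 96334708007) (l 96871578455))) (b (a (l 16754272) (l 16769496)) (l 16763056))) (a (c (l 16761960) (l 16760664)) (l 16748488))))) (a (c (b (a (b (a (l 79691729719) (l 16770216)) (l 16764768)) (c (l 16758960) (l 16757360))) (a (c (l 16753696) (l 16751560)) (l 16741896))) (b (a (b (a (l 82912954567) (l 16768928)) (l 16762448)) (c (l 16755616) (l 16753736))) (a (c (l 16749240) (l 16725768)) (l 16735304)))) (a (c (b (l 16747328) (l 16730904)) (b (l 16741920) (l 16701384))) (c (b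 (l 16736264) (l 16719688)) (b (l 16707960) (l 16688224)))))) (b (a (c (b (a (l 16758232) (l 16747040)) (a (l 16741656) (l 16730344))) (b (a (l 16754984) (l 16741928)) (a (l 16714496) (l 16701304)))) (c (a (b (l 16735696) (l 16697912)) (b (l 16703240) (l 16686304))) (b (a (l 16707752) (l 16694432)) (a (l 16687960) (l 16695472))))) (a (a (c (b (l 16725000) (l 16676816)) (b (l 16694776) (l 16674864))) (b (c (l 16682096) (l 16681424)) (c (l 16675704) (l 16682312)))) (c (b (c (l 16678248) (l 16671840)) (a (l 16663944) (l 16652040))) (b (a (l 16688904) (l 16675280)) (a (l 16668632) (l 16654832))))))), by decide +kernel⟩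

def k29_pm_011_t : ∃ t, chk3 f_pm_011_t t 11 29 1 = true :=
  ⟨(a (b (a (a (c (b (l 16736544) (l 16720520)) (b (c (l 16709808) (l 16705584)) (a (l 16691616) (l 16685120)))) (c (b (l 16725624) (l 16709424)) (b (l 16684344) (l 16675264)))) (a (c (b (l 16714472) (l 16698088)) (b (l 16681688) (l 16661904))) (c (b (l 16703096) (l 16652448)) (b (l 16668336) (l 16669304))))) (a (a (c (b (l 16704288) (l 16687416)) (b (l 16647688) (l 16648096))) (b (c (l 16692992) (l 16655304)) (c (l 16675896) (l 16634472)))) (b (c (c (l 16680056) (l 16628984)) (b (l 16619016) (l 16608624))) (c (c (l 16621536) (l 16631616)) (b (l 16618976) (l 16608168)))))) (b (c (a (c (b (l 16668432) (l 16652368)) (b (l 16660744) (l 16643072))) (a (b (l 16646840) (l 16629696)) (b (l 16655720) (l 16638384)))) (a (b (c (l 16652376) (l 16664304)) (a (l 16655528) (l 16641584))) (b (a (l 16648152) (l 16634144)) (a (l 16627480) (l 16613256))))) (c (c (b (a (l 16636040) (l 16612248)) (a (l 16619016) (l 16615736))) (a (a (l 16601064)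 (l 16609272)) (b (l 16620392) (l 16601080)))) (a (b (a (l 16634840) (l 16620640)) (a (l 16613200) (l 16598736))) (b (a (l 16606296) (l 16591824)) (c (l 16585168) (l 16568024))))))), by decide +kernel⟩

def k30_pm_011_t : ∃ t, chk3 f_pm_011_t t 20 30 1 = true :=
  ⟨(b (a (b (c (c (a (b (l 16756368) (l 16748304)) (l 16739192)) (a (b (l 16757024) (l 16749136)) (b (l 16747200) (l 16739168)))) (a (b (c (l 16754848) (l 16752528)) (c (l 16746096) (l 16721880))) (b (l 16742336) (l 16732952)))) (c (a (c (l 16731568) (b (l 16741224) (l 16733304))) (b (l 16717760) (l 16704928))) (a (b (l 16735224) (l 16725912)) (b (l 16723520) (l 16714064))))) (c (b (a (b (l 16728376) (l 16710120)) (c (l 16727312) (l 16721976))) (a (b (l 16702360) (l 16715616)) (c (l 16712344) (l 16705248)))) (b (a (b (l 16730400) (l 16720816)) (c (l 16695256) (l 16689096))) (a (c (l 16688856) (l 16681864)) (b (l 16677536) (l 16667744)))))) (a (b (c (a (b (l 16705656) (l 16697864)) (b (l 16697376) (l 16689896))) (a (c (l 16715176)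 (l 16687520)) (c (l 16682768) (l 16674912)))) (c (a (b (l 16690016) (l 16682096)) (c (l 16695424) (l 16695384))) (c (a (l 16676616) (l 16665056)) (a (l 16667832) (l 16655064))))) (b (c (a (a (l 16685848) (l 16680480)) (l 16672328)) (a (b (l 16671032) (l 16661480)) (c (l 16658168) (l 16668872)))) (c (a (l 16668288) (l 16657256)) (a (b (l 16652000) (l 16642592)) (l 16612936)))))), by decide +kernel⟩

def k31_pm_011_t : ∃ t, chk3 f_pm_011_t t 21 30 1 = true :=
  ⟨(b (a (c (b (a (c (l 16717400) (l 16711080)) (c (l 16707264) (l 16678984))) (a (l 16684992) (l 16666184))) (b (a (b (l 16684712) (l 16674688)) (c (l 16671096) (l 16683616))) (a (c (l 16664256) (l 16675880)) (l 16630784)))) (a (b (c (l 16692808) (l 16632952)) (c (l 16675960) (l 16612136))) (c (b (l 16681616) (l 16664504)) (b (l 16640576) (l 16619440))))) (b (a (c (c (l 16660816) (l 16671264)) (a (l 16618824) (l 16605280))) (c (c (l 16659784) (l 16605224)) (b (l 16589680) (l 16579360)))) (a (b (c (l 16665008) (a (l 16646128) (l 16632336)))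 (c (a (l 16663424) (l 16631136)) (a (b (l 16638904) (l 16614256)) (b (l 16625680) (l 16603472))))) (a (b (c (l 16647592) (l 16597672)) (c (l 16640832) (b (l 16592992) (l 16616096)))) (b (c (l 16635800) (b (l 16606592) (l 16603632))) (c (l 16629680) (l 16606264))))))), by decide +kernel⟩

def k32_pm_011_t : ∃ t, chk3 f_pm_011_t t 11 30 1 = true :=
  ⟨(b (b (a (a (c (c (l 16669552) (l 16637792)) (b (l 16604408) (l 16593648))) (c (a (l 16604400) (l 16613112)) (a (l 16619816) (l 16605424)))) (c (a (c (l 16601520) (l 16607792)) (c (l 16597736) (l 16581144))) (a (a (l 16590840) (l 16576072)) (l 16574608)))) (a (a (c (c (l 16652976) (l 16619304)) (b (l 16582832) (l 16592976))) (c (b (l 16584744) (l 16575736)) (a (l 16597704) (l 16582992)))) (a (c (c (l 16604848) (l 16588144)) (c (l 16570080) (l 16550664))) (a (c (l 16524704) (l 16559312)) (b (l 16591200) (c (l 16559632) (l 16518936))))))) (a (b (b (a (c (l 16633768) (l 16582192)) (c (l 16604864) (a (l 16581136) (l 16566384)))) (a (c (c (l 16632712)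 (l 16596848)) (a (l 16599792) (l 16564944))) (c (c (l 16587696) (l 16551232)) (a (b (l 16573408) (l 16571488)) (b (l 16560704) (l 16562152)))))) (c (a (b (c (l 16625016) (l 16569424)) (l 16612752)) (b (l 16553208) (l 16568840))) (a (b (a (b (l 16593440) (l 16593800)) (l 16562680)) (l 16551128)) (c (l 16577688) (l 16546008))))) (b (c (a (b (a (l 16568712) (l 16556320)) (l 16535336)) (c (l 16521568) (l 16528392))) (a (b (a (l 16552472) (l 16539824)) (l 16547104)) (b (a (l 16528992) (l 16519496)) (l 16528048)))) (c (a (c (l 16572728) (l 16565456)) (c (l 16548224) (l 16542864))) (a (c (l 16557672) (l 16549376)) (l 16492248)))))), by decide +kernel⟩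

def k33_pm_011_t : ∃ t, chk3 f_pm_011_t t 5 62 1 = true :=
  ⟨(c (a (a (b (a (b (a (l 16695056) (l 16666864)) (a (b (l 16667912) (l 16653016)) (b (l 16660576) (l 16676768)))) (b (a (c (l 16676048) (l 16673392)) (c (l 16669928) (l 16662584))) (c (l 16665712) (l 16664616)))) (a (c (b (l 16671464) (l 16664464)) (b (l 16675176) (l 16662512))) (c (l 16655208) (l 16653512)))) (a (b (b (a (l 16657216) (l 16646440)) (l 16646640)) (c (l 16637144) (l 16639824))) (b (c (l 16629344) (l 16625312)) (c (l 16614392) (l 16620760))))) (a (a (b (c (l 16584880) (l 16604016)) (c (l 16591120) (l 16599472))) (b (l 16582048) (l 16572384))) (a (b (l 16516808) (l 16549112)) (b (l 16493200) (l 16525480))))) (a (a (b (a (b (a (l 16658464) (c (l 16652392) (l 16640920))) (a (b (c (l 16657824) (l 16646864)) (l 16651760)) (b (c (l 16669160) (l 16637256)) (l 16666568)))) (b (a (b (l 16635792) (a (l 16635640) (l 16630704))) (b (c (l 16651256) (l 16638120)) (l 16645880))) (a (l 16657968) (l 16650384)))) (a (b (a (l 16677672)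 (l 16671464)) (a (l 16664728) (l 16654128))) (b (a (l 16664408) (l 16656792)) (a (l 16644440) (l 16635360))))) (b (a (b (c (l 16637560) (a (l 16630880) (l 16623672))) (l 16638456)) (b (l 16615904) (l 16621664))) (a (b (l 16643920) (l 16622344)) (b (l 16627368) (l 16605992))))) (a (b (a (b (l 16577328) (l 16603920)) (b (l 16579880) (l 16585320))) (a (b (l 16610000) (l 16590728)) (l 16565968))) (b (a (l 16563312) (l 16543448)) (a (l 16573368) (l 16554448)))))), by decide +kernel⟩

def k34_pm_011_t : ∃ t, chk3 f_pm_011_t t 5 63 1 = true :=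
  ⟨(a (b (a (c (a (b (a (l 16657496) (l 16649792)) (l 16610712)) (c (l 16641032) (l 16627792))) (a (b (c (l 16620312) (l 16590504)) (c (l 16600696) (l 16564040))) (b (c (l 16623320) (l 16590648)) (c (l 16582864) (l 16585352))))) (c (a (c (l 16622616) (l 16614232)) (a (l 16613176) (l 16540368))) (a (b (l 16579296) (c (l 16587976) (l 16566952))) (b (l 16584112) (c (l 16572952) (l 16549480)))))) (a (b (a (c (c (l 16643704) (l 16624688)) (b (a (l 16601560) (l 16591072)) (l 16569544))) (c (l 16600104) (b (c (l 16589576) (l 16566136)) (l 16574816)))) (a (l 16527432) (l 16555264))) (a (c (l 16566208) (b (l 16521064) (l 16561600))) (c (l 16594008) (l 16487416))))) (c (a (b (b (a (l 16588592) (l 16565824)) (a (l 16584496) (l 16561520))) (l 16560008)) (b (a (b (l 16542584) (l 16537928)) (b (l 16518960) (l 16513864))) (l 16513032))) (b (a (b (a (l 16569056) (l 16554992)) (c (l 16553704) (a (l 16533960) (l 16520368)))) (b (l 16514640) (a (l 16522712) (l 16512456)))) (a (l 16532488) (l 16512416))))),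 by decide +kernel⟩

def k35_pm_011_t : ∃ t, chk3 f_pm_011_t t 6 12 1 = true :=
  ⟨(a (b (l 4) (a (l 4) (b (l 4) (a (l 4) (b (l 4) (a (c (l 106535206823) (l 105461462535)) (c (l 87207897303) (l 88818508711)))))))) (b (l 1) (a (a (a (b (l 1) (b (l 1) (l 16766304))) (l 1)) (l 1)) (l 1)))), by decide +kernel⟩

def k36_pm_011_t : ∃ t, chk3 f_pm_011_t t 12 13 1 = true :=
  ⟨(a (b (b (l 4) (a (b (l 4) (a (l 4) (b (l 4) (c (l 96871576599) (l 97945317703))))) (c (b (a (l 210688260071) (c (l 89355380231) (l 88818508759))) (a (c (l 16751296) (l 16750840)) (l 16761200))) (b (a (l 210688235479) (c (l 89892250007) (l 91502862119))) (a (b (l 16754360) (l 16767240)) (l 16758792)))))) (c (b (a (b (a (c (l 96334684087) (a (l 90429107383) (l 16754320))) (b (l 16771664) (l 16763696))) (a (l 16762768) (l 16751360))) (b (a (l 16756376) (l 16744936)) (a (l 16739872) (l 16707424)))) (a (b (a (l 16746232) (l 16734736)) (a (l 16708536) (l 16696944))) (b (l 16722624) (a (l 16685264) (l 16694560))))) (b (a (b (a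 (b (l 105998363383) (l 16752944)) (l 16766096)) (a (l 16760488) (l 16747312))) (b (a (l 16753176) (l 16719056)) (l 16727520))) (a (b (a (l 16741272) (l 16707032)) (a (l 16700800) (l 16708392))) (b (c (l 16689552) (l 16684472)) (a (l 16694952) (l 16681544))))))) (a (b (b (b (a (l 4) (c (b (l 4) (l 16742992)) (l 100629636391))) (c (a (c (l 95260944823) (l 94187202279)) (l 16769928)) (a (b (l 105461494903) (l 16754648)) (l 16768784)))) (c (b (a (l 16765744) (l 16754296)) (l 16744048)) (b (a (l 16764048) (l 16750984)) (l 16739144)))) (b (c (c (l 16731920) (l 16717472)) (b (c (l 16701408) (l 16697384)) (l 16659272))) (c (b (b (l 16677608) (l 16669096)) (a (l 16682936) (l 16671400))) (b (l 16639672) (l 16640688))))) (b (b (b (a (c (l 16747528) (l 85597297159)) (l 16762016)) (c (l 16752936) (l 16749544))) (c (b (l 16737080) (l 16689704)) (b (l 16731384) (l 16671136)))) (b (b (c (l 16663040) (l 16673432)) (c (l 16646472) (l 16654272))) (b (c (l 16650520) (l 16655608)) (c (l 16633240) (l 16635504))))))),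 by decide +kernel⟩

def k37_pm_011_t : ∃ t, chk3 f_pm_011_t t 13 13 1 = true :=
  ⟨(b (a (b (a (c (b (l 16745624) (l 16729960)) (a (l 16738920) (l 16684024))) (c (l 16714944) (l 229277187735))) (a (c (c (l 16666584) (l 16662088)) (c (l 16657136) (l 16651744))) (c (c (l 16665624) (l 16659864)) (b (l 16680080) (l 16662040))))) (a (b (l 1) (c (l 225519000103) (l 212097188759))) (l 1))) (a (b (a (c (c (l 16635408) (l 16649632)) (c (l 16621240) (l 16634120))) (c (b (l 16659920) (l 16643472)) (b (l 16643568) (l 16624552)))) (a (c (b (l 16648864) (l 16631560)) (b (l 16630024) (l 16609904))) (c (b (l 16626592) (l 16609296)) (b (l 16604992) (l 16584888))))) (b (a (c (b (l 16637944) (l 16621592)) (b (l 16619008) (l 16600120))) (c (l 16566424) (l 16585840))) (a (b (l 16644400) (l 16627128)) (c (l 16575000) (l 16547184)))))), by decide +kernel⟩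

def k38_pm_011_t : ∃ t, chk3 f_pm_011_t t 7 6 1 = true :=
  ⟨(b (l 1) (a (b (l 1) (a (a (a (b (l 1) (l 16608480)) (l 1)) (l 1)) (l 1))) (l 1))), by decide +kernel⟩

def k39_pm_011_t : ∃ t, chk3 f_pm_011_t t 6 28 1 = true :=
  ⟨(a (a (b (c (a (b (a (l 16691632) (l 16679928)) (c (l 16671912) (l 16665256))) (b (c (l 16665608) (l 16679696)) (a (l 16671784) (l 16659864)))) (a (b (a (l 16701976) (l 16688472)) (a (l 16681904) (l 16668248))) (b (a (l 16674904) (l 16661376)) (l 16605768)))) (b (a (c (b (l 16634744) (l 16626064)) (a (l 16661544) (l 16647736))) (c (c (l 16653008) (l 16643264)) (l 16585008))) (c (a (c (l 16659608) (l 16649992)) (c (l 16635992) (l 16624720))) (a (a (l 16640920) (l 16626928)) (l 16605872))))) (b (b (a (c (a (l 16665584) (l 16653928)) (l 16641280)) (c (l 16636624) (l 16614968))) (a (c (l 16600168) (l 16620576)) (c (l 16618776) (l 16594040)))) (b (a (c (l 16582304) (l 16599512)) (c (l 16600632) (l 16572680))) (a (c (l 16606168) (l 16578088)) (c (l 16582264) (l 16550944))))))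 (a (b (a (c (b (l 16613896) (l 16595872)) (b (l 16589280) (l 16568176))) (c (b (l 16591592) (l 16573504)) (l 16574648))) (c (a (b (l 16577536) (l 16558928)) (l 16603296)) (a (b (l 16546608) (l 16524616)) (l 16531256)))) (b (c (a (l 16581776) (l 16539736)) (a (l 16529424) (l 16506096))) (a (c (l 16544728) (l 16485912)) (c (l 16502664) (l 16462592)))))), by decide +kernel⟩

def k40_pm_011_t : ∃ t, chk3 f_pm_011_t t 6 29 1 = true :=
  ⟨(a (a (b (a (c (b (c (l 16642824) (l 16631624)) (c (l 16626000) (l 16613144))) (b (a (l 16620032) (l 16605840)) (l 16612688))) (c (b (c (l 16618856) (l 16605984)) (c (l 16601640) (l 16587080))) (b (l 16584480) (l 16562808)))) (c (a (b (c (l 16608832) (l 16594224)) (c (l 16590880) (l 16574408))) (b (c (l 16584032) (l 16567712)) (l 16577680))) (a (b (l 16569912) (l 16547048)) (b (l 16540520) (l 16517120))))) (b (c (a (b (l 16587896) (l 16569464)) (b (l 16563672) (l 16544880))) (a (b (l 16556312) (l 16534224)) (b (l 16528824) (l 16506344)))) (c (a (b (l 16550568)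 (l 16530752)) (b (l 16525592) (l 16505336))) (a (b (l 16511464) (l 16487552)) (b (l 16483160) (l 16458776)))))) (b (a (c (a (b (l 16540024) (l 16520912)) (b (l 16517096) (l 16497704))) (a (b (l 16502168) (l 16479344)) (l 16486080))) (c (a (b (l 16494984) (l 16475368)) (l 16505992)) (a (l 16440384) (l 16416880)))) (a (c (b (a (l 16501248) (l 16477712)) (a (l 16533248) (b (l 16462176) (l 16454328)))) (b (a (l 16455776) (l 16429456)) (a (b (l 16437280) (l 16405224)) (b (l 16411400) (l 16384584))))) (a (a (b (l 16436680) (c (l 16422216) (l 16436456))) (b (l 16488056) (l 6))) (l 6))))), by decide +kernel⟩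

def k41_pm_011_t : ∃ t, chk3 f_pm_011_t t 6 15 1 = true :=
  ⟨(b (a (b (a (c (c (b (a (l 16572368) (l 16546520)) (a (b (l 16558352) (l 16550232)) (l 16529592))) (b (a (l 16553928) (l 16526528)) (a (b (l 16538792) (l 16532072)) (l 16511544)))) (b (a (l 16523344) (a (l 16500440) (l 16485648))) (a (b (a (l 16513088) (l 16498768)) (a (l 16506952) (l 16496880))) (b (a (l 16485864) (l 16474864)) (l 16482464))))) (b (c (a (b (l 16515440) (l 16548504)) (b (l 16490600) (l 16483704))) (a (b (l 16469112) (a (l 16466136) (l 16454600))) (b (l 16442696) (l 16440792)))) (c (a (l 16507824) (l 16475232)) (a (l 16462272) (l 16423296))))) (b (a (c (a (c (l 16538736) (l 16526640)) (c (l 16514176) (l 16503928))) (a (c (l 16513624) (l 16499680)) (l 16487160))) (c (a (l 16486008) (l 16463736)) (a (l 16467872) (l 16449272)))) (a (a (c (l 16500856) (l 16514320)) (c (l 16498032) (l 16494160))) (a (c (l 16474752) (l 16474280)) (l 6))))) (b (a (a (b (c (b (l 16468456) (l 16462688)) (a (l 16406256) (l 16419080)))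 (c (l 16454080) (l 16427072))) (b (c (l 16445568) (l 16407376)) (l 6))) (l 6)) (l 6))) (a (b (a (a (b (c (l 16490336) (l 16523072)) (c (l 16501592) (l 16533568))) (b (c (l 16466432) (l 16502352)) (l 6))) (l 6)) (a (b (b (a (c (l 16495024) (l 16517632)) (l 6)) (l 6)) (l 6)) (l 6))) (l 6))), by decide +kernel⟩

def k42_pm_011_t : ∃ t, chk3 f_pm_011_t t 7 7 1 = true :=
  ⟨(b (a (b (a (b (c (a (l 16519424) (l 16499904)) (a (l 16483816) (l 16462648))) (c (a (l 16482448) (l 16463160)) (a (l 16440440) (l 16419544)))) (b (l 1) (l 6))) (a (a (b (b (l 16472952) (l 6)) (l 6)) (l 6)) (l 6))) (l 6)) (l 6)), by decide +kernel⟩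

theorem s43_pm_011_t : ∃ t, chk3 f_pm_011_t t 6 14 1 = true := ex3_b k39_pm_011_t k40_pm_011_t

theorem s44_pm_011_t : ∃ t, chk3 f_pm_011_t t 6 7 1 = true := ex3_b s43_pm_011_t k41_pm_011_t

theorem s45_pm_011_t : ∃ t, chk3 f_pm_011_t t 3 7 1 = true := ex3_a s44_pm_011_t k42_pm_011_t

theorem s46_pm_011_t : ∃ t, chk3 f_pm_011_t t 6 13 1 = true := ex3_a k36_pm_011_t k37_pm_011_t

theorem s47_pm_011_t : ∃ t, chk3 f_pm_011_t t 6 6 1 = true := ex3_b k35_pm_011_t s46_pm_011_t

theorem s48_pm_011_t : ∃ t, chk3 f_pm_011_t t 3 6 1 = true := ex3_a s47_pm_011_t k38_pm_011_t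

theorem s49_pm_011_t : ∃ t, chk3 f_pm_011_t t 3 3 1 = true := ex3_b s48_pm_011_t s45_pm_011_t

theorem s50_pm_011_t : ∃ t, chk3 f_pm_011_t t 5 31 1 = true := ex3_b k33_pm_011_t k34_pm_011_t

theorem s51_pm_011_t : ∃ t, chk3 f_pm_011_t t 10 30 1 = true := ex3_a k30_pm_011_t k31_pm_011_t

theorem s52_pm_011_t : ∃ t, chk3 f_pm_011_t t 5 30 1 = true := ex3_a s51_pm_011_t k32_pm_011_t

theorem s53_pm_011_t : ∃ t, chk3 f_pm_011_t t 5 15 1 = true := ex3_b s52_pm_011_t s50_pm_011_t

theorem s54_pm_011_t : ∃ t, chk3 f_pm_011_t t 11 14 1 = true := ex3_b k28_pm_011_t k29_pm_011_t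

theorem s55_pm_011_t : ∃ t, chk3 f_pm_011_t t 20 29 1 = true := ex3_b k25_pm_011_t k26_pm_011_t

theorem s56_pm_011_t : ∃ t, chk3 f_pm_011_t t 10 29 1 = true := ex3_a s55_pm_011_t k27_pm_011_t

theorem s57_pm_011_t : ∃ t, chk3 f_pm_011_t t 10 14 1 = true := ex3_b k24_pm_011_t s56_pm_011_t

theorem s58_pm_011_t : ∃ t, chk3 f_pm_011_t t 5 14 1 = true := ex3_a s57_pm_011_t s54_pm_011_t

theorem s59_pm_011_t : ∃ t, chk3 f_pm_011_t t 5 7 1 = true := ex3_b s58_pm_011_t s53_pm_011_t

theorem s60_pm_011_t : ∃ t, chk3 f_pm_011_t t 9 63 1 = true := ex3_c k22_pm_011_t k23_pm_011_t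

theorem s61_pm_011_t : ∃ t, chk3 f_pm_011_t t 18 62 1 = true := ex3_b k19_pm_011_t k20_pm_011_t

theorem s62_pm_011_t : ∃ t, chk3 f_pm_011_t t 9 62 1 = true := ex3_a s61_pm_011_t k21_pm_011_t

theorem s63_pm_011_t : ∃ t, chk3 f_pm_011_t t 9 31 1 = true := ex3_b s62_pm_011_t s60_pm_011_t

theorem s64_pm_011_t : ∃ t, chk3 f_pm_011_t t 19 60 1 = true := ex3_a k16_pm_011_t k17_pm_011_t

theorem s65_pm_011_t : ∃ t, chk3 f_pm_011_t t 19 30 1 = true := ex3_b s64_pm_011_t k18_pm_011_t

theorem s66_pm_011_t : ∃ t, chk3 f_pm_011_t t 36 61 1 = true := ex3_b k13_pm_011_t k14_pm_011_t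

theorem s67_pm_011_t : ∃ t, chk3 f_pm_011_t t 18 61 1 = true := ex3_a s66_pm_011_t k15_pm_011_t

theorem s68_pm_011_t : ∃ t, chk3 f_pm_011_t t 18 30 1 = true := ex3_b k12_pm_011_t s67_pm_011_t

theorem s69_pm_011_t : ∃ t, chk3 f_pm_011_t t 9 30 1 = true := ex3_a s68_pm_011_t s65_pm_011_t

theorem s70_pm_011_t : ∃ t, chk3 f_pm_011_t t 9 15 1 = true := ex3_b s69_pm_011_t s63_pm_011_t

theorem s71_pm_011_t : ∃ t, chk3 f_pm_011_t t 35 124 1 = true := ex3_a k8_pm_011_t k9_pm_011_t

theorem s72_pm_011_t : ∃ t, chk3 f_pm_011_t t 35 62 1 = true := ex3_b s71_pm_011_t k10_pm_011_t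

theorem s73_pm_011_t : ∃ t, chk3 f_pm_011_t t 69 62 1 = true := ex3_a k6_pm_011_t k7_pm_011_t

theorem s74_pm_011_t : ∃ t, chk3 f_pm_011_t t 34 62 1 = true := ex3_a k5_pm_011_t s73_pm_011_t

theorem s75_pm_011_t : ∃ t, chk3 f_pm_011_t t 17 62 1 = true := ex3_a s74_pm_011_t s72_pm_011_t

theorem s76_pm_011_t : ∃ t, chk3 f_pm_011_t t 17 31 1 = true := ex3_b s75_pm_011_t k11_pm_011_t

theorem s77_pm_011_t : ∃ t, chk3 f_pm_011_t t 8 31 1 = true := ex3_a k4_pm_011_t s76_pm_011_t

theorem s78_pm_011_t : ∃ t, chk3 f_pm_011_t t 8 15 1 = true := ex3_b k3_pm_011_t s77_pm_011_t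

theorem s79_pm_011_t : ∃ t, chk3 f_pm_011_t t 4 15 1 = true := ex3_a s78_pm_011_t s70_pm_011_t

theorem s80_pm_011_t : ∃ t, chk3 f_pm_011_t t 4 7 1 = true := ex3_b k2_pm_011_t s79_pm_011_t

theorem s81_pm_011_t : ∃ t, chk3 f_pm_011_t t 2 7 1 = true := ex3_a s80_pm_011_t s59_pm_011_t

theorem s82_pm_011_t : ∃ t, chk3 f_pm_011_t t 2 3 1 = true := ex3_b k1_pm_011_t s81_pm_011_t

theorem s83_pm_011_t : ∃ t, chk3 f_pm_011_t t 1 3 1 = true := ex3_a s82_pm_011_t s49_pm_011_t

theorem s84_pm_011_t : ∃ t, chk3 f_pm_011_t t 1 1 1 = true := ex3_b k0_pm_011_t s83_pm_011_t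

theorem c_pm_011_t : CertNE 0 536870912 536870912 536870912 923417968 42949674 3 eng mog cd0q0 cd0q1 pd1 false true false .pnn 0 1 1
    ndB0q0 ndB0q1 pcB1 cut_pm_011_t Ext.none :=
  certNE0 (fam := false) (s1 := true) (s2 := false) (a := 0) (b := 1) (c := 1) (cn := .pnn) (n1 := ndB0q0) (n2 := ndB0q1) (pc := pcB1) (cut := cut_pm_011_t) (xt := Ext.none) (P1 := 0) (W1 := 536870912) (P2 := 536870912) (W2 := 536870912) (P3 := 923417968) (W3 := 42949674) (N0 := 3) (En := eng) (mo := mog) (C1 := cd0q0) (C2 := cd0q1) (C3 := pd1)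
    rfl s84_pm_011_t

noncomputable def cut_pm_012_s : Cut := Cut.of [[⟨4, 0, 0, 1449551462⟩], [⟨0, 0, 0, 67108864⟩, ⟨1, 1, 0, 67108864⟩, ⟨2, 1, 0, 67108864⟩]]

noncomputable def f_pm_012_s : ℕ → ℕ → ℕ → ℕ → Bool := onCell 0 536870912 0 536870912 923417968 42949674
    (rowNE 3 eng mog cd0q0 cd0q2 pd1 0 false true false .pnp 0 1 2 (qsf 0 536870912 0 536870912 1) ndB0q0 ndB0q2 pcB1 cut_pm_012_s Ext.none)

def k0_pm_012_s : ∃ t, chk3 f_pm_012_s t 1 1 1 = true :=
  ⟨(a (l 6) (b (a (b (a (l 6) (a (l 6) (a (l 6) (b (b (l 6) (l 6)) (l 6))))) (l 6)) (b (a (b (a (b (c (a (l 16454368) (l 16456000)) (l 16488488)) (l 6)) (c (b (a (l 16460416) (l 16468984)) (a (l 16412600) (l 16416984))) (a (l 16428640) (l 16390400)))) (l 6)) (a (b (c (b (a (l 16481912) (l 16498704)) (a (l 16425728) (l 16438432))) (a (b (l 16526448) (l 16479688)) (b (l 16540080) (l 16489560)))) (b (a (c (l 16371032) (l 16434496)) (b (l 16338600) (l 16269976))) (l 6))) (b (c (a (b (l 16519272) (l 16455000)) (b (l 16543424) (l 16475288)))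 (a (b (l 16557264) (l 16503128)) (b (l 16577768) (l 16520184)))) (c (b (a (l 16392336) (l 16408800)) (a (l 16330720) (l 16322392))) (b (a (l 16450648) (l 16464272)) (a (l 16399408) (l 16409568))))))) (l 6))) (l 6))), by decide +kernel⟩

theorem c_pm_012_s : CertNE 0 536870912 0 536870912 923417968 42949674 3 eng mog cd0q0 cd0q2 pd1 false true false .pnp 0 1 2
    ndB0q0 ndB0q2 pcB1 cut_pm_012_s Ext.none :=
  certNE0 (fam := false) (s1 := true) (s2 := false) (a := 0) (b := 1) (c := 2) (cn := .pnp) (n1 := ndB0q0) (n2 := ndB0q2) (pc := pcB1) (cut := cut_pm_012_s) (xt := Ext.none) (P1 := 0) (W1 := 536870912) (P2 := 0) (W2 := 536870912) (P3 := 923417968) (W3 := 42949674) (N0 := 3) (En := eng) (mo := mog) (C1 := cd0q0) (C2 := cd0q2) (C3 := pd1)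
    rfl k0_pm_012_s

noncomputable def cut_pm_012_t : Cut := Cut.of [[⟨3, 0, 0, 2845415833⟩], [⟨0, 0, 0, 67108864⟩, ⟨1, 1, 0, 67108864⟩, ⟨2, 1, 0, 67108864⟩]]

noncomputable def f_pm_012_t : ℕ → ℕ → ℕ → ℕ → Bool := onCell 0 536870912 0 536870912 923417968 42949674
    (rowNE 3 eng mog cd0q0 cd0q2 pd1 0 false true false .pnp 0 1 2 (qsf 0 536870912 0 536870912 1) ndB0q0 ndB0q2 pcB1 cut_pm_012_t Ext.none)

def k0_pm_012_t : ∃ t, chk3 f_pm_012_t t 1 2 1 = true :=
  ⟨(l 6), by decide +kernel⟩

def k1_pm_012_t : ∃ t, chk3 f_pm_012_t t 4 6 1 = true :=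
  ⟨(a (l 2) (a (a (a (l 2) (l 6)) (l 6)) (l 6))), by decide +kernel⟩

def k2_pm_012_t : ∃ t, chk3 f_pm_012_t t 8 7 1 = true :=
  ⟨(b (a (l 2) (b (a (l 2) (a (l 2) (b (l 2) (b (a (l 2) (c (l 16445488) (l 16433784))) (a (l 14) (c (l 16459968) (l 16447480))))))) (a (l 14) (a (l 14) (a (l 14) (b (c (b (l 16475688) (l 16492576)) (l 16470480)) (c (l 16519968) (l 16504896)))))))) (a (l 14) (a (l 14) (a (l 14) (a (l 14) (b (b (c (l 16559512) (l 16543040)) (b (l 16582424) (l 16603888))) (b (c (l 16625272) (l 16627352)) (b (l 16649624) (l 16651288))))))))), by decide +kernel⟩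

def k3_pm_012_t : ∃ t, chk3 f_pm_012_t t 9 7 1 = true :=
  ⟨(b (a (b (a (b (a (c (b (a (l 2) (l 16415600)) (a (l 16429904) (l 16427408))) (b (l 16426200) (l 16437232))) (c (b (l 16411936) (l 16423560)) (b (l 16398632) (l 16409384)))) (a (c (b (l 16441616) (l 16455880)) (b (l 16428392) (l 16441848))) (c (b (l 16436264) (l 16450248)) (b (l 16421224) (l 16434360))))) (b (a (c (l 16412592) (l 16397256)) (l 6)) (c (a (l 16437608) (l 16432080)) (a (l 16420480) (l 16413400))))) (a (b (a (c (b (l 16471384) (l 16488024)) (l 16443488)) (c (b (l 16465456) (l 16481792)) (l 16435496))) (a (c (l 16494072) (l 16477352)) (b (l 16469184) (l 16487136)))) (b (c (a (l 16467432) (l 16461336)) (l 16434192)) (c (l 16477192) (l 16476760))))) (b (b (l 6) (a (a (a (l 16418280) (l 16415304)) (l 6)) (l 6))) (a (b (c (l 16431552) (l 16408864)) (a (l 16476592) (l 16469608))) (b (b (l 16401472) (l 16415728)) (a (l 16463048) (l 16457008)))))) (c (a (b (a (b (a (l 16554064) (l 16546648)) (a (l 16595864) (l 16587736)))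 (b (l 16535480) (l 16554552))) (a (b (a (l 16597760) (l 16609872)) (b (l 16663512) (l 16670464))) (b (l 16575616) (b (l 16649944) (l 16671912))))) (b (a (b (l 16521104) (l 16559776)) (b (l 16508024) (l 16545352))) (b (b (l 16519216) (l 16539584)) (a (l 16642448) (l 16625256))))) (a (b (a (b (a (l 16535888) (l 16526400)) (a (l 16576416) (l 16566128))) (b (l 16512424) (l 16550968))) (b (a (a (l 16598008) (l 16607880)) (l 16549576)) (a (b (l 16624648) (b (l 16640816) (l 16651592))) (b (l 16622512) (l 16622344))))) (b (a (b (l 16494728) (l 16531728)) (b (l 16478848) (l 16514336))) (b (a (l 16570696) (l 16551752)) (a (b (l 16600520) (l 16620552)) (l 16548200))))))), by decide +kernel⟩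

def k4_pm_012_t : ∃ t, chk3 f_pm_012_t t 5 3 1 = true :=
  ⟨(b (l 6) (a (b (a (b (l 6) (b (l 6) (a (l 16449128) (l 6)))) (l 6)) (b (a (a (b (a (l 16484384) (l 16479008)) (l 16432800)) (c (l 16443024) (l 16450632))) (c (b (l 16478192) (l 16511024)) (b (l 16443008) (l 16473408)))) (a (b (c (a (l 16570904) (l 16559784)) (a (l 16535416) (l 16522176))) (c (a (l 16610168) (l 16597664)) (b (l 16513640) (l 16510808)))) (b (c (l 16545576) (l 16505552)) (a (l 16503400) (l 16513224)))))) (b (l 6) (b (l 6) (c (a (b (l 16528552) (l 16561536)) (l 16423696)) (a (b (l 16486440) (l 16516536)) (l 16463008))))))), by decide +kernel⟩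

def k5_pm_012_t : ∃ t, chk3 f_pm_012_t t 3 3 1 = true :=
  ⟨(b (l 6) (l 6)), by decide +kernel⟩

theorem s6_pm_012_t : ∃ t, chk3 f_pm_012_t t 4 7 1 = true := ex3_a k2_pm_012_t k3_pm_012_t

theorem s7_pm_012_t : ∃ t, chk3 f_pm_012_t t 4 3 1 = true := ex3_b k1_pm_012_t s6_pm_012_t

theorem s8_pm_012_t : ∃ t, chk3 f_pm_012_t t 2 3 1 = true := ex3_a s7_pm_012_t k4_pm_012_t

theorem s9_pm_012_t : ∃ t, chk3 f_pm_012_t t 1 3 1 = true := ex3_a s8_pm_012_t k5_pm_012_t

theorem s10_pm_012_t : ∃ t, chk3 f_pm_012_t t 1 1 1 = true := ex3_b k0_pm_012_t s9_pm_012_t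

theorem c_pm_012_t : CertNE 0 536870912 0 536870912 923417968 42949674 3 eng mog cd0q0 cd0q2 pd1 false true false .pnp 0 1 2
    ndB0q0 ndB0q2 pcB1 cut_pm_012_t Ext.none :=
  certNE0 (fam := false) (s1 := true) (s2 := false) (a := 0) (b := 1) (c := 2) (cn := .pnp) (n1 := ndB0q0) (n2 := ndB0q2) (pc := pcB1) (cut := cut_pm_012_t) (xt := Ext.none) (P1 := 0) (W1 := 536870912) (P2 := 0) (W2 := 536870912) (P3 := 923417968) (W3 := 42949674) (N0 := 3) (En := eng) (mo := mog) (C1 := cd0q0) (C2 := cd0q2) (C3 := pd1)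
    rfl s10_pm_012_t

noncomputable def cut_pm_022_s : Cut := Cut.of [[⟨4, 0, 0, 1449551462⟩], [⟨0, 0, 0, 67108864⟩, ⟨1, 1, 0, 67108864⟩, ⟨2, 1, 0, 67108864⟩]]

noncomputable def f_pm_022_s : ℕ → ℕ → ℕ → ℕ → Bool := onCell 1073741824 536870912 0 536870912 923417968 42949674
    (rowNE 3 eng mog cd0q0 cd0q2 pd2 2 false true false .pp 0 2 2 (qsf 0 536870912 0 536870912 2) ndB0q0 ndB0q2 pcB2 cut_pm_022_s Ext.none)

def k0_pm_022_s : ∃ t, chk3 f_pm_022_s t 1 1 1 = true :=
  ⟨(l 6), by decide +kernel⟩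

theorem c_pm_022_s : CertNE 0 536870912 0 536870912 923417968 42949674 3 eng mog cd0q0 cd0q2 pd2 false true false .pp 0 2 2
    ndB0q0 ndB0q2 pcB2 cut_pm_022_s Ext.none :=
  certNE2 (fam := false) (s1 := true) (s2 := false) (a := 0) (b := 2) (c := 2) (cn := .pp) (n1 := ndB0q0) (n2 := ndB0q2) (pc := pcB2) (cut := cut_pm_022_s) (xt := Ext.none) (P1 := 0) (W1 := 536870912) (P2 := 0) (W2 := 536870912) (P3 := 923417968) (W3 := 42949674) (N0 := 3) (En := eng) (mo := mog) (C1 := cd0q0) (C2 := cd0q2) (C3 := pd2)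
    rfl (fun _ => rfl) k0_pm_022_s

noncomputable def cut_pm_022_t : Cut := Cut.of [[⟨3, 0, 0, 2845415833⟩], [⟨0, 0, 0, 67108864⟩, ⟨1, 1, 0, 67108864⟩, ⟨2, 1, 0, 67108864⟩]]

noncomputable def f_pm_022_t : ℕ → ℕ → ℕ → ℕ → Bool := onCell 0 536870912 0 536870912 923417968 42949674
    (rowNE 3 eng mog cd0q0 cd0q2 pd2 0 false true false .pp 0 2 2 (qsf 0 536870912 0 536870912 2) ndB0q0 ndB0q2 pcB2 cut_pm_022_t Ext.none)

def k0_pm_022_t : ∃ t, chk3 f_pm_022_t t 1 1 1 = true :=
  ⟨(a (b (l 6) (a (b (b (l 6) (a (a (a (a (b (b (c (l 16437568) (l 16420432)) (c (a (l 16468904) (l 16481232)) (l 16453560))) (c (b (a (l 16471024) (l 16504480)) (a (l 16503416) (l 16529128))) (b (c (l 16469816) (l 16485680)) (a (l 16486096) (l 16520928))))) (b (b (l 6) (c (l 16499440) (l 16490784))) (b (c (l 16522912) (l 16515392)) (c (l 16547736) (l 16541496))))) (b (a (b (l 6) (l 16520112)) (l 6)) (c (b (l 16516608) (l 16541680)) (b (l 16513128) (l 16539584))))) (b (l 6) (a (c (l 16547440) (l 16545672)) (b (l 6)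 (l 16462264))))) (a (b (l 6) (l 6)) (l 6)))) (a (b (b (b (a (a (a (b (c (l 16521232) (l 16534352)) (c (l 16550352) (l 16548440))) (c (l 16553016) (l 16569152))) (c (l 16547096) (l 16546480))) (a (a (l 16599112) (l 16566792)) (a (l 16534616) (l 16502728)))) (a (b (b (a (a (a (l 16540040) (l 16569152)) (l 16588904)) (l 16585088)) (l 14)) (l 14)) (a (a (l 16596784) (l 16563024)) (a (l 16529440) (l 16496192))))) (a (l 14) (a (l 14) (a (l 14) (a (l 14) (l 1)))))) (a (l 14) (a (l 14) (l 1)))) (b (a (b (a (b (c (l 16462096) (l 16449248)) (c (l 16454248) (l 16440072))) (l 1)) (l 1)) (l 1)) (l 1)))) (b (l 1) (l 1)))) (l 1)), by decide +kernel⟩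

theorem c_pm_022_t : CertNE 0 536870912 0 536870912 923417968 42949674 3 eng mog cd0q0 cd0q2 pd2 false true false .pp 0 2 2
    ndB0q0 ndB0q2 pcB2 cut_pm_022_t Ext.none :=
  certNE0 (fam := false) (s1 := true) (s2 := false) (a := 0) (b := 2) (c := 2) (cn := .pp) (n1 := ndB0q0) (n2 := ndB0q2) (pc := pcB2) (cut := cut_pm_022_t) (xt := Ext.none) (P1 := 0) (W1 := 536870912) (P2 := 0) (W2 := 536870912) (P3 := 923417968) (W3 := 42949674) (N0 := 3) (En := eng) (mo := mog) (C1 := cd0q0) (C2 := cd0q2) (C3 := pd2)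
    rfl k0_pm_022_t

end Pool.Agent.Strip051.G.I8600_9000.Tab.CS.BB00

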