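import Pool.Agent.Strip051.G.I8600_9000.Tab

/-! # Certificates B8 (generated) -/

set_option linter.all false
set_option maxRecDepth 100000

namespace Pool.Agent.Strip051.G.I8600_9000.Tab.C.BB00

open Pool.Agent.Strip051.PB Pool.Agent.Strip051.PB.T
open Pool.Agent.Strip051.G.I8600_9000.Tab

noncomputable def cut_pm_001 : Cut := Cut.of [[⟨3, 0, 0, 1449551462⟩], [⟨4, 0, 0, 2845415833⟩]]

noncomputable def f_pm_001 : ℕ → ℕ → ℕ → ℕ → Bool := onCell 0 536870912 536870912 536870912 923417968 42949674
    (rowB 3 eng mog cd0q0 cd0q1 pd0 0 false true false .up 0 0 1 (qsf 0 536870912 536870912 536870912 0) ndB0q0 ndB0q1 pcB0 cut_pm_001 Ext.none)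

def k0_pm_001 : ∃ t, chk3 f_pm_001 t 1 2 1 = true :=
  ⟨(l 14), by decide +kernel⟩

def k1_pm_001 : ∃ t, chk3 f_pm_001 t 2 6 1 = true :=
  ⟨(l 14), by decide +kernel⟩

def k2_pm_001 : ∃ t, chk3 f_pm_001 t 6 6 1 = true :=
  ⟨(l 14), by decide +kernel⟩

def k3_pm_001 : ∃ t, chk3 f_pm_001 t 7 12 1 = true :=
  ⟨(l 14), by decide +kernel⟩

def k4_pm_001 : ∃ t, chk3 f_pm_001 t 14 13 1 = true :=
  ⟨(a (l 14) (a (l 14) (b (l 14) (b (l 14) (b (l 14) (c (c (b (l 16478656) (l 16473840)) (c (l 16498480) (l 16443440))) (c (c (l 16405736) (a (l 16393648) (l 16379112))) (a (b (l 14) (l 16291288)) (c (l 16335936) (b (l 16298112) (l 16283496))))))))))), by decide +kernel⟩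

def k5_pm_001 : ∃ t, chk3 f_pm_001 t 30 13 1 = true :=
  ⟨(a (b (l 14) (b (b (l 14) (a (l 14) (a (l 14) (c (c (l 16531024) (l 16481080)) (c (l 16393488) (c (l 16358064) (l 16318144))))))) (c (c (b (c (l 16526696) (l 16516648)) (c (l 16513968) (l 16505320))) (c (b (l 16489112) (l 16475352)) (a (l 16433032) (l 16421808)))) (c (c (b (l 16399656) (a (l 16407128) (l 16395128))) (b (a (l 16388184) (l 16375992)) (a (l 16365504) (l 16352872)))) (b (a (c (l 16347624) (b (l 16312560) (l 16297848))) (c (l 16334760) (b (l 16299088) (l 16284160)))) (c (a (l 16321552) (l 16308232)) (a (b (l 16283040) (l 16268168)) (b (l 16269128) (l 16254000))))))))) (b (l 14) (b (c (c (b (c (l 16530424) (l 16521232)) (c (l 16519712) (l 16509136))) (a (b (l 16489568) (l 16473792)) (b (l 16480704) (l 16464704)))) (c (b (a (l 16417624) (l 16397736)) (a (c (l 16424464) (l 16388104)) (l 16375928))) (b (a (c (l 16375784) (l 16338672)) (c (l 16365744) (l 16328128))) (a (c (l 16349584) (l 16309224)) (c (l 16339240) (l 16298376))))))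 (c (c (c (c (l 16498064) (l 16507168)) (l 16501584)) (c (b (l 16469248) (l 16454816)) (a (l 16411360) (l 16401704)))) (c (a (c (l 16375080) (b (l 16364760) (l 16341224))) (b (l 16353848) (l 16331576))) (b (a (c (l 16322960) (l 16279208)) (b (l 16255656) (l 16241208))) (a (c (l 16296008) (b (l 16256392) (l 16241040))) (c (l 16284896) (l 16237080))))))))), by decide +kernel⟩

def k6_pm_001 : ∃ t, chk3 f_pm_001 t 31 13 1 = true :=
  ⟨(a (b (b (l 14) (b (a (l 14) (a (l 14) (b (l 14) (c (l 16490480) (l 16408792))))) (c (c (c (l 16519952) (l 16516296)) (c (l 16496592) (l 16471728))) (c (a (l 16410912) (l 16424512)) (a (c (l 16382960) (l 16348088)) (c (l 16375304) (l 16340144))))))) (c (b (c (c (l 16515576) (l 16497976)) (a (b (l 16472512) (l 16456320)) (b (l 16465000) (l 16448648)))) (c (c (l 16489032) (l 16473312)) (c (b (l 16452008) (l 16436992)) (b (l 16418720) (l 16400720))))) (c (b (b (a (l 16389256) (l 16402680)) (a (l 16367192) (l 16380384))) (b (a (l 16344800) (l 16336736)) (a (l 16322152)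 (l 16313736)))) (b (b (a (c (l 16356776) (l 16318776)) (c (l 16348912) (l 16310616))) (a (c (l 16330000) (l 16288728)) (c (l 16321880) (l 16280312)))) (a (b (c (l 16302696) (l 16258016)) (c (l 16274936) (l 16226704))) (b (c (l 16294264) (l 16249280)) (c (l 16266136) (l 16217584)))))))) (b (b (b (l 14) (c (c (c (l 16517672) (l 16523488)) (l 16481400)) (a (c (l 16460464) (l 16405248)) (b (l 16434360) (l 16422632))))) (c (c (c (l 16503616) (l 16506320)) (c (l 16489720) (a (l 16470160) (l 16464224)))) (c (b (a (l 16439512) (l 16434032)) (a (l 16418064) (l 16412512))) (b (a (l 16378640) (l 16373248)) (a (l 16351280) (l 16345776)))))) (c (c (c (b (l 16484552) (l 16464160)) (b (l 16482384) (l 16457448))) (b (c (b (l 16467792) (l 16452712)) (b (l 16440896) (l 16422888))) (c (a (l 16433096) (l 16426328)) (l 16390016)))) (c (b (b (a (l 16396080) (l 16390408)) (a (l 16373576) (l 16367728))) (b (a (l 16350632) (l 16344544)) (b (l 16308944) (l 16297120)))) (b (b (a (l 16281208) (l 16317472)) (a (l 16252304)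 (l 16288360))) (a (b (l 16222696) (l 16197688)) (b (l 16216544) (l 16185960)))))))), by decide +kernel⟩

def k7_pm_001 : ∃ t, chk3 f_pm_001 t 2 7 1 = true :=
  ⟨(l 2), by decide +kernel⟩

def k8_pm_001 : ∃ t, chk3 f_pm_001 t 6 7 1 = true :=
  ⟨(b (b (l 14) (l 2)) (l 2)), by decide +kernel⟩

def k9_pm_001 : ∃ t, chk3 f_pm_001 t 14 56 1 = true :=
  ⟨(a (b (l 14) (a (l 14) (a (l 14) (a (l 14) (c (c (l 16447504) (l 16439016)) (c (l 16420768) (l 16306928))))))) (a (b (a (l 14) (b (l 14) (c (c (l 16512640) (l 16485112)) (c (l 16404840) (l 16282024))))) (c (c (c (c (l 16504920) (l 16518072)) (l 16532984)) (c (l 16459432) (l 16463528))) (c (c (l 16400432) (l 16355104)) (a (b (l 16298424) (l 16285752)) (b (l 16268936) (l 16245416)))))) (c (c (a (b (l 16467656) (l 16426592)) (b (l 16481384) (l 16446248))) (b (c (l 16485904) (l 16428048)) (c (l 16473872) (l 16434112)))) (c (b (c (l 16387224) (a (l 16372056) (l 16356976))) (c (l 16369088) (a (l 16350752) (l 16335056)))) (b (a (b (l 16277832) (l 16264384))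 (b (l 16261552) (l 16247808))) (a (b (l 16250960) (l 16237576)) (b (l 16228816) (l 16215088)))))))), by decide +kernel⟩

def k10_pm_001 : ∃ t, chk3 f_pm_001 t 14 57 1 = true :=
  ⟨(a (b (a (l 14) (c (c (c (a (l 48955425015) (l 16520344)) (l 16531000)) (c (l 16521392) (l 16483256))) (c (c (l 16440296) (l 16372840)) (c (l 16323568) (a (l 16303784) (l 16282160)))))) (a (l 2) (c (c (c (a (l 67208932855) (l 54324079671)) (l 16490760)) (c (l 16513440) (l 16472696))) (c (c (l 16426536) (l 16355504)) (c (l 16302376) (a (l 16279000) (l 16256432))))))) (c (c (c (c (a (b (l 16485552) (l 16443608)) (b (l 16475368) (l 16456232))) (a (a (l 16429640) (l 16446352)) (l 16459984))) (a (b (l 16522176) (l 16504880)) (l 16473112))) (c (a (b (l 16480696) (l 16481928)) (b (l 16462520) (l 16430992))) (a (b (l 16450536) (l 16438456)) (b (l 16419808) (l 16406264))))) (c (a (b (c (l 16384192) (l 16335320)) (c (l 16368784) (l 16316240))) (b (c (l 16351456) (a (l 16329864) (l 16313456))) (c (l 16334472) (a (l 16309536)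 (l 16292336))))) (a (b (a (b (l 16273192) (l 16260752)) (b (l 16232464) (l 16219608))) (a (b (l 16248464) (l 16236336)) (b (l 16206880) (l 16194288)))) (b (b (a (l 16213760) (l 16196152)) (a (l 16200512) (l 16182512))) (a (b (l 16187352) (l 16174304)) (b (l 16168944) (l 16155456)))))))), by decide +kernel⟩

def k11_pm_001 : ∃ t, chk3 f_pm_001 t 15 28 2 = true :=
  ⟨(a (b (c (a (b (c (l 16500408) (l 16494344)) (c (l 16485896) (l 16483808))) (c (c (l 16471752) (l 16483160)) (l 16467864))) (a (c (b (l 16461912) (l 16448896)) (c (l 16405008) (l 16384016))) (c (b (l 16440584) (l 16426640)) (a (l 16377368) (l 16366872))))) (c (c (a (b (l 16428376) (l 16390608)) (b (l 16456360) (l 16420040))) (a (l 16448072) (l 16425192))) (a (b (c (l 16436416) (l 16392176)) (c (l 16424600) (l 16377224))) (c (b (l 16413104) (l 16400088)) (b (l 16367832) (l 16351568)))))) (a (b (c (c (a (l 16464656) (l 16455768)) (l 16448952)) (c (l 16427056) (b (l 16382704) (l 16364760)))) (c (b (c (l 16440760) (l 16431344)) (a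 (l 16420512) (c (l 16423120) (l 16414840)))) (b (c (l 16392768) (l 16346992)) (c (l 16378216) (l 16308144))))) (b (c (b (l 16387864) (l 16376600)) (c (l 16398600) (l 16347392))) (c (b (l 16344520) (b (l 16336232) (c (l 16366904) (l 16397280)))) (b (a (l 16357376) (l 16349616)) (b (a (l 16344912) (l 16336664)) (a (l 16336592) (l 16328312)))))))), by decide +kernel⟩

def k12_pm_001 : ∃ t, chk3 f_pm_001 t 30 28 3 = true :=
  ⟨(b (c (a (c (a (l 16359896) (l 16344512)) (b (a (l 16342848) (l 16329704)) (a (l 16320320) (l 16306600)))) (b (a (c (l 16363776) (l 16317576)) (l 16314432)) (a (c (l 16343656) (l 16293912)) (l 16292040)))) (a (a (b (c (l 16295352) (b (l 16253232) (l 16238240))) (b (l 16213032) (l 16193728))) (b (c (l 16281520) (b (l 16238800) (l 16223536))) (b (l 16193144) (l 16178768)))) (b (a (b (l 16208920) (l 16194328)) (c (l 16257208) (l 16205696))) (c (a (l 16241416) (l 16229288)) (a (b (l 16194432) (l 16178752)) (l 16173920)))))) (c (c (a (b (a (l 16350192) (l 16336504)) (l 16324752))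 (b (l 16317768) (l 16297904))) (a (b (a (l 16298048) (l 16283664)) (a (l 16276152) (l 16261024))) (b (a (l 16270336) (l 16258104)) (a (l 16246984) (l 16234056))))) (a (a (b (b (l 16179680) (l 16165664)) (b (l 16151696) (l 16137792))) (b (b (l 16164384) (l 16150008)) (b (l 16135656) (l 16121336)))) (b (c (a (l 16213992) (l 16201232)) (a (b (l 16163032) (l 16147280)) (l 16141848))) (c (a (l 16186616) (l 16173160)) (a (b (l 16131504) (l 16115720)) (b (l 16117672) (l 16101512)))))))), by decide +kernel⟩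

def k13_pm_001 : ∃ t, chk3 f_pm_001 t 31 28 3 = true :=
  ⟨(b (c (a (b (a (l 16299336) (l 16290504)) (a (l 16276440) (l 16267128))) (b (a (l 16282720) (l 16296944)) (a (l 16258888) (l 16272688)))) (a (a (b (c (l 16246792) (l 16194848)) (c (l 16218344) (l 16162544))) (b (a (l 16171984) (l 16167600)) (c (l 16208616) (l 16152480)))) (a (b (l 16164240) (c (l 16200112) (l 16143752))) (b (l 16154744) (c (l 16192840) (l 16136368)))))) (c (b (a (a (l 16253560) (l 16243696)) (a (l 16234936) (l 16227264))) (a (a (l 16230800) (b (l 16247128) (c (l 16264752) (l 16205504)))) (b (a (l 16237920) (l 16229752)) (a (l 16185320) (l 16220728))))) (b (a (a (c (l 16189696) (l 16129872)) (c (l 16179392) (l 16119232))) (c (a (l 16170344) (l 16162568)) (a (l 16109952) (l 16102048)))) (a (a (c (l 16160944) (l 16096928)) (b (c (l 16157360) (l 16094064)) (b (l 16114184) (a (l 16109240) (l 16105088))))) (b (a (l 16116408) (a (l 16110072) (l 16106264))) (a (b (a (l 16106632) (l 16102736)) (l 16100872)) (b (l 16078304)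 (l 16097336)))))))), by decide +kernel⟩

def k14_pm_001 : ∃ t, chk3 f_pm_001 t 14 116 1 = true :=
  ⟨(a (a (l 2) (a (l 2) (a (l 2) (c (c (b (l 16382400) (l 2)) (l 16431016)) (c (l 16372432) (l 16235408)))))) (c (a (c (c (a (l 41439079047) (l 16480568)) (l 16485952)) (c (l 16473736) (l 16427448))) (c (c (a (l 16466856) (a (l 16443096) (l 16462088))) (l 16479104)) (c (a (l 16449944) (l 16434768)) (l 16393408)))) (c (a (c (l 16375344) (l 16298048)) (c (l 16318048) (a (l 16289936) (l 16271640)))) (a (a (c (l 16270064) (l 16208240)) (b (l 16181856) (l 16190584))) (a (b (l 16161392) (l 16148640)) (b (l 16142088) (a (l 16175616) (l 16123936)))))))), by decide +kernel⟩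

def k15_pm_001 : ∃ t, chk3 f_pm_001 t 15 116 1 = true :=
  ⟨(c (a (a (c (c (b (l 16398104) (a (a (l 16434360) (l 16390656)) (l 16367312))) (b (l 16457936) (l 16452432))) (c (b (l 16416248) (a (l 16417352) (l 16402928))) (b (l 16366480) (l 16338032)))) (c (b (a (l 16364216) (l 16347768)) (c (l 16351952) (l 16424840))) (c (b (l 16390104) (l 16381792)) (b (l 16318400) (l 16331216))))) (b (c (a (c (l 16350216) (l 16409536)) (l 16404488)) (a (a (l 16327176) (l 16337216)) (l 16323368))) (c (a (l 16395664) (l 16394528)) (a (a (l 16338576) (l 16327808)) (l 16314056))))) (a (c (a (b (c (l 16311296) (l 16252080)) (a (b (l 16282792) (l 16278360)) (b (l 16246208) (l 16263456)))) (b (a (b (l 16262856) (l 16236600)) (c (l 16277184) (l 16216952))) (a (l 16231096) (l 16240064)))) (a (b (a (l 16123968) (l 16107080)) (a (b (l 16155608) (a (l 16101280) (l 16145968))) (b (b (l 16087672) (l 16085216)) (l 16083432)))) (b (a (b (l 16137072) (a (l 16133488) (l 16068656))) (b (a (l 16126272) (l 16119472)) (a (l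 16057480) (l 16115352)))) (a (b (l 16071056) (l 16124280)) (c (l 16147496) (l 16082288)))))) (a (c (b (a (c (l 16266280) (l 16206480)) (l 16227512)) (c (l 16253696) (l 16195888))) (b (a (b (a (l 16050928) (l 16109328)) (l 16109232)) (c (l 16135512) (l 16070688))) (a (c (l 16138760) (l 16074640)) (l 16100408)))) (c (c (l 16241576) (a (l 16188032) (l 16182704))) (c (a (l 16127992) (l 16123928)) (a (l 16065312) (l 16062536))))))), by decide +kernel⟩

def k16_pm_001 : ∃ t, chk3 f_pm_001 t 7 117 1 = true :=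
  ⟨(a (a (l 2) (b (c (a (c (c (a (l 16433568) (b (l 16434744) (c (l 16420152) (l 16438832)))) (l 16387240)) (c (l 16467840) (l 16419464))) (c (c (a (b (l 16432536) (l 16366344)) (b (l 16451776) (l 16430064))) (l 16404848)) (a (c (l 16442536) (l 16392552)) (c (l 16425680) (l 16375264))))) (c (a (a (l 16346344) (l 16304784)) (a (b (l 16308640) (l 16305192)) (l 16268456))) (a (a (l 16222176) (b (l 16202512) (l 16154792))) (a (b (l 16139104) (l 16135576)) (b (l 16120928) (l 16160616)))))) (a (a (l 2) (c (a (a (l 2) (c (l 16340512) (l 16409896))) (c (l 16341304) (l 16391920))) (c (l 16318800) (l 16151160)))) (c (c (a (l 16342328) (l 16363504)) (c (l 16423496) (l 16374144))) (c (a (l 16299424) (l 16281744)) (a (l 16153760) (l 16137312))))))) (a (c (a (c (a (c (l 16366808) (l 16445496)) (l 16339680)) (c (a (l 16403128) (l 16387240)) (l 16345344))) (c (c (l 16381840) (l 16408056)) (c (l 16365664) (l 16295888)))) (c (a (a (b (l 16272848) (l 16265552)) (c (l 16283240) (l 16224992))) (b (c (l 16267432)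 (l 16209456)) (l 16210648))) (c (a (a (l 16177200) (l 16163632)) (a (l 16151664) (l 16141280))) (a (a (l 16112320) (l 16099600)) (a (l 16088528) (l 16079112)))))) (c (c (a (c (l 16414328) (l 16382624)) (c (l 16393024) (l 16361384))) (a (a (l 16323544) (l 16312904)) (a (l 16303528) (l 16295408)))) (a (c (c (l 16262968) (a (l 16191096) (l 16182808))) (c (a (l 16132472) (l 16125232)) (a (l 16071320) (l 16065160)))) (c (c (l 16226272) (a (l 16176008) (l 16170664))) (c (a (l 16119536) (l 16115368)) (a (l 16060608) (l 16057632)))))))), by decide +kernel⟩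

def k17_pm_001 : ∃ t, chk3 f_pm_001 t 7 118 1 = true :=
  ⟨(a (a (l 2) (a (a (l 2) (b (c (c (l 16340696) (l 16373912)) (c (l 16310856) (l 16189560))) (l 2))) (c (c (a (c (l 16366736) (l 16455472)) (l 16362936)) (c (l 16342784) (l 16358296))) (c (a (l 16287704) (l 16249080)) (a (l 16132968) (l 16111192)))))) (c (a (c (a (c (l 16407664) (l 16413064)) (c (l 16417328) (l 16373112))) (a (c (l 16371704) (l 16303680)) (a (l 16326728) (l 16313672)))) (c (a (c (l 16391848) (l 16358456)) (c (l 16369936) (l 16337712))) (a (a (l 16301912) (l 16291456)) (a (l 16282280) (l 16274368))))) (a (c (a (a (l 16232928) (l 16218264)) (b (l 16203032) (a (l 16221992) (l 16210320)))) (a (b (a (l 16140056) (l 16126816)) (l 16087904)) (c (a (l 16142456) (l 16131992)) (a (l 16083640) (l 16074056))))) (a (c (c (l 16225064) (a (l 16177784) (l 16169504))) (c (a (l 16123112) (l 16115784)) (a (l 16066104) (l 16059776)))) (c (c (l 16209512) (l 16159888)) (c (a (l 16110008) (l 16105752)) (a (l 16055048) (l 16051904)))))))),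 by decide +kernel⟩

def k18_pm_001 : ∃ t, chk3 f_pm_001 t 7 119 1 = true :=
  ⟨(a (a (l 2) (a (l 2) (c (c (c (l 16410288) (l 16419416)) (c (l 16358976) (l 16335448))) (c (a (l 16249672) (l 16232072)) (b (l 16113496) (l 16109264)))))) (c (a (c (a (c (l 16419344) (l 16364776)) (c (l 16390200) (l 16356448))) (a (a (l 16332480) (l 16316944)) (a (l 16302736) (l 16289848)))) (c (a (c (l 16364840) (l 16331688)) (c (l 16343424) (l 16311504))) (a (b (l 16279072) (l 16245824)) (c (l 16274848) (l 16234496))))) (a (c (a (b (l 16212872) (l 16204000)) (c (l 16227544) (a (l 16184056) (l 16172784)))) (a (c (a (l 16157800) (l 16144096)) (a (l 16102144) (l 16089112))) (c (a (l 16131984) (l 16121456)) (a (l 16077728) (l 16067992))))) (a (c (c (l 16206472) (l 16158704)) (c (a (l 16112496) (l 16105104)) (a (l 16059880) (l 16053392)))) (c (c (l 16191112) (l 16145152)) (c (l 16096936) (a (l 16048496) (l 16045184)))))))), by decide +kernel⟩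

def k19_pm_001 : ∃ t, chk3 f_pm_001 t 7 60 1 = true :=
  ⟨(b (a (b (a (l 2) (a (l 2) (c (c (l 16393168) (l 16317528)) (c (l 16226840) (l 16104728))))) (l 2)) (c (a (c (a (c (l 16388568) (l 16334624)) (c (l 16359384) (l 16326584))) (a (a (l 16306056) (l 16290680)) (b (l 16276848) (l 16242344)))) (c (a (c (l 16292432) (l 16302296)) (c (l 16313600) (l 16282728))) (a (c (l 16266488) (l 16227632)) (c (l 16248296) (l 16210928))))) (a (a (c (c (l 16233696) (l 16187480)) (c (a (l 16146128) (l 16132376)) (a (l 16095440) (l 16082272)))) (c (c (l 16207040) (l 16161944)) (c (l 16114744) (a (l 16070760) (l 16060880))))) (a (c (c (l 16186176) (l 16142464)) (c (l 16096712) (l 16049120))) (a (b (l 16092424) (l 16085024)) (b (l 16087584) (l 16080176))))))) (a (l 2) (c (a (c (a (c (l 16343480) (l 16322568)) (c (l 16325024) (l 16293960))) (a (b (l 16277024) (l 16262192)) (c (l 16259960) (l 16223456)))) (c (a (b (l 16294320) (l 16277032)) (a (l 16270712) (l 16262112))) (a (c (l 16237168) (l 16201712)) (l 16181800))))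 (a (a (c (a (l 16197992) (l 16183528)) (c (l 16126016) (l 16080776))) (b (a (l 16111752) (l 16100832)) (a (l 16103616) (l 16092712)))) (a (b (a (l 16091456) (l 16083608)) (c (l 16139416) (l 16059440))) (a (c (l 16133480) (l 16053392)) (c (l 16127840) (l 16049376)))))))), by decide +kernel⟩

def k20_pm_001 : ∃ t, chk3 f_pm_001 t 7 61 1 = true :=
  ⟨(a (l 2) (a (a (a (l 2) (b (c (c (l 16293856) (l 16231488)) (b (l 16107536) (l 2))) (l 2))) (c (c (b (a (l 16279704) (l 16266776)) (b (l 16243440) (l 16222632))) (b (l 16199824) (b (l 16187312) (l 16170344)))) (b (b (c (l 16148448) (l 16070952)) (c (l 16137088) (l 16064680))) (c (a (l 16124976) (l 16113768)) (b (l 16058088) (l 16051152)))))) (c (a (c (b (a (l 16255064) (l 16244552)) (b (l 16220608) (l 16200256))) (b (c (l 16205528) (l 16173776)) (b (l 16166008) (l 16149376)))) (c (b (b (l 16240152) (l 16221800)) (b (l 16202696) (l 16182856))) (b (c (l 16188576) (l 16158016)) (b (l 16150136) (l 16133864))))) (a (b (c (c (l 16140360) (l 16105408))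 (c (l 16069032) (l 16031304))) (c (a (l 16104056) (l 16095808)) (b (l 16040528) (l 16033600)))) (b (c (c (l 16125840) (l 16092184)) (a (l 16041312) (l 16037240))) (c (c (l 16100624) (l 16071536)) (c (l 16041352) (l 16010120)))))))), by decide +kernel⟩

def k21_pm_001 : ∃ t, chk3 f_pm_001 t 7 31 1 = true :=
  ⟨(a (l 2) (a (b (b (b (a (l 2) (a (l 2) (c (l 16171600) (l 16067360)))) (l 2)) (l 2)) (l 2)) (a (a (b (b (c (c (l 16173112) (l 16127864)) (c (l 16078856) (l 16026368))) (b (c (l 206257851127) (l 16036968)) (l 2))) (l 2)) (b (b (c (c (l 16163568) (l 16119040)) (c (l 16070824) (l 16019192))) (b (c (c (l 16129896) (l 16091728)) (l 16029480)) (c (l 16102848) (l 16027696)))) (b (l 16099848) (l 2)))) (b (b (c (c (b (l 16162240) (l 16140848)) (b (l 16117032) (l 16099600))) (c (b (l 16067888) (l 16055120)) (a (l 16013584) (l 16009520)))) (b (c (a (c (l 16121968) (l 16084584)) (b (l 16102552) (l 16113728))) (c (a (l 16044576) (l 16039880)) (l 16021160))) (a (c (l 16097168) (l 16023056)) (l 16057424))))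 (b (c (l 16104384) (l 16034952)) (l 16066368)))))), by decide +kernel⟩

theorem s22_pm_001 : ∃ t, chk3 f_pm_001 t 7 30 1 = true := ex3_b k19_pm_001 k20_pm_001

theorem s23_pm_001 : ∃ t, chk3 f_pm_001 t 7 15 1 = true := ex3_b s22_pm_001 k21_pm_001

theorem s24_pm_001 : ∃ t, chk3 f_pm_001 t 7 59 1 = true := ex3_b k17_pm_001 k18_pm_001

theorem s25_pm_001 : ∃ t, chk3 f_pm_001 t 7 116 1 = true := ex3_a k14_pm_001 k15_pm_001

theorem s26_pm_001 : ∃ t, chk3 f_pm_001 t 7 58 1 = true := ex3_b s25_pm_001 k16_pm_001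

theorem s27_pm_001 : ∃ t, chk3 f_pm_001 t 7 29 1 = true := ex3_b s26_pm_001 s24_pm_001

theorem s28_pm_001 : ∃ t, chk3 f_pm_001 t 15 28 3 = true := ex3_a k12_pm_001 k13_pm_001

theorem s29_pm_001 : ∃ t, chk3 f_pm_001 t 15 28 1 = true := ex3_c k11_pm_001 s28_pm_001

theorem s30_pm_001 : ∃ t, chk3 f_pm_001 t 14 28 1 = true := ex3_b k9_pm_001 k10_pm_001

theorem s31_pm_001 : ∃ t, chk3 f_pm_001 t 7 28 1 = true := ex3_a s30_pm_001 s29_pm_001

theorem s32_pm_001 : ∃ t, chk3 f_pm_001 t 7 14 1 = true := ex3_b s31_pm_001 s27_pm_001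

theorem s33_pm_001 : ∃ t, chk3 f_pm_001 t 7 7 1 = true := ex3_b s32_pm_001 s23_pm_001

theorem s34_pm_001 : ∃ t, chk3 f_pm_001 t 3 7 1 = true := ex3_a k8_pm_001 s33_pm_001

theorem s35_pm_001 : ∃ t, chk3 f_pm_001 t 1 7 1 = true := ex3_a k7_pm_001 s34_pm_001

theorem s36_pm_001 : ∃ t, chk3 f_pm_001 t 15 13 1 = true := ex3_a k5_pm_001 k6_pm_001

theorem s37_pm_001 : ∃ t, chk3 f_pm_001 t 7 13 1 = true := ex3_a k4_pm_001 s36_pm_001

theorem s38_pm_001 : ∃ t, chk3 f_pm_001 t 7 6 1 = true := ex3_b k3_pm_001 s37_pm_001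

theorem s39_pm_001 : ∃ t, chk3 f_pm_001 t 3 6 1 = true := ex3_a k2_pm_001 s38_pm_001

theorem s40_pm_001 : ∃ t, chk3 f_pm_001 t 1 6 1 = true := ex3_a k1_pm_001 s39_pm_001

theorem s41_pm_001 : ∃ t, chk3 f_pm_001 t 1 3 1 = true := ex3_b s40_pm_001 s35_pm_001

theorem s42_pm_001 : ∃ t, chk3 f_pm_001 t 1 1 1 = true := ex3_b k0_pm_001 s41_pm_001

theorem c_pm_001 : CertB 0 536870912 536870912 536870912 923417968 42949674 3 eng mog cd0q0 cd0q1 pd0 false true false .up 0 0 1
    ndB0q0 ndB0q1 pcB0 cut_pm_001 Ext.none :=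
  certB0 (fam := false) (s1 := true) (s2 := false) (a := 0) (b := 0) (c := 1) (cn := .up) (n1 := ndB0q0) (n2 := ndB0q1) (pc := pcB0) (cut := cut_pm_001) (xt := Ext.none) (P1 := 0) (W1 := 536870912) (P2 := 536870912) (W2 := 536870912) (P3 := 923417968) (W3 := 42949674) (N0 := 3) (En := eng) (mo := mog) (C1 := cd0q0) (C2 := cd0q1) (C3 := pd0)
    rfl s42_pm_001

noncomputable def cut_pm_011 : Cut := Cut.of [[⟨3, 0, 0, 1449551462⟩], [⟨4, 0, 0, 2845415833⟩], [⟨0, 0, 0, 67108864⟩, ⟨1, 1, 0, 67108864⟩, ⟨2, 1, 0, 67108864⟩]]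

noncomputable def f_pm_011 : ℕ → ℕ → ℕ → ℕ → Bool := onCell 536870912 536870912 536870912 536870912 923417968 42949674
    (rowB 3 eng mog cd0q0 cd0q1 pd1 2 false true false .pnn 0 1 1 (qsf 0 536870912 536870912 536870912 1) ndB0q0 ndB0q1 pcB1 cut_pm_011 Ext.none)

def k0_pm_011 : ∃ t, chk3 f_pm_011 t 1 2 1 = true :=
  ⟨(l 4), by decide +kernel⟩

def k1_pm_011 : ∃ t, chk3 f_pm_011 t 1 6 1 = true :=
  ⟨(l 14), by decide +kernel⟩

def k2_pm_011 : ∃ t, chk3 f_pm_011 t 4 28 1 = true :=
  ⟨(a (a (b (l 14) (a (c (b (c (l 16516880) (l 16477496)) (c (l 16468240) (l 16447968))) (b (l 16467136) (l 16413432))) (b (l 14) (b (l 14) (c (l 16491576) (l 16426248)))))) (l 14)) (l 14)), by decide +kernel⟩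

def k3_pm_011 : ∃ t, chk3 f_pm_011 t 4 58 1 = true :=
  ⟨(b (a (a (a (c (a (l 16425128) (l 16434312)) (l 16380552)) (c (c (l 16480056) (l 16437512)) (l 16400896))) (a (c (a (l 16463504) (l 16494720)) (l 16401752)) (l 14))) (l 14)) (a (a (a (c (b (a (l 16403552) (l 16412608)) (c (a (l 16403232) (l 16410936)) (l 16404944))) (b (l 16355696) (a (l 16340912) (l 16346984)))) (c (b (l 16447504) (a (c (l 16419104) (l 16395168)) (l 16416448))) (a (l 16425448) (l 16372152)))) (a (c (a (l 16454648) (l 16464664)) (l 16388080)) (c (a (l 16474960) (l 16485512)) (l 16400176)))) (a (a (a (c (l 16496320) (l 16428504)) (l 14)) (l 14)) (l 14)))), by decide +kernel⟩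

def k4_pm_011 : ∃ t, chk3 f_pm_011 t 4 59 1 = true :=
  ⟨(a (a (c (b (a (c (l 16433792) (l 16372656)) (c (b (a (l 16407984) (l 16415848)) (l 16401600)) (b (l 16389424) (l 16381992)))) (a (c (l 16371368) (l 16357992)) (c (l 16385904) (l 16370896)))) (a (b (l 16403096) (l 16335768)) (b (c (l 16404512) (l 16337120)) (l 16345888)))) (b (c (a (b (c (a (l 16424120) (l 16432960)) (l 16446832)) (c (l 16417128) (l 16395536))) (b (a (l 16430952) (l 16441416)) (c (a (l 16429800) (l 16438792)) (l 16453080)))) (a (b (a (l 16360080) (l 16368392)) (l 16359136)) (b (l 16384008) (a (l 16367800) (l 16396232))))) (c (a (c (l 16401040) (l 16384256)) (c (l 16459272) (l 16398704))) (a (l 16377208) (l 16430496))))) (a (b (c (a (a (b (l 16452104) (b (l 16440248) (l 16454088))) (b (l 16463048) (l 16468064))) (a (c (l 16477312) (l 16454688)) (l 14))) (a (b (l 16407456) (a (l 16384400) (l 16395184))) (l 16423000))) (c (c (a (b (a (l 16436016) (l 16445344)) (l 16429088)) (b (a (l 16455072) (l 16465312)) (l 16447656)))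 (a (b (l 16418488) (l 16410288)) (b (a (l 16431744) (l 16441864)) (l 16426936)))) (a (c (l 16454984) (l 16388696)) (b (b (l 16379232) (l 16457648)) (l 16392320))))) (b (l 14) (a (c (b (a (l 16485920) (l 14)) (c (a (l 16462568) (l 16473040)) (l 16497944))) (b (l 16415472) (c (l 16442048) (l 16415584)))) (l 14))))), by decide +kernel⟩

def k5_pm_011 : ∃ t, chk3 f_pm_011 t 4 15 2 = true :=
  ⟨(b (a (b (b (a (a (l 16367160) (c (l 16364336) (l 16355408))) (a (c (l 16379144) (l 16368760)) (c (l 16394752) (l 16382784)))) (a (a (l 16326968) (l 16340904)) (a (l 16375752) (l 16390160)))) (a (b (a (l 16307488) (l 16321528)) (a (l 16288096) (l 16302256))) (b (a (l 16335400) (l 16370592)) (a (l 16316328) (l 16330280))))) (a (a (b (b (c (l 16411648) (l 16398048)) (c (l 16388096) (l 16381432))) (b (l 16364600) (l 16344776))) (b (b (c (l 16450752) (l 16414464)) (c (l 16405624) (l 16397520))) (b (l 16401888) (l 16360544)))) (b (b (c (a (b (l 16455280) (l 16443008)) (b (l 16518112) (l 16463432))) (a (l 16432024)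 (b (l 16455184) (l 16446344)))) (a (c (l 16424408) (l 16414776)) (c (l 16444440) (l 16433176)))) (b (a (l 16440432) (c (l 16419000) (l 16415560))) (a (l 16356624) (l 16374936)))))) (a (a (b (b (a (l 16269224) (l 16283512)) (b (l 16178920) (l 16170408))) (b (l 16180600) (l 16209232))) (b (b (a (l 16297688) (l 16311624)) (b (l 16228416) (l 16177952))) (a (l 16215112) (l 16228480)))) (a (a (b (b (l 16325896) (l 16224448)) (l 16241432)) (b (b (l 16340968) (l 16238928)) (l 16275840))) (a (b (b (l 16357456) (l 16275688)) (l 16247736)) (b (b (l 16375248) (l 16355688)) (l 16263208)))))), by decide +kernel⟩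

def k6_pm_011 : ∃ t, chk3 f_pm_011 t 4 15 3 = true :=
  ⟨(a (b (a (b (b (a (l 16330208) (l 16341032)) (a (l 16323968) (l 16335744))) (b (l 16260880) (l 16286336))) (b (a (b (l 16351864) (l 16346984)) (b (l 16363184) (l 16358456))) (c (b (l 16346232) (l 16337728)) (a (l 16343888) (l 16355616))))) (b (a (b (l 16291312) (b (l 16308736) (l 16303208))) (b (l 16297512) (b (l 16337784) (l 16334856)))) (a (l 16257200) (l 16309816)))) (b (a (b (b (a (l 16375640) (l 16431080)) (a (l 16370976) (l 16384560))) (b (a (l 16366400) (l 16380040)) (l 16306088))) (b (b (a (c (l 16413456) (l 16393456)) (b (a (l 16416168) (l 14)) (l 16418024))) (a (l 16399176) (l 16393808))) (b (a (l 16394744) (l 16410480)) (a (l 16390776) (l 16406608))))) (b (a (b (l 16324416) (c (l 16351288) (l 16379000))) (b (l 16353528) (a (l 16386392) (l 16402016)))) (a (l 16338776) (b (l 16380544) (l 16357168)))))), by decide +kernel⟩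

def k7_pm_011 : ∃ t, chk3 f_pm_011 t 5 7 1 = true :=
  ⟨(b (l 14) (a (b (b (a (a (b (a (b (l 14) (b (l 14) (l 16512392))) (l 14)) (c (c (l 16455144) (l 16452648)) (l 16418224))) (b (l 14) (b (l 14) (c (l 16469848) (l 16447712))))) (l 14)) (b (a (c (a (c (l 16439672) (l 16434784)) (c (l 16461480) (l 16455048))) (a (l 16427176) (l 16423808))) (a (c (c (l 16484312) (l 16476256)) (l 16442224)) (l 14))) (a (c (a (l 16394472) (l 16436120)) (a (l 16423440) (l 16441224))) (c (c (a (l 16457544) (l 16480896)) (a (l 16458216) (l 16480112))) (a (l 16459848) (l 16479224)))))) (b (b (a (a (c (l 16394296) (l 16420552)) (c (l 16414552) (l 16438480))) (a (c (l 16414936) (l 16457296)) (c (l 16416304) (l 16476920)))) (a (c (b (l 16325968) (l 16316104)) (l 16406912)) (c (a (l 16393968) (l 16394992)) (l 16381976)))) (a (c (a (l 16238248) (b (l 16373048) (l 16351336))) (b (l 16374832) (l 16391224))) (b (b (c (c (l 16398544) (l 16402088)) (l 16464728)) (l 16298696)) (c (l 16359576) (l 16430584)))))) (b (b (l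 14) (a (a (a (b (l 14) (b (l 14) (l 16492848))) (l 14)) (l 14)) (l 14))) (b (b (a (c (a (l 16418600) (c (l 16502512) (l 16508192))) (a (l 16497280) (l 16517912))) (l 14)) (a (a (c (l 16417896) (l 16496504)) (c (l 16441608) (l 16517656))) (a (c (l 16507568) (l 16538880)) (l 14)))) (a (c (b (c (l 16354328) (l 16462160)) (l 16381936)) (b (b (l 16477984) (l 16486672)) (l 16474496))) (b (b (a (l 16399752) (c (l 16515976) (l 16527872))) (a (l 16380440) (c (l 16504712) (l 16508928)))) (c (l 16470968) (l 16496648)))))))), by decide +kernel⟩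

def k8_pm_011 : ∃ t, chk3 f_pm_011 t 3 7 1 = true :=
  ⟨(a (b (l 14) (a (b (l 14) (b (l 14) (a (a (b (b (l 14) (c (l 16528920) (l 16518832))) (l 16468488)) (b (l 14) (l 16482800))) (l 14)))) (l 14))) (l 14)), by decide +kernel⟩

theorem s9_pm_011 : ∃ t, chk3 f_pm_011 t 4 15 1 = true := ex3_c k5_pm_011 k6_pm_011

theorem s10_pm_011 : ∃ t, chk3 f_pm_011 t 4 29 1 = true := ex3_b k3_pm_011 k4_pm_011

theorem s11_pm_011 : ∃ t, chk3 f_pm_011 t 4 14 1 = true := ex3_b k2_pm_011 s10_pm_011

theorem s12_pm_011 : ∃ t, chk3 f_pm_011 t 4 7 1 = true := ex3_b s11_pm_011 s9_pm_011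

theorem s13_pm_011 : ∃ t, chk3 f_pm_011 t 2 7 1 = true := ex3_a s12_pm_011 k7_pm_011

theorem s14_pm_011 : ∃ t, chk3 f_pm_011 t 1 7 1 = true := ex3_a s13_pm_011 k8_pm_011

theorem s15_pm_011 : ∃ t, chk3 f_pm_011 t 1 3 1 = true := ex3_b k1_pm_011 s14_pm_011

theorem s16_pm_011 : ∃ t, chk3 f_pm_011 t 1 1 1 = true := ex3_b k0_pm_011 s15_pm_011

theorem c_pm_011 : CertB 0 536870912 536870912 536870912 923417968 42949674 3 eng mog cd0q0 cd0q1 pd1 false true false .pnn 0 1 1
    ndB0q0 ndB0q1 pcB1 cut_pm_011 Ext.none :=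
  certB2 (fam := false) (s1 := true) (s2 := false) (a := 0) (b := 1) (c := 1) (cn := .pnn) (n1 := ndB0q0) (n2 := ndB0q1) (pc := pcB1) (cut := cut_pm_011) (xt := Ext.none) (P1 := 0) (W1 := 536870912) (P2 := 536870912) (W2 := 536870912) (P3 := 923417968) (W3 := 42949674) (N0 := 3) (En := eng) (mo := mog) (C1 := cd0q0) (C2 := cd0q1) (C3 := pd1)
    rfl (fun _ => rfl) s16_pm_011

noncomputable def cut_pm_012 : Cut := Cut.of [[⟨3, 0, 0, 1449551462⟩], [⟨4, 0, 0, 2845415833⟩], [⟨0, 0, 0, 67108864⟩, ⟨1, 1, 0, 67108864⟩, ⟨2, 1, 0, 67108864⟩]]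

noncomputable def f_pm_012 : ℕ → ℕ → ℕ → ℕ → Bool := onCell 536870912 536870912 0 536870912 923417968 42949674
    (rowB 3 eng mog cd0q0 cd0q2 pd1 2 false true false .pnp 0 1 2 (qsf 0 536870912 0 536870912 1) ndB0q0 ndB0q2 pcB1 cut_pm_012 Ext.none)

def k0_pm_012 : ∃ t, chk3 f_pm_012 t 4 2 1 = true :=
  ⟨(a (l 2) (b (l 2) (b (l 2) (a (l 2) (a (l 2) (b (l 2) (c (l 320611495831) (b (l 16267064) (l 16263520))))))))), by decide +kernel⟩

def k1_pm_012 : ∃ t, chk3 f_pm_012 t 10 4 1 = true :=
  ⟨(b (l 6) (b (b (l 6) (a (l 6) (a (l 6) (c (l 16371976) (l 16433832))))) (a (a (l 2) (a (c (l 131633164375) (l 16434504)) (c (l 16325440) (l 16422568)))) (b (c (a (l 16373520) (l 16340824)) (a (l 16417304) (l 16387088))) (c (a (l 16319456) (l 16310176)) (a (l 16389864) (l 16361920))))))), by decide +kernel⟩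

def k2_pm_012 : ∃ t, chk3 f_pm_012 t 10 5 1 = true :=
  ⟨(b (a (a (a (l 2) (b (a (l 2) (c (l 16287912) (l 16363280))) (b (c (l 16235232) (l 16319600)) (c (b (b (l 16212840) (l 16205408)) (l 16203096)) (b (l 16276624) (l 16290664)))))) (b (c (b (c (l 16280592) (l 16315096)) (c (l 16244544) (l 16281856))) (b (l 16371408) (l 16332248))) (c (b (b (l 16237152) (a (l 16221824) (b (l 16222648) (l 16217608)))) (a (b (l 16211040) (l 16209624)) (l 16216424))) (b (a (l 16294896) (b (l 16320096) (l 16286488))) (a (b (l 16298752) (l 16294024)) (l 16299664)))))) (b (c (a (b (l 16286832) (l 16254720)) (b (l 16280088) (b (l 16258264) (a (l 16244296) (l 16248264))))) (a (b (l 16342000) (l 16326192)) (b (l 16347880) (b (l 16328856) (a (l 16307728) (l 16331832)))))) (c (a (b (b (a (l 16231968) (l 16233528)) (a (l 16224312) (l 16230648))) (l 16227296)) (b (a (l 16238760) (l 16245976)) (l 16241952))) (a (b (a (b (l 16317680) (l 16309992)) (b (l 16297912) (l 16313488))) (l 16285024)) (b (a (l 16299480) (l 16324744))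 (l 16293984)))))) (a (b (c (a (b (l 47881021623) (l 16203736)) (b (l 16214496) (l 16216840))) (a (c (l 16260488) (l 16323608)) (c (l 16269488) (l 16308480)))) (c (a (l 16251552) (l 16221928)) (a (b (l 16274040) (l 16270304)) (b (l 16281168) (l 16277296))))) (c (b (a (b (l 16228368) (l 16230184)) (l 16285064)) (a (l 16234560) (l 16247408))) (b (a (c (l 16278976) (l 16315016)) (c (l 16288984) (l 16322280))) (b (a (l 16288968) (l 16297400)) (l 16268224)))))), by decide +kernel⟩

def k3_pm_012 : ∃ t, chk3 f_pm_012 t 11 4 1 = true :=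
  ⟨(a (b (b (l 6) (a (l 6) (b (l 6) (c (l 16409904) (l 16466784))))) (b (c (a (b (l 16391056) (l 16361792)) (c (l 16354320) (l 16384384))) (a (b (l 16450296) (l 16426152)) (b (l 16444312) (l 16411904)))) (c (a (b (l 16333048) (l 16304912)) (b (l 16329360) (l 16303776))) (a (b (l 16381656) (l 16369312)) (c (l 16392448) (l 16390080)))))) (a (b (b (l 6) (a (c (l 16417480) (l 16473960)) (c (l 16414528) (l 16472320)))) (c (b (c (l 16350528) (l 16381720)) (b (l 16329864) (b (l 16312520) (a (l 16299648) (l 16304816))))) (b (b (l 16442304) (l 16425296)) (b (c (l 16384464) (l 16423808)) (b (l 16379792) (a (l 16379312) (l 16373816))))))) (b (a (b (l 6) (c (l 16412712) (l 16482296))) (c (b (l 16458424) (l 16412032)) (b (l 16551872) (l 16482920)))) (c (b (c (l 16351064) (l 16383376)) (b (a (l 16333064) (l 16336008)) (a (l 16357432) (l 16322912)))) (b (c (l 16396896) (l 16451904)) (b (a (l 16408648) (c (l 16392520) (l 16433184))) (a (c (l 16373152) (l 16393688)) (c (l 16379480) (l 16399232))))))))),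 by decide +kernel⟩

def k4_pm_012 : ∃ t, chk3 f_pm_012 t 11 5 1 = true :=
  ⟨(b (a (c (b (a (b (a (l 16277680) (l 16297976)) (a (b (l 16258720) (l 16254632)) (l 16263960))) (b (a (b (l 16284424) (l 16275064)) (b (l 16286680) (l 16281864))) (l 16275352))) (a (b (l 16257592) (l 16256792)) (b (l 16273168) (l 16271776)))) (b (a (b (a (l 16357488) (b (l 16363448) (l 16352608))) (b (a (l 16320744) (l 16346096)) (l 16317408))) (b (a (b (l 16364864) (l 16356528)) (b (l 16356960) (l 16361376))) (c (l 16331368) (l 16371792)))) (a (a (l 16310104) (l 16315088)) (a (l 16314952) (l 16320192))))) (c (b (a (b (a (l 16292088) (l 16299712)) (l 16291736)) (c (l 16293888) (l 16326120))) (a (b (l 16288872) (l 16286832)) (l 16323328))) (b (c (a (b (l 16374352) (l 16343952)) (l 16360592)) (a (b (a (l 16391528) (l 16395968)) (l 16381656)) (b (l 16403504) (l 16391352)))) (a (a (l 16325624) (l 16330952)) (c (l 16344416) (l 16353920)))))) (a (c (b (a (l 16257136) (l 16271504)) (a (l 16260456) (l 16273688))) (b (a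 (c (l 16299472) (l 16330240)) (c (l 16310648) (l 16339120))) (a (b (l 16306432) (l 16302344)) (b (l 16316096) (l 16311848))))) (c (b (a (l 16285296) (l 16297976)) (a (l 16286152) (l 16296808))) (b (a (c (l 16321472) (l 16347808)) (c (l 16331328) (l 16355632))) (a (b (l 16325456) (l 16320648)) (c (l 16321536) (l 16339696))))))), by decide +kernel⟩

def k5_pm_012 : ∃ t, chk3 f_pm_012 t 4 3 1 = true :=
  ⟨(b (a (l 2) (b (a (l 2) (b (c (a (l 16197048) (l 16208696)) (a (l 16274352) (l 16259904))) (a (c (l 16212880) (l 16251832)) (c (l 16223656) (l 16258152))))) (a (c (a (l 277124698023) (l 16212464)) (b (l 16223144) (l 16250600))) (b (a (l 16221568) (l 16230032)) (c (l 16260664) (l 16264824)))))) (b (a (a (l 2) (a (b (l 2) (l 16238784)) (b (l 16228504) (l 16270856)))) (b (a (l 16201128) (l 16283784)) (a (l 16203632) (l 16227576)))) (c (a (a (b (l 16273016) (l 16099264)) (b (l 16302296) (l 16165944))) (b (a (l 16331400) (l 16362328)) (a (l 16167672) (l 16212560)))) (a (b (a (l 16249968) (l 16274880))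 (a (l 16267232) (l 16298280))) (b (a (l 16300360) (l 16329232)) (a (l 16332824) (l 16366880))))))), by decide +kernel⟩

def k6_pm_012 : ∃ t, chk3 f_pm_012 t 5 3 1 = true :=
  ⟨(a (b (b (a (c (b (a (l 16220040) (l 16231640)) (a (l 16234336) (l 16245416))) (b (a (l 16266336) (l 16273424)) (a (l 16264656) (l 16271984)))) (c (b (a (l 16243488) (l 16255568)) (a (l 16256752) (l 16268672))) (b (a (l 16281168) (l 16289536)) (a (l 16279976) (l 16289016))))) (a (b (a (l 16239056) (l 16248560)) (b (l 16255888) (l 16286992))) (b (a (l 16258528) (l 16268952)) (b (l 16276712) (l 16287328))))) (b (b (a (l 16264272) (l 16264280)) (a (l 16337136) (l 16359984))) (b (a (c (l 16391304) (l 16356768)) (l 16336936)) (a (a (l 16209016) (l 16224232)) (a (l 16240824) (l 16258728)))))) (b (b (a (a (b (c (l 16268008) (l 16319672)) (c (l 16280008) (l 16297720))) (b (c (l 16279880) (l 16328552)) (c (l 16290696) (l 16306016)))) (c (b (a (l 16290648) (l 16299496)) (a (l 16299568) (l 16306784))) (b (a (l 16336488) (l 16384488))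 (a (l 16312536) (l 16317448))))) (a (b (a (l 16278784) (c (l 16306520) (l 16309776))) (c (l 16324672) (l 16296160))) (b (c (l 16338176) (a (l 16315336) (l 16319392))) (c (l 16337496) (a (l 16325008) (l 16328608)))))) (b (b (a (l 16281584) (c (l 16365384) (l 16323776))) (a (a (l 16372944) (l 16379944)) (l 16283432))) (c (b (a (l 16436056) (l 16450488)) (a (l 16309224) (l 16351288))) (b (a (l 16399272) (l 16412736)) (a (l 16446416) (l 16463488))))))), by decide +kernel⟩

def k7_pm_012 : ∃ t, chk3 f_pm_012 t 12 4 1 = true :=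
  ⟨(b (a (c (a (b (c (l 16443352) (l 16468456)) (l 16405872)) (b (l 16454352) (l 16409864))) (b (a (c (l 16495256) (l 16523752)) (c (l 16495768) (l 16525568))) (a (c (l 16458376) (l 16491448)) (c (l 16462656) (l 16496840))))) (c (a (b (l 16455576) (l 16420224)) (b (l 16459320) (l 16435696))) (c (a (b (l 16498608) (l 16469128)) (b (l 16503736) (l 16477808))) (a (b (l 16529536) (b (l 16510224) (l 16498224))) (b (l 16551360) (b (l 16518824) (l 16508528))))))) (a (a (c (b (c (l 16355000) (l 16388344)) (b (b (l 16409936) (l 16382528)) (l 16333896))) (b (c (l 16402936) (b (l 16468752) (l 16454584))) (b (a (b (l 16421368) (l 16416832)) (b (l 16431248) (l 16424920))) (c (l 16387704) (l 16426440))))) (c (b (b (l 16387072) (a (l 16366760) (l 16392536))) (b (a (l 16353776) (l 16360104)) (l 16347984))) (b (c (b (l 16439320) (a (l 16421864) (l 16426736))) (b (l 16476872) (a (l 16461464) (b (l 16470168) (l 16463800))))) (b (a (b (a (l 16430408) (l 16432920)) (l 16424152)) (l 16474184)) (c (l 16398000)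 (l 16434024)))))) (b (c (a (b (a (l 16392912) (l 16397192)) (c (l 16364656) (l 16419832))) (b (c (l 16389280) (l 16422944)) (l 16392992))) (c (a (b (l 16427104) (b (l 16417536) (l 16431264))) (b (a (l 16456080) (l 16440872)) (l 16443504))) (a (b (a (l 16484216) (l 16489240)) (b (a (l 16475208) (l 16469912)) (l 16467080))) (b (a (b (l 16498136) (l 16492112)) (b (l 16503528) (l 16495704))) (l 16482416))))) (c (a (c (l 16349952) (l 16380624)) (l 16362848)) (c (a (l 16392376) (l 16399592)) (a (b (l 16435472) (l 16439864)) (a (l 16451680) (l 16453568)))))))), by decide +kernel⟩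

def k8_pm_012 : ∃ t, chk3 f_pm_012 t 13 8 1 = true :=
  ⟨(a (c (b (a (l 16465624) (l 16485064)) (a (b (l 16444464) (a (l 16427728) (l 16433824))) (b (l 16468632) (a (l 16440328) (l 16445728))))) (b (a (c (l 16511208) (c (l 16535560) (l 16552368))) (c (l 16521104) (c (l 16545944) (l 16563080)))) (c (a (b (l 16494016) (a (l 16479680) (l 16464544))) (b (l 16516096) (a (l 16491168) (l 16495024)))) (a (b (l 16529552) (a (l 16537904) (b (l 16526120) (b (l 16522360) (l 16518328))))) (b (a (l 16539040) (c (l 16535952) (l 16562296))) (b (a (b (l 16533800) (l 16530696)) (l 16556824)) (l 16544712))))))) (c (b (a (b (l 16491680) (l 16480800)) (a (l 16538024) (b (l 16509552) (l 16519800)))) (a (b (a (l 16465752) (l 16472184)) (l 16452568)) (l 16532848))) (b (a (c (a (l 16530176) (l 16536952)) (b (l 16528752) (c (l 16554952) (l 16541280)))) (c (b (l 16552080) (b (l 16504288) (a (l 16537912) (l 16542776)))) (b (l 16585352) (a (b (l 16577192) (c (l 16563848) (l 16555520))) (b (a (l 16562296) (l 16586784))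 (l 16576640)))))) (a (b (c (a (l 16515480) (l 16541768)) (a (b (l 16575744) (c (l 16539360) (l 16557696))) (b (c (l 16551704) (a (l 16569040) (l 16571184))) (l 16550024)))) (a (l 16556240) (l 16558024))) (c (l 16555976) (b (c (l 16549216) (l 16534616)) (c (l 16525848) (l 16541472)))))))), by decide +kernel⟩

def k9_pm_012 : ∃ t, chk3 f_pm_012 t 13 9 1 = true :=
  ⟨(a (c (b (a (b (a (l 16415016) (l 16420040)) (l 16403712)) (a (l 16417880) (l 16422304))) (a (l 16364216) (l 16371896))) (b (c (a (a (b (l 16466472) (l 16448768)) (l 16460680)) (l 16464888)) (a (b (a (a (l 16544704) (l 16503576)) (l 16505088)) (l 16483888)) (b (l 16549464) (l 16486544)))) (a (c (l 16426192) (a (l 16455088) (l 16456256))) (c (l 16430344) (l 16465240))))) (c (b (a (l 16438776) (l 16435080)) (a (l 16399128) (l 16404104))) (b (c (a (l 16469256) (l 16472328)) (a (b (l 16509560) (l 16487848)) (b (l 16510336) (l 16487904)))) (a (c (l 16433144) (l 16457688)) (c (l 16434704) (l 16456800)))))), by decide +kernel⟩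

def k10_pm_012 : ∃ t, chk3 f_pm_012 t 6 5 1 = true :=
  ⟨(a (b (a (c (b (a (c (l 16309688) (l 16339664)) (l 16378952)) (a (l 16314936) (l 16325672))) (b (a (c (l 16371728) (l 16384904)) (c (l 16380808) (l 16391480))) (a (c (l 16353824) (l 16361040)) (c (l 16361448) (l 16366432))))) (c (b (a (l 16368744) (l 16356824)) (a (l 16334672) (l 16342032))) (b (a (c (l 16388152) (l 16396360)) (c (l 16393856) (l 16399664))) (a (c (l 16367408) (l 16370208)) (c (l 16371808) (l 16372488)))))) (a (c (b (a (l 16308688) (l 16317648)) (a (l 16305712) (l 16312944))) (b (a (c (l 16339264) (l 16361568)) (c (l 16345512) (l 16365856))) (a (c (l 16328040) (l 16344472)) (c (l 16332936) (l 16347688))))) (c (b (a (l 16324960) (l 16330712)) (a (l 16318616) (l 16322840))) (b (a (c (l 16350168) (l 16368600)) (c (l 16353352) (l 16369936))) (a (c (l 16336344) (l 16349456)) (c (l 16338368) (l 16349896))))))) (b (a (c (b (a (l 16364256) (l 16370208)) (a (l 16347864) (l 16352320))) (b (a (c (l 16398040) (l 16401528)) (c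 (l 16400816) (l 16402016))) (a (c (l 16374768) (l 16373376)) (c (l 16376392) (l 16372968))))) (c (b (a (l 16374832) (l 16378176)) (a (l 16355520) (l 16357576))) (b (a (c (l 16402296) (l 16401240)) (c (l 16402552) (l 16399272))) (a (c (l 16376800) (l 16371360)) (c (l 16376112) (l 16368704)))))) (a (c (b (a (l 16335048) (l 16338104)) (a (l 16325760) (l 16327512))) (b (a (c (l 16355168) (l 16369944)) (c (l 16355752) (l 16389712))) (a (c (l 16339128) (l 16370072)) (a (l 16364176) (l 16363344))))) (c (b (a (l 16339904) (l 16340968)) (a (l 16328200) (l 16328296))) (b (a (b (l 16366168) (l 16355056)) (b (l 16364008) (l 16352728))) (a (b (l 16345072) (l 16336232)) (b (l 16363456) (l 16354520)))))))), by decide +kernel⟩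

def k11_pm_012 : ∃ t, chk3 f_pm_012 t 14 4 1 = true :=
  ⟨(a (b (c (b (a (b (c (l 16506688) (l 16494200)) (c (l 16492880) (l 16521624))) (a (b (l 16470512) (l 16512880)) (l 16443912))) (a (l 16519360) (l 16421144))) (b (a (b (c (a (l 16564280) (l 16572016)) (a (l 16597584) (c (l 16596544) (b (l 16605352) (l 16583856))))) (c (a (l 16529936) (l 16552960)) (a (c (l 16554488) (b (l 16598560) (l 16585760))) (l 16584496)))) (a (b (c (l 16578416) (b (l 16568640) (l 16602760))) (l 16569832)) (c (l 16569504) (l 16557032)))) (c (a (b (l 16528776) (l 16506344)) (l 16499456)) (a (b (a (l 16537576) (l 16537904)) (l 16492040)) (a (l 16504536) (l 16546488)))))) (c (b (a (l 16440640) (l 16445480)) (a (l 16407944) (l 16411232))) (b (a (c (l 16474248) (b (l 16509992) (l 16486872))) (c (l 16475552) (l 16455232))) (a (c (l 16435200) (l 16454888)) (c (l 16435248) (l 16452600)))))) (b (c (b (a (l 16533920) (l 16541864)) (c (l 16441800) (l 16430032))) (a (b (c (l 16572672) (l 16548264)) (b (l 16547112) (l 16501048)))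 (b (l 16521568) (l 16535832)))) (c (a (b (l 16450040) (l 16414304)) (b (l 16454336) (l 16417144))) (b (a (c (l 16476704) (l 16495872)) (l 16465056)) (a (l 16442656) (l 16441504)))))), by decide +kernel⟩

def k12_pm_012 : ∃ t, chk3 f_pm_012 t 14 5 1 = true :=
  ⟨(b (a (c (b (a (l 16380696) (l 16382744)) (a (l 16358968) (l 16360192))) (b (a (c (l 16402056) (l 16396608)) (l 16407808)) (a (c (l 16374840) (l 16365520)) (c (l 16373536) (l 16362384))))) (c (a (b (l 16384672) (l 16361304)) (b (l 16386432) (l 16362320))) (a (b (l 16405992) (l 16355256)) (b (l 16404224) (l 16353248))))) (a (c (b (a (l 16341544) (l 16342096)) (a (l 16328336) (l 16328384))) (b (a (b (l 16361552) (l 16371128)) (a (l 16375072) (l 16352952))) (a (c (l 16333536) (b (l 16342512) (l 16332648))) (b (l 16337544) (l 16349672))))) (b (a (c (l 16342608) (b (l 16356984) (l 16345552))) (c (l 16343096) (b (l 16354960) (l 16343576)))) (a (c (l 16349448) (b (l 16335392) (l 16326664))) (c (b (l 16331464) (l 16325664)) (b (l 16333520)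 (l 16324968))))))), by decide +kernel⟩

def k13_pm_012 : ∃ t, chk3 f_pm_012 t 15 2 1 = true :=
  ⟨(b (a (a (b (c (l 16468304) (b (l 16550216) (l 16536976))) (b (c (l 16458352) (l 16485864)) (c (l 16419760) (l 16440368)))) (b (b (l 16483216) (l 16469912)) (b (l 16389632) (l 16367496)))) (b (a (b (l 16509784) (l 16504416)) (b (l 16514936) (l 16528152))) (b (a (l 16433224) (l 16434648)) (a (l 16410016) (l 16431432))))) (b (a (a (b (c (l 16388016) (l 16402536)) (c (l 16363232) (l 16351416))) (b (c (l 16389432) (l 16400968)) (a (l 16346320) (l 16346152)))) (a (b (l 16373928) (c (l 16364776) (l 16369368))) (b (l 16373664) (c (l 16365328) (l 16347224))))) (a (b (a (c (l 16343568) (b (l 16353176) (l 16341896))) (c (l 16344032) (b (l 16351672) (l 16340536)))) (a (c (b (l 16331720) (l 16325848)) (b (l 16331992) (l 16323664))) (c (b (l 16332040) (l 16326160)) (b (l 16330856) (l 16322808))))) (b (a (c (b (l 16348880) (l 16339736)) (b (l 16350480) (l 16339368))) (c (a (l 16344848) (l 16345448)) (b (l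 16349776) (l 16339416)))) (a (c (b (l 16332344) (l 16326592)) (b (l 16330064) (a (l 16322424) (l 16322568)))) (c (b (l 16333496) (l 16328272)) (b (l 16330560) (a (l 16323216) (l 16324568))))))))), by decide +kernel⟩

def k14_pm_012 : ∃ t, chk3 f_pm_012 t 6 6 1 = true :=
  ⟨(c (a (b (a (b (a (l 16306680) (l 16312304)) (a (l 16312448) (l 16316640))) (b (a (l 16316464) (l 16319304)) (a (l 16319504) (l 16321184)))) (a (b (a (l 16324288) (l 16327408)) (l 16365864)) (b (a (l 16329328) (l 16330208)) (a (l 16347304) (l 16347808))))) (b (a (b (a (l 16320952) (l 16321480)) (a (l 16321808) (l 16321536))) (b (a (l 16321376) (l 16320960)) (a (l 16320936) (l 16320456)))) (a (b (a (l 16330152) (l 16329832)) (a (l 16347968) (l 16348000))) (b (a (l 16329320) (l 16329160)) (a (l 16348376) (l 16349040)))))) (a (b (a (b (a (b (l 16327936) (l 16324032)) (b (l 16331160) (l 16326736))) (a (l 16320864) (l 16343872))) (b (a (b (l 16332992) (l 16328096)) (b (l 16333520) (l 16328216))) (a (b (l 16324568) (l 16322696))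 (b (l 16324320) (l 16322168))))) (a (b (a (l 16322080) (l 16323480)) (a (l 16330936) (l 16332136))) (b (a (l 16323744) (l 16322968)) (a (l 16332304) (l 16331568))))) (b (a (b (a (b (l 16332880) (l 16327208)) (b (l 16331200) (l 16325184))) (a (b (l 16323016) (l 16320648)) (b (l 16320800) (l 16318376)))) (b (a (b (l 16328688) (l 16322664)) (b (l 16346984) (l 16320056))) (a (b (l 16318232) (l 16316008)) (b (l 16315888) (l 16313960))))) (a (b (a (l 16342288) (b (l 16318288) (l 16320560))) (a (l 16330584) (l 16329592))) (b (a (b (l 16316224) (l 16319080)) (b (l 16314592) (l 16317992))) (a (l 16329120) (b (l 16324384) (l 16334008)))))))), by decide +kernel⟩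

def k15_pm_012 : ∃ t, chk3 f_pm_012 t 6 7 1 = true :=
  ⟨(b (a (a (b (c (l 16351320) (l 16328720)) (a (l 16393944) (l 16396656))) (b (a (l 16341968) (l 16342672)) (a (l 16399104) (l 16401504)))) (a (b (a (l 16343328) (l 16344424)) (c (l 16401024) (l 16389560))) (b (a (l 16304008) (c (l 16381848) (l 16334576))) (a (c (l 16427312) (l 16395160)) (c (l 16431560) (l 16399920)))))) (a (b (a (c (l 16461272) (l 16380856)) (c (l 16450288) (l 16369720))) (b (a (l 16465040) (l 16427104)) (a (c (l 16512568) (l 16494496)) (c (l 16557240) (l 16513344))))) (b (c (a (b (l 16465576) (l 16478656)) (b (l 16477240) (l 16493472))) (a (b (l 16428824) (l 16460504)) (b (l 16441904) (l 16477392)))) (a (b (c (l 16537192) (l 16496032)) (l 14)) (l 14))))), by decide +kernel⟩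

def k16_pm_012 : ∃ t, chk3 f_pm_012 t 14 6 1 = true :=
  ⟨(b (a (b (c (a (l 16320656) (l 16362384)) (a (c (l 16320568) (a (l 16321576) (l 16320200))) (b (l 16342360) (l 16315800)))) (c (a (l 16341088) (b (l 16318920) (l 16320976))) (a (b (l 16313848) (l 16312264)) (b (l 16312176) (l 16311000))))) (b (a (c (b (l 16321472) (l 16319168)) (b (l 16319536) (l 16314216))) (c (b (l 16321520) (l 16319248)) (b (l 16318088) (l 16334056)))) (a (c (b (l 16318896) (l 16321128)) (b (l 16310944) (l 16310240))) (c (b (l 16319096) (l 16321560)) (b (l 16331192) (l 16310040)))))) (a (b (a (c (l 16329224) (b (l 16313376) (l 16317384))) (c (b (l 16325768) (l 16333496)) (b (l 16312640) (l 16317320)))) (a (c (l 16350040) (b (l 16324512) (l 16335032))) (c (b (l 16344368) (l 16358624)) (b (l 16325264) (l 16336736))))) (b (a (c (b (l 16326232) (l 16334392)) (b (l 16312472) (l 16317880))) (c (b (l 16327024) (l 16335672)) (b (l 16312944) (l 16319152)))) (a (b (c (l 16345832) (l 16326704)) (c (l 16360808) (l 16339208)))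 (b (c (l 16347584) (l 16328744)) (c (l 16363480) (l 16342520))))))), by decide +kernel⟩

def k17_pm_012 : ∃ t, chk3 f_pm_012 t 30 6 1 = true :=
  ⟨(b (b (a (c (b (l 16321720) (l 16319536)) (b (l 16338056) (a (l 16312544) (l 16312368)))) (c (b (l 16322080) (l 16340896)) (b (a (l 16316640) (l 16316528)) (a (l 16312344) (l 16312448))))) (a (c (b (l 16319552) (l 16342984)) (b (a (l 16310032) (l 16310112)) (a (l 16310288) (l 16310560)))) (c (b (a (l 16319992) (l 16320592)) (a (l 16323088) (l 16324080))) (b (a (l 16310296) (l 16310880)) (a (l 16311288) (l 16312440)))))) (a (b (c (b (l 16328088) (l 16337440)) (b (a (l 16313728) (l 16314496)) (a (l 16320544) (l 16322064)))) (b (c (l 16371632) (a (l 16331272) (l 16333608))) (a (l 16356464) (l 16359584)))) (b (c (b (a (l 16329528) (l 16331192)) (a (l 16339776) (l 16342120))) (b (a (l 16315744) (l 16317752)) (a (l 16324144) (l 16327032)))) (b (a (c (l 16354040) (l 16336744)) (c (l 16357096) (l 16340536))) (a (c (l 16372576) (l 16353832)) (c (l 16376368)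 (l 16358552))))))), by decide +kernel⟩

def k18_pm_012 : ∃ t, chk3 f_pm_012 t 31 6 1 = true :=
  ⟨(b (b (a (c (b (l 16343808) (a (l 16320808) (l 16321856))) (b (a (l 16316584) (l 16317136)) (a (l 16313040) (l 16314144)))) (c (b (a (l 16324384) (l 16326088)) (a (l 16323504) (l 16325584))) (b (a (l 16318400) (l 16320272)) (a (l 16316000) (l 16318408))))) (a (c (b (a (l 16321600) (l 16323216)) (a (l 16325688) (l 16327816))) (b (a (l 16312000) (l 16313856)) (a (l 16314344) (l 16316904)))) (c (b (a (l 16325296) (l 16327760)) (a (l 16330360) (l 16354200))) (b (a (l 16316320) (b (l 16318688) (l 16319920))) (a (l 16320016) (a (l 16322648) (l 16324536))))))) (b (a (b (a (c (l 16333400) (l 16320448)) (c (l 16336072) (l 16323736))) (a (c (l 16344960) (l 16330544)) (c (l 16348200) (l 16334584)))) (a (b (c (l 16339104) (l 16348496)) (c (l 16351736) (a (l 16337904) (l 16340240)))) (b (c (b (l 16339648) (l 16345192)) (a (l 16330624) (l 16332800))) (c (a (l 16354520) (l 16356424)) (a (l 16342656) (l 16345136))))))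 (a (b (a (c (l 16360584) (l 16344896)) (c (l 16364408) (l 16349712))) (a (c (l 16380512) (l 16363768)) (c (l 16384920) (l 16369376)))) (b (a (c (l 16368464) (b (l 16350416) (l 16359440))) (c (a (l 16371584) (l 16373696)) (b (l 16355712) (l 16365064)))) (a (c (b (l 16383696) (l 16395320)) (b (l 16369624) (l 16380976))) (c (a (l 16392952) (b (l 16389336) (l 16401232))) (b (l 16375552) (a (l 16385648) (l 16388792))))))))), by decide +kernel⟩

def k19_pm_012 : ∃ t, chk3 f_pm_012 t 7 7 1 = true :=
  ⟨(a (b (b (a (a (c (l 16363392) (l 16337256)) (c (l 16366400) (l 16340728))) (a (c (l 16369808) (a (l 16343608) (l 16346216))) (c (b (l 16383504) (l 16408360)) (a (l 16349296) (l 16352864))))) (a (a (c (l 16436360) (l 16405528)) (b (l 16390456) (l 16443120))) (a (b (l 16397064) (l 16451880)) (b (c (l 16439424) (l 16413696)) (a (l 16460256) (l 14)))))) (b (a (b (a (l 16470872) (c (l 16495648) (l 16463880))) (l 14)) (l 14)) (l 14))) (b (a (b (a (c (a (l 16379816) (l 16383952)) (a (l 16357320) (l 16362440)))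 (a (b (c (l 16395576) (l 16375632)) (l 16392576)) (b (c (l 16400104) (l 16381288)) (l 16398504)))) (b (a (c (l 16449608) (l 16405248)) (c (l 16440240) (l 16419712))) (l 14))) (b (a (b (a (c (l 16404912) (l 16387368)) (c (l 16409904) (l 16393760))) (b (a (l 16417584) (a (l 16422200) (l 16425320))) (l 14))) (b (b (a (c (l 16408088) (l 16393544)) (c (c (l 16416216) (l 16409840)) (a (l 16398448) (l 16401744)))) (a (c (l 16422024) (l 16407336)) (a (b (l 16415576) (l 14)) (l 14)))) (l 14))) (l 14))) (l 14))), by decide +kernel⟩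

theorem s20_pm_012 : ∃ t, chk3 f_pm_012 t 15 6 1 = true := ex3_a k17_pm_012 k18_pm_012

theorem s21_pm_012 : ∃ t, chk3 f_pm_012 t 7 6 1 = true := ex3_a k16_pm_012 s20_pm_012

theorem s22_pm_012 : ∃ t, chk3 f_pm_012 t 7 3 1 = true := ex3_b s21_pm_012 k19_pm_012

theorem s23_pm_012 : ∃ t, chk3 f_pm_012 t 6 3 1 = true := ex3_b k14_pm_012 k15_pm_012

theorem s24_pm_012 : ∃ t, chk3 f_pm_012 t 3 3 1 = true := ex3_a s23_pm_012 s22_pm_012

theorem s25_pm_012 : ∃ t, chk3 f_pm_012 t 14 2 1 = true := ex3_b k11_pm_012 k12_pm_012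

theorem s26_pm_012 : ∃ t, chk3 f_pm_012 t 7 2 1 = true := ex3_a s25_pm_012 k13_pm_012

theorem s27_pm_012 : ∃ t, chk3 f_pm_012 t 13 4 1 = true := ex3_b k8_pm_012 k9_pm_012

theorem s28_pm_012 : ∃ t, chk3 f_pm_012 t 6 4 1 = true := ex3_a k7_pm_012 s27_pm_012

theorem s29_pm_012 : ∃ t, chk3 f_pm_012 t 6 2 1 = true := ex3_b s28_pm_012 k10_pm_012

theorem s30_pm_012 : ∃ t, chk3 f_pm_012 t 3 2 1 = true := ex3_a s29_pm_012 s26_pm_012

theorem s31_pm_012 : ∃ t, chk3 f_pm_012 t 3 1 1 = true := ex3_b s30_pm_012 s24_pm_012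

theorem s32_pm_012 : ∃ t, chk3 f_pm_012 t 2 3 1 = true := ex3_a k5_pm_012 k6_pm_012

theorem s33_pm_012 : ∃ t, chk3 f_pm_012 t 11 2 1 = true := ex3_b k3_pm_012 k4_pm_012

theorem s34_pm_012 : ∃ t, chk3 f_pm_012 t 10 2 1 = true := ex3_b k1_pm_012 k2_pm_012

theorem s35_pm_012 : ∃ t, chk3 f_pm_012 t 5 2 1 = true := ex3_a s34_pm_012 s33_pm_012

theorem s36_pm_012 : ∃ t, chk3 f_pm_012 t 2 2 1 = true := ex3_a k0_pm_012 s35_pm_012

theorem s37_pm_012 : ∃ t, chk3 f_pm_012 t 2 1 1 = true := ex3_b s36_pm_012 s32_pm_012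

theorem s38_pm_012 : ∃ t, chk3 f_pm_012 t 1 1 1 = true := ex3_a s37_pm_012 s31_pm_012

theorem c_pm_012 : CertB 0 536870912 0 536870912 923417968 42949674 3 eng mog cd0q0 cd0q2 pd1 false true false .pnp 0 1 2
    ndB0q0 ndB0q2 pcB1 cut_pm_012 Ext.none :=
  certB2 (fam := false) (s1 := true) (s2 := false) (a := 0) (b := 1) (c := 2) (cn := .pnp) (n1 := ndB0q0) (n2 := ndB0q2) (pc := pcB1) (cut := cut_pm_012) (xt := Ext.none) (P1 := 0) (W1 := 536870912) (P2 := 0) (W2 := 536870912) (P3 := 923417968) (W3 := 42949674) (N0 := 3) (En := eng) (mo := mog) (C1 := cd0q0) (C2 := cd0q2) (C3 := pd1)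
    rfl (fun _ => rfl) s38_pm_012

noncomputable def cut_pm_022 : Cut := Cut.of [[⟨3, 0, 0, 1449551462⟩], [⟨4, 0, 0, 2845415833⟩], [⟨0, 0, 0, 67108864⟩, ⟨1, 1, 0, 67108864⟩, ⟨2, 1, 0, 67108864⟩]]

noncomputable def f_pm_022 : ℕ → ℕ → ℕ → ℕ → Bool := onCell 0 536870912 0 536870912 923417968 42949674
    (rowB 3 eng mog cd0q0 cd0q2 pd2 0 false true false .pp 0 2 2 (qsf 0 536870912 0 536870912 2) ndB0q0 ndB0q2 pcB2 cut_pm_022 Ext.none)

def k0_pm_022 : ∃ t, chk3 f_pm_022 t 2 2 1 = true :=
  ⟨(a (a (b (a (a (b (l 16308920) (b (l 16300904) (l 16309872))) (b (l 16307840) (l 16312232))) (b (c (l 16341776) (l 16333584)) (a (l 16360680) (l 16386888)))) (a (b (b (a (a (l 16309872) (l 16326608)) (l 16351640)) (a (c (l 16332808) (l 16322248)) (l 16343368))) (a (b (c (l 16326784) (l 16315136)) (b (a (l 16346736) (l 16368096)) (c (l 16355320) (l 16342888)))) (b (l 16381944) (c (l 16410936) (l 16402128))))) (b (b (l 16316024) (a (l 16400024) (l 16433672))) (a (b (l 16420496) (l 16447688)) (b (l 16456672)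 (l 16486088)))))) (b (b (a (a (l 16365176) (l 16380976)) (a (l 16393992) (b (l 16388208) (l 16419288)))) (a (a (l 16411048) (l 16432432)) (b (l 16443784) (l 16451136)))) (a (b (a (l 16453536) (l 16479640)) (b (l 16483720) (l 16424384))) (b (b (l 16498432) (l 16524136)) (b (l 16502480) (l 16408760)))))) (a (a (b (b (a (b (b (a (l 16383680) (b (b (l 16380768) (l 16382768)) (l 16389248))) (l 16401384)) (l 16426072)) (b (b (b (a (b (l 16385592) (a (l 16383080) (l 16384208))) (a (l 16388248) (l 16390904))) (a (l 16389368) (a (l 16388848) (b (b (l 231961036407) (l 16387312)) (l 16390744))))) (a (l 16402520) (l 16402184))) (l 239477256199))) (b (a (l 16458424) (l 16462400)) (l 16492336))) (b (b (l 16521368) (l 16517808)) (b (l 16476456) (l 16349416)))) (b (b (l 1) (l 1)) (l 1))) (l 1))), by decide +kernel⟩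

def k1_pm_022 : ∃ t, chk3 f_pm_022 t 2 3 1 = true :=
  ⟨(a (b (a (b (a (b (a (a (b (c (l 16379800) (l 16366472)) (c (l 16395816) (l 16361584))) (b (l 16395984) (l 16391728))) (c (l 16400464) (l 16371064))) (a (b (a (c (a (l 16407768) (l 16419416)) (a (l 16394312) (l 16406880))) (l 16410256)) (a (b (c (l 16427880) (l 16415192)) (c (l 16437792) (l 16404416))) (l 16430256))) (a (b (l 16454864) (l 16475360)) (l 16446360)))) (a (b (l 16418680) (a (l 16489944) (l 16532712))) (b (l 16521864) (l 16555616)))) (a (a (b (a (b (b (a (b (l 16433104) (l 16438352)) (l 16448320)) (c (l 16437616) (l 16425912))) (b (c (l 16448512) (l 16437232)) (l 14))) (b (c (l 16477272) (l 16467648)) (c (l 16499440) (l 16490784)))) (l 14)) (b (a (b (l 16497096) (l 16520112)) (b (l 16521016) (l 16544360))) (b (a (l 16544448) (l 16547960)) (l 14)))) (b (a (a (l 16534960) (l 16578296)) (b (l 16545280) (l 16538544))) (a (c (l 16547440) (l 16545672)) (b (l 16489888) (l 16462264)))))) (b (a (a (b (l 16528376) (l 16509056)) (b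 (l 16490096) (l 16464560))) (b (a (l 16454888) (l 16423984)) (a (l 16423320) (l 1)))) (a (b (a (a (l 16502368) (l 16476480)) (b (l 16445056) (l 16432376))) (a (a (l 16463528) (l 16455704)) (b (l 16419872) (l 1)))) (b (a (l 16391824) (l 1)) (l 1))))) (b (a (a (l 14) (b (a (l 14) (b (a (l 14) (l 16502728)) (l 14))) (l 14))) (a (b (a (b (c (l 16462096) (l 16449248)) (l 14)) (l 1)) (l 1)) (l 1))) (l 14))) (b (l 1) (l 1))), by decide +kernel⟩

def k2_pm_022 : ∃ t, chk3 f_pm_022 t 3 1 1 = true :=
  ⟨(l 1), by decide +kernel⟩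

theorem s3_pm_022 : ∃ t, chk3 f_pm_022 t 2 1 1 = true := ex3_b k0_pm_022 k1_pm_022

theorem s4_pm_022 : ∃ t, chk3 f_pm_022 t 1 1 1 = true := ex3_a s3_pm_022 k2_pm_022

theorem c_pm_022 : CertB 0 536870912 0 536870912 923417968 42949674 3 eng mog cd0q0 cd0q2 pd2 false true false .pp 0 2 2
    ndB0q0 ndB0q2 pcB2 cut_pm_022 Ext.none :=
  certB0 (fam := false) (s1 := true) (s2 := false) (a := 0) (b := 2) (c := 2) (cn := .pp) (n1 := ndB0q0) (n2 := ndB0q2) (pc := pcB2) (cut := cut_pm_022) (xt := Ext.none) (P1 := 0) (W1 := 536870912) (P2 := 0) (W2 := 536870912) (P3 := 923417968) (W3 := 42949674) (N0 := 3) (En := eng) (mo := mog) (C1 := cd0q0) (C2 := cd0q2) (C3 := pd2)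
    rfl s4_pm_022

end Pool.Agent.Strip051.G.I8600_9000.Tab.C.BB00

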